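import Pool.Agent.Lib_MP_fa6e45.Base

/-!
PIECE A1 (about 150 lines): elementary facts on the angle `ang` and the directions `uu`, `ww`.

Put `U = V (i+1) - V i`, `W = V (i-1) - V i`, both nonzero (injectivity, `n ≥ 3`), `ang i` is the
representative of `arg (W / U)` in `(0, 2 π)`; `arg (W / U) ≠ 0, π` because the three corners are not
collinear (`P.corner`).
`ww_eq`: if the tile is direct, `ww / uu = W / U`; if it is reflected, `ww / uu = conj (U / W)`, which
has the same argument as `W / U`.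
-/

open Set MeasureTheory Complex
open scoped Topology

namespace Pool.Agent.Lib_MP_fa6e45

open Pool.Agent.Lib_PL (cr InSector Poly)

variable {n : ℕ} {P : Polygon n} {ι : Type}

private theorem A1_one (P : Polygon n) : (1 : ZMod n) ≠ 0 := by
  have h3 := P.three_le
  intro h
  have h1 : ((1 : ℕ) : ZMod n) = 0 := by exact_mod_cast h
  rw [ZMod.natCast_eq_zero_iff] at h1
  have := Nat.le_of_dvd one_pos h1
  omega

private theorem A1_two (P : Polygon n) : (2 : ZMod n) ≠ 0 := by
  have h3 := P.three_le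
  intro h
  have h1 : ((2 : ℕ) : ZMod n) = 0 := by exact_mod_cast h
  rw [ZMod.natCast_eq_zero_iff] at h1
  have := Nat.le_of_dvd two_pos h1
  omega

private theorem A1_U (P : Polygon n) (i : ZMod n) : P.vertex (i + 1) - P.vertex i ≠ 0 := by
  intro h
  have h1 := P.injective (sub_eq_zero.1 h)
  exact A1_one P (by simpa using h1)

private theorem A1_W (P : Polygon n) (i : ZMod n) : P.vertex (i - 1) - P.vertex i ≠ 0 := by
  intro h
  have h1 := P.injective (sub_eq_zero.1 h)
  exact A1_one P (by simpa using h1)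

/-- the quotient of the two directions at corner `i` is not real -/
private theorem A1_im (P : Polygon n) (i : ZMod n) :
    ((P.vertex (i - 1) - P.vertex i) / (P.vertex (i + 1) - P.vertex i)).im ≠ 0 := by
  intro h
  apply P.corner i
  set q := (P.vertex (i - 1) - P.vertex i) / (P.vertex (i + 1) - P.vertex i) with hq
  have h1 : (q : ℂ) = (q.re : ℂ) := by
    apply Complex.ext
    · simp
    · simp [h]
  have h2 : P.vertex (i - 1) - P.vertex i = (q.re : ℂ) * (P.vertex (i + 1) - P.vertex i) := by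
    rw [← h1, hq, div_mul_cancel₀ _ (A1_U P i)]
  rw [collinear_iff_of_mem (p₀ := P.vertex i) (by simp)]
  refine ⟨P.vertex (i + 1) - P.vertex i, ?_⟩
  intro p hp
  rcases hp with rfl | rfl | rfl
  · refine ⟨q.re, ?_⟩
    rw [vadd_eq_add, Complex.real_smul, ← h2]
    ring
  · exact ⟨0, by simp⟩
  · exact ⟨1, by simp⟩

private theorem A1_ang (P : Polygon n) (i : ZMod n) :
    0 < P.ang i ∧ P.ang i < 2 * Real.pi ∧ P.ang i ≠ Real.pi := by
  have h0 : arg ((P.vertex (i - 1) - P.vertex i) / (P.vertex (i + 1) - P.vertex i)) ≠ 0 := by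
    intro h
    exact A1_im P i (Complex.arg_eq_zero_iff.1 h).2
  have h1 : arg ((P.vertex (i - 1) - P.vertex i) / (P.vertex (i + 1) - P.vertex i)) ≠ Real.pi := by
    intro h
    exact A1_im P i (Complex.arg_eq_pi_iff.1 h).2
  have h2 := Complex.arg_le_pi
    ((P.vertex (i - 1) - P.vertex i) / (P.vertex (i + 1) - P.vertex i))
  have h3 := Complex.neg_pi_lt_arg
    ((P.vertex (i - 1) - P.vertex i) / (P.vertex (i + 1) - P.vertex i))
  have h4 := Real.pi_pos
  have h2' := lt_of_le_of_ne h2 h1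
  unfold Polygon.ang
  simp only
  split_ifs with h
  · exact ⟨h, by linarith, h1⟩
  · have h5 := lt_of_le_of_ne (not_lt.1 h) h0
    exact ⟨by linarith, by linarith, by intro h6; linarith⟩

private theorem A1_exp (P : Polygon n) (i : ZMod n) :
    exp ((P.ang i : ℂ) * Complex.I) =
      exp ((arg ((P.vertex (i - 1) - P.vertex i) / (P.vertex (i + 1) - P.vertex i)) : ℂ) *
        Complex.I) := by
  unfold Polygon.ang
  simp only
  split_ifs with h
  · rfl
  · push_cast
    rw [add_mul, Complex.exp_add, Complex.exp_two_pi_mul_I, mul_one]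

private theorem A1_q (P : Polygon n) (i : ZMod n) :
    (P.vertex (i - 1) - P.vertex i) / (P.vertex (i + 1) - P.vertex i) =
      ((‖P.vertex (i - 1) - P.vertex i‖ / ‖P.vertex (i + 1) - P.vertex i‖ : ℝ) : ℂ) *
        exp ((P.ang i : ℂ) * Complex.I) := by
  rw [A1_exp, ← norm_div]
  exact (Complex.norm_mul_exp_arg_mul_I _).symm

private theorem A1_len (P : Polygon n) (i : ZMod n) : P.len i = ‖P.vertex (i + 1) - P.vertex i‖ := by
  unfold Polygon.len
  rw [dist_comm, dist_eq_norm]

private theorem A1_len' (P : Polygon n) (i : ZMod n) :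
    P.len (i - 1) = ‖P.vertex (i - 1) - P.vertex i‖ := by
  unfold Polygon.len
  rw [sub_add_cancel, dist_eq_norm]

private theorem A1_alg1 {U W E a b : ℂ} (ha : a ≠ 0) (hb : b ≠ 0) (hE : E ≠ 0)
    (hq : W = b / a * E * U) : U = -W * (a / b) * -E⁻¹ := by
  rw [hq]
  field_simp

private theorem A1_alg2 {U W E a b cU cW : ℂ} (ha : a ≠ 0) (hb : b ≠ 0) (hW : W ≠ 0)
    (hU : cU * U = a ^ 2) (hWc : cW * W = b ^ 2)
    (hq : W = b / a * E * U) : cU = cW * (a / b) * E := by
  have h1 : cU * W = a * b * E := by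
    rw [hq]
    have : cU * (b / a * E * U) = b / a * E * (cU * U) := by ring
    rw [this, hU]
    field_simp
  have h2 : cU * W = cW * (a / b) * E * W := by
    rw [h1]
    have : cW * (a / b) * E * W = (a / b) * E * (cW * W) := by ring
    rw [this, hWc]
    field_simp
  exact mul_right_cancel₀ hW h2

theorem Polygon.ang_pos (P : Polygon n) (i : ZMod n) : 0 < P.ang i := (A1_ang P i).1

theorem Polygon.ang_lt (P : Polygon n) (i : ZMod n) : P.ang i < 2 * Real.pi := (A1_ang P i).2.1

theorem Polygon.ang_ne (P : Polygon n) (i : ZMod n) : P.ang i ≠ Real.pi := (A1_ang P i).2.2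

theorem Polygon.len_pos (P : Polygon n) (i : ZMod n) : 0 < P.len i := by
  rw [A1_len]
  exact norm_pos_iff.2 (A1_U P i)

theorem Polygon.side_turn (P : Polygon n) (i : ZMod n) :
    P.vertex (i + 1) - P.vertex i = (P.vertex i - P.vertex (i - 1)) *
      ((P.len i / P.len (i - 1) : ℝ) : ℂ) * exp ((((Real.pi - P.ang i : ℝ)) : ℂ) * Complex.I) := by
  have hU := A1_U P i
  have hW := A1_W P i
  have hq := A1_q P i
  rw [A1_len, A1_len']
  have hE : exp ((((Real.pi - P.ang i : ℝ)) : ℂ) * Complex.I) =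
      -(exp ((P.ang i : ℂ) * Complex.I))⁻¹ := by
    rw [← Complex.exp_neg]
    push_cast
    rw [sub_mul, sub_eq_add_neg, Complex.exp_add, Complex.exp_pi_mul_I]
    ring
  rw [hE]
  have hE0 := Complex.exp_ne_zero ((P.ang i : ℂ) * Complex.I)
  have hU' : ((‖P.vertex (i + 1) - P.vertex i‖ : ℝ) : ℂ) ≠ 0 := by
    exact_mod_cast norm_ne_zero_iff.2 hU
  have hW' : ((‖P.vertex (i - 1) - P.vertex i‖ : ℝ) : ℂ) ≠ 0 := by
    exact_mod_cast norm_ne_zero_iff.2 hW
  set U := P.vertex (i + 1) - P.vertex i with hUdef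
  set W := P.vertex (i - 1) - P.vertex i with hWdef
  have h1 : P.vertex i - P.vertex (i - 1) = -W := by
    rw [hWdef]
    ring
  rw [h1]
  push_cast at hq ⊢
  rw [div_eq_iff hU] at hq
  exact A1_alg1 hU' hW' hE0 hq

theorem Til.norm_uu (T : Til P ι) (c : ι × ZMod n) : ‖T.uu c‖ = P.len (enS T.rf c) := by
  unfold Til.uu Til.vx fwd enS
  rw [Mo.app_sub, Mo.norm_lin]
  simp only
  split_ifs
  · rw [A1_len']
  · rw [A1_len]

theorem Til.norm_ww (T : Til P ι) (c : ι × ZMod n) : ‖T.ww c‖ = P.len (exS T.rf c) := by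
  unfold Til.ww Til.vx bwd exS
  rw [Mo.app_sub, Mo.norm_lin]
  simp only
  split_ifs
  · rw [A1_len]
  · rw [A1_len']

theorem Til.uu_ne (T : Til P ι) (c : ι × ZMod n) : T.uu c ≠ 0 := by
  rw [← norm_pos_iff, Til.norm_uu]
  exact P.len_pos _

theorem Til.ww_ne (T : Til P ι) (c : ι × ZMod n) : T.ww c ≠ 0 := by
  rw [← norm_pos_iff, Til.norm_ww]
  exact P.len_pos _

theorem Til.ww_eq (T : Til P ι) (c : ι × ZMod n) :
    T.ww c = T.uu c * ((‖T.ww c‖ / ‖T.uu c‖ : ℝ) : ℂ) * exp ((P.ang c.2 : ℂ) * Complex.I) := by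
  have hU := A1_U P c.2
  have hW := A1_W P c.2
  have hq := A1_q P c.2
  have hU' : ((‖P.vertex (c.2 + 1) - P.vertex c.2‖ : ℝ) : ℂ) ≠ 0 := by
    exact_mod_cast norm_ne_zero_iff.2 hU
  have hW' : ((‖P.vertex (c.2 - 1) - P.vertex c.2‖ : ℝ) : ℂ) ≠ 0 := by
    exact_mod_cast norm_ne_zero_iff.2 hW
  rw [Til.norm_uu, Til.norm_ww]
  unfold Til.ww Til.uu Til.vx fwd bwd enS exS
  rw [Mo.app_sub, Mo.app_sub]
  by_cases hr : T.rf c.1 = true
  · simp only [hr, if_true]
    rw [A1_len, A1_len']
    have hl : ∀ z : ℂ, (T.g c.1).lin z = (T.g c.1).a * (starRingEnd ℂ) z := by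
      intro z
      have hr' : (T.g c.1).rf = true := hr
      unfold Mo.lin
      rw [if_pos hr']
    rw [hl, hl]
    set U := P.vertex (c.2 + 1) - P.vertex c.2
    set W := P.vertex (c.2 - 1) - P.vertex c.2
    have hcU : (starRingEnd ℂ) U * U = (‖U‖ : ℂ) ^ 2 := by
      rw [mul_comm, Complex.mul_conj, Complex.normSq_eq_norm_sq]
      push_cast
      rfl
    have hcW : (starRingEnd ℂ) W * W = (‖W‖ : ℂ) ^ 2 := by
      rw [mul_comm, Complex.mul_conj, Complex.normSq_eq_norm_sq]
      push_cast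
      rfl
    push_cast at hq ⊢
    rw [div_eq_iff hU] at hq
    have hE0 := Complex.exp_ne_zero ((P.ang c.2 : ℂ) * Complex.I)
    set E := exp ((P.ang c.2 : ℂ) * Complex.I)
    have h3 := A1_alg2 hU' hW' hW hcU hcW hq
    rw [h3]
    ring
  · have hr2 : T.rf c.1 = false := by simpa using hr
    simp only [hr2, Bool.false_eq_true, if_false]
    rw [A1_len', A1_len]
    have hl : ∀ z : ℂ, (T.g c.1).lin z = (T.g c.1).a * z := by
      intro z
      have hr' : (T.g c.1).rf = false := hr2
      unfold Mo.lin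
      rw [hr']
      simp
    rw [hl, hl]
    rw [div_eq_iff hU] at hq
    set U := P.vertex (c.2 + 1) - P.vertex c.2
    set W := P.vertex (c.2 - 1) - P.vertex c.2
    calc (T.g c.1).a * W = (T.g c.1).a * (((‖W‖ / ‖U‖ : ℝ) : ℂ) * exp ((P.ang c.2 : ℂ) * Complex.I) * U) := by
          rw [← hq]
      _ = _ := by ring

/-- two corners of one tile at the same point are equal -/
theorem Til.vx_inj (T : Til P ι) {t : ι} {i j : ZMod n} (h : T.vx (t, i) = T.vx (t, j)) : i = j :=
  P.injective ((T.g t).app_injective h)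

/-- a side of a tile is determined by its two ends -/
theorem Polygon.side_inj (P : Polygon n) {e f : ZMod n}
    (h : ({P.vertex e, P.vertex (e + 1)} : Set ℂ) = {P.vertex f, P.vertex (f + 1)}) : e = f := by
  have h1 : P.vertex e ∈ ({P.vertex f, P.vertex (f + 1)} : Set ℂ) := by
    rw [← h]
    simp
  have h2 : P.vertex (e + 1) ∈ ({P.vertex f, P.vertex (f + 1)} : Set ℂ) := by
    rw [← h]
    simp
  rcases h1 with h1 | h1
  · exact P.injective h1
  · have h1' := P.injective h1
    rcases h2 with h2 | h2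
    · have h2' := P.injective h2
      exfalso
      apply A1_two P
      have h3 : f + 1 + 1 = f := by rw [← h1']; exact h2'
      have h4 : f + 2 = f + 0 := by
        rw [add_zero]
        calc f + 2 = f + 1 + 1 := by ring
          _ = f := h3
      exact add_left_cancel h4
    · have h2' := P.injective h2
      exact add_right_cancel h2'

end Pool.Agent.Lib_MP_fa6e45
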