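import Pool.Agent.Lib_MP_fa6e45.Base

/-!
PIECE A1b (about 200 lines): the local form of a tile near a corner and near a point of a side,
from `Lib_PL.Poly.sector` (use the integer `i.val` or any integer lift `m` of `i : ZMod n`:
`P.toPoly.V m = P.vertex (m : ZMod n)` is `rfl`; `γ m = V m`, `ep_int`, `em_int`; for a point of an open
side `γ_image_Ioo`, `InSector_NI`, `ep_NI`, `em_NI`). Transport by the motion: `Mo.app_add`,
`Mo.cr_lin`, `InSector` of `lin u`, `lin v`, `lin d` (reflected: swapped, `InSector (lin v) (lin u)`).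
-/

open Set MeasureTheory Complex
open scoped Topology

namespace Pool.Agent.Lib_MP_fa6e45

open Pool.Agent.Lib_PL (cr InSector Poly)

variable {n : ℕ} {P : Polygon n} {ι : Type}

theorem Polygon.region_eq (P : Polygon n) : P.region = P.toPoly.R :=
  (P.toSimplePolygon.toPoly_R).symm

private theorem A1b_V (P : Polygon n) (m : ℤ) : P.toPoly.V m = P.vertex (m : ZMod n) := rfl

private theorem A1b_V1 (P : Polygon n) (m : ℤ) :
    P.toPoly.V (m + 1) = P.vertex ((m : ZMod n) + 1) := by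
  rw [A1b_V]
  push_cast
  rfl

private theorem A1b_V2 (P : Polygon n) (m : ℤ) :
    P.toPoly.V (m - 1) = P.vertex ((m : ZMod n) - 1) := by
  rw [A1b_V]
  push_cast
  rfl

theorem Polygon.bdry_eq (P : Polygon n) :
    P.bdry = ⋃ i : ZMod n, segment ℝ (P.vertex i) (P.vertex (i + 1)) := by
  ext z
  unfold Polygon.bdry Poly.C
  rw [mem_iUnion, mem_iUnion]
  constructor
  · rintro ⟨i, hi⟩
    refine ⟨(i : ZMod n), ?_⟩
    rw [← A1b_V1]
    exact hi
  · rintro ⟨i, hi⟩
    obtain ⟨m, rfl⟩ := ZMod.intCast_surjective i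
    refine ⟨m, ?_⟩
    rw [← A1b_V1] at hi
    exact hi

theorem Polygon.region_closed (P : Polygon n) : IsClosed P.region := by
  rw [P.region_eq]
  exact P.toPoly.R_closed

theorem Polygon.region_bounded (P : Polygon n) : Bornology.IsBounded P.region := by
  rw [P.region_eq]
  exact P.toPoly.R_bounded

theorem Polygon.inner_open (P : Polygon n) : IsOpen P.inner := P.toPoly.I_open

theorem Polygon.region_union (P : Polygon n) : P.region = P.bdry ∪ P.inner := by
  rw [P.region_eq]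
  rfl

theorem Polygon.bdry_disj (P : Polygon n) : Disjoint P.bdry P.inner :=
  Set.disjoint_left.2 fun _ h h' => P.toPoly.I_disj_C h' h

theorem Polygon.bdry_subset_closure (P : Polygon n) : P.bdry ⊆ closure P.inner := by
  have h := P.toPoly.frontier_I
  unfold Polygon.bdry Polygon.inner
  rw [← h]
  exact frontier_subset_closure

/-- (every boundary point is a limit of exterior points) -/
theorem Polygon.interior_region (P : Polygon n) : interior P.region = P.inner := by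
  apply Subset.antisymm
  · intro z hz
    have h1 : z ∈ P.region := interior_subset hz
    rw [P.region_union] at h1
    rcases h1 with h1 | h1
    · exfalso
      obtain ⟨x, hx⟩ := (P.toPoly.mem_C_iff z).1 h1
      obtain ⟨ε, hε, hb⟩ := Metric.isOpen_iff.1 isOpen_interior z hz
      obtain ⟨w, hw, hwn⟩ := P.toPoly.ext_near x hε
      have h2 : w ∈ interior P.region := by
        apply hb
        rw [Metric.mem_ball, dist_eq_norm, ← hx]
        exact hwn
      have h3 := interior_subset h2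
      rw [P.region_eq] at h3
      exact hw h3
    · exact h1
  · apply interior_maximal _ P.inner_open
    rw [P.region_union]
    exact subset_union_right

theorem Polygon.inner_nonempty (P : Polygon n) : P.inner.Nonempty := by
  have h1 : P.toPoly.γ 0 ∈ P.bdry := P.toPoly.γ_mem_C 0
  exact closure_nonempty_iff.1 ⟨_, P.bdry_subset_closure h1⟩

private theorem A1b_lin_surj (g : Mo) (d : ℂ) : ∃ d', g.lin d' = d ∧ ‖d'‖ = ‖d‖ := by
  have h := g.app_inv (d + g.b)
  have h2 : g.lin (g.inv.app (d + g.b)) = d := by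
    unfold Mo.app at h ⊢
    exact add_right_cancel h
  exact ⟨_, h2, by rw [← g.norm_lin, h2]⟩

private theorem A1b_mem (g : Mo) (S : Set ℂ) (z d : ℂ) :
    g.app z + g.lin d ∈ g.app '' S ↔ z + d ∈ S := by
  rw [← g.app_add]
  exact g.app_injective.mem_set_image

private theorem A1b_cr_corner (P : Polygon n) (i : ZMod n) :
    cr (P.vertex (i + 1) - P.vertex i) (P.vertex (i - 1) - P.vertex i) ≠ 0 := by
  intro h
  have hu : P.vertex (i + 1) - P.vertex i ≠ 0 := by
    obtain ⟨m, rfl⟩ := ZMod.intCast_surjective i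
    rw [← A1b_V1, ← A1b_V, sub_ne_zero]
    exact (P.toPoly.V_ne m).symm
  obtain ⟨t, ht⟩ := Pool.Agent.Lib_PL.cr_eq_zero hu h
  apply P.corner i
  rw [collinear_iff_of_mem (p₀ := P.vertex i) (by simp)]
  refine ⟨P.vertex (i + 1) - P.vertex i, ?_⟩
  intro p hp
  simp only [mem_insert_iff, mem_singleton_iff] at hp
  rcases hp with rfl | rfl | rfl
  · refine ⟨t, ?_⟩
    rw [vadd_eq_add, Complex.real_smul, ← ht]
    ring
  · exact ⟨0, by simp⟩
  · exact ⟨1, by simp⟩

private theorem A1b_sector (g : Mo) {u v : ℂ} (h : cr u v ≠ 0) (d : ℂ) :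
    (g.rf = false → (InSector (g.lin u) (g.lin v) (g.lin d) ↔ InSector u v d)) ∧
    (g.rf = true → (InSector (g.lin u) (g.lin v) (g.lin d) ↔ InSector v u d)) := by
  constructor
  · intro hr
    unfold InSector
    simp only [g.cr_lin, hr, Bool.false_eq_true, if_false]
  · intro hr
    unfold InSector
    simp only [g.cr_lin, hr, if_true]
    have e1 : cr v u = -cr u v := Pool.Agent.Lib_PL.cr_swap v u
    have e2 : cr v d = -cr d v := Pool.Agent.Lib_PL.cr_swap v d
    have e3 : cr d u = -cr u d := Pool.Agent.Lib_PL.cr_swap d u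
    rw [e1, e2, e3]
    have h' : -cr u v ≠ 0 := neg_ne_zero.2 h
    tauto

/-- local form near a corner -/
theorem Til.local_corner (hc : P.CCW) (T : Til P ι) (c : ι × ZMod n) : ∃ ρ > 0, ∀ d : ℂ, ‖d‖ < ρ →
    (T.vx c + d ∈ T.I c.1 ↔ InSector (T.uu c) (T.ww c) d) ∧
    (T.vx c + d ∈ T.C c.1 ↔ d = 0 ∨ (∃ t : ℝ, 0 < t ∧ d = (t : ℂ) * T.uu c) ∨
      (∃ t : ℝ, 0 < t ∧ d = (t : ℂ) * T.ww c)) ∧
    (T.vx c + d ∉ T.R c.1 ↔ InSector (T.ww c) (T.uu c) d) := by
  obtain ⟨t, i⟩ := c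
  obtain ⟨m, hm⟩ := ZMod.intCast_surjective i
  obtain ⟨ρ, hρ, hs⟩ := P.toPoly.sector hc m
  refine ⟨ρ, hρ, fun d hd => ?_⟩
  obtain ⟨d', hd1, hd2⟩ := A1b_lin_surj (T.g t) d
  have hs' := hs d' (by rw [hd2]; exact hd)
  have hcr := A1b_cr_corner P i
  have hcr' : cr (P.vertex (i - 1) - P.vertex i) (P.vertex (i + 1) - P.vertex i) ≠ 0 := by
    rw [Pool.Agent.Lib_PL.cr_swap]
    exact neg_ne_zero.2 hcr
  rw [P.toPoly.γ_int, P.toPoly.ep_int, P.toPoly.em_int, A1b_V1, A1b_V2, A1b_V, hm] at hs'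
  have eI : T.vx (t, i) + d ∈ T.I t ↔ P.vertex i + d' ∈ P.toPoly.I := by
    rw [← hd1]
    exact A1b_mem (T.g t) _ _ _
  have eC : T.vx (t, i) + d ∈ T.C t ↔ P.vertex i + d' ∈ P.toPoly.C := by
    rw [← hd1]
    exact A1b_mem (T.g t) _ _ _
  have eR : T.vx (t, i) + d ∈ T.R t ↔ P.vertex i + d' ∈ P.toPoly.R := by
    rw [← hd1, ← P.region_eq]
    exact A1b_mem (T.g t) _ _ _
  have e0 : d = 0 ↔ d' = 0 := by
    rw [← norm_eq_zero, ← hd2, norm_eq_zero]
  have et : ∀ w : ℂ, (∃ t' : ℝ, 0 < t' ∧ d = (t' : ℂ) * (T.g t).lin w) ↔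
      ∃ t' : ℝ, 0 < t' ∧ d' = (t' : ℂ) * w := by
    intro w
    refine exists_congr fun t' => and_congr_right fun _ => ?_
    rw [← hd1, ← (T.g t).lin_mul]
    exact (T.g t).lin_injective.eq_iff
  cases hr : (T.g t).rf
  · have hu : T.uu (t, i) = (T.g t).lin (P.vertex (i + 1) - P.vertex i) := by
      rw [← (T.g t).app_sub]
      unfold Til.uu Til.vx fwd Til.rf
      simp [hr]
    have hw : T.ww (t, i) = (T.g t).lin (P.vertex (i - 1) - P.vertex i) := by
      rw [← (T.g t).app_sub]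
      unfold Til.ww Til.vx bwd Til.rf
      simp [hr]
    refine ⟨?_, ?_, ?_⟩
    · rw [eI, hs'.1, hu, hw, ← hd1]
      exact ((A1b_sector (T.g t) hcr d').1 hr).symm
    · rw [eC, hs'.2.1, hu, hw, et, et, e0]
    · rw [eR, hs'.2.2, hu, hw, ← hd1]
      exact ((A1b_sector (T.g t) hcr' d').1 hr).symm
  · have hu : T.uu (t, i) = (T.g t).lin (P.vertex (i - 1) - P.vertex i) := by
      rw [← (T.g t).app_sub]
      unfold Til.uu Til.vx fwd Til.rf
      simp [hr]
    have hw : T.ww (t, i) = (T.g t).lin (P.vertex (i + 1) - P.vertex i) := by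
      rw [← (T.g t).app_sub]
      unfold Til.ww Til.vx bwd Til.rf
      simp [hr]
    refine ⟨?_, ?_, ?_⟩
    · rw [eI, hs'.1, hu, hw, ← hd1]
      exact ((A1b_sector (T.g t) hcr' d').2 hr).symm
    · rw [eC, hs'.2.1, hu, hw, et, et, e0]
      exact or_congr Iff.rfl or_comm
    · rw [eR, hs'.2.2, hu, hw, ← hd1]
      exact ((A1b_sector (T.g t) hcr d').2 hr).symm

private theorem A1b_aff (g : Mo) (a b : ℝ) (hab : a + b = 1) (x y : ℂ) :
    g.app (a • x + b • y) = a • g.app x + b • g.app y := by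
  simp only [Complex.real_smul]
  have h1 : g.app ((a : ℂ) * x + (b : ℂ) * y) =
      (a : ℂ) * g.lin x + (b : ℂ) * g.lin y + g.b := by
    unfold Mo.app
    rw [g.lin_add, g.lin_mul, g.lin_mul]
  rw [h1]
  unfold Mo.app
  have h2 : (a : ℂ) + (b : ℂ) = 1 := by exact_mod_cast hab
  linear_combination (-(g.b)) * h2

private theorem A1b_openSegment (g : Mo) (x y : ℂ) :
    openSegment ℝ (g.app x) (g.app y) = g.app '' openSegment ℝ x y := by
  ext z
  constructor
  · rintro ⟨a, b, ha, hb, hab, rfl⟩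
    exact ⟨_, ⟨a, b, ha, hb, hab, rfl⟩, A1b_aff g a b hab x y⟩
  · rintro ⟨w, ⟨a, b, ha, hb, hab, rfl⟩, rfl⟩
    exact ⟨a, b, ha, hb, hab, (A1b_aff g a b hab x y).symm⟩

/-- local form near a point of an open side: a half disc (on the left of the side if the tile is
direct, on the right if it is reflected) -/
theorem Til.local_side (hc : P.CCW) (T : Til P ι) (t : ι) (e : ZMod n) (z : ℂ)
    (hz : z ∈ openSegment ℝ (T.vx (t, e)) (T.vx (t, e + 1))) : ∃ ρ > 0, ∀ d : ℂ, ‖d‖ < ρ →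
    (z + d ∈ T.I t ↔ 0 < (if T.rf t then (-1 : ℝ) else 1) * cr (T.vx (t, e + 1) - T.vx (t, e)) d) ∧
    (z + d ∉ T.R t ↔ (if T.rf t then (-1 : ℝ) else 1) * cr (T.vx (t, e + 1) - T.vx (t, e)) d < 0) := by
  obtain ⟨m, hm⟩ := ZMod.intCast_surjective e
  have hz1 : z ∈ (T.g t).app '' openSegment ℝ (P.vertex e) (P.vertex (e + 1)) := by
    rw [← A1b_openSegment]
    exact hz
  obtain ⟨z', hz', rfl⟩ := hz1
  rw [← hm, ← A1b_V1, ← A1b_V, ← P.toPoly.γ_image_Ioo] at hz'
  obtain ⟨x, ⟨hx1, hx2⟩, rfl⟩ := hz'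
  obtain ⟨hNI, hfl⟩ := Poly.NI_of_Ioo hx1 hx2
  obtain ⟨ρ, hρ, hs⟩ := P.toPoly.sector hc x
  refine ⟨ρ, hρ, fun d hd => ?_⟩
  obtain ⟨d', hd1, hd2⟩ := A1b_lin_surj (T.g t) d
  have hs' := hs d' (by rw [hd2]; exact hd)
  have hed : P.toPoly.ed x = P.vertex (e + 1) - P.vertex e := by
    unfold Poly.ed
    rw [hfl, A1b_V1, A1b_V, hm]
  have hI : P.toPoly.γ x + d' ∈ P.toPoly.I ↔ 0 < cr (P.vertex (e + 1) - P.vertex e) d' := by
    rw [hs'.1, P.toPoly.InSector_NI hNI, hed]
  have hR : P.toPoly.γ x + d' ∉ P.toPoly.R ↔ cr (P.vertex (e + 1) - P.vertex e) d' < 0 := by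
    rw [hs'.2.2]
    obtain ⟨a, ha, h1⟩ := P.toPoly.ep_NI hNI
    obtain ⟨b, hb, h2⟩ := P.toPoly.em_NI hNI
    have h3 : cr (P.toPoly.em x) (P.toPoly.ep x) = 0 := by
      rw [h1, h2, Pool.Agent.Lib_PL.cr_neg_left, Pool.Agent.Lib_PL.cr_mul_left,
        Pool.Agent.Lib_PL.cr_mul_right, Pool.Agent.Lib_PL.cr_self]
      ring
    rw [Pool.Agent.Lib_PL.InSector_flat h3, h2, Pool.Agent.Lib_PL.cr_neg_left,
      Pool.Agent.Lib_PL.cr_mul_left, hed]
    constructor
    · intro h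
      by_contra h'
      push Not at h'
      have := mul_nonneg hb.le h'
      linarith
    · intro h
      have := mul_neg_of_pos_of_neg hb h
      linarith
  have eI : (T.g t).app (P.toPoly.γ x) + d ∈ T.I t ↔ P.toPoly.γ x + d' ∈ P.toPoly.I := by
    rw [← hd1]
    exact A1b_mem (T.g t) _ _ _
  have eR : (T.g t).app (P.toPoly.γ x) + d ∈ T.R t ↔ P.toPoly.γ x + d' ∈ P.toPoly.R := by
    rw [← hd1, ← P.region_eq]
    exact A1b_mem (T.g t) _ _ _
  have hcr : (if T.rf t then (-1 : ℝ) else 1) * cr (T.vx (t, e + 1) - T.vx (t, e)) d =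
      cr (P.vertex (e + 1) - P.vertex e) d' := by
    have h1 : T.vx (t, e + 1) - T.vx (t, e) = (T.g t).lin (P.vertex (e + 1) - P.vertex e) :=
      (T.g t).app_sub _ _
    rw [h1, ← hd1, (T.g t).cr_lin]
    unfold Til.rf
    cases (T.g t).rf <;> simp
  rw [eI, eR, hcr]
  exact ⟨hI, hR⟩

/-- a point of the boundary of a tile is a corner or lies in an open side -/
theorem Til.mem_C (T : Til P ι) {t : ι} {z : ℂ} (hz : z ∈ T.C t) :
    (∃ i : ZMod n, z = T.vx (t, i)) ∨
      ∃ e : ZMod n, z ∈ openSegment ℝ (T.vx (t, e)) (T.vx (t, e + 1)) := by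
  obtain ⟨w, hw, rfl⟩ := hz
  rw [P.bdry_eq] at hw
  obtain ⟨i, hi⟩ := mem_iUnion.1 hw
  rw [← insert_endpoints_openSegment] at hi
  rcases hi with rfl | rfl | hi
  · exact Or.inl ⟨i, rfl⟩
  · exact Or.inl ⟨i + 1, rfl⟩
  · refine Or.inr ⟨i, ?_⟩
    have h := A1b_openSegment (T.g t) (P.vertex i) (P.vertex (i + 1))
    unfold Til.vx
    simp only
    rw [h]
    exact ⟨w, hi, rfl⟩

end Pool.Agent.Lib_MP_fa6e45
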