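import Pool.Agent.Lib_MP_fa6e45.Base

/-!
PIECE A1s (about 130 lines): the area of a sector of a disc.
Rotate by `u / ‖u‖` (measure preserving: `(rotation _).measurePreserving` or
`LinearIsometryEquiv.measurePreserving`), then polar coordinates (`Complex.polarCoord`,
`Complex.lintegral_comp_polarCoord_symm` or `integral_comp_polarCoord_symm`): `InSector 1 (exp (θ I)) d`
says that the argument of `d`, taken in `(0, 2 π)`, is less than `θ` (so `arg d ∈ (0, θ)` if `θ ≤ π`, and
`arg d ∈ (0, π]` or `arg d < θ - 2 π` if `θ > π`). `cr u (s v) = s cr u v`: only directions matter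
(`Lib_PL` Alg.lean: `InSector_smul'`). Note that `InSector u v d` for `cr u v = 0` is `0 < cr u d`
(a half disc; here `θ = π`).
-/

open Set MeasureTheory Complex
open scoped Topology

namespace Pool.Agent.Lib_MP_fa6e45

open Pool.Agent.Lib_PL (cr InSector Poly)

private theorem lint_id {r : ℝ} (hr : 0 < r) :
    ∫⁻ x in Ioo (0 : ℝ) r, ENNReal.ofReal x = ENNReal.ofReal (r ^ 2 / 2) := by
  rw [← MeasureTheory.ofReal_integral_eq_lintegral_ofReal]
  · congr 1
    rw [← MeasureTheory.integral_Ioc_eq_integral_Ioo, ← intervalIntegral.integral_of_le hr.le,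
      integral_id]
    ring
  · exact (continuous_id.integrableOn_Icc (μ := volume)).mono_set Ioo_subset_Icc_self
  · filter_upwards [ae_restrict_mem measurableSet_Ioo] with x hx
    exact hx.1.le

private theorem core {r : ℝ} (hr : 0 < r) {Φ : Set ℝ} (hΦ : MeasurableSet Φ)
    (hsub : Φ ⊆ Ioo (-Real.pi) Real.pi) {S : Set ℂ} (hSm : MeasurableSet S)
    (hS : ∀ ρ φ : ℝ, 0 < ρ → -Real.pi < φ → φ < Real.pi →
      ((ρ : ℂ) * (Real.cos φ + Real.sin φ * Complex.I) ∈ S ↔ ρ < r ∧ φ ∈ Φ)) :
    volume S = ENNReal.ofReal (r ^ 2 / 2) * volume Φ := by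
  rw [← lintegral_indicator_one hSm, ← Complex.lintegral_comp_polarCoord_symm]
  have h1 : ∫⁻ p in polarCoord.target, ENNReal.ofReal p.1 •
      (S.indicator 1 (Complex.polarCoord.symm p) : ENNReal) =
      ∫⁻ p in polarCoord.target, (Ioo (0 : ℝ) r ×ˢ Φ).indicator (fun p => ENNReal.ofReal p.1) p := by
    refine setLIntegral_congr_fun polarCoord.open_target.measurableSet ?_
    rintro ⟨ρ, φ⟩ hp
    rw [polarCoord_target] at hp
    obtain ⟨h2, h3, h4⟩ := hp
    have h5 := hS ρ φ h2 h3 h4
    simp only [Complex.polarCoord_symm_apply]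
    by_cases h6 : ρ < r ∧ φ ∈ Φ
    · rw [indicator_of_mem (h5.2 h6), indicator_of_mem (show (ρ, φ) ∈ Ioo (0 : ℝ) r ×ˢ Φ from
        ⟨⟨h2, h6.1⟩, h6.2⟩)]
      simp
    · rw [indicator_of_notMem (fun h => h6 (h5.1 h)), indicator_of_notMem (fun h => h6
        ⟨h.1.2, h.2⟩)]
      simp
  rw [h1, setLIntegral_indicator (measurableSet_Ioo.prod hΦ)]
  have h2 : (Ioo (0 : ℝ) r ×ˢ Φ) ∩ polarCoord.target = Ioo (0 : ℝ) r ×ˢ Φ := by
    refine inter_eq_left.2 ?_
    rintro ⟨ρ, φ⟩ ⟨h3, h4⟩
    rw [polarCoord_target]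
    exact ⟨h3.1, hsub h4⟩
  rw [h2, Measure.volume_eq_prod, ← Measure.prod_restrict]
  have h3 := lintegral_prod_mul (μ := volume.restrict (Ioo (0 : ℝ) r)) (ν := volume.restrict Φ)
    (f := fun x => ENNReal.ofReal x) (g := fun _ => 1)
    (ENNReal.measurable_ofReal.aemeasurable) aemeasurable_const
  simp only [mul_one] at h3
  rw [h3, lint_id hr]
  simp

private theorem cont_cr_right (u : ℂ) : Continuous fun d => cr u d := by
  unfold cr
  fun_prop

private theorem cont_cr_left (v : ℂ) : Continuous fun d => cr d v := by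
  unfold cr
  fun_prop

private theorem sector_open (u v : ℂ) : IsOpen {d : ℂ | InSector u v d} := by
  have h1 : IsOpen {d : ℂ | 0 < cr u d} := isOpen_lt continuous_const (cont_cr_right u)
  have h2 : IsOpen {d : ℂ | 0 < cr d v} := isOpen_lt continuous_const (cont_cr_left v)
  rcases lt_trichotomy (cr u v) 0 with h | h | h
  · have h3 : {d : ℂ | InSector u v d} = {d : ℂ | 0 < cr u d} ∪ {d : ℂ | 0 < cr d v} := by
      ext d
      simp [InSector, h, h.not_gt, h.ne]
    rw [h3]
    exact h1.union h2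
  · have h3 : {d : ℂ | InSector u v d} = {d : ℂ | 0 < cr u d} := by
      ext d
      simp [InSector, h]
    rw [h3]
    exact h1
  · have h3 : {d : ℂ | InSector u v d} = {d : ℂ | 0 < cr u d} ∩ {d : ℂ | 0 < cr d v} := by
      ext d
      simp [InSector, h, h.not_gt, h.ne']
    rw [h3]
    exact h1.inter h2

private theorem cr_rot {c : ℂ} (hc : ‖c‖ = 1) (a b : ℂ) : cr (c * a) (c * b) = cr a b := by
  have h : c.re * c.re + c.im * c.im = 1 := by
    have h1 := Complex.sq_norm c
    rw [hc, Complex.normSq_apply] at h1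
    linarith
  unfold cr
  simp only [mul_re, mul_im]
  linear_combination (a.re * b.im - a.im * b.re) * h

private theorem sector_rot {u v : ℂ} (hu : u ≠ 0) {s θ : ℝ} (hs : 0 < s)
    (hv : v = u * (s : ℂ) * exp ((θ : ℂ) * Complex.I)) (r : ℝ) :
    volume {d : ℂ | ‖d‖ < r ∧ InSector u v d} =
      volume {d : ℂ | ‖d‖ < r ∧ InSector 1 (exp ((θ : ℂ) * Complex.I)) d} := by
  have hn : 0 < ‖u‖ := norm_pos_iff.2 hu
  have hnc : (‖u‖ : ℂ) ≠ 0 := by exact_mod_cast hn.ne'
  let c : ℂ := u / ‖u‖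
  have hc : ‖c‖ = 1 := by
    change ‖u / (‖u‖ : ℂ)‖ = 1
    rw [norm_div, Complex.norm_real, norm_norm, div_self hn.ne']
  have huc : u = (‖u‖ : ℂ) * c := by
    change u = (‖u‖ : ℂ) * (u / ‖u‖)
    field_simp
  have hvc : v = ((‖u‖ * s : ℝ) : ℂ) * (c * exp ((θ : ℂ) * Complex.I)) := by
    rw [hv]
    conv_lhs => rw [huc]
    push_cast
    ring
  have hm : MeasurableSet {d : ℂ | ‖d‖ < r ∧ InSector u v d} :=
    ((isOpen_lt continuous_norm continuous_const).inter (sector_open u v)).measurableSet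
  let e : ℂ ≃ₗᵢ[ℝ] ℂ := rotation ⟨c, by simpa [Submonoid.unitSphere] using hc⟩
  have he : ∀ z, e z = c * z := fun z => rfl
  have h1 := e.measurePreserving.measure_preimage hm.nullMeasurableSet
  rw [← h1]
  congr 1
  ext w
  change ‖e w‖ < r ∧ InSector u v (e w) ↔ ‖w‖ < r ∧ InSector 1 (exp ((θ : ℂ) * Complex.I)) w
  rw [he, norm_mul, hc, one_mul]
  refine and_congr_right fun _ => ?_
  have h2 : InSector u v (c * w) ↔ InSector c (c * exp ((θ : ℂ) * Complex.I)) (c * w) := by
    conv_lhs => rw [huc, hvc]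
    rw [← huc]
    have h3 := Pool.Agent.Lib_PL.InSector_smul' (u := c) (v := c * exp ((θ : ℂ) * Complex.I))
      (d := c * w) hn (mul_pos hn hs)
    rw [← huc] at h3
    exact h3
  rw [h2]
  have h3 : cr c (c * exp ((θ : ℂ) * Complex.I)) = cr 1 (exp ((θ : ℂ) * Complex.I)) := by
    conv_lhs => rw [← mul_one c, mul_assoc, one_mul]
    exact cr_rot hc _ _
  have h4 : cr c (c * w) = cr 1 w := by
    conv_lhs => rw [← mul_one c, mul_assoc, one_mul]
    exact cr_rot hc _ _
  unfold InSector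
  rw [h3, h4, cr_rot hc]

theorem sector_area {u v : ℂ} (hu : u ≠ 0) {s θ : ℝ} (hs : 0 < s) (h0 : 0 < θ)
    (h1 : θ < 2 * Real.pi) (hv : v = u * (s : ℂ) * exp ((θ : ℂ) * Complex.I)) {r : ℝ} (hr : 0 < r) :
    volume {d : ℂ | ‖d‖ < r ∧ InSector u v d} = ENNReal.ofReal (θ * r ^ 2 / 2) := by
  rw [sector_rot hu hs hv]
  have hpi := Real.pi_pos
  have hm : MeasurableSet {d : ℂ | ‖d‖ < r ∧ InSector 1 (exp ((θ : ℂ) * Complex.I)) d} :=
    ((isOpen_lt continuous_norm continuous_const).inter
      (sector_open 1 (exp ((θ : ℂ) * Complex.I)))).measurableSet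
  have hre : (exp ((θ : ℂ) * Complex.I)).re = Real.cos θ := Complex.exp_ofReal_mul_I_re θ
  have him : (exp ((θ : ℂ) * Complex.I)).im = Real.sin θ := Complex.exp_ofReal_mul_I_im θ
  have hpt : ∀ ρ φ : ℝ, 0 < ρ → (cr 1 ((ρ : ℂ) * (Real.cos φ + Real.sin φ * Complex.I)) =
      ρ * Real.sin φ) ∧ cr ((ρ : ℂ) * (Real.cos φ + Real.sin φ * Complex.I))
        (exp ((θ : ℂ) * Complex.I)) = ρ * Real.sin (θ - φ) ∧
      ‖(ρ : ℂ) * (Real.cos φ + Real.sin φ * Complex.I)‖ = ρ := by
    intro ρ φ hρ
    refine ⟨?_, ?_, ?_⟩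
    · unfold cr
      simp only [mul_re, mul_im, add_re, add_im, ofReal_re, ofReal_im, I_re, I_im, one_re, one_im]
      ring
    · unfold cr
      rw [hre, him, Real.sin_sub]
      simp only [mul_re, mul_im, add_re, add_im, ofReal_re, ofReal_im, I_re, I_im]
      ring
    · rw [norm_mul, Complex.norm_real, Real.norm_of_nonneg hρ.le]
      have h2 : (Real.cos φ + Real.sin φ * Complex.I : ℂ) = exp ((φ : ℂ) * Complex.I) := by
        rw [Complex.exp_mul_I]
        push_cast
        rfl
      rw [h2, Complex.norm_exp_ofReal_mul_I, mul_one]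
  have hc1 : cr 1 (exp ((θ : ℂ) * Complex.I)) = Real.sin θ := by
    unfold cr
    rw [hre, him]
    simp
  have key : ∃ Φ : Set ℝ, MeasurableSet Φ ∧ Φ ⊆ Ioo (-Real.pi) Real.pi ∧
      volume Φ = ENNReal.ofReal θ ∧ ∀ ρ φ : ℝ, 0 < ρ → -Real.pi < φ → φ < Real.pi →
        (InSector 1 (exp ((θ : ℂ) * Complex.I)) ((ρ : ℂ) * (Real.cos φ + Real.sin φ * Complex.I)) ↔
          φ ∈ Φ) := by
    rcases lt_trichotomy θ Real.pi with h | h | h
    · refine ⟨Ioo 0 θ, measurableSet_Ioo, Ioo_subset_Ioo (by linarith) h.le, by simp, ?_⟩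
      intro ρ φ hρ h2 h3
      obtain ⟨e1, e2, -⟩ := hpt ρ φ hρ
      have hs1 : 0 < Real.sin θ := Real.sin_pos_of_pos_of_lt_pi h0 h
      unfold InSector
      rw [hc1, e1, e2]
      simp only [hs1, hs1.not_gt, hs1.ne', mul_pos_iff_of_pos_left hρ, forall_true_left,
        false_imp_iff, and_true, mem_Ioo]
      constructor
      · rintro ⟨h4, h5⟩
        constructor
        · by_contra hcon
          have := Real.sin_nonpos_of_nonpos_of_neg_pi_le (not_lt.1 hcon) h2.le
          linarith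
        · by_contra hcon
          have := Real.sin_nonpos_of_nonpos_of_neg_pi_le (x := θ - φ) (by linarith) (by linarith)
          linarith
      · rintro ⟨h4, h5⟩
        exact ⟨Real.sin_pos_of_pos_of_lt_pi h4 h3,
          Real.sin_pos_of_pos_of_lt_pi (by linarith) (by linarith)⟩
    · refine ⟨Ioo 0 θ, measurableSet_Ioo, Ioo_subset_Ioo (by linarith) h.le, by simp, ?_⟩
      intro ρ φ hρ h2 h3
      obtain ⟨e1, e2, -⟩ := hpt ρ φ hρ
      have hs1 : Real.sin θ = 0 := by rw [h, Real.sin_pi]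
      unfold InSector
      rw [hc1, e1, e2]
      simp only [hs1, lt_irrefl, mul_pos_iff_of_pos_left hρ, forall_true_left,
        false_imp_iff, true_and, mem_Ioo]
      constructor
      · intro h4
        refine ⟨?_, by linarith⟩
        by_contra hcon
        have := Real.sin_nonpos_of_nonpos_of_neg_pi_le (not_lt.1 hcon) h2.le
        linarith
      · rintro ⟨h4, h5⟩
        exact Real.sin_pos_of_pos_of_lt_pi h4 h3
    · refine ⟨Ioo 0 Real.pi ∪ Ioo (-Real.pi) (θ - 2 * Real.pi),
        measurableSet_Ioo.union measurableSet_Ioo, ?_, ?_, ?_⟩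
      · refine union_subset (Ioo_subset_Ioo (by linarith) le_rfl)
          (Ioo_subset_Ioo le_rfl (by linarith))
      · rw [measure_union _ measurableSet_Ioo, Real.volume_Ioo, Real.volume_Ioo,
          ← ENNReal.ofReal_add (by linarith) (by linarith)]
        · congr 1
          ring
        · rw [Set.disjoint_left]
          rintro x ⟨h2, -⟩ ⟨-, h3⟩
          linarith
      · intro ρ φ hρ h2 h3
        obtain ⟨e1, e2, -⟩ := hpt ρ φ hρ
        have hs1 : Real.sin θ < 0 := by
          have h4 : 0 < Real.sin (θ - Real.pi) :=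
            Real.sin_pos_of_pos_of_lt_pi (by linarith) (by linarith)
          rw [Real.sin_sub_pi] at h4
          linarith
        unfold InSector
        rw [hc1, e1, e2]
        simp only [hs1, hs1.not_gt, hs1.ne, mul_pos_iff_of_pos_left hρ, forall_true_left,
          false_imp_iff, and_true, true_and, mem_union, mem_Ioo]
        constructor
        · rintro (h4 | h4)
          · left
            refine ⟨?_, h3⟩
            by_contra hcon
            have := Real.sin_nonpos_of_nonpos_of_neg_pi_le (not_lt.1 hcon) h2.le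
            linarith
          · by_cases h5 : 0 < φ
            · exact Or.inl ⟨h5, h3⟩
            · right
              refine ⟨h2, ?_⟩
              by_contra hcon
              have h6 : 0 ≤ Real.sin (θ - φ - Real.pi) :=
                Real.sin_nonneg_of_nonneg_of_le_pi (by linarith) (by linarith)
              rw [Real.sin_sub_pi] at h6
              linarith
        · rintro (⟨h4, h5⟩ | ⟨h4, h5⟩)
          · left
            exact Real.sin_pos_of_pos_of_lt_pi h4 h5
          · right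
            have h6 : 0 < Real.sin (θ - φ - 2 * Real.pi) :=
              Real.sin_pos_of_pos_of_lt_pi (by linarith) (by linarith)
            rwa [Real.sin_sub_two_pi] at h6
  obtain ⟨Φ, hΦ, hsub, hvol, hiff⟩ := key
  rw [core hr hΦ hsub hm, hvol, ← ENNReal.ofReal_mul (by positivity)]
  · congr 1
    ring
  · intro ρ φ hρ h2 h3
    obtain ⟨-, -, e3⟩ := hpt ρ φ hρ
    change ‖(ρ : ℂ) * (Real.cos φ + Real.sin φ * Complex.I)‖ < r ∧ _ ↔ _
    rw [e3, hiff ρ φ hρ h2 h3]

end Pool.Agent.Lib_MP_fa6e45
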