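import Pool.Agent.Lib_MP_fa6e45.Base

/-!
A3a: angles under which a segment is seen, triangles.
`th_swap`: for `z ∉ [p, q]` the quotient is in the slit plane (`Lib_PL.slit_iff`), `arg` of the inverse.
`triangle_th`: the sum of the three args is `2 π`, `- 2 π` or `0`. (The product of the three quotients is 1, so
the sum is a multiple of `2 π`, in `(-3 π, 3 π)`, so it is `0, ± 2 π`; the signs of the imaginary parts are
the signs of the three cross products `cr (0 - z) (u - z)`, `cr (u - z) (v - z)`, `cr (v - z) (0 - z)`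
(`Lib_PL` Wind_im), their sum is `cr u v`; the sum of args is `2 π` iff all three are positive, which means
`z ∈ Tri u v`, `cr u v > 0`; if one is zero, the other two have opposite signs or are zero.)
`triangle_area`: image of the standard triangle under the real linear map `(x, y) ↦ x u + y v` of
determinant `cr u v`.
-/

open Set MeasureTheory Complex
open scoped Topology

namespace Pool.Agent.Lib_MP_fa6e45

open Pool.Agent.Lib_PL (cr InSector Poly)

private theorem A3_arg_lt {a b z : ℂ} (h : z ∉ segment ℝ a b) : arg ((b - z) / (a - z)) < Real.pi :=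
  lt_of_le_of_ne (Complex.arg_le_pi _) (Complex.slitPlane_arg_ne_pi (Pool.Agent.Lib_PL.slit_iff a b z h))

private theorem A3_neg_lt (w : ℂ) : -Real.pi < arg w := Complex.neg_pi_lt_arg w

private theorem A3_ne {a b z : ℂ} (h : z ∉ segment ℝ a b) : a - z ≠ 0 := by
  intro h0
  exact h (by rw [← sub_eq_zero.1 h0]; exact left_mem_segment ℝ a b)

private theorem A3_im (p q : ℂ) : (q / p).im = cr p q / Complex.normSq p := by
  rw [Complex.div_im]
  unfold cr
  ring

private theorem A3_pos {a b z : ℂ} (h : z ∉ segment ℝ a b) (hc : 0 < cr (a - z) (b - z)) :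
    0 < arg ((b - z) / (a - z)) := by
  have h1 : 0 < ((b - z) / (a - z)).im := by
    rw [A3_im]
    exact div_pos hc (Complex.normSq_pos.2 (A3_ne h))
  have h2 : 0 ≤ arg ((b - z) / (a - z)) := Complex.arg_nonneg_iff.2 h1.le
  refine lt_of_le_of_ne h2 fun h3 => ?_
  have h4 := Complex.arg_eq_zero_iff.1 h3.symm
  exact h1.ne' h4.2

private theorem A3_neg {a b z : ℂ} (h : z ∉ segment ℝ a b) (hc : cr (a - z) (b - z) < 0) :
    arg ((b - z) / (a - z)) < 0 := by
  have h1 : ((b - z) / (a - z)).im < 0 := by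
    rw [A3_im]
    exact div_neg_of_neg_of_pos hc (Complex.normSq_pos.2 (A3_ne h))
  exact Complex.arg_neg_iff.2 h1

private theorem A3_nonneg {a b z : ℂ} (_h : z ∉ segment ℝ a b) (hc : 0 ≤ cr (a - z) (b - z)) :
    0 ≤ arg ((b - z) / (a - z)) := by
  refine Complex.arg_nonneg_iff.2 ?_
  rw [A3_im]
  exact div_nonneg hc (Complex.normSq_nonneg _)

private theorem A3_nonpos {a b z : ℂ} (h : z ∉ segment ℝ a b) (hc : cr (a - z) (b - z) ≤ 0) :
    arg ((b - z) / (a - z)) ≤ 0 := by
  rcases hc.lt_or_eq with h1 | h1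
  · exact (A3_neg h h1).le
  · have h2 : ((b - z) / (a - z)).im = 0 := by
      rw [A3_im, h1, zero_div]
    have h3 := Pool.Agent.Lib_PL.slit_iff a b z h
    rw [Complex.mem_slitPlane_iff] at h3
    have h4 : 0 < ((b - z) / (a - z)).re := by
      rcases h3 with h3 | h3
      · exact h3
      · exact absurd h2 h3
    exact (Complex.arg_eq_zero_iff.2 ⟨h4.le, h2⟩).le

theorem th_swap {p q z : ℂ} (h : z ∉ segment ℝ p q) : th q p z = -th p q z := by
  have h2 := Pool.Agent.Lib_PL.slit_iff _ _ _ h
  unfold th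
  have h3 : (p - z) / (q - z) = ((q - z) / (p - z))⁻¹ := by
    rw [inv_div]
  rw [h3, Complex.arg_inv, if_neg (Complex.slitPlane_arg_ne_pi h2)]

private noncomputable def A3_f (u v : ℂ) : ℂ →ₗ[ℝ] ℂ :=
  Complex.reLm.smulRight u + Complex.imLm.smulRight v

private theorem A3_f_apply (u v z : ℂ) : A3_f u v z = (z.re : ℂ) * u + (z.im : ℂ) * v := by
  simp [A3_f]

private theorem A3_det (u v : ℂ) : LinearMap.det (A3_f u v) = cr u v := by
  rw [← LinearMap.det_toMatrix Complex.basisOneI, Matrix.det_fin_two]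
  simp [LinearMap.toMatrix_apply, A3_f_apply, cr]
  try ring

private theorem A3_std : volume {z : ℂ | 0 < z.re ∧ 0 < z.im ∧ z.re + z.im < 1} =
    ENNReal.ofReal (1 / 2) := by
  have h1 : {z : ℂ | 0 < z.re ∧ 0 < z.im ∧ z.re + z.im < 1} = Complex.measurableEquivRealProd ⁻¹'
      regionBetween (fun _ => (0 : ℝ)) (fun x => 1 - x) (Ioo 0 1) := by
    ext z
    simp only [Set.mem_ofPred_eq, mem_preimage, regionBetween, mem_Ioo,
      Complex.measurableEquivRealProd_apply]
    constructor
    · rintro ⟨a, b, c⟩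
      exact ⟨⟨a, by linarith⟩, b, by linarith⟩
    · rintro ⟨⟨a, -⟩, b, c⟩
      exact ⟨a, b, by linarith⟩
  have hm : MeasurableSet (regionBetween (fun _ => (0 : ℝ)) (fun x => 1 - x) (Ioo 0 1)) :=
    measurableSet_regionBetween measurable_const (measurable_const.sub measurable_id)
      measurableSet_Ioo
  rw [h1, Complex.volume_preserving_equiv_real_prod.measure_preimage hm.nullMeasurableSet,
    Measure.volume_eq_prod, volume_regionBetween_eq_integral]
  · congr 1
    rw [← integral_Ioc_eq_integral_Ioo, ← intervalIntegral.integral_of_le zero_le_one]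
    simp only [Pi.sub_apply, sub_zero]
    rw [intervalIntegral.integral_sub (by simp) (by simp)]
    simp
    norm_num
  · exact (integrableOn_const (by simp) (by simp))
  · exact (((continuous_const.sub continuous_id).integrableOn_Icc).mono_set Ioo_subset_Icc_self)
  · exact measurableSet_Ioo
  · intro x hx
    linarith [hx.2]

theorem triangle_area (u v : ℂ) : volume (Tri u v) = ENNReal.ofReal (|cr u v| / 2) := by
  have h1 : Tri u v = A3_f u v '' {z : ℂ | 0 < z.re ∧ 0 < z.im ∧ z.re + z.im < 1} := by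
    ext z
    constructor
    · rintro ⟨x, y, hx, hy, hxy, rfl⟩
      exact ⟨⟨x, y⟩, ⟨hx, hy, hxy⟩, A3_f_apply u v _⟩
    · rintro ⟨w, ⟨hx, hy, hxy⟩, rfl⟩
      exact ⟨w.re, w.im, hx, hy, hxy, A3_f_apply u v _⟩
  rw [h1, Measure.addHaar_image_linearMap, A3_det, A3_std, ← ENNReal.ofReal_mul (abs_nonneg _)]
  congr 1
  ring

theorem triangle_th {u v z : ℂ} (h1 : z ∉ segment ℝ 0 u) (h2 : z ∉ segment ℝ u v)
    (h3 : z ∉ segment ℝ v 0) : th 0 u z + th u v z + th v 0 z =
      2 * Real.pi * (Tri u v).indicator (fun _ => (SignType.sign (cr u v) : ℝ)) z := by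
  have hpi := Real.pi_pos
  have e1 : cr (0 - z) (u - z) = cr u z := by
    unfold cr
    simp only [zero_sub, neg_re, neg_im, sub_re, sub_im]
    ring
  have e3 : cr (v - z) (0 - z) = cr z v := by
    unfold cr
    simp only [zero_sub, neg_re, neg_im, sub_re, sub_im]
    ring
  have e2 : cr (u - z) (v - z) = cr u v - cr u z - cr z v := by
    unfold cr
    simp only [sub_re, sub_im]
    ring
  set U : ℕ → ℂ := fun k => if k = 1 then u else if k = 2 then v else 0 with hU
  obtain ⟨w, hw⟩ := Pool.Agent.Lib_PL.plw_int U 3 (by simp [hU]) z (by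
    intro k hk
    interval_cases k
    · simpa [hU] using h1
    · simpa [hU] using h2
    · simpa [hU] using h3)
  have hS : th 0 u z + th u v z + th v 0 z = 2 * Real.pi * w := by
    rw [← hw]
    unfold Pool.Agent.Lib_PL.plw th
    simp only [Finset.sum_range_succ, Finset.sum_range_zero, hU]
    norm_num
    field_simp
  rw [hS]
  congr 1
  have b1 := A3_arg_lt h1
  have b2 := A3_arg_lt h2
  have b3 := A3_arg_lt h3
  have d1 := A3_neg_lt ((u - z) / (0 - z))
  have d2 := A3_neg_lt ((v - z) / (u - z))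
  have d3 := A3_neg_lt ((0 - z) / (v - z))
  have hS' : arg ((u - z) / (0 - z)) + arg ((v - z) / (u - z)) + arg ((0 - z) / (v - z)) =
      2 * Real.pi * w := hS
  have hlt : ∀ m : ℤ, 2 * Real.pi * w < 2 * Real.pi * m → w < m := by
    intro m hm
    have := lt_of_mul_lt_mul_left hm (by positivity)
    exact_mod_cast this
  have hgt : ∀ m : ℤ, 2 * Real.pi * m < 2 * Real.pi * w → m < w := by
    intro m hm
    have := lt_of_mul_lt_mul_left hm (by positivity)
    exact_mod_cast this
  by_cases hp : 0 < cr (0 - z) (u - z) ∧ 0 < cr (u - z) (v - z) ∧ 0 < cr (v - z) (0 - z)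
  · obtain ⟨p1, p2, p3⟩ := hp
    have q1 := A3_pos h1 p1
    have q2 := A3_pos h2 p2
    have q3 := A3_pos h3 p3
    rw [e1] at p1
    rw [e2] at p2
    rw [e3] at p3
    have hD : 0 < cr u v := by linarith
    have hw1 : w = 1 := by
      have a1 := hlt 2 (by push_cast; linarith)
      have a2 := hgt 0 (by push_cast; linarith)
      omega
    have hz : z ∈ Tri u v := by
      refine ⟨cr z v / cr u v, cr u z / cr u v, div_pos p3 hD, div_pos p1 hD, ?_,
        Pool.Agent.Lib_PL.cr_dec hD.ne' z⟩
      rw [← add_div, div_lt_one hD]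
      linarith
    rw [Set.indicator_of_mem hz, sign_pos hD, hw1]
    simp
  by_cases hn : cr (0 - z) (u - z) < 0 ∧ cr (u - z) (v - z) < 0 ∧ cr (v - z) (0 - z) < 0
  · obtain ⟨p1, p2, p3⟩ := hn
    have q1 := A3_neg h1 p1
    have q2 := A3_neg h2 p2
    have q3 := A3_neg h3 p3
    rw [e1] at p1
    rw [e2] at p2
    rw [e3] at p3
    have hD : cr u v < 0 := by linarith
    have hw1 : w = -1 := by
      have a1 := hlt 0 (by push_cast; linarith)
      have a2 := hgt (-2) (by push_cast; linarith)
      omega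
    have hz : z ∈ Tri u v := by
      refine ⟨cr z v / cr u v, cr u z / cr u v, div_pos_of_neg_of_neg p3 hD,
        div_pos_of_neg_of_neg p1 hD, ?_, Pool.Agent.Lib_PL.cr_dec hD.ne z⟩
      rw [← add_div, div_lt_one_of_neg hD]
      linarith
    rw [Set.indicator_of_mem hz, sign_neg hD, hw1]
    simp
  have hle : w < 1 := by
    apply hlt
    push_cast
    by_contra hcon
    apply hp
    refine ⟨?_, ?_, ?_⟩
    · by_contra hc
      have := A3_nonpos h1 (not_lt.1 hc)
      linarith
    · by_contra hc
      have := A3_nonpos h2 (not_lt.1 hc)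
      linarith
    · by_contra hc
      have := A3_nonpos h3 (not_lt.1 hc)
      linarith
  have hge : -1 < w := by
    apply hgt
    push_cast
    by_contra hcon
    apply hn
    refine ⟨?_, ?_, ?_⟩
    · by_contra hc
      have := A3_nonneg h1 (not_lt.1 hc)
      linarith
    · by_contra hc
      have := A3_nonneg h2 (not_lt.1 hc)
      linarith
    · by_contra hc
      have := A3_nonneg h3 (not_lt.1 hc)
      linarith
  have hw0 : w = 0 := by omega
  rw [hw0]
  by_cases hz : z ∈ Tri u v
  · rw [Set.indicator_of_mem hz]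
    obtain ⟨x, y, hx, hy, hxy, rfl⟩ := hz
    have f1 : cr u ((x : ℂ) * u + (y : ℂ) * v) = y * cr u v := by
      rw [Pool.Agent.Lib_PL.cr_add_right, Pool.Agent.Lib_PL.cr_mul_right,
        Pool.Agent.Lib_PL.cr_mul_right, Pool.Agent.Lib_PL.cr_self]
      ring
    have f3 : cr ((x : ℂ) * u + (y : ℂ) * v) v = x * cr u v := by
      rw [Pool.Agent.Lib_PL.cr_add_left, Pool.Agent.Lib_PL.cr_mul_left,
        Pool.Agent.Lib_PL.cr_mul_left, Pool.Agent.Lib_PL.cr_self]
      ring
    have f2 : cr u v - y * cr u v - x * cr u v = (1 - (x + y)) * cr u v := by ring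
    rw [e1, e2, e3, f1, f3, f2] at hp hn
    have hxy' : 0 < 1 - (x + y) := by linarith
    rcases lt_trichotomy (cr u v) 0 with hD | hD | hD
    · exact absurd ⟨mul_neg_of_pos_of_neg hy hD, mul_neg_of_pos_of_neg hxy' hD,
        mul_neg_of_pos_of_neg hx hD⟩ hn
    · rw [hD]
      simp
    · exact absurd ⟨mul_pos hy hD, mul_pos hxy' hD, mul_pos hx hD⟩ hp
  · rw [Set.indicator_of_notMem hz]
    simp

theorem segment_null (p q : ℂ) : volume (segment ℝ p q) = 0 := by
  have h1 : segment ℝ p q ⊆ (affineSpan ℝ {p, q} : Set ℂ) := by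
    intro z hz
    rw [segment_eq_image_lineMap] at hz
    obtain ⟨t, -, rfl⟩ := hz
    exact AffineMap.lineMap_mem_affineSpan_pair t p q
  refine measure_mono_null h1 (Measure.addHaar_affineSubspace volume _ ?_)
  intro h2
  have h3 : vectorSpan ℝ {p, q} = ⊤ := by
    rw [← direction_affineSpan, h2, AffineSubspace.direction_top]
  have h4 : Collinear ℝ {p, q} := collinear_pair ℝ p q
  rw [collinear_iff_finrank_le_one, h3, finrank_top, Complex.finrank_real_complex] at h4
  norm_num at h4

end Pool.Agent.Lib_MP_fa6e45
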