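import Pool.Agent.Lib_MP_fa6e45.A1
import Pool.Agent.Lib_MP_fa6e45.A1b
import Pool.Agent.Lib_MP_fa6e45.A1s
import Pool.Agent.Lib_MP_fa6e45.A3a

/-!
PIECE A1c (about 120 lines): the area of a tile in a small disc around a corner is
`ang * r ^ 2 / 2`. `volume_bdry` from `bdry_eq`, `segment_null` (A3a). `area_corner`: `local_corner`,
`R = C ∪ I`, `C` is a null set, translate by `vx c`, `sector_area` with `ww_eq`.
`Polygon.area_corner`: `sector` for the polygon itself (or the motion 1). `angle_eq`: the function in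
the limit is eventually constant, `Filter.Tendsto.limUnder_eq`.
-/

open Set MeasureTheory Complex
open scoped Topology

namespace Pool.Agent.Lib_MP_fa6e45

open Pool.Agent.Lib_PL (cr InSector Poly)

variable {n : ℕ} {P : Polygon n} {ι : Type}

private theorem A1c_countable (n : ℕ) : Countable (ZMod n) :=
  (ZMod.intCast_surjective (n := n)).countable

private theorem A1c_aff (g : Mo) (a b : ℝ) (hab : a + b = 1) (x y : ℂ) :
    g.app (a • x + b • y) = a • g.app x + b • g.app y := by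
  simp only [Complex.real_smul]
  have h1 : g.app ((a : ℂ) * x + (b : ℂ) * y) =
      (a : ℂ) * g.lin x + (b : ℂ) * g.lin y + g.b := by
    unfold Mo.app
    rw [g.lin_add, g.lin_mul, g.lin_mul]
  rw [h1]
  unfold Mo.app
  have h2 : (a : ℂ) + (b : ℂ) = 1 := by exact_mod_cast hab
  linear_combination (-(g.b)) * h2

private theorem A1c_C_null (T : Til P ι) (t : ι) : volume (T.C t) = 0 := by
  have := A1c_countable n
  have h1 : T.C t ⊆ ⋃ i : ZMod n, segment ℝ ((T.g t).app (P.vertex i))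
      ((T.g t).app (P.vertex (i + 1))) := by
    rintro z ⟨w, hw, rfl⟩
    rw [P.bdry_eq] at hw
    obtain ⟨i, a, b, ha, hb, hab, rfl⟩ := mem_iUnion.1 hw
    exact mem_iUnion.2 ⟨i, a, b, ha, hb, hab, (A1c_aff (T.g t) a b hab _ _).symm⟩
  exact measure_mono_null h1 (measure_iUnion_null fun i => segment_null _ _)

private theorem A1c_core {R C I : Set ℂ} {v u w : ℂ} {ρ s θ r : ℝ} (hR : R = C ∪ I)
    (hC : volume C = 0) (hI : ∀ d : ℂ, ‖d‖ < ρ → (v + d ∈ I ↔ InSector u w d)) (hu : u ≠ 0)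
    (hs : 0 < s) (h0 : 0 < θ) (h1 : θ < 2 * Real.pi)
    (hw : w = u * (s : ℂ) * exp ((θ : ℂ) * Complex.I)) (hr : 0 < r) (hrρ : r < ρ) :
    volume (R ∩ Metric.ball v r) = ENNReal.ofReal (θ * r ^ 2 / 2) := by
  have h2 : volume (R ∩ Metric.ball v r) = volume (I ∩ Metric.ball v r) := by
    apply le_antisymm
    · have h3 : R ∩ Metric.ball v r ⊆ C ∪ (I ∩ Metric.ball v r) := by
        rintro z ⟨hz1, hz2⟩
        rw [hR] at hz1
        rcases hz1 with hz1 | hz1
        · exact Or.inl hz1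
        · exact Or.inr ⟨hz1, hz2⟩
      calc volume (R ∩ Metric.ball v r) ≤ volume (C ∪ (I ∩ Metric.ball v r)) := measure_mono h3
        _ ≤ volume C + volume (I ∩ Metric.ball v r) := measure_union_le _ _
        _ = volume (I ∩ Metric.ball v r) := by rw [hC, zero_add]
    · apply measure_mono
      rintro z ⟨hz1, hz2⟩
      exact ⟨by rw [hR]; exact Or.inr hz1, hz2⟩
  rw [h2, ← measure_preimage_add volume v (I ∩ Metric.ball v r)]
  have h3 : (fun h => v + h) ⁻¹' (I ∩ Metric.ball v r) = {d : ℂ | ‖d‖ < r ∧ InSector u w d} := by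
    ext d
    simp only [mem_preimage, mem_inter_iff, Metric.mem_ball, mem_ofPred_eq]
    have h4 : dist (v + d) v = ‖d‖ := by
      rw [dist_eq_norm, add_sub_cancel_left]
    rw [h4]
    constructor
    · rintro ⟨h5, h6⟩
      exact ⟨h6, (hI d (h6.trans hrρ)).1 h5⟩
    · rintro ⟨h6, h5⟩
      exact ⟨(hI d (h6.trans hrρ)).2 h5, h6⟩
  rw [h3]
  exact sector_area hu hs h0 h1 hw hr

theorem Polygon.volume_bdry (P : Polygon n) : volume P.bdry = 0 := by
  have := A1c_countable n
  rw [P.bdry_eq]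
  exact measure_iUnion_null fun i => segment_null _ _

theorem Til.area_corner (hc : P.CCW) (T : Til P ι) (c : ι × ZMod n) : ∃ ρ > 0, ∀ r : ℝ, 0 < r →
    r < ρ → volume (T.R c.1 ∩ Metric.ball (T.vx c) r) = ENNReal.ofReal (P.ang c.2 * r ^ 2 / 2) := by
  obtain ⟨ρ, hρ, h⟩ := T.local_corner hc c
  refine ⟨ρ, hρ, fun r hr hrρ => ?_⟩
  have hR : T.R c.1 = T.C c.1 ∪ T.I c.1 := by
    unfold Til.R Til.C Til.I
    rw [P.region_union, image_union]
  exact A1c_core hR (A1c_C_null T c.1) (fun d hd => (h d hd).1) (T.uu_ne c)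
    (div_pos (norm_pos_iff.2 (T.ww_ne c)) (norm_pos_iff.2 (T.uu_ne c))) (P.ang_pos c.2)
    (P.ang_lt c.2) (T.ww_eq c) hr hrρ

/-- the same for the polygon itself -/
theorem Polygon.area_corner (hc : P.CCW) (i : ZMod n) : ∃ ρ > 0, ∀ r : ℝ, 0 < r →
    r < ρ → volume (P.region ∩ Metric.ball (P.vertex i) r) =
      ENNReal.ofReal (P.ang i * r ^ 2 / 2) := by
  obtain ⟨m, hm⟩ := ZMod.intCast_surjective i
  obtain ⟨ρ, hρ, hs⟩ := P.toPoly.sector hc m
  refine ⟨ρ, hρ, fun r hr hrρ => ?_⟩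
  have hV : P.toPoly.V m = P.vertex i := by
    rw [← hm]
    rfl
  have hV1 : P.toPoly.V (m + 1) = P.vertex (i + 1) := by
    rw [← hm]
    have : P.toPoly.V (m + 1) = P.vertex ((m + 1 : ℤ) : ZMod n) := rfl
    rw [this]
    push_cast
    rfl
  have hV2 : P.toPoly.V (m - 1) = P.vertex (i - 1) := by
    rw [← hm]
    have : P.toPoly.V (m - 1) = P.vertex ((m - 1 : ℤ) : ZMod n) := rfl
    rw [this]
    push_cast
    rfl
  rw [P.toPoly.γ_int, P.toPoly.ep_int, P.toPoly.em_int, hV1, hV2, hV] at hs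
  have hl1 := P.len_pos i
  have hl2 := P.len_pos (i - 1)
  have hu : P.vertex (i + 1) - P.vertex i ≠ 0 := by
    intro h0
    have h1 : P.len i = 0 := by
      unfold Polygon.len
      rw [dist_comm, dist_eq_norm, h0, norm_zero]
    exact hl1.ne' h1
  have hw : P.vertex (i - 1) - P.vertex i = (P.vertex (i + 1) - P.vertex i) *
      ((P.len (i - 1) / P.len i : ℝ) : ℂ) * exp ((P.ang i : ℂ) * Complex.I) := by
    have h1 := P.side_turn i
    have hE : exp ((((Real.pi - P.ang i : ℝ)) : ℂ) * Complex.I) *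
        exp ((P.ang i : ℂ) * Complex.I) = -1 := by
      rw [← Complex.exp_add, ← Complex.exp_pi_mul_I]
      congr 1
      push_cast
      ring
    have hl1' : ((P.len i : ℝ) : ℂ) ≠ 0 := by exact_mod_cast hl1.ne'
    have hl2' : ((P.len (i - 1) : ℝ) : ℂ) ≠ 0 := by exact_mod_cast hl2.ne'
    have hq : (((P.len i / P.len (i - 1) : ℝ) : ℂ)) * ((P.len (i - 1) / P.len i : ℝ) : ℂ) = 1 := by
      push_cast
      field_simp
    rw [h1]
    calc P.vertex (i - 1) - P.vertex i = (P.vertex i - P.vertex (i - 1)) * (-1) * 1 := by ring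
      _ = (P.vertex i - P.vertex (i - 1)) * (exp ((((Real.pi - P.ang i : ℝ)) : ℂ) * Complex.I) *
        exp ((P.ang i : ℂ) * Complex.I)) * ((((P.len i / P.len (i - 1) : ℝ) : ℂ)) *
          ((P.len (i - 1) / P.len i : ℝ) : ℂ)) := by rw [hE, hq]
      _ = _ := by ring
  exact A1c_core P.region_union P.volume_bdry (fun d hd => (hs d hd).1) hu
    (div_pos hl2 hl1) (P.ang_pos i) (P.ang_lt i) hw hr hrρ

theorem Polygon.angle_eq (hc : P.CCW) (i : ZMod n) : P.angle i = P.ang i := by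
  obtain ⟨ρ, hρ, h⟩ := Polygon.area_corner hc i
  unfold Polygon.angle
  apply Filter.Tendsto.limUnder_eq
  refine (tendsto_const_nhds (x := P.ang i)).congr' ?_
  filter_upwards [Ioo_mem_nhdsGT hρ] with r hr
  have h0 : 0 ≤ P.ang i * r ^ 2 / 2 := by
    have := (P.ang_pos i).le
    positivity
  rw [h r hr.1 hr.2, ENNReal.toReal_ofReal h0]
  have h2 : r ≠ 0 := hr.1.ne'
  field_simp

end Pool.Agent.Lib_MP_fa6e45
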