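import Pool.Agent.Lib_MP_fa6e45.Base

/-!
PIECE A2a (about 150 lines): local lemmas for the discrete Hopf argument (angle sum).
`halfplane`: in the open half plane `{z | 0 < re (z conj ν)}` put `α z = arg (z / ν) ∈ (-π/2, π/2)`; then
`arg (w / z) = α w - α z`. `square`: the set of differences `y - x`, `x ∈ [a, b]`, `y ∈ [c, d]` is compact
and convex and does not contain 0, so it lies in an open half plane (Hahn-Banach:
`geometric_hahn_banach_point_closed`, or the nearest point to 0). `triangle`: `z`, `z + w`, `w` lie in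
an open half plane, or `w` is a positive multiple of `z`. `turn`: see `ang`.
-/

open Set MeasureTheory Complex
open scoped Topology

namespace Pool.Agent.Lib_MP_fa6e45

open Pool.Agent.Lib_PL (cr InSector Poly)

private theorem A2_half {ν z : ℂ} (h : 0 < (z * (starRingEnd ℂ) ν).re) :
    z ≠ 0 ∧ ν ≠ 0 ∧ |arg (z / ν)| < Real.pi / 2 := by
  have hν : ν ≠ 0 := by
    rintro rfl
    simp at h
  have hz : z ≠ 0 := by
    rintro rfl
    simp at h
  refine ⟨hz, hν, ?_⟩
  rw [Complex.abs_arg_lt_pi_div_two_iff]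
  left
  have hn : 0 < normSq ν := normSq_pos.2 hν
  rw [Complex.div_re, ← add_div]
  refine div_pos ?_ hn
  simpa [Complex.mul_re] using h

private theorem A2_quot {ν z w : ℂ} (hz : 0 < (z * (starRingEnd ℂ) ν).re)
    (hw : 0 < (w * (starRingEnd ℂ) ν).re) : arg (w / z) = arg (w / ν) - arg (z / ν) := by
  obtain ⟨hz0, hν, hz1⟩ := A2_half hz
  obtain ⟨hw0, -, hw1⟩ := A2_half hw
  have hpi := Real.pi_pos
  have h1 := abs_lt.1 hz1
  have h2 := abs_lt.1 hw1
  have e : w / z = (w / ν) * (z / ν)⁻¹ := by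
    field_simp
  have hinv : arg (z / ν)⁻¹ = -arg (z / ν) := by
    rw [arg_inv, if_neg]
    intro h
    rw [h] at h1
    linarith [h1.2]
  rw [e, (arg_mul_eq_add_arg_iff (div_ne_zero hw0 hν) (inv_ne_zero (div_ne_zero hz0 hν))).2, hinv]
  · ring
  · rw [hinv]
    constructor
    · linarith [h1.2, h2.1]
    · linarith [h1.1, h2.2]

theorem A2_halfplane {z₁ z₂ z₃ z₄ ν : ℂ} (h₁ : 0 < (z₁ * (starRingEnd ℂ) ν).re)
    (h₂ : 0 < (z₂ * (starRingEnd ℂ) ν).re) (h₃ : 0 < (z₃ * (starRingEnd ℂ) ν).re)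
    (h₄ : 0 < (z₄ * (starRingEnd ℂ) ν).re) :
    arg (z₂ / z₁) + arg (z₃ / z₂) = arg (z₄ / z₁) + arg (z₃ / z₄) := by
  rw [A2_quot h₁ h₂, A2_quot h₂ h₃, A2_quot h₁ h₄, A2_quot h₄ h₃]
  ring

private theorem A2_lin (f : ℂ →L[ℝ] ℝ) (z : ℂ) :
    f z = (z * (starRingEnd ℂ) ((f 1 : ℂ) + (f I : ℂ) * I)).re := by
  have h1 : z = (z.re : ℝ) • (1 : ℂ) + (z.im : ℝ) • I := by
    simp [Complex.re_add_im]
  have h2 : f z = z.re * f 1 + z.im * f I := by
    conv_lhs => rw [h1]
    rw [map_add, map_smul, map_smul, smul_eq_mul, smul_eq_mul]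
  rw [h2]
  simp [Complex.mul_re]

theorem A2_square {a b c d : ℂ} (h : Disjoint (segment ℝ a b) (segment ℝ c d)) :
    arg ((d - a) / (c - a)) + arg ((d - b) / (d - a)) =
      arg ((c - b) / (c - a)) + arg ((d - b) / (c - b)) := by
  have hcomp : ∀ p q : ℂ, IsCompact (segment ℝ p q) := by
    intro p q
    have e : segment ℝ p q = convexHull ℝ {p, q} := by simp
    rw [e]
    exact (Set.toFinite {p, q}).isCompact_convexHull ℝ
  obtain ⟨f, u, v, h1, h2, h3⟩ := geometric_hahn_banach_compact_closed (convex_segment a b)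
    (hcomp a b) (convex_segment c d) (hcomp c d).isClosed h
  have ha := h1 a (left_mem_segment ℝ a b)
  have hb := h1 b (right_mem_segment ℝ a b)
  have hc := h3 c (left_mem_segment ℝ c d)
  have hd := h3 d (right_mem_segment ℝ c d)
  have key : ∀ p q : ℂ, f p < u → v < f q →
      0 < ((q - p) * (starRingEnd ℂ) ((f 1 : ℂ) + (f I : ℂ) * I)).re := by
    intro p q hp hq
    rw [← A2_lin, map_sub]
    linarith
  exact A2_halfplane (key a c ha hc) (key a d ha hd) (key b d hb hd) (key b c hb hc)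

theorem A2_triangle {z w : ℂ} (hz : z ≠ 0) (hw : w ≠ 0) (h : ∀ t : ℝ, 0 < t → w ≠ -((t : ℂ) * z)) :
    arg ((z + w) / z) + arg (w / (z + w)) = arg (w / z) := by
  have hz' : 0 < ‖z‖ := norm_pos_iff.2 hz
  have hw' : 0 < ‖w‖ := norm_pos_iff.2 hw
  have hcc : (w * (starRingEnd ℂ) z).re = (z * (starRingEnd ℂ) w).re := by
    simp [Complex.mul_re]
    ring
  have hkey : 0 < ‖z‖ * ‖w‖ + (w * (starRingEnd ℂ) z).re := by
    have hn : ‖w * (starRingEnd ℂ) z‖ = ‖w‖ * ‖z‖ := by
      rw [norm_mul, RCLike.norm_conj]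
    have h1 : -‖w * (starRingEnd ℂ) z‖ ≤ (w * (starRingEnd ℂ) z).re :=
      (abs_le.1 (Complex.abs_re_le_norm _)).1
    rw [hn] at h1
    rcases h1.lt_or_eq with h2 | h2
    · linarith
    · exfalso
      have h3 : (w * (starRingEnd ℂ) z).im = 0 := by
        have h4 := Complex.sq_norm (w * (starRingEnd ℂ) z)
        rw [Complex.normSq_apply, hn] at h4
        rw [← h2] at h4
        have h5 : (w * (starRingEnd ℂ) z).im * (w * (starRingEnd ℂ) z).im = 0 := by
          nlinarith [h4]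
        exact mul_self_eq_zero.1 h5
      have h4 : w * (starRingEnd ℂ) z = ((-(‖w‖ * ‖z‖) : ℝ) : ℂ) := by
        apply Complex.ext
        · rw [Complex.ofReal_re, h2]
        · rw [Complex.ofReal_im, h3]
      have h5 : w * ((‖z‖ ^ 2 : ℝ) : ℂ) = ((-(‖w‖ * ‖z‖) : ℝ) : ℂ) * z := by
        rw [← h4, Complex.sq_norm, ← Complex.mul_conj]
        ring
      refine h (‖w‖ / ‖z‖) (div_pos hw' hz') ?_
      have hzc : ((‖z‖ : ℝ) : ℂ) ≠ 0 := by
        exact_mod_cast hz'.ne'
      push_cast at h5 ⊢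
      field_simp
      have h6 : (‖z‖ : ℂ) * (w * (‖z‖ : ℂ)) = (‖z‖ : ℂ) * (-((‖w‖ : ℂ) * z)) := by
        linear_combination h5
      exact mul_left_cancel₀ hzc h6
  have hzz : (z * (starRingEnd ℂ) z).re = ‖z‖ ^ 2 := by
    rw [Complex.mul_conj, Complex.ofReal_re, Complex.normSq_eq_norm_sq]
  have hww : (w * (starRingEnd ℂ) w).re = ‖w‖ ^ 2 := by
    rw [Complex.mul_conj, Complex.ofReal_re, Complex.normSq_eq_norm_sq]
  have hexp : ∀ x : ℂ, (x * (starRingEnd ℂ) ((‖w‖ : ℂ) * z + (‖z‖ : ℂ) * w)).re =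
      ‖w‖ * (x * (starRingEnd ℂ) z).re + ‖z‖ * (x * (starRingEnd ℂ) w).re := by
    intro x
    simp [Complex.mul_re]
    ring
  have hz1 : 0 < (z * (starRingEnd ℂ) ((‖w‖ : ℂ) * z + (‖z‖ : ℂ) * w)).re := by
    rw [hexp, hzz, ← hcc]
    have : ‖w‖ * ‖z‖ ^ 2 + ‖z‖ * (w * (starRingEnd ℂ) z).re =
        ‖z‖ * (‖z‖ * ‖w‖ + (w * (starRingEnd ℂ) z).re) := by ring
    rw [this]
    exact mul_pos hz' hkey
  have hw1 : 0 < (w * (starRingEnd ℂ) ((‖w‖ : ℂ) * z + (‖z‖ : ℂ) * w)).re := by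
    rw [hexp, hww]
    have : ‖w‖ * (w * (starRingEnd ℂ) z).re + ‖z‖ * ‖w‖ ^ 2 =
        ‖w‖ * (‖z‖ * ‖w‖ + (w * (starRingEnd ℂ) z).re) := by ring
    rw [this]
    exact mul_pos hw' hkey
  have hs : 0 < ((z + w) * (starRingEnd ℂ) ((‖w‖ : ℂ) * z + (‖z‖ : ℂ) * w)).re := by
    rw [add_mul, Complex.add_re]
    exact add_pos hz1 hw1
  have := A2_halfplane hz1 hs hw1 hw1
  rw [this, div_self hw, arg_one, add_zero]

theorem A2_turn {n : ℕ} (P : Polygon n) (i : ZMod n) :
    arg ((P.vertex (i + 1) - P.vertex i) / (P.vertex i - P.vertex (i - 1))) =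
      Real.pi - P.ang i := by
  have hpi := Real.pi_pos
  set q : ℂ := (P.vertex (i - 1) - P.vertex i) / (P.vertex (i + 1) - P.vertex i) with hq
  have him : q.im ≠ 0 := by
    intro h0
    apply P.corner i
    by_cases hu : P.vertex (i + 1) - P.vertex i = 0
    · have h1 : P.vertex (i + 1) = P.vertex i := sub_eq_zero.1 hu
      rw [h1, Set.insert_comm, Set.pair_comm]
      simpa [Set.pair_comm] using collinear_pair ℝ (P.vertex (i - 1)) (P.vertex i)
    · have h1 : P.vertex (i - 1) - P.vertex i = (q.re : ℂ) * (P.vertex (i + 1) - P.vertex i) := by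
        have h2 : q = (q.re : ℂ) := by
          apply Complex.ext
          · simp
          · simp [h0]
        rw [← h2, hq]
        field_simp
      rw [collinear_iff_of_mem (p₀ := P.vertex i) (by simp)]
      refine ⟨P.vertex (i + 1) - P.vertex i, ?_⟩
      intro p hp
      simp only [Set.mem_insert_iff, Set.mem_singleton_iff] at hp
      rcases hp with rfl | rfl | rfl
      · refine ⟨q.re, ?_⟩
        rw [vadd_eq_add, Complex.real_smul, ← h1]
        ring
      · exact ⟨0, by simp⟩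
      · exact ⟨1, by simp⟩
  have hL : (P.vertex (i + 1) - P.vertex i) / (P.vertex i - P.vertex (i - 1)) = (-q)⁻¹ := by
    rw [hq, ← neg_div, inv_div, neg_sub]
  have hang : P.ang i = if 0 < arg q then arg q else arg q + 2 * Real.pi := rfl
  rw [hL, arg_inv, hang]
  rcases lt_or_gt_of_ne him with h | h
  · have h1 : arg (-q) = arg q + Real.pi := arg_neg_eq_arg_add_pi_of_im_neg h
    have h2 : arg q < 0 := arg_neg_iff.2 h
    rw [h1, if_neg (by intro h3; linarith), if_neg (by linarith)]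
    ring
  · have h1 : arg (-q) = arg q - Real.pi := arg_neg_eq_arg_sub_pi_of_im_pos h
    have h2 : 0 < arg q := by
      rcases lt_or_eq_of_le (arg_nonneg_iff.2 h.le) with h3 | h3
      · exact h3
      · exfalso
        have h4 := (arg_eq_zero_iff (z := q)).1 h3.symm
        exact him h4.2
    have h3 := arg_le_pi q
    rw [h1, if_neg (by intro h4; linarith), if_pos h2]
    ring

end Pool.Agent.Lib_MP_fa6e45
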