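import Pool.Agent.Lib_MP_fa6e45.Base
import Pool.Agent.Lib_MP_fa6e45.A1

/-!
PIECE A2b (about 180 lines): the path `V 1, ..., V (n-1)` is seen from `V 0` under the angle `ang 0`.
Take `z = V 0 + ε d` with `d = exp (I ang 0 / 2) (V 1 - V 0)` in the sector of corner 0 (`InSector`; an interior
point for small `ε` by `Poly.sector hc 0`), so `2 π = ∑_{i<n} arg ((V (i+1) - z) / (V i - z))`. For `ε → 0`
the terms `1, ..., n-2` converge to the terms of the sum below (continuity of `arg` on the slit plane: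
`V 0` is not on the segments `[V i, V (i+1)]`, `1 ≤ i ≤ n - 2`, `Lib_PL.slit_iff`), the terms `0` and `n - 1`
converge to `π - ang 0 / 2` each (`arg ((V 1 - V 0)/(- d))` and `arg (- d/(V (n-1) - V 0))`, with
`V (n-1) - V 0 = (V 1 - V 0) * s * exp (I ang 0)`). So `2 π = β + 2 π - ang 0`.
-/

open Set MeasureTheory Complex
open scoped Topology

namespace Pool.Agent.Lib_MP_fa6e45

open Pool.Agent.Lib_PL (cr InSector Poly)

private theorem A2b_polar {n : ℕ} (P : Polygon n) (h3 : 3 ≤ n) : ∃ s : ℝ, 0 < s ∧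
    P.vertex (-1) - P.vertex 0 = (P.vertex 1 - P.vertex 0) * (s : ℂ) *
      exp ((P.ang 0 : ℂ) * Complex.I) := by
  have hu : P.vertex 1 - P.vertex 0 ≠ 0 := by
    intro h
    have h1 := P.injective (sub_eq_zero.1 h)
    have : Fact (1 < n) := ⟨by omega⟩
    exact one_ne_zero h1
  have hv : P.vertex (-1) - P.vertex 0 ≠ 0 := by
    intro h
    have h1 := P.injective (sub_eq_zero.1 h)
    have : Fact (1 < n) := ⟨by omega⟩
    exact one_ne_zero (neg_eq_zero.1 h1)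
  set w := (P.vertex (-1) - P.vertex 0) / (P.vertex 1 - P.vertex 0) with hw
  have hw0 : w ≠ 0 := div_ne_zero hv hu
  refine ⟨‖w‖, norm_pos_iff.2 hw0, ?_⟩
  have hexp : exp ((P.ang 0 : ℂ) * Complex.I) = exp ((arg w : ℂ) * Complex.I) := by
    unfold Polygon.ang
    rw [zero_sub, zero_add, ← hw]
    simp only
    split_ifs
    · rfl
    · rw [Complex.exp_eq_exp_iff_exists_int]
      refine ⟨1, ?_⟩
      push_cast
      ring
  rw [hexp]
  have h1 := Complex.norm_mul_exp_arg_mul_I w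
  rw [mul_assoc, h1, hw, mul_div_cancel₀ _ hu]

private theorem A2b_arg {x y : ℂ} {t : ℝ} (hx : x ≠ 0) (ht : 0 < t) {α : ℝ}
    (h0 : 0 < α) (h1 : α < Real.pi) (h : y = x * (t : ℂ) * exp ((α : ℂ) * Complex.I)) :
    arg (y / x) = α := by
  have : y / x = (t : ℂ) * exp ((α : ℂ) * Complex.I) := by
    rw [h]
    field_simp
  rw [this, Complex.arg_real_mul _ ht, Complex.exp_mul_I, Complex.arg_cos_add_sin_mul_I
    ⟨by linarith [Real.pi_pos], h1.le⟩]

private theorem A2b_slit {w : ℂ} (h0 : 0 < arg w) (h1 : arg w < Real.pi) :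
    w ∈ Complex.slitPlane := by
  rw [Complex.mem_slitPlane_iff_arg]
  refine ⟨h1.ne, ?_⟩
  intro h
  rw [h, Complex.arg_zero] at h0
  exact lt_irrefl _ h0

theorem A2_beta {n : ℕ} (P : Polygon n) (hc : P.CCW) :
    ∑ j ∈ Finset.Ico 1 (n - 1), arg ((P.toPoly.V ((j : ℤ) + 1) - P.toPoly.V 0) /
      (P.toPoly.V (j : ℤ) - P.toPoly.V 0)) = P.ang 0 := by
  have h3 : 3 ≤ n := P.three_le
  obtain ⟨s, hs, hpol⟩ := A2b_polar P h3
  set θ := P.ang 0 with hθ
  have hθ0 : 0 < θ := P.ang_pos 0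
  have hθ1 : θ < 2 * Real.pi := P.ang_lt 0
  set V := P.toPoly.V with hV
  have hV0 : V 0 = P.vertex 0 := by
    change P.vertex ((0 : ℤ) : ZMod n) = _
    simp
  have hV1 : V 1 = P.vertex 1 := by
    change P.vertex ((1 : ℤ) : ZMod n) = _
    simp
  have hVm : V (-1) = P.vertex (-1) := by
    change P.vertex ((-1 : ℤ) : ZMod n) = _
    simp
  rw [← hV0, ← hV1, ← hVm] at hpol
  set u := V 1 - V 0 with hu
  have hu0 : u ≠ 0 := by
    intro h
    have h1 := P.toPoly.inj 1 0 (sub_eq_zero.1 h)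
    have := Int.le_of_dvd (by norm_num) h1
    omega
  set e := exp (((θ / 2 : ℝ) : ℂ) * Complex.I) with he
  have he0 : e ≠ 0 := Complex.exp_ne_zero _
  have hee : exp ((θ : ℂ) * Complex.I) = e * e := by
    rw [he, ← Complex.exp_add]
    congr 1
    push_cast
    ring
  set d := u * e with hd
  have hd0 : d ≠ 0 := mul_ne_zero hu0 he0
  have hs0 : (s : ℂ) ≠ 0 := by exact_mod_cast hs.ne'
  have hvd : V (-1) - V 0 = d * (s : ℂ) * e := by
    rw [hpol, hee, hd]
    ring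
  have hv0 : V (-1) - V 0 ≠ 0 := by
    rw [hvd]
    exact mul_ne_zero (mul_ne_zero hd0 hs0) he0
  have hsin : 0 < Real.sin (θ / 2) := Real.sin_pos_of_pos_of_lt_pi (by linarith) (by linarith)
  have here : e.re = Real.cos (θ / 2) := by
    rw [he, Complex.exp_ofReal_mul_I_re]
  have heim : e.im = Real.sin (θ / 2) := by
    rw [he, Complex.exp_ofReal_mul_I_im]
  have hcr : ∀ x : ℂ, cr x (x * e) = Complex.normSq x * Real.sin (θ / 2) := by
    intro x
    rw [← heim]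
    simp only [cr, mul_re, mul_im, Complex.normSq_apply]
    ring
  have hsec : InSector (V 1 - V 0) (V (-1) - V 0) d := by
    have h1 : 0 < cr u d := by
      rw [hd, hcr]
      exact mul_pos (Complex.normSq_pos.2 hu0) hsin
    have h2 : 0 < cr d (V (-1) - V 0) := by
      have : d * (s : ℂ) * e = (s : ℂ) * (d * e) := by ring
      rw [hvd, this, Pool.Agent.Lib_PL.cr_mul_right, hcr]
      exact mul_pos hs (mul_pos (Complex.normSq_pos.2 hd0) hsin)
    exact ⟨fun _ => ⟨h1, h2⟩, fun _ => Or.inl h1, fun _ => h1⟩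
  -- interior points
  obtain ⟨ρ, hρ, hsector⟩ := P.toPoly.sector hc 0
  have hγ : P.toPoly.γ 0 = V 0 := by
    unfold Pool.Agent.Lib_PL.Poly.γ
    simp [hV]
  have hep : P.toPoly.ep 0 = V 1 - V 0 := by
    unfold Pool.Agent.Lib_PL.Poly.ep
    rw [hγ]
    simp [hV]
  have hem : P.toPoly.em 0 = V (-1) - V 0 := by
    unfold Pool.Agent.Lib_PL.Poly.em
    rw [hγ]
    simp [hV]
  have hI : ∀ᶠ ε : ℝ in 𝓝[>] (0 : ℝ), V 0 + (ε : ℂ) * d ∈ P.toPoly.I := by
    have h1 : ∀ᶠ ε : ℝ in 𝓝[>] (0 : ℝ), 0 < ε ∧ ε < ρ / ‖d‖ := by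
      have : 0 < ρ / ‖d‖ := div_pos hρ (norm_pos_iff.2 hd0)
      exact Ioo_mem_nhdsGT this
    filter_upwards [h1] with ε hε
    have h2 : ‖(ε : ℂ) * d‖ < ρ := by
      rw [norm_mul, Complex.norm_real, Real.norm_eq_abs, abs_of_pos hε.1]
      exact (lt_div_iff₀ (norm_pos_iff.2 hd0)).1 hε.2
    have h4 := (hsector _ h2).1
    rw [hγ, hep, hem] at h4
    rw [h4]
    exact (Pool.Agent.Lib_PL.InSector_smul hε.1).2 hsec
  -- the limits of the two special terms
  have hexpn : exp (((Real.pi - θ / 2 : ℝ) : ℂ) * Complex.I) = -e⁻¹ := by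
    have h1 : ((Real.pi - θ / 2 : ℝ) : ℂ) * Complex.I =
        (Real.pi : ℂ) * Complex.I + -(((θ / 2 : ℝ) : ℂ) * Complex.I) := by
      push_cast
      ring
    rw [h1, Complex.exp_add, Complex.exp_pi_mul_I, Complex.exp_neg]
    ring
  have ha0 : arg (u / (-d)) = Real.pi - θ / 2 := by
    refine A2b_arg (t := 1) (neg_ne_zero.2 hd0) one_pos (by linarith) (by linarith) ?_
    rw [hexpn, hd]
    push_cast
    field_simp
  have ha1 : arg ((-d) / (V (-1) - V 0)) = Real.pi - θ / 2 := by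
    refine A2b_arg (t := 1 / s) hv0 (by positivity) (by linarith) (by linarith) ?_
    rw [hexpn, hvd]
    push_cast
    field_simp
  have hcz : Filter.Tendsto (fun ε : ℝ => (ε : ℂ) * d) (𝓝[>] (0 : ℝ)) (𝓝 0) := by
    have h1 : Continuous fun ε : ℝ => (ε : ℂ) * d := by fun_prop
    have h2 := h1.tendsto 0
    simp only [Complex.ofReal_zero, zero_mul] at h2
    exact h2.mono_left nhdsWithin_le_nhds
  have hg0 : Filter.Tendsto (fun ε : ℝ => arg ((u - (ε : ℂ) * d) / (-d))) (𝓝[>] (0 : ℝ))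
      (𝓝 (Real.pi - θ / 2)) := by
    have h1 : Filter.Tendsto (fun ε : ℝ => (u - (ε : ℂ) * d) / (-d)) (𝓝[>] (0 : ℝ))
        (𝓝 ((u - 0) / (-d))) := (hcz.const_sub u).div_const (-d)
    rw [sub_zero] at h1
    rw [← ha0]
    refine ((Complex.continuousAt_arg (A2b_slit ?_ ?_)).tendsto).comp h1
    · rw [ha0]; linarith
    · rw [ha0]; linarith
  have hg1 : Filter.Tendsto (fun ε : ℝ => arg ((-d) / (V (-1) - V 0 - (ε : ℂ) * d)))
      (𝓝[>] (0 : ℝ)) (𝓝 (Real.pi - θ / 2)) := by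
    have h1 : Filter.Tendsto (fun ε : ℝ => (-d) / (V (-1) - V 0 - (ε : ℂ) * d)) (𝓝[>] (0 : ℝ))
        (𝓝 ((-d) / (V (-1) - V 0 - 0))) :=
      tendsto_const_nhds.div (hcz.const_sub _) (by rw [sub_zero]; exact hv0)
    rw [sub_zero] at h1
    rw [← ha1]
    refine ((Complex.continuousAt_arg (A2b_slit ?_ ?_)).tendsto).comp h1
    · rw [ha1]; linarith
    · rw [ha1]; linarith
  -- the other terms
  have hgj : ∀ j ∈ Finset.Ico 1 (n - 1), Filter.Tendsto
      (fun ε : ℝ => arg ((V ((j : ℤ) + 1) - (V 0 + (ε : ℂ) * d)) / (V (j : ℤ) - (V 0 + (ε : ℂ) * d))))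
      (𝓝[>] (0 : ℝ)) (𝓝 (arg ((V ((j : ℤ) + 1) - V 0) / (V (j : ℤ) - V 0)))) := by
    intro j hj
    rw [Finset.mem_Ico] at hj
    have hnot : V 0 ∉ segment ℝ (V (j : ℤ)) (V ((j : ℤ) + 1)) := by
      intro hmem
      have h1 : ¬ (n : ℤ) ∣ (j : ℤ) - 0 := by
        intro h
        have := Int.le_of_dvd (by omega) h
        omega
      have h2 := (P.toPoly.simple (j : ℤ) 0 h1 (V 0) hmem (left_mem_segment ℝ _ _)).1
      rcases h2 with h2 | h2
      · have h4 := P.toPoly.inj _ _ h2.symm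
        exact h1 h4
      · have h4 := P.toPoly.inj _ _ h2.symm
        have := Int.le_of_dvd (by omega) h4
        omega
    have hne : V (j : ℤ) - V 0 ≠ 0 := by
      intro h0
      exact hnot (by rw [← sub_eq_zero.1 h0]; exact left_mem_segment ℝ _ _)
    have hz : Filter.Tendsto (fun ε : ℝ => V 0 + (ε : ℂ) * d) (𝓝[>] (0 : ℝ)) (𝓝 (V 0)) := by
      have := hcz.const_add (V 0)
      rwa [add_zero] at this
    have h1 := ((hz.const_sub (V ((j : ℤ) + 1))).div (hz.const_sub (V (j : ℤ))) hne)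
    exact ((Complex.continuousAt_arg
      (Pool.Agent.Lib_PL.slit_iff _ _ _ hnot)).tendsto).comp h1
  have hsum := tendsto_finsetSum (Finset.Ico 1 (n - 1)) hgj
  have hall := (hg0.add hsum).add hg1
  have hconst : ∀ᶠ ε : ℝ in 𝓝[>] (0 : ℝ), arg ((u - (ε : ℂ) * d) / (-d)) +
      ∑ j ∈ Finset.Ico 1 (n - 1), arg ((V ((j : ℤ) + 1) - (V 0 + (ε : ℂ) * d)) /
        (V (j : ℤ) - (V 0 + (ε : ℂ) * d))) +
      arg ((-d) / (V (-1) - V 0 - (ε : ℂ) * d)) = 2 * Real.pi := by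
    have h1 : ∀ᶠ ε : ℝ in 𝓝[>] (0 : ℝ), 0 < ε := self_mem_nhdsWithin
    filter_upwards [h1, hI] with ε hε hεI
    have hw := hc _ hεI
    unfold Pool.Agent.Lib_PL.Poly.wind at hw
    rw [div_eq_iff (by positivity), one_mul] at hw
    rw [← hw]
    have hεc : (ε : ℂ) ≠ 0 := by exact_mod_cast hε.ne'
    obtain ⟨m, rfl⟩ : ∃ m, n = m + 2 := ⟨n - 2, by omega⟩
    have esum : ∀ F : ℕ → ℝ, ∑ k ∈ Finset.range (m + 2), F k =
        F 0 + ∑ k ∈ Finset.Ico 1 (m + 1), F k + F (m + 1) := by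
      intro F
      rw [Finset.sum_range_succ, Finset.range_eq_Ico, Finset.sum_eq_sum_Ico_succ_bot (by omega)]
    have e1 : m + 2 - 1 = m + 1 := by omega
    rw [e1, esum, ← hV]
    congr 1
    · congr 1
      have h2 : (V (((0 : ℕ) : ℤ) + 1) - (V 0 + (ε : ℂ) * d)) /
          (V ((0 : ℕ) : ℤ) - (V 0 + (ε : ℂ) * d)) =
          ((ε⁻¹ : ℝ) : ℂ) * ((u - (ε : ℂ) * d) / (-d)) := by
        rw [Nat.cast_zero, zero_add, hu]
        push_cast
        have h5 : V 0 - (V 0 + (ε : ℂ) * d) = -((ε : ℂ) * d) := by ring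
        have h6 : V 1 - (V 0 + (ε : ℂ) * d) = V 1 - V 0 - (ε : ℂ) * d := by ring
        rw [h5, h6]
        field_simp
      rw [h2, Complex.arg_real_mul _ (inv_pos.2 hε)]
    · have hp1 : V (((m + 1 : ℕ) : ℤ) + 1) = V 0 := by
        have h7 : V (0 + ((m + 2 : ℕ) : ℤ)) = V 0 := P.toPoly.per 0
        rw [← h7]
        congr 1
        push_cast
        ring
      have hp2 : V ((m + 1 : ℕ) : ℤ) = V (-1) := by
        have h7 : V (-1 + ((m + 2 : ℕ) : ℤ)) = V (-1) := P.toPoly.per (-1)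
        rw [← h7]
        congr 1
        push_cast
        ring
      have h2 : (V (((m + 1 : ℕ) : ℤ) + 1) - (V 0 + (ε : ℂ) * d)) /
          (V ((m + 1 : ℕ) : ℤ) - (V 0 + (ε : ℂ) * d)) =
          (ε : ℂ) * ((-d) / (V (-1) - V 0 - (ε : ℂ) * d)) := by
        rw [hp1, hp2]
        have h5 : V 0 - (V 0 + (ε : ℂ) * d) = (ε : ℂ) * (-d) := by ring
        have h6 : V (-1) - (V 0 + (ε : ℂ) * d) = V (-1) - V 0 - (ε : ℂ) * d := by ring
        rw [h5, h6, mul_div_assoc]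
      rw [h2, Complex.arg_real_mul _ hε]
  have hlim := tendsto_nhds_unique (hall.congr' hconst) tendsto_const_nhds
  linarith

end Pool.Agent.Lib_MP_fa6e45
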