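import Pool.Agent.Lib_MP_fa6e45.A2a
import Pool.Agent.Lib_MP_fa6e45.A2b

/-!
PIECE A2c (about 150 lines): the angle sum of a simple polygon, `∑ ang i = (n - 2) π` (discrete Hopf
argument). Write `V j` (`j : ℤ`) for the vertices of `P.toPoly`, `D i j = V j - V i`,
`h i j = arg (D i (j+1) / D i j)`, `k i j = arg (D (i+1) j / D i j)`.
`A2_square`: `h i j + k i (j+1) = k i j + h (i+1) j` if the sides `[V i, V (i+1)]` and `[V j, V (j+1)]` are
disjoint (`i + 2 ≤ j`, `(i, j) ≠ (0, n-1)`, `j ≤ n - 1`). `A2_triangle`, `A2_turn`: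
`h i (i+1) + k i (i+2) = arg (D (i+1) (i+2) / D i (i+1)) = π - ang (i+1)`.
With `F i = ∑_{j=i+1}^{n-1} h i j` for `1 ≤ i`:
`F i - F (i+1) = (π - ang (i+1)) - k i n`, `F (n-1) = 0`, and `k i n = h 0 i` (both differences are
negated, `V n = V 0`), so `F 1 = ∑_{k=2}^{n-1} (π - ang k) - β`, `β = ∑_{j=1}^{n-2} h 0 j`. Row 0:
`β = (π - ang 1) - k 0 (n-1) + F 1 - h 1 (n-1)` and `k 0 (n-1) + h 1 (n-1) =
arg ((V 0 - V 1)/(V (n-1) - V 0)) = π - ang 0` (triangle). Together
`2 β + (π - ang 0) = ∑_{k=1}^{n-1} (π - ang k)`, and `β = ang 0` (`A2_beta`) gives the sum.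
(The case n = 3: the sums are short, check that the formulas stay true.)
-/

open Set MeasureTheory Complex
open scoped Topology

namespace Pool.Agent.Lib_MP_fa6e45

open Pool.Agent.Lib_PL (cr InSector Poly)

/-- the triangle lemma at the corner `i` -/
private theorem A2c_tri {n : ℕ} (P : Polygon n) (i : ZMod n) :
    arg ((P.vertex (i + 1) - P.vertex (i - 1)) / (P.vertex i - P.vertex (i - 1))) +
      arg ((P.vertex (i + 1) - P.vertex i) / (P.vertex (i + 1) - P.vertex (i - 1))) =
      Real.pi - P.ang i := by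
  have hcor := P.corner i
  have key : ∀ t : ℝ, P.vertex (i + 1) - P.vertex i ≠ (t : ℂ) * (P.vertex i - P.vertex (i - 1)) := by
    intro t ht
    apply hcor
    rw [collinear_iff_of_mem (p₀ := P.vertex i) (by simp)]
    refine ⟨P.vertex i - P.vertex (i - 1), ?_⟩
    intro p hp
    simp only [mem_insert_iff, mem_singleton_iff] at hp
    rcases hp with rfl | rfl | rfl
    · exact ⟨-1, by simp⟩
    · exact ⟨0, by simp⟩
    · refine ⟨t, ?_⟩
      rw [vadd_eq_add, Complex.real_smul, ← ht]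
      ring
  have hw : P.vertex (i + 1) - P.vertex i ≠ 0 := by
    have := key 0
    simpa using this
  have hz : P.vertex i - P.vertex (i - 1) ≠ 0 := by
    intro hz
    apply hcor
    have h1 : P.vertex (i - 1) = P.vertex i := by
      rw [sub_eq_zero] at hz
      exact hz.symm
    rw [h1]
    simp only [mem_singleton_iff, insert_eq_of_mem, mem_insert_iff, true_or]
    exact collinear_pair _ _ _
  have h := A2_triangle hz hw (fun t _ hc => key (-t) (by rw [hc]; push_cast; ring))
  rw [← A2_turn, ← h]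
  congr 3 <;> ring

private theorem A2c_tel (g : ℕ → ℝ) (a m : ℕ) (h : a ≤ m) :
    ∑ j ∈ Finset.Ico a m, (g j - g (j + 1)) = g a - g m := by
  induction m, h using Nat.le_induction with
  | base => simp
  | succ m hm ih =>
    rw [Finset.sum_Ico_succ_top hm, ih]
    ring

theorem Polygon.ang_sum {n : ℕ} [NeZero n] (P : Polygon n) (hc : P.CCW) :
    ∑ i : ZMod n, P.ang i = ((n : ℝ) - 2) * Real.pi := by
  have hn : 3 ≤ n := P.three_le
  set V : ℕ → ℂ := fun j => P.vertex (j : ZMod n) with hV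
  have hVn : V n = V 0 := by
    simp only [hV, ZMod.natCast_self, Nat.cast_zero]
  set h : ℕ → ℕ → ℝ := fun i j => arg ((V (j + 1) - V i) / (V j - V i)) with hh
  set k : ℕ → ℕ → ℝ := fun i j => arg ((V j - V (i + 1)) / (V j - V i)) with hk
  set a : ℕ → ℝ := fun j => Real.pi - P.ang (j : ZMod n) with ha
  -- squares
  have hsq : ∀ i j, i + 2 ≤ j → j < n → ¬ (i = 0 ∧ j = n - 1) →
      h i j + k i (j + 1) = k i j + h (i + 1) j := by
    intro i j hij hj hne
    have hd : Disjoint (segment ℝ (V i) (V (i + 1))) (segment ℝ (V j) (V (j + 1))) := by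
      rw [Set.disjoint_left]
      intro z hz1 hz2
      have hndiv : ¬ (n : ℤ) ∣ (i : ℤ) - j := by
        intro hdiv
        have h0 := Int.eq_zero_of_abs_lt_dvd hdiv (by rw [abs_lt]; constructor <;> omega)
        omega
      have hs := P.toPoly.simple i j hndiv z (by
        simpa [hV, Polygon.toPoly, Pool.Agent.Lib_PL.SimplePolygon.toPoly] using hz1) (by
        simpa [hV, Polygon.toPoly, Pool.Agent.Lib_PL.SimplePolygon.toPoly] using hz2)
      obtain ⟨h1, h2⟩ := hs
      have hno : ∀ x y : ℤ, P.toPoly.V x = P.toPoly.V y → 0 < y - x → y - x < n → False := by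
        intro x y hxy h3 h4
        have hdiv := P.toPoly.inj x y hxy
        have h0 := Int.eq_zero_of_abs_lt_dvd hdiv (by rw [abs_lt]; constructor <;> omega)
        omega
      rcases h1 with h1 | h1 <;> rcases h2 with h2 | h2
      · exact hno i j (h1 ▸ h2) (by omega) (by omega)
      · exact hno i (j + 1) (h1 ▸ h2) (by omega) (by omega)
      · exact hno (i + 1) j (h1 ▸ h2) (by omega) (by omega)
      · exact hno (i + 1) (j + 1) (h1 ▸ h2) (by omega) (by omega)
    exact A2_square hd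
  -- triangles
  have htri : ∀ i, h i (i + 1) + k i (i + 2) = a (i + 1) := by
    intro i
    have h1 := A2c_tri P (((i + 1 : ℕ)) : ZMod n)
    have e1 : (((i + 1 : ℕ)) : ZMod n) - 1 = (i : ZMod n) := by push_cast; ring
    have e2 : (((i + 1 : ℕ)) : ZMod n) + 1 = ((i + 1 + 1 : ℕ) : ZMod n) := by push_cast; ring
    rw [e1, e2] at h1
    exact h1
  have htri0 : k 0 (n - 1) + h 1 (n - 1) = a 0 := by
    have h1 := A2c_tri P ((0 : ℕ) : ZMod n)
    have e1 : ((0 : ℕ) : ZMod n) - 1 = ((n - 1 : ℕ) : ZMod n) := by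
      rw [Nat.cast_sub (by omega)]; simp
    have e2 : ((0 : ℕ) : ZMod n) + 1 = ((0 + 1 : ℕ) : ZMod n) := by push_cast; ring
    rw [e1, e2] at h1
    simp only [hh, hk, ha]
    rw [← h1]
    have e3 : V (n - 1 + 1) = V 0 := by rw [Nat.sub_add_cancel (by omega), hVn]
    rw [e3]
    simp only [hV]
    congr 2
    · rw [← neg_div_neg_eq]; congr 1 <;> ring
    · rw [← neg_div_neg_eq]; congr 1 <;> ring
  have hkn : ∀ i, k i n = h 0 i := by
    intro i
    simp only [hh, hk]
    rw [hVn, ← neg_div_neg_eq]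
    congr 2 <;> ring
  set F : ℕ → ℝ := fun i => ∑ j ∈ Finset.Ico (i + 1) n, h i j with hF
  have hstep : ∀ i, 1 ≤ i → i + 2 ≤ n → F i - F (i + 1) = a (i + 1) - h 0 i := by
    intro i hi hin
    have e1 : F i = h i (i + 1) + ∑ j ∈ Finset.Ico (i + 1 + 1) n, h i j := by
      simp only [hF]
      exact Finset.sum_eq_sum_Ico_succ_bot (by omega) _
    have e2 : ∑ j ∈ Finset.Ico (i + 1 + 1) n, h i j = ∑ j ∈ Finset.Ico (i + 1 + 1) n, h (i + 1) j +
        ∑ j ∈ Finset.Ico (i + 1 + 1) n, (k i j - k i (j + 1)) := by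
      rw [← Finset.sum_add_distrib]
      refine Finset.sum_congr rfl fun j hj => ?_
      rw [Finset.mem_Ico] at hj
      have := hsq i j (by omega) (by omega) (by omega)
      linarith
    rw [A2c_tel (k i) _ _ (by omega), hkn] at e2
    have e3 : F (i + 1) = ∑ j ∈ Finset.Ico (i + 1 + 1) n, h (i + 1) j := rfl
    have e4 := htri i
    rw [e1, e2, e3]
    linarith
  have hF1 : F 1 = ∑ i ∈ Finset.Ico 1 (n - 1), (a (i + 1) - h 0 i) := by
    have e1 : ∑ i ∈ Finset.Ico 1 (n - 1), (F i - F (i + 1)) = F 1 - F (n - 1) :=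
      A2c_tel F _ _ (by omega)
    have e2 : F (n - 1) = 0 := by
      simp only [hF]
      rw [Nat.sub_add_cancel (by omega), Finset.Ico_self, Finset.sum_empty]
    rw [e2, sub_zero] at e1
    rw [← e1]
    refine Finset.sum_congr rfl fun i hi => ?_
    rw [Finset.mem_Ico] at hi
    exact hstep i hi.1 (by omega)
  -- row 0
  set β : ℝ := ∑ j ∈ Finset.Ico 1 (n - 1), h 0 j with hβ
  have hβ0 : β = P.ang 0 := by
    rw [← A2_beta P hc, hβ]
    refine Finset.sum_congr rfl fun j _ => ?_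
    simp only [hh, hV, Polygon.toPoly, Pool.Agent.Lib_PL.SimplePolygon.toPoly]
    push_cast
    rfl
  have hrow : β = a 1 - k 0 (n - 1) + (F 1 - h 1 (n - 1)) := by
    have e1 : β = h 0 1 + ∑ j ∈ Finset.Ico (1 + 1) (n - 1), h 0 j :=
      Finset.sum_eq_sum_Ico_succ_bot (by omega) _
    have e2 : ∑ j ∈ Finset.Ico (1 + 1) (n - 1), h 0 j = ∑ j ∈ Finset.Ico (1 + 1) (n - 1), h 1 j +
        ∑ j ∈ Finset.Ico (1 + 1) (n - 1), (k 0 j - k 0 (j + 1)) := by
      rw [← Finset.sum_add_distrib]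
      refine Finset.sum_congr rfl fun j hj => ?_
      rw [Finset.mem_Ico] at hj
      have := hsq 0 j (by omega) (by omega) (by omega)
      simp only [zero_add] at this
      linarith
    rw [A2c_tel (k 0) _ _ (by omega)] at e2
    have e3 : F 1 = ∑ j ∈ Finset.Ico (1 + 1) (n - 1), h 1 j + h 1 (n - 1) := by
      have e5 : F 1 = ∑ j ∈ Finset.Ico (1 + 1) (n - 1 + 1), h 1 j := by
        rw [Nat.sub_add_cancel (by omega)]
      rw [e5, Finset.sum_Ico_succ_top (by omega)]
    have e4 := htri 0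
    simp only [zero_add] at e4
    rw [e1, e2, e3]
    have e6 : (1 + 1 : ℕ) = 2 := rfl
    rw [e6]
    linarith
  -- conclusion
  have hsum1 : ∑ i ∈ Finset.Ico 1 (n - 1), (a (i + 1) - h 0 i) =
      ∑ i ∈ Finset.Ico 1 (n - 1), a (i + 1) - β := by
    rw [Finset.sum_sub_distrib]
  have hsum2 : ∑ j ∈ Finset.range n, a j = a 0 + a 1 + ∑ i ∈ Finset.Ico 1 (n - 1), a (i + 1) := by
    rw [Finset.range_eq_Ico, Finset.sum_eq_sum_Ico_succ_bot (by omega),
      Finset.sum_eq_sum_Ico_succ_bot (by omega)]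
    rw [Finset.sum_Ico_add' a 1 (n - 1) 1, Nat.sub_add_cancel (by omega)]
    simp only [zero_add]
    ring
  have hsum3 : ∑ j ∈ Finset.range n, a j = n * Real.pi - ∑ i : ZMod n, P.ang i := by
    have e1 : ∑ i : ZMod n, P.ang i = ∑ j ∈ Finset.range n, P.ang (j : ZMod n) := by
      refine Finset.sum_nbij' ZMod.val (fun j => (j : ZMod n)) ?_ ?_ ?_ ?_ ?_
      · intro i _
        exact Finset.mem_range.2 (ZMod.val_lt i)
      · intro j _
        exact Finset.mem_univ _
      · intro i _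
        exact ZMod.natCast_zmod_val i
      · intro j hj
        exact ZMod.val_cast_of_lt (Finset.mem_range.1 hj)
      · intro i _
        rw [ZMod.natCast_zmod_val]
    rw [e1]
    simp only [ha]
    rw [Finset.sum_sub_distrib, Finset.sum_const, Finset.card_range, nsmul_eq_mul]
  have ha0 : a 0 = Real.pi - P.ang 0 := by
    simp only [ha, Nat.cast_zero]
  have : ∑ i ∈ Finset.Ico 1 (n - 1), a (i + 1) = 2 * β + a 0 - a 1 := by
    rw [hF1, hsum1] at hrow
    linarith
  have h5 : ∑ j ∈ Finset.range n, a j = 2 * Real.pi := by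
    rw [hsum2, this, hβ0, ha0]
    ring
  rw [hsum3] at h5
  linarith

end Pool.Agent.Lib_MP_fa6e45
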