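import Pool.Agent.Lib_MP_fa6e45.A1b
import Pool.Agent.Lib_MP_fa6e45.A3a

/-!
PIECE A3b (about 150 lines): the shoelace formula. `sum_th` is the winding number of `Lib_PL`
(`Poly.CCW`, `wind_ext`; sum over `range n` versus `ZMod n`). For `z` off the boundary and off
the segments `[0, V i]`: `∑ th (V i) (V (i+1)) z = ∑ (th 0 (V i) z + th (V i) (V (i+1)) z + th (V (i+1)) 0 z)`
(`th_swap`), so by `triangle_th` the indicator of the interior is a.e. `∑ sign (cr (V i) (V (i+1)))
indicator (Tri (V i) (V (i+1)))`. Integrate.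
-/

open Set MeasureTheory Complex
open scoped Topology

namespace Pool.Agent.Lib_MP_fa6e45

open Pool.Agent.Lib_PL (cr InSector Poly)

variable {n : ℕ}

private theorem A3b_sum_range [NeZero n] (f : ZMod n → ℝ) :
    ∑ i ∈ Finset.range n, f ((i : ℕ) : ZMod n) = ∑ i : ZMod n, f i := by
  refine Finset.sum_bij' (fun i _ => ((i : ℕ) : ZMod n)) (fun k _ => ZMod.val k) ?_ ?_ ?_ ?_ ?_
  · intro i _
    exact Finset.mem_univ _
  · intro k _
    exact Finset.mem_range.2 (ZMod.val_lt k)
  · intro i hi
    exact ZMod.val_cast_of_lt (Finset.mem_range.1 hi)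
  · intro k _
    exact ZMod.natCast_zmod_val k
  · intro i _
    rfl

private theorem A3b_wind [NeZero n] (P : Polygon n) (z : ℂ) :
    ∑ i : ZMod n, th (P.vertex i) (P.vertex (i + 1)) z = P.toPoly.wind z * (2 * Real.pi) := by
  have hpi : (2 * Real.pi) ≠ 0 := by positivity
  unfold Pool.Agent.Lib_PL.Poly.wind
  rw [div_mul_cancel₀ _ hpi, ← A3b_sum_range (fun i => th (P.vertex i) (P.vertex (i + 1)) z)]
  refine Finset.sum_congr rfl fun i _ => ?_
  unfold th
  have h1 : P.toPoly.V (i : ℤ) = P.vertex (i : ZMod n) := by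
    change P.vertex (((i : ℤ)) : ZMod n) = _
    simp
  have h2 : P.toPoly.V ((i : ℤ) + 1) = P.vertex ((i : ZMod n) + 1) := by
    change P.vertex ((((i : ℤ) + 1 : ℤ)) : ZMod n) = _
    push_cast
    rfl
  rw [h1, h2]

/-- the winding number formula for a counterclockwise polygon -/
theorem Polygon.sum_th [NeZero n] (P : Polygon n) (hc : P.CCW) :
    (∀ z ∈ P.inner, ∑ i : ZMod n, th (P.vertex i) (P.vertex (i + 1)) z = 2 * Real.pi) ∧
    (∀ z, z ∉ P.region → ∑ i : ZMod n, th (P.vertex i) (P.vertex (i + 1)) z = 0) := by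
  constructor
  · intro z hz
    rw [A3b_wind, hc z hz, one_mul]
  · intro z hz
    rw [P.region_eq] at hz
    rw [A3b_wind, P.toPoly.wind_ext z hz, zero_mul]

private theorem A3b_Tri_eq {u v : ℂ} (h : cr u v ≠ 0) :
    Tri u v = {z | 0 < cr z v / cr u v ∧ 0 < cr u z / cr u v ∧
      cr z v / cr u v + cr u z / cr u v < 1} := by
  ext z
  constructor
  · rintro ⟨x, y, hx, hy, hxy, rfl⟩
    have h1 : cr ((x : ℂ) * u + (y : ℂ) * v) v = x * cr u v := by
      rw [Pool.Agent.Lib_PL.cr_add_left, Pool.Agent.Lib_PL.cr_mul_left,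
        Pool.Agent.Lib_PL.cr_mul_left, Pool.Agent.Lib_PL.cr_self]
      ring
    have h2 : cr u ((x : ℂ) * u + (y : ℂ) * v) = y * cr u v := by
      rw [Pool.Agent.Lib_PL.cr_add_right, Pool.Agent.Lib_PL.cr_mul_right,
        Pool.Agent.Lib_PL.cr_mul_right, Pool.Agent.Lib_PL.cr_self]
      ring
    simp only [mem_ofPred_eq]
    rw [h1, h2, mul_div_cancel_right₀ _ h, mul_div_cancel_right₀ _ h]
    exact ⟨hx, hy, hxy⟩
  · rintro ⟨h1, h2, h3⟩
    refine ⟨cr z v / cr u v, cr u z / cr u v, h1, h2, h3, ?_⟩
    have h4 := Pool.Agent.Lib_PL.cr_dep u v z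
    have h5 : (cr u v : ℂ) ≠ 0 := by
      exact_mod_cast h
    have h6 : cr z u = - cr u z := Pool.Agent.Lib_PL.cr_swap z u
    have h7 : cr v z = - cr z v := Pool.Agent.Lib_PL.cr_swap v z
    rw [h6, h7] at h4
    push_cast at h4 ⊢
    field_simp
    linear_combination h4

private theorem A3b_Tri_meas {u v : ℂ} (h : cr u v ≠ 0) : MeasurableSet (Tri u v) := by
  rw [A3b_Tri_eq h]
  have c1 : Continuous fun z : ℂ => cr z v / cr u v := by
    unfold cr
    fun_prop
  have c2 : Continuous fun z : ℂ => cr u z / cr u v := by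
    unfold cr
    fun_prop
  exact ((isOpen_lt continuous_const c1).inter ((isOpen_lt continuous_const c2).inter
    (isOpen_lt (c1.add c2) continuous_const))).measurableSet

/-- the signed indicator of a triangle -/
private noncomputable def A3b_F (u v : ℂ) : ℂ → ℝ :=
  (Tri u v).indicator (fun _ => (SignType.sign (cr u v) : ℝ))

private theorem A3b_F_zero {u v : ℂ} (h : cr u v = 0) : A3b_F u v = fun _ => 0 := by
  unfold A3b_F
  rw [h]
  simp

private theorem A3b_F_int (u v : ℂ) :
    Integrable (A3b_F u v) volume ∧ ∫ z, A3b_F u v z = cr u v / 2 := by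
  by_cases h : cr u v = 0
  · rw [A3b_F_zero h, h]
    exact ⟨integrable_zero _ _ _, by simp⟩
  · have hm := A3b_Tri_meas h
    have ha := triangle_area u v
    constructor
    · unfold A3b_F
      rw [integrable_indicator_iff hm]
      refine integrableOn_const ?_
      rw [ha]
      exact ENNReal.ofReal_ne_top
    · unfold A3b_F
      rw [integral_indicator_const _ hm, measureReal_def, ha,
        ENNReal.toReal_ofReal (by positivity), smul_eq_mul]
      have h2 : |cr u v| * (SignType.sign (cr u v) : ℝ) = cr u v := by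
        rw [mul_comm]
        exact sign_mul_abs _
      linear_combination (1 / 2) * h2

/-- the area of a polygon -/
theorem Polygon.area_eq [NeZero n] (P : Polygon n) (hc : P.CCW) :
    (volume P.region).toReal = (∑ i : ZMod n, cr (P.vertex i) (P.vertex (i + 1))) / 2 := by
  have hbm : volume P.bdry = 0 := by
    rw [P.bdry_eq, measure_iUnion_null_iff]
    intro i
    exact segment_null _ _
  have hsm : volume (⋃ i : ZMod n, segment ℝ 0 (P.vertex i)) = 0 := by
    rw [measure_iUnion_null_iff]
    intro i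
    exact segment_null _ _
  have hae : ∀ᵐ z ∂(volume : Measure ℂ), P.region.indicator (fun _ => (1 : ℝ)) z =
      ∑ i : ZMod n, A3b_F (P.vertex i) (P.vertex (i + 1)) z := by
    have h1 : ∀ᵐ z ∂(volume : Measure ℂ), z ∉ P.bdry := measure_eq_zero_iff_ae_notMem.1 hbm
    have h2 : ∀ᵐ z ∂(volume : Measure ℂ), z ∉ ⋃ i : ZMod n, segment ℝ 0 (P.vertex i) :=
      measure_eq_zero_iff_ae_notMem.1 hsm
    filter_upwards [h1, h2] with z hz1 hz2
    rw [P.bdry_eq, mem_iUnion, not_exists] at hz1
    rw [mem_iUnion, not_exists] at hz2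
    have hz3 : ∀ i : ZMod n, z ∉ segment ℝ (P.vertex i) 0 := by
      intro i
      rw [segment_symm]
      exact hz2 i
    have key : ∑ i : ZMod n, th (P.vertex i) (P.vertex (i + 1)) z =
        2 * Real.pi * ∑ i : ZMod n, A3b_F (P.vertex i) (P.vertex (i + 1)) z := by
      rw [Finset.mul_sum]
      have e1 : ∀ i : ZMod n, 2 * Real.pi * A3b_F (P.vertex i) (P.vertex (i + 1)) z =
          th 0 (P.vertex i) z + th (P.vertex i) (P.vertex (i + 1)) z +
            th (P.vertex (i + 1)) 0 z := by
        intro i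
        exact (triangle_th (hz2 i) (hz1 i) (hz3 (i + 1))).symm
      rw [Finset.sum_congr rfl fun i _ => e1 i, Finset.sum_add_distrib, Finset.sum_add_distrib]
      have e2 : ∑ i : ZMod n, th (P.vertex (i + 1)) 0 z = ∑ i : ZMod n, th (P.vertex i) 0 z :=
        Equiv.sum_comp (Equiv.addRight (1 : ZMod n)) (fun i => th (P.vertex i) 0 z)
      have e3 : ∑ i : ZMod n, th (P.vertex i) 0 z = - ∑ i : ZMod n, th 0 (P.vertex i) z := by
        rw [← Finset.sum_neg_distrib]
        exact Finset.sum_congr rfl fun i _ => th_swap (hz2 i)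
      rw [e2, e3]
      ring
    have hpi : (2 * Real.pi) ≠ 0 := by positivity
    by_cases hz : z ∈ P.region
    · have hin : z ∈ P.inner := by
        rw [P.region_union] at hz
        rcases hz with hz | hz
        · rw [P.bdry_eq, mem_iUnion] at hz
          obtain ⟨i, hi⟩ := hz
          exact absurd hi (hz1 i)
        · exact hz
      rw [indicator_of_mem hz]
      rw [(P.sum_th hc).1 z hin] at key
      have := mul_left_cancel₀ hpi (show 2 * Real.pi * 1 = 2 * Real.pi *
        ∑ i : ZMod n, A3b_F (P.vertex i) (P.vertex (i + 1)) z by rw [← key, mul_one])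
      exact this
    · rw [indicator_of_notMem hz]
      rw [(P.sum_th hc).2 z hz] at key
      rcases mul_eq_zero.1 key.symm with h | h
      · exact absurd h hpi
      · exact h.symm
  have hrm : MeasurableSet P.region := P.region_closed.measurableSet
  have h3 : (volume P.region).toReal = ∫ z, P.region.indicator (fun _ => (1 : ℝ)) z := by
    rw [integral_indicator_const _ hrm, measureReal_def, smul_eq_mul, mul_one]
  rw [h3, integral_congr_ae hae, integral_finsetSum _ fun i _ => (A3b_F_int _ _).1,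
    Finset.sum_congr rfl fun i _ => (A3b_F_int _ _).2, Finset.sum_div]

end Pool.Agent.Lib_MP_fa6e45
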