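import Pool.Agent.Lib_MP_fa6e45.Stmt
import Pool.Agent.Lib_PL.Final

/-!
MP_fa6e45_co: working definitions. Motions of the plane in explicit form (`Mo`), edge-to-edge tilings
with an index type (`Til`), the oriented corner directions `uu`, `ww`, the interior angle `ang` of a
counterclockwise polygon, the combinatorial data `Comb` of a tiling.
-/

open Set MeasureTheory Complex
open scoped Topology

set_option linter.unusedSimpArgs false

namespace Pool.Agent.Lib_MP_fa6e45

open Pool.Agent.Lib_PL (cr InSector Poly)

/-! ### Motions -/

/-- an isometry of the plane in explicit form: `z ↦ a z + b`, or `z ↦ a conj z + b` if `rf` -/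
structure Mo where
  a : ℂ
  b : ℂ
  rf : Bool
  ha : ‖a‖ = 1

namespace Mo

variable (g : Mo)

/-- the linear part -/
noncomputable def lin (z : ℂ) : ℂ := if g.rf then g.a * (starRingEnd ℂ) z else g.a * z

/-- the motion as a map -/
noncomputable def app (z : ℂ) : ℂ := g.lin z + g.b

theorem app_sub (z w : ℂ) : g.app z - g.app w = g.lin (z - w) := by
  unfold app lin
  split_ifs <;> (try simp only [map_sub, map_add, map_mul, conj_ofReal]) <;> ring

theorem lin_add (z w : ℂ) : g.lin (z + w) = g.lin z + g.lin w := by
  unfold lin
  split_ifs <;> (try simp only [map_sub, map_add, map_mul, conj_ofReal]) <;> ring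

theorem lin_neg (z : ℂ) : g.lin (-z) = -g.lin z := by
  unfold lin
  split_ifs <;> simp

theorem lin_sub (z w : ℂ) : g.lin (z - w) = g.lin z - g.lin w := by
  unfold lin
  split_ifs <;> (try simp only [map_sub, map_add, map_mul, conj_ofReal]) <;> ring

theorem lin_mul (t : ℝ) (z : ℂ) : g.lin ((t : ℂ) * z) = (t : ℂ) * g.lin z := by
  unfold lin
  split_ifs <;> (try simp only [map_sub, map_add, map_mul, conj_ofReal]) <;> ring

theorem app_add (z d : ℂ) : g.app (z + d) = g.app z + g.lin d := by
  unfold app
  rw [lin_add]
  ring

theorem norm_lin (z : ℂ) : ‖g.lin z‖ = ‖z‖ := by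
  unfold lin
  split_ifs <;> simp [g.ha]

theorem dist_app (z w : ℂ) : dist (g.app z) (g.app w) = dist z w := by
  rw [dist_eq_norm, g.app_sub, g.norm_lin, dist_eq_norm]

theorem cr_lin (u v : ℂ) : cr (g.lin u) (g.lin v) = if g.rf then -cr u v else cr u v := by
  have h : g.a.re * g.a.re + g.a.im * g.a.im = 1 := by
    have h1 := Complex.sq_norm g.a
    rw [g.ha, Complex.normSq_apply] at h1
    linarith
  unfold lin cr
  split_ifs
  · simp only [mul_re, mul_im, conj_re, conj_im]
    linear_combination (-(u.re * v.im - u.im * v.re)) * h
  · simp only [mul_re, mul_im]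
    linear_combination (u.re * v.im - u.im * v.re) * h

/-- the inverse motion -/
noncomputable def inv : Mo where
  a := if g.rf then g.a else (starRingEnd ℂ) g.a
  b := if g.rf then -(g.a * (starRingEnd ℂ) g.b) else -((starRingEnd ℂ) g.a * g.b)
  rf := g.rf
  ha := by
    split_ifs
    · exact g.ha
    · rw [RCLike.norm_conj]
      exact g.ha

theorem a_conj : g.a * (starRingEnd ℂ) g.a = 1 := by
  rw [Complex.mul_conj, Complex.normSq_eq_norm_sq, g.ha]
  simp

theorem inv_app (z : ℂ) : g.inv.app (g.app z) = z := by
  have h := g.a_conj
  obtain ⟨a, b, rf, ha⟩ := g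
  cases rf
  · simp only [inv, app, lin] at h ⊢
    simp only [Bool.false_eq_true, if_false]
    linear_combination z * h
  · simp only [inv, app, lin] at h ⊢
    simp only [if_true, map_add, map_mul, conj_conj]
    linear_combination z * h

theorem app_inv (z : ℂ) : g.app (g.inv.app z) = z := by
  have h := g.a_conj
  obtain ⟨a, b, rf, ha⟩ := g
  cases rf
  · simp only [inv, app, lin] at h ⊢
    simp only [Bool.false_eq_true, if_false]
    linear_combination (z - b) * h
  · simp only [inv, app, lin] at h ⊢
    simp only [if_true, map_add, map_mul, map_neg, conj_conj]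
    linear_combination (z - b) * h

/-- the motion as an isometry equivalence -/
noncomputable def iso : ℂ ≃ᵢ ℂ where
  toFun := g.app
  invFun := g.inv.app
  left_inv := g.inv_app
  right_inv := g.app_inv
  isometry_toFun := Isometry.of_dist_eq g.dist_app

@[simp] theorem iso_apply (z : ℂ) : g.iso z = g.app z := rfl

theorem app_injective : Function.Injective g.app := g.iso.injective

theorem lin_injective : Function.Injective g.lin := by
  intro z w h
  have h2 : g.app z = g.app w := by
    unfold app
    rw [h]
  exact g.app_injective h2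

end Mo

/-! ### The polygon -/

namespace Polygon

variable {n : ℕ} (P : Polygon n)

/-- the polygon in the form used by `Lib_PL` (vertices indexed by the integers) -/
def toPoly : Poly n := P.toSimplePolygon.toPoly

/-- the polygon is labelled counterclockwise -/
def CCW : Prop := P.toPoly.CCW

/-- the open interior of the polygon -/
def inner : Set ℂ := P.toPoly.I

/-- the boundary of the polygon -/
def bdry : Set ℂ := P.toPoly.C

/-- the interior angle at corner `i` of a counterclockwise polygon: the angle in `(0, 2 π)` from the
direction of corner `i + 1` counterclockwise to the direction of corner `i - 1` -/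
noncomputable def ang (i : ZMod n) : ℝ :=
  let θ := arg ((P.vertex (i - 1) - P.vertex i) / (P.vertex (i + 1) - P.vertex i))
  if 0 < θ then θ else θ + 2 * Real.pi

end Polygon

/-! ### Tilings with an index type -/

/-- an edge-to-edge tiling by copies of `P`, the tiles being indexed by `ι` -/
structure Til {n : ℕ} (P : Polygon n) (ι : Type) where
  g : ι → Mo
  cover : ∀ z : ℂ, ∃ t, z ∈ (g t).app '' P.region
  disj : ∀ s t, s ≠ t → Disjoint ((g s).app '' P.inner) ((g t).app '' P.inner)
  e2e : ∀ s t, ∀ i j : ZMod n,
    (g s).app (P.vertex i) ∉ openSegment ℝ ((g t).app (P.vertex j)) ((g t).app (P.vertex (j + 1)))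

/-- entry side of the corner `c = (t, i)`: going counterclockwise around the corner we enter the tile
through the side `i` if the tile is a direct copy, and through the side `i - 1` if it is reflected -/
def enS {n : ℕ} {ι : Type} (rf : ι → Bool) (c : ι × ZMod n) : ZMod n :=
  if rf c.1 then c.2 - 1 else c.2

/-- exit side of the corner `c = (t, i)` -/
def exS {n : ℕ} {ι : Type} (rf : ι → Bool) (c : ι × ZMod n) : ZMod n :=
  if rf c.1 then c.2 else c.2 - 1

/-- the other end of the exit side of `c` (a corner of the same tile, whose entry side it is) -/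
def bwd {n : ℕ} {ι : Type} (rf : ι → Bool) (c : ι × ZMod n) : ι × ZMod n :=
  (c.1, if rf c.1 then c.2 + 1 else c.2 - 1)

/-- the other end of the entry side of `c` (a corner of the same tile, whose exit side it is) -/
def fwd {n : ℕ} {ι : Type} (rf : ι → Bool) (c : ι × ZMod n) : ι × ZMod n :=
  (c.1, if rf c.1 then c.2 - 1 else c.2 + 1)

namespace Til

variable {n : ℕ} {P : Polygon n} {ι : Type} (T : Til P ι)

/-- is the tile a reflected copy? -/
def rf (t : ι) : Bool := (T.g t).rf

/-- position of the corner `c = (t, i)` -/
noncomputable def vx (c : ι × ZMod n) : ℂ := (T.g c.1).app (P.vertex c.2)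

/-- direction (as a vector) of the entry side of `c`: the tile fills the sector from `uu c`
counterclockwise to `ww c` near the point `vx c` -/
noncomputable def uu (c : ι × ZMod n) : ℂ := T.vx (fwd T.rf c) - T.vx c

/-- direction (as a vector) of the exit side of `c` -/
noncomputable def ww (c : ι × ZMod n) : ℂ := T.vx (bwd T.rf c) - T.vx c

/-- the tile as a closed set -/
def R (t : ι) : Set ℂ := (T.g t).app '' P.region

/-- the interior of the tile -/
def I (t : ι) : Set ℂ := (T.g t).app '' P.inner

/-- the boundary of the tile -/
def C (t : ι) : Set ℂ := (T.g t).app '' P.bdry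

/-- The sides `(t, e)` and `(s, f)` of two different tiles are the same segment, with the two tiles on
different sides of it. Side `e` of tile `t` runs from corner `e` to corner `e + 1`. -/
def Glued (x y : ι × ZMod n) : Prop :=
  x.1 ≠ y.1 ∧
    if T.rf x.1 = T.rf y.1 then
      T.vx (y.1, y.2) = T.vx (x.1, x.2 + 1) ∧ T.vx (y.1, y.2 + 1) = T.vx (x.1, x.2)
    else T.vx (y.1, y.2) = T.vx (x.1, x.2) ∧ T.vx (y.1, y.2 + 1) = T.vx (x.1, x.2 + 1)

end Til

/-! ### Angles under which a segment is seen, chains, the lattice criterion -/

/-- the angle under which the directed segment from `p` to `q` is seen from `z` -/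
noncomputable def th (p q z : ℂ) : ℝ := arg ((q - z) / (p - z))

/-- the open triangle `0, u, v` -/
def Tri (u v : ℂ) : Set ℂ :=
  {z | ∃ x y : ℝ, 0 < x ∧ 0 < y ∧ x + y < 1 ∧ z = (x : ℂ) * u + (y : ℂ) * v}

/-! ### The combinatorial data of an edge-to-edge tiling -/

/-- `a i` are the angles, `l i` the side lengths (side `i` between the corners `i` and `i + 1`); a
corner of the tiling is a pair `(t, i)` with `t : ι` a tile. `nx` maps a corner to the next corner
(counterclockwise) at the same point. -/
structure Comb (n : ℕ) [NeZero n] (a l : ZMod n → ℝ) (ι : Type) where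
  three_le : 3 ≤ n
  a_pos : ∀ i, 0 < a i
  a_lt : ∀ i, a i < 2 * Real.pi
  a_ne : ∀ i, a i ≠ Real.pi
  a_sum : ∑ i, a i = ((n : ℝ) - 2) * Real.pi
  rf : ι → Bool
  nx : Equiv.Perm (ι × ZMod n)
  /-- every corner returns: the number of corners at its point is `minimalPeriod nx c` -/
  deg_pos : ∀ c, 0 < Function.minimalPeriod nx c
  /-- the angles around a point sum to `2 π` -/
  sum : ∀ c, ∑ k ∈ Finset.range (Function.minimalPeriod nx c), a ((nx^[k] c).2) = 2 * Real.pi
  /-- the exit side of a corner has the same length as the entry side of the next corner -/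
  len : ∀ c, l (enS rf (nx c)) = l (exS rf c)
  /-- the other end of the common side -/
  flip : ∀ c, nx (fwd rf (nx c)) = bwd rf c
  /-- averages of degrees -/
  count : ∀ D : ZMod n → ℕ, (∀ i, 0 < D i) →
    (∀ c, D c.2 ≤ Function.minimalPeriod nx c) →
      ((n : ℝ) - 2) / 2 ≤ ∑ i, (1 : ℝ) / (D i : ℝ)

end Pool.Agent.Lib_MP_fa6e45
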