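import Pool.Agent.Lib_MP_fa6e45.X1a

/-!
MP_fa6e45_co, constant status: four arcs of the kind `c, rc, c, rc`. The chords form a rhombus, hence the polygon
has a point symmetry and opposite angles (at the marked corners) are equal.
-/

open Set MeasureTheory Complex
open scoped Topology

namespace Pool.Agent.Lib_MP_fa6e45

open Pool.Agent.Lib_PL (cr InSector Poly)

variable {n : ℕ} {P : Polygon n}

/-- four complex numbers of the same norm with sum `0` -/
theorem ca4_four {a b c d : ℂ} (h1 : ‖a‖ = ‖b‖) (h2 : ‖b‖ = ‖c‖) (h3 : ‖c‖ = ‖d‖)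
    (hs : a + b + c + d = 0) : a + b = 0 ∨ b + c = 0 ∨ a + c = 0 := by
  have key : ∀ z : ℂ, ‖z‖ = ‖a‖ → z * (starRingEnd ℂ) z = ((‖a‖ ^ 2 : ℝ) : ℂ) := by
    intro z hz
    rw [Complex.mul_conj, Complex.normSq_eq_norm_sq, hz]
  have ha := key a rfl
  have hb := key b h1.symm
  have hc := key c (by rw [h1, h2])
  have hd := key d (by rw [h1, h2, h3])
  have hd' : d = -(a + b + c) := by linear_combination hs
  rw [hd', map_neg, map_add, map_add] at hd
  by_cases h0 : a = 0
  · left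
    have h4 : ‖b‖ = 0 := by rw [← h1, h0, norm_zero]
    rw [h0, norm_eq_zero.1 h4, add_zero]
  · have hR : ((‖a‖ ^ 2 : ℝ) : ℂ) ≠ 0 := by
      have : ‖a‖ ^ 2 ≠ 0 := pow_ne_zero 2 (norm_ne_zero_iff.2 h0)
      exact_mod_cast this
    have h5 : ((‖a‖ ^ 2 : ℝ) : ℂ) * ((a + b) * ((b + c) * (a + c))) = 0 := by
      linear_combination (a * b * c) * hd - (a + b + c) * (b * c * ha + a * c * hb + a * b * hc)
    rcases mul_eq_zero.1 h5 with h | h
    · exact absurd h hR
    · rcases mul_eq_zero.1 h with h | h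
      · exact Or.inl h
      · rcases mul_eq_zero.1 h with h | h
        · exact Or.inr (Or.inl h)
        · exact Or.inr (Or.inr h)

/-- arcs `j` and `j + 2` are exchanged by a point reflection -/
theorem ca4_half (S : Arcs P 4) (j : ZMod 4) (h1 : S.Plus j (j + 1)) (h2 : S.Plus (j + 1) (j + 2))
    (hr : S.ch j + S.ch (j + 2) = 0) (t : ℕ) (ht : t ≤ S.w j) :
    P.vertex (S.κ j + (t : ZMod n)) =
      -P.vertex (S.κ (j + 2) + (t : ZMod n)) + (S.V j + S.V (j + 2)) := by
  have n0 := S.ch_ne (by norm_num) j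
  have n1 := S.ch_ne (by norm_num) (j + 1)
  have n2 := S.ch_ne (by norm_num) (j + 2)
  have e1 : j + 1 + 1 = j + 2 := by ring
  have e2 : j + 2 + 1 = j + 3 := by ring
  have m1 := S.norm_plus h1
  have m2 := S.norm_plus h2
  have c0 : S.ch j = S.V (j + 1) - S.V j := rfl
  have c1 : S.ch (j + 1) = S.V (j + 2) - S.V (j + 1) := by
    unfold Arcs.ch
    rw [e1]
  have c2 : S.ch (j + 2) = S.V (j + 3) - S.V (j + 2) := by
    unfold Arcs.ch
    rw [e2]
  have g1 := S.lift_plus (by norm_num) h1 (a := -S.ch j / S.ch (j + 1))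
    (b := S.V (j + 1) - -S.ch j / S.ch (j + 1) * S.V (j + 1))
    (by rw [norm_div, norm_neg, m1, div_self (norm_ne_zero_iff.2 n1)])
    (by
      rw [e1]
      have h3 : -S.ch j / S.ch (j + 1) * (S.V (j + 2) - S.V (j + 1)) = -S.ch j := by
        rw [← c1]
        field_simp
      rw [c0] at h3 ⊢
      linear_combination h3)
    (by ring) t (S.w j - t) (by omega)
  have g2 := S.lift_plus (by norm_num) h2 (a := -S.ch (j + 1) / S.ch (j + 2))
    (b := S.V (j + 2) - -S.ch (j + 1) / S.ch (j + 2) * S.V (j + 2))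
    (by rw [norm_div, norm_neg, m2, div_self (norm_ne_zero_iff.2 n2)])
    (by
      rw [e2]
      have h3 : -S.ch (j + 1) / S.ch (j + 2) * (S.V (j + 3) - S.V (j + 2)) = -S.ch (j + 1) := by
        rw [← c2]
        field_simp
      rw [c1] at h3 ⊢
      linear_combination h3)
    (by rw [e1]; ring) (S.w j - t) t (by have := h1.1; omega)
  rw [← g1, ← g2]
  have h4 : -S.ch j / S.ch (j + 1) * (-S.ch (j + 1) / S.ch (j + 2)) = -1 := by
    have h5 : S.ch j = -S.ch (j + 2) := by linear_combination hr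
    rw [h5]
    field_simp
  have h6 : -S.ch j / S.ch (j + 1) * (S.V (j + 2) - S.V (j + 1)) = -S.ch j := by
    rw [← c1]
    field_simp
  rw [c0] at h6 h4 ⊢
  linear_combination (P.vertex (S.κ (j + 2) + (t : ZMod n)) - S.V (j + 2)) * h4 + h6

/-- opposite angles are equal for four arcs of the kind `c, rc, c, rc` -/
theorem alt4_ang (S : Arcs P 4) (h0 : S.Plus 0 1) (h1 : S.Plus 1 2) (h2 : S.Plus 2 3) :
    P.ang (S.κ 0) = P.ang (S.κ 2) ∧ P.ang (S.κ 1) = P.ang (S.κ 3) := by
  have tot : S.w 0 + S.w 1 + S.w 2 + S.w 3 = n := by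
    have h5 := S.total
    have h6 : ∑ j : ZMod 4, S.w j = S.w 0 + S.w 1 + S.w 2 + S.w 3 :=
      Fin.sum_univ_four (fun j : ZMod 4 => S.w j)
    omega
  have p0 := S.w_pos 0
  have p1 := S.w_pos 1
  have p2 := S.w_pos 2
  have p3 := S.w_pos 3
  have w1 := h0.1
  have w2 := h1.1
  have w3 := h2.1
  have k1 : S.κ 1 = S.κ 0 + (S.w 0 : ZMod n) := S.step 0
  have k2 : S.κ 2 = S.κ 1 + (S.w 1 : ZMod n) := S.step 1
  have k3 : S.κ 3 = S.κ 2 + (S.w 2 : ZMod n) := S.step 2
  have k0 : S.κ 0 = S.κ 3 + (S.w 3 : ZMod n) := S.step 3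
  have hV : ∀ (i k : ZMod 4) (v : ℕ), S.κ k = S.κ i + (v : ZMod n) → 0 < v → v < n →
      S.V k - S.V i ≠ 0 := by
    intro i k v hk hv hv2 h
    rw [sub_eq_zero] at h
    have h5 := P.injective h
    rw [hk] at h5
    have h6 : ((v : ℕ) : ZMod n) = 0 := by
      have h7 : S.κ i + ((v : ℕ) : ZMod n) = S.κ i + 0 := by rw [h5, add_zero]
      exact add_left_cancel h7
    rw [ZMod.natCast_eq_zero_iff] at h6
    exact absurd (Nat.le_of_dvd hv h6) (by omega)
  have hs : S.ch 0 + S.ch 1 + S.ch 2 + S.ch 3 = 0 := by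
    change S.V 1 - S.V 0 + (S.V 2 - S.V 1) + (S.V 3 - S.V 2) + (S.V 0 - S.V 3) = 0
    ring
  have hr : S.ch 0 + S.ch 2 = 0 := by
    rcases ca4_four (S.norm_plus h0) (S.norm_plus h1) (S.norm_plus h2) hs with h | h | h
    · exfalso
      refine hV 0 2 (S.w 0 + S.w 1) ?_ (by omega) (by omega) ?_
      · rw [k2, k1]
        push_cast
        ring
      · rw [← h]
        change S.V 2 - S.V 0 = S.V 1 - S.V 0 + (S.V 2 - S.V 1)
        ring
    · exfalso
      refine hV 1 3 (S.w 1 + S.w 2) ?_ (by omega) (by omega) ?_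
      · rw [k3, k2]
        push_cast
        ring
      · rw [← h]
        change S.V 3 - S.V 1 = S.V 2 - S.V 1 + (S.V 3 - S.V 2)
        ring
    · exact h
  have hr1 : S.ch 1 + S.ch 3 = 0 := by linear_combination hs - hr
  have hC : S.V 1 + S.V 3 = S.V 0 + S.V 2 := by
    have h5 : S.V 1 - S.V 0 + (S.V 3 - S.V 2) = 0 := hr
    linear_combination h5
  -- the point reflection
  have A0 : ∀ t : ℕ, t ≤ S.w 0 → P.vertex (S.κ 0 + (t : ZMod n)) =
      -P.vertex (S.κ 2 + (t : ZMod n)) + (S.V 0 + S.V 2) := ca4_half S 0 h0 h1 hr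
  have A1 : ∀ t : ℕ, t ≤ S.w 1 → P.vertex (S.κ 1 + (t : ZMod n)) =
      -P.vertex (S.κ 3 + (t : ZMod n)) + (S.V 1 + S.V 3) := ca4_half S 1 h1 h2 hr1
  have ang_eq : ∀ (i k : ZMod n) (C : ℂ), P.vertex (i - 1) = -P.vertex (k - 1) + C →
      P.vertex i = -P.vertex k + C → P.vertex (i + 1) = -P.vertex (k + 1) + C →
      P.ang i = P.ang k := by
    intro i k C e1 e2 e3
    unfold Polygon.ang
    have e4 : (P.vertex (i - 1) - P.vertex i) / (P.vertex (i + 1) - P.vertex i) =
        (P.vertex (k - 1) - P.vertex k) / (P.vertex (k + 1) - P.vertex k) := by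
      have e5 : P.vertex (i - 1) - P.vertex i = -(P.vertex (k - 1) - P.vertex k) := by
        rw [e1, e2]
        ring
      have e6 : P.vertex (i + 1) - P.vertex i = -(P.vertex (k + 1) - P.vertex k) := by
        rw [e3, e2]
        ring
      rw [e5, e6, neg_div_neg_eq]
    rw [e4]
  have pre : ∀ (i : ZMod n) (v : ℕ), 0 < v → i + (v : ZMod n) - 1 = i + ((v - 1 : ℕ) : ZMod n) := by
    intro i v hv
    have : v = (v - 1) + 1 := by omega
    rw [this]
    push_cast
    ring_nf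
  constructor
  · refine ang_eq _ _ (S.V 0 + S.V 2) ?_ ?_ ?_
    · rw [k0, pre _ _ p3, k2, pre _ _ p1]
      have h5 := A1 (S.w 3 - 1) (by omega)
      have h6 : S.w 1 - 1 = S.w 3 - 1 := by omega
      rw [h6]
      rw [hC] at h5
      linear_combination h5
    · have h5 := A0 0 (by omega)
      simpa using h5
    · have h5 := A0 1 (by omega)
      simpa using h5
  · refine ang_eq _ _ (S.V 0 + S.V 2) ?_ ?_ ?_
    · rw [k1, pre _ _ p0, k3, pre _ _ p2]
      have h5 := A0 (S.w 0 - 1) (by omega)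
      have h6 : S.w 2 - 1 = S.w 0 - 1 := by omega
      rw [h6]
      exact h5
    · have h5 := A1 0 (by omega)
      rw [hC] at h5
      simpa using h5
    · have h5 := A1 1 (by omega)
      rw [hC] at h5
      simpa using h5

end Pool.Agent.Lib_MP_fa6e45
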