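import Pool.Agent.Lib_MP_fa6e45.X2a

/-!
MP_fa6e45_co, constant status: closing relations of five and six equal chords on two flats of angle vectors.
-/

open Set MeasureTheory Complex
open scoped Topology

namespace Pool.Agent.Lib_MP_fa6e45

open Pool.Agent.Lib_PL (cr InSector Poly)

variable {n : ℕ} {P : Polygon n}

private noncomputable def c5E (x : ℝ) : ℂ := exp (((Real.pi * x : ℝ) : ℂ) * Complex.I)

private theorem c5E_add (x y : ℝ) : c5E (x + y) = c5E x * c5E y := by
  unfold c5E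
  rw [← Complex.exp_add]
  congr 1
  push_cast
  ring

private theorem c5E_one : c5E 1 = -1 := by
  unfold c5E
  rw [mul_one]
  exact Complex.exp_pi_mul_I

private theorem c5E_two : c5E 2 = 1 := by
  have h : (2 : ℝ) = 1 + 1 := by norm_num
  rw [h, c5E_add, c5E_one]
  ring

private theorem c5E_eq (x : ℝ) : c5E x = (Real.cos (Real.pi * x) : ℂ) + (Real.sin (Real.pi * x) : ℂ) * Complex.I := by
  unfold c5E
  rw [Complex.exp_mul_I, Complex.ofReal_cos, Complex.ofReal_sin]

private theorem c5E_re (x : ℝ) : (c5E x).re = Real.cos (Real.pi * x) := by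
  rw [c5E_eq]
  simp only [add_re, mul_re, ofReal_re, ofReal_im, I_re, I_im]
  ring

private theorem c5E_im (x : ℝ) : (c5E x).im = Real.sin (Real.pi * x) := by
  rw [c5E_eq]
  simp only [add_im, mul_im, ofReal_re, ofReal_im, I_re, I_im]
  ring

private theorem c5E_conj (x : ℝ) : c5E x * (starRingEnd ℂ) (c5E x) = 1 := by
  rw [Complex.mul_conj, Complex.normSq_eq_norm_sq]
  unfold c5E
  rw [Complex.norm_exp_ofReal_mul_I]
  simp

/-- chord `j - 1` from chord `j` -/
private theorem c5_back {m : ℕ} [NeZero m] (hm : 2 ≤ m) {S : Arcs P m} {b : ZMod m → ℝ}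
    (hb : S.ChordAng b) (hn : ∀ j k, ‖S.ch j‖ = ‖S.ch k‖) (i j : ZMod m) (hij : j = i + 1) :
    S.ch i = -(c5E (b j) * S.ch j) := by
  have h := hb.rot hm j (hn _ _)
  have e : j - 1 = i := by rw [hij]; ring
  rw [e] at h
  have h1 : S.V i - S.V j = -S.ch i := by
    unfold Arcs.ch
    rw [hij]
    ring
  have h2 : S.V (j + 1) - S.V j = S.ch j := rfl
  rw [h1, h2] at h
  have h3 : exp (((Real.pi * b j : ℝ) : ℂ) * Complex.I) = c5E (b j) := rfl
  rw [h3] at h
  linear_combination -h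

/-- the real part of `clos5` -/
private theorem c5_real {c s C S : ℝ} (h1 : c ^ 2 + s ^ 2 = 1) (h2 : C ^ 2 + S ^ 2 = 1) (hs : 0 < s)
    (hS : 0 < S) (e1 : (c ^ 2 - s ^ 2) - c - 1 + (C ^ 2 - S ^ 2) - C = 0)
    (e2 : 2 * c * s - s - (2 * C * S - S) = 0) : c = C := by
  have R : 2 * c ^ 2 - c + 2 * C ^ 2 - C - 3 = 0 := by linear_combination e1 + h1 + h2
  have e3 : s * (1 - 2 * c) = S * (1 - 2 * C) := by linear_combination -e2
  have e4 : (1 - c ^ 2) * (1 - 2 * c) ^ 2 = (1 - C ^ 2) * (1 - 2 * C) ^ 2 := by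
    have h3 : (s * (1 - 2 * c)) ^ 2 = (S * (1 - 2 * C)) ^ 2 := by rw [e3]
    linear_combination h3 + (1 - 2 * c) ^ 2 * (-1 : ℝ) * h1 + (1 - 2 * C) ^ 2 * h2
  have e5 : (c - C) * (1 + 2 * (c + C)) = 0 := by
    linear_combination -e4 - (c - C) * (2 * (c + C) - 1) * R
  rcases mul_eq_zero.1 e5 with h | h
  · linarith
  · exfalso
    have hC : C = -1 / 2 - c := by linarith
    rw [hC] at R
    have e6 : (2 * c - 1) * (c + 1) = 0 := by linear_combination (1 / 2 : ℝ) * R
    rcases mul_eq_zero.1 e6 with h6 | h6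
    · have : S ^ 2 = 0 := by
        have hc : c = 1 / 2 := by linarith
        rw [hC, hc] at h2
        linarith
      have : 0 < S ^ 2 := by positivity
      linarith
    · have : s ^ 2 = 0 := by
        have hc : c = -1 := by linarith
        rw [hc] at h1
        linarith
      have : 0 < s ^ 2 := by positivity
      linarith

/-- five equal chords with `2 b 0 + b 4 = 2`, `2 b 2 + b 3 = 2`: then `b 0 = b 2` -/
theorem clos5 (S : Arcs P 5) (b : ZMod 5 → ℝ) (hb : S.ChordAng b) (hn : ∀ j k, ‖S.ch j‖ = ‖S.ch k‖)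
    (hp : ∀ j, 0 < b j) (e1 : 2 * b 0 + b 4 = 2) (e2 : 2 * b 2 + b 3 = 2)
    (e3 : b 0 + b 1 + b 2 + b 3 + b 4 = 3) : b 0 = b 2 := by
  have t4 : S.ch 4 = -(c5E (b 0) * S.ch 0) := c5_back (by norm_num) hb hn 4 0 (by decide)
  have t0 : S.ch 0 = -(c5E (b 1) * S.ch 1) := c5_back (by norm_num) hb hn 0 1 (by decide)
  have t1 : S.ch 1 = -(c5E (b 2) * S.ch 2) := c5_back (by norm_num) hb hn 1 2 (by decide)
  have t2 : S.ch 2 = -(c5E (b 3) * S.ch 3) := c5_back (by norm_num) hb hn 2 3 (by decide)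
  have t3 : S.ch 3 = -(c5E (b 4) * S.ch 4) := c5_back (by norm_num) hb hn 3 4 (by decide)
  have hne := S.ch_ne (by norm_num) 2
  have hsum : S.ch 0 + S.ch 1 + S.ch 2 + S.ch 3 + S.ch 4 = 0 := by
    change S.V 1 - S.V 0 + (S.V 2 - S.V 1) + (S.V 3 - S.V 2) + (S.V 4 - S.V 3) +
      (S.V 0 - S.V 4) = 0
    ring
  have p0 := hp 0
  have p2 := hp 2
  have p3 := hp 3
  have p4 := hp 4
  have f4 : c5E (b 4) * c5E (b 0) ^ 2 = 1 := by
    have h : (2 : ℝ) = b 4 + (b 0 + b 0) := by linarith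
    have h2 := c5E_two
    rw [h, c5E_add, c5E_add] at h2
    linear_combination h2
  have f1 : c5E (b 1) = -(c5E (b 0) * c5E (b 2)) := by
    have h : b 1 + 1 = b 0 + b 2 := by linarith
    have h2 : c5E (b 1 + 1) = c5E (b 0 + b 2) := by rw [h]
    rw [c5E_add, c5E_add, c5E_one] at h2
    linear_combination -h2
  set X := c5E (b 0) with hX
  set Y := c5E (b 2) with hY
  have k1 : S.ch 1 = -(Y * S.ch 2) := t1
  have k0 : S.ch 0 = -(X * Y ^ 2 * S.ch 2) := by
    rw [t0, f1, k1]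
    ring
  have k4 : S.ch 4 = X ^ 2 * Y ^ 2 * S.ch 2 := by
    rw [t4, k0]
    ring
  have k3 : S.ch 3 = -(Y ^ 2 * S.ch 2) := by
    rw [t3, k4]
    linear_combination -(Y ^ 2 * S.ch 2) * f4
  rw [k0, k1, k3, k4] at hsum
  have h1 : S.ch 2 * (X ^ 2 * Y ^ 2 - X * Y ^ 2 - Y + 1 - Y ^ 2) = 0 := by
    linear_combination hsum
  have h2 := (mul_eq_zero.1 h1).resolve_left hne
  have cX := c5E_conj (b 0)
  have cY := c5E_conj (b 2)
  rw [← hX] at cX
  rw [← hY] at cY
  have h3 : X ^ 2 - X - 1 + ((starRingEnd ℂ) Y) ^ 2 - (starRingEnd ℂ) Y = 0 := by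
    set Z := (starRingEnd ℂ) Y with hZ
    linear_combination Z ^ 2 * h2 - (X ^ 2 - X - 1) * (Y * Z + 1) * cY + Z * cY
  have a1 : Real.cos (Real.pi * b 0) ^ 2 + Real.sin (Real.pi * b 0) ^ 2 = 1 := by
    linarith [Real.sin_sq_add_cos_sq (Real.pi * b 0)]
  have a2 : Real.cos (Real.pi * b 2) ^ 2 + Real.sin (Real.pi * b 2) ^ 2 = 1 := by
    linarith [Real.sin_sq_add_cos_sq (Real.pi * b 2)]
  have hpi := Real.pi_pos
  have s1 : 0 < Real.sin (Real.pi * b 0) :=
    Real.sin_pos_of_pos_of_lt_pi (by positivity) (by nlinarith)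
  have s2 : 0 < Real.sin (Real.pi * b 2) :=
    Real.sin_pos_of_pos_of_lt_pi (by positivity) (by nlinarith)
  have x1 : X.re = Real.cos (Real.pi * b 0) := c5E_re _
  have x2 : X.im = Real.sin (Real.pi * b 0) := c5E_im _
  have y1 : Y.re = Real.cos (Real.pi * b 2) := c5E_re _
  have y2 : Y.im = Real.sin (Real.pi * b 2) := c5E_im _
  have r1 := congrArg Complex.re h3
  have r2 := congrArg Complex.im h3
  simp only [pow_two, add_re, sub_re, mul_re, conj_re, conj_im, one_re, zero_re, x1, x2, y1, y2] at r1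
  simp only [pow_two, add_im, sub_im, mul_im, conj_re, conj_im, one_im, zero_im, x1, x2, y1, y2] at r2
  have hc := c5_real a1 a2 s1 s2 (by linear_combination r1) (by linear_combination r2)
  have h4 := Real.injOn_cos (x₁ := Real.pi * b 0) (x₂ := Real.pi * b 2)
    ⟨by positivity, by nlinarith⟩ ⟨by positivity, by nlinarith⟩ hc
  exact mul_left_cancel₀ hpi.ne' h4

/-- six equal chords on the flat `b 0 = 2 b 4 - 2/3`, `b 1 = 4/3 - b 4`, `b 2 = 2 - 2 b 4`,
`b 3 = b 5 = 2/3`: then `b 4 = 2/3` -/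
theorem clos6 (S : Arcs P 6) (b : ZMod 6 → ℝ) (hb : S.ChordAng b) (hn : ∀ j k, ‖S.ch j‖ = ‖S.ch k‖)
    (hp : ∀ j, 0 < b j) (e1 : b 1 + b 4 = 4 / 3) (e2 : b 2 + 2 * b 4 = 2)
    (e3 : b 3 = 2 / 3) (e5 : b 5 = 2 / 3) (e0 : b 0 - 2 * b 4 = -(2 / 3)) : b 4 = 2 / 3 := by
  have t0 : S.ch 0 = -(c5E (b 1) * S.ch 1) := c5_back (by norm_num) hb hn 0 1 (by decide)
  have t1 : S.ch 1 = -(c5E (b 2) * S.ch 2) := c5_back (by norm_num) hb hn 1 2 (by decide)
  have t2 : S.ch 2 = -(c5E (b 3) * S.ch 3) := c5_back (by norm_num) hb hn 2 3 (by decide)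
  have t3 : S.ch 3 = -(c5E (b 4) * S.ch 4) := c5_back (by norm_num) hb hn 3 4 (by decide)
  have t4 : S.ch 4 = -(c5E (b 5) * S.ch 5) := c5_back (by norm_num) hb hn 4 5 (by decide)
  have hne := S.ch_ne (by norm_num) 5
  have hsum : S.ch 0 + S.ch 1 + S.ch 2 + S.ch 3 + S.ch 4 + S.ch 5 = 0 := by
    change S.V 1 - S.V 0 + (S.V 2 - S.V 1) + (S.V 3 - S.V 2) + (S.V 4 - S.V 3) +
      (S.V 5 - S.V 4) + (S.V 0 - S.V 5) = 0
    ring
  have p0 := hp 0
  have p1 := hp 1
  have p2 := hp 2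
  have p4 := hp 4
  have hpi := Real.pi_pos
  rw [e3] at t2
  rw [e5] at t4
  set w := c5E (2 / 3) with hw
  set z := c5E (b 4) with hz
  -- `w ^ 2 + w + 1 = 0`
  have wr : w.re = -(1 / 2) := by
    rw [hw, c5E_re]
    have h : Real.pi * (2 / 3) = Real.pi - Real.pi / 3 := by ring
    rw [h, Real.cos_pi_sub, Real.cos_pi_div_three]
  have cw : w * (starRingEnd ℂ) w = 1 := c5E_conj _
  have wc : (starRingEnd ℂ) w = -1 - w := by
    have h := Complex.add_conj w
    rw [wr] at h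
    push_cast at h
    linear_combination h
  have w2 : w ^ 2 + w + 1 = 0 := by
    rw [wc] at cw
    linear_combination -cw
  have f2 : c5E (b 2) * z ^ 2 = 1 := by
    have h : (2 : ℝ) = b 2 + (b 4 + b 4) := by linarith
    have h2 := c5E_two
    rw [h, c5E_add, c5E_add] at h2
    linear_combination h2
  have f1 : c5E (b 1) * z = w ^ 2 := by
    have h : b 1 + b 4 = 2 / 3 + 2 / 3 := by linarith
    have h2 : c5E (b 1 + b 4) = c5E (2 / 3 + 2 / 3) := by rw [h]
    rw [c5E_add, c5E_add] at h2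
    linear_combination h2
  have k3 : S.ch 3 = z * w * S.ch 5 := by
    rw [t3, t4]
    ring
  have k2 : S.ch 2 = -(z * w ^ 2 * S.ch 5) := by
    rw [t2, k3]
    ring
  have k1 : S.ch 1 * z = w ^ 2 * S.ch 5 := by
    rw [t1, k2]
    linear_combination (w ^ 2 * S.ch 5) * f2
  have k0 : S.ch 0 * z ^ 2 = -(w ^ 4 * S.ch 5) := by
    rw [t0]
    linear_combination -(S.ch 1 * z) * f1 - w ^ 2 * k1
  have h1 : S.ch 5 * ((z - w) * (w * (1 - w) * (z ^ 2 - z) + 1)) = 0 := by
    have h5 : (S.ch 0 + S.ch 1 + S.ch 2 + S.ch 3 + S.ch 4 + S.ch 5) * z ^ 2 = 0 := by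
      rw [hsum, zero_mul]
    rw [k2, k3, t4] at h5
    linear_combination h5 - k0 - z * k1 + S.ch 5 * (w - 1) * (z ^ 2 - z + w) * w2
  have h2 := (mul_eq_zero.1 h1).resolve_left hne
  have zr : z.re = Real.cos (Real.pi * b 4) := c5E_re _
  have cz : z * (starRingEnd ℂ) z = 1 := c5E_conj _
  have hcos : Real.cos (Real.pi * b 4) < 1 / 2 := by
    rw [← Real.cos_pi_div_three]
    exact Real.cos_lt_cos_of_nonneg_of_le_pi (by positivity) (by nlinarith) (by nlinarith)
  rcases mul_eq_zero.1 h2 with h | h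
  · have hzw : z = w := by linear_combination h
    have hc : Real.cos (Real.pi * b 4) = Real.cos (Real.pi * (2 / 3)) := by
      rw [← zr, hzw, hw, c5E_re]
    have h4 := Real.injOn_cos (x₁ := Real.pi * b 4) (x₂ := Real.pi * (2 / 3))
      ⟨by positivity, by nlinarith⟩ ⟨by positivity, by nlinarith⟩ hc
    exact mul_left_cancel₀ hpi.ne' h4
  · exfalso
    set z' := (starRingEnd ℂ) z with hz'
    have h5 : w * (1 - w) * (z ^ 2 - z) = -1 := by linear_combination h
    have h6 := congrArg (starRingEnd ℂ) h5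
    simp only [map_mul, map_sub, map_pow, map_one, map_neg, wc, ← hz'] at h6
    have h7 : z + z' = ((2 * Real.cos (Real.pi * b 4) : ℝ) : ℂ) := by
      rw [hz', Complex.add_conj, zr]
    have h8 : (3 : ℂ) * (2 - (z + z')) = 1 := by
      have h9 : (w * (1 - w) * (z ^ 2 - z)) * ((-1 - w) * (1 - (-1 - w)) * (z' ^ 2 - z')) = 1 := by
        rw [h5, h6]
        ring
      have h10 : (w * (1 - w)) * ((-1 - w) * (1 - (-1 - w))) = 3 := by
        linear_combination (w ^ 2 + w - 3) * w2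
      have h11 : (z ^ 2 - z) * (z' ^ 2 - z') = 2 - (z + z') := by
        linear_combination (z * z' + 1 - z - z') * cz + cz
      linear_combination h9 - (z ^ 2 - z) * (z' ^ 2 - z') * h10 - 3 * h11
    rw [h7] at h8
    have h12 : (3 : ℝ) * (2 - 2 * Real.cos (Real.pi * b 4)) = 1 := by exact_mod_cast h8
    linarith

/-- six equal chords on the flat of `clos6`, without positivity: all chord angles are `2 / 3` modulo `2` -/
theorem clos6_reg (S : Arcs P 6) (b : ZMod 6 → ℝ) (hb : S.ChordAng b)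
    (hn : ∀ j k, ‖S.ch j‖ = ‖S.ch k‖) (e1 : b 1 + b 4 = 4 / 3) (e2 : b 2 + 2 * b 4 = 2)
    (e3 : b 3 = 2 / 3) (e5 : b 5 = 2 / 3) (e0 : b 0 - 2 * b 4 = -(2 / 3)) :
    S.ChordAng fun _ => 2 / 3 := by
  have t0 : S.ch 0 = -(c5E (b 1) * S.ch 1) := c5_back (by norm_num) hb hn 0 1 (by decide)
  have t1 : S.ch 1 = -(c5E (b 2) * S.ch 2) := c5_back (by norm_num) hb hn 1 2 (by decide)
  have t2 : S.ch 2 = -(c5E (b 3) * S.ch 3) := c5_back (by norm_num) hb hn 2 3 (by decide)
  have t3 : S.ch 3 = -(c5E (b 4) * S.ch 4) := c5_back (by norm_num) hb hn 3 4 (by decide)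
  have t4 : S.ch 4 = -(c5E (b 5) * S.ch 5) := c5_back (by norm_num) hb hn 4 5 (by decide)
  have hne := S.ch_ne (by norm_num) 5
  have hsum : S.ch 0 + S.ch 1 + S.ch 2 + S.ch 3 + S.ch 4 + S.ch 5 = 0 := by
    change S.V 1 - S.V 0 + (S.V 2 - S.V 1) + (S.V 3 - S.V 2) + (S.V 4 - S.V 3) +
      (S.V 5 - S.V 4) + (S.V 0 - S.V 5) = 0
    ring
  rw [e3] at t2
  rw [e5] at t4
  set w := c5E (2 / 3) with hw
  set z := c5E (b 4) with hz
  have wr : w.re = -(1 / 2) := by
    rw [hw, c5E_re]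
    have h : Real.pi * (2 / 3) = Real.pi - Real.pi / 3 := by ring
    rw [h, Real.cos_pi_sub, Real.cos_pi_div_three]
  have cw : w * (starRingEnd ℂ) w = 1 := c5E_conj _
  have wc : (starRingEnd ℂ) w = -1 - w := by
    have h := Complex.add_conj w
    rw [wr] at h
    push_cast at h
    linear_combination h
  have w2 : w ^ 2 + w + 1 = 0 := by
    rw [wc] at cw
    linear_combination -cw
  have f2 : c5E (b 2) * z ^ 2 = 1 := by
    have h : (2 : ℝ) = b 2 + (b 4 + b 4) := by linarith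
    have h2 := c5E_two
    rw [h, c5E_add, c5E_add] at h2
    linear_combination h2
  have f1 : c5E (b 1) * z = w ^ 2 := by
    have h : b 1 + b 4 = 2 / 3 + 2 / 3 := by linarith
    have h2 : c5E (b 1 + b 4) = c5E (2 / 3 + 2 / 3) := by rw [h]
    rw [c5E_add, c5E_add] at h2
    linear_combination h2
  have f0 : c5E (b 0) * w = z ^ 2 := by
    have h : b 0 + 2 / 3 = b 4 + b 4 := by linarith
    have h2 : c5E (b 0 + 2 / 3) = c5E (b 4 + b 4) := by rw [h]
    rw [c5E_add, c5E_add] at h2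
    linear_combination h2
  have k3 : S.ch 3 = z * w * S.ch 5 := by
    rw [t3, t4]
    ring
  have k2 : S.ch 2 = -(z * w ^ 2 * S.ch 5) := by
    rw [t2, k3]
    ring
  have k1 : S.ch 1 * z = w ^ 2 * S.ch 5 := by
    rw [t1, k2]
    linear_combination (w ^ 2 * S.ch 5) * f2
  have k0 : S.ch 0 * z ^ 2 = -(w ^ 4 * S.ch 5) := by
    rw [t0]
    linear_combination -(S.ch 1 * z) * f1 - w ^ 2 * k1
  have h1 : S.ch 5 * ((z - w) * (w * (1 - w) * (z ^ 2 - z) + 1)) = 0 := by
    have h5 : (S.ch 0 + S.ch 1 + S.ch 2 + S.ch 3 + S.ch 4 + S.ch 5) * z ^ 2 = 0 := by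
      rw [hsum, zero_mul]
    rw [k2, k3, t4] at h5
    linear_combination h5 - k0 - z * k1 + S.ch 5 * (w - 1) * (z ^ 2 - z + w) * w2
  have h2 := (mul_eq_zero.1 h1).resolve_left hne
  have zr : z.re = Real.cos (Real.pi * b 4) := c5E_re _
  have zi : z.im = Real.sin (Real.pi * b 4) := c5E_im _
  have cz : z * (starRingEnd ℂ) z = 1 := c5E_conj _
  have hzw : z = w := by
    rcases mul_eq_zero.1 h2 with h | h
    · linear_combination h
    · exfalso
      set z' := (starRingEnd ℂ) z with hz'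
      have h5 : w * (1 - w) * (z ^ 2 - z) = -1 := by linear_combination h
      have h6 := congrArg (starRingEnd ℂ) h5
      simp only [map_mul, map_sub, map_pow, map_one, map_neg, wc, ← hz'] at h6
      have h7 : z + z' = ((2 * Real.cos (Real.pi * b 4) : ℝ) : ℂ) := by
        rw [hz', Complex.add_conj, zr]
      have h8 : (3 : ℂ) * (2 - (z + z')) = 1 := by
        have h9 : (w * (1 - w) * (z ^ 2 - z)) * ((-1 - w) * (1 - (-1 - w)) * (z' ^ 2 - z')) = 1 := by
          rw [h5, h6]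
          ring
        have h10 : (w * (1 - w)) * ((-1 - w) * (1 - (-1 - w))) = 3 := by
          linear_combination (w ^ 2 + w - 3) * w2
        have h11 : (z ^ 2 - z) * (z' ^ 2 - z') = 2 - (z + z') := by
          linear_combination (z * z' + 1 - z - z') * cz + cz
        linear_combination h9 - (z ^ 2 - z) * (z' ^ 2 - z') * h10 - 3 * h11
      rw [h7] at h8
      have h12 : (3 : ℝ) * (2 - 2 * Real.cos (Real.pi * b 4)) = 1 := by exact_mod_cast h8
      have h13 : 3 * (z ^ 2 - z) = -(w ^ 2 - w) := by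
        linear_combination (w ^ 2 - w) * h5 + (z ^ 2 - z) * (w ^ 2 - 3 * w + 3) * w2
      have h14 : 3 * (z ^ 2 - z) = 2 * w + 1 := by linear_combination h13 - w2
      have h15 := congrArg Complex.re h14
      have h16 := Real.sin_sq_add_cos_sq (Real.pi * b 4)
      simp only [pow_two, mul_re, sub_re, add_re, one_re, sub_im, mul_im, zr, zi, wr,
        Complex.re_ofNat, Complex.im_ofNat, zero_mul, sub_zero] at h15
      nlinarith
  have w3 : w ^ 3 = 1 := by linear_combination (w - 1) * w2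
  have wne : w ≠ 0 := by
    intro h
    rw [h] at w3
    norm_num at w3
  have A : ∀ j, c5E (b j) = w := by
    intro j
    fin_cases j
    · change c5E (b 0) = w
      rw [hzw] at f0
      exact mul_right_cancel₀ wne (by linear_combination f0)
    · change c5E (b 1) = w
      rw [hzw] at f1
      exact mul_right_cancel₀ wne (by linear_combination f1)
    · change c5E (b 2) = w
      rw [hzw] at f2
      linear_combination w * f2 - c5E (b 2) * w3
    · change c5E (b 3) = w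
      rw [e3]
    · exact hzw
    · change c5E (b 5) = w
      rw [e5]
  intro j
  have h5 := hb j
  have h6 : c5E (1 - b j) = c5E (1 - 2 / 3) := by
    have h7 : c5E (1 - b j) * c5E (b j) = c5E (1 - 2 / 3) * c5E (2 / 3) := by
      rw [← c5E_add, ← c5E_add]
      congr 1
      ring
    rw [A j] at h7
    exact mul_right_cancel₀ wne h7
  unfold c5E at h6
  rw [h6] at h5
  exact h5

end Pool.Agent.Lib_MP_fa6e45
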