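import Pool.Agent.Lib_MP_fa6e45.L1o

/-!
PIECE L1b (about 150 lines): the multiplicity is one. `∫⁻` over a fundamental parallelogram of
`mult` is `∑_j ∑_λ volume (par ∩ (I j + λ)) = ∑_j volume (I j) = k area(P)` (unfolding, `IsAddFundamentalDomain`:
`ZSpan.isAddFundamentalDomain` for the basis `u, w`, or by hand), and `m |cr u w|`. Or: compare areas
in large boxes: the translated tiles with `λ` in the box `|a|, |b| ≤ N` have total area
`k (2N+1)^2 area(P)`, they lie in a neighbourhood of the parallelogram of the box and cover (with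
multiplicity `m`) a slightly smaller parallelogram; divide by `N ^ 2`.
-/

open Set MeasureTheory Complex
open scoped Topology

namespace Pool.Agent.Lib_MP_fa6e45

open Pool.Agent.Lib_PL (cr InSector Poly)

variable {n : ℕ} {P : Polygon n} {Y : Type} [Fintype Y] {k : ℕ} (D : LData P Y k)

/-- the linear map `x + i y ↦ x u + y w` -/
private noncomputable def lmap (u w : ℂ) : ℂ →ₗ[ℝ] ℂ where
  toFun z := (z.re : ℂ) * u + (z.im : ℂ) * w
  map_add' z z' := by
    simp only [add_re, add_im, ofReal_add]
    ring
  map_smul' r z := by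
    rw [smul_re, smul_im, smul_eq_mul, smul_eq_mul, ofReal_mul, ofReal_mul, RingHom.id_apply,
      real_smul]
    ring

private theorem lmap_apply (u w z : ℂ) : lmap u w z = (z.re : ℂ) * u + (z.im : ℂ) * w := rfl

private theorem lmap_det (u w : ℂ) : LinearMap.det (lmap u w) = cr u w := by
  rw [← LinearMap.det_toMatrix Complex.basisOneI, Matrix.det_fin_two]
  simp [LinearMap.toMatrix_apply, lmap_apply, cr]
  ring

private theorem cr_lmap (u w z : ℂ) : cr (lmap u w z) w = z.re * cr u w ∧
    cr u (lmap u w z) = z.im * cr u w := by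
  constructor
  · simp [lmap_apply, cr]
    ring
  · simp [lmap_apply, cr]
    ring

private theorem lmap_inj {u w : ℂ} (h : cr u w ≠ 0) : Function.Injective (lmap u w) := by
  intro z z' hz
  obtain ⟨h1, h2⟩ := cr_lmap u w z
  obtain ⟨h3, h4⟩ := cr_lmap u w z'
  rw [hz] at h1 h2
  apply Complex.ext
  · exact mul_right_cancel₀ h (h1.symm.trans h3)
  · exact mul_right_cancel₀ h (h2.symm.trans h4)

/-- the half open unit square -/
private def usq : Set ℂ := {z | (0 ≤ z.re ∧ z.re < 1) ∧ (0 ≤ z.im ∧ z.im < 1)}

private theorem usq_meas : MeasurableSet usq := by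
  have h1 : MeasurableSet {z : ℂ | 0 ≤ z.re ∧ z.re < 1} :=
    (measurableSet_Ico (a := (0 : ℝ)) (b := 1)).preimage Complex.measurable_re
  have h2 : MeasurableSet {z : ℂ | 0 ≤ z.im ∧ z.im < 1} :=
    (measurableSet_Ico (a := (0 : ℝ)) (b := 1)).preimage Complex.measurable_im
  exact h1.inter h2

private theorem usq_vol : volume usq = 1 := by
  have h : usq = Complex.measurableEquivRealProd ⁻¹' (Ico (0 : ℝ) 1 ×ˢ Ico (0 : ℝ) 1) := by
    ext z
    simp [usq, Complex.measurableEquivRealProd_apply]
  rw [h, Complex.volume_preserving_equiv_real_prod.measure_preimage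
    ((measurableSet_Ico.prod measurableSet_Ico).nullMeasurableSet), Measure.volume_eq_prod,
    Measure.prod_prod]
  simp

/-- the half open parallelogram -/
private def par (u w : ℂ) : Set ℂ := lmap u w '' usq

private theorem par_vol (u w : ℂ) : volume (par u w) = ENNReal.ofReal |cr u w| := by
  unfold par
  rw [Measure.addHaar_image_linearMap, lmap_det, usq_vol, mul_one]

private noncomputable def lequiv {u w : ℂ} (h : cr u w ≠ 0) : ℂ ≃ₗ[ℝ] ℂ :=
  LinearEquiv.ofInjectiveEndo (lmap u w) (lmap_inj h)

private theorem lequiv_apply {u w : ℂ} (h : cr u w ≠ 0) (z : ℂ) : lequiv h z = lmap u w z := rfl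

private theorem par_meas {u w : ℂ} (h : cr u w ≠ 0) : MeasurableSet (par u w) := by
  have h1 : par u w = (lequiv h).toContinuousLinearEquiv.toHomeomorph.toMeasurableEquiv '' usq := rfl
  rw [h1, MeasurableEquiv.measurableSet_image]
  exact usq_meas

private theorem lv_eq (u w : ℂ) (a : ℤ × ℤ) : lv u w a = lmap u w ⟨a.1, a.2⟩ := by
  simp [lv, lmap_apply]

private theorem par_cover {u w : ℂ} (h : cr u w ≠ 0) (z : ℂ) : ∃ a : ℤ × ℤ, z + lv u w a ∈ par u w := by
  obtain ⟨y, rfl⟩ : ∃ y, lmap u w y = z := (lequiv h).surjective z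
  refine ⟨(-⌊y.re⌋, -⌊y.im⌋), ⟨⟨Int.fract y.re, Int.fract y.im⟩, ⟨⟨Int.fract_nonneg _,
    Int.fract_lt_one _⟩, ⟨Int.fract_nonneg _, Int.fract_lt_one _⟩⟩, ?_⟩⟩
  rw [lv_eq, ← map_add]
  congr 1
  apply Complex.ext
  · simp [Int.fract, sub_eq_add_neg]
  · simp [Int.fract, sub_eq_add_neg]

private theorem par_unique {u w : ℂ} (h : cr u w ≠ 0) (z : ℂ) {a b : ℤ × ℤ} (ha : z + lv u w a ∈ par u w)
    (hb : z + lv u w b ∈ par u w) : a = b := by
  obtain ⟨y, rfl⟩ : ∃ y, lmap u w y = z := (lequiv h).surjective z
  obtain ⟨x, ⟨⟨h1, h2⟩, h3, h4⟩, hx⟩ := ha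
  obtain ⟨x', ⟨⟨h1', h2'⟩, h3', h4'⟩, hx'⟩ := hb
  rw [lv_eq, ← map_add] at hx hx'
  have e1 := lmap_inj h hx
  have e2 := lmap_inj h hx'
  subst e1
  subst e2
  simp only [add_re, add_im] at h1 h2 h3 h4 h1' h2' h3' h4'
  apply Prod.ext
  · have h5 : (a.1 : ℝ) - b.1 < 1 := by linarith
    have h6 : (b.1 : ℝ) - a.1 < 1 := by linarith
    have h7 : a.1 - b.1 < 1 := by exact_mod_cast h5
    have h8 : b.1 - a.1 < 1 := by exact_mod_cast h6
    omega
  · have h5 : (a.2 : ℝ) - b.2 < 1 := by linarith
    have h6 : (b.2 : ℝ) - a.2 < 1 := by linarith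
    have h7 : a.2 - b.2 < 1 := by exact_mod_cast h5
    have h8 : b.2 - a.2 < 1 := by exact_mod_cast h6
    omega

/-- unfolding -/
private theorem unfold_sum {u w : ℂ} (h : cr u w ≠ 0) {A : Set ℂ} (hA : MeasurableSet A) :
    ∑' a : ℤ × ℤ, volume (((fun z => z + lv u w a) '' A) ∩ par u w) = volume A := by
  have h1 : ∀ a : ℤ × ℤ, volume (((fun z => z + lv u w a) '' A) ∩ par u w) =
      volume (A ∩ (fun z => z + lv u w a) ⁻¹' par u w) := by
    intro a
    rw [← measure_preimage_add_right volume (lv u w a), Set.preimage_inter,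
      Set.preimage_image_eq _ (add_left_injective _)]
  simp_rw [h1]
  rw [← measure_iUnion]
  · congr 1
    ext z
    simp only [mem_iUnion, mem_inter_iff, mem_preimage, exists_and_left]
    constructor
    · exact fun hz => hz.1
    · exact fun hz => ⟨hz, par_cover h z⟩
  · intro a b hab
    rw [Function.onFun, Set.disjoint_left]
    rintro z ⟨_, hz1⟩ ⟨_, hz2⟩
    exact hab (par_unique h z hz1 hz2)
  · intro a
    exact hA.inter ((measurable_add_const _) (par_meas h))

private theorem vol_app (g : Mo) (A : Set ℂ) : volume (g.app '' A) = volume A := by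
  let L := g.iso.toRealLinearIsometryEquiv
  have hL : ∀ z, g.app z = L z + g.app 0 := by
    intro z
    rw [IsometryEquiv.toRealLinearIsometryEquiv_apply]
    simp
  have h1 : g.app '' A = (fun z => z + g.app 0) '' (L '' A) := by
    rw [Set.image_image]
    exact Set.image_congr fun z _ => hL z
  rw [h1, Set.image_add_right, measure_preimage_add_right]
  have h2 : L '' A = L.symm ⁻¹' A := by
    ext z
    constructor
    · rintro ⟨y, hy, rfl⟩
      simpa using hy
    · intro hz
      exact ⟨L.symm z, hz, by simp⟩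
  rw [h2]
  exact (L.symm.measurePreserving).measure_preimage_equiv (f := L.symm.toHomeomorph.toMeasurableEquiv) A

namespace LData

theorem mult_one (m : ℕ) (h : ∀ z, z ∉ D.Bd → D.mult z = m)
    (hA : (k : ℝ) * (volume P.region).toReal = |cr D.u D.w|) : m = 1 := by
  classical
  -- the volume of the interior
  have hin : volume P.inner = volume P.region := by
    refine le_antisymm (measure_mono ?_) ?_
    · rw [P.region_union]
      exact Set.subset_union_right
    · rw [P.region_union]
      refine (measure_union_le _ _).trans ?_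
      rw [P.volume_bdry, zero_add]
  have hfin : volume P.region ≠ ⊤ := P.region_bounded.measure_lt_top.ne
  have hpos : volume P.region ≠ 0 := by
    rw [← hin]
    exact (P.inner_open.measure_pos volume P.inner_nonempty).ne'
  -- the multiplicity as a sum
  have hsum : ∀ z, ∑' x : Fin k × (ℤ × ℤ), (D.I x).indicator (fun _ => (1 : ENNReal)) z = D.mult z := by
    intro z
    have hf := D.mult_finite z
    rw [tsum_eq_sum (s := hf.toFinset)]
    · rw [Finset.sum_congr rfl (g := fun _ => (1 : ENNReal))]
      · rw [Finset.sum_const, nsmul_eq_mul, mul_one]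
        unfold LData.mult
        rw [Set.ncard_eq_toFinset_card _ hf]
      · intro x hx
        rw [Set.Finite.mem_toFinset] at hx
        have hx' : z ∈ D.I x := hx
        rw [Set.indicator_of_mem hx']
    · intro x hx
      rw [Set.Finite.mem_toFinset] at hx
      have hx' : z ∉ D.I x := hx
      rw [Set.indicator_of_notMem hx']
  -- integrate over the parallelogram
  have h1 : ∫⁻ z in par D.u D.w, ∑' x : Fin k × (ℤ × ℤ),
      (D.I x).indicator (fun _ => (1 : ENNReal)) z = m * volume (par D.u D.w) := by
    have hae : ∀ᵐ z ∂(volume.restrict (par D.u D.w)), ∑' x : Fin k × (ℤ × ℤ),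
        (D.I x).indicator (fun _ => (1 : ENNReal)) z = m := by
      have h2 : ∀ᵐ z ∂(volume.restrict (par D.u D.w)), z ∉ D.Bd := by
        apply ae_restrict_of_ae
        exact measure_eq_zero_iff_ae_notMem.1 D.volume_Bd
      filter_upwards [h2] with z hz
      rw [hsum z, h z hz]
    rw [lintegral_congr_ae hae, setLIntegral_const]
  have h2 : ∫⁻ z in par D.u D.w, ∑' x : Fin k × (ℤ × ℤ),
      (D.I x).indicator (fun _ => (1 : ENNReal)) z = k * volume P.region := by
    rw [lintegral_tsum]
    · have h3 : ∀ x : Fin k × (ℤ × ℤ), ∫⁻ z in par D.u D.w,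
          (D.I x).indicator (fun _ => (1 : ENNReal)) z = volume (D.I x ∩ par D.u D.w) := by
        intro x
        rw [lintegral_indicator (D.I_open x).measurableSet, setLIntegral_const, one_mul,
          Measure.restrict_apply (D.I_open x).measurableSet]
      simp_rw [h3]
      rw [ENNReal.tsum_prod' (f := fun x : Fin k × (ℤ × ℤ) => volume (D.I x ∩ par D.u D.w)),
        tsum_fintype]
      rw [Finset.sum_congr rfl (g := fun _ => volume P.region)]
      · rw [Finset.sum_const, nsmul_eq_mul, Finset.card_univ, Fintype.card_fin]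
      · intro j _
        have h4 : MeasurableSet ((D.g j).app '' P.inner) := by
          have h5 : IsOpen ((D.g j).app '' P.inner) :=
            (D.g j).iso.toHomeomorph.isOpenMap _ P.inner_open
          exact h5.measurableSet
        have h5 := unfold_sum D.ne h4
        rw [vol_app, hin] at h5
        exact h5
    · intro x
      exact (measurable_const.indicator (D.I_open x).measurableSet).aemeasurable
  have h3 : (k : ENNReal) * volume P.region = volume (par D.u D.w) := by
    rw [par_vol, ← hA, ENNReal.ofReal_mul (Nat.cast_nonneg k), ENNReal.ofReal_toReal hfin,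
      ENNReal.ofReal_natCast]
  rw [h1, h3] at h2
  have h4 : volume (par D.u D.w) ≠ 0 := by
    rw [par_vol]
    simp [D.ne]
  have h5 : volume (par D.u D.w) ≠ ⊤ := by
    rw [par_vol]
    exact ENNReal.ofReal_ne_top
  have h6 : (m : ENNReal) = 1 := by
    have h7 : (m : ENNReal) * volume (par D.u D.w) = 1 * volume (par D.u D.w) := by
      rw [h2, one_mul]
    exact (ENNReal.mul_left_inj h4 h5).1 h7
  exact_mod_cast h6

end LData

end Pool.Agent.Lib_MP_fa6e45
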