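import Pool.Agent.Lib_MP_fa6e45.L1o

/-!
PIECE L1c (about 120 lines): if `mult = 1` off `Bd` then the translated tiles form a periodic
tiling: interiors are disjoint (an open nonempty set meets the complement of the null set `Bd`), the
union is closed (`locFin`, closed tiles) and dense, so everything. `𝒯` = the set of all `D.R x`; the motion of
`D.R x` is `g j` followed by a translation; if `D.R x ≠ D.R y` then `x ≠ y`; `interior (D.R x) = D.I x`
(`interior_region`). `Periodic`: `u`, `w` are linearly independent as `cr u w ≠ 0`.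
-/

open Set MeasureTheory Complex
open scoped Topology

namespace Pool.Agent.Lib_MP_fa6e45

open Pool.Agent.Lib_PL (cr InSector Poly)

variable {n : ℕ} {P : Polygon n} {Y : Type} [Fintype Y] {k : ℕ} (D : LData P Y k)

namespace LData

private theorem L1c_dense : Dense D.Bdᶜ :=
  interior_eq_empty_iff_dense_compl.1 (Measure.interior_eq_empty_of_null D.volume_Bd)

private theorem L1c_I_sub_R (x : Fin k × (ℤ × ℤ)) : D.I x ⊆ D.R x := by
  rintro z ⟨z1, ⟨z2, hz2, rfl⟩, rfl⟩
  refine ⟨_, ⟨z2, ?_, rfl⟩, rfl⟩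
  have h := Pool.Agent.Lib_PL.SimplePolygon.toPoly_R P.toSimplePolygon
  unfold Polygon.region
  rw [← h]
  exact Or.inr hz2

private theorem L1c_cover (h : ∀ z, z ∉ D.Bd → D.mult z = 1) (z : ℂ) : ∃ x, z ∈ D.R x := by
  by_contra hne
  push Not at hne
  have hfin := D.locFin (‖z‖ + 1)
  set S := {x : Fin k × (ℤ × ℤ) | (D.R x ∩ Metric.closedBall 0 (‖z‖ + 1)).Nonempty} with hS
  have hcl : IsClosed (⋃ x ∈ S, D.R x) := hfin.isClosed_biUnion fun x _ => D.R_closed x
  have hz : z ∈ (⋃ x ∈ S, D.R x)ᶜ ∩ Metric.ball 0 (‖z‖ + 1) := by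
    refine ⟨?_, by simp⟩
    intro h1
    obtain ⟨x, hx⟩ := mem_iUnion.1 h1
    obtain ⟨_, hx2⟩ := mem_iUnion.1 hx
    exact hne x hx2
  obtain ⟨ξ, hξ, hξ2⟩ := D.L1c_dense.exists_mem_open (hcl.isOpen_compl.inter Metric.isOpen_ball)
    ⟨z, hz⟩
  have h1 := h ξ hξ
  unfold mult at h1
  obtain ⟨x, hx⟩ := Set.ncard_eq_one.1 h1
  have hx2 : ξ ∈ D.I x := by
    have : x ∈ {x : Fin k × (ℤ × ℤ) | ξ ∈ D.I x} := by
      rw [hx]
      exact mem_singleton x
    exact this
  apply hξ2.1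
  refine mem_iUnion.2 ⟨x, mem_iUnion.2 ⟨?_, D.L1c_I_sub_R x hx2⟩⟩
  exact ⟨ξ, D.L1c_I_sub_R x hx2, Metric.ball_subset_closedBall hξ2.2⟩

private theorem L1c_disj (h : ∀ z, z ∉ D.Bd → D.mult z = 1) (x y : Fin k × (ℤ × ℤ)) (hxy : x ≠ y) :
    Disjoint (interior (D.R x)) (interior (D.R y)) := by
  rw [Set.disjoint_iff_inter_eq_empty]
  by_contra hne
  obtain ⟨ξ, hξ, hξ2⟩ := D.L1c_dense.exists_mem_open
    ((isOpen_interior (s := D.R x)).inter (isOpen_interior (s := D.R y)))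
    (nonempty_iff_ne_empty.2 hne)
  have h1 := h ξ hξ
  unfold mult at h1
  obtain ⟨w, hw⟩ := Set.ncard_eq_one.1 h1
  have key : ∀ v : Fin k × (ℤ × ℤ), ξ ∈ interior (D.R v) → v = w := by
    intro v hv
    have h2 : ξ ∈ D.I v := by
      rcases D.R_eq v (interior_subset hv) with h3 | h3
      · exact h3
      · exact absurd h3 hξ
    have h3 : v ∈ {x : Fin k × (ℤ × ℤ) | ξ ∈ D.I x} := h2
    rw [hw] at h3
    exact h3
  exact hxy ((key x hξ2.1).trans (key y hξ2.2).symm)

private theorem L1c_shift (j : Fin k) (l m : ℤ × ℤ) :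
    (fun z => z + lv D.u D.w m) '' D.R (j, l) = D.R (j, l + m) := by
  unfold R
  rw [← image_comp]
  apply image_congr
  intro z _
  simp only [Function.comp_apply, lv, Prod.fst_add, Prod.snd_add]
  push_cast
  ring

private theorem L1c_per (m : ℤ × ℤ) (t : Set ℂ) :
    t ∈ range D.R ↔ (fun z => z + lv D.u D.w m) '' t ∈ range D.R := by
  constructor
  · rintro ⟨⟨j, l⟩, rfl⟩
    exact ⟨(j, l + m), (D.L1c_shift j l m).symm⟩
  · rintro ⟨⟨j, l⟩, h⟩
    refine ⟨(j, l + -m), ?_⟩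
    rw [← D.L1c_shift j l (-m), h, ← image_comp]
    have e : ((fun z => z + lv D.u D.w (-m)) ∘ fun z => z + lv D.u D.w m) = id := by
      funext z
      simp only [Function.comp_apply, lv, Prod.fst_neg, Prod.snd_neg, id]
      push_cast
      ring
    rw [e, image_id]

theorem tiling_of_mult (h : ∀ z, z ∉ D.Bd → D.mult z = 1) : HasPeriodic P := by
  refine ⟨range D.R, ⟨?_, ?_, ?_⟩, D.u, D.w, ?_, ?_, ?_⟩
  · rintro t ⟨⟨j, l⟩, rfl⟩
    refine ⟨(D.g j).iso.trans (IsometryEquiv.addRight (lv D.u D.w l)), ?_⟩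
    unfold R
    rw [← image_comp]
    apply image_congr
    intro z _
    simp
  · apply eq_univ_of_forall
    intro z
    obtain ⟨x, hx⟩ := D.L1c_cover h z
    exact ⟨D.R x, ⟨x, rfl⟩, hx⟩
  · rintro s ⟨x, rfl⟩ t ⟨y, rfl⟩ hst
    exact D.L1c_disj h x y fun e => hst (by rw [e])
  · rw [LinearIndependent.pair_iff]
    intro s t hst
    simp only [Complex.real_smul] at hst
    have h1 : cr ((s : ℂ) * D.u + (t : ℂ) * D.w) D.w = s * cr D.u D.w := by
      rw [Pool.Agent.Lib_PL.cr_add_left, Pool.Agent.Lib_PL.cr_mul_left,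
        Pool.Agent.Lib_PL.cr_mul_left, Pool.Agent.Lib_PL.cr_self]
      ring
    have h2 : cr D.u ((s : ℂ) * D.u + (t : ℂ) * D.w) = t * cr D.u D.w := by
      rw [Pool.Agent.Lib_PL.cr_add_right, Pool.Agent.Lib_PL.cr_mul_right,
        Pool.Agent.Lib_PL.cr_mul_right, Pool.Agent.Lib_PL.cr_self]
      ring
    rw [hst, Pool.Agent.Lib_PL.cr_zero_left] at h1
    rw [hst, Pool.Agent.Lib_PL.cr_zero_right] at h2
    have h3 := D.ne
    constructor
    · exact (mul_eq_zero.1 h1.symm).resolve_right h3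
    · exact (mul_eq_zero.1 h2.symm).resolve_right h3
  · intro t
    have := D.L1c_per (1, 0) t
    simpa [lv] using this
  · intro t
    have := D.L1c_per (0, 1) t
    simpa [lv] using this

end LData

end Pool.Agent.Lib_MP_fa6e45
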