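import Pool.Agent.Lib_MP_fa6e45.L1a
import Pool.Agent.Lib_MP_fa6e45.L1b
import Pool.Agent.Lib_MP_fa6e45.L1c

/-!
The lattice criterion.
-/

open Set MeasureTheory Complex
open scoped Topology

namespace Pool.Agent.Lib_MP_fa6e45

open Pool.Agent.Lib_PL (cr InSector Poly)

variable {n : ℕ} {P : Polygon n} {Y : Type} [Fintype Y] {k : ℕ} (D : LData P Y k)

namespace LData

theorem criterion (hm : D.Matched) (hA : (k : ℝ) * (volume P.region).toReal = |cr D.u D.w|) :
    HasPeriodic P := by
  obtain ⟨z₀, hz₀⟩ : ∃ z, z ∉ D.Bd := by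
    by_contra h
    push Not at h
    have h1 : D.Bd = univ := Set.eq_univ_of_forall h
    have h2 := D.volume_Bd
    rw [h1] at h2
    simp at h2
  have h1 : D.mult z₀ = 1 := D.mult_one _ (fun z hz => D.mult_const hm hz hz₀) hA
  exact D.tiling_of_mult fun z hz => (D.mult_const hm hz hz₀).trans h1

end LData

end Pool.Agent.Lib_MP_fa6e45
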