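import Pool.Agent.Lib_MP_fa6e45.L1Defs
import Pool.Agent.Lib_MP_fa6e45.A3b

/-!
PIECE L2a (about 100 lines): chains. `sideChain`: the sides of the polygon starting at corner `p`
(`sum_th`, reindex `Fin n ≃ ZMod n`, `i ↦ p + i`). `ins`: `th p M z + th M q z = th p q z` for `M ∈ [p, q]`,
`z ∉ [p, q]` (`Lib_PL` Wind.lean `arg_split`).
-/

open Set MeasureTheory Complex
open scoped Topology

namespace Pool.Agent.Lib_MP_fa6e45

open Pool.Agent.Lib_PL (cr InSector Poly)

variable {n : ℕ}

private theorem L2a_bdry_sub (P : Polygon n) (i : ZMod n) :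
    segment ℝ (P.vertex i) (P.vertex (i + 1)) ⊆ P.bdry := by
  rw [P.bdry_eq]
  exact Set.subset_iUnion (fun i : ZMod n => segment ℝ (P.vertex i) (P.vertex (i + 1))) i

private theorem L2a_not_bdry (P : Polygon n) {z : ℂ} (h : z ∈ P.inner) : z ∉ P.bdry :=
  fun h2 => (Set.disjoint_left.1 P.bdry_disj) h2 h

private theorem L2a_not_bdry' (P : Polygon n) {z : ℂ} (h : z ∉ P.region) : z ∉ P.bdry := by
  intro h2
  apply h
  rw [P.region_union]
  exact Or.inl h2

private theorem L2a_bij [NeZero n] (p : ZMod n) :
    Function.Bijective (fun i : Fin n => p + (((i : ℕ)) : ZMod n)) := by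
  rw [Fintype.bijective_iff_injective_and_card]
  constructor
  · intro i j h
    have h1 : (((i : ℕ)) : ZMod n) = (((j : ℕ)) : ZMod n) := add_left_cancel h
    rw [ZMod.natCast_eq_natCast_iff'] at h1
    rw [Nat.mod_eq_of_lt i.2, Nat.mod_eq_of_lt j.2] at h1
    exact Fin.ext h1
  · rw [Fintype.card_fin, ZMod.card]

private theorem L2a_sum [NeZero n] (P : Polygon n) (p : ZMod n) (z : ℂ) :
    ∑ i : Fin n, th (P.vertex (p + (i : ℕ))) (P.vertex (p + (i : ℕ) + 1)) z =
      ∑ i : ZMod n, th (P.vertex i) (P.vertex (i + 1)) z :=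
  (L2a_bij p).sum_comp (fun i : ZMod n => th (P.vertex i) (P.vertex (i + 1)) z)

/-- the sides as a chain, starting at the corner `p` -/
noncomputable def sideChain [NeZero n] (P : Polygon n) (hc : P.CCW) (p : ZMod n) : Chain P (Fin n) where
  p := fun i => P.vertex (p + (i : ℕ))
  q := fun i => P.vertex (p + (i : ℕ) + 1)
  sub := by
    intro i
    exact L2a_bdry_sub P _
  sum_in := by
    intro z hz
    rw [L2a_sum P p z]
    exact (P.sum_th hc).1 z hz
  sum_out := by
    intro z hz
    rw [L2a_sum P p z]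
    exact (P.sum_th hc).2 z hz

private theorem L2a_ins {P : Polygon n} {Y : Type} [Fintype Y] [DecidableEq Y] (K : Chain P Y)
    (y : Y) (M : ℂ) (hM : M ∈ segment ℝ (K.p y) (K.q y)) {z : ℂ} (hz : z ∉ P.bdry) :
    ∑ x : Option Y, th (x.elim M K.p) (x.elim (K.q y) fun z => if z = y then M else K.q z) z =
      ∑ x, th (K.p x) (K.q x) z := by
  have h1 : z ∉ segment ℝ (K.p y) (K.q y) := fun h => hz (K.sub y h)
  have h2 : th (K.p y) (K.q y) z = th (K.p y) M z + th M (K.q y) z :=
    Pool.Agent.Lib_PL.arg_split (K.p y) M (K.q y) z hM h1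
  rw [Fintype.sum_option]
  simp only [Option.elim]
  have h3 : ∀ x : Y, th (K.p x) (if x = y then M else K.q x) z = th (K.p x) (K.q x) z +
      (if x = y then th (K.p y) M z - th (K.p y) (K.q y) z else 0) := by
    intro x
    by_cases hx : x = y
    · rw [if_pos hx, if_pos hx, hx]
      ring
    · rw [if_neg hx, if_neg hx, add_zero]
  rw [Finset.sum_congr rfl (fun x _ => h3 x), Finset.sum_add_distrib, Finset.sum_ite_eq']
  simp only [Finset.mem_univ, if_true]
  rw [h2]
  ring

/-- one more division point: the segment `y` of the chain is divided at the point `M` -/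
noncomputable def Chain.ins {P : Polygon n} {Y : Type} [Fintype Y] [DecidableEq Y] (K : Chain P Y)
    (y : Y) (M : ℂ) (hM : M ∈ segment ℝ (K.p y) (K.q y)) : Chain P (Option Y) where
  p := fun x => x.elim M K.p
  q := fun x => x.elim (K.q y) fun z => if z = y then M else K.q z
  sub := by
    rintro (_ | x)
    · exact ((convex_segment (K.p y) (K.q y)).segment_subset hM
        (right_mem_segment ℝ (K.p y) (K.q y))).trans (K.sub y)
    · by_cases hx : x = y
      · subst hx
        simp only [Option.elim, if_true]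
        exact ((convex_segment (K.p x) (K.q x)).segment_subset
          (left_mem_segment ℝ (K.p x) (K.q x)) hM).trans (K.sub x)
      · simp only [Option.elim, if_neg hx]
        exact K.sub x
  sum_in := by
    intro z hz
    rw [L2a_ins K y M hM (L2a_not_bdry P hz)]
    exact K.sum_in z hz
  sum_out := by
    intro z hz
    rw [L2a_ins K y M hM (L2a_not_bdry' P hz)]
    exact K.sum_out z hz

end Pool.Agent.Lib_MP_fa6e45
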