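import Pool.Agent.Lib_MP_fa6e45.A1b
import Pool.Agent.Lib_MP_fa6e45.A1c

/-!
PIECE T1a (about 180 lines): measure and finiteness facts for a tiling.
`meets r` = the tiles which meet the closed disc of radius `r` around 0. All tiles have the same area
`A > 0` (motions preserve the volume; the interior is open and nonempty; the boundary is a null set) and
the same diameter `d`, so the tiles in `meets r` have disjoint interiors inside the disc of radius
`r + d` (`count_le`, finiteness), and they cover the disc of radius `r` (`count_ge`).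
-/

open Set MeasureTheory Complex
open scoped Topology

namespace Pool.Agent.Lib_MP_fa6e45

open Pool.Agent.Lib_PL (cr InSector Poly)

variable {n : ℕ} {P : Polygon n} {ι : Type}

private theorem T1a_img (g : Mo) (s : Set ℂ) : g.app '' s = g.iso.toHomeomorph '' s := rfl

private theorem T1a_vol (f : ℂ ≃ᵢ ℂ) (s : Set ℂ) : volume (f '' s) = volume s := by
  have h1 : f '' s = (fun z => z + f 0) '' (f.toRealLinearIsometryEquiv '' s) := by
    rw [Set.image_image]
    apply Set.image_congr
    intro z _
    rw [IsometryEquiv.toRealLinearIsometryEquiv_apply]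
    ring
  rw [h1, Set.image_add_right, measure_preimage_add_right,
    LinearIsometryEquiv.image_eq_preimage_symm]
  exact (f.toRealLinearIsometryEquiv.symm.measurePreserving).measure_preimage_emb
    f.toRealLinearIsometryEquiv.symm.toHomeomorph.measurableEmbedding s

private theorem T1a_vol' (g : Mo) (s : Set ℂ) : volume (g.app '' s) = volume s :=
  T1a_vol g.iso s

theorem Til.R_closed (T : Til P ι) (t : ι) : IsClosed (T.R t) := by
  unfold Til.R
  rw [T1a_img, Homeomorph.isClosed_image]
  exact P.region_closed

theorem Til.I_open (T : Til P ι) (t : ι) : IsOpen (T.I t) := by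
  unfold Til.I
  rw [T1a_img, Homeomorph.isOpen_image]
  exact P.inner_open

theorem Til.R_eq (T : Til P ι) (t : ι) : T.R t = T.C t ∪ T.I t := by
  unfold Til.R Til.C Til.I
  rw [← Set.image_union, P.region_union]

theorem Til.C_subset_closure (T : Til P ι) (t : ι) : T.C t ⊆ closure (T.I t) := by
  unfold Til.C Til.I
  rw [T1a_img, T1a_img, ← Homeomorph.image_closure]
  exact Set.image_mono P.bdry_subset_closure

/-- the interior of a tile does not meet any other tile -/
theorem Til.I_disj_R (T : Til P ι) {s t : ι} (h : s ≠ t) : Disjoint (T.I s) (T.R t) := by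
  rw [T.R_eq]
  have h1 : Disjoint (T.I s) (closure (T.I t)) := (T.disj s t h).closure_right (T.I_open s)
  exact h1.mono_right (Set.union_subset (T.C_subset_closure t) subset_closure)

theorem Til.volume_C (T : Til P ι) (t : ι) : volume (T.C t) = 0 := by
  unfold Til.C
  rw [T1a_vol', P.volume_bdry]

theorem Til.volume_R (T : Til P ι) (t : ι) : volume (T.R t) = volume P.region := by
  unfold Til.R
  rw [T1a_vol']

theorem Polygon.volume_pos (P : Polygon n) : 0 < (volume P.region).toReal := by
  have h1 : 0 < volume P.inner := P.inner_open.measure_pos volume P.inner_nonempty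
  have h2 : P.inner ⊆ P.region := by
    rw [P.region_union]
    exact Set.subset_union_right
  exact ENNReal.toReal_pos (h1.trans_le (measure_mono h2)).ne'
    (P.region_bounded.measure_lt_top).ne

theorem Polygon.volume_lt_top (P : Polygon n) : volume P.region < ⊤ := by
  exact P.region_bounded.measure_lt_top

/-- the tiles which meet the closed disc of radius `r` around 0 -/
def Til.meets (T : Til P ι) (r : ℝ) : Set ι := {t | (T.R t ∩ Metric.closedBall 0 r).Nonempty}

private theorem T1a_dist (T : Til P ι) {t : ι} {z w : ℂ} (hz : z ∈ T.R t) (hw : w ∈ T.R t) :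
    dist z w ≤ Metric.diam P.region := by
  obtain ⟨z', hz', rfl⟩ := hz
  obtain ⟨w', hw', rfl⟩ := hw
  rw [(T.g t).dist_app]
  exact Metric.dist_le_diam_of_mem P.region_bounded hz' hw'

private theorem T1a_vol_I (T : Til P ι) (t : ι) : volume (T.I t) = volume P.region := by
  rw [← T.volume_R t]
  apply le_antisymm
  · rw [T.R_eq]
    exact measure_mono Set.subset_union_right
  · rw [T.R_eq]
    refine (measure_union_le _ _).trans ?_
    rw [T.volume_C, zero_add]

private theorem T1a_ball {r : ℝ} (hr : 0 ≤ r) :
    (volume (Metric.closedBall (0 : ℂ) r)).toReal = Real.pi * r ^ 2 := by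
  rw [Complex.volume_closedBall, ENNReal.toReal_mul, ENNReal.toReal_pow, ENNReal.toReal_ofReal hr]
  rw [mul_comm]
  rfl

private theorem T1a_card (T : Til P ι) {r : ℝ} (hr : 0 ≤ r) (F : Finset ι)
    (hF : ∀ t ∈ F, t ∈ T.meets r) :
    (F.card : ℝ) * (volume P.region).toReal ≤ Real.pi * (r + Metric.diam P.region) ^ 2 := by
  have h1 : (⋃ t ∈ F, T.I t) ⊆ Metric.closedBall (0 : ℂ) (r + Metric.diam P.region) := by
    intro z hz
    simp only [Set.mem_iUnion, exists_prop] at hz
    obtain ⟨t, ht, hz⟩ := hz
    obtain ⟨w, hw, hw2⟩ := hF t ht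
    have hzR : z ∈ T.R t := by
      rw [T.R_eq]
      exact Or.inr hz
    have h2 := T1a_dist T hzR hw
    rw [Metric.mem_closedBall] at hw2 ⊢
    have h3 := dist_triangle z w 0
    linarith
  have h2 : volume (⋃ t ∈ F, T.I t) = F.card * volume P.region := by
    have h5 : (F : Set ι).PairwiseDisjoint T.I := fun s _ t _ h => T.disj s t h
    rw [measure_biUnion_finset h5
      (fun t _ => (T.I_open t).measurableSet), Finset.sum_congr rfl (fun t _ => T1a_vol_I T t),
      Finset.sum_const, nsmul_eq_mul]
  have h3 := measure_mono (μ := volume) h1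
  rw [h2] at h3
  have h4 := ENNReal.toReal_mono (measure_closedBall_lt_top).ne h3
  rw [T1a_ball (by have := Metric.diam_nonneg (s := P.region); linarith), ENNReal.toReal_mul,
    ENNReal.toReal_natCast] at h4
  exact h4

theorem Til.meets_finite (T : Til P ι) (r : ℝ) : (T.meets r).Finite := by
  rcases lt_or_ge r 0 with hr | hr
  · have : T.meets r = ∅ := by
      unfold Til.meets
      simp [Metric.closedBall_eq_empty.2 hr]
    rw [this]
    exact Set.finite_empty
  by_contra hinf
  obtain ⟨N, hN⟩ := exists_nat_gt (Real.pi * (r + Metric.diam P.region) ^ 2 /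
    (volume P.region).toReal)
  obtain ⟨F, hF, hc⟩ := Set.Infinite.exists_subset_card_eq hinf N
  have h1 := T1a_card T hr F (fun t ht => hF ht)
  rw [hc] at h1
  rw [div_lt_iff₀ P.volume_pos] at hN
  linarith

/-- the diameter of the polygon -/
noncomputable def Polygon.dm (P : Polygon n) : ℝ := Metric.diam P.region

theorem Til.dist_le (T : Til P ι) {t : ι} {z w : ℂ} (hz : z ∈ T.R t) (hw : w ∈ T.R t) :
    dist z w ≤ P.dm := by
  exact T1a_dist T hz hw

theorem Til.count_le (T : Til P ι) {r : ℝ} (hr : 0 ≤ r) :
    ((T.meets r).ncard : ℝ) * (volume P.region).toReal ≤ Real.pi * (r + P.dm) ^ 2 := by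
  rw [Set.ncard_eq_toFinset_card _ (T.meets_finite r)]
  exact T1a_card T hr _ (fun t ht => (T.meets_finite r).mem_toFinset.1 ht)

theorem Til.count_ge (T : Til P ι) {r : ℝ} (hr : 0 ≤ r) :
    Real.pi * r ^ 2 ≤ ((T.meets r).ncard : ℝ) * (volume P.region).toReal := by
  rw [Set.ncard_eq_toFinset_card _ (T.meets_finite r), ← T1a_ball hr]
  have h1 : Metric.closedBall (0 : ℂ) r ⊆ ⋃ t ∈ (T.meets_finite r).toFinset, T.R t := by
    intro z hz
    obtain ⟨t, ht⟩ := T.cover z
    simp only [Set.mem_iUnion, exists_prop, Set.Finite.mem_toFinset]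
    exact ⟨t, ⟨z, ht, hz⟩, ht⟩
  have h2 := (measure_mono (μ := volume) h1).trans (measure_biUnion_finset_le _ _)
  rw [Finset.sum_congr rfl (fun t _ => T.volume_R t), Finset.sum_const, nsmul_eq_mul] at h2
  have h3 := ENNReal.toReal_mono
    (ENNReal.mul_lt_top (ENNReal.natCast_lt_top _) P.volume_lt_top).ne h2
  rwa [ENNReal.toReal_mul, ENNReal.toReal_natCast] at h3

end Pool.Agent.Lib_MP_fa6e45
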