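import Pool.Agent.Lib_MP_fa6e45.X1a
import Pool.Agent.Lib_MP_fa6e45.L1
import Pool.Agent.Lib_MP_fa6e45.L2a
import Pool.Agent.Lib_MP_fa6e45.T1a

/-!
PIECE X1b (about 250 lines): the lattice criterion with arcs. `index`: `(j, t) ↦ κ j + t`, `t < w j`, is a
bijection onto the corners (`total`, `step`). `criterion`: build `LData P (Fin n or ZMod n) k` from the chain of
all sides (`sideChain`): side `κ j + t` of tile `a` is matched with side `κ k + s` of tile `b`, `(b, k) = τ (a, j)`,
`t + s + 1 = w j` (same orientation) or `s = t` (different), same lattice vector. The matching of the end points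
of the sides follows from `Arcs.lift_plus` / `lift_minus` for the relative motion
`(g a)⁻¹ ∘ (translation) ∘ g b` (`Mo.inv`), or directly. `u`, `w` are independent as the area is positive.
-/

open Set MeasureTheory Complex
open scoped Topology

namespace Pool.Agent.Lib_MP_fa6e45

open Pool.Agent.Lib_PL (cr InSector Poly)
variable {n : ℕ} {P : Polygon n} {m : ℕ} [NeZero m] {S : Arcs P m}

/-! ### The index of a corner -/

private theorem X1b_succ (S : Arcs P m) (x : Σ j : ZMod m, Fin (S.w j)) :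
    ∃ y : Σ j : ZMod m, Fin (S.w j), S.κ y.1 + (((y.2 : ℕ)) : ZMod n) =
      S.κ x.1 + (((x.2 : ℕ)) : ZMod n) + 1 := by
  obtain ⟨j, ⟨t, ht⟩⟩ := x
  by_cases h : t + 1 < S.w j
  · refine ⟨⟨j, ⟨t + 1, h⟩⟩, ?_⟩
    simp only
    push_cast
    ring
  · have h2 : S.w j = t + 1 := by omega
    refine ⟨⟨j + 1, ⟨0, S.w_pos (j + 1)⟩⟩, ?_⟩
    have h3 : ((S.w j : ℕ) : ZMod n) = (t : ZMod n) + 1 := by
      rw [h2]
      push_cast
      ring
    simp only
    rw [S.step j, h3]
    push_cast
    ring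

private theorem X1b_all (S : Arcs P m) (i : ℕ) :
    ∃ y : Σ j : ZMod m, Fin (S.w j), S.κ y.1 + (((y.2 : ℕ)) : ZMod n) = S.κ 0 + (i : ZMod n) := by
  induction i with
  | zero =>
    refine ⟨⟨0, ⟨0, S.w_pos 0⟩⟩, ?_⟩
    simp
  | succ i ih =>
    obtain ⟨y, hy⟩ := ih
    obtain ⟨z, hz⟩ := X1b_succ S y
    refine ⟨z, ?_⟩
    rw [hz, hy]
    push_cast
    ring

private theorem X1b_bij [NeZero n] (S : Arcs P m) :
    Function.Bijective (fun x : Σ j : ZMod m, Fin (S.w j) => S.κ x.1 + (((x.2 : ℕ)) : ZMod n)) := by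
  rw [Fintype.bijective_iff_surjective_and_card]
  constructor
  · intro i
    obtain ⟨y, hy⟩ := X1b_all S (i - S.κ 0).val
    refine ⟨y, ?_⟩
    simp only
    rw [hy, ZMod.natCast_zmod_val]
    ring
  · rw [Fintype.card_sigma, ZMod.card]
    simp only [Fintype.card_fin]
    exact S.total

private theorem X1b_ne (P : Polygon n) : NeZero n := ⟨by have := P.three_le; omega⟩

/-- every corner of `P` is `κ j + t` for exactly one `j` and `t < w j` -/
theorem Arcs.index (S : Arcs P m) (i : ZMod n) :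
    ∃! x : ZMod m × ℕ, x.2 < S.w x.1 ∧ S.κ x.1 + (x.2 : ZMod n) = i := by
  have := X1b_ne P
  obtain ⟨⟨j, t⟩, h1, h2⟩ := (X1b_bij S).existsUnique i
  refine ⟨(j, (t : ℕ)), ⟨t.2, h1⟩, ?_⟩
  rintro ⟨j', t'⟩ ⟨h3, h4⟩
  have h5 := h2 ⟨j', ⟨t', h3⟩⟩ h4
  injection h5 with h6 h7
  subst h6
  have h8 : (⟨t', h3⟩ : Fin (S.w j')) = t := eq_of_heq h7
  rw [← h8]

/-! ### The sides as a chain -/

/-- the sides, indexed by the arcs -/
private def X1b_Y (S : Arcs P m) : Type := {x : ZMod m × ℕ // x.2 < S.w x.1}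

private def X1b_φ (S : Arcs P m) (y : X1b_Y S) : ZMod n := S.κ y.1.1 + (y.1.2 : ZMod n)

private theorem X1b_φ_bij (S : Arcs P m) : Function.Bijective (X1b_φ S) := by
  constructor
  · rintro ⟨y, hy⟩ ⟨z, hz⟩ h
    exact Subtype.ext ((S.index (X1b_φ S ⟨y, hy⟩)).unique ⟨hy, rfl⟩ ⟨hz, h.symm⟩)
  · intro i
    obtain ⟨y, ⟨h1, h2⟩, -⟩ := S.index i
    exact ⟨⟨y, h1⟩, h2⟩

private noncomputable instance X1b_fin [NeZero n] (S : Arcs P m) : Fintype (X1b_Y S) :=
  Fintype.ofEquiv (ZMod n) (Equiv.ofBijective _ (X1b_φ_bij S)).symm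

private noncomputable def X1b_K [NeZero n] (S : Arcs P m) (hc : P.CCW) : Chain P (X1b_Y S) where
  p := fun y => P.vertex (X1b_φ S y)
  q := fun y => P.vertex (X1b_φ S y + 1)
  sub := by
    intro y
    rw [P.bdry_eq]
    exact Set.subset_iUnion (fun i : ZMod n => segment ℝ (P.vertex i) (P.vertex (i + 1))) _
  sum_in := by
    intro z hz
    rw [(X1b_φ_bij S).sum_comp (fun i : ZMod n => th (P.vertex i) (P.vertex (i + 1)) z)]
    exact (P.sum_th hc).1 z hz
  sum_out := by
    intro z hz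
    rw [(X1b_φ_bij S).sum_comp (fun i : ZMod n => th (P.vertex i) (P.vertex (i + 1)) z)]
    exact (P.sum_th hc).2 z hz

/-! ### The relative motion -/

private theorem X1b_mo (g h : Mo) (c : ℂ) : ∃ a b : ℂ, ‖a‖ = 1 ∧ ∀ z z' : ℂ,
    h.app z + c = g.app z' ↔
      a * (if (g.rf == h.rf) = true then z else (starRingEnd ℂ) z) + b = z' := by
  have key : ∀ z z' : ℂ, h.app z + c = g.app z' ↔ g.inv.app (h.app z + c) = z' := by
    intro z z'
    constructor
    · intro h1
      rw [h1, g.inv_app]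
    · intro h1
      rw [← h1, g.app_inv]
  obtain ⟨a, b, rf, ha⟩ := g
  obtain ⟨a', b', rf', ha'⟩ := h
  cases rf <;> cases rf'
  · refine ⟨(starRingEnd ℂ) a * a', (starRingEnd ℂ) a * (b' + c - b), ?_, fun z z' => ?_⟩
    · rw [norm_mul, RCLike.norm_conj, ha, ha', one_mul]
    · rw [key]
      simp only [Mo.inv, Mo.app, Mo.lin, Bool.false_eq_true, if_false, beq_self_eq_true, if_true]
      constructor <;> intro h1 <;> rw [← h1] <;> ring
  · refine ⟨(starRingEnd ℂ) a * a', (starRingEnd ℂ) a * (b' + c - b), ?_, fun z z' => ?_⟩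
    · rw [norm_mul, RCLike.norm_conj, ha, ha', one_mul]
    · rw [key]
      have e : (false == true) = false := rfl
      simp only [Mo.inv, Mo.app, Mo.lin, Bool.false_eq_true, if_false, if_true, e]
      constructor <;> intro h1 <;> rw [← h1] <;> ring
  · refine ⟨a * (starRingEnd ℂ) a', a * (starRingEnd ℂ) (b' + c - b), ?_, fun z z' => ?_⟩
    · rw [norm_mul, RCLike.norm_conj, ha, ha', one_mul]
    · rw [key]
      have e : (true == false) = false := rfl
      simp only [Mo.inv, Mo.app, Mo.lin, Bool.false_eq_true, if_false, if_true, e, map_add, map_sub,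
        map_mul]
      constructor <;> intro h1 <;> rw [← h1] <;> ring
  · refine ⟨a * (starRingEnd ℂ) a', a * (starRingEnd ℂ) (b' + c - b), ?_, fun z z' => ?_⟩
    · rw [norm_mul, RCLike.norm_conj, ha, ha', one_mul]
    · rw [key]
      simp only [Mo.inv, Mo.app, Mo.lin, if_true, beq_self_eq_true, map_add, map_sub,
        map_mul, conj_conj]
      constructor <;> intro h1 <;> rw [← h1] <;> ring

/-! ### The data -/

/-- the position on the neighbouring arc -/
private def X1b_fl (b : Bool) (w t : ℕ) : ℕ := if b then w - 1 - t else t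

private theorem X1b_fl_lt {b : Bool} {w t : ℕ} (h : t < w) : X1b_fl b w t < w := by
  unfold X1b_fl
  split_ifs <;> omega

private theorem X1b_fl_fl {b : Bool} {w t : ℕ} (h : t < w) : X1b_fl b w (X1b_fl b w t) = t := by
  unfold X1b_fl
  split_ifs <;> omega

private theorem X1b_w {j k : ZMod m} {b : Bool} (h : S.Rel j k b) : S.w j = S.w k := by
  unfold Arcs.Rel at h
  split_ifs at h
  · exact h.1
  · exact h.1

variable {k : ℕ} (D : AData P S k)

/-- do the two tiles at the arc have the same orientation? -/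
private def X1b_same (x : Fin k × ZMod m) : Bool := (D.g x.1).rf == (D.g (D.τ x).1).rf

private theorem X1b_same_τ (x : Fin k × ZMod m) : X1b_same D (D.τ x) = X1b_same D x := by
  unfold X1b_same
  rw [D.ττ, Bool.beq_comm]

private theorem X1b_wτ (x : Fin k × ZMod m) : S.w (D.τ x).2 = S.w x.2 := (X1b_w (D.rel x)).symm

private def X1b_τ (x : Fin k × X1b_Y S) : Fin k × X1b_Y S :=
  ((D.τ (x.1, x.2.1.1)).1, ⟨((D.τ (x.1, x.2.1.1)).2,
    X1b_fl (X1b_same D (x.1, x.2.1.1)) (S.w x.2.1.1) x.2.1.2), by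
      have h := X1b_wτ D (x.1, x.2.1.1)
      simp only at h ⊢
      rw [h]
      exact X1b_fl_lt x.2.2⟩)

private theorem X1b_ττ (x : Fin k × X1b_Y S) : X1b_τ D (X1b_τ D x) = x := by
  obtain ⟨a, ⟨⟨j, t⟩, ht⟩⟩ := x
  simp only at ht
  have h1 : D.τ (D.τ (a, j)) = (a, j) := D.ττ _
  have h2 : X1b_same D (D.τ (a, j)) = X1b_same D (a, j) := X1b_same_τ D _
  have h3 := X1b_wτ D (a, j)
  simp only at h3
  unfold X1b_τ
  simp only [Prod.mk.eta, h1, h2, h3]
  congr 1
  apply Subtype.ext
  simp only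
  rw [X1b_fl_fl ht]

private theorem X1b_pt (hm : 2 ≤ m) (hM : D.Matched) (a : Fin k) (j : ZMod m) :
    (X1b_same D (a, j) = true → ∀ t s : ℕ, t + s = S.w j →
      (D.g (D.τ (a, j)).1).app (P.vertex (S.κ (D.τ (a, j)).2 + (s : ZMod n))) +
        lv D.u D.w (D.c (a, j)) = (D.g a).app (P.vertex (S.κ j + (t : ZMod n)))) ∧
    (X1b_same D (a, j) = false → ∀ t : ℕ, t ≤ S.w j →
      (D.g (D.τ (a, j)).1).app (P.vertex (S.κ (D.τ (a, j)).2 + (t : ZMod n))) +
        lv D.u D.w (D.c (a, j)) = (D.g a).app (P.vertex (S.κ j + (t : ZMod n)))) := by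
  obtain ⟨h1, h2⟩ := hM (a, j)
  have hr := D.rel (a, j)
  obtain ⟨α, β, hα, hαβ⟩ := X1b_mo (D.g a) (D.g (D.τ (a, j)).1) (lv D.u D.w (D.c (a, j)))
  have e : X1b_same D (a, j) = ((D.g a).rf == (D.g (D.τ (a, j)).1).rf) := rfl
  constructor
  · intro hs t s hts
    rw [e] at hs
    simp only at hr
    rw [hs] at hr
    have hr' : S.Plus j (D.τ (a, j)).2 := hr
    rw [hs] at hαβ
    simp only [if_true] at hαβ
    rw [hαβ]
    have hrf : (D.g a).rf = (D.g (D.τ (a, j)).1).rf := by simpa using hs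
    unfold AData.src AData.tgt at h1 h2
    simp only at h1 h2
    rw [hrf] at h1 h2
    by_cases hb : (D.g (D.τ (a, j)).1).rf = true
    · simp only [hb, if_true] at h1 h2
      exact S.lift_plus hm hr' hα ((hαβ _ _).1 h1) ((hαβ _ _).1 h2) t s hts
    · simp only [hb] at h1 h2
      exact S.lift_plus hm hr' hα ((hαβ _ _).1 h2) ((hαβ _ _).1 h1) t s hts
  · intro hs t ht
    rw [e] at hs
    simp only at hr
    rw [hs] at hr
    have hr' : S.Minus j (D.τ (a, j)).2 := hr
    rw [hs] at hαβ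
    simp only [Bool.false_eq_true, if_false] at hαβ
    rw [hαβ]
    unfold AData.src AData.tgt at h1 h2
    simp only at h1 h2
    by_cases hb : (D.g (D.τ (a, j)).1).rf = true
    · have ha : (D.g a).rf = false := by
        rw [hb] at hs
        simpa using hs
      simp only [hb, ha, if_true, Bool.false_eq_true, if_false] at h1 h2
      exact S.lift_minus hm hr' hα ((hαβ _ _).1 h2) ((hαβ _ _).1 h1) t ht
    · have ha : (D.g a).rf = true := by
        rw [Bool.not_eq_true] at hb
        rw [hb] at hs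
        simpa using hs
      simp only [hb, ha, if_true] at h1 h2
      exact S.lift_minus hm hr' hα ((hαβ _ _).1 h1) ((hαβ _ _).1 h2) t ht

theorem AData.criterion (hc : P.CCW) (hm : 2 ≤ m) {k : ℕ} (hk : 0 < k) (D : AData P S k)
    (hM : D.Matched)
    (hA : (k : ℝ) * (volume P.region).toReal = |cr D.u D.w|) : HasPeriodic P := by
  have := X1b_ne P
  have hne : cr D.u D.w ≠ 0 := by
    have h1 := P.volume_pos
    have h2 : (0 : ℝ) < (k : ℝ) * (volume P.region).toReal := by
      have : (0 : ℝ) < k := by exact_mod_cast hk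
      positivity
    rw [hA] at h2
    exact abs_pos.1 h2
  let E : LData P (X1b_Y S) k :=
    { K := X1b_K S hc
      g := D.g
      u := D.u
      w := D.w
      ne := hne
      τ := X1b_τ D
      ττ := X1b_ττ D
      c := fun x => D.c (x.1, x.2.1.1)
      cτ := fun x => D.cτ (x.1, x.2.1.1) }
  refine LData.criterion E ?_ hA
  rintro ⟨a, ⟨⟨j, t⟩, ht⟩⟩
  obtain ⟨hp, hq⟩ := X1b_pt D hm hM a j
  have e : X1b_same D (a, j) = ((D.g a).rf == (D.g (D.τ (a, j)).1).rf) := rfl
  simp only at ht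
  by_cases hs : X1b_same D (a, j) = true
  · have h1 := hp hs (t + 1) (S.w j - 1 - t) (by omega)
    have h2 := hp hs t (S.w j - 1 - t + 1) (by omega)
    have hrf : (D.g a).rf = (D.g (D.τ (a, j)).1).rf := by
      rw [e] at hs
      simpa using hs
    push_cast at h1 h2
    rw [← add_assoc] at h1 h2
    simp only [LData.src, LData.tgt, E, X1b_K, X1b_τ, X1b_φ, X1b_fl, hs, hrf, if_true]
    by_cases hb : (D.g (D.τ (a, j)).1).rf = true
    · simp only [hb, if_true]
      exact ⟨h2, h1⟩
    · simp only [hb]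
      exact ⟨h1, h2⟩
  · rw [Bool.not_eq_true] at hs
    have h1 := hq hs t ht.le
    have h2 := hq hs (t + 1) ht
    push_cast at h2
    rw [← add_assoc, ← add_assoc] at h2
    simp only [LData.src, LData.tgt, E, X1b_K, X1b_τ, X1b_φ, X1b_fl, hs, Bool.false_eq_true,
      if_false]
    by_cases hb : (D.g (D.τ (a, j)).1).rf = true
    · have ha : (D.g a).rf = false := by
        rw [e, hb] at hs
        simpa using hs
      simp only [hb, ha, if_true, Bool.false_eq_true, if_false]
      exact ⟨h2, h1⟩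
    · have ha : (D.g a).rf = true := by
        rw [Bool.not_eq_true] at hb
        rw [e, hb] at hs
        simpa using hs
      simp only [hb, ha, if_true]
      exact ⟨h1, h2⟩

end Pool.Agent.Lib_MP_fa6e45
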