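import Pool.Agent.Lib_MP_fa6e45.Y0
import Pool.Agent.Lib_MP_fa6e45.X1b

/-!
PIECE Y5 (about 200 lines): types of arcs, if no three sides are equal. `Plus j j`: the arc is symmetric under a
half turn; `Minus j j` only for `w j = 1` (otherwise `2 ang = 2 π`, excluded by `Polygon.ang_ne`). Every side length
occurs at most twice, and the first side of arc `j` has the length of a side of every related arc, so there is at
most one `k ≠ j` related to `j`. If `w j ≥ 2`: at most one of `Plus j j`, `Plus j k`, `Minus j k`: two of them give three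
equal sides (compare the first side `t = 0` with `t = w - 1`), e.g. `Plus j k` and `Minus j k`:
`len (κ j) = len (κ k + (w - 1)) = len (κ k)`. (The sides `κ j + t`, `t < w j`, of all arcs are different.)
-/

open Set MeasureTheory Complex
open scoped Topology

namespace Pool.Agent.Lib_MP_fa6e45

open Pool.Agent.Lib_PL (cr InSector Poly)
variable {n : ℕ} {P : Polygon n} {m : ℕ} [NeZero m] (S : Arcs P m)

namespace Arcs

private theorem Y5_ne {j k : ZMod m} {t s : ℕ} (ht : t < S.w j) (hs : s < S.w k)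
    (h : (j, t) ≠ (k, s)) : S.κ j + (t : ZMod n) ≠ S.κ k + (s : ZMod n) := by
  intro he
  exact h ((S.index (S.κ j + (t : ZMod n))).unique ⟨ht, rfl⟩ ⟨hs, he.symm⟩)

private theorem Y5_three (hl : P.NoThreeEqual) {x y z : ZMod m × ℕ} (hx : x.2 < S.w x.1)
    (hy : y.2 < S.w y.1) (hz : z.2 < S.w z.1) (hxy : x ≠ y) (hyz : y ≠ z) (hxz : x ≠ z)
    (h1 : P.len (S.κ x.1 + (x.2 : ZMod n)) = P.len (S.κ y.1 + (y.2 : ZMod n)))
    (h2 : P.len (S.κ x.1 + (x.2 : ZMod n)) = P.len (S.κ z.1 + (z.2 : ZMod n))) : False :=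
  hl _ _ _ (Y5_ne S hx hy hxy) (Y5_ne S hy hz hyz) (Y5_ne S hx hz hxz) ⟨h1, h1.symm.trans h2⟩

private theorem Y5_first {j k : ZMod m} {b : Bool} (h : S.Rel j k b) :
    ∃ s, s < S.w k ∧ P.len (S.κ j + ((0 : ℕ) : ZMod n)) = P.len (S.κ k + (s : ZMod n)) := by
  have hw := S.w_pos j
  cases b
  · obtain ⟨h1, h2, h3⟩ := h
    exact ⟨0, h1 ▸ hw, h2 0 hw⟩
  · obtain ⟨h1, h2, h3⟩ := h
    exact ⟨S.w j - 1, by omega, h2 0 (S.w j - 1) (by omega)⟩

theorem rel_symm {j k : ZMod m} {b : Bool} (h : S.Rel j k b) : S.Rel k j b := by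
  cases b
  · obtain ⟨h1, h2, h3⟩ := h
    refine ⟨h1.symm, fun t ht => (h2 t (h1 ▸ ht)).symm, fun t ht ht' => ?_⟩
    rw [add_comm]
    exact h3 t ht (h1 ▸ ht')
  · obtain ⟨h1, h2, h3⟩ := h
    refine ⟨h1.symm, fun t s hts => (h2 s t (by omega)).symm, fun t s ht hs hts => ?_⟩
    rw [add_comm]
    exact h3 s t hs ht (by omega)

theorem rel_one {j k : ZMod m} {b : Bool} (h : S.Rel j k b) (hw : S.w j = 1) (b' : Bool) :
    S.w k = 1 ∧ S.Rel j k b' ∧ S.Rel j j b' := by
  have key : ∀ k' : ZMod m, S.w k' = 1 →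
      P.len (S.κ j + ((0 : ℕ) : ZMod n)) = P.len (S.κ k' + ((0 : ℕ) : ZMod n)) →
      S.Rel j k' b' := by
    intro k' hk' hlen
    cases b'
    · refine ⟨by rw [hw, hk'], fun t ht => ?_, fun t ht ht' => by omega⟩
      have : t = 0 := by omega
      subst this
      exact hlen
    · refine ⟨by rw [hw, hk'], fun t s hts => ?_, fun t s ht hs hts => by omega⟩
      have h1 : t = 0 := by omega
      have h2 : s = 0 := by omega
      subst h1
      subst h2
      exact hlen
  have hk : S.w k = 1 := by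
    cases b
    · obtain ⟨h1, -⟩ := h
      omega
    · obtain ⟨h1, -⟩ := h
      omega
  obtain ⟨s, hs, hlen⟩ := Y5_first S h
  have hs0 : s = 0 := by omega
  subst hs0
  exact ⟨hk, key k hk hlen, key j hw rfl⟩

theorem minus_self (j : ZMod m) (h : S.Minus j j) : S.w j = 1 := by
  by_contra hne
  have hw := S.w_pos j
  obtain ⟨-, -, h3⟩ := h
  have h4 := h3 1 (by norm_num) (by omega)
  exact P.ang_ne (S.κ j + ((1 : ℕ) : ZMod n)) (by linarith)

theorem rel_unique (hl : P.NoThreeEqual) {j k k' : ZMod m} {b b' : Bool} (h : S.Rel j k b)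
    (h' : S.Rel j k' b') (hk : k ≠ j) (hk' : k' ≠ j) : k = k' := by
  by_contra hne
  obtain ⟨s, hs, h1⟩ := Y5_first S h
  obtain ⟨s', hs', h2⟩ := Y5_first S h'
  exact Y5_three S hl (x := (j, 0)) (y := (k, s)) (z := (k', s')) (S.w_pos j) hs hs'
    (fun he => hk (congrArg Prod.fst he).symm) (fun he => hne (congrArg Prod.fst he))
    (fun he => hk' (congrArg Prod.fst he).symm) h1 h2

/-- an arc with at least two sides related to itself and to another arc -/
private theorem Y5_self (hl : P.NoThreeEqual) {j k : ZMod m} {b b' : Bool} (hw : S.w j ≠ 1)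
    (h : S.Rel j j b) (h' : S.Rel j k b') (hk : k ≠ j) : False := by
  have hw0 := S.w_pos j
  cases b
  · exact hw (S.minus_self j h)
  · obtain ⟨-, h2, -⟩ := h
    have h3 := h2 0 (S.w j - 1) (by omega)
    obtain ⟨s, hs, h4⟩ := Y5_first S h'
    refine Y5_three S hl (x := (j, 0)) (y := (j, S.w j - 1)) (z := (k, s)) hw0
      (by simp only; omega) hs (fun he => ?_) (fun he => hk (congrArg Prod.fst he).symm)
      (fun he => hk (congrArg Prod.fst he).symm) h3 h4
    have h5 := congrArg Prod.snd he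
    simp only at h5
    omega

/-- both relations between two arcs with at least two sides -/
private theorem Y5_both (hl : P.NoThreeEqual) {j k : ZMod m} (hw : S.w j ≠ 1)
    (h : S.Plus j k) (h' : S.Minus j k) : False := by
  have hw0 := S.w_pos j
  by_cases hk : k = j
  · subst hk
    exact hw (S.minus_self k h')
  · obtain ⟨h1, h2, -⟩ := h
    obtain ⟨-, h3, -⟩ := h'
    refine Y5_three S hl (x := (j, 0)) (y := (k, 0)) (z := (k, S.w j - 1)) hw0 (h1 ▸ hw0)
      (by simp only; omega) (fun he => hk (congrArg Prod.fst he).symm) (fun he => ?_)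
      (fun he => hk (congrArg Prod.fst he).symm) (h3 0 hw0) (h2 0 (S.w j - 1) (by omega))
    have h5 := congrArg Prod.snd he
    simp only at h5
    omega

theorem rel_type (hl : P.NoThreeEqual) {j k k' : ZMod m} {b b' : Bool} (hw : S.w j ≠ 1)
    (h : S.Rel j k b) (h' : S.Rel j k' b') : k = k' ∧ b = b' := by
  have hkk : k = k' := by
    by_cases hk : k = j
    · by_cases hk' : k' = j
      · rw [hk, hk']
      · subst hk
        exact (Y5_self S hl hw h h' hk').elim
    · by_cases hk' : k' = j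
      · subst hk'
        exact (Y5_self S hl hw h' h hk).elim
      · exact S.rel_unique hl h h' hk hk'
  subst hkk
  refine ⟨rfl, ?_⟩
  cases b <;> cases b'
  · rfl
  · exact (Y5_both S hl hw h' h).elim
  · exact (Y5_both S hl hw h h').elim
  · rfl

end Arcs

end Pool.Agent.Lib_MP_fa6e45
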