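import Pool.Agent.Lib_MP_fa6e45.VDefs

/-!
PIECE V2 (about 200 lines): the linear programming form of the averaging principle.
`lp`: suppose all star sums are `≥ L`. Put `f c = L * a c.2 / (2 π) - v c.2 - (cross A c + cross A (nx⁻¹ c)) / 2`:
star sums `≤ 0` (`sum`), bounded (`A`, `v` have finitely many values), and the tile sum is
`L (n - 2) / 2 - ∑ v > 0`: the terms with `A` cancel over a tile: the crossing of the corner `c` (through its exit
side) has the value `A x y`; the corner `bwd c` of the same tile has the same side as entry side, the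
previous corner is `nx⁻¹ (bwd c) = fwd (nx c)` (`flip`) and the crossing there has the value `A y x = - A x y`
(exit side of `fwd (nx c)` = entry side of `nx c`, entry side of `bwd c` = exit side of `c`); `c ↦ bwd c` permutes
the corners of the tile.
`lp6`: all degrees `≥ 3`, `n = 6`: apply `lp` to `v + M`, `L + 3 M` with `M` large: a star of degree `≥ 4` has
`∑ (v + A) + M deg ≥ (M - 4 B)(deg - 3) + 3 M ≥ L + 3 M`.
`le_six`, `star_le` are special cases (`A = 0`).
-/

open Set

namespace Pool.Agent.Lib_MP_fa6e45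

variable {n : ℕ} [NeZero n] {a l : ZMod n → ℝ} {ι : Type}

omit [NeZero n] in
private theorem V2_enS_bwd (rf : ι → Bool) (c : ι × ZMod n) : enS rf (bwd rf c) = exS rf c := by
  unfold enS bwd exS
  cases h : rf c.1 <;> simp

omit [NeZero n] in
private theorem V2_exS_fwd (rf : ι → Bool) (c : ι × ZMod n) : exS rf (fwd rf c) = enS rf c := by
  unfold enS fwd exS
  cases h : rf c.1 <;> simp

private theorem V2_cross_bwd (K : Comb n a l ι) (A : ZMod n × Bool → ZMod n × Bool → ℝ)
    (hA : ∀ x y, A y x = -A x y) (c : ι × ZMod n) :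
    K.cross A (K.nx.symm (bwd K.rf c)) = -K.cross A c := by
  have h1 : K.nx.symm (bwd K.rf c) = fwd K.rf (K.nx c) := by
    rw [← K.flip c]
    simp
  unfold Comb.cross
  rw [Equiv.apply_symm_apply, h1, V2_enS_bwd, V2_exS_fwd, ← hA]
  rfl

private theorem V2_sum_bwd (K : Comb n a l ι) (g : ι × ZMod n → ℝ) (t : ι) :
    ∑ i, g (bwd K.rf (t, i)) = ∑ i, g (t, i) := by
  unfold bwd
  cases h : K.rf t
  · simp only [h]
    exact Equiv.sum_comp (Equiv.subRight (1 : ZMod n)) (fun i => g (t, i))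
  · simp only [h]
    exact Equiv.sum_comp (Equiv.addRight (1 : ZMod n)) (fun i => g (t, i))

private theorem V2_tile (K : Comb n a l ι) (A : ZMod n × Bool → ZMod n × Bool → ℝ)
    (hA : ∀ x y, A y x = -A x y) (t : ι) :
    ∑ i, K.cross A (K.nx.symm (t, i)) = -∑ i, K.cross A (t, i) := by
  rw [← V2_sum_bwd K (fun c => K.cross A (K.nx.symm c)) t, ← Finset.sum_neg_distrib]
  exact Finset.sum_congr rfl fun i _ => V2_cross_bwd K A hA (t, i)

private theorem V2_period (K : Comb n a l ι) (c : ι × ZMod n) :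
    K.nx^[K.deg c] c = c := Function.iterate_minimalPeriod

private theorem V2_star_shift (K : Comb n a l ι) (g : ι × ZMod n → ℝ) (c : ι × ZMod n) :
    ∑ k ∈ Finset.range (K.deg c), g (K.nx.symm (K.nx^[k] c)) =
      ∑ k ∈ Finset.range (K.deg c), g (K.nx^[k] c) := by
  obtain ⟨m, hm⟩ : ∃ m, K.deg c = m + 1 := Nat.exists_eq_succ_of_ne_zero (K.deg_pos c).ne'
  rw [hm, Finset.sum_range_succ', Finset.sum_range_succ]
  congr 1
  · refine Finset.sum_congr rfl fun k _ => ?_
    rw [Function.iterate_succ_apply', Equiv.symm_apply_apply]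
  · congr 1
    rw [Function.iterate_zero_apply, Equiv.symm_apply_eq, ← Function.iterate_succ_apply' K.nx m c]
    have h := V2_period K c
    rw [hm] at h
    exact h.symm

private theorem V2_abs_le {T : Type} [Fintype T] (f : T → ℝ) (x : T) : |f x| ≤ ∑ y, |f y| :=
  Finset.single_le_sum (f := fun y => |f y|) (fun y _ => abs_nonneg (f y)) (Finset.mem_univ x)

private theorem V2_cross_le (K : Comb n a l ι) (A : ZMod n × Bool → ZMod n × Bool → ℝ)
    (c : ι × ZMod n) : |K.cross A c| ≤ ∑ p : (ZMod n × Bool) × (ZMod n × Bool), |A p.1 p.2| :=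
  V2_abs_le (fun p : (ZMod n × Bool) × (ZMod n × Bool) => A p.1 p.2)
    ((exS K.rf c, K.rf c.1), (enS K.rf (K.nx c), K.rf (K.nx c).1))

theorem CombA.lp (K : CombA n a l ι) (v : ZMod n → ℝ) (A : ZMod n × Bool → ZMod n × Bool → ℝ)
    (hA : ∀ x y, A y x = -A x y) (L : ℝ) (hv : 2 * ∑ i, v i < ((n : ℝ) - 2) * L) :
    ∃ c, ∑ k ∈ Finset.range (K.toComb.deg c),
      (v ((K.nx^[k] c).2) + K.toComb.cross A (K.nx^[k] c)) < L := by
  by_contra hcon
  push Not at hcon
  have hpi := Real.pi_pos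
  refine K.avg (fun c => L * a c.2 / (2 * Real.pi) - v c.2 -
    (K.toComb.cross A c + K.toComb.cross A (K.nx.symm c)) / 2) ?_ ?_
    (((n : ℝ) - 2) * L / 2 - ∑ i, v i) (by linarith) ?_
  · refine ⟨|L| + ∑ i, |v i| + ∑ p : (ZMod n × Bool) × (ZMod n × Bool), |A p.1 p.2|, fun c => ?_⟩
    have h1 : |L * a c.2 / (2 * Real.pi)| ≤ |L| := by
      rw [mul_div_assoc, abs_mul]
      have h2 : |a c.2 / (2 * Real.pi)| ≤ 1 := by
        rw [abs_of_pos (div_pos (K.a_pos _) (by positivity)), div_le_one (by positivity)]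
        exact (K.a_lt _).le
      calc |L| * |a c.2 / (2 * Real.pi)| ≤ |L| * 1 :=
            mul_le_mul_of_nonneg_left h2 (abs_nonneg L)
        _ = |L| := mul_one _
    have h2 : |v c.2| ≤ ∑ i, |v i| := V2_abs_le v c.2
    have h3 := V2_cross_le K.toComb A c
    have h4 := V2_cross_le K.toComb A (K.nx.symm c)
    rw [abs_le] at *
    constructor <;> linarith [h1.1, h1.2, h2.1, h2.2, h3.1, h3.2, h4.1, h4.2]
  · intro c
    have h1 := hcon c
    have h2 := K.sum c
    have h3 := V2_star_shift K.toComb (K.toComb.cross A) c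
    change ∑ k ∈ Finset.range (K.toComb.deg c), _ = _ at h2
    change ∑ k ∈ Finset.range (K.toComb.deg c), _ ≤ 0
    rw [Finset.sum_add_distrib] at h1
    rw [Finset.sum_sub_distrib, Finset.sum_sub_distrib, ← Finset.sum_div, ← Finset.sum_div,
      ← Finset.mul_sum, Finset.sum_add_distrib, h2, h3]
    have h4 : L * (2 * Real.pi) / (2 * Real.pi) = L := by field_simp
    rw [h4]
    linarith
  · intro t
    have h3 := V2_tile K.toComb A hA t
    have h5 := K.a_sum
    have h6 : ∑ i : ZMod n, (L * a i / (2 * Real.pi) - v i -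
        (K.toComb.cross A (t, i) + K.toComb.cross A (K.nx.symm (t, i))) / 2) =
        ((n : ℝ) - 2) * L / 2 - ∑ i, v i := by
      rw [Finset.sum_sub_distrib, Finset.sum_sub_distrib, ← Finset.sum_div, ← Finset.sum_div,
        ← Finset.mul_sum, Finset.sum_add_distrib, h3, h5]
      field_simp
      ring
    exact h6.ge

private theorem V2_cnt (K : Comb n a l ι) (v : ZMod n → ℝ) (c : ι × ZMod n) :
    ∑ k ∈ Finset.range (K.deg c), v ((K.nx^[k] c).2) = ∑ i, v i * (K.cnt c i : ℝ) := by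
  rw [← Finset.sum_fiberwise (Finset.range (K.deg c)) (fun k => (K.nx^[k] c).2)]
  refine Finset.sum_congr rfl fun i _ => ?_
  unfold Comb.cnt
  rw [Finset.sum_congr rfl (g := fun _ => v i), Finset.sum_const, nsmul_eq_mul, mul_comm]
  intro k hk
  rw [(Finset.mem_filter.1 hk).2]

/-- in terms of the numbers of corners -/
theorem CombA.star_le (K : CombA n a l ι) (v : ZMod n → ℤ) (L : ℤ)
    (hv : 2 * ∑ i, v i < ((n : ℤ) - 2) * L) :
    ∃ c, ∑ i, v i * (K.toComb.cnt c i : ℤ) < L := by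
  obtain ⟨c, hc⟩ := K.lp (fun i => (v i : ℝ)) (fun _ _ => 0) (by simp) (L : ℝ) (by
    exact_mod_cast hv)
  refine ⟨c, ?_⟩
  have h1 : ∀ k, K.toComb.cross (fun _ _ => 0) (K.nx^[k] c) = 0 := fun k => rfl
  simp only [h1, add_zero] at hc
  rw [V2_cnt K.toComb (fun i => (v i : ℝ)) c] at hc
  exact_mod_cast hc

theorem CombA.lp6 {a l : ZMod 6 → ℝ} (K : CombA 6 a l ι) (h3 : ∀ c, 3 ≤ K.toComb.deg c)
    (v : ZMod 6 → ℝ) (A : ZMod 6 × Bool → ZMod 6 × Bool → ℝ)
    (hA : ∀ x y, A y x = -A x y) (L : ℝ) (hv : ∑ i, v i < 2 * L) :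
    ∃ c, K.toComb.deg c = 3 ∧
      v c.2 + v (K.nx c).2 + v (K.nx (K.nx c)).2 + (K.toComb.cross A c + K.toComb.cross A (K.nx c) +
        K.toComb.cross A (K.nx (K.nx c))) < L := by
  set B : ℝ := ∑ i, |v i| + ∑ p : (ZMod 6 × Bool) × (ZMod 6 × Bool), |A p.1 p.2| with hB
  have hB0 : 0 ≤ B := by positivity
  set M : ℝ := |L| + 4 * B with hM
  have hL := le_abs_self L
  have hL0 := abs_nonneg L
  obtain ⟨c, hc⟩ := K.lp (fun i => v i + M) A hA (L + 3 * M) (by
    rw [Finset.sum_add_distrib]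
    simp only [Finset.sum_const, Finset.card_univ, ZMod.card, nsmul_eq_mul]
    push_cast
    linarith)
  refine ⟨c, ?_⟩
  have hdeg : K.toComb.deg c = 3 := by
    by_contra hne
    have h4 : 4 ≤ K.toComb.deg c := by
      have := h3 c
      omega
    have h5 : ∀ k ∈ Finset.range (K.toComb.deg c),
        M - B ≤ v ((K.nx^[k] c).2) + M + K.toComb.cross A (K.nx^[k] c) := by
      intro k _
      have h6 := V2_abs_le v (K.nx^[k] c).2
      have h7 := V2_cross_le K.toComb A (K.nx^[k] c)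
      rw [abs_le] at h6 h7
      linarith [h6.1, h7.1]
    have h8 := Finset.card_nsmul_le_sum _ _ _ h5
    rw [Finset.card_range, nsmul_eq_mul] at h8
    have h9 : (4 : ℝ) ≤ (K.toComb.deg c : ℝ) := by exact_mod_cast h4
    have h10 : 4 * (M - B) ≤ (K.toComb.deg c : ℝ) * (M - B) :=
      mul_le_mul_of_nonneg_right h9 (by linarith)
    linarith
  refine ⟨hdeg, ?_⟩
  rw [hdeg] at hc
  simp only [Finset.sum_range_succ, Finset.sum_range_zero, Function.iterate_succ_apply',
    Function.iterate_zero_apply] at hc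
  linarith

theorem CombA.le_six (K : CombA n a l ι) (h3 : ∀ c, 3 ≤ K.toComb.deg c) : n ≤ 6 := by
  by_contra hn
  have hn' : (7 : ℝ) ≤ (n : ℝ) := by
    exact_mod_cast (not_le.1 hn : 6 < n)
  obtain ⟨c, hc⟩ := K.lp (fun _ => 1) (fun _ _ => 0) (by simp) 3 (by
    simp only [Finset.sum_const, Finset.card_univ, ZMod.card, nsmul_eq_mul]
    linarith)
  have h1 : ∀ k, K.toComb.cross (fun _ _ => 0) (K.nx^[k] c) = 0 := fun k => rfl
  simp only [h1, add_zero, Finset.sum_const, Finset.card_range, nsmul_eq_mul, mul_one] at hc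
  have h2 : (3 : ℝ) ≤ (K.toComb.deg c : ℝ) := by exact_mod_cast h3 c
  linarith

private theorem V2_deg_nx (K : Comb n a l ι) (c : ι × ZMod n) : K.deg (K.nx c) = K.deg c := by
  unfold Comb.deg
  exact Function.minimalPeriod_apply (Function.minimalPeriod_pos_iff_mem_periodicPts.1 (K.deg_pos c))

/-- for `n = 6` every corner has degree 3 in some tile -/
theorem CombA.attained6 {a l : ZMod 6 → ℝ} (K : CombA 6 a l ι) (h3 : ∀ c, 3 ≤ K.toComb.deg c)
    (i : ZMod 6) : ∃ c : ι × ZMod 6, c.2 = i ∧ K.toComb.deg c = 3 := by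
  obtain ⟨c, hc, h1⟩ := K.lp6 h3 (fun j => if j = i then -1 else 0) (fun _ _ => 0) (by simp) 0 (by
    simp)
  have h2 : ∀ c, K.toComb.cross (fun _ _ => 0) c = 0 := fun c => rfl
  simp only [h2, add_zero] at h1
  by_cases ha : c.2 = i
  · exact ⟨c, ha, hc⟩
  by_cases hb : (K.nx c).2 = i
  · exact ⟨K.nx c, hb, by rw [V2_deg_nx]; exact hc⟩
  by_cases hd : (K.nx (K.nx c)).2 = i
  · exact ⟨K.nx (K.nx c), hd, by rw [V2_deg_nx, V2_deg_nx]; exact hc⟩
  simp [ha, hb, hd] at h1

/-- for `n = 5` some star has degree 3 -/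
theorem CombA.three5 {a l : ZMod 5 → ℝ} (K : CombA 5 a l ι) (h3 : ∀ c, 3 ≤ K.toComb.deg c) :
    ∃ c : ι × ZMod 5, K.toComb.deg c = 3 := by
  by_contra hcon
  push Not at hcon
  have h1 := K.count (fun _ => 4) (fun _ => by norm_num) (fun c => by
    have h2 := h3 c
    have h4 := hcon c
    change 4 ≤ K.toComb.deg c
    omega)
  simp only [Finset.sum_const, Finset.card_univ, ZMod.card, nsmul_eq_mul] at h1
  norm_num at h1

/-- a star of degree 3 is a closed 3-walk -/
theorem CombA.walk3 (K : CombA n a l ι) {cls : ZMod n → ℕ} (hl : ∀ i j, l i = l j → cls i = cls j)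
    (c : ι × ZMod n) (hc : K.toComb.deg c = 3) :
    W3 cls (c.2, K.rf c.1) ((K.nx c).2, K.rf (K.nx c).1)
      ((K.nx (K.nx c)).2, K.rf (K.nx (K.nx c)).1) ∧
    a c.2 + a (K.nx c).2 + a (K.nx (K.nx c)).2 = 2 * Real.pi := by
  have hper : K.nx (K.nx (K.nx c)) = c := by
    have h := V2_period K.toComb c
    rw [hc] at h
    exact h
  refine ⟨⟨?_, ?_, ?_⟩, ?_⟩
  · exact (hl _ _ (K.len c)).symm
  · exact (hl _ _ (K.len (K.nx c))).symm
  · have h := (hl _ _ (K.len (K.nx (K.nx c)))).symm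
    rw [hper] at h
    exact h
  · have h := K.sum c
    change ∑ k ∈ Finset.range (K.toComb.deg c), _ = _ at h
    rw [hc] at h
    simpa only [Finset.sum_range_succ, Finset.sum_range_zero, Function.iterate_succ_apply',
      Function.iterate_zero_apply, zero_add] using h

end Pool.Agent.Lib_MP_fa6e45
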