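import Pool.Agent.Lib_MP_fa6e45.Y0
import Pool.Agent.Lib_MP_fa6e45.V2

/-!
PIECE Y7 (about 300 lines): from `CombG` to the principle `WP` for walks. As in `CombA.lp` (V2):
`f c = L * a c.2 / (2 π) - v c.2 - (cross c + cross (nx⁻¹ c)) / 2`, `cross c = A (exW (c.2, rf c.1)) (enW (nx c))`; so some
star has `∑ (v + cross) < L`; start the star at a corner with minimal code; the list is the star without its first
corner; the star sums of `b`: for the crossing from `c` to `d` the contributions `- ε (exit)` or `+ σ (exit)` (reflected)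
of `c` and `+ σ (entry)` or `- ε (entry)` (reflected) of `d` cancel by `hp`, `hm`, so `∑ b = ∑ a / π = 2`. `b_sum`: every arc is
glued to some arc (`glue`), and `σ - ε` cancels over the pairs (`hu`: the partner is unique).
-/

open Set MeasureTheory Complex
open scoped Topology

namespace Pool.Agent.Lib_MP_fa6e45

open Pool.Agent.Lib_PL (cr InSector Poly)
variable {m : ℕ} [NeZero m] {a : ZMod m → ℝ} {G : ZMod m → ZMod m → Bool → Prop} {ι : Type}

/-! ### Lists along a sequence -/

private def Y7list {α : Type} (x : ℕ → α) : ℕ → ℕ → List α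
  | _, 0 => []
  | i, d + 1 => x (i + 1) :: Y7list x (i + 1) d

private theorem Y7list_length {α : Type} (x : ℕ → α) (d i : ℕ) : (Y7list x i d).length = d := by
  induction d generalizing i with
  | zero => rfl
  | succ d ih => simp [Y7list, ih]

private theorem Y7list_mem {α : Type} (x : ℕ → α) (d i : ℕ) (y : α) (hy : y ∈ Y7list x i d) :
    ∃ k, y = x k := by
  induction d generalizing i with
  | zero => simp [Y7list] at hy
  | succ d ih =>
    rw [Y7list, List.mem_cons] at hy
    rcases hy with h | h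
    · exact ⟨_, h⟩
    · exact ih _ h

private theorem Y7list_pth {α : Type} {R : α → α → Prop} (x : ℕ → α)
    (h : ∀ k, R (x k) (x (k + 1))) (d i : ℕ) : Pth R (x i) (Y7list x i d) (x (i + d + 1)) := by
  induction d generalizing i with
  | zero => exact h i
  | succ d ih =>
    refine ⟨h i, ?_⟩
    have := ih (i + 1)
    rwa [show i + 1 + d + 1 = i + (d + 1) + 1 by ring] at this

private theorem Y7list_cost {α M : Type} [AddCommMonoid M] (f : α → α → M) (x : ℕ → α) (d i : ℕ) :
    pcost f (x i) (Y7list x i d) (x (i + d + 1)) =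
      ∑ k ∈ Finset.range (d + 1), f (x (i + k)) (x (i + k + 1)) := by
  induction d generalizing i with
  | zero => simp [Y7list, pcost]
  | succ d ih =>
    have := ih (i + 1)
    rw [show i + 1 + d + 1 = i + (d + 1) + 1 by ring] at this
    change f (x i) (x (i + 1)) + pcost f (x (i + 1)) (Y7list x (i + 1) d) (x (i + (d + 1) + 1)) = _
    rw [this, Finset.sum_range_succ' (fun k => f (x (i + k)) (x (i + k + 1))) (d + 1),
      add_comm (f (x i) (x (i + 1)))]
    congr 1
    exact Finset.sum_congr rfl fun k _ => by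
      rw [show i + 1 + k = i + (k + 1) by ring]

private theorem Y7list_sum {α : Type} (g : α → ℝ) (x : ℕ → α) (d i : ℕ) :
    ((Y7list x i d).map g).sum = ∑ k ∈ Finset.range d, g (x (i + 1 + k)) := by
  induction d generalizing i with
  | zero => simp [Y7list]
  | succ d ih =>
    rw [Finset.sum_range_succ', Y7list, List.map_cons, List.sum_cons, ih, add_comm]
    congr 1
    exact Finset.sum_congr rfl fun k _ => by
      rw [show i + 1 + 1 + k = i + 1 + (k + 1) by ring]

/-! ### The averaging principle for `CombG` -/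

private def Y7fl (K : CombG m a G ι) (c : ι × ZMod m) : ZMod m × Bool := (c.2, K.rf c.1)

private def Y7cross (K : CombG m a G ι) (A : ZMod m × Bool → ZMod m × Bool → ℝ)
    (c : ι × ZMod m) : ℝ :=
  A (exW (Y7fl K c)) (enW (Y7fl K (K.nx c)))

omit [NeZero m] in
private theorem Y7_enS_bwd (rf : ι → Bool) (c : ι × ZMod m) : enS rf (bwd rf c) = exS rf c := by
  unfold enS bwd exS
  cases h : rf c.1 <;> simp

omit [NeZero m] in
private theorem Y7_exS_fwd (rf : ι → Bool) (c : ι × ZMod m) : exS rf (fwd rf c) = enS rf c := by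
  unfold enS fwd exS
  cases h : rf c.1 <;> simp

private theorem Y7_exW (K : CombG m a G ι) (c : ι × ZMod m) :
    exW (Y7fl K c) = (exS K.rf c, K.rf c.1) := rfl

private theorem Y7_enW (K : CombG m a G ι) (c : ι × ZMod m) :
    enW (Y7fl K c) = (enS K.rf c, K.rf c.1) := rfl

private theorem Y7_cross_bwd (K : CombG m a G ι) (A : ZMod m × Bool → ZMod m × Bool → ℝ)
    (hA : ∀ x y, A y x = -A x y) (c : ι × ZMod m) :
    Y7cross K A (K.nx.symm (bwd K.rf c)) = -Y7cross K A c := by
  have h1 : K.nx.symm (bwd K.rf c) = fwd K.rf (K.nx c) := by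
    rw [← K.flip c]
    simp
  unfold Y7cross
  rw [Equiv.apply_symm_apply, h1, Y7_exW, Y7_enW, Y7_exW, Y7_enW, Y7_enS_bwd, Y7_exS_fwd, ← hA]
  rfl

private theorem Y7_sum_bwd (K : CombG m a G ι) (g : ι × ZMod m → ℝ) (t : ι) :
    ∑ i, g (bwd K.rf (t, i)) = ∑ i, g (t, i) := by
  unfold bwd
  cases h : K.rf t
  · simp only [h]
    exact Equiv.sum_comp (Equiv.subRight (1 : ZMod m)) (fun i => g (t, i))
  · simp only [h]
    exact Equiv.sum_comp (Equiv.addRight (1 : ZMod m)) (fun i => g (t, i))

private theorem Y7_tile (K : CombG m a G ι) (A : ZMod m × Bool → ZMod m × Bool → ℝ)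
    (hA : ∀ x y, A y x = -A x y) (t : ι) :
    ∑ i, Y7cross K A (K.nx.symm (t, i)) = -∑ i, Y7cross K A (t, i) := by
  rw [← Y7_sum_bwd K (fun c => Y7cross K A (K.nx.symm c)) t, ← Finset.sum_neg_distrib]
  exact Finset.sum_congr rfl fun i _ => Y7_cross_bwd K A hA (t, i)

private theorem Y7_period (K : CombG m a G ι) (c : ι × ZMod m) :
    K.nx^[Function.minimalPeriod K.nx c] c = c := Function.iterate_minimalPeriod

private theorem Y7_star_shift (K : CombG m a G ι) (g : ι × ZMod m → ℝ) (c : ι × ZMod m) :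
    ∑ k ∈ Finset.range (Function.minimalPeriod K.nx c), g (K.nx^[k + 1] c) =
      ∑ k ∈ Finset.range (Function.minimalPeriod K.nx c), g (K.nx^[k] c) := by
  obtain ⟨d, hd⟩ : ∃ d, Function.minimalPeriod K.nx c = d + 1 :=
    Nat.exists_eq_succ_of_ne_zero (by have := K.deg3 c; omega)
  rw [hd, Finset.sum_range_succ, Finset.sum_range_succ' (fun k => g (K.nx^[k] c))]
  congr 1
  have h := Y7_period K c
  rw [hd] at h
  rw [h]
  rfl

private theorem Y7_star_symm (K : CombG m a G ι) (g : ι × ZMod m → ℝ) (c : ι × ZMod m) :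
    ∑ k ∈ Finset.range (Function.minimalPeriod K.nx c), g (K.nx.symm (K.nx^[k] c)) =
      ∑ k ∈ Finset.range (Function.minimalPeriod K.nx c), g (K.nx^[k] c) := by
  rw [← Y7_star_shift K (fun c => g (K.nx.symm c)) c]
  refine Finset.sum_congr rfl fun k _ => ?_
  rw [Function.iterate_succ_apply', Equiv.symm_apply_apply]

private theorem Y7_abs_le {T : Type} [Fintype T] (f : T → ℝ) (x : T) : |f x| ≤ ∑ y, |f y| :=
  Finset.single_le_sum (f := fun y => |f y|) (fun y _ => abs_nonneg (f y)) (Finset.mem_univ x)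

private theorem Y7_cross_le (K : CombG m a G ι) (A : ZMod m × Bool → ZMod m × Bool → ℝ)
    (c : ι × ZMod m) : |Y7cross K A c| ≤ ∑ p : (ZMod m × Bool) × (ZMod m × Bool), |A p.1 p.2| :=
  Y7_abs_le (fun p : (ZMod m × Bool) × (ZMod m × Bool) => A p.1 p.2)
    (exW (Y7fl K c), enW (Y7fl K (K.nx c)))

private theorem Y7_lp (K : CombG m a G ι) (v : ZMod m → ℝ) (A : ZMod m × Bool → ZMod m × Bool → ℝ)
    (hA : ∀ x y, A y x = -A x y) (L : ℝ) (hv : 2 * ∑ i, v i < ((m : ℝ) - 2) * L) :
    ∃ c, ∑ k ∈ Finset.range (Function.minimalPeriod K.nx c),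
      (v ((K.nx^[k] c).2) + Y7cross K A (K.nx^[k] c)) < L := by
  by_contra hcon
  push Not at hcon
  have hpi := Real.pi_pos
  refine K.avg (fun c => L * a c.2 / (2 * Real.pi) - v c.2 -
    (Y7cross K A c + Y7cross K A (K.nx.symm c)) / 2) ?_ ?_
    (((m : ℝ) - 2) * L / 2 - ∑ i, v i) (by linarith) ?_
  · refine ⟨|L| + ∑ i, |v i| + ∑ p : (ZMod m × Bool) × (ZMod m × Bool), |A p.1 p.2|, fun c => ?_⟩
    have h1 : |L * a c.2 / (2 * Real.pi)| ≤ |L| := by
      rw [mul_div_assoc, abs_mul]
      have h2 : |a c.2 / (2 * Real.pi)| ≤ 1 := by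
        rw [abs_of_pos (div_pos (K.a_pos _) (by positivity)), div_le_one (by positivity)]
        exact (K.a_lt _).le
      calc |L| * |a c.2 / (2 * Real.pi)| ≤ |L| * 1 :=
            mul_le_mul_of_nonneg_left h2 (abs_nonneg L)
        _ = |L| := mul_one _
    have h2 : |v c.2| ≤ ∑ i, |v i| := Y7_abs_le v c.2
    have h3 := Y7_cross_le K A c
    have h4 := Y7_cross_le K A (K.nx.symm c)
    rw [abs_le] at *
    constructor <;> linarith [h1.1, h1.2, h2.1, h2.2, h3.1, h3.2, h4.1, h4.2]
  · intro c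
    have h1 := hcon c
    have h2 := K.sum c
    have h3 := Y7_star_symm K (Y7cross K A) c
    rw [Finset.sum_add_distrib] at h1
    rw [Finset.sum_sub_distrib, Finset.sum_sub_distrib, ← Finset.sum_div, ← Finset.sum_div,
      ← Finset.mul_sum, Finset.sum_add_distrib, h2, h3]
    have h4 : L * (2 * Real.pi) / (2 * Real.pi) = L := by field_simp
    rw [h4]
    linarith
  · intro t
    have h3 := Y7_tile K A hA t
    have h5 := K.a_sum
    have h6 : ∑ i : ZMod m, (L * a i / (2 * Real.pi) - v i -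
        (Y7cross K A (t, i) + Y7cross K A (K.nx.symm (t, i))) / 2) =
        ((m : ℝ) - 2) * L / 2 - ∑ i, v i := by
      rw [Finset.sum_sub_distrib, Finset.sum_sub_distrib, ← Finset.sum_div, ← Finset.sum_div,
        ← Finset.mul_sum, Finset.sum_add_distrib, h3, h5]
      field_simp
      ring
    exact h6.ge

private theorem Y7_deg_iter (K : CombG m a G ι) (c : ι × ZMod m) (k : ℕ) :
    Function.minimalPeriod K.nx (K.nx^[k] c) = Function.minimalPeriod K.nx c := by
  refine Function.minimalPeriod_apply_iterate ?_ k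
  exact Function.minimalPeriod_pos_iff_mem_periodicPts.1 (by have := K.deg3 c; omega)

private theorem Y7_star_iter (K : CombG m a G ι) (g : ι × ZMod m → ℝ) (c : ι × ZMod m) (j : ℕ) :
    ∑ k ∈ Finset.range (Function.minimalPeriod K.nx (K.nx^[j] c)), g (K.nx^[k] (K.nx^[j] c)) =
      ∑ k ∈ Finset.range (Function.minimalPeriod K.nx c), g (K.nx^[k] c) := by
  induction j with
  | zero => rfl
  | succ j ih =>
    rw [← ih, ← Y7_star_shift K g (K.nx^[j] c), Y7_deg_iter, Y7_deg_iter]
    refine Finset.sum_congr rfl fun k _ => ?_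
    rw [Function.iterate_succ_apply', Function.iterate_succ_apply]

private theorem Y7_step (K : CombG m a G ι) (c : ι × ZMod m) :
    StepG G (Y7fl K c) (Y7fl K (K.nx c)) := K.glue c

/-- contribution of the exit side -/
private def Y7out (σ ε : ZMod m → ℝ) (y : ZMod m × Bool) : ℝ :=
  if y.2 then σ (exW y).1 else -ε (exW y).1

/-- contribution of the entry side -/
private def Y7inn (σ ε : ZMod m → ℝ) (y : ZMod m × Bool) : ℝ :=
  if y.2 then -ε (enW y).1 else σ (enW y).1

omit [NeZero m] in
private theorem Y7_b (σ ε : ZMod m → ℝ) (y : ZMod m × Bool) :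
    σ y.1 - ε (y.1 - 1) = Y7out σ ε y + Y7inn σ ε y := by
  obtain ⟨i, f⟩ := y
  cases f
  · simp only [Y7out, Y7inn, exW, enW, Bool.false_eq_true, if_false]
    ring
  · simp only [Y7out, Y7inn, exW, enW, if_true]
    ring

omit [NeZero m] in
private theorem Y7_cancel (σ ε : ZMod m → ℝ)
    (hp : ∀ j k, G j k true → σ j = ε k ∧ ε j = σ k)
    (hm : ∀ j k, G j k false → σ j = -σ k ∧ ε j = -ε k)
    (y z : ZMod m × Bool) (h : StepG G y z) : Y7out σ ε y + Y7inn σ ε z = 0 := by
  unfold StepG at h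
  obtain ⟨i, f⟩ := y
  obtain ⟨j, g⟩ := z
  cases f <;> cases g
  · have := hp _ _ h
    simp only [Y7out, Y7inn, Bool.false_eq_true, if_false]
    linarith [this.2]
  · have := hm _ _ h
    simp only [Y7out, Y7inn, Bool.false_eq_true, if_false, if_true]
    linarith [this.2]
  · have := hm _ _ h
    simp only [Y7out, Y7inn, Bool.false_eq_true, if_false, if_true]
    linarith [this.1]
  · have := hp _ _ h
    simp only [Y7out, Y7inn, if_true]
    linarith [this.1]

theorem CombG.wp (K : CombG m a G ι) (σ ε : ZMod m → ℝ)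
    (hp : ∀ j k, G j k true → σ j = ε k ∧ ε j = σ k)
    (hm : ∀ j k, G j k false → σ j = -σ k ∧ ε j = -ε k) :
    WP (fun j => a j / Real.pi) (fun j => a j / Real.pi + σ j - ε (j - 1)) G := by
  intro v A hA L hv
  have hpi := Real.pi_pos
  obtain ⟨c₀, hc₀⟩ := Y7_lp K (fun i => (v i : ℝ)) (fun x y => (A x y : ℝ))
    (fun x y => by rw [hA x y]; push_cast; ring) (L : ℝ) (by exact_mod_cast hv)
  -- the first corner with minimal code
  set f : ℕ → ℕ := fun k => code (Y7fl K (K.nx^[k] c₀)) with hf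
  set k₀ : ℕ := Function.argmin f with hk₀
  have hmin : ∀ k, f k₀ ≤ f k := fun k => Function.argmin_le f k
  set c := K.nx^[k₀] c₀ with hc
  have hsum : ∀ g : ι × ZMod m → ℝ,
      ∑ k ∈ Finset.range (Function.minimalPeriod K.nx c), g (K.nx^[k] c) =
      ∑ k ∈ Finset.range (Function.minimalPeriod K.nx c₀), g (K.nx^[k] c₀) :=
    fun g => Y7_star_iter K g c₀ k₀
  have h0 : ∑ k ∈ Finset.range (Function.minimalPeriod K.nx c),
      ((v ((K.nx^[k] c).2) : ℝ) + Y7cross K (fun x y => (A x y : ℝ)) (K.nx^[k] c)) < L := by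
    rw [hsum fun d => (v d.2 : ℝ) + Y7cross K (fun x y => (A x y : ℝ)) d]
    exact hc₀
  obtain ⟨d, hd⟩ : ∃ d, Function.minimalPeriod K.nx c = d + 1 :=
    Nat.exists_eq_succ_of_ne_zero (by have := K.deg3 c; omega)
  have hd3 := K.deg3 c
  have hper := Y7_period K c
  have ha := K.sum c
  have hbs : ∑ k ∈ Finset.range (Function.minimalPeriod K.nx c),
      (Y7out σ ε (Y7fl K (K.nx^[k] c)) + Y7inn σ ε (Y7fl K (K.nx^[k] c))) = 0 := by
    rw [Finset.sum_add_distrib, ← Y7_star_shift K (fun c => Y7inn σ ε (Y7fl K c)) c,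
      ← Finset.sum_add_distrib]
    refine Finset.sum_eq_zero fun k _ => ?_
    rw [Function.iterate_succ_apply']
    exact Y7_cancel σ ε hp hm _ _ (Y7_step K _)
  rw [hd] at h0 ha hbs hper hd3
  set x : ℕ → ZMod m × Bool := fun k => Y7fl K (K.nx^[k] c) with hx
  have hxe : x (0 + d + 1) = x 0 := by
    simp only [hx, zero_add]
    rw [hper]
    rfl
  have hstep : ∀ k, StepG G (x k) (x (k + 1)) := fun k => by
    simp only [hx]
    rw [Function.iterate_succ_apply']
    exact Y7_step K _
  have hlist : ∀ g : ZMod m × Bool → ℝ,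
      g (x 0) + ((Y7list x 0 d).map g).sum = ∑ k ∈ Finset.range (d + 1), g (x k) := by
    intro g
    rw [Y7list_sum, Finset.sum_range_succ', add_comm]
    congr 1
    exact Finset.sum_congr rfl fun k _ => by rw [show 0 + 1 + k = k + 1 by ring]
  refine ⟨x 0, Y7list x 0 d, ?_, ?_, ?_, ?_, ?_, ?_⟩
  · intro y hy
    obtain ⟨k, rfl⟩ := Y7list_mem x d 0 y hy
    have h1 := hmin (k + k₀)
    simp only [hf] at h1
    rw [Function.iterate_add_apply] at h1
    exact h1
  · have := Y7list_pth x hstep d 0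
    rwa [hxe] at this
  · rw [Y7list_length]
    omega
  · rw [hlist fun y => a y.1 / Real.pi, ← Finset.sum_div]
    change (∑ k ∈ Finset.range (d + 1), a (K.nx^[k] c).2) / Real.pi = 2
    rw [ha]
    field_simp
  · rw [hlist fun y => a y.1 / Real.pi + σ y.1 - ε (y.1 - 1)]
    have h1 : ∀ k, a (x k).1 / Real.pi + σ (x k).1 - ε ((x k).1 - 1) =
        a (x k).1 / Real.pi + (Y7out σ ε (x k) + Y7inn σ ε (x k)) := fun k => by
      rw [← Y7_b]
      ring
    simp only [h1]
    rw [Finset.sum_add_distrib, ← Finset.sum_div]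
    change (∑ k ∈ Finset.range (d + 1), a (K.nx^[k] c).2) / Real.pi +
      ∑ k ∈ Finset.range (d + 1),
      (Y7out σ ε (Y7fl K (K.nx^[k] c)) + Y7inn σ ε (Y7fl K (K.nx^[k] c))) = 2
    rw [ha, hbs]
    field_simp
    norm_num
  · have h1 := Y7list_cost (stepCost v A) x d 0
    rw [hxe] at h1
    rw [h1]
    have h2 : ((∑ k ∈ Finset.range (d + 1), stepCost v A (x (0 + k)) (x (0 + k + 1)) : ℤ) : ℝ) <
        (L : ℝ) := by
      push_cast
      refine lt_of_eq_of_lt (Finset.sum_congr rfl fun k _ => ?_) h0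
      rw [zero_add]
      simp only [hx]
      rw [Function.iterate_succ_apply']
      unfold stepCost
      push_cast
      rfl
    exact_mod_cast h2

theorem CombG.glued (K : CombG m a G ι) (j : ZMod m) : ∃ k b, G j k b := by
  have hne : Nonempty ι := by
    by_contra h
    rw [not_nonempty_iff] at h
    exact K.avg (fun _ => 0) ⟨0, fun c => by simp⟩ (fun c => by simp) 1 one_pos (fun t => h.elim t)
  obtain ⟨t⟩ := hne
  cases h : K.rf t
  · have h1 := K.glue (t, j + 1)
    have h2 : exS K.rf (t, j + 1) = j := by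
      unfold exS
      simp [h]
    rw [h2] at h1
    exact ⟨_, _, h1⟩
  · have h1 := K.glue (t, j)
    have h2 : exS K.rf (t, j) = j := by
      unfold exS
      simp [h]
    rw [h2] at h1
    exact ⟨_, _, h1⟩

theorem CombG.b_sum (K : CombG m a G ι) (σ ε : ZMod m → ℝ)
    (hp : ∀ j k, G j k true → σ j = ε k ∧ ε j = σ k)
    (hm : ∀ j k, G j k false → σ j = -σ k ∧ ε j = -ε k)
    (hs : ∀ j k b, G j k b → G k j b)
    (hu : ∀ j k k' b b', G j k b → G j k' b' → k ≠ j → k' ≠ j → k = k') :
    ∑ j, (a j / Real.pi + σ j - ε (j - 1)) = (m : ℝ) - 2 := by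
  classical
  have hpi := Real.pi_pos
  have hneg : ∀ j k b, G j k b → σ j - ε j + (σ k - ε k) = 0 := by
    intro j k b h
    cases b
    · have := hm j k h
      linarith [this.1, this.2]
    · have := hp j k h
      linarith [this.1, this.2]
  have hz : ∑ j, (σ j - ε j) = 0 := by
    let p : ZMod m → ZMod m := fun j =>
      if h : ∃ k b, G j k b ∧ k ≠ j then h.choose else j
    have hpp : ∀ j, (∃ b, G j (p j) b ∧ p j ≠ j) ∨ (p j = j ∧ ¬ ∃ k b, G j k b ∧ k ≠ j) := by
      intro j
      by_cases h : ∃ k b, G j k b ∧ k ≠ j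
      · left
        have : p j = h.choose := dif_pos h
        rw [this]
        exact h.choose_spec
      · right
        exact ⟨dif_neg h, h⟩
    have hsum : ∀ j, σ j - ε j + (σ (p j) - ε (p j)) = 0 := by
      intro j
      rcases hpp j with ⟨b, h1, _⟩ | ⟨h1, h2⟩
      · exact hneg j (p j) b h1
      · rw [h1]
        obtain ⟨k, b, hk⟩ := K.glued j
        have : k = j := by
          by_contra hne
          exact h2 ⟨k, b, hk, hne⟩
        rw [this] at hk
        exact hneg j j b hk
    have hinv : ∀ j, p (p j) = j := by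
      intro j
      rcases hpp j with ⟨b, h1, h2⟩ | ⟨h1, h2⟩
      · have h3 := hs _ _ _ h1
        rcases hpp (p j) with ⟨b', h4, h5⟩ | ⟨h4, h5⟩
        · exact (hu _ _ _ _ _ h3 h4 (Ne.symm h2) h5).symm
        · exact absurd ⟨j, b, h3, Ne.symm h2⟩ h5
      · rw [h1, h1]
    refine Finset.sum_involution (fun j _ => p j) (fun j _ => hsum j) (fun j _ hj hj' => hj ?_)
      (fun j _ => Finset.mem_univ _) (fun j _ => hinv j)
    have h1 := hsum j
    have h2 : p j = j := hj'
    rw [h2] at h1
    linarith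
  have hshift : ∑ j, ε (j - 1) = ∑ j, ε j := Equiv.sum_comp (Equiv.subRight (1 : ZMod m)) ε
  rw [Finset.sum_sub_distrib, Finset.sum_add_distrib, hshift, ← Finset.sum_div, K.a_sum]
  rw [Finset.sum_sub_distrib] at hz
  have : ((m : ℝ) - 2) * Real.pi / Real.pi = (m : ℝ) - 2 := by field_simp
  rw [this]
  linarith

end Pool.Agent.Lib_MP_fa6e45
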