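import Pool.Agent.Lib_MP_fa6e45.X1a
import Pool.Agent.Lib_MP_fa6e45.Y5
import Pool.Agent.Lib_MP_fa6e45.Y7

/-!
MP_fa6e45_co, constant status: chord angles for every system of arcs (no assumption on equal lengths), and the sum of
the chord angles for every combinatorial tiling. `Gen g j k`: arcs `j` and `k` are connected by a chain of gluing
relations with product `g` in the group `{1, r, m, r m}` (`r`: reversal, `m`: mirror image).
-/

open Set MeasureTheory Complex
open scoped Topology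

namespace Pool.Agent.Lib_MP_fa6e45

open Pool.Agent.Lib_PL (cr InSector Poly)

set_option linter.unusedSimpArgs false

section chord

variable {n : ℕ} {P : Polygon n} {m : ℕ} [NeZero m] (S : Arcs P m)

/-- the first side of arc `j` divided by the chord -/
private noncomputable def CA6F (j : ZMod m) : ℂ :=
  (P.vertex (S.κ j + 1) - P.vertex (S.κ j)) / S.ch j

/-- the last side of arc `j` divided by the chord -/
private noncomputable def CA6G (j : ZMod m) : ℂ :=
  (P.vertex (S.κ (j + 1)) - P.vertex (S.κ (j + 1) - 1)) / S.ch j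

private theorem CA6_cast {j k : ZMod m} (hw : S.w j = S.w k) :
    S.κ k + ((S.w j : ℕ) : ZMod n) = S.κ (k + 1) ∧
    S.κ k + ((S.w j - 1 : ℕ) : ZMod n) = S.κ (k + 1) - 1 := by
  have h1 := S.step k
  have h2 := S.w_pos j
  constructor
  · rw [h1, hw]
  · rw [h1, hw, Nat.cast_sub (hw ▸ h2), Nat.cast_one, add_sub_assoc]

private theorem CA6_plus (hm : 2 ≤ m) {j k : ZMod m} (h : S.Plus j k) : CA6F S j = CA6G S k := by
  have hj := S.ch_ne hm j
  have hk := S.ch_ne hm k
  have hnj : ‖S.ch j‖ ≠ 0 := norm_ne_zero_iff.2 hj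
  have ha : ‖-S.ch j / S.ch k‖ = 1 := by
    rw [norm_div, norm_neg, ← S.norm_plus h, div_self hnj]
  have h1 : -S.ch j / S.ch k * S.V (k + 1) + (S.V j - -S.ch j / S.ch k * S.V (k + 1)) = S.V j := by
    ring
  have h2 : -S.ch j / S.ch k * S.V k + (S.V j - -S.ch j / S.ch k * S.V (k + 1)) = S.V (j + 1) := by
    have e : -S.ch j / S.ch k * S.V k + (S.V j - -S.ch j / S.ch k * S.V (k + 1)) =
        S.V j + S.ch j / S.ch k * (S.V (k + 1) - S.V k) := by ring
    rw [e]
    change S.V j + S.ch j / S.ch k * S.ch k = _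
    rw [div_mul_cancel₀ _ hk]
    unfold Arcs.ch
    ring
  have hw := S.w_pos j
  obtain ⟨c1, c2⟩ := CA6_cast S h.1
  have e0 := S.lift_plus hm h ha h1 h2 0 (S.w j) (by omega)
  have e1 := S.lift_plus hm h ha h1 h2 1 (S.w j - 1) (by omega)
  rw [c1, Nat.cast_zero, add_zero] at e0
  rw [c2, Nat.cast_one] at e1
  unfold CA6F CA6G
  rw [← e0, ← e1, div_eq_div_iff hj hk]
  have e : (-S.ch j / S.ch k * P.vertex (S.κ (k + 1) - 1) +
      (S.V j - -S.ch j / S.ch k * S.V (k + 1)) -
      (-S.ch j / S.ch k * P.vertex (S.κ (k + 1)) +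
      (S.V j - -S.ch j / S.ch k * S.V (k + 1)))) * S.ch k =
      (S.ch j / S.ch k * S.ch k) * (P.vertex (S.κ (k + 1)) - P.vertex (S.κ (k + 1) - 1)) := by
    ring
  rw [e, div_mul_cancel₀ _ hk, mul_comm]

private theorem CA6_minus (hm : 2 ≤ m) {j k : ZMod m} (h : S.Minus j k) :
    CA6F S j = (starRingEnd ℂ) (CA6F S k) ∧ CA6G S j = (starRingEnd ℂ) (CA6G S k) := by
  have hj := S.ch_ne hm j
  have hk := S.ch_ne hm k
  have hck : (starRingEnd ℂ) (S.ch k) ≠ 0 := by
    rw [Ne, map_eq_zero]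
    exact hk
  have hnj : ‖S.ch j‖ ≠ 0 := norm_ne_zero_iff.2 hj
  set a : ℂ := S.ch j / (starRingEnd ℂ) (S.ch k) with ha_def
  have ha : ‖a‖ = 1 := by
    rw [ha_def, norm_div, RCLike.norm_conj, ← S.norm_minus h, div_self hnj]
  have hac : a * (starRingEnd ℂ) (S.ch k) = S.ch j := div_mul_cancel₀ _ hck
  set b : ℂ := S.V j - a * (starRingEnd ℂ) (S.V k) with hb
  have h1 : a * (starRingEnd ℂ) (S.V k) + b = S.V j := by
    rw [hb]; ring
  have h2 : a * (starRingEnd ℂ) (S.V (k + 1)) + b = S.V (j + 1) := by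
    have h3 : a * ((starRingEnd ℂ) (S.V (k + 1)) - (starRingEnd ℂ) (S.V k)) = S.ch j := by
      rw [← map_sub]
      exact hac
    have h4 : S.V (j + 1) = S.ch j + S.V j := by
      unfold Arcs.ch
      ring
    rw [h4, hb]
    linear_combination h3
  have hw := S.w_pos j
  obtain ⟨c1, c2⟩ := CA6_cast S h.1
  obtain ⟨d1, d2⟩ := CA6_cast S (rfl : S.w j = S.w j)
  have e0 := S.lift_minus hm h ha h1 h2 0 (by omega)
  have e1 := S.lift_minus hm h ha h1 h2 1 (by omega)
  have e2 := S.lift_minus hm h ha h1 h2 (S.w j) le_rfl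
  have e3 := S.lift_minus hm h ha h1 h2 (S.w j - 1) (by omega)
  rw [Nat.cast_zero, add_zero, add_zero] at e0
  rw [Nat.cast_one] at e1
  rw [c1, d1] at e2
  rw [c2, d2] at e3
  constructor
  · unfold CA6F
    rw [map_div₀, div_eq_div_iff hj hck, ← e0, ← e1, ← hac, map_sub]
    ring
  · unfold CA6G
    rw [map_div₀, div_eq_div_iff hj hck, ← e2, ← e3, ← hac, map_sub]
    ring

private theorem CA6_one (hm : 2 ≤ m) {j : ZMod m} (h : S.w j = 1) :
    CA6F S j = 1 ∧ CA6G S j = 1 := by
  have hj := S.ch_ne hm j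
  have h1 := S.step j
  rw [h, Nat.cast_one] at h1
  unfold CA6F CA6G
  rw [h1, add_sub_cancel_right]
  have e : P.vertex (S.κ j + 1) - P.vertex (S.κ j) = S.ch j := by
    unfold Arcs.ch Arcs.V
    rw [h1]
  rw [e]
  exact ⟨div_self hj, div_self hj⟩


/-! ### chains of gluing relations -/

/-- chains of gluing relations -/
private inductive CA6Gen : Bool × Bool → ZMod m → ZMod m → Prop
  | refl (j : ZMod m) : CA6Gen (false, false) j j
  | plus {g : Bool × Bool} {j k l : ZMod m} : CA6Gen g j k → S.Plus k l → CA6Gen (!g.1, g.2) j l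
  | minus {g : Bool × Bool} {j k l : ZMod m} : CA6Gen g j k → S.Minus k l → CA6Gen (g.1, !g.2) j l

private def CA6x (g h : Bool × Bool) : Bool × Bool := (xor g.1 h.1, xor g.2 h.2)

private theorem CA6_trans {g h : Bool × Bool} {j k l : ZMod m} (h1 : CA6Gen S g j k)
    (h2 : CA6Gen S h k l) : CA6Gen S (CA6x g h) j l := by
  induction h2 with
  | refl k =>
    have e : CA6x g (false, false) = g := by
      unfold CA6x
      simp
    rw [e]
    exact h1
  | @plus h k l l' h3 h4 ih =>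
    have e : CA6x g (!h.1, h.2) = (!(CA6x g h).1, (CA6x g h).2) := by
      unfold CA6x
      simp
    rw [e]
    exact (ih h1).plus h4
  | @minus h k l l' h3 h4 ih =>
    have e : CA6x g (h.1, !h.2) = ((CA6x g h).1, !(CA6x g h).2) := by
      unfold CA6x
      simp
    rw [e]
    exact (ih h1).minus h4

private theorem CA6_symm {g : Bool × Bool} {j k : ZMod m} (h1 : CA6Gen S g j k) :
    CA6Gen S g k j := by
  induction h1 with
  | refl j => exact CA6Gen.refl j
  | @plus g j k l h3 h4 ih =>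
    have h5 : S.Plus l k := S.rel_symm (b := true) h4
    have h6 := CA6_trans S ((CA6Gen.refl l).plus h5) ih
    have e : CA6x (!(false, false).1, (false, false).2) g = (!g.1, g.2) := by
      unfold CA6x
      simp
    rw [e] at h6
    exact h6
  | @minus g j k l h3 h4 ih =>
    have h5 : S.Minus l k := S.rel_symm (b := false) h4
    have h6 := CA6_trans S ((CA6Gen.refl l).minus h5) ih
    have e : CA6x ((false, false).1, !(false, false).2) g = (g.1, !g.2) := by
      unfold CA6x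
      simp
    rw [e] at h6
    exact h6

/-- the relation of the numbers of sides and of the angles -/
private theorem CA6_shape {g : Bool × Bool} {j k : ZMod m} (h1 : CA6Gen S g j k) :
    S.w j = S.w k ∧ ∀ t : ℕ, 0 < t → t < S.w j → P.ang (S.κ j + (t : ZMod n)) =
      if xor g.1 g.2 then 2 * Real.pi - P.ang (S.κ k + ((if g.1 then S.w j - t else t : ℕ) : ZMod n))
      else P.ang (S.κ k + ((if g.1 then S.w j - t else t : ℕ) : ZMod n)) := by
  induction h1 with
  | refl j =>
    refine ⟨rfl, fun t _ _ => ?_⟩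
    simp
  | @plus g j k l h3 h4 ih =>
    obtain ⟨w1, a1⟩ := ih
    refine ⟨w1.trans h4.1, fun t ht ht2 => ?_⟩
    have h5 := a1 t ht ht2
    obtain ⟨g1, g2⟩ := g
    cases g1
    · have h6 := h4.2.2 t (S.w j - t) ht (by omega) (by omega)
      cases g2
      · simp only [Bool.not_false, Bool.xor_false, if_true, Bool.false_eq_true, if_false] at h5 ⊢
        linarith
      · simp only [Bool.not_false, Bool.xor_true, Bool.false_xor, if_true, Bool.false_eq_true, if_false, Bool.not_true] at h5 ⊢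
        linarith
    · have h6 := h4.2.2 (S.w j - t) t (by omega) ht (by omega)
      cases g2
      · simp only [Bool.not_true, Bool.xor_false, if_true, Bool.false_eq_true, if_false] at h5 ⊢
        linarith
      · simp only [Bool.not_true, Bool.xor_true, if_true, Bool.false_eq_true, if_false, Bool.not_false] at h5 ⊢
        linarith
  | @minus g j k l h3 h4 ih =>
    obtain ⟨w1, a1⟩ := ih
    refine ⟨w1.trans h4.1, fun t ht ht2 => ?_⟩
    have h5 := a1 t ht ht2
    obtain ⟨g1, g2⟩ := g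
    cases g1
    · have h6 := h4.2.2 t ht (by omega)
      cases g2
      · simp only [Bool.not_false, Bool.xor_false, Bool.xor_true, Bool.false_xor, if_true, Bool.false_eq_true, if_false] at h5 ⊢
        linarith
      · simp only [Bool.not_true, Bool.xor_true, Bool.xor_false, Bool.not_false, if_true, Bool.false_eq_true, if_false] at h5 ⊢
        linarith
    · have h6 := h4.2.2 (S.w j - t) (by omega) (by omega)
      cases g2
      · simp only [Bool.not_false, Bool.xor_false, Bool.xor_true, Bool.not_true, if_true, Bool.false_eq_true, if_false] at h5 ⊢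
        linarith
      · simp only [Bool.not_true, Bool.xor_true, Bool.xor_false, Bool.not_false, if_true, Bool.false_eq_true, if_false] at h5 ⊢
        linarith

/-- an arc with a chain of product `m` to itself is a single side -/
private theorem CA6_one_of {j : ZMod m} (h1 : CA6Gen S (false, true) j j) : S.w j = 1 := by
  by_contra hw
  have h2 := S.w_pos j
  have h3 := (CA6_shape S h1).2 1 one_pos (by omega)
  simp only [Bool.false_xor, if_true, Bool.false_eq_true, if_false] at h3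
  exact P.ang_ne _ (by linarith)

/-- action on pairs of complex numbers -/
private noncomputable def CA6c (g : Bool × Bool) (x : ℂ × ℂ) : ℂ × ℂ :=
  let y := if g.1 then (x.2, x.1) else x
  if g.2 then ((starRingEnd ℂ) y.1, (starRingEnd ℂ) y.2) else y

/-- action on pairs of real numbers -/
private def CA6r (g : Bool × Bool) (x : ℝ × ℝ) : ℝ × ℝ :=
  let y := if g.1 then (x.2, x.1) else x
  if g.2 then (-y.1, -y.2) else y

private theorem CA6r_comp (g h : Bool × Bool) (x : ℝ × ℝ) : CA6r g (CA6r h x) = CA6r (CA6x g h) x := by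
  obtain ⟨g1, g2⟩ := g
  obtain ⟨h1, h2⟩ := h
  obtain ⟨x1, x2⟩ := x
  cases g1 <;> cases g2 <;> cases h1 <;> cases h2 <;> simp [CA6r, CA6x]

private theorem CA6c_comp (g h : Bool × Bool) (x : ℂ × ℂ) : CA6c g (CA6c h x) = CA6c (CA6x g h) x := by
  obtain ⟨g1, g2⟩ := g
  obtain ⟨h1, h2⟩ := h
  obtain ⟨x1, x2⟩ := x
  cases g1 <;> cases g2 <;> cases h1 <;> cases h2 <;> simp [CA6c, CA6x]

/-- first and last side in units of the chord along a chain -/
private theorem CA6_FG (hm : 2 ≤ m) {g : Bool × Bool} {j k : ZMod m} (h1 : CA6Gen S g j k) :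
    (CA6F S j, CA6G S j) = CA6c g (CA6F S k, CA6G S k) := by
  induction h1 with
  | refl j => simp [CA6c]
  | @plus g j k l h3 h4 ih =>
    have h5 : S.Plus l k := S.rel_symm (b := true) h4
    have e1 := CA6_plus S hm h4
    have e2 := CA6_plus S hm h5
    rw [ih, e1, ← e2]
    obtain ⟨g1, g2⟩ := g
    cases g1 <;> cases g2 <;> simp [CA6c]
  | @minus g j k l h3 h4 ih =>
    obtain ⟨e1, e2⟩ := CA6_minus S hm h4
    rw [ih, e1, e2]
    obtain ⟨g1, g2⟩ := g
    cases g1 <;> cases g2 <;> simp [CA6c]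

/-! ### the choice of the arguments -/

open Classical in
/-- arguments (in units of `π`) for a representative of a class -/
private noncomputable def CA6v0 (p : ZMod m) : ℝ × ℝ :=
  if S.w p = 1 then (0, 0)
  else if CA6Gen S (true, false) p p then (arg (CA6F S p) / Real.pi, arg (CA6F S p) / Real.pi)
  else if CA6Gen S (true, true) p p then (arg (CA6F S p) / Real.pi, -(arg (CA6F S p) / Real.pi))
  else (arg (CA6F S p) / Real.pi, arg (CA6G S p) / Real.pi)

private theorem CA6v0_inv (g : Bool × Bool) (p : ZMod m) (h : CA6Gen S g p p) :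
    CA6r g (CA6v0 S p) = CA6v0 S p := by
  classical
  obtain ⟨g1, g2⟩ := g
  unfold CA6v0
  split_ifs with c1 c2 c3
  · cases g1 <;> cases g2 <;> simp [CA6r]
  · cases g1 <;> cases g2
    · simp [CA6r]
    · exact absurd (CA6_one_of S h) c1
    · simp [CA6r]
    · exact absurd (CA6_one_of S (by simpa [CA6x] using CA6_trans S h c2)) c1
  · cases g1 <;> cases g2
    · simp [CA6r]
    · exact absurd (CA6_one_of S h) c1
    · exact absurd h c2
    · simp [CA6r]
  · cases g1 <;> cases g2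
    · simp [CA6r]
    · exact absurd (CA6_one_of S h) c1
    · exact absurd h c2
    · exact absurd h c3

/-- `x` are arguments of `z` in units of `π` -/
private def CA6E (z : ℂ × ℂ) (x : ℝ × ℝ) : Prop :=
  z.1 = ((‖z.1‖ : ℝ) : ℂ) * exp (((Real.pi * x.1 : ℝ) : ℂ) * Complex.I) ∧
  z.2 = ((‖z.2‖ : ℝ) : ℂ) * exp (((Real.pi * x.2 : ℝ) : ℂ) * Complex.I)

private theorem CA6_arg (z : ℂ) :
    z = ((‖z‖ : ℝ) : ℂ) * exp (((Real.pi * (arg z / Real.pi) : ℝ) : ℂ) * Complex.I) := by
  have hpi : Real.pi ≠ 0 := Real.pi_ne_zero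
  have h3 : Real.pi * (arg z / Real.pi) = arg z := by
    field_simp
  rw [h3]
  exact (Complex.norm_mul_exp_arg_mul_I z).symm

private theorem CA6_conjE {z : ℂ} {x : ℝ}
    (h : z = ((‖z‖ : ℝ) : ℂ) * exp (((Real.pi * x : ℝ) : ℂ) * Complex.I)) :
    (starRingEnd ℂ) z = ((‖(starRingEnd ℂ) z‖ : ℝ) : ℂ) *
      exp (((Real.pi * -x : ℝ) : ℂ) * Complex.I) := by
  rw [RCLike.norm_conj]
  conv_lhs => rw [h]
  rw [map_mul, Complex.conj_ofReal, ← Complex.exp_conj, map_mul, Complex.conj_ofReal,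
    Complex.conj_I]
  congr 2
  push_cast
  ring

private theorem CA6E_act (g : Bool × Bool) {z : ℂ × ℂ} {x : ℝ × ℝ} (h : CA6E z x) :
    CA6E (CA6c g z) (CA6r g x) := by
  obtain ⟨g1, g2⟩ := g
  obtain ⟨z1, z2⟩ := z
  obtain ⟨x1, x2⟩ := x
  obtain ⟨h1, h2⟩ := h
  cases g1 <;> cases g2
  · exact ⟨h1, h2⟩
  · exact ⟨CA6_conjE h1, CA6_conjE h2⟩
  · exact ⟨h2, h1⟩
  · exact ⟨CA6_conjE h2, CA6_conjE h1⟩

private theorem CA6v0_exp (hm : 2 ≤ m) (p : ZMod m) :
    CA6E (CA6F S p, CA6G S p) (CA6v0 S p) := by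
  classical
  unfold CA6v0
  split_ifs with c1 c2 c3
  · obtain ⟨h1, h2⟩ := CA6_one S hm c1
    rw [h1, h2]
    constructor <;> simp
  · have h := CA6_FG S hm c2
    simp only [CA6c, if_true, Bool.false_eq_true, if_false, Prod.mk.injEq] at h
    refine ⟨CA6_arg _, ?_⟩
    rw [← h.1]
    exact CA6_arg _
  · have h := CA6_FG S hm c3
    simp only [CA6c, if_true, Prod.mk.injEq] at h
    refine ⟨CA6_arg _, ?_⟩
    rw [h.2]
    exact CA6_conjE (CA6_arg _)
  · exact ⟨CA6_arg _, CA6_arg _⟩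

/-- the setoid of the classes -/
private def CA6set : Setoid (ZMod m) where
  r j k := ∃ g, CA6Gen S g j k
  iseqv := ⟨fun j => ⟨_, CA6Gen.refl j⟩, fun ⟨g, h⟩ => ⟨g, CA6_symm S h⟩,
    fun ⟨_, h⟩ ⟨_, h'⟩ => ⟨_, CA6_trans S h h'⟩⟩

/-- the representative -/
private noncomputable def CA6p (j : ZMod m) : ZMod m := (Quotient.mk (CA6set S) j).out

private theorem CA6p_rel (j : ZMod m) : ∃ g, CA6Gen S g j (CA6p S j) := by
  have h : (CA6set S).r (CA6p S j) j := Quotient.exact (Quotient.out_eq (Quotient.mk (CA6set S) j))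
  obtain ⟨g, hg⟩ := h
  exact ⟨g, CA6_symm S hg⟩

private theorem CA6p_eq {g : Bool × Bool} {j k : ZMod m} (h : CA6Gen S g j k) :
    CA6p S j = CA6p S k := by
  unfold CA6p
  have h1 : Quotient.mk (CA6set S) j = Quotient.mk (CA6set S) k := Quotient.sound ⟨g, h⟩
  rw [h1]

/-- the arguments -/
private noncomputable def CA6v (j : ZMod m) : ℝ × ℝ :=
  CA6r (CA6p_rel S j).choose (CA6v0 S (CA6p S j))

private theorem CA6v_rel {g : Bool × Bool} {j k : ZMod m} (h : CA6Gen S g j k) :
    CA6v S j = CA6r g (CA6v S k) := by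
  have hj := (CA6p_rel S j).choose_spec
  have hk := (CA6p_rel S k).choose_spec
  have hp := CA6p_eq S h
  unfold CA6v
  set gj := (CA6p_rel S j).choose
  set gk := (CA6p_rel S k).choose
  rw [hp] at hj ⊢
  have h1 := CA6v0_inv S _ _ (CA6_trans S (CA6_symm S hj) (CA6_trans S h hk))
  conv_lhs => rw [← h1]
  rw [CA6r_comp, CA6r_comp]
  congr 1
  obtain ⟨a1, a2⟩ := gj
  obtain ⟨b1, b2⟩ := gk
  obtain ⟨c1, c2⟩ := g
  cases a1 <;> cases a2 <;> cases b1 <;> cases b2 <;> cases c1 <;> cases c2 <;> rfl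

private theorem CA6v_exp (hm : 2 ≤ m) (j : ZMod m) :
    CA6E (CA6F S j, CA6G S j) (CA6v S j) := by
  have hj := (CA6p_rel S j).choose_spec
  rw [CA6_FG S hm hj]
  exact CA6E_act _ (CA6v0_exp S hm _)

private theorem CA6_ratio {z w : ℂ} {r θ : ℝ} (hr : 0 ≤ r) (hw : w ≠ 0)
    (h : z = w * (r : ℂ) * exp ((θ : ℂ) * Complex.I)) :
    z = w * ((‖z‖ / ‖w‖ : ℝ) : ℂ) * exp ((θ : ℂ) * Complex.I) := by
  have h1 : ‖z‖ = ‖w‖ * r := by
    rw [h, norm_mul, norm_mul, Complex.norm_exp_ofReal_mul_I, mul_one, Complex.norm_real,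
      Real.norm_of_nonneg hr]
  have h2 : ‖w‖ ≠ 0 := norm_ne_zero_iff.2 hw
  have h3 : ‖z‖ / ‖w‖ = r := by
    rw [h1, mul_div_cancel_left₀ _ h2]
  rw [h3]
  exact h

/-- chord angles for every system of arcs -/
theorem Arcs.chord_anglesG (hm : 2 ≤ m) :
    ∃ σ ε : ZMod m → ℝ, (∀ j k, S.Plus j k → σ j = ε k ∧ ε j = σ k) ∧
      (∀ j k, S.Minus j k → σ j = -σ k ∧ ε j = -ε k) ∧
      S.ChordAng fun j => P.ang (S.κ j) / Real.pi + σ j - ε (j - 1) := by
  refine ⟨fun j => (CA6v S j).1, fun j => (CA6v S j).2, ?_, ?_, ?_⟩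
  · intro j k h
    have h1 := CA6v_rel S ((CA6Gen.refl j).plus h)
    change (CA6v S j).1 = (CA6v S k).2 ∧ (CA6v S j).2 = (CA6v S k).1
    rw [h1]
    simp [CA6r]
  · intro j k h
    have h1 := CA6v_rel S ((CA6Gen.refl j).minus h)
    change (CA6v S j).1 = -(CA6v S k).1 ∧ (CA6v S j).2 = -(CA6v S k).2
    rw [h1]
    simp [CA6r]
  · intro j
    have hj := S.ch_ne hm j
    have hj' := S.ch_ne hm (j - 1)
    have eF := (CA6v_exp S hm j).1
    have eG := (CA6v_exp S hm (j - 1)).2
    simp only at eF eG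
    beta_reduce
    have hst := P.side_turn (S.κ j)
    have hFne : CA6F S j ≠ 0 := by
      unfold CA6F
      refine div_ne_zero ?_ hj
      intro h0
      have h1 := P.len_pos (S.κ j)
      unfold Polygon.len at h1
      rw [dist_comm, dist_eq_norm, h0, norm_zero] at h1
      exact lt_irrefl _ h1
    have hFn : ((‖CA6F S j‖ : ℝ) : ℂ) ≠ 0 := by
      exact_mod_cast norm_ne_zero_iff.2 hFne
    set σ := (CA6v S j).1 with hσ
    set ε := (CA6v S (j - 1)).2 with hε
    set ρ : ℝ := P.len (S.κ j) / P.len (S.κ j - 1) with hρ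
    have hρ0 : 0 ≤ ρ := div_nonneg (P.len_pos _).le (P.len_pos _).le
    -- the two sides at the corner `κ j`
    have e1 : P.vertex (S.κ j + 1) - P.vertex (S.κ j) = S.ch j * CA6F S j := by
      unfold CA6F
      rw [mul_div_cancel₀ _ hj]
    have e2 : P.vertex (S.κ j) - P.vertex (S.κ j - 1) = S.ch (j - 1) * CA6G S (j - 1) := by
      unfold CA6G
      rw [mul_div_cancel₀ _ hj', sub_add_cancel]
    rw [e1, e2, eF, eG] at hst
    have hE : exp (((Real.pi * σ : ℝ) : ℂ) * Complex.I) ≠ 0 := Complex.exp_ne_zero _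
    refine CA6_ratio (r := ‖CA6G S (j - 1)‖ * ρ / ‖CA6F S j‖)
      (div_nonneg (mul_nonneg (norm_nonneg _) hρ0) (norm_nonneg _)) hj' ?_
    have hexp : exp (((Real.pi * (1 - (P.ang (S.κ j) / Real.pi + σ - ε)) : ℝ) : ℂ) * Complex.I) *
        exp (((Real.pi * σ : ℝ) : ℂ) * Complex.I) =
        exp (((Real.pi * ε : ℝ) : ℂ) * Complex.I) *
        exp ((((Real.pi - P.ang (S.κ j) : ℝ)) : ℂ) * Complex.I) := by
      rw [← Complex.exp_add, ← Complex.exp_add]
      congr 1
      have h1 : Real.pi * (1 - (P.ang (S.κ j) / Real.pi + σ - ε)) =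
          Real.pi - P.ang (S.κ j) - Real.pi * σ + Real.pi * ε := by
        have hpi : Real.pi ≠ 0 := Real.pi_ne_zero
        field_simp
        ring
      rw [h1]
      push_cast
      ring
    apply mul_right_cancel₀ (mul_ne_zero hFn hE)
    rw [hst]
    push_cast
    have h3 : S.ch (j - 1) * (((‖CA6G S (j - 1)‖ : ℝ) : ℂ) * (ρ : ℂ) / ((‖CA6F S j‖ : ℝ) : ℂ)) *
        exp (((Real.pi * (1 - (P.ang (S.κ j) / Real.pi + σ - ε)) : ℝ) : ℂ) * Complex.I) *
        (((‖CA6F S j‖ : ℝ) : ℂ) * exp (((Real.pi * σ : ℝ) : ℂ) * Complex.I)) =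
        S.ch (j - 1) * ((‖CA6G S (j - 1)‖ : ℝ) : ℂ) * (ρ : ℂ) *
        (exp (((Real.pi * (1 - (P.ang (S.κ j) / Real.pi + σ - ε)) : ℝ) : ℂ) * Complex.I) *
        exp (((Real.pi * σ : ℝ) : ℂ) * Complex.I)) := by
      field_simp
    push_cast at h3 hexp
    rw [h3, hexp]
    ring

end chord

section sums

variable {m : ℕ} [NeZero m] {a : ZMod m → ℝ} {G : ZMod m → ZMod m → Bool → Prop} {ι : Type}

omit [NeZero m] in
private theorem CA6_tile (rf : ι → Bool) [Fintype (ZMod m)] (τ : ZMod m → ℝ) (t : ι) :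
    ∑ i, (τ (exS rf (t, i)) + τ (enS rf (t, i))) / 2 = ∑ i, τ i := by
  have h1 : ∑ i : ZMod m, τ (i - 1) = ∑ i, τ i :=
    Equiv.sum_comp (Equiv.subRight (1 : ZMod m)) τ
  rw [← Finset.sum_div, Finset.sum_add_distrib]
  unfold exS enS
  cases h : rf t
  · simp only [h, Bool.false_eq_true, if_false, h1]
    ring
  · simp only [h, if_true, h1]
    ring

/-- the sum of `σ - ε` over the arcs vanishes -/
private theorem CA6_zero (K : CombG m a G ι) (τ : ZMod m → ℝ)
    (h : ∀ j k b, G j k b → τ j + τ k = 0) : ∑ j, τ j = 0 := by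
  have key : ∀ τ : ZMod m → ℝ, (∀ j k b, G j k b → τ j + τ k = 0) → ¬ 0 < ∑ j, τ j := by
    intro τ h hpos
    refine K.avg (fun c => (τ (exS K.rf c) + τ (enS K.rf c)) / 2)
      ⟨∑ j, |τ j|, fun c => ?_⟩ (fun c => ?_) _ hpos (fun t => ?_)
    · have h1 : ∀ j, |τ j| ≤ ∑ j, |τ j| := fun j =>
        Finset.single_le_sum (f := fun j => |τ j|) (fun y _ => abs_nonneg _) (Finset.mem_univ j)
      have h2 := h1 (exS K.rf c)
      have h3 := h1 (enS K.rf c)
      rw [abs_le] at *
      constructor <;> linarith [h2.1, h2.2, h3.1, h3.2]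
    · have hper : K.nx^[Function.minimalPeriod K.nx c] c = c := Function.iterate_minimalPeriod
      have hs : ∑ k ∈ Finset.range (Function.minimalPeriod K.nx c), τ (enS K.rf (K.nx^[k + 1] c)) =
          ∑ k ∈ Finset.range (Function.minimalPeriod K.nx c), τ (enS K.rf (K.nx^[k] c)) := by
        obtain ⟨d, hd⟩ : ∃ d, Function.minimalPeriod K.nx c = d + 1 :=
          Nat.exists_eq_succ_of_ne_zero (by have := K.deg3 c; omega)
        rw [hd] at hper ⊢
        rw [Finset.sum_range_succ, Finset.sum_range_succ' (fun k => τ (enS K.rf (K.nx^[k] c))), hper]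
        rfl
      have h4 : ∑ k ∈ Finset.range (Function.minimalPeriod K.nx c),
          (τ (exS K.rf (K.nx^[k] c)) + τ (enS K.rf (K.nx^[k] c))) / 2 =
          ∑ k ∈ Finset.range (Function.minimalPeriod K.nx c),
          (τ (exS K.rf (K.nx^[k] c)) + τ (enS K.rf (K.nx^[k + 1] c))) / 2 := by
        rw [← Finset.sum_div, ← Finset.sum_div, Finset.sum_add_distrib, Finset.sum_add_distrib, hs]
      rw [h4]
      refine le_of_eq (Finset.sum_eq_zero fun k _ => ?_)
      have h5 := h _ _ _ (K.glue (K.nx^[k] c))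
      rw [Function.iterate_succ_apply']
      linarith
    · exact (CA6_tile K.rf τ t).ge
  have h1 := key τ h
  have h2 := key (fun j => -τ j) (fun j k b hg => by have := h j k b hg; linarith)
  rw [Finset.sum_neg_distrib] at h2
  linarith

/-- the sum of the chord angles -/
theorem CombG.b_sumG (K : CombG m a G ι) (σ ε : ZMod m → ℝ)
    (hp : ∀ j k, G j k true → σ j = ε k ∧ ε j = σ k)
    (hm : ∀ j k, G j k false → σ j = -σ k ∧ ε j = -ε k) :
    ∑ j, (a j / Real.pi + σ j - ε (j - 1)) = (m : ℝ) - 2 := by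
  have hpi := Real.pi_pos
  have hz := CA6_zero K (fun j => σ j - ε j) (fun j k b h => by
    cases b
    · have := hm j k h
      linarith [this.1, this.2]
    · have := hp j k h
      linarith [this.1, this.2])
  rw [Finset.sum_sub_distrib] at hz
  have h1 : ∑ j : ZMod m, ε (j - 1) = ∑ j, ε j :=
    Equiv.sum_comp (Equiv.subRight (1 : ZMod m)) ε
  rw [Finset.sum_sub_distrib, Finset.sum_add_distrib, ← Finset.sum_div, K.a_sum, h1]
  have h2 : ((m : ℝ) - 2) * Real.pi / Real.pi = (m : ℝ) - 2 := by field_simp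
  rw [h2]
  linarith

end sums

end Pool.Agent.Lib_MP_fa6e45
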