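import Pool.Agent.Lib_MP_fa6e45.Y0
import Pool.Agent.Lib_MP_fa6e45.V2

/-!
MP_fa6e45_co, constant status: the gap principle. `Gd` is a list of good stars (cyclic words, closed under rotations)
such that no tile can have all its corners in good stars (`noTB`, a check of the partners of the sides around a tile);
then for `2 ∑ v ≤ (m - 2) L` there is a star of cost `< L`, or a star which is not good of cost `≤ L`.
-/

open Set MeasureTheory Complex
open scoped Topology

namespace Pool.Agent.Lib_MP_fa6e45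

open Pool.Agent.Lib_PL (cr InSector Poly)

set_option linter.unusedSimpArgs false

/-! ### good stars -/

/-- rotation of a cyclic word -/
def rotW {α : Type} : List α → List α
  | [] => []
  | x :: l => l ++ [x]

/-- the list is closed under rotations -/
def rotB {m : ℕ} (Gd : List (List (ZMod m × Bool))) : Bool :=
  Gd.all fun w => Gd.any fun w' => w' == rotW w

/-- corners of the good words with the partner of the entry side and the partner of the exit side (from the first
three letters) -/
def triW {m : ℕ} (Gd : List (List (ZMod m × Bool))) :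
    List ((ZMod m × Bool) × (ZMod m × Bool) × (ZMod m × Bool)) :=
  Gd.filterMap fun w => match w with
    | x :: y :: z :: _ => some (y, exW x, enW z)
    | _ => none

/-- pairs (partner of side `i - 1`, partner of side `i`) at corner `i` -/
def relW {m : ℕ} (Gd : List (List (ZMod m × Bool))) (f : Bool) (i : ZMod m) :
    List ((ZMod m × Bool) × (ZMod m × Bool)) :=
  (triW Gd).filterMap fun t =>
    if t.1 = (i, f) then some (if f then (t.2.1, t.2.2) else (t.2.2, t.2.1)) else none

/-- composition -/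
def cmpW {α : Type} [DecidableEq α] (l l' : List (α × α)) : List (α × α) :=
  l.flatMap fun p => l'.filterMap fun q => if p.2 = q.1 then some (p.1, q.2) else none

/-- all corners of a tile around: pairs (partner of side `0`, partner of side `k`) -/
def chW {m : ℕ} (Gd : List (List (ZMod m × Bool))) (f : Bool) : ℕ →
    List ((ZMod m × Bool) × (ZMod m × Bool))
  | 0 => relW Gd f 1
  | k + 1 => cmpW (chW Gd f k) (relW Gd f ((k + 2 : ℕ) : ZMod m))

/-- no tile has all its corners in good stars -/
def noTB {m : ℕ} (Gd : List (List (ZMod m × Bool))) (f : Bool) : Bool :=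
  (chW Gd f (m - 1)).all fun p => !(p.1 == p.2)

/-- the gap principle for walks -/
def WPG {m : ℕ} [NeZero m] (Gd : List (List (ZMod m × Bool))) (a b : ZMod m → ℝ)
    (G : ZMod m → ZMod m → Bool → Prop) : Prop :=
  ∀ (v : ZMod m → ℤ) (A : ZMod m × Bool → ZMod m × Bool → ℤ), (∀ x y, A y x = -A x y) →
    ∀ L : ℤ, 2 * ∑ i, v i ≤ ((m : ℤ) - 2) * L →
      ∃ (c : ZMod m × Bool) (l : List (ZMod m × Bool)), (∀ x ∈ l, code c ≤ code x) ∧
        Pth (StepG G) c l c ∧ 2 ≤ l.length ∧ a c.1 + (l.map fun x => a x.1).sum = 2 ∧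
        b c.1 + (l.map fun x => b x.1).sum = 2 ∧
        (pcost (stepCost v A) c l c < L ∨ (c :: l ∉ Gd ∧ pcost (stepCost v A) c l c ≤ L))

variable {m : ℕ} [NeZero m] {a : ZMod m → ℝ} {G : ZMod m → ZMod m → Bool → Prop} {ι : Type}

/-! ### Lists along a sequence -/

private def CA7list {α : Type} (x : ℕ → α) : ℕ → ℕ → List α
  | _, 0 => []
  | i, d + 1 => x (i + 1) :: CA7list x (i + 1) d

private theorem CA7list_length {α : Type} (x : ℕ → α) (d i : ℕ) : (CA7list x i d).length = d := by
  induction d generalizing i with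
  | zero => rfl
  | succ d ih => simp [CA7list, ih]

private theorem CA7list_mem {α : Type} (x : ℕ → α) (d i : ℕ) (y : α) (hy : y ∈ CA7list x i d) :
    ∃ k, y = x k := by
  induction d generalizing i with
  | zero => simp [CA7list] at hy
  | succ d ih =>
    rw [CA7list, List.mem_cons] at hy
    rcases hy with h | h
    · exact ⟨_, h⟩
    · exact ih _ h

private theorem CA7list_pth {α : Type} {R : α → α → Prop} (x : ℕ → α)
    (h : ∀ k, R (x k) (x (k + 1))) (d i : ℕ) : Pth R (x i) (CA7list x i d) (x (i + d + 1)) := by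
  induction d generalizing i with
  | zero => exact h i
  | succ d ih =>
    refine ⟨h i, ?_⟩
    have := ih (i + 1)
    rwa [show i + 1 + d + 1 = i + (d + 1) + 1 by ring] at this

private theorem CA7list_cost {α M : Type} [AddCommMonoid M] (f : α → α → M) (x : ℕ → α) (d i : ℕ) :
    pcost f (x i) (CA7list x i d) (x (i + d + 1)) =
      ∑ k ∈ Finset.range (d + 1), f (x (i + k)) (x (i + k + 1)) := by
  induction d generalizing i with
  | zero => simp [CA7list, pcost]
  | succ d ih =>
    have := ih (i + 1)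
    rw [show i + 1 + d + 1 = i + (d + 1) + 1 by ring] at this
    change f (x i) (x (i + 1)) + pcost f (x (i + 1)) (CA7list x (i + 1) d) (x (i + (d + 1) + 1)) = _
    rw [this, Finset.sum_range_succ' (fun k => f (x (i + k)) (x (i + k + 1))) (d + 1),
      add_comm (f (x i) (x (i + 1)))]
    congr 1
    exact Finset.sum_congr rfl fun k _ => by
      rw [show i + 1 + k = i + (k + 1) by ring]

private theorem CA7list_sum {α : Type} (g : α → ℝ) (x : ℕ → α) (d i : ℕ) :
    ((CA7list x i d).map g).sum = ∑ k ∈ Finset.range d, g (x (i + 1 + k)) := by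
  induction d generalizing i with
  | zero => simp [CA7list]
  | succ d ih =>
    rw [Finset.sum_range_succ', CA7list, List.map_cons, List.sum_cons, ih, add_comm]
    congr 1
    exact Finset.sum_congr rfl fun k _ => by
      rw [show i + 1 + 1 + k = i + 1 + (k + 1) by ring]

/-! ### The averaging principle for `CombG` -/

private def CA7fl (K : CombG m a G ι) (c : ι × ZMod m) : ZMod m × Bool := (c.2, K.rf c.1)

private def CA7cross (K : CombG m a G ι) (A : ZMod m × Bool → ZMod m × Bool → ℝ)
    (c : ι × ZMod m) : ℝ :=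
  A (exW (CA7fl K c)) (enW (CA7fl K (K.nx c)))

omit [NeZero m] in
private theorem CA7_enS_bwd (rf : ι → Bool) (c : ι × ZMod m) : enS rf (bwd rf c) = exS rf c := by
  unfold enS bwd exS
  cases h : rf c.1 <;> simp

omit [NeZero m] in
private theorem CA7_exS_fwd (rf : ι → Bool) (c : ι × ZMod m) : exS rf (fwd rf c) = enS rf c := by
  unfold enS fwd exS
  cases h : rf c.1 <;> simp

private theorem CA7_exW (K : CombG m a G ι) (c : ι × ZMod m) :
    exW (CA7fl K c) = (exS K.rf c, K.rf c.1) := rfl

private theorem CA7_enW (K : CombG m a G ι) (c : ι × ZMod m) :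
    enW (CA7fl K c) = (enS K.rf c, K.rf c.1) := rfl

private theorem CA7_cross_bwd (K : CombG m a G ι) (A : ZMod m × Bool → ZMod m × Bool → ℝ)
    (hA : ∀ x y, A y x = -A x y) (c : ι × ZMod m) :
    CA7cross K A (K.nx.symm (bwd K.rf c)) = -CA7cross K A c := by
  have h1 : K.nx.symm (bwd K.rf c) = fwd K.rf (K.nx c) := by
    rw [← K.flip c]
    simp
  unfold CA7cross
  rw [Equiv.apply_symm_apply, h1, CA7_exW, CA7_enW, CA7_exW, CA7_enW, CA7_enS_bwd, CA7_exS_fwd, ← hA]
  rfl

private theorem CA7_sum_bwd (K : CombG m a G ι) (g : ι × ZMod m → ℝ) (t : ι) :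
    ∑ i, g (bwd K.rf (t, i)) = ∑ i, g (t, i) := by
  unfold bwd
  cases h : K.rf t
  · simp only [h]
    exact Equiv.sum_comp (Equiv.subRight (1 : ZMod m)) (fun i => g (t, i))
  · simp only [h]
    exact Equiv.sum_comp (Equiv.addRight (1 : ZMod m)) (fun i => g (t, i))

private theorem CA7_tile (K : CombG m a G ι) (A : ZMod m × Bool → ZMod m × Bool → ℝ)
    (hA : ∀ x y, A y x = -A x y) (t : ι) :
    ∑ i, CA7cross K A (K.nx.symm (t, i)) = -∑ i, CA7cross K A (t, i) := by
  rw [← CA7_sum_bwd K (fun c => CA7cross K A (K.nx.symm c)) t, ← Finset.sum_neg_distrib]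
  exact Finset.sum_congr rfl fun i _ => CA7_cross_bwd K A hA (t, i)

private theorem CA7_period (K : CombG m a G ι) (c : ι × ZMod m) :
    K.nx^[Function.minimalPeriod K.nx c] c = c := Function.iterate_minimalPeriod

private theorem CA7_star_shift (K : CombG m a G ι) (g : ι × ZMod m → ℝ) (c : ι × ZMod m) :
    ∑ k ∈ Finset.range (Function.minimalPeriod K.nx c), g (K.nx^[k + 1] c) =
      ∑ k ∈ Finset.range (Function.minimalPeriod K.nx c), g (K.nx^[k] c) := by
  obtain ⟨d, hd⟩ : ∃ d, Function.minimalPeriod K.nx c = d + 1 :=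
    Nat.exists_eq_succ_of_ne_zero (by have := K.deg3 c; omega)
  rw [hd, Finset.sum_range_succ, Finset.sum_range_succ' (fun k => g (K.nx^[k] c))]
  congr 1
  have h := CA7_period K c
  rw [hd] at h
  rw [h]
  rfl

private theorem CA7_star_symm (K : CombG m a G ι) (g : ι × ZMod m → ℝ) (c : ι × ZMod m) :
    ∑ k ∈ Finset.range (Function.minimalPeriod K.nx c), g (K.nx.symm (K.nx^[k] c)) =
      ∑ k ∈ Finset.range (Function.minimalPeriod K.nx c), g (K.nx^[k] c) := by
  rw [← CA7_star_shift K (fun c => g (K.nx.symm c)) c]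
  refine Finset.sum_congr rfl fun k _ => ?_
  rw [Function.iterate_succ_apply', Equiv.symm_apply_apply]

private theorem CA7_abs_le {T : Type} [Fintype T] (f : T → ℝ) (x : T) : |f x| ≤ ∑ y, |f y| :=
  Finset.single_le_sum (f := fun y => |f y|) (fun y _ => abs_nonneg (f y)) (Finset.mem_univ x)

private theorem CA7_cross_le (K : CombG m a G ι) (A : ZMod m × Bool → ZMod m × Bool → ℝ)
    (c : ι × ZMod m) : |CA7cross K A c| ≤ ∑ p : (ZMod m × Bool) × (ZMod m × Bool), |A p.1 p.2| :=
  CA7_abs_le (fun p : (ZMod m × Bool) × (ZMod m × Bool) => A p.1 p.2)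
    (exW (CA7fl K c), enW (CA7fl K (K.nx c)))

private theorem CA7_lpG (K : CombG m a G ι) (Bad : ι × ZMod m → Prop)
    (hBi : ∀ c k, Bad (K.nx^[k] c) ↔ Bad c) (hBt : ∀ t, ∃ i, Bad (t, i)) (v : ZMod m → ℝ)
    (A : ZMod m × Bool → ZMod m × Bool → ℝ)
    (hA : ∀ x y, A y x = -A x y) (L : ℝ) (hv : 2 * ∑ i, v i ≤ ((m : ℝ) - 2) * L) :
    ∃ c, ∑ k ∈ Finset.range (Function.minimalPeriod K.nx c),
      (v ((K.nx^[k] c).2) + CA7cross K A (K.nx^[k] c)) < L ∨
      (Bad c ∧ ∑ k ∈ Finset.range (Function.minimalPeriod K.nx c),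
      (v ((K.nx^[k] c).2) + CA7cross K A (K.nx^[k] c)) < L + 1) := by
  classical
  by_contra hcon
  push Not at hcon
  have hpi := Real.pi_pos
  -- a bound for the degrees
  obtain ⟨D, hD0, hD⟩ : ∃ D : ℝ, 0 < D ∧ ∀ c, (Function.minimalPeriod K.nx c : ℝ) ≤ D := by
    obtain ⟨i0, -, hi0⟩ := Finset.exists_min_image Finset.univ a ⟨0, Finset.mem_univ _⟩
    have h0 := K.a_pos i0
    refine ⟨2 * Real.pi / a i0, by positivity, fun c => ?_⟩
    rw [le_div_iff₀ h0, ← K.sum c]
    calc (Function.minimalPeriod K.nx c : ℝ) * a i0 =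
        ∑ _k ∈ Finset.range (Function.minimalPeriod K.nx c), a i0 := by
          rw [Finset.sum_const, Finset.card_range, nsmul_eq_mul]
      _ ≤ _ := Finset.sum_le_sum fun k _ => hi0 _ (Finset.mem_univ _)
  set bad : ι × ZMod m → ℝ := fun c => if Bad c then 1 else 0 with hbad
  have hb0 : ∀ c, 0 ≤ bad c := fun c => by
    simp only [hbad]
    split_ifs <;> norm_num
  have hb1 : ∀ c, bad c ≤ 1 := fun c => by
    simp only [hbad]
    split_ifs <;> norm_num
  refine K.avg (fun c => L * a c.2 / (2 * Real.pi) - v c.2 -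
    (CA7cross K A c + CA7cross K A (K.nx.symm c)) / 2 + bad c / D) ?_ ?_
    (1 / D) (by positivity) ?_
  · refine ⟨|L| + ∑ i, |v i| + ∑ p : (ZMod m × Bool) × (ZMod m × Bool), |A p.1 p.2| + 1 / D,
      fun c => ?_⟩
    have h1 : |L * a c.2 / (2 * Real.pi)| ≤ |L| := by
      rw [mul_div_assoc, abs_mul]
      have h2 : |a c.2 / (2 * Real.pi)| ≤ 1 := by
        rw [abs_of_pos (div_pos (K.a_pos _) (by positivity)), div_le_one (by positivity)]
        exact (K.a_lt _).le
      calc |L| * |a c.2 / (2 * Real.pi)| ≤ |L| * 1 :=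
            mul_le_mul_of_nonneg_left h2 (abs_nonneg L)
        _ = |L| := mul_one _
    have h2 : |v c.2| ≤ ∑ i, |v i| := CA7_abs_le v c.2
    have h3 := CA7_cross_le K A c
    have h4 := CA7_cross_le K A (K.nx.symm c)
    have h5 : 0 ≤ bad c / D := div_nonneg (hb0 c) hD0.le
    have h6 : bad c / D ≤ 1 / D := div_le_div_of_nonneg_right (hb1 c) hD0.le
    rw [abs_le] at *
    constructor <;> linarith [h1.1, h1.2, h2.1, h2.2, h3.1, h3.2, h4.1, h4.2]
  · intro c
    obtain ⟨h1, h1'⟩ := hcon c
    have h2 := K.sum c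
    have h3 := CA7_star_symm K (CA7cross K A) c
    have hbs : ∑ k ∈ Finset.range (Function.minimalPeriod K.nx c), bad (K.nx^[k] c) / D =
        (Function.minimalPeriod K.nx c : ℝ) * bad c / D := by
      have h4 : ∀ k ∈ Finset.range (Function.minimalPeriod K.nx c),
          bad (K.nx^[k] c) / D = bad c / D := fun k _ => by
        simp only [hbad, hBi c k]
      rw [Finset.sum_congr rfl h4, Finset.sum_const, Finset.card_range, nsmul_eq_mul]
      ring
    have h5 : (Function.minimalPeriod K.nx c : ℝ) * bad c / D ≤ bad c := by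
      rw [div_le_iff₀ hD0, mul_comm]
      exact mul_le_mul_of_nonneg_left (hD c) (hb0 c)
    have h6 : L + bad c ≤ ∑ k ∈ Finset.range (Function.minimalPeriod K.nx c),
        (v ((K.nx^[k] c).2) + CA7cross K A (K.nx^[k] c)) := by
      by_cases hB : Bad c
      · have : bad c = 1 := if_pos hB
        rw [this]
        exact h1' hB
      · have : bad c = 0 := if_neg hB
        rw [this, add_zero]
        exact h1
    rw [Finset.sum_add_distrib] at h6
    rw [Finset.sum_add_distrib, hbs, Finset.sum_sub_distrib, Finset.sum_sub_distrib,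
      ← Finset.sum_div, ← Finset.sum_div, ← Finset.mul_sum, Finset.sum_add_distrib, h2, h3]
    have h4 : L * (2 * Real.pi) / (2 * Real.pi) = L := by field_simp
    rw [h4]
    linarith
  · intro t
    have h3 := CA7_tile K A hA t
    have h5 := K.a_sum
    have h6 : ∑ i : ZMod m, (L * a i / (2 * Real.pi) - v i -
        (CA7cross K A (t, i) + CA7cross K A (K.nx.symm (t, i))) / 2) =
        ((m : ℝ) - 2) * L / 2 - ∑ i, v i := by
      rw [Finset.sum_sub_distrib, Finset.sum_sub_distrib, ← Finset.sum_div, ← Finset.sum_div,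
        ← Finset.mul_sum, Finset.sum_add_distrib, h3, h5]
      field_simp
      ring
    obtain ⟨i0, hi0⟩ := hBt t
    have h7 : 1 / D ≤ ∑ i : ZMod m, bad (t, i) / D := by
      have h8 : bad (t, i0) = 1 := if_pos hi0
      calc 1 / D = bad (t, i0) / D := by rw [h8]
        _ ≤ _ := Finset.single_le_sum (f := fun i => bad (t, i) / D)
          (fun i _ => div_nonneg (hb0 _) hD0.le) (Finset.mem_univ i0)
    have h9 : ∑ i : ZMod m, (L * a i / (2 * Real.pi) - v i -
        (CA7cross K A (t, i) + CA7cross K A (K.nx.symm (t, i))) / 2 + bad (t, i) / D) =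
        (((m : ℝ) - 2) * L / 2 - ∑ i, v i) + ∑ i : ZMod m, bad (t, i) / D := by
      rw [Finset.sum_add_distrib, h6]
    change 1 / D ≤ ∑ i : ZMod m, (L * a i / (2 * Real.pi) - v i -
        (CA7cross K A (t, i) + CA7cross K A (K.nx.symm (t, i))) / 2 + bad (t, i) / D)
    rw [h9]
    linarith

private theorem CA7_deg_iter (K : CombG m a G ι) (c : ι × ZMod m) (k : ℕ) :
    Function.minimalPeriod K.nx (K.nx^[k] c) = Function.minimalPeriod K.nx c := by
  refine Function.minimalPeriod_apply_iterate ?_ k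
  exact Function.minimalPeriod_pos_iff_mem_periodicPts.1 (by have := K.deg3 c; omega)

private theorem CA7_star_iter (K : CombG m a G ι) (g : ι × ZMod m → ℝ) (c : ι × ZMod m) (j : ℕ) :
    ∑ k ∈ Finset.range (Function.minimalPeriod K.nx (K.nx^[j] c)), g (K.nx^[k] (K.nx^[j] c)) =
      ∑ k ∈ Finset.range (Function.minimalPeriod K.nx c), g (K.nx^[k] c) := by
  induction j with
  | zero => rfl
  | succ j ih =>
    rw [← ih, ← CA7_star_shift K g (K.nx^[j] c), CA7_deg_iter, CA7_deg_iter]
    refine Finset.sum_congr rfl fun k _ => ?_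
    rw [Function.iterate_succ_apply', Function.iterate_succ_apply]

private theorem CA7_step (K : CombG m a G ι) (c : ι × ZMod m) :
    StepG G (CA7fl K c) (CA7fl K (K.nx c)) := K.glue c

/-- contribution of the exit side -/
private def CA7out (σ ε : ZMod m → ℝ) (y : ZMod m × Bool) : ℝ :=
  if y.2 then σ (exW y).1 else -ε (exW y).1

/-- contribution of the entry side -/
private def CA7inn (σ ε : ZMod m → ℝ) (y : ZMod m × Bool) : ℝ :=
  if y.2 then -ε (enW y).1 else σ (enW y).1

omit [NeZero m] in
private theorem CA7_b (σ ε : ZMod m → ℝ) (y : ZMod m × Bool) :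
    σ y.1 - ε (y.1 - 1) = CA7out σ ε y + CA7inn σ ε y := by
  obtain ⟨i, f⟩ := y
  cases f
  · simp only [CA7out, CA7inn, exW, enW, Bool.false_eq_true, if_false]
    ring
  · simp only [CA7out, CA7inn, exW, enW, if_true]
    ring

omit [NeZero m] in
private theorem CA7_cancel (σ ε : ZMod m → ℝ)
    (hp : ∀ j k, G j k true → σ j = ε k ∧ ε j = σ k)
    (hm : ∀ j k, G j k false → σ j = -σ k ∧ ε j = -ε k)
    (y z : ZMod m × Bool) (h : StepG G y z) : CA7out σ ε y + CA7inn σ ε z = 0 := by
  unfold StepG at h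
  obtain ⟨i, f⟩ := y
  obtain ⟨j, g⟩ := z
  cases f <;> cases g
  · have := hp _ _ h
    simp only [CA7out, CA7inn, Bool.false_eq_true, if_false]
    linarith [this.2]
  · have := hm _ _ h
    simp only [CA7out, CA7inn, Bool.false_eq_true, if_false, if_true]
    linarith [this.2]
  · have := hm _ _ h
    simp only [CA7out, CA7inn, Bool.false_eq_true, if_false, if_true]
    linarith [this.1]
  · have := hp _ _ h
    simp only [CA7out, CA7inn, if_true]
    linarith [this.1]

/-! ### words of stars -/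

private noncomputable def CA7word (K : CombG m a G ι) (c : ι × ZMod m) : List (ZMod m × Bool) :=
  (List.range (Function.minimalPeriod K.nx c)).map fun k => CA7fl K (K.nx^[k] c)

private theorem CA7list_eq {α : Type} (x : ℕ → α) (d i : ℕ) :
    CA7list x i d = (List.range d).map fun k => x (i + 1 + k) := by
  induction d generalizing i with
  | zero => rfl
  | succ d ih =>
    rw [CA7list, ih, List.range_succ_eq_map, List.map_cons, List.map_map]
    congr 1
    refine List.map_congr_left fun k _ => ?_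
    change x (i + 1 + 1 + k) = x (i + 1 + (k + 1))
    rw [show i + 1 + 1 + k = i + 1 + (k + 1) by ring]

private theorem CA7_word_nx (K : CombG m a G ι) (c : ι × ZMod m) :
    CA7word K (K.nx c) = rotW (CA7word K c) := by
  obtain ⟨d, hd⟩ : ∃ d, Function.minimalPeriod K.nx c = d + 1 :=
    Nat.exists_eq_succ_of_ne_zero (by have := K.deg3 c; omega)
  have hd' : Function.minimalPeriod K.nx (K.nx c) = d + 1 := by
    rw [← hd]
    exact CA7_deg_iter K c 1
  have hper := CA7_period K c
  rw [hd] at hper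
  unfold CA7word
  rw [hd, hd']
  conv_rhs => rw [List.range_succ_eq_map, List.map_cons, List.map_map]
  conv_lhs => rw [List.range_succ, List.map_append]
  unfold rotW
  congr 1
  change [CA7fl K (K.nx^[d] (K.nx c))] = [CA7fl K (K.nx^[0] c)]
  have h1 : K.nx^[d] (K.nx c) = c := hper
  rw [h1]
  rfl

private theorem CA7_good_nx (K : CombG m a G ι) (Gd : List (List (ZMod m × Bool)))
    (hrot : rotB Gd = true) (c : ι × ZMod m) (h : CA7word K c ∈ Gd) : CA7word K (K.nx c) ∈ Gd := by
  unfold rotB at hrot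
  rw [List.all_eq_true] at hrot
  have h1 := hrot _ h
  rw [List.any_eq_true] at h1
  obtain ⟨w, hw, hw2⟩ := h1
  rw [beq_iff_eq] at hw2
  rw [CA7_word_nx, ← hw2]
  exact hw

private theorem CA7_good_iter (K : CombG m a G ι) (Gd : List (List (ZMod m × Bool)))
    (hrot : rotB Gd = true) (c : ι × ZMod m) (k : ℕ) (h : CA7word K c ∈ Gd) :
    CA7word K (K.nx^[k] c) ∈ Gd := by
  induction k with
  | zero => exact h
  | succ k ih =>
    rw [Function.iterate_succ_apply']
    exact CA7_good_nx K Gd hrot _ ih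

private theorem CA7_back (K : CombG m a G ι) (c : ι × ZMod m) (k : ℕ) :
    ∃ s, K.nx^[s] (K.nx^[k] c) = c := by
  have hper := CA7_period K c
  set p := Function.minimalPeriod K.nx c with hp
  have hp0 : 0 < p := by have := K.deg3 c; omega
  refine ⟨p * k - k, ?_⟩
  rw [← Function.iterate_add_apply]
  have h1 : p * k - k + k = p * k := Nat.sub_add_cancel (Nat.le_mul_of_pos_left k hp0)
  rw [h1]
  have h2 : Function.IsPeriodicPt K.nx (p * k) c :=
    Function.IsPeriodicPt.mul_const (show Function.IsPeriodicPt K.nx p c from hper) k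
  exact h2

private theorem CA7_bad_iter (K : CombG m a G ι) (Gd : List (List (ZMod m × Bool)))
    (hrot : rotB Gd = true) (c : ι × ZMod m) (k : ℕ) :
    (CA7word K (K.nx^[k] c) ∉ Gd) ↔ CA7word K c ∉ Gd := by
  constructor
  · intro h h1
    exact h (CA7_good_iter K Gd hrot c k h1)
  · intro h h1
    obtain ⟨s, hs⟩ := CA7_back K c k
    have h2 := CA7_good_iter K Gd hrot _ s h1
    rw [hs] at h2
    exact h h2

/-- the triple of a good corner -/
private theorem CA7_tri (K : CombG m a G ι) (Gd : List (List (ZMod m × Bool)))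
    (hrot : rotB Gd = true) (c : ι × ZMod m) (h : CA7word K c ∈ Gd) :
    (CA7fl K c, exW (CA7fl K (K.nx.symm c)), enW (CA7fl K (K.nx c))) ∈ triW Gd := by
  set c' := K.nx.symm c with hc'
  have hc : K.nx c' = c := K.nx.apply_symm_apply c
  have h1 : CA7word K c' ∈ Gd := by
    by_contra h2
    rw [← CA7_bad_iter K Gd hrot c' 1] at h2
    apply h2
    change CA7word K (K.nx c') ∈ Gd
    rw [hc]
    exact h
  obtain ⟨d, hd⟩ : ∃ d, Function.minimalPeriod K.nx c' = d + 3 :=
    ⟨Function.minimalPeriod K.nx c' - 3, by have := K.deg3 c'; omega⟩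
  have h2 : CA7word K c' = CA7fl K c' :: CA7fl K c :: CA7fl K (K.nx c) ::
      ((List.range d).map fun k => CA7fl K (K.nx^[k + 3] c')) := by
    unfold CA7word
    rw [hd, List.range_succ_eq_map, List.map_cons, List.map_map, List.range_succ_eq_map,
      List.map_cons, List.map_map, List.range_succ_eq_map, List.map_cons, List.map_map]
    change CA7fl K c' :: CA7fl K (K.nx c') :: CA7fl K (K.nx (K.nx c')) :: _ = _
    rw [hc]
    rfl
  unfold triW
  rw [List.mem_filterMap]
  exact ⟨_, h1, by rw [h2]⟩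

/-- the partner of side `j` of tile `t` -/
private noncomputable def CA7part (K : CombG m a G ι) (t : ι) (j : ZMod m) : ZMod m × Bool :=
  exW (CA7fl K (K.nx.symm (t, if K.rf t then j + 1 else j)))

private theorem CA7_part_en (K : CombG m a G ι) (c : ι × ZMod m) :
    exW (CA7fl K (K.nx.symm c)) = CA7part K c.1 (enS K.rf c) := by
  unfold CA7part enS
  obtain ⟨t, i⟩ := c
  cases h : K.rf t <;> simp [h]

private theorem CA7_part_ex (K : CombG m a G ι) (c : ι × ZMod m) :
    enW (CA7fl K (K.nx c)) = CA7part K c.1 (exS K.rf c) := by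
  have h1 : K.nx.symm (bwd K.rf c) = fwd K.rf (K.nx c) := by
    rw [← K.flip c]
    simp
  have h2 : (c.1, if K.rf c.1 then exS K.rf c + 1 else exS K.rf c) = bwd K.rf c := by
    unfold exS bwd
    obtain ⟨t, i⟩ := c
    cases h : K.rf t <;> simp [h]
  unfold CA7part
  rw [h2, h1, CA7_exW, CA7_exS_fwd, CA7_enW]
  rfl

private theorem CA7_rel (K : CombG m a G ι) (Gd : List (List (ZMod m × Bool)))
    (hrot : rotB Gd = true) (t : ι) (i : ZMod m) (h : CA7word K (t, i) ∈ Gd) :
    (CA7part K t (i - 1), CA7part K t i) ∈ relW Gd (K.rf t) i := by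
  have h1 := CA7_tri K Gd hrot (t, i) h
  rw [CA7_part_en, CA7_part_ex] at h1
  unfold relW
  rw [List.mem_filterMap]
  refine ⟨_, h1, ?_⟩
  have h2 : CA7fl K (t, i) = (i, K.rf t) := rfl
  simp only [h2, if_true]
  unfold enS exS
  cases h3 : K.rf t <;> simp [h3]

private theorem CA7_cmp {α : Type} [DecidableEq α] {l l' : List (α × α)} {x y z : α}
    (h1 : (x, y) ∈ l) (h2 : (y, z) ∈ l') : (x, z) ∈ cmpW l l' := by
  unfold cmpW
  rw [List.mem_flatMap]
  refine ⟨_, h1, ?_⟩
  rw [List.mem_filterMap]
  exact ⟨_, h2, by simp⟩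

private theorem CA7_bad_tile (K : CombG m a G ι) (Gd : List (List (ZMod m × Bool)))
    (hrot : rotB Gd = true) (hf : noTB Gd false = true) (ht : noTB Gd true = true) (t : ι) :
    ∃ i, CA7word K (t, i) ∉ Gd := by
  by_contra hcon
  push Not at hcon
  have h1 : ∀ k : ℕ, (CA7part K t 0, CA7part K t ((k + 1 : ℕ) : ZMod m)) ∈ chW Gd (K.rf t) k := by
    intro k
    induction k with
    | zero =>
      have h2 := CA7_rel K Gd hrot t 1 (hcon 1)
      rw [sub_self] at h2
      simpa [chW] using h2
    | succ k ih =>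
      have h2 := CA7_rel K Gd hrot t ((k + 2 : ℕ) : ZMod m) (hcon _)
      have h3 : ((k + 2 : ℕ) : ZMod m) - 1 = ((k + 1 : ℕ) : ZMod m) := by
        push_cast
        ring
      rw [h3] at h2
      exact CA7_cmp ih h2
  have h2 := h1 (m - 1)
  have hm : m - 1 + 1 = m := Nat.sub_add_cancel (Nat.pos_of_ne_zero (NeZero.ne m))
  rw [hm, ZMod.natCast_self] at h2
  have h3 : noTB Gd (K.rf t) = true := by
    cases h : K.rf t
    · exact hf
    · exact ht
  unfold noTB at h3
  rw [List.all_eq_true] at h3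
  have h4 := h3 _ h2
  simp at h4

/-- the gap principle: if no tile has all its corners in good stars, there is a star of cost `< L`, or a star
which is not good of cost `≤ L` -/
theorem CombG.gapW (K : CombG m a G ι) (σ ε : ZMod m → ℝ)
    (hp : ∀ j k, G j k true → σ j = ε k ∧ ε j = σ k)
    (hm : ∀ j k, G j k false → σ j = -σ k ∧ ε j = -ε k)
    (Gd : List (List (ZMod m × Bool))) (hrot : rotB Gd = true) (hf : noTB Gd false = true)
    (ht : noTB Gd true = true) :
    WPG Gd (fun j => a j / Real.pi) (fun j => a j / Real.pi + σ j - ε (j - 1)) G := by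
  intro v A hA L hv
  have hpi := Real.pi_pos
  obtain ⟨c₀, hc₀⟩ := CA7_lpG K (fun c => CA7word K c ∉ Gd) (CA7_bad_iter K Gd hrot)
    (CA7_bad_tile K Gd hrot hf ht) (fun i => (v i : ℝ)) (fun x y => (A x y : ℝ))
    (fun x y => by rw [hA x y]; push_cast; ring) (L : ℝ) (by exact_mod_cast hv)
  -- the first corner with minimal code
  set f : ℕ → ℕ := fun k => code (CA7fl K (K.nx^[k] c₀)) with hf
  set k₀ : ℕ := Function.argmin f with hk₀
  have hmin : ∀ k, f k₀ ≤ f k := fun k => Function.argmin_le f k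
  set c := K.nx^[k₀] c₀ with hc
  have hsum : ∀ g : ι × ZMod m → ℝ,
      ∑ k ∈ Finset.range (Function.minimalPeriod K.nx c), g (K.nx^[k] c) =
      ∑ k ∈ Finset.range (Function.minimalPeriod K.nx c₀), g (K.nx^[k] c₀) :=
    fun g => CA7_star_iter K g c₀ k₀
  have h0 : ∑ k ∈ Finset.range (Function.minimalPeriod K.nx c),
      ((v ((K.nx^[k] c).2) : ℝ) + CA7cross K (fun x y => (A x y : ℝ)) (K.nx^[k] c)) < L ∨
      (CA7word K c ∉ Gd ∧ ∑ k ∈ Finset.range (Function.minimalPeriod K.nx c),
      ((v ((K.nx^[k] c).2) : ℝ) + CA7cross K (fun x y => (A x y : ℝ)) (K.nx^[k] c)) < L + 1) := by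
    rw [hsum fun d => (v d.2 : ℝ) + CA7cross K (fun x y => (A x y : ℝ)) d]
    rw [hc, CA7_bad_iter K Gd hrot c₀ k₀]
    exact hc₀
  obtain ⟨d, hd⟩ : ∃ d, Function.minimalPeriod K.nx c = d + 1 :=
    Nat.exists_eq_succ_of_ne_zero (by have := K.deg3 c; omega)
  have hd3 := K.deg3 c
  have hper := CA7_period K c
  have ha := K.sum c
  have hbs : ∑ k ∈ Finset.range (Function.minimalPeriod K.nx c),
      (CA7out σ ε (CA7fl K (K.nx^[k] c)) + CA7inn σ ε (CA7fl K (K.nx^[k] c))) = 0 := by
    rw [Finset.sum_add_distrib, ← CA7_star_shift K (fun c => CA7inn σ ε (CA7fl K c)) c,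
      ← Finset.sum_add_distrib]
    refine Finset.sum_eq_zero fun k _ => ?_
    rw [Function.iterate_succ_apply']
    exact CA7_cancel σ ε hp hm _ _ (CA7_step K _)
  have hword : CA7word K c = (List.range (d + 1)).map fun k => CA7fl K (K.nx^[k] c) := by
    unfold CA7word
    rw [hd]
  rw [hd] at h0 ha hbs hper hd3
  set x : ℕ → ZMod m × Bool := fun k => CA7fl K (K.nx^[k] c) with hx
  have hxe : x (0 + d + 1) = x 0 := by
    simp only [hx, zero_add]
    rw [hper]
    rfl
  have hstep : ∀ k, StepG G (x k) (x (k + 1)) := fun k => by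
    simp only [hx]
    rw [Function.iterate_succ_apply']
    exact CA7_step K _
  have hlist : ∀ g : ZMod m × Bool → ℝ,
      g (x 0) + ((CA7list x 0 d).map g).sum = ∑ k ∈ Finset.range (d + 1), g (x k) := by
    intro g
    rw [CA7list_sum, Finset.sum_range_succ', add_comm]
    congr 1
    exact Finset.sum_congr rfl fun k _ => by rw [show 0 + 1 + k = k + 1 by ring]
  refine ⟨x 0, CA7list x 0 d, ?_, ?_, ?_, ?_, ?_, ?_⟩
  · intro y hy
    obtain ⟨k, rfl⟩ := CA7list_mem x d 0 y hy
    have h1 := hmin (k + k₀)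
    simp only [hf] at h1
    rw [Function.iterate_add_apply] at h1
    exact h1
  · have := CA7list_pth x hstep d 0
    rwa [hxe] at this
  · rw [CA7list_length]
    omega
  · rw [hlist fun y => a y.1 / Real.pi, ← Finset.sum_div]
    change (∑ k ∈ Finset.range (d + 1), a (K.nx^[k] c).2) / Real.pi = 2
    rw [ha]
    field_simp
  · rw [hlist fun y => a y.1 / Real.pi + σ y.1 - ε (y.1 - 1)]
    have h1 : ∀ k, a (x k).1 / Real.pi + σ (x k).1 - ε ((x k).1 - 1) =
        a (x k).1 / Real.pi + (CA7out σ ε (x k) + CA7inn σ ε (x k)) := fun k => by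
      rw [← CA7_b]
      ring
    simp only [h1]
    rw [Finset.sum_add_distrib, ← Finset.sum_div]
    change (∑ k ∈ Finset.range (d + 1), a (K.nx^[k] c).2) / Real.pi +
      ∑ k ∈ Finset.range (d + 1),
      (CA7out σ ε (CA7fl K (K.nx^[k] c)) + CA7inn σ ε (CA7fl K (K.nx^[k] c))) = 2
    rw [ha, hbs]
    field_simp
    norm_num
  · have h1 := CA7list_cost (stepCost v A) x d 0
    rw [hxe] at h1
    rw [h1]
    have h2 : ((∑ k ∈ Finset.range (d + 1), stepCost v A (x (0 + k)) (x (0 + k + 1)) : ℤ) : ℝ) =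
        ∑ k ∈ Finset.range (d + 1),
        ((v ((K.nx^[k] c).2) : ℝ) + CA7cross K (fun x y => (A x y : ℝ)) (K.nx^[k] c)) := by
      push_cast
      refine Finset.sum_congr rfl fun k _ => ?_
      rw [zero_add]
      simp only [hx]
      rw [Function.iterate_succ_apply']
      unfold stepCost
      push_cast
      rfl
    rw [← h2] at h0
    have hw : x 0 :: CA7list x 0 d = CA7word K c := by
      rw [hword, CA7list_eq, List.range_succ_eq_map, List.map_cons, List.map_map]
      congr 1
      refine List.map_congr_left fun k _ => ?_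
      rw [show 0 + 1 + k = k + 1 by ring]
      rfl
    rcases h0 with h0 | ⟨hB, h0⟩
    · exact Or.inl (by exact_mod_cast h0)
    · refine Or.inr ⟨?_, ?_⟩
      · rw [hw]
        exact hB
      · have h3 : ∑ k ∈ Finset.range (d + 1), stepCost v A (x (0 + k)) (x (0 + k + 1)) < L + 1 := by
          exact_mod_cast h0
        omega

end Pool.Agent.Lib_MP_fa6e45
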