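import Pool.Agent.Lib_MP_fa6e45.X1a

/-!
PIECE X2a (about 80 lines): chord vectors from chord angles (compare L3d, V4d).
-/

open Set MeasureTheory Complex
open scoped Topology

namespace Pool.Agent.Lib_MP_fa6e45

open Pool.Agent.Lib_PL (cr InSector Poly)
variable {n : ℕ} {P : Polygon n} {m : ℕ} [NeZero m] {S : Arcs P m} {b : ZMod m → ℝ}

private noncomputable def X2aE (x : ℝ) : ℂ := exp ((x : ℂ) * Complex.I)

private theorem X2aE_add (x y : ℝ) : X2aE (x + y) = X2aE x * X2aE y := by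
  unfold X2aE
  rw [← Complex.exp_add]
  congr 1
  push_cast
  ring

private theorem X2aE_pi : X2aE Real.pi = -1 := by
  unfold X2aE
  exact Complex.exp_pi_mul_I

private theorem X2aE_neg (x : ℝ) : X2aE x * X2aE (-x) = 1 := by
  rw [← X2aE_add, add_neg_cancel]
  simp [X2aE]

private theorem X2aE_conj (x : ℝ) : (starRingEnd ℂ) (X2aE x) = X2aE (-x) := by
  unfold X2aE
  rw [← Complex.exp_conj]
  congr 1
  simp

private theorem X2a_norm_ne (hm : 2 ≤ m) (j : ZMod m) : (‖S.ch j‖ : ℂ) ≠ 0 := by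
  have h : ‖S.ch j‖ ≠ 0 := norm_ne_zero_iff.mpr (S.ch_ne hm j)
  exact_mod_cast h

private theorem X2a_step (hb : S.ChordAng b) (i j : ZMod m) (hij : j = i + 1) :
    S.ch j = S.ch i * ((‖S.ch j‖ : ℂ) / (‖S.ch i‖ : ℂ)) * X2aE (Real.pi * (1 - b j)) := by
  have h := hb j
  have e : j - 1 = i := by rw [hij]; ring
  rw [e] at h
  have h2 : ((‖S.ch j‖ / ‖S.ch i‖ : ℝ) : ℂ) = (‖S.ch j‖ : ℂ) / (‖S.ch i‖ : ℂ) := by
    push_cast
    rfl
  rw [h2] at h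
  exact h

/-- unit directions of the chords -/
theorem Arcs.ChordAng.dir (hm : 2 ≤ m) (hb : S.ChordAng b) (j : ZMod m) :
    S.ch (j + 1) / (‖S.ch (j + 1)‖ : ℂ) = S.ch j / (‖S.ch j‖ : ℂ) *
      exp (((Real.pi * (1 - b (j + 1)) : ℝ) : ℂ) * Complex.I) := by
  have h := X2a_step hb j (j + 1) rfl
  have h0 := X2a_norm_ne (S := S) hm j
  have h1 := X2a_norm_ne (S := S) hm (j + 1)
  have h3 : S.ch j / (‖S.ch j‖ : ℂ) *
      exp (((Real.pi * (1 - b (j + 1)) : ℝ) : ℂ) * Complex.I) =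
      S.ch j / (‖S.ch j‖ : ℂ) * X2aE (Real.pi * (1 - b (j + 1))) := rfl
  rw [h3, div_eq_iff h1]
  generalize X2aE (Real.pi * (1 - b (j + 1))) = E at h ⊢
  rw [mul_right_comm, div_mul_eq_mul_div, mul_div_assoc]
  exact h

theorem Arcs.ChordAng.par2 (hm : 2 ≤ m) (hb : S.ChordAng b) (j : ZMod m)
    (hl : ‖S.ch j‖ = ‖S.ch (j + 2)‖) (ha : b (j + 1) + b (j + 2) = 1) :
    S.ch (j + 2) = -S.ch j := by
  have t1 := X2a_step hb j (j + 1) rfl
  have t2 := X2a_step hb (j + 1) (j + 2) (by ring)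
  have h0 := X2a_norm_ne (S := S) hm j
  have h1 := X2a_norm_ne (S := S) hm (j + 1)
  have e : X2aE (Real.pi * (1 - b (j + 1))) * X2aE (Real.pi * (1 - b (j + 2))) = -1 := by
    rw [← X2aE_add, ← X2aE_pi]
    congr 1
    have : b (j + 2) = 1 - b (j + 1) := by linarith
    rw [this]
    ring
  rw [← hl] at t2
  have e2 : ((‖S.ch (j + 1)‖ : ℂ) / (‖S.ch j‖ : ℂ)) * ((‖S.ch j‖ : ℂ) / (‖S.ch (j + 1)‖ : ℂ)) = 1 := by
    field_simp
  generalize X2aE (Real.pi * (1 - b (j + 1))) = E1 at t1 e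
  generalize X2aE (Real.pi * (1 - b (j + 2))) = E2 at t2 e
  generalize (‖S.ch (j + 1)‖ : ℂ) / (‖S.ch j‖ : ℂ) = r at t1 e2
  generalize (‖S.ch j‖ : ℂ) / (‖S.ch (j + 1)‖ : ℂ) = s at t2 e2
  rw [t2, t1]
  linear_combination (S.ch j * (r * s)) * e - S.ch j * e2

theorem Arcs.ChordAng.par3 (hm : 2 ≤ m) (hb : S.ChordAng b) (j : ZMod m)
    (hl : ‖S.ch j‖ = ‖S.ch (j + 3)‖) (ha : b (j + 1) + b (j + 2) + b (j + 3) = 2) :
    S.ch (j + 3) = -S.ch j := by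
  have t1 := X2a_step hb j (j + 1) rfl
  have t2 := X2a_step hb (j + 1) (j + 2) (by ring)
  have t3 := X2a_step hb (j + 2) (j + 3) (by ring)
  have h0 := X2a_norm_ne (S := S) hm j
  have h1 := X2a_norm_ne (S := S) hm (j + 1)
  have h2 := X2a_norm_ne (S := S) hm (j + 2)
  have e : X2aE (Real.pi * (1 - b (j + 1))) * X2aE (Real.pi * (1 - b (j + 2))) *
      X2aE (Real.pi * (1 - b (j + 3))) = -1 := by
    rw [← X2aE_add, ← X2aE_add, ← X2aE_pi]
    congr 1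
    have : b (j + 3) = 2 - b (j + 1) - b (j + 2) := by linarith
    rw [this]
    ring
  rw [← hl] at t3
  have e2 : ((‖S.ch (j + 1)‖ : ℂ) / (‖S.ch j‖ : ℂ)) *
      ((‖S.ch (j + 2)‖ : ℂ) / (‖S.ch (j + 1)‖ : ℂ)) *
      ((‖S.ch j‖ : ℂ) / (‖S.ch (j + 2)‖ : ℂ)) = 1 := by
    field_simp
  generalize X2aE (Real.pi * (1 - b (j + 1))) = E1 at t1 e
  generalize X2aE (Real.pi * (1 - b (j + 2))) = E2 at t2 e
  generalize X2aE (Real.pi * (1 - b (j + 3))) = E3 at t3 e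
  generalize (‖S.ch (j + 1)‖ : ℂ) / (‖S.ch j‖ : ℂ) = r at t1 e2
  generalize (‖S.ch (j + 2)‖ : ℂ) / (‖S.ch (j + 1)‖ : ℂ) = s at t2 e2
  generalize (‖S.ch j‖ : ℂ) / (‖S.ch (j + 2)‖ : ℂ) = t at t3 e2
  rw [t3, t2, t1]
  linear_combination (S.ch j * (r * s * t)) * e - S.ch j * e2

theorem Arcs.ChordAng.rot (hm : 2 ≤ m) (hb : S.ChordAng b) (j : ZMod m)
    (hl : ‖S.ch (j - 1)‖ = ‖S.ch j‖) :
    S.V (j - 1) - S.V j = exp (((Real.pi * b j : ℝ) : ℂ) * Complex.I) * (S.V (j + 1) - S.V j) := by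
  have t := X2a_step hb (j - 1) j (by ring)
  have h0 := X2a_norm_ne (S := S) hm j
  rw [hl, div_self h0, mul_one] at t
  have e : X2aE (Real.pi * b j) * X2aE (Real.pi * (1 - b j)) = -1 := by
    rw [← X2aE_add, ← X2aE_pi]
    congr 1
    ring
  have h3 : exp (((Real.pi * b j : ℝ) : ℂ) * Complex.I) = X2aE (Real.pi * b j) := rfl
  have h4 : S.V (j - 1) - S.V j = -S.ch (j - 1) := by
    unfold Arcs.ch
    rw [sub_add_cancel]
    ring
  have h5 : S.V (j + 1) - S.V j = S.ch j := rfl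
  rw [h3, h4, h5]
  generalize X2aE (Real.pi * b j) = E1 at e ⊢
  generalize X2aE (Real.pi * (1 - b j)) = E2 at e t
  rw [t]
  linear_combination -S.ch (j - 1) * e

/-- two glides with parallel axes: chords `j, k` and `j + 1, k + 1` -/
theorem Arcs.ChordAng.glide (hm : 2 ≤ m) (hb : S.ChordAng b) (j k : ZMod m)
    (h1 : ‖S.ch j‖ = ‖S.ch k‖) (h2 : ‖S.ch (j + 1)‖ = ‖S.ch (k + 1)‖)
    (ha : b (j + 1) + b (k + 1) = 1) :
    ∃ A : ℂ, ‖A‖ = 1 ∧ S.ch j = A * (starRingEnd ℂ) (S.ch k) ∧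
      S.ch (j + 1) = -(A * (starRingEnd ℂ) (S.ch (k + 1))) := by
  have t1 := X2a_step hb j (j + 1) rfl
  have t2 := X2a_step hb k (k + 1) rfl
  have hk : S.ch k ≠ 0 := S.ch_ne hm k
  have hck : (starRingEnd ℂ) (S.ch k) ≠ 0 := by
    rw [Ne, map_eq_zero]
    exact hk
  have hnk : ‖S.ch k‖ ≠ 0 := norm_ne_zero_iff.mpr hk
  have hA : S.ch j / (starRingEnd ℂ) (S.ch k) * (starRingEnd ℂ) (S.ch k) = S.ch j :=
    div_mul_cancel₀ _ hck
  refine ⟨S.ch j / (starRingEnd ℂ) (S.ch k), ?_, hA.symm, ?_⟩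
  · rw [norm_div, RCLike.norm_conj, h1]
    exact div_self hnk
  · have e : X2aE (Real.pi * (1 - b (j + 1))) = -X2aE (-(Real.pi * (1 - b (k + 1)))) := by
      have h3 : Real.pi * (1 - b (j + 1)) = Real.pi + -(Real.pi * (1 - b (k + 1))) := by
        have : b (j + 1) = 1 - b (k + 1) := by linarith
        rw [this]
        ring
      rw [h3, X2aE_add, X2aE_pi]
      ring
    have t3 : (starRingEnd ℂ) (S.ch (k + 1)) = (starRingEnd ℂ) (S.ch k) *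
        ((‖S.ch (k + 1)‖ : ℂ) / (‖S.ch k‖ : ℂ)) * X2aE (-(Real.pi * (1 - b (k + 1)))) := by
      conv_lhs => rw [t2]
      rw [map_mul, map_mul, X2aE_conj, map_div₀, Complex.conj_ofReal, Complex.conj_ofReal]
    rw [e, h1, h2] at t1
    rw [t1, t3]
    linear_combination (((‖S.ch (k + 1)‖ : ℂ) / (‖S.ch k‖ : ℂ)) *
      X2aE (-(Real.pi * (1 - b (k + 1))))) * hA

end Pool.Agent.Lib_MP_fa6e45
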