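import Pool.Agent.Lib_MP_fa6e45.Z0

/-!
PIECE Z3 (about 200 lines): the small soundness lemmas. `lc_holds`: a linear combination of valid equations is
valid. `contra_sound`: three cases of `contraB` (in the second case
`r = ∑ co i * a i > ∑ (if co i < 0 then 2 * co i else 0)` as `0 < a i < 2` and some `co i ≠ 0`; in the third case
`a j = 1`). `der_sound`: reindex the sum by `i ↦ i + p`, divide by `c.1 ≠ 0`. `fact_sound`: `alone`: every `k : ZMod m` is
a cast of some natural number `< m`; type `U` and alone: `M.single` (both types give `G e e true`). `set_sound`.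
-/

open scoped Topology

namespace Pool.Agent.Lib_MP_fa6e45

variable {m : ℕ} [NeZero m] {cls : ZMod m → ℕ} {a b : ZMod m → ℝ} {G : ZMod m → ZMod m → Bool → Prop}

private theorem Z3_sum_list (f : ℕ → ℤ) (n : ℕ) :
    ((List.range n).map f).sum = ∑ i ∈ Finset.range n, f i := by
  induction n with
  | zero => simp
  | succ n ih =>
    rw [List.range_succ, List.map_append, List.sum_append, Finset.sum_range_succ, ih]
    simp

private theorem Z3_sum (f : ℕ → ℤ) :
    ((List.range m).map f).sum = ∑ i : ZMod m, f i.val := by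
  rw [Z3_sum_list]
  symm
  refine Finset.sum_bij (fun j _ => j.val) ?_ ?_ ?_ ?_
  · intro j _
    exact Finset.mem_range.2 (ZMod.val_lt j)
  · intro j _ k _ h
    exact ZMod.val_injective m h
  · intro q hq
    refine ⟨(q : ZMod m), Finset.mem_univ _, ?_⟩
    exact ZMod.val_natCast_of_lt (Finset.mem_range.1 hq)
  · intro j _
    rfl

private theorem Z3_lc (l : List (ℤ × Eqn)) (h : ∀ x ∈ l, Eqn.Holds x.2 a) :
    ∑ i : ZMod m, (((l.map fun x => x.1 * x.2.1.getD i.val 0).sum : ℤ) : ℝ) * a i =
      (((l.map fun x => x.1 * x.2.2).sum : ℤ) : ℝ) := by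
  induction l with
  | nil => simp
  | cons x l ih =>
    have h1 := ih fun y hy => h y (List.mem_cons_of_mem _ hy)
    have h2 : ∑ i : ZMod m, ((x.2.1.getD i.val 0 : ℤ) : ℝ) * a i = (x.2.2 : ℝ) :=
      h x List.mem_cons_self
    simp only [List.map_cons, List.sum_cons]
    push_cast at h1 ⊢
    rw [← h1, ← h2, Finset.mul_sum, ← Finset.sum_add_distrib]
    refine Finset.sum_congr rfl fun i _ => ?_
    ring

theorem lc_holds {eqs : List Eqn} (h : ∀ E ∈ eqs, Eqn.Holds E a) (ls : List ℤ) :
    ∑ i : ZMod m, ((lcCo ls eqs i.val : ℤ) : ℝ) * a i = (lcRhs ls eqs : ℝ) := by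
  unfold lcCo lcRhs
  refine Z3_lc (ls.zip eqs) ?_
  rintro ⟨c, E⟩ hx
  exact h E (List.of_mem_zip hx).2

theorem contra_sound (M : Mdl cls a b G) {eqs : List Eqn} (h : ∀ E ∈ eqs, Eqn.Holds E a) {ls : List ℤ}
    (hc : contraB m eqs ls = true) : False := by
  have hlc := lc_holds h ls
  unfold contraB at hc
  simp only [Bool.or_eq_true, Bool.and_eq_true, List.all_eq_true, List.any_eq_true, List.mem_range,
    bne_iff_ne, beq_iff_eq, decide_eq_true_eq, ne_eq] at hc
  rcases hc with (⟨h1, h2⟩ | ⟨⟨j, hj, h1⟩, h2⟩) | ⟨j, hj, ⟨h1, h2⟩, h3⟩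
  · apply h2
    have h3 : ∑ i : ZMod m, ((lcCo ls eqs i.val : ℤ) : ℝ) * a i = 0 := by
      refine Finset.sum_eq_zero fun i _ => ?_
      rw [h1 i.val (ZMod.val_lt i)]
      simp
    rw [h3] at hlc
    exact_mod_cast hlc.symm
  · rw [Z3_sum] at h2
    have h3 : ∑ i : ZMod m, (((if lcCo ls eqs i.val < 0 then 2 * lcCo ls eqs i.val else 0 : ℤ)) : ℝ) <
        ∑ i : ZMod m, ((lcCo ls eqs i.val : ℤ) : ℝ) * a i := by
      refine Finset.sum_lt_sum ?_ ⟨(j : ZMod m), Finset.mem_univ _, ?_⟩
      · intro i _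
        have h4 := M.a_pos i
        have h5 := M.a_lt i
        split_ifs with h6
        · have h7 : ((lcCo ls eqs i.val : ℤ) : ℝ) < 0 := by exact_mod_cast h6
          push_cast
          nlinarith
        · have h7 : (0 : ℝ) ≤ ((lcCo ls eqs i.val : ℤ) : ℝ) := by exact_mod_cast not_lt.1 h6
          push_cast
          positivity
      · have h4 := M.a_pos (j : ZMod m)
        have h5 := M.a_lt (j : ZMod m)
        rw [ZMod.val_natCast_of_lt hj]
        split_ifs with h6
        · have h7 : ((lcCo ls eqs j : ℤ) : ℝ) < 0 := by exact_mod_cast h6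
          push_cast
          nlinarith
        · have h8 : 0 < lcCo ls eqs j := lt_of_le_of_ne (not_lt.1 h6) (Ne.symm h1)
          have h7 : (0 : ℝ) < ((lcCo ls eqs j : ℤ) : ℝ) := by exact_mod_cast h8
          push_cast
          positivity
    rw [hlc] at h3
    have h4 : ∑ i : ZMod m, (if lcCo ls eqs i.val < 0 then 2 * lcCo ls eqs i.val else 0 : ℤ) <
        lcRhs ls eqs := by
      have h5 : ((∑ i : ZMod m, (if lcCo ls eqs i.val < 0 then 2 * lcCo ls eqs i.val else 0 : ℤ) :
          ℤ) : ℝ) < ((lcRhs ls eqs : ℤ) : ℝ) := by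
        rw [Int.cast_sum]
        exact h3
      exact_mod_cast h5
    omega
  · have h4 : ∑ i : ZMod m, ((lcCo ls eqs i.val : ℤ) : ℝ) * a i =
        ((lcCo ls eqs j : ℤ) : ℝ) * a (j : ZMod m) := by
      rw [Finset.sum_eq_single (j : ZMod m)]
      · rw [ZMod.val_natCast_of_lt hj]
      · intro i _ hi
        rcases h3 i.val (ZMod.val_lt i) with h5 | h5
        · exfalso
          apply hi
          rw [← h5, ZMod.natCast_zmod_val]
        · rw [h5]
          simp
      · intro h5
        exact absurd (Finset.mem_univ _) h5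
    rw [h4, h2] at hlc
    have h5 : ((lcCo ls eqs j : ℤ) : ℝ) ≠ 0 := by exact_mod_cast h1
    apply M.a_ne (j : ZMod m)
    have h6 : ((lcCo ls eqs j : ℤ) : ℝ) * a (j : ZMod m) = ((lcCo ls eqs j : ℤ) : ℝ) * 1 := by
      rw [hlc, mul_one]
    exact mul_left_cancel₀ h5 h6

private theorem Z3_val_add (i : ZMod m) (p : ℕ) : (i + (p : ZMod m)).val = (i.val + p) % m := by
  rw [ZMod.val_add, ZMod.val_natCast, Nat.add_mod_mod]

theorem der_sound {eqs : List Eqn} (h : ∀ E ∈ eqs, Eqn.Holds E b) {p : ℕ} {Es : List Eqn}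
    {cs : List (ℤ × List ℤ)} (hd : derB m eqs p Es cs = true) :
    ∀ E ∈ Es, Eqn.Holds E fun i => b (i + (p : ZMod m)) := by
  induction Es generalizing cs with
  | nil =>
    intro E hE
    exact absurd hE List.not_mem_nil
  | cons E0 Es ih =>
    cases cs with
    | nil =>
      unfold derB at hd
      exact absurd hd (by simp)
    | cons c cs =>
      unfold derB at hd
      simp only [Bool.and_eq_true, List.all_eq_true, List.mem_range, bne_iff_ne, beq_iff_eq,
        ne_eq] at hd
      obtain ⟨⟨⟨h1, h2⟩, h3⟩, h4⟩ := hd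
      intro E hE
      rcases List.mem_cons.1 hE with rfl | hE
      · have hlc := lc_holds h c.2
        rw [← Equiv.sum_comp (Equiv.addRight (p : ZMod m))] at hlc
        simp only [Equiv.coe_addRight] at hlc
        have h5 : ∀ i : ZMod m, ((lcCo c.2 eqs (i + (p : ZMod m)).val : ℤ) : ℝ) *
            b (i + (p : ZMod m)) =
            (c.1 : ℝ) * (((E.1.getD i.val 0 : ℤ) : ℝ) * b (i + (p : ZMod m))) := by
          intro i
          rw [Z3_val_add, h2 i.val (ZMod.val_lt i)]
          push_cast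
          ring
        rw [Finset.sum_congr rfl (fun i _ => h5 i), ← Finset.mul_sum, h3] at hlc
        push_cast at hlc
        have h6 : (c.1 : ℝ) ≠ 0 := by exact_mod_cast h1
        exact mul_left_cancel₀ h6 hlc
      · exact ih h4 E hE

private theorem Z3_alone {j : ZMod m} (h : alone cls j = true) : ∀ k, cls k = cls j → k = j := by
  intro k hk
  unfold alone at h
  simp only [List.all_eq_true, List.mem_range, Bool.or_eq_true, bne_iff_ne, beq_iff_eq,
    ne_eq] at h
  have h1 := h k.val (ZMod.val_lt k)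
  rw [ZMod.natCast_zmod_val] at h1
  rcases h1 with h1 | h1
  · exact absurd hk h1
  · exact h1

private theorem Z3_not_alone {j : ZMod m} (h : alone cls j = false) :
    ∃ k, k ≠ j ∧ cls k = cls j := by
  by_contra hcon
  push Not at hcon
  have h1 : alone cls j = true := by
    unfold alone
    simp only [List.all_eq_true, List.mem_range, Bool.or_eq_true, bne_iff_ne, beq_iff_eq,
      ne_eq]
    intro k _
    by_cases hk : (k : ZMod m) = j
    · exact Or.inr hk
    · exact Or.inl (hcon _ hk)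
  rw [h1] at h
  exact absurd h (by simp)

theorem fact_sound (M : Mdl cls a b G) {ty : ZMod m → Ty} (hty : ∀ j, IsTy G cls j (ty j))
    {e g : ZMod m} {b' : Bool} (h : factB cls ty e g b' = true) : G e g b' := by
  have h1 := hty e
  unfold factB at h
  cases hte : ty e with
  | U =>
    rw [hte] at h
    simp only [Bool.and_eq_true, beq_iff_eq] at h
    obtain ⟨⟨rfl, rfl⟩, h4⟩ := h
    rcases M.single e (Z3_alone h4) with h5 | h5
    · exact h5 e true rfl
    · exact h5.1
  | S =>
    rw [hte] at h h1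
    simp only [beq_iff_eq] at h
    exact h1 g b' h.symm
  | C =>
    rw [hte] at h h1
    simp only [Bool.and_eq_true, beq_iff_eq] at h
    obtain ⟨rfl, rfl⟩ := h
    exact h1.1
  | R =>
    rw [hte] at h h1
    simp only [Bool.and_eq_true, beq_iff_eq, bne_iff_ne, ne_eq] at h
    obtain ⟨⟨h2, h3⟩, rfl⟩ := h
    exact h1.1 g (Ne.symm h2) h3.symm
  | G =>
    rw [hte] at h h1
    simp only [Bool.and_eq_true, beq_iff_eq, bne_iff_ne, ne_eq, Bool.not_eq_true'] at h
    obtain ⟨⟨h2, h3⟩, rfl⟩ := h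
    exact h1.1 g (Ne.symm h2) h3.symm

theorem splitT_sound (M : Mdl cls a b G) {ty : ZMod m → Ty} (hty : ∀ j, IsTy G cls j (ty j)) {j : ℕ}
    (h : alone cls (j : ZMod m) = false) : ∃ t : Ty, (t = Ty.S ∨ t = Ty.R ∨ t = Ty.G) ∧
      ∀ i, IsTy G cls i (setTy cls ty j t i) := by
  obtain ⟨k, hk, hck⟩ := Z3_not_alone h
  obtain ⟨t, ht, h1, h2⟩ := M.twins (j : ZMod m) k (Ne.symm hk) hck.symm
  refine ⟨t, ht, fun i => ?_⟩
  unfold setTy
  by_cases hi : cls i = cls (j : ZMod m)
  · rw [if_pos hi]
    by_cases hij : i = (j : ZMod m)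
    · rw [hij]
      exact h1
    · by_cases hik : i = k
      · rw [hik]
        exact h2
      · exact absurd ⟨hi, hck.symm⟩ (M.two i (j : ZMod m) k hij (Ne.symm hk) hik)
  · rw [if_neg hi]
    exact hty i

theorem splitU_sound (M : Mdl cls a b G) {ty : ZMod m → Ty} (hty : ∀ j, IsTy G cls j (ty j)) {j : ℕ}
    (h : alone cls (j : ZMod m) = true) : ∃ t : Ty, (t = Ty.S ∨ t = Ty.C) ∧
      ∀ i, IsTy G cls i (setTy cls ty j t i) := by
  have h1 := Z3_alone h
  have key : ∀ t : Ty, IsTy G cls (j : ZMod m) t → ∀ i, IsTy G cls i (setTy cls ty j t i) := by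
    intro t ht i
    unfold setTy
    by_cases hi : cls i = cls (j : ZMod m)
    · rw [if_pos hi, h1 i hi]
      exact ht
    · rw [if_neg hi]
      exact hty i
  rcases M.single (j : ZMod m) h1 with h2 | h2
  · exact ⟨Ty.S, Or.inl rfl, key _ h2⟩
  · exact ⟨Ty.C, Or.inr rfl, key _ h2⟩

end Pool.Agent.Lib_MP_fa6e45
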