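import Pool.Agent.Lib_MP_fa6e45.H6a
import Pool.Agent.Lib_MP_fa6e45.Z3
import Pool.Agent.Lib_MP_fa6e45.X2a

/-!
MP_fa6e45_co, constant status: soundness of the numerical check `geoB` for chords of arcs (copy of H6 for abstract
closing data `ClD` instead of a polygon).
-/

open Set MeasureTheory Complex
open scoped Topology

namespace Pool.Agent.Lib_MP_fa6e45

open Pool.Agent.Lib_PL (cr InSector Poly)

variable {m : ℕ} [NeZero m]

/-- closing data: angles, lengths and unit directions of a closed polygonal line -/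
structure ClD (m : ℕ) [NeZero m] where
  ang : ZMod m → ℝ
  len : ZMod m → ℝ
  dr : ZMod m → ℂ
  ang_pos : ∀ j, 0 < ang j
  ang_lt : ∀ j, ang j < 2 * Real.pi
  len_pos : ∀ j, 0 < len j
  dr_ne : ∀ j, dr j ≠ 0
  dr_step : ∀ j : ℕ, dr ((j + 1 : ℕ) : ZMod m) =
    dr (j : ZMod m) * gz (Real.pi - ang ((j + 1 : ℕ) : ZMod m))
  dr_sum : ∑ j : ZMod m, (len j : ℂ) * dr j = 0

/-! ### directions -/

/-- sum of the outer angles at the corners `1, .., j` -/
noncomputable def gPhiA (P : ClD m) (j : ℕ) : ℝ :=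
  ∑ s ∈ Finset.range j, (Real.pi - P.ang ((s + 1 : ℕ) : ZMod m))

private theorem dr_a8 (P : ClD m) (j : ℕ) : P.dr (j : ZMod m) = P.dr 0 * gz (gPhiA P j) := by
  induction j with
  | zero =>
    unfold gPhiA
    rw [Finset.sum_range_zero, gz_zero, mul_one, Nat.cast_zero]
  | succ j ih =>
    have h1 : gPhiA P (j + 1) = gPhiA P j + (Real.pi - P.ang ((j + 1 : ℕ) : ZMod m)) := by
      unfold gPhiA
      rw [Finset.sum_range_succ]
    rw [P.dr_step, ih, h1, gz_add, mul_assoc]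

private theorem single_a8 (f : ZMod m → ℝ) {x : ℕ} (hx : x < m) (e : ℝ) :
    ∑ i : ZMod m, (if i.val = x then e else 0) * f i = e * f ((x : ℕ) : ZMod m) := by
  rw [Finset.sum_eq_single ((x : ℕ) : ZMod m)]
  · rw [ZMod.val_natCast_of_lt hx, if_pos rfl]
  · intro i _ hi
    rw [if_neg, zero_mul]
    intro h
    apply hi
    rw [← h, ZMod.natCast_zmod_val]
  · intro h
    exact absurd (Finset.mem_univ _) h

private theorem gder_a8 {A : ZMod m → ℝ} {eqs : List Eqn} (hE : ∀ E ∈ eqs, Eqn.Holds E A) {D : ℤ}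
    {f : ℕ} (hf : f < m) {lin : List (ℤ × ℤ)} {cs : List (ℤ × List ℤ)}
    (h : gder m eqs D f lin cs = true) {j : ℕ} (hj : j < m) :
    (D : ℝ) * A (j : ZMod m) = (lin.getD j (0, 0)).1 + (lin.getD j (0, 0)).2 * A (f : ZMod m) := by
  unfold gder at h
  rw [List.all_eq_true] at h
  have h0 := h j (List.mem_range.2 hj)
  rw [Bool.and_eq_true, Bool.and_eq_true, List.all_eq_true, bne_iff_ne, beq_iff_eq] at h0
  obtain ⟨⟨h1, h2⟩, h3⟩ := h0
  obtain ⟨c, hc⟩ : ∃ c, c = cs.getD j (0, []) := ⟨_, rfl⟩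
  obtain ⟨l, hl⟩ : ∃ l, l = lin.getD j (0, 0) := ⟨_, rfl⟩
  rw [← hc] at h1 h2 h3
  rw [← hl] at h2 h3
  rw [← hl]
  have hlc := lc_holds hE c.2
  have h5 : ∀ i : ZMod m, ((lcCo c.2 eqs i.val : ℤ) : ℝ) * A i =
      (c.1 : ℝ) * ((if i.val = j then (D : ℝ) else 0) * A i -
        (if i.val = f then (l.2 : ℝ) else 0) * A i) := by
    intro i
    have h6 := h2 i.val (List.mem_range.2 (ZMod.val_lt i))
    rw [beq_iff_eq] at h6
    rw [h6]
    push_cast
    ring
  rw [Finset.sum_congr rfl (fun i _ => h5 i), ← Finset.mul_sum, Finset.sum_sub_distrib,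
    single_a8 A hj, single_a8 A hf, h3] at hlc
  push_cast at hlc
  have h7 : (c.1 : ℝ) ≠ 0 := by exact_mod_cast h1
  have h8 := mul_left_cancel₀ h7 hlc
  linarith

/-- the partial sums in `gdirs` -/
private def gsc_a8 (D : ℤ) : ℤ × ℤ → List (ℤ × ℤ) → List (ℤ × ℤ)
  | _, [] => []
  | p, c :: l => (p.1 + D - c.1, p.2 - c.2) :: gsc_a8 D (p.1 + D - c.1, p.2 - c.2) l

private theorem gfold_a8 (D : ℤ) (l : List (ℤ × ℤ)) (p : ℤ × ℤ) (acc : List (ℤ × ℤ)) :
    (l.foldl (fun (x : (ℤ × ℤ) × List (ℤ × ℤ)) (c : ℤ × ℤ) =>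
      ((x.1.1 + D - c.1, x.1.2 - c.2), x.2 ++ [(x.1.1 + D - c.1, x.1.2 - c.2)])) (p, acc)).2 =
      acc ++ gsc_a8 D p l := by
  induction l generalizing p acc with
  | nil => simp [gsc_a8]
  | cons c l ih =>
    rw [List.foldl_cons, ih]
    simp [gsc_a8]

private theorem gdirs_a8 (D : ℤ) (lin : List (ℤ × ℤ)) :
    gdirs D lin = (0, 0) :: gsc_a8 D (0, 0) lin.tail := by
  unfold gdirs
  rw [gfold_a8]
  rfl

private theorem gsc_len_a8 (D : ℤ) (p : ℤ × ℤ) (l : List (ℤ × ℤ)) :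
    (gsc_a8 D p l).length = l.length := by
  induction l generalizing p with
  | nil => rfl
  | cons c l ih =>
    show (gsc_a8 D _ l).length + 1 = l.length + 1
    rw [ih]

private theorem gsc_get_a8 (D : ℤ) (p : ℤ × ℤ) (l : List (ℤ × ℤ)) (j : ℕ) (hj : j < l.length) :
    (p :: gsc_a8 D p l).getD (j + 1) (0, 0) =
      (((p :: gsc_a8 D p l).getD j (0, 0)).1 + D - (l.getD j (0, 0)).1,
        ((p :: gsc_a8 D p l).getD j (0, 0)).2 - (l.getD j (0, 0)).2) := by
  induction l generalizing p j with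
  | nil => exact absurd hj (by simp)
  | cons c l ih =>
    cases j with
    | zero => rfl
    | succ j =>
      exact ih (p.1 + D - c.1, p.2 - c.2) j (by simpa using hj)

private theorem gdirs_len_a8 (D : ℤ) {lin : List (ℤ × ℤ)} (hl : lin.length = m) :
    (gdirs D lin).length = m := by
  have hm := NeZero.pos m
  rw [gdirs_a8, List.length_cons, gsc_len_a8, List.length_tail, hl]
  omega

private theorem phi_a8 (P : ClD m) {D : ℤ} {lin : List (ℤ × ℤ)} (hl : lin.length = m) {t : ℝ}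
    (hA : ∀ j < m, (D : ℝ) * (P.ang (j : ZMod m) / Real.pi) =
      (lin.getD j (0, 0)).1 + (lin.getD j (0, 0)).2 * t) (j : ℕ) (hj : j < m) :
    (D : ℝ) * gPhiA P j = Real.pi * (((gdirs D lin).getD j (0, 0)).1 +
      ((gdirs D lin).getD j (0, 0)).2 * t) := by
  induction j with
  | zero =>
    rw [gdirs_a8]
    unfold gPhiA
    simp
  | succ j ih =>
    have ih' := ih (by omega)
    have h1 : gPhiA P (j + 1) = gPhiA P j + (Real.pi - P.ang ((j + 1 : ℕ) : ZMod m)) := by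
      unfold gPhiA
      rw [Finset.sum_range_succ]
    have h2 : (gdirs D lin).getD (j + 1) (0, 0) =
        (((gdirs D lin).getD j (0, 0)).1 + D - (lin.getD (j + 1) (0, 0)).1,
          ((gdirs D lin).getD j (0, 0)).2 - (lin.getD (j + 1) (0, 0)).2) := by
      have h3 : lin.getD (j + 1) (0, 0) = lin.tail.getD j (0, 0) := by
        cases lin with
        | nil => rfl
        | cons c l => rfl
      rw [gdirs_a8, h3]
      refine gsc_get_a8 D (0, 0) lin.tail j ?_
      rw [List.length_tail, hl]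
      omega
    have h4 := hA (j + 1) hj
    have hpi := Real.pi_pos
    have h5 : (D : ℝ) * P.ang ((j + 1 : ℕ) : ZMod m) =
        Real.pi * ((lin.getD (j + 1) (0, 0)).1 + (lin.getD (j + 1) (0, 0)).2 * t) := by
      rw [← h4]
      field_simp
    rw [h1, h2, mul_add, ih', mul_sub, h5]
    push_cast
    ring

/-! ### sums over a class of sides -/

/-- sum of the directions of the sides of the class `c` with numbers `< n` -/
noncomputable def gSA (P : ClD m) (cls : ZMod m → ℕ) (c n : ℕ) : ℂ :=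
  ∑ j ∈ Finset.range n, if cls (j : ZMod m) = c then gz (gPhiA P j) else 0

private theorem gSA_norm_a8 (P : ClD m) (cls : ZMod m → ℕ) (c n : ℕ) :
    ‖gSA P cls c n‖ ≤ (((List.range n).map fun j : ℕ => cls (j : ZMod m)).count c : ℝ) := by
  induction n with
  | zero => simp [gSA]
  | succ n ih =>
    have h1 : gSA P cls c (n + 1) = gSA P cls c n +
        (if cls (n : ZMod m) = c then gz (gPhiA P n) else 0) := by
      unfold gSA
      rw [Finset.sum_range_succ]
    rw [h1, List.range_succ, List.map_append, List.count_append, List.map_singleton,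
      List.count_singleton]
    refine (norm_add_le _ _).trans ?_
    by_cases hc : cls (n : ZMod m) = c
    · rw [if_pos hc, if_pos (by rw [beq_iff_eq]; exact hc), gz_norm]
      push_cast
      linarith
    · rw [if_neg hc, if_neg (by rw [beq_iff_eq]; exact hc), norm_zero]
      push_cast
      linarith

private theorem gfl_a8 (P : ClD m) (cls : ZMod m → ℕ) (c n : ℕ) (v : ℕ → (ℤ × ℤ) × ℤ)
    (hv : ∀ j < n, ‖gcx (v j).1 - 1073741824 * gz (gPhiA P j)‖ ≤ (v j).2) :
    ‖gcx ((List.range n).foldl (fun x (j : ℕ) => if cls (j : ZMod m) = c then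
      ((x.1.1 + (v j).1.1, x.1.2 + (v j).1.2), x.2 + (v j).2) else x)
        (((0, 0) : ℤ × ℤ), (0 : ℤ))).1 - 1073741824 * gSA P cls c n‖ ≤
      ((List.range n).foldl (fun x (j : ℕ) => if cls (j : ZMod m) = c then
      ((x.1.1 + (v j).1.1, x.1.2 + (v j).1.2), x.2 + (v j).2) else x)
        (((0, 0) : ℤ × ℤ), (0 : ℤ))).2 := by
  induction n with
  | zero => simp [gSA, gcx]
  | succ n ih =>
    have ih' := ih fun j hj => hv j (by omega)
    have h1 : gSA P cls c (n + 1) = gSA P cls c n +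
        (if cls (n : ZMod m) = c then gz (gPhiA P n) else 0) := by
      unfold gSA
      rw [Finset.sum_range_succ]
    rw [h1, List.range_succ, List.foldl_append, List.foldl_cons, List.foldl_nil]
    obtain ⟨x, hx⟩ : ∃ x, x = (List.range n).foldl (fun x (j : ℕ) => if cls (j : ZMod m) = c then
      ((x.1.1 + (v j).1.1, x.1.2 + (v j).1.2), x.2 + (v j).2) else x)
        (((0, 0) : ℤ × ℤ), (0 : ℤ)) := ⟨_, rfl⟩
    rw [← hx] at ih' ⊢
    by_cases hc : cls (n : ZMod m) = c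
    · rw [if_pos hc, if_pos hc]
      have h2 := hv n (by omega)
      have h3 : gcx (x.1.1 + (v n).1.1, x.1.2 + (v n).1.2) -
          1073741824 * (gSA P cls c n + gz (gPhiA P n)) =
          (gcx x.1 - 1073741824 * gSA P cls c n) + (gcx (v n).1 - 1073741824 * gz (gPhiA P n)) := by
        unfold gcx
        push_cast
        ring
      show ‖gcx (x.1.1 + (v n).1.1, x.1.2 + (v n).1.2) -
          1073741824 * (gSA P cls c n + gz (gPhiA P n))‖ ≤ ((x.2 + (v n).2 : ℤ) : ℝ)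
      rw [h3]
      refine (norm_add_le _ _).trans ?_
      push_cast
      linarith
    · rw [if_neg hc, if_neg hc, add_zero]
      exact ih'

private theorem gsum_a8 (P : ClD m) (cls : ZMod m → ℕ) {ds : List (ℤ × ℤ)} (hd : ds.length = m)
    (g : ℤ × ℤ → (ℤ × ℤ) × ℤ)
    (hv : ∀ j < m, ‖gcx (g (ds.getD j (0, 0))).1 - 1073741824 * gz (gPhiA P j)‖ ≤
      (g (ds.getD j (0, 0))).2) (c : ℕ) :
    ‖gcx (gsum ((List.range m).map fun j : ℕ => cls (j : ZMod m)) (ds.map g) c).1 -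
      1073741824 * gSA P cls c m‖ ≤
      (gsum ((List.range m).map fun j : ℕ => cls (j : ZMod m)) (ds.map g) c).2 := by
  have h1 : ds.map g = (List.range m).map fun j : ℕ => g (ds.getD j (0, 0)) := by
    refine List.ext_getElem (by simp [hd]) fun i h2 h3 => ?_
    have h4 : i < ds.length := by simpa using h2
    simp [List.getElem?_eq_getElem h4]
  have h2 : gsum ((List.range m).map fun j : ℕ => cls (j : ZMod m)) (ds.map g) c =
      (List.range m).foldl (fun x (j : ℕ) => if cls (j : ZMod m) = c then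
      ((x.1.1 + (g (ds.getD j (0, 0))).1.1, x.1.2 + (g (ds.getD j (0, 0))).1.2),
        x.2 + (g (ds.getD j (0, 0))).2) else x) (((0, 0) : ℤ × ℤ), (0 : ℤ)) := by
    unfold gsum
    rw [h1, List.zip_map', List.foldl_map]
  rw [h2]
  exact gfl_a8 P cls c m (fun j => g (ds.getD j (0, 0))) hv

/-- the closing relation -/
private theorem close_a8 (P : ClD m) {cls : ZMod m → ℕ}
    (hlen : ∀ j k, cls j = cls k → P.len j = P.len k) (hcl : ∀ j < m, cls ((j : ℕ) : ZMod m) < 2) :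
    ∃ x y : ℝ, 0 < x ∧ 0 < y ∧ (x : ℂ) * gSA P cls 0 m + (y : ℂ) * gSA P cls 1 m = 0 := by
  classical
  have hL : ∀ c : ℕ, ∃ x : ℝ, 0 < x ∧ ∀ j, cls j = c → P.len j = x := by
    intro c
    by_cases h : ∃ j, cls j = c
    · obtain ⟨j, hj⟩ := h
      exact ⟨P.len j, P.len_pos j, fun k hk => hlen k j (hk.trans hj.symm)⟩
    · exact ⟨1, one_pos, fun k hk => absurd ⟨k, hk⟩ h⟩
  obtain ⟨x, hx0, hx⟩ := hL 0
  obtain ⟨y, hy0, hy⟩ := hL 1
  refine ⟨x, y, hx0, hy0, ?_⟩
  have h1 := P.dr_sum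
  have h2 : ∑ j : ZMod m, (P.len j : ℂ) * P.dr j =
      ∑ j ∈ Finset.range m, (P.len (j : ZMod m) : ℂ) * P.dr (j : ZMod m) := by
    refine Finset.sum_bij (fun j _ => j.val) ?_ ?_ ?_ ?_
    · intro j _
      exact Finset.mem_range.2 (ZMod.val_lt j)
    · intro j _ k _ h
      exact ZMod.val_injective m h
    · intro q hq
      refine ⟨(q : ZMod m), Finset.mem_univ _, ?_⟩
      exact ZMod.val_natCast_of_lt (Finset.mem_range.1 hq)
    · intro j _
      rw [ZMod.natCast_zmod_val]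
  rw [h2] at h1
  have h3 : ∑ j ∈ Finset.range m, (P.len (j : ZMod m) : ℂ) * P.dr (j : ZMod m) =
      P.dr 0 * ((x : ℂ) * gSA P cls 0 m + (y : ℂ) * gSA P cls 1 m) := by
    unfold gSA
    rw [Finset.mul_sum, Finset.mul_sum, ← Finset.sum_add_distrib, Finset.mul_sum]
    refine Finset.sum_congr rfl fun j hj => ?_
    have h4 := hcl j (Finset.mem_range.1 hj)
    rw [dr_a8]
    have h5 : cls (j : ZMod m) = 0 ∨ cls (j : ZMod m) = 1 := by omega
    rcases h5 with h5 | h5
    · rw [hx _ h5, h5, if_pos rfl, if_neg (by norm_num)]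
      ring
    · rw [hy _ h5, h5, if_pos rfl, if_neg (by norm_num)]
      ring
  rw [h3, mul_eq_zero] at h1
  exact h1.resolve_left (P.dr_ne 0)

/-! ### the test -/

private theorem lin_a8 {x y B T a b : ℝ} (h1 : a ≤ T) (h2 : T ≤ b) (ha : x + y * a ≤ B)
    (hb : x + y * b ≤ B) : x + y * T ≤ B := by
  rcases le_total 0 y with h | h
  · nlinarith
  · nlinarith

private theorem two_a8 {X Y V W : ℂ} {x y e f n0 n1 : ℝ} (hx : 0 < x) (hy : 0 < y)
    (h : (x : ℂ) * V + (y : ℂ) * W = 0) (hX : ‖X - V‖ ≤ e) (hY : ‖Y - W‖ ≤ f) (hV : ‖V‖ ≤ n0)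
    (hW : ‖W‖ ≤ n1) :
    |(X * (starRingEnd ℂ) Y).im| ≤ n1 * e + (n0 + e) * f ∧
    (X * (starRingEnd ℂ) Y).re ≤ n1 * e + (n0 + e) * f := by
  have he : 0 ≤ e := (norm_nonneg _).trans hX
  have hf : 0 ≤ f := (norm_nonneg _).trans hY
  have hn0 : 0 ≤ n0 := (norm_nonneg _).trans hV
  have hV' : V = ((-(y / x) : ℝ) : ℂ) * W := by
    have hx' : (x : ℂ) ≠ 0 := by exact_mod_cast hx.ne'
    have h1 : (x : ℂ) * V = (x : ℂ) * (((-(y / x) : ℝ) : ℂ) * W) := by
      push_cast
      field_simp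
      linear_combination h
    exact mul_left_cancel₀ hx' h1
  have hVW : V * (starRingEnd ℂ) W = ((-(y / x) * Complex.normSq W : ℝ) : ℂ) := by
    rw [hV', mul_assoc, Complex.mul_conj]
    push_cast
    ring
  have hsplit : X * (starRingEnd ℂ) Y = V * (starRingEnd ℂ) W + ((X - V) * (starRingEnd ℂ) W +
      X * (starRingEnd ℂ) (Y - W)) := by
    rw [map_sub]
    ring
  have hXn : ‖X‖ ≤ n0 + e := by
    have : X = V + (X - V) := by ring
    rw [this]
    exact (norm_add_le _ _).trans (add_le_add hV hX)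
  have herr : ‖(X - V) * (starRingEnd ℂ) W + X * (starRingEnd ℂ) (Y - W)‖ ≤
      n1 * e + (n0 + e) * f := by
    refine (norm_add_le _ _).trans ?_
    rw [norm_mul, norm_mul, Complex.norm_conj, Complex.norm_conj]
    have h1 : ‖X - V‖ * ‖W‖ ≤ e * n1 := mul_le_mul hX hW (norm_nonneg _) he
    have h2 : ‖X‖ * ‖Y - W‖ ≤ (n0 + e) * f := mul_le_mul hXn hY (norm_nonneg _) (by positivity)
    linarith
  rw [hsplit, hVW]
  constructor
  · rw [Complex.add_im, Complex.ofReal_im, zero_add]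
    exact (Complex.abs_im_le_norm _).trans herr
  · rw [Complex.add_re, Complex.ofReal_re]
    have h1 := (le_abs_self _).trans ((Complex.abs_re_le_norm
      ((X - V) * (starRingEnd ℂ) W + X * (starRingEnd ℂ) (Y - W))).trans herr)
    have h2 : 0 ≤ y / x * Complex.normSq W := mul_nonneg (by positivity) (Complex.normSq_nonneg _)
    linarith

private theorem gtest_a8 (P : ClD m) {cls : ZMod m → ℕ}
    (hlen : ∀ j k, cls j = cls k → P.len j = P.len k) (hcl : ∀ j < m, cls ((j : ℕ) : ZMod m) < 2)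
    {D : ℤ} (hD : 0 < D) {lin : List (ℤ × ℤ)} (hl : lin.length = m) {t : ℝ}
    (hA : ∀ j < m, (D : ℝ) * (P.ang (j : ZMod m) / Real.pi) =
      (lin.getD j (0, 0)).1 + (lin.getD j (0, 0)).2 * t) {s1 s2 : ℤ}
    (h1 : (s1 : ℝ) ≤ t * 1048576) (h2 : t * 1048576 ≤ s2)
    (h : gtest ((List.range m).map fun j : ℕ => cls (j : ZMod m)) D lin (gdirs D lin) s1 s2 = true) :
    False := by
  have hD' : (0 : ℝ) < D := by exact_mod_cast hD
  have hpi := Real.pi_pos
  unfold gtest at h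
  rw [Bool.or_eq_true] at h
  rcases h with h | h
  · rw [List.any_eq_true] at h
    obtain ⟨c, hc, h⟩ := h
    obtain ⟨j, hj, rfl⟩ := List.mem_iff_getElem.1 hc
    have hj' : j < m := by rwa [hl] at hj
    have hAj := hA j hj'
    have hg : lin.getD j (0, 0) = lin[j] := List.getD_eq_getElem _ _ hj
    rw [hg] at hAj
    have a1 : 0 < P.ang (j : ZMod m) / Real.pi := div_pos (P.ang_pos _) hpi
    have a2 : P.ang (j : ZMod m) / Real.pi < 2 := by
      rw [div_lt_iff₀ hpi]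
      exact P.ang_lt _
    have a3 : 0 < (D : ℝ) * (P.ang (j : ZMod m) / Real.pi) := mul_pos hD' a1
    have a4 : (D : ℝ) * (P.ang (j : ZMod m) / Real.pi) < D * 2 := mul_lt_mul_of_pos_left a2 hD'
    rw [hAj] at a3 a4
    rw [Bool.or_eq_true, Bool.and_eq_true, Bool.and_eq_true, decide_eq_true_eq, decide_eq_true_eq,
      decide_eq_true_eq, decide_eq_true_eq] at h
    rcases h with ⟨b1, b2⟩ | ⟨b1, b2⟩
    · have b1' : (lin[j].1 : ℝ) * 1048576 + lin[j].2 * s1 ≤ 0 := by exact_mod_cast b1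
      have b2' : (lin[j].1 : ℝ) * 1048576 + lin[j].2 * s2 ≤ 0 := by exact_mod_cast b2
      have := lin_a8 h1 h2 b1' b2'
      linarith
    · have b1' : 2 * (D : ℝ) * 1048576 ≤ (lin[j].1 : ℝ) * 1048576 + lin[j].2 * s1 := by
        exact_mod_cast b1
      have b2' : 2 * (D : ℝ) * 1048576 ≤ (lin[j].1 : ℝ) * 1048576 + lin[j].2 * s2 := by
        exact_mod_cast b2
      have := lin_a8 (x := -((lin[j].1 : ℝ) * 1048576)) (y := -(lin[j].2 : ℝ))
        (B := -(2 * (D : ℝ) * 1048576)) h1 h2 (by linarith) (by linarith)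
      linarith
  · obtain ⟨s, hs⟩ : ∃ s, s = (s1 + s2) / 2 := ⟨_, rfl⟩
    obtain ⟨hh, hhh⟩ : ∃ hh, hh = (s2 - s1) / 2 + 1 := ⟨_, rfl⟩
    have ht : |t * 1048576 - s| ≤ hh := by
      have c1 : s2 ≤ s + hh := by omega
      have c2 : s ≤ s1 + hh := by omega
      have c1' : (s2 : ℝ) ≤ s + hh := by exact_mod_cast c1
      have c2' : (s : ℝ) ≤ s1 + hh := by exact_mod_cast c2
      rw [abs_le]
      constructor <;> linarith
    have key := gsum_a8 P cls (gdirs_len_a8 D hl) (gdir D s hh) fun j hj =>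
      gdir_err hD (phi_a8 P hl hA j hj) ht
    obtain ⟨x, y, hx, hy, hxy⟩ := close_a8 P hlen hcl
    dsimp only at h
    rw [← hs, ← hhh] at h
    obtain ⟨cl, hclv⟩ : ∃ cl, cl = (List.range m).map fun j : ℕ => cls (j : ZMod m) := ⟨_, rfl⟩
    rw [← hclv] at h key
    have k0 := key 0
    have k1 := key 1
    obtain ⟨X, hX⟩ : ∃ X, X = gsum cl ((gdirs D lin).map (gdir D s hh)) 0 := ⟨_, rfl⟩
    obtain ⟨Y, hY⟩ : ∃ Y, Y = gsum cl ((gdirs D lin).map (gdir D s hh)) 1 := ⟨_, rfl⟩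
    rw [← hX] at k0 h
    rw [← hY] at k1 h
    have hre : (gcx X.1 * (starRingEnd ℂ) (gcx Y.1)).re = (X.1.1 : ℝ) * Y.1.1 + X.1.2 * Y.1.2 := by
      unfold gcx
      simp
    have him : (gcx X.1 * (starRingEnd ℂ) (gcx Y.1)).im = (X.1.2 : ℝ) * Y.1.1 - X.1.1 * Y.1.2 := by
      unfold gcx
      simp
      ring
    by_cases hc : cl.contains 1 = true
    · rw [if_pos hc, Bool.or_eq_true, decide_eq_true_eq, decide_eq_true_eq] at h
      have n0 := gSA_norm_a8 P cls 0 m
      have n1 := gSA_norm_a8 P cls 1 m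
      rw [← hclv] at n0 n1
      have n0' : ‖(1073741824 : ℂ) * gSA P cls 0 m‖ ≤ (cl.count 0 : ℝ) * 1073741824 := by
        rw [norm_mul, Complex.norm_ofNat]
        linarith
      have n1' : ‖(1073741824 : ℂ) * gSA P cls 1 m‖ ≤ (cl.count 1 : ℝ) * 1073741824 := by
        rw [norm_mul, Complex.norm_ofNat]
        linarith
      have hxy' : (x : ℂ) * (1073741824 * gSA P cls 0 m) + (y : ℂ) * (1073741824 * gSA P cls 1 m) = 0 := by
        linear_combination (1073741824 : ℂ) * hxy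
      obtain ⟨r1, r2⟩ := two_a8 hx hy hxy' k0 k1 n0' n1'
      rw [hre] at r2
      rw [him] at r1
      rcases h with h | h
      · have h' : ((cl.count 1 : ℕ) : ℝ) * 1073741824 * X.2 +
            (((cl.count 0 : ℕ) : ℝ) * 1073741824 + X.2) * Y.2 <
            |(X.1.2 : ℝ) * Y.1.1 - X.1.1 * Y.1.2| := by exact_mod_cast h
        linarith
      · have h' : ((cl.count 1 : ℕ) : ℝ) * 1073741824 * X.2 +
            (((cl.count 0 : ℕ) : ℝ) * 1073741824 + X.2) * Y.2 <
            (X.1.1 : ℝ) * Y.1.1 + X.1.2 * Y.1.2 := by exact_mod_cast h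
        linarith
    · rw [if_neg hc, decide_eq_true_eq] at h
      have hS1 : gSA P cls 1 m = 0 := by
        unfold gSA
        refine Finset.sum_eq_zero fun j hj => if_neg fun h3 => hc ?_
        rw [List.contains_iff_mem, hclv, List.mem_map]
        exact ⟨j, List.mem_range.2 (Finset.mem_range.1 hj), h3⟩
      rw [hS1, mul_zero, add_zero, mul_eq_zero] at hxy
      have hS0 : gSA P cls 0 m = 0 := hxy.resolve_left (by exact_mod_cast hx.ne')
      rw [hS0, mul_zero, sub_zero] at k0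
      have h3 : ‖gcx X.1‖ ^ 2 = (X.1.1 : ℝ) ^ 2 + (X.1.2 : ℝ) ^ 2 := by
        rw [Complex.sq_norm]
        unfold gcx
        have h4 : ((X.1.1 : ℂ) + (X.1.2 : ℂ) * I) =
            (((X.1.1 : ℝ) : ℂ) + ((X.1.2 : ℝ) : ℂ) * I) := by push_cast; rfl
        rw [h4, Complex.normSq_add_mul_I]
      have h' : (X.2 : ℝ) * X.2 < (X.1.1 : ℝ) * X.1.1 + X.1.2 * X.1.2 := by exact_mod_cast h
      have h5 : ‖gcx X.1‖ ^ 2 ≤ (X.2 : ℝ) ^ 2 := pow_le_pow_left₀ (norm_nonneg _) k0 2
      rw [h3] at h5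
      linarith

private theorem gbis_a8 (P : ClD m) {cls : ZMod m → ℕ}
    (hlen : ∀ j k, cls j = cls k → P.len j = P.len k) (hcl : ∀ j < m, cls ((j : ℕ) : ZMod m) < 2)
    {D : ℤ} (hD : 0 < D) {lin : List (ℤ × ℤ)} (hl : lin.length = m) {t : ℝ}
    (hA : ∀ j < m, (D : ℝ) * (P.ang (j : ZMod m) / Real.pi) =
      (lin.getD j (0, 0)).1 + (lin.getD j (0, 0)).2 * t) (fuel : ℕ) {s1 s2 : ℤ}
    (h1 : (s1 : ℝ) ≤ t * 1048576) (h2 : t * 1048576 ≤ s2)
    (h : gbis ((List.range m).map fun j : ℕ => cls (j : ZMod m)) D lin (gdirs D lin) fuel s1 s2 = true) :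
    False := by
  induction fuel generalizing s1 s2 with
  | zero =>
    unfold gbis at h
    exact absurd h (by simp)
  | succ fuel ih =>
    unfold gbis at h
    rw [Bool.or_eq_true, Bool.and_eq_true] at h
    rcases h with h | ⟨h3, h4⟩
    · exact gtest_a8 P hlen hcl hD hl hA h1 h2 h
    · rcases le_total (t * 1048576) ((((s1 + s2) / 2 : ℤ)) : ℝ) with h5 | h5
      · exact ih h1 h5 h3
      · exact ih h5 h2 h4

omit [NeZero m] in
private theorem list_a8 (cls : ZMod m → ℕ) : ((List.range m).map fun j => cls (j : ZMod m)) =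
    (List.range m).map fun j : ℕ => cls (j : ZMod m) := by
  simp only [List.map_eq_flatMap, List.bind_eq_flatMap, List.pure_def, List.flatMap_assoc]
  rfl

theorem geo_soundD (P : ClD m) {cls : ZMod m → ℕ} (hlen : ∀ j k, cls j = cls k → P.len j = P.len k)
    {eqs : List Eqn} (hE : ∀ E ∈ eqs, Eqn.Holds E fun j => P.ang j / Real.pi) {D : ℤ} {f : ℕ}
    {lin : List (ℤ × ℤ)} {cs : List (ℤ × List ℤ)} {fuel : ℕ}
    (h : geoB cls eqs D f lin cs fuel = true) : False := by
  have hpi := Real.pi_pos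
  unfold geoB at h
  rw [Bool.and_eq_true, Bool.and_eq_true, Bool.and_eq_true, Bool.and_eq_true, Bool.and_eq_true,
    decide_eq_true_eq, decide_eq_true_eq, beq_iff_eq, List.all_eq_true] at h
  obtain ⟨⟨⟨⟨⟨hD, hf⟩, hl⟩, hcl⟩, hg⟩, hb⟩ := h
  rw [list_a8] at hb
  have a1 : 0 < P.ang (f : ZMod m) / Real.pi := div_pos (P.ang_pos _) hpi
  have a2 : P.ang (f : ZMod m) / Real.pi < 2 := by
    rw [div_lt_iff₀ hpi]
    exact P.ang_lt _
  refine gbis_a8 P hlen (fun j hj => ?_) hD hl (t := P.ang (f : ZMod m) / Real.pi)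
    (fun j hj => gder_a8 hE hf hg hj) fuel ?_ ?_ hb
  · have := hcl j (List.mem_range.2 hj)
    rwa [decide_eq_true_eq] at this
  · push_cast
    linarith
  · push_cast
    linarith



/-- closing data of the chords of arcs -/
noncomputable def clA {n : ℕ} {P : Polygon n} (S : Arcs P m) (hm : 2 ≤ m) {b : ZMod m → ℝ}
    (hb : S.ChordAng b) (h0 : ∀ j, 0 < b j) (h2 : ∀ j, b j < 2) : ClD m where
  ang := fun j => b j * Real.pi
  len := fun j => ‖S.ch j‖
  dr := fun j => S.ch j / (‖S.ch j‖ : ℂ)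
  ang_pos := fun j => mul_pos (h0 j) Real.pi_pos
  ang_lt := fun j => mul_lt_mul_of_pos_right (h2 j) Real.pi_pos
  len_pos := fun j => norm_pos_iff.2 (S.ch_ne hm j)
  dr_ne := fun j => div_ne_zero (S.ch_ne hm j) (by exact_mod_cast norm_ne_zero_iff.2 (S.ch_ne hm j))
  dr_step := fun j => by
    have h := hb.dir hm (j : ZMod m)
    have e : ((j + 1 : ℕ) : ZMod m) = (j : ZMod m) + 1 := by push_cast; rfl
    rw [e, h]
    unfold gz
    congr 3
    push_cast
    ring
  dr_sum := by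
    have h1 : ∀ j : ZMod m, ((‖S.ch j‖ : ℝ) : ℂ) * (S.ch j / (‖S.ch j‖ : ℂ)) = S.V (j + 1) - S.V j := by
      intro j
      have h3 : ((‖S.ch j‖ : ℝ) : ℂ) ≠ 0 := by exact_mod_cast norm_ne_zero_iff.2 (S.ch_ne hm j)
      rw [mul_div_cancel₀ _ h3]
      rfl
    simp only [h1]
    rw [Finset.sum_sub_distrib]
    have h2 : ∑ j : ZMod m, S.V (j + 1) = ∑ j : ZMod m, S.V j :=
      Equiv.sum_comp (Equiv.addRight (1 : ZMod m)) S.V
    rw [h2, sub_self]

/-- soundness of `geoB` for chords of arcs -/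
theorem geo_soundA {n : ℕ} {P : Polygon n} (S : Arcs P m) (hm : 2 ≤ m) {b : ZMod m → ℝ}
    (hb : S.ChordAng b) (h0 : ∀ j, 0 < b j) (h2 : ∀ j, b j < 2) {cls : ZMod m → ℕ}
    (hlen : ∀ j k, cls j = cls k → ‖S.ch j‖ = ‖S.ch k‖)
    {eqs : List Eqn} (hE : ∀ E ∈ eqs, Eqn.Holds E b) {D : ℤ} {f : ℕ}
    {lin : List (ℤ × ℤ)} {cs : List (ℤ × List ℤ)} {fuel : ℕ}
    (h : geoB cls eqs D f lin cs fuel = true) : False := by
  refine geo_soundD (clA S hm hb h0 h2) hlen (eqs := eqs) (fun E hE' => ?_) h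
  have h3 : (fun j => (clA S hm hb h0 h2).ang j / Real.pi) = b := by
    funext j
    change b j * Real.pi / Real.pi = b j
    have := Real.pi_pos
    field_simp
  rw [h3]
  exact hE E hE'

end Pool.Agent.Lib_MP_fa6e45
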