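import Pool.Agent.Lib_MP_fa6e45.CT3

/-!
MP_fa6e45_co, the torus theorem: copies of a tile glued to a closed surface with angle sum `2 π` at every vertex
give a periodic tiling.
-/

open Set MeasureTheory Complex
open scoped Topology

namespace Pool.Agent.Lib_MP_fa6e45

open Pool.Agent.Lib_PL (cr InSector Poly)
variable {n : ℕ} {P : Polygon n} {m : ℕ} [NeZero m]

/-! ### values of words -/

theorem evL_fix {A B : Equiv.Perm ℂ} {f : ℂ} (hA : A f = f) (hB : B f = f) (l : ℕ) :
    evLt A B l f = f := by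
  have hA' : A⁻¹ f = f := by
    conv_lhs => rw [← hA]
    exact TT.perm_inv A f
  have hB' : B⁻¹ f = f := by
    conv_lhs => rw [← hB]
    exact TT.perm_inv B f
  match l with
  | 0 => exact hA
  | 1 => exact hA'
  | 2 => exact hB
  | (n + 3) => exact hB'

theorem evW_fix {A B : Equiv.Perm ℂ} {f : ℂ} (hA : A f = f) (hB : B f = f) (w : List ℕ) :
    evW A B w f = f := by
  induction w with
  | nil => rfl
  | cons l w ih =>
    rw [evW_cons]
    change evLt A B l (evW A B w f) = f
    rw [ih, evL_fix hA hB]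

theorem lv_zero' (u w : ℂ) : lv u w 0 = 0 := by simp [lv]

theorem lv_add' (u w : ℂ) (a b : ℤ × ℤ) : lv u w (a + b) = lv u w a + lv u w b := by
  simp only [lv, Prod.fst_add, Prod.snd_add]
  push_cast
  ring

theorem lv_neg' (u w : ℂ) (a : ℤ × ℤ) : lv u w (-a) = -lv u w a := by
  simp only [lv, Prod.fst_neg, Prod.snd_neg]
  push_cast
  ring

theorem exW_cons (l : ℕ) (w : List ℕ) : exWd (l :: w) = exL l + exWd w := by simp [exWd]

theorem exW_append (v w : List ℕ) : exWd (v ++ w) = exWd v + exWd w := by simp [exWd]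

theorem evL_trans {A B : Equiv.Perm ℂ} {u w : ℂ} (hA : ∀ z, A z = z + u) (hB : ∀ z, B z = z + w)
    (l : ℕ) (z : ℂ) : evLt A B l z = z + lv u w (exL l) := by
  have hA' : A⁻¹ z = z - u := by
    have h := TT.perm_inv A (z - u)
    rw [hA, sub_add_cancel] at h
    exact h
  have hB' : B⁻¹ z = z - w := by
    have h := TT.perm_inv B (z - w)
    rw [hB, sub_add_cancel] at h
    exact h
  match l with
  | 0 => simp [evLt, exL, lv, hA]
  | 1 => simp [evLt, exL, lv, hA', sub_eq_add_neg]
  | 2 => simp [evLt, exL, lv, hB]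
  | (n + 3) => simp [evLt, exL, lv, hB', sub_eq_add_neg]

theorem evW_trans {A B : Equiv.Perm ℂ} {u w : ℂ} (hA : ∀ z, A z = z + u) (hB : ∀ z, B z = z + w)
    (v : List ℕ) (z : ℂ) : evW A B v z = z + lv u w (exWd v) := by
  induction v with
  | nil =>
    change z = z + lv u w 0
    rw [lv_zero', add_zero]
  | cons l v ih =>
    rw [evW_cons]
    change evLt A B l (evW A B v z) = _
    rw [ih, evL_trans hA hB, exW_cons, lv_add']
    ring

theorem exL_linv (l : ℕ) : exL (linv l) = -exL l := by
  match l with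
  | 0 => rfl
  | 1 => rfl
  | 2 => rfl
  | (n + 3) => rfl

theorem exW_fpush (l : ℕ) (w : List ℕ) : exWd (fpush l w) = exL l + exWd w := by
  cases w with
  | nil => simp [fpush, exWd]
  | cons a w =>
    have e : fpush l (a :: w) = if a = linv l then w else l :: a :: w := rfl
    rw [e]
    split_ifs with h
    · subst h
      rw [exW_cons, exL_linv]
      abel
    · rw [exW_cons]

theorem exW_fred (w : List ℕ) : exWd (fred w) = exWd w := by
  induction w with
  | nil => rfl
  | cons l w ih =>
    have h : fred (l :: w) = fpush l (fred w) := rfl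
    rw [h, exW_fpush, ih, exW_cons]

/-! ### commuting direct motions -/

theorem comm_cases {A B : Equiv.Perm ℂ} {a b c d : ℂ} (hA : ∀ z, A z = a * z + b)
    (hB : ∀ z, B z = c * z + d) (h : A * B = B * A) :
    ((∀ z, A z = z + b) ∧ (∀ z, B z = z + d)) ∨ ∃ f, A f = f ∧ B f = f := by
  have hc : ∀ z, A (B z) = B (A z) := fun z => congrArg (fun e : Equiv.Perm ℂ => e z) h
  by_cases ha : a = 1
  · by_cases hb : c = 1
    · left
      subst ha hb
      exact ⟨fun z => by rw [hA, one_mul], fun z => by rw [hB, one_mul]⟩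
    · right
      have h1 : 1 - c ≠ 0 := sub_ne_zero.2 (Ne.symm hb)
      refine ⟨d / (1 - c), ?_, ?_⟩
      · have h2 : B (d / (1 - c)) = d / (1 - c) := by
          rw [hB]
          field_simp
          ring
        have h3 : B (A (d / (1 - c))) = A (d / (1 - c)) := by rw [← hc, h2]
        rw [hB] at h3
        have h4 : (1 - c) * A (d / (1 - c)) = d := by linear_combination -h3
        rw [eq_div_iff h1]
        linear_combination h4
      · rw [hB]
        field_simp
        ring
  · right
    have h1 : 1 - a ≠ 0 := sub_ne_zero.2 (Ne.symm ha)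
    have h2 : A (b / (1 - a)) = b / (1 - a) := by
      rw [hA]
      field_simp
      ring
    refine ⟨b / (1 - a), h2, ?_⟩
    have h3 : A (B (b / (1 - a))) = B (b / (1 - a)) := by rw [hc, h2]
    rw [hA] at h3
    have h4 : (1 - a) * B (b / (1 - a)) = b := by linear_combination -h3
    rw [eq_div_iff h1]
    linear_combination h4

/-! ### lists -/

theorem list_sum_range {M : Type*} [AddCommMonoid M] (f : ℕ → M) (N : ℕ) :
    ((List.range N).map f).sum = ∑ x ∈ Finset.range N, f x := by
  induction N with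
  | zero => simp
  | succ N ih => rw [List.range_succ, List.map_append, List.sum_append, ih, Finset.sum_range_succ]; simp

theorem const_of_adj {α : Type*} (q : ℕ → α) (l : List ℕ) : ∀ (c e : ℕ),
    (∀ p ∈ (c :: l).zip (l ++ [e]), q p.1 = q p.2) → ∀ d ∈ c :: l, q d = q e := by
  induction l with
  | nil =>
    intro c e h d hd
    have h1 := h (c, e) (by simp)
    simp only [List.mem_singleton] at hd
    subst hd
    exact h1
  | cons x l ih =>
    intro c e h d hd
    have h1 : q c = q x := h (c, x) (by simp)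
    have h2 := ih x e (fun p hp => h p (by
      simp only [List.cons_append, List.zip_cons_cons, List.mem_cons]
      exact Or.inr hp))
    rcases List.mem_cons.1 hd with rfl | hd
    · rw [h1]
      exact h2 x (by simp)
    · exact h2 d hd

namespace TT

variable {T : TT} {S : Arcs P m}

/-! ### areas -/

theorem tot (F : T.F1 m) (hc : P.CCW) (hrel : ∀ x < T.k * m, S.Rel (x : ZMod m) (T.ta x : ZMod m)
      (T.rfc m x == T.rfc m (T.ta x))) (f : ℂ) :
    ∑ x ∈ Finset.range (T.k * m), cr (srcM S (T.pl S (x / m)) (x : ZMod m) - f)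
      (tgtM S (T.pl S (x / m)) (x : ZMod m) - f) = 2 * ((T.k : ℝ) * (volume P.region).toReal) := by
  rw [area_codes S hc F.hm T.k T.ta F.ta_lt F.ta_ta fun x hx => ⟨_, hrel x hx⟩]
  rw [sum_codes (m := m) T.k fun t j => cr (srcM S (T.pl S t) j - f) (tgtM S (T.pl S t) j - f)]
  rw [sum_codes (m := m) T.k fun _ j => cr (S.V j) (S.V (j + 1))]
  exact Finset.sum_congr rfl fun t _ => tile_sum S (T.pl S t) f

theorem vol_pos (F : T.F1 m) : 0 < 2 * ((T.k : ℝ) * (volume P.region).toReal) := by
  have h1 := P.volume_pos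
  have h2 : (0 : ℝ) < T.k := by exact_mod_cast F.hk
  positivity

theorem no_fix (F : T.F1 m) (hc : P.CCW) (hrel : ∀ x < T.k * m, S.Rel (x : ZMod m) (T.ta x : ZMod m)
      (T.rfc m x == T.rfc m (T.ta x))) (f : ℂ) (hf : ∀ x < T.k * m, T.hol S x f = f) : False := by
  have h1 := tot F hc hrel f
  have h2 := sum_invol T.ta F.ta_lt F.ta_ta (fun x => cr (srcM S (T.pl S (x / m)) (x : ZMod m) - f)
      (tgtM S (T.pl S (x / m)) (x : ZMod m) - f))
  have h3 : ∑ x ∈ Finset.range (T.k * m), cr (srcM S (T.pl S (x / m)) (x : ZMod m) - f)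
      (tgtM S (T.pl S (x / m)) (x : ZMod m) - f) =
      -∑ x ∈ Finset.range (T.k * m), cr (srcM S (T.pl S (T.ta x / m)) (T.ta x : ZMod m) - f)
      (tgtM S (T.pl S (T.ta x / m)) (T.ta x : ZMod m) - f) := by
    rw [← Finset.sum_neg_distrib]
    refine Finset.sum_congr rfl fun x hx => ?_
    have hx' := Finset.mem_range.1 hx
    obtain ⟨a, b, ha, hab⟩ := hol_dir (S := S) F hx'
    obtain ⟨e1, e2⟩ := pos_arc F hrel hx'
    have e3 := hf x hx'
    rw [hab] at e1 e2 e3
    have e4 : tgtM S (T.pl S (x / m)) (x : ZMod m) - f =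
        a * (srcM S (T.pl S (T.ta x / m)) (T.ta x : ZMod m) - f) := by
      linear_combination -e1 + e3
    have e5 : srcM S (T.pl S (x / m)) (x : ZMod m) - f =
        a * (tgtM S (T.pl S (T.ta x / m)) (T.ta x : ZMod m) - f) := by
      linear_combination -e2 + e3
    rw [e4, e5]
    have h4 : a.re * a.re + a.im * a.im = 1 := by
      rw [← Complex.normSq_apply, Complex.normSq_eq_norm_sq, ha]
      norm_num
    generalize srcM S (T.pl S (T.ta x / m)) (T.ta x : ZMod m) - f = p
    generalize tgtM S (T.pl S (T.ta x / m)) (T.ta x : ZMod m) - f = q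
    simp only [cr, Complex.mul_re, Complex.mul_im]
    linear_combination (q.re * p.im - q.im * p.re) * h4
  have h4 := vol_pos (P := P) F
  rw [h2] at h3
  linarith

/-- four times the area as a sum over the arcs -/
theorem area_lat (F : T.F1 m) (hc : P.CCW)
    (hrel : ∀ x < T.k * m, S.Rel (x : ZMod m) (T.ta x : ZMod m)
      (T.rfc m x == T.rfc m (T.ta x))) (l : ℕ → ℂ)
    (hl : ∀ x < T.k * m, ∀ z, T.hol S x z = z + l x) :
    4 * ((T.k : ℝ) * (volume P.region).toReal) =
      ∑ x ∈ Finset.range (T.k * m), cr (l x) (T.pos S (T.ct m x) - T.pos S (T.cs m x)) := by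
  have h1 := tot F hc hrel 0
  have h2 := sum_invol T.ta F.ta_lt F.ta_ta (fun x => cr (srcM S (T.pl S (x / m)) (x : ZMod m) - 0)
      (tgtM S (T.pl S (x / m)) (x : ZMod m) - 0))
  have h3 : ∑ x ∈ Finset.range (T.k * m), cr (srcM S (T.pl S (x / m)) (x : ZMod m) - 0)
      (tgtM S (T.pl S (x / m)) (x : ZMod m) - 0) =
      -∑ x ∈ Finset.range (T.k * m), cr (srcM S (T.pl S (T.ta x / m)) (T.ta x : ZMod m) - 0)
      (tgtM S (T.pl S (T.ta x / m)) (T.ta x : ZMod m) - 0) +
      ∑ x ∈ Finset.range (T.k * m), cr (l x) (T.pos S (T.ct m x) - T.pos S (T.cs m x)) := by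
    rw [← Finset.sum_neg_distrib, ← Finset.sum_add_distrib]
    refine Finset.sum_congr rfl fun x hx => ?_
    have hx' := Finset.mem_range.1 hx
    obtain ⟨e1, e2⟩ := pos_arc F hrel hx'
    obtain ⟨e3, e4⟩ := src_pos (S := S) F hx'
    rw [hl x hx'] at e1 e2
    rw [← e3, ← e4, ← e1, ← e2]
    generalize srcM S (T.pl S (T.ta x / m)) (T.ta x : ZMod m) = p
    generalize tgtM S (T.pl S (T.ta x / m)) (T.ta x : ZMod m) = q
    simp only [cr, sub_zero, add_re, add_im, sub_re, sub_im]
    ring
  rw [h2] at h3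
  linarith

/-- facts from the third check -/
structure F3 (T : TT) (m : ℕ) : Prop where
  mem : ∀ c < T.k * m, c ∈ T.stars.getD (T.sid.getD c 0) []
  adj : ∀ s ∈ T.stars, ∀ p ∈ s.zip (s.rotate 1), T.sid.getD p.1 0 = T.sid.getD p.2 0 ∧
      T.off.getD p.2 0 = T.off.getD p.1 0 - T.ew (T.ex m p.1)
  zero : ∀ s < T.stars.length, ∑ x ∈ Finset.range (T.k * m),
    ((if T.sid.getD (T.ct m x) 0 = s then T.ew x else 0) -
      (if T.sid.getD (T.cs m x) 0 = s then T.ew x else 0)) = 0
  ar : T.ar m = 4 ∨ T.ar m = -4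

theorem f3 (h : T.chk3 m = true) : F3 T m := by
  simp only [chk3, Bool.and_eq_true, List.all_eq_true, List.mem_range,
    beq_iff_eq, Bool.or_eq_true, List.contains_iff_mem] at h
  obtain ⟨⟨⟨h1, h2⟩, h3⟩, h4⟩ := h
  exact
    { mem := h1
      adj := h2
      zero := fun s hs => by
        rw [← list_sum_range]
        exact h3 s hs
      ar := h4 }

theorem ct_lt (hm : 2 ≤ m) {x : ℕ} (hx : x < T.k * m) : T.ct m x < T.k * m := by
  unfold ct
  split_ifs
  · exact hx
  · exact nxt_lt m hm hx

theorem cs_lt (hm : 2 ≤ m) {x : ℕ} (hx : x < T.k * m) : T.cs m x < T.k * m := by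
  unfold cs
  split_ifs
  · exact nxt_lt m hm hx
  · exact hx

theorem area_final (F : T.F1 m) (G : F3 T m) (hc : P.CCW)
    (hrel : ∀ x < T.k * m, S.Rel (x : ZMod m) (T.ta x : ZMod m)
      (T.rfc m x == T.rfc m (T.ta x))) (u w : ℂ)
    (hl : ∀ x < T.k * m, ∀ z, T.hol S x z = z + lv u w (T.ew x)) :
    (T.k : ℝ) * (volume P.region).toReal = |cr u w| := by
  have h1 := area_lat F hc hrel (fun x => lv u w (T.ew x)) hl
  obtain ⟨R, hR⟩ : ∃ R : ℕ → ℂ, ∀ c < T.k * m,
      T.pos S c = R (T.sid.getD c 0) + lv u w (T.off.getD c 0) := by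
    refine ⟨fun i => T.pos S ((T.stars.getD i []).headD 0) -
      lv u w (T.off.getD ((T.stars.getD i []).headD 0) 0), fun c hc' => ?_⟩
    have h2 := G.mem c hc'
    have h3 : T.sid.getD c 0 < T.stars.length := by
      by_contra hh
      rw [List.getD_eq_default _ _ (not_lt.1 hh)] at h2
      exact absurd h2 (List.not_mem_nil)
    have h4 : T.stars.getD (T.sid.getD c 0) [] ∈ T.stars := by
      rw [List.getD_eq_getElem _ _ h3]
      exact List.getElem_mem h3
    simp only
    generalize T.stars.getD (T.sid.getD c 0) [] = s at h2 h4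
    have h5 := F.ne s h4
    have h6 := F.lt s h4
    have h7 := F.adj s h4
    have h8 := G.adj s h4
    match s, h5 with
    | d :: l, _ =>
      have h9 : (d :: l).rotate 1 = l ++ [d] := by simp
      rw [h9] at h7 h8
      have h10 := const_of_adj (fun c => T.pos S c - lv u w (T.off.getD c 0)) l d d (by
        intro p hp
        have h11 := h7 p hp
        obtain ⟨h12, h13⟩ := h8 p hp
        have h14 : p.1 < T.k * m := h6 _ (List.of_mem_zip hp).1
        have h15 := pos_step F hrel h14 h11
        rw [hl _ (T.ex_lt m F.hm h14)] at h15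
        rw [h13, ← h15, sub_eq_add_neg (T.off.getD p.1 0), lv_add', lv_neg']
        ring) c h2
      simp only [List.headD_cons]
      rw [← h10]
      ring
  have h2 : ∀ x < T.k * m, T.pos S (T.ct m x) - T.pos S (T.cs m x) =
      (R (T.sid.getD (T.ct m x) 0) - R (T.sid.getD (T.cs m x) 0)) +
        lv u w (T.off.getD (T.ct m x) 0 - T.off.getD (T.cs m x) 0) := by
    intro x hx
    rw [hR _ (ct_lt F.hm hx), hR _ (cs_lt F.hm hx), sub_eq_add_neg (T.off.getD (T.ct m x) 0),
      lv_add', lv_neg']
    ring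
  have hsid : ∀ c < T.k * m, T.sid.getD c 0 < T.stars.length := by
    intro c hc'
    have h2 := G.mem c hc'
    by_contra hh
    rw [List.getD_eq_default _ _ (not_lt.1 hh)] at h2
    exact absurd h2 (List.not_mem_nil)
  have h3 : ∑ x ∈ Finset.range (T.k * m), cr (lv u w (T.ew x))
      (R (T.sid.getD (T.ct m x) 0) - R (T.sid.getD (T.cs m x) 0)) = 0 := by
    have h4 : ∀ x ∈ Finset.range (T.k * m), cr (lv u w (T.ew x))
        (R (T.sid.getD (T.ct m x) 0) - R (T.sid.getD (T.cs m x) 0)) =
        ∑ s ∈ Finset.range T.stars.length, cr (lv u w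
          ((if T.sid.getD (T.ct m x) 0 = s then T.ew x else 0) -
            (if T.sid.getD (T.cs m x) 0 = s then T.ew x else 0))) (R s) := by
      intro x hx
      have hx' := Finset.mem_range.1 hx
      have h5 : ∀ i < T.stars.length, cr (lv u w (T.ew x)) (R i) =
          ∑ s ∈ Finset.range T.stars.length,
            cr (lv u w (if i = s then T.ew x else 0)) (R s) := by
        intro i hi
        rw [Finset.sum_eq_single i]
        · simp
        · intro s _ hs
          rw [if_neg (Ne.symm hs), lv_zero', Pool.Agent.Lib_PL.cr_zero_left]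
        · intro h
          exact absurd (Finset.mem_range.2 hi) h
      rw [Pool.Agent.Lib_PL.cr_sub_right, h5 _ (hsid _ (ct_lt F.hm hx')),
        h5 _ (hsid _ (cs_lt F.hm hx')), ← Finset.sum_sub_distrib]
      refine Finset.sum_congr rfl fun s _ => ?_
      rw [← Pool.Agent.Lib_PL.cr_sub_left, sub_eq_add_neg, ← lv_neg', ← lv_add', ← sub_eq_add_neg]
    rw [Finset.sum_congr rfl h4, Finset.sum_comm]
    refine Finset.sum_eq_zero fun s hs => ?_
    let φ : ℤ × ℤ →+ ℝ := AddMonoidHom.mk' (fun e => cr (lv u w e) (R s)) (by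
      intro a b
      rw [lv_add', Pool.Agent.Lib_PL.cr_add_left])
    have h6 := map_sum φ (fun x => (if T.sid.getD (T.ct m x) 0 = s then T.ew x else 0) -
      (if T.sid.getD (T.cs m x) 0 = s then T.ew x else 0)) (Finset.range (T.k * m))
    rw [G.zero s (Finset.mem_range.1 hs), map_zero] at h6
    exact h6.symm
  have h4 : ∑ x ∈ Finset.range (T.k * m), cr (lv u w (T.ew x))
      (lv u w (T.off.getD (T.ct m x) 0 - T.off.getD (T.cs m x) 0)) = (T.ar m : ℝ) * cr u w := by
    unfold ar
    rw [list_sum_range]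
    push_cast
    rw [Finset.sum_mul]
    refine Finset.sum_congr rfl fun x _ => ?_
    simp only [lv, cr, Prod.fst_sub, Prod.snd_sub]
    simp
    ring
  have h5 : 4 * ((T.k : ℝ) * (volume P.region).toReal) = (T.ar m : ℝ) * cr u w := by
    rw [h1, ← h4]
    have h6 : ∑ x ∈ Finset.range (T.k * m), cr (lv u w (T.ew x))
        (T.pos S (T.ct m x) - T.pos S (T.cs m x)) =
        ∑ x ∈ Finset.range (T.k * m), (cr (lv u w (T.ew x))
          (R (T.sid.getD (T.ct m x) 0) - R (T.sid.getD (T.cs m x) 0)) +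
        cr (lv u w (T.ew x))
          (lv u w (T.off.getD (T.ct m x) 0 - T.off.getD (T.cs m x) 0))) := by
      refine Finset.sum_congr rfl fun x hx => ?_
      rw [h2 x (Finset.mem_range.1 hx), Pool.Agent.Lib_PL.cr_add_right]
    rw [h6, Finset.sum_add_distrib, h3, zero_add]
  have h6 := vol_pos (P := P) F
  rcases G.ar with h7 | h7
  · rw [h7] at h5
    push_cast at h5
    have h8 : (T.k : ℝ) * (volume P.region).toReal = cr u w := by linarith
    rw [h8, abs_of_pos]
    linarith
  · rw [h7] at h5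
    push_cast at h5
    have h8 : (T.k : ℝ) * (volume P.region).toReal = -cr u w := by linarith
    rw [h8, abs_of_neg]
    linarith

/-! ### codes and pairs -/

/-- the code of a pair -/
def code {k : ℕ} (y : Fin k × ZMod m) : ℕ := y.1.val * m + y.2.val

theorem code_div {k : ℕ} (y : Fin k × ZMod m) : code y / m = y.1.val := by
  unfold code
  rw [add_comm, Nat.add_mul_div_right _ _ (Nat.pos_of_ne_zero (NeZero.ne m)),
    Nat.div_eq_of_lt (ZMod.val_lt y.2), zero_add]

theorem code_lt {k : ℕ} (y : Fin k × ZMod m) : code y < k * m := by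
  have h1 := y.1.isLt
  have h2 := ZMod.val_lt y.2
  have h3 : (y.1.val + 1) * m ≤ k * m := Nat.mul_le_mul_right m h1
  unfold code
  nlinarith

theorem code_cast {k : ℕ} (y : Fin k × ZMod m) : ((code y : ℕ) : ZMod m) = y.2 := by
  unfold code
  push_cast
  rw [ZMod.natCast_self, mul_zero, zero_add, ZMod.natCast_zmod_val]

/-- the pair of a code -/
def dec {k : ℕ} (x : ℕ) (hx : x < k * m) : Fin k × ZMod m := (⟨x / m, div_lt hx⟩, (x : ZMod m))

theorem code_dec {k : ℕ} (x : ℕ) (hx : x < k * m) : code (dec x hx) = x := by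
  unfold code dec
  simp only
  rw [ZMod.val_natCast]
  exact Nat.div_add_mod' x m

theorem code_inj {k : ℕ} {y z : Fin k × ZMod m} (h : code y = code z) : y = z := by
  refine Prod.ext (Fin.ext ?_) ?_
  · rw [← code_div y, ← code_div z, h]
  · rw [← code_cast y, ← code_cast z, h]

/-- **the torus theorem** -/
theorem torus (T : TT) (S : Arcs P m) (h : T.chk m = true) (hc : P.CCW) {b : ZMod m → ℝ}
    (hb : S.ChordAng b)
    (hrel : ∀ x < T.k * m, S.Rel (x : ZMod m) (T.ta x : ZMod m) (T.rfc m x == T.rfc m (T.ta x)))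
    (hsum : ∀ s ∈ T.stars, (s.map fun c => b ((c : ℕ) : ZMod m)).sum = 2) : HasPeriodic P := by
  simp only [chk, Bool.and_eq_true] at h
  obtain ⟨⟨h1, h2⟩, h3⟩ := h
  have F := T.f1 m h1
  have G := f3 h3
  obtain ⟨h4, h5⟩ := T.elim m h1 h2 (T.hol S) (hol_inv F hrel) (hol_tree F) (hol_star F hrel hb hsum)
  have hgA : T.gA < T.k * m ∧ T.gB < T.k * m := by
    simp only [chk2, Bool.and_eq_true, decide_eq_true_eq] at h2
    exact h2.1.2
  have hew : ∀ x < T.k * m, T.ew (T.ta x) = -T.ew x := by
    intro x hx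
    simp only [chk2, Bool.and_eq_true, List.all_eq_true, List.mem_range, beq_iff_eq] at h2
    have h6 := (h2.1.1.1 x hx).1
    have h7 : exWd (T.wd x ++ T.wd (T.ta x)) = 0 := by
      rw [← exW_fred, h6]
      rfl
    rw [exW_append] at h7
    exact (neg_eq_of_add_eq_zero_right h7).symm
  obtain ⟨a, u, ha, hA⟩ := hol_dir (S := S) F hgA.1
  obtain ⟨c, w, hc', hB⟩ := hol_dir (S := S) F hgA.2
  rcases comm_cases hA hB h5 with ⟨hA', hB'⟩ | ⟨f, hf1, hf2⟩
  · have hl : ∀ x < T.k * m, ∀ z, T.hol S x z = z + lv u w (T.ew x) := by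
      intro x hx z
      rw [h4 x hx]
      exact evW_trans hA' hB' _ z
    have harea := area_final F G hc hrel u w hl
    let τ : Fin T.k × ZMod m → Fin T.k × ZMod m := fun y =>
      dec (T.ta (code y)) (F.ta_lt _ (code_lt y))
    have hτ : ∀ y, code (τ y) = T.ta (code y) := fun y => code_dec _ _
    let D : AData P S T.k :=
      { g := fun j => T.pl S j.val
        u := u
        w := w
        τ := τ
        ττ := fun y => code_inj (by rw [hτ, hτ, F.ta_ta _ (code_lt y)])
        c := fun y => T.ew (code y)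
        cτ := fun y => by rw [hτ, hew _ (code_lt y)]
        rel := fun y => by
          have h6 := hrel (code y) (code_lt y)
          rw [code_cast] at h6
          have e1 : (T.pl S y.1.val).rf = T.rfc m (code y) := by
            rw [← code_div y]
            exact pl_rfc F (code_lt y)
          have e2 : (T.pl S (τ y).1.val).rf = T.rfc m (T.ta (code y)) :=
            pl_rfc F (F.ta_lt _ (code_lt y))
          rw [e1, e2]
          exact h6 }
    refine D.criterion hc F.hm F.hk ?_ harea
    intro y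
    obtain ⟨e1, e2⟩ := pos_arc F hrel (code_lt y)
    rw [hl _ (code_lt y)] at e1 e2
    rw [code_div, code_cast] at e1 e2
    exact ⟨e1, e2⟩
  · exact (no_fix F hc hrel f fun x hx => by rw [h4 x hx]; exact evW_fix hf1 hf2 _).elim

end TT

end Pool.Agent.Lib_MP_fa6e45
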