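import Pool.Agent.Lib_MP_fa6e45.CA5
import Pool.Agent.Lib_MP_fa6e45.CT4

/-!
MP_fa6e45_co, constant status of the corners: the leaf `F_c` for six arcs which fit pairwise as direct neighbours.
The equations and the closing condition give chord angles `2 / 3` (`clos6_reg`), the tile has the periodic tiling of
the regular hexagon.
-/

open Set MeasureTheory Complex
open scoped Topology

namespace Pool.Agent.Lib_MP_fa6e45

/-- the torus with one copy, `x` glued to `x + 3` -/
def ttFc : TT where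
  k := 1
  rf := [false]
  tau := [3, 4, 5, 0, 1, 2]
  par := [0]
  stars := [[0, 2, 4], [1, 3, 5]]
  word := [[0, 3], [0], [2], [2, 1], [1], [3]]
  rank := [1, 0, 0, 1, 0, 0]
  just := [1, 0, 0, 1, 0, 0]
  gA := 1
  gB := 2
  fin := 0
  sid := [0, 1, 0, 1, 0, 1]
  off := [(0, 0), (0, 0), (0, 1), (-1, 1), (-1, 1), (-1, 0)]

theorem ttFc_chk : ttFc.chk 6 = true := by decide +kernel

/-- the leaf `F_c` -/
theorem fc_periodic {n : ℕ} (P : Polygon n) (S : Arcs P 6) (b : ZMod 6 → ℝ) (hc : P.CCW)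
    (hb : S.ChordAng b) (hp : ∀ j k, S.Plus j k) (e1 : b 1 + b 4 = 4 / 3)
    (e2 : b 2 + 2 * b 4 = 2) (e3 : b 3 = 2 / 3) (e5 : b 5 = 2 / 3)
    (e0 : b 0 - 2 * b 4 = -(2 / 3)) : HasPeriodic P := by
  have h1 : S.ChordAng fun _ => 2 / 3 :=
    clos6_reg S b hb (fun j k => S.norm_plus (hp j k)) e1 e2 e3 e5 e0
  refine ttFc.torus S ttFc_chk hc h1 (fun x hx => ?_) (fun s hs => ?_)
  · have hx6 : x < 6 := hx
    interval_cases x <;> exact hp _ _
  · have hs' : s ∈ ([[0, 2, 4], [1, 3, 5]] : List (List ℕ)) := hs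
    simp only [List.mem_cons, List.not_mem_nil, or_false] at hs'
    rcases hs' with rfl | rfl <;> simp <;> norm_num

end Pool.Agent.Lib_MP_fa6e45
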