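import Pool.Agent.Lib_MP_fa6e45.Y5
import Pool.Agent.Lib_MP_fa6e45.Y7

/-!
CS-ENUM, part 1: facts about the gluing relation of the arcs of a polygon of constant status: symmetric, closed under
compositions of three, balanced. Labels in the group of four elements: `RR G (odd, b) i j`: arcs `i`, `j` are related
by one gluing of kind `b` (`odd = true`) or by two gluings (`odd = false`, `b = true`: of the same kind).
-/

open Set MeasureTheory Complex
open scoped Topology

namespace Pool.Agent.Lib_MP_fa6e45

/-- facts about the gluing relation of the arcs -/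
structure RelAx {m : ℕ} [NeZero m] (G : ZMod m → ZMod m → Bool → Prop) : Prop where
  symm : ∀ j k b, G j k b → G k j b
  tri : ∀ i j k l a b c, G i j a → G j k b → G k l c → G i l ((a == b) == c)
  self : ∀ j, G j j false → G j j true
  glued : ∀ j, ∃ k b, G j k b
  bal : ∀ f : ZMod m → ℤ, (∀ j k b, G j k b → f j + f k = 0) → ∑ j, f j = 0

/-! ### the relation of the arcs satisfies the axioms -/

section arcs

variable {n : ℕ} {P : Polygon n} {m : ℕ} [NeZero m]

private def CE0s (b : Bool) (w t : ℕ) : ℕ := if b then w - 1 - t else t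

private def CE0a (b : Bool) (w t : ℕ) : ℕ := if b then w - t else t

private theorem CE0_iff (S : Arcs P m) (j k : ZMod m) (b : Bool) : S.Rel j k b ↔ S.w j = S.w k ∧
    (∀ t, t < S.w j → P.len (S.κ j + (t : ZMod n)) =
      P.len (S.κ k + ((CE0s b (S.w j) t : ℕ) : ZMod n))) ∧
    ∀ t, 0 < t → t < S.w j → P.ang (S.κ j + (t : ZMod n)) +
      P.ang (S.κ k + ((CE0a b (S.w j) t : ℕ) : ZMod n)) = 2 * Real.pi := by
  cases b
  · exact Iff.rfl
  · constructor
    · rintro ⟨h1, h2, h3⟩
      refine ⟨h1, fun t ht => h2 t _ ?_, fun t ht ht' => h3 t _ ht ?_ ?_⟩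
      · simp only [CE0s, if_true]; omega
      · simp only [CE0a, if_true]; omega
      · simp only [CE0a, if_true]; omega
    · rintro ⟨h1, h2, h3⟩
      refine ⟨h1, fun t s hts => ?_, fun t s ht hs hts => ?_⟩
      · have h4 := h2 t (by omega)
        have h5 : CE0s true (S.w j) t = s := by simp only [CE0s, if_true]; omega
        rwa [h5] at h4
      · have h4 := h3 t ht (by omega)
        have h5 : CE0a true (S.w j) t = s := by simp only [CE0a, if_true]; omega
        rwa [h5] at h4

private theorem CE0s_lt (b : Bool) {w t : ℕ} (h : t < w) : CE0s b w t < w := by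
  cases b
  · exact h
  · simp only [CE0s, if_true]; omega

private theorem CE0a_lt (b : Bool) {w t : ℕ} (h0 : 0 < t) (h : t < w) :
    0 < CE0a b w t ∧ CE0a b w t < w := by
  cases b
  · exact ⟨h0, h⟩
  · simp only [CE0a, if_true]; omega

private theorem CE0s_comp (a b c : Bool) {w t : ℕ} (h : t < w) :
    CE0s c w (CE0s b w (CE0s a w t)) = CE0s ((a == b) == c) w t := by
  cases a <;> cases b <;> cases c <;> simp [CE0s] <;> omega

private theorem CE0a_comp (a b c : Bool) {w t : ℕ} (h : t < w) :
    CE0a c w (CE0a b w (CE0a a w t)) = CE0a ((a == b) == c) w t := by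
  cases a <;> cases b <;> cases c <;> simp [CE0a] <;> omega

private theorem CE0_tri (S : Arcs P m) (i j k l : ZMod m) (a b c : Bool) (h1 : S.Rel i j a)
    (h2 : S.Rel j k b) (h3 : S.Rel k l c) : S.Rel i l ((a == b) == c) := by
  rw [CE0_iff] at h1 h2 h3 ⊢
  obtain ⟨w1, l1, a1⟩ := h1
  obtain ⟨w2, l2, a2⟩ := h2
  obtain ⟨w3, l3, a3⟩ := h3
  refine ⟨w1.trans (w2.trans w3), fun t ht => ?_, fun t h0 ht => ?_⟩
  · have e1 := CE0s_lt a ht
    have e2 := CE0s_lt b e1
    rw [← CE0s_comp a b c ht, l1 t ht, l2 _ (w1 ▸ e1), l3 _ (w2 ▸ w1 ▸ e2), ← w2, ← w1]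
  · have e1 := CE0a_lt a h0 ht
    have e2 := CE0a_lt b e1.1 e1.2
    have f1 := a1 t h0 ht
    have f2 := a2 _ e1.1 (w1 ▸ e1.2)
    rw [← w1] at f2
    have f3 := a3 _ e2.1 (w2 ▸ w1 ▸ e2.2)
    rw [← w2, ← w1] at f3
    rw [← CE0a_comp a b c ht]
    linarith

private theorem CE0_wp {m : ℕ} [NeZero m] {a b : ZMod m → ℝ} {G : ZMod m → ZMod m → Bool → Prop}
    (h : WP a b G) (f : ZMod m → ℤ) (hf : ∀ j k b, G j k b → f j + f k = 0) : 0 ≤ ∑ j, f j := by
  by_contra hneg
  push Not at hneg
  have hsh : ∑ j : ZMod m, f (j - 1) = ∑ j, f j :=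
    Equiv.sum_comp (Equiv.subRight (1 : ZMod m)) f
  obtain ⟨c, l, -, hp, -, -, -, hcost⟩ := h (fun j => f j + f (j - 1)) (fun _ _ => 0)
    (fun _ _ => rfl) 0 (by
      rw [Finset.sum_add_distrib, hsh, mul_zero]
      linarith)
  -- the cost of a path telescopes
  have key : ∀ (l : List (ZMod m × Bool)) (c d : ZMod m × Bool), Pth (StepG G) c l d →
      pcost (stepCost (fun j => f j + f (j - 1)) fun _ _ => 0) c l d =
        f (enW c).1 - f (enW d).1 := by
    intro l
    induction l with
    | nil =>
      intro c d h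
      have h1 := hf _ _ _ h
      change f c.1 + f (c.1 - 1) + 0 = _
      have h2 : f c.1 + f (c.1 - 1) = f (enW c).1 + f (exW c).1 := by
        unfold enW exW
        cases c.2
        · simp
        · simp [add_comm]
      rw [add_zero, h2]
      linarith
    | cons x l ih =>
      intro c d h
      have h1 := hf _ _ _ h.1
      change f c.1 + f (c.1 - 1) + 0 + pcost _ x l d = _
      have h2 : f c.1 + f (c.1 - 1) = f (enW c).1 + f (exW c).1 := by
        unfold enW exW
        cases c.2
        · simp
        · simp [add_comm]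
      rw [ih x d h.2, add_zero, h2]
      linarith
  rw [key l c c hp] at hcost
  linarith

theorem relAx_of_wp {ι : Type} (S : Arcs P m) {a : ZMod m → ℝ} (K : CombG m a S.Rel ι) :
    RelAx S.Rel := by
  have hwp := K.wp (fun _ => 0) (fun _ => 0) (fun _ _ _ => ⟨rfl, rfl⟩)
    (fun _ _ _ => ⟨by simp, by simp⟩)
  exact
    { symm := fun j k b h => S.rel_symm h
      tri := fun i j k l a b c h1 h2 h3 => CE0_tri S i j k l a b c h1 h2 h3
      self := fun j h => (S.rel_one h (S.minus_self j h) true).2.1
      glued := K.glued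
      bal := by
        intro f hf
        have h1 := CE0_wp hwp f hf
        have h2 := CE0_wp hwp (fun j => -f j) fun j k b h => by
          have := hf j k b h
          linarith
        rw [Finset.sum_neg_distrib] at h2
        linarith }

end arcs

end Pool.Agent.Lib_MP_fa6e45
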