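import Pool.Agent.Lib_MP_fa6e45.CE0

/-!
CS-ENUM, part 2: classification of the gluing relation: classes, types `0` (straight), `1` (central), `2` (mirror
symmetric), `3` (no symmetry), and labels in the group of four elements `{0, 1, 2, 3}` (with `xor`). An arc has the code
`4 * type + label`.
-/

open Set MeasureTheory Complex
open scoped Topology

namespace Pool.Agent.Lib_MP_fa6e45

/-- arcs `i`, `j` are related by the element `x` of the group of four elements -/
def RR {m : ℕ} (G : ZMod m → ZMod m → Bool → Prop) (x : Bool × Bool) (i j : ZMod m) : Prop :=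
  if x.1 then G i j x.2 else ∃ k b, G i k b ∧ G k j (b == x.2)

/-- the element number `l` -/
def vx (l : ℕ) : Bool × Bool := (l == 1 || l == 2, l == 0 || l == 1)

/-- the symmetries of the arcs of type `t` -/
def hT (t x : ℕ) : Bool :=
  match t with
    | 0 => true
    | 1 => x == 0 || x == 1
    | 2 => x == 0 || x == 3
    | _ => x == 0

/-- arcs with the codes `c`, `d` (of the same class) fit -/
def okC (c d : ℕ) (b : Bool) : Bool := hT (c / 4) (((c % 4) ^^^ (if b then 1 else 2)) ^^^ (d % 4))

section

variable {m : ℕ} [NeZero m] {G : ZMod m → ZMod m → Bool → Prop}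

theorem RR_comp (h : RelAx G) {x y : Bool × Bool} {i j k : ZMod m} (h1 : RR G x i j)
    (h2 : RR G y j k) : RR G (xor x.1 y.1, x.2 == y.2) i k := by
  obtain ⟨x1, x2⟩ := x
  obtain ⟨y1, y2⟩ := y
  cases x1 <;> cases y1
  · obtain ⟨u, b, h3, h4⟩ := h1
    obtain ⟨v, c, h5, h6⟩ := h2
    refine ⟨v, (x2 == c), ?_, ?_⟩
    · have h7 := h.tri _ _ _ _ _ _ _ h3 h4 h5
      have e : ((b == (b == x2)) == c) = (x2 == c) := by cases b <;> cases x2 <;> rfl
      simp only at h7
      rwa [e] at h7
    · have e : (c == y2) = ((x2 == c) == (x2 == y2)) := by cases c <;> cases x2 <;> cases y2 <;> rfl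
      simp only at h6 ⊢
      rwa [e] at h6
  · obtain ⟨u, b, h3, h4⟩ := h1
    have h7 := h.tri _ _ _ _ _ _ _ h3 h4 h2
    have e : ((b == (b == x2)) == y2) = (x2 == y2) := by cases b <;> cases x2 <;> rfl
    simp only at h7
    rw [e] at h7
    exact h7
  · obtain ⟨v, c, h5, h6⟩ := h2
    have h7 := h.tri _ _ _ _ _ _ _ h1 h5 h6
    have e : ((x2 == c) == (c == y2)) = (x2 == y2) := by cases c <;> cases x2 <;> cases y2 <;> rfl
    simp only at h7
    rw [e] at h7
    exact h7
  · refine ⟨j, x2, h1, ?_⟩
    have e : (x2 == (x2 == y2)) = y2 := by cases x2 <;> cases y2 <;> rfl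
    simp only
    rw [e]
    exact h2

theorem RR_symm (h : RelAx G) {x : Bool × Bool} {i j : ZMod m} (h1 : RR G x i j) : RR G x j i := by
  obtain ⟨x1, x2⟩ := x
  cases x1
  · obtain ⟨u, b, h3, h4⟩ := h1
    refine ⟨u, _, h.symm _ _ _ h4, ?_⟩
    have e : ((b == x2) == x2) = b := by cases b <;> cases x2 <;> rfl
    simp only
    rw [e]
    exact h.symm _ _ _ h3
  · exact h.symm _ _ _ h1

theorem RR_one (h : RelAx G) (i : ZMod m) : RR G (vx 0) i i := by
  obtain ⟨k, b, h1⟩ := h.glued i
  refine ⟨k, b, h1, ?_⟩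
  have e : (b == (vx 0).2) = b := by cases b <;> rfl
  rw [e]
  exact h.symm _ _ _ h1

theorem vx_xor {x y : ℕ} (hx : x < 4) (hy : y < 4) :
    vx (x ^^^ y) = (xor (vx x).1 (vx y).1, (vx x).2 == (vx y).2) := by
  interval_cases x <;> interval_cases y <;> rfl

theorem xor_lt4 {x y : ℕ} (hx : x < 4) (hy : y < 4) : x ^^^ y < 4 := by
  interval_cases x <;> interval_cases y <;> decide

theorem RR_xor (h : RelAx G) {x y : ℕ} (hx : x < 4) (hy : y < 4) {i j k : ZMod m}
    (h1 : RR G (vx x) i j) (h2 : RR G (vx y) j k) : RR G (vx (x ^^^ y)) i k := by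
  rw [vx_xor hx hy]
  exact RR_comp h h1 h2

theorem exists_vx (x : Bool × Bool) : ∃ l < 4, vx l = x := by
  obtain ⟨x1, x2⟩ := x
  cases x1 <;> cases x2
  · exact ⟨3, by norm_num, rfl⟩
  · exact ⟨0, by norm_num, rfl⟩
  · exact ⟨2, by norm_num, rfl⟩
  · exact ⟨1, by norm_num, rfl⟩

/-- the type of the arc `r` -/
noncomputable def tyR (G : ZMod m → ZMod m → Bool → Prop) (r : ZMod m) : ℕ := by
  classical
  exact if RR G (vx 2) r r then 0 else if RR G (vx 1) r r then 1 else
    if RR G (vx 3) r r then 2 else 3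

theorem tyR_lt (G : ZMod m → ZMod m → Bool → Prop) (r : ZMod m) : tyR G r < 4 := by
  unfold tyR
  split_ifs <;> norm_num

theorem tyR_spec (h : RelAx G) (r : ZMod m) {x : ℕ} (hx : x < 4) :
    RR G (vx x) r r ↔ hT (tyR G r) x = true := by
  have h0 := RR_one h r
  have h21 : RR G (vx 2) r r → RR G (vx 1) r r := fun h1 => h.self r h1
  have h12 : RR G (vx 1) r r → RR G (vx 2) r r → RR G (vx 3) r r := fun h1 h2 =>
    RR_xor h (by norm_num) (by norm_num) h1 h2
  have h13 : RR G (vx 1) r r → RR G (vx 3) r r → RR G (vx 2) r r := fun h1 h2 =>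
    RR_xor h (by norm_num) (by norm_num) h1 h2
  unfold tyR
  by_cases h2 : RR G (vx 2) r r
  · rw [if_pos h2]
    have h1 := h21 h2
    have h3 := h12 h1 h2
    interval_cases x <;> simp [hT, *]
  · rw [if_neg h2]
    by_cases h1 : RR G (vx 1) r r
    · rw [if_pos h1]
      have h3 : ¬ RR G (vx 3) r r := fun h3 => h2 (h13 h1 h3)
      interval_cases x <;> simp [hT, *]
    · rw [if_neg h1]
      by_cases h3 : RR G (vx 3) r r
      · rw [if_pos h3]
        interval_cases x <;> simp [hT, *]
      · rw [if_neg h3]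
        interval_cases x <;> simp [hT, *]

/-- the label of `j` with respect to `r`: the smallest possible number -/
noncomputable def labR (G : ZMod m → ZMod m → Bool → Prop) (r j : ZMod m) : ℕ := by
  classical
  exact if RR G (vx 0) r j then 0 else if RR G (vx 1) r j then 1 else
    if RR G (vx 2) r j then 2 else 3

theorem labR_lt (G : ZMod m → ZMod m → Bool → Prop) (r j : ZMod m) : labR G r j < 4 := by
  unfold labR
  split_ifs <;> norm_num

theorem labR_spec {r j : ZMod m} (h : ∃ x, RR G x r j) : RR G (vx (labR G r j)) r j := by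
  unfold labR
  split_ifs with h0 h1 h2
  · exact h0
  · exact h1
  · exact h2
  · obtain ⟨x, hx⟩ := h
    obtain ⟨l, hl, rfl⟩ := exists_vx x
    interval_cases l
    · exact absurd hx h0
    · exact absurd hx h1
    · exact absurd hx h2
    · exact hx

theorem labR_min {r j : ZMod m} {x : ℕ} (hx : x < labR G r j) : ¬ RR G (vx x) r j := by
  unfold labR at hx
  split_ifs at hx with h0 h1 h2
  · omega
  · interval_cases x
    exact h0
  · interval_cases x
    · exact h0
    · exact h1
  · interval_cases x
    · exact h0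
    · exact h1
    · exact h2

theorem labR_self (h : RelAx G) (r : ZMod m) : labR G r r = 0 := by
  unfold labR
  rw [if_pos (RR_one h r)]

/-- the code of `j` with respect to `r` -/
noncomputable def codR (G : ZMod m → ZMod m → Bool → Prop) (r j : ZMod m) : ℕ :=
  4 * tyR G r + labR G r j

theorem codR_div (r j : ZMod m) : codR G r j / 4 = tyR G r := by
  have := labR_lt G r j
  unfold codR
  omega

theorem codR_mod (r j : ZMod m) : codR G r j % 4 = labR G r j := by
  have := labR_lt G r j
  unfold codR
  omega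

theorem xor_swap3 {x y z : ℕ} (hx : x < 4) (hy : y < 4) (hz : z < 4) :
    (x ^^^ z) ^^^ (x ^^^ y ^^^ z) = y ∧ x ^^^ (x ^^^ y ^^^ z) ^^^ z = y := by
  interval_cases x <;> interval_cases y <;> interval_cases z <;> decide

/-- the gluing relation in terms of the codes -/
theorem codR_rel (h : RelAx G) {r j k : ZMod m} (hj : ∃ x, RR G x r j) (hk : ∃ x, RR G x r k)
    (b : Bool) : G j k b ↔ okC (codR G r j) (codR G r k) b = true := by
  have h1 := labR_spec hj
  have h2 := labR_spec hk
  have l1 := labR_lt G r j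
  have l2 := labR_lt G r k
  have hb : (if b then 1 else 2 : ℕ) < 4 := by cases b <;> norm_num
  have hG : G j k b ↔ RR G (vx (if b then 1 else 2)) j k := by cases b <;> rfl
  unfold okC
  rw [codR_div, codR_mod, codR_mod, hG, ← tyR_spec h r (xor_lt4 (xor_lt4 l1 hb) l2)]
  constructor
  · intro h3
    exact RR_xor h (xor_lt4 l1 hb) l2 (RR_xor h l1 hb h1 h3) (RR_symm h h2)
  · intro h3
    have h4 := RR_xor h (xor_lt4 l1 (xor_lt4 (xor_lt4 l1 hb) l2)) l2
      (RR_xor h l1 (xor_lt4 (xor_lt4 l1 hb) l2) (RR_symm h h1) h3) h2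
    rwa [(xor_swap3 l1 hb l2).2] at h4

/-- the possible codes for each type -/
theorem codR_opts (h : RelAx G) {r j : ZMod m} (hj : ∃ x, RR G x r j) :
    (tyR G r = 0 → labR G r j = 0) ∧ (tyR G r = 1 → labR G r j = 0 ∨ labR G r j = 2) ∧
      (tyR G r = 2 → labR G r j = 0 ∨ labR G r j = 1) := by
  have h1 := labR_spec hj
  have l1 := labR_lt G r j
  have key : ∀ x < 4, hT (tyR G r) x = true → ¬ (x ^^^ labR G r j) < labR G r j := by
    intro x hx h2 h3
    exact labR_min h3 (RR_xor h hx l1 ((tyR_spec h r hx).2 h2) h1)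
  refine ⟨fun h2 => ?_, fun h2 => ?_, fun h2 => ?_⟩
  · rw [h2] at key
    generalize labR G r j = l at *
    interval_cases l
    · rfl
    · exact absurd (by decide) (key 1 (by norm_num) rfl)
    · exact absurd (by decide) (key 2 (by norm_num) rfl)
    · exact absurd (by decide) (key 3 (by norm_num) rfl)
  · rw [h2] at key
    generalize labR G r j = l at *
    interval_cases l
    · left; rfl
    · exact absurd (by decide) (key 1 (by norm_num) rfl)
    · right; rfl
    · exact absurd (by decide) (key 1 (by norm_num) rfl)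
  · rw [h2] at key
    generalize labR G r j = l at *
    interval_cases l
    · left; rfl
    · right; rfl
    · exact absurd (by decide) (key 3 (by norm_num) rfl)
    · exact absurd (by decide) (key 3 (by norm_num) rfl)

/-- the label is even -/
def evL (c : ℕ) : Bool := c % 4 == 0 || c % 4 == 3

theorem okC_ev {c d : ℕ} {b : Bool} (hc : c / 4 = d / 4) (h2 : c / 4 = 2 ∨ c / 4 = 3)
    (h : okC c d b = true) : evL c = !evL d := by
  unfold okC at h
  unfold evL
  have h3 : c % 4 < 4 := Nat.mod_lt _ (by norm_num)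
  have h4 : d % 4 < 4 := Nat.mod_lt _ (by norm_num)
  generalize c % 4 = x at *
  generalize d % 4 = y at *
  rcases h2 with h2 | h2 <;> rw [h2] at h <;> interval_cases x <;> interval_cases y <;>
    cases b <;> revert h <;> decide

/-- in a class without central symmetry the even and the odd arcs are equally many -/
theorem codR_bal (h : RelAx G) (r : ZMod m) (h2 : tyR G r = 2 ∨ tyR G r = 3)
    (cl : ZMod m → Prop) [DecidablePred cl] (hcl : ∀ j, cl j ↔ ∃ x, RR G x r j) :
    (Finset.univ.filter fun j => cl j ∧ evL (codR G r j) = true).card =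
      (Finset.univ.filter fun j => cl j ∧ evL (codR G r j) = false).card := by
  have h3 := h.bal (fun j => if cl j then (if evL (codR G r j) then 1 else -1) else 0) (by
    intro j k b hG
    have hx : RR G (vx (if b then 1 else 2)) j k := by cases b <;> exact hG
    by_cases hj : cl j
    · have hj' := (hcl j).1 hj
      have hk' : ∃ x, RR G x r k := by
        obtain ⟨x, hx'⟩ := hj'
        exact ⟨_, RR_comp h hx' hx⟩
      have hk := (hcl k).2 hk'
      have h4 := (codR_rel h hj' hk' b).1 hG
      have h5 := okC_ev (by rw [codR_div, codR_div]) (by rw [codR_div]; exact h2) h4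
      rw [if_pos hj, if_pos hk, h5]
      cases evL (codR G r k) <;> simp
    · have hk : ¬ cl k := by
        intro hk
        obtain ⟨x, hx'⟩ := (hcl k).1 hk
        exact hj ((hcl j).2 ⟨_, RR_comp h hx' (RR_symm h hx)⟩)
      rw [if_neg hj, if_neg hk, add_zero])
  have h4 : ∀ j, (if cl j then (if evL (codR G r j) then 1 else -1 : ℤ) else 0) =
      (if cl j ∧ evL (codR G r j) = true then 1 else 0) -
        (if cl j ∧ evL (codR G r j) = false then 1 else 0) := by
    intro j
    by_cases hj : cl j <;> cases evL (codR G r j) <;> simp [hj]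
  simp only [h4] at h3
  rw [Finset.sum_sub_distrib, Finset.sum_boole, Finset.sum_boole] at h3
  have h5 := sub_eq_zero.1 h3
  exact_mod_cast h5

end

end Pool.Agent.Lib_MP_fa6e45
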