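import Pool.Agent.Lib_MP_fa6e45.A1b

/-!
PIECE R2 (about 150 lines): relabel the corners `i ↦ -i` (`Lib_PL`: `Poly.rev`, `ccw_or`, `rev_R`).
-/

open Set MeasureTheory Complex
open scoped Topology

namespace Pool.Agent.Lib_MP_fa6e45

open Pool.Agent.Lib_PL (cr InSector Poly)

variable {n : ℕ}

/-- the polygon with the corners relabelled `i ↦ -i` -/
def Polygon.rev (P : Polygon n) : Polygon n where
  vertex := fun i => P.vertex (-i)
  three_le := P.three_le
  injective := fun i j h => neg_injective (P.injective h)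
  simple := by
    intro i j hij z hz
    have h1 : -(i + 1) ≠ -(j + 1) := fun h => hij (add_right_cancel (neg_injective h))
    have e : ∀ k : ZMod n, -(k + 1) + 1 = -k := fun k => by ring
    have h2 := P.simple (-(i + 1)) (-(j + 1)) h1
    rw [e, e, segment_symm ℝ (P.vertex (-(i + 1))), segment_symm ℝ (P.vertex (-(j + 1))),
      Set.pair_comm (P.vertex (-(i + 1))), Set.pair_comm (P.vertex (-(j + 1)))] at h2
    exact h2 hz
  corner := by
    intro i h
    apply P.corner (-i)
    have e1 : -(i - 1) = -i + 1 := by ring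
    have e2 : -(i + 1) = -i - 1 := by ring
    rw [e1, e2] at h
    have e3 : ({P.vertex (-i - 1), P.vertex (-i), P.vertex (-i + 1)} : Set ℂ) =
        {P.vertex (-i + 1), P.vertex (-i), P.vertex (-i - 1)} := by
      ext z
      simp only [mem_insert_iff, mem_singleton_iff]
      tauto
    rw [e3]
    exact h

private theorem R2_toPoly (P : Polygon n) : P.rev.toPoly = P.toPoly.rev := by
  have h : ∀ i : ℤ, P.rev.toPoly.V i = P.toPoly.rev.V i := by
    intro i
    show P.vertex (-(i : ZMod n)) = P.vertex ((-i : ℤ) : ZMod n)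
    rw [Int.cast_neg]
  have h' : P.rev.toPoly.V = P.toPoly.rev.V := funext h
  cases hA : P.rev.toPoly
  cases hB : P.toPoly.rev
  rw [hA, hB] at h'
  simp only at h'
  subst h'
  rfl

theorem Polygon.rev_region (P : Polygon n) : P.rev.region = P.region := by
  rw [P.rev.region_eq, P.region_eq, R2_toPoly, Pool.Agent.Lib_PL.rev_R]

theorem Polygon.rev_len (P : Polygon n) (i : ZMod n) : P.rev.len i = P.len (-i - 1) := by
  show dist (P.vertex (-i)) (P.vertex (-(i + 1))) =
    dist (P.vertex (-i - 1)) (P.vertex (-i - 1 + 1))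
  have e1 : -(i + 1) = -i - 1 := by ring
  have e2 : -i - 1 + 1 = -i := by ring
  rw [e1, e2, dist_comm]

theorem Polygon.rev_angle (P : Polygon n) (i : ZMod n) : P.rev.angle i = P.angle (-i) := by
  unfold Polygon.angle
  rw [P.rev_region]
  rfl

theorem Polygon.ccw_or (P : Polygon n) : P.CCW ∨ P.rev.CCW := by
  unfold Polygon.CCW
  rw [R2_toPoly]
  exact P.toPoly.ccw_or

end Pool.Agent.Lib_MP_fa6e45
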