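import Pool.Agent.Lib_MP_fa6e45.HC0
import Pool.Agent.Lib_MP_fa6e45.R2

/-!
PIECE H2 (about 250 lines): the polygon with the corners renamed by `sgC r s` (for `r = true` the mirror image, so that it is
counterclockwise again). For `r = false` this is a shift of the labels; for `r = true` the mirror image (`conj`) with
reversed labels. Compare `Polygon.rev` (R2), `Mo`, `Polygon.ang`; the regions are equal resp. mirror images.
-/

open Set MeasureTheory Complex
open scoped Topology

namespace Pool.Agent.Lib_MP_fa6e45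

open Pool.Agent.Lib_PL (cr InSector Poly)

variable {n : ℕ}

/-! ### Shift of the labels -/

/-- corner `i` becomes corner `i + s` -/
private def H2_shf (P : Polygon n) (s : ZMod n) : Polygon n where
  vertex := fun i => P.vertex (i - s)
  three_le := P.three_le
  injective := fun i j h => sub_left_injective (P.injective h)
  simple := by
    intro i j hij z hz
    have h1 : i - s ≠ j - s := fun h => hij (sub_left_injective h)
    have e : ∀ k : ZMod n, k + 1 - s = k - s + 1 := fun k => by ring
    have h2 := P.simple (i - s) (j - s) h1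
    rw [← e, ← e] at h2
    exact h2 hz
  corner := by
    intro i h
    apply P.corner (i - s)
    have e1 : i - 1 - s = i - s - 1 := by ring
    have e2 : i + 1 - s = i - s + 1 := by ring
    rw [e1, e2] at h
    exact h

private theorem H2_shf_bdry (P : Polygon n) (s : ZMod n) : (H2_shf P s).bdry = P.bdry := by
  rw [(H2_shf P s).bdry_eq, P.bdry_eq]
  apply Subset.antisymm
  · intro z hz
    obtain ⟨i, hi⟩ := mem_iUnion.1 hz
    refine mem_iUnion.2 ⟨i - s, ?_⟩
    have e : i - s + 1 = i + 1 - s := by ring
    rw [e]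
    exact hi
  · intro z hz
    obtain ⟨i, hi⟩ := mem_iUnion.1 hz
    refine mem_iUnion.2 ⟨i + s, ?_⟩
    show z ∈ segment ℝ (P.vertex (i + s - s)) (P.vertex (i + s + 1 - s))
    have e1 : i + s - s = i := by ring
    have e2 : i + s + 1 - s = i + 1 := by ring
    rw [e1, e2]
    exact hi

private theorem H2_shf_inner (P : Polygon n) (s : ZMod n) : (H2_shf P s).inner = P.inner := by
  have h := H2_shf_bdry P s
  unfold Polygon.bdry at h
  unfold Polygon.inner Poly.I
  rw [h]

private theorem H2_shf_region (P : Polygon n) (s : ZMod n) : (H2_shf P s).region = P.region := by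
  rw [(H2_shf P s).region_union, P.region_union, H2_shf_bdry, H2_shf_inner]

private theorem H2_sum [NeZero n] (f : ZMod n → ℝ) :
    ∑ i ∈ Finset.range n, f ((i : ℤ) : ZMod n) = ∑ x : ZMod n, f x := by
  refine Finset.sum_bij' (fun i _ => ((i : ℤ) : ZMod n)) (fun x _ => x.val) ?_ ?_ ?_ ?_ ?_
  · intro i _
    exact Finset.mem_univ _
  · intro x _
    exact Finset.mem_range.2 (ZMod.val_lt x)
  · intro i hi
    simp only [Int.cast_natCast]
    exact ZMod.val_cast_of_lt (Finset.mem_range.1 hi)
  · intro x _
    simp only [Int.cast_natCast]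
    exact ZMod.natCast_zmod_val x
  · intro i _
    rfl

private theorem H2_wind [NeZero n] (P : Polygon n) (z : ℂ) : P.toPoly.wind z =
    (∑ x : ZMod n, Complex.arg ((P.vertex (x + 1) - z) / (P.vertex x - z))) / (2 * Real.pi) := by
  unfold Poly.wind
  rw [← H2_sum]
  congr 1
  apply Finset.sum_congr rfl
  intro i _
  show Complex.arg ((P.vertex (((i : ℤ) + 1 : ℤ) : ZMod n) - z) /
    (P.vertex ((i : ℤ) : ZMod n) - z)) = _
  rw [Int.cast_add, Int.cast_one]

private theorem H2_shf_ccw [NeZero n] (P : Polygon n) (s : ZMod n) (hc : P.CCW) :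
    (H2_shf P s).CCW := by
  intro z hz
  have hz' : z ∈ P.toPoly.I := by
    have h := H2_shf_inner P s
    unfold Polygon.inner at h
    rw [← h]
    exact hz
  have h1 := hc z hz'
  rw [H2_wind] at h1 ⊢
  rw [← h1]
  congr 1
  refine Fintype.sum_equiv (Equiv.subRight s) _ _ ?_
  intro x
  show Complex.arg ((P.vertex (x + 1 - s) - z) / (P.vertex (x - s) - z)) =
    Complex.arg ((P.vertex (x - s + 1) - z) / (P.vertex (x - s) - z))
  have e : x + 1 - s = x - s + 1 := by ring
  rw [e]

/-! ### Mirror image -/

private theorem H2_seg (a b z : ℂ) :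
    z ∈ segment ℝ ((starRingEnd ℂ) a) ((starRingEnd ℂ) b) ↔ (starRingEnd ℂ) z ∈ segment ℝ a b := by
  constructor
  · rintro ⟨s, t, hs, ht, hst, rfl⟩
    exact ⟨s, t, hs, ht, hst, by simp⟩
  · rintro ⟨s, t, hs, ht, hst, h⟩
    refine ⟨s, t, hs, ht, hst, ?_⟩
    have := congrArg (starRingEnd ℂ) h
    rw [Complex.conj_conj] at this
    rw [← this]
    simp

private theorem H2_col {a b c : ℂ}
    (h : Collinear ℝ {(starRingEnd ℂ) a, (starRingEnd ℂ) b, (starRingEnd ℂ) c}) :
    Collinear ℝ {c, b, a} := by
  rw [collinear_iff_of_mem (p₀ := (starRingEnd ℂ) a) (by simp)] at h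
  obtain ⟨v, hv⟩ := h
  rw [collinear_iff_of_mem (p₀ := a) (by simp)]
  refine ⟨(starRingEnd ℂ) v, ?_⟩
  intro p hp
  obtain ⟨r, hr⟩ := hv ((starRingEnd ℂ) p) (by
    simp only [mem_insert_iff, mem_singleton_iff] at hp ⊢
    rcases hp with rfl | rfl | rfl <;> simp)
  refine ⟨r, ?_⟩
  have h2 := congrArg (starRingEnd ℂ) hr
  simpa using h2

/-- the mirror image with the labels `i ↦ -i` -/
private noncomputable def H2_mir (P : Polygon n) : Polygon n where
  vertex := fun i => (starRingEnd ℂ) (P.vertex (-i))
  three_le := P.three_le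
  injective := fun i j h => neg_injective (P.injective ((starRingEnd ℂ).injective h))
  simple := by
    intro i j hij z hz
    have h1 := P.rev.simple i j hij
    have h2 : (starRingEnd ℂ) z ∈ segment ℝ (P.rev.vertex i) (P.rev.vertex (i + 1)) ∩
        segment ℝ (P.rev.vertex j) (P.rev.vertex (j + 1)) :=
      ⟨(H2_seg _ _ _).1 hz.1, (H2_seg _ _ _).1 hz.2⟩
    have h3 := h1 h2
    have key : ∀ w : ℂ, (starRingEnd ℂ) z = w → z = (starRingEnd ℂ) w := by
      intro w hw
      rw [← hw, Complex.conj_conj]
    constructor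
    · rcases h3.1 with h | h
      · exact Or.inl (key _ h)
      · exact Or.inr (key _ h)
    · rcases h3.2 with h | h
      · exact Or.inl (key _ h)
      · exact Or.inr (key _ h)
  corner := by
    intro i h
    apply P.corner (-i)
    have e1 : -(i - 1) = -i + 1 := by ring
    have e2 : -(i + 1) = -i - 1 := by ring
    rw [e1, e2] at h
    exact H2_col h

private theorem H2_mir_toPoly (P : Polygon n) : (H2_mir P).toPoly = P.toPoly.mir := by
  have h : ∀ i : ℤ, (H2_mir P).toPoly.V i = P.toPoly.mir.V i := by
    intro i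
    show (starRingEnd ℂ) (P.vertex (-(i : ZMod n))) =
      (starRingEnd ℂ) (P.vertex ((-i : ℤ) : ZMod n))
    rw [Int.cast_neg]
  have h' : (H2_mir P).toPoly.V = P.toPoly.mir.V := funext h
  cases hA : (H2_mir P).toPoly
  cases hB : P.toPoly.mir
  rw [hA, hB] at h'
  simp only at h'
  subst h'
  rfl

private theorem H2_mir_ccw (P : Polygon n) (hc : P.CCW) : (H2_mir P).CCW := by
  unfold Polygon.CCW
  rw [H2_mir_toPoly]
  exact P.toPoly.mir_CCW hc

private theorem H2_mir_region (P : Polygon n) :
    (H2_mir P).region = Complex.conjLIE.toIsometryEquiv '' P.region := by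
  rw [(H2_mir P).region_eq, P.region_eq, H2_mir_toPoly]
  ext z
  rw [Poly.mir_R]
  constructor
  · intro hz
    exact ⟨(starRingEnd ℂ) z, hz, Complex.conj_conj z⟩
  · rintro ⟨w, hw, rfl⟩
    show (starRingEnd ℂ) ((starRingEnd ℂ) w) ∈ _
    rw [Complex.conj_conj]
    exact hw

/-- corner `i` becomes corner `sgC r s i`; mirror image if `r = true` -/
noncomputable def Polygon.dih (P : Polygon n) (r : Bool) (s : ZMod n) : Polygon n where
  vertex := fun i => if r then (starRingEnd ℂ) (P.vertex (s - i)) else P.vertex (i - s)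
  three_le := P.three_le
  injective := by
    cases r
    · exact (H2_shf P s).injective
    · have h := (H2_shf (H2_mir P) s).injective
      intro i j hij
      apply h
      show (starRingEnd ℂ) (P.vertex (-(i - s))) = (starRingEnd ℂ) (P.vertex (-(j - s)))
      rw [neg_sub, neg_sub]
      exact hij
  simple := by
    cases r
    · exact (H2_shf P s).simple
    · have h := (H2_shf (H2_mir P) s).simple
      intro i j hij
      have h2 := h i j hij
      have e : ∀ k : ZMod n, (H2_shf (H2_mir P) s).vertex k =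
          (starRingEnd ℂ) (P.vertex (s - k)) := by
        intro k
        show (starRingEnd ℂ) (P.vertex (-(k - s))) = _
        rw [neg_sub]
      rw [e, e, e, e] at h2
      exact h2
  corner := by
    cases r
    · exact (H2_shf P s).corner
    · have h := (H2_shf (H2_mir P) s).corner
      intro i
      have h2 := h i
      have e : ∀ k : ZMod n, (H2_shf (H2_mir P) s).vertex k =
          (starRingEnd ℂ) (P.vertex (s - k)) := by
        intro k
        show (starRingEnd ℂ) (P.vertex (-(k - s))) = _
        rw [neg_sub]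
      rw [e, e, e] at h2
      exact h2

private theorem H2_ext (P Q : Polygon n) (h : ∀ i, P.vertex i = Q.vertex i) : P = Q := by
  have h' : P.vertex = Q.vertex := funext h
  obtain ⟨⟨v, h1, h2, h3⟩, h4⟩ := P
  obtain ⟨⟨v', h1', h2', h3'⟩, h4'⟩ := Q
  simp only at h'
  subst h'
  rfl

private theorem H2_false (P : Polygon n) (s : ZMod n) : P.dih false s = H2_shf P s := rfl

private theorem H2_true (P : Polygon n) (s : ZMod n) :
    P.dih true s = H2_shf (H2_mir P) s := by
  apply H2_ext
  intro i
  show (starRingEnd ℂ) (P.vertex (s - i)) = (starRingEnd ℂ) (P.vertex (-(i - s)))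
  rw [neg_sub]

theorem Polygon.dih_len (P : Polygon n) (r : Bool) (s j : ZMod n) :
    (P.dih r s).len (sgS r s j) = P.len j := by
  cases r
  · show dist (P.vertex (j + s - s)) (P.vertex (j + s + 1 - s)) =
      dist (P.vertex j) (P.vertex (j + 1))
    have e1 : j + s - s = j := by ring
    have e2 : j + s + 1 - s = j + 1 := by ring
    rw [e1, e2]
  · show dist ((starRingEnd ℂ) (P.vertex (s - (s - 1 - j))))
      ((starRingEnd ℂ) (P.vertex (s - (s - 1 - j + 1)))) = dist (P.vertex j) (P.vertex (j + 1))
    have e1 : s - (s - 1 - j) = j + 1 := by ring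
    have e2 : s - (s - 1 - j + 1) = j := by ring
    rw [e1, e2, Complex.dist_conj_conj, dist_comm]

private theorem H2_arg (z : ℂ) : Complex.arg ((starRingEnd ℂ) z⁻¹) = Complex.arg z := by
  by_cases hz : z = 0
  · simp [hz]
  · have h1 : (starRingEnd ℂ) z⁻¹ = (((Complex.normSq z)⁻¹ : ℝ) : ℂ) * z := by
      rw [Complex.inv_def, map_mul, Complex.conj_conj, Complex.conj_ofReal, mul_comm]
    rw [h1, Complex.arg_real_mul _ (inv_pos.2 (Complex.normSq_pos.2 hz))]

theorem Polygon.dih_ang [NeZero n] (P : Polygon n) (r : Bool) (s i : ZMod n) :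
    (P.dih r s).ang (sgC r s i) = P.ang i := by
  cases r
  · have e1 : i + s - 1 - s = i - 1 := by ring
    have e2 : i + s - s = i := by ring
    have e3 : i + s + 1 - s = i + 1 := by ring
    have h : Complex.arg (((P.dih false s).vertex (i + s - 1) - (P.dih false s).vertex (i + s)) /
        ((P.dih false s).vertex (i + s + 1) - (P.dih false s).vertex (i + s))) =
        Complex.arg ((P.vertex (i - 1) - P.vertex i) / (P.vertex (i + 1) - P.vertex i)) := by
      show Complex.arg ((P.vertex (i + s - 1 - s) - P.vertex (i + s - s)) /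
        (P.vertex (i + s + 1 - s) - P.vertex (i + s - s))) = _
      rw [e1, e2, e3]
    show (P.dih false s).ang (i + s) = P.ang i
    unfold Polygon.ang
    rw [h]
  · have e1 : s - (s - i - 1) = i + 1 := by ring
    have e2 : s - (s - i) = i := by ring
    have e3 : s - (s - i + 1) = i - 1 := by ring
    have h : Complex.arg (((P.dih true s).vertex (s - i - 1) - (P.dih true s).vertex (s - i)) /
        ((P.dih true s).vertex (s - i + 1) - (P.dih true s).vertex (s - i))) =
        Complex.arg ((P.vertex (i - 1) - P.vertex i) / (P.vertex (i + 1) - P.vertex i)) := by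
      show Complex.arg (((starRingEnd ℂ) (P.vertex (s - (s - i - 1))) -
        (starRingEnd ℂ) (P.vertex (s - (s - i)))) /
        ((starRingEnd ℂ) (P.vertex (s - (s - i + 1))) -
        (starRingEnd ℂ) (P.vertex (s - (s - i))))) = _
      rw [e1, e2, e3, ← map_sub, ← map_sub, ← map_div₀, ← inv_div, H2_arg]
    show (P.dih true s).ang (s - i) = P.ang i
    unfold Polygon.ang
    rw [h]

theorem Polygon.dih_ccw [NeZero n] (P : Polygon n) (r : Bool) (s : ZMod n) (hc : P.CCW) :
    (P.dih r s).CCW := by
  cases r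
  · rw [H2_false]
    exact H2_shf_ccw P s hc
  · rw [H2_true]
    exact H2_shf_ccw _ s (H2_mir_ccw P hc)

private theorem H2_region (P : Polygon n) (r : Bool) (s : ZMod n) :
    ∃ h : ℂ ≃ᵢ ℂ, (P.dih r s).region = h '' P.region := by
  cases r
  · refine ⟨IsometryEquiv.refl ℂ, ?_⟩
    rw [H2_false, H2_shf_region]
    exact (Set.image_id _).symm
  · refine ⟨Complex.conjLIE.toIsometryEquiv, ?_⟩
    rw [H2_true, H2_shf_region, H2_mir_region]

theorem Polygon.dih_periodic [NeZero n] (P : Polygon n) (r : Bool) (s : ZMod n)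
    (h : HasPeriodic (P.dih r s)) : HasPeriodic P := by
  obtain ⟨𝒯, hT, hp⟩ := h
  obtain ⟨h0, hh⟩ := H2_region P r s
  refine ⟨𝒯, ⟨?_, hT.cover, hT.disj⟩, hp⟩
  intro t ht
  obtain ⟨g, hg⟩ := hT.congruent t ht
  refine ⟨h0.trans g, ?_⟩
  rw [hg, hh, ← Set.image_comp]
  rfl

end Pool.Agent.Lib_MP_fa6e45
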