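import Pool.Agent.Lib_MP_fa6e45.Base

/-!
K1: degree two, at most six corners are not complementary.
Corner `i` lies between the sides `i - 1` and `i`. `two_le`: all angles are `< 2 π`. `deg_two`: if the period is
2 then `nx (nx c) = c`, the lengths match (`len` for `c` and for `nx c`), the angles sum to `2 π`, and the two
corners differ as `a i ≠ π`. `deg_three`: three corners `c`, `nx c`, `nx^2 c`, `nx^3 c = c`. `six`: `count` with
`D i = 2` for complementary corners and `3` for the others. `attained`: if the lower bounds `D` give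
equality in `count`, then every `D i` is the degree of some corner `(t, i)` (otherwise increase `D i` by one).
-/

open Set

namespace Pool.Agent.Lib_MP_fa6e45

variable {n : ℕ} [NeZero n] {a l : ZMod n → ℝ} {ι : Type}

/-- corner `i` is complementary to corner `j` -/
def Compl (a l : ZMod n → ℝ) (i j : ZMod n) : Prop :=
  j ≠ i ∧ a i + a j = 2 * Real.pi ∧
    ((l (i - 1) = l (j - 1) ∧ l i = l j) ∨ (l (i - 1) = l j ∧ l i = l (j - 1)))

/-- at most one pair of equal side lengths -/
def OnePair (l : ZMod n → ℝ) : Prop :=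
  ∀ i j i' j' : ZMod n, i ≠ j → i' ≠ j' → l i = l j → l i' = l j' →
    ({i, j} : Set (ZMod n)) = {i', j'}

/-- closed 3-walk: corners with a flag (`true` = reflected), entry side `if flag then i - 1 else i`, exit
side the other one; every exit side has the length of the next entry side -/
def Walk3 (l : ZMod n → ℝ) (x y z : ZMod n × Bool) : Prop :=
  l (if x.2 then x.1 else x.1 - 1) = l (if y.2 then y.1 - 1 else y.1) ∧
  l (if y.2 then y.1 else y.1 - 1) = l (if z.2 then z.1 - 1 else z.1) ∧
  l (if z.2 then z.1 else z.1 - 1) = l (if x.2 then x.1 - 1 else x.1)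

private theorem K1_iter_two {α : Type*} (f : α → α) (c : α) : f^[2] c = f (f c) := rfl

private theorem K1_iter_three {α : Type*} (f : α → α) (c : α) : f^[3] c = f (f (f c)) := rfl

theorem Comb.two_le (K : Comb n a l ι) (c : ι × ZMod n) : 2 ≤ Function.minimalPeriod K.nx c := by
  by_contra h
  have h0 := K.deg_pos c
  have h1 : Function.minimalPeriod K.nx c = 1 := by omega
  have h2 := K.sum c
  rw [h1, Finset.sum_range_one] at h2
  have h3 := K.a_lt (K.nx^[0] c).2
  linarith

theorem Comb.deg_two (K : Comb n a l ι) (c : ι × ZMod n)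
    (h : Function.minimalPeriod K.nx c = 2) : Compl a l c.2 (K.nx c).2 := by
  have hs := K.sum c
  rw [h, Finset.sum_range_succ, Finset.sum_range_one] at hs
  have hs' : a c.2 + a (K.nx c).2 = 2 * Real.pi := hs
  have hp : K.nx (K.nx c) = c := by
    have h1 := Function.isPeriodicPt_minimalPeriod K.nx c
    rw [h] at h1
    exact h1
  have l1 := K.len c
  have l2 := K.len (K.nx c)
  rw [hp] at l2
  refine ⟨?_, hs', ?_⟩
  · intro he
    rw [he] at hs'
    exact K.a_ne c.2 (by linarith)
  · unfold enS exS at l1 l2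
    rcases Bool.eq_false_or_eq_true (K.rf c.1) with hc | hc <;>
      rcases Bool.eq_false_or_eq_true (K.rf (K.nx c).1) with hd | hd <;>
      simp only [hc, hd, if_true, if_false, Bool.false_eq_true] at l1 l2
    · exact Or.inr ⟨l2, l1.symm⟩
    · exact Or.inl ⟨l2, l1.symm⟩
    · exact Or.inl ⟨l1.symm, l2⟩
    · exact Or.inr ⟨l1.symm, l2⟩

theorem Comb.deg_three (K : Comb n a l ι) (c : ι × ZMod n)
    (h : Function.minimalPeriod K.nx c = 3) :
    Walk3 l (c.2, K.rf c.1) ((K.nx c).2, K.rf (K.nx c).1)
      ((K.nx (K.nx c)).2, K.rf (K.nx (K.nx c)).1) ∧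
    a c.2 + a (K.nx c).2 + a (K.nx (K.nx c)).2 = 2 * Real.pi := by
  have hs := K.sum c
  rw [h, Finset.sum_range_succ, Finset.sum_range_succ, Finset.sum_range_one] at hs
  have hs' : a c.2 + a (K.nx c).2 + a (K.nx (K.nx c)).2 = 2 * Real.pi := hs
  have hp : K.nx (K.nx (K.nx c)) = c := by
    have h1 := Function.isPeriodicPt_minimalPeriod K.nx c
    rw [h] at h1
    exact h1
  have l1 := K.len c
  have l2 := K.len (K.nx c)
  have l3 := K.len (K.nx (K.nx c))
  rw [hp] at l3
  exact ⟨⟨l1.symm, l2.symm, l3.symm⟩, hs'⟩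

/-- at most six corners are not complementary -/
theorem Comb.six (K : Comb n a l ι) : {i : ZMod n | ¬ ∃ j, Compl a l i j}.ncard ≤ 6 := by
  classical
  set S : Finset (ZMod n) := Finset.univ.filter fun i => ¬ ∃ j, Compl a l i j with hS
  have hS1 : {i : ZMod n | ¬ ∃ j, Compl a l i j} = (S : Set (ZMod n)) := by
    ext i
    simp [hS]
  rw [hS1, Set.ncard_coe_finset]
  have hc := K.count (fun i => if i ∈ S then 3 else 2) (by
    intro i
    show 0 < if i ∈ S then 3 else 2
    split_ifs <;> norm_num) (by
    intro c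
    show (if c.2 ∈ S then 3 else 2) ≤ _
    have h2 := K.two_le c
    split_ifs with hi
    · by_contra hlt
      have h3 : Function.minimalPeriod K.nx c = 2 := by omega
      have h4 := K.deg_two c h3
      rw [hS, Finset.mem_filter] at hi
      exact hi.2 ⟨_, h4⟩
    · exact h2)
  have hsum : ∑ i : ZMod n, (1 : ℝ) / (((if i ∈ S then 3 else 2 : ℕ)) : ℝ) =
      (n : ℝ) / 2 - (S.card : ℝ) / 6 := by
    have h1 : ∀ i : ZMod n, (1 : ℝ) / (((if i ∈ S then 3 else 2 : ℕ)) : ℝ) =
        1 / 2 - if i ∈ S then (1 : ℝ) / 6 else 0 := by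
      intro i
      split_ifs <;> norm_num
    rw [Finset.sum_congr rfl fun i _ => h1 i, Finset.sum_sub_distrib, Finset.sum_const,
      Finset.card_univ, ZMod.card, ← Finset.sum_filter, Finset.sum_const]
    simp only [nsmul_eq_mul, Finset.filter_mem_eq_inter, Finset.univ_inter]
    ring
  rw [hsum] at hc
  have h7 : (S.card : ℝ) ≤ 6 := by linarith
  exact_mod_cast h7

theorem Comb.attained (K : Comb n a l ι) (D : ZMod n → ℕ) (h0 : ∀ i, 0 < D i)
    (hD : ∀ c, D c.2 ≤ Function.minimalPeriod K.nx c)
    (he : ∑ i, (1 : ℝ) / (D i : ℝ) ≤ ((n : ℝ) - 2) / 2) (i : ZMod n) :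
    ∃ t : ι, Function.minimalPeriod K.nx (t, i) = D i := by
  classical
  by_contra hcon
  push Not at hcon
  have hc := K.count (Function.update D i (D i + 1)) (by
    intro j
    by_cases hj : j = i
    · subst hj
      simp
    · rw [Function.update_of_ne hj]
      exact h0 j) (by
    rintro ⟨t, j⟩
    by_cases hj : j = i
    · subst hj
      have h1 := hD (t, j)
      have h2 := hcon t
      simp only [Function.update_self] at h1 ⊢
      omega
    · simp only
      rw [Function.update_of_ne hj]
      exact hD (t, j))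
  have hlt : ∑ j, (1 : ℝ) / ((Function.update D i (D i + 1) j : ℕ) : ℝ) <
      ∑ j, (1 : ℝ) / (D j : ℝ) := by
    refine Finset.sum_lt_sum (fun j _ => ?_) ⟨i, Finset.mem_univ i, ?_⟩
    · by_cases hj : j = i
      · subst hj
        rw [Function.update_self]
        have h1 : (0 : ℝ) < D j := by exact_mod_cast h0 j
        refine one_div_le_one_div_of_le h1 ?_
        push_cast
        linarith
      · rw [Function.update_of_ne hj]
    · rw [Function.update_self]
      have h1 : (0 : ℝ) < D i := by exact_mod_cast h0 i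
      refine one_div_lt_one_div_of_lt h1 ?_
      push_cast
      linarith
  linarith

end Pool.Agent.Lib_MP_fa6e45
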