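import Pool.Agent.Lib_MP_fa6e45.Base

/-!
Definitions for the lattice criterion for periodic tilings (no proofs).
`Chain P Y`: the boundary of `P` as a finite family of directed segments `[p y, q y]` (for instance the
sides themselves, or the sides with extra division points).
`k` motions `g j`, the lattice `ℤ u + ℤ w`; the directed segments of all tiles are indexed by
`Fin k × Y`; `τ` is an involution such that the segment `τ x` translated by the lattice vector
`c x` is the segment `x` reversed.
-/

open Set MeasureTheory Complex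
open scoped Topology

namespace Pool.Agent.Lib_MP_fa6e45

open Pool.Agent.Lib_PL (cr InSector Poly)

variable {n : ℕ}

/-- the boundary of `P` as a sum of directed segments -/
structure Chain (P : Polygon n) (Y : Type) [Fintype Y] where
  p : Y → ℂ
  q : Y → ℂ
  sub : ∀ y, segment ℝ (p y) (q y) ⊆ P.bdry
  sum_in : ∀ z ∈ P.inner, ∑ y, th (p y) (q y) z = 2 * Real.pi
  sum_out : ∀ z, z ∉ P.region → ∑ y, th (p y) (q y) z = 0

/-- periodic tiling: `P` has a periodic monohedral tiling -/
def HasPeriodic (P : Polygon n) : Prop := ∃ 𝒯 : Set (Set ℂ), P.IsTiling 𝒯 ∧ Periodic 𝒯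

/-- lattice vector -/
def lv (u w : ℂ) (a : ℤ × ℤ) : ℂ := (a.1 : ℂ) * u + (a.2 : ℂ) * w

/-- data for the lattice criterion -/
structure LData (P : Polygon n) (Y : Type) [Fintype Y] (k : ℕ) where
  K : Chain P Y
  g : Fin k → Mo
  u : ℂ
  w : ℂ
  ne : cr u w ≠ 0
  τ : Fin k × Y → Fin k × Y
  ττ : ∀ x, τ (τ x) = x
  c : Fin k × Y → ℤ × ℤ
  cτ : ∀ x, c (τ x) = -c x

namespace LData

variable {P : Polygon n} {Y : Type} [Fintype Y] {k : ℕ} (D : LData P Y k)

/-- start of the directed segment `x` (interior on the left) -/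
noncomputable def src (x : Fin k × Y) : ℂ :=
  (D.g x.1).app (if (D.g x.1).rf then D.K.q x.2 else D.K.p x.2)

/-- end of the directed segment `x` -/
noncomputable def tgt (x : Fin k × Y) : ℂ :=
  (D.g x.1).app (if (D.g x.1).rf then D.K.p x.2 else D.K.q x.2)

/-- the segments are matched -/
def Matched : Prop := ∀ x, D.src (D.τ x) + lv D.u D.w (D.c x) = D.tgt x ∧
  D.tgt (D.τ x) + lv D.u D.w (D.c x) = D.src x

/-- the translated open tile -/
def I (x : Fin k × (ℤ × ℤ)) : Set ℂ := (fun z => z + lv D.u D.w x.2) '' ((D.g x.1).app '' P.inner)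

/-- the translated closed tile -/
def R (x : Fin k × (ℤ × ℤ)) : Set ℂ := (fun z => z + lv D.u D.w x.2) '' ((D.g x.1).app '' P.region)

/-- the union of all boundaries -/
def Bd : Set ℂ := ⋃ x : Fin k × (ℤ × ℤ), (fun z => z + lv D.u D.w x.2) '' ((D.g x.1).app '' P.bdry)

/-- the number of tiles around a point -/
noncomputable def mult (z : ℂ) : ℕ := {x : Fin k × (ℤ × ℤ) | z ∈ D.I x}.ncard

end LData

end Pool.Agent.Lib_MP_fa6e45
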