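import Pool.Agent.Lib_MP_fa6e45.Stmt

/-!
MP_fa6e45_co, stage 2a: tilings in which at least three tiles meet at every corner.
-/

open Set

namespace Pool.Agent.Lib_MP_fa6e45

/-- At every corner of every tile of `𝒮` at least three tiles of `𝒮` meet. -/
def Polygon.ThreeAtCorners {n : ℕ} (P : Polygon n) (𝒮 : Set (Set ℂ)) : Prop :=
  ∀ g : ℂ ≃ᵢ ℂ, g '' P.region ∈ 𝒮 → ∀ i : ZMod n, ∃ s ∈ 𝒮, ∃ t ∈ 𝒮, s ≠ t ∧
    s ≠ g '' P.region ∧ t ≠ g '' P.region ∧ g (P.vertex i) ∈ s ∧ g (P.vertex i) ∈ t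

/-- No three sides of the polygon have the same length. -/
def Polygon.NoThreeEqual {n : ℕ} (P : Polygon n) : Prop :=
  ∀ i j k : ZMod n, i ≠ j → j ≠ k → i ≠ k → ¬ (P.len i = P.len j ∧ P.len j = P.len k)

end Pool.Agent.Lib_MP_fa6e45
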