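import Pool.Agent.Lib_MP_fa6e45.Base
import Pool.Agent.Lib_MP_fa6e45.L1Defs
import Pool.Agent.Lib_MP_fa6e45.Stmt3

/-!
MP_fa6e45_co, stage 2a: definitions (no proofs). `CombA` = the combinatorial data of a tiling with the
averaging principle; `cross` = a function of the crossing between a corner and the next corner;
length classes, closed 3-walks with flags, numbers of corners in a star.
-/

open Set MeasureTheory Complex
open scoped Topology

namespace Pool.Agent.Lib_MP_fa6e45

open Pool.Agent.Lib_PL (cr InSector Poly)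

/-- combinatorial data with the averaging principle: a bounded function on the corners whose sums over
all stars are `≤ 0` cannot have all its sums over tiles `≥ δ > 0` -/
structure CombA (n : ℕ) [NeZero n] (a l : ZMod n → ℝ) (ι : Type) extends Comb n a l ι where
  avg : ∀ f : ι × ZMod n → ℝ, (∃ B : ℝ, ∀ c, |f c| ≤ B) →
    (∀ c, ∑ k ∈ Finset.range (Function.minimalPeriod nx c), f (nx^[k] c) ≤ 0) →
    ∀ δ > 0, (∀ t, δ ≤ ∑ i, f (t, i)) → False

namespace Comb

variable {n : ℕ} [NeZero n] {a l : ZMod n → ℝ} {ι : Type} (K : Comb n a l ι)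

/-- the number of corners in the star of `c` -/
noncomputable def deg (c : ι × ZMod n) : ℕ := Function.minimalPeriod K.nx c

/-- the value of `A` at the crossing from `c` to the next corner `nx c`: `A (side, flag) (side, flag)`
with the exit side of `c` and the entry side of `nx c` -/
def cross (A : ZMod n × Bool → ZMod n × Bool → ℝ) (c : ι × ZMod n) : ℝ :=
  A (exS K.rf c, K.rf c.1) (enS K.rf (K.nx c), K.rf (K.nx c).1)

/-- the number of corners `i` in the star of `c` -/
noncomputable def cnt (c : ι × ZMod n) (i : ZMod n) : ℕ :=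
  ((Finset.range (K.deg c)).filter fun k => (K.nx^[k] c).2 = i).card

end Comb

/-- the length classes: `l i = l j` iff `cls i = cls j` -/
def HasCls {n : ℕ} (l : ZMod n → ℝ) (cls : ZMod n → ℕ) : Prop :=
  ∀ i j, l i = l j ↔ cls i = cls j

/-- closed 3-walk: corners with a flag (`true` = reflected), entry side `if flag then i - 1 else i`,
exit side the other one; every exit side is in the class of the next entry side -/
def W3 {n : ℕ} (cls : ZMod n → ℕ) (x y z : ZMod n × Bool) : Prop :=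
  cls (if x.2 then x.1 else x.1 - 1) = cls (if y.2 then y.1 - 1 else y.1) ∧
  cls (if y.2 then y.1 else y.1 - 1) = cls (if z.2 then z.1 - 1 else z.1) ∧
  cls (if z.2 then z.1 else z.1 - 1) = cls (if x.2 then x.1 - 1 else x.1)

instance {n : ℕ} (cls : ZMod n → ℕ) (x y z : ZMod n × Bool) : Decidable (W3 cls x y z) := by
  unfold W3
  infer_instance

/-- the canonical patterns of length classes for `n = 6` (at least two pairs, no three equal), up to
rotation -/
def canon6 : Fin 14 → ZMod 6 → ℕ :=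
  ![![0, 0, 1, 1, 2, 3], ![0, 0, 1, 2, 1, 3], ![0, 0, 1, 2, 3, 2], ![0, 1, 0, 1, 2, 3],
    ![0, 1, 0, 2, 3, 2], ![0, 0, 1, 2, 1, 2],
    ![0, 0, 1, 2, 3, 1], ![0, 0, 1, 2, 2, 1], ![0, 0, 1, 2, 2, 3], ![0, 1, 0, 2, 1, 3],
    ![0, 1, 0, 2, 1, 2], ![0, 1, 2, 0, 1, 3], ![0, 1, 2, 0, 1, 2], ![0, 0, 1, 1, 2, 2]]

/-- the canonical patterns of length classes for `n = 5` (two pairs), up to rotation: `XXYYE`,
`XYXYE`, `XYYXE` -/
def canon5 : Fin 3 → ZMod 5 → ℕ :=
  ![![0, 0, 1, 1, 2], ![0, 1, 0, 1, 2], ![0, 1, 1, 0, 2]]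

/-- possible numbers of corners in a star for the pattern `XXYYE` (corners 0: EX, 1: XX, 2: XY,
3: YY, 4: YE), at least three corners -/
def Good5 (m : ZMod 5 → ℕ) : Prop :=
  m 0 % 2 = m 2 % 2 ∧ m 0 % 2 = m 4 % 2 ∧
  (0 < m 1 → 0 < m 0 + m 2 ∨ (m 3 = 0 ∧ m 4 = 0)) ∧
  (0 < m 3 → 0 < m 2 + m 4 ∨ (m 0 = 0 ∧ m 1 = 0)) ∧
  3 ≤ m 0 + m 1 + m 2 + m 3 + m 4

end Pool.Agent.Lib_MP_fa6e45
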