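import Pool.Agent.Lib_MP_fa6e45.X0
import Pool.Agent.Lib_MP_fa6e45.K1
import Pool.Agent.Lib_MP_fa6e45.VDefs

/-!
MP_fa6e45_co, stage 2b, definitions for the reduction to arcs and for walks (no proofs).
-/

open Set MeasureTheory Complex
open scoped Topology

namespace Pool.Agent.Lib_MP_fa6e45

open Pool.Agent.Lib_PL (cr InSector Poly)

variable {n : ℕ}

/-- every corner of the polygon has degree two in all tiles or in none -/
def Comb.Hom [NeZero n] {a l : ZMod n → ℝ} {ι : Type} (K : Comb n a l ι) : Prop :=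
  ∀ i : ZMod n, (∃ t, K.deg (t, i) = 2) → ∀ t, K.deg (t, i) = 2

/-- no three equal lengths -/
def NoThree (l : ZMod n → ℝ) : Prop :=
  ∀ i j k : ZMod n, i ≠ j → j ≠ k → i ≠ k → ¬ (l i = l j ∧ l j = l k)

/-- combinatorial data of a tiling in terms of `m` arcs: `G j k b` says that arcs `j` and `k` may be glued
(`b = true`: same orientation of the two tiles) -/
structure CombG (m : ℕ) [NeZero m] (a : ZMod m → ℝ) (G : ZMod m → ZMod m → Bool → Prop)
    (ι : Type) where
  three_le : 3 ≤ m
  a_pos : ∀ i, 0 < a i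
  a_lt : ∀ i, a i < 2 * Real.pi
  a_ne : ∀ i, a i ≠ Real.pi
  a_sum : ∑ i, a i = ((m : ℝ) - 2) * Real.pi
  rf : ι → Bool
  nx : Equiv.Perm (ι × ZMod m)
  deg3 : ∀ c, 3 ≤ Function.minimalPeriod nx c
  sum : ∀ c, ∑ k ∈ Finset.range (Function.minimalPeriod nx c), a ((nx^[k] c).2) = 2 * Real.pi
  glue : ∀ c, G (exS rf c) (enS rf (nx c)) (rf c.1 == rf (nx c).1)
  flip : ∀ c, nx (fwd rf (nx c)) = bwd rf c
  avg : ∀ f : ι × ZMod m → ℝ, (∃ B : ℝ, ∀ c, |f c| ≤ B) →
    (∀ c, ∑ k ∈ Finset.range (Function.minimalPeriod nx c), f (nx^[k] c) ≤ 0) →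
    ∀ δ > 0, (∀ t, δ ≤ ∑ i, f (t, i)) → False

/-! ### Walks -/

/-- entry side of the corner `c = (i, f)` (`f = true`: reflected), with its flag -/
def enW {m : ℕ} (c : ZMod m × Bool) : ZMod m × Bool := (if c.2 then c.1 - 1 else c.1, c.2)

/-- exit side of the corner `c`, with its flag -/
def exW {m : ℕ} (c : ZMod m × Bool) : ZMod m × Bool := (if c.2 then c.1 else c.1 - 1, c.2)

/-- one step of a walk around a vertex: the exit side of `c` is glued to the entry side of `d` -/
def StepG {m : ℕ} (G : ZMod m → ZMod m → Bool → Prop) (c d : ZMod m × Bool) : Prop :=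
  G (exW c).1 (enW d).1 (c.2 == d.2)

/-- path from `c` through the list to `d` -/
def Pth {α : Type} (R : α → α → Prop) : α → List α → α → Prop
  | c, [], d => R c d
  | c, x :: l, d => R c x ∧ Pth R x l d

/-- sum of the costs of the steps of the path from `c` through the list to `d` -/
def pcost {α M : Type} [Add M] (f : α → α → M) : α → List α → α → M
  | c, [], d => f c d
  | c, x :: l, d => f c x + pcost f x l d

/-- code of a corner -/
def code {m : ℕ} (c : ZMod m × Bool) : ℕ := 2 * c.1.val + c.2.toNat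

/-- cost of a step for the weights `v` and the antisymmetric function `A` of the crossing -/
def stepCost {m : ℕ} (v : ZMod m → ℤ) (A : ZMod m × Bool → ZMod m × Bool → ℤ)
    (c d : ZMod m × Bool) : ℤ := v c.1 + A (exW c) (enW d)

/-- the linear programming principle for walks: `a`, `b` (in units of `π`) sum to `2` around the vertex -/
def WP {m : ℕ} [NeZero m] (a b : ZMod m → ℝ) (G : ZMod m → ZMod m → Bool → Prop) : Prop :=
  ∀ (v : ZMod m → ℤ) (A : ZMod m × Bool → ZMod m × Bool → ℤ), (∀ x y, A y x = -A x y) →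
    ∀ L : ℤ, 2 * ∑ i, v i < ((m : ℤ) - 2) * L →
      ∃ (c : ZMod m × Bool) (l : List (ZMod m × Bool)), (∀ x ∈ l, code c ≤ code x) ∧
        Pth (StepG G) c l c ∧ 2 ≤ l.length ∧ a c.1 + (l.map fun x => a x.1).sum = 2 ∧
        b c.1 + (l.map fun x => b x.1).sum = 2 ∧ pcost (stepCost v A) c l c < L

end Pool.Agent.Lib_MP_fa6e45
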