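import Pool.Agent.Lib_MP_fa6e45.HF0
import Pool.Agent.Lib_MP_fa6e45.H2
import Pool.Agent.Lib_MP_fa6e45.Y0

/-!
MP_fa6e45_co, stage 5 (constant status of the corners, any number of corners): definitions (captain).

`m` arcs, `3 ≤ m ≤ 6`. A word `w` is a list of `m` letters, it describes which arcs may be glued. `SitT w P S b`: what is
known about a polygon `P` with arcs `S` (relation given by `w`) and chord angles `b` (in units of `π`).
-/

open Set MeasureTheory Complex
open scoped Topology

namespace Pool.Agent.Lib_MP_fa6e45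

/-! ### words -/

/-- is `l` in the stabilizer of the kind `k` (`0`: everything, `1`: `{0, 1}`, `2`: `{0, 3}`, `3`: `{0}`) -/
def inH (k l : ℕ) : Bool :=
  bif Nat.beq k 0 then true else bif Nat.beq l 0 then true else
    bif Nat.beq k 1 then Nat.beq l 1 else bif Nat.beq k 2 then Nat.beq l 3 else false

/-- may arcs with the letters `x`, `y` be glued (`b = true`: the tiles have the same orientation). Letters:
`16 * class + 4 * kind + label`. The label `l < 4` says that the arc is obtained from a fixed arc of its class by `l`: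
`0` identity, `1` the arc which fits as a direct neighbour (`Plus`), `2` the arc which fits as a reflected neighbour
(`Minus`), `3` both operations. The kind is the stabilizer of the arc in this group of four operations. -/
def okL (x y : ℕ) (b : Bool) : Bool :=
  bif Nat.beq (Nat.div x 16) (Nat.div y 16) then
    inH (Nat.mod (Nat.div x 4) 4)
      (Nat.xor (Nat.xor (Nat.mod x 4) (Nat.mod y 4)) (bif b then 1 else 2)) else false

/-- the relation given by a word -/
def relT {m : ℕ} (w : List ℕ) (j k : ZMod m) (b : Bool) : Bool :=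
  okL (w.getD j.val 0) (w.getD k.val 0) b

/-- number of a word -/
def encW (w : List ℕ) : ℕ := w.foldr (fun x y => x + 256 * y) 0

/-- word with a number -/
def decW (m x : ℕ) : List ℕ := (List.range m).map fun j => x / 256 ^ j % 256

/-! ### situations -/

/-- what is known about a polygon with arcs `S` which satisfy the relations given by `w`, and chord angles `b` -/
structure SitT {n m : ℕ} [NeZero m] (w : List ℕ) (P : Polygon n) (S : Arcs P m)
    (b : ZMod m → ℝ) : Prop where
  ccw : P.CCW
  rel : ∀ j k c, S.Rel j k c ↔ relT w j k c = true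
  chord : S.ChordAng b
  off : ∃ σ ε : ZMod m → ℝ, (∀ j k, S.Plus j k → σ j = ε k ∧ ε j = σ k) ∧
    (∀ j k, S.Minus j k → σ j = -σ k ∧ ε j = -ε k) ∧
    ∀ j, b j = P.ang (S.κ j) / Real.pi + σ j - ε (j - 1)
  comb : ∃ ι : Type, Nonempty (CombG m (fun j => P.ang (S.κ j)) S.Rel ι)

/-- the node with the equations `eqs` (valid for the angles and for the chord angles) is solved -/
def NodeT (m : ℕ) [NeZero m] (w : List ℕ) (eqs : List Eqn) : Prop :=
  ∀ {n : ℕ} (P : Polygon n) (S : Arcs P m) (b : ZMod m → ℝ), SitT w P S b →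
    (∀ E ∈ eqs, Eqn.Holds E (fun j => P.ang (S.κ j) / Real.pi)) → (∀ E ∈ eqs, Eqn.Holds E b) →
      HasPeriodic P

/-- the inverse of `sgC r s` -/
def siC {n : ℕ} (r : Bool) (s i : ZMod n) : ZMod n := if r then s - i else i - s

/-! ### leaves with several copies of the tile in a lattice cell -/

/-- glued arcs, and equations for the chord angles (in units of `π`) -/
structure TorT where
  glue : List (ℕ × ℕ × Bool)
  eqs : List Eqn

/-- the polygons described by `T` have periodic tilings -/
def TorT.OK (T : TorT) (m : ℕ) [NeZero m] : Prop :=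
  ∀ {n : ℕ} (P : Polygon n) (S : Arcs P m) (b : ZMod m → ℝ), P.CCW → S.ChordAng b →
    (∀ g ∈ T.glue, S.Rel (g.1 : ZMod m) (g.2.1 : ZMod m) g.2.2) →
    (∀ E ∈ T.eqs, Eqn.Holds E b) → HasPeriodic P

/-! ### good stars -/

/-- code of the corner after the corner with code `q` of the same tile, in its orientation -/
def fwC (m q : ℕ) : ℕ :=
  if q % 2 = 0 then 2 * ((q / 2 + 1) % m) else 2 * ((q / 2 + (m - 1)) % m) + 1

/-- code of the corner before the corner with code `q` of the same tile, in its orientation -/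
def bwC (m q : ℕ) : ℕ :=
  if q % 2 = 0 then 2 * ((q / 2 + (m - 1)) % m) else 2 * ((q / 2 + 1) % m) + 1

/-- three consecutive codes in the cyclic words -/
def trip (GS : List (List ℕ)) : List (ℕ × ℕ × ℕ) :=
  GS.flatMap fun u => (List.range u.length).map fun k =>
    (u.getD ((k + (u.length - 1)) % u.length) 0, u.getD k 0, u.getD ((k + 1) % u.length) 0)

/-- walk backwards around a tile: at the corner with code `c`, the corner before it in its star has code `p` -/
def tileW (T : List (ℕ × ℕ × ℕ)) (m p0 : ℕ) : ℕ → ℕ → ℕ → Bool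
  | 0, _, p => p == p0
  | k + 1, c, p => T.any fun x => x.1 == p && x.2.1 == c && tileW T m p0 k (bwC m c) (fwC m x.2.2)

/-- no tile has only corners whose stars have their words in `GS` -/
def noTile (m : ℕ) (GS : List (List ℕ)) : Bool :=
  (trip GS).all fun x => decide (2 ≤ x.2.1) || !tileW (trip GS) m x.1 m x.2.1 x.1

/-- the principle for walks with good stars: `a`, `b` (in units of `π`) sum to `2` around the vertex. `GS` are the
words (lists of the codes, the first one minimal) of the good stars, a good star may have cost `< L`. With `GS = []` and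
`ρ = 0` this is `WP`. -/
def WG {m : ℕ} [NeZero m] (a b : ZMod m → ℝ) (G : ZMod m → ZMod m → Bool → Prop) : Prop :=
  ∀ GS : List (List ℕ), noTile m GS = true →
    ∀ (v : ZMod m → ℤ) (A : ZMod m × Bool → ZMod m × Bool → ℤ), (∀ x y, A y x = -A x y) →
      ∀ L ρ : ℤ, 0 ≤ ρ → 2 * ∑ i, v i + 2 * ((m : ℤ) - 1) * ρ < ((m : ℤ) - 2) * L →
        ∃ (c : ZMod m × Bool) (l : List (ZMod m × Bool)), (∀ x ∈ l, code c ≤ code x) ∧
          Pth (StepG G) c l c ∧ 2 ≤ l.length ∧ a c.1 + (l.map fun x => a x.1).sum = 2 ∧
          b c.1 + (l.map fun x => b x.1).sum = 2 ∧ pcost (stepCost v A) c l c < L ∧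
          ((c :: l).map code ∈ GS →
            pcost (stepCost v A) c l c + ρ * ((l.length : ℤ) + 1) < L)

/-! ### linear programming nodes -/

/-- compare `dfsF`; `wd` is the number with the digits `1`, codes of the path in base `16` -/
noncomputable def dfsR (rows : List (List (ℕ × ℕ))) (LL : ℕ) (acc : ℕ → ℕ → ℕ → ℕ → Bool) (c0 : ℕ)
    (fuel : ℕ) : ℕ → ℕ → ℕ → ℕ → ℕ → Bool :=
  Nat.rec (motive := fun _ => ℕ → ℕ → ℕ → ℕ → ℕ → Bool) (fun _ _ _ _ _ => false)
    (fun _ ih cur s cnt wd len => rowF LL s (fun y t =>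
      bif (bif Nat.beq y c0 then acc cnt wd len t else true) then
        (bif Nat.ble c0 y then ih y t (Nat.add cnt (Nat.pow 16 (Nat.div y 2)))
          (Nat.add (Nat.mul 16 wd) y) (Nat.succ len)
          else true) else false) (nthF [] rows cur)) fuel

/-- a closed path is accepted: at most two corners, numbers of corners in the list, or a good star with enough cost -/
noncomputable def accR (GSn : List ℕ) (ρ L : ℕ) (cvN : List ℕ) (cnt wd len t : ℕ) : Bool :=
  bif Nat.ble len 2 then true else
    bif anyF (Nat.beq cnt) cvN then true else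
      bif anyF (Nat.beq wd) GSn then Nat.ble L (Nat.add t (Nat.mul ρ len)) else Nat.ble L t

/-- one step is correctly described by the table of the rows -/
noncomputable def stepR (m : ℕ) (w v φ : List ℕ) (V0 : ℕ) (Am : List (List ℕ)) (LL : ℕ)
    (rows : List (List (ℕ × ℕ))) (c d : ℕ) : Bool :=
  bif okL (nthF 0 w (Nat.div (exF m c) 2)) (nthF 0 w (Nat.div (enF m d) 2))
      (Nat.beq (Nat.mod c 2) (Nat.mod d 2)) then
    (fun lhs rhs => bif Nat.ble lhs rhs then
      (bif Nat.ble (Nat.add LL lhs) rhs then true else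
        anyF (fun e => bif Nat.beq e.1 d then Nat.ble (Nat.add e.2 lhs) rhs else false)
          (nthF [] rows c)) else false)
      (Nat.add (Nat.add (nthF 0 φ d) (nthF 0 (nthF [] Am (enF m d)) (exF m c))) V0)
      (Nat.add (Nat.add (nthF 0 v (Nat.div c 2)) (nthF 0 φ c)) (nthF 0 (nthF [] Am (exF m c)) (enF m d)))
  else true

/-- number of the word of a star -/
def wdF (u : List ℕ) : ℕ := u.foldl (fun x y => 16 * x + y) 1

/-- the linear programming node is correct -/
noncomputable def lpR (m : ℕ) (w v φ : List ℕ) (V0 : ℕ) (Am : List (List ℕ)) (L fuel : ℕ)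
    (rows : List (List (ℕ × ℕ))) (GS : List (List ℕ)) (ρ : ℕ) (cvs : List (List ℕ)) : Bool :=
  Nat.blt (Nat.add (Nat.mul 2 v.sum) (Nat.mul (Nat.mul 2 (Nat.sub m 1)) ρ))
    (Nat.add (Nat.mul (Nat.sub m 2) L) (Nat.mul (Nat.mul 2 m) V0)) &&
  noTile m GS && (allF (fun u => allF (fun x => Nat.ble x 15) u) GS) &&
  Nat.ble fuel 15 && Nat.beq v.length m &&
  (allF (fun r => srtF r 0) rows) &&
  (allF (fun cv => bif Nat.beq cv.length m then allF (fun x => Nat.ble x 15) cv else false) cvs) &&
  (allF (fun c => allF (stepR m w v φ V0 Am L rows c) (List.range (2 * m))) (List.range (2 * m))) &&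
  allF (fun c => dfsR rows L (accR (GS.map wdF) ρ L (cvs.map encF)) c fuel c 0
    (Nat.pow 16 (Nat.div c 2)) (Nat.add 16 c) 1) (List.range (2 * m))

/-! ### nodes -/

/-- nodes of a certificate -/
inductive TN
  | leafM (k : ℕ) (nu : List ℕ) (cs : List (ℤ × List ℤ)) (inn : List (ℕ × ℕ × ℤ × List ℤ))
  | tor (id : ℕ) (r : Bool) (s : ℕ) (cs : List (ℤ × List ℤ))
  | geo (D : ℤ) (f : ℕ) (lin : List (ℤ × ℤ)) (cs : List (ℤ × List ℤ)) (fuel : ℕ)
  | lp (v φ : List ℕ) (V0 : ℕ) (Am : List (List ℕ)) (L fuel : ℕ) (rows : List (List (ℕ × ℕ)))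
      (GS : List (List ℕ)) (ρ : ℕ) (cvs : List (List ℕ)) (ch : List HCf)

/-- check of `GlueM` -/
noncomputable def glueT (m : ℕ) (w : List ℕ) (inn : List (ℕ × ℕ × ℤ × List ℤ)) (nu : List ℕ)
    (g : ℕ × ℕ × Bool) : Bool :=
  nuU m nu g.2.1 == nuU m nu g.1 &&
    ((List.range (nuU m nu g.1)).all fun t => okL (nthF 0 w ((nu.getD g.1 0 + t) % m))
      (nthF 0 w ((nu.getD g.2.1 0 + (if g.2.2 then nuU m nu g.1 - 1 - t else t)) % m)) g.2.2) &&
    (List.range (nuU m nu g.1)).all fun t => t == 0 || inn.any fun e =>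
      e.1 == (nu.getD g.1 0 + t) % m &&
        e.2.1 == (nu.getD g.2.1 0 + (if g.2.2 then nuU m nu g.1 - t else t)) % m

/-- `sgC r s` with natural numbers, `s, x < m` -/
def sgN (m : ℕ) (r : Bool) (s x : ℕ) : ℕ := if r then (s + (m - x)) % m else (x + s) % m

/-- `siS r s` with natural numbers, `s, x < m` -/
def siN (m : ℕ) (r : Bool) (s x : ℕ) : ℕ := if r then (s + (m - 1) + (m - x)) % m else (x + (m - s)) % m

/-- the word is invariant under the symmetry `g = (r, s, values of sgC r s)` -/
noncomputable def symT (m : ℕ) (w : List ℕ) (g : Bool × ℕ × List ℕ) : Bool :=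
  decide (g.2.1 < m) && ((List.range m).all fun x => g.2.2.getD x 0 == sgN m g.1 g.2.1 x) &&
    (List.range m).all fun j => (List.range m).all fun k =>
      (okL (nthF 0 w j) (nthF 0 w k) true ==
        okL (nthF 0 w (siN m g.1 g.2.1 j)) (nthF 0 w (siN m g.1 g.2.1 k)) true) &&
      (okL (nthF 0 w j) (nthF 0 w k) false ==
        okL (nthF 0 w (siN m g.1 g.2.1 j)) (nthF 0 w (siN m g.1 g.2.1 k)) false)

/-- neighbouring arcs of the boundary fit as direct neighbours (then the chord angles are the angles, and all chords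
have the same length) -/
noncomputable def pluB (m : ℕ) (w : List ℕ) : Bool :=
  (List.range m).all fun j => okL (nthF 0 w ((j + (m - 1)) % m)) (nthF 0 w j) true

/-- check of node `i` -/
noncomputable def chkT (m : ℕ) [NeZero m] (w : List ℕ) (tt : List TorT) (sy : List (Bool × ℕ × List ℕ))
    (D : ℕ → List Eqn) (i : ℕ) (N : TN) : Bool :=
  match N with
    | TN.leafM k nu cs inn => nuOK m nu && (inn.all (innB m (D i ++ eqs0 m []))) &&
        ((schM nu.length k).glue.all fun g => glueT m w inn nu g) &&
        derMB m (D i ++ eqs0 m []) nu (schM nu.length k).eqs cs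
    | TN.tor id r s cs =>
        match tt[id]? with
          | none => false
          | some T => decide (s < m) && (T.glue.all fun g => decide (g.1 < m) && decide (g.2.1 < m) &&
              okL (nthF 0 w (siN m r s g.1)) (nthF 0 w (siN m r s g.2.1)) g.2.2) &&
            derG m (D i ++ eqs0 m []) (sgN m r s) T.eqs cs
    | TN.geo d f lin cs fuel => pluB m w &&
        geoB (m := m) (fun _ => 0) (D i ++ eqs0 m []) d f lin cs fuel
    | TN.lp v φ V0 Am L fuel rows GS ρ cvs ch =>
        lpR m w v φ V0 Am L fuel rows GS ρ cvs && chF m sy D i (D i ++ eqs0 m []) cvs ch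

/-- all elements with their numbers -/
noncomputable def allI {α : Type} (g : ℕ → α → Bool) (l : List α) : ℕ → Bool :=
  List.rec (motive := fun _ => ℕ → Bool) (fun _ => true)
    (fun x _ ih i => bif g i x then ih (Nat.succ i) else false) l

/-- certificate for a word; `D` are the equations of the nodes, in blocks of 12 -/
structure CertT where
  w : List ℕ
  sy : List (Bool × ℕ × List ℕ)
  D : List (List (List Eqn))
  Ns : List TN

/-- check of a certificate -/
noncomputable def chkC (m : ℕ) [NeZero m] (tt : List TorT) (C : CertT) : Bool :=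
  (C.w == decW m (encW C.w)) && C.sy.all (symT m C.w) && decide (0 < C.Ns.length) &&
    (blkF [] C.D (C.Ns.length - 1)).isEmpty && allI (chkT m C.w tt C.sy (blkF [] C.D)) C.Ns 0

end Pool.Agent.Lib_MP_fa6e45
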