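import Pool.Agent.Lib_MP_fa6e45.F0

/-!
PIECE F1 (about 250 lines): existence of an invariant mean (Hahn-Banach). Let `V` be the space of bounded functions
on the corners (a submodule of `ι × ZMod n → ℝ`). For `h ∈ V` put `Z h c = h c - h (K.nx c)`; all star sums of `Z h` are 0,
so by `K.avg` (for `Z h` and for `Z (-h)`) no `Z h` has all tile sums `≥ δ > 0`. Put
`p f = inf over h ∈ V of sup over t of ∑ i, (f + Z h) (t, i)`. Then `p` is sublinear (finite: `|p f| ≤ n C` if `|f| ≤ C`, as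
`0 ≤ p 0` and `p f + p (-f) ≥ p 0`), `p 0 = 0`, `p f ≤ 0` if all tile sums of `f` are `≤ 0`, `p (Z h) ≤ 0`, `p (f - f ∘ shift) ≤ 0`,
`p 1 ≤ n`, `p (-1) ≤ -n`. `exists_extension_of_le_sublinear` (with the zero map on the zero subspace) gives a linear `g ≤ p`.
Then `M f = g f` for bounded `f` (and 0 otherwise). `K.nonempty` (Y1) gives a tile. For the supremum over `t : ι` of a bounded
function use `sSup`/`ciSup`.
-/

open Set MeasureTheory Complex
open scoped Topology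

namespace Pool.Agent.Lib_MP_fa6e45

variable {n : ℕ} [NeZero n] {a l : ZMod n → ℝ} {ι : Type}

omit [NeZero n] in
private theorem F1_bd_add {f g : ι × ZMod n → ℝ} (hf : Bd f) (hg : Bd g) :
    Bd (fun c => f c + g c) := by
  obtain ⟨C, hC⟩ := hf
  obtain ⟨D, hD⟩ := hg
  exact ⟨C + D, fun c => (abs_add_le _ _).trans (add_le_add (hC c) (hD c))⟩

omit [NeZero n] in
private theorem F1_bd_smul (r : ℝ) {f : ι × ZMod n → ℝ} (hf : Bd f) :
    Bd (fun c => r * f c) := by
  obtain ⟨C, hC⟩ := hf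
  refine ⟨|r| * C, fun c => ?_⟩
  rw [abs_mul]
  exact mul_le_mul_of_nonneg_left (hC c) (abs_nonneg r)

/-- the space of bounded functions -/
private def F1_V (ι : Type) (n : ℕ) : Submodule ℝ (ι × ZMod n → ℝ) where
  carrier := {f | Bd f}
  add_mem' := fun hf hg => F1_bd_add hf hg
  zero_mem' := ⟨0, fun c => by simp⟩
  smul_mem' := fun r _ hf => F1_bd_smul r hf

/-- the largest tile sum -/
private noncomputable def F1_S (f : ι × ZMod n → ℝ) : ℝ := ⨆ t : ι, ∑ i, f (t, i)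

private theorem F1_bdd {f : ι × ZMod n → ℝ} (hf : Bd f) :
    BddAbove (Set.range fun t : ι => ∑ i, f (t, i)) := by
  obtain ⟨C, hC⟩ := hf
  refine ⟨∑ _i : ZMod n, C, ?_⟩
  rintro _ ⟨t, rfl⟩
  exact Finset.sum_le_sum fun i _ => (le_abs_self _).trans (hC _)

private theorem F1_le_S {f : ι × ZMod n → ℝ} (hf : Bd f) (t : ι) : ∑ i, f (t, i) ≤ F1_S f :=
  le_ciSup (F1_bdd hf) t

private theorem F1_S_le [Nonempty ι] {f : ι × ZMod n → ℝ} {b : ℝ} (h : ∀ t, ∑ i, f (t, i) ≤ b) :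
    F1_S f ≤ b := ciSup_le h

private theorem F1_S_add [Nonempty ι] {f g : ι × ZMod n → ℝ} (hf : Bd f) (hg : Bd g) :
    F1_S (f + g) ≤ F1_S f + F1_S g := by
  refine F1_S_le fun t => ?_
  simp only [Pi.add_apply]
  rw [Finset.sum_add_distrib]
  exact add_le_add (F1_le_S hf t) (F1_le_S hg t)

private theorem F1_S_smul_le [Nonempty ι] {f : ι × ZMod n → ℝ} (hf : Bd f) {r : ℝ} (hr : 0 < r) :
    F1_S (r • f) ≤ r * F1_S f := by
  refine F1_S_le fun t => ?_
  simp only [Pi.smul_apply, smul_eq_mul]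
  rw [← Finset.mul_sum]
  exact mul_le_mul_of_nonneg_left (F1_le_S hf t) hr.le

/-- `Z h` -/
private def F1_Z (K : CombA n a l ι) (h : ι × ZMod n → ℝ) : ι × ZMod n → ℝ :=
  fun c => h c - h (K.nx c)

private theorem F1_bd_Z (K : CombA n a l ι) {h : ι × ZMod n → ℝ} (hh : Bd h) :
    Bd (F1_Z K h) := by
  obtain ⟨C, hC⟩ := hh
  refine ⟨C + C, fun c => ?_⟩
  exact (abs_sub _ _).trans (add_le_add (hC c) (hC _))

private theorem F1_star (K : CombA n a l ι) (h : ι × ZMod n → ℝ) (c : ι × ZMod n) :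
    ∑ k ∈ Finset.range (Function.minimalPeriod K.nx c), F1_Z K h (K.nx^[k] c) = 0 := by
  have h1 : ∀ k, F1_Z K h (K.nx^[k] c) = h (K.nx^[k] c) - h (K.nx^[k + 1] c) := by
    intro k
    rw [Function.iterate_succ_apply']
    rfl
  simp only [h1]
  rw [Finset.sum_range_sub' (fun k => h (K.nx^[k] c))]
  have h2 := Function.isPeriodicPt_minimalPeriod K.nx c
  have h3 : K.nx^[Function.minimalPeriod K.nx c] c = c := h2
  simp only [h3, Function.iterate_zero, id_eq, sub_self]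

private theorem F1_S_Z (K : CombA n a l ι) {h : ι × ZMod n → ℝ} (hh : Bd h) :
    0 ≤ F1_S (F1_Z K h) := by
  by_contra hlt
  push Not at hlt
  have hb := F1_bd_Z K hh
  refine K.avg (fun c => -F1_Z K h c) ?_ (fun c => ?_) (-F1_S (F1_Z K h)) (by linarith)
    (fun t => ?_)
  · obtain ⟨C, hC⟩ := hb
    exact ⟨C, fun c => by rw [abs_neg]; exact hC c⟩
  · rw [Finset.sum_neg_distrib, F1_star, neg_zero]
  · rw [Finset.sum_neg_distrib]
    exact neg_le_neg (F1_le_S hb t)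

/-- lower bound for `S (f + Z h)` -/
private theorem F1_low (K : CombA n a l ι) [Nonempty ι] {f : ι × ZMod n → ℝ} {C : ℝ}
    (hC : ∀ c, |f c| ≤ C) {h : ι × ZMod n → ℝ} (hh : Bd h) :
    -(n * C) ≤ F1_S (f + F1_Z K h) := by
  have hb := F1_bd_Z K hh
  have hf : Bd f := ⟨C, hC⟩
  have h1 : F1_S (F1_Z K h) ≤ F1_S (f + F1_Z K h) + n * C := by
    refine F1_S_le fun t => ?_
    have h2 := F1_le_S (F1_bd_add hf hb) t
    have h3 : F1_S (fun c => f c + F1_Z K h c) = F1_S (f + F1_Z K h) := rfl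
    rw [h3, Finset.sum_add_distrib] at h2
    have h4 : -(n * C) ≤ ∑ i, f (t, i) := by
      have h5 : ∑ _i : ZMod n, -C ≤ ∑ i, f (t, i) :=
        Finset.sum_le_sum fun i _ => (abs_le.1 (hC (t, i))).1
      rw [Finset.sum_const, Finset.card_univ, ZMod.card, nsmul_eq_mul] at h5
      linarith
    linarith
  have h2 := F1_S_Z K hh
  linarith

/-- the sublinear functional -/
private noncomputable def F1_p (K : CombA n a l ι) (f : F1_V ι n) : ℝ :=
  ⨅ h : F1_V ι n, F1_S ((f : ι × ZMod n → ℝ) + F1_Z K h)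

private theorem F1_bddB (K : CombA n a l ι) [Nonempty ι] (f : F1_V ι n) :
    BddBelow (Set.range fun h : F1_V ι n => F1_S ((f : ι × ZMod n → ℝ) + F1_Z K h)) := by
  obtain ⟨C, hC⟩ : Bd (f : ι × ZMod n → ℝ) := f.2
  refine ⟨-(n * C), ?_⟩
  rintro _ ⟨h, rfl⟩
  exact F1_low K hC h.2

private theorem F1_p_le (K : CombA n a l ι) [Nonempty ι] (f h : F1_V ι n) :
    F1_p K f ≤ F1_S ((f : ι × ZMod n → ℝ) + F1_Z K h) := ciInf_le (F1_bddB K f) h

private theorem F1_Z_add (K : CombA n a l ι) (h h' : ι × ZMod n → ℝ) :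
    F1_Z K (h + h') = F1_Z K h + F1_Z K h' := by
  funext c
  simp only [F1_Z, Pi.add_apply]
  ring

private theorem F1_Z_smul (K : CombA n a l ι) (r : ℝ) (h : ι × ZMod n → ℝ) :
    F1_Z K (r • h) = r • F1_Z K h := by
  funext c
  simp only [F1_Z, Pi.smul_apply, smul_eq_mul]
  ring

private theorem F1_p_add (K : CombA n a l ι) [Nonempty ι] (f g : F1_V ι n) :
    F1_p K (f + g) ≤ F1_p K f + F1_p K g := by
  refine le_ciInf_add_ciInf fun h h' => ?_
  refine (F1_p_le K (f + g) (h + h')).trans ?_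
  have h1 : ((f + g : F1_V ι n) : ι × ZMod n → ℝ) + F1_Z K ((h + h' : F1_V ι n)) =
      ((f : ι × ZMod n → ℝ) + F1_Z K h) + ((g : ι × ZMod n → ℝ) + F1_Z K h') := by
    rw [Submodule.coe_add, Submodule.coe_add, F1_Z_add]
    abel
  rw [h1]
  exact F1_S_add (F1_bd_add f.2 (F1_bd_Z K h.2)) (F1_bd_add g.2 (F1_bd_Z K h'.2))

private theorem F1_p_smul_le (K : CombA n a l ι) [Nonempty ι] (f : F1_V ι n) {r : ℝ}
    (hr : 0 < r) : F1_p K (r • f) ≤ r * F1_p K f := by
  have h0 : ∀ h : F1_V ι n, F1_p K (r • f) / r ≤ F1_S ((f : ι × ZMod n → ℝ) + F1_Z K h) := by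
    intro h
    rw [div_le_iff₀ hr, mul_comm]
    refine (F1_p_le K (r • f) (r • h)).trans ?_
    have h1 : ((r • f : F1_V ι n) : ι × ZMod n → ℝ) + F1_Z K ((r • h : F1_V ι n)) =
        r • ((f : ι × ZMod n → ℝ) + F1_Z K h) := by
      rw [Submodule.coe_smul, Submodule.coe_smul, F1_Z_smul, smul_add]
    rw [h1]
    exact F1_S_smul_le (F1_bd_add f.2 (F1_bd_Z K h.2)) hr
  have h2 : F1_p K (r • f) / r ≤ F1_p K f := le_ciInf h0
  rw [div_le_iff₀ hr, mul_comm] at h2
  exact h2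

private theorem F1_p_smul (K : CombA n a l ι) [Nonempty ι] (r : ℝ) (hr : 0 < r)
    (f : F1_V ι n) : F1_p K (r • f) = r * F1_p K f := by
  refine le_antisymm (F1_p_smul_le K f hr) ?_
  have h1 := F1_p_smul_le K (r • f) (inv_pos.2 hr)
  rw [smul_smul, inv_mul_cancel₀ hr.ne', one_smul] at h1
  have h2 := mul_le_mul_of_nonneg_left h1 hr.le
  rw [← mul_assoc, mul_inv_cancel₀ hr.ne', one_mul] at h2
  exact h2

private theorem F1_p_zero (K : CombA n a l ι) [Nonempty ι] : 0 ≤ F1_p K 0 := by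
  refine le_ciInf fun h => ?_
  rw [Submodule.coe_zero, zero_add]
  exact F1_S_Z K h.2

/-- all tile sums at most `b` -/
private theorem F1_p_tile (K : CombA n a l ι) [Nonempty ι] (f : F1_V ι n) (b : ℝ)
    (hf : ∀ t, ∑ i, (f : ι × ZMod n → ℝ) (t, i) ≤ b) : F1_p K f ≤ b := by
  refine (F1_p_le K f 0).trans (F1_S_le fun t => ?_)
  have h1 : ((f : ι × ZMod n → ℝ) + F1_Z K ((0 : F1_V ι n))) = f := by
    funext c
    simp [F1_Z]
  rw [h1]
  exact hf t

/-- Hahn-Banach -/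
private theorem F1_g (K : CombA n a l ι) [Nonempty ι] :
    ∃ g : F1_V ι n →ₗ[ℝ] ℝ, ∀ f, g f ≤ F1_p K f := by
  obtain ⟨g, -, hg⟩ := exists_extension_of_le_sublinear (⊥ : F1_V ι n →ₗ.[ℝ] ℝ) (F1_p K)
    (fun r hr f => F1_p_smul K r hr f) (F1_p_add K) (by
      rintro ⟨x, hx⟩
      have hx0 : x = 0 := (Submodule.mem_bot ℝ).1 hx
      subst hx0
      have h1 : (⊥ : F1_V ι n →ₗ.[ℝ] ℝ) ⟨0, hx⟩ = 0 := LinearPMap.map_zero _
      rw [h1]
      exact F1_p_zero K)
  exact ⟨g, hg⟩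

theorem CombA.exists_mean (K : CombA n a l ι) : Nonempty (Mean K) := by
  classical
  have : Nonempty ι := K.nonempty
  obtain ⟨g, hg⟩ := F1_g K
  -- bounded functions as elements of the space
  have hmem : ∀ f : ι × ZMod n → ℝ, Bd f → f ∈ F1_V ι n := fun f hf => hf
  let M : (ι × ZMod n → ℝ) → ℝ := fun f => if hf : Bd f then g ⟨f, hmem f hf⟩ else 0
  have hM : ∀ f (hf : Bd f), M f = g ⟨f, hmem f hf⟩ := fun f hf => dif_pos hf
  have hadd : ∀ f g', Bd f → Bd g' → M (fun c => f c + g' c) = M f + M g' := by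
    intro f g' hf hg'
    rw [hM _ (F1_bd_add hf hg'), hM _ hf, hM _ hg', ← map_add]
    rfl
  have hsmul : ∀ (r : ℝ) f, Bd f → M (fun c => r * f c) = r * M f := by
    intro r f hf
    have h1 : M (fun c => r * f c) = g (r • ⟨f, hmem f hf⟩) := by
      rw [hM _ (F1_bd_smul r hf)]
      rfl
    rw [h1, map_smul, hM _ hf, smul_eq_mul]
  -- comparison with tile sums
  have htile : ∀ f, Bd f → ∀ b : ℝ, (∀ t, ∑ i, f (t, i) ≤ b) → M f ≤ b := by
    intro f hf b hb
    rw [hM _ hf]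
    exact (hg _).trans (F1_p_tile K _ b hb)
  have hneg : ∀ f, Bd f → M (fun c => -1 * f c) = -M f := by
    intro f hf
    rw [hsmul _ f hf]
    ring
  have hsub : ∀ f g', Bd f → Bd g' → M (fun c => f c + -1 * g' c) = M f - M g' := by
    intro f g' hf hg'
    rw [hadd f _ hf (F1_bd_smul _ hg'), hneg g' hg']
    ring
  have hbd1 : Bd (fun _ : ι × ZMod n => (1 : ℝ)) := ⟨1, fun c => by simp⟩
  have hnxb : ∀ f, Bd f → Bd (fun c => f (K.nx c)) := by
    rintro f ⟨C, hC⟩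
    exact ⟨C, fun c => hC _⟩
  have htlb : ∀ f, Bd f → Bd (fun c : ι × ZMod n => f (c.1, c.2 + 1)) := by
    rintro f ⟨C, hC⟩
    exact ⟨C, fun c => hC _⟩
  -- one half of the invariance
  have hZ : ∀ f, Bd f → M f - M (fun c => f (K.nx c)) ≤ 0 := by
    intro f hf
    rw [← hsub f _ hf (hnxb f hf), hM _ (F1_bd_add hf (F1_bd_smul _ (hnxb f hf)))]
    refine (hg _).trans ((F1_p_le K _ ⟨fun c => -1 * f c, F1_bd_smul _ hf⟩).trans
      (F1_S_le fun t => ?_))
    refine le_of_eq (Finset.sum_eq_zero fun i _ => ?_)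
    simp only [Pi.add_apply, F1_Z]
    ring
  have hT : ∀ f, Bd f → M f - M (fun c => f (c.1, c.2 + 1)) ≤ 0 := by
    intro f hf
    rw [← hsub f _ hf (htlb f hf)]
    refine htile _ (F1_bd_add hf (F1_bd_smul _ (htlb f hf))) 0 fun t => ?_
    rw [Finset.sum_add_distrib, ← Finset.mul_sum]
    have h1 : ∑ i, f (t, i + 1) = ∑ i, f (t, i) :=
      Equiv.sum_comp (Equiv.addRight (1 : ZMod n)) (fun i => f (t, i))
    have h2 : ∑ i, f ((t, i).1, (t, i).2 + 1) = ∑ i, f (t, i) := h1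
    rw [h2]
    linarith
  refine ⟨{ M := M, add := hadd, smul := hsmul, mono := ?_, one := ?_, nx := ?_, tile := ?_ }⟩
  · intro f g' hf hg' hle
    have h1 : M f - M g' ≤ 0 := by
      rw [← hsub f g' hf hg']
      refine htile _ (F1_bd_add hf (F1_bd_smul _ hg')) 0 fun t => ?_
      refine Finset.sum_nonpos fun i _ => ?_
      have := hle (t, i)
      linarith
    linarith
  · have h1 : M (fun _ => 1) ≤ n := by
      refine htile _ hbd1 n fun t => ?_
      simp
    have h2 : M (fun c => -1 * (fun _ : ι × ZMod n => (1 : ℝ)) c) ≤ -n := by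
      refine htile _ (F1_bd_smul _ hbd1) _ fun t => ?_
      simp
    rw [hneg _ hbd1] at h2
    linarith
  · intro f hf
    have h1 := hZ f hf
    have h2 := hZ _ (F1_bd_smul (-1) hf)
    have h3 := hneg f hf
    have h4 := hneg _ (hnxb f hf)
    have h5 : M (fun c => -1 * f (K.nx c)) = -M (fun c => f (K.nx c)) := h4
    rw [h3, h5] at h2
    linarith
  · intro f hf
    have h1 := hT f hf
    have h2 := hT _ (F1_bd_smul (-1) hf)
    have h3 := hneg f hf
    have h4 := hneg _ (htlb f hf)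
    have h5 : M (fun c => -1 * f (c.1, c.2 + 1)) = -M (fun c => f (c.1, c.2 + 1)) := h4
    rw [h3, h5] at h2
    linarith

end Pool.Agent.Lib_MP_fa6e45
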