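import Pool.Agent.Lib_MP_fa6e45.H4a
import Pool.Agent.Lib_MP_fa6e45.F1

/-!
PIECE H4 (about 300 lines): every situation occurs in the tables `pat5`, `pat6` up to symmetry. Facts about active pairs
`i, j` (`Mean.Act`): `i ≠ j`, `ang i + ang j = 2 π`, the lengths match (`Comb.deg_two` for a star of two corners: `Compl`),
symmetric; two active pairs have a corner in common (otherwise the angle sum `(n - 2) π ≤ 4 π` would be exceeded), and there is
no triangle of active pairs (all three angles would be `π`). So the active pairs form a star: a centre `c` and a set of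
partners. Take `cls` = a canonical class list of the lengths (for instance the index of the first equal length) and `act`
= the list of the active pairs; first find (kernel computation, `decide`) a symmetry which brings `cls` into the table of the
canonical class lists (12 for `n = 5`, 37 for `n = 6`), then for each canonical class list all stars of active pairs (at most
`n * 2 ^ (n - 1)`, only pairs for which the classes match) one of the symmetries fixing it. Use `sit_of` (H1) once and `sit_dih` (H3)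
(`relB` allows different lists with the same classes).
-/

set_option autoImplicit false

open Set MeasureTheory Complex
open scoped Topology

namespace Pool.Agent.Lib_MP_fa6e45

/-- all lists of `n` numbers, the entry `j` at most `j` -/
def h4P : ℕ → List (List ℕ)
  | 0 => [[]]
  | n + 1 => (h4P n).flatMap fun l => (List.range (n + 1)).map fun x => l ++ [x]

/-- all lists of `n` Booleans -/
def h4B : ℕ → List (List Bool)
  | 0 => [[]]
  | n + 1 => (h4B n).flatMap fun l => [l ++ [false], l ++ [true]]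

/-- `sgC` on numbers -/
def h4c (n : ℕ) (r : Bool) (s i : ℕ) : ℕ := if r then (s + n - i) % n else (i + s) % n

/-- `sgS` on numbers -/
def h4s (n : ℕ) (r : Bool) (s j : ℕ) : ℕ := if r then (s + (2 * n - 1) - j) % n else (j + s) % n

/-- inverse of `h4c` (not verified) -/
def h4ci (n : ℕ) (r : Bool) (s i : ℕ) : ℕ := if r then (s + n - i) % n else (i + n - s) % n

/-- inverse of `h4s` (not verified) -/
def h4si (n : ℕ) (r : Bool) (s j : ℕ) : ℕ :=
  if r then (s + (2 * n - 1) - j) % n else (j + n - s) % n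

/-- the classes `p` are the classes `c` after renaming -/
def h4T (n : ℕ) (p c : List ℕ) (r : Bool) (s : ℕ) : Bool :=
  (List.range n).all fun j => (List.range n).all fun k =>
    (p.getD j 0 == p.getD k 0) == (c.getD (h4s n r s j) 0 == c.getD (h4s n r s k) 0)

/-- the star with centre `x` and partners `b` -/
def h4A (x : ℕ) (b : List Bool) (i j : ℕ) : Bool :=
  (i == x && b.getD j false) || (j == x && b.getD i false)

/-- the star is the list `L` after renaming -/
def h4U (n x : ℕ) (b : List Bool) (L : List (ℕ × ℕ)) (r : Bool) (s : ℕ) : Bool :=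
  (List.range n).all fun i => (List.range n).all fun j =>
    h4A x b i j == actB L (h4c n r s i) (h4c n r s j)

/-- the classes at the corners `i`, `j` match -/
def h4M (n : ℕ) (c : List ℕ) (i j : ℕ) : Bool :=
  (c.getD ((i + (n - 1)) % n) 0 == c.getD j 0 && c.getD i 0 == c.getD ((j + (n - 1)) % n) 0) ||
    (c.getD ((i + (n - 1)) % n) 0 == c.getD ((j + (n - 1)) % n) 0 && c.getD i 0 == c.getD j 0)

/-- the star is possible for the classes `c` -/
def h4V (n : ℕ) (c : List ℕ) (x : ℕ) (b : List Bool) : Bool :=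
  !(b.getD x false) && (List.range n).all fun j => !(b.getD j false) || h4M n c x j

/-- canonical class list (not verified) -/
def h4N (l : List ℕ) : List ℕ :=
  (l.foldl (fun (t : List ℕ × List ℕ) x => if t.1.contains x then (t.1, t.2 ++ [t.1.idxOf x])
    else (t.1 ++ [x], t.2 ++ [t.1.length])) ([], [])).2

/-- all symmetries -/
def h4R (n : ℕ) : List (Bool × ℕ) := [false, true].flatMap fun r => (List.range n).map fun s => (r, s)

/-- the entries of `p` are the first indices of the classes -/
def h4I (n : ℕ) (p : List ℕ) : Bool :=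
  (List.range n).all fun j => p.getD (p.getD j 0) 0 == p.getD j 0

/-- find the canonical classes of `p` -/
def h4X (n : ℕ) (cs : List (List ℕ)) (p : List ℕ) : Bool :=
  !h4I n p || (h4R n).any fun x => cs.any fun c =>
    (c == h4N ((List.range n).map fun k => p.getD (h4si n x.1 x.2 k) 0)) && h4T n p c x.1 x.2

/-- find the pattern for all stars for the classes `c` -/
def h4Y (n : ℕ) (pats : List (List ℕ × List (ℕ × ℕ))) (c : List ℕ) : Bool :=
  let st := (h4R n).filter fun x => h4T n c c x.1 x.2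
  let ps := pats.filter fun q => q.1 == c
  (List.range n).all fun x => (h4B n).all fun b => !h4V n c x b || st.any fun y => ps.any fun q =>
    (q.2 == (List.range n).filterMap fun k => if b.getD (h4ci n y.1 y.2 k) false then
      some (min (h4c n y.1 y.2 x) k, max (h4c n y.1 y.2 x) k) else none) &&
    h4U n x b q.2 y.1 y.2

def h4C5 : List (List ℕ) :=
  [[0, 1, 2, 3, 4], [0, 0, 1, 2, 3], [0, 1, 0, 2, 3], [0, 0, 0, 1, 2], [0, 0, 1, 0, 2],
    [0, 0, 1, 1, 2], [0, 0, 1, 2, 1], [0, 1, 0, 1, 2], [0, 0, 0, 0, 1], [0, 0, 0, 1, 1],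
    [0, 0, 1, 0, 1], [0, 0, 0, 0, 0]]

def h4C6 : List (List ℕ) :=
  [[0, 1, 2, 3, 4, 5], [0, 0, 1, 2, 3, 4], [0, 1, 0, 2, 3, 4], [0, 1, 2, 0, 3, 4],
    [0, 0, 0, 1, 2, 3], [0, 0, 1, 0, 2, 3], [0, 0, 1, 1, 2, 3], [0, 0, 1, 2, 1, 3],
    [0, 0, 1, 2, 2, 3], [0, 0, 1, 2, 3, 1], [0, 1, 0, 1, 2, 3], [0, 1, 0, 2, 0, 3],
    [0, 1, 0, 2, 1, 3], [0, 1, 0, 2, 3, 2], [0, 1, 2, 0, 1, 3], [0, 0, 0, 0, 1, 2],
    [0, 0, 0, 1, 0, 2], [0, 0, 0, 1, 1, 2], [0, 0, 0, 1, 2, 1], [0, 0, 1, 0, 0, 2],
    [0, 0, 1, 0, 1, 2], [0, 0, 1, 0, 2, 1], [0, 0, 1, 0, 2, 2], [0, 0, 1, 1, 2, 2],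
    [0, 0, 1, 2, 1, 2], [0, 0, 1, 2, 2, 1], [0, 1, 0, 1, 0, 2], [0, 1, 0, 2, 1, 2],
    [0, 1, 2, 0, 1, 2], [0, 0, 0, 0, 0, 1], [0, 0, 0, 0, 1, 1], [0, 0, 0, 1, 0, 1],
    [0, 0, 0, 1, 1, 1], [0, 0, 1, 0, 0, 1], [0, 0, 1, 0, 1, 1], [0, 1, 0, 1, 0, 1],
    [0, 0, 0, 0, 0, 0]]

theorem h4X5 : (h4P 5).all (h4X 5 h4C5) = true := by decide +kernel

theorem h4Y5 : h4C5.all (h4Y 5 pat5) = true := by decide +kernel

theorem h4X6 : (h4P 6).all (h4X 6 h4C6) = true := by decide +kernel

theorem h4Y6 : h4C6.all (h4Y 6 pat6) = true := by decide +kernel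

/-! ### lists -/

theorem h4_memP (f : ℕ → ℕ) (n : ℕ) (h : ∀ j < n, f j ≤ j) : (List.range n).map f ∈ h4P n := by
  induction n with
  | zero => simp [h4P]
  | succ n ih =>
    rw [h4P, List.mem_flatMap]
    refine ⟨_, ih fun j hj => h j (by omega), ?_⟩
    rw [List.mem_map]
    refine ⟨f n, List.mem_range.2 (Nat.lt_succ_of_le (h n (Nat.lt_succ_self n))), ?_⟩
    rw [List.range_succ, List.map_append, List.map_singleton]

theorem h4_memB (f : ℕ → Bool) (n : ℕ) : (List.range n).map f ∈ h4B n := by
  induction n with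
  | zero => simp [h4B]
  | succ n ih =>
    rw [h4B, List.mem_flatMap]
    refine ⟨_, ih, ?_⟩
    rw [List.range_succ, List.map_append, List.map_singleton]
    cases f n
    · exact List.mem_cons_self
    · exact List.mem_cons_of_mem _ List.mem_cons_self

theorem h4_getD {α : Type} (f : ℕ → α) (n : ℕ) (d : α) {j : ℕ} (h : j < n) :
    ((List.range n).map f).getD j d = f j := by
  rw [List.getD_eq_getElem _ _ (by simpa using h)]
  simp

theorem h4_actB_symm (L : List (ℕ × ℕ)) (i j : ℕ) : actB L i j = actB L j i := by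
  unfold actB
  exact Bool.or_comm _ _

/-! ### renaming twice -/

theorem h4_sgC_comp {n : ℕ} (r1 r2 : Bool) (s1 s2 i : ZMod n) :
    sgC r2 s2 (sgC r1 s1 i) = sgC (xor r1 r2) (if r2 then s2 - s1 else s1 + s2) i := by
  cases r1 <;> cases r2 <;> simp [sgC] <;> ring

theorem h4_sgS_comp {n : ℕ} (r1 r2 : Bool) (s1 s2 i : ZMod n) :
    sgS r2 s2 (sgS r1 s1 i) = sgS (xor r1 r2) (if r2 then s2 - s1 else s1 + s2) i := by
  cases r1 <;> cases r2 <;> simp [sgS] <;> ring

theorem h4_sgC_inj {n : ℕ} (r : Bool) (s : ZMod n) : Function.Injective (sgC r s) := by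
  intro i j h
  cases r
  · simpa [sgC] using h
  · simpa [sgC] using h

theorem h4_sgC_surj {n : ℕ} (r : Bool) (s : ZMod n) : Function.Surjective (sgC r s) := by
  intro j
  cases r
  · exact ⟨j - s, by simp [sgC]⟩
  · exact ⟨s - j, by simp [sgC]⟩

/-! ### active pairs -/

/-- the active pairs form a star -/
theorem h4_star {n : ℕ} [NeZero n] (hn : 5 ≤ n) (hn' : n ≤ 6) {a : ZMod n → ℝ} (hp : ∀ i, 0 < a i)
    (hne : ∀ i, a i ≠ Real.pi) (hs : ∑ i, a i = ((n : ℝ) - 2) * Real.pi)
    {A : ZMod n → ZMod n → Prop} (hsy : ∀ i j, A i j → A j i) (hA : ∀ i j, A i j → i ≠ j)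
    (h2 : ∀ i j, A i j → a i + a j = 2 * Real.pi) :
    ∃ c, ∀ i j, A i j ↔ (i = c ∧ A c j) ∨ (j = c ∧ A c i) := by
  classical
  have hdis : ∀ i j k l, A i j → A k l → i = k ∨ i = l ∨ j = k ∨ j = l := by
    intro i j k l hij hkl
    by_contra hcon
    push Not at hcon
    obtain ⟨g1, g2, g3, g4⟩ := hcon
    have e1 := hA i j hij
    have e2 := hA k l hkl
    set S : Finset (ZMod n) := {i, j, k, l} with hS
    have hsum : ∑ x ∈ S, a x = a i + (a j + (a k + a l)) := by
      rw [hS, Finset.sum_insert (by simp [e1, g1, g2]), Finset.sum_insert (by simp [g3, g4]),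
        Finset.sum_insert (by simp [e2]), Finset.sum_singleton]
    have hcard : S.card ≤ 4 := Finset.card_le_four
    have hex : ∃ x, x ∉ S := by
      by_contra h
      push Not at h
      have h1 : S = Finset.univ := Finset.eq_univ_iff_forall.2 h
      rw [h1, Finset.card_univ, ZMod.card] at hcard
      omega
    obtain ⟨x, hx⟩ := hex
    have hlt : ∑ y ∈ S, a y < ∑ y, a y :=
      Finset.sum_lt_sum_of_subset (Finset.subset_univ S) (Finset.mem_univ x) hx (hp x)
        fun y _ _ => (hp y).le
    rw [hsum, hs] at hlt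
    have h3 := h2 i j hij
    have h4 := h2 k l hkl
    have h5 : ((n : ℝ) - 2) * Real.pi ≤ 4 * Real.pi := by
      have : (n : ℝ) ≤ 6 := by exact_mod_cast hn'
      exact mul_le_mul_of_nonneg_right (by linarith) Real.pi_pos.le
    linarith
  have htri : ∀ i j k, A i j → A j k → A i k → False := by
    intro i j k h3 h4 h5
    have e1 := h2 i j h3
    have e2 := h2 j k h4
    have e3 := h2 i k h5
    exact hne i (by linarith)
  by_cases h0 : ∃ x y, A x y
  · obtain ⟨x, y, hxy⟩ := h0
    by_cases hx : ∀ u v, A u v → u = x ∨ v = x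
    · refine ⟨x, fun i j => ⟨fun h => ?_, fun h => ?_⟩⟩
      · rcases hx i j h with h1 | h1
        · left; exact ⟨h1, h1 ▸ h⟩
        · right; exact ⟨h1, h1 ▸ hsy _ _ h⟩
      · rcases h with ⟨h1, h3⟩ | ⟨h1, h3⟩
        · rw [h1]; exact h3
        · rw [h1]; exact hsy _ _ h3
    · push Not at hx
      obtain ⟨u, v, huv, hu, hv⟩ := hx
      -- a pair `y, z` without `x`
      obtain ⟨z, hyz, hzx⟩ : ∃ z, A y z ∧ z ≠ x := by
        rcases hdis x y u v hxy huv with h | h | h | h
        · exact absurd h.symm hu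
        · exact absurd h.symm hv
        · exact ⟨v, h ▸ huv, hv⟩
        · exact ⟨u, h ▸ hsy _ _ huv, hu⟩
      have hy : ∀ i j, A i j → i = y ∨ j = y := by
        intro i j hij
        by_contra hcon
        push Not at hcon
        obtain ⟨g1, g2⟩ := hcon
        have hzy : y ≠ z := hA y z hyz
        have k1 := hdis x y i j hxy hij
        have k2 := hdis y z i j hyz hij
        have hxi : i = x ∨ j = x := by
          rcases k1 with h | h | h | h
          · left; exact h.symm
          · right; exact h.symm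
          · exact absurd h.symm g1
          · exact absurd h.symm g2
        have hzi : i = z ∨ j = z := by
          rcases k2 with h | h | h | h
          · exact absurd h.symm g1
          · exact absurd h.symm g2
          · left; exact h.symm
          · right; exact h.symm
        rcases hxi with h | h
        · rcases hzi with h' | h'
          · exact hzx (h'.symm.trans h)
          · exact htri x y z hxy hyz (h ▸ h' ▸ hij)
        · rcases hzi with h' | h'
          · exact htri x y z hxy hyz (hsy _ _ (h ▸ h' ▸ hij))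
          · exact hzx (h'.symm.trans h)
      refine ⟨y, fun i j => ⟨fun h => ?_, fun h => ?_⟩⟩
      · rcases hy i j h with h1 | h1
        · left; exact ⟨h1, h1 ▸ h⟩
        · right; exact ⟨h1, h1 ▸ hsy _ _ h⟩
      · rcases h with ⟨h1, h3⟩ | ⟨h1, h3⟩
        · rw [h1]; exact h3
        · rw [h1]; exact hsy _ _ h3
  · push Not at h0
    refine ⟨0, fun i j => ⟨fun h => absurd h (h0 i j), fun h => ?_⟩⟩
    rcases h with ⟨-, h3⟩ | ⟨-, h3⟩
    · exact absurd h3 (h0 _ _)
    · exact absurd h3 (h0 _ _)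

/-! ### the enumeration -/

variable {n : ℕ} {ι : Type}

theorem h4_T {p c : List ℕ} {r : Bool} {s : ℕ} (h : h4T n p c r s = true) {j k : ℕ} (hj : j < n)
    (hk : k < n) : p.getD j 0 = p.getD k 0 ↔ c.getD (h4s n r s j) 0 = c.getD (h4s n r s k) 0 := by
  unfold h4T at h
  rw [List.all_eq_true] at h
  have h1 := h j (List.mem_range.2 hj)
  rw [List.all_eq_true] at h1
  have h2 := h1 k (List.mem_range.2 hk)
  rw [beq_iff_eq] at h2
  constructor
  · intro h3
    have : (p.getD j 0 == p.getD k 0) = true := by rw [h3]; exact beq_self_eq_true _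
    rw [this] at h2
    exact beq_iff_eq.1 h2.symm
  · intro h3
    have : (c.getD (h4s n r s j) 0 == c.getD (h4s n r s k) 0) = true := by
      rw [h3]; exact beq_self_eq_true _
    rw [this] at h2
    exact beq_iff_eq.1 h2

theorem h4_U {x : ℕ} {b : List Bool} {L : List (ℕ × ℕ)} {r : Bool} {s : ℕ}
    (h : h4U n x b L r s = true) {i j : ℕ} (hi : i < n) (hj : j < n) :
    h4A x b i j = actB L (h4c n r s i) (h4c n r s j) := by
  unfold h4U at h
  rw [List.all_eq_true] at h
  have h1 := h i (List.mem_range.2 hi)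
  rw [List.all_eq_true] at h1
  exact beq_iff_eq.1 (h1 j (List.mem_range.2 hj))

theorem h4_enum [NeZero n] (hn : 5 ≤ n) (hn' : n ≤ 6) (pats : List (List ℕ × List (ℕ × ℕ)))
    (cs : List (List ℕ)) (hX : (h4P n).all (h4X n cs) = true) (hY : cs.all (h4Y n pats) = true)
    (hvc : ∀ (r : Bool) (s i : ZMod n), (sgC r s i).val = h4c n r s.val i.val)
    (hvs : ∀ (r : Bool) (s i : ZMod n), (sgS r s i).val = h4s n r s.val i.val)
    (P : Polygon n) (hc : P.CCW) (K : CombA n P.ang P.len ι) :
    ∃ q ∈ pats, ∃ (r : Bool) (s : ZMod n), Sit (pcls q.1) q.2 (P.dih r s) := by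
  classical
  obtain ⟨μ⟩ := K.exists_mean
  have hval : ∀ j : ZMod n, ((j.val : ℕ) : ZMod n) = j := fun j => ZMod.natCast_zmod_val j
  have hlt : ∀ j : ZMod n, j.val < n := fun j => ZMod.val_lt j
  -- the classes
  have hex : ∀ j : ℕ, ∃ i : ℕ, P.len (i : ZMod n) = P.len (j : ZMod n) := fun j => ⟨j, rfl⟩
  let f : ℕ → ℕ := fun j => Nat.find (hex j)
  have hf1 : ∀ j, f j ≤ j := fun j => Nat.find_min' (hex j) rfl
  have hf2 : ∀ j, P.len (f j : ZMod n) = P.len (j : ZMod n) := fun j => Nat.find_spec (hex j)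
  have hf3 : ∀ j k, f j = f k ↔ P.len (j : ZMod n) = P.len (k : ZMod n) := by
    intro j k
    constructor
    · intro h
      rw [← hf2 j, ← hf2 k, h]
    · intro h
      refine le_antisymm (Nat.find_min' (hex j) ?_) (Nat.find_min' (hex k) ?_)
      · rw [h]; exact hf2 k
      · rw [← h]; exact hf2 j
  have hX1 := (List.all_eq_true.1 hX) _ (h4_memP f n fun j _ => hf1 j)
  have hI : h4I n ((List.range n).map f) = true := by
    unfold h4I
    rw [List.all_eq_true]
    intro j hj
    rw [List.mem_range] at hj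
    rw [h4_getD f n 0 hj, h4_getD f n 0 ((hf1 j).trans_lt hj), beq_iff_eq, hf3]
    exact hf2 j
  unfold h4X at hX1
  rw [hI, Bool.not_true, Bool.false_or, List.any_eq_true] at hX1
  obtain ⟨⟨r1, t1⟩, hx1, hX2⟩ := hX1
  rw [List.any_eq_true] at hX2
  obtain ⟨c, hcs, hX3⟩ := hX2
  rw [Bool.and_eq_true] at hX3
  have hT1 := hX3.2
  simp only at hT1
  have ht1 : t1 < n := by
    unfold h4R at hx1
    rw [List.mem_flatMap] at hx1
    obtain ⟨r, -, hr⟩ := hx1
    rw [List.mem_map] at hr
    obtain ⟨s, hs, he⟩ := hr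
    rw [List.mem_range] at hs
    have : s = t1 := congrArg Prod.snd he
    omega
  obtain ⟨s1, hs1⟩ : ∃ s1 : ZMod n, s1.val = t1 := ⟨(t1 : ZMod n), ZMod.val_cast_of_lt ht1⟩
  have hcl : ∀ j k : ZMod n, P.len j = P.len k ↔
      pcls c (sgS r1 s1 j) = pcls c (sgS r1 s1 k) := by
    intro j k
    have h1 := h4_T hT1 (hlt j) (hlt k)
    rw [h4_getD f n 0 (hlt j), h4_getD f n 0 (hlt k), hf3, hval, hval] at h1
    rw [h1, pcls, pcls, hvs, hvs, hs1]
  -- the active pairs
  obtain ⟨c0, hst⟩ := h4_star hn hn' (a := P.ang) K.a_pos K.a_ne K.a_sum (A := μ.Act)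
    (fun _ _ h => Mean.act_symm h) (fun _ _ h => Mean.act_ne h) (fun _ _ h => Mean.act_ang h)
  set x : ZMod n := sgC r1 s1 c0 with hx
  -- the inverse of the renaming
  obtain ⟨g, hg⟩ : ∃ g : ZMod n → ZMod n, ∀ i, sgC r1 s1 (g i) = i :=
    ⟨fun i => (h4_sgC_surj r1 s1 i).choose, fun i => (h4_sgC_surj r1 s1 i).choose_spec⟩
  have hg' : ∀ i, g (sgC r1 s1 i) = i := fun i => h4_sgC_inj r1 s1 (hg _)
  set b : List Bool := (List.range n).map fun j : ℕ => decide (μ.Act c0 (g (j : ZMod n))) with hb
  have hbd : ∀ i : ZMod n, b.getD (sgC r1 s1 i).val false = decide (μ.Act c0 i) := by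
    intro i
    rw [hb, h4_getD _ n false (hlt _), hval, hg']
  have hV : h4V n c x.val b = true := by
    unfold h4V
    rw [Bool.and_eq_true]
    constructor
    · rw [hx, hbd]
      have : ¬ μ.Act c0 c0 := fun h => Mean.act_ne h rfl
      simp [this]
    · rw [List.all_eq_true]
      intro j' hj'
      rw [List.mem_range] at hj'
      obtain ⟨j, hj⟩ := h4_sgC_surj r1 s1 (j' : ZMod n)
      have hj2 : j' = (sgC r1 s1 j).val := by rw [hj]; exact (ZMod.val_cast_of_lt hj').symm
      rw [hj2, hbd]
      by_cases hA : μ.Act c0 j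
      · have hm := Mean.act_len hA
        simp only [hA, decide_true, Bool.not_true, Bool.false_or]
        have hpred : ∀ i : ZMod n, (i.val + (n - 1)) % n = (i - 1).val := by
          intro i
          have h1 : ((i.val + (n - 1) : ℕ) : ZMod n) = i - 1 := by
            rw [Nat.cast_add, hval, Nat.cast_sub (by omega), Nat.cast_one, ZMod.natCast_self]
            ring
          rw [← h1, ZMod.val_natCast]
        have hcl2 : ∀ i j : ZMod n, P.len i = P.len j →
            c.getD (sgS r1 s1 i).val 0 = c.getD (sgS r1 s1 j).val 0 := fun i j h => (hcl i j).1 h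
        unfold h4M
        rw [hpred, hpred]
        rw [Bool.or_eq_true, Bool.and_eq_true, Bool.and_eq_true, beq_iff_eq, beq_iff_eq, beq_iff_eq,
          beq_iff_eq]
        cases r1
        · have e1 : ∀ i : ZMod n, sgS false s1 (i - 1) = sgC false s1 i - 1 := by
            intro i; simp [sgS, sgC]; ring
          have e2 : ∀ i : ZMod n, sgS false s1 i = sgC false s1 i := by
            intro i; simp [sgS, sgC]
          rcases hm with ⟨m1, m2⟩ | ⟨m1, m2⟩
          · left
            have m1' := hcl2 _ _ m1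
            have m2' := hcl2 _ _ m2
            rw [e1, e2] at m1'
            rw [e1, e2] at m2'
            exact ⟨m1', m2'⟩
          · right
            have m1' := hcl2 _ _ m1
            have m2' := hcl2 _ _ m2
            rw [e1, e1] at m1'
            rw [e2, e2] at m2'
            exact ⟨m1', m2'⟩
        · have e1 : ∀ i : ZMod n, sgS true s1 (i - 1) = sgC true s1 i := by
            intro i; simp [sgS, sgC]
          have e2 : ∀ i : ZMod n, sgS true s1 i = sgC true s1 i - 1 := by
            intro i; simp [sgS, sgC]; ring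
          rcases hm with ⟨m1, m2⟩ | ⟨m1, m2⟩
          · left
            have m1' := hcl2 _ _ m1
            have m2' := hcl2 _ _ m2
            rw [e1, e2] at m1'
            rw [e1, e2] at m2'
            exact ⟨m2', m1'⟩
          · right
            have m1' := hcl2 _ _ m1
            have m2' := hcl2 _ _ m2
            rw [e1, e1] at m1'
            rw [e2, e2] at m2'
            exact ⟨m2', m1'⟩
      · simp [hA]
  have hY1 := (List.all_eq_true.1 hY) c hcs
  unfold h4Y at hY1
  simp only at hY1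
  rw [List.all_eq_true] at hY1
  have hY2 := hY1 x.val (List.mem_range.2 (hlt x))
  rw [List.all_eq_true] at hY2
  have hY3 := hY2 b (h4_memB _ n)
  rw [hV, Bool.not_true, Bool.false_or, List.any_eq_true] at hY3
  obtain ⟨⟨r2, t2⟩, hx2, hY4⟩ := hY3
  rw [List.mem_filter] at hx2
  rw [List.any_eq_true] at hY4
  obtain ⟨q, hq, hY5⟩ := hY4
  rw [List.mem_filter, beq_iff_eq] at hq
  rw [Bool.and_eq_true] at hY5
  have hU := hY5.2
  have hT2 := hx2.2
  simp only at hU hT2
  have ht2 : t2 < n := by
    have hx3 := hx2.1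
    unfold h4R at hx3
    rw [List.mem_flatMap] at hx3
    obtain ⟨r, -, hr⟩ := hx3
    rw [List.mem_map] at hr
    obtain ⟨s, hs, he⟩ := hr
    rw [List.mem_range] at hs
    have : s = t2 := congrArg Prod.snd he
    omega
  obtain ⟨s2, hs2⟩ : ∃ s2 : ZMod n, s2.val = t2 := ⟨(t2 : ZMod n), ZMod.val_cast_of_lt ht2⟩
  set r : Bool := xor r1 r2 with hr
  set s : ZMod n := if r2 then s2 - s1 else s1 + s2 with hs
  set cls : ZMod n → ℕ := fun j => pcls q.1 (sgS r s j) with hcls
  set act : List (ℕ × ℕ) := ((List.range n).product (List.range n)).filter fun y =>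
    actB q.2 (sgC r s (y.1 : ZMod n)).val (sgC r s (y.2 : ZMod n)).val with hact
  have hcls1 : ∀ j k, cls j = cls k ↔ P.len j = P.len k := by
    intro j k
    rw [hcls, hcl]
    simp only
    have h1 := h4_T hT2 (hlt (sgS r1 s1 j)) (hlt (sgS r1 s1 k))
    rw [← hs2, ← hvs, ← hvs, h4_sgS_comp, h4_sgS_comp] at h1
    rw [hq.2]
    exact h1.symm
  have hact1 : ∀ i j : ℕ, i < n → j < n → actB act i j =
      actB q.2 (sgC r s (i : ZMod n)).val (sgC r s (j : ZMod n)).val := by
    intro i j hi hj
    have h1 : ∀ i j : ℕ, i < n → j < n → act.contains (i, j) =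
        actB q.2 (sgC r s (i : ZMod n)).val (sgC r s (j : ZMod n)).val := by
      intro i j hi hj
      rw [Bool.eq_iff_iff, List.contains_iff_mem, hact, List.mem_filter, List.pair_mem_product,
        List.mem_range, List.mem_range]
      exact ⟨fun h => h.2, fun h => ⟨⟨hi, hj⟩, h⟩⟩
    conv_lhs => unfold actB
    rw [h1 i j hi hj, h1 j i hj hi, h4_actB_symm q.2 (sgC r s (j : ZMod n)).val, Bool.or_self]
  have hact2 : ∀ i j : ZMod n, actB act i.val j.val = true ↔ μ.Act i j := by
    intro i j
    rw [hact1 _ _ (hlt i) (hlt j), hval, hval]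
    have h1 := h4_U hU (hlt (sgC r1 s1 i)) (hlt (sgC r1 s1 j))
    rw [← hs2, ← hvc, ← hvc, h4_sgC_comp, h4_sgC_comp] at h1
    rw [← h1]
    unfold h4A
    rw [hbd, hbd, hst i j, Bool.or_eq_true, Bool.and_eq_true, Bool.and_eq_true, beq_iff_eq,
      beq_iff_eq, decide_eq_true_iff, decide_eq_true_iff, hx]
    have h2 : ∀ i : ZMod n, (sgC r1 s1 i).val = (sgC r1 s1 c0).val ↔ i = c0 := fun i =>
      ⟨fun h => h4_sgC_inj r1 s1 (ZMod.val_injective n h), fun h => by rw [h]⟩
    rw [h2, h2]
  have hrel : relB cls act (pcls q.1) q.2 r s = true := by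
    unfold relB
    rw [Bool.and_eq_true]
    constructor
    · rw [List.all_eq_true]
      intro j _
      rw [List.all_eq_true]
      intro k _
      exact beq_self_eq_true _
    · rw [List.all_eq_true]
      intro i hi
      rw [List.all_eq_true]
      intro j hj
      rw [List.mem_range] at hi hj
      rw [hact1 i j hi hj]
      exact beq_self_eq_true _
  exact ⟨q, hq.1, r, s, sit_dih (sit_of μ hc cls hcls1 act hact2) r s hrel⟩

theorem enum5 (P : Polygon 5) (hc : P.CCW) (K : CombA 5 P.ang P.len ι) :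
    ∃ q ∈ pat5, ∃ (r : Bool) (s : ZMod 5), Sit (pcls q.1) q.2 (P.dih r s) :=
  h4_enum le_rfl (by norm_num) pat5 h4C5 h4X5 h4Y5 (by decide) (by decide) P hc K

theorem enum6 (P : Polygon 6) (hc : P.CCW) (K : CombA 6 P.ang P.len ι) :
    ∃ q ∈ pat6, ∃ (r : Bool) (s : ZMod 6), Sit (pcls q.1) q.2 (P.dih r s) :=
  h4_enum (by norm_num) le_rfl pat6 h4C6 h4X6 h4Y6 (by decide) (by decide) P hc K

end Pool.Agent.Lib_MP_fa6e45
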