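import Pool.Agent.Lib_MP_fa6e45.CE1
import Pool.Agent.Lib_MP_fa6e45.CE2a
import Pool.Agent.Lib_MP_fa6e45.H4
import Pool.Agent.Lib_MP_fa6e45.CS0

/-!
CS-ENUM, part 3: every gluing relation of arcs occurs in the tables `patG3`, ..., `patG6` up to symmetry.
-/

set_option autoImplicit false

open Set MeasureTheory Complex
open scoped Topology

namespace Pool.Agent.Lib_MP_fa6e45

/-- the list of the codes -/
def decT (m x : ℕ) : List ℕ := (List.range m).map fun j => x / 16 ^ j % 16

/-- the word with the classes `c` and the codes `t` -/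
def wrdT (m : ℕ) (c t : List ℕ) : List ℕ := (List.range m).map fun j => 16 * c.getD j 0 + t.getD j 0

/-- the words of the table -/
def patL (m : ℕ) (pg : List (List ℕ × List ℕ)) : List (List ℕ) :=
  pg.flatMap fun g => g.2.map fun x => wrdT m g.1 (decT m x)

/-! ### enumeration -/

/-- first arc of the class of `j` -/
def ceF (c : List ℕ) (j : ℕ) : ℕ := c.idxOf (c.getD j 0)

/-- number of arcs in the class of `j` -/
def ceK (m : ℕ) (c : List ℕ) (j : ℕ) : ℕ := (List.range m).countP fun k => c.getD k 0 == c.getD j 0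

/-- possible codes of `j` -/
def ceO (m : ℕ) (c l : List ℕ) (j : ℕ) : List ℕ :=
  if ceF c j = j then (if ceK m c j % 2 = 0 then [0, 4, 8, 12] else [0, 4]) else
    if l.getD (ceF c j) 0 / 4 = 0 then [0] else
    if l.getD (ceF c j) 0 / 4 = 1 then [4, 6] else
    if l.getD (ceF c j) 0 / 4 = 2 then [8, 9] else [12, 13, 14, 15]

/-- the codes `t` are the codes `q` after renaming -/
def ceM (m : ℕ) (c t q : List ℕ) (r : Bool) (s : ℕ) : Bool :=
  (List.range m).all fun j =>
    let d := t.getD j 0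
    let e := q.getD (h4s m r s j) 0
    (d / 4 == e / 4) && hT (d / 4) (((d % 4) ^^^ (e % 4)) ^^^
      ((t.getD (ceF c j) 0 % 4) ^^^ (q.getD (h4s m r s (ceF c j)) 0 % 4)))

/-- the canonical classes for `m = 3` -/
def h4C3 : List (List ℕ) := [[0, 0, 0], [0, 0, 1], [0, 1, 2]]

/-- the canonical classes for `m = 4` -/
def h4C4 : List (List ℕ) :=
  [[0, 0, 0, 0], [0, 0, 0, 1], [0, 0, 1, 1], [0, 0, 1, 2], [0, 1, 0, 1], [0, 1, 0, 2], [0, 1, 2, 3]]

theorem h4X3 : (h4P 3).all (h4X 3 h4C3) = true := by decide +kernel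

theorem h4X4 : (h4P 4).all (h4X 4 h4C4) = true := by decide +kernel

end Pool.Agent.Lib_MP_fa6e45
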