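import Pool.Agent.Lib_MP_fa6e45.CE2

/-!
CS-ENUM, part 4: proof of the enumeration theorem.
-/

set_option autoImplicit false

open Set MeasureTheory Complex
open scoped Topology

namespace Pool.Agent.Lib_MP_fa6e45

section

variable {m : ℕ} [NeZero m]

/-! ### renaming of the arcs -/

theorem RelAx.map {G : ZMod m → ZMod m → Bool → Prop} (h : RelAx G) (σ : ZMod m ≃ ZMod m) :
    RelAx fun j k b => G (σ j) (σ k) b where
  symm := fun j k b hG => h.symm _ _ _ hG
  tri := fun i j k l a b c h1 h2 h3 => h.tri _ _ _ _ _ _ _ h1 h2 h3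
  self := fun j hG => h.self _ hG
  glued := fun j => by
    obtain ⟨k, b, h1⟩ := h.glued (σ j)
    exact ⟨σ.symm k, b, by rwa [Equiv.apply_symm_apply]⟩
  bal := fun f hf => by
    rw [← h.bal (fun j => f (σ.symm j)) fun j k b hG => hf _ _ b (by
      rwa [Equiv.apply_symm_apply, Equiv.apply_symm_apply])]
    exact (Equiv.sum_comp σ.symm f).symm

theorem RR_map {G : ZMod m → ZMod m → Bool → Prop} (σ : ZMod m ≃ ZMod m) (x : Bool × Bool)
    (i j : ZMod m) : RR (fun j k b => G (σ j) (σ k) b) x i j ↔ RR G x (σ i) (σ j) := by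
  obtain ⟨x1, x2⟩ := x
  cases x1
  · constructor
    · rintro ⟨k, b, h1, h2⟩
      exact ⟨σ k, b, h1, h2⟩
    · rintro ⟨k, b, h1, h2⟩
      refine ⟨σ.symm k, b, ?_, ?_⟩
      · simp only
        rwa [Equiv.apply_symm_apply]
      · simp only
        rwa [Equiv.apply_symm_apply]
  · exact Iff.rfl

/-- `sgS` as an equivalence -/
def sgE (r : Bool) (s : ZMod m) : ZMod m ≃ ZMod m where
  toFun := sgS r s
  invFun := siS r s
  left_inv := by
    intro j
    cases r
    · simp [sgS, siS]
    · simp [sgS, siS]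
  right_inv := by
    intro j
    cases r
    · simp [sgS, siS]
    · simp [sgS, siS]

/-! ### the code list -/

theorem ce_count (p : ℕ → Bool) : (List.range m).countP p =
    (Finset.univ.filter fun j : ZMod m => p j.val = true).card := by
  have h1 : ∀ n : ℕ, (List.range n).countP p = ((Finset.range n).filter fun j => p j = true).card := by
    intro n
    induction n with
    | zero => rfl
    | succ n ih =>
      rw [List.range_succ, List.countP_append, ih, Finset.range_add_one, Finset.filter_insert]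
      by_cases h : p n = true
      · rw [if_pos h, Finset.card_insert_of_notMem (by simp)]
        simp [h]
      · rw [if_neg h]
        simp [h]
  rw [h1]
  symm
  refine Finset.card_bij (fun j _ => j.val) ?_ ?_ ?_
  · intro j hj
    rw [Finset.mem_filter] at hj ⊢
    exact ⟨Finset.mem_range.2 (ZMod.val_lt j), hj.2⟩
  · intro i _ j _ h
    exact ZMod.val_injective m h
  · intro j hj
    rw [Finset.mem_filter, Finset.mem_range] at hj
    refine ⟨(j : ZMod m), ?_, ZMod.val_cast_of_lt hj.1⟩
    rw [Finset.mem_filter, ZMod.val_cast_of_lt hj.1]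
    exact ⟨Finset.mem_univ _, hj.2⟩

/-- conditions for the class list -/
def ceG (m : ℕ) (c : List ℕ) : Bool :=
  (List.range m).all fun j => decide (ceF c j ≤ j) && (c.getD (ceF c j) 0 == c.getD j 0)

theorem ceG_spec {c : List ℕ} (h : ceG m c = true) {j : ℕ} (hj : j < m) :
    ceF c j ≤ j ∧ c.getD (ceF c j) 0 = c.getD j 0 := by
  unfold ceG at h
  rw [List.all_eq_true] at h
  have h1 := h j (List.mem_range.2 hj)
  rw [Bool.and_eq_true, decide_eq_true_iff, beq_iff_eq] at h1
  exact h1

theorem ceF_congr {c : List ℕ} {j k : ℕ} (h : c.getD j 0 = c.getD k 0) : ceF c j = ceF c k := by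
  unfold ceF
  rw [h]

variable {G : ZMod m → ZMod m → Bool → Prop}

/-- the codes -/
noncomputable def ceE (G : ZMod m → ZMod m → Bool → Prop) (c : List ℕ) (j : ℕ) : ℕ :=
  codR G (ceF c j : ZMod m) (j : ZMod m)

section

variable (h : RelAx G) {c : List ℕ} (hc : ∀ i j : ZMod m, (∃ x, RR G x i j) ↔
  c.getD i.val 0 = c.getD j.val 0) (hg : ceG m c = true)

include hc hg in
theorem ce_rel {j : ℕ} (hj : j < m) : ∃ x, RR G x (ceF c j : ZMod m) (j : ZMod m) := by
  have h1 := ceG_spec hg hj
  rw [hc, ZMod.val_cast_of_lt hj, ZMod.val_cast_of_lt (h1.1.trans_lt hj)]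
  exact h1.2

include h hc hg in
theorem ce_bal {r : ℕ} (hr : r < m) (h2 : tyR G (ceF c r : ZMod m) = 2 ∨
    tyR G (ceF c r : ZMod m) = 3) :
    ((List.range m).countP fun j => (c.getD j 0 == c.getD r 0) && evL (ceE G c j)) =
      (List.range m).countP fun j => (c.getD j 0 == c.getD r 0) && !evL (ceE G c j) := by
  have h3 := codR_bal h (ceF c r : ZMod m) h2 (fun j => c.getD j.val 0 = c.getD r 0) (by
    intro j
    have h1 := ceG_spec hg hr
    rw [hc, ZMod.val_cast_of_lt (h1.1.trans_lt hr), h1.2]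
    exact eq_comm)
  rw [ce_count, ce_count]
  have e : ∀ j : ZMod m, c.getD j.val 0 = c.getD r 0 → codR G (ceF c r : ZMod m) j =
      ceE G c j.val := by
    intro j hj
    unfold ceE
    rw [ceF_congr hj, ZMod.natCast_zmod_val]
  have e1 : (Finset.univ.filter fun j : ZMod m =>
      ((c.getD j.val 0 == c.getD r 0) && evL (ceE G c j.val)) = true) =
      Finset.univ.filter fun j : ZMod m => c.getD j.val 0 = c.getD r 0 ∧
        evL (codR G (ceF c r : ZMod m) j) = true := by
    refine Finset.filter_congr fun j _ => ?_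
    rw [Bool.and_eq_true, beq_iff_eq]
    constructor
    · rintro ⟨h4, h5⟩
      exact ⟨h4, by rw [e j h4]; exact h5⟩
    · rintro ⟨h4, h5⟩
      exact ⟨h4, by rw [← e j h4]; exact h5⟩
  have e2 : (Finset.univ.filter fun j : ZMod m =>
      ((c.getD j.val 0 == c.getD r 0) && !evL (ceE G c j.val)) = true) =
      Finset.univ.filter fun j : ZMod m => c.getD j.val 0 = c.getD r 0 ∧
        evL (codR G (ceF c r : ZMod m) j) = false := by
    refine Finset.filter_congr fun j _ => ?_
    rw [Bool.and_eq_true, beq_iff_eq, Bool.not_eq_true']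
    constructor
    · rintro ⟨h4, h5⟩
      exact ⟨h4, by rw [e j h4]; exact h5⟩
    · rintro ⟨h4, h5⟩
      exact ⟨h4, by rw [← e j h4]; exact h5⟩
  rw [e1, e2]
  exact h3

include h hc hg in
theorem ce_even {r : ℕ} (hr : r < m) (h2 : tyR G (ceF c r : ZMod m) = 2 ∨
    tyR G (ceF c r : ZMod m) = 3) : ceK m c r % 2 = 0 := by
  have h3 := ce_bal h hc hg hr h2
  have h4 : ceK m c r = ((List.range m).countP fun j => (c.getD j 0 == c.getD r 0) && evL (ceE G c j)) +
      (List.range m).countP fun j => (c.getD j 0 == c.getD r 0) && !evL (ceE G c j) := by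
    unfold ceK
    generalize List.range m = l
    induction l with
    | nil => rfl
    | cons x l ih =>
      rw [List.countP_cons, List.countP_cons, List.countP_cons, ih]
      cases (c.getD x 0 == c.getD r 0) <;> cases evL (ceE G c x) <;> simp <;> omega
  rw [h4, h3]
  omega

include h hc hg in
theorem ce_mem {j : ℕ} (hj : j < m) : ceE G c j ∈ ceO m c ((List.range j).map (ceE G c)) j := by
  have h1 := ceG_spec hg hj
  unfold ceO
  split_ifs with h2 h3 g4 g5 g6
  · have h5 : ceE G c j = 4 * tyR G (j : ZMod m) := by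
      unfold ceE codR
      rw [h2, labR_self h, add_zero]
    have h6 := tyR_lt G (j : ZMod m)
    rw [h5]
    generalize tyR G (j : ZMod m) = t at *
    interval_cases t <;> simp
  · have h5 : ceE G c j = 4 * tyR G (j : ZMod m) := by
      unfold ceE codR
      rw [h2, labR_self h, add_zero]
    have h6 := tyR_lt G (j : ZMod m)
    have h7 : ¬ (tyR G (j : ZMod m) = 2 ∨ tyR G (j : ZMod m) = 3) := fun h8 =>
      h3 (ce_even h hc hg hj (by rw [h2]; exact h8))
    rw [h5]
    generalize tyR G (j : ZMod m) = t at *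
    interval_cases t <;> simp at h7 ⊢
  all_goals
    have h5 : ((List.range j).map (ceE G c)).getD (ceF c j) 0 / 4 = tyR G (ceF c j : ZMod m) := by
      rw [h4_getD _ _ _ (by omega)]
      unfold ceE
      rw [codR_div, ceF_congr h1.2]
    have h6 := ce_rel hc hg hj
    have h7 := codR_opts h h6
    have h8 := labR_lt G (ceF c j : ZMod m) (j : ZMod m)
    have h9 := tyR_lt G (ceF c j : ZMod m)
    simp only [h5] at *
    unfold ceE codR
    generalize tyR G (ceF c j : ZMod m) = t at *
    generalize labR G (ceF c j : ZMod m) (j : ZMod m) = l at *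
  · obtain ⟨g1, -, -⟩ := h7
    rw [g1 g4, g4]
    simp
  · obtain ⟨-, g1, -⟩ := h7
    rcases g1 g5 with g3 | g3 <;> rw [g3, g5] <;> simp
  · obtain ⟨-, -, g1⟩ := h7
    rcases g1 g6 with g3 | g3 <;> rw [g3, g6] <;> simp
  · have : t = 3 := by omega
    subst this
    interval_cases l <;> simp

include h hc hg in
theorem ce_iff (j k : ZMod m) (b : Bool) : G j k b ↔ c.getD j.val 0 = c.getD k.val 0 ∧
    okC (ceE G c j.val) (ceE G c k.val) b = true := by
  have hj := ce_rel hc hg (ZMod.val_lt j)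
  have hk := ce_rel hc hg (ZMod.val_lt k)
  rw [ZMod.natCast_zmod_val] at hj hk
  have key : c.getD j.val 0 = c.getD k.val 0 → (G j k b ↔
      okC (ceE G c j.val) (ceE G c k.val) b = true) := by
    intro h1
    unfold ceE
    rw [← ceF_congr h1, ZMod.natCast_zmod_val, ZMod.natCast_zmod_val]
    rw [← ceF_congr h1] at hk
    exact codR_rel h hj hk b
  constructor
  · intro hG
    have h1 : c.getD j.val 0 = c.getD k.val 0 := (hc j k).1 ⟨vx (if b then 1 else 2), by
      cases b <;> exact hG⟩
    exact ⟨h1, (key h1).1 hG⟩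
  · rintro ⟨h1, h2⟩
    exact (key h1).2 h2

end

end

/-! ### comparison of code lists -/

theorem hT_xor {t x y : ℕ} (hx : x < 4) (hy : y < 4) (h1 : hT t x = true) (h2 : hT t y = true) :
    hT t (x ^^^ y) = true := by
  rcases t with _ | _ | _ | t
  · rfl
  · interval_cases x <;> interval_cases y <;> revert h1 h2 <;> decide
  · interval_cases x <;> interval_cases y <;> revert h1 h2 <;> decide
  · have h3 : x = 0 := beq_iff_eq.1 h1
    have h4 : y = 0 := beq_iff_eq.1 h2
    subst h3
    subst h4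
    rfl

private theorem CE_xor1 (a b c d e g : ℕ) : (((a ^^^ b) ^^^ e) ^^^ ((c ^^^ d) ^^^ e)) ^^^
    ((a ^^^ g) ^^^ c) = (b ^^^ g) ^^^ d := by
  refine Nat.eq_of_testBit_eq fun k => ?_
  simp only [Nat.testBit_xor]
  generalize a.testBit k = a
  generalize b.testBit k = b
  generalize c.testBit k = c
  generalize d.testBit k = d
  generalize e.testBit k = e
  generalize g.testBit k = g
  revert a b c d e g
  decide

private theorem CE_xor2 (a b c d e g : ℕ) : (((a ^^^ b) ^^^ e) ^^^ ((c ^^^ d) ^^^ e)) ^^^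
    ((b ^^^ g) ^^^ d) = (a ^^^ g) ^^^ c := by
  refine Nat.eq_of_testBit_eq fun k => ?_
  simp only [Nat.testBit_xor]
  generalize a.testBit k = a
  generalize b.testBit k = b
  generalize c.testBit k = c
  generalize d.testBit k = d
  generalize e.testBit k = e
  generalize g.testBit k = g
  revert a b c d e g
  decide

theorem ceM_spec {m : ℕ} {c t q : List ℕ} {r : Bool} {s : ℕ} (h : ceM m c t q r s = true)
    {j k : ℕ} (hj : j < m) (hk : k < m) (hjk : c.getD j 0 = c.getD k 0)
    (ht : t.getD j 0 / 4 = t.getD k 0 / 4) (b : Bool) : okC (t.getD j 0) (t.getD k 0) b =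
      okC (q.getD (h4s m r s j) 0) (q.getD (h4s m r s k) 0) b := by
  unfold ceM at h
  rw [List.all_eq_true] at h
  have h1 := h j (List.mem_range.2 hj)
  have h2 := h k (List.mem_range.2 hk)
  simp only at h1 h2
  rw [Bool.and_eq_true, beq_iff_eq] at h1 h2
  rw [← ht, ← ceF_congr hjk] at h2
  unfold okC
  rw [← h1.1]
  generalize t.getD j 0 / 4 = T at *
  have l1 : t.getD j 0 % 4 < 4 := Nat.mod_lt _ (by norm_num)
  have l2 : t.getD k 0 % 4 < 4 := Nat.mod_lt _ (by norm_num)
  have l3 : q.getD (h4s m r s j) 0 % 4 < 4 := Nat.mod_lt _ (by norm_num)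
  have l4 : q.getD (h4s m r s k) 0 % 4 < 4 := Nat.mod_lt _ (by norm_num)
  have l5 : t.getD (ceF c j) 0 % 4 < 4 := Nat.mod_lt _ (by norm_num)
  have l6 : q.getD (h4s m r s (ceF c j)) 0 % 4 < 4 := Nat.mod_lt _ (by norm_num)
  have l7 : (if b then 1 else 2 : ℕ) < 4 := by cases b <;> norm_num
  generalize t.getD j 0 % 4 = a1 at *
  generalize t.getD k 0 % 4 = a2 at *
  generalize q.getD (h4s m r s j) 0 % 4 = b1 at *
  generalize q.getD (h4s m r s k) 0 % 4 = b2 at *
  generalize t.getD (ceF c j) 0 % 4 = a3 at *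
  generalize q.getD (h4s m r s (ceF c j)) 0 % 4 = b3 at *
  generalize (if b then 1 else 2 : ℕ) = g at *
  have l8 := xor_lt4 l5 l6
  have h3 := hT_xor (xor_lt4 (xor_lt4 l1 l3) l8) (xor_lt4 (xor_lt4 l2 l4) l8) h1.2 h2.2
  rw [Bool.eq_iff_iff]
  constructor
  · intro h4
    have h5 := hT_xor (xor_lt4 (xor_lt4 (xor_lt4 l1 l3) l8) (xor_lt4 (xor_lt4 l2 l4) l8))
      (xor_lt4 (xor_lt4 l1 l7) l2) h3 h4
    rwa [CE_xor1] at h5
  · intro h4
    have h5 := hT_xor (xor_lt4 (xor_lt4 (xor_lt4 l1 l3) l8) (xor_lt4 (xor_lt4 l2 l4) l8))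
      (xor_lt4 (xor_lt4 l3 l7) l4) h3 h4
    rwa [CE_xor2] at h5

end Pool.Agent.Lib_MP_fa6e45
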