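import Pool.Agent.Lib_MP_fa6e45.CE3

/-!
CS-ENUM, part 5: a fast version of the enumeration (code lists as numbers, recursions with recursors).
-/

set_option autoImplicit false

open Set

namespace Pool.Agent.Lib_MP_fa6e45

/-- digit number `j` -/
def dgT (T j : ℕ) : ℕ := Nat.mod (Nat.div T (Nat.pow 16 j)) 16

/-- possible codes of `j` -/
noncomputable def opT (F K : List ℕ) (T j : ℕ) : List ℕ :=
  bif Nat.beq (nthF 0 F j) j then (bif Nat.beq (nthF 0 K j) 0 then [0, 4, 8, 12] else [0, 4]) else
    nthF [] [[0], [4, 6], [8, 9], [12, 13, 14, 15]] (Nat.div (dgT T (nthF 0 F j)) 4)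

/-- all code lists satisfy `leaf` -/
noncomputable def enT (F K : List ℕ) (leaf : ℕ → Bool) (n : ℕ) : ℕ → ℕ → Bool :=
  Nat.rec (motive := fun _ => ℕ → ℕ → Bool) (fun _ T => leaf T)
    (fun _ ih j T => allF (fun x => forceF (ih (Nat.succ j)) (Nat.add T (Nat.mul x (Nat.pow 16 j))))
      (opT F K T j)) n

/-- number of elements with `p` -/
noncomputable def cnT (p : ℕ → Bool) (l : List ℕ) : ℕ :=
  List.rec (motive := fun _ => ℕ) 0 (fun x _ ih => bif p x then Nat.add ih 1 else ih) l

/-- the label number `k` is even -/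
def evT (T k : ℕ) : Bool :=
  bif Nat.beq (Nat.mod (dgT T k) 4) 0 then true else Nat.beq (Nat.mod (dgT T k) 4) 3

/-- balance -/
noncomputable def baT (F R : List ℕ) (T : ℕ) : Bool :=
  allF (fun j => bif Nat.beq (nthF 0 F j) j then (bif Nat.ble (dgT T j) 7 then true else
    Nat.beq (cnT (fun k => bif Nat.beq (nthF 0 F k) j then evT T k else false) R)
      (cnT (fun k => bif Nat.beq (nthF 0 F k) j then (bif evT T k then false else true) else false) R))
    else true) R

/-- number of the renamed code list (not verified) -/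
noncomputable def nmT (T : ℕ) (PQ : List (ℕ × ℕ)) : ℕ :=
  List.rec (motive := fun _ => ℕ) 0 (fun x _ ih =>
    Nat.add (Nat.add (Nat.mul 4 (Nat.div (dgT T x.1) 4))
      (nthF 0 (nthF [] [[0, 0, 0, 0], [0, 0, 2, 2], [0, 1, 1, 0], [0, 1, 2, 3]]
        (Nat.div (dgT T x.1) 4)) (Nat.xor (Nat.mod (dgT T x.1) 4) (Nat.mod (dgT T x.2) 4))))
      (Nat.mul 16 ih)) PQ

/-- the code lists `T`, `X` agree after renaming -/
noncomputable def cmT (F R S : List ℕ) (T X : ℕ) : Bool :=
  allF (fun j => bif Nat.beq (Nat.div (dgT T j) 4) (Nat.div (dgT X (nthF 0 S j)) 4) then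
    inH (Nat.div (dgT T j) 4) (Nat.xor (Nat.xor (Nat.mod (dgT T j) 4) (Nat.mod (dgT X (nthF 0 S j)) 4))
      (Nat.xor (Nat.mod (dgT T (nthF 0 F j)) 4) (Nat.mod (dgT X (nthF 0 S (nthF 0 F j))) 4)))
    else false) R

/-- the code list `T` is not balanced, or it is in the table after renaming -/
noncomputable def lfT (F R : List ℕ) (Y : List ((Bool × ℕ) × List (ℕ × ℕ) × List ℕ)) (ns : List ℕ)
    (T : ℕ) : Bool :=
  bif baT F R T then anyF (fun y => forceF (fun X => bif anyF (Nat.beq X) ns then
    cmT F R y.2.2 T X else false) (nmT T y.2.1)) Y else true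

/-- check of the class list `c` -/
noncomputable def clT (m : ℕ) (c F K R : List ℕ) (Y : List ((Bool × ℕ) × List (ℕ × ℕ) × List ℕ))
    (ns : List ℕ) : Bool :=
  (F == (List.range m).map (ceF c)) && (K == (List.range m).map fun j => ceK m c j % 2) &&
    (R == List.range m) && (Y.all fun y => decide (y.1.2 < m) && h4T m c c y.1.1 y.1.2 &&
      (y.2.2 == (List.range m).map (h4s m y.1.1 y.1.2))) && ceG m c && enT F K (lfT F R Y ns) m 0 0

/-! ### soundness -/

private theorem CE4_nth {α : Type} (d : α) (l : List α) (i : ℕ) : nthF d l i = l.getD i d := by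
  induction l generalizing i with
  | nil => rfl
  | cons x l ih =>
    cases i with
    | zero => rfl
    | succ i =>
      change nthF d l i = _
      rw [ih]
      rfl

private theorem CE4_all {α : Type} (g : α → Bool) (l : List α) : allF g l = l.all g := by
  induction l with
  | nil => rfl
  | cons x l ih =>
    change (bif g x then allF g l else false) = _
    rw [ih, List.all_cons]
    cases g x <;> rfl

private theorem CE4_any {α : Type} (g : α → Bool) (l : List α) : anyF g l = l.any g := by
  induction l with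
  | nil => rfl
  | cons x l ih =>
    change (bif g x then true else anyF g l) = _
    rw [ih, List.any_cons]
    cases g x <;> rfl

private theorem CE4_force (f : ℕ → Bool) (t : ℕ) : forceF f t = f t := by
  cases t <;> rfl

private theorem CE4_bif (a b : Bool) : (bif a then b else false) = true ↔ a = true ∧ b = true := by
  cases a <;> simp

private theorem CE4_beq (a b : ℕ) : Nat.beq a b = true ↔ a = b :=
  ⟨Nat.eq_of_beq_eq_true, fun h => by rw [h]; exact Nat.beq_refl b⟩

/-- `∑ E j * 16 ^ j` -/
def numT (E : ℕ → ℕ) : ℕ → ℕ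
  | 0 => 0
  | n + 1 => numT E n + E n * 16 ^ n

theorem numT_lt {E : ℕ → ℕ} (n : ℕ) (hE : ∀ j < n, E j < 16) : numT E n < 16 ^ n := by
  induction n with
  | zero => simp [numT]
  | succ n ih =>
    have h1 := ih fun j hj => hE j (by omega)
    have h2 := hE n (Nat.lt_succ_self n)
    have h3 : E n * 16 ^ n ≤ 15 * 16 ^ n := Nat.mul_le_mul_right _ (by omega)
    rw [numT, pow_succ]
    omega

theorem dgT_numT {E : ℕ → ℕ} (n : ℕ) (hE : ∀ j < n, E j < 16) {j : ℕ} (hj : j < n) :
    dgT (numT E n) j = E j := by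
  change numT E n / 16 ^ j % 16 = E j
  induction n with
  | zero => omega
  | succ n ih =>
    rw [numT]
    rcases Nat.lt_or_ge j n with h | h
    · obtain ⟨d, hd⟩ : ∃ d, n = j + 1 + d := ⟨n - (j + 1), by omega⟩
      have h1 : E n * 16 ^ n = 16 ^ j * (16 * (E n * 16 ^ d)) := by
        rw [hd, pow_add, pow_succ]
        ring
      rw [h1, Nat.add_mul_div_left _ _ (by positivity), Nat.add_mul_mod_self_left]
      exact ih (fun j hj => hE j (by omega)) h
    · have h1 : j = n := by omega
      subst h1
      have h2 := numT_lt j fun i hi => hE i (by omega)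
      rw [Nat.add_mul_div_right _ _ (by positivity), Nat.div_eq_of_lt h2, zero_add,
        Nat.mod_eq_of_lt (hE j (Nat.lt_succ_self j))]

private theorem CE4_opt {m : ℕ} {c : List ℕ} {E : ℕ → ℕ} {j : ℕ} (hj : j < m)
    (hE : ∀ i < m, E i < 16) (hF : ceF c j ≤ j)
    (hO : E j ∈ ceO m c ((List.range j).map E) j) :
    E j ∈ opT ((List.range m).map (ceF c)) ((List.range m).map fun j => ceK m c j % 2)
      (numT E j) j := by
  unfold opT
  rw [CE4_nth, CE4_nth, CE4_nth, h4_getD _ _ _ hj, h4_getD _ _ _ hj]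
  unfold ceO at hO
  by_cases h1 : ceF c j = j
  · rw [if_pos h1] at hO
    have h2 : Nat.beq (ceF c j) j = true := (CE4_beq _ _).2 h1
    rw [h2, cond_true]
    by_cases h3 : ceK m c j % 2 = 0
    · rw [if_pos h3] at hO
      have h4 : Nat.beq (ceK m c j % 2) 0 = true := (CE4_beq _ _).2 h3
      rw [h4, cond_true]
      exact hO
    · rw [if_neg h3] at hO
      have h4 : Nat.beq (ceK m c j % 2) 0 = false := by
        cases h : Nat.beq (ceK m c j % 2) 0
        · rfl
        · exact absurd ((CE4_beq _ _).1 h) h3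
      rw [h4, cond_false]
      exact hO
  · rw [if_neg h1] at hO
    have h2 : Nat.beq (ceF c j) j = false := by
      cases h : Nat.beq (ceF c j) j
      · rfl
      · exact absurd ((CE4_beq _ _).1 h) h1
    have h3 : ceF c j < j := lt_of_le_of_ne hF h1
    have h4 := dgT_numT (E := E) j (fun i hi => hE i (by omega)) h3
    rw [h2, cond_false, h4]
    rw [h4_getD _ _ _ h3] at hO
    have h5 : E (ceF c j) / 4 < 4 := by
      have := hE (ceF c j) (by omega)
      omega
    change E j ∈ List.getD _ (E (ceF c j) / 4) []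
    generalize E (ceF c j) / 4 = t at *
    interval_cases t <;> simpa using hO

private theorem CE4_en {m : ℕ} {c : List ℕ} {E : ℕ → ℕ} {leaf : ℕ → Bool}
    (hE : ∀ i < m, E i < 16) (hF : ∀ j < m, ceF c j ≤ j)
    (hO : ∀ j < m, E j ∈ ceO m c ((List.range j).map E) j) (n j : ℕ) (hn : j + n = m)
    (h : enT ((List.range m).map (ceF c)) ((List.range m).map fun j => ceK m c j % 2) leaf n j
      (numT E j) = true) : leaf (numT E m) = true := by
  induction n generalizing j with
  | zero =>
    have : j = m := by omega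
    subst this
    exact h
  | succ n ih =>
    have h1 : allF (fun x => forceF (enT ((List.range m).map (ceF c))
      ((List.range m).map fun j => ceK m c j % 2) leaf n (Nat.succ j))
      (Nat.add (numT E j) (Nat.mul x (Nat.pow 16 j)))) (opT ((List.range m).map (ceF c))
        ((List.range m).map fun j => ceK m c j % 2) (numT E j) j) = true := h
    rw [CE4_all, List.all_eq_true] at h1
    have h2 := h1 (E j) (CE4_opt (by omega) hE (hF j (by omega)) (hO j (by omega)))
    rw [CE4_force] at h2
    exact ih (j + 1) (by omega) h2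

private theorem CE4_cnt (p : ℕ → Bool) (l : List ℕ) : cnT p l = l.countP p := by
  induction l with
  | nil => rfl
  | cons x l ih =>
    change (bif p x then Nat.add (cnT p l) 1 else cnT p l) = _
    rw [ih, List.countP_cons]
    cases p x <;> simp

private theorem CE4_evT {m : ℕ} {E : ℕ → ℕ} (hE : ∀ i < m, E i < 16) {k : ℕ} (hk : k < m) :
    evT (numT E m) k = evL (E k) := by
  unfold evT evL
  rw [dgT_numT m hE hk]
  change (bif Nat.beq (E k % 4) 0 then true else Nat.beq (E k % 4) 3) = _
  have h1 : E k % 4 < 4 := Nat.mod_lt _ (by norm_num)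
  generalize E k % 4 = t at *
  interval_cases t <;> rfl

private theorem CE4_ba {m : ℕ} {c : List ℕ} {E : ℕ → ℕ} (hE : ∀ i < m, E i < 16)
    (hcg : ∀ j < m, c.getD (ceF c j) 0 = c.getD j 0)
    (hB : ∀ r < m, 8 ≤ E r →
      ((List.range m).countP fun j => (c.getD j 0 == c.getD r 0) && evL (E j)) =
        (List.range m).countP fun j => (c.getD j 0 == c.getD r 0) && !evL (E j)) :
    baT ((List.range m).map (ceF c)) (List.range m) (numT E m) = true := by
  unfold baT
  rw [CE4_all, List.all_eq_true]
  intro j hj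
  rw [List.mem_range] at hj
  rw [CE4_nth, h4_getD _ _ _ hj, dgT_numT m hE hj, CE4_cnt, CE4_cnt]
  cases h1 : Nat.beq (ceF c j) j
  · rfl
  · rw [cond_true]
    cases h2 : Nat.ble (E j) 7
    · rw [cond_false, CE4_beq]
      have h3 : ¬ E j ≤ 7 := fun h => by
        rw [Nat.ble_eq_true_of_le h] at h2
        exact absurd h2 (by simp)
      have h4 := hB j hj (by omega)
      have h5 := (CE4_beq _ _).1 h1
      have e1 : ∀ k < m, Nat.beq (ceF c k) j = (c.getD k 0 == c.getD j 0) := by
        intro k hk
        rw [Bool.eq_iff_iff, CE4_beq, beq_iff_eq]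
        constructor
        · intro h6
          rw [← hcg k hk, h6]
        · intro h6
          rw [ceF_congr h6, h5]
      have e2 : ((List.range m).countP fun k => bif Nat.beq (nthF 0 ((List.range m).map (ceF c)) k) j
          then evT (numT E m) k else false) =
          (List.range m).countP fun k => (c.getD k 0 == c.getD j 0) && evL (E k) := by
        refine List.countP_congr fun k hk => ?_
        rw [List.mem_range] at hk
        rw [CE4_nth, h4_getD _ _ _ hk, e1 k hk, CE4_evT hE hk]
        cases (c.getD k 0 == c.getD j 0) <;> simp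
      have e3 : ((List.range m).countP fun k => bif Nat.beq (nthF 0 ((List.range m).map (ceF c)) k) j
          then (bif evT (numT E m) k then false else true) else false) =
          (List.range m).countP fun k => (c.getD k 0 == c.getD j 0) && !evL (E k) := by
        refine List.countP_congr fun k hk => ?_
        rw [List.mem_range] at hk
        rw [CE4_nth, h4_getD _ _ _ hk, e1 k hk, CE4_evT hE hk]
        cases (c.getD k 0 == c.getD j 0) <;> cases evL (E k) <;> simp
      rw [e2, e3]
      exact h4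
    · rfl

private theorem CE4_inH {t x : ℕ} (ht : t < 4) (hx : x < 4) (h : inH t x = true) :
    hT t x = true := by
  interval_cases t <;> interval_cases x <;> first | rfl | exact absurd h (by decide)

/-- what the check of the class list `c` gives -/
def ClOK (m : ℕ) (c ns : List ℕ) : Prop :=
  ceG m c = true ∧ ∀ E : ℕ → ℕ, (∀ j < m, E j < 16) →
    (∀ j < m, E j ∈ ceO m c ((List.range j).map E) j) →
    (∀ r < m, 8 ≤ E r →
      ((List.range m).countP fun j => (c.getD j 0 == c.getD r 0) && evL (E j)) =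
        (List.range m).countP fun j => (c.getD j 0 == c.getD r 0) && !evL (E j)) →
    ∃ (r : Bool) (t : ℕ), t < m ∧ h4T m c c r t = true ∧ ∃ X ∈ ns,
      ceM m c ((List.range m).map E) (decT m X) r t = true

theorem clT_sound {m : ℕ} {c F K R : List ℕ} {Y : List ((Bool × ℕ) × List (ℕ × ℕ) × List ℕ)}
    {ns : List ℕ} (h : clT m c F K R Y ns = true) : ClOK m c ns := by
  unfold clT at h
  rw [Bool.and_eq_true, Bool.and_eq_true, Bool.and_eq_true, Bool.and_eq_true, Bool.and_eq_true,
    beq_iff_eq, beq_iff_eq, beq_iff_eq, List.all_eq_true] at h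
  obtain ⟨⟨⟨⟨⟨hF, hK⟩, hR⟩, hY⟩, hG⟩, hen⟩ := h
  subst hF hK hR
  refine ⟨hG, fun E hE hO hB => ?_⟩
  have hg : ∀ j < m, ceF c j ≤ j ∧ c.getD (ceF c j) 0 = c.getD j 0 := by
    intro j hj
    unfold ceG at hG
    rw [List.all_eq_true] at hG
    have h1 := hG j (List.mem_range.2 hj)
    rw [Bool.and_eq_true, decide_eq_true_iff, beq_iff_eq] at h1
    exact h1
  have h1 := CE4_en hE (fun j hj => (hg j hj).1) hO m 0 (by omega) hen
  unfold lfT at h1
  rw [CE4_ba hE (fun j hj => (hg j hj).2) hB, cond_true, CE4_any, List.any_eq_true] at h1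
  obtain ⟨y, hy, h2⟩ := h1
  rw [CE4_force, CE4_bif, CE4_any, List.any_eq_true] at h2
  obtain ⟨⟨X, hX, hX2⟩, h3⟩ := h2
  rw [CE4_beq] at hX2
  rw [hX2] at h3
  have h4 := hY y hy
  rw [Bool.and_eq_true, Bool.and_eq_true, decide_eq_true_iff, beq_iff_eq] at h4
  refine ⟨y.1.1, y.1.2, h4.1.1, h4.1.2, X, hX, ?_⟩
  unfold cmT at h3
  rw [CE4_all, List.all_eq_true] at h3
  unfold ceM
  rw [List.all_eq_true]
  intro j hj
  have h5 := h3 j hj
  rw [List.mem_range] at hj
  have hs : ∀ k < m, h4s m y.1.1 y.1.2 k < m := by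
    intro k hk
    unfold h4s
    split_ifs
    · exact Nat.mod_lt _ (by omega)
    · exact Nat.mod_lt _ (by omega)
  have hd : ∀ k < m, (decT m X).getD k 0 = dgT X k := by
    intro k hk
    unfold decT
    rw [h4_getD _ _ _ hk]
    rfl
  have hFj := (hg j hj).1.trans_lt hj
  rw [CE4_bif, h4.2, CE4_nth, CE4_nth, CE4_nth, h4_getD _ _ _ hj, h4_getD _ _ _ hj,
    h4_getD _ _ _ hFj, dgT_numT m hE hj, dgT_numT m hE hFj, CE4_beq] at h5
  simp only
  rw [h4_getD _ _ _ hj, h4_getD _ _ _ hFj, hd _ (hs j hj), hd _ (hs _ hFj), Bool.and_eq_true,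
    beq_iff_eq]
  refine ⟨h5.1, CE4_inH ?_ ?_ h5.2⟩
  · have := hE j hj
    omega
  · exact xor_lt4 (xor_lt4 (Nat.mod_lt _ (by norm_num)) (Nat.mod_lt _ (by norm_num)))
      (xor_lt4 (Nat.mod_lt _ (by norm_num)) (Nat.mod_lt _ (by norm_num)))

end Pool.Agent.Lib_MP_fa6e45
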