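import Pool.Agent.Lib_MP_fa6e45.CE4

/-!
CS-ENUM, kernel checks (generated).
-/

namespace Pool.Agent.Lib_MP_fa6e45

theorem cl3_0 : ClOK 3 [0, 0, 0] ns3_0 :=
  clT_sound (F := [0, 0, 0]) (K := [1, 1, 1]) (R := [0, 1, 2])
    (Y := [((false, 0), [(0, 0), (1, 0), (2, 0)], [0, 1, 2]),
      ((false, 1), [(2, 2), (0, 2), (1, 2)], [1, 2, 0]),
      ((false, 2), [(1, 1), (2, 1), (0, 1)], [2, 0, 1]),
      ((true, 0), [(2, 2), (1, 2), (0, 2)], [2, 1, 0]),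
      ((true, 1), [(0, 0), (2, 0), (1, 0)], [0, 2, 1]),
      ((true, 2), [(1, 1), (0, 1), (2, 1)], [1, 0, 2])])
    (by decide +kernel)

theorem cl3_1 : ClOK 3 [0, 0, 1] ns3_1 :=
  clT_sound (F := [0, 0, 2]) (K := [0, 0, 1]) (R := [0, 1, 2])
    (Y := [((false, 0), [(0, 0), (1, 0), (2, 2)], [0, 1, 2]),
      ((true, 2), [(1, 1), (0, 1), (2, 2)], [1, 0, 2])])
    (by decide +kernel)

theorem cl3_2 : ClOK 3 [0, 1, 2] ns3_2 :=
  clT_sound (F := [0, 1, 2]) (K := [1, 1, 1]) (R := [0, 1, 2])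
    (Y := [((false, 0), [(0, 0), (1, 1), (2, 2)], [0, 1, 2]),
      ((false, 1), [(2, 2), (0, 0), (1, 1)], [1, 2, 0]),
      ((false, 2), [(1, 1), (2, 2), (0, 0)], [2, 0, 1]),
      ((true, 0), [(2, 2), (1, 1), (0, 0)], [2, 1, 0]),
      ((true, 1), [(0, 0), (2, 2), (1, 1)], [0, 2, 1]),
      ((true, 2), [(1, 1), (0, 0), (2, 2)], [1, 0, 2])])
    (by decide +kernel)

end Pool.Agent.Lib_MP_fa6e45
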