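import Pool.Agent.Lib_MP_fa6e45.CE4

/-!
CS-ENUM, kernel checks (generated).
-/

namespace Pool.Agent.Lib_MP_fa6e45

theorem cl4_0 : ClOK 4 [0, 0, 0, 0] ns4_0 :=
  clT_sound (F := [0, 0, 0, 0]) (K := [0, 0, 0, 0]) (R := [0, 1, 2, 3])
    (Y := [((false, 0), [(0, 0), (1, 0), (2, 0), (3, 0)], [0, 1, 2, 3]),
      ((false, 1), [(3, 3), (0, 3), (1, 3), (2, 3)], [1, 2, 3, 0]),
      ((false, 2), [(2, 2), (3, 2), (0, 2), (1, 2)], [2, 3, 0, 1]),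
      ((false, 3), [(1, 1), (2, 1), (3, 1), (0, 1)], [3, 0, 1, 2]),
      ((true, 0), [(3, 3), (2, 3), (1, 3), (0, 3)], [3, 2, 1, 0]),
      ((true, 1), [(0, 0), (3, 0), (2, 0), (1, 0)], [0, 3, 2, 1]),
      ((true, 2), [(1, 1), (0, 1), (3, 1), (2, 1)], [1, 0, 3, 2]),
      ((true, 3), [(2, 2), (1, 2), (0, 2), (3, 2)], [2, 1, 0, 3])])
    (by decide +kernel)

theorem cl4_1 : ClOK 4 [0, 0, 0, 1] ns4_1 :=
  clT_sound (F := [0, 0, 0, 3]) (K := [1, 1, 1, 1]) (R := [0, 1, 2, 3])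
    (Y := [((false, 0), [(0, 0), (1, 0), (2, 0), (3, 3)], [0, 1, 2, 3]),
      ((true, 3), [(2, 2), (1, 2), (0, 2), (3, 3)], [2, 1, 0, 3])])
    (by decide +kernel)

theorem cl4_2 : ClOK 4 [0, 0, 1, 1] ns4_2 :=
  clT_sound (F := [0, 0, 2, 2]) (K := [0, 0, 0, 0]) (R := [0, 1, 2, 3])
    (Y := [((false, 0), [(0, 0), (1, 0), (2, 2), (3, 2)], [0, 1, 2, 3]),
      ((false, 2), [(2, 2), (3, 2), (0, 0), (1, 0)], [2, 3, 0, 1]),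
      ((true, 0), [(3, 3), (2, 3), (1, 1), (0, 1)], [3, 2, 1, 0]),
      ((true, 2), [(1, 1), (0, 1), (3, 3), (2, 3)], [1, 0, 3, 2])])
    (by decide +kernel)

theorem cl4_3 : ClOK 4 [0, 0, 1, 2] ns4_3 :=
  clT_sound (F := [0, 0, 2, 3]) (K := [0, 0, 1, 1]) (R := [0, 1, 2, 3])
    (Y := [((false, 0), [(0, 0), (1, 0), (2, 2), (3, 3)], [0, 1, 2, 3]),
      ((true, 2), [(1, 1), (0, 1), (3, 3), (2, 2)], [1, 0, 3, 2])])
    (by decide +kernel)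

theorem cl4_4 : ClOK 4 [0, 1, 0, 1] ns4_4 :=
  clT_sound (F := [0, 1, 0, 1]) (K := [0, 0, 0, 0]) (R := [0, 1, 2, 3])
    (Y := [((false, 0), [(0, 0), (1, 1), (2, 0), (3, 1)], [0, 1, 2, 3]),
      ((false, 1), [(3, 3), (0, 0), (1, 3), (2, 0)], [1, 2, 3, 0]),
      ((false, 2), [(2, 2), (3, 3), (0, 2), (1, 3)], [2, 3, 0, 1]),
      ((false, 3), [(1, 1), (2, 2), (3, 1), (0, 2)], [3, 0, 1, 2]),
      ((true, 0), [(3, 3), (2, 2), (1, 3), (0, 2)], [3, 2, 1, 0]),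
      ((true, 1), [(0, 0), (3, 3), (2, 0), (1, 3)], [0, 3, 2, 1]),
      ((true, 2), [(1, 1), (0, 0), (3, 1), (2, 0)], [1, 0, 3, 2]),
      ((true, 3), [(2, 2), (1, 1), (0, 2), (3, 1)], [2, 1, 0, 3])])
    (by decide +kernel)

theorem cl4_5 : ClOK 4 [0, 1, 0, 2] ns4_5 :=
  clT_sound (F := [0, 1, 0, 3]) (K := [0, 1, 0, 1]) (R := [0, 1, 2, 3])
    (Y := [((false, 0), [(0, 0), (1, 1), (2, 0), (3, 3)], [0, 1, 2, 3]),
      ((false, 2), [(2, 2), (3, 3), (0, 2), (1, 1)], [2, 3, 0, 1]),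
      ((true, 1), [(0, 0), (3, 3), (2, 0), (1, 1)], [0, 3, 2, 1]),
      ((true, 3), [(2, 2), (1, 1), (0, 2), (3, 3)], [2, 1, 0, 3])])
    (by decide +kernel)

theorem cl4_6 : ClOK 4 [0, 1, 2, 3] ns4_6 :=
  clT_sound (F := [0, 1, 2, 3]) (K := [1, 1, 1, 1]) (R := [0, 1, 2, 3])
    (Y := [((false, 0), [(0, 0), (1, 1), (2, 2), (3, 3)], [0, 1, 2, 3]),
      ((false, 1), [(3, 3), (0, 0), (1, 1), (2, 2)], [1, 2, 3, 0]),
      ((false, 2), [(2, 2), (3, 3), (0, 0), (1, 1)], [2, 3, 0, 1]),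
      ((false, 3), [(1, 1), (2, 2), (3, 3), (0, 0)], [3, 0, 1, 2]),
      ((true, 0), [(3, 3), (2, 2), (1, 1), (0, 0)], [3, 2, 1, 0]),
      ((true, 1), [(0, 0), (3, 3), (2, 2), (1, 1)], [0, 3, 2, 1]),
      ((true, 2), [(1, 1), (0, 0), (3, 3), (2, 2)], [1, 0, 3, 2]),
      ((true, 3), [(2, 2), (1, 1), (0, 0), (3, 3)], [2, 1, 0, 3])])
    (by decide +kernel)

end Pool.Agent.Lib_MP_fa6e45
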