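import Pool.Agent.Lib_MP_fa6e45.CE4

/-!
CS-ENUM, kernel checks (generated).
-/

namespace Pool.Agent.Lib_MP_fa6e45

theorem cl6_0 : ClOK 6 [0, 0, 0, 0, 0, 0] ns6_0 :=
  clT_sound (F := [0, 0, 0, 0, 0, 0]) (K := [0, 0, 0, 0, 0, 0]) (R := [0, 1, 2, 3, 4, 5])
    (Y := [((false, 0), [(0, 0), (1, 0), (2, 0), (3, 0), (4, 0), (5, 0)], [0, 1, 2, 3, 4, 5]),
      ((false, 1), [(5, 5), (0, 5), (1, 5), (2, 5), (3, 5), (4, 5)], [1, 2, 3, 4, 5, 0]),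
      ((false, 2), [(4, 4), (5, 4), (0, 4), (1, 4), (2, 4), (3, 4)], [2, 3, 4, 5, 0, 1]),
      ((false, 3), [(3, 3), (4, 3), (5, 3), (0, 3), (1, 3), (2, 3)], [3, 4, 5, 0, 1, 2]),
      ((false, 4), [(2, 2), (3, 2), (4, 2), (5, 2), (0, 2), (1, 2)], [4, 5, 0, 1, 2, 3]),
      ((false, 5), [(1, 1), (2, 1), (3, 1), (4, 1), (5, 1), (0, 1)], [5, 0, 1, 2, 3, 4]),
      ((true, 0), [(5, 5), (4, 5), (3, 5), (2, 5), (1, 5), (0, 5)], [5, 4, 3, 2, 1, 0]),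
      ((true, 1), [(0, 0), (5, 0), (4, 0), (3, 0), (2, 0), (1, 0)], [0, 5, 4, 3, 2, 1]),
      ((true, 2), [(1, 1), (0, 1), (5, 1), (4, 1), (3, 1), (2, 1)], [1, 0, 5, 4, 3, 2]),
      ((true, 3), [(2, 2), (1, 2), (0, 2), (5, 2), (4, 2), (3, 2)], [2, 1, 0, 5, 4, 3]),
      ((true, 4), [(3, 3), (2, 3), (1, 3), (0, 3), (5, 3), (4, 3)], [3, 2, 1, 0, 5, 4]),
      ((true, 5), [(4, 4), (3, 4), (2, 4), (1, 4), (0, 4), (5, 4)], [4, 3, 2, 1, 0, 5])])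
    (by decide +kernel)

theorem cl6_1 : ClOK 6 [0, 0, 0, 0, 0, 1] ns6_1 :=
  clT_sound (F := [0, 0, 0, 0, 0, 5]) (K := [1, 1, 1, 1, 1, 1]) (R := [0, 1, 2, 3, 4, 5])
    (Y := [((false, 0), [(0, 0), (1, 0), (2, 0), (3, 0), (4, 0), (5, 5)], [0, 1, 2, 3, 4, 5]),
      ((true, 5), [(4, 4), (3, 4), (2, 4), (1, 4), (0, 4), (5, 5)], [4, 3, 2, 1, 0, 5])])
    (by decide +kernel)

theorem cl6_2 : ClOK 6 [0, 0, 0, 0, 1, 1] ns6_2 :=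
  clT_sound (F := [0, 0, 0, 0, 4, 4]) (K := [0, 0, 0, 0, 0, 0]) (R := [0, 1, 2, 3, 4, 5])
    (Y := [((false, 0), [(0, 0), (1, 0), (2, 0), (3, 0), (4, 4), (5, 4)], [0, 1, 2, 3, 4, 5]),
      ((true, 4), [(3, 3), (2, 3), (1, 3), (0, 3), (5, 5), (4, 5)], [3, 2, 1, 0, 5, 4])])
    (by decide +kernel)

theorem cl6_3 : ClOK 6 [0, 0, 0, 0, 1, 2] ns6_3 :=
  clT_sound (F := [0, 0, 0, 0, 4, 5]) (K := [0, 0, 0, 0, 1, 1]) (R := [0, 1, 2, 3, 4, 5])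
    (Y := [((false, 0), [(0, 0), (1, 0), (2, 0), (3, 0), (4, 4), (5, 5)], [0, 1, 2, 3, 4, 5]),
      ((true, 4), [(3, 3), (2, 3), (1, 3), (0, 3), (5, 5), (4, 4)], [3, 2, 1, 0, 5, 4])])
    (by decide +kernel)

theorem cl6_4 : ClOK 6 [0, 0, 0, 1, 0, 1] ns6_4 :=
  clT_sound (F := [0, 0, 0, 3, 0, 3]) (K := [0, 0, 0, 0, 0, 0]) (R := [0, 1, 2, 3, 4, 5])
    (Y := [((false, 0), [(0, 0), (1, 0), (2, 0), (3, 3), (4, 0), (5, 3)], [0, 1, 2, 3, 4, 5]),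
      ((true, 3), [(2, 2), (1, 2), (0, 2), (5, 5), (4, 2), (3, 5)], [2, 1, 0, 5, 4, 3])])
    (by decide +kernel)

theorem cl6_5 : ClOK 6 [0, 0, 0, 1, 0, 2] ns6_5 :=
  clT_sound (F := [0, 0, 0, 3, 0, 5]) (K := [0, 0, 0, 1, 0, 1]) (R := [0, 1, 2, 3, 4, 5])
    (Y := [((false, 0), [(0, 0), (1, 0), (2, 0), (3, 3), (4, 0), (5, 5)], [0, 1, 2, 3, 4, 5]),
      ((true, 3), [(2, 2), (1, 2), (0, 2), (5, 5), (4, 2), (3, 3)], [2, 1, 0, 5, 4, 3])])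
    (by decide +kernel)

theorem cl6_6 : ClOK 6 [0, 0, 0, 1, 1, 1] ns6_6 :=
  clT_sound (F := [0, 0, 0, 3, 3, 3]) (K := [1, 1, 1, 1, 1, 1]) (R := [0, 1, 2, 3, 4, 5])
    (Y := [((false, 0), [(0, 0), (1, 0), (2, 0), (3, 3), (4, 3), (5, 3)], [0, 1, 2, 3, 4, 5]),
      ((false, 3), [(3, 3), (4, 3), (5, 3), (0, 0), (1, 0), (2, 0)], [3, 4, 5, 0, 1, 2]),
      ((true, 0), [(5, 5), (4, 5), (3, 5), (2, 2), (1, 2), (0, 2)], [5, 4, 3, 2, 1, 0]),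
      ((true, 3), [(2, 2), (1, 2), (0, 2), (5, 5), (4, 5), (3, 5)], [2, 1, 0, 5, 4, 3])])
    (by decide +kernel)

theorem cl6_7 : ClOK 6 [0, 0, 0, 1, 1, 2] ns6_7 :=
  clT_sound (F := [0, 0, 0, 3, 3, 5]) (K := [1, 1, 1, 0, 0, 1]) (R := [0, 1, 2, 3, 4, 5])
    (Y := [((false, 0), [(0, 0), (1, 0), (2, 0), (3, 3), (4, 3), (5, 5)], [0, 1, 2, 3, 4, 5])])
    (by decide +kernel)

theorem cl6_8 : ClOK 6 [0, 0, 0, 1, 2, 1] ns6_8 :=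
  clT_sound (F := [0, 0, 0, 3, 4, 3]) (K := [1, 1, 1, 0, 1, 0]) (R := [0, 1, 2, 3, 4, 5])
    (Y := [((false, 0), [(0, 0), (1, 0), (2, 0), (3, 3), (4, 4), (5, 3)], [0, 1, 2, 3, 4, 5]),
      ((true, 3), [(2, 2), (1, 2), (0, 2), (5, 5), (4, 4), (3, 5)], [2, 1, 0, 5, 4, 3])])
    (by decide +kernel)

theorem cl6_9 : ClOK 6 [0, 0, 0, 1, 2, 3] ns6_9 :=
  clT_sound (F := [0, 0, 0, 3, 4, 5]) (K := [1, 1, 1, 1, 1, 1]) (R := [0, 1, 2, 3, 4, 5])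
    (Y := [((false, 0), [(0, 0), (1, 0), (2, 0), (3, 3), (4, 4), (5, 5)], [0, 1, 2, 3, 4, 5]),
      ((true, 3), [(2, 2), (1, 2), (0, 2), (5, 5), (4, 4), (3, 3)], [2, 1, 0, 5, 4, 3])])
    (by decide +kernel)

theorem cl6_10 : ClOK 6 [0, 0, 1, 0, 0, 1] ns6_10 :=
  clT_sound (F := [0, 0, 2, 0, 0, 2]) (K := [0, 0, 0, 0, 0, 0]) (R := [0, 1, 2, 3, 4, 5])
    (Y := [((false, 0), [(0, 0), (1, 0), (2, 2), (3, 0), (4, 0), (5, 2)], [0, 1, 2, 3, 4, 5]),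
      ((false, 3), [(3, 3), (4, 3), (5, 5), (0, 3), (1, 3), (2, 5)], [3, 4, 5, 0, 1, 2]),
      ((true, 2), [(1, 1), (0, 1), (5, 5), (4, 1), (3, 1), (2, 5)], [1, 0, 5, 4, 3, 2]),
      ((true, 5), [(4, 4), (3, 4), (2, 2), (1, 4), (0, 4), (5, 2)], [4, 3, 2, 1, 0, 5])])
    (by decide +kernel)

theorem cl6_11 : ClOK 6 [0, 0, 1, 0, 0, 2] ns6_11 :=
  clT_sound (F := [0, 0, 2, 0, 0, 5]) (K := [0, 0, 1, 0, 0, 1]) (R := [0, 1, 2, 3, 4, 5])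
    (Y := [((false, 0), [(0, 0), (1, 0), (2, 2), (3, 0), (4, 0), (5, 5)], [0, 1, 2, 3, 4, 5]),
      ((false, 3), [(3, 3), (4, 3), (5, 5), (0, 3), (1, 3), (2, 2)], [3, 4, 5, 0, 1, 2]),
      ((true, 2), [(1, 1), (0, 1), (5, 5), (4, 1), (3, 1), (2, 2)], [1, 0, 5, 4, 3, 2]),
      ((true, 5), [(4, 4), (3, 4), (2, 2), (1, 4), (0, 4), (5, 5)], [4, 3, 2, 1, 0, 5])])
    (by decide +kernel)

theorem cl6_12 : ClOK 6 [0, 0, 1, 0, 1, 1] ns6_12 :=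
  clT_sound (F := [0, 0, 2, 0, 2, 2]) (K := [1, 1, 1, 1, 1, 1]) (R := [0, 1, 2, 3, 4, 5])
    (Y := [((false, 0), [(0, 0), (1, 0), (2, 2), (3, 0), (4, 2), (5, 2)], [0, 1, 2, 3, 4, 5]),
      ((true, 0), [(5, 5), (4, 5), (3, 3), (2, 5), (1, 3), (0, 3)], [5, 4, 3, 2, 1, 0])])
    (by decide +kernel)

end Pool.Agent.Lib_MP_fa6e45
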