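import Pool.Agent.Lib_MP_fa6e45.CE4

/-!
CS-ENUM, kernel checks (generated).
-/

namespace Pool.Agent.Lib_MP_fa6e45

theorem cl6_13 : ClOK 6 [0, 0, 1, 0, 1, 2] ns6_13 :=
  clT_sound (F := [0, 0, 2, 0, 2, 5]) (K := [1, 1, 0, 1, 0, 1]) (R := [0, 1, 2, 3, 4, 5])
    (Y := [((false, 0), [(0, 0), (1, 0), (2, 2), (3, 0), (4, 2), (5, 5)], [0, 1, 2, 3, 4, 5])])
    (by decide +kernel)

theorem cl6_14 : ClOK 6 [0, 0, 1, 0, 2, 1] ns6_14 :=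
  clT_sound (F := [0, 0, 2, 0, 4, 2]) (K := [1, 1, 0, 1, 1, 0]) (R := [0, 1, 2, 3, 4, 5])
    (Y := [((false, 0), [(0, 0), (1, 0), (2, 2), (3, 0), (4, 4), (5, 2)], [0, 1, 2, 3, 4, 5])])
    (by decide +kernel)

theorem cl6_15 : ClOK 6 [0, 0, 1, 0, 2, 2] ns6_15 :=
  clT_sound (F := [0, 0, 2, 0, 4, 4]) (K := [1, 1, 1, 1, 0, 0]) (R := [0, 1, 2, 3, 4, 5])
    (Y := [((false, 0), [(0, 0), (1, 0), (2, 2), (3, 0), (4, 4), (5, 4)], [0, 1, 2, 3, 4, 5])])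
    (by decide +kernel)

theorem cl6_16 : ClOK 6 [0, 0, 1, 0, 2, 3] ns6_16 :=
  clT_sound (F := [0, 0, 2, 0, 4, 5]) (K := [1, 1, 1, 1, 1, 1]) (R := [0, 1, 2, 3, 4, 5])
    (Y := [((false, 0), [(0, 0), (1, 0), (2, 2), (3, 0), (4, 4), (5, 5)], [0, 1, 2, 3, 4, 5])])
    (by decide +kernel)

theorem cl6_17 : ClOK 6 [0, 0, 1, 1, 2, 2] ns6_17 :=
  clT_sound (F := [0, 0, 2, 2, 4, 4]) (K := [0, 0, 0, 0, 0, 0]) (R := [0, 1, 2, 3, 4, 5])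
    (Y := [((false, 0), [(0, 0), (1, 0), (2, 2), (3, 2), (4, 4), (5, 4)], [0, 1, 2, 3, 4, 5]),
      ((false, 2), [(4, 4), (5, 4), (0, 0), (1, 0), (2, 2), (3, 2)], [2, 3, 4, 5, 0, 1]),
      ((false, 4), [(2, 2), (3, 2), (4, 4), (5, 4), (0, 0), (1, 0)], [4, 5, 0, 1, 2, 3]),
      ((true, 0), [(5, 5), (4, 5), (3, 3), (2, 3), (1, 1), (0, 1)], [5, 4, 3, 2, 1, 0]),
      ((true, 2), [(1, 1), (0, 1), (5, 5), (4, 5), (3, 3), (2, 3)], [1, 0, 5, 4, 3, 2]),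
      ((true, 4), [(3, 3), (2, 3), (1, 1), (0, 1), (5, 5), (4, 5)], [3, 2, 1, 0, 5, 4])])
    (by decide +kernel)

theorem cl6_18 : ClOK 6 [0, 0, 1, 1, 2, 3] ns6_18 :=
  clT_sound (F := [0, 0, 2, 2, 4, 5]) (K := [0, 0, 0, 0, 1, 1]) (R := [0, 1, 2, 3, 4, 5])
    (Y := [((false, 0), [(0, 0), (1, 0), (2, 2), (3, 2), (4, 4), (5, 5)], [0, 1, 2, 3, 4, 5]),
      ((true, 4), [(3, 3), (2, 3), (1, 1), (0, 1), (5, 5), (4, 4)], [3, 2, 1, 0, 5, 4])])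
    (by decide +kernel)

theorem cl6_19 : ClOK 6 [0, 0, 1, 2, 1, 2] ns6_19 :=
  clT_sound (F := [0, 0, 2, 3, 2, 3]) (K := [0, 0, 0, 0, 0, 0]) (R := [0, 1, 2, 3, 4, 5])
    (Y := [((false, 0), [(0, 0), (1, 0), (2, 2), (3, 3), (4, 2), (5, 3)], [0, 1, 2, 3, 4, 5]),
      ((true, 2), [(1, 1), (0, 1), (5, 5), (4, 4), (3, 5), (2, 4)], [1, 0, 5, 4, 3, 2])])
    (by decide +kernel)

theorem cl6_20 : ClOK 6 [0, 0, 1, 2, 1, 3] ns6_20 :=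
  clT_sound (F := [0, 0, 2, 3, 2, 5]) (K := [0, 0, 0, 1, 0, 1]) (R := [0, 1, 2, 3, 4, 5])
    (Y := [((false, 0), [(0, 0), (1, 0), (2, 2), (3, 3), (4, 2), (5, 5)], [0, 1, 2, 3, 4, 5])])
    (by decide +kernel)

theorem cl6_21 : ClOK 6 [0, 0, 1, 2, 2, 1] ns6_21 :=
  clT_sound (F := [0, 0, 2, 3, 3, 2]) (K := [0, 0, 0, 0, 0, 0]) (R := [0, 1, 2, 3, 4, 5])
    (Y := [((false, 0), [(0, 0), (1, 0), (2, 2), (3, 3), (4, 3), (5, 2)], [0, 1, 2, 3, 4, 5]),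
      ((false, 3), [(3, 3), (4, 3), (5, 5), (0, 0), (1, 0), (2, 5)], [3, 4, 5, 0, 1, 2]),
      ((true, 2), [(1, 1), (0, 1), (5, 5), (4, 4), (3, 4), (2, 5)], [1, 0, 5, 4, 3, 2]),
      ((true, 5), [(4, 4), (3, 4), (2, 2), (1, 1), (0, 1), (5, 2)], [4, 3, 2, 1, 0, 5])])
    (by decide +kernel)

theorem cl6_22 : ClOK 6 [0, 0, 1, 2, 2, 3] ns6_22 :=
  clT_sound (F := [0, 0, 2, 3, 3, 5]) (K := [0, 0, 1, 0, 0, 1]) (R := [0, 1, 2, 3, 4, 5])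
    (Y := [((false, 0), [(0, 0), (1, 0), (2, 2), (3, 3), (4, 3), (5, 5)], [0, 1, 2, 3, 4, 5]),
      ((false, 3), [(3, 3), (4, 3), (5, 5), (0, 0), (1, 0), (2, 2)], [3, 4, 5, 0, 1, 2]),
      ((true, 2), [(1, 1), (0, 1), (5, 5), (4, 4), (3, 4), (2, 2)], [1, 0, 5, 4, 3, 2]),
      ((true, 5), [(4, 4), (3, 4), (2, 2), (1, 1), (0, 1), (5, 5)], [4, 3, 2, 1, 0, 5])])
    (by decide +kernel)

theorem cl6_23 : ClOK 6 [0, 0, 1, 2, 3, 1] ns6_23 :=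
  clT_sound (F := [0, 0, 2, 3, 4, 2]) (K := [0, 0, 0, 1, 1, 0]) (R := [0, 1, 2, 3, 4, 5])
    (Y := [((false, 0), [(0, 0), (1, 0), (2, 2), (3, 3), (4, 4), (5, 2)], [0, 1, 2, 3, 4, 5]),
      ((true, 2), [(1, 1), (0, 1), (5, 5), (4, 4), (3, 3), (2, 5)], [1, 0, 5, 4, 3, 2])])
    (by decide +kernel)

theorem cl6_24 : ClOK 6 [0, 0, 1, 2, 3, 4] ns6_24 :=
  clT_sound (F := [0, 0, 2, 3, 4, 5]) (K := [0, 0, 1, 1, 1, 1]) (R := [0, 1, 2, 3, 4, 5])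
    (Y := [((false, 0), [(0, 0), (1, 0), (2, 2), (3, 3), (4, 4), (5, 5)], [0, 1, 2, 3, 4, 5]),
      ((true, 2), [(1, 1), (0, 1), (5, 5), (4, 4), (3, 3), (2, 2)], [1, 0, 5, 4, 3, 2])])
    (by decide +kernel)

theorem cl6_25 : ClOK 6 [0, 1, 0, 1, 0, 1] ns6_25 :=
  clT_sound (F := [0, 1, 0, 1, 0, 1]) (K := [1, 1, 1, 1, 1, 1]) (R := [0, 1, 2, 3, 4, 5])
    (Y := [((false, 0), [(0, 0), (1, 1), (2, 0), (3, 1), (4, 0), (5, 1)], [0, 1, 2, 3, 4, 5]),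
      ((false, 1), [(5, 5), (0, 0), (1, 5), (2, 0), (3, 5), (4, 0)], [1, 2, 3, 4, 5, 0]),
      ((false, 2), [(4, 4), (5, 5), (0, 4), (1, 5), (2, 4), (3, 5)], [2, 3, 4, 5, 0, 1]),
      ((false, 3), [(3, 3), (4, 4), (5, 3), (0, 4), (1, 3), (2, 4)], [3, 4, 5, 0, 1, 2]),
      ((false, 4), [(2, 2), (3, 3), (4, 2), (5, 3), (0, 2), (1, 3)], [4, 5, 0, 1, 2, 3]),
      ((false, 5), [(1, 1), (2, 2), (3, 1), (4, 2), (5, 1), (0, 2)], [5, 0, 1, 2, 3, 4]),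
      ((true, 0), [(5, 5), (4, 4), (3, 5), (2, 4), (1, 5), (0, 4)], [5, 4, 3, 2, 1, 0]),
      ((true, 1), [(0, 0), (5, 5), (4, 0), (3, 5), (2, 0), (1, 5)], [0, 5, 4, 3, 2, 1]),
      ((true, 2), [(1, 1), (0, 0), (5, 1), (4, 0), (3, 1), (2, 0)], [1, 0, 5, 4, 3, 2]),
      ((true, 3), [(2, 2), (1, 1), (0, 2), (5, 1), (4, 2), (3, 1)], [2, 1, 0, 5, 4, 3]),
      ((true, 4), [(3, 3), (2, 2), (1, 3), (0, 2), (5, 3), (4, 2)], [3, 2, 1, 0, 5, 4]),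
      ((true, 5), [(4, 4), (3, 3), (2, 4), (1, 3), (0, 4), (5, 3)], [4, 3, 2, 1, 0, 5])])
    (by decide +kernel)

end Pool.Agent.Lib_MP_fa6e45
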