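import Pool.Agent.Lib_MP_fa6e45.CE4

/-!
CS-ENUM, kernel checks (generated).
-/

namespace Pool.Agent.Lib_MP_fa6e45

theorem cl6_26 : ClOK 6 [0, 1, 0, 1, 0, 2] ns6_26 :=
  clT_sound (F := [0, 1, 0, 1, 0, 5]) (K := [1, 0, 1, 0, 1, 1]) (R := [0, 1, 2, 3, 4, 5])
    (Y := [((false, 0), [(0, 0), (1, 1), (2, 0), (3, 1), (4, 0), (5, 5)], [0, 1, 2, 3, 4, 5]),
      ((true, 5), [(4, 4), (3, 3), (2, 4), (1, 3), (0, 4), (5, 5)], [4, 3, 2, 1, 0, 5])])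
    (by decide +kernel)

theorem cl6_27 : ClOK 6 [0, 1, 0, 1, 2, 3] ns6_27 :=
  clT_sound (F := [0, 1, 0, 1, 4, 5]) (K := [0, 0, 0, 0, 1, 1]) (R := [0, 1, 2, 3, 4, 5])
    (Y := [((false, 0), [(0, 0), (1, 1), (2, 0), (3, 1), (4, 4), (5, 5)], [0, 1, 2, 3, 4, 5]),
      ((true, 4), [(3, 3), (2, 2), (1, 3), (0, 2), (5, 5), (4, 4)], [3, 2, 1, 0, 5, 4])])
    (by decide +kernel)

theorem cl6_28 : ClOK 6 [0, 1, 0, 2, 0, 3] ns6_28 :=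
  clT_sound (F := [0, 1, 0, 3, 0, 5]) (K := [1, 1, 1, 1, 1, 1]) (R := [0, 1, 2, 3, 4, 5])
    (Y := [((false, 0), [(0, 0), (1, 1), (2, 0), (3, 3), (4, 0), (5, 5)], [0, 1, 2, 3, 4, 5]),
      ((false, 2), [(4, 4), (5, 5), (0, 4), (1, 1), (2, 4), (3, 3)], [2, 3, 4, 5, 0, 1]),
      ((false, 4), [(2, 2), (3, 3), (4, 2), (5, 5), (0, 2), (1, 1)], [4, 5, 0, 1, 2, 3]),
      ((true, 1), [(0, 0), (5, 5), (4, 0), (3, 3), (2, 0), (1, 1)], [0, 5, 4, 3, 2, 1]),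
      ((true, 3), [(2, 2), (1, 1), (0, 2), (5, 5), (4, 2), (3, 3)], [2, 1, 0, 5, 4, 3]),
      ((true, 5), [(4, 4), (3, 3), (2, 4), (1, 1), (0, 4), (5, 5)], [4, 3, 2, 1, 0, 5])])
    (by decide +kernel)

theorem cl6_29 : ClOK 6 [0, 1, 0, 2, 1, 2] ns6_29 :=
  clT_sound (F := [0, 1, 0, 3, 1, 3]) (K := [0, 0, 0, 0, 0, 0]) (R := [0, 1, 2, 3, 4, 5])
    (Y := [((false, 0), [(0, 0), (1, 1), (2, 0), (3, 3), (4, 1), (5, 3)], [0, 1, 2, 3, 4, 5]),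
      ((false, 3), [(3, 3), (4, 4), (5, 3), (0, 0), (1, 4), (2, 0)], [3, 4, 5, 0, 1, 2]),
      ((true, 0), [(5, 5), (4, 4), (3, 5), (2, 2), (1, 4), (0, 2)], [5, 4, 3, 2, 1, 0]),
      ((true, 3), [(2, 2), (1, 1), (0, 2), (5, 5), (4, 1), (3, 5)], [2, 1, 0, 5, 4, 3])])
    (by decide +kernel)

theorem cl6_30 : ClOK 6 [0, 1, 0, 2, 1, 3] ns6_30 :=
  clT_sound (F := [0, 1, 0, 3, 1, 5]) (K := [0, 0, 0, 1, 0, 1]) (R := [0, 1, 2, 3, 4, 5])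
    (Y := [((false, 0), [(0, 0), (1, 1), (2, 0), (3, 3), (4, 1), (5, 5)], [0, 1, 2, 3, 4, 5]),
      ((true, 3), [(2, 2), (1, 1), (0, 2), (5, 5), (4, 1), (3, 3)], [2, 1, 0, 5, 4, 3])])
    (by decide +kernel)

theorem cl6_31 : ClOK 6 [0, 1, 0, 2, 3, 2] ns6_31 :=
  clT_sound (F := [0, 1, 0, 3, 4, 3]) (K := [0, 1, 0, 0, 1, 0]) (R := [0, 1, 2, 3, 4, 5])
    (Y := [((false, 0), [(0, 0), (1, 1), (2, 0), (3, 3), (4, 4), (5, 3)], [0, 1, 2, 3, 4, 5]),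
      ((false, 3), [(3, 3), (4, 4), (5, 3), (0, 0), (1, 1), (2, 0)], [3, 4, 5, 0, 1, 2]),
      ((true, 0), [(5, 5), (4, 4), (3, 5), (2, 2), (1, 1), (0, 2)], [5, 4, 3, 2, 1, 0]),
      ((true, 3), [(2, 2), (1, 1), (0, 2), (5, 5), (4, 4), (3, 5)], [2, 1, 0, 5, 4, 3])])
    (by decide +kernel)

theorem cl6_32 : ClOK 6 [0, 1, 0, 2, 3, 4] ns6_32 :=
  clT_sound (F := [0, 1, 0, 3, 4, 5]) (K := [0, 1, 0, 1, 1, 1]) (R := [0, 1, 2, 3, 4, 5])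
    (Y := [((false, 0), [(0, 0), (1, 1), (2, 0), (3, 3), (4, 4), (5, 5)], [0, 1, 2, 3, 4, 5]),
      ((true, 3), [(2, 2), (1, 1), (0, 2), (5, 5), (4, 4), (3, 3)], [2, 1, 0, 5, 4, 3])])
    (by decide +kernel)

theorem cl6_33 : ClOK 6 [0, 1, 2, 0, 1, 2] ns6_33 :=
  clT_sound (F := [0, 1, 2, 0, 1, 2]) (K := [0, 0, 0, 0, 0, 0]) (R := [0, 1, 2, 3, 4, 5])
    (Y := [((false, 0), [(0, 0), (1, 1), (2, 2), (3, 0), (4, 1), (5, 2)], [0, 1, 2, 3, 4, 5]),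
      ((false, 1), [(5, 5), (0, 0), (1, 1), (2, 5), (3, 0), (4, 1)], [1, 2, 3, 4, 5, 0]),
      ((false, 2), [(4, 4), (5, 5), (0, 0), (1, 4), (2, 5), (3, 0)], [2, 3, 4, 5, 0, 1]),
      ((false, 3), [(3, 3), (4, 4), (5, 5), (0, 3), (1, 4), (2, 5)], [3, 4, 5, 0, 1, 2]),
      ((false, 4), [(2, 2), (3, 3), (4, 4), (5, 2), (0, 3), (1, 4)], [4, 5, 0, 1, 2, 3]),
      ((false, 5), [(1, 1), (2, 2), (3, 3), (4, 1), (5, 2), (0, 3)], [5, 0, 1, 2, 3, 4]),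
      ((true, 0), [(5, 5), (4, 4), (3, 3), (2, 5), (1, 4), (0, 3)], [5, 4, 3, 2, 1, 0]),
      ((true, 1), [(0, 0), (5, 5), (4, 4), (3, 0), (2, 5), (1, 4)], [0, 5, 4, 3, 2, 1]),
      ((true, 2), [(1, 1), (0, 0), (5, 5), (4, 1), (3, 0), (2, 5)], [1, 0, 5, 4, 3, 2]),
      ((true, 3), [(2, 2), (1, 1), (0, 0), (5, 2), (4, 1), (3, 0)], [2, 1, 0, 5, 4, 3]),
      ((true, 4), [(3, 3), (2, 2), (1, 1), (0, 3), (5, 2), (4, 1)], [3, 2, 1, 0, 5, 4]),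
      ((true, 5), [(4, 4), (3, 3), (2, 2), (1, 4), (0, 3), (5, 2)], [4, 3, 2, 1, 0, 5])])
    (by decide +kernel)

theorem cl6_34 : ClOK 6 [0, 1, 2, 0, 1, 3] ns6_34 :=
  clT_sound (F := [0, 1, 2, 0, 1, 5]) (K := [0, 0, 1, 0, 0, 1]) (R := [0, 1, 2, 3, 4, 5])
    (Y := [((false, 0), [(0, 0), (1, 1), (2, 2), (3, 0), (4, 1), (5, 5)], [0, 1, 2, 3, 4, 5]),
      ((false, 3), [(3, 3), (4, 4), (5, 5), (0, 3), (1, 4), (2, 2)], [3, 4, 5, 0, 1, 2]),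
      ((true, 2), [(1, 1), (0, 0), (5, 5), (4, 1), (3, 0), (2, 2)], [1, 0, 5, 4, 3, 2]),
      ((true, 5), [(4, 4), (3, 3), (2, 2), (1, 4), (0, 3), (5, 5)], [4, 3, 2, 1, 0, 5])])
    (by decide +kernel)

theorem cl6_35 : ClOK 6 [0, 1, 2, 0, 3, 4] ns6_35 :=
  clT_sound (F := [0, 1, 2, 0, 4, 5]) (K := [0, 1, 1, 0, 1, 1]) (R := [0, 1, 2, 3, 4, 5])
    (Y := [((false, 0), [(0, 0), (1, 1), (2, 2), (3, 0), (4, 4), (5, 5)], [0, 1, 2, 3, 4, 5]),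
      ((false, 3), [(3, 3), (4, 4), (5, 5), (0, 3), (1, 1), (2, 2)], [3, 4, 5, 0, 1, 2]),
      ((true, 1), [(0, 0), (5, 5), (4, 4), (3, 0), (2, 2), (1, 1)], [0, 5, 4, 3, 2, 1]),
      ((true, 4), [(3, 3), (2, 2), (1, 1), (0, 3), (5, 5), (4, 4)], [3, 2, 1, 0, 5, 4])])
    (by decide +kernel)

theorem cl6_36 : ClOK 6 [0, 1, 2, 3, 4, 5] ns6_36 :=
  clT_sound (F := [0, 1, 2, 3, 4, 5]) (K := [1, 1, 1, 1, 1, 1]) (R := [0, 1, 2, 3, 4, 5])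
    (Y := [((false, 0), [(0, 0), (1, 1), (2, 2), (3, 3), (4, 4), (5, 5)], [0, 1, 2, 3, 4, 5]),
      ((false, 1), [(5, 5), (0, 0), (1, 1), (2, 2), (3, 3), (4, 4)], [1, 2, 3, 4, 5, 0]),
      ((false, 2), [(4, 4), (5, 5), (0, 0), (1, 1), (2, 2), (3, 3)], [2, 3, 4, 5, 0, 1]),
      ((false, 3), [(3, 3), (4, 4), (5, 5), (0, 0), (1, 1), (2, 2)], [3, 4, 5, 0, 1, 2]),
      ((false, 4), [(2, 2), (3, 3), (4, 4), (5, 5), (0, 0), (1, 1)], [4, 5, 0, 1, 2, 3]),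
      ((false, 5), [(1, 1), (2, 2), (3, 3), (4, 4), (5, 5), (0, 0)], [5, 0, 1, 2, 3, 4]),
      ((true, 0), [(5, 5), (4, 4), (3, 3), (2, 2), (1, 1), (0, 0)], [5, 4, 3, 2, 1, 0]),
      ((true, 1), [(0, 0), (5, 5), (4, 4), (3, 3), (2, 2), (1, 1)], [0, 5, 4, 3, 2, 1]),
      ((true, 2), [(1, 1), (0, 0), (5, 5), (4, 4), (3, 3), (2, 2)], [1, 0, 5, 4, 3, 2]),
      ((true, 3), [(2, 2), (1, 1), (0, 0), (5, 5), (4, 4), (3, 3)], [2, 1, 0, 5, 4, 3]),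
      ((true, 4), [(3, 3), (2, 2), (1, 1), (0, 0), (5, 5), (4, 4)], [3, 2, 1, 0, 5, 4]),
      ((true, 5), [(4, 4), (3, 3), (2, 2), (1, 1), (0, 0), (5, 5)], [4, 3, 2, 1, 0, 5])])
    (by decide +kernel)

end Pool.Agent.Lib_MP_fa6e45
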