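import Pool.Agent.Lib_MP_fa6e45.CE4

/-!
CS-ENUM, part 6: the enumeration theorem.
-/

set_option autoImplicit false

open Set MeasureTheory Complex
open scoped Topology

namespace Pool.Agent.Lib_MP_fa6e45

/-! ### the enumeration -/

theorem decT_lt (m x j : ℕ) : (decT m x).getD j 0 < 16 := by
  unfold decT
  by_cases hj : j < m
  · rw [h4_getD _ _ _ hj]
    exact Nat.mod_lt _ (by norm_num)
  · rw [List.getD_eq_default _ _ (by simpa using hj)]
    norm_num

theorem relT_wrd {m : ℕ} [NeZero m] (c t : List ℕ) (ht : ∀ j, t.getD j 0 < 16) (j k : ZMod m)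
    (b : Bool) : relT (wrdT m c t) j k b = true ↔ c.getD j.val 0 = c.getD k.val 0 ∧
      okC (t.getD j.val 0) (t.getD k.val 0) b = true := by
  unfold relT wrdT
  rw [h4_getD _ _ _ (ZMod.val_lt j), h4_getD _ _ _ (ZMod.val_lt k)]
  have h1 := ht j.val
  have h2 := ht k.val
  generalize c.getD j.val 0 = c1
  generalize c.getD k.val 0 = c2
  generalize t.getD j.val 0 = t1 at *
  generalize t.getD k.val 0 = t2 at *
  unfold okL okC
  have e1 : Nat.div (16 * c1 + t1) 16 = c1 := by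
    change (16 * c1 + t1) / 16 = c1
    omega
  have e2 : Nat.div (16 * c2 + t2) 16 = c2 := by
    change (16 * c2 + t2) / 16 = c2
    omega
  have e3 : Nat.mod (Nat.div (16 * c1 + t1) 4) 4 = t1 / 4 := by
    change (16 * c1 + t1) / 4 % 4 = t1 / 4
    omega
  have e4 : Nat.mod (16 * c1 + t1) 4 = t1 % 4 := by
    change (16 * c1 + t1) % 4 = t1 % 4
    omega
  have e5 : Nat.mod (16 * c2 + t2) 4 = t2 % 4 := by
    change (16 * c2 + t2) % 4 = t2 % 4
    omega
  rw [e1, e2, e3, e4, e5]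
  by_cases hc : c1 = c2
  · subst hc
    have e6 : Nat.beq c1 c1 = true := Nat.beq_refl c1
    rw [e6]
    simp only [cond_true, true_and]
    have e7 : inH (t1 / 4) (Nat.xor (Nat.xor (t1 % 4) (t2 % 4)) (bif b then 1 else 2)) =
        hT (t1 / 4) (((t1 % 4) ^^^ (if b then 1 else 2)) ^^^ (t2 % 4)) := by
      interval_cases t1 <;> interval_cases t2 <;> cases b <;> rfl
    rw [e7]
  · have e6 : Nat.beq c1 c2 = false := by
      cases h : Nat.beq c1 c2
      · rfl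
      · exact absurd (Nat.eq_of_beq_eq_true h) hc
    rw [e6]
    simp [hc]

theorem ce_enum {m : ℕ} [NeZero m] (pg : List (List ℕ × List ℕ)) (cs : List (List ℕ))
    (hX : (h4P m).all (h4X m cs) = true) (hY : ∀ c ∈ cs, ∃ g ∈ pg, g.1 = c ∧ ClOK m g.1 g.2)
    (hvs : ∀ (r : Bool) (s i : ZMod m), (sgS r s i).val = h4s m r s.val i.val)
    {G : ZMod m → ZMod m → Bool → Prop} (h : RelAx G) :
    ∃ w ∈ patL m pg, ∃ (r : Bool) (s : ZMod m),
      ∀ j k b, G j k b ↔ relT w (sgS r s j) (sgS r s k) b = true := by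
  classical
  have hval : ∀ j : ZMod m, ((j.val : ℕ) : ZMod m) = j := fun j => ZMod.natCast_zmod_val j
  have hlt : ∀ j : ZMod m, j.val < m := fun j => ZMod.val_lt j
  -- the classes
  have hrefl : ∀ i : ZMod m, ∃ x, RR G x i i := fun i => ⟨_, RR_one h i⟩
  have hsymm : ∀ i j : ZMod m, (∃ x, RR G x i j) → ∃ x, RR G x j i := fun i j ⟨x, hx⟩ =>
    ⟨x, RR_symm h hx⟩
  have htrans : ∀ i j k : ZMod m, (∃ x, RR G x i j) → (∃ x, RR G x j k) → ∃ x, RR G x i k :=
    fun i j k ⟨x, hx⟩ ⟨y, hy⟩ => ⟨_, RR_comp h hx hy⟩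
  have hex : ∀ j : ℕ, ∃ i : ℕ, ∃ x, RR G x (i : ZMod m) (j : ZMod m) := fun j => ⟨j, hrefl _⟩
  let f : ℕ → ℕ := fun j => Nat.find (hex j)
  have hf1 : ∀ j, f j ≤ j := fun j => Nat.find_min' (hex j) (hrefl _)
  have hf2 : ∀ j, ∃ x, RR G x (f j : ZMod m) (j : ZMod m) := fun j => Nat.find_spec (hex j)
  have hf3 : ∀ j k, f j = f k ↔ ∃ x, RR G x (j : ZMod m) (k : ZMod m) := by
    intro j k
    constructor
    · intro h1
      exact htrans _ _ _ (hsymm _ _ (hf2 j)) (by rw [h1]; exact hf2 k)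
    · intro h1
      refine le_antisymm (Nat.find_min' (hex j) ?_) (Nat.find_min' (hex k) ?_)
      · exact htrans _ _ _ (hf2 k) (hsymm _ _ h1)
      · exact htrans _ _ _ (hf2 j) h1
  have hX1 := (List.all_eq_true.1 hX) _ (h4_memP f m fun j _ => hf1 j)
  have hI : h4I m ((List.range m).map f) = true := by
    unfold h4I
    rw [List.all_eq_true]
    intro j hj
    rw [List.mem_range] at hj
    rw [h4_getD f m 0 hj, h4_getD f m 0 ((hf1 j).trans_lt hj), beq_iff_eq, hf3]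
    exact hf2 j
  unfold h4X at hX1
  rw [hI, Bool.not_true, Bool.false_or, List.any_eq_true] at hX1
  obtain ⟨⟨r1, t1⟩, hx1, hX2⟩ := hX1
  rw [List.any_eq_true] at hX2
  obtain ⟨c, hcs, hX3⟩ := hX2
  rw [Bool.and_eq_true] at hX3
  have hT1 := hX3.2
  simp only at hT1
  have hR : ∀ x ∈ h4R m, x.2 < m := by
    intro x hx
    unfold h4R at hx
    rw [List.mem_flatMap] at hx
    obtain ⟨r, -, hr⟩ := hx
    rw [List.mem_map] at hr
    obtain ⟨s, hs, he⟩ := hr
    rw [List.mem_range] at hs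
    have : s = x.2 := congrArg Prod.snd he
    omega
  have ht1 : t1 < m := hR _ hx1
  obtain ⟨s1, hs1⟩ : ∃ s1 : ZMod m, s1.val = t1 := ⟨(t1 : ZMod m), ZMod.val_cast_of_lt ht1⟩
  have hcl : ∀ j k : ZMod m, (∃ x, RR G x j k) ↔
      c.getD (sgS r1 s1 j).val 0 = c.getD (sgS r1 s1 k).val 0 := by
    intro j k
    have h1 := h4_T hT1 (hlt j) (hlt k)
    rw [h4_getD f m 0 (hlt j), h4_getD f m 0 (hlt k), hf3, hval, hval] at h1
    rw [h1, hvs, hvs, hs1]
  -- the renamed relation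
  set σ : ZMod m ≃ ZMod m := (sgE r1 s1).symm with hσ
  have hσ1 : ∀ j, σ (sgS r1 s1 j) = j := fun j => (sgE r1 s1).symm_apply_apply j
  have hσ2 : ∀ j, sgS r1 s1 (σ j) = j := fun j => (sgE r1 s1).apply_symm_apply j
  have h' := h.map σ
  have hc' : ∀ i j : ZMod m, (∃ x, RR (fun j k b => G (σ j) (σ k) b) x i j) ↔
      c.getD i.val 0 = c.getD j.val 0 := by
    intro i j
    have h1 := hcl (σ i) (σ j)
    rw [hσ2, hσ2] at h1
    rw [← h1]
    exact exists_congr fun x => RR_map σ x i j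
  obtain ⟨g, hgm, hgc, hg, hcl2⟩ := hY c hcs
  rw [hgc] at hg hcl2
  have hEl : ∀ j < m, ceE (fun j k b => G (σ j) (σ k) b) c j < 16 := by
    intro j _
    unfold ceE codR
    have h1 := tyR_lt (fun j k b => G (σ j) (σ k) b) (ceF c j : ZMod m)
    have h2 := labR_lt (fun j k b => G (σ j) (σ k) b) (ceF c j : ZMod m) (j : ZMod m)
    omega
  obtain ⟨r2, t2, ht2, hT2, X, hX5, hY6⟩ := hcl2 (ceE (fun j k b => G (σ j) (σ k) b) c) hEl
    (fun j hj => ce_mem h' hc' hg hj) (fun r hr h8 => by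
      refine ce_bal h' hc' hg hr ?_
      unfold ceE codR at h8
      have h1 := tyR_lt (fun j k b => G (σ j) (σ k) b) (ceF c r : ZMod m)
      have h2 := labR_lt (fun j k b => G (σ j) (σ k) b) (ceF c r : ZMod m) (r : ZMod m)
      omega)
  obtain ⟨s2, hs2⟩ : ∃ s2 : ZMod m, s2.val = t2 := ⟨(t2 : ZMod m), ZMod.val_cast_of_lt ht2⟩
  refine ⟨wrdT m c (decT m X), ?_, xor r1 r2, (if r2 then s2 - s1 else s1 + s2), fun j k b => ?_⟩
  · unfold patL
    rw [List.mem_flatMap]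
    refine ⟨g, hgm, ?_⟩
    rw [List.mem_map]
    exact ⟨X, hX5, by rw [hgc]⟩
  · have e1 : G j k b ↔ G (σ (sgS r1 s1 j)) (σ (sgS r1 s1 k)) b := by
      rw [hσ1, hσ1]
    refine (e1.trans (ce_iff h' hc' hg (sgS r1 s1 j) (sgS r1 s1 k) b)).trans ?_
    rw [← h4_sgS_comp, ← h4_sgS_comp]
    generalize sgS r1 s1 j = j
    generalize sgS r1 s1 k = k
    rw [relT_wrd _ _ (decT_lt m X)]
    have e2 := h4_T hT2 (hlt j) (hlt k)
    rw [← hs2, ← hvs, ← hvs] at e2
    rw [← e2]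
    refine and_congr_right fun e3 => ?_
    have e4 := ceM_spec hY6 (hlt j) (hlt k) e3 (by
      rw [h4_getD _ _ _ (hlt j), h4_getD _ _ _ (hlt k)]
      unfold ceE
      rw [codR_div, codR_div, ceF_congr e3]) b
    rw [h4_getD _ _ _ (hlt j), h4_getD _ _ _ (hlt k), ← hs2, ← hvs, ← hvs] at e4
    rw [e4]

end Pool.Agent.Lib_MP_fa6e45
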