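import Pool.Agent.Lib_MP_fa6e45.H2

/-!
PIECE H3 (about 200 lines): `Sit` for the renamed polygon. A star `c, l` for the new names gives a star for the old
names by `(i, f) ↦ (sgC⁻¹ i, f xor r)`: `enW`, `exW` are renamed by `sgS` (check: for `r = true` the corner `i` lies between
the sides `i - 1` and `i`, the corner `s - i` between `s - i - 1` and `s - i`, the flags are changed). For given `v`, `A` for
the new names apply the principle to `v ∘ sgC`, `A` renamed; the costs are equal, sums over `i` by `Equiv.sum_comp`.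
-/

open Set MeasureTheory Complex
open scoped Topology

namespace Pool.Agent.Lib_MP_fa6e45

open Pool.Agent.Lib_PL (cr InSector Poly)

variable {n : ℕ} [NeZero n]

/-- the renaming of the corners is a bijection -/
private def H3_eC (r : Bool) (s : ZMod n) : ZMod n ≃ ZMod n where
  toFun := sgC r s
  invFun := fun i => if r then s - i else i - s
  left_inv := by
    intro i
    cases r <;> simp [sgC]
  right_inv := by
    intro i
    cases r <;> simp [sgC]

private theorem H3_sgS_siS (r : Bool) (s j : ZMod n) : sgS r s (siS r s j) = j := by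
  cases r <;> simp [sgS, siS]

/-- corners with flags -/
private def H3_C (r : Bool) (s : ZMod n) (c : ZMod n × Bool) : ZMod n × Bool :=
  (sgC r s c.1, xor c.2 r)

/-- sides with flags -/
private def H3_S (r : Bool) (s : ZMod n) (c : ZMod n × Bool) : ZMod n × Bool :=
  (sgS r s c.1, xor c.2 r)

private theorem H3_en (r : Bool) (s : ZMod n) (c : ZMod n × Bool) :
    enW (H3_C r s c) = H3_S r s (enW c) := by
  obtain ⟨i, f⟩ := c
  cases r <;> cases f <;> simp [enW, H3_C, H3_S, sgC, sgS] <;> ring

private theorem H3_ex (r : Bool) (s : ZMod n) (c : ZMod n × Bool) :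
    exW (H3_C r s c) = H3_S r s (exW c) := by
  obtain ⟨i, f⟩ := c
  cases r <;> cases f <;> simp [exW, H3_C, H3_S, sgC, sgS] <;> ring

private theorem H3_cost (r : Bool) (s : ZMod n) (v : ZMod n → ℤ)
    (A : ZMod n × Bool → ZMod n × Bool → ℤ) (c d : ZMod n × Bool) :
    stepCost v A (H3_C r s c) (H3_C r s d) =
      stepCost (fun i => v (sgC r s i)) (fun x y => A (H3_S r s x) (H3_S r s y)) c d := by
  unfold stepCost
  rw [H3_ex, H3_en]
  rfl

private theorem H3_pcost (r : Bool) (s : ZMod n) (v : ZMod n → ℤ)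
    (A : ZMod n × Bool → ZMod n × Bool → ℤ) (l : List (ZMod n × Bool)) :
    ∀ c d : ZMod n × Bool,
    pcost (stepCost v A) (H3_C r s c) (l.map (H3_C r s)) (H3_C r s d) =
      pcost (stepCost (fun i => v (sgC r s i)) (fun x y => A (H3_S r s x) (H3_S r s y))) c l d := by
  induction l with
  | nil =>
    intro c d
    exact H3_cost r s v A c d
  | cons x l ih =>
    intro c d
    change stepCost v A (H3_C r s c) (H3_C r s x) + pcost (stepCost v A) (H3_C r s x)
      (l.map (H3_C r s)) (H3_C r s d) = _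
    rw [H3_cost, ih x d]
    rfl

private theorem H3_pth {cls cls' : ZMod n → ℕ} (r : Bool) (s : ZMod n)
    (hcl : ∀ j k, cls j = cls k ↔ cls' (sgS r s j) = cls' (sgS r s k))
    (l : List (ZMod n × Bool)) :
    ∀ c d : ZMod n × Bool, Pth (StepG (GC cls)) c l d →
      Pth (StepG (GC cls')) (H3_C r s c) (l.map (H3_C r s)) (H3_C r s d) := by
  have hstep : ∀ c d : ZMod n × Bool, StepG (GC cls) c d →
      StepG (GC cls') (H3_C r s c) (H3_C r s d) := by
    intro c d h
    unfold StepG GC at h ⊢
    rw [H3_ex, H3_en]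
    exact (hcl _ _).1 h
  induction l with
  | nil =>
    intro c d h
    exact hstep c d h
  | cons x l ih =>
    intro c d h
    exact ⟨hstep c x h.1, ih x d h.2⟩

private theorem H3_star {cls cls' : ZMod n → ℕ} {two two' : ZMod n → ZMod n → Prop}
    {a a' : ZMod n → ℝ} (r : Bool) (s : ZMod n)
    (hcl : ∀ j k, cls j = cls k ↔ cls' (sgS r s j) = cls' (sgS r s k))
    (htwo : ∀ i j, two i j → two' (sgC r s i) (sgC r s j))
    (ha : ∀ i, a' (sgC r s i) = a i) {c : ZMod n × Bool} {l : List (ZMod n × Bool)}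
    (h : StarS two a cls c l) : StarS two' a' cls' (H3_C r s c) (l.map (H3_C r s)) := by
  obtain ⟨h1, h2, h3⟩ := h
  refine ⟨H3_pth r s hcl l c c h1, ?_, ?_⟩
  · rw [List.map_map]
    have h4 : ((fun x : ZMod n × Bool => a' x.1) ∘ H3_C r s) = fun x => a x.1 := by
      funext x
      exact ha x.1
    rw [h4]
    change a' (sgC r s c.1) + _ = 2
    rw [ha]
    exact h2
  · rcases h3 with h3 | ⟨d, h4, h5⟩
    · left
      rw [List.length_map]
      exact h3
    · right
      refine ⟨H3_C r s d, ?_, htwo _ _ h5⟩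
      rw [h4]
      rfl

private theorem H3_rel1 {cls cls' : ZMod n → ℕ} {act act' : List (ℕ × ℕ)} {r : Bool} {s : ZMod n}
    (hr : relB cls act cls' act' r s = true) (j k : ZMod n) :
    cls j = cls k ↔ cls' (sgS r s j) = cls' (sgS r s k) := by
  unfold relB at hr
  rw [Bool.and_eq_true] at hr
  have h1 := (List.all_eq_true.1 hr.1) j.val (List.mem_range.2 j.val_lt)
  have h2 := (List.all_eq_true.1 h1) k.val (List.mem_range.2 k.val_lt)
  rw [ZMod.natCast_zmod_val, ZMod.natCast_zmod_val] at h2
  rw [beq_iff_eq] at h2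
  constructor
  · intro h
    rw [h, beq_self_eq_true] at h2
    exact beq_iff_eq.1 h2.symm
  · intro h
    rw [h, beq_self_eq_true] at h2
    exact beq_iff_eq.1 h2

private theorem H3_rel2 {cls cls' : ZMod n → ℕ} {act act' : List (ℕ × ℕ)} {r : Bool} {s : ZMod n}
    (hr : relB cls act cls' act' r s = true) (i j : ZMod n) :
    actB act i.val j.val = actB act' (sgC r s i).val (sgC r s j).val := by
  unfold relB at hr
  rw [Bool.and_eq_true] at hr
  have h1 := (List.all_eq_true.1 hr.2) i.val (List.mem_range.2 i.val_lt)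
  have h2 := (List.all_eq_true.1 h1) j.val (List.mem_range.2 j.val_lt)
  rw [ZMod.natCast_zmod_val, ZMod.natCast_zmod_val] at h2
  rw [beq_iff_eq] at h2
  exact h2

theorem sit_dih {cls cls' : ZMod n → ℕ} {act act' : List (ℕ × ℕ)} {P : Polygon n}
    (h : Sit cls act P) (r : Bool) (s : ZMod n) (hr : relB cls act cls' act' r s = true) :
    Sit cls' act' (P.dih r s) := by
  have hcl := H3_rel1 hr
  have hac := H3_rel2 hr
  have hsum : ∀ v : ZMod n → ℤ, ∑ i, v (sgC r s i) = ∑ i, v i := fun v =>
    Equiv.sum_comp (H3_eC r s) v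
  have hsurj : ∀ i : ZMod n, ∃ j, sgC r s j = i := (H3_eC r s).surjective
  have ha : ∀ i, (P.dih r s).ang (sgC r s i) / Real.pi = P.ang i / Real.pi := by
    intro i
    rw [P.dih_ang]
  refine ⟨P.dih_ccw r s h.ccw, ?_, ?_, ?_, ?_⟩
  · intro j k
    have h1 := h.len (siS r s j) (siS r s k)
    rw [hcl, H3_sgS_siS, H3_sgS_siS, ← P.dih_len r s (siS r s j), ← P.dih_len r s (siS r s k),
      H3_sgS_siS, H3_sgS_siS] at h1
    exact h1
  · intro v A hA L hL
    obtain ⟨c, l, h1, h2⟩ := h.lp1 (fun i => v (sgC r s i))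
      (fun x y => A (H3_S r s x) (H3_S r s y)) (fun x y => hA _ _) L (by rw [hsum]; exact hL)
    refine ⟨H3_C r s c, l.map (H3_C r s), ?_, ?_⟩
    · exact H3_star r s hcl (fun i j hij => by rw [← hac]; exact hij) ha h1
    · rw [H3_pcost]
      exact h2
  · intro i j hij v A hA L hL
    obtain ⟨i, rfl⟩ := hsurj i
    obtain ⟨j, rfl⟩ := hsurj j
    rw [← hac] at hij
    obtain ⟨c, l, h1, h2⟩ := h.lp2 i j hij (fun i => v (sgC r s i))
      (fun x y => A (H3_S r s x) (H3_S r s y)) (fun x y => hA _ _) L (by rw [hsum]; exact hL)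
    refine ⟨H3_C r s c, l.map (H3_C r s), ?_, ?_⟩
    · exact H3_star r s hcl (fun i j hij => by rw [← hac]; exact hij) ha h1
    · rw [H3_pcost]
      rcases h2 with h2 | ⟨⟨d, hd, h3⟩, h4⟩
      · exact Or.inl h2
      · refine Or.inr ⟨⟨H3_C r s d, by rw [hd]; rfl, ?_⟩, h4⟩
        rcases h3 with ⟨h3, h5⟩ | ⟨h3, h5⟩
        · left
          exact ⟨congrArg (sgC r s) h3, congrArg (sgC r s) h5⟩
        · right
          exact ⟨congrArg (sgC r s) h3, congrArg (sgC r s) h5⟩
  · intro i j hij
    obtain ⟨i, rfl⟩ := hsurj i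
    obtain ⟨j, rfl⟩ := hsurj j
    rw [← hac] at hij
    rw [ha, ha]
    exact h.sum i j hij

end Pool.Agent.Lib_MP_fa6e45
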