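import Pool.Agent.Lib_MP_fa6e45.H1
import Pool.Agent.Lib_MP_fa6e45.H3

/-!
MP_fa6e45_co, stage 4: the patterns (classes of equal sides, active pairs) for pentagons and hexagons, up to
symmetry (captain, generated).
-/

namespace Pool.Agent.Lib_MP_fa6e45

/-- classes given by a list -/
def pcls {n : ℕ} (c : List ℕ) (i : ZMod n) : ℕ := c.getD i.val 0

/-- patterns for `n = 5` -/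
def pat5 : List (List ℕ × List (ℕ × ℕ)) :=
  [([0, 1, 2, 3, 4], []),
    ([0, 0, 1, 2, 3], []),
    ([0, 1, 0, 2, 3], []),
    ([0, 1, 0, 2, 3], [(1, 2)]),
    ([0, 0, 0, 1, 2], []),
    ([0, 0, 0, 1, 2], [(1, 2)]),
    ([0, 0, 1, 0, 2], []),
    ([0, 0, 1, 0, 2], [(0, 4)]),
    ([0, 0, 1, 1, 2], []),
    ([0, 0, 1, 2, 1], []),
    ([0, 0, 1, 2, 1], [(0, 2)]),
    ([0, 0, 1, 2, 1], [(3, 4)]),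
    ([0, 1, 0, 1, 2], []),
    ([0, 1, 0, 1, 2], [(1, 2)]),
    ([0, 1, 0, 1, 2], [(1, 2), (1, 3)]),
    ([0, 1, 0, 1, 2], [(1, 2), (2, 3)]),
    ([0, 1, 0, 1, 2], [(1, 3)]),
    ([0, 0, 0, 0, 1], []),
    ([0, 0, 0, 0, 1], [(0, 4)]),
    ([0, 0, 0, 0, 1], [(1, 2)]),
    ([0, 0, 0, 0, 1], [(1, 2), (1, 3)]),
    ([0, 0, 0, 0, 1], [(1, 2), (2, 3)]),
    ([0, 0, 0, 0, 1], [(1, 3)]),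
    ([0, 0, 0, 1, 1], []),
    ([0, 0, 0, 1, 1], [(0, 3)]),
    ([0, 0, 0, 1, 1], [(1, 2)]),
    ([0, 0, 1, 0, 1], []),
    ([0, 0, 1, 0, 1], [(0, 2)]),
    ([0, 0, 1, 0, 1], [(0, 2), (0, 3)]),
    ([0, 0, 1, 0, 1], [(0, 2), (0, 3), (0, 4)]),
    ([0, 0, 1, 0, 1], [(0, 2), (0, 4)]),
    ([0, 0, 1, 0, 1], [(0, 3)]),
    ([0, 0, 1, 0, 1], [(0, 3), (0, 4)]),
    ([0, 0, 1, 0, 1], [(0, 3), (2, 3)]),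
    ([0, 0, 1, 0, 1], [(0, 3), (2, 3), (3, 4)]),
    ([0, 0, 1, 0, 1], [(0, 3), (3, 4)]),
    ([0, 0, 1, 0, 1], [(0, 4)]),
    ([0, 0, 1, 0, 1], [(0, 4), (3, 4)]),
    ([0, 0, 1, 0, 1], [(3, 4)]),
    ([0, 0, 0, 0, 0], []),
    ([0, 0, 0, 0, 0], [(0, 1)]),
    ([0, 0, 0, 0, 0], [(0, 1), (0, 2)]),
    ([0, 0, 0, 0, 0], [(0, 1), (0, 2), (0, 3)]),
    ([0, 0, 0, 0, 0], [(0, 1), (0, 2), (0, 3), (0, 4)]),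
    ([0, 0, 0, 0, 0], [(0, 1), (0, 2), (0, 4)]),
    ([0, 0, 0, 0, 0], [(0, 1), (0, 3)]),
    ([0, 0, 0, 0, 0], [(0, 1), (0, 4)]),
    ([0, 0, 0, 0, 0], [(0, 2)]),
    ([0, 0, 0, 0, 0], [(0, 2), (0, 3)])]

/-- patterns for `n = 6` -/
def pat6 : List (List ℕ × List (ℕ × ℕ)) :=
  [([0, 1, 2, 3, 4, 5], []),
    ([0, 0, 1, 2, 3, 4], []),
    ([0, 1, 0, 2, 3, 4], []),
    ([0, 1, 0, 2, 3, 4], [(1, 2)]),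
    ([0, 1, 2, 0, 3, 4], []),
    ([0, 0, 0, 1, 2, 3], []),
    ([0, 0, 0, 1, 2, 3], [(1, 2)]),
    ([0, 0, 1, 0, 2, 3], []),
    ([0, 0, 1, 0, 2, 3], [(2, 3)]),
    ([0, 0, 1, 1, 2, 3], []),
    ([0, 0, 1, 2, 1, 3], []),
    ([0, 0, 1, 2, 1, 3], [(3, 4)]),
    ([0, 0, 1, 2, 2, 3], []),
    ([0, 0, 1, 2, 3, 1], []),
    ([0, 0, 1, 2, 3, 1], [(0, 2)]),
    ([0, 1, 0, 1, 2, 3], []),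
    ([0, 1, 0, 1, 2, 3], [(1, 2)]),
    ([0, 1, 0, 1, 2, 3], [(1, 2), (1, 3)]),
    ([0, 1, 0, 1, 2, 3], [(1, 2), (2, 3)]),
    ([0, 1, 0, 1, 2, 3], [(1, 3)]),
    ([0, 1, 0, 2, 0, 3], []),
    ([0, 1, 0, 2, 0, 3], [(0, 5)]),
    ([0, 1, 0, 2, 1, 3], []),
    ([0, 1, 0, 2, 1, 3], [(1, 2)]),
    ([0, 1, 0, 2, 3, 2], []),
    ([0, 1, 0, 2, 3, 2], [(0, 3)]),
    ([0, 1, 0, 2, 3, 2], [(1, 2)]),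
    ([0, 1, 2, 0, 1, 3], []),
    ([0, 1, 2, 0, 1, 3], [(1, 4)]),
    ([0, 0, 0, 0, 1, 2], []),
    ([0, 0, 0, 0, 1, 2], [(1, 2)]),
    ([0, 0, 0, 0, 1, 2], [(1, 2), (1, 3)]),
    ([0, 0, 0, 0, 1, 2], [(1, 2), (2, 3)]),
    ([0, 0, 0, 0, 1, 2], [(1, 3)]),
    ([0, 0, 0, 1, 0, 2], []),
    ([0, 0, 0, 1, 0, 2], [(0, 5)]),
    ([0, 0, 0, 1, 0, 2], [(1, 2)]),
    ([0, 0, 0, 1, 1, 2], []),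
    ([0, 0, 0, 1, 1, 2], [(1, 2)]),
    ([0, 0, 0, 1, 2, 1], []),
    ([0, 0, 0, 1, 2, 1], [(0, 3)]),
    ([0, 0, 0, 1, 2, 1], [(1, 2)]),
    ([0, 0, 0, 1, 2, 1], [(4, 5)]),
    ([0, 0, 1, 0, 0, 2], []),
    ([0, 0, 1, 0, 0, 2], [(0, 5)]),
    ([0, 0, 1, 0, 0, 2], [(1, 4)]),
    ([0, 0, 1, 0, 1, 2], []),
    ([0, 0, 1, 0, 1, 2], [(2, 3)]),
    ([0, 0, 1, 0, 1, 2], [(2, 3), (2, 4)]),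
    ([0, 0, 1, 0, 1, 2], [(2, 3), (3, 4)]),
    ([0, 0, 1, 0, 1, 2], [(2, 4)]),
    ([0, 0, 1, 0, 1, 2], [(2, 4), (3, 4)]),
    ([0, 0, 1, 0, 1, 2], [(3, 4)]),
    ([0, 0, 1, 0, 2, 1], []),
    ([0, 0, 1, 0, 2, 1], [(0, 2)]),
    ([0, 0, 1, 0, 2, 1], [(0, 2), (0, 3)]),
    ([0, 0, 1, 0, 2, 1], [(0, 2), (2, 3)]),
    ([0, 0, 1, 0, 2, 1], [(0, 3)]),
    ([0, 0, 1, 0, 2, 1], [(0, 3), (2, 3)]),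
    ([0, 0, 1, 0, 2, 1], [(2, 3)]),
    ([0, 0, 1, 0, 2, 2], []),
    ([0, 0, 1, 0, 2, 2], [(0, 4)]),
    ([0, 0, 1, 0, 2, 2], [(2, 3)]),
    ([0, 0, 1, 1, 2, 2], []),
    ([0, 0, 1, 2, 1, 2], []),
    ([0, 0, 1, 2, 1, 2], [(3, 4)]),
    ([0, 0, 1, 2, 1, 2], [(3, 4), (3, 5)]),
    ([0, 0, 1, 2, 1, 2], [(3, 4), (4, 5)]),
    ([0, 0, 1, 2, 1, 2], [(3, 5)]),
    ([0, 0, 1, 2, 2, 1], []),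
    ([0, 0, 1, 2, 2, 1], [(0, 2)]),
    ([0, 1, 0, 1, 0, 2], []),
    ([0, 1, 0, 1, 0, 2], [(0, 5)]),
    ([0, 1, 0, 1, 0, 2], [(1, 2)]),
    ([0, 1, 0, 1, 0, 2], [(1, 2), (1, 3)]),
    ([0, 1, 0, 1, 0, 2], [(1, 2), (1, 3), (1, 4)]),
    ([0, 1, 0, 1, 0, 2], [(1, 2), (1, 4)]),
    ([0, 1, 0, 1, 0, 2], [(1, 2), (2, 3)]),
    ([0, 1, 0, 1, 0, 2], [(1, 2), (2, 3), (2, 4)]),
    ([0, 1, 0, 1, 0, 2], [(1, 2), (2, 4)]),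
    ([0, 1, 0, 1, 0, 2], [(1, 3)]),
    ([0, 1, 0, 1, 0, 2], [(1, 3), (1, 4)]),
    ([0, 1, 0, 1, 0, 2], [(1, 3), (2, 3)]),
    ([0, 1, 0, 1, 0, 2], [(1, 4)]),
    ([0, 1, 0, 1, 0, 2], [(2, 3)]),
    ([0, 1, 0, 2, 1, 2], []),
    ([0, 1, 0, 2, 1, 2], [(0, 3)]),
    ([0, 1, 0, 2, 1, 2], [(1, 2)]),
    ([0, 1, 2, 0, 1, 2], []),
    ([0, 1, 2, 0, 1, 2], [(0, 3)]),
    ([0, 0, 0, 0, 0, 1], []),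
    ([0, 0, 0, 0, 0, 1], [(0, 5)]),
    ([0, 0, 0, 0, 0, 1], [(1, 2)]),
    ([0, 0, 0, 0, 0, 1], [(1, 2), (1, 3)]),
    ([0, 0, 0, 0, 0, 1], [(1, 2), (1, 3), (1, 4)]),
    ([0, 0, 0, 0, 0, 1], [(1, 2), (1, 4)]),
    ([0, 0, 0, 0, 0, 1], [(1, 2), (2, 3)]),
    ([0, 0, 0, 0, 0, 1], [(1, 2), (2, 3), (2, 4)]),
    ([0, 0, 0, 0, 0, 1], [(1, 2), (2, 4)]),
    ([0, 0, 0, 0, 0, 1], [(1, 3)]),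
    ([0, 0, 0, 0, 0, 1], [(1, 3), (1, 4)]),
    ([0, 0, 0, 0, 0, 1], [(1, 3), (2, 3)]),
    ([0, 0, 0, 0, 0, 1], [(1, 4)]),
    ([0, 0, 0, 0, 0, 1], [(2, 3)]),
    ([0, 0, 0, 0, 1, 1], []),
    ([0, 0, 0, 0, 1, 1], [(0, 4)]),
    ([0, 0, 0, 0, 1, 1], [(1, 2)]),
    ([0, 0, 0, 0, 1, 1], [(1, 2), (1, 3)]),
    ([0, 0, 0, 0, 1, 1], [(1, 2), (2, 3)]),
    ([0, 0, 0, 0, 1, 1], [(1, 3)]),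
    ([0, 0, 0, 1, 0, 1], []),
    ([0, 0, 0, 1, 0, 1], [(0, 3)]),
    ([0, 0, 0, 1, 0, 1], [(0, 3), (0, 4)]),
    ([0, 0, 0, 1, 0, 1], [(0, 3), (0, 4), (0, 5)]),
    ([0, 0, 0, 1, 0, 1], [(0, 3), (0, 5)]),
    ([0, 0, 0, 1, 0, 1], [(0, 4)]),
    ([0, 0, 0, 1, 0, 1], [(0, 4), (0, 5)]),
    ([0, 0, 0, 1, 0, 1], [(0, 4), (3, 4)]),
    ([0, 0, 0, 1, 0, 1], [(0, 4), (3, 4), (4, 5)]),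
    ([0, 0, 0, 1, 0, 1], [(0, 4), (4, 5)]),
    ([0, 0, 0, 1, 0, 1], [(0, 5)]),
    ([0, 0, 0, 1, 0, 1], [(0, 5), (4, 5)]),
    ([0, 0, 0, 1, 0, 1], [(1, 2)]),
    ([0, 0, 0, 1, 0, 1], [(4, 5)]),
    ([0, 0, 0, 1, 1, 1], []),
    ([0, 0, 0, 1, 1, 1], [(0, 3)]),
    ([0, 0, 0, 1, 1, 1], [(1, 2)]),
    ([0, 0, 1, 0, 0, 1], []),
    ([0, 0, 1, 0, 0, 1], [(0, 2)]),
    ([0, 0, 1, 0, 0, 1], [(0, 2), (0, 3)]),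
    ([0, 0, 1, 0, 0, 1], [(0, 2), (0, 3), (0, 5)]),
    ([0, 0, 1, 0, 0, 1], [(0, 2), (0, 5)]),
    ([0, 0, 1, 0, 0, 1], [(0, 3)]),
    ([0, 0, 1, 0, 0, 1], [(0, 3), (0, 5)]),
    ([0, 0, 1, 0, 0, 1], [(0, 5)]),
    ([0, 0, 1, 0, 0, 1], [(1, 4)]),
    ([0, 0, 1, 0, 1, 1], []),
    ([0, 0, 1, 0, 1, 1], [(0, 2)]),
    ([0, 0, 1, 0, 1, 1], [(0, 2), (0, 3)]),
    ([0, 0, 1, 0, 1, 1], [(0, 2), (0, 3), (0, 4)]),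
    ([0, 0, 1, 0, 1, 1], [(0, 2), (0, 4)]),
    ([0, 0, 1, 0, 1, 1], [(0, 2), (2, 3)]),
    ([0, 0, 1, 0, 1, 1], [(0, 2), (2, 3), (2, 4)]),
    ([0, 0, 1, 0, 1, 1], [(0, 2), (2, 4)]),
    ([0, 0, 1, 0, 1, 1], [(0, 3)]),
    ([0, 0, 1, 0, 1, 1], [(0, 3), (2, 3)]),
    ([0, 0, 1, 0, 1, 1], [(0, 3), (2, 3), (3, 4)]),
    ([0, 0, 1, 0, 1, 1], [(2, 3)]),
    ([0, 0, 1, 0, 1, 1], [(2, 3), (2, 4)]),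
    ([0, 0, 1, 0, 1, 1], [(2, 3), (3, 4)]),
    ([0, 0, 1, 0, 1, 1], [(2, 4)]),
    ([0, 1, 0, 1, 0, 1], []),
    ([0, 1, 0, 1, 0, 1], [(0, 1)]),
    ([0, 1, 0, 1, 0, 1], [(0, 1), (0, 2)]),
    ([0, 1, 0, 1, 0, 1], [(0, 1), (0, 2), (0, 3)]),
    ([0, 1, 0, 1, 0, 1], [(0, 1), (0, 2), (0, 3), (0, 4)]),
    ([0, 1, 0, 1, 0, 1], [(0, 1), (0, 2), (0, 3), (0, 4), (0, 5)]),
    ([0, 1, 0, 1, 0, 1], [(0, 1), (0, 2), (0, 3), (0, 5)]),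
    ([0, 1, 0, 1, 0, 1], [(0, 1), (0, 2), (0, 4)]),
    ([0, 1, 0, 1, 0, 1], [(0, 1), (0, 2), (0, 4), (0, 5)]),
    ([0, 1, 0, 1, 0, 1], [(0, 1), (0, 2), (0, 5)]),
    ([0, 1, 0, 1, 0, 1], [(0, 1), (0, 3)]),
    ([0, 1, 0, 1, 0, 1], [(0, 1), (0, 3), (0, 4)]),
    ([0, 1, 0, 1, 0, 1], [(0, 1), (0, 3), (0, 5)]),
    ([0, 1, 0, 1, 0, 1], [(0, 1), (0, 4)]),
    ([0, 1, 0, 1, 0, 1], [(0, 1), (0, 5)]),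
    ([0, 1, 0, 1, 0, 1], [(0, 2)]),
    ([0, 1, 0, 1, 0, 1], [(0, 2), (0, 3)]),
    ([0, 1, 0, 1, 0, 1], [(0, 2), (0, 3), (0, 4)]),
    ([0, 1, 0, 1, 0, 1], [(0, 2), (0, 4)]),
    ([0, 1, 0, 1, 0, 1], [(0, 3)]),
    ([0, 0, 0, 0, 0, 0], []),
    ([0, 0, 0, 0, 0, 0], [(0, 1)]),
    ([0, 0, 0, 0, 0, 0], [(0, 1), (0, 2)]),
    ([0, 0, 0, 0, 0, 0], [(0, 1), (0, 2), (0, 3)]),
    ([0, 0, 0, 0, 0, 0], [(0, 1), (0, 2), (0, 3), (0, 4)]),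
    ([0, 0, 0, 0, 0, 0], [(0, 1), (0, 2), (0, 3), (0, 4), (0, 5)]),
    ([0, 0, 0, 0, 0, 0], [(0, 1), (0, 2), (0, 3), (0, 5)]),
    ([0, 0, 0, 0, 0, 0], [(0, 1), (0, 2), (0, 4)]),
    ([0, 0, 0, 0, 0, 0], [(0, 1), (0, 2), (0, 4), (0, 5)]),
    ([0, 0, 0, 0, 0, 0], [(0, 1), (0, 2), (0, 5)]),
    ([0, 0, 0, 0, 0, 0], [(0, 1), (0, 3)]),
    ([0, 0, 0, 0, 0, 0], [(0, 1), (0, 3), (0, 4)]),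
    ([0, 0, 0, 0, 0, 0], [(0, 1), (0, 3), (0, 5)]),
    ([0, 0, 0, 0, 0, 0], [(0, 1), (0, 4)]),
    ([0, 0, 0, 0, 0, 0], [(0, 1), (0, 5)]),
    ([0, 0, 0, 0, 0, 0], [(0, 2)]),
    ([0, 0, 0, 0, 0, 0], [(0, 2), (0, 3)]),
    ([0, 0, 0, 0, 0, 0], [(0, 2), (0, 3), (0, 4)]),
    ([0, 0, 0, 0, 0, 0], [(0, 2), (0, 4)]),
    ([0, 0, 0, 0, 0, 0], [(0, 3)])]

end Pool.Agent.Lib_MP_fa6e45
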