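import Pool.Agent.Lib_MP_fa6e45.HC0

/-!
MP_fa6e45_co, stage 4: a fast version of the checker (definitions). All numbers of the linear programming nodes are
natural numbers, the recursions are written with the recursors.
-/

namespace Pool.Agent.Lib_MP_fa6e45

/-- element number `i` of the list -/
noncomputable def nthF {α : Type} (d : α) (l : List α) : ℕ → α :=
  List.rec (motive := fun _ => ℕ → α) (fun _ => d)
    (fun x _ ih i => Nat.rec (motive := fun _ => α) x (fun j _ => ih j) i) l

/-- all elements -/
noncomputable def allF {α : Type} (g : α → Bool) (l : List α) : Bool :=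
  List.rec (motive := fun _ => Bool) true (fun x _ ih => bif g x then ih else false) l

/-- some element -/
noncomputable def anyF {α : Type} (g : α → Bool) (l : List α) : Bool :=
  List.rec (motive := fun _ => Bool) false (fun x _ ih => bif g x then true else ih) l

/-- all entries `(y, w)` of a row (sorted by `w`) with `s + w < LL` -/
noncomputable def rowF (LL s : ℕ) (g : ℕ → ℕ → Bool) (l : List (ℕ × ℕ)) : Bool :=
  List.rec (motive := fun _ => Bool) true
    (fun x _ ih => bif Nat.ble LL (Nat.add s x.2) then true else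
      bif g x.1 (Nat.add s x.2) then ih else false) l

/-- the row is sorted, all costs are at least `b` -/
noncomputable def srtF (l : List (ℕ × ℕ)) : ℕ → Bool :=
  List.rec (motive := fun _ => ℕ → Bool) (fun _ => true)
    (fun x _ ih b => bif Nat.ble b x.2 then ih x.2 else false) l

/-- evaluate the argument first -/
noncomputable def forceF (f : ℕ → Bool) (t : ℕ) : Bool :=
  Nat.rec (motive := fun _ => Bool) (f 0) (fun n _ => f (Nat.succ n)) t

/-- all closed walks from `c0` (through corners with codes `≥ c0`) with cost `< LL` are accepted; `cnt` is the sum of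
`16 ^ i` over the corners `i` of the path, `len` its length -/
noncomputable def dfsF (rows : List (List (ℕ × ℕ))) (LL : ℕ) (acc : ℕ → ℕ → ℕ → Bool) (c0 : ℕ)
    (fuel : ℕ) : ℕ → ℕ → ℕ → ℕ → Bool :=
  Nat.rec (motive := fun _ => ℕ → ℕ → ℕ → ℕ → Bool) (fun _ _ _ _ => false)
    (fun _ ih cur s cnt len => rowF LL s (fun y t =>
      bif (bif Nat.beq y c0 then acc cnt len t else true) then
        (bif Nat.ble c0 y then ih y t (Nat.add cnt (Nat.pow 16 (Nat.div y 2))) (Nat.succ len)
          else true) else false) (nthF [] rows cur)) fuel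

/-- a closed path with the numbers of corners `cnt`, length `len`, cost `t` is accepted -/
noncomputable def accF (actN : List ℕ) (t0 : ℕ) (L : ℕ) (cvN : List ℕ) (cnt len t : ℕ) : Bool :=
  bif Nat.ble len 1 then true else
    bif (bif Nat.beq len 2 then !(anyF (Nat.beq cnt) actN) else false) then true else
      bif anyF (Nat.beq cnt) cvN then true else
        bif Nat.ble L t then !(bif Nat.beq len 2 then Nat.beq cnt t0 else false) else false

/-- code of the exit side -/
def exF (m c : ℕ) : ℕ :=
  bif Nat.beq (Nat.mod c 2) 0 then Nat.mul 2 (Nat.mod (Nat.add (Nat.div c 2) (Nat.pred m)) m) else c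

/-- code of the entry side -/
def enF (m d : ℕ) : ℕ :=
  bif Nat.beq (Nat.mod d 2) 0 then d else
    Nat.succ (Nat.mul 2 (Nat.mod (Nat.add (Nat.div d 2) (Nat.pred m)) m))

/-- one step is correctly described by the table of the rows -/
noncomputable def stepF (m : ℕ) (cl v φ : List ℕ) (V0 : ℕ) (Am : List (List ℕ)) (LL : ℕ)
    (rows : List (List (ℕ × ℕ))) (c d : ℕ) : Bool :=
  bif Nat.beq (nthF 0 cl (Nat.div (exF m c) 2)) (nthF 0 cl (Nat.div (enF m d) 2)) then
    (fun lhs rhs => bif Nat.ble lhs rhs then
      (bif Nat.ble (Nat.add LL lhs) rhs then true else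
        anyF (fun e => bif Nat.beq e.1 d then Nat.ble (Nat.add e.2 lhs) rhs else false)
          (nthF [] rows c)) else false)
      (Nat.add (Nat.add (nthF 0 φ d) (nthF 0 (nthF [] Am (enF m d)) (exF m c))) V0)
      (Nat.add (Nat.add (nthF 0 v (Nat.div c 2)) (nthF 0 φ c)) (nthF 0 (nthF [] Am (exF m c)) (enF m d)))
  else true

/-- number coding the numbers of corners -/
noncomputable def encF (cv : List ℕ) : ℕ :=
  List.rec (motive := fun _ => ℕ) 0 (fun x _ ih => Nat.add x (Nat.mul 16 ih)) cv

/-- the node is correct; `t0` is `0` or the code of an active pair -/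
noncomputable def lpF (m : ℕ) (cl : List ℕ) (actN : List ℕ) (t0 : ℕ) (v φ : List ℕ) (V0 : ℕ)
    (Am : List (List ℕ)) (L fuel : ℕ) (rows : List (List (ℕ × ℕ))) (cvs : List (List ℕ)) : Bool :=
  (bif Nat.beq t0 0 then
      Nat.blt (Nat.mul 2 v.sum) (Nat.add (Nat.mul (Nat.sub m 2) L) (Nat.mul (Nat.mul 2 m) V0))
    else (bif anyF (Nat.beq t0) actN then
      Nat.ble (Nat.mul 2 v.sum) (Nat.add (Nat.mul (Nat.sub m 2) L) (Nat.mul (Nat.mul 2 m) V0))
      else false)) &&
  Nat.ble fuel 15 && Nat.beq v.length m &&
  (allF (fun r => srtF r 0) rows) &&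
  (allF (fun cv => bif Nat.beq cv.length m then allF (fun x => Nat.ble x 15) cv else false) cvs) &&
  (allF (fun c => allF (stepF m cl v φ V0 Am (bif Nat.beq t0 0 then L else Nat.succ L) rows c)
    (List.range (2 * m))) (List.range (2 * m))) &&
  allF (fun c => dfsF rows (bif Nat.beq t0 0 then L else Nat.succ L)
    (accF actN t0 L (cvs.map encF)) c fuel c 0 (Nat.pow 16 (Nat.div c 2)) 1) (List.range (2 * m))

/-- codes of the active pairs -/
def actF (act : List (ℕ × ℕ)) : List ℕ := act.map fun p => Nat.add (Nat.pow 16 p.1) (Nat.pow 16 p.2)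

/-- child of a linear programming node: contradiction, or a reference to an earlier node, up to the symmetry
number `g` -/
inductive HCf
  | contra (ls : List ℤ)
  | ref (idx g : ℕ) (cs : List (ℤ × List ℤ))

/-- nodes -/
inductive HM
  | base (N : HN)
  | lp (t0 : ℕ) (v φ : List ℕ) (V0 : ℕ) (Am : List (List ℕ)) (L fuel : ℕ)
      (rows : List (List (ℕ × ℕ))) (cvs : List (List ℕ)) (ch : List HCf)

/-- the symmetries are correct -/
def symF {m : ℕ} (cls : ZMod m → ℕ) (act : List (ℕ × ℕ)) (sy : List (Bool × ℕ × List ℕ)) : Bool :=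
  sy.all fun g => relB cls act cls act g.1 (g.2.1 : ZMod m) &&
    (List.range m).all fun x => g.2.2.getD x 0 == (sgC g.1 (g.2.1 : ZMod m) (x : ZMod m)).val

/-- check of the children of a linear programming node -/
noncomputable def chF (m : ℕ) (sy : List (Bool × ℕ × List ℕ)) (D : ℕ → List Eqn) (i : ℕ)
    (eqs : List Eqn) : List (List ℕ) → List HCf → Bool
  | [], [] => true
  | cv :: cvs, c :: cs =>
      (match c with
        | HCf.contra ls => contraB m ((cv.map fun x => (x : ℤ), 2) :: eqs) ls
        | HCf.ref idx g ds => Nat.blt idx i && Nat.blt g sy.length &&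
            derG m ((cv.map fun x => (x : ℤ), 2) :: eqs)
              (fun x => nthF 0 (nthF (false, 0, []) sy g).2.2 x) (D idx) ds) &&
      chF m sy D i eqs cvs cs
  | _, _ => false

/-- check of node `i` -/
noncomputable def chkM {m : ℕ} (cl : List ℕ) (act : List (ℕ × ℕ)) (sp : List SpT)
    (sy : List (Bool × ℕ × List ℕ)) (cls : ZMod m → ℕ) (D : ℕ → List Eqn) (i : ℕ) (N : HM) : Bool :=
  match N with
    | HM.base N => chkN cls act sp [D i] 0 N
    | HM.lp t0 v φ V0 Am L fuel rows cvs ch =>
        lpF m cl (actF act) t0 v φ V0 Am L fuel rows cvs && chF m sy D i (D i ++ eqs0 m act) cvs ch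

/-- lookup in blocks of 12 elements -/
noncomputable def blkF {α : Type} (d : α) (l : List (List α)) (i : ℕ) : α :=
  nthF d (nthF [] l (Nat.div i 12)) (Nat.mod i 12)

/-- the nodes of block `b` (with the numbers `12 b`, ..., `12 b + 11`, less than `N`) are correct -/
noncomputable def blkB {m : ℕ} (cl : List ℕ) (act : List (ℕ × ℕ)) (sp : List SpT)
    (sy : List (Bool × ℕ × List ℕ)) (cls : ZMod m → ℕ) (D : List (List (List Eqn))) (N b : ℕ)
    (Ns : List HM) : Bool :=
  allF (fun j => bif Nat.ble N (Nat.add (Nat.mul 12 b) j) then true else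
    chkM cl act sp sy cls (blkF [] D) (Nat.add (Nat.mul 12 b) j)
      (nthF (HM.base (HN.spec 0 true 0 [])) Ns j)) (List.range 12)

end Pool.Agent.Lib_MP_fa6e45
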