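import Pool.Agent.Lib_MP_fa6e45.HQ0
import Pool.Agent.Lib_MP_fa6e45.HF0
import Pool.Agent.Lib_MP_fa6e45.H4a

/-!
MP_fa6e45_co, stage 4: certificates (captain, generated by a program).
-/

namespace Pool.Agent.Lib_MP_fa6e45

noncomputable def k0 : ℕ := nat_lit 0
noncomputable def k1 : ℕ := nat_lit 1
noncomputable def k2 : ℕ := nat_lit 2
noncomputable def k3 : ℕ := nat_lit 3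
noncomputable def k4 : ℕ := nat_lit 4
noncomputable def k5 : ℕ := nat_lit 5
noncomputable def k6 : ℕ := nat_lit 6
noncomputable def k7 : ℕ := nat_lit 7
noncomputable def k8 : ℕ := nat_lit 8
noncomputable def k9 : ℕ := nat_lit 9
noncomputable def k10 : ℕ := nat_lit 10
noncomputable def k11 : ℕ := nat_lit 11
noncomputable def k12 : ℕ := nat_lit 12
noncomputable def k13 : ℕ := nat_lit 13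
noncomputable def k14 : ℕ := nat_lit 14
noncomputable def k15 : ℕ := nat_lit 15
noncomputable def k16 : ℕ := nat_lit 16
noncomputable def k17 : ℕ := nat_lit 17
noncomputable def k18 : ℕ := nat_lit 18
noncomputable def k19 : ℕ := nat_lit 19
noncomputable def k20 : ℕ := nat_lit 20
noncomputable def k21 : ℕ := nat_lit 21
noncomputable def k22 : ℕ := nat_lit 22
noncomputable def k23 : ℕ := nat_lit 23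
noncomputable def k24 : ℕ := nat_lit 24
noncomputable def k25 : ℕ := nat_lit 25
noncomputable def k26 : ℕ := nat_lit 26
noncomputable def k27 : ℕ := nat_lit 27
noncomputable def k28 : ℕ := nat_lit 28
noncomputable def k29 : ℕ := nat_lit 29
noncomputable def k30 : ℕ := nat_lit 30
noncomputable def k31 : ℕ := nat_lit 31
noncomputable def k32 : ℕ := nat_lit 32
noncomputable def k33 : ℕ := nat_lit 33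
noncomputable def k34 : ℕ := nat_lit 34
noncomputable def k35 : ℕ := nat_lit 35
noncomputable def k36 : ℕ := nat_lit 36
noncomputable def k37 : ℕ := nat_lit 37
noncomputable def k38 : ℕ := nat_lit 38
noncomputable def k39 : ℕ := nat_lit 39
noncomputable def k40 : ℕ := nat_lit 40
noncomputable def k41 : ℕ := nat_lit 41
noncomputable def k42 : ℕ := nat_lit 42
noncomputable def k43 : ℕ := nat_lit 43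
noncomputable def k44 : ℕ := nat_lit 44
noncomputable def k45 : ℕ := nat_lit 45
noncomputable def k46 : ℕ := nat_lit 46
noncomputable def k47 : ℕ := nat_lit 47
noncomputable def k48 : ℕ := nat_lit 48
noncomputable def k49 : ℕ := nat_lit 49
noncomputable def k50 : ℕ := nat_lit 50
noncomputable def k51 : ℕ := nat_lit 51
noncomputable def k52 : ℕ := nat_lit 52
noncomputable def k53 : ℕ := nat_lit 53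
noncomputable def k54 : ℕ := nat_lit 54
noncomputable def k55 : ℕ := nat_lit 55
noncomputable def k56 : ℕ := nat_lit 56
noncomputable def k57 : ℕ := nat_lit 57
noncomputable def k58 : ℕ := nat_lit 58
noncomputable def k59 : ℕ := nat_lit 59
noncomputable def k60 : ℕ := nat_lit 60
noncomputable def k61 : ℕ := nat_lit 61
noncomputable def k62 : ℕ := nat_lit 62
noncomputable def k63 : ℕ := nat_lit 63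
noncomputable def k64 : ℕ := nat_lit 64
noncomputable def k65 : ℕ := nat_lit 65
noncomputable def k66 : ℕ := nat_lit 66
noncomputable def k67 : ℕ := nat_lit 67
noncomputable def k68 : ℕ := nat_lit 68
noncomputable def k69 : ℕ := nat_lit 69
noncomputable def k70 : ℕ := nat_lit 70
noncomputable def k71 : ℕ := nat_lit 71
noncomputable def k72 : ℕ := nat_lit 72
noncomputable def k73 : ℕ := nat_lit 73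
noncomputable def k74 : ℕ := nat_lit 74
noncomputable def k75 : ℕ := nat_lit 75
noncomputable def k76 : ℕ := nat_lit 76
noncomputable def k77 : ℕ := nat_lit 77
noncomputable def k78 : ℕ := nat_lit 78
noncomputable def k79 : ℕ := nat_lit 79
noncomputable def k80 : ℕ := nat_lit 80
noncomputable def k81 : ℕ := nat_lit 81
noncomputable def k82 : ℕ := nat_lit 82
noncomputable def k83 : ℕ := nat_lit 83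
noncomputable def k84 : ℕ := nat_lit 84
noncomputable def k85 : ℕ := nat_lit 85
noncomputable def k86 : ℕ := nat_lit 86
noncomputable def k87 : ℕ := nat_lit 87
noncomputable def k88 : ℕ := nat_lit 88
noncomputable def k89 : ℕ := nat_lit 89
noncomputable def k90 : ℕ := nat_lit 90
noncomputable def k91 : ℕ := nat_lit 91
noncomputable def k92 : ℕ := nat_lit 92
noncomputable def k93 : ℕ := nat_lit 93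
noncomputable def k94 : ℕ := nat_lit 94
noncomputable def k95 : ℕ := nat_lit 95
noncomputable def k96 : ℕ := nat_lit 96
noncomputable def k97 : ℕ := nat_lit 97
noncomputable def k98 : ℕ := nat_lit 98
noncomputable def k99 : ℕ := nat_lit 99
noncomputable def k100 : ℕ := nat_lit 100
noncomputable def k101 : ℕ := nat_lit 101
noncomputable def k102 : ℕ := nat_lit 102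
noncomputable def k103 : ℕ := nat_lit 103
noncomputable def k104 : ℕ := nat_lit 104
noncomputable def k105 : ℕ := nat_lit 105
noncomputable def k106 : ℕ := nat_lit 106
noncomputable def k107 : ℕ := nat_lit 107
noncomputable def k108 : ℕ := nat_lit 108
noncomputable def k109 : ℕ := nat_lit 109
noncomputable def k110 : ℕ := nat_lit 110
noncomputable def k111 : ℕ := nat_lit 111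
noncomputable def k112 : ℕ := nat_lit 112
noncomputable def k113 : ℕ := nat_lit 113
noncomputable def k114 : ℕ := nat_lit 114
noncomputable def k115 : ℕ := nat_lit 115
noncomputable def k116 : ℕ := nat_lit 116
noncomputable def k117 : ℕ := nat_lit 117
noncomputable def k118 : ℕ := nat_lit 118
noncomputable def k119 : ℕ := nat_lit 119
noncomputable def k120 : ℕ := nat_lit 120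
noncomputable def k121 : ℕ := nat_lit 121
noncomputable def k122 : ℕ := nat_lit 122
noncomputable def k123 : ℕ := nat_lit 123
noncomputable def k124 : ℕ := nat_lit 124
noncomputable def k125 : ℕ := nat_lit 125
noncomputable def k126 : ℕ := nat_lit 126
noncomputable def k127 : ℕ := nat_lit 127
noncomputable def k128 : ℕ := nat_lit 128
noncomputable def k129 : ℕ := nat_lit 129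
noncomputable def k130 : ℕ := nat_lit 130
noncomputable def k131 : ℕ := nat_lit 131
noncomputable def k132 : ℕ := nat_lit 132
noncomputable def k133 : ℕ := nat_lit 133
noncomputable def k134 : ℕ := nat_lit 134
noncomputable def k135 : ℕ := nat_lit 135
noncomputable def k136 : ℕ := nat_lit 136
noncomputable def k137 : ℕ := nat_lit 137
noncomputable def k138 : ℕ := nat_lit 138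
noncomputable def k139 : ℕ := nat_lit 139
noncomputable def k140 : ℕ := nat_lit 140
noncomputable def k141 : ℕ := nat_lit 141
noncomputable def k142 : ℕ := nat_lit 142
noncomputable def k143 : ℕ := nat_lit 143
noncomputable def k144 : ℕ := nat_lit 144
noncomputable def k145 : ℕ := nat_lit 145
noncomputable def k146 : ℕ := nat_lit 146
noncomputable def k147 : ℕ := nat_lit 147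
noncomputable def k148 : ℕ := nat_lit 148
noncomputable def k149 : ℕ := nat_lit 149
noncomputable def k150 : ℕ := nat_lit 150
noncomputable def k151 : ℕ := nat_lit 151
noncomputable def k152 : ℕ := nat_lit 152
noncomputable def k153 : ℕ := nat_lit 153
noncomputable def k154 : ℕ := nat_lit 154
noncomputable def k155 : ℕ := nat_lit 155
noncomputable def k156 : ℕ := nat_lit 156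
noncomputable def k157 : ℕ := nat_lit 157
noncomputable def k158 : ℕ := nat_lit 158
noncomputable def k159 : ℕ := nat_lit 159
noncomputable def k160 : ℕ := nat_lit 160
noncomputable def k161 : ℕ := nat_lit 161
noncomputable def k162 : ℕ := nat_lit 162
noncomputable def k163 : ℕ := nat_lit 163
noncomputable def k164 : ℕ := nat_lit 164
noncomputable def k165 : ℕ := nat_lit 165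
noncomputable def k166 : ℕ := nat_lit 166
noncomputable def k167 : ℕ := nat_lit 167
noncomputable def k168 : ℕ := nat_lit 168
noncomputable def k169 : ℕ := nat_lit 169
noncomputable def k170 : ℕ := nat_lit 170
noncomputable def k171 : ℕ := nat_lit 171
noncomputable def k172 : ℕ := nat_lit 172
noncomputable def k173 : ℕ := nat_lit 173
noncomputable def k174 : ℕ := nat_lit 174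
noncomputable def k175 : ℕ := nat_lit 175
noncomputable def k176 : ℕ := nat_lit 176
noncomputable def k177 : ℕ := nat_lit 177
noncomputable def k178 : ℕ := nat_lit 178
noncomputable def k179 : ℕ := nat_lit 179
noncomputable def k180 : ℕ := nat_lit 180
noncomputable def k181 : ℕ := nat_lit 181
noncomputable def k182 : ℕ := nat_lit 182
noncomputable def k183 : ℕ := nat_lit 183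
noncomputable def k184 : ℕ := nat_lit 184
noncomputable def k185 : ℕ := nat_lit 185
noncomputable def k186 : ℕ := nat_lit 186
noncomputable def k187 : ℕ := nat_lit 187
noncomputable def k188 : ℕ := nat_lit 188
noncomputable def k189 : ℕ := nat_lit 189
noncomputable def k190 : ℕ := nat_lit 190
noncomputable def k191 : ℕ := nat_lit 191
noncomputable def k192 : ℕ := nat_lit 192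
noncomputable def k193 : ℕ := nat_lit 193
noncomputable def k194 : ℕ := nat_lit 194
noncomputable def k195 : ℕ := nat_lit 195
noncomputable def k196 : ℕ := nat_lit 196
noncomputable def k197 : ℕ := nat_lit 197
noncomputable def k198 : ℕ := nat_lit 198
noncomputable def k199 : ℕ := nat_lit 199
noncomputable def z0 : ℤ := Int.ofNat (nat_lit 0)
noncomputable def z1 : ℤ := Int.ofNat (nat_lit 1)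
noncomputable def z2 : ℤ := Int.ofNat (nat_lit 2)
noncomputable def z3 : ℤ := Int.ofNat (nat_lit 3)
noncomputable def z4 : ℤ := Int.ofNat (nat_lit 4)
noncomputable def z5 : ℤ := Int.ofNat (nat_lit 5)
noncomputable def z6 : ℤ := Int.ofNat (nat_lit 6)
noncomputable def z7 : ℤ := Int.ofNat (nat_lit 7)
noncomputable def z8 : ℤ := Int.ofNat (nat_lit 8)
noncomputable def z9 : ℤ := Int.ofNat (nat_lit 9)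
noncomputable def z10 : ℤ := Int.ofNat (nat_lit 10)
noncomputable def z11 : ℤ := Int.ofNat (nat_lit 11)
noncomputable def z12 : ℤ := Int.ofNat (nat_lit 12)
noncomputable def z13 : ℤ := Int.ofNat (nat_lit 13)
noncomputable def z14 : ℤ := Int.ofNat (nat_lit 14)
noncomputable def z15 : ℤ := Int.ofNat (nat_lit 15)
noncomputable def z16 : ℤ := Int.ofNat (nat_lit 16)
noncomputable def z17 : ℤ := Int.ofNat (nat_lit 17)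
noncomputable def z18 : ℤ := Int.ofNat (nat_lit 18)
noncomputable def z19 : ℤ := Int.ofNat (nat_lit 19)
noncomputable def z20 : ℤ := Int.ofNat (nat_lit 20)
noncomputable def z21 : ℤ := Int.ofNat (nat_lit 21)
noncomputable def z22 : ℤ := Int.ofNat (nat_lit 22)
noncomputable def z23 : ℤ := Int.ofNat (nat_lit 23)
noncomputable def z24 : ℤ := Int.ofNat (nat_lit 24)
noncomputable def z25 : ℤ := Int.ofNat (nat_lit 25)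
noncomputable def z26 : ℤ := Int.ofNat (nat_lit 26)
noncomputable def z27 : ℤ := Int.ofNat (nat_lit 27)
noncomputable def z28 : ℤ := Int.ofNat (nat_lit 28)
noncomputable def z29 : ℤ := Int.ofNat (nat_lit 29)
noncomputable def z30 : ℤ := Int.ofNat (nat_lit 30)
noncomputable def z31 : ℤ := Int.ofNat (nat_lit 31)
noncomputable def z32 : ℤ := Int.ofNat (nat_lit 32)
noncomputable def z33 : ℤ := Int.ofNat (nat_lit 33)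
noncomputable def z34 : ℤ := Int.ofNat (nat_lit 34)
noncomputable def z35 : ℤ := Int.ofNat (nat_lit 35)
noncomputable def z36 : ℤ := Int.ofNat (nat_lit 36)
noncomputable def z37 : ℤ := Int.ofNat (nat_lit 37)
noncomputable def z38 : ℤ := Int.ofNat (nat_lit 38)
noncomputable def z39 : ℤ := Int.ofNat (nat_lit 39)
noncomputable def z40 : ℤ := Int.ofNat (nat_lit 40)
noncomputable def z41 : ℤ := Int.ofNat (nat_lit 41)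
noncomputable def z42 : ℤ := Int.ofNat (nat_lit 42)
noncomputable def z43 : ℤ := Int.ofNat (nat_lit 43)
noncomputable def z44 : ℤ := Int.ofNat (nat_lit 44)
noncomputable def z45 : ℤ := Int.ofNat (nat_lit 45)
noncomputable def z46 : ℤ := Int.ofNat (nat_lit 46)
noncomputable def z47 : ℤ := Int.ofNat (nat_lit 47)
noncomputable def z48 : ℤ := Int.ofNat (nat_lit 48)
noncomputable def z49 : ℤ := Int.ofNat (nat_lit 49)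
noncomputable def z50 : ℤ := Int.ofNat (nat_lit 50)
noncomputable def z51 : ℤ := Int.ofNat (nat_lit 51)
noncomputable def z52 : ℤ := Int.ofNat (nat_lit 52)
noncomputable def z53 : ℤ := Int.ofNat (nat_lit 53)
noncomputable def z54 : ℤ := Int.ofNat (nat_lit 54)
noncomputable def z55 : ℤ := Int.ofNat (nat_lit 55)
noncomputable def z56 : ℤ := Int.ofNat (nat_lit 56)
noncomputable def z57 : ℤ := Int.ofNat (nat_lit 57)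
noncomputable def z58 : ℤ := Int.ofNat (nat_lit 58)
noncomputable def z59 : ℤ := Int.ofNat (nat_lit 59)
noncomputable def z60 : ℤ := Int.ofNat (nat_lit 60)
noncomputable def z61 : ℤ := Int.ofNat (nat_lit 61)
noncomputable def z62 : ℤ := Int.ofNat (nat_lit 62)
noncomputable def z63 : ℤ := Int.ofNat (nat_lit 63)
noncomputable def z64 : ℤ := Int.ofNat (nat_lit 64)
noncomputable def z65 : ℤ := Int.ofNat (nat_lit 65)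
noncomputable def z66 : ℤ := Int.ofNat (nat_lit 66)
noncomputable def z67 : ℤ := Int.ofNat (nat_lit 67)
noncomputable def z68 : ℤ := Int.ofNat (nat_lit 68)
noncomputable def z69 : ℤ := Int.ofNat (nat_lit 69)
noncomputable def z70 : ℤ := Int.ofNat (nat_lit 70)
noncomputable def z71 : ℤ := Int.ofNat (nat_lit 71)
noncomputable def z72 : ℤ := Int.ofNat (nat_lit 72)
noncomputable def z73 : ℤ := Int.ofNat (nat_lit 73)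
noncomputable def z74 : ℤ := Int.ofNat (nat_lit 74)
noncomputable def z75 : ℤ := Int.ofNat (nat_lit 75)
noncomputable def z76 : ℤ := Int.ofNat (nat_lit 76)
noncomputable def z77 : ℤ := Int.ofNat (nat_lit 77)
noncomputable def z78 : ℤ := Int.ofNat (nat_lit 78)
noncomputable def z79 : ℤ := Int.ofNat (nat_lit 79)
noncomputable def z80 : ℤ := Int.ofNat (nat_lit 80)
noncomputable def z81 : ℤ := Int.ofNat (nat_lit 81)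
noncomputable def z82 : ℤ := Int.ofNat (nat_lit 82)
noncomputable def z83 : ℤ := Int.ofNat (nat_lit 83)
noncomputable def z84 : ℤ := Int.ofNat (nat_lit 84)
noncomputable def z85 : ℤ := Int.ofNat (nat_lit 85)
noncomputable def z86 : ℤ := Int.ofNat (nat_lit 86)
noncomputable def z87 : ℤ := Int.ofNat (nat_lit 87)
noncomputable def z88 : ℤ := Int.ofNat (nat_lit 88)
noncomputable def z89 : ℤ := Int.ofNat (nat_lit 89)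
noncomputable def z90 : ℤ := Int.ofNat (nat_lit 90)
noncomputable def z91 : ℤ := Int.ofNat (nat_lit 91)
noncomputable def z92 : ℤ := Int.ofNat (nat_lit 92)
noncomputable def z93 : ℤ := Int.ofNat (nat_lit 93)
noncomputable def z94 : ℤ := Int.ofNat (nat_lit 94)
noncomputable def z95 : ℤ := Int.ofNat (nat_lit 95)
noncomputable def z96 : ℤ := Int.ofNat (nat_lit 96)
noncomputable def z97 : ℤ := Int.ofNat (nat_lit 97)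
noncomputable def z98 : ℤ := Int.ofNat (nat_lit 98)
noncomputable def z99 : ℤ := Int.ofNat (nat_lit 99)
noncomputable def y1 : ℤ := Int.negSucc (nat_lit 0)
noncomputable def y2 : ℤ := Int.negSucc (nat_lit 1)
noncomputable def y3 : ℤ := Int.negSucc (nat_lit 2)
noncomputable def y4 : ℤ := Int.negSucc (nat_lit 3)
noncomputable def y5 : ℤ := Int.negSucc (nat_lit 4)
noncomputable def y6 : ℤ := Int.negSucc (nat_lit 5)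
noncomputable def y7 : ℤ := Int.negSucc (nat_lit 6)
noncomputable def y8 : ℤ := Int.negSucc (nat_lit 7)
noncomputable def y9 : ℤ := Int.negSucc (nat_lit 8)
noncomputable def y10 : ℤ := Int.negSucc (nat_lit 9)
noncomputable def y11 : ℤ := Int.negSucc (nat_lit 10)
noncomputable def y12 : ℤ := Int.negSucc (nat_lit 11)
noncomputable def y13 : ℤ := Int.negSucc (nat_lit 12)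
noncomputable def y14 : ℤ := Int.negSucc (nat_lit 13)
noncomputable def y15 : ℤ := Int.negSucc (nat_lit 14)
noncomputable def y16 : ℤ := Int.negSucc (nat_lit 15)
noncomputable def y17 : ℤ := Int.negSucc (nat_lit 16)
noncomputable def y18 : ℤ := Int.negSucc (nat_lit 17)
noncomputable def y19 : ℤ := Int.negSucc (nat_lit 18)
noncomputable def y20 : ℤ := Int.negSucc (nat_lit 19)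
noncomputable def y21 : ℤ := Int.negSucc (nat_lit 20)
noncomputable def y22 : ℤ := Int.negSucc (nat_lit 21)
noncomputable def y23 : ℤ := Int.negSucc (nat_lit 22)
noncomputable def y24 : ℤ := Int.negSucc (nat_lit 23)
noncomputable def y25 : ℤ := Int.negSucc (nat_lit 24)
noncomputable def y26 : ℤ := Int.negSucc (nat_lit 25)
noncomputable def y27 : ℤ := Int.negSucc (nat_lit 26)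
noncomputable def y28 : ℤ := Int.negSucc (nat_lit 27)
noncomputable def y29 : ℤ := Int.negSucc (nat_lit 28)
noncomputable def y30 : ℤ := Int.negSucc (nat_lit 29)
noncomputable def y31 : ℤ := Int.negSucc (nat_lit 30)
noncomputable def y32 : ℤ := Int.negSucc (nat_lit 31)
noncomputable def y33 : ℤ := Int.negSucc (nat_lit 32)
noncomputable def y34 : ℤ := Int.negSucc (nat_lit 33)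
noncomputable def y35 : ℤ := Int.negSucc (nat_lit 34)
noncomputable def y36 : ℤ := Int.negSucc (nat_lit 35)
noncomputable def y37 : ℤ := Int.negSucc (nat_lit 36)
noncomputable def y38 : ℤ := Int.negSucc (nat_lit 37)
noncomputable def y39 : ℤ := Int.negSucc (nat_lit 38)
noncomputable def y40 : ℤ := Int.negSucc (nat_lit 39)
noncomputable def y41 : ℤ := Int.negSucc (nat_lit 40)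
noncomputable def y42 : ℤ := Int.negSucc (nat_lit 41)
noncomputable def y43 : ℤ := Int.negSucc (nat_lit 42)
noncomputable def y44 : ℤ := Int.negSucc (nat_lit 43)
noncomputable def y45 : ℤ := Int.negSucc (nat_lit 44)
noncomputable def y46 : ℤ := Int.negSucc (nat_lit 45)
noncomputable def y47 : ℤ := Int.negSucc (nat_lit 46)
noncomputable def y48 : ℤ := Int.negSucc (nat_lit 47)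
noncomputable def y49 : ℤ := Int.negSucc (nat_lit 48)
noncomputable def y50 : ℤ := Int.negSucc (nat_lit 49)
noncomputable def y51 : ℤ := Int.negSucc (nat_lit 50)
noncomputable def y52 : ℤ := Int.negSucc (nat_lit 51)
noncomputable def y53 : ℤ := Int.negSucc (nat_lit 52)
noncomputable def y54 : ℤ := Int.negSucc (nat_lit 53)
noncomputable def y55 : ℤ := Int.negSucc (nat_lit 54)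
noncomputable def y56 : ℤ := Int.negSucc (nat_lit 55)
noncomputable def y57 : ℤ := Int.negSucc (nat_lit 56)
noncomputable def y58 : ℤ := Int.negSucc (nat_lit 57)
noncomputable def y59 : ℤ := Int.negSucc (nat_lit 58)
noncomputable def y60 : ℤ := Int.negSucc (nat_lit 59)
noncomputable def y61 : ℤ := Int.negSucc (nat_lit 60)
noncomputable def y62 : ℤ := Int.negSucc (nat_lit 61)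
noncomputable def y63 : ℤ := Int.negSucc (nat_lit 62)
noncomputable def y64 : ℤ := Int.negSucc (nat_lit 63)
noncomputable def y65 : ℤ := Int.negSucc (nat_lit 64)
noncomputable def y66 : ℤ := Int.negSucc (nat_lit 65)
noncomputable def y67 : ℤ := Int.negSucc (nat_lit 66)
noncomputable def y68 : ℤ := Int.negSucc (nat_lit 67)
noncomputable def y69 : ℤ := Int.negSucc (nat_lit 68)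
noncomputable def y70 : ℤ := Int.negSucc (nat_lit 69)
noncomputable def y71 : ℤ := Int.negSucc (nat_lit 70)
noncomputable def y72 : ℤ := Int.negSucc (nat_lit 71)
noncomputable def y73 : ℤ := Int.negSucc (nat_lit 72)
noncomputable def y74 : ℤ := Int.negSucc (nat_lit 73)
noncomputable def y75 : ℤ := Int.negSucc (nat_lit 74)
noncomputable def y76 : ℤ := Int.negSucc (nat_lit 75)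
noncomputable def y77 : ℤ := Int.negSucc (nat_lit 76)
noncomputable def y78 : ℤ := Int.negSucc (nat_lit 77)
noncomputable def y79 : ℤ := Int.negSucc (nat_lit 78)
noncomputable def y80 : ℤ := Int.negSucc (nat_lit 79)
noncomputable def y81 : ℤ := Int.negSucc (nat_lit 80)
noncomputable def y82 : ℤ := Int.negSucc (nat_lit 81)
noncomputable def y83 : ℤ := Int.negSucc (nat_lit 82)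
noncomputable def y84 : ℤ := Int.negSucc (nat_lit 83)
noncomputable def y85 : ℤ := Int.negSucc (nat_lit 84)
noncomputable def y86 : ℤ := Int.negSucc (nat_lit 85)
noncomputable def y87 : ℤ := Int.negSucc (nat_lit 86)
noncomputable def y88 : ℤ := Int.negSucc (nat_lit 87)
noncomputable def y89 : ℤ := Int.negSucc (nat_lit 88)
noncomputable def y90 : ℤ := Int.negSucc (nat_lit 89)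
noncomputable def y91 : ℤ := Int.negSucc (nat_lit 90)
noncomputable def y92 : ℤ := Int.negSucc (nat_lit 91)
noncomputable def y93 : ℤ := Int.negSucc (nat_lit 92)
noncomputable def y94 : ℤ := Int.negSucc (nat_lit 93)
noncomputable def y95 : ℤ := Int.negSucc (nat_lit 94)
noncomputable def y96 : ℤ := Int.negSucc (nat_lit 95)
noncomputable def y97 : ℤ := Int.negSucc (nat_lit 96)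
noncomputable def y98 : ℤ := Int.negSucc (nat_lit 97)
noncomputable def y99 : ℤ := Int.negSucc (nat_lit 98)
noncomputable def y100 : ℤ := Int.negSucc (nat_lit 99)

/-- equations of the nodes for the classes `0 0 0 0 1`, active pairs `` -/
noncomputable def hD5_17 : List (List (List Eqn)) :=
  [[[([z1,z0,z0,z0,y1],z0),([z0,z1,z0,z0,y2],y1),([z0,z0,z1,z0,z2],z2)],[([z4,z0,z0,z0,z0],z3),([z0,z2,z0,z0,z0],z1),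
    ([z0,z0,z2,z0,z0],z1)],[([z3,z0,z0,z0,z0],z2),([z0,z3,z0,z0,z0],z2),([z0,z0,z3,z0,z0],z2)],[([z1,z0,z0,z0,z1],z1),
    ([z0,z1,z0,z0,y4],y2),([z0,z0,z1,z0,z2],z2)],[([z1,z0,z0,z0,y2],y1),([z0,z1,z0,z0,y1],z0),([z0,z0,z1,z0,z2],z2)],
    [([z3,z0,z0,z0,z1],z3),([z0,z3,z0,z0,y2],z0),([z0,z0,z3,z0,y2],z0)],[([z3,z0,z0,y1,y1],z1),([z0,z3,z0,z2,z2],z4)],
    [([z4,z0,z0,z0,z0],z3),([z0,z2,z0,z0,z0],z1),([z0,z0,z2,z0,z0],z1),([z0,z0,z0,z2,z0],z1)],[([z3,z0,z0,z0,z0],z1),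
    ([z0,z3,z0,z0,z0],z2),([z0,z0,z3,z0,z0],z2),([z0,z0,z0,z3,z0],z2)],[([z1,z0,z0,z0,y5],y3),([z0,z1,z0,z0,z2],z2),
    ([z0,z0,z1,z0,z2],z2)],[([z4,z0,z0,z0,z0],z3),([z0,z2,z0,z0,z0],z1),([z0,z0,z4,z0,z4],z5)],[([z1,z0,z0,z0,y1],z0),
    ([z0,z1,z0,z0,z2],z2),([z0,z0,z1,z0,y2],y1)]],
    [[([z1,z0,z0,z0,z1],z1),([z0,z1,z0,z0,y2],z0),([z0,z0,z1,z0,z4],z2)],[([z1,z0,z0,z0,y2],y1),([z0,z1,z0,z0,z2],z2),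
    ([z0,z0,z1,z0,y1],z0)],[([z3,z0,z0,z0,z1],z3),([z0,z3,z0,z0,y2],z0),([z0,z0,z1,z0,z2],z2)],[([z2,z0,z0,z1,z0],z2),
    ([z0,z1,z0,y1,z0],z0)],[([z1,z0,z0,z0,y1],z0),([z0,z1,z0,z0,z2],z2)],[([z2,z0,z0,y1,z0],z1),([z0,z1,z0,z1,z0],
    z1)],[([z1,z0,z0,z1,z1],z2),([z0,z1,z0,y2,y2],y2)],[([z1,z0,y1,z0,z0],z0),([z0,z1,z2,z0,z0],z2)],[([z1,z0,z0,z0,
    z1],z1),([z0,z1,z0,z0,y2],z0)],[([z1,z0,z0,z0,y1],z0),([z0,z3,z0,z0,z0],z1),([z0,z0,z3,z0,z0],z2)],[([z3,z0,z0,z0,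
    z3],z4),([z0,z1,z0,z0,y2],y1),([z0,z0,z3,z0,z0],z2)],[([z6,z0,z0,z0,z0],z5),([z0,z3,z0,z0,z0],z1),([z0,z0,z3,z0,
    z0],z2)]],
    [[([z1,z0,z0,z0,z1],z1),([z0,z3,z0,z0,y6],y2),([z0,z0,z3,z0,z0],z2)],[([z3,z0,z0,z0,y3],y1),([z0,z3,z0,z0,z0],z2),
    ([z0,z0,z3,z0,z0],z2)],[([z3,z0,z0,y3,z0],z1),([z0,z3,z0,z6,z0],z4),([z0,z0,z3,z0,z0],z2)],[([z3,z0,z0,z0,z3],z5),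
    ([z0,z3,z0,z0,y6],y4),([z0,z0,z3,z0,z0],z2)],[([z3,z0,z0,y3,y3],y1),([z0,z3,z0,z6,z6],z8)],[([z2,z0,z0,y1,z0],z1),
    ([z0,z1,z0,z1,z0],z1),([z0,z0,z2,z1,z0],z2)],[([z1,z0,z0,z0,y3],y1),([z0,z1,z0,z0,z6],z4),([z0,z0,z1,z0,z2],z2)],
    [([z1,z0,z0,z0,y3],y2),([z0,z1,z0,z0,z4],z4),([z0,z0,z1,z0,y2],y1)],[([z5,z0,z0,z0,z0],z2),([z0,z5,z0,z0,z0],z4),
    ([z0,z0,z5,z0,z0],z3),([z0,z0,z0,z5,z0],z2)],[([z1,z0,z0,z0,y2],z0),([z0,z1,z0,z0,z4],z2),([z0,z0,z1,z0,z1],z1)],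
    [([z1,z0,y1,z0,y1],y1),([z0,z1,z2,z0,z0],z2)],[([z1,z0,z0,z1,y1],z1),([z0,z1,z0,y2,z2],z0)]],
    [[([z1,z0,z0,y1,z1],z1),([z0,z1,z0,z2,y2],z0)],[([z1,z0,y1,z0,z1],z1),([z0,z1,z2,z0,y2],z0)],[([z1,z0,y1,y1,y1],
    y1)],[([z4,z0,z0,z0,z0],z3),([z0,z4,z0,z0,z4],z5),([z0,z0,z2,z0,z0],z1)],[([z1,z0,z0,z0,y2],y1),([z0,z1,z0,z0,z2],
    z2),([z0,z0,z1,z0,z2],z2)],[([z1,z0,z0,z0,z1],z1),([z0,z1,z0,z0,z2],z2),([z0,z0,z1,z0,z2],z2)],[([z3,z0,z0,z0,z1],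
    z3),([z0,z1,z0,z0,z2],z2),([z0,z0,z3,z0,y2],z0)],[([z2,z0,z0,z1,z0],z2),([z0,z2,z0,z3,z2],z4)],[([z2,z0,z0,y1,z0],
    z1),([z0,z2,z0,z1,z2],z3)],[([z1,z0,z0,z0,y1],z0),([z0,z1,z0,z1,z0],z1)],[([z1,z0,z0,z1,z1],z2),([z0,z1,z0,z2,z2],
    z3)],[([z3,z0,z0,z0,y9],y5),([z0,z1,z0,z0,z2],z2),([z0,z0,z1,z0,z2],z2)]],
    [[([z3,z0,z0,z0,z3],z4),([z0,z1,z0,z0,y2],y1),([z0,z0,z1,z0,z2],z2)],[([z1,z0,z0,z0,y1],z0),([z0,z3,z0,z0,z0],z1),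
    ([z0,z0,z1,z0,z2],z2)],[([z6,z0,z0,z0,z0],z5),([z0,z3,z0,z0,z0],z2),([z0,z0,z3,z0,z0],z1)],[([z3,z0,z0,z0,y3],y1),
    ([z0,z3,z0,z0,z0],z2),([z0,z0,z1,z0,z2],z2)],[([z1,z0,z0,z0,z1],z1),([z0,z3,z0,z0,y6],y2),([z0,z0,z1,z0,z2],z2)],
    [([z9,z0,z0,z0,z3],z7),([z0,z3,z0,z0,z0],z2),([z0,z0,z9,z0,y6],z4)],[([z3,z0,z0,z0,z3],z5),([z0,z3,z0,z0,y6],y4),
    ([z0,z0,z1,z0,z2],z2)],[([z3,z0,z0,y3,y3],y1),([z0,z3,z0,z0,z0],z2)],[([z2,z0,z1,z0,z0],z2),([z0,z2,z1,z0,z0],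
    z2)],[([z1,z0,z0,y1,y1],y1),([z0,z1,z0,z2,z0],z2)],[([z1,z0,z0,z0,z1],z1),([z0,z1,z0,z1,y2],z0)],[([z2,z0,z0,z0,
    z0],z1),([z0,z2,z0,z0,z2],z3),([z0,z0,z1,z0,z2],z2)]],
    [[([z1,z0,z0,z0,y3],y1),([z0,z1,z0,z0,y4],y2),([z0,z0,z1,z0,z6],z4)],[([z1,z0,z0,z0,y3],y2),([z0,z1,z0,z0,y2],y1),
    ([z0,z0,z1,z0,z2],z2)],[([z7,z0,z0,z0,z0],z4),([z0,z7,z0,z0,z0],z6),([z0,z0,z7,z0,z0],z4),([z0,z0,z0,z7,z0],z2)],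
    [([z2,z0,z0,z0,z0],z1),([z0,z5,z0,z0,z0],z4),([z0,z0,z5,z0,z0],z3),([z0,z0,z0,z5,z0],z2)],[([z13,z0,z0,z0,z0],z6),
    ([z0,z13,z0,z0,z0],z10),([z0,z0,z13,z0,z0],z8),([z0,z0,z0,z13,z0],z6)],[([z16,z0,z0,z0,z0],z7),([z0,z4,z0,z0,z0],
    z3),([z0,z0,z8,z0,z0],z5),([z0,z0,z0,z2,z0],z1)],[([z1,z0,z0,z0,y5],y3),([z0,z1,z0,z0,y4],y2),([z0,z0,z1,z0,z2],
    z2)],[([z2,z0,z0,z0,z0],z1),([z0,z6,z0,z0,z0],z5),([z0,z0,z3,z0,z0],z2),([z0,z0,z0,z3,z0],z1)],[([z9,z0,z0,z0,z0],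
    z4),([z0,z9,z0,z0,z0],z7),([z0,z0,z3,z0,z0],z2),([z0,z0,z0,z9,z0],z4)],[([z9,z0,z0,z0,z0],z5),([z0,z9,z0,z0,z0],
    z8),([z0,z0,z3,z0,z0],z2),([z0,z0,z0,z9,z0],z2)],[([z3,z0,z0,z0,z0],z2),([z0,z3,z0,z0,z6],z4),([z0,z0,z3,z0,z0],
    z2)],[([z2,z0,z0,z0,z0],z1),([z0,z4,z0,z0,z0],z3),([z0,z0,z2,z0,z0],z1),([z0,z0,z0,z2,z0],z1)]],
    [[([z12,z0,z0,z0,z0],z5),([z0,z3,z0,z0,z0],z2),([z0,z0,z2,z0,z0],z1),([z0,z0,z0,z3,z0],z2)],[([z12,z0,z0,z0,z0],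
    z7),([z0,z6,z0,z0,z0],z5),([z0,z0,z2,z0,z0],z1),([z0,z0,z0,z3,z0],z1)],[([z4,z0,z0,z0,z0],z3),([z0,z2,z0,z0,z4],
    z3),([z0,z0,z2,z0,z0],z1)],[([z2,z0,z0,z1,y2],z0),([z0,z2,z0,z1,z0],z2)],[([z3,z0,z0,z0,z0],z2),([z0,z3,z0,z0,z0],
    z1),([z0,z0,z3,z0,z0],z2),([z0,z0,z0,z3,z0],z2)],[([z3,z0,z0,z0,z0],z2),([z0,z1,z0,z0,z1],z1),([z0,z0,z3,z0,z0],
    z2)],[([z1,z0,z0,z0,y1],z0),([z0,z1,z0,z0,y4],y2),([z0,z0,z1,z0,z2],z2)],[([z5,z0,z0,z0,z1],z4),([z0,z5,z0,z0,z2],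
    z3),([z0,z0,z5,z0,y2],z2)],[([z4,z0,z0,z0,z1],z3),([z0,z4,z0,z0,z1],z3),([z0,z0,z2,z0,y1],z1)],[([z1,z0,z0,z0,y3],
    y1),([z0,z1,z0,z0,y4],y2),([z0,z0,z1,z0,z2],z2)],[([z2,z0,z0,z0,z1],z2),([z0,z2,z0,z0,y1],z0),([z0,z0,z1,z0,y1],
    z0)],[([z4,z0,z0,y1,z0],z2),([z0,z4,z0,z3,z4],z6)]],
    [[([z1,z0,z0,z0,y1],z0),([z0,z1,z0,z0,y1],z0),([z0,z0,z1,z0,z2],z2)],[([z2,z0,z0,z0,z1],z2),([z0,z1,z0,z0,z1],z1),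
    ([z0,z0,z1,z0,y1],z0)],[([z1,z0,z0,z0,z1],z1),([z0,z1,z0,z0,y1],z0),([z0,z0,z1,z0,z2],z2)],[([z1,z0,z0,z0,y2],z0),
    ([z0,z1,z0,z0,z1],z1),([z0,z0,z1,z0,z4],z2)],[([z2,z0,z0,z0,z1],z2),([z0,z1,z0,z0,y1],z0),([z0,z0,z1,z0,z2],z2)],
    [([z1,z0,z0,y1,z0],z0),([z0,z1,z0,z0,z1],z1)],[([z2,z0,z1,z0,z0],z2)],[([z2,z0,z0,z1,z0],z2),([z0,z2,z0,y1,z2],
    z2)],[([z2,z0,z0,z1,z0],z2),([z0,z1,z0,z1,z0],z1)],[([z2,z0,z0,z1,y2],z0),([z0,z1,z0,z0,z2],z2)],[([z1,z0,z0,z0,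
    z1],z1),([z0,z1,z0,z0,z2],z2)],[([z2,z0,z0,z1,z0],z2),([z0,z1,z0,z0,z2],z2)]],
    [[([z6,z0,z0,z0,z0],z5),([z0,z3,z0,z0,z0],z1),([z0,z0,z3,z0,z0],z2),([z0,z0,z0,z3,z0],z1)],[([z3,z0,z0,z0,z0],z2),
    ([z0,z9,z0,z0,z0],z4),([z0,z0,z3,z0,z0],z2),([z0,z0,z0,z9,z0],z4)],[([z12,z0,z0,z0,z0],z7),([z0,z2,z0,z0,z0],z1),
    ([z0,z0,z3,z0,z0],z2),([z0,z0,z0,z2,z0],z1)],[([z3,z0,z0,z0,y9],y5),([z0,z1,z0,z0,z2],z2),([z0,z0,z3,z0,z0],z2)],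
    [([z6,z0,z0,z0,z0],z5),([z0,z6,z0,z0,z6],z7),([z0,z0,z3,z0,z0],z2)],[([z3,z0,z0,z0,z3],z4),([z0,z3,z0,z0,z6],z5),
    ([z0,z0,z3,z0,z0],z2)],[([z3,z0,z0,z0,y3],y1),([z0,z1,z0,z0,z2],z2),([z0,z0,z3,z0,z0],z2)],[([z1,z0,z0,z0,z1],z1),
    ([z0,z3,z0,z0,z6],z4),([z0,z0,z3,z0,z0],z2)],[([z3,z0,z0,z0,z3],z5),([z0,z1,z0,z0,z2],z2),([z0,z0,z3,z0,z0],z2)],
    [([z3,z0,z0,z0,z0],z2),([z0,z3,z0,z0,z0],z1),([z0,z0,z3,z0,z0],z2),([z0,z0,z0,z2,z0],z1)],[([z9,z0,z0,z0,z0],z5),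
    ([z0,z9,z0,z0,z0],z2),([z0,z0,z3,z0,z0],z2),([z0,z0,z0,z9,z0],z8)],[([z3,z0,z0,z0,z0],z2),([z0,z1,z0,z0,z2],z2),
    ([z0,z0,z3,z0,z0],z2)]],
    [[([z2,z0,z0,z1,z0],z2),([z0,z6,z0,z3,z6],z8)],[([z2,z0,z0,z0,z1],z2),([z0,z1,z0,z0,z1],z1),([z0,z0,z2,z0,z1],
    z2)],[([z1,z0,z0,z0,y1],z0),([z0,z1,z0,z0,z1],z1),([z0,z0,z1,z0,y1],z0)],[([z1,z0,z0,z0,z1],z1),([z0,z1,z0,z0,z1],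
    z1),([z0,z0,z1,z0,z1],z1)],[([z7,z0,z0,z0,z0],z4),([z0,z7,z0,z0,z0],z2),([z0,z0,z7,z0,z0],z4),([z0,z0,z0,z7,z0],
    z6)],[([z5,z0,z0,z0,z0],z3),([z0,z5,z0,z0,z0],z2),([z0,z0,z5,z0,z0],z4),([z0,z0,z0,z5,z0],z2)],[([z2,z0,z0,z0,z1],
    z2),([z0,z1,z0,z0,z2],z2),([z0,z0,z1,z0,y1],z0)],[([z2,z0,z0,z1,z0],z2),([z0,z1,z0,z0,z1],z1)],[([z5,z0,z0,z0,z1],
    z4),([z0,z5,z0,z0,z2],z3),([z0,z0,z5,z0,z4],z6)],[([z1,z0,z0,z0,y1],z0),([z0,z1,z0,z0,z2],z2),([z0,z0,z1,z0,y4],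
    y2)],[([z1,z0,z0,z0,y5],y3),([z0,z1,z0,z0,z2],z2),([z0,z0,z1,z0,y4],y2)],[([z1,z0,z0,z0,y3],y1),([z0,z1,z0,z0,z2],
    z2),([z0,z0,z1,z0,y4],y2)]],
    [[([z2,z0,z0,z0,z1],z2),([z0,z2,z0,z0,y1],z0),([z0,z0,z1,z0,z2],z2)],[([z2,z0,z0,z1,z0],z2),([z0,z2,z0,y3,z2],
    z0)],[([z2,z0,z0,z0,z2],z3),([z0,z2,z0,z0,z0],z1),([z0,z0,z1,z0,z2],z2)],[([z1,z0,z0,z0,y3],y1),([z0,z1,z0,z0,z2],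
    z2),([z0,z0,z1,z0,z6],z4)],[([z1,z0,z0,y1,z1],z1),([z0,z1,z0,z0,z2],z2)],[([z2,z0,z0,z1,z0],z2)],[([z1,z0,z0,z1,
    z1],z2)],[([z1,z0,z1,z0,z1],z2)],[([z1,z0,z0,z0,z1],z1)],[([z5,z0,z0,z0,z1],z4),([z0,z5,z0,z0,z4],z6),([z0,z0,z5,
    z0,y2],z2)],[([z1,z0,z0,z0,y5],y3),([z0,z1,z0,z0,z8],z6),([z0,z0,z1,z0,z2],z2)],[([z8,z0,z0,z0,z0],z5),([z0,z2,z0,
    z0,z0],z1),([z0,z0,z4,z0,z0],z3),([z0,z0,z0,z2,z0],z1)]],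
    [[([z7,z0,z0,z0,z1],z5),([z0,z7,z0,z0,z4],z6),([z0,z0,z7,z0,y2],z4)],[([z5,z0,z0,z0,z0],z3),([z0,z5,z0,z0,z0],z2),
    ([z0,z0,z5,z0,z0],z4),([z0,z0,z0,z5,z0],z3)],[([z7,z0,z0,z0,z0],z4),([z0,z7,z0,z0,z0],z2),([z0,z0,z7,z0,z0],z6),
    ([z0,z0,z0,z7,z0],z4)],[([z4,z0,z0,z0,z1],z3),([z0,z1,z0,z0,z1],z1),([z0,z0,z2,z0,y1],z1)],[([z3,z0,z0,z1,z1],z3),
    ([z0,z3,z0,z4,z4],z6)],[([z1,z0,z0,z1,z1],z2),([z0,z2,z0,y1,z0],z0)],[([z2,z0,z0,y1,z2],z2),([z0,z1,z0,z1,z0],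
    z1)],[([z1,z0,z0,z0,z1],z1),([z0,z2,z0,z1,z0],z2)],[([z4,z0,z0,z0,z4],z5),([z0,z2,z0,z0,z0],z1),([z0,z0,z4,z0,z0],
    z3)],[([z1,z0,z0,z0,z1],z1),([z0,z3,z0,z0,z0],z2),([z0,z0,z3,z0,z0],z2)],[([z2,z0,z0,z3,z2],z4),([z0,z1,z0,y1,z0],
    z0)],[([z1,z0,z0,z0,y5],y3),([z0,z1,z0,z0,z8],z6),([z0,z0,z1,z0,y4],y2)]],
    [[([z7,z0,z0,z0,z0],z2),([z0,z7,z0,z0,z0],z6),([z0,z0,z7,z0,z0],z4),([z0,z0,z0,z7,z0],z5)],[([z5,z0,z0,z0,z0],z2),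
    ([z0,z5,z0,z0,z0],z2),([z0,z0,z5,z0,z0],z4),([z0,z0,z0,z5,z0],z3)],[([z1,z0,z0,z0,y2],z0),([z0,z1,z0,z0,z1],z1),
    ([z0,z0,z1,z0,y2],z0)],[([z5,z0,z0,z0,z5],z6),([z0,z5,z0,z0,z0],z2),([z0,z0,z5,z0,z0],z4)],[([z1,z0,z0,z0,y2],z0),
    ([z0,z1,z0,z0,z4],z2),([z0,z0,z1,z0,y2],z0)],[([z4,z0,z0,z3,z4],z6),([z0,z4,z0,y1,z0],z2)],[([z1,z0,y1,z1,z1],
    z1)],[([z5,z0,z0,z0,z1],z4),([z0,z5,z0,z0,y2],z2),([z0,z0,z5,z0,z4],z6)],[([z1,z0,z0,z0,y3],y1),([z0,z1,z0,z0,z6],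
    z4),([z0,z0,z1,z0,y4],y2)],[([z3,z0,z0,z1,z1],z3),([z0,z3,z0,y2,y2],z0)],[([z1,z0,z0,z0,y3],y2),([z0,z1,z0,z0,z2],
    z2),([z0,z0,z1,z0,z4],z4)],[([z2,z0,z0,z0,z0],z1),([z0,z1,z0,z0,z2],z2),([z0,z0,z1,z0,y2],y1)]],
    [[([z1,z0,z0,y1,y1],y1),([z0,z1,z0,z0,z2],z2)],[([z2,z0,z0,z1,z2],z3),([z0,z2,z0,y1,z0],z1)],[([z1,z0,z0,y2,z1],
    z0),([z0,z1,z0,z1,z0],z1)],[([z1,z0,z0,z0,z1],z1),([z0,z1,z0,y1,z0],z0)],[([z2,z0,z1,z2,z2],z4)],[]]]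

/-- symmetries -/
noncomputable def hS5_17 : List (Bool × ℕ × List ℕ) :=
  [(true,k4,[k4,k3,k2,k1,k0]),(false,k0,[k0,k1,k2,k3,k4])]

/-- equations of the nodes for the classes `0 0 0 1 1`, active pairs `` -/
noncomputable def hD5_23 : List (List (List Eqn)) :=
  [[[([z4,z0,z0,z0,z0],z3),([z0,z2,z0,z0,z0],z1),([z0,z0,z2,z0,z0],z1),([z0,z0,z0,z4,z0],z3)],[([z3,z0,z0,z0,z0],z2),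
    ([z0,z3,z0,z0,z0],z2),([z0,z0,z3,z0,z0],z2),([z0,z0,z0,z3,z0],z2)],[([z6,z0,z0,z0,z0],z5),([z0,z3,z0,z0,z0],z1),
    ([z0,z0,z3,z0,z0],z1),([z0,z0,z0,z6,z0],z5)],[([z2,z0,z0,z0,y1],z1),([z0,z1,z0,z0,z1],z1),([z0,z0,z1,z0,z1],z1)],
    [([z4,z0,z0,z0,z0],z3),([z0,z2,z0,z0,z0],z1),([z0,z0,z4,z4,z0],z5)],[([z2,z0,z0,z0,y1],z1),([z0,z1,z0,z0,z1],z1),
    ([z0,z0,z1,z0,y1],z0)],[([z3,z0,z0,z0,z0],z2),([z0,z3,z0,z0,z0],z2),([z0,z0,z3,z3,z0],z4)],[([z2,z0,z0,z0,y1],z1),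
    ([z0,z1,z0,z0,z1],z1),([z0,z0,z1,z0,y2],z0)],[([z2,z0,z0,z0,y1],z1),([z0,z1,z0,z0,z1],z1),([z0,z0,z2,z0,y1],z1)],
    [([z6,z0,z0,z0,z0],z5),([z0,z3,z0,z0,z0],z1),([z0,z0,z6,z6,z0],z7)],[([z2,z0,z0,z0,y1],z1),([z0,z1,z0,z0,z1],z1)],
    [([z1,z0,z0,z0,y1],z0),([z0,z1,z0,z0,z1],z1)]],
    [[([z2,z0,z0,z2,z0],z3),([z0,z2,z0,z0,z0],z1),([z0,z0,z2,z0,z0],z1)],[([z3,z0,z0,z3,z0],z4),([z0,z3,z0,z0,z0],z2),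
    ([z0,z0,z3,z0,z0],z2)],[([z3,z0,z0,z3,z0],z5),([z0,z3,z0,z0,z0],z1),([z0,z0,z3,z0,z0],z1)],[([z1,z0,z0,z1,y1],z1),
    ([z0,z1,z0,z0,z1],z1)],[([z2,z0,z0,z0,z0],z1),([z0,z3,z0,z0,z0],z2),([z0,z0,z3,z0,z0],z2),([z0,z0,z0,z6,z0],z5)],
    [([z2,z0,z0,z0,y3],z0),([z0,z1,z0,z0,z1],z1),([z0,z0,z1,z0,z1],z1)],[([z2,z0,z0,z0,z1],z2),([z0,z1,z0,z0,y1],z0),
    ([z0,z0,z1,z0,z1],z1)],[([z6,z0,z0,z0,z0],z5),([z0,z3,z0,z0,z0],z2),([z0,z0,z6,z6,z0],z7)],[([z2,z0,z0,z0,z1],z2),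
    ([z0,z1,z0,z0,z1],z1),([z0,z0,z1,z0,y2],z0)],[([z3,z0,z0,z0,z0],z2),([z0,z3,z0,z0,z0],z1),([z0,z0,z3,z3,z0],z4)],
    [([z2,z0,z0,z0,z1],z2),([z0,z1,z0,z0,z1],z1)],[([z2,z0,z0,z0,z0],z1),([z0,z3,z0,z0,z0],z1),([z0,z0,z3,z0,z0],z1),
    ([z0,z0,z0,z6,z0],z7)]],
    [[([z2,z0,z0,z0,y2],z1),([z0,z1,z0,z0,z1],z1),([z0,z0,z1,z0,z1],z1)],[([z2,z0,z0,z0,z0],z1),([z0,z1,z0,z0,z1],z1),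
    ([z0,z0,z1,z0,y1],z0)],[([z2,z0,z0,z0,z0],z1),([z0,z3,z0,z0,z0],z2),([z0,z0,z2,z2,z0],z3)],[([z2,z0,z0,z0,z0],z1),
    ([z0,z2,z0,z0,z0],z1),([z0,z0,z2,z2,z0],z3)],[([z2,z0,z0,z0,z0],z1),([z0,z1,z0,z0,z1],z1),([z0,z0,z1,z0,y2],z0)],
    [([z2,z0,z0,z0,z0],z1),([z0,z1,z0,z0,z1],z1),([z0,z0,z2,z0,y1],z1)],[([z2,z0,z0,z0,z0],z1),([z0,z3,z0,z0,z0],z1),
    ([z0,z0,z2,z2,z0],z3)],[([z2,z0,z0,z0,z0],z1),([z0,z1,z0,z0,z1],z1)],[([z1,z0,z0,z1,z1],z2),([z0,z1,z0,z0,y1],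
    z0)],[([z1,z0,z1,z1,z0],z2),([z0,z3,z0,z0,z0],z2)],[([z1,z0,z0,z1,z2],z2),([z0,z1,z0,z0,y2],z0)],[([z1,z0,z1,z1,
    z0],z2),([z0,z3,z0,z0,z0],z1)]],
    [[([z1,z0,z1,z1,z0],z2),([z0,z2,z0,z0,z0],z1)],[([z1,z0,z1,z1,z0],z2)],[([z2,z0,z0,z0,y1],z0),([z0,z1,z0,z0,z2],
    z2),([z0,z0,z1,z0,y1],z0)],[([z1,z0,z0,z0,y1],z0),([z0,z1,z0,z0,z2],z2),([z0,z0,z1,z0,y1],z0)],[([z3,z0,z0,z0,z0],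
    z1),([z0,z3,z0,z0,z0],z2),([z0,z0,z3,z0,z0],z2),([z0,z0,z0,z3,z0],z2)],[([z6,z0,z0,z0,y3],z2),([z0,z3,z0,z0,z3],
    z4),([z0,z0,z3,z0,z0],z2)],[([z1,z0,z0,z1,z0],z1),([z0,z1,z0,y2,z0],z0)],[([z3,z0,z0,z0,z0],z1),([z0,z3,z0,z0,z0],
    z2),([z0,z0,z3,z0,z3],z4)],[([z2,z0,z0,z0,y1],z0),([z0,z1,z0,z0,y1],z0),([z0,z0,z1,z0,z2],z2)],[([z1,z0,z0,z0,y1],
    z0),([z0,z1,z0,z0,y1],z0),([z0,z0,z1,z0,z2],z2)],[([z1,z0,z0,z1,z0],z1),([z0,z1,z0,z2,z0],z2)],[([z3,z0,z0,z0,z0],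
    z1),([z0,z3,z3,z0,z0],z4),([z0,z0,z0,z3,z0],z2)]],
    [[([z2,z0,z0,z0,y1],z0),([z0,z1,z1,z0,z1],z2)],[([z1,z0,z0,z1,z0],z1),([z0,z3,z0,z0,z0],z2),([z0,z0,z3,z0,z0],
    z2)],[([z1,z0,z0,z1,z0],z1),([z0,z1,z0,z0,y1],z0)],[([z3,z0,z0,z0,z0],z1),([z0,z3,z0,z0,z3],z4),([z0,z0,z3,z0,z0],
    z2)],[([z6,z0,z0,z0,y3],z2),([z0,z3,z0,z0,z0],z2),([z0,z0,z3,z0,z3],z4)],[([z2,z0,z0,z0,y1],z0),([z0,z3,z0,z0,z3],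
    z4),([z0,z0,z3,z0,z0],z2)],[([z2,z0,z0,z0,y1],z0),([z0,z3,z0,z0,z0],z2),([z0,z0,z3,z0,z3],z4)],[([z1,z0,z0,z1,z0],
    z1),([z0,z3,z0,z0,z0],z2)],[([z1,z0,z0,z1,z0],z1)],[([z3,z0,z0,z0,z0],z2),([z0,z3,z0,z0,z0],z2),([z0,z0,z1,z1,z0],
    z1)],[([z2,z0,z0,z0,z1],z2),([z0,z1,z0,z0,y1],z0),([z0,z0,z2,z0,z1],z2)],[([z5,z0,z0,z0,z0],z3),([z0,z5,z0,z0,z0],
    z4),([z0,z0,z5,z0,z0],z2),([z0,z0,z0,z5,z0],z4)]],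
    [[([z2,z0,z0,z0,y3],z0),([z0,z1,z0,z0,z3],z2),([z0,z0,z1,z0,y1],z0)],[([z2,z0,z0,z0,z1],z2),([z0,z1,z0,z0,y1],
    z0)],[([z4,z0,z0,z0,z0],z3),([z0,z4,z0,z4,z0],z5),([z0,z0,z2,z0,z0],z1)],[([z2,z0,z0,z0,z1],z2),([z0,z2,z0,z0,z1],
    z2),([z0,z0,z1,z0,y1],z0)],[([z5,z0,z0,z0,z0],z3),([z0,z5,z0,z0,z0],z2),([z0,z0,z5,z0,z0],z4),([z0,z0,z0,z5,z0],
    z4)],[([z3,z0,z0,z0,z0],z2),([z0,z9,z0,z0,z0],z4),([z0,z0,z3,z0,z0],z2),([z0,z0,z0,z9,z0],z7)],[([z2,z0,z0,z0,y3],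
    z0),([z0,z1,z0,z0,y1],z0),([z0,z0,z1,z0,z3],z2)],[([z3,z0,z0,z0,z0],z2),([z0,z3,z0,z0,z0],z1),([z0,z0,z3,z0,z0],
    z2),([z0,z0,z0,z3,z0],z2)],[([z3,z0,z0,z0,z0],z2),([z0,z1,z0,z1,z0],z1),([z0,z0,z3,z0,z0],z2)],[([z2,z0,z0,z0,z1],
    z2),([z0,z2,z0,z2,z3],z4)],[([z2,z0,z0,z0,z1],z2),([z0,z1,z0,z0,y2],z0),([z0,z0,z1,z0,z1],z1)],[([z6,z0,z0,z0,z0],
    z5),([z0,z6,z0,z6,z0],z7),([z0,z0,z3,z0,z0],z2)]],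
    [[([z3,z0,z0,z0,z0],z2),([z0,z3,z0,z0,z0],z2),([z0,z0,z2,z0,z0],z1),([z0,z0,z0,z6,z0],z5)],[([z8,z0,z0,z0,z0],z5),
    ([z0,z4,z0,z0,z0],z3),([z0,z0,z2,z0,z0],z1),([z0,z0,z0,z8,z0],z7)],[([z3,z0,z0,z0,z0],z2),([z0,z2,z0,z0,z0],z1),
    ([z0,z0,z3,z0,z0],z1),([z0,z0,z0,z6,z0],z5)],[([z2,z0,z0,z0,y1],z1),([z0,z1,z0,z0,z1],z1),([z0,z0,z2,z0,z0],z1)],
    [([z2,z0,z0,z0,z1],z2),([z0,z2,z0,z0,y3],z0),([z0,z0,z1,z0,z1],z1)],[([z3,z0,z0,z0,z0],z2),([z0,z3,z0,z3,z0],z4),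
    ([z0,z0,z3,z0,z0],z1)],[([z2,z0,z0,z0,z1],z2),([z0,z2,z0,z2,y1],z2)],[([z2,z0,z0,z0,z1],z2),([z0,z1,z1,z0,z0],
    z1)],[([z2,z0,y2,z0,z1],z0),([z0,z1,z2,z0,z0],z2)],[([z2,z0,z0,z0,z0],z1),([z0,z4,z0,z0,z0],z3),([z0,z0,z2,z0,z0],
    z1),([z0,z0,z0,z4,z0],z3)],[([z2,z0,z0,z0,z0],z1),([z0,z6,z0,z0,z0],z5),([z0,z0,z3,z0,z0],z1),([z0,z0,z0,z3,z0],
    z2)],[([z2,z0,z0,z0,z0],z1),([z0,z2,z0,z0,y1],z1),([z0,z0,z1,z0,z1],z1)]],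
    [[([z6,z0,z0,z0,z3],z4),([z0,z3,z0,z0,z0],z2),([z0,z0,z3,z0,z0],z2)],[([z12,z0,z0,z0,z0],z7),([z0,z6,z0,z0,z0],
    z5),([z0,z0,z3,z0,z0],z1),([z0,z0,z0,z4,z0],z3)],[([z6,z0,z0,z0,z1],z4),([z0,z3,z0,z0,y1],z2),([z0,z0,z3,z0,z2],
    z2)],[([z2,z0,z0,z0,z1],z2),([z0,z1,z0,z2,z1],z2)],[([z6,z0,z0,z0,z0],z5),([z0,z3,z0,z0,z0],z1),([z0,z0,z3,z0,z0],
    z2),([z0,z0,z0,z6,z0],z5)],[([z12,z0,z0,z0,z0],z7),([z0,z3,z0,z0,z0],z2),([z0,z0,z2,z0,z0],z1),([z0,z0,z0,z4,z0],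
    z3)],[([z3,z0,z0,z0,z0],z2),([z0,z3,z0,z0,z0],z2),([z0,z0,z9,z0,z0],z4),([z0,z0,z0,z9,z0],z7)],[([z2,z0,z0,z0,z1],
    z2),([z0,z1,z0,z0,y1],z0),([z0,z0,z3,z0,z0],z2)],[([z6,z0,z0,z0,y3],z2),([z0,z3,z0,z0,z0],z2),([z0,z0,z1,z0,z1],
    z1)],[([z2,z0,z0,z0,z1],z2),([z0,z3,z0,z0,z0],z1),([z0,z0,z3,z0,z0],z2)],[([z2,z0,z0,z0,z1],z2),([z0,z6,z0,z6,z3],
    z8)],[([z2,z0,z0,z0,z1],z2)]],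
    [[([z1,z0,z0,z0,z1],z1)],[([z1,z0,y1,z0,z0],z0),([z0,z1,z2,z0,z0],z2)],[([z3,z0,z0,z0,z0],z2),([z0,z3,z0,z0,z0],
    z2),([z0,z0,z3,z0,z0],z2)],[([z2,z0,z0,z0,y1],z1),([z0,z1,z0,z0,y2],z0),([z0,z0,z1,z0,z1],z1)],[([z8,z0,z0,z0,z0],
    z5),([z0,z2,z0,z0,z0],z1),([z0,z0,z4,z0,z0],z3),([z0,z0,z0,z8,z0],z5)],[([z12,z0,z0,z0,z0],z7),([z0,z3,z0,z0,z0],
    z1),([z0,z0,z6,z0,z0],z5),([z0,z0,z0,z12,z0],z7)],[([z4,z0,z0,z0,z1],z3),([z0,z2,z0,z0,y1],z1),([z0,z0,z1,z0,z1],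
    z1)],[([z1,z0,z0,z0,y2],z0),([z0,z1,z0,z0,y2],z0),([z0,z0,z1,z0,z4],z2)],[([z6,z0,z0,z0,z1],z4),([z0,z3,z0,z0,z2],
    z2),([z0,z0,z3,z0,y1],z2)],[([z24,z0,z0,z0,z0],z11),([z0,z4,z0,z0,z0],z3),([z0,z0,z2,z0,z0],z1),([z0,z0,z0,z8,z0],
    z5)],[([z9,z0,z0,z0,z0],z5),([z0,z9,z0,z0,z0],z2),([z0,z0,z9,z0,z0],z8),([z0,z0,z0,z3,z0],z2)],[([z2,z0,z0,z0,z0],
    z1),([z0,z9,z0,z0,z0],z7),([z0,z0,z9,z0,z0],z4),([z0,z0,z0,z18,z0],z11)]],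
    [[([z9,z0,z0,z3,z0],z7),([z0,z9,z0,z12,z0],z10),([z0,z0,z9,y6,z0],z4)],[([z3,z0,z0,z1,z1],z3),([z0,z3,z0,z4,z4],
    z6)],[([z2,z0,z0,z0,y1],z1),([z0,z2,z0,z0,y1],z1),([z0,z0,z1,z0,z1],z1)],[([z4,z0,z0,z4,z0],z5),([z0,z2,z0,z0,z0],
    z1),([z0,z0,z4,z0,z0],z3)],[([z6,z0,z0,z6,z0],z7),([z0,z3,z0,z0,z0],z1),([z0,z0,z6,z0,z0],z5)],[([z2,z0,z0,z2,z1],
    z3),([z0,z2,z0,z0,y1],z1)],[([z1,z0,z0,z0,z1],z1),([z0,z1,z0,z2,z0],z2)],[([z1,z0,z0,z0,y2],z0),([z0,z1,z0,z0,z4],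
    z2),([z0,z0,z1,z0,y2],z0)],[([z9,z0,z0,z3,z0],z7),([z0,z9,z0,y6,z0],z4),([z0,z0,z9,z12,z0],z10)],[([z3,z0,z0,z1,
    z1],z3),([z0,z3,z0,y2,y2],z0)],[([z1,z0,y1,z1,z1],z1)],[([z1,z0,z0,z1,z1],z2)]],
    [[([z2,z0,z0,z0,y1],z1),([z0,z1,z0,z0,y1],z0),([z0,z0,z1,z0,z1],z1)],[([z3,z0,z0,z0,z0],z2),([z0,z3,z0,z3,z0],z4),
    ([z0,z0,z3,z0,z0],z2)],[([z6,z0,z0,z0,z0],z5),([z0,z6,z0,z6,z0],z7),([z0,z0,z3,z0,z0],z1)],[([z2,z0,z0,z0,y1],z1),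
    ([z0,z2,z0,z2,z1],z3)],[([z1,z0,z0,z0,y1],z0),([z0,z1,z0,z0,z1],z1),([z0,z0,z1,z0,z2],z2)],[([z1,z0,z0,y1,z0],z0),
    ([z0,z3,z0,z0,z0],z2),([z0,z0,z1,z2,z0],z2)],[([z1,z0,z0,z0,z1],z1),([z0,z1,z0,z0,y2],z0),([z0,z0,z1,z0,z1],z1)],
    [([z1,z0,z0,y1,z0],z0),([z0,z3,z0,z0,z0],z1),([z0,z0,z1,z2,z0],z2)],[([z1,z0,z0,y1,z0],z0),([z0,z2,z0,z0,z0],z1),
    ([z0,z0,z1,z2,z0],z2)],[([z1,z0,z0,y1,z0],z0),([z0,z1,z0,z0,z1],z1)],[([z1,z0,z0,z0,z1],z1),([z0,z1,z0,z1,z2],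
    z2)],[([z1,z0,z0,z1,z1],z2),([z0,z1,z0,z2,z0],z2)]],
    [[([z2,z0,z0,z2,z0],z3),([z0,z1,z0,z2,z0],z2),([z0,z0,z1,y2,z0],y1)],[([z3,z0,z0,z0,z0],z2),([z0,z3,z0,z0,z0],z1),
    ([z0,z0,z3,z0,z0],z2),([z0,z0,z0,z6,z0],z5)],[([z3,z0,z0,z0,z0],z2),([z0,z2,z0,z0,z0],z1),([z0,z0,z3,z0,z0],z2),
    ([z0,z0,z0,z4,z0],z3)],[([z3,z0,z0,z0,y3],z1),([z0,z3,z0,z0,z0],z2),([z0,z0,z3,z0,z6],z4)],[([z4,z0,z0,z0,z0],z3),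
    ([z0,z6,z0,z0,z0],z1),([z0,z0,z2,z0,z0],z1),([z0,z0,z0,z12,z0],z11)],[([z3,z0,z0,z3,z0],z5),([z0,z1,z0,z2,z0],z2),
    ([z0,z0,z3,y6,z0],y4)],[([z1,z0,z0,z1,y1],z1),([z0,z1,z0,z2,z0],z2)],[([z2,z0,z1,z0,z0],z2)],[]]]

/-- symmetries -/
noncomputable def hS5_23 : List (Bool × ℕ × List ℕ) :=
  [(false,k0,[k0,k1,k2,k3,k4]),(true,k3,[k3,k2,k1,k0,k4])]

/-- equations of the nodes for the classes `0 0 0 0 0`, active pairs `` -/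
noncomputable def hD5_39 : List (List (List Eqn)) :=
  [[[([z3,z0,z0,z0,z0],z2),([z0,z3,z0,z0,z0],z2),([z0,z0,z3,z0,z0],z2)],[([z3,z0,z0,z0,z0],z1),([z0,z3,z0,z0,z0],z2),
    ([z0,z0,z3,z0,z0],z2)],[([z3,z0,z0,z0,z0],z1),([z0,z3,z0,z0,z3],z4),([z0,z0,z3,z0,z0],z2)],[([z3,z0,z0,z0,z0],z2),
    ([z0,z3,z0,z0,z0],z2),([z0,z0,z1,z0,z1],z1)],[([z3,z0,y3,z0,z0],y1),([z0,z1,z2,z0,z0],z2),([z0,z0,z0,z3,z0],z2)],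
    [([z3,z0,z0,z0,y3],y1),([z0,z1,z0,z0,z2],z2),([z0,z0,z3,z0,z0],z2)],[([z3,z0,z0,z0,y3],y1),([z0,z3,z0,z0,z0],z2),
    ([z0,z0,z3,z0,z0],z2)],[([z3,z0,z0,z0,z0],z2),([z0,z3,z0,z0,z0],z2)],[([z3,z0,z0,z0,z0],z1),([z0,z3,z0,z0,z0],z2),
    ([z0,z0,z3,z0,z3],z4)],[([z3,z0,z0,z0,z0],z1),([z0,z3,z0,z0,z0],z2),([z0,z0,z3,z3,z0],z4)],[([z3,z0,z0,y3,z0],y1),
    ([z0,z1,z0,z2,z0],z2),([z0,z0,z3,z0,z0],z2)],[([z3,z0,z0,z0,y3],y1),([z0,z3,z0,z0,z0],z2),([z0,z0,z1,z0,z2],z2)]],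
    [[([z3,z0,z0,y3,z0],y1),([z0,z3,z0,z0,z0],z2),([z0,z0,z1,z2,z0],z2)],[([z3,z0,z0,z0,z0],z2),([z0,z3,z0,z3,z3],
    z5)],[([z3,z0,z0,z0,z0],z2),([z0,z1,z1,z0,z0],z1)],[([z3,z0,z0,z0,z0],z2),([z0,z1,z0,z1,z0],z1)],[([z3,z0,z0,z0,
    z0],z2),([z0,z3,z0,z0,z3],z4)],[([z3,z0,z0,z0,z0],z2),([z0,z1,z0,z0,z1],z1)],[([z3,z0,z0,z0,z0],z2),([z0,z2,z0,z0,
    z1],z2),([z0,z0,z1,z0,y1],z0)],[([z1,z0,y1,z0,z0],z0),([z0,z1,z2,z0,z0],z2),([z0,z0,z0,z3,z0],z1)],[([z1,z0,z0,y1,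
    z0],z0),([z0,z3,z0,z0,z0],z1),([z0,z0,z1,z2,z0],z2)],[([z3,z0,z0,z0,z0],z1),([z0,z6,z0,z0,z0],z5),([z0,z0,z3,z0,
    z0],z2)],[([z1,z0,z0,y2,z0],y1),([z0,z3,z0,z3,z0],z4),([z0,z0,z1,z2,z0],z2)],[([z3,z0,z0,z0,z0],z2),([z0,z2,z0,z0,
    z1],z2),([z0,z0,z6,z0,y9],y4)]],
    [[([z3,z0,z0,z0,z0],z2),([z0,z3,z0,z0,z3],z4),([z0,z0,z1,z0,y2],y1)],[([z3,z0,z0,z0,z0],z2),([z0,z9,z0,z0,z3],z7),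
    ([z0,z0,z9,z0,y6],z4)],[([z1,z0,z0,y4,z0],y2),([z0,z3,z0,z9,z0],z7),([z0,z0,z1,z2,z0],z2)],[([z3,z0,z0,z0,z0],z1),
    ([z0,z3,z0,z0,z0],z2),([z0,z0,z3,z3,z0],z2)],[([z3,z0,z0,z0,z0],z2),([z0,z1,z0,z0,z1],z1),([z0,z0,z3,z0,y6],y2)],
    [([z3,z0,z0,y6,z0],y2),([z0,z1,z0,z1,z0],z1),([z0,z0,z1,z2,z0],z2)],[([z3,z0,z0,z0,z0],z2),([z0,z3,z0,z0,z3],z5),
    ([z0,z0,z3,z0,y6],y4)],[([z3,z0,y3,y3,z0],y1),([z0,z3,z6,z6,z0],z8)],[([z1,z0,z0,y2,z0],y1),([z0,z1,z0,z2,z0],z2),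
    ([z0,z0,z3,z3,z0],z4)],[([z1,z0,z0,z0,y2],y1),([z0,z1,z0,z0,z2],z2),([z0,z0,z3,z0,z3],z4)],[([z3,z0,z0,z0,y6],y2),
    ([z0,z1,z0,z0,z2],z2),([z0,z0,z1,z0,z1],z1)],[([z3,z0,z0,y6,z0],y2),([z0,z1,z0,z2,z0],z2),([z0,z0,z1,z1,z0],z1)]],
    [[([z3,z0,z0,z0,z0],z1),([z0,z6,z0,z0,z6],z7),([z0,z0,z3,z0,z0],z2)],[([z1,z0,z0,z0,y1],z0),([z0,z3,z0,z0,z0],z2),
    ([z0,z0,z3,z0,z0],z1)],[([z1,z0,z0,z0,y4],y2),([z0,z3,z0,z0,z9],z7),([z0,z0,z1,z0,z2],z2)],[([z3,z0,z0,y6,z0],y4),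
    ([z0,z1,z0,z2,z0],z2),([z0,z0,z3,z3,z0],z5)],[([z1,z0,z0,z0,y4],y2),([z0,z1,z0,z0,z2],z2),([z0,z0,z3,z0,z9],z7)],
    [([z3,z0,z0,z0,z0],z1),([z0,z3,z0,z0,z0],z2),([z0,z0,z3,z0,z3],z2)],[([z3,z0,z0,z0,y6],y4),([z0,z1,z0,z0,z2],z2),
    ([z0,z0,z3,z0,z3],z5)],[([z1,z0,z0,y4,z0],y2),([z0,z1,z0,z2,z0],z2),([z0,z0,z3,z9,z0],z7)],[([z3,z0,z0,z0,z0],z2),
    ([z0,z2,z0,z1,z0],z2)],[([z1,z0,z0,z0,y2],y1),([z0,z3,z0,z0,z3],z4),([z0,z0,z1,z0,z2],z2)],[([z3,z0,z0,z0,z0],z2),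
    ([z0,z2,z0,z0,z1],z2),([z0,z0,z6,z0,y3],z2)],[([z1,z0,z0,y1,z0],z0),([z0,z3,z0,z0,z0],z2),([z0,z0,z1,z2,z0],z2)]],
    [[([z1,z0,z0,z0,y1],z0),([z0,z3,z0,z0,z0],z1),([z0,z0,z1,z0,z2],z2)],[([z3,z0,z0,z0,z0],z1),([z0,z3,z0,z0,z0],z2),
    ([z0,z0,z6,z0,z0],z5)],[([z3,z0,z0,z0,z0],z2),([z0,z2,z0,z0,z1],z2),([z0,z0,z2,z0,y1],z0)],[([z3,z0,z0,z0,y6],y2),
    ([z0,z1,z0,z0,z1],z1),([z0,z0,z1,z0,z2],z2)],[([z3,z0,z0,z0,z0],z1),([z0,z3,z0,z0,z0],z2),([z0,z0,z3,z0,z0],z4)],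
    [([z3,z0,z0,z0,y6],y4),([z0,z3,z0,z0,z0],z2),([z0,z0,z3,z0,z3],z5)],[([z3,z0,z0,z0,z0],z2),([z0,z2,z0,z0,z1],z2),
    ([z0,z0,z6,z0,y3],z4)],[([z3,z0,z0,y3,y3],y1),([z0,z3,z0,z0,z0],z2)],[([z1,z0,z0,z0,y1],z0),([z0,z3,z0,z0,z0],z1),
    ([z0,z0,z3,z0,z0],z2)],[([z3,z0,z0,y6,z0],y2),([z0,z3,z0,z3,z0],z4),([z0,z0,z3,z6,z0],z5)],[([z3,z0,z0,z0,z0],z2),
    ([z0,z1,z0,z0,z1],z1),([z0,z0,z6,z0,y3],z2)],[([z3,z0,z0,z0,z0],z1),([z0,z3,z0,z0,z0],z2),([z0,z0,z6,z6,z0],z7)]],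
    [[([z3,z0,z0,z0,z0],z2),([z0,z2,z0,z0,z1],z2),([z0,z0,z4,z0,y1],z2)],[([z6,z0,z0,y9,z0],y4),([z0,z1,z0,z2,z0],z2),
    ([z0,z0,z2,z1,z0],z2)],[([z3,z0,z0,z0,z0],z2),([z0,z3,z0,z0,z3],z4),([z0,z0,z2,z0,y1],z0)],[([z1,z0,z0,y2,z0],z0),
    ([z0,z1,z0,z1,z0],z1),([z0,z0,z3,z6,z0],z4)],[([z3,z0,z0,z0,z0],z1),([z0,z3,z0,z0,z0],z4),([z0,z0,z3,z0,z0],z2)],
    [([z3,z0,z0,y6,z0],y4),([z0,z3,z0,z3,z0],z5),([z0,z0,z1,z2,z0],z2)],[([z3,z0,z0,z0,z0],z2),([z0,z3,z0,z0,z3],z2),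
    ([z0,z0,z6,z0,y3],z4)],[([z3,z0,z0,y3,y3],y1),([z0,z3,z0,z6,z6],z8)],[([z3,z0,z0,z0,z0],z1),([z0,z3,z0,z0,z0],
    z2)],[([z3,z0,z0,z0,z0],z1),([z0,z1,z0,z1,z1],z2)],[([z3,z0,z0,y6,z0],y2),([z0,z3,z0,z6,z0],z5),([z0,z0,z3,z3,z0],
    z4)],[([z3,z0,z0,z0,y6],y2),([z0,z3,z0,z0,z0],z2),([z0,z0,z1,z0,z2],z2)]],
    [[([z1,z0,z0,z0,y2],y1),([z0,z3,z0,z0,z0],z2),([z0,z0,z1,z0,z2],z2)],[([z1,z0,z0,y2,z0],z0),([z0,z3,z0,z6,z0],z4),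
    ([z0,z0,z1,z1,z0],z1)],[([z3,z0,z0,z0,z0],z1),([z0,z3,z0,z0,z0],z2),([z0,z0,z6,z0,z6],z7)],[([z3,z0,z0,z0,y6],y4),
    ([z0,z3,z0,z0,z0],z2),([z0,z0,z1,z0,z2],z2)],[([z3,z0,z0,z0,z0],z1),([z0,z3,z0,z0,z3],z2),([z0,z0,z3,z0,z0],z2)],
    [([z1,z0,z0,z0,y4],y2),([z0,z3,z0,z0,z0],z2),([z0,z0,z1,z0,z2],z2)],[([z3,z0,z0,z0,y9],y5),([z0,z3,z0,z0,z0],z2),
    ([z0,z0,z1,z0,z2],z2)],[([z1,z0,z0,z0,y4],y2),([z0,z3,z0,z0,z0],z2),([z0,z0,z3,z0,z9],z7)],[([z6,z0,z0,y9,z0],y4),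
    ([z0,z2,z0,z1,z0],z2),([z0,z0,z1,z2,z0],z2)],[([z3,z0,z0,z0,z0],z2),([z0,z6,z0,z6,z3],z8)],[([z3,z0,z0,z0,z0],z2),
    ([z0,z9,z0,z0,z6],z8),([z0,z0,z9,z0,y3],z5)],[([z1,z0,z0,z0,y2],y1),([z0,z3,z0,z0,z0],z2),([z0,z0,z3,z0,z3],z4)]],
    [[([z3,z0,z0,z0,z0],z1),([z0,z6,z0,z0,z0],z5),([z0,z0,z6,z0,z6],z7)],[([z3,z0,z0,z0,z0],z2),([z0,z6,z0,z0,z3],z5),
    ([z0,z0,z2,z0,y1],z1)],[([z3,z0,z0,z0,z0],z2),([z0,z6,z0,z0,z3],z4),([z0,z0,z6,z0,y3],z2)],[([z3,z0,z0,z0,z0],z1),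
    ([z0,z3,z0,z0,z0],z4),([z0,z0,z3,z0,z3],z2)],[([z3,z0,z0,z0,y6],y2),([z0,z3,z0,z0,z0],z2),([z0,z0,z1,z0,z1],z1)],
    [([z3,z0,y3,z0,y3],y1),([z0,z3,z6,z0,z6],z8)],[([z3,z0,z0,z0,z0],z2)],[([z1,z0,y1,z0,z0],z0),([z0,z1,z2,z0,z0],
    z2)],[([z1,z0,z0,y1,z0],z0),([z0,z1,z0,z0,z1],z1)],[([z1,z0,z0,z0,y1],z0),([z0,z1,z0,z0,z2],z2)],[([z1,z0,z0,z0,
    y5],y3),([z0,z1,z0,z0,y4],y2),([z0,z0,z1,z0,z8],z6)],[([z1,z0,z0,z0,y4],y2),([z0,z1,z0,z0,z2],z2),([z0,z0,z1,z0,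
    z1],z1)]],
    [[([z1,z0,z0,z0,y4],y2),([z0,z1,z0,z0,z2],z2),([z0,z0,z1,z0,z4],z3)],[([z1,z0,z0,z0,y4],y2),([z0,z1,z0,z0,z2],z2),
    ([z0,z0,z1,z0,z6],z4)],[([z1,z0,z0,z0,y4],y2),([z0,z1,z0,z0,z2],z2),([z0,z0,z1,z0,y2],y1)],[([z1,z0,z0,z0,y4],y2),
    ([z0,z1,z0,z0,z2],z2),([z0,z0,z1,z0,y5],y3)],[([z5,z0,z0,z0,z0],z2),([z0,z5,z0,z0,z0],z3),([z0,z0,z5,z5,z0],z6)],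
    [([z1,z0,z0,z0,y4],y2),([z0,z1,z0,z0,z2],z2),([z0,z0,z1,z0,y3],y1)],[([z1,z0,z0,z0,y4],y2),([z0,z1,z0,z0,z2],z2),
    ([z0,z0,z1,z0,z2],z2)],[([z1,z0,z0,z0,y4],y2),([z0,z1,z0,z0,z2],z2),([z0,z0,z1,z0,z5],z4)],[([z1,z0,z0,z0,y4],y2),
    ([z0,z1,z0,z0,z2],z2),([z0,z0,z1,z0,y1],z0)],[([z1,z0,z0,z0,y5],y3),([z0,z1,z0,z0,z2],z2),([z0,z0,z1,z0,z8],z6)],
    [([z1,z0,z0,z0,y5],y3),([z0,z1,z0,z0,z8],z6),([z0,z0,z1,z0,z2],z2)],[([z2,z0,z0,y3,z2],z0),([z0,z2,z0,z1,z0],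
    z2)]],
    [[([z1,z0,z0,y2,y2],y2),([z0,z1,z0,z1,z1],z2)],[([z1,z0,z0,y2,z0],y1),([z0,z1,z0,z1,z1],z2)],[([z2,z0,z0,z0,z1],
    z2),([z0,z2,z2,z0,y1],z2)],[([z1,z0,z0,z0,y1],z0),([z0,z1,z0,z0,z2],z2),([z0,z0,z1,z0,y4],y2)],[([z1,z0,z0,z0,y2],
    z0),([z0,z1,z0,z0,z1],z1),([z0,z0,z1,z0,y2],z0)],[([z5,z0,z0,z0,z0],z2),([z0,z5,z0,z0,z0],z4),([z0,z0,z5,z0,z0],
    z3)],[([z1,z0,z0,z0,y2],z0),([z0,z1,z0,z0,z4],z2),([z0,z0,z1,z0,y2],z0)],[([z1,z0,z0,z0,y5],y3),([z0,z1,z0,z0,z8],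
    z6),([z0,z0,z1,z0,y4],y2)],[([z1,z0,z0,z0,y2],z0),([z0,z1,z0,z0,z1],z1),([z0,z0,z2,z0,y1],z1)],[([z1,z0,z0,z0,y5],
    y3),([z0,z1,z0,z0,z2],z2),([z0,z0,z1,z0,y4],y2)],[([z1,z0,z0,z0,y2],y1),([z0,z1,z0,z0,z5],z4),([z0,z0,z1,z0,y4],
    y2)],[([z1,z0,z0,z0,y3],y1),([z0,z1,z0,z0,z6],z4),([z0,z0,z1,z0,y4],y2)]],
    [[([z3,z0,z0,z0,y4],y2),([z0,z3,z0,z0,z2],z4),([z0,z0,z3,z0,y1],z1)],[([z4,z0,z0,z0,y5],y2),([z0,z1,z0,z0,z2],z2),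
    ([z0,z0,z4,z0,y1],z2)],[([z2,z0,z0,z0,z1],z2),([z0,z4,z0,z0,y1],z2)],[([z4,z0,z0,z0,y5],y2),([z0,z2,z0,z0,z1],z2),
    ([z0,z0,z4,z0,y1],z2)],[([z1,z0,z0,z0,y1],z0),([z0,z2,z0,z0,z1],z2),([z0,z0,z2,z0,y1],z0)],[([z2,z0,z0,z0,y5],y2),
    ([z0,z1,z0,z0,z2],z2),([z0,z0,z1,z0,z1],z1)],[([z1,z0,z0,z0,y2],z0),([z0,z2,z0,z0,z5],z3),([z0,z0,z2,z0,y1],z1)],
    [([z3,z0,z0,z0,y4],y2),([z0,z1,z0,z0,z2],z2),([z0,z0,z3,z0,y1],z1)],[([z1,z0,z0,z0,y4],y2),([z0,z1,z0,z0,z4],z3),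
    ([z0,z0,z1,z0,y1],z0)],[([z5,z0,z0,z0,z0],z2),([z0,z5,z0,z0,z5],z6),([z0,z0,z5,z0,z0],z3)],[([z1,z0,z0,z0,y3],y2),
    ([z0,z1,z0,z0,z2],z2),([z0,z0,z2,z0,z3],z4)],[([z1,z0,z0,z0,y4],y2),([z0,z1,z0,z0,z4],z3),([z0,z0,z1,z0,z2],z2)]],
    [[([z1,z0,z0,y4,z0],y2),([z0,z1,z0,z3,z1],z3)],[([z1,z0,z0,z0,y5],y3),([z0,z1,z0,z0,y4],y2),([z0,z0,z1,z0,z2],
    z2)],[([z1,z0,z0,z0,y4],y2),([z0,z1,z0,z0,y3],y1),([z0,z0,z1,z0,z6],z4)],[([z1,z0,z0,z0,y4],y2),([z0,z1,z0,z0,z8],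
    z6),([z0,z0,z1,z0,y5],y3)],[([z1,z0,z0,z0,y4],y2),([z0,z1,z0,z0,z5],z4),([z0,z0,z1,z0,y2],y1)],[([z1,z0,z0,z0,y4],
    y2),([z0,z1,z0,z0,y1],z0),([z0,z0,z1,z0,z2],z2)],[([z5,z0,z0,z0,z0],z2),([z0,z5,z0,z0,z0],z3),([z0,z0,z5,z0,z0],
    z4)],[([z1,z0,z0,z0,y4],y2),([z0,z1,z0,z0,z6],z4),([z0,z0,z1,z0,y3],y1)],[([z1,z0,z0,z0,y4],y2),([z0,z1,z0,z0,y5],
    y3),([z0,z0,z1,z0,z8],z6)],[([z1,z0,z0,z0,y4],y2),([z0,z1,z0,z0,y2],y1),([z0,z0,z1,z0,z5],z4)],[([z1,z0,z0,z0,y4],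
    y2),([z0,z1,z0,z0,z1],z1),([z0,z0,z1,z0,z2],z2)],[([z2,z0,z0,y3,z2],z0),([z0,z1,z0,z2,z0],z2)]],
    [[([z2,z0,z0,z0,z1],z2),([z0,z2,z0,z0,y1],z0)],[([z1,z0,z0,y2,z0],z0),([z0,z1,z0,z1,z0],z1)],[([z1,z0,z0,y2,z1],
    z0),([z0,z1,z0,z1,z0],z1)],[([z1,z0,z0,z0,y3],y2),([z0,z1,z0,z0,z4],z4),([z0,z0,z1,z0,y2],y1)],[([z1,z0,z0,z0,y6],
    y4),([z0,z1,z0,z0,z3],z3),([z0,z0,z1,z0,z2],z2)],[([z2,z0,z0,z0,y3],y1),([z0,z1,z0,z0,z1],z1),([z0,z0,z2,z0,y1],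
    z1)],[([z1,z0,z0,y2,z0],y1),([z0,z2,z0,z2,z0],z3),([z0,z0,z1,z2,z0],z2)],[([z2,z0,z0,z0,y3],z0),([z0,z1,z0,z0,z3],
    z2),([z0,z0,z1,z0,y1],z0)],[([z1,z0,z0,z0,y2],y1),([z0,z1,z0,z0,z2],z2),([z0,z0,z1,z0,y1],z0)],[([z1,z0,y1,z0,y1],
    y1),([z0,z1,z2,z0,z0],z2)],[([z2,z0,z0,y2,y1],z0),([z0,z1,z0,z2,z1],z2)],[([z2,z0,z0,z0,z1],z2),([z0,z2,z0,z1,z1],
    z2)]],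
    [[([z1,z0,z0,y1,y1],y1),([z0,z1,z0,z0,z2],z2)],[([z2,z0,y2,z0,z1],z0),([z0,z1,z2,z0,z0],z2)],[([z1,z0,y1,y1,y1],
    y1)],[([z1,z0,z0,y2,y2],y2),([z0,z1,z0,z2,z2],z3)],[([z1,z0,z0,z0,y1],z0),([z0,z1,z0,z1,z0],z1)],[([z1,z0,z0,y2,
    z0],y1),([z0,z1,z0,z2,z0],z2)],[([z5,z0,z0,z0,z0],z2),([z0,z5,z0,z0,z0],z3),([z0,z0,z5,z0,z5],z6)],[([z1,z0,z0,z0,
    y4],y2),([z0,z1,z0,z0,y5],y3),([z0,z0,z1,z0,z2],z2)],[([z1,z0,z0,z0,y4],y2),([z0,z1,z0,z0,z5],z4),([z0,z0,z1,z0,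
    z2],z2)],[([z1,z0,z0,z0,y4],y2),([z0,z1,z0,z0,y2],y1),([z0,z0,z1,z0,z2],z2)],[([z1,z0,z0,z0,y4],y2),([z0,z1,z0,z0,
    y3],y1),([z0,z0,z1,z0,z2],z2)],[([z1,z0,z0,z0,y4],y2),([z0,z1,z0,z0,z6],z4),([z0,z0,z1,z0,z2],z2)]],
    [[([z1,z0,z0,z0,y4],y2),([z0,z1,z0,z1,z3],z3)],[([z1,z0,z0,z0,y2],y1),([z0,z1,z0,z1,z1],z2)],[([z1,z0,z0,y2,z2],
    z0),([z0,z1,z0,z2,z0],z2)],[([z1,z0,z0,y2,z1],z0),([z0,z1,z0,z2,z0],z2)],[([z1,z0,z0,z0,y2],z0),([z0,z1,z0,z1,z2],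
    z2)],[([z2,z0,z0,y2,y1],z0),([z0,z2,z0,z0,z1],z2)],[([z2,z0,z0,z1,y2],z0),([z0,z2,z0,z1,z0],z2)],[([z5,z0,z0,z0,
    z0],z2),([z0,z5,z0,z0,z0],z4),([z0,z0,z5,z0,z5],z6)],[([z2,z0,z0,z0,y5],y2),([z0,z2,z0,z0,z1],z2),([z0,z0,z1,z0,
    z1],z1)],[([z1,z0,z0,z0,y2],y1),([z0,z1,z0,z0,z2],z2),([z0,z0,z1,z0,y4],y2)],[([z1,z0,z0,z0,y3],y1),([z0,z1,z0,z0,
    z2],z2),([z0,z0,z1,z0,y4],y2)],[([z1,z0,z0,z0,y3],y2),([z0,z2,z0,z0,z1],z2),([z0,z0,z2,z0,z3],z4)]],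
    [[([z1,z0,z0,y4,z0],y2),([z0,z1,z0,z2,z0],z2)],[([z1,z0,z0,y2,z0],z0),([z0,z1,z0,z2,z1],z2)],[([z2,z0,z0,z1,z0],
    z2)],[([z1,z0,z0,z0,z1],z1)],[([z1,z0,z0,z1,z0],z1)],[]]]

/-- symmetries -/
noncomputable def hS5_39 : List (Bool × ℕ × List ℕ) :=
  [(false,k0,[k0,k1,k2,k3,k4]),(false,k1,[k1,k2,k3,k4,k0]),(false,k2,[k2,k3,k4,k0,k1]),(true,k2,[k2,k1,k0,k4,k3]),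
    (true,k4,[k4,k3,k2,k1,k0]),(true,k3,[k3,k2,k1,k0,k4]),(false,k3,[k3,k4,k0,k1,k2]),(false,k4,[k4,k0,k1,k2,k3]),
    (true,k1,[k1,k0,k4,k3,k2]),(true,k0,[k0,k4,k3,k2,k1])]

/-- equations of the nodes for the classes `0 0 0 0 0 1`, active pairs `` -/
noncomputable def hD6_90 : List (List (List Eqn)) :=
  [[[([z1,z0,z0,z0,z1,z1],z2)],[([z1,z0,z0,z1,z0,z1],z2)],[([z1,z0,z0,z0,y1,z0],z0),([z0,z1,z0,z0,z2,z0],z2),([z0,z0,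
    z1,z0,z1,z1],z2)],[([z2,z0,z0,z0,z0,z1],z2),([z0,z1,z0,z0,z0,y1],z0),([z0,z0,z1,z0,z1,z1],z2)],[([z1,z0,z0,z0,z1,
    z1],z2),([z0,z1,z0,z0,y2,y2],y2),([z0,z0,z1,z0,z1,z1],z2)],[([z3,z0,z0,z0,z0,z0],z2),([z0,z3,z0,z0,z0,z0],z2),
    ([z0,z0,z3,z0,z0,z0],z2),([z0,z0,z0,z3,z0,z0],z2),([z0,z0,z0,z0,z3,z0],z2)],[([z3,z0,z0,z0,z0,y6],y2),([z0,z1,z0,
    z0,z0,z2],z2),([z0,z0,z1,z0,z0,y1],z0),([z0,z0,z0,z3,z0,z0],z2)],[([z1,z0,z0,z0,z0,y1],z0),([z0,z3,z0,z0,z0,z3],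
    z4),([z0,z0,z1,z0,z0,y1],z0),([z0,z0,z0,z3,z0,z0],z2)],[([z3,z0,z0,z0,z0,z3],z4),([z0,z3,z0,z0,z0,y6],y2),([z0,z0,
    z3,z0,z0,z0],z2),([z0,z0,z0,z3,z0,z3],z4)],[([z3,z0,z0,z0,z0,z0],z2),([z0,z3,z0,z0,z0,z0],z2),([z0,z0,z3,z0,z0,
    z0],z2),([z0,z0,z0,z3,z0,z0],z2)],[([z2,z0,z0,z0,z0,z1],z2),([z0,z1,z0,z0,z0,y1],z0),([z0,z0,z3,z0,z0,z0],z2),
    ([z0,z0,z0,z2,z0,z1],z2)],[([z1,z0,z0,y1,z0,z0],z0),([z0,z1,z0,z2,z0,z0],z2),([z0,z0,z3,z0,z0,z0],z2),([z0,z0,z0,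
    z0,z3,z0],z2)]],
    [[([z1,z0,z0,y1,z0,z0],z0),([z0,z1,z0,z2,z0,z0],z2),([z0,z0,z3,z0,z0,z0],z2)],[([z1,z0,z0,z0,z0,y1],z0),([z0,z1,
    z0,z0,z0,z2],z2),([z0,z0,z1,z0,z0,y1],z0),([z0,z0,z0,z1,z0,y1],z0)],[([z2,z0,z0,z0,z0,z1],z2),([z0,z1,z0,z0,z0,
    y1],z0),([z0,z0,z1,z0,z0,y1],z0),([z0,z0,z0,z2,z0,z1],z2)],[([z1,z0,z0,z0,z0,y4],y2),([z0,z1,z0,z0,z0,z8],z6),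
    ([z0,z0,z1,z0,z0,y1],z0),([z0,z0,z0,z1,z0,y4],y2)],[([z1,z0,z0,y1,z0,z0],z0),([z0,z1,z0,z2,z0,z0],z2),([z0,z0,z1,
    z0,z0,y1],z0)],[([z1,z0,z0,z0,z0,y1],z0),([z0,z1,z0,z0,z0,z2],z2),([z0,z0,z1,z0,z1,z1],z2)],[([z2,z0,z0,z0,z0,z1],
    z2),([z0,z1,z0,z0,z0,y1],z0),([z0,z0,z1,z0,z0,z2],z2),([z0,z0,z0,z2,z0,z1],z2)],[([z1,z0,z0,z0,z0,y1],z0),([z0,z1,
    z0,z0,z0,y1],z0),([z0,z0,z1,z0,z0,y1],z0),([z0,z0,z0,z1,z0,z2],z2)],[([z2,z0,z0,z0,z0,z1],z2),([z0,z2,z0,z0,z0,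
    z1],z2),([z0,z0,z1,z0,z0,y1],z0),([z0,z0,z0,z1,z0,y1],z0)],[([z3,z0,z0,z0,z0,z0],z2),([z0,z3,z0,z0,z0,z0],z2),
    ([z0,z0,z1,z0,z0,z2],z2),([z0,z0,z0,z3,z0,z0],z2)],[([z1,z0,z0,y1,z0,z0],z0),([z0,z1,z0,z2,z0,z0],z2),([z0,z0,z1,
    z0,z0,z2],z2)],[([z1,z0,z0,y1,z0,z0],z0),([z0,z1,z0,z2,z0,z0],z2)]],
    [[([z2,z0,z0,z0,z1,z0],z2),([z0,z2,z0,z0,y1,z2],z2),([z0,z0,z4,z0,z3,z2],z6)],[([z2,z0,z0,z0,z1,z0],z2),([z0,z1,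
    z0,z0,z2,z0],z2),([z0,z0,z2,z0,y1,z2],z2)],[([z2,z0,z0,z0,y1,z2],z2),([z0,z1,z0,z0,z0,z2],z2),([z0,z0,z2,z0,z1,
    z0],z2)],[([z1,z0,z0,z0,z0,y1],z0),([z0,z1,z0,z0,z0,z2],z2),([z0,z0,z2,z0,z1,z0],z2)],[([z2,z0,z0,z0,z1,z0],z2),
    ([z0,z1,z0,z0,z0,z2],z2),([z0,z0,z2,z0,z1,z0],z2)],[([z3,z0,z0,z0,z0,z0],z2),([z0,z1,z0,z0,z0,z2],z2),([z0,z0,z3,
    z0,z0,z0],z2),([z0,z0,z0,z1,z0,y1],z0)],[([z5,z0,z0,z0,z0,z1],z4),([z0,z5,z0,z0,z0,z4],z6),([z0,z0,z5,z0,z0,z4],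
    z6),([z0,z0,z0,z5,z0,y2],z2)],[([z1,z0,z0,z0,z0,y1],z0),([z0,z1,z0,z0,z0,z2],z2),([z0,z0,z1,z0,z0,y4],y2),([z0,z0,
    z0,z1,z0,y4],y2)],[([z2,z0,z0,z0,z1,z0],z2),([z0,z1,z0,z0,y3,z2],z0),([z0,z0,z1,z0,z2,z0],z2)],[([z2,z0,z0,z0,z1,
    z0],z2),([z0,z1,z0,z2,z0,z0],z2)],[([z1,z0,z0,y2,z0,z1],z0),([z0,z1,z0,z2,z0,z0],z2)],[([z1,z0,z0,z1,z0,z1],z2),
    ([z0,z2,z0,z0,z1,z0],z2)]],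
    [[([z2,z0,z0,z0,y1,z2],z2),([z0,z1,z0,z1,z1,z0],z2)],[([z1,z0,z0,z0,z1,z1],z2),([z0,z1,z0,z2,z0,z0],z2)],[([z1,z0,
    z0,z0,y2,z1],z0),([z0,z1,z0,z0,z2,z0],z2),([z0,z0,z1,z0,z2,z0],z2)],[([z4,z0,z0,z0,z1,z4],z6),([z0,z4,z0,z0,y1,
    z0],z2),([z0,z0,z2,z0,z1,z0],z2)],[([z2,z0,z0,z0,y1,z2],z2),([z0,z1,z0,z0,y1,z0],z0),([z0,z0,z2,z0,z1,z0],z2)],
    [([z1,z0,z0,z0,y1,z0],z0),([z0,z3,z0,z0,z0,z0],z2),([z0,z0,z1,z0,z2,z0],z2),([z0,z0,z0,z3,z0,z0],z2)],[([z3,z0,z0,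
    z0,z0,z3],z4),([z0,z3,z0,z0,z0,z0],z2),([z0,z0,z3,z0,z0,z0],z2),([z0,z0,z0,z3,z0,z0],z2)],[([z9,z0,z0,z0,z0,z3],
    z8),([z0,z9,z0,z0,z0,y6],z2),([z0,z0,z3,z0,z0,z0],z2),([z0,z0,z0,z9,z0,z12],z14)],[([z3,z0,z0,z0,y3,z3],z2),([z0,
    z3,z0,z0,z0,z0],z2),([z0,z0,z1,z0,z2,z0],z2)],[([z1,z0,z0,y1,y1,z1],z0),([z0,z1,z0,z2,z0,z0],z2)],[([z1,z0,z1,y1,
    z1,z1],z2)],[([z1,z0,z0,z0,z1,z1],z2),([z0,z1,z0,z0,y2,y2],y2),([z0,z0,z1,z0,y2,y2],y2)]],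
    [[([z2,z0,z0,z0,z1,z0],z2),([z0,z1,z0,z0,y1,z0],z0),([z0,z0,z2,z0,y1,z2],z2)],[([z1,z0,z0,z0,z0,y1],z0),([z0,z1,
    z0,z0,z0,z2],z2),([z0,z0,z1,z0,z1,z4],z4)],[([z5,z0,z0,z0,z0,z1],z4),([z0,z5,z0,z0,z0,y2],z2),([z0,z0,z5,z0,z5,
    z2],z8)],[([z3,z0,z0,z0,z0,z0],z2),([z0,z3,z0,z0,z0,z0],z2),([z0,z0,z3,z0,z0,z3],z4),([z0,z0,z0,z3,z0,z0],z2)],
    [([z5,z0,z0,z0,z0,z1],z4),([z0,z5,z0,z0,z0,y2],z2),([z0,z0,z1,z0,z0,z2],z2),([z0,z0,z0,z5,z0,z4],z6)],[([z1,z0,z0,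
    z0,z0,y7],y4),([z0,z1,z0,z0,z0,z8],z6),([z0,z0,z1,z0,z0,y4],y2),([z0,z0,z0,z1,z0,z2],z2)],[([z2,z0,z0,z0,z0,z1],
    z2),([z0,z1,z0,z0,z0,y1],z0),([z0,z0,z2,z0,z0,z7],z6),([z0,z0,z0,z1,z0,z2],z2)],[([z1,z0,z0,z0,z0,y4],y2),([z0,z1,
    z0,z0,z0,z8],z6),([z0,z0,z1,z0,z0,y4],y2),([z0,z0,z0,z1,z0,y1],z0)],[([z8,z0,z0,z0,z1,z0],z6),([z0,z4,z0,z0,y1,
    z0],z2),([z0,z0,z8,z0,z5,z8],z14)],[([z4,z0,z0,y1,z0,z0],z2),([z0,z2,z0,z1,z0,z0],z2)],[([z1,z0,z0,z0,y2,z1],z0),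
    ([z0,z1,z0,z0,z0,z2],z2),([z0,z0,z1,z0,z2,z0],z2)],[([z1,z0,z0,z0,z0,y1],z0),([z0,z1,z0,z0,z0,z2],z2),([z0,z0,z1,
    z0,z2,z0],z2)]],
    [[([z3,z0,z0,z0,z0,y9],y4),([z0,z1,z0,z0,z0,z2],z2),([z0,z0,z3,z0,z0,z0],z2),([z0,z0,z0,z1,z0,z2],z2)],[([z3,z0,
    z0,z0,z0,z3],z4),([z0,z3,z0,z0,z0,z0],z2),([z0,z0,z1,z0,z0,z2],z2),([z0,z0,z0,z3,z0,z0],z2)],[([z1,z0,z0,z0,z0,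
    y1],z0),([z0,z3,z0,z0,z0,z0],z2),([z0,z0,z3,z0,z0,z0],z2),([z0,z0,z0,z3,z0,z0],z2)],[([z2,z0,z0,z0,z1,z0],z2),
    ([z0,z3,z0,z0,z0,z0],z2),([z0,z0,z6,z0,z3,z6],z10)],[([z2,z0,z0,z0,z1,z0],z2),([z0,z2,z0,z0,y1,z2],z2),([z0,z0,z1,
    z0,z0,z2],z2)],[([z1,z0,z0,z0,z0,y1],z0),([z0,z1,z0,z0,z0,y4],y2),([z0,z0,z1,z0,z0,y4],y2),([z0,z0,z0,z1,z0,z8],
    z6)],[([z3,z0,z0,z0,z0,z3],z4),([z0,z1,z0,z0,z0,z2],z2),([z0,z0,z3,z0,z0,z12],z10),([z0,z0,z0,z1,z0,y4],y2)],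
    [([z5,z0,z0,z0,z0,z1],z4),([z0,z5,z0,z0,z0,y2],z2),([z0,z0,z5,z0,z0,z4],z6),([z0,z0,z0,z5,z0,z4],z6)],[([z7,z0,z0,
    z0,z0,z2],z6),([z0,z7,z0,z0,z0,y1],z4),([z0,z0,z7,z0,z0,z8],z10),([z0,z0,z0,z7,z0,z2],z6)],[([z2,z0,z0,z0,z0,z1],
    z2),([z0,z2,z0,z0,z0,z1],z2),([z0,z0,z1,z0,z0,z2],z2),([z0,z0,z0,z1,z0,y1],z0)],[([z1,z0,z0,z0,y1,z3],z2),([z0,z1,
    z0,z0,z0,z2],z2),([z0,z0,z1,z0,z2,z0],z2)],[([z2,z0,z0,z0,z1,z0],z2),([z0,z2,z0,z1,z0,z0],z2)]],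
    [[([z2,z0,z0,y1,z0,z2],z2),([z0,z2,z0,z1,z0,z0],z2)],[([z1,z0,z0,z0,z1,z1],z2),([z0,z2,z0,z1,z0,z0],z2)],[([z1,z0,
    z0,z0,y2,z1],z0),([z0,z1,z0,z1,z1,z0],z2)],[([z1,z0,z0,z1,z0,z1],z2),([z0,z1,z0,z0,y1,z0],z0)],[([z2,z0,z0,z0,z0,
    z1],z2),([z0,z1,z0,z0,z0,y1],z0),([z0,z0,z1,z0,z0,y1],z0),([z0,z0,z0,z1,z0,z2],z2)],[([z7,z0,z0,z0,z0,z2],z6),
    ([z0,z7,z0,z0,z0,y4],z2),([z0,z0,z7,z0,z0,z2],z6),([z0,z0,z0,z7,z0,z8],z10)],[([z3,z0,z0,z0,y1,z1],z2),([z0,z3,z0,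
    z0,z2,y2],z2),([z0,z0,z1,z0,z2,z0],z2)],[([z1,z0,z0,z0,y1,z0],z0),([z0,z1,z0,z0,z0,y1],z0),([z0,z0,z1,z0,z2,z0],
    z2)],[([z2,z0,z0,z0,y1,z2],z2),([z0,z2,z0,z0,z1,z0],z2),([z0,z0,z1,z0,z2,z0],z2)],[([z1,z0,z0,z0,y2,z1],z0),([z0,
    z1,z0,z0,y1,z0],z0),([z0,z0,z1,z0,z2,z0],z2)],[([z2,z0,z0,z1,y2,z2],z2),([z0,z2,z0,z1,z0,z0],z2)],[([z2,z0,z2,z1,
    z2,z2],z6)]],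
    [[([z1,z0,z0,z0,z1,z1],z2),([z0,z3,z3,z0,z0,z0],z4)],[([z3,z0,z0,z0,z0,z3],z4),([z0,z1,z0,z1,z1,z0],z2)],[([z1,z0,
    z0,z1,z0,z1],z2),([z0,z3,z0,z0,z3,z0],z4)],[([z1,z0,z0,z0,z1,z1],z2),([z0,z3,z0,z3,z0,z0],z4)],[([z3,z0,z0,z0,z0,
    z0],z2),([z0,z1,z0,z0,z0,z2],z2),([z0,z0,z3,z0,z0,z3],z4),([z0,z0,z0,z3,z0,z0],z2)],[([z3,z0,z0,z0,z0,y15],y8),
    ([z0,z1,z0,z0,z0,z2],z2),([z0,z0,z1,z0,z0,y4],y2),([z0,z0,z0,z3,z0,z0],z2)],[([z3,z0,z0,z0,z0,y9],y4),([z0,z1,z0,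
    z0,z0,z2],z2),([z0,z0,z3,z0,z0,y6],y2),([z0,z0,z0,z3,z0,z0],z2)],[([z3,z0,z0,z0,z0,z3],z4),([z0,z1,z0,z0,z0,z2],
    z2),([z0,z0,z1,z0,z0,z2],z2),([z0,z0,z0,z3,z0,z0],z2)],[([z6,z0,z0,z0,z3,y6],z2),([z0,z1,z0,z0,z0,z2],z2),([z0,z0,
    z2,z0,z1,z0],z2)],[([z1,z0,z0,z0,z1,z1],z2),([z0,z6,z0,z0,y3,z0],z2),([z0,z0,z2,z0,z1,z0],z2)],[([z3,z0,z0,z0,z0,
    z3],z4),([z0,z2,z0,z0,z1,z0],z2),([z0,z0,z2,z0,z1,z0],z2)],[([z1,z0,z0,z0,z1,z1],z2),([z0,z3,z0,z0,z0,z0],z2),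
    ([z0,z0,z3,z0,z0,z0],z2)]],
    [[([z2,z0,z0,z0,y1,z2],z2),([z0,z3,z0,z0,z3,z0],z4),([z0,z0,z2,z0,z1,z0],z2)],[([z3,z0,z0,y3,z3,z3],z4),([z0,z1,
    z0,z2,z0,z0],z2)],[([z1,z0,z0,z1,z0,z1],z2),([z0,z3,z0,z0,z0,z0],z2),([z0,z0,z3,z0,z0,z0],z2)],[([z3,z0,z0,z0,z0,
    z3],z4),([z0,z3,z0,z0,z0,z0],z2),([z0,z0,z3,z0,z3,z0],z4)],[([z3,z0,z3,z0,z3,z3],z8),([z0,z3,z0,z0,z0,z0],z2)],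
    [([z3,z0,z0,z0,z0,z3],z4),([z0,z3,z0,z0,z3,z0],z4),([z0,z0,z3,z0,z0,z0],z2)],[([z3,z3,z0,z0,z3,z3],z8),([z0,z0,z3,
    z0,z0,z0],z2)],[([z3,z0,z0,z0,z0,y6],y2),([z0,z1,z0,z0,z0,z2],z2),([z0,z0,z3,z0,z0,z0],z2),([z0,z0,z0,z1,z0,y1],
    z0)],[([z1,z0,z0,z0,z0,y1],z0),([z0,z3,z0,z0,z0,z3],z4),([z0,z0,z3,z0,z0,z0],z2),([z0,z0,z0,z1,z0,y1],z0)],[([z2,
    z0,z0,z0,z0,z1],z2),([z0,z1,z0,z0,z0,y1],z0),([z0,z0,z2,z0,z0,z1],z2),([z0,z0,z0,z3,z0,z0],z2)],[([z3,z0,z0,z0,z0,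
    z3],z4),([z0,z3,z0,z0,z0,y6],y2),([z0,z0,z3,z0,z0,z3],z4),([z0,z0,z0,z3,z0,z0],z2)],[([z3,z0,z0,z0,z0,y6],y2),
    ([z0,z3,z0,z0,z0,z12],z10),([z0,z0,z3,z0,z0,y6],y2),([z0,z0,z0,z3,z0,z0],z2)]],
    [[([z2,z0,z0,z0,z0,z1],z2),([z0,z6,z0,z0,z0,y3],z2),([z0,z0,z3,z0,z0,z0],z2),([z0,z0,z0,z1,z0,y1],z0)],[([z1,z0,
    y1,z0,z0,z0],z0),([z0,z1,z2,z0,z0,z0],z2),([z0,z0,z0,z3,z0,z0],z2),([z0,z0,z0,z0,z3,z0],z2)],[([z1,z0,y1,z0,z0,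
    z0],z0),([z0,z1,z2,z0,z0,z0],z2),([z0,z0,z0,z3,z0,z0],z2)],[([z1,z0,z0,z0,z1,z1],z2),([z0,z6,z0,z0,y3,z0],z2),
    ([z0,z0,z3,z0,z0,z0],z2)],[([z2,z0,z0,z0,y1,z2],z2),([z0,z3,z0,z0,z3,z0],z4),([z0,z0,z3,z0,z0,z0],z2)],[([z3,z0,
    z0,z0,z0,z3],z4),([z0,z2,z0,z0,z1,z0],z2),([z0,z0,z3,z0,z0,z0],z2)],[([z3,z0,y3,z0,z3,z3],z4),([z0,z1,z2,z0,z0,
    z0],z2)],[([z3,z3,z0,z3,z3,z3],z10)],[([z1,z0,z0,z0,z0,y1],z0),([z0,z1,z0,z0,z0,z2],z2),([z0,z0,z1,z0,z0,y1],z0)],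
    [([z2,z0,z0,z0,z0,z1],z2),([z0,z1,z0,z0,z0,y1],z0),([z0,z0,z2,z0,z0,z1],z2)],[([z1,z0,z0,z0,y1,z0],z0),([z0,z1,z0,
    z0,z2,z0],z2),([z0,z0,z1,z0,y1,z0],z0)],[([z2,z0,z0,z0,z0,y5],y2),([z0,z2,z0,z0,z0,z1],z2),([z0,z0,z1,z0,z0,z2],
    z2),([z0,z0,z0,z1,z0,y1],z0)]],
    [[([z1,z0,z0,z0,z0,y1],z0),([z0,z2,z0,z0,z0,z1],z2),([z0,z0,z2,z0,z0,z1],z2),([z0,z0,z0,z1,z0,y1],z0)],[([z2,z0,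
    z0,z0,z0,z1],z2),([z0,z1,z0,z0,z0,y1],z0),([z0,z0,z2,z0,z0,z1],z2),([z0,z0,z0,z4,z0,z5],z6)],[([z3,z0,z0,z0,z0,
    z0],z2),([z0,z3,z0,z0,z0,z0],z2),([z0,z0,z3,z0,z0,z0],z2),([z0,z0,z0,z3,z0,z3],z4)],[([z1,z0,z0,z0,z2,z0],z2),
    ([z0,z1,z0,z0,y4,z0],y2),([z0,z0,z1,z0,z2,z0],z2)],[([z1,z0,y1,z0,z0,z0],z0),([z0,z1,z2,z0,z0,z0],z2),([z0,z0,z0,
    z1,z0,y1],z0)],[([z1,z0,y1,z0,z0,z0],z0),([z0,z1,z2,z0,z0,z0],z2)],[([z1,z0,z0,z0,z1,z1],z2),([z0,z2,z2,z0,y1,z0],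
    z2)],[([z2,z0,z0,z0,y1,z2],z2),([z0,z1,z1,z0,z1,z0],z2)],[([z1,z0,z0,z1,z0,z1],z2),([z0,z1,z0,z0,z2,z0],z2)],
    [([z1,z0,z0,z0,z1,z1],z2),([z0,z4,z0,z0,y1,z0],z2),([z0,z0,z4,z0,y1,z0],z2)],[([z1,z0,z0,z0,y2,z1],z0),([z0,z1,z0,
    z0,y4,z0],y2),([z0,z0,z1,z0,z2,z0],z2)],[([z1,z0,z0,z0,z0,y4],y2),([z0,z1,z0,z0,z0,y1],z0),([z0,z0,z1,z0,z0,z8],
    z6),([z0,z0,z0,z1,z0,z2],z2)]],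
    [[([z11,z0,z0,z0,z0,z1],z8),([z0,z11,z0,z0,z0,y2],z6),([z0,z0,z11,z0,z0,z16],z18),([z0,z0,z0,z11,z0,z4],z10)],
    [([z1,z0,z0,z0,y5,z1],y2),([z0,z1,z0,z0,y4,z0],y2),([z0,z0,z1,z0,z2,z0],z2)],[([z1,z0,z0,z1,z3,z1],z4),([z0,z1,z0,
    z0,y4,z0],y2)],[([z1,z0,z0,z0,z1,z1],z2),([z0,z1,z0,z0,y1,z0],z0),([z0,z0,z2,z0,z1,z0],z2)],[([z2,z0,z0,z0,y1,z2],
    z2),([z0,z1,z0,z0,z2,z0],z2),([z0,z0,z1,z0,y1,z0],z0)],[([z11,z0,z0,z0,z0,z1],z8),([z0,z11,z0,z0,z0,z4],z10),([z0,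
    z0,z11,z0,z0,y2],z6),([z0,z0,z0,z11,z0,y8],z2)],[([z1,z0,z0,z0,z0,y4],y2),([z0,z1,z0,z0,z0,z2],z2),([z0,z0,z1,z0,
    z0,y1],z0),([z0,z0,z0,z1,z0,y4],y2)],[([z8,z0,z0,z0,z5,z8],z14),([z0,z4,z0,z0,y1,z0],z2),([z0,z0,z8,z0,z1,z0],
    z6)],[([z2,z0,y2,z0,z1,z2],z2),([z0,z1,z2,z0,z0,z0],z2)],[([z1,z0,y1,z1,z1,z1],z2)],[]]]

/-- symmetries -/
noncomputable def hS6_90 : List (Bool × ℕ × List ℕ) :=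
  [(false,k0,[k0,k1,k2,k3,k4,k5]),(true,k5,[k5,k4,k3,k2,k1,k0])]

/-- equations of the nodes for the classes `0 0 0 0 1 1`, active pairs `` -/
noncomputable def hD6_104 : List (List (List Eqn)) :=
  [[[([z1,z0,z0,z0,z1,z1],z2),([z0,z1,z0,z1,y2,z0],z0)],[([z2,z0,z0,z0,z0,z1],z2),([z0,z1,z0,z1,z0,z1],z2),([z0,z0,z1,
    z0,z0,y1],z0)],[([z2,z0,z0,z0,z0,z1],z2),([z0,z1,z0,z0,z0,y1],z0),([z0,z0,z1,z0,z0,y1],z0),([z0,z0,z0,z1,z0,z2],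
    z2)],[([z3,z0,z0,z0,z0,z0],z2),([z0,z3,z0,z0,z0,z0],z2),([z0,z0,z3,z0,z0,z0],z2),([z0,z0,z0,z3,z0,z0],z2),([z0,z0,
    z0,z0,z3,z0],z2)],[([z4,z0,z0,z0,z0,y1],z2),([z0,z2,z0,z0,z0,z1],z2),([z0,z0,z2,z0,z0,z1],z2),([z0,z0,z0,z4,z0,
    y1],z2)],[([z3,z0,z0,z0,z0,z0],z2),([z0,z3,z0,z0,z3,z0],z4),([z0,z0,z1,z0,z2,z0],z2),([z0,z0,z0,z3,y6,z0],y2)],
    [([z2,z0,z0,z0,z0,z1],z2),([z0,z2,z0,z0,z2,y1],z2),([z0,z0,z1,z0,z2,z0],z2)],[([z3,z0,z0,z0,z0,z0],z2),([z0,z2,z0,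
    z0,z0,z1],z2),([z0,z0,z3,z0,z0,z0],z2),([z0,z0,z0,z3,z0,z0],z2)],[([z3,z0,z0,z0,z0,z0],z2),([z0,z1,z0,z0,z2,z0],
    z2),([z0,z0,z1,z0,z2,z0],z2),([z0,z0,z0,z3,y9,z0],y4)],[([z2,z0,z0,z0,z0,z1],z2),([z0,z1,z0,z0,z2,z0],z2),([z0,z0,
    z1,z0,z2,z0],z2)],[([z8,z0,z0,z0,z0,z1],z6),([z0,z2,z0,z0,z0,z1],z2),([z0,z0,z4,z0,z0,y1],z2),([z0,z0,z0,z8,z0,
    z1],z6)],[([z3,z0,z0,z0,z0,z0],z2),([z0,z3,z0,z0,z9,z0],z8),([z0,z0,z1,z0,z2,z0],z2),([z0,z0,z0,z1,y4,z0],y2)]],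
    [[([z2,z0,z0,z0,z0,z1],z2),([z0,z2,z0,z0,z6,z1],z6),([z0,z0,z1,z0,z2,z0],z2)],[([z2,z0,z0,z0,z0,z1],z2),([z0,z2,
    z0,z2,y2,z1],z2)],[([z1,z0,z0,z0,y1,z0],z0),([z0,z3,z0,z0,y6,z0],y2),([z0,z0,z1,z0,z2,z0],z2),([z0,z0,z0,z1,z2,
    z0],z2)],[([z3,z0,z0,z0,z0,z0],z2),([z0,z3,z0,z0,z3,z0],z4),([z0,z0,z3,z0,z0,z0],z2),([z0,z0,z0,z3,z0,z0],z2)],
    [([z9,z0,z0,z0,z3,z0],z8),([z0,z9,z0,z0,z6,z0],z10),([z0,z0,z9,z0,y6,z0],z2),([z0,z0,z0,z9,z6,z0],z10)],[([z3,z0,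
    z0,z0,z3,z0],z4),([z0,z3,z0,z0,y6,z0],y2),([z0,z0,z1,z0,z2,z0],z2),([z0,z0,z0,z3,z0,z0],z2)],[([z6,z0,z0,y3,z0,
    z0],z2),([z0,z2,z0,z1,z0,z0],z2),([z0,z0,z3,z3,z0,z0],z4),([z0,z0,z0,z0,z3,z0],z2)],[([z6,z0,z0,y3,z0,z0],z2),
    ([z0,z6,z0,z3,z6,z0],z10),([z0,z0,z3,z3,z0,z0],z4)],[([z3,z0,z0,z0,z0,z0],z2),([z0,z3,z0,z3,z0,z0],z4),([z0,z0,z3,
    z0,z0,z0],z2),([z0,z0,z0,z0,z3,z0],z2)],[([z1,z0,z0,z0,y1,z0],z0),([z0,z3,z0,z0,z0,z0],z2),([z0,z0,z1,z0,z2,z0],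
    z2),([z0,z0,z0,z3,z0,z0],z2)],[([z1,z0,z0,z0,y1,z0],z0),([z0,z1,z0,z0,y1,z0],z0),([z0,z0,z1,z0,z2,z0],z2),([z0,z0,
    z0,z3,z3,z0],z4)],[([z1,z0,z0,z0,y1,z0],z0),([z0,z3,z0,z3,z0,z0],z4),([z0,z0,z1,z0,z2,z0],z2)]],
    [[([z3,z0,z0,z0,z3,z0],z4),([z0,z1,z0,z1,y2,z0],z0),([z0,z0,z1,z0,z2,z0],z2)],[([z3,z0,z0,z0,z3,z0],z4),([z0,z3,
    z0,z0,z0,z0],z2),([z0,z0,z1,z0,z2,z0],z2),([z0,z0,z0,z3,y6,z0],y2)],[([z2,z0,z0,z0,z1,z0],z2),([z0,z1,z0,z0,z2,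
    z0],z2),([z0,z0,z1,z0,y1,z0],z0),([z0,z0,z0,z6,y3,z0],z2)],[([z3,z0,z0,z0,z0,z0],z2),([z0,z1,z0,z0,z2,z0],z2),
    ([z0,z0,z3,z0,z0,z0],z2),([z0,z0,z0,z1,y1,z0],z0)],[([z3,z0,z0,z0,y9,z0],y4),([z0,z1,z0,z0,y4,z0],y2),([z0,z0,z1,
    z0,z2,z0],z2),([z0,z0,z0,z3,z18,z0],z14)],[([z9,z0,z0,z0,z3,z0],z8),([z0,z9,z0,z0,y6,z0],z2),([z0,z0,z1,z0,z2,z0],
    z2),([z0,z0,z0,z9,y6,z0],z2)],[([z1,z0,z0,y1,z0,z0],z0),([z0,z3,z0,z0,z0,z0],z2),([z0,z0,z1,z2,z0,z0],z2),([z0,z0,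
    z0,z0,z3,z0],z2)],[([z3,z0,z0,y3,z3,z0],z2),([z0,z1,z0,z0,z2,z0],z2),([z0,z0,z3,z6,y6,z0],z2)],[([z1,z0,z0,z0,y1,
    z0],z0),([z0,z1,z0,z0,y4,z0],y2),([z0,z0,z1,z0,z2,z0],z2),([z0,z0,z0,z3,z12,z0],z10)],[([z3,z0,z0,z0,z3,z0],z4),
    ([z0,z1,z0,z0,y4,z0],y2),([z0,z0,z1,z0,z2,z0],z2),([z0,z0,z0,z1,z2,z0],z2)],[([z2,z0,z0,z0,z1,z0],z2),([z0,z6,z0,
    z0,y3,z0],z2),([z0,z0,z1,z0,y1,z0],z0),([z0,z0,z0,z1,z2,z0],z2)],[([z4,z0,z0,y1,z0,z0],z2),([z0,z12,z0,z9,z0,z0],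
    z14),([z0,z0,z2,z1,z0,z0],z2),([z0,z0,z0,z0,z3,z0],z2)]],
    [[([z4,z0,z0,y1,z0,z0],z2),([z0,z12,z0,z9,z12,z0],z22),([z0,z0,z2,z1,z0,z0],z2)],[([z3,z0,z0,z0,z0,z0],z2),([z0,
    z3,z0,z0,z0,z0],z2),([z0,z0,z1,z0,z2,z0],z2),([z0,z0,z0,z1,y1,z0],z0)],[([z3,z0,z0,z0,z0,z0],z2),([z0,z3,z0,z3,y3,
    z0],z2),([z0,z0,z1,z0,z2,z0],z2)],[([z2,z0,z1,z0,z0,z0],z2),([z0,z6,z3,z6,z6,z0],z14)],[([z2,z0,z1,z0,z0,z0],z2)],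
    [([z1,z0,z0,z0,z1,z1],z2),([z0,z1,z0,z0,z0,y1],z0),([z0,z0,z1,z0,z2,z0],z2)],[([z3,z0,z0,z0,z0,z0],z2),([z0,z3,z0,
    z0,z0,z0],z2),([z0,z0,z3,z0,z0,z0],z2),([z0,z0,z0,z3,z3,z0],z4)],[([z5,z0,z0,z0,z1,z0],z4),([z0,z15,z0,z0,z6,z0],
    z14),([z0,z0,z5,z0,y2,z0],z2),([z0,z0,z0,z5,z4,z0],z6)],[([z1,z0,z0,z1,z1,z0],z2),([z0,z3,z0,z6,z6,z0],z10),([z0,
    z0,z1,y2,y2,z0],y2)],[([z1,z0,z0,z1,z1,z0],z2),([z0,z1,z0,z2,z2,z1],z4)],[([z3,z0,z0,z0,z3,z0],z4),([z0,z3,z0,z0,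
    z0,z0],z2),([z0,z0,z3,z0,z0,z0],z2),([z0,z0,z0,z3,z0,z0],z2)],[([z1,z0,z0,z0,z0,y1],z0),([z0,z2,z0,z0,z0,z1],z2),
    ([z0,z0,z2,z0,z0,z1],z2),([z0,z0,z0,z2,z0,z1],z2)]],
    [[([z2,z0,z0,z0,z2,y1],z2),([z0,z2,z0,z0,z0,z1],z2),([z0,z0,z2,z0,z0,z1],z2)],[([z1,z0,z0,z0,z1,z1],z2),([z0,z1,
    z0,z0,z0,y1],z0),([z0,z0,z1,z0,z0,z2],z2)],[([z2,z0,z0,z0,z0,z1],z2),([z0,z1,z0,z0,z0,y1],z0),([z0,z0,z1,z0,z0,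
    z2],z2),([z0,z0,z0,z1,z0,y1],z0)],[([z3,z0,z0,z0,z0,z0],z2),([z0,z3,z0,z0,z3,z0],z4),([z0,z0,z1,z0,y1,z0],z0),
    ([z0,z0,z0,z3,z3,z0],z4)],[([z2,z0,z0,z0,z0,z1],z2),([z0,z2,z0,z0,z2,y1],z2),([z0,z0,z2,z0,y2,z3],z2)],[([z1,z0,
    z0,z1,z1,z0],z2),([z0,z1,z0,y1,z0,z0],z0)],[([z1,z0,z0,z0,z1,z1],z2),([z0,z1,z0,z0,z0,y1],z0),([z0,z0,z1,z0,z0,
    y1],z0)],[([z6,z0,z0,z0,z0,y3],z2),([z0,z3,z0,z0,z0,z0],z2),([z0,z0,z3,z0,z0,z0],z2),([z0,z0,z0,z3,z0,z3],z4)],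
    [([z1,z0,z0,y1,z0,z0],z0),([z0,z3,z0,z3,z0,z0],z4),([z0,z0,z3,z3,z0,z0],z4),([z0,z0,z0,z0,z3,z0],z2)],[([z2,z0,z0,
    y2,z0,y3],y2),([z0,z1,z0,z1,z0,z1],z2),([z0,z0,z1,z1,z0,z1],z2)],[([z9,z0,z0,z0,z3,z0],z8),([z0,z9,z0,z0,z6,z0],
    z10),([z0,z0,z9,z0,z6,z0],z10),([z0,z0,z0,z9,y6,z0],z2)],[([z9,z0,z0,z0,z3,z0],z8),([z0,z9,z0,z0,y6,z0],z2),([z0,
    z0,z9,z0,z6,z0],z10),([z0,z0,z0,z9,z6,z0],z10)]],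
    [[([z3,z0,z0,y3,z3,z0],z2),([z0,z3,z0,z3,z0,z0],z4),([z0,z0,z3,z3,z0,z0],z4)],[([z1,z0,z0,y1,z1,y1],z0),([z0,z1,
    z0,z1,z0,z1],z2)],[([z1,z0,z0,z0,z1,z1],z2),([z0,z1,z0,z0,z0,y1],z0)],[([z1,z0,z0,z0,z1,z1],z2),([z0,z1,z0,z0,z0,
    y1],z0),([z0,z0,z1,z0,z2,z3],z4)],[([z3,z0,z0,z0,z0,z0],z2),([z0,z1,z0,z0,z2,z0],z2),([z0,z0,z3,z0,y6,z0],y2),
    ([z0,z0,z0,z3,z3,z0],z4)],[([z2,z0,z0,z0,z0,z1],z2),([z0,z1,z0,z0,z2,z0],z2),([z0,z0,z1,z0,y2,z1],z0)],[([z1,z0,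
    z0,z0,y1,z0],z0),([z0,z1,z0,z0,z2,z0],z2),([z0,z0,z3,z0,y6,z0],y2),([z0,z0,z0,z1,z2,z0],z2)],[([z3,z0,z0,z0,y9,
    z0],y4),([z0,z1,z0,z0,z2,z0],z2),([z0,z0,z3,z0,y6,z0],y2),([z0,z0,z0,z3,z12,z0],z10)],[([z2,z0,z0,z1,z0,z0],z2),
    ([z0,z2,z0,y1,z2,z0],z2),([z0,z0,z3,z3,z0,z0],z4)],[([z2,z0,z0,z1,z0,z0],z2),([z0,z2,z0,y1,z2,z0],z2)],[([z4,z0,
    z0,z0,z0,y1],z2),([z0,z2,z0,z0,z0,z1],z2),([z0,z0,z2,z0,z0,z1],z2),([z0,z0,z0,z1,z0,y1],z0)],[([z10,z0,z0,z0,z0,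
    y1],z6),([z0,z5,z0,z0,z0,z4],z6),([z0,z0,z5,z0,z0,z1],z4),([z0,z0,z0,z5,z0,y2],z2)]],
    [[([z5,z0,z0,z0,z1,z0],z4),([z0,z5,z0,z0,z2,z5],z8),([z0,z0,z5,z0,y2,z0],z2)],[([z2,z0,z0,z0,z0,y5],y2),([z0,z1,
    z0,z0,z0,z2],z2),([z0,z0,z1,z0,z0,y1],z0),([z0,z0,z0,z1,z0,z2],z2)],[([z1,z0,z0,z0,z1,y2],z0),([z0,z1,z0,z0,z0,
    z2],z2),([z0,z0,z1,z0,z0,y1],z0)],[([z3,z0,z0,z0,z3,z0],z4),([z0,z3,z0,z0,z0,z0],z2),([z0,z0,z3,z0,z0,z0],z2)],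
    [([z1,z0,z0,z0,z1,z1],z2),([z0,z1,z0,z0,z0,y1],z0),([z0,z0,z2,z0,z0,z1],z2)],[([z4,z0,z0,z0,z0,y1],z2),([z0,z1,z0,
    z0,z0,y1],z0),([z0,z0,z2,z0,z0,z1],z2),([z0,z0,z0,z2,z0,z1],z2)],[([z2,z0,z0,z0,z0,z1],z2),([z0,z1,z0,z0,z0,y4],
    y2),([z0,z0,z1,z0,z0,z2],z2),([z0,z0,z0,z1,z0,y1],z0)],[([z1,z0,z0,z0,y3,z2],z0),([z0,z1,z0,z0,z2,z0],z2),([z0,z0,
    z1,z0,y2,z1],z0)],[([z2,z0,z0,z0,z0,z1],z2),([z0,z1,z0,z0,z0,y1],z0),([z0,z0,z2,z0,z0,z1],z2),([z0,z0,z0,z2,z0,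
    z1],z2)],[([z1,z0,z0,z0,z0,z2],z2),([z0,z1,z0,z0,z0,y4],y2),([z0,z0,z1,z0,z0,z2],z2),([z0,z0,z0,z1,z0,y1],z0)],
    [([z1,z0,z0,z0,y1,z0],z0),([z0,z3,z0,z0,z3,z0],z4),([z0,z0,z1,z0,y1,z0],z0),([z0,z0,z0,z1,z2,z0],z2)],[([z1,z0,z0,
    z0,y1,z0],z0),([z0,z1,z0,z0,z1,z1],z2),([z0,z0,z1,z0,y1,z0],z0)]],
    [[([z6,z0,z0,z0,z0,y3],z2),([z0,z3,z0,z0,z0,z3],z4),([z0,z0,z3,z0,z0,z0],z2),([z0,z0,z0,z3,z0,z0],z2)],[([z3,z0,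
    z0,z0,z0,z0],z2),([z0,z3,z0,z0,z3,z0],z4),([z0,z0,z6,z0,y3,z0],z2),([z0,z0,z0,z2,z1,z0],z2)],[([z2,z0,z0,z0,z0,
    z1],z2),([z0,z2,z0,z0,z2,y1],z2),([z0,z0,z4,z0,y2,z1],z2)],[([z1,z0,z0,z1,z1,z0],z2),([z0,z2,z0,y1,z0,z2],z2)],
    [([z2,z0,z0,z0,z0,z1],z2),([z0,z1,z0,z0,z0,y1],z0),([z0,z0,z1,z1,z0,z1],z2)],[([z3,z0,z0,z0,z0,z0],z2),([z0,z3,z0,
    z0,z3,z0],z4),([z0,z0,z3,z0,z3,z0],z4),([z0,z0,z0,z1,y1,z0],z0)],[([z3,z0,z0,z0,z0,z0],z2),([z0,z3,z0,z0,z0,z0],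
    z2),([z0,z0,z3,z3,z0,z0],z4),([z0,z0,z0,z0,z3,z0],z2)],[([z3,z0,z0,z0,z0,z0],z2),([z0,z3,z0,z0,z3,z0],z4),([z0,z0,
    z3,z0,y6,z0],y2),([z0,z0,z0,z1,z2,z0],z2)],[([z3,z0,z0,z0,z0,z0],z2),([z0,z3,z0,z0,z3,z0],z4),([z0,z0,z3,z3,z0,
    z0],z4)],[([z2,z0,z0,z0,z0,z1],z2),([z0,z2,z0,z0,z2,y1],z2)],[([z1,z0,z0,z1,z1,z0],z2)],[([z1,z0,z0,z0,z1,z1],z2),
    ([z0,z1,z0,z1,z0,z1],z2)]],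
    [[([z3,z0,z0,z0,z0,z0],z2),([z0,z3,z0,z0,z0,z0],z2),([z0,z0,z3,z0,z3,z0],z4),([z0,z0,z0,z3,z0,z0],z2)],[([z3,z0,
    z0,y6,z0,z0],y2),([z0,z3,z0,z3,z0,z0],z4),([z0,z0,z1,z2,z0,z0],z2),([z0,z0,z0,z0,z3,z0],z2)],[([z3,z0,z0,z0,z0,
    z0],z2),([z0,z1,z0,z0,z2,z0],z2),([z0,z0,z3,z0,z3,z0],z4),([z0,z0,z0,z3,y6,z0],y2)],[([z6,z0,z0,y3,z0,z0],z2),
    ([z0,z3,z0,z3,z0,z0],z4),([z0,z0,z2,z1,z0,z0],z2),([z0,z0,z0,z0,z3,z0],z2)],[([z3,z0,z0,z0,z0,z0],z2),([z0,z3,z0,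
    z3,z0,z0],z4),([z0,z0,z3,z0,z3,z0],z4)],[([z2,z0,z0,z0,z0,z1],z2),([z0,z1,z0,z1,z0,z1],z2)],[([z3,z0,z0,z0,z3,z0],
    z4),([z0,z3,z0,z3,z0,z0],z4),([z0,z0,z3,z0,z0,z0],z2)],[([z1,z0,z1,z0,z1,z0],z2),([z0,z3,z0,z0,z0,z0],z2),([z0,z0,
    z0,z3,z0,z0],z2)],[([z3,z0,z0,z0,z3,z0],z4),([z0,z1,z0,z0,z2,z0],z2),([z0,z0,z3,z0,z0,z0],z2),([z0,z0,z0,z3,y6,
    z0],y2)],[([z2,z0,z0,z1,z0,z0],z2),([z0,z3,z0,z3,z0,z0],z4),([z0,z0,z2,y1,z2,z0],z2)],[([z3,z0,z0,z0,z3,z0],z4),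
    ([z0,z3,z0,z0,y6,z0],y2),([z0,z0,z3,z0,z0,z0],z2),([z0,z0,z0,z1,z2,z0],z2)],[([z6,z0,z0,y3,z0,z0],z2),([z0,z3,z0,
    z3,z0,z0],z4),([z0,z0,z6,z3,z6,z0],z10)]],
    [[([z1,z0,z1,z0,z1,z0],z2),([z0,z3,z0,z3,z0,z0],z4)],[([z1,z0,z1,z0,z1,z0],z2)],[([z1,z0,z0,z0,z1,z1],z2)],[([z4,
    z0,z0,z0,z0,y1],z2),([z0,z4,z0,z0,z0,y1],z2),([z0,z0,z2,z0,z0,z1],z2),([z0,z0,z0,z2,z0,z1],z2)],[([z4,z0,z0,z0,z0,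
    y1],z2),([z0,z4,z0,z0,z4,z1],z6),([z0,z0,z2,z0,z0,z1],z2)],[([z1,z0,z0,z0,z0,y1],z0),([z0,z1,z0,z0,z0,y1],z0),
    ([z0,z0,z1,z0,z0,z2],z2),([z0,z0,z0,z1,z0,z2],z2)],[([z1,z0,z0,z0,y1,z0],z0),([z0,z1,z0,z0,y2,z1],z0),([z0,z0,z1,
    z0,z2,z0],z2)],[([z1,z0,z0,z0,z1,z1],z2),([z0,z1,z0,z0,z2,z0],z2),([z0,z0,z1,z0,z2,z0],z2)],[([z3,z0,z0,z0,z0,z0],
    z2),([z0,z3,z0,z0,z0,z0],z2),([z0,z0,z3,z0,z0,z0],z2),([z0,z0,z0,z3,z0,z0],z2)],[([z3,z0,z0,z0,z0,z0],z2),([z0,z1,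
    z0,z0,z1,z1],z2),([z0,z0,z3,z0,z0,z0],z2)],[([z2,z0,z0,z1,z0,z0],z2),([z0,z2,z0,z3,z2,z2],z6)],[([z1,z0,z0,z0,z1,
    z1],z2),([z0,z1,z0,z0,z2,z0],z2),([z0,z0,z1,z0,z0,y1],z0)]],
    [[([z10,z0,z0,z0,z0,y1],z6),([z0,z5,z0,z0,z0,z4],z6),([z0,z0,z5,z0,z0,y2],z2),([z0,z0,z0,z5,z0,z1],z4)],[([z2,z0,
    z0,z0,z0,z1],z2),([z0,z1,z0,z0,z2,z0],z2),([z0,z0,z2,z0,z2,y1],z2)],[([z2,z0,z0,z1,z0,z0],z2),([z0,z1,z0,z1,z0,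
    z1],z2)],[([z1,z0,z0,z0,z1,z1],z2),([z0,z1,z0,z0,z2,z0],z2)],[([z1,z0,z0,z0,z1,z1],z2),([z0,z1,z0,z0,z2,z0],z2),
    ([z0,z0,z1,z0,z0,z2],z2)],[([z3,z0,z0,z0,z0,z0],z2),([z0,z1,z0,z0,z2,z0],z2),([z0,z0,z1,z0,y1,z0],z0),([z0,z0,z0,
    z3,z0,z0],z2)],[([z2,z0,z0,z0,z0,z1],z2),([z0,z1,z0,z0,z2,z0],z2),([z0,z0,z2,z0,y2,z3],z2)],[([z2,z0,z0,z1,z0,z0],
    z2),([z0,z1,z0,z0,z2,z0],z2),([z0,z0,z6,z3,y6,z0],z2)],[([z2,z0,z0,z1,z0,z0],z2),([z0,z1,z0,z0,z2,z0],z2)],[([z1,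
    z0,z0,z0,z0,y1],z0),([z0,z1,z0,z0,z0,y1],z0),([z0,z0,z1,z0,z0,y1],z0),([z0,z0,z0,z1,z0,z2],z2)],[([z1,z0,z0,z0,z0,
    y1],z0),([z0,z2,z0,z0,z0,z1],z2),([z0,z0,z1,z0,z0,y1],z0),([z0,z0,z0,z1,z0,z2],z2)],[([z1,z0,z0,z0,z0,y1],z0),
    ([z0,z1,z0,z0,z1,z1],z2),([z0,z0,z1,z0,z0,y1],z0)]],
    [[([z4,z0,z0,z0,z0,y1],z2),([z0,z2,z0,z0,z0,z1],z2),([z0,z0,z4,z0,z0,y1],z2),([z0,z0,z0,z2,z0,z1],z2)],[([z2,z0,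
    z0,z0,z1,z0],z2),([z0,z3,z0,z0,z3,z0],z4),([z0,z0,z2,z0,z1,z0],z2),([z0,z0,z0,z1,y1,z0],z0)],[([z2,z0,z0,z0,z1,
    z0],z2),([z0,z1,z0,z0,z1,z1],z2),([z0,z0,z2,z0,z1,z0],z2)],[([z1,z0,z0,z0,z1,z1],z2),([z0,z1,z0,z0,z1,z1],z2),
    ([z0,z0,z1,z0,z1,z1],z2)],[([z1,z0,z0,z0,z0,y1],z0),([z0,z1,z0,z0,z0,y4],y2),([z0,z0,z1,z0,z0,z2],z2),([z0,z0,z0,
    z1,z0,z2],z2)],[([z1,z0,z0,z0,z0,y1],z0),([z0,z1,z0,z0,z0,y1],z0),([z0,z0,z2,z0,z0,z1],z2),([z0,z0,z0,z1,z0,z2],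
    z2)],[([z1,z0,z0,z0,z0,y1],z0),([z0,z1,z0,z0,z2,z0],z2),([z0,z0,z1,z0,y1,z0],z0)],[([z2,z0,z0,z0,z0,z1],z2),([z0,
    z1,z0,z0,z2,z0],z2),([z0,z0,z1,z0,y1,z0],z0)],[([z2,z0,z0,z1,z0,z0],z2),([z0,z1,z0,z0,z1,z1],z2)],[([z4,z0,z0,z0,
    z0,y1],z2),([z0,z4,z0,z0,z0,z5],z6),([z0,z0,z1,z0,z0,y1],z0),([z0,z0,z0,z2,z0,z1],z2)],[([z2,z0,z0,z0,z0,z1],z2),
    ([z0,z1,z0,z0,z2,z0],z2),([z0,z0,z1,z0,z0,y1],z0)],[([z2,z0,z0,z0,z0,z1],z2),([z0,z1,z0,z0,z2,z0],z2)]],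
    [[([z2,z0,z0,z1,z0,z0],z2)],[([z10,z0,z0,z0,z0,y1],z6),([z0,z5,z0,z0,z0,y2],z2),([z0,z0,z5,z0,z0,z1],z4),([z0,z0,
    z0,z5,z0,z4],z6)],[([z5,z0,z0,z0,z1,z0],z4),([z0,z5,z0,z0,z4,z0],z6),([z0,z0,z5,z0,y2,z0],z2),([z0,z0,z0,z15,z6,
    z0],z14)],[([z5,z0,z0,z0,z1,z0],z4),([z0,z5,z0,z0,z4,z0],z6),([z0,z0,z5,z0,y2,z0],z2)],[([z3,z0,z0,z0,z0,z0],z2),
    ([z0,z3,z0,z0,z0,z0],z2),([z0,z0,z3,z0,z0,z0],z2),([z0,z0,z0,z3,z0,z3],z4)],[([z1,z0,z0,z0,y1,z0],z0),([z0,z1,z0,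
    z0,y4,z0],y2),([z0,z0,z1,z0,z2,z0],z2)],[([z4,z0,z0,z0,z0,y1],z2),([z0,z1,z0,z0,z0,y1],z0),([z0,z0,z2,z0,z0,z1],
    z2),([z0,z0,z0,z4,z0,z5],z6)],[([z2,z0,z0,z0,z1,z0],z2),([z0,z1,z0,z0,z2,z0],z2),([z0,z0,z1,z0,y1,z0],z0)],[([z7,
    z0,z0,z0,z0,y1],z4),([z0,z7,z0,z0,z0,z2],z6),([z0,z0,z7,z0,z0,y4],z2),([z0,z0,z0,z7,z0,z8],z10)],[([z3,z0,z0,z0,
    y9,z0],y4),([z0,z3,z0,z0,z18,z0],z14),([z0,z0,z1,z0,z2,z0],z2),([z0,z0,z0,z1,y4,z0],y2)],[([z1,z0,z0,z0,y3,y1],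
    y2),([z0,z1,z0,z0,z6,z2],z6),([z0,z0,z1,z0,z2,z0],z2)],[([z3,z0,z0,z1,z1,z1],z4),([z0,z3,z0,z4,z4,z4],z10)]],
    [[([z10,z0,z0,z0,z0,y1],z6),([z0,z5,z0,z0,z0,z1],z4),([z0,z0,z5,z0,z0,y2],z2),([z0,z0,z0,z5,z0,z4],z6)],[([z2,z0,
    z0,y1,z0,y1],z0),([z0,z1,z0,z1,z0,z1],z2),([z0,z0,z2,z1,z0,z0],z2)],[([z2,z0,z0,z0,z1,z0],z2),([z0,z1,z0,z0,y1,
    z0],z0),([z0,z0,z2,z0,z1,z0],z2),([z0,z0,z0,z3,z3,z0],z4)],[([z2,z0,z0,y1,z2,z0],z2),([z0,z3,z0,z3,z0,z0],z4),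
    ([z0,z0,z2,z1,z0,z0],z2)],[([z2,z0,z0,y1,z2,z0],z2),([z0,z1,z0,z1,z0,z1],z2)],[([z1,z0,z0,z0,z1,z1],z2),([z0,z2,
    z0,z1,z0,z0],z2)],[([z1,z0,z0,z0,z1,z1],z2),([z0,z3,z0,z0,z0,z0],z2),([z0,z0,z3,z0,z0,z0],z2)],[([z2,z0,z0,z3,z2,
    z2],z6),([z0,z1,z0,y1,z0,z0],z0)],[([z2,z0,z0,z0,z0,z1],z2),([z0,z1,z0,z0,z0,y1],z0),([z0,z0,z1,z0,z0,z2],z2),
    ([z0,z0,z0,z1,z0,y4],y2)],[([z3,z0,z0,z0,z0,z0],z2),([z0,z2,z0,z0,z1,z0],z2),([z0,z0,z6,z0,y3,z0],z2),([z0,z0,z0,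
    z3,z3,z0],z4)],[([z2,z0,z0,z0,z0,z1],z2),([z0,z4,z0,z0,z2,z3],z6),([z0,z0,z4,z0,y2,z1],z2)],[([z2,z0,z0,z0,z0,z1],
    z2),([z0,z2,z0,z1,z0,z0],z2),([z0,z0,z2,z1,z0,z0],z2)]],
    [[([z2,z0,z0,z0,z0,z1],z2),([z0,z4,z0,z0,z0,y1],z2),([z0,z0,z2,z0,z0,z1],z2),([z0,z0,z0,z1,z0,y1],z0)],[([z2,z0,
    z0,z0,z0,z1],z2),([z0,z1,z0,z0,z1,z1],z2),([z0,z0,z2,z0,z0,z1],z2)],[([z2,z0,z0,z0,z0,z1],z2),([z0,z3,z0,z0,z0,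
    z0],z2),([z0,z0,z3,z0,z0,z0],z2),([z0,z0,z0,z3,z0,z0],z2)],[([z3,z0,z0,z0,z0,z0],z2),([z0,z9,z0,z0,z6,z0],z10),
    ([z0,z0,z9,z0,y3,z0],z4),([z0,z0,z0,z9,z6,z0],z10)],[([z2,z0,z0,z0,z0,z1],z2),([z0,z3,z0,z0,z2,z1],z4),([z0,z0,z6,
    z0,y2,y1],z2)],[([z2,z0,y2,z2,z0,z1],z2),([z0,z1,z2,z0,z0,z0],z2)],[([z1,z0,y1,z1,z1,z1],z2)],[([z1,z0,z0,z0,z0,
    y1],z0),([z0,z1,z0,z0,z0,z2],z2),([z0,z0,z1,z0,z0,y1],z0),([z0,z0,z0,z2,z0,z1],z2)],[([z2,z0,z0,z0,z0,z1],z2),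
    ([z0,z2,z0,z0,z2,y1],z2),([z0,z0,z1,z0,z0,y1],z0)],[([z2,z0,z0,z0,z0,z1],z2),([z0,z2,z0,z2,z2,z3],z6)],[([z2,z0,
    z0,z0,z0,z1],z2),([z0,z1,z1,z1,z0,z0],z2)],[([z2,z0,z0,z0,z0,z1],z2)]],
    [[]]]

/-- symmetries -/
noncomputable def hS6_104 : List (Bool × ℕ × List ℕ) :=
  [(false,k0,[k0,k1,k2,k3,k4,k5]),(true,k4,[k4,k3,k2,k1,k0,k5])]

/-- equations of the nodes for the classes `0 0 0 0 1 1`, active pairs `0-4` -/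
noncomputable def hD6_105 : List (List (List Eqn)) :=
  [[[([z3,z0,z0,z0,z0,z0],z2),([z0,z3,z0,z0,z0,z0],z2),([z0,z0,z3,z0,z0,z0],z2),([z0,z0,z0,z3,z0,z0],z1)],[([z3,z0,z0,
    z0,z0,z0],z2),([z0,z3,z0,z0,z0,z0],z2),([z0,z0,z3,z0,z0,z0],z2),([z0,z0,z0,z6,z0,z0],z1)],[([z3,z0,z0,z0,z0,z0],
    z2),([z0,z3,z0,z0,z0,z0],z2),([z0,z0,z3,z0,z0,z0],z2)],[([z3,z0,z0,z0,z0,z0],z2),([z0,z5,z0,z0,z0,z0],z4),([z0,z0,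
    z3,z0,z0,z0],z2),([z0,z0,z0,z5,z0,z0],z2)],[([z3,z0,z0,z0,z0,z0],z2),([z0,z3,z0,z0,z0,y3],z2),([z0,z0,z3,z0,z0,
    z0],z2)],[([z3,z0,z0,z0,z0,z0],z2),([z0,z1,z0,z1,z0,z0],z1),([z0,z0,z3,z0,z0,z0],z2)],[([z3,z0,z0,z0,z0,z0],z2),
    ([z0,z3,z0,z3,z0,z0],z2),([z0,z0,z3,z0,z0,z0],z2)],[([z3,z0,z0,z0,z0,z0],z2),([z0,z3,z0,z3,z0,z3],z4)],[([z0,z3,
    z0,z0,z0,z0],z2),([z0,z0,z1,z0,z2,z0],z2),([z0,z0,z0,z3,y6,z0],y4)],[([z0,z3,z0,z0,z3,z0],z4),([z0,z0,z1,z0,z2,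
    z0],z2),([z0,z0,z0,z1,y3,z0],y2)],[([z0,z1,z0,z0,y1,z0],z0),([z0,z0,z1,z0,z2,z0],z2),([z0,z0,z0,z3,y3,z0],y2)],
    [([z0,z3,z0,z0,z6,z0],z8),([z0,z0,z1,z0,z2,z0],z2),([z0,z0,z0,z3,y12,z0],y10)]],
    [[([z9,z0,z0,z0,z0,z0],z5),([z0,z9,z0,z0,z0,z0],z2),([z0,z0,z9,z0,z0,z0],z8),([z0,z0,z0,z9,z0,z0],z2)],[([z0,z1,
    z0,z0,y4,z0],y2),([z0,z0,z1,z0,z2,z0],z2),([z0,z0,z0,z3,z6,z0],z4)],[([z6,z0,z0,z0,z0,z0],z5),([z0,z1,z0,z1,z0,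
    z0],z1),([z0,z0,z3,z0,z0,z0],z1)],[([z0,z3,z0,z3,y6,z0],y2),([z0,z0,z1,z0,z2,z0],z2)],[([z0,z2,z0,z0,z4,z0],z5),
    ([z0,z0,z1,z0,z2,z0],z2),([z0,z0,z0,z1,y4,z0],y3)],[([z3,z0,z0,z0,z0,z0],z2),([z0,z6,z0,z0,z0,z0],z1),([z0,z0,z3,
    z0,z0,z0],z2),([z0,z0,z0,z3,z0,z0],z2)],[([z0,z1,z0,z0,y4,z0],y2),([z0,z0,z1,z0,z2,z0],z2),([z0,z0,z0,z2,z4,z0],
    z3)],[([z4,z0,z0,z0,z0,z0],z3),([z0,z1,z0,z1,z0,z0],z1),([z0,z0,z2,z0,z0,z0],z1)],[([z3,z0,z0,z0,z0,z0],z2),([z0,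
    z2,z0,z0,z0,z0],z1),([z0,z0,z3,z0,z0,z0],z2),([z0,z0,z0,z3,z0,z0],z1)],[([z3,z0,z0,z0,z0,z0],z2),([z0,z12,z0,z0,
    z0,z0],z7),([z0,z0,z3,z0,z0,z0],z2),([z0,z0,z0,z4,z0,z0],z1)],[([z3,z0,z0,z0,z0,z0],z2),([z0,z6,z0,z6,z0,z0],z5),
    ([z0,z0,z3,z0,z0,z0],z2)],[([z0,z2,z0,z2,y4,z0],y1),([z0,z0,z1,z0,z2,z0],z2)]],
    [[([z0,z1,z0,z1,y2,z1],z0)],[([z0,z1,z0,z1,z0,z0],z1),([z0,z0,z3,z0,z0,z0],z2)],[([z2,z0,z0,z0,z0,z0],z1),([z0,z1,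
    z0,z1,z0,z0],z1),([z0,z0,z3,z0,z0,z0],z2)],[([z3,z0,z0,z0,z0,z0],z1),([z0,z3,z0,z3,z0,z0],z2),([z0,z0,z3,z0,z0,
    z0],z2)],[([z12,z0,z0,z0,z0,z0],z5),([z0,z3,z0,z0,z0,z0],z2),([z0,z0,z3,z0,z0,z0],z2),([z0,z0,z0,z6,z0,z0],z1)],
    [([z12,z0,z0,z0,z0,z0],z5),([z0,z2,z0,z0,z0,z0],z1),([z0,z0,z3,z0,z0,z0],z2),([z0,z0,z0,z3,z0,z0],z1)],[([z12,z0,
    z0,z0,z0,z0],z5),([z0,z12,z0,z0,z0,z0],z7),([z0,z0,z3,z0,z0,z0],z2),([z0,z0,z0,z4,z0,z0],z1)],[([z12,z0,z0,z0,z0,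
    z0],z5),([z0,z6,z0,z6,z0,z0],z5),([z0,z0,z3,z0,z0,z0],z2)],[([z6,z0,z0,z0,z0,y3],z8),([z0,z3,z0,z3,z0,z3],z4)],
    [([z0,z3,z0,z3,z0,z0],z2),([z0,z0,z3,z0,z0,z0],z2)],[([z4,z0,z0,z0,z0,z0],z3),([z0,z2,z0,z0,z0,z0],z1),([z0,z0,z3,
    z0,z0,z0],z2),([z0,z0,z0,z3,z0,z0],z1)],[([z0,z1,z0,z0,y2,z0],y2),([z0,z0,z3,z0,z0,z0],z2),([z0,z0,z0,z6,z12,z0],
    z17)]],
    [[([z4,z0,z0,z0,z0,z0],z3),([z0,z3,z0,z0,z0,z0],z2),([z0,z0,z3,z0,z0,z0],z2),([z0,z0,z0,z6,z0,z0],z1)],[([z4,z0,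
    z0,z0,z0,z0],z3),([z0,z12,z0,z0,z0,z0],z7),([z0,z0,z3,z0,z0,z0],z2),([z0,z0,z0,z4,z0,z0],z1)],[([z4,z0,z0,z0,z0,
    z0],z3),([z0,z6,z0,z6,z0,z0],z5),([z0,z0,z3,z0,z0,z0],z2)],[([z0,z6,z0,z6,z0,z0],z5),([z0,z0,z3,z0,z0,z0],z2)],
    [([z0,z3,z0,z3,z0,z3],z4)],[([z0,z1,z0,z0,y4,z0],y2),([z0,z0,z3,z0,z6,z0],z4),([z0,z0,z0,z1,z2,z0],z2)],[([z9,z0,
    z0,z0,z0,z0],z8),([z0,z9,z0,z0,z0,z0],z2),([z0,z0,z9,z0,z0,z0],z8),([z0,z0,z0,z9,z0,z0],z2)],[([z0,z1,z0,z0,y2,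
    z0],y2),([z0,z0,z1,z0,z1,z0],z2),([z0,z0,z0,z3,z3,z0],z4)],[([z0,z1,z0,z0,y2,z0],y2),([z0,z0,z3,z0,z0,z0],z1),
    ([z0,z0,z0,z1,z2,z0],z3)],[([z0,z1,z0,z0,y2,z0],y2),([z0,z0,z3,z0,z0,z0],z2),([z0,z0,z0,z3,z6,z0],z8)],[([z0,z1,
    z0,z0,y2,z0],y2),([z0,z0,z2,z0,z0,z0],z1),([z0,z0,z0,z6,z12,z0],z17)],[([z0,z3,z0,z0,y12,z0],y10),([z0,z0,z3,z0,
    z6,z0],z8),([z0,z0,z0,z1,z2,z0],z2)]],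
    [[([z0,z1,z0,z0,y2,z0],y2),([z0,z0,z3,z3,z6,z0],z10)],[([z0,z1,z0,z0,z2,z0],z2),([z0,z0,z3,z0,z6,z0],z4),([z0,z0,
    z0,z1,y4,z0],y2)],[([z0,z3,z0,z0,z3,z0],z4),([z0,z0,z1,z0,z1,z0],z2),([z0,z0,z0,z1,y2,z0],y2)],[([z0,z1,z0,z0,z2,
    z0],z2),([z0,z0,z3,z0,z0,z0],z1),([z0,z0,z0,z1,y2,z0],y1)],[([z0,z1,z0,z0,z2,z0],z2),([z0,z0,z3,z0,z0,z0],z2),
    ([z0,z0,z0,z3,y6,z0],y4)],[([z0,z1,z0,z0,z2,z0],z2),([z0,z0,z2,z0,z0,z0],z1),([z0,z0,z0,z6,y12,z0],y7)],[([z0,z1,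
    z0,z0,z2,z0],z2),([z0,z0,z3,z0,z6,z0],z8),([z0,z0,z0,z3,y12,z0],y10)],[([z0,z1,z0,z0,z2,z0],z2),([z0,z0,z1,z0,z1,
    z0],z1),([z0,z0,z0,z3,y9,z0],y5)],[([z0,z1,z0,z0,z2,z0],z2),([z0,z0,z1,z0,z2,z0],z2),([z0,z0,z0,z3,y12,z0],y8)],
    [([z0,z1,z0,z0,z2,z0],z2),([z0,z0,z3,z3,y6,z0],y2)],[([z0,z3,z0,z0,y12,z0],y10),([z0,z0,z1,z0,z2,z0],z2),([z0,z0,
    z0,z3,z6,z0],z8)],[([z0,z3,z0,z0,y6,z0],y4),([z0,z0,z1,z0,z1,z0],z1),([z0,z0,z0,z3,z3,z0],z5)]],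
    [[([z3,z0,z0,z0,z0,z0],z2),([z0,z1,z0,z2,z0,z0],z2),([z0,z0,z3,y3,z0,z0],y2)],[([z0,z2,z0,z1,z0,z0],z2),([z0,z0,
    z6,z3,z0,z0],z2)],[([z9,z0,z0,z0,z0,z0],z7),([z0,z9,z0,z0,z0,z0],z2),([z0,z0,z9,z0,z0,z0],z8),([z0,z0,z0,z9,z0,
    z0],z2)],[([z3,z0,z0,z0,z0,z0],z2),([z0,z9,z0,z0,z0,z0],z2),([z0,z0,z9,z0,z0,z0],z8),([z0,z0,z0,z9,z0,z0],z2)],
    [([z0,z9,z0,z0,z0,z0],z2),([z0,z0,z9,z0,z0,z0],z8),([z0,z0,z0,z9,z0,z0],z2)],[([z9,z0,z0,z0,z0,z0],z1),([z0,z9,z0,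
    z0,z0,z0],z2),([z0,z0,z9,z0,z0,z0],z8),([z0,z0,z0,z9,z0,z0],z2)],[([z0,z3,z0,z0,z3,z0],z1),([z0,z0,z1,z0,z1,z0],
    z1),([z0,z0,z0,z1,y2,z0],z0)],[([z0,z3,z0,z0,z6,z0],z4),([z0,z0,z1,z0,z2,z0],z2),([z0,z0,z0,z1,y4,z0],y2)],[([z9,
    z0,z0,z0,z0,z0],z2),([z0,z9,z0,z0,z0,z0],z2),([z0,z0,z9,z0,z0,z0],z8),([z0,z0,z0,z9,z0,z0],z2)],[([z0,z3,z0,z0,z6,
    z0],z2),([z0,z0,z3,z0,z6,z0],z4),([z0,z0,z0,z3,y12,z0],y2)],[([z0,z6,z0,z3,z0,z0],z2),([z0,z0,z2,z1,z0,z0],z2)],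
    [([z0,z1,z0,z1,z0,z0],z1),([z0,z0,z3,z0,z0,z0],z1)]],
    [[([z0,z1,z0,z0,z2,z0],z4),([z0,z0,z3,z0,z6,z0],z10),([z0,z0,z0,z1,y4,z0],y6)],[([z0,z3,z0,z0,y12,z0],y14),([z0,
    z0,z3,z0,z6,z0],z10),([z0,z0,z0,z3,z6,z0],z8)],[([z2,z0,z0,z0,z0,z0],z1),([z0,z1,z0,z1,z0,z0],z1),([z0,z0,z3,z0,
    z0,z0],z1)],[([z12,z0,z0,z0,z0,z0],z7),([z0,z6,z0,z6,z0,z0],z5),([z0,z0,z2,z0,z0,z0],z1)],[([z0,z3,z0,z0,z6,z0],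
    z8),([z0,z0,z3,z0,z6,z0],z10),([z0,z0,z0,z3,y12,z0],y14)],[([z0,z1,z0,z1,y2,z0],y2),([z0,z0,z3,z0,z6,z0],z10)],
    [([z4,z0,z0,z0,z0,z0],z3),([z0,z6,z0,z6,z0,z0],z5),([z0,z0,z2,z0,z0,z0],z1)],[([z2,z0,z0,z0,z0,z0],z1),([z0,z6,z0,
    z6,z0,z0],z5),([z0,z0,z2,z0,z0,z0],z1)],[([z12,z0,z0,z0,z0,z0],z5),([z0,z6,z0,z6,z0,z0],z5),([z0,z0,z2,z0,z0,z0],
    z1)],[([z0,z6,z0,z6,z0,z0],z5),([z0,z0,z2,z0,z0,z0],z1)],[([z0,z3,z0,z0,z3,z0],z5),([z0,z0,z1,z0,z1,z0],z1),([z0,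
    z0,z0,z3,y6,z0],y4)],[([z0,z1,z0,z0,y2,z0],z0),([z0,z0,z1,z0,z1,z0],z1),([z0,z0,z0,z3,z3,z0],z1)]],
    [[([z3,z0,z0,z0,z0,z0],z2),([z0,z1,z0,z1,z0,z0],z1),([z0,z0,z3,z0,z0,z0],z1)],[([z0,z3,z0,z3,y3,z0],z1),([z0,z0,
    z1,z0,z1,z0],z1)],[([z0,z3,z0,z0,y12,z0],y2),([z0,z0,z3,z0,z6,z0],z4),([z0,z0,z0,z3,z6,z0],z2)],[([z0,z1,z0,z1,y2,
    z0],z0),([z0,z0,z3,z0,z6,z0],z4)],[([z0,z3,z3,z3,z0,z0],z4)],[([z0,z1,z0,z0,y4,z0],y2),([z0,z0,z2,z0,z4,z0],z3),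
    ([z0,z0,z0,z1,z2,z0],z2)],[([z4,z0,z0,z0,z0,z0],z3),([z0,z2,z0,z0,z0,z0],z1),([z0,z0,z4,z0,z0,z0],z3),([z0,z0,z0,
    z4,z0,z0],z1)],[([z10,z0,z0,z0,z0,z0],z7),([z0,z5,z0,z0,z0,z0],z3),([z0,z0,z10,z0,z0,z0],z7),([z0,z0,z0,z5,z0,z0],
    z1)],[([z0,z1,z0,z0,y2,z0],y2),([z0,z0,z1,z0,z1,z0],z2),([z0,z0,z0,z2,z2,z0],z3)],[([z0,z1,z0,z0,y2,z0],y2),([z0,
    z0,z2,z0,z0,z0],z1),([z0,z0,z0,z1,z2,z0],z3)],[([z0,z1,z0,z0,y2,z0],y2),([z0,z0,z2,z2,z4,z0],z7)],[([z0,z1,z0,z0,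
    y4,z0],y3),([z0,z0,z1,z0,z2,z0],z2),([z0,z0,z0,z2,z4,z0],z5)]],
    [[([z0,z2,z0,z0,z2,z0],z3),([z0,z0,z1,z0,z1,z0],z1),([z0,z0,z0,z1,y2,z0],y1)],[([z0,z1,z0,z0,z2,z0],z2),([z0,z0,
    z2,z0,z4,z0],z3),([z0,z0,z0,z1,y4,z0],y2)],[([z0,z1,z0,z0,y2,z0],y2),([z0,z0,z2,z0,z2,z0],z3),([z0,z0,z0,z1,z1,
    z0],z2)],[([z4,z0,z0,z0,z0,z0],z3),([z0,z1,z0,z2,z0,z0],z2),([z0,z0,z2,y2,z0,z0],y1)],[([z0,z2,z0,z1,z0,z0],z2),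
    ([z0,z0,z2,z1,z0,z0],z1)],[([z0,z1,z0,z1,z0,z0],z1),([z0,z0,z2,z0,z0,z0],z1)],[([z2,z0,z0,z0,z0,z0],z1),([z0,z1,
    z0,z1,z0,z0],z1),([z0,z0,z2,z0,z0,z0],z1)],[([z0,z1,z0,z1,y2,z0],z0),([z0,z0,z2,z0,z4,z0],z3)],[([z4,z0,z0,z0,z0,
    z0],z3),([z0,z2,z0,z0,z0,z0],z1),([z0,z0,z2,z0,z0,z0],z1),([z0,z0,z0,z2,z0,z0],z1)],[([z4,z0,z0,z0,z0,z0],z3),
    ([z0,z2,z0,z0,z0,z0],z1),([z0,z0,z4,z0,z0,z0],z1),([z0,z0,z0,z4,z0,z0],z3)],[([z4,z0,z0,z0,z0,z0],z3),([z0,z2,z0,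
    z0,z0,z0],z1),([z0,z0,z1,z1,z0,z0],z1)],[([z4,z0,z0,z0,z0,z0],z3),([z0,z2,z0,z1,z0,z0],z2),([z0,z0,z2,z1,z0,z0],
    z1)]],
    [[([z4,z0,z0,z0,z0,z0],z3),([z0,z2,z2,z2,z0,z0],z3)],[([z0,z2,z2,z2,z0,z0],z3)],[]]]

/-- symmetries -/
noncomputable def hS6_105 : List (Bool × ℕ × List ℕ) :=
  [(false,k0,[k0,k1,k2,k3,k4,k5]),(true,k4,[k4,k3,k2,k1,k0,k5])]

/-- equations of the nodes for the classes `0 0 0 1 1 1`, active pairs `` -/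
noncomputable def hD6_124 : List (List (List Eqn)) :=
  [[[([z1,z0,z0,z0,z0,y1],z0),([z0,z1,z0,z0,z0,y1],z0),([z0,z0,z1,z0,z0,z2],z2),([z0,z0,z0,z1,z0,y1],z0)],[([z3,z0,z0,
    z0,z0,z0],z2),([z0,z3,z0,z0,z0,z0],z2),([z0,z0,z3,z0,z0,z0],z2),([z0,z0,z0,z3,z0,z0],z2),([z0,z0,z0,z0,z3,z0],
    z2)],[([z4,z0,z0,z0,z0,y1],z2),([z0,z2,z0,z0,z0,z1],z2),([z0,z0,z2,z0,z0,z1],z2),([z0,z0,z0,z4,z0,y1],z2)],[([z3,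
    z0,z0,z0,z0,z0],z2),([z0,z3,z0,z0,z0,z0],z2),([z0,z0,z3,z0,z3,z0],z4),([z0,z0,z0,z3,z0,z0],z2)],[([z2,z0,z0,z0,z0,
    z1],z2),([z0,z1,z0,z0,z0,y1],z0),([z0,z0,z1,z0,z1,z1],z2)],[([z2,z0,z0,z0,z0,z1],z2),([z0,z1,z0,z0,z0,y1],z0),
    ([z0,z0,z3,z0,z0,z3],z4),([z0,z0,z0,z6,z0,y3],z2)],[([z2,z0,z0,z0,z0,z1],z2),([z0,z1,z0,z0,z0,y1],z0),([z0,z0,z2,
    z0,z0,z1],z2),([z0,z0,z0,z1,z0,y1],z0)],[([z6,z0,z0,z0,y9,z0],y2),([z0,z3,z0,z0,z9,z0],z8),([z0,z0,z1,z0,y1,z0],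
    z0),([z0,z0,z0,z2,z1,z0],z2)],[([z2,z0,z0,z0,y3,y2],y2),([z0,z1,z0,z0,z3,z2],z4),([z0,z0,z1,z0,y1,z0],z0)],[([z3,
    z0,z0,z0,z0,z0],z2),([z0,z3,z0,z0,z0,z0],z2),([z0,z0,z3,z0,z0,z0],z2),([z0,z0,z0,z3,z3,z0],z4)],[([z2,z0,z0,z0,z0,
    z1],z2),([z0,z1,z0,z0,z0,y1],z0),([z0,z0,z1,z0,z0,z2],z2),([z0,z0,z0,z2,z0,y5],y2)],[([z2,z0,z0,z0,y1,z2],z2),
    ([z0,z1,z0,z0,z2,z0],z2),([z0,z0,z1,z0,y1,z0],z0)]],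
    [[([z1,z0,z0,z0,z0,y1],z0),([z0,z1,z0,z0,z0,z2],z2),([z0,z0,z3,z0,z0,z0],z2),([z0,z0,z0,z3,z0,z0],z2)],[([z3,z0,
    z0,z0,z0,z0],z2),([z0,z3,z0,z0,z0,z0],z2),([z0,z0,z1,z1,z1,z0],z2)],[([z2,z0,z0,z0,z0,z1],z2),([z0,z1,z0,z0,z0,
    y1],z0)],[([z6,z0,z0,z0,y3,z0],z2),([z0,z3,z0,z0,z3,z0],z4),([z0,z0,z3,z0,z0,z0],z2),([z0,z0,z0,z2,z1,z0],z2)],
    [([z2,z0,z0,z0,y1,y1],z0),([z0,z1,z0,z0,z1,z1],z2),([z0,z0,z2,z0,z0,z1],z2)],[([z2,z0,z0,z0,z0,y5],y2),([z0,z1,z0,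
    z0,z0,z2],z2),([z0,z0,z1,z0,z0,y1],z0),([z0,z0,z0,z2,z0,z1],z2)],[([z6,z0,z0,z0,z0,y3],z2),([z0,z1,z0,z0,z0,z2],
    z2),([z0,z0,z1,z0,z0,y1],z0),([z0,z0,z0,z2,z0,z1],z2)],[([z1,z0,z0,z0,z0,y1],z0),([z0,z1,z0,z0,z0,z2],z2),([z0,z0,
    z1,z0,z0,y4],y2),([z0,z0,z0,z1,z0,z2],z2)],[([z2,z0,z0,z0,z0,z1],z2),([z0,z2,z0,z2,z0,y1],z2),([z0,z0,z1,z0,z0,
    y1],z0)],[([z6,z0,z0,z0,z0,y3],z2),([z0,z3,z0,z0,z0,z3],z4),([z0,z0,z3,z0,z0,z0],z2),([z0,z0,z0,z3,z0,z0],z2)],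
    [([z3,z0,z0,z0,z0,y6],y2),([z0,z3,z0,z0,z0,z3],z4),([z0,z0,z3,z0,z0,z0],z2),([z0,z0,z0,z3,z0,z0],z2)],[([z3,z0,z0,
    z0,z0,z0],z2),([z0,z3,z0,z0,z0,z0],z2),([z0,z0,z3,z0,z3,z0],z4)]],
    [[([z2,z0,z0,z0,z0,z1],z2),([z0,z2,z0,z2,z0,y1],z2)],[([z1,z0,z0,z0,z0,y1],z0),([z0,z1,z0,z0,z0,z2],z2),([z0,z0,
    z1,z0,z0,y1],z0),([z0,z0,z0,z1,z0,y1],z0)],[([z1,z0,z0,z0,z0,y1],z0),([z0,z1,z0,z0,z0,z2],z2),([z0,z0,z2,z0,z0,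
    y5],y2),([z0,z0,z0,z2,z0,z1],z2)],[([z1,z0,z0,z0,z0,y1],z0),([z0,z1,z0,z0,z0,z2],z2),([z0,z0,z1,z1,z0,y2],z0)],
    [([z3,z0,z0,z0,z0,z0],z2),([z0,z3,z0,z0,z0,z0],z2),([z0,z0,z3,z0,z0,z3],z4),([z0,z0,z0,z3,z0,y6],y2)],[([z2,z0,z0,
    z0,z0,z1],z2),([z0,z1,z0,z0,z1,z1],z2),([z0,z0,z1,z0,y2,y2],y2)],[([z2,z0,z0,z0,z0,z1],z2),([z0,z2,z0,z0,y1,y1],
    z0),([z0,z0,z1,z0,z1,z1],z2)],[([z1,z0,y1,z0,z0,z0],z0),([z0,z1,z2,z0,z0,z0],z2),([z0,z0,z0,z1,z0,y1],z0)],[([z1,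
    z0,y1,y1,z0,z1],z0),([z0,z1,z2,z2,z0,y2],z2)],[([z2,z0,z0,z0,z0,z1],z2),([z0,z3,z0,z0,z0,z0],z2),([z0,z0,z3,z0,z0,
    z0],z2),([z0,z0,z0,z6,z0,y3],z2)],[([z1,z0,z0,z0,y1,z0],z0),([z0,z1,z0,z0,z2,z0],z2),([z0,z0,z1,z0,y1,z0],z0),
    ([z0,z0,z0,z3,z3,z0],z4)],[([z6,z0,z0,z0,y3,z0],z2),([z0,z1,z0,z0,z1,z1],z2),([z0,z0,z3,z0,z0,z0],z2)]],
    [[([z6,z0,z0,z0,z0,y3],z2),([z0,z3,z0,z0,z0,z3],z4),([z0,z0,z3,z0,z0,z0],z2),([z0,z0,z0,z6,z0,y3],z2)],[([z1,z0,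
    y1,z0,z0,z0],z0),([z0,z1,z2,z0,z0,z0],z2),([z0,z0,z0,z3,z0,z0],z2),([z0,z0,z0,z0,z3,z0],z2)],[([z6,z0,y6,z0,y3,
    z0],y2),([z0,z3,z6,z0,z3,z0],z8),([z0,z0,z0,z2,z1,z0],z2)],[([z1,z0,z0,z0,y1,z0],z0),([z0,z1,z0,z0,z2,z0],z2),
    ([z0,z0,z3,z0,z0,z0],z2),([z0,z0,z0,z3,z0,z0],z2)],[([z3,z0,y3,z0,y3,z0],y2),([z0,z3,z6,z0,z6,z0],z10),([z0,z0,z0,
    z3,z0,z0],z2)],[([z3,z0,y3,y3,z0,z0],y2),([z0,z3,z6,z6,z0,z0],z10),([z0,z0,z0,z0,z3,z0],z2)],[([z3,z0,y3,y3,y3,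
    z0],y4),([z0,z3,z6,z6,z6,z0],z14)],[([z1,z0,y1,y1,y1,y1],y2)],[([z2,z0,z0,z0,z0,y5],y2),([z0,z1,z0,z0,z0,z2],z2),
    ([z0,z0,z1,z0,z0,z2],z2),([z0,z0,z0,z2,z0,z1],z2)],[([z4,z0,z0,z0,z0,y1],z2),([z0,z2,z0,z0,z0,z1],z2),([z0,z0,z2,
    z0,z0,z1],z2),([z0,z0,z0,z4,z0,y7],y2)],[([z4,z0,z0,z0,z0,y1],z2),([z0,z2,z0,z0,z0,z1],z2),([z0,z0,z2,z0,z0,z1],
    z2)],[([z1,z0,z0,z0,z0,y1],z0),([z0,z1,z0,z0,z0,y1],z0),([z0,z0,z1,z0,z0,y1],z0),([z0,z0,z0,z1,z0,z2],z2)]],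
    [[([z6,z0,z0,z0,y3,z0],z2),([z0,z1,z0,z0,y1,z0],z0),([z0,z0,z3,z0,z3,z0],z4),([z0,z0,z0,z6,z9,z0],z10)],[([z2,z0,
    z0,z0,y1,y1],z0),([z0,z1,z0,z0,y1,z0],z0),([z0,z0,z1,z0,z1,z1],z2)],[([z1,z0,z0,z0,z0,y1],z0),([z0,z1,z0,z0,z0,
    y1],z0),([z0,z0,z1,z0,z0,z2],z2)],[([z6,z0,z0,z0,z0,y9],y2),([z0,z3,z0,z0,z0,z3],z4),([z0,z0,z3,z0,z0,z3],z4),
    ([z0,z0,z0,z2,z0,z1],z2)],[([z6,z0,z0,z0,z0,y3],z2),([z0,z3,z0,z0,z0,z0],z2),([z0,z0,z3,z0,z0,z3],z4),([z0,z0,z0,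
    z6,z0,y9],y2)],[([z6,z0,z0,z0,z0,y3],z2),([z0,z3,z0,z0,z0,z0],z2),([z0,z0,z3,z0,z0,z3],z4)],[([z2,z0,z0,z0,z1,z0],
    z2),([z0,z1,z0,z0,z1,z1],z2)],[([z2,z0,z0,z0,z0,z1],z2),([z0,z1,z0,z0,z1,z1],z2),([z0,z0,z1,z0,z0,y1],z0)],[([z1,
    z0,z0,z0,z0,y1],z0),([z0,z3,z0,z0,z0,z3],z4),([z0,z0,z3,z0,z0,z3],z4),([z0,z0,z0,z3,z0,z0],z2)],[([z3,z0,z0,z0,z0,
    z0],z2),([z0,z3,z0,z0,z0,z0],z2),([z0,z0,z3,z0,z0,z3],z4)],[([z2,z0,z0,z0,z0,z1],z2),([z0,z1,z0,z0,z1,z1],z2)],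
    [([z1,z0,z0,z1,z0,y2],z0),([z0,z1,z0,z0,z0,z2],z2),([z0,z0,z1,z0,z0,y1],z0)]],
    [[([z1,z0,z0,z1,z0,y2],z0),([z0,z1,z0,z0,z0,y1],z0),([z0,z0,z1,z0,z0,z2],z2)],[([z4,z0,z0,z0,z0,y7],y2),([z0,z2,
    z0,z0,z0,z1],z2),([z0,z0,z2,z0,z0,z1],z2),([z0,z0,z0,z4,z0,y1],z2)],[([z2,z0,z0,z0,z0,y5],y2),([z0,z1,z0,z0,z0,
    y1],z0),([z0,z0,z1,z0,z0,z2],z2),([z0,z0,z0,z2,z0,z1],z2)],[([z6,z0,z0,z0,z0,y9],y2),([z0,z3,z0,z0,z0,z3],z4),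
    ([z0,z0,z3,z0,z0,z0],z2),([z0,z0,z0,z6,z0,y3],z2)],[([z2,z0,z0,z0,z1,z0],z2),([z0,z1,z0,z0,y2,y2],y2),([z0,z0,z1,
    z0,z1,z1],z2)],[([z8,z0,z0,z0,z0,z1],z6),([z0,z4,z0,z0,z0,y1],z2),([z0,z0,z2,z0,z0,z1],z2),([z0,z0,z0,z8,z0,y5],
    z2)],[([z2,z0,z0,z0,z0,z1],z2),([z0,z1,z0,z0,y2,y2],y2),([z0,z0,z1,z0,z1,z1],z2)],[([z1,z0,z0,z1,z0,y2],z0),([z0,
    z1,z1,z0,z0,z1],z2)],[([z1,z0,z0,z0,z0,y1],z0),([z0,z1,z0,z0,z0,z2],z2),([z0,z0,z1,z0,z0,y1],z0),([z0,z0,z0,z1,z0,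
    z2],z2)],[([z6,z0,z0,z0,y3,z0],z2),([z0,z3,z0,z0,z3,z0],z4),([z0,z0,z6,z0,y3,z0],z2),([z0,z0,z0,z3,z3,z0],z4)],
    [([z2,z0,z0,z0,y1,y1],z0),([z0,z1,z0,z0,z1,z1],z2),([z0,z0,z2,z0,y1,y1],z0)],[([z3,z0,z0,z3,z0,z0],z4),([z0,z3,z0,
    z0,z0,z0],z2),([z0,z0,z3,z0,z0,z0],z2),([z0,z0,z0,z0,z3,z0],z2)]],
    [[([z3,z0,z0,z3,z0,z0],z4),([z0,z3,z0,z0,z0,z0],z2),([z0,z0,z3,z0,z0,z0],z2)],[([z2,z0,z0,z2,z0,y1],z2),([z0,z1,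
    z1,z0,z0,z1],z2)],[([z1,z0,z0,z1,z0,z1],z2)],[([z5,z0,z0,z0,z0,z1],z4),([z0,z5,z0,z0,z0,y2],z2),([z0,z0,z5,z0,z0,
    z4],z6),([z0,z0,z0,z5,z0,y2],z2)],[([z2,z0,z0,z0,z0,z1],z2),([z0,z1,z0,z0,z0,y1],z0),([z0,z0,z2,z0,z0,z1],z2)],
    [([z2,z0,y2,y2,z0,y1],y2),([z0,z1,z2,z2,z0,z1],z4)],[([z1,z0,z0,z0,z0,y1],z0),([z0,z1,z0,z0,z0,y4],y2),([z0,z0,z1,
    z0,z0,z2],z2),([z0,z0,z0,z1,z0,z2],z2)],[([z2,z0,z0,z2,z0,y1],z2),([z0,z1,z0,z0,z0,y1],z0),([z0,z0,z2,z0,z0,z1],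
    z2)],[([z1,z0,z0,z1,z0,z1],z2),([z0,z1,z0,z0,z2,z0],z2)],[([z1,z0,z0,z0,z0,y1],z0),([z0,z3,z0,z0,z0,z0],z2),([z0,
    z0,z3,z0,z0,z0],z2),([z0,z0,z0,z3,z0,z0],z2)],[([z1,z0,z0,z0,z0,y1],z0),([z0,z1,z0,z2,z0,z0],z2),([z0,z0,z1,y1,z0,
    z0],z0)],[([z4,z0,z0,z0,z0,y1],z2),([z0,z1,z0,z0,z0,y1],z0),([z0,z0,z2,z0,z0,z1],z2),([z0,z0,z0,z4,z0,y1],z2)]],
    [[([z2,z0,z0,z0,z0,z1],z2),([z0,z3,z0,z0,z0,z0],z2),([z0,z0,z3,z0,z0,z0],z2),([z0,z0,z0,z6,z0,y9],y2)],[([z2,z0,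
    z0,z0,z0,z1],z2),([z0,z1,z0,z2,z0,y3],z0),([z0,z0,z2,y2,z0,z3],z2)],[([z1,z0,y1,z1,z0,y1],z0),([z0,z1,z2,z0,z0,
    z0],z2)],[([z1,z0,y1,z0,z0,z0],z0),([z0,z1,z2,z0,z0,z0],z2),([z0,z0,z0,z3,z3,z0],z4)],[([z6,z0,z0,z0,y3,z0],z2),
    ([z0,z1,z0,z0,z2,z0],z2),([z0,z0,z1,z0,y1,z0],z0),([z0,z0,z0,z2,z1,z0],z2)],[([z1,z0,z0,z0,z0,y1],z0),([z0,z1,z0,
    z0,z0,y1],z0),([z0,z0,z3,z0,z0,z0],z2),([z0,z0,z0,z3,z0,z3],z4)],[([z3,z0,z0,z3,z0,z0],z4),([z0,z1,z0,z0,z0,y1],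
    z0),([z0,z0,z3,z0,z0,z0],z2)],[([z1,z0,z0,z1,z0,z1],z2),([z0,z3,z0,z0,z0,z0],z2),([z0,z0,z3,z0,z0,z0],z2)],[([z3,
    z0,y3,z3,z0,z0],z2),([z0,z1,z2,z0,z0,z0],z2),([z0,z0,z0,z0,z3,z0],z2)],[([z3,z0,y3,z3,z3,z0],z4),([z0,z1,z2,z0,z0,
    z0],z2)],[([z1,z0,y1,z1,z1,z1],z2)],[([z1,z0,z0,z0,y1,z0],z0),([z0,z3,z0,z0,z3,z0],z4),([z0,z0,z3,z0,z3,z0],z4),
    ([z0,z0,z0,z3,z0,z0],z2)]],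
    [[([z3,z0,z0,z0,z0,z0],z2),([z0,z3,z0,z0,z0,z3],z4),([z0,z0,z3,z0,z0,y6],y2),([z0,z0,z0,z1,z0,z2],z2)],[([z3,z0,
    z0,z0,z0,z0],z2),([z0,z3,z0,z0,z0,z3],z4),([z0,z0,z3,z0,z0,z0],z2)],[([z6,z0,z0,z0,y9,z0],y2),([z0,z3,z0,z0,z3,
    z0],z4),([z0,z0,z3,z0,z3,z0],z4),([z0,z0,z0,z2,z1,z0],z2)],[([z6,z0,z0,z0,z0,y3],z2),([z0,z3,z0,z0,z0,z3],z4),
    ([z0,z0,z3,z0,z0,z0],z2),([z0,z0,z0,z6,z0,y9],y2)],[([z6,z0,z0,z0,z0,y3],z2),([z0,z3,z0,z0,z0,z3],z4),([z0,z0,z3,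
    z0,z0,z0],z2)],[([z1,z0,z0,z1,z0,y2],z0),([z0,z3,z0,z0,z0,z3],z4),([z0,z0,z3,z0,z0,z0],z2)],[([z6,z0,z0,z0,z0,y3],
    z2),([z0,z3,z0,z0,z0,z3],z4),([z0,z0,z6,z0,z0,y3],z2),([z0,z0,z0,z3,z0,z3],z4)],[([z2,z0,z0,z2,z0,y1],z2),([z0,z3,
    z0,z0,z0,z3],z4),([z0,z0,z3,z0,z0,z0],z2)],[([z1,z0,z0,z1,z0,z1],z2),([z0,z3,z0,z0,z0,z0],z2)],[([z6,z0,z0,z0,z0,
    y9],y2),([z0,z3,z0,z0,z0,z0],z2),([z0,z0,z3,z0,z0,z3],z4),([z0,z0,z0,z6,z0,y3],z2)],[([z12,z0,z0,z0,z0,y9],z2),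
    ([z0,z6,z0,z0,z0,z9],z10),([z0,z0,z3,z0,z0,z0],z2),([z0,z0,z0,z4,z0,y1],z2)],[([z3,z0,z0,y3,z0,y3],y2),([z0,z3,z0,
    z0,z0,z0],z2),([z0,z0,z1,z2,z0,z0],z2)]],
    [[([z3,z0,y3,z3,z0,z3],z4),([z0,z1,z2,z0,z0,z0],z2)],[([z6,z0,z0,z0,z0,z9],z10),([z0,z1,z0,z0,z0,y1],z0),([z0,z0,
    z3,z0,z0,z0],z2),([z0,z0,z0,z2,z0,z1],z2)],[([z6,z0,z0,z0,y3,z0],z2),([z0,z3,z0,z0,z0,z0],z2),([z0,z0,z3,z0,z3,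
    z0],z4),([z0,z0,z0,z2,z1,z0],z2)],[([z1,z0,z0,y1,z0,z0],z0),([z0,z3,z0,z0,z0,z0],z2),([z0,z0,z1,z2,z0,z0],z2),
    ([z0,z0,z0,z0,z3,z0],z2)],[([z3,z0,z0,y3,y3,z0],y2),([z0,z3,z0,z0,z0,z0],z2),([z0,z0,z3,z6,z6,z0],z10)],[([z3,z0,
    z0,z3,z0,z0],z4),([z0,z3,z0,z0,z0,z0],z2),([z0,z0,z3,z0,z3,z0],z4)],[([z3,z0,z3,z3,z3,z0],z8),([z0,z3,z0,z0,z0,
    z0],z2)],[([z3,z0,z3,z3,z3,z3],z10)],[]]]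

/-- symmetries -/
noncomputable def hS6_124 : List (Bool × ℕ × List ℕ) :=
  [(false,k0,[k0,k1,k2,k3,k4,k5]),(false,k3,[k3,k4,k5,k0,k1,k2]),(true,k3,[k3,k2,k1,k0,k5,k4]),(true,k0,[k0,k5,k4,k3,
    k2,k1])]

/-- equations of the nodes for the classes `0 0 0 1 1 1`, active pairs `0-3` -/
noncomputable def hD6_125 : List (List (List Eqn)) :=
  [[[([z3,z0,z0,z0,z0,z0],z2),([z0,z6,z0,z0,z0,z3],z2),([z0,z0,z3,z0,z0,z0],z2)],[([z2,z0,z0,z0,z0,y1],z2),([z0,z1,z0,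
    z0,y1,y1],z0)],[([z2,z0,z0,z0,z0,y1],z1),([z0,z1,z1,z0,z0,z0],z1)],[([z6,z0,z0,z0,y3,z0],z8),([z0,z3,z0,z0,y3,z0],
    z2),([z0,z0,z3,z0,z6,z0],z2)],[([z2,z0,z0,z0,y1,y1],z2),([z0,z1,z0,z0,y1,y1],z0)],[([z2,z0,z0,z0,z0,y1],z2)],
    [([z2,z0,z0,z0,y1,z0],z2),([z0,z3,z0,z0,y3,z0],z2),([z0,z0,z3,z0,z6,z0],z2)],[([z2,z0,z0,z0,y1,z0],z2),([z0,z1,z0,
    z0,y1,y1],z0)],[([z2,z0,z0,z0,z0,z1],z2),([z0,z1,z1,z0,z0,z0],z1)],[([z3,z0,z0,z0,z0,z0],z2),([z0,z3,z0,z0,z0,z0],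
    z2),([z0,z0,z3,z0,z0,z0],z2)],[([z6,z0,z0,z0,y3,z0],z8),([z0,z3,z0,z0,z6,z0],z2),([z0,z0,z3,z0,y3,z0],z2)],[([z2,
    z0,z0,z0,y1,y1],z2),([z0,z1,z0,z0,z2,z2],z2)]],
    [[([z2,z0,z0,z0,y1,z0],z2)],[([z9,z0,z0,z0,z0,z0],z8),([z0,z9,z0,z0,z0,z0],z2),([z0,z0,z9,z0,z0,z0],z8),([z0,z0,
    z0,z0,z9,z0],z2)],[([z9,z0,z0,z0,z0,z0],z7),([z0,z9,z0,z0,z0,z0],z4),([z0,z0,z9,z0,z0,z0],z4),([z0,z0,z0,z0,z9,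
    z0],z4)],[([z6,z0,z0,z0,z0,z0],z5),([z0,z3,z0,z0,z0,z0],z1),([z0,z0,z3,z0,z0,z0],z2),([z0,z0,z0,z0,z3,z0],z1)],
    [([z2,z0,z0,z0,z0,y1],z2),([z0,z3,z0,z0,z0,z6],z4),([z0,z0,z1,z0,z0,y1],z0)],[([z6,z0,z0,z0,z0,z0],z5),([z0,z3,z0,
    z0,z0,z0],z2),([z0,z0,z3,z0,z0,z0],z1)],[([z2,z0,z0,z0,z0,y1],z2),([z0,z3,z0,z0,z0,z6],z2),([z0,z0,z3,z0,z0,y3],
    z2)],[([z6,z0,z0,z0,y3,z0],z4),([z0,z3,z0,z0,z0,z0],z2),([z0,z0,z3,z0,z3,z0],z2)],[([z6,z0,z0,z0,y3,y3],z2),([z0,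
    z3,z0,z0,z0,z0],z2)],[([z2,z0,z0,z0,z0,z1],z2),([z0,z3,z0,z0,z0,z0],z2),([z0,z0,z3,z0,z0,z0],z2)],[([z2,z0,z0,z0,
    z0,z1],z2),([z0,z3,z0,z0,z0,z0],z2),([z0,z0,z3,z0,z0,z0],z1)],[([z4,z0,z0,z0,z0,z0],z3),([z0,z2,z0,z0,z0,z0],z1),
    ([z0,z0,z4,z0,z0,z0],z3),([z0,z0,z0,z0,z12,z0],z1)]],
    [[([z5,z0,z0,z0,z0,z0],z4),([z0,z5,z0,z0,z0,z0],z2),([z0,z0,z5,z0,z0,z0],z4),([z0,z0,z0,z0,z15,z0],z2)],[([z3,z0,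
    z0,z0,y3,z0],z2),([z0,z3,z0,z0,z6,z0],z2),([z0,z0,z3,z0,y3,z0],z2)],[([z9,z0,z0,z0,z0,z0],z7),([z0,z9,z0,z0,z0,
    z0],z4),([z0,z0,z3,z0,z0,z0],z2),([z0,z0,z0,z0,z9,z0],z2)],[([z12,z0,z0,z0,z0,z0],z11),([z0,z6,z0,z0,z0,z0],z1),
    ([z0,z0,z3,z0,z0,z0],z2),([z0,z0,z0,z0,z2,z0],z1)],[([z9,z0,z0,z0,z0,z0],z8),([z0,z9,z0,z0,z0,z0],z2),([z0,z0,z3,
    z0,z0,z0],z2),([z0,z0,z0,z0,z9,z0],z4)],[([z6,z0,z0,z0,y3,z0],z4),([z0,z3,z0,z0,z3,z0],z2),([z0,z0,z3,z0,z0,z0],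
    z2)],[([z2,z0,z0,z0,y1,z0],z2),([z0,z3,z0,z0,z3,z3],z4)],[([z3,z0,z0,z0,z0,z0],z1),([z0,z3,z0,z0,z0,z0],z2),([z0,
    z0,z3,z0,z0,z0],z2)],[([z0,z3,z0,z0,z0,z0],z2),([z0,z0,z3,z0,z0,z0],z2)],[([z0,z3,z0,z0,z0,z0],z1),([z0,z0,z3,z0,
    z0,z0],z2)],[([z3,z0,z0,z0,y3,z0],z5),([z0,z3,z0,z0,y3,z0],z2),([z0,z0,z3,z0,z6,z0],z2)],[([z6,z0,z0,z0,z0,y3],
    z2),([z0,z3,z0,z0,z0,z6],z2),([z0,z0,z3,z0,z0,y3],z2)]],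
    [[([z3,z0,z0,z0,z0,y3],z2),([z0,z3,z0,z0,z0,z6],z2),([z0,z0,z3,z0,z0,y3],z2)],[([z3,z0,z0,z0,z0,y6],z1),([z0,z3,
    z0,z0,z0,z6],z2),([z0,z0,z3,z0,z0,y3],z2)],[([z0,z3,z0,z0,y3,z0],z2),([z0,z0,z3,z0,z6,z0],z2)],[([z3,z0,z0,z0,z0,
    z0],z2),([z0,z3,z0,z0,z0,z0],z2),([z0,z0,z3,z0,z0,z0],z1),([z0,z0,z0,z0,z3,z0],z1)],[([z3,z0,z0,z0,z0,z0],z2),
    ([z0,z3,z0,z0,z0,z0],z2),([z0,z0,z3,z0,z3,z0],z2)],[([z6,z0,z0,z0,y3,z0],z8),([z0,z3,z0,z0,z0,z0],z2),([z0,z0,z3,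
    z0,z3,z0],z2)],[([z3,z0,z0,z0,z0,z0],z2),([z0,z3,z0,z0,z0,z3],z2),([z0,z0,z3,z0,z0,z0],z2)],[([z2,z0,z0,z0,y1,z0],
    z2),([z0,z3,z0,z0,z0,z0],z2),([z0,z0,z3,z0,z3,z0],z2)],[([z0,z3,z0,z0,z0,z0],z1),([z0,z0,z3,z0,z0,z0],z2),([z0,z0,
    z0,z0,z3,z0],z2)],[([z0,z3,z0,z0,z0,z0],z2),([z0,z0,z3,z0,z3,z0],z2)],[([z0,z3,z0,z0,z0,z0],z2)],[([z5,z0,z0,z0,
    z0,z0],z4),([z0,z5,z0,z0,z0,z0],z2),([z0,z0,z5,z0,z0,z0],z2),([z0,z0,z0,z0,z5,z0],z4)]],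
    [[([z5,z0,z0,z0,z0,z0],z4),([z0,z5,z0,z0,z0,z0],z1),([z0,z0,z5,z0,z0,z0],z3),([z0,z0,z0,z0,z5,z0],z4)],[([z5,z0,
    z0,z0,z0,z0],z4),([z0,z5,z0,z0,z0,z0],z2),([z0,z0,z5,z0,z0,z0],z4)],[([z4,z0,z0,z0,z0,z0],z3),([z0,z2,z0,z0,z0,
    z0],z1),([z0,z0,z2,z0,z0,z0],z1)],[([z7,z0,z0,z0,z0,z0],z5),([z0,z7,z0,z0,z0,z0],z2),([z0,z0,z7,z0,z0,z0],z6),
    ([z0,z0,z0,z0,z7,z0],z2)],[([z8,z0,z0,z0,z0,z1],z6),([z0,z4,z0,z0,z0,y1],z2),([z0,z0,z4,z0,z0,z3],z2)],[([z9,z0,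
    z0,z0,z0,z0],z7),([z0,z9,z0,z0,z0,z0],z2),([z0,z0,z3,z0,z0,z0],z2),([z0,z0,z0,z0,z3,z0],z2)],[([z5,z0,z0,z0,z0,
    z0],z4),([z0,z15,z0,z0,z0,z0],z2),([z0,z0,z3,z0,z0,z0],z2),([z0,z0,z0,z0,z5,z0],z4)],[([z4,z0,z0,z0,z0,z0],z3),
    ([z0,z3,z0,z0,z0,z0],z1),([z0,z0,z3,z0,z0,z0],z2),([z0,z0,z0,z0,z2,z0],z1)],[([z12,z0,z0,z0,y3,z0],z14),([z0,z2,
    z0,z0,z3,z0],z2),([z0,z0,z6,z0,y3,z0],z2)],[([z4,z0,z0,z0,y1,y1],z4),([z0,z2,z0,z0,z3,z3],z4)],[([z10,z0,z0,z0,z0,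
    z0],z9),([z0,z5,z0,z0,z0,z0],z2),([z0,z0,z5,z0,z0,z0],z4),([z0,z0,z0,z0,z5,z0],z1)],[([z15,z0,z0,z0,z0,z0],z14),
    ([z0,z5,z0,z0,z0,z0],z2),([z0,z0,z5,z0,z0,z0],z4),([z0,z0,z0,z0,z15,z0],z2)]],
    [[([z10,z0,z0,z0,z0,y5],z6),([z0,z5,z0,z0,z0,z0],z2),([z0,z0,z5,z0,z0,z0],z4)],[([z2,z0,z0,z0,z0,y1],z1),([z0,z2,
    z0,z0,z0,z0],z1),([z0,z0,z2,z0,z0,z0],z1)],[([z1,z0,z0,z0,z0,y1],z0),([z0,z1,z0,z0,z0,y4],y2),([z0,z0,z1,z0,z0,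
    z2],z2)],[([z3,z0,z0,z0,z0,z0],z2),([z0,z9,z0,z0,z0,z0],z2),([z0,z0,z3,z0,z0,z0],z2),([z0,z0,z0,z0,z3,z0],z2)],
    [([z3,z0,z0,z0,z0,z0],z2),([z0,z15,z0,z0,z0,z0],z2),([z0,z0,z3,z0,z0,z0],z2),([z0,z0,z0,z0,z5,z0],z4)],[([z3,z0,
    z0,z0,z0,z0],z2),([z0,z3,z0,z0,z0,z0],z1),([z0,z0,z3,z0,z0,z0],z2),([z0,z0,z0,z0,z2,z0],z1)],[([z3,z0,z0,z0,z0,
    z0],z2),([z0,z3,z0,z0,z0,y6],y2),([z0,z0,z3,z0,z0,z0],z2)],[([z2,z0,z0,z0,z0,y1],z2),([z0,z2,z0,z0,z3,z3],z4)],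
    [([z0,z2,z0,z0,z0,z0],z1),([z0,z0,z2,z0,z0,z0],z1)],[([z4,z0,z0,z0,z0,y1],z2),([z0,z2,z0,z0,z0,z1],z2),([z0,z0,z2,
    z0,z0,y3],y2)],[([z1,z0,z0,z0,z0,y1],z0),([z0,z2,z0,z0,z0,z1],z2),([z0,z0,z2,z0,z0,y3],y2)],[([z2,z0,z0,z0,z0,y1],
    z0),([z0,z2,z0,z0,z0,z1],z2),([z0,z0,z2,z0,z0,y3],y2)]],
    [[([z1,z0,z0,z0,z0,y1],z0),([z0,z1,z0,z0,z0,z2],z2),([z0,z0,z1,z0,z0,y4],y2)],[([z1,z0,z0,z0,z0,y1],z1),([z0,z1,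
    z0,z0,z0,z2],z2),([z0,z0,z1,z0,z0,y4],y2)],[([z2,z0,z0,z0,z0,y1],z2),([z0,z2,z0,z0,z0,z1],z2),([z0,z0,z2,z0,z0,
    y3],y2)],[([z2,z0,z0,z0,z0,y1],z2),([z0,z1,z0,z0,z0,z2],z2),([z0,z0,z1,z0,z0,y4],y2)],[([z4,z0,z0,z0,z0,y3],z2),
    ([z0,z2,z0,z0,z0,z1],z2),([z0,z0,z2,z0,z0,y3],y2)],[([z0,z2,z0,z0,z0,z1],z2),([z0,z0,z2,z0,z0,y3],y2)],[([z0,z2,
    z0,z0,y1,y1],z0)],[([z9,z0,z0,z0,z0,z0],z8),([z0,z9,z0,z0,z0,z0],z2),([z0,z0,z3,z0,z0,z0],z2),([z0,z0,z0,z0,z9,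
    z0],z2)],[([z1,z0,z0,z0,z0,y1],z0),([z0,z3,z0,z0,z0,y3],y2),([z0,z0,z3,z0,z0,z0],z2)],[([z1,z0,z0,z0,y1,y1],z0),
    ([z0,z1,z0,z0,y1,y1],z0)],[([z4,z0,z0,z0,z0,z0],z3),([z0,z2,z0,z0,z0,z0],z1),([z0,z0,z4,z0,z0,z0],z1),([z0,z0,z0,
    z0,z4,z0],z3)],[([z7,z0,z0,z0,z0,z0],z6),([z0,z7,z0,z0,z0,z0],z2),([z0,z0,z7,z0,z0,z0],z4),([z0,z0,z0,z0,z7,z0],
    z6)]],
    [[([z9,z0,z0,z0,z0,z0],z8),([z0,z9,z0,z0,z0,z0],z2),([z0,z0,z3,z0,z0,z0],z2),([z0,z0,z0,z0,z9,z0],z8)],[([z6,z0,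
    z0,z0,z0,z0],z5),([z0,z3,z0,z0,z0,z0],z1),([z0,z0,z2,z0,z0,z0],z1),([z0,z0,z0,z0,z6,z0],z5)],[([z3,z0,z0,z0,z0,
    z1],z4),([z0,z3,z0,z0,z0,y1],z2),([z0,z0,z3,z0,z0,z2],z2)],[([z1,z0,z0,z0,y1,y1],z0),([z0,z1,z0,z0,z2,z2],z2)],
    [([z0,z1,z0,z0,y1,y1],z0)],[([z3,z0,z0,z0,z0,z0],z1),([z0,z6,z0,z0,z0,z3],z2),([z0,z0,z3,z0,z0,z0],z2)],[([z1,z0,
    z0,z0,z0,y1],z1),([z0,z1,z0,z0,y1,y1],z0)],[([z1,z0,z0,z0,z0,y1],z0),([z0,z1,z1,z0,z0,z0],z1)],[([z2,z0,z0,z0,z0,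
    z0],z1),([z0,z2,z0,z0,z0,z0],z1),([z0,z0,z2,z0,z0,z0],z1)],[([z6,z0,z0,z0,y3,z0],z8),([z0,z6,z0,z0,y3,z0],z2),
    ([z0,z0,z2,z0,z3,z0],z2)],[([z2,z0,z0,z0,y1,y1],z2),([z0,z2,z0,z0,y1,y1],z0)],[([z1,z0,z0,z0,z0,y1],z1)]],
    [[([z0,z1,z1,z0,z0,z0],z1)],[([z2,z0,z0,z0,z0,z0],z1),([z0,z1,z1,z0,z0,z0],z1)],[([z6,z0,z0,z0,z0,y3],z8),([z0,z3,
    z0,z0,z0,z6],z2),([z0,z0,z3,z0,z0,y3],z2)],[([z2,z0,z0,z0,z0,z0],z1),([z0,z3,z0,z0,z0,z0],z2),([z0,z0,z3,z0,z0,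
    z0],z1)],[([z2,z0,z0,z0,z0,z0],z1),([z0,z3,z0,z0,z0,z0],z2),([z0,z0,z3,z0,z0,z0],z1),([z0,z0,z0,z0,z3,z0],z1)],
    [([z6,z0,z0,z0,y3,z0],z2),([z0,z3,z0,z0,z0,z0],z2),([z0,z0,z3,z0,z3,z0],z2)],[([z2,z0,z0,z0,y1,y1],z0),([z0,z3,z0,
    z0,z0,z0],z2)],[([z2,z0,z0,z0,z0,y1],z0),([z0,z3,z0,z0,z0,y3],y2),([z0,z0,z3,z0,z0,z0],z2)],[([z2,z0,z0,z0,y1,y1],
    z0),([z0,z1,z0,z0,y1,y1],z0)],[([z2,z0,z0,z0,y1,y1],z0)],[]]]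

/-- symmetries -/
noncomputable def hS6_125 : List (Bool × ℕ × List ℕ) :=
  [(false,k3,[k3,k4,k5,k0,k1,k2]),(false,k0,[k0,k1,k2,k3,k4,k5]),(true,k3,[k3,k2,k1,k0,k5,k4]),(true,k0,[k0,k5,k4,k3,
    k2,k1])]

/-- equations of the nodes for the classes `0 0 0 0 0 0`, active pairs `` -/
noncomputable def hD6_171 : List (List (List Eqn)) :=
  [[[([z1,z0,y1,z0,z0,z0],z0),([z0,z1,z2,z0,z0,z0],z2)],[([z1,z0,z0,y1,z0,z0],z0),([z0,z1,z0,z0,z1,z1],z2)],[([z1,z0,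
    z0,z0,y1,z0],z0),([z0,z1,z0,z0,z2,z0],z2)],[([z1,z0,z0,z0,z0,y1],z0),([z0,z1,z0,z0,z0,z2],z2)],[([z1,z0,z0,y2,z0,
    z1],z0),([z0,z1,z0,z1,z1,z0],z2)],[([z1,z0,z0,z0,y2,y2],y2),([z0,z1,z0,z0,z1,z1],z2)],[([z2,z0,z0,z0,z0,z1],z2),
    ([z0,z2,z0,z2,z0,y1],z2)],[([z1,z0,z0,y2,z0,y2],y2),([z0,z1,z0,z1,z0,z1],z2)],[([z2,z0,z0,z0,z0,z1],z2),([z0,z2,
    z2,z0,z0,y1],z2)],[([z3,z0,z0,z0,z0,z0],z2),([z0,z3,z0,z0,z0,z0],z2),([z0,z0,z3,z0,z0,z0],z2)],[([z1,z0,z0,z0,z0,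
    y1],z0),([z0,z1,z0,z0,z0,z2],z2),([z0,z0,z1,z0,z0,y4],y2)],[([z1,z0,z0,z0,y2,y2],y2),([z0,z1,z0,z0,z1,z1],z2),
    ([z0,z0,z1,z0,y2,y2],y2)]],
    [[([z2,z0,z0,z0,z0,z1],z2),([z0,z4,z0,z0,z0,y1],z2),([z0,z0,z2,z0,z2,y1],z2)],[([z2,z0,z0,z0,z0,z1],z2),([z0,z4,
    z0,z0,z0,y1],z2),([z0,z0,z4,z0,z4,z1],z6)],[([z1,z0,z0,z0,z0,y4],y2),([z0,z1,z0,z0,z0,z2],z2),([z0,z0,z1,z0,z0,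
    y1],z0)],[([z1,z0,z0,z0,y2,y2],y2),([z0,z1,z0,z0,z1,z1],z2),([z0,z0,z2,z0,y1,y1],z0)],[([z1,z0,z0,z0,y2,y2],y2),
    ([z0,z1,z0,z0,z4,z4],z6),([z0,z0,z1,z0,y2,y2],y2)],[([z1,z0,z0,z0,y2,z1],z0),([z0,z1,z0,z0,z5,z0],z4),([z0,z0,z1,
    z0,y4,z0],y2)],[([z1,z0,z0,z0,z0,y1],z0),([z0,z3,z0,z0,z0,z0],z2),([z0,z0,z3,z0,z0,z0],z2),([z0,z0,z0,z3,z0,z0],
    z2)],[([z1,z0,z0,z0,z0,y1],z0),([z0,z2,z0,z0,z0,z1],z2),([z0,z0,z2,z0,z0,z1],z2),([z0,z0,z0,z1,z0,y1],z0)],[([z2,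
    z0,z0,z0,z0,y5],y2),([z0,z1,z0,z0,z0,z2],z2),([z0,z0,z1,z0,z0,z2],z2),([z0,z0,z0,z1,z0,y1],z0)],[([z2,z0,z0,z0,z0,
    y5],y2),([z0,z1,z0,z0,z0,z2],z2),([z0,z0,z4,z0,z0,z5],z6),([z0,z0,z0,z4,z0,y1],z2)],[([z1,z0,z0,z0,z0,y10],y6),
    ([z0,z1,z0,z0,z0,z8],z6),([z0,z0,z1,z0,z0,y4],y2),([z0,z0,z0,z1,z0,z2],z2)],[([z1,z0,z0,z0,z0,y7],y4),([z0,z1,z0,
    z0,z0,z2],z2),([z0,z0,z1,z0,z0,z8],z6),([z0,z0,z0,z1,z0,y4],y2)]],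
    [[([z1,z0,z0,z0,z0,y4],y2),([z0,z1,z0,z0,z0,y1],z0),([z0,z0,z1,z0,z0,z2],z2),([z0,z0,z0,z1,z0,y4],y2)],[([z3,z0,
    z0,z0,z0,z0],z2),([z0,z3,z0,z0,z0,z0],z2),([z0,z0,z3,z0,z0,z0],z2),([z0,z0,z0,z3,z0,z0],z2),([z0,z0,z0,z0,z3,z0],
    z2)],[([z1,z0,z0,z0,z0,y4],y2),([z0,z4,z0,z0,z0,z11],z10),([z0,z0,z1,z0,z0,z2],z2),([z0,z0,z0,z4,z0,y1],z2)],
    [([z2,z0,z0,z0,z0,z1],z2),([z0,z4,z0,z0,z0,y1],z2),([z0,z0,z2,z0,z1,z0],z2)],[([z1,z0,z0,z0,y4,z0],y2),([z0,z1,z0,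
    z0,z2,z0],z2),([z0,z0,z1,z0,y1,z0],z0)],[([z2,z0,z0,z0,z0,y5],y2),([z0,z4,z0,z0,z0,z5],z6),([z0,z0,z1,z0,z0,z2],
    z2),([z0,z0,z0,z4,z0,y1],z2)],[([z1,z0,z0,z0,z0,y4],y2),([z0,z1,z0,z0,z0,z2],z2),([z0,z0,z1,z0,z0,y1],z0),([z0,z0,
    z0,z1,z0,z8],z6)],[([z1,z0,z0,z0,z0,y4],y2),([z0,z2,z0,z0,z0,z1],z2),([z0,z0,z1,z0,z0,y1],z0),([z0,z0,z0,z1,z0,
    z2],z2)],[([z8,z0,z0,z0,z0,z1],z6),([z0,z4,z0,z0,z0,y1],z2),([z0,z0,z2,z0,z0,z1],z2),([z0,z0,z0,z8,z0,y11],y2)],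
    [([z3,z0,z0,z0,z0,z0],z2),([z0,z3,z0,z0,z0,z0],z2),([z0,z0,z3,z0,z0,z0],z2),([z0,z0,z0,z3,z0,z0],z2)],[([z8,z0,z0,
    z0,z0,z1],z6),([z0,z4,z0,z0,z0,y1],z2),([z0,z0,z2,z0,z0,z1],z2),([z0,z0,z0,z4,z0,y1],z2)],[([z4,z0,z0,z0,z0,y13],
    y6),([z0,z1,z0,z0,z0,z2],z2),([z0,z0,z1,z0,z0,z2],z2),([z0,z0,z0,z4,z0,y1],z2)]],
    [[([z8,z0,z0,z0,z0,z1],z6),([z0,z4,z0,z0,z0,y1],z2),([z0,z0,z2,z0,z0,z1],z2),([z0,z0,z0,z8,z0,y5],z2)],[([z1,z0,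
    z0,z0,z0,y4],y2),([z0,z1,z0,z0,z0,y4],y2),([z0,z0,z1,z0,z0,z2],z2),([z0,z0,z0,z1,z0,y1],z0)],[([z11,z0,z0,z0,z0,
    z1],z8),([z0,z11,z0,z0,z0,y8],z2),([z0,z0,z11,z0,z0,z4],z10),([z0,z0,z0,z11,z0,y2],z6)],[([z8,z0,z0,z0,z0,z1],z6),
    ([z0,z4,z0,z0,z0,y1],z2),([z0,z0,z2,z0,z0,z1],z2),([z0,z0,z0,z1,z0,y1],z0)],[([z12,z0,z0,z0,y15,z0],y2),([z0,z1,
    z0,z0,z2,z0],z2),([z0,z0,z4,z0,y1,z0],z2),([z0,z0,z0,z2,z1,z0],z2)],[([z4,z0,z0,z0,y5,z4],z2),([z0,z1,z0,z0,z2,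
    z0],z2),([z0,z0,z4,z0,y1,z0],z2)],[([z2,z0,z0,z0,z0,z1],z2),([z0,z4,z0,z0,z0,y1],z2)],[([z3,z0,z0,z0,z0,z0],z2),
    ([z0,z3,z0,z0,z0,z0],z2),([z0,z0,z1,z0,z1,z1],z2)],[([z1,z0,z0,z0,y2,y2],y2),([z0,z2,z0,z0,z5,z5],z8),([z0,z0,z1,
    z0,z1,z1],z2)],[([z1,z0,z0,z0,y4,z0],y2),([z0,z1,z0,z0,z4,z1],z4),([z0,z0,z1,z0,z2,z0],z2)],[([z1,z0,z0,z0,z0,y1],
    z0),([z0,z2,z0,z0,z0,z1],z2),([z0,z0,z2,z2,z0,y1],z2)],[([z1,z0,z0,z0,y1,z0],z0),([z0,z1,z0,z0,y4,z0],y2),([z0,z0,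
    z1,z0,z4,z1],z4)]],
    [[([z2,z0,z0,z0,z0,z1],z2),([z0,z2,z0,z0,z2,y1],z2),([z0,z0,z1,z0,z0,y1],z0)],[([z5,z0,z0,z0,z0,z1],z4),([z0,z5,
    z0,z0,z0,y2],z2),([z0,z0,z5,z0,z5,z2],z8)],[([z2,z0,z0,z0,z0,z1],z2),([z0,z1,z0,z0,z1,z1],z2),([z0,z0,z2,z0,z0,
    y5],y2)],[([z1,z0,z0,z0,z0,y4],y2),([z0,z1,z1,z0,z0,z4],z4),([z0,z0,z0,z1,z0,y1],z0)],[([z1,z0,z0,z0,z0,y4],y2),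
    ([z0,z1,z0,z0,z0,z2],z2),([z0,z0,z1,z0,z0,z8],z6),([z0,z0,z0,z1,z0,y13],y8)],[([z1,z0,z0,z0,z0,y4],y2),([z0,z1,z0,
    z0,z0,z2],z2),([z0,z0,z1,z0,z0,y13],y8),([z0,z0,z0,z1,z0,z8],z6)],[([z1,z0,z0,z0,z0,y4],y2),([z0,z1,z0,z0,z0,z2],
    z2),([z0,z0,z1,z0,z0,z5],z4),([z0,z0,z0,z1,z0,y10],y6)],[([z1,z0,z0,z0,z0,y4],y2),([z0,z2,z0,z0,z0,z1],z2),([z0,
    z0,z1,z0,z0,z2],z2),([z0,z0,z0,z1,z0,y1],z0)],[([z1,z0,z0,z0,z0,y4],y2),([z0,z1,z0,z0,z0,z2],z2),([z0,z0,z1,z0,z0,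
    y1],z0),([z0,z0,z0,z1,z0,y4],y2)],[([z1,z0,z0,z0,z0,y4],y2),([z0,z1,z0,z0,z0,z2],z2),([z0,z0,z1,z0,z0,y10],y6),
    ([z0,z0,z0,z1,z0,z5],z4)],[([z1,z0,z0,z0,z0,y4],y2),([z0,z1,z0,z0,z0,z2],z2),([z0,z0,z1,z0,z0,y4],y2),([z0,z0,z0,
    z1,z0,y1],z0)],[([z1,z0,z0,z0,z0,y4],y2),([z0,z1,z0,z0,z0,z2],z2),([z0,z0,z2,z0,z0,z1],z2),([z0,z0,z0,z2,z0,y11],
    y6)]],
    [[([z1,z0,z0,z0,z0,y4],y2),([z0,z1,z0,z0,z0,z2],z2),([z0,z0,z1,z0,z0,z2],z2),([z0,z0,z0,z1,z0,y7],y4)],[([z1,z0,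
    z0,z0,z0,y4],y2),([z0,z1,z0,z0,z0,z2],z2),([z0,z0,z3,z0,z0,y15],y8),([z0,z0,z0,z3,z0,z0],z2)],[([z1,z0,z0,z0,z0,
    y16],y10),([z0,z1,z0,z0,z0,z2],z2),([z0,z0,z1,z0,z0,z8],z6),([z0,z0,z0,z1,z0,y4],y2)],[([z1,z0,z0,z0,z0,y4],y2),
    ([z0,z1,z0,z0,z0,z2],z2),([z0,z0,z1,z1,z0,y5],y2)],[([z1,z0,z0,z0,z0,y4],y2),([z0,z1,z0,z0,z0,z2],z2),([z0,z0,z1,
    z0,z0,z2],z2),([z0,z0,z0,z1,z0,y1],z0)],[([z1,z0,z0,z0,z0,y4],y2),([z0,z1,z0,z0,z0,z5],z4),([z0,z0,z1,z0,z0,y4],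
    y2),([z0,z0,z0,z1,z0,z2],z2)],[([z1,z0,z0,z0,z0,y10],y6),([z0,z1,z0,z0,z0,z2],z2),([z0,z0,z1,z0,z0,y4],y2),([z0,
    z0,z0,z1,z0,z5],z4)],[([z1,z0,z0,z0,z0,y10],y6),([z0,z1,z0,z0,z0,z8],z6),([z0,z0,z1,z0,z0,y4],y2),([z0,z0,z0,z1,
    z0,z5],z4)],[([z1,z0,z0,z0,y1,z0],z0),([z0,z3,z0,z0,z0,z0],z2),([z0,z0,z3,z0,z0,z0],z2),([z0,z0,z0,z1,z2,z0],z2)],
    [([z1,z0,z0,z0,z0,y4],y2),([z0,z3,z0,z0,z0,z3],z4),([z0,z0,z3,z0,z0,y6],y2),([z0,z0,z0,z1,z0,z2],z2)],[([z1,z0,z0,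
    z0,z0,y16],y10),([z0,z1,z0,z0,z0,z11],z8),([z0,z0,z1,z0,z0,y4],y2),([z0,z0,z0,z1,z0,z8],z6)],[([z4,z0,z0,z0,y4,
    y3],y2),([z0,z2,z0,z0,z0,z1],z2),([z0,z0,z4,z0,z0,y1],z2)]],
    [[([z2,z0,z0,z0,z0,z1],z2),([z0,z1,z0,z0,z0,y1],z0),([z0,z0,z2,z0,z2,y1],z2)],[([z1,z0,z0,y4,z0,z0],y2),([z0,z1,
    z0,z3,z1,z1],z4)],[([z11,z0,z0,z0,z0,z1],z8),([z0,z11,z0,z0,z0,y2],z6),([z0,z0,z11,z0,z0,z16],z18),([z0,z0,z0,z11,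
    z0,y8],z2)],[([z1,z0,z0,z0,z0,y4],y2),([z0,z1,z0,z0,z0,z8],z6),([z0,z0,z1,z0,z0,y4],y2),([z0,z0,z0,z1,z0,z2],z2)],
    [([z1,z0,z0,z0,z0,y4],y2),([z0,z1,z0,z0,z0,y4],y2),([z0,z0,z1,z0,z0,z8],z6),([z0,z0,z0,z1,z0,y1],z0)],[([z3,z0,z0,
    z0,z0,z0],z2),([z0,z3,z0,z0,z0,z0],z2),([z0,z0,z3,z0,z0,z3],z4),([z0,z0,z0,z3,z0,z0],z2)],[([z7,z0,z0,z0,z0,z2],
    z6),([z0,z7,z0,z0,z0,y1],z4),([z0,z0,z7,z0,z0,z2],z6),([z0,z0,z0,z7,z0,y4],z2)],[([z5,z0,z0,z0,z0,z1],z4),([z0,z5,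
    z0,z0,z0,y2],z2),([z0,z0,z1,z0,z0,z2],z2),([z0,z0,z0,z5,z0,y8],y2)],[([z1,z0,z0,z0,z0,y13],y8),([z0,z1,z0,z0,z0,
    y4],y2),([z0,z0,z1,z0,z0,z8],z6),([z0,z0,z0,z1,z0,z8],z6)],[([z1,z0,z0,z0,z0,y10],y6),([z0,z1,z0,z0,z0,y4],y2),
    ([z0,z0,z1,z0,z0,z8],z6),([z0,z0,z0,z1,z0,z5],z4)],[([z1,z0,z0,z0,z0,y7],y4),([z0,z1,z0,z0,z0,y4],y2),([z0,z0,z1,
    z0,z0,z8],z6),([z0,z0,z0,z1,z0,z2],z2)],[([z1,z0,z0,z0,z0,y16],y10),([z0,z1,z0,z0,z0,z8],z6),([z0,z0,z1,z0,z0,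
    z11],z8),([z0,z0,z0,z1,z0,z2],z2)]],
    [[([z1,z0,z0,z0,y4,z0],y2),([z0,z1,z0,z0,z2,z0],z2),([z0,z0,z6,z0,z15,z0],z14),([z0,z0,z0,z2,z1,z0],z2)],[([z1,z0,
    z0,z0,y4,z0],y2),([z0,z1,z0,z0,z2,z0],z2),([z0,z0,z2,z0,z5,z2],z6)],[([z1,z0,z0,z0,y4,z0],y2),([z0,z1,z0,z0,z2,
    z0],z2),([z0,z0,z1,z0,z1,z1],z2)],[([z1,z0,z0,z0,y2,z1],z0),([z0,z1,z0,z0,z2,z0],z2),([z0,z0,z2,z0,z1,z0],z2)],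
    [([z1,z0,z0,z0,y4,z0],y2),([z0,z1,z0,z0,z5,z0],z4),([z0,z0,z1,z0,y2,z1],z0)],[([z1,z0,z0,z0,y4,z0],y2),([z0,z1,z0,
    z0,z4,z1],z4),([z0,z0,z1,z0,y1,z0],z0)],[([z1,z0,z0,z0,y4,z0],y2),([z0,z1,z0,z0,y2,z1],z0),([z0,z0,z1,z0,z5,z0],
    z4)],[([z1,z0,z0,z0,y4,z0],y2),([z0,z1,z0,z0,z1,z1],z2),([z0,z0,z1,z0,z2,z0],z2)],[([z1,z0,z0,z0,y4,z0],y2),([z0,
    z1,z0,z0,y1,z0],z0),([z0,z0,z1,z0,z4,z1],z4)],[([z1,z0,z0,z0,y2,y2],y2),([z0,z2,z0,z0,z5,z5],z8),([z0,z0,z2,z0,y1,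
    y1],z0)],[([z1,z0,z0,z0,z0,y4],y2),([z0,z1,z0,z0,z0,z2],z2),([z0,z0,z1,z0,z0,y16],y10),([z0,z0,z0,z1,z0,z8],z6)],
    [([z1,z0,z0,z0,z0,y7],y4),([z0,z1,z0,z0,z0,z8],z6),([z0,z0,z1,z0,z0,z2],z2),([z0,z0,z0,z1,z0,z2],z2)]],
    [[([z1,z0,z0,z0,z0,y10],y6),([z0,z1,z0,z0,z0,z8],z6),([z0,z0,z1,z0,z0,z5],z4),([z0,z0,z0,z1,z0,z2],z2)],[([z3,z0,
    z0,z0,z0,z0],z2),([z0,z3,z0,z0,z0,z0],z2),([z0,z0,z3,z0,z0,z0],z2),([z0,z0,z0,z3,z0,z3],z4)],[([z1,z0,z0,z0,z0,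
    y4],y2),([z0,z1,z0,z0,z0,z2],z2),([z0,z0,z1,z0,z0,y7],y4),([z0,z0,z0,z1,z0,z8],z6)],[([z1,z0,z0,z0,z0,y4],y2),
    ([z0,z1,z0,z0,z0,z2],z2),([z0,z0,z1,z0,z0,y4],y2),([z0,z0,z0,z1,z0,z8],z6)],[([z1,z0,z0,z0,z0,y4],y2),([z0,z1,z0,
    z0,z0,z2],z2),([z0,z0,z1,z0,z0,y10],y6),([z0,z0,z0,z1,z0,z8],z6)],[([z1,z0,z0,z0,z0,y4],y2),([z0,z1,z0,z0,z0,z2],
    z2),([z0,z0,z3,z0,z0,y15],y8),([z0,z0,z0,z1,z0,z8],z6)],[([z1,z0,z0,z0,z0,y16],y10),([z0,z1,z0,z0,z0,z11],z8),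
    ([z0,z0,z1,z0,z0,z2],z2),([z0,z0,z0,z1,z0,z8],z6)],[([z1,z0,z0,z0,y4,z0],y2),([z0,z6,z0,z0,z15,z0],z14),([z0,z0,
    z2,z0,z1,z0],z2),([z0,z0,z0,z1,z2,z0],z2)],[([z1,z0,z0,z0,y4,z0],y2),([z0,z2,z0,z0,z5,z2],z6),([z0,z0,z2,z0,z1,
    z0],z2)],[([z1,z0,z0,z0,y4,z0],y2),([z0,z1,z1,z0,z3,z1],z4)],[([z1,z0,z0,z0,z0,y4],y2),([z0,z1,z0,z0,z0,z5],z4),
    ([z0,z0,z1,z1,z0,y2],z0)],[([z1,z0,z0,z0,y4,z0],y2),([z0,z1,z0,z0,y1,z0],z0),([z0,z0,z1,z0,z2,z0],z2)]],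
    [[([z1,z0,z0,z0,y2,y2],y2),([z0,z1,z0,z0,z1,z1],z2),([z0,z0,z1,z0,z4,z4],z6)],[([z1,z0,z0,z0,y1,z0],z0),([z0,z2,
    z0,z0,y1,z2],z2),([z0,z0,z1,z0,z2,z0],z2)],[([z1,z0,z0,z0,y2,y2],y2),([z0,z1,z0,z0,y2,y2],y2),([z0,z0,z1,z0,z1,
    z1],z2)],[([z1,z0,z0,z0,z0,y4],y2),([z0,z1,z0,z0,z0,z8],z6),([z0,z0,z2,z0,z0,y11],y6),([z0,z0,z0,z1,z0,z2],z2)],
    [([z1,z0,z0,z0,z0,y4],y2),([z0,z1,z0,z0,z0,z5],z4),([z0,z0,z1,z0,z0,y10],y6),([z0,z0,z0,z1,z0,z8],z6)],[([z1,z0,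
    z0,z0,z0,y4],y2),([z0,z1,z0,z0,z0,y1],z0),([z0,z0,z1,z0,z0,y4],y2),([z0,z0,z0,z1,z0,z8],z6)],[([z1,z0,z0,z0,z0,
    y4],y2),([z0,z1,z0,z0,z0,y16],y10),([z0,z0,z1,z0,z0,z11],z8),([z0,z0,z0,z1,z0,z8],z6)],[([z1,z0,z0,z0,z0,y4],y2),
    ([z0,z1,z0,z0,z0,y10],y6),([z0,z0,z1,z0,z0,z5],z4),([z0,z0,z0,z1,z0,z8],z6)],[([z1,z0,z0,z0,z0,y4],y2),([z0,z1,z0,
    z0,z0,y7],y4),([z0,z0,z1,z0,z0,z2],z2),([z0,z0,z0,z1,z0,z8],z6)],[([z1,z0,z0,z0,z0,y4],y2),([z0,z1,z0,z0,z0,y4],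
    y2),([z0,z0,z1,z0,z0,y1],z0),([z0,z0,z0,z1,z0,z2],z2)],[([z1,z0,z0,z0,z0,y4],y2),([z0,z2,z0,z0,z0,z1],z2),([z0,z0,
    z2,z0,z0,y11],y6),([z0,z0,z0,z1,z0,z8],z6)],[([z12,z0,z0,z0,y15,z0],y2),([z0,z1,z0,z0,z2,z0],z2),([z0,z0,z2,z0,z1,
    z0],z2),([z0,z0,z0,z4,y1,z0],z2)]],
    [[([z4,z0,z0,z0,y5,z4],z2),([z0,z1,z0,z0,z2,z0],z2),([z0,z0,z2,z0,z1,z0],z2)],[([z1,z0,z0,z0,z0,y4],y2),([z0,z1,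
    z0,z0,z0,z11],z8),([z0,z0,z1,z0,z0,z8],z6),([z0,z0,z0,z1,z0,y16],y10)],[([z1,z0,z0,z0,z0,y4],y2),([z0,z1,z0,z0,z0,
    y10],y6),([z0,z0,z1,z0,z0,z8],z6),([z0,z0,z0,z1,z0,z5],z4)],[([z1,z0,z0,z0,z0,y4],y2),([z0,z1,z0,z0,z0,z2],z2),
    ([z0,z0,z1,z0,z0,z8],z6),([z0,z0,z0,z1,z0,y7],y4)],[([z1,z0,z0,z0,z0,y4],y2),([z0,z1,z0,z0,z0,z5],z4),([z0,z0,z1,
    z0,z0,z8],z6),([z0,z0,z0,z1,z0,y10],y6)],[([z1,z0,z0,z0,z0,y4],y2),([z0,z3,z0,z0,z0,z0],z2),([z0,z0,z1,z0,z0,z8],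
    z6),([z0,z0,z0,z3,z0,y15],y8)],[([z1,z0,z0,z0,z0,y4],y2),([z0,z1,z0,z0,z0,y7],y4),([z0,z0,z1,z0,z0,z8],z6),([z0,
    z0,z0,z1,z0,z2],z2)],[([z1,z0,z0,z0,z0,y16],y10),([z0,z1,z0,z0,z0,z11],z8),([z0,z0,z1,z0,z0,z8],z6),([z0,z0,z0,z1,
    z0,z2],z2)],[([z1,z0,z0,z0,y4,z0],y2),([z0,z6,z0,z0,z15,z0],z14),([z0,z0,z1,z0,z2,z0],z2),([z0,z0,z0,z2,z1,z0],
    z2)],[([z1,z0,z0,z0,y4,z0],y2),([z0,z2,z0,z0,z5,z2],z6),([z0,z0,z1,z0,z2,z0],z2)],[([z1,z0,z0,z0,y2,y2],y2),([z0,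
    z2,z0,z0,y1,y1],z0),([z0,z0,z1,z0,z1,z1],z2)],[([z2,z0,z0,z0,y5,z0],y2),([z0,z1,z0,z0,z1,z1],z2),([z0,z0,z1,z0,z2,
    z0],z2)]],
    [[([z1,z0,z0,z0,y2,z1],z0),([z0,z2,z0,z0,z1,z0],z2),([z0,z0,z1,z0,z2,z0],z2)],[([z2,z0,z0,y3,z2,z2],z2),([z0,z1,
    z0,z2,z0,z0],z2)],[([z1,z0,z0,y2,y2,z0],y2),([z0,z1,z0,z1,z1,z0],z2)],[([z1,z0,y1,z0,z0,z0],z0),([z0,z1,z2,z0,z0,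
    z0],z2),([z0,z0,z0,z2,z0,z1],z2)],[([z1,z0,z0,y1,z0,z0],z0),([z0,z1,z0,z0,z0,y1],z0),([z0,z0,z1,z2,z0,z0],z2)],
    [([z1,z0,z0,y2,z0,z1],z0),([z0,z1,z0,z1,z0,y2],z0),([z0,z0,z1,z2,z0,z0],z2)],[([z1,z0,z0,y2,z0,y2],y2),([z0,z1,z0,
    z1,z0,z1],z2),([z0,z0,z1,z2,z0,z0],z2)],[([z1,z0,z0,z0,z0,y10],y6),([z0,z1,z0,z0,z0,z5],z4),([z0,z0,z1,z0,z0,y4],
    y2),([z0,z0,z0,z1,z0,z8],z6)],[([z1,z0,z0,z0,z0,y16],y10),([z0,z1,z0,z0,z0,z8],z6),([z0,z0,z1,z0,z0,y4],y2),([z0,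
    z0,z0,z1,z0,z11],z8)],[([z4,z0,z0,z0,z0,y7],y2),([z0,z1,z0,z0,z0,z2],z2),([z0,z0,z4,z0,z0,y1],z2),([z0,z0,z0,z2,
    z0,z1],z2)],[([z1,z0,z0,z0,z0,y4],y2),([z0,z1,z0,z0,z0,z2],z2),([z0,z0,z1,z0,z0,y4],y2),([z0,z0,z0,z1,z0,z5],z4)],
    [([z9,z0,z0,z0,z0,y12],y2),([z0,z3,z0,z0,z0,z0],z2),([z0,z0,z9,z0,z0,z6],z10),([z0,z0,z0,z9,z0,y3],z4)]],
    [[([z3,z0,z0,z0,z0,y6],y2),([z0,z2,z0,z0,z0,z1],z2),([z0,z0,z3,z0,z0,z3],z4),([z0,z0,z0,z6,z0,y3],z2)],[([z4,z0,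
    z0,z0,z0,y7],y2),([z0,z2,z0,z0,z0,z7],z6),([z0,z0,z4,z0,z0,y1],z2),([z0,z0,z0,z2,z0,z1],z2)],[([z1,z0,z0,y4,z0,
    z0],y2),([z0,z1,z0,z3,z0,y1],z2),([z0,z0,z1,z2,z0,z0],z2)],[([z1,z0,z0,z0,y2,z1],z0),([z0,z1,z0,z0,z2,z0],z2),
    ([z0,z0,z1,z0,y1,z0],z0)],[([z1,z0,z0,y2,z0,z4],z2),([z0,z1,z0,z1,z0,y2],z0),([z0,z0,z1,z2,z0,y3],z0)],[([z1,z0,
    z0,y2,z0,z1],z0),([z0,z2,z0,z2,z0,y1],z2),([z0,z0,z1,z2,z0,z0],z2)],[([z1,z0,z0,y1,z0,z0],z0),([z0,z3,z0,z0,z0,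
    z0],z2),([z0,z0,z1,z2,z0,z0],z2),([z0,z0,z0,z0,z3,z0],z2)],[([z1,z0,z0,z0,z0,y1],z0),([z0,z2,z0,z0,z0,z1],z2),
    ([z0,z0,z4,z0,z0,y1],z2),([z0,z0,z0,z4,z0,y1],z2)],[([z1,z0,z0,z0,z0,y16],y10),([z0,z1,z0,z0,z0,z8],z6),([z0,z0,
    z1,z0,z0,y4],y2),([z0,z0,z0,z1,z0,z2],z2)],[([z1,z0,z0,z0,z0,y4],y2),([z0,z1,z0,z0,z0,z2],z2),([z0,z0,z1,z0,z0,
    y4],y2),([z0,z0,z0,z1,z0,z2],z2)],[([z4,z0,z0,z0,z0,y7],y2),([z0,z2,z0,z0,z0,z1],z2),([z0,z0,z2,z0,z0,z1],z2),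
    ([z0,z0,z0,z4,z0,y1],z2)],[([z1,z0,z0,z0,z0,y4],y2),([z0,z1,z0,z0,z0,z8],z6),([z0,z0,z1,z0,z0,z5],z4),([z0,z0,z0,
    z1,z0,y10],y6)]],
    [[([z1,z0,z0,z0,z0,y10],y6),([z0,z1,z0,z0,z0,z5],z4),([z0,z0,z1,z0,z0,y4],y2),([z0,z0,z0,z1,z0,z2],z2)],[([z1,z0,
    z0,z0,z0,y4],y2),([z0,z1,z0,z0,z0,z2],z2),([z0,z0,z1,z0,z0,y4],y2),([z0,z0,z0,z1,z0,y7],y4)],[([z3,z0,z0,z0,z0,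
    y6],y2),([z0,z3,z0,z0,z0,z3],z4),([z0,z0,z2,z0,z0,z1],z2),([z0,z0,z0,z6,z0,y3],z2)],[([z1,z0,z0,z0,z0,y16],y10),
    ([z0,z1,z0,z0,z0,z8],z6),([z0,z0,z1,z0,z0,z11],z8),([z0,z0,z0,z1,z0,y4],y2)],[([z1,z0,z0,y4,z0,z0],y2),([z0,z1,z0,
    z2,z0,z0],z2),([z0,z0,z3,z9,z0,z0],z8),([z0,z0,z0,z0,z3,z0],z2)],[([z1,z0,z0,y4,z0,z0],y2),([z0,z1,z0,z2,z0,z0],
    z2),([z0,z0,z1,z3,z0,y1],z2)],[([z2,z0,y2,y2,z0,y1],y2),([z0,z1,z2,z2,z0,z1],z4)],[([z1,z0,y1,y1,y1,y1],y2)],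
    [([z1,z0,z0,z0,z1,z1],z2)],[([z1,z0,z0,z1,z0,z1],z2)],[([z3,z0,z0,z0,z0,z0],z2),([z0,z3,z0,z0,z0,z0],z2),([z0,z0,
    z3,z0,z0,z3],z4)],[([z3,z0,z0,z0,z0,z0],z2),([z0,z3,z0,z0,z0,z0],z2),([z0,z0,z3,z3,z0,z0],z4)]],
    [[([z3,z0,z0,z0,z0,z0],z2),([z0,z3,z0,z0,z0,z0],z2),([z0,z0,z3,z0,z3,z0],z4)],[([z3,z0,z0,z0,z0,z0],z2),([z0,z3,
    z0,z0,z0,z0],z2)],[([z3,z0,z0,z0,z0,z0],z2),([z0,z3,z3,z0,z0,z0],z4)],[([z3,z0,z0,z0,z0,z0],z2),([z0,z3,z0,z3,z0,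
    z0],z4)],[([z3,z0,z0,z0,z0,z0],z2),([z0,z3,z0,z0,z3,z0],z4)],[([z3,z0,z0,z0,z0,z0],z2),([z0,z3,z0,z0,z0,z3],z4)],
    [([z1,z0,y1,z0,z0,z0],z0),([z0,z1,z2,z0,z0,z0],z2),([z0,z0,z0,z3,z0,z0],z2)],[([z1,z0,z0,y1,z0,z0],z0),([z0,z3,z0,
    z0,z0,z3],z4),([z0,z0,z1,z2,z0,z0],z2)],[([z1,z0,z0,z0,y1,z0],z0),([z0,z1,z0,z0,z2,z0],z2),([z0,z0,z3,z3,z0,z0],
    z4)],[([z1,z0,z0,z0,y2,y2],y2),([z0,z1,z0,z0,z1,z1],z2),([z0,z0,z3,z0,z0,z0],z2)],[([z1,z0,z0,y2,z0,z1],z0),([z0,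
    z3,z0,z3,z0,z0],z4),([z0,z0,z1,z2,z0,z0],z2)],[([z3,z0,z0,z0,z0,y15],y8),([z0,z3,z0,z0,z0,z0],z2),([z0,z0,z1,z0,
    z0,z2],z2),([z0,z0,z0,z1,z0,y4],y2)]],
    [[([z3,z0,z0,z0,y6,z0],y2),([z0,z3,z0,z0,z12,z0],z10),([z0,z0,z3,z0,y6,z0],y2),([z0,z0,z0,z3,z3,z0],z4)],[([z1,z0,
    z0,z0,z0,y1],z0),([z0,z3,z0,z0,z0,z0],z2),([z0,z0,z1,z0,z0,z2],z2),([z0,z0,z0,z1,z0,y4],y2)],[([z3,z0,z0,z0,z0,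
    y6],y2),([z0,z3,z0,z0,z0,z0],z2),([z0,z0,z1,z0,z0,z2],z2),([z0,z0,z0,z1,z0,y4],y2)],[([z6,z0,z0,z0,y21,z0],y10),
    ([z0,z2,z0,z0,z1,z0],z2),([z0,z0,z1,z0,z2,z0],z2),([z0,z0,z0,z1,z2,z0],z2)],[([z2,z0,z0,z0,y5,z0],y2),([z0,z2,z0,
    z0,z1,z0],z2),([z0,z0,z3,z0,z3,z0],z4),([z0,z0,z0,z1,z2,z0],z2)],[([z3,z0,z0,z0,y6,z0],y2),([z0,z2,z0,z0,z1,z0],
    z2),([z0,z0,z2,z0,z1,z0],z2),([z0,z0,z0,z1,z2,z0],z2)],[([z1,z0,z0,z0,y4,z0],y2),([z0,z1,z0,z0,z2,z0],z2),([z0,z0,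
    z3,z0,z0,z0],z2),([z0,z0,z0,z3,z9,z0],z8)],[([z1,z0,z0,z0,y1,z0],z0),([z0,z2,z0,z0,z1,z0],z2),([z0,z0,z6,z0,y3,
    z0],z2),([z0,z0,z0,z1,z2,z0],z2)],[([z3,z0,z0,z0,y9,z0],y4),([z0,z2,z0,z0,z1,z0],z2),([z0,z0,z6,z0,z9,z0],z10),
    ([z0,z0,z0,z1,z2,z0],z2)],[([z12,z0,z0,z0,y15,z0],y2),([z0,z2,z0,z0,z1,z0],z2),([z0,z0,z4,z0,y1,z0],z2),([z0,z0,
    z0,z1,z2,z0],z2)],[([z1,z0,z0,z0,y4,z0],y2),([z0,z1,z0,z0,z2,z0],z2),([z0,z0,z3,z0,z0,z0],z2)],[([z3,z0,z0,z0,y6,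
    z0],y2),([z0,z3,z0,z0,z3,z0],z4),([z0,z0,z3,z0,z0,z0],z2)]],
    [[([z3,z0,z0,y6,z0,z0],y2),([z0,z1,z0,z1,z0,z1],z2),([z0,z0,z1,z2,z0,z0],z2)],[([z3,z0,z0,z0,z0,z0],z2),([z0,z1,
    z0,z0,z1,z1],z2),([z0,z0,z1,z0,y2,y2],y2)],[([z3,z0,z0,z0,z0,z0],z2),([z0,z3,z0,z0,z0,z3],z4),([z0,z0,z3,z0,z0,
    y6],y2)],[([z12,z0,z0,z0,z0,y15],y2),([z0,z2,z0,z0,z0,z1],z2),([z0,z0,z4,z0,z0,y1],z2),([z0,z0,z0,z3,z0,z0],z2)],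
    [([z1,z0,z0,z0,z0,y1],z0),([z0,z2,z0,z0,z0,z1],z2),([z0,z0,z3,z0,z0,z0],z2),([z0,z0,z0,z6,z0,y3],z2)],[([z1,z0,z0,
    z0,y1,z0],z0),([z0,z1,z0,z0,y4,z0],y2),([z0,z0,z3,z0,z12,z0],z10),([z0,z0,z0,z1,z2,z0],z2)],[([z3,z0,z0,z0,z0,y6],
    y2),([z0,z3,z0,z0,z0,z3],z4),([z0,z0,z3,z0,z0,z0],z2),([z0,z0,z0,z3,z0,y6],y2)],[([z3,z0,z0,z0,z0,y6],y2),([z0,z6,
    z0,z0,z0,z15],z14),([z0,z0,z3,z0,z0,z0],z2),([z0,z0,z0,z6,z0,y3],z2)],[([z1,z0,z0,z0,z0,y4],y2),([z0,z3,z0,z0,z0,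
    z12],z10),([z0,z0,z3,z0,z0,z0],z2),([z0,z0,z0,z1,z0,y1],z0)],[([z3,z0,z0,z0,z0,z0],z2),([z0,z9,z0,z0,z0,z3],z8),
    ([z0,z0,z9,z0,z0,y6],z2),([z0,z0,z0,z3,z0,z0],z2)],[([z9,z0,z0,z0,z0,y12],y2),([z0,z1,z0,z0,z0,z2],z2),([z0,z0,z3,
    z0,z0,z0],z2),([z0,z0,z0,z9,z0,y3],z4)],[([z3,z0,z0,z0,y9,z0],y4),([z0,z1,z0,z0,y4,z0],y2),([z0,z0,z3,z0,z18,z0],
    z14),([z0,z0,z0,z1,z2,z0],z2)]],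
    [[([z3,z0,z0,z0,y6,z0],y2),([z0,z1,z0,z0,y4,z0],y2),([z0,z0,z1,z0,z5,z0],z4),([z0,z0,z0,z1,z2,z0],z2)],[([z12,z0,
    z0,z0,z0,y15],y2),([z0,z1,z0,z0,z0,z2],z2),([z0,z0,z4,z0,z0,y1],z2),([z0,z0,z0,z3,z0,z0],z2)],[([z1,z0,z0,y4,z0,
    z0],y2),([z0,z3,z0,z9,z0,z0],z8),([z0,z0,z1,z2,z0,z0],z2),([z0,z0,z0,z0,z3,z0],z2)],[([z1,z0,z0,y4,z0,z0],y2),
    ([z0,z3,z0,z9,z0,z3],z10),([z0,z0,z1,z2,z0,z0],z2)],[([z9,z0,z0,z0,y12,z0],y2),([z0,z9,z0,z0,z6,z0],z10),([z0,z0,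
    z9,z0,y3,z0],z4),([z0,z0,z0,z1,z2,z0],z2)],[([z1,z0,y1,z0,z0,z0],z0),([z0,z1,z2,z0,z0,z0],z2),([z0,z0,z0,z3,z0,
    z0],z2),([z0,z0,z0,z0,z3,z0],z2)],[([z3,z0,z0,z0,y9,z0],y4),([z0,z3,z0,z0,z12,z0],z10),([z0,z0,z3,z0,y6,z0],y2),
    ([z0,z0,z0,z1,z2,z0],z2)],[([z3,z0,z0,z0,y6,z0],y2),([z0,z1,z0,z0,z2,z0],z2),([z0,z0,z1,z0,y1,z0],z0),([z0,z0,z0,
    z1,z2,z0],z2)],[([z3,z0,z0,y6,z0,z0],y2),([z0,z3,z0,z3,z0,z0],z4),([z0,z0,z1,z2,z0,z0],z2),([z0,z0,z0,z0,z3,z0],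
    z2)],[([z3,z0,z0,z0,y6,z0],y2),([z0,z3,z0,z0,z12,z0],z10),([z0,z0,z3,z0,z3,z0],z4),([z0,z0,z0,z3,y6,z0],y2)],
    [([z6,z0,z0,z0,z0,y9],y2),([z0,z3,z0,z0,z0,z9],z8),([z0,z0,z1,z0,z0,y1],z0),([z0,z0,z0,z3,z0,z0],z2)],[([z6,z0,z0,
    z0,y9,z0],y2),([z0,z3,z0,z0,z3,z0],z4),([z0,z0,z6,z0,y3,z0],z2),([z0,z0,z0,z1,z2,z0],z2)]],
    [[([z3,z0,y3,z0,y3,z0],y2),([z0,z1,z2,z0,z0,z0],z2),([z0,z0,z0,z1,z2,z0],z2)],[([z3,z0,y3,y3,y3,z0],y4),([z0,z3,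
    z6,z6,z6,z0],z14)],[([z1,z0,z0,y2,z0,z1],z0),([z0,z1,z0,z2,z0,z0],z2),([z0,z0,z3,z3,z0,z0],z4)],[([z3,z0,z0,z0,z0,
    y6],y2),([z0,z3,z0,z0,z3,z6],z8),([z0,z0,z3,z0,z0,z3],z4)],[([z3,z0,z0,z0,y6,z0],y2),([z0,z3,z0,z0,z6,z3],z8),
    ([z0,z0,z3,z0,z3,z0],z4)],[([z1,z0,z0,z0,y2,y2],y2),([z0,z3,z0,z0,z6,z6],z10),([z0,z0,z1,z0,z1,z1],z2)],[([z3,z0,
    z0,y6,z0,z0],y2),([z0,z1,z0,z2,z0,z0],z2),([z0,z0,z1,z1,z0,z1],z2)],[([z3,z0,z0,z0,y6,z0],y2),([z0,z1,z0,z1,z1,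
    z0],z2),([z0,z0,z1,z0,z2,z0],z2)],[([z1,z0,z0,z0,y1,z0],z0),([z0,z3,z0,z3,z0,z0],z4),([z0,z0,z1,z0,z2,z0],z2)],
    [([z1,z0,z0,z0,z0,y1],z0),([z0,z3,z0,z0,z0,z0],z2),([z0,z0,z3,z3,z0,z0],z4)],[([z1,z0,z0,y1,z0,z0],z0),([z0,z3,z0,
    z0,z3,z0],z4),([z0,z0,z1,z2,z0,z0],z2)],[([z3,z0,z0,z0,y18,z0],y10),([z0,z3,z0,z0,z9,z0],z8),([z0,z0,z1,z0,z2,z0],
    z2),([z0,z0,z0,z1,z2,z0],z2)]],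
    [[([z1,z0,z0,z0,y1,z0],z0),([z0,z3,z0,z0,y6,z0],y2),([z0,z0,z1,z0,z2,z0],z2),([z0,z0,z0,z1,z2,z0],z2)],[([z1,z0,
    z0,z0,z0,y1],z0),([z0,z2,z0,z0,z0,z1],z2),([z0,z0,z3,z0,z0,z0],z2),([z0,z0,z0,z6,z0,y9],y2)],[([z1,z0,z0,z0,y4,
    z0],y2),([z0,z3,z0,z0,z3,z0],z4),([z0,z0,z1,z0,z2,z0],z2),([z0,z0,z0,z1,z2,z0],z2)],[([z3,z0,z0,z0,y6,z0],y2),
    ([z0,z1,z0,z0,y1,z0],z0),([z0,z0,z1,z0,z2,z0],z2),([z0,z0,z0,z1,z2,z0],z2)],[([z1,z0,z0,z0,z0,y1],z0),([z0,z2,z0,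
    z0,z0,z1],z2),([z0,z0,z3,z0,z0,z0],z2),([z0,z0,z0,z4,z0,y1],z2)],[([z3,z0,z0,y9,z0,z0],y4),([z0,z1,z0,z2,z0,z0],
    z2),([z0,z0,z1,z2,z0,z0],z2),([z0,z0,z0,z0,z3,z0],z2)],[([z3,z0,z0,y9,z0,z3],y2),([z0,z1,z0,z2,z0,z0],z2),([z0,z0,
    z1,z2,z0,z0],z2)],[([z3,z0,z0,z0,z0,y6],y2),([z0,z3,z0,z0,z0,z12],z10),([z0,z0,z3,z0,z0,y6],y2),([z0,z0,z0,z3,z0,
    z0],z2)],[([z1,z0,z0,z0,z0,y1],z0),([z0,z3,z0,z0,z0,z0],z2),([z0,z0,z1,z0,z0,z2],z2),([z0,z0,z0,z3,z0,y6],y2)],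
    [([z3,z0,z0,z0,z0,y6],y2),([z0,z1,z0,z0,z0,z2],z2),([z0,z0,z1,z0,z0,y1],z0),([z0,z0,z0,z1,z0,z2],z2)],[([z1,z0,z0,
    z0,y1,z0],z0),([z0,z3,z0,z0,z0,z0],z2),([z0,z0,z2,z0,z1,z0],z2),([z0,z0,z0,z6,z9,z0],z10)],[([z1,z0,z0,z0,z0,y4],
    y2),([z0,z1,z0,z0,z0,z2],z2),([z0,z0,z3,z0,z0,z3],z4),([z0,z0,z0,z1,z0,z2],z2)]],
    [[([z3,z0,z0,z0,z0,y15],y8),([z0,z1,z0,z0,z0,z2],z2),([z0,z0,z1,z0,z0,z2],z2),([z0,z0,z0,z1,z0,z2],z2)],[([z1,z0,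
    z0,z0,z0,y4],y2),([z0,z3,z0,z0,z0,z0],z2),([z0,z0,z1,z0,z0,z2],z2),([z0,z0,z0,z3,z0,z21],z16)],[([z3,z0,z0,z0,z0,
    y18],y10),([z0,z1,z0,z0,z0,z2],z2),([z0,z0,z3,z0,z0,z9],z8),([z0,z0,z0,z1,z0,z2],z2)],[([z1,z0,z0,z0,y1,z0],z0),
    ([z0,z3,z0,z0,z0,z0],z2),([z0,z0,z2,z0,z1,z0],z2)],[([z1,z0,z0,z0,z0,y1],z0),([z0,z3,z0,z0,z0,z0],z2),([z0,z0,z2,
    z0,z0,z1],z2),([z0,z0,z0,z6,z0,y3],z2)],[([z2,z0,z0,z0,z0,y5],y2),([z0,z1,z0,z0,z0,z2],z2),([z0,z0,z3,z0,z0,z3],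
    z4),([z0,z0,z0,z2,z0,z1],z2)],[([z3,z0,z0,z0,z0,y6],y2),([z0,z3,z0,z0,z0,z0],z2),([z0,z0,z3,z0,z0,z3],z4),([z0,z0,
    z0,z3,z0,y6],y2)],[([z1,z0,z0,z0,z0,y4],y2),([z0,z3,z0,z0,z0,z12],z10),([z0,z0,z1,z0,z0,y1],z0),([z0,z0,z0,z3,z0,
    z0],z2)],[([z3,z0,z0,z0,z0,y6],y2),([z0,z6,z0,z0,z0,z15],z14),([z0,z0,z6,z0,z0,y3],z2),([z0,z0,z0,z3,z0,z0],z2)],
    [([z3,z0,z0,z0,z0,z0],z2),([z0,z2,z0,z0,z0,z1],z2),([z0,z0,z6,z0,z0,y9],y2),([z0,z0,z0,z1,z0,z2],z2)],[([z1,z0,z0,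
    z0,z0,y4],y2),([z0,z3,z0,z0,z0,z0],z2),([z0,z0,z1,z0,z0,z2],z2),([z0,z0,z0,z3,z0,y15],y8)],[([z9,z0,z0,z0,z0,y12],
    y2),([z0,z1,z0,z0,z0,z2],z2),([z0,z0,z9,z0,z0,y3],z4),([z0,z0,z0,z3,z0,z0],z2)]],
    [[([z3,z0,z0,z0,z0,y9],y4),([z0,z1,z0,z0,z0,y4],y2),([z0,z0,z3,z0,z0,z18],z14),([z0,z0,z0,z1,z0,z2],z2)],[([z1,z0,
    z0,z0,z0,y4],y2),([z0,z3,z0,z0,z0,z12],z10),([z0,z0,z1,z0,z0,z2],z2),([z0,z0,z0,z3,z0,z0],z2)],[([z1,z0,z0,z0,y4,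
    z0],y2),([z0,z3,z0,z0,z9,z0],z8),([z0,z0,z1,z0,z2,z0],z2),([z0,z0,z0,z3,z0,z0],z2)],[([z12,z0,z0,z0,z0,y15],y2),
    ([z0,z1,z0,z0,z0,z2],z2),([z0,z0,z4,z0,z0,y1],z2),([z0,z0,z0,z2,z0,z1],z2)],[([z1,z0,z0,z0,y4,z0],y2),([z0,z3,z0,
    z0,z9,z3],z10),([z0,z0,z1,z0,z2,z0],z2)],[([z3,z0,z0,z0,z0,y6],y2),([z0,z1,z0,z0,z0,z2],z2),([z0,z0,z3,z0,z0,z3],
    z4),([z0,z0,z0,z3,z0,z0],z2)],[([z3,z0,z0,y6,z0,z0],y2),([z0,z1,z0,z2,z0,z0],z2),([z0,z0,z3,z3,z0,z0],z4),([z0,z0,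
    z0,z0,z3,z0],z2)],[([z1,z0,z0,z0,z0,y4],y2),([z0,z3,z0,z0,z0,z9],z8),([z0,z0,z1,z0,z0,z2],z2),([z0,z0,z0,z3,z0,
    z0],z2)],[([z3,z0,z0,z0,z0,z0],z2),([z0,z3,z0,z0,z0,z0],z2),([z0,z0,z2,z0,z1,z0],z2)],[([z3,z0,z0,z0,z0,z0],z2),
    ([z0,z2,z0,z1,z0,z0],z2)],[([z3,z0,z0,z0,y6,z0],y2),([z0,z3,z0,z0,z6,z3],z8),([z0,z0,z3,z0,z0,z0],z2)],[([z3,z0,
    z0,z0,z0,y6],y2),([z0,z3,z0,z0,z3,z6],z8),([z0,z0,z3,z0,z0,z0],z2)]],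
    [[([z1,z0,z0,z0,y2,z1],z0),([z0,z1,z0,z0,z2,z0],z2),([z0,z0,z3,z0,z3,z0],z4)],[([z3,z0,z0,z0,z0,y6],y2),([z0,z1,
    z0,z1,z0,z1],z2),([z0,z0,z1,z0,z0,z2],z2)],[([z1,z0,z0,z0,y1,z0],z0),([z0,z3,z0,z0,z0,z0],z2),([z0,z0,z3,z0,z0,
    z3],z4)],[([z3,z0,z0,z0,y6,z0],y2),([z0,z1,z0,z0,z2,z0],z2),([z0,z0,z3,z0,z0,z0],z2),([z0,z0,z0,z3,z3,z0],z4)],
    [([z3,z0,z0,z0,z0,y6],y2),([z0,z3,z0,z0,z0,z0],z2),([z0,z0,z1,z0,z0,z2],z2),([z0,z0,z0,z3,z0,z3],z4)],[([z1,z0,z0,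
    z0,z0,y1],z0),([z0,z3,z0,z0,z0,z0],z2),([z0,z0,z3,z0,z0,z0],z2),([z0,z0,z0,z1,z0,z2],z2)],[([z3,z0,z0,z0,y9,z0],
    y4),([z0,z1,z0,z0,z2,z0],z2),([z0,z0,z3,z0,z0,z0],z2),([z0,z0,z0,z1,z2,z0],z2)],[([z3,z0,z0,z0,z0,y9],y4),([z0,z3,
    z0,z0,z0,z0],z2),([z0,z0,z1,z0,z0,z2],z2),([z0,z0,z0,z1,z0,z2],z2)],[([z1,z0,z0,z0,z0,y4],y2),([z0,z3,z0,z0,z0,
    z0],z2),([z0,z0,z3,z0,z0,z9],z8),([z0,z0,z0,z1,z0,z2],z2)],[([z1,z0,z0,z0,z0,y4],y2),([z0,z3,z0,z0,z0,z0],z2),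
    ([z0,z0,z1,z0,z0,z2],z2),([z0,z0,z0,z3,z0,z9],z8)],[([z3,z0,z0,z0,z0,z0],z2),([z0,z2,z0,z0,z1,z0],z2),([z0,z0,z6,
    z0,z3,z6],z10)],[([z3,z0,z0,z0,y6,z0],y2),([z0,z1,z0,z0,z2,z0],z2),([z0,z0,z1,z0,z1,z1],z2)]],
    [[([z1,z0,z0,z0,z0,y1],z0),([z0,z3,z0,z0,z0,z0],z2),([z0,z0,z3,z0,z3,z0],z4)],[([z1,z0,z0,z0,y2,y2],y2),([z0,z3,
    z0,z0,z6,z6],z10),([z0,z0,z3,z0,z0,z0],z2)],[([z3,z0,z0,z0,y6,z0],y2),([z0,z1,z0,z0,z2,z0],z2),([z0,z0,z1,z0,z2,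
    z0],z2),([z0,z0,z0,z1,y1,z0],z0)],[([z1,z0,z0,z0,y4,z0],y2),([z0,z1,z0,z0,z2,z0],z2),([z0,z0,z1,z0,z2,z0],z2),
    ([z0,z0,z0,z3,z3,z0],z4)],[([z1,z0,z0,z0,z0,y4],y2),([z0,z1,z0,z0,z0,z2],z2),([z0,z0,z1,z0,z0,z2],z2),([z0,z0,z0,
    z3,z0,z3],z4)],[([z3,z0,z0,z0,z0,y9],y4),([z0,z1,z0,z0,z0,z2],z2),([z0,z0,z1,z0,z0,z2],z2),([z0,z0,z0,z3,z0,z0],
    z2)],[([z3,z0,z0,z0,z0,y18],y10),([z0,z1,z0,z0,z0,z2],z2),([z0,z0,z1,z0,z0,z2],z2),([z0,z0,z0,z3,z0,z9],z8)],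
    [([z1,z0,z0,z0,z0,y4],y2),([z0,z1,z0,z0,z0,y4],y2),([z0,z0,z3,z0,z0,z21],z16),([z0,z0,z0,z1,z0,z2],z2)],[([z1,z0,
    z0,z0,z0,y1],z0),([z0,z6,z0,z0,z6,z9],z14),([z0,z0,z3,z0,z0,z0],z2)],[([z3,z0,z0,z0,z0,y18],y10),([z0,z3,z0,z0,z0,
    z9],z8),([z0,z0,z1,z0,z0,z2],z2),([z0,z0,z0,z1,z0,z2],z2)],[([z3,z0,z0,z0,z0,y6],y2),([z0,z1,z0,z0,z0,y1],z0),
    ([z0,z0,z3,z0,z0,z0],z2),([z0,z0,z0,z1,z0,z2],z2)],[([z1,z0,z0,z0,z0,y1],z0),([z0,z3,z0,z0,z0,z0],z2),([z0,z0,z2,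
    z0,z0,z1],z2),([z0,z0,z0,z6,z0,y9],y2)]],
    [[([z1,z0,z0,z0,z0,y4],y2),([z0,z3,z0,z0,z0,z3],z4),([z0,z0,z1,z0,z0,z2],z2),([z0,z0,z0,z1,z0,z2],z2)],[([z3,z0,
    z0,z0,z0,y6],y2),([z0,z1,z0,z0,z0,z2],z2),([z0,z0,z1,z0,z0,z2],z2),([z0,z0,z0,z3,z0,z0],z2)],[([z3,z0,z0,z0,y9,
    z0],y4),([z0,z1,z0,z0,z2,z0],z2),([z0,z0,z1,z0,z2,z0],z2),([z0,z0,z0,z3,z0,z0],z2)],[([z1,z0,z0,z0,z0,y1],z0),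
    ([z0,z3,z0,z0,z0,z0],z2),([z0,z0,z2,z0,z0,z1],z2),([z0,z0,z0,z4,z0,y1],z2)],[([z3,z0,z0,z0,y9,z3],y2),([z0,z1,z0,
    z0,z2,z0],z2),([z0,z0,z1,z0,z2,z0],z2)],[([z1,z0,z0,z0,y4,z0],y2),([z0,z1,z0,z0,z2,z0],z2),([z0,z0,z2,z0,z1,z0],
    z2),([z0,z0,z0,z6,z15,z0],z14)],[([z1,z0,z0,z0,y1,z0],z0),([z0,z6,z0,z0,y3,z0],z2),([z0,z0,z2,z0,z1,z0],z2),([z0,
    z0,z0,z1,z2,z0],z2)],[([z3,z0,z0,z0,y6,z0],y2),([z0,z1,z0,z0,z2,z0],z2),([z0,z0,z2,z0,z1,z0],z2),([z0,z0,z0,z2,z1,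
    z0],z2)],[([z2,z0,z0,z0,y5,z0],y2),([z0,z1,z0,z0,z2,z0],z2),([z0,z0,z2,z0,z1,z0],z2),([z0,z0,z0,z3,z3,z0],z4)],
    [([z1,z0,z0,z0,z0,y4],y2),([z0,z3,z0,z0,z0,y6],y2),([z0,z0,z3,z0,z0,z0],z2),([z0,z0,z0,z1,z0,z2],z2)],[([z1,z0,z0,
    z0,z0,y4],y2),([z0,z3,z0,z0,z0,z0],z2),([z0,z0,z3,z0,z0,z0],z2),([z0,z0,z0,z1,z0,z2],z2)],[([z1,z0,z0,z0,z0,y4],
    y2),([z0,z1,z0,z0,z0,y1],z0),([z0,z0,z3,z0,z0,z0],z2),([z0,z0,z0,z1,z0,z2],z2)]],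
    [[([z1,z0,z0,z0,z0,y4],y2),([z0,z3,z0,z0,z0,y9],y4),([z0,z0,z3,z0,z0,z0],z2),([z0,z0,z0,z1,z0,z2],z2)],[([z1,z0,
    z0,z0,y4,z0],y2),([z0,z3,z0,z0,y15,z0],y8),([z0,z0,z1,z0,z2,z0],z2),([z0,z0,z0,z1,z8,z0],z6)],[([z3,z0,z0,z0,y6,
    z0],y2),([z0,z3,z0,z0,y6,z0],y2),([z0,z0,z3,z0,z3,z0],z4),([z0,z0,z0,z3,z12,z0],z10)],[([z3,z0,z0,z0,y9,z0],y4),
    ([z0,z1,z0,z0,z2,z0],z2),([z0,z0,z2,z0,z1,z0],z2),([z0,z0,z0,z6,z9,z0],z10)],[([z1,z0,z0,z0,z0,y4],y2),([z0,z3,z0,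
    z0,z3,z9],z10),([z0,z0,z3,z0,z0,z0],z2)],[([z3,z0,z0,z0,y9,z0],y4),([z0,z1,z0,z0,z2,z0],z2),([z0,z0,z3,z0,y6,z0],
    y2),([z0,z0,z0,z3,z12,z0],z10)],[([z6,z0,z0,z0,y9,z0],y2),([z0,z1,z0,z0,z2,z0],z2),([z0,z0,z6,z0,y3,z0],z2),([z0,
    z0,z0,z3,z3,z0],z4)],[([z3,z0,z0,z0,y15,z0],y8),([z0,z1,z0,z0,z2,z0],z2),([z0,z0,z1,z0,y4,z0],y2),([z0,z0,z0,z1,
    z8,z0],z6)],[([z9,z0,z0,z0,y12,z0],y2),([z0,z1,z0,z0,z2,z0],z2),([z0,z0,z9,z0,y3,z0],z4),([z0,z0,z0,z9,z6,z0],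
    z10)],[([z3,z0,z0,z0,z0,y6],y2),([z0,z3,z0,z0,z0,z0],z2),([z0,z0,z3,z0,z0,z0],z2),([z0,z0,z0,z3,z0,z3],z4)],[([z1,
    z0,z0,z0,y4,z0],y2),([z0,z1,z0,z0,z2,z0],z2),([z0,z0,z3,z0,y9,z0],y4),([z0,z0,z0,z3,z18,z0],z14)],[([z6,z0,z0,z0,
    y6,y3],y2),([z0,z3,z0,z0,z6,z3],z8),([z0,z0,z2,z0,z0,z1],z2)]],
    [[([z3,z0,z0,z0,z0,z0],z2),([z0,z2,z0,z0,z1,z0],z2)],[([z1,z0,z0,z0,y2,z1],z0),([z0,z3,z0,z0,z3,z0],z4),([z0,z0,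
    z1,z0,z2,z0],z2)],[([z3,z0,z0,z0,y6,z0],y2),([z0,z3,z0,z0,z0,z0],z2),([z0,z0,z3,z0,z3,z0],z4)],[([z3,z0,z0,z0,z0,
    z0],z2),([z0,z2,z0,z0,z0,z1],z2),([z0,z0,z6,z0,z0,y3],z2)],[([z1,z0,z0,z0,y1,z0],z0),([z0,z3,z0,z0,z0,z0],z2),
    ([z0,z0,z1,z0,z2,z0],z2)],[([z1,z0,z0,y1,z0,z0],z0),([z0,z3,z0,z0,z0,z0],z2),([z0,z0,z1,z2,z0,z0],z2)],[([z1,z0,
    z0,z0,y2,y2],y2),([z0,z3,z0,z0,z0,z0],z2),([z0,z0,z1,z0,z1,z1],z2)],[([z1,z0,z0,z0,z0,y1],z0),([z0,z3,z0,z0,z0,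
    z0],z2),([z0,z0,z1,z0,z0,z2],z2)],[([z3,z0,z0,z0,z0,z0],z2),([z0,z2,z0,z0,z0,z1],z2),([z0,z0,z2,z2,z0,y1],z2)],
    [([z3,z0,z0,z0,y6,z0],y2),([z0,z1,z0,z0,z1,z1],z2),([z0,z0,z1,z0,z2,z0],z2)],[([z3,z0,z0,z0,z0,z0],z2),([z0,z9,z0,
    z0,z0,z3],z8),([z0,z0,z3,z0,z0,z0],z2),([z0,z0,z0,z9,z0,y6],z2)],[([z3,z0,z0,z0,z0,z0],z2),([z0,z2,z0,z0,z0,z1],
    z2),([z0,z0,z6,z0,z0,y9],y2),([z0,z0,z0,z3,z0,z0],z2)]],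
    [[([z1,z0,z0,z0,z0,y4],y2),([z0,z1,z0,z0,z0,z2],z2),([z0,z0,z3,z0,z0,z0],z2),([z0,z0,z0,z1,z0,y1],z0)],[([z3,z0,
    z0,z0,z0,y6],y2),([z0,z1,z0,z0,z0,z5],z4),([z0,z0,z1,z0,z0,y4],y2),([z0,z0,z0,z1,z0,z2],z2)],[([z3,z0,z0,z0,z0,
    y6],y2),([z0,z3,z0,z0,z0,z3],z4),([z0,z0,z3,z0,z0,z0],z2),([z0,z0,z0,z6,z0,y3],z2)],[([z1,z0,z0,z0,z0,y4],y2),
    ([z0,z3,z0,z0,z0,z21],z16),([z0,z0,z1,z0,z0,y4],y2),([z0,z0,z0,z1,z0,z2],z2)],[([z3,z0,z0,z0,z0,y15],y8),([z0,z1,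
    z0,z0,z0,z8],z6),([z0,z0,z1,z0,z0,y4],y2),([z0,z0,z0,z1,z0,z2],z2)],[([z3,z0,z0,z0,z0,z0],z2),([z0,z2,z0,z0,z0,
    z1],z2),([z0,z0,z6,z6,z0,y9],z2)],[([z3,z0,z0,y3,y3,y3],y4),([z0,z3,z0,z0,z0,z0],z2)],[([z3,z0,z0,z0,z0,z0],z2),
    ([z0,z1,z0,z0,z1,z1],z2)],[([z1,z0,z0,y2,y2,z0],y2),([z0,z3,z0,z6,z6,z0],z10),([z0,z0,z1,z1,z1,z0],z2)],[([z3,z0,
    z0,z0,z0,y6],y2),([z0,z1,z0,z0,z1,z1],z2),([z0,z0,z3,z0,z0,z0],z2)],[([z3,z0,z0,z0,y6,z0],y2),([z0,z3,z0,z0,z0,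
    z0],z2),([z0,z0,z1,z0,z2,z0],z2)],[([z1,z0,z0,z0,y2,z1],z0),([z0,z3,z0,z0,z0,z0],z2),([z0,z0,z1,z0,z2,z0],z2)]],
    [[([z1,z0,z0,z0,z0,y1],z0),([z0,z3,z0,z0,z3,z0],z4),([z0,z0,z3,z0,z0,z0],z2)],[([z3,z0,z0,y6,z0,z0],y2),([z0,z3,
    z0,z6,z3,z0],z8),([z0,z0,z3,z3,z0,z0],z4)],[([z3,z0,z0,z0,y6,z0],y2),([z0,z3,z0,z3,z6,z0],z8),([z0,z0,z3,z0,z3,
    z0],z4)],[([z3,z0,z0,z0,y9,z0],y4),([z0,z6,z0,z0,z9,z0],z10),([z0,z0,z2,z0,z1,z0],z2),([z0,z0,z0,z1,z2,z0],z2)],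
    [([z1,z0,z0,z0,z0,y4],y2),([z0,z1,z0,z0,z0,z2],z2),([z0,z0,z3,z0,z0,z0],z2),([z0,z0,z0,z3,z0,y6],y2)],[([z1,z0,z0,
    z0,z0,y4],y2),([z0,z1,z0,z0,z0,z2],z2),([z0,z0,z3,z0,z0,z0],z2),([z0,z0,z0,z3,z0,y9],y4)],[([z2,z0,z0,z0,y5,z0],
    y2),([z0,z3,z0,z0,z3,z0],z4),([z0,z0,z2,z0,z1,z0],z2),([z0,z0,z0,z1,z2,z0],z2)],[([z1,z0,z0,z0,y4,z0],y2),([z0,z1,
    z0,z0,z8,z0],z6),([z0,z0,z1,z0,z2,z0],z2),([z0,z0,z0,z3,y15,z0],y8)],[([z6,z0,z0,y9,z0,z0],y2),([z0,z2,z0,z1,z0,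
    z0],z2),([z0,z0,z1,z2,z0,z0],z2),([z0,z0,z0,z0,z3,z0],z2)],[([z6,z0,z0,y9,z0,z6],z2),([z0,z2,z0,z1,z0,z0],z2),
    ([z0,z0,z1,z2,z0,z0],z2)],[([z3,z0,z0,z0,z0,y15],y8),([z0,z1,z0,z0,z0,z2],z2),([z0,z0,z3,z0,z0,z0],z2),([z0,z0,z0,
    z1,z0,y4],y2)],[([z1,z0,z0,z0,z0,y1],z0),([z0,z1,z0,z0,z0,z2],z2),([z0,z0,z3,z0,z0,z0],z2),([z0,z0,z0,z1,z0,y4],
    y2)]],
    [[([z3,z0,z0,z0,z0,y6],y2),([z0,z3,z0,z0,z0,z0],z2),([z0,z0,z3,z0,z0,z12],z10),([z0,z0,z0,z3,z0,y6],y2)],[([z3,z0,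
    z0,z0,z0,y15],y8),([z0,z1,z0,z0,z0,y4],y2),([z0,z0,z3,z0,z0,z0],z2),([z0,z0,z0,z1,z0,z2],z2)],[([z3,z0,z0,z0,z0,
    y6],y2),([z0,z1,z0,z0,z0,z2],z2),([z0,z0,z3,z0,z0,z0],z2),([z0,z0,z0,z1,z0,y4],y2)],[([z1,z0,z0,z0,y4,z0],y2),
    ([z0,z3,z0,z0,z0,z0],z2),([z0,z0,z1,z0,z2,z0],z2),([z0,z0,z0,z3,z9,z0],z8)],[([z2,z0,z0,z0,z0,y5],y2),([z0,z2,z0,
    z0,z0,z1],z2),([z0,z0,z3,z0,z0,z3],z4),([z0,z0,z0,z1,z0,z2],z2)],[([z1,z0,z0,z0,z0,y1],z0),([z0,z3,z0,z0,z0,z0],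
    z2),([z0,z0,z1,z0,z0,z2],z2),([z0,z0,z0,z6,z0,y3],z2)],[([z1,z0,z0,z0,z0,y4],y2),([z0,z3,z0,z0,z0,z0],z2),([z0,z0,
    z1,z0,z0,z2],z2),([z0,z0,z0,z3,z0,z12],z10)],[([z3,z0,z0,z0,z0,y9],y4),([z0,z1,z0,z0,z0,y4],y2),([z0,z0,z3,z0,z0,
    z0],z2),([z0,z0,z0,z1,z0,z2],z2)],[([z12,z0,z0,z0,z0,y15],y2),([z0,z2,z0,z0,z0,z1],z2),([z0,z0,z4,z0,z0,y1],z2),
    ([z0,z0,z0,z1,z0,z2],z2)],[([z1,z0,z0,z0,y4,z0],y2),([z0,z3,z0,z0,z0,z0],z2),([z0,z0,z1,z0,z2,z0],z2)],[([z1,z0,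
    z0,z0,z0,y1],z0),([z0,z1,z0,z0,z0,z2],z2),([z0,z0,z3,z0,z0,z0],z2)],[([z9,z0,z0,z0,y12,z0],y2),([z0,z9,z0,z0,y3,
    z0],z4),([z0,z0,z9,z0,z6,z0],z10),([z0,z0,z0,z1,z2,z0],z2)]],
    [[([z1,z0,z0,z0,z0,y4],y2),([z0,z3,z0,z0,z0,z0],z2),([z0,z0,z3,z0,z0,z0],z2),([z0,z0,z0,z3,z0,z9],z8)],[([z1,z0,
    z0,z0,z0,y4],y2),([z0,z3,z0,z0,z0,z0],z2),([z0,z0,z3,z0,z0,z12],z10),([z0,z0,z0,z1,z0,y1],z0)],[([z3,z0,z0,z0,y6,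
    z0],y2),([z0,z6,z0,z0,y3,z0],z2),([z0,z0,z3,z0,z3,z0],z4),([z0,z0,z0,z6,z15,z0],z14)],[([z3,z0,z0,z0,z0,y15],y8),
    ([z0,z1,z0,z0,z0,y4],y2),([z0,z0,z1,z0,z0,z2],z2),([z0,z0,z0,z1,z0,z8],z6)],[([z1,z0,z0,z0,z0,y4],y2),([z0,z3,z0,
    z0,z0,z0],z2),([z0,z0,z3,z0,z0,z18],z14),([z0,z0,z0,z3,z0,y9],y4)],[([z6,z0,z0,z0,y9,z0],y2),([z0,z3,z0,z0,z0,z0],
    z2),([z0,z0,z1,z0,z2,z0],z2),([z0,z0,z0,z2,z1,z0],z2)],[([z1,z0,z0,z0,y4,z0],y2),([z0,z1,z0,z0,y1,z0],z0),([z0,z0,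
    z1,z0,z2,z0],z2),([z0,z0,z0,z3,z12,z0],z10)],[([z1,z0,z0,z0,z0,y4],y2),([z0,z3,z0,z0,z0,z0],z2),([z0,z0,z1,z0,z0,
    z2],z2),([z0,z0,z0,z3,z0,z3],z4)],[([z1,z0,z0,z0,z0,y4],y2),([z0,z3,z0,z0,z0,z0],z2),([z0,z0,z1,z0,z0,z5],z4),
    ([z0,z0,z0,z3,z0,y6],y2)],[([z1,z0,z0,z0,z0,y4],y2),([z0,z3,z0,z0,z0,z0],z2),([z0,z0,z3,z0,z0,z3],z4),([z0,z0,z0,
    z1,z0,z2],z2)],[([z3,z0,z0,z0,z0,y15],y8),([z0,z3,z0,z0,z0,z0],z2),([z0,z0,z1,z0,z0,z8],z6),([z0,z0,z0,z1,z0,z2],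
    z2)],[([z6,z0,z0,z0,y9,z6],z2),([z0,z3,z0,z0,z0,z0],z2),([z0,z0,z1,z0,z2,z0],z2)]],
    [[([z3,z0,z0,z0,z0,z0],z2),([z0,z1,z0,z2,z0,z0],z2)],[([z3,z0,z0,z0,z0,z0],z2),([z0,z1,z0,z1,z0,z1],z2)],[([z3,z0,
    z0,z0,z0,z0],z2)],[([z2,z0,z0,z0,z0,z1],z2),([z0,z1,z0,z0,z1,z1],z2),([z0,z0,z1,z0,z0,y1],z0)],[([z2,z0,z0,z0,z0,
    z1],z2),([z0,z1,z0,z1,z0,z1],z2),([z0,z0,z1,z0,z0,y1],z0)],[([z1,z0,z0,z0,z0,y1],z0),([z0,z1,z0,z0,z0,z2],z2),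
    ([z0,z0,z1,z1,z0,y2],z0)],[([z1,z0,z0,y1,z0,z0],z0),([z0,z2,z0,z1,z0,z0],z2)],[([z1,z0,z0,y2,y2,z0],y2),([z0,z1,
    z0,z2,z2,z1],z4)],[([z1,z0,z0,y2,z0,y2],y2),([z0,z1,z0,z2,z1,z2],z4)],[([z1,z0,z0,z0,z0,y1],z0),([z0,z1,z0,z1,z1,
    z0],z2)],[([z1,z0,z0,y2,z0,z1],z0),([z0,z1,z0,z2,z0,z0],z2)],[([z1,z0,z0,z0,y1,z0],z0),([z0,z2,z0,z0,z1,z0],z2),
    ([z0,z0,z2,z0,z1,z0],z2)]],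
    [[([z2,z0,z0,y4,z0,y1],y2),([z0,z1,z0,z2,z0,z0],z2),([z0,z0,z1,z1,z0,z1],z2)],[([z1,z0,z0,z0,y2,y2],y2),([z0,z1,
    z0,z0,z0,z2],z2),([z0,z0,z1,z0,z1,z1],z2)],[([z1,z0,z0,z0,y2,y2],y2),([z0,z2,z0,z0,z3,z4],z6),([z0,z0,z1,z0,z1,
    z1],z2)],[([z1,z0,z0,y2,z0,z1],z0),([z0,z1,z0,z2,z0,z0],z2),([z0,z0,z2,z2,z0,y1],z2)],[([z1,z0,y1,z0,y1,z1],z0),
    ([z0,z1,z2,z0,z2,y2],z2)],[([z1,z0,z0,z0,y2,y2],y2),([z0,z1,z0,z0,z0,z2],z2),([z0,z0,z1,z0,z2,z0],z2)],[([z1,z0,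
    z0,z0,z0,y1],z0),([z0,z1,z0,z0,z1,y2],z0),([z0,z0,z1,z0,z0,z2],z2)],[([z1,z0,z0,z0,y1,z0],z0),([z0,z1,z0,z0,z0,
    y1],z0),([z0,z0,z1,z0,z2,z0],z2)],[([z1,z0,z0,z0,y2,z1],z0),([z0,z1,z0,z0,z0,z2],z2),([z0,z0,z1,z0,z2,z0],z2)],
    [([z1,z0,z0,z0,z0,y1],z0),([z0,z1,z0,z0,z0,z2],z2),([z0,z0,z1,z0,z2,z0],z2)],[([z1,z0,z0,z0,z0,y4],y2),([z0,z1,z0,
    z0,z0,z2],z2),([z0,z0,z1,z0,z0,z2],z2),([z0,z0,z0,z1,z0,z2],z2)],[([z3,z0,z0,z0,z0,y6],y2),([z0,z1,z0,z0,z0,z2],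
    z2),([z0,z0,z3,z0,z0,y6],y2),([z0,z0,z0,z1,z0,z2],z2)]],
    [[([z1,z0,z0,z0,y1,z0],z0),([z0,z3,z0,z0,z0,z0],z2),([z0,z0,z1,z0,z2,z0],z2),([z0,z0,z0,z3,z0,z0],z2)],[([z1,z0,
    z0,z0,z0,y7],y4),([z0,z1,z0,z0,z0,z2],z2),([z0,z0,z1,z0,z0,z8],z6),([z0,z0,z0,z1,z0,z2],z2)],[([z1,z0,z0,z0,y1,
    y3],y2),([z0,z1,z0,z0,z0,z2],z2),([z0,z0,z1,z0,z2,z0],z2)],[([z1,z0,z0,z0,z0,y1],z0),([z0,z2,z0,z0,z0,z1],z2),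
    ([z0,z0,z6,z0,z0,y9],y2),([z0,z0,z0,z3,z0,z0],z2)],[([z1,z0,z0,z0,z0,y7],y4),([z0,z1,z0,z0,z0,z2],z2),([z0,z0,z1,
    z0,z0,y4],y2),([z0,z0,z0,z1,z0,y4],y2)],[([z2,z0,z0,z0,z0,y5],y2),([z0,z2,z0,z0,z0,z1],z2),([z0,z0,z1,z0,z0,y1],
    z0),([z0,z0,z0,z1,z0,z2],z2)],[([z2,z0,z0,z0,z0,y5],y2),([z0,z2,z0,z0,z0,z1],z2),([z0,z0,z1,z0,z0,y1],z0),([z0,z0,
    z0,z1,z0,y1],z0)],[([z1,z0,z0,z0,z0,y1],z0),([z0,z2,z0,z0,z0,z1],z2),([z0,z0,z6,z0,z0,y3],z2),([z0,z0,z0,z3,z0,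
    z3],z4)],[([z3,z0,z0,z0,y9,z0],y4),([z0,z3,z0,z0,z0,z0],z2),([z0,z0,z1,z0,z2,z0],z2),([z0,z0,z0,z1,z2,z0],z2)],
    [([z1,z0,z0,z0,z0,y13],y8),([z0,z1,z0,z0,z0,z2],z2),([z0,z0,z1,z0,z0,z8],z6),([z0,z0,z0,z1,z0,z8],z6)],[([z1,z0,
    z0,z0,y3,y1],y2),([z0,z1,z0,z0,z0,z2],z2),([z0,z0,z1,z0,z2,z0],z2)],[([z1,z0,z0,z0,y2,y2],y2),([z0,z2,z0,z0,z4,
    z3],z6),([z0,z0,z1,z0,z1,z1],z2)]],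
    [[([z1,z0,z0,z0,z0,y4],y2),([z0,z1,z0,z0,z0,y4],y2),([z0,z0,z1,z0,z0,z5],z4),([z0,z0,z0,z1,z0,z2],z2)],[([z1,z0,
    z0,z0,z0,y4],y2),([z0,z1,z0,z0,z0,z5],z4),([z0,z0,z1,z0,z0,z2],z2),([z0,z0,z0,z1,z0,y10],y6)],[([z3,z0,z0,z0,z0,
    y9],y4),([z0,z1,z0,z0,z0,z2],z2),([z0,z0,z3,z0,z0,z0],z2),([z0,z0,z0,z1,z0,y4],y2)],[([z3,z0,z0,z0,z0,y6],y2),
    ([z0,z1,z0,z0,z0,z2],z2),([z0,z0,z3,z0,z0,z3],z4),([z0,z0,z0,z1,z0,y4],y2)],[([z1,z0,z0,z0,z0,y10],y6),([z0,z1,z0,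
    z0,z0,y4],y2),([z0,z0,z1,z0,z0,z8],z6),([z0,z0,z0,z1,z0,z2],z2)],[([z3,z0,z0,z0,z0,y6],y2),([z0,z1,z0,z0,z0,y4],
    y2),([z0,z0,z3,z0,z0,z12],z10),([z0,z0,z0,z1,z0,z2],z2)],[([z1,z0,z0,z0,z0,y4],y2),([z0,z1,z0,z0,z0,z2],z2),([z0,
    z0,z1,z0,z0,y16],y10),([z0,z0,z0,z1,z0,z11],z8)],[([z1,z0,z0,z0,y4,z0],y2),([z0,z2,z0,z0,z6,z1],z6),([z0,z0,z1,z0,
    z2,z0],z2)],[([z3,z0,z0,z0,z0,z0],z2),([z0,z2,z0,z0,z0,z1],z2),([z0,z0,z6,z0,z0,y3],z2),([z0,z0,z0,z3,z0,z0],z2)],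
    [([z1,z0,z0,z0,z0,y4],y2),([z0,z3,z0,z0,z0,z18],z14),([z0,z0,z3,z0,z0,z0],z2),([z0,z0,z0,z3,z0,y9],y4)],[([z3,z0,
    z0,z0,z0,y9],y4),([z0,z1,z0,z0,z0,z2],z2),([z0,z0,z3,z0,z0,z12],z10),([z0,z0,z0,z3,z0,z0],z2)],[([z3,z0,z0,z0,z0,
    y6],y2),([z0,z3,z0,z0,z0,z12],z10),([z0,z0,z3,z0,z0,z0],z2),([z0,z0,z0,z3,z0,y6],y2)]],
    [[([z6,z0,z0,z0,z0,y9],y2),([z0,z2,z0,z0,z0,z1],z2),([z0,z0,z3,z0,z0,z0],z2),([z0,z0,z0,z1,z0,y1],z0)],[([z1,z0,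
    z0,z0,z0,y4],y2),([z0,z3,z0,z0,z0,y15],y8),([z0,z0,z1,z0,z0,z8],z6),([z0,z0,z0,z1,z0,z2],z2)],[([z3,z0,z0,z0,z0,
    y6],y2),([z0,z3,z0,z0,z0,y9],y4),([z0,z0,z3,z0,z0,z12],z10),([z0,z0,z0,z1,z0,z2],z2)],[([z3,z0,z0,z0,y3,y3],y2),
    ([z0,z1,z0,z0,z0,z2],z2),([z0,z0,z1,z0,z2,z0],z2)],[([z2,z0,z0,z0,z1,z0],z2),([z0,z2,z0,z1,z0,z0],z2)],[([z1,z0,
    z0,y2,z0,y2],y2),([z0,z1,z0,z2,z0,z0],z2),([z0,z0,z1,z1,z0,z1],z2)],[([z1,z0,z0,z0,y2,z1],z0),([z0,z1,z0,z0,z2,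
    z0],z2),([z0,z0,z1,z0,z2,z0],z2)],[([z1,z0,z0,y1,z0,z0],z0),([z0,z1,z0,z0,z0,z2],z2),([z0,z0,z1,z2,z0,z0],z2)],
    [([z1,z0,z0,z0,y3,z2],z0),([z0,z1,z0,z0,z4,y2],z2),([z0,z0,z1,z0,z2,z0],z2)],[([z1,z0,z0,z0,y2,z1],z0),([z0,z1,z0,
    z0,z1,y2],z0),([z0,z0,z1,z0,z2,z0],z2)],[([z3,z0,z0,z0,z0,z0],z2),([z0,z2,z0,z0,z0,z1],z2),([z0,z0,z3,z0,z0,z0],
    z2),([z0,z0,z0,z1,z0,y1],z0)],[([z3,z0,z0,z0,z0,z0],z2),([z0,z2,z0,z0,z0,z1],z2),([z0,z0,z3,z0,z0,z0],z2),([z0,z0,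
    z0,z6,z0,y3],z2)]],
    [[([z3,z0,z0,z0,y6,z0],y2),([z0,z3,z0,z0,z3,z0],z4),([z0,z0,z1,z0,z2,z0],z2),([z0,z0,z0,z3,z0,z0],z2)],[([z3,z0,
    z0,y3,y3,z0],y2),([z0,z3,z0,z0,z0,z0],z2),([z0,z0,z3,z6,z6,z0],z10)],[([z2,z0,z0,z0,z0,y5],y2),([z0,z1,z0,z0,z0,
    z2],z2),([z0,z0,z4,z0,z0,y1],z2),([z0,z0,z0,z2,z0,z1],z2)],[([z1,z0,z0,z0,z0,y1],z0),([z0,z2,z0,z0,z0,z1],z2),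
    ([z0,z0,z2,z0,z0,y5],y2),([z0,z0,z0,z1,z0,z2],z2)],[([z1,z0,z0,z0,z0,y4],y2),([z0,z2,z0,z0,z0,z1],z2),([z0,z0,z1,
    z0,z0,z2],z2),([z0,z0,z0,z2,z0,y11],y6)],[([z3,z0,z0,z0,z0,y6],y2),([z0,z1,z0,z0,z0,z2],z2),([z0,z0,z6,z0,z0,y3],
    z2),([z0,z0,z0,z2,z0,z1],z2)],[([z2,z0,z0,z0,z0,y5],y2),([z0,z2,z0,z0,z0,z1],z2),([z0,z0,z1,z0,z0,y4],y2),([z0,z0,
    z0,z1,z0,z2],z2)],[([z1,z0,z0,z0,z0,y4],y2),([z0,z1,z0,z0,z0,z2],z2),([z0,z0,z2,z0,z0,z1],z2),([z0,z0,z0,z2,z0,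
    z1],z2)],[([z1,z0,z0,z0,y4,z0],y2),([z0,z3,z0,z0,z18,z0],z14),([z0,z0,z1,z0,z2,z0],z2),([z0,z0,z0,z3,y9,z0],y4)],
    [([z1,z0,z0,z0,y4,z0],y2),([z0,z1,z0,z0,z6,z2],z6),([z0,z0,z1,z0,z2,z0],z2)],[([z1,z0,z0,y2,z2,z2],z2),([z0,z1,z0,
    z2,z0,z0],z2)],[([z1,z0,z0,z0,y2,z1],z0),([z0,z1,z0,z1,z1,z0],z2)]],
    [[([z1,z0,z0,z0,y2,z4],z2),([z0,z1,z0,z0,z2,y3],z0),([z0,z0,z1,z0,z1,y2],z0)],[([z2,z0,z0,z0,y4,y1],y2),([z0,z2,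
    z0,z0,z0,z1],z2),([z0,z0,z1,z0,z2,z0],z2)],[([z1,z0,z0,z0,z0,y4],y2),([z0,z1,z0,z0,z1,z1],z2),([z0,z0,z1,z0,z0,
    z2],z2)],[([z1,z0,z0,z0,z0,y1],z0),([z0,z1,z0,z0,z0,z2],z2),([z0,z0,z2,z0,z1,z0],z2)],[([z3,z0,z0,z0,y6,z0],y2),
    ([z0,z1,z0,z0,z2,z0],z2),([z0,z0,z3,z0,z3,z0],z4),([z0,z0,z0,z3,z0,z0],z2)],[([z3,z0,z0,z0,y6,z0],y2),([z0,z3,z0,
    z0,z0,z0],z2),([z0,z0,z1,z0,z2,z0],z2),([z0,z0,z0,z3,z3,z0],z4)],[([z3,z0,z0,z0,z0,z0],z2),([z0,z3,z0,z0,z3,y3],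
    z2),([z0,z0,z3,z0,z0,z0],z2)],[([z1,z0,z0,z0,z0,y4],y2),([z0,z1,z0,z0,z0,z2],z2),([z0,z0,z3,z0,z0,y9],y4),([z0,z0,
    z0,z3,z0,z0],z2)],[([z1,z0,z0,z0,z0,y10],y6),([z0,z1,z0,z0,z0,z2],z2),([z0,z0,z1,z0,z0,z8],z6),([z0,z0,z0,z1,z0,
    y4],y2)],[([z1,z0,z0,z0,z0,y4],y2),([z0,z3,z0,z0,z0,z3],z4),([z0,z0,z3,z0,z0,z12],z10),([z0,z0,z0,z3,z0,y6],y2)],
    [([z1,z0,z0,z0,z0,y4],y2),([z0,z1,z0,z0,z0,z2],z2),([z0,z0,z1,z0,z0,z2],z2),([z0,z0,z0,z1,z0,z5],z4)],[([z1,z0,z0,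
    z0,z0,y4],y2),([z0,z1,z0,z0,z0,z2],z2),([z0,z0,z1,z0,z0,y1],z0),([z0,z0,z0,z1,z0,z2],z2)]],
    [[([z1,z0,z0,z0,z0,y7],y4),([z0,z1,z0,z0,z0,z2],z2),([z0,z0,z1,z0,z0,z2],z2),([z0,z0,z0,z1,z0,z8],z6)],[([z1,z0,
    z0,z0,z0,y4],y2),([z0,z1,z0,z0,z0,z2],z2),([z0,z0,z1,z0,z0,y7],y4),([z0,z0,z0,z1,z0,y4],y2)],[([z2,z0,z0,z0,z0,
    y11],y6),([z0,z2,z0,z0,z0,z1],z2),([z0,z0,z1,z0,z0,y4],y2),([z0,z0,z0,z1,z0,z8],z6)],[([z6,z0,z0,z0,y9,z0],y2),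
    ([z0,z3,z0,z0,z0,z0],z2),([z0,z0,z2,z0,z1,z0],z2),([z0,z0,z0,z1,z2,z0],z2)],[([z2,z0,z0,z0,y3,y2],y2),([z0,z1,z0,
    z0,z0,z2],z2),([z0,z0,z2,z0,z1,z0],z2)],[([z1,z0,z0,z0,z0,y16],y10),([z0,z1,z0,z0,z0,y4],y2),([z0,z0,z1,z0,z0,z8],
    z6),([z0,z0,z0,z1,z0,z2],z2)],[([z1,z0,z0,z0,z0,y4],y2),([z0,z1,z0,z0,z0,y4],y2),([z0,z0,z1,z0,z0,z2],z2),([z0,z0,
    z0,z1,z0,z2],z2)],[([z1,z0,z0,z0,z0,y10],y6),([z0,z1,z0,z0,z0,y4],y2),([z0,z0,z1,z0,z0,z5],z4),([z0,z0,z0,z1,z0,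
    z2],z2)],[([z1,z0,z0,z0,z0,y4],y2),([z0,z1,z0,z0,z0,y7],y4),([z0,z0,z1,z0,z0,z2],z2),([z0,z0,z0,z1,z0,z2],z2)],
    [([z3,z0,z0,z0,z0,y6],y2),([z0,z1,z0,z0,z0,y4],y2),([z0,z0,z3,z0,z0,z3],z4),([z0,z0,z0,z1,z0,z2],z2)],[([z1,z0,z0,
    z0,z0,y16],y10),([z0,z1,z0,z0,z0,z2],z2),([z0,z0,z1,z0,z0,y4],y2),([z0,z0,z0,z1,z0,z11],z8)],[([z1,z0,z0,z0,y4,
    z0],y2),([z0,z2,z0,z0,z0,z1],z2),([z0,z0,z1,z0,z2,z0],z2)]],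
    [[([z1,z0,z0,z0,y2,y2],y2),([z0,z1,z0,z0,z2,z0],z2),([z0,z0,z1,z0,z1,z1],z2)],[([z1,z0,z0,z0,y1,z0],z0),([z0,z2,
    z0,z0,z0,z1],z2),([z0,z0,z1,z0,z2,z0],z2)],[([z3,z0,z0,z0,z0,y6],y2),([z0,z1,z0,z0,z0,z2],z2),([z0,z0,z1,z0,z0,
    y1],z0),([z0,z0,z0,z3,z0,z0],z2)],[([z3,z0,z0,z0,z0,y9],y4),([z0,z1,z0,z0,z0,z2],z2),([z0,z0,z3,z0,z0,y6],y2),
    ([z0,z0,z0,z3,z0,z0],z2)],[([z1,z0,z0,z0,z0,y4],y2),([z0,z3,z0,z0,z0,z0],z2),([z0,z0,z1,z0,z0,z2],z2),([z0,z0,z0,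
    z1,z0,z2],z2)],[([z6,z0,z0,z0,z0,y9],y2),([z0,z1,z0,z0,z0,z2],z2),([z0,z0,z6,z0,z0,y3],z2),([z0,z0,z0,z3,z0,z0],
    z2)],[([z3,z0,z0,z0,z0,y15],y8),([z0,z1,z0,z0,z0,z2],z2),([z0,z0,z1,z0,z0,y4],y2),([z0,z0,z0,z3,z0,z0],z2)],[([z3,
    z0,z0,z0,z0,y6],y2),([z0,z3,z0,z0,z0,z0],z2),([z0,z0,z3,z0,z0,z3],z4),([z0,z0,z0,z1,z0,z2],z2)],[([z6,z0,z0,z0,y6,
    y3],y2),([z0,z3,z0,z0,z0,z0],z2),([z0,z0,z3,z0,z6,z3],z8)],[([z1,z0,z0,z0,z0,y4],y2),([z0,z3,z0,z0,z0,y6],y2),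
    ([z0,z0,z3,z0,z0,z3],z4),([z0,z0,z0,z3,z0,z12],z10)],[([z1,z0,z0,z0,z0,y4],y2),([z0,z1,z0,z0,z0,y1],z0),([z0,z0,
    z1,z0,z0,z2],z2),([z0,z0,z0,z1,z0,z2],z2)],[([z1,z0,z0,z0,z0,y7],y4),([z0,z1,z0,z0,z0,z2],z2),([z0,z0,z1,z0,z0,
    y4],y2),([z0,z0,z0,z1,z0,z2],z2)]],
    [[([z1,z0,z0,z0,z0,y10],y6),([z0,z1,z0,z0,z0,y4],y2),([z0,z0,z1,z0,z0,z2],z2),([z0,z0,z0,z1,z0,z8],z6)],[([z1,z0,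
    z0,z0,z0,y4],y2),([z0,z1,z0,z0,z0,z2],z2),([z0,z0,z1,z0,z0,z5],z4),([z0,z0,z0,z1,z0,y4],y2)],[([z1,z0,z0,z0,z0,
    y4],y2),([z0,z1,z0,z0,z0,z8],z6),([z0,z0,z1,z0,z0,z11],z8),([z0,z0,z0,z1,z0,y16],y10)],[([z2,z0,z0,z0,y3,z1],z0),
    ([z0,z2,z0,z0,z0,z1],z2),([z0,z0,z1,z0,z2,z0],z2)],[([z2,z0,z0,z0,z1,z0],z2),([z0,z1,z0,z2,z0,z0],z2)],[([z1,z0,
    z0,y2,z1,z0],z0),([z0,z1,z0,z2,z0,z0],z2)],[([z1,z0,z0,z0,y1,z0],z0),([z0,z1,z0,z1,z0,z1],z2)],[([z1,z0,z0,z0,y2,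
    y2],y2),([z0,z1,z0,z1,z2,z2],z4)],[([z2,z0,z0,z0,z1,z0],z2)],[([z1,z0,z0,z0,y1,z0],z0),([z0,z2,z0,z0,z1,z0],z2),
    ([z0,z0,z1,z0,z1,z1],z2)],[([z1,z0,z0,z0,y1,z0],z0),([z0,z2,z0,z0,z1,z0],z2)],[([z1,z0,z0,z0,y2,y2],y2),([z0,z1,
    z1,z0,z2,z2],z4)]],
    [[([z2,z0,z0,z1,z0,z0],z2),([z0,z2,z0,y1,z2,z0],z2)],[([z1,z0,z0,z0,z1,z1],z2),([z0,z1,z0,z1,z0,y2],z0)],[([z1,z0,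
    z0,z0,y2,y2],y2),([z0,z1,z0,z0,z1,z1],z2),([z0,z0,z1,z0,z0,z2],z2)],[([z2,z0,z0,z0,z0,z1],z2),([z0,z2,z0,z0,z1,
    z0],z2),([z0,z0,z2,z0,y1,y1],z0)],[([z1,z0,z0,z0,y2,y2],y2),([z0,z1,z0,z0,z1,z1],z2),([z0,z0,z2,z0,z0,z1],z2)],
    [([z1,z0,z0,z0,y1,z0],z0),([z0,z1,z0,z0,z0,y1],z0),([z0,z0,z1,z0,z0,z2],z2)],[([z1,z0,z0,z0,y3,z2],z0),([z0,z1,z0,
    z0,z2,z0],z2),([z0,z0,z1,z0,z4,y2],z2)],[([z1,z0,z0,z0,z0,y4],y2),([z0,z1,z0,z0,z0,z2],z2),([z0,z0,z2,z0,z0,z1],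
    z2),([z0,z0,z0,z2,z0,y5],y2)],[([z1,z0,z0,z0,z0,y10],y6),([z0,z1,z0,z0,z0,z5],z4),([z0,z0,z1,z0,z0,z2],z2),([z0,
    z0,z0,z1,z0,z8],z6)],[([z1,z0,z0,z0,z0,y4],y2),([z0,z1,z0,z0,z0,z2],z2),([z0,z0,z2,z0,z0,z1],z2),([z0,z0,z0,z1,z0,
    y1],z0)],[([z1,z0,z0,z0,z0,y4],y2),([z0,z1,z0,z0,z0,z2],z2),([z0,z0,z2,z0,z0,z1],z2),([z0,z0,z0,z4,z0,y1],z2)],
    [([z3,z0,z0,z0,y15,z0],y8),([z0,z1,z0,z0,z2,z0],z2),([z0,z0,z1,z0,z8,z0],z6),([z0,z0,z0,z1,y4,z0],y2)]],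
    [[([z1,z0,z0,z0,y5,z1],y2),([z0,z1,z0,z0,z2,z0],z2),([z0,z0,z1,z0,z8,z0],z6)],[([z1,z0,z0,z0,z0,y4],y2),([z0,z1,
    z0,z0,z0,z5],z4),([z0,z0,z1,z0,z0,z2],z2),([z0,z0,z0,z1,z0,y4],y2)],[([z1,z0,z0,z0,z0,y4],y2),([z0,z3,z0,z0,z0,
    z3],z4),([z0,z0,z1,z0,z0,z2],z2),([z0,z0,z0,z3,z0,z12],z10)],[([z1,z0,z0,z0,z0,y4],y2),([z0,z2,z0,z0,z0,z7],z6),
    ([z0,z0,z1,z0,z0,z2],z2),([z0,z0,z0,z1,z0,y1],z0)],[([z1,z0,z0,z0,z0,y4],y2),([z0,z3,z0,z0,z0,z12],z10),([z0,z0,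
    z1,z0,z0,z2],z2),([z0,z0,z0,z3,z0,y6],y2)],[([z1,z0,z0,z0,z0,y4],y2),([z0,z1,z0,z0,z0,y10],y6),([z0,z0,z1,z0,z0,
    z5],z4),([z0,z0,z0,z1,z0,z2],z2)],[([z1,z0,z0,y1,z0,y3],y2),([z0,z1,z0,z2,z0,z6],z6),([z0,z0,z1,z0,z0,z2],z2)],
    [([z1,z0,z0,y1,y1,z1],z0),([z0,z1,z0,z0,z2,z0],z2)],[([z1,z0,z0,z0,y2,y2],y2),([z0,z1,z0,z0,z2,z0],z2),([z0,z0,z1,
    z0,z0,z2],z2)],[([z4,z0,z0,z0,z1,y2],z2),([z0,z2,z0,z0,z1,z0],z2),([z0,z0,z4,z0,z3,z2],z6)],[([z1,z0,z0,z0,z0,y1],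
    z0),([z0,z2,z0,z0,z1,z0],z2),([z0,z0,z2,z0,z1,z0],z2)],[([z1,z0,z0,z0,y2,y2],y2),([z0,z2,z0,z0,z4,z3],z6),([z0,z0,
    z2,z0,z0,z1],z2)]],
    [[([z1,z0,z0,z0,z0,y4],y2),([z0,z1,z0,z0,z0,y4],y2),([z0,z0,z1,z0,z0,z2],z2),([z0,z0,z0,z1,z0,z5],z4)],[([z1,z0,
    z0,z0,z0,y4],y2),([z0,z1,z0,z0,z0,y13],y8),([z0,z0,z1,z0,z0,z2],z2),([z0,z0,z0,z1,z0,z8],z6)],[([z2,z0,z0,z0,z0,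
    y5],y2),([z0,z2,z0,z0,z0,z1],z2),([z0,z0,z1,z0,z0,y1],z0),([z0,z0,z0,z1,z0,z5],z4)],[([z4,z0,z0,z0,z0,y7],y2),
    ([z0,z2,z0,z0,z0,z1],z2),([z0,z0,z4,z0,z0,y1],z2),([z0,z0,z0,z2,z0,z7],z6)],[([z3,z0,z0,z0,y18,z0],y10),([z0,z1,
    z0,z0,z2,z0],z2),([z0,z0,z1,z0,z2,z0],z2),([z0,z0,z0,z3,z9,z0],z8)],[([z1,z0,z0,z0,y6,z2],y2),([z0,z1,z0,z0,z2,
    z0],z2),([z0,z0,z1,z0,z2,z0],z2)],[([z1,z0,z0,z0,z0,y13],y8),([z0,z1,z0,z0,z0,z8],z6),([z0,z0,z1,z0,z0,z2],z2),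
    ([z0,z0,z0,z1,z0,z8],z6)],[([z1,z0,z0,z0,z0,y4],y2),([z0,z1,z0,z0,z0,y4],y2),([z0,z0,z1,z0,z0,z2],z2),([z0,z0,z0,
    z1,z0,z8],z6)],[([z1,z0,z0,z0,z0,y10],y6),([z0,z1,z0,z0,z0,z8],z6),([z0,z0,z1,z0,z0,z2],z2),([z0,z0,z0,z1,z0,z5],
    z4)],[([z1,z0,z0,z0,z0,y4],y2),([z0,z1,z0,z0,z0,y10],y6),([z0,z0,z1,z0,z0,z2],z2),([z0,z0,z0,z1,z0,z8],z6)],[([z3,
    z0,z0,z0,z0,y15],y8),([z0,z1,z0,z0,z0,z8],z6),([z0,z0,z1,z0,z0,z2],z2),([z0,z0,z0,z3,z0,z0],z2)],[([z2,z0,z0,z0,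
    z0,y11],y6),([z0,z1,z0,z0,z0,z8],z6),([z0,z0,z1,z0,z0,z2],z2),([z0,z0,z0,z2,z0,z1],z2)]],
    [[([z1,z0,z0,z0,z0,y4],y2),([z0,z1,z0,z0,z0,y16],y10),([z0,z0,z1,z0,z0,z2],z2),([z0,z0,z0,z1,z0,z8],z6)],[([z1,z0,
    z0,z0,z0,y4],y2),([z0,z1,z0,z0,z1,y5],y2),([z0,z0,z1,z0,z0,z2],z2)],[([z5,z0,z0,z0,z0,z1],z4),([z0,z5,z0,z0,z0,
    y2],z2),([z0,z0,z5,z0,z0,z4],z6),([z0,z0,z0,z5,z0,y2],z2)],[([z8,z0,z0,z0,z0,z1],z6),([z0,z4,z0,z0,z0,y1],z2),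
    ([z0,z0,z8,z0,z0,z7],z10),([z0,z0,z0,z4,z0,y1],z2)],[([z8,z0,z0,z0,z0,z1],z6),([z0,z8,z0,z0,z0,y5],z2),([z0,z0,z2,
    z0,z0,z1],z2),([z0,z0,z0,z4,z0,y1],z2)],[([z3,z0,z0,z0,z0,y9],y4),([z0,z1,z0,z0,z0,y4],y2),([z0,z0,z1,z0,z0,z2],
    z2),([z0,z0,z0,z3,z0,z18],z14)],[([z1,z0,z0,z0,z0,y4],y2),([z0,z3,z0,z0,z0,y6],y2),([z0,z0,z3,z0,z0,z12],z10),
    ([z0,z0,z0,z1,z0,z2],z2)],[([z1,z0,z0,z0,y4,z0],y2),([z0,z1,z0,z0,z2,z0],z2),([z0,z0,z1,z0,z0,z2],z2)],[([z2,z0,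
    z0,z1,z0,z0],z2),([z0,z2,z0,z0,z1,z0],z2)],[([z1,z0,z0,z0,y1,z0],z0),([z0,z2,z0,z0,z0,z1],z2),([z0,z0,z2,z0,z0,
    z1],z2)],[([z1,z0,z0,z0,y2,y2],y2),([z0,z2,z0,z0,z1,z0],z2),([z0,z0,z1,z0,z1,z1],z2)],[([z1,z0,z0,z0,y2,y2],y2),
    ([z0,z2,z0,z0,z3,z4],z6),([z0,z0,z2,z0,z1,z0],z2)]],
    [[([z1,z0,z0,z0,z0,y10],y6),([z0,z1,z0,z0,z0,z2],z2),([z0,z0,z1,z0,z0,z5],z4),([z0,z0,z0,z1,z0,z8],z6)],[([z1,z0,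
    z0,z0,z0,y4],y2),([z0,z2,z0,z0,z0,z1],z2),([z0,z0,z2,z0,z0,y5],y2),([z0,z0,z0,z1,z0,z2],z2)],[([z1,z0,z0,z0,z0,
    y4],y2),([z0,z1,z0,z0,z0,y1],z0),([z0,z0,z1,z0,z0,y4],y2),([z0,z0,z0,z1,z0,z2],z2)],[([z1,z0,z0,z0,z0,y16],y10),
    ([z0,z1,z0,z0,z0,z2],z2),([z0,z0,z1,z0,z0,z8],z6),([z0,z0,z0,z1,z0,z11],z8)],[([z6,z0,z0,z0,y9,z0],y2),([z0,z1,z0,
    z0,z2,z0],z2),([z0,z0,z2,z0,z1,z0],z2),([z0,z0,z0,z3,z0,z0],z2)],[([z2,z0,z0,z0,y3,y2],y2),([z0,z1,z0,z0,z2,z0],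
    z2),([z0,z0,z2,z0,z1,z0],z2)],[([z2,z0,z0,y2,y1,y2],y2),([z0,z2,z0,z0,z1,z0],z2)],[([z1,z0,z0,z0,y2,y2],y2),([z0,
    z1,z0,z0,y2,y2],y2),([z0,z0,z1,z0,z4,z4],z6)],[([z1,z0,z0,z0,z0,y4],y2),([z0,z1,z0,z1,z0,z4],z4),([z0,z0,z1,z0,z0,
    z2],z2)],[([z1,z0,z0,z0,y2,z1],z0),([z0,z1,z0,z0,z2,z0],z2),([z0,z0,z1,z0,z5,z0],z4)],[([z1,z0,z0,z0,z0,y4],y2),
    ([z0,z1,z0,z0,z1,y2],z0),([z0,z0,z1,z0,z0,z2],z2)],[([z2,z0,z0,z0,y5,z0],y2),([z0,z2,z0,z0,z1,z0],z2),([z0,z0,z1,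
    z0,z2,z0],z2)]],
    [[([z1,z0,z0,z0,z0,y7],y4),([z0,z1,z0,z0,z0,z2],z2),([z0,z0,z2,z0,z0,z1],z2),([z0,z0,z0,z1,z0,z2],z2)],[([z1,z0,
    z0,z0,z0,y4],y2),([z0,z1,z0,z0,z0,y13],y8),([z0,z0,z1,z0,z0,z8],z6),([z0,z0,z0,z1,z0,z2],z2)],[([z1,z0,z0,z0,z0,
    y4],y2),([z0,z1,z0,z1,z0,z7],z6),([z0,z0,z1,z0,z0,z2],z2)],[([z1,z0,z0,z0,z0,y4],y2),([z0,z1,z0,z1,z1,z3],z4)],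
    [([z1,z0,z0,z0,z1,y2],z0),([z0,z1,z0,z1,z0,z1],z2)],[([z2,z0,z0,z1,z0,z0],z2)],[([z1,z0,z1,z0,z1,z0],z2)],[]]]

/-- symmetries -/
noncomputable def hS6_171 : List (Bool × ℕ × List ℕ) :=
  [(false,k0,[k0,k1,k2,k3,k4,k5]),(true,k2,[k2,k1,k0,k5,k4,k3]),(true,k3,[k3,k2,k1,k0,k5,k4]),(false,k3,[k3,k4,k5,k0,
    k1,k2]),(true,k4,[k4,k3,k2,k1,k0,k5]),(false,k2,[k2,k3,k4,k5,k0,k1]),(false,k1,[k1,k2,k3,k4,k5,k0]),(false,k5,[k5,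
    k0,k1,k2,k3,k4]),(false,k4,[k4,k5,k0,k1,k2,k3]),(true,k5,[k5,k4,k3,k2,k1,k0]),(true,k1,[k1,k0,k5,k4,k3,k2]),(true,
    k0,[k0,k5,k4,k3,k2,k1])]

end Pool.Agent.Lib_MP_fa6e45
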