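import Pool.Agent.Lib_MP_fa6e45.CSTT
import Pool.Agent.Lib_MP_fa6e45.HK

/-!
MP_fa6e45_co, stage 5: certificates (captain, generated by a program).
-/

namespace Pool.Agent.Lib_MP_fa6e45

/-- classes `0 0 0`, types `C0 C0 C0` -/
noncomputable def cT3_0 : CertT :=
  ⟨[k4,k4,k4],[],[[[]]],
    [.leafM k0 [k0,k1,k2] [] []]⟩

/-- classes `0 0 0`, types `C0 C0 C2` -/
noncomputable def cT3_1 : CertT :=
  ⟨[k4,k4,k6],[],[[[]]],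
    [.leafM k0 [k0,k1,k2] [] []]⟩

/-- classes `0 0 1`, types `B0 B1 C0` -/
noncomputable def cT3_2 : CertT :=
  ⟨[k8,k9,k20],[],[[[]]],
    [.leafM k1 [k2,k0,k1] [] []]⟩

/-- classes `0 0 1`, types `B0 B1 S0` -/
noncomputable def cT3_3 : CertT :=
  ⟨[k8,k9,k16],[],[[[]]],
    [.leafM k1 [k2,k0,k1] [] []]⟩

/-- classes `0 0 1`, types `C0 C0 C0` -/
noncomputable def cT3_4 : CertT :=
  ⟨[k4,k4,k20],[],[[[]]],
    [.leafM k0 [k0,k1,k2] [] []]⟩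

/-- classes `0 0 1`, types `C0 C0 S0` -/
noncomputable def cT3_5 : CertT :=
  ⟨[k4,k4,k16],[],[[[]]],
    [.leafM k0 [k0,k1,k2] [] []]⟩

/-- classes `0 0 1`, types `C0 C2 C0` -/
noncomputable def cT3_6 : CertT :=
  ⟨[k4,k6,k20],[],[[[]]],
    [.leafM k0 [k0,k1,k2] [] []]⟩

/-- classes `0 0 1`, types `C0 C2 S0` -/
noncomputable def cT3_7 : CertT :=
  ⟨[k4,k6,k16],[],[[[]]],
    [.leafM k0 [k0,k1,k2] [] []]⟩

/-- classes `0 0 1`, types `N0 N1 C0` -/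
noncomputable def cT3_8 : CertT :=
  ⟨[k12,k13,k20],[(false,k0,[k0,k1,k2])],[[[([z3,z0,z3],z2)],[([z3,z0,z3],z1)],[([z2,z0,z2],z1)],[]]],
    [.leafM k4 [k0,k1,k2] [(z1,[y1,z3]),(z1,[z1])] [],
    .leafM k2 [k0,k1,k2] [(z1,[y1,z3]),(z1,[z1])] [],
    .leafM k3 [k0,k1,k2] [(z1,[y1,z2]),(z1,[z1])] [],
    .lp [k20,k14,k0] [k0,k0,k3,k3,k10,k10] k0 [] k70 k8
    [[(k4,k10)],[(k5,k10)],[(k2,k14)],[(k3,k14)],[(k0,k10)],[(k1,k10)]]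
    [] k0
    [[k2,k0,k2],[k3,k0,k3],[k0,k3,k0],[k0,k4,k0]]
    [.contra [y1,z2],.ref k0 k0 [(z1,[z1])],.ref k1 k0 [(z1,[y1,z3])],.ref k2 k0 [(z2,[y1,z4])]]]⟩

/-- classes `0 0 1`, types `N0 N1 S0` -/
noncomputable def cT3_9 : CertT :=
  ⟨[k12,k13,k16],[(false,k0,[k0,k1,k2])],[[[([z3,z0,z3],z2)],[([z3,z0,z3],z1)],[([z2,z0,z2],z1)],[]]],
    [.leafM k4 [k0,k1,k2] [(z1,[y1,z3]),(z1,[z1])] [],
    .leafM k2 [k0,k1,k2] [(z1,[y1,z3]),(z1,[z1])] [],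
    .leafM k3 [k0,k1,k2] [(z1,[y1,z2]),(z1,[z1])] [],
    .lp [k10,k14,k10] [k2,k2,k0,k0,k2,k2] k0 [] k70 k8
    [[(k1,k10),(k4,k10)],[(k5,k10)],[(k2,k14)],[(k3,k14)],[(k0,k10)],[(k1,k10),(k4,k10)]]
    [] k0
    [[k3,k0,k3],[k2,k0,k2],[k0,k3,k0],[k0,k4,k0]]
    [.ref k0 k0 [(z1,[z1])],.contra [y1,z2],.ref k1 k0 [(z1,[y1,z3])],.ref k2 k0 [(z2,[y1,z4])]]]⟩

/-- classes `0 0 1`, types `N0 N2 C0` -/
noncomputable def cT3_10 : CertT :=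
  ⟨[k12,k14,k20],[],[[[]]],
    [.leafM k1 [k2,k0,k1] [] []]⟩

/-- classes `0 0 1`, types `N0 N2 S0` -/
noncomputable def cT3_11 : CertT :=
  ⟨[k12,k14,k16],[],[[[]]],
    [.leafM k1 [k2,k0,k1] [] []]⟩

/-- classes `0 0 1`, types `S0 S0 C0` -/
noncomputable def cT3_12 : CertT :=
  ⟨[k0,k0,k20],[],[[[]]],
    [.leafM k0 [k0,k1,k2] [] []]⟩

/-- classes `0 1 2`, types `C0 C0 C0` -/
noncomputable def cT3_13 : CertT :=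
  ⟨[k4,k20,k36],[],[[[]]],
    [.leafM k0 [k0,k1,k2] [] []]⟩

/-- classes `0 1 2`, types `C0 C0 S0` -/
noncomputable def cT3_14 : CertT :=
  ⟨[k4,k20,k32],[],[[[]]],
    [.leafM k0 [k0,k1,k2] [] []]⟩

/-- classes `0 1 2`, types `C0 S0 S0` -/
noncomputable def cT3_15 : CertT :=
  ⟨[k4,k16,k32],[],[[[]]],
    [.leafM k0 [k0,k1,k2] [] []]⟩

/-- the certificates of this file -/
noncomputable def lT3_0 : List CertT :=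
  [cT3_0, cT3_1, cT3_2, cT3_3, cT3_4, cT3_5, cT3_6, cT3_7, cT3_8, cT3_9, cT3_10, cT3_11, cT3_12, cT3_13,
      cT3_14, cT3_15]

theorem gT3_0 : allF (chkC 3 tt3) lT3_0 = true := by
  decide +kernel

end Pool.Agent.Lib_MP_fa6e45
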