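import Pool.Agent.Lib_MP_fa6e45.CSTT
import Pool.Agent.Lib_MP_fa6e45.HK

/-!
MP_fa6e45_co, stage 5: certificates (captain, generated by a program).
-/

namespace Pool.Agent.Lib_MP_fa6e45

/-- classes `0 0 0 0`, types `B0 B0 B1 B1` -/
noncomputable def cT4_0 : CertT :=
  ⟨[k8,k8,k9,k9],[],[[[]]],
    [.leafM k3 [k1,k2,k3,k0] [] []]⟩

/-- classes `0 0 0 0`, types `B0 B1 B0 B1` -/
noncomputable def cT4_1 : CertT :=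
  ⟨[k8,k9,k8,k9],[],[[[]]],
    [.leafM k3 [k0,k1,k2,k3] [] []]⟩

/-- classes `0 0 0 0`, types `C0 C0 C0 C0` -/
noncomputable def cT4_2 : CertT :=
  ⟨[k4,k4,k4,k4],[],[[[]]],
    [.leafM k0 [k0,k1,k2,k3] [] []]⟩

/-- classes `0 0 0 0`, types `C0 C0 C0 C2` -/
noncomputable def cT4_3 : CertT :=
  ⟨[k4,k4,k4,k6],[],[[[]]],
    [.leafM k0 [k0,k1,k2,k3] [] []]⟩

/-- classes `0 0 0 0`, types `C0 C0 C2 C2` -/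
noncomputable def cT4_4 : CertT :=
  ⟨[k4,k4,k6,k6],[],[[[]]],
    [.leafM k0 [k0,k1,k2,k3] [] []]⟩

/-- classes `0 0 0 0`, types `C0 C2 C0 C2` -/
noncomputable def cT4_5 : CertT :=
  ⟨[k4,k6,k4,k6],[],[[[]]],
    [.leafM k0 [k0,k1,k2,k3] [] []]⟩

/-- classes `0 0 0 0`, types `N0 N0 N1 N1` -/
noncomputable def cT4_6 : CertT :=
  ⟨[k12,k12,k13,k13],[],[[[]]],
    [.leafM k5 [k0,k1,k2,k3] [] []]⟩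

/-- classes `0 0 0 0`, types `N0 N0 N1 N2` -/
noncomputable def cT4_7 : CertT :=
  ⟨[k12,k12,k13,k14],[],[[[]]],
    [.leafM k6 [k0,k1,k2,k3] [] []]⟩

/-- classes `0 0 0 0`, types `N0 N0 N2 N2` -/
noncomputable def cT4_8 : CertT :=
  ⟨[k12,k12,k14,k14],[],[[[]]],
    [.leafM k3 [k1,k2,k3,k0] [] []]⟩

/-- classes `0 0 0 0`, types `N0 N1 N0 N1` -/
noncomputable def cT4_9 : CertT :=
  ⟨[k12,k13,k12,k13],[(true,k2,[k2,k1,k0,k3]),(false,k0,[k0,k1,k2,k3]),(true,k3,[k3,k2,k1,k0]),(false,k2,[k2,k3,k0,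
    k1]),(false,k3,[k3,k0,k1,k2]),(false,k1,[k1,k2,k3,k0])],[[[([z3,z0,z0,z0],z2),([z0,z3,z0,z3],z2)],[([z3,z0,z0,y3],
    y2),([z0,z1,z0,z2],z2)],[([z1,z0,z0,y4],y2),([z0,z1,z0,z3],z2)],[([z1,z0,z0,y3],y2),([z0,z1,z0,z2],z2)],[([z6,z0,
    z0,z0],z1),([z0,z3,z0,z0],z1),([z0,z0,z3,z0],z2)],[([z5,z0,z0,z0],z1),([z0,z5,z0,z0],z2),([z0,z0,z5,z0],z3)],
    [([z3,z0,z0,z0],z1),([z0,z3,z0,z0],z2),([z0,z0,z3,z0],z1)],[([z4,z0,z0,z0],z1),([z0,z2,z0,z0],z1),([z0,z0,z2,z0],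
    z1)],[([z1,z0,z0,y2],y1),([z0,z1,z0,z2],z2)],[([z1,z0,z0,y6],y2),([z0,z1,z0,z4],z2)],[([z2,z0,z0,y2],y1),([z0,z1,
    z0,z2],z2)],[([z2,z0,z1,z0],z2)]],[[([z1,z0,z1,z0],z1)],[([z2,z0,z0,z0],z1),([z0,z1,z0,z1],z1)],[([z5,z0,z0,z0],
    z2),([z0,z5,z0,z5],z4)],[([z3,z0,z0,y6],y2),([z0,z1,z0,z3],z2)],[([z9,z0,z0,z0],z4),([z0,z9,z0,z9],z8)],[([z3,z0,
    z1,z0],z2)],[([z3,z0,z0,z0],z1),([z0,z1,z0,z1],z1)],[([z3,z0,z0,z0],z2),([z0,z3,z0,z0],z2)],[([z3,z0,z0,z0],z2)],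
    []]],
    [.leafM k10 [k1,k2,k3,k0] [(z1,[y1,y1,z3]),(z1,[z1]),(z1,[z0,z1])] [],
    .geo z3 k3 [(y2,z3),(z6,y6),(z2,z0),(z0,z3)] [(z1,[z1]),(z1,[z0,z3]),(z1,[y1,y3,z3]),(z1,[])] k5,
    .geo z1 k3 [(y2,z4),(z2,y3),(z2,y2),(z0,z1)] [(z1,[z1]),(z1,[z0,z1]),(z1,[y1,y1,z1]),(z1,[])] k7,
    .geo z1 k3 [(y2,z3),(z2,y2),(z2,y2),(z0,z1)] [(z1,[z1]),(z1,[z0,z1]),(z1,[y1,y1,z1]),(z1,[])] k7,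
    .geo z6 k0 [(z1,z0),(z2,z0),(z4,z0),(z5,z0)] [(z1,[z1]),(z1,[z0,z2]),(z1,[z0,z0,z2]),(z1,[y1,y2,y2,z6])] k1,
    .tor k2 true k2 [(z5,[y2,y1,y2,z10]),(z5,[y1,z2,y1,z5]),(z5,[z4,z0,z2]),(z5,[z1,z0,z3])],
    .leafM k10 [k0,k1,k2,k3] [(z1,[z0,z1]),(z1,[y1,y1,y1,z3]),(z1,[z1,z0,z1])] [],
    .geo z4 k0 [(z1,z0),(z2,z0),(z2,z0),(z3,z0)] [(z1,[z1]),(z1,[z0,z2]),(z1,[z0,z0,z2]),(z1,[y1,y2,y2,z4])] k1,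
    .lp [(nat_lit 1302),(nat_lit 868),(nat_lit 672),(nat_lit 2356)] [(nat_lit 527),(nat_lit 527),(nat_lit 744),
    (nat_lit 744),(nat_lit 842),(nat_lit 842),k0,k0] k0 [[],[],[k0,k0,k0,k0,(nat_lit 372)],[],[],[k0,k0,k0,
    (nat_lit 372)]] (nat_lit 5208) k7
    [[(k4,(nat_lit 987)),(k0,(nat_lit 1302))],[(k5,(nat_lit 987)),(k1,(nat_lit 1302))],[(k2,(nat_lit 868)),(k6,
    (nat_lit 1612))],[(k3,(nat_lit 868)),(k7,(nat_lit 1240))],[(k0,(nat_lit 987)),(k4,(nat_lit 1044))],[(k1,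
    (nat_lit 987)),(k5,(nat_lit 1044))],[(k2,(nat_lit 1240)),(k6,(nat_lit 2356))],[(k3,(nat_lit 1612)),(k7,
    (nat_lit 2356))]]
    [] k0
    [[k3,k0,k0,k0],[k3,k0,k1,k0],[k2,k0,k1,k0],[k2,k0,k2,k0],[k2,k0,k3,k0],[k1,k0,k2,k0],[k1,k0,k3,k0],[k1,k0,k4,k0],
    [k0,k3,k0,k0],[k0,k4,k0,k0],[k0,k5,k0,k0],[k0,k3,k0,k1],[k0,k2,k0,k1],[k0,k0,k3,k0],[k0,k0,k4,k0]]
    [.ref k4 k0 [(z1,[y1,y3,y6,z6]),(z1,[y1,z3,z3]),(z1,[z1])],.ref k5 k0 [(z1,[y1,y3,y6,z6]),(z1,[y2,z4,z3,z2]),(z1,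
    [z2,z1,z2,y2])],.contra [z2,z1,z2,y2],.contra [z1,z1,z2,y2],.contra [z2,z3,z6,y6],.contra [y1,z0,y1,z2],
    .contra [z1,z1,z2,y2],.contra [z1,z3,z5,y4],.ref k6 k1 [(z1,[y1,z3,z3]),(z1,[z1]),(z2,[z1,y6,y9,z6])],
    .ref k7 k0 [(z2,[z1,y8,y12,z8]),(z2,[z1]),(z2,[y1,z4,z4])],.ref k5 k0 [(z2,[z1,y10,y15,z10]),(z1,[z1]),(z1,[y1,z5,
    z5])],.ref k5 k0 [(z1,[z1,y5,y8,z5]),(z1,[z2,z0,y1]),(z1,[y2,z5,z6])],.ref k6 k1 [(z1,[y2,z3,z4]),(z1,[z2,z0,y1]),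
    (z1,[z1,y3,y5,z3])],.contra [y2,y2,y5,z6],.contra [z1,z4,z6,y4]],
    .geo z1 k3 [(y2,z6),(z2,y4),(z2,y3),(z0,z1)] [(z1,[z1]),(z1,[z0,z1]),(z1,[y1,y1,z1]),(z1,[])] k8,
    .geo z2 k3 [(y1,z2),(z4,y4),(z1,z0),(z0,z2)] [(z1,[z1]),(z1,[z0,z2]),(z1,[y1,y2,z2]),(z1,[])] k6,
    .lp [(nat_lit 1526),(nat_lit 840),(nat_lit 820),k160] [k0,k0,(nat_lit 343),(nat_lit 343),(nat_lit 353),(nat_lit 353),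
    (nat_lit 683),(nat_lit 683)] k0 [[],[],[k0,k0,k0,k0,k20],[],[k0,k0,k0,k0,k0,k0,(nat_lit 512)],[k0,k0,k0,k20],[],
    [k0,k0,k0,k0,k0,(nat_lit 512)]] (nat_lit 3360) k8
    [[(k4,(nat_lit 661)),(k0,(nat_lit 1526))],[(k5,(nat_lit 1173)),(k1,(nat_lit 1526))],[(k6,(nat_lit 500)),(k2,
    (nat_lit 840))],[(k7,(nat_lit 480)),(k3,(nat_lit 840))],[(k4,(nat_lit 840)),(k0,(nat_lit 1173))],[(k1,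
    (nat_lit 661)),(k5,(nat_lit 840))],[(k2,(nat_lit 480)),(k6,(nat_lit 672))],[(k3,(nat_lit 500)),(k7,
    (nat_lit 672))]]
    [] k0
    [[k1,k0,k2,k0],[k0,k3,k0,k0],[k0,k3,k0,k1],[k0,k3,k0,k2],[k0,k2,k0,k1],[k0,k2,k0,k2],[k0,k2,k0,k3],[k0,k3,k0,k3],
    [k0,k2,k0,k4],[k0,k1,k0,k2],[k0,k1,k0,k3],[k0,k1,k0,k4],[k0,k0,k3,k0],[k0,k0,k0,k3],[k0,k0,k0,k4]]
    [.ref k0 k1 [(z1,[y1,z2]),(z1,[y1,y1,z3])],.ref k1 k2 [(z1,[y1,y3,z3]),(z1,[z0,z1])],.ref k2 k3 [(z1,[y2,y1,z2]),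
    (z1,[z1])],.ref k3 k2 [(z1,[y1,y3,z3]),(z1,[z0,z1])],.contra [y1,y1,z2],.contra [z1,z2,y2],.ref k3 k4 [(z1,[y1,y3,
    z3]),(z1,[z0,z1])],.ref k0 k1 [(z1,[z1,z3,y3]),(z1,[z1])],.ref k8 k4 [(z2,[y1,y4,z4]),(z1,[z0,z1])],.contra [y1,
    y1,z2],.ref k2 k0 [(z1,[y2,y1,z2]),(z1,[z1])],.ref k9 k0 [(z1,[y2,y1,z2]),(z1,[z1])],.ref k0 k1 [(z2,[y1,z3]),(z2,
    [y1,y3,z6])],.ref k1 k4 [(z1,[y1,y3,z3]),(z1,[z0,z1])],.ref k10 k4 [(z2,[y1,y4,z4]),(z1,[z0,z1])]],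
    .tor k0 false k0 [(z1,[y2,z2]),(z1,[z2])],
    .leafM k12 [k1,k2,k3,k0] [(z1,[y1,y2,z2]),(z1,[z1]),(z1,[z0,z1])] [],
    .geo z5 k3 [(z2,z0),(z4,y5),(z4,z0),(z0,z5)] [(z1,[z1]),(z1,[z0,z1]),(z1,[y1,y1,z5]),(z1,[])] k5,
    .geo z3 k3 [(y2,z6),(z6,y9),(z2,z0),(z0,z3)] [(z1,[z1]),(z1,[z0,z3]),(z1,[y1,y3,z3]),(z1,[])] k7,
    .geo z9 k3 [(z4,z0),(z8,y9),(z6,z0),(z0,z9)] [(z1,[z1]),(z1,[z0,z1]),(z1,[y1,y1,z9]),(z1,[])] k5,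
    .lp [k120,k102,k48,k136] [k8,k8,k17,k17,k44,k44,k0,k0] k0 [[],[],[k0,k0,k0,k0,k34],[],[],[k0,k0,k0,
    k34]] (nat_lit 408) k6
    [[(k4,k84),(k0,k120)],[(k5,k84),(k1,k120)],[(k2,k102),(k6,k119)],[(k7,k85),(k3,k102)],[(k4,k82),(k0,k84)],[(k5,
    k82),(k1,k84)],[(k2,k85),(k6,k136)],[(k3,k119),(k7,k136)]]
    [] k0
    [[k3,k0,k0,k0],[k2,k0,k1,k0],[k2,k0,k2,k0],[k1,k0,k2,k0],[k1,k0,k3,k0],[k0,k3,k0,k0],[k0,k2,k0,k1],[k0,k1,k0,k2],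
    [k0,k0,k3,k0],[k0,k0,k4,k0]]
    [.contra [y1,z1],.contra [y1,z1],.ref k13 k1 [(z2,[y1,z2]),(z2,[y1,z0,z2])],.ref k14 k1 [(z1,[y1,z2]),(z1,[y2,y1,
    z5])],.ref k13 k1 [(z4,[y1,z3]),(z4,[y1,y1,z4])],.ref k15 k2 [(z1,[y1,y3,z3]),(z1,[z0,z1])],.ref k2 k2 [(z1,[y1,
    y2,z2]),(z1,[z0,z1])],.ref k2 k4 [(z1,[y1,y2,z2]),(z1,[z0,z1])],.ref k16 k1 [(z1,[y1,z3]),(z1,[y2,y3,z9])],
    .ref k13 k1 [(z6,[y1,z4]),(z6,[y1,y2,z6])]],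
    .leafM k11 [k1,k2,k3,k0] [(z1,[y1,y3,z3]),(z1,[z1]),(z1,[z0,z1])] [],
    .geo z3 k3 [(z2,z0),(z2,z0),(z2,y3),(z0,z3)] [(z1,[z1]),(z1,[z0,z1]),(z1,[y1,y1,z3]),(z1,[])] k3,
    .lp [k160,k82,k116,k118] [k0,k0,k39,k39,k22,k22,k21,k21] k0 [[k0,k0,k38],[],[k0,k0,k0,k0,k4],[k0,k38],[k0,k0,k0,k0,k0,
    k0,k42],[k0,k0,k0,k4],[],[k0,k0,k0,k0,k0,k42]] (nat_lit 480) k6
    [[(k4,k96),(k0,k160)],[(k5,k100),(k1,k160)],[(k6,k100),(k2,k120)],[(k7,k96),(k3,k120)],[(k0,k100),(k4,k120)],[(k1,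
    k96),(k5,k120)],[(k2,k96),(k6,k160)],[(k3,k100),(k7,k160)]]
    [] k0
    [[k2,k0,k1,k0],[k2,k0,k2,k0],[k1,k0,k2,k0],[k1,k0,k3,k0],[k0,k3,k0,k0],[k0,k3,k0,k1],[k0,k2,k0,k1],[k0,k2,k0,k2],
    [k0,k1,k0,k2],[k0,k0,k3,k0]]
    [.ref k0 k1 [(z1,[z0,z1]),(z1,[y3,z1,z3])],.ref k18 k3 [(z2,[z3,y2]),(z2,[y1,z0,z2])],.ref k0 k1 [(z1,[z0,z1]),
    (z2,[y3,y1,z6])],.ref k16 k3 [(z1,[z3,y1]),(z1,[y3,y2,z9])],.ref k19 k1 [(z1,[z0,z1]),(z1,[z1])],.ref k15 k3 [(z1,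
    [y3,y1,z3]),(z1,[z1])],.ref k1 k3 [(z1,[y3,y1,z3]),(z1,[z1])],.ref k18 k3 [(z2,[y3,y2,z6]),(z2,[z1])],
    .ref k1 k0 [(z1,[y3,y1,z3]),(z1,[z1])],.ref k0 k1 [(z1,[z0,z1]),(z1,[y1,y1,z3])]],
    .lp [k160,k82,k116,k118] [k0,k0,k39,k39,k22,k22,k21,k21] k0 [[k0,k0,k38],[],[k0,k0,k0,k0,k4],[k0,k38],[k0,k0,k0,k0,k0,
    k0,k42],[k0,k0,k0,k4],[],[k0,k0,k0,k0,k0,k42]] (nat_lit 480) k6
    [[(k4,k96),(k0,k160)],[(k5,k100),(k1,k160)],[(k6,k100),(k2,k120)],[(k7,k96),(k3,k120)],[(k0,k100),(k4,k120)],[(k1,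
    k96),(k5,k120)],[(k2,k96),(k6,k160)],[(k3,k100),(k7,k160)]]
    [] k0
    [[k2,k0,k1,k0],[k2,k0,k2,k0],[k1,k0,k2,k0],[k1,k0,k3,k0],[k0,k3,k0,k0],[k0,k3,k0,k1],[k0,k2,k0,k1],[k0,k2,k0,k2],
    [k0,k1,k0,k2],[k0,k0,k3,k0]]
    [.ref k11 k1 [(z1,[z1])],.ref k12 k1 [(z2,[z1])],.ref k11 k3 [(z1,[z1])],.ref k17 k3 [(z1,[z1])],.ref k20 k4 [(z1,
    [z1])],.ref k17 k4 [(z1,[z1])],.ref k11 k4 [(z1,[z1])],.ref k12 k1 [(z2,[y1,z2])],.ref k11 k5 [(z1,[z1])],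
    .ref k20 k3 [(z1,[z1])]]]⟩

/-- classes `0 0 0 0`, types `N0 N1 N0 N2` -/
noncomputable def cT4_10 : CertT :=
  ⟨[k12,k13,k12,k14],[(false,k0,[k0,k1,k2,k3]),(true,k3,[k3,k2,k1,k0])],[[[([z1,z0,z0,z1],z1),([z0,z2,z0,z0],z1)],
    [([z1,z0,z0,z1],z1),([z0,z3,z0,z0],z1)],[([z1,z0,z0,z1],z1)],[([z1,z0,z2,z1],z2)],[([z3,z0,z0,z3],z2),([z0,z3,z0,
    z0],z2)],[([z3,z0,z3,z3],z4)],[]]],
    [.tor k1 false k0 [(z1,[y1,y1,z2]),(z1,[z1,z1])],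
    .tor k3 true k3 [(z1,[z0,z2]),(z1,[y3,y1,z3]),(z1,[z0,z0,z1]),(z1,[z2])],
    .lp [k40,k30,k24,k24] [k0,k0,k5,k5,k8,k8,k8,k8] k0 [[k0,k0,k0,k0,k0,k0,k0,k2],[],[],[],[],[],[k0,k2]] k120 k6
    [[(k7,k32),(k3,k37)],[(k6,k30),(k5,k32)],[(k2,k30),(k1,k37)],[(k7,k27),(k3,k30)],[(k4,k24),(k0,k32)],[(k5,k24),
    (k6,k24)],[(k2,k27),(k1,k32)],[(k4,k24),(k0,k30)]]
    [] k0
    [[k1,k1,k0,k1],[k1,k0,k1,k1],[k1,k0,k2,k1],[k0,k3,k0,k0],[k0,k0,k3,k0],[k0,k0,k4,k0]]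
    [.contra [z1,y1],.contra [z1,y1],.ref k0 k0 [(z1,[z0,z1]),(z1,[y1,y1,z2])],.ref k1 k1 [(z1,[z0,z1]),(z1,[y1,y3,
    z3])],.ref k1 k0 [(z1,[z0,z1]),(z1,[y1,y3,z3])],.ref k0 k0 [(z1,[z0,z1]),(z2,[y1,y4,z4])]],
    .tor k1 false k0 [(z1,[z1]),(z1,[y1,z2])],
    .tor k1 false k0 [(z3,[y1,y2,z6]),(z3,[z1,z2])],
    .lp [k126,k160,k120,k72] [k17,k17,k0,k0,k20,k20,k44,k44] k0 [[k0,k0,k0,k0,k0,k0,k0,k2],[],[],[],[],[],[k0,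
    k2]] (nat_lit 480) k6
    [[(k7,k99),(k3,k145)],[(k6,k97),(k5,k123)],[(k1,k145),(k2,k160)],[(k7,k116),(k3,k160)],[(k4,k120),(k0,k123)],[(k6,
    k96),(k5,k120)],[(k1,k99),(k2,k116)],[(k4,k96),(k0,k97)]]
    [] k0
    [[k1,k1,k0,k1],[k2,k0,k0,k2],[k1,k0,k1,k1],[k1,k0,k2,k1],[k0,k0,k3,k0]]
    [.contra [y1,z0,z1],.ref k1 k1 [(z2,[z1]),(z2,[y3,z2])],.contra [z1,y1,z2],.ref k4 k0 [(z1,[y3,z2]),(z1,[z0,y1,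
    z3])],.ref k4 k0 [(z1,[y1,z1]),(z1,[z0,y1,z3])]],
    .lp [k126,k160,k120,k72] [k17,k17,k0,k0,k20,k20,k44,k44] k0 [[k0,k0,k0,k0,k0,k0,k0,k2],[],[],[],[],[],[k0,
    k2]] (nat_lit 480) k6
    [[(k7,k99),(k3,k145)],[(k6,k97),(k5,k123)],[(k1,k145),(k2,k160)],[(k7,k116),(k3,k160)],[(k4,k120),(k0,k123)],[(k6,
    k96),(k5,k120)],[(k1,k99),(k2,k116)],[(k4,k96),(k0,k97)]]
    [] k0
    [[k1,k1,k0,k1],[k2,k0,k0,k2],[k1,k0,k1,k1],[k1,k0,k2,k1],[k0,k0,k3,k0]]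
    [.contra [y1,z1],.ref k2 k0 [(z2,[z1])],.contra [y1,z1],.ref k3 k0 [(z1,[z1])],.ref k5 k1 [(z1,[y1,z3])]]]⟩

/-- classes `0 0 0 0`, types `N0 N1 N2 N3` -/
noncomputable def cT4_11 : CertT :=
  ⟨[k12,k13,k14,k15],[(false,k2,[k2,k3,k0,k1]),(false,k0,[k0,k1,k2,k3])],[[[([z1,z0,z1,z0],z1)],[([z1,z0,z1,z0],z1),
    ([z0,z3,z0,z0],z1)],[([z3,z0,z3,z0],z2),([z0,z3,z0,z0],z2)],[([z3,z0,z3,z3],z4)],[([z1,z0,z1,y1],z0)],[]]],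
    [.leafM k7 [k0,k1,k2,k3] [(z1,[y1,z1])] [],
    .leafM k7 [k0,k1,k2,k3] [(z1,[y1,z0,z1])] [],
    .leafM k10 [k0,k1,k2,k3] [(z1,[z0,z1]),(z1,[y1,y1,z3]),(z1,[z1])] [],
    .lp [k48,k40,k0,k30] [k0,k0,k4,k4,k24,k24,k9,k9] k0 [] k120 k6
    [[(k4,k24),(k5,k24)],[(k4,k24),(k5,k24)],[(k7,k35),(k2,k40)],[(k6,k35),(k3,k40)],[(k0,k24),(k1,k24)],[(k0,k24),
    (k1,k24)],[(k6,k30),(k3,k35)],[(k7,k30),(k2,k35)]]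
    [] k0
    [[k2,k0,k2,k0],[k0,k2,k0,k1],[k0,k1,k0,k2],[k0,k0,k0,k3]]
    [.ref k1 k0 [(z2,[z1]),(z2,[y3,z2])],.ref k2 k1 [(z1,[y3,y1,z6]),(z1,[z0,y1,z3])],.ref k2 k1 [(z2,[y3,z1,z3]),(z1,
    [z0,y1,z3])],.ref k2 k1 [(z1,[y1,z1]),(z1,[z0,y1,z3])]],
    .lp [k16,k12,k0,k18] [k1,k1,k3,k3,k9,k9,k0,k0] k0 [] k48 k7
    [[(k4,k8),(k5,k8)],[(k4,k8),(k5,k8)],[(k2,k12),(k7,k15)],[(k3,k12),(k6,k15)],[(k0,k8),(k1,k8)],[(k0,k8),(k1,k8)],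
    [(k3,k15),(k6,k18)],[(k2,k15),(k7,k18)]]
    [] k0
    [[k2,k0,k2,k0],[k0,k3,k0,k0],[k0,k2,k0,k1]]
    [.contra [z1,y2],.ref k2 k1 [(z2,[y1,z3,z3]),(z1,[z1])],.ref k2 k1 [(z1,[y1,z1,z2]),(z1,[z2,z1,y1])]],
    .lp [k16,k12,k0,k18] [k1,k1,k3,k3,k9,k9,k0,k0] k0 [] k48 k7
    [[(k4,k8),(k5,k8)],[(k4,k8),(k5,k8)],[(k2,k12),(k7,k15)],[(k3,k12),(k6,k15)],[(k0,k8),(k1,k8)],[(k0,k8),(k1,k8)],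
    [(k3,k15),(k6,k18)],[(k2,k15),(k7,k18)]]
    [] k0
    [[k2,k0,k2,k0],[k0,k3,k0,k0],[k0,k2,k0,k1]]
    [.ref k0 k1 [(z2,[z1])],.ref k3 k1 [(z1,[y1,z3])],.ref k4 k0 [(z1,[y1,z1])]]]⟩

/-- classes `0 0 0 0`, types `N0 N1 N3 N2` -/
noncomputable def cT4_12 : CertT :=
  ⟨[k12,k13,k15,k14],[],[[[]]],
    [.leafM k3 [k1,k2,k3,k0] [] []]⟩

/-- classes `0 0 0 0`, types `N0 N2 N0 N2` -/
noncomputable def cT4_13 : CertT :=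
  ⟨[k12,k14,k12,k14],[],[[[]]],
    [.leafM k3 [k0,k1,k2,k3] [] []]⟩

/-- classes `0 0 0 0`, types `N0 N2 N1 N3` -/
noncomputable def cT4_14 : CertT :=
  ⟨[k12,k14,k13,k15],[],[[[]]],
    [.leafM k3 [k0,k1,k2,k3] [] []]⟩

/-- classes `0 0 0 1`, types `C0 C0 C0 C0` -/
noncomputable def cT4_15 : CertT :=
  ⟨[k4,k4,k4,k20],[],[[[]]],
    [.leafM k0 [k0,k1,k2,k3] [] []]⟩

/-- classes `0 0 0 1`, types `C0 C0 C0 S0` -/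
noncomputable def cT4_16 : CertT :=
  ⟨[k4,k4,k4,k16],[],[[[]]],
    [.leafM k0 [k0,k1,k2,k3] [] []]⟩

/-- classes `0 0 0 1`, types `C0 C0 C2 C0` -/
noncomputable def cT4_17 : CertT :=
  ⟨[k4,k4,k6,k20],[],[[[]]],
    [.leafM k0 [k0,k1,k2,k3] [] []]⟩

/-- classes `0 0 0 1`, types `C0 C0 C2 S0` -/
noncomputable def cT4_18 : CertT :=
  ⟨[k4,k4,k6,k16],[],[[[]]],
    [.leafM k0 [k0,k1,k2,k3] [] []]⟩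

/-- classes `0 0 0 1`, types `C0 C2 C0 C0` -/
noncomputable def cT4_19 : CertT :=
  ⟨[k4,k6,k4,k20],[],[[[]]],
    [.leafM k0 [k0,k1,k2,k3] [] []]⟩

/-- classes `0 0 0 1`, types `C0 C2 C0 S0` -/
noncomputable def cT4_20 : CertT :=
  ⟨[k4,k6,k4,k16],[],[[[]]],
    [.leafM k0 [k0,k1,k2,k3] [] []]⟩

/-- classes `0 0 0 1`, types `S0 S0 S0 C0` -/
noncomputable def cT4_21 : CertT :=
  ⟨[k0,k0,k0,k20],[],[[[]]],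
    [.leafM k0 [k0,k1,k2,k3] [] []]⟩

/-- classes `0 0 1 1`, types `B0 B1 B0 B1` -/
noncomputable def cT4_22 : CertT :=
  ⟨[k8,k9,k24,k25],[],[[[]]],
    [.leafM k3 [k0,k1,k2,k3] [] []]⟩

/-- classes `0 0 1 1`, types `B0 B1 C0 C0` -/
noncomputable def cT4_23 : CertT :=
  ⟨[k8,k9,k20,k20],[],[[[]]],
    [.leafM k1 [k2,k3,k0,k1] [] []]⟩

/-- classes `0 0 1 1`, types `B0 B1 C0 C2` -/
noncomputable def cT4_24 : CertT :=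
  ⟨[k8,k9,k20,k22],[],[[[]]],
    [.leafM k1 [k2,k3,k0,k1] [] []]⟩

/-- classes `0 0 1 1`, types `B0 B1 N0 N1` -/
noncomputable def cT4_25 : CertT :=
  ⟨[k8,k9,k28,k29],[(false,k0,[k0,k1,k2,k3])],[[[([z1,z0,z1,z0],z1),([z0,z2,z0,z0],z1)],[([z1,z0,z1,z0],z1),([z0,z3,
    z0,z0],z2)],[([z1,z0,z1,z0],z1),([z0,z3,z0,z0],z1)],[([z1,z0,z1,z0],z1)],[([z3,z0,z3,z0],z2),([z0,z3,z0,z0],z2)],
    [([z3,z3,z3,z0],z4)],[]]],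
    [.leafM k12 [k0,k1,k2,k3] [(z1,[z0,z1]),(z1,[y2,y1,z2]),(z1,[z1])] [],
    .leafM k11 [k0,k1,k2,k3] [(z1,[z0,z1]),(z1,[y3,y1,z3]),(z1,[z1])] [],
    .leafM k11 [k2,k3,k0,k1] [(z1,[y3,y1,z3]),(z1,[z0,z1]),(z1,[z1])] [],
    .lp [k12,k8,k8,k10] [k0,k0,k2,k2,k2,k2,k1,k1] k0 [] k40 k6
    [[(k4,k10)],[(k2,k10),(k5,k10)],[(k2,k8),(k5,k8)],[(k3,k8),(k0,k10)],[(k3,k8),(k0,k10)],[(k1,k10)],[(k6,k10)],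
    [(k7,k10)]]
    [] k0
    [[k1,k1,k1,k0],[k1,k2,k1,k0],[k0,k3,k0,k0],[k0,k4,k0,k0],[k0,k0,k0,k3]]
    [.contra [z1,y1],.ref k0 k0 [(z1,[z0,z1]),(z1,[z1,y1])],.ref k1 k0 [(z1,[z0,z1]),(z1,[z1])],.ref k0 k0 [(z1,[z0,
    z1]),(z2,[z1])],.ref k2 k0 [(z1,[z0,z1]),(z1,[y1,y3,z3])]],
    .leafM k10 [k0,k1,k2,k3] [(z1,[z0,z1]),(z1,[y1,y1,z3]),(z1,[z1])] [],
    .lp [k30,k30,k18,k40] [k5,k5,k5,k5,k11,k11,k0,k0] k0 [] k120 k6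
    [[(k4,k24)],[(k5,k24),(k2,k30)],[(k5,k24),(k2,k30)],[(k0,k30),(k3,k30)],[(k0,k24),(k3,k24)],[(k1,k24)],[(k6,k40)],
    [(k7,k40)]]
    [] k0
    [[k2,k0,k2,k0],[k1,k1,k1,k0],[k1,k2,k1,k0],[k0,k3,k0,k0]]
    [.ref k2 k0 [(z2,[z1]),(z2,[y3,z2])],.contra [z1,y1,z2],.ref k4 k0 [(z1,[y3,z2]),(z1,[z3,y1])],.ref k4 k0 [(z1,
    [y1,z1]),(z1,[z1])]],
    .lp [k40,k40,k8,k30] [k0,k0,k0,k0,k16,k16,k5,k5] k0 [] k120 k6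
    [[(k4,k24)],[(k5,k24),(k2,k40)],[(k5,k24),(k2,k40)],[(k0,k40),(k3,k40)],[(k0,k24),(k3,k24)],[(k1,k24)],[(k6,k30)],
    [(k7,k30)]]
    [] k0
    [[k2,k0,k2,k0],[k1,k1,k1,k0],[k0,k0,k0,k3]]
    [.ref k3 k0 [(z2,[z1])],.contra [y1,z1],.ref k5 k0 [(z1,[y1,z3])]]]⟩

/-- classes `0 0 1 1`, types `B0 B1 N0 N2` -/
noncomputable def cT4_26 : CertT :=
  ⟨[k8,k9,k28,k30],[],[[[]]],
    [.leafM k3 [k0,k1,k2,k3] [] []]⟩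

/-- classes `0 0 1 1`, types `B0 B1 S0 S0` -/
noncomputable def cT4_27 : CertT :=
  ⟨[k8,k9,k16,k16],[],[[[]]],
    [.leafM k1 [k2,k3,k0,k1] [] []]⟩

/-- classes `0 0 1 1`, types `C0 C0 C0 C0` -/
noncomputable def cT4_28 : CertT :=
  ⟨[k4,k4,k20,k20],[],[[[]]],
    [.leafM k0 [k0,k1,k2,k3] [] []]⟩

/-- classes `0 0 1 1`, types `C0 C0 C0 C2` -/
noncomputable def cT4_29 : CertT :=
  ⟨[k4,k4,k20,k22],[],[[[]]],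
    [.leafM k0 [k0,k1,k2,k3] [] []]⟩

/-- classes `0 0 1 1`, types `C0 C0 N0 N1` -/
noncomputable def cT4_30 : CertT :=
  ⟨[k4,k4,k28,k29],[(false,k0,[k0,k1,k2,k3])],[[[([z1,z0,z1,z0],z1),([z0,z3,z0,z0],z2)],[([z1,z0,z1,z0],z1),([z0,z3,
    z0,z0],z1)],[([z1,z0,z1,z0],z1),([z0,z2,z0,z0],z1)],[([z1,z0,z1,z0],z1)],[([z3,z0,z3,z0],z2),([z0,z3,z0,z0],z2)],
    [([z3,z3,z3,z0],z4)],[]]],
    [.leafM k11 [k0,k1,k2,k3] [(z1,[z0,z1]),(z1,[y3,y1,z3]),(z1,[z1])] [],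
    .leafM k11 [k2,k3,k0,k1] [(z1,[y3,y1,z3]),(z1,[z0,z1]),(z1,[z1])] [],
    .leafM k12 [k0,k1,k2,k3] [(z1,[z0,z1]),(z1,[y2,y1,z2]),(z1,[z1])] [],
    .lp [k14,k10,k6,k8] [k0,k0,k2,k2,k4,k4,k3,k3] k0 [] k40 k6
    [[(k4,k10)],[(k5,k10),(k3,k12)],[(k2,k10),(k0,k12)],[(k5,k8),(k3,k10)],[(k2,k8),(k0,k10)],[(k1,k10)],[(k6,k8)],
    [(k7,k8)]]
    [] k0
    [[k1,k1,k1,k0],[k0,k3,k0,k0],[k0,k0,k0,k3],[k0,k0,k0,k4]]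
    [.contra [z1,y1],.ref k0 k0 [(z1,[z0,z1]),(z1,[z1])],.ref k1 k0 [(z1,[z0,z1]),(z1,[y1,y3,z3])],.ref k2 k0 [(z1,
    [z0,z1]),(z2,[y1,y4,z4])]],
    .leafM k10 [k0,k1,k2,k3] [(z1,[z0,z1]),(z1,[y1,y1,z3]),(z1,[z1])] [],
    .lp [k30,k30,k18,k40] [k5,k5,k5,k5,k11,k11,k0,k0] k0 [] k120 k6
    [[(k4,k24)],[(k5,k24),(k3,k30)],[(k0,k30),(k2,k30)],[(k5,k24),(k3,k30)],[(k0,k24),(k2,k24)],[(k1,k24)],[(k6,k40)],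
    [(k7,k40)]]
    [] k0
    [[k2,k0,k2,k0],[k1,k1,k1,k0],[k1,k2,k1,k0],[k0,k3,k0,k0]]
    [.ref k1 k0 [(z2,[z1]),(z2,[y3,z2])],.contra [z1,y1,z2],.ref k4 k0 [(z1,[y3,z2]),(z1,[z3,y1])],.ref k4 k0 [(z1,
    [y1,z1]),(z1,[z1])]],
    .lp [k40,k40,k8,k30] [k0,k0,k0,k0,k16,k16,k5,k5] k0 [] k120 k6
    [[(k4,k24)],[(k5,k24),(k3,k40)],[(k0,k40),(k2,k40)],[(k5,k24),(k3,k40)],[(k0,k24),(k2,k24)],[(k1,k24)],[(k6,k30)],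
    [(k7,k30)]]
    [] k0
    [[k2,k0,k2,k0],[k1,k1,k1,k0],[k0,k0,k0,k3]]
    [.ref k3 k0 [(z2,[z1])],.contra [y1,z1],.ref k5 k0 [(z1,[y1,z3])]]]⟩

/-- classes `0 0 1 1`, types `C0 C0 N0 N2` -/
noncomputable def cT4_31 : CertT :=
  ⟨[k4,k4,k28,k30],[],[[[]]],
    [.leafM k1 [k0,k1,k2,k3] [] []]⟩

/-- classes `0 0 1 1`, types `C0 C0 S0 S0` -/
noncomputable def cT4_32 : CertT :=
  ⟨[k4,k4,k16,k16],[],[[[]]],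
    [.leafM k0 [k0,k1,k2,k3] [] []]⟩

/-- classes `0 0 1 1`, types `C0 C2 C0 C2` -/
noncomputable def cT4_33 : CertT :=
  ⟨[k4,k6,k20,k22],[],[[[]]],
    [.leafM k0 [k0,k1,k2,k3] [] []]⟩

/-- classes `0 0 1 1`, types `C0 C2 N0 N1` -/
noncomputable def cT4_34 : CertT :=
  ⟨[k4,k6,k28,k29],[],[[[]]],
    [.lp [k6,k6,k6,k10] [k2,k2,k2,k2,k2,k2,k0,k0] k0 [] k30 k6
    [[(k4,k6)],[(k2,k6),(k3,k6)],[(k0,k6),(k5,k6)],[(k0,k6),(k5,k6)],[(k2,k6),(k3,k6)],[(k1,k6)],[(k6,k10)],[(k7,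
    k10)]]
    [] k0
    [[k1,k1,k1,k0]]
    [.contra [y1,z1]]]⟩

/-- classes `0 0 1 1`, types `C0 C2 N0 N2` -/
noncomputable def cT4_35 : CertT :=
  ⟨[k4,k6,k28,k30],[],[[[]]],
    [.leafM k1 [k0,k1,k2,k3] [] []]⟩

/-- classes `0 0 1 1`, types `C0 C2 S0 S0` -/
noncomputable def cT4_36 : CertT :=
  ⟨[k4,k6,k16,k16],[],[[[]]],
    [.leafM k0 [k0,k1,k2,k3] [] []]⟩

/-- classes `0 0 1 1`, types `N0 N1 N0 N1` -/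
noncomputable def cT4_37 : CertT :=
  ⟨[k12,k13,k28,k29],[(false,k2,[k2,k3,k0,k1]),(false,k0,[k0,k1,k2,k3])],[[[([z1,z0,z1,z0],z1),([z0,z3,z0,z0],z1)],
    [([z1,z0,z1,z0],z1),([z0,z2,z0,z0],z1)],[([z1,z0,z1,z0],z1)],[([z3,z0,z3,z0],z2),([z0,z3,z0,z0],z2)],[([z3,z0,z3,
    z3],z4)],[]]],
    [.leafM k11 [k2,k3,k0,k1] [(z1,[y3,y1,z3]),(z1,[z0,z1]),(z1,[z1])] [],
    .leafM k12 [k0,k1,k2,k3] [(z1,[z0,z1]),(z1,[y2,y1,z2]),(z1,[z1])] [],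
    .lp [k20,k10,k0,k8] [k0,k0,k5,k5,k10,k10,k6,k6] k0 [] k40 k6
    [[(k4,k10)],[(k5,k10)],[(k2,k10)],[(k3,k10)],[(k0,k10)],[(k1,k10)],[(k6,k8)],[(k7,k8)]]
    [] k0
    [[k0,k3,k0,k0],[k0,k0,k0,k3],[k0,k0,k0,k4]]
    [.ref k0 k0 [(z1,[z0,z1]),(z1,[y1,y3,z3])],.ref k0 k1 [(z1,[z0,z1]),(z1,[y1,y3,z3])],.ref k1 k1 [(z1,[z0,z1]),(z2,
    [y1,y4,z4])]],
    .leafM k10 [k0,k1,k2,k3] [(z1,[z0,z1]),(z1,[y1,y1,z3]),(z1,[z1])] [],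
    .lp [k48,k40,k0,k30] [k0,k0,k4,k4,k24,k24,k9,k9] k0 [] k120 k6
    [[(k4,k24)],[(k5,k24)],[(k2,k40)],[(k3,k40)],[(k0,k24)],[(k1,k24)],[(k6,k30)],[(k7,k30)]]
    [] k0
    [[k2,k0,k2,k0],[k0,k0,k0,k3]]
    [.ref k0 k0 [(z2,[z1]),(z2,[y3,z2])],.ref k3 k1 [(z1,[y1,z1]),(z1,[z0,y1,z3])]],
    .lp [k48,k40,k0,k30] [k0,k0,k4,k4,k24,k24,k9,k9] k0 [] k120 k6
    [[(k4,k24)],[(k5,k24)],[(k2,k40)],[(k3,k40)],[(k0,k24)],[(k1,k24)],[(k6,k30)],[(k7,k30)]]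
    [] k0
    [[k2,k0,k2,k0],[k0,k0,k0,k3]]
    [.ref k2 k1 [(z2,[z1])],.ref k4 k0 [(z1,[y1,z3])]]]⟩

/-- classes `0 0 1 1`, types `N0 N1 N0 N2` -/
noncomputable def cT4_38 : CertT :=
  ⟨[k12,k13,k28,k30],[],[[[]]],
    [.lp [k6,k10,k6,k6] [k2,k2,k0,k0,k2,k2,k2,k2] k0 [] k30 k6
    [[(k7,k6)],[(k5,k6)],[(k2,k10)],[(k3,k10)],[(k0,k6)],[(k6,k6)],[(k1,k6)],[(k4,k6)]]
    [] k0
    [[k1,k0,k1,k1]]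
    [.contra [y1,z1]]]⟩

/-- classes `0 0 1 1`, types `N0 N1 S0 S0` -/
noncomputable def cT4_39 : CertT :=
  ⟨[k12,k13,k16,k16],[(false,k0,[k0,k1,k2,k3])],[[[([z1,z0,z1,z0],z1),([z0,z3,z0,z0],z2)],[([z3,z0,z3,z0],z2),([z0,z3,
    z0,z0],z2)],[([z3,z0,z3,z3],z4)],[([z1,z0,z1,z0],z1),([z0,z2,z0,z0],z1)],[([z2,z0,z2,z2],z3)],[([z1,z0,z1,z0],z1),
    ([z0,z3,z0,z0],z1)],[([z3,z3,z3,z0],z4)],[]]],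
    [.leafM k8 [k0,k1,k2,k3] [(z1,[z0,z1]),(z1,[y3,y1,z3]),(z1,[z1])] [],
    .leafM k10 [k0,k1,k2,k3] [(z1,[z0,z1]),(z1,[y1,y1,z3]),(z1,[z1])] [],
    .lp [k24,k40,k24,k30] [k8,k8,k0,k0,k8,k8,k5,k5] k0 [] k120 k6
    [[(k1,k24),(k4,k24),(k6,k27),(k7,k27)],[(k5,k24)],[(k2,k40)],[(k3,k40)],[(k0,k24)],[(k1,k24),(k4,k24),(k6,k27),
    (k7,k27)],[(k1,k27),(k4,k27),(k6,k30),(k7,k30)],[(k1,k27),(k4,k27),(k6,k30),(k7,k30)]]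
    [] k0
    [[k2,k0,k2,k0],[k1,k0,k1,k1],[k1,k0,k1,k2],[k0,k0,k0,k3]]
    [.ref k0 k0 [(z2,[z1]),(z1,[z0,y1,z3])],.contra [z1,y1,z2],.ref k1 k0 [(z1,[y3,z2]),(z1,[z0,y1,z3])],
    .ref k1 k0 [(z1,[y1,z1]),(z1,[z0,y1,z3])]],
    .leafM k9 [k0,k1,k2,k3] [(z1,[z0,z1]),(z1,[y2,y1,z2]),(z1,[z1])] [],
    .lp [k24,k30,k24,k40] [k8,k8,k5,k5,k8,k8,k0,k0] k0 [] k120 k6
    [[(k1,k24),(k4,k24),(k6,k32),(k7,k32)],[(k5,k24)],[(k2,k30)],[(k3,k30)],[(k0,k24)],[(k1,k24),(k4,k24),(k6,k32),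
    (k7,k32)],[(k1,k32),(k4,k32),(k6,k40),(k7,k40)],[(k1,k32),(k4,k32),(k6,k40),(k7,k40)]]
    [] k0
    [[k2,k0,k2,k0],[k1,k0,k1,k1],[k0,k3,k0,k0]]
    [.ref k3 k0 [(z2,[z1]),(z1,[z0,y1,z2])],.contra [z1,y1,z1],.contra [z1,z1,y2]],
    .leafM k11 [k2,k3,k0,k1] [(z1,[y3,y1,z3]),(z1,[z0,z1]),(z1,[z1])] [],
    .lp [k24,k30,k24,k40] [k8,k8,k5,k5,k8,k8,k0,k0] k0 [] k120 k6
    [[(k1,k24),(k4,k24),(k6,k32),(k7,k32)],[(k5,k24)],[(k2,k30)],[(k3,k30)],[(k0,k24)],[(k1,k24),(k4,k24),(k6,k32),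
    (k7,k32)],[(k1,k32),(k4,k32),(k6,k40),(k7,k40)],[(k1,k32),(k4,k32),(k6,k40),(k7,k40)]]
    [] k0
    [[k2,k0,k2,k0],[k1,k0,k1,k1],[k0,k3,k0,k0]]
    [.ref k5 k0 [(z2,[z1]),(z2,[y3,z2])],.contra [y1,z0,z1],.ref k1 k0 [(z1,[y1,z1]),(z1,[z1])]],
    .lp [k12,k8,k8,k10] [k0,k0,k2,k2,k2,k2,k1,k1] k0 [] k40 k6
    [[(k4,k10),(k6,k11),(k7,k11),(k1,k12)],[(k5,k10)],[(k2,k8)],[(k3,k8)],[(k0,k10)],[(k4,k8),(k6,k9),(k7,k9),(k1,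
    k10)],[(k4,k9),(k6,k10),(k7,k10),(k1,k11)],[(k4,k9),(k6,k10),(k7,k10),(k1,k11)]]
    [] k0
    [[k1,k0,k1,k1],[k0,k3,k0,k0],[k0,k4,k0,k0],[k0,k0,k0,k3]]
    [.contra [y1,z1],.ref k2 k0 [(z1,[y1,z3])],.ref k4 k0 [(z2,[y1,z4])],.ref k6 k0 [(z1,[y1,z3])]]]⟩

/-- classes `0 0 1 1`, types `N0 N2 N0 N2` -/
noncomputable def cT4_40 : CertT :=
  ⟨[k12,k14,k28,k30],[],[[[]]],
    [.leafM k3 [k0,k1,k2,k3] [] []]⟩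

/-- classes `0 0 1 1`, types `N0 N2 S0 S0` -/
noncomputable def cT4_41 : CertT :=
  ⟨[k12,k14,k16,k16],[],[[[]]],
    [.leafM k1 [k2,k3,k0,k1] [] []]⟩

/-- classes `0 0 1 2`, types `B0 B1 C0 C0` -/
noncomputable def cT4_42 : CertT :=
  ⟨[k8,k9,k20,k36],[],[[[]]],
    [.leafM k1 [k2,k3,k0,k1] [] []]⟩

/-- classes `0 0 1 2`, types `B0 B1 C0 S0` -/
noncomputable def cT4_43 : CertT :=
  ⟨[k8,k9,k20,k32],[],[[[]]],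
    [.leafM k1 [k2,k3,k0,k1] [] []]⟩

/-- classes `0 0 1 2`, types `B0 B1 S0 S0` -/
noncomputable def cT4_44 : CertT :=
  ⟨[k8,k9,k16,k32],[],[[[]]],
    [.leafM k1 [k2,k3,k0,k1] [] []]⟩

/-- classes `0 0 1 2`, types `C0 C0 C0 C0` -/
noncomputable def cT4_45 : CertT :=
  ⟨[k4,k4,k20,k36],[],[[[]]],
    [.leafM k0 [k0,k1,k2,k3] [] []]⟩

/-- classes `0 0 1 2`, types `C0 C0 C0 S0` -/
noncomputable def cT4_46 : CertT :=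
  ⟨[k4,k4,k20,k32],[],[[[]]],
    [.leafM k0 [k0,k1,k2,k3] [] []]⟩

/-- classes `0 0 1 2`, types `C0 C0 S0 S0` -/
noncomputable def cT4_47 : CertT :=
  ⟨[k4,k4,k16,k32],[],[[[]]],
    [.leafM k0 [k0,k1,k2,k3] [] []]⟩

/-- classes `0 0 1 2`, types `C0 C2 C0 C0` -/
noncomputable def cT4_48 : CertT :=
  ⟨[k4,k6,k20,k36],[],[[[]]],
    [.leafM k0 [k0,k1,k2,k3] [] []]⟩

/-- classes `0 0 1 2`, types `C0 C2 C0 S0` -/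
noncomputable def cT4_49 : CertT :=
  ⟨[k4,k6,k20,k32],[],[[[]]],
    [.leafM k0 [k0,k1,k2,k3] [] []]⟩

/-- classes `0 0 1 2`, types `C0 C2 S0 S0` -/
noncomputable def cT4_50 : CertT :=
  ⟨[k4,k6,k16,k32],[],[[[]]],
    [.leafM k0 [k0,k1,k2,k3] [] []]⟩

/-- classes `0 0 1 2`, types `N0 N1 C0 C0` -/
noncomputable def cT4_51 : CertT :=
  ⟨[k12,k13,k20,k36],[],[[[]]],
    [.lp [k6,k10,k6,k6] [k2,k2,k0,k0,k2,k2,k2,k2] k0 [] k30 k6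
    [[(k6,k6)],[(k5,k6)],[(k2,k10)],[(k3,k10)],[(k0,k6)],[(k7,k6)],[(k4,k6)],[(k1,k6)]]
    [] k0
    [[k1,k0,k1,k1]]
    [.contra [y1,z1]]]⟩

/-- classes `0 0 1 2`, types `N0 N1 C0 S0` -/
noncomputable def cT4_52 : CertT :=
  ⟨[k12,k13,k20,k32],[],[[[]]],
    [.lp [k6,k10,k6,k6] [k2,k2,k0,k0,k2,k2,k2,k2] k0 [] k30 k6
    [[(k1,k6),(k6,k6)],[(k5,k6)],[(k2,k10)],[(k3,k10)],[(k0,k6)],[(k7,k6)],[(k4,k6)],[(k1,k6),(k6,k6)]]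
    [] k0
    [[k1,k0,k1,k1]]
    [.contra [y1,z1]]]⟩

/-- classes `0 0 1 2`, types `N0 N1 S0 S0` -/
noncomputable def cT4_53 : CertT :=
  ⟨[k12,k13,k16,k32],[(false,k0,[k0,k1,k2,k3])],[[[([z1,z0,z1,z0],z1),([z0,z3,z0,z0],z2)],[([z1,z0,z1,z0],z1),([z0,z2,
    z0,z0],z1)],[([z1,z0,z1,z0],z1)],[]]],
    [.leafM k8 [k0,k1,k2,k3] [(z1,[z0,z1]),(z1,[y3,y1,z3]),(z1,[z1])] [],
    .leafM k9 [k0,k1,k2,k3] [(z1,[z0,z1]),(z1,[y2,y1,z2]),(z1,[z1])] [],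
    .lp [k12,k10,k8,k8] [k0,k0,k1,k1,k2,k2,k2,k2] k0 [] k40 k6
    [[(k6,k10),(k1,k12)],[(k5,k10)],[(k2,k10)],[(k3,k10)],[(k0,k10)],[(k4,k8),(k7,k8)],[(k4,k8),(k7,k8)],[(k6,k8),(k1,
    k10)]]
    [] k0
    [[k1,k0,k1,k1],[k0,k3,k0,k0],[k0,k0,k0,k4]]
    [.contra [z1,y1],.ref k0 k0 [(z1,[z0,z1]),(z1,[z1])],.ref k1 k0 [(z1,[z0,z1]),(z2,[y1,y4,z4])]],
    .lp [k24,k40,k24,k30] [k8,k8,k0,k0,k8,k8,k5,k5] k0 [] k120 k6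
    [[(k1,k24),(k6,k27)],[(k5,k24)],[(k2,k40)],[(k3,k40)],[(k0,k24)],[(k4,k24),(k7,k27)],[(k4,k27),(k7,k30)],[(k1,
    k27),(k6,k30)]]
    [] k0
    [[k2,k0,k2,k0],[k1,k0,k1,k1]]
    [.ref k2 k0 [(z2,[z1])],.contra [y1,z1]]]⟩

/-- classes `0 0 1 2`, types `N0 N2 C0 C0` -/
noncomputable def cT4_54 : CertT :=
  ⟨[k12,k14,k20,k36],[],[[[]]],
    [.leafM k1 [k2,k3,k0,k1] [] []]⟩

/-- classes `0 0 1 2`, types `N0 N2 C0 S0` -/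
noncomputable def cT4_55 : CertT :=
  ⟨[k12,k14,k20,k32],[],[[[]]],
    [.leafM k1 [k2,k3,k0,k1] [] []]⟩

/-- classes `0 0 1 2`, types `N0 N2 S0 S0` -/
noncomputable def cT4_56 : CertT :=
  ⟨[k12,k14,k16,k32],[],[[[]]],
    [.leafM k1 [k2,k3,k0,k1] [] []]⟩

/-- classes `0 0 1 2`, types `S0 S0 C0 C0` -/
noncomputable def cT4_57 : CertT :=
  ⟨[k0,k0,k20,k36],[],[[[]]],
    [.leafM k0 [k0,k1,k2,k3] [] []]⟩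

/-- classes `0 0 1 2`, types `S0 S0 C0 S0` -/
noncomputable def cT4_58 : CertT :=
  ⟨[k0,k0,k20,k32],[],[[[]]],
    [.leafM k0 [k0,k1,k2,k3] [] []]⟩

/-- classes `0 1 0 1`, types `B0 B0 B1 B1` -/
noncomputable def cT4_59 : CertT :=
  ⟨[k8,k24,k9,k25],[],[[[]]],
    [.leafM k5 [k0,k1,k2,k3] [] []]⟩

/-- classes `0 1 0 1`, types `B0 C0 B1 C0` -/
noncomputable def cT4_60 : CertT :=
  ⟨[k8,k20,k9,k20],[],[[[]]],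
    [.leafM k2 [k1,k2,k3,k0] [] []]⟩

/-- classes `0 1 0 1`, types `B0 C0 B1 C2` -/
noncomputable def cT4_61 : CertT :=
  ⟨[k8,k20,k9,k22],[],[[[]]],
    [.leafM k2 [k1,k2,k3,k0] [] []]⟩

/-- classes `0 1 0 1`, types `B0 N0 B1 N1` -/
noncomputable def cT4_62 : CertT :=
  ⟨[k8,k28,k9,k29],[],[[[]]],
    [.leafM k5 [k0,k1,k2,k3] [] []]⟩

/-- classes `0 1 0 1`, types `B0 N0 B1 N2` -/
noncomputable def cT4_63 : CertT :=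
  ⟨[k8,k28,k9,k30],[],[[[]]],
    [.leafM k6 [k0,k1,k2,k3] [] []]⟩

/-- classes `0 1 0 1`, types `B0 S0 B1 S0` -/
noncomputable def cT4_64 : CertT :=
  ⟨[k8,k16,k9,k16],[],[[[]]],
    [.leafM k2 [k1,k2,k3,k0] [] []]⟩

/-- classes `0 1 0 1`, types `C0 C0 C0 C0` -/
noncomputable def cT4_65 : CertT :=
  ⟨[k4,k20,k4,k20],[],[[[]]],
    [.leafM k0 [k0,k1,k2,k3] [] []]⟩

/-- classes `0 1 0 1`, types `C0 C0 C0 C2` -/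
noncomputable def cT4_66 : CertT :=
  ⟨[k4,k20,k4,k22],[],[[[]]],
    [.leafM k0 [k0,k1,k2,k3] [] []]⟩

/-- classes `0 1 0 1`, types `C0 C0 C2 C2` -/
noncomputable def cT4_67 : CertT :=
  ⟨[k4,k20,k6,k22],[],[[[]]],
    [.leafM k0 [k0,k1,k2,k3] [] []]⟩

/-- classes `0 1 0 1`, types `C0 N0 C0 N1` -/
noncomputable def cT4_68 : CertT :=
  ⟨[k4,k28,k4,k29],[],[[[]]],
    [.leafM k5 [k0,k1,k2,k3] [] []]⟩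

/-- classes `0 1 0 1`, types `C0 N0 C0 N2` -/
noncomputable def cT4_69 : CertT :=
  ⟨[k4,k28,k4,k30],[],[[[]]],
    [.leafM k2 [k0,k1,k2,k3] [] []]⟩

/-- classes `0 1 0 1`, types `C0 N0 C2 N1` -/
noncomputable def cT4_70 : CertT :=
  ⟨[k4,k28,k6,k29],[],[[[]]],
    [.leafM k6 [k1,k2,k3,k0] [] []]⟩

/-- classes `0 1 0 1`, types `C0 N0 C2 N2` -/
noncomputable def cT4_71 : CertT :=
  ⟨[k4,k28,k6,k30],[],[[[]]],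
    [.leafM k2 [k0,k1,k2,k3] [] []]⟩

/-- classes `0 1 0 1`, types `C0 S0 C0 S0` -/
noncomputable def cT4_72 : CertT :=
  ⟨[k4,k16,k4,k16],[],[[[]]],
    [.leafM k0 [k0,k1,k2,k3] [] []]⟩

/-- classes `0 1 0 1`, types `C0 S0 C2 S0` -/
noncomputable def cT4_73 : CertT :=
  ⟨[k4,k16,k6,k16],[],[[[]]],
    [.leafM k0 [k0,k1,k2,k3] [] []]⟩

/-- classes `0 1 0 1`, types `N0 N0 N1 N1` -/
noncomputable def cT4_74 : CertT :=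
  ⟨[k12,k28,k13,k29],[],[[[]]],
    [.leafM k5 [k0,k1,k2,k3] [] []]⟩

/-- classes `0 1 0 1`, types `N0 N0 N1 N2` -/
noncomputable def cT4_75 : CertT :=
  ⟨[k12,k28,k13,k30],[],[[[]]],
    [.leafM k6 [k0,k1,k2,k3] [] []]⟩

/-- classes `0 1 0 1`, types `N0 N0 N2 N2` -/
noncomputable def cT4_76 : CertT :=
  ⟨[k12,k28,k14,k30],[(false,k0,[k0,k1,k2,k3])],[[[([z1,z0,z1,z0],z1)],[]]],
    [.leafM k7 [k0,k1,k2,k3] [(z1,[y1,z1])] [],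
    .lp [k10,k0,k0,k8] [k0,k0,k5,k5,k5,k5,k1,k1] k0 [] k20 k6
    [[(k5,k5)],[(k4,k5)],[(k7,k4)],[(k6,k4)],[(k1,k5)],[(k0,k5)],[(k3,k4)],[(k2,k4)]]
    [] k0
    [[k0,k2,k0,k2]]
    [.ref k0 k0 [(z2,[y1,z2])]]]⟩

/-- classes `0 1 0 1`, types `N0 S0 N1 S0` -/
noncomputable def cT4_77 : CertT :=
  ⟨[k12,k16,k13,k16],[],[[[]]],
    [.leafM k5 [k0,k1,k2,k3] [] []]⟩

/-- classes `0 1 0 1`, types `N0 S0 N2 S0` -/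
noncomputable def cT4_78 : CertT :=
  ⟨[k12,k16,k14,k16],[],[[[]]],
    [.leafM k2 [k1,k2,k3,k0] [] []]⟩

/-- classes `0 1 0 2`, types `B0 C0 B1 C0` -/
noncomputable def cT4_79 : CertT :=
  ⟨[k8,k20,k9,k36],[],[[[]]],
    [.leafM k2 [k1,k2,k3,k0] [] []]⟩

/-- classes `0 1 0 2`, types `B0 C0 B1 S0` -/
noncomputable def cT4_80 : CertT :=
  ⟨[k8,k20,k9,k32],[],[[[]]],
    [.leafM k2 [k1,k2,k3,k0] [] []]⟩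

/-- classes `0 1 0 2`, types `B0 S0 B1 S0` -/
noncomputable def cT4_81 : CertT :=
  ⟨[k8,k16,k9,k32],[],[[[]]],
    [.leafM k2 [k1,k2,k3,k0] [] []]⟩

/-- classes `0 1 0 2`, types `C0 C0 C0 C0` -/
noncomputable def cT4_82 : CertT :=
  ⟨[k4,k20,k4,k36],[],[[[]]],
    [.leafM k0 [k0,k1,k2,k3] [] []]⟩

/-- classes `0 1 0 2`, types `C0 C0 C0 S0` -/
noncomputable def cT4_83 : CertT :=
  ⟨[k4,k20,k4,k32],[],[[[]]],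
    [.leafM k0 [k0,k1,k2,k3] [] []]⟩

/-- classes `0 1 0 2`, types `C0 C0 C2 C0` -/
noncomputable def cT4_84 : CertT :=
  ⟨[k4,k20,k6,k36],[],[[[]]],
    [.leafM k0 [k0,k1,k2,k3] [] []]⟩

/-- classes `0 1 0 2`, types `C0 C0 C2 S0` -/
noncomputable def cT4_85 : CertT :=
  ⟨[k4,k20,k6,k32],[],[[[]]],
    [.leafM k0 [k0,k1,k2,k3] [] []]⟩

/-- classes `0 1 0 2`, types `C0 S0 C0 S0` -/
noncomputable def cT4_86 : CertT :=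
  ⟨[k4,k16,k4,k32],[],[[[]]],
    [.leafM k0 [k0,k1,k2,k3] [] []]⟩

/-- classes `0 1 0 2`, types `C0 S0 C2 S0` -/
noncomputable def cT4_87 : CertT :=
  ⟨[k4,k16,k6,k32],[],[[[]]],
    [.leafM k0 [k0,k1,k2,k3] [] []]⟩

/-- classes `0 1 0 2`, types `N0 C0 N1 C0` -/
noncomputable def cT4_88 : CertT :=
  ⟨[k12,k20,k13,k36],[(false,k0,[k0,k1,k2,k3])],[[[([z1,z0,z0,z1],z1)],[]]],
    [.leafM k4 [k0,k1,k2,k3] [(z1,[y1,z1])] [],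
    .lp [k0,k8,k0,k10] [k5,k5,k1,k1,k5,k5,k0,k0] k0 [] k20 k6
    [[(k6,k5)],[(k7,k5)],[(k4,k4)],[(k5,k4)],[(k2,k4)],[(k3,k4)],[(k0,k5)],[(k1,k5)]]
    [] k0
    [[k0,k2,k2,k0]]
    [.ref k0 k0 [(z2,[y1,z2])]]]⟩

/-- classes `0 1 0 2`, types `N0 C0 N1 S0` -/
noncomputable def cT4_89 : CertT :=
  ⟨[k12,k20,k13,k32],[(false,k0,[k0,k1,k2,k3])],[[[([z1,z0,z0,z1],z1)],[]]],
    [.leafM k4 [k0,k1,k2,k3] [(z1,[y1,z1])] [],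
    .lp [k6,k0,k8,k4] [k1,k1,k4,k4,k0,k0,k2,k2] k0 [] k20 k6
    [[(k6,k5),(k1,k6)],[(k7,k5)],[(k4,k4)],[(k5,k4)],[(k2,k4)],[(k3,k4)],[(k0,k5)],[(k6,k4),(k1,k5)]]
    [] k0
    [[k0,k2,k2,k0]]
    [.ref k0 k0 [(z2,[y1,z2])]]]⟩

/-- classes `0 1 0 2`, types `N0 C0 N2 C0` -/
noncomputable def cT4_90 : CertT :=
  ⟨[k12,k20,k14,k36],[],[[[]]],
    [.leafM k2 [k1,k2,k3,k0] [] []]⟩

/-- classes `0 1 0 2`, types `N0 C0 N2 S0` -/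
noncomputable def cT4_91 : CertT :=
  ⟨[k12,k20,k14,k32],[],[[[]]],
    [.leafM k2 [k1,k2,k3,k0] [] []]⟩

/-- classes `0 1 0 2`, types `N0 S0 N1 S0` -/
noncomputable def cT4_92 : CertT :=
  ⟨[k12,k16,k13,k32],[(false,k0,[k0,k1,k2,k3])],[[[([z1,z0,z0,z1],z1)],[]]],
    [.leafM k4 [k0,k1,k2,k3] [(z1,[y1,z1])] [],
    .lp [k4,k6,k4,k4] [k1,k1,k0,k0,k1,k1,k1,k1] k0 [] k20 k6
    [[(k1,k4),(k6,k4)],[(k7,k4)],[(k4,k5)],[(k5,k5),(k2,k6)],[(k5,k4),(k2,k5)],[(k3,k5)],[(k0,k4)],[(k1,k4),(k6,k4)]]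
    [] k0
    [[k2,k0,k0,k2]]
    [.ref k0 k0 [(z2,[z1])]]]⟩

/-- classes `0 1 0 2`, types `N0 S0 N2 S0` -/
noncomputable def cT4_93 : CertT :=
  ⟨[k12,k16,k14,k32],[],[[[]]],
    [.leafM k2 [k1,k2,k3,k0] [] []]⟩

/-- classes `0 1 0 2`, types `S0 C0 S0 C0` -/
noncomputable def cT4_94 : CertT :=
  ⟨[k0,k20,k0,k36],[],[[[]]],
    [.leafM k0 [k0,k1,k2,k3] [] []]⟩

/-- classes `0 1 0 2`, types `S0 C0 S0 S0` -/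
noncomputable def cT4_95 : CertT :=
  ⟨[k0,k20,k0,k32],[],[[[]]],
    [.leafM k0 [k0,k1,k2,k3] [] []]⟩

/-- classes `0 1 2 3`, types `C0 C0 C0 C0` -/
noncomputable def cT4_96 : CertT :=
  ⟨[k4,k20,k36,k52],[],[[[]]],
    [.leafM k0 [k0,k1,k2,k3] [] []]⟩

/-- classes `0 1 2 3`, types `C0 C0 C0 S0` -/
noncomputable def cT4_97 : CertT :=
  ⟨[k4,k20,k36,k48],[],[[[]]],
    [.leafM k0 [k0,k1,k2,k3] [] []]⟩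

/-- classes `0 1 2 3`, types `C0 C0 S0 S0` -/
noncomputable def cT4_98 : CertT :=
  ⟨[k4,k20,k32,k48],[],[[[]]],
    [.leafM k0 [k0,k1,k2,k3] [] []]⟩

/-- classes `0 1 2 3`, types `C0 S0 C0 S0` -/
noncomputable def cT4_99 : CertT :=
  ⟨[k4,k16,k36,k48],[],[[[]]],
    [.leafM k0 [k0,k1,k2,k3] [] []]⟩

/-- classes `0 1 2 3`, types `C0 S0 S0 S0` -/
noncomputable def cT4_100 : CertT :=
  ⟨[k4,k16,k32,k48],[],[[[]]],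
    [.leafM k0 [k0,k1,k2,k3] [] []]⟩

/-- the certificates of this file -/
noncomputable def lT4_0 : List CertT :=
  [cT4_0, cT4_1, cT4_2, cT4_3, cT4_4, cT4_5, cT4_6, cT4_7, cT4_8, cT4_9, cT4_10, cT4_11, cT4_12, cT4_13,
      cT4_14, cT4_15, cT4_16, cT4_17, cT4_18, cT4_19, cT4_20, cT4_21, cT4_22, cT4_23, cT4_24, cT4_25, cT4_26,
      cT4_27, cT4_28, cT4_29, cT4_30, cT4_31, cT4_32, cT4_33, cT4_34, cT4_35, cT4_36, cT4_37, cT4_38, cT4_39,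
      cT4_40, cT4_41, cT4_42, cT4_43, cT4_44, cT4_45, cT4_46, cT4_47, cT4_48, cT4_49, cT4_50, cT4_51, cT4_52,
      cT4_53, cT4_54, cT4_55, cT4_56, cT4_57, cT4_58, cT4_59, cT4_60, cT4_61, cT4_62, cT4_63, cT4_64, cT4_65,
      cT4_66, cT4_67, cT4_68, cT4_69, cT4_70, cT4_71, cT4_72, cT4_73, cT4_74, cT4_75, cT4_76, cT4_77, cT4_78,
      cT4_79, cT4_80, cT4_81, cT4_82, cT4_83, cT4_84, cT4_85, cT4_86, cT4_87, cT4_88, cT4_89, cT4_90, cT4_91,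
      cT4_92, cT4_93, cT4_94, cT4_95, cT4_96, cT4_97, cT4_98, cT4_99, cT4_100]

theorem gT4_0 : allF (chkC 4 tt4) lT4_0 = true := by
  decide +kernel

end Pool.Agent.Lib_MP_fa6e45
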