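import Pool.Agent.Lib_MP_fa6e45.CG5_0d

/-!
MP_fa6e45_co, stage 5: certificates (captain, generated by a program).
-/

namespace Pool.Agent.Lib_MP_fa6e45

noncomputable def cT5_0_n0_0 : List TN :=
  [.leafM k1 [k2,k3,k4,k0,k1] [(z3,[y1,y1,y1,z3])] [],
    .geo z3 k4 [(z2,z0),(z2,z0),(z3,y3),(z2,z0),(z0,z3)] [(z1,[z1]),(z1,[z0,z1]),(z1,[z0,z0,z3]),(z1,[y1,y1,y3,z3]),(z1,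
    [])] k5,
    .leafM k1 [k4,k0,k1,k2,k3] [(z3,[z1,z1])] [],
    .geo z3 k3 [(y1,z3),(z2,z0),(z6,y6),(z0,z3),(z2,z0)] [(z1,[z1]),(z1,[z0,z1]),(z1,[z0,z0,z3]),(z1,[]),(z1,[y1,y1,y3,
    z3])] k6,
    .leafM k1 [k3,k4,k0,k1,k2] [(z3,[z0,y1,y1,z3])] [],
    .tor k0 false k3 [(z3,[z1,z0,y1,z3]),(z1,[z0,z1]),(z3,[y1,y3,z1,z3])],
    .lp [k168,k82,k160,k136,k172] [k4,k0,k45,k45,k6,k6,k18,k18,k0,k0] k0 [[k0,k0,k82,k0,k0,k0,k40],[k0,k0,k0,k0,k0,k0,k0,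
    k0,k0,k12],[],[k0,k82,k0,k0,k0,k0,k0,k4],[k0,k0,k0,k0,k0,k0,k86],[k0,k0,k0,k0,k0,k0,k0,k0,k0,k74],[k0,k0,k4,k0,k0,
    k0,k0,k0,k74],[k0,k40,k0,k0,k0,k86],[k12,k0,k0,k0,k74],[k0,k0,k0,k0,k0,k0,k0,k74]] (nat_lit 480) k7
    [[(k6,k80),(k2,k127),(k8,k172),(k0,k180),(k4,(nat_lit 240))],[(k5,k80),(k3,k123),(k9,k128),(k7,k150),(k1,k180)],
    [(k8,k115),(k4,k121),(k0,k123),(k6,k149),(k2,k164)],[(k7,k109),(k5,k121),(k1,k127),(k9,k131),(k3,k164)],[(k0,k80),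
    (k2,k121),(k6,k144),(k4,k160),(k8,k166)],[(k9,k80),(k3,k121),(k7,k148),(k5,k160),(k1,(nat_lit 240))],[(k8,k80),
    (k2,k109),(k4,k148),(k0,k150),(k6,(nat_lit 222))],[(k1,k80),(k5,k144),(k3,k149),(k9,k154),(k7,(nat_lit 222))],
    [(k4,k80),(k0,k128),(k2,k131),(k6,k154),(k8,(nat_lit 246))],[(k7,k80),(k3,k115),(k5,k166),(k1,k172),(k9,
    (nat_lit 246))]]
    [] k0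
    [[k2,k1,k0,k0,k0],[k2,k0,k0,k1,k0],[k2,k0,k0,k1,k1],[k1,k2,k0,k0,k0],[k1,k1,k1,k0,k0],[k1,k1,k0,k1,k0],[k1,k1,k0,
    k0,k1],[k1,k1,k1,k0,k1],[k2,k0,k0,k2,k0],[k1,k2,k0,k1,k0],[k1,k1,k1,k1,k0],[k1,k1,k0,k1,k1],[k1,k1,k1,k1,k1],[k1,
    k0,k1,k1,k0],[k1,k0,k2,k1,k0],[k1,k0,k0,k2,k0],[k1,k0,k0,k1,k1],[k1,k0,k1,k1,k1],[k1,k0,k0,k2,k1],[k1,k0,k1,k0,
    k1],[k0,k2,k1,k0,k0],[k0,k2,k0,k1,k0],[k0,k2,k0,k0,k1],[k0,k1,k2,k0,k0],[k0,k1,k1,k1,k0],[k0,k1,k1,k1,k1],[k0,k1,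
    k1,k0,k1],[k0,k1,k0,k1,k1],[k0,k1,k2,k0,k1],[k0,k0,k2,k1,k0],[k0,k0,k2,k1,k1],[k0,k0,k2,k0,k1],[k0,k0,k1,k1,k1],
    [k0,k0,k0,k2,k1],[k0,k0,k0,k2,k2]]
    [.ref k0 k0 [(z1,[z0,z1]),(z1,[z3,y2]),(z1,[z0,y1,y1,z3])],.ref k1 k1 [(z1,[z0,y1,y1,z3]),(z1,[z3,y2]),(z3,[y3,z2,
    z1])],.contra [y3,z2,z1],.ref k0 k0 [(z1,[z0,z1]),(z2,[z3,y1]),(z1,[z0,y1,y1,z3])],.ref k0 k0 [(z1,[z0,z1]),(z1,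
    [z3,z0,z1,y3]),(z1,[z0,y1,y1,z3])],.ref k2 k2 [(z1,[y3,z1,z1]),(z1,[z0,z1]),(z1,[z3,y1])],.ref k2 k3 [(z1,[y3,z1,
    z1]),(z1,[z0,y1,y1,z3]),(z1,[z3,y1])],.contra [y1,z0,z0,z1],.ref k2 k3 [(z2,[z3,y2]),(z1,[z0,y1,y1,z3]),(z2,[y3,
    z2,z2])],.ref k3 k4 [(z1,[z3,y1,y1]),(z1,[z0,y1,y1,z3]),(z3,[y3,z1,z2])],.contra [y1,z0,z0,z1],.contra [y3,z2,z1],
    .contra [y1,z1,z0,z1],.ref k1 k1 [(z1,[z0,y1,y1,z3]),(z1,[z3,z0,z1,y3]),(z1,[y1,z0,z0,z1])],.contra [z3,z1,z2,y6],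
    .ref k1 k1 [(z1,[z0,y1,y1,z3]),(z2,[z3,y1]),(z6,[y3,z1,z2])],.ref k4 k4 [(z1,[y3,z1,z1]),(z1,[z0,y1,y1,z3]),(z1,
    [z3,y1])],.contra [y1,z0,z0,z1],.ref k5 k5 [(z1,[z3,y1,y1]),(z3,[y3,z1,z2]),(z1,[z0,z1])],.ref k1 k2 [(z1,[z3,z0,
    z1,y3]),(z1,[z0,z1]),(z1,[y1,z0,z0,z1])],.ref k0 k0 [(z1,[z0,z1]),(z2,[z3,z1,z1,y3]),(z1,[z0,y1,y1,z3])],
    .ref k5 k6 [(z1,[y3,z0,z1]),(z1,[z1]),(z1,[z0,y1,y1,z3])],.ref k5 k5 [(z1,[y3,z0,z1]),(z1,[z1]),(z1,[z0,z1])],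
    .ref k0 k0 [(z1,[z0,z1]),(z1,[z3,z2,z2,y6]),(z1,[z0,y1,y1,z3])],.ref k2 k2 [(z1,[y3,y1,z0,z3]),(z1,[z0,z1]),(z1,
    [z3,z1,z1,y3])],.contra [y1,z0,z0,z1],.ref k2 k3 [(z1,[y3,y1,z0,z3]),(z1,[z0,y1,y1,z3]),(z1,[z3,z1,z1,y3])],
    .contra [z3,z1,y1],.contra [y3,y2,y1,z6],.ref k1 k1 [(z1,[z0,y1,y1,z3]),(z1,[z3,z2,z2,y6]),(z3,[y3,y2,y1,z6])],
    .contra [y3,y2,y1,z6],.ref k1 k2 [(z1,[z3,z2,z2,y6]),(z1,[z0,z1]),(z3,[y3,y2,y1,z6])],.ref k4 k4 [(z1,[y3,y1,z0,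
    z3]),(z1,[z0,y1,y1,z3]),(z1,[z3,z1,z1,y3])],.ref k3 k7 [(z1,[y3,z0,z1]),(z1,[z0,z1]),(z1,[z1])],.ref k0 k0 [(z1,
    [z0,z1]),(z2,[y3,z0,z2]),(z1,[z0,y1,y1,z3])]],
    .leafM k1 [k0,k1,k2,k3,k4] [(z1,[z0,z1])] [],
    .leafM k1 [k1,k2,k3,k4,k0] [(z3,[y1,y1,z3])] [],
    .leafM k1 [k4,k0,k1,k2,k3] [(z3,[z1,z1])] [],
    .leafM k1 [k0,k1,k2,k3,k4] [(z1,[z0,z1,z1])] [],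
    .geo z3 k4 [(y1,z3),(z2,z0),(z4,y3),(z4,y3),(z0,z3)] [(z1,[z1]),(z1,[z0,z1]),(z1,[z0,z0,z1]),(z1,[y1,y1,y1,z3]),(z1,
    [])] k7]

noncomputable def cT5_0_n0_1 : List TN :=
  [.leafM k5 [k4,k0,k1,k2,k3] [(z1,[z1]),(z1,[z0,z0,z1])] [],
    .tor k1 true k0 [(z3,[y1,y3,y1,z3]),(z3,[z1,z6,z1]),(z1,[z0,y1,z0,z1])],
    .geo z3 k4 [(y2,z6),(z6,y6),(z3,y3),(z2,z0),(z0,z3)] [(z1,[z1]),(z1,[z0,z3]),(z1,[z0,z0,z3]),(z1,[y1,y3,y3,z3]),(z1,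
    [])] k9,
    .geo z6 k4 [(z4,z0),(z6,y6),(z2,z3),(z6,y3),(z0,z6)] [(z1,[z2]),(z1,[z0,z6]),(z1,[z0,z0,z1]),(z1,[y2,y6,y1,z6]),(z1,
    [])] k6,
    .geo z3 k4 [(y3,z6),(z2,z0),(z6,y6),(z4,y3),(z0,z3)] [(z1,[z3]),(z1,[z0,z1]),(z1,[z0,z0,z3]),(z1,[y3,y1,y3,z3]),(z1,
    [])] k8,
    .lp [(nat_lit 1028960),(nat_lit 733134),(nat_lit 926064),(nat_lit 1131856),(nat_lit 784800)] [(nat_lit 51448),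
    (nat_lit 51448),(nat_lit 199361),(nat_lit 199361),(nat_lit 102896),(nat_lit 102896),k0,k0,(nat_lit 173528),
    (nat_lit 173528)] k0 [[k0,k0,k0,k0,k0,k0,(nat_lit 154344)],[],[k0,k0,k0,k0,(nat_lit 205792)],[k0,k0,k0,k0,k0,k0,
    k0,(nat_lit 102896)],[k0,k0,k0,k0,k0,k0,(nat_lit 141600)],[k0,k0,k0,(nat_lit 205792),k0,k0,k0,k0,k0,
    (nat_lit 102896)],[k0,k0,(nat_lit 102896)],[k0,(nat_lit 154344),k0,k0,k0,(nat_lit 141600)],[k0,k0,k0,k0,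
    (nat_lit 102896)]] (nat_lit 3086880) k6
    [[(k2,(nat_lit 881047)),(k8,(nat_lit 906880)),(k0,(nat_lit 1028960)),(k4,(nat_lit 1080408)),(k6,
    (nat_lit 1080408))],[(k9,(nat_lit 752536)),(k3,(nat_lit 881047)),(k5,(nat_lit 977512)),(k1,(nat_lit 1028960)),(k7,
    (nat_lit 1080408))],[(k2,(nat_lit 733134)),(k8,(nat_lit 758967)),(k4,(nat_lit 829599)),(k0,(nat_lit 881047)),(k6,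
    (nat_lit 1086839))],[(k7,(nat_lit 726703)),(k3,(nat_lit 733134)),(k5,(nat_lit 829599)),(k9,(nat_lit 861863)),(k1,
    (nat_lit 881047))],[(k2,(nat_lit 829599)),(k8,(nat_lit 855432)),(k6,(nat_lit 926064)),(k0,(nat_lit 977512)),(k4,
    (nat_lit 1131856))],[(k9,(nat_lit 713832)),(k3,(nat_lit 829599)),(k7,(nat_lit 1028960)),(k1,(nat_lit 1080408)),
    (k5,(nat_lit 1131856))],[(k2,(nat_lit 726703)),(k8,(nat_lit 855432)),(k4,(nat_lit 1028960)),(k0,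
    (nat_lit 1080408)),(k6,(nat_lit 1273456))],[(k5,(nat_lit 926064)),(k9,(nat_lit 958328)),(k1,(nat_lit 1080408)),
    (k3,(nat_lit 1086839)),(k7,(nat_lit 1273456))],[(k4,(nat_lit 713832)),(k0,(nat_lit 752536)),(k8,(nat_lit 784800)),
    (k2,(nat_lit 861863)),(k6,(nat_lit 958328))],[(k3,(nat_lit 758967)),(k9,(nat_lit 784800)),(k5,(nat_lit 855432)),
    (k7,(nat_lit 855432)),(k1,(nat_lit 906880))]]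
    [] k0
    [[k2,k1,k0,k0,k0],[k2,k0,k0,k0,k1],[k1,k2,k0,k0,k0],[k1,k1,k1,k0,k0],[k1,k1,k0,k1,k0],[k1,k1,k0,k0,k1],[k1,k0,k1,
    k0,k1],[k1,k0,k0,k1,k1],[k1,k0,k0,k0,k2],[k0,k3,k0,k0,k0],[k0,k4,k0,k0,k0],[k0,k2,k1,k0,k0],[k0,k2,k0,k1,k0],[k0,
    k2,k0,k0,k1],[k0,k2,k1,k0,k1],[k0,k1,k2,k0,k0],[k0,k1,k1,k1,k0],[k0,k1,k1,k0,k1],[k0,k1,k0,k1,k1],[k0,k1,k0,k0,
    k2],[k0,k0,k2,k0,k1],[k0,k0,k1,k1,k1],[k0,k0,k1,k0,k2],[k0,k0,k0,k1,k2],[k0,k0,k0,k0,k3]]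
    [.ref k9 k2 [(z1,[y3,z2,z3]),(z1,[z0,z1]),(z1,[z3,y2])],.ref k9 k7 [(z1,[y3,z2,z3]),(z1,[z0,z1]),(z1,[z3,y2])],
    .ref k9 k2 [(z2,[y3,z1,z6]),(z1,[z0,z1]),(z2,[z3,y1])],.ref k10 k8 [(z1,[z0,z1]),(z1,[z0,z0,z1]),(z1,[y1,z0,y1,
    z1])],.ref k11 k2 [(z1,[y3,z1,z3]),(z1,[z0,z1]),(z1,[z3,y1])],.contra [z1,z0,y1],.ref k11 k7 [(z1,[y3,z1,z3]),(z1,
    [z0,z1]),(z1,[z3,y1])],.ref k10 k0 [(z1,[z0,z1]),(z1,[z0,z0,z1]),(z1,[y1,z0,y1,z1])],.ref k9 k7 [(z2,[y3,z1,z6]),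
    (z1,[z0,z1]),(z2,[z3,y1])],.ref k9 k2 [(z1,[y1,z0,z3]),(z1,[z0,z1]),(z1,[z1])],.ref k12 k2 [(z2,[y1,z0,z4]),(z1,
    [z0,z1]),(z2,[z1])],.ref k13 k8 [(z1,[z0,z1]),(z1,[z0,z0,z1]),(z1,[y3,y1,y3,z3])],.ref k14 k1 [(z1,[y3,y1,y3,z3]),
    (z1,[z1]),(z1,[z0,z0,z1])],.contra [z1,z0,y1],.ref k10 k0 [(z1,[z0,z1]),(z1,[z0,z0,z1]),(z1,[z1,z0,y2])],
    .ref k15 k8 [(z1,[z0,z1]),(z1,[z0,z0,z1]),(z1,[y3,y2,y6,z6])],.ref k9 k2 [(z1,[y3,y1,z0,z3]),(z1,[z0,z1]),(z1,[z3,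
    z1,z3,y3])],.contra [z1,z0,y1],.contra [z1,z0,y1],.contra [z1,z0,y1],.ref k16 k7 [(z1,[y1,z0,z1]),(z1,[z0,z1]),
    (z1,[z1])],.ref k9 k7 [(z1,[y3,y1,z0,z3]),(z1,[z0,z1]),(z1,[z3,z1,z3,y3])],.ref k14 k3 [(z1,[y3,y1,y3,z3]),(z1,
    [z1]),(z1,[z0,z0,z1])],.ref k13 k0 [(z1,[z0,z1]),(z1,[z0,z0,z1]),(z1,[y3,y1,y3,z3])],.ref k9 k7 [(z1,[y1,z0,z3]),
    (z1,[z0,z1]),(z1,[z1])]],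
    .leafM k4 [k2,k3,k4,k0,k1] [(z1,[y1,y1,y1,z3]),(z1,[z1])] [],
    .leafM k1 [k4,k0,k1,k2,k3] [(z1,[z1,z1])] [],
    .leafM k1 [k4,k0,k1,k2,k3] [(z3,[z1,z1])] [],
    .geo z9 k4 [(z4,z0),(z12,y9),(z5,z0),(z6,z0),(z0,z9)] [(z1,[z1]),(z1,[z0,z3]),(z1,[z0,z0,z1]),(z1,[y1,y3,y1,z9]),(z1,
    [])] k6,
    .tor k2 true k4 [(z1,[z0,z0,z1]),(z1,[z0,z1,y1,z1]),(z1,[z0,y1,z0,z1])],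
    .leafM k1 [k4,k0,k1,k2,k3] [(z3,[z1,z1])] []]

noncomputable def cT5_0_n0_2 : List TN :=
  [.geo z3 k4 [(y2,z6),(z3,y3),(z6,y6),(z2,z0),(z0,z3)] [(z1,[z1]),(z1,[z0,z3]),(z1,[z0,z0,z3]),(z1,[y1,y3,y3,z3]),(z1,
    [])] k6,
    .tor k2 true k0 [(z3,[y1,y1,y3,z3]),(z3,[z1,z1,z6]),(z1,[z0,z0,y1,z1])],
    .leafM k5 [k2,k3,k4,k0,k1] [(z3,[y3,y2,y2,z6]),(z1,[z1])] [],
    .tor k1 true k2 [(z1,[z1,z2]),(z1,[y1,y1,z0,z1]),(z1,[z0,y1,z0,z1])],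
    .lp [k128,k118,k182,k116,k172] [k51,k3,k32,k32,k0,k0,k33,k33,k5,k5] k0 [[k0,k0,k2,k0,k0,k0,k14],[k0,k0,k0,k0,k0,k0,k0,
    k0,k0,k32],[],[k0,k2],[],[k0,k0,k0,k0,k0,k0,k0,k0,k0,k12],[k0,k0,k0,k0,k0,k0,k0,k0,k50],[k0,k14],[k32,k0,k0,k0,
    k12],[k0,k0,k0,k0,k0,k0,k0,k50]] (nat_lit 480) k6
    [[(k6,k96),(k2,k147),(k0,k160),(k8,k174),(k4,k191)],[(k7,k98),(k3,k99),(k9,k112),(k5,k129),(k1,k160)],[(k0,k99),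
    (k8,k113),(k2,k120),(k6,k131),(k4,k150)],[(k7,k117),(k3,k120),(k9,k145),(k1,k147),(k5,k150)],[(k0,k129),(k6,k149),
    (k2,k150),(k8,k177),(k4,k182)],[(k7,k149),(k3,k150),(k9,k177),(k5,k182),(k1,k191)],[(k0,k98),(k6,k116),(k2,k117),
    (k8,k132),(k4,k149)],[(k1,k96),(k7,k116),(k3,k131),(k9,k144),(k5,k149)],[(k0,k112),(k6,k144),(k2,k145),(k4,k177),
    (k8,(nat_lit 222))],[(k3,k113),(k7,k132),(k1,k174),(k5,k177),(k9,(nat_lit 222))]]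
    [] k0
    [[k2,k1,k0,k0,k0],[k2,k0,k0,k1,k0],[k2,k1,k0,k1,k0],[k2,k0,k0,k2,k0],[k2,k0,k0,k0,k1],[k1,k2,k0,k0,k0],[k1,k1,k1,
    k0,k0],[k1,k1,k0,k1,k0],[k1,k1,k0,k0,k1],[k1,k0,k1,k1,k0],[k1,k2,k0,k1,k0],[k1,k1,k0,k2,k0],[k1,k1,k0,k1,k1],[k1,
    k0,k0,k2,k0],[k1,k0,k0,k3,k0],[k1,k0,k0,k2,k1],[k1,k0,k0,k1,k1],[k0,k3,k0,k0,k0],[k0,k2,k1,k0,k0],[k0,k2,k0,k1,
    k0],[k0,k2,k0,k0,k1],[k0,k1,k1,k1,k0],[k0,k1,k1,k0,k1],[k0,k1,k0,k2,k0],[k0,k1,k0,k1,k1],[k0,k0,k1,k2,k0],[k0,k0,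
    k1,k1,k1],[k0,k0,k0,k3,k0],[k0,k0,k0,k4,k0],[k0,k0,k0,k2,k1]]
    [.ref k18 k5 [(z1,[y3,z2,z3]),(z1,[z0,y1,y3,z3]),(z1,[z0,z1])],.ref k2 k7 [(z1,[y3,z2,z3]),(z1,[z0,z1]),(z1,[z0,
    y1,y3,z3])],.contra [y1,z1,z1],.ref k18 k5 [(z2,[z3,y2]),(z1,[z0,y1,y3,z3]),(z1,[z0,z1])],.ref k1 k2 [(z1,[z3,
    y2]),(z1,[z0,z1]),(z1,[z0,z0,z1])],.ref k18 k5 [(z2,[y3,z1,z6]),(z1,[z0,y1,y3,z3]),(z1,[z0,z1])],.ref k19 k6 [(z1,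
    [y1,z0,y1,z1]),(z1,[z0,z0,z1]),(z1,[z3,y1])],.contra [z1,z0,y1],.ref k20 k3 [(z1,[y3,z1,z3]),(z1,[z0,y1,y3,z3]),
    (z1,[z3,y1])],.ref k11 k7 [(z1,[y3,z1,z3]),(z1,[z0,z1]),(z1,[z0,y1,y3,z3])],.ref k2 k7 [(z1,[z3,y1,y3]),(z1,[z0,
    z1]),(z1,[z0,y1,y3,z3])],.ref k18 k5 [(z1,[z3,y1,y3]),(z1,[z0,y1,y3,z3]),(z1,[z0,z1])],.contra [y1,z0,z0,z1],
    .ref k2 k7 [(z2,[y3,z1,z6]),(z1,[z0,z1]),(z1,[z0,y1,y3,z3])],.ref k21 k3 [(z1,[z3,y1]),(z1,[z0,y1,y3,z3]),(z1,[y3,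
    z1,z9])],.ref k22 k6 [(z1,[z3,y1,y6]),(z1,[z0,z0,z1]),(z1,[y1,z0,z1,z1])],.ref k23 k4 [(z1,[y3,z1,z3]),(z1,[z0,y1,
    y3,z3]),(z1,[z3,y1])],.ref k18 k5 [(z1,[y1,z0,z3]),(z1,[z0,y1,y3,z3]),(z1,[z0,z1])],.ref k22 k6 [(z1,[y3,y1,y3,
    z3]),(z1,[z0,z0,z1]),(z1,[z1])],.contra [z1,z0,y1],.ref k24 k1 [(z1,[y3,y1,y3,z3]),(z1,[z0,z0,z1]),(z1,[z1])],
    .contra [z1,z0,y1],.ref k18 k5 [(z1,[y3,y1,z0,z3]),(z1,[z0,y1,y3,z3]),(z1,[z0,z1])],.contra [z1,z0,y1],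
    .contra [z1,z0,y1],.ref k25 k2 [(z1,[y3,y1,y3,z3]),(z1,[z0,z1]),(z1,[z0,z0,z1])],.ref k2 k7 [(z1,[y3,y1,z0,z3]),
    (z1,[z0,z1]),(z1,[z0,y1,y3,z3])],.ref k2 k7 [(z1,[y1,z0,z3]),(z1,[z0,z1]),(z1,[z0,y1,y3,z3])],.ref k26 k7 [(z2,
    [y1,z0,z4]),(z1,[z0,z1]),(z1,[z0,y1,y3,z3])],.ref k27 k6 [(z1,[z1,z0,y2]),(z1,[z0,z0,z1]),(z1,[y3,y1,z3,z3])]],
    .leafM k1 [k4,k0,k1,k2,k3] [(z3,[z1,z1])] [],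
    .leafM k1 [k4,k0,k1,k2,k3] [(z3,[z1,z1])] [],
    .leafM k1 [k1,k2,k3,k4,k0] [(z1,[z0,z0,z1])] [],
    .geo z3 k3 [(y3,z9),(z4,y6),(z6,y6),(z0,z3),(z2,z0)] [(z1,[z3]),(z1,[z0,z1]),(z1,[z0,z0,z3]),(z1,[]),(z1,[y3,y1,y3,
    z3])] k7,
    .geo z3 k4 [(y3,z9),(z4,y6),(z6,y6),(z2,z0),(z0,z3)] [(z1,[z3]),(z1,[z0,z1]),(z1,[z0,z0,z3]),(z1,[y3,y1,y3,z3]),(z1,
    [])] k7,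
    .geo z6 k3 [(z0,z9),(z8,y12),(z6,y3),(z0,z6),(z4,z0)] [(z1,[z3]),(z1,[z0,z2]),(z1,[z0,z0,z3]),(z1,[]),(z1,[y3,y2,y3,
    z6])] k9,
    .leafM k1 [k0,k1,k2,k3,k4] [(z3,[z0,z1,z1])] []]

noncomputable def cT5_0_n0_3 : List TN :=
  [.leafM k4 [k3,k4,k0,k1,k2] [(z1,[y1,y1,y1,z3]),(z1,[z0,z1])] [],
    .leafM k4 [k2,k3,k4,k0,k1] [(z2,[y2,y3,y3,z6]),(z1,[z1])] [],
    .geo z3 k3 [(z0,z9),(z4,y6),(z3,y6),(z0,z3),(z2,z0)] [(z1,[z3]),(z1,[z0,z1]),(z1,[z0,z0,z3]),(z1,[]),(z1,[y3,y1,y3,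
    z3])] k6,
    .geo z3 k4 [(y1,z3),(z2,z0),(z2,z0),(z6,y6),(z0,z3)] [(z1,[z1]),(z1,[z0,z1]),(z1,[z0,z0,z1]),(z1,[y1,y1,y1,z3]),(z1,
    [])] k7,
    .leafM k0 [k0,k1,k4] [] [(k2,k3,z3,[y1,y1,z0,z3]),(k3,k2,z3,[y1,y1,z0,z3])],
    .lp [k150,k108,k160,k148,k152] [k5,k5,k26,k26,k0,k0,k6,k6,k4,k4] k0 [[k0,k0,k24],[k0,k0,k0,k0,k0,k0,k0,k0,k0,k28],[k0,
    k0,k0,k0,k0,k0,k0,k0,k34],[k0,k24,k0,k0,k0,k0,k0,k38],[k0,k0,k0,k0,k0,k0,k76],[k0,k0,k0,k0,k0,k0,k0,k0,k0,k34],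
    [k0,k0,k38,k0,k0,k0,k0,k0,k58],[k0,k0,k0,k0,k0,k76],[k28,k0,k0,k0,k34],[k0,k0,k0,k34,k0,k0,k0,
    k58]] (nat_lit 480) k6
    [[(k6,k91),(k2,k95),(k8,k151),(k0,k178),(k4,k189)],[(k3,k129),(k5,k131),(k7,k149),(k9,k151),(k1,k178)],[(k8,k102),
    (k6,k128),(k0,k129),(k2,k132),(k4,k134)],[(k1,k95),(k7,k128),(k3,k132),(k5,k134),(k9,k168)],[(k6,k116),(k0,k131),
    (k2,k134),(k4,k160),(k8,k190)],[(k9,k80),(k3,k134),(k7,k154),(k5,k160),(k1,k189)],[(k8,k116),(k2,k128),(k0,k149),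
    (k4,k154),(k6,(nat_lit 224))],[(k1,k91),(k5,k116),(k3,k128),(k9,k150),(k7,(nat_lit 224))],[(k4,k80),(k6,k150),(k0,
    k151),(k2,k168),(k8,(nat_lit 210))],[(k3,k102),(k7,k116),(k1,k151),(k5,k190),(k9,(nat_lit 210))]]
    [] k0
    [[k2,k1,k0,k0,k0],[k2,k0,k0,k1,k0],[k2,k2,k0,k0,k0],[k2,k1,k0,k1,k0],[k1,k2,k0,k0,k0],[k1,k1,k1,k0,k0],[k1,k1,k0,
    k1,k0],[k1,k1,k0,k0,k1],[k1,k1,k1,k0,k1],[k1,k0,k1,k1,k0],[k1,k1,k0,k1,k1],[k1,k0,k0,k2,k0],[k1,k0,k0,k1,k1],[k1,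
    k0,k1,k1,k1],[k1,k0,k1,k0,k1],[k0,k3,k0,k0,k0],[k0,k2,k1,k0,k0],[k0,k2,k0,k1,k0],[k0,k2,k0,k0,k1],[k0,k2,k1,k0,
    k1],[k0,k1,k2,k0,k0],[k0,k1,k1,k1,k0],[k0,k1,k0,k1,k1],[k0,k1,k1,k1,k1],[k0,k1,k1,k0,k1],[k0,k1,k2,k0,k1],[k0,k0,
    k2,k1,k0],[k0,k0,k2,k1,k1],[k0,k0,k2,k0,k1],[k0,k0,k1,k1,k1],[k0,k0,k0,k1,k2]]
    [.contra [y6,z4,z1],.ref k2 k7 [(z2,[y3,z2,z1]),(z1,[z0,z1]),(z2,[y3,z0,y1,z6])],.ref k2 k7 [(z2,[z3,y2]),(z1,[z0,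
    z1]),(z2,[z3,y4,y2,z6])],.contra [z6,y4,y1],.contra [y3,z1,z1],.ref k29 k6 [(z1,[y3,z0,y1,z3]),(z1,[z0,z0,z1]),
    (z1,[z3,y1])],.contra [y3,z1,z1],.ref k30 k3 [(z1,[y6,z2,z1]),(z1,[z3,y2,y1,z3]),(z1,[z3,y1])],.contra [y1,z0,z0,
    z1],.ref k14 k3 [(z1,[z6,z0,z1,y6]),(z3,[y3,y1,y1,z6]),(z1,[y1,z0,z0,z1])],.contra [y1,z0,z0,z1],.ref k2 k7 [(z4,
    [y3,z1,z2]),(z1,[z0,z1]),(z4,[y3,y3,y2,z12])],.ref k31 k6 [(z3,[z3,y1,y1]),(z1,[z0,z0,z1]),(z1,[y1,z0,z0,z1])],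
    .contra [y1,z0,z0,z1],.ref k2 k7 [(z1,[z3,z0,z1,y3]),(z1,[z0,z1]),(z1,[z3,y1])],.contra [y2,z0,z1],
    .ref k32 k6 [(z3,[y3,y1,y1,z3]),(z1,[z0,z0,z1]),(z1,[z1])],.contra [z3,z2,y1],.ref k33 k1 [(z3,[y3,y1,y1,z3]),(z1,
    [z0,z0,z1]),(z1,[z1])],.ref k2 k7 [(z3,[z3,z1,z1,y3]),(z1,[z0,z1]),(z3,[z3,y2,y2,z6])],.ref k34 k6 [(z3,[y3,y2,y2,
    z6]),(z1,[z0,z0,z1]),(z1,[z1])],.ref k35 k7 [(z1,[y3,z0,z1]),(z1,[z0,z1]),(z1,[y3,y1,z0,z3])],.ref k36 k4 [(z1,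
    [y3,z0,z1]),(z1,[y3,y1,z0,z3]),(z1,[z6,z0,y1])],.contra [y1,z0,z0,z1],.ref k37 k3 [(z1,[y3,y1,z0,z3]),(z3,[z3,y1,
    y1,z3]),(z3,[z3,z1,z1,y3])],.ref k38 k6 [(z3,[y3,y2,y2,z6]),(z1,[z0,z0,z1]),(z3,[z3,z1,z1,y3])],.ref k39 k7 [(z2,
    [y3,z0,z1]),(z1,[z0,z1]),(z2,[y3,y2,y1,z6])],.ref k40 k1 [(z1,[z3,z1,z0,y3]),(z1,[z0,z0,z1]),(z1,[y3,y2,y1,z6])],
    .ref k31 k6 [(z3,[y3,y2,y2,z6]),(z1,[z0,z0,z1]),(z3,[z3,z1,z1,y3])],.ref k2 k7 [(z1,[y3,y1,z0,z3]),(z1,[z0,z1]),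
    (z1,[y3,y2,y1,z6])],.ref k3 k4 [(z2,[y3,z0,z1]),(z2,[y3,y2,y1,z6]),(z1,[z1])]],
    .geo z3 k3 [(y5,z9),(z6,y6),(z6,y6),(z0,z3),(z2,z0)] [(z1,[z1]),(z1,[z0,z3]),(z1,[z0,z0,z3]),(z1,[]),(z1,[y1,y3,y3,
    z3])] k7,
    .geo z6 k4 [(z4,z0),(z6,y3),(z0,z6),(z8,y9),(z0,z6)] [(z1,[z2]),(z1,[z0,z3]),(z1,[z0,z0,z6]),(z1,[y2,y3,y6,z6]),(z1,
    [])] k5,
    .leafM k1 [k2,k3,k4,k0,k1] [(z1,[y1,y1,z0,z1])] [],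
    .leafM k6 [k4,k0,k1,k2,k3] [(z1,[z1]),(z1,[z0,z0,z1])] [],
    .geo z3 k3 [(y3,z6),(z4,y3),(z6,y6),(z0,z3),(z2,z0)] [(z1,[z3]),(z1,[z0,z1]),(z1,[z0,z0,z3]),(z1,[]),(z1,[y3,y1,y3,
    z3])] k7,
    .leafM k4 [k3,k4,k0,k1,k2] [(z1,[y3,y1,y3,z3]),(z1,[z0,z1])] []]

noncomputable def cT5_0_n0_4 : List TN :=
  [.geo z3 k3 [(y6,z9),(z7,y6),(z6,y6),(z0,z3),(z2,z0)] [(z1,[z3]),(z1,[z0,z1]),(z1,[z0,z0,z3]),(z1,[]),(z1,[y3,y1,y3,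
    z3])] k8,
    .geo z6 k4 [(z4,z0),(z6,y3),(y4,z9),(z12,y12),(z0,z6)] [(z1,[z2]),(z1,[z0,z3]),(z1,[z0,z0,z1]),(z1,[y2,y3,y1,z6]),(z1,
    [])] k4,
    .leafM k1 [k1,k2,k3,k4,k0] [(z3,[y1,y1,z0,z3])] [],
    .geo z9 k4 [(z6,z0),(z7,y3),(z4,z6),(z10,y12),(z0,z9)] [(z1,[z3]),(z1,[z0,z1]),(z1,[z0,z0,z1]),(z1,[y3,y1,y1,z9]),(z1,
    [])] k4,
    .geo z3 k3 [(y6,z12),(z7,y9),(z6,y6),(z0,z3),(z2,z0)] [(z1,[z3]),(z1,[z0,z1]),(z1,[z0,z0,z3]),(z1,[]),(z1,[y3,y1,y3,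
    z3])] k7,
    .leafM k1 [k4,k0,k1,k2,k3] [(z3,[z1,z1])] [],
    .geo z3 k4 [(z2,z0),(z5,y3),(y4,z6),(z6,y6),(z0,z3)] [(z1,[z1]),(z1,[z0,z1]),(z1,[z0,z0,z1]),(z1,[y1,y1,y1,z3]),(z1,
    [])] k4,
    .lp [k74,k80,k58,k90,k56] [k10,k6,k0,k10,k16,k16,k0,k0,k17,k17] k0 [[],[k0,k0,k0,k0,k0,k0,k0,k0,k0,k12],[k0,k0,k0,k0,
    k50],[k0,k0,k0,k0,k0,k0,k0,k16],[k0,k0,k0,k0,k0,k0,k4],[k0,k0,k0,k50],[k0,k0,k16,k0,k0,k0,k0,k0,k44],[k0,k0,k0,k0,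
    k0,k4],[k12],[k0,k0,k0,k0,k0,k0,k0,k44]] (nat_lit 240) k7
    [[(k6,k40),(k8,k67),(k4,k68),(k2,k84),(k0,k86)],[(k9,k63),(k5,k64),(k3,k70),(k7,k80),(k1,k86)],[(k8,k51),(k4,k64),
    (k0,k70),(k2,k80),(k6,k80)],[(k7,k40),(k5,k74),(k3,k80),(k1,k84),(k9,k89)],[(k8,k57),(k6,k58),(k0,k64),(k2,k74),
    (k4,k108)],[(k9,k53),(k3,k64),(k1,k68),(k7,k74),(k5,k108)],[(k2,k40),(k8,k73),(k4,k74),(k0,k80),(k6,k94)],[(k1,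
    k40),(k5,k58),(k9,k73),(k3,k80),(k7,k94)],[(k4,k53),(k0,k63),(k6,k73),(k2,k89),(k8,k100)],[(k3,k51),(k5,k57),(k1,
    k67),(k7,k73),(k9,k100)]]
    [] k0
    [[k2,k0,k1,k0,k0],[k2,k0,k0,k1,k0],[k2,k1,k0,k1,k0],[k2,k0,k0,k0,k1],[k1,k2,k0,k0,k0],[k1,k1,k1,k0,k0],[k1,k1,k0,
    k0,k1],[k1,k0,k1,k1,k0],[k1,k1,k1,k1,k0],[k1,k0,k1,k0,k1],[k1,k1,k0,k1,k0],[k1,k2,k0,k1,k0],[k1,k1,k0,k1,k1],[k1,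
    k0,k1,k1,k1],[k1,k0,k0,k2,k0],[k1,k0,k0,k1,k1],[k1,k0,k0,k0,k2],[k0,k2,k1,k0,k0],[k0,k2,k0,k1,k0],[k0,k2,k0,k0,
    k1],[k0,k1,k1,k1,k0],[k0,k1,k1,k0,k1],[k0,k1,k1,k1,k1],[k0,k1,k0,k2,k0],[k0,k1,k0,k1,k1],[k0,k0,k2,k0,k1],[k0,k0,
    k1,k2,k0],[k0,k0,k1,k1,k1],[k0,k0,k2,k0,k2],[k0,k0,k1,k0,k2]]
    [.ref k42 k3 [(z1,[y3,y1]),(z1,[z1]),(z3,[z0,z2,z1])],.ref k43 k2 [(z1,[z0,y1,y1,z3]),(z1,[z1]),(z3,[y3,z2,z1])],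
    .contra [z3,y2,y1],.ref k0 k2 [(z1,[z0,y1,y1,z3]),(z2,[z3,z1,z1,y3]),(z1,[y3,z1,z0,z3])],.ref k0 k2 [(z1,[z0,y1,
    y1,z3]),(z3,[y3,z4,z2]),(z3,[z6,y2,y1])],.ref k44 k0 [(z3,[y3,z2,z1]),(z3,[z6,y2,y1]),(z1,[y3,z1,z1])],
    .ref k0 k2 [(z1,[z0,y1,y1,z3]),(z1,[y3,z1,z0,z3]),(z1,[z6,z0,z1,y6])],.ref k45 k7 [(z1,[y3,z1,z1]),(z1,[z3,z1]),
    (z1,[z0,y1,y1,z3])],.contra [y1,z0,z0,z1],.ref k46 k3 [(z3,[y3,y2,y1,z3]),(z1,[z3,z1,z1,y3]),(z3,[z0,z2,z1])],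
    .ref k47 k3 [(z3,[z3,y2,y1]),(z1,[y3,z1,z1]),(z3,[z0,z2,z1])],.ref k48 k3 [(z3,[z3,y4,y2]),(z1,[y3,z3,z2]),(z3,
    [z0,z2,z1])],.contra [y1,z0,z0,z1],.contra [y1,z0,z0,z1],.ref k49 k6 [(z1,[z0,y1,y1,z3]),(z1,[z1]),(z1,[y3,y2])],
    .ref k50 k6 [(z1,[z0,y1,y1,z3]),(z1,[z3,z1,z1,y3]),(z3,[y3,y2,y1,z3])],.ref k0 k2 [(z1,[z0,y1,y1,z3]),(z1,[z3,z2,
    z2,y6]),(z1,[y6,y2,y3,z12])],.ref k51 k2 [(z1,[z0,y1,y1,z3]),(z1,[y3,z3,z2]),(z1,[z6,z0,y1])],.ref k52 k3 [(z3,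
    [z3,y4,y2]),(z1,[y3,z3,z2]),(z3,[z0,z2,z1])],.ref k0 k2 [(z1,[z0,y1,y1,z3]),(z4,[y3,z3,z1,z3]),(z2,[z3,z1,z1,
    y3])],.ref k53 k8 [(z1,[y3,z1,z1]),(z1,[z0,y1,y1,z3]),(z1,[y3,z0,z1])],.ref k13 k6 [(z1,[z0,y1,y1,z3]),(z1,[y1,z0,
    z0,z1]),(z1,[z3,y1,z0,y3])],.contra [y1,z0,z0,z1],.ref k47 k3 [(z6,[z3,y2,y1]),(z2,[y3,z0,z1]),(z3,[z0,z2,z1])],
    .ref k22 k3 [(z1,[z3,y1,z0,y3]),(z1,[y1,z0,z0,z1]),(z3,[z0,z2,z1])],.ref k3 k3 [(z2,[y3,y3,y1,z3]),(z2,[z3,z1,z1,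
    y3]),(z3,[z0,z2,z1])],.ref k54 k2 [(z1,[z0,y1,y1,z3]),(z1,[z3,z1]),(z1,[y6,z0,z1])],.contra [z3,z2,z1,y3],
    .ref k47 k3 [(z6,[y3,y4,y2,z6]),(z2,[z3,z2,z2,y6]),(z3,[z0,z2,z1])],.ref k3 k3 [(z1,[y3,y3,y2,z6]),(z1,[z3,z2,z2,
    y6]),(z3,[z0,z2,z1])]],
    .geo z3 k4 [(y1,z3),(z6,y6),(z2,z0),(z2,z0),(z0,z3)] [(z1,[z1]),(z1,[z0,z3]),(z1,[z0,z0,z1]),(z1,[y1,y3,y1,z3]),(z1,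
    [])] k6,
    .leafM k1 [k4,k0,k1,k2,k3] [(z1,[z1,z1])] [],
    .leafM k1 [k4,k0,k1,k2,k3] [(z1,[z1,z1])] [],
    .leafM k1 [k1,k2,k3,k4,k0] [(z1,[z0,z0,z1])] []]

noncomputable def cT5_0_n0_5 : List TN :=
  [.leafM k1 [k0,k1,k2,k3,k4] [(z3,[z0,z1,z1])] [],
    .leafM k6 [k4,k0,k1,k2,k3] [(z1,[z1]),(z1,[z0,z0,z1])] [],
    .geo z3 k4 [(y6,z12),(z6,y6),(z7,y9),(z2,z0),(z0,z3)] [(z1,[z3]),(z1,[z0,z3]),(z1,[z0,z0,z1]),(z1,[y3,y3,y1,z3]),(z1,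
    [])] k13,
    .leafM k1 [k4,k0,k1,k2,k3] [(z3,[z1,z1])] [],
    .geo z3 k4 [(y4,z6),(z6,y6),(z5,y3),(z2,z0),(z0,z3)] [(z1,[z1]),(z1,[z0,z3]),(z1,[z0,z0,z1]),(z1,[y1,y3,y1,z3]),(z1,
    [])] k6,
    .geo z3 k3 [(y6,z12),(z6,y6),(z7,y9),(z0,z3),(z2,z0)] [(z1,[z3]),(z1,[z0,z3]),(z1,[z0,z0,z1]),(z1,[]),(z1,[y3,y3,y1,
    z3])] k13,
    .lp [k120,k190,k148,k128,k132] [k35,k35,k0,k0,k21,k21,k31,k31,k29,k29] k0 [[k0,k0,k5,k0,k0,k0,k30],[k0,k0,k0,k0,k0,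
    k38,k0,k0,k0,k44],[k0,k0,k0,k0,k63,k0,k0,k0,k25],[k0,k5,k0,k0,k0,k0,k0,k42],[k38,k0,k0,k0,k0,k0,k36],[k0,k0,k0,
    k63,k0,k0,k0,k0,k0,k6],[k0,k0,k42,k0,k0,k0,k0,k0,k28],[k0,k30,k0,k0,k0,k36],[k44,k0,k0,k0,k6],[k0,k0,k0,k25,k0,k0,
    k0,k28]] (nat_lit 480) k6
    [[(k6,k96),(k8,k126),(k2,k130),(k4,k140),(k0,k164)],[(k9,k96),(k5,k129),(k3,k155),(k7,k162),(k1,k164)],[(k8,k117),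
    (k4,k131),(k0,k155),(k6,k189),(k2,k195)],[(k7,k96),(k1,k130),(k5,k169),(k3,k195),(k9,(nat_lit 203))],[(k6,k96),
    (k0,k129),(k8,k165),(k2,k169),(k4,(nat_lit 211))],[(k9,k104),(k3,k131),(k7,k138),(k1,k140),(k5,(nat_lit 211))],
    [(k2,k96),(k8,k124),(k4,k138),(k0,k162),(k6,k164)],[(k1,k96),(k5,k96),(k9,k130),(k7,k164),(k3,k189)],[(k0,k96),
    (k4,k104),(k6,k130),(k8,k160),(k2,(nat_lit 203))],[(k3,k117),(k7,k124),(k1,k126),(k9,k160),(k5,k165)]]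
    [] k0
    [[k2,k1,k0,k0,k0],[k2,k0,k1,k0,k0],[k2,k0,k0,k1,k0],[k2,k0,k0,k0,k1],[k1,k1,k1,k0,k0],[k1,k1,k0,k0,k1],[k1,k0,k1,
    k1,k0],[k1,k0,k1,k1,k1],[k1,k0,k1,k0,k1],[k1,k1,k0,k1,k0],[k1,k1,k1,k1,k0],[k1,k1,k0,k1,k1],[k1,k0,k0,k2,k0],[k1,
    k0,k0,k1,k1],[k1,k0,k0,k1,k2],[k2,k0,k0,k0,k2],[k1,k0,k0,k0,k2],[k0,k1,k1,k1,k0],[k0,k1,k0,k2,k0],[k0,k1,k1,k0,
    k1],[k0,k1,k1,k1,k1],[k0,k1,k0,k1,k1],[k0,k0,k2,k1,k0],[k0,k0,k2,k2,k0],[k0,k0,k1,k2,k0],[k0,k0,k1,k1,k1],[k0,k0,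
    k1,k0,k2],[k0,k0,k0,k2,k1],[k0,k0,k0,k1,k2]]
    [.ref k1 k0 [(z1,[z0,z1]),(z1,[z3,y2]),(z1,[z1,y1,y1,z1])],.ref k5 k6 [(z1,[y3,z1,y3,z3]),(z1,[z0,z0,z1]),(z1,[z3,
    y2])],.ref k1 k0 [(z1,[z0,z1]),(z2,[y3,z2,z3]),(z2,[y1,z0,y1,z2])],.ref k56 k1 [(z1,[y3,z1,y3,z3]),(z1,[z0,z0,
    z1]),(z1,[z3,y2])],.ref k57 k6 [(z1,[y1,z0,y1,z1]),(z1,[z0,z0,z1]),(z1,[z3,y1])],.ref k58 k1 [(z1,[y1,z0,y1,z1]),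
    (z1,[z0,z0,z1]),(z1,[z3,y1])],.ref k14 k1 [(z1,[z3,y1,y3]),(z1,[z0,z0,z1]),(z1,[y1,z0,z0,z1])],.contra [y1,z0,z0,
    z1],.contra [z1,z0,z1,y1],.ref k1 k0 [(z1,[z0,z1]),(z1,[y3,z1,z3]),(z1,[y1,z0,z0,z1])],.contra [y1,z0,z0,z1],
    .contra [y1,z0,z0,z1],.ref k1 k0 [(z1,[z0,z1]),(z4,[y3,z1,z6]),(z4,[y1,y1,y2,z4])],.ref k59 k6 [(z1,[z3,y1,y3]),
    (z1,[z0,z0,z1]),(z1,[y1,z0,z0,z1])],.ref k5 k6 [(z2,[z3,y1,y3]),(z1,[z0,z0,z1]),(z2,[y3,y1,y3,z6])],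
    .ref k60 k7 [(z2,[z1,z0,z2,y2]),(z1,[z0,z1]),(z2,[z3,y2])],.ref k56 k1 [(z2,[y3,y1,y6,z6]),(z1,[z0,z0,z1]),(z2,
    [z3,y1])],.ref k60 k7 [(z1,[y1,z0,z1]),(z1,[z0,z1]),(z1,[y3,y1,z0,z3])],.ref k1 k0 [(z1,[z0,z1]),(z1,[y1,z0,z2]),
    (z3,[y1,y1,y1,z3])],.ref k61 k5 [(z1,[y3,y1,z0,z3]),(z1,[z3,y1,y3,z3]),(z1,[z0,z1])],.contra [y1,z0,z0,z1],
    .ref k47 k4 [(z1,[y1,z0,z1]),(z1,[y3,y1,z0,z3]),(z1,[z2,z0,y1])],.ref k60 k7 [(z2,[y1,z0,z1]),(z1,[z0,z1]),(z2,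
    [y3,y2,y3,z6])],.ref k58 k1 [(z2,[z1,z0,y2]),(z1,[z0,z0,z1]),(z2,[y3,y2,z0,z6])],.ref k62 k1 [(z1,[z1,z0,y2]),(z1,
    [z0,z0,z1]),(z1,[y3,y1,z3,z3])],.ref k63 k7 [(z1,[y3,y1,z0,z3]),(z1,[z0,z1]),(z1,[y3,y2,y3,z6])],.ref k64 k1 [(z1,
    [y3,y2,y6,z6]),(z1,[z0,z0,z1]),(z1,[z3,z1,z3,y3])],.ref k65 k6 [(z1,[z1,z0,y2]),(z1,[z0,z0,z1]),(z1,[y3,y1,z3,
    z3])],.ref k47 k4 [(z2,[y1,z0,z1]),(z2,[y3,y2,y3,z6]),(z1,[z1])]],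
    .leafM k1 [k2,k3,k4,k0,k1] [(z6,[y2,y3,y1,z6])] [],
    .leafM k6 [k0,k1,k2,k3,k4] [(z1,[z0,z1]),(z1,[y3,y1,y3,z3])] [],
    .geo z3 k4 [(y3,z6),(z4,y3),(z6,y6),(z2,z0),(z0,z3)] [(z1,[z3]),(z1,[z0,z1]),(z1,[z0,z0,z3]),(z1,[y3,y1,y3,z3]),(z1,
    [])] k7,
    .leafM k6 [k3,k4,k0,k1,k2] [(z1,[y3,y1,y3,z3]),(z1,[z0,z1])] [],
    .leafM k1 [k4,k0,k1,k2,k3] [(z3,[z1,z1])] []]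

noncomputable def cT5_0_n0_6 : List TN :=
  [.geo z12 k4 [(z8,z0),(z12,y6),(z6,z3),(z10,y9),(z0,z12)] [(z1,[z4]),(z1,[z0,z6]),(z1,[z0,z0,z3]),(z1,[y4,y6,y3,z12]),
    (z1,[])] k4,
    .leafM k1 [k0,k1,k2,k3,k4] [(z2,[z0,z1,z1])] [],
    .geo z3 k4 [(y6,z12),(z7,y9),(z6,y6),(z2,z0),(z0,z3)] [(z1,[z3]),(z1,[z0,z1]),(z1,[z0,z0,z3]),(z1,[y3,y1,y3,z3]),(z1,
    [])] k8,
    .leafM k1 [k4,k0,k1,k2,k3] [(z3,[z1,z1])] [],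
    .geo z3 k4 [(y4,z6),(z2,z0),(z5,y3),(z6,y6),(z0,z3)] [(z1,[z1]),(z1,[z0,z1]),(z1,[z0,z0,z1]),(z1,[y1,y1,y1,z3]),(z1,
    [])] k7,
    .geo z6 k4 [(z4,z0),(z6,y3),(z4,z3),(z4,y6),(z0,z6)] [(z1,[z2]),(z1,[z0,z3]),(z1,[z0,z0,z1]),(z1,[y2,y3,y1,z6]),(z1,
    [])] k3,
    .lp [k42,k41,k35,k43,k18] [k1,k1,k2,k1,k1,k8,k1,k0,k13,k13] k0 [[],[k0,k0,k0,k0,k0,k5],[k0,k0,k0,k0,k5,k0,k0,k0,k7],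
    [k0,k0,k0,k0,k0,k0,k0,k1],[k5],[k0,k0,k0,k5,k0,k0,k0,k0,k0,k1],[k0,k0,k1,k0,k0,k0,k0,k0,k12],[],[k0,k0,k0,k0,k1],
    [k0,k0,k0,k7,k0,k0,k0,k12]] k120 k5
    [[(k6,k30),(k8,k30),(k2,k34),(k0,k42),(k4,k43)],[(k9,k30),(k5,k35),(k1,k42),(k3,k42),(k7,k48)],[(k8,k30),(k4,k37),
    (k2,k41),(k0,k42),(k6,k42)],[(k9,k30),(k1,k34),(k5,k34),(k7,k37),(k3,k41)],[(k8,k30),(k2,k34),(k6,k34),(k0,k35),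
    (k4,k40)],[(k9,k30),(k3,k37),(k5,k40),(k1,k43),(k7,k43)],[(k8,k30),(k2,k37),(k4,k43),(k6,k43),(k0,k48)],[(k1,k30),
    (k9,k30),(k5,k34),(k3,k42),(k7,k43)],[(k0,k30),(k2,k30),(k4,k30),(k6,k30),(k8,k30)],[(k1,k30),(k3,k30),(k5,k30),
    (k7,k30),(k9,k30)]]
    [] k0
    [[k2,k1,k0,k0,k0],[k2,k0,k0,k0,k1],[k1,k2,k0,k0,k0],[k1,k1,k1,k0,k0],[k1,k1,k0,k0,k1],[k1,k0,k2,k0,k0],[k1,k0,k1,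
    k0,k1],[k1,k1,k0,k1,k0],[k1,k0,k1,k1,k0],[k1,k0,k0,k1,k1],[k1,k0,k0,k0,k2],[k0,k2,k1,k0,k0],[k0,k2,k0,k0,k1],[k0,
    k1,k2,k0,k0],[k0,k1,k1,k1,k0],[k0,k1,k1,k0,k1],[k0,k1,k0,k1,k1],[k0,k1,k0,k0,k2],[k0,k0,k2,k1,k0],[k0,k0,k2,k0,
    k1],[k0,k0,k1,k1,k1],[k0,k0,k1,k0,k2],[k0,k0,k0,k2,k1],[k0,k0,k0,k1,k2],[k0,k0,k0,k0,k3]]
    [.ref k0 k0 [(z2,[z3,z0,y1]),(z1,[z0,z0,z1]),(z1,[y3,z1,z0,z3])],.ref k43 k7 [(z1,[z0,z0,z1]),(z3,[z0,z1,y1,z3]),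
    (z3,[z3,y1,z1,y3])],.ref k0 k0 [(z1,[z3,z0,y2]),(z1,[z0,z0,z1]),(z1,[y6,z1,z3,z3])],.ref k0 k0 [(z1,[y3,z1,z0,
    z3]),(z1,[z0,z0,z1]),(z1,[z6,y1,y1,y3])],.ref k67 k7 [(z1,[z0,z0,z1]),(z3,[z0,z1,y1,z3]),(z1,[z6,y1,y1,y3])],
    .ref k0 k0 [(z3,[y3,z2,y2,z6]),(z1,[z0,z0,z1]),(z3,[z6,y1,z1,y3])],.ref k68 k6 [(z3,[z3,y1,z1,y3]),(z1,[y3,z0,y1,
    z3]),(z3,[z0,z1,y1,z3])],.ref k69 k6 [(z3,[y3,y1,z1]),(z1,[z3,z0,y1]),(z3,[z0,z1,y1,z3])],.ref k70 k0 [(z3,[y3,z1,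
    y1,z3]),(z1,[z0,z0,z1]),(z3,[z6,y1,z1,y3])],.ref k71 k9 [(z1,[y3,z0,y1,z3]),(z1,[z0,z0,z1]),(z1,[z3,z1])],
    .ref k72 k7 [(z1,[z0,z0,z1]),(z3,[z0,z1,y1,z3]),(z3,[z6,y1,z1,y3])],.ref k0 k0 [(z2,[y3,z1,z1,z3]),(z1,[z0,z0,
    z1]),(z1,[z3,z0,y2])],.ref k5 k3 [(z1,[y3,y1,z2]),(z3,[z0,z1,y1,z3]),(z1,[z0,z0,z1])],.ref k0 k0 [(z4,[y3,z2,y1,
    z6]),(z1,[z0,z0,z1]),(z2,[z3,z0,y1])],.ref k73 k7 [(z1,[z0,z0,z1]),(z3,[z0,z1,y1,z3]),(z3,[y6,y1,z1,z3])],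
    .ref k24 k6 [(z1,[z3,y1,z0,y3]),(z1,[y1,z0,z0,z1]),(z3,[z0,z1,y1,z3])],.contra [z3,z1,y1],.ref k5 k3 [(z2,[y3,y2,
    z1]),(z3,[z0,z1,y1,z3]),(z1,[z0,z0,z1])],.ref k49 k7 [(z1,[z0,z0,z1]),(z3,[z0,z1,y1,z3]),(z1,[y6,y1,y1,z3])],
    .ref k74 k6 [(z3,[z3,y2,z2,y6]),(z1,[y3,z1,y2,z6]),(z3,[z0,z1,y1,z3])],.ref k75 k0 [(z1,[y3,z0,y1,z3]),(z1,[z0,z0,
    z1]),(z1,[z6,z1,z1,y3])],.ref k68 k6 [(z6,[z3,y1,z1,y3]),(z2,[y3,y1,y1,z3]),(z3,[z0,z1,y1,z3])],.ref k76 k9 [(z1,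
    [y6,y1,y1,z3]),(z1,[z0,z0,z1]),(z1,[z3,z1])],.ref k77 k7 [(z1,[z0,z0,z1]),(z3,[z0,z1,y1,z3]),(z1,[z6,z1,z1,y3])],
    .ref k5 k3 [(z1,[y1,y1]),(z3,[z0,z1,y1,z3]),(z1,[z0,z0,z1])]],
    .geo z6 k3 [(z0,z6),(z6,y3),(z8,y9),(z0,z6),(z4,z0)] [(z1,[z6]),(z1,[z0,z3]),(z1,[z0,z0,z1]),(z1,[]),(z1,[y6,y3,y1,
    z6])] k7,
    .leafM k1 [k0,k1,k2,k3,k4] [(z3,[z0,z1,z1])] [],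
    .geo z3 k3 [(y2,z6),(z4,y3),(z5,y6),(z0,z3),(z2,z0)] [(z1,[z1]),(z1,[z0,z1]),(z1,[z0,z0,z1]),(z1,[]),(z1,[y1,y1,y1,
    z3])] k9,
    .leafM k1 [k4,k0,k1,k2,k3] [(z3,[z1,z1])] [],
    .leafM k1 [k1,k2,k3,k4,k0] [(z3,[y1,y1,z0,z3])] []]

noncomputable def cT5_0_n0_7 : List TN :=
  [.leafM k6 [k4,k0,k1,k2,k3] [(z1,[z1]),(z1,[z0,z0,z1])] [],
    .lp [k148,k164,k98,k136,k172] [k12,k12,k4,k4,k37,k37,k18,k18,k0,k0] k0 [[k0,k0,k0,k0,k0,k0,k8],[k0,k0,k0,k0,k0,k0,k0,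
    k0,k0,k20],[k0,k0,k0,k0,k62],[],[k0,k0,k0,k0,k0,k0,k36],[k0,k0,k0,k62],[],[k0,k8,k0,k0,k0,k36],
    [k20]] (nat_lit 480) k6
    [[(k4,k123),(k6,k142),(k2,k156),(k8,k160),(k0,k168)],[(k5,k123),(k7,k142),(k9,k152),(k3,k156),(k1,k168)],[(k4,
    k131),(k8,k148),(k0,k156),(k6,k158),(k2,k164)],[(k7,k88),(k5,k131),(k1,k156),(k3,k164),(k9,k168)],[(k6,k117),(k0,
    k123),(k2,k131),(k8,k135),(k4,k160)],[(k9,k99),(k7,k117),(k1,k123),(k3,k131),(k5,k160)],[(k2,k88),(k4,k117),(k0,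
    k142),(k8,k154),(k6,k172)],[(k5,k117),(k1,k142),(k9,k154),(k3,k158),(k7,k172)],[(k4,k99),(k0,k152),(k6,k154),(k2,
    k168),(k8,k172)],[(k5,k135),(k3,k148),(k7,k154),(k1,k160),(k9,k172)]]
    [] k0
    [[k2,k0,k1,k0,k0],[k2,k0,k0,k1,k0],[k1,k2,k0,k0,k0],[k1,k1,k1,k0,k0],[k1,k1,k0,k1,k0],[k1,k1,k0,k0,k1],[k1,k0,k2,
    k0,k0],[k1,k0,k1,k1,k0],[k1,k0,k1,k0,k1],[k1,k0,k0,k2,k0],[k1,k0,k0,k1,k1],[k0,k2,k1,k0,k0],[k0,k2,k0,k1,k0],[k0,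
    k1,k2,k0,k0],[k0,k1,k1,k1,k0],[k0,k1,k1,k0,k1],[k0,k1,k0,k2,k0],[k0,k1,k1,k1,k1],[k0,k1,k0,k1,k1],[k0,k0,k2,k1,
    k0],[k0,k0,k2,k0,k1],[k0,k0,k2,k2,k0],[k0,k0,k2,k1,k1],[k0,k0,k1,k2,k0],[k0,k0,k1,k1,k1],[k0,k0,k2,k0,k2],[k0,k0,
    k1,k0,k2]]
    [.ref k0 k0 [(z2,[z3,z1,z1,y3]),(z1,[y3,z1,z0,z3]),(z1,[z0,y1,y1,z3])],.ref k79 k7 [(z3,[y3,z2,z1]),(z1,[z1]),(z1,
    [z3,y2])],.ref k0 k0 [(z3,[y3,z4,z2]),(z3,[z6,y2,y1]),(z1,[z0,y1,y1,z3])],.ref k0 k0 [(z1,[y3,z1,z0,z3]),(z1,[z6,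
    z0,z1,y6]),(z1,[z0,y1,y1,z3])],.ref k70 k3 [(z3,[z3,y2,y1]),(z1,[z0,y1,y1,z3]),(z3,[z0,z2,z1])],.ref k80 k6 [(z3,
    [z3,y2,y1]),(z1,[y3,z1,z1]),(z1,[z0,y1,y1,z3])],.ref k0 k0 [(z1,[z3,z2,z2,y6]),(z1,[y6,y2,y3,z12]),(z1,[z0,y1,y1,
    z3])],.ref k81 k7 [(z1,[y6,z0,y1,z6]),(z1,[z3,z1,z1,y3]),(z1,[z3,z0,z1,y3])],.ref k15 k1 [(z1,[z0,y1,y1,z3]),(z1,
    [y1,z0,z0,z1]),(z1,[z6,z0,z1,y6])],.ref k65 k7 [(z3,[y6,z2,z1]),(z1,[z1]),(z1,[z3,y1])],.ref k82 k4 [(z1,[y3,z1,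
    z1]),(z1,[z0,y1,y1,z3]),(z1,[z3,y1])],.ref k0 k0 [(z4,[y3,z3,z1,z3]),(z2,[z3,z1,z1,y3]),(z1,[z0,y1,y1,z3])],
    .ref k72 k9 [(z1,[z0,y1,y1,z3]),(z1,[z1]),(z3,[y3,z4,z2])],.ref k0 k0 [(z2,[y3,z0,y1,z6]),(z1,[z3,z2,z2,y6]),(z1,
    [z0,y1,y1,z3])],.ref k83 k1 [(z1,[z0,y1,y1,z3]),(z1,[z3,z1,z1,y3]),(z3,[y6,y2,y1,z6])],.ref k27 k7 [(z3,[z6,z2,z1,
    y6]),(z1,[y1,z0,z0,z1]),(z1,[y3,y1,z0,z3])],.ref k70 k3 [(z6,[z3,y2,y1]),(z1,[z0,y1,y1,z3]),(z3,[z0,z2,z1])],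
    .contra [y1,z0,z0,z1],.ref k84 k0 [(z1,[y3,z1,z1]),(z1,[z6,z0,y1]),(z1,[z0,y1,y1,z3])],.ref k39 k6 [(z1,[y3,y3,y2,
    z6]),(z1,[z3,z2,z2,y6]),(z1,[z0,y1,y1,z3])],.ref k3 k3 [(z1,[y3,y3,y2,z6]),(z1,[z0,y1,y1,z3]),(z3,[z0,z2,z1])],
    .ref k80 k6 [(z6,[y3,y4,y2,z6]),(z2,[z3,z2,z2,y6]),(z1,[z0,y1,y1,z3])],.ref k84 k0 [(z1,[z3,z3,z2,y6]),(z1,[y6,y4,
    y3,z12]),(z1,[z0,y1,y1,z3])],.ref k39 k6 [(z2,[y3,y3,y1,z3]),(z2,[z3,z1,z1,y3]),(z1,[z0,y1,y1,z3])],.contra [z3,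
    z2,z1,y3],.ref k70 k3 [(z6,[y3,y4,y2,z6]),(z1,[z0,y1,y1,z3]),(z3,[z0,z2,z1])],.ref k3 k3 [(z2,[y3,y3,y1,z3]),(z1,
    [z0,y1,y1,z3]),(z3,[z0,z2,z1])]],
    .leafM k1 [k4,k0,k1,k2,k3] [(z3,[z1,z1])] [],
    .leafM k6 [k4,k0,k1,k2,k3] [(z1,[z1]),(z1,[y1,y3,z3])] [],
    .geo z3 k4 [(y1,z3),(z2,z0),(z6,y6),(z2,z0),(z0,z3)] [(z1,[z1]),(z1,[z0,z1]),(z1,[z0,z0,z3]),(z1,[y1,y1,y3,z3]),(z1,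
    [])] k6,
    .leafM k1 [k4,k0,k1,k2,k3] [(z3,[z1,z1])] [],
    .leafM k1 [k2,k3,k4,k0,k1] [(z3,[y1,y1,y3,z3])] [],
    .geo z3 k4 [(y2,z12),(z2,z0),(z5,y9),(z4,y6),(z0,z3)] [(z1,[z1]),(z1,[z0,z1]),(z1,[z0,z0,z1]),(z1,[y1,y1,y1,z3]),(z1,
    [])] k7,
    .geo z3 k3 [(y4,z6),(z6,y6),(z5,y3),(z0,z3),(z2,z0)] [(z1,[z1]),(z1,[z0,z3]),(z1,[z0,z0,z1]),(z1,[]),(z1,[y1,y3,y1,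
    z3])] k5,
    .leafM k1 [k4,k0,k1,k2,k3] [(z3,[z1,z1])] [],
    .tor k0 false k2 [(z3,[z1,z2,z3]),(z1,[z0,z0,z1]),(z3,[y1,y2,y6,z6])],
    .leafM k6 [k4,k0,k1,k2,k3] [(z1,[z1]),(z1,[z0,z0,z1])] []]

noncomputable def cT5_0_n0_8 : List TN :=
  [.geo z3 k4 [(y5,z9),(z2,z0),(z6,y6),(z6,y6),(z0,z3)] [(z1,[z1]),(z1,[z0,z1]),(z1,[z0,z0,z3]),(z1,[y1,y1,y3,z3]),(z1,
    [])] k9,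
    .geo z3 k4 [(y6,z12),(z2,z0),(z7,y9),(z6,y6),(z0,z3)] [(z1,[z3]),(z1,[z0,z1]),(z1,[z0,z0,z1]),(z1,[y3,y1,y1,z3]),(z1,
    [])] k8,
    .lp [(nat_lit 267),k166,(nat_lit 258),k174,(nat_lit 212)] [k43,k0,k64,k80,k26,k26,k68,k68,k49,k49] k0 [[k0,k0,k121,k0,
    k0,k0,k78],[k0,k0,k0,k0,k0,k0,k0,k0,k0,k52],[k0,k0,k0,k0,k58],[k0,k121,k0,k0,k0,k0,k0,k60],[k0,k0,k0,k0,k0,k0,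
    k66],[k0,k0,k0,k58],[k0,k0,k60,k0,k0,k0,k0,k0,k122],[k0,k78,k0,k0,k0,k66],[k52],[k0,k0,k0,k0,k0,k0,k0,
    k122]] (nat_lit 720) k7
    [[(k6,k120),(k2,(nat_lit 246)),(k8,(nat_lit 261)),(k4,(nat_lit 284)),(k0,(nat_lit 319))],[(k5,k120),(k9,k140),(k3,
    k187),(k7,k199),(k1,(nat_lit 319))],[(k8,k129),(k0,k187),(k4,(nat_lit 204)),(k6,(nat_lit 240)),(k2,
    (nat_lit 287))],[(k7,k120),(k5,(nat_lit 220)),(k1,(nat_lit 246)),(k9,(nat_lit 257)),(k3,(nat_lit 287))],[(k0,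
    k120),(k6,k156),(k2,(nat_lit 220)),(k8,(nat_lit 235)),(k4,(nat_lit 316))],[(k9,k169),(k3,(nat_lit 204)),(k7,
    (nat_lit 216)),(k1,(nat_lit 284)),(k5,(nat_lit 316))],[(k2,k120),(k8,k193),(k0,k199),(k4,(nat_lit 216)),(k6,
    (nat_lit 240))],[(k1,k120),(k5,k156),(k9,k193),(k3,(nat_lit 240)),(k7,(nat_lit 240))],[(k0,k140),(k4,k169),(k6,
    k193),(k2,(nat_lit 257)),(k8,(nat_lit 334))],[(k3,k129),(k7,k193),(k5,(nat_lit 235)),(k1,(nat_lit 261)),(k9,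
    (nat_lit 334))]]
    [] k0
    [[k2,k0,k0,k1,k0],[k1,k1,k1,k0,k0],[k1,k1,k0,k1,k0],[k1,k1,k0,k0,k1],[k1,k1,k1,k0,k1],[k1,k0,k1,k1,k0],[k1,k0,k1,
    k0,k1],[k2,k0,k0,k2,k0],[k1,k2,k0,k1,k0],[k1,k1,k1,k1,k0],[k1,k1,k0,k2,k0],[k1,k1,k0,k1,k1],[k1,k1,k1,k1,k1],[k1,
    k0,k1,k2,k0],[k1,k0,k1,k1,k1],[k1,k0,k0,k2,k0],[k1,k0,k0,k2,k1],[k1,k0,k0,k1,k1],[k0,k2,k1,k0,k0],[k0,k2,k0,k1,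
    k0],[k0,k2,k0,k0,k1],[k0,k1,k1,k1,k0],[k0,k1,k1,k0,k1],[k0,k1,k0,k2,k0],[k0,k1,k0,k1,k1],[k0,k1,k1,k1,k1],[k0,k1,
    k0,k2,k1],[k0,k0,k2,k1,k0],[k0,k0,k1,k2,k0],[k0,k0,k1,k1,k1],[k0,k0,k0,k2,k1]]
    [.ref k88 k7 [(z1,[y3,z3,z1,y3]),(z1,[z0,z1]),(z3,[z0,y2,y1,z6])],.ref k89 k6 [(z1,[y6,z0,y1,z6]),(z1,[z3,z0,z1,
    y3]),(z1,[z3,y1])],.contra [z3,y2,y1,z3],.ref k90 k7 [(z1,[z3,z1,z1,y6]),(z1,[z0,z1]),(z3,[z0,y2,y1,z6])],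
    .contra [y1,z0,z0,z1],.ref k16 k7 [(z3,[y3,z2,z1,y3]),(z1,[z0,z1]),(z3,[z0,y2,y1,z6])],.ref k1 k2 [(z1,[z6,z0,z1,
    y6]),(z1,[z0,z1]),(z1,[y1,z0,z0,z1])],.ref k68 k1 [(z6,[z3,y4,y2,z6]),(z2,[z3,y2]),(z3,[y3,z2,z1])],
    .ref k31 k6 [(z3,[y6,z2,z1]),(z1,[z3,y1]),(z3,[z3,y2,y1,z3])],.contra [y1,z0,z0,z1],.ref k90 k7 [(z1,[y3,z3,z2,
    y6]),(z1,[z0,z1]),(z3,[z0,y2,y1,z6])],.contra [y1,z0,z0,z1],.contra [y1,z1,z0,z1],.ref k91 k2 [(z1,[y6,z0,y1,z6]),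
    (z1,[z0,z1]),(z1,[z3,z0,z1,y3])],.contra [y1,z0,z0,z1],.ref k88 k7 [(z2,[y3,z3,z2,y6]),(z1,[z0,z1]),(z3,[z0,y2,y1,
    z6])],.ref k56 k5 [(z2,[z3,z1,z1,y6]),(z3,[z0,y2,y1,z6]),(z1,[z0,z1])],.ref k31 k6 [(z3,[z6,y2,y1]),(z1,[y3,z1,
    z1]),(z1,[y1,z0,z0,z1])],.ref k52 k6 [(z3,[y6,y2,y1,z6]),(z1,[z3,z1,z1,y3]),(z1,[z1])],.ref k92 k6 [(z1,[y6,z0,
    z1]),(z1,[z1]),(z1,[z3,y1,y1,z3])],.ref k68 k1 [(z6,[y3,y2,y1,z6]),(z2,[y3,z0,z1]),(z1,[z1])],.ref k93 k2 [(z1,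
    [y3,y1,z0,z3]),(z1,[z0,z1]),(z1,[z3,z1,z1,y3])],.ref k68 k1 [(z3,[y3,y2,y1,z6]),(z1,[y3,y1,z0,z3]),(z3,[z6,z2,z1,
    y6])],.ref k94 k2 [(z1,[y6,z0,z1]),(z1,[z0,z1]),(z1,[z1])],.ref k95 k9 [(z1,[y3,y1,z0,z3]),(z1,[y3,z0,z1]),(z1,
    [z0,z1])],.contra [y1,z0,z0,z1],.ref k56 k5 [(z1,[z3,z1,z0,y3]),(z3,[z0,y2,y1,z6]),(z1,[z0,z1])],.ref k96 k7 [(z1,
    [y3,z1,z1,y3]),(z1,[z0,z1]),(z3,[z0,y2,y1,z6])],.ref k97 k2 [(z3,[y6,y2,y1,z6]),(z1,[z0,z1]),(z1,[z3,z1,z1,y3])],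
    .ref k80 k9 [(z3,[y3,y2,y1,z6]),(z1,[y3,y1,z0,z3]),(z1,[z0,z1])],.ref k80 k9 [(z6,[y3,y2,y1,z6]),(z2,[y3,z0,z1]),
    (z1,[z0,z1])]],
    .geo z9 k4 [(z6,z0),(z8,y6),(z5,z3),(z8,y6),(z0,z9)] [(z1,[z3]),(z1,[z0,z1]),(z1,[z0,z0,z1]),(z1,[y3,y1,y1,z9]),(z1,
    [])] k8,
    .geo z3 k4 [(y3,z6),(z2,z0),(z4,y3),(z6,y6),(z0,z3)] [(z1,[z3]),(z1,[z0,z1]),(z1,[z0,z0,z1]),(z1,[y3,y1,y1,z3]),(z1,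
    [])] k10,
    .leafM k4 [k2,k3,k4,k0,k1] [(z2,[y2,y1,y1,z6]),(z1,[z1])] [],
    .leafM k1 [k2,k3,k4,k0,k1] [(z6,[y2,y1,y3,z6])] [],
    .leafM k1 [k0,k1,k2,k3,k4] [(z6,[z0,z1,z1])] [],
    .leafM k4 [k2,k3,k4,k0,k1] [(z1,[y1,y1,y1,z3]),(z1,[z1])] [],
    .geo z3 k2 [(y1,z3),(z6,y6),(z0,z3),(z2,z0),(z2,z0)] [(z1,[z1]),(z1,[z0,z3]),(z1,[]),(z1,[z0,z0,z1]),(z1,[y1,y3,y1,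
    z3])] k5,
    .lp [k136,k194,k106,k162,k120] [k28,k30,k0,k0,k44,k44,k16,k16,k44,k30] k0 [[k0,k0,k2,k0,k0,k0,k16],[k0,k0,k0,k0,k0,
    k16,k0,k0,k0,k30],[k0,k0,k0,k0,k54,k0,k0,k0,k14],[k0,k2],[k16],[k0,k0,k0,k54],[],[k0,k16],[k30],[k0,k0,k0,
    k14]] (nat_lit 480) k5
    [[(k4,k120),(k8,k120),(k6,k148),(k2,k150),(k0,k166)],[(k5,k120),(k9,k120),(k1,k166),(k3,k166),(k7,k166)],[(k8,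
    k120),(k4,k134),(k0,k166),(k6,k194),(k2,k196)],[(k7,k124),(k1,k150),(k5,k150),(k9,k164),(k3,k196)],[(k0,k120),(k8,
    k120),(k6,k134),(k2,k150),(k4,k160)],[(k1,k120),(k9,k120),(k3,k134),(k7,k134),(k5,k160)],[(k2,k124),(k4,k134),(k8,
    k134),(k6,k162),(k0,k166)],[(k5,k134),(k1,k148),(k9,k148),(k7,k162),(k3,k194)],[(k0,k120),(k4,k120),(k8,k120),(k6,
    k148),(k2,k164)],[(k1,k120),(k3,k120),(k5,k120),(k9,k120),(k7,k134)]]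
    [] k0
    [[k2,k0,k1,k0,k0],[k2,k0,k0,k0,k1],[k1,k1,k1,k0,k0],[k1,k1,k0,k0,k1],[k1,k0,k2,k0,k0],[k1,k0,k1,k1,k0],[k1,k0,k1,
    k0,k1],[k1,k1,k0,k1,k0],[k1,k0,k0,k2,k0],[k1,k0,k0,k1,k1],[k1,k0,k0,k0,k2],[k0,k1,k2,k0,k0],[k0,k1,k1,k1,k0],[k0,
    k1,k1,k0,k1],[k0,k1,k0,k1,k1],[k0,k1,k0,k0,k2],[k0,k0,k2,k1,k0],[k0,k0,k2,k0,k1],[k0,k0,k1,k2,k0],[k0,k0,k1,k1,
    k1],[k0,k0,k1,k0,k2],[k0,k0,k0,k2,k1],[k0,k0,k0,k1,k2],[k0,k0,k0,k0,k3]]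
    [.ref k96 k6 [(z1,[y3,y1]),(z1,[z0,y1,y1,z3]),(z1,[z1])],.ref k99 k5 [(z1,[z0,y1,y1,z3]),(z1,[z3,y2]),(z1,[z3,
    z1])],.ref k44 k9 [(z3,[z3,y2,y1]),(z3,[z0,z2,z1]),(z1,[y3,z1,z1])],.ref k60 k6 [(z3,[z3,y2,y1]),(z1,[z0,y1,y1,
    z3]),(z1,[y3,z1,z1])],.ref k62 k7 [(z3,[y6,z2,z1]),(z1,[z1]),(z1,[z3,y1])],.ref k100 k6 [(z3,[y3,y2,y1,z3]),(z1,
    [z0,y1,y1,z3]),(z1,[z3,z1,z1,y3])],.ref k101 k7 [(z1,[y3,z1,z1]),(z1,[z3,z1]),(z1,[z3,y1])],.ref k1 k0 [(z1,[y3,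
    z1,z0,z3]),(z1,[z6,z0,z1,y6]),(z1,[y1,z0,z0,z1])],.ref k1 k0 [(z1,[z3,z2,z2,y6]),(z1,[y6,y2,y3,z12]),(z3,[z3,z1,
    z2,y6])],.ref k102 k5 [(z1,[z0,y1,y1,z3]),(z1,[z3,z0,z1,y3]),(z3,[z3,z2,z1,y3])],.ref k51 k5 [(z1,[z0,y1,y1,z3]),
    (z1,[z3,y1]),(z1,[z3,z2])],.ref k44 k9 [(z6,[z3,y2,y1]),(z3,[z0,z2,z1]),(z2,[y3,z0,z1])],.ref k103 k5 [(z1,[z0,y1,
    y1,z3]),(z1,[y3,y1,z0,z3]),(z1,[y3,z1,z0,z3])],.ref k104 k0 [(z1,[y3,z1,z1]),(z1,[z6,z0,y1]),(z1,[y3,z0,z1])],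
    .ref k25 k6 [(z1,[z3,y1,z0,y3]),(z1,[z0,y1,y1,z3]),(z1,[y1,z0,z0,z1])],.ref k60 k6 [(z6,[z3,y2,y1]),(z1,[z0,y1,y1,
    z3]),(z2,[y3,z0,z1])],.ref k39 k6 [(z2,[y3,y3,y1,z3]),(z1,[z0,y1,y1,z3]),(z2,[z3,z1,z1,y3])],.ref k76 k6 [(z1,[y3,
    y2]),(z1,[z0,y1,y1,z3]),(z1,[z3,z1])],.ref k39 k6 [(z1,[y3,y3,y2,z6]),(z1,[z0,y1,y1,z3]),(z1,[z3,z2,z2,y6])],
    .contra [z3,z2,z1,y3],.ref k77 k5 [(z1,[z0,y1,y1,z3]),(z1,[z1]),(z1,[z3,z2])],.ref k105 k9 [(z1,[y3,y3,y2,z6]),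
    (z3,[z0,z2,z1]),(z1,[z3,z2,z2,y6])],.ref k105 k9 [(z2,[y3,y3,y1,z3]),(z3,[z0,z2,z1]),(z2,[z3,z1,z1,y3])],
    .ref k105 k9 [(z1,[y1,y1]),(z3,[z0,z2,z1]),(z1,[z1])]],
    .lp [(nat_lit 280),(nat_lit 204),k178,(nat_lit 228),k184] [k28,k0,k52,k52,k65,k65,k40,k40,k62,k62] k0 [[k0,k0,k36,k0,
    k0,k0,k24],[],[k0,k0,k0,k0,k96],[k0,k36],[k0,k0,k0,k0,k0,k0,k24],[k0,k0,k0,k96,k0,k0,k0,k0,k0,k24],[k0,k0,k0,k0,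
    k0,k0,k0,k0,k148],[k0,k24,k0,k0,k0,k24],[k0,k0,k0,k0,k24],[k0,k0,k0,k0,k0,k0,k0,k148]] (nat_lit 720) k7
    [[(k6,k120),(k8,(nat_lit 246)),(k2,(nat_lit 256)),(k4,(nat_lit 267)),(k0,(nat_lit 280))],[(k5,k179),(k9,k194),(k3,
    (nat_lit 228)),(k7,(nat_lit 240)),(k1,(nat_lit 280))],[(k4,k191),(k8,k194),(k0,(nat_lit 228)),(k2,(nat_lit 240)),
    (k6,(nat_lit 240))],[(k7,k120),(k5,k191),(k9,k194),(k3,(nat_lit 240)),(k1,(nat_lit 256))],[(k0,k179),(k8,k181),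
    (k2,k191),(k6,(nat_lit 203)),(k4,(nat_lit 274))],[(k9,k157),(k3,k191),(k7,(nat_lit 203)),(k1,(nat_lit 267)),(k5,
    (nat_lit 274))],[(k2,k120),(k8,k182),(k4,(nat_lit 203)),(k0,(nat_lit 240)),(k6,(nat_lit 252))],[(k1,k120),(k5,
    (nat_lit 203)),(k9,(nat_lit 206)),(k3,(nat_lit 240)),(k7,(nat_lit 252))],[(k4,k157),(k0,k194),(k2,k194),(k6,
    (nat_lit 206)),(k8,(nat_lit 332))],[(k5,k181),(k7,k182),(k3,k194),(k1,(nat_lit 246)),(k9,(nat_lit 332))]]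
    [] k0
    [[k2,k0,k0,k1,k0],[k1,k1,k1,k0,k0],[k1,k1,k0,k0,k1],[k1,k0,k1,k1,k0],[k1,k0,k1,k0,k1],[k1,k1,k0,k1,k0],[k1,k2,k0,
    k1,k0],[k1,k1,k1,k1,k0],[k1,k1,k0,k1,k1],[k1,k0,k1,k1,k1],[k1,k0,k0,k2,k0],[k1,k0,k0,k1,k1],[k0,k2,k1,k0,k0],[k0,
    k2,k0,k1,k0],[k0,k2,k0,k0,k1],[k0,k1,k2,k0,k0],[k0,k1,k1,k1,k0],[k0,k1,k1,k0,k1],[k0,k1,k1,k1,k1],[k0,k1,k0,k2,
    k0],[k0,k1,k0,k1,k1],[k0,k0,k2,k1,k0],[k0,k0,k2,k0,k1],[k0,k0,k1,k2,k0],[k0,k0,k1,k1,k1],[k0,k0,k2,k0,k2],[k0,k0,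
    k1,k0,k2],[k0,k0,k0,k2,k1]]
    [.ref k6 k5 [(z1,[z3,y2]),(z1,[y3,z1,z3])],.ref k7 k8 [(z1,[z0,z1]),(z1,[y1,z0,z1])],.ref k8 k0 [(z1,[z0,z1]),(z1,
    [z3,y1])],.ref k17 k0 [(z1,[z0,z1]),(z1,[y1,z0,z1])],.ref k28 k0 [(z1,[z0,z1]),(z1,[y1,z0,z1])],.ref k28 k8 [(z1,
    [z0,z1]),(z1,[y1,z0,z1])],.ref k41 k0 [(z1,[z0,z1]),(z1,[z3,y1])],.contra [y1,z0,z1],.contra [y1,z0,z1],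
    .contra [y1,z0,z1],.ref k6 k5 [(z2,[z3,y1]),(z2,[y3,y1,z6])],.ref k7 k0 [(z1,[z0,z1]),(z1,[y1,z0,z1])],
    .ref k55 k4 [(z1,[z3,z1,y3]),(z1,[y3,y2,z6])],.ref k66 k0 [(z1,[z0,z1]),(z1,[z1])],.ref k78 k7 [(z1,[z3,z1,y3]),
    (z1,[z0,z1])],.ref k85 k9 [(z1,[z3,z1,y3]),(z1,[y3,y2,z6])],.ref k86 k2 [(z1,[y3,y1,z3]),(z1,[z0,z1])],
    .ref k87 k5 [(z1,[y3,y1,z3]),(z1,[z1])],.contra [y1,z0,z1],.ref k98 k8 [(z1,[z0,z1]),(z1,[y3,y2,z6])],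
    .ref k87 k9 [(z1,[y3,y1,z3]),(z1,[z1])],.ref k106 k1 [(z1,[z3,z1,y3]),(z1,[y3,y2,z6])],.ref k98 k0 [(z1,[z0,z1]),
    (z1,[y3,y2,z6])],.ref k106 k3 [(z1,[z3,z1,y3]),(z1,[y3,y2,z6])],.ref k86 k7 [(z1,[y3,y1,z3]),(z1,[z0,z1])],
    .ref k28 k8 [(z1,[z0,z1]),(z2,[z1])],.ref k66 k8 [(z1,[z0,z1]),(z1,[z1])],.ref k85 k5 [(z1,[z3,z1,y3]),(z1,[y3,y2,
    z6])]]]

noncomputable def cT5_0_n0_9 : List TN :=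
  [.tor k5 false k4 [(z1,[y1,y1,y1,z1]),(z1,[z0,y2,y2,z2]),(z1,[z2,z0,z2]),(z1,[y1,z0,y1,z1]),(z1,[z0,z1,z1]),(z1,[z0,z2,
    z1])],
    .geo z1 k4 [(y4,z6),(z3,y3),(z2,y2),(z2,y2),(z0,z1)] [(z1,[z1]),(z1,[z0,z1]),(z1,[z0,z0,z1]),(z1,[y1,y1,y1,z1]),(z1,
    [])] k11,
    .leafM k1 [k0,k1,k2,k3,k4] [(z2,[z0,z1,z1])] [],
    .leafM k1 [k4,k0,k1,k2,k3] [(z2,[z1,z1])] [],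
    .tor k0 false k2 [(z1,[z1,z2,z1]),(z1,[z0,z0,z1]),(z1,[y1,y2,y2,z2])],
    .leafM k1 [k4,k0,k1,k2,k3] [(z1,[z1,z1])] [],
    .lp [k172,k106,k128,k180,k132] [k4,k4,k37,k37,k26,k26,k0,k0,k36,k12] k0 [[k0,k0,k54],[],[k0,k0,k0,k0,k32,k0,k0,k0,
    k32],[k0,k54,k0,k0,k0,k0,k0,k8],[k0,k0,k0,k0,k0,k0,k46],[k0,k0,k0,k32],[k0,k0,k8,k0,k0,k0,k0,k0,k44],[k0,k0,k0,k0,
    k0,k46],[],[k0,k0,k0,k32,k0,k0,k0,k44]] (nat_lit 480) k6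
    [[(k2,k107),(k6,k132),(k8,k140),(k4,k150),(k0,k172)],[(k5,k96),(k3,k139),(k9,k164),(k1,k172),(k7,k176)],[(k8,
    k107),(k4,k117),(k0,k139),(k6,k143),(k2,k160)],[(k1,k107),(k7,k111),(k5,k117),(k9,k139),(k3,k160)],[(k0,k96),(k2,
    k117),(k6,k146),(k8,k150),(k4,k160)],[(k9,k96),(k3,k117),(k1,k150),(k7,k154),(k5,k160)],[(k2,k111),(k8,k144),(k4,
    k154),(k0,k176),(k6,(nat_lit 226))],[(k1,k132),(k3,k143),(k5,k146),(k9,k168),(k7,(nat_lit 226))],[(k4,k96),(k2,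
    k139),(k0,k164),(k6,k168),(k8,k176)],[(k3,k107),(k1,k140),(k7,k144),(k5,k150),(k9,k176)]]
    [] k0
    [[k2,k1,k0,k0,k0],[k2,k0,k1,k0,k0],[k2,k0,k0,k0,k1],[k1,k2,k0,k0,k0],[k1,k1,k1,k0,k0],[k1,k1,k0,k1,k0],[k1,k1,k0,
    k0,k1],[k1,k1,k1,k0,k1],[k1,k0,k2,k0,k0],[k1,k0,k1,k1,k0],[k1,k0,k1,k0,k1],[k1,k1,k1,k1,k0],[k1,k0,k0,k1,k1],[k1,
    k0,k1,k1,k1],[k0,k2,k1,k0,k0],[k0,k2,k0,k1,k0],[k0,k2,k0,k0,k1],[k0,k2,k2,k0,k0],[k0,k1,k2,k0,k0],[k0,k1,k1,k1,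
    k0],[k0,k1,k1,k0,k1],[k0,k1,k0,k1,k1],[k0,k1,k1,k1,k1],[k0,k1,k0,k0,k2],[k0,k0,k2,k1,k0],[k0,k0,k2,k0,k1],[k0,k0,
    k1,k1,k1],[k0,k0,k1,k0,k2]]
    [.ref k108 k2 [(z2,[y1,z2,z1]),(z2,[z1,z0,y1]),(z1,[z0,z0,z1])],.ref k108 k2 [(z2,[y1,z1,y1,z1]),(z2,[z1,z1,z1,
    y1]),(z1,[z0,z0,z1])],.ref k109 k2 [(z1,[y1,z2]),(z1,[z1,y1]),(z1,[z0,z0,z1])],.ref k110 k1 [(z1,[z0,y1,y2,z1]),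
    (z1,[z0,z0,z1]),(z1,[y2,z2,z3])],.ref k110 k1 [(z1,[z0,y1,y2,z1]),(z1,[z0,z0,z1]),(z1,[y2,z0,y1,z2])],
    .ref k108 k2 [(z1,[y1,z1,z1]),(z1,[z1,z0,y1]),(z1,[z0,z0,z1])],.contra [z1,y1,y1],.contra [y1,z0,z0,z1],
    .ref k110 k1 [(z1,[z0,y1,y2,z1]),(z1,[z0,z0,z1]),(z1,[y2,y2,y5,z4])],.ref k108 k2 [(z1,[y1,z0,y1,z1]),(z1,[z1,z1,
    z1,y1]),(z1,[z0,z0,z1])],.contra [z1,z0,z1,y1],.contra [y1,z0,z0,z1],.ref k111 k4 [(z1,[y1,z1,z2]),(z1,[y1,y1,y2,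
    z2]),(z1,[z1,y1])],.contra [y1,z0,z0,z1],.ref k0 k4 [(z1,[z1,z1,z2,y1]),(z1,[z1,y2,y4,z2]),(z2,[y1,y1,z1,z1])],
    .ref k0 k4 [(z1,[z2,z0,y1]),(z1,[z2,y3,y7,z3]),(z1,[y1,z0,z2])],.ref k112 k2 [(z1,[z1,z0,y2]),(z1,[y1,z1,z2]),(z1,
    [z0,z0,z1])],.ref k111 k4 [(z2,[z1,z2,z4,y2]),(z2,[z1,y2,y4,z2]),(z2,[y1,y2,z0,z2])],.ref k0 k4 [(z1,[z1,z2,z4,
    y2]),(z1,[z1,y1,y2,z1]),(z2,[y1,y2,y1,z2])],.ref k0 k4 [(z1,[z2,z2,z3,y2]),(z1,[z2,y1,y3,z1]),(z1,[y1,y1,z0,z1])],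
    .ref k112 k2 [(z1,[z1,z1,z0,y1]),(z1,[y1,z0,z0,z1]),(z1,[z0,z0,z1])],.ref k113 k0 [(z1,[y3,z1,z3]),(z1,[z2,z0,
    y1]),(z1,[z2,y1,y3,z1])],.contra [y1,z0,z0,z1],.ref k113 k0 [(z2,[y3,z2,z3]),(z1,[z1]),(z1,[z1,y1,y2,z1])],
    .ref k0 k4 [(z1,[z2,z4,z7,y4]),(z1,[z2,z1,z1,y1]),(z1,[y1,y2,y2,z2])],.ref k112 k2 [(z1,[z1,z2,z2,y2]),(z1,[y1,y1,
    y2,z2]),(z1,[z0,z0,z1])],.ref k113 k0 [(z1,[y3,y2,y3,z3]),(z1,[z2,z2,z3,y2]),(z1,[z2,z1,z1,y1])],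
    .ref k113 k0 [(z2,[y3,y1,y3,z3]),(z1,[z1,z1,z2,y1]),(z1,[z1])]],
    .leafM k1 [k4,k0,k1,k2,k3] [(z1,[z1,z1])] [],
    .leafM k5 [k4,k0,k1,k2,k3] [(z1,[z1]),(z1,[z0,z0,z1])] [],
    .tor k1 false k0 [(z1,[z0,z2,z1]),(z1,[z0,y1,y1,z1]),(z1,[z0,y1,z0,z1])],
    .geo z2 k4 [(z0,z3),(z4,y6),(z0,z2),(z2,y1),(z0,z2)] [(z1,[z1]),(z1,[z0,z2]),(z1,[z0,z0,z2]),(z1,[y1,y2,y2,z2]),(z1,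
    [])] k10,
    .lp [(nat_lit 278),k196,(nat_lit 218),(nat_lit 218),k164] [k0,k0,k41,k41,k19,k41,k39,k21,k57,k57] k0 [[k0,k0,k50],[],
    [k0,k0,k0,k0,k36],[k0,k50],[k0,k0,k0,k0,k0,k0,k22],[k0,k0,k0,k36,k0,k0,k0,k0,k0,k20],[k0,k0,k0,k0,k0,k0,k0,k0,
    k16],[k0,k0,k0,k0,k0,k22],[k0,k0,k0,k0,k20],[k0,k0,k0,k0,k0,k0,k0,k16]] (nat_lit 720) k5
    [[(k8,(nat_lit 221)),(k6,(nat_lit 223)),(k2,(nat_lit 237)),(k0,(nat_lit 278)),(k4,(nat_lit 279))],[(k5,k187),(k9,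
    (nat_lit 221)),(k3,(nat_lit 237)),(k7,(nat_lit 257)),(k1,(nat_lit 278))],[(k8,k180),(k6,k198),(k4,(nat_lit 218)),
    (k0,(nat_lit 237)),(k2,(nat_lit 246))],[(k7,k180),(k9,k180),(k5,k196),(k1,(nat_lit 237)),(k3,(nat_lit 246))],[(k8,
    k180),(k0,k187),(k2,k196),(k6,k198),(k4,(nat_lit 254))],[(k9,k180),(k3,(nat_lit 218)),(k7,(nat_lit 238)),(k5,
    (nat_lit 254)),(k1,(nat_lit 279))],[(k2,k180),(k8,k180),(k4,(nat_lit 238)),(k6,(nat_lit 240)),(k0,(nat_lit 257))],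
    [(k9,k182),(k3,k198),(k5,k198),(k1,(nat_lit 223)),(k7,(nat_lit 240))],[(k2,k180),(k4,k180),(k8,k180),(k6,k182),
    (k0,(nat_lit 221))],[(k3,k180),(k5,k180),(k7,k180),(k9,k180),(k1,(nat_lit 221))]]
    [] k0
    [[k1,k1,k1,k0,k0],[k1,k1,k0,k1,k0],[k1,k1,k0,k0,k1],[k1,k0,k1,k0,k1],[k1,k0,k1,k1,k0],[k1,k0,k0,k1,k1],[k1,k0,k0,
    k0,k2],[k0,k2,k1,k0,k0],[k0,k2,k0,k1,k0],[k0,k2,k0,k0,k1],[k0,k1,k2,k0,k0],[k0,k1,k1,k1,k0],[k0,k1,k1,k0,k1],[k0,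
    k1,k0,k2,k0],[k0,k1,k0,k1,k1],[k0,k1,k0,k0,k2],[k0,k0,k2,k1,k0],[k0,k0,k2,k0,k1],[k0,k0,k1,k2,k0],[k0,k0,k1,k1,
    k1],[k0,k0,k1,k0,k2],[k0,k0,k0,k2,k1],[k0,k0,k0,k1,k2],[k0,k0,k0,k0,k3]]
    [.ref k115 k5 [(z1,[y3,z1,z2,z1]),(z1,[z2,y1,y2]),(z1,[y1,z1,z1])],.ref k115 k9 [(z1,[y3,z1,z2,z1]),(z1,[z2,y1,
    y1]),(z1,[y1,z1,z1])],.ref k0 k2 [(z1,[z2,y1,y2]),(z1,[y1,z2,z1]),(z1,[z2,y1,z1])],.ref k115 k5 [(z1,[y3,z1,y1,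
    z1]),(z1,[z2,y1]),(z1,[y1,z1])],.ref k116 k2 [(z1,[y1,z0,y1,z1]),(z1,[z1,z2,z1,y1]),(z1,[y1,z0,z1,z1])],
    .ref k115 k9 [(z1,[y3,z1,y1,z1]),(z1,[z2,y1,z1]),(z1,[y1,z1])],.ref k0 k2 [(z1,[z2,y1]),(z1,[y1,z2]),(z1,[z2,y1,
    z3])],.ref k117 k2 [(z1,[z2,z1,y2,y2]),(z1,[y1,z0,z1,z1]),(z1,[z2,z1,y1,y2])],.ref k117 k7 [(z1,[z2,z1,y1,y2]),
    (z1,[y1,z0,z1,z1]),(z1,[z2,z1,y2,y2])],.ref k0 k2 [(z1,[z1,z0,y2]),(z2,[y1,z3,z2]),(z1,[z1,z0,z1])],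
    .ref k115 k5 [(z2,[y3,y1,z1,z2]),(z1,[z1,z0,y1]),(z2,[y1,z1,z1])],.contra [z1,z1,z0,y1],.ref k117 k2 [(z1,[z2,z1,
    z0,y2]),(z1,[y1,z0,z0,z1]),(z1,[z2,z1,z1,y2])],.ref k115 k9 [(z2,[y3,y1,z1,z2]),(z1,[z1]),(z2,[y1,z1,z1])],
    .ref k117 k7 [(z1,[z2,z1,z1,y2]),(z1,[y1,z0,z0,z1]),(z1,[z2,z1,z0,y2])],.ref k0 k2 [(z1,[z1,z0,y1]),(z2,[y1,z3,
    z1]),(z1,[z1,z0,z2])],.ref k118 k1 [(z1,[z2,z1,y1,y2]),(z1,[y1,y1,z1,z2]),(z1,[z0,z0,y1])],.ref k115 k5 [(z2,[y3,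
    y1,y2,z2]),(z1,[z1]),(z2,[y1,z1])],.ref k118 k3 [(z1,[z2,z1,z2,y2]),(z1,[y1,y1,y2,z2]),(z1,[z0,z0,z1])],
    .contra [z1,z1,z1,y1],.ref k117 k2 [(z1,[z2,z1,z2,y2]),(z1,[y1,z0,y1,z1]),(z1,[z2,z1,z3,y2])],.ref k115 k9 [(z2,
    [y3,y1,y2,z2]),(z1,[z1,z0,z1]),(z2,[y1,z1])],.ref k117 k7 [(z1,[z2,z1,z3,y2]),(z1,[y1,z0,y1,z1]),(z1,[z2,z1,z2,
    y2])],.ref k0 k2 [(z1,[z1]),(z2,[y1,z3]),(z1,[z1,z0,z3])]]]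

noncomputable def cT5_0_n0_10 : List TN :=
  [.leafM k1 [k2,k3,k4,k0,k1] [(z1,[y1,y1,z1])] [],
    .leafM k1 [k1,k2,k3,k4,k0] [(z1,[y1,y1,z1])] [],
    .geo z1 k4 [(y3,z5),(y2,z4),(z6,y8),(z2,y2),(z0,z1)] [(z1,[z1]),(z1,[z0,z1]),(z1,[z0,z0,z1]),(z1,[y1,y1,y1,z1]),(z1,
    [])] k11,
    .tor k2 true k0 [(z1,[y1,y1,y1,z1]),(z1,[z1,z1,z2]),(z1,[z0,z0,y1,z1])],
    .geo z1 k4 [(y2,z4),(z2,y2),(z3,y4),(z0,z1),(z0,z1)] [(z1,[z1]),(z1,[z0,z1]),(z1,[z0,z0,z1]),(z1,[y1,y1,y1,z1]),(z1,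
    [])] k11,
    .geo z1 k4 [(y2,z4),(z2,y2),(z4,y6),(y1,z3),(z0,z1)] [(z1,[z1]),(z1,[z0,z1]),(z1,[z0,z0,z1]),(z1,[y1,y1,y1,z1]),(z1,
    [])] k9,
    .leafM k1 [k0,k1,k2,k3,k4] [(z1,[z0,z1,z1])] [],
    .tor k0 false k1 [(z1,[y1,z0,z1,z1]),(z1,[z1,y1,y1,z1]),(z1,[z0,z1])],
    .geo z1 k4 [(y2,z4),(z2,y2),(z5,y7),(y2,z4),(z0,z1)] [(z1,[z1]),(z1,[z0,z1]),(z1,[z0,z0,z1]),(z1,[y1,y1,y1,z1]),(z1,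
    [])] k9,
    .leafM k1 [k4,k0,k1,k2,k3] [(z5,[z1,z1])] [],
    .geo z1 k4 [(y2,z4),(z2,y2),(y1,z3),(z4,y6),(z0,z1)] [(z1,[z1]),(z1,[z0,z1]),(z1,[z0,z0,z1]),(z1,[y1,y1,y1,z1]),(z1,
    [])] k7,
    .leafM k1 [k2,k3,k4,k0,k1] [(z1,[y1,y1,y1,z1])] []]

noncomputable def cT5_0_n0_11 : List TN :=
  [.tor k1 true k2 [(z1,[z1,z2]),(z1,[y2,y2,y1,z2]),(z1,[z1,z0,z1])],
    .geo z1 k4 [(y2,z4),(z2,y2),(z0,z1),(z3,y4),(z0,z1)] [(z1,[z1]),(z1,[z0,z1]),(z1,[z0,z0,z1]),(z1,[y1,y1,y1,z1]),(z1,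
    [])] k8,
    .geo z1 k4 [(y3,z5),(z6,y8),(z2,y2),(y2,z4),(z0,z1)] [(z1,[z1]),(z1,[z0,z1]),(z1,[z0,z0,z1]),(z1,[y1,y1,y1,z1]),(z1,
    [])] k8,
    .lp [(nat_lit 246),(nat_lit 286),(nat_lit 234),(nat_lit 352),(nat_lit 318)] [k106,k106,k98,k74,k112,k112,k0,k106,k70,
    k70] k0 [[k0,k0,k0,k0,k0,k0,k42],[k0,k0,k0,k0,k0,k0,k0,k0,k0,k74],[k0,k0,k0,k0,k6],[],[k0,k0,k0,k0,k0,k0,k22],[k0,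
    k0,k0,k6],[k0,k0,k0,k0,k0,k0,k0,k0,k112],[k0,k42,k0,k0,k0,k22],[k74],[k0,k0,k0,k0,k0,k0,k0,k112]] (nat_lit 960) k5
    [[(k4,(nat_lit 240)),(k6,(nat_lit 240)),(k2,(nat_lit 254)),(k8,(nat_lit 282)),(k0,(nat_lit 320))],[(k5,
    (nat_lit 240)),(k9,(nat_lit 240)),(k7,(nat_lit 246)),(k3,(nat_lit 278)),(k1,(nat_lit 320))],[(k8,(nat_lit 240)),
    (k4,(nat_lit 272)),(k0,(nat_lit 278)),(k2,(nat_lit 286)),(k6,(nat_lit 426))],[(k5,(nat_lit 248)),(k7,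
    (nat_lit 248)),(k1,(nat_lit 254)),(k3,(nat_lit 286)),(k9,(nat_lit 290))],[(k0,(nat_lit 240)),(k4,(nat_lit 240)),
    (k2,(nat_lit 248)),(k8,(nat_lit 276)),(k6,(nat_lit 346))],[(k1,(nat_lit 240)),(k5,(nat_lit 240)),(k7,
    (nat_lit 240)),(k9,(nat_lit 254)),(k3,(nat_lit 272))],[(k4,(nat_lit 240)),(k0,(nat_lit 246)),(k2,(nat_lit 248)),
    (k8,(nat_lit 282)),(k6,(nat_lit 374))],[(k1,(nat_lit 240)),(k5,(nat_lit 346)),(k7,(nat_lit 374)),(k9,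
    (nat_lit 388)),(k3,(nat_lit 426))],[(k0,(nat_lit 240)),(k4,(nat_lit 254)),(k2,(nat_lit 290)),(k6,(nat_lit 388)),
    (k8,(nat_lit 430))],[(k3,(nat_lit 240)),(k5,(nat_lit 276)),(k1,(nat_lit 282)),(k7,(nat_lit 282)),(k9,
    (nat_lit 430))]]
    [] k0
    [[k2,k1,k0,k0,k0],[k2,k0,k1,k0,k0],[k2,k0,k0,k1,k0],[k2,k0,k0,k0,k1],[k1,k2,k0,k0,k0],[k1,k1,k1,k0,k0],[k1,k1,k0,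
    k1,k0],[k1,k1,k0,k0,k1],[k1,k0,k2,k0,k0],[k1,k0,k1,k1,k0],[k1,k0,k1,k0,k1],[k1,k0,k0,k2,k0],[k1,k0,k0,k1,k1],[k1,
    k0,k0,k0,k2],[k0,k3,k0,k0,k0],[k0,k2,k1,k0,k0],[k0,k2,k0,k0,k1],[k0,k1,k2,k0,k0],[k0,k1,k1,k1,k0],[k0,k1,k1,k0,
    k1],[k0,k1,k0,k1,k1],[k0,k0,k3,k0,k0],[k0,k0,k2,k1,k0],[k0,k0,k2,k0,k1],[k0,k0,k1,k1,k1]]
    [.ref k122 k6 [(z2,[y6,z1,z3]),(z1,[y2,z0,z1]),(z2,[z8,y1,y5,z2])],.ref k123 k1 [(z2,[z0,y1,y5,z2]),(z1,[z0,z0,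
    z1]),(z4,[y2,z1,z1,z2])],.ref k124 k1 [(z2,[z0,y1,y5,z2]),(z1,[z0,z0,z1]),(z2,[y1,z1,z4])],.ref k125 k1 [(z2,[z0,
    y1,y5,z2]),(z1,[z0,z0,z1]),(z1,[y1,z1,z3])],.ref k123 k1 [(z2,[z0,y1,y5,z2]),(z1,[z0,z0,z1]),(z2,[y2,z1,z3])],
    .ref k126 k1 [(z2,[z0,y1,y5,z2]),(z1,[z0,z0,z1]),(z1,[y1,z0,y1,z1])],.ref k124 k1 [(z2,[z0,y1,y5,z2]),(z1,[z0,z0,
    z1]),(z2,[y2,z1,z5])],.contra [z2,y1,y1],.ref k127 k1 [(z2,[z0,y1,y5,z2]),(z1,[z0,z0,z1]),(z2,[y2,y1,y7,z4])],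
    .ref k123 k1 [(z2,[z0,y1,y5,z2]),(z1,[z0,z0,z1]),(z1,[y1,z0,z0,z1])],.contra [z1,z0,z1,y1],.ref k128 k1 [(z2,[z0,
    y1,y5,z2]),(z1,[z0,z0,z1]),(z2,[y2,z1,z7])],.ref k129 k9 [(z2,[y8,y1,y5,z10]),(z2,[y2,z1,z5]),(z1,[z3,z1])],
    .ref k130 k1 [(z2,[z0,y1,y5,z2]),(z1,[z0,z0,z1]),(z2,[z2,y1,y3])],.ref k0 k4 [(z1,[z1]),(z2,[z8,y3,y15,z6]),(z1,
    [y2,z0,z3])],.ref k0 k4 [(z4,[z2,z1,z5,y2]),(z2,[z4,y1,y5,z2]),(z2,[y2,y1,z1,z2])],.ref k131 k1 [(z2,[z0,y1,y5,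
    z2]),(z1,[z0,z0,z1]),(z1,[z1])],.ref k0 k4 [(z3,[z1,z1,z5,y2]),(z6,[z8,y1,y5,z2]),(z3,[y2,y2,y1,z4])],
    .ref k0 k4 [(z2,[z2,z1,z3,y2]),(z2,[z8,z1,y3,y2]),(z1,[y2,y1,z0,z2])],.ref k132 k1 [(z2,[z0,y1,y5,z2]),(z1,[z0,z0,
    z1]),(z2,[z2,z1,z5,y2])],.ref k133 k1 [(z2,[z0,y1,y5,z2]),(z1,[z0,z0,z1]),(z1,[z1,z0,y1])],.ref k0 k4 [(z8,[z2,z3,
    z15,y6]),(z1,[z1]),(z4,[y2,y3,y3,z6])],.ref k0 k4 [(z2,[z1,z1,z4,y2]),(z2,[z4,z1,z1,y2]),(z1,[y1,y1,y1,z2])],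
    .ref k134 k8 [(z2,[y2,y1,y7,z4]),(z1,[z1,z1,z5,y2]),(z1,[z0,z0,z1])],.ref k131 k1 [(z2,[z0,y1,y5,z2]),(z1,[z0,z0,
    z1]),(z2,[z2,z1,z3,y2])]],
    .geo z2 k4 [(y2,z5),(z4,y4),(z2,y2),(z2,y1),(z0,z2)] [(z1,[z1]),(z1,[z0,z2]),(z1,[z0,z0,z2]),(z1,[y1,y2,y2,z2]),(z1,
    [])] k11,
    .tor k1 true k4 [(z1,[y2,y2,y1,z2]),(z1,[z2,z1]),(z1,[z0,z1,z1])],
    .tor k2 true k3 [(z5,[z0,z1,z2]),(z5,[z1,y1,y1,z5]),(z5,[y1,z0,y1,z5])],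
    .leafM k1 [k1,k2,k3,k4,k0] [(z1,[y1,y1,z0,z1])] [],
    .tor k1 false k1 [(z1,[z2,z1]),(z1,[y2,y2,y1,z2]),(z1,[z0,z1,z1])],
    .geo z1 k4 [(y1,z2),(y2,z3),(z4,y4),(z2,y2),(z0,z1)] [(z1,[z1]),(z1,[z0,z1]),(z1,[z0,z0,z1]),(z1,[y1,y1,y1,z1]),(z1,
    [])] k8,
    .tor k15 false k0 [(z1,[z0,z0,z1]),(z1,[y1,z0,y1,z1]),(z1,[y1,y1,y1,z2]),(z1,[z1,z1]),(z1,[z2,z0,z2])],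
    .geo z2 k4 [(y2,z4),(z1,z0),(z3,y2),(z4,y4),(z0,z2)] [(z1,[z2]),(z1,[z0,z1]),(z1,[z0,z0,z1]),(z1,[y2,y1,y1,z2]),(z1,
    [])] k8]

noncomputable def cT5_0_n0_12 : List TN :=
  [.lp [k122,k184,k130,k122,k160] [k31,k31,k0,k0,k27,k27,k31,k31,k12,k12] k0 [[k0,k0,k0,k0,k0,k0,k38,k0,k4],[],[k0,k0,k0,
    k0,k0,k0,k0,k0,k6],[k0,k0,k0,k0,k0,k16],[k0,k0,k16],[k0,k0,k0,k0,k0,k0,k0,k2],[k0,k0,k0,k0,k2],[k0,k38],[],[k0,k4,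
    k0,k6]] (nat_lit 480) k6
    [[(k0,k118),(k6,k122),(k4,k126),(k8,k141),(k2,k147)],[(k9,k103),(k1,k118),(k7,k122),(k5,k126),(k3,k153)],[(k0,
    k153),(k4,k157),(k8,k176),(k2,k184),(k6,k191)],[(k1,k147),(k5,k157),(k7,k169),(k9,k172),(k3,k184)],[(k4,k114),(k0,
    k126),(k6,k126),(k8,k151),(k2,k157)],[(k5,k114),(k1,k126),(k7,k126),(k9,k147),(k3,k157)],[(k6,k120),(k0,k122),(k4,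
    k126),(k8,k141),(k2,k169)],[(k7,k120),(k1,k122),(k5,k126),(k9,k141),(k3,k191)],[(k0,k103),(k6,k141),(k4,k147),(k8,
    k160),(k2,k172)],[(k1,k141),(k7,k141),(k5,k151),(k9,k160),(k3,k176)]]
    [] k0
    [[k3,k0,k0,k0,k0],[k4,k0,k0,k0,k0],[k2,k1,k0,k0,k0],[k2,k0,k1,k0,k0],[k2,k0,k0,k1,k0],[k2,k0,k0,k0,k1],[k1,k1,k1,
    k0,k0],[k1,k1,k0,k1,k0],[k1,k1,k0,k0,k1],[k1,k0,k2,k0,k0],[k1,k0,k1,k1,k0],[k1,k0,k1,k0,k1],[k1,k0,k0,k2,k0],[k1,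
    k0,k0,k1,k1],[k1,k0,k0,k0,k2],[k0,k1,k2,k0,k0],[k0,k1,k1,k1,k0],[k0,k0,k3,k0,k0],[k0,k0,k4,k0,k0],[k0,k0,k2,k1,
    k0],[k0,k0,k2,k0,k1],[k0,k0,k1,k2,k0],[k0,k0,k1,k1,k1],[k0,k0,k1,k0,k2],[k0,k0,k0,k3,k0],[k0,k0,k0,k2,k1],[k0,k0,
    k0,k1,k2]]
    [.ref k9 k9 [(z1,[y1,z0,y3,z3]),(z2,[y1,z3,z6]),(z1,[z1])],.ref k116 k0 [(z2,[z1]),(z2,[y1,z4,z8]),(z2,[y1,z0,y4,
    z4])],.ref k9 k9 [(z1,[y2,z1,y1,z3]),(z1,[y1,z2,z4]),(z1,[z2,y1,y2])],.contra [z1,z0,z1,y1],.ref k136 k6 [(z1,[y2,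
    y1]),(z1,[z1]),(z1,[z0,z0,y1,z1])],.ref k137 k1 [(z1,[z0,y1,y3,z1]),(z1,[y1,z2,z5]),(z1,[z1,y2,y4])],.contra [z1,
    z0,z1,y1],.ref k108 k1 [(z1,[z0,y1,y3,z1]),(z1,[z1,y1,y2]),(z1,[y1,z1,z3])],.ref k115 k1 [(z1,[z0,y1,y3,z1]),(z1,
    [y1,z1,z3]),(z1,[z1,y1,y2])],.contra [z1,z1,z4,y2],.contra [z1,z0,z1,y1],.contra [z1,z0,z1,y1],.ref k108 k1 [(z1,
    [z0,y1,y3,z1]),(z2,[z1,y1,y2]),(z2,[y1,z1,z4])],.ref k9 k9 [(z1,[y2,y1,y3,z3]),(z1,[y1,z1,z3]),(z1,[z2,z1])],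
    .ref k115 k1 [(z1,[z0,y1,y3,z1]),(z2,[y1,z1,z4]),(z2,[z1,y1,y2])],.ref k138 k0 [(z1,[y2,z1,y2,z4]),(z1,[z1,z2,z6,
    y2]),(z1,[z2,y1,y3,z1])],.ref k139 k1 [(z1,[z0,y1,y3,z1]),(z1,[z1,z1,z3,y1]),(z1,[y1,y1,y2,z1])],.ref k45 k0 [(z1,
    [y1,z0,y3,z3]),(z1,[z1,z3,z9,y3]),(z1,[z1])],.ref k116 k0 [(z2,[y1,z0,y4,z4]),(z2,[z1,z4,z12,y4]),(z2,[z1])],
    .ref k140 k1 [(z1,[z0,y1,y3,z1]),(z1,[z1,z2,z6,y2]),(z1,[y1,y2,y5,z2])],.ref k141 k1 [(z1,[z0,y1,y3,z1]),(z1,[y1,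
    y2,y5,z2]),(z1,[z1,z2,z6,y2])],.ref k142 k0 [(z1,[y1,z0,y1,z1]),(z1,[z1,z1,z3,y1]),(z1,[z1])],.contra [z1,z1,z2,
    y1],.ref k143 k1 [(z1,[z0,y1,y3,z1]),(z1,[y1,y1,y1,z1]),(z1,[z1,z1,z3,y1])],.ref k100 k1 [(z1,[z0,y1,y3,z1]),(z1,
    [z1]),(z1,[y1,z0,z3])],.ref k108 k1 [(z1,[z0,y1,y3,z1]),(z1,[z1,z0,y1]),(z1,[y1,z0,z2])],.ref k115 k1 [(z1,[z0,y1,
    y3,z1]),(z1,[y1,z0,z2]),(z1,[z1,z0,y1])]],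
    .tor k2 false k0 [(z1,[z0,z2,z1]),(z1,[y1,y2,y2,z2]),(z1,[z1,z0,z1])],
    .geo z5 k4 [(z2,z0),(z4,z0),(z6,y5),(z3,z0),(z0,z5)] [(z1,[z1]),(z1,[z0,z1]),(z1,[z0,z0,z1]),(z1,[y1,y1,y1,z5]),(z1,
    [])] k8,
    .tor k1 true k0 [(z2,[y1,y2,y1,z2]),(z2,[z1,z4,z1]),(z1,[z0,y1,z0,z1])],
    .leafM k1 [k4,k0,k1,k2,k3] [(z1,[z1,z1])] [],
    .geo z1 k4 [(y1,z2),(y1,z2),(z3,y3),(z2,y2),(z0,z1)] [(z1,[z1]),(z1,[z0,z1]),(z1,[z0,z0,z1]),(z1,[y1,y1,y1,z1]),(z1,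
    [])] k9,
    .leafM k5 [k2,k3,k4,k0,k1] [(z2,[y2,y1,y1,z4]),(z1,[z1])] [],
    .geo z2 k4 [(z1,z0),(z2,y2),(z1,z1),(z2,y1),(z0,z2)] [(z1,[z1]),(z1,[z0,z2]),(z1,[z0,z0,z1]),(z1,[y1,y2,y1,z2]),(z1,
    [])] k4,
    .tor k2 true k2 [(z1,[z1,z2]),(z1,[y1,y1,z0,z1]),(z1,[z0,y1,z0,z1])],
    .lp [(nat_lit 364),(nat_lit 396),(nat_lit 446),(nat_lit 552),(nat_lit 396)] [k94,k94,k78,k78,k53,k53,k0,k0,k78,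
    k78] k0 [[k0,k0,k84,k0,k0,k0,k140],[k0,k0,k0,k0,k0,k0,k0,k0,k0,k46],[k0,k0,k0,k0,k0,k0,k44,k0,k140],[k0,k84,k0,k0,
    k0,k142],[k0,k0,k142],[k0,k0,k0,k0,k0,k0,k0,k154],[k0,k0,k0,k0,k154,k0,k0,k0,k96],[k0,k140,k0,k44],[k46],[k0,k0,
    k0,k140,k0,k0,k0,k96]] (nat_lit 1440) k7
    [[(k2,(nat_lit 240)),(k6,(nat_lit 362)),(k8,(nat_lit 380)),(k4,(nat_lit 405)),(k0,(nat_lit 410))],[(k9,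
    (nat_lit 240)),(k5,(nat_lit 321)),(k3,(nat_lit 380)),(k1,(nat_lit 410)),(k7,(nat_lit 458))],[(k8,(nat_lit 350)),
    (k0,(nat_lit 380)),(k4,(nat_lit 421)),(k2,(nat_lit 480)),(k6,(nat_lit 614))],[(k1,(nat_lit 240)),(k9,
    (nat_lit 352)),(k5,(nat_lit 421)),(k3,(nat_lit 480)),(k7,(nat_lit 616))],[(k4,(nat_lit 304)),(k0,(nat_lit 321)),
    (k2,(nat_lit 421)),(k6,(nat_lit 543)),(k8,(nat_lit 561))],[(k5,(nat_lit 304)),(k1,(nat_lit 405)),(k3,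
    (nat_lit 421)),(k7,(nat_lit 499)),(k9,(nat_lit 575))],[(k6,(nat_lit 398)),(k0,(nat_lit 458)),(k8,(nat_lit 474)),
    (k4,(nat_lit 499)),(k2,(nat_lit 616))],[(k1,(nat_lit 362)),(k7,(nat_lit 398)),(k9,(nat_lit 474)),(k5,
    (nat_lit 543)),(k3,(nat_lit 614))],[(k0,(nat_lit 240)),(k2,(nat_lit 352)),(k6,(nat_lit 474)),(k8,(nat_lit 492)),
    (k4,(nat_lit 575))],[(k3,(nat_lit 350)),(k1,(nat_lit 380)),(k7,(nat_lit 474)),(k9,(nat_lit 492)),(k5,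
    (nat_lit 561))]]
    [] k0
    [[k3,k0,k0,k0,k0],[k2,k1,k0,k0,k0],[k2,k1,k1,k0,k0],[k2,k1,k0,k0,k1],[k2,k0,k1,k0,k0],[k2,k0,k0,k1,k0],[k2,k0,k0,
    k0,k1],[k2,k2,k0,k0,k0],[k1,k2,k0,k0,k0],[k1,k2,k0,k0,k1],[k1,k1,k1,k0,k0],[k1,k1,k2,k0,k0],[k1,k1,k0,k1,k0],[k1,
    k1,k0,k0,k1],[k1,k1,k0,k0,k2],[k2,k0,k1,k0,k1],[k1,k1,k1,k0,k1],[k1,k0,k2,k0,k0],[k1,k0,k3,k0,k0],[k1,k0,k1,k1,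
    k0],[k1,k0,k1,k0,k1],[k1,k0,k0,k2,k0],[k1,k0,k0,k1,k1],[k2,k0,k0,k0,k2],[k1,k0,k0,k0,k2],[k0,k2,k1,k0,k0],[k0,k2,
    k0,k0,k1],[k0,k1,k2,k0,k0],[k0,k1,k1,k0,k1],[k0,k2,k0,k0,k2],[k0,k1,k0,k0,k2],[k0,k0,k3,k0,k0],[k0,k0,k4,k0,k0],
    [k0,k0,k2,k1,k0],[k0,k0,k0,k3,k0],[k0,k0,k0,k2,k1]]
    [.ref k101 k1 [(z1,[y1,z0,y3,z3]),(z1,[z1,y3]),(z1,[y1,z3,z6])],.ref k145 k2 [(z1,[y1,z2,z1]),(z1,[z0,z1]),(z1,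
    [z1,y2])],.ref k113 k0 [(z1,[z2,y1,z0,y2]),(z1,[y1,z1,z1,z1]),(z1,[y2,z1,y1,z3])],.ref k18 k0 [(z1,[z2,y1,y2]),
    (z1,[y1,z2,z4]),(z1,[y2,z1,y1,z3])],.contra [z1,z0,z1,y1],.ref k146 k1 [(z1,[y2,y1,y5,z5]),(z1,[z1,y2]),(z1,[y1,
    z2,z5])],.ref k147 k4 [(z1,[y2,z1,z2]),(z1,[z0,z0,y1,z1]),(z1,[z0,y1])],.ref k113 k0 [(z1,[z1,y1,y2]),(z2,[y1,z2,
    z4]),(z1,[y1,z1,z1,z1])],.ref k142 k0 [(z1,[z0,z1]),(z1,[z1,y1]),(z1,[z0,y1,y1,z1])],.contra [y1,z1,z2],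
    .contra [z1,z0,z1,y1],.ref k148 k4 [(z1,[z1,z0,z2,y2]),(z1,[z0,z0,y1,z1]),(z1,[z0,y1])],.ref k149 k2 [(z1,[y1,z1,
    z1]),(z1,[z0,z1]),(z1,[z1,y1])],.contra [z2,y1,y2],.contra [y1,z1,z2],.ref k115 k8 [(z1,[z2,y1,z0,y2]),(z1,[y1,z1,
    z1,z1]),(z1,[z1,y1,z0,y1])],.contra [y2,z1,z0,z2],.contra [z1,z0,z1,y1],.ref k150 k1 [(z1,[z1,z0,z1,y1]),(z1,[y1,
    y2,y3,z3]),(z1,[z1,z2,z7,y3])],.contra [z2,z1,z2,y2],.contra [z1,z0,z1,y1],.ref k150 k1 [(z1,[y1,y1,y2,z2]),(z1,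
    [z1,y1]),(z1,[y1,z1,z4])],.ref k148 k4 [(z1,[y1,z0,z1]),(z1,[z0,z0,y1,z1]),(z1,[z0,y1])],.ref k115 k8 [(z1,[z1,y1,
    y2]),(z2,[y1,z2,z4]),(z2,[z1,y2,y2])],.ref k151 k4 [(z1,[y1,z1,z2]),(z1,[z0,z0,y1,z1]),(z1,[z0,y1])],
    .ref k115 k8 [(z1,[y1,z0,y1,z1]),(z2,[z1,z1,z3,y1]),(z2,[y1,y1,y1,z1])],.ref k115 k8 [(z1,[y2,z1,z2]),(z1,[z1]),
    (z1,[y1,z0,z1])],.ref k152 k4 [(z1,[z1,z0,z2,y2]),(z1,[z0,z0,y1,z1]),(z1,[z0,y1])],.ref k18 k0 [(z1,[y2,z1,z0,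
    z2]),(z1,[z1,z1,z3,y1]),(z1,[z2,y1,y3,z1])],.contra [y1,z1,z2],.ref k113 k0 [(z1,[y2,z1,z2]),(z1,[z1]),(z1,[z2,y1,
    y3,z1])],.ref k18 k0 [(z1,[y1,z0,y3,z3]),(z2,[z1,z3,z9,y3]),(z1,[z1])],.ref k150 k1 [(z2,[z1]),(z2,[y1,y4,y4,z4]),
    (z2,[z1,z4,z12,y4])],.ref k18 k0 [(z1,[y2,y1,y4,z4]),(z1,[z1,z2,z5,y2]),(z1,[z2,z1,z1,y1])],.ref k18 k0 [(z1,[z2,
    z3]),(z1,[y1,z0,z3]),(z1,[y2,y3,y3,z3])],.ref k115 k8 [(z1,[z2,z1,y2]),(z1,[y1,z0,z2]),(z1,[z1,z0,y1])]],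
    .leafM k1 [k0,k1,k2,k3,k4] [(z1,[z0,z1,z1])] [],
    .leafM k1 [k2,k3,k4,k0,k1] [(z1,[y1,y1,y1,z1])] []]

noncomputable def cT5_0_n0_13 : List TN :=
  [.leafM k5 [k3,k4,k0,k1,k2] [(z1,[y2,y1,y2,z2]),(z1,[z0,z1])] [],
    .lp [(nat_lit 953440),(nat_lit 727200),(nat_lit 953440),(nat_lit 953440),(nat_lit 679326)] [k0,k0,(nat_lit 113120),
    (nat_lit 113120),k0,k0,k0,k0,(nat_lit 137057),(nat_lit 137057)] k0 [[],[],[k0,k0,k0,k0,(nat_lit 226560),k0,k0,k0,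
    (nat_lit 143016)],[k0,k0,k0,k0,k0,k0,k0,(nat_lit 95344)],[k0,k0,k0,k0,k0,k0,(nat_lit 95344)],[k0,k0,k0,
    (nat_lit 226560),k0,k0,k0,k0,k0,(nat_lit 95344)],[k0,k0,(nat_lit 95344)],[k0,k0,k0,k0,k0,(nat_lit 95344)],[k0,k0,
    k0,k0,(nat_lit 95344)],[k0,k0,k0,(nat_lit 143016)]] (nat_lit 2860320) k6
    [[(k2,(nat_lit 697304)),(k8,(nat_lit 816383)),(k0,(nat_lit 953440)),(k6,(nat_lit 953440)),(k4,(nat_lit 1048784))],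
    [(k9,(nat_lit 816383)),(k3,(nat_lit 840320)),(k1,(nat_lit 953440)),(k5,(nat_lit 953440)),(k7,(nat_lit 953440))],
    [(k8,(nat_lit 703263)),(k2,(nat_lit 727200)),(k0,(nat_lit 840320)),(k4,(nat_lit 840320)),(k6,(nat_lit 840320))],
    [(k7,(nat_lit 613760)),(k1,(nat_lit 697304)),(k3,(nat_lit 727200)),(k9,(nat_lit 798607)),(k5,(nat_lit 840320))],
    [(k2,(nat_lit 840320)),(k6,(nat_lit 858096)),(k0,(nat_lit 953440)),(k8,(nat_lit 959399)),(k4,(nat_lit 1180000))],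
    [(k9,(nat_lit 721039)),(k3,(nat_lit 840320)),(k7,(nat_lit 953440)),(k1,(nat_lit 1048784)),(k5,(nat_lit 1180000))],
    [(k2,(nat_lit 613760)),(k8,(nat_lit 721039)),(k0,(nat_lit 953440)),(k4,(nat_lit 953440)),(k6,(nat_lit 1048784))],
    [(k9,(nat_lit 816383)),(k3,(nat_lit 840320)),(k5,(nat_lit 858096)),(k1,(nat_lit 953440)),(k7,(nat_lit 1048784))],
    [(k8,(nat_lit 679326)),(k4,(nat_lit 721039)),(k2,(nat_lit 798607)),(k0,(nat_lit 816383)),(k6,(nat_lit 816383))],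
    [(k9,(nat_lit 679326)),(k3,(nat_lit 703263)),(k7,(nat_lit 721039)),(k1,(nat_lit 816383)),(k5,(nat_lit 959399))]]
    [] k0
    [[k2,k1,k0,k0,k0],[k2,k0,k0,k0,k1],[k1,k2,k0,k0,k0],[k1,k1,k1,k0,k0],[k1,k1,k0,k1,k0],[k1,k1,k0,k0,k1],[k1,k0,k1,
    k0,k1],[k1,k0,k0,k1,k1],[k1,k0,k0,k0,k2],[k0,k3,k0,k0,k0],[k0,k2,k1,k0,k0],[k0,k2,k0,k1,k0],[k0,k2,k0,k0,k1],[k0,
    k1,k1,k1,k0],[k0,k1,k1,k0,k1],[k0,k1,k0,k2,k0],[k0,k1,k0,k1,k1],[k0,k1,k0,k0,k2],[k0,k1,k0,k1,k2],[k0,k0,k1,k1,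
    k1],[k0,k0,k1,k0,k2],[k0,k0,k0,k2,k1],[k0,k0,k0,k1,k2],[k0,k0,k0,k0,k3],[k0,k0,k0,k0,k4]]
    [.ref k108 k2 [(z1,[y1,z2,z1]),(z1,[z0,z1]),(z1,[z1,y2])],.ref k115 k4 [(z1,[y1,z0,z1]),(z1,[z0,z1,y1,z1]),(z1,
    [z0,y1])],.ref k123 k1 [(z1,[y2,z1,y1,z1]),(z1,[z1,y1]),(z1,[z0,z0,z1])],.ref k154 k8 [(z1,[y1,z1,y1,z1]),(z1,[z0,
    z0,z1]),(z1,[y1,z0,y1,z1])],.ref k108 k2 [(z1,[y1,z1,z1]),(z1,[z0,z1]),(z1,[z1,y1])],.contra [z1,z0,y1],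
    .ref k155 k1 [(z1,[z2,y1,y1,y1]),(z1,[y1,z0,z0,z1]),(z1,[z0,z0,z1])],.ref k115 k4 [(z1,[y1,y1,z1]),(z1,[z0,z1,y1,
    z1]),(z1,[z0,y1])],.ref k117 k8 [(z1,[z1,z0,y2]),(z1,[z0,z0,z1]),(z1,[z1,y1,y2])],.ref k70 k0 [(z1,[z0,z1]),(z1,
    [z1]),(z1,[z0,y1,y1,z1])],.ref k154 k8 [(z2,[y1,z1,y1,z1]),(z1,[z0,z0,z1]),(z2,[y1,y1,y1,z1])],.ref k123 k1 [(z1,
    [y2,y1,y1,z1]),(z1,[z1]),(z1,[z0,z0,z1])],.contra [z1,z0,y1],.ref k154 k8 [(z1,[y1,z0,y1,z1]),(z1,[z0,z0,z1]),(z1,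
    [y1,y1,y1,z1])],.contra [z1,z0,y1],.ref k108 k2 [(z1,[y1,z0,z1]),(z1,[z0,z1]),(z1,[z1])],.contra [z1,z1,y1],
    .contra [z1,z0,y1],.ref k154 k8 [(z1,[z1,z1,y2]),(z1,[z0,z0,z1]),(z1,[z1,z0,y2])],.ref k155 k1 [(z1,[z2,z1,y1,
    y1]),(z1,[y1,y1,z0,z1]),(z1,[z0,z0,z1])],.ref k155 k1 [(z1,[z1,z0,y2]),(z2,[y1,y1,z1,z1]),(z1,[z0,z0,z1])],
    .ref k115 k4 [(z1,[y1,y2,z1]),(z1,[z0,z1,y1,z1]),(z1,[z0,y1])],.ref k117 k8 [(z1,[z1,z1,y2]),(z1,[z0,z0,z1]),(z1,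
    [z1,z0,y2])],.ref k47 k0 [(z1,[z0,z1]),(z1,[y1,z0,z3]),(z1,[z0,y1,y1,z1])],.ref k156 k0 [(z1,[z0,z1]),(z2,[y1,z0,
    z4]),(z1,[z0,y1,y1,z1])]],
    .geo z1 k4 [(y3,z5),(y2,z4),(z2,y2),(z6,y8),(z0,z1)] [(z1,[z1]),(z1,[z0,z1]),(z1,[z0,z0,z1]),(z1,[y1,y1,y1,z1]),(z1,
    [])] k8,
    .geo z1 k4 [(y3,z5),(z2,y2),(y2,z4),(z6,y8),(z0,z1)] [(z1,[z1]),(z1,[z0,z1]),(z1,[z0,z0,z1]),(z1,[y1,y1,y1,z1]),(z1,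
    [])] k8,
    .leafM k1 [k2,k3,k4,k0,k1] [(z1,[y1,y1,y1,z1])] [],
    .tor k2 true k0 [(z2,[y1,y1,y2,z2]),(z2,[z1,z1,z4]),(z1,[z0,z0,y1,z1])],
    .leafM k1 [k4,k0,k1,k2,k3] [(z1,[z1,z1])] [],
    .leafM k1 [k1,k2,k3,k4,k0] [(z1,[y1,y1,z0,z1])] [],
    .geo z1 k4 [(y2,z4),(z6,y8),(y3,z5),(z2,y2),(z0,z1)] [(z1,[z1]),(z1,[z0,z1]),(z1,[z0,z0,z1]),(z1,[y1,y1,y1,z1]),(z1,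
    [])] k7,
    .tor k0 false k1 [(z1,[y1,z0,z1,z1]),(z1,[z1,y1,y1,z1]),(z1,[z0,z1])],
    .geo z2 k4 [(y4,z6),(z2,y1),(z4,y3),(z4,y4),(z0,z2)] [(z1,[z2]),(z1,[z0,z1]),(z1,[z0,z0,z1]),(z1,[y2,y1,y1,z2]),(z1,
    [])] k9,
    .geo z4 k4 [(y2,z5),(z4,y2),(z2,z1),(z8,y8),(z0,z4)] [(z1,[z1]),(z1,[z0,z2]),(z1,[z0,z0,z1]),(z1,[y1,y2,y1,z4]),(z1,
    [])] k10]

noncomputable def cT5_0_n0_14 : List TN :=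
  [.lp [k196,(nat_lit 278),k164,(nat_lit 200),(nat_lit 236)] [k41,k41,k0,k0,k57,k57,k39,k39,k41,k1] k0 [[k0,k0,k0,k0,k0,
    k0,k18],[k0,k0,k0,k0,k0,k0,k0,k0,k0,k50],[k0,k0,k0,k0,k16],[k0,k0,k0,k0,k0,k0,k0,k2],[k0,k0,k0,k0,k0,k0,k40],[k0,
    k0,k0,k16],[k0,k0,k2,k0,k0,k0,k0,k0,k18],[k0,k18,k0,k0,k0,k40],[k50],[k0,k0,k0,k0,k0,k0,k0,k18]] (nat_lit 720) k5
    [[(k4,k180),(k6,k180),(k8,k196),(k2,(nat_lit 237)),(k0,(nat_lit 246))],[(k5,k180),(k7,k198),(k9,(nat_lit 218)),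
    (k3,(nat_lit 237)),(k1,(nat_lit 246))],[(k8,k187),(k4,(nat_lit 221)),(k0,(nat_lit 237)),(k6,(nat_lit 257)),(k2,
    (nat_lit 278))],[(k5,(nat_lit 221)),(k7,(nat_lit 223)),(k1,(nat_lit 237)),(k3,(nat_lit 278)),(k9,(nat_lit 279))],
    [(k0,k180),(k4,k180),(k6,k180),(k8,k180),(k2,(nat_lit 221))],[(k1,k180),(k5,k180),(k9,k180),(k7,k182),(k3,
    (nat_lit 221))],[(k4,k182),(k0,k198),(k8,k198),(k2,(nat_lit 223)),(k6,(nat_lit 240))],[(k1,k180),(k5,k180),(k9,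
    (nat_lit 238)),(k7,(nat_lit 240)),(k3,(nat_lit 257))],[(k4,k180),(k0,(nat_lit 218)),(k6,(nat_lit 238)),(k8,
    (nat_lit 254)),(k2,(nat_lit 279))],[(k5,k180),(k3,k187),(k1,k196),(k7,k198),(k9,(nat_lit 254))]]
    [] k0
    [[k2,k0,k1,k0,k0],[k2,k0,k0,k1,k0],[k2,k0,k0,k0,k1],[k1,k1,k1,k0,k0],[k1,k1,k0,k1,k0],[k1,k1,k0,k0,k1],[k1,k0,k2,
    k0,k0],[k1,k0,k1,k1,k0],[k1,k0,k1,k0,k1],[k1,k0,k0,k2,k0],[k1,k0,k0,k1,k1],[k1,k0,k0,k0,k2],[k0,k1,k2,k0,k0],[k0,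
    k1,k1,k1,k0],[k0,k1,k1,k0,k1],[k0,k1,k0,k1,k1],[k0,k0,k3,k0,k0],[k0,k0,k2,k1,k0],[k0,k0,k2,k0,k1],[k0,k0,k1,k2,
    k0],[k0,k0,k1,k1,k1],[k0,k0,k1,k0,k2],[k0,k0,k0,k2,k1],[k0,k0,k0,k1,k2]]
    [.ref k158 k2 [(z1,[y1,z1,y1,z1]),(z1,[z0,z1]),(z1,[z0,z0,z1])],.ref k1 k0 [(z3,[z4,z1]),(z3,[y2,z4,z9]),(z3,[y1,
    y1,y3,z3])],.ref k159 k9 [(z1,[y1,z1,y1,z1]),(z1,[z0,z0,z1]),(z1,[z0,z1])],.ref k110 k1 [(z1,[z1,y1,y2]),(z1,[z0,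
    z0,z1]),(z1,[y2,z0,y1,z2])],.ref k1 k0 [(z1,[z4,y1,y4]),(z1,[y2,z2,z5]),(z1,[y1,z0,z0,z1])],.ref k160 k7 [(z1,[z2,
    z0,z1,y2]),(z1,[y4,z1,z0,z4]),(z1,[z3,y1,y1,y2])],.ref k110 k1 [(z2,[z1,y1,y2]),(z1,[z0,z0,z1]),(z1,[y1,y1,y3,
    z2])],.ref k161 k1 [(z1,[z2,y2,y5]),(z1,[z0,z0,z1]),(z1,[y1,z0,z0,z1])],.contra [z1,z0,z1,y1],.ref k1 k0 [(z1,[z2,
    z1]),(z1,[y1,z1,z3]),(z2,[y1,y1,y2,z2])],.ref k162 k9 [(z1,[y1,z0,y1,z1]),(z1,[z0,z0,z1]),(z1,[z0,z1])],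
    .ref k160 k7 [(z1,[z1,z1,z3,y2]),(z1,[y2,y1,y4,z4]),(z2,[z3,z1,z4,y4])],.ref k163 k9 [(z2,[z1,z0,y1]),(z1,[z0,z0,
    z1]),(z1,[z0,z1])],.ref k163 k9 [(z1,[z1,z0,y1]),(z1,[z0,z0,z1]),(z1,[z0,z1])],.ref k146 k0 [(z1,[y4,z1,z0,z4]),
    (z1,[z2,z2,z5,y2]),(z1,[z3,y2,y5,z2])],.ref k124 k0 [(z1,[y4,z1,z4]),(z1,[z2,z0,y1]),(z1,[z3,y1,y4,z1])],
    .ref k49 k1 [(z1,[z1]),(z1,[z0,z0,z1]),(z1,[y2,y6,y15,z6])],.ref k164 k7 [(z1,[y2,z0,z1]),(z1,[z4,z1]),(z1,[y3,y1,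
    y1,z1])],.ref k165 k9 [(z1,[z1,z1,z1,y1]),(z1,[z0,z0,z1]),(z1,[z0,z1])],.ref k110 k1 [(z1,[z1,z0,y1]),(z1,[z0,z0,
    z1]),(z1,[y2,y2,y3,z2])],.contra [z1,z1,z2,y1],.ref k166 k1 [(z1,[y1,y2,y5,z2]),(z1,[z0,z0,z1]),(z1,[z2,z2,z5,
    y2])],.ref k160 k7 [(z1,[z2,z2,z3,y2]),(z1,[y4,y3,y4,z4]),(z1,[z3,z2,z2,y2])],.ref k167 k1 [(z1,[y2,y4,y9,z4]),
    (z1,[z0,z0,z1]),(z1,[z2,z0,y1])]],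
    .leafM k1 [k2,k3,k4,k0,k1] [(z2,[y1,y1,z2])] [],
    .geo z1 k4 [(y2,z4),(z5,y7),(y2,z4),(z2,y2),(z0,z1)] [(z1,[z1]),(z1,[z0,z1]),(z1,[z0,z0,z1]),(z1,[y1,y1,y1,z1]),(z1,
    [])] k9,
    .geo z1 k4 [(y3,z5),(z6,y8),(y2,z4),(z2,y2),(z0,z1)] [(z1,[z1]),(z1,[z0,z1]),(z1,[z0,z0,z1]),(z1,[y1,y1,y1,z1]),(z1,
    [])] k8,
    .geo z1 k4 [(y1,z3),(z4,y6),(y2,z4),(z2,y2),(z0,z1)] [(z1,[z1]),(z1,[z0,z1]),(z1,[z0,z0,z1]),(z1,[y1,y1,y1,z1]),(z1,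
    [])] k7,
    .geo z4 k4 [(y2,z5),(z8,y8),(z2,z1),(z4,y2),(z0,z4)] [(z1,[z1]),(z1,[z0,z4]),(z1,[z0,z0,z1]),(z1,[y1,y4,y1,z4]),(z1,
    [])] k6,
    .lp [(nat_lit 297),(nat_lit 232),(nat_lit 232),(nat_lit 304),k188] [k0,k49,k57,k57,k57,k57,k21,k21,k79,k79] k0 [[k0,
    k0,k79],[k0,k0,k0,k0,k0,k0,k0,k58],[k0,k0,k0,k0,k48],[k0,k79],[],[k0,k0,k0,k48],[k58,k0,k0,k0,k0,k0,k0,k0,k22],[],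
    [],[k0,k0,k0,k0,k0,k0,k0,k22]] (nat_lit 840) k5
    [[(k8,(nat_lit 218)),(k2,(nat_lit 240)),(k4,(nat_lit 240)),(k6,(nat_lit 254)),(k0,(nat_lit 297))],[(k5,
    (nat_lit 210)),(k3,(nat_lit 289)),(k1,(nat_lit 297)),(k7,(nat_lit 325)),(k9,(nat_lit 325))],[(k6,(nat_lit 210)),
    (k8,(nat_lit 210)),(k4,(nat_lit 232)),(k0,(nat_lit 289)),(k2,(nat_lit 311))],[(k9,(nat_lit 210)),(k7,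
    (nat_lit 220)),(k5,(nat_lit 232)),(k1,(nat_lit 240)),(k3,(nat_lit 311))],[(k0,(nat_lit 210)),(k8,(nat_lit 210)),
    (k2,(nat_lit 232)),(k6,(nat_lit 268)),(k4,(nat_lit 280))],[(k9,(nat_lit 210)),(k3,(nat_lit 232)),(k1,
    (nat_lit 240)),(k7,(nat_lit 268)),(k5,(nat_lit 280))],[(k2,(nat_lit 220)),(k8,(nat_lit 246)),(k4,(nat_lit 268)),
    (k6,(nat_lit 304)),(k0,(nat_lit 325))],[(k3,(nat_lit 210)),(k9,(nat_lit 246)),(k1,(nat_lit 254)),(k5,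
    (nat_lit 268)),(k7,(nat_lit 304))],[(k2,(nat_lit 210)),(k4,(nat_lit 210)),(k8,(nat_lit 210)),(k6,(nat_lit 246)),
    (k0,(nat_lit 325))],[(k3,(nat_lit 210)),(k5,(nat_lit 210)),(k9,(nat_lit 210)),(k1,(nat_lit 218)),(k7,
    (nat_lit 246))]]
    [] k0
    [[k2,k1,k0,k0,k0],[k2,k0,k1,k0,k0],[k1,k1,k1,k0,k0],[k1,k1,k0,k1,k0],[k1,k1,k0,k0,k1],[k1,k0,k2,k0,k0],[k1,k0,k1,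
    k1,k0],[k1,k0,k1,k0,k1],[k1,k0,k0,k1,k1],[k1,k0,k0,k0,k2],[k0,k2,k1,k0,k0],[k0,k2,k0,k1,k0],[k0,k2,k0,k0,k1],[k0,
    k1,k2,k0,k0],[k0,k1,k1,k1,k0],[k0,k1,k1,k0,k1],[k0,k1,k0,k2,k0],[k0,k1,k0,k1,k1],[k0,k1,k0,k0,k2],[k0,k0,k2,k1,
    k0],[k0,k0,k2,k0,k1],[k0,k0,k1,k1,k1],[k0,k0,k1,k0,k2],[k0,k0,k0,k2,k1],[k0,k0,k0,k1,k2],[k0,k0,k0,k0,k3]]
    [.ref k0 k2 [(z1,[y4,z4,z1]),(z2,[z4,y1,y1]),(z1,[y1,z1,z1])],.ref k170 k1 [(z1,[z1,y1,y1]),(z2,[y2,z1,z3,z2]),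
    (z1,[z0,z0,y1])],.ref k163 k7 [(z2,[y2,z1,z1]),(z2,[z4,y1,y1]),(z1,[y4,z2,z1])],.ref k133 k2 [(z1,[y4,z2,z1]),(z2,
    [z4,y1,y1]),(z2,[y2,z1,z1])],.ref k0 k2 [(z1,[z4,y2,y1]),(z2,[y4,z5,z1]),(z2,[z2,y1,z1])],.ref k163 k7 [(z4,[y2,
    z1,z1]),(z1,[z1]),(z1,[y2,z1])],.ref k138 k2 [(z1,[y4,z0,y1,z4]),(z2,[z4,z5,z1,y4]),(z1,[y1,z0,z1,z1])],
    .ref k117 k9 [(z2,[z6,y1,z1,y4]),(z1,[y1,z0,z0,z1]),(z2,[z4,z1,z1,y4])],.ref k160 k5 [(z2,[z6,y1,z1,y4]),(z1,[y4,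
    z0,y1,z4]),(z2,[z4,z1,z1,y4])],.ref k0 k2 [(z1,[z2,y1]),(z1,[y1,z2]),(z4,[z2,y1,z3])],.ref k117 k9 [(z1,[z3,z1,y1,
    y2]),(z2,[y2,y1,z1,z2]),(z2,[z4,z3,y1,y4])],.ref k160 k5 [(z1,[z3,z1,y1,y2]),(z1,[y4,y2,z1,z4]),(z2,[z4,z3,y1,
    y4])],.ref k0 k2 [(z1,[z2,z0,y1]),(z2,[y2,z3,z1]),(z2,[z1,z0,z1])],.ref k171 k5 [(z2,[y6,y1,z1,z2]),(z1,[z4,z0,
    y1]),(z2,[y4,z1,z1])],.contra [z1,z1,z0,y1],.ref k152 k2 [(z1,[z2,z1,z0,y2]),(z1,[y1,z0,z0,z1]),(z2,[z2,z1,z1,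
    y2])],.ref k159 k9 [(z2,[y6,y1,z1,z2]),(z1,[z1]),(z2,[y4,z1,z1])],.ref k137 k1 [(z2,[y2,y1,y1,z2]),(z1,[z1,z0,
    z1]),(z1,[z0,z0,y1])],.ref k0 k2 [(z3,[z4,z0,y1]),(z6,[y4,z9,z1]),(z3,[z1,z0,z2])],.ref k172 k1 [(z2,[z2,z1,y1,
    y2]),(z1,[y1,y1,z1,z2]),(z1,[z0,z0,y1])],.ref k117 k9 [(z2,[z3,z2,z1,y4]),(z2,[y1,y1,z0,z2]),(z2,[z2,z3,z1,y4])],
    .contra [z2,z1,z1,y2],.ref k173 k3 [(z1,[y4,y2,y1,z4]),(z1,[z1]),(z1,[z0,z0,z1])],.ref k160 k5 [(z2,[z3,z2,z1,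
    y4]),(z1,[y2,y2,y1,z4]),(z2,[z2,z3,z1,y4])],.ref k171 k1 [(z2,[y2,y1,y3,z2]),(z1,[z1,z0,z2]),(z1,[z0,z0,y1])],
    .ref k0 k2 [(z1,[z1]),(z2,[y1,z3]),(z4,[z1,z0,z3])]],
    .leafM k1 [k4,k0,k1,k2,k3] [(z2,[z1,z1])] [],
    .tor k1 true k2 [(z1,[z1,z2]),(z1,[y1,y1,z1]),(z1,[z0,y1,z1])],
    .tor k2 true k4 [(z1,[y1,y1,z1]),(z1,[z1,z2]),(z1,[z0,y1,z1])],
    .leafM k1 [k1,k2,k3,k4,k0] [(z1,[y1,y1,z0,z1])] [],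
    .geo z1 k4 [(y2,z4),(z4,y6),(y1,z3),(z2,y2),(z0,z1)] [(z1,[z1]),(z1,[z0,z1]),(z1,[z0,z0,z1]),(z1,[y1,y1,y1,z1]),(z1,
    [])] k7]

noncomputable def cT5_0_n0_15 : List TN :=
  [.leafM k0 [k0,k1,k4] [] [(k2,k3,z1,[y1,y1,z0,z1]),(k3,k2,z1,[y1,y1,z0,z1])],
    .lp [(nat_lit 1042),(nat_lit 820),(nat_lit 936),(nat_lit 714),(nat_lit 796)] [(nat_lit 400),k0,(nat_lit 311),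
    (nat_lit 311),(nat_lit 253),(nat_lit 253),(nat_lit 364),(nat_lit 364),(nat_lit 323),(nat_lit 323)] k0 [[k0,k0,
    k140,k0,k58],[],[k0,k0,k0,k0,k130,k0,k130],[k0,k140,k0,k0,k0,k0,k0,k0,k0,k58],[k0,k0,k0,k0,k0,k0,(nat_lit 386)],
    [k0,k58,k0,k130],[k0,k0,k0,k0,k0,k0,k0,k0,(nat_lit 598)],[k0,k0,k0,k130,k0,(nat_lit 386)],[k0,k0,k58],[k0,k0,k0,
    k0,k0,k0,k0,(nat_lit 598)]] (nat_lit 2880) k7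
    [[(k6,(nat_lit 480)),(k0,(nat_lit 1042)),(k8,(nat_lit 1119)),(k2,(nat_lit 1189)),(k4,(nat_lit 1189))],[(k7,
    (nat_lit 620)),(k5,(nat_lit 649)),(k9,(nat_lit 719)),(k3,(nat_lit 731)),(k1,(nat_lit 1042))],[(k0,(nat_lit 731)),
    (k6,(nat_lit 767)),(k8,(nat_lit 808)),(k4,(nat_lit 936)),(k2,(nat_lit 960))],[(k7,(nat_lit 637)),(k9,
    (nat_lit 678)),(k5,(nat_lit 878)),(k3,(nat_lit 960)),(k1,(nat_lit 1189))],[(k0,(nat_lit 649)),(k8,(nat_lit 808)),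
    (k2,(nat_lit 878)),(k6,(nat_lit 955)),(k4,(nat_lit 1066))],[(k9,(nat_lit 480)),(k7,(nat_lit 825)),(k3,
    (nat_lit 936)),(k5,(nat_lit 1066)),(k1,(nat_lit 1189))],[(k0,(nat_lit 620)),(k2,(nat_lit 637)),(k8,(nat_lit 755)),
    (k4,(nat_lit 825)),(k6,(nat_lit 1100))],[(k1,(nat_lit 480)),(k9,(nat_lit 755)),(k3,(nat_lit 767)),(k5,
    (nat_lit 955)),(k7,(nat_lit 1100))],[(k4,(nat_lit 480)),(k2,(nat_lit 678)),(k0,(nat_lit 719)),(k6,(nat_lit 755)),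
    (k8,(nat_lit 1394))],[(k7,(nat_lit 755)),(k3,(nat_lit 808)),(k5,(nat_lit 808)),(k1,(nat_lit 1119)),(k9,
    (nat_lit 1394))]]
    [] k0
    [[k2,k0,k0,k1,k0],[k1,k1,k1,k0,k0],[k1,k1,k0,k1,k0],[k1,k1,k0,k0,k1],[k1,k0,k1,k1,k0],[k1,k0,k1,k0,k1],[k2,k0,k0,
    k2,k0],[k1,k2,k0,k1,k0],[k1,k1,k1,k1,k0],[k1,k1,k0,k2,k0],[k1,k1,k0,k1,k1],[k1,k0,k1,k1,k1],[k1,k0,k0,k2,k0],[k1,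
    k0,k0,k1,k1],[k1,k0,k0,k2,k1],[k0,k2,k1,k0,k0],[k0,k2,k0,k1,k0],[k0,k2,k0,k0,k1],[k0,k1,k1,k1,k0],[k0,k1,k1,k0,
    k1],[k0,k2,k0,k2,k0],[k0,k1,k0,k2,k0],[k0,k1,k0,k1,k1],[k0,k1,k1,k0,k2],[k0,k0,k2,k1,k0],[k0,k0,k2,k0,k1],[k0,k0,
    k1,k1,k1],[k0,k0,k2,k0,k2],[k0,k0,k1,k1,k2],[k0,k0,k1,k0,k2],[k0,k0,k0,k2,k1]]
    [.contra [z1,y1,z1,y1],.contra [z1,y1,y1],.contra [y1,z1,z0,z1],.ref k178 k0 [(z1,[y1,z2,z1]),(z1,[z2,y2,y1]),(z1,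
    [y1,z1,z1])],.ref k147 k0 [(z1,[z1,z2,z1,y1]),(z1,[y1,z0,z0,z1]),(z1,[z1,z0,z1,y1])],.ref k142 k4 [(z1,[y1,z1,
    z1]),(z1,[z1,y1]),(z1,[z0,y1,y1,z1])],.ref k115 k0 [(z2,[z1,z2,z2,y2]),(z1,[y1,z0,y1,z2]),(z2,[z1,z0,z2,y2])],
    .ref k109 k5 [(z1,[z2,y1,y3,y1]),(z1,[y1,z0,z1,z1]),(z1,[y1,z1,z1,z1])],.contra [y1,z0,z0,z1],.ref k118 k9 [(z1,
    [y2,z1,z1,z1]),(z1,[z2,y1,z0,y1]),(z1,[y1,z1,z0,z1])],.contra [y1,z0,z0,z1],.contra [y1,z0,z0,z1],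
    .ref k179 k0 [(z1,[z1,z2,z2,y2]),(z1,[y2,y2,y3,z4]),(z1,[z1,z1,z2,y2])],.contra [z1,z0,z1,y1],.ref k178 k0 [(z1,
    [z1,z2,z2,y2]),(z1,[y2,y2,y3,z4]),(z1,[z1,z1,z2,y2])],.ref k39 k0 [(z1,[y1,z3,z2]),(z1,[z2,z0,y1]),(z1,[y1,z0,
    z2])],.ref k123 k5 [(z1,[z1,z0,y2]),(z2,[y1,y1,z1,z1]),(z2,[y1,z1,z1,z1])],.ref k167 k0 [(z1,[y1,z4,z2]),(z1,
    [z1]),(z1,[y1,z0,z2])],.ref k110 k5 [(z1,[z1,z0,y1]),(z1,[y1,y1,z0,z1]),(z1,[y1,z1,z0,z1])],.ref k115 k0 [(z1,[y1,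
    z1,z1]),(z1,[z2,z0,y1]),(z1,[y1,z0,z1])],.ref k142 k4 [(z2,[z1,z2,z2,y2]),(z2,[y1,y2,z0,z2]),(z1,[z0,y1,y1,z1])],
    .ref k110 k5 [(z2,[z1,z0,y1]),(z2,[y1,y2,y1,z2]),(z2,[y1,z2,y1,z2])],.ref k123 k5 [(z1,[z2,z1,y1,y1]),(z1,[y1,y1,
    z0,z1]),(z1,[y1,z0,z0,z1])],.ref k180 k0 [(z1,[y1,z1,z1]),(z1,[z2,z0,y1]),(z1,[y1,z0,z1])],.ref k115 k0 [(z2,[z1,
    z3,z1,y1]),(z1,[y1,y1,z0,z1]),(z2,[z1,z1,z1,y1])],.ref k123 k5 [(z1,[y2,y1,y1,z1]),(z1,[z1]),(z1,[z1,z1])],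
    .ref k115 k0 [(z1,[z1,z2,z1,y1]),(z1,[y2,y2,y1,z2]),(z1,[z1,z1,z1,y1])],.contra [z1,z2],.contra [z1,z1,z1,y1],
    .ref k110 k5 [(z1,[y1,y1,y1,z1]),(z1,[z1]),(z1,[z1,z2])],.ref k105 k0 [(z1,[y1,z1,y2,z2]),(z1,[z0,z0,z1]),(z1,[z2,
    z1,z1,y1])]],
    .leafM k0 [k0,k3,k4] [] [(k1,k2,z1,[z0,z1,z1]),(k2,k1,z1,[z0,z1,z1])],
    .leafM k1 [k2,k3,k4,k0,k1] [(z2,[y1,y2,y1,z2])] [],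
    .geo z3 k4 [(y2,z5),(z6,y6),(z1,z2),(z4,y4),(z0,z3)] [(z1,[z1]),(z1,[z0,z3]),(z1,[z0,z0,z1]),(z1,[y1,y3,y1,z3]),(z1,
    [])] k8,
    .geo z3 k4 [(y2,z4),(z6,y6),(z1,z1),(z4,y2),(z0,z3)] [(z1,[z1]),(z1,[z0,z3]),(z1,[z0,z0,z1]),(z1,[y1,y3,y1,z3]),(z1,
    [])] k5,
    .leafM k1 [k0,k1,k2,k3,k4] [(z1,[z0,z1,z1])] [],
    .tor k6 false k4 [(z1,[y1,y1,y1,z1]),(z1,[y1,y2,y2,z2]),(z1,[z1,z0,z1]),(z1,[z1,y1,z0,z1]),(z1,[z0,z2,z1])],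
    .lp [k179,k129,k141,k139,k127] [k0,k0,k25,k25,k19,k19,k20,k20,k26,k26] k0 [[k0,k0,k80],[k0,k0,k0,k0,k0,k49,k0,k0,k0,
    k25],[k0,k0,k0,k0,k54,k0,k0,k0,k35],[k0,k80,k0,k0,k0,k0,k0,k40],[k49,k0,k0,k0,k0,k0,k21],[k0,k0,k0,k54],[k0,k0,
    k40,k0,k0,k0,k0,k0,k47],[k0,k0,k0,k0,k0,k21],[k25],[k0,k0,k0,k35,k0,k0,k0,k47]] (nat_lit 480) k7
    [[(k6,k112),(k2,k119),(k8,k153),(k4,k160),(k0,(nat_lit 204))],[(k5,k80),(k9,k153),(k3,k154),(k1,(nat_lit 204)),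
    (k7,(nat_lit 208))],[(k4,k86),(k8,k103),(k6,k134),(k0,k154),(k2,(nat_lit 209))],[(k7,k80),(k1,k119),(k5,k135),(k9,
    k168),(k3,(nat_lit 209))],[(k0,k80),(k6,k100),(k2,k135),(k8,k169),(k4,k195)],[(k3,k86),(k9,k113),(k7,k140),(k1,
    k160),(k5,k195)],[(k2,k80),(k8,k133),(k4,k140),(k6,k160),(k0,(nat_lit 208))],[(k5,k100),(k1,k112),(k9,k133),(k3,
    k134),(k7,k160)],[(k4,k113),(k6,k133),(k0,k153),(k2,k168),(k8,k174)],[(k3,k103),(k7,k133),(k1,k153),(k5,k169),(k9,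
    k174)]]
    [[k0,k0,k2],[k0,k2,k0],[k1,k1,k3],[k1,k3,k1],[k2,k8,k6,k6],[k3,k7,k7,k9],[k4,k4,k8],[k4,k8,k4],[k5,k5,k9],[k5,k9,
    k5]] k1
    [[k2,k0,k1,k0,k0],[k1,k1,k1,k0,k0],[k1,k1,k0,k1,k0],[k1,k1,k1,k1,k0],[k1,k1,k0,k0,k1],[k1,k1,k1,k0,k1],[k1,k1,k2,
    k0,k0],[k1,k0,k2,k0,k0],[k1,k0,k1,k1,k0],[k1,k1,k0,k1,k1],[k1,k0,k0,k1,k1],[k1,k0,k1,k1,k1],[k1,k0,k1,k0,k1],[k0,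
    k2,k1,k0,k0],[k0,k2,k1,k1,k0],[k0,k2,k0,k1,k0],[k0,k2,k2,k0,k0],[k0,k1,k2,k0,k0],[k0,k1,k2,k1,k0],[k0,k1,k1,k1,
    k0],[k0,k1,k1,k2,k0],[k0,k1,k1,k0,k1],[k0,k1,k1,k1,k1],[k0,k2,k0,k2,k0],[k0,k1,k0,k2,k0],[k0,k1,k0,k1,k1],[k0,k1,
    k0,k0,k2],[k0,k0,k2,k1,k0],[k0,k0,k1,k2,k0],[k0,k0,k1,k1,k1],[k0,k0,k1,k0,k2],[k0,k0,k0,k2,k1],[k0,k0,k0,k1,k2]]
    [.ref k112 k6 [(z1,[y2,y1,y2,z2]),(z1,[z1,z0,z1,y1]),(z1,[z1])],.ref k115 k5 [(z1,[y1,z1,z2,y1]),(z1,[z0,y1,y2,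
    z2]),(z1,[y1,z1,z1])],.contra [z1,y1,y2,z1],.contra [y1,z0,z0,z1],.ref k131 k7 [(z1,[z2,z1,z3,y4]),(z1,[y1,z0,y1,
    z2]),(z1,[z0,y1,y2,z2])],.contra [y1,z0,z0,z1],.ref k182 k5 [(z1,[y1,z1,z2,y1]),(z1,[z0,y1,y2,z2]),(z1,[y1,z1,
    z1])],.ref k131 k7 [(z1,[y2,z1,z1]),(z1,[z1]),(z1,[z0,y1,y2,z2])],.ref k143 k6 [(z1,[y1,y1,y1,z1]),(z1,[z1,z0,z1,
    y1]),(z1,[z1,z0,y1,z1])],.contra [y1,z0,z0,z1],.ref k183 k5 [(z1,[z1,z1,z3,y3]),(z1,[z0,y1,y2,z2]),(z1,[z1,z1,z1,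
    y1])],.contra [y1,z0,z0,z1],.ref k115 k5 [(z1,[z1,z1,z3,y3]),(z1,[z0,y1,y2,z2]),(z1,[z1,z1,z2,y2])],
    .ref k173 k5 [(z1,[y1,z2,z6,y4]),(z1,[z0,y1,y2,z2]),(z1,[y1,z2,z2])],.ref k184 k5 [(z1,[y1,z2,z6,y4]),(z1,[z0,y1,
    y2,z2]),(z1,[y1,z2,z3,y1])],.ref k185 k5 [(z1,[y1,z2,z6,y4]),(z1,[z0,y1,y2,z2]),(z1,[y1,z2,z3,y1])],
    .ref k183 k5 [(z2,[y1,z2,z6,y4]),(z1,[z0,y1,y2,z2]),(z2,[y1,z2,z2])],.ref k115 k5 [(z2,[y1,z1,z3,y2]),(z1,[z0,y1,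
    y2,z2]),(z2,[y1,z1,z1])],.ref k130 k5 [(z1,[y1,z1,z3,y2]),(z1,[z0,y1,y2,z2]),(z1,[y1,z1,z2,y1])],
    .ref k186 k5 [(z1,[y1,z1,z3,y2]),(z1,[z0,y1,y2,z2]),(z1,[y1,z1,z2,y1])],.ref k3 k3 [(z1,[z1,y1,z0,y1]),(z1,[z1,y1,
    y3,z2]),(z1,[z0,z1,z1])],.ref k112 k6 [(z1,[z2,y1,z0,y2]),(z1,[y1,z0,z0,z1]),(z1,[y1,z0,y1,z2])],.contra [y1,z0,
    z0,z1],.ref k115 k5 [(z2,[y1,z2,z6,y4]),(z1,[z0,y1,y2,z2]),(z2,[y1,z2,z4,y2])],.contra [z1,y1,y3,z2],.contra [y1,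
    z0,z1],.ref k131 k7 [(z1,[z1,z2,z4,y4]),(z2,[y1,y1,y3,z4]),(z1,[z0,y1,y2,z2])],.ref k109 k7 [(z1,[y2,z1,z3,y2]),
    (z1,[z1,z0,y1,z1]),(z1,[z0,y1,y2,z2])],.ref k187 k2 [(z1,[y2,y1,y2,z2]),(z1,[y1,z0,y1,z1]),(z1,[z2,z1,z3,y2])],
    .contra [z1,z1,z1,y1],.ref k3 k3 [(z1,[y1,y2,y1,z1]),(z1,[y1,y2,y4,z4]),(z1,[z0,z1,z1])],.contra [z1,z1],
    .ref k130 k5 [(z1,[z1,z2,z4,y4]),(z1,[z0,y1,y2,z2]),(z1,[z1,z2,z3,y3])]],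
    .leafM k1 [k1,k2,k3,k4,k0] [(z2,[y1,y1,z0,z2])] [],
    .lp [k181,k115,k157,k133,k129] [k0,k0,k33,k33,k12,k12,k26,k22,k26,k26] k0 [[k0,k0,k45,k0,k0,k0,k0,k0,k14],[k0,k0,k0,
    k0,k0,k40],[k0,k0,k0,k0,k30],[k0,k45,k0,k0,k0,k0,k0,k0,k0,k24],[k40,k0,k0,k0,k0,k0,k34],[k0,k0,k0,k30],[k0,k0,k0,
    k0,k0,k0,k0,k0,k41],[k0,k0,k0,k0,k0,k34],[k0,k0,k24],[k0,k14,k0,k0,k0,k0,k0,k41]] (nat_lit 480) k6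
    [[(k6,k114),(k8,k155),(k0,k167),(k4,k169),(k2,k172)],[(k5,k124),(k3,k148),(k9,k155),(k1,k167),(k7,k199)],[(k4,
    k96),(k6,k122),(k8,k136),(k0,k148),(k2,k160)],[(k7,k96),(k9,k122),(k5,k136),(k3,k160),(k1,k172)],[(k8,k119),(k0,
    k124),(k2,k136),(k6,k143),(k4,k187)],[(k3,k96),(k9,k109),(k7,k147),(k1,k169),(k5,k187)],[(k2,k96),(k8,k133),(k4,
    k147),(k6,k167),(k0,k199)],[(k1,k114),(k3,k122),(k9,k129),(k5,k143),(k7,k167)],[(k4,k109),(k2,k122),(k6,k129),(k0,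
    k155),(k8,k170)],[(k5,k119),(k7,k133),(k3,k136),(k1,k155),(k9,k170)]]
    [[k0,k0,k8],[k0,k8,k0],[k1,k1,k9],[k1,k9,k1],[k2,k6,k2,k8],[k2,k8,k2,k6],[k3,k7,k3,k9],[k3,k9,k3,k7],[k4,k4,k6],
    [k4,k6,k4],[k5,k5,k7],[k5,k7,k5]] k1
    [[k2,k0,k1,k0,k0],[k1,k1,k1,k0,k0],[k1,k1,k0,k0,k1],[k1,k0,k1,k0,k1],[k1,k1,k0,k1,k0],[k1,k1,k1,k1,k0],[k1,k0,k1,
    k1,k0],[k1,k0,k0,k1,k1],[k0,k2,k1,k0,k0],[k0,k2,k0,k1,k0],[k0,k2,k0,k0,k1],[k0,k2,k2,k0,k0],[k0,k2,k1,k1,k0],[k0,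
    k1,k2,k0,k0],[k0,k1,k1,k1,k0],[k0,k1,k1,k0,k1],[k0,k1,k2,k0,k1],[k0,k1,k1,k1,k1],[k0,k2,k0,k2,k0],[k0,k1,k0,k2,
    k0],[k0,k1,k0,k1,k1],[k0,k1,k0,k0,k2],[k0,k0,k2,k0,k1],[k0,k0,k1,k2,k0],[k0,k0,k1,k1,k1],[k0,k0,k2,k0,k2],[k0,k0,
    k1,k0,k2],[k0,k0,k0,k2,k1],[k0,k0,k0,k1,k2]]
    [.ref k160 k1 [(z1,[y1,z0,y2,z2]),(z1,[z2,y1,z3,y2]),(z1,[y2,z1,y2,z2])],.ref k189 k4 [(z1,[z1,z0,z1,y1]),(z1,[z1,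
    z0,y1,z1]),(z1,[y1,y1,z0,z1])],.contra [z1,y1,y1,z1],.ref k108 k4 [(z1,[z1,y1,z1,y1]),(z1,[z1,y1]),(z1,[y2,z1,y1,
    z2])],.ref k145 k4 [(z1,[y1,y1,z1]),(z1,[y1,y1,z0,z1]),(z1,[z2,z1,y1])],.contra [y1,z0,z0,z1],.ref k108 k4 [(z1,
    [y1,y1,z0,z1]),(z1,[y1,y1,y1,z2]),(z1,[z2,z1,z1,y2])],.ref k160 k8 [(z1,[z1,z0,y1]),(z1,[y2,z1,z2]),(z1,[z2,y1,
    y1])],.ref k172 k8 [(z1,[y1,z0,y1,z1]),(z1,[z2,z1,z2,y2]),(z1,[y2,y1,y1,z2])],.contra [z1,z1,y1],.contra [z1,y1,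
    y2,z2],.ref k160 k8 [(z2,[y1,z0,y2,z2]),(z1,[z1,z1,z2,y2]),(z1,[y1,y1,y1,z2])],.ref k160 k1 [(z1,[y1,y1,y1,z2]),
    (z1,[z2,z1,z1,y2]),(z1,[y2,y1,z0,z2])],.ref k118 k8 [(z1,[y1,z0,y2,z2]),(z1,[z1,z1,z2,y2]),(z1,[y1,y1,y1,z2])],
    .contra [z1,z1,z0,y1],.ref k145 k7 [(z1,[y1,z1,z2,y2]),(z1,[y1,z1,z1,y1]),(z1,[z2,y1,y2,z2])],.ref k187 k7 [(z1,
    [y1,z1,z2,y2]),(z1,[y1,z1,z1,y1]),(z1,[z2,y1,y2,z2])],.contra [y1,z0,z0,z1],.ref k108 k4 [(z2,[y1,y2,z2]),(z2,[y1,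
    y2,z0,z2]),(z1,[z1,z1,y1])],.ref k187 k7 [(z1,[z1,z2,z2,y4]),(z1,[z1,z2,z1,y3]),(z1,[y2,y3,y2,z6])],.contra [y1,
    z0,z1],.ref k187 k4 [(z1,[z1,y2]),(z1,[z1,y2,y1,z1]),(z1,[y2,z3,z1])],.ref k108 k4 [(z2,[z1,y1,z2,y2]),(z2,[z1,
    y1]),(z1,[y1,z0,y1,z2])],.ref k39 k4 [(z1,[y1,y2,z1,z1]),(z1,[y1,y2,y2,z4]),(z1,[z2,z1,z1,y2])],.ref k160 k1 [(z1,
    [z1,z0,y1]),(z1,[y2,y1,z1,z2]),(z1,[z2,z1,z0,y2])],.ref k145 k4 [(z2,[z1,y2,z2,y2]),(z2,[z1,y2]),(z1,[y1,z1,y1,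
    z2])],.ref k122 k4 [(z1,[z1,y2,z1,y1]),(z1,[z1,y2]),(z1,[y2,z3,y1,z2])],.ref k160 k8 [(z2,[z1,z1,y2]),(z1,[y1,z0,
    z2]),(z1,[z1,z0,y1])],.ref k160 k1 [(z2,[z1,y1,y3,z2]),(z1,[y1,z0,z2]),(z1,[z1,z0,y1])]],
    .geo z2 k4 [(z0,z3),(z2,y1),(z0,z2),(z4,y6),(z0,z2)] [(z1,[z1]),(z1,[z0,z1]),(z1,[z0,z0,z2]),(z1,[y1,y1,y2,z2]),(z1,
    [])] k7]

noncomputable def cT5_0_n0_16 : List TN :=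
  [.leafM k1 [k2,k3,k4,k0,k1] [(z2,[y1,y1,y1,z2])] [],
    .tor k2 true k4 [(z1,[y2,y2,y1,z2]),(z1,[z1,z2]),(z1,[z1,z0,z1])],
    .geo z1 k4 [(y3,z5),(z2,y2),(z6,y8),(y2,z4),(z0,z1)] [(z1,[z1]),(z1,[z0,z1]),(z1,[z0,z0,z1]),(z1,[y1,y1,y1,z1]),(z1,
    [])] k8,
    .lp [(nat_lit 328),k166,(nat_lit 356),(nat_lit 236),(nat_lit 352)] [k18,k18,k99,k99,k8,k0,k64,k64,k6,k6] k0 [[k0,k0,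
    k154,k0,k0,k0,k92],[k0,k0,k0,k0,k0,k20],[k0,k0,k0,k0,k0,k0,k0,k0,k28],[k0,k154],[k20,k0,k0,k0,k0,k0,k132],[k0,k0,
    k0,k0,k0,k0,k0,k0,k0,k102],[k0,k0,k0,k0,k0,k0,k0,k0,k90],[k0,k92,k0,k0,k0,k132],[k0,k0,k0,k0,k102],[k0,k0,k0,k28,
    k0,k0,k0,k90]] (nat_lit 960) k6
    [[(k6,k192),(k2,(nat_lit 219)),(k0,(nat_lit 328)),(k8,(nat_lit 340)),(k4,(nat_lit 440))],[(k5,k192),(k3,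
    (nat_lit 247)),(k9,(nat_lit 248)),(k7,(nat_lit 302)),(k1,(nat_lit 328))],[(k4,(nat_lit 237)),(k0,(nat_lit 247)),
    (k8,(nat_lit 259)),(k6,(nat_lit 293)),(k2,(nat_lit 320))],[(k7,(nat_lit 201)),(k1,(nat_lit 219)),(k9,
    (nat_lit 259)),(k5,(nat_lit 265)),(k3,(nat_lit 320))],[(k0,k192),(k2,(nat_lit 265)),(k6,(nat_lit 300)),(k4,
    (nat_lit 356)),(k8,(nat_lit 386))],[(k9,(nat_lit 218)),(k3,(nat_lit 237)),(k7,(nat_lit 292)),(k5,(nat_lit 356)),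
    (k1,(nat_lit 440))],[(k8,k192),(k2,(nat_lit 201)),(k4,(nat_lit 292)),(k0,(nat_lit 302)),(k6,(nat_lit 368))],[(k1,
    k192),(k3,(nat_lit 293)),(k9,(nat_lit 294)),(k5,(nat_lit 300)),(k7,(nat_lit 368))],[(k4,(nat_lit 218)),(k0,
    (nat_lit 248)),(k2,(nat_lit 259)),(k6,(nat_lit 294)),(k8,(nat_lit 442))],[(k7,k192),(k3,(nat_lit 259)),(k1,
    (nat_lit 340)),(k5,(nat_lit 386)),(k9,(nat_lit 442))]]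
    [] k0
    [[k2,k1,k0,k0,k0],[k2,k0,k0,k1,k0],[k2,k0,k0,k0,k1],[k2,k2,k0,k0,k0],[k1,k2,k0,k0,k0],[k1,k1,k1,k0,k0],[k1,k1,k0,
    k1,k0],[k1,k1,k0,k1,k1],[k1,k1,k0,k0,k1],[k1,k1,k1,k0,k1],[k1,k1,k1,k1,k0],[k1,k0,k1,k1,k0],[k1,k0,k0,k2,k0],[k1,
    k0,k0,k1,k1],[k1,k0,k1,k1,k1],[k1,k0,k1,k0,k1],[k0,k2,k1,k0,k0],[k0,k2,k0,k1,k0],[k0,k2,k0,k0,k1],[k0,k1,k2,k0,
    k0],[k0,k1,k1,k1,k0],[k0,k1,k1,k0,k1],[k0,k1,k0,k2,k0],[k0,k1,k0,k1,k1],[k0,k0,k2,k1,k0],[k0,k0,k1,k1,k1],[k0,k0,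
    k0,k2,k1],[k0,k0,k0,k1,k2]]
    [.contra [z1,y2,y1],.ref k165 k6 [(z1,[y1,y1]),(z1,[z1]),(z1,[y2,y1,y1,z1])],.ref k179 k4 [(z1,[y2,z0,z1]),(z1,
    [z2,z1,y1,z1]),(z1,[y1,y1])],.ref k113 k0 [(z2,[z1,z0,y2]),(z1,[z0,z0,z1]),(z1,[y1,z1,z1,z1])],.ref k125 k0 [(z1,
    [z1,z0,y2]),(z1,[z0,z0,z1]),(z1,[y2,z1,z3,z1])],.contra [y1,z1,z0,z1],.ref k141 k2 [(z1,[y1,z1,z1]),(z1,[y1,z2,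
    z1]),(z1,[z2,y2,y1])],.contra [y1,z0,z0,z1],.contra [z1,y1,y1],.contra [y1,z0,z0,z1],.contra [y1,z0,z0,z1],
    .contra [z1,z0,z1,y1],.ref k191 k6 [(z1,[y1,y2]),(z1,[z1]),(z1,[y1,y1,y1,z1])],.ref k192 k8 [(z1,[z1,z1]),(z1,[z0,
    z0,z1]),(z1,[z1,y1,y1])],.contra [y1,z0,z0,z1],.ref k193 k0 [(z1,[y1,z1,y1,z1]),(z1,[z0,z0,z1]),(z1,[z2,y1,z1,
    y1])],.ref k160 k4 [(z1,[z1,y1,z0,y1]),(z1,[y1,z2,z0,z2]),(z2,[z1,y3,y1,y1])],.ref k194 k0 [(z1,[z1,z1,y2]),(z1,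
    [z0,z0,z1]),(z1,[y2,y1,z3,z1])],.ref k3 k0 [(z1,[y1,z3,z2]),(z1,[z2,z0,y1]),(z1,[z0,y1,y1,z1])],.ref k117 k6 [(z2,
    [z1,y2,z1,y2]),(z2,[y1,z0,y1,z2]),(z1,[z1,y1,z0,y1])],.ref k160 k4 [(z1,[z2,z0,z1,y2]),(z1,[y2,z1,y1,z3]),(z1,[z1,
    y1,z0,y1])],.ref k117 k6 [(z1,[z1,y1,z0,y1]),(z1,[y1,z0,z0,z1]),(z1,[z2,y1,y1,y1])],.ref k113 k0 [(z2,[z1,z2,y1]),
    (z1,[z0,z0,z1]),(z1,[y1,y1,z0,z1])],.ref k113 k0 [(z1,[z1,z1,y1]),(z1,[z0,z0,z1]),(z1,[y2,y1,z1,z1])],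
    .ref k56 k0 [(z1,[y1,z1,y2,z2]),(z1,[z0,z0,z1]),(z1,[z2,z1,z1,y1])],.ref k113 k0 [(z1,[y1,z0,y1,z1]),(z1,[z0,z0,
    z1]),(z1,[z2,z1,z1,y1])],.ref k117 k6 [(z1,[y1,y2]),(z1,[z1,z1]),(z1,[y2,y3,y1,z1])],.ref k160 k4 [(z1,[y2,y2,
    z1]),(z1,[z2,z3,y1,z1]),(z1,[y1,y2])]],
    .geo z2 k4 [(z0,z2),(z2,y1),(z0,z3),(z4,y6),(z0,z2)] [(z1,[z2]),(z1,[z0,z1]),(z1,[z0,z0,z1]),(z1,[y2,y1,y1,z2]),(z1,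
    [])] k5,
    .leafM k1 [k0,k1,k2,k3,k4] [(z1,[z0,z1,z1])] [],
    .lp [(nat_lit 426),(nat_lit 676),(nat_lit 534),(nat_lit 684),(nat_lit 552)] [k196,k196,k142,k0,k142,k142,k54,k80,k124,
    k142] k0 [[k0,k0,k0,k0,k60],[k0,k0,k0,k0,k0,k0,k0,k0,k0,(nat_lit 214)],[k0,k0,k0,k0,k116,k0,k52],[],[],[k0,k60,k0,
    k116],[k0,k0,k0,k0,k0,k0,k0,k0,k88],[k0,k0,k0,k52],[(nat_lit 214)],[k0,k0,k0,k0,k0,k0,k0,k88]] (nat_lit 1920) k5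
    [[(k2,(nat_lit 480)),(k4,(nat_lit 480)),(k6,(nat_lit 480)),(k8,(nat_lit 498)),(k0,(nat_lit 640))],[(k5,
    (nat_lit 480)),(k9,(nat_lit 480)),(k7,(nat_lit 482)),(k3,(nat_lit 622)),(k1,(nat_lit 640))],[(k8,(nat_lit 480)),
    (k0,(nat_lit 622)),(k2,(nat_lit 676)),(k4,(nat_lit 736)),(k6,(nat_lit 764))],[(k1,(nat_lit 480)),(k7,
    (nat_lit 480)),(k9,(nat_lit 482)),(k5,(nat_lit 534)),(k3,(nat_lit 676))],[(k0,(nat_lit 480)),(k2,(nat_lit 534)),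
    (k8,(nat_lit 552)),(k4,(nat_lit 650)),(k6,(nat_lit 674))],[(k1,(nat_lit 480)),(k9,(nat_lit 534)),(k7,
    (nat_lit 596)),(k5,(nat_lit 650)),(k3,(nat_lit 736))],[(k2,(nat_lit 480)),(k0,(nat_lit 482)),(k4,(nat_lit 596)),
    (k8,(nat_lit 614)),(k6,(nat_lit 684))],[(k1,(nat_lit 480)),(k9,(nat_lit 622)),(k5,(nat_lit 674)),(k7,
    (nat_lit 684)),(k3,(nat_lit 764))],[(k0,(nat_lit 480)),(k2,(nat_lit 482)),(k4,(nat_lit 534)),(k6,(nat_lit 622)),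
    (k8,(nat_lit 640))],[(k3,(nat_lit 480)),(k1,(nat_lit 498)),(k5,(nat_lit 552)),(k7,(nat_lit 614)),(k9,
    (nat_lit 640))]]
    [] k0
    [[k2,k1,k0,k0,k0],[k2,k0,k1,k0,k0],[k2,k0,k0,k1,k0],[k2,k0,k0,k0,k1],[k1,k2,k0,k0,k0],[k1,k1,k1,k0,k0],[k1,k1,k0,
    k1,k0],[k1,k1,k0,k0,k1],[k1,k0,k2,k0,k0],[k1,k0,k1,k1,k0],[k1,k0,k1,k0,k1],[k1,k0,k0,k2,k0],[k1,k0,k0,k1,k1],[k1,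
    k0,k0,k0,k2],[k0,k2,k0,k0,k1],[k0,k1,k1,k1,k0],[k0,k1,k1,k0,k1],[k0,k1,k0,k1,k1],[k0,k1,k0,k0,k2],[k0,k0,k2,k0,
    k1],[k0,k0,k1,k1,k1],[k0,k0,k1,k0,k2],[k0,k0,k0,k1,k2]]
    [.contra [z1,y2,y3,z2],.ref k130 k4 [(z1,[y2,z0,z1]),(z1,[z1]),(z1,[y1,y1,y1,z1])],.ref k130 k6 [(z1,[y2,y1,y2,
    z2]),(z1,[z1]),(z1,[y1,y1,y1,z1])],.contra [z1,y1],.ref k172 k5 [(z1,[z1,y1,y3,z1]),(z1,[y2,z1,z4]),(z1,[z1,z0,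
    y2])],.contra [z1,y1,y2,z1],.ref k140 k9 [(z1,[y1,z1,z2,y1]),(z1,[z2,y2,y3,z2]),(z1,[y1,z2,z3,y2])],.contra [y1,
    z1,z1],.ref k196 k4 [(z1,[y1,z0,z1]),(z1,[z1]),(z1,[y1,y2,y2,z2])],.ref k151 k0 [(z1,[z1,z1,z1,y1]),(z1,[y1,z0,z0,
    z1]),(z1,[z1,z0,z1,y1])],.ref k140 k5 [(z1,[y1,z0,y1,z1]),(z1,[z2,y1]),(z1,[y1,z1])],.ref k196 k6 [(z1,[y1,y1,y2,
    z2]),(z1,[z1]),(z1,[y1,y2,y2,z2])],.contra [z1,z0,z1,y1],.ref k172 k9 [(z1,[z1,z1,z3,y3]),(z1,[y2,y2,y5,z6]),(z1,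
    [z1,z2,z4,y4])],.ref k117 k4 [(z1,[z1,y1,y1]),(z2,[y1,z1,z2]),(z2,[z1,y3,y4,z2])],.ref k197 k5 [(z1,[z1,z0,y1]),
    (z1,[y2,y1,z0,z2]),(z1,[z1,z1,z0,y1])],.ref k117 k6 [(z1,[z2,y1,y2]),(z1,[y1,z0,z0,z1]),(z1,[z1,y1,y1])],
    .ref k117 k4 [(z1,[z2,z0,z1,y2]),(z1,[y1,z0,z0,z1]),(z1,[z1,y1,y1])],.ref k117 k6 [(z1,[z1,y1,y1]),(z2,[y1,z0,y1,
    z2]),(z2,[z1,y2,y1])],.ref k197 k5 [(z2,[y1,y1,y2,z2]),(z1,[z1]),(z2,[y1,z1])],.ref k197 k5 [(z1,[y1,y1,y2,z2]),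
    (z1,[z2,z1,z2,y2]),(z1,[y1,z0,y1,z1])],.ref k164 k9 [(z1,[z1,z2,z4,y4]),(z1,[y2,y4,y7,z8]),(z1,[z1,z3,z5,y5])],
    .ref k105 k0 [(z1,[y1,z1,y1,z1]),(z1,[z0,z0,z1]),(z1,[y1,y2,y4,z4])]],
    .lp [k136,k194,k106,k162,k120] [k28,k30,k0,k0,k44,k44,k16,k16,k44,k30] k0 [[k0,k0,k2,k0,k0,k0,k16],[k0,k0,k0,k0,k0,
    k16,k0,k0,k0,k30],[k0,k0,k0,k0,k54,k0,k0,k0,k14],[k0,k2],[k16],[k0,k0,k0,k54],[],[k0,k16],[k30],[k0,k0,k0,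
    k14]] (nat_lit 480) k5
    [[(k4,k120),(k8,k120),(k6,k148),(k2,k150),(k0,k166)],[(k5,k120),(k9,k120),(k1,k166),(k3,k166),(k7,k166)],[(k8,
    k120),(k4,k134),(k0,k166),(k6,k194),(k2,k196)],[(k7,k124),(k1,k150),(k5,k150),(k9,k164),(k3,k196)],[(k0,k120),(k8,
    k120),(k6,k134),(k2,k150),(k4,k160)],[(k1,k120),(k9,k120),(k3,k134),(k7,k134),(k5,k160)],[(k2,k124),(k4,k134),(k8,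
    k134),(k6,k162),(k0,k166)],[(k5,k134),(k1,k148),(k9,k148),(k7,k162),(k3,k194)],[(k0,k120),(k4,k120),(k8,k120),(k6,
    k148),(k2,k164)],[(k1,k120),(k3,k120),(k5,k120),(k9,k120),(k7,k134)]]
    [] k0
    [[k2,k0,k1,k0,k0],[k2,k0,k0,k0,k1],[k1,k1,k1,k0,k0],[k1,k1,k0,k0,k1],[k1,k0,k2,k0,k0],[k1,k0,k1,k1,k0],[k1,k0,k1,
    k0,k1],[k1,k1,k0,k1,k0],[k1,k0,k0,k2,k0],[k1,k0,k0,k1,k1],[k1,k0,k0,k0,k2],[k0,k1,k2,k0,k0],[k0,k1,k1,k1,k0],[k0,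
    k1,k1,k0,k1],[k0,k1,k0,k1,k1],[k0,k1,k0,k0,k2],[k0,k0,k2,k1,k0],[k0,k0,k2,k0,k1],[k0,k0,k1,k2,k0],[k0,k0,k1,k1,
    k1],[k0,k0,k1,k0,k2],[k0,k0,k0,k2,k1],[k0,k0,k0,k1,k2],[k0,k0,k0,k0,k3]]
    [.ref k114 k3 [(z1,[y1,y1]),(z1,[z1])],.ref k119 k0 [(z1,[z1]),(z1,[y1,z1,z1])],.ref k120 k0 [(z1,[y1,z1,z1]),(z1,
    [z2,y1,y1])],.ref k121 k0 [(z1,[y1,z1,z1]),(z1,[z2,y1,y1])],.ref k135 k3 [(z1,[y1,y2]),(z1,[z1])],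
    .ref k144 k7 [(z1,[y2,z1,z1]),(z1,[z1])],.ref k153 k3 [(z1,[y1,y1]),(z1,[z1])],.ref k157 k3 [(z1,[z1,y1,y1]),(z1,
    [y1,z0,z1])],.ref k168 k7 [(z1,[y2,z1,z1]),(z1,[z1])],.ref k169 k8 [(z1,[z0,z1,z1]),(z1,[z2,y1,y1])],
    .ref k174 k8 [(z1,[z0,z1,z1]),(z1,[z2,y1,y1])],.ref k120 k0 [(z2,[y1,z1,z1]),(z1,[z1])],.ref k175 k8 [(z1,[z0,z1,
    z1]),(z1,[y2,y1,z1])],.ref k176 k7 [(z1,[z2,z1,y1]),(z1,[y1,z0,z1])],.ref k177 k3 [(z1,[z1,y1,y1]),(z1,[y1,z0,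
    z1])],.ref k121 k0 [(z2,[y1,z1,z1]),(z1,[z1])],.ref k181 k6 [(z1,[y1,y1]),(z1,[z1])],.ref k188 k0 [(z1,[z1,z2]),
    (z1,[y1,y1,z1])],.ref k190 k5 [(z1,[z1]),(z1,[y1,y1,z1])],.contra [z1,z1],.ref k195 k3 [(z1,[y1,y1]),(z1,[z1])],
    .ref k181 k9 [(z1,[y1,y1]),(z1,[z0,z1,z1])],.ref k198 k1 [(z1,[y2,y1,z1]),(z1,[z1])],.ref k55 k0 [(z1,[z1,z3]),
    (z1,[y2,y3,z3])]],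
    .leafM k1 [k4,k0,k1,k2,k3] [(z1,[z1,z1])] [],
    .geo z1 k4 [(y2,z6),(z1,y1),(z2,y3),(z2,y3),(z0,z1)] [(z1,[z1]),(z1,[z0,z1]),(z1,[z0,z0,z1]),(z1,[y1,y1,y1,z1]),(z1,
    [])] k9,
    .leafM k5 [k0,k1,k2,k3,k4] [(z1,[z0,z1]),(z1,[y2,y1,y2,z2])] [],
    .lp [(nat_lit 334625280),(nat_lit 324075972),(nat_lit 470305374),(nat_lit 302997860),
    (nat_lit 459886080)] [(nat_lit 67840047),(nat_lit 67840047),(nat_lit 73114701),(nat_lit 73114701),k0,k0,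
    (nat_lit 83653757),(nat_lit 83653757),(nat_lit 5209647),(nat_lit 5209647)] k0 [[k0,k0,k0,k0,(nat_lit 10539056)],
    [k0,k0,k0,k0,k0,k0,k0,k0,k0,(nat_lit 135696000)],[k0,k0,k0,k0,k0,k0,(nat_lit 31617168),k0,(nat_lit 31617168)],[k0,
    k0,k0,k0,k0,(nat_lit 10539056)],[k0,k0,(nat_lit 10539056)],[k0,(nat_lit 10539056)],[k0,k0,k0,k0,k0,k0,k0,k0,
    (nat_lit 42156224)],[k0,k0,k0,(nat_lit 31617168)],[(nat_lit 135696000)],[k0,k0,k0,(nat_lit 31617168),k0,k0,k0,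
    (nat_lit 42156224)]] (nat_lit 1264686720) k6
    [[(k6,(nat_lit 276655346)),(k2,(nat_lit 297733458)),(k8,(nat_lit 397255680)),(k4,(nat_lit 402465327)),(k0,
    (nat_lit 470321280))],[(k7,(nat_lit 308272514)),(k3,(nat_lit 329350626)),(k9,(nat_lit 397255680)),(k5,
    (nat_lit 402465327)),(k1,(nat_lit 470321280))],[(k8,(nat_lit 256285026)),(k6,(nat_lit 313536916)),(k2,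
    (nat_lit 324075972)),(k0,(nat_lit 329350626)),(k4,(nat_lit 407729729))],[(k1,(nat_lit 297733458)),(k3,
    (nat_lit 324075972)),(k7,(nat_lit 324075972)),(k9,(nat_lit 360363858)),(k5,(nat_lit 397190673))],[(k2,
    (nat_lit 397190673)),(k0,(nat_lit 402465327)),(k6,(nat_lit 418268785)),(k4,(nat_lit 459766318)),(k8,
    (nat_lit 496712895))],[(k7,(nat_lit 386651617)),(k1,(nat_lit 402465327)),(k3,(nat_lit 407729729)),(k5,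
    (nat_lit 459766318)),(k9,(nat_lit 465095727))],[(k6,(nat_lit 302997860)),(k0,(nat_lit 308272514)),(k2,
    (nat_lit 324075972)),(k8,(nat_lit 381441970)),(k4,(nat_lit 386651617))],[(k1,(nat_lit 276655346)),(k7,
    (nat_lit 302997860)),(k3,(nat_lit 313536916)),(k9,(nat_lit 381441970)),(k5,(nat_lit 418268785))],[(k2,
    (nat_lit 360363858)),(k6,(nat_lit 381441970)),(k0,(nat_lit 397255680)),(k4,(nat_lit 465095727)),(k8,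
    (nat_lit 502042304))],[(k3,(nat_lit 256285026)),(k7,(nat_lit 381441970)),(k1,(nat_lit 397255680)),(k5,
    (nat_lit 496712895)),(k9,(nat_lit 502042304))]]
    [] k0
    [[k2,k1,k0,k0,k0],[k2,k0,k0,k1,k0],[k2,k2,k0,k0,k0],[k2,k1,k0,k1,k0],[k1,k2,k0,k0,k0],[k1,k2,k0,k1,k0],[k1,k1,k1,
    k0,k0],[k1,k1,k0,k1,k0],[k1,k1,k0,k2,k0],[k1,k1,k0,k0,k1],[k1,k2,k0,k0,k1],[k1,k1,k0,k1,k1],[k1,k0,k1,k1,k0],[k2,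
    k0,k0,k2,k0],[k1,k0,k0,k2,k0],[k1,k0,k0,k3,k0],[k1,k0,k0,k1,k1],[k0,k3,k0,k0,k0],[k0,k2,k1,k0,k0],[k0,k2,k0,k1,
    k0],[k0,k2,k0,k0,k1],[k0,k1,k1,k1,k0],[k0,k2,k0,k1,k1],[k0,k1,k0,k2,k0],[k0,k1,k0,k3,k0],[k0,k1,k0,k1,k1],[k0,k2,
    k0,k0,k2],[k0,k1,k1,k0,k1],[k0,k1,k0,k0,k2],[k0,k0,k1,k2,k0],[k0,k0,k0,k3,k0],[k0,k0,k0,k4,k0],[k0,k0,k0,k2,k1]]
    [.ref k113 k3 [(z1,[y1,z2,z1]),(z1,[z0,y1,y1,z1]),(z1,[z1,y2])],.ref k113 k4 [(z1,[y1,z0,z1]),(z1,[z0,z1,y1,z1]),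
    (z1,[z1])],.ref k155 k1 [(z1,[y1,z1,y1,z1]),(z1,[z0,z0,z1]),(z2,[z1,y2])],.contra [y1,z1,z0,z1],.ref k112 k1 [(z1,
    [y2,z1,y1,z1]),(z1,[z0,z0,z1]),(z1,[z1,y1])],.ref k155 k1 [(z1,[y2,z1,z1,z1]),(z1,[z0,z0,z1]),(z1,[z1,y1,y1])],
    .ref k155 k9 [(z1,[z2,y1,y1,y1]),(z1,[z0,z0,z1]),(z1,[y1,z1,z0,z1])],.contra [z1,z0,y1],.ref k155 k9 [(z1,[y2,z1,
    z1,z1]),(z1,[z0,z0,z1]),(z1,[z1,z0,y1])],.ref k113 k3 [(z1,[y1,z1,z1]),(z1,[z0,y1,y1,z1]),(z1,[z1,y1])],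
    .ref k155 k1 [(z1,[y1,z0,y1,z1]),(z1,[z0,z0,z1]),(z2,[z1,y1])],.contra [y1,z0,z0,z1],.ref k155 k1 [(z1,[z2,y1,y1,
    y1]),(z1,[z0,z0,z1]),(z1,[y1,z0,z0,z1])],.ref k155 k9 [(z1,[y1,z1,y1,z1]),(z1,[z0,z0,z1]),(z2,[z1])],
    .ref k112 k9 [(z1,[y2,z1,y1,z1]),(z1,[z0,z0,z1]),(z1,[z1])],.ref (nat_lit 201) k9 [(z1,[y2,z1,y1,z1]),(z1,[z0,z0,
    z1]),(z1,[z1])],.ref k113 k4 [(z1,[y1,y1,z1]),(z1,[z0,z1,y1,z1]),(z1,[z1,z1])],.ref k68 k6 [(z1,[z0,y1]),(z1,[y1,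
    z0,z3]),(z1,[z0,z1,y1,z1])],.ref k155 k9 [(z1,[z1,z0,y2]),(z1,[z0,z0,z1]),(z2,[y1,z1,z1,z1])],.contra [z1,z0,y1],
    .ref k112 k1 [(z1,[y2,y1,y1,z1]),(z1,[z0,z0,z1]),(z1,[z1])],.contra [z1,z0,y1],.ref k155 k1 [(z1,[y2,y1,z1,z1]),
    (z1,[z0,z0,z1]),(z1,[z1,z0,y1])],.contra [z1,z0,y1],.ref (nat_lit 202) k0 [(z1,[z0,z1]),(z1,[y1,z0,z3]),(z1,[z0,
    y1,y1,z1])],.contra [z1,z1,y1],.ref k155 k1 [(z1,[y1,y1,y1,z1]),(z1,[z0,z0,z1]),(z2,[z1])],.ref k155 k9 [(z1,[z2,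
    z1,y1,y1]),(z1,[z0,z0,z1]),(z1,[y1,z0,z0,z1])],.ref k113 k3 [(z1,[y1,z0,z1]),(z1,[z0,y1,y1,z1]),(z1,[z1])],
    .ref k155 k1 [(z1,[z1,z0,y2]),(z1,[z0,z0,z1]),(z2,[y1,y1,z1,z1])],.ref k68 k0 [(z1,[z0,z1]),(z1,[y1,z0,z3]),(z1,
    [z0,y1,y1,z1])],.ref (nat_lit 202) k0 [(z1,[z0,z1]),(z2,[y1,z0,z4]),(z1,[z0,y1,y1,z1])],.ref k112 k9 [(z1,[y2,y1,
    y1,z1]),(z1,[z0,z0,z1]),(z1,[z1,z1])]]]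

noncomputable def cT5_0_n0_17 : List TN :=
  [.leafM k1 [k4,k0,k1,k2,k3] [(z1,[z1,z1])] [],
    .tor k1 false k4 [(z5,[y1,y1,z1,z5]),(z5,[z2,z1]),(z5,[y1,z0,y1,z5])],
    .tor k0 false k2 [(z1,[z1,z1,z1]),(z1,[z0,z0,z1]),(z1,[y1,y1,y2,z2])],
    .leafM k1 [k0,k1,k2,k3,k4] [(z1,[z0,z1,z1])] [],
    .leafM k1 [k4,k0,k1,k2,k3] [(z1,[z1,z1])] [],
    .geo z2 k4 [(y2,z7),(z2,y1),(z2,y2),(z4,y6),(z0,z2)] [(z1,[z1]),(z1,[z0,z1]),(z1,[z0,z0,z2]),(z1,[y1,y1,y2,z2]),(z1,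
    [])] k7,
    .lp [(nat_lit 1224785062730880),(nat_lit 1452201537664710),(nat_lit 983501570481920),(nat_lit 1484472682946148),
    (nat_lit 1489104490518400)] [(nat_lit 142927979264000),(nat_lit 121391448523520),(nat_lit 18451476426845),
    (nat_lit 18451476426845),(nat_lit 93750815416867),(nat_lit 411852104619613),(nat_lit 2315903786126),
    (nat_lit 2315903786126),k0,k0] k0 [[k0,k0,(nat_lit 23050818058170),k0,k0,k0,(nat_lit 23050818058170)],[k0,k0,k0,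
    k0,k0,(nat_lit 491750785240960)],[k0,k0,k0,k0,k0,k0,k0,k0,(nat_lit 464081943104640)],[k0,(nat_lit 23050818058170),
    k0,k0,k0,k0,k0,(nat_lit 9220327223268)],[(nat_lit 491750785240960)],[k0,k0,k0,k0,k0,k0,k0,k0,k0,
    (nat_lit 32257704571200)],[k0,k0,(nat_lit 9220327223268)],[k0,(nat_lit 23050818058170)],[k0,k0,k0,k0,
    (nat_lit 32257704571200)],[k0,k0,k0,(nat_lit 464081943104640)]] (nat_lit 4425757067168640) k6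
    [[(k2,(nat_lit 885179622463395)),(k0,(nat_lit 1224785062730880)),(k4,(nat_lit 1306219931149213)),(k6,
    (nat_lit 1365397138208754)),(k8,(nat_lit 1367713041994880))],[(k5,(nat_lit 911273588576617)),(k1,
    (nat_lit 1224785062730880)),(k9,(nat_lit 1323125693196230)),(k3,(nat_lit 1327725034827555)),(k7,
    (nat_lit 1835611392709234))],[(k4,(nat_lit 885151413433728)),(k0,(nat_lit 1327725034827555)),(k8,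
    (nat_lit 1470653014091555)),(k2,(nat_lit 1475252355722880)),(k6,(nat_lit 1491387928363599))],[(k1,
    (nat_lit 885179622463395)),(k5,(nat_lit 1058800909471942)),(k7,(nat_lit 1468337110305429)),(k3,
    (nat_lit 1475252355722880)),(k9,(nat_lit 1479873341314823))],[(k0,(nat_lit 911273588576617)),(k4,
    (nat_lit 983501570481920)),(k2,(nat_lit 1058800909471942)),(k6,(nat_lit 1065716154889393)),(k8,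
    (nat_lit 1541334329003427))],[(k3,(nat_lit 885151413433728)),(k5,(nat_lit 983501570481920)),(k1,
    (nat_lit 1306219931149213)),(k7,(nat_lit 1393037771315407)),(k9,(nat_lit 1395353675101533))],[(k4,
    (nat_lit 1393037771315407)),(k8,(nat_lit 1454530882161074)),(k2,(nat_lit 1468337110305429)),(k6,
    (nat_lit 1484472682946148)),(k0,(nat_lit 1835611392709234))],[(k5,(nat_lit 1065716154889393)),(k1,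
    (nat_lit 1365397138208754)),(k7,(nat_lit 1484472682946148)),(k9,(nat_lit 1486788586732274)),(k3,
    (nat_lit 1491387928363599))],[(k0,(nat_lit 1323125693196230)),(k4,(nat_lit 1395353675101533)),(k2,
    (nat_lit 1479873341314823)),(k6,(nat_lit 1486788586732274)),(k8,(nat_lit 1489104490518400))],[(k1,
    (nat_lit 1367713041994880)),(k7,(nat_lit 1454530882161074)),(k3,(nat_lit 1470653014091555)),(k9,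
    (nat_lit 1489104490518400)),(k5,(nat_lit 1541334329003427))]]
    [] k0
    [[k3,k0,k0,k0,k0],[k2,k1,k0,k0,k0],[k2,k1,k1,k0,k0],[k2,k0,k1,k0,k0],[k2,k0,k0,k0,k1],[k1,k2,k0,k0,k0],[k1,k2,k1,
    k0,k0],[k1,k1,k1,k0,k0],[k1,k1,k2,k0,k0],[k1,k1,k0,k1,k0],[k1,k1,k0,k0,k1],[k1,k0,k2,k0,k0],[k1,k0,k3,k0,k0],[k1,
    k0,k1,k1,k0],[k1,k0,k1,k0,k1],[k1,k0,k0,k1,k1],[k1,k0,k0,k0,k2],[k0,k2,k1,k0,k0],[k0,k2,k2,k0,k0],[k0,k1,k2,k0,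
    k0],[k0,k1,k3,k0,k0],[k0,k1,k2,k1,k0],[k0,k1,k1,k1,k0],[k0,k1,k1,k0,k1],[k0,k0,k3,k0,k0],[k0,k0,k4,k0,k0],[k0,k0,
    k2,k1,k0],[k0,k0,k2,k0,k1],[k0,k0,k1,k2,k0],[k0,k0,k1,k1,k1]]
    [.ref k61 k9 [(z1,[y1,z0,y3,z3]),(z1,[y1,z3,z6]),(z1,[z1])],.ref k193 k3 [(z1,[y1,z2,z1]),(z1,[z0,y1,y1,z1]),(z1,
    [z1,y2])],.ref k113 k0 [(z1,[z0,z1]),(z1,[z1,y1,z1,y1]),(z1,[z0,y1,y1,z1])],.contra [z1,z0,z1,y1],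
    .ref (nat_lit 205) k9 [(z1,[y2,y1,y5,z5]),(z1,[y1,z2,z5]),(z1,[z2,z1])],.ref k143 k1 [(z1,[y1,z0,y1,z1]),(z1,[y1,
    z1,z2]),(z1,[z1,y1])],.ref (nat_lit 206) k0 [(z1,[z0,z1]),(z1,[z1,z0,z1,y1]),(z1,[z0,y1,y1,z1])],.contra [z1,z0,
    z1,y1],.ref (nat_lit 207) k0 [(z1,[z0,z1]),(z1,[z1,z1,z2,y2]),(z1,[z0,y1,y1,z1])],.contra [z2,y1,y2],
    .ref (nat_lit 208) k3 [(z1,[y1,z1,z1]),(z1,[z0,y1,y1,z1]),(z1,[z1,y1])],.contra [z1,z0,z1,y1],.ref k150 k8 [(z1,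
    [y1,z0,y3,z3]),(z1,[y1,y2,y3,z3]),(z1,[z1,z2,z7,y3])],.contra [z1,z0,z1,y1],.contra [z2,z1,z2,y2],
    .ref (nat_lit 207) k0 [(z1,[z0,z1]),(z1,[y1,z1,z1]),(z1,[z0,y1,y1,z1])],.ref k150 k8 [(z1,[z1,z1]),(z1,[z1,y1]),
    (z1,[y1,z1,z4])],.ref k108 k0 [(z1,[z0,z1]),(z2,[z1,z1,z1,y1]),(z1,[z0,y1,y1,z1])],.ref (nat_lit 207) k0 [(z1,[z0,
    z1]),(z2,[z1,z2,z2,y2]),(z1,[z0,y1,y1,z1])],.ref k161 k5 [(z1,[y2,z1,z3,y1]),(z1,[z0,y1,y1,z1]),(z1,[z0,z0,y1,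
    z1])],.ref (nat_lit 209) k5 [(z1,[y2,z1,z3,y1]),(z1,[z0,y1,y1,z1]),(z1,[z0,z0,y1,z1])],.ref (nat_lit 205) k9 [(z1,
    [z2,y1,y3,z1]),(z1,[z1,z2,z6,y2]),(z1,[y2,z1,y2,z4])],.ref k2 k8 [(z1,[y2,z1,z0,z2]),(z1,[y1,y1,z0,z1]),(z1,[z1,
    z1,z3,y1])],.ref k108 k0 [(z1,[z0,z1]),(z1,[z1,z1,z1,y1]),(z1,[z0,y1,y1,z1])],.ref k2 k8 [(z1,[y1,z0,y3,z3]),(z2,
    [y1,y3,y3,z3]),(z2,[z1,z3,z9,y3])],.ref k150 k8 [(z2,[y1,z0,y4,z4]),(z2,[y1,y4,y4,z4]),(z2,[z1,z4,z12,y4])],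
    .ref k132 k3 [(z1,[z1,z2,z2,y2]),(z1,[z0,y1,y1,z1]),(z1,[y1,y2,y1,z2])],.ref k2 k8 [(z1,[y2,y1,y4,z4]),(z1,[y1,y2,
    y2,z2]),(z1,[z1,z2,z5,y2])],.ref k113 k0 [(z1,[z0,z1]),(z2,[y1,y1,z1,z1]),(z1,[z0,y1,y1,z1])],.ref k113 k0 [(z1,
    [z0,z1]),(z1,[y1,y1,z0,z1]),(z1,[z0,y1,y1,z1])]],
    .leafM k1 [k1,k2,k3,k4,k0] [(z1,[y1,y1,z0,z1])] [],
    .geo z1 k4 [(y2,z4),(z0,z1),(z2,y2),(z3,y4),(z0,z1)] [(z1,[z1]),(z1,[z0,z1]),(z1,[z0,z0,z1]),(z1,[y1,y1,y1,z1]),(z1,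
    [])] k8,
    .leafM k1 [k4,k0,k1,k2,k3] [(z5,[z1,z1])] [],
    .geo z1 k4 [(y2,z4),(y3,z5),(z6,y8),(z2,y2),(z0,z1)] [(z1,[z1]),(z1,[z0,z1]),(z1,[z0,z0,z1]),(z1,[y1,y1,y1,z1]),(z1,
    [])] k7,
    .geo z1 k4 [(y2,z4),(y1,z2),(z4,y5),(z2,y2),(z0,z1)] [(z1,[z1]),(z1,[z0,z1]),(z1,[z0,z0,z1]),(z1,[y1,y1,y1,z1]),(z1,
    [])] k7]

noncomputable def cT5_0_n0_18 : List TN :=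
  [.leafM k1 [k4,k0,k1,k2,k3] [(z1,[z1,z1])] [],
    .lp [k162,k120,k120,k196,k120] [k25,k25,k46,k46,k46,k46,k16,k0,k46,k46] k0 [[k0,k0,k0,k0,k0,k0,k14],[],[k0,k0,k0,k0,
    k46],[],[],[k0,k0,k0,k46,k0,k0,k0,k0,k0,k32],[k0,k0,k0,k0,k0,k0,k0,k0,k40],[k0,k14],[k0,k0,k0,k0,k32],[k0,k0,k0,
    k0,k0,k0,k0,k40]] (nat_lit 480) k5
    [[(k6,k131),(k2,k141),(k8,k141),(k0,k162),(k4,k173)],[(k9,k127),(k3,k141),(k5,k141),(k1,k162),(k7,k187)],[(k2,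
    k120),(k4,k120),(k8,k120),(k0,k141),(k6,k164)],[(k3,k120),(k5,k120),(k7,k120),(k9,k120),(k1,k141)],[(k2,k120),(k8,
    k120),(k0,k141),(k6,k150),(k4,k166)],[(k3,k120),(k9,k120),(k5,k166),(k7,k166),(k1,k173)],[(k2,k120),(k8,k134),(k4,
    k166),(k0,k187),(k6,k196)],[(k1,k131),(k5,k150),(k9,k150),(k3,k164),(k7,k196)],[(k2,k120),(k4,k120),(k0,k127),(k6,
    k150),(k8,k160)],[(k3,k120),(k5,k120),(k7,k134),(k1,k141),(k9,k160)]]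
    [] k0
    [[k2,k1,k0,k0,k0],[k2,k0,k1,k0,k0],[k2,k0,k0,k0,k1],[k1,k2,k0,k0,k0],[k1,k1,k1,k0,k0],[k1,k1,k0,k0,k1],[k1,k0,k1,
    k0,k1],[k1,k1,k0,k1,k0],[k1,k0,k1,k1,k0],[k1,k0,k0,k1,k1],[k1,k0,k0,k0,k2],[k0,k3,k0,k0,k0],[k0,k2,k1,k0,k0],[k0,
    k2,k0,k1,k0],[k0,k2,k0,k0,k1],[k0,k1,k2,k0,k0],[k0,k1,k1,k1,k0],[k0,k1,k1,k0,k1],[k0,k1,k0,k1,k1],[k0,k1,k0,k0,
    k2],[k0,k0,k2,k0,k1],[k0,k0,k1,k1,k1],[k0,k0,k1,k0,k2],[k0,k0,k0,k1,k2]]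
    [.ref k123 k7 [(z1,[z0,z2,z5,y4]),(z2,[z1,y2,y5,z4]),(z2,[y1,z0,y1,z2])],.ref k158 k6 [(z1,[y3,y1,y3,z3]),(z1,[y2,
    y1,y2,z2]),(z1,[z1])],.ref k187 k7 [(z1,[z0,z2,z5,y4]),(z1,[z1,z1,z3,y3]),(z1,[y1,y2,y6,z6])],.ref k164 k7 [(z1,
    [z0,z2,z5,y4]),(z1,[z1,y4,y10,z8]),(z1,[y1,z3,z7,y5])],.ref (nat_lit 211) k7 [(z1,[z0,z2,z5,y4]),(z1,[z1,y2,y5,
    z4]),(z1,[y1,z1,z2,y1])],.contra [z1,y1,y2,z1],.contra [z1,z0,z1,y1],.ref k123 k7 [(z1,[z0,z2,z5,y4]),(z1,[z1,y1,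
    y3,z2]),(z1,[y1,z0,z0,z1])],.ref (nat_lit 212) k4 [(z1,[y4,y2,y3,z4]),(z1,[y1,y1,y2,z2]),(z1,[z2,z1,z2,y2])],
    .ref (nat_lit 213) k4 [(z1,[y4,z2,z5]),(z1,[y1,y2,y5,z5]),(z1,[z2,y1])],.ref k179 k7 [(z1,[z0,z2,z5,y4]),(z1,[y1,
    y2,y6,z6]),(z1,[z1,z1,z3,y3])],.ref k0 k4 [(z1,[z1]),(z4,[z1,y6,y15,z12]),(z2,[y1,z0,z3])],.ref k0 k4 [(z3,[z4,z2,
    z5,y4]),(z3,[z1,y4,y10,z8]),(z3,[y2,y1,z2,z2])],.ref k0 k4 [(z1,[z2,z0,y1]),(z2,[z1,y3,y8,z6]),(z1,[y1,z0,z2])],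
    .ref (nat_lit 214) k7 [(z1,[z0,z2,z5,y4]),(z1,[y1,z3,z7,y5]),(z1,[z1,y4,y10,z8])],.ref k0 k4 [(z1,[z2,z2,z5,y4]),
    (z2,[z1,y2,y5,z4]),(z1,[y1,y1,y1,z2])],.ref k0 k4 [(z1,[z4,z2,z3,y4]),(z1,[z1,y1,y3,z2]),(z1,[y2,y1,z0,z2])],
    .ref (nat_lit 215) k7 [(z1,[z0,z2,z5,y4]),(z1,[y1,z1,z2,y1]),(z1,[z1,y2,y5,z4])],.ref k112 k7 [(z1,[z0,z2,z5,y4]),
    (z1,[y1,z0,z0,z1]),(z1,[z1,y1,y3,z2])],.ref k112 k7 [(z1,[z0,z2,z5,y4]),(z2,[y1,z0,y1,z2]),(z2,[z1,y2,y5,z4])],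
    .ref k112 k7 [(z1,[z0,z2,z5,y4]),(z1,[y1,y1,y3,z3]),(z1,[z1])],.ref (nat_lit 216) k7 [(z1,[z0,z2,z5,y4]),(z1,[y1,
    y2,y5,z5]),(z1,[z1,z1,z2,y2])],.ref k134 k0 [(z1,[y3,y1,y3,z3]),(z1,[z4,z2,z5,y4]),(z1,[z1])],
    .ref (nat_lit 216) k7 [(z1,[z0,z2,z5,y4]),(z2,[y1,y3,y8,z8]),(z2,[z1,z1,z2,y2])]],
    .geo z1 k4 [(y2,z4),(y3,z5),(z2,y2),(z6,y8),(z0,z1)] [(z1,[z1]),(z1,[z0,z1]),(z1,[z0,z0,z1]),(z1,[y1,y1,y1,z1]),(z1,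
    [])] k7,
    .leafM k1 [k1,k2,k3,k4,k0] [(z1,[y1,y1,z0,z1])] [],
    .geo z1 k4 [(y2,z4),(z4,y6),(z2,y2),(y1,z3),(z0,z1)] [(z1,[z1]),(z1,[z0,z1]),(z1,[z0,z0,z1]),(z1,[y1,y1,y1,z1]),(z1,
    [])] k7,
    .geo z1 k4 [(y1,z2),(y2,z3),(z2,y2),(z4,y4),(z0,z1)] [(z1,[z1]),(z1,[z0,z1]),(z1,[z0,z0,z1]),(z1,[y1,y1,y1,z1]),(z1,
    [])] k6,
    .tor k0 false k2 [(z1,[z1,z2,z1]),(z1,[z0,z0,z1]),(z1,[y1,y2,y2,z2])],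
    .leafM k1 [k4,k0,k1,k2,k3] [(z1,[z1,z1])] [],
    .lp [(nat_lit 115188),(nat_lit 113864),(nat_lit 128428),(nat_lit 146302),(nat_lit 88708)] [(nat_lit 25157),
    (nat_lit 25157),(nat_lit 41045),(nat_lit 10593),(nat_lit 11917),(nat_lit 25157),(nat_lit 19200),k0,
    (nat_lit 38397),(nat_lit 38397)] k0 [[k0,k0,k0,k0,(nat_lit 41044)],[k0,k0,k0,k0,k0,k0,k0,k0,k0,(nat_lit 17212)],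
    [k0,k0,k0,k0,(nat_lit 25156)],[k0,k0,k0,k0,k0,k0,k0,(nat_lit 13240)],[k0,k0,k0,k0,k0,k0,(nat_lit 15888)],[k0,
    (nat_lit 41044),k0,(nat_lit 25156)],[k0,k0,(nat_lit 13240),k0,k0,k0,k0,k0,(nat_lit 10592)],[k0,k0,k0,k0,k0,
    (nat_lit 15888)],[(nat_lit 17212)],[k0,k0,k0,k0,k0,k0,k0,(nat_lit 10592)]] (nat_lit 397200) k5
    [[(k2,(nat_lit 99300)),(k8,(nat_lit 101948)),(k6,(nat_lit 110553)),(k4,(nat_lit 128428)),(k0,(nat_lit 132400))],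
    [(k7,(nat_lit 99301)),(k9,(nat_lit 101948)),(k5,(nat_lit 115188)),(k3,(nat_lit 129752)),(k1,(nat_lit 132400))],
    [(k8,(nat_lit 99300)),(k2,(nat_lit 113864)),(k0,(nat_lit 129752)),(k6,(nat_lit 135709)),(k4,(nat_lit 184036))],
    [(k1,(nat_lit 99300)),(k5,(nat_lit 99300)),(k9,(nat_lit 99300)),(k7,(nat_lit 99301)),(k3,(nat_lit 113864))],[(k2,
    (nat_lit 99300)),(k8,(nat_lit 101948)),(k6,(nat_lit 107905)),(k0,(nat_lit 115188)),(k4,(nat_lit 153584))],[(k9,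
    (nat_lit 99300)),(k1,(nat_lit 128428)),(k5,(nat_lit 153584)),(k7,(nat_lit 153585)),(k3,(nat_lit 184036))],[(k0,
    (nat_lit 99301)),(k2,(nat_lit 99301)),(k8,(nat_lit 127105)),(k4,(nat_lit 153585)),(k6,(nat_lit 162190))],[(k5,
    (nat_lit 107905)),(k9,(nat_lit 107905)),(k1,(nat_lit 110553)),(k3,(nat_lit 135709)),(k7,(nat_lit 162190))],[(k2,
    (nat_lit 99300)),(k4,(nat_lit 99300)),(k8,(nat_lit 99300)),(k0,(nat_lit 101948)),(k6,(nat_lit 107905))],[(k3,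
    (nat_lit 99300)),(k9,(nat_lit 99300)),(k1,(nat_lit 101948)),(k5,(nat_lit 101948)),(k7,(nat_lit 127105))]]
    [] k0
    [[k2,k1,k0,k0,k0],[k2,k0,k1,k0,k0],[k2,k0,k0,k1,k0],[k2,k0,k0,k0,k1],[k1,k2,k0,k0,k0],[k1,k1,k0,k1,k0],[k1,k1,k0,
    k0,k1],[k1,k1,k1,k0,k0],[k1,k0,k1,k1,k0],[k1,k0,k1,k0,k1],[k1,k0,k0,k2,k0],[k1,k0,k0,k1,k1],[k1,k0,k0,k0,k2],[k0,
    k3,k0,k0,k0],[k0,k2,k0,k1,k0],[k0,k2,k0,k0,k1],[k0,k1,k1,k1,k0],[k0,k1,k1,k0,k1],[k0,k1,k0,k1,k1],[k0,k1,k0,k0,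
    k2],[k0,k0,k2,k0,k1],[k0,k0,k1,k1,k1],[k0,k0,k1,k0,k2],[k0,k0,k0,k1,k2],[k0,k0,k0,k0,k3]]
    [.ref k123 k7 [(z1,[z1,z2,z4,y4]),(z1,[z0,y1,y2,z2]),(z2,[y1,z0,y1,z2])],.ref k88 k2 [(z1,[y1,z1,y1,z1]),(z1,[z2,
    z1,z2,y2]),(z1,[z0,z0,z1])],.ref (nat_lit 218) k5 [(z1,[z1,z2,z4,y4]),(z1,[z1,z3,z5,y5]),(z1,[z0,y1,y2,z2])],
    .ref k166 k4 [(z1,[y2,z1,z1]),(z1,[z0,y1,y2,z2]),(z1,[z2,y1])],.ref k110 k1 [(z2,[y1,y1,y2,z2]),(z1,[z0,z0,z1]),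
    (z1,[y1,z1,z1])],.ref k123 k7 [(z1,[z2,z2,z3,y4]),(z1,[z0,y1,y2,z2]),(z1,[y1,z0,z0,z1])],.contra [y1,z1,z1],
    .ref k110 k1 [(z1,[y1,y1,y2,z2]),(z1,[z0,z0,z1]),(z1,[y2,z0,y1,z2])],.ref k113 k2 [(z1,[y1,z0,y1,z1]),(z1,[z2,z1,
    z2,y2]),(z1,[z0,z0,z1])],.contra [z1,z0,z1,y1],.ref k113 k2 [(z2,[y1,z1]),(z1,[z1]),(z1,[z0,z0,z1])],
    .ref (nat_lit 219) k2 [(z1,[y1,z1]),(z1,[z2,y1]),(z1,[z0,z0,z1])],.contra [z1,y1],.ref k5 k2 [(z2,[y1,z6,z9,y6]),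
    (z1,[z0,y1,y2,z2]),(z1,[z1])],.ref k5 k2 [(z1,[y1,z3,z5,y3]),(z1,[z0,y1,y2,z2]),(z1,[z2,z0,y1])],
    .ref (nat_lit 220) k2 [(z1,[z1,z0,y2]),(z1,[y2,z1,z4]),(z1,[z0,z0,z1])],.ref k113 k2 [(z1,[z1,z1,z0,y1]),(z1,[y2,
    y1,z0,z2]),(z1,[z0,z0,z1])],.ref (nat_lit 221) k5 [(z1,[y1,z1,z2,y1]),(z1,[y1,z2,z3,y2]),(z1,[z0,y1,y2,z2])],
    .contra [z1,y1,y2,z1],.contra [z1,y2,y3,z2],.ref (nat_lit 222) k7 [(z1,[y2,z2,z3,y2]),(z1,[z0,y1,y2,z2]),(z1,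
    [z1])],.ref (nat_lit 223) k0 [(z1,[y1,z0,y1,z1]),(z1,[z0,z0,z1]),(z1,[z1,y1,y1,z1])],.ref (nat_lit 220) k0 [(z1,
    [y2,y1,y2,z2]),(z1,[z2,z2,z3,y2]),(z1,[z1])],.ref k185 k7 [(z1,[y2,z4,z7,y4]),(z1,[z0,y1,y2,z2]),(z1,[z1,z1,z1,
    y1])],.ref k92 k0 [(z1,[y2,z3]),(z1,[z0,z0,z1]),(z1,[z1,y3,y3,z3])]],
    .leafM k1 [k1,k2,k3,k4,k0] [(z1,[y1,y1,z1])] [],
    .leafM k1 [k1,k2,k3,k4,k0] [(z1,[y1,y1,z0,z1])] [],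
    .leafM k1 [k0,k1,k2,k3,k4] [(z1,[z0,z1,z1])] []]

noncomputable def cT5_0_n0_19 : List TN :=
  [.tor k0 false k4 [(z1,[z0,y1,y1,z1]),(z1,[z1,z0,z2]),(z1,[y1,z1,y1,z1])],
    .leafM k1 [k4,k0,k1,k2,k3] [(z5,[z1,z1])] [],
    .leafM k1 [k4,k0,k1,k2,k3] [(z1,[z1,z1])] [],
    .lp [(nat_lit 60180),(nat_lit 68204),(nat_lit 90270),(nat_lit 60180),(nat_lit 81600)] [(nat_lit 15045),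
    (nat_lit 15045),(nat_lit 7021),(nat_lit 15045),k0,k0,(nat_lit 15045),(nat_lit 15045),(nat_lit 4335),
    (nat_lit 4335)] k0 [[k0,k0,(nat_lit 15045)],[],[k0,k0,k0,k0,(nat_lit 8024),k0,k0,k0,(nat_lit 8024)],[k0,
    (nat_lit 15045),k0,k0,k0,k0,k0,(nat_lit 8024)],[k0,k0,k0,k0,k0,k0,(nat_lit 20060)],[k0,k0,k0,(nat_lit 8024),k0,k0,
    k0,k0,k0,(nat_lit 7080)],[k0,k0,(nat_lit 8024)],[k0,k0,k0,k0,k0,(nat_lit 20060)],[k0,k0,k0,k0,(nat_lit 7080)],[k0,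
    k0,k0,(nat_lit 8024)]] (nat_lit 240720) k5
    [[(k0,(nat_lit 60180)),(k2,(nat_lit 60180)),(k6,(nat_lit 60180)),(k8,(nat_lit 70890)),(k4,(nat_lit 82305))],[(k1,
    (nat_lit 60180)),(k3,(nat_lit 60180)),(k5,(nat_lit 60180)),(k7,(nat_lit 60180)),(k9,(nat_lit 70890))],[(k0,
    (nat_lit 60180)),(k6,(nat_lit 60180)),(k8,(nat_lit 70890)),(k4,(nat_lit 75225)),(k2,(nat_lit 83249))],[(k1,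
    (nat_lit 60180)),(k7,(nat_lit 60180)),(k3,(nat_lit 83249)),(k5,(nat_lit 83249)),(k9,(nat_lit 86938))],[(k0,
    (nat_lit 60180)),(k6,(nat_lit 67201)),(k2,(nat_lit 83249)),(k8,(nat_lit 93959)),(k4,(nat_lit 98294))],[(k9,
    (nat_lit 65875)),(k3,(nat_lit 75225)),(k7,(nat_lit 75225)),(k1,(nat_lit 82305)),(k5,(nat_lit 98294))],[(k0,
    (nat_lit 60180)),(k2,(nat_lit 60180)),(k8,(nat_lit 63810)),(k4,(nat_lit 75225)),(k6,(nat_lit 80240))],[(k1,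
    (nat_lit 60180)),(k3,(nat_lit 60180)),(k5,(nat_lit 67201)),(k9,(nat_lit 70890)),(k7,(nat_lit 80240))],[(k4,
    (nat_lit 65875)),(k0,(nat_lit 70890)),(k6,(nat_lit 70890)),(k8,(nat_lit 81600)),(k2,(nat_lit 86938))],[(k7,
    (nat_lit 63810)),(k1,(nat_lit 70890)),(k3,(nat_lit 70890)),(k9,(nat_lit 81600)),(k5,(nat_lit 93959))]]
    [] k0
    [[k3,k0,k0,k0,k0],[k2,k1,k0,k0,k0],[k2,k0,k1,k0,k0],[k2,k0,k0,k1,k0],[k2,k0,k0,k0,k1],[k1,k2,k0,k0,k0],[k1,k1,k1,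
    k0,k0],[k1,k1,k0,k1,k0],[k1,k1,k0,k0,k1],[k1,k0,k1,k1,k0],[k1,k0,k0,k2,k0],[k1,k0,k0,k1,k1],[k1,k0,k1,k0,k1],[k1,
    k0,k0,k0,k2],[k0,k2,k0,k1,k0],[k0,k1,k1,k1,k0],[k0,k1,k0,k2,k0],[k0,k1,k0,k1,k1],[k0,k1,k1,k0,k1],[k0,k1,k0,k0,
    k2],[k0,k0,k1,k2,k0],[k0,k0,k1,k1,k1],[k0,k0,k0,k2,k1],[k0,k0,k0,k1,k2]]
    [.ref k1 k2 [(z4,[z1,y3]),(z1,[z1]),(z4,[y1,z3,z4])],.ref k194 k3 [(z1,[y1,z2,z1]),(z1,[z0,y1,y1,z1]),(z1,[z1,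
    y2])],.ref k1 k2 [(z2,[z1,y1,z1,y1]),(z1,[z2,z1,z2,y2]),(z2,[y1,z1,z1,z1])],.ref (nat_lit 218) k0 [(z1,[z0,z1]),
    (z1,[y1,z2,z1]),(z1,[z0,y1,y1,z1])],.ref k1 k2 [(z3,[z1,y2]),(z3,[z4,z1]),(z3,[y1,z2,z3])],.ref k131 k0 [(z1,[z0,
    z1]),(z2,[z1,y1]),(z1,[z0,y1,y1,z1])],.ref k131 k0 [(z1,[z0,z1]),(z1,[z1,z0,z1,y1]),(z1,[z0,y1,y1,z1])],
    .contra [z1,y1,y1],.ref (nat_lit 226) k0 [(z1,[z0,z1]),(z1,[z1,y1]),(z1,[z0,y1,y1,z1])],.ref k112 k0 [(z1,[z0,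
    z1]),(z1,[y1,z0,z0,z1]),(z1,[z0,y1,y1,z1])],.ref k112 k0 [(z1,[z0,z1]),(z2,[y1,z1,z2]),(z1,[z0,y1,y1,z1])],
    .ref (nat_lit 227) k0 [(z1,[z0,z1]),(z1,[y1,z1,z1]),(z1,[z0,y1,y1,z1])],.ref k1 k2 [(z1,[z1,z0,z1,y1]),(z1,[z4,z3,
    z4,y4]),(z1,[y1,z0,z0,z1])],.ref k1 k2 [(z2,[z1,y1]),(z1,[z2,z1]),(z2,[y1,z1,z2])],.ref (nat_lit 228) k0 [(z1,[z0,
    z1]),(z1,[z1,z0,y1]),(z1,[z0,y1,y1,z1])],.ref (nat_lit 229) k8 [(z1,[y4,z1,z0,z4]),(z1,[y1,y1,z0,z1]),(z1,[z3,z3,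
    z5,y3])],.ref (nat_lit 220) k0 [(z1,[z0,z1]),(z1,[y1,z0,z2]),(z1,[z0,y1,y1,z1])],.contra [z1,y1,y2,z1],
    .ref (nat_lit 212) k0 [(z1,[z0,z1]),(z1,[z1,z1,z1,y1]),(z1,[z0,y1,y1,z1])],.ref k131 k0 [(z1,[z0,z1]),(z1,[z1]),
    (z1,[z0,y1,y1,z1])],.ref (nat_lit 230) k0 [(z1,[z0,z1]),(z2,[y1,y1,z1,z1]),(z1,[z0,y1,y1,z1])],
    .ref (nat_lit 230) k0 [(z1,[z0,z1]),(z1,[y1,y1,z0,z1]),(z1,[z0,y1,y1,z1])],.ref (nat_lit 214) k9 [(z1,[y2,y1,y1,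
    z1]),(z1,[y3,z0,z1]),(z1,[z4,z1])],.ref k112 k0 [(z1,[z0,z1]),(z1,[y1,z0,z1]),(z1,[z0,y1,y1,z1])]],
    .leafM k1 [k2,k3,k4,k0,k1] [(z1,[y1,y1,y1,z1])] [],
    .leafM k1 [k2,k3,k4,k0,k1] [(z1,[y1,y1,y1,z1])] [],
    .lp [(nat_lit 48192),(nat_lit 40662),(nat_lit 27360),(nat_lit 40160),(nat_lit 24096)] [k0,k0,(nat_lit 3765),
    (nat_lit 3765),(nat_lit 10416),(nat_lit 10416),(nat_lit 4016),(nat_lit 4016),(nat_lit 12048),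
    (nat_lit 12048)] k0 [[],[k0,k0,k0,k0,k0,(nat_lit 502)],[k0,k0,k0,k0,(nat_lit 8534),k0,k0,k0,(nat_lit 9036)],[k0,
    k0,k0,k0,k0,k0,k0,(nat_lit 502)],[(nat_lit 502)],[k0,k0,k0,(nat_lit 8534),k0,k0,k0,k0,k0,(nat_lit 9036)],[k0,k0,
    (nat_lit 502)],[],[k0,k0,k0,k0,(nat_lit 9036)],[k0,k0,k0,(nat_lit 9036)]] (nat_lit 120480) k7
    [[(k2,(nat_lit 35391)),(k8,(nat_lit 36144)),(k6,(nat_lit 44176)),(k4,(nat_lit 46812)),(k0,(nat_lit 48192))],[(k9,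
    (nat_lit 36144)),(k5,(nat_lit 37776)),(k3,(nat_lit 44427)),(k7,(nat_lit 44678)),(k1,(nat_lit 48192))],[(k8,
    (nat_lit 32379)),(k4,(nat_lit 33509)),(k6,(nat_lit 40411)),(k2,(nat_lit 40662)),(k0,(nat_lit 44427))],[(k7,
    (nat_lit 31877)),(k9,(nat_lit 32881)),(k5,(nat_lit 34011)),(k1,(nat_lit 35391)),(k3,(nat_lit 40662))],[(k6,
    (nat_lit 33258)),(k2,(nat_lit 34011)),(k8,(nat_lit 34764)),(k4,(nat_lit 35894)),(k0,(nat_lit 37776))],[(k9,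
    (nat_lit 25728)),(k3,(nat_lit 33509)),(k7,(nat_lit 33760)),(k5,(nat_lit 35894)),(k1,(nat_lit 46812))],[(k8,
    (nat_lit 23092)),(k2,(nat_lit 31877)),(k4,(nat_lit 33760)),(k6,(nat_lit 40160)),(k0,(nat_lit 44678))],[(k9,
    (nat_lit 32128)),(k5,(nat_lit 33258)),(k7,(nat_lit 40160)),(k3,(nat_lit 40411)),(k1,(nat_lit 44176))],[(k8,
    (nat_lit 24096)),(k4,(nat_lit 25728)),(k6,(nat_lit 32128)),(k2,(nat_lit 32881)),(k0,(nat_lit 36144))],[(k7,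
    (nat_lit 23092)),(k9,(nat_lit 24096)),(k3,(nat_lit 32379)),(k5,(nat_lit 34764)),(k1,(nat_lit 36144))]]
    [] k0
    [[k1,k1,k1,k0,k0],[k1,k1,k0,k0,k1],[k1,k0,k1,k0,k1],[k1,k0,k1,k1,k0],[k1,k0,k0,k1,k1],[k1,k0,k0,k0,k2],[k0,k2,k1,
    k0,k0],[k0,k2,k0,k1,k0],[k0,k2,k0,k0,k1],[k0,k1,k2,k0,k0],[k0,k1,k1,k1,k0],[k0,k1,k1,k0,k1],[k0,k1,k0,k2,k0],[k0,
    k1,k0,k1,k1],[k0,k1,k0,k0,k2],[k0,k1,k1,k0,k2],[k0,k1,k0,k0,k3],[k0,k0,k3,k0,k0],[k0,k0,k2,k1,k0],[k0,k0,k2,k1,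
    k1],[k0,k0,k2,k0,k1],[k0,k0,k1,k2,k0],[k0,k0,k1,k1,k1],[k0,k0,k1,k1,k2],[k0,k0,k1,k0,k2],[k0,k0,k1,k0,k3],[k0,k0,
    k0,k2,k1],[k0,k0,k0,k2,k2],[k0,k0,k0,k1,k2],[k0,k0,k0,k1,k3],[k0,k0,k0,k0,k3],[k0,k0,k0,k0,k4]]
    [.ref k155 k0 [(z1,[z0,z1]),(z1,[z1,z0,z1,y1]),(z1,[z0,y1,y1,z1])],.ref (nat_lit 232) k7 [(z1,[z1,z2,z3,y3]),(z1,
    [z0,y1,y2,z2]),(z1,[z0,y1,y1,z1])],.contra [z1,z1,z1,y1],.ref k155 k0 [(z1,[z0,z1]),(z1,[y1,z0,z0,z1]),(z1,[z0,y1,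
    y1,z1])],.ref (nat_lit 233) k5 [(z1,[z1,z2,z3,y3]),(z1,[z0,y1,y1,z1]),(z1,[z0,y1,y2,z2])],.contra [z1,z1],
    .ref (nat_lit 215) k8 [(z1,[y2,y1,y2,z2]),(z1,[y1,y1,y1,z1]),(z1,[z2,z2,z3,y2])],.ref k112 k5 [(z1,[y1,z4,z6,y4]),
    (z1,[z0,y1,y1,z1]),(z1,[z0,y1,y2,z2])],.ref (nat_lit 221) k1 [(z1,[y1,y1,y1,z1]),(z1,[y2,z0,z1]),(z1,[z1])],
    .ref k112 k5 [(z1,[y1,z2,z3,y2]),(z1,[z0,y1,y1,z1]),(z1,[z0,y1,y2,z2])],.ref k2 k2 [(z1,[y1,y1,z0,z1]),(z1,[y2,z1,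
    z0,z2]),(z1,[z2,z2,z3,y2])],.contra [z1,z1,z1,y1],.ref k123 k7 [(z1,[y1,z4,z6,y4]),(z1,[z0,y1,y2,z2]),(z1,[z0,y1,
    y1,z1])],.contra [z1,y1,y2,z1],.contra [y1,z0,z1],.ref k155 k0 [(z1,[z0,z1]),(z1,[z1,z1,z1,y1]),(z1,[z0,y1,y1,
    z1])],.ref (nat_lit 232) k7 [(z1,[z1,z3,z3,y3]),(z1,[z0,y1,y2,z2]),(z1,[z0,y1,y1,z1])],.ref k2 k2 [(z1,[y1,y3,y3,
    z3]),(z1,[y2,y3,y6,z6]),(z1,[z2,z6,z9,y6])],.ref k123 k7 [(z1,[y1,z2,z3,y2]),(z1,[z0,y1,y2,z2]),(z1,[z0,y1,y1,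
    z1])],.ref (nat_lit 232) k7 [(z1,[y1,z1,z2,y1]),(z1,[z0,y1,y2,z2]),(z1,[z0,y1,y1,z1])],.contra [z1,z1,z1,y1],
    .ref k136 k7 [(z1,[y1,z4,z6,y4]),(z1,[z0,y1,y2,z2]),(z1,[z0,y1,y1,z1])],.contra [z1,z1,z1,y1],.ref k155 k0 [(z1,
    [z0,z1]),(z1,[y1,y1,z0,z1]),(z1,[z0,y1,y1,z1])],.contra [z1,z1,z1,y1],.contra [z1,z2,z1,y1],.ref k141 k9 [(z1,[y1,
    y1,y1,z1]),(z1,[y2,z0,z1]),(z1,[z2,z1])],.ref k155 k0 [(z1,[z0,z1]),(z2,[y1,z0,z2]),(z1,[z0,y1,y1,z1])],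
    .contra [y1,z0,z1],.ref (nat_lit 233) k5 [(z1,[z1,z3,z3,y3]),(z1,[z0,y1,y1,z1]),(z1,[z0,y1,y2,z2])],
    .ref k95 k1 [(z1,[y1,y3,y3,z3]),(z1,[y2,z0,z3]),(z1,[z1])],.contra [z1,z2]],
    .tor k0 false k0 [(z2,[y1,y1,z2]),(z1,[z0,z1]),(z2,[z1,y1,z2])],
    .geo z2 k4 [(y4,z6),(z4,y4),(z4,y3),(z2,y1),(z0,z2)] [(z1,[z2]),(z1,[z0,z2]),(z1,[z0,z0,z1]),(z1,[y2,y2,y1,z2]),(z1,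
    [])] k6,
    .geo z1 k4 [(y4,z6),(z2,y2),(z3,y3),(z2,y2),(z0,z1)] [(z1,[z1]),(z1,[z0,z1]),(z1,[z0,z0,z1]),(z1,[y1,y1,y1,z1]),(z1,
    [])] k9,
    .leafM k1 [k0,k1,k2,k3,k4] [(z1,[z0,z1,z1])] [],
    .leafM k1 [k4,k0,k1,k2,k3] [(z1,[z1,z1])] []]

noncomputable def cT5_0_n0_20 : List TN :=
  [.lp [(nat_lit 432),(nat_lit 456),(nat_lit 492),(nat_lit 324),(nat_lit 450)] [k60,k60,k36,k60,k60,k0,k114,k114,k55,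
    k47] k0 [[k0,k0,(nat_lit 204)],[k0,k0,k0,k0,k0,k0,k0,k0,k0,k126],[k0,k0,k0,k0,k0,k0,k0,k0,k168],[k0,
    (nat_lit 204)],[k0,k0,k0,k0,k0,k0,k156],[],[k0,k0,k0,k0,k0,k0,k0,k0,k36],[k0,k0,k0,k0,k0,k156],[k126],[k0,k0,k0,
    k168,k0,k0,k0,k36]] (nat_lit 1440) k6
    [[(k2,(nat_lit 288)),(k6,(nat_lit 342)),(k4,(nat_lit 432)),(k8,(nat_lit 437)),(k0,(nat_lit 558))],[(k5,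
    (nat_lit 288)),(k7,(nat_lit 378)),(k3,(nat_lit 432)),(k9,(nat_lit 445)),(k1,(nat_lit 558))],[(k8,(nat_lit 311)),
    (k6,(nat_lit 378)),(k0,(nat_lit 432)),(k4,(nat_lit 432)),(k2,(nat_lit 660))],[(k1,(nat_lit 288)),(k7,
    (nat_lit 402)),(k9,(nat_lit 469)),(k5,(nat_lit 516)),(k3,(nat_lit 660))],[(k0,(nat_lit 288)),(k6,(nat_lit 438)),
    (k4,(nat_lit 492)),(k2,(nat_lit 516)),(k8,(nat_lit 665))],[(k9,(nat_lit 289)),(k7,(nat_lit 378)),(k1,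
    (nat_lit 432)),(k3,(nat_lit 432)),(k5,(nat_lit 492))],[(k0,(nat_lit 378)),(k4,(nat_lit 378)),(k8,(nat_lit 383)),
    (k2,(nat_lit 402)),(k6,(nat_lit 480))],[(k1,(nat_lit 342)),(k3,(nat_lit 378)),(k9,(nat_lit 391)),(k5,
    (nat_lit 438)),(k7,(nat_lit 480))],[(k4,(nat_lit 289)),(k6,(nat_lit 391)),(k0,(nat_lit 445)),(k2,(nat_lit 469)),
    (k8,(nat_lit 486))],[(k3,(nat_lit 311)),(k7,(nat_lit 383)),(k1,(nat_lit 437)),(k9,(nat_lit 486)),(k5,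
    (nat_lit 665))]]
    [] k0
    [[k2,k1,k0,k0,k0],[k2,k0,k1,k0,k0],[k2,k0,k0,k1,k0],[k1,k2,k0,k0,k0],[k1,k1,k1,k0,k0],[k1,k1,k0,k1,k0],[k1,k1,k1,
    k1,k0],[k1,k1,k0,k0,k1],[k1,k1,k1,k0,k1],[k1,k1,k0,k1,k1],[k1,k0,k2,k0,k0],[k1,k0,k1,k1,k0],[k1,k0,k0,k2,k0],[k1,
    k0,k0,k1,k1],[k1,k0,k1,k1,k1],[k1,k0,k1,k0,k1],[k1,k0,k0,k0,k2],[k0,k1,k1,k1,k0],[k0,k1,k0,k2,k0],[k0,k1,k0,k1,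
    k1],[k0,k1,k1,k0,k1],[k0,k1,k0,k0,k2],[k0,k0,k2,k1,k0],[k0,k0,k1,k2,k0],[k0,k0,k1,k1,k1],[k0,k0,k0,k2,k1],[k0,k0,
    k0,k1,k2]]
    [.ref (nat_lit 236) k1 [(z2,[y2,z1,y3,z2]),(z1,[z0,z0,z1]),(z1,[z1,y1,z1])],.contra [z2,y1,z3,y2],.contra [z1,y1],
    .ref (nat_lit 237) k1 [(z2,[y4,z1,y3,z2]),(z1,[z0,z0,z1]),(z2,[z2,y1,z1])],.ref (nat_lit 238) k8 [(z2,[y2,z1,y3,
    z2]),(z1,[y1,z0,y1,z1]),(z1,[z0,z0,z1])],.contra [z2,y1,y1],.contra [y1,z0,z0,z1],.ref (nat_lit 239) k1 [(z1,[y1,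
    z0,y1,z1]),(z1,[z0,z0,z1]),(z2,[z2,y1,z1])],.contra [y1,z0,z0,z1],.contra [y1,z0,z0,z1],
    .ref (nat_lit 228) k0 [(z1,[z1,z1,z1,y2]),(z2,[z2,z1,z3,y4]),(z2,[z0,y1,y1,z2])],.contra [y2,z1,y1,z2],
    .ref (nat_lit 228) k8 [(z1,[z1,z0,y2]),(z2,[z2,y1,y3]),(z1,[z0,z0,z1])],.ref (nat_lit 238) k0 [(z1,[y1,z1]),(z2,
    [y2,z1,z1]),(z2,[z0,y1,y1,z2])],.contra [y1,z0,z0,z1],.contra [z1,z0,z1,y1],.ref (nat_lit 237) k3 [(z1,[y2,z1]),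
    (z2,[z0,y1,y1,z2]),(z2,[z2,y1,z1])],.ref k131 k3 [(z1,[z2,z1,z0,y2]),(z2,[z0,y1,y1,z2]),(z2,[y2,y1,z1,z2])],
    .ref k88 k0 [(z2,[y2,z3,z1]),(z1,[y1,z0,z2]),(z2,[z0,y1,y1,z2])],.ref k108 k0 [(z2,[y2,z1,z1]),(z1,[y1,z0,z1]),
    (z2,[z0,y1,y1,z2])],.ref k108 k0 [(z1,[z1,z1,z0,y1]),(z2,[z2,z1,z1,y2]),(z2,[z0,y1,y1,z2])],.ref k131 k3 [(z1,[y2,
    z0,z1]),(z2,[z0,y1,y1,z2]),(z1,[z1])],.ref k131 k3 [(z1,[z1,z1,z1,y2]),(z2,[z0,y1,y1,z2]),(z2,[y1,y1,z0,z2])],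
    .ref k131 k1 [(z1,[z1,z0,y2]),(z1,[z0,z0,z1]),(z4,[y2,y1,z3,z2])],.ref k131 k1 [(z2,[z4,z1,y3,y2]),(z1,[z0,z0,
    z1]),(z2,[y2,y1,z1,z2])],.ref k158 k8 [(z2,[z2,z1,y5]),(z1,[z1,z0,y2]),(z1,[z0,z0,z1])],.ref k108 k0 [(z2,[y1,
    z1]),(z2,[y1,z0,z1]),(z2,[z0,y1,y1,z2])]],
    .leafM k1 [k1,k2,k3,k4,k0] [(z1,[y1,y1,z1])] [],
    .lp [k180,k172,k132,k114,k120] [k0,k0,k4,k4,k24,k24,k33,k33,k30,k30] k0 [[k0,k0,k4],[k0,k0,k0,k0,k0,k0,k0,k0,k0,k46],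
    [k0,k0,k0,k0,k40,k0,k0,k0,k40],[k0,k4],[k0,k0,k0,k0,k0,k0,k46],[k0,k0,k0,k40],[k0,k0,k0,k0,k0,k0,k0,k0,k40],[k0,
    k0,k0,k0,k0,k46],[k46],[k0,k0,k0,k40,k0,k0,k0,k40]] (nat_lit 480) k6
    [[(k6,k107),(k2,k136),(k8,k150),(k4,k156),(k0,(nat_lit 226))],[(k7,k147),(k9,k150),(k5,k152),(k3,k176),(k1,
    (nat_lit 226))],[(k8,k100),(k6,k143),(k4,k152),(k0,k176),(k2,k176)],[(k7,k103),(k1,k136),(k9,k146),(k5,k152),(k3,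
    k176)],[(k6,k123),(k0,k152),(k2,k152),(k8,k166),(k4,k172)],[(k9,k80),(k7,k123),(k3,k152),(k1,k156),(k5,k172)],
    [(k2,k103),(k8,k117),(k4,k123),(k0,k147),(k6,k160)],[(k1,k107),(k9,k117),(k5,k123),(k3,k143),(k7,k160)],[(k4,k80),
    (k6,k117),(k2,k146),(k0,k150),(k8,k160)],[(k3,k100),(k7,k117),(k1,k150),(k9,k160),(k5,k166)]]
    [] k0
    [[k1,k1,k1,k0,k0],[k1,k1,k0,k1,k0],[k1,k1,k0,k0,k1],[k1,k1,k1,k0,k1],[k1,k0,k1,k1,k0],[k1,k0,k1,k0,k1],[k1,k1,k0,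
    k1,k1],[k1,k0,k0,k2,k0],[k1,k0,k0,k1,k1],[k1,k0,k1,k1,k1],[k1,k0,k0,k0,k2],[k0,k2,k0,k1,k0],[k0,k2,k0,k0,k1],[k0,
    k1,k2,k0,k0],[k0,k1,k1,k1,k0],[k0,k1,k1,k0,k1],[k0,k1,k0,k2,k0],[k0,k1,k0,k1,k1],[k0,k1,k1,k1,k1],[k0,k1,k0,k0,
    k2],[k0,k0,k2,k1,k0],[k0,k0,k2,k0,k1],[k0,k0,k1,k2,k0],[k0,k0,k1,k1,k1],[k0,k0,k1,k0,k2],[k0,k0,k0,k2,k1],[k0,k0,
    k0,k2,k2],[k0,k0,k0,k1,k2]]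
    [.ref (nat_lit 200) k5 [(z1,[y2,z1]),(z1,[z1,y1,z1])],.ref (nat_lit 203) k4 [(z1,[z1,y1]),(z1,[y1,z0,z1])],
    .ref (nat_lit 204) k1 [(z1,[y1,y1,z1]),(z1,[z0,z1])],.contra [y1,z0,z1],.ref k157 k8 [(z1,[y1,z1]),(z1,[y1,z0,
    z1])],.ref (nat_lit 210) k4 [(z1,[y1,y1,z1]),(z1,[z1])],.contra [y1,z0,z1],.ref k6 k5 [(z1,[z2,y1]),(z1,[y1,y1,
    z3])],.ref k121 k6 [(z1,[z1,y1]),(z1,[z0,z1])],.contra [y1,z0,z1],.ref (nat_lit 217) k1 [(z1,[y1,y2,z2]),(z1,[z0,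
    z1])],.ref (nat_lit 203) k4 [(z2,[z1,y1]),(z2,[y1,y1,z2])],.ref (nat_lit 224) k5 [(z1,[y2,y1,z2]),(z1,[z1])],
    .ref k188 k9 [(z1,[z2,z1,y2]),(z1,[y1,y1,z2])],.ref (nat_lit 225) k1 [(z1,[z1,y1]),(z1,[z0,z1])],.contra [z1,z1,
    y1],.ref (nat_lit 231) k4 [(z1,[z1,y2]),(z1,[y1,z1,z1])],.ref (nat_lit 234) k5 [(z1,[z2,z1,y2]),(z1,[y1,y1,z2])],
    .contra [y1,z0,z1],.ref (nat_lit 235) k2 [(z1,[z2,z1,y2]),(z1,[z0,z1])],.ref k157 k8 [(z2,[y1,z1]),(z2,[y1,y1,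
    z2])],.ref (nat_lit 240) k4 [(z1,[y1,y2,z2]),(z1,[z1])],.ref k168 k1 [(z1,[z1,y2]),(z1,[z0,z1])],
    .ref (nat_lit 241) k5 [(z1,[z2,z1,y2]),(z1,[y1,y1,z2])],.ref (nat_lit 224) k1 [(z1,[y1,y2,z2]),(z1,[z0,z1])],
    .ref k135 k7 [(z1,[y2,y1,z2]),(z1,[z0,z1])],.ref (nat_lit 200) k5 [(z1,[z1,z1,y2]),(z2,[y1,y2,z4])],
    .ref k121 k6 [(z2,[z1,y1]),(z1,[z0,z1])]],
    .leafM k1 [k3,k4,k0,k1,k2] [(z1,[z1])] [],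
    .leafM k1 [k4,k0,k1,k2,k3] [(z1,[z1,z1])] [],
    .leafM k1 [k4,k0,k1,k2,k3] [(z1,[z1,z1])] [],
    .leafM k1 [k4,k0,k1,k2,k3] [(z2,[z1,z1])] [],
    .tor k1 true k0 [(z1,[y1,y1,y1,z1]),(z1,[z1,z2,z1]),(z1,[z0,y1,z0,z1])],
    .leafM k4 [k2,k3,k4,k0,k1] [(z1,[y1,y1,y1,z3]),(z1,[z1])] []]

/-- the nodes with numbers from 0 -/
noncomputable def cT5_0_n0 : List TN :=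
  cT5_0_n0_0 ++ (cT5_0_n0_1 ++ (cT5_0_n0_2 ++ (cT5_0_n0_3 ++ (cT5_0_n0_4 ++ (cT5_0_n0_5 ++ (cT5_0_n0_6 ++
      (cT5_0_n0_7 ++ (cT5_0_n0_8 ++ (cT5_0_n0_9 ++ (cT5_0_n0_10 ++ (cT5_0_n0_11 ++ (cT5_0_n0_12 ++
      (cT5_0_n0_13 ++ (cT5_0_n0_14 ++ (cT5_0_n0_15 ++ (cT5_0_n0_16 ++ (cT5_0_n0_17 ++ (cT5_0_n0_18 ++
      (cT5_0_n0_19 ++ cT5_0_n0_20)))))))))))))))))))

theorem cT5_0_k0 : allI (chkT 5 cT5_0_w tt5 cT5_0_s (blkF [] cT5_0_D)) cT5_0_n0 0 = true := by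
  decide +kernel

end Pool.Agent.Lib_MP_fa6e45
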