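import Pool.Agent.Lib_MP_fa6e45.CG5_0d

/-!
MP_fa6e45_co, stage 5: certificates (captain, generated by a program).
-/

namespace Pool.Agent.Lib_MP_fa6e45

noncomputable def cT5_0_n1_0 : List TN :=
  [.lp [k116,k180,k120,k184,k118] [k34,k34,k2,k2,k32,k32,k0,k0,k33,k33] k0 [[k0,k0,k0,k0,k0,k0,k14,k0,k2],[],[k0,k0,k0,
    k0,k0,k0,k0,k0,k14],[],[],[k0,k0,k0,k0,k0,k0,k0,k8,k0,k16],[k0,k0,k0,k0,k8],[k0,k14],[k0,k0,k0,k0,k16],[k0,k2,k0,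
    k14]] (nat_lit 480) k6
    [[(k0,k114),(k8,k117),(k2,k134),(k4,k134),(k6,k150)],[(k9,k103),(k1,k114),(k5,k118),(k3,k148),(k7,k150)],[(k0,
    k148),(k4,k150),(k8,k151),(k2,k180),(k6,k196)],[(k1,k134),(k9,k149),(k5,k150),(k3,k180),(k7,k182)],[(k0,k118),(k4,
    k120),(k8,k133),(k2,k150),(k6,k152)],[(k5,k120),(k9,k127),(k1,k134),(k3,k150),(k7,k152)],[(k8,k135),(k0,k150),(k4,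
    k152),(k6,k176),(k2,k182)],[(k1,k150),(k9,k151),(k5,k152),(k7,k176),(k3,k196)],[(k0,k103),(k8,k118),(k4,k127),(k2,
    k149),(k6,k151)],[(k1,k117),(k9,k118),(k5,k133),(k7,k135),(k3,k151)]]
    [] k0
    [[k3,k0,k0,k0,k0],[k4,k0,k0,k0,k0],[k3,k0,k0,k0,k1],[k2,k1,k0,k0,k0],[k2,k0,k1,k0,k0],[k2,k0,k0,k1,k0],[k2,k0,k0,
    k0,k1],[k2,k0,k1,k0,k1],[k2,k0,k0,k0,k2],[k1,k2,k0,k0,k0],[k1,k1,k1,k0,k0],[k1,k1,k0,k0,k1],[k1,k0,k2,k0,k0],[k1,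
    k0,k1,k1,k0],[k1,k0,k1,k0,k1],[k1,k0,k0,k2,k0],[k1,k0,k0,k1,k1],[k1,k0,k0,k0,k2],[k1,k0,k0,k0,k3],[k0,k1,k2,k0,
    k0],[k0,k1,k1,k0,k1],[k0,k1,k0,k0,k2],[k0,k0,k3,k0,k0],[k0,k0,k2,k1,k0],[k0,k0,k2,k0,k1],[k0,k0,k1,k1,k1],[k0,k0,
    k1,k0,k2],[k0,k0,k0,k2,k1],[k0,k0,k0,k1,k2],[k0,k0,k0,k0,k3],[k0,k0,k0,k0,k4]]
    [.ref k18 k1 [(z1,[y1,z0,y3,z3]),(z1,[y1,z3,z3]),(z1,[z1,y3])],.ref (nat_lit 246) k2 [(z2,[z1,y4]),(z2,[z1]),(z2,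
    [y1,z4,z4])],.ref (nat_lit 246) k2 [(z2,[z1,y3]),(z2,[z1,z1]),(z2,[y1,z3,z4])],.ref k155 k7 [(z1,[z1,z0,z2,y2]),
    (z1,[z0,z0,y1,z1]),(z1,[z0,y1,y1,z1])],.contra [z1,z0,z1,y1],.ref k155 k5 [(z1,[z1,z0,z2,y2]),(z1,[z0,y1,y1,z1]),
    (z1,[z0,z0,y1,z1])],.ref k18 k1 [(z1,[y1,y1,y3,z3]),(z1,[y1,z2,z3]),(z1,[z1,y2])],.ref (nat_lit 246) k2 [(z1,[z1,
    y1,z1,y1]),(z1,[z1,z1,z1,y1]),(z1,[y1,z1,z1,z1])],.ref (nat_lit 246) k2 [(z2,[z1,y2]),(z2,[z1,z2]),(z2,[y1,z2,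
    z4])],.ref k108 k1 [(z1,[y1,z0,y1,z1]),(z1,[y1,z1,z1]),(z1,[z1,y1])],.contra [z1,z0,z1,y1],.ref k155 k7 [(z1,[z1,
    z1,z2,y2]),(z1,[z0,z0,y1,z1]),(z1,[z0,y1,y1,z1])],.contra [z1,z0,z1,y1],.contra [z1,z0,z1,y1],.contra [z1,z1,z1,
    y1],.ref k108 k1 [(z1,[z1,y2,y3,z1]),(z1,[z1,y1,y1]),(z1,[y1,z1,z2])],.ref k155 k5 [(z1,[z1,z1,z2,y2]),(z1,[z0,y1,
    y1,z1]),(z1,[z0,z0,y1,z1])],.ref k18 k1 [(z1,[y1,y2,y3,z3]),(z1,[y1,z1,z3]),(z1,[z1,y1])],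
    .ref (nat_lit 246) k2 [(z2,[z1,y1]),(z2,[z1,z3]),(z2,[y1,z1,z4])],.ref (nat_lit 247) k5 [(z1,[y1,z1,z2,y1]),(z1,
    [z0,y1,y1,z1]),(z1,[z0,z0,y1,z1])],.contra [z1,z1,z1,y1],.ref k155 k7 [(z1,[z1,z2,z2,y2]),(z1,[z0,z0,y1,z1]),(z1,
    [z0,y1,y1,z1])],.ref (nat_lit 248) k2 [(z1,[y1,y3,y3,z3]),(z1,[y1,z0,y3,z3]),(z1,[z1,z3,z6,y3])],
    .ref (nat_lit 247) k7 [(z1,[y1,z1,z2,y1]),(z1,[z0,z0,y1,z1]),(z1,[z0,y1,y1,z1])],.contra [z1,z1,z1,y1],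
    .contra [z1,z1,z1,y1],.contra [z1,z2,z1,y1],.ref k108 k1 [(z1,[z1,y1,y3,z1]),(z1,[z1,z0,y1]),(z1,[y1,z0,z2])],
    .ref k155 k5 [(z1,[z1,z2,z2,y2]),(z1,[z0,y1,y1,z1]),(z1,[z0,z0,y1,z1])],.ref k18 k1 [(z1,[y1,y3,y3,z3]),(z1,[y1,
    z0,z3]),(z1,[z1])],.ref (nat_lit 246) k2 [(z2,[z1]),(z2,[z1,z4]),(z2,[y1,z0,z4])]],
    .leafM k1 [k2,k3,k4,k0,k1] [(z1,[y1,y1,y1,z1])] [],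
    .tor k2 true k0 [(z1,[y1,y1,y1,z1]),(z1,[z1,z1,z2]),(z1,[z0,z0,y1,z1])],
    .leafM k1 [k2,k3,k4,k0,k1] [(z1,[y1,y1,y1,z1])] [],
    .tor k1 true k0 [(z1,[y1,y1,y1,z1]),(z1,[z1,z2,z1]),(z1,[z0,y1,z0,z1])],
    .geo z2 k4 [(y2,z7),(z4,y6),(z2,y2),(z2,y1),(z0,z2)] [(z1,[z1]),(z1,[z0,z2]),(z1,[z0,z0,z2]),(z1,[y1,y2,y2,z2]),(z1,
    [])] k10,
    .lp [(nat_lit 1578),(nat_lit 1614),(nat_lit 778),(nat_lit 1614),(nat_lit 878)] [k18,k18,k0,k0,(nat_lit 418),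
    (nat_lit 418),k0,k0,(nat_lit 368),(nat_lit 368)] k0 [[k0,k0,(nat_lit 314)],[k0,k0,k0,k0,k0,k0,k0,k0,k0,
    (nat_lit 286)],[k0,k0,k0,k0,(nat_lit 486),k0,k0,k0,(nat_lit 486)],[k0,(nat_lit 314),k0,k0,k0,k0,k0,k186],[k0,k0,
    k0,k0,k0,k0,k0,k0,(nat_lit 250)],[k0,k0,k0,(nat_lit 486),k0,k0,k0,k36],[k0,k0,k186,k0,k36],[],[(nat_lit 286)],[k0,
    k0,k0,(nat_lit 486),k0,(nat_lit 250)]] (nat_lit 4320) k6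
    [[(k4,(nat_lit 928)),(k2,(nat_lit 1110)),(k8,(nat_lit 1228)),(k6,(nat_lit 1596)),(k0,(nat_lit 1864))],[(k5,
    (nat_lit 864)),(k9,(nat_lit 1228)),(k3,(nat_lit 1596)),(k7,(nat_lit 1596)),(k1,(nat_lit 1864))],[(k8,
    (nat_lit 960)),(k4,(nat_lit 1196)),(k0,(nat_lit 1596)),(k6,(nat_lit 1614)),(k2,(nat_lit 1928))],[(k1,
    (nat_lit 1110)),(k7,(nat_lit 1128)),(k5,(nat_lit 1196)),(k9,(nat_lit 1432)),(k3,(nat_lit 1928))],[(k0,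
    (nat_lit 864)),(k6,(nat_lit 1010)),(k2,(nat_lit 1196)),(k4,(nat_lit 1264)),(k8,(nat_lit 1314))],[(k9,
    (nat_lit 864)),(k1,(nat_lit 928)),(k3,(nat_lit 1196)),(k7,(nat_lit 1196)),(k5,(nat_lit 1264))],[(k2,
    (nat_lit 1128)),(k4,(nat_lit 1196)),(k8,(nat_lit 1496)),(k6,(nat_lit 1578)),(k0,(nat_lit 1596))],[(k5,
    (nat_lit 1010)),(k9,(nat_lit 1246)),(k7,(nat_lit 1578)),(k1,(nat_lit 1596)),(k3,(nat_lit 1614))],[(k4,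
    (nat_lit 864)),(k8,(nat_lit 878)),(k0,(nat_lit 1228)),(k6,(nat_lit 1246)),(k2,(nat_lit 1432))],[(k9,
    (nat_lit 878)),(k3,(nat_lit 960)),(k1,(nat_lit 1228)),(k5,(nat_lit 1314)),(k7,(nat_lit 1496))]]
    [] k0
    [[k2,k0,k1,k0,k0],[k1,k1,k1,k0,k0],[k1,k1,k0,k0,k1],[k1,k1,k1,k0,k1],[k1,k1,k0,k0,k2],[k2,k0,k2,k0,k0],[k2,k0,k1,
    k0,k1],[k1,k1,k2,k0,k0],[k1,k0,k2,k0,k0],[k1,k0,k1,k1,k0],[k1,k0,k2,k1,k0],[k1,k0,k1,k0,k1],[k1,k0,k2,k0,k1],[k1,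
    k0,k0,k1,k1],[k1,k0,k0,k0,k2],[k1,k0,k1,k0,k2],[k1,k0,k0,k0,k3],[k0,k1,k2,k0,k0],[k0,k1,k1,k1,k0],[k0,k1,k1,k0,
    k1],[k0,k1,k2,k0,k1],[k0,k1,k1,k1,k1],[k0,k1,k0,k1,k1],[k0,k1,k0,k0,k2],[k0,k1,k1,k0,k2],[k0,k1,k0,k1,k2],[k0,k1,
    k0,k0,k3],[k0,k0,k3,k0,k0],[k0,k0,k2,k1,k0],[k0,k0,k2,k0,k1],[k0,k0,k1,k2,k0],[k0,k0,k1,k1,k1],[k0,k0,k1,k1,k2],
    [k0,k0,k1,k0,k2],[k0,k0,k1,k0,k3],[k0,k0,k0,k1,k2],[k0,k0,k0,k0,k3],[k0,k0,k0,k0,k4]]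
    [.ref (nat_lit 205) k1 [(z1,[y1,y4,y6,z6]),(z1,[y3,z3,z2,z3]),(z1,[z1,y1,z1,y1])],.ref (nat_lit 232) k0 [(z1,[z0,
    z1]),(z1,[z1,z0,z1,y1]),(z1,[z0,y1,y1,z1])],.ref (nat_lit 250) k7 [(z1,[z1,z3,z4,y4]),(z1,[z0,y2,y3,z3]),(z1,[z0,
    y1,y1,z1])],.contra [y1,z0,z0,z1],.ref (nat_lit 251) k7 [(z1,[z1,z4,z5,y5]),(z1,[z0,y2,y3,z3]),(z1,[z0,y1,y1,
    z1])],.ref (nat_lit 246) k2 [(z2,[z1,z0,z2,y2]),(z2,[z3,z4,z6,y6]),(z2,[y3,z0,y2,z6])],.ref (nat_lit 246) k2 [(z3,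
    [z1,y1,z1,y1]),(z1,[z1,z1,z1,y1]),(z1,[y1,z1,z1,z1])],.ref (nat_lit 247) k0 [(z1,[z0,z1]),(z1,[z1,z1,z2,y2]),(z1,
    [z0,y1,y1,z1])],.contra [z1,z1,z2,y2],.ref (nat_lit 247) k0 [(z1,[z0,z1]),(z1,[y1,z0,z0,z1]),(z1,[z0,y1,y1,z1])],
    .ref (nat_lit 232) k0 [(z1,[z0,z1]),(z1,[y1,y1,y1,z2]),(z1,[z0,y1,y1,z1])],.contra [z1,z1,z1,y1],
    .ref (nat_lit 246) k2 [(z1,[z1,z1,z2,y2]),(z1,[z3,z5,z6,y6]),(z1,[y3,y3,y4,z6])],.ref (nat_lit 252) k5 [(z1,[z1,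
    z3,z4,y4]),(z1,[z0,y1,y1,z1]),(z1,[z0,y2,y3,z3])],.ref (nat_lit 205) k1 [(z1,[y1,y4,y5,z5]),(z1,[y3,z3,z5]),(z1,
    [z1,y1])],.ref (nat_lit 246) k2 [(z2,[z1,z0,z1,y1]),(z2,[z3,z4,z3,y3]),(z2,[y3,z0,z1,z3])],
    .ref (nat_lit 246) k2 [(z3,[z1,y1]),(z1,[z1,z1]),(z1,[y1,z1,z2])],.ref (nat_lit 253) k5 [(z1,[y1,z3,z4,y3]),(z1,
    [z0,y1,y1,z1]),(z1,[z0,y2,y3,z3])],.ref (nat_lit 246) k2 [(z2,[y1,y1,z0,z1]),(z2,[y3,z1,z0,z3]),(z2,[z3,z3,z4,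
    y3])],.contra [z1,z1,z1,y1],.ref (nat_lit 252) k5 [(z1,[y1,z2,z3,y2]),(z1,[z0,y1,y1,z1]),(z1,[z0,y2,y3,z3])],
    .contra [y1,z0,z0,z1],.ref (nat_lit 246) k2 [(z1,[y1,z0,z1]),(z1,[y3,z2,z3]),(z1,[z3,z0,y1])],
    .ref (nat_lit 232) k0 [(z1,[z0,z1]),(z1,[z1]),(z1,[z0,y1,y1,z1])],.ref (nat_lit 247) k0 [(z1,[z0,z1]),(z1,[z1,z1,
    z1,y1]),(z1,[z0,y1,y1,z1])],.contra [y1,z0,z1],.contra [y1,z0,z1],.contra [y1,y2,y3,z3],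
    .ref (nat_lit 251) k7 [(z1,[y1,z3,z4,y3]),(z1,[z0,y2,y3,z3]),(z1,[z0,y1,y1,z1])],.contra [z1,z1,z1,y1],
    .ref (nat_lit 254) k7 [(z1,[y1,z6,z8,y6]),(z1,[z0,y2,y3,z3]),(z1,[z0,y1,y1,z1])],.contra [z1,z1,z1,y1],
    .ref (nat_lit 232) k0 [(z1,[z0,z1]),(z1,[y1,y1,z0,z1]),(z1,[z0,y1,y1,z1])],.contra [z1,z1,z1,y1],
    .ref (nat_lit 246) k2 [(z1,[z1,z1,z1,y1]),(z1,[z3,z5,z3,y3]),(z1,[y3,y3,y1,z3])],.ref (nat_lit 247) k0 [(z1,[z0,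
    z1]),(z1,[y1,z0,z1]),(z1,[z0,y1,y1,z1])],.contra [z1,z1],.ref (nat_lit 246) k2 [(z2,[z1]),(z2,[z3,z4]),(z2,[y3,z0,
    z4])]],
    .leafM k5 [k4,k0,k1,k2,k3] [(z1,[z1]),(z1,[y1,y2,z2])] [],
    .geo z3 k4 [(y3,z9),(z3,y3),(z7,y9),(z2,z0),(z0,z3)] [(z1,[z3]),(z1,[z0,z3]),(z1,[z0,z0,z1]),(z1,[y3,y3,y1,z3]),(z1,
    [])] k8,
    .geo z1 k4 [(y3,z5),(y1,z2),(z5,y6),(z2,y2),(z0,z1)] [(z1,[z1]),(z1,[z0,z1]),(z1,[z0,z0,z1]),(z1,[y1,y1,y1,z1]),(z1,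
    [])] k8,
    .geo z2 k4 [(y2,z6),(z2,y2),(z3,y3),(z3,y3),(z0,z2)] [(z1,[z2]),(z1,[z0,z2]),(z1,[z0,z0,z1]),(z1,[y2,y2,y1,z2]),(z1,
    [])] k8,
    .geo z1 k4 [(y2,z6),(z2,y3),(z1,y1),(z2,y3),(z0,z1)] [(z1,[z1]),(z1,[z0,z1]),(z1,[z0,z0,z1]),(z1,[y1,y1,y1,z1]),(z1,
    [])] k9]

noncomputable def cT5_0_n1_1 : List TN :=
  [.leafM k1 [k0,k1,k2,k3,k4] [(z1,[z0,z1,z1])] [],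
    .leafM k1 [k0,k1,k2,k3,k4] [(z2,[z0,z1,z1])] [],
    .geo z1 k4 [(y2,z5),(z2,y2),(z1,y1),(z2,y3),(z0,z1)] [(z1,[z1]),(z1,[z0,z1]),(z1,[z0,z0,z1]),(z1,[y1,y1,y1,z1]),(z1,
    [])] k7,
    .geo z7 k4 [(z3,z0),(z5,z0),(z4,z0),(z9,y7),(z0,z7)] [(z1,[z1]),(z1,[z0,z1]),(z1,[z0,z0,z1]),(z1,[y1,y1,y1,z7]),(z1,
    [])] k8,
    .tor k1 false k0 [(z1,[z0,z2,z1]),(z1,[z0,y1,y1,z1]),(z1,[z0,y1,z0,z1])],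
    .lp [k134,k118,k164,k110,k192] [k29,k29,k37,k37,k14,k14,k41,k41,k0,k0] k0 [[k0,k0,k0,k0,k0,k0,k24,k0,k14],[k0,k0,k0,
    k4],[k4],[k0,k0,k0,k0,k0,k0,k0,k6],[k0,k0,k0,k0,k0,k0,k8],[k0,k0,k0,k0,k0,k0,k0,k0,k0,k14],[k0,k0,k6],[k0,k24,k0,
    k0,k0,k8],[k0,k0,k0,k0,k14],[k0,k14]] (nat_lit 480) k6
    [[(k0,k120),(k6,k122),(k2,k126),(k4,k163),(k8,k163)],[(k1,k120),(k7,k122),(k3,k126),(k9,k139),(k5,k153)],[(k2,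
    k114),(k0,k126),(k6,k138),(k4,k141),(k8,k169)],[(k3,k114),(k7,k114),(k1,k126),(k5,k141),(k9,k161)],[(k6,k131),(k2,
    k141),(k0,k153),(k4,k164),(k8,k178)],[(k7,k137),(k3,k141),(k1,k163),(k5,k164),(k9,k170)],[(k2,k114),(k6,k118),(k0,
    k122),(k4,k137),(k8,k137)],[(k7,k118),(k1,k122),(k5,k131),(k3,k138),(k9,k151)],[(k0,k139),(k6,k151),(k2,k161),(k4,
    k170),(k8,k192)],[(k7,k137),(k1,k163),(k3,k169),(k5,k178),(k9,k192)]]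
    [] k0
    [[k3,k0,k0,k0,k0],[k2,k1,k0,k0,k0],[k2,k0,k1,k0,k0],[k2,k0,k0,k1,k0],[k2,k0,k0,k0,k1],[k1,k2,k0,k0,k0],[k1,k1,k1,
    k0,k0],[k1,k1,k0,k1,k0],[k1,k1,k0,k0,k1],[k1,k0,k1,k1,k0],[k1,k2,k0,k1,k0],[k1,k0,k0,k2,k0],[k1,k0,k0,k1,k1],[k0,
    k3,k0,k0,k0],[k0,k4,k0,k0,k0],[k0,k2,k1,k0,k0],[k0,k2,k0,k1,k0],[k0,k2,k0,k0,k1],[k0,k1,k2,k0,k0],[k0,k1,k1,k1,
    k0],[k0,k1,k0,k2,k0],[k0,k1,k0,k1,k1],[k0,k0,k2,k1,k0],[k0,k0,k1,k2,k0],[k0,k0,k1,k1,k1],[k0,k0,k0,k3,k0],[k0,k0,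
    k0,k4,k0],[k0,k0,k0,k2,k1]]
    [.ref (nat_lit 257) k1 [(z1,[z0,y1,y4,z1]),(z1,[z0,z0,z1]),(z1,[y1,z3,z9])],.ref (nat_lit 258) k6 [(z1,[y3,z1,
    z3]),(z1,[y1,z0,z1]),(z1,[z3,y1,y4,z1])],.ref (nat_lit 259) k1 [(z1,[z0,y1,y4,z1]),(z1,[z0,z0,z1]),(z1,[y1,z1,z2,
    z1])],.ref (nat_lit 209) k2 [(z1,[y1,z2]),(z1,[z1]),(z1,[z0,z0,z1])],.ref (nat_lit 260) k2 [(z1,[y1,z2]),(z1,[z1,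
    y1]),(z1,[z0,z0,z1])],.ref (nat_lit 247) k1 [(z1,[z0,y1,y4,z1]),(z1,[z0,z0,z1]),(z1,[y1,z1,z3])],
    .ref (nat_lit 261) k1 [(z1,[z0,y1,y4,z1]),(z1,[z0,z0,z1]),(z1,[y1,z0,y1,z1])],.contra [z1,z0,y1],
    .ref (nat_lit 262) k4 [(z1,[y1,z1,z3]),(z1,[y3,z1,z1,z2]),(z1,[z1,y1,y1])],.ref (nat_lit 247) k1 [(z1,[z0,y1,y4,
    z1]),(z1,[z0,z0,z1]),(z1,[y1,z0,z0,z1])],.ref (nat_lit 233) k1 [(z1,[z0,y1,y4,z1]),(z1,[z0,z0,z1]),(z1,[y1,z1,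
    z4])],.ref (nat_lit 263) k2 [(z1,[y1,z1]),(z1,[z1]),(z1,[z0,z0,z1])],.ref (nat_lit 262) k4 [(z2,[y1,z1,z4]),(z2,
    [y3,y1,y4,z4]),(z2,[z1,y1])],.contra [z1,y1,y4,z1],.ref (nat_lit 262) k4 [(z2,[z1]),(z2,[z3,y4,y16,z4]),(z2,[y1,
    z0,z4])],.ref k138 k3 [(z1,[y1,y1,z1,z1]),(z1,[z3,y2,y8,z2]),(z1,[z1,z1,z4,y1])],.contra [z1,z0,y1],
    .ref (nat_lit 233) k1 [(z1,[z0,y1,y4,z1]),(z1,[z0,z0,z1]),(z1,[z1])],.ref (nat_lit 264) k3 [(z1,[y1,y2,y1,z2]),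
    (z1,[z3,y1,y4,z1]),(z1,[z1,z2,z8,y2])],.contra [z1,z0,y1],.contra [z1,z0,y1],.contra [z1,z0,y1],.ref k138 k3 [(z1,
    [y1,y2,y2,z2]),(z1,[z3,z1,z1,y1]),(z1,[z1,z2,z7,y2])],.contra [z1,z1,z2,y1],.ref (nat_lit 233) k1 [(z1,[z0,y1,y4,
    z1]),(z1,[z0,z0,z1]),(z1,[z1,z1,z3,y1])],.contra [y1,y1,y1,z1],.ref (nat_lit 262) k4 [(z2,[y1,z0,z4]),(z2,[y3,y4,
    y4,z4]),(z2,[z1])],.ref (nat_lit 265) k1 [(z1,[z0,y1,y4,z1]),(z1,[z0,z0,z1]),(z1,[z1,z0,y2])]],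
    .lp [(nat_lit 580),(nat_lit 622),(nat_lit 662),(nat_lit 338),(nat_lit 670)] [k45,k45,k24,k24,k4,k4,(nat_lit 206),k126,
    k0,k0] k0 [[k0,k0,k144,k0,k0,k0,k0,k0,k88],[k0,k0,k0,k0,k0,k82],[k0,k0,k0,k0,k0,k0,k0,k0,k48],[k0,k144],[k82,k0,
    k0,k0,k0,k0,k122],[k0,k0,k0,k0,k0,k0,k0,k0,k0,k160],[],[k0,k0,k0,k0,k0,k122],[k0,k0,k0,k0,k160],[k0,k88,k0,
    k48]] (nat_lit 1920) k6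
    [[(k6,(nat_lit 419)),(k0,(nat_lit 492)),(k2,(nat_lit 553)),(k8,(nat_lit 625)),(k4,(nat_lit 781))],[(k5,
    (nat_lit 477)),(k1,(nat_lit 492)),(k7,(nat_lit 581)),(k3,(nat_lit 601)),(k9,(nat_lit 625))],[(k6,(nat_lit 440)),
    (k4,(nat_lit 560)),(k0,(nat_lit 601)),(k8,(nat_lit 734)),(k2,(nat_lit 766))],[(k7,(nat_lit 520)),(k1,
    (nat_lit 553)),(k5,(nat_lit 642)),(k9,(nat_lit 646)),(k3,(nat_lit 766))],[(k6,(nat_lit 460)),(k0,(nat_lit 477)),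
    (k2,(nat_lit 642)),(k4,(nat_lit 662)),(k8,(nat_lit 714))],[(k7,(nat_lit 540)),(k9,(nat_lit 544)),(k3,
    (nat_lit 560)),(k5,(nat_lit 662)),(k1,(nat_lit 781))],[(k8,(nat_lit 384)),(k6,(nat_lit 460)),(k2,(nat_lit 520)),
    (k4,(nat_lit 540)),(k0,(nat_lit 581))],[(k1,(nat_lit 419)),(k3,(nat_lit 440)),(k5,(nat_lit 460)),(k7,
    (nat_lit 460)),(k9,(nat_lit 464))],[(k6,(nat_lit 464)),(k4,(nat_lit 544)),(k0,(nat_lit 625)),(k2,(nat_lit 646)),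
    (k8,(nat_lit 670))],[(k7,(nat_lit 384)),(k1,(nat_lit 625)),(k9,(nat_lit 670)),(k5,(nat_lit 714)),(k3,
    (nat_lit 734))]]
    [] k0
    [[k3,k0,k0,k0,k0],[k2,k1,k0,k0,k0],[k2,k0,k1,k0,k0],[k2,k0,k0,k1,k0],[k2,k0,k0,k0,k1],[k1,k1,k1,k0,k0],[k1,k1,k0,
    k1,k0],[k1,k1,k0,k0,k1],[k1,k0,k1,k1,k0],[k1,k0,k0,k2,k0],[k1,k0,k1,k2,k0],[k1,k0,k0,k2,k1],[k1,k0,k0,k1,k1],[k1,
    k0,k1,k1,k1],[k1,k0,k1,k0,k1],[k0,k2,k0,k1,k0],[k0,k1,k2,k0,k0],[k0,k1,k1,k1,k0],[k0,k1,k0,k2,k0],[k0,k1,k0,k3,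
    k0],[k0,k1,k0,k1,k1],[k0,k1,k0,k2,k1],[k0,k0,k2,k1,k0],[k0,k0,k1,k2,k0],[k0,k0,k1,k2,k1],[k0,k0,k1,k1,k1],[k0,k0,
    k0,k3,k0],[k0,k0,k0,k4,k0],[k0,k0,k0,k3,k1],[k0,k0,k0,k2,k1],[k0,k0,k0,k2,k2],[k0,k0,k0,k1,k2]]
    [.ref k87 k5 [(z1,[y1,z3]),(z1,[z0,y1,z1])],.ref k176 k7 [(z1,[z1,y2]),(z1,[z0,z1])],.ref (nat_lit 234) k9 [(z1,
    [z1,y2]),(z1,[y1,z1,z1])],.contra [z1,y1],.ref k177 k1 [(z1,[y1,y1,z1]),(z1,[z0,z1])],.ref (nat_lit 244) k5 [(z1,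
    [y1,z1]),(z1,[z0,y1,z1])],.contra [z1,y1],.ref (nat_lit 245) k1 [(z1,[y1,y1,z1]),(z1,[z0,z1])],.contra [z1,y1],
    .contra [z1,y1],.ref (nat_lit 245) k1 [(z1,[z1,y2]),(z1,[z0,z1])],.ref (nat_lit 244) k5 [(z1,[z1,z0,y1]),(z1,[z0,
    y1,z1])],.contra [z1,y1],.contra [y1,z0,z1],.ref (nat_lit 249) k4 [(z1,[y1,y1,z1]),(z1,[z1])],
    .ref (nat_lit 210) k8 [(z1,[y1,z1]),(z1,[z0,y1,z1])],.ref k157 k2 [(z1,[y1,y1,z1]),(z1,[z0,z1])],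
    .ref (nat_lit 244) k8 [(z1,[y1,z1]),(z1,[z0,y1,z1])],.ref (nat_lit 234) k4 [(z1,[z1,y2]),(z1,[y1,z1,z1])],
    .ref (nat_lit 255) k4 [(z1,[z1,y3]),(z1,[y1,z2,z1])],.ref (nat_lit 249) k5 [(z1,[z1,z1,y1]),(z1,[z0,y1,z1])],
    .ref (nat_lit 234) k9 [(z1,[y1,y1,z1]),(z1,[z1])],.ref k153 k8 [(z1,[y1,z1]),(z1,[z0,y1,z1])],.ref k176 k1 [(z1,
    [z1,y2]),(z1,[z0,z1])],.ref k176 k7 [(z1,[y1,y1,z1]),(z1,[z0,z1])],.ref (nat_lit 245) k7 [(z1,[y1,y1,z1]),(z1,[z0,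
    z1])],.ref k87 k8 [(z1,[y1,z3]),(z1,[z0,y1,z1])],.ref (nat_lit 256) k5 [(z2,[z1]),(z1,[z0,y1,z1])],
    .ref (nat_lit 266) k7 [(z1,[y1,y1,z1]),(z1,[z0,z1])],.ref k177 k7 [(z1,[y1,y1,z1]),(z1,[z0,z1])],
    .ref (nat_lit 244) k5 [(z2,[z1,z2,y2]),(z1,[z0,y1,z1])],.ref k144 k5 [(z1,[z1,z2,y2]),(z1,[z0,y1,z1])]],
    .lp [k146,(nat_lit 260),(nat_lit 214),(nat_lit 214),(nat_lit 240)] [k57,k57,k0,k0,k23,k23,k23,k23,k15,k5] k0 [[k0,k0,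
    k0,k0,k0,k0,k18],[k0,k0,k0,k0,k0,k0,k0,k0,k0,k34],[k0,k0,k0,k0,k32],[k0,k0,k0,k0,k0,k0,k0,k14],[k0,k0,k0,k0,k0,k0,
    k52],[k0,k0,k0,k32],[k0,k0,k14],[k0,k18,k0,k0,k0,k52],[k34]] (nat_lit 720) k5
    [[(k0,k180),(k4,k180),(k6,k180),(k8,k188),(k2,(nat_lit 203))],[(k1,k180),(k5,k180),(k7,k180),(k9,k180),(k3,
    (nat_lit 203))],[(k0,(nat_lit 203)),(k8,(nat_lit 211)),(k4,(nat_lit 237)),(k6,(nat_lit 255)),(k2,(nat_lit 260))],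
    [(k1,(nat_lit 203)),(k7,(nat_lit 205)),(k5,(nat_lit 237)),(k3,(nat_lit 260)),(k9,(nat_lit 269))],[(k0,k180),(k6,
    (nat_lit 200)),(k8,(nat_lit 222)),(k2,(nat_lit 237)),(k4,(nat_lit 246))],[(k1,k180),(k9,k180),(k7,(nat_lit 214)),
    (k3,(nat_lit 237)),(k5,(nat_lit 246))],[(k0,k180),(k2,(nat_lit 205)),(k4,(nat_lit 214)),(k8,(nat_lit 222)),(k6,
    (nat_lit 266))],[(k1,k180),(k5,(nat_lit 200)),(k9,(nat_lit 232)),(k3,(nat_lit 255)),(k7,(nat_lit 266))],[(k0,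
    k180),(k4,k180),(k6,(nat_lit 232)),(k8,(nat_lit 240)),(k2,(nat_lit 269))],[(k1,k188),(k3,(nat_lit 211)),(k5,
    (nat_lit 222)),(k7,(nat_lit 222)),(k9,(nat_lit 240))]]
    [] k0
    [[k3,k0,k0,k0,k0],[k2,k1,k0,k0,k0],[k2,k0,k1,k0,k0],[k2,k0,k0,k1,k0],[k2,k0,k0,k0,k1],[k1,k2,k0,k0,k0],[k1,k1,k1,
    k0,k0],[k1,k1,k0,k1,k0],[k1,k1,k0,k0,k1],[k1,k0,k2,k0,k0],[k1,k0,k1,k1,k0],[k1,k0,k1,k0,k1],[k1,k0,k0,k2,k0],[k1,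
    k0,k0,k1,k1],[k1,k0,k0,k0,k2],[k0,k1,k1,k1,k0],[k0,k1,k1,k0,k1],[k0,k1,k0,k1,k1],[k0,k0,k2,k1,k0],[k0,k0,k2,k0,
    k1],[k0,k0,k1,k2,k0],[k0,k0,k1,k1,k1],[k0,k0,k1,k0,k2],[k0,k0,k0,k1,k2]]
    [.ref k107 k0 [(z1,[z1])],.ref k199 k0 [(z1,[z1,y1])],.ref (nat_lit 242) k8 [(z1,[z1])],
    .ref (nat_lit 242) k0 [(z1,[z1])],.ref k199 k8 [(z1,[z1,y1])],.ref k199 k7 [(z1,[z1,y1])],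
    .ref (nat_lit 243) k2 [(z1,[y1,z1])],.ref (nat_lit 267) k2 [(z1,[y1,z1])],.ref (nat_lit 243) k5 [(z1,[y1,z1])],
    .ref (nat_lit 242) k1 [(z1,[z1])],.ref (nat_lit 267) k4 [(z1,[y1,z1])],.ref (nat_lit 267) k5 [(z1,[y1,z1])],
    .ref (nat_lit 242) k3 [(z1,[z1])],.ref (nat_lit 243) k1 [(z1,[y1,z1])],.ref k199 k2 [(z1,[z1,y1])],
    .ref (nat_lit 243) k0 [(z1,[y1,z1])],.ref (nat_lit 267) k0 [(z1,[y1,z1])],.ref (nat_lit 267) k1 [(z1,[y1,z1])],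
    .ref k199 k1 [(z1,[z1,y1])],.ref (nat_lit 242) k9 [(z1,[z1])],.ref k199 k3 [(z1,[z1,y1])],
    .ref (nat_lit 243) k4 [(z1,[y1,z1])],.ref (nat_lit 242) k2 [(z1,[z1])],.ref k199 k6 [(z1,[z1,y1])]]]

/-- the nodes with numbers from 249 -/
noncomputable def cT5_0_n1 : List TN :=
  cT5_0_n1_0 ++ cT5_0_n1_1

theorem cT5_0_k1 : allI (chkT 5 cT5_0_w tt5 cT5_0_s (blkF [] cT5_0_D)) cT5_0_n1 249 = true := by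
  decide +kernel

end Pool.Agent.Lib_MP_fa6e45
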