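import Pool.Agent.Lib_MP_fa6e45.CGA
import Pool.Agent.Lib_MP_fa6e45.CG5_0_0
import Pool.Agent.Lib_MP_fa6e45.CG5_0_1

/-!
MP_fa6e45_co, stage 5: certificates (captain, generated by a program).
-/

namespace Pool.Agent.Lib_MP_fa6e45

/-- the certificate -/
noncomputable def cT5_0 : CertT :=
  ⟨cT5_0_w, cT5_0_s, cT5_0_D,
    cT5_0_n0 ++ cT5_0_n1⟩

theorem cT5_0_ok : chkC 5 tt5 cT5_0 = true := by
  refine chkC_of (by decide +kernel) (by decide +kernel) ?_
  refine allI_app (k := 249) cT5_0_k0 (by decide +kernel) ?_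
  exact cT5_0_k1

/-- the certificates of this file -/
noncomputable def lT5_0 : List CertT := [cT5_0]

theorem gT5_0 : allF (chkC 5 tt5) lT5_0 = true := by
  unfold lT5_0
  change (bif chkC 5 tt5 cT5_0 then true else false) = true
  rw [cT5_0_ok]
  rfl

end Pool.Agent.Lib_MP_fa6e45
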