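import Pool.Agent.Lib_MP_fa6e45.CSTT
import Pool.Agent.Lib_MP_fa6e45.HK

/-!
MP_fa6e45_co, stage 5: certificates (captain, generated by a program).
-/

namespace Pool.Agent.Lib_MP_fa6e45

/-- classes `0 0 0 0 0`, types `C0 C0 C0 C0 C0` -/
noncomputable def cT5_0_w : List ℕ := [k4,k4,k4,k4,k4]

/-- symmetries -/
noncomputable def cT5_0_s : List (Bool × ℕ × List ℕ) :=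
  [(false,k0,[k0,k1,k2,k3,k4]),(false,k3,[k3,k4,k0,k1,k2]),(false,k1,[k1,k2,k3,k4,k0]),(true,k3,[k3,k2,k1,k0,k4]),
    (false,k4,[k4,k0,k1,k2,k3]),(false,k2,[k2,k3,k4,k0,k1]),(true,k4,[k4,k3,k2,k1,k0]),(true,k1,[k1,k0,k4,k3,k2]),
    (true,k0,[k0,k4,k3,k2,k1]),(true,k2,[k2,k1,k0,k4,k3])]

/-- equations of the nodes -/
noncomputable def cT5_0_D : List (List (List Eqn)) :=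
  [[[([z3,z0,z0,z0,z0],z2),([z0,z3,z0,z0,z0],z2),([z0,z0,z3,z0,z0],z2)],[([z3,z0,z0,z0,z0],z2),([z0,z3,z0,z0,z0],z2),
    ([z0,z0,z1,z0,z1],z1)],[([z3,z0,z0,z0,z0],z1),([z0,z3,z0,z0,z0],z2),([z0,z0,z3,z0,z3],z4)],[([z3,z0,z0,y3,z0],y1),
    ([z0,z3,z0,z0,z0],z2),([z0,z0,z1,z2,z0],z2)],[([z3,z0,z0,z0,z0],z1),([z0,z3,z0,z0,z0],z2),([z0,z0,z3,z3,z0],z4)],
    [([z3,z0,z0,y3,z0],y1),([z0,z1,z0,z2,z0],z2),([z0,z0,z3,z0,z0],z2)],[([z3,z0,z0,z0,z0],z2),([z0,z3,z0,z3,z3],z5)],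
    [([z3,z0,z0,z0,z0],z2),([z0,z1,z1,z0,z0],z1)],[([z3,z0,z0,z0,z0],z2),([z0,z3,z0,z0,z3],z4)],[([z3,z0,z0,z0,z0],
    z1),([z0,z3,z0,z0,z0],z2),([z0,z0,z3,z0,z0],z2)],[([z3,z0,z0,z0,z0],z2),([z0,z1,z0,z0,z1],z1),([z0,z0,z1,z0,y1],
    z0)],[([z3,z0,z0,z0,y3],y1),([z0,z3,z0,z0,z0],z2),([z0,z0,z3,z0,z3],z4)]],
    [[([z2,z0,z0,z0,z0],z1),([z0,z3,z0,z0,z0],z2),([z0,z0,z2,z0,z0],z1)],[([z3,z0,z0,z0,z0],z2),([z0,z1,z0,z0,z1],z1),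
    ([z0,z0,z3,z0,y6],y2)],[([z3,z0,z0,z0,y6],y2),([z0,z1,z0,z0,z2],z2),([z0,z0,z1,z0,z1],z1)],[([z3,z0,z0,z0,z0],z2),
    ([z0,z1,z0,z0,z1],z1),([z0,z0,z6,z0,y3],z2)],[([z1,z0,z0,z0,y2],y1),([z0,z3,z0,z0,z0],z2),([z0,z0,z1,z0,z2],z2)],
    [([z3,z0,z0,z0,z0],z2),([z0,z1,z0,z0,z1],z1)],[([z3,z0,z0,z0,z0],z1),([z0,z3,z0,z0,z3],z4),([z0,z0,z3,z0,z0],z2)],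
    [([z1,z0,z0,y1,z0],z0),([z0,z1,z0,z1,z0],z1),([z0,z0,z3,z3,z0],z4)],[([z3,z0,z0,z0,y3],y1),([z0,z3,z0,z0,z3],z4),
    ([z0,z0,z3,z0,z3],z4)],[([z9,z0,z0,z0,z0],z4),([z0,z3,z0,z0,z3],z4),([z0,z0,z9,z0,z0],z5)],[([z3,z0,z0,y6,z0],y2),
    ([z0,z1,z0,z1,z0],z1),([z0,z0,z1,z2,z0],z2)],[([z3,z0,z0,y3,z0],y1),([z0,z3,z0,z3,z0],z4),([z0,z0,z3,z3,z0],z4)]],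
    [[([z3,z0,z0,z0,y6],y2),([z0,z1,z0,z0,z1],z1),([z0,z0,z1,z0,z2],z2)],[([z3,z0,z0,z0,y6],y2),([z0,z3,z0,z0,z0],z2),
    ([z0,z0,z1,z0,z1],z1)],[([z2,z0,z0,z0,z0],z1),([z0,z3,z0,z0,z0],z2),([z0,z0,z3,z0,z3],z4)],[([z1,z0,z0,y2,z0],z0),
    ([z0,z1,z0,z1,z0],z1),([z0,z0,z3,z6,z0],z4)],[([z3,z0,z0,z0,z0],z2),([z0,z1,z0,z1,z0],z1)],[([z3,z0,z0,y6,z0],y1),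
    ([z0,z3,z0,z6,z0],z4),([z0,z0,z3,z3,z0],z4)],[([z3,z0,z0,z0,y6],y4),([z0,z3,z0,z0,z6],z7),([z0,z0,z3,z0,z3],z4)],
    [([z1,z0,z0,y2,z0],z0),([z0,z3,z0,z6,z0],z4),([z0,z0,z1,z1,z0],z1)],[([z1,z0,z0,y3,z0],y1),([z0,z3,z0,z6,z0],z4),
    ([z0,z0,z1,z2,z0],z2)],[([z1,z0,z0,z0,y3],y1),([z0,z3,z0,z0,z6],z4),([z0,z0,z1,z0,z2],z2)],[([z2,z0,z0,y3,z0],z0),
    ([z0,z3,z0,z6,z0],z4),([z0,z0,z2,z1,z0],z2)],[([z3,z0,z0,z0,y3],y2),([z0,z3,z0,z0,z0],z2),([z0,z0,z3,z0,z0],z1)]],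
    [[([z3,z0,z0,y3,z0],y2),([z0,z3,z0,z0,z0],z1),([z0,z0,z3,z6,z0],z8)],[([z3,z0,z0,z0,z0],z1),([z0,z2,z0,z0,z2],z3),
    ([z0,z0,z2,z0,z0],z1)],[([z1,z0,z0,y3,z0],z0),([z0,z3,z0,z6,z0],z4),([z0,z0,z1,z2,z0],z1)],[([z3,z0,z0,z0,y3],y1),
    ([z0,z3,z0,z0,z0],z2),([z0,z0,z3,z0,z0],z2)],[([z3,z0,z0,z0,y3],y1),([z0,z3,z0,z0,z6],z4),([z0,z0,z3,z0,z0],z4)],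
    [([z3,z0,z0,z0,z0],z2),([z0,z6,z0,z3,z0],z4)],[([z3,z0,z0,y9,z0],y5),([z0,z1,z0,z2,z0],z2),([z0,z0,z1,z2,z0],z2)],
    [([z3,z0,z0,z0,z0],z2),([z0,z2,z0,z0,z1],z2),([z0,z0,z1,z0,y1],z0)],[([z1,z0,y1,z0,z0],z0),([z0,z1,z2,z0,z0],z2),
    ([z0,z0,z0,z3,z0],z1)],[([z3,z0,z0,z0,z0],z1),([z0,z6,z0,z0,z0],z5),([z0,z0,z3,z0,z0],z2)],[([z1,z0,z0,y2,z0],y1),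
    ([z0,z3,z0,z3,z0],z4),([z0,z0,z1,z2,z0],z2)],[([z1,z0,z0,y1,z0],z0),([z0,z3,z0,z0,z0],z1),([z0,z0,z1,z2,z0],z2)]],
    [[([z1,z0,z0,y3,z0],y2),([z0,z3,z0,z6,z0],z7),([z0,z0,z1,z2,z0],z2)],[([z3,z0,z0,z0,z0],z2),([z0,z2,z0,z0,z1],z2),
    ([z0,z0,z6,z0,y9],y4)],[([z3,z0,z0,z0,z0],z2),([z0,z3,z0,z0,z3],z4),([z0,z0,z1,z0,y2],y1)],[([z3,z0,z0,z0,z0],z2),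
    ([z0,z9,z0,z0,z3],z7),([z0,z0,z9,z0,y6],z4)],[([z1,z0,z0,y4,z0],y2),([z0,z3,z0,z9,z0],z7),([z0,z0,z1,z2,z0],z2)],
    [([z3,z0,z0,z0,z0],z1),([z0,z3,z0,z0,z0],z2),([z0,z0,z3,z3,z0],z2)],[([z3,z0,z0,z0,z0],z2),([z0,z3,z0,z0,z3],z5),
    ([z0,z0,z3,z0,y6],y4)],[([z3,z0,y3,y3,z0],y1),([z0,z3,z6,z6,z0],z8)],[([z3,z0,z0,z0,y3],y1),([z0,z1,z0,z0,z2],z2),
    ([z0,z0,z3,z0,z0],z2)],[([z1,z0,z0,y2,z0],y1),([z0,z1,z0,z2,z0],z2),([z0,z0,z3,z3,z0],z4)],[([z1,z0,z0,z0,y2],y1),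
    ([z0,z1,z0,z0,z2],z2),([z0,z0,z3,z0,z3],z4)],[([z3,z0,z0,y6,z0],y2),([z0,z1,z0,z2,z0],z2),([z0,z0,z1,z1,z0],z1)]],
    [[([z1,z0,z0,z0,y1],z0),([z0,z3,z0,z0,z0],z2),([z0,z0,z3,z0,z0],z1)],[([z3,z0,z0,z0,z0],z1),([z0,z6,z0,z0,z6],z7),
    ([z0,z0,z3,z0,z0],z2)],[([z1,z0,z0,z0,y4],y2),([z0,z1,z0,z0,z2],z2),([z0,z0,z3,z0,z9],z7)],[([z3,z0,z0,z0,z0],z1),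
    ([z0,z3,z0,z0,z0],z2),([z0,z0,z3,z0,z3],z2)],[([z3,z0,z0,z0,y6],y4),([z0,z1,z0,z0,z2],z2),([z0,z0,z3,z0,z3],z5)],
    [([z1,z0,z0,y4,z0],y2),([z0,z1,z0,z2,z0],z2),([z0,z0,z3,z9,z0],z7)],[([z3,z0,z0,z0,z0],z2),([z0,z2,z0,z1,z0],z2)],
    [([z3,z0,z0,z0,z0],z2),([z0,z2,z0,z0,z1],z2),([z0,z0,z6,z0,y3],z2)],[([z1,z0,z0,z0,y1],z0),([z0,z3,z0,z0,z0],z1),
    ([z0,z0,z1,z0,z2],z2)],[([z1,z0,z0,z0,y2],y1),([z0,z3,z0,z0,z3],z4),([z0,z0,z1,z0,z2],z2)],[([z1,z0,z0,y1,z0],z0),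
    ([z0,z3,z0,z0,z0],z2),([z0,z0,z1,z2,z0],z2)],[([z3,z0,z0,z0,z0],z1),([z0,z3,z0,z0,z0],z2),([z0,z0,z6,z0,z0],z5)]],
    [[([z3,z0,z0,z0,z0],z2),([z0,z2,z0,z0,z1],z2),([z0,z0,z4,z0,y1],z2)],[([z3,z0,z0,z0,z0],z2),([z0,z2,z0,z0,z1],z2),
    ([z0,z0,z2,z0,y1],z0)],[([z1,z0,z0,z0,y4],y2),([z0,z3,z0,z0,z9],z7),([z0,z0,z1,z0,z2],z2)],[([z3,z0,z0,z0,z0],z1),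
    ([z0,z3,z0,z0,z0],z2),([z0,z0,z3,z0,z0],z4)],[([z3,z0,z0,z0,y6],y4),([z0,z3,z0,z0,z0],z2),([z0,z0,z3,z0,z3],z5)],
    [([z3,z0,z0,z0,z0],z2),([z0,z2,z0,z0,z1],z2),([z0,z0,z6,z0,y3],z4)],[([z3,z0,z0,y3,y3],y1),([z0,z3,z0,z0,z0],z2)],
    [([z1,z0,z0,y1,z0],z0),([z0,z2,z0,z1,z0],z2),([z0,z0,z6,z9,z0],z8)],[([z1,z0,z0,z0,y1],z0),([z0,z3,z0,z0,z0],z1),
    ([z0,z0,z3,z0,z0],z2)],[([z3,z0,z0,y6,z0],y2),([z0,z3,z0,z3,z0],z4),([z0,z0,z3,z6,z0],z5)],[([z3,z0,z0,z0,z0],z1),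
    ([z0,z3,z0,z0,z0],z2),([z0,z0,z6,z6,z0],z7)],[([z3,z0,z0,z0,z0],z2),([z0,z3,z0,z0,z3],z4),([z0,z0,z2,z0,y1],z0)]],
    [[([z3,z0,z0,z0,z0],z1),([z0,z3,z0,z0,z0],z4),([z0,z0,z3,z0,z0],z2)],[([z3,z0,z0,y3,y3],y1),([z0,z3,z0,z6,z6],
    z8)],[([z3,z0,z0,z0,z0],z1),([z0,z3,z0,z0,z0],z2)],[([z3,z0,z0,z0,z0],z1),([z0,z1,z0,z1,z1],z2)],[([z3,z0,z0,z0,
    y3],y1),([z0,z3,z0,z0,z0],z2),([z0,z0,z1,z0,z2],z2)],[([z3,z0,z0,y6,z0],y2),([z0,z3,z0,z6,z0],z5),([z0,z0,z3,z3,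
    z0],z4)],[([z3,z0,z0,z0,y6],y2),([z0,z3,z0,z0,z0],z2),([z0,z0,z1,z0,z2],z2)],[([z3,z0,z0,z0,y12],y2),([z0,z3,z0,
    z0,z0],z2),([z0,z0,z3,z0,z9],z5)],[([z3,z0,z0,y6,z0],y4),([z0,z1,z0,z2,z0],z2),([z0,z0,z3,z3,z0],z5)],[([z3,z0,z0,
    z0,z0],z1),([z0,z3,z0,z0,z0],z2),([z0,z0,z6,z0,z6],z7)],[([z3,z0,z0,z0,y6],y4),([z0,z3,z0,z0,z0],z2),([z0,z0,z1,
    z0,z2],z2)],[([z3,z0,z0,z0,z0],z1),([z0,z3,z0,z0,z3],z2),([z0,z0,z3,z0,z0],z2)]],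
    [[([z3,z0,z0,z0,y9],y5),([z0,z3,z0,z0,z0],z2),([z0,z0,z1,z0,z2],z2)],[([z1,z0,z0,z0,y4],y2),([z0,z3,z0,z0,z0],z2),
    ([z0,z0,z3,z0,z9],z7)],[([z3,z0,z0,z0,z0],z2),([z0,z6,z0,z6,z3],z8)],[([z3,z0,z0,z0,z0],z2),([z0,z9,z0,z0,z6],z8),
    ([z0,z0,z9,z0,y3],z5)],[([z1,z0,z0,z0,y2],y1),([z0,z3,z0,z0,z0],z2),([z0,z0,z3,z0,z3],z4)],[([z3,z0,z0,z0,z0],z1),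
    ([z0,z6,z0,z0,z0],z5),([z0,z0,z6,z0,z6],z7)],[([z3,z0,z0,z0,z0],z2),([z0,z6,z0,z0,z3],z5),([z0,z0,z2,z0,y1],z1)],
    [([z3,z0,z0,z0,z0],z2),([z0,z6,z0,z0,z3],z4),([z0,z0,z6,z0,y3],z2)],[([z3,z0,z0,z0,z0],z1),([z0,z3,z0,z0,z0],z4),
    ([z0,z0,z3,z0,z3],z2)],[([z3,z0,y3,z0,z0],y1),([z0,z1,z2,z0,z0],z2),([z0,z0,z0,z3,z0],z2)],[([z3,z0,y3,z0,y3],y1),
    ([z0,z3,z6,z0,z6],z8)],[([z3,z0,z0,z0,z0],z2)]],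
    [[([z1,z0,z0,z0,y2],y1),([z0,z1,z0,z0,y1],z0),([z0,z0,z1,z0,z2],z2)],[([z1,z0,z0,z0,y6],y4),([z0,z1,z0,z0,z3],z3),
    ([z0,z0,z1,z0,z2],z2)],[([z1,z0,z0,z0,y1],z0),([z0,z2,z0,z0,z1],z2),([z0,z0,z2,z0,y1],z0)],[([z2,z0,z0,z0,z0],z1),
    ([z0,z2,z0,z0,z0],z1),([z0,z0,z4,z0,z0],z3)],[([z1,z0,z0,z0,y4],y2),([z0,z1,z0,z0,z1],z1),([z0,z0,z1,z0,z2],z2)],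
    [([z1,z0,z0,z0,y2],y1),([z0,z1,z0,z0,z2],z2),([z0,z0,z1,z0,z2],z2)],[([z1,z0,z0,y3,z1],y1),([z0,z1,z0,z2,z0],z2)],
    [([z1,z0,z0,z0,y2],y1),([z0,z1,z0,z0,z2],z2),([z0,z0,z1,z0,y1],z0)],[([z2,z0,z0,z0,z0],z1),([z0,z4,z0,z0,z0],z3),
    ([z0,z0,z2,z0,z0],z1)],[([z1,z0,z0,z0,y2],z0),([z0,z1,z0,z0,z1],z1),([z0,z0,z1,z0,y2],z0)],[([z2,z0,z0,z0,y3],z0),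
    ([z0,z1,z0,z0,z3],z2),([z0,z0,z1,z0,y1],z0)],[([z2,z0,z0,z0,z1],z2),([z0,z1,z0,z0,y1],z0)]],
    [[([z1,z0,y1,z0,z0],z0),([z0,z1,z2,z0,z0],z2)],[([z1,z0,z0,z0,y1],z0),([z0,z1,z0,z0,z2],z2)],[([z1,z0,z0,z0,y5],
    y3),([z0,z1,z0,z0,y4],y2),([z0,z0,z1,z0,z8],z6)],[([z1,z0,z0,z0,y4],y2),([z0,z1,z0,z0,z2],z2),([z0,z0,z1,z0,z1],
    z1)],[([z1,z0,z0,z0,y4],y2),([z0,z1,z0,z0,z2],z2),([z0,z0,z1,z0,z4],z3)],[([z1,z0,z0,z0,y4],y2),([z0,z1,z0,z0,z2],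
    z2),([z0,z0,z1,z0,z6],z4)],[([z1,z0,z0,z0,y4],y2),([z0,z1,z0,z0,z2],z2),([z0,z0,z1,z0,y2],y1)],[([z1,z0,z0,z0,y4],
    y2),([z0,z1,z0,z0,z2],z2),([z0,z0,z1,z0,y5],y3)],[([z1,z0,z0,z0,y4],y2),([z0,z1,z0,z0,z2],z2),([z0,z0,z1,z0,z7],
    z5)],[([z5,z0,z0,z0,z0],z2),([z0,z5,z0,z0,z0],z3),([z0,z0,z5,z5,z0],z6)],[([z1,z0,z0,z0,y4],y2),([z0,z1,z0,z0,z2],
    z2),([z0,z0,z1,z0,y3],y1)],[([z1,z0,z0,z0,y4],y2),([z0,z1,z0,z0,z2],z2),([z0,z0,z1,z0,z2],z2)]],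
    [[([z1,z0,z0,z0,y4],y2),([z0,z1,z0,z0,z2],z2),([z0,z0,z1,z0,z5],z4)],[([z1,z0,z0,z0,y4],y2),([z0,z1,z0,z0,z2],z2),
    ([z0,z0,z1,z0,y1],z0)],[([z1,z0,z0,z0,y5],y3),([z0,z1,z0,z0,z8],z6),([z0,z0,z1,z0,z2],z2)],[([z2,z0,z0,y3,z2],z0),
    ([z0,z2,z0,z1,z0],z2)],[([z2,z0,z0,z0,y5],y2),([z0,z1,z0,z0,z2],z2),([z0,z0,z1,z0,z1],z1)],[([z1,z0,z0,z0,y2],y1),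
    ([z0,z1,z0,z0,z5],z4),([z0,z0,z1,z0,y4],y2)],[([z5,z0,z0,z0,z0],z2),([z0,z5,z0,z0,z0],z4),([z0,z0,z5,z0,z0],z3)],
    [([z1,z0,z0,z0,y2],y1),([z0,z1,z0,z0,z3],z3),([z0,z0,z1,z0,y2],y1)],[([z1,z0,z0,z0,y2],y1),([z0,z1,z0,z0,z4],z4),
    ([z0,z0,z1,z0,y3],y2)],[([z1,z0,z0,z0,y2],y1),([z0,z1,z0,z0,y3],y2),([z0,z0,z1,z0,z4],z4)],[([z1,z0,z0,y2,z0],y1),
    ([z0,z2,z0,z2,z0],z3),([z0,z0,z1,z2,z0],z2)],[([z1,z0,z0,z0,y2],y1),([z0,z2,z0,z0,z0],z1),([z0,z0,z2,z0,z2],z3)]],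
    [[([z1,z0,z0,y2,y2],y2),([z0,z1,z0,z1,z1],z2)],[([z1,z0,z0,z0,y3],y2),([z0,z1,z0,z0,y2],y1),([z0,z0,z1,z0,z4],
    z4)],[([z5,z0,z0,z0,z0],z2),([z0,z5,z0,z0,z0],z4),([z0,z0,z5,z0,z5],z6)],[([z2,z0,z0,z0,y3],y1),([z0,z1,z0,z0,z1],
    z1),([z0,z0,z2,z0,y1],z1)],[([z1,z0,z0,z0,y1],z0),([z0,z1,z0,z0,z1],z1),([z0,z0,z2,z0,y1],z1)],[([z1,z0,z0,z0,y2],
    y1),([z0,z1,z0,z0,y2],y1),([z0,z0,z1,z0,z3],z3)],[([z2,z0,z0,z0,z0],z1),([z0,z4,z0,z0,z0],z3),([z0,z0,z4,z0,z4],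
    z5)],[([z2,z0,z0,z0,z0],z1),([z0,z1,z0,z0,z1],z1),([z0,z0,z2,z0,y1],z1)],[([z1,z0,z0,z0,y2],z0),([z0,z1,z0,z0,z1],
    z1),([z0,z0,z2,z0,y1],z1)],[([z1,z0,z0,y2,z0],y1),([z0,z1,z0,z1,z1],z2)],[([z1,z0,z0,z0,y1],z0),([z0,z1,z0,z0,z1],
    z1),([z0,z0,z1,z0,y1],z0)],[([z1,z0,z0,z0,y2],z0),([z0,z1,z0,z0,z1],z1),([z0,z0,z1,z0,z1],z1)]],
    [[([z1,z0,z0,y1,z0],z0),([z0,z2,z0,z0,z0],z1),([z0,z0,z1,z2,z0],z2)],[([z1,z0,z0,y1,z0],z0),([z0,z1,z0,z0,z1],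
    z1)],[([z1,z0,z0,z0,y5],y3),([z0,z1,z0,z0,y4],y2),([z0,z0,z1,z0,z2],z2)],[([z1,z0,z0,z0,y5],y3),([z0,z1,z0,z0,z2],
    z2),([z0,z0,z1,z0,y4],y2)],[([z1,z0,z0,z0,y2],z0),([z0,z1,z0,z0,z4],z2),([z0,z0,z1,z0,y2],z0)],[([z2,z0,z0,z0,y5],
    y2),([z0,z2,z0,z0,z1],z2),([z0,z0,z1,z0,z1],z1)],[([z1,z0,z0,z0,y2],y1),([z0,z1,z0,z0,z2],z2),([z0,z0,z1,z0,y4],
    y2)],[([z1,z0,z0,z0,y1],z0),([z0,z1,z0,z0,z2],z2),([z0,z0,z1,z0,y4],y2)],[([z1,z0,z0,z0,y4],y2),([z0,z1,z0,z0,z8],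
    z6),([z0,z0,z1,z0,y5],y3)],[([z1,z0,z0,z0,y3],y1),([z0,z1,z0,z0,z2],z2),([z0,z0,z1,z0,y4],y2)],[([z1,z0,z0,z0,y3],
    y2),([z0,z2,z0,z0,z1],z2),([z0,z0,z2,z0,z3],z4)],[([z4,z0,z0,z0,y5],y2),([z0,z2,z0,z0,z1],z2),([z0,z0,z4,z0,y1],
    z2)]],
    [[([z1,z0,z0,y4,z0],y2),([z0,z1,z0,z2,z0],z2)],[([z2,z0,z0,z0,z1],z2),([z0,z2,z2,z0,y1],z2)],[([z1,z0,z0,z0,y4],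
    y2),([z0,z1,z0,z0,z7],z5),([z0,z0,z1,z0,y4],y2)],[([z1,z0,z0,z0,y5],y3),([z0,z1,z0,z0,z8],z6),([z0,z0,z1,z0,y4],
    y2)],[([z1,z0,z0,z0,y3],y1),([z0,z1,z0,z0,z6],z4),([z0,z0,z1,z0,y4],y2)],[([z4,z0,z0,z0,y5],y2),([z0,z1,z0,z0,z2],
    z2),([z0,z0,z4,z0,y1],z2)],[([z2,z0,z0,z0,z1],z2),([z0,z4,z0,z0,y1],z2)],[([z2,z0,z0,z0,z1],z2),([z0,z2,z0,z0,y1],
    z0)],[([z1,z0,z0,y2,z0],z0),([z0,z1,z0,z1,z0],z1)],[([z1,z0,z0,y2,z1],z0),([z0,z1,z0,z1,z0],z1)],[([z1,z0,z0,z0,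
    y3],y2),([z0,z1,z0,z0,z4],z4),([z0,z0,z1,z0,y2],y1)],[([z1,z0,z0,z0,y4],y2),([z0,z1,z0,z0,z6],z4),([z0,z0,z1,z0,
    y3],y1)]],
    [[([z1,z0,z0,z0,y3],y1),([z0,z1,z0,z0,z4],z2),([z0,z0,z1,z0,y2],z0)],[([z1,z0,y1,z0,y1],y1),([z0,z1,z2,z0,z0],
    z2)],[([z1,z0,z0,z0,y3],y1),([z0,z1,z0,z0,z2],z2),([z0,z0,z1,z0,y2],z0)],[([z2,z0,z0,z0,y3],y1),([z0,z1,z0,z0,z2],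
    z2),([z0,z0,z2,z0,y1],z1)],[([z3,z0,z0,z0,y5],y2),([z0,z1,z0,z0,z2],z2),([z0,z0,z3,z0,y2],z1)],[([z3,z0,z0,z0,y4],
    y2),([z0,z1,z0,z0,z2],z2),([z0,z0,z3,z0,y1],z1)],[([z1,z0,z0,z0,y3],y2),([z0,z1,z0,z0,z2],z2),([z0,z0,z1,z0,y2],
    y1)],[([z1,z0,z0,z0,y4],y2),([z0,z1,z0,z0,y3],y1),([z0,z0,z1,z0,z6],z4)],[([z2,z0,z0,y2,y1],z0),([z0,z1,z0,z2,z1],
    z2)],[([z2,z0,z0,z0,z0],z1),([z0,z2,z0,z0,z2],z3),([z0,z0,z1,z0,y2],y1)],[([z2,z0,z0,z0,z1],z2),([z0,z2,z0,z1,z1],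
    z2)],[([z2,z0,z0,z0,y3],z0),([z0,z2,z0,z0,z1],z2),([z0,z0,z1,z0,y1],z0)]],
    [[([z2,z0,z0,z0,z0],z1),([z0,z2,z0,z0,z1],z2),([z0,z0,z2,z0,y1],z1)],[([z1,z0,z0,z0,y3],y2),([z0,z1,z0,z0,z2],z2),
    ([z0,z0,z1,z0,z4],z4)],[([z1,z0,z0,z0,y5],y3),([z0,z1,z0,z0,z2],z2),([z0,z0,z1,z0,z8],z6)],[([z1,z0,z0,y1,y1],y1),
    ([z0,z1,z0,z0,z2],z2)],[([z1,z0,z0,z0,y1],z0),([z0,z2,z0,z0,z1],z2),([z0,z0,z2,z0,y3],z0)],[([z1,z0,z0,z0,y1],z0),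
    ([z0,z1,z0,z0,z2],z2),([z0,z0,z1,z0,y2],y1)],[([z2,z0,y2,z0,z1],z0),([z0,z1,z2,z0,z0],z2)],[([z1,z0,y1,y1,y1],
    y1)],[([z1,z0,z0,y2,y2],y2),([z0,z1,z0,z2,z2],z3)],[([z1,z0,z0,z0,y6],y2),([z0,z1,z0,z0,z1],z1),([z0,z0,z1,z0,z3],
    z2)],[([z1,z0,z0,z0,y1],z0),([z0,z2,z0,z0,z0],z1),([z0,z0,z1,z0,z2],z2)],[([z1,z0,z0,z0,y1],z0),([z0,z1,z0,z1,z0],
    z1)]],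
    [[([z1,z0,z0,y2,z0],y1),([z0,z1,z0,z2,z0],z2)],[([z5,z0,z0,z0,z0],z2),([z0,z5,z0,z0,z5],z6),([z0,z0,z5,z0,z0],
    z3)],[([z1,z0,z0,z0,y2],y1),([z0,z2,z0,z0,z0],z1),([z0,z0,z1,z0,z2],z2)],[([z1,z0,z0,z0,y2],y1),([z0,z1,z0,z0,y2],
    y1),([z0,z0,z1,z0,z2],z2)],[([z1,z0,z0,z0,y2],y1),([z0,z1,z0,z0,z2],z2),([z0,z0,z1,z0,z3],z3)],[([z2,z0,z0,z0,y7],
    y2),([z0,z2,z0,z0,z1],z2),([z0,z0,z1,z0,z1],z1)],[([z1,z0,z0,z0,y2],y1),([z0,z1,z0,z1,z1],z2)],[([z1,z0,z0,z0,y4],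
    y2),([z0,z1,z0,z0,z5],z4),([z0,z0,z1,z0,y2],y1)],[([z1,z0,z0,z0,y4],y2),([z0,z1,z0,z0,y1],z0),([z0,z0,z1,z0,z2],
    z2)],[([z5,z0,z0,z0,z0],z2),([z0,z5,z0,z0,z0],z3),([z0,z0,z5,z0,z0],z4)],[([z1,z0,z0,z0,y4],y2),([z0,z1,z0,z0,y5],
    y3),([z0,z0,z1,z0,z8],z6)],[([z1,z0,z0,z0,y4],y2),([z0,z1,z0,z0,y2],y1),([z0,z0,z1,z0,z5],z4)]],
    [[([z1,z0,z0,z0,y4],y2),([z0,z1,z0,z0,z4],z3),([z0,z0,z1,z0,y1],z0)],[([z2,z0,z0,y3,z2],z0),([z0,z1,z0,z2,z0],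
    z2)],[([z1,z0,z0,z0,y4],y2),([z0,z1,z0,z0,y5],y3),([z0,z0,z1,z0,z2],z2)],[([z1,z0,z0,z0,y3],y2),([z0,z1,z0,z0,z4],
    z4),([z0,z0,z1,z0,z2],z2)],[([z1,z0,z0,z0,y4],y2),([z0,z1,z0,z0,z6],z4),([z0,z0,z1,z0,z2],z2)],[([z1,z0,z0,z0,y2],
    y1),([z0,z1,z0,z0,y3],y2),([z0,z0,z1,z0,z2],z2)],[([z1,z0,z0,z0,y6],y4),([z0,z1,z0,z0,z2],z2),([z0,z0,z1,z0,z2],
    z2)],[([z1,z0,z0,y2,z0],y1),([z0,z1,z0,z2,z0],z2),([z0,z0,z2,z2,z0],z3)],[([z1,z0,z0,y2,z2],z0),([z0,z1,z0,z2,z0],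
    z2)],[([z1,z0,z0,y2,z1],z0),([z0,z1,z0,z2,z0],z2)],[([z1,z0,z0,z0,y4],y2),([z0,z1,z0,z0,z5],z4),([z0,z0,z1,z0,z2],
    z2)],[([z1,z0,z0,z0,y4],y2),([z0,z1,z0,z0,y2],y1),([z0,z0,z1,z0,z2],z2)]],
    [[([z1,z0,z0,z0,y4],y2),([z0,z1,z0,z0,y3],y1),([z0,z0,z1,z0,z2],z2)],[([z5,z0,z0,z0,z0],z2),([z0,z5,z0,z0,z0],z3),
    ([z0,z0,z5,z0,z5],z6)],[([z1,z0,z0,z0,y4],y2),([z0,z1,z0,z0,z4],z3),([z0,z0,z1,z0,z2],z2)],[([z1,z0,z0,z0,y4],y2),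
    ([z0,z1,z0,z1,z3],z3)],[([z1,z0,z0,z0,y3],y1),([z0,z1,z0,z0,z2],z2),([z0,z0,z1,z0,z1],z1)],[([z1,z0,z0,z0,y3],y1),
    ([z0,z1,z0,z0,z1],z1),([z0,z0,z1,z0,z2],z2)],[([z1,z0,z0,z0,y2],z0),([z0,z1,z0,z1,z2],z2)],[([z2,z0,z0,y2,y1],z0),
    ([z0,z2,z0,z0,z1],z2)],[([z1,z0,z0,z0,y3],y2),([z0,z1,z0,z0,z2],z2),([z0,z0,z2,z0,z3],z4)],[([z1,z0,z0,z0,y6],y4),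
    ([z0,z1,z0,z0,z2],z2),([z0,z0,z1,z0,z3],z3)],[([z1,z0,z0,z0,y3],y2),([z0,z1,z0,z0,y2],y1),([z0,z0,z1,z0,z2],z2)],
    [([z1,z0,z0,z0,y2],y1),([z0,z1,z0,z0,z2],z2),([z0,z0,z2,z0,z2],z3)]],
    [[([z2,z0,z0,z1,y2],z0),([z0,z2,z0,z1,z0],z2)],[([z1,z0,z0,y2,z0],z0),([z0,z1,z0,z2,z1],z2)],[([z2,z0,z0,z1,z0],
    z2)],[([z1,z0,z0,z0,z1],z1)],[([z1,z0,z0,y1,y1],y1),([z0,z1,z0,z1,z1],z2)],[([z1,z0,z0,y1,z0],z0),([z0,z1,z0,z1,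
    z0],z1)],[([z2,z0,z0,z0,z0],z1),([z0,z2,z0,z0,z0],z1),([z0,z0,z2,z0,z2],z3)],[([z1,z0,z0,z0,y3],y1),([z0,z1,z0,z0,
    z1],z1),([z0,z0,z1,z0,z1],z1)],[([z3,z0,z0,z0,z0],z1),([z0,z3,z0,z0,z0],z1),([z0,z0,z3,z0,z3],z5)],[([z1,z0,z0,z0,
    y1],z0),([z0,z1,z0,z1,z1],z2)],[([z1,z0,z0,z0,y4],y1),([z0,z1,z0,z0,z3],z2),([z0,z0,z1,z0,z1],z1)],[([z1,z0,z0,z0,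
    y5],y2),([z0,z1,z0,z0,z3],z2),([z0,z0,z1,z0,z1],z1)]],
    [[([z1,z0,z0,z0,y4],y1),([z0,z1,z0,z0,z1],z1),([z0,z0,z1,z0,z3],z2)],[([z1,z0,z0,z0,y5],y2),([z0,z1,z0,z0,z1],z1),
    ([z0,z0,z1,z0,z3],z2)],[([z2,z0,z0,z0,y7],y2),([z0,z1,z0,z0,z3],z2),([z0,z0,z1,z0,z1],z1)],[([z1,z0,z0,z0,y3],y1),
    ([z0,z1,z0,z1,z3],z3)],[([z2,z0,z0,z0,z0],z1),([z0,z1,z0,z1,z1],z2)],[([z1,z0,z0,z0,y3],y1),([z0,z1,z0,z0,z1],z1),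
    ([z0,z0,z3,z0,z9],z7)],[([z1,z0,z0,z0,y5],y3),([z0,z1,z0,z0,y2],y1),([z0,z0,z1,z0,z6],z5)],[([z1,z0,z0,z0,y3],y1),
    ([z0,z1,z0,z0,z1],z1),([z0,z0,z2,z0,z3],z3)],[([z1,z0,z0,z0,y6],y2),([z0,z1,z0,z0,z3],z2),([z0,z0,z1,z0,z1],z1)],
    [([z1,z0,z0,z0,y3],y1),([z0,z1,z0,z0,z1],z1),([z0,z0,z1,z0,y1],z0)],[([z2,z0,z0,z0,z0],z1),([z0,z2,z0,z0,z0],z1),
    ([z0,z0,z2,z0,z0],z1)],[([z1,z0,z0,z0,y5],y2),([z0,z1,z0,z0,z2],z2),([z0,z0,z1,z0,z1],z1)]],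
    [[([z7,z0,z0,z0,z0],z3),([z0,z7,z0,z0,z0],z5),([z0,z0,z7,z0,z0],z4)],[([z1,z0,z0,z0,y3],y1),([z0,z1,z0,z0,z1],z1),
    ([z0,z0,z1,z0,y2],z0)],[([z1,z0,z0,y3,z1],z0),([z0,z1,z0,z1,z0],z1)],[([z1,z0,z0,z1,z0],z1)],[]]]

end Pool.Agent.Lib_MP_fa6e45
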