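import Pool.Agent.Lib_MP_fa6e45.CSTT
import Pool.Agent.Lib_MP_fa6e45.HK

/-!
MP_fa6e45_co, stage 5: certificates (captain, generated by a program).
-/

namespace Pool.Agent.Lib_MP_fa6e45

/-- classes `0 0 0 0 0`, types `C0 C0 C0 C0 C2` -/
noncomputable def cT5_1 : CertT :=
  ⟨[k4,k4,k4,k4,k6],[(false,k0,[k0,k1,k2,k3,k4]),(true,k4,[k4,k3,k2,k1,k0])],[[[([z1,z0,z0,z1,z1],z2)],[([z1,z0,z0,y1,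
    z1],z1),([z0,z1,z0,z1,z0],z1)],[([z1,z0,z0,y2,z1],z0),([z0,z1,z0,z1,z0],z1)],[([z1,z0,z1,z0,z1],z2),([z0,z3,z0,z0,
    z0],z1)],[([z1,z0,z1,z0,z1],z2),([z0,z2,z0,z0,z0],z1)],[([z1,z0,z1,z0,z1],z2)],[([z1,z0,z0,z0,z1],z1)],[]]],
    [.leafM k1 [k0,k1,k2,k3,k4] [(z1,[y1,z1])] [],
    .leafM k1 [k1,k2,k3,k4,k0] [(z1,[y1,y1,z1])] [],
    .tor k2 true k4 [(z1,[y1,y1,z1]),(z1,[z1,z2]),(z1,[z0,y1,z1])],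
    .leafM k6 [k0,k1,k2,k3,k4] [(z1,[z0,z1]),(z1,[y3,y1,z3])] [],
    .leafM k5 [k0,k1,k2,k3,k4] [(z1,[z0,z1]),(z1,[y2,y1,z2])] [],
    .lp [(nat_lit 5280),(nat_lit 3960),(nat_lit 7260),(nat_lit 3450),(nat_lit 2640)] [(nat_lit 990),(nat_lit 990),
    (nat_lit 1650),(nat_lit 1650),k0,k0,(nat_lit 1905),(nat_lit 1905),(nat_lit 2310),(nat_lit 2310)] k0 [[],[],[],[k0,
    k0,k0,k0,k0,(nat_lit 1012)],[k0,k0,(nat_lit 1012)]] (nat_lit 15180) k6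
    [[(k8,(nat_lit 3960)),(k9,(nat_lit 3960)),(k7,(nat_lit 4365)),(k3,(nat_lit 4620)),(k5,(nat_lit 6270))],[(k8,
    (nat_lit 3960)),(k9,(nat_lit 3960)),(k7,(nat_lit 4365)),(k3,(nat_lit 4620)),(k5,(nat_lit 6270))],[(k6,
    (nat_lit 3705)),(k2,(nat_lit 3960)),(k0,(nat_lit 4620)),(k1,(nat_lit 4620)),(k4,(nat_lit 5610))],[(k8,
    (nat_lit 3300)),(k9,(nat_lit 3300)),(k3,(nat_lit 3960)),(k7,(nat_lit 4717)),(k5,(nat_lit 5610))],[(k6,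
    (nat_lit 5355)),(k2,(nat_lit 5610)),(k4,(nat_lit 6248)),(k0,(nat_lit 6270)),(k1,(nat_lit 6270))],[(k8,
    (nat_lit 4950)),(k9,(nat_lit 4950)),(k7,(nat_lit 5355)),(k3,(nat_lit 5610)),(k5,(nat_lit 6248))],[(k6,
    (nat_lit 3450)),(k0,(nat_lit 4365)),(k1,(nat_lit 4365)),(k2,(nat_lit 4717)),(k4,(nat_lit 5355))],[(k8,
    (nat_lit 3045)),(k9,(nat_lit 3045)),(k7,(nat_lit 3450)),(k3,(nat_lit 3705)),(k5,(nat_lit 5355))],[(k6,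
    (nat_lit 3045)),(k2,(nat_lit 3300)),(k0,(nat_lit 3960)),(k1,(nat_lit 3960)),(k4,(nat_lit 4950))],[(k6,
    (nat_lit 3045)),(k2,(nat_lit 3300)),(k0,(nat_lit 3960)),(k1,(nat_lit 3960)),(k4,(nat_lit 4950))]]
    [] k0
    [[k1,k1,k0,k0,k1],[k1,k0,k0,k2,k1],[k1,k0,k0,k1,k1],[k0,k3,k0,k0,k0],[k0,k2,k0,k1,k0],[k0,k1,k1,k1,k0],[k0,k1,k0,
    k2,k0],[k0,k0,k1,k2,k0],[k0,k0,k0,k3,k0],[k0,k0,k0,k4,k0]]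
    [.ref k1 k0 [(z1,[z1,z1,y1]),(z1,[z0,y1,z1])],.ref k2 k1 [(z1,[z1,z2,y2]),(z1,[z0,y1,z1])],.ref k1 k1 [(z1,[z1,z1,
    y1]),(z1,[z0,y1,z1])],.ref k3 k1 [(z1,[z0,z1]),(z1,[y1,y3,z3])],.contra [z1,z1,y1],.contra [z1,z1,y1],.contra [z1,
    z1,y1],.ref k2 k0 [(z1,[y1,z1]),(z1,[z0,y1,z1])],.ref k3 k0 [(z1,[z0,z1]),(z1,[y1,y3,z3])],.ref k4 k0 [(z1,[z0,
    z1]),(z2,[y1,y4,z4])]],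
    .leafM k1 [k3,k4,k0,k1,k2] [(z1,[z1])] [],
    .lp [k36,k38,k40,k40,k24] [k2,k2,k1,k1,k0,k0,k0,k0,k8,k8] k0 [[k0,k0,k4,k0,k2],[],[],[k0,k4],[k0,k0,k0,k0,k0,k0,k2],
    [k0,k2],[],[k0,k0,k0,k0,k0,k2]] k120 k5
    [[(k8,k30),(k9,k30),(k3,k37),(k5,k38),(k7,k38)],[(k8,k30),(k9,k30),(k5,k34),(k7,k36),(k3,k37)],[(k0,k37),(k1,k37),
    (k6,k39),(k4,k41),(k2,k42)],[(k8,k31),(k9,k31),(k5,k39),(k7,k39),(k3,k42)],[(k0,k34),(k1,k38),(k2,k39),(k4,k40),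
    (k6,k40)],[(k9,k30),(k8,k32),(k5,k40),(k7,k40),(k3,k41)],[(k0,k36),(k1,k38),(k2,k39),(k4,k40),(k6,k42)],[(k8,k32),
    (k9,k32),(k3,k39),(k5,k40),(k7,k42)],[(k0,k30),(k1,k30),(k4,k30),(k2,k31),(k6,k32)],[(k0,k30),(k1,k30),(k2,k31),
    (k4,k32),(k6,k32)]]
    [] k0
    [[k1,k1,k0,k0,k1],[k1,k0,k1,k0,k1],[k1,k0,k0,k1,k1],[k0,k1,k1,k1,k0]]
    [.ref k0 k1 [(z1,[z1])],.ref k5 k0 [(z1,[z1])],.ref k0 k0 [(z1,[z1])],.ref k6 k0 [(z1,[y1,z1])]]]⟩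

/-- classes `0 0 0 0 0`, types `C0 C0 C0 C2 C2` -/
noncomputable def cT5_2 : CertT :=
  ⟨[k4,k4,k4,k6,k6],[(true,k3,[k3,k2,k1,k0,k4]),(false,k0,[k0,k1,k2,k3,k4])],[[[([z1,z0,z1,z1,z0],z2)],[([z1,z0,z0,z1,
    z1],z2)],[([z1,z0,z0,z1,z0],z1)],[]]],
    [.leafM k2 [k3,k4,k0,k1,k2] [(z1,[y1,z1])] [],
    .leafM k1 [k0,k1,k2,k3,k4] [(z1,[y1,z1])] [],
    .leafM k2 [k2,k3,k4,k0,k1] [(z1,[z1])] [],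
    .lp [(nat_lit 2714),(nat_lit 3422),(nat_lit 3422),(nat_lit 2596),(nat_lit 3600)] [(nat_lit 443),(nat_lit 443),k89,k89,
    k89,k89,(nat_lit 502),(nat_lit 502),k0,k0] k0 [[k0,k0,(nat_lit 354)],[],[k0,k0,k0,k0,(nat_lit 354)],[k0,
    (nat_lit 354)],[],[k0,k0,k0,(nat_lit 354)]] (nat_lit 10620) k5
    [[(k6,(nat_lit 2655)),(k7,(nat_lit 2655)),(k3,(nat_lit 3068)),(k5,(nat_lit 3068)),(k8,(nat_lit 3157))],[(k6,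
    (nat_lit 2655)),(k7,(nat_lit 2655)),(k5,(nat_lit 2714)),(k3,(nat_lit 3068)),(k8,(nat_lit 3157))],[(k0,
    (nat_lit 3068)),(k1,(nat_lit 3068)),(k4,(nat_lit 3422)),(k9,(nat_lit 3511)),(k2,(nat_lit 3776))],[(k7,
    (nat_lit 2655)),(k6,(nat_lit 3009)),(k5,(nat_lit 3422)),(k8,(nat_lit 3511)),(k3,(nat_lit 3776))],[(k0,
    (nat_lit 2714)),(k1,(nat_lit 3068)),(k2,(nat_lit 3422)),(k9,(nat_lit 3511)),(k4,(nat_lit 3776))],[(k6,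
    (nat_lit 3009)),(k7,(nat_lit 3009)),(k3,(nat_lit 3422)),(k8,(nat_lit 3511)),(k5,(nat_lit 3776))],[(k0,
    (nat_lit 2655)),(k1,(nat_lit 2655)),(k2,(nat_lit 2655)),(k4,(nat_lit 3009)),(k9,(nat_lit 3098))],[(k0,
    (nat_lit 2655)),(k1,(nat_lit 2655)),(k2,(nat_lit 3009)),(k4,(nat_lit 3009)),(k9,(nat_lit 3098))],[(k6,
    (nat_lit 3098)),(k7,(nat_lit 3098)),(k3,(nat_lit 3511)),(k5,(nat_lit 3511)),(k8,(nat_lit 3600))],[(k0,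
    (nat_lit 3157)),(k1,(nat_lit 3157)),(k2,(nat_lit 3511)),(k4,(nat_lit 3511)),(k9,(nat_lit 3600))]]
    [] k0
    [[k1,k1,k0,k1,k0],[k1,k0,k1,k1,k0],[k1,k0,k0,k1,k1],[k0,k1,k1,k0,k1]]
    [.ref k0 k0 [(z1,[z1])],.ref k0 k1 [(z1,[z1])],.ref k1 k1 [(z1,[z1])],.ref k2 k1 [(z1,[y1,z1])]]]⟩

/-- classes `0 0 0 0 0`, types `C0 C0 C2 C0 C2` -/
noncomputable def cT5_3 : CertT :=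
  ⟨[k4,k4,k6,k4,k6],[(false,k0,[k0,k1,k2,k3,k4]),(true,k2,[k2,k1,k0,k4,k3])],[[[([z1,z1,z1,z0,z0],z2)],[([z1,z0,z0,z0,
    z1],z1)],[([z1,z0,z1,z0,z0],z1)],[]]],
    [.leafM k1 [k2,k3,k4,k0,k1] [(z1,[y1,z1])] [],
    .leafM k1 [k3,k4,k0,k1,k2] [(z1,[z1])] [],
    .leafM k2 [k4,k0,k1,k2,k3] [(z1,[z1])] [],
    .lp [k4,k4,k2,k4,k2] [k0,k0,k0,k0,k1,k1,k0,k0,k1,k1] k0 [] k12 k5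
    [[(k4,k3),(k5,k3),(k8,k3),(k9,k3),(k3,k4)],[(k4,k3),(k5,k3),(k8,k3),(k9,k3),(k3,k4)],[(k0,k4),(k1,k4),(k2,k4),(k6,
    k4),(k7,k4)],[(k4,k3),(k5,k3),(k8,k3),(k9,k3),(k3,k4)],[(k0,k3),(k1,k3),(k2,k3),(k6,k3),(k7,k3)],[(k0,k3),(k1,k3),
    (k2,k3),(k6,k3),(k7,k3)],[(k4,k3),(k5,k3),(k8,k3),(k9,k3),(k3,k4)],[(k4,k3),(k5,k3),(k8,k3),(k9,k3),(k3,k4)],[(k0,
    k3),(k1,k3),(k2,k3),(k6,k3),(k7,k3)],[(k0,k3),(k1,k3),(k2,k3),(k6,k3),(k7,k3)]]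
    [] k0
    [[k1,k1,k1,k0,k0],[k1,k1,k0,k0,k1],[k0,k1,k1,k1,k0],[k0,k1,k0,k1,k1]]
    [.ref k0 k0 [(z1,[z1])],.ref k1 k1 [(z1,[y1,z1])],.ref k1 k0 [(z1,[y1,z1])],.ref k2 k0 [(z1,[y1,z1])]]]⟩

/-- classes `0 0 0 0 1`, types `B0 B0 B1 B1 C0` -/
noncomputable def cT5_4 : CertT :=
  ⟨[k8,k8,k9,k9,k20],[(false,k0,[k0,k1,k2,k3,k4])],[[[([z1,z0,z1,z0,z1],z2)],[([z1,z0,z0,z0,z1],z1)],[]]],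
    [.leafM k2 [k0,k1,k2,k3,k4] [(z1,[y1,z1])] [],
    .leafM k3 [k1,k2,k3,k4,k0] [(z1,[z1])] [],
    .lp [k4,k4,k4,k2,k2] [k0,k0,k0,k0,k0,k0,k1,k1,k1,k1] k0 [] k12 k5
    [[(k8,k3)],[(k6,k3),(k7,k3),(k9,k3),(k4,k4)],[(k6,k3),(k7,k3),(k9,k3),(k4,k4)],[(k6,k3),(k7,k3),(k9,k3),(k4,k4)],
    [(k6,k3),(k7,k3),(k9,k3),(k4,k4)],[(k0,k4),(k2,k4),(k3,k4),(k5,k4)],[(k0,k3),(k2,k3),(k3,k3),(k5,k3)],[(k0,k3),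
    (k2,k3),(k3,k3),(k5,k3)],[(k0,k3),(k2,k3),(k3,k3),(k5,k3)],[(k1,k3)]]
    [] k0
    [[k1,k0,k1,k0,k1],[k0,k1,k1,k1,k0]]
    [.ref k0 k0 [(z1,[z1])],.ref k1 k0 [(z1,[y1,z1])]]]⟩

/-- classes `0 0 0 0 1`, types `B0 B0 B1 B1 S0` -/
noncomputable def cT5_5 : CertT :=
  ⟨[k8,k8,k9,k9,k16],[(false,k0,[k0,k1,k2,k3,k4]),(true,k4,[k4,k3,k2,k1,k0])],[[[([z2,z0,z0,z1,z0],z2),([z0,z1,z0,z1,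
    z0],z1)],[([z1,z0,z0,z0,z1],z1),([z0,z1,z0,z0,z2],z2)],[([z2,z0,z0,z1,z0],z2),([z0,z1,z0,z0,z2],z2)],[([z2,z0,z0,
    z1,z0],z2)],[([z1,z0,z1,z0,z1],z2)],[([z1,z0,z0,z0,z1],z1)],[]]],
    [.leafM k2 [k0,k1,k2,k3,k4] [(z1,[z0,z1])] [],
    .leafM k3 [k1,k2,k3,k4,k0] [(z1,[z1])] [],
    .tor k4 false k0 [(z1,[z0,z1]),(z1,[y1,y1,z2]),(z1,[z1])],
    .lp [k18,k12,k16,k12,k12] [k0,k0,k3,k3,k1,k1,k3,k3,k3,k3] k0 [] k48 k5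
    [[(k8,k15),(k1,k18)],[(k6,k15),(k7,k15),(k9,k15),(k4,k17)],[(k6,k12),(k7,k12),(k9,k12),(k4,k14)],[(k6,k12),(k7,
    k12),(k9,k12),(k4,k14)],[(k6,k14),(k7,k14),(k9,k14),(k4,k16)],[(k2,k14),(k3,k14),(k5,k16),(k0,k17)],[(k2,k12),(k3,
    k12),(k5,k14),(k0,k15)],[(k2,k12),(k3,k12),(k5,k14),(k0,k15)],[(k2,k12),(k3,k12),(k5,k14),(k0,k15)],[(k8,k12),(k1,
    k15)]]
    [] k0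
    [[k1,k0,k1,k0,k1],[k0,k1,k1,k1,k0],[k0,k1,k0,k0,k2]]
    [.ref k0 k0 [(z1,[z0,z1]),(z1,[y1,z0,z1])],.ref k1 k1 [(z1,[y1,z0,z1]),(z1,[z0,z1])],.ref k2 k0 [(z1,[z0,z1]),(z1,
    [z1])]],
    .leafM k2 [k0,k1,k2,k3,k4] [(z1,[y1,z1])] [],
    .leafM k3 [k1,k2,k3,k4,k0] [(z1,[z1])] [],
    .lp [k12,k12,k16,k12,k18] [k3,k3,k3,k3,k1,k1,k3,k3,k0,k0] k0 [] k48 k5
    [[(k1,k12),(k8,k15)],[(k6,k12),(k7,k12),(k4,k14),(k9,k15)],[(k6,k12),(k7,k12),(k4,k14),(k9,k15)],[(k6,k12),(k7,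
    k12),(k4,k14),(k9,k15)],[(k6,k14),(k7,k14),(k4,k16),(k9,k17)],[(k0,k14),(k2,k14),(k3,k14),(k5,k16)],[(k0,k12),(k2,
    k12),(k3,k12),(k5,k14)],[(k0,k12),(k2,k12),(k3,k12),(k5,k14)],[(k0,k15),(k2,k15),(k3,k15),(k5,k17)],[(k1,k15),(k8,
    k18)]]
    [] k0
    [[k2,k0,k0,k1,k0],[k1,k0,k1,k0,k1],[k0,k1,k1,k1,k0]]
    [.ref k3 k0 [(z1,[z1])],.ref k4 k0 [(z1,[z1])],.ref k5 k0 [(z1,[y1,z1])]]]⟩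

/-- classes `0 0 0 0 1`, types `B0 B1 B0 B1 C0` -/
noncomputable def cT5_6 : CertT :=
  ⟨[k8,k9,k8,k9,k20],[(false,k0,[k0,k1,k2,k3,k4]),(true,k4,[k4,k3,k2,k1,k0])],[[[([z1,z0,z0,z0,z1],z1)],[([z1,z0,z0,
    z1,z1],z2),([z0,z1,z0,y1,z0],z0)],[([z2,z0,z0,z0,z2],z3),([z0,z2,z0,z0,z0],z1),([z0,z0,z2,z0,z0],z1)],[([z3,z0,z0,
    z0,z3],z4),([z0,z3,z0,z0,z0],z1),([z0,z0,z3,z0,z0],z2)],[([z3,z0,z0,z0,z3],z5),([z0,z3,z0,z0,z0],z1),([z0,z0,z3,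
    z0,z0],z1)],[([z1,z0,z0,y1,z1],z1),([z0,z1,z0,z1,z0],z1)],[([z1,z0,z0,z1,z1],z2)],[([z3,z0,z0,z0,z3],z2),([z0,z3,
    z0,z0,z0],z1),([z0,z0,z3,z0,z0],z4)],[([z1,z0,z0,y2,z1],z0),([z0,z1,z0,z1,z0],z1)],[([z1,z0,z1,z0,z1],z2),([z0,z3,
    z0,z0,z0],z1)],[([z1,z0,z1,z0,z1],z2),([z0,z2,z0,z0,z0],z1)],[([z1,z0,z1,z0,z1],z2)]],[[]]],
    [.leafM k3 [k1,k2,k3,k4,k0] [(z1,[z1])] [],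
    .tor k12 false k0 [(z1,[y2,y1,z2]),(z1,[z1]),(z1,[z1,z1])],
    .leafM k5 [k0,k1,k2,k3,k4] [(z1,[z0,z1]),(z1,[y1,y1,y1,z2])] [],
    .leafM k6 [k0,k1,k2,k3,k4] [(z1,[z0,z1]),(z1,[y1,y1,y1,z3])] [],
    .leafM k6 [k0,k1,k2,k3,k4] [(z1,[z0,z1]),(z1,[y1,y1,y1,z3])] [],
    .lp [k124,(nat_lit 242),k160,k118,k74] [k59,k59,k0,k0,k41,k41,k62,k62,k84,k84] k0 [[k0,k0,k0,k0,k0,k0,k3],[k0,k0,k40,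
    k121],[k121,k0,k0,k0,k0,k3],[k40],[k0,k0,k0,k3],[k0,k0,k0,k0,k0,k0,k0,k1],[k0,k0,k0,k0,k1],[k0,
    k3]] (nat_lit 480) k6
    [[(k8,k99)],[(k9,k96),(k6,k121),(k2,(nat_lit 223)),(k5,(nat_lit 263))],[(k2,k121),(k9,k158),(k5,k161),(k6,k183)],
    [(k3,k121),(k7,k180),(k4,k198),(k0,(nat_lit 223))],[(k7,k142),(k4,k160),(k3,k161),(k0,(nat_lit 263))],[(k9,k118),
    (k6,k139),(k5,k160),(k2,k198)],[(k9,k96),(k6,k117),(k5,k142),(k2,k180)],[(k7,k117),(k0,k121),(k4,k139),(k3,k183)],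
    [(k0,k96),(k7,k96),(k4,k118),(k3,k158)],[(k1,k99)]]
    [] k0
    [[k2,k0,k0,k0,k2],[k1,k0,k0,k1,k1],[k1,k0,k0,k2,k1],[k0,k3,k0,k0,k0],[k0,k0,k2,k1,k0],[k0,k0,k1,k2,k0],[k0,k0,k0,
    k3,k0],[k0,k0,k0,k4,k0]]
    [.contra [y1,z2,z2],.ref k2 k0 [(z1,[z1,z1]),(z1,[y1,z1,z2]),(z1,[y1,y1,y2,z2])],.ref k3 k1 [(z1,[z1,z2]),(z1,[z1,
    y1]),(z1,[y1,y2,y3,z3])],.ref k3 k1 [(z1,[y1,z3,z3]),(z1,[y1,z0,z3]),(z1,[z1,y3,y6,z3])],.contra [z1,z2,z3,y2],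
    .contra [z1,z1,z1,y1],.ref k4 k0 [(z1,[z1,z3]),(z1,[y1,z0,z3]),(z1,[y1,y3,y3,z3])],.ref k2 k0 [(z2,[z1,z4]),(z2,
    [y1,z0,z4]),(z2,[y1,y4,y4,z4])]],
    .lp [k16,k40,k40,k50,k32] [k17,k17,k5,k5,k5,k5,k0,k0,k9,k9] k0 [[k0,k0,k4],[k0,k0,k0,k0,k0,k0,k12],[],[k0,k4],[k0,k0,
    k0,k0,k0,k0,k0,k10],[],[k0,k0,k0,k0,k0,k10],[k12]] k120 k6
    [[(k8,k24)],[(k5,k24),(k9,k24),(k2,k28),(k6,k45)],[(k9,k24),(k5,k40),(k2,k44),(k6,k45)],[(k0,k28),(k4,k40),(k3,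
    k44),(k7,k45)],[(k0,k24),(k3,k40),(k4,k40),(k7,k45)],[(k6,k35),(k9,k36),(k2,k40),(k5,k40)],[(k2,k45),(k5,k45),(k6,
    k50),(k9,k51)],[(k4,k35),(k0,k45),(k3,k45),(k7,k50)],[(k0,k24),(k3,k24),(k4,k36),(k7,k51)],[(k1,k24)]]
    [] k0
    [[k2,k0,k0,k0,k2],[k1,k1,k0,k0,k1],[k1,k1,k1,k0,k1],[k1,k0,k1,k0,k1]]
    [.contra [y1,z2],.ref k1 k0 [(z1,[z0,z1]),(z1,[z1,y1])],.contra [y1,z0,z1],.ref k5 k1 [(z1,[z1,z1,y1]),(z1,[y1,z0,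
    z1])]],
    .leafM k6 [k0,k1,k2,k3,k4] [(z1,[z0,z1]),(z1,[y1,y1,y1,z3])] [],
    .lp [k136,k84,(nat_lit 246),k144,k108] [k55,k55,k81,k81,k0,k0,k51,k51,k69,k69] k0 [[k0,k0,k41,k0,k0,k0,k26],[k0,k0,
    k27],[k0,k0,k0,k0,k0,k69],[k27,k41],[k0,k0,k0,k69,k0,k0,k0,k92],[k0,k0,k0,k0,k0,k0,k0,k31],[k0,k0,k0,k0,k31,k92],
    [k0,k26]] (nat_lit 480) k6
    [[(k8,k122)],[(k9,k96),(k2,k137),(k6,k140),(k5,k150)],[(k9,k96),(k2,k125),(k5,k138),(k6,k140)],[(k4,k96),(k7,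
    k114),(k3,k125),(k0,k137)],[(k3,k138),(k0,k150),(k4,(nat_lit 246)),(k7,(nat_lit 264))],[(k2,k96),(k6,k103),(k9,
    (nat_lit 208)),(k5,(nat_lit 246))],[(k6,k113),(k2,k114),(k9,(nat_lit 218)),(k5,(nat_lit 264))],[(k4,k103),(k7,
    k113),(k0,k140),(k3,k140)],[(k0,k96),(k3,k96),(k4,(nat_lit 208)),(k7,(nat_lit 218))],[(k1,k122)]]
    [] k0
    [[k2,k0,k0,k0,k2],[k1,k1,k0,k0,k1],[k1,k1,k1,k0,k1],[k1,k1,k0,k1,k1],[k0,k3,k0,k0,k0],[k0,k2,k1,k0,k0],[k0,k2,k0,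
    k1,k0],[k0,k2,k2,k0,k0],[k0,k1,k1,k1,k0],[k0,k1,k1,k2,k0],[k0,k1,k0,k2,k0],[k0,k0,k0,k3,k0],[k0,k0,k0,k4,k0]]
    [.contra [y1,z0,y2,z2],.contra [z1,y1,y1],.contra [y1,z0,z0,z1],.contra [y1,z0,z0,z1],.ref k7 k1 [(z1,[y2,z3,z6]),
    (z1,[y1,z0,z3]),(z1,[z2,y3,y9,z3])],.contra [z1,y1,y3,z1],.contra [z1,z0,y1],.ref k3 k0 [(z1,[y1,z1,z0,z2]),(z2,
    [z1,z2,z6,y2]),(z1,[z1,y1,y3,z1])],.contra [z1,z0,y1],.contra [y1,y1,z0,z1],.contra [z1,z0,y1],.ref k3 k0 [(z1,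
    [z2,z3]),(z1,[y1,z0,z3]),(z1,[y2,y3,y3,z3])],.contra [y1,y2,y2,z2]],
    .leafM k6 [k0,k1,k2,k3,k4] [(z1,[z0,z1]),(z1,[y3,y1,z3])] [],
    .leafM k5 [k0,k1,k2,k3,k4] [(z1,[z0,z1]),(z1,[y2,y1,z2])] [],
    .lp [(nat_lit 1094800),(nat_lit 669760),(nat_lit 1113840),(nat_lit 1067430),(nat_lit 284648)] [(nat_lit 9520),
    (nat_lit 9520),(nat_lit 222040),(nat_lit 222040),k0,k0,(nat_lit 23205),(nat_lit 23205),(nat_lit 414596),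
    (nat_lit 414596)] k0 [[k0,k0,k0,(nat_lit 406640)],[],[k0,(nat_lit 406640)],[],[k0,k0,k0,k0,k0,k0,k0,
    (nat_lit 406640)],[k0,k0,k0,k0,k0,k0,k0,(nat_lit 355810)],[k0,k0,k0,k0,(nat_lit 355810),
    (nat_lit 406640)]] (nat_lit 2846480) k7
    [[(k8,(nat_lit 689724))],[(k2,(nat_lit 475640)),(k9,(nat_lit 689724)),(k6,(nat_lit 1081115)),(k5,
    (nat_lit 1104320))],[(k9,(nat_lit 477204)),(k2,(nat_lit 669760)),(k6,(nat_lit 868595)),(k5,(nat_lit 1298440))],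
    [(k0,(nat_lit 475640)),(k3,(nat_lit 669760)),(k7,(nat_lit 868595)),(k4,(nat_lit 891800))],[(k7,(nat_lit 1090635)),
    (k0,(nat_lit 1104320)),(k4,(nat_lit 1113840)),(k3,(nat_lit 1298440))],[(k6,(nat_lit 683995)),(k2,
    (nat_lit 891800)),(k9,(nat_lit 1055054)),(k5,(nat_lit 1113840))],[(k6,(nat_lit 711620)),(k2,(nat_lit 868595)),(k9,
    (nat_lit 1082679)),(k5,(nat_lit 1090635))],[(k4,(nat_lit 683995)),(k7,(nat_lit 711620)),(k3,(nat_lit 868595)),(k0,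
    (nat_lit 1081115))],[(k3,(nat_lit 477204)),(k0,(nat_lit 689724)),(k4,(nat_lit 1055054)),(k7,(nat_lit 1082679))],
    [(k1,(nat_lit 689724))]]
    [] k0
    [[k2,k0,k0,k0,k2],[k1,k1,k0,k0,k1],[k1,k2,k0,k0,k1],[k0,k3,k0,k0,k0],[k0,k4,k0,k0,k0],[k0,k2,k0,k1,k0],[k0,k1,k0,
    k2,k0],[k0,k0,k1,k2,k0],[k0,k0,k0,k3,k0]]
    [.contra [y1,z2],.ref k5 k0 [(z1,[z1,z1,y1]),(z1,[z0,y1,z1])],.ref k8 k0 [(z1,[z1,z2,y2]),(z1,[z0,y1,z1])],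
    .ref k9 k1 [(z1,[z0,z1]),(z1,[y1,y3,z3])],.ref k10 k0 [(z1,[z0,z1]),(z2,[z1])],.contra [z1,z1,y1],.contra [z1,z1,
    y1],.ref k8 k0 [(z1,[y1,z1]),(z1,[z0,y1,z1])],.ref k9 k0 [(z1,[z0,z1]),(z1,[y1,y3,z3])]],
    .lp [k16,k40,k40,k50,k32] [k17,k17,k5,k5,k5,k5,k0,k0,k9,k9] k0 [[k0,k0,k4],[k0,k0,k0,k0,k0,k0,k12],[],[k0,k4],[k0,k0,
    k0,k0,k0,k0,k0,k10],[],[k0,k0,k0,k0,k0,k10],[k12]] k120 k6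
    [[(k8,k24)],[(k5,k24),(k9,k24),(k2,k28),(k6,k45)],[(k9,k24),(k5,k40),(k2,k44),(k6,k45)],[(k0,k28),(k4,k40),(k3,
    k44),(k7,k45)],[(k0,k24),(k3,k40),(k4,k40),(k7,k45)],[(k6,k35),(k9,k36),(k2,k40),(k5,k40)],[(k2,k45),(k5,k45),(k6,
    k50),(k9,k51)],[(k4,k35),(k0,k45),(k3,k45),(k7,k50)],[(k0,k24),(k3,k24),(k4,k36),(k7,k51)],[(k1,k24)]]
    [] k0
    [[k2,k0,k0,k0,k2],[k1,k1,k0,k0,k1],[k1,k1,k1,k0,k1],[k1,k0,k1,k0,k1]]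
    [.ref k0 k0 [(z2,[z1])],.ref k6 k1 [(z1,[z1])],.contra [y1,z1],.ref k11 k0 [(z1,[z1])]]]⟩

/-- classes `0 0 0 0 1`, types `B0 B1 B0 B1 S0` -/
noncomputable def cT5_7 : CertT :=
  ⟨[k8,k9,k8,k9,k16],[(false,k0,[k0,k1,k2,k3,k4]),(true,k4,[k4,k3,k2,k1,k0])],[[[([z1,z0,z0,z0,z1],z1)],[([z1,z0,z0,
    z1,z1],z2),([z0,z1,z0,y1,z0],z0)],[([z2,z0,z0,z0,z2],z3),([z0,z2,z0,z0,z0],z1),([z0,z0,z2,z0,z0],z1)],[([z3,z0,z0,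
    z0,z3],z4),([z0,z3,z0,z0,z0],z1),([z0,z0,z3,z0,z0],z2)],[([z3,z0,z0,z0,z3],z5),([z0,z3,z0,z0,z0],z1),([z0,z0,z3,
    z0,z0],z1)],[([z1,z0,z0,y1,z1],z1),([z0,z1,z0,z1,z0],z1)],[([z1,z0,z0,z1,z1],z2)],[([z3,z0,z0,z0,z3],z2),([z0,z3,
    z0,z0,z0],z1),([z0,z0,z3,z0,z0],z4)],[([z1,z0,z0,y2,z1],z0),([z0,z1,z0,z1,z0],z1)],[([z1,z0,z1,z0,z1],z2),([z0,z3,
    z0,z0,z0],z1)],[([z1,z0,z1,z0,z1],z2),([z0,z2,z0,z0,z0],z1)],[([z1,z0,z1,z0,z1],z2)]],[[]]],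
    [.leafM k3 [k1,k2,k3,k4,k0] [(z1,[z1])] [],
    .tor k12 false k0 [(z1,[y2,y1,z2]),(z1,[z1]),(z1,[z1,z1])],
    .leafM k5 [k0,k1,k2,k3,k4] [(z1,[z0,z1]),(z1,[y1,y1,y1,z2])] [],
    .leafM k6 [k0,k1,k2,k3,k4] [(z1,[z0,z1]),(z1,[y1,y1,y1,z3])] [],
    .leafM k6 [k0,k1,k2,k3,k4] [(z1,[z0,z1]),(z1,[y1,y1,y1,z3])] [],
    .lp [(nat_lit 204),(nat_lit 478),(nat_lit 320),(nat_lit 242),k192] [k137,k137,k0,k0,k79,k79,k118,k118,k143,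
    k143] k0 [[k0,k0,k0,k0,k0,k0,k6,k6],[k0,k0,k80,(nat_lit 236)],[(nat_lit 236)],[k80],[],[k0,k0,k0,k0,k0,k0,k0,k8],
    [k0,k6,k0,k0,k8],[k0,k6]] (nat_lit 960) k6
    [[(k8,k198),(k1,(nat_lit 204))],[(k9,k192),(k6,(nat_lit 217)),(k2,(nat_lit 421)),(k5,(nat_lit 498))],[(k2,
    (nat_lit 242)),(k5,(nat_lit 319)),(k9,(nat_lit 341)),(k6,(nat_lit 366))],[(k3,(nat_lit 242)),(k7,(nat_lit 360)),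
    (k4,(nat_lit 399)),(k0,(nat_lit 421))],[(k7,(nat_lit 281)),(k3,(nat_lit 319)),(k4,(nat_lit 320)),(k0,
    (nat_lit 498))],[(k9,(nat_lit 264)),(k6,(nat_lit 281)),(k5,(nat_lit 320)),(k2,(nat_lit 399))],[(k9,(nat_lit 217)),
    (k6,(nat_lit 234)),(k5,(nat_lit 281)),(k2,(nat_lit 360))],[(k0,(nat_lit 217)),(k7,(nat_lit 234)),(k4,
    (nat_lit 281)),(k3,(nat_lit 366))],[(k0,k192),(k7,(nat_lit 217)),(k4,(nat_lit 264)),(k3,(nat_lit 341))],[(k8,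
    k192),(k1,k198)]]
    [] k0
    [[k2,k0,k0,k0,k2],[k1,k0,k0,k1,k1],[k1,k0,k0,k2,k1],[k0,k3,k0,k0,k0],[k0,k0,k2,k1,k0],[k0,k0,k1,k2,k0],[k0,k0,k0,
    k3,k0],[k0,k0,k0,k4,k0]]
    [.contra [y1,z2,z2],.ref k2 k0 [(z1,[z1,z1]),(z1,[y1,z1,z2]),(z1,[y1,y1,y2,z2])],.ref k3 k1 [(z1,[z1,z2]),(z1,[z1,
    y1]),(z1,[y1,y2,y3,z3])],.ref k3 k1 [(z1,[y1,z3,z3]),(z1,[y1,z0,z3]),(z1,[z1,y3,y6,z3])],.contra [z1,z2,z3,y2],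
    .contra [z1,z1,z1,y1],.ref k4 k0 [(z1,[z1,z3]),(z1,[y1,z0,z3]),(z1,[y1,y3,y3,z3])],.ref k2 k0 [(z2,[z1,z4]),(z2,
    [y1,z0,z4]),(z2,[y1,y4,y4,z4])]],
    .lp [k72,k112,k120,k158,k72] [k43,k43,k23,k23,k19,k19,k0,k0,k43,k43] k0 [[k0,k0,k20,k8],[k0,k0,k0,k0,k0,k0,k20],[k0,
    k8],[k0,k20],[k0,k0,k0,k0,k0,k0,k0,k38],[],[k0,k0,k0,k0,k0,k38],[k20]] (nat_lit 360) k6
    [[(k1,k72),(k8,k72)],[(k9,k72),(k5,k76),(k2,k84),(k6,k135)],[(k9,k72),(k5,k124),(k2,k132),(k6,k135)],[(k0,k84),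
    (k4,k116),(k3,k132),(k7,k135)],[(k0,k76),(k4,k120),(k3,k124),(k7,k139)],[(k9,k96),(k6,k101),(k2,k116),(k5,k120)],
    [(k2,k135),(k5,k139),(k9,k153),(k6,k158)],[(k4,k101),(k0,k135),(k3,k135),(k7,k158)],[(k0,k72),(k3,k72),(k4,k96),
    (k7,k153)],[(k1,k72),(k8,k72)]]
    [] k0
    [[k2,k0,k0,k0,k2],[k1,k1,k0,k0,k1],[k1,k1,k1,k0,k1],[k1,k0,k1,k0,k1]]
    [.contra [y1,z2],.ref k1 k0 [(z1,[z0,z1]),(z1,[z1,y1])],.contra [y1,z0,z1],.ref k5 k1 [(z1,[z1,z1,y1]),(z1,[y1,z0,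
    z1])]],
    .leafM k6 [k0,k1,k2,k3,k4] [(z1,[z0,z1]),(z1,[y1,y1,y1,z3])] [],
    .lp [k104,k156,(nat_lit 204),k158,k96] [k50,k50,k24,k24,k0,k0,k23,k23,k54,k54] k0 [[k0,k0,k0,k0,k0,k0,k4,k4],[k0,k0,
    k0,k36],[k36],[k0,k0,k0,k0,k0,k44],[k0,k0,k44],[k0,k0,k0,k0,k0,k0,k0,k40],[k0,k4,k0,k0,k40],[k0,
    k4]] (nat_lit 480) k6
    [[(k8,k100),(k1,k104)],[(k9,k96),(k6,k127),(k2,k130),(k5,k190)],[(k2,k120),(k9,k130),(k6,k161),(k5,k180)],[(k3,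
    k120),(k0,k130),(k4,k180),(k7,(nat_lit 201))],[(k4,k160),(k3,k180),(k7,k181),(k0,k190)],[(k5,k160),(k2,k180),(k6,
    k181),(k9,k190)],[(k6,k118),(k9,k127),(k5,k181),(k2,(nat_lit 201))],[(k7,k118),(k0,k127),(k3,k161),(k4,k181)],
    [(k0,k96),(k7,k127),(k3,k130),(k4,k190)],[(k8,k96),(k1,k100)]]
    [] k0
    [[k2,k0,k0,k0,k2],[k1,k1,k0,k0,k1],[k1,k0,k0,k1,k1],[k1,k0,k0,k2,k1],[k0,k3,k0,k0,k0],[k0,k0,k0,k3,k0],[k0,k0,k0,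
    k4,k0]]
    [.contra [y1,z0,y2,z2],.contra [z1,y1,y1],.ref k3 k0 [(z1,[z2,z1]),(z1,[y1,z1,z3]),(z1,[y2,y1,y3,z3])],
    .contra [y1,y1,y2,z2],.ref k7 k1 [(z1,[y2,z3,z6]),(z1,[y1,z0,z3]),(z1,[z2,y3,y9,z3])],.ref k3 k0 [(z1,[z2,z3]),
    (z1,[y1,z0,z3]),(z1,[y2,y3,y3,z3])],.contra [y1,y2,y2,z2]],
    .leafM k6 [k0,k1,k2,k3,k4] [(z1,[z0,z1]),(z1,[y3,y1,z3])] [],
    .leafM k5 [k0,k1,k2,k3,k4] [(z1,[z0,z1]),(z1,[y2,y1,z2])] [],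
    .lp [k104,k156,(nat_lit 204),k158,k96] [k50,k50,k24,k24,k0,k0,k23,k23,k54,k54] k0 [[k0,k0,k0,k0,k0,k0,k4,k4],[k0,k0,
    k0,k36],[k36],[k0,k0,k0,k0,k0,k44],[k0,k0,k44],[k0,k0,k0,k0,k0,k0,k0,k40],[k0,k4,k0,k0,k40],[k0,
    k4]] (nat_lit 480) k6
    [[(k8,k100),(k1,k104)],[(k9,k96),(k6,k127),(k2,k130),(k5,k190)],[(k2,k120),(k9,k130),(k6,k161),(k5,k180)],[(k3,
    k120),(k0,k130),(k4,k180),(k7,(nat_lit 201))],[(k4,k160),(k3,k180),(k7,k181),(k0,k190)],[(k5,k160),(k2,k180),(k6,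
    k181),(k9,k190)],[(k6,k118),(k9,k127),(k5,k181),(k2,(nat_lit 201))],[(k7,k118),(k0,k127),(k3,k161),(k4,k181)],
    [(k0,k96),(k7,k127),(k3,k130),(k4,k190)],[(k8,k96),(k1,k100)]]
    [] k0
    [[k2,k0,k0,k0,k2],[k1,k1,k0,k0,k1],[k1,k0,k0,k1,k1],[k1,k0,k0,k2,k1],[k0,k3,k0,k0,k0],[k0,k0,k0,k3,k0],[k0,k0,k0,
    k4,k0]]
    [.contra [y1,z2],.ref k5 k0 [(z1,[z1,z1,y1]),(z1,[z0,y1,z1])],.ref k5 k1 [(z1,[z1,z1,y1]),(z1,[z0,y1,z1])],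
    .ref k8 k1 [(z1,[z1,z2,y2]),(z1,[z0,y1,z1])],.ref k9 k1 [(z1,[z0,z1]),(z1,[y1,y3,z3])],.ref k9 k0 [(z1,[z0,z1]),
    (z1,[y1,y3,z3])],.ref k10 k0 [(z1,[z0,z1]),(z2,[y1,y4,z4])]],
    .lp [k72,k112,k120,k158,k72] [k43,k43,k23,k23,k19,k19,k0,k0,k43,k43] k0 [[k0,k0,k20,k8],[k0,k0,k0,k0,k0,k0,k20],[k0,
    k8],[k0,k20],[k0,k0,k0,k0,k0,k0,k0,k38],[],[k0,k0,k0,k0,k0,k38],[k20]] (nat_lit 360) k6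
    [[(k1,k72),(k8,k72)],[(k9,k72),(k5,k76),(k2,k84),(k6,k135)],[(k9,k72),(k5,k124),(k2,k132),(k6,k135)],[(k0,k84),
    (k4,k116),(k3,k132),(k7,k135)],[(k0,k76),(k4,k120),(k3,k124),(k7,k139)],[(k9,k96),(k6,k101),(k2,k116),(k5,k120)],
    [(k2,k135),(k5,k139),(k9,k153),(k6,k158)],[(k4,k101),(k0,k135),(k3,k135),(k7,k158)],[(k0,k72),(k3,k72),(k4,k96),
    (k7,k153)],[(k1,k72),(k8,k72)]]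
    [] k0
    [[k2,k0,k0,k0,k2],[k1,k1,k0,k0,k1],[k1,k1,k1,k0,k1],[k1,k0,k1,k0,k1]]
    [.ref k0 k0 [(z2,[z1])],.ref k6 k1 [(z1,[z1])],.contra [y1,z1],.ref k11 k0 [(z1,[z1])]]]⟩

/-- classes `0 0 0 0 1`, types `B0 B1 B1 B0 C0` -/
noncomputable def cT5_8 : CertT :=
  ⟨[k8,k9,k9,k8,k20],[(false,k0,[k0,k1,k2,k3,k4])],[[[([z1,z0,z1,z0,z1],z2)],[]]],
    [.leafM k2 [k0,k1,k2,k3,k4] [(z1,[y1,z1])] [],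
    .lp [k6,k8,k6,k8,k6] [k1,k1,k0,k0,k1,k1,k0,k0,k1,k1] k0 [] k24 k5
    [[(k8,k6)],[(k4,k6),(k5,k6),(k2,k7),(k7,k7)],[(k4,k7),(k5,k7),(k2,k8),(k7,k8)],[(k0,k7),(k9,k7),(k3,k8),(k6,k8)],
    [(k0,k6),(k9,k6),(k3,k7),(k6,k7)],[(k0,k6),(k9,k6),(k3,k7),(k6,k7)],[(k0,k7),(k9,k7),(k3,k8),(k6,k8)],[(k4,k7),
    (k5,k7),(k2,k8),(k7,k8)],[(k4,k6),(k5,k6),(k2,k7),(k7,k7)],[(k1,k6)]]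
    [] k0
    [[k1,k0,k1,k0,k1]]
    [.ref k0 k0 [(z1,[z1])]]]⟩

/-- classes `0 0 0 0 1`, types `B0 B1 B1 B0 S0` -/
noncomputable def cT5_9 : CertT :=
  ⟨[k8,k9,k9,k8,k16],[(false,k0,[k0,k1,k2,k3,k4]),(true,k4,[k4,k3,k2,k1,k0])],[[[([z1,z0,z0,z0,y1],z0),([z0,z1,z0,z1,
    z0],z1)],[([z1,z0,z0,y1,y1],y1),([z0,z1,z0,z2,z0],z2)],[([z3,z0,z0,z0,y3],y1),([z0,z3,z0,z0,z0],z2),([z0,z0,z1,z0,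
    z2],z2)],[([z2,z0,z0,z1,y2],z0),([z0,z2,z0,z1,z0],z2)],[([z2,z0,z1,z0,z0],z2)],[([z1,z0,z1,z0,z1],z2)],[]]],
    [.leafM k2 [k0,k1,k2,k3,k4] [(z1,[z0,z1])] [],
    .tor k7 true k4 [(z1,[z1,z0,z1]),(z1,[z0,z1]),(z1,[y1,y1,z1])],
    .tor k7 true k4 [(z3,[z2,z1,z3]),(z3,[y2,y1,y6,z6]),(z1,[z0,z0,z1])],
    .lp [k28,k40,k28,k40,k42] [k7,k7,k1,k1,k7,k7,k1,k1,k0,k0] k0 [[k0,k0,k4,k0,k0,k4],[],[k0,k0,k0,k0,k0,k0,k0,k8],[k0,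
    k4],[k0,k4],[],[k0,k0,k0,k8]] k120 k6
    [[(k1,k28),(k8,k35)],[(k4,k24),(k5,k24),(k2,k34),(k7,k34)],[(k4,k34),(k5,k34),(k2,k44),(k7,k44)],[(k6,k32),(k0,
    k34),(k9,k41),(k3,k44)],[(k0,k24),(k3,k34),(k6,k34),(k9,k43)],[(k0,k24),(k3,k34),(k6,k34),(k9,k35)],[(k0,k34),(k6,
    k40),(k9,k41),(k3,k44)],[(k2,k32),(k4,k34),(k5,k34),(k7,k40)],[(k4,k35),(k2,k41),(k7,k41),(k5,k43)],[(k1,k35),(k8,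
    k42)]]
    [] k0
    [[k2,k0,k1,k0,k0],[k1,k0,k1,k0,k1],[k0,k1,k0,k2,k0]]
    [.contra [z2,y1,z3,y2],.contra [z1,z0,z1,y1],.ref k2 k0 [(z2,[y2,z3,z1]),(z1,[y1,z0,z2]),(z2,[z0,y1,y1,z2])]],
    .lp [(nat_lit 600),(nat_lit 416),(nat_lit 390),(nat_lit 520),(nat_lit 390)] [k0,k0,k92,k92,k105,k105,k40,k40,k105,
    k105] k0 [[k0,k0,k104],[k0,k0,k0,k0,k78],[],[k0,k104],[],[k78]] (nat_lit 1560) k5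
    [[(k8,(nat_lit 495)),(k1,(nat_lit 600))],[(k5,(nat_lit 391)),(k2,(nat_lit 508)),(k7,(nat_lit 560)),(k4,
    (nat_lit 573))],[(k7,(nat_lit 390)),(k4,(nat_lit 403)),(k5,(nat_lit 403)),(k2,(nat_lit 520))],[(k9,(nat_lit 403)),
    (k6,(nat_lit 468)),(k0,(nat_lit 508)),(k3,(nat_lit 520))],[(k9,(nat_lit 390)),(k0,(nat_lit 391)),(k3,
    (nat_lit 403)),(k6,(nat_lit 455))],[(k9,(nat_lit 390)),(k3,(nat_lit 403)),(k6,(nat_lit 455)),(k0,(nat_lit 573))],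
    [(k3,(nat_lit 390)),(k9,(nat_lit 455)),(k6,(nat_lit 520)),(k0,(nat_lit 560))],[(k4,(nat_lit 455)),(k5,
    (nat_lit 455)),(k2,(nat_lit 468)),(k7,(nat_lit 520))],[(k4,(nat_lit 390)),(k5,(nat_lit 390)),(k2,(nat_lit 403)),
    (k7,(nat_lit 455))],[(k8,(nat_lit 390)),(k1,(nat_lit 495))]]
    [] k0
    [[k1,k0,k1,k0,k1],[k0,k2,k0,k1,k0],[k0,k1,k0,k2,k0],[k0,k0,k1,k0,k2]]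
    [.ref k0 k0 [(z1,[y1,z1]),(z1,[y1,z0,z1])],.ref k1 k1 [(z1,[y1,y1,z1]),(z1,[z1])],.ref k3 k1 [(z1,[y1,y2,z2]),(z1,
    [z1])],.ref k0 k0 [(z2,[y1,z1]),(z2,[y1,y1,z2])]],
    .leafM k2 [k0,k1,k2,k3,k4] [(z1,[y1,z1])] [],
    .lp [k6,k8,k6,k8,k6] [k1,k1,k0,k0,k1,k1,k0,k0,k1,k1] k0 [] k24 k5
    [[(k1,k6),(k8,k6)],[(k4,k6),(k5,k6),(k2,k7),(k7,k7)],[(k4,k7),(k5,k7),(k2,k8),(k7,k8)],[(k0,k7),(k9,k7),(k3,k8),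
    (k6,k8)],[(k0,k6),(k9,k6),(k3,k7),(k6,k7)],[(k0,k6),(k9,k6),(k3,k7),(k6,k7)],[(k0,k7),(k9,k7),(k3,k8),(k6,k8)],
    [(k4,k7),(k5,k7),(k2,k8),(k7,k8)],[(k4,k6),(k5,k6),(k2,k7),(k7,k7)],[(k1,k6),(k8,k6)]]
    [] k0
    [[k2,k0,k1,k0,k0],[k1,k0,k1,k0,k1],[k0,k0,k1,k0,k2]]
    [.ref k4 k0 [(z1,[z1])],.ref k5 k0 [(z1,[z1])],.ref k4 k1 [(z1,[z1])]]]⟩

/-- classes `0 0 0 0 1`, types `C0 C0 C0 C0 C0` -/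
noncomputable def cT5_10 : CertT :=
  ⟨[k4,k4,k4,k4,k20],[(false,k0,[k0,k1,k2,k3,k4]),(true,k4,[k4,k3,k2,k1,k0])],[[[([z1,z0,z0,z1,z1],z2)],[([z1,z0,z0,
    y1,z1],z1),([z0,z1,z0,z1,z0],z1)],[([z1,z0,z0,y2,z1],z0),([z0,z1,z0,z1,z0],z1)],[([z1,z0,z1,z0,z1],z2),([z0,z3,z0,
    z0,z0],z1)],[([z1,z0,z1,z0,z1],z2),([z0,z2,z0,z0,z0],z1)],[([z1,z0,z1,z0,z1],z2)],[([z1,z0,z0,z0,z1],z1)],[]]],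
    [.leafM k1 [k0,k1,k2,k3,k4] [(z1,[y1,z1])] [],
    .leafM k1 [k1,k2,k3,k4,k0] [(z1,[y1,y1,z1])] [],
    .tor k2 true k4 [(z1,[y1,y1,z1]),(z1,[z1,z2]),(z1,[z0,y1,z1])],
    .leafM k6 [k0,k1,k2,k3,k4] [(z1,[z0,z1]),(z1,[y3,y1,z3])] [],
    .leafM k5 [k0,k1,k2,k3,k4] [(z1,[z0,z1]),(z1,[y2,y1,z2])] [],
    .lp [k72,k120,(nat_lit 200),k198,k128] [k64,k64,k40,k40,k0,k0,k1,k1,k36,k36] k0 [[k0,k0,k0,k0,k0,k0,k4],[],[],[k0,k0,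
    k0,k0,k0,k40],[k0,k0,k40],[k0,k0,k0,k0,k0,k0,k0,k80],[k0,k0,k0,k0,k80],[k0,k4]] (nat_lit 480) k6
    [[(k8,k100)],[(k3,k96),(k9,k96),(k7,k135),(k5,k136)],[(k0,k96),(k2,k120),(k4,k160),(k6,k163)],[(k3,k120),(k9,
    k124),(k5,k160),(k7,k199)],[(k0,k136),(k2,k160),(k4,k160),(k6,k199)],[(k3,k160),(k5,k160),(k7,k199),(k9,
    (nat_lit 244))],[(k6,k118),(k0,k135),(k2,k199),(k4,k199)],[(k7,k118),(k3,k163),(k9,k163),(k5,k199)],[(k0,k96),(k2,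
    k124),(k6,k163),(k4,(nat_lit 244))],[(k1,k100)]]
    [] k0
    [[k2,k0,k0,k0,k2],[k1,k1,k0,k0,k1],[k1,k2,k0,k0,k1],[k1,k0,k0,k1,k1],[k0,k3,k0,k0,k0],[k0,k2,k1,k0,k0],[k0,k0,k0,
    k3,k0],[k0,k0,k0,k4,k0]]
    [.contra [y1,z2],.ref k1 k0 [(z1,[z1,z1,y1]),(z1,[z0,y1,z1])],.ref k2 k0 [(z1,[z1,z2,y2]),(z1,[z0,y1,z1])],
    .ref k1 k1 [(z1,[z1,z1,y1]),(z1,[z0,y1,z1])],.ref k3 k1 [(z1,[z0,z1]),(z1,[y1,y3,z3])],.ref k2 k1 [(z1,[y1,z1]),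
    (z1,[z0,y1,z1])],.ref k3 k0 [(z1,[z0,z1]),(z1,[y1,y3,z3])],.ref k4 k0 [(z1,[z0,z1]),(z2,[y1,y4,z4])]],
    .leafM k1 [k3,k4,k0,k1,k2] [(z1,[z1])] [],
    .lp [k13,k20,k20,k20,k16] [k4,k3,k0,k0,k0,k0,k0,k0,k2,k2] k0 [[k0,k0,k1],[k0,k0,k0,k0,k0,k0,k0,k1],[],[k0,k1],[k0,k0,
    k0,k0,k0,k0,k1],[],[k1],[k0,k0,k0,k0,k0,k1]] k60 k5
    [[(k8,k15)],[(k5,k15),(k9,k15),(k3,k16),(k7,k16)],[(k0,k16),(k6,k19),(k4,k20),(k2,k21)],[(k9,k18),(k5,k20),(k7,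
    k20),(k3,k21)],[(k0,k15),(k2,k20),(k4,k20),(k6,k20)],[(k9,k17),(k3,k20),(k5,k20),(k7,k20)],[(k0,k16),(k2,k20),(k4,
    k20),(k6,k21)],[(k9,k18),(k3,k19),(k5,k20),(k7,k21)],[(k0,k15),(k4,k17),(k2,k18),(k6,k18)],[(k1,k15)]]
    [] k0
    [[k1,k1,k0,k0,k1],[k1,k0,k1,k0,k1],[k1,k0,k0,k1,k1],[k0,k1,k1,k1,k0]]
    [.ref k0 k1 [(z1,[z1])],.ref k5 k0 [(z1,[z1])],.ref k0 k0 [(z1,[z1])],.ref k6 k0 [(z1,[y1,z1])]]]⟩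

/-- classes `0 0 0 0 1`, types `C0 C0 C0 C0 S0` -/
noncomputable def cT5_11 : CertT :=
  ⟨[k4,k4,k4,k4,k16],[(false,k0,[k0,k1,k2,k3,k4]),(true,k4,[k4,k3,k2,k1,k0])],[[[([z1,z0,z0,z1,z1],z2)],[([z1,z0,z0,
    y1,z1],z1),([z0,z1,z0,z1,z0],z1)],[([z1,z0,z1,z0,z1],z2),([z0,z3,z0,z0,z0],z1)],[([z1,z0,z0,y2,z1],z0),([z0,z1,z0,
    z1,z0],z1)],[([z1,z0,z1,z0,z1],z2),([z0,z2,z0,z0,z0],z1)],[([z1,z0,z1,z0,z1],z2)],[([z1,z0,z0,z0,z1],z1)],[]]],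
    [.leafM k1 [k0,k1,k2,k3,k4] [(z1,[y1,z1])] [],
    .leafM k1 [k1,k2,k3,k4,k0] [(z1,[y1,y1,z1])] [],
    .leafM k6 [k0,k1,k2,k3,k4] [(z1,[z0,z1]),(z1,[y3,y1,z3])] [],
    .tor k2 true k4 [(z1,[y1,y1,z1]),(z1,[z1,z2]),(z1,[z0,y1,z1])],
    .leafM k5 [k0,k1,k2,k3,k4] [(z1,[z0,z1]),(z1,[y2,y1,z2])] [],
    .lp [k104,k160,k196,k162,k96] [k46,k46,k18,k18,k0,k0,k17,k17,k50,k50] k0 [[k0,k0,k0,k0,k0,k0,k4],[k0,k0,k0,k40],[k40],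
    [k0,k0,k0,k0,k0,k36],[k0,k0,k36],[k0,k0,k0,k0,k0,k0,k0,k44],[k0,k0,k0,k0,k44],[k0,k4]] (nat_lit 480) k6
    [[(k8,k100),(k1,k104)],[(k9,k96),(k3,k132),(k7,k133),(k5,k190)],[(k2,k120),(k0,k132),(k6,k165),(k4,k178)],[(k3,
    k120),(k9,k128),(k5,k178),(k7,k197)],[(k4,k160),(k2,k178),(k6,k179),(k0,k190)],[(k5,k160),(k3,k178),(k7,k179),(k9,
    k190)],[(k6,k118),(k0,k133),(k4,k179),(k2,k197)],[(k7,k118),(k9,k129),(k3,k165),(k5,k179)],[(k0,k96),(k2,k128),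
    (k6,k129),(k4,k190)],[(k8,k96),(k1,k100)]]
    [] k0
    [[k2,k0,k0,k0,k2],[k1,k1,k0,k0,k1],[k1,k0,k0,k1,k1],[k0,k3,k0,k0,k0],[k0,k2,k1,k0,k0],[k0,k0,k1,k2,k0],[k0,k0,k0,
    k3,k0],[k0,k0,k0,k4,k0]]
    [.contra [y1,z2],.ref k1 k0 [(z1,[z1,z1,y1]),(z1,[z0,y1,z1])],.ref k1 k1 [(z1,[z1,z1,y1]),(z1,[z0,y1,z1])],
    .ref k2 k1 [(z1,[z0,z1]),(z1,[y1,y3,z3])],.ref k3 k1 [(z1,[y1,z1]),(z1,[z0,y1,z1])],.ref k3 k0 [(z1,[y1,z1]),(z1,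
    [z0,y1,z1])],.ref k2 k0 [(z1,[z0,z1]),(z1,[y1,y3,z3])],.ref k4 k0 [(z1,[z0,z1]),(z2,[y1,y4,z4])]],
    .leafM k1 [k3,k4,k0,k1,k2] [(z1,[z1])] [],
    .lp [k28,k40,k40,k40,k30] [k7,k5,k0,k0,k0,k0,k0,k0,k5,k5] k0 [[k0,k0,k2],[k0,k0,k0,k0,k0,k0,k0,k2],[],[k0,k2],[k0,k0,
    k0,k0,k0,k0,k2],[],[k2],[k0,k0,k0,k0,k0,k2]] k120 k5
    [[(k1,k30),(k8,k30)],[(k9,k30),(k5,k31),(k3,k33),(k7,k33)],[(k0,k33),(k6,k38),(k4,k40),(k2,k42)],[(k9,k35),(k5,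
    k40),(k7,k40),(k3,k42)],[(k0,k31),(k2,k40),(k4,k40),(k6,k40)],[(k9,k33),(k3,k40),(k5,k40),(k7,k40)],[(k0,k33),(k2,
    k40),(k4,k40),(k6,k42)],[(k9,k35),(k3,k38),(k5,k40),(k7,k42)],[(k0,k30),(k4,k33),(k2,k35),(k6,k35)],[(k1,k30),(k8,
    k30)]]
    [] k0
    [[k1,k1,k0,k0,k1],[k1,k0,k1,k0,k1],[k1,k0,k0,k1,k1],[k0,k1,k1,k1,k0]]
    [.ref k0 k1 [(z1,[z1])],.ref k5 k0 [(z1,[z1])],.ref k0 k0 [(z1,[z1])],.ref k6 k0 [(z1,[y1,z1])]]]⟩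

/-- classes `0 0 0 0 1`, types `C0 C0 C0 C2 C0` -/
noncomputable def cT5_12 : CertT :=
  ⟨[k4,k4,k4,k6,k20],[(false,k0,[k0,k1,k2,k3,k4])],[[[([z1,z0,z0,z1,z1],z2)],[]]],
    [.leafM k1 [k0,k1,k2,k3,k4] [(z1,[y1,z1])] [],
    .lp [k6,k8,k8,k6,k6] [k1,k1,k0,k0,k0,k0,k1,k1,k1,k1] k0 [] k24 k5
    [[(k8,k6)],[(k6,k6),(k7,k6),(k3,k7),(k5,k7)],[(k0,k7),(k9,k7),(k2,k8),(k4,k8)],[(k6,k7),(k7,k7),(k3,k8),(k5,k8)],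
    [(k0,k7),(k9,k7),(k2,k8),(k4,k8)],[(k6,k7),(k7,k7),(k3,k8),(k5,k8)],[(k0,k6),(k9,k6),(k2,k7),(k4,k7)],[(k0,k6),
    (k9,k6),(k2,k7),(k4,k7)],[(k6,k6),(k7,k6),(k3,k7),(k5,k7)],[(k1,k6)]]
    [] k0
    [[k1,k0,k0,k1,k1]]
    [.ref k0 k0 [(z1,[z1])]]]⟩

/-- classes `0 0 0 0 1`, types `C0 C0 C0 C2 S0` -/
noncomputable def cT5_13 : CertT :=
  ⟨[k4,k4,k4,k6,k16],[(false,k0,[k0,k1,k2,k3,k4])],[[[([z1,z0,z0,z0,y1],z0),([z0,z1,z1,z0,z0],z1)],[([z2,z0,z0,z1,z0],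
    z2),([z0,z1,z0,z1,z2],z2)],[([z2,z0,z0,z1,z0],z2)],[([z1,z0,z0,z1,z1],z2)],[([z2,z0,z1,z0,y2],z0),([z0,z2,z1,z0,
    z0],z2)],[([z1,z1,z1,z0,y1],z1)],[]]],
    [.leafM k1 [k0,k1,k2,k3,k4] [(z1,[z0,z1])] [],
    .tor k8 false k0 [(z1,[z0,z1]),(z1,[y1,y1,z2]),(z1,[z1])],
    .lp [k9,k6,k8,k6,k6] [k0,k1,k2,k2,k2,k0,k2,k2,k2,k2] k0 [[k0,k0,k4],[],[],[k0,k4]] k24 k5
    [[(k8,k7),(k1,k8)],[(k5,k6),(k3,k8),(k6,k8),(k7,k8)],[(k4,k6),(k9,k6),(k0,k8),(k2,k10)],[(k6,k6),(k7,k6),(k5,k8),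
    (k3,k10)],[(k0,k6),(k2,k8),(k4,k8),(k9,k8)],[(k3,k6),(k6,k6),(k7,k6),(k5,k8)],[(k2,k6),(k4,k6),(k9,k6),(k0,k8)],
    [(k2,k6),(k4,k6),(k9,k6),(k0,k8)],[(k3,k6),(k6,k6),(k7,k6),(k5,k8)],[(k8,k6),(k1,k7)]]
    [] k0
    [[k1,k0,k0,k1,k1],[k0,k1,k2,k0,k0],[k0,k0,k0,k1,k2]]
    [.ref k0 k0 [(z1,[y1,z1]),(z1,[y1,z0,z1])],.ref k1 k0 [(z1,[z0,z1]),(z1,[y1,y1,z2])],.ref k0 k0 [(z2,[y1,z1]),(z2,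
    [y1,y1,z2])]],
    .leafM k1 [k0,k1,k2,k3,k4] [(z1,[y1,z1])] [],
    .tor k9 false k0 [(z2,[y1,y1,z2]),(z1,[z0,z1]),(z2,[z1,y1,z2])],
    .lp [k30,k34,k42,k30,k42] [k6,k6,k4,k4,k0,k0,k6,k6,k0,k0] k0 [[k0,k0,k6],[],[k0,k0,k0,k0,k2],[k0,k6],[k0,k0,k0,k0,k0,
    k0,k0,k6],[k0,k0,k0,k2],[k0,k0,k0,k0,k0,k6]] k120 k5
    [[(k1,k30),(k8,k36)],[(k5,k30),(k6,k30),(k7,k30),(k3,k32)],[(k0,k32),(k4,k38),(k9,k38),(k2,k40)],[(k7,k30),(k6,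
    k32),(k5,k38),(k3,k40)],[(k0,k30),(k2,k38),(k9,k42),(k4,k44)],[(k6,k30),(k7,k36),(k3,k38),(k5,k44)],[(k0,k30),(k2,
    k30),(k4,k36),(k9,k42)],[(k0,k30),(k4,k30),(k2,k32),(k9,k36)],[(k6,k36),(k3,k38),(k5,k42),(k7,k42)],[(k1,k36),(k8,
    k42)]]
    [] k0
    [[k2,k0,k0,k1,k0],[k1,k0,k0,k1,k1],[k0,k2,k1,k0,k0]]
    [.ref k0 k0 [(z2,[z1,z1,y1]),(z2,[y1,z1,z1])],.ref k0 k0 [(z1,[z1,z1,y1]),(z1,[y1,z0,z1])],.ref k4 k0 [(z1,[y1,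
    z2]),(z1,[z1])]],
    .lp [k6,k8,k8,k6,k6] [k1,k1,k0,k0,k0,k0,k1,k1,k1,k1] k0 [] k24 k5
    [[(k1,k6),(k8,k6)],[(k6,k6),(k7,k6),(k3,k7),(k5,k7)],[(k0,k7),(k9,k7),(k2,k8),(k4,k8)],[(k6,k7),(k7,k7),(k3,k8),
    (k5,k8)],[(k0,k7),(k9,k7),(k2,k8),(k4,k8)],[(k6,k7),(k7,k7),(k3,k8),(k5,k8)],[(k0,k6),(k9,k6),(k2,k7),(k4,k7)],
    [(k0,k6),(k9,k6),(k2,k7),(k4,k7)],[(k6,k6),(k7,k6),(k3,k7),(k5,k7)],[(k1,k6),(k8,k6)]]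
    [] k0
    [[k2,k0,k0,k1,k0],[k1,k0,k0,k1,k1],[k0,k0,k0,k1,k2]]
    [.ref k2 k0 [(z1,[z1])],.ref k3 k0 [(z1,[z1])],.ref k5 k0 [(z1,[y1,z1])]]]⟩

/-- classes `0 0 0 0 1`, types `C0 C0 C2 C0 C0` -/
noncomputable def cT5_14 : CertT :=
  ⟨[k4,k4,k6,k4,k20],[(false,k0,[k0,k1,k2,k3,k4])],[[[([z1,z1,z0,z0,z1],z2)],[([z1,z0,z0,z0,z1],z1)],[]]],
    [.leafM k1 [k1,k2,k3,k4,k0] [(z1,[y1,z1])] [],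
    .leafM k1 [k3,k4,k0,k1,k2] [(z1,[z1])] [],
    .lp [k4,k4,k2,k4,k2] [k0,k0,k0,k0,k1,k1,k0,k0,k1,k1] k0 [] k12 k5
    [[(k8,k3)],[(k4,k3),(k5,k3),(k9,k3),(k3,k4)],[(k0,k4),(k2,k4),(k6,k4),(k7,k4)],[(k4,k3),(k5,k3),(k9,k3),(k3,k4)],
    [(k0,k3),(k2,k3),(k6,k3),(k7,k3)],[(k0,k3),(k2,k3),(k6,k3),(k7,k3)],[(k4,k3),(k5,k3),(k9,k3),(k3,k4)],[(k4,k3),
    (k5,k3),(k9,k3),(k3,k4)],[(k0,k3),(k2,k3),(k6,k3),(k7,k3)],[(k1,k3)]]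
    [] k0
    [[k1,k1,k0,k0,k1],[k0,k1,k1,k1,k0]]
    [.ref k0 k0 [(z1,[z1])],.ref k1 k0 [(z1,[y1,z1])]]]⟩

/-- classes `0 0 0 0 1`, types `C0 C0 C2 C0 S0` -/
noncomputable def cT5_15 : CertT :=
  ⟨[k4,k4,k6,k4,k16],[(false,k0,[k0,k1,k2,k3,k4])],[[[([z2,z0,z0,y1,z0],z1),([z0,z2,z0,z1,z2],z3)],[([z1,z0,z0,z0,z1],
    z1),([z0,z1,z0,z1,z2],z2)],[([z2,z0,z1,z0,z0],z2),([z0,z2,z1,z0,y2],z0)],[([z2,z0,z1,z0,z0],z2)],[([z1,z1,z0,z0,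
    z1],z2)],[([z1,z0,z0,z0,z1],z1)],[]]],
    [.leafM k1 [k1,k2,k3,k4,k0] [(z2,[y1,y1,z2])] [],
    .leafM k1 [k3,k4,k0,k1,k2] [(z1,[z1])] [],
    .tor k14 false k0 [(z2,[y1,y1,z2]),(z2,[y1,z1,z2]),(z1,[z1])],
    .lp [k18,k16,k12,k12,k12] [k0,k0,k1,k1,k3,k3,k3,k3,k3,k3] k0 [] k48 k5
    [[(k8,k15),(k1,k18)],[(k4,k15),(k5,k15),(k9,k15),(k3,k17)],[(k6,k14),(k7,k14),(k2,k16),(k0,k17)],[(k4,k14),(k5,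
    k14),(k9,k14),(k3,k16)],[(k6,k12),(k7,k12),(k2,k14),(k0,k15)],[(k6,k12),(k7,k12),(k2,k14),(k0,k15)],[(k4,k12),(k5,
    k12),(k9,k12),(k3,k14)],[(k4,k12),(k5,k12),(k9,k12),(k3,k14)],[(k6,k12),(k7,k12),(k2,k14),(k0,k15)],[(k8,k12),(k1,
    k15)]]
    [] k0
    [[k1,k1,k0,k0,k1],[k0,k1,k1,k1,k0],[k0,k0,k0,k1,k2]]
    [.ref k0 k0 [(z1,[z1,z1,y1]),(z1,[z1,y1,z1])],.ref k1 k0 [(z1,[y1,z0,z1]),(z1,[y1,y1,z2])],.ref k2 k0 [(z1,[z0,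
    z1]),(z1,[y2,y1,z2])]],
    .leafM k1 [k1,k2,k3,k4,k0] [(z1,[y1,z1])] [],
    .leafM k1 [k3,k4,k0,k1,k2] [(z1,[z1])] [],
    .lp [k12,k16,k12,k12,k18] [k3,k3,k1,k1,k3,k3,k3,k3,k0,k0] k0 [] k48 k5
    [[(k1,k12),(k8,k15)],[(k4,k12),(k5,k12),(k3,k14),(k9,k15)],[(k0,k14),(k6,k14),(k7,k14),(k2,k16)],[(k4,k14),(k5,
    k14),(k3,k16),(k9,k17)],[(k0,k12),(k6,k12),(k7,k12),(k2,k14)],[(k0,k12),(k6,k12),(k7,k12),(k2,k14)],[(k4,k12),(k5,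
    k12),(k3,k14),(k9,k15)],[(k4,k12),(k5,k12),(k3,k14),(k9,k15)],[(k0,k15),(k6,k15),(k7,k15),(k2,k17)],[(k1,k15),(k8,
    k18)]]
    [] k0
    [[k2,k0,k1,k0,k0],[k1,k1,k0,k0,k1],[k0,k1,k1,k1,k0]]
    [.ref k3 k0 [(z1,[z1])],.ref k4 k0 [(z1,[z1])],.ref k5 k0 [(z1,[y1,z1])]]]⟩

/-- classes `0 0 0 0 1`, types `C0 C0 C2 C2 C0` -/
noncomputable def cT5_16 : CertT :=
  ⟨[k4,k4,k6,k6,k20],[(false,k0,[k0,k1,k2,k3,k4])],[[[([z1,z0,z1,z0,z1],z2)],[]]],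
    [.leafM k2 [k0,k1,k2,k3,k4] [(z1,[y1,z1])] [],
    .lp [k6,k8,k6,k8,k6] [k1,k1,k0,k0,k1,k1,k0,k0,k1,k1] k0 [] k24 k5
    [[(k8,k6)],[(k4,k6),(k5,k6),(k3,k7),(k6,k7)],[(k0,k7),(k9,k7),(k2,k8),(k7,k8)],[(k4,k7),(k5,k7),(k3,k8),(k6,k8)],
    [(k0,k6),(k9,k6),(k2,k7),(k7,k7)],[(k0,k6),(k9,k6),(k2,k7),(k7,k7)],[(k4,k7),(k5,k7),(k3,k8),(k6,k8)],[(k0,k7),
    (k9,k7),(k2,k8),(k7,k8)],[(k4,k6),(k5,k6),(k3,k7),(k6,k7)],[(k1,k6)]]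
    [] k0
    [[k1,k0,k1,k0,k1]]
    [.ref k0 k0 [(z1,[z1])]]]⟩

/-- classes `0 0 0 0 1`, types `C0 C0 C2 C2 S0` -/
noncomputable def cT5_17 : CertT :=
  ⟨[k4,k4,k6,k6,k16],[(false,k0,[k0,k1,k2,k3,k4]),(true,k4,[k4,k3,k2,k1,k0])],[[[([z1,z0,z0,z0,y1],z0),([z0,z1,z0,z1,
    z0],z1)],[([z1,z0,z0,y1,y1],y1),([z0,z1,z0,z2,z0],z2)],[([z3,z0,z0,z0,y3],y1),([z0,z3,z0,z0,z0],z2),([z0,z0,z1,z0,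
    z2],z2)],[([z2,z0,z0,z1,y2],z0),([z0,z2,z0,z1,z0],z2)],[([z2,z0,z1,z0,z0],z2)],[([z1,z0,z1,z0,z1],z2)],[]]],
    [.leafM k2 [k0,k1,k2,k3,k4] [(z1,[z0,z1])] [],
    .tor k10 true k4 [(z1,[z1,z0,z1]),(z1,[z0,z1]),(z1,[y1,y1,z1])],
    .tor k10 true k4 [(z3,[z2,z1,z3]),(z3,[y2,y1,y6,z6]),(z1,[z0,z0,z1])],
    .lp [(nat_lit 5304),(nat_lit 8840),(nat_lit 6240),(nat_lit 8840),(nat_lit 10200)] [(nat_lit 2448),(nat_lit 2448),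
    (nat_lit 680),(nat_lit 680),(nat_lit 1980),(nat_lit 1980),(nat_lit 680),(nat_lit 680),k0,k0] k0 [[],[k0,k0,k0,k0,
    k0,k0,(nat_lit 1105)],[],[],[],[],[],[(nat_lit 1105)]] (nat_lit 26520) k6
    [[(k1,(nat_lit 5304)),(k8,(nat_lit 7752))],[(k4,(nat_lit 5772)),(k5,(nat_lit 5772)),(k3,(nat_lit 7072)),(k6,
    (nat_lit 8177))],[(k0,(nat_lit 7072)),(k9,(nat_lit 8415)),(k2,(nat_lit 8840)),(k7,(nat_lit 8840))],[(k4,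
    (nat_lit 7540)),(k5,(nat_lit 7540)),(k3,(nat_lit 8840)),(k6,(nat_lit 8840))],[(k0,(nat_lit 5772)),(k2,
    (nat_lit 7540)),(k7,(nat_lit 7540)),(k9,(nat_lit 8220))],[(k0,(nat_lit 5772)),(k2,(nat_lit 7540)),(k7,
    (nat_lit 7540)),(k9,(nat_lit 8220))],[(k4,(nat_lit 7540)),(k5,(nat_lit 7540)),(k3,(nat_lit 8840)),(k6,
    (nat_lit 8840))],[(k0,(nat_lit 8177)),(k2,(nat_lit 8840)),(k7,(nat_lit 8840)),(k9,(nat_lit 9520))],[(k4,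
    (nat_lit 8220)),(k5,(nat_lit 8220)),(k3,(nat_lit 8415)),(k6,(nat_lit 9520))],[(k1,(nat_lit 7752)),(k8,
    (nat_lit 10200))]]
    [] k0
    [[k2,k1,k1,k0,k0],[k2,k0,k1,k0,k0],[k1,k0,k1,k0,k1]]
    [.ref k2 k0 [(z1,[z1,z1,z0,y1]),(z2,[z2,y1,z3,y2]),(z2,[z0,y1,y1,z2])],.contra [z2,y1,z3,y2],.contra [z1,z0,z1,
    y1]],
    .lp [(nat_lit 600),(nat_lit 416),(nat_lit 390),(nat_lit 520),(nat_lit 390)] [k0,k0,k92,k92,k105,k105,k40,k40,k105,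
    k105] k0 [[k0,k0,k104],[k0,k0,k0,k0,k78],[],[k0,k104],[],[k78]] (nat_lit 1560) k5
    [[(k8,(nat_lit 495)),(k1,(nat_lit 600))],[(k5,(nat_lit 391)),(k3,(nat_lit 508)),(k6,(nat_lit 560)),(k4,
    (nat_lit 573))],[(k7,(nat_lit 390)),(k9,(nat_lit 403)),(k0,(nat_lit 508)),(k2,(nat_lit 520))],[(k4,(nat_lit 403)),
    (k5,(nat_lit 403)),(k6,(nat_lit 468)),(k3,(nat_lit 520))],[(k9,(nat_lit 390)),(k0,(nat_lit 391)),(k2,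
    (nat_lit 403)),(k7,(nat_lit 455))],[(k9,(nat_lit 390)),(k2,(nat_lit 403)),(k7,(nat_lit 455)),(k0,(nat_lit 573))],
    [(k3,(nat_lit 390)),(k4,(nat_lit 455)),(k5,(nat_lit 455)),(k6,(nat_lit 520))],[(k9,(nat_lit 455)),(k2,
    (nat_lit 468)),(k7,(nat_lit 520)),(k0,(nat_lit 560))],[(k4,(nat_lit 390)),(k5,(nat_lit 390)),(k3,(nat_lit 403)),
    (k6,(nat_lit 455))],[(k8,(nat_lit 390)),(k1,(nat_lit 495))]]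
    [] k0
    [[k1,k0,k1,k0,k1],[k0,k2,k0,k1,k0],[k0,k1,k0,k2,k0],[k0,k0,k1,k0,k2]]
    [.ref k0 k0 [(z1,[y1,z1]),(z1,[y1,z0,z1])],.ref k1 k1 [(z1,[y1,y1,z1]),(z1,[z1])],.ref k3 k1 [(z1,[y1,y2,z2]),(z1,
    [z1])],.ref k0 k0 [(z2,[y1,z1]),(z2,[y1,y1,z2])]],
    .leafM k2 [k0,k1,k2,k3,k4] [(z1,[y1,z1])] [],
    .lp [k6,k8,k6,k8,k6] [k1,k1,k0,k0,k1,k1,k0,k0,k1,k1] k0 [] k24 k5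
    [[(k1,k6),(k8,k6)],[(k4,k6),(k5,k6),(k3,k7),(k6,k7)],[(k0,k7),(k9,k7),(k2,k8),(k7,k8)],[(k4,k7),(k5,k7),(k3,k8),
    (k6,k8)],[(k0,k6),(k9,k6),(k2,k7),(k7,k7)],[(k0,k6),(k9,k6),(k2,k7),(k7,k7)],[(k4,k7),(k5,k7),(k3,k8),(k6,k8)],
    [(k0,k7),(k9,k7),(k2,k8),(k7,k8)],[(k4,k6),(k5,k6),(k3,k7),(k6,k7)],[(k1,k6),(k8,k6)]]
    [] k0
    [[k2,k0,k1,k0,k0],[k1,k0,k1,k0,k1],[k0,k0,k1,k0,k2]]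
    [.ref k4 k0 [(z1,[z1])],.ref k5 k0 [(z1,[z1])],.ref k4 k1 [(z1,[z1])]]]⟩

/-- classes `0 0 0 0 1`, types `C0 C2 C0 C2 C0` -/
noncomputable def cT5_18 : CertT :=
  ⟨[k4,k6,k4,k6,k20],[(true,k4,[k4,k3,k2,k1,k0]),(false,k0,[k0,k1,k2,k3,k4])],[[[([z1,z0,z0,z1,z1],z2)],[]]],
    [.leafM k1 [k0,k1,k2,k3,k4] [(z1,[y1,z1])] [],
    .lp [k2,k2,k2,k2,k2] [k0,k0,k0,k0,k0,k0,k0,k0,k0,k0] k0 [] k8 k5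
    [[(k8,k2)],[(k2,k2),(k3,k2),(k6,k2),(k7,k2)],[(k0,k2),(k4,k2),(k5,k2),(k9,k2)],[(k0,k2),(k4,k2),(k5,k2),(k9,k2)],
    [(k2,k2),(k3,k2),(k6,k2),(k7,k2)],[(k2,k2),(k3,k2),(k6,k2),(k7,k2)],[(k0,k2),(k4,k2),(k5,k2),(k9,k2)],[(k0,k2),
    (k4,k2),(k5,k2),(k9,k2)],[(k2,k2),(k3,k2),(k6,k2),(k7,k2)],[(k1,k2)]]
    [] k0
    [[k1,k1,k0,k0,k1],[k1,k0,k0,k1,k1]]
    [.ref k0 k0 [(z1,[z1])],.ref k0 k1 [(z1,[z1])]]]⟩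

/-- classes `0 0 0 0 1`, types `C0 C2 C0 C2 S0` -/
noncomputable def cT5_19 : CertT :=
  ⟨[k4,k6,k4,k6,k16],[(false,k0,[k0,k1,k2,k3,k4]),(true,k4,[k4,k3,k2,k1,k0])],[[[([z1,z0,z0,z0,y1],z0),([z0,z1,z0,z0,
    z2],z2)],[([z1,z0,z0,z1,z1],z2),([z0,z1,z0,y2,y2],y2)],[([z1,z0,y1,z0,z1],z1),([z0,z1,z2,z0,y2],z0)],[([z1,z0,y1,
    y1,y1],y1)],[([z2,z0,z0,z1,z0],z2),([z0,z2,z0,y1,z2],z2)],[([z2,z0,z0,z1,z0],z2),([z0,z1,z0,z0,z2],z2)],[([z2,z0,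
    z0,z1,z0],z2)],[([z1,z0,z0,z1,z1],z2)],[]]],
    [.leafM k1 [k1,k2,k3,k4,k0] [(z1,[y1,y1,z1])] [],
    .leafM k1 [k0,k1,k2,k3,k4] [(z1,[y1,z0,z1])] [],
    .tor k3 false k0 [(z1,[y1,y1,z1]),(z1,[y1,z0,z1]),(z1,[z2,z1])],
    .lp [k6,k4,k4,k4,k4] [k0,k0,k1,k1,k1,k1,k1,k1,k1,k1] k0 [] k16 k5
    [[(k8,k5),(k1,k6)],[(k2,k5),(k3,k5),(k6,k5),(k7,k5)],[(k4,k4),(k5,k4),(k9,k4),(k0,k5)],[(k4,k4),(k5,k4),(k9,k4),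
    (k0,k5)],[(k2,k4),(k3,k4),(k6,k4),(k7,k4)],[(k2,k4),(k3,k4),(k6,k4),(k7,k4)],[(k4,k4),(k5,k4),(k9,k4),(k0,k5)],
    [(k4,k4),(k5,k4),(k9,k4),(k0,k5)],[(k2,k4),(k3,k4),(k6,k4),(k7,k4)],[(k8,k4),(k1,k5)]]
    [] k0
    [[k1,k1,k0,k0,k1],[k1,k0,k0,k1,k1],[k0,k1,k0,k0,k2],[k0,k0,k0,k1,k2]]
    [.ref k0 k0 [(z1,[y1,z1,z1]),(z1,[z2,y1,y1])],.ref k1 k0 [(z1,[z1]),(z1,[y2,z1,z1])],.ref k0 k0 [(z2,[y1,z1,z1]),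
    (z1,[z1])],.ref k2 k0 [(z1,[z1,z1]),(z1,[y2,y1,z1])]],
    .leafM k1 [k1,k2,k3,k4,k0] [(z2,[y1,y1,z2])] [],
    .tor k4 false k0 [(z1,[z0,z1]),(z1,[y1,y1,z2]),(z1,[z1])],
    .lp [k6,k4,k4,k4,k4] [k0,k0,k1,k1,k1,k1,k1,k1,k1,k1] k0 [] k16 k5
    [[(k8,k5),(k1,k6)],[(k2,k5),(k3,k5),(k6,k5),(k7,k5)],[(k4,k4),(k5,k4),(k9,k4),(k0,k5)],[(k4,k4),(k5,k4),(k9,k4),
    (k0,k5)],[(k2,k4),(k3,k4),(k6,k4),(k7,k4)],[(k2,k4),(k3,k4),(k6,k4),(k7,k4)],[(k4,k4),(k5,k4),(k9,k4),(k0,k5)],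
    [(k4,k4),(k5,k4),(k9,k4),(k0,k5)],[(k2,k4),(k3,k4),(k6,k4),(k7,k4)],[(k8,k4),(k1,k5)]]
    [] k0
    [[k1,k1,k0,k0,k1],[k1,k0,k0,k1,k1],[k0,k1,k0,k0,k2],[k0,k0,k0,k1,k2]]
    [.ref k4 k0 [(z1,[z0,z1]),(z1,[z2,y1])],.ref k0 k1 [(z1,[z1,y1]),(z1,[z0,z1])],.ref k5 k0 [(z1,[z0,z1]),(z1,
    [z1])],.ref k0 k1 [(z2,[z1,y1]),(z1,[z0,z1])]],
    .leafM k1 [k0,k1,k2,k3,k4] [(z1,[y1,z1])] [],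
    .lp [k4,k4,k4,k4,k6] [k1,k1,k1,k1,k1,k1,k1,k1,k0,k0] k0 [] k16 k5
    [[(k1,k4),(k8,k5)],[(k2,k4),(k3,k4),(k6,k4),(k7,k4)],[(k0,k4),(k4,k4),(k5,k4),(k9,k5)],[(k0,k4),(k4,k4),(k5,k4),
    (k9,k5)],[(k2,k4),(k3,k4),(k6,k4),(k7,k4)],[(k2,k4),(k3,k4),(k6,k4),(k7,k4)],[(k0,k4),(k4,k4),(k5,k4),(k9,k5)],
    [(k0,k4),(k4,k4),(k5,k4),(k9,k5)],[(k2,k5),(k3,k5),(k6,k5),(k7,k5)],[(k1,k5),(k8,k6)]]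
    [] k0
    [[k2,k1,k0,k0,k0],[k2,k0,k0,k1,k0],[k1,k1,k0,k0,k1],[k1,k0,k0,k1,k1]]
    [.ref k3 k0 [(z1,[z1,y1])],.ref k6 k0 [(z1,[z1])],.ref k7 k1 [(z1,[z1])],.ref k7 k0 [(z1,[z1])]]]⟩

/-- classes `0 0 0 0 1`, types `C0 C2 C2 C0 C0` -/
noncomputable def cT5_20 : CertT :=
  ⟨[k4,k6,k6,k4,k20],[(false,k0,[k0,k1,k2,k3,k4])],[[[([z1,z0,z1,z0,z1],z2)],[([z1,z0,z0,z0,z1],z1)],[]]],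
    [.leafM k2 [k0,k1,k2,k3,k4] [(z1,[y1,z1])] [],
    .leafM k1 [k3,k4,k0,k1,k2] [(z1,[z1])] [],
    .lp [k4,k2,k4,k4,k2] [k0,k0,k1,k1,k0,k0,k0,k0,k1,k1] k0 [] k12 k5
    [[(k8,k3)],[(k2,k3),(k3,k3),(k9,k3),(k4,k4)],[(k0,k3),(k5,k3),(k6,k3),(k7,k3)],[(k0,k3),(k5,k3),(k6,k3),(k7,k3)],
    [(k2,k3),(k3,k3),(k9,k3),(k4,k4)],[(k0,k4),(k5,k4),(k6,k4),(k7,k4)],[(k2,k3),(k3,k3),(k9,k3),(k4,k4)],[(k2,k3),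
    (k3,k3),(k9,k3),(k4,k4)],[(k0,k3),(k5,k3),(k6,k3),(k7,k3)],[(k1,k3)]]
    [] k0
    [[k1,k0,k1,k0,k1],[k0,k1,k1,k1,k0]]
    [.ref k0 k0 [(z1,[z1])],.ref k1 k0 [(z1,[y1,z1])]]]⟩

/-- classes `0 0 0 0 1`, types `C0 C2 C2 C0 S0` -/
noncomputable def cT5_21 : CertT :=
  ⟨[k4,k6,k6,k4,k16],[(false,k0,[k0,k1,k2,k3,k4])],[[[([z2,z0,z0,y1,z0],z1),([z0,z1,z0,z1,z0],z1)],[([z1,z0,z0,z0,z1],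
    z1),([z0,z1,z0,z0,y2],z0)],[([z1,z0,y1,z0,z1],z1),([z0,z1,z2,z0,y2],z0)],[([z1,z0,y1,y1,y1],y1)],[([z1,z0,z1,z0,
    z1],z2)],[([z1,z0,z0,z0,z1],z1)],[]]],
    [.leafM k2 [k0,k1,k2,k3,k4] [(z1,[z0,z1])] [],
    .leafM k1 [k3,k4,k0,k1,k2] [(z1,[z1])] [],
    .tor k3 false k0 [(z1,[y1,y1,z1]),(z1,[y1,z0,z1]),(z1,[z2,z1])],
    .lp [k18,k12,k16,k12,k12] [k0,k0,k3,k3,k1,k1,k3,k3,k3,k3] k0 [] k48 k5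
    [[(k8,k15),(k1,k18)],[(k2,k15),(k3,k15),(k9,k15),(k4,k17)],[(k6,k12),(k7,k12),(k5,k14),(k0,k15)],[(k6,k12),(k7,
    k12),(k5,k14),(k0,k15)],[(k2,k14),(k3,k14),(k9,k14),(k4,k16)],[(k6,k14),(k7,k14),(k5,k16),(k0,k17)],[(k2,k12),(k3,
    k12),(k9,k12),(k4,k14)],[(k2,k12),(k3,k12),(k9,k12),(k4,k14)],[(k6,k12),(k7,k12),(k5,k14),(k0,k15)],[(k8,k12),(k1,
    k15)]]
    [] k0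
    [[k1,k0,k1,k0,k1],[k0,k1,k1,k1,k0],[k0,k0,k0,k1,k2]]
    [.ref k0 k0 [(z1,[z1,z1]),(z1,[y1,z0,z1])],.ref k1 k0 [(z1,[y1,z0,z1]),(z1,[z2,z1,y1])],.ref k2 k0 [(z1,[z1,z1]),
    (z1,[y2,y1,z1])]],
    .leafM k2 [k0,k1,k2,k3,k4] [(z1,[y1,z1])] [],
    .leafM k1 [k3,k4,k0,k1,k2] [(z1,[z1])] [],
    .lp [k12,k12,k16,k12,k18] [k3,k3,k3,k3,k1,k1,k3,k3,k0,k0] k0 [] k48 k5
    [[(k1,k12),(k8,k15)],[(k2,k12),(k3,k12),(k4,k14),(k9,k15)],[(k0,k12),(k6,k12),(k7,k12),(k5,k14)],[(k0,k12),(k6,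
    k12),(k7,k12),(k5,k14)],[(k2,k14),(k3,k14),(k4,k16),(k9,k17)],[(k0,k14),(k6,k14),(k7,k14),(k5,k16)],[(k2,k12),(k3,
    k12),(k4,k14),(k9,k15)],[(k2,k12),(k3,k12),(k4,k14),(k9,k15)],[(k0,k15),(k6,k15),(k7,k15),(k5,k17)],[(k1,k15),(k8,
    k18)]]
    [] k0
    [[k2,k1,k0,k0,k0],[k1,k0,k1,k0,k1],[k0,k1,k1,k1,k0]]
    [.ref k3 k0 [(z1,[z1,y1])],.ref k4 k0 [(z1,[z1])],.ref k5 k0 [(z1,[y1,z1])]]]⟩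

/-- classes `0 0 0 0 1`, types `N0 N0 N1 N1 C0` -/
noncomputable def cT5_22 : CertT :=
  ⟨[k12,k12,k13,k13,k20],[],[[[]]],
    [.lp [k20,k26,k16,k4,k4] [k3,k3,k0,k0,k5,k5,k11,k11,k11,k11] k0 [[],[],[k0,k0,k0,k0,k0,k0,k2],[],[],[],[],[k0,k0,k0,
    k2]] k48 k5
    [[(k8,k12)],[(k7,k12),(k9,k12)],[(k6,k15),(k4,k21)],[(k9,k13),(k7,k15)],[(k6,k12),(k4,k16)],[(k5,k16),(k3,k21)],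
    [(k0,k12),(k2,k15)],[(k5,k12),(k3,k15)],[(k0,k12),(k2,k13)],[(k1,k12)]]
    [] k0
    []
    []]⟩

/-- classes `0 0 0 0 1`, types `N0 N0 N1 N1 S0` -/
noncomputable def cT5_23 : CertT :=
  ⟨[k12,k12,k13,k13,k16],[],[[[]]],
    [.lp [k12,k12,k16,k18,k12] [k3,k3,k3,k3,k1,k1,k0,k0,k3,k3] k0 [[k0,k0,k0,k0,k2],[],[],[],[],[k0,k2]] k48 k5
    [[(k1,k12),(k8,k12)],[(k9,k12),(k7,k13)],[(k6,k15),(k4,k16)],[(k9,k12),(k7,k15)],[(k4,k16),(k6,k17)],[(k3,k16),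
    (k5,k16)],[(k0,k13),(k2,k15)],[(k3,k15),(k5,k17)],[(k0,k12),(k2,k12)],[(k1,k12),(k8,k12)]]
    [] k0
    []
    []]⟩

/-- classes `0 0 0 0 1`, types `N0 N0 N1 N2 C0` -/
noncomputable def cT5_24 : CertT :=
  ⟨[k12,k12,k13,k14,k20],[],[[[]]],
    [.lp [k4,k4,k4,k2,k2] [k0,k0,k0,k0,k0,k0,k1,k1,k1,k1] k0 [] k12 k5
    [[(k8,k3)],[(k6,k3),(k7,k3)],[(k9,k3),(k4,k4)],[(k6,k3),(k7,k3)],[(k9,k3),(k4,k4)],[(k3,k4),(k5,k4)],[(k0,k3),(k2,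
    k3)],[(k0,k3),(k2,k3)],[(k3,k3),(k5,k3)],[(k1,k3)]]
    [] k0
    []
    []]⟩

/-- classes `0 0 0 0 1`, types `N0 N0 N1 N2 S0` -/
noncomputable def cT5_25 : CertT :=
  ⟨[k12,k12,k13,k14,k16],[],[[[]]],
    [.lp [k18,k12,k16,k12,k12] [k0,k0,k3,k3,k1,k1,k3,k3,k3,k3] k0 [] k48 k5
    [[(k8,k15),(k1,k18)],[(k6,k15),(k7,k15)],[(k9,k12),(k4,k14)],[(k6,k12),(k7,k12)],[(k9,k14),(k4,k16)],[(k3,k14),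
    (k5,k16)],[(k2,k12),(k0,k15)],[(k2,k12),(k0,k15)],[(k3,k12),(k5,k14)],[(k8,k12),(k1,k15)]]
    [] k0
    []
    []]⟩

/-- classes `0 0 0 0 1`, types `N0 N0 N2 N1 C0` -/
noncomputable def cT5_26 : CertT :=
  ⟨[k12,k12,k14,k13,k20],[(false,k0,[k0,k1,k2,k3,k4])],[[[([z1,z0,z0,z0,z1],z1)],[]]],
    [.leafM k3 [k1,k2,k3,k4,k0] [(z1,[z1])] [],
    .lp [k2,k2,k2,k2,k2] [k0,k0,k0,k0,k0,k0,k0,k0,k0,k0] k0 [] k8 k5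
    [[(k8,k2)],[(k4,k2),(k9,k2)],[(k6,k2),(k7,k2)],[(k4,k2),(k9,k2)],[(k6,k2),(k7,k2)],[(k0,k2),(k2,k2)],[(k3,k2),(k5,
    k2)],[(k3,k2),(k5,k2)],[(k0,k2),(k2,k2)],[(k1,k2)]]
    [] k0
    [[k0,k1,k1,k1,k0]]
    [.ref k0 k0 [(z1,[y1,z1])]]]⟩

/-- classes `0 0 0 0 1`, types `N0 N0 N2 N1 S0` -/
noncomputable def cT5_27 : CertT :=
  ⟨[k12,k12,k14,k13,k16],[(false,k0,[k0,k1,k2,k3,k4])],[[[([z1,z0,z0,z0,z1],z1)],[]]],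
    [.leafM k3 [k1,k2,k3,k4,k0] [(z1,[z1])] [],
    .lp [k2,k2,k2,k2,k2] [k0,k0,k0,k0,k0,k0,k0,k0,k0,k0] k0 [] k8 k5
    [[(k1,k2),(k8,k2)],[(k4,k2),(k9,k2)],[(k6,k2),(k7,k2)],[(k4,k2),(k9,k2)],[(k6,k2),(k7,k2)],[(k0,k2),(k2,k2)],[(k3,
    k2),(k5,k2)],[(k3,k2),(k5,k2)],[(k0,k2),(k2,k2)],[(k1,k2),(k8,k2)]]
    [] k0
    [[k0,k1,k1,k1,k0]]
    [.ref k0 k0 [(z1,[y1,z1])]]]⟩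

/-- classes `0 0 0 0 1`, types `N0 N0 N2 N2 C0` -/
noncomputable def cT5_28 : CertT :=
  ⟨[k12,k12,k14,k14,k20],[(false,k0,[k0,k1,k2,k3,k4])],[[[([z1,z0,z1,z0,z1],z2)],[]]],
    [.leafM k2 [k0,k1,k2,k3,k4] [(z1,[y1,z1])] [],
    .lp [k2,k2,k2,k2,k2] [k0,k0,k0,k0,k0,k0,k0,k0,k0,k0] k0 [] k8 k5
    [[(k8,k2)],[(k4,k2),(k6,k2)],[(k7,k2),(k9,k2)],[(k4,k2),(k6,k2)],[(k7,k2),(k9,k2)],[(k0,k2),(k2,k2)],[(k3,k2),(k5,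
    k2)],[(k0,k2),(k2,k2)],[(k3,k2),(k5,k2)],[(k1,k2)]]
    [] k0
    [[k1,k0,k1,k0,k1]]
    [.ref k0 k0 [(z1,[z1])]]]⟩

/-- classes `0 0 0 0 1`, types `N0 N0 N2 N2 S0` -/
noncomputable def cT5_29 : CertT :=
  ⟨[k12,k12,k14,k14,k16],[(false,k0,[k0,k1,k2,k3,k4])],[[[([z1,z0,z1,z0,z1],z2)],[]]],
    [.leafM k2 [k0,k1,k2,k3,k4] [(z1,[y1,z1])] [],
    .lp [k2,k2,k2,k2,k2] [k0,k0,k0,k0,k0,k0,k0,k0,k0,k0] k0 [] k8 k5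
    [[(k1,k2),(k8,k2)],[(k4,k2),(k6,k2)],[(k7,k2),(k9,k2)],[(k4,k2),(k6,k2)],[(k7,k2),(k9,k2)],[(k0,k2),(k2,k2)],[(k3,
    k2),(k5,k2)],[(k0,k2),(k2,k2)],[(k3,k2),(k5,k2)],[(k1,k2),(k8,k2)]]
    [] k0
    [[k1,k0,k1,k0,k1]]
    [.ref k0 k0 [(z1,[z1])]]]⟩

/-- classes `0 0 0 0 1`, types `N0 N1 N0 N1 C0` -/
noncomputable def cT5_30 : CertT :=
  ⟨[k12,k13,k12,k13,k20],[(true,k4,[k4,k3,k2,k1,k0]),(false,k0,[k0,k1,k2,k3,k4])],[[[([z1,z0,z1,z0,z1],z2),([z0,z3,z0,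
    z0,z0],z1)],[([z1,z0,z1,z0,z1],z2),([z0,z2,z0,z0,z0],z1)],[([z1,z0,z1,z0,z1],z2)],[]]],
    [.leafM k6 [k0,k1,k2,k3,k4] [(z1,[z0,z1]),(z1,[y3,y1,z3])] [],
    .leafM k5 [k0,k1,k2,k3,k4] [(z1,[z0,z1]),(z1,[y2,y1,z2])] [],
    .lp [k0,(nat_lit 238),k160,k120,(nat_lit 200)] [k119,k119,k0,k0,k39,k39,k59,k59,k19,k19] k0 [[k0,k0,k0,k0,k0,k0,k4],
    [k0,k0,k0,k120],[k120],[],[],[],[],[k0,k4]] (nat_lit 480) k6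
    [[(k8,k100)],[(k9,k96),(k5,(nat_lit 200))],[(k2,k118),(k6,k183)],[(k3,k118),(k7,k179)],[(k4,k160),(k0,
    (nat_lit 200))],[(k5,k160),(k9,k180)],[(k6,k120),(k2,k179)],[(k7,k120),(k3,k183)],[(k0,k96),(k4,k180)],[(k1,
    k100)]]
    [] k0
    [[k2,k0,k0,k0,k2],[k0,k3,k0,k0,k0],[k0,k4,k0,k0,k0],[k0,k0,k0,k3,k0]]
    [.contra [y1,z2],.ref k0 k0 [(z1,[z0,z1]),(z1,[y1,y3,z3])],.ref k1 k1 [(z1,[z0,z1]),(z2,[z1])],.ref k0 k1 [(z1,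
    [z0,z1]),(z1,[y1,y3,z3])]],
    .lp [k110,(nat_lit 240),(nat_lit 220),k198,(nat_lit 220)] [k65,k65,k0,k0,k10,k10,k21,k21,k10,k10] k0 [[],[],[],[],[k0,
    k0,k0,k0,k0,k0,k55],[],[],[k0,k0,k0,k0,k0,k55]] (nat_lit 660) k5
    [[(k8,k165)],[(k5,k165),(k9,k165)],[(k6,(nat_lit 219)),(k2,(nat_lit 240))],[(k7,(nat_lit 219)),(k3,
    (nat_lit 240))],[(k0,k165),(k4,(nat_lit 220))],[(k9,k165),(k5,(nat_lit 220))],[(k2,(nat_lit 219)),(k6,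
    (nat_lit 253))],[(k3,(nat_lit 219)),(k7,(nat_lit 253))],[(k0,k165),(k4,k165)],[(k1,k165)]]
    [] k0
    [[k1,k0,k1,k0,k1]]
    [.ref k2 k1 [(z1,[z1])]]]⟩

/-- classes `0 0 0 0 1`, types `N0 N1 N0 N1 S0` -/
noncomputable def cT5_31 : CertT :=
  ⟨[k12,k13,k12,k13,k16],[(true,k4,[k4,k3,k2,k1,k0]),(false,k0,[k0,k1,k2,k3,k4])],[[[([z1,z0,z1,z0,z1],z2),([z0,z3,z0,
    z0,z0],z1)],[([z1,z0,z1,z0,z1],z2),([z0,z2,z0,z0,z0],z1)],[([z1,z0,z1,z0,z1],z2)],[]]],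
    [.leafM k6 [k0,k1,k2,k3,k4] [(z1,[z0,z1]),(z1,[y3,y1,z3])] [],
    .leafM k5 [k0,k1,k2,k3,k4] [(z1,[z0,z1]),(z1,[y2,y1,z2])] [],
    .lp [k104,k120,k160,(nat_lit 238),k96] [k67,k67,k59,k59,k39,k39,k0,k0,k71,k71] k0 [[k0,k0,k0,k0,k0,k0,k4],[],[],[],[],
    [k0,k0,k0,k0,k0,k0,k0,k120],[k0,k0,k0,k0,k120],[k0,k4]] (nat_lit 480) k6
    [[(k8,k100),(k1,k104)],[(k9,k96),(k5,k132)],[(k2,k120),(k6,k183)],[(k3,k120),(k7,k179)],[(k0,k132),(k4,k160)],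
    [(k5,k160),(k9,(nat_lit 248))],[(k6,k118),(k2,k179)],[(k7,k118),(k3,k183)],[(k0,k96),(k4,(nat_lit 248))],[(k8,
    k96),(k1,k100)]]
    [] k0
    [[k2,k0,k0,k0,k2],[k0,k3,k0,k0,k0],[k0,k0,k0,k3,k0],[k0,k0,k0,k4,k0]]
    [.contra [y1,z2],.ref k0 k0 [(z1,[z0,z1]),(z1,[y1,y3,z3])],.ref k0 k1 [(z1,[z0,z1]),(z1,[y1,y3,z3])],
    .ref k1 k1 [(z1,[z0,z1]),(z2,[y1,y4,z4])]],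
    .lp [k70,k98,k80,k98,k70] [k14,k14,k0,k0,k9,k9,k0,k0,k14,k14] k0 [[],[],[k0,k0,k0,k0,k14],[],[],[k0,k0,k0,
    k14]] (nat_lit 280) k5
    [[(k1,k70),(k8,k70)],[(k9,k70),(k5,k75)],[(k2,k98),(k6,k98)],[(k7,k84),(k3,k98)],[(k0,k75),(k4,k94)],[(k9,k75),
    (k5,k94)],[(k2,k84),(k6,k98)],[(k3,k98),(k7,k98)],[(k0,k70),(k4,k75)],[(k1,k70),(k8,k70)]]
    [] k0
    [[k1,k0,k1,k0,k1]]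
    [.ref k2 k1 [(z1,[z1])]]]⟩

/-- classes `0 0 0 0 1`, types `N0 N1 N0 N2 C0` -/
noncomputable def cT5_32 : CertT :=
  ⟨[k12,k13,k12,k14,k20],[],[[[]]],
    [.lp [k104,k120,k76,k148,k86] [k22,k22,k14,k14,k36,k36,k0,k0,k31,k31] k0 [[],[],[k0,k0,k0,k0,k44],[],[k0,k0,k0,k0,k0,
    k0,k0,k22],[k0,k0,k0,k44],[k0,k0,k0,k0,k0,k22]] (nat_lit 360) k5
    [[(k8,k95)],[(k5,k90),(k6,k126)],[(k9,k103),(k2,k120)],[(k7,k90),(k3,k120)],[(k0,k90),(k4,k120)],[(k6,k90),(k5,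
    k120)],[(k2,k90),(k9,k139)],[(k4,k90),(k0,k126)],[(k3,k103),(k7,k139)],[(k1,k95)]]
    [] k0
    []
    []]⟩

/-- classes `0 0 0 0 1`, types `N0 N1 N0 N2 S0` -/
noncomputable def cT5_33 : CertT :=
  ⟨[k12,k13,k12,k14,k16],[],[[[]]],
    [.lp [k34,k40,k26,k48,k30] [k7,k7,k4,k4,k11,k11,k0,k0,k9,k9] k0 [[],[k0,k0,k0,k0,k0,k0,k1],[k0,k0,k0,k0,k14],[],[k0,k0,
    k0,k0,k0,k0,k0,k7],[k0,k0,k0,k14],[k0,k0,k0,k0,k0,k7],[k1]] k120 k5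
    [[(k8,k32),(k1,k34)],[(k5,k30),(k6,k42)],[(k9,k34),(k2,k40)],[(k7,k30),(k3,k40)],[(k0,k30),(k4,k40)],[(k6,k30),
    (k5,k40)],[(k2,k30),(k9,k46)],[(k4,k30),(k0,k42)],[(k3,k34),(k7,k46)],[(k8,k30),(k1,k32)]]
    [] k0
    []
    []]⟩

/-- classes `0 0 0 0 1`, types `N0 N1 N1 N0 C0` -/
noncomputable def cT5_34 : CertT :=
  ⟨[k12,k13,k13,k12,k20],[(true,k4,[k4,k3,k2,k1,k0]),(false,k0,[k0,k1,k2,k3,k4])],[[[([z1,z0,z1,z0,z1],z2),([z0,z3,z0,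
    z0,z0],z1)],[([z1,z0,z1,z0,z1],z2),([z0,z2,z0,z0,z0],z1)],[([z1,z0,z1,z0,z1],z2)],[]]],
    [.leafM k6 [k0,k1,k2,k3,k4] [(z1,[z0,z1]),(z1,[y3,y1,z3])] [],
    .leafM k5 [k0,k1,k2,k3,k4] [(z1,[z0,z1]),(z1,[y2,y1,z2])] [],
    .lp [k8,k8,k8,k10,k24] [k8,k8,k8,k8,k8,k8,k7,k7,k0,k0] k0 [] k40 k6
    [[(k8,k16)],[(k5,k8),(k7,k9)],[(k2,k8),(k4,k8)],[(k3,k8),(k9,k16)],[(k0,k8),(k6,k9)],[(k3,k8),(k9,k16)],[(k0,k9),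
    (k6,k10)],[(k5,k9),(k7,k10)],[(k2,k16),(k4,k16)],[(k1,k16)]]
    [] k0
    [[k0,k3,k0,k0,k0],[k0,k4,k0,k0,k0],[k0,k0,k0,k3,k0]]
    [.ref k0 k0 [(z1,[z0,z1]),(z1,[y1,y3,z3])],.ref k1 k1 [(z1,[z0,z1]),(z2,[z1])],.ref k0 k1 [(z1,[z0,z1]),(z1,[y1,
    y3,z3])]],
    .lp [k6,k8,k6,k8,k6] [k1,k1,k0,k0,k1,k1,k0,k0,k1,k1] k0 [] k24 k5
    [[(k8,k6)],[(k5,k6),(k7,k7)],[(k4,k7),(k2,k8)],[(k9,k7),(k3,k8)],[(k0,k6),(k6,k7)],[(k9,k6),(k3,k7)],[(k0,k7),(k6,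
    k8)],[(k5,k7),(k7,k8)],[(k4,k6),(k2,k7)],[(k1,k6)]]
    [] k0
    [[k1,k0,k1,k0,k1]]
    [.ref k2 k1 [(z1,[z1])]]]⟩

/-- classes `0 0 0 0 1`, types `N0 N1 N1 N0 S0` -/
noncomputable def cT5_35 : CertT :=
  ⟨[k12,k13,k13,k12,k16],[(true,k4,[k4,k3,k2,k1,k0]),(false,k0,[k0,k1,k2,k3,k4])],[[[([z1,z0,z1,z0,z1],z2),([z0,z3,z0,
    z0,z0],z1)],[([z1,z0,z1,z0,z1],z2),([z0,z2,z0,z0,z0],z1)],[([z1,z0,z1,z0,z1],z2)],[]]],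
    [.leafM k6 [k0,k1,k2,k3,k4] [(z1,[z0,z1]),(z1,[y3,y1,z3])] [],
    .leafM k5 [k0,k1,k2,k3,k4] [(z1,[z0,z1]),(z1,[y2,y1,z2])] [],
    .lp [k24,k10,k8,k8,k8] [k0,k0,k7,k7,k8,k8,k8,k8,k8,k8] k0 [] k40 k6
    [[(k8,k16),(k1,k24)],[(k5,k16),(k7,k16)],[(k4,k9),(k2,k10)],[(k9,k9),(k3,k10)],[(k6,k8),(k0,k16)],[(k9,k8),(k3,
    k9)],[(k6,k8),(k0,k16)],[(k5,k8),(k7,k8)],[(k4,k8),(k2,k9)],[(k8,k8),(k1,k16)]]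
    [] k0
    [[k0,k3,k0,k0,k0],[k0,k0,k0,k3,k0],[k0,k0,k0,k4,k0]]
    [.ref k0 k0 [(z1,[z0,z1]),(z1,[y1,y3,z3])],.ref k0 k1 [(z1,[z0,z1]),(z1,[y1,y3,z3])],.ref k1 k1 [(z1,[z0,z1]),(z2,
    [y1,y4,z4])]],
    .lp [k6,k8,k6,k8,k6] [k1,k1,k0,k0,k1,k1,k0,k0,k1,k1] k0 [] k24 k5
    [[(k1,k6),(k8,k6)],[(k5,k6),(k7,k7)],[(k4,k7),(k2,k8)],[(k9,k7),(k3,k8)],[(k0,k6),(k6,k7)],[(k9,k6),(k3,k7)],[(k0,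
    k7),(k6,k8)],[(k5,k7),(k7,k8)],[(k4,k6),(k2,k7)],[(k1,k6),(k8,k6)]]
    [] k0
    [[k1,k0,k1,k0,k1]]
    [.ref k2 k1 [(z1,[z1])]]]⟩

/-- classes `0 0 0 0 1`, types `N0 N1 N1 N3 C0` -/
noncomputable def cT5_36 : CertT :=
  ⟨[k12,k13,k13,k15,k20],[],[[[]]],
    [.lp [k6,k8,k6,k6,k6] [k1,k1,k0,k0,k1,k1,k1,k1,k1,k1] k0 [] k24 k5
    [[(k8,k6)],[(k5,k6),(k7,k6)],[(k4,k7),(k2,k8)],[(k6,k7),(k3,k8)],[(k0,k6),(k9,k6)],[(k6,k6),(k3,k7)],[(k0,k6),(k9,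
    k6)],[(k4,k6),(k2,k7)],[(k5,k6),(k7,k6)],[(k1,k6)]]
    [] k0
    []
    []]⟩

/-- classes `0 0 0 0 1`, types `N0 N1 N1 N3 S0` -/
noncomputable def cT5_37 : CertT :=
  ⟨[k12,k13,k13,k15,k16],[],[[[]]],
    [.lp [k6,k8,k6,k6,k6] [k1,k1,k0,k0,k1,k1,k1,k1,k1,k1] k0 [] k24 k5
    [[(k1,k6),(k8,k6)],[(k5,k6),(k7,k6)],[(k4,k7),(k2,k8)],[(k6,k7),(k3,k8)],[(k0,k6),(k9,k6)],[(k6,k6),(k3,k7)],[(k0,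
    k6),(k9,k6)],[(k4,k6),(k2,k7)],[(k5,k6),(k7,k6)],[(k1,k6),(k8,k6)]]
    [] k0
    []
    []]⟩

/-- classes `0 0 0 0 1`, types `N0 N1 N2 N0 C0` -/
noncomputable def cT5_38 : CertT :=
  ⟨[k12,k13,k14,k12,k20],[],[[[]]],
    [.lp [k2,k4,k4,k2,k4] [k1,k1,k0,k0,k0,k0,k1,k1,k0,k0] k0 [] k12 k5
    [[(k8,k3)],[(k4,k3),(k5,k3)],[(k7,k3),(k2,k4)],[(k3,k4),(k9,k4)],[(k0,k3),(k6,k3)],[(k0,k3),(k6,k3)],[(k3,k3),(k9,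
    k3)],[(k4,k3),(k5,k3)],[(k7,k3),(k2,k4)],[(k1,k3)]]
    [] k0
    []
    []]⟩

/-- classes `0 0 0 0 1`, types `N0 N1 N2 N0 S0` -/
noncomputable def cT5_39 : CertT :=
  ⟨[k12,k13,k14,k12,k16],[],[[[]]],
    [.lp [k18,k16,k12,k12,k12] [k0,k0,k1,k1,k3,k3,k3,k3,k3,k3] k0 [] k48 k5
    [[(k8,k15),(k1,k18)],[(k4,k15),(k5,k15)],[(k7,k14),(k2,k16)],[(k9,k14),(k3,k16)],[(k6,k12),(k0,k15)],[(k6,k12),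
    (k0,k15)],[(k9,k12),(k3,k14)],[(k4,k12),(k5,k12)],[(k7,k12),(k2,k14)],[(k8,k12),(k1,k15)]]
    [] k0
    []
    []]⟩

/-- classes `0 0 0 0 1`, types `N0 N1 N2 N3 C0` -/
noncomputable def cT5_40 : CertT :=
  ⟨[k12,k13,k14,k15,k20],[(false,k0,[k0,k1,k2,k3,k4])],[[[([z1,z0,z1,z0,z1],z2)],[]]],
    [.leafM k2 [k0,k1,k2,k3,k4] [(z1,[y1,z1])] [],
    .lp [k6,k8,k6,k8,k6] [k1,k1,k0,k0,k1,k1,k0,k0,k1,k1] k0 [] k24 k5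
    [[(k8,k6)],[(k4,k6),(k5,k6)],[(k2,k8),(k7,k8)],[(k3,k8),(k6,k8)],[(k0,k6),(k9,k6)],[(k0,k6),(k9,k6)],[(k3,k8),(k6,
    k8)],[(k2,k8),(k7,k8)],[(k4,k6),(k5,k6)],[(k1,k6)]]
    [] k0
    [[k1,k0,k1,k0,k1]]
    [.ref k0 k0 [(z1,[z1])]]]⟩

/-- classes `0 0 0 0 1`, types `N0 N1 N2 N3 S0` -/
noncomputable def cT5_41 : CertT :=
  ⟨[k12,k13,k14,k15,k16],[(false,k0,[k0,k1,k2,k3,k4])],[[[([z1,z0,z0,z0,y1],z0),([z0,z1,z0,z1,z0],z1)],[([z2,z0,z1,z0,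
    z0],z2)],[([z1,z0,z1,z0,z1],z2)],[]]],
    [.leafM k2 [k0,k1,k2,k3,k4] [(z1,[z0,z1])] [],
    .lp [k12,k10,k6,k10,k6] [k0,k0,k1,k1,k3,k3,k1,k1,k3,k3] k0 [] k30 k6
    [[(k8,k9),(k1,k12)],[(k4,k9),(k5,k9)],[(k2,k10),(k7,k10)],[(k3,k10),(k6,k10)],[(k9,k6),(k0,k9)],[(k9,k6),(k0,k9)],
    [(k3,k10),(k6,k10)],[(k2,k10),(k7,k10)],[(k4,k6),(k5,k6)],[(k8,k6),(k1,k9)]]
    [] k0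
    [[k1,k0,k1,k0,k1],[k0,k0,k1,k0,k2]]
    [.ref k0 k0 [(z1,[y1,z1]),(z1,[y1,z0,z1])],.ref k0 k0 [(z2,[y1,z1]),(z2,[y1,y1,z2])]],
    .leafM k2 [k0,k1,k2,k3,k4] [(z1,[y1,z1])] [],
    .lp [k6,k10,k6,k10,k12] [k3,k3,k1,k1,k3,k3,k1,k1,k0,k0] k0 [] k30 k6
    [[(k1,k6),(k8,k9)],[(k4,k6),(k5,k6)],[(k2,k10),(k7,k10)],[(k3,k10),(k6,k10)],[(k0,k6),(k9,k9)],[(k0,k6),(k9,k9)],
    [(k3,k10),(k6,k10)],[(k2,k10),(k7,k10)],[(k4,k9),(k5,k9)],[(k1,k9),(k8,k12)]]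
    [] k0
    [[k2,k0,k1,k0,k0],[k1,k0,k1,k0,k1]]
    [.ref k1 k0 [(z1,[z1])],.ref k2 k0 [(z1,[z1])]]]⟩

/-- classes `0 0 0 0 1`, types `N0 N1 N3 N1 C0` -/
noncomputable def cT5_42 : CertT :=
  ⟨[k12,k13,k15,k13,k20],[(false,k0,[k0,k1,k2,k3,k4])],[[[([z1,z0,z0,z0,z1],z1)],[]]],
    [.leafM k3 [k1,k2,k3,k4,k0] [(z1,[z1])] [],
    .lp [k2,k4,k4,k2,k4] [k1,k1,k0,k0,k0,k0,k1,k1,k0,k0] k0 [] k12 k5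
    [[(k8,k3)],[(k5,k3),(k9,k3)],[(k6,k3),(k2,k4)],[(k3,k4),(k4,k4)],[(k0,k3),(k7,k3)],[(k6,k3),(k2,k4)],[(k5,k3),(k9,
    k3)],[(k3,k3),(k4,k3)],[(k0,k3),(k7,k3)],[(k1,k3)]]
    [] k0
    [[k0,k1,k1,k1,k0]]
    [.ref k0 k0 [(z1,[y1,z1])]]]⟩

/-- classes `0 0 0 0 1`, types `N0 N1 N3 N1 S0` -/
noncomputable def cT5_43 : CertT :=
  ⟨[k12,k13,k15,k13,k16],[(false,k0,[k0,k1,k2,k3,k4])],[[[([z1,z0,z0,z0,z1],z1)],[]]],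
    [.leafM k3 [k1,k2,k3,k4,k0] [(z1,[z1])] [],
    .lp [k6,k8,k6,k6,k6] [k1,k1,k0,k0,k1,k1,k1,k1,k1,k1] k0 [] k24 k5
    [[(k1,k6),(k8,k6)],[(k5,k6),(k9,k6)],[(k6,k7),(k2,k8)],[(k4,k7),(k3,k8)],[(k0,k6),(k7,k6)],[(k6,k6),(k2,k7)],[(k5,
    k6),(k9,k6)],[(k4,k6),(k3,k7)],[(k0,k6),(k7,k6)],[(k1,k6),(k8,k6)]]
    [] k0
    [[k0,k1,k1,k1,k0]]
    [.ref k0 k0 [(z1,[y1,z1])]]]⟩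

/-- classes `0 0 0 0 1`, types `N0 N1 N3 N2 C0` -/
noncomputable def cT5_44 : CertT :=
  ⟨[k12,k13,k15,k14,k20],[(true,k4,[k4,k3,k2,k1,k0]),(false,k0,[k0,k1,k2,k3,k4])],[[[([z1,z0,z1,z0,z1],z2),([z0,z3,z0,
    z0,z0],z1)],[([z1,z0,z1,z0,z1],z2),([z0,z2,z0,z0,z0],z1)],[([z1,z0,z1,z0,z1],z2)],[]]],
    [.leafM k6 [k0,k1,k2,k3,k4] [(z1,[z0,z1]),(z1,[y3,y1,z3])] [],
    .leafM k5 [k0,k1,k2,k3,k4] [(z1,[z0,z1]),(z1,[y2,y1,z2])] [],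
    .lp [k8,k8,k8,k10,k24] [k8,k8,k8,k8,k8,k8,k7,k7,k0,k0] k0 [] k40 k6
    [[(k8,k16)],[(k5,k8),(k6,k9)],[(k2,k8),(k9,k16)],[(k3,k8),(k4,k8)],[(k0,k8),(k7,k9)],[(k2,k8),(k9,k16)],[(k5,k9),
    (k6,k10)],[(k0,k9),(k7,k10)],[(k3,k16),(k4,k16)],[(k1,k16)]]
    [] k0
    [[k0,k3,k0,k0,k0],[k0,k4,k0,k0,k0],[k0,k0,k0,k3,k0]]
    [.ref k0 k0 [(z1,[z0,z1]),(z1,[y1,y3,z3])],.ref k1 k1 [(z1,[z0,z1]),(z2,[z1])],.ref k0 k1 [(z1,[z0,z1]),(z1,[y1,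
    y3,z3])]],
    .lp [k6,k8,k6,k8,k6] [k1,k1,k0,k0,k1,k1,k0,k0,k1,k1] k0 [] k24 k5
    [[(k8,k6)],[(k5,k6),(k6,k7)],[(k9,k7),(k2,k8)],[(k4,k7),(k3,k8)],[(k0,k6),(k7,k7)],[(k9,k6),(k2,k7)],[(k5,k7),(k6,
    k8)],[(k0,k7),(k7,k8)],[(k4,k6),(k3,k7)],[(k1,k6)]]
    [] k0
    [[k1,k0,k1,k0,k1]]
    [.ref k2 k1 [(z1,[z1])]]]⟩

/-- classes `0 0 0 0 1`, types `N0 N1 N3 N2 S0` -/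
noncomputable def cT5_45 : CertT :=
  ⟨[k12,k13,k15,k14,k16],[(true,k4,[k4,k3,k2,k1,k0]),(false,k0,[k0,k1,k2,k3,k4])],[[[([z1,z0,z1,z0,z1],z2),([z0,z3,z0,
    z0,z0],z1)],[([z1,z0,z1,z0,z1],z2),([z0,z2,z0,z0,z0],z1)],[([z1,z0,z1,z0,z1],z2)],[]]],
    [.leafM k6 [k0,k1,k2,k3,k4] [(z1,[z0,z1]),(z1,[y3,y1,z3])] [],
    .leafM k5 [k0,k1,k2,k3,k4] [(z1,[z0,z1]),(z1,[y2,y1,z2])] [],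
    .lp [k24,k10,k8,k8,k8] [k0,k0,k7,k7,k8,k8,k8,k8,k8,k8] k0 [] k40 k6
    [[(k8,k16),(k1,k24)],[(k5,k16),(k6,k16)],[(k9,k9),(k2,k10)],[(k4,k9),(k3,k10)],[(k7,k8),(k0,k16)],[(k9,k8),(k2,
    k9)],[(k5,k8),(k6,k8)],[(k7,k8),(k0,k16)],[(k4,k8),(k3,k9)],[(k8,k8),(k1,k16)]]
    [] k0
    [[k0,k3,k0,k0,k0],[k0,k0,k0,k3,k0],[k0,k0,k0,k4,k0]]
    [.ref k0 k0 [(z1,[z0,z1]),(z1,[y1,y3,z3])],.ref k0 k1 [(z1,[z0,z1]),(z1,[y1,y3,z3])],.ref k1 k1 [(z1,[z0,z1]),(z2,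
    [y1,y4,z4])]],
    .lp [k6,k8,k6,k8,k6] [k1,k1,k0,k0,k1,k1,k0,k0,k1,k1] k0 [] k24 k5
    [[(k1,k6),(k8,k6)],[(k5,k6),(k6,k7)],[(k9,k7),(k2,k8)],[(k4,k7),(k3,k8)],[(k0,k6),(k7,k7)],[(k9,k6),(k2,k7)],[(k5,
    k7),(k6,k8)],[(k0,k7),(k7,k8)],[(k4,k6),(k3,k7)],[(k1,k6),(k8,k6)]]
    [] k0
    [[k1,k0,k1,k0,k1]]
    [.ref k2 k1 [(z1,[z1])]]]⟩

/-- classes `0 0 0 0 1`, types `N0 N2 N0 N2 C0` -/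
noncomputable def cT5_46 : CertT :=
  ⟨[k12,k14,k12,k14,k20],[(false,k0,[k0,k1,k2,k3,k4]),(true,k4,[k4,k3,k2,k1,k0])],[[[([z1,z0,z0,z1,z1],z2),([z0,z1,z0,
    y1,z0],z0)],[([z1,z0,z0,z1,z1],z2)],[]]],
    [.tor k13 false k0 [(z1,[y2,y2,z2]),(z1,[y2,z0,z2]),(z1,[z1]),(z1,[z1,z1])],
    .lp [k14,k26,k6,k34,k22] [k10,k10,k4,k4,k14,k14,k0,k0,k6,k6] k0 [[k0,k0,k0,k2],[],[k0,k2],[k0,k0,k0,k0,k2],[k0,k0,k0,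
    k0,k0,k0,k0,k2],[k0,k0,k2],[k0,k0,k0,k0,k0,k2]] k72 k5
    [[(k8,k18)],[(k2,k18),(k6,k24)],[(k5,k18),(k9,k24)],[(k0,k18),(k4,k18)],[(k3,k18),(k7,k18)],[(k2,k18),(k6,k18)],
    [(k5,k18),(k9,k30)],[(k4,k18),(k0,k24)],[(k3,k24),(k7,k30)],[(k1,k18)]]
    [] k0
    [[k1,k1,k0,k0,k1]]
    [.ref k0 k0 [(z1,[z0,z1]),(z1,[z1,y1])]],
    .lp [k14,k26,k6,k34,k22] [k10,k10,k4,k4,k14,k14,k0,k0,k6,k6] k0 [[k0,k0,k0,k2],[],[k0,k2],[k0,k0,k0,k0,k2],[k0,k0,k0,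
    k0,k0,k0,k0,k2],[k0,k0,k2],[k0,k0,k0,k0,k0,k2]] k72 k5
    [[(k8,k18)],[(k2,k18),(k6,k24)],[(k5,k18),(k9,k24)],[(k0,k18),(k4,k18)],[(k3,k18),(k7,k18)],[(k2,k18),(k6,k18)],
    [(k5,k18),(k9,k30)],[(k4,k18),(k0,k24)],[(k3,k24),(k7,k30)],[(k1,k18)]]
    [] k0
    [[k1,k1,k0,k0,k1]]
    [.ref k1 k1 [(z1,[z1])]]]⟩

/-- classes `0 0 0 0 1`, types `N0 N2 N0 N2 S0` -/
noncomputable def cT5_47 : CertT :=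
  ⟨[k12,k14,k12,k14,k16],[(false,k0,[k0,k1,k2,k3,k4])],[[[([z1,z0,z0,z1,z1],z2),([z0,z1,z0,y1,z0],z0)],[([z1,z0,z0,z1,
    z1],z2)],[]]],
    [.tor k13 false k0 [(z1,[y2,y2,z2]),(z1,[y2,z0,z2]),(z1,[z1]),(z1,[z1,z1])],
    .lp [k18,k26,k6,k34,k18] [k8,k8,k4,k4,k14,k14,k0,k0,k8,k8] k0 [[k0,k0,k0,k2],[],[k0,k2],[k0,k0,k0,k0,k2],[k0,k0,k0,k0,
    k0,k0,k0,k2],[k0,k0,k2],[k0,k0,k0,k0,k0,k2]] k72 k5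
    [[(k1,k18),(k8,k18)],[(k2,k20),(k6,k26)],[(k5,k18),(k9,k22)],[(k4,k18),(k0,k20)],[(k3,k18),(k7,k18)],[(k2,k18),
    (k6,k18)],[(k5,k18),(k9,k28)],[(k4,k18),(k0,k26)],[(k3,k22),(k7,k28)],[(k1,k18),(k8,k18)]]
    [] k0
    [[k1,k1,k0,k0,k1]]
    [.ref k0 k0 [(z1,[z0,z1]),(z1,[z1,y1])]],
    .lp [k6,k10,k2,k10,k6] [k2,k2,k0,k0,k4,k4,k0,k0,k2,k2] k0 [[k0,k0,k0,k0,k0,k0,k0,k2],[],[],[],[],[],[k0,k2]] k24 k5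
    [[(k1,k6),(k8,k6)],[(k6,k6),(k2,k8)],[(k5,k6),(k9,k10)],[(k4,k6),(k0,k8)],[(k3,k6),(k7,k6)],[(k2,k6),(k6,k6)],
    [(k5,k6),(k9,k8)],[(k0,k6),(k4,k6)],[(k7,k8),(k3,k10)],[(k1,k6),(k8,k6)]]
    [] k0
    [[k1,k0,k0,k1,k1]]
    [.ref k1 k0 [(z1,[z1])]]]⟩

/-- classes `0 0 0 0 1`, types `N0 N2 N1 N3 C0` -/
noncomputable def cT5_48 : CertT :=
  ⟨[k12,k14,k13,k15,k20],[],[[[]]],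
    [.lp [k2,k2,k2,k2,k2] [k0,k0,k0,k0,k0,k0,k0,k0,k0,k0] k0 [] k8 k5
    [[(k8,k2)],[(k2,k2),(k7,k2)],[(k4,k2),(k5,k2)],[(k0,k2),(k9,k2)],[(k3,k2),(k6,k2)],[(k3,k2),(k6,k2)],[(k0,k2),(k9,
    k2)],[(k4,k2),(k5,k2)],[(k2,k2),(k7,k2)],[(k1,k2)]]
    [] k0
    []
    []]⟩

/-- classes `0 0 0 0 1`, types `N0 N2 N1 N3 S0` -/
noncomputable def cT5_49 : CertT :=
  ⟨[k12,k14,k13,k15,k16],[],[[[]]],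
    [.lp [k2,k2,k2,k2,k2] [k0,k0,k0,k0,k0,k0,k0,k0,k0,k0] k0 [] k8 k5
    [[(k1,k2),(k8,k2)],[(k2,k2),(k7,k2)],[(k4,k2),(k5,k2)],[(k0,k2),(k9,k2)],[(k3,k2),(k6,k2)],[(k3,k2),(k6,k2)],[(k0,
    k2),(k9,k2)],[(k4,k2),(k5,k2)],[(k2,k2),(k7,k2)],[(k1,k2),(k8,k2)]]
    [] k0
    []
    []]⟩

/-- classes `0 0 0 0 1`, types `N0 N2 N2 N0 C0` -/
noncomputable def cT5_50 : CertT :=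
  ⟨[k12,k14,k14,k12,k20],[(false,k0,[k0,k1,k2,k3,k4])],[[[([z1,z0,z1,z0,z1],z2)],[]]],
    [.leafM k2 [k0,k1,k2,k3,k4] [(z1,[y1,z1])] [],
    .lp [k2,k2,k2,k2,k2] [k0,k0,k0,k0,k0,k0,k0,k0,k0,k0] k0 [] k8 k5
    [[(k8,k2)],[(k2,k2),(k4,k2)],[(k5,k2),(k7,k2)],[(k0,k2),(k6,k2)],[(k3,k2),(k9,k2)],[(k0,k2),(k6,k2)],[(k3,k2),(k9,
    k2)],[(k2,k2),(k4,k2)],[(k5,k2),(k7,k2)],[(k1,k2)]]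
    [] k0
    [[k1,k0,k1,k0,k1]]
    [.ref k0 k0 [(z1,[z1])]]]⟩

/-- classes `0 0 0 0 1`, types `N0 N2 N2 N0 S0` -/
noncomputable def cT5_51 : CertT :=
  ⟨[k12,k14,k14,k12,k16],[(false,k0,[k0,k1,k2,k3,k4])],[[[([z1,z0,z1,z0,z1],z2)],[]]],
    [.leafM k2 [k0,k1,k2,k3,k4] [(z1,[y1,z1])] [],
    .lp [k2,k2,k2,k2,k2] [k0,k0,k0,k0,k0,k0,k0,k0,k0,k0] k0 [] k8 k5
    [[(k1,k2),(k8,k2)],[(k2,k2),(k4,k2)],[(k5,k2),(k7,k2)],[(k0,k2),(k6,k2)],[(k3,k2),(k9,k2)],[(k0,k2),(k6,k2)],[(k3,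
    k2),(k9,k2)],[(k2,k2),(k4,k2)],[(k5,k2),(k7,k2)],[(k1,k2),(k8,k2)]]
    [] k0
    [[k1,k0,k1,k0,k1]]
    [.ref k0 k0 [(z1,[z1])]]]⟩

/-- classes `0 0 0 0 1`, types `N0 N2 N3 N1 C0` -/
noncomputable def cT5_52 : CertT :=
  ⟨[k12,k14,k15,k13,k20],[],[[[]]],
    [.lp [k0,k26,k16,k4,k24] [k13,k13,k0,k0,k5,k5,k11,k11,k1,k1] k0 [[],[],[],[],[],[k0,k0,k0,k0,k0,k0,k2],[],[k0,k0,k0,k0,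
    k2]] k48 k5
    [[(k8,k12)],[(k9,k12),(k2,k13)],[(k6,k15),(k5,k21)],[(k0,k13),(k7,k15)],[(k4,k16),(k3,k21)],[(k6,k12),(k5,k16)],
    [(k9,k12),(k2,k15)],[(k4,k12),(k3,k15)],[(k0,k12),(k7,k12)],[(k1,k12)]]
    [] k0
    []
    []]⟩

/-- classes `0 0 0 0 1`, types `N0 N2 N3 N1 S0` -/
noncomputable def cT5_53 : CertT :=
  ⟨[k12,k14,k15,k13,k16],[],[[[]]],
    [.lp [k12,k16,k16,k14,k12] [k2,k2,k0,k0,k0,k0,k1,k1,k2,k2] k0 [[k0,k0,k0,k2],[],[k0,k2]] k48 k5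
    [[(k1,k12),(k8,k12)],[(k2,k12),(k9,k12)],[(k6,k15),(k5,k18)],[(k0,k12),(k7,k15)],[(k4,k16),(k3,k18)],[(k6,k15),
    (k5,k16)],[(k9,k13),(k2,k15)],[(k3,k15),(k4,k15)],[(k0,k12),(k7,k13)],[(k1,k12),(k8,k12)]]
    [] k0
    []
    []]⟩

/-- classes `0 0 0 0 1`, types `N0 N3 N1 N2 C0` -/
noncomputable def cT5_54 : CertT :=
  ⟨[k12,k15,k13,k14,k20],[],[[[]]],
    [.lp [k2,k2,k2,k2,k2] [k0,k0,k0,k0,k0,k0,k0,k0,k0,k0] k0 [] k8 k5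
    [[(k8,k2)],[(k6,k2),(k7,k2)],[(k4,k2),(k9,k2)],[(k4,k2),(k9,k2)],[(k6,k2),(k7,k2)],[(k2,k2),(k3,k2)],[(k0,k2),(k5,
    k2)],[(k0,k2),(k5,k2)],[(k2,k2),(k3,k2)],[(k1,k2)]]
    [] k0
    []
    []]⟩

/-- classes `0 0 0 0 1`, types `N0 N3 N1 N2 S0` -/
noncomputable def cT5_55 : CertT :=
  ⟨[k12,k15,k13,k14,k16],[(false,k0,[k0,k1,k2,k3,k4]),(true,k4,[k4,k3,k2,k1,k0])],[[[([z2,z0,z0,z1,z0],z2),([z0,z1,z0,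
    z0,z2],z2)],[([z2,z0,z0,z1,z0],z2)],[]]],
    [.tor k4 false k0 [(z1,[z0,z1]),(z1,[y1,y1,z2]),(z1,[z1])],
    .lp [k6,k4,k4,k4,k4] [k0,k0,k1,k1,k1,k1,k1,k1,k1,k1] k0 [] k16 k5
    [[(k8,k5),(k1,k6)],[(k6,k5),(k7,k5)],[(k4,k4),(k9,k4)],[(k4,k4),(k9,k4)],[(k6,k4),(k7,k4)],[(k2,k4),(k3,k4)],[(k5,
    k4),(k0,k5)],[(k5,k4),(k0,k5)],[(k2,k4),(k3,k4)],[(k8,k4),(k1,k5)]]
    [] k0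
    [[k0,k1,k0,k0,k2]]
    [.ref k0 k0 [(z1,[z0,z1]),(z1,[z1])]],
    .lp [k6,k4,k4,k4,k4] [k0,k0,k1,k1,k1,k1,k1,k1,k1,k1] k0 [] k16 k5
    [[(k8,k5),(k1,k6)],[(k6,k5),(k7,k5)],[(k4,k4),(k9,k4)],[(k4,k4),(k9,k4)],[(k6,k4),(k7,k4)],[(k2,k4),(k3,k4)],[(k5,
    k4),(k0,k5)],[(k5,k4),(k0,k5)],[(k2,k4),(k3,k4)],[(k8,k4),(k1,k5)]]
    [] k0
    [[k0,k1,k0,k0,k2]]
    [.ref k1 k1 [(z1,[z1])]]]⟩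

/-- classes `0 0 0 0 1`, types `N0 N3 N2 N1 C0` -/
noncomputable def cT5_56 : CertT :=
  ⟨[k12,k15,k14,k13,k20],[(false,k0,[k0,k1,k2,k3,k4])],[[[([z1,z0,z1,z0,z1],z2)],[]]],
    [.leafM k2 [k0,k1,k2,k3,k4] [(z1,[y1,z1])] [],
    .lp [k2,k6,k4,k0,k4] [k2,k2,k0,k0,k1,k1,k3,k3,k1,k1] k0 [] k12 k5
    [[(k8,k3)],[(k4,k3),(k9,k3)],[(k6,k3),(k7,k3)],[(k6,k3),(k7,k3)],[(k4,k4),(k9,k4)],[(k0,k3),(k5,k4)],[(k2,k3),(k3,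
    k3)],[(k2,k3),(k3,k3)],[(k0,k3),(k5,k4)],[(k1,k3)]]
    [] k0
    [[k1,k0,k1,k0,k1]]
    [.ref k0 k0 [(z1,[z1])]]]⟩

/-- classes `0 0 0 0 1`, types `N0 N3 N2 N1 S0` -/
noncomputable def cT5_57 : CertT :=
  ⟨[k12,k15,k14,k13,k16],[(false,k0,[k0,k1,k2,k3,k4])],[[[([z1,z0,z1,z0,z1],z2)],[]]],
    [.leafM k2 [k0,k1,k2,k3,k4] [(z1,[y1,z1])] [],
    .lp [k6,k0,k8,k12,k6] [k3,k3,k6,k6,k2,k2,k0,k0,k3,k3] k0 [] k24 k5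
    [[(k1,k6),(k8,k6)],[(k9,k6),(k4,k7)],[(k6,k6),(k7,k6)],[(k6,k6),(k7,k6)],[(k9,k7),(k4,k8)],[(k0,k7),(k5,k8)],[(k2,
    k6),(k3,k6)],[(k2,k6),(k3,k6)],[(k0,k6),(k5,k7)],[(k1,k6),(k8,k6)]]
    [] k0
    [[k1,k0,k1,k0,k1]]
    [.ref k0 k0 [(z1,[z1])]]]⟩

/-- classes `0 0 0 0 1`, types `S0 S0 S0 S0 C0` -/
noncomputable def cT5_58 : CertT :=
  ⟨[k0,k0,k0,k0,k20],[(false,k0,[k0,k1,k2,k3,k4]),(true,k4,[k4,k3,k2,k1,k0])],[[[([z1,z0,z0,z0,z1],z1)],[([z1,z0,z0,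
    z1,z1],z2)],[([z1,z0,z1,z0,z1],z2)],[]]],
    [.leafM k0 [k4,k0,k1,k2,k3] [(z1,[z1])] [],
    .leafM k0 [k1,k2,k3,k4,k0] [(z1,[y1,z1])] [],
    .leafM k2 [k0,k1,k2,k3,k4] [(z1,[y1,z1])] [],
    .lp [k6,k10,k10,k10,k6] [k2,k2,k0,k0,k0,k0,k0,k0,k2,k2] k0 [] k30 k6
    [[(k8,k6)],[(k0,k6),(k9,k6),(k2,k8),(k3,k8),(k4,k8),(k5,k8),(k6,k8),(k7,k8)],[(k0,k8),(k9,k8),(k2,k10),(k3,k10),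
    (k4,k10),(k5,k10),(k6,k10),(k7,k10)],[(k0,k8),(k9,k8),(k2,k10),(k3,k10),(k4,k10),(k5,k10),(k6,k10),(k7,k10)],[(k0,
    k8),(k9,k8),(k2,k10),(k3,k10),(k4,k10),(k5,k10),(k6,k10),(k7,k10)],[(k0,k8),(k9,k8),(k2,k10),(k3,k10),(k4,k10),
    (k5,k10),(k6,k10),(k7,k10)],[(k0,k8),(k9,k8),(k2,k10),(k3,k10),(k4,k10),(k5,k10),(k6,k10),(k7,k10)],[(k0,k8),(k9,
    k8),(k2,k10),(k3,k10),(k4,k10),(k5,k10),(k6,k10),(k7,k10)],[(k0,k6),(k9,k6),(k2,k8),(k3,k8),(k4,k8),(k5,k8),(k6,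
    k8),(k7,k8)],[(k1,k6)]]
    [] k0
    [[k2,k0,k0,k0,k2],[k1,k1,k0,k0,k1],[k1,k0,k1,k0,k1],[k1,k0,k0,k1,k1]]
    [.ref k0 k0 [(z2,[z1])],.ref k1 k1 [(z1,[z1])],.ref k2 k0 [(z1,[z1])],.ref k1 k0 [(z1,[z1])]]]⟩

/-- classes `0 0 0 1 1`, types `C0 C0 C0 B0 B1` -/
noncomputable def cT5_59 : CertT :=
  ⟨[k4,k4,k4,k24,k25],[(false,k0,[k0,k1,k2,k3,k4]),(true,k3,[k3,k2,k1,k0,k4])],[[[([z1,z0,z0,z1,z1],z2),([z0,z1,z0,z0,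
    y1],z0)],[([z1,z0,z0,z1,z2],z2),([z0,z1,z0,z0,y2],z0)],[([z1,z0,z1,z1,z0],z2),([z0,z3,z0,z0,z0],z2)],[([z3,z0,z0,
    z3,z0],z4),([z0,z3,z0,z0,z0],z2),([z0,z0,z3,z0,z0],z2)],[([z3,z0,z0,z3,z0],z4),([z0,z3,z0,z0,z0],z1),([z0,z0,z3,
    z0,z0],z2)],[([z3,z0,z0,z3,z0],z4),([z0,z2,z0,z0,z0],z1),([z0,z0,z3,z0,z0],z2)],[([z3,z0,z0,z3,z0],z4),([z0,z3,z0,
    z0,z0],z2)],[([z1,z0,z1,z1,z0],z2),([z0,z3,z0,z0,z0],z1)],[([z1,z0,z1,z1,z0],z2),([z0,z2,z0,z0,z0],z1)],[([z1,z0,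
    z1,z1,z0],z2)],[([z1,z0,z0,z1,z1],z2)],[]]],
    [.leafM k3 [k3,k4,k0,k1,k2] [(z1,[y1,z0,z1])] [],
    .tor k11 true k3 [(z1,[y2,y1,z2]),(z1,[z1]),(z1,[z1,z1])],
    .leafM k6 [k3,k4,k0,k1,k2] [(z1,[y3,y1,z3]),(z1,[z0,z1])] [],
    .leafM k4 [k1,k2,k3,k4,k0] [(z1,[z0,z0,z1]),(z1,[y1,y1,y1,z3])] [],
    .leafM k3 [k3,k4,k0,k1,k2] [(z3,[z0,z1,z1])] [],
    .leafM k5 [k3,k4,k0,k1,k2] [(z3,[y2,y3,y2,z6]),(z1,[z0,z1])] [],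
    .lp [(nat_lit 1920),(nat_lit 2530),(nat_lit 1440),(nat_lit 1104),(nat_lit 1104)] [(nat_lit 305),(nat_lit 305),k0,k0,
    (nat_lit 545),(nat_lit 545),(nat_lit 713),(nat_lit 713),(nat_lit 713),(nat_lit 713)] k0 [[k0,k0,k0,k0,
    (nat_lit 230)],[],[],[],[],[k0,(nat_lit 230)]] (nat_lit 5520) k6
    [[(k6,(nat_lit 1512)),(k9,(nat_lit 1512))],[(k7,(nat_lit 1282)),(k5,(nat_lit 1680)),(k3,(nat_lit 2225))],[(k4,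
    (nat_lit 2215)),(k0,(nat_lit 2225)),(k2,(nat_lit 2530))],[(k7,(nat_lit 1817)),(k5,(nat_lit 1985)),(k3,
    (nat_lit 2530))],[(k4,(nat_lit 1440)),(k0,(nat_lit 1680)),(k2,(nat_lit 1985))],[(k7,(nat_lit 1272)),(k5,
    (nat_lit 1440)),(k3,(nat_lit 2215))],[(k4,(nat_lit 1272)),(k0,(nat_lit 1282)),(k2,(nat_lit 1817))],[(k8,
    (nat_lit 1104)),(k1,(nat_lit 1512))],[(k8,(nat_lit 1104)),(k1,(nat_lit 1512))],[(k6,(nat_lit 1104)),(k9,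
    (nat_lit 1104))]]
    [] k0
    [[k1,k0,k1,k1,k0],[k1,k0,k0,k1,k1],[k1,k0,k0,k1,k2],[k0,k0,k3,k0,k0],[k0,k0,k0,k0,k3],[k0,k0,k0,k0,k4]]
    [.ref k3 k0 [(z1,[z0,z1]),(z1,[z0,z0,z1]),(z1,[z3,y1])],.ref k4 k1 [(z1,[z0,z1]),(z1,[y3,z0,y1,z3]),(z1,[z0,z0,
    z1])],.ref k3 k0 [(z1,[z0,z1]),(z1,[z0,z0,z1]),(z2,[y3,y1,y2,z6])],.ref k3 k0 [(z1,[z0,z1]),(z1,[z0,z0,z1]),(z1,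
    [z1])],.ref k4 k1 [(z1,[z0,z1]),(z1,[y1,y1,y1,z3]),(z1,[z0,z0,z1])],.ref k5 k1 [(z1,[z0,z1]),(z6,[y3,y4,y4,z12]),
    (z1,[z0,z0,z1])]],
    .leafM k4 [k3,k4,k0,k1,k2] [(z1,[y3,y1,z3]),(z1,[z0,z1])] [],
    .leafM k5 [k3,k4,k0,k1,k2] [(z1,[y2,y1,z2]),(z1,[z0,z1])] [],
    .lp [k104,k62,k88,k48,k48] [k0,k0,k21,k21,k8,k8,k28,k28,k28,k28] k0 [[k0,k0,k0,k0,k28],[],[],[k0,k0,k0,k0,k0,k26],[k0,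
    k0,k26],[k0,k28]] (nat_lit 240) k6
    [[(k6,k76),(k9,k76)],[(k7,k48),(k3,k83),(k5,k96)],[(k2,k62),(k0,k83),(k4,k103)],[(k3,k62),(k5,k75),(k7,k81)],[(k4,
    k62),(k2,k75),(k0,k96)],[(k5,k62),(k7,k68),(k3,k103)],[(k0,k48),(k4,k68),(k2,k81)],[(k8,k48),(k1,k76)],[(k8,k48),
    (k1,k76)],[(k6,k48),(k9,k48)]]
    [] k0
    [[k1,k0,k0,k1,k1],[k1,k0,k0,k1,k2],[k0,k3,k0,k0,k0],[k0,k0,k3,k0,k0],[k0,k0,k0,k0,k3],[k0,k0,k0,k0,k4]]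
    [.ref k0 k1 [(z1,[z1]),(z1,[y1,z1])],.ref k1 k1 [(z1,[z1]),(z1,[y1,z1])],.ref k2 k0 [(z1,[z0,z1]),(z1,[z1])],
    .ref k6 k1 [(z1,[y1,z3]),(z1,[z1])],.ref k7 k0 [(z1,[z0,z1]),(z1,[y1,y3,z3])],.ref k8 k0 [(z1,[z0,z1]),(z2,[y1,y4,
    z4])]],
    .leafM k3 [k3,k4,k0,k1,k2] [(z1,[y1,z1])] [],
    .lp [k36,k36,k42,k24,k40] [k3,k3,k3,k3,k0,k0,k9,k9,k1,k1] k0 [[k0,k0,k6],[],[],[k0,k6]] k120 k5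
    [[(k6,k30),(k9,k38)],[(k7,k30),(k5,k33),(k3,k36)],[(k0,k36),(k4,k39),(k2,k42)],[(k7,k30),(k5,k39),(k3,k42)],[(k0,
    k33),(k2,k39),(k4,k42)],[(k7,k33),(k3,k39),(k5,k42)],[(k0,k30),(k2,k30),(k4,k33)],[(k1,k30),(k8,k32)],[(k1,k38),
    (k8,k40)],[(k6,k32),(k9,k40)]]
    [] k0
    [[k1,k1,k0,k1,k0],[k1,k0,k1,k1,k0],[k1,k0,k0,k1,k1]]
    [.ref k9 k1 [(z1,[z1])],.ref k9 k0 [(z1,[z1])],.ref k10 k0 [(z1,[z1])]]]⟩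

/-- classes `0 0 0 1 1`, types `C0 C0 C0 C0 C0` -/
noncomputable def cT5_60 : CertT :=
  ⟨[k4,k4,k4,k20,k20],[(false,k0,[k0,k1,k2,k3,k4]),(true,k3,[k3,k2,k1,k0,k4])],[[[([z3,z0,z0,z3,z0],z4),([z0,z3,z0,z0,
    z0],z2),([z0,z0,z3,z0,z0],z2)],[([z2,z0,z0,z2,z0],z3),([z0,z2,z0,z0,z0],z1),([z0,z0,z2,z0,z0],z1)],[([z3,z0,z0,z3,
    z0],z5),([z0,z3,z0,z0,z0],z1),([z0,z0,z3,z0,z0],z1)],[([z1,z0,z0,z1,y1],z1),([z0,z1,z0,z0,z1],z1)],[([z1,z0,z1,z1,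
    z0],z2),([z0,z3,z0,z0,z0],z2)],[([z1,z0,z0,z1,z2],z2),([z0,z1,z0,z0,y2],z0)],[([z1,z0,z0,z1,z1],z2),([z0,z1,z0,z0,
    y1],z0)],[([z1,z0,z1,z1,z0],z2),([z0,z3,z0,z0,z0],z1)],[([z1,z0,z1,z1,z0],z2),([z0,z2,z0,z0,z0],z1)],[([z1,z0,z1,
    z1,z0],z2)],[([z1,z0,z0,z1,z1],z2)],[]]],
    [.leafM k4 [k1,k2,k3,k4,k0] [(z1,[z0,z0,z1]),(z1,[y1,y1,y1,z3])] [],
    .leafM k1 [k0,k1,k2,k3,k4] [(z2,[z0,z1,z1])] [],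
    .leafM k4 [k3,k4,k0,k1,k2] [(z1,[y1,y1,y1,z3]),(z1,[z0,z1])] [],
    .lp [k144,k54,k62,k42,k54] [k0,k0,k45,k45,k41,k41,k51,k51,k45,k45] k0 [[k0,k0,k8],[],[],[k0,k8]] (nat_lit 240) k6
    [[(k6,k93),(k8,k99)],[(k7,k93),(k5,k95),(k3,k99)],[(k4,k58),(k2,k62),(k0,k99)],[(k7,k48),(k5,k58),(k3,k62)],[(k2,
    k58),(k4,k62),(k0,k95)],[(k7,k52),(k3,k58),(k5,k62)],[(k2,k48),(k4,k52),(k0,k93)],[(k9,k48),(k1,k93)],[(k6,k48),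
    (k8,k54)],[(k9,k54),(k1,k99)]]
    [] k0
    [[k0,k3,k0,k0,k0],[k0,k2,k1,k0,k0],[k0,k2,k2,k0,k0],[k0,k1,k2,k0,k0],[k0,k0,k3,k0,k0],[k0,k0,k0,k0,k3],[k0,k0,k0,
    k0,k4]]
    [.ref k0 k0 [(z1,[y1,z3,z3]),(z1,[z1]),(z1,[z1,y3,y6,z3])],.ref k0 k0 [(z1,[y1,z2,z1,z1]),(z1,[z1,z1,z2,y1]),(z1,
    [z1,y2,y4,z2])],.ref k1 k0 [(z2,[y1,z2,z0,z2]),(z2,[z1,z2,z4,y2]),(z2,[z1,y2,y4,z2])],.ref k0 k0 [(z1,[y1,z1,y1,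
    z2]),(z1,[z1,z2,z4,y2]),(z1,[z1,y1,y2,z1])],.ref k0 k0 [(z1,[y1,z0,y3,z3]),(z1,[z1,z3,z6,y3]),(z1,[z1])],
    .ref k2 k0 [(z1,[z1,z3]),(z1,[y1,z0,z3]),(z1,[y1,y3,y3,z3])],.ref k1 k0 [(z2,[z1,z4]),(z2,[y1,z0,z4]),(z2,[y1,y4,
    y4,z4])]],
    .leafM k6 [k3,k4,k0,k1,k2] [(z1,[y3,y1,z3]),(z1,[z0,z1])] [],
    .tor k1 true k3 [(z1,[y2,y1,z2]),(z1,[z1]),(z1,[z1,z1])],
    .leafM k1 [k0,k1,k2,k3,k4] [(z1,[y1,z0,z1])] [],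
    .leafM k4 [k3,k4,k0,k1,k2] [(z1,[y3,y1,z3]),(z1,[z0,z1])] [],
    .leafM k5 [k3,k4,k0,k1,k2] [(z1,[y2,y1,z2]),(z1,[z0,z1])] [],
    .lp [k92,k4,k122,k92,k48] [k15,k15,k59,k59,k0,k0,k15,k15,k37,k37] k0 [[k0,k0,k57],[k0,k0,k0,k0,k0,k8],[],[k0,k57],
    [k8]] (nat_lit 240) k6
    [[(k8,k70),(k6,k92)],[(k3,k48),(k5,k50),(k7,k100)],[(k0,k48),(k4,k55),(k2,k61)],[(k7,k48),(k3,k61),(k5,k63)],[(k0,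
    k50),(k2,k63),(k4,k122)],[(k3,k55),(k7,k107),(k5,k122)],[(k2,k48),(k0,k100),(k4,k107)],[(k9,k70),(k1,k92)],[(k8,
    k48),(k6,k70)],[(k9,k48),(k1,k70)]]
    [] k0
    [[k1,k1,k0,k1,k0],[k1,k1,k0,k1,k1],[k0,k3,k0,k0,k0],[k0,k2,k1,k0,k0],[k0,k2,k2,k0,k0],[k0,k0,k0,k0,k3],[k0,k0,k0,
    k0,k4]]
    [.ref k3 k0 [(z1,[z1,z1,y1]),(z1,[z0,y1,z1])],.contra [y1,z0,z1],.ref k4 k0 [(z1,[z0,z1]),(z1,[z1])],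
    .ref k5 k1 [(z1,[y1,y1,z2]),(z1,[z1,z2,y2])],.ref k6 k1 [(z2,[y1,z0,z2]),(z2,[z1,z2,y2])],.ref k7 k0 [(z1,[z0,
    z1]),(z1,[y1,y3,z3])],.ref k8 k0 [(z1,[z0,z1]),(z2,[y1,y4,z4])]],
    .leafM k1 [k0,k1,k2,k3,k4] [(z1,[y1,z1])] [],
    .lp [k36,k36,k42,k24,k40] [k3,k3,k3,k3,k0,k0,k9,k9,k1,k1] k0 [[k0,k0,k6],[],[],[k0,k6]] k120 k5
    [[(k6,k30),(k8,k38)],[(k7,k30),(k5,k33),(k3,k36)],[(k0,k36),(k4,k39),(k2,k42)],[(k7,k30),(k5,k39),(k3,k42)],[(k0,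
    k33),(k2,k39),(k4,k42)],[(k7,k33),(k3,k39),(k5,k42)],[(k0,k30),(k2,k30),(k4,k33)],[(k1,k30),(k9,k32)],[(k6,k32),
    (k8,k40)],[(k1,k38),(k9,k40)]]
    [] k0
    [[k1,k1,k0,k1,k0],[k1,k0,k1,k1,k0],[k1,k0,k0,k1,k1]]
    [.ref k9 k1 [(z1,[z1])],.ref k9 k0 [(z1,[z1])],.ref k10 k0 [(z1,[z1])]]]⟩

/-- classes `0 0 0 1 1`, types `C0 C0 C0 C0 C2` -/
noncomputable def cT5_61 : CertT :=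
  ⟨[k4,k4,k4,k20,k22],[(false,k0,[k0,k1,k2,k3,k4])],[[[([z1,z0,z0,z1,z1],z2)],[]]],
    [.leafM k1 [k0,k1,k2,k3,k4] [(z1,[y1,z1])] [],
    .lp [k6,k8,k8,k6,k6] [k1,k1,k0,k0,k0,k0,k1,k1,k1,k1] k0 [] k24 k5
    [[(k8,k6),(k9,k6)],[(k7,k6),(k3,k7),(k5,k7)],[(k0,k7),(k2,k8),(k4,k8)],[(k7,k7),(k3,k8),(k5,k8)],[(k0,k7),(k2,k8),
    (k4,k8)],[(k7,k7),(k3,k8),(k5,k8)],[(k0,k6),(k2,k7),(k4,k7)],[(k8,k6),(k9,k6)],[(k1,k6),(k6,k6)],[(k1,k6),(k6,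
    k6)]]
    [] k0
    [[k1,k0,k0,k1,k1]]
    [.ref k0 k0 [(z1,[z1])]]]⟩

/-- classes `0 0 0 1 1`, types `C0 C0 C0 N0 N1` -/
noncomputable def cT5_62 : CertT :=
  ⟨[k4,k4,k4,k28,k29],[(false,k0,[k0,k1,k2,k3,k4]),(true,k3,[k3,k2,k1,k0,k4])],[[[([z3,z0,z0,z3,z0],z4),([z0,z3,z0,z0,
    z0],z2),([z0,z0,z3,z0,z0],z2)],[([z3,z0,z0,z3,z0],z5),([z0,z3,z0,z0,z0],z1),([z0,z0,z3,z0,z0],z1)],[([z2,z0,z0,z2,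
    z0],z3),([z0,z2,z0,z0,z0],z1),([z0,z0,z2,z0,z0],z1)],[([z1,z0,z0,z1,y1],z1),([z0,z1,z0,z0,z1],z1)],[([z1,z0,z1,z1,
    z0],z2),([z0,z3,z0,z0,z0],z2)],[([z1,z0,z1,z1,z0],z2),([z0,z3,z0,z0,z0],z1)],[([z1,z0,z1,z1,z0],z2),([z0,z2,z0,z0,
    z0],z1)],[([z1,z0,z1,z1,z0],z2)],[]]],
    [.leafM k4 [k1,k2,k3,k4,k0] [(z1,[z0,z0,z1]),(z1,[y1,y1,y1,z3])] [],
    .leafM k4 [k3,k4,k0,k1,k2] [(z1,[y1,y1,y1,z3]),(z1,[z0,z1])] [],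
    .leafM k5 [k1,k2,k3,k4,k0] [(z1,[z0,z0,z1]),(z1,[y1,y1,y1,z2])] [],
    .lp [(nat_lit 4680270),(nat_lit 3448620),(nat_lit 2441880),(nat_lit 1337220),(nat_lit 1872108)] [k0,k0,
    (nat_lit 615825),(nat_lit 615825),(nat_lit 1119195),(nat_lit 1119195),(nat_lit 1671525),(nat_lit 1671525),
    (nat_lit 1404081),(nat_lit 1404081)] k0 [[k0,k0,k0,k0,(nat_lit 1101240)],[k0,k0,k0,(nat_lit 1040060)],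
    [(nat_lit 1040060)],[],[],[k0,(nat_lit 1101240)]] (nat_lit 9360540) k6
    [[(k6,(nat_lit 3008745))],[(k7,(nat_lit 1907505)),(k3,(nat_lit 4064445)),(k5,(nat_lit 4601135))],[(k2,
    (nat_lit 2408560)),(k4,(nat_lit 4046490)),(k0,(nat_lit 4064445))],[(k7,(nat_lit 2392920)),(k3,(nat_lit 2408560)),
    (k5,(nat_lit 2945250))],[(k4,(nat_lit 2441880)),(k2,(nat_lit 2945250)),(k0,(nat_lit 4601135))],[(k7,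
    (nat_lit 1889550)),(k5,(nat_lit 2441880)),(k3,(nat_lit 4046490))],[(k4,(nat_lit 1889550)),(k0,(nat_lit 1907505)),
    (k2,(nat_lit 2392920))],[(k1,(nat_lit 3008745))],[(k8,(nat_lit 1872108))],[(k9,(nat_lit 1872108))]]
    [] k0
    [[k0,k3,k0,k0,k0],[k0,k0,k3,k0,k0],[k0,k0,k0,k0,k3],[k0,k0,k0,k0,k4]]
    [.ref k0 k0 [(z1,[y1,z3,z3]),(z1,[z1]),(z1,[z1,y3,y6,z3])],.ref k0 k0 [(z1,[y1,z0,y3,z3]),(z1,[z1,z3,z6,y3]),(z1,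
    [z1])],.ref k1 k0 [(z1,[z1,z3]),(z1,[y1,z0,z3]),(z1,[y1,y3,y3,z3])],.ref k2 k0 [(z2,[z1,z4]),(z2,[y1,z0,z4]),(z2,
    [y1,y4,y4,z4])]],
    .leafM k6 [k3,k4,k0,k1,k2] [(z1,[y3,y1,z3]),(z1,[z0,z1])] [],
    .leafM k4 [k3,k4,k0,k1,k2] [(z1,[y3,y1,z3]),(z1,[z0,z1])] [],
    .leafM k5 [k3,k4,k0,k1,k2] [(z1,[y2,y1,z2]),(z1,[z0,z1])] [],
    .lp [k14,k10,k20,k6,k8] [k3,k3,k5,k5,k0,k0,k7,k7,k6,k6] k0 [] k40 k6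
    [[(k6,k10)],[(k7,k10),(k3,k12),(k5,k17)],[(k2,k10),(k0,k12),(k4,k15)],[(k7,k8),(k3,k10),(k5,k15)],[(k2,k15),(k0,
    k17),(k4,k20)],[(k7,k13),(k3,k15),(k5,k20)],[(k2,k8),(k0,k10),(k4,k13)],[(k1,k10)],[(k8,k8)],[(k9,k8)]]
    [] k0
    [[k1,k1,k0,k1,k0],[k0,k3,k0,k0,k0],[k0,k0,k0,k0,k3],[k0,k0,k0,k0,k4]]
    [.ref k3 k0 [(z1,[z1,z1,y1]),(z1,[z0,y1,z1])],.ref k4 k0 [(z1,[z0,z1]),(z1,[z1])],.ref k5 k0 [(z1,[z0,z1]),(z1,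
    [y1,y3,z3])],.ref k6 k0 [(z1,[z0,z1]),(z2,[y1,y4,z4])]],
    .lp [k36,k36,k42,k24,k40] [k3,k3,k3,k3,k0,k0,k9,k9,k1,k1] k0 [[k0,k0,k6],[],[],[k0,k6]] k120 k5
    [[(k6,k30)],[(k7,k30),(k5,k33),(k3,k36)],[(k0,k36),(k4,k39),(k2,k42)],[(k7,k30),(k5,k39),(k3,k42)],[(k0,k33),(k2,
    k39),(k4,k42)],[(k7,k33),(k3,k39),(k5,k42)],[(k0,k30),(k2,k30),(k4,k33)],[(k1,k30)],[(k8,k40)],[(k9,k40)]]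
    [] k0
    [[k1,k1,k0,k1,k0],[k1,k0,k1,k1,k0]]
    [.ref k7 k1 [(z1,[z1])],.ref k7 k0 [(z1,[z1])]]]⟩

/-- classes `0 0 0 1 1`, types `C0 C0 C0 N0 N2` -/
noncomputable def cT5_63 : CertT :=
  ⟨[k4,k4,k4,k28,k30],[(false,k0,[k0,k1,k2,k3,k4])],[[[([z1,z0,z0,z1,z1],z2)],[]]],
    [.leafM k3 [k3,k4,k0,k1,k2] [(z1,[y1,z1])] [],
    .lp [k6,k8,k8,k6,k6] [k1,k1,k0,k0,k0,k0,k1,k1,k1,k1] k0 [] k24 k5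
    [[(k9,k6)],[(k7,k6),(k3,k7),(k5,k7)],[(k0,k7),(k2,k8),(k4,k8)],[(k7,k7),(k3,k8),(k5,k8)],[(k0,k7),(k2,k8),(k4,
    k8)],[(k7,k7),(k3,k8),(k5,k8)],[(k0,k6),(k2,k7),(k4,k7)],[(k8,k6)],[(k1,k6)],[(k6,k6)]]
    [] k0
    [[k1,k0,k0,k1,k1]]
    [.ref k0 k0 [(z1,[z1])]]]⟩

/-- classes `0 0 0 1 1`, types `C0 C0 C0 S0 S0` -/
noncomputable def cT5_64 : CertT :=
  ⟨[k4,k4,k4,k16,k16],[(false,k0,[k0,k1,k2,k3,k4]),(true,k3,[k3,k2,k1,k0,k4])],[[[([z2,z0,z0,z2,z0],z3),([z0,z2,z0,z0,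
    z0],z1),([z0,z0,z2,z0,z0],z1)],[([z3,z0,z0,z3,z0],z4),([z0,z3,z0,z0,z0],z2),([z0,z0,z3,z0,z0],z2)],[([z3,z0,z0,z3,
    z0],z5),([z0,z3,z0,z0,z0],z1),([z0,z0,z3,z0,z0],z1)],[([z1,z0,z0,z1,y1],z1),([z0,z1,z0,z0,z1],z1)],[([z1,z0,z0,z1,
    z1],z2),([z0,z1,z0,z0,y1],z0)],[([z1,z0,z1,z1,z0],z2),([z0,z3,z0,z0,z0],z2)],[([z1,z0,z1,z1,z0],z2),([z0,z2,z0,z0,
    z0],z1)],[([z1,z0,z0,z1,z2],z2),([z0,z1,z0,z0,y2],z0)],[([z1,z0,z1,z1,z0],z2),([z0,z3,z0,z0,z0],z1)],[([z1,z0,z1,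
    z1,z0],z2)],[([z1,z0,z0,z1,z1],z2)],[]]],
    [.leafM k1 [k0,k1,k2,k3,k4] [(z2,[z0,z1,z1])] [],
    .leafM k4 [k1,k2,k3,k4,k0] [(z1,[z0,z0,z1]),(z1,[y1,y1,y1,z3])] [],
    .leafM k4 [k3,k4,k0,k1,k2] [(z1,[y1,y1,y1,z3]),(z1,[z0,z1])] [],
    .lp [(nat_lit 2352),(nat_lit 2450),(nat_lit 2450),(nat_lit 6960),(nat_lit 2940)] [(nat_lit 2304),(nat_lit 2304),
    (nat_lit 2255),(nat_lit 2255),(nat_lit 2255),(nat_lit 2255),k0,k0,(nat_lit 2010),(nat_lit 2010)] k0 [[k0,k0,k0,k0,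
    (nat_lit 1960)],[],[],[],[],[k0,(nat_lit 1960)]] (nat_lit 11760) k6
    [[(k1,(nat_lit 2352)),(k8,(nat_lit 2646)),(k9,(nat_lit 2646)),(k6,(nat_lit 4656))],[(k3,(nat_lit 2401)),(k5,
    (nat_lit 2401)),(k7,(nat_lit 2696))],[(k0,(nat_lit 2401)),(k2,(nat_lit 2450)),(k4,(nat_lit 4410))],[(k3,
    (nat_lit 2450)),(k5,(nat_lit 2450)),(k7,(nat_lit 4705))],[(k0,(nat_lit 2401)),(k2,(nat_lit 2450)),(k4,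
    (nat_lit 2450))],[(k5,(nat_lit 2450)),(k3,(nat_lit 4410)),(k7,(nat_lit 4705))],[(k0,(nat_lit 2696)),(k2,
    (nat_lit 4705)),(k4,(nat_lit 4705))],[(k1,(nat_lit 4656)),(k8,(nat_lit 4950)),(k9,(nat_lit 4950)),(k6,
    (nat_lit 6960))],[(k1,(nat_lit 2646)),(k8,(nat_lit 2940)),(k9,(nat_lit 2940)),(k6,(nat_lit 4950))],[(k1,
    (nat_lit 2646)),(k8,(nat_lit 2940)),(k9,(nat_lit 2940)),(k6,(nat_lit 4950))]]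
    [] k0
    [[k1,k0,k0,k1,k1],[k0,k3,k0,k0,k0],[k0,k4,k0,k0,k0],[k0,k2,k1,k0,k0],[k0,k1,k2,k0,k0],[k0,k0,k3,k0,k0],[k0,k0,k4,
    k0,k0],[k0,k0,k0,k0,k3]]
    [.ref k0 k0 [(z1,[z1,z1]),(z1,[y1,z1,z2]),(z1,[y1,y1,y2,z2])],.ref k1 k0 [(z1,[y1,z3,z3]),(z1,[z1]),(z1,[z1,y3,y6,
    z3])],.ref k0 k0 [(z2,[y1,z4,z4]),(z2,[z1]),(z2,[z1,y4,y8,z4])],.ref k1 k0 [(z1,[y1,z2,z1,z1]),(z1,[z1,z1,z2,y1]),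
    (z1,[z1,y2,y4,z2])],.ref k1 k0 [(z1,[y1,z1,y1,z2]),(z1,[z1,z2,z4,y2]),(z1,[z1,y1,y2,z1])],.ref k1 k0 [(z1,[y1,z0,
    y3,z3]),(z1,[z1,z3,z6,y3]),(z1,[z1])],.ref k0 k0 [(z2,[y1,z0,y4,z4]),(z2,[z1,z4,z8,y4]),(z2,[z1])],
    .ref k2 k0 [(z1,[z1,z3]),(z1,[y1,z0,z3]),(z1,[y1,y3,y3,z3])]],
    .leafM k1 [k0,k1,k2,k3,k4] [(z1,[y1,z0,z1])] [],
    .leafM k6 [k3,k4,k0,k1,k2] [(z1,[y3,y1,z3]),(z1,[z0,z1])] [],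
    .leafM k5 [k3,k4,k0,k1,k2] [(z1,[y2,y1,z2]),(z1,[z0,z1])] [],
    .tor k1 true k3 [(z1,[y2,y1,z2]),(z1,[z1]),(z1,[z1,z1])],
    .leafM k4 [k3,k4,k0,k1,k2] [(z1,[y3,y1,z3]),(z1,[z0,z1])] [],
    .lp [k8,k8,k16,k16,k10] [k4,k4,k4,k4,k0,k0,k0,k0,k3,k3] k0 [] k40 k6
    [[(k1,k8),(k8,k9),(k9,k9),(k6,k12)],[(k3,k8),(k5,k12),(k7,k12)],[(k0,k8),(k2,k8),(k4,k12)],[(k3,k8),(k5,k12),(k7,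
    k12)],[(k0,k12),(k2,k12),(k4,k16)],[(k3,k12),(k5,k16),(k7,k16)],[(k0,k12),(k2,k12),(k4,k16)],[(k1,k12),(k8,k13),
    (k9,k13),(k6,k16)],[(k1,k9),(k8,k10),(k9,k10),(k6,k13)],[(k1,k9),(k8,k10),(k9,k10),(k6,k13)]]
    [] k0
    [[k1,k1,k0,k1,k0],[k1,k0,k0,k1,k1],[k0,k3,k0,k0,k0],[k0,k4,k0,k0,k0],[k0,k2,k1,k0,k0],[k0,k0,k0,k0,k3]]
    [.ref k3 k0 [(z1,[z1,z1,y1]),(z1,[z0,y1,z1])],.ref k4 k1 [(z1,[z1]),(z1,[y1,z1])],.ref k5 k0 [(z1,[z0,z1]),(z1,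
    [z1])],.ref k6 k0 [(z1,[z0,z1]),(z2,[z1])],.ref k7 k1 [(z1,[y1,y1,z2]),(z1,[z1,z2,y2])],.ref k8 k0 [(z1,[z0,z1]),
    (z1,[y1,y3,z3])]],
    .leafM k1 [k0,k1,k2,k3,k4] [(z1,[y1,z1])] [],
    .lp [k30,k36,k42,k30,k40] [k6,k6,k3,k3,k0,k0,k6,k6,k1,k1] k0 [[k0,k0,k6],[],[],[k0,k6]] k120 k5
    [[(k1,k30),(k6,k30),(k8,k35),(k9,k35)],[(k5,k30),(k7,k30),(k3,k33)],[(k0,k33),(k4,k39),(k2,k42)],[(k7,k33),(k5,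
    k39),(k3,k42)],[(k0,k30),(k2,k39),(k4,k42)],[(k7,k36),(k3,k39),(k5,k42)],[(k0,k30),(k2,k33),(k4,k36)],[(k1,k30),
    (k6,k30),(k8,k35),(k9,k35)],[(k1,k35),(k6,k35),(k8,k40),(k9,k40)],[(k1,k35),(k6,k35),(k8,k40),(k9,k40)]]
    [] k0
    [[k1,k1,k0,k1,k0],[k1,k0,k1,k1,k0],[k1,k0,k0,k1,k1]]
    [.ref k9 k1 [(z1,[z1])],.ref k9 k0 [(z1,[z1])],.ref k10 k0 [(z1,[z1])]]]⟩

/-- classes `0 0 0 1 1`, types `C0 C0 C2 B0 B1` -/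
noncomputable def cT5_65 : CertT :=
  ⟨[k4,k4,k6,k24,k25],[(false,k0,[k0,k1,k2,k3,k4])],[[[([z1,z0,z1,z1,z0],z2),([z0,z3,z0,z0,z0],z2)],[([z1,z0,z1,z1,
    z0],z2),([z0,z3,z0,z0,z0],z1)],[([z1,z0,z1,z1,z0],z2),([z0,z2,z0,z0,z0],z1)],[([z1,z0,z1,z1,z0],z2)],[]]],
    [.leafM k6 [k3,k4,k0,k1,k2] [(z1,[y3,y1,z3]),(z1,[z0,z1])] [],
    .leafM k4 [k3,k4,k0,k1,k2] [(z1,[y3,y1,z3]),(z1,[z0,z1])] [],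
    .leafM k5 [k3,k4,k0,k1,k2] [(z1,[y2,y1,z2]),(z1,[z0,z1])] [],
    .lp [k24,k10,k6,k10,k8] [k0,k0,k7,k7,k9,k9,k7,k7,k8,k8] k0 [] k40 k6
    [[(k9,k16),(k6,k17)],[(k4,k15),(k5,k15),(k3,k17)],[(k2,k10),(k7,k10),(k0,k17)],[(k4,k8),(k5,k8),(k3,k10)],[(k2,
    k8),(k7,k8),(k0,k15)],[(k2,k8),(k7,k8),(k0,k15)],[(k4,k8),(k5,k8),(k3,k10)],[(k8,k9),(k1,k17)],[(k8,k8),(k1,k16)],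
    [(k9,k8),(k6,k9)]]
    [] k0
    [[k0,k3,k0,k0,k0],[k0,k0,k0,k0,k3],[k0,k0,k0,k0,k4]]
    [.ref k0 k0 [(z1,[z0,z1]),(z1,[z1])],.ref k1 k0 [(z1,[z0,z1]),(z1,[y1,y3,z3])],.ref k2 k0 [(z1,[z0,z1]),(z2,[y1,
    y4,z4])]],
    .lp [k6,k8,k6,k6,k8] [k1,k1,k0,k0,k1,k1,k1,k1,k0,k0] k0 [] k24 k5
    [[(k6,k6),(k9,k7)],[(k4,k6),(k5,k6),(k3,k7)],[(k0,k7),(k7,k7),(k2,k8)],[(k4,k7),(k5,k7),(k3,k8)],[(k0,k6),(k7,k6),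
    (k2,k7)],[(k0,k6),(k7,k6),(k2,k7)],[(k4,k6),(k5,k6),(k3,k7)],[(k1,k6),(k8,k7)],[(k1,k7),(k8,k8)],[(k6,k7),(k9,
    k8)]]
    [] k0
    [[k1,k0,k1,k1,k0]]
    [.ref k3 k0 [(z1,[z1])]]]⟩

/-- classes `0 0 0 1 1`, types `C0 C0 C2 C0 C0` -/
noncomputable def cT5_66 : CertT :=
  ⟨[k4,k4,k6,k20,k20],[(false,k0,[k0,k1,k2,k3,k4])],[[[([z1,z0,z1,z1,z0],z2),([z0,z3,z0,z0,z0],z2)],[([z1,z0,z1,z1,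
    z0],z2),([z0,z2,z0,z0,z0],z1)],[([z1,z0,z1,z1,z0],z2),([z0,z3,z0,z0,z0],z1)],[([z1,z0,z1,z1,z0],z2)],[]]],
    [.leafM k6 [k3,k4,k0,k1,k2] [(z1,[y3,y1,z3]),(z1,[z0,z1])] [],
    .leafM k5 [k3,k4,k0,k1,k2] [(z1,[y2,y1,z2]),(z1,[z0,z1])] [],
    .leafM k4 [k3,k4,k0,k1,k2] [(z1,[y3,y1,z3]),(z1,[z0,z1])] [],
    .lp [k24,k8,k8,k8,k10] [k0,k0,k8,k8,k8,k8,k8,k8,k7,k7] k0 [] k40 k6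
    [[(k6,k16),(k8,k17)],[(k3,k16),(k4,k16),(k5,k16)],[(k2,k8),(k7,k8),(k0,k16)],[(k3,k8),(k4,k8),(k5,k8)],[(k2,k8),
    (k7,k8),(k0,k16)],[(k2,k8),(k7,k8),(k0,k16)],[(k3,k8),(k4,k8),(k5,k8)],[(k9,k9),(k1,k16)],[(k6,k9),(k8,k10)],[(k9,
    k10),(k1,k17)]]
    [] k0
    [[k0,k3,k0,k0,k0],[k0,k4,k0,k0,k0],[k0,k0,k0,k0,k3]]
    [.ref k0 k0 [(z1,[z0,z1]),(z1,[z1])],.ref k1 k0 [(z1,[z0,z1]),(z2,[z1])],.ref k2 k0 [(z1,[z0,z1]),(z1,[y1,y3,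
    z3])]],
    .lp [k6,k8,k6,k6,k8] [k1,k1,k0,k0,k1,k1,k1,k1,k0,k0] k0 [] k24 k5
    [[(k6,k6),(k8,k7)],[(k4,k6),(k5,k6),(k3,k7)],[(k0,k7),(k7,k7),(k2,k8)],[(k4,k7),(k5,k7),(k3,k8)],[(k0,k6),(k7,k6),
    (k2,k7)],[(k0,k6),(k7,k6),(k2,k7)],[(k4,k6),(k5,k6),(k3,k7)],[(k1,k6),(k9,k7)],[(k6,k7),(k8,k8)],[(k1,k7),(k9,
    k8)]]
    [] k0
    [[k1,k0,k1,k1,k0]]
    [.ref k3 k0 [(z1,[z1])]]]⟩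

/-- classes `0 0 0 1 1`, types `C0 C0 C2 C0 C2` -/
noncomputable def cT5_67 : CertT :=
  ⟨[k4,k4,k6,k20,k22],[],[[[]]],
    [.lp [k2,k4,k4,k2,k4] [k1,k1,k0,k0,k0,k0,k1,k1,k0,k0] k0 [] k12 k5
    [[(k8,k3),(k9,k3)],[(k3,k3),(k4,k3),(k5,k3)],[(k0,k3),(k7,k3),(k2,k4)],[(k3,k4),(k4,k4),(k5,k4)],[(k0,k3),(k7,k3),
    (k2,k4)],[(k0,k3),(k7,k3),(k2,k4)],[(k3,k3),(k4,k3),(k5,k3)],[(k8,k3),(k9,k3)],[(k1,k3),(k6,k3)],[(k1,k3),(k6,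
    k3)]]
    [] k0
    []
    []]⟩

/-- classes `0 0 0 1 1`, types `C0 C0 C2 N0 N1` -/
noncomputable def cT5_68 : CertT :=
  ⟨[k4,k4,k6,k28,k29],[(false,k0,[k0,k1,k2,k3,k4])],[[[([z1,z0,z1,z1,z0],z2),([z0,z3,z0,z0,z0],z2)],[([z1,z0,z1,z1,
    z0],z2),([z0,z2,z0,z0,z0],z1)],[([z1,z0,z1,z1,z0],z2),([z0,z3,z0,z0,z0],z1)],[([z1,z0,z1,z1,z0],z2)],[]]],
    [.leafM k6 [k3,k4,k0,k1,k2] [(z1,[y3,y1,z3]),(z1,[z0,z1])] [],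
    .leafM k5 [k3,k4,k0,k1,k2] [(z1,[y2,y1,z2]),(z1,[z0,z1])] [],
    .leafM k4 [k3,k4,k0,k1,k2] [(z1,[y3,y1,z3]),(z1,[z0,z1])] [],
    .lp [k24,k8,k8,k8,k10] [k0,k0,k8,k8,k8,k8,k8,k8,k7,k7] k0 [] k40 k6
    [[(k6,k16)],[(k3,k16),(k4,k16),(k5,k16)],[(k2,k8),(k7,k8),(k0,k16)],[(k3,k8),(k4,k8),(k5,k8)],[(k2,k8),(k7,k8),
    (k0,k16)],[(k2,k8),(k7,k8),(k0,k16)],[(k3,k8),(k4,k8),(k5,k8)],[(k1,k16)],[(k8,k10)],[(k9,k10)]]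
    [] k0
    [[k0,k3,k0,k0,k0],[k0,k4,k0,k0,k0],[k0,k0,k0,k0,k3]]
    [.ref k0 k0 [(z1,[z0,z1]),(z1,[z1])],.ref k1 k0 [(z1,[z0,z1]),(z2,[z1])],.ref k2 k0 [(z1,[z0,z1]),(z1,[y1,y3,
    z3])]],
    .lp [k6,k8,k6,k6,k8] [k1,k1,k0,k0,k1,k1,k1,k1,k0,k0] k0 [] k24 k5
    [[(k6,k6)],[(k4,k6),(k5,k6),(k3,k7)],[(k0,k7),(k7,k7),(k2,k8)],[(k4,k7),(k5,k7),(k3,k8)],[(k0,k6),(k7,k6),(k2,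
    k7)],[(k0,k6),(k7,k6),(k2,k7)],[(k4,k6),(k5,k6),(k3,k7)],[(k1,k6)],[(k8,k8)],[(k9,k8)]]
    [] k0
    [[k1,k0,k1,k1,k0]]
    [.ref k3 k0 [(z1,[z1])]]]⟩

/-- classes `0 0 0 1 1`, types `C0 C0 C2 N0 N2` -/
noncomputable def cT5_69 : CertT :=
  ⟨[k4,k4,k6,k28,k30],[],[[[]]],
    [.lp [k2,k4,k4,k2,k4] [k1,k1,k0,k0,k0,k0,k1,k1,k0,k0] k0 [] k12 k5
    [[(k9,k3)],[(k3,k3),(k4,k3),(k5,k3)],[(k0,k3),(k7,k3),(k2,k4)],[(k3,k4),(k4,k4),(k5,k4)],[(k0,k3),(k7,k3),(k2,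
    k4)],[(k0,k3),(k7,k3),(k2,k4)],[(k3,k3),(k4,k3),(k5,k3)],[(k8,k3)],[(k1,k3)],[(k6,k3)]]
    [] k0
    []
    []]⟩

/-- classes `0 0 0 1 1`, types `C0 C0 C2 S0 S0` -/
noncomputable def cT5_70 : CertT :=
  ⟨[k4,k4,k6,k16,k16],[(false,k0,[k0,k1,k2,k3,k4])],[[[([z1,z0,z0,y1,z0],z0),([z0,z3,z0,z0,z0],z2),([z0,z0,z1,z2,z0],
    z2)],[([z1,z0,z0,y1,z0],z0),([z0,z2,z0,z0,z0],z1),([z0,z0,z1,z2,z0],z2)],[([z1,z0,z0,y1,z0],z0),([z0,z3,z0,z0,z0],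
    z1),([z0,z0,z1,z2,z0],z2)],[([z1,z0,z0,y1,z0],z0),([z0,z1,z0,z0,z1],z1)],[([z2,z0,z1,z0,z0],z2)],[([z1,z0,z1,z1,
    z0],z2),([z0,z3,z0,z0,z0],z2)],[([z1,z0,z1,z1,z0],z2),([z0,z2,z0,z0,z0],z1)],[([z1,z0,z1,z1,z0],z2),([z0,z3,z0,z0,
    z0],z1)],[([z1,z0,z1,z1,z0],z2)],[]]],
    [.leafM k6 [k3,k4,k0,k1,k2] [(z1,[y3,y1,y3,z3]),(z1,[z0,z1])] [],
    .leafM k5 [k3,k4,k0,k1,k2] [(z1,[y2,y1,y2,z2]),(z1,[z0,z1])] [],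
    .leafM k4 [k3,k4,k0,k1,k2] [(z1,[y3,y1,y3,z3]),(z1,[z0,z1])] [],
    .lp [k8,k8,k24,k8,k10] [k8,k8,k8,k8,k0,k0,k8,k8,k7,k7] k0 [] k40 k6
    [[(k1,k8),(k6,k8),(k8,k9),(k9,k9)],[(k3,k8),(k4,k16),(k5,k16)],[(k0,k8),(k2,k8),(k7,k8)],[(k3,k8),(k4,k16),(k5,
    k16)],[(k0,k16),(k2,k16),(k7,k16)],[(k0,k16),(k2,k16),(k7,k16)],[(k3,k8),(k4,k16),(k5,k16)],[(k1,k8),(k6,k8),(k8,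
    k9),(k9,k9)],[(k1,k9),(k6,k9),(k8,k10),(k9,k10)],[(k1,k9),(k6,k9),(k8,k10),(k9,k10)]]
    [] k0
    [[k0,k3,k0,k0,k0],[k0,k4,k0,k0,k0],[k0,k0,k0,k0,k3]]
    [.ref k0 k0 [(z1,[z0,z1]),(z1,[z1]),(z1,[z0,y1,y1,z1])],.ref k1 k0 [(z1,[z0,z1]),(z2,[z1]),(z1,[z0,y1,y1,z1])],
    .ref k2 k0 [(z1,[z0,z1]),(z1,[y1,z0,z3]),(z1,[z0,y1,y1,z1])]],
    .lp [k50,k30,k30,k30,k38] [k0,k0,k10,k10,k10,k10,k10,k10,k6,k6] k0 [[k0,k0,k10],[],[],[k0,k10],[],[],[k0,k0,k0,k0,k0,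
    k0,k0,k0,k6],[],[],[k0,k0,k0,k0,k0,k0,k0,k6]] k120 k5
    [[(k6,k34),(k8,k44),(k9,k44),(k1,k50)],[(k5,k30),(k3,k40),(k4,k40)],[(k7,k30),(k0,k40),(k2,k40)],[(k4,k30),(k5,
    k30),(k3,k40)],[(k0,k30),(k2,k30),(k7,k30)],[(k2,k30),(k7,k30),(k0,k40)],[(k3,k30),(k4,k30),(k5,k30)],[(k6,k30),
    (k1,k34),(k8,k34),(k9,k34)],[(k6,k34),(k9,k38),(k1,k44),(k8,k44)],[(k6,k34),(k8,k38),(k1,k44),(k9,k44)]]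
    [] k0
    [[k1,k0,k1,k1,k0],[k0,k0,k1,k2,k0]]
    [.ref k3 k0 [(z1,[y1,z1]),(z1,[y1,z0,z1])],.ref k3 k0 [(z2,[y1,z1]),(z2,[y1,y1,z2])]],
    .leafM k6 [k3,k4,k0,k1,k2] [(z1,[y3,y1,z3]),(z1,[z0,z1])] [],
    .leafM k5 [k3,k4,k0,k1,k2] [(z1,[y2,y1,z2]),(z1,[z0,z1])] [],
    .leafM k4 [k3,k4,k0,k1,k2] [(z1,[y3,y1,z3]),(z1,[z0,z1])] [],
    .lp [k8,k8,k24,k8,k10] [k8,k8,k8,k8,k0,k0,k8,k8,k7,k7] k0 [] k40 k6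
    [[(k1,k8),(k6,k8),(k8,k9),(k9,k9)],[(k3,k8),(k4,k16),(k5,k16)],[(k0,k8),(k2,k8),(k7,k8)],[(k3,k8),(k4,k16),(k5,
    k16)],[(k0,k16),(k2,k16),(k7,k16)],[(k0,k16),(k2,k16),(k7,k16)],[(k3,k8),(k4,k16),(k5,k16)],[(k1,k8),(k6,k8),(k8,
    k9),(k9,k9)],[(k1,k9),(k6,k9),(k8,k10),(k9,k10)],[(k1,k9),(k6,k9),(k8,k10),(k9,k10)]]
    [] k0
    [[k0,k3,k0,k0,k0],[k0,k4,k0,k0,k0],[k0,k0,k0,k0,k3]]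
    [.ref k5 k0 [(z1,[z0,z1]),(z1,[z1])],.ref k6 k0 [(z1,[z0,z1]),(z2,[z1])],.ref k7 k0 [(z1,[z0,z1]),(z1,[y1,y3,
    z3])]],
    .lp [k30,k30,k40,k40,k38] [k10,k10,k10,k10,k10,k0,k3,k7,k6,k6] k0 [[k0,k0,k10],[],[],[k0,k10],[],[],[k0,k0,k0,k0,k0,
    k0,k0,k0,k6],[],[],[k0,k0,k0,k0,k0,k0,k0,k6]] k120 k5
    [[(k1,k30),(k6,k31),(k8,k34),(k9,k34)],[(k3,k30),(k4,k30),(k5,k30)],[(k0,k30),(k7,k33),(k2,k40)],[(k4,k30),(k3,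
    k40),(k5,k40)],[(k0,k30),(k2,k40),(k7,k43)],[(k0,k30),(k2,k30),(k7,k33)],[(k3,k33),(k4,k33),(k5,k43)],[(k1,k31),
    (k8,k41),(k9,k41),(k6,k44)],[(k1,k34),(k9,k38),(k6,k41),(k8,k44)],[(k1,k34),(k8,k38),(k6,k41),(k9,k44)]]
    [] k0
    [[k2,k0,k1,k0,k0],[k1,k0,k1,k1,k0]]
    [.ref k4 k0 [(z1,[z1])],.ref k8 k0 [(z1,[z1])]]]⟩

/-- classes `0 0 0 1 1`, types `C0 C2 C0 B0 B1` -/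
noncomputable def cT5_71 : CertT :=
  ⟨[k4,k6,k4,k24,k25],[(false,k0,[k0,k1,k2,k3,k4])],[[[([z1,z0,z0,z1,z1],z2)],[]]],
    [.leafM k3 [k3,k4,k0,k1,k2] [(z1,[y1,z1])] [],
    .lp [k2,k4,k2,k4,k4] [k1,k1,k0,k0,k1,k1,k0,k0,k0,k0] k0 [] k12 k5
    [[(k6,k3),(k9,k3)],[(k2,k3),(k3,k3),(k7,k3)],[(k0,k3),(k4,k3),(k5,k3)],[(k0,k3),(k4,k3),(k5,k3)],[(k2,k3),(k3,k3),
    (k7,k3)],[(k2,k3),(k3,k3),(k7,k3)],[(k0,k3),(k4,k3),(k5,k3)],[(k1,k3),(k8,k4)],[(k1,k3),(k8,k4)],[(k6,k4),(k9,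
    k4)]]
    [] k0
    [[k1,k0,k0,k1,k1]]
    [.ref k0 k0 [(z1,[z1])]]]⟩

/-- classes `0 0 0 1 1`, types `C0 C2 C0 C0 C0` -/
noncomputable def cT5_72 : CertT :=
  ⟨[k4,k6,k4,k20,k20],[(false,k0,[k0,k1,k2,k3,k4])],[[[([z1,z0,z0,z1,z1],z2)],[]]],
    [.leafM k1 [k0,k1,k2,k3,k4] [(z1,[y1,z1])] [],
    .lp [k2,k4,k2,k4,k4] [k1,k1,k0,k0,k1,k1,k0,k0,k0,k0] k0 [] k12 k5
    [[(k6,k3),(k8,k3)],[(k2,k3),(k3,k3),(k7,k3)],[(k0,k3),(k4,k3),(k5,k3)],[(k0,k3),(k4,k3),(k5,k3)],[(k2,k3),(k3,k3),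
    (k7,k3)],[(k2,k3),(k3,k3),(k7,k3)],[(k0,k3),(k4,k3),(k5,k3)],[(k1,k3),(k9,k4)],[(k6,k4),(k8,k4)],[(k1,k3),(k9,
    k4)]]
    [] k0
    [[k1,k0,k0,k1,k1]]
    [.ref k0 k0 [(z1,[z1])]]]⟩

/-- classes `0 0 0 1 1`, types `C0 C2 C0 C0 C2` -/
noncomputable def cT5_73 : CertT :=
  ⟨[k4,k6,k4,k20,k22],[(false,k0,[k0,k1,k2,k3,k4])],[[[([z1,z0,z0,z1,z1],z2)],[]]],
    [.leafM k1 [k0,k1,k2,k3,k4] [(z1,[y1,z1])] [],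
    .lp [k2,k2,k2,k2,k2] [k0,k0,k0,k0,k0,k0,k0,k0,k0,k0] k0 [] k8 k5
    [[(k8,k2),(k9,k2)],[(k2,k2),(k3,k2),(k7,k2)],[(k0,k2),(k4,k2),(k5,k2)],[(k0,k2),(k4,k2),(k5,k2)],[(k2,k2),(k3,k2),
    (k7,k2)],[(k2,k2),(k3,k2),(k7,k2)],[(k0,k2),(k4,k2),(k5,k2)],[(k8,k2),(k9,k2)],[(k1,k2),(k6,k2)],[(k1,k2),(k6,
    k2)]]
    [] k0
    [[k1,k0,k0,k1,k1]]
    [.ref k0 k0 [(z1,[z1])]]]⟩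

/-- classes `0 0 0 1 1`, types `C0 C2 C0 N0 N1` -/
noncomputable def cT5_74 : CertT :=
  ⟨[k4,k6,k4,k28,k29],[],[[[]]],
    [.lp [k0,k6,k0,k6,k4] [k3,k3,k0,k0,k3,k3,k0,k0,k1,k1] k0 [] k12 k5
    [[(k6,k3)],[(k2,k3),(k3,k3),(k7,k3)],[(k0,k3),(k4,k3),(k5,k3)],[(k0,k3),(k4,k3),(k5,k3)],[(k2,k3),(k3,k3),(k7,
    k3)],[(k2,k3),(k3,k3),(k7,k3)],[(k0,k3),(k4,k3),(k5,k3)],[(k1,k3)],[(k8,k4)],[(k9,k4)]]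
    [] k0
    []
    []]⟩

/-- classes `0 0 0 1 1`, types `C0 C2 C0 N0 N2` -/
noncomputable def cT5_75 : CertT :=
  ⟨[k4,k6,k4,k28,k30],[(false,k0,[k0,k1,k2,k3,k4])],[[[([z1,z0,z0,z1,z1],z2)],[]]],
    [.leafM k3 [k3,k4,k0,k1,k2] [(z1,[y1,z1])] [],
    .lp [k2,k2,k2,k2,k2] [k0,k0,k0,k0,k0,k0,k0,k0,k0,k0] k0 [] k8 k5
    [[(k9,k2)],[(k2,k2),(k3,k2),(k7,k2)],[(k0,k2),(k4,k2),(k5,k2)],[(k0,k2),(k4,k2),(k5,k2)],[(k2,k2),(k3,k2),(k7,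
    k2)],[(k2,k2),(k3,k2),(k7,k2)],[(k0,k2),(k4,k2),(k5,k2)],[(k8,k2)],[(k1,k2)],[(k6,k2)]]
    [] k0
    [[k1,k0,k0,k1,k1]]
    [.ref k0 k0 [(z1,[z1])]]]⟩

/-- classes `0 0 0 1 1`, types `C0 C2 C0 S0 S0` -/
noncomputable def cT5_76 : CertT :=
  ⟨[k4,k6,k4,k16,k16],[(false,k0,[k0,k1,k2,k3,k4])],[[[([z1,z0,z0,z1,z1],z2)],[]]],
    [.leafM k1 [k0,k1,k2,k3,k4] [(z1,[y1,z1])] [],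
    .lp [k42,k56,k0,k70,k40] [k14,k14,k7,k7,k35,k35,k0,k0,k15,k15] k0 [[],[],[],[],[],[],[k0,k0,k0,k0,k0,k0,k0,k0,k20],[],
    [],[k0,k0,k0,k0,k0,k0,k0,k20]] k140 k6
    [[(k6,k36),(k8,k41),(k9,k41),(k1,k42)],[(k2,k49),(k3,k49),(k7,k56)],[(k4,k28),(k5,k28),(k0,k49)],[(k4,k28),(k5,
    k28),(k0,k49)],[(k2,k28),(k3,k28),(k7,k35)],[(k2,k28),(k3,k28),(k7,k35)],[(k4,k35),(k5,k35),(k0,k56)],[(k1,k36),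
    (k8,k55),(k9,k55),(k6,k70)],[(k9,k40),(k1,k41),(k6,k55),(k8,k60)],[(k8,k40),(k1,k41),(k6,k55),(k9,k60)]]
    [] k0
    [[k0,k2,k2,k0,k0]]
    [.ref k0 k0 [(z2,[y1,z2])]]]⟩

/-- classes `0 0 0 1 1`, types `S0 S0 S0 B0 B1` -/
noncomputable def cT5_77 : CertT :=
  ⟨[k0,k0,k0,k24,k25],[(false,k0,[k0,k1,k2,k3,k4]),(true,k3,[k3,k2,k1,k0,k4])],[[[([z2,z0,z0,z2,z0],z3),([z0,z2,z0,z0,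
    z0],z1),([z0,z0,z2,z0,z0],z1)],[([z3,z0,z0,z3,z0],z4),([z0,z3,z0,z0,z0],z2),([z0,z0,z3,z0,z0],z2)],[([z3,z0,z0,z3,
    z0],z5),([z0,z3,z0,z0,z0],z1),([z0,z0,z3,z0,z0],z1)],[([z1,z0,z0,z1,y1],z1),([z0,z1,z0,z0,z1],z1)],[([z1,z0,z0,z1,
    z1],z2),([z0,z1,z0,z0,y1],z0)],[([z1,z0,z0,z1,z2],z2),([z0,z1,z0,z0,y2],z0)],[([z1,z0,z1,z1,z0],z2),([z0,z3,z0,z0,
    z0],z2)],[([z1,z0,z1,z1,z0],z2),([z0,z3,z0,z0,z0],z1)],[([z1,z0,z1,z1,z0],z2),([z0,z2,z0,z0,z0],z1)],[([z1,z0,z1,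
    z1,z0],z2)],[([z1,z0,z0,z1,z1],z2)],[]]],
    [.leafM k3 [k3,k4,k0,k1,k2] [(z2,[z0,z1,z1])] [],
    .leafM k4 [k1,k2,k3,k4,k0] [(z1,[z0,z0,z1]),(z1,[y1,y1,y1,z3])] [],
    .leafM k4 [k3,k4,k0,k1,k2] [(z1,[y1,y1,y1,z3]),(z1,[z0,z1])] [],
    .lp [k8,k10,k10,k22,k8] [k7,k7,k6,k6,k6,k6,k0,k0,k7,k7] k0 [] k40 k6
    [[(k9,k8),(k6,k15)],[(k0,k8),(k2,k9),(k3,k9),(k4,k9),(k5,k9),(k7,k15)],[(k0,k9),(k2,k10),(k3,k10),(k4,k10),(k5,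
    k10),(k7,k16)],[(k0,k9),(k2,k10),(k3,k10),(k4,k10),(k5,k10),(k7,k16)],[(k0,k9),(k2,k10),(k3,k10),(k4,k10),(k5,
    k10),(k7,k16)],[(k0,k9),(k2,k10),(k3,k10),(k4,k10),(k5,k10),(k7,k16)],[(k0,k15),(k2,k16),(k3,k16),(k4,k16),(k5,
    k16),(k7,k22)],[(k1,k15),(k8,k15)],[(k1,k8),(k8,k8)],[(k9,k8),(k6,k15)]]
    [] k0
    [[k1,k0,k0,k1,k1],[k0,k3,k0,k0,k0],[k0,k2,k1,k0,k0],[k0,k1,k2,k0,k0],[k0,k0,k3,k0,k0],[k0,k0,k0,k0,k3],[k0,k0,k0,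
    k0,k4]]
    [.ref k0 k0 [(z1,[z1,z1]),(z1,[y1,z1,z2]),(z1,[y1,y1,y2,z2])],.ref k1 k0 [(z1,[y1,z3,z3]),(z1,[z1]),(z1,[z1,y3,y6,
    z3])],.ref k1 k0 [(z1,[y1,z2,z1,z1]),(z1,[z1,z1,z2,y1]),(z1,[z1,y2,y4,z2])],.ref k1 k0 [(z1,[y1,z1,y1,z2]),(z1,
    [z1,z2,z4,y2]),(z1,[z1,y1,y2,z1])],.ref k1 k0 [(z1,[y1,z0,y3,z3]),(z1,[z1,z3,z6,y3]),(z1,[z1])],.ref k2 k0 [(z1,
    [z1,z3]),(z1,[y1,z0,z3]),(z1,[y1,y3,y3,z3])],.ref k0 k0 [(z2,[z1,z4]),(z2,[y1,z0,z4]),(z2,[y1,y4,y4,z4])]],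
    .leafM k3 [k3,k4,k0,k1,k2] [(z1,[y1,z0,z1])] [],
    .tor k11 true k3 [(z1,[y2,y1,z2]),(z1,[z1]),(z1,[z1,z1])],
    .leafM k6 [k3,k4,k0,k1,k2] [(z1,[y3,y1,z3]),(z1,[z0,z1])] [],
    .leafM k4 [k3,k4,k0,k1,k2] [(z1,[y3,y1,z3]),(z1,[z0,z1])] [],
    .leafM k5 [k3,k4,k0,k1,k2] [(z1,[y2,y1,z2]),(z1,[z0,z1])] [],
    .lp [k6,k8,k14,k10,k6] [k4,k4,k3,k3,k0,k0,k2,k2,k4,k4] k0 [] k30 k6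
    [[(k9,k6),(k6,k8)],[(k0,k6),(k2,k7),(k3,k7),(k7,k8),(k4,k10),(k5,k10)],[(k0,k7),(k2,k8),(k3,k8),(k7,k9),(k4,k11),
    (k5,k11)],[(k0,k7),(k2,k8),(k3,k8),(k7,k9),(k4,k11),(k5,k11)],[(k0,k10),(k2,k11),(k3,k11),(k7,k12),(k4,k14),(k5,
    k14)],[(k0,k10),(k2,k11),(k3,k11),(k7,k12),(k4,k14),(k5,k14)],[(k0,k8),(k2,k9),(k3,k9),(k7,k10),(k4,k12),(k5,
    k12)],[(k1,k8),(k8,k8)],[(k1,k6),(k8,k6)],[(k9,k6),(k6,k8)]]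
    [] k0
    [[k1,k1,k0,k1,k0],[k1,k0,k0,k1,k1],[k1,k0,k0,k1,k2],[k0,k3,k0,k0,k0],[k0,k0,k0,k0,k3],[k0,k0,k0,k0,k4]]
    [.ref k3 k0 [(z1,[z1,z1,y1]),(z1,[z0,y1,z1])],.ref k4 k1 [(z1,[z1]),(z1,[y1,z1])],.ref k5 k1 [(z1,[z1]),(z1,[y1,
    z1])],.ref k6 k0 [(z1,[z0,z1]),(z1,[z1])],.ref k7 k0 [(z1,[z0,z1]),(z1,[y1,y3,z3])],.ref k8 k0 [(z1,[z0,z1]),(z2,
    [y1,y4,z4])]],
    .leafM k3 [k3,k4,k0,k1,k2] [(z1,[y1,z1])] [],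
    .lp [k60,k78,k78,k60,k80] [k10,k10,k1,k1,k1,k1,k10,k10,k0,k0] k0 [[k0,k0,k6,k6],[],[k0,k6,k0,k0,k6],[k0,k6,k0,k0,k6],
    [],[k0,k0,k6,k6]] (nat_lit 240) k5
    [[(k6,k60),(k9,k70)],[(k0,k60),(k7,k60),(k2,k63),(k5,k63),(k3,k69),(k4,k69)],[(k0,k69),(k7,k69),(k3,k78),(k4,k78),
    (k2,k84),(k5,k84)],[(k0,k63),(k7,k63),(k2,k78),(k5,k78),(k3,k84),(k4,k84)],[(k0,k63),(k7,k63),(k2,k78),(k5,k78),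
    (k3,k84),(k4,k84)],[(k0,k69),(k7,k69),(k3,k78),(k4,k78),(k2,k84),(k5,k84)],[(k0,k60),(k7,k60),(k2,k63),(k5,k63),
    (k3,k69),(k4,k69)],[(k1,k60),(k8,k70)],[(k1,k70),(k8,k80)],[(k6,k70),(k9,k80)]]
    [] k0
    [[k1,k1,k0,k1,k0],[k1,k0,k1,k1,k0],[k1,k0,k0,k1,k1]]
    [.ref k9 k1 [(z1,[z1])],.ref k9 k0 [(z1,[z1])],.ref k10 k0 [(z1,[z1])]]]⟩

/-- the certificates of this file -/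
noncomputable def lT5_1 : List CertT :=
  [cT5_1, cT5_2, cT5_3, cT5_4, cT5_5, cT5_6, cT5_7, cT5_8, cT5_9, cT5_10, cT5_11, cT5_12, cT5_13, cT5_14,
      cT5_15, cT5_16, cT5_17, cT5_18, cT5_19, cT5_20, cT5_21, cT5_22, cT5_23, cT5_24, cT5_25, cT5_26, cT5_27,
      cT5_28, cT5_29, cT5_30, cT5_31, cT5_32, cT5_33, cT5_34, cT5_35, cT5_36, cT5_37, cT5_38, cT5_39, cT5_40,
      cT5_41, cT5_42, cT5_43, cT5_44, cT5_45, cT5_46, cT5_47, cT5_48, cT5_49, cT5_50, cT5_51, cT5_52, cT5_53,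
      cT5_54, cT5_55, cT5_56, cT5_57, cT5_58, cT5_59, cT5_60, cT5_61, cT5_62, cT5_63, cT5_64, cT5_65, cT5_66,
      cT5_67, cT5_68, cT5_69, cT5_70, cT5_71, cT5_72, cT5_73, cT5_74, cT5_75, cT5_76, cT5_77]

theorem gT5_1 : allF (chkC 5 tt5) lT5_1 = true := by
  decide +kernel

end Pool.Agent.Lib_MP_fa6e45
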