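import Pool.Agent.Lib_MP_fa6e45.CSTT
import Pool.Agent.Lib_MP_fa6e45.HK

/-!
MP_fa6e45_co, stage 5: certificates (captain, generated by a program).
-/

namespace Pool.Agent.Lib_MP_fa6e45

/-- classes `0 0 0 1 1`, types `S0 S0 S0 C0 C0` -/
noncomputable def cT5_78 : CertT :=
  ⟨[k0,k0,k0,k20,k20],[(false,k0,[k0,k1,k2,k3,k4]),(true,k3,[k3,k2,k1,k0,k4])],[[[([z3,z0,z0,z3,z0],z4),([z0,z3,z0,z0,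
    z0],z2),([z0,z0,z3,z0,z0],z2)],[([z2,z0,z0,z2,z0],z3),([z0,z2,z0,z0,z0],z1),([z0,z0,z2,z0,z0],z1)],[([z3,z0,z0,z3,
    z0],z5),([z0,z3,z0,z0,z0],z1),([z0,z0,z3,z0,z0],z1)],[([z1,z0,z0,z1,y1],z1),([z0,z1,z0,z0,z1],z1)],[([z1,z0,z0,z1,
    z1],z2),([z0,z1,z0,z0,y1],z0)],[([z1,z0,z0,z1,z2],z2),([z0,z1,z0,z0,y2],z0)],[([z1,z0,z1,z1,z0],z2),([z0,z3,z0,z0,
    z0],z2)],[([z1,z0,z1,z1,z0],z2),([z0,z3,z0,z0,z0],z1)],[([z1,z0,z1,z1,z0],z2),([z0,z2,z0,z0,z0],z1)],[([z1,z0,z1,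
    z1,z0],z2)],[([z1,z0,z0,z1,z1],z2)],[]]],
    [.leafM k4 [k1,k2,k3,k4,k0] [(z1,[z0,z0,z1]),(z1,[y1,y1,y1,z3])] [],
    .leafM k0 [k1,k2,k3,k4,k0] [(z2,[z0,z1,z1])] [],
    .leafM k4 [k3,k4,k0,k1,k2] [(z1,[y1,y1,y1,z3]),(z1,[z0,z1])] [],
    .lp [k24,k8,k8,k8,k10] [k0,k0,k8,k8,k8,k8,k8,k8,k7,k7] k0 [] k40 k6
    [[(k6,k16),(k8,k17)],[(k2,k16),(k3,k16),(k4,k16),(k5,k16),(k7,k16),(k0,k24)],[(k2,k8),(k3,k8),(k4,k8),(k5,k8),(k7,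
    k8),(k0,k16)],[(k2,k8),(k3,k8),(k4,k8),(k5,k8),(k7,k8),(k0,k16)],[(k2,k8),(k3,k8),(k4,k8),(k5,k8),(k7,k8),(k0,
    k16)],[(k2,k8),(k3,k8),(k4,k8),(k5,k8),(k7,k8),(k0,k16)],[(k2,k8),(k3,k8),(k4,k8),(k5,k8),(k7,k8),(k0,k16)],[(k9,
    k9),(k1,k16)],[(k6,k9),(k8,k10)],[(k9,k10),(k1,k17)]]
    [] k0
    [[k0,k3,k0,k0,k0],[k0,k4,k0,k0,k0],[k0,k3,k1,k0,k0],[k0,k2,k1,k0,k0],[k0,k2,k2,k0,k0],[k0,k1,k2,k0,k0],[k0,k1,k3,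
    k0,k0],[k0,k0,k3,k0,k0],[k0,k0,k4,k0,k0],[k0,k0,k0,k0,k3]]
    [.ref k0 k0 [(z1,[y1,z3,z3]),(z1,[z1]),(z1,[z1,y3,y6,z3])],.ref k1 k0 [(z2,[y1,z4,z4]),(z2,[z1]),(z2,[z1,y4,y8,
    z4])],.ref k1 k0 [(z2,[y1,z3,z2,z1]),(z2,[z1,z1,z2,y1]),(z2,[z1,y3,y6,z3])],.ref k0 k0 [(z1,[y1,z2,z1,z1]),(z1,
    [z1,z1,z2,y1]),(z1,[z1,y2,y4,z2])],.ref k1 k0 [(z2,[y1,z2,z0,z2]),(z2,[z1,z2,z4,y2]),(z2,[z1,y2,y4,z2])],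
    .ref k0 k0 [(z1,[y1,z1,y1,z2]),(z1,[z1,z2,z4,y2]),(z1,[z1,y1,y2,z1])],.ref k1 k0 [(z2,[y1,z1,y2,z3]),(z2,[z1,z3,
    z6,y3]),(z2,[z1,y1,y2,z1])],.ref k0 k0 [(z1,[y1,z0,y3,z3]),(z1,[z1,z3,z6,y3]),(z1,[z1])],.ref k1 k0 [(z2,[y1,z0,
    y4,z4]),(z2,[z1,z4,z8,y4]),(z2,[z1])],.ref k2 k0 [(z1,[z1,z3]),(z1,[y1,z0,z3]),(z1,[y1,y3,y3,z3])]],
    .leafM k0 [k1,k2,k3,k4,k0] [(z1,[y1,z0,z1])] [],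
    .tor k1 true k3 [(z1,[y2,y1,z2]),(z1,[z1]),(z1,[z1,z1])],
    .leafM k6 [k3,k4,k0,k1,k2] [(z1,[y3,y1,z3]),(z1,[z0,z1])] [],
    .leafM k4 [k3,k4,k0,k1,k2] [(z1,[y3,y1,z3]),(z1,[z0,z1])] [],
    .leafM k5 [k3,k4,k0,k1,k2] [(z1,[y2,y1,z2]),(z1,[z0,z1])] [],
    .lp [(nat_lit 420),(nat_lit 304),(nat_lit 532),k190,(nat_lit 228)] [k56,k56,k114,k114,k0,k0,k171,k171,k152,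
    k152] k0 [] (nat_lit 1140) k7
    [[(k6,(nat_lit 305)),(k8,(nat_lit 324))],[(k7,(nat_lit 305)),(k2,(nat_lit 362)),(k3,(nat_lit 362)),(k0,
    (nat_lit 420)),(k4,(nat_lit 476)),(k5,(nat_lit 476))],[(k7,(nat_lit 247)),(k2,(nat_lit 304)),(k3,(nat_lit 304)),
    (k0,(nat_lit 362)),(k4,(nat_lit 418)),(k5,(nat_lit 418))],[(k7,(nat_lit 247)),(k2,(nat_lit 304)),(k3,
    (nat_lit 304)),(k0,(nat_lit 362)),(k4,(nat_lit 418)),(k5,(nat_lit 418))],[(k7,(nat_lit 361)),(k2,(nat_lit 418)),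
    (k3,(nat_lit 418)),(k0,(nat_lit 476)),(k4,(nat_lit 532)),(k5,(nat_lit 532))],[(k7,(nat_lit 361)),(k2,
    (nat_lit 418)),(k3,(nat_lit 418)),(k0,(nat_lit 476)),(k4,(nat_lit 532)),(k5,(nat_lit 532))],[(k7,k190),(k2,
    (nat_lit 247)),(k3,(nat_lit 247)),(k0,(nat_lit 305)),(k4,(nat_lit 361)),(k5,(nat_lit 361))],[(k9,(nat_lit 209)),
    (k1,(nat_lit 305))],[(k6,(nat_lit 209)),(k8,(nat_lit 228))],[(k9,(nat_lit 228)),(k1,(nat_lit 324))]]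
    [] k0
    [[k1,k1,k0,k1,k0],[k1,k0,k0,k1,k1],[k1,k0,k0,k1,k2],[k0,k3,k0,k0,k0],[k0,k0,k0,k0,k3],[k0,k0,k0,k0,k4]]
    [.ref k3 k0 [(z1,[z1,z1,y1]),(z1,[z0,y1,z1])],.ref k4 k1 [(z1,[z1]),(z1,[y1,z1])],.ref k5 k1 [(z1,[z1]),(z1,[y1,
    z1])],.ref k6 k0 [(z1,[z0,z1]),(z1,[z1])],.ref k7 k0 [(z1,[z0,z1]),(z1,[y1,y3,z3])],.ref k8 k0 [(z1,[z0,z1]),(z2,
    [y1,y4,z4])]],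
    .leafM k0 [k1,k2,k3,k4,k0] [(z1,[y1,z1])] [],
    .lp [k60,k78,k78,k60,k80] [k10,k10,k1,k1,k1,k1,k10,k10,k0,k0] k0 [[k0,k0,k6,k6],[],[k0,k6,k0,k0,k6],[k0,k6,k0,k0,k6],
    [],[k0,k0,k6,k6]] (nat_lit 240) k5
    [[(k6,k60),(k8,k70)],[(k0,k60),(k7,k60),(k2,k63),(k5,k63),(k3,k69),(k4,k69)],[(k0,k69),(k7,k69),(k3,k78),(k4,k78),
    (k2,k84),(k5,k84)],[(k0,k63),(k7,k63),(k2,k78),(k5,k78),(k3,k84),(k4,k84)],[(k0,k63),(k7,k63),(k2,k78),(k5,k78),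
    (k3,k84),(k4,k84)],[(k0,k69),(k7,k69),(k3,k78),(k4,k78),(k2,k84),(k5,k84)],[(k0,k60),(k7,k60),(k2,k63),(k5,k63),
    (k3,k69),(k4,k69)],[(k1,k60),(k9,k70)],[(k6,k70),(k8,k80)],[(k1,k70),(k9,k80)]]
    [] k0
    [[k1,k1,k0,k1,k0],[k1,k0,k1,k1,k0],[k1,k0,k0,k1,k1]]
    [.ref k9 k1 [(z1,[z1])],.ref k9 k0 [(z1,[z1])],.ref k10 k0 [(z1,[z1])]]]⟩

/-- classes `0 0 0 1 1`, types `S0 S0 S0 C0 C2` -/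
noncomputable def cT5_79 : CertT :=
  ⟨[k0,k0,k0,k20,k22],[(false,k0,[k0,k1,k2,k3,k4]),(true,k3,[k3,k2,k1,k0,k4])],[[[([z2,z0,z0,z0,z1],z2),([z0,z1,z1,z0,
    z0],z1)],[([z2,z0,y2,z0,z1],z0),([z0,z1,z2,z0,z0],z2)],[([z2,z0,z0,z0,z1],z2)],[([z1,z0,z0,z1,z1],z2)],[([z6,z0,
    z0,z0,z3],z4),([z0,z3,z0,z0,z0],z2),([z0,z0,z3,z0,z0],z2)],[([z2,z0,z0,z0,z1],z2),([z0,z1,z0,z2,z1],z2)],[([z1,z0,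
    y1,z1,z1],z1)],[]]],
    [.leafM k0 [k1,k2,k3,k4,k0] [(z1,[z0,z1])] [],
    .tor k3 false k2 [(z1,[z0,z1]),(z1,[z1,z1]),(z1,[y1,y2,z2])],
    .lp [k146,k172,k154,k120,k120] [k21,k21,k16,k0,k19,k15,k34,k34,k34,k34] k0 [[k0,k0,k32],[k68],[k0,k0,k0,k0,k18],[k0,
    k32],[],[k0,k0,k0,k18]] (nat_lit 480) k5
    [[(k8,k133),(k9,k133)],[(k5,k120),(k7,k133),(k4,k148),(k2,k151),(k3,k167),(k0,(nat_lit 214))],[(k3,k120),(k7,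
    k154),(k0,k167),(k4,k169),(k5,k173),(k2,(nat_lit 204))],[(k7,k120),(k0,k151),(k4,k153),(k2,k156),(k5,k157),(k3,
    (nat_lit 204))],[(k0,k120),(k7,k139),(k2,k157),(k5,k158),(k4,k172),(k3,k173)],[(k7,k135),(k0,k148),(k4,k150),(k2,
    k153),(k3,k169),(k5,k172)],[(k2,k120),(k7,k120),(k0,k133),(k4,k135),(k5,k139),(k3,k154)],[(k8,k120),(k9,k120)],
    [(k6,k120),(k1,k133)],[(k6,k120),(k1,k133)]]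
    [] k0
    [[k1,k0,k0,k1,k1],[k0,k2,k1,k0,k0],[k0,k0,k0,k2,k1]]
    [.ref k0 k0 [(z1,[z0,z1]),(z1,[y1,z0,z1])],.ref k1 k1 [(z1,[y2,y1,z2]),(z1,[z1])],.ref k0 k0 [(z1,[z0,z1]),(z2,
    [y1,y1,z2])]],
    .leafM k0 [k1,k2,k3,k4,k0] [(z1,[y1,z1])] [],
    .tor k3 false k2 [(z3,[z0,z1,z2]),(z3,[z1,z1]),(z3,[y1,y2,y2,z6])],
    .lp [k146,k172,k154,k120,k120] [k21,k21,k16,k0,k19,k15,k34,k34,k34,k34] k0 [[k0,k0,k32],[k68],[k0,k0,k0,k0,k18],[k0,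
    k32],[],[k0,k0,k0,k18]] (nat_lit 480) k5
    [[(k8,k133),(k9,k133)],[(k5,k120),(k7,k133),(k4,k148),(k2,k151),(k3,k167),(k0,(nat_lit 214))],[(k3,k120),(k7,
    k154),(k0,k167),(k4,k169),(k5,k173),(k2,(nat_lit 204))],[(k7,k120),(k0,k151),(k4,k153),(k2,k156),(k5,k157),(k3,
    (nat_lit 204))],[(k0,k120),(k7,k139),(k2,k157),(k5,k158),(k4,k172),(k3,k173)],[(k7,k135),(k0,k148),(k4,k150),(k2,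
    k153),(k3,k169),(k5,k172)],[(k2,k120),(k7,k120),(k0,k133),(k4,k135),(k5,k139),(k3,k154)],[(k8,k120),(k9,k120)],
    [(k6,k120),(k1,k133)],[(k6,k120),(k1,k133)]]
    [] k0
    [[k1,k0,k0,k1,k1],[k0,k2,k1,k0,k0],[k0,k0,k0,k2,k1]]
    [.contra [z1,y1,y1,z1],.ref k4 k1 [(z1,[y2,y1,z2,z2]),(z1,[y1,y2,y2,z4]),(z1,[z2,z1,z1,y2])],.contra [z1,y1,y2,
    z2]],
    .lp [k6,k8,k8,k6,k6] [k1,k1,k0,k0,k0,k0,k1,k1,k1,k1] k0 [] k24 k5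
    [[(k8,k6),(k9,k6)],[(k0,k6),(k7,k6),(k2,k7),(k3,k7),(k4,k7),(k5,k7)],[(k0,k7),(k7,k7),(k2,k8),(k3,k8),(k4,k8),(k5,
    k8)],[(k0,k7),(k7,k7),(k2,k8),(k3,k8),(k4,k8),(k5,k8)],[(k0,k7),(k7,k7),(k2,k8),(k3,k8),(k4,k8),(k5,k8)],[(k0,k7),
    (k7,k7),(k2,k8),(k3,k8),(k4,k8),(k5,k8)],[(k0,k6),(k7,k6),(k2,k7),(k3,k7),(k4,k7),(k5,k7)],[(k8,k6),(k9,k6)],[(k1,
    k6),(k6,k6)],[(k1,k6),(k6,k6)]]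
    [] k0
    [[k2,k0,k0,k0,k1],[k1,k0,k0,k1,k1],[k0,k0,k0,k2,k1]]
    [.ref k5 k0 [(z1,[z1]),(z1,[y1,z1,z1])],.contra [z1,y1],.ref k1 k0 [(z1,[y1,z2]),(z1,[z0,y1,z1])]],
    .lp [k124,k154,k172,k150,k112] [k34,k30,k17,k17,k0,k16,k19,k19,k38,k38] k0 [[k0,k0,k18],[],[k0,k0,k0,k0,k32],[k0,k18],
    [k0,k0,k0,k0,k0,k68],[k0,k0,k0,k32]] (nat_lit 480) k5
    [[(k8,k120),(k9,k120)],[(k0,k120),(k5,k120),(k7,k135),(k2,k137),(k3,k137),(k4,k154)],[(k0,k137),(k7,k152),(k3,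
    k154),(k5,k155),(k4,k171),(k2,k172)],[(k7,k120),(k0,k137),(k2,k154),(k5,k155),(k4,k171),(k3,k172)],[(k0,k120),(k7,
    k153),(k2,k155),(k3,k155),(k5,k156),(k4,(nat_lit 204))],[(k4,k120),(k0,k154),(k7,k169),(k2,k171),(k3,k171),(k5,
    (nat_lit 204))],[(k2,k120),(k0,k135),(k3,k152),(k5,k153),(k4,k169),(k7,(nat_lit 218))],[(k8,k131),(k9,k131)],[(k1,
    k120),(k6,k131)],[(k1,k120),(k6,k131)]]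
    [] k0
    [[k2,k0,k0,k0,k1],[k1,k0,k0,k1,k1],[k0,k1,k2,k0,k0]]
    [.ref k2 k0 [(z1,[z1])],.ref k3 k0 [(z1,[z1])],.ref k6 k0 [(z1,[y1,z1])]]]⟩

/-- classes `0 0 0 1 1`, types `S0 S0 S0 N0 N1` -/
noncomputable def cT5_80 : CertT :=
  ⟨[k0,k0,k0,k28,k29],[(false,k0,[k0,k1,k2,k3,k4]),(true,k3,[k3,k2,k1,k0,k4])],[[[([z3,z0,z0,z3,z0],z4),([z0,z3,z0,z0,
    z0],z2),([z0,z0,z3,z0,z0],z2)],[([z3,z0,z0,z3,z0],z5),([z0,z3,z0,z0,z0],z1),([z0,z0,z3,z0,z0],z1)],[([z2,z0,z0,z2,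
    z0],z3),([z0,z2,z0,z0,z0],z1),([z0,z0,z2,z0,z0],z1)],[([z1,z0,z0,z1,y1],z1),([z0,z1,z0,z0,z1],z1)],[([z1,z0,z1,z1,
    z0],z2),([z0,z3,z0,z0,z0],z2)],[([z1,z0,z1,z1,z0],z2),([z0,z3,z0,z0,z0],z1)],[([z1,z0,z1,z1,z0],z2),([z0,z2,z0,z0,
    z0],z1)],[([z1,z0,z1,z1,z0],z2)],[]]],
    [.leafM k4 [k1,k2,k3,k4,k0] [(z1,[z0,z0,z1]),(z1,[y1,y1,y1,z3])] [],
    .leafM k4 [k3,k4,k0,k1,k2] [(z1,[y1,y1,y1,z3]),(z1,[z0,z1])] [],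
    .leafM k5 [k1,k2,k3,k4,k0] [(z1,[z0,z0,z1]),(z1,[y1,y1,y1,z2])] [],
    .lp [k22,k10,k10,k8,k8] [k0,k0,k6,k6,k6,k6,k7,k7,k7,k7] k0 [] k40 k6
    [[(k6,k15)],[(k7,k15),(k2,k16),(k3,k16),(k4,k16),(k5,k16),(k0,k22)],[(k7,k9),(k2,k10),(k3,k10),(k4,k10),(k5,k10),
    (k0,k16)],[(k7,k9),(k2,k10),(k3,k10),(k4,k10),(k5,k10),(k0,k16)],[(k7,k9),(k2,k10),(k3,k10),(k4,k10),(k5,k10),(k0,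
    k16)],[(k7,k9),(k2,k10),(k3,k10),(k4,k10),(k5,k10),(k0,k16)],[(k7,k8),(k2,k9),(k3,k9),(k4,k9),(k5,k9),(k0,k15)],
    [(k1,k15)],[(k8,k8)],[(k9,k8)]]
    [] k0
    [[k0,k3,k0,k0,k0],[k0,k2,k1,k0,k0],[k0,k1,k2,k0,k0],[k0,k0,k3,k0,k0],[k0,k0,k0,k0,k3],[k0,k0,k0,k0,k4]]
    [.ref k0 k0 [(z1,[y1,z3,z3]),(z1,[z1]),(z1,[z1,y3,y6,z3])],.ref k0 k0 [(z1,[y1,z2,z1,z1]),(z1,[z1,z1,z2,y1]),(z1,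
    [z1,y2,y4,z2])],.ref k0 k0 [(z1,[y1,z1,y1,z2]),(z1,[z1,z2,z4,y2]),(z1,[z1,y1,y2,z1])],.ref k0 k0 [(z1,[y1,z0,y3,
    z3]),(z1,[z1,z3,z6,y3]),(z1,[z1])],.ref k1 k0 [(z1,[z1,z3]),(z1,[y1,z0,z3]),(z1,[y1,y3,y3,z3])],.ref k2 k0 [(z2,
    [z1,z4]),(z2,[y1,z0,z4]),(z2,[y1,y4,y4,z4])]],
    .leafM k6 [k3,k4,k0,k1,k2] [(z1,[y3,y1,z3]),(z1,[z0,z1])] [],
    .leafM k4 [k3,k4,k0,k1,k2] [(z1,[y3,y1,z3]),(z1,[z0,z1])] [],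
    .leafM k5 [k3,k4,k0,k1,k2] [(z1,[y2,y1,z2]),(z1,[z0,z1])] [],
    .lp [k40,k30,k60,k20,k24] [k10,k10,k15,k15,k0,k0,k20,k20,k18,k18] k0 [] k120 k6
    [[(k6,k30)],[(k7,k30),(k2,k35),(k3,k35),(k0,k40),(k4,k50),(k5,k50)],[(k7,k25),(k2,k30),(k3,k30),(k0,k35),(k4,k45),
    (k5,k45)],[(k7,k25),(k2,k30),(k3,k30),(k0,k35),(k4,k45),(k5,k45)],[(k7,k40),(k2,k45),(k3,k45),(k0,k50),(k4,k60),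
    (k5,k60)],[(k7,k40),(k2,k45),(k3,k45),(k0,k50),(k4,k60),(k5,k60)],[(k7,k20),(k2,k25),(k3,k25),(k0,k30),(k4,k40),
    (k5,k40)],[(k1,k30)],[(k8,k24)],[(k9,k24)]]
    [] k0
    [[k1,k1,k0,k1,k0],[k0,k3,k0,k0,k0],[k0,k0,k0,k0,k3],[k0,k0,k0,k0,k4]]
    [.ref k3 k0 [(z1,[z1,z1,y1]),(z1,[z0,y1,z1])],.ref k4 k0 [(z1,[z0,z1]),(z1,[z1])],.ref k5 k0 [(z1,[z0,z1]),(z1,
    [y1,y3,z3])],.ref k6 k0 [(z1,[z0,z1]),(z2,[y1,y4,z4])]],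
    .lp [k60,k78,k78,k60,k80] [k10,k10,k1,k1,k1,k1,k10,k10,k0,k0] k0 [[k0,k0,k6,k6],[],[k0,k6,k0,k0,k6],[k0,k6,k0,k0,k6],
    [],[k0,k0,k6,k6]] (nat_lit 240) k5
    [[(k6,k60)],[(k0,k60),(k7,k60),(k2,k63),(k5,k63),(k3,k69),(k4,k69)],[(k0,k69),(k7,k69),(k3,k78),(k4,k78),(k2,k84),
    (k5,k84)],[(k0,k63),(k7,k63),(k2,k78),(k5,k78),(k3,k84),(k4,k84)],[(k0,k63),(k7,k63),(k2,k78),(k5,k78),(k3,k84),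
    (k4,k84)],[(k0,k69),(k7,k69),(k3,k78),(k4,k78),(k2,k84),(k5,k84)],[(k0,k60),(k7,k60),(k2,k63),(k5,k63),(k3,k69),
    (k4,k69)],[(k1,k60)],[(k8,k80)],[(k9,k80)]]
    [] k0
    [[k1,k1,k0,k1,k0],[k1,k0,k1,k1,k0]]
    [.ref k7 k1 [(z1,[z1])],.ref k7 k0 [(z1,[z1])]]]⟩

/-- classes `0 0 0 1 1`, types `S0 S0 S0 N0 N2` -/
noncomputable def cT5_81 : CertT :=
  ⟨[k0,k0,k0,k28,k30],[(false,k0,[k0,k1,k2,k3,k4])],[[[([z1,z0,z0,z1,z1],z2)],[]]],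
    [.leafM k3 [k3,k4,k0,k1,k2] [(z1,[y1,z1])] [],
    .lp [k6,k8,k8,k6,k6] [k1,k1,k0,k0,k0,k0,k1,k1,k1,k1] k0 [] k24 k5
    [[(k9,k6)],[(k0,k6),(k7,k6),(k2,k7),(k3,k7),(k4,k7),(k5,k7)],[(k0,k7),(k7,k7),(k2,k8),(k3,k8),(k4,k8),(k5,k8)],
    [(k0,k7),(k7,k7),(k2,k8),(k3,k8),(k4,k8),(k5,k8)],[(k0,k7),(k7,k7),(k2,k8),(k3,k8),(k4,k8),(k5,k8)],[(k0,k7),(k7,
    k7),(k2,k8),(k3,k8),(k4,k8),(k5,k8)],[(k0,k6),(k7,k6),(k2,k7),(k3,k7),(k4,k7),(k5,k7)],[(k8,k6)],[(k1,k6)],[(k6,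
    k6)]]
    [] k0
    [[k1,k0,k0,k1,k1]]
    [.ref k0 k0 [(z1,[z1])]]]⟩

/-- classes `0 0 0 1 2`, types `C0 C0 C0 C0 C0` -/
noncomputable def cT5_82 : CertT :=
  ⟨[k4,k4,k4,k20,k36],[(false,k0,[k0,k1,k2,k3,k4])],[[[([z1,z0,z0,z1,z1],z2)],[]]],
    [.leafM k1 [k0,k1,k2,k3,k4] [(z1,[y1,z1])] [],
    .lp [k6,k8,k8,k6,k6] [k1,k1,k0,k0,k0,k0,k1,k1,k1,k1] k0 [] k24 k5
    [[(k8,k6)],[(k7,k6),(k3,k7),(k5,k7)],[(k0,k7),(k2,k8),(k4,k8)],[(k7,k7),(k3,k8),(k5,k8)],[(k0,k7),(k2,k8),(k4,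
    k8)],[(k7,k7),(k3,k8),(k5,k8)],[(k0,k6),(k2,k7),(k4,k7)],[(k9,k6)],[(k6,k6)],[(k1,k6)]]
    [] k0
    [[k1,k0,k0,k1,k1]]
    [.ref k0 k0 [(z1,[z1])]]]⟩

/-- classes `0 0 0 1 2`, types `C0 C0 C0 C0 S0` -/
noncomputable def cT5_83 : CertT :=
  ⟨[k4,k4,k4,k20,k32],[(false,k0,[k0,k1,k2,k3,k4])],[[[([z1,z0,z0,z1,z1],z2)],[]]],
    [.leafM k1 [k0,k1,k2,k3,k4] [(z1,[y1,z1])] [],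
    .lp [k6,k8,k8,k6,k6] [k1,k1,k0,k0,k0,k0,k1,k1,k1,k1] k0 [] k24 k5
    [[(k1,k6),(k8,k6)],[(k7,k6),(k3,k7),(k5,k7)],[(k0,k7),(k2,k8),(k4,k8)],[(k7,k7),(k3,k8),(k5,k8)],[(k0,k7),(k2,k8),
    (k4,k8)],[(k7,k7),(k3,k8),(k5,k8)],[(k0,k6),(k2,k7),(k4,k7)],[(k9,k6)],[(k6,k6)],[(k1,k6),(k8,k6)]]
    [] k0
    [[k1,k0,k0,k1,k1]]
    [.ref k0 k0 [(z1,[z1])]]]⟩

/-- classes `0 0 0 1 2`, types `C0 C0 C0 S0 S0` -/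
noncomputable def cT5_84 : CertT :=
  ⟨[k4,k4,k4,k16,k32],[(false,k0,[k0,k1,k2,k3,k4])],[[[([z1,z0,z0,z1,z1],z2)],[]]],
    [.leafM k1 [k0,k1,k2,k3,k4] [(z1,[y1,z1])] [],
    .lp [k6,k8,k8,k6,k6] [k1,k1,k0,k0,k0,k0,k1,k1,k1,k1] k0 [] k24 k5
    [[(k1,k6),(k8,k6)],[(k7,k6),(k3,k7),(k5,k7)],[(k0,k7),(k2,k8),(k4,k8)],[(k7,k7),(k3,k8),(k5,k8)],[(k0,k7),(k2,k8),
    (k4,k8)],[(k7,k7),(k3,k8),(k5,k8)],[(k0,k6),(k2,k7),(k4,k7)],[(k6,k6),(k9,k6)],[(k6,k6),(k9,k6)],[(k1,k6),(k8,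
    k6)]]
    [] k0
    [[k1,k0,k0,k1,k1]]
    [.ref k0 k0 [(z1,[z1])]]]⟩

/-- classes `0 0 0 1 2`, types `C0 C0 C2 C0 C0` -/
noncomputable def cT5_85 : CertT :=
  ⟨[k4,k4,k6,k20,k36],[],[[[]]],
    [.lp [k4,k4,k2,k4,k2] [k0,k0,k0,k0,k1,k1,k0,k0,k1,k1] k0 [] k12 k5
    [[(k8,k3)],[(k4,k3),(k5,k3),(k3,k4)],[(k0,k4),(k2,k4),(k7,k4)],[(k4,k3),(k5,k3),(k3,k4)],[(k0,k3),(k2,k3),(k7,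
    k3)],[(k0,k3),(k2,k3),(k7,k3)],[(k4,k3),(k5,k3),(k3,k4)],[(k9,k3)],[(k6,k3)],[(k1,k3)]]
    [] k0
    []
    []]⟩

/-- classes `0 0 0 1 2`, types `C0 C0 C2 C0 S0` -/
noncomputable def cT5_86 : CertT :=
  ⟨[k4,k4,k6,k20,k32],[],[[[]]],
    [.lp [k18,k16,k12,k12,k12] [k0,k0,k1,k1,k3,k3,k3,k3,k3,k3] k0 [] k48 k5
    [[(k8,k15),(k1,k18)],[(k4,k15),(k5,k15),(k3,k17)],[(k7,k14),(k2,k16),(k0,k17)],[(k4,k14),(k5,k14),(k3,k16)],[(k7,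
    k12),(k2,k14),(k0,k15)],[(k7,k12),(k2,k14),(k0,k15)],[(k4,k12),(k5,k12),(k3,k14)],[(k9,k12)],[(k6,k12)],[(k8,k12),
    (k1,k15)]]
    [] k0
    []
    []]⟩

/-- classes `0 0 0 1 2`, types `C0 C0 C2 S0 C0` -/
noncomputable def cT5_87 : CertT :=
  ⟨[k4,k4,k6,k16,k36],[],[[[]]],
    [.lp [k12,k16,k12,k18,k12] [k3,k3,k1,k1,k3,k3,k0,k0,k3,k3] k0 [] k48 k5
    [[(k8,k12)],[(k4,k12),(k5,k12),(k3,k14)],[(k0,k14),(k2,k16),(k7,k17)],[(k4,k14),(k5,k14),(k3,k16)],[(k0,k12),(k2,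
    k14),(k7,k15)],[(k0,k12),(k2,k14),(k7,k15)],[(k4,k15),(k5,k15),(k3,k17)],[(k9,k15),(k6,k18)],[(k9,k12),(k6,k15)],
    [(k1,k12)]]
    [] k0
    []
    []]⟩

/-- classes `0 0 0 1 2`, types `C0 C0 C2 S0 S0` -/
noncomputable def cT5_88 : CertT :=
  ⟨[k4,k4,k6,k16,k32],[],[[[]]],
    [.lp [k48,k18,k46,k36,k30] [k0,k10,k20,k20,k6,k6,k14,k8,k14,k14] k0 [[k0,k0,k22],[],[k0,k0,k0,k0,k0,k2],[k0,k22],[k0,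
    k0,k0,k2]] k120 k5
    [[(k8,k34),(k1,k38)],[(k5,k30),(k3,k38),(k4,k52)],[(k7,k30),(k0,k38),(k2,k40)],[(k4,k30),(k5,k32),(k3,k40)],[(k0,
    k30),(k2,k32),(k7,k46)],[(k2,k30),(k7,k44),(k0,k52)],[(k3,k30),(k4,k44),(k5,k46)],[(k6,k30),(k9,k30)],[(k6,k30),
    (k9,k30)],[(k8,k30),(k1,k34)]]
    [] k0
    []
    []]⟩

/-- classes `0 0 0 1 2`, types `C0 C2 C0 C0 C0` -/
noncomputable def cT5_89 : CertT :=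
  ⟨[k4,k6,k4,k20,k36],[(false,k0,[k0,k1,k2,k3,k4])],[[[([z1,z0,z0,z1,z1],z2)],[]]],
    [.leafM k1 [k0,k1,k2,k3,k4] [(z1,[y1,z1])] [],
    .lp [k2,k2,k2,k2,k2] [k0,k0,k0,k0,k0,k0,k0,k0,k0,k0] k0 [] k8 k5
    [[(k8,k2)],[(k2,k2),(k3,k2),(k7,k2)],[(k0,k2),(k4,k2),(k5,k2)],[(k0,k2),(k4,k2),(k5,k2)],[(k2,k2),(k3,k2),(k7,
    k2)],[(k2,k2),(k3,k2),(k7,k2)],[(k0,k2),(k4,k2),(k5,k2)],[(k9,k2)],[(k6,k2)],[(k1,k2)]]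
    [] k0
    [[k1,k0,k0,k1,k1]]
    [.ref k0 k0 [(z1,[z1])]]]⟩

/-- classes `0 0 0 1 2`, types `C0 C2 C0 C0 S0` -/
noncomputable def cT5_90 : CertT :=
  ⟨[k4,k6,k4,k20,k32],[(false,k0,[k0,k1,k2,k3,k4])],[[[([z1,z0,z0,z1,z1],z2)],[]]],
    [.leafM k1 [k0,k1,k2,k3,k4] [(z1,[y1,z1])] [],
    .lp [k6,k4,k4,k4,k4] [k0,k0,k1,k1,k1,k1,k1,k1,k1,k1] k0 [] k16 k5
    [[(k8,k5),(k1,k6)],[(k2,k5),(k3,k5),(k7,k5)],[(k4,k4),(k5,k4),(k0,k5)],[(k4,k4),(k5,k4),(k0,k5)],[(k2,k4),(k3,k4),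
    (k7,k4)],[(k2,k4),(k3,k4),(k7,k4)],[(k4,k4),(k5,k4),(k0,k5)],[(k9,k4)],[(k6,k4)],[(k8,k4),(k1,k5)]]
    [] k0
    [[k1,k0,k0,k1,k1]]
    [.ref k0 k0 [(z1,[z1])]]]⟩

/-- classes `0 0 0 1 2`, types `C0 C2 C0 S0 S0` -/
noncomputable def cT5_91 : CertT :=
  ⟨[k4,k6,k4,k16,k32],[(false,k0,[k0,k1,k2,k3,k4])],[[[([z1,z0,z0,z1,z1],z2)],[]]],
    [.leafM k1 [k0,k1,k2,k3,k4] [(z1,[y1,z1])] [],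
    .lp [k12,k16,k0,k20,k10] [k4,k4,k2,k2,k10,k10,k0,k0,k5,k5] k0 [] k40 k6
    [[(k8,k11),(k1,k12)],[(k2,k14),(k3,k14),(k7,k16)],[(k4,k8),(k5,k8),(k0,k14)],[(k4,k8),(k5,k8),(k0,k14)],[(k2,k8),
    (k3,k8),(k7,k10)],[(k2,k8),(k3,k8),(k7,k10)],[(k4,k10),(k5,k10),(k0,k16)],[(k9,k15),(k6,k20)],[(k9,k10),(k6,k15)],
    [(k8,k10),(k1,k11)]]
    [] k0
    [[k0,k2,k2,k0,k0]]
    [.ref k0 k0 [(z2,[y1,z2])]]]⟩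

/-- classes `0 0 0 1 2`, types `S0 S0 S0 C0 C0` -/
noncomputable def cT5_92 : CertT :=
  ⟨[k0,k0,k0,k20,k36],[(false,k0,[k0,k1,k2,k3,k4])],[[[([z1,z0,z0,z1,z1],z2)],[]]],
    [.leafM k0 [k1,k2,k3,k4,k0] [(z1,[y1,z1])] [],
    .lp [k6,k8,k8,k6,k6] [k1,k1,k0,k0,k0,k0,k1,k1,k1,k1] k0 [] k24 k5
    [[(k8,k6)],[(k0,k6),(k7,k6),(k2,k7),(k3,k7),(k4,k7),(k5,k7)],[(k0,k7),(k7,k7),(k2,k8),(k3,k8),(k4,k8),(k5,k8)],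
    [(k0,k7),(k7,k7),(k2,k8),(k3,k8),(k4,k8),(k5,k8)],[(k0,k7),(k7,k7),(k2,k8),(k3,k8),(k4,k8),(k5,k8)],[(k0,k7),(k7,
    k7),(k2,k8),(k3,k8),(k4,k8),(k5,k8)],[(k0,k6),(k7,k6),(k2,k7),(k3,k7),(k4,k7),(k5,k7)],[(k9,k6)],[(k6,k6)],[(k1,
    k6)]]
    [] k0
    [[k1,k0,k0,k1,k1]]
    [.ref k0 k0 [(z1,[z1])]]]⟩

/-- classes `0 0 0 1 2`, types `S0 S0 S0 C0 S0` -/
noncomputable def cT5_93 : CertT :=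
  ⟨[k0,k0,k0,k20,k32],[(false,k0,[k0,k1,k2,k3,k4])],[[[([z1,z0,z0,z1,z1],z2)],[([z1,z1,z1,z0,z0],z2)],[]]],
    [.leafM k0 [k1,k2,k3,k4,k0] [(z1,[y1,z1])] [],
    .leafM k0 [k3,k4,k0,k1,k2] [(z1,[y1,z1])] [],
    .lp [k10,k10,k10,k6,k6] [k0,k0,k0,k0,k0,k0,k2,k2,k2,k2] k0 [] k30 k6
    [[(k8,k8),(k1,k10)],[(k7,k8),(k0,k10),(k2,k10),(k3,k10),(k4,k10),(k5,k10)],[(k7,k8),(k0,k10),(k2,k10),(k3,k10),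
    (k4,k10),(k5,k10)],[(k7,k8),(k0,k10),(k2,k10),(k3,k10),(k4,k10),(k5,k10)],[(k7,k8),(k0,k10),(k2,k10),(k3,k10),(k4,
    k10),(k5,k10)],[(k7,k8),(k0,k10),(k2,k10),(k3,k10),(k4,k10),(k5,k10)],[(k7,k6),(k0,k8),(k2,k8),(k3,k8),(k4,k8),
    (k5,k8)],[(k9,k6)],[(k6,k6)],[(k8,k6),(k1,k8)]]
    [] k0
    [[k1,k0,k0,k1,k1],[k0,k0,k0,k2,k2]]
    [.ref k0 k0 [(z1,[z1])],.ref k1 k0 [(z2,[y1,z2])]]]⟩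

/-- classes `0 0 1 0 1`, types `C0 C0 B0 C0 B1` -/
noncomputable def cT5_94 : CertT :=
  ⟨[k4,k4,k24,k4,k25],[(false,k0,[k0,k1,k2,k3,k4])],[[[([z1,z1,z1,z0,z0],z2)],[]]],
    [.leafM k1 [k2,k3,k4,k0,k1] [(z1,[y1,z1])] [],
    .lp [k30,k32,k18,k30,k30] [k1,k1,k0,k0,k7,k7,k1,k1,k1,k1] k0 [[k0,k0,k0,k0,k0,k0,k4],[],[],[],[],[],[],[k0,k4]] k96 k5
    [[(k4,k24),(k7,k30)],[(k5,k24),(k9,k26),(k3,k31)],[(k0,k31),(k2,k32),(k6,k35)],[(k5,k25),(k9,k31),(k3,k32)],[(k0,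
    k24),(k6,k24),(k2,k25)],[(k1,k24),(k8,k24)],[(k1,k30),(k8,k30)],[(k5,k24),(k9,k30),(k3,k35)],[(k0,k26),(k6,k30),
    (k2,k31)],[(k4,k24),(k7,k30)]]
    [] k0
    [[k1,k1,k1,k0,k0]]
    [.ref k0 k0 [(z1,[z1])]]]⟩

/-- classes `0 0 1 0 1`, types `C0 C0 B0 C2 B1` -/
noncomputable def cT5_95 : CertT :=
  ⟨[k4,k4,k24,k6,k25],[(false,k0,[k0,k1,k2,k3,k4]),(true,k2,[k2,k1,k0,k4,k3])],[[[([z1,z1,z1,z0,z0],z2)],[([z1,z0,z0,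
    z1,z0],z1)],[]]],
    [.leafM k1 [k2,k3,k4,k0,k1] [(z1,[y1,z1])] [],
    .leafM k2 [k2,k3,k4,k0,k1] [(z1,[z1])] [],
    .lp [k18,k18,k6,k10,k18] [k0,k0,k0,k0,k6,k6,k4,k4,k0,k0] k0 [[k0,k0,k0,k0,k0,k0,k0,k2],[],[],[],[],[],[k0,k2]] k48 k5
    [[(k4,k12),(k7,k14)],[(k5,k12),(k6,k12),(k3,k18)],[(k0,k18),(k2,k18),(k9,k20)],[(k5,k12),(k6,k14),(k3,k18)],[(k0,
    k12),(k2,k12),(k9,k12)],[(k1,k12),(k8,k12)],[(k1,k14),(k8,k14)],[(k0,k12),(k2,k14),(k9,k14)],[(k5,k12),(k6,k14),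
    (k3,k20)],[(k4,k12),(k7,k14)]]
    [] k0
    [[k1,k1,k1,k0,k0],[k1,k1,k0,k1,k0],[k0,k1,k1,k0,k1]]
    [.ref k0 k0 [(z1,[z1])],.ref k1 k1 [(z1,[y1,z1])],.ref k1 k0 [(z1,[y1,z1])]]]⟩

/-- classes `0 0 1 0 1`, types `C0 C0 C0 C0 C0` -/
noncomputable def cT5_96 : CertT :=
  ⟨[k4,k4,k20,k4,k20],[(false,k0,[k0,k1,k2,k3,k4]),(true,k2,[k2,k1,k0,k4,k3])],[[[([z1,z1,z1,z0,z0],z2)],[([z1,z0,z0,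
    z0,z1],z1)],[]]],
    [.leafM k1 [k2,k3,k4,k0,k1] [(z1,[y1,z1])] [],
    .leafM k1 [k3,k4,k0,k1,k2] [(z1,[z1])] [],
    .lp [k6,k18,k18,k6,k22] [k8,k8,k2,k2,k2,k2,k8,k8,k0,k0] k0 [[k0,k0,k0,k0,k0,k0,k2],[],[],[],[],[],[],[k0,k2]] k48 k5
    [[(k4,k12),(k8,k14)],[(k3,k12),(k5,k12),(k9,k12)],[(k0,k12),(k6,k14),(k2,k18)],[(k3,k18),(k5,k18),(k9,k20)],[(k0,
    k12),(k6,k12),(k2,k18)],[(k1,k12),(k7,k12)],[(k4,k12),(k8,k14)],[(k5,k12),(k3,k14),(k9,k14)],[(k0,k12),(k6,k14),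
    (k2,k20)],[(k1,k14),(k7,k14)]]
    [] k0
    [[k1,k1,k1,k0,k0],[k1,k1,k0,k0,k1],[k0,k1,k1,k1,k0]]
    [.ref k0 k0 [(z1,[z1])],.ref k1 k1 [(z1,[y1,z1])],.ref k1 k0 [(z1,[y1,z1])]]]⟩

/-- classes `0 0 1 0 1`, types `C0 C0 C0 C0 C2` -/
noncomputable def cT5_97 : CertT :=
  ⟨[k4,k4,k20,k4,k22],[(true,k2,[k2,k1,k0,k4,k3]),(false,k0,[k0,k1,k2,k3,k4])],[[[([z1,z0,z0,z0,z1],z1)],[]]],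
    [.leafM k1 [k3,k4,k0,k1,k2] [(z1,[z1])] [],
    .lp [k6,k8,k6,k6,k6] [k1,k1,k0,k0,k1,k1,k1,k1,k1,k1] k0 [] k24 k5
    [[(k7,k6),(k8,k6)],[(k5,k6),(k9,k6),(k3,k7)],[(k0,k7),(k6,k7),(k2,k8)],[(k5,k7),(k9,k7),(k3,k8)],[(k0,k6),(k6,k6),
    (k2,k7)],[(k7,k6),(k8,k6)],[(k1,k6),(k4,k6)],[(k5,k6),(k9,k6),(k3,k7)],[(k0,k6),(k6,k6),(k2,k7)],[(k1,k6),(k4,
    k6)]]
    [] k0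
    [[k1,k1,k0,k0,k1],[k0,k1,k1,k1,k0]]
    [.ref k0 k0 [(z1,[y1,z1])],.ref k0 k1 [(z1,[y1,z1])]]]⟩

/-- classes `0 0 1 0 1`, types `C0 C0 C0 C2 C0` -/
noncomputable def cT5_98 : CertT :=
  ⟨[k4,k4,k20,k6,k20],[(false,k0,[k0,k1,k2,k3,k4])],[[[([z1,z1,z1,z0,z0],z2)],[]]],
    [.leafM k1 [k2,k3,k4,k0,k1] [(z1,[y1,z1])] [],
    .lp [k14,k18,k10,k14,k14] [k2,k2,k0,k0,k4,k4,k2,k2,k2,k2] k0 [[k0,k0,k0,k0,k0,k0,k0,k2],[],[],[],[],[],[k0,k2]] k48 k5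
    [[(k4,k12),(k8,k14)],[(k5,k12),(k6,k12),(k3,k16)],[(k0,k16),(k2,k18),(k9,k18)],[(k5,k14),(k6,k16),(k3,k18)],[(k0,
    k12),(k9,k12),(k2,k14)],[(k1,k12),(k7,k12)],[(k4,k12),(k8,k14)],[(k0,k12),(k9,k14),(k2,k16)],[(k5,k12),(k6,k14),
    (k3,k18)],[(k1,k14),(k7,k14)]]
    [] k0
    [[k1,k1,k1,k0,k0]]
    [.ref k0 k0 [(z1,[z1])]]]⟩

/-- classes `0 0 1 0 1`, types `C0 C0 C0 C2 C2` -/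
noncomputable def cT5_99 : CertT :=
  ⟨[k4,k4,k20,k6,k22],[(true,k2,[k2,k1,k0,k4,k3]),(false,k0,[k0,k1,k2,k3,k4])],[[[([z1,z0,z0,z1,z0],z1)],[]]],
    [.leafM k2 [k2,k3,k4,k0,k1] [(z1,[z1])] [],
    .lp [k6,k8,k6,k6,k6] [k1,k1,k0,k0,k1,k1,k1,k1,k1,k1] k0 [] k24 k5
    [[(k7,k6),(k8,k6)],[(k5,k6),(k6,k6),(k3,k7)],[(k0,k7),(k9,k7),(k2,k8)],[(k5,k7),(k6,k7),(k3,k8)],[(k0,k6),(k9,k6),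
    (k2,k7)],[(k7,k6),(k8,k6)],[(k1,k6),(k4,k6)],[(k0,k6),(k9,k6),(k2,k7)],[(k5,k6),(k6,k6),(k3,k7)],[(k1,k6),(k4,
    k6)]]
    [] k0
    [[k1,k1,k0,k1,k0],[k0,k1,k1,k0,k1]]
    [.ref k0 k0 [(z1,[y1,z1])],.ref k0 k1 [(z1,[y1,z1])]]]⟩

/-- classes `0 0 1 0 1`, types `C0 C0 N0 C0 N1` -/
noncomputable def cT5_100 : CertT :=
  ⟨[k4,k4,k28,k4,k29],[(false,k0,[k0,k1,k2,k3,k4])],[[[([z1,z1,z1,z0,z0],z2)],[]]],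
    [.leafM k1 [k2,k3,k4,k0,k1] [(z1,[y1,z1])] [],
    .lp [k6,k18,k18,k6,k22] [k8,k8,k2,k2,k2,k2,k8,k8,k0,k0] k0 [[k0,k0,k0,k0,k0,k0,k2],[],[],[],[],[],[],[k0,k2]] k48 k5
    [[(k4,k12)],[(k3,k12),(k5,k12),(k9,k12)],[(k0,k12),(k6,k14),(k2,k18)],[(k3,k18),(k5,k18),(k9,k20)],[(k0,k12),(k6,
    k12),(k2,k18)],[(k1,k12)],[(k8,k14)],[(k5,k12),(k3,k14),(k9,k14)],[(k0,k12),(k6,k14),(k2,k20)],[(k7,k14)]]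
    [] k0
    [[k1,k1,k1,k0,k0]]
    [.ref k0 k0 [(z1,[z1])]]]⟩

/-- classes `0 0 1 0 1`, types `C0 C0 N0 C0 N2` -/
noncomputable def cT5_101 : CertT :=
  ⟨[k4,k4,k28,k4,k30],[],[[[]]],
    [.lp [k6,k8,k6,k6,k6] [k1,k1,k0,k0,k1,k1,k1,k1,k1,k1] k0 [] k24 k5
    [[(k7,k6)],[(k5,k6),(k9,k6),(k3,k7)],[(k0,k7),(k6,k7),(k2,k8)],[(k5,k7),(k9,k7),(k3,k8)],[(k0,k6),(k6,k6),(k2,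
    k7)],[(k8,k6)],[(k1,k6)],[(k5,k6),(k9,k6),(k3,k7)],[(k0,k6),(k6,k6),(k2,k7)],[(k4,k6)]]
    [] k0
    []
    []]⟩

/-- classes `0 0 1 0 1`, types `C0 C0 N0 C2 N1` -/
noncomputable def cT5_102 : CertT :=
  ⟨[k4,k4,k28,k6,k29],[(false,k0,[k0,k1,k2,k3,k4])],[[[([z1,z1,z1,z0,z0],z2)],[]]],
    [.leafM k1 [k2,k3,k4,k0,k1] [(z1,[y1,z1])] [],
    .lp [k18,k18,k6,k6,k22] [k2,k2,k2,k2,k8,k8,k8,k8,k0,k0] k0 [[],[],[],[k0,k0,k0,k0,k0,k0,k2],[],[],[],[k0,k0,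
    k2]] k48 k5
    [[(k4,k12)],[(k5,k12),(k6,k12),(k3,k18)],[(k0,k18),(k2,k18),(k9,k20)],[(k5,k12),(k6,k14),(k3,k18)],[(k0,k12),(k2,
    k12),(k9,k12)],[(k1,k12)],[(k8,k14)],[(k0,k12),(k2,k14),(k9,k14)],[(k5,k12),(k6,k14),(k3,k20)],[(k7,k14)]]
    [] k0
    [[k1,k1,k1,k0,k0]]
    [.ref k0 k0 [(z1,[z1])]]]⟩

/-- classes `0 0 1 0 1`, types `C0 C0 N0 C2 N2` -/
noncomputable def cT5_103 : CertT :=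
  ⟨[k4,k4,k28,k6,k30],[(true,k2,[k2,k1,k0,k4,k3]),(false,k0,[k0,k1,k2,k3,k4])],[[[([z1,z0,z0,z1,z0],z1)],[]]],
    [.leafM k2 [k2,k3,k4,k0,k1] [(z1,[z1])] [],
    .lp [k4,k4,k2,k2,k4] [k0,k0,k0,k0,k1,k1,k1,k1,k0,k0] k0 [] k12 k5
    [[(k7,k3)],[(k5,k3),(k6,k3),(k3,k4)],[(k0,k4),(k2,k4),(k9,k4)],[(k5,k3),(k6,k3),(k3,k4)],[(k0,k3),(k2,k3),(k9,
    k3)],[(k8,k3)],[(k1,k3)],[(k0,k3),(k2,k3),(k9,k3)],[(k5,k3),(k6,k3),(k3,k4)],[(k4,k3)]]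
    [] k0
    [[k1,k1,k0,k1,k0],[k0,k1,k1,k0,k1]]
    [.ref k0 k0 [(z1,[y1,z1])],.ref k0 k1 [(z1,[y1,z1])]]]⟩

/-- classes `0 0 1 0 1`, types `C0 C0 S0 C0 S0` -/
noncomputable def cT5_104 : CertT :=
  ⟨[k4,k4,k16,k4,k16],[(false,k0,[k0,k1,k2,k3,k4]),(true,k2,[k2,k1,k0,k4,k3])],[[[([z1,z1,z1,z0,z0],z2)],[([z1,z0,z0,
    z0,z1],z1)],[]]],
    [.leafM k0 [k3,k4,k0,k1,k2] [(z1,[y1,z1])] [],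
    .leafM k1 [k3,k4,k0,k1,k2] [(z1,[z1])] [],
    .lp [k12,k18,k12,k12,k16] [k3,k3,k0,k0,k3,k3,k3,k3,k1,k1] k0 [[k0,k0,k0,k0,k0,k0,k2],[],[],[],[],[],[],[k0,k2]] k48 k5
    [[(k1,k12),(k4,k12),(k7,k12),(k8,k14)],[(k5,k12),(k9,k12),(k3,k15)],[(k0,k15),(k6,k17),(k2,k18)],[(k5,k15),(k9,
    k17),(k3,k18)],[(k0,k12),(k6,k12),(k2,k15)],[(k1,k12),(k4,k12),(k7,k12),(k8,k14)],[(k1,k12),(k4,k12),(k7,k12),(k8,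
    k14)],[(k5,k12),(k9,k14),(k3,k17)],[(k0,k12),(k6,k14),(k2,k17)],[(k1,k14),(k4,k14),(k7,k14),(k8,k16)]]
    [] k0
    [[k1,k1,k1,k0,k0],[k1,k1,k0,k0,k1],[k0,k1,k1,k1,k0]]
    [.ref k0 k0 [(z1,[z1])],.ref k1 k1 [(z1,[y1,z1])],.ref k1 k0 [(z1,[y1,z1])]]]⟩

/-- classes `0 0 1 0 1`, types `C0 C0 S0 C2 S0` -/
noncomputable def cT5_105 : CertT :=
  ⟨[k4,k4,k16,k6,k16],[(false,k0,[k0,k1,k2,k3,k4]),(true,k2,[k2,k1,k0,k4,k3])],[[[([z1,z1,z1,z0,z0],z2)],[([z1,z0,z0,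
    z1,z0],z1)],[]]],
    [.leafM k0 [k3,k4,k0,k1,k2] [(z1,[y1,z1])] [],
    .leafM k2 [k2,k3,k4,k0,k1] [(z1,[z1])] [],
    .lp [k12,k18,k12,k16,k12] [k3,k3,k0,k0,k3,k3,k1,k1,k3,k3] k0 [[k0,k0,k0,k0,k0,k0,k0,k2],[],[],[],[],[],[k0,k2]] k48 k5
    [[(k1,k12),(k4,k12),(k8,k12),(k7,k14)],[(k5,k12),(k6,k12),(k3,k15)],[(k0,k15),(k9,k17),(k2,k18)],[(k5,k15),(k6,
    k17),(k3,k18)],[(k0,k12),(k9,k12),(k2,k15)],[(k1,k12),(k4,k12),(k8,k12),(k7,k14)],[(k1,k14),(k4,k14),(k8,k14),(k7,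
    k16)],[(k0,k12),(k9,k14),(k2,k17)],[(k5,k12),(k6,k14),(k3,k17)],[(k1,k12),(k4,k12),(k8,k12),(k7,k14)]]
    [] k0
    [[k1,k1,k1,k0,k0],[k1,k1,k0,k1,k0],[k0,k1,k1,k0,k1]]
    [.ref k0 k0 [(z1,[z1])],.ref k1 k1 [(z1,[y1,z1])],.ref k1 k0 [(z1,[y1,z1])]]]⟩

/-- classes `0 0 1 0 1`, types `C0 C2 B0 C0 B1` -/
noncomputable def cT5_106 : CertT :=
  ⟨[k4,k6,k24,k4,k25],[(false,k0,[k0,k1,k2,k3,k4])],[[[([z1,z1,z1,z0,z0],z2)],[([z1,z1,z0,z1,z0],z2)],[]]],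
    [.leafM k1 [k2,k3,k4,k0,k1] [(z1,[y1,z1])] [],
    .leafM k2 [k1,k2,k3,k4,k0] [(z1,[y1,z1])] [],
    .lp [k2,k2,k2,k2,k2] [k0,k0,k0,k0,k0,k0,k0,k0,k0,k0] k0 [] k8 k5
    [[(k4,k2),(k7,k2)],[(k2,k2),(k3,k2),(k9,k2)],[(k0,k2),(k5,k2),(k6,k2)],[(k0,k2),(k5,k2),(k6,k2)],[(k2,k2),(k3,k2),
    (k9,k2)],[(k1,k2),(k8,k2)],[(k1,k2),(k8,k2)],[(k2,k2),(k3,k2),(k9,k2)],[(k0,k2),(k5,k2),(k6,k2)],[(k4,k2),(k7,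
    k2)]]
    [] k0
    [[k1,k1,k1,k0,k0],[k1,k1,k0,k1,k0]]
    [.ref k0 k0 [(z1,[z1])],.ref k1 k0 [(z1,[z1])]]]⟩

/-- classes `0 0 1 0 1`, types `C0 C2 C0 C0 C0` -/
noncomputable def cT5_107 : CertT :=
  ⟨[k4,k6,k20,k4,k20],[(false,k0,[k0,k1,k2,k3,k4])],[[[([z1,z1,z1,z0,z0],z2)],[([z1,z0,z0,z0,z1],z1)],[]]],
    [.leafM k1 [k2,k3,k4,k0,k1] [(z1,[y1,z1])] [],
    .leafM k1 [k3,k4,k0,k1,k2] [(z1,[z1])] [],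
    .lp [k2,k2,k2,k2,k2] [k0,k0,k0,k0,k0,k0,k0,k0,k0,k0] k0 [] k8 k5
    [[(k4,k2),(k8,k2)],[(k2,k2),(k3,k2),(k9,k2)],[(k0,k2),(k5,k2),(k6,k2)],[(k0,k2),(k5,k2),(k6,k2)],[(k2,k2),(k3,k2),
    (k9,k2)],[(k1,k2),(k7,k2)],[(k4,k2),(k8,k2)],[(k2,k2),(k3,k2),(k9,k2)],[(k0,k2),(k5,k2),(k6,k2)],[(k1,k2),(k7,
    k2)]]
    [] k0
    [[k1,k1,k1,k0,k0],[k0,k1,k1,k1,k0]]
    [.ref k0 k0 [(z1,[z1])],.ref k1 k0 [(z1,[y1,z1])]]]⟩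

/-- classes `0 0 1 0 1`, types `C0 C2 C0 C0 C2` -/
noncomputable def cT5_108 : CertT :=
  ⟨[k4,k6,k20,k4,k22],[(false,k0,[k0,k1,k2,k3,k4])],[[[([z1,z1,z0,z1,z0],z2)],[([z1,z0,z0,z0,z1],z1)],[]]],
    [.leafM k2 [k1,k2,k3,k4,k0] [(z1,[y1,z1])] [],
    .leafM k1 [k3,k4,k0,k1,k2] [(z1,[z1])] [],
    .lp [k2,k2,k2,k2,k2] [k0,k0,k0,k0,k0,k0,k0,k0,k0,k0] k0 [] k8 k5
    [[(k7,k2),(k8,k2)],[(k2,k2),(k3,k2),(k9,k2)],[(k0,k2),(k5,k2),(k6,k2)],[(k0,k2),(k5,k2),(k6,k2)],[(k2,k2),(k3,k2),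
    (k9,k2)],[(k7,k2),(k8,k2)],[(k1,k2),(k4,k2)],[(k2,k2),(k3,k2),(k9,k2)],[(k0,k2),(k5,k2),(k6,k2)],[(k1,k2),(k4,
    k2)]]
    [] k0
    [[k1,k1,k0,k1,k0],[k0,k1,k1,k1,k0]]
    [.ref k0 k0 [(z1,[z1])],.ref k1 k0 [(z1,[y1,z1])]]]⟩

/-- classes `0 0 1 0 1`, types `C0 C2 N0 C0 N1` -/
noncomputable def cT5_109 : CertT :=
  ⟨[k4,k6,k28,k4,k29],[(false,k0,[k0,k1,k2,k3,k4])],[[[([z1,z1,z1,z0,z0],z2)],[]]],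
    [.leafM k1 [k2,k3,k4,k0,k1] [(z1,[y1,z1])] [],
    .lp [k2,k2,k2,k2,k2] [k0,k0,k0,k0,k0,k0,k0,k0,k0,k0] k0 [] k8 k5
    [[(k4,k2)],[(k2,k2),(k3,k2),(k9,k2)],[(k0,k2),(k5,k2),(k6,k2)],[(k0,k2),(k5,k2),(k6,k2)],[(k2,k2),(k3,k2),(k9,
    k2)],[(k1,k2)],[(k8,k2)],[(k2,k2),(k3,k2),(k9,k2)],[(k0,k2),(k5,k2),(k6,k2)],[(k7,k2)]]
    [] k0
    [[k1,k1,k1,k0,k0]]
    [.ref k0 k0 [(z1,[z1])]]]⟩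

/-- classes `0 0 1 0 1`, types `C0 C2 N0 C0 N2` -/
noncomputable def cT5_110 : CertT :=
  ⟨[k4,k6,k28,k4,k30],[(false,k0,[k0,k1,k2,k3,k4])],[[[([z1,z1,z0,z1,z0],z2)],[]]],
    [.leafM k2 [k1,k2,k3,k4,k0] [(z1,[y1,z1])] [],
    .lp [k2,k2,k2,k2,k2] [k0,k0,k0,k0,k0,k0,k0,k0,k0,k0] k0 [] k8 k5
    [[(k7,k2)],[(k2,k2),(k3,k2),(k9,k2)],[(k0,k2),(k5,k2),(k6,k2)],[(k0,k2),(k5,k2),(k6,k2)],[(k2,k2),(k3,k2),(k9,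
    k2)],[(k8,k2)],[(k1,k2)],[(k2,k2),(k3,k2),(k9,k2)],[(k0,k2),(k5,k2),(k6,k2)],[(k4,k2)]]
    [] k0
    [[k1,k1,k0,k1,k0]]
    [.ref k0 k0 [(z1,[z1])]]]⟩

/-- classes `0 0 1 0 1`, types `C0 C2 S0 C0 S0` -/
noncomputable def cT5_111 : CertT :=
  ⟨[k4,k6,k16,k4,k16],[(false,k0,[k0,k1,k2,k3,k4])],[[[([z1,z0,y1,z0,z0],z0),([z0,z1,z2,z0,z0],z2)],[([z1,z0,z0,y1,
    z0],z0),([z0,z1,z0,z2,z0],z2)],[([z1,z0,z0,z0,z1],z1),([z0,z1,z0,z0,y2],z0)],[([z1,z0,y1,y1,y1],y1)],[([z1,z1,z1,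
    z0,z0],z2)],[([z1,z1,z0,z1,z0],z2)],[([z1,z0,z0,z0,z1],z1)],[]]],
    [.leafM k0 [k3,k4,k0,k1,k2] [(z1,[y1,y1,z1])] [],
    .leafM k2 [k1,k2,k3,k4,k0] [(z1,[y1,y1,z1])] [],
    .leafM k1 [k3,k4,k0,k1,k2] [(z1,[z1])] [],
    .lp [k12,k20,k12,k14,k12] [k4,k4,k0,k0,k4,k4,k3,k3,k4,k4] k0 [[],[k0,k0,k4],[],[k4]] k48 k5
    [[(k1,k12),(k4,k12),(k8,k12),(k7,k13)],[(k9,k12),(k3,k16),(k2,k20)],[(k5,k12),(k0,k16),(k6,k17)],[(k5,k16),(k6,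
    k17),(k0,k20)],[(k3,k12),(k9,k12),(k2,k16)],[(k1,k12),(k4,k12),(k8,k12),(k7,k13)],[(k1,k13),(k4,k13),(k8,k13),(k7,
    k14)],[(k9,k13),(k2,k17),(k3,k17)],[(k0,k12),(k5,k12),(k6,k13)],[(k1,k12),(k4,k12),(k8,k12),(k7,k13)]]
    [] k0
    [[k1,k1,k1,k0,k0],[k1,k1,k0,k1,k0],[k0,k1,k2,k0,k0],[k0,k1,k1,k1,k0]]
    [.ref k0 k0 [(z1,[y1,z1,z1]),(z1,[z2,y1,y1])],.ref k1 k0 [(z1,[y1,z1,z1]),(z1,[z2,y1,y1])],.ref k0 k0 [(z2,[y1,z1,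
    z1]),(z1,[z1])],.ref k2 k0 [(z1,[y1,z0,z1]),(z1,[z2,z1,y1])]],
    .leafM k0 [k3,k4,k0,k1,k2] [(z1,[y1,z1])] [],
    .leafM k2 [k1,k2,k3,k4,k0] [(z1,[y1,z1])] [],
    .leafM k1 [k3,k4,k0,k1,k2] [(z1,[z1])] [],
    .lp [k12,k20,k12,k14,k12] [k4,k4,k0,k0,k4,k4,k3,k3,k4,k4] k0 [[k0,k0,k0,k4],[],[k0,k4]] k48 k5
    [[(k1,k12),(k4,k12),(k8,k12),(k7,k13)],[(k2,k12),(k9,k12),(k3,k16)],[(k0,k16),(k6,k17),(k5,k20)],[(k0,k12),(k5,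
    k16),(k6,k17)],[(k9,k12),(k2,k16),(k3,k20)],[(k1,k12),(k4,k12),(k8,k12),(k7,k13)],[(k1,k13),(k4,k13),(k8,k13),(k7,
    k14)],[(k9,k13),(k2,k17),(k3,k17)],[(k0,k12),(k5,k12),(k6,k13)],[(k1,k12),(k4,k12),(k8,k12),(k7,k13)]]
    [] k0
    [[k2,k1,k0,k0,k0],[k1,k1,k1,k0,k0],[k1,k1,k0,k1,k0],[k0,k1,k1,k1,k0]]
    [.ref k3 k0 [(z1,[z1,y1])],.ref k4 k0 [(z1,[z1])],.ref k5 k0 [(z1,[z1])],.ref k6 k0 [(z1,[y1,z1])]]]⟩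

/-- classes `0 0 1 0 1`, types `S0 S0 B0 S0 B1` -/
noncomputable def cT5_112 : CertT :=
  ⟨[k0,k0,k24,k0,k25],[(false,k0,[k0,k1,k2,k3,k4]),(true,k2,[k2,k1,k0,k4,k3])],[[[([z1,z1,z1,z0,z0],z2)],[([z1,z0,z0,
    z1,z0],z1)],[]]],
    [.leafM k1 [k2,k3,k4,k0,k1] [(z1,[y1,z1])] [],
    .leafM k2 [k2,k3,k4,k0,k1] [(z1,[z1])] [],
    .lp [k12,k16,k12,k14,k16] [k2,k2,k0,k0,k2,k2,k1,k1,k0,k0] k0 [[k0,k0,k0,k0,k0,k0,k2],[],[],[k0,k0,k0,k0,k0,k0,k2],[],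
    [],[],[k0,k2,k2]] k48 k5
    [[(k4,k12),(k7,k13)],[(k0,k12),(k5,k12),(k9,k12),(k6,k13),(k2,k14),(k3,k14)],[(k0,k14),(k5,k14),(k2,k16),(k3,k16),
    (k9,k16),(k6,k17)],[(k0,k14),(k5,k14),(k2,k16),(k3,k16),(k9,k16),(k6,k17)],[(k0,k12),(k5,k12),(k9,k12),(k6,k13),
    (k2,k14),(k3,k14)],[(k1,k12),(k8,k14)],[(k1,k13),(k8,k15)],[(k0,k13),(k5,k13),(k6,k14),(k9,k15),(k2,k17),(k3,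
    k17)],[(k0,k12),(k5,k12),(k6,k15),(k2,k16),(k3,k16),(k9,k16)],[(k4,k14),(k7,k15)]]
    [] k0
    [[k1,k1,k1,k0,k0],[k1,k1,k0,k1,k0],[k0,k1,k1,k0,k1]]
    [.ref k0 k0 [(z1,[z1])],.ref k1 k1 [(z1,[y1,z1])],.ref k1 k0 [(z1,[y1,z1])]]]⟩

/-- classes `0 0 1 0 1`, types `S0 S0 C0 S0 C0` -/
noncomputable def cT5_113 : CertT :=
  ⟨[k0,k0,k20,k0,k20],[(false,k0,[k0,k1,k2,k3,k4]),(true,k2,[k2,k1,k0,k4,k3])],[[[([z1,z1,z1,z0,z0],z2)],[([z1,z0,z0,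
    z0,z1],z1)],[]]],
    [.leafM k1 [k2,k3,k4,k0,k1] [(z1,[y1,z1])] [],
    .leafM k0 [k4,k0,k1,k2,k3] [(z1,[z1])] [],
    .lp [k12,k16,k12,k16,k14] [k2,k2,k0,k0,k2,k2,k0,k0,k1,k1] k0 [[k0,k0,k0,k0,k0,k0,k1,k2],[],[],[k0,k0,k0,k0,k0,k0,k0,
    k1],[],[],[k0,k2,k1],[k0,k1]] k48 k5
    [[(k4,k12),(k8,k13)],[(k0,k12),(k5,k12),(k6,k12),(k9,k12),(k2,k14),(k3,k14)],[(k0,k14),(k5,k14),(k2,k16),(k3,k16),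
    (k6,k17),(k9,k17)],[(k0,k14),(k5,k14),(k2,k16),(k3,k16),(k6,k16),(k9,k16)],[(k0,k12),(k5,k12),(k6,k13),(k9,k13),
    (k2,k14),(k3,k14)],[(k1,k12),(k7,k14)],[(k4,k14),(k8,k15)],[(k0,k12),(k5,k13),(k9,k15),(k2,k16),(k6,k16),(k3,
    k17)],[(k0,k12),(k5,k13),(k9,k14),(k6,k15),(k2,k16),(k3,k17)],[(k1,k13),(k7,k15)]]
    [] k0
    [[k1,k1,k1,k0,k0],[k1,k1,k0,k0,k1],[k0,k1,k1,k1,k0]]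
    [.ref k0 k0 [(z1,[z1])],.ref k1 k1 [(z1,[y1,z1])],.ref k1 k0 [(z1,[y1,z1])]]]⟩

/-- classes `0 0 1 0 1`, types `S0 S0 C0 S0 C2` -/
noncomputable def cT5_114 : CertT :=
  ⟨[k0,k0,k20,k0,k22],[(true,k2,[k2,k1,k0,k4,k3]),(false,k0,[k0,k1,k2,k3,k4])],[[[([z1,z0,z0,z1,z0],z1)],[([z1,z0,z0,
    z0,z1],z1)],[]]],
    [.leafM k2 [k2,k3,k4,k0,k1] [(z1,[z1])] [],
    .leafM k0 [k4,k0,k1,k2,k3] [(z1,[z1])] [],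
    .lp [k6,k8,k6,k6,k6] [k1,k1,k0,k0,k1,k1,k1,k1,k1,k1] k0 [] k24 k5
    [[(k7,k6),(k8,k6)],[(k0,k6),(k5,k6),(k6,k6),(k9,k6),(k2,k7),(k3,k7)],[(k0,k7),(k5,k7),(k6,k7),(k9,k7),(k2,k8),(k3,
    k8)],[(k0,k7),(k5,k7),(k6,k7),(k9,k7),(k2,k8),(k3,k8)],[(k0,k6),(k5,k6),(k6,k6),(k9,k6),(k2,k7),(k3,k7)],[(k7,k6),
    (k8,k6)],[(k1,k6),(k4,k6)],[(k0,k6),(k5,k6),(k6,k6),(k9,k6),(k2,k7),(k3,k7)],[(k0,k6),(k5,k6),(k6,k6),(k9,k6),(k2,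
    k7),(k3,k7)],[(k1,k6),(k4,k6)]]
    [] k0
    [[k1,k1,k0,k1,k0],[k1,k1,k0,k0,k1],[k0,k1,k1,k1,k0],[k0,k1,k1,k0,k1]]
    [.ref k0 k0 [(z1,[y1,z1])],.ref k1 k0 [(z1,[y1,z1])],.ref k1 k1 [(z1,[y1,z1])],.ref k0 k1 [(z1,[y1,z1])]]]⟩

/-- classes `0 0 1 0 1`, types `S0 S0 N0 S0 N1` -/
noncomputable def cT5_115 : CertT :=
  ⟨[k0,k0,k28,k0,k29],[(false,k0,[k0,k1,k2,k3,k4])],[[[([z1,z1,z1,z0,z0],z2)],[]]],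
    [.leafM k1 [k2,k3,k4,k0,k1] [(z1,[y1,z1])] [],
    .lp [k12,k16,k12,k16,k14] [k2,k2,k0,k0,k2,k2,k0,k0,k1,k1] k0 [[k0,k0,k0,k0,k0,k0,k1,k2],[],[],[k0,k0,k0,k0,k0,k0,k0,
    k1],[],[],[k0,k2,k1],[k0,k1]] k48 k5
    [[(k4,k12)],[(k0,k12),(k5,k12),(k6,k12),(k9,k12),(k2,k14),(k3,k14)],[(k0,k14),(k5,k14),(k2,k16),(k3,k16),(k6,k17),
    (k9,k17)],[(k0,k14),(k5,k14),(k2,k16),(k3,k16),(k6,k16),(k9,k16)],[(k0,k12),(k5,k12),(k6,k13),(k9,k13),(k2,k14),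
    (k3,k14)],[(k1,k12)],[(k8,k15)],[(k0,k12),(k5,k13),(k9,k15),(k2,k16),(k6,k16),(k3,k17)],[(k0,k12),(k5,k13),(k9,
    k14),(k6,k15),(k2,k16),(k3,k17)],[(k7,k15)]]
    [] k0
    [[k1,k1,k1,k0,k0]]
    [.ref k0 k0 [(z1,[z1])]]]⟩

/-- classes `0 0 1 0 1`, types `S0 S0 N0 S0 N2` -/
noncomputable def cT5_116 : CertT :=
  ⟨[k0,k0,k28,k0,k30],[(true,k2,[k2,k1,k0,k4,k3]),(false,k0,[k0,k1,k2,k3,k4])],[[[([z1,z0,z0,z1,z0],z1)],[]]],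
    [.leafM k2 [k2,k3,k4,k0,k1] [(z1,[z1])] [],
    .lp [k6,k8,k6,k6,k6] [k1,k1,k0,k0,k1,k1,k1,k1,k1,k1] k0 [] k24 k5
    [[(k7,k6)],[(k0,k6),(k5,k6),(k6,k6),(k9,k6),(k2,k7),(k3,k7)],[(k0,k7),(k5,k7),(k6,k7),(k9,k7),(k2,k8),(k3,k8)],
    [(k0,k7),(k5,k7),(k6,k7),(k9,k7),(k2,k8),(k3,k8)],[(k0,k6),(k5,k6),(k6,k6),(k9,k6),(k2,k7),(k3,k7)],[(k8,k6)],
    [(k1,k6)],[(k0,k6),(k5,k6),(k6,k6),(k9,k6),(k2,k7),(k3,k7)],[(k0,k6),(k5,k6),(k6,k6),(k9,k6),(k2,k7),(k3,k7)],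
    [(k4,k6)]]
    [] k0
    [[k1,k1,k0,k1,k0],[k0,k1,k1,k0,k1]]
    [.ref k0 k0 [(z1,[y1,z1])],.ref k0 k1 [(z1,[y1,z1])]]]⟩

/-- classes `0 0 1 0 2`, types `C0 C0 C0 C0 C0` -/
noncomputable def cT5_117 : CertT :=
  ⟨[k4,k4,k20,k4,k36],[(true,k2,[k2,k1,k0,k4,k3]),(false,k0,[k0,k1,k2,k3,k4])],[[[([z1,z0,z0,z0,z1],z1)],[]]],
    [.leafM k1 [k3,k4,k0,k1,k2] [(z1,[z1])] [],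
    .lp [k4,k4,k2,k4,k2] [k0,k0,k0,k0,k1,k1,k0,k0,k1,k1] k0 [] k12 k5
    [[(k8,k3)],[(k5,k3),(k9,k3),(k3,k4)],[(k0,k4),(k2,k4),(k6,k4)],[(k5,k3),(k9,k3),(k3,k4)],[(k0,k3),(k2,k3),(k6,
    k3)],[(k7,k3)],[(k4,k3)],[(k5,k3),(k9,k3),(k3,k4)],[(k0,k3),(k2,k3),(k6,k3)],[(k1,k3)]]
    [] k0
    [[k1,k1,k0,k0,k1],[k0,k1,k1,k1,k0]]
    [.ref k0 k0 [(z1,[y1,z1])],.ref k0 k1 [(z1,[y1,z1])]]]⟩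

/-- classes `0 0 1 0 2`, types `C0 C0 C0 C0 S0` -/
noncomputable def cT5_118 : CertT :=
  ⟨[k4,k4,k20,k4,k32],[(false,k0,[k0,k1,k2,k3,k4])],[[[([z1,z1,z0,z0,z1],z2)],[([z1,z0,z0,z0,z1],z1)],[]]],
    [.leafM k1 [k1,k2,k3,k4,k0] [(z1,[y1,z1])] [],
    .leafM k1 [k3,k4,k0,k1,k2] [(z1,[z1])] [],
    .lp [k6,k8,k6,k6,k6] [k1,k1,k0,k0,k1,k1,k1,k1,k1,k1] k0 [] k24 k5
    [[(k1,k6),(k8,k6)],[(k5,k6),(k9,k6),(k3,k7)],[(k0,k7),(k6,k7),(k2,k8)],[(k5,k7),(k9,k7),(k3,k8)],[(k0,k6),(k6,k6),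
    (k2,k7)],[(k7,k6)],[(k4,k6)],[(k5,k6),(k9,k6),(k3,k7)],[(k0,k6),(k6,k6),(k2,k7)],[(k1,k6),(k8,k6)]]
    [] k0
    [[k1,k1,k0,k0,k1],[k0,k1,k1,k1,k0]]
    [.ref k0 k0 [(z1,[z1])],.ref k1 k0 [(z1,[y1,z1])]]]⟩

/-- classes `0 0 1 0 2`, types `C0 C0 C0 C2 C0` -/
noncomputable def cT5_119 : CertT :=
  ⟨[k4,k4,k20,k6,k36],[],[[[]]],
    [.lp [k6,k8,k6,k6,k6] [k1,k1,k0,k0,k1,k1,k1,k1,k1,k1] k0 [] k24 k5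
    [[(k8,k6)],[(k5,k6),(k6,k6),(k3,k7)],[(k0,k7),(k9,k7),(k2,k8)],[(k5,k7),(k6,k7),(k3,k8)],[(k0,k6),(k9,k6),(k2,
    k7)],[(k7,k6)],[(k4,k6)],[(k0,k6),(k9,k6),(k2,k7)],[(k5,k6),(k6,k6),(k3,k7)],[(k1,k6)]]
    [] k0
    []
    []]⟩

/-- classes `0 0 1 0 2`, types `C0 C0 C0 C2 S0` -/
noncomputable def cT5_120 : CertT :=
  ⟨[k4,k4,k20,k6,k32],[],[[[]]],
    [.lp [k6,k8,k6,k6,k6] [k1,k1,k0,k0,k1,k1,k1,k1,k1,k1] k0 [] k24 k5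
    [[(k1,k6),(k8,k6)],[(k5,k6),(k6,k6),(k3,k7)],[(k0,k7),(k9,k7),(k2,k8)],[(k5,k7),(k6,k7),(k3,k8)],[(k0,k6),(k9,k6),
    (k2,k7)],[(k7,k6)],[(k4,k6)],[(k0,k6),(k9,k6),(k2,k7)],[(k5,k6),(k6,k6),(k3,k7)],[(k1,k6),(k8,k6)]]
    [] k0
    []
    []]⟩

/-- classes `0 0 1 0 2`, types `C0 C0 S0 C0 S0` -/
noncomputable def cT5_121 : CertT :=
  ⟨[k4,k4,k16,k4,k32],[(true,k2,[k2,k1,k0,k4,k3]),(false,k0,[k0,k1,k2,k3,k4])],[[[([z1,z0,z0,z0,z1],z1)],[]]],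
    [.leafM k1 [k3,k4,k0,k1,k2] [(z1,[z1])] [],
    .lp [k6,k8,k6,k6,k6] [k1,k1,k0,k0,k1,k1,k1,k1,k1,k1] k0 [] k24 k5
    [[(k1,k6),(k8,k6)],[(k5,k6),(k9,k6),(k3,k7)],[(k0,k7),(k6,k7),(k2,k8)],[(k5,k7),(k9,k7),(k3,k8)],[(k0,k6),(k6,k6),
    (k2,k7)],[(k4,k6),(k7,k6)],[(k4,k6),(k7,k6)],[(k5,k6),(k9,k6),(k3,k7)],[(k0,k6),(k6,k6),(k2,k7)],[(k1,k6),(k8,
    k6)]]
    [] k0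
    [[k1,k1,k0,k0,k1],[k0,k1,k1,k1,k0]]
    [.ref k0 k0 [(z1,[y1,z1])],.ref k0 k1 [(z1,[y1,z1])]]]⟩

/-- classes `0 0 1 0 2`, types `C0 C0 S0 C2 S0` -/
noncomputable def cT5_122 : CertT :=
  ⟨[k4,k4,k16,k6,k32],[],[[[]]],
    [.lp [k6,k8,k6,k6,k6] [k1,k1,k0,k0,k1,k1,k1,k1,k1,k1] k0 [] k24 k5
    [[(k1,k6),(k8,k6)],[(k5,k6),(k6,k6),(k3,k7)],[(k0,k7),(k9,k7),(k2,k8)],[(k5,k7),(k6,k7),(k3,k8)],[(k0,k6),(k9,k6),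
    (k2,k7)],[(k4,k6),(k7,k6)],[(k4,k6),(k7,k6)],[(k0,k6),(k9,k6),(k2,k7)],[(k5,k6),(k6,k6),(k3,k7)],[(k1,k6),(k8,
    k6)]]
    [] k0
    []
    []]⟩

/-- classes `0 0 1 0 2`, types `C0 C2 C0 C0 C0` -/
noncomputable def cT5_123 : CertT :=
  ⟨[k4,k6,k20,k4,k36],[(false,k0,[k0,k1,k2,k3,k4])],[[[([z1,z0,z0,z0,z1],z1)],[]]],
    [.leafM k1 [k3,k4,k0,k1,k2] [(z1,[z1])] [],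
    .lp [k2,k2,k2,k2,k2] [k0,k0,k0,k0,k0,k0,k0,k0,k0,k0] k0 [] k8 k5
    [[(k8,k2)],[(k2,k2),(k3,k2),(k9,k2)],[(k0,k2),(k5,k2),(k6,k2)],[(k0,k2),(k5,k2),(k6,k2)],[(k2,k2),(k3,k2),(k9,
    k2)],[(k7,k2)],[(k4,k2)],[(k2,k2),(k3,k2),(k9,k2)],[(k0,k2),(k5,k2),(k6,k2)],[(k1,k2)]]
    [] k0
    [[k0,k1,k1,k1,k0]]
    [.ref k0 k0 [(z1,[y1,z1])]]]⟩

/-- classes `0 0 1 0 2`, types `C0 C2 C0 C0 S0` -/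
noncomputable def cT5_124 : CertT :=
  ⟨[k4,k6,k20,k4,k32],[(false,k0,[k0,k1,k2,k3,k4])],[[[([z1,z0,z0,z0,z1],z1)],[]]],
    [.leafM k1 [k3,k4,k0,k1,k2] [(z1,[z1])] [],
    .lp [k6,k4,k4,k4,k4] [k0,k0,k1,k1,k1,k1,k1,k1,k1,k1] k0 [] k16 k5
    [[(k8,k5),(k1,k6)],[(k2,k5),(k3,k5),(k9,k5)],[(k5,k4),(k6,k4),(k0,k5)],[(k5,k4),(k6,k4),(k0,k5)],[(k2,k4),(k3,k4),
    (k9,k4)],[(k7,k4)],[(k4,k4)],[(k2,k4),(k3,k4),(k9,k4)],[(k5,k4),(k6,k4),(k0,k5)],[(k8,k4),(k1,k5)]]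
    [] k0
    [[k0,k1,k1,k1,k0]]
    [.ref k0 k0 [(z1,[y1,z1])]]]⟩

/-- classes `0 0 1 0 2`, types `C0 C2 C0 C2 S0` -/
noncomputable def cT5_125 : CertT :=
  ⟨[k4,k6,k20,k6,k32],[(false,k0,[k0,k1,k2,k3,k4])],[[[([z1,z1,z0,z0,z1],z2)],[]]],
    [.leafM k1 [k1,k2,k3,k4,k0] [(z1,[y1,z1])] [],
    .lp [k14,k20,k4,k20,k12] [k3,k3,k0,k0,k8,k8,k0,k0,k4,k4] k0 [[k0,k0,k0,k0,k0,k0,k0,k4],[],[],[],[],[],[k0,k4]] k48 k5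
    [[(k8,k13),(k1,k14)],[(k6,k13),(k2,k17),(k3,k17)],[(k5,k12),(k0,k17),(k9,k20)],[(k5,k12),(k9,k16),(k0,k17)],[(k2,
    k12),(k3,k12),(k6,k12)],[(k7,k12)],[(k4,k12)],[(k5,k12),(k0,k13),(k9,k16)],[(k2,k16),(k6,k16),(k3,k20)],[(k8,k12),
    (k1,k13)]]
    [] k0
    [[k1,k1,k0,k0,k1]]
    [.ref k0 k0 [(z1,[z1])]]]⟩

/-- classes `0 0 1 0 2`, types `C0 C2 S0 C0 S0` -/
noncomputable def cT5_126 : CertT :=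
  ⟨[k4,k6,k16,k4,k32],[(false,k0,[k0,k1,k2,k3,k4])],[[[([z1,z0,z0,z0,z1],z1)],[([z1,z1,z1,z0,z0],z2)],[]]],
    [.leafM k1 [k3,k4,k0,k1,k2] [(z1,[z1])] [],
    .leafM k0 [k3,k4,k0,k1,k2] [(z1,[y1,z1])] [],
    .lp [k36,k48,k36,k34,k24] [k6,k6,k0,k0,k6,k6,k7,k7,k12,k12] k0 [[k0,k0,k0,k0,k0,k0,k6],[],[k0,k0,k0,k0,k0,k0,k0,k2],
    [],[],[],[k0,k0,k0,k2],[k0,k6]] k120 k6
    [[(k8,k30),(k1,k36)],[(k9,k24),(k2,k42),(k3,k42)],[(k0,k42),(k5,k42),(k6,k47)],[(k6,k39),(k0,k42),(k5,k42)],[(k9,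
    k32),(k2,k42),(k3,k42)],[(k7,k35),(k4,k36)],[(k7,k34),(k4,k35)],[(k9,k29),(k2,k39),(k3,k47)],[(k0,k24),(k6,k29),
    (k5,k32)],[(k8,k24),(k1,k30)]]
    [] k0
    [[k2,k0,k0,k0,k2],[k0,k1,k1,k1,k0],[k0,k0,k0,k2,k2]]
    [.ref k0 k0 [(z2,[z1])],.ref k0 k0 [(z1,[y1,z1])],.ref k1 k0 [(z2,[y1,z2])]]]⟩

/-- classes `0 0 1 0 2`, types `S0 S0 C0 S0 C0` -/
noncomputable def cT5_127 : CertT :=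
  ⟨[k0,k0,k20,k0,k36],[(true,k2,[k2,k1,k0,k4,k3]),(false,k0,[k0,k1,k2,k3,k4])],[[[([z1,z0,z0,z0,z1],z1)],[]]],
    [.leafM k0 [k4,k0,k1,k2,k3] [(z1,[z1])] [],
    .lp [k6,k8,k6,k6,k6] [k1,k1,k0,k0,k1,k1,k1,k1,k1,k1] k0 [] k24 k5
    [[(k8,k6)],[(k0,k6),(k5,k6),(k6,k6),(k9,k6),(k2,k7),(k3,k7)],[(k0,k7),(k5,k7),(k6,k7),(k9,k7),(k2,k8),(k3,k8)],
    [(k0,k7),(k5,k7),(k6,k7),(k9,k7),(k2,k8),(k3,k8)],[(k0,k6),(k5,k6),(k6,k6),(k9,k6),(k2,k7),(k3,k7)],[(k7,k6)],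
    [(k4,k6)],[(k0,k6),(k5,k6),(k6,k6),(k9,k6),(k2,k7),(k3,k7)],[(k0,k6),(k5,k6),(k6,k6),(k9,k6),(k2,k7),(k3,k7)],
    [(k1,k6)]]
    [] k0
    [[k1,k1,k0,k0,k1],[k0,k1,k1,k1,k0]]
    [.ref k0 k0 [(z1,[y1,z1])],.ref k0 k1 [(z1,[y1,z1])]]]⟩

/-- classes `0 0 1 0 2`, types `S0 S0 C0 S0 S0` -/
noncomputable def cT5_128 : CertT :=
  ⟨[k0,k0,k20,k0,k32],[(false,k0,[k0,k1,k2,k3,k4])],[[[([z1,z1,z0,z0,z1],z2)],[([z1,z0,z0,z0,z1],z1)],[]]],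
    [.leafM k0 [k2,k3,k4,k0,k1] [(z1,[y1,z1])] [],
    .leafM k0 [k4,k0,k1,k2,k3] [(z1,[z1])] [],
    .lp [k12,k20,k12,k12,k14] [k4,k4,k0,k0,k4,k4,k4,k4,k3,k3] k0 [[],[k0,k0,k4],[],[k4]] k48 k5
    [[(k1,k12),(k8,k13)],[(k0,k12),(k5,k12),(k6,k12),(k9,k13),(k3,k16),(k2,k20)],[(k5,k12),(k0,k16),(k6,k16),(k9,k17),
    (k2,k20),(k3,k20)],[(k5,k16),(k6,k16),(k9,k17),(k0,k20),(k2,k20),(k3,k20)],[(k0,k12),(k3,k12),(k5,k12),(k6,k12),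
    (k9,k13),(k2,k16)],[(k7,k12)],[(k4,k12)],[(k0,k12),(k5,k12),(k6,k12),(k9,k13),(k2,k16),(k3,k16)],[(k0,k13),(k5,
    k13),(k6,k13),(k9,k14),(k2,k17),(k3,k17)],[(k1,k13),(k8,k14)]]
    [] k0
    [[k1,k1,k0,k0,k1],[k0,k1,k1,k1,k0]]
    [.ref k0 k0 [(z1,[z1])],.ref k1 k0 [(z1,[y1,z1])]]]⟩

/-- classes `0 0 1 1 2`, types `B0 B1 B0 B1 C0` -/
noncomputable def cT5_129 : CertT :=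
  ⟨[k8,k9,k24,k25,k36],[(true,k4,[k4,k3,k2,k1,k0]),(false,k0,[k0,k1,k2,k3,k4])],[[[([z1,z0,z1,z0,z1],z2),([z0,z3,z0,
    z0,z0],z1)],[([z1,z0,z1,z0,z1],z2),([z0,z2,z0,z0,z0],z1)],[([z1,z0,z1,z0,z1],z2)],[]]],
    [.leafM k6 [k0,k1,k2,k3,k4] [(z1,[z0,z1]),(z1,[y3,y1,z3])] [],
    .leafM k5 [k0,k1,k2,k3,k4] [(z1,[z0,z1]),(z1,[y2,y1,z2])] [],
    .lp [k8,k8,k8,k10,k24] [k8,k8,k8,k8,k8,k8,k7,k7,k0,k0] k0 [] k40 k6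
    [[(k8,k16)],[(k2,k8),(k5,k8)],[(k2,k8),(k5,k8)],[(k0,k8),(k3,k8)],[(k0,k8),(k3,k8)],[(k6,k9),(k9,k16)],[(k6,k10),
    (k9,k17)],[(k4,k9),(k7,k10)],[(k4,k16),(k7,k17)],[(k1,k16)]]
    [] k0
    [[k0,k3,k0,k0,k0],[k0,k4,k0,k0,k0],[k0,k0,k0,k3,k0]]
    [.ref k0 k0 [(z1,[z0,z1]),(z1,[y1,y3,z3])],.ref k1 k1 [(z1,[z0,z1]),(z2,[z1])],.ref k0 k1 [(z1,[z0,z1]),(z1,[y1,
    y3,z3])]],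
    .lp [k6,k8,k6,k8,k6] [k1,k1,k0,k0,k1,k1,k0,k0,k1,k1] k0 [] k24 k5
    [[(k8,k6)],[(k5,k6),(k2,k7)],[(k5,k7),(k2,k8)],[(k0,k7),(k3,k8)],[(k0,k6),(k3,k7)],[(k9,k6),(k6,k7)],[(k9,k7),(k6,
    k8)],[(k4,k7),(k7,k8)],[(k4,k6),(k7,k7)],[(k1,k6)]]
    [] k0
    [[k1,k0,k1,k0,k1]]
    [.ref k2 k1 [(z1,[z1])]]]⟩

/-- classes `0 0 1 1 2`, types `B0 B1 B0 B1 S0` -/
noncomputable def cT5_130 : CertT :=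
  ⟨[k8,k9,k24,k25,k32],[(true,k4,[k4,k3,k2,k1,k0]),(false,k0,[k0,k1,k2,k3,k4])],[[[([z1,z0,z1,z0,z1],z2),([z0,z3,z0,
    z0,z0],z1)],[([z1,z0,z1,z0,z1],z2),([z0,z2,z0,z0,z0],z1)],[([z1,z0,z1,z0,z1],z2)],[]]],
    [.leafM k6 [k0,k1,k2,k3,k4] [(z1,[z0,z1]),(z1,[y3,y1,z3])] [],
    .leafM k5 [k0,k1,k2,k3,k4] [(z1,[z0,z1]),(z1,[y2,y1,z2])] [],
    .lp [k24,k10,k8,k8,k8] [k0,k0,k7,k7,k8,k8,k8,k8,k8,k8] k0 [] k40 k6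
    [[(k8,k16),(k1,k24)],[(k5,k16),(k2,k17)],[(k5,k9),(k2,k10)],[(k3,k10),(k0,k17)],[(k3,k9),(k0,k16)],[(k6,k8),(k9,
    k8)],[(k6,k8),(k9,k8)],[(k4,k8),(k7,k8)],[(k4,k8),(k7,k8)],[(k8,k8),(k1,k16)]]
    [] k0
    [[k0,k3,k0,k0,k0],[k0,k0,k0,k3,k0],[k0,k0,k0,k4,k0]]
    [.ref k0 k0 [(z1,[z0,z1]),(z1,[y1,y3,z3])],.ref k0 k1 [(z1,[z0,z1]),(z1,[y1,y3,z3])],.ref k1 k1 [(z1,[z0,z1]),(z2,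
    [y1,y4,z4])]],
    .lp [k6,k8,k6,k8,k6] [k1,k1,k0,k0,k1,k1,k0,k0,k1,k1] k0 [] k24 k5
    [[(k1,k6),(k8,k6)],[(k5,k6),(k2,k7)],[(k5,k7),(k2,k8)],[(k0,k7),(k3,k8)],[(k0,k6),(k3,k7)],[(k9,k6),(k6,k7)],[(k9,
    k7),(k6,k8)],[(k4,k7),(k7,k8)],[(k4,k6),(k7,k7)],[(k1,k6),(k8,k6)]]
    [] k0
    [[k1,k0,k1,k0,k1]]
    [.ref k2 k1 [(z1,[z1])]]]⟩

/-- classes `0 0 1 1 2`, types `B0 B1 C0 C0 C0` -/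
noncomputable def cT5_131 : CertT :=
  ⟨[k8,k9,k20,k20,k36],[(false,k0,[k0,k1,k2,k3,k4])],[[[([z1,z0,z1,z0,z1],z2),([z0,z3,z0,z0,z0],z2)],[([z1,z0,z1,z0,
    z1],z2),([z0,z3,z0,z0,z0],z1)],[([z1,z0,z1,z0,z1],z2),([z0,z2,z0,z0,z0],z1)],[([z1,z0,z1,z0,z1],z2)],[]]],
    [.leafM k4 [k0,k1,k2,k3,k4] [(z1,[z0,z1]),(z1,[y3,y1,z3])] [],
    .leafM k6 [k0,k1,k2,k3,k4] [(z1,[z0,z1]),(z1,[y3,y1,z3])] [],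
    .leafM k5 [k0,k1,k2,k3,k4] [(z1,[z0,z1]),(z1,[y2,y1,z2])] [],
    .lp [k24,k10,k8,k8,k8] [k0,k0,k7,k7,k8,k8,k8,k8,k8,k8] k0 [] k40 k6
    [[(k8,k16)],[(k5,k16),(k2,k17)],[(k5,k9),(k2,k10)],[(k3,k10),(k0,k17)],[(k3,k9),(k0,k16)],[(k7,k8),(k9,k8)],[(k4,
    k8),(k6,k8)],[(k7,k8),(k9,k8)],[(k4,k8),(k6,k8)],[(k1,k16)]]
    [] k0
    [[k0,k3,k0,k0,k0],[k0,k0,k0,k3,k0],[k0,k0,k0,k4,k0]]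
    [.ref k0 k0 [(z1,[z0,z1]),(z1,[z1])],.ref k1 k0 [(z1,[z0,z1]),(z1,[y1,y3,z3])],.ref k2 k0 [(z1,[z0,z1]),(z2,[y1,
    y4,z4])]],
    .lp [k6,k8,k6,k8,k6] [k1,k1,k0,k0,k1,k1,k0,k0,k1,k1] k0 [] k24 k5
    [[(k8,k6)],[(k5,k6),(k2,k7)],[(k5,k7),(k2,k8)],[(k0,k7),(k3,k8)],[(k0,k6),(k3,k7)],[(k9,k6),(k7,k7)],[(k4,k7),(k6,
    k8)],[(k9,k7),(k7,k8)],[(k4,k6),(k6,k7)],[(k1,k6)]]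
    [] k0
    [[k1,k0,k1,k0,k1]]
    [.ref k3 k0 [(z1,[z1])]]]⟩

/-- classes `0 0 1 1 2`, types `B0 B1 C0 C0 S0` -/
noncomputable def cT5_132 : CertT :=
  ⟨[k8,k9,k20,k20,k32],[(false,k0,[k0,k1,k2,k3,k4])],[[[([z1,z0,z1,z0,z1],z2),([z0,z3,z0,z0,z0],z2)],[([z1,z0,z1,z0,
    z1],z2),([z0,z2,z0,z0,z0],z1)],[([z1,z0,z1,z0,z1],z2),([z0,z3,z0,z0,z0],z1)],[([z1,z0,z1,z0,z1],z2)],[]]],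
    [.leafM k4 [k0,k1,k2,k3,k4] [(z1,[z0,z1]),(z1,[y3,y1,z3])] [],
    .leafM k5 [k0,k1,k2,k3,k4] [(z1,[z0,z1]),(z1,[y2,y1,z2])] [],
    .leafM k6 [k0,k1,k2,k3,k4] [(z1,[z0,z1]),(z1,[y3,y1,z3])] [],
    .lp [k8,k8,k8,k10,k24] [k8,k8,k8,k8,k8,k8,k7,k7,k0,k0] k0 [] k40 k6
    [[(k1,k8),(k8,k16)],[(k2,k8),(k5,k8)],[(k2,k8),(k5,k8)],[(k0,k8),(k3,k8)],[(k0,k8),(k3,k8)],[(k7,k9),(k9,k16)],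
    [(k4,k9),(k6,k10)],[(k7,k10),(k9,k17)],[(k4,k16),(k6,k17)],[(k1,k16),(k8,k24)]]
    [] k0
    [[k0,k3,k0,k0,k0],[k0,k4,k0,k0,k0],[k0,k0,k0,k3,k0]]
    [.ref k0 k0 [(z1,[z0,z1]),(z1,[z1])],.ref k1 k0 [(z1,[z0,z1]),(z2,[z1])],.ref k2 k0 [(z1,[z0,z1]),(z1,[y1,y3,
    z3])]],
    .lp [k6,k8,k6,k8,k6] [k1,k1,k0,k0,k1,k1,k0,k0,k1,k1] k0 [] k24 k5
    [[(k1,k6),(k8,k6)],[(k5,k6),(k2,k7)],[(k5,k7),(k2,k8)],[(k0,k7),(k3,k8)],[(k0,k6),(k3,k7)],[(k9,k6),(k7,k7)],[(k4,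
    k7),(k6,k8)],[(k9,k7),(k7,k8)],[(k4,k6),(k6,k7)],[(k1,k6),(k8,k6)]]
    [] k0
    [[k1,k0,k1,k0,k1]]
    [.ref k3 k0 [(z1,[z1])]]]⟩

/-- classes `0 0 1 1 2`, types `B0 B1 C0 C2 C0` -/
noncomputable def cT5_133 : CertT :=
  ⟨[k8,k9,k20,k22,k36],[],[[[]]],
    [.lp [k4,k4,k2,k4,k2] [k0,k0,k0,k0,k1,k1,k0,k0,k1,k1] k0 [] k12 k5
    [[(k8,k3)],[(k5,k3),(k2,k4)],[(k5,k3),(k2,k4)],[(k0,k4),(k3,k4)],[(k0,k3),(k3,k3)],[(k6,k3),(k7,k3)],[(k4,k3),(k9,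
    k3)],[(k4,k3),(k9,k3)],[(k6,k3),(k7,k3)],[(k1,k3)]]
    [] k0
    []
    []]⟩

/-- classes `0 0 1 1 2`, types `B0 B1 C0 C2 S0` -/
noncomputable def cT5_134 : CertT :=
  ⟨[k8,k9,k20,k22,k32],[],[[[]]],
    [.lp [k12,k16,k12,k12,k18] [k3,k3,k1,k1,k3,k3,k3,k3,k0,k0] k0 [] k48 k5
    [[(k1,k12),(k8,k15)],[(k5,k12),(k2,k14)],[(k5,k14),(k2,k16)],[(k0,k14),(k3,k16)],[(k0,k12),(k3,k14)],[(k6,k12),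
    (k7,k12)],[(k4,k12),(k9,k15)],[(k4,k12),(k9,k15)],[(k6,k15),(k7,k15)],[(k1,k15),(k8,k18)]]
    [] k0
    []
    []]⟩

/-- classes `0 0 1 1 2`, types `B0 B1 N0 N1 C0` -/
noncomputable def cT5_135 : CertT :=
  ⟨[k8,k9,k28,k29,k36],[(false,k0,[k0,k1,k2,k3,k4])],[[[([z1,z0,z1,z0,z1],z2),([z0,z3,z0,z0,z0],z2)],[([z1,z0,z1,z0,
    z1],z2),([z0,z3,z0,z0,z0],z1)],[([z1,z0,z1,z0,z1],z2),([z0,z2,z0,z0,z0],z1)],[([z1,z0,z1,z0,z1],z2)],[]]],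
    [.leafM k4 [k0,k1,k2,k3,k4] [(z1,[z0,z1]),(z1,[y3,y1,z3])] [],
    .leafM k6 [k0,k1,k2,k3,k4] [(z1,[z0,z1]),(z1,[y3,y1,z3])] [],
    .leafM k5 [k0,k1,k2,k3,k4] [(z1,[z0,z1]),(z1,[y2,y1,z2])] [],
    .lp [k24,k10,k16,k8,k0] [k0,k0,k7,k7,k4,k4,k8,k8,k12,k12] k0 [] k40 k6
    [[(k8,k12)],[(k2,k17),(k5,k20)],[(k2,k10),(k5,k13)],[(k3,k10),(k0,k17)],[(k3,k13),(k0,k20)],[(k9,k8)],[(k6,k8)],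
    [(k7,k8)],[(k4,k8)],[(k1,k12)]]
    [] k0
    [[k0,k3,k0,k0,k0],[k0,k0,k0,k3,k0],[k0,k0,k0,k4,k0]]
    [.ref k0 k0 [(z1,[z0,z1]),(z1,[z1])],.ref k1 k0 [(z1,[z0,z1]),(z1,[y1,y3,z3])],.ref k2 k0 [(z1,[z0,z1]),(z2,[y1,
    y4,z4])]],
    .lp [k6,k8,k6,k8,k6] [k1,k1,k0,k0,k1,k1,k0,k0,k1,k1] k0 [] k24 k5
    [[(k8,k6)],[(k5,k6),(k2,k7)],[(k5,k7),(k2,k8)],[(k0,k7),(k3,k8)],[(k0,k6),(k3,k7)],[(k9,k6)],[(k6,k8)],[(k7,k8)],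
    [(k4,k6)],[(k1,k6)]]
    [] k0
    [[k1,k0,k1,k0,k1]]
    [.ref k3 k0 [(z1,[z1])]]]⟩

/-- classes `0 0 1 1 2`, types `B0 B1 N0 N1 S0` -/
noncomputable def cT5_136 : CertT :=
  ⟨[k8,k9,k28,k29,k32],[(false,k0,[k0,k1,k2,k3,k4])],[[[([z1,z0,z1,z0,z1],z2),([z0,z3,z0,z0,z0],z2)],[([z1,z0,z1,z0,
    z1],z2),([z0,z2,z0,z0,z0],z1)],[([z1,z0,z1,z0,z1],z2),([z0,z3,z0,z0,z0],z1)],[([z1,z0,z1,z0,z1],z2)],[]]],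
    [.leafM k4 [k0,k1,k2,k3,k4] [(z1,[z0,z1]),(z1,[y3,y1,z3])] [],
    .leafM k5 [k0,k1,k2,k3,k4] [(z1,[z0,z1]),(z1,[y2,y1,z2])] [],
    .leafM k6 [k0,k1,k2,k3,k4] [(z1,[z0,z1]),(z1,[y3,y1,z3])] [],
    .lp [k8,k8,k8,k10,k24] [k8,k8,k8,k8,k8,k8,k7,k7,k0,k0] k0 [] k40 k6
    [[(k1,k8),(k8,k16)],[(k2,k8),(k5,k8)],[(k2,k8),(k5,k8)],[(k0,k8),(k3,k8)],[(k0,k8),(k3,k8)],[(k9,k16)],[(k6,k10)],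
    [(k7,k10)],[(k4,k16)],[(k1,k16),(k8,k24)]]
    [] k0
    [[k0,k3,k0,k0,k0],[k0,k4,k0,k0,k0],[k0,k0,k0,k3,k0]]
    [.ref k0 k0 [(z1,[z0,z1]),(z1,[z1])],.ref k1 k0 [(z1,[z0,z1]),(z2,[z1])],.ref k2 k0 [(z1,[z0,z1]),(z1,[y1,y3,
    z3])]],
    .lp [k6,k8,k6,k8,k6] [k1,k1,k0,k0,k1,k1,k0,k0,k1,k1] k0 [] k24 k5
    [[(k1,k6),(k8,k6)],[(k5,k6),(k2,k7)],[(k5,k7),(k2,k8)],[(k0,k7),(k3,k8)],[(k0,k6),(k3,k7)],[(k9,k6)],[(k6,k8)],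
    [(k7,k8)],[(k4,k6)],[(k1,k6),(k8,k6)]]
    [] k0
    [[k1,k0,k1,k0,k1]]
    [.ref k3 k0 [(z1,[z1])]]]⟩

/-- classes `0 0 1 1 2`, types `B0 B1 N0 N2 C0` -/
noncomputable def cT5_137 : CertT :=
  ⟨[k8,k9,k28,k30,k36],[],[[[]]],
    [.lp [k4,k4,k2,k4,k2] [k0,k0,k0,k0,k1,k1,k0,k0,k1,k1] k0 [] k12 k5
    [[(k8,k3)],[(k5,k3),(k2,k4)],[(k5,k3),(k2,k4)],[(k0,k4),(k3,k4)],[(k0,k3),(k3,k3)],[(k6,k3)],[(k9,k3)],[(k4,k3)],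
    [(k7,k3)],[(k1,k3)]]
    [] k0
    []
    []]⟩

/-- classes `0 0 1 1 2`, types `B0 B1 N0 N2 S0` -/
noncomputable def cT5_138 : CertT :=
  ⟨[k8,k9,k28,k30,k32],[],[[[]]],
    [.lp [k6,k8,k6,k6,k6] [k1,k1,k0,k0,k1,k1,k1,k1,k1,k1] k0 [] k24 k5
    [[(k1,k6),(k8,k6)],[(k5,k6),(k2,k7)],[(k5,k7),(k2,k8)],[(k0,k7),(k3,k8)],[(k0,k6),(k3,k7)],[(k6,k6)],[(k9,k6)],
    [(k4,k6)],[(k7,k6)],[(k1,k6),(k8,k6)]]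
    [] k0
    []
    []]⟩

/-- classes `0 0 1 1 2`, types `B0 B1 S0 S0 C0` -/
noncomputable def cT5_139 : CertT :=
  ⟨[k8,k9,k16,k16,k36],[(false,k0,[k0,k1,k2,k3,k4])],[[[([z1,z0,z1,z0,z1],z2),([z0,z3,z0,z0,z0],z2)],[([z1,z0,z1,z0,
    z1],z2),([z0,z2,z0,z0,z0],z1)],[([z1,z0,z1,z0,z1],z2),([z0,z3,z0,z0,z0],z1)],[([z1,z0,z1,z0,z1],z2)],[]]],
    [.leafM k4 [k0,k1,k2,k3,k4] [(z1,[z0,z1]),(z1,[y3,y1,z3])] [],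
    .leafM k5 [k0,k1,k2,k3,k4] [(z1,[z0,z1]),(z1,[y2,y1,z2])] [],
    .leafM k6 [k0,k1,k2,k3,k4] [(z1,[z0,z1]),(z1,[y3,y1,z3])] [],
    .lp [k8,k8,k24,k10,k8] [k8,k8,k8,k8,k0,k0,k7,k7,k8,k8] k0 [] k40 k6
    [[(k8,k8)],[(k2,k8),(k5,k16)],[(k2,k8),(k5,k16)],[(k0,k8),(k3,k8)],[(k0,k16),(k3,k16)],[(k9,k16),(k6,k17),(k7,
    k17),(k4,k24)],[(k9,k9),(k6,k10),(k7,k10),(k4,k17)],[(k9,k9),(k6,k10),(k7,k10),(k4,k17)],[(k9,k8),(k6,k9),(k7,k9),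
    (k4,k16)],[(k1,k8)]]
    [] k0
    [[k0,k3,k0,k0,k0],[k0,k4,k0,k0,k0],[k0,k0,k0,k3,k0]]
    [.ref k0 k0 [(z1,[z0,z1]),(z1,[z1])],.ref k1 k0 [(z1,[z0,z1]),(z2,[z1])],.ref k2 k0 [(z1,[z0,z1]),(z1,[y1,y3,
    z3])]],
    .lp [k6,k8,k6,k8,k6] [k1,k1,k0,k0,k1,k1,k0,k0,k1,k1] k0 [] k24 k5
    [[(k8,k6)],[(k5,k6),(k2,k7)],[(k5,k7),(k2,k8)],[(k0,k7),(k3,k8)],[(k0,k6),(k3,k7)],[(k4,k6),(k9,k6),(k6,k7),(k7,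
    k7)],[(k4,k7),(k9,k7),(k6,k8),(k7,k8)],[(k4,k7),(k9,k7),(k6,k8),(k7,k8)],[(k4,k6),(k9,k6),(k6,k7),(k7,k7)],[(k1,
    k6)]]
    [] k0
    [[k1,k0,k1,k0,k1]]
    [.ref k3 k0 [(z1,[z1])]]]⟩

/-- classes `0 0 1 1 2`, types `B0 B1 S0 S0 S0` -/
noncomputable def cT5_140 : CertT :=
  ⟨[k8,k9,k16,k16,k32],[(false,k0,[k0,k1,k2,k3,k4])],[[[([z1,z0,z1,z0,z1],z2),([z0,z3,z0,z0,z0],z2)],[([z1,z0,z1,z0,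
    z1],z2),([z0,z2,z0,z0,z0],z1)],[([z1,z0,z1,z0,z1],z2),([z0,z3,z0,z0,z0],z1)],[([z1,z0,z1,z0,z1],z2)],[]]],
    [.leafM k4 [k0,k1,k2,k3,k4] [(z1,[z0,z1]),(z1,[y3,y1,z3])] [],
    .leafM k5 [k0,k1,k2,k3,k4] [(z1,[z0,z1]),(z1,[y2,y1,z2])] [],
    .leafM k6 [k0,k1,k2,k3,k4] [(z1,[z0,z1]),(z1,[y3,y1,z3])] [],
    .lp [k112,k112,(nat_lit 240),k140,(nat_lit 210)] [k64,k64,k64,k64,k0,k0,k50,k50,k15,k15] k0 [] (nat_lit 560) k6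
    [[(k1,k112),(k8,k161)],[(k2,k112),(k5,k176)],[(k2,k112),(k5,k176)],[(k0,k112),(k3,k112)],[(k0,k176),(k3,k176)],
    [(k6,k190),(k7,k190),(k9,(nat_lit 225)),(k4,(nat_lit 240))],[(k6,k140),(k7,k140),(k9,k175),(k4,k190)],[(k6,k140),
    (k7,k140),(k9,k175),(k4,k190)],[(k6,k175),(k7,k175),(k9,(nat_lit 210)),(k4,(nat_lit 225))],[(k1,k161),(k8,
    (nat_lit 210))]]
    [] k0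
    [[k0,k3,k0,k0,k0],[k0,k4,k0,k0,k0],[k0,k0,k0,k3,k0]]
    [.ref k0 k0 [(z1,[z0,z1]),(z1,[z1])],.ref k1 k0 [(z1,[z0,z1]),(z2,[z1])],.ref k2 k0 [(z1,[z0,z1]),(z1,[y1,y3,
    z3])]],
    .lp [k114,k152,k114,k152,k144] [k19,k19,k0,k0,k19,k19,k0,k0,k4,k4] k0 [[],[],[],[],[k0,k0,k0,k0,k0,k0,k0,k19],[],[k0,
    k0,k0,k0,k0,k19]] (nat_lit 456) k5
    [[(k1,k114),(k8,k129)],[(k5,k114),(k2,k133)],[(k5,k133),(k2,k152)],[(k0,k133),(k3,k152)],[(k0,k114),(k3,k133)],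
    [(k4,k114),(k6,k114),(k9,k129),(k7,k133)],[(k4,k133),(k6,k152),(k7,k152),(k9,k167)],[(k4,k114),(k9,k148),(k6,
    k152),(k7,k152)],[(k4,k129),(k9,k144),(k6,k148),(k7,k167)],[(k1,k129),(k8,k144)]]
    [] k0
    [[k1,k0,k1,k0,k1]]
    [.ref k3 k0 [(z1,[z1])]]]⟩

/-- classes `0 0 1 1 2`, types `C0 C0 C0 C0 C0` -/
noncomputable def cT5_141 : CertT :=
  ⟨[k4,k4,k20,k20,k36],[(true,k4,[k4,k3,k2,k1,k0]),(false,k0,[k0,k1,k2,k3,k4])],[[[([z1,z0,z1,z0,z1],z2),([z0,z3,z0,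
    z0,z0],z1)],[([z1,z0,z1,z0,z1],z2),([z0,z2,z0,z0,z0],z1)],[([z1,z0,z1,z0,z1],z2)],[]]],
    [.leafM k6 [k0,k1,k2,k3,k4] [(z1,[z0,z1]),(z1,[y3,y1,z3])] [],
    .leafM k5 [k0,k1,k2,k3,k4] [(z1,[z0,z1]),(z1,[y2,y1,z2])] [],
    .lp [k24,k8,k10,k10,k6] [k0,k0,k8,k8,k7,k7,k7,k7,k9,k9] k0 [] k40 k6
    [[(k8,k15)],[(k3,k16),(k5,k17)],[(k2,k8),(k0,k16)],[(k3,k8),(k5,k9)],[(k2,k9),(k0,k17)],[(k9,k8),(k7,k10)],[(k4,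
    k10),(k6,k10)],[(k9,k8),(k7,k10)],[(k4,k8),(k6,k8)],[(k1,k15)]]
    [] k0
    [[k0,k3,k0,k0,k0],[k0,k4,k0,k0,k0],[k0,k0,k0,k3,k0]]
    [.ref k0 k0 [(z1,[z0,z1]),(z1,[y1,y3,z3])],.ref k1 k1 [(z1,[z0,z1]),(z2,[z1])],.ref k0 k1 [(z1,[z0,z1]),(z1,[y1,
    y3,z3])]],
    .lp [k6,k8,k6,k8,k6] [k1,k1,k0,k0,k1,k1,k0,k0,k1,k1] k0 [] k24 k5
    [[(k8,k6)],[(k5,k6),(k3,k7)],[(k0,k7),(k2,k8)],[(k5,k7),(k3,k8)],[(k0,k6),(k2,k7)],[(k9,k6),(k7,k7)],[(k4,k7),(k6,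
    k8)],[(k9,k7),(k7,k8)],[(k4,k6),(k6,k7)],[(k1,k6)]]
    [] k0
    [[k1,k0,k1,k0,k1]]
    [.ref k2 k1 [(z1,[z1])]]]⟩

/-- classes `0 0 1 1 2`, types `C0 C0 C0 C0 S0` -/
noncomputable def cT5_142 : CertT :=
  ⟨[k4,k4,k20,k20,k32],[(true,k4,[k4,k3,k2,k1,k0]),(false,k0,[k0,k1,k2,k3,k4])],[[[([z1,z0,z1,z0,z1],z2),([z0,z3,z0,
    z0,z0],z1)],[([z1,z0,z1,z0,z1],z2),([z0,z2,z0,z0,z0],z1)],[([z1,z0,z1,z0,z1],z2)],[]]],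
    [.leafM k6 [k0,k1,k2,k3,k4] [(z1,[z0,z1]),(z1,[y3,y1,z3])] [],
    .leafM k5 [k0,k1,k2,k3,k4] [(z1,[z0,z1]),(z1,[y2,y1,z2])] [],
    .lp [k24,k10,k8,k8,k8] [k0,k0,k7,k7,k8,k8,k8,k8,k8,k8] k0 [] k40 k6
    [[(k8,k16),(k1,k24)],[(k5,k16),(k3,k17)],[(k2,k10),(k0,k17)],[(k5,k9),(k3,k10)],[(k2,k9),(k0,k16)],[(k7,k8),(k9,
    k8)],[(k4,k8),(k6,k8)],[(k7,k8),(k9,k8)],[(k4,k8),(k6,k8)],[(k8,k8),(k1,k16)]]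
    [] k0
    [[k0,k3,k0,k0,k0],[k0,k0,k0,k3,k0],[k0,k0,k0,k4,k0]]
    [.ref k0 k0 [(z1,[z0,z1]),(z1,[y1,y3,z3])],.ref k0 k1 [(z1,[z0,z1]),(z1,[y1,y3,z3])],.ref k1 k1 [(z1,[z0,z1]),(z2,
    [y1,y4,z4])]],
    .lp [k6,k8,k6,k8,k6] [k1,k1,k0,k0,k1,k1,k0,k0,k1,k1] k0 [] k24 k5
    [[(k1,k6),(k8,k6)],[(k5,k6),(k3,k7)],[(k0,k7),(k2,k8)],[(k5,k7),(k3,k8)],[(k0,k6),(k2,k7)],[(k9,k6),(k7,k7)],[(k4,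
    k7),(k6,k8)],[(k9,k7),(k7,k8)],[(k4,k6),(k6,k7)],[(k1,k6),(k8,k6)]]
    [] k0
    [[k1,k0,k1,k0,k1]]
    [.ref k2 k1 [(z1,[z1])]]]⟩

/-- classes `0 0 1 1 2`, types `C0 C0 C0 C2 C0` -/
noncomputable def cT5_143 : CertT :=
  ⟨[k4,k4,k20,k22,k36],[],[[[]]],
    [.lp [k4,k4,k2,k4,k2] [k0,k0,k0,k0,k1,k1,k0,k0,k1,k1] k0 [] k12 k5
    [[(k8,k3)],[(k5,k3),(k3,k4)],[(k0,k4),(k2,k4)],[(k5,k3),(k3,k4)],[(k0,k3),(k2,k3)],[(k6,k3),(k7,k3)],[(k4,k3),(k9,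
    k3)],[(k4,k3),(k9,k3)],[(k6,k3),(k7,k3)],[(k1,k3)]]
    [] k0
    []
    []]⟩

/-- classes `0 0 1 1 2`, types `C0 C0 C0 C2 S0` -/
noncomputable def cT5_144 : CertT :=
  ⟨[k4,k4,k20,k22,k32],[],[[[]]],
    [.lp [k12,k16,k12,k12,k18] [k3,k3,k1,k1,k3,k3,k3,k3,k0,k0] k0 [] k48 k5
    [[(k1,k12),(k8,k15)],[(k5,k12),(k3,k14)],[(k0,k14),(k2,k16)],[(k5,k14),(k3,k16)],[(k0,k12),(k2,k14)],[(k6,k12),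
    (k7,k12)],[(k4,k12),(k9,k15)],[(k4,k12),(k9,k15)],[(k6,k15),(k7,k15)],[(k1,k15),(k8,k18)]]
    [] k0
    []
    []]⟩

/-- classes `0 0 1 1 2`, types `C0 C0 N0 N1 C0` -/
noncomputable def cT5_145 : CertT :=
  ⟨[k4,k4,k28,k29,k36],[(false,k0,[k0,k1,k2,k3,k4])],[[[([z1,z0,z1,z0,z1],z2),([z0,z3,z0,z0,z0],z2)],[([z1,z0,z1,z0,
    z1],z2),([z0,z2,z0,z0,z0],z1)],[([z1,z0,z1,z0,z1],z2),([z0,z3,z0,z0,z0],z1)],[([z1,z0,z1,z0,z1],z2)],[]]],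
    [.leafM k4 [k0,k1,k2,k3,k4] [(z1,[z0,z1]),(z1,[y3,y1,z3])] [],
    .leafM k5 [k0,k1,k2,k3,k4] [(z1,[z0,z1]),(z1,[y2,y1,z2])] [],
    .leafM k6 [k0,k1,k2,k3,k4] [(z1,[z0,z1]),(z1,[y3,y1,z3])] [],
    .lp [k24,k8,k16,k10,k0] [k0,k0,k8,k8,k4,k4,k7,k7,k12,k12] k0 [] k40 k6
    [[(k8,k12)],[(k3,k16),(k5,k20)],[(k2,k8),(k0,k16)],[(k3,k8),(k5,k12)],[(k2,k12),(k0,k20)],[(k9,k8)],[(k6,k10)],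
    [(k7,k10)],[(k4,k8)],[(k1,k12)]]
    [] k0
    [[k0,k3,k0,k0,k0],[k0,k4,k0,k0,k0],[k0,k0,k0,k3,k0]]
    [.ref k0 k0 [(z1,[z0,z1]),(z1,[z1])],.ref k1 k0 [(z1,[z0,z1]),(z2,[z1])],.ref k2 k0 [(z1,[z0,z1]),(z1,[y1,y3,
    z3])]],
    .lp [k6,k8,k6,k8,k6] [k1,k1,k0,k0,k1,k1,k0,k0,k1,k1] k0 [] k24 k5
    [[(k8,k6)],[(k5,k6),(k3,k7)],[(k0,k7),(k2,k8)],[(k5,k7),(k3,k8)],[(k0,k6),(k2,k7)],[(k9,k6)],[(k6,k8)],[(k7,k8)],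
    [(k4,k6)],[(k1,k6)]]
    [] k0
    [[k1,k0,k1,k0,k1]]
    [.ref k3 k0 [(z1,[z1])]]]⟩

/-- classes `0 0 1 1 2`, types `C0 C0 N0 N1 S0` -/
noncomputable def cT5_146 : CertT :=
  ⟨[k4,k4,k28,k29,k32],[(false,k0,[k0,k1,k2,k3,k4])],[[[([z1,z0,z1,z0,z1],z2),([z0,z3,z0,z0,z0],z2)],[([z1,z0,z1,z0,
    z1],z2),([z0,z3,z0,z0,z0],z1)],[([z1,z0,z1,z0,z1],z2),([z0,z2,z0,z0,z0],z1)],[([z1,z0,z1,z0,z1],z2)],[]]],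
    [.leafM k4 [k0,k1,k2,k3,k4] [(z1,[z0,z1]),(z1,[y3,y1,z3])] [],
    .leafM k6 [k0,k1,k2,k3,k4] [(z1,[z0,z1]),(z1,[y3,y1,z3])] [],
    .leafM k5 [k0,k1,k2,k3,k4] [(z1,[z0,z1]),(z1,[y2,y1,z2])] [],
    .lp [k24,k10,k8,k8,k8] [k0,k0,k7,k7,k8,k8,k8,k8,k8,k8] k0 [] k40 k6
    [[(k8,k16),(k1,k24)],[(k5,k16),(k3,k17)],[(k2,k10),(k0,k17)],[(k5,k9),(k3,k10)],[(k2,k9),(k0,k16)],[(k9,k8)],[(k6,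
    k8)],[(k7,k8)],[(k4,k8)],[(k8,k8),(k1,k16)]]
    [] k0
    [[k0,k3,k0,k0,k0],[k0,k0,k0,k3,k0],[k0,k0,k0,k4,k0]]
    [.ref k0 k0 [(z1,[z0,z1]),(z1,[z1])],.ref k1 k0 [(z1,[z0,z1]),(z1,[y1,y3,z3])],.ref k2 k0 [(z1,[z0,z1]),(z2,[y1,
    y4,z4])]],
    .lp [k6,k8,k6,k8,k6] [k1,k1,k0,k0,k1,k1,k0,k0,k1,k1] k0 [] k24 k5
    [[(k1,k6),(k8,k6)],[(k5,k6),(k3,k7)],[(k0,k7),(k2,k8)],[(k5,k7),(k3,k8)],[(k0,k6),(k2,k7)],[(k9,k6)],[(k6,k8)],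
    [(k7,k8)],[(k4,k6)],[(k1,k6),(k8,k6)]]
    [] k0
    [[k1,k0,k1,k0,k1]]
    [.ref k3 k0 [(z1,[z1])]]]⟩

/-- classes `0 0 1 1 2`, types `C0 C0 N0 N2 C0` -/
noncomputable def cT5_147 : CertT :=
  ⟨[k4,k4,k28,k30,k36],[],[[[]]],
    [.lp [k4,k4,k2,k4,k2] [k0,k0,k0,k0,k1,k1,k0,k0,k1,k1] k0 [] k12 k5
    [[(k8,k3)],[(k5,k3),(k3,k4)],[(k0,k4),(k2,k4)],[(k5,k3),(k3,k4)],[(k0,k3),(k2,k3)],[(k6,k3)],[(k9,k3)],[(k4,k3)],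
    [(k7,k3)],[(k1,k3)]]
    [] k0
    []
    []]⟩

/-- classes `0 0 1 1 2`, types `C0 C0 N0 N2 S0` -/
noncomputable def cT5_148 : CertT :=
  ⟨[k4,k4,k28,k30,k32],[],[[[]]],
    [.lp [k6,k8,k6,k6,k6] [k1,k1,k0,k0,k1,k1,k1,k1,k1,k1] k0 [] k24 k5
    [[(k1,k6),(k8,k6)],[(k5,k6),(k3,k7)],[(k0,k7),(k2,k8)],[(k5,k7),(k3,k8)],[(k0,k6),(k2,k7)],[(k6,k6)],[(k9,k6)],
    [(k4,k6)],[(k7,k6)],[(k1,k6),(k8,k6)]]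
    [] k0
    []
    []]⟩

/-- classes `0 0 1 1 2`, types `C0 C0 S0 S0 C0` -/
noncomputable def cT5_149 : CertT :=
  ⟨[k4,k4,k16,k16,k36],[(false,k0,[k0,k1,k2,k3,k4])],[[[([z1,z0,z1,z0,z1],z2),([z0,z3,z0,z0,z0],z2)],[([z1,z0,z1,z0,
    z1],z2),([z0,z3,z0,z0,z0],z1)],[([z1,z0,z1,z0,z1],z2),([z0,z2,z0,z0,z0],z1)],[([z1,z0,z1,z0,z1],z2)],[]]],
    [.leafM k4 [k0,k1,k2,k3,k4] [(z1,[z0,z1]),(z1,[y3,y1,z3])] [],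
    .leafM k6 [k0,k1,k2,k3,k4] [(z1,[z0,z1]),(z1,[y3,y1,z3])] [],
    .leafM k5 [k0,k1,k2,k3,k4] [(z1,[z0,z1]),(z1,[y2,y1,z2])] [],
    .lp [k24,k10,k8,k8,k8] [k0,k0,k7,k7,k8,k8,k8,k8,k8,k8] k0 [] k40 k6
    [[(k8,k16)],[(k5,k16),(k3,k17)],[(k2,k10),(k0,k17)],[(k5,k9),(k3,k10)],[(k2,k9),(k0,k16)],[(k4,k8),(k6,k8),(k7,
    k8),(k9,k8)],[(k4,k8),(k6,k8),(k7,k8),(k9,k8)],[(k4,k8),(k6,k8),(k7,k8),(k9,k8)],[(k4,k8),(k6,k8),(k7,k8),(k9,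
    k8)],[(k1,k16)]]
    [] k0
    [[k0,k3,k0,k0,k0],[k0,k0,k0,k3,k0],[k0,k0,k0,k4,k0]]
    [.ref k0 k0 [(z1,[z0,z1]),(z1,[z1])],.ref k1 k0 [(z1,[z0,z1]),(z1,[y1,y3,z3])],.ref k2 k0 [(z1,[z0,z1]),(z2,[y1,
    y4,z4])]],
    .lp [k6,k8,k6,k8,k6] [k1,k1,k0,k0,k1,k1,k0,k0,k1,k1] k0 [] k24 k5
    [[(k8,k6)],[(k5,k6),(k3,k7)],[(k0,k7),(k2,k8)],[(k5,k7),(k3,k8)],[(k0,k6),(k2,k7)],[(k4,k6),(k9,k6),(k6,k7),(k7,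
    k7)],[(k4,k7),(k9,k7),(k6,k8),(k7,k8)],[(k4,k7),(k9,k7),(k6,k8),(k7,k8)],[(k4,k6),(k9,k6),(k6,k7),(k7,k7)],[(k1,
    k6)]]
    [] k0
    [[k1,k0,k1,k0,k1]]
    [.ref k3 k0 [(z1,[z1])]]]⟩

/-- classes `0 0 1 1 2`, types `C0 C0 S0 S0 S0` -/
noncomputable def cT5_150 : CertT :=
  ⟨[k4,k4,k16,k16,k32],[(false,k0,[k0,k1,k2,k3,k4])],[[[([z1,z0,z1,z0,z1],z2),([z0,z3,z0,z0,z0],z2)],[([z1,z0,z1,z0,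
    z1],z2),([z0,z2,z0,z0,z0],z1)],[([z1,z0,z1,z0,z1],z2),([z0,z3,z0,z0,z0],z1)],[([z1,z0,z1,z0,z1],z2)],[]]],
    [.leafM k4 [k0,k1,k2,k3,k4] [(z1,[z0,z1]),(z1,[y3,y1,z3])] [],
    .leafM k5 [k0,k1,k2,k3,k4] [(z1,[z0,z1]),(z1,[y2,y1,z2])] [],
    .leafM k6 [k0,k1,k2,k3,k4] [(z1,[z0,z1]),(z1,[y3,y1,z3])] [],
    .lp [k112,k112,(nat_lit 240),k140,(nat_lit 210)] [k64,k64,k64,k64,k0,k0,k50,k50,k15,k15] k0 [] (nat_lit 560) k6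
    [[(k1,k112),(k8,k161)],[(k3,k112),(k5,k176)],[(k0,k112),(k2,k112)],[(k3,k112),(k5,k176)],[(k0,k176),(k2,k176)],
    [(k6,k190),(k7,k190),(k9,(nat_lit 225)),(k4,(nat_lit 240))],[(k6,k140),(k7,k140),(k9,k175),(k4,k190)],[(k6,k140),
    (k7,k140),(k9,k175),(k4,k190)],[(k6,k175),(k7,k175),(k9,(nat_lit 210)),(k4,(nat_lit 225))],[(k1,k161),(k8,
    (nat_lit 210))]]
    [] k0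
    [[k0,k3,k0,k0,k0],[k0,k4,k0,k0,k0],[k0,k0,k0,k3,k0]]
    [.ref k0 k0 [(z1,[z0,z1]),(z1,[z1])],.ref k1 k0 [(z1,[z0,z1]),(z2,[z1])],.ref k2 k0 [(z1,[z0,z1]),(z1,[y1,y3,
    z3])]],
    .lp [k114,k152,k114,k152,k144] [k19,k19,k0,k0,k19,k19,k0,k0,k4,k4] k0 [[],[],[],[],[k0,k0,k0,k0,k0,k0,k0,k19],[],[k0,
    k0,k0,k0,k0,k19]] (nat_lit 456) k5
    [[(k1,k114),(k8,k129)],[(k5,k114),(k3,k133)],[(k0,k133),(k2,k152)],[(k5,k133),(k3,k152)],[(k0,k114),(k2,k133)],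
    [(k4,k114),(k6,k114),(k9,k129),(k7,k133)],[(k4,k133),(k6,k152),(k7,k152),(k9,k167)],[(k4,k114),(k9,k148),(k6,
    k152),(k7,k152)],[(k4,k129),(k9,k144),(k6,k148),(k7,k167)],[(k1,k129),(k8,k144)]]
    [] k0
    [[k1,k0,k1,k0,k1]]
    [.ref k3 k0 [(z1,[z1])]]]⟩

/-- classes `0 0 1 1 2`, types `C0 C2 C0 C2 C0` -/
noncomputable def cT5_151 : CertT :=
  ⟨[k4,k6,k20,k22,k36],[],[[[]]],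
    [.lp [k2,k2,k2,k2,k2] [k0,k0,k0,k0,k0,k0,k0,k0,k0,k0] k0 [] k8 k5
    [[(k8,k2)],[(k2,k2),(k3,k2)],[(k0,k2),(k5,k2)],[(k0,k2),(k5,k2)],[(k2,k2),(k3,k2)],[(k6,k2),(k7,k2)],[(k4,k2),(k9,
    k2)],[(k4,k2),(k9,k2)],[(k6,k2),(k7,k2)],[(k1,k2)]]
    [] k0
    []
    []]⟩

/-- classes `0 0 1 1 2`, types `C0 C2 C0 C2 S0` -/
noncomputable def cT5_152 : CertT :=
  ⟨[k4,k6,k20,k22,k32],[(false,k0,[k0,k1,k2,k3,k4])],[[[([z1,z0,y1,z0,z1],z1),([z0,z1,z2,z0,y2],z0)],[([z1,z0,y1,y1,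
    y1],y1)],[]]],
    [.tor k3 false k0 [(z1,[y1,y1,z1]),(z1,[y1,z0,z1]),(z1,[z2,z1])],
    .lp [k6,k4,k4,k4,k4] [k0,k0,k1,k1,k1,k1,k1,k1,k1,k1] k0 [] k16 k5
    [[(k8,k5),(k1,k6)],[(k2,k5),(k3,k5)],[(k5,k4),(k0,k5)],[(k5,k4),(k0,k5)],[(k2,k4),(k3,k4)],[(k6,k4),(k7,k4)],[(k4,
    k4),(k9,k4)],[(k4,k4),(k9,k4)],[(k6,k4),(k7,k4)],[(k8,k4),(k1,k5)]]
    [] k0
    [[k0,k0,k0,k1,k2]]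
    [.ref k0 k0 [(z1,[z1,z1]),(z1,[y2,y1,z1])]],
    .lp [k4,k4,k4,k4,k6] [k1,k1,k1,k1,k1,k1,k1,k1,k0,k0] k0 [] k16 k5
    [[(k1,k4),(k8,k5)],[(k2,k4),(k3,k4)],[(k0,k4),(k5,k4)],[(k0,k4),(k5,k4)],[(k2,k4),(k3,k4)],[(k6,k4),(k7,k4)],[(k4,
    k4),(k9,k5)],[(k4,k4),(k9,k5)],[(k6,k5),(k7,k5)],[(k1,k5),(k8,k6)]]
    [] k0
    [[k2,k1,k0,k0,k0]]
    [.ref k1 k0 [(z1,[z1,y1])]]]⟩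

/-- classes `0 0 1 1 2`, types `C0 C2 N0 N1 C0` -/
noncomputable def cT5_153 : CertT :=
  ⟨[k4,k6,k28,k29,k36],[],[[[]]],
    [.lp [k6,k0,k6,k4,k0] [k0,k0,k3,k3,k0,k0,k1,k1,k3,k3] k0 [] k12 k5
    [[(k8,k3)],[(k2,k3),(k3,k3)],[(k0,k3),(k5,k3)],[(k0,k3),(k5,k3)],[(k2,k3),(k3,k3)],[(k9,k3)],[(k6,k4)],[(k7,k4)],
    [(k4,k3)],[(k1,k3)]]
    [] k0
    []
    []]⟩

/-- classes `0 0 1 1 2`, types `C0 C2 N0 N1 S0` -/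
noncomputable def cT5_154 : CertT :=
  ⟨[k4,k6,k28,k29,k32],[],[[[]]],
    [.lp [k18,k12,k12,k16,k12] [k0,k0,k3,k3,k3,k3,k1,k1,k3,k3] k0 [] k48 k5
    [[(k8,k15),(k1,k18)],[(k2,k15),(k3,k15)],[(k5,k12),(k0,k15)],[(k5,k12),(k0,k15)],[(k2,k12),(k3,k12)],[(k9,k12)],
    [(k6,k16)],[(k7,k16)],[(k4,k12)],[(k8,k12),(k1,k15)]]
    [] k0
    []
    []]⟩

/-- classes `0 0 1 1 2`, types `C0 C2 N0 N2 C0` -/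
noncomputable def cT5_155 : CertT :=
  ⟨[k4,k6,k28,k30,k36],[],[[[]]],
    [.lp [k2,k2,k2,k2,k2] [k0,k0,k0,k0,k0,k0,k0,k0,k0,k0] k0 [] k8 k5
    [[(k8,k2)],[(k2,k2),(k3,k2)],[(k0,k2),(k5,k2)],[(k0,k2),(k5,k2)],[(k2,k2),(k3,k2)],[(k6,k2)],[(k9,k2)],[(k4,k2)],
    [(k7,k2)],[(k1,k2)]]
    [] k0
    []
    []]⟩

/-- classes `0 0 1 1 2`, types `C0 C2 N0 N2 S0` -/
noncomputable def cT5_156 : CertT :=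
  ⟨[k4,k6,k28,k30,k32],[],[[[]]],
    [.lp [k6,k4,k4,k4,k4] [k0,k0,k1,k1,k1,k1,k1,k1,k1,k1] k0 [] k16 k5
    [[(k8,k5),(k1,k6)],[(k2,k5),(k3,k5)],[(k5,k4),(k0,k5)],[(k5,k4),(k0,k5)],[(k2,k4),(k3,k4)],[(k6,k4)],[(k9,k4)],
    [(k4,k4)],[(k7,k4)],[(k8,k4),(k1,k5)]]
    [] k0
    []
    []]⟩

/-- classes `0 0 1 1 2`, types `C0 C2 S0 S0 C0` -/
noncomputable def cT5_157 : CertT :=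
  ⟨[k4,k6,k16,k16,k36],[],[[[]]],
    [.lp [k12,k12,k18,k16,k12] [k3,k3,k3,k3,k0,k0,k1,k1,k3,k3] k0 [] k48 k5
    [[(k8,k12)],[(k2,k12),(k3,k12)],[(k0,k12),(k5,k15)],[(k0,k12),(k5,k15)],[(k2,k15),(k3,k15)],[(k9,k15),(k6,k17),
    (k7,k17),(k4,k18)],[(k9,k14),(k6,k16),(k7,k16),(k4,k17)],[(k9,k14),(k6,k16),(k7,k16),(k4,k17)],[(k9,k12),(k6,k14),
    (k7,k14),(k4,k15)],[(k1,k12)]]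
    [] k0
    []
    []]⟩

/-- classes `0 0 1 1 2`, types `C0 C2 S0 S0 S0` -/
noncomputable def cT5_158 : CertT :=
  ⟨[k4,k6,k16,k16,k32],[(false,k0,[k0,k1,k2,k3,k4])],[[[([z1,z0,y1,z0,z0],z0),([z0,z1,z2,z0,z0],z2)],[([z1,z0,y1,z0,
    z1],z1),([z0,z1,z2,z0,y2],z0)],[([z1,z0,y1,y1,y1],y1)],[]]],
    [.leafM k0 [k3,k4,k0,k1,k2] [(z1,[y1,y1,z1])] [],
    .tor k3 false k0 [(z1,[y1,y1,z1]),(z1,[y1,z0,z1]),(z1,[z2,z1])],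
    .lp [k18,k12,k12,k16,k12] [k0,k0,k3,k3,k3,k3,k1,k1,k3,k3] k0 [] k48 k5
    [[(k8,k15),(k1,k18)],[(k2,k15),(k3,k15)],[(k5,k12),(k0,k15)],[(k5,k12),(k0,k15)],[(k2,k12),(k3,k12)],[(k4,k12),
    (k9,k12),(k6,k14),(k7,k14)],[(k4,k14),(k9,k14),(k6,k16),(k7,k16)],[(k4,k14),(k9,k14),(k6,k16),(k7,k16)],[(k4,k12),
    (k9,k12),(k6,k14),(k7,k14)],[(k8,k12),(k1,k15)]]
    [] k0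
    [[k0,k1,k2,k0,k0],[k0,k0,k0,k1,k2]]
    [.ref k0 k0 [(z2,[y1,z1,z1]),(z1,[z1])],.ref k1 k0 [(z1,[z1,z1]),(z1,[y2,y1,z1])]],
    .lp [k42,k42,k84,k70,k60] [k21,k21,k21,k21,k0,k0,k7,k7,k12,k12] k0 [[],[],[],[],[k0,k0,k0,k0,k0,k0,k0,k21],[],[k0,k0,
    k0,k0,k0,k21]] (nat_lit 210) k6
    [[(k1,k42),(k8,k51)],[(k2,k42),(k3,k42)],[(k0,k42),(k5,k63)],[(k0,k42),(k5,k63)],[(k2,k63),(k3,k63)],[(k6,k56),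
    (k9,k72),(k7,k77),(k4,k84)],[(k6,k70),(k7,k70),(k4,k77),(k9,k86)],[(k4,k56),(k9,k65),(k6,k70),(k7,k70)],[(k9,k60),
    (k6,k65),(k4,k72),(k7,k86)],[(k1,k51),(k8,k60)]]
    [] k0
    [[k2,k1,k0,k0,k0]]
    [.ref k2 k0 [(z1,[z1,y1])]]]⟩

/-- classes `0 0 1 1 2`, types `N0 N1 N0 N1 C0` -/
noncomputable def cT5_159 : CertT :=
  ⟨[k12,k13,k28,k29,k36],[(true,k4,[k4,k3,k2,k1,k0]),(false,k0,[k0,k1,k2,k3,k4])],[[[([z1,z0,z1,z0,z1],z2),([z0,z3,z0,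
    z0,z0],z1)],[([z1,z0,z1,z0,z1],z2),([z0,z2,z0,z0,z0],z1)],[([z1,z0,z1,z0,z1],z2)],[]]],
    [.leafM k6 [k0,k1,k2,k3,k4] [(z1,[z0,z1]),(z1,[y3,y1,z3])] [],
    .leafM k5 [k0,k1,k2,k3,k4] [(z1,[z0,z1]),(z1,[y2,y1,z2])] [],
    .lp [k24,k8,k16,k10,k0] [k0,k0,k8,k8,k4,k4,k7,k7,k12,k12] k0 [] k40 k6
    [[(k8,k12)],[(k5,k20)],[(k2,k8)],[(k3,k8)],[(k0,k20)],[(k9,k8)],[(k6,k10)],[(k7,k10)],[(k4,k8)],[(k1,k12)]]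
    [] k0
    [[k0,k3,k0,k0,k0],[k0,k4,k0,k0,k0],[k0,k0,k0,k3,k0]]
    [.ref k0 k0 [(z1,[z0,z1]),(z1,[y1,y3,z3])],.ref k1 k1 [(z1,[z0,z1]),(z2,[z1])],.ref k0 k1 [(z1,[z0,z1]),(z1,[y1,
    y3,z3])]],
    .lp [k6,k8,k6,k8,k6] [k1,k1,k0,k0,k1,k1,k0,k0,k1,k1] k0 [] k24 k5
    [[(k8,k6)],[(k5,k6)],[(k2,k8)],[(k3,k8)],[(k0,k6)],[(k9,k6)],[(k6,k8)],[(k7,k8)],[(k4,k6)],[(k1,k6)]]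
    [] k0
    [[k1,k0,k1,k0,k1]]
    [.ref k2 k1 [(z1,[z1])]]]⟩

/-- classes `0 0 1 1 2`, types `N0 N1 N0 N1 S0` -/
noncomputable def cT5_160 : CertT :=
  ⟨[k12,k13,k28,k29,k32],[(true,k4,[k4,k3,k2,k1,k0]),(false,k0,[k0,k1,k2,k3,k4])],[[[([z1,z0,z1,z0,z1],z2),([z0,z3,z0,
    z0,z0],z1)],[([z1,z0,z1,z0,z1],z2),([z0,z2,z0,z0,z0],z1)],[([z1,z0,z1,z0,z1],z2)],[]]],
    [.leafM k6 [k0,k1,k2,k3,k4] [(z1,[z0,z1]),(z1,[y3,y1,z3])] [],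
    .leafM k5 [k0,k1,k2,k3,k4] [(z1,[z0,z1]),(z1,[y2,y1,z2])] [],
    .lp [k24,k10,k8,k8,k8] [k0,k0,k7,k7,k8,k8,k8,k8,k8,k8] k0 [] k40 k6
    [[(k8,k16),(k1,k24)],[(k5,k16)],[(k2,k10)],[(k3,k10)],[(k0,k16)],[(k9,k8)],[(k6,k8)],[(k7,k8)],[(k4,k8)],[(k8,k8),
    (k1,k16)]]
    [] k0
    [[k0,k3,k0,k0,k0],[k0,k0,k0,k3,k0],[k0,k0,k0,k4,k0]]
    [.ref k0 k0 [(z1,[z0,z1]),(z1,[y1,y3,z3])],.ref k0 k1 [(z1,[z0,z1]),(z1,[y1,y3,z3])],.ref k1 k1 [(z1,[z0,z1]),(z2,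
    [y1,y4,z4])]],
    .lp [k6,k8,k6,k8,k6] [k1,k1,k0,k0,k1,k1,k0,k0,k1,k1] k0 [] k24 k5
    [[(k1,k6),(k8,k6)],[(k5,k6)],[(k2,k8)],[(k3,k8)],[(k0,k6)],[(k9,k6)],[(k6,k8)],[(k7,k8)],[(k4,k6)],[(k1,k6),(k8,
    k6)]]
    [] k0
    [[k1,k0,k1,k0,k1]]
    [.ref k2 k1 [(z1,[z1])]]]⟩

/-- classes `0 0 1 1 2`, types `N0 N1 N0 N2 C0` -/
noncomputable def cT5_161 : CertT :=
  ⟨[k12,k13,k28,k30,k36],[],[[[]]],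
    [.lp [k6,k4,k0,k6,k0] [k0,k0,k1,k1,k3,k3,k0,k0,k3,k3] k0 [] k12 k5
    [[(k8,k3)],[(k5,k3)],[(k2,k4)],[(k3,k4)],[(k0,k3)],[(k6,k3)],[(k9,k3)],[(k4,k3)],[(k7,k3)],[(k1,k3)]]
    [] k0
    []
    []]⟩

/-- classes `0 0 1 1 2`, types `N0 N1 N0 N2 S0` -/
noncomputable def cT5_162 : CertT :=
  ⟨[k12,k13,k28,k30,k32],[],[[[]]],
    [.lp [k6,k8,k6,k6,k6] [k1,k1,k0,k0,k1,k1,k1,k1,k1,k1] k0 [] k24 k5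
    [[(k1,k6),(k8,k6)],[(k5,k6)],[(k2,k8)],[(k3,k8)],[(k0,k6)],[(k6,k6)],[(k9,k6)],[(k4,k6)],[(k7,k6)],[(k1,k6),(k8,
    k6)]]
    [] k0
    []
    []]⟩

/-- classes `0 0 1 1 2`, types `N0 N1 S0 S0 C0` -/
noncomputable def cT5_163 : CertT :=
  ⟨[k12,k13,k16,k16,k36],[(false,k0,[k0,k1,k2,k3,k4])],[[[([z1,z0,z1,z0,z1],z2),([z0,z3,z0,z0,z0],z2)],[([z1,z0,z1,z0,
    z1],z2),([z0,z3,z0,z0,z0],z1)],[([z1,z0,z1,z0,z1],z2),([z0,z2,z0,z0,z0],z1)],[([z1,z0,z1,z0,z1],z2)],[]]],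
    [.leafM k4 [k0,k1,k2,k3,k4] [(z1,[z0,z1]),(z1,[y3,y1,z3])] [],
    .leafM k6 [k0,k1,k2,k3,k4] [(z1,[z0,z1]),(z1,[y3,y1,z3])] [],
    .leafM k5 [k0,k1,k2,k3,k4] [(z1,[z0,z1]),(z1,[y2,y1,z2])] [],
    .lp [k24,k10,k8,k8,k8] [k0,k0,k7,k7,k8,k8,k8,k8,k8,k8] k0 [] k40 k6
    [[(k8,k16)],[(k5,k16)],[(k2,k10)],[(k3,k10)],[(k0,k16)],[(k4,k8),(k6,k8),(k7,k8),(k9,k8)],[(k4,k8),(k6,k8),(k7,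
    k8),(k9,k8)],[(k4,k8),(k6,k8),(k7,k8),(k9,k8)],[(k4,k8),(k6,k8),(k7,k8),(k9,k8)],[(k1,k16)]]
    [] k0
    [[k0,k3,k0,k0,k0],[k0,k0,k0,k3,k0],[k0,k0,k0,k4,k0]]
    [.ref k0 k0 [(z1,[z0,z1]),(z1,[z1])],.ref k1 k0 [(z1,[z0,z1]),(z1,[y1,y3,z3])],.ref k2 k0 [(z1,[z0,z1]),(z2,[y1,
    y4,z4])]],
    .lp [k6,k8,k6,k8,k6] [k1,k1,k0,k0,k1,k1,k0,k0,k1,k1] k0 [] k24 k5
    [[(k8,k6)],[(k5,k6)],[(k2,k8)],[(k3,k8)],[(k0,k6)],[(k4,k6),(k9,k6),(k6,k7),(k7,k7)],[(k4,k7),(k9,k7),(k6,k8),(k7,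
    k8)],[(k4,k7),(k9,k7),(k6,k8),(k7,k8)],[(k4,k6),(k9,k6),(k6,k7),(k7,k7)],[(k1,k6)]]
    [] k0
    [[k1,k0,k1,k0,k1]]
    [.ref k3 k0 [(z1,[z1])]]]⟩

/-- classes `0 0 1 1 2`, types `N0 N1 S0 S0 S0` -/
noncomputable def cT5_164 : CertT :=
  ⟨[k12,k13,k16,k16,k32],[(false,k0,[k0,k1,k2,k3,k4])],[[[([z1,z0,z1,z0,z1],z2),([z0,z3,z0,z0,z0],z2)],[([z1,z0,z1,z0,
    z1],z2),([z0,z2,z0,z0,z0],z1)],[([z1,z0,z1,z0,z1],z2),([z0,z3,z0,z0,z0],z1)],[([z1,z0,z1,z0,z1],z2)],[]]],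
    [.leafM k4 [k0,k1,k2,k3,k4] [(z1,[z0,z1]),(z1,[y3,y1,z3])] [],
    .leafM k5 [k0,k1,k2,k3,k4] [(z1,[z0,z1]),(z1,[y2,y1,z2])] [],
    .leafM k6 [k0,k1,k2,k3,k4] [(z1,[z0,z1]),(z1,[y3,y1,z3])] [],
    .lp [k112,k112,(nat_lit 240),k140,(nat_lit 210)] [k64,k64,k64,k64,k0,k0,k50,k50,k15,k15] k0 [] (nat_lit 560) k6
    [[(k1,k112),(k8,k161)],[(k5,k176)],[(k2,k112)],[(k3,k112)],[(k0,k176)],[(k6,k190),(k7,k190),(k9,(nat_lit 225)),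
    (k4,(nat_lit 240))],[(k6,k140),(k7,k140),(k9,k175),(k4,k190)],[(k6,k140),(k7,k140),(k9,k175),(k4,k190)],[(k6,
    k175),(k7,k175),(k9,(nat_lit 210)),(k4,(nat_lit 225))],[(k1,k161),(k8,(nat_lit 210))]]
    [] k0
    [[k0,k3,k0,k0,k0],[k0,k4,k0,k0,k0],[k0,k0,k0,k3,k0]]
    [.ref k0 k0 [(z1,[z0,z1]),(z1,[z1])],.ref k1 k0 [(z1,[z0,z1]),(z2,[z1])],.ref k2 k0 [(z1,[z0,z1]),(z1,[y1,y3,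
    z3])]],
    .lp [k114,k152,k114,k152,k144] [k19,k19,k0,k0,k19,k19,k0,k0,k4,k4] k0 [[],[],[],[],[k0,k0,k0,k0,k0,k0,k0,k19],[],[k0,
    k0,k0,k0,k0,k19]] (nat_lit 456) k5
    [[(k1,k114),(k8,k129)],[(k5,k114)],[(k2,k152)],[(k3,k152)],[(k0,k114)],[(k4,k114),(k6,k114),(k9,k129),(k7,k133)],
    [(k4,k133),(k6,k152),(k7,k152),(k9,k167)],[(k4,k114),(k9,k148),(k6,k152),(k7,k152)],[(k4,k129),(k9,k144),(k6,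
    k148),(k7,k167)],[(k1,k129),(k8,k144)]]
    [] k0
    [[k1,k0,k1,k0,k1]]
    [.ref k3 k0 [(z1,[z1])]]]⟩

/-- classes `0 0 1 1 2`, types `N0 N2 N0 N2 C0` -/
noncomputable def cT5_165 : CertT :=
  ⟨[k12,k14,k28,k30,k36],[],[[[]]],
    [.lp [k2,k2,k2,k2,k2] [k0,k0,k0,k0,k0,k0,k0,k0,k0,k0] k0 [] k8 k5
    [[(k8,k2)],[(k2,k2)],[(k5,k2)],[(k0,k2)],[(k3,k2)],[(k6,k2)],[(k9,k2)],[(k4,k2)],[(k7,k2)],[(k1,k2)]]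
    [] k0
    []
    []]⟩

/-- classes `0 0 1 1 2`, types `N0 N2 N0 N2 S0` -/
noncomputable def cT5_166 : CertT :=
  ⟨[k12,k14,k28,k30,k32],[],[[[]]],
    [.lp [k2,k2,k2,k2,k2] [k0,k0,k0,k0,k0,k0,k0,k0,k0,k0] k0 [] k8 k5
    [[(k1,k2),(k8,k2)],[(k2,k2)],[(k5,k2)],[(k0,k2)],[(k3,k2)],[(k6,k2)],[(k9,k2)],[(k4,k2)],[(k7,k2)],[(k1,k2),(k8,
    k2)]]
    [] k0
    []
    []]⟩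

/-- classes `0 0 1 1 2`, types `N0 N2 S0 S0 C0` -/
noncomputable def cT5_167 : CertT :=
  ⟨[k12,k14,k16,k16,k36],[],[[[]]],
    [.lp [k6,k6,k6,k8,k6] [k1,k1,k1,k1,k1,k1,k0,k0,k1,k1] k0 [] k24 k5
    [[(k8,k6)],[(k2,k6)],[(k5,k6)],[(k0,k6)],[(k3,k6)],[(k4,k6),(k9,k6),(k6,k7),(k7,k7)],[(k4,k7),(k9,k7),(k6,k8),(k7,
    k8)],[(k4,k7),(k9,k7),(k6,k8),(k7,k8)],[(k4,k6),(k9,k6),(k6,k7),(k7,k7)],[(k1,k6)]]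
    [] k0
    []
    []]⟩

/-- classes `0 0 1 1 2`, types `N0 N2 S0 S0 S0` -/
noncomputable def cT5_168 : CertT :=
  ⟨[k12,k14,k16,k16,k32],[],[[[]]],
    [.lp [k6,k6,k6,k8,k8] [k1,k1,k1,k1,k1,k1,k0,k0,k0,k0] k0 [] k24 k5
    [[(k1,k6),(k8,k7)],[(k2,k6)],[(k5,k6)],[(k0,k6)],[(k3,k6)],[(k4,k6),(k6,k7),(k7,k7),(k9,k7)],[(k4,k7),(k6,k8),(k7,
    k8),(k9,k8)],[(k4,k7),(k6,k8),(k7,k8),(k9,k8)],[(k4,k7),(k6,k8),(k7,k8),(k9,k8)],[(k1,k7),(k8,k8)]]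
    [] k0
    []
    []]⟩

/-- classes `0 0 1 1 2`, types `S0 S0 S0 S0 C0` -/
noncomputable def cT5_169 : CertT :=
  ⟨[k0,k0,k16,k16,k36],[(true,k4,[k4,k3,k2,k1,k0]),(false,k0,[k0,k1,k2,k3,k4])],[[[([z1,z0,z1,z0,z1],z2),([z0,z3,z0,
    z0,z0],z1)],[([z1,z0,z1,z0,z1],z2),([z0,z2,z0,z0,z0],z1)],[([z1,z0,z1,z0,z1],z2)],[]]],
    [.leafM k6 [k0,k1,k2,k3,k4] [(z1,[z0,z1]),(z1,[y3,y1,z3])] [],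
    .leafM k5 [k0,k1,k2,k3,k4] [(z1,[z0,z1]),(z1,[y2,y1,z2])] [],
    .lp [k16,k8,k16,k10,k8] [k0,k0,k4,k4,k0,k0,k3,k3,k4,k4] k0 [] k40 k6
    [[(k8,k12)],[(k2,k12),(k3,k12),(k0,k16),(k5,k16)],[(k2,k8),(k3,k8),(k0,k12),(k5,k12)],[(k2,k8),(k3,k8),(k0,k12),
    (k5,k12)],[(k2,k12),(k3,k12),(k0,k16),(k5,k16)],[(k9,k12),(k6,k13),(k7,k13),(k4,k16)],[(k9,k9),(k6,k10),(k7,k10),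
    (k4,k13)],[(k9,k9),(k6,k10),(k7,k10),(k4,k13)],[(k9,k8),(k6,k9),(k7,k9),(k4,k12)],[(k1,k12)]]
    [] k0
    [[k0,k3,k0,k0,k0],[k0,k4,k0,k0,k0],[k0,k0,k0,k3,k0]]
    [.ref k0 k0 [(z1,[z0,z1]),(z1,[y1,y3,z3])],.ref k1 k1 [(z1,[z0,z1]),(z2,[z1])],.ref k0 k1 [(z1,[z0,z1]),(z1,[y1,
    y3,z3])]],
    .lp [k27,k31,k30,k34,k18] [k5,k2,k0,k3,k2,k2,k0,k0,k8,k8] k0 [[k0,k0,k3,k5],[],[k0,k5],[k0,k3],[],[k0,k0,k0,k0,k0,k0,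
    k2],[k0,k0,k0,k0,k0,k0,k0,k6],[k0,k0,k0,k0,k2]] k96 k5
    [[(k8,k24)],[(k0,k24),(k2,k24),(k5,k24),(k3,k26)],[(k0,k26),(k3,k28),(k2,k34),(k5,k34)],[(k0,k24),(k5,k32),(k2,
    k34),(k3,k34)],[(k0,k24),(k5,k30),(k2,k32),(k3,k34)],[(k9,k24),(k4,k30),(k7,k32),(k6,k34)],[(k9,k24),(k4,k32),(k6,
    k34),(k7,k34)],[(k9,k26),(k6,k28),(k4,k34),(k7,k34)],[(k4,k24),(k7,k24),(k9,k24),(k6,k26)],[(k1,k24)]]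
    [] k0
    [[k1,k0,k1,k0,k1]]
    [.ref k2 k1 [(z1,[z1])]]]⟩

/-- classes `0 0 1 2 1`, types `B0 B1 B0 C0 B1` -/
noncomputable def cT5_170 : CertT :=
  ⟨[k8,k9,k24,k36,k25],[(false,k0,[k0,k1,k2,k3,k4])],[[[([z1,z1,z1,z0,z0],z2)],[]]],
    [.leafM k3 [k0,k1,k2,k3,k4] [(z1,[y1,z1])] [],
    .lp [k4,k4,k2,k2,k4] [k0,k0,k0,k0,k1,k1,k1,k1,k0,k0] k0 [] k12 k5
    [[(k4,k3),(k7,k3)],[(k5,k3),(k2,k4)],[(k5,k3),(k2,k4)],[(k0,k4),(k3,k4)],[(k0,k3),(k3,k3)],[(k1,k3),(k8,k3)],[(k1,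
    k3),(k8,k3)],[(k9,k3)],[(k6,k3)],[(k4,k3),(k7,k3)]]
    [] k0
    [[k1,k1,k1,k0,k0]]
    [.ref k0 k0 [(z1,[z1])]]]⟩

/-- classes `0 0 1 2 1`, types `B0 B1 B0 S0 B1` -/
noncomputable def cT5_171 : CertT :=
  ⟨[k8,k9,k24,k32,k25],[(false,k0,[k0,k1,k2,k3,k4])],[[[([z1,z1,z1,z0,z0],z2)],[]]],
    [.leafM k3 [k0,k1,k2,k3,k4] [(z1,[y1,z1])] [],
    .lp [k6,k8,k6,k6,k6] [k1,k1,k0,k0,k1,k1,k1,k1,k1,k1] k0 [] k24 k5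
    [[(k4,k6),(k7,k6)],[(k5,k6),(k2,k7)],[(k5,k7),(k2,k8)],[(k0,k7),(k3,k8)],[(k0,k6),(k3,k7)],[(k1,k6),(k8,k6)],[(k1,
    k6),(k8,k6)],[(k6,k6),(k9,k6)],[(k6,k6),(k9,k6)],[(k4,k6),(k7,k6)]]
    [] k0
    [[k1,k1,k1,k0,k0]]
    [.ref k0 k0 [(z1,[z1])]]]⟩

/-- classes `0 0 1 2 1`, types `B0 B1 C0 C0 C0` -/
noncomputable def cT5_172 : CertT :=
  ⟨[k8,k9,k20,k36,k20],[(false,k0,[k0,k1,k2,k3,k4])],[[[([z1,z1,z1,z0,z0],z2)],[]]],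
    [.leafM k3 [k0,k1,k2,k3,k4] [(z1,[y1,z1])] [],
    .lp [k4,k4,k2,k4,k2] [k0,k0,k0,k0,k1,k1,k0,k0,k1,k1] k0 [] k12 k5
    [[(k4,k3),(k8,k3)],[(k5,k3),(k2,k4)],[(k5,k3),(k2,k4)],[(k0,k4),(k3,k4)],[(k0,k3),(k3,k3)],[(k1,k3),(k7,k3)],[(k4,
    k3),(k8,k3)],[(k9,k3)],[(k6,k3)],[(k1,k3),(k7,k3)]]
    [] k0
    [[k1,k1,k1,k0,k0]]
    [.ref k0 k0 [(z1,[z1])]]]⟩

/-- classes `0 0 1 2 1`, types `B0 B1 C0 C0 C2` -/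
noncomputable def cT5_173 : CertT :=
  ⟨[k8,k9,k20,k36,k22],[],[[[]]],
    [.lp [k6,k8,k6,k6,k6] [k1,k1,k0,k0,k1,k1,k1,k1,k1,k1] k0 [] k24 k5
    [[(k7,k6),(k8,k6)],[(k5,k6),(k2,k7)],[(k5,k7),(k2,k8)],[(k0,k7),(k3,k8)],[(k0,k6),(k3,k7)],[(k7,k6),(k8,k6)],[(k1,
    k6),(k4,k6)],[(k9,k6)],[(k6,k6)],[(k1,k6),(k4,k6)]]
    [] k0
    []
    []]⟩

/-- classes `0 0 1 2 1`, types `B0 B1 C0 S0 C0` -/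
noncomputable def cT5_174 : CertT :=
  ⟨[k8,k9,k20,k32,k20],[(false,k0,[k0,k1,k2,k3,k4])],[[[([z1,z1,z1,z0,z0],z2)],[]]],
    [.leafM k3 [k0,k1,k2,k3,k4] [(z1,[y1,z1])] [],
    .lp [k6,k8,k6,k6,k6] [k1,k1,k0,k0,k1,k1,k1,k1,k1,k1] k0 [] k24 k5
    [[(k4,k6),(k8,k6)],[(k5,k6),(k2,k7)],[(k5,k7),(k2,k8)],[(k0,k7),(k3,k8)],[(k0,k6),(k3,k7)],[(k1,k6),(k7,k6)],[(k4,
    k6),(k8,k6)],[(k6,k6),(k9,k6)],[(k6,k6),(k9,k6)],[(k1,k6),(k7,k6)]]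
    [] k0
    [[k1,k1,k1,k0,k0]]
    [.ref k0 k0 [(z1,[z1])]]]⟩

/-- classes `0 0 1 2 1`, types `B0 B1 C0 S0 C2` -/
noncomputable def cT5_175 : CertT :=
  ⟨[k8,k9,k20,k32,k22],[],[[[]]],
    [.lp [k6,k8,k6,k6,k6] [k1,k1,k0,k0,k1,k1,k1,k1,k1,k1] k0 [] k24 k5
    [[(k7,k6),(k8,k6)],[(k5,k6),(k2,k7)],[(k5,k7),(k2,k8)],[(k0,k7),(k3,k8)],[(k0,k6),(k3,k7)],[(k7,k6),(k8,k6)],[(k1,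
    k6),(k4,k6)],[(k6,k6),(k9,k6)],[(k6,k6),(k9,k6)],[(k1,k6),(k4,k6)]]
    [] k0
    []
    []]⟩

/-- classes `0 0 1 2 1`, types `B0 B1 N0 C0 N1` -/
noncomputable def cT5_176 : CertT :=
  ⟨[k8,k9,k28,k36,k29],[(false,k0,[k0,k1,k2,k3,k4])],[[[([z1,z1,z1,z0,z0],z2)],[]]],
    [.leafM k3 [k0,k1,k2,k3,k4] [(z1,[y1,z1])] [],
    .lp [k4,k4,k2,k6,k0] [k1,k1,k1,k1,k2,k2,k0,k0,k3,k3] k0 [] k12 k5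
    [[(k4,k3)],[(k5,k3),(k2,k4)],[(k5,k3),(k2,k4)],[(k0,k4),(k3,k4)],[(k0,k3),(k3,k3)],[(k1,k3)],[(k8,k3)],[(k9,k3)],
    [(k6,k3)],[(k7,k3)]]
    [] k0
    [[k1,k1,k1,k0,k0]]
    [.ref k0 k0 [(z1,[z1])]]]⟩

/-- classes `0 0 1 2 1`, types `B0 B1 N0 C0 N2` -/
noncomputable def cT5_177 : CertT :=
  ⟨[k8,k9,k28,k36,k30],[],[[[]]],
    [.lp [k4,k4,k2,k2,k4] [k0,k0,k0,k0,k1,k1,k1,k1,k0,k0] k0 [] k12 k5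
    [[(k7,k3)],[(k5,k3),(k2,k4)],[(k5,k3),(k2,k4)],[(k0,k4),(k3,k4)],[(k0,k3),(k3,k3)],[(k8,k3)],[(k1,k3)],[(k9,k3)],
    [(k6,k3)],[(k4,k3)]]
    [] k0
    []
    []]⟩

/-- classes `0 0 1 2 1`, types `B0 B1 N0 S0 N1` -/
noncomputable def cT5_178 : CertT :=
  ⟨[k8,k9,k28,k32,k29],[(false,k0,[k0,k1,k2,k3,k4])],[[[([z1,z1,z1,z0,z0],z2)],[]]],
    [.leafM k3 [k0,k1,k2,k3,k4] [(z1,[y1,z1])] [],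
    .lp [k8,k8,k4,k6,k6] [k0,k0,k0,k0,k2,k2,k1,k1,k1,k1] k0 [] k24 k5
    [[(k4,k6)],[(k5,k6),(k2,k8)],[(k5,k6),(k2,k8)],[(k0,k8),(k3,k8)],[(k0,k6),(k3,k6)],[(k1,k6)],[(k8,k6)],[(k6,k6),
    (k9,k6)],[(k6,k6),(k9,k6)],[(k7,k6)]]
    [] k0
    [[k1,k1,k1,k0,k0]]
    [.ref k0 k0 [(z1,[z1])]]]⟩

/-- classes `0 0 1 2 1`, types `B0 B1 N0 S0 N2` -/
noncomputable def cT5_179 : CertT :=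
  ⟨[k8,k9,k28,k32,k30],[],[[[]]],
    [.lp [k6,k8,k6,k6,k6] [k1,k1,k0,k0,k1,k1,k1,k1,k1,k1] k0 [] k24 k5
    [[(k7,k6)],[(k5,k6),(k2,k7)],[(k5,k7),(k2,k8)],[(k0,k7),(k3,k8)],[(k0,k6),(k3,k7)],[(k8,k6)],[(k1,k6)],[(k6,k6),
    (k9,k6)],[(k6,k6),(k9,k6)],[(k4,k6)]]
    [] k0
    []
    []]⟩

/-- classes `0 0 1 2 1`, types `B0 B1 S0 C0 S0` -/
noncomputable def cT5_180 : CertT :=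
  ⟨[k8,k9,k16,k36,k16],[(false,k0,[k0,k1,k2,k3,k4])],[[[([z1,z1,z1,z0,z0],z2)],[]]],
    [.leafM k3 [k0,k1,k2,k3,k4] [(z1,[y1,z1])] [],
    .lp [k6,k8,k6,k6,k6] [k1,k1,k0,k0,k1,k1,k1,k1,k1,k1] k0 [] k24 k5
    [[(k1,k6),(k4,k6),(k7,k6),(k8,k6)],[(k5,k6),(k2,k7)],[(k5,k7),(k2,k8)],[(k0,k7),(k3,k8)],[(k0,k6),(k3,k7)],[(k1,
    k6),(k4,k6),(k7,k6),(k8,k6)],[(k1,k6),(k4,k6),(k7,k6),(k8,k6)],[(k9,k6)],[(k6,k6)],[(k1,k6),(k4,k6),(k7,k6),(k8,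
    k6)]]
    [] k0
    [[k1,k1,k1,k0,k0]]
    [.ref k0 k0 [(z1,[z1])]]]⟩

/-- classes `0 0 1 2 1`, types `B0 B1 S0 S0 S0` -/
noncomputable def cT5_181 : CertT :=
  ⟨[k8,k9,k16,k32,k16],[(false,k0,[k0,k1,k2,k3,k4])],[[[([z1,z1,z1,z0,z0],z2)],[]]],
    [.leafM k3 [k0,k1,k2,k3,k4] [(z1,[y1,z1])] [],
    .lp [k6,k8,k6,k6,k6] [k1,k1,k0,k0,k1,k1,k1,k1,k1,k1] k0 [] k24 k5
    [[(k1,k6),(k4,k6),(k7,k6),(k8,k6)],[(k5,k6),(k2,k7)],[(k5,k7),(k2,k8)],[(k0,k7),(k3,k8)],[(k0,k6),(k3,k7)],[(k1,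
    k6),(k4,k6),(k7,k6),(k8,k6)],[(k1,k6),(k4,k6),(k7,k6),(k8,k6)],[(k6,k6),(k9,k6)],[(k6,k6),(k9,k6)],[(k1,k6),(k4,
    k6),(k7,k6),(k8,k6)]]
    [] k0
    [[k1,k1,k1,k0,k0]]
    [.ref k0 k0 [(z1,[z1])]]]⟩

/-- classes `0 0 1 2 1`, types `C0 C0 B0 C0 B1` -/
noncomputable def cT5_182 : CertT :=
  ⟨[k4,k4,k24,k36,k25],[(false,k0,[k0,k1,k2,k3,k4])],[[[([z1,z1,z1,z0,z0],z2)],[]]],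
    [.leafM k1 [k2,k3,k4,k0,k1] [(z1,[y1,z1])] [],
    .lp [k4,k4,k2,k2,k4] [k0,k0,k0,k0,k1,k1,k1,k1,k0,k0] k0 [] k12 k5
    [[(k4,k3),(k7,k3)],[(k5,k3),(k3,k4)],[(k0,k4),(k2,k4)],[(k5,k3),(k3,k4)],[(k0,k3),(k2,k3)],[(k1,k3),(k8,k3)],[(k1,
    k3),(k8,k3)],[(k9,k3)],[(k6,k3)],[(k4,k3),(k7,k3)]]
    [] k0
    [[k1,k1,k1,k0,k0]]
    [.ref k0 k0 [(z1,[z1])]]]⟩

/-- classes `0 0 1 2 1`, types `C0 C0 B0 S0 B1` -/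
noncomputable def cT5_183 : CertT :=
  ⟨[k4,k4,k24,k32,k25],[(false,k0,[k0,k1,k2,k3,k4])],[[[([z1,z1,z1,z0,z0],z2)],[]]],
    [.leafM k1 [k2,k3,k4,k0,k1] [(z1,[y1,z1])] [],
    .lp [k6,k8,k6,k6,k6] [k1,k1,k0,k0,k1,k1,k1,k1,k1,k1] k0 [] k24 k5
    [[(k4,k6),(k7,k6)],[(k5,k6),(k3,k7)],[(k0,k7),(k2,k8)],[(k5,k7),(k3,k8)],[(k0,k6),(k2,k7)],[(k1,k6),(k8,k6)],[(k1,
    k6),(k8,k6)],[(k6,k6),(k9,k6)],[(k6,k6),(k9,k6)],[(k4,k6),(k7,k6)]]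
    [] k0
    [[k1,k1,k1,k0,k0]]
    [.ref k0 k0 [(z1,[z1])]]]⟩

/-- classes `0 0 1 2 1`, types `C0 C0 C0 C0 C0` -/
noncomputable def cT5_184 : CertT :=
  ⟨[k4,k4,k20,k36,k20],[(false,k0,[k0,k1,k2,k3,k4])],[[[([z1,z1,z1,z0,z0],z2)],[]]],
    [.leafM k1 [k2,k3,k4,k0,k1] [(z1,[y1,z1])] [],
    .lp [k4,k4,k2,k4,k2] [k0,k0,k0,k0,k1,k1,k0,k0,k1,k1] k0 [] k12 k5
    [[(k4,k3),(k8,k3)],[(k5,k3),(k3,k4)],[(k0,k4),(k2,k4)],[(k5,k3),(k3,k4)],[(k0,k3),(k2,k3)],[(k1,k3),(k7,k3)],[(k4,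
    k3),(k8,k3)],[(k9,k3)],[(k6,k3)],[(k1,k3),(k7,k3)]]
    [] k0
    [[k1,k1,k1,k0,k0]]
    [.ref k0 k0 [(z1,[z1])]]]⟩

/-- classes `0 0 1 2 1`, types `C0 C0 C0 C0 C2` -/
noncomputable def cT5_185 : CertT :=
  ⟨[k4,k4,k20,k36,k22],[],[[[]]],
    [.lp [k6,k8,k6,k6,k6] [k1,k1,k0,k0,k1,k1,k1,k1,k1,k1] k0 [] k24 k5
    [[(k7,k6),(k8,k6)],[(k5,k6),(k3,k7)],[(k0,k7),(k2,k8)],[(k5,k7),(k3,k8)],[(k0,k6),(k2,k7)],[(k7,k6),(k8,k6)],[(k1,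
    k6),(k4,k6)],[(k9,k6)],[(k6,k6)],[(k1,k6),(k4,k6)]]
    [] k0
    []
    []]⟩

/-- classes `0 0 1 2 1`, types `C0 C0 C0 S0 C0` -/
noncomputable def cT5_186 : CertT :=
  ⟨[k4,k4,k20,k32,k20],[(false,k0,[k0,k1,k2,k3,k4])],[[[([z1,z1,z1,z0,z0],z2)],[]]],
    [.leafM k1 [k2,k3,k4,k0,k1] [(z1,[y1,z1])] [],
    .lp [k6,k8,k6,k6,k6] [k1,k1,k0,k0,k1,k1,k1,k1,k1,k1] k0 [] k24 k5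
    [[(k4,k6),(k8,k6)],[(k5,k6),(k3,k7)],[(k0,k7),(k2,k8)],[(k5,k7),(k3,k8)],[(k0,k6),(k2,k7)],[(k1,k6),(k7,k6)],[(k4,
    k6),(k8,k6)],[(k6,k6),(k9,k6)],[(k6,k6),(k9,k6)],[(k1,k6),(k7,k6)]]
    [] k0
    [[k1,k1,k1,k0,k0]]
    [.ref k0 k0 [(z1,[z1])]]]⟩

/-- classes `0 0 1 2 1`, types `C0 C0 C0 S0 C2` -/
noncomputable def cT5_187 : CertT :=
  ⟨[k4,k4,k20,k32,k22],[],[[[]]],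
    [.lp [k6,k8,k6,k6,k6] [k1,k1,k0,k0,k1,k1,k1,k1,k1,k1] k0 [] k24 k5
    [[(k7,k6),(k8,k6)],[(k5,k6),(k3,k7)],[(k0,k7),(k2,k8)],[(k5,k7),(k3,k8)],[(k0,k6),(k2,k7)],[(k7,k6),(k8,k6)],[(k1,
    k6),(k4,k6)],[(k6,k6),(k9,k6)],[(k6,k6),(k9,k6)],[(k1,k6),(k4,k6)]]
    [] k0
    []
    []]⟩

/-- classes `0 0 1 2 1`, types `C0 C0 N0 C0 N1` -/
noncomputable def cT5_188 : CertT :=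
  ⟨[k4,k4,k28,k36,k29],[(false,k0,[k0,k1,k2,k3,k4])],[[[([z1,z1,z1,z0,z0],z2)],[]]],
    [.leafM k1 [k2,k3,k4,k0,k1] [(z1,[y1,z1])] [],
    .lp [k4,k4,k2,k6,k0] [k1,k1,k1,k1,k2,k2,k0,k0,k3,k3] k0 [] k12 k5
    [[(k4,k3)],[(k5,k3),(k3,k4)],[(k0,k4),(k2,k4)],[(k5,k3),(k3,k4)],[(k0,k3),(k2,k3)],[(k1,k3)],[(k8,k3)],[(k9,k3)],
    [(k6,k3)],[(k7,k3)]]
    [] k0
    [[k1,k1,k1,k0,k0]]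
    [.ref k0 k0 [(z1,[z1])]]]⟩

/-- classes `0 0 1 2 1`, types `C0 C0 N0 C0 N2` -/
noncomputable def cT5_189 : CertT :=
  ⟨[k4,k4,k28,k36,k30],[],[[[]]],
    [.lp [k4,k4,k2,k2,k4] [k0,k0,k0,k0,k1,k1,k1,k1,k0,k0] k0 [] k12 k5
    [[(k7,k3)],[(k5,k3),(k3,k4)],[(k0,k4),(k2,k4)],[(k5,k3),(k3,k4)],[(k0,k3),(k2,k3)],[(k8,k3)],[(k1,k3)],[(k9,k3)],
    [(k6,k3)],[(k4,k3)]]
    [] k0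
    []
    []]⟩

/-- classes `0 0 1 2 1`, types `C0 C0 N0 S0 N1` -/
noncomputable def cT5_190 : CertT :=
  ⟨[k4,k4,k28,k32,k29],[(false,k0,[k0,k1,k2,k3,k4])],[[[([z1,z1,z1,z0,z0],z2)],[]]],
    [.leafM k1 [k2,k3,k4,k0,k1] [(z1,[y1,z1])] [],
    .lp [k8,k8,k4,k6,k6] [k0,k0,k0,k0,k2,k2,k1,k1,k1,k1] k0 [] k24 k5
    [[(k4,k6)],[(k5,k6),(k3,k8)],[(k0,k8),(k2,k8)],[(k5,k6),(k3,k8)],[(k0,k6),(k2,k6)],[(k1,k6)],[(k8,k6)],[(k6,k6),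
    (k9,k6)],[(k6,k6),(k9,k6)],[(k7,k6)]]
    [] k0
    [[k1,k1,k1,k0,k0]]
    [.ref k0 k0 [(z1,[z1])]]]⟩

/-- classes `0 0 1 2 1`, types `C0 C0 N0 S0 N2` -/
noncomputable def cT5_191 : CertT :=
  ⟨[k4,k4,k28,k32,k30],[],[[[]]],
    [.lp [k6,k8,k6,k6,k6] [k1,k1,k0,k0,k1,k1,k1,k1,k1,k1] k0 [] k24 k5
    [[(k7,k6)],[(k5,k6),(k3,k7)],[(k0,k7),(k2,k8)],[(k5,k7),(k3,k8)],[(k0,k6),(k2,k7)],[(k8,k6)],[(k1,k6)],[(k6,k6),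
    (k9,k6)],[(k6,k6),(k9,k6)],[(k4,k6)]]
    [] k0
    []
    []]⟩

/-- classes `0 0 1 2 1`, types `C0 C0 S0 C0 S0` -/
noncomputable def cT5_192 : CertT :=
  ⟨[k4,k4,k16,k36,k16],[(false,k0,[k0,k1,k2,k3,k4])],[[[([z1,z1,z1,z0,z0],z2)],[]]],
    [.leafM k0 [k3,k4,k0,k1,k2] [(z1,[y1,z1])] [],
    .lp [k6,k8,k6,k6,k6] [k1,k1,k0,k0,k1,k1,k1,k1,k1,k1] k0 [] k24 k5
    [[(k1,k6),(k4,k6),(k7,k6),(k8,k6)],[(k5,k6),(k3,k7)],[(k0,k7),(k2,k8)],[(k5,k7),(k3,k8)],[(k0,k6),(k2,k7)],[(k1,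
    k6),(k4,k6),(k7,k6),(k8,k6)],[(k1,k6),(k4,k6),(k7,k6),(k8,k6)],[(k9,k6)],[(k6,k6)],[(k1,k6),(k4,k6),(k7,k6),(k8,
    k6)]]
    [] k0
    [[k1,k1,k1,k0,k0]]
    [.ref k0 k0 [(z1,[z1])]]]⟩

/-- classes `0 0 1 2 1`, types `C0 C0 S0 S0 S0` -/
noncomputable def cT5_193 : CertT :=
  ⟨[k4,k4,k16,k32,k16],[(false,k0,[k0,k1,k2,k3,k4])],[[[([z1,z1,z1,z0,z0],z2)],[]]],
    [.leafM k0 [k3,k4,k0,k1,k2] [(z1,[y1,z1])] [],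
    .lp [k6,k8,k6,k6,k6] [k1,k1,k0,k0,k1,k1,k1,k1,k1,k1] k0 [] k24 k5
    [[(k1,k6),(k4,k6),(k7,k6),(k8,k6)],[(k5,k6),(k3,k7)],[(k0,k7),(k2,k8)],[(k5,k7),(k3,k8)],[(k0,k6),(k2,k7)],[(k1,
    k6),(k4,k6),(k7,k6),(k8,k6)],[(k1,k6),(k4,k6),(k7,k6),(k8,k6)],[(k6,k6),(k9,k6)],[(k6,k6),(k9,k6)],[(k1,k6),(k4,
    k6),(k7,k6),(k8,k6)]]
    [] k0
    [[k1,k1,k1,k0,k0]]
    [.ref k0 k0 [(z1,[z1])]]]⟩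

/-- classes `0 0 1 2 1`, types `C0 C2 B0 C0 B1` -/
noncomputable def cT5_194 : CertT :=
  ⟨[k4,k6,k24,k36,k25],[(false,k0,[k0,k1,k2,k3,k4])],[[[([z1,z1,z1,z0,z0],z2)],[]]],
    [.leafM k1 [k2,k3,k4,k0,k1] [(z1,[y1,z1])] [],
    .lp [k2,k2,k2,k2,k2] [k0,k0,k0,k0,k0,k0,k0,k0,k0,k0] k0 [] k8 k5
    [[(k4,k2),(k7,k2)],[(k2,k2),(k3,k2)],[(k0,k2),(k5,k2)],[(k0,k2),(k5,k2)],[(k2,k2),(k3,k2)],[(k1,k2),(k8,k2)],[(k1,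
    k2),(k8,k2)],[(k9,k2)],[(k6,k2)],[(k4,k2),(k7,k2)]]
    [] k0
    [[k1,k1,k1,k0,k0]]
    [.ref k0 k0 [(z1,[z1])]]]⟩

/-- classes `0 0 1 2 1`, types `C0 C2 B0 S0 B1` -/
noncomputable def cT5_195 : CertT :=
  ⟨[k4,k6,k24,k32,k25],[(false,k0,[k0,k1,k2,k3,k4])],[[[([z1,z1,z1,z0,z0],z2)],[]]],
    [.leafM k1 [k2,k3,k4,k0,k1] [(z1,[y1,z1])] [],
    .lp [k2,k2,k2,k2,k2] [k0,k0,k0,k0,k0,k0,k0,k0,k0,k0] k0 [] k8 k5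
    [[(k4,k2),(k7,k2)],[(k2,k2),(k3,k2)],[(k0,k2),(k5,k2)],[(k0,k2),(k5,k2)],[(k2,k2),(k3,k2)],[(k1,k2),(k8,k2)],[(k1,
    k2),(k8,k2)],[(k6,k2),(k9,k2)],[(k6,k2),(k9,k2)],[(k4,k2),(k7,k2)]]
    [] k0
    [[k1,k1,k1,k0,k0]]
    [.ref k0 k0 [(z1,[z1])]]]⟩

/-- classes `0 0 1 2 1`, types `C0 C2 C0 C0 C0` -/
noncomputable def cT5_196 : CertT :=
  ⟨[k4,k6,k20,k36,k20],[(false,k0,[k0,k1,k2,k3,k4])],[[[([z1,z1,z1,z0,z0],z2)],[]]],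
    [.leafM k1 [k2,k3,k4,k0,k1] [(z1,[y1,z1])] [],
    .lp [k2,k2,k2,k2,k2] [k0,k0,k0,k0,k0,k0,k0,k0,k0,k0] k0 [] k8 k5
    [[(k4,k2),(k8,k2)],[(k2,k2),(k3,k2)],[(k0,k2),(k5,k2)],[(k0,k2),(k5,k2)],[(k2,k2),(k3,k2)],[(k1,k2),(k7,k2)],[(k4,
    k2),(k8,k2)],[(k9,k2)],[(k6,k2)],[(k1,k2),(k7,k2)]]
    [] k0
    [[k1,k1,k1,k0,k0]]
    [.ref k0 k0 [(z1,[z1])]]]⟩

/-- classes `0 0 1 2 1`, types `C0 C2 C0 C0 C2` -/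
noncomputable def cT5_197 : CertT :=
  ⟨[k4,k6,k20,k36,k22],[],[[[]]],
    [.lp [k2,k2,k2,k2,k2] [k0,k0,k0,k0,k0,k0,k0,k0,k0,k0] k0 [] k8 k5
    [[(k7,k2),(k8,k2)],[(k2,k2),(k3,k2)],[(k0,k2),(k5,k2)],[(k0,k2),(k5,k2)],[(k2,k2),(k3,k2)],[(k7,k2),(k8,k2)],[(k1,
    k2),(k4,k2)],[(k9,k2)],[(k6,k2)],[(k1,k2),(k4,k2)]]
    [] k0
    []
    []]⟩

/-- classes `0 0 1 2 1`, types `C0 C2 C0 S0 C0` -/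
noncomputable def cT5_198 : CertT :=
  ⟨[k4,k6,k20,k32,k20],[(false,k0,[k0,k1,k2,k3,k4])],[[[([z1,z1,z1,z0,z0],z2)],[]]],
    [.leafM k1 [k2,k3,k4,k0,k1] [(z1,[y1,z1])] [],
    .lp [k2,k2,k2,k2,k2] [k0,k0,k0,k0,k0,k0,k0,k0,k0,k0] k0 [] k8 k5
    [[(k4,k2),(k8,k2)],[(k2,k2),(k3,k2)],[(k0,k2),(k5,k2)],[(k0,k2),(k5,k2)],[(k2,k2),(k3,k2)],[(k1,k2),(k7,k2)],[(k4,
    k2),(k8,k2)],[(k6,k2),(k9,k2)],[(k6,k2),(k9,k2)],[(k1,k2),(k7,k2)]]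
    [] k0
    [[k1,k1,k1,k0,k0]]
    [.ref k0 k0 [(z1,[z1])]]]⟩

/-- classes `0 0 1 2 1`, types `C0 C2 C0 S0 C2` -/
noncomputable def cT5_199 : CertT :=
  ⟨[k4,k6,k20,k32,k22],[],[[[]]],
    [.lp [k2,k2,k2,k2,k2] [k0,k0,k0,k0,k0,k0,k0,k0,k0,k0] k0 [] k8 k5
    [[(k7,k2),(k8,k2)],[(k2,k2),(k3,k2)],[(k0,k2),(k5,k2)],[(k0,k2),(k5,k2)],[(k2,k2),(k3,k2)],[(k7,k2),(k8,k2)],[(k1,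
    k2),(k4,k2)],[(k6,k2),(k9,k2)],[(k6,k2),(k9,k2)],[(k1,k2),(k4,k2)]]
    [] k0
    []
    []]⟩

/-- classes `0 0 1 2 1`, types `C0 C2 N0 C0 N1` -/
noncomputable def cT5_200 : CertT :=
  ⟨[k4,k6,k28,k36,k29],[(false,k0,[k0,k1,k2,k3,k4])],[[[([z1,z1,z1,z0,z0],z2)],[]]],
    [.leafM k1 [k2,k3,k4,k0,k1] [(z1,[y1,z1])] [],
    .lp [k2,k2,k2,k4,k0] [k1,k1,k1,k1,k1,k1,k0,k0,k2,k2] k0 [] k8 k5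
    [[(k4,k2)],[(k2,k2),(k3,k2)],[(k0,k2),(k5,k2)],[(k0,k2),(k5,k2)],[(k2,k2),(k3,k2)],[(k1,k2)],[(k8,k2)],[(k9,k2)],
    [(k6,k2)],[(k7,k2)]]
    [] k0
    [[k1,k1,k1,k0,k0]]
    [.ref k0 k0 [(z1,[z1])]]]⟩

/-- classes `0 0 1 2 1`, types `C0 C2 N0 C0 N2` -/
noncomputable def cT5_201 : CertT :=
  ⟨[k4,k6,k28,k36,k30],[],[[[]]],
    [.lp [k2,k2,k2,k2,k2] [k0,k0,k0,k0,k0,k0,k0,k0,k0,k0] k0 [] k8 k5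
    [[(k7,k2)],[(k2,k2),(k3,k2)],[(k0,k2),(k5,k2)],[(k0,k2),(k5,k2)],[(k2,k2),(k3,k2)],[(k8,k2)],[(k1,k2)],[(k9,k2)],
    [(k6,k2)],[(k4,k2)]]
    [] k0
    []
    []]⟩

/-- classes `0 0 1 2 1`, types `C0 C2 N0 S0 N1` -/
noncomputable def cT5_202 : CertT :=
  ⟨[k4,k6,k28,k32,k29],[(false,k0,[k0,k1,k2,k3,k4])],[[[([z1,z1,z1,z0,z0],z2)],[]]],
    [.leafM k1 [k2,k3,k4,k0,k1] [(z1,[y1,z1])] [],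
    .lp [k2,k2,k2,k2,k2] [k0,k0,k0,k0,k0,k0,k0,k0,k0,k0] k0 [] k8 k5
    [[(k4,k2)],[(k2,k2),(k3,k2)],[(k0,k2),(k5,k2)],[(k0,k2),(k5,k2)],[(k2,k2),(k3,k2)],[(k1,k2)],[(k8,k2)],[(k6,k2),
    (k9,k2)],[(k6,k2),(k9,k2)],[(k7,k2)]]
    [] k0
    [[k1,k1,k1,k0,k0]]
    [.ref k0 k0 [(z1,[z1])]]]⟩

/-- classes `0 0 1 2 1`, types `C0 C2 N0 S0 N2` -/
noncomputable def cT5_203 : CertT :=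
  ⟨[k4,k6,k28,k32,k30],[],[[[]]],
    [.lp [k2,k2,k2,k2,k2] [k0,k0,k0,k0,k0,k0,k0,k0,k0,k0] k0 [] k8 k5
    [[(k7,k2)],[(k2,k2),(k3,k2)],[(k0,k2),(k5,k2)],[(k0,k2),(k5,k2)],[(k2,k2),(k3,k2)],[(k8,k2)],[(k1,k2)],[(k6,k2),
    (k9,k2)],[(k6,k2),(k9,k2)],[(k4,k2)]]
    [] k0
    []
    []]⟩

/-- classes `0 0 1 2 1`, types `C0 C2 S0 C0 S0` -/
noncomputable def cT5_204 : CertT :=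
  ⟨[k4,k6,k16,k36,k16],[(false,k0,[k0,k1,k2,k3,k4])],[[[([z1,z1,z1,z0,z0],z2)],[]]],
    [.leafM k0 [k3,k4,k0,k1,k2] [(z1,[y1,z1])] [],
    .lp [k10,k0,k10,k4,k4] [k0,k0,k5,k5,k0,k0,k3,k3,k3,k3] k0 [] k20 k6
    [[(k7,k7),(k8,k7),(k1,k10),(k4,k10)],[(k2,k5),(k3,k5)],[(k0,k5),(k5,k5)],[(k0,k5),(k5,k5)],[(k2,k5),(k3,k5)],[(k7,
    k7),(k8,k7),(k1,k10),(k4,k10)],[(k7,k4),(k8,k4),(k1,k7),(k4,k7)],[(k9,k4)],[(k6,k4)],[(k7,k4),(k8,k4),(k1,k7),(k4,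
    k7)]]
    [] k0
    [[k0,k0,k0,k2,k2]]
    [.ref k0 k0 [(z2,[y1,z2])]]]⟩

/-- classes `0 0 1 2 1`, types `C0 C2 S0 S0 S0` -/
noncomputable def cT5_205 : CertT :=
  ⟨[k4,k6,k16,k32,k16],[(false,k0,[k0,k1,k2,k3,k4])],[[[([z1,z0,y1,z0,z0],z0),([z0,z1,z2,z0,z0],z2)],[([z1,z0,y1,y1,
    y1],y1)],[([z1,z1,z1,z0,z0],z2)],[]]],
    [.leafM k0 [k3,k4,k0,k1,k2] [(z1,[y1,y1,z1])] [],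
    .lp [k6,k4,k4,k4,k4] [k0,k0,k1,k1,k1,k1,k1,k1,k1,k1] k0 [] k16 k5
    [[(k4,k5),(k7,k5),(k8,k5),(k1,k6)],[(k2,k5),(k3,k5)],[(k5,k4),(k0,k5)],[(k5,k4),(k0,k5)],[(k2,k4),(k3,k4)],[(k4,
    k4),(k7,k4),(k8,k4),(k1,k5)],[(k4,k4),(k7,k4),(k8,k4),(k1,k5)],[(k6,k4),(k9,k4)],[(k6,k4),(k9,k4)],[(k4,k4),(k7,
    k4),(k8,k4),(k1,k5)]]
    [] k0
    [[k1,k1,k1,k0,k0],[k0,k1,k2,k0,k0]]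
    [.ref k0 k0 [(z1,[y1,z1,z1]),(z1,[z2,y1,y1])],.ref k0 k0 [(z2,[y1,z1,z1]),(z1,[z1])]],
    .leafM k0 [k3,k4,k0,k1,k2] [(z1,[y1,z1])] [],
    .lp [k4,k4,k6,k4,k4] [k1,k1,k1,k1,k0,k0,k1,k1,k1,k1] k0 [] k16 k5
    [[(k1,k4),(k7,k4),(k8,k4),(k4,k5)],[(k2,k4),(k3,k4)],[(k0,k4),(k5,k5)],[(k0,k4),(k5,k5)],[(k2,k5),(k3,k5)],[(k1,
    k5),(k7,k5),(k8,k5),(k4,k6)],[(k1,k4),(k7,k4),(k8,k4),(k4,k5)],[(k6,k4),(k9,k4)],[(k6,k4),(k9,k4)],[(k1,k4),(k7,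
    k4),(k8,k4),(k4,k5)]]
    [] k0
    [[k2,k1,k0,k0,k0],[k1,k1,k1,k0,k0]]
    [.ref k1 k0 [(z1,[z1,y1])],.ref k2 k0 [(z1,[z1])]]]⟩

/-- classes `0 0 1 2 1`, types `N0 N1 B0 C0 B1` -/
noncomputable def cT5_206 : CertT :=
  ⟨[k12,k13,k24,k36,k25],[],[[[]]],
    [.lp [k6,k4,k0,k0,k6] [k0,k0,k1,k1,k3,k3,k3,k3,k0,k0] k0 [] k12 k5
    [[(k4,k3),(k7,k3)],[(k5,k3)],[(k2,k4)],[(k3,k4)],[(k0,k3)],[(k1,k3),(k8,k3)],[(k1,k3),(k8,k3)],[(k9,k3)],[(k6,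
    k3)],[(k4,k3),(k7,k3)]]
    [] k0
    []
    []]⟩

/-- classes `0 0 1 2 1`, types `N0 N1 B0 S0 B1` -/
noncomputable def cT5_207 : CertT :=
  ⟨[k12,k13,k24,k32,k25],[],[[[]]],
    [.lp [k6,k8,k6,k6,k6] [k1,k1,k0,k0,k1,k1,k1,k1,k1,k1] k0 [] k24 k5
    [[(k4,k6),(k7,k6)],[(k5,k6)],[(k2,k8)],[(k3,k8)],[(k0,k6)],[(k1,k6),(k8,k6)],[(k1,k6),(k8,k6)],[(k6,k6),(k9,k6)],
    [(k6,k6),(k9,k6)],[(k4,k6),(k7,k6)]]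
    [] k0
    []
    []]⟩

/-- classes `0 0 1 2 1`, types `N0 N1 C0 C0 C0` -/
noncomputable def cT5_208 : CertT :=
  ⟨[k12,k13,k20,k36,k20],[],[[[]]],
    [.lp [k6,k4,k0,k6,k0] [k0,k0,k1,k1,k3,k3,k0,k0,k3,k3] k0 [] k12 k5
    [[(k4,k3),(k8,k3)],[(k5,k3)],[(k2,k4)],[(k3,k4)],[(k0,k3)],[(k1,k3),(k7,k3)],[(k4,k3),(k8,k3)],[(k9,k3)],[(k6,
    k3)],[(k1,k3),(k7,k3)]]
    [] k0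
    []
    []]⟩

/-- classes `0 0 1 2 1`, types `N0 N1 C0 C0 C2` -/
noncomputable def cT5_209 : CertT :=
  ⟨[k12,k13,k20,k36,k22],[],[[[]]],
    [.lp [k6,k8,k6,k6,k6] [k1,k1,k0,k0,k1,k1,k1,k1,k1,k1] k0 [] k24 k5
    [[(k7,k6),(k8,k6)],[(k5,k6)],[(k2,k8)],[(k3,k8)],[(k0,k6)],[(k7,k6),(k8,k6)],[(k1,k6),(k4,k6)],[(k9,k6)],[(k6,
    k6)],[(k1,k6),(k4,k6)]]
    [] k0
    []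
    []]⟩

/-- classes `0 0 1 2 1`, types `N0 N1 C0 S0 C0` -/
noncomputable def cT5_210 : CertT :=
  ⟨[k12,k13,k20,k32,k20],[],[[[]]],
    [.lp [k6,k8,k6,k6,k6] [k1,k1,k0,k0,k1,k1,k1,k1,k1,k1] k0 [] k24 k5
    [[(k4,k6),(k8,k6)],[(k5,k6)],[(k2,k8)],[(k3,k8)],[(k0,k6)],[(k1,k6),(k7,k6)],[(k4,k6),(k8,k6)],[(k6,k6),(k9,k6)],
    [(k6,k6),(k9,k6)],[(k1,k6),(k7,k6)]]
    [] k0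
    []
    []]⟩

/-- classes `0 0 1 2 1`, types `N0 N1 C0 S0 C2` -/
noncomputable def cT5_211 : CertT :=
  ⟨[k12,k13,k20,k32,k22],[],[[[]]],
    [.lp [k6,k8,k6,k6,k6] [k1,k1,k0,k0,k1,k1,k1,k1,k1,k1] k0 [] k24 k5
    [[(k7,k6),(k8,k6)],[(k5,k6)],[(k2,k8)],[(k3,k8)],[(k0,k6)],[(k7,k6),(k8,k6)],[(k1,k6),(k4,k6)],[(k6,k6),(k9,k6)],
    [(k6,k6),(k9,k6)],[(k1,k6),(k4,k6)]]
    [] k0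
    []
    []]⟩

/-- classes `0 0 1 2 1`, types `N0 N1 N0 C0 N1` -/
noncomputable def cT5_212 : CertT :=
  ⟨[k12,k13,k28,k36,k29],[],[[[]]],
    [.lp [k6,k4,k0,k6,k0] [k0,k0,k1,k1,k3,k3,k0,k0,k3,k3] k0 [] k12 k5
    [[(k4,k3)],[(k5,k3)],[(k2,k4)],[(k3,k4)],[(k0,k3)],[(k1,k3)],[(k8,k3)],[(k9,k3)],[(k6,k3)],[(k7,k3)]]
    [] k0
    []
    []]⟩

/-- classes `0 0 1 2 1`, types `N0 N1 N0 C0 N2` -/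
noncomputable def cT5_213 : CertT :=
  ⟨[k12,k13,k28,k36,k30],[],[[[]]],
    [.lp [k6,k4,k0,k0,k6] [k0,k0,k1,k1,k3,k3,k3,k3,k0,k0] k0 [] k12 k5
    [[(k7,k3)],[(k5,k3)],[(k2,k4)],[(k3,k4)],[(k0,k3)],[(k8,k3)],[(k1,k3)],[(k9,k3)],[(k6,k3)],[(k4,k3)]]
    [] k0
    []
    []]⟩

/-- classes `0 0 1 2 1`, types `N0 N1 N0 S0 N1` -/
noncomputable def cT5_214 : CertT :=
  ⟨[k12,k13,k28,k32,k29],[],[[[]]],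
    [.lp [k12,k8,k0,k6,k6] [k0,k0,k2,k2,k6,k6,k3,k3,k3,k3] k0 [] k24 k5
    [[(k4,k6)],[(k5,k6)],[(k2,k8)],[(k3,k8)],[(k0,k6)],[(k1,k6)],[(k8,k6)],[(k6,k6),(k9,k6)],[(k6,k6),(k9,k6)],[(k7,
    k6)]]
    [] k0
    []
    []]⟩

/-- classes `0 0 1 2 1`, types `N0 N1 N0 S0 N2` -/
noncomputable def cT5_215 : CertT :=
  ⟨[k12,k13,k28,k32,k30],[],[[[]]],
    [.lp [k6,k8,k6,k6,k6] [k1,k1,k0,k0,k1,k1,k1,k1,k1,k1] k0 [] k24 k5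
    [[(k7,k6)],[(k5,k6)],[(k2,k8)],[(k3,k8)],[(k0,k6)],[(k8,k6)],[(k1,k6)],[(k6,k6),(k9,k6)],[(k6,k6),(k9,k6)],[(k4,
    k6)]]
    [] k0
    []
    []]⟩

/-- classes `0 0 1 2 1`, types `N0 N1 S0 C0 S0` -/
noncomputable def cT5_216 : CertT :=
  ⟨[k12,k13,k16,k36,k16],[],[[[]]],
    [.lp [k6,k8,k6,k6,k6] [k1,k1,k0,k0,k1,k1,k1,k1,k1,k1] k0 [] k24 k5
    [[(k1,k6),(k4,k6),(k7,k6),(k8,k6)],[(k5,k6)],[(k2,k8)],[(k3,k8)],[(k0,k6)],[(k1,k6),(k4,k6),(k7,k6),(k8,k6)],[(k1,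
    k6),(k4,k6),(k7,k6),(k8,k6)],[(k9,k6)],[(k6,k6)],[(k1,k6),(k4,k6),(k7,k6),(k8,k6)]]
    [] k0
    []
    []]⟩

/-- classes `0 0 1 2 1`, types `N0 N1 S0 S0 S0` -/
noncomputable def cT5_217 : CertT :=
  ⟨[k12,k13,k16,k32,k16],[],[[[]]],
    [.lp [k6,k8,k6,k6,k6] [k1,k1,k0,k0,k1,k1,k1,k1,k1,k1] k0 [] k24 k5
    [[(k1,k6),(k4,k6),(k7,k6),(k8,k6)],[(k5,k6)],[(k2,k8)],[(k3,k8)],[(k0,k6)],[(k1,k6),(k4,k6),(k7,k6),(k8,k6)],[(k1,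
    k6),(k4,k6),(k7,k6),(k8,k6)],[(k6,k6),(k9,k6)],[(k6,k6),(k9,k6)],[(k1,k6),(k4,k6),(k7,k6),(k8,k6)]]
    [] k0
    []
    []]⟩

/-- classes `0 0 1 2 1`, types `N0 N2 B0 C0 B1` -/
noncomputable def cT5_218 : CertT :=
  ⟨[k12,k14,k24,k36,k25],[(false,k0,[k0,k1,k2,k3,k4])],[[[([z1,z1,z1,z0,z0],z2)],[]]],
    [.leafM k3 [k0,k1,k2,k3,k4] [(z1,[y1,z1])] [],
    .lp [k2,k2,k2,k2,k2] [k0,k0,k0,k0,k0,k0,k0,k0,k0,k0] k0 [] k8 k5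
    [[(k4,k2),(k7,k2)],[(k2,k2)],[(k5,k2)],[(k0,k2)],[(k3,k2)],[(k1,k2),(k8,k2)],[(k1,k2),(k8,k2)],[(k9,k2)],[(k6,
    k2)],[(k4,k2),(k7,k2)]]
    [] k0
    [[k1,k1,k1,k0,k0]]
    [.ref k0 k0 [(z1,[z1])]]]⟩

/-- classes `0 0 1 2 1`, types `N0 N2 B0 S0 B1` -/
noncomputable def cT5_219 : CertT :=
  ⟨[k12,k14,k24,k32,k25],[(false,k0,[k0,k1,k2,k3,k4])],[[[([z1,z1,z1,z0,z0],z2)],[]]],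
    [.leafM k3 [k0,k1,k2,k3,k4] [(z1,[y1,z1])] [],
    .lp [k2,k2,k2,k2,k2] [k0,k0,k0,k0,k0,k0,k0,k0,k0,k0] k0 [] k8 k5
    [[(k4,k2),(k7,k2)],[(k2,k2)],[(k5,k2)],[(k0,k2)],[(k3,k2)],[(k1,k2),(k8,k2)],[(k1,k2),(k8,k2)],[(k6,k2),(k9,k2)],
    [(k6,k2),(k9,k2)],[(k4,k2),(k7,k2)]]
    [] k0
    [[k1,k1,k1,k0,k0]]
    [.ref k0 k0 [(z1,[z1])]]]⟩

/-- classes `0 0 1 2 1`, types `N0 N2 C0 C0 C0` -/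
noncomputable def cT5_220 : CertT :=
  ⟨[k12,k14,k20,k36,k20],[(false,k0,[k0,k1,k2,k3,k4])],[[[([z1,z1,z1,z0,z0],z2)],[]]],
    [.leafM k3 [k0,k1,k2,k3,k4] [(z1,[y1,z1])] [],
    .lp [k2,k2,k2,k2,k2] [k0,k0,k0,k0,k0,k0,k0,k0,k0,k0] k0 [] k8 k5
    [[(k4,k2),(k8,k2)],[(k2,k2)],[(k5,k2)],[(k0,k2)],[(k3,k2)],[(k1,k2),(k7,k2)],[(k4,k2),(k8,k2)],[(k9,k2)],[(k6,
    k2)],[(k1,k2),(k7,k2)]]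
    [] k0
    [[k1,k1,k1,k0,k0]]
    [.ref k0 k0 [(z1,[z1])]]]⟩

/-- classes `0 0 1 2 1`, types `N0 N2 C0 C0 C2` -/
noncomputable def cT5_221 : CertT :=
  ⟨[k12,k14,k20,k36,k22],[],[[[]]],
    [.lp [k2,k2,k2,k2,k2] [k0,k0,k0,k0,k0,k0,k0,k0,k0,k0] k0 [] k8 k5
    [[(k7,k2),(k8,k2)],[(k2,k2)],[(k5,k2)],[(k0,k2)],[(k3,k2)],[(k7,k2),(k8,k2)],[(k1,k2),(k4,k2)],[(k9,k2)],[(k6,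
    k2)],[(k1,k2),(k4,k2)]]
    [] k0
    []
    []]⟩

/-- classes `0 0 1 2 1`, types `N0 N2 C0 S0 C0` -/
noncomputable def cT5_222 : CertT :=
  ⟨[k12,k14,k20,k32,k20],[(false,k0,[k0,k1,k2,k3,k4])],[[[([z1,z1,z1,z0,z0],z2)],[]]],
    [.leafM k3 [k0,k1,k2,k3,k4] [(z1,[y1,z1])] [],
    .lp [k2,k2,k2,k2,k2] [k0,k0,k0,k0,k0,k0,k0,k0,k0,k0] k0 [] k8 k5
    [[(k4,k2),(k8,k2)],[(k2,k2)],[(k5,k2)],[(k0,k2)],[(k3,k2)],[(k1,k2),(k7,k2)],[(k4,k2),(k8,k2)],[(k6,k2),(k9,k2)],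
    [(k6,k2),(k9,k2)],[(k1,k2),(k7,k2)]]
    [] k0
    [[k1,k1,k1,k0,k0]]
    [.ref k0 k0 [(z1,[z1])]]]⟩

/-- classes `0 0 1 2 1`, types `N0 N2 C0 S0 C2` -/
noncomputable def cT5_223 : CertT :=
  ⟨[k12,k14,k20,k32,k22],[],[[[]]],
    [.lp [k2,k2,k2,k2,k2] [k0,k0,k0,k0,k0,k0,k0,k0,k0,k0] k0 [] k8 k5
    [[(k7,k2),(k8,k2)],[(k2,k2)],[(k5,k2)],[(k0,k2)],[(k3,k2)],[(k7,k2),(k8,k2)],[(k1,k2),(k4,k2)],[(k6,k2),(k9,k2)],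
    [(k6,k2),(k9,k2)],[(k1,k2),(k4,k2)]]
    [] k0
    []
    []]⟩

/-- classes `0 0 1 2 1`, types `N0 N2 N0 C0 N1` -/
noncomputable def cT5_224 : CertT :=
  ⟨[k12,k14,k28,k36,k29],[(false,k0,[k0,k1,k2,k3,k4])],[[[([z1,z1,z1,z0,z0],z2)],[]]],
    [.leafM k3 [k0,k1,k2,k3,k4] [(z1,[y1,z1])] [],
    .lp [k2,k2,k2,k4,k0] [k1,k1,k1,k1,k1,k1,k0,k0,k2,k2] k0 [] k8 k5
    [[(k4,k2)],[(k2,k2)],[(k5,k2)],[(k0,k2)],[(k3,k2)],[(k1,k2)],[(k8,k2)],[(k9,k2)],[(k6,k2)],[(k7,k2)]]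
    [] k0
    [[k1,k1,k1,k0,k0]]
    [.ref k0 k0 [(z1,[z1])]]]⟩

/-- classes `0 0 1 2 1`, types `N0 N2 N0 C0 N2` -/
noncomputable def cT5_225 : CertT :=
  ⟨[k12,k14,k28,k36,k30],[],[[[]]],
    [.lp [k2,k2,k2,k2,k2] [k0,k0,k0,k0,k0,k0,k0,k0,k0,k0] k0 [] k8 k5
    [[(k7,k2)],[(k2,k2)],[(k5,k2)],[(k0,k2)],[(k3,k2)],[(k8,k2)],[(k1,k2)],[(k9,k2)],[(k6,k2)],[(k4,k2)]]
    [] k0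
    []
    []]⟩

/-- classes `0 0 1 2 1`, types `N0 N2 N0 S0 N1` -/
noncomputable def cT5_226 : CertT :=
  ⟨[k12,k14,k28,k32,k29],[(false,k0,[k0,k1,k2,k3,k4])],[[[([z1,z1,z1,z0,z0],z2)],[]]],
    [.leafM k3 [k0,k1,k2,k3,k4] [(z1,[y1,z1])] [],
    .lp [k2,k2,k2,k2,k2] [k0,k0,k0,k0,k0,k0,k0,k0,k0,k0] k0 [] k8 k5
    [[(k4,k2)],[(k2,k2)],[(k5,k2)],[(k0,k2)],[(k3,k2)],[(k1,k2)],[(k8,k2)],[(k6,k2),(k9,k2)],[(k6,k2),(k9,k2)],[(k7,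
    k2)]]
    [] k0
    [[k1,k1,k1,k0,k0]]
    [.ref k0 k0 [(z1,[z1])]]]⟩

/-- classes `0 0 1 2 1`, types `N0 N2 N0 S0 N2` -/
noncomputable def cT5_227 : CertT :=
  ⟨[k12,k14,k28,k32,k30],[],[[[]]],
    [.lp [k2,k2,k2,k2,k2] [k0,k0,k0,k0,k0,k0,k0,k0,k0,k0] k0 [] k8 k5
    [[(k7,k2)],[(k2,k2)],[(k5,k2)],[(k0,k2)],[(k3,k2)],[(k8,k2)],[(k1,k2)],[(k6,k2),(k9,k2)],[(k6,k2),(k9,k2)],[(k4,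
    k2)]]
    [] k0
    []
    []]⟩

/-- classes `0 0 1 2 1`, types `N0 N2 S0 C0 S0` -/
noncomputable def cT5_228 : CertT :=
  ⟨[k12,k14,k16,k36,k16],[(false,k0,[k0,k1,k2,k3,k4])],[[[([z1,z1,z1,z0,z0],z2)],[]]],
    [.leafM k3 [k0,k1,k2,k3,k4] [(z1,[y1,z1])] [],
    .lp [k2,k2,k2,k2,k2] [k0,k0,k0,k0,k0,k0,k0,k0,k0,k0] k0 [] k8 k5
    [[(k1,k2),(k4,k2),(k7,k2),(k8,k2)],[(k2,k2)],[(k5,k2)],[(k0,k2)],[(k3,k2)],[(k1,k2),(k4,k2),(k7,k2),(k8,k2)],[(k1,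
    k2),(k4,k2),(k7,k2),(k8,k2)],[(k9,k2)],[(k6,k2)],[(k1,k2),(k4,k2),(k7,k2),(k8,k2)]]
    [] k0
    [[k1,k1,k1,k0,k0]]
    [.ref k0 k0 [(z1,[z1])]]]⟩

/-- the certificates of this file -/
noncomputable def lT5_2 : List CertT :=
  [cT5_78, cT5_79, cT5_80, cT5_81, cT5_82, cT5_83, cT5_84, cT5_85, cT5_86, cT5_87, cT5_88, cT5_89, cT5_90,
      cT5_91, cT5_92, cT5_93, cT5_94, cT5_95, cT5_96, cT5_97, cT5_98, cT5_99, cT5_100, cT5_101, cT5_102,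
      cT5_103, cT5_104, cT5_105, cT5_106, cT5_107, cT5_108, cT5_109, cT5_110, cT5_111, cT5_112, cT5_113,
      cT5_114, cT5_115, cT5_116, cT5_117, cT5_118, cT5_119, cT5_120, cT5_121, cT5_122, cT5_123, cT5_124,
      cT5_125, cT5_126, cT5_127, cT5_128, cT5_129, cT5_130, cT5_131, cT5_132, cT5_133, cT5_134, cT5_135,
      cT5_136, cT5_137, cT5_138, cT5_139, cT5_140, cT5_141, cT5_142, cT5_143, cT5_144, cT5_145, cT5_146,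
      cT5_147, cT5_148, cT5_149, cT5_150, cT5_151, cT5_152, cT5_153, cT5_154, cT5_155, cT5_156, cT5_157,
      cT5_158, cT5_159, cT5_160, cT5_161, cT5_162, cT5_163, cT5_164, cT5_165, cT5_166, cT5_167, cT5_168,
      cT5_169, cT5_170, cT5_171, cT5_172, cT5_173, cT5_174, cT5_175, cT5_176, cT5_177, cT5_178, cT5_179,
      cT5_180, cT5_181, cT5_182, cT5_183, cT5_184, cT5_185, cT5_186, cT5_187, cT5_188, cT5_189, cT5_190,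
      cT5_191, cT5_192, cT5_193, cT5_194, cT5_195, cT5_196, cT5_197, cT5_198, cT5_199, cT5_200, cT5_201,
      cT5_202, cT5_203, cT5_204, cT5_205, cT5_206, cT5_207, cT5_208, cT5_209, cT5_210, cT5_211, cT5_212,
      cT5_213, cT5_214, cT5_215, cT5_216, cT5_217, cT5_218, cT5_219, cT5_220, cT5_221, cT5_222, cT5_223,
      cT5_224, cT5_225, cT5_226, cT5_227, cT5_228]

theorem gT5_2 : allF (chkC 5 tt5) lT5_2 = true := by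
  decide +kernel

end Pool.Agent.Lib_MP_fa6e45
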