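import Pool.Agent.Lib_MP_fa6e45.CSTT
import Pool.Agent.Lib_MP_fa6e45.HK

/-!
MP_fa6e45_co, stage 5: certificates (captain, generated by a program).
-/

namespace Pool.Agent.Lib_MP_fa6e45

/-- classes `0 0 1 2 1`, types `N0 N2 S0 S0 S0` -/
noncomputable def cT5_229 : CertT :=
  ⟨[k12,k14,k16,k32,k16],[(false,k0,[k0,k1,k2,k3,k4])],[[[([z1,z1,z1,z0,z0],z2)],[]]],
    [.leafM k3 [k0,k1,k2,k3,k4] [(z1,[y1,z1])] [],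
    .lp [k2,k2,k2,k2,k2] [k0,k0,k0,k0,k0,k0,k0,k0,k0,k0] k0 [] k8 k5
    [[(k1,k2),(k4,k2),(k7,k2),(k8,k2)],[(k2,k2)],[(k5,k2)],[(k0,k2)],[(k3,k2)],[(k1,k2),(k4,k2),(k7,k2),(k8,k2)],[(k1,
    k2),(k4,k2),(k7,k2),(k8,k2)],[(k6,k2),(k9,k2)],[(k6,k2),(k9,k2)],[(k1,k2),(k4,k2),(k7,k2),(k8,k2)]]
    [] k0
    [[k1,k1,k1,k0,k0]]
    [.ref k0 k0 [(z1,[z1])]]]⟩

/-- classes `0 0 1 2 1`, types `S0 S0 B0 C0 B1` -/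
noncomputable def cT5_230 : CertT :=
  ⟨[k0,k0,k24,k36,k25],[(false,k0,[k0,k1,k2,k3,k4])],[[[([z1,z1,z1,z0,z0],z2)],[]]],
    [.leafM k1 [k2,k3,k4,k0,k1] [(z1,[y1,z1])] [],
    .lp [k6,k8,k6,k6,k6] [k1,k1,k0,k0,k1,k1,k1,k1,k1,k1] k0 [] k24 k5
    [[(k4,k6),(k7,k6)],[(k0,k6),(k5,k6),(k2,k7),(k3,k7)],[(k0,k7),(k5,k7),(k2,k8),(k3,k8)],[(k0,k7),(k5,k7),(k2,k8),
    (k3,k8)],[(k0,k6),(k5,k6),(k2,k7),(k3,k7)],[(k1,k6),(k8,k6)],[(k1,k6),(k8,k6)],[(k9,k6)],[(k6,k6)],[(k4,k6),(k7,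
    k6)]]
    [] k0
    [[k1,k1,k1,k0,k0]]
    [.ref k0 k0 [(z1,[z1])]]]⟩

/-- classes `0 0 1 2 1`, types `S0 S0 B0 S0 B1` -/
noncomputable def cT5_231 : CertT :=
  ⟨[k0,k0,k24,k32,k25],[(false,k0,[k0,k1,k2,k3,k4])],[[[([z1,z1,z1,z0,z0],z2)],[]]],
    [.leafM k1 [k2,k3,k4,k0,k1] [(z1,[y1,z1])] [],
    .lp [k6,k8,k6,k6,k6] [k1,k1,k0,k0,k1,k1,k1,k1,k1,k1] k0 [] k24 k5
    [[(k4,k6),(k7,k6)],[(k0,k6),(k5,k6),(k2,k7),(k3,k7)],[(k0,k7),(k5,k7),(k2,k8),(k3,k8)],[(k0,k7),(k5,k7),(k2,k8),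
    (k3,k8)],[(k0,k6),(k5,k6),(k2,k7),(k3,k7)],[(k1,k6),(k8,k6)],[(k1,k6),(k8,k6)],[(k6,k6),(k9,k6)],[(k6,k6),(k9,
    k6)],[(k4,k6),(k7,k6)]]
    [] k0
    [[k1,k1,k1,k0,k0]]
    [.ref k0 k0 [(z1,[z1])]]]⟩

/-- classes `0 0 1 2 1`, types `S0 S0 C0 C0 C0` -/
noncomputable def cT5_232 : CertT :=
  ⟨[k0,k0,k20,k36,k20],[(false,k0,[k0,k1,k2,k3,k4])],[[[([z1,z1,z1,z0,z0],z2)],[]]],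
    [.leafM k1 [k2,k3,k4,k0,k1] [(z1,[y1,z1])] [],
    .lp [k6,k8,k6,k6,k6] [k1,k1,k0,k0,k1,k1,k1,k1,k1,k1] k0 [] k24 k5
    [[(k4,k6),(k8,k6)],[(k0,k6),(k5,k6),(k2,k7),(k3,k7)],[(k0,k7),(k5,k7),(k2,k8),(k3,k8)],[(k0,k7),(k5,k7),(k2,k8),
    (k3,k8)],[(k0,k6),(k5,k6),(k2,k7),(k3,k7)],[(k1,k6),(k7,k6)],[(k4,k6),(k8,k6)],[(k9,k6)],[(k6,k6)],[(k1,k6),(k7,
    k6)]]
    [] k0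
    [[k1,k1,k1,k0,k0]]
    [.ref k0 k0 [(z1,[z1])]]]⟩

/-- classes `0 0 1 2 1`, types `S0 S0 C0 C0 C2` -/
noncomputable def cT5_233 : CertT :=
  ⟨[k0,k0,k20,k36,k22],[],[[[]]],
    [.lp [k6,k8,k6,k6,k6] [k1,k1,k0,k0,k1,k1,k1,k1,k1,k1] k0 [] k24 k5
    [[(k7,k6),(k8,k6)],[(k0,k6),(k5,k6),(k2,k7),(k3,k7)],[(k0,k7),(k5,k7),(k2,k8),(k3,k8)],[(k0,k7),(k5,k7),(k2,k8),
    (k3,k8)],[(k0,k6),(k5,k6),(k2,k7),(k3,k7)],[(k7,k6),(k8,k6)],[(k1,k6),(k4,k6)],[(k9,k6)],[(k6,k6)],[(k1,k6),(k4,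
    k6)]]
    [] k0
    []
    []]⟩

/-- classes `0 0 1 2 1`, types `S0 S0 C0 S0 C0` -/
noncomputable def cT5_234 : CertT :=
  ⟨[k0,k0,k20,k32,k20],[(false,k0,[k0,k1,k2,k3,k4])],[[[([z1,z1,z1,z0,z0],z2)],[]]],
    [.leafM k1 [k2,k3,k4,k0,k1] [(z1,[y1,z1])] [],
    .lp [k6,k8,k6,k6,k6] [k1,k1,k0,k0,k1,k1,k1,k1,k1,k1] k0 [] k24 k5
    [[(k4,k6),(k8,k6)],[(k0,k6),(k5,k6),(k2,k7),(k3,k7)],[(k0,k7),(k5,k7),(k2,k8),(k3,k8)],[(k0,k7),(k5,k7),(k2,k8),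
    (k3,k8)],[(k0,k6),(k5,k6),(k2,k7),(k3,k7)],[(k1,k6),(k7,k6)],[(k4,k6),(k8,k6)],[(k6,k6),(k9,k6)],[(k6,k6),(k9,
    k6)],[(k1,k6),(k7,k6)]]
    [] k0
    [[k1,k1,k1,k0,k0]]
    [.ref k0 k0 [(z1,[z1])]]]⟩

/-- classes `0 0 1 2 1`, types `S0 S0 C0 S0 C2` -/
noncomputable def cT5_235 : CertT :=
  ⟨[k0,k0,k20,k32,k22],[],[[[]]],
    [.lp [k6,k8,k6,k6,k6] [k1,k1,k0,k0,k1,k1,k1,k1,k1,k1] k0 [] k24 k5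
    [[(k7,k6),(k8,k6)],[(k0,k6),(k5,k6),(k2,k7),(k3,k7)],[(k0,k7),(k5,k7),(k2,k8),(k3,k8)],[(k0,k7),(k5,k7),(k2,k8),
    (k3,k8)],[(k0,k6),(k5,k6),(k2,k7),(k3,k7)],[(k7,k6),(k8,k6)],[(k1,k6),(k4,k6)],[(k6,k6),(k9,k6)],[(k6,k6),(k9,
    k6)],[(k1,k6),(k4,k6)]]
    [] k0
    []
    []]⟩

/-- classes `0 0 1 2 1`, types `S0 S0 N0 C0 N1` -/
noncomputable def cT5_236 : CertT :=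
  ⟨[k0,k0,k28,k36,k29],[(false,k0,[k0,k1,k2,k3,k4])],[[[([z1,z1,z1,z0,z0],z2)],[]]],
    [.leafM k1 [k2,k3,k4,k0,k1] [(z1,[y1,z1])] [],
    .lp [k6,k8,k6,k12,k0] [k3,k3,k2,k2,k3,k3,k0,k0,k6,k6] k0 [] k24 k5
    [[(k4,k6)],[(k0,k6),(k5,k6),(k2,k7),(k3,k7)],[(k0,k7),(k5,k7),(k2,k8),(k3,k8)],[(k0,k7),(k5,k7),(k2,k8),(k3,k8)],
    [(k0,k6),(k5,k6),(k2,k7),(k3,k7)],[(k1,k6)],[(k8,k6)],[(k9,k6)],[(k6,k6)],[(k7,k6)]]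
    [] k0
    [[k1,k1,k1,k0,k0]]
    [.ref k0 k0 [(z1,[z1])]]]⟩

/-- classes `0 0 1 2 1`, types `S0 S0 N0 C0 N2` -/
noncomputable def cT5_237 : CertT :=
  ⟨[k0,k0,k28,k36,k30],[],[[[]]],
    [.lp [k6,k8,k6,k6,k6] [k1,k1,k0,k0,k1,k1,k1,k1,k1,k1] k0 [] k24 k5
    [[(k7,k6)],[(k0,k6),(k5,k6),(k2,k7),(k3,k7)],[(k0,k7),(k5,k7),(k2,k8),(k3,k8)],[(k0,k7),(k5,k7),(k2,k8),(k3,k8)],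
    [(k0,k6),(k5,k6),(k2,k7),(k3,k7)],[(k8,k6)],[(k1,k6)],[(k9,k6)],[(k6,k6)],[(k4,k6)]]
    [] k0
    []
    []]⟩

/-- classes `0 0 1 2 1`, types `S0 S0 N0 S0 N1` -/
noncomputable def cT5_238 : CertT :=
  ⟨[k0,k0,k28,k32,k29],[(false,k0,[k0,k1,k2,k3,k4])],[[[([z1,z1,z1,z0,z0],z2)],[]]],
    [.leafM k1 [k2,k3,k4,k0,k1] [(z1,[y1,z1])] [],
    .lp [k6,k8,k6,k6,k6] [k1,k1,k0,k0,k1,k1,k1,k1,k1,k1] k0 [] k24 k5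
    [[(k4,k6)],[(k0,k6),(k5,k6),(k2,k7),(k3,k7)],[(k0,k7),(k5,k7),(k2,k8),(k3,k8)],[(k0,k7),(k5,k7),(k2,k8),(k3,k8)],
    [(k0,k6),(k5,k6),(k2,k7),(k3,k7)],[(k1,k6)],[(k8,k6)],[(k6,k6),(k9,k6)],[(k6,k6),(k9,k6)],[(k7,k6)]]
    [] k0
    [[k1,k1,k1,k0,k0]]
    [.ref k0 k0 [(z1,[z1])]]]⟩

/-- classes `0 0 1 2 1`, types `S0 S0 N0 S0 N2` -/
noncomputable def cT5_239 : CertT :=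
  ⟨[k0,k0,k28,k32,k30],[],[[[]]],
    [.lp [k6,k8,k6,k6,k6] [k1,k1,k0,k0,k1,k1,k1,k1,k1,k1] k0 [] k24 k5
    [[(k7,k6)],[(k0,k6),(k5,k6),(k2,k7),(k3,k7)],[(k0,k7),(k5,k7),(k2,k8),(k3,k8)],[(k0,k7),(k5,k7),(k2,k8),(k3,k8)],
    [(k0,k6),(k5,k6),(k2,k7),(k3,k7)],[(k8,k6)],[(k1,k6)],[(k6,k6),(k9,k6)],[(k6,k6),(k9,k6)],[(k4,k6)]]
    [] k0
    []
    []]⟩

/-- classes `0 0 1 2 1`, types `S0 S0 S0 C0 S0` -/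
noncomputable def cT5_240 : CertT :=
  ⟨[k0,k0,k16,k36,k16],[(false,k0,[k0,k1,k2,k3,k4])],[[[([z1,z1,z1,z0,z0],z2)],[]]],
    [.leafM k0 [k3,k4,k0,k1,k2] [(z1,[y1,z1])] [],
    .lp [k6,k8,k6,k4,k4] [k1,k1,k0,k0,k1,k1,k2,k2,k2,k2] k0 [] k20 k6
    [[(k7,k5),(k8,k5),(k1,k6),(k4,k6)],[(k0,k6),(k5,k6),(k2,k7),(k3,k7)],[(k0,k7),(k5,k7),(k2,k8),(k3,k8)],[(k0,k7),
    (k5,k7),(k2,k8),(k3,k8)],[(k0,k6),(k5,k6),(k2,k7),(k3,k7)],[(k7,k5),(k8,k5),(k1,k6),(k4,k6)],[(k7,k4),(k8,k4),(k1,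
    k5),(k4,k5)],[(k9,k4)],[(k6,k4)],[(k7,k4),(k8,k4),(k1,k5),(k4,k5)]]
    [] k0
    [[k0,k0,k0,k2,k2]]
    [.ref k0 k0 [(z2,[y1,z2])]]]⟩

/-- classes `0 0 1 2 3`, types `B0 B1 C0 C0 C0` -/
noncomputable def cT5_241 : CertT :=
  ⟨[k8,k9,k20,k36,k52],[],[[[]]],
    [.lp [k4,k4,k2,k4,k2] [k0,k0,k0,k0,k1,k1,k0,k0,k1,k1] k0 [] k12 k5
    [[(k8,k3)],[(k5,k3),(k2,k4)],[(k5,k3),(k2,k4)],[(k0,k4),(k3,k4)],[(k0,k3),(k3,k3)],[(k7,k3)],[(k4,k3)],[(k9,k3)],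
    [(k6,k3)],[(k1,k3)]]
    [] k0
    []
    []]⟩

/-- classes `0 0 1 2 3`, types `B0 B1 C0 C0 S0` -/
noncomputable def cT5_242 : CertT :=
  ⟨[k8,k9,k20,k36,k48],[],[[[]]],
    [.lp [k6,k8,k6,k6,k6] [k1,k1,k0,k0,k1,k1,k1,k1,k1,k1] k0 [] k24 k5
    [[(k1,k6),(k8,k6)],[(k5,k6),(k2,k7)],[(k5,k7),(k2,k8)],[(k0,k7),(k3,k8)],[(k0,k6),(k3,k7)],[(k7,k6)],[(k4,k6)],
    [(k9,k6)],[(k6,k6)],[(k1,k6),(k8,k6)]]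
    [] k0
    []
    []]⟩

/-- classes `0 0 1 2 3`, types `B0 B1 C0 S0 C0` -/
noncomputable def cT5_243 : CertT :=
  ⟨[k8,k9,k20,k32,k52],[],[[[]]],
    [.lp [k6,k8,k6,k6,k6] [k1,k1,k0,k0,k1,k1,k1,k1,k1,k1] k0 [] k24 k5
    [[(k8,k6)],[(k5,k6),(k2,k7)],[(k5,k7),(k2,k8)],[(k0,k7),(k3,k8)],[(k0,k6),(k3,k7)],[(k7,k6)],[(k4,k6)],[(k6,k6),
    (k9,k6)],[(k6,k6),(k9,k6)],[(k1,k6)]]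
    [] k0
    []
    []]⟩

/-- classes `0 0 1 2 3`, types `B0 B1 C0 S0 S0` -/
noncomputable def cT5_244 : CertT :=
  ⟨[k8,k9,k20,k32,k48],[],[[[]]],
    [.lp [k6,k8,k6,k6,k6] [k1,k1,k0,k0,k1,k1,k1,k1,k1,k1] k0 [] k24 k5
    [[(k1,k6),(k8,k6)],[(k5,k6),(k2,k7)],[(k5,k7),(k2,k8)],[(k0,k7),(k3,k8)],[(k0,k6),(k3,k7)],[(k7,k6)],[(k4,k6)],
    [(k6,k6),(k9,k6)],[(k6,k6),(k9,k6)],[(k1,k6),(k8,k6)]]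
    [] k0
    []
    []]⟩

/-- classes `0 0 1 2 3`, types `B0 B1 S0 C0 S0` -/
noncomputable def cT5_245 : CertT :=
  ⟨[k8,k9,k16,k36,k48],[],[[[]]],
    [.lp [k6,k8,k6,k6,k6] [k1,k1,k0,k0,k1,k1,k1,k1,k1,k1] k0 [] k24 k5
    [[(k1,k6),(k8,k6)],[(k5,k6),(k2,k7)],[(k5,k7),(k2,k8)],[(k0,k7),(k3,k8)],[(k0,k6),(k3,k7)],[(k4,k6),(k7,k6)],[(k4,
    k6),(k7,k6)],[(k9,k6)],[(k6,k6)],[(k1,k6),(k8,k6)]]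
    [] k0
    []
    []]⟩

/-- classes `0 0 1 2 3`, types `B0 B1 S0 S0 S0` -/
noncomputable def cT5_246 : CertT :=
  ⟨[k8,k9,k16,k32,k48],[],[[[]]],
    [.lp [k6,k8,k6,k6,k6] [k1,k1,k0,k0,k1,k1,k1,k1,k1,k1] k0 [] k24 k5
    [[(k1,k6),(k8,k6)],[(k5,k6),(k2,k7)],[(k5,k7),(k2,k8)],[(k0,k7),(k3,k8)],[(k0,k6),(k3,k7)],[(k4,k6),(k7,k6)],[(k4,
    k6),(k7,k6)],[(k6,k6),(k9,k6)],[(k6,k6),(k9,k6)],[(k1,k6),(k8,k6)]]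
    [] k0
    []
    []]⟩

/-- classes `0 0 1 2 3`, types `C0 C0 C0 C0 C0` -/
noncomputable def cT5_247 : CertT :=
  ⟨[k4,k4,k20,k36,k52],[],[[[]]],
    [.lp [k2,k4,k4,k2,k4] [k1,k1,k0,k0,k0,k0,k1,k1,k0,k0] k0 [] k12 k5
    [[(k8,k3)],[(k3,k3),(k5,k3)],[(k0,k3),(k2,k4)],[(k3,k4),(k5,k4)],[(k0,k3),(k2,k4)],[(k7,k3)],[(k4,k3)],[(k9,k3)],
    [(k6,k3)],[(k1,k3)]]
    [] k0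
    []
    []]⟩

/-- classes `0 0 1 2 3`, types `C0 C0 C0 C0 S0` -/
noncomputable def cT5_248 : CertT :=
  ⟨[k4,k4,k20,k36,k48],[],[[[]]],
    [.lp [k6,k8,k6,k6,k6] [k1,k1,k0,k0,k1,k1,k1,k1,k1,k1] k0 [] k24 k5
    [[(k1,k6),(k8,k6)],[(k5,k6),(k3,k7)],[(k0,k7),(k2,k8)],[(k5,k7),(k3,k8)],[(k0,k6),(k2,k7)],[(k7,k6)],[(k4,k6)],
    [(k9,k6)],[(k6,k6)],[(k1,k6),(k8,k6)]]
    [] k0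
    []
    []]⟩

/-- classes `0 0 1 2 3`, types `C0 C0 C0 S0 C0` -/
noncomputable def cT5_249 : CertT :=
  ⟨[k4,k4,k20,k32,k52],[],[[[]]],
    [.lp [k6,k8,k6,k6,k6] [k1,k1,k0,k0,k1,k1,k1,k1,k1,k1] k0 [] k24 k5
    [[(k8,k6)],[(k5,k6),(k3,k7)],[(k0,k7),(k2,k8)],[(k5,k7),(k3,k8)],[(k0,k6),(k2,k7)],[(k7,k6)],[(k4,k6)],[(k6,k6),
    (k9,k6)],[(k6,k6),(k9,k6)],[(k1,k6)]]
    [] k0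
    []
    []]⟩

/-- classes `0 0 1 2 3`, types `C0 C0 C0 S0 S0` -/
noncomputable def cT5_250 : CertT :=
  ⟨[k4,k4,k20,k32,k48],[],[[[]]],
    [.lp [k6,k8,k6,k6,k6] [k1,k1,k0,k0,k1,k1,k1,k1,k1,k1] k0 [] k24 k5
    [[(k1,k6),(k8,k6)],[(k5,k6),(k3,k7)],[(k0,k7),(k2,k8)],[(k5,k7),(k3,k8)],[(k0,k6),(k2,k7)],[(k7,k6)],[(k4,k6)],
    [(k6,k6),(k9,k6)],[(k6,k6),(k9,k6)],[(k1,k6),(k8,k6)]]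
    [] k0
    []
    []]⟩

/-- classes `0 0 1 2 3`, types `C0 C0 S0 C0 S0` -/
noncomputable def cT5_251 : CertT :=
  ⟨[k4,k4,k16,k36,k48],[],[[[]]],
    [.lp [k6,k8,k6,k6,k6] [k1,k1,k0,k0,k1,k1,k1,k1,k1,k1] k0 [] k24 k5
    [[(k1,k6),(k8,k6)],[(k5,k6),(k3,k7)],[(k0,k7),(k2,k8)],[(k5,k7),(k3,k8)],[(k0,k6),(k2,k7)],[(k4,k6),(k7,k6)],[(k4,
    k6),(k7,k6)],[(k9,k6)],[(k6,k6)],[(k1,k6),(k8,k6)]]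
    [] k0
    []
    []]⟩

/-- classes `0 0 1 2 3`, types `C0 C0 S0 S0 S0` -/
noncomputable def cT5_252 : CertT :=
  ⟨[k4,k4,k16,k32,k48],[],[[[]]],
    [.lp [k6,k8,k6,k6,k6] [k1,k1,k0,k0,k1,k1,k1,k1,k1,k1] k0 [] k24 k5
    [[(k1,k6),(k8,k6)],[(k5,k6),(k3,k7)],[(k0,k7),(k2,k8)],[(k5,k7),(k3,k8)],[(k0,k6),(k2,k7)],[(k4,k6),(k7,k6)],[(k4,
    k6),(k7,k6)],[(k6,k6),(k9,k6)],[(k6,k6),(k9,k6)],[(k1,k6),(k8,k6)]]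
    [] k0
    []
    []]⟩

/-- classes `0 0 1 2 3`, types `C0 C2 C0 C0 C0` -/
noncomputable def cT5_253 : CertT :=
  ⟨[k4,k6,k20,k36,k52],[],[[[]]],
    [.lp [k2,k2,k2,k2,k2] [k0,k0,k0,k0,k0,k0,k0,k0,k0,k0] k0 [] k8 k5
    [[(k8,k2)],[(k2,k2),(k3,k2)],[(k0,k2),(k5,k2)],[(k0,k2),(k5,k2)],[(k2,k2),(k3,k2)],[(k7,k2)],[(k4,k2)],[(k9,k2)],
    [(k6,k2)],[(k1,k2)]]
    [] k0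
    []
    []]⟩

/-- classes `0 0 1 2 3`, types `C0 C2 C0 C0 S0` -/
noncomputable def cT5_254 : CertT :=
  ⟨[k4,k6,k20,k36,k48],[],[[[]]],
    [.lp [k6,k4,k4,k4,k4] [k0,k0,k1,k1,k1,k1,k1,k1,k1,k1] k0 [] k16 k5
    [[(k8,k5),(k1,k6)],[(k2,k5),(k3,k5)],[(k5,k4),(k0,k5)],[(k5,k4),(k0,k5)],[(k2,k4),(k3,k4)],[(k7,k4)],[(k4,k4)],
    [(k9,k4)],[(k6,k4)],[(k8,k4),(k1,k5)]]
    [] k0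
    []
    []]⟩

/-- classes `0 0 1 2 3`, types `C0 C2 C0 S0 C0` -/
noncomputable def cT5_255 : CertT :=
  ⟨[k4,k6,k20,k32,k52],[],[[[]]],
    [.lp [k2,k2,k2,k2,k2] [k0,k0,k0,k0,k0,k0,k0,k0,k0,k0] k0 [] k8 k5
    [[(k8,k2)],[(k2,k2),(k3,k2)],[(k0,k2),(k5,k2)],[(k0,k2),(k5,k2)],[(k2,k2),(k3,k2)],[(k7,k2)],[(k4,k2)],[(k6,k2),
    (k9,k2)],[(k6,k2),(k9,k2)],[(k1,k2)]]
    [] k0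
    []
    []]⟩

/-- classes `0 0 1 2 3`, types `C0 C2 C0 S0 S0` -/
noncomputable def cT5_256 : CertT :=
  ⟨[k4,k6,k20,k32,k48],[],[[[]]],
    [.lp [k6,k4,k4,k4,k4] [k0,k0,k1,k1,k1,k1,k1,k1,k1,k1] k0 [] k16 k5
    [[(k8,k5),(k1,k6)],[(k2,k5),(k3,k5)],[(k5,k4),(k0,k5)],[(k5,k4),(k0,k5)],[(k2,k4),(k3,k4)],[(k7,k4)],[(k4,k4)],
    [(k6,k4),(k9,k4)],[(k6,k4),(k9,k4)],[(k8,k4),(k1,k5)]]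
    [] k0
    []
    []]⟩

/-- classes `0 0 1 2 3`, types `C0 C2 S0 C0 S0` -/
noncomputable def cT5_257 : CertT :=
  ⟨[k4,k6,k16,k36,k48],[(false,k0,[k0,k1,k2,k3,k4])],[[[([z1,z1,z1,z0,z0],z2)],[]]],
    [.leafM k0 [k3,k4,k0,k1,k2] [(z1,[y1,z1])] [],
    .lp [k10,k0,k10,k4,k4] [k0,k0,k5,k5,k0,k0,k3,k3,k3,k3] k0 [] k20 k6
    [[(k8,k7),(k1,k10)],[(k2,k5),(k3,k5)],[(k0,k5),(k5,k5)],[(k0,k5),(k5,k5)],[(k2,k5),(k3,k5)],[(k7,k7),(k4,k10)],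
    [(k7,k4),(k4,k7)],[(k9,k4)],[(k6,k4)],[(k8,k4),(k1,k7)]]
    [] k0
    [[k0,k0,k0,k2,k2]]
    [.ref k0 k0 [(z2,[y1,z2])]]]⟩

/-- classes `0 0 1 2 3`, types `C0 C2 S0 S0 S0` -/
noncomputable def cT5_258 : CertT :=
  ⟨[k4,k6,k16,k32,k48],[(false,k0,[k0,k1,k2,k3,k4])],[[[([z1,z0,y1,z0,z0],z0),([z0,z1,z2,z0,z0],z2)],[([z1,z0,y1,y1,
    y1],y1)],[]]],
    [.leafM k0 [k3,k4,k0,k1,k2] [(z1,[y1,y1,z1])] [],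
    .lp [k6,k4,k4,k4,k4] [k0,k0,k1,k1,k1,k1,k1,k1,k1,k1] k0 [] k16 k5
    [[(k8,k5),(k1,k6)],[(k2,k5),(k3,k5)],[(k5,k4),(k0,k5)],[(k5,k4),(k0,k5)],[(k2,k4),(k3,k4)],[(k4,k4),(k7,k4)],[(k4,
    k4),(k7,k4)],[(k6,k4),(k9,k4)],[(k6,k4),(k9,k4)],[(k8,k4),(k1,k5)]]
    [] k0
    [[k0,k1,k2,k0,k0]]
    [.ref k0 k0 [(z2,[y1,z1,z1]),(z1,[z1])]],
    .lp [k4,k4,k6,k4,k4] [k1,k1,k1,k1,k0,k0,k1,k1,k1,k1] k0 [] k16 k5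
    [[(k1,k4),(k8,k4)],[(k2,k4),(k3,k4)],[(k0,k4),(k5,k5)],[(k0,k4),(k5,k5)],[(k2,k5),(k3,k5)],[(k7,k5),(k4,k6)],[(k7,
    k4),(k4,k5)],[(k6,k4),(k9,k4)],[(k6,k4),(k9,k4)],[(k1,k4),(k8,k4)]]
    [] k0
    [[k2,k1,k0,k0,k0]]
    [.ref k1 k0 [(z1,[z1,y1])]]]⟩

/-- classes `0 0 1 2 3`, types `N0 N1 C0 C0 C0` -/
noncomputable def cT5_259 : CertT :=
  ⟨[k12,k13,k20,k36,k52],[],[[[]]],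
    [.lp [k0,k4,k6,k0,k6] [k3,k3,k1,k1,k0,k0,k3,k3,k0,k0] k0 [] k12 k5
    [[(k8,k3)],[(k5,k3)],[(k2,k4)],[(k3,k4)],[(k0,k3)],[(k7,k3)],[(k4,k3)],[(k9,k3)],[(k6,k3)],[(k1,k3)]]
    [] k0
    []
    []]⟩

/-- classes `0 0 1 2 3`, types `N0 N1 C0 C0 S0` -/
noncomputable def cT5_260 : CertT :=
  ⟨[k12,k13,k20,k36,k48],[],[[[]]],
    [.lp [k6,k8,k6,k6,k6] [k1,k1,k0,k0,k1,k1,k1,k1,k1,k1] k0 [] k24 k5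
    [[(k1,k6),(k8,k6)],[(k5,k6)],[(k2,k8)],[(k3,k8)],[(k0,k6)],[(k7,k6)],[(k4,k6)],[(k9,k6)],[(k6,k6)],[(k1,k6),(k8,
    k6)]]
    [] k0
    []
    []]⟩

/-- classes `0 0 1 2 3`, types `N0 N1 C0 S0 C0` -/
noncomputable def cT5_261 : CertT :=
  ⟨[k12,k13,k20,k32,k52],[],[[[]]],
    [.lp [k6,k8,k6,k6,k6] [k1,k1,k0,k0,k1,k1,k1,k1,k1,k1] k0 [] k24 k5
    [[(k8,k6)],[(k5,k6)],[(k2,k8)],[(k3,k8)],[(k0,k6)],[(k7,k6)],[(k4,k6)],[(k6,k6),(k9,k6)],[(k6,k6),(k9,k6)],[(k1,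
    k6)]]
    [] k0
    []
    []]⟩

/-- classes `0 0 1 2 3`, types `N0 N1 C0 S0 S0` -/
noncomputable def cT5_262 : CertT :=
  ⟨[k12,k13,k20,k32,k48],[],[[[]]],
    [.lp [k6,k8,k6,k6,k6] [k1,k1,k0,k0,k1,k1,k1,k1,k1,k1] k0 [] k24 k5
    [[(k1,k6),(k8,k6)],[(k5,k6)],[(k2,k8)],[(k3,k8)],[(k0,k6)],[(k7,k6)],[(k4,k6)],[(k6,k6),(k9,k6)],[(k6,k6),(k9,
    k6)],[(k1,k6),(k8,k6)]]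
    [] k0
    []
    []]⟩

/-- classes `0 0 1 2 3`, types `N0 N1 S0 C0 S0` -/
noncomputable def cT5_263 : CertT :=
  ⟨[k12,k13,k16,k36,k48],[],[[[]]],
    [.lp [k6,k8,k6,k6,k6] [k1,k1,k0,k0,k1,k1,k1,k1,k1,k1] k0 [] k24 k5
    [[(k1,k6),(k8,k6)],[(k5,k6)],[(k2,k8)],[(k3,k8)],[(k0,k6)],[(k4,k6),(k7,k6)],[(k4,k6),(k7,k6)],[(k9,k6)],[(k6,
    k6)],[(k1,k6),(k8,k6)]]
    [] k0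
    []
    []]⟩

/-- classes `0 0 1 2 3`, types `N0 N1 S0 S0 S0` -/
noncomputable def cT5_264 : CertT :=
  ⟨[k12,k13,k16,k32,k48],[],[[[]]],
    [.lp [k6,k8,k6,k6,k6] [k1,k1,k0,k0,k1,k1,k1,k1,k1,k1] k0 [] k24 k5
    [[(k1,k6),(k8,k6)],[(k5,k6)],[(k2,k8)],[(k3,k8)],[(k0,k6)],[(k4,k6),(k7,k6)],[(k4,k6),(k7,k6)],[(k6,k6),(k9,k6)],
    [(k6,k6),(k9,k6)],[(k1,k6),(k8,k6)]]
    [] k0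
    []
    []]⟩

/-- classes `0 0 1 2 3`, types `N0 N2 C0 C0 C0` -/
noncomputable def cT5_265 : CertT :=
  ⟨[k12,k14,k20,k36,k52],[],[[[]]],
    [.lp [k2,k2,k2,k2,k2] [k0,k0,k0,k0,k0,k0,k0,k0,k0,k0] k0 [] k8 k5
    [[(k8,k2)],[(k2,k2)],[(k5,k2)],[(k0,k2)],[(k3,k2)],[(k7,k2)],[(k4,k2)],[(k9,k2)],[(k6,k2)],[(k1,k2)]]
    [] k0
    []
    []]⟩

/-- classes `0 0 1 2 3`, types `N0 N2 C0 C0 S0` -/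
noncomputable def cT5_266 : CertT :=
  ⟨[k12,k14,k20,k36,k48],[],[[[]]],
    [.lp [k2,k2,k2,k2,k2] [k0,k0,k0,k0,k0,k0,k0,k0,k0,k0] k0 [] k8 k5
    [[(k1,k2),(k8,k2)],[(k2,k2)],[(k5,k2)],[(k0,k2)],[(k3,k2)],[(k7,k2)],[(k4,k2)],[(k9,k2)],[(k6,k2)],[(k1,k2),(k8,
    k2)]]
    [] k0
    []
    []]⟩

/-- classes `0 0 1 2 3`, types `N0 N2 C0 S0 C0` -/
noncomputable def cT5_267 : CertT :=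
  ⟨[k12,k14,k20,k32,k52],[],[[[]]],
    [.lp [k2,k2,k2,k2,k2] [k0,k0,k0,k0,k0,k0,k0,k0,k0,k0] k0 [] k8 k5
    [[(k8,k2)],[(k2,k2)],[(k5,k2)],[(k0,k2)],[(k3,k2)],[(k7,k2)],[(k4,k2)],[(k6,k2),(k9,k2)],[(k6,k2),(k9,k2)],[(k1,
    k2)]]
    [] k0
    []
    []]⟩

/-- classes `0 0 1 2 3`, types `N0 N2 C0 S0 S0` -/
noncomputable def cT5_268 : CertT :=
  ⟨[k12,k14,k20,k32,k48],[],[[[]]],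
    [.lp [k2,k2,k2,k2,k2] [k0,k0,k0,k0,k0,k0,k0,k0,k0,k0] k0 [] k8 k5
    [[(k1,k2),(k8,k2)],[(k2,k2)],[(k5,k2)],[(k0,k2)],[(k3,k2)],[(k7,k2)],[(k4,k2)],[(k6,k2),(k9,k2)],[(k6,k2),(k9,
    k2)],[(k1,k2),(k8,k2)]]
    [] k0
    []
    []]⟩

/-- classes `0 0 1 2 3`, types `N0 N2 S0 C0 S0` -/
noncomputable def cT5_269 : CertT :=
  ⟨[k12,k14,k16,k36,k48],[],[[[]]],
    [.lp [k2,k2,k2,k2,k2] [k0,k0,k0,k0,k0,k0,k0,k0,k0,k0] k0 [] k8 k5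
    [[(k1,k2),(k8,k2)],[(k2,k2)],[(k5,k2)],[(k0,k2)],[(k3,k2)],[(k4,k2),(k7,k2)],[(k4,k2),(k7,k2)],[(k9,k2)],[(k6,
    k2)],[(k1,k2),(k8,k2)]]
    [] k0
    []
    []]⟩

/-- classes `0 0 1 2 3`, types `N0 N2 S0 S0 S0` -/
noncomputable def cT5_270 : CertT :=
  ⟨[k12,k14,k16,k32,k48],[],[[[]]],
    [.lp [k2,k2,k2,k2,k2] [k0,k0,k0,k0,k0,k0,k0,k0,k0,k0] k0 [] k8 k5
    [[(k1,k2),(k8,k2)],[(k2,k2)],[(k5,k2)],[(k0,k2)],[(k3,k2)],[(k4,k2),(k7,k2)],[(k4,k2),(k7,k2)],[(k6,k2),(k9,k2)],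
    [(k6,k2),(k9,k2)],[(k1,k2),(k8,k2)]]
    [] k0
    []
    []]⟩

/-- classes `0 0 1 2 3`, types `S0 S0 C0 C0 C0` -/
noncomputable def cT5_271 : CertT :=
  ⟨[k0,k0,k20,k36,k52],[],[[[]]],
    [.lp [k6,k8,k6,k6,k6] [k1,k1,k0,k0,k1,k1,k1,k1,k1,k1] k0 [] k24 k5
    [[(k8,k6)],[(k0,k6),(k5,k6),(k2,k7),(k3,k7)],[(k0,k7),(k5,k7),(k2,k8),(k3,k8)],[(k0,k7),(k5,k7),(k2,k8),(k3,k8)],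
    [(k0,k6),(k5,k6),(k2,k7),(k3,k7)],[(k7,k6)],[(k4,k6)],[(k9,k6)],[(k6,k6)],[(k1,k6)]]
    [] k0
    []
    []]⟩

/-- classes `0 0 1 2 3`, types `S0 S0 C0 C0 S0` -/
noncomputable def cT5_272 : CertT :=
  ⟨[k0,k0,k20,k36,k48],[],[[[]]],
    [.lp [k8,k8,k6,k6,k6] [k0,k0,k0,k0,k1,k1,k1,k1,k1,k1] k0 [] k24 k5
    [[(k8,k7),(k1,k8)],[(k5,k7),(k0,k8),(k2,k8),(k3,k8)],[(k5,k7),(k0,k8),(k2,k8),(k3,k8)],[(k5,k7),(k0,k8),(k2,k8),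
    (k3,k8)],[(k5,k6),(k0,k7),(k2,k7),(k3,k7)],[(k7,k6)],[(k4,k6)],[(k9,k6)],[(k6,k6)],[(k8,k6),(k1,k7)]]
    [] k0
    []
    []]⟩

/-- classes `0 0 1 2 3`, types `S0 S0 C0 S0 C0` -/
noncomputable def cT5_273 : CertT :=
  ⟨[k0,k0,k20,k32,k52],[],[[[]]],
    [.lp [k6,k8,k6,k6,k6] [k1,k1,k0,k0,k1,k1,k1,k1,k1,k1] k0 [] k24 k5
    [[(k8,k6)],[(k0,k6),(k5,k6),(k2,k7),(k3,k7)],[(k0,k7),(k5,k7),(k2,k8),(k3,k8)],[(k0,k7),(k5,k7),(k2,k8),(k3,k8)],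
    [(k0,k6),(k5,k6),(k2,k7),(k3,k7)],[(k7,k6)],[(k4,k6)],[(k6,k6),(k9,k6)],[(k6,k6),(k9,k6)],[(k1,k6)]]
    [] k0
    []
    []]⟩

/-- classes `0 0 1 2 3`, types `S0 S0 C0 S0 S0` -/
noncomputable def cT5_274 : CertT :=
  ⟨[k0,k0,k20,k32,k48],[],[[[]]],
    [.lp [k8,k8,k6,k6,k6] [k0,k0,k0,k0,k1,k1,k1,k1,k1,k1] k0 [] k24 k5
    [[(k8,k7),(k1,k8)],[(k5,k7),(k0,k8),(k2,k8),(k3,k8)],[(k5,k7),(k0,k8),(k2,k8),(k3,k8)],[(k5,k7),(k0,k8),(k2,k8),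
    (k3,k8)],[(k5,k6),(k0,k7),(k2,k7),(k3,k7)],[(k7,k6)],[(k4,k6)],[(k6,k6),(k9,k6)],[(k6,k6),(k9,k6)],[(k8,k6),(k1,
    k7)]]
    [] k0
    []
    []]⟩

/-- classes `0 0 1 2 3`, types `S0 S0 S0 C0 S0` -/
noncomputable def cT5_275 : CertT :=
  ⟨[k0,k0,k16,k36,k48],[(false,k0,[k0,k1,k2,k3,k4])],[[[([z1,z1,z1,z0,z0],z2)],[]]],
    [.leafM k0 [k3,k4,k0,k1,k2] [(z1,[y1,z1])] [],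
    .lp [k10,k10,k10,k6,k6] [k0,k0,k0,k0,k0,k0,k2,k2,k2,k2] k0 [] k30 k6
    [[(k8,k8),(k1,k10)],[(k0,k10),(k2,k10),(k3,k10),(k5,k10)],[(k0,k10),(k2,k10),(k3,k10),(k5,k10)],[(k0,k10),(k2,
    k10),(k3,k10),(k5,k10)],[(k0,k10),(k2,k10),(k3,k10),(k5,k10)],[(k7,k8),(k4,k10)],[(k7,k6),(k4,k8)],[(k9,k6)],[(k6,
    k6)],[(k8,k6),(k1,k8)]]
    [] k0
    [[k0,k0,k0,k2,k2]]
    [.ref k0 k0 [(z2,[y1,z2])]]]⟩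

/-- classes `0 1 0 1 2`, types `B0 B0 B1 B1 C0` -/
noncomputable def cT5_276 : CertT :=
  ⟨[k8,k24,k9,k25,k36],[(false,k0,[k0,k1,k2,k3,k4])],[[[([z1,z0,z1,z0,z1],z2)],[]]],
    [.leafM k2 [k0,k1,k2,k3,k4] [(z1,[y1,z1])] [],
    .lp [k2,k2,k2,k2,k2] [k0,k0,k0,k0,k0,k0,k0,k0,k0,k0] k0 [] k8 k5
    [[(k8,k2)],[(k4,k2),(k7,k2)],[(k4,k2),(k7,k2)],[(k6,k2),(k9,k2)],[(k6,k2),(k9,k2)],[(k0,k2),(k3,k2)],[(k0,k2),(k3,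
    k2)],[(k2,k2),(k5,k2)],[(k2,k2),(k5,k2)],[(k1,k2)]]
    [] k0
    [[k1,k0,k1,k0,k1]]
    [.ref k0 k0 [(z1,[z1])]]]⟩

/-- classes `0 1 0 1 2`, types `B0 B0 B1 B1 S0` -/
noncomputable def cT5_277 : CertT :=
  ⟨[k8,k24,k9,k25,k32],[(false,k0,[k0,k1,k2,k3,k4])],[[[([z1,z0,z1,z0,z1],z2)],[]]],
    [.leafM k2 [k0,k1,k2,k3,k4] [(z1,[y1,z1])] [],
    .lp [k2,k2,k2,k2,k2] [k0,k0,k0,k0,k0,k0,k0,k0,k0,k0] k0 [] k8 k5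
    [[(k1,k2),(k8,k2)],[(k4,k2),(k7,k2)],[(k4,k2),(k7,k2)],[(k6,k2),(k9,k2)],[(k6,k2),(k9,k2)],[(k0,k2),(k3,k2)],[(k0,
    k2),(k3,k2)],[(k2,k2),(k5,k2)],[(k2,k2),(k5,k2)],[(k1,k2),(k8,k2)]]
    [] k0
    [[k1,k0,k1,k0,k1]]
    [.ref k0 k0 [(z1,[z1])]]]⟩

/-- classes `0 1 0 1 2`, types `B0 C0 B1 C0 C0` -/
noncomputable def cT5_278 : CertT :=
  ⟨[k8,k20,k9,k20,k36],[(false,k0,[k0,k1,k2,k3,k4])],[[[([z1,z0,z0,z1,z1],z2)],[]]],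
    [.leafM k1 [k0,k1,k2,k3,k4] [(z1,[y1,z1])] [],
    .lp [k2,k2,k2,k2,k2] [k0,k0,k0,k0,k0,k0,k0,k0,k0,k0] k0 [] k8 k5
    [[(k8,k2)],[(k4,k2),(k7,k2)],[(k4,k2),(k7,k2)],[(k5,k2),(k9,k2)],[(k2,k2),(k6,k2)],[(k0,k2),(k3,k2)],[(k0,k2),(k3,
    k2)],[(k5,k2),(k9,k2)],[(k2,k2),(k6,k2)],[(k1,k2)]]
    [] k0
    [[k1,k0,k0,k1,k1]]
    [.ref k0 k0 [(z1,[z1])]]]⟩

/-- classes `0 1 0 1 2`, types `B0 C0 B1 C0 S0` -/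
noncomputable def cT5_279 : CertT :=
  ⟨[k8,k20,k9,k20,k32],[(false,k0,[k0,k1,k2,k3,k4])],[[[([z1,z0,z0,z1,z1],z2)],[]]],
    [.leafM k1 [k0,k1,k2,k3,k4] [(z1,[y1,z1])] [],
    .lp [k2,k2,k2,k2,k2] [k0,k0,k0,k0,k0,k0,k0,k0,k0,k0] k0 [] k8 k5
    [[(k1,k2),(k8,k2)],[(k4,k2),(k7,k2)],[(k4,k2),(k7,k2)],[(k5,k2),(k9,k2)],[(k2,k2),(k6,k2)],[(k0,k2),(k3,k2)],[(k0,
    k2),(k3,k2)],[(k5,k2),(k9,k2)],[(k2,k2),(k6,k2)],[(k1,k2),(k8,k2)]]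
    [] k0
    [[k1,k0,k0,k1,k1]]
    [.ref k0 k0 [(z1,[z1])]]]⟩

/-- classes `0 1 0 1 2`, types `B0 C0 B1 C2 C0` -/
noncomputable def cT5_280 : CertT :=
  ⟨[k8,k20,k9,k22,k36],[(false,k0,[k0,k1,k2,k3,k4])],[[[([z1,z0,z1,z0,z1],z2)],[([z1,z0,z0,z1,z1],z2)],[]]],
    [.leafM k2 [k0,k1,k2,k3,k4] [(z1,[y1,z1])] [],
    .leafM k1 [k0,k1,k2,k3,k4] [(z1,[y1,z1])] [],
    .lp [k2,k2,k2,k2,k2] [k0,k0,k0,k0,k0,k0,k0,k0,k0,k0] k0 [] k8 k5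
    [[(k8,k2)],[(k4,k2),(k7,k2)],[(k4,k2),(k7,k2)],[(k5,k2),(k6,k2)],[(k2,k2),(k9,k2)],[(k0,k2),(k3,k2)],[(k0,k2),(k3,
    k2)],[(k2,k2),(k9,k2)],[(k5,k2),(k6,k2)],[(k1,k2)]]
    [] k0
    [[k1,k0,k1,k0,k1],[k1,k0,k0,k1,k1]]
    [.ref k0 k0 [(z1,[z1])],.ref k1 k0 [(z1,[z1])]]]⟩

/-- classes `0 1 0 1 2`, types `B0 C0 B1 C2 S0` -/
noncomputable def cT5_281 : CertT :=
  ⟨[k8,k20,k9,k22,k32],[(false,k0,[k0,k1,k2,k3,k4])],[[[([z1,z0,z1,z0,z1],z2)],[([z1,z0,z0,z1,z1],z2)],[]]],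
    [.leafM k2 [k0,k1,k2,k3,k4] [(z1,[y1,z1])] [],
    .leafM k1 [k0,k1,k2,k3,k4] [(z1,[y1,z1])] [],
    .lp [k2,k2,k2,k2,k2] [k0,k0,k0,k0,k0,k0,k0,k0,k0,k0] k0 [] k8 k5
    [[(k1,k2),(k8,k2)],[(k4,k2),(k7,k2)],[(k4,k2),(k7,k2)],[(k5,k2),(k6,k2)],[(k2,k2),(k9,k2)],[(k0,k2),(k3,k2)],[(k0,
    k2),(k3,k2)],[(k2,k2),(k9,k2)],[(k5,k2),(k6,k2)],[(k1,k2),(k8,k2)]]
    [] k0
    [[k1,k0,k1,k0,k1],[k1,k0,k0,k1,k1]]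
    [.ref k0 k0 [(z1,[z1])],.ref k1 k0 [(z1,[z1])]]]⟩

/-- classes `0 1 0 1 2`, types `B0 N0 B1 N1 C0` -/
noncomputable def cT5_282 : CertT :=
  ⟨[k8,k28,k9,k29,k36],[],[[[]]],
    [.lp [k2,k2,k2,k2,k2] [k0,k0,k0,k0,k0,k0,k0,k0,k0,k0] k0 [] k8 k5
    [[(k8,k2)],[(k4,k2),(k7,k2)],[(k4,k2),(k7,k2)],[(k9,k2)],[(k6,k2)],[(k0,k2),(k3,k2)],[(k0,k2),(k3,k2)],[(k5,k2)],
    [(k2,k2)],[(k1,k2)]]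
    [] k0
    []
    []]⟩

/-- classes `0 1 0 1 2`, types `B0 N0 B1 N1 S0` -/
noncomputable def cT5_283 : CertT :=
  ⟨[k8,k28,k9,k29,k32],[],[[[]]],
    [.lp [k2,k2,k2,k2,k2] [k0,k0,k0,k0,k0,k0,k0,k0,k0,k0] k0 [] k8 k5
    [[(k1,k2),(k8,k2)],[(k4,k2),(k7,k2)],[(k4,k2),(k7,k2)],[(k9,k2)],[(k6,k2)],[(k0,k2),(k3,k2)],[(k0,k2),(k3,k2)],
    [(k5,k2)],[(k2,k2)],[(k1,k2),(k8,k2)]]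
    [] k0
    []
    []]⟩

/-- classes `0 1 0 1 2`, types `B0 N0 B1 N2 C0` -/
noncomputable def cT5_284 : CertT :=
  ⟨[k8,k28,k9,k30,k36],[(false,k0,[k0,k1,k2,k3,k4])],[[[([z1,z0,z1,z0,z1],z2)],[]]],
    [.leafM k2 [k0,k1,k2,k3,k4] [(z1,[y1,z1])] [],
    .lp [k2,k2,k2,k2,k2] [k0,k0,k0,k0,k0,k0,k0,k0,k0,k0] k0 [] k8 k5
    [[(k8,k2)],[(k4,k2),(k7,k2)],[(k4,k2),(k7,k2)],[(k6,k2)],[(k9,k2)],[(k0,k2),(k3,k2)],[(k0,k2),(k3,k2)],[(k2,k2)],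
    [(k5,k2)],[(k1,k2)]]
    [] k0
    [[k1,k0,k1,k0,k1]]
    [.ref k0 k0 [(z1,[z1])]]]⟩

/-- classes `0 1 0 1 2`, types `B0 N0 B1 N2 S0` -/
noncomputable def cT5_285 : CertT :=
  ⟨[k8,k28,k9,k30,k32],[(false,k0,[k0,k1,k2,k3,k4])],[[[([z1,z0,z1,z0,z1],z2)],[]]],
    [.leafM k2 [k0,k1,k2,k3,k4] [(z1,[y1,z1])] [],
    .lp [k2,k2,k2,k2,k2] [k0,k0,k0,k0,k0,k0,k0,k0,k0,k0] k0 [] k8 k5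
    [[(k1,k2),(k8,k2)],[(k4,k2),(k7,k2)],[(k4,k2),(k7,k2)],[(k6,k2)],[(k9,k2)],[(k0,k2),(k3,k2)],[(k0,k2),(k3,k2)],
    [(k2,k2)],[(k5,k2)],[(k1,k2),(k8,k2)]]
    [] k0
    [[k1,k0,k1,k0,k1]]
    [.ref k0 k0 [(z1,[z1])]]]⟩

/-- classes `0 1 0 1 2`, types `B0 S0 B1 S0 C0` -/
noncomputable def cT5_286 : CertT :=
  ⟨[k8,k16,k9,k16,k36],[(false,k0,[k0,k1,k2,k3,k4])],[[[([z1,z0,z1,z0,z1],z2)],[([z1,z0,z0,z1,z1],z2)],[]]],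
    [.leafM k2 [k0,k1,k2,k3,k4] [(z1,[y1,z1])] [],
    .leafM k1 [k0,k1,k2,k3,k4] [(z1,[y1,z1])] [],
    .lp [k2,k2,k2,k2,k2] [k0,k0,k0,k0,k0,k0,k0,k0,k0,k0] k0 [] k8 k5
    [[(k8,k2)],[(k4,k2),(k7,k2)],[(k4,k2),(k7,k2)],[(k2,k2),(k5,k2),(k6,k2),(k9,k2)],[(k2,k2),(k5,k2),(k6,k2),(k9,
    k2)],[(k0,k2),(k3,k2)],[(k0,k2),(k3,k2)],[(k2,k2),(k5,k2),(k6,k2),(k9,k2)],[(k2,k2),(k5,k2),(k6,k2),(k9,k2)],[(k1,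
    k2)]]
    [] k0
    [[k1,k0,k1,k0,k1],[k1,k0,k0,k1,k1]]
    [.ref k0 k0 [(z1,[z1])],.ref k1 k0 [(z1,[z1])]]]⟩

/-- classes `0 1 0 1 2`, types `B0 S0 B1 S0 S0` -/
noncomputable def cT5_287 : CertT :=
  ⟨[k8,k16,k9,k16,k32],[(false,k0,[k0,k1,k2,k3,k4])],[[[([z1,z0,z1,z0,z1],z2)],[([z1,z0,z0,z1,z1],z2)],[]]],
    [.leafM k2 [k0,k1,k2,k3,k4] [(z1,[y1,z1])] [],
    .leafM k1 [k0,k1,k2,k3,k4] [(z1,[y1,z1])] [],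
    .lp [k2,k2,k2,k2,k2] [k0,k0,k0,k0,k0,k0,k0,k0,k0,k0] k0 [] k8 k5
    [[(k1,k2),(k8,k2)],[(k4,k2),(k7,k2)],[(k4,k2),(k7,k2)],[(k2,k2),(k5,k2),(k6,k2),(k9,k2)],[(k2,k2),(k5,k2),(k6,k2),
    (k9,k2)],[(k0,k2),(k3,k2)],[(k0,k2),(k3,k2)],[(k2,k2),(k5,k2),(k6,k2),(k9,k2)],[(k2,k2),(k5,k2),(k6,k2),(k9,k2)],
    [(k1,k2),(k8,k2)]]
    [] k0
    [[k1,k0,k1,k0,k1],[k1,k0,k0,k1,k1]]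
    [.ref k0 k0 [(z1,[z1])],.ref k1 k0 [(z1,[z1])]]]⟩

/-- classes `0 1 0 1 2`, types `C0 C0 C0 C0 C0` -/
noncomputable def cT5_288 : CertT :=
  ⟨[k4,k20,k4,k20,k36],[(true,k4,[k4,k3,k2,k1,k0]),(false,k0,[k0,k1,k2,k3,k4])],[[[([z1,z0,z0,z1,z1],z2)],[]]],
    [.leafM k1 [k0,k1,k2,k3,k4] [(z1,[y1,z1])] [],
    .lp [k2,k2,k2,k2,k2] [k0,k0,k0,k0,k0,k0,k0,k0,k0,k0] k0 [] k8 k5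
    [[(k8,k2)],[(k3,k2),(k7,k2)],[(k0,k2),(k4,k2)],[(k5,k2),(k9,k2)],[(k2,k2),(k6,k2)],[(k3,k2),(k7,k2)],[(k0,k2),(k4,
    k2)],[(k5,k2),(k9,k2)],[(k2,k2),(k6,k2)],[(k1,k2)]]
    [] k0
    [[k1,k1,k0,k0,k1],[k1,k0,k0,k1,k1]]
    [.ref k0 k0 [(z1,[z1])],.ref k0 k1 [(z1,[z1])]]]⟩

/-- classes `0 1 0 1 2`, types `C0 C0 C0 C0 S0` -/
noncomputable def cT5_289 : CertT :=
  ⟨[k4,k20,k4,k20,k32],[(true,k4,[k4,k3,k2,k1,k0]),(false,k0,[k0,k1,k2,k3,k4])],[[[([z1,z0,z0,z1,z1],z2)],[]]],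
    [.leafM k1 [k0,k1,k2,k3,k4] [(z1,[y1,z1])] [],
    .lp [k2,k2,k2,k2,k2] [k0,k0,k0,k0,k0,k0,k0,k0,k0,k0] k0 [] k8 k5
    [[(k1,k2),(k8,k2)],[(k3,k2),(k7,k2)],[(k0,k2),(k4,k2)],[(k5,k2),(k9,k2)],[(k2,k2),(k6,k2)],[(k3,k2),(k7,k2)],[(k0,
    k2),(k4,k2)],[(k5,k2),(k9,k2)],[(k2,k2),(k6,k2)],[(k1,k2),(k8,k2)]]
    [] k0
    [[k1,k1,k0,k0,k1],[k1,k0,k0,k1,k1]]
    [.ref k0 k0 [(z1,[z1])],.ref k0 k1 [(z1,[z1])]]]⟩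

/-- classes `0 1 0 1 2`, types `C0 C0 C0 C2 C0` -/
noncomputable def cT5_290 : CertT :=
  ⟨[k4,k20,k4,k22,k36],[(false,k0,[k0,k1,k2,k3,k4])],[[[([z1,z0,z0,z1,z1],z2)],[]]],
    [.leafM k1 [k0,k1,k2,k3,k4] [(z1,[y1,z1])] [],
    .lp [k2,k2,k2,k2,k2] [k0,k0,k0,k0,k0,k0,k0,k0,k0,k0] k0 [] k8 k5
    [[(k8,k2)],[(k3,k2),(k7,k2)],[(k0,k2),(k4,k2)],[(k5,k2),(k6,k2)],[(k2,k2),(k9,k2)],[(k3,k2),(k7,k2)],[(k0,k2),(k4,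
    k2)],[(k2,k2),(k9,k2)],[(k5,k2),(k6,k2)],[(k1,k2)]]
    [] k0
    [[k1,k0,k0,k1,k1]]
    [.ref k0 k0 [(z1,[z1])]]]⟩

/-- classes `0 1 0 1 2`, types `C0 C0 C0 C2 S0` -/
noncomputable def cT5_291 : CertT :=
  ⟨[k4,k20,k4,k22,k32],[(false,k0,[k0,k1,k2,k3,k4])],[[[([z1,z0,z0,z1,z1],z2)],[]]],
    [.leafM k1 [k0,k1,k2,k3,k4] [(z1,[y1,z1])] [],
    .lp [k2,k2,k2,k2,k2] [k0,k0,k0,k0,k0,k0,k0,k0,k0,k0] k0 [] k8 k5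
    [[(k1,k2),(k8,k2)],[(k3,k2),(k7,k2)],[(k0,k2),(k4,k2)],[(k5,k2),(k6,k2)],[(k2,k2),(k9,k2)],[(k3,k2),(k7,k2)],[(k0,
    k2),(k4,k2)],[(k2,k2),(k9,k2)],[(k5,k2),(k6,k2)],[(k1,k2),(k8,k2)]]
    [] k0
    [[k1,k0,k0,k1,k1]]
    [.ref k0 k0 [(z1,[z1])]]]⟩

/-- classes `0 1 0 1 2`, types `C0 C0 C2 C2 C0` -/
noncomputable def cT5_292 : CertT :=
  ⟨[k4,k20,k6,k22,k36],[(false,k0,[k0,k1,k2,k3,k4])],[[[([z1,z0,z1,z0,z1],z2)],[]]],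
    [.leafM k2 [k0,k1,k2,k3,k4] [(z1,[y1,z1])] [],
    .lp [k2,k2,k2,k2,k2] [k0,k0,k0,k0,k0,k0,k0,k0,k0,k0] k0 [] k8 k5
    [[(k8,k2)],[(k3,k2),(k4,k2)],[(k0,k2),(k7,k2)],[(k5,k2),(k6,k2)],[(k2,k2),(k9,k2)],[(k0,k2),(k7,k2)],[(k3,k2),(k4,
    k2)],[(k2,k2),(k9,k2)],[(k5,k2),(k6,k2)],[(k1,k2)]]
    [] k0
    [[k1,k0,k1,k0,k1]]
    [.ref k0 k0 [(z1,[z1])]]]⟩

/-- classes `0 1 0 1 2`, types `C0 C0 C2 C2 S0` -/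
noncomputable def cT5_293 : CertT :=
  ⟨[k4,k20,k6,k22,k32],[(false,k0,[k0,k1,k2,k3,k4])],[[[([z1,z0,z1,z0,z1],z2)],[]]],
    [.leafM k2 [k0,k1,k2,k3,k4] [(z1,[y1,z1])] [],
    .lp [k2,k2,k2,k2,k2] [k0,k0,k0,k0,k0,k0,k0,k0,k0,k0] k0 [] k8 k5
    [[(k1,k2),(k8,k2)],[(k3,k2),(k4,k2)],[(k0,k2),(k7,k2)],[(k5,k2),(k6,k2)],[(k2,k2),(k9,k2)],[(k0,k2),(k7,k2)],[(k3,
    k2),(k4,k2)],[(k2,k2),(k9,k2)],[(k5,k2),(k6,k2)],[(k1,k2),(k8,k2)]]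
    [] k0
    [[k1,k0,k1,k0,k1]]
    [.ref k0 k0 [(z1,[z1])]]]⟩

/-- classes `0 1 0 1 2`, types `C0 N0 C0 N1 C0` -/
noncomputable def cT5_294 : CertT :=
  ⟨[k4,k28,k4,k29,k36],[(false,k0,[k0,k1,k2,k3,k4])],[[[([z1,z1,z0,z0,z1],z2)],[]]],
    [.leafM k1 [k1,k2,k3,k4,k0] [(z1,[y1,z1])] [],
    .lp [k2,k2,k2,k2,k2] [k0,k0,k0,k0,k0,k0,k0,k0,k0,k0] k0 [] k8 k5
    [[(k8,k2)],[(k3,k2),(k7,k2)],[(k0,k2),(k4,k2)],[(k9,k2)],[(k6,k2)],[(k3,k2),(k7,k2)],[(k0,k2),(k4,k2)],[(k5,k2)],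
    [(k2,k2)],[(k1,k2)]]
    [] k0
    [[k1,k1,k0,k0,k1]]
    [.ref k0 k0 [(z1,[z1])]]]⟩

/-- classes `0 1 0 1 2`, types `C0 N0 C0 N1 S0` -/
noncomputable def cT5_295 : CertT :=
  ⟨[k4,k28,k4,k29,k32],[(false,k0,[k0,k1,k2,k3,k4])],[[[([z1,z1,z0,z0,z1],z2)],[]]],
    [.leafM k1 [k1,k2,k3,k4,k0] [(z1,[y1,z1])] [],
    .lp [k2,k2,k2,k2,k2] [k0,k0,k0,k0,k0,k0,k0,k0,k0,k0] k0 [] k8 k5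
    [[(k1,k2),(k8,k2)],[(k3,k2),(k7,k2)],[(k0,k2),(k4,k2)],[(k9,k2)],[(k6,k2)],[(k3,k2),(k7,k2)],[(k0,k2),(k4,k2)],
    [(k5,k2)],[(k2,k2)],[(k1,k2),(k8,k2)]]
    [] k0
    [[k1,k1,k0,k0,k1]]
    [.ref k0 k0 [(z1,[z1])]]]⟩

/-- classes `0 1 0 1 2`, types `C0 N0 C0 N2 C0` -/
noncomputable def cT5_296 : CertT :=
  ⟨[k4,k28,k4,k30,k36],[],[[[]]],
    [.lp [k2,k2,k2,k2,k2] [k0,k0,k0,k0,k0,k0,k0,k0,k0,k0] k0 [] k8 k5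
    [[(k8,k2)],[(k3,k2),(k7,k2)],[(k0,k2),(k4,k2)],[(k6,k2)],[(k9,k2)],[(k3,k2),(k7,k2)],[(k0,k2),(k4,k2)],[(k2,k2)],
    [(k5,k2)],[(k1,k2)]]
    [] k0
    []
    []]⟩

/-- classes `0 1 0 1 2`, types `C0 N0 C0 N2 S0` -/
noncomputable def cT5_297 : CertT :=
  ⟨[k4,k28,k4,k30,k32],[],[[[]]],
    [.lp [k2,k2,k2,k2,k2] [k0,k0,k0,k0,k0,k0,k0,k0,k0,k0] k0 [] k8 k5
    [[(k1,k2),(k8,k2)],[(k3,k2),(k7,k2)],[(k0,k2),(k4,k2)],[(k6,k2)],[(k9,k2)],[(k3,k2),(k7,k2)],[(k0,k2),(k4,k2)],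
    [(k2,k2)],[(k5,k2)],[(k1,k2),(k8,k2)]]
    [] k0
    []
    []]⟩

/-- classes `0 1 0 1 2`, types `C0 N0 C2 N1 C0` -/
noncomputable def cT5_298 : CertT :=
  ⟨[k4,k28,k6,k29,k36],[(false,k0,[k0,k1,k2,k3,k4])],[[[([z1,z1,z0,z0,z1],z2)],[]]],
    [.leafM k1 [k1,k2,k3,k4,k0] [(z1,[y1,z1])] [],
    .lp [k2,k2,k2,k2,k2] [k0,k0,k0,k0,k0,k0,k0,k0,k0,k0] k0 [] k8 k5
    [[(k8,k2)],[(k3,k2),(k4,k2)],[(k0,k2),(k7,k2)],[(k9,k2)],[(k6,k2)],[(k0,k2),(k7,k2)],[(k3,k2),(k4,k2)],[(k5,k2)],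
    [(k2,k2)],[(k1,k2)]]
    [] k0
    [[k1,k1,k0,k0,k1]]
    [.ref k0 k0 [(z1,[z1])]]]⟩

/-- classes `0 1 0 1 2`, types `C0 N0 C2 N1 S0` -/
noncomputable def cT5_299 : CertT :=
  ⟨[k4,k28,k6,k29,k32],[(false,k0,[k0,k1,k2,k3,k4])],[[[([z1,z1,z0,z0,z1],z2)],[]]],
    [.leafM k1 [k1,k2,k3,k4,k0] [(z1,[y1,z1])] [],
    .lp [k2,k2,k2,k2,k2] [k0,k0,k0,k0,k0,k0,k0,k0,k0,k0] k0 [] k8 k5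
    [[(k1,k2),(k8,k2)],[(k3,k2),(k4,k2)],[(k0,k2),(k7,k2)],[(k9,k2)],[(k6,k2)],[(k0,k2),(k7,k2)],[(k3,k2),(k4,k2)],
    [(k5,k2)],[(k2,k2)],[(k1,k2),(k8,k2)]]
    [] k0
    [[k1,k1,k0,k0,k1]]
    [.ref k0 k0 [(z1,[z1])]]]⟩

/-- classes `0 1 0 1 2`, types `C0 N0 C2 N2 C0` -/
noncomputable def cT5_300 : CertT :=
  ⟨[k4,k28,k6,k30,k36],[(false,k0,[k0,k1,k2,k3,k4])],[[[([z1,z0,z1,z0,z1],z2)],[]]],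
    [.leafM k2 [k0,k1,k2,k3,k4] [(z1,[y1,z1])] [],
    .lp [k2,k2,k2,k2,k2] [k0,k0,k0,k0,k0,k0,k0,k0,k0,k0] k0 [] k8 k5
    [[(k8,k2)],[(k3,k2),(k4,k2)],[(k0,k2),(k7,k2)],[(k6,k2)],[(k9,k2)],[(k0,k2),(k7,k2)],[(k3,k2),(k4,k2)],[(k2,k2)],
    [(k5,k2)],[(k1,k2)]]
    [] k0
    [[k1,k0,k1,k0,k1]]
    [.ref k0 k0 [(z1,[z1])]]]⟩

/-- classes `0 1 0 1 2`, types `C0 N0 C2 N2 S0` -/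
noncomputable def cT5_301 : CertT :=
  ⟨[k4,k28,k6,k30,k32],[(false,k0,[k0,k1,k2,k3,k4])],[[[([z1,z0,z1,z0,z1],z2)],[]]],
    [.leafM k2 [k0,k1,k2,k3,k4] [(z1,[y1,z1])] [],
    .lp [k2,k2,k2,k2,k2] [k0,k0,k0,k0,k0,k0,k0,k0,k0,k0] k0 [] k8 k5
    [[(k1,k2),(k8,k2)],[(k3,k2),(k4,k2)],[(k0,k2),(k7,k2)],[(k6,k2)],[(k9,k2)],[(k0,k2),(k7,k2)],[(k3,k2),(k4,k2)],
    [(k2,k2)],[(k5,k2)],[(k1,k2),(k8,k2)]]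
    [] k0
    [[k1,k0,k1,k0,k1]]
    [.ref k0 k0 [(z1,[z1])]]]⟩

/-- classes `0 1 0 1 2`, types `C0 S0 C0 S0 C0` -/
noncomputable def cT5_302 : CertT :=
  ⟨[k4,k16,k4,k16,k36],[(false,k0,[k0,k1,k2,k3,k4])],[[[([z1,z1,z0,z0,z1],z2)],[([z1,z0,z0,z1,z1],z2)],[]]],
    [.leafM k0 [k2,k3,k4,k0,k1] [(z1,[y1,z1])] [],
    .leafM k1 [k0,k1,k2,k3,k4] [(z1,[y1,z1])] [],
    .lp [k2,k2,k2,k2,k2] [k0,k0,k0,k0,k0,k0,k0,k0,k0,k0] k0 [] k8 k5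
    [[(k8,k2)],[(k3,k2),(k7,k2)],[(k0,k2),(k4,k2)],[(k2,k2),(k5,k2),(k6,k2),(k9,k2)],[(k2,k2),(k5,k2),(k6,k2),(k9,
    k2)],[(k3,k2),(k7,k2)],[(k0,k2),(k4,k2)],[(k2,k2),(k5,k2),(k6,k2),(k9,k2)],[(k2,k2),(k5,k2),(k6,k2),(k9,k2)],[(k1,
    k2)]]
    [] k0
    [[k1,k1,k0,k0,k1],[k1,k0,k0,k1,k1]]
    [.ref k0 k0 [(z1,[z1])],.ref k1 k0 [(z1,[z1])]]]⟩

/-- classes `0 1 0 1 2`, types `C0 S0 C0 S0 S0` -/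
noncomputable def cT5_303 : CertT :=
  ⟨[k4,k16,k4,k16,k32],[(false,k0,[k0,k1,k2,k3,k4])],[[[([z1,z1,z0,z0,z1],z2)],[([z1,z0,z0,z1,z1],z2)],[]]],
    [.leafM k0 [k2,k3,k4,k0,k1] [(z1,[y1,z1])] [],
    .leafM k1 [k0,k1,k2,k3,k4] [(z1,[y1,z1])] [],
    .lp [k2,k2,k2,k2,k2] [k0,k0,k0,k0,k0,k0,k0,k0,k0,k0] k0 [] k8 k5
    [[(k1,k2),(k8,k2)],[(k3,k2),(k7,k2)],[(k0,k2),(k4,k2)],[(k2,k2),(k5,k2),(k6,k2),(k9,k2)],[(k2,k2),(k5,k2),(k6,k2),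
    (k9,k2)],[(k3,k2),(k7,k2)],[(k0,k2),(k4,k2)],[(k2,k2),(k5,k2),(k6,k2),(k9,k2)],[(k2,k2),(k5,k2),(k6,k2),(k9,k2)],
    [(k1,k2),(k8,k2)]]
    [] k0
    [[k1,k1,k0,k0,k1],[k1,k0,k0,k1,k1]]
    [.ref k0 k0 [(z1,[z1])],.ref k1 k0 [(z1,[z1])]]]⟩

/-- classes `0 1 0 1 2`, types `C0 S0 C2 S0 C0` -/
noncomputable def cT5_304 : CertT :=
  ⟨[k4,k16,k6,k16,k36],[(false,k0,[k0,k1,k2,k3,k4])],[[[([z1,z1,z0,z0,z1],z2)],[([z1,z0,z1,z0,z1],z2)],[]]],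
    [.leafM k0 [k2,k3,k4,k0,k1] [(z1,[y1,z1])] [],
    .leafM k2 [k0,k1,k2,k3,k4] [(z1,[y1,z1])] [],
    .lp [k2,k2,k2,k2,k2] [k0,k0,k0,k0,k0,k0,k0,k0,k0,k0] k0 [] k8 k5
    [[(k8,k2)],[(k3,k2),(k4,k2)],[(k0,k2),(k7,k2)],[(k2,k2),(k5,k2),(k6,k2),(k9,k2)],[(k2,k2),(k5,k2),(k6,k2),(k9,
    k2)],[(k0,k2),(k7,k2)],[(k3,k2),(k4,k2)],[(k2,k2),(k5,k2),(k6,k2),(k9,k2)],[(k2,k2),(k5,k2),(k6,k2),(k9,k2)],[(k1,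
    k2)]]
    [] k0
    [[k1,k1,k0,k0,k1],[k1,k0,k1,k0,k1]]
    [.ref k0 k0 [(z1,[z1])],.ref k1 k0 [(z1,[z1])]]]⟩

/-- classes `0 1 0 1 2`, types `C0 S0 C2 S0 S0` -/
noncomputable def cT5_305 : CertT :=
  ⟨[k4,k16,k6,k16,k32],[(false,k0,[k0,k1,k2,k3,k4])],[[[([z1,z1,z0,z0,z1],z2)],[([z1,z0,z1,z0,z1],z2)],[]]],
    [.leafM k0 [k2,k3,k4,k0,k1] [(z1,[y1,z1])] [],
    .leafM k2 [k0,k1,k2,k3,k4] [(z1,[y1,z1])] [],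
    .lp [k2,k2,k2,k2,k2] [k0,k0,k0,k0,k0,k0,k0,k0,k0,k0] k0 [] k8 k5
    [[(k1,k2),(k8,k2)],[(k3,k2),(k4,k2)],[(k0,k2),(k7,k2)],[(k2,k2),(k5,k2),(k6,k2),(k9,k2)],[(k2,k2),(k5,k2),(k6,k2),
    (k9,k2)],[(k0,k2),(k7,k2)],[(k3,k2),(k4,k2)],[(k2,k2),(k5,k2),(k6,k2),(k9,k2)],[(k2,k2),(k5,k2),(k6,k2),(k9,k2)],
    [(k1,k2),(k8,k2)]]
    [] k0
    [[k1,k1,k0,k0,k1],[k1,k0,k1,k0,k1]]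
    [.ref k0 k0 [(z1,[z1])],.ref k1 k0 [(z1,[z1])]]]⟩

/-- classes `0 1 0 1 2`, types `N0 N0 N1 N1 C0` -/
noncomputable def cT5_306 : CertT :=
  ⟨[k12,k28,k13,k29,k36],[],[[[]]],
    [.lp [k2,k2,k2,k2,k2] [k0,k0,k0,k0,k0,k0,k0,k0,k0,k0] k0 [] k8 k5
    [[(k8,k2)],[(k7,k2)],[(k4,k2)],[(k9,k2)],[(k6,k2)],[(k3,k2)],[(k0,k2)],[(k5,k2)],[(k2,k2)],[(k1,k2)]]
    [] k0
    []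
    []]⟩

/-- classes `0 1 0 1 2`, types `N0 N0 N1 N1 S0` -/
noncomputable def cT5_307 : CertT :=
  ⟨[k12,k28,k13,k29,k32],[],[[[]]],
    [.lp [k2,k2,k2,k2,k2] [k0,k0,k0,k0,k0,k0,k0,k0,k0,k0] k0 [] k8 k5
    [[(k1,k2),(k8,k2)],[(k7,k2)],[(k4,k2)],[(k9,k2)],[(k6,k2)],[(k3,k2)],[(k0,k2)],[(k5,k2)],[(k2,k2)],[(k1,k2),(k8,
    k2)]]
    [] k0
    []
    []]⟩

/-- classes `0 1 0 1 2`, types `N0 N0 N1 N2 C0` -/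
noncomputable def cT5_308 : CertT :=
  ⟨[k12,k28,k13,k30,k36],[],[[[]]],
    [.lp [k2,k2,k2,k2,k2] [k0,k0,k0,k0,k0,k0,k0,k0,k0,k0] k0 [] k8 k5
    [[(k8,k2)],[(k7,k2)],[(k4,k2)],[(k6,k2)],[(k9,k2)],[(k3,k2)],[(k0,k2)],[(k2,k2)],[(k5,k2)],[(k1,k2)]]
    [] k0
    []
    []]⟩

/-- classes `0 1 0 1 2`, types `N0 N0 N1 N2 S0` -/
noncomputable def cT5_309 : CertT :=
  ⟨[k12,k28,k13,k30,k32],[],[[[]]],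
    [.lp [k2,k2,k2,k2,k2] [k0,k0,k0,k0,k0,k0,k0,k0,k0,k0] k0 [] k8 k5
    [[(k1,k2),(k8,k2)],[(k7,k2)],[(k4,k2)],[(k6,k2)],[(k9,k2)],[(k3,k2)],[(k0,k2)],[(k2,k2)],[(k5,k2)],[(k1,k2),(k8,
    k2)]]
    [] k0
    []
    []]⟩

/-- classes `0 1 0 1 2`, types `N0 N0 N2 N2 C0` -/
noncomputable def cT5_310 : CertT :=
  ⟨[k12,k28,k14,k30,k36],[(false,k0,[k0,k1,k2,k3,k4])],[[[([z1,z0,z1,z0,z1],z2)],[]]],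
    [.leafM k2 [k0,k1,k2,k3,k4] [(z1,[y1,z1])] [],
    .lp [k2,k4,k2,k0,k2] [k1,k1,k0,k0,k1,k1,k2,k2,k1,k1] k0 [] k8 k5
    [[(k8,k2)],[(k4,k2)],[(k7,k2)],[(k6,k2)],[(k9,k2)],[(k0,k2)],[(k3,k2)],[(k2,k2)],[(k5,k2)],[(k1,k2)]]
    [] k0
    [[k1,k0,k1,k0,k1]]
    [.ref k0 k0 [(z1,[z1])]]]⟩

/-- classes `0 1 0 1 2`, types `N0 N0 N2 N2 S0` -/
noncomputable def cT5_311 : CertT :=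
  ⟨[k12,k28,k14,k30,k32],[(false,k0,[k0,k1,k2,k3,k4])],[[[([z1,z0,z1,z0,z1],z2)],[]]],
    [.leafM k2 [k0,k1,k2,k3,k4] [(z1,[y1,z1])] [],
    .lp [k2,k4,k2,k0,k2] [k1,k1,k0,k0,k1,k1,k2,k2,k1,k1] k0 [] k8 k5
    [[(k1,k2),(k8,k2)],[(k4,k2)],[(k7,k2)],[(k6,k2)],[(k9,k2)],[(k0,k2)],[(k3,k2)],[(k2,k2)],[(k5,k2)],[(k1,k2),(k8,
    k2)]]
    [] k0
    [[k1,k0,k1,k0,k1]]
    [.ref k0 k0 [(z1,[z1])]]]⟩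

/-- classes `0 1 0 1 2`, types `N0 S0 N1 S0 C0` -/
noncomputable def cT5_312 : CertT :=
  ⟨[k12,k16,k13,k16,k36],[(false,k0,[k0,k1,k2,k3,k4])],[[[([z1,z0,z0,z1,z1],z2)],[]]],
    [.leafM k1 [k0,k1,k2,k3,k4] [(z1,[y1,z1])] [],
    .lp [k2,k2,k2,k2,k2] [k0,k0,k0,k0,k0,k0,k0,k0,k0,k0] k0 [] k8 k5
    [[(k8,k2)],[(k7,k2)],[(k4,k2)],[(k2,k2),(k5,k2),(k6,k2),(k9,k2)],[(k2,k2),(k5,k2),(k6,k2),(k9,k2)],[(k3,k2)],[(k0,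
    k2)],[(k2,k2),(k5,k2),(k6,k2),(k9,k2)],[(k2,k2),(k5,k2),(k6,k2),(k9,k2)],[(k1,k2)]]
    [] k0
    [[k1,k0,k0,k1,k1]]
    [.ref k0 k0 [(z1,[z1])]]]⟩

/-- classes `0 1 0 1 2`, types `N0 S0 N1 S0 S0` -/
noncomputable def cT5_313 : CertT :=
  ⟨[k12,k16,k13,k16,k32],[(false,k0,[k0,k1,k2,k3,k4])],[[[([z1,z0,z0,z1,z1],z2)],[]]],
    [.leafM k1 [k0,k1,k2,k3,k4] [(z1,[y1,z1])] [],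
    .lp [k2,k2,k2,k2,k2] [k0,k0,k0,k0,k0,k0,k0,k0,k0,k0] k0 [] k8 k5
    [[(k1,k2),(k8,k2)],[(k7,k2)],[(k4,k2)],[(k2,k2),(k5,k2),(k6,k2),(k9,k2)],[(k2,k2),(k5,k2),(k6,k2),(k9,k2)],[(k3,
    k2)],[(k0,k2)],[(k2,k2),(k5,k2),(k6,k2),(k9,k2)],[(k2,k2),(k5,k2),(k6,k2),(k9,k2)],[(k1,k2),(k8,k2)]]
    [] k0
    [[k1,k0,k0,k1,k1]]
    [.ref k0 k0 [(z1,[z1])]]]⟩

/-- classes `0 1 0 1 2`, types `N0 S0 N2 S0 C0` -/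
noncomputable def cT5_314 : CertT :=
  ⟨[k12,k16,k14,k16,k36],[(false,k0,[k0,k1,k2,k3,k4])],[[[([z1,z0,z1,z0,z1],z2)],[]]],
    [.leafM k2 [k0,k1,k2,k3,k4] [(z1,[y1,z1])] [],
    .lp [k2,k2,k2,k2,k2] [k0,k0,k0,k0,k0,k0,k0,k0,k0,k0] k0 [] k8 k5
    [[(k8,k2)],[(k4,k2)],[(k7,k2)],[(k2,k2),(k5,k2),(k6,k2),(k9,k2)],[(k2,k2),(k5,k2),(k6,k2),(k9,k2)],[(k0,k2)],[(k3,
    k2)],[(k2,k2),(k5,k2),(k6,k2),(k9,k2)],[(k2,k2),(k5,k2),(k6,k2),(k9,k2)],[(k1,k2)]]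
    [] k0
    [[k1,k0,k1,k0,k1]]
    [.ref k0 k0 [(z1,[z1])]]]⟩

/-- classes `0 1 0 1 2`, types `N0 S0 N2 S0 S0` -/
noncomputable def cT5_315 : CertT :=
  ⟨[k12,k16,k14,k16,k32],[(false,k0,[k0,k1,k2,k3,k4])],[[[([z1,z0,z1,z0,z1],z2)],[]]],
    [.leafM k2 [k0,k1,k2,k3,k4] [(z1,[y1,z1])] [],
    .lp [k2,k2,k2,k2,k2] [k0,k0,k0,k0,k0,k0,k0,k0,k0,k0] k0 [] k8 k5
    [[(k1,k2),(k8,k2)],[(k4,k2)],[(k7,k2)],[(k2,k2),(k5,k2),(k6,k2),(k9,k2)],[(k2,k2),(k5,k2),(k6,k2),(k9,k2)],[(k0,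
    k2)],[(k3,k2)],[(k2,k2),(k5,k2),(k6,k2),(k9,k2)],[(k2,k2),(k5,k2),(k6,k2),(k9,k2)],[(k1,k2),(k8,k2)]]
    [] k0
    [[k1,k0,k1,k0,k1]]
    [.ref k0 k0 [(z1,[z1])]]]⟩

/-- classes `0 1 0 1 2`, types `S0 S0 S0 S0 C0` -/
noncomputable def cT5_316 : CertT :=
  ⟨[k0,k16,k0,k16,k36],[(true,k4,[k4,k3,k2,k1,k0]),(false,k0,[k0,k1,k2,k3,k4])],[[[([z1,z0,z0,z1,z1],z2)],[([z1,z0,z1,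
    z0,z1],z2)],[]]],
    [.leafM k0 [k1,k2,k3,k4,k0] [(z1,[y1,z1])] [],
    .leafM k2 [k0,k1,k2,k3,k4] [(z1,[y1,z1])] [],
    .lp [k2,k2,k2,k2,k2] [k0,k0,k0,k0,k0,k0,k0,k0,k0,k0] k0 [] k8 k5
    [[(k8,k2)],[(k0,k2),(k3,k2),(k4,k2),(k7,k2)],[(k0,k2),(k3,k2),(k4,k2),(k7,k2)],[(k2,k2),(k5,k2),(k6,k2),(k9,k2)],
    [(k2,k2),(k5,k2),(k6,k2),(k9,k2)],[(k0,k2),(k3,k2),(k4,k2),(k7,k2)],[(k0,k2),(k3,k2),(k4,k2),(k7,k2)],[(k2,k2),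
    (k5,k2),(k6,k2),(k9,k2)],[(k2,k2),(k5,k2),(k6,k2),(k9,k2)],[(k1,k2)]]
    [] k0
    [[k1,k1,k0,k0,k1],[k1,k0,k1,k0,k1],[k1,k0,k0,k1,k1]]
    [.ref k0 k0 [(z1,[z1])],.ref k1 k1 [(z1,[z1])],.ref k0 k1 [(z1,[z1])]]]⟩

/-- classes `0 1 0 2 3`, types `B0 C0 B1 C0 C0` -/
noncomputable def cT5_317 : CertT :=
  ⟨[k8,k20,k9,k36,k52],[(false,k0,[k0,k1,k2,k3,k4])],[[[([z1,z0,z0,z1,z1],z2)],[]]],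
    [.leafM k1 [k0,k1,k2,k3,k4] [(z1,[y1,z1])] [],
    .lp [k2,k2,k2,k2,k2] [k0,k0,k0,k0,k0,k0,k0,k0,k0,k0] k0 [] k8 k5
    [[(k8,k2)],[(k4,k2),(k7,k2)],[(k4,k2),(k7,k2)],[(k5,k2)],[(k2,k2)],[(k0,k2),(k3,k2)],[(k0,k2),(k3,k2)],[(k9,k2)],
    [(k6,k2)],[(k1,k2)]]
    [] k0
    [[k1,k0,k0,k1,k1]]
    [.ref k0 k0 [(z1,[z1])]]]⟩

/-- classes `0 1 0 2 3`, types `B0 C0 B1 C0 S0` -/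
noncomputable def cT5_318 : CertT :=
  ⟨[k8,k20,k9,k36,k48],[(false,k0,[k0,k1,k2,k3,k4])],[[[([z1,z0,z0,z1,z1],z2)],[]]],
    [.leafM k1 [k0,k1,k2,k3,k4] [(z1,[y1,z1])] [],
    .lp [k2,k2,k2,k2,k2] [k0,k0,k0,k0,k0,k0,k0,k0,k0,k0] k0 [] k8 k5
    [[(k1,k2),(k8,k2)],[(k4,k2),(k7,k2)],[(k4,k2),(k7,k2)],[(k5,k2)],[(k2,k2)],[(k0,k2),(k3,k2)],[(k0,k2),(k3,k2)],
    [(k9,k2)],[(k6,k2)],[(k1,k2),(k8,k2)]]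
    [] k0
    [[k1,k0,k0,k1,k1]]
    [.ref k0 k0 [(z1,[z1])]]]⟩

/-- classes `0 1 0 2 3`, types `B0 C0 B1 S0 S0` -/
noncomputable def cT5_319 : CertT :=
  ⟨[k8,k20,k9,k32,k48],[(false,k0,[k0,k1,k2,k3,k4])],[[[([z1,z0,z0,z1,z1],z2)],[]]],
    [.leafM k1 [k0,k1,k2,k3,k4] [(z1,[y1,z1])] [],
    .lp [k2,k2,k2,k2,k2] [k0,k0,k0,k0,k0,k0,k0,k0,k0,k0] k0 [] k8 k5
    [[(k1,k2),(k8,k2)],[(k4,k2),(k7,k2)],[(k4,k2),(k7,k2)],[(k5,k2)],[(k2,k2)],[(k0,k2),(k3,k2)],[(k0,k2),(k3,k2)],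
    [(k6,k2),(k9,k2)],[(k6,k2),(k9,k2)],[(k1,k2),(k8,k2)]]
    [] k0
    [[k1,k0,k0,k1,k1]]
    [.ref k0 k0 [(z1,[z1])]]]⟩

/-- classes `0 1 0 2 3`, types `B0 S0 B1 C0 C0` -/
noncomputable def cT5_320 : CertT :=
  ⟨[k8,k16,k9,k36,k52],[(false,k0,[k0,k1,k2,k3,k4])],[[[([z1,z0,z0,z1,z1],z2)],[]]],
    [.leafM k1 [k0,k1,k2,k3,k4] [(z1,[y1,z1])] [],
    .lp [k2,k2,k2,k2,k2] [k0,k0,k0,k0,k0,k0,k0,k0,k0,k0] k0 [] k8 k5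
    [[(k8,k2)],[(k4,k2),(k7,k2)],[(k4,k2),(k7,k2)],[(k2,k2),(k5,k2)],[(k2,k2),(k5,k2)],[(k0,k2),(k3,k2)],[(k0,k2),(k3,
    k2)],[(k9,k2)],[(k6,k2)],[(k1,k2)]]
    [] k0
    [[k1,k0,k0,k1,k1]]
    [.ref k0 k0 [(z1,[z1])]]]⟩

/-- classes `0 1 0 2 3`, types `B0 S0 B1 C0 S0` -/
noncomputable def cT5_321 : CertT :=
  ⟨[k8,k16,k9,k36,k48],[(false,k0,[k0,k1,k2,k3,k4])],[[[([z1,z0,z0,z1,z1],z2)],[]]],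
    [.leafM k1 [k0,k1,k2,k3,k4] [(z1,[y1,z1])] [],
    .lp [k2,k2,k2,k2,k2] [k0,k0,k0,k0,k0,k0,k0,k0,k0,k0] k0 [] k8 k5
    [[(k1,k2),(k8,k2)],[(k4,k2),(k7,k2)],[(k4,k2),(k7,k2)],[(k2,k2),(k5,k2)],[(k2,k2),(k5,k2)],[(k0,k2),(k3,k2)],[(k0,
    k2),(k3,k2)],[(k9,k2)],[(k6,k2)],[(k1,k2),(k8,k2)]]
    [] k0
    [[k1,k0,k0,k1,k1]]
    [.ref k0 k0 [(z1,[z1])]]]⟩

/-- classes `0 1 0 2 3`, types `B0 S0 B1 S0 S0` -/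
noncomputable def cT5_322 : CertT :=
  ⟨[k8,k16,k9,k32,k48],[(false,k0,[k0,k1,k2,k3,k4])],[[[([z1,z0,z0,z1,z1],z2)],[]]],
    [.leafM k1 [k0,k1,k2,k3,k4] [(z1,[y1,z1])] [],
    .lp [k2,k2,k2,k2,k2] [k0,k0,k0,k0,k0,k0,k0,k0,k0,k0] k0 [] k8 k5
    [[(k1,k2),(k8,k2)],[(k4,k2),(k7,k2)],[(k4,k2),(k7,k2)],[(k2,k2),(k5,k2)],[(k2,k2),(k5,k2)],[(k0,k2),(k3,k2)],[(k0,
    k2),(k3,k2)],[(k6,k2),(k9,k2)],[(k6,k2),(k9,k2)],[(k1,k2),(k8,k2)]]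
    [] k0
    [[k1,k0,k0,k1,k1]]
    [.ref k0 k0 [(z1,[z1])]]]⟩

/-- classes `0 1 0 2 3`, types `C0 C0 C0 C0 C0` -/
noncomputable def cT5_323 : CertT :=
  ⟨[k4,k20,k4,k36,k52],[(false,k0,[k0,k1,k2,k3,k4])],[[[([z1,z0,z0,z1,z1],z2)],[]]],
    [.leafM k1 [k0,k1,k2,k3,k4] [(z1,[y1,z1])] [],
    .lp [k2,k2,k2,k2,k2] [k0,k0,k0,k0,k0,k0,k0,k0,k0,k0] k0 [] k8 k5
    [[(k8,k2)],[(k3,k2),(k7,k2)],[(k0,k2),(k4,k2)],[(k5,k2)],[(k2,k2)],[(k3,k2),(k7,k2)],[(k0,k2),(k4,k2)],[(k9,k2)],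
    [(k6,k2)],[(k1,k2)]]
    [] k0
    [[k1,k0,k0,k1,k1]]
    [.ref k0 k0 [(z1,[z1])]]]⟩

/-- classes `0 1 0 2 3`, types `C0 C0 C0 C0 S0` -/
noncomputable def cT5_324 : CertT :=
  ⟨[k4,k20,k4,k36,k48],[(false,k0,[k0,k1,k2,k3,k4])],[[[([z1,z0,z0,z1,z1],z2)],[]]],
    [.leafM k1 [k0,k1,k2,k3,k4] [(z1,[y1,z1])] [],
    .lp [k2,k2,k2,k2,k2] [k0,k0,k0,k0,k0,k0,k0,k0,k0,k0] k0 [] k8 k5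
    [[(k1,k2),(k8,k2)],[(k3,k2),(k7,k2)],[(k0,k2),(k4,k2)],[(k5,k2)],[(k2,k2)],[(k3,k2),(k7,k2)],[(k0,k2),(k4,k2)],
    [(k9,k2)],[(k6,k2)],[(k1,k2),(k8,k2)]]
    [] k0
    [[k1,k0,k0,k1,k1]]
    [.ref k0 k0 [(z1,[z1])]]]⟩

/-- classes `0 1 0 2 3`, types `C0 C0 C0 S0 S0` -/
noncomputable def cT5_325 : CertT :=
  ⟨[k4,k20,k4,k32,k48],[(false,k0,[k0,k1,k2,k3,k4])],[[[([z1,z0,z0,z1,z1],z2)],[]]],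
    [.leafM k1 [k0,k1,k2,k3,k4] [(z1,[y1,z1])] [],
    .lp [k2,k2,k2,k2,k2] [k0,k0,k0,k0,k0,k0,k0,k0,k0,k0] k0 [] k8 k5
    [[(k1,k2),(k8,k2)],[(k3,k2),(k7,k2)],[(k0,k2),(k4,k2)],[(k5,k2)],[(k2,k2)],[(k3,k2),(k7,k2)],[(k0,k2),(k4,k2)],
    [(k6,k2),(k9,k2)],[(k6,k2),(k9,k2)],[(k1,k2),(k8,k2)]]
    [] k0
    [[k1,k0,k0,k1,k1]]
    [.ref k0 k0 [(z1,[z1])]]]⟩

/-- classes `0 1 0 2 3`, types `C0 C0 C2 C0 C0` -/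
noncomputable def cT5_326 : CertT :=
  ⟨[k4,k20,k6,k36,k52],[],[[[]]],
    [.lp [k2,k2,k2,k2,k2] [k0,k0,k0,k0,k0,k0,k0,k0,k0,k0] k0 [] k8 k5
    [[(k8,k2)],[(k3,k2),(k4,k2)],[(k0,k2),(k7,k2)],[(k5,k2)],[(k2,k2)],[(k0,k2),(k7,k2)],[(k3,k2),(k4,k2)],[(k9,k2)],
    [(k6,k2)],[(k1,k2)]]
    [] k0
    []
    []]⟩

/-- classes `0 1 0 2 3`, types `C0 C0 C2 C0 S0` -/
noncomputable def cT5_327 : CertT :=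
  ⟨[k4,k20,k6,k36,k48],[],[[[]]],
    [.lp [k2,k2,k2,k2,k2] [k0,k0,k0,k0,k0,k0,k0,k0,k0,k0] k0 [] k8 k5
    [[(k1,k2),(k8,k2)],[(k3,k2),(k4,k2)],[(k0,k2),(k7,k2)],[(k5,k2)],[(k2,k2)],[(k0,k2),(k7,k2)],[(k3,k2),(k4,k2)],
    [(k9,k2)],[(k6,k2)],[(k1,k2),(k8,k2)]]
    [] k0
    []
    []]⟩

/-- classes `0 1 0 2 3`, types `C0 C0 C2 S0 S0` -/
noncomputable def cT5_328 : CertT :=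
  ⟨[k4,k20,k6,k32,k48],[],[[[]]],
    [.lp [k2,k2,k2,k2,k2] [k0,k0,k0,k0,k0,k0,k0,k0,k0,k0] k0 [] k8 k5
    [[(k1,k2),(k8,k2)],[(k3,k2),(k4,k2)],[(k0,k2),(k7,k2)],[(k5,k2)],[(k2,k2)],[(k0,k2),(k7,k2)],[(k3,k2),(k4,k2)],
    [(k6,k2),(k9,k2)],[(k6,k2),(k9,k2)],[(k1,k2),(k8,k2)]]
    [] k0
    []
    []]⟩

/-- classes `0 1 0 2 3`, types `C0 S0 C0 C0 C0` -/
noncomputable def cT5_329 : CertT :=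
  ⟨[k4,k16,k4,k36,k52],[(false,k0,[k0,k1,k2,k3,k4])],[[[([z1,z0,z0,z1,z1],z2)],[]]],
    [.leafM k1 [k0,k1,k2,k3,k4] [(z1,[y1,z1])] [],
    .lp [k2,k2,k2,k2,k2] [k0,k0,k0,k0,k0,k0,k0,k0,k0,k0] k0 [] k8 k5
    [[(k8,k2)],[(k3,k2),(k7,k2)],[(k0,k2),(k4,k2)],[(k2,k2),(k5,k2)],[(k2,k2),(k5,k2)],[(k3,k2),(k7,k2)],[(k0,k2),(k4,
    k2)],[(k9,k2)],[(k6,k2)],[(k1,k2)]]
    [] k0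
    [[k1,k0,k0,k1,k1]]
    [.ref k0 k0 [(z1,[z1])]]]⟩

/-- classes `0 1 0 2 3`, types `C0 S0 C0 C0 S0` -/
noncomputable def cT5_330 : CertT :=
  ⟨[k4,k16,k4,k36,k48],[(false,k0,[k0,k1,k2,k3,k4])],[[[([z1,z0,z0,z1,z1],z2)],[]]],
    [.leafM k1 [k0,k1,k2,k3,k4] [(z1,[y1,z1])] [],
    .lp [k2,k2,k2,k2,k2] [k0,k0,k0,k0,k0,k0,k0,k0,k0,k0] k0 [] k8 k5
    [[(k1,k2),(k8,k2)],[(k3,k2),(k7,k2)],[(k0,k2),(k4,k2)],[(k2,k2),(k5,k2)],[(k2,k2),(k5,k2)],[(k3,k2),(k7,k2)],[(k0,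
    k2),(k4,k2)],[(k9,k2)],[(k6,k2)],[(k1,k2),(k8,k2)]]
    [] k0
    [[k1,k0,k0,k1,k1]]
    [.ref k0 k0 [(z1,[z1])]]]⟩

/-- classes `0 1 0 2 3`, types `C0 S0 C0 S0 S0` -/
noncomputable def cT5_331 : CertT :=
  ⟨[k4,k16,k4,k32,k48],[(false,k0,[k0,k1,k2,k3,k4])],[[[([z1,z0,z0,z1,z1],z2)],[]]],
    [.leafM k1 [k0,k1,k2,k3,k4] [(z1,[y1,z1])] [],
    .lp [k2,k2,k2,k2,k2] [k0,k0,k0,k0,k0,k0,k0,k0,k0,k0] k0 [] k8 k5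
    [[(k1,k2),(k8,k2)],[(k3,k2),(k7,k2)],[(k0,k2),(k4,k2)],[(k2,k2),(k5,k2)],[(k2,k2),(k5,k2)],[(k3,k2),(k7,k2)],[(k0,
    k2),(k4,k2)],[(k6,k2),(k9,k2)],[(k6,k2),(k9,k2)],[(k1,k2),(k8,k2)]]
    [] k0
    [[k1,k0,k0,k1,k1]]
    [.ref k0 k0 [(z1,[z1])]]]⟩

/-- classes `0 1 0 2 3`, types `C0 S0 C2 C0 C0` -/
noncomputable def cT5_332 : CertT :=
  ⟨[k4,k16,k6,k36,k52],[],[[[]]],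
    [.lp [k2,k2,k2,k2,k2] [k0,k0,k0,k0,k0,k0,k0,k0,k0,k0] k0 [] k8 k5
    [[(k8,k2)],[(k3,k2),(k4,k2)],[(k0,k2),(k7,k2)],[(k2,k2),(k5,k2)],[(k2,k2),(k5,k2)],[(k0,k2),(k7,k2)],[(k3,k2),(k4,
    k2)],[(k9,k2)],[(k6,k2)],[(k1,k2)]]
    [] k0
    []
    []]⟩

/-- classes `0 1 0 2 3`, types `C0 S0 C2 C0 S0` -/
noncomputable def cT5_333 : CertT :=
  ⟨[k4,k16,k6,k36,k48],[],[[[]]],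
    [.lp [k2,k2,k2,k2,k2] [k0,k0,k0,k0,k0,k0,k0,k0,k0,k0] k0 [] k8 k5
    [[(k1,k2),(k8,k2)],[(k3,k2),(k4,k2)],[(k0,k2),(k7,k2)],[(k2,k2),(k5,k2)],[(k2,k2),(k5,k2)],[(k0,k2),(k7,k2)],[(k3,
    k2),(k4,k2)],[(k9,k2)],[(k6,k2)],[(k1,k2),(k8,k2)]]
    [] k0
    []
    []]⟩

/-- classes `0 1 0 2 3`, types `C0 S0 C2 S0 S0` -/
noncomputable def cT5_334 : CertT :=
  ⟨[k4,k16,k6,k32,k48],[],[[[]]],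
    [.lp [k2,k2,k2,k2,k2] [k0,k0,k0,k0,k0,k0,k0,k0,k0,k0] k0 [] k8 k5
    [[(k1,k2),(k8,k2)],[(k3,k2),(k4,k2)],[(k0,k2),(k7,k2)],[(k2,k2),(k5,k2)],[(k2,k2),(k5,k2)],[(k0,k2),(k7,k2)],[(k3,
    k2),(k4,k2)],[(k6,k2),(k9,k2)],[(k6,k2),(k9,k2)],[(k1,k2),(k8,k2)]]
    [] k0
    []
    []]⟩

/-- classes `0 1 0 2 3`, types `N0 C0 N1 C0 C0` -/
noncomputable def cT5_335 : CertT :=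
  ⟨[k12,k20,k13,k36,k52],[(false,k0,[k0,k1,k2,k3,k4])],[[[([z1,z0,z0,z1,z1],z2)],[]]],
    [.leafM k1 [k0,k1,k2,k3,k4] [(z1,[y1,z1])] [],
    .lp [k2,k4,k0,k2,k2] [k1,k1,k0,k0,k2,k2,k1,k1,k1,k1] k0 [] k8 k5
    [[(k8,k2)],[(k7,k2)],[(k4,k2)],[(k5,k2)],[(k2,k2)],[(k3,k2)],[(k0,k2)],[(k9,k2)],[(k6,k2)],[(k1,k2)]]
    [] k0
    [[k1,k0,k0,k1,k1]]
    [.ref k0 k0 [(z1,[z1])]]]⟩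

/-- classes `0 1 0 2 3`, types `N0 C0 N1 C0 S0` -/
noncomputable def cT5_336 : CertT :=
  ⟨[k12,k20,k13,k36,k48],[(false,k0,[k0,k1,k2,k3,k4])],[[[([z1,z0,z0,z1,z1],z2)],[]]],
    [.leafM k1 [k0,k1,k2,k3,k4] [(z1,[y1,z1])] [],
    .lp [k2,k4,k0,k2,k2] [k1,k1,k0,k0,k2,k2,k1,k1,k1,k1] k0 [] k8 k5
    [[(k1,k2),(k8,k2)],[(k7,k2)],[(k4,k2)],[(k5,k2)],[(k2,k2)],[(k3,k2)],[(k0,k2)],[(k9,k2)],[(k6,k2)],[(k1,k2),(k8,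
    k2)]]
    [] k0
    [[k1,k0,k0,k1,k1]]
    [.ref k0 k0 [(z1,[z1])]]]⟩

/-- classes `0 1 0 2 3`, types `N0 C0 N1 S0 S0` -/
noncomputable def cT5_337 : CertT :=
  ⟨[k12,k20,k13,k32,k48],[(false,k0,[k0,k1,k2,k3,k4])],[[[([z1,z0,z0,z1,z1],z2)],[]]],
    [.leafM k1 [k0,k1,k2,k3,k4] [(z1,[y1,z1])] [],
    .lp [k2,k4,k0,k2,k2] [k1,k1,k0,k0,k2,k2,k1,k1,k1,k1] k0 [] k8 k5
    [[(k1,k2),(k8,k2)],[(k7,k2)],[(k4,k2)],[(k5,k2)],[(k2,k2)],[(k3,k2)],[(k0,k2)],[(k6,k2),(k9,k2)],[(k6,k2),(k9,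
    k2)],[(k1,k2),(k8,k2)]]
    [] k0
    [[k1,k0,k0,k1,k1]]
    [.ref k0 k0 [(z1,[z1])]]]⟩

/-- classes `0 1 0 2 3`, types `N0 C0 N2 C0 C0` -/
noncomputable def cT5_338 : CertT :=
  ⟨[k12,k20,k14,k36,k52],[],[[[]]],
    [.lp [k2,k2,k2,k2,k2] [k0,k0,k0,k0,k0,k0,k0,k0,k0,k0] k0 [] k8 k5
    [[(k8,k2)],[(k4,k2)],[(k7,k2)],[(k5,k2)],[(k2,k2)],[(k0,k2)],[(k3,k2)],[(k9,k2)],[(k6,k2)],[(k1,k2)]]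
    [] k0
    []
    []]⟩

/-- classes `0 1 0 2 3`, types `N0 C0 N2 C0 S0` -/
noncomputable def cT5_339 : CertT :=
  ⟨[k12,k20,k14,k36,k48],[],[[[]]],
    [.lp [k2,k2,k2,k2,k2] [k0,k0,k0,k0,k0,k0,k0,k0,k0,k0] k0 [] k8 k5
    [[(k1,k2),(k8,k2)],[(k4,k2)],[(k7,k2)],[(k5,k2)],[(k2,k2)],[(k0,k2)],[(k3,k2)],[(k9,k2)],[(k6,k2)],[(k1,k2),(k8,
    k2)]]
    [] k0
    []
    []]⟩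

/-- classes `0 1 0 2 3`, types `N0 C0 N2 S0 S0` -/
noncomputable def cT5_340 : CertT :=
  ⟨[k12,k20,k14,k32,k48],[],[[[]]],
    [.lp [k2,k2,k2,k2,k2] [k0,k0,k0,k0,k0,k0,k0,k0,k0,k0] k0 [] k8 k5
    [[(k1,k2),(k8,k2)],[(k4,k2)],[(k7,k2)],[(k5,k2)],[(k2,k2)],[(k0,k2)],[(k3,k2)],[(k6,k2),(k9,k2)],[(k6,k2),(k9,
    k2)],[(k1,k2),(k8,k2)]]
    [] k0
    []
    []]⟩

/-- classes `0 1 0 2 3`, types `N0 S0 N1 C0 C0` -/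
noncomputable def cT5_341 : CertT :=
  ⟨[k12,k16,k13,k36,k52],[(false,k0,[k0,k1,k2,k3,k4])],[[[([z1,z0,z0,z1,z1],z2)],[]]],
    [.leafM k1 [k0,k1,k2,k3,k4] [(z1,[y1,z1])] [],
    .lp [k2,k2,k2,k2,k2] [k0,k0,k0,k0,k0,k0,k0,k0,k0,k0] k0 [] k8 k5
    [[(k8,k2)],[(k7,k2)],[(k4,k2)],[(k2,k2),(k5,k2)],[(k2,k2),(k5,k2)],[(k3,k2)],[(k0,k2)],[(k9,k2)],[(k6,k2)],[(k1,
    k2)]]
    [] k0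
    [[k1,k0,k0,k1,k1]]
    [.ref k0 k0 [(z1,[z1])]]]⟩

/-- classes `0 1 0 2 3`, types `N0 S0 N1 C0 S0` -/
noncomputable def cT5_342 : CertT :=
  ⟨[k12,k16,k13,k36,k48],[(false,k0,[k0,k1,k2,k3,k4])],[[[([z1,z0,z0,z1,z1],z2)],[]]],
    [.leafM k1 [k0,k1,k2,k3,k4] [(z1,[y1,z1])] [],
    .lp [k2,k2,k2,k2,k2] [k0,k0,k0,k0,k0,k0,k0,k0,k0,k0] k0 [] k8 k5
    [[(k1,k2),(k8,k2)],[(k7,k2)],[(k4,k2)],[(k2,k2),(k5,k2)],[(k2,k2),(k5,k2)],[(k3,k2)],[(k0,k2)],[(k9,k2)],[(k6,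
    k2)],[(k1,k2),(k8,k2)]]
    [] k0
    [[k1,k0,k0,k1,k1]]
    [.ref k0 k0 [(z1,[z1])]]]⟩

/-- classes `0 1 0 2 3`, types `N0 S0 N1 S0 S0` -/
noncomputable def cT5_343 : CertT :=
  ⟨[k12,k16,k13,k32,k48],[(false,k0,[k0,k1,k2,k3,k4])],[[[([z1,z0,z0,z1,z1],z2)],[]]],
    [.leafM k1 [k0,k1,k2,k3,k4] [(z1,[y1,z1])] [],
    .lp [k2,k2,k2,k2,k2] [k0,k0,k0,k0,k0,k0,k0,k0,k0,k0] k0 [] k8 k5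
    [[(k1,k2),(k8,k2)],[(k7,k2)],[(k4,k2)],[(k2,k2),(k5,k2)],[(k2,k2),(k5,k2)],[(k3,k2)],[(k0,k2)],[(k6,k2),(k9,k2)],
    [(k6,k2),(k9,k2)],[(k1,k2),(k8,k2)]]
    [] k0
    [[k1,k0,k0,k1,k1]]
    [.ref k0 k0 [(z1,[z1])]]]⟩

/-- classes `0 1 0 2 3`, types `N0 S0 N2 C0 C0` -/
noncomputable def cT5_344 : CertT :=
  ⟨[k12,k16,k14,k36,k52],[],[[[]]],
    [.lp [k2,k2,k2,k2,k2] [k0,k0,k0,k0,k0,k0,k0,k0,k0,k0] k0 [] k8 k5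
    [[(k8,k2)],[(k4,k2)],[(k7,k2)],[(k2,k2),(k5,k2)],[(k2,k2),(k5,k2)],[(k0,k2)],[(k3,k2)],[(k9,k2)],[(k6,k2)],[(k1,
    k2)]]
    [] k0
    []
    []]⟩

/-- classes `0 1 0 2 3`, types `N0 S0 N2 C0 S0` -/
noncomputable def cT5_345 : CertT :=
  ⟨[k12,k16,k14,k36,k48],[],[[[]]],
    [.lp [k2,k2,k2,k2,k2] [k0,k0,k0,k0,k0,k0,k0,k0,k0,k0] k0 [] k8 k5
    [[(k1,k2),(k8,k2)],[(k4,k2)],[(k7,k2)],[(k2,k2),(k5,k2)],[(k2,k2),(k5,k2)],[(k0,k2)],[(k3,k2)],[(k9,k2)],[(k6,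
    k2)],[(k1,k2),(k8,k2)]]
    [] k0
    []
    []]⟩

/-- classes `0 1 0 2 3`, types `N0 S0 N2 S0 S0` -/
noncomputable def cT5_346 : CertT :=
  ⟨[k12,k16,k14,k32,k48],[],[[[]]],
    [.lp [k2,k2,k2,k2,k2] [k0,k0,k0,k0,k0,k0,k0,k0,k0,k0] k0 [] k8 k5
    [[(k1,k2),(k8,k2)],[(k4,k2)],[(k7,k2)],[(k2,k2),(k5,k2)],[(k2,k2),(k5,k2)],[(k0,k2)],[(k3,k2)],[(k6,k2),(k9,k2)],
    [(k6,k2),(k9,k2)],[(k1,k2),(k8,k2)]]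
    [] k0
    []
    []]⟩

/-- classes `0 1 0 2 3`, types `S0 C0 S0 C0 C0` -/
noncomputable def cT5_347 : CertT :=
  ⟨[k0,k20,k0,k36,k52],[(false,k0,[k0,k1,k2,k3,k4])],[[[([z1,z0,z0,z1,z1],z2)],[]]],
    [.leafM k0 [k1,k2,k3,k4,k0] [(z1,[y1,z1])] [],
    .lp [k2,k2,k2,k2,k2] [k0,k0,k0,k0,k0,k0,k0,k0,k0,k0] k0 [] k8 k5
    [[(k8,k2)],[(k0,k2),(k3,k2),(k4,k2),(k7,k2)],[(k0,k2),(k3,k2),(k4,k2),(k7,k2)],[(k5,k2)],[(k2,k2)],[(k0,k2),(k3,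
    k2),(k4,k2),(k7,k2)],[(k0,k2),(k3,k2),(k4,k2),(k7,k2)],[(k9,k2)],[(k6,k2)],[(k1,k2)]]
    [] k0
    [[k1,k0,k0,k1,k1]]
    [.ref k0 k0 [(z1,[z1])]]]⟩

/-- classes `0 1 0 2 3`, types `S0 C0 S0 C0 S0` -/
noncomputable def cT5_348 : CertT :=
  ⟨[k0,k20,k0,k36,k48],[(false,k0,[k0,k1,k2,k3,k4])],[[[([z1,z0,z0,z1,z1],z2)],[]]],
    [.leafM k0 [k1,k2,k3,k4,k0] [(z1,[y1,z1])] [],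
    .lp [k2,k2,k2,k2,k2] [k0,k0,k0,k0,k0,k0,k0,k0,k0,k0] k0 [] k8 k5
    [[(k1,k2),(k8,k2)],[(k0,k2),(k3,k2),(k4,k2),(k7,k2)],[(k0,k2),(k3,k2),(k4,k2),(k7,k2)],[(k5,k2)],[(k2,k2)],[(k0,
    k2),(k3,k2),(k4,k2),(k7,k2)],[(k0,k2),(k3,k2),(k4,k2),(k7,k2)],[(k9,k2)],[(k6,k2)],[(k1,k2),(k8,k2)]]
    [] k0
    [[k1,k0,k0,k1,k1]]
    [.ref k0 k0 [(z1,[z1])]]]⟩

/-- classes `0 1 0 2 3`, types `S0 C0 S0 S0 S0` -/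
noncomputable def cT5_349 : CertT :=
  ⟨[k0,k20,k0,k32,k48],[(false,k0,[k0,k1,k2,k3,k4])],[[[([z1,z0,z0,z1,z1],z2)],[]]],
    [.leafM k0 [k1,k2,k3,k4,k0] [(z1,[y1,z1])] [],
    .lp [k2,k2,k2,k2,k2] [k0,k0,k0,k0,k0,k0,k0,k0,k0,k0] k0 [] k8 k5
    [[(k1,k2),(k8,k2)],[(k0,k2),(k3,k2),(k4,k2),(k7,k2)],[(k0,k2),(k3,k2),(k4,k2),(k7,k2)],[(k5,k2)],[(k2,k2)],[(k0,
    k2),(k3,k2),(k4,k2),(k7,k2)],[(k0,k2),(k3,k2),(k4,k2),(k7,k2)],[(k6,k2),(k9,k2)],[(k6,k2),(k9,k2)],[(k1,k2),(k8,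
    k2)]]
    [] k0
    [[k1,k0,k0,k1,k1]]
    [.ref k0 k0 [(z1,[z1])]]]⟩

/-- classes `0 1 0 2 3`, types `S0 S0 S0 C0 C0` -/
noncomputable def cT5_350 : CertT :=
  ⟨[k0,k16,k0,k36,k52],[(false,k0,[k0,k1,k2,k3,k4])],[[[([z1,z0,z0,z1,z1],z2)],[]]],
    [.leafM k0 [k1,k2,k3,k4,k0] [(z1,[y1,z1])] [],
    .lp [k2,k2,k2,k2,k2] [k0,k0,k0,k0,k0,k0,k0,k0,k0,k0] k0 [] k8 k5
    [[(k8,k2)],[(k0,k2),(k3,k2),(k4,k2),(k7,k2)],[(k0,k2),(k3,k2),(k4,k2),(k7,k2)],[(k2,k2),(k5,k2)],[(k2,k2),(k5,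
    k2)],[(k0,k2),(k3,k2),(k4,k2),(k7,k2)],[(k0,k2),(k3,k2),(k4,k2),(k7,k2)],[(k9,k2)],[(k6,k2)],[(k1,k2)]]
    [] k0
    [[k1,k0,k0,k1,k1]]
    [.ref k0 k0 [(z1,[z1])]]]⟩

/-- classes `0 1 0 2 3`, types `S0 S0 S0 C0 S0` -/
noncomputable def cT5_351 : CertT :=
  ⟨[k0,k16,k0,k36,k48],[(false,k0,[k0,k1,k2,k3,k4])],[[[([z1,z0,z0,z1,z1],z2)],[]]],
    [.leafM k0 [k1,k2,k3,k4,k0] [(z1,[y1,z1])] [],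
    .lp [k2,k2,k2,k2,k2] [k0,k0,k0,k0,k0,k0,k0,k0,k0,k0] k0 [] k8 k5
    [[(k1,k2),(k8,k2)],[(k0,k2),(k3,k2),(k4,k2),(k7,k2)],[(k0,k2),(k3,k2),(k4,k2),(k7,k2)],[(k2,k2),(k5,k2)],[(k2,k2),
    (k5,k2)],[(k0,k2),(k3,k2),(k4,k2),(k7,k2)],[(k0,k2),(k3,k2),(k4,k2),(k7,k2)],[(k9,k2)],[(k6,k2)],[(k1,k2),(k8,
    k2)]]
    [] k0
    [[k1,k0,k0,k1,k1]]
    [.ref k0 k0 [(z1,[z1])]]]⟩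

/-- classes `0 1 2 3 4`, types `C0 C0 C0 C0 C0` -/
noncomputable def cT5_352 : CertT :=
  ⟨[k4,k20,k36,k52,k68],[],[[[]]],
    [.lp [k2,k2,k2,k2,k2] [k0,k0,k0,k0,k0,k0,k0,k0,k0,k0] k0 [] k8 k5
    [[(k8,k2)],[(k3,k2)],[(k0,k2)],[(k5,k2)],[(k2,k2)],[(k7,k2)],[(k4,k2)],[(k9,k2)],[(k6,k2)],[(k1,k2)]]
    [] k0
    []
    []]⟩

/-- classes `0 1 2 3 4`, types `C0 C0 C0 C0 S0` -/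
noncomputable def cT5_353 : CertT :=
  ⟨[k4,k20,k36,k52,k64],[],[[[]]],
    [.lp [k2,k2,k2,k2,k2] [k0,k0,k0,k0,k0,k0,k0,k0,k0,k0] k0 [] k8 k5
    [[(k1,k2),(k8,k2)],[(k3,k2)],[(k0,k2)],[(k5,k2)],[(k2,k2)],[(k7,k2)],[(k4,k2)],[(k9,k2)],[(k6,k2)],[(k1,k2),(k8,
    k2)]]
    [] k0
    []
    []]⟩

/-- classes `0 1 2 3 4`, types `C0 C0 C0 S0 S0` -/
noncomputable def cT5_354 : CertT :=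
  ⟨[k4,k20,k36,k48,k64],[],[[[]]],
    [.lp [k2,k2,k2,k2,k2] [k0,k0,k0,k0,k0,k0,k0,k0,k0,k0] k0 [] k8 k5
    [[(k1,k2),(k8,k2)],[(k3,k2)],[(k0,k2)],[(k5,k2)],[(k2,k2)],[(k7,k2)],[(k4,k2)],[(k6,k2),(k9,k2)],[(k6,k2),(k9,
    k2)],[(k1,k2),(k8,k2)]]
    [] k0
    []
    []]⟩

/-- classes `0 1 2 3 4`, types `C0 C0 S0 C0 S0` -/
noncomputable def cT5_355 : CertT :=
  ⟨[k4,k20,k32,k52,k64],[],[[[]]],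
    [.lp [k2,k2,k2,k2,k2] [k0,k0,k0,k0,k0,k0,k0,k0,k0,k0] k0 [] k8 k5
    [[(k1,k2),(k8,k2)],[(k3,k2)],[(k0,k2)],[(k5,k2)],[(k2,k2)],[(k4,k2),(k7,k2)],[(k4,k2),(k7,k2)],[(k9,k2)],[(k6,
    k2)],[(k1,k2),(k8,k2)]]
    [] k0
    []
    []]⟩

/-- classes `0 1 2 3 4`, types `C0 C0 S0 S0 S0` -/
noncomputable def cT5_356 : CertT :=
  ⟨[k4,k20,k32,k48,k64],[],[[[]]],
    [.lp [k2,k2,k2,k2,k2] [k0,k0,k0,k0,k0,k0,k0,k0,k0,k0] k0 [] k8 k5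
    [[(k1,k2),(k8,k2)],[(k3,k2)],[(k0,k2)],[(k5,k2)],[(k2,k2)],[(k4,k2),(k7,k2)],[(k4,k2),(k7,k2)],[(k6,k2),(k9,k2)],
    [(k6,k2),(k9,k2)],[(k1,k2),(k8,k2)]]
    [] k0
    []
    []]⟩

/-- classes `0 1 2 3 4`, types `C0 S0 C0 S0 S0` -/
noncomputable def cT5_357 : CertT :=
  ⟨[k4,k16,k36,k48,k64],[],[[[]]],
    [.lp [k2,k2,k2,k2,k2] [k0,k0,k0,k0,k0,k0,k0,k0,k0,k0] k0 [] k8 k5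
    [[(k1,k2),(k8,k2)],[(k3,k2)],[(k0,k2)],[(k2,k2),(k5,k2)],[(k2,k2),(k5,k2)],[(k7,k2)],[(k4,k2)],[(k6,k2),(k9,k2)],
    [(k6,k2),(k9,k2)],[(k1,k2),(k8,k2)]]
    [] k0
    []
    []]⟩

/-- classes `0 1 2 3 4`, types `C0 S0 S0 S0 S0` -/
noncomputable def cT5_358 : CertT :=
  ⟨[k4,k16,k32,k48,k64],[],[[[]]],
    [.lp [k2,k2,k2,k2,k2] [k0,k0,k0,k0,k0,k0,k0,k0,k0,k0] k0 [] k8 k5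
    [[(k1,k2),(k8,k2)],[(k3,k2)],[(k0,k2)],[(k2,k2),(k5,k2)],[(k2,k2),(k5,k2)],[(k4,k2),(k7,k2)],[(k4,k2),(k7,k2)],
    [(k6,k2),(k9,k2)],[(k6,k2),(k9,k2)],[(k1,k2),(k8,k2)]]
    [] k0
    []
    []]⟩

/-- the certificates of this file -/
noncomputable def lT5_3 : List CertT :=
  [cT5_229, cT5_230, cT5_231, cT5_232, cT5_233, cT5_234, cT5_235, cT5_236, cT5_237, cT5_238, cT5_239, cT5_240,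
      cT5_241, cT5_242, cT5_243, cT5_244, cT5_245, cT5_246, cT5_247, cT5_248, cT5_249, cT5_250, cT5_251,
      cT5_252, cT5_253, cT5_254, cT5_255, cT5_256, cT5_257, cT5_258, cT5_259, cT5_260, cT5_261, cT5_262,
      cT5_263, cT5_264, cT5_265, cT5_266, cT5_267, cT5_268, cT5_269, cT5_270, cT5_271, cT5_272, cT5_273,
      cT5_274, cT5_275, cT5_276, cT5_277, cT5_278, cT5_279, cT5_280, cT5_281, cT5_282, cT5_283, cT5_284,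
      cT5_285, cT5_286, cT5_287, cT5_288, cT5_289, cT5_290, cT5_291, cT5_292, cT5_293, cT5_294, cT5_295,
      cT5_296, cT5_297, cT5_298, cT5_299, cT5_300, cT5_301, cT5_302, cT5_303, cT5_304, cT5_305, cT5_306,
      cT5_307, cT5_308, cT5_309, cT5_310, cT5_311, cT5_312, cT5_313, cT5_314, cT5_315, cT5_316, cT5_317,
      cT5_318, cT5_319, cT5_320, cT5_321, cT5_322, cT5_323, cT5_324, cT5_325, cT5_326, cT5_327, cT5_328,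
      cT5_329, cT5_330, cT5_331, cT5_332, cT5_333, cT5_334, cT5_335, cT5_336, cT5_337, cT5_338, cT5_339,
      cT5_340, cT5_341, cT5_342, cT5_343, cT5_344, cT5_345, cT5_346, cT5_347, cT5_348, cT5_349, cT5_350,
      cT5_351, cT5_352, cT5_353, cT5_354, cT5_355, cT5_356, cT5_357, cT5_358]

theorem gT5_3 : allF (chkC 5 tt5) lT5_3 = true := by
  decide +kernel

end Pool.Agent.Lib_MP_fa6e45
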