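import Pool.Agent.Lib_MP_fa6e45.CSTT
import Pool.Agent.Lib_MP_fa6e45.HK

/-!
MP_fa6e45_co, stage 5: certificates (captain, generated by a program).
-/

namespace Pool.Agent.Lib_MP_fa6e45

/-- classes `0 0 0 0 0 0`, types `B0 B0 B0 B1 B1 B1` -/
noncomputable def cT6_0 : CertT :=
  ⟨[k8,k8,k8,k9,k9,k9],[(false,k0,[k0,k1,k2,k3,k4,k5]),(false,k3,[k3,k4,k5,k0,k1,k2])],[[[([z1,z0,z0,y1,z0,z0],z0),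
    ([z0,z1,z0,z1,z1,z0],z2)],[([z1,z0,z0,y1,y1,z1],z0),([z0,z1,z0,z1,z1,z0],z2)],[([z1,z0,z0,y1,z1,y1],z0),([z0,z1,
    z0,z1,z0,z1],z2)],[([z1,z0,z1,z0,z0,z1],z2)],[([z1,z1,z0,z0,z0,z1],z2)],[([z1,z0,z1,z0,z1,z0],z2)],[]]],
    [.tor k0 false k0 [(z1,[y1,y1,z1]),(z1,[z0,z1]),(z1,[z0,y1,z1]),(z1,[z1,z1])],
    .leafM k6 [k2,k3,k4,k5,k0,k1] [(z1,[z1,z1])] [],
    .leafM k1 [k0,k1,k2,k3,k4,k5] [(z1,[z0,z1]),(z1,[z0,y1,z1])] [],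
    .lp [k8,k4,k8,k10,k8,k8] [k1,k1,k3,k3,k1,k1,k0,k0,k1,k1,k1,k1] k0 [[k0,k0,k0,k0,k0,k0,k2],[],[],[k0,k0,k0,k0,k0,k0,
    k2],[],[],[],[k0,k2,k2]] k24 k5
    [[(k2,k6),(k3,k6),(k0,k8),(k4,k8),(k5,k8),(k7,k9)],[(k9,k6),(k1,k8),(k8,k8),(k10,k8),(k11,k8),(k6,k9)],[(k1,k6),
    (k8,k6),(k9,k6),(k10,k6),(k11,k6),(k6,k9)],[(k1,k6),(k8,k6),(k9,k6),(k10,k6),(k11,k6),(k6,k9)],[(k9,k6),(k1,k8),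
    (k8,k8),(k10,k8),(k11,k8),(k6,k9)],[(k1,k8),(k8,k8),(k9,k8),(k10,k8),(k11,k8),(k6,k9)],[(k1,k9),(k8,k9),(k9,k9),
    (k10,k9),(k11,k9),(k6,k10)],[(k0,k9),(k2,k9),(k3,k9),(k4,k9),(k5,k9),(k7,k10)],[(k0,k6),(k2,k6),(k3,k6),(k5,k6),
    (k4,k8),(k7,k9)],[(k2,k6),(k3,k6),(k0,k8),(k4,k8),(k5,k8),(k7,k9)],[(k2,k6),(k3,k6),(k0,k8),(k4,k8),(k5,k8),(k7,
    k9)],[(k2,k6),(k3,k6),(k0,k8),(k4,k8),(k5,k8),(k7,k9)]]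
    [] k0
    [[k1,k1,k0,k0,k1,k0],[k1,k1,k0,k0,k0,k1],[k1,k0,k1,k0,k1,k0]]
    [.ref k0 k0 [(z1,[z1,z1,y1]),(z1,[z0,y1,z1])],.ref k1 k0 [(z1,[z1,z1,y1]),(z1,[z0,y1,z1])],.ref k2 k1 [(z1,[y1,y1,
    z1]),(z1,[z1])]],
    .leafM k6 [k2,k3,k4,k5,k0,k1] [(z1,[z1])] [],
    .leafM k1 [k0,k1,k2,k3,k4,k5] [(z1,[y1,z1]),(z1,[z1])] [],
    .lp [k8,k4,k8,k10,k8,k8] [k1,k1,k3,k3,k1,k1,k0,k0,k1,k1,k1,k1] k0 [[k0,k0,k0,k0,k0,k0,k2],[],[],[k0,k0,k0,k0,k0,k0,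
    k2],[],[],[],[k0,k2,k2]] k24 k5
    [[(k2,k6),(k3,k6),(k0,k8),(k4,k8),(k5,k8),(k7,k9)],[(k9,k6),(k1,k8),(k8,k8),(k10,k8),(k11,k8),(k6,k9)],[(k1,k6),
    (k8,k6),(k9,k6),(k10,k6),(k11,k6),(k6,k9)],[(k1,k6),(k8,k6),(k9,k6),(k10,k6),(k11,k6),(k6,k9)],[(k9,k6),(k1,k8),
    (k8,k8),(k10,k8),(k11,k8),(k6,k9)],[(k1,k8),(k8,k8),(k9,k8),(k10,k8),(k11,k8),(k6,k9)],[(k1,k9),(k8,k9),(k9,k9),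
    (k10,k9),(k11,k9),(k6,k10)],[(k0,k9),(k2,k9),(k3,k9),(k4,k9),(k5,k9),(k7,k10)],[(k0,k6),(k2,k6),(k3,k6),(k5,k6),
    (k4,k8),(k7,k9)],[(k2,k6),(k3,k6),(k0,k8),(k4,k8),(k5,k8),(k7,k9)],[(k2,k6),(k3,k6),(k0,k8),(k4,k8),(k5,k8),(k7,
    k9)],[(k2,k6),(k3,k6),(k0,k8),(k4,k8),(k5,k8),(k7,k9)]]
    [] k0
    [[k1,k1,k0,k0,k1,k0],[k1,k1,k0,k0,k0,k1],[k1,k0,k1,k0,k1,k0]]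
    [.ref k3 k1 [(z1,[y1,z1])],.ref k4 k0 [(z1,[z1])],.ref k5 k0 [(z1,[z1])]]]⟩

/-- classes `0 0 0 0 0 0`, types `B0 B0 B1 B0 B1 B1` -/
noncomputable def cT6_1 : CertT :=
  ⟨[k8,k8,k9,k8,k9,k9],[(true,k0,[k0,k5,k4,k3,k2,k1]),(false,k0,[k0,k1,k2,k3,k4,k5])],[[[([z1,z1,z0,z0,z0,z1],z2)],
    [([z1,z0,z1,z0,z1,z0],z2)],[([z1,z0,z0,z0,y1,z0],z0),([z0,z1,z0,z0,z1,z1],z2)],[([z1,z0,z0,z1,z1,z0],z2),([z0,z1,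
    z0,z1,z0,z1],z2)],[([z1,z0,z0,z1,z1,z0],z2),([z0,z1,z0,z0,z1,z1],z2)],[([z1,z0,z0,z1,z1,z0],z2)],[]]],
    [.leafM k6 [k2,k3,k4,k5,k0,k1] [(z1,[z1])] [],
    .leafM k5 [k0,k1,k2,k3,k4,k5] [(z1,[y1,z1]),(z1,[z1])] [],
    .leafM k6 [k2,k3,k4,k5,k0,k1] [(z1,[z1,z1])] [],
    .leafM k5 [k0,k1,k2,k3,k4,k5] [(z1,[z0,z1]),(z1,[z0,y1,z1])] [],
    .tor k8 false k0 [(z1,[z0,z1]),(z1,[y1,z0,z1]),(z1,[z1]),(z1,[z0,y1,z1])],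
    .lp [k8,k10,k8,k8,k8,k4] [k1,k1,k0,k0,k1,k1,k1,k1,k1,k1,k3,k3] k0 [[],[],[k0,k0,k0,k0,k0,k0,k0,k0,k0,k2,k2],[],[],[],
    [],[],[k0,k0,k0,k2],[],[],[k0,k0,k0,k2]] k24 k5
    [[(k2,k7),(k0,k8),(k5,k8),(k6,k8),(k9,k8),(k3,k9)],[(k10,k6),(k11,k6),(k1,k8),(k4,k8),(k7,k8),(k8,k8)],[(k10,k7),
    (k11,k7),(k1,k9),(k4,k9),(k7,k9),(k8,k9)],[(k1,k7),(k8,k7),(k10,k7),(k11,k7),(k4,k9),(k7,k9)],[(k1,k8),(k4,k8),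
    (k7,k8),(k8,k8),(k10,k8),(k11,k8)],[(k0,k8),(k5,k8),(k6,k8),(k9,k8),(k2,k9),(k3,k9)],[(k0,k8),(k5,k8),(k6,k8),(k9,
    k8),(k2,k9),(k3,k9)],[(k10,k6),(k11,k6),(k1,k8),(k4,k8),(k7,k8),(k8,k8)],[(k10,k6),(k11,k6),(k1,k8),(k4,k8),(k7,
    k8),(k8,k8)],[(k2,k7),(k0,k8),(k5,k8),(k6,k8),(k9,k8),(k3,k9)],[(k0,k6),(k6,k6),(k9,k6),(k2,k7),(k3,k7),(k5,k8)],
    [(k0,k6),(k6,k6),(k9,k6),(k2,k7),(k3,k7),(k5,k8)]]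
    [] k0
    [[k1,k1,k0,k0,k0,k1],[k0,k1,k0,k1,k0,k1],[k0,k1,k0,k0,k1,k1]]
    [.ref k2 k0 [(z1,[z1,z1,y1]),(z1,[z0,y1,z1])],.ref k3 k1 [(z1,[z0,z1]),(z1,[z1])],.ref k4 k1 [(z1,[z0,z1]),(z1,
    [z1])]],
    .lp [k8,k10,k8,k8,k8,k4] [k1,k1,k0,k0,k1,k1,k1,k1,k1,k1,k3,k3] k0 [[],[],[k0,k0,k0,k0,k0,k0,k0,k0,k0,k2,k2],[],[],[],
    [],[],[k0,k0,k0,k2],[],[],[k0,k0,k0,k2]] k24 k5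
    [[(k2,k7),(k0,k8),(k5,k8),(k6,k8),(k9,k8),(k3,k9)],[(k10,k6),(k11,k6),(k1,k8),(k4,k8),(k7,k8),(k8,k8)],[(k10,k7),
    (k11,k7),(k1,k9),(k4,k9),(k7,k9),(k8,k9)],[(k1,k7),(k8,k7),(k10,k7),(k11,k7),(k4,k9),(k7,k9)],[(k1,k8),(k4,k8),
    (k7,k8),(k8,k8),(k10,k8),(k11,k8)],[(k0,k8),(k5,k8),(k6,k8),(k9,k8),(k2,k9),(k3,k9)],[(k0,k8),(k5,k8),(k6,k8),(k9,
    k8),(k2,k9),(k3,k9)],[(k10,k6),(k11,k6),(k1,k8),(k4,k8),(k7,k8),(k8,k8)],[(k10,k6),(k11,k6),(k1,k8),(k4,k8),(k7,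
    k8),(k8,k8)],[(k2,k7),(k0,k8),(k5,k8),(k6,k8),(k9,k8),(k3,k9)],[(k0,k6),(k6,k6),(k9,k6),(k2,k7),(k3,k7),(k5,k8)],
    [(k0,k6),(k6,k6),(k9,k6),(k2,k7),(k3,k7),(k5,k8)]]
    [] k0
    [[k1,k1,k0,k0,k0,k1],[k0,k1,k0,k1,k0,k1],[k0,k1,k0,k0,k1,k1]]
    [.ref k0 k1 [(z1,[z1])],.ref k1 k1 [(z1,[y1,z1])],.ref k5 k0 [(z1,[y1,z1])]]]⟩

/-- the certificates of this file -/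
noncomputable def lT6_0 : List CertT :=
  [cT6_0, cT6_1]

theorem gT6_0 : allF (chkC 6 tt6) lT6_0 = true := by
  decide +kernel

end Pool.Agent.Lib_MP_fa6e45
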