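import Pool.Agent.Lib_MP_fa6e45.CG6_1d

/-!
MP_fa6e45_co, stage 5: certificates (captain, generated by a program).
-/

namespace Pool.Agent.Lib_MP_fa6e45

noncomputable def cT6_2_n0_0 : List TN :=
  [.leafM k6 [k2,k3,k4,k5,k0,k1] [(z1,[z1,z1])] [],
    .leafM k6 [k0,k1,k2,k3,k4,k5] [(z2,[y2,y1,y1,z2])] [],
    .leafM k6 [k0,k1,k2,k3,k4,k5] [(z1,[y1,y1,y1,z1])] [],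
    .leafM k1 [k0,k1,k2,k3,k4,k5] [(z1,[y1,z0,y1,z1]),(z1,[z1,z0,z1])] [],
    .tor k2 false k1 [(z1,[z0,y1,y1,z1]),(z1,[z0,z0,y1,z1]),(z1,[z0,z0,z1]),(z1,[z0,z1,z1])],
    .leafM k1 [k0,k1,k2,k3,k4,k5] [(z3,[z0,z1,z0,z1]),(z3,[z0,y1,z0,y1,z3])] [],
    .leafM k1 [k0,k1,k2,k3,k4,k5] [(z3,[y1,z0,y1,z0,y1,z3]),(z3,[z1,z0,z1,z0,z1])] [],
    .lp [k150,k164,k154,k152,k178,k160] [k14,k14,k7,k7,k12,k12,k13,k13,k0,k0,k9,k9] k0 [[k0,k0,k2,k0,k0,k0,k0,k0,k0,k0,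
    k20],[],[k0,k0,k0,k0,k0,k34,k0,k0,k6,k16],[k0,k2,k0,k0,k0,k12],[k0,k0,k12,k34,k0,k0,k0,k2],[k0,k0,k0,k0,k0,k0,k0,
    k0,k0,k0,k8],[k0,k0,k0,k0,k0,k2],[k0,k0,k0,k0,k0,k0,k0,k0,k8,k16],[k0,k0,k0,k16,k0,k0,k16,k0,k0,k0,k0,k10],[k0,k0,
    k0,k6,k0,k0,k8],[k0,k0,k0,k0,k0,k0,k0,k0,k0,k10],[k0,k20,k0,k0,k8]] (nat_lit 480) k5
    [[(k0,k130),(k7,k143),(k4,k152),(k3,k157),(k8,k164),(k11,k165)],[(k1,k130),(k5,k150),(k6,k151),(k10,k155),(k2,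
    k157),(k9,k164)],[(k1,k157),(k6,k158),(k5,k159),(k2,k166),(k9,k171),(k10,k182)],[(k4,k125),(k8,k155),(k11,k156),
    (k0,k157),(k3,k166),(k7,k170)],[(k4,k142),(k0,k150),(k3,k159),(k8,k172),(k11,k173),(k7,k187)],[(k2,k125),(k5,
    k142),(k6,k151),(k1,k152),(k10,k165),(k9,k166)],[(k1,k143),(k6,k152),(k10,k156),(k9,k167),(k2,k170),(k5,k187)],
    [(k0,k151),(k4,k151),(k7,k152),(k3,k158),(k11,k172),(k8,k173)],[(k11,k161),(k8,k162),(k0,k164),(k4,k166),(k7,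
    k167),(k3,k171)],[(k2,k155),(k10,k159),(k9,k162),(k1,k164),(k5,k172),(k6,k173)],[(k2,k156),(k10,k160),(k9,k161),
    (k1,k165),(k6,k172),(k5,k173)],[(k0,k155),(k7,k156),(k8,k159),(k11,k160),(k4,k165),(k3,k182)]]
    [] k0
    [[k3,k0,k0,k0,k0,k0],[k2,k1,k0,k0,k0,k0],[k2,k0,k1,k0,k0,k0],[k2,k0,k0,k1,k0,k0],[k2,k0,k0,k0,k1,k0],[k2,k0,k0,k0,
    k0,k1],[k1,k1,k1,k0,k0,k0],[k1,k1,k0,k1,k0,k0],[k1,k1,k0,k0,k1,k0],[k1,k1,k0,k0,k0,k1],[k1,k0,k2,k0,k0,k0],[k1,k0,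
    k1,k1,k0,k0],[k1,k0,k0,k2,k0,k0],[k1,k0,k0,k1,k0,k1],[k0,k2,k1,k0,k0,k0],[k0,k1,k2,k0,k0,k0],[k0,k1,k1,k1,k0,k0],
    [k0,k1,k0,k1,k0,k1],[k0,k1,k1,k0,k1,k0],[k0,k0,k3,k0,k0,k0],[k0,k0,k0,k3,k0,k0]]
    [.ref k6 k0 [(z1,[z1]),(z14,[y4,z3,z21]),(z14,[y4,z3,z0,z21]),(z28,[z4,y3,z0,z0,z21]),(z28,[y32,z3,y42,y42,y21,
    z84])],.ref k6 k0 [(z8,[z14,y1,y7]),(z4,[y2,z1,z7]),(z4,[y2,z1,z1,z6]),(z8,[z2,y1,y1,z0,z6]),(z4,[y8,z1,y2,y6,y3,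
    z12])],.ref k6 k0 [(z8,[z14,y1,z0,y7]),(z4,[y2,z1,z6,z1]),(z4,[y2,z1,z0,z7]),(z8,[z2,y1,z0,y1,z6]),(z4,[y8,z1,y6,
    y2,y3,z12])],.ref k6 k0 [(z20,[z28,z1,z0,z0,y7]),(z10,[y4,z2,z15,z0,z1]),(z10,[y4,z2,z0,z15,z1]),(z10,[z2,y1,z0,
    z0,z7]),(z20,[y32,z1,y30,y30,y7,z60])],.ref k6 k0 [(z8,[z28,y1,z14,z14,z7,y28]),(z4,[y4,z1,z4,y2,y1,z4]),(z4,[y4,
    z1,y2,z4,y1,z4]),(z8,[z4,y1,z2,z2,z7,y4]),(z4,[y16,z1,y14,y14,y7,z28])],.ref k6 k0 [(z6,[z7,z1]),(z6,[y2,z1,z9]),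
    (z6,[y2,z1,z0,z9]),(z12,[z2,y1,z0,z0,z9]),(z12,[y16,y1,y18,y18,y9,z36])],.ref k6 k0 [(z2,[z14,y2,y7,y7]),(z2,[y4,
    z1,z5,z2]),(z2,[y4,z1,z2,z5]),(z4,[z4,y1,y2,y2,z3]),(z4,[y32,z5,z10,z10,y3,z12])],.ref k6 k0 [(z8,[z28,y1,y14,z0,
    y7]),(z4,[y4,z1,z8,z0,z1]),(z4,[y4,z1,z2,z6,z1]),(z8,[z4,y1,y2,z0,z5]),(z4,[y16,z1,z2,y6,z1,z12])],
    .ref k6 k0 [(z4,[y28,z3,z0,y14,y7,z28]),(z2,[z4,z0,z3,z2,z1,y4]),(z2,[z4,z0,z0,z5,z1,y4]),(z2,[y2,z0,z0,y1,z1,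
    z2]),(z4,[z32,y3,y6,z10,z5,y20])],.ref k6 k0 [(z6,[z14,z1,y7]),(z6,[y4,z1,z11]),(z6,[y4,z1,z2,z9]),(z12,[z4,y1,y2,
    z0,z9]),(z12,[y32,y1,y2,y18,y9,z36])],.ref k6 k0 [(z1,[z7,y1,z0,y7]),(z2,[y4,z1,z3,z4]),(z2,[y4,z1,z0,z7]),(z4,
    [z4,y1,z0,y4,z3]),(z4,[y32,z5,y6,z26,y3,z12])],.ref k6 k0 [(z8,[z28,y1,z0,y14,y7]),(z4,[y4,z1,z6,z2,z1]),(z4,[y4,
    z1,z0,z8,z1]),(z8,[z4,y1,z0,y2,z5]),(z4,[y16,z1,y6,z2,z1,z12])],.ref k6 k0 [(z6,[z14,z1,z0,z0,y7]),(z6,[y4,z1,z9,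
    z0,z2]),(z6,[y4,z1,z0,z9,z2]),(z12,[z4,y1,z0,z0,z7]),(z12,[y32,y1,y18,y18,z7,z36])],.ref k6 k0 [(z16,[z28,z5,z0,
    z0,y7]),(z8,[y4,z1,z12,z0,z1]),(z8,[y4,z1,z0,z12,z1]),(z16,[z4,y1,z0,z0,z11]),(z4,[y8,y1,y6,y6,y1,z12])],
    .ref k6 k0 [(z4,[y14,z3,z14,z7]),(z2,[z2,z0,z1,y1]),(z1,[z1,z0,y1,z1]),(z4,[y2,z0,z2,z1,z3]),(z4,[z16,y3,y22,y14,
    y3,z12])],.ref k6 k0 [(z4,[y14,z3,z7,z14]),(z1,[z1,z0,z1,y1]),(z2,[z2,z0,y1,z1]),(z4,[y2,z0,z1,z2,z3]),(z4,[z16,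
    y3,y14,y22,y3,z12])],.ref k6 k0 [(z4,[y28,z3,z14,z14,z7]),(z2,[z4,z0,z1,y2,y1]),(z2,[z4,z0,y2,z1,y1]),(z2,[y2,z0,
    z1,z1,z2]),(z4,[z32,y3,y22,y22,y11,z12])],.ref k6 k0 [(z4,[z28,z3,y14,z0,y7]),(z2,[y4,z0,z5,z0,z1]),(z2,[y4,z0,z2,
    z3,z1]),(z2,[z2,z0,y1,z0,z1]),(z4,[y32,y3,z10,y6,z5,z12])],.ref k6 k0 [(z16,[y28,z5,z0,z0,y7,z28]),(z8,[z4,z1,z12,
    z0,z1,y4]),(z8,[z4,z1,z0,z12,z1,y4]),(z16,[y4,y1,z0,z0,z11,z4]),(z4,[z8,y1,y6,y6,y1,z4])],.ref k6 k0 [(z4,[y14,z3,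
    z0,z21]),(z2,[z2,z0,z3,y3]),(z1,[z1]),(z4,[y2,z0,z0,z3,z3]),(z4,[z16,y3,y6,y30,y3,z12])],.ref k6 k0 [(z4,[z28,z3,
    z0,z0,y21]),(z2,[y4,z0,z3,z0,z3]),(z2,[y4,z0,z0,z3,z3]),(z1,[z1]),(z4,[y32,y3,y6,y6,z21,z12])]],
    .leafM k6 [k0,k1,k2,k3,k4,k5] [(z1,[y1,y1,y1,z0,z1])] [],
    .tor k2 false k1 [(z1,[z0,y1,y1,z0,z1]),(z1,[z1,z1,z0,z1]),(z1,[y1,y1,z0,y1,z1]),(z1,[z0,z1,z1])],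
    .lp [(nat_lit 300),(nat_lit 308),(nat_lit 352),(nat_lit 266),(nat_lit 370),(nat_lit 320)] [k35,k35,k31,k31,k9,k9,k55,
    k49,k0,k0,k25,k25] k0 [[k0,k0,k18,k0,k0,k0,k0,k36],[k0,k0,k26,k0,k0,k0,k0,k0,k0,k0,k0,k64],[k0,k0,k0,k0,k50,k0,k0,
    k0,k0,k44],[k26,k18],[k0,k0,k0,k0,k0,k0,k0,k60,k0,k0,k38],[k0,k0,k0,k50,k0,k0,k0,k0,k0,k0,k6],[k0,k36,k0,k0,k0,
    k60],[k0,k0,k0,k0,k0,k0,k0,k0,k30,k70],[k0,k0,k0,k44,k0,k0,k70],[k0,k0,k0,k0,k0,k0,k30],[k64],[k0,k0,k0,k0,k6,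
    k38]] (nat_lit 960) k5
    [[(k7,(nat_lit 280)),(k4,(nat_lit 288)),(k3,(nat_lit 304)),(k11,(nat_lit 310)),(k8,(nat_lit 335)),(k0,
    (nat_lit 364))],[(k6,(nat_lit 244)),(k5,(nat_lit 308)),(k10,(nat_lit 310)),(k2,(nat_lit 330)),(k9,(nat_lit 335)),
    (k1,(nat_lit 364))],[(k10,(nat_lit 250)),(k6,(nat_lit 284)),(k1,(nat_lit 304)),(k5,(nat_lit 304)),(k2,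
    (nat_lit 326)),(k9,(nat_lit 375))],[(k7,(nat_lit 240)),(k8,(nat_lit 295)),(k11,(nat_lit 314)),(k3,(nat_lit 326)),
    (k0,(nat_lit 330)),(k4,(nat_lit 330))],[(k3,(nat_lit 304)),(k0,(nat_lit 308)),(k7,(nat_lit 312)),(k8,
    (nat_lit 361)),(k11,(nat_lit 380)),(k4,(nat_lit 402))],[(k6,(nat_lit 246)),(k1,(nat_lit 288)),(k2,(nat_lit 330)),
    (k10,(nat_lit 342)),(k9,(nat_lit 361)),(k5,(nat_lit 402))],[(k2,(nat_lit 240)),(k6,(nat_lit 266)),(k1,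
    (nat_lit 280)),(k5,(nat_lit 312)),(k10,(nat_lit 334)),(k9,(nat_lit 381))],[(k0,(nat_lit 244)),(k4,(nat_lit 246)),
    (k7,(nat_lit 266)),(k3,(nat_lit 284)),(k8,(nat_lit 345)),(k11,(nat_lit 360))],[(k8,(nat_lit 300)),(k11,
    (nat_lit 315)),(k0,(nat_lit 335)),(k4,(nat_lit 361)),(k3,(nat_lit 375)),(k7,(nat_lit 381))],[(k2,(nat_lit 295)),
    (k9,(nat_lit 300)),(k1,(nat_lit 335)),(k6,(nat_lit 345)),(k10,(nat_lit 345)),(k5,(nat_lit 361))],[(k1,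
    (nat_lit 310)),(k2,(nat_lit 314)),(k9,(nat_lit 315)),(k10,(nat_lit 320)),(k6,(nat_lit 360)),(k5,(nat_lit 380))],
    [(k3,(nat_lit 250)),(k0,(nat_lit 310)),(k11,(nat_lit 320)),(k7,(nat_lit 334)),(k4,(nat_lit 342)),(k8,
    (nat_lit 345))]]
    [] k0
    [[k2,k0,k0,k1,k0,k0],[k1,k1,k1,k0,k0,k0],[k1,k1,k0,k1,k0,k0],[k1,k1,k0,k0,k1,k0],[k1,k1,k0,k0,k0,k1],[k1,k0,k1,k1,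
    k0,k0],[k1,k0,k0,k2,k0,k0],[k1,k0,k0,k1,k0,k1],[k1,k0,k0,k0,k0,k2],[k0,k2,k0,k1,k0,k0],[k0,k2,k0,k0,k0,k1],[k0,k1,
    k1,k1,k0,k0],[k0,k1,k0,k2,k0,k0],[k0,k1,k0,k1,k0,k1],[k0,k1,k0,k0,k1,k1],[k0,k1,k0,k0,k0,k2],[k0,k0,k1,k2,k0,k0],
    [k0,k0,k0,k3,k0,k0],[k0,k0,k0,k0,k3,k0]]
    [.ref k6 k0 [(z5,[z6,z3,z0,z0,y1]),(z1,[z0,z0,z1]),(z5,[y12,z24,z0,z15,z2]),(z5,[z3,y6,z0,z0,z2]),(z5,[y3,y9,y5,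
    y15,y2,z15])],.ref k6 k0 [(z1,[y3,z6,z1,z3]),(z1,[z0,z0,z1]),(z1,[z6,y6,y2,y3]),(z2,[y3,z3,z1,z3,z1]),(z2,[z3,y9,
    y3,y9,y1,z6])],.ref k6 k0 [(z3,[z6,z3,y2,z0,y1]),(z1,[z0,z0,z1]),(z3,[y12,z12,z4,z9,z2]),(z3,[z3,y3,y1,z0,z1]),
    (z3,[y3,y6,y2,y9,y1,z9])],.ref k6 k0 [(z1,[z6,z3,z0,z6,z1,y6]),(z1,[z0,z0,z1]),(z1,[y12,z0,z0,y9,y2,z12]),(z1,[z3,
    z0,z0,z3,z1,y3]),(z1,[y3,y3,y1,y6,y1,z6])],.ref k6 k0 [(z2,[z3,z3,y1]),(z1,[z0,z0,z1]),(z1,[y3,z3,z1,z3]),(z4,[z3,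
    y3,y1,z0,z2]),(z4,[y3,y9,y3,y12,y2,z12])],.ref k6 k0 [(z1,[y6,z9,z0,z6,z1]),(z1,[z0,z0,z1]),(z1,[z12,y12,z0,y9,
    y2]),(z1,[y3,z3,z0,z3,z1]),(z1,[z3,y6,y1,y6,y1,z3])],.ref k6 k0 [(z2,[z3,z3,z0,z0,y1]),(z1,[z0,z0,z1]),(z1,[y3,z3,
    z0,z3,z1]),(z4,[z3,y3,z0,z0,z1]),(z4,[y3,y9,y4,y12,y1,z12])],.ref k6 k0 [(z5,[z6,z9,z0,z0,y1]),(z1,[z0,z0,z1]),
    (z5,[y12,z12,z0,z15,z2]),(z5,[z3,y3,z0,z0,z2]),(z5,[y3,y12,y5,y15,y2,z15])],.ref k6 k0 [(z1,[z1,z2]),(z1,[z0,z0,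
    z1]),(z1,[y2,z2,z0,z3]),(z2,[z1,y1,z0,z0,z1]),(z2,[y1,y5,y2,y6,y1,z6])],.ref k6 k0 [(z1,[z6,z3,y4,z0,y1]),(z1,[z0,
    z0,z1]),(z1,[y12,z0,z8,z3,z2]),(z1,[z3,z0,y2]),(z1,[y3,y3,z1,y3,z0,z3])],.ref k6 k0 [(z1,[z3,z3,y2]),(z1,[z0,z0,
    z1]),(z1,[y6,z0,z4,z3]),(z2,[z3,z0,y2,z0,z1]),(z2,[y3,y6,z0,y6,y1,z6])],.ref k6 k0 [(z3,[y6,z9,z2,z6,z1]),(z1,[z0,
    z0,z1]),(z3,[z12,z0,y4,y3,y2]),(z3,[y3,z0,z1,z3,z2]),(z3,[z3,y9,y4,y12,y2,z9])],.ref k6 k0 [(z1,[z3,z3,y1,z0,y1]),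
    (z1,[z0,z0,z1]),(z1,[y6,z0,z2,z3,z2]),(z2,[z3,z0,y1]),(z2,[y3,y6,y1,y6,z0,z6])],.ref k6 k0 [(z3,[z6,z9,y2,z0,y1]),
    (z1,[z0,z0,z1]),(z3,[y12,z0,z4,z9,z2]),(z3,[z3,z0,y1,z0,z1]),(z3,[y3,y9,y2,y9,y1,z9])],.ref k6 k0 [(z1,[z6,z9,z0,
    z6,z1,y6]),(z1,[z0,z0,z1]),(z1,[y12,y12,z0,y9,y2,z12]),(z1,[z3,z3,z0,z3,z1,y3]),(z1,[y3,y6,y1,y6,y1,z6])],
    .ref k6 k0 [(z2,[z3,z6,y1]),(z1,[z0,z0,z1]),(z1,[y3,z0,z1,z3]),(z4,[z3,z0,y1,z0,z2]),(z4,[y3,y12,y3,y12,y2,z12])],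
    .ref k6 k0 [(z1,[y3,z3,z0,z3,z1]),(z1,[z0,z0,z1]),(z1,[z6,z0,z0,y3,y2]),(z2,[y3,z0,z0,z3,z2]),(z2,[z3,y6,y2,y9,y2,
    z6])],.ref k6 k0 [(z1,[z2,z3,z0,z0,y1]),(z1,[z0,z0,z1]),(z1,[y4,z0,z0,z3,z2]),(z1,[z1]),(z1,[y1,y3,y1,y3,z0,z3])],
    .ref k6 k0 [(z1,[y2,y3,y2,y6,y1,z6]),(z1,[z0,z0,z1]),(z1,[z4,z12,z4,z15,z2,y12]),(z1,[y1,y3,y1,y3,z0,z3]),(z1,
    [z1])]],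
    .lp [(nat_lit 4198836960),(nat_lit 4252846024),(nat_lit 4306982400),(nat_lit 4198836960),(nat_lit 4523319360),
    (nat_lit 4415030830)] [(nat_lit 162241200),(nat_lit 162241200),(nat_lit 135236668),(nat_lit 135236668),
    (nat_lit 108168480),(nat_lit 108168480),(nat_lit 162241200),(nat_lit 162241200),k0,k0,(nat_lit 54144265),
    (nat_lit 54144265)] k0 [[k0,k0,k0,k0,k0,k0,k0,(nat_lit 486554418)],[k0,k0,(nat_lit 594677622),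
    (nat_lit 324369612)],[(nat_lit 324369612),k0,k0,k0,(nat_lit 702800826)],[(nat_lit 594677622)],[k0,k0,k0,k0,k0,k0,
    (nat_lit 270308010),k0,k0,k0,(nat_lit 54061602)],[k0,k0,k0,(nat_lit 702800826),k0,k0,k0,k0,k0,k0,
    (nat_lit 594677622)],[k0,(nat_lit 486554418)],[k0,k0,k0,k0,k0,(nat_lit 270308010),k0,k0,(nat_lit 216246408)],[],
    [k0,k0,k0,k0,k0,k0,(nat_lit 216246408),k0,k0,k0,k0,(nat_lit 54061602)],[k0,k0,k0,k0,k0,k0,k0,k0,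
    (nat_lit 54061602)],[k0,k0,k0,k0,(nat_lit 594677622),(nat_lit 54061602)]] (nat_lit 12974784480) k5
    [[(k7,(nat_lit 3604159338)),(k0,(nat_lit 4198836960)),(k4,(nat_lit 4198848078)),(k3,(nat_lit 4225841492)),(k11,
    (nat_lit 4306933895)),(k8,(nat_lit 4415139762))],[(k6,(nat_lit 3712282542)),(k1,(nat_lit 4198836960)),(k10,
    (nat_lit 4306933895)),(k9,(nat_lit 4361078160)),(k5,(nat_lit 4577279292)),(k2,(nat_lit 4820519114))],[(k5,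
    (nat_lit 3685236590)),(k2,(nat_lit 3928476412)),(k1,(nat_lit 4225841492)),(k6,(nat_lit 4225841492)),(k10,
    (nat_lit 4333938427)),(k9,(nat_lit 4874637110))],[(k7,(nat_lit 3523040666)),(k3,(nat_lit 3928476412)),(k4,
    (nat_lit 4279914212)),(k11,(nat_lit 4333938427)),(k8,(nat_lit 4388082692)),(k0,(nat_lit 4820519114))],[(k3,
    (nat_lit 3685236590)),(k7,(nat_lit 4252909680)),(k11,(nat_lit 4361006615)),(k8,(nat_lit 4415150880)),(k0,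
    (nat_lit 4577279292)),(k4,(nat_lit 5009783226))],[(k9,(nat_lit 4144842870)),(k1,(nat_lit 4198848078)),(k6,
    (nat_lit 4252909680)),(k2,(nat_lit 4279914212)),(k10,(nat_lit 4955684237)),(k5,(nat_lit 5009783226))],[(k2,
    (nat_lit 3523040666)),(k1,(nat_lit 3604159338)),(k5,(nat_lit 4252909680)),(k10,(nat_lit 4360995497)),(k9,
    (nat_lit 4361078160)),(k6,(nat_lit 4469144970))],[(k0,(nat_lit 3712282542)),(k3,(nat_lit 4225841492)),(k4,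
    (nat_lit 4252909680)),(k11,(nat_lit 4306933895)),(k7,(nat_lit 4469144970)),(k8,(nat_lit 4577324568))],[(k4,
    (nat_lit 4144842870)),(k11,(nat_lit 4252928687)),(k0,(nat_lit 4361078160)),(k7,(nat_lit 4361078160)),(k8,
    (nat_lit 4523319360)),(k3,(nat_lit 4874637110))],[(k2,(nat_lit 4388082692)),(k1,(nat_lit 4415139762)),(k5,
    (nat_lit 4415150880)),(k10,(nat_lit 4469175095)),(k9,(nat_lit 4523319360)),(k6,(nat_lit 4577324568))],[(k9,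
    (nat_lit 4252928687)),(k1,(nat_lit 4306933895)),(k6,(nat_lit 4306933895)),(k2,(nat_lit 4333938427)),(k10,
    (nat_lit 4360969228)),(k5,(nat_lit 4361006615))],[(k0,(nat_lit 4306933895)),(k3,(nat_lit 4333938427)),(k11,
    (nat_lit 4360969228)),(k7,(nat_lit 4360995497)),(k8,(nat_lit 4469175095)),(k4,(nat_lit 4955684237))]]
    [] k0
    [[k3,k0,k0,k0,k0,k0],[k2,k0,k0,k1,k0,k0],[k2,k0,k0,k0,k0,k1],[k1,k1,k0,k1,k0,k0],[k1,k1,k0,k0,k0,k1],[k1,k1,k1,k0,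
    k0,k0],[k1,k0,k1,k1,k0,k0],[k1,k0,k1,k0,k0,k1],[k1,k0,k0,k2,k0,k0],[k1,k0,k0,k1,k1,k0],[k1,k0,k0,k1,k0,k1],[k0,k3,
    k0,k0,k0,k0],[k0,k2,k1,k0,k0,k0],[k0,k2,k0,k1,k0,k0],[k0,k2,k0,k0,k0,k1],[k0,k1,k1,k1,k0,k0],[k0,k1,k1,k0,k1,k0],
    [k0,k1,k0,k2,k0,k0],[k0,k1,k0,k1,k0,k1]]
    [.ref k6 k0 [(z1,[z1]),(z1,[z1,y3,z3]),(z2,[y1,z3,z0,z6]),(z4,[z1,y3,z0,z0,z12]),(z1,[y2,z3,y3,y3,y3,z3])],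
    .ref k6 k0 [(z3,[z4,z1,z0,z0,y4]),(z3,[z4,y8,z9,z0,y4]),(z3,[y2,z4,z0,z9,z2]),(z3,[z1,y2,z0,z0,z8]),(z3,[y8,z7,y9,
    y9,y1,z9])],.ref k6 k0 [(z3,[z4,z1]),(z3,[z4,y8,z9]),(z3,[y2,z4,z0,z9]),(z3,[z1,y2,z0,z0,z9]),(z3,[y8,z7,y9,y9,y9,
    z9])],.ref k6 k0 [(z3,[z4,z5,y4,z0,y4]),(z3,[z4,y4,z5,z0,y4]),(z3,[y2,z2,z2,z9,z2]),(z3,[z1,y1,y1,z0,z8]),(z3,[y8,
    y1,y1,y9,y1,z9])],.ref k6 k0 [(z3,[z4,z5,y4]),(z3,[z4,y4,z5]),(z3,[y2,z2,z2,z9]),(z3,[z1,y1,y1,z0,z9]),(z3,[y8,y1,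
    y1,y9,y9,z9])],.ref k6 k0 [(z1,[z2,z1,y2,y2]),(z1,[z2,y2,z1,y2]),(z1,[y1,z1,z1,z4]),(z2,[z1,y1,y1,y1,z6]),(z1,[y4,
    z1,z1,z1,y3,z3])],.ref k6 k0 [(z1,[z4,y1,z0,y4,y4]),(z1,[z4,y4,z3,y4,y4]),(z1,[y2,z2,z0,z5,z2]),(z1,[z1,y1,z0,y1,
    z2]),(z1,[y8,z5,y3,z5,z5,z3])],.ref k6 k0 [(z1,[z4,y1,z0,y4]),(z1,[z4,y4,z3,y4]),(z1,[y2,z2,z0,z5]),(z1,[z1,y1,z0,
    y1,z3]),(z1,[y8,z5,y3,z5,y3,z3])],.ref k6 k0 [(z1,[z2,z1,z0,z0,y4]),(z1,[z2,y2,z3,z0,y4]),(z1,[y1,z1,z0,z3,z2]),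
    (z2,[z1,y1,z0,z0,z4]),(z1,[y4,z1,y3,y3,z5,z3])],.ref k6 k0 [(z1,[y4,z3,y4,y4,z0,z4]),(z1,[y4,z0,y1,y4,z0,z4]),(z1,
    [z2,z0,z2,z5,z0,y2]),(z1,[y1,z0,y1,y1,z3,z1]),(z1,[z8,y3,z5,z5,y3,y5])],.ref k6 k0 [(z1,[z2,z1,z0,z0,y2]),(z1,[z2,
    y2,z3,z0,y2]),(z1,[y1,z1,z0,z3,z1]),(z2,[z1,y1,z0,z0,z5]),(z1,[y4,z1,y3,y3,z1,z3])],.ref k6 k0 [(z1,[z1,z3,y3]),
    (z1,[z1]),(z2,[y1,z0,z3,z6]),(z4,[z1,z0,y3,z0,z12]),(z1,[y2,y3,z3,y3,y3,z3])],.ref k6 k0 [(z1,[z2,z3,y4,y2]),(z1,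
    [z2,z0,y1,y2]),(z1,[y1,z0,z2,z4]),(z2,[z1,z0,y2,y1,z6]),(z1,[y4,y3,z5,z1,y3,z3])],.ref k6 k0 [(z3,[z4,z9,y8,z0,
    y4]),(z3,[z4,z0,z1,z0,y4]),(z3,[y2,z0,z4,z9,z2]),(z3,[z1,z0,y2,z0,z8]),(z3,[y8,y9,z7,y9,y1,z9])],.ref k6 k0 [(z3,
    [z4,z9,y8]),(z3,[z4,z0,z1]),(z3,[y2,z0,z4,z9]),(z3,[z1,z0,y2,z0,z9]),(z3,[y8,y9,z7,y9,y9,z9])],.ref k6 k0 [(z1,
    [z4,z3,y4,y4,y4]),(z1,[z4,z0,y1,y4,y4]),(z1,[y2,z0,z2,z5,z2]),(z1,[z1,z0,y1,y1,z2]),(z1,[y8,y3,z5,z5,z5,z3])],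
    .ref k6 k0 [(z1,[y2,z1,z0,z0,y2,z2]),(z1,[y2,y2,z3,z0,y2,z2]),(z1,[z1,z1,z0,z3,z1,y1]),(z2,[y1,y1,z0,z0,z5,z1]),
    (z1,[z4,z1,y3,y3,z1,y1])],.ref k6 k0 [(z1,[z2,z3,y2,z0,y4]),(z1,[z2,z0,z1,z0,y4]),(z1,[y1,z0,z1,z3,z2]),(z2,[z1,
    z0,y1,z0,z4]),(z1,[y4,y3,z1,y3,z5,z3])],.ref k6 k0 [(z1,[z2,z3,y2,z0,y2]),(z1,[z2,z0,z1,z0,y2]),(z1,[y1,z0,z1,z3,
    z1]),(z2,[z1,z0,y1,z0,z5]),(z1,[y4,y3,z1,y3,z1,z3])]]]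

noncomputable def cT6_2_n0_1 : List TN :=
  [.leafM k6 [k1,k2,k3,k4,k5,k0] [(z2,[z0,y1,y1,y2,z2])] [],
    .lp [k158,k158,k146,k174,k162,k160] [k8,k8,k8,k8,k14,k14,k0,k0,k6,k6,k7,k7] k0 [[k0,k0,k0,k0,k0,k0,k0,k0,k0,k0,k26,
    k24],[k0,k0,k12,k30],[k30,k0,k0,k0,k0,k24,k0,k0,k0,k14],[k12,k0,k0,k0,k0,k10],[k0,k0,k10,k24,k0,k0,k2],[k0,k0,k0,
    k0,k0,k0,k0,k0,k0,k0,k28,k14],[k0,k0,k0,k0,k0,k0,k0,k0,k12,k24],[k0,k0,k0,k0,k0,k2],[k0,k0,k0,k14,k0,k0,k0,k24],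
    [k0,k0,k0,k0,k0,k0,k0,k12],[k0,k24,k0,k0,k14],[k0,k26,k0,k0,k28]] (nat_lit 480) k5
    [[(k0,k132),(k7,k138),(k11,k159),(k8,k160),(k4,k166),(k3,k182)],[(k1,k132),(k10,k135),(k9,k160),(k6,k166),(k2,
    k170),(k5,k182)],[(k2,k128),(k5,k140),(k9,k160),(k6,k166),(k1,k182),(k10,k185)],[(k3,k128),(k4,k128),(k8,k146),
    (k11,k159),(k0,k170),(k7,k176)],[(k4,k136),(k3,k140),(k8,k154),(k11,k167),(k0,k182),(k7,k184)],[(k2,k128),(k5,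
    k136),(k9,k152),(k6,k160),(k1,k166),(k10,k181)],[(k1,k138),(k10,k153),(k9,k168),(k2,k176),(k6,k176),(k5,k184)],
    [(k8,k144),(k11,k155),(k4,k160),(k0,k166),(k3,k166),(k7,k176)],[(k4,k152),(k0,k160),(k3,k160),(k7,k168),(k8,k174),
    (k11,k185)],[(k6,k144),(k2,k146),(k5,k154),(k1,k160),(k10,k161),(k9,k174)],[(k6,k155),(k1,k159),(k2,k159),(k10,
    k160),(k5,k167),(k9,k185)],[(k0,k135),(k7,k153),(k11,k160),(k8,k161),(k4,k181),(k3,k185)]]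
    [] k0
    [[k3,k0,k0,k0,k0,k0],[k2,k0,k0,k1,k0,k0],[k2,k0,k0,k0,k1,k0],[k2,k0,k0,k0,k0,k1],[k1,k1,k0,k0,k0,k1],[k1,k1,k1,k0,
    k0,k0],[k1,k0,k1,k0,k0,k1],[k1,k1,k0,k1,k0,k0],[k1,k0,k0,k1,k1,k0],[k1,k0,k0,k1,k0,k1],[k1,k0,k0,k0,k0,k2],[k0,k3,
    k0,k0,k0,k0],[k0,k2,k1,k0,k0,k0],[k0,k2,k0,k1,k0,k0],[k0,k2,k0,k0,k1,k0],[k0,k2,k0,k0,k0,k1],[k0,k1,k2,k0,k0,k0],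
    [k0,k1,k1,k1,k0,k0],[k0,k1,k1,k0,k1,k0],[k0,k1,k0,k1,k0,k1],[k0,k0,k3,k0,k0,k0],[k0,k0,k2,k0,k1,k0],[k0,k0,k0,k1,
    k0,k2]]
    [.ref k6 k0 [(z1,[z1]),(z4,[y1,z3,z4]),(z2,[y1,z3,z0,z6]),(z2,[y1,z3,z0,z0,z6]),(z4,[z1,y3])],.ref k6 k0 [(z1,[z2,
    y1,z0,z0,y2]),(z2,[y1,z2,z2,z0,z1]),(z1,[y1,z2,z0,z3,z1]),(z1,[y1,z2,z0,z0,z4]),(z2,[z1,y2,z0,z0,y1])],
    .ref k6 k0 [(z3,[z4,z1]),(z3,[y1,z2,z3]),(z3,[y2,z4,z0,z9]),(z3,[y2,z4,z0,z0,z9]),(z3,[z1,y2])],.ref k6 k0 [(z2,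
    [z3,z3,z1,z3,z3,y3]),(z8,[y3,z3,z7,y3,y3,z3]),(z4,[y3,z3,y1,z9,y3,z3]),(z4,[y3,z3,y1,y3,z9,z3]),(z8,[z3,y3,z1,z3,
    z3,y3])],.ref k6 k0 [(z1,[z4,z3,z0,z4,z4,y4]),(z1,[y1,z0,z1,y1,y1,z1]),(z1,[y2,z0,z0,z1,y2,z2]),(z1,[y2,z0,z0,y2,
    z1,z2]),(z1,[z1,z0,z0,z1,z1,y1])],.ref k6 k0 [(z1,[z12,y9,y4,y12]),(z1,[y3,z3,z2,z3]),(z1,[y6,z6,z2,z9]),(z1,[y6,
    z6,z2,z6,z3]),(z1,[z3,y3,y1,y3])],.ref k6 k0 [(z1,[z6,z3,z2,z0,z6,y6]),(z2,[y3,z0,z1,z0,y3,z3]),(z1,[y3,z0,y1,z3,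
    y3,z3]),(z1,[y3,z0,y1,z0,z0,z3]),(z2,[z3,z0,z1,z0,z3,y3])],.ref k6 k0 [(z1,[z12,y9,y4,z0,y12]),(z1,[y3,z3,z2,z0,
    z3]),(z1,[y6,z6,z2,z3,z6]),(z1,[y6,z6,z2,z0,z9]),(z1,[z3,y3,y1,z0,y3])],.ref k6 k0 [(z1,[z4,y1,z0,z0,y4]),(z1,[y1,
    z1,z1,z0,z1]),(z1,[y2,z2,z0,z3,z2]),(z1,[y2,z2,z0,z0,z5]),(z1,[z1,y1,z0,z0,y1])],.ref k6 k0 [(z1,[z6,z3,z2,z6,z0,
    y6]),(z2,[y3,z0,z1,y3,z0,z3]),(z1,[y3,z0,y1,z0,z0,z3]),(z1,[y3,z0,y1,y3,z3,z3]),(z2,[z3,z0,z1,z3,z0,y3])],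
    .ref k6 k0 [(z1,[z3,z6,z2,z6,z6,y6]),(z4,[y3,y3,z2,y6,y6,z6]),(z2,[y3,y3,y2,z0,y6,z6]),(z2,[y3,y3,y2,y6,z0,z6]),
    (z4,[z3,z3,z2,z6,z6,y6])],.ref k6 k0 [(z1,[y4,z3,z4]),(z1,[z1]),(z1,[z2,z0,y2,z3]),(z1,[z2,z0,y2,z0,z3]),(z1,[y1,
    z0,z1])],.ref k6 k0 [(z1,[y3,z3,z2,z3]),(z4,[z3,z0,z2,y3]),(z2,[z3,z0,y2,z3]),(z2,[z3,z0,y2,y3,z6]),(z4,[y3,z0,z2,
    z3])],.ref k6 k0 [(z1,[y3,z3,z2,z0,z3]),(z4,[z3,z0,z2,z0,y3]),(z2,[z3,z0,y2,z6,y3]),(z2,[z3,z0,y2,z0,z3]),(z4,[y3,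
    z0,z2,z0,z3])],.ref k6 k0 [(z1,[y12,z3,z8]),(z1,[z3,z0,y1]),(z1,[z6,z0,y4,z3]),(z1,[z6,z0,y4,z0,z3]),(z1,[y3,z0,
    z2])],.ref k6 k0 [(z1,[y6,y3,z2,y6,y6,z6]),(z2,[z3,z3,z1,z3,z3,y3]),(z1,[z3,z3,y1,z6,z3,y3]),(z1,[z3,z3,y1,z3,z6,
    y3]),(z2,[y3,y3,z1,y3,y3,z3])],.ref k6 k0 [(z5,[y12,z15,z4,z24]),(z5,[z3,z0,z4,y6]),(z5,[z6,z0,y2,z3]),(z5,[z6,z0,
    y2,y12,z15]),(z5,[y3,z0,z1,z6])],.ref k6 k0 [(z5,[y12,z15,z4,z12,z12]),(z5,[z3,z0,z4,y3,y3]),(z5,[z6,z0,y2,z9,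
    y6]),(z5,[z6,z0,y2,y6,z9]),(z5,[y3,z0,z1,z3,z3])],.ref k6 k0 [(z1,[y6,z3,z2,z6]),(z2,[z3,z0,z1,y3]),(z1,[z3,z0,
    y1]),(z1,[z3,z0,y1,y3,z3]),(z2,[y3,z0,z1,z3])],.ref k6 k0 [(z1,[y4,y1,z0,y4,z0,z4]),(z1,[z1,z1,z1,z1,z0,y1]),(z1,
    [z2,z2,z0,z5,z0,y2]),(z1,[z2,z2,z0,z2,z3,y2]),(z1,[y1,y1,z0,y1,z0,z1])],.ref k6 k0 [(z1,[y2,z3,z0,z6]),(z2,[z1,z0,
    z2,y3]),(z1,[z1]),(z1,[z1,z0,z0,y3,z3]),(z2,[y1,z0,z0,z3])],.ref k6 k0 [(z1,[y4,z3,z0,z8]),(z1,[z1,z0,z1,y2]),(z1,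
    [z2,z0,z0,y1]),(z1,[z2,z0,z0,y4,z3]),(z1,[y1,z0,z0,z2])],.ref k6 k0 [(z1,[y6,y9,y4,y12,y6,z12]),(z2,[z3,z6,z4,z6,
    z3,y6]),(z1,[z3,z6,z2,z9,z3,y6]),(z1,[z3,z6,z2,z6,z6,y6]),(z2,[y3,y6,y2,y6,y3,z6])]],
    .lp [k158,k152,k160,k162,k178,k148] [k10,k10,k13,k13,k9,k9,k8,k8,k0,k0,k15,k15] k0 [[k0,k0,k0,k0,k0,k0,k0,k0,k0,k0,
    k18,k20],[k0,k0,k18,k20],[k20,k0,k0,k0,k0,k10,k0,k0,k0,k12],[k18,k0,k0,k0,k0,k0,k0,k0,k0,k18],[k0,k0,k0,k10,k0,k0,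
    k18],[k0,k0,k0,k0,k0,k0,k0,k0,k0,k0,k20,k2],[k0,k0,k0,k0,k0,k0,k0,k0,k0,k12],[k0,k0,k0,k0,k0,k18],[k0,k0,k18,k12,
    k0,k0,k0,k12],[k0,k0,k0,k0,k0,k0,k0,k0,k0,k0,k0,k4],[k0,k20,k0,k0,k2,k0,k0,k0,k4],[k0,k18,k0,k0,
    k20]] (nat_lit 480) k5
    [[(k0,k140),(k7,k140),(k11,k153),(k4,k161),(k8,k172),(k3,k175)],[(k10,k133),(k1,k140),(k6,k160),(k9,k168),(k2,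
    k173),(k5,k179)],[(k2,k132),(k5,k138),(k6,k157),(k9,k165),(k10,k168),(k1,k175)],[(k3,k132),(k4,k146),(k8,k153),
    (k7,k157),(k11,k168),(k0,k173)],[(k3,k138),(k8,k151),(k4,k160),(k11,k166),(k7,k171),(k0,k179)],[(k2,k146),(k9,
    k151),(k5,k160),(k1,k161),(k6,k161),(k10,k174)],[(k1,k140),(k10,k153),(k2,k157),(k9,k170),(k5,k171),(k6,k180)],
    [(k11,k155),(k3,k157),(k8,k158),(k0,k160),(k4,k161),(k7,k180)],[(k4,k151),(k3,k165),(k0,k168),(k7,k170),(k11,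
    k175),(k8,k178)],[(k5,k151),(k2,k153),(k6,k158),(k10,k163),(k1,k172),(k9,k178)],[(k10,k144),(k1,k153),(k6,k155),
    (k5,k166),(k2,k168),(k9,k175)],[(k0,k133),(k11,k144),(k7,k153),(k8,k163),(k3,k168),(k4,k174)]]
    [] k0
    [[k3,k0,k0,k0,k0,k0],[k2,k0,k0,k1,k0,k0],[k2,k0,k0,k0,k0,k1],[k1,k1,k0,k0,k0,k1],[k1,k1,k1,k0,k0,k0],[k1,k0,k1,k0,
    k0,k1],[k1,k1,k0,k1,k0,k0],[k1,k0,k0,k1,k1,k0],[k1,k0,k0,k1,k0,k1],[k1,k0,k0,k0,k0,k2],[k0,k3,k0,k0,k0,k0],[k0,k2,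
    k1,k0,k0,k0],[k0,k2,k0,k1,k0,k0],[k0,k2,k0,k0,k1,k0],[k0,k2,k0,k0,k0,k1],[k0,k1,k2,k0,k0,k0],[k0,k1,k1,k1,k0,k0],
    [k0,k1,k1,k0,k1,k0],[k0,k1,k0,k1,k0,k1],[k0,k0,k2,k0,k1,k0],[k0,k0,k0,k1,k0,k2],[k0,k0,k0,k0,k0,k3]]
    [.ref k5 k1 [(z2,[y1,z3,z0,z6]),(z2,[y1,y3,y6,y6,z6]),(z4,[z1,y3]),(z4,[y1,z3,z12])],.ref k5 k1 [(z1,[y1,z1,y1,z2,
    z1]),(z1,[y1,y2,y4,y4,z4]),(z2,[z1,y1,z1,z1,y1]),(z2,[y1,z1,z5,y1,z1])],.ref k7 k2 [(z1,[y4,z1,z4]),(z1,[z0,z1,z0,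
    z2]),(z1,[z0,y1,y2,y2,z2]),(z1,[z0,y1])],.ref k5 k1 [(z1,[y2,z2,z2,z3]),(z1,[y2,y1,y1,y3,z3]),(z1,[z1,y1,y1]),(z1,
    [y1,z1,z4])],.ref k8 k0 [(z1,[z4,y3,y4,y4]),(z1,[y1,z1,z2,z1]),(z1,[y2,z2,z2,z3]),(z1,[y2,z1,z1,z1,z1])],
    .ref k9 k3 [(z1,[z4,y3,y4,y4]),(z1,[y1,z1,z2,z1]),(z1,[z1,y1,y1,y1]),(z1,[y2,z1,z1,z1,z1])],.ref k8 k0 [(z1,[z4,
    z1,z0,z4,y4]),(z1,[y1,z0,z1,y1,z1]),(z1,[y2,z0,z0,y1,z2]),(z1,[y2,y1,y1,y3,z3])],.ref k5 k1 [(z1,[y2,z0,y2,z1,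
    z2]),(z1,[y2,y3,y5,y5,z5]),(z1,[z1,z0,z1,z1,y1]),(z1,[y1,z0,z2,y1,z1])],.ref k9 k3 [(z1,[z4,z1,z0,z4,y4]),(z1,[y1,
    z0,z1,y1,z1]),(z1,[z1,z0,z0,z1,y1]),(z1,[y2,y1,y1,y3,z3])],.ref k9 k3 [(z1,[z2,y1,y4]),(z2,[y1,z1,z4]),(z2,[z1,y1,
    y2]),(z1,[y1,z0,z1,y1,z1])],.ref k10 k4 [(z1,[z0,z1,z1,z2,y1]),(z1,[z1]),(z1,[z0,y1,y2,y2,z2]),(z1,[y2,z3,z9,z3,
    y3])],.ref k9 k3 [(z1,[y2,z1,z0,z2]),(z2,[z1,z0,z2,y1]),(z2,[y1,z0,z0,z1]),(z1,[z1,y1,y1,y2,z1])],.ref k9 k3 [(z1,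
    [y2,y1,y2,y2,z2]),(z2,[z1,z1,z3,z1,y1]),(z2,[y1,y1,y1,y1,z1]),(z1,[z1])],.ref k11 k1 [(z1,[y2,z0,z0,z1]),(z1,[y2,
    y1,y1,y1,z1]),(z1,[z1]),(z1,[y1,z0,z1])],.ref k9 k3 [(z1,[y4,z1,z4]),(z1,[z1]),(z1,[y1,z0,z1]),(z1,[z2,y1,y3,y1,
    z1])],.ref k12 k5 [(z1,[z0,y1,y1,y2,z1]),(z1,[z0,z0,z0,z1]),(z1,[y2,z0,z2,y1]),(z1,[z0,z1,z0,z2])],
    .ref k12 k5 [(z1,[z0,y1,y1,y2,z1]),(z1,[z0,z0,z0,z1]),(z1,[y2,y2,z0,y5,z2]),(z1,[z0,z1,z0,z2])],.ref k9 k3 [(z1,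
    [y4,z1,z0,z4]),(z1,[z1,z0,z1,y1]),(z1,[y1,z0,z0,z1]),(z1,[z2,y1,y1,y3,z1])],.ref k5 k1 [(z1,[z2,z2,z0,z5,y2]),(z1,
    [z2,y1,y3,y1,z1]),(z1,[y1,y1,z0,y1,z1]),(z1,[z1,z1,z3,z1,y1])],.ref k5 k1 [(z1,[z2,z0,z0,y1]),(z1,[z2,y3,y3,y7,
    z3]),(z1,[y1,z0,z0,z2]),(z1,[z1,z0,z3,y2])],.ref k8 k0 [(z1,[y2,y1,y2,y2,z2]),(z2,[z1,z1,z3,z1,y1]),(z1,[z1,z1,z1,
    z2,y1]),(z1,[z1])],.ref k13 k0 [(z1,[z0,z1]),(z1,[y1,z0,z3]),(z1,[z0,z0,z0,z1]),(z1,[z0,y1,y1,y1,z1])]],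
    .lp [k74,k74,k84,k80,k86,k80] [k6,k6,k8,k4,k1,k1,k3,k3,k0,k0,k3,k3] k0 [[k0,k0,k4,k6,k0,k0,k0,k0,k0,k0,k10],[k0,k0,k0,
    k0,k0,k0,k6,k0,k0,k0,k16],[k0,k6,k0,k0,k0,k0,k0,k0,k2],[k0,k4,k0,k0,k0,k8],[k0,k0,k8],[],[],[k6],[k0,k0,k0,k0,k0,
    k0,k0,k0,k0,k0,k0,k6],[k0,k0,k0,k2],[k0,k0,k0,k0,k0,k0,k0,k0,k0,k6],[k16,k10]] (nat_lit 240) k5
    [[(k3,k60),(k0,k64),(k7,k77),(k4,k79),(k8,k80),(k11,k83)],[(k1,k64),(k2,k66),(k5,k75),(k9,k80),(k6,k83),(k10,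
    k93)],[(k1,k60),(k9,k76),(k2,k78),(k6,k79),(k5,k87),(k10,k89)],[(k0,k66),(k11,k73),(k4,k77),(k3,k78),(k8,k78),(k7,
    k83)],[(k0,k75),(k4,k76),(k7,k82),(k11,k82),(k3,k87),(k8,k87)],[(k5,k76),(k2,k77),(k1,k79),(k6,k82),(k10,k82),(k9,
    k85)],[(k1,k77),(k6,k80),(k10,k80),(k5,k82),(k2,k83),(k9,k83)],[(k3,k79),(k7,k80),(k11,k80),(k4,k82),(k0,k83),(k8,
    k83)],[(k3,k76),(k0,k80),(k7,k83),(k11,k83),(k4,k85),(k8,k86)],[(k10,k77),(k2,k78),(k1,k80),(k6,k83),(k9,k86),(k5,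
    k87)],[(k2,k73),(k6,k80),(k10,k80),(k5,k82),(k1,k83),(k9,k83)],[(k8,k77),(k7,k80),(k11,k80),(k4,k82),(k3,k89),(k0,
    k93)]]
    [] k0
    [[k3,k0,k0,k0,k0,k0],[k2,k1,k0,k0,k0,k0],[k2,k0,k1,k0,k0,k0],[k2,k0,k0,k1,k0,k0],[k2,k0,k0,k0,k1,k0],[k1,k2,k0,k0,
    k0,k0],[k1,k1,k1,k0,k0,k0],[k1,k1,k0,k1,k0,k0],[k1,k1,k0,k0,k1,k0],[k1,k1,k0,k0,k0,k1],[k1,k0,k2,k0,k0,k0],[k1,k0,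
    k1,k1,k0,k0],[k0,k3,k0,k0,k0,k0],[k0,k2,k0,k0,k1,k0],[k0,k1,k1,k1,k0,k0],[k0,k1,k0,k1,k0,k1],[k0,k1,k0,k0,k1,k1],
    [k0,k0,k3,k0,k0,k0]]
    [.ref k6 k0 [(z1,[z1]),(z1,[z1,y3,z3]),(z4,[y5,z15,z0,z12]),(z2,[y1,z3,z0,z0,z6]),(z2,[y1,y3,y6,y6,y6,z6])],
    .ref k6 k0 [(z1,[z1,z1,y1]),(z1,[z1,y2,z2]),(z4,[y5,z10,z5,z12]),(z2,[y1,z2,z1,z0,z6]),(z2,[y1,y4,y5,y6,y6,z6])],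
    .ref k6 k0 [(z1,[z4,y5,z0,y4]),(z1,[z4,y8,z3,y4]),(z1,[y5,z10,z0,z8]),(z1,[y2,z4,z0,z2,z3]),(z1,[y2,z1,y3,y1,y3,
    z3])],.ref k6 k0 [(z1,[z2,y1,z0,z0,y2]),(z1,[z2,y4,z3,z0,y2]),(z2,[y5,z10,z0,z6,z5]),(z1,[y1,z2,z0,z0,z4]),(z1,
    [y1,y1,y3,y3,y2,z3])],.ref k6 k0 [(z1,[z2,z1,z2,z2,z2,y2]),(z1,[z2,y2,z5,z2,z2,y2]),(z2,[y5,z5,y5,z1,y5,z5]),(z1,
    [y1,z1,y1,y1,z2,z1]),(z1,[y1,y2,y4,y4,y4,z4])],.ref k6 k0 [(z1,[z1,z2,y2]),(z1,[z1,y1,z1]),(z4,[y5,z5,z10,z12]),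
    (z2,[y1,z1,z2,z0,z6]),(z2,[y1,y5,y4,y6,y6,z6])],.ref k6 k0 [(z1,[z4,y1,y4,y4]),(z1,[z4,y4,y1,y4]),(z1,[y5,z5,z5,
    z8]),(z1,[y2,z2,z2,z2,z3]),(z1,[y2,y1,y1,y1,y3,z3])],.ref k6 k0 [(z1,[z2,z1,y2,z0,y2]),(z1,[z2,y2,z1,z0,y2]),(z2,
    [y5,z5,z5,z6,z5]),(z1,[y1,z1,z1,z0,z4]),(z1,[y1,y2,y2,y3,y2,z3])],.ref k6 k0 [(z1,[z2,z3,z0,z2,z2,y2]),(z1,[z2,z0,
    z3,z2,z2,y2]),(z2,[y5,z0,z0,z1,y5,z5]),(z1,[y1,z0,z0,y1,z2,z1]),(z1,[y1,y3,y3,y4,y4,z4])],.ref k6 k0 [(z3,[z4,z5,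
    y4]),(z3,[z4,y4,z5]),(z3,[y5,z5,z5,z9]),(z3,[y2,z2,z2,z0,z9]),(z3,[y2,y7,y7,y9,y9,z9])],.ref k6 k0 [(z1,[y2,z5,z0,
    z4]),(z1,[y2,z2,z3,z4]),(z2,[z5,y5,z0,y4]),(z1,[z1,y1,z0,y2,z3]),(z1,[z1,y4,y3,y5,y3,z3])],.ref k6 k0 [(z1,[y4,z7,
    z0,z4,z4]),(z1,[y4,z4,z3,z4,z4]),(z1,[z5,y5,z0,y2,y5]),(z1,[z2,y2,z0,y2,z1]),(z1,[z2,y5,y3,y5,y5,z3])],
    .ref k6 k0 [(z1,[z1,z3,y3]),(z1,[z1]),(z4,[y5,z0,z15,z12]),(z2,[y1,z0,z3,z0,z6]),(z2,[y1,y6,y3,y6,y6,z6])],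
    .ref k6 k0 [(z1,[z2,z5,y2,z2,z2,y2]),(z1,[z2,z2,z1,z2,z2,y2]),(z2,[y5,y5,z5,z1,y5,z5]),(z1,[y1,y1,z1,y1,z2,z1]),
    (z1,[y1,y4,y2,y4,y4,z4])],.ref k6 k0 [(z1,[y4,z3,z4,z4,z4]),(z1,[y4,z0,z7,z4,z4]),(z1,[z5,z0,y5,y2,y5]),(z1,[z2,
    z0,y2,y2,z1]),(z1,[z2,y3,y5,y5,y5,z3])],.ref k6 k0 [(z1,[z4,z3,y4,z0,y4]),(z1,[z4,z0,y1,z0,y4]),(z1,[y5,z0,z5,z3,
    z5]),(z1,[y2,z0,z2,z0,z5]),(z1,[y2,y3,y1,y3,y1,z3])],.ref k6 k0 [(z1,[z4,z7,z0,z4,z4,y4]),(z1,[z4,z4,z3,z4,z4,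
    y4]),(z1,[y5,y5,z0,y2,y5,z5]),(z1,[y2,y2,z0,y2,z1,z2]),(z1,[y2,y5,y3,y5,y5,z5])],.ref k6 k0 [(z5,[y4,z15,z0,z12]),
    (z5,[y4,z0,z15,z12]),(z1,[z1]),(z5,[z2,z0,z0,y6,z15]),(z5,[z2,y15,y15,y21,y15,z15])]],
    .leafM k1 [k0,k1,k2,k3,k4,k5] [(z1,[z0,z1,z0,z1]),(z1,[z0,y1,z0,y1,z1])] [],
    .tor k2 false k1 [(z3,[z0,y1,y1,z0,z3]),(z3,[z1,z1,z0,z1]),(z3,[y1,y1,z0,y1,z3]),(z3,[z0,z1,z1])],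
    .lp [k150,k148,k172,k160,k156,k172] [k11,k11,k12,k12,k0,k0,k6,k6,k8,k8,k0,k0] k0 [[k0,k0,k0,k0,k0,k0,k16,k8,k0,k0,k0,
    k22],[k0,k0,k12],[k0,k0,k0,k0,k0,k4],[k12,k0,k0,k0,k0,k12],[k0,k0,k12,k4,k0,k0,k8],[k0,k0,k0,k0,k0,k0,k0,k0,k0,k0,
    k0,k8],[k0,k8,k0,k0,k0,k0,k0,k0,k12,k4],[k0,k16,k0,k0,k0,k8],[k0,k0,k0,k0,k0,k0,k0,k4,k0,k0,k12],[k0,k0,k0,k0,k0,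
    k0,k0,k12,k0,k0,k4],[k0,k22,k0,k0,k8],[k0,k0,k0,k0,k0,k0,k0,k0,k4,k12]] (nat_lit 480) k5
    [[(k8,k141),(k0,k150),(k7,k155),(k11,k157),(k4,k169),(k3,k171)],[(k9,k137),(k10,k139),(k6,k147),(k1,k150),(k2,
    k161),(k5,k161)],[(k2,k148),(k5,k148),(k9,k160),(k10,k160),(k6,k170),(k1,k171)],[(k3,k148),(k8,k152),(k4,k156),
    (k11,k160),(k0,k161),(k7,k166)],[(k3,k148),(k4,k160),(k0,k161),(k8,k164),(k7,k170),(k11,k172)],[(k2,k156),(k9,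
    k156),(k5,k160),(k6,k166),(k1,k169),(k10,k172)],[(k1,k155),(k9,k158),(k10,k158),(k2,k166),(k6,k168),(k5,k170)],
    [(k0,k147),(k8,k154),(k11,k154),(k4,k166),(k7,k168),(k3,k170)],[(k0,k137),(k4,k156),(k7,k158),(k3,k160),(k8,k168),
    (k11,k168)],[(k1,k141),(k2,k152),(k6,k154),(k5,k164),(k9,k168),(k10,k168)],[(k6,k154),(k1,k157),(k2,k160),(k9,
    k168),(k5,k172),(k10,k184)],[(k0,k139),(k7,k158),(k3,k160),(k8,k168),(k4,k172),(k11,k184)]]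
    [] k0
    [[k3,k0,k0,k0,k0,k0],[k2,k0,k0,k1,k0,k0],[k2,k0,k0,k0,k1,k0],[k2,k0,k0,k0,k0,k1],[k1,k1,k0,k0,k1,k0],[k1,k1,k0,k0,
    k0,k1],[k1,k1,k1,k0,k0,k0],[k1,k0,k1,k0,k1,k0],[k1,k0,k0,k2,k0,k0],[k1,k0,k0,k1,k1,k0],[k1,k0,k0,k1,k0,k1],[k1,k0,
    k0,k0,k2,k0],[k1,k0,k0,k0,k1,k1],[k0,k3,k0,k0,k0,k0],[k0,k2,k1,k0,k0,k0],[k0,k2,k0,k0,k1,k0],[k0,k2,k0,k0,k0,k1],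
    [k0,k1,k2,k0,k0,k0],[k0,k1,k1,k0,k1,k0]]
    [.ref k6 k0 [(z1,[z1]),(z1,[y1,z1,z3]),(z1,[y1,z1,z0,z3]),(z1,[z0,z0,z0,z0,z1]),(z2,[z1,y3,y6,y6,y2,z6])],
    .ref k6 k0 [(z2,[z3,z0,z0,z0,y1]),(z2,[y3,z2,z6,z0,z1]),(z2,[y3,z2,z0,z6,z1]),(z1,[z0,z0,z0,z0,z1]),(z4,[z3,y6,
    y12,y12,y5,z12])],.ref k6 k0 [(z5,[z6,z3,z6,z6,z2,y6]),(z5,[y6,z2,z9,y6,y2,z6]),(z5,[y6,z2,y6,z9,y2,z6]),(z1,[z0,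
    z0,z0,z0,z1]),(z5,[z3,y6,y12,y12,y4,z12])],.ref k6 k0 [(z5,[z6,z1]),(z5,[y6,z4,z15]),(z5,[y6,z4,z0,z15]),(z1,[z0,
    z0,z0,z0,z1]),(z5,[z3,y7,y15,y15,y5,z15])],.ref k6 k0 [(z1,[z6,z1,z0,z6,z2,y6]),(z1,[y6,z0,z3,y6,y2,z6]),(z1,[y6,
    z0,z0,y3,y2,z6]),(z1,[z0,z0,z0,z0,z1]),(z1,[z3,y1,y3])],.ref k6 k0 [(z1,[z6,y1,y6]),(z1,[y6,z2,z9]),(z1,[y6,z2,z6,
    z3]),(z1,[z0,z0,z0,z0,z1]),(z1,[z3,y2,y6,y3,y1,z3])],.ref k6 k0 [(z1,[y3,z2,z3,z3]),(z1,[z3,y1,z0,y3]),(z1,[z3,y1,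
    y3]),(z1,[z0,z0,z0,z0,z1]),(z2,[y3,y1,y3,y3,y2,z6])],.ref k6 k0 [(z1,[z6,z1,z6,z0,z2,y6]),(z1,[y6,z0,y3,z0,y2,
    z6]),(z1,[y6,z0,y6,z3,y2,z6]),(z1,[z0,z0,z0,z0,z1]),(z1,[z3,y1,z0,y3])],.ref k6 k0 [(z1,[z3,z0,z0,z0,y2]),(z1,[y3,
    z1,z3,z0,z2]),(z1,[y3,z1,z0,z3,z2]),(z1,[z0,z0,z0,z0,z1]),(z2,[z3,y3,y6,y6,y4,z6])],.ref k6 k0 [(z1,[z2,z1,z2,z2,
    z0,y2]),(z1,[y2,z0,z1,y2,z0,z2]),(z1,[y2,z0,y2,z1,z0,z2]),(z1,[z0,z0,z0,z0,z1]),(z1,[z1,y1,y2,y2,y1,z2])],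
    .ref k6 k0 [(z3,[z6,z1,z0,z0,y2]),(z3,[y6,z2,z9,z0,z2]),(z3,[y6,z2,z0,z9,z2]),(z1,[z0,z0,z0,z0,z1]),(z3,[z3,y4,y9,
    y9,y4,z9])],.ref k6 k0 [(z2,[z3,z3,z6,z6,z2,y6]),(z2,[y3,y1,z0,y6,y2,z6]),(z2,[y3,y1,y6,z0,y2,z6]),(z1,[z0,z0,z0,
    z0,z1]),(z4,[z3,y3,y6,y6,y2,z6])],.ref k6 k0 [(z2,[z3,z2,z3,z3,z1,y3]),(z2,[y3,z0,z3,y3,y1,z3]),(z2,[y3,z0,y3,z3,
    y1,z3]),(z1,[z0,z0,z0,z0,z1]),(z4,[z3,y4,y9,y9,y3,z9])],.ref k6 k0 [(z1,[y1,z1,z3]),(z1,[z1]),(z1,[z1,z0,y3,z3]),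
    (z1,[z0,z0,z0,z0,z1]),(z2,[y1,y2,y3,y6,y2,z6])],.ref k6 k0 [(z1,[y1,z1,z2,z1]),(z1,[z1,z0,z1,y1]),(z1,[z1,z0,y2,
    z2]),(z1,[z0,z0,z0,z0,z1]),(z2,[y1,y2,y4,y5,y2,z6])],.ref k6 k0 [(z3,[y6,z1,z6,y6,y2,z6]),(z3,[z6,z2,z3,z6,z2,
    y6]),(z3,[z6,z2,y6,z15,z2,y6]),(z1,[z0,z0,z0,z0,z1]),(z3,[y3,y4,y6,y12,y4,z12])],.ref k6 k0 [(z1,[y2,z1,z4]),(z1,
    [z2,z0,y1]),(z1,[z2,z0,y4,z3]),(z1,[z0,z0,z0,z0,z1]),(z1,[y1,y1,y1,y3,y1,z3])],.ref k6 k0 [(z1,[y1,z1,z1,z2]),(z1,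
    [z1,z0,z2,y2]),(z1,[z1,z0,y1,z1]),(z1,[z0,z0,z0,z0,z1]),(z2,[y1,y2,y5,y4,y2,z6])],.ref k6 k0 [(z3,[y6,z1,z0,z0,y2,
    z6]),(z3,[z6,z2,z9,z0,z2,y6]),(z3,[z6,z2,z0,z9,z2,y6]),(z1,[z0,z0,z0,z0,z1]),(z3,[y3,y4,y9,y9,y4,z12])]],
    .lp [(nat_lit 308),(nat_lit 278),(nat_lit 336),(nat_lit 338),(nat_lit 332),(nat_lit 320)] [k15,k15,k30,k30,k1,k1,k0,
    k0,k3,k3,k9,k9] k0 [[k0,k0,k0,k40],[k0,k0,k0,k0,k0,k0,k0,k0,k0,k0,k12,k12],[k0,k40,k0,k0,k0,k0,k0,k0,k0,k10],[k0,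
    k0,k0,k0,k28],[k0,k0,k0,k0,k0,k0,k6,k22],[k0,k0,k28,k0,k0,k0,k0,k0,k0,k0,k0,k6],[k0,k0,k0,k0,k0,k22],[k0,k0,k0,k0,
    k0,k6,k0,k0,k12],[k0,k0,k0,k10],[k0,k0,k0,k0,k0,k0,k12],[k12,k0,k0,k0,k6],[k12]] (nat_lit 960) k5
    [[(k3,(nat_lit 281)),(k11,(nat_lit 314)),(k0,(nat_lit 320)),(k8,(nat_lit 320)),(k7,(nat_lit 323)),(k4,
    (nat_lit 328))],[(k2,(nat_lit 253)),(k1,(nat_lit 320)),(k9,(nat_lit 320)),(k5,(nat_lit 322)),(k6,(nat_lit 323)),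
    (k10,(nat_lit 326))],[(k2,(nat_lit 278)),(k1,(nat_lit 281)),(k10,(nat_lit 287)),(k9,(nat_lit 305)),(k6,
    (nat_lit 308)),(k5,(nat_lit 347))],[(k0,(nat_lit 253)),(k3,(nat_lit 278)),(k8,(nat_lit 295)),(k11,(nat_lit 299)),
    (k7,(nat_lit 308)),(k4,(nat_lit 335))],[(k7,(nat_lit 309)),(k0,(nat_lit 322)),(k8,(nat_lit 334)),(k4,
    (nat_lit 336)),(k11,(nat_lit 338)),(k3,(nat_lit 347))],[(k6,(nat_lit 315)),(k1,(nat_lit 328)),(k9,(nat_lit 328)),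
    (k10,(nat_lit 328)),(k2,(nat_lit 335)),(k5,(nat_lit 336))],[(k2,(nat_lit 308)),(k5,(nat_lit 309)),(k1,
    (nat_lit 323)),(k10,(nat_lit 323)),(k6,(nat_lit 344)),(k9,(nat_lit 357))],[(k3,(nat_lit 308)),(k4,(nat_lit 315)),
    (k0,(nat_lit 323)),(k11,(nat_lit 329)),(k7,(nat_lit 344)),(k8,(nat_lit 347))],[(k3,(nat_lit 305)),(k11,
    (nat_lit 314)),(k0,(nat_lit 320)),(k4,(nat_lit 328)),(k8,(nat_lit 332)),(k7,(nat_lit 357))],[(k2,(nat_lit 295)),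
    (k1,(nat_lit 320)),(k10,(nat_lit 326)),(k9,(nat_lit 332)),(k5,(nat_lit 334)),(k6,(nat_lit 347))],[(k2,
    (nat_lit 299)),(k1,(nat_lit 314)),(k9,(nat_lit 314)),(k10,(nat_lit 320)),(k6,(nat_lit 329)),(k5,(nat_lit 338))],
    [(k3,(nat_lit 287)),(k11,(nat_lit 320)),(k7,(nat_lit 323)),(k0,(nat_lit 326)),(k8,(nat_lit 326)),(k4,
    (nat_lit 328))]]
    [] k0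
    [[k2,k1,k0,k0,k0,k0],[k1,k2,k0,k0,k0,k0],[k1,k1,k1,k0,k0,k0],[k1,k1,k0,k1,k0,k0],[k1,k1,k0,k0,k1,k0],[k1,k1,k0,k0,
    k0,k1],[k0,k3,k0,k0,k0,k0],[k0,k2,k0,k1,k0,k0],[k0,k2,k0,k0,k1,k0],[k0,k2,k0,k0,k0,k1],[k0,k1,k1,k1,k0,k0],[k0,k1,
    k0,k1,k0,k1],[k0,k1,k0,k0,k2,k0],[k0,k1,k0,k0,k1,k1],[k0,k1,k0,k0,k0,k2]]
    [.ref k8 k6 [(z1,[y1,z2,z1]),(z1,[z0,y1,y1,y1,z1]),(z1,[z0,z0,z0,z1]),(z1,[z1,y2])],.ref k15 k1 [(z1,[y2,z2,z0,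
    z1]),(z1,[y2,z1,y1,y1,z1]),(z1,[z2,y2,z1]),(z1,[z1,y1])],.ref k16 k7 [(z1,[z1,y1,y1,y1]),(z1,[z1,z0,y1,y1]),(z1,
    [z2,y2,y1,y2]),(z1,[y2,z2,z2,z3])],.ref k16 k7 [(z1,[z1,z0,z0,z1,y1]),(z1,[z1,z1,z0,z1,y1]),(z1,[z2,z0,z1,z2,y2]),
    (z1,[y2,z0,z0,y1,z2])],.ref k17 k7 [(z1,[z1,y1,y1]),(z1,[z1,z2,y1]),(z1,[z2,y2,z1]),(z1,[y2,z2,z2,z3])],
    .ref k8 k6 [(z1,[y1,z1,z1]),(z1,[z0,y1,y1,y1,z1]),(z1,[z0,z0,z0,z1]),(z1,[z1,y1])],.ref k18 k6 [(z1,[y1,z0,z3]),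
    (z1,[z0,y1,y1,y1,z1]),(z1,[z0,z0,z0,z1]),(z1,[z1])],.ref k16 k7 [(z2,[z1,z1,y1,z1,y1]),(z2,[z1,z3,y1,z1,y1]),(z1,
    [z1,z1,z0,z1,y1]),(z1,[y1,y1,z1,z0,z1])],.ref k8 k6 [(z1,[y1,z0,z2]),(z1,[z0,y1,y1,y1,z1]),(z1,[z0,z0,z0,z1]),(z1,
    [z1,z0,y1])],.ref k15 k1 [(z1,[y2,z0,z0,z1]),(z1,[y2,y1,y1,y1,z1]),(z1,[z2,z0,z1]),(z1,[z1])],.ref k8 k2 [(z1,[z1,
    y3,z1,z0,y1]),(z1,[z0,z2,z0,z1]),(z1,[z0,z1,y1,y1,z1]),(z1,[y1,z1,z0,z0,z1])],.ref k16 k7 [(z1,[z1,z1,z0,z1,y1]),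
    (z1,[z1,z2,z0,z1,y1]),(z1,[z2,z2,z1,z2,y2]),(z1,[y2,y2,z0,y1,z2])],.ref k8 k2 [(z1,[y1,y4,z2]),(z1,[z0,z2,z0,z1]),
    (z1,[z0,z1,y1,y1,z1]),(z1,[z1,z2,y1])],.ref k17 k7 [(z1,[z1,z0,y1]),(z1,[z1,z3,y1]),(z1,[z2,z0,z1]),(z1,[y2,z0,z2,
    z3])],.ref k8 k6 [(z1,[y1,z0,z1]),(z1,[z0,y1,y1,y1,z1]),(z1,[z0,z0,z0,z1]),(z1,[z1])]],
    .leafM k6 [k2,k3,k4,k5,k0,k1] [(z1,[z1,z1])] [],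
    .lp [k158,k160,k146,k176,k142,k176] [k9,k9,k8,k8,k15,k15,k0,k0,k19,k15,k0,k0] k0 [[k0,k0,k0,k0,k0,k0,k32,k30],[k0,k0,
    k12,k0,k0,k0,k0,k0,k0,k0,k10,k18],[k0,k0,k0,k0,k48,k8],[k12,k0,k0,k0,k0,k0,k0,k0,k0,k2],[k0,k0,k0,k8,k0,k0,k0,
    k26],[k0,k0,k0,k48],[k0,k30,k0,k0,k0,k26,k0,k0,k40],[k0,k32,k0,k0,k0,k0,k0,k0,k20],[k0,k0,k2,k0,k0,k0,k0,k0,k0,k0,
    k6],[k0,k0,k0,k0,k0,k0,k20,k40],[k18],[k10,k0,k0,k0,k0,k0,k0,k0,k0,k6]] (nat_lit 480) k5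
    [[(k8,k142),(k3,k149),(k4,k152),(k7,k167),(k11,k167),(k0,k176)],[(k9,k120),(k6,k137),(k5,k152),(k2,k171),(k1,
    k176),(k10,k177)],[(k5,k141),(k1,k149),(k10,k150),(k2,k160),(k9,k183),(k6,(nat_lit 200))],[(k7,k120),(k4,k145),
    (k8,k149),(k3,k160),(k11,k170),(k0,k171)],[(k8,k140),(k3,k141),(k0,k152),(k11,k161),(k7,k169),(k4,k194)],[(k6,
    k135),(k2,k145),(k9,k146),(k1,k152),(k10,k161),(k5,k194)],[(k2,k120),(k1,k167),(k5,k169),(k6,k176),(k10,k176),(k9,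
    k187)],[(k4,k135),(k11,k136),(k0,k137),(k7,k176),(k8,k177),(k3,(nat_lit 200))],[(k0,k120),(k11,k141),(k4,k146),
    (k8,k182),(k3,k183),(k7,k187)],[(k5,k140),(k1,k142),(k2,k149),(k10,k157),(k6,k177),(k9,k182)],[(k6,k136),(k9,
    k141),(k5,k161),(k1,k167),(k2,k170),(k10,k182)],[(k3,k150),(k8,k157),(k4,k161),(k7,k176),(k0,k177),(k11,k182)]]
    [] k0
    [[k2,k0,k0,k0,k1,k0],[k1,k1,k1,k0,k0,k0],[k1,k1,k0,k1,k0,k0],[k1,k1,k0,k0,k1,k0],[k1,k0,k1,k1,k0,k0],[k1,k0,k1,k0,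
    k1,k0],[k1,k0,k0,k1,k1,k0],[k1,k0,k0,k0,k2,k0],[k1,k0,k0,k0,k1,k1],[k0,k2,k1,k0,k0,k0],[k0,k1,k1,k1,k0,k0],[k0,k1,
    k1,k0,k1,k0],[k0,k1,k1,k0,k0,k1],[k0,k1,k0,k1,k0,k1],[k0,k1,k0,k0,k1,k1],[k0,k0,k1,k1,k0,k1],[k0,k0,k1,k1,k1,k0],
    [k0,k0,k1,k0,k2,k0],[k0,k0,k1,k0,k1,k1]]
    [.ref k1 k8 [(z1,[z1,y1,z1,y1]),(z1,[z0,y1,y1,z1]),(z1,[z0,z1,y1,z1])],.ref k2 k4 [(z1,[z2,y1,y1,y1]),(z1,[z0,z0,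
    z1]),(z1,[y1,z1,z0,z1])],.ref k3 k7 [(z1,[z1,y1,y1]),(z1,[z1,z0,y1]),(z1,[z0,z0,z1])],.ref k4 k7 [(z1,[z1,y1,y1]),
    (z1,[z1,z0,y1]),(z1,[z0,z0,z1])],.ref k4 k7 [(z1,[y1,z0,y1,z1]),(z1,[y1,z1,y1,z1]),(z1,[z0,z0,z1])],
    .ref k3 k7 [(z1,[y1,z0,y1,z1]),(z1,[y1,z1,y1,z1]),(z1,[z0,z0,z1])],.ref k2 k4 [(z1,[y2,z1,y1,z1]),(z1,[z0,z0,z1]),
    (z1,[z1])],.ref k14 k4 [(z1,[y2,z1,y1,z1]),(z1,[z0,z0,z1]),(z1,[z1])],.ref k1 k8 [(z1,[z1,z0,z1,y1]),(z1,[z0,y1,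
    y1,z1]),(z1,[z0,z1,y1,z1])],.ref k2 k4 [(z1,[z1,z0,y2]),(z1,[z0,z0,z1]),(z2,[y1,z1,z1,z1])],.ref k1 k8 [(z1,[y1,
    z0,z1]),(z1,[z0,y1,y1,z1]),(z1,[z0,z1,y1,z1])],.ref k19 k0 [(z1,[z0,z1]),(z1,[z1,z1,z1,y1]),(z1,[z0,y1,y1,z1])],
    .ref k2 k4 [(z1,[z2,z1,y1,y1]),(z1,[z0,z0,z1]),(z1,[y1,z0,z0,z1])],.ref k3 k7 [(z1,[z1,z0,y1]),(z1,[z1,z1,y1]),
    (z1,[z0,z0,z1])],.ref k4 k7 [(z1,[z1,z0,y1]),(z1,[z1,z1,y1]),(z1,[z0,z0,z1])],.ref k4 k7 [(z1,[y1,y1,y1,z1]),(z1,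
    [y1,z0,y1,z1]),(z1,[z0,z0,z1])],.ref k20 k9 [(z1,[z1,z1,z1,y1]),(z1,[z0,y1,y1,z1]),(z1,[y1,y1,z0,z1])],
    .ref k3 k7 [(z2,[y1,y1,y1,z1]),(z2,[y1,z1,y1,z1]),(z1,[z0,z0,z1])],.ref k3 k7 [(z1,[y1,y1,y1,z1]),(z1,[y1,z0,y1,
    z1]),(z1,[z0,z0,z1])]],
    .leafM k6 [k2,k3,k4,k5,k0,k1] [(z1,[z1,z1])] [],
    .leafM k1 [k0,k1,k2,k3,k4,k5] [(z1,[z0,z1]),(z1,[z0,y1,z1])] []]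

noncomputable def cT6_2_n0_2 : List TN :=
  [.lp [k154,k162,k162,k172,k140,k168] [k9,k9,k5,k5,k5,k5,k0,k0,k16,k16,k2,k2] k0 [[k0,k0,k0,k0,k0,k0,k0,k32,k0,k0,k0,
    k24],[k0,k0,k0,k2,k0,k0,k0,k0,k0,k0,k0,k12],[k2,k0,k0,k0,k0,k0,k0,k0,k14],[],[k0,k0,k0,k0,k0,k0,k0,k16],[k0,k0,k0,
    k0,k0,k0,k0,k26,k0,k0,k8],[k0,k32,k0,k0,k26,k16],[k0,k0,k0,k0,k0,k0,k0,k0,k12],[k0,k0,k0,k0,k0,k0,k0,k0,k0,k0,k8,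
    k16],[k0,k0,k0,k14,k0,k0,k12],[k12,k24,k0,k0,k0,k0,k0,k0,k0,k16],[k0,k0,k0,k0,k8,k0,k0,k0,k0,k8]] (nat_lit 480) k5
    [[(k8,k139),(k7,k155),(k4,k158),(k0,k166),(k11,k177),(k3,k182)],[(k6,k131),(k10,k137),(k9,k147),(k2,k158),(k5,
    k160),(k1,k166)],[(k10,k153),(k2,k160),(k5,k162),(k6,k167),(k1,k182),(k9,k183)],[(k8,k151),(k11,k151),(k0,k158),
    (k3,k160),(k4,k162),(k7,k167)],[(k0,k160),(k3,k162),(k4,k162),(k8,k165),(k11,k165),(k7,k167)],[(k6,k151),(k1,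
    k158),(k2,k162),(k5,k162),(k10,k173),(k9,k177)],[(k6,k146),(k1,k155),(k2,k167),(k5,k167),(k10,k170),(k9,k172)],
    [(k0,k131),(k7,k146),(k4,k151),(k3,k167),(k8,k168),(k11,k170)],[(k8,k140),(k11,k142),(k0,k147),(k7,k172),(k4,
    k177),(k3,k183)],[(k10,k138),(k1,k139),(k9,k140),(k2,k151),(k5,k165),(k6,k168)],[(k9,k142),(k2,k151),(k5,k165),
    (k6,k170),(k10,k176),(k1,k177)],[(k0,k137),(k8,k138),(k3,k153),(k7,k170),(k4,k173),(k11,k176)]]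
    [] k0
    [[k2,k0,k0,k1,k0,k0],[k2,k0,k0,k0,k1,k0],[k1,k1,k0,k0,k0,k1],[k1,k1,k1,k0,k0,k0],[k1,k0,k1,k1,k0,k0],[k1,k0,k1,k0,
    k1,k0],[k1,k0,k1,k0,k0,k1],[k1,k0,k0,k2,k0,k0],[k1,k0,k0,k1,k1,k0],[k1,k0,k0,k1,k0,k1],[k1,k0,k0,k0,k2,k0],[k1,k0,
    k0,k0,k1,k1],[k0,k2,k0,k0,k0,k1],[k0,k1,k0,k0,k2,k0],[k0,k1,k0,k0,k1,k1],[k0,k0,k1,k2,k0,k0],[k0,k0,k0,k3,k0,k0],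
    [k0,k0,k0,k0,k3,k0],[k0,k0,k0,k0,k2,k1],[k0,k0,k0,k0,k1,k2]]
    [.ref k6 k0 [(z3,[z7,y5,z0,z0,y7]),(z3,[y2,z4,z9,z0,z2]),(z3,[z4,y8,z0,z9,y4]),(z3,[y5,z10,z0,z0,z14]),(z3,[y5,z1,
    y9,y9,y4,z9])],.ref k6 k0 [(z3,[z7,z2,z7,z7,z7,y7]),(z3,[y2,z2,z7,y2,y2,z2]),(z3,[z4,y4,z4,z13,z4,y4]),(z3,[y5,z5,
    y5,y5,z4,z5]),(z3,[y5,y4,y14,y14,y14,z14])],.ref k6 k0 [(z2,[z7,y1,y7]),(z1,[y1,z1,z4]),(z1,[z2,y2,y2,z3]),(z2,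
    [y5,z5,z5,z0,z6]),(z2,[y5,y1,y1,y6,y6,z6])],.ref k6 k0 [(z3,[z7,z2,y7,y7]),(z3,[y2,z2,z11,z2]),(z3,[z4,y4,y4,z5]),
    (z3,[y5,z5,z5,z5,z9]),(z3,[y5,y4,y4,y4,y9,z9])],.ref k6 k0 [(z2,[z7,y1,z0,y7,y7]),(z1,[y1,z1,z3,z1,z1]),(z1,[z2,
    y2,z0,z1,y2]),(z2,[y5,z5,z0,z5,z11]),(z2,[y5,y1,y6,y1,y1,z6])],.ref k6 k0 [(z2,[z7,z6,z7,z0,z7,y7]),(z1,[y1,z0,z2,
    z0,y1,z1]),(z1,[z2,z0,z2,z3,z2,y2]),(z2,[y5,z0,y5,z0,z1,z5]),(z2,[y5,y6,y11,y6,y11,z11])],.ref k6 k0 [(z4,[z7,z5,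
    z0,y7]),(z2,[y1,z1,z6,z1]),(z1,[z1,y1,z0,z2]),(z4,[y5,z5,z0,z5,z12]),(z4,[y5,y7,y12,y7,y12,z12])],.ref k6 k0 [(z1,
    [y7,z10,z0,z0,z14]),(z1,[z2,y2,z3,z0,y4]),(z1,[y4,z4,z0,z3,z8]),(z1,[z5,y5,z0,z0,y7]),(z1,[z5,y8,y3,y3,y13,z3])],
    .ref k6 k0 [(z1,[y7,z3,y7,y7,z0,z7]),(z1,[z2,z0,z5,z2,z0,y2]),(z1,[y4,z0,y4,y1,z0,z4]),(z1,[z5,z0,z5,z5,z3,y5]),
    (z1,[z5,y3,z2,z2,y3,y2])],.ref k6 k0 [(z1,[z7,y4,z0,z0,y7]),(z1,[y2,z2,z3,z0,z2]),(z1,[z4,y4,z0,z3,y4]),(z1,[y5,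
    z5,z0,z0,z8]),(z1,[y5,z2,y3,y3,z2,z3])],.ref k6 k0 [(z1,[y7,y4,y14,y14,y14,z14]),(z1,[z2,z2,z7,z4,z4,y4]),(z1,[y4,
    y4,y8,y5,y8,z8]),(z1,[z5,z5,z10,z10,z13,y10]),(z1,[z5,z2,z7,z7,z7,y7])],.ref k6 k0 [(z1,[z7,z3,z7,z7,z7,y7]),(z1,
    [y2,z0,z1,y2,y2,z2]),(z1,[z4,z0,z4,z7,z4,y4]),(z1,[y5,z0,y5,y5,y2,z5]),(z1,[y5,y3,y8,y8,y8,z8])],.ref k6 k0 [(z1,
    [y7,z3,z14]),(z1,[z2,z0,y1]),(z1,[y4,z0,z8,z3]),(z1,[z5,z0,y10,z0,z3]),(z1,[z5,y3,y13,y3,y3,z3])],.ref k6 k0 [(z4,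
    [y7,y2,y7,y14,y14,z14]),(z2,[z1,z2,z7,z2,z2,y2]),(z1,[y1,y2,y1,z1,y2,z2]),(z4,[z5,z10,z5,z10,z22,y10]),(z4,[z5,y2,
    y7,y2,y2,z2])],.ref k6 k0 [(z2,[y7,y1,z0,y7,y7,z7]),(z1,[z1,z1,z3,z1,z1,y1]),(z1,[y2,y2,z0,z1,y2,z2]),(z2,[z5,z5,
    z0,z5,z11,y5]),(z2,[z5,y1,y6,y1,y1,z1])],.ref k6 k0 [(z2,[y7,z6,z0,z7,z14]),(z1,[z1,z0,z3,y1,y2]),(z1,[y2,z0,z0,
    z5,z4]),(z2,[z5,z0,z0,y5,y4]),(z2,[z5,y6,y6,y11,y16,z6])],.ref k6 k0 [(z5,[y7,z15,z0,z0,z21]),(z5,[z2,z0,z15,z0,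
    y6]),(z5,[y4,z0,z0,z15,z12]),(z1,[z1]),(z1,[z1,y3,y3,y3,y6,z3])],.ref k6 k0 [(z5,[y7,y6,y21,y21,y21,z21]),(z5,[z2,
    z6,z21,z6,z6,y6]),(z5,[y4,y12,y12,z3,y12,z12]),(z1,[z1,z3,z3,z3,z6,y3]),(z1,[z1])],.ref k6 k0 [(z3,[y7,y5,y14,y14,
    y14,z14]),(z3,[z2,z4,z13,z4,z4,y4]),(z3,[y4,y8,y8,z1,y8,z8]),(z3,[z5,z10,z10,z10,z19,y10]),(z3,[z5,z1,z1,z1,z1,
    y1])],.ref k6 k0 [(z1,[y7,y4,y7,y7,y7,z7]),(z1,[z2,z2,z5,z2,z2,y2]),(z1,[y4,y4,y4,y1,y4,z4]),(z1,[z5,z5,z5,z5,z8,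
    y5]),(z1,[z5,z2,z2,z2,z2,y2])]],
    .leafM k6 [k2,k3,k4,k5,k0,k1] [(z1,[z1,z1])] [],
    .leafM k6 [k0,k1,k2,k3,k4,k5] [(z3,[y3,y1,y1,z0,z3])] [],
    .lp [(nat_lit 296),(nat_lit 322),(nat_lit 306),(nat_lit 300),(nat_lit 356),(nat_lit 338)] [k30,k30,k17,k17,k25,k25,
    k28,k28,k0,k0,k9,k9] k0 [[k0,k0,k16,k0,k0,k0,k0,k2,k0,k0,k30],[k0,k0,k6,k0,k0,k0,k0,k0,k0,k0,k2],[k0,k0,k0,k0,k0,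
    k54,k0,k0,k0,k18],[k6,k16],[k0,k0,k0,k54],[k0,k0,k0,k0,k0,k0,k0,k0,k0,k0,k0,k2],[k0,k2],[k0,k0,k0,k0,k0,k0,k0,k0,
    k8,k24],[k0,k0,k0,k18,k0,k0,k24,k0,k0,k0,k0,k58],[k0,k0,k0,k0,k0,k0,k8,k0,k0,k0,k0,k18],[k0,k0,k0,k0,k2,k0,k0,k0,
    k18,k58],[k2,k30]] (nat_lit 960) k5
    [[(k0,(nat_lit 266)),(k7,(nat_lit 298)),(k4,(nat_lit 303)),(k3,(nat_lit 307)),(k8,(nat_lit 344)),(k11,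
    (nat_lit 375))],[(k1,(nat_lit 266)),(k5,(nat_lit 285)),(k6,(nat_lit 296)),(k2,(nat_lit 315)),(k10,(nat_lit 319)),
    (k9,(nat_lit 326))],[(k1,(nat_lit 307)),(k5,(nat_lit 308)),(k6,(nat_lit 311)),(k2,(nat_lit 338)),(k9,
    (nat_lit 341)),(k10,(nat_lit 360))],[(k4,(nat_lit 260)),(k7,(nat_lit 311)),(k0,(nat_lit 315)),(k8,(nat_lit 321)),
    (k11,(nat_lit 330)),(k3,(nat_lit 338))],[(k0,(nat_lit 285)),(k4,(nat_lit 306)),(k3,(nat_lit 308)),(k8,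
    (nat_lit 331)),(k11,(nat_lit 340)),(k7,(nat_lit 357))],[(k2,(nat_lit 260)),(k1,(nat_lit 303)),(k6,(nat_lit 303)),
    (k5,(nat_lit 306)),(k10,(nat_lit 322)),(k9,(nat_lit 331))],[(k1,(nat_lit 298)),(k6,(nat_lit 300)),(k2,
    (nat_lit 311)),(k10,(nat_lit 317)),(k9,(nat_lit 328)),(k5,(nat_lit 357))],[(k0,(nat_lit 296)),(k7,(nat_lit 300)),
    (k4,(nat_lit 303)),(k3,(nat_lit 311)),(k8,(nat_lit 336)),(k11,(nat_lit 343))],[(k0,(nat_lit 326)),(k7,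
    (nat_lit 328)),(k4,(nat_lit 331)),(k8,(nat_lit 332)),(k11,(nat_lit 339)),(k3,(nat_lit 341))],[(k10,(nat_lit 289)),
    (k2,(nat_lit 321)),(k5,(nat_lit 331)),(k9,(nat_lit 332)),(k6,(nat_lit 336)),(k1,(nat_lit 344))],[(k10,
    (nat_lit 320)),(k2,(nat_lit 330)),(k9,(nat_lit 339)),(k5,(nat_lit 340)),(k6,(nat_lit 343)),(k1,(nat_lit 375))],
    [(k8,(nat_lit 289)),(k7,(nat_lit 317)),(k0,(nat_lit 319)),(k11,(nat_lit 320)),(k4,(nat_lit 322)),(k3,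
    (nat_lit 360))]]
    [] k0
    [[k3,k0,k0,k0,k0,k0],[k2,k1,k0,k0,k0,k0],[k2,k0,k1,k0,k0,k0],[k2,k0,k0,k1,k0,k0],[k2,k0,k0,k0,k1,k0],[k1,k1,k1,k0,
    k0,k0],[k1,k1,k0,k1,k0,k0],[k1,k1,k0,k0,k1,k0],[k1,k1,k0,k0,k0,k1],[k1,k0,k2,k0,k0,k0],[k1,k0,k1,k1,k0,k0],[k1,k0,
    k0,k2,k0,k0],[k0,k2,k1,k0,k0,k0],[k0,k1,k2,k0,k0,k0],[k0,k1,k1,k1,k0,k0],[k0,k1,k0,k2,k0,k0],[k0,k1,k0,k1,k0,k1],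
    [k0,k1,k1,k0,k1,k0],[k0,k0,k3,k0,k0,k0],[k0,k0,k0,k3,k0,k0],[k0,k0,k0,k0,k1,k2]]
    [.ref k6 k0 [(z1,[z1]),(z1,[z1,y1,z1]),(z2,[y3,z3,z0,z2]),(z1,[y1,z1,z0,z0,z3]),(z1,[z0,y1,y1,y1,y3,z3])],
    .ref k6 k0 [(z3,[z3,z1,y1]),(z3,[z3,y2,z2]),(z2,[y3,z2,z1,z2]),(z3,[y3,z2,z1,z0,z9]),(z1,[z0,y1,y1,y1,y3,z3])],
    .ref k6 k0 [(z1,[z6,y3,z0,y2]),(z1,[z6,y4,z1,y2]),(z1,[y9,z6,z0,z4]),(z1,[y6,z4,z0,z2,z3]),(z1,[z0,y1,y1,y1,y3,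
    z3])],.ref k6 k0 [(z1,[z3,y1,z0,z0,y3]),(z1,[z3,y2,z1,z0,y3]),(z2,[y9,z6,z0,z2,z9]),(z1,[y3,z2,z0,z0,z6]),(z1,[z0,
    y1,y1,y1,y3,z3])],.ref k6 k0 [(z2,[z3,z1,z1,z1,z3,y3]),(z2,[z3,y1,z3,z1,z3,y3]),(z4,[y9,z3,y3,z1,y9,z9]),(z2,[y3,
    z1,y1,y1,z3,z3]),(z1,[z0,y1,y1,y1,y3,z3])],.ref k6 k0 [(z1,[z6,y1,y2,y2]),(z1,[z6,y2,y1,y2]),(z1,[y9,z3,z3,z4]),
    (z1,[y6,z2,z2,z2,z3]),(z1,[z0,y1,y1,y1,y3,z3])],.ref k6 k0 [(z1,[z3,z0,y1,z0,y3]),(z1,[z3,y1,z0,z0,y3]),(z2,[y9,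
    z3,z3,z2,z9]),(z1,[y3,z1,z1,z0,z6]),(z1,[z0,y1,y1,y1,y3,z3])],.ref k6 k0 [(z2,[z3,z2,z0,z1,z3,y3]),(z2,[z3,z0,z2,
    z1,z3,y3]),(z4,[y9,z0,z0,z1,y9,z9]),(z2,[y3,z0,z0,y1,z3,z3]),(z1,[z0,y1,y1,y1,y3,z3])],.ref k6 k0 [(z5,[z6,z3,
    y2]),(z5,[z6,y2,z3]),(z5,[y9,z3,z3,z5]),(z5,[y6,z2,z2,z0,z15]),(z1,[z0,y1,y1,y1,y3,z3])],.ref k6 k0 [(z2,[y3,z3,
    z0,z2]),(z2,[y3,z1,z2,z2]),(z4,[z9,y3,z0,y2]),(z2,[z3,y1,z0,y2,z6]),(z1,[z0,y1,y1,y1,y3,z3])],.ref k6 k0 [(z3,[y6,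
    z5,z0,z2,z6]),(z3,[y6,z2,z3,z2,z6]),(z1,[z3,y1,z0,z0,y3]),(z3,[z6,y2,z0,y2,z3]),(z1,[z0,y1,y1,y1,y3,z3])],
    .ref k6 k0 [(z1,[y3,z2,z0,z0,z6]),(z1,[y3,z1,z1,z0,z6]),(z2,[z9,y3,z0,z2,y18]),(z1,[z3,y1,z0,z0,y3]),(z1,[z0,y1,
    y1,y1,y3,z3])],.ref k6 k0 [(z1,[z6,z1,y4,y2]),(z1,[z6,z0,y3,y2]),(z1,[y9,z0,z6,z4]),(z1,[y6,z0,z4,z2,z3]),(z1,[z0,
    y1,y1,y1,y3,z3])],.ref k6 k0 [(z2,[y3,z2,z1,z2]),(z2,[y3,z0,z3,z2]),(z4,[z9,z0,y3,y2]),(z2,[z3,z0,y1,y2,z6]),(z1,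
    [z0,y1,y1,y1,y3,z3])],.ref k6 k0 [(z3,[y6,z3,z2,z2,z6]),(z3,[y6,z0,z5,z2,z6]),(z1,[z3,z0,y1,z0,y3]),(z3,[z6,z0,y2,
    y2,z3]),(z1,[z0,y1,y1,y1,y3,z3])],.ref k6 k0 [(z1,[y3,z1,z1,z0,z6]),(z1,[y3,z0,z2,z0,z6]),(z2,[z9,z0,y3,z2,y18]),
    (z1,[z3,z0,y1,z0,y3]),(z1,[z0,y1,y1,y1,y3,z3])],.ref k6 k0 [(z1,[z6,z1,y2,z0,y6]),(z1,[z6,z0,y1,z0,y6]),(z1,[y9,
    z0,z3,z1,z9]),(z1,[y6,z0,z2,z0,z9]),(z1,[z0,y1,y1,y1,y3,z3])],.ref k6 k0 [(z1,[y6,y1,z0,z0,y6,z6]),(z1,[y6,y2,z1,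
    z0,y6,z6]),(z1,[z9,z3,z0,z1,z9,y9]),(z1,[z6,z2,z0,z0,z9,y6]),(z1,[z0,y1,y1,y1,y3,z3])],.ref k6 k0 [(z3,[y2,z3,z0,
    z2]),(z3,[y2,z0,z3,z2]),(z1,[z1]),(z3,[z2,z0,z0,y2,z9]),(z1,[z0,y1,y1,y1,y3,z3])],.ref k6 k0 [(z1,[y1,z1,z0,z0,
    z3]),(z1,[y1,z0,z1,z0,z3]),(z2,[z3,z0,z0,z2,y9]),(z1,[z1]),(z1,[z0,y1,y1,y1,y3,z3])],.ref k6 k0 [(z1,[z3,z2,z1,z1,
    z3,y3]),(z1,[z3,z1,z2,z1,z3,y3]),(z2,[y9,y3,y3,y1,y9,z9]),(z1,[y3,y1,y1,y1,z0,z3]),(z1,[z0,y1,y1,y1,y3,z3])]],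
    .lp [k160,k136,k176,k156,k162,k168] [k8,k8,k20,k20,k0,k0,k10,k10,k7,k7,k4,k4] k0 [[k0,k0,k48,k0,k0,k0,k4,k26],[k0,k0,
    k8,k0,k0,k0,k0,k0,k0,k0,k8],[k0,k0,k0,k0,k0,k0,k0,k0,k6],[k8,k48],[k0,k0,k0,k0,k0,k0,k0,k28,k0,k0,k20],[k0,k0,k0,
    k0,k0,k0,k0,k22,k0,k0,k14],[k0,k26,k0,k0,k22,k28],[k0,k4,k0,k0,k0,k0,k0,k0,k0,k2],[k0,k0,k0,k0,k0,k0,k2,k0,k0,k0,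
    k0,k10],[k0,k0,k0,k6,k0,k0,k0,k0,k0,k0,k0,k8],[k0,k0,k0,k0,k0,k0,k0,k0,k8,k10],[k8,k0,k0,k0,k14,
    k20]] (nat_lit 480) k5
    [[(k3,k140),(k7,k144),(k4,k148),(k0,k160),(k8,k169),(k11,k174)],[(k5,k120),(k6,k132),(k2,k156),(k9,k157),(k1,
    k160),(k10,k172)],[(k1,k140),(k5,k148),(k6,k150),(k10,k152),(k9,k175),(k2,k184)],[(k7,k146),(k11,k146),(k8,k149),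
    (k0,k156),(k4,k156),(k3,k184)],[(k0,k120),(k3,k148),(k7,k166),(k11,k172),(k8,k175),(k4,k176)],[(k6,k138),(k1,
    k148),(k2,k156),(k5,k176),(k10,k186),(k9,k191)],[(k6,k134),(k1,k144),(k2,k146),(k5,k166),(k10,k182),(k9,k187)],
    [(k0,k132),(k7,k134),(k4,k138),(k3,k150),(k8,k159),(k11,k164)],[(k0,k157),(k8,k160),(k11,k165),(k3,k175),(k7,
    k187),(k4,k191)],[(k2,k149),(k10,k155),(k6,k159),(k9,k160),(k1,k169),(k5,k175)],[(k2,k146),(k10,k160),(k6,k164),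
    (k9,k165),(k5,k172),(k1,k174)],[(k3,k152),(k8,k155),(k11,k160),(k0,k172),(k7,k182),(k4,k186)]]
    [] k0
    [[k2,k1,k0,k0,k0,k0],[k2,k0,k1,k0,k0,k0],[k2,k0,k0,k1,k0,k0],[k1,k1,k1,k0,k0,k0],[k1,k1,k0,k1,k0,k0],[k1,k1,k0,k0,
    k1,k0],[k1,k1,k0,k0,k0,k1],[k1,k0,k2,k0,k0,k0],[k1,k0,k1,k1,k0,k0],[k1,k0,k0,k2,k0,k0],[k1,k0,k0,k1,k1,k0],[k0,k1,
    k1,k1,k0,k0],[k0,k1,k0,k2,k0,k0],[k0,k1,k0,k1,k0,k1],[k0,k1,k0,k0,k1,k1],[k0,k1,k0,k0,k0,k2],[k0,k0,k1,k2,k0,k0],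
    [k0,k0,k0,k3,k0,k0]]
    [.ref k6 k0 [(z5,[z4,z7,y4]),(z5,[z7,y14,z8]),(z1,[y1,z2,z1,z3]),(z1,[y1,z2,z1,z0,z3]),(z5,[y2,y11,y13,y15,y15,
    z15])],.ref k6 k0 [(z1,[z4,y5,z0,y4]),(z1,[z7,y14,z3,y7]),(z1,[y5,z10,z0,z8]),(z1,[y5,z10,z0,z5,z3]),(z1,[y2,z1,
    y3,y1,y3,z3])],.ref k6 k0 [(z1,[z4,y5,z0,z0,y4]),(z1,[z7,y14,z3,z0,y7]),(z1,[y5,z10,z0,z3,z5]),(z1,[y5,z10,z0,z0,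
    z8]),(z1,[y2,z1,y3,y3,y1,z3])],.ref k6 k0 [(z1,[z2,z1,y2,y2]),(z2,[z7,y7,y1,y7]),(z2,[y5,z5,z5,z11]),(z2,[y5,z5,
    z5,z5,z6]),(z1,[y1,y2,y2,y2,y3,z3])],.ref k6 k0 [(z1,[z2,z1,y2,z0,y2]),(z2,[z7,y7,y1,z0,y7]),(z2,[y5,z5,z5,z6,
    z5]),(z2,[y5,z5,z5,z0,z11]),(z1,[y1,y2,y2,y3,y2,z3])],.ref k6 k0 [(z3,[z4,z9,z0,z4,z4,y4]),(z3,[z7,z0,z9,z7,z7,
    y7]),(z3,[y5,z0,z0,z4,y5,z5]),(z3,[y5,z0,z0,y5,z4,z5]),(z3,[y2,y9,y9,y11,y11,z11])],.ref k6 k0 [(z1,[z1,z2,y1]),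
    (z4,[z7,y7,z5]),(z4,[y5,z5,z5,z12]),(z4,[y5,z5,z5,z0,z12]),(z2,[y1,y5,y5,y6,y6,z6])],.ref k6 k0 [(z1,[y2,z5,z0,
    z4]),(z2,[y7,z7,z6,z14]),(z2,[z5,y5,z0,y4]),(z2,[z5,y5,z0,y10,z6]),(z1,[z1,y4,y3,y5,y3,z3])],.ref k6 k0 [(z1,[y2,
    z5,z0,z2,z2]),(z2,[y7,z7,z6,z7,z7]),(z2,[z5,y5,z0,z1,y5]),(z2,[z5,y5,z0,y5,z1]),(z1,[z1,y4,y3,y4,y4,z3])],
    .ref k6 k0 [(z1,[y2,z5,z0,z0,z4]),(z2,[y7,z7,z6,z0,z14]),(z2,[z5,y5,z0,z6,y10]),(z2,[z5,y5,z0,z0,y4]),(z1,[z1,y4,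
    y3,y3,y5,z3])],.ref k6 k0 [(z1,[y4,z3,y4,y4,z0,z4]),(z1,[y7,z0,y4,y7,z0,z7]),(z1,[z5,z0,z5,z8,z0,y5]),(z1,[z5,z0,
    z5,z5,z3,y5]),(z1,[z2,y3,y1,y1,y3,z1])],.ref k6 k0 [(z1,[y4,z3,z4,z4,z4]),(z1,[y7,z0,z10,z7,z7]),(z1,[z5,z0,y5,y2,
    y5]),(z1,[z5,z0,y5,y5,y2]),(z1,[z2,y3,y5,y5,y5,z3])],.ref k6 k0 [(z1,[y4,z3,z4,z0,z8]),(z1,[y7,z0,z10,z0,z14]),
    (z1,[z5,z0,y5,z3,y10]),(z1,[z5,z0,y5,z0,y7]),(z1,[z2,y3,y5,y3,y7,z3])],.ref k6 k0 [(z1,[z4,z3,y4,z0,y4]),(z1,[z7,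
    z0,y4,z0,y7]),(z1,[y5,z0,z5,z3,z5]),(z1,[y5,z0,z5,z0,z8]),(z1,[y2,y3,y1,y3,y1,z3])],.ref k6 k0 [(z1,[z2,z5,z0,z2,
    z2,y2]),(z2,[z7,z7,z6,z7,z7,y7]),(z2,[y5,y5,z0,z1,y5,z5]),(z2,[y5,y5,z0,y5,z1,z5]),(z1,[y1,y4,y3,y4,y4,z4])],
    .ref k6 k0 [(z3,[z4,z9,y4]),(z3,[z7,z0,z2]),(z3,[y5,z0,z5,z9]),(z3,[y5,z0,z5,z0,z9]),(z3,[y2,y9,y7,y9,y9,z9])],
    .ref k6 k0 [(z5,[y4,z15,z0,z4,z8]),(z5,[y7,z0,z15,z7,z14]),(z1,[z1,z0,z0,z2,y2]),(z1,[z1,z0,z0,y1,z1]),(z5,[z2,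
    y15,y15,y17,y19,z15])],.ref k6 k0 [(z5,[y4,z15,z0,z0,z12]),(z5,[y7,z0,z15,z0,z21]),(z1,[z1,z0,z0,z3,y3]),(z1,
    [z1]),(z5,[z2,y15,y15,y15,y21,z15])]],
    .lp [k36,k42,k42,k40,k40,k38] [k3,k3,k0,k0,k0,k0,k1,k1,k1,k1,k2,k2] k0 [[k0,k0,k0,k0,k0,k0,k2,k8,k0,k0,k0,k6],[k0,k0,
    k0,k6,k0,k0,k0,k0,k0,k0,k0,k4],[k6,k0,k0,k0,k0,k0,k0,k0,k0,k2],[k0,k0,k0,k0,k0,k4],[k0,k0,k4,k0,k0,k0,k0,k0,k0,k0,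
    k2],[],[k0,k8],[k0,k2],[k0,k0,k0,k2,k0,k0,k0,k0,k0,k0,k6],[k0,k0,k0,k0,k0,k0,k0,k0,k0,k0,k2],[k4,k6],[k0,k0,k0,k0,
    k0,k2,k0,k0,k2,k6]] k120 k5
    [[(k8,k32),(k11,k35),(k4,k37),(k7,k38),(k0,k40),(k3,k45)],[(k6,k30),(k10,k31),(k9,k36),(k2,k39),(k1,k40),(k5,
    k45)],[(k2,k36),(k10,k36),(k5,k42),(k6,k43),(k1,k45),(k9,k49)],[(k3,k36),(k0,k39),(k8,k39),(k11,k40),(k4,k42),(k7,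
    k45)],[(k4,k38),(k7,k41),(k8,k41),(k3,k42),(k11,k42),(k0,k45)],[(k1,k37),(k5,k38),(k10,k40),(k6,k41),(k9,k41),(k2,
    k42)],[(k1,k38),(k6,k40),(k9,k40),(k5,k41),(k10,k41),(k2,k45)],[(k0,k30),(k11,k39),(k7,k40),(k8,k40),(k4,k41),(k3,
    k43)],[(k0,k36),(k11,k39),(k7,k40),(k8,k40),(k4,k41),(k3,k49)],[(k1,k32),(k2,k39),(k6,k40),(k9,k40),(k5,k41),(k10,
    k41)],[(k1,k35),(k6,k39),(k9,k39),(k2,k40),(k5,k42),(k10,k44)],[(k0,k31),(k3,k36),(k4,k40),(k7,k41),(k8,k41),(k11,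
    k44)]]
    [] k0
    [[k2,k0,k0,k1,k0,k0],[k2,k0,k0,k0,k1,k0],[k2,k0,k0,k0,k0,k1],[k1,k1,k0,k0,k0,k1],[k1,k1,k1,k0,k0,k0],[k1,k0,k1,k1,
    k0,k0],[k1,k0,k1,k0,k1,k0],[k1,k0,k1,k0,k0,k1],[k1,k0,k0,k2,k0,k0],[k1,k0,k0,k1,k1,k0],[k1,k0,k0,k1,k0,k1],[k1,k0,
    k0,k0,k2,k0],[k1,k0,k0,k0,k1,k1],[k1,k0,k0,k0,k0,k2],[k0,k3,k0,k0,k0,k0],[k0,k2,k0,k0,k0,k1],[k0,k1,k0,k0,k1,k1],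
    [k0,k0,k3,k0,k0,k0]]
    [.ref k6 k0 [(z2,[z3,z0,z0,z0,y1]),(z2,[y3,z2,z6,z0,z1]),(z4,[y3,z2,z0,z4,z1]),(z1,[z0,z0,z0,z0,z1]),(z1,[z0,y1,
    y3,y1,y1,z3])],.ref k6 k0 [(z2,[z3,z1,z3,z1,z1,y3]),(z2,[y3,z1,z3,y1,y1,z3]),(z4,[y3,z1,y3,z3,y1,z3]),(z1,[z0,z0,
    z0,z0,z1]),(z1,[z0,y1,y3,y1,y1,z3])],.ref k6 k0 [(z5,[z6,z1]),(z5,[y6,z4,z15]),(z5,[y3,z2,z0,z5]),(z1,[z0,z0,z0,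
    z0,z1]),(z1,[z0,y1,y3,y1,y1,z3])],.ref k6 k0 [(z1,[z6,y1,y6]),(z1,[y6,z2,z9]),(z1,[y3,z1,z3,z1]),(z1,[z0,z0,z0,z0,
    z1]),(z1,[z0,y1,y3,y1,y1,z3])],.ref k6 k0 [(z1,[y6,z3,z6,z2]),(z1,[z6,y2,y3,y2]),(z1,[z3,y1,y3]),(z1,[z0,z0,z0,z0,
    z1]),(z1,[z0,y1,y3,y1,y1,z3])],.ref k6 k0 [(z1,[z6,y1,z0,y2,y2]),(z1,[y6,z2,z3,z2,z2]),(z1,[y3,z1,z0,z2,z1]),(z1,
    [z0,z0,z0,z0,z1]),(z1,[z0,y1,y3,y1,y1,z3])],.ref k6 k0 [(z1,[z6,z1,z6,z0,z2,y6]),(z1,[y6,z0,y3,z0,y2,z6]),(z1,[y3,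
    z0,y3,z1,y1,z3]),(z1,[z0,z0,z0,z0,z1]),(z1,[z0,y1,y3,y1,y1,z3])],.ref k6 k0 [(z1,[z3,z0,z0,y1]),(z1,[y3,z1,z3,
    z1]),(z2,[y3,z1,z0,z3]),(z1,[z0,z0,z0,z0,z1]),(z1,[z0,y1,y3,y1,y1,z3])],.ref k6 k0 [(z1,[z3,z0,z0,z0,y2]),(z1,[y3,
    z1,z3,z0,z2]),(z2,[y3,z1,z0,z2,z2]),(z1,[z0,z0,z0,z0,z1]),(z1,[z0,y1,y3,y1,y1,z3])],.ref k6 k0 [(z1,[z3,z1,z3,z1,
    z0,y3]),(z1,[y3,z0,z0,y1,z0,z3]),(z2,[y3,z0,y3,z1,z0,z3]),(z1,[z0,z0,z0,z0,z1]),(z1,[z0,y1,y3,y1,y1,z3])],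
    .ref k6 k0 [(z3,[z6,z1,z0,z0,y2]),(z3,[y6,z2,z9,z0,z2]),(z3,[y3,z1,z0,z3,z1]),(z1,[z0,z0,z0,z0,z1]),(z1,[z0,y1,y3,
    y1,y1,z3])],.ref k6 k0 [(z1,[z3,z2,z6,z2,z2,y6]),(z1,[y3,y1,y3,y2,y2,z6]),(z2,[y3,y1,y6,z0,y2,z6]),(z1,[z0,z0,z0,
    z0,z1]),(z1,[z0,y1,y3,y1,y1,z3])],.ref k6 k0 [(z3,[z6,z3,z6,z2,z2,y6]),(z3,[y6,z0,z3,y2,y2,z6]),(z3,[y3,z0,y3,z2,
    y1,z3]),(z1,[z0,z0,z0,z0,z1]),(z1,[z0,y1,y3,y1,y1,z3])],.ref k6 k0 [(z2,[z3,z1]),(z2,[y3,z1,z6]),(z4,[y3,z1,z0,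
    z4]),(z1,[z0,z0,z0,z0,z1]),(z1,[z0,y1,y3,y1,y1,z3])],.ref k6 k0 [(z1,[y1,z1,z3]),(z1,[z1]),(z2,[z1,z0,y3,z2]),(z1,
    [z0,z0,z0,z0,z1]),(z1,[z0,y1,y3,y1,y1,z3])],.ref k6 k0 [(z1,[y2,z1,z4]),(z1,[z2,z0,y1]),(z1,[z1,z0,y2,z1]),(z1,
    [z0,z0,z0,z0,z1]),(z1,[z0,y1,y3,y1,y1,z3])],.ref k6 k0 [(z1,[y6,y1,z0,y2,y2,z6]),(z1,[z6,z2,z3,z2,z2,y6]),(z1,[z3,
    z1,z0,z2,z1,y3]),(z1,[z0,z0,z0,z0,z1]),(z1,[z0,y1,y3,y1,y1,z3])],.ref k6 k0 [(z1,[y2,z1,z0,z2]),(z1,[z2,z0,z3,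
    y2]),(z1,[z1]),(z1,[z0,z0,z0,z0,z1]),(z1,[z0,y1,y3,y1,y1,z3])]],
    .lp [(nat_lit 320),(nat_lit 330),(nat_lit 334),(nat_lit 328),(nat_lit 286),(nat_lit 320)] [k7,k7,k2,k2,k0,k0,k3,k3,
    k24,k24,k7,k7] k0 [[k0,k0,k0,k0,k0,k0,k0,k24,k0,k0,k0,k34],[k0,k0,k0,k0,k0,k0,k0,k0,k0,k0,k0,k34],[k0,k0,k0,k0,k0,
    k0,k0,k0,k42,k10],[k0,k0,k0,k0,k0,k2],[k0,k0,k2,k0,k0,k0,k0,k34,k0,k0,k26],[k0,k0,k0,k0,k0,k0,k0,k26,k0,k0,k18],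
    [k0,k24,k0,k0,k26,k34],[k0,k0,k0,k0,k0,k0,k0,k0,k40,k14],[k0,k0,k0,k10,k0,k0,k14],[k0,k0,k0,k42,k0,k0,k40],[k34,
    k34],[k0,k0,k0,k0,k18,k26]] (nat_lit 960) k5
    [[(k4,(nat_lit 301)),(k8,(nat_lit 303)),(k7,(nat_lit 306)),(k11,(nat_lit 320)),(k0,(nat_lit 354)),(k3,
    (nat_lit 359))],[(k10,(nat_lit 286)),(k6,(nat_lit 300)),(k9,(nat_lit 303)),(k2,(nat_lit 325)),(k5,(nat_lit 327)),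
    (k1,(nat_lit 354))],[(k10,(nat_lit 291)),(k6,(nat_lit 329)),(k2,(nat_lit 330)),(k5,(nat_lit 332)),(k9,
    (nat_lit 332)),(k1,(nat_lit 359))],[(k11,(nat_lit 283)),(k8,(nat_lit 298)),(k0,(nat_lit 325)),(k3,(nat_lit 330)),
    (k7,(nat_lit 331)),(k4,(nat_lit 332))],[(k0,(nat_lit 327)),(k7,(nat_lit 331)),(k3,(nat_lit 332)),(k4,
    (nat_lit 332)),(k11,(nat_lit 337)),(k8,(nat_lit 352))],[(k6,(nat_lit 297)),(k1,(nat_lit 301)),(k2,(nat_lit 332)),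
    (k5,(nat_lit 332)),(k9,(nat_lit 336)),(k10,(nat_lit 345))],[(k6,(nat_lit 302)),(k1,(nat_lit 306)),(k2,
    (nat_lit 331)),(k5,(nat_lit 331)),(k9,(nat_lit 341)),(k10,(nat_lit 350))],[(k4,(nat_lit 297)),(k0,(nat_lit 300)),
    (k7,(nat_lit 302)),(k3,(nat_lit 329)),(k11,(nat_lit 338)),(k8,(nat_lit 347))],[(k11,(nat_lit 263)),(k8,
    (nat_lit 272)),(k0,(nat_lit 303)),(k3,(nat_lit 332)),(k4,(nat_lit 336)),(k7,(nat_lit 341))],[(k9,(nat_lit 272)),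
    (k2,(nat_lit 298)),(k1,(nat_lit 303)),(k10,(nat_lit 303)),(k6,(nat_lit 347)),(k5,(nat_lit 352))],[(k9,
    (nat_lit 263)),(k2,(nat_lit 283)),(k1,(nat_lit 320)),(k10,(nat_lit 320)),(k5,(nat_lit 337)),(k6,(nat_lit 338))],
    [(k0,(nat_lit 286)),(k3,(nat_lit 291)),(k8,(nat_lit 303)),(k11,(nat_lit 320)),(k4,(nat_lit 345)),(k7,
    (nat_lit 350))]]
    [] k0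
    [[k1,k1,k0,k0,k0,k1],[k1,k1,k1,k0,k0,k0],[k1,k0,k1,k1,k0,k0],[k1,k0,k1,k0,k1,k0],[k1,k0,k1,k0,k0,k1],[k1,k0,k0,k2,
    k0,k0],[k1,k0,k0,k1,k1,k0],[k1,k0,k0,k1,k0,k1],[k1,k0,k0,k0,k2,k0],[k1,k0,k0,k0,k1,k1],[k1,k0,k0,k0,k0,k2],[k0,k2,
    k0,k0,k0,k1],[k0,k1,k0,k0,k2,k0],[k0,k1,k0,k0,k1,k1],[k0,k1,k0,k0,k0,k2],[k0,k0,k1,k2,k0,k0],[k0,k0,k0,k3,k0,k0],
    [k0,k0,k0,k0,k3,k0],[k0,k0,k0,k0,k2,k1],[k0,k0,k0,k0,k1,k2]]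
    [.ref k6 k0 [(z1,[y6,z1,z0,y2,y6,z6]),(z1,[z9,z0,z1,z3,z9,y9]),(z1,[z3,z0,z0,z2,z3,y3]),(z1,[y3,z0,z0,y1,z0,z3]),
    (z1,[y3,z0,z0,y1,y3,z3])],.ref k6 k0 [(z1,[y3,z2,z1,z1]),(z2,[z9,y3,y1,y3]),(z2,[z3,y1,y1,z1]),(z2,[y3,z1,z1,z1,
    z6]),(z2,[y3,z1,z1,z1])],.ref k6 k0 [(z1,[z3,z0,z0,y1,y3]),(z2,[y9,z3,z2,z3,z9]),(z2,[y3,z1,z0,z3,z3]),(z2,[z3,y1,
    z0,y1,z3]),(z2,[z3,y1,z0,y1,y3])],.ref k6 k0 [(z1,[z3,z0,z0,y1]),(z2,[y9,z3,z2,z3]),(z2,[y3,z1,z0,z3]),(z2,[z3,y1,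
    z0,y1,z6]),(z2,[z3,y1,z0,y1])],.ref k6 k0 [(z1,[z6,z1,z2,z0,z6,y6]),(z1,[y9,z0,y2,z0,y9,z9]),(z1,[y3,z0,y1,z1,y3,
    z3]),(z1,[z3,z0,z1,z0,z6,y3]),(z1,[z3,z0,z1,z0,z3,y3])],.ref k6 k0 [(z2,[z3,z1,z0,z0,y6]),(z4,[y9,z3,z4,z0,z18]),
    (z4,[y3,z1,z0,z4,z6]),(z4,[z3,y1,z0,z0,z6]),(z4,[z3,y1,z0,z0,y6])],.ref k6 k0 [(z2,[z3,z1,z0,z0,y3]),(z4,[y9,z3,
    z4,z0,z9]),(z4,[y3,z1,z0,z4,z3]),(z4,[z3,y1,z0,z0,z9]),(z4,[z3,y1,z0,z0,y3])],.ref k6 k0 [(z3,[z6,z3,z2,z2,z0,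
    y6]),(z1,[y3,z0,z0,y1,z0,z3]),(z3,[y3,z0,y1,z2,z0,z3]),(z3,[z3,z0,z1,z1,z9,y3]),(z3,[z3,z0,z1,z1,z0,y3])],
    .ref k6 k0 [(z2,[z3,z1]),(z4,[y9,z3,z4]),(z4,[y3,z1,z0,z4]),(z4,[z3,y1,z0,z0,z12]),(z4,[z3,y1])],.ref k6 k0 [(z3,
    [z6,z3,z2,z2,z6,y6]),(z1,[y3,z0,z0,y1,y3,z3]),(z3,[y3,z0,y1,z2,y3,z3]),(z3,[z3,z0,z1,z1,z12,y3]),(z3,[z3,z0,z1,z1,
    z3,y3])],.ref k6 k0 [(z1,[z3,z2,z2,z2,z6,y6]),(z2,[y9,y3,y4,y6,y18,z18]),(z2,[y3,y1,y2,z0,y6,z6]),(z2,[z3,z1,z2,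
    z2,z12,y6]),(z2,[z3,z1,z2,z2,z6,y6])],.ref k6 k0 [(z3,[y3,z2,z1,y1,y3,z3]),(z2,[z3,z1,z1,z1,z3,y3]),(z6,[z3,z1,y1,
    z7,z3,y3]),(z6,[y3,y1,z1,y1,z15,z3]),(z6,[y3,y1,z1,y1,y3,z3])],.ref k6 k0 [(z1,[y6,z1,z2]),(z1,[z9,z0,y2]),(z1,
    [z3,z0,y1,z1]),(z1,[y3,z0,z1,z0,z3]),(z1,[y3,z0,z1])],.ref k6 k0 [(z1,[y3,z0,z0,y1,y3,z3]),(z2,[z9,z3,z2,z3,z9,
    y9]),(z2,[z3,z1,z0,z3,z3,y3]),(z2,[y3,y1,z0,y1,z3,z3]),(z2,[y3,y1,z0,y1,y3,z3])],.ref k6 k0 [(z3,[y6,y1,y2,y4,y12,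
    z12]),(z1,[z3,z2,z2,z2,z6,y6]),(z3,[z3,z2,z1,z5,z6,y6]),(z3,[y3,y2,y1,y2,z3,z6]),(z3,[y3,y2,y1,y2,y6,z6])],
    .ref k6 k0 [(z1,[z6,z1,z0,y2,y12]),(z1,[y9,z0,z1,z3,z18]),(z1,[y3,z0,z0,z2,z6]),(z1,[z3,z0,z0,y1,y3]),(z1,[z3,z0,
    z0,y1,y6])],.ref k6 k0 [(z1,[z2,z1,z0,z0,y6]),(z1,[y3,z0,z1,z0,z9]),(z1,[y1,z0,z0,z1,z3]),(z1,[z1]),(z1,[z1,z0,z0,
    z0,y3])],.ref k6 k0 [(z1,[z2,z1]),(z1,[y3,z0,z1]),(z1,[y1,z0,z0,z1]),(z1,[z1,z0,z0,z0,z3]),(z1,[z1])],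
    .ref k6 k0 [(z1,[z3,z2,z1,z1,z3,y3]),(z2,[y9,y3,y1,y3,y9,z9]),(z2,[y3,y1,y1,z1,y3,z3]),(z2,[z3,z1,z1,z1,z9,y3]),
    (z2,[z3,z1,z1,z1,z3,y3])],.ref k6 k0 [(z1,[z6,z5,z4,z4,z12,y12]),(z1,[y9,y6,y5,y6,y18,z18]),(z1,[y3,y2,y2,y1,y6,
    z6]),(z1,[z3,z2,z2,z2,z9,y6]),(z1,[z3,z2,z2,z2,z6,y6])]],
    .lp [k160,k146,k174,k154,k160,k164] [k7,k7,k14,k14,k0,k0,k10,k10,k7,k7,k5,k5] k0 [[k0,k0,k0,k0,k0,k0,k20,k32,k0,k0,k0,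
    k38],[k0,k0,k0,k4],[k4],[k0,k0,k0,k0,k0,k14],[k0,k0,k14,k0,k0,k0,k0,k0,k0,k0,k18],[k0,k0,k0,k0,k0,k0,k0,k2],[k0,
    k32,k0,k0,k2,k0,k0,k0,k0,k10],[k0,k20,k0,k0,k0,k0,k0,k0,k0,k2],[k0,k0,k0,k0,k0,k0,k2,k10],[k0,k0,k0,k0,k0,k0,k0,
    k0,k0,k0,k4,k22],[k0,k38,k0,k0,k0,k0,k0,k0,k22],[k0,k0,k0,k0,k0,k18,k0,k0,k4]] (nat_lit 480) k5
    [[(k4,k149),(k7,k157),(k11,k158),(k0,k160),(k8,k182),(k3,k191)],[(k10,k124),(k6,k125),(k9,k140),(k2,k153),(k1,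
    k160),(k5,k171)],[(k2,k142),(k10,k155),(k5,k160),(k6,k170),(k9,k185),(k1,k191)],[(k3,k142),(k0,k153),(k8,k153),
    (k11,k155),(k4,k160),(k7,k164)],[(k3,k160),(k4,k160),(k7,k164),(k8,k167),(k11,k169),(k0,k171)],[(k1,k149),(k2,
    k160),(k5,k160),(k6,k164),(k9,k169),(k10,k169)],[(k6,k152),(k1,k157),(k9,k157),(k2,k164),(k5,k164),(k10,k177)],
    [(k0,k125),(k8,k147),(k7,k152),(k11,k161),(k4,k164),(k3,k170)],[(k0,k140),(k7,k157),(k8,k158),(k4,k169),(k11,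
    k172),(k3,k185)],[(k6,k147),(k2,k153),(k9,k158),(k10,k166),(k5,k167),(k1,k182)],[(k10,k142),(k2,k155),(k1,k158),
    (k6,k161),(k5,k169),(k9,k172)],[(k0,k124),(k11,k142),(k3,k155),(k8,k166),(k4,k169),(k7,k177)]]
    [] k0
    [[k2,k0,k0,k1,k0,k0],[k2,k0,k0,k0,k0,k1],[k1,k1,k0,k0,k0,k1],[k1,k1,k1,k0,k0,k0],[k1,k0,k1,k1,k0,k0],[k1,k0,k1,k0,
    k1,k0],[k1,k0,k1,k0,k0,k1],[k1,k0,k0,k2,k0,k0],[k1,k0,k0,k1,k1,k0],[k1,k0,k0,k1,k0,k1],[k1,k0,k0,k0,k1,k1],[k1,k0,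
    k0,k0,k0,k2],[k0,k3,k0,k0,k0,k0],[k0,k2,k1,k0,k0,k0],[k0,k2,k0,k1,k0,k0],[k0,k2,k0,k0,k0,k1],[k0,k1,k0,k0,k0,k2],
    [k0,k0,k0,k3,k0,k0],[k0,k0,k0,k2,k1,k0],[k0,k0,k0,k1,k2,k0],[k0,k0,k0,k0,k3,k0],[k0,k0,k0,k0,k0,k3]]
    [.ref k15 k5 [(z1,[z1,y2,z0,y4]),(z1,[z1,y1,z1,y3,y1]),(z1,[y1,z1,y1,z4,z1]),(z1,[z0,z1,z0,z2])],
    .ref k24 k10 [(z1,[z1,y2,z1,y7]),(z1,[z0,z1,z0,z2]),(z1,[z1,y2,z0,y4]),(z1,[y1,z2,z0,z5])],.ref k25 k0 [(z1,[y2,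
    z3,z2]),(z1,[z3,y3,y2]),(z1,[z1,y1,y1,z1]),(z1,[y1,z0,z0,y1,z1])],.ref k16 k1 [(z1,[y1,z1,z0,z2]),(z1,[y2,z1,z0,
    z1,z1]),(z1,[y2,z2,z1,z2]),(z1,[z3,y3,y1,y3])],.ref k16 k1 [(z1,[z1,z0,z0,z1,y1]),(z1,[z2,y1,z0,y1,y1]),(z1,[z2,
    z0,z1,z0,y2]),(z1,[y3,z0,y1,z0,z3])],.ref k16 k1 [(z1,[z1,y1,y1]),(z1,[z2,y3,y2,y3,z1]),(z1,[z2,y2,y1,y2]),(z1,
    [y3,z3,z2,z3])],.ref k9 k10 [(z1,[z1,y1,z1,y5]),(z1,[z0,z1,z0,z2]),(z1,[z1,y1,z0,y2]),(z1,[y1,z1,z0,z3])],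
    .ref k16 k1 [(z2,[z1,z1,z0,z4,y2]),(z1,[z1,z0,z0,z1,y1]),(z1,[z1,z1,z1,z2,y2]),(z2,[y3,y3,y2,y6,z6])],
    .ref k16 k1 [(z2,[z1,z0,y1,z3,y1]),(z1,[z1,y1,y1]),(z1,[z1,z0,z0,z1,y1]),(z2,[y3,z0,z1,y3,z3])],.ref k26 k2 [(z1,
    [y1,z0,z0,y1,z1]),(z1,[y1,z0,y1,z2,z1]),(z1,[z1,y3,y2,y2,z2]),(z1,[z1,z0,z1,z1,y1])],.ref k26 k2 [(z1,[y1,z1,z1]),
    (z1,[y1,z1,z0,z3]),(z1,[z1,y4,y3,y3,z3]),(z1,[z1,y1])],.ref k9 k10 [(z2,[z1,y1,z2,y8]),(z1,[z0,z1,z0,z2]),(z2,[z1,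
    y1,z0,y2]),(z2,[y1,z1,z0,z4])],.ref k27 k5 [(z1,[y1,y3,z0,y9,z3]),(z1,[y1,z0,z3,y6]),(z1,[z1,z0,y3,z9]),(z1,[z0,
    z1,z0,z2])],.ref k28 k3 [(z1,[y2,z1,z0,z2]),(z1,[y3,z0,y1,z3]),(z1,[z2,z0,z1,y2]),(z1,[z2,y1,z0,y3,z1])],
    .ref k15 k5 [(z1,[y1,y2,z0,y6,z2]),(z1,[y1,y1,z1,y5,z1]),(z1,[z1,z1,y1,z6,y1]),(z1,[z0,z1,z0,z2])],
    .ref k16 k1 [(z3,[y1,z0,y1,z3]),(z3,[y2,y3,y2,y3,z3]),(z3,[y2,z0,z1]),(z1,[z1])],.ref k29 k0 [(z1,[y2,z3,z2]),(z1,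
    [z1]),(z1,[z1,z0,y1,z3]),(z1,[y1,y3,y2,y3,z3])],.ref k29 k0 [(z1,[z2,z9,z6,z6,y6]),(z1,[y1,y3,y2,y3,z3]),(z1,[y1,
    y3,y3,z0,z3]),(z1,[z1])],.ref k29 k0 [(z1,[z2,z7,z4,z4,y4]),(z1,[y1,y2,y1,y2,z2]),(z1,[y1,y2,y2,z1,z2]),(z1,[z1,
    y1,y1,y1,z1])],.ref k29 k0 [(z1,[z2,z5,z2,z2,y2]),(z1,[y1,y1,z0,y1,z1]),(z1,[y1,y1,y1,z2,z1]),(z1,[z1,y2,y2,y2,
    z2])],.ref k29 k0 [(z1,[z2,z3]),(z1,[y1,z0,z1]),(z1,[y1,z0,z0,z3]),(z1,[z1,y3,y3,y3,z3])],.ref k30 k0 [(z1,[z2,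
    z3]),(z1,[y2,z0,z3]),(z1,[y1,z0,z0,z3]),(z1,[z0,y1,y1,y1,z1])]],
    .leafM k1 [k0,k1,k2,k3,k4,k5] [(z1,[y1,z0,y1,z1]),(z1,[z1,z0,z1])] [],
    .tor k2 false k1 [(z1,[z0,y1,y1,z1]),(z1,[z0,z0,y1,z1]),(z1,[z0,z0,z1]),(z1,[z0,z1,z1])],
    .lp [(nat_lit 306),(nat_lit 324),(nat_lit 310),(nat_lit 326),(nat_lit 332),(nat_lit 320)] [k13,k13,k4,k4,k11,k11,k3,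
    k3,k0,k0,k6,k6] k0 [[k0,k0,k0,k0,k0,k0,k0,k0,k0,k0,k34,k20],[k0,k0,k0,k14,k0,k0,k0,k18],[k14,k0,k0,k0,k0,k28],[k0,
    k0,k0,k0,k0,k18,k0,k0,k0,k6],[k0,k0,k18,k28,k0,k0,k2],[k0,k0,k0,k0,k0,k0,k4],[k18,k0,k0,k0,k0,k0,k0,k0,k0,k22],
    [k0,k0,k0,k0,k4,k2],[k0,k0,k6,k0,k0,k0,k0,k22],[],[k0,k20],[k0,k34]] (nat_lit 960) k5
    [[(k0,(nat_lit 272)),(k4,(nat_lit 308)),(k11,(nat_lit 313)),(k7,(nat_lit 316)),(k8,(nat_lit 319)),(k3,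
    (nat_lit 335))],[(k1,(nat_lit 272)),(k10,(nat_lit 293)),(k2,(nat_lit 315)),(k6,(nat_lit 316)),(k5,(nat_lit 322)),
    (k9,(nat_lit 337))],[(k6,(nat_lit 307)),(k2,(nat_lit 310)),(k5,(nat_lit 317)),(k9,(nat_lit 328)),(k1,
    (nat_lit 335)),(k10,(nat_lit 356))],[(k4,(nat_lit 289)),(k3,(nat_lit 310)),(k0,(nat_lit 315)),(k8,(nat_lit 328)),
    (k11,(nat_lit 328)),(k7,(nat_lit 343))],[(k4,(nat_lit 292)),(k8,(nat_lit 315)),(k11,(nat_lit 315)),(k3,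
    (nat_lit 317)),(k0,(nat_lit 322)),(k7,(nat_lit 346))],[(k2,(nat_lit 289)),(k5,(nat_lit 292)),(k1,(nat_lit 308)),
    (k10,(nat_lit 315)),(k9,(nat_lit 319)),(k6,(nat_lit 322))],[(k1,(nat_lit 316)),(k10,(nat_lit 323)),(k9,
    (nat_lit 325)),(k6,(nat_lit 328)),(k2,(nat_lit 343)),(k5,(nat_lit 346))],[(k3,(nat_lit 307)),(k8,(nat_lit 307)),
    (k0,(nat_lit 316)),(k4,(nat_lit 322)),(k11,(nat_lit 323)),(k7,(nat_lit 328))],[(k4,(nat_lit 319)),(k7,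
    (nat_lit 325)),(k3,(nat_lit 328)),(k8,(nat_lit 332)),(k0,(nat_lit 337)),(k11,(nat_lit 348))],[(k6,(nat_lit 307)),
    (k5,(nat_lit 315)),(k1,(nat_lit 319)),(k10,(nat_lit 326)),(k2,(nat_lit 328)),(k9,(nat_lit 332))],[(k1,
    (nat_lit 313)),(k5,(nat_lit 315)),(k10,(nat_lit 320)),(k6,(nat_lit 323)),(k2,(nat_lit 328)),(k9,(nat_lit 348))],
    [(k0,(nat_lit 293)),(k4,(nat_lit 315)),(k11,(nat_lit 320)),(k7,(nat_lit 323)),(k8,(nat_lit 326)),(k3,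
    (nat_lit 356))]]
    [] k0
    [[k3,k0,k0,k0,k0,k0],[k2,k1,k0,k0,k0,k0],[k2,k0,k1,k0,k0,k0],[k2,k0,k0,k1,k0,k0],[k2,k0,k0,k0,k1,k0],[k2,k0,k0,k0,
    k0,k1],[k1,k1,k1,k0,k0,k0],[k1,k1,k0,k0,k0,k1],[k1,k0,k2,k0,k0,k0],[k1,k0,k1,k0,k0,k1],[k1,k1,k0,k1,k0,k0],[k1,k0,
    k0,k1,k0,k1],[k1,k0,k0,k0,k0,k2],[k0,k3,k0,k0,k0,k0],[k0,k2,k1,k0,k0,k0],[k0,k1,k2,k0,k0,k0],[k0,k1,k1,k1,k0,k0],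
    [k0,k1,k0,k1,k0,k1],[k0,k1,k1,k0,k1,k0],[k0,k0,k3,k0,k0,k0],[k0,k0,k2,k0,k1,k0],[k0,k0,k2,k0,k0,k1],[k0,k0,k1,k0,
    k0,k2]]
    [.ref k6 k0 [(z1,[z1]),(z7,[z4,y12,z21]),(z7,[y5,z15,z0,z21]),(z7,[y2,z6,z0,z0,z21]),(z7,[y5,y6,y21,y21,y21,
    z21])],.ref k6 k0 [(z6,[z7,z4,y7]),(z3,[z2,y4,z7]),(z6,[y5,z10,z5,z18]),(z3,[y1,z2,z1,z0,z9]),(z6,[y5,y8,y13,y18,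
    y18,z18])],.ref k6 k0 [(z3,[z7,y5,z0,y7]),(z3,[z4,y8,z9,y4]),(z3,[y5,z10,z0,z14]),(z3,[y2,z4,z0,z2,z9]),(z3,[y5,
    z1,y9,y4,y9,z9])],.ref k6 k0 [(z4,[z7,y2,z0,z0,y7]),(z1,[z1,y2,z3,z0,y1]),(z4,[y5,z10,z0,z12,z5]),(z2,[y1,z2,z0,
    z0,z7]),(z4,[y5,y2,y12,y12,y7,z12])],.ref k6 k0 [(z3,[z7,z2,z7,z7,z7,y7]),(z3,[z4,y4,z13,z4,z4,y4]),(z3,[y5,z5,y5,
    z4,y5,z5]),(z3,[y2,z2,y2,y2,z7,z2]),(z3,[y5,y4,y14,y14,y14,z14])],.ref k6 k0 [(z5,[z7,z1]),(z5,[z4,y8,z15]),(z1,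
    [y1,z2,z0,z3]),(z5,[y2,z4,z0,z0,z15]),(z1,[y1,y1,y3,y3,y3,z3])],.ref k6 k0 [(z2,[z7,y1,y7,y7]),(z1,[z2,y2,z1,y2]),
    (z2,[y5,z5,z5,z11]),(z1,[y1,z1,z1,z1,z3]),(z2,[y5,y1,y1,y1,y6,z6])],.ref k6 k0 [(z4,[z7,z5,y7]),(z1,[z1,y1,z2]),
    (z4,[y5,z5,z5,z12]),(z2,[y1,z1,z1,z0,z6]),(z4,[y5,y7,y7,y12,y12,z12])],.ref k6 k0 [(z1,[y7,z10,z0,z14]),(z1,[y4,
    z4,z3,z8]),(z1,[z5,y5,z0,y7]),(z1,[z2,y2,z0,y4,z3]),(z1,[z5,y8,y3,y13,y3,z3])],.ref k6 k0 [(z1,[z7,y4,z0,y7]),(z1,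
    [z4,y4,z3,y4]),(z1,[y5,z5,z0,z8]),(z1,[y2,z2,z0,z2,z3]),(z1,[y5,z2,y3,z2,y3,z3])],.ref k6 k0 [(z3,[z7,z2,y7,z0,
    y7]),(z3,[z4,y4,z5,z0,y4]),(z3,[y5,z5,z5,z9,z5]),(z3,[y2,z2,z2,z0,z11]),(z3,[y5,y4,y4,y9,y4,z9])],.ref k6 k0 [(z2,
    [z7,y1,z0,z0,y7]),(z1,[z2,y2,z3,z0,y2]),(z2,[y5,z5,z0,z6,z5]),(z1,[y1,z1,z0,z0,z4]),(z2,[y5,y1,y6,y6,y1,z6])],
    .ref k6 k0 [(z3,[z7,z2]),(z3,[z4,y4,z9]),(z3,[y5,z5,z0,z9]),(z3,[y2,z2,z0,z0,z9]),(z3,[y5,y4,y9,y9,y9,z9])],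
    .ref k6 k0 [(z4,[z7,z12,y21]),(z1,[z1]),(z4,[y5,z0,z15,z12]),(z2,[y1,z0,z3,z0,z6]),(z4,[y5,y12,z3,y12,y12,z12])],
    .ref k6 k0 [(z1,[z7,z3,y14,y7]),(z1,[z4,z0,y5,y4]),(z1,[y5,z0,z10,z8]),(z1,[y2,z0,z4,z2,z3]),(z1,[y5,y3,z7,z2,y3,
    z3])],.ref k6 k0 [(z2,[y7,z6,z7,z14]),(z1,[y2,z0,z5,z4]),(z2,[z5,z0,y5,y4]),(z1,[z1,z0,y1,y2,z3]),(z2,[z5,y6,y11,
    y16,y6,z6])],.ref k6 k0 [(z1,[y7,z3,z7,z7,z7]),(z1,[y4,z0,z7,z4,z4]),(z1,[z5,z0,y5,y2,y5]),(z1,[z2,z0,y2,y2,z1]),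
    (z1,[z5,y3,y8,y8,y8,z3])],.ref k6 k0 [(z1,[z7,z3,y7,z0,y7]),(z1,[z4,z0,y1,z0,y4]),(z1,[y5,z0,z5,z3,z5]),(z1,[y2,
    z0,z2,z0,z5]),(z1,[y5,y3,z2,y3,z2,z3])],.ref k6 k0 [(z2,[y7,y1,z0,z0,y7,z7]),(z1,[y2,y2,z3,z0,y2,z2]),(z2,[z5,z5,
    z0,z6,z5,y5]),(z1,[z1,z1,z0,z0,z4,y1]),(z2,[z5,y1,y6,y6,y1,z1])],.ref k6 k0 [(z5,[y7,z15,z0,z21]),(z5,[y4,z0,z15,
    z12]),(z1,[z1]),(z5,[z2,z0,z0,y6,z15]),(z1,[z1,y3,y3,y6,y3,z3])],.ref k6 k0 [(z5,[y7,z8,y7,z7,y7,z7]),(z5,[y4,y4,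
    z11,z4,y4,z4]),(z1,[z1,z1,z1,z2,z1,y1]),(z5,[z2,z2,z2,y2,z17,y2]),(z1,[z1,y2,y2,y4,y2,z2])],.ref k6 k0 [(z3,[y7,
    z9,z0,z14]),(z3,[y4,z0,z9,z8]),(z3,[z5,z0,z0,y1]),(z3,[z2,z0,z0,y4,z9]),(z3,[z5,y9,y9,y19,y9,z9])],
    .ref k6 k0 [(z1,[y7,z3,z0,z7]),(z1,[y4,z0,z3,z4]),(z1,[z5,z0,z0,y2]),(z1,[z2,z0,z0,y2,z3]),(z1,[z5,y3,y3,y8,y3,
    z3])]],
    .leafM k6 [k0,k1,k2,k3,k4,k5] [(z1,[y1,y1,y1,z0,z1])] []]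

noncomputable def cT6_2_n0_3 : List TN :=
  [.leafM k1 [k0,k1,k2,k3,k4,k5] [(z1,[z0,z1,z0,z1]),(z1,[z0,y1,z0,y1,z1])] [],
    .tor k2 false k0 [(z1,[y1,z0,y1,y1,z1]),(z1,[y1,z0,z0,y1,z1]),(z1,[z1,z0,z0,z1]),(z1,[z1,z0,z1,z1])],
    .lp [k150,k156,k172,k168,k146,k166] [k11,k11,k8,k8,k0,k0,k2,k2,k13,k13,k3,k3] k0 [[k0,k0,k14,k0,k0,k0,k6,k0,k0,k0,k0,
    k4],[k0,k0,k0,k0,k0,k0,k2,k0,k0,k0,k0,k4],[k0,k0,k0,k0,k0,k0,k0,k0,k8,k2],[k0,k14],[k0,k0,k0,k0,k0,k0,k0,k14],[k0,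
    k0,k0,k0,k0,k0,k0,k8],[k0,k0,k0,k0,k8,k14],[k2,k6,k0,k0,k0,k0,k0,k0,k12],[k0,k0,k0,k2,k0,k0,k0,k0,k0,k0,k28,k14],
    [k0,k0,k0,k8,k0,k0,k12],[k4,k4,k0,k0,k0,k0,k0,k0,k0,k14],[k0,k0,k0,k0,k0,k0,k0,k0,k0,k28]] (nat_lit 480) k5
    [[(k8,k120),(k0,k154),(k3,k157),(k7,k159),(k4,k161),(k11,k172)],[(k9,k142),(k5,k147),(k2,k153),(k1,k154),(k10,
    k154),(k6,k161)],[(k9,k149),(k1,k157),(k10,k157),(k5,k164),(k6,k168),(k2,k170)],[(k8,k149),(k0,k153),(k11,k153),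
    (k7,k162),(k4,k164),(k3,k170)],[(k0,k147),(k3,k164),(k8,k167),(k7,k170),(k11,k171),(k4,k172)],[(k6,k156),(k1,
    k161),(k2,k164),(k9,k167),(k10,k169),(k5,k172)],[(k1,k159),(k6,k160),(k2,k162),(k10,k167),(k5,k170),(k9,k171)],
    [(k4,k156),(k7,k160),(k0,k161),(k11,k167),(k3,k168),(k8,k169)],[(k0,k142),(k11,k144),(k8,k146),(k3,k149),(k4,
    k167),(k7,k171)],[(k1,k120),(k10,k142),(k9,k146),(k2,k149),(k5,k167),(k6,k169)],[(k9,k144),(k2,k153),(k6,k167),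
    (k5,k171),(k1,k172),(k10,k194)],[(k8,k142),(k0,k154),(k3,k157),(k7,k167),(k4,k169),(k11,k194)]]
    [] k0
    [[k3,k0,k0,k0,k0,k0],[k2,k1,k0,k0,k0,k0],[k2,k0,k1,k0,k0,k0],[k2,k0,k0,k1,k0,k0],[k2,k0,k0,k0,k1,k0],[k1,k1,k1,k0,
    k0,k0],[k1,k1,k0,k0,k1,k0],[k1,k1,k0,k0,k0,k1],[k1,k0,k1,k0,k1,k0],[k1,k0,k1,k1,k0,k0],[k1,k0,k0,k1,k1,k0],[k1,k0,
    k0,k0,k2,k0],[k1,k0,k0,k0,k1,k1],[k0,k2,k0,k0,k1,k0],[k0,k1,k0,k0,k2,k0],[k0,k1,k0,k0,k1,k1],[k0,k0,k0,k0,k3,k0],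
    [k0,k0,k0,k0,k2,k1]]
    [.ref k6 k0 [(z1,[z1]),(z1,[z0,z0,z1]),(z2,[y1,z1,z0,z2]),(z1,[y1,z1,z0,z0,z3]),(z2,[z1,y1])],.ref k6 k0 [(z2,[z3,
    z0,y1]),(z1,[z0,z0,z1]),(z4,[y3,z2,z1,z4]),(z2,[y3,z2,z1,z0,z6]),(z4,[z3,y2,y1])],.ref k6 k0 [(z3,[z6,y1,z0,y2]),
    (z1,[z0,z0,z1]),(z3,[y3,z2,z0,z4]),(z3,[y6,z4,z0,z2,z9]),(z3,[z3,y2,z0,y1])],.ref k6 k0 [(z1,[z3,y1,z0,z0,y3]),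
    (z1,[z0,z0,z1]),(z2,[y3,z2,z0,z2,z3]),(z1,[y3,z2,z0,z0,z6]),(z2,[z3,y2,z0,z0,y3])],.ref k6 k0 [(z5,[z6,z1]),(z1,
    [z0,z0,z1]),(z5,[y3,z2,z0,z5]),(z5,[y6,z4,z0,z0,z15]),(z5,[z3,y2])],.ref k6 k0 [(z1,[z6,y1,y2,y2]),(z1,[z0,z0,
    z1]),(z1,[y3,z1,z1,z2]),(z1,[y6,z2,z2,z2,z3]),(z1,[z3,y1,y1,y1])],.ref k6 k0 [(z3,[z6,z1,y2]),(z1,[z0,z0,z1]),(z3,
    [y3,z1,z1,z3]),(z3,[y6,z2,z2,z0,z9]),(z3,[z3,y1,y1])],.ref k6 k0 [(z1,[z3,z1,z0,z1,z3,y3]),(z1,[z0,z0,z1]),(z2,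
    [y3,z0,z0,z1,y3,z3]),(z1,[y3,z0,z0,y1,z0,z3]),(z2,[z3,z0,z0,z1,z3,y3])],.ref k6 k0 [(z1,[z3,z0,z0,y1]),(z1,[z0,z0,
    z1]),(z2,[y3,z1,z0,z3]),(z1,[y3,z1,z0,z1,z3]),(z2,[z3,y1,z0,y1])],.ref k6 k0 [(z1,[y6,z3,z0,z2,z6]),(z1,[z0,z0,
    z1]),(z1,[z3,y1,z0,z0,y3]),(z1,[z6,y2,z0,y2,y3]),(z1,[y3,z1,z0,z1,z3])],.ref k6 k0 [(z1,[z6,y1,z0,z0,y6]),(z1,[z0,
    z0,z1]),(z1,[y3,z1,z0,z1,z3]),(z1,[y6,z2,z0,z0,z9]),(z1,[z3,y1,z0,z0,y3])],.ref k6 k0 [(z2,[z3,z1]),(z1,[z0,z0,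
    z1]),(z4,[y3,z1,z0,z4]),(z2,[y3,z1,z0,z0,z6]),(z4,[z3,y1])],.ref k6 k0 [(z3,[z6,z3,z2,z2,z6,y6]),(z1,[z0,z0,z1]),
    (z3,[y3,z0,y1,z2,y3,z3]),(z3,[y6,z0,y2,y2,z3,z6]),(z3,[z3,z0,z1,z1,z3,y3])],.ref k6 k0 [(z1,[z6,z1,y4]),(z1,[z0,
    z0,z1]),(z1,[y3,z0,z2,z1]),(z1,[y6,z0,z4,z0,z3]),(z1,[z3,z0,y2])],.ref k6 k0 [(z1,[z3,z1,y1]),(z1,[z0,z0,z1]),(z2,
    [y3,z0,z1,z2]),(z1,[y3,z0,z1,z0,z3]),(z2,[z3,z0,y1])],.ref k6 k0 [(z1,[z6,z3,z0,z2,z6,y6]),(z1,[z0,z0,z1]),(z1,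
    [y3,y1,z0,z0,y3,z3]),(z1,[y6,y2,z0,y2,y3,z6]),(z1,[z3,z1,z0,z1,z3,y3])],.ref k6 k0 [(z1,[z2,z1]),(z1,[z0,z0,z1]),
    (z1,[y1,z0,z0,z1]),(z1,[y2,z0,z0,z0,z3]),(z1,[z1])],.ref k6 k0 [(z1,[z3,z2,z1,z1,z3,y3]),(z1,[z0,z0,z1]),(z2,[y3,
    y1,y1,z1,y3,z3]),(z1,[y3,y1,y1,y1,z0,z3]),(z2,[z3,z1,z1,z1,z3,y3])]],
    .lp [(nat_lit 298),(nat_lit 302),(nat_lit 326),(nat_lit 328),(nat_lit 330),(nat_lit 334)] [k18,k18,k16,k16,k4,k4,k3,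
    k3,k2,k2,k0,k0] k0 [[k0,k0,k22,k28],[k0,k0,k0,k0,k0,k0,k6,k0,k0,k0,k30],[k0,k28,k0,k0,k0,k2],[k0,k22,k0,k0,k0,k6],
    [k0,k0,k6,k2,k0,k0,k0,k0,k0,k0,k0,k30],[k0,k0,k0,k0,k0,k0,k0,k24,k0,k0,k0,k6],[k0,k0,k0,k0,k24],[k6],[],[k0,k0,k0,
    k0,k0,k0,k0,k0,k0,k0,k0,k4],[k0,k0,k0,k0,k6,k30,k0,k0,k4],[k30]] (nat_lit 960) k5
    [[(k3,(nat_lit 270)),(k0,(nat_lit 298)),(k11,(nat_lit 316)),(k4,(nat_lit 318)),(k8,(nat_lit 318)),(k7,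
    (nat_lit 343))],[(k2,(nat_lit 272)),(k5,(nat_lit 290)),(k1,(nat_lit 298)),(k9,(nat_lit 314)),(k6,(nat_lit 319)),
    (k10,(nat_lit 346))],[(k1,(nat_lit 270)),(k9,(nat_lit 310)),(k6,(nat_lit 315)),(k10,(nat_lit 318)),(k2,
    (nat_lit 324)),(k5,(nat_lit 342))],[(k0,(nat_lit 272)),(k4,(nat_lit 312)),(k8,(nat_lit 316)),(k11,(nat_lit 318)),
    (k7,(nat_lit 321)),(k3,(nat_lit 324))],[(k0,(nat_lit 290)),(k4,(nat_lit 320)),(k8,(nat_lit 328)),(k7,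
    (nat_lit 329)),(k11,(nat_lit 330)),(k3,(nat_lit 342))],[(k10,(nat_lit 300)),(k2,(nat_lit 312)),(k1,(nat_lit 318)),
    (k5,(nat_lit 320)),(k6,(nat_lit 327)),(k9,(nat_lit 352))],[(k6,(nat_lit 304)),(k2,(nat_lit 321)),(k10,
    (nat_lit 325)),(k5,(nat_lit 329)),(k9,(nat_lit 329)),(k1,(nat_lit 343))],[(k7,(nat_lit 304)),(k3,(nat_lit 315)),
    (k0,(nat_lit 319)),(k4,(nat_lit 327)),(k8,(nat_lit 329)),(k11,(nat_lit 331))],[(k3,(nat_lit 310)),(k0,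
    (nat_lit 314)),(k7,(nat_lit 329)),(k8,(nat_lit 330)),(k11,(nat_lit 332)),(k4,(nat_lit 352))],[(k2,(nat_lit 316)),
    (k1,(nat_lit 318)),(k5,(nat_lit 328)),(k6,(nat_lit 329)),(k9,(nat_lit 330)),(k10,(nat_lit 332))],[(k1,
    (nat_lit 316)),(k2,(nat_lit 318)),(k5,(nat_lit 330)),(k10,(nat_lit 330)),(k6,(nat_lit 331)),(k9,(nat_lit 332))],
    [(k4,(nat_lit 300)),(k3,(nat_lit 318)),(k7,(nat_lit 325)),(k11,(nat_lit 330)),(k8,(nat_lit 332)),(k0,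
    (nat_lit 346))]]
    [] k0
    [[k3,k0,k0,k0,k0,k0],[k2,k1,k0,k0,k0,k0],[k2,k0,k1,k0,k0,k0],[k2,k0,k0,k0,k1,k0],[k1,k2,k0,k0,k0,k0],[k1,k1,k1,k0,
    k0,k0],[k1,k1,k0,k1,k0,k0],[k1,k1,k0,k0,k1,k0],[k1,k1,k0,k0,k0,k1],[k1,k0,k2,k0,k0,k0],[k1,k0,k1,k0,k0,k1],[k0,k2,
    k0,k0,k1,k0],[k0,k1,k1,k1,k0,k0],[k0,k1,k0,k2,k0,k0],[k0,k1,k0,k1,k0,k1],[k0,k1,k1,k0,k1,k0],[k0,k1,k0,k0,k2,k0],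
    [k0,k0,k2,k0,k0,k1],[k0,k0,k0,k3,k0,k0]]
    [.ref k6 k0 [(z1,[z1]),(z1,[z0,z0,z1]),(z3,[y1,z1,z0,z3]),(z3,[y2,z2,z0,z0,z9]),(z3,[y1,y2,y3,y3,y9,z9])],
    .ref k6 k0 [(z2,[z3,z0,y1]),(z1,[z0,z0,z1]),(z6,[y3,z2,z1,z6]),(z3,[y3,z2,z1,z0,z9]),(z6,[y3,y4,y5,y6,y18,z18])],
    .ref k6 k0 [(z5,[z9,y1,z0,y3]),(z1,[z0,z0,z1]),(z5,[y3,z2,z0,z6]),(z5,[y6,z4,z0,z2,z15]),(z5,[y3,y3,y5,y4,y15,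
    z15])],.ref k6 k0 [(z5,[z9,z2,z3,z3,z9,y9]),(z1,[z0,z0,z1]),(z5,[y3,z1,y1,z4,y3,z3]),(z5,[y6,z2,y2,y2,z9,z6]),(z5,
    [y3,y4,y6,y6,y18,z18])],.ref k6 k0 [(z1,[z3,z0,y2]),(z1,[z0,z0,z1]),(z3,[y3,z1,z2,z3]),(z3,[y6,z2,z4,z0,z9]),(z3,
    [y3,y2,y1,y3,y9,z9])],.ref k6 k0 [(z2,[z9,y1,y3,y3]),(z1,[z0,z0,z1]),(z2,[y3,z1,z1,z3]),(z1,[y3,z1,z1,z1,z3]),(z2,
    [y3,y1,y1,y1,y6,z6])],.ref k6 k0 [(z1,[z9,y2,y3,z0,y9]),(z1,[z0,z0,z1]),(z1,[y3,z1,z1,z1,z3]),(z1,[y6,z2,z2,z0,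
    z9]),(z1,[y3,z0,z0,y1,z0,z3])],.ref k6 k0 [(z2,[z9,z2,z0,z3,z9,y9]),(z1,[z0,z0,z1]),(z2,[y3,z0,z0,z1,y3,z3]),(z1,
    [y3,z0,z0,y1,z0,z3]),(z2,[y3,y2,y2,y3,y9,z9])],.ref k6 k0 [(z4,[z9,z1,y3]),(z1,[z0,z0,z1]),(z4,[y3,z1,z1,z4]),(z2,
    [y3,z1,z1,z0,z6]),(z4,[y3,y3,y3,y4,y12,z12])],.ref k6 k0 [(z1,[z9,y2,z0,y6]),(z1,[z0,z0,z1]),(z1,[y3,z1,z0,z3]),
    (z1,[y6,z2,z0,z4,z3]),(z1,[y3,z0,y1,z1,y3,z3])],.ref k6 k0 [(z1,[z3,z0,z0,y1]),(z1,[z0,z0,z1]),(z3,[y3,z1,z0,z4]),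
    (z3,[y6,z2,z0,z2,z9]),(z3,[y3,y2,y3,y2,y9,z9])],.ref k6 k0 [(z1,[y9,y2,z3,y3,y9,z9]),(z1,[z0,z0,z1]),(z1,[z3,z1,
    y1,z2,z3,y3]),(z1,[z6,z2,y2,z2,z9,y6]),(z1,[z3,z0,y2])],.ref k6 k0 [(z1,[y3,z1,z1,z1,z3]),(z1,[z0,z0,z1]),(z3,[z3,
    z0,y1,z2,y3]),(z3,[z6,z0,y2,y2,z3]),(z3,[z3,y3,y4,y4,y12,z9])],.ref k6 k0 [(z4,[y9,z4,z3,z0,z18]),(z1,[z0,z0,z1]),
    (z4,[z3,z0,y1,z4,y6]),(z2,[z3,z0,y1]),(z4,[z3,y4,y5,y4,y18,z12])],.ref k6 k0 [(z1,[y9,z1,z3,z0,z9]),(z1,[z0,z0,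
    z1]),(z1,[z3,z0,y1,z1,y3]),(z1,[z6,z0,y2,z0,y3]),(z1,[z3,y1,y2,y1,y6,z3])],.ref k6 k0 [(z2,[y9,y1,z0,z0,y9,z9]),
    (z1,[z0,z0,z1]),(z2,[z3,z1,z0,z2,z3,y3]),(z1,[z3,z1,z0,z0,z6,y3]),(z2,[z3,y1,y2,y2,y3,z3])],.ref k6 k0 [(z2,[y9,
    y4,y3,y6,y18,z18]),(z1,[z0,z0,z1]),(z2,[z3,z2,z1,z4,z6,y6]),(z1,[z3,z2,z1,z2,z9,y6]),(z2,[z3,z0,y1])],
    .ref k6 k0 [(z1,[y9,z1,z0,z6]),(z1,[z0,z0,z1]),(z1,[z3,z0,z0,y1]),(z1,[z6,z0,z0,y4,z3]),(z1,[z3,y1,y1,y3,y3,z3])],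
    .ref k6 k0 [(z2,[y3,z2,z0,z0,z9]),(z1,[z0,z0,z1]),(z2,[z1,z0,z0,z2,y3]),(z1,[z1]),(z2,[z1,y2,y2,y2,y9,z6])]],
    .lp [k150,k164,k166,k170,k146,k162] [k10,k10,k3,k3,k2,k2,k0,k0,k12,k12,k4,k4] k0 [[k0,k0,k0,k0,k0,k0,k0,k0,k0,k0,k0,
    k2],[k0,k0,k0,k0,k0,k0,k0,k0,k0,k0,k0,k16],[k0,k0,k0,k0,k0,k0,k0,k0,k12,k6],[],[k0,k0,k0,k0,k0,k0,k0,k6,k0,k0,k2],
    [k0,k0,k0,k0,k0,k0,k0,k10],[k0,k0,k0,k0,k10,k6],[],[k0,k0,k0,k6,k0,k0,k0,k0,k0,k0,k20,k4],[k0,k0,k0,k12],[k16,k2,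
    k0,k0,k0,k0,k0,k0,k0,k4],[k0,k0,k0,k0,k0,k2,k0,k0,k0,k20]] (nat_lit 480) k5
    [[(k8,k128),(k4,k156),(k3,k159),(k7,k160),(k11,k160),(k0,k166)],[(k9,k148),(k10,k154),(k2,k157),(k5,k158),(k6,
    k160),(k1,k166)],[(k10,k147),(k9,k155),(k1,k159),(k2,k164),(k5,k165),(k6,k167)],[(k8,k149),(k11,k151),(k0,k157),
    (k3,k164),(k4,k165),(k7,k167)],[(k0,k158),(k3,k165),(k4,k166),(k7,k168),(k8,k168),(k11,k170)],[(k1,k156),(k6,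
    k162),(k10,k164),(k2,k165),(k5,k166),(k9,k166)],[(k1,k160),(k6,k160),(k9,k164),(k2,k167),(k5,k168),(k10,k168)],
    [(k8,k158),(k0,k160),(k7,k160),(k4,k162),(k11,k166),(k3,k167)],[(k8,k146),(k0,k148),(k11,k154),(k3,k155),(k7,
    k164),(k4,k166)],[(k1,k128),(k9,k146),(k2,k149),(k10,k150),(k6,k158),(k5,k168)],[(k2,k151),(k9,k154),(k1,k160),
    (k6,k166),(k5,k170),(k10,k182)],[(k3,k147),(k8,k150),(k0,k154),(k4,k164),(k7,k168),(k11,k182)]]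
    [] k0
    [[k2,k0,k0,k0,k1,k0],[k1,k1,k0,k0,k1,k0],[k1,k1,k0,k0,k0,k1],[k1,k1,k1,k0,k0,k0],[k1,k0,k1,k0,k1,k0],[k1,k0,k0,k1,
    k1,k0],[k1,k0,k0,k0,k2,k0],[k1,k0,k0,k0,k1,k1],[k0,k2,k0,k0,k1,k0],[k0,k2,k0,k0,k0,k1],[k0,k1,k0,k0,k2,k0],[k0,k1,
    k0,k0,k1,k1],[k0,k0,k0,k1,k2,k0],[k0,k0,k0,k0,k3,k0],[k0,k0,k0,k0,k2,k1]]
    [.ref k34 k5 [(z1,[z1,y3,y1,y8,z1]),(z1,[z1,y2,z0,y4]),(z1,[y1,z2,z0,z5]),(z1,[z0,z1,z0,z2])],.ref k26 k2 [(z1,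
    [z0,z0,z1]),(z1,[y1,z1,z1,z3]),(z1,[y2,y1,y1,y3,z3]),(z1,[z1,y1,y1])],.ref k35 k1 [(z2,[y1,z1,y1,z2]),(z1,[y1,z0,
    y1,y1,z1]),(z2,[z1,y1,z3]),(z1,[z0,z0,y1])],.ref k35 k1 [(z1,[y1,z1,z0,z2]),(z1,[y2,z1,z0,z1,z1]),(z1,[z1,y1,z1,
    y1]),(z1,[z0,z0,y1])],.ref k36 k5 [(z1,[z1,y2,y1,y6,z1]),(z1,[z1,y1,z0,y2]),(z1,[y1,z1,z0,z3]),(z1,[z0,z1,z0,
    z2])],.ref k37 k3 [(z1,[z2,z1,y2,z2,y2]),(z1,[z0,z0,y1]),(z1,[z1,z0,z0,z1,y1]),(z1,[y2,y1,z2,y3,z3])],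
    .ref k36 k5 [(z2,[z1,y3,y2,y10,z2]),(z2,[z1,y1,z0,y2]),(z2,[y1,z1,z0,z4]),(z1,[z0,z1,z0,z2])],.ref k26 k2 [(z1,
    [z0,z0,z1]),(z1,[y1,z1,z0,z3]),(z1,[y2,y1,y3,y3,z3]),(z1,[z1,y1])],.ref k35 k1 [(z1,[y1,z0,z1,z1]),(z1,[y2,y1,z2,
    y1,z1]),(z1,[z1]),(z1,[z0,z0,y1])],.ref k38 k0 [(z1,[z2,z3,y4]),(z1,[z1,z0,z1]),(z1,[y1,z0,z2,z3]),(z1,[y1,y1,z1,
    y1,z1])],.ref k36 k5 [(z1,[z1,y1,y2,y5,z1]),(z1,[z1,z0,y1,y1]),(z1,[y1,z0,z1,z2]),(z1,[z0,z1,z0,z2])],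
    .ref k35 k1 [(z1,[y1,z0,z0,z1]),(z1,[y2,y1,z0,y1,z1]),(z1,[z1,z0,z1]),(z1,[z0,z0,y1])],.ref k38 k0 [(z1,[y2,z1,y2,
    y2,z2]),(z1,[y1,y1,z2,y1,z1]),(z1,[z1,z1,z1,z4,y1]),(z1,[z1])],.ref k39 k5 [(z1,[z1,y3,y3,y12,z3]),(z1,[z1]),(z1,
    [y1,z0,z0,z3]),(z1,[z0,z1,z0,z2])],.ref k36 k5 [(z1,[z1,y1,y1,y5,z1]),(z1,[z1,z0,z0,y1]),(z1,[y1,z0,z0,z2]),(z1,
    [z0,z1,z0,z2])]],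
    .leafM k6 [k2,k3,k4,k5,k0,k1] [(z3,[z1,z1])] [],
    .leafM k6 [k2,k3,k4,k5,k0,k1] [(z1,[z1,z1])] [],
    .leafM k6 [k0,k1,k2,k3,k4,k5] [(z3,[y1,y1,y1,z0,z3])] [],
    .leafM k1 [k0,k1,k2,k3,k4,k5] [(z1,[z0,z1,z0,z1]),(z1,[z0,y1,z0,y1,z1])] [],
    .lp [k70,k76,k82,k72,k94,k84] [k12,k12,k9,k9,k10,k2,k11,k11,k0,k0,k5,k5] k0 [[k0,k0,k20],[k0,k0,k0,k0,k0,k0,k0,k2],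
    [k0,k0,k0,k0,k2,k2],[k0,k20],[k0,k0,k0,k2,k0,k0,k0,k0,k0,k0,k8],[k0,k0,k0,k2,k0,k0,k0,k10],[k2,k0,k0,k0,k10],[k0,
    k0,k0,k0,k0,k0,k0,k0,k12,k14],[k0,k0,k0,k0,k0,k0,k14,k0,k0,k0,k0,k6],[k0,k0,k0,k0,k0,k0,k12,k0,k0,k0,k0,k4],[k0,
    k0,k0,k0,k0,k0,k0,k0,k4,k6],[k0,k0,k0,k0,k0,k8]] (nat_lit 240) k5
    [[(k4,k64),(k0,k70),(k7,k71),(k3,k73),(k11,k83),(k8,k86)],[(k5,k60),(k1,k70),(k6,k71),(k2,k73),(k10,k77),(k9,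
    k84)],[(k6,k72),(k1,k73),(k10,k80),(k5,k83),(k9,k85),(k2,k96)],[(k7,k72),(k0,k73),(k4,k73),(k11,k80),(k8,k85),(k3,
    k96)],[(k0,k60),(k3,k83),(k7,k83),(k4,k84),(k11,k87),(k8,k92)],[(k1,k64),(k2,k73),(k6,k73),(k10,k79),(k5,k84),(k9,
    k94)],[(k6,k62),(k1,k71),(k2,k72),(k5,k83),(k9,k83),(k10,k86)],[(k7,k62),(k0,k71),(k3,k72),(k4,k73),(k11,k92),(k8,
    k95)],[(k11,k77),(k8,k80),(k7,k83),(k0,k84),(k3,k85),(k4,k94)],[(k9,k80),(k10,k83),(k2,k85),(k1,k86),(k5,k92),(k6,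
    k95)],[(k9,k77),(k2,k80),(k10,k80),(k1,k83),(k5,k87),(k6,k92)],[(k0,k77),(k4,k79),(k3,k80),(k11,k80),(k8,k83),(k7,
    k86)]]
    [] k0
    [[k3,k0,k0,k0,k0,k0],[k2,k1,k0,k0,k0,k0],[k2,k0,k1,k0,k0,k0],[k2,k0,k0,k1,k0,k0],[k2,k0,k0,k0,k0,k1],[k1,k1,k1,k0,
    k0,k0],[k1,k1,k0,k1,k0,k0],[k1,k1,k0,k0,k0,k1],[k1,k0,k2,k0,k0,k0],[k1,k0,k1,k1,k0,k0],[k1,k0,k1,k0,k0,k1],[k1,k0,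
    k0,k2,k0,k0],[k0,k1,k1,k1,k0,k0],[k0,k1,k0,k2,k0,k0],[k0,k1,k0,k1,k0,k1],[k0,k0,k1,k2,k0,k0],[k0,k0,k0,k3,k0,k0]]
    [.ref k6 k0 [(z1,[z1]),(z2,[y1,z3,z6]),(z1,[z1,y3,z0,z3]),(z4,[y5,z15,z0,z0,z12]),(z2,[y1,y3,y6,y6,y6,z6])],
    .ref k6 k0 [(z1,[z2,y1,y2]),(z1,[y1,z2,z4]),(z1,[z2,y4,y2,z3]),(z2,[y5,z10,z5,z0,z6]),(z1,[y1,y1,y2,y3,y3,z3])],
    .ref k6 k0 [(z1,[z1,z1,z0,y1]),(z2,[y1,z2,z6,z1]),(z1,[z1,y2,z0,z2]),(z4,[y5,z10,z0,z5,z12]),(z2,[y1,y4,y6,y5,y6,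
    z6])],.ref k6 k0 [(z1,[z4,y5,z0,z0,y4]),(z1,[y2,z4,z3,z0,z2]),(z1,[z4,y8,z0,z3,y4]),(z1,[y5,z10,z0,z0,z8]),(z1,
    [y2,z1,y3,y3,y1,z3])],.ref k6 k0 [(z3,[z4,z1]),(z3,[y2,z4,z9]),(z3,[z4,y8,z0,z9]),(z3,[y5,z10,z0,z0,z9]),(z3,[y2,
    y5,y9,y9,y9,z9])],.ref k6 k0 [(z1,[z2,z1,y2,y2]),(z1,[y1,z1,z4,z1]),(z1,[z2,y2,y2,z1]),(z2,[y5,z5,z5,z5,z6]),(z1,
    [y1,y2,y2,y2,y3,z3])],.ref k6 k0 [(z1,[y4,z7,z4,z0,z4]),(z1,[z2,y2,z1,z0,y2]),(z1,[y4,z4,z4,z3,z4]),(z1,[z5,y5,y5,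
    z0,y2]),(z1,[z2,y5,y5,y3,y5,z3])],.ref k6 k0 [(z1,[z4,y1,y4]),(z1,[y2,z2,z5]),(z1,[z4,y4,y4,z3]),(z1,[y5,z5,z5,z0,
    z3]),(z1,[y2,y1,y1,y3,y3,z3])],.ref k6 k0 [(z1,[z1,z2,z0,y2]),(z2,[y1,z1,z6,z2]),(z1,[z1,y1,z0,z1]),(z4,[y5,z5,z0,
    z10,z12]),(z2,[y1,y5,y6,y4,y6,z6])],.ref k6 k0 [(z1,[z4,y1,z0,y4,y4]),(z1,[y2,z2,z3,z2,z2]),(z1,[z4,y4,z0,y1,y4]),
    (z1,[y5,z5,z0,z5,z8]),(z1,[y2,y1,y3,y1,y1,z3])],.ref k6 k0 [(z3,[z4,z5,z0,y4]),(z3,[y2,z2,z9,z2]),(z3,[z4,y4,z0,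
    z5]),(z3,[y5,z5,z0,z5,z9]),(z3,[y2,y7,y9,y7,y9,z9])],.ref k6 k0 [(z1,[y2,z5,z0,z0,z4]),(z1,[z1,y1,z3,z0,y2]),(z1,
    [y2,z2,z0,z3,z4]),(z2,[z5,y5,z0,z0,y4]),(z1,[z1,y4,y3,y3,y5,z3])],.ref k6 k0 [(z1,[y4,z3,z4,z4,z4]),(z1,[z2,z0,z1,
    y2,y2]),(z1,[y4,z0,z4,z7,z4]),(z1,[z5,z0,y5,y5,y2]),(z1,[z2,y3,y5,y5,y5,z3])],.ref k6 k0 [(z1,[y1,z3,z1,z0,z2]),
    (z2,[z1,z0,z5,z0,y2]),(z1,[y1,z0,z1,z3,z2]),(z4,[z5,z0,y5,z0,z2]),(z2,[z1,y6,y7,y6,y8,z6])],.ref k6 k0 [(z1,[y2,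
    z3,z2,z0,z2]),(z1,[z1,z0,z2,z0,y1]),(z1,[y2,z0,z2,z3,z2]),(z2,[z5,z0,y5,z0,z1]),(z1,[z1,y3,y4,y3,y4,z3])],
    .ref k6 k0 [(z1,[y2,z3,z0,z2,z4]),(z1,[z1,z0,z3,y1,y2]),(z1,[y2,z0,z0,z5,z4]),(z2,[z5,z0,z0,y5,y4]),(z1,[z1,y3,y3,
    y4,y5,z3])],.ref k6 k0 [(z5,[y4,z15,z0,z0,z12]),(z5,[z2,z0,z15,z0,y6]),(z5,[y4,z0,z0,z15,z12]),(z1,[z1]),(z5,[z2,
    y15,y15,y15,y21,z15])]],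
    .tor k2 false k2 [(z1,[z0,z0,z1,z1]),(z1,[z1,z0,z1]),(z1,[y1,z0,y1,z0,z1]),(z1,[z0,z0,y1,y1,z1])],
    .lp [k160,k152,k164,k154,k164,k164] [k2,k2,k6,k6,k0,k0,k5,k5,k0,k0,k0,k0] k0 [[k0,k0,k0,k0,k0,k0,k0,k22,k0,k0,k0,k4],
    [k0,k0,k16,k4],[k4,k0,k0,k0,k16],[k16],[k0,k0,k0,k0,k0,k0,k6,k10,k0,k0,k8],[k0,k0,k0,k16,k0,k0,k0,k0,k0,k0,k16],
    [k0,k22,k0,k0,k0,k10],[k0,k0,k0,k0,k0,k6,k0,k0,k4],[],[k0,k0,k0,k0,k0,k0,k4],[k0,k4],[k0,k0,k0,k0,k16,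
    k8]] (nat_lit 480) k5
    [[(k7,k141),(k4,k154),(k0,k160),(k3,k160),(k8,k162),(k11,k162)],[(k6,k135),(k10,k158),(k1,k160),(k9,k162),(k5,
    k166),(k2,k172)],[(k5,k142),(k2,k148),(k6,k153),(k10,k158),(k1,k160),(k9,k180)],[(k7,k137),(k3,k148),(k4,k158),
    (k8,k158),(k11,k158),(k0,k172)],[(k3,k142),(k7,k159),(k8,k164),(k11,k164),(k0,k166),(k4,k180)],[(k6,k149),(k1,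
    k154),(k2,k158),(k9,k158),(k5,k180),(k10,k180)],[(k2,k137),(k1,k141),(k5,k159),(k6,k160),(k10,k167),(k9,k169)],
    [(k0,k135),(k4,k149),(k3,k153),(k11,k159),(k7,k160),(k8,k163)],[(k4,k158),(k11,k160),(k0,k162),(k8,k164),(k7,
    k169),(k3,k180)],[(k2,k158),(k1,k162),(k6,k163),(k5,k164),(k9,k164),(k10,k164)],[(k2,k158),(k6,k159),(k9,k160),
    (k1,k162),(k5,k164),(k10,k164)],[(k0,k158),(k3,k158),(k8,k164),(k11,k164),(k7,k167),(k4,k180)]]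
    [] k0
    [[k2,k0,k0,k1,k0,k0],[k1,k1,k0,k1,k0,k0],[k1,k1,k0,k0,k0,k1],[k1,k1,k1,k0,k0,k0],[k1,k0,k1,k1,k0,k0],[k1,k0,k1,k0,
    k0,k1],[k1,k0,k0,k2,k0,k0],[k1,k0,k0,k1,k1,k0],[k1,k0,k0,k1,k0,k1],[k0,k3,k0,k0,k0,k0],[k0,k2,k1,k0,k0,k0],[k0,k2,
    k0,k1,k0,k0],[k0,k2,k0,k0,k0,k1],[k0,k1,k1,k1,k0,k0],[k0,k1,k1,k0,k1,k0],[k0,k1,k0,k2,k0,k0],[k0,k1,k0,k1,k0,k1],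
    [k0,k1,k0,k0,k1,k1],[k0,k0,k1,k2,k0,k0]]
    [.ref k6 k0 [(z5,[z4,z7,z0,z0,y4]),(z5,[y2,z4,z15,z0,z2]),(z5,[y8,z16,z0,z15,z8]),(z5,[z7,y14,z0,z0,z8]),(z5,[y2,
    y11,y15,y15,y13,z15])],.ref k6 k0 [(z3,[z4,z5,y4,z0,y4]),(z3,[y2,z2,z11,z0,z2]),(z3,[y8,z8,z8,z9,z8]),(z3,[z7,y7,
    y7,z0,z2]),(z3,[y2,y7,y7,y9,y7,z9])],.ref k6 k0 [(z1,[z4,y1,y4]),(z1,[y2,z2,z5]),(z1,[y8,z8,z8,z3]),(z1,[z7,y7,y7,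
    z0,z3]),(z1,[y2,y1,y1,y3,y3,z3])],.ref k6 k0 [(z1,[y2,z5,z2,z2]),(z1,[z1,y1,z2,y1]),(z1,[z4,y4,y4,y1]),(z2,[y7,z7,
    z7,z7,z6]),(z1,[z1,y4,y4,y4,y3,z3])],.ref k6 k0 [(z1,[z4,y1,z0,y4,y4]),(z1,[y2,z2,z3,z2,z2]),(z1,[y8,z8,z0,z11,
    z8]),(z1,[z7,y7,z0,y7,y4]),(z1,[y2,y1,y3,y1,y1,z3])],.ref k6 k0 [(z1,[y4,z7,z0,z4]),(z1,[z2,y2,z3,y2]),(z1,[z8,y8,
    z0,y5]),(z1,[y7,z7,z0,z7,z3]),(z1,[z2,y5,y3,y5,y3,z3])],.ref k6 k0 [(z3,[z2,z7,z0,z0,y4]),(z3,[y1,z1,z9,z0,z2]),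
    (z3,[y4,z4,z0,z9,z8]),(z6,[z7,y7,z0,z0,z4]),(z3,[y1,y8,y9,y9,y7,z9])],.ref k6 k0 [(z3,[z4,z9,z4,z4,z0,y4]),(z3,
    [y2,z0,z7,y2,z0,z2]),(z3,[y8,z0,y8,z1,z0,z8]),(z3,[z7,z0,z7,z7,z9,y7]),(z3,[y2,y9,y11,y11,y9,z11])],
    .ref k6 k0 [(z1,[z1,z2,z0,z0,y1]),(z2,[y1,z1,z6,z0,z1]),(z1,[y2,z2,z0,z3,z2]),(z4,[z7,y7,z0,z0,z5]),(z2,[y1,y5,y6,
    y6,y5,z6])],.ref k6 k0 [(z1,[y2,z3,z6]),(z1,[z1]),(z1,[z4,z0,y12,z3]),(z2,[y7,z0,z21,z0,z6]),(z1,[z1,y3,y6,y3,y3,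
    z3])],.ref k6 k0 [(z1,[y1,z3,z2,z1]),(z2,[z1,z0,z4,y1]),(z1,[z2,z0,y4,z1]),(z4,[y7,z0,z14,z7,z12]),(z2,[z1,y6,y8,
    y7,y6,z6])],.ref k6 k0 [(z1,[z4,z3,y8,z0,y4]),(z1,[y2,z0,z7,z0,z2]),(z1,[y8,z0,z16,z3,z8]),(z1,[z7,z0,y14,z0,y4]),
    (z1,[y2,y3,z1,y3,y1,z3])],.ref k6 k0 [(z1,[y4,z3,z8]),(z1,[z2,z0,y1]),(z1,[z8,z0,y16,z3]),(z1,[y7,z0,z14,z0,z3]),
    (z1,[z2,y3,y7,y3,y3,z3])],.ref k6 k0 [(z1,[y4,z3,z4,z4,z4]),(z1,[z2,z0,z1,y2,y2]),(z1,[z8,z0,y8,y5,y8]),(z1,[y7,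
    z0,z7,z7,z10]),(z1,[z2,y3,y5,y5,y5,z3])],.ref k6 k0 [(z1,[y1,z2,z0,z0,y1,z1]),(z2,[z1,z1,z6,z0,z1,y1]),(z1,[z2,z2,
    z0,z3,z2,y2]),(z4,[y7,y7,z0,z0,z5,z7]),(z2,[z1,y5,y6,y6,y5,z5])],.ref k6 k0 [(z1,[z1,z3,y1,z0,y2]),(z2,[y1,z0,z7,
    z0,z2]),(z1,[y2,z0,z2,z3,z4]),(z4,[z7,z0,y7,z0,y2]),(z2,[y1,y6,y5,y6,y4,z6])],.ref k6 k0 [(z1,[z2,z3,y2,z0,y2]),
    (z1,[y1,z0,z4,z0,z1]),(z1,[y4,z0,z4,z3,z4]),(z2,[z7,z0,y7,z0,y1]),(z1,[y1,y3,y2,y3,y2,z3])],.ref k6 k0 [(z1,[y4,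
    y1,z0,y4,y4,z4]),(z1,[z2,z2,z3,z2,z2,y2]),(z1,[z8,z8,z0,z11,z8,y8]),(z1,[y7,y7,z0,y7,y4,z7]),(z1,[z2,y1,y3,y1,y1,
    z1])],.ref k6 k0 [(z1,[z2,z3,z0,y2,y4]),(z1,[y1,z0,z3,z1,z2]),(z1,[y4,z0,z0,z7,z8]),(z2,[z7,z0,z0,y7,y8]),(z1,[y1,
    y3,y3,y2,y1,z3])]]]

noncomputable def cT6_2_n0_4 : List TN :=
  [.lp [(nat_lit 31784),(nat_lit 32606),(nat_lit 30962),(nat_lit 32606),(nat_lit 33840),(nat_lit 35072)] [(nat_lit 1644),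
    (nat_lit 1644),(nat_lit 1233),(nat_lit 1233),(nat_lit 2055),(nat_lit 2055),(nat_lit 1233),(nat_lit 1233),
    (nat_lit 616),(nat_lit 616),k0,k0] k0 [[k0,k0,(nat_lit 5343),(nat_lit 822)],[k0,k0,k0,k0,k0,k0,k0,(nat_lit 411)],
    [k0,(nat_lit 822),k0,k0,(nat_lit 4110)],[k0,(nat_lit 5343),k0,k0,k0,k0,k0,k0,k0,(nat_lit 1644)],[k0,k0,k0,k0,k0,
    k0,k0,k0,k0,k0,k0,(nat_lit 2466)],[k0,k0,k0,(nat_lit 4110),k0,k0,k0,(nat_lit 4110)],[(nat_lit 411),k0,k0,k0,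
    (nat_lit 4110)],[k0,k0,k0,k0,k0,k0,k0,k0,(nat_lit 3699),(nat_lit 2466)],[k0,k0,(nat_lit 1644),k0,k0,k0,
    (nat_lit 2466)],[k0,k0,k0,k0,k0,k0,(nat_lit 3699),k0,k0,k0,k0,(nat_lit 1644)],[k0,k0,k0,k0,k0,(nat_lit 2466),k0,
    k0,(nat_lit 1644)]] (nat_lit 98640) k5
    [[(k4,(nat_lit 31373)),(k0,(nat_lit 31784)),(k3,(nat_lit 32195)),(k11,(nat_lit 33428)),(k8,(nat_lit 34456)),(k7,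
    (nat_lit 34661))],[(k5,(nat_lit 26030)),(k2,(nat_lit 31373)),(k1,(nat_lit 31784)),(k6,(nat_lit 32195)),(k9,
    (nat_lit 33223)),(k10,(nat_lit 33428))],[(k1,(nat_lit 32195)),(k6,(nat_lit 32195)),(k5,(nat_lit 32606)),(k9,
    (nat_lit 33223)),(k10,(nat_lit 33839)),(k2,(nat_lit 37949))],[(k7,(nat_lit 28496)),(k0,(nat_lit 31373)),(k4,
    (nat_lit 31784)),(k8,(nat_lit 33223)),(k11,(nat_lit 35483)),(k3,(nat_lit 37949))],[(k0,(nat_lit 26030)),(k8,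
    (nat_lit 30757)),(k7,(nat_lit 31784)),(k3,(nat_lit 32606)),(k11,(nat_lit 33017)),(k4,(nat_lit 35072))],[(k10,
    (nat_lit 30551)),(k1,(nat_lit 31373)),(k2,(nat_lit 31784)),(k6,(nat_lit 31784)),(k5,(nat_lit 35072)),(k9,
    (nat_lit 36511))],[(k2,(nat_lit 28496)),(k6,(nat_lit 28496)),(k5,(nat_lit 31784)),(k9,(nat_lit 33223)),(k10,
    (nat_lit 33839)),(k1,(nat_lit 34661))],[(k7,(nat_lit 28496)),(k4,(nat_lit 31784)),(k0,(nat_lit 32195)),(k3,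
    (nat_lit 32195)),(k11,(nat_lit 36305)),(k8,(nat_lit 36922))],[(k11,(nat_lit 30757)),(k8,(nat_lit 31374)),(k0,
    (nat_lit 33223)),(k3,(nat_lit 33223)),(k7,(nat_lit 33223)),(k4,(nat_lit 36511))],[(k5,(nat_lit 30757)),(k9,
    (nat_lit 31374)),(k2,(nat_lit 33223)),(k1,(nat_lit 34456)),(k10,(nat_lit 34456)),(k6,(nat_lit 36922))],[(k9,
    (nat_lit 30757)),(k5,(nat_lit 33017)),(k1,(nat_lit 33428)),(k10,(nat_lit 33428)),(k2,(nat_lit 35483)),(k6,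
    (nat_lit 36305))],[(k4,(nat_lit 30551)),(k0,(nat_lit 33428)),(k11,(nat_lit 33428)),(k3,(nat_lit 33839)),(k7,
    (nat_lit 33839)),(k8,(nat_lit 34456))]]
    [] k0
    [[k3,k0,k0,k0,k0,k0],[k2,k1,k0,k0,k0,k0],[k2,k0,k1,k0,k0,k0],[k1,k1,k1,k0,k0,k0],[k1,k1,k0,k1,k0,k0],[k1,k0,k2,k0,
    k0,k0],[k1,k0,k1,k1,k0,k0],[k1,k0,k1,k0,k1,k0],[k1,k0,k1,k0,k0,k1],[k1,k0,k0,k2,k0,k0],[k0,k1,k1,k1,k0,k0],[k0,k1,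
    k0,k2,k0,k0],[k0,k1,k1,k0,k1,k0],[k0,k1,k0,k0,k2,k0],[k0,k1,k0,k0,k1,k1],[k0,k0,k1,k2,k0,k0],[k0,k0,k1,k1,k1,k0],
    [k0,k0,k1,k0,k1,k1],[k0,k0,k1,k0,k0,k2],[k0,k0,k0,k3,k0,k0],[k0,k0,k0,k0,k3,k0],[k0,k0,k0,k0,k2,k1]]
    [.ref k6 k0 [(z1,[z1]),(z2,[y1,z3,z6]),(z4,[z7,y21,z0,z12]),(z1,[y2,z6,z0,z0,z3]),(z2,[y1,y3,y6,y6,y6,z6])],
    .ref k6 k0 [(z1,[z2,y1,y2]),(z1,[y1,z2,z4]),(z2,[z7,y14,y7,z6]),(z1,[y4,z8,z4,z0,z3]),(z1,[y1,y1,y2,y3,y3,z3])],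
    .ref k6 k0 [(z5,[z4,z7,z0,y4]),(z5,[y2,z4,z15,z2]),(z5,[z7,y14,z0,z8]),(z5,[y8,z16,z0,z8,z15]),(z5,[y2,y11,y15,
    y13,y15,z15])],.ref k6 k0 [(z3,[z4,z5,y4,y4]),(z3,[y2,z2,z11,z2]),(z3,[z7,y7,y7,z2]),(z3,[y8,z8,z8,z8,z9]),(z3,
    [y2,y7,y7,y7,y9,z9])],.ref k6 k0 [(z1,[y2,z5,z2,z0,z2]),(z1,[z1,y1,z2,z0,y1]),(z2,[y7,z7,z7,z6,z7]),(z1,[z4,y4,y4,
    z0,y1]),(z1,[z1,y4,y4,y3,y4,z3])],.ref k6 k0 [(z3,[z2,z7,z0,y4]),(z3,[y1,z1,z9,z2]),(z6,[z7,y7,z0,z4]),(z3,[y4,z4,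
    z0,z8,z9]),(z3,[y1,y8,y9,y7,y9,z9])],.ref k6 k0 [(z1,[z4,y1,z0,y4,y4]),(z1,[y2,z2,z3,z2,z2]),(z1,[z7,y7,z0,y4,
    y7]),(z1,[y8,z8,z0,z8,z11]),(z1,[y2,y1,y3,y1,y1,z3])],.ref k6 k0 [(z3,[z4,z9,z4,z0,z4,y4]),(z3,[y2,z0,z7,z0,y2,
    z2]),(z3,[z7,z0,z7,z9,z7,y7]),(z3,[y8,z0,y8,z0,z1,z8]),(z3,[y2,y9,y11,y9,y11,z11])],.ref k6 k0 [(z1,[z1,z2,z0,
    y1]),(z2,[y1,z1,z6,z1]),(z4,[z7,y7,z0,z5]),(z1,[y2,z2,z0,z2,z3]),(z2,[y1,y5,y6,y5,y6,z6])],.ref k6 k0 [(z1,[y1,z4,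
    z0,z0,z2]),(z2,[z1,y1,z6,z0,y2]),(z4,[y7,z7,z0,z12,z14]),(z1,[z2,y2,z0,z0,y1]),(z2,[z1,y7,y6,y6,y8,z6])],
    .ref k6 k0 [(z1,[y4,z3,z4,z4,z4]),(z1,[z2,z0,z1,y2,y2]),(z1,[y7,z0,z7,z10,z7]),(z1,[z8,z0,y8,y8,y5]),(z1,[z2,y3,
    y5,y5,y5,z3])],.ref k6 k0 [(z3,[y2,z9,z2,z0,z4]),(z3,[z1,z0,z8,z0,y2]),(z6,[y7,z0,z7,z18,z14]),(z3,[z4,z0,y4,z0,
    z1]),(z3,[z1,y9,y10,y9,y11,z9])],.ref k6 k0 [(z1,[z4,z7,z0,z0,z4,y4]),(z1,[y2,y2,z3,z0,y2,z2]),(z1,[z7,z7,z0,z3,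
    z7,y7]),(z1,[y8,y8,z0,z0,y5,z8]),(z1,[y2,y5,y3,y3,y5,z5])],.ref k6 k0 [(z1,[y2,y1,y2,y4,y4,z4]),(z1,[z1,z2,z4,z2,
    z2,y2]),(z2,[y7,y14,y7,y8,y14,z14]),(z1,[z4,z8,z4,z8,z11,y8]),(z1,[z1,y1,y2,y1,y1,z1])],.ref k6 k0 [(z1,[y4,y1,z0,
    y4,y4,z4]),(z1,[z2,z2,z3,z2,z2,y2]),(z1,[y7,y7,z0,y4,y7,z7]),(z1,[z8,z8,z0,z8,z11,y8]),(z1,[z2,y1,y3,y1,y1,z1])],
    .ref k6 k0 [(z3,[y4,z9,z0,z4,z8]),(z3,[z2,z0,z9,y2,y4]),(z3,[y7,z0,z0,z16,z14]),(z3,[z8,z0,z0,y8,y7]),(z3,[z2,y9,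
    y9,y11,y13,z9])],.ref k6 k0 [(z1,[y4,y1,y4,z0,z0,z4]),(z1,[z2,z2,z5,z0,z0,y2]),(z1,[y7,y7,y7,z3,z0,z7]),(z1,[z8,
    z8,z8,z0,z3,y8]),(z1,[z2,y1,y1,y3,y3,z1])],.ref k6 k0 [(z1,[z2,z5,z2,z0,z2,y2]),(z1,[y1,y1,z2,z0,y1,z1]),(z2,[z7,
    z7,z7,z6,z7,y7]),(z1,[y4,y4,y4,z0,y1,z4]),(z1,[y1,y4,y4,y3,y4,z4])],.ref k6 k0 [(z3,[z4,z9,z0,y4]),(z3,[y2,z0,z9,
    z2]),(z3,[z7,z0,z0,z2]),(z3,[y8,z0,z0,z8,z9]),(z3,[y2,y9,y9,y7,y9,z9])],.ref k6 k0 [(z2,[y1,z6,z0,z0,z3]),(z4,[z1,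
    z0,z12,z0,y3]),(z8,[y7,z0,z0,z24,z21]),(z1,[z1]),(z4,[z1,y12,y12,y12,y15,z12])],.ref k6 k0 [(z1,[y2,y3,y6,y6,y6,
    z6]),(z1,[z1,z3,z6,z3,z3,y3]),(z2,[y7,y21,y21,y15,y21,z21]),(z1,[z4,z12,z12,z12,z15,y12]),(z1,[z1])],
    .ref k6 k0 [(z1,[y4,y5,y8,y8,y8,z8]),(z1,[z2,z4,z7,z4,z4,y4]),(z1,[y7,y14,y14,y11,y14,z14]),(z1,[z8,z16,z16,z16,
    z19,y16]),(z1,[z2,z1,z1,z1,z1,y1])]],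
    .lp [(nat_lit 334),(nat_lit 300),(nat_lit 296),(nat_lit 332),(nat_lit 326),(nat_lit 328)] [k0,k0,k17,k17,k19,k19,k1,
    k1,k4,k4,k3,k3] k0 [[k0,k0,k0,k0,k0,k0,k8,k34,k0,k0,k6],[k0,k0,k26],[k0,k0,k0,k0,k0,k58,k0,k0,k10],[k26,k0,k0,k0,
    k0,k28],[k0,k0,k28,k58],[k0,k0,k0,k0,k0,k0,k6,k12,k0,k0,k0,k2],[k0,k34,k0,k0,k12],[k0,k8,k0,k0,k6],[k0,k0,k0,k0,
    k0,k0,k0,k0,k0,k0,k8,k2],[k0,k0,k0,k10],[k0,k0,k0,k0,k2,k0,k0,k0,k0,k2],[k0,k6,k0,k0,k0,k0,k0,k0,k0,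
    k8]] (nat_lit 960) k5
    [[(k3,(nat_lit 317)),(k4,(nat_lit 317)),(k8,(nat_lit 322)),(k0,(nat_lit 328)),(k7,(nat_lit 333)),(k11,
    (nat_lit 333))],[(k6,(nat_lit 299)),(k5,(nat_lit 315)),(k9,(nat_lit 322)),(k1,(nat_lit 328)),(k10,(nat_lit 331)),
    (k2,(nat_lit 343))],[(k5,(nat_lit 272)),(k2,(nat_lit 300)),(k1,(nat_lit 317)),(k10,(nat_lit 320)),(k6,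
    (nat_lit 324)),(k9,(nat_lit 347))],[(k4,(nat_lit 240)),(k3,(nat_lit 300)),(k11,(nat_lit 304)),(k8,(nat_lit 313)),
    (k0,(nat_lit 343)),(k7,(nat_lit 344))],[(k4,(nat_lit 268)),(k3,(nat_lit 272)),(k11,(nat_lit 312)),(k0,
    (nat_lit 315)),(k8,(nat_lit 321)),(k7,(nat_lit 372))],[(k2,(nat_lit 240)),(k5,(nat_lit 268)),(k10,(nat_lit 312)),
    (k1,(nat_lit 317)),(k6,(nat_lit 320)),(k9,(nat_lit 323))],[(k6,(nat_lit 320)),(k9,(nat_lit 323)),(k10,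
    (nat_lit 328)),(k1,(nat_lit 333)),(k2,(nat_lit 344)),(k5,(nat_lit 372))],[(k0,(nat_lit 299)),(k4,(nat_lit 320)),
    (k7,(nat_lit 320)),(k3,(nat_lit 324)),(k8,(nat_lit 329)),(k11,(nat_lit 330))],[(k0,(nat_lit 322)),(k4,
    (nat_lit 323)),(k7,(nat_lit 323)),(k8,(nat_lit 326)),(k11,(nat_lit 327)),(k3,(nat_lit 347))],[(k2,(nat_lit 313)),
    (k5,(nat_lit 321)),(k1,(nat_lit 322)),(k10,(nat_lit 325)),(k9,(nat_lit 326)),(k6,(nat_lit 329))],[(k2,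
    (nat_lit 304)),(k5,(nat_lit 312)),(k9,(nat_lit 327)),(k6,(nat_lit 330)),(k1,(nat_lit 333)),(k10,(nat_lit 336))],
    [(k4,(nat_lit 312)),(k3,(nat_lit 320)),(k8,(nat_lit 325)),(k7,(nat_lit 328)),(k0,(nat_lit 331)),(k11,
    (nat_lit 336))]]
    [] k0
    [[k1,k1,k1,k0,k0,k0],[k1,k1,k0,k0,k1,k0],[k1,k1,k0,k0,k0,k1],[k1,k0,k2,k0,k0,k0],[k1,k0,k0,k2,k0,k0],[k1,k0,k0,k1,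
    k1,k0],[k0,k3,k0,k0,k0,k0],[k0,k2,k1,k0,k0,k0],[k0,k2,k0,k0,k0,k1],[k0,k1,k2,k0,k0,k0],[k0,k1,k1,k1,k0,k0],[k0,k1,
    k1,k0,k1,k0],[k0,k1,k1,k0,k0,k1],[k0,k1,k0,k1,k0,k1],[k0,k0,k3,k0,k0,k0],[k0,k0,k2,k0,k1,k0],[k0,k0,k2,k0,k0,k1]]
    [.ref k43 k0 [(z1,[y2,z5,z2,z2]),(z1,[z1,y1,z2,y1]),(z1,[z4,y4,y4,y1]),(z1,[y2,y1,y1,y1,z3])],.ref k9 k1 [(z1,[z0,
    z0,y4,z1]),(z1,[z0,y1,z1,y1,z1]),(z1,[z1,y1,y2]),(z1,[y1,z1,z3])],.ref k44 k1 [(z1,[z0,z0,y4,z1]),(z1,[z0,y1,z1,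
    y1,z1]),(z1,[y1,z1,z3]),(z1,[z1,y1,y2])],.ref k43 k0 [(z1,[y1,z4,z0,z2]),(z2,[z1,y1,z6,y2]),(z1,[z2,y2,z0,y1]),
    (z1,[y1,y2,y3,y1,z3])],.ref k43 k0 [(z1,[z1,z4,z2,z2,y2]),(z2,[y1,y1,z4,y2,z2]),(z1,[y2,y2,y4,y1,z4]),(z1,[z1,y2,
    y1,y1,z1])],.ref k45 k1 [(z1,[z0,z0,y4,z1]),(z1,[z0,y1,z1,y1,z1]),(z1,[z1,z0,y3,z1,y1]),(z1,[y1,z0,z4,y1,z1])],
    .ref k43 k0 [(z1,[y2,z3,z6]),(z1,[z1]),(z1,[z4,z0,y12,z3]),(z1,[y2,y3,z3,y3,z3])],.ref k43 k0 [(z1,[y1,z3,z2,z1]),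
    (z2,[z1,z0,z4,y1]),(z1,[z2,z0,y4,z1]),(z1,[y1,y3,y1,y2,z3])],.ref k9 k1 [(z1,[z0,z0,y4,z1]),(z1,[z0,y1,z1,y1,z1]),
    (z1,[y1,z0,z1]),(z1,[z1])],.ref k43 k0 [(z3,[y2,z9,z2,z4]),(z3,[z1,z0,z8,y2]),(z3,[z4,z0,y4,z1]),(z3,[y2,y9,y7,y5,
    z9])],.ref k43 k0 [(z1,[y2,z1,z0,z0,z2]),(z1,[z1,z1,z3,z0,y1]),(z1,[z4,z4,z0,z3,y4]),(z1,[y2,y5,y3,y3,z5])],
    .ref k46 k1 [(z1,[z0,z0,y4,z1]),(z1,[z0,y1,z1,y1,z1]),(z1,[z1,z0,z4,y1]),(z1,[y1,z0,y3,z1])],.ref k45 k1 [(z1,[z0,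
    z0,y4,z1]),(z1,[z0,y1,z1,y1,z1]),(z1,[y1,z0,y3,z1]),(z1,[z1,z0,z4,y1])],.ref k44 k1 [(z1,[z0,z0,y4,z1]),(z1,[z0,
    y1,z1,y1,z1]),(z1,[y1,y1,z2,y1,z1]),(z1,[z1,z1,y1,z1,y1])],.ref k43 k0 [(z2,[y1,z6,z0,z3]),(z4,[z1,z0,z12,y3]),
    (z1,[z1]),(z2,[y1,y6,y6,y3,z6])],.ref k47 k1 [(z1,[z0,z0,y4,z1]),(z1,[z0,y1,z1,y1,z1]),(z1,[z1,z0,z8,y2]),(z1,[y1,
    z0,y7,z2])],.ref k48 k1 [(z1,[z0,z0,y4,z1]),(z1,[z0,y1,z1,y1,z1]),(z1,[y1,z0,y7,z2]),(z1,[z1,z0,z8,y2])]],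
    .lp [(nat_lit 308),(nat_lit 278),(nat_lit 336),(nat_lit 338),(nat_lit 332),(nat_lit 320)] [k15,k15,k30,k30,k1,k1,k0,
    k0,k3,k3,k9,k9] k0 [[k0,k0,k0,k40],[k0,k0,k0,k0,k0,k0,k0,k0,k0,k0,k12,k12],[k0,k40,k0,k0,k0,k0,k0,k0,k0,k10],[k0,
    k0,k0,k0,k28],[k0,k0,k0,k0,k0,k0,k6,k22],[k0,k0,k28,k0,k0,k0,k0,k0,k0,k0,k0,k6],[k0,k0,k0,k0,k0,k22],[k0,k0,k0,k0,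
    k0,k6,k0,k0,k12],[k0,k0,k0,k10],[k0,k0,k0,k0,k0,k0,k12],[k12,k0,k0,k0,k6],[k12]] (nat_lit 960) k5
    [[(k3,(nat_lit 281)),(k11,(nat_lit 314)),(k0,(nat_lit 320)),(k8,(nat_lit 320)),(k7,(nat_lit 323)),(k4,
    (nat_lit 328))],[(k2,(nat_lit 253)),(k1,(nat_lit 320)),(k9,(nat_lit 320)),(k5,(nat_lit 322)),(k6,(nat_lit 323)),
    (k10,(nat_lit 326))],[(k2,(nat_lit 278)),(k1,(nat_lit 281)),(k10,(nat_lit 287)),(k9,(nat_lit 305)),(k6,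
    (nat_lit 308)),(k5,(nat_lit 347))],[(k0,(nat_lit 253)),(k3,(nat_lit 278)),(k8,(nat_lit 295)),(k11,(nat_lit 299)),
    (k7,(nat_lit 308)),(k4,(nat_lit 335))],[(k7,(nat_lit 309)),(k0,(nat_lit 322)),(k8,(nat_lit 334)),(k4,
    (nat_lit 336)),(k11,(nat_lit 338)),(k3,(nat_lit 347))],[(k6,(nat_lit 315)),(k1,(nat_lit 328)),(k9,(nat_lit 328)),
    (k10,(nat_lit 328)),(k2,(nat_lit 335)),(k5,(nat_lit 336))],[(k2,(nat_lit 308)),(k5,(nat_lit 309)),(k1,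
    (nat_lit 323)),(k10,(nat_lit 323)),(k6,(nat_lit 344)),(k9,(nat_lit 357))],[(k3,(nat_lit 308)),(k4,(nat_lit 315)),
    (k0,(nat_lit 323)),(k11,(nat_lit 329)),(k7,(nat_lit 344)),(k8,(nat_lit 347))],[(k3,(nat_lit 305)),(k11,
    (nat_lit 314)),(k0,(nat_lit 320)),(k4,(nat_lit 328)),(k8,(nat_lit 332)),(k7,(nat_lit 357))],[(k2,(nat_lit 295)),
    (k1,(nat_lit 320)),(k10,(nat_lit 326)),(k9,(nat_lit 332)),(k5,(nat_lit 334)),(k6,(nat_lit 347))],[(k2,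
    (nat_lit 299)),(k1,(nat_lit 314)),(k9,(nat_lit 314)),(k10,(nat_lit 320)),(k6,(nat_lit 329)),(k5,(nat_lit 338))],
    [(k3,(nat_lit 287)),(k11,(nat_lit 320)),(k7,(nat_lit 323)),(k0,(nat_lit 326)),(k8,(nat_lit 326)),(k4,
    (nat_lit 328))]]
    [] k0
    [[k2,k1,k0,k0,k0,k0],[k1,k2,k0,k0,k0,k0],[k1,k1,k1,k0,k0,k0],[k1,k1,k0,k1,k0,k0],[k1,k1,k0,k0,k1,k0],[k1,k1,k0,k0,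
    k0,k1],[k0,k3,k0,k0,k0,k0],[k0,k2,k0,k1,k0,k0],[k0,k2,k0,k0,k1,k0],[k0,k2,k0,k0,k0,k1],[k0,k1,k1,k1,k0,k0],[k0,k1,
    k0,k1,k0,k1],[k0,k1,k0,k0,k2,k0],[k0,k1,k0,k0,k1,k1],[k0,k1,k0,k0,k0,k2]]
    [.ref k6 k0 [(z5,[z4,z7,y4]),(z5,[z7,y14,z8]),(z5,[y8,z16,z8,z15]),(z5,[y2,z4,z2,z0,z15]),(z5,[y2,y11,y13,y15,y15,
    z15])],.ref k6 k0 [(z3,[z2,z7,y4]),(z6,[z7,y7,z4]),(z3,[y4,z4,z8,z9]),(z3,[y1,z1,z2,z0,z9]),(z3,[y1,y8,y7,y9,y9,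
    z9])],.ref k6 k0 [(z1,[z4,y1,y4,y4]),(z1,[z7,y7,y4,y7]),(z1,[y8,z8,z8,z11]),(z1,[y2,z2,z2,z2,z3]),(z1,[y2,y1,y1,
    y1,y3,z3])],.ref k6 k0 [(z3,[z4,z5,y4,z0,y4]),(z3,[z7,y7,z2,z0,y7]),(z3,[y8,z8,z8,z9,z8]),(z3,[y2,z2,z2,z0,z11]),
    (z3,[y2,y7,y7,y9,y7,z9])],.ref k6 k0 [(z3,[z4,z9,z0,z4,z4,y4]),(z3,[z7,z0,z9,z7,z7,y7]),(z3,[y8,z0,z0,z1,y8,z8]),
    (z3,[y2,z0,z0,y2,z7,z2]),(z3,[y2,y9,y9,y11,y11,z11])],.ref k6 k0 [(z1,[z1,z2,y1]),(z4,[z7,y7,z5]),(z1,[y2,z2,z2,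
    z3]),(z2,[y1,z1,z1,z0,z6]),(z2,[y1,y5,y5,y6,y6,z6])],.ref k6 k0 [(z7,[z4,z21,y12]),(z1,[z1]),(z7,[y8,z0,z24,z21]),
    (z7,[y2,z0,z6,z0,z21]),(z7,[y2,y21,y15,y21,y21,z21])],.ref k6 k0 [(z1,[z1,z3,y2,z0,y1]),(z4,[z7,z0,y2,z0,y7]),(z1,
    [y2,z0,z4,z3,z2]),(z2,[y1,z0,z2,z0,z7]),(z2,[y1,y6,y4,y6,y5,z6])],.ref k6 k0 [(z1,[z1,z4,y1,z1,z1,y1]),(z4,[z7,z7,
    z5,z7,z7,y7]),(z1,[y2,y2,z2,z1,y2,z2]),(z2,[y1,y1,z1,y1,z5,z1]),(z2,[y1,y7,y5,y7,y7,z7])],.ref k6 k0 [(z5,[z4,z15,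
    y8]),(z5,[z7,z0,z1]),(z5,[y8,z0,z16,z15]),(z5,[y2,z0,z4,z0,z15]),(z5,[y2,y15,y11,y15,y15,z15])],.ref k6 k0 [(z1,
    [y4,z3,z4,z4,z4]),(z1,[y7,z0,z10,z7,z7]),(z1,[z8,z0,y8,y5,y8]),(z1,[z2,z0,y2,y2,z1]),(z1,[z2,y3,y5,y5,y5,z3])],
    .ref k6 k0 [(z1,[z2,z3,y2,z0,y2]),(z2,[z7,z0,y1,z0,y7]),(z1,[y4,z0,z4,z3,z4]),(z1,[y1,z0,z1,z0,z4]),(z1,[y1,y3,y2,
    y3,y2,z3])],.ref k6 k0 [(z1,[z4,z11,z4,z8,z8,y8]),(z1,[z7,z14,z10,z14,z14,y14]),(z1,[y8,y16,y8,y13,y16,z16]),(z1,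
    [y2,y4,y2,y4,y1,z4]),(z1,[y2,y7,y5,y7,y7,z7])],.ref k6 k0 [(z1,[z2,z5,z0,z2,z2,y2]),(z2,[z7,z7,z6,z7,z7,y7]),(z1,
    [y4,y4,z0,y1,y4,z4]),(z1,[y1,y1,z0,y1,z2,z1]),(z1,[y1,y4,y3,y4,y4,z4])],.ref k6 k0 [(z3,[z4,z9,y4]),(z3,[z7,z0,
    z2]),(z3,[y8,z0,z8,z9]),(z3,[y2,z0,z2,z0,z9]),(z3,[y2,y9,y7,y9,y9,z9])]],
    .lp [(nat_lit 308),(nat_lit 278),(nat_lit 336),(nat_lit 338),(nat_lit 332),(nat_lit 320)] [k15,k15,k30,k30,k1,k1,k0,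
    k0,k3,k3,k9,k9] k0 [[k0,k0,k0,k40],[k0,k0,k0,k0,k0,k0,k0,k0,k0,k0,k12,k12],[k0,k40,k0,k0,k0,k0,k0,k0,k0,k10],[k0,
    k0,k0,k0,k28],[k0,k0,k0,k0,k0,k0,k6,k22],[k0,k0,k28,k0,k0,k0,k0,k0,k0,k0,k0,k6],[k0,k0,k0,k0,k0,k22],[k0,k0,k0,k0,
    k0,k6,k0,k0,k12],[k0,k0,k0,k10],[k0,k0,k0,k0,k0,k0,k12],[k12,k0,k0,k0,k6],[k12]] (nat_lit 960) k5
    [[(k3,(nat_lit 281)),(k11,(nat_lit 314)),(k0,(nat_lit 320)),(k8,(nat_lit 320)),(k7,(nat_lit 323)),(k4,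
    (nat_lit 328))],[(k2,(nat_lit 253)),(k1,(nat_lit 320)),(k9,(nat_lit 320)),(k5,(nat_lit 322)),(k6,(nat_lit 323)),
    (k10,(nat_lit 326))],[(k2,(nat_lit 278)),(k1,(nat_lit 281)),(k10,(nat_lit 287)),(k9,(nat_lit 305)),(k6,
    (nat_lit 308)),(k5,(nat_lit 347))],[(k0,(nat_lit 253)),(k3,(nat_lit 278)),(k8,(nat_lit 295)),(k11,(nat_lit 299)),
    (k7,(nat_lit 308)),(k4,(nat_lit 335))],[(k7,(nat_lit 309)),(k0,(nat_lit 322)),(k8,(nat_lit 334)),(k4,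
    (nat_lit 336)),(k11,(nat_lit 338)),(k3,(nat_lit 347))],[(k6,(nat_lit 315)),(k1,(nat_lit 328)),(k9,(nat_lit 328)),
    (k10,(nat_lit 328)),(k2,(nat_lit 335)),(k5,(nat_lit 336))],[(k2,(nat_lit 308)),(k5,(nat_lit 309)),(k1,
    (nat_lit 323)),(k10,(nat_lit 323)),(k6,(nat_lit 344)),(k9,(nat_lit 357))],[(k3,(nat_lit 308)),(k4,(nat_lit 315)),
    (k0,(nat_lit 323)),(k11,(nat_lit 329)),(k7,(nat_lit 344)),(k8,(nat_lit 347))],[(k3,(nat_lit 305)),(k11,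
    (nat_lit 314)),(k0,(nat_lit 320)),(k4,(nat_lit 328)),(k8,(nat_lit 332)),(k7,(nat_lit 357))],[(k2,(nat_lit 295)),
    (k1,(nat_lit 320)),(k10,(nat_lit 326)),(k9,(nat_lit 332)),(k5,(nat_lit 334)),(k6,(nat_lit 347))],[(k2,
    (nat_lit 299)),(k1,(nat_lit 314)),(k9,(nat_lit 314)),(k10,(nat_lit 320)),(k6,(nat_lit 329)),(k5,(nat_lit 338))],
    [(k3,(nat_lit 287)),(k11,(nat_lit 320)),(k7,(nat_lit 323)),(k0,(nat_lit 326)),(k8,(nat_lit 326)),(k4,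
    (nat_lit 328))]]
    [] k0
    [[k2,k1,k0,k0,k0,k0],[k1,k2,k0,k0,k0,k0],[k1,k1,k1,k0,k0,k0],[k1,k1,k0,k1,k0,k0],[k1,k1,k0,k0,k1,k0],[k1,k1,k0,k0,
    k0,k1],[k0,k3,k0,k0,k0,k0],[k0,k2,k0,k1,k0,k0],[k0,k2,k0,k0,k1,k0],[k0,k2,k0,k0,k0,k1],[k0,k1,k1,k1,k0,k0],[k0,k1,
    k0,k1,k0,k1],[k0,k1,k0,k0,k2,k0],[k0,k1,k0,k0,k1,k1],[k0,k1,k0,k0,k0,k2]]
    [.ref k6 k0 [(z3,[z2,z5,y2]),(z3,[z5,y10,z4]),(z3,[y4,z8,z4,z9]),(z6,[y5,z10,z5,z0,z18]),(z3,[y1,y7,y8,y9,y9,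
    z9])],.ref k6 k0 [(z2,[z1,z5,y2]),(z4,[z5,y5,z2]),(z1,[y1,z1,z2,z3]),(z8,[y5,z5,z10,z0,z24]),(z4,[y1,y11,y10,y12,
    y12,z12])],.ref k6 k0 [(z1,[z2,z1,y2,y2]),(z1,[z5,y5,y2,y5]),(z1,[y4,z4,z4,z7]),(z2,[y5,z5,z5,z5,z6]),(z1,[y1,y2,
    y2,y2,y3,z3])],.ref k6 k0 [(z3,[z4,z5,y4,z0,y4]),(z3,[z10,y10,y1,z0,y10]),(z3,[y8,z8,z8,z9,z8]),(z3,[y5,z5,z5,z0,
    z14]),(z3,[y2,y7,y7,y9,y7,z9])],.ref k6 k0 [(z1,[z1,z3,z0,z1,z1,y1]),(z2,[z5,z0,z6,z5,z5,y5]),(z1,[y2,z0,z0,z1,y2,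
    z2]),(z4,[y5,z0,z0,y5,z7,z5]),(z2,[y1,y6,y6,y7,y7,z7])],.ref k6 k0 [(z5,[z4,z11,y4]),(z1,[z2,y2,z1]),(z5,[y8,z8,
    z8,z15]),(z1,[y1,z1,z1,z0,z3]),(z5,[y2,y13,y13,y15,y15,z15])],.ref k6 k0 [(z5,[z2,z15,y6]),(z1,[z1]),(z5,[y4,z0,
    z12,z15]),(z2,[y1,z0,z3,z0,z6]),(z5,[y1,y15,y12,y15,y15,z15])],.ref k6 k0 [(z5,[z4,z15,y8,z0,y4]),(z1,[z2,z0,y1,
    z0,y2]),(z5,[y8,z0,z16,z15,z8]),(z1,[y1,z0,z2,z0,z4]),(z5,[y2,y15,y11,y15,y13,z15])],.ref k6 k0 [(z3,[z2,z11,y2,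
    z2,z2,y2]),(z3,[z5,z5,z4,z5,z5,y5]),(z3,[y4,y4,z4,z5,y4,z4]),(z6,[y5,y5,z5,y5,z13,z5]),(z3,[y1,y10,y8,y10,y10,
    z10])],.ref k6 k0 [(z7,[z4,z21,y8]),(z7,[z10,z0,z1]),(z7,[y8,z0,z16,z21]),(z7,[y5,z0,z10,z0,z21]),(z7,[y2,y21,y17,
    y21,y21,z21])],.ref k6 k0 [(z1,[y4,z3,z4,z4,z4]),(z1,[y10,z0,z13,z10,z10]),(z1,[z8,z0,y8,y5,y8]),(z1,[z5,z0,y5,y5,
    y2]),(z1,[z2,y3,y5,y5,y5,z3])],.ref k6 k0 [(z1,[z2,z3,y2,z0,y2]),(z1,[z5,z0,y2,z0,y5]),(z1,[y4,z0,z4,z3,z4]),(z2,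
    [y5,z0,z5,z0,z11]),(z1,[y1,y3,y2,y3,y2,z3])],.ref k6 k0 [(z1,[z2,z7,z2,z4,z4,y4]),(z1,[z5,z10,z8,z10,z10,y10]),
    (z1,[y4,y8,y4,y5,y8,z8]),(z2,[y5,y10,y5,y10,y4,z10]),(z1,[y1,y5,y4,y5,y5,z5])],.ref k6 k0 [(z3,[z4,z13,z0,z4,z4,
    y4]),(z3,[z10,z10,z9,z10,z10,y10]),(z3,[y8,y8,z0,z1,y8,z8]),(z3,[y5,y5,z0,y5,z4,z5]),(z3,[y2,y11,y9,y11,y11,
    z11])],.ref k6 k0 [(z1,[z1,z3,y1]),(z2,[z5,z0,z1]),(z1,[y2,z0,z2,z3]),(z4,[y5,z0,z5,z0,z12]),(z2,[y1,y6,y5,y6,y6,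
    z6])]],
    .leafM k6 [k2,k3,k4,k5,k0,k1] [(z3,[z0,z0,y1,y1,z3])] [],
    .lp [k80,k76,k82,k72,k88,k80] [k4,k4,k0,k12,k3,k3,k8,k8,k0,k0,k4,k4] k0 [[k0,k0,k2,k0,k0,k0,k0,k16],[k0,k0,k6,k0,k0,
    k0,k0,k0,k0,k0,k0,k10],[k0,k0,k0,k0,k20,k0,k0,k0,k0,k12],[k6,k2],[k0,k0,k0,k0,k0,k0,k8,k16,k0,k0,k10],[k0,k0,k0,
    k20,k0,k0,k0,k0,k0,k0,k8],[k0,k16,k0,k0,k0,k16],[k0,k0,k0,k0,k0,k8,k0,k0,k8],[k0,k0,k0,k12],[k0,k0,k0,k0,k0,k0,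
    k8],[k10],[k0,k0,k0,k0,k8,k10]] (nat_lit 240) k5
    [[(k7,k68),(k4,k71),(k3,k72),(k11,k80),(k8,k84),(k0,k90)],[(k6,k60),(k5,k79),(k10,k80),(k9,k84),(k1,k90),(k2,
    k90)],[(k10,k62),(k5,k67),(k6,k68),(k1,k72),(k2,k78),(k9,k92)],[(k7,k60),(k8,k76),(k3,k78),(k11,k84),(k4,k85),(k0,
    k90)],[(k3,k67),(k7,k77),(k0,k79),(k8,k85),(k11,k93),(k4,k102)],[(k6,k61),(k1,k71),(k9,k77),(k2,k85),(k10,k89),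
    (k5,k102)],[(k2,k60),(k1,k68),(k5,k77),(k6,k80),(k10,k86),(k9,k96)],[(k0,k60),(k4,k61),(k3,k68),(k11,k76),(k7,
    k80),(k8,k88)],[(k11,k76),(k4,k77),(k0,k84),(k8,k88),(k3,k92),(k7,k96)],[(k2,k76),(k1,k84),(k10,k84),(k5,k85),(k6,
    k88),(k9,k88)],[(k6,k76),(k9,k76),(k1,k80),(k10,k80),(k2,k84),(k5,k93)],[(k3,k62),(k0,k80),(k11,k80),(k8,k84),(k7,
    k86),(k4,k89)]]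
    [] k0
    [[k2,k0,k0,k1,k0,k0],[k1,k1,k1,k0,k0,k0],[k1,k1,k0,k1,k0,k0],[k1,k1,k0,k0,k1,k0],[k1,k1,k0,k0,k0,k1],[k1,k0,k1,k1,
    k0,k0],[k1,k0,k0,k2,k0,k0],[k1,k0,k0,k1,k0,k1],[k0,k3,k0,k0,k0,k0],[k0,k2,k1,k0,k0,k0],[k0,k2,k0,k1,k0,k0],[k0,k2,
    k0,k0,k0,k1],[k0,k1,k1,k1,k0,k0],[k0,k1,k1,k0,k1,k0],[k0,k1,k0,k2,k0,k0],[k0,k1,k0,k1,k0,k1],[k0,k1,k0,k0,k1,k1],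
    [k0,k1,k0,k0,k0,k2],[k0,k0,k1,k2,k0,k0]]
    [.ref k6 k0 [(z1,[z3,y1,z0,z0,y3]),(z2,[z9,y6,z2,z0,y9]),(z1,[y6,z4,z0,z1,z6]),(z1,[y3,z2,z0,z0,z6]),(z1,[z0,y1,
    y1,y1,y3,z3])],.ref k6 k0 [(z1,[z6,y1,y2,y2]),(z1,[z9,y3,y2,y3]),(z1,[y12,z4,z4,z5]),(z1,[y6,z2,z2,z2,z3]),(z1,
    [z0,y1,y1,y1,y3,z3])],.ref k6 k0 [(z3,[z6,z1,y2,z0,y6]),(z1,[z3,y1,z0,z0,y3]),(z3,[y12,z4,z4,z3,z12]),(z3,[y6,z2,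
    z2,z0,z15]),(z1,[z0,y1,y1,y1,y3,z3])],.ref k6 k0 [(z5,[z6,z5,z0,z2,z6,y6]),(z5,[z9,z0,z5,z3,z9,y9]),(z5,[y12,z0,
    z0,z1,y12,z12]),(z5,[y6,z0,z0,y2,z9,z6]),(z1,[z0,y1,y1,y1,y3,z3])],.ref k6 k0 [(z3,[z3,z2,y1]),(z2,[z3,y1,z1]),
    (z3,[y6,z2,z2,z3]),(z3,[y3,z1,z1,z0,z9]),(z1,[z0,y1,y1,y1,y3,z3])],.ref k6 k0 [(z2,[y3,z3,z0,z1,z3]),(z4,[y9,z3,
    z4,z3,z9]),(z1,[z3,y1,z0,z0,y3]),(z2,[z3,y1,z0,y1,z3]),(z1,[z0,y1,y1,y1,y3,z3])],.ref k6 k0 [(z1,[y3,z2,z0,z0,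
    z6]),(z2,[y9,z3,z2,z0,z18]),(z1,[z6,y2,z0,z1,y12]),(z1,[z3,y1,z0,z0,y3]),(z1,[z0,y1,y1,y1,y3,z3])],
    .ref k6 k0 [(z1,[z6,y1,z0,z0,y6]),(z1,[z9,y3,z1,z0,y9]),(z1,[y12,z4,z0,z1,z12]),(z1,[y6,z2,z0,z0,z9]),(z1,[z0,y1,
    y1,y1,y3,z3])],.ref k6 k0 [(z3,[z2,z3,y2]),(z1,[z1]),(z3,[y4,z0,z4,z3]),(z3,[y2,z0,z2,z0,z9]),(z1,[z0,y1,y1,y1,y3,
    z3])],.ref k6 k0 [(z1,[z3,z1,y2,y1]),(z2,[z9,z0,y4,y3]),(z1,[y6,z0,z4,z3]),(z1,[y3,z0,z2,z1,z3]),(z1,[z0,y1,y1,y1,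
    y3,z3])],.ref k6 k0 [(z2,[z3,z2,y2,z0,y3]),(z4,[z9,z0,y2,z0,y9]),(z1,[y3,z0,z2,z1,z3]),(z2,[y3,z0,z2,z0,z9]),(z1,
    [z0,y1,y1,y1,y3,z3])],.ref k6 k0 [(z7,[z6,z7,y4]),(z7,[z9,z0,z1]),(z7,[y12,z0,z8,z7]),(z7,[y6,z0,z4,z0,z21]),(z1,
    [z0,y1,y1,y1,y3,z3])],.ref k6 k0 [(z3,[y6,z3,z2,z2,z6]),(z1,[y3,z0,z2,z1,z3]),(z3,[z12,z0,y4,y1,y12]),(z3,[z6,z0,
    y2,y2,z3]),(z1,[z0,y1,y1,y1,y3,z3])],.ref k6 k0 [(z1,[y6,y1,z0,z0,y6,z6]),(z1,[y9,y3,z1,z0,y9,z9]),(z1,[z12,z4,z0,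
    z1,z12,y12]),(z1,[z6,z2,z0,z0,z9,y6]),(z1,[z0,y1,y1,y1,y3,z3])],.ref k6 k0 [(z1,[y6,z1,z2,z0,z12]),(z1,[y9,z0,z4,
    z0,z18]),(z1,[z12,z0,y4,z1,y24]),(z1,[z6,z0,y2,z0,y9]),(z1,[z0,y1,y1,y1,y3,z3])],.ref k6 k0 [(z1,[z3,z1,y1,z0,
    y3]),(z2,[z9,z0,y1,z0,y9]),(z1,[y6,z0,z2,z1,z6]),(z1,[y3,z0,z1,z0,z6]),(z1,[z0,y1,y1,y1,y3,z3])],.ref k6 k0 [(z2,
    [z3,z3,z0,z1,z3,y3]),(z4,[z9,z3,z4,z3,z9,y9]),(z1,[y3,y1,z0,z0,y3,z3]),(z2,[y3,y1,z0,y1,z3,z3]),(z1,[z0,y1,y1,y1,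
    y3,z3])],.ref k6 k0 [(z5,[z6,z5,y2]),(z5,[z9,z0,z2]),(z5,[y12,z0,z4,z5]),(z5,[y6,z0,z2,z0,z15]),(z1,[z0,y1,y1,y1,
    y3,z3])],.ref k6 k0 [(z4,[y3,z4,z0,z1,z6]),(z8,[y9,z0,z8,z3,z18]),(z2,[z3,z0,z0,z1,y6]),(z4,[z3,z0,z0,y1,z6]),(z1,
    [z0,y1,y1,y1,y3,z3])]],
    .lp [(nat_lit 302),(nat_lit 320),(nat_lit 334),(nat_lit 342),(nat_lit 304),(nat_lit 314)] [k20,k20,k11,k11,k4,k4,k0,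
    k0,k19,k19,k14,k14] k0 [[k0,k0,k0,k0,k0,k0,k0,k40,k0,k0,k0,k42],[k0,k0,k0,k0,k0,k0,k0,k0,k0,k0,k0,k22],[k0,k0,k0,
    k0,k0,k0,k0,k0,k8,k8],[k0,k0,k0,k0,k6,k6],[k0,k0,k6,k0,k0,k0,k14,k10],[k0,k0,k6],[k0,k40,k0,k0,k0,k10],[k0,k0,k0,
    k0,k0,k14],[k0,k0,k0,k8,k0,k0,k0,k0,k0,k0,k6],[k0,k0,k0,k8,k0,k0,k0,k0,k0,k0,k38],[k22,k42],[k0,k0,k0,k0,k0,k0,k0,
    k0,k38,k6]] (nat_lit 960) k5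
    [[(k11,(nat_lit 270)),(k8,(nat_lit 297)),(k4,(nat_lit 318)),(k7,(nat_lit 322)),(k0,(nat_lit 324)),(k3,
    (nat_lit 353))],[(k10,(nat_lit 266)),(k6,(nat_lit 282)),(k9,(nat_lit 303)),(k2,(nat_lit 311)),(k5,(nat_lit 318)),
    (k1,(nat_lit 324))],[(k10,(nat_lit 295)),(k2,(nat_lit 320)),(k5,(nat_lit 327)),(k6,(nat_lit 331)),(k9,
    (nat_lit 352)),(k1,(nat_lit 353))],[(k8,(nat_lit 304)),(k11,(nat_lit 309)),(k0,(nat_lit 311)),(k3,(nat_lit 320)),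
    (k4,(nat_lit 333)),(k7,(nat_lit 337))],[(k0,(nat_lit 318)),(k3,(nat_lit 327)),(k8,(nat_lit 327)),(k4,
    (nat_lit 328)),(k7,(nat_lit 332)),(k11,(nat_lit 332))],[(k9,(nat_lit 305)),(k1,(nat_lit 318)),(k10,(nat_lit 324)),
    (k5,(nat_lit 328)),(k6,(nat_lit 328)),(k2,(nat_lit 333))],[(k1,(nat_lit 322)),(k10,(nat_lit 328)),(k5,
    (nat_lit 332)),(k9,(nat_lit 333)),(k2,(nat_lit 337)),(k6,(nat_lit 356))],[(k0,(nat_lit 282)),(k8,(nat_lit 323)),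
    (k4,(nat_lit 328)),(k11,(nat_lit 328)),(k3,(nat_lit 331)),(k7,(nat_lit 356))],[(k0,(nat_lit 303)),(k8,
    (nat_lit 304)),(k4,(nat_lit 305)),(k11,(nat_lit 309)),(k7,(nat_lit 333)),(k3,(nat_lit 352))],[(k1,(nat_lit 297)),
    (k2,(nat_lit 304)),(k9,(nat_lit 304)),(k6,(nat_lit 323)),(k5,(nat_lit 327)),(k10,(nat_lit 347))],[(k1,
    (nat_lit 270)),(k2,(nat_lit 309)),(k9,(nat_lit 309)),(k10,(nat_lit 320)),(k6,(nat_lit 328)),(k5,(nat_lit 332))],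
    [(k0,(nat_lit 266)),(k3,(nat_lit 295)),(k11,(nat_lit 320)),(k4,(nat_lit 324)),(k7,(nat_lit 328)),(k8,
    (nat_lit 347))]]
    [] k0
    [[k2,k0,k0,k1,k0,k0],[k2,k0,k0,k0,k1,k0],[k2,k0,k0,k0,k0,k1],[k1,k1,k0,k0,k0,k1],[k1,k1,k1,k0,k0,k0],[k1,k0,k1,k1,
    k0,k0],[k1,k0,k1,k0,k1,k0],[k1,k0,k1,k0,k0,k1],[k1,k0,k0,k1,k1,k0],[k1,k0,k0,k1,k0,k1],[k1,k0,k0,k0,k2,k0],[k1,k0,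
    k0,k0,k1,k1],[k1,k0,k0,k0,k0,k2],[k0,k2,k0,k0,k0,k1],[k0,k1,k1,k0,k1,k0],[k0,k1,k0,k0,k1,k1],[k0,k1,k0,k0,k0,k2],
    [k0,k0,k1,k0,k2,k0],[k0,k0,k0,k0,k3,k0]]
    [.ref k50 k5 [(z1,[z1,y2,z0,y4]),(z1,[z2,y2,z1,y5,y2]),(z1,[y2,z2,y1,z6,z2]),(z1,[z0,z1,z0,z2])],.ref k51 k3 [(z1,
    [z2,y3,y2]),(z1,[z4,y8,y5]),(z1,[y3,z6,z4]),(z1,[y2,z3,z2,y1,z1])],.ref k45 k10 [(z2,[z1,y2,z1,y8]),(z1,[z0,z1,z0,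
    z2]),(z1,[z1,y2,z0,y4]),(z1,[y1,z2,z0,z5])],.ref k52 k0 [(z1,[z4,y1,y2]),(z1,[y1,z1,z1]),(z1,[y2,z2,z1,z3]),(z1,
    [y1,y2,y1,y3,z3])],.ref k16 k1 [(z1,[y1,z1,z0,z2]),(z1,[y2,z1,z0,z1,z1]),(z1,[y3,z3,z1,z3]),(z1,[z4,y4,y1,y4])],
    .ref k16 k1 [(z1,[z1,z0,z0,z1,y1]),(z1,[z2,y1,z0,y1,y1]),(z1,[z3,z0,z1,z0,y3]),(z1,[y4,z0,y1,z0,z4])],
    .ref k16 k1 [(z2,[z1,y1,y1,z1]),(z1,[z1,y2,y1,y2,z1]),(z2,[z3,y3,y1,y3]),(z1,[y2,z2,z1,z2])],.ref k45 k8 [(z1,[z1,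
    z3,z2,z3,y4]),(z1,[z0,y2,y1,y2,z2]),(z1,[z2,z3,z2,z2,y4]),(z1,[y2,y3,y2,y3,z5])],.ref k16 k1 [(z3,[z1,z0,y1,z4,
    y1]),(z3,[z2,y3,y2,y1,z1]),(z1,[z1,z0,z0,z1,y1]),(z3,[y4,z0,z1,y4,z4])],.ref k45 k10 [(z1,[z1,z0,z1,y3,y1]),(z1,
    [z0,z1,z0,z2]),(z1,[z2,z0,z1,y2,y2]),(z1,[y2,z0,y1,z3,z2])],.ref k16 k1 [(z4,[z1,y1,y2,z4]),(z2,[z1,y3,y2,y2,z2]),
    (z4,[z3,y3,y2]),(z1,[y1,z1,z1])],.ref k52 k11 [(z1,[z4,y4,y3]),(z1,[y1,z1,z1]),(z1,[y2,y1,z0,y3,z3]),(z1,[y1,z1,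
    z0,z3])],.ref k45 k8 [(z2,[z1,z7,z4,z8,y8]),(z1,[z0,y2,y1,y2,z2]),(z1,[z1,z4,z2,z4,y4]),(z1,[y1,y4,y2,y5,z5])],
    .ref k16 k1 [(z4,[y1,z0,y1,z4]),(z2,[y1,y2,y1,y2,z2]),(z4,[y3,z0,z1]),(z1,[z1])],.ref k45 k10 [(z1,[y1,z0,z1,y3]),
    (z1,[z0,z1,z0,z2]),(z1,[y2,z0,z1,y2]),(z1,[z2,z0,y1,z3])],.ref k16 k1 [(z1,[y1,z0,z0,z1]),(z1,[y2,y1,z0,y1,z1]),
    (z1,[y3,z0,z1]),(z1,[z4,z0,y1])],.ref k51 k7 [(z1,[z2,z0,y1]),(z1,[z4,z1,y2]),(z1,[y3,z0,z2]),(z1,[y2,z0,z1,z1])],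
    .ref k50 k4 [(z1,[y1,z4,z2,z6,y4]),(z1,[y2,z7,z4,z9,y7]),(z1,[z2,y7,y4,y10,z8]),(z1,[z0,y2,y1,y2,z2])],
    .ref k53 k4 [(z1,[y1,z6,z3,z9,y6]),(z1,[y2,z9,z6,z9,y9]),(z1,[z2,y9,y6,y12,z12]),(z1,[z0,y2,y1,y2,z2])]],
    .lp [(nat_lit 310),(nat_lit 346),(nat_lit 332),(nat_lit 314),(nat_lit 274),(nat_lit 340)] [k33,k33,k30,k0,k22,k22,k31,
    k31,k51,k51,k18,k18] k0 [[k0,k0,k46,k0,k0,k0,k0,k0,k0,k0,k0,k22],[k0,k0,k62,k0,k0,k0,k0,k0,k0,k0,k0,k118],[k0,k0,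
    k0,k0,k32,k20],[k62,k46],[k0,k0,k0,k20,k0,k0,k6,k26],[k0,k0,k0,k32,k0,k0,k0,k0,k0,k0,k72],[k0,k0,k0,k0,k0,k26,k0,
    k0,k86],[k0,k0,k0,k0,k0,k6,k0,k0,k58],[k0,k0,k0,k0,k0,k0,k0,k0,k0,k0,k52],[k0,k0,k0,k0,k0,k0,k58,k86,k0,k0,k44],
    [k118,k22],[k0,k0,k0,k0,k72,k0,k0,k0,k44,k52]] (nat_lit 960) k5
    [[(k7,(nat_lit 240)),(k8,(nat_lit 240)),(k11,(nat_lit 281)),(k4,(nat_lit 321)),(k3,(nat_lit 365)),(k0,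
    (nat_lit 428))],[(k5,(nat_lit 275)),(k9,(nat_lit 292)),(k10,(nat_lit 303)),(k6,(nat_lit 312)),(k2,(nat_lit 375)),
    (k1,(nat_lit 428))],[(k10,(nat_lit 240)),(k5,(nat_lit 292)),(k9,(nat_lit 325)),(k6,(nat_lit 345)),(k1,
    (nat_lit 365)),(k2,(nat_lit 392))],[(k7,(nat_lit 283)),(k8,(nat_lit 295)),(k4,(nat_lit 304)),(k11,(nat_lit 328)),
    (k0,(nat_lit 375)),(k3,(nat_lit 392))],[(k0,(nat_lit 275)),(k3,(nat_lit 292)),(k8,(nat_lit 303)),(k11,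
    (nat_lit 336)),(k7,(nat_lit 343)),(k4,(nat_lit 364))],[(k6,(nat_lit 297)),(k9,(nat_lit 297)),(k2,(nat_lit 304)),
    (k1,(nat_lit 321)),(k5,(nat_lit 364)),(k10,(nat_lit 408))],[(k1,(nat_lit 240)),(k2,(nat_lit 283)),(k6,
    (nat_lit 320)),(k9,(nat_lit 320)),(k10,(nat_lit 327)),(k5,(nat_lit 343))],[(k11,(nat_lit 241)),(k4,(nat_lit 297)),
    (k0,(nat_lit 312)),(k7,(nat_lit 320)),(k3,(nat_lit 345)),(k8,(nat_lit 352))],[(k11,(nat_lit 249)),(k0,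
    (nat_lit 292)),(k4,(nat_lit 297)),(k7,(nat_lit 320)),(k3,(nat_lit 325)),(k8,(nat_lit 360))],[(k1,(nat_lit 240)),
    (k2,(nat_lit 295)),(k5,(nat_lit 303)),(k10,(nat_lit 351)),(k6,(nat_lit 352)),(k9,(nat_lit 360))],[(k6,
    (nat_lit 241)),(k9,(nat_lit 249)),(k1,(nat_lit 281)),(k2,(nat_lit 328)),(k5,(nat_lit 336)),(k10,(nat_lit 392))],
    [(k3,(nat_lit 240)),(k0,(nat_lit 303)),(k7,(nat_lit 327)),(k8,(nat_lit 351)),(k11,(nat_lit 392)),(k4,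
    (nat_lit 408))]]
    [] k0
    [[k1,k1,k1,k0,k0,k0],[k1,k1,k0,k0,k1,k0],[k1,k0,k1,k0,k1,k0],[k1,k0,k1,k1,k0,k0],[k1,k0,k0,k2,k0,k0],[k1,k0,k0,k1,
    k1,k0],[k1,k0,k0,k1,k0,k1],[k1,k0,k0,k0,k2,k0],[k1,k0,k0,k0,k1,k1],[k1,k1,k0,k0,k0,k1],[k0,k1,k1,k1,k0,k0],[k0,k1,
    k1,k0,k1,k0],[k0,k1,k0,k2,k0,k0],[k0,k1,k1,k0,k0,k1],[k0,k1,k0,k1,k0,k1],[k0,k1,k0,k0,k1,k1],[k0,k0,k1,k1,k1,k0],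
    [k0,k0,k0,k2,k0,k1],[k0,k0,k0,k1,k1,k1]]
    [.ref k2 k0 [(z1,[z0,z1]),(z1,[z1,z0,z1,y1]),(z1,[z0,y1,y1,z1])],.ref k31 k0 [(z1,[z0,z1]),(z1,[z1,y1]),(z1,[z0,
    y1,y1,z1])],.ref k32 k4 [(z1,[y1,y1,y2,z2]),(z1,[y2,z0,y1,z2]),(z1,[z2,z1,z2,y2])],.ref k2 k0 [(z1,[z0,z1]),(z1,
    [y1,z0,z0,z1]),(z1,[z0,y1,y1,z1])],.ref k2 k0 [(z1,[z0,z1]),(z2,[y1,z1,z2]),(z1,[z0,y1,y1,z1])],.ref k33 k0 [(z1,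
    [z0,z1]),(z1,[y1,z1,z1]),(z1,[z0,y1,y1,z1])],.ref k40 k0 [(z1,[z0,z1]),(z1,[y1,z1,z1]),(z1,[z0,y1,y1,z1])],
    .ref k32 k4 [(z2,[y1,y1,y2,z2]),(z1,[y1,z1,z1]),(z1,[z1])],.ref k41 k4 [(z1,[y1,y2,y3,z3]),(z1,[y2,z2,z3]),(z1,
    [z2,z1])],.ref k42 k0 [(z1,[z0,z1]),(z1,[z1,y1]),(z1,[z0,y1,y1,z1])],.ref k41 k4 [(z1,[z1,y2,y3,z2]),(z1,[z2,z2,
    z3,y2]),(z1,[y2,z1,z0,z2])],.ref k40 k0 [(z1,[z0,z1]),(z1,[z1,z1,z1,y1]),(z1,[z0,y1,y1,z1])],.ref k49 k9 [(z1,[z1,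
    z0,y1]),(z1,[z0,y1,y1,z1]),(z1,[y1,z0,z2])],.ref k33 k0 [(z1,[z0,z1]),(z1,[z1,z1,z1,y1]),(z1,[z0,y1,y1,z1])],
    .ref k32 k4 [(z1,[z1,y1,y2,z1]),(z1,[z2,z0,y1]),(z1,[y2,z1,z2])],.ref k2 k0 [(z1,[z0,z1]),(z1,[z1]),(z1,[z0,y1,y1,
    z1])],.ref k42 k0 [(z1,[z0,z1]),(z1,[y1,y1,z0,z1]),(z1,[z0,y1,y1,z1])],.ref k54 k0 [(z1,[z0,z1]),(z1,[y1,z0,z2]),
    (z1,[z0,y1,y1,z1])],.ref k2 k0 [(z1,[z0,z1]),(z1,[y1,z0,z1]),(z1,[z0,y1,y1,z1])]],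
    .lp [(nat_lit 318),(nat_lit 296),(nat_lit 324),(nat_lit 326),(nat_lit 334),(nat_lit 320)] [k8,k8,k19,k19,k5,k5,k4,k4,
    k0,k0,k7,k7] k0 [[k0,k0,k0,k38,k0,k0,k0,k4,k0,k0,k10],[k0,k0,k0,k4,k0,k0,k0,k0,k0,k0,k14],[k4,k38],[k0,k0,k0,k0,
    k10,k0,k0,k0,k0,k6],[k0,k0,k0,k0,k0,k0,k12,k4],[k0,k0,k10,k0,k0,k0,k0,k0,k0,k0,k0,k6],[k0,k4,k0,k0,k0,k4],[k0,k0,
    k0,k0,k0,k12],[k0,k0,k6],[],[k0,k0,k0,k0,k6],[k14,k10]] (nat_lit 960) k5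
    [[(k3,(nat_lit 293)),(k0,(nat_lit 308)),(k11,(nat_lit 319)),(k7,(nat_lit 322)),(k8,(nat_lit 326)),(k4,
    (nat_lit 327))],[(k2,(nat_lit 269)),(k1,(nat_lit 308)),(k6,(nat_lit 318)),(k5,(nat_lit 325)),(k9,(nat_lit 326)),
    (k10,(nat_lit 333))],[(k2,(nat_lit 292)),(k1,(nat_lit 293)),(k6,(nat_lit 311)),(k10,(nat_lit 318)),(k9,
    (nat_lit 319)),(k5,(nat_lit 348))],[(k0,(nat_lit 269)),(k3,(nat_lit 292)),(k7,(nat_lit 311)),(k11,(nat_lit 314)),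
    (k8,(nat_lit 315)),(k4,(nat_lit 320))],[(k7,(nat_lit 315)),(k11,(nat_lit 322)),(k8,(nat_lit 323)),(k4,
    (nat_lit 324)),(k0,(nat_lit 325)),(k3,(nat_lit 348))],[(k9,(nat_lit 317)),(k2,(nat_lit 320)),(k6,(nat_lit 321)),
    (k10,(nat_lit 322)),(k5,(nat_lit 324)),(k1,(nat_lit 327))],[(k2,(nat_lit 311)),(k5,(nat_lit 315)),(k10,
    (nat_lit 317)),(k1,(nat_lit 322)),(k9,(nat_lit 334)),(k6,(nat_lit 338))],[(k3,(nat_lit 311)),(k0,(nat_lit 318)),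
    (k4,(nat_lit 321)),(k11,(nat_lit 323)),(k8,(nat_lit 330)),(k7,(nat_lit 338))],[(k4,(nat_lit 317)),(k3,
    (nat_lit 319)),(k0,(nat_lit 326)),(k11,(nat_lit 327)),(k7,(nat_lit 334)),(k8,(nat_lit 334))],[(k2,(nat_lit 315)),
    (k5,(nat_lit 323)),(k1,(nat_lit 326)),(k10,(nat_lit 327)),(k6,(nat_lit 330)),(k9,(nat_lit 334))],[(k2,
    (nat_lit 314)),(k1,(nat_lit 319)),(k10,(nat_lit 320)),(k5,(nat_lit 322)),(k6,(nat_lit 323)),(k9,(nat_lit 327))],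
    [(k7,(nat_lit 317)),(k3,(nat_lit 318)),(k11,(nat_lit 320)),(k4,(nat_lit 322)),(k8,(nat_lit 327)),(k0,
    (nat_lit 333))]]
    [] k0
    [[k3,k0,k0,k0,k0,k0],[k2,k1,k0,k0,k0,k0],[k2,k0,k0,k1,k0,k0],[k1,k2,k0,k0,k0,k0],[k1,k1,k1,k0,k0,k0],[k1,k1,k0,k1,
    k0,k0],[k1,k1,k0,k0,k1,k0],[k1,k1,k0,k0,k0,k1],[k1,k0,k0,k1,k0,k1],[k0,k3,k0,k0,k0,k0],[k0,k2,k0,k1,k0,k0],[k0,k2,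
    k0,k0,k1,k0],[k0,k2,k0,k0,k0,k1],[k0,k1,k1,k1,k0,k0],[k0,k1,k0,k1,k0,k1],[k0,k1,k0,k0,k0,k2]]
    [.ref k6 k0 [(z1,[z1]),(z4,[z7,y21,z12]),(z2,[y1,z3,z0,z6]),(z2,[y1,z3,z0,z0,z6]),(z1,[y2,z3,y3,y3,y3,z3])],
    .ref k6 k0 [(z5,[z4,z7,y4]),(z5,[z7,y14,z8]),(z5,[y2,z4,z2,z15]),(z5,[y2,z4,z2,z0,z15]),(z5,[y8,z1,y7,y15,y15,
    z15])],.ref k6 k0 [(z1,[z2,y1,z0,z0,y2]),(z2,[z7,y14,z6,z0,y7]),(z1,[y1,z2,z0,z3,z1]),(z1,[y1,z2,z0,z0,z4]),(z1,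
    [y4,z5,y3,y3,z1,z3])],.ref k6 k0 [(z3,[z2,z7,y4]),(z6,[z7,y7,z4]),(z3,[y1,z1,z2,z9]),(z3,[y1,z1,z2,z0,z9]),(z3,
    [y4,y5,y1,y9,y9,z9])],.ref k6 k0 [(z3,[z4,z5,y4,y4]),(z3,[z7,y7,z2,y7]),(z3,[y2,z2,z2,z11]),(z3,[y2,z2,z2,z2,z9]),
    (z3,[y8,y1,y1,y1,y9,z9])],.ref k6 k0 [(z3,[z4,z5,y4,z0,y4]),(z3,[z7,y7,z2,z0,y7]),(z3,[y2,z2,z2,z9,z2]),(z3,[y2,
    z2,z2,z0,z11]),(z3,[y8,y1,y1,y9,y1,z9])],.ref k6 k0 [(z1,[z4,z3,z0,z4,z4,y4]),(z1,[z7,z0,z3,z7,z7,y7]),(z1,[y2,z0,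
    z0,z1,y2,z2]),(z1,[y2,z0,z0,y2,z1,z2]),(z1,[y8,y3,y3,y11,y11,z11])],.ref k6 k0 [(z1,[z1,z2,y1]),(z4,[z7,y7,z5]),
    (z2,[y1,z1,z1,z6]),(z2,[y1,z1,z1,z0,z6]),(z1,[y2,y1,y1,y3,y3,z3])],.ref k6 k0 [(z1,[z4,y1,z0,z0,y4]),(z1,[z7,y7,
    z3,z0,y7]),(z1,[y2,z2,z0,z3,z2]),(z1,[y2,z2,z0,z0,z5]),(z1,[y8,z5,y3,y3,z5,z3])],.ref k6 k0 [(z7,[z4,z21,y12]),
    (z1,[z1]),(z7,[y2,z0,z6,z21]),(z7,[y2,z0,z6,z0,z21]),(z7,[y8,y21,z3,y21,y21,z21])],.ref k6 k0 [(z1,[z1,z3,y2,z0,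
    y1]),(z4,[z7,z0,y2,z0,y7]),(z2,[y1,z0,z2,z6,z1]),(z2,[y1,z0,z2,z0,z7]),(z1,[y2,y3,z1,y3,y1,z3])],.ref k6 k0 [(z1,
    [z2,z5,y2,z2,z2,y2]),(z2,[z7,z7,y1,z7,z7,y7]),(z1,[y1,y1,z1,z2,y1,z1]),(z1,[y1,y1,z1,y1,z2,z1]),(z1,[y4,y7,z1,y7,
    y7,z7])],.ref k6 k0 [(z5,[z4,z15,y8]),(z5,[z7,z0,z1]),(z5,[y2,z0,z4,z15]),(z5,[y2,z0,z4,z0,z15]),(z5,[y8,y15,z1,
    y15,y15,z15])],.ref k6 k0 [(z1,[z4,z3,y4,y4,y4]),(z1,[z7,z0,y4,y7,y7]),(z1,[y2,z0,z2,z5,z2]),(z1,[y2,z0,z2,z2,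
    z5]),(z1,[y8,y3,z5,z5,z5,z3])],.ref k6 k0 [(z1,[z2,z3,y2,z0,y2]),(z2,[z7,z0,y1,z0,y7]),(z1,[y1,z0,z1,z3,z1]),(z1,
    [y1,z0,z1,z0,z4]),(z1,[y4,y3,z1,y3,z1,z3])],.ref k6 k0 [(z3,[z4,z9,y4]),(z3,[z7,z0,z2]),(z3,[y2,z0,z2,z9]),(z3,
    [y2,z0,z2,z0,z9]),(z3,[y8,y9,y1,y9,y9,z9])]],
    .leafM k6 [k0,k1,k2,k3,k4,k5] [(z1,[y1,y1,y1,z0,z1])] [],
    .lp [(nat_lit 300),(nat_lit 308),(nat_lit 352),(nat_lit 266),(nat_lit 370),(nat_lit 320)] [k35,k35,k31,k31,k9,k9,k55,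
    k49,k0,k0,k25,k25] k0 [[k0,k0,k18,k0,k0,k0,k0,k36],[k0,k0,k26,k0,k0,k0,k0,k0,k0,k0,k0,k64],[k0,k0,k0,k0,k50,k0,k0,
    k0,k0,k44],[k26,k18],[k0,k0,k0,k0,k0,k0,k0,k60,k0,k0,k38],[k0,k0,k0,k50,k0,k0,k0,k0,k0,k0,k6],[k0,k36,k0,k0,k0,
    k60],[k0,k0,k0,k0,k0,k0,k0,k0,k30,k70],[k0,k0,k0,k44,k0,k0,k70],[k0,k0,k0,k0,k0,k0,k30],[k64],[k0,k0,k0,k0,k6,
    k38]] (nat_lit 960) k5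
    [[(k7,(nat_lit 280)),(k4,(nat_lit 288)),(k3,(nat_lit 304)),(k11,(nat_lit 310)),(k8,(nat_lit 335)),(k0,
    (nat_lit 364))],[(k6,(nat_lit 244)),(k5,(nat_lit 308)),(k10,(nat_lit 310)),(k2,(nat_lit 330)),(k9,(nat_lit 335)),
    (k1,(nat_lit 364))],[(k10,(nat_lit 250)),(k6,(nat_lit 284)),(k1,(nat_lit 304)),(k5,(nat_lit 304)),(k2,
    (nat_lit 326)),(k9,(nat_lit 375))],[(k7,(nat_lit 240)),(k8,(nat_lit 295)),(k11,(nat_lit 314)),(k3,(nat_lit 326)),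
    (k0,(nat_lit 330)),(k4,(nat_lit 330))],[(k3,(nat_lit 304)),(k0,(nat_lit 308)),(k7,(nat_lit 312)),(k8,
    (nat_lit 361)),(k11,(nat_lit 380)),(k4,(nat_lit 402))],[(k6,(nat_lit 246)),(k1,(nat_lit 288)),(k2,(nat_lit 330)),
    (k10,(nat_lit 342)),(k9,(nat_lit 361)),(k5,(nat_lit 402))],[(k2,(nat_lit 240)),(k6,(nat_lit 266)),(k1,
    (nat_lit 280)),(k5,(nat_lit 312)),(k10,(nat_lit 334)),(k9,(nat_lit 381))],[(k0,(nat_lit 244)),(k4,(nat_lit 246)),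
    (k7,(nat_lit 266)),(k3,(nat_lit 284)),(k8,(nat_lit 345)),(k11,(nat_lit 360))],[(k8,(nat_lit 300)),(k11,
    (nat_lit 315)),(k0,(nat_lit 335)),(k4,(nat_lit 361)),(k3,(nat_lit 375)),(k7,(nat_lit 381))],[(k2,(nat_lit 295)),
    (k9,(nat_lit 300)),(k1,(nat_lit 335)),(k6,(nat_lit 345)),(k10,(nat_lit 345)),(k5,(nat_lit 361))],[(k1,
    (nat_lit 310)),(k2,(nat_lit 314)),(k9,(nat_lit 315)),(k10,(nat_lit 320)),(k6,(nat_lit 360)),(k5,(nat_lit 380))],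
    [(k3,(nat_lit 250)),(k0,(nat_lit 310)),(k11,(nat_lit 320)),(k7,(nat_lit 334)),(k4,(nat_lit 342)),(k8,
    (nat_lit 345))]]
    [] k0
    [[k2,k0,k0,k1,k0,k0],[k1,k1,k1,k0,k0,k0],[k1,k1,k0,k1,k0,k0],[k1,k1,k0,k0,k1,k0],[k1,k1,k0,k0,k0,k1],[k1,k0,k1,k1,
    k0,k0],[k1,k0,k0,k2,k0,k0],[k1,k0,k0,k1,k0,k1],[k1,k0,k0,k0,k0,k2],[k0,k2,k0,k1,k0,k0],[k0,k2,k0,k0,k0,k1],[k0,k1,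
    k1,k1,k0,k0],[k0,k1,k0,k2,k0,k0],[k0,k1,k0,k1,k0,k1],[k0,k1,k0,k0,k1,k1],[k0,k1,k0,k0,k0,k2],[k0,k0,k1,k2,k0,k0],
    [k0,k0,k0,k3,k0,k0],[k0,k0,k0,k0,k3,k0]]
    [.ref k6 k0 [(z1,[z1,z1,z0,z0,y1]),(z4,[z1,y2,z12,z0,y1]),(z2,[y1,z2,z0,z6,z1]),(z1,[z1,y2,z0,z0,z2]),(z1,[y2,z1,
    y3,y3,y1,z3])],.ref k6 k0 [(z1,[z4,y1,y4,y4]),(z1,[z1,y1,z2,y1]),(z1,[y2,z2,z2,z5]),(z1,[z4,y4,y4,y4,z3]),(z1,[y8,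
    z5,z5,z5,y3,z3])],.ref k6 k0 [(z3,[z4,z5,y4,z0,y4]),(z3,[z1,y1,z8,z0,y1]),(z3,[y2,z2,z2,z9,z2]),(z3,[z4,y4,y4,z0,
    z5]),(z3,[y8,y1,y1,y9,y1,z9])],.ref k6 k0 [(z1,[y4,z3,z0,y4,y4,z4]),(z1,[y1,z0,z3,y1,y1,z1]),(z1,[z2,z0,z0,z5,z2,
    y2]),(z1,[y4,z0,z0,y4,y1,z4]),(z1,[z8,y3,y3,z5,z5,y5])],.ref k6 k0 [(z1,[z2,z1,y2]),(z2,[z1,y1,z5]),(z1,[y1,z1,z1,
    z3]),(z1,[z2,y2,y2,z0,z3]),(z1,[y4,z1,z1,y3,y3,z3])],.ref k6 k0 [(z1,[z2,z1,z0,y2,y2]),(z2,[z1,y1,z6,y1,y1]),(z1,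
    [y1,z1,z0,z4,z1]),(z1,[z2,y2,z0,y2,z1]),(z1,[y4,z1,y3,z1,z1,z3])],.ref k6 k0 [(z1,[z1,z2,z0,z0,y2]),(z4,[z1,y1,
    z12,z0,y2]),(z2,[y1,z1,z0,z6,z2]),(z1,[z1,y1,z0,z0,z1]),(z1,[y2,y1,y3,y3,z1,z3])],.ref k6 k0 [(z3,[z4,z5,z0,z0,
    y4]),(z3,[z1,y1,z9,z0,y1]),(z3,[y2,z2,z0,z9,z2]),(z3,[z4,y4,z0,z0,z5]),(z3,[y8,y1,y9,y9,y1,z9])],.ref k6 k0 [(z1,
    [z2,z1]),(z2,[z1,y1,z6]),(z1,[y1,z1,z0,z3]),(z1,[z2,y2,z0,z0,z3]),(z1,[y4,z1,y3,y3,y3,z3])],.ref k6 k0 [(z1,[z2,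
    z3,y4,z0,y2]),(z2,[z1,z0,z4,z0,y1]),(z1,[y1,z0,z2,z3,z1]),(z1,[z2,z0,y4,z0,z1]),(z1,[y4,y3,z5,y3,z1,z3])],
    .ref k6 k0 [(z1,[z4,z3,y8]),(z1,[z1,z0,z1]),(z1,[y2,z0,z4,z3]),(z1,[z4,z0,y8,z0,z3]),(z1,[y8,y3,z13,y3,y3,z3])],
    .ref k6 k0 [(z1,[z4,z3,y4,y4,y4]),(z1,[z1,z0,z2,y1,y1]),(z1,[y2,z0,z2,z5,z2]),(z1,[z4,z0,y4,y4,y1]),(z1,[y8,y3,z5,
    z5,z5,z3])],.ref k6 k0 [(z3,[z4,z9,y4,z0,y8]),(z3,[z1,z0,z8,z0,y2]),(z3,[y2,z0,z2,z9,z4]),(z3,[z4,z0,y4,z0,z1]),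
    (z3,[y8,y9,y1,y9,z7,z9])],.ref k6 k0 [(z1,[z2,z3,y2,z0,y2]),(z2,[z1,z0,z5,z0,y1]),(z1,[y1,z0,z1,z3,z1]),(z1,[z2,
    z0,y2,z0,z1]),(z1,[y4,y3,z1,y3,z1,z3])],.ref k6 k0 [(z1,[y2,z1,z0,y2,y2,z2]),(z2,[y1,y1,z6,y1,y1,z1]),(z1,[z1,z1,
    z0,z4,z1,y1]),(z1,[y2,y2,z0,y2,z1,z2]),(z1,[z4,z1,y3,z1,z1,y1])],.ref k6 k0 [(z1,[z4,z3,y4]),(z1,[z1,z0,z2]),(z1,
    [y2,z0,z2,z3]),(z1,[z4,z0,y4,z0,z3]),(z1,[y8,y3,z5,y3,y3,z3])],.ref k6 k0 [(z1,[z2,z3,z0,y2,y4]),(z2,[z1,z0,z6,y1,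
    y2]),(z1,[y1,z0,z0,z4,z2]),(z1,[z2,z0,z0,y2,y1]),(z1,[y4,y3,y3,z1,z5,z3])],.ref k6 k0 [(z1,[z1,z3,z0,z0,y3]),(z4,
    [z1,z0,z12,z0,y3]),(z2,[y1,z0,z0,z6,z3]),(z1,[z1]),(z1,[y2,y3,y3,y3,z3,z3])],.ref k6 k0 [(z2,[y1,z3,y3,y3,y3,z3]),
    (z8,[y1,y3,z21,y3,y3,z3]),(z4,[z1,z3,z3,z15,z3,y3]),(z2,[y1,y3,y3,y3,z3,z3]),(z1,[z1])]]]

/-- the nodes with numbers from 0 -/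
noncomputable def cT6_2_n0 : List TN :=
  cT6_2_n0_0 ++ (cT6_2_n0_1 ++ (cT6_2_n0_2 ++ (cT6_2_n0_3 ++ cT6_2_n0_4)))

theorem cT6_2_k0 : allI (chkT 6 cT6_2_w tt6 cT6_2_s (blkF [] cT6_2_D)) cT6_2_n0 0 = true := by
  decide +kernel

end Pool.Agent.Lib_MP_fa6e45
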