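import Pool.Agent.Lib_MP_fa6e45.CG6_1d

/-!
MP_fa6e45_co, stage 5: certificates (captain, generated by a program).
-/

namespace Pool.Agent.Lib_MP_fa6e45

noncomputable def cT6_2_n1_0 : List TN :=
  [.lp [(nat_lit 308),(nat_lit 278),(nat_lit 336),(nat_lit 338),(nat_lit 332),(nat_lit 320)] [k15,k15,k30,k30,k1,k1,k0,
    k0,k3,k3,k9,k9] k0 [[k0,k0,k0,k40],[k0,k0,k0,k0,k0,k0,k0,k0,k0,k0,k12,k12],[k0,k40,k0,k0,k0,k0,k0,k0,k0,k10],[k0,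
    k0,k0,k0,k28],[k0,k0,k0,k0,k0,k0,k6,k22],[k0,k0,k28,k0,k0,k0,k0,k0,k0,k0,k0,k6],[k0,k0,k0,k0,k0,k22],[k0,k0,k0,k0,
    k0,k6,k0,k0,k12],[k0,k0,k0,k10],[k0,k0,k0,k0,k0,k0,k12],[k12,k0,k0,k0,k6],[k12]] (nat_lit 960) k5
    [[(k3,(nat_lit 281)),(k11,(nat_lit 314)),(k0,(nat_lit 320)),(k8,(nat_lit 320)),(k7,(nat_lit 323)),(k4,
    (nat_lit 328))],[(k2,(nat_lit 253)),(k1,(nat_lit 320)),(k9,(nat_lit 320)),(k5,(nat_lit 322)),(k6,(nat_lit 323)),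
    (k10,(nat_lit 326))],[(k2,(nat_lit 278)),(k1,(nat_lit 281)),(k10,(nat_lit 287)),(k9,(nat_lit 305)),(k6,
    (nat_lit 308)),(k5,(nat_lit 347))],[(k0,(nat_lit 253)),(k3,(nat_lit 278)),(k8,(nat_lit 295)),(k11,(nat_lit 299)),
    (k7,(nat_lit 308)),(k4,(nat_lit 335))],[(k7,(nat_lit 309)),(k0,(nat_lit 322)),(k8,(nat_lit 334)),(k4,
    (nat_lit 336)),(k11,(nat_lit 338)),(k3,(nat_lit 347))],[(k6,(nat_lit 315)),(k1,(nat_lit 328)),(k9,(nat_lit 328)),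
    (k10,(nat_lit 328)),(k2,(nat_lit 335)),(k5,(nat_lit 336))],[(k2,(nat_lit 308)),(k5,(nat_lit 309)),(k1,
    (nat_lit 323)),(k10,(nat_lit 323)),(k6,(nat_lit 344)),(k9,(nat_lit 357))],[(k3,(nat_lit 308)),(k4,(nat_lit 315)),
    (k0,(nat_lit 323)),(k11,(nat_lit 329)),(k7,(nat_lit 344)),(k8,(nat_lit 347))],[(k3,(nat_lit 305)),(k11,
    (nat_lit 314)),(k0,(nat_lit 320)),(k4,(nat_lit 328)),(k8,(nat_lit 332)),(k7,(nat_lit 357))],[(k2,(nat_lit 295)),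
    (k1,(nat_lit 320)),(k10,(nat_lit 326)),(k9,(nat_lit 332)),(k5,(nat_lit 334)),(k6,(nat_lit 347))],[(k2,
    (nat_lit 299)),(k1,(nat_lit 314)),(k9,(nat_lit 314)),(k10,(nat_lit 320)),(k6,(nat_lit 329)),(k5,(nat_lit 338))],
    [(k3,(nat_lit 287)),(k11,(nat_lit 320)),(k7,(nat_lit 323)),(k0,(nat_lit 326)),(k8,(nat_lit 326)),(k4,
    (nat_lit 328))]]
    [] k0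
    [[k2,k1,k0,k0,k0,k0],[k1,k2,k0,k0,k0,k0],[k1,k1,k1,k0,k0,k0],[k1,k1,k0,k1,k0,k0],[k1,k1,k0,k0,k1,k0],[k1,k1,k0,k0,
    k0,k1],[k0,k3,k0,k0,k0,k0],[k0,k2,k0,k1,k0,k0],[k0,k2,k0,k0,k1,k0],[k0,k2,k0,k0,k0,k1],[k0,k1,k1,k1,k0,k0],[k0,k1,
    k0,k1,k0,k1],[k0,k1,k0,k0,k2,k0],[k0,k1,k0,k0,k1,k1],[k0,k1,k0,k0,k0,k2]]
    [.ref k6 k0 [(z3,[z2,z5,y2]),(z3,[z5,y10,z4]),(z3,[y1,z2,z1,z9]),(z6,[y5,z10,z5,z0,z18]),(z3,[y4,y1,y5,y9,y9,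
    z9])],.ref k6 k0 [(z2,[z1,z5,y2]),(z4,[z5,y5,z2]),(z4,[y1,z1,z2,z12]),(z8,[y5,z5,z10,z0,z24]),(z1,[y1,y2,y1,y3,y3,
    z3])],.ref k6 k0 [(z1,[z1,z2,y1,y1]),(z2,[z5,y5,z1,y5]),(z2,[y1,z1,z1,z7]),(z4,[y5,z5,z5,z5,z12]),(z1,[y2,y1,y1,
    y1,y3,z3])],.ref k6 k0 [(z3,[z4,z5,y4,z0,y4]),(z3,[z10,y10,y1,z0,y10]),(z3,[y2,z2,z2,z9,z2]),(z3,[y5,z5,z5,z0,
    z14]),(z3,[y8,y1,y1,y9,y1,z9])],.ref k6 k0 [(z1,[z2,z3,z0,z2,z2,y2]),(z1,[z5,z0,z3,z5,z5,y5]),(z1,[y1,z0,z0,z2,y1,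
    z1]),(z2,[y5,z0,z0,y5,z1,z5]),(z1,[y4,y3,y3,y7,y7,z7])],.ref k6 k0 [(z5,[z4,z11,y4]),(z1,[z2,y2,z1]),(z5,[y2,z2,
    z2,z15]),(z1,[y1,z1,z1,z0,z3]),(z5,[y8,y7,y7,y15,y15,z15])],.ref k6 k0 [(z5,[z2,z15,y6]),(z1,[z1]),(z5,[y1,z0,z3,
    z15]),(z2,[y1,z0,z3,z0,z6]),(z5,[y4,y15,y3,y15,y15,z15])],.ref k6 k0 [(z5,[z4,z15,y8,z0,y4]),(z1,[z2,z0,y1,z0,
    y2]),(z5,[y2,z0,z4,z15,z2]),(z1,[y1,z0,z2,z0,z4]),(z5,[y8,y15,z1,y15,y7,z15])],.ref k6 k0 [(z1,[z1,z4,y1,z1,z1,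
    y1]),(z2,[z5,z5,z1,z5,z5,y5]),(z2,[y1,y1,z1,z5,y1,z1]),(z4,[y5,y5,z5,y5,z7,z5]),(z1,[y2,y5,y1,y5,y5,z5])],
    .ref k6 k0 [(z7,[z4,z21,y8]),(z7,[z10,z0,z1]),(z7,[y2,z0,z4,z21]),(z7,[y5,z0,z10,z0,z21]),(z7,[y8,y21,y5,y21,y21,
    z21])],.ref k6 k0 [(z1,[z4,z3,y4,y4,y4]),(z1,[z10,z0,y7,y10,y10]),(z1,[y2,z0,z2,z5,z2]),(z1,[y5,z0,z5,z5,z8]),(z1,
    [y8,y3,z5,z5,z5,z3])],.ref k6 k0 [(z1,[z2,z3,y2,z0,y2]),(z1,[z5,z0,y2,z0,y5]),(z1,[y1,z0,z1,z3,z1]),(z2,[y5,z0,z5,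
    z0,z11]),(z1,[y4,y3,z1,y3,z1,z3])],.ref k6 k0 [(z1,[y2,y1,y2,y4,y4,z4]),(z1,[y5,y10,y2,y10,y10,z10]),(z1,[z1,z2,
    z1,z5,z2,y2]),(z2,[z5,z10,z5,z10,z16,y10]),(z1,[z4,z5,z1,z5,z5,y5])],.ref k6 k0 [(z1,[z4,z7,z0,z4,z4,y4]),(z1,
    [z10,z10,z3,z10,z10,y10]),(z1,[y2,y2,z0,z1,y2,z2]),(z1,[y5,y5,z0,y5,y2,z5]),(z1,[y8,y11,y3,y11,y11,z11])],
    .ref k6 k0 [(z1,[z1,z3,y1]),(z2,[z5,z0,z1]),(z2,[y1,z0,z1,z6]),(z4,[y5,z0,z5,z0,z12]),(z1,[y2,y3,y1,y3,y3,z3])]],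
    .leafM k6 [k2,k3,k4,k5,k0,k1] [(z1,[z1,z1])] [],
    .lp [k154,k158,k166,k156,k174,k174] [k10,k10,k8,k8,k4,k4,k9,k9,k0,k0,k0,k0] k0 [[k0,k0,k0,k0,k0,k0,k0,k32],[k0,k0,
    k26],[k0,k0,k0,k0,k34,k6],[k26,k0,k0,k0,k0,k0,k0,k0,k0,k2],[k0,k0,k0,k6,k0,k0,k12,k4],[k0,k0,k0,k34,k0,k0,k0,k0,
    k0,k0,k18],[k0,k32,k0,k0,k0,k4],[k0,k0,k0,k0,k0,k12,k0,k0,k6],[k0,k0,k2,k0,k0,k0,k0,k0,k0,k0,k0,k10],[k0,k0,k0,k0,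
    k0,k0,k6,k0,k0,k0,k0,k10],[k0,k0,k0,k0,k0,k0,k0,k0,k10,k10],[k0,k0,k0,k0,k18]] (nat_lit 492) k5
    [[(k7,k137),(k0,k154),(k3,k156),(k4,k160),(k8,k174),(k11,k174)],[(k6,k123),(k1,k154),(k5,k160),(k9,k164),(k10,
    k164),(k2,k182)],[(k5,k136),(k1,k156),(k6,k157),(k2,k158),(k10,k166),(k9,k198)],[(k7,k123),(k4,k156),(k3,k158),
    (k8,k166),(k11,k168),(k0,k182)],[(k3,k136),(k0,k160),(k7,k167),(k8,k168),(k11,k170),(k4,(nat_lit 200))],[(k2,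
    k156),(k6,k157),(k9,k158),(k1,k160),(k10,k188),(k5,(nat_lit 200))],[(k2,k123),(k1,k137),(k10,k165),(k5,k167),(k6,
    k168),(k9,k169)],[(k0,k123),(k3,k157),(k4,k157),(k11,k165),(k7,k168),(k8,k171)],[(k4,k158),(k0,k164),(k11,k168),
    (k7,k169),(k8,k174),(k3,k198)],[(k10,k164),(k2,k166),(k5,k168),(k6,k171),(k1,k174),(k9,k174)],[(k10,k164),(k6,
    k165),(k2,k168),(k9,k168),(k5,k170),(k1,k174)],[(k0,k164),(k8,k164),(k11,k164),(k7,k165),(k3,k166),(k4,k188)]]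
    [] k0
    [[k3,k0,k0,k0,k0,k0],[k2,k0,k1,k0,k0,k0],[k2,k0,k0,k1,k0,k0],[k1,k1,k1,k0,k0,k0],[k1,k1,k0,k1,k0,k0],[k1,k1,k0,k0,
    k1,k0],[k1,k1,k0,k0,k0,k1],[k1,k0,k1,k1,k0,k0],[k1,k0,k0,k2,k0,k0],[k1,k0,k0,k1,k1,k0],[k1,k0,k0,k1,k0,k1],[k0,k3,
    k0,k0,k0,k0],[k0,k2,k1,k0,k0,k0],[k0,k2,k0,k1,k0,k0],[k0,k1,k1,k1,k0,k0],[k0,k1,k1,k0,k1,k0],[k0,k1,k0,k2,k0,k0],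
    [k0,k1,k0,k1,k0,k1]]
    [.ref k6 k0 [(z1,[z1]),(z8,[y1,z3,z12]),(z2,[y1,z3,z0,z6]),(z8,[z11,y33,z0,z0,z12]),(z2,[y4,z6,y3,y6,y3,z6])],
    .ref k6 k0 [(z1,[z2,y1,z0,y2]),(z4,[y1,z2,z6,z1]),(z1,[y1,z2,z0,z4]),(z4,[z11,y22,z0,y11,z6]),(z2,[y8,z10,y3,z2,
    y3,z6])],.ref k6 k0 [(z9,[z8,z11,z0,z0,y4]),(z18,[y2,z4,z27,z0,z1]),(z9,[y4,z8,z0,z27,z2]),(z9,[z11,y22,z0,z0,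
    z8]),(z18,[y32,z10,y27,y54,y11,z54])],.ref k6 k0 [(z1,[z8,y5,y4,y8]),(z1,[y1,z1,z2,z1]),(z1,[y4,z4,z2,z7]),(z2,
    [z22,y22,y11,y22,z3]),(z2,[y32,z26,z13,z26,y3,z6])],.ref k6 k0 [(z3,[z4,z5,y2,z0,y2]),(z12,[y2,z2,z19,z0,z1]),(z3,
    [y2,z2,z1,z9,z1]),(z12,[z22,y22,y11,z0,z7]),(z6,[y16,y2,y1,y18,y1,z18])],.ref k6 k0 [(z3,[y8,z9,z0,y8,y4,z8]),(z6,
    [z2,z0,z9,z2,z1,y2]),(z3,[z4,z0,z0,z13,z2,y4]),(z3,[y11,z0,z0,y11,y1,z11]),(z6,[z32,y18,y9,z14,z7,y14])],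
    .ref k6 k0 [(z3,[z8,z1,y4]),(z3,[y1,z1,z5]),(z3,[y4,z4,z2,z9]),(z6,[z22,y22,y11,z0,z9]),(z6,[y32,z14,z7,y18,y9,
    z18])],.ref k6 k0 [(z5,[z8,z7,z0,y8,y4]),(z10,[y2,z2,z15,z2,z1]),(z5,[y4,z4,z0,z19,z2]),(z5,[z11,y11,z0,y11,z2]),
    (z10,[y32,z2,y15,z2,z1,z30])],.ref k6 k0 [(z5,[z4,z11,z0,z0,y4]),(z10,[y1,z1,z15,z0,z1]),(z5,[y2,z2,z0,z15,z2]),
    (z10,[z11,y11,z0,z0,z4]),(z10,[y16,y14,y15,y30,z1,z30])],.ref k6 k0 [(z1,[z8,z3,z4,z8,z0,y8]),(z1,[y1,z0,z1,y1,z0,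
    z1]),(z1,[y4,z0,y2,y1,z0,z4]),(z2,[z22,z0,z11,z22,z3,y22]),(z2,[y32,y6,y19,y38,y3,z38])],.ref k6 k0 [(z7,[z8,z13,
    z0,z0,y4]),(z14,[y2,z2,z21,z0,z1]),(z7,[y4,z4,z0,z21,z2]),(z7,[z11,y11,z0,z0,z5]),(z14,[y32,y10,y21,y42,y5,z42])],
    .ref k6 k0 [(z1,[y8,z3,z12]),(z1,[z1]),(z1,[z4,z0,y6,z3]),(z2,[y22,z0,z33,z0,z3]),(z2,[z32,y6,y51,y6,y3,z6])],
    .ref k6 k0 [(z1,[y4,z3,z4,z4]),(z2,[z1,z0,z2,y1]),(z1,[z2,z0,y2,z1]),(z2,[y11,z0,z11,z11,z3]),(z2,[z16,y6,y19,y22,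
    y3,z6])],.ref k6 k0 [(z3,[z8,z9,y8,z0,y4]),(z6,[y2,z0,z11,z0,z1]),(z3,[y4,z0,z4,z9,z2]),(z3,[z11,z0,y11,z0,y1]),
    (z6,[y32,y18,z23,y18,z7,z18])],.ref k6 k0 [(z1,[z4,z3,y2,y4,y2]),(z4,[y2,z0,z7,z2,z1]),(z1,[y2,z0,z1,z5,z1]),(z4,
    [z22,z0,y11,y22,y5]),(z2,[y16,y6,z5,z10,z5,z6])],.ref k6 k0 [(z7,[y8,z13,z0,z0,y4,z8]),(z14,[z2,z2,z21,z0,z1,y2]),
    (z7,[z4,z4,z0,z21,z2,y4]),(z7,[y11,y11,z0,z0,z5,z11]),(z14,[z32,y10,y21,y42,y5,z10])],.ref k6 k0 [(z7,[z8,z21,y4,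
    z0,y8]),(z7,[y1,z0,z11,z0,z1]),(z7,[y4,z0,z2,z21,z4]),(z14,[z22,z0,y11,z0,y1]),(z14,[y32,y42,y5,y42,z11,z42])],
    .ref k6 k0 [(z1,[z2,z3,y1,z0,y1]),(z8,[y2,z0,z13,z0,z1]),(z2,[y2,z0,z1,z6,z1]),(z8,[z22,z0,y11,z0,z1]),(z2,[y8,y6,
    z1,y6,z1,z6])]],
    .lp [k160,k146,k168,k160,k160,k164] [k4,k4,k11,k11,k0,k0,k4,k4,k4,k4,k2,k2] k0 [[k0,k0,k0,k0,k0,k0,k0,k36,k0,k0,k0,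
    k4],[k0,k0,k24],[k0,k0,k0,k0,k22,k0,k0,k0,k0,k2],[k24,k0,k0,k0,k0,k0,k0,k0,k0,k6],[k0,k0,k0,k0,k0,k0,k8,k16,k0,k0,
    k2],[k0,k0,k0,k22,k0,k0,k0,k0,k0,k0,k20],[k0,k36,k0,k0,k0,k16,k0,k0,k6],[k0,k0,k0,k0,k0,k8],[k0,k0,k6,k2],[k0,k0,
    k0,k0,k0,k0,k0,k6],[k0,k4],[k0,k0,k0,k0,k20,k2]] (nat_lit 480) k5
    [[(k7,k140),(k3,k157),(k0,k160),(k8,k160),(k4,k162),(k11,k162)],[(k6,k124),(k10,k158),(k1,k160),(k9,k160),(k5,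
    k164),(k2,k177)],[(k5,k133),(k2,k146),(k6,k153),(k10,k155),(k1,k157),(k9,k189)],[(k7,k131),(k3,k146),(k8,k151),
    (k4,k157),(k11,k161),(k0,k177)],[(k3,k133),(k8,k158),(k0,k164),(k7,k164),(k11,k168),(k4,k190)],[(k6,k148),(k9,
    k156),(k2,k157),(k1,k162),(k10,k186),(k5,k190)],[(k2,k131),(k1,k140),(k5,k164),(k10,k164),(k6,k168),(k9,k176)],
    [(k0,k124),(k4,k148),(k3,k153),(k11,k156),(k8,k160),(k7,k168)],[(k4,k156),(k0,k160),(k11,k162),(k8,k166),(k7,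
    k176),(k3,k189)],[(k2,k151),(k5,k158),(k1,k160),(k6,k160),(k10,k162),(k9,k166)],[(k6,k156),(k2,k161),(k1,k162),
    (k9,k162),(k10,k164),(k5,k168)],[(k3,k155),(k0,k158),(k8,k162),(k7,k164),(k11,k164),(k4,k186)]]
    [] k0
    [[k2,k0,k0,k1,k0,k0],[k1,k1,k1,k0,k0,k0],[k1,k1,k0,k1,k0,k0],[k1,k1,k0,k0,k1,k0],[k1,k1,k0,k0,k0,k1],[k1,k0,k1,k1,
    k0,k0],[k1,k0,k0,k2,k0,k0],[k1,k0,k0,k1,k1,k0],[k1,k0,k0,k1,k0,k1],[k0,k3,k0,k0,k0,k0],[k0,k2,k1,k0,k0,k0],[k0,k2,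
    k0,k1,k0,k0],[k0,k2,k0,k0,k0,k1],[k0,k1,k1,k1,k0,k0],[k0,k1,k1,k0,k1,k0],[k0,k1,k0,k2,k0,k0],[k0,k1,k0,k1,k0,k1],
    [k0,k1,k0,k0,k1,k1]]
    [.ref k6 k0 [(z7,[z16,y11,z0,z0,y16]),(z7,[y2,z4,z21,z0,z2]),(z7,[y8,z16,z0,z21,z8]),(z7,[y11,z22,z0,z0,z32]),(z7,
    [z4,y29,y21,y21,y25,z21])],.ref k6 k0 [(z1,[z8,y5,y8,y8]),(z1,[y1,z1,z4,z1]),(z1,[y4,z4,z4,z7]),(z2,[y11,z11,z11,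
    z11,z6]),(z1,[z2,y5,y5,y5,y3,z3])],.ref k6 k0 [(z1,[z16,y13,y16,z0,y16]),(z1,[y2,z2,z5,z0,z2]),(z1,[y8,z8,z8,z3,
    z8]),(z1,[y11,z11,z11,z0,z14]),(z1,[z4,y7,y7,y3,y7,z3])],.ref k6 k0 [(z3,[z8,z9,z0,z8,z8,y8]),(z3,[y1,z0,z9,y1,y1,
    z1]),(z3,[y4,z0,z0,z5,y4,z4]),(z6,[y11,z0,z0,y11,z7,z11]),(z3,[z2,y9,y9,y7,y7,z7])],.ref k6 k0 [(z5,[z16,y1,y16]),
    (z5,[y2,z2,z17]),(z5,[y8,z8,z8,z15]),(z5,[y11,z11,z11,z0,z15]),(z5,[z4,y19,y19,y15,y15,z15])],.ref k6 k0 [(z1,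
    [y16,z19,z0,z16,z16]),(z1,[z2,y2,z3,y2,y2]),(z1,[z8,y8,z0,y5,y8]),(z1,[z11,y11,z0,y11,y8]),(z1,[y4,z1,y3,z1,z1,
    z3])],.ref k6 k0 [(z1,[y8,z11,z0,z0,z16]),(z1,[z1,y1,z3,z0,y2]),(z1,[z4,y4,z0,z3,y8]),(z2,[z11,y11,z0,z0,y16]),
    (z1,[y2,y1,y3,y3,z1,z3])],.ref k6 k0 [(z3,[z16,z9,z16,z16,z0,y16]),(z3,[y2,z0,z7,y2,z0,z2]),(z3,[y8,z0,y8,z1,z0,
    z8]),(z3,[y11,z0,y11,y11,z9,z11]),(z3,[z4,y9,y5,y5,y9,z5])],.ref k6 k0 [(z1,[z8,y5,z0,z0,y8]),(z1,[y1,z1,z3,z0,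
    z1]),(z1,[y4,z4,z0,z3,z4]),(z2,[y11,z11,z0,z0,z17]),(z1,[z2,y5,y3,y3,y5,z3])],.ref k6 k0 [(z1,[y8,z3,z24]),(z1,
    [z1]),(z1,[z4,z0,y12,z3]),(z2,[z11,z0,y33,z0,z6]),(z1,[y2,y3,z3,y3,y3,z3])],.ref k6 k0 [(z1,[y4,z3,z8,z4]),(z2,
    [z1,z0,z4,y1]),(z1,[z2,z0,y4,z1]),(z4,[z11,z0,y22,y11,z12]),(z1,[y1,y3,y1,y2,y3,z3])],.ref k6 k0 [(z5,[y16,z15,
    z32,z0,z16]),(z5,[z2,z0,z11,z0,y2]),(z5,[z8,z0,y16,z15,y8]),(z5,[z11,z0,y22,z0,z4]),(z5,[y4,y15,y7,y15,y11,z15])],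
    .ref k6 k0 [(z1,[y16,z3,z32]),(z1,[z2,z0,y1]),(z1,[z8,z0,y16,z3]),(z1,[z11,z0,y22,z0,z3]),(z1,[y4,y3,z5,y3,y3,
    z3])],.ref k6 k0 [(z7,[y16,z21,z16,z16,z16]),(z7,[z2,z0,z19,y2,y2]),(z7,[z8,z0,y8,z13,y8]),(z7,[z11,z0,y11,y11,
    z10]),(z7,[y4,y21,y17,y17,y17,z21])],.ref k6 k0 [(z1,[y8,y5,z0,z0,y8,z8]),(z1,[z1,z1,z3,z0,z1,y1]),(z1,[z4,z4,z0,
    z3,z4,y4]),(z2,[z11,z11,z0,z0,z17,y11]),(z1,[y2,y5,y3,y3,y5,z5])],.ref k6 k0 [(z1,[y2,z3,z2,z0,z4]),(z4,[z1,z0,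
    z11,z0,y2]),(z1,[z1,z0,y1,z3,y2]),(z8,[z11,z0,y11,z0,z2]),(z2,[y1,y6,y5,y6,y4,z6])],.ref k6 k0 [(z1,[y4,z3,z4,z0,
    z4]),(z2,[z1,z0,z5,z0,y1]),(z1,[z2,z0,y2,z3,y2]),(z4,[z11,z0,y11,z0,z1]),(z1,[y1,y3,y2,y3,y2,z3])],
    .ref k6 k0 [(z1,[z16,z19,z0,z16,z16,y16]),(z1,[y2,y2,z3,y2,y2,z2]),(z1,[y8,y8,z0,y5,y8,z8]),(z1,[y11,y11,z0,y11,
    y8,z11]),(z1,[z4,z1,y3,z1,z1,y1])]],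
    .lp [(nat_lit 300),(nat_lit 308),(nat_lit 352),(nat_lit 266),(nat_lit 370),(nat_lit 320)] [k35,k35,k31,k31,k9,k9,k55,
    k49,k0,k0,k25,k25] k0 [[k0,k0,k18,k0,k0,k0,k0,k36],[k0,k0,k26,k0,k0,k0,k0,k0,k0,k0,k0,k64],[k0,k0,k0,k0,k50,k0,k0,
    k0,k0,k44],[k26,k18],[k0,k0,k0,k0,k0,k0,k0,k60,k0,k0,k38],[k0,k0,k0,k50,k0,k0,k0,k0,k0,k0,k6],[k0,k36,k0,k0,k0,
    k60],[k0,k0,k0,k0,k0,k0,k0,k0,k30,k70],[k0,k0,k0,k44,k0,k0,k70],[k0,k0,k0,k0,k0,k0,k30],[k64],[k0,k0,k0,k0,k6,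
    k38]] (nat_lit 960) k5
    [[(k7,(nat_lit 280)),(k4,(nat_lit 288)),(k3,(nat_lit 304)),(k11,(nat_lit 310)),(k8,(nat_lit 335)),(k0,
    (nat_lit 364))],[(k6,(nat_lit 244)),(k5,(nat_lit 308)),(k10,(nat_lit 310)),(k2,(nat_lit 330)),(k9,(nat_lit 335)),
    (k1,(nat_lit 364))],[(k10,(nat_lit 250)),(k6,(nat_lit 284)),(k1,(nat_lit 304)),(k5,(nat_lit 304)),(k2,
    (nat_lit 326)),(k9,(nat_lit 375))],[(k7,(nat_lit 240)),(k8,(nat_lit 295)),(k11,(nat_lit 314)),(k3,(nat_lit 326)),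
    (k0,(nat_lit 330)),(k4,(nat_lit 330))],[(k3,(nat_lit 304)),(k0,(nat_lit 308)),(k7,(nat_lit 312)),(k8,
    (nat_lit 361)),(k11,(nat_lit 380)),(k4,(nat_lit 402))],[(k6,(nat_lit 246)),(k1,(nat_lit 288)),(k2,(nat_lit 330)),
    (k10,(nat_lit 342)),(k9,(nat_lit 361)),(k5,(nat_lit 402))],[(k2,(nat_lit 240)),(k6,(nat_lit 266)),(k1,
    (nat_lit 280)),(k5,(nat_lit 312)),(k10,(nat_lit 334)),(k9,(nat_lit 381))],[(k0,(nat_lit 244)),(k4,(nat_lit 246)),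
    (k7,(nat_lit 266)),(k3,(nat_lit 284)),(k8,(nat_lit 345)),(k11,(nat_lit 360))],[(k8,(nat_lit 300)),(k11,
    (nat_lit 315)),(k0,(nat_lit 335)),(k4,(nat_lit 361)),(k3,(nat_lit 375)),(k7,(nat_lit 381))],[(k2,(nat_lit 295)),
    (k9,(nat_lit 300)),(k1,(nat_lit 335)),(k6,(nat_lit 345)),(k10,(nat_lit 345)),(k5,(nat_lit 361))],[(k1,
    (nat_lit 310)),(k2,(nat_lit 314)),(k9,(nat_lit 315)),(k10,(nat_lit 320)),(k6,(nat_lit 360)),(k5,(nat_lit 380))],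
    [(k3,(nat_lit 250)),(k0,(nat_lit 310)),(k11,(nat_lit 320)),(k7,(nat_lit 334)),(k4,(nat_lit 342)),(k8,
    (nat_lit 345))]]
    [] k0
    [[k2,k0,k0,k1,k0,k0],[k1,k1,k1,k0,k0,k0],[k1,k1,k0,k1,k0,k0],[k1,k1,k0,k0,k1,k0],[k1,k1,k0,k0,k0,k1],[k1,k0,k1,k1,
    k0,k0],[k1,k0,k0,k2,k0,k0],[k1,k0,k0,k1,k0,k1],[k1,k0,k0,k0,k0,k2],[k0,k2,k0,k1,k0,k0],[k0,k2,k0,k0,k0,k1],[k0,k1,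
    k1,k1,k0,k0],[k0,k1,k0,k2,k0,k0],[k0,k1,k0,k1,k0,k1],[k0,k1,k0,k0,k1,k1],[k0,k1,k0,k0,k0,k2],[k0,k0,k1,k2,k0,k0],
    [k0,k0,k0,k3,k0,k0],[k0,k0,k0,k0,k3,k0]]
    [.ref k6 k0 [(z13,[z12,z15,z0,z0,y4]),(z1,[z0,z0,z1]),(z13,[y6,z12,z0,z39,z2]),(z13,[z15,y30,z0,z0,z8]),(z13,[y24,
    z9,y13,y39,y5,z39])],.ref k6 k0 [(z1,[z6,y3,y2,y6]),(z1,[z0,z0,z1]),(z1,[y3,z3,z1,z6]),(z2,[z15,y15,y5,y15,z2]),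
    (z1,[y12,z9,z3,z9,y1,z3])],.ref k6 k0 [(z9,[z12,z15,y4,z0,y4]),(z1,[z0,z0,z1]),(z9,[y6,z6,z2,z27,z2]),(z9,[z15,
    y15,y5,z0,z4]),(z9,[y24,y3,y1,y27,y1,z27])],.ref k6 k0 [(z1,[y3,z3,z0,y3,y1,z3]),(z1,[z0,z0,z1]),(z2,[z3,z0,z0,z9,
    z1,y3]),(z4,[y15,z0,z0,y15,y1,z15]),(z1,[z6,y3,y1,z3,z1,y3])],.ref k6 k0 [(z5,[z12,z3,y4]),(z1,[z0,z0,z1]),(z5,
    [y6,z6,z2,z15]),(z1,[z3,y3,y1,z0,z1]),(z5,[y24,z9,z3,y15,y5,z15])],.ref k6 k0 [(z7,[z12,z9,z0,y12,y4]),(z1,[z0,z0,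
    z1]),(z7,[y6,z6,z0,z27,z2]),(z7,[z15,y15,z0,y15,z2]),(z7,[y24,z3,y7,z3,z1,z21])],.ref k6 k0 [(z7,[z6,z15,z0,z0,
    y4]),(z1,[z0,z0,z1]),(z7,[y3,z3,z0,z21,z2]),(z14,[z15,y15,z0,z0,z4]),(z7,[y12,y9,y7,y21,z1,z21])],.ref k6 k0 [(z5,
    [z6,z9,z0,z0,y2]),(z1,[z0,z0,z1]),(z5,[y3,z3,z0,z15,z1]),(z2,[z3,y3,z0,z0,z1]),(z5,[y12,y3,y5,y15,y1,z15])],
    .ref k6 k0 [(z1,[z2,z1]),(z1,[z0,z0,z1]),(z1,[y1,z1,z0,z3]),(z2,[z5,y5,z0,z0,z2]),(z1,[y4,z1,y1,y3,y1,z3])],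
    .ref k6 k0 [(z5,[z12,z15,y8,z0,y4]),(z1,[z0,z0,z1]),(z5,[y6,z0,z4,z15,z2]),(z1,[z3,z0,y2]),(z5,[y24,y15,z11,y15,
    z3,z15])],.ref k6 k0 [(z1,[z12,z3,y8]),(z1,[z0,z0,z1]),(z1,[y6,z0,z4,z3]),(z1,[z15,z0,y10,z0,z1]),(z1,[y24,y3,z15,
    y3,y1,z3])],.ref k6 k0 [(z3,[z12,z9,y4,y12,y4]),(z1,[z0,z0,z1]),(z3,[y6,z0,z2,z15,z2]),(z3,[z15,z0,y5,y15,y2]),
    (z3,[y24,y9,z5,z15,z5,z9])],.ref k6 k0 [(z5,[z6,z15,y2,z0,y4]),(z1,[z0,z0,z1]),(z5,[y3,z0,z1,z15,z2]),(z2,[z3,z0,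
    y1]),(z5,[y12,y15,y1,y15,z3,z15])],.ref k6 k0 [(z3,[z6,z9,y2,z0,y2]),(z1,[z0,z0,z1]),(z3,[y3,z0,z1,z9,z1]),(z6,
    [z15,z0,y5,z0,z1]),(z3,[y12,y9,z1,y9,z1,z9])],.ref k6 k0 [(z7,[y12,z9,z0,y12,y4,z12]),(z1,[z0,z0,z1]),(z7,[z6,z6,
    z0,z27,z2,y6]),(z7,[y15,y15,z0,y15,z2,z15]),(z7,[z24,z3,y7,z3,z1,y3])],.ref k6 k0 [(z1,[z6,z3,y2]),(z1,[z0,z0,
    z1]),(z1,[y3,z0,z1,z3]),(z2,[z15,z0,y5,z0,z2]),(z1,[y12,y3,z3,y3,y1,z3])],.ref k6 k0 [(z2,[z3,z6,z0,y3,y2]),(z1,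
    [z0,z0,z1]),(z4,[y3,z0,z0,z15,z2]),(z8,[z15,z0,z0,y15,y2]),(z1,[y3,y3,y1,z0,z1,z3])],.ref k6 k0 [(z5,[z4,z15,z0,
    z0,y4]),(z1,[z0,z0,z1]),(z5,[y2,z0,z0,z15,z2]),(z1,[z1]),(z5,[y8,y15,y5,y15,z3,z15])],.ref k6 k0 [(z2,[y1,z3,y1,
    y3,y1,z3]),(z1,[z0,z0,z1]),(z4,[z1,z3,z1,z15,z1,y3]),(z8,[y5,y15,y5,y15,z3,z15]),(z1,[z1])]],
    .lp [k86,k68,k90,k74,k86,k74] [k2,k2,k11,k11,k0,k0,k8,k8,k2,k2,k8,k8] k0 [[k0,k0,k18,k0,k0,k0,k0,k6],[k0,k0,k0,k0,k0,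
    k0,k0,k0,k0,k0,k0,k10],[k0,k0,k0,k0,k6,k4],[k0,k18],[k0,k0,k0,k4,k0,k0,k0,k0,k0,k0,k14],[k0,k0,k0,k6,k0,k0,k0,k2],
    [k0,k6,k0,k0,k2],[k0,k0,k0,k0,k0,k0,k0,k0,k0,k6],[k0,k0,k0,k0,k0,k0,k6,k0,k0,k0,k6],[],[k10],[k0,k0,k0,k0,k0,k14,
    k0,k0,k0,k6]] (nat_lit 240) k5
    [[(k4,k74),(k3,k77),(k7,k80),(k8,k80),(k11,k80),(k0,k96)],[(k5,k70),(k6,k74),(k2,k77),(k10,k80),(k9,k86),(k1,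
    k96)],[(k10,k61),(k6,k71),(k1,k77),(k5,k79),(k9,k83),(k2,k86)],[(k7,k65),(k11,k71),(k4,k75),(k0,k77),(k8,k77),(k3,
    k86)],[(k0,k70),(k3,k79),(k11,k82),(k7,k86),(k8,k88),(k4,k96)],[(k1,k74),(k2,k75),(k6,k82),(k10,k82),(k9,k90),(k5,
    k96)],[(k2,k65),(k6,k72),(k1,k80),(k9,k80),(k5,k86),(k10,k88)],[(k3,k71),(k7,k72),(k0,k74),(k8,k80),(k11,k80),(k4,
    k82)],[(k7,k80),(k8,k80),(k11,k80),(k3,k83),(k0,k86),(k4,k90)],[(k2,k77),(k1,k80),(k6,k80),(k9,k80),(k10,k80),(k5,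
    k88)],[(k2,k71),(k1,k80),(k6,k80),(k9,k80),(k10,k80),(k5,k82)],[(k3,k61),(k0,k80),(k8,k80),(k11,k80),(k4,k82),(k7,
    k88)]]
    [] k0
    [[k1,k1,k1,k0,k0,k0],[k1,k1,k0,k1,k0,k0],[k1,k1,k0,k0,k0,k1],[k1,k0,k1,k1,k0,k0],[k1,k0,k1,k0,k0,k1],[k1,k0,k0,k2,
    k0,k0],[k1,k0,k0,k1,k1,k0],[k0,k2,k0,k1,k0,k0],[k0,k2,k0,k0,k0,k1],[k0,k1,k1,k1,k0,k0],[k0,k1,k1,k0,k0,k1],[k0,k1,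
    k0,k2,k0,k0],[k0,k1,k0,k1,k1,k0],[k0,k1,k0,k1,k0,k1],[k0,k1,k0,k0,k1,k1],[k0,k1,k0,k0,k0,k2],[k0,k0,k0,k3,k0,k0],
    [k0,k0,k0,k2,k1,k0]]
    [.ref k5 k0 [(z1,[z8,y5,y4,y8]),(z1,[y1,z1,z2,z1]),(z1,[y4,z4,z2,z7]),(z1,[y5,z2,z1,z2,z3])],.ref k56 k1 [(z1,[z0,
    z0,y2,z1]),(z1,[z1,y1,y4]),(z1,[z0,z0,z1]),(z1,[y1,z0,z1,y1,z1])],.ref k57 k1 [(z1,[z0,z0,y2,z1]),(z1,[y1,z0,z1,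
    y1,z1]),(z1,[z0,z0,z1]),(z1,[z1,y1,y4])],.ref k11 k1 [(z1,[z0,z0,y2,z1]),(z1,[z1,y1,y2,y1]),(z1,[z0,z0,z1]),(z1,
    [y1,z0,y1,z0,z1])],.ref k58 k1 [(z1,[z0,z0,y2,z1]),(z1,[y1,z0,y1,z0,z1]),(z1,[z0,z0,z1]),(z1,[z1,y1,y2,y1])],
    .ref k11 k1 [(z1,[z0,z0,y2,z1]),(z2,[z1,y1,y4]),(z1,[z0,z0,z1]),(z2,[y1,y1,y2,y2,z2])],.ref k59 k1 [(z1,[z0,z0,y2,
    z1]),(z1,[z1,y1,y5]),(z1,[z0,z0,z1]),(z1,[y1,z0,z2,y1,z1])],.ref k57 k1 [(z1,[z0,z0,y2,z1]),(z1,[z1]),(z1,[z0,z0,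
    z1]),(z1,[y1,y1,y3,y1,z1])],.ref k56 k1 [(z1,[z0,z0,y2,z1]),(z1,[y1,y1,y3,y1,z1]),(z1,[z0,z0,z1]),(z1,[z1])],
    .ref k60 k1 [(z1,[z0,z0,y2,z1]),(z1,[z1,z0,z2,y1]),(z1,[z0,z0,z1]),(z1,[y1,y1,y5,z0,z1])],.ref k59 k1 [(z1,[z0,z0,
    y2,z1]),(z1,[y1,y1,y5,z0,z1]),(z1,[z0,z0,z1]),(z1,[z1,z0,z2,y1])],.ref k61 k1 [(z1,[z0,z0,y2,z1]),(z1,[z1]),(z1,
    [z0,z0,z1]),(z1,[y1,y2,y6,y2,z2])],.ref k58 k1 [(z1,[z0,z0,y2,z1]),(z1,[z1,z0,y1]),(z1,[z0,z0,z1]),(z1,[y1,y1,y2,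
    y1,z1])],.ref k5 k0 [(z1,[y4,y1,z0,y4,z4]),(z2,[z1,z1,z3,z1,y1]),(z1,[z2,z2,z0,z5,y2]),(z2,[z5,y1,y3,y1,z1])],
    .ref k11 k1 [(z1,[z0,z0,y2,z1]),(z1,[y1,y1,y2,y1,z1]),(z1,[z0,z0,z1]),(z1,[z1,z0,y1])],.ref k62 k0 [(z1,[y8,z1,
    z4]),(z1,[z1]),(z1,[z4,z0,y2,z1]),(z1,[z5,y1,y3,y1,z1])],.ref k63 k1 [(z1,[z0,z0,y2,z1]),(z1,[z1]),(z1,[z0,z0,
    z1]),(z1,[y1,y3,y9,y3,z3])],.ref k58 k1 [(z1,[z0,z0,y2,z1]),(z2,[z1,z0,y1]),(z1,[z0,z0,z1]),(z2,[y1,y2,y5,y2,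
    z2])]],
    .leafM k6 [k1,k2,k3,k4,k5,k0] [(z1,[z0,y1,y1,y1,z1])] [],
    .lp [k168,k150,k184,k128,k168,k160] [k8,k8,k17,k17,k0,k0,k28,k28,k8,k8,k12,k12] k0 [[k0,k0,k0,k0,k0,k0,k0,k24,k0,k0,
    k20],[k0,k0,k14,k0,k0,k0,k0,k6],[k0,k0,k0,k0,k0,k42,k0,k0,k0,k12],[k14,k0,k0,k0,k0,k58],[k0,k0,k58,k42,k0,k0,k40],
    [k0,k0,k0,k0,k0,k0,k0,k0,k0,k0,k0,k2],[k6,k24,k0,k0,k0,k0,k0,k0,k4],[k0,k0,k0,k0,k0,k40,k0,k0,k16],[k0,k0,k0,k12,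
    k0,k0,k0,k0,k0,k0,k0,k4],[k0,k0,k0,k0,k0,k0,k16,k4],[k0,k0,k0,k0,k2,k0,k0,k0,k0,k4],[k0,k20]] (nat_lit 480) k5
    [[(k0,k148),(k7,k148),(k3,k159),(k8,k168),(k11,k168),(k4,k178)],[(k6,k124),(k1,k148),(k10,k164),(k2,k173),(k9,
    k174),(k5,k176)],[(k6,k133),(k2,k150),(k5,k153),(k1,k159),(k10,k175),(k9,k183)],[(k4,k125),(k8,k147),(k3,k150),
    (k11,k155),(k0,k173),(k7,k197)],[(k4,k126),(k3,k153),(k0,k176),(k8,k176),(k11,k184),(k7,k198)],[(k2,k125),(k5,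
    k126),(k9,k136),(k6,k156),(k10,k172),(k1,k178)],[(k10,k142),(k1,k148),(k9,k148),(k6,k168),(k2,k197),(k5,k198)],
    [(k0,k124),(k3,k133),(k11,k140),(k4,k156),(k8,k164),(k7,k168)],[(k4,k136),(k7,k148),(k11,k148),(k8,k172),(k0,
    k174),(k3,k183)],[(k2,k147),(k10,k160),(k6,k164),(k1,k168),(k9,k172),(k5,k176)],[(k6,k140),(k9,k148),(k2,k155),
    (k10,k160),(k1,k168),(k5,k184)],[(k7,k142),(k8,k160),(k11,k160),(k0,k164),(k4,k172),(k3,k175)]]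
    [] k0
    [[k3,k0,k0,k0,k0,k0],[k2,k0,k0,k1,k0,k0],[k1,k1,k1,k0,k0,k0],[k1,k1,k0,k0,k0,k1],[k1,k1,k0,k1,k0,k0],[k1,k0,k0,k2,
    k0,k0],[k1,k0,k0,k1,k0,k1],[k1,k0,k0,k1,k1,k0],[k0,k3,k0,k0,k0,k0],[k0,k2,k1,k0,k0,k0],[k0,k1,k2,k0,k0,k0],[k0,k1,
    k1,k0,k1,k0],[k0,k1,k1,k1,k0,k0],[k0,k1,k0,k1,k1,k0],[k0,k1,k0,k1,k0,k1],[k0,k1,k0,k0,k1,k1],[k0,k0,k3,k0,k0,k0],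
    [k0,k0,k2,k0,k1,k0],[k0,k0,k0,k2,k0,k1],[k0,k0,k0,k1,k1,k1],[k0,k0,k0,k1,k0,k2],[k0,k0,k0,k0,k1,k2]]
    [.ref k6 k0 [(z1,[z1]),(z8,[y1,z3,z12]),(z2,[y1,z3,z0,z6]),(z4,[z1,y3,z0,z0,z12]),(z8,[y7,y3,y12,y24,y24,z24])],
    .ref k6 k0 [(z3,[z4,z1,z0,z0,y4]),(z6,[y1,z2,z9,z0,z1]),(z3,[y2,z4,z0,z9,z2]),(z3,[z1,y2,z0,z0,z8]),(z6,[y7,y4,y9,
    y18,y11,z18])],.ref k6 k0 [(z1,[z8,y5,y4,y8]),(z1,[y1,z1,z2,z1]),(z1,[y4,z4,z2,z7]),(z1,[z2,y2,y1,y2,z3]),(z1,[y7,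
    z4,z2,z4,y3,z3])],.ref k6 k0 [(z3,[z8,z1,y4]),(z3,[y1,z1,z5]),(z3,[y4,z4,z2,z9]),(z3,[z2,y2,y1,z0,z9]),(z3,[y7,y2,
    y1,y9,y9,z9])],.ref k6 k0 [(z3,[z8,z1,y4,z0,y8]),(z3,[y1,z1,z5,z0,z1]),(z3,[y4,z4,z2,z9,z4]),(z3,[z2,y2,y1,z0,
    z7]),(z3,[y7,y2,y1,y9,y2,z9])],.ref k6 k0 [(z1,[z2,z1,z0,z0,y4]),(z4,[y1,z1,z6,z0,z2]),(z1,[y1,z1,z0,z3,z2]),(z2,
    [z1,y1,z0,z0,z4]),(z4,[y7,y5,y6,y12,z2,z12])],.ref k6 k0 [(z1,[z2,z1,z0,z0,y2]),(z4,[y1,z1,z6,z0,z1]),(z1,[y1,z1,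
    z0,z3,z1]),(z2,[z1,y1,z0,z0,z5]),(z4,[y7,y5,y6,y12,y5,z12])],.ref k6 k0 [(z1,[z8,z3,z4,z8,z0,y8]),(z1,[y1,z0,z1,
    y1,z0,z1]),(z1,[y4,z0,y2,y1,z0,z4]),(z1,[z2,z0,z1,z2,z3,y2]),(z1,[y7,y3,y5,y10,y3,z10])],.ref k6 k0 [(z1,[y8,z3,
    z12]),(z1,[z1]),(z1,[z4,z0,y6,z3]),(z1,[y2,z0,z3,z0,z3]),(z1,[z7,y3,y12,y3,y3,z3])],.ref k6 k0 [(z1,[y4,z3,z4,
    z4]),(z2,[z1,z0,z2,y1]),(z1,[z2,z0,y2,z1]),(z1,[y1,z0,z1,z1,z3]),(z2,[z7,y6,y10,y13,y6,z6])],.ref k6 k0 [(z3,[y8,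
    z9,z4,z16]),(z3,[z1,z0,z4,y2]),(z3,[z4,z0,y2,z1]),(z3,[y2,z0,z1,z4,z9]),(z3,[z7,y9,y8,y23,y9,z9])],
    .ref k6 k0 [(z1,[y2,z1,z0,z0,y2,z2]),(z4,[z1,z1,z6,z0,z1,y1]),(z1,[z1,z1,z0,z3,z1,y1]),(z2,[y1,y1,z0,z0,z5,z1]),
    (z4,[z7,y5,y6,y12,y5,z5])],.ref k6 k0 [(z1,[y8,z3,z4,z8,z8]),(z1,[z1,z0,z1,y1,y1]),(z1,[z4,z0,y2,y1,y4]),(z1,[y2,
    z0,z1,z2,z5]),(z1,[z7,y3,y5,y10,y10,z3])],.ref k6 k0 [(z1,[y4,y1,z0,y4,z0,z4]),(z2,[z1,z1,z3,z1,z0,y1]),(z1,[z2,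
    z2,z0,z5,z0,y2]),(z1,[y1,y1,z0,y1,z3,z1]),(z2,[z7,z1,y3,z1,y6,y1])],.ref k6 k0 [(z1,[z8,z3,y4,z0,y8]),(z1,[y1,z0,
    z2,z0,z1]),(z1,[y4,z0,z2,z3,z4]),(z1,[z2,z0,y1,z0,z1]),(z1,[y7,y3,z2,y3,z4,z3])],.ref k6 k0 [(z1,[y4,y1,z0,y4,y4,
    z4]),(z2,[z1,z1,z3,z1,z1,y1]),(z1,[z2,z2,z0,z5,z2,y2]),(z1,[y1,y1,z0,y1,z2,z1]),(z2,[z7,z1,y3,z1,z1,y1])],
    .ref k6 k0 [(z1,[y2,z3,z0,z6]),(z4,[z1,z0,z6,y3]),(z1,[z1]),(z2,[y1,z0,z0,z3,z6]),(z4,[z7,y12,y6,y33,y12,z12])],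
    .ref k6 k0 [(z5,[y8,z7,y4,z8,y8,z8]),(z5,[z1,z1,z8,y1,z1,y1]),(z5,[z4,z4,z2,z11,z4,y4]),(z5,[y2,y2,y1,z2,z13,z2]),
    (z5,[z7,y8,y4,y22,y8,z8])],.ref k6 k0 [(z1,[z4,z3,z0,z0,y8]),(z2,[y1,z0,z3,z0,z2]),(z1,[y2,z0,z0,z3,z4]),(z1,[z1,
    z0,z0,z0,z1]),(z2,[y7,y6,y3,y6,z8,z6])],.ref k6 k0 [(z1,[y8,y5,y4,y8,z0,z8]),(z1,[z1,z1,z2,z1,z0,y1]),(z1,[z4,z4,
    z2,z7,z0,y4]),(z1,[y2,y2,y1,y2,z3,z2]),(z1,[z7,z4,z2,z4,y3,y4])],.ref k6 k0 [(z1,[z4,z3,z0,z0,y4]),(z2,[y1,z0,z3,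
    z0,z1]),(z1,[y2,z0,z0,z3,z2]),(z1,[z1,z0,z0,z0,z2]),(z2,[y7,y6,y3,y6,z1,z6])],.ref k6 k0 [(z1,[y8,y5,y4,y8,y8,
    z8]),(z1,[z1,z1,z2,z1,z1,y1]),(z1,[z4,z4,z2,z7,z4,y4]),(z1,[y2,y2,y1,y2,z1,z2]),(z1,[z7,z4,z2,z4,z4,y4])]],
    .lp [(nat_lit 4198836960),(nat_lit 4252846024),(nat_lit 4306982400),(nat_lit 4198836960),(nat_lit 4523319360),
    (nat_lit 4415030830)] [(nat_lit 162241200),(nat_lit 162241200),(nat_lit 135236668),(nat_lit 135236668),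
    (nat_lit 108168480),(nat_lit 108168480),(nat_lit 162241200),(nat_lit 162241200),k0,k0,(nat_lit 54144265),
    (nat_lit 54144265)] k0 [[k0,k0,k0,k0,k0,k0,k0,(nat_lit 486554418)],[k0,k0,(nat_lit 594677622),
    (nat_lit 324369612)],[(nat_lit 324369612),k0,k0,k0,(nat_lit 702800826)],[(nat_lit 594677622)],[k0,k0,k0,k0,k0,k0,
    (nat_lit 270308010),k0,k0,k0,(nat_lit 54061602)],[k0,k0,k0,(nat_lit 702800826),k0,k0,k0,k0,k0,k0,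
    (nat_lit 594677622)],[k0,(nat_lit 486554418)],[k0,k0,k0,k0,k0,(nat_lit 270308010),k0,k0,(nat_lit 216246408)],[],
    [k0,k0,k0,k0,k0,k0,(nat_lit 216246408),k0,k0,k0,k0,(nat_lit 54061602)],[k0,k0,k0,k0,k0,k0,k0,k0,
    (nat_lit 54061602)],[k0,k0,k0,k0,(nat_lit 594677622),(nat_lit 54061602)]] (nat_lit 12974784480) k5
    [[(k7,(nat_lit 3604159338)),(k0,(nat_lit 4198836960)),(k4,(nat_lit 4198848078)),(k3,(nat_lit 4225841492)),(k11,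
    (nat_lit 4306933895)),(k8,(nat_lit 4415139762))],[(k6,(nat_lit 3712282542)),(k1,(nat_lit 4198836960)),(k10,
    (nat_lit 4306933895)),(k9,(nat_lit 4361078160)),(k5,(nat_lit 4577279292)),(k2,(nat_lit 4820519114))],[(k5,
    (nat_lit 3685236590)),(k2,(nat_lit 3928476412)),(k1,(nat_lit 4225841492)),(k6,(nat_lit 4225841492)),(k10,
    (nat_lit 4333938427)),(k9,(nat_lit 4874637110))],[(k7,(nat_lit 3523040666)),(k3,(nat_lit 3928476412)),(k4,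
    (nat_lit 4279914212)),(k11,(nat_lit 4333938427)),(k8,(nat_lit 4388082692)),(k0,(nat_lit 4820519114))],[(k3,
    (nat_lit 3685236590)),(k7,(nat_lit 4252909680)),(k11,(nat_lit 4361006615)),(k8,(nat_lit 4415150880)),(k0,
    (nat_lit 4577279292)),(k4,(nat_lit 5009783226))],[(k9,(nat_lit 4144842870)),(k1,(nat_lit 4198848078)),(k6,
    (nat_lit 4252909680)),(k2,(nat_lit 4279914212)),(k10,(nat_lit 4955684237)),(k5,(nat_lit 5009783226))],[(k2,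
    (nat_lit 3523040666)),(k1,(nat_lit 3604159338)),(k5,(nat_lit 4252909680)),(k10,(nat_lit 4360995497)),(k9,
    (nat_lit 4361078160)),(k6,(nat_lit 4469144970))],[(k0,(nat_lit 3712282542)),(k3,(nat_lit 4225841492)),(k4,
    (nat_lit 4252909680)),(k11,(nat_lit 4306933895)),(k7,(nat_lit 4469144970)),(k8,(nat_lit 4577324568))],[(k4,
    (nat_lit 4144842870)),(k11,(nat_lit 4252928687)),(k0,(nat_lit 4361078160)),(k7,(nat_lit 4361078160)),(k8,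
    (nat_lit 4523319360)),(k3,(nat_lit 4874637110))],[(k2,(nat_lit 4388082692)),(k1,(nat_lit 4415139762)),(k5,
    (nat_lit 4415150880)),(k10,(nat_lit 4469175095)),(k9,(nat_lit 4523319360)),(k6,(nat_lit 4577324568))],[(k9,
    (nat_lit 4252928687)),(k1,(nat_lit 4306933895)),(k6,(nat_lit 4306933895)),(k2,(nat_lit 4333938427)),(k10,
    (nat_lit 4360969228)),(k5,(nat_lit 4361006615))],[(k0,(nat_lit 4306933895)),(k3,(nat_lit 4333938427)),(k11,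
    (nat_lit 4360969228)),(k7,(nat_lit 4360995497)),(k8,(nat_lit 4469175095)),(k4,(nat_lit 4955684237))]]
    [] k0
    [[k3,k0,k0,k0,k0,k0],[k2,k0,k0,k1,k0,k0],[k2,k0,k0,k0,k0,k1],[k1,k1,k0,k1,k0,k0],[k1,k1,k0,k0,k0,k1],[k1,k1,k1,k0,
    k0,k0],[k1,k0,k1,k1,k0,k0],[k1,k0,k1,k0,k0,k1],[k1,k0,k0,k2,k0,k0],[k1,k0,k0,k1,k1,k0],[k1,k0,k0,k1,k0,k1],[k0,k3,
    k0,k0,k0,k0],[k0,k2,k1,k0,k0,k0],[k0,k2,k0,k1,k0,k0],[k0,k2,k0,k0,k0,k1],[k0,k1,k1,k1,k0,k0],[k0,k1,k1,k0,k1,k0],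
    [k0,k1,k0,k2,k0,k0],[k0,k1,k0,k1,k0,k1]]
    [.ref k6 k0 [(z1,[z1]),(z8,[y7,z21,z12]),(z2,[y1,z3,z0,z6]),(z4,[z1,y3,z0,z0,z12]),(z8,[y1,y21,y12,y24,y24,z24])],
    .ref k6 k0 [(z3,[z4,z1,z0,z0,y4]),(z6,[y7,z14,z9,z0,z7]),(z3,[y2,z4,z0,z9,z2]),(z3,[z1,y2,z0,z0,z8]),(z6,[y1,y16,
    y9,y18,y17,z18])],.ref k6 k0 [(z3,[z4,z1]),(z6,[y7,z14,z9]),(z3,[y2,z4,z0,z9]),(z3,[z1,y2,z0,z0,z9]),(z6,[y1,y16,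
    y9,y18,y18,z18])],.ref k6 k0 [(z1,[z8,y5,y4,z0,y8]),(z1,[y7,z7,z5,z0,z7]),(z1,[y4,z4,z2,z3,z4]),(z1,[z2,y2,y1,z0,
    z1]),(z1,[y1,y2,y1,y3,y2,z3])],.ref k6 k0 [(z1,[z8,y5,y4]),(z1,[y7,z7,z5]),(z1,[y4,z4,z2,z3]),(z1,[z2,y2,y1,z0,
    z3]),(z1,[y1,y2,y1,y3,y3,z3])],.ref k6 k0 [(z1,[y8,z11,z4,z8]),(z1,[z7,y7,y2,y7]),(z1,[z4,y4,y2,y1]),(z1,[y2,z2,
    z1,z2,z3]),(z1,[z1,y4,y2,y4,y3,z3])],.ref k6 k0 [(z1,[z4,y1,z0,y4,y4]),(z2,[y7,z7,z3,z7,z7]),(z1,[y2,z2,z0,z5,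
    z2]),(z1,[z1,y1,z0,y1,z2]),(z2,[y1,y5,y3,y5,y5,z6])],.ref k6 k0 [(z1,[z4,y1,z0,y4]),(z2,[y7,z7,z3,z7]),(z1,[y2,z2,
    z0,z5]),(z1,[z1,y1,z0,y1,z3]),(z2,[y1,y5,y3,y5,y6,z6])],.ref k6 k0 [(z1,[z2,z1,z0,z0,y4]),(z4,[y7,z7,z6,z0,z14]),
    (z1,[y1,z1,z0,z3,z2]),(z2,[z1,y1,z0,z0,z4]),(z4,[y1,y11,y6,y12,y10,z12])],.ref k6 k0 [(z3,[z8,z9,z4,z8,z0,y8]),
    (z3,[y7,z0,z1,y7,z0,z7]),(z3,[y4,z0,y2,z5,z0,z4]),(z3,[z2,z0,z1,z2,z9,y2]),(z3,[y1,y9,y5,y10,y9,z10])],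
    .ref k6 k0 [(z1,[z2,z1,z0,z0,y2]),(z4,[y7,z7,z6,z0,z7]),(z1,[y1,z1,z0,z3,z1]),(z2,[z1,y1,z0,z0,z5]),(z4,[y1,y11,
    y6,y12,y11,z12])],.ref k6 k0 [(z7,[y8,z21,z12]),(z1,[z1]),(z7,[z4,z0,y6,z21]),(z7,[y2,z0,z3,z0,z21]),(z7,[z1,y21,
    y12,y21,y21,z21])],.ref k6 k0 [(z3,[y4,z9,z4,z4]),(z6,[z7,z0,z2,y7]),(z3,[z2,z0,y2,z7]),(z3,[y1,z0,z1,z1,z9]),(z6,
    [z1,y18,y10,y19,y18,z18])],.ref k6 k0 [(z1,[y2,z3,z2,z0,z2]),(z4,[z7,z0,y1,z0,y7]),(z1,[z1,z0,y1,z3,y1]),(z2,[y1,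
    z0,z1,z0,z7]),(z4,[z1,y12,y7,y12,y13,z12])],.ref k6 k0 [(z1,[y2,z3,z2]),(z4,[z7,z0,y1]),(z1,[z1,z0,y1,z3]),(z2,
    [y1,z0,z1,z0,z6]),(z4,[z1,y12,y7,y12,y12,z12])],.ref k6 k0 [(z3,[y8,z9,z4,z8,z8]),(z3,[z7,z0,z1,y7,y7]),(z3,[z4,
    z0,y2,z5,y4]),(z3,[y2,z0,z1,z2,z11]),(z3,[z1,y9,y5,y10,y10,z9])],.ref k6 k0 [(z1,[y2,z1,z0,z0,y2,z2]),(z4,[z7,z7,
    z6,z0,z7,y7]),(z1,[z1,z1,z0,z3,z1,y1]),(z2,[y1,y1,z0,z0,z5,z1]),(z4,[z1,y11,y6,y12,y11,z11])],.ref k6 k0 [(z1,[y8,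
    z3,z4,z0,z16]),(z1,[z7,z0,y2,z0,y14]),(z1,[z4,z0,y2,z3,y8]),(z1,[y2,z0,z1,z0,z7]),(z1,[z1,y3,y2,y3,y5,z3])],
    .ref k6 k0 [(z1,[y8,z3,z4,z0,z8]),(z1,[z7,z0,y2,z0,y7]),(z1,[z4,z0,y2,z3,y4]),(z1,[y2,z0,z1,z0,z5]),(z1,[z1,y3,y2,
    y3,y4,z3])]],
    .lp [(nat_lit 344),(nat_lit 276),(nat_lit 304),(nat_lit 366),(nat_lit 308),(nat_lit 320)] [k11,k11,k45,k45,k31,k31,k0,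
    k0,k37,k21,k23,k23] k0 [[k0,k0,k84,k2,k0,k0,k0,k0,k0,k0,k96],[k0,k0,k0,k0,k0,k0,k60,k0,k0,k0,k18],[k0,k2,k0,k0,k0,
    k50,k0,k0,k0,k14],[k0,k84,k0,k0,k0,k40],[k0,k0,k40,k50,k0,k0,k0,k24],[k0,k0,k0,k0,k0,k0,k0,k88,k0,k0,k58,k4],[k0,
    k0,k0,k0,k88,k24],[k60,k0,k0,k0,k0,k0,k0,k0,k30],[k0,k0,k0,k14,k0,k0,k0,k0,k0,k0,k0,k30],[k0,k0,k0,k0,k0,k0,k30],
    [k0,k0,k0,k0,k4,k0,k0,k0,k0,k30],[k18,k96,k0,k0,k58]] (nat_lit 960) k5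
    [[(k0,(nat_lit 248)),(k3,(nat_lit 292)),(k7,(nat_lit 297)),(k8,(nat_lit 318)),(k4,(nat_lit 328)),(k11,
    (nat_lit 362))],[(k5,(nat_lit 240)),(k1,(nat_lit 248)),(k2,(nat_lit 308)),(k9,(nat_lit 334)),(k10,(nat_lit 350)),
    (k6,(nat_lit 415))],[(k9,(nat_lit 240)),(k1,(nat_lit 292)),(k5,(nat_lit 292)),(k6,(nat_lit 321)),(k2,
    (nat_lit 360)),(k10,(nat_lit 394))],[(k4,(nat_lit 240)),(k8,(nat_lit 270)),(k11,(nat_lit 298)),(k0,(nat_lit 308)),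
    (k3,(nat_lit 360)),(k7,(nat_lit 361))],[(k0,(nat_lit 240)),(k4,(nat_lit 264)),(k3,(nat_lit 292)),(k8,
    (nat_lit 298)),(k11,(nat_lit 326)),(k7,(nat_lit 385))],[(k2,(nat_lit 240)),(k5,(nat_lit 264)),(k6,(nat_lit 311)),
    (k1,(nat_lit 328)),(k10,(nat_lit 370)),(k9,(nat_lit 402))],[(k6,(nat_lit 278)),(k1,(nat_lit 297)),(k10,
    (nat_lit 339)),(k2,(nat_lit 361)),(k9,(nat_lit 369)),(k5,(nat_lit 385))],[(k7,(nat_lit 278)),(k4,(nat_lit 311)),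
    (k3,(nat_lit 321)),(k11,(nat_lit 343)),(k8,(nat_lit 359)),(k0,(nat_lit 415))],[(k3,(nat_lit 240)),(k11,
    (nat_lit 292)),(k8,(nat_lit 308)),(k0,(nat_lit 334)),(k7,(nat_lit 369)),(k4,(nat_lit 402))],[(k2,(nat_lit 270)),
    (k10,(nat_lit 276)),(k5,(nat_lit 298)),(k9,(nat_lit 308)),(k1,(nat_lit 318)),(k6,(nat_lit 359))],[(k9,
    (nat_lit 292)),(k2,(nat_lit 298)),(k10,(nat_lit 320)),(k5,(nat_lit 326)),(k6,(nat_lit 343)),(k1,(nat_lit 362))],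
    [(k8,(nat_lit 276)),(k11,(nat_lit 320)),(k7,(nat_lit 339)),(k0,(nat_lit 350)),(k4,(nat_lit 370)),(k3,
    (nat_lit 394))]]
    [] k0
    [[k3,k0,k0,k0,k0,k0],[k2,k1,k0,k0,k0,k0],[k2,k0,k1,k0,k0,k0],[k2,k0,k0,k0,k1,k0],[k1,k1,k1,k0,k0,k0],[k1,k1,k0,k0,
    k1,k0],[k1,k1,k0,k0,k0,k1],[k1,k0,k2,k0,k0,k0],[k1,k1,k0,k1,k0,k0],[k1,k0,k1,k1,k0,k0],[k0,k2,k1,k0,k0,k0],[k0,k2,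
    k0,k0,k1,k0],[k0,k1,k2,k0,k0,k0],[k0,k1,k1,k1,k0,k0],[k0,k1,k0,k1,k0,k1],[k0,k1,k1,k0,k1,k0],[k0,k1,k0,k0,k2,k0],
    [k0,k1,k0,k0,k1,k1],[k0,k0,k3,k0,k0,k0],[k0,k0,k0,k3,k0,k0],[k0,k0,k0,k0,k3,k0],[k0,k0,k0,k0,k2,k1],[k0,k0,k0,k0,
    k1,k2]]
    [.ref k6 k0 [(z1,[z1]),(z1,[z4,y12,z3]),(z1,[y4,z12,z0,z1]),(z1,[y2,z6,z0,z0,z3]),(z1,[z1,y3])],.ref k6 k0 [(z2,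
    [z1,z4,y1]),(z1,[z2,y4,z1]),(z1,[y2,z4,z2,z1]),(z1,[y1,z2,z1,z0,z3]),(z2,[z1,y2,y1])],.ref k6 k0 [(z2,[y3,z12,z0,
    z1]),(z1,[y6,z12,z3,z2]),(z1,[z6,y12,z0,y1]),(z1,[z3,y6,z0,y1,z3]),(z2,[y3,z6,z0,z1])],.ref k6 k0 [(z1,[z1,z1]),
    (z1,[z4,y8,z3]),(z1,[y4,z8,z0,z1]),(z1,[y2,z4,z0,z0,z3]),(z1,[z1,y2])],.ref k6 k0 [(z1,[z3,z0,y3,y1]),(z1,[z12,
    y12,y9,y4]),(z1,[y12,z12,z12,z5]),(z1,[y6,z6,z6,z2,z3]),(z1,[z3,y3,y3,y1])],.ref k6 k0 [(z2,[z1,z5,y1]),(z1,[z2,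
    y2,z1]),(z1,[y2,z2,z2,z1]),(z1,[y1,z1,z1,z0,z3]),(z2,[z1,y1,y1])],.ref k6 k0 [(z5,[z3,z15,z0,z1,z3,y3]),(z5,[z12,
    z0,z15,z4,z12,y12]),(z5,[y12,z0,z0,z1,y12,z12]),(z5,[y6,z0,z0,y2,z9,z6]),(z5,[z3,z0,z0,z1,z3,y3])],
    .ref k6 k0 [(z7,[y3,z24,z0,z2]),(z7,[y12,z12,z21,z8]),(z7,[z12,y12,z0,y1]),(z7,[z6,y6,z0,y4,z21]),(z7,[y3,z3,z0,
    z2])],.ref k6 k0 [(z1,[z1,z2,y1,z0,y1]),(z1,[z4,y4,y1,z0,y4]),(z1,[y4,z4,z4,z1,z4]),(z1,[y2,z2,z2,z0,z5]),(z1,[z1,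
    y1,y1,z0,y1])],.ref k6 k0 [(z5,[y3,z18,z0,z1,z3]),(z5,[y12,z12,z15,z4,z12]),(z5,[z12,y12,z0,z1,y12]),(z5,[z6,y6,
    z0,y2,z9]),(z5,[y3,z3,z0,z1,z3])],.ref k6 k0 [(z4,[z3,z12,y6,y1]),(z1,[z3,z0,y3,y1]),(z1,[y3,z0,z6,z2]),(z2,[y3,
    z0,z6,z1,z6]),(z4,[z3,z0,y6,y1])],.ref k6 k0 [(z3,[z1,z9,y2]),(z3,[z4,z0,z1]),(z3,[y4,z0,z8,z3]),(z3,[y2,z0,z4,z0,
    z9]),(z3,[z1,z0,y2])],.ref k6 k0 [(z4,[y3,z12,z3,z2]),(z1,[y3,z0,z6,z2]),(z1,[z3,z0,y3,y1]),(z2,[z3,z0,y3,y2,z6]),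
    (z4,[y3,z0,z3,z2])],.ref k6 k0 [(z2,[y3,z6,z3,z1,z3]),(z1,[y6,z0,z9,z2,z6]),(z1,[z6,z0,y6,y1,y6]),(z1,[z3,z0,y3,
    y1]),(z2,[y3,z0,z3,z1,z3])],.ref k6 k0 [(z2,[z3,z9,z0,z1,z0,y3]),(z1,[z6,z6,z3,z2,z0,y6]),(z1,[y6,y6,z0,y1,z0,
    z6]),(z1,[y3,y3,z0,y1,z3,z3]),(z2,[z3,z3,z0,z1,z0,y3])],.ref k6 k0 [(z1,[z3,z3,y3,y1]),(z1,[z12,z0,y9,y4]),(z1,
    [y12,z0,z12,z5]),(z1,[y6,z0,z6,z2,z3]),(z1,[z3,z0,y3,y1])],.ref k6 k0 [(z2,[z1,z6,y1]),(z1,[z2,z0,z1]),(z1,[y2,z0,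
    z2,z1]),(z1,[y1,z0,z1,z0,z3]),(z2,[z1,z0,y1])],.ref k6 k0 [(z5,[z3,z18,z0,z1,z3,y3]),(z5,[z12,z12,z15,z4,z12,
    y12]),(z5,[y12,y12,z0,z1,y12,z12]),(z5,[y6,y6,z0,y2,z9,z6]),(z5,[z3,z3,z0,z1,z3,y3])],.ref k6 k0 [(z4,[y1,z12,z0,
    z1]),(z1,[y1,z0,z3,z1]),(z1,[z1]),(z2,[z1,z0,z0,y1,z6]),(z4,[y1,z0,z0,z1])],.ref k6 k0 [(z2,[y1,z6,z0,z0,z3]),(z1,
    [y2,z0,z3,z0,z6]),(z1,[z2,z0,z0,z1,y6]),(z1,[z1]),(z2,[y1,z0,z0,z0,z3])],.ref k6 k0 [(z1,[z1,z3]),(z1,[z4,z0,z3]),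
    (z1,[y4,z0,z0,z1]),(z1,[y2,z0,z0,z0,z3]),(z1,[z1])],.ref k6 k0 [(z2,[z3,z9,z3,z1,z3,y3]),(z1,[z6,z6,z9,z2,z6,y6]),
    (z1,[y6,y6,y6,y1,y6,z6]),(z1,[y3,y3,y3,y1,z0,z3]),(z2,[z3,z3,z3,z1,z3,y3])],.ref k6 k0 [(z1,[z3,z9,z6,z2,z6,y6]),
    (z1,[z12,z24,z27,z8,z24,y24]),(z1,[y12,y24,y24,y7,y24,z24]),(z1,[y6,y12,y12,y4,y9,z12]),(z1,[z3,z6,z6,z2,z6,y6])]],
    .lp [k160,k154,k164,k166,k172,k142] [k6,k6,k9,k9,k4,k4,k3,k3,k0,k0,k15,k15] k0 [[k0,k0,k22,k10],[k0,k0,k0,k0,k0,k0,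
    k12,k6],[k0,k10,k0,k0,k0,k0,k0,k0,k2,k20],[k0,k22],[k0,k0,k0,k0,k0,k0,k0,k14,k0,k0,k6],[k0,k0,k0,k0,k0,k0,k0,k0,
    k0,k0,k18],[k6,k0,k0,k0,k0,k14],[k12,k0,k0,k0,k0,k0,k0,k0,k0,k30],[k0,k0,k0,k20,k0,k0,k30,k0,k0,k0,k0,k18],[k0,k0,
    k0,k2,k0,k0,k0,k0,k0,k0,k0,k6],[k0,k0,k0,k0,k0,k0,k0,k0,k6,k18],[k0,k0,k0,k0,k18,k6]] (nat_lit 480) k5
    [[(k7,k145),(k4,k156),(k3,k157),(k0,k160),(k11,k169),(k8,k172)],[(k5,k140),(k2,k147),(k10,k151),(k1,k160),(k9,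
    k172),(k6,k175)],[(k10,k148),(k9,k151),(k6,k154),(k1,k157),(k5,k169),(k2,k176)],[(k8,k143),(k11,k146),(k0,k147),
    (k4,k159),(k7,k160),(k3,k176)],[(k0,k140),(k4,k164),(k7,k165),(k3,k169),(k8,k170),(k11,k173)],[(k6,k151),(k1,
    k156),(k2,k159),(k5,k164),(k9,k168),(k10,k171)],[(k1,k145),(k2,k160),(k10,k160),(k5,k165),(k6,k166),(k9,k183)],
    [(k4,k151),(k3,k154),(k7,k166),(k8,k169),(k0,k175),(k11,k184)],[(k8,k142),(k3,k151),(k11,k157),(k4,k168),(k0,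
    k172),(k7,k183)],[(k10,k139),(k9,k142),(k2,k143),(k6,k169),(k5,k170),(k1,k172)],[(k10,k136),(k2,k146),(k9,k157),
    (k1,k169),(k5,k173),(k6,k184)],[(k11,k136),(k8,k139),(k3,k148),(k0,k151),(k7,k160),(k4,k171)]]
    [] k0
    [[k2,k1,k0,k0,k0,k0],[k2,k0,k1,k0,k0,k0],[k1,k1,k1,k0,k0,k0],[k1,k1,k0,k0,k1,k0],[k1,k1,k0,k0,k0,k1],[k1,k0,k2,k0,
    k0,k0],[k1,k1,k0,k1,k0,k0],[k1,k0,k1,k1,k0,k0],[k1,k0,k0,k0,k0,k2],[k0,k2,k0,k0,k1,k0],[k0,k2,k0,k0,k0,k1],[k0,k1,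
    k1,k1,k0,k0],[k0,k1,k0,k1,k0,k1],[k0,k1,k0,k0,k2,k0],[k0,k1,k0,k0,k1,k1],[k0,k1,k0,k0,k0,k2],[k0,k0,k0,k0,k3,k0],
    [k0,k0,k0,k0,k2,k1],[k0,k0,k0,k0,k1,k2],[k0,k0,k0,k0,k0,k3]]
    [.ref k17 k0 [(z2,[z1,z4,y1]),(z1,[z2,y4,z1]),(z1,[y2,z4,z2,z3]),(z1,[y1,y1,y2,y3,z3])],.ref k44 k2 [(z1,[z0,y4,
    z1]),(z1,[z1]),(z1,[z0,z1,y1,y1,z1]),(z1,[z0,y1])],.ref k25 k2 [(z1,[z0,y4,z1]),(z1,[z1,z4,y1]),(z1,[z0,z1,y1,y1,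
    z1]),(z1,[z0,y1])],.ref k17 k0 [(z2,[z1,z5,y1]),(z1,[z2,y2,z1]),(z1,[y2,z2,z2,z3]),(z1,[y1,y2,y2,y3,z3])],
    .ref k65 k2 [(z1,[z0,y4,z1]),(z1,[y1,z0,z1,z1]),(z1,[z0,z1,y1,y1,z1]),(z1,[z0,y1])],.ref k66 k2 [(z1,[z0,y4,z1]),
    (z1,[z1]),(z1,[z0,z1,y1,y1,z1]),(z1,[z0,y1])],.ref k17 k0 [(z1,[z1,z3,z0,z1,y1]),(z1,[z4,z0,z3,z4,y4]),(z1,[y4,z0,
    z0,y1,z4]),(z1,[y2,y3,y3,y5,z5])],.ref k65 k2 [(z1,[z0,y4,z1]),(z1,[z1,y1,z1,z1,y1]),(z1,[z0,z1,y1,y1,z1]),(z1,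
    [z0,y1])],.ref k67 k2 [(z1,[z0,y4,z1]),(z1,[y1,z8,z0,z2]),(z1,[z0,z1,y1,y1,z1]),(z1,[z0,y1])],.ref k17 k0 [(z3,
    [z1,z9,y2]),(z3,[z4,z0,z1]),(z3,[y4,z0,z8,z9]),(z3,[y2,y9,y5,y9,z9])],.ref k11 k2 [(z1,[z0,y4,z1]),(z1,[y1,y4,z2,
    z1]),(z1,[z0,z1,y1,y1,z1]),(z1,[z0,y1])],.ref k44 k2 [(z1,[z0,y4,z1]),(z1,[z1,z3,z0,z1,y1]),(z1,[z0,z1,y1,y1,z1]),
    (z1,[z0,y1])],.ref k44 k2 [(z1,[z0,y4,z1]),(z1,[y1,z1,z0,z0,z1]),(z1,[z0,z1,y1,y1,z1]),(z1,[z0,y1])],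
    .ref k17 k0 [(z2,[z1,z6,y1]),(z1,[z2,z0,z1]),(z1,[y2,z0,z2,z3]),(z1,[y1,y3,y2,y3,z3])],.ref k65 k2 [(z1,[z0,y4,
    z1]),(z1,[y1,y1,z1,z1]),(z1,[z0,z1,y1,y1,z1]),(z1,[z0,y1])],.ref k44 k2 [(z1,[z0,y4,z1]),(z2,[y1,z4,z1,z2]),(z1,
    [z0,z1,y1,y1,z1]),(z1,[z0,y1])],.ref k17 k0 [(z1,[z1,z3]),(z1,[z4,z0,z3]),(z1,[y4,z0,z0,z3]),(z1,[y2,y3,y3,y3,
    z3])],.ref k44 k2 [(z1,[z0,y4,z1]),(z1,[y1,z2,z0,z1]),(z1,[z0,z1,y1,y1,z1]),(z1,[z0,y1])],.ref k67 k2 [(z1,[z0,y4,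
    z1]),(z1,[y1,z7,z0,z2]),(z1,[z0,z1,y1,y1,z1]),(z1,[z0,y1])],.ref k68 k0 [(z1,[z0,z1]),(z1,[z0,z0,z1]),(z1,[y1,z0,
    z0,z3]),(z1,[z0,y1,y1,y1,z1])]],
    .leafM k6 [k2,k3,k4,k5,k0,k1] [(z1,[z1,z1])] []]

noncomputable def cT6_2_n1_1 : List TN :=
  [.leafM k1 [k0,k1,k2,k3,k4,k5] [(z1,[y1,z0,y1,z1]),(z1,[z1,z0,z1])] [],
    .leafM k6 [k0,k1,k2,k3,k4,k5] [(z1,[y1,y1,y1,z0,z1])] [],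
    .lp [(nat_lit 614),(nat_lit 614),(nat_lit 664),(nat_lit 638),(nat_lit 658),(nat_lit 648)] [k25,k25,k25,k25,k0,k0,k13,
    k13,k3,k3,k8,k8] k0 [[k0,k0,k26,k34,k0,k0,k0,k0,k0,k0,k18],[k0,k0,k0,k0,k0,k0,k0,k0,k0,k0,k62],[k0,k34],[k0,k26],
    [k0,k0,k0,k0,k0,k0,k0,k10,k0,k0,k0,k40],[k0,k0,k0,k0,k0,k0,k0,k10,k0,k0,k0,k4],[k0,k0,k0,k0,k10,k10],[k0,k0,k0,k0,
    k0,k0,k0,k0,k10,k10],[k0,k0,k0,k0,k0,k0,k10],[k0,k0,k0,k0,k0,k0,k10],[k0,k0,k0,k0,k4,k40],[k62,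
    k18]] (nat_lit 1920) k5
    [[(k3,(nat_lit 552)),(k0,(nat_lit 596)),(k11,(nat_lit 631)),(k8,(nat_lit 636)),(k4,(nat_lit 643)),(k7,
    (nat_lit 666))],[(k2,(nat_lit 580)),(k1,(nat_lit 596)),(k5,(nat_lit 613)),(k6,(nat_lit 626)),(k9,(nat_lit 636)),
    (k10,(nat_lit 693))],[(k1,(nat_lit 552)),(k6,(nat_lit 626)),(k9,(nat_lit 636)),(k2,(nat_lit 640)),(k10,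
    (nat_lit 649)),(k5,(nat_lit 673))],[(k0,(nat_lit 580)),(k7,(nat_lit 626)),(k11,(nat_lit 631)),(k8,(nat_lit 636)),
    (k4,(nat_lit 639)),(k3,(nat_lit 640))],[(k0,(nat_lit 613)),(k7,(nat_lit 651)),(k11,(nat_lit 656)),(k8,
    (nat_lit 661)),(k4,(nat_lit 664)),(k3,(nat_lit 673))],[(k10,(nat_lit 616)),(k2,(nat_lit 639)),(k6,(nat_lit 641)),
    (k1,(nat_lit 643)),(k5,(nat_lit 664)),(k9,(nat_lit 671))],[(k2,(nat_lit 626)),(k6,(nat_lit 628)),(k10,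
    (nat_lit 639)),(k5,(nat_lit 651)),(k9,(nat_lit 658)),(k1,(nat_lit 666))],[(k0,(nat_lit 626)),(k3,(nat_lit 626)),
    (k7,(nat_lit 628)),(k4,(nat_lit 641)),(k11,(nat_lit 653)),(k8,(nat_lit 658))],[(k0,(nat_lit 636)),(k3,
    (nat_lit 636)),(k11,(nat_lit 643)),(k8,(nat_lit 648)),(k7,(nat_lit 658)),(k4,(nat_lit 671))],[(k1,(nat_lit 636)),
    (k2,(nat_lit 636)),(k9,(nat_lit 648)),(k10,(nat_lit 653)),(k6,(nat_lit 658)),(k5,(nat_lit 661))],[(k1,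
    (nat_lit 631)),(k2,(nat_lit 631)),(k9,(nat_lit 643)),(k10,(nat_lit 648)),(k6,(nat_lit 653)),(k5,(nat_lit 656))],
    [(k4,(nat_lit 616)),(k7,(nat_lit 639)),(k11,(nat_lit 648)),(k3,(nat_lit 649)),(k8,(nat_lit 653)),(k0,
    (nat_lit 693))]]
    [] k0
    [[k3,k0,k0,k0,k0,k0],[k2,k1,k0,k0,k0,k0],[k2,k0,k1,k0,k0,k0],[k2,k0,k0,k1,k0,k0],[k2,k0,k0,k0,k1,k0],[k1,k2,k0,k0,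
    k0,k0],[k1,k1,k1,k0,k0,k0],[k1,k1,k0,k1,k0,k0],[k1,k1,k0,k0,k1,k0],[k1,k1,k0,k0,k0,k1],[k1,k0,k1,k0,k0,k1],[k1,k0,
    k0,k1,k0,k1],[k0,k2,k0,k1,k0,k0],[k0,k2,k0,k0,k1,k0],[k0,k1,k1,k1,k0,k0],[k0,k1,k0,k2,k0,k0],[k0,k1,k0,k1,k0,k1],
    [k0,k0,k0,k3,k0,k0]]
    [.ref k6 k0 [(z1,[z1]),(z1,[z0,z0,z1]),(z2,[y1,z3,z0,z6]),(z2,[y1,z3,z0,z0,z6]),(z4,[y1,y9,y4,y12,y12,z12])],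
    .ref k6 k0 [(z2,[z3,z0,y1]),(z1,[z0,z0,z1]),(z4,[y3,z6,z1,z12]),(z4,[y3,z6,z1,z0,z12]),(z8,[y3,y18,y7,y24,y24,
    z24])],.ref k6 k0 [(z1,[z2,y1,z0,y2]),(z1,[z0,z0,z1]),(z1,[y1,z2,z0,z4]),(z1,[y1,z2,z0,z1,z3]),(z2,[y1,y4,y2,y5,
    y6,z6])],.ref k6 k0 [(z1,[z2,y1,z0,z0,y2]),(z1,[z0,z0,z1]),(z1,[y1,z2,z0,z3,z1]),(z1,[y1,z2,z0,z0,z4]),(z2,[y1,y4,
    y2,y6,y5,z6])],.ref k6 k0 [(z7,[z12,z9,z4,z12,z12,y12]),(z1,[z0,z0,z1]),(z7,[y6,z6,y2,z15,y6,z6]),(z7,[y6,z6,y2,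
    y6,z15,z6]),(z7,[y3,y18,y8,y24,y24,z24])],.ref k6 k0 [(z1,[z3,z0,y2]),(z1,[z0,z0,z1]),(z2,[y3,z3,z2,z6]),(z2,[y3,
    z3,z2,z0,z6]),(z4,[y3,y9,y2,y12,y12,z12])],.ref k6 k0 [(z1,[z6,y3,y2,y6]),(z1,[z0,z0,z1]),(z1,[y3,z3,z1,z6]),(z1,
    [y3,z3,z1,z3,z3]),(z2,[y3,y3,y1,y3,y6,z6])],.ref k6 k0 [(z1,[z6,y3,y2,z0,y6]),(z1,[z0,z0,z1]),(z1,[y3,z3,z1,z3,
    z3]),(z1,[y3,z3,z1,z0,z6]),(z2,[y3,y3,y1,y6,y3,z6])],.ref k6 k0 [(z1,[z4,z3,z0,z4,z4,y4]),(z1,[z0,z0,z1]),(z1,[y2,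
    z0,z0,z1,y2,z2]),(z1,[y2,z0,z0,y2,z1,z2]),(z1,[y1,y3,y1,y4,y4,z4])],.ref k6 k0 [(z5,[z12,z3,y4]),(z1,[z0,z0,z1]),
    (z5,[y6,z6,z2,z15]),(z5,[y6,z6,z2,z0,z15]),(z5,[y3,y12,y4,y15,y15,z15])],.ref k6 k0 [(z1,[z4,y1,z0,y4]),(z1,[z0,
    z0,z1]),(z1,[y2,z2,z0,z5]),(z1,[y2,z2,z0,z2,z3]),(z1,[y1,y2,y1,y2,y3,z3])],.ref k6 k0 [(z1,[z4,y1,z0,z0,y4]),(z1,
    [z0,z0,z1]),(z1,[y2,z2,z0,z3,z2]),(z1,[y2,z2,z0,z0,z5]),(z1,[y1,y2,y1,y3,y2,z3])],.ref k6 k0 [(z1,[y6,z3,z4,z0,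
    z6]),(z1,[z0,z0,z1]),(z1,[z3,z0,y2,z3,y3]),(z1,[z3,z0,y2]),(z2,[z3,y6,y4,y6,y9,z6])],.ref k6 k0 [(z1,[y12,y9,z4,
    y12,y12,z12]),(z1,[z0,z0,z1]),(z1,[z6,z6,y2,z9,z6,y6]),(z1,[z6,z6,y2,z6,z9,y6]),(z1,[z3,z0,y2])],.ref k6 k0 [(z1,
    [y3,z3,z1,z3,z3]),(z1,[z0,z0,z1]),(z2,[z3,z0,y1,z3,y3]),(z2,[z3,z0,y1,y3,z3]),(z4,[z3,y12,y5,y15,y15,z12])],
    .ref k6 k0 [(z1,[y3,z3,z1,z0,z6]),(z1,[z0,z0,z1]),(z2,[z3,z0,y1,z6,y6]),(z2,[z3,z0,y1]),(z4,[z3,y12,y5,y12,y18,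
    z12])],.ref k6 k0 [(z1,[y12,z3,z4,z0,z12]),(z1,[z0,z0,z1]),(z1,[z6,z0,y2,z3,y6]),(z1,[z6,z0,y2,z0,y3]),(z1,[z3,y3,
    y2,y3,y6,z3])],.ref k6 k0 [(z1,[y2,z3,z0,z0,z6]),(z1,[z0,z0,z1]),(z1,[z1,z0,z0,z3,y3]),(z1,[z1]),(z2,[z1,y6,y2,y6,
    y9,z6])]],
    .lp [k146,k144,k170,k158,k180,k160] [k17,k17,k18,k18,k5,k5,k11,k11,k0,k0,k10,k10] k0 [[k0,k0,k0,k22,k0,k0,k0,k32,k0,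
    k0,k2],[k0,k0,k0,k20,k0,k0,k0,k10],[k20,k22],[k0,k0,k0,k0,k4,k0,k0,k0,k0,k4],[k0,k0,k0,k0,k0,k0,k30,k8,k0,k0,k0,
    k20],[k0,k0,k4],[k10,k32,k0,k0,k0,k8],[k0,k0,k0,k0,k0,k30,k0,k0,k6,k16],[k0,k0,k4,k0,k0,k0,k16],[k0,k0,k0,k0,k0,
    k0,k6],[k0,k0,k0,k0,k0,k20],[k0,k2]] (nat_lit 480) k5
    [[(k0,k144),(k3,k145),(k11,k153),(k4,k158),(k8,k163),(k7,k172)],[(k6,k120),(k2,k123),(k1,k144),(k10,k153),(k9,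
    k173),(k5,k178)],[(k2,k124),(k6,k141),(k1,k145),(k10,k154),(k5,k179),(k9,k194)],[(k0,k123),(k3,k124),(k7,k151),
    (k11,k156),(k4,k161),(k8,k162)],[(k7,k160),(k11,k165),(k4,k170),(k8,k171),(k0,k178),(k3,k179)],[(k9,k145),(k10,
    k145),(k6,k156),(k1,k158),(k2,k161),(k5,k170)],[(k2,k151),(k10,k159),(k5,k160),(k1,k172),(k9,k177),(k6,k188)],
    [(k0,k120),(k3,k141),(k4,k156),(k8,k175),(k11,k175),(k7,k188)],[(k4,k145),(k8,k164),(k11,k164),(k0,k173),(k7,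
    k177),(k3,k194)],[(k2,k162),(k1,k163),(k9,k164),(k10,k170),(k5,k171),(k6,k175)],[(k1,k153),(k2,k156),(k10,k160),
    (k9,k164),(k5,k165),(k6,k175)],[(k4,k145),(k0,k153),(k3,k154),(k7,k159),(k11,k160),(k8,k170)]]
    [] k0
    [[k3,k0,k0,k0,k0,k0],[k2,k1,k0,k0,k0,k0],[k2,k0,k0,k1,k0,k0],[k2,k0,k0,k0,k0,k1],[k1,k2,k0,k0,k0,k0],[k1,k1,k0,k1,
    k0,k0],[k1,k1,k0,k0,k0,k1],[k1,k1,k1,k0,k0,k0],[k1,k0,k1,k1,k0,k0],[k1,k0,k1,k0,k0,k1],[k1,k0,k0,k1,k1,k0],[k1,k0,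
    k0,k1,k0,k1],[k1,k0,k0,k0,k0,k2],[k0,k3,k0,k0,k0,k0],[k0,k2,k1,k0,k0,k0],[k0,k2,k0,k1,k0,k0],[k0,k2,k0,k0,k0,k1],
    [k0,k1,k1,k1,k0,k0],[k0,k1,k0,k1,k0,k1],[k0,k1,k0,k0,k0,k2],[k0,k0,k1,k0,k0,k2]]
    [.ref k6 k0 [(z1,[z1]),(z1,[z1,y3,z3]),(z4,[z1,y3,z0,z12]),(z2,[y1,z3,z0,z0,z6]),(z1,[y2,z3,y3,y3,y3,z3])],
    .ref k6 k0 [(z1,[z1,z1,y1]),(z1,[z1,y2,z2]),(z4,[z1,y2,y1,z12]),(z2,[y1,z2,z1,z0,z6]),(z1,[y2,z1,y1,y3,y3,z3])],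
    .ref k6 k0 [(z1,[z2,y1,z0,z0,y2]),(z1,[z2,y4,z3,z0,y2]),(z2,[z1,y2,z0,z6,y1]),(z1,[y1,z2,z0,z0,z4]),(z1,[y4,z5,y3,
    y3,z1,z3])],.ref k6 k0 [(z3,[z4,z1]),(z3,[z4,y8,z9]),(z3,[z1,y2,z0,z9]),(z3,[y2,z4,z0,z0,z9]),(z3,[y8,z7,y9,y9,y9,
    z9])],.ref k6 k0 [(z1,[z1,z2,y2]),(z1,[z1,y1,z1]),(z4,[z1,y1,y2,z12]),(z2,[y1,z1,z2,z0,z6]),(z1,[y2,y1,z1,y3,y3,
    z3])],.ref k6 k0 [(z1,[z2,z1,y2,z0,y2]),(z1,[z2,y2,z1,z0,y2]),(z2,[z1,y1,y1,z6,y1]),(z1,[y1,z1,z1,z0,z4]),(z1,[y4,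
    z1,z1,y3,z1,z3])],.ref k6 k0 [(z3,[z4,z5,y4]),(z3,[z4,y4,z5]),(z3,[z1,y1,y1,z9]),(z3,[y2,z2,z2,z0,z9]),(z3,[y8,y1,
    y1,y9,y9,z9])],.ref k6 k0 [(z3,[z4,z5,y4,y4]),(z3,[z4,y4,z5,y4]),(z3,[z1,y1,y1,z8]),(z3,[y2,z2,z2,z2,z9]),(z3,[y8,
    y1,y1,y1,y9,z9])],.ref k6 k0 [(z1,[z4,y1,z0,y4,y4]),(z1,[z4,y4,z3,y4,y4]),(z1,[z1,y1,z0,z2,y1]),(z1,[y2,z2,z0,z2,
    z5]),(z1,[y8,z5,y3,z5,z5,z3])],.ref k6 k0 [(z1,[z2,z1,z0,y2]),(z1,[z2,y2,z3,y2]),(z2,[z1,y1,z0,z5]),(z1,[y1,z1,z0,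
    z1,z3]),(z1,[y4,z1,y3,z1,y3,z3])],.ref k6 k0 [(z1,[y2,z3,y2,y2,z0,z2]),(z1,[y2,z0,z1,y2,z0,z2]),(z2,[y1,z0,y1,z5,
    z0,z1]),(z1,[z1,z0,z1,z1,z3,y1]),(z1,[z4,y3,z1,z1,y3,y1])],.ref k6 k0 [(z1,[z4,y1,z0,z0,y4]),(z1,[z4,y4,z3,z0,
    y4]),(z1,[z1,y1,z0,z3,y1]),(z1,[y2,z2,z0,z0,z5]),(z1,[y8,z5,y3,y3,z5,z3])],.ref k6 k0 [(z1,[z2,z1]),(z1,[z2,y2,
    z3]),(z2,[z1,y1,z0,z6]),(z1,[y1,z1,z0,z0,z3]),(z1,[y4,z1,y3,y3,y3,z3])],.ref k6 k0 [(z1,[z1,z3,y3]),(z1,[z1]),(z4,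
    [z1,z0,y3,z12]),(z2,[y1,z0,z3,z0,z6]),(z1,[y2,y3,z3,y3,y3,z3])],.ref k6 k0 [(z3,[z4,z9,y8,y4]),(z3,[z4,z0,z1,y4]),
    (z3,[z1,z0,y2,z8]),(z3,[y2,z0,z4,z2,z9]),(z3,[y8,y9,z7,y1,y9,z9])],.ref k6 k0 [(z1,[z2,z3,y4,z0,y2]),(z1,[z2,z0,
    y1,z0,y2]),(z2,[z1,z0,y2,z6,y1]),(z1,[y1,z0,z2,z0,z4]),(z1,[y4,y3,z5,y3,z1,z3])],.ref k6 k0 [(z3,[z4,z9,y8]),(z3,
    [z4,z0,z1]),(z3,[z1,z0,y2,z9]),(z3,[y2,z0,z4,z0,z9]),(z3,[y8,y9,z7,y9,y9,z9])],.ref k6 k0 [(z1,[z4,z3,y4,y4,y4]),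
    (z1,[z4,z0,y1,y4,y4]),(z1,[z1,z0,y1,z2,y1]),(z1,[y2,z0,z2,z2,z5]),(z1,[y8,y3,z5,z5,z5,z3])],.ref k6 k0 [(z1,[z4,
    z3,y4,z0,y4]),(z1,[z4,z0,y1,z0,y4]),(z1,[z1,z0,y1,z3,y1]),(z1,[y2,z0,z2,z0,z5]),(z1,[y8,y3,z5,y3,z5,z3])],
    .ref k6 k0 [(z1,[z2,z3,y2]),(z1,[z2,z0,z1]),(z2,[z1,z0,y1,z6]),(z1,[y1,z0,z1,z0,z3]),(z1,[y4,y3,z1,y3,y3,z3])],
    .ref k6 k0 [(z1,[z4,z3,z0,y4]),(z1,[z4,z0,z3,y4]),(z1,[z1,z0,z0,z2]),(z1,[y2,z0,z0,z2,z3]),(z1,[y8,y3,y3,z5,y3,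
    z3])]],
    .leafM k6 [k1,k2,k3,k4,k5,k0] [(z1,[z0,y1,y1,y1,z1])] [],
    .lp [(nat_lit 318),(nat_lit 318),(nat_lit 294),(nat_lit 340),(nat_lit 328),(nat_lit 320)] [k11,k11,k11,k11,k23,k23,k0,
    k0,k6,k6,k10,k10] k0 [[k0,k0,k0,k0,k0,k0,k0,k0,k0,k0,k44,k42],[k0,k0,k18,k54],[k54,k0,k0,k0,k0,k42,k0,k0,k0,k26],
    [k18,k0,k0,k0,k0,k10],[k0,k0,k10,k42,k0,k0,k8],[k0,k0,k0,k0,k0,k0,k0,k0,k0,k0,k46,k20],[k0,k0,k0,k0,k0,k0,k0,k0,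
    k0,k36],[k0,k0,k0,k0,k0,k8],[k0,k0,k0,k26,k0,k0,k0,k36],[],[k0,k42,k0,k0,k20],[k0,k44,k0,k0,k46]] (nat_lit 960) k5
    [[(k0,(nat_lit 274)),(k7,(nat_lit 283)),(k11,(nat_lit 319)),(k8,(nat_lit 323)),(k4,(nat_lit 326)),(k3,
    (nat_lit 360))],[(k1,(nat_lit 274)),(k10,(nat_lit 277)),(k9,(nat_lit 323)),(k6,(nat_lit 329)),(k2,(nat_lit 336)),
    (k5,(nat_lit 360))],[(k2,(nat_lit 264)),(k5,(nat_lit 288)),(k9,(nat_lit 323)),(k6,(nat_lit 329)),(k1,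
    (nat_lit 360)),(k10,(nat_lit 363))],[(k3,(nat_lit 264)),(k4,(nat_lit 264)),(k8,(nat_lit 297)),(k11,(nat_lit 319)),
    (k0,(nat_lit 336)),(k7,(nat_lit 339))],[(k4,(nat_lit 284)),(k3,(nat_lit 288)),(k8,(nat_lit 311)),(k11,
    (nat_lit 333)),(k7,(nat_lit 359)),(k0,(nat_lit 360))],[(k2,(nat_lit 264)),(k5,(nat_lit 284)),(k9,(nat_lit 303)),
    (k6,(nat_lit 317)),(k1,(nat_lit 326)),(k10,(nat_lit 353))],[(k1,(nat_lit 283)),(k10,(nat_lit 310)),(k9,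
    (nat_lit 334)),(k2,(nat_lit 339)),(k6,(nat_lit 348)),(k5,(nat_lit 359))],[(k8,(nat_lit 298)),(k4,(nat_lit 317)),
    (k0,(nat_lit 329)),(k3,(nat_lit 329)),(k11,(nat_lit 330)),(k7,(nat_lit 348))],[(k4,(nat_lit 303)),(k0,
    (nat_lit 323)),(k3,(nat_lit 323)),(k8,(nat_lit 328)),(k7,(nat_lit 334)),(k11,(nat_lit 360))],[(k2,(nat_lit 297)),
    (k6,(nat_lit 298)),(k5,(nat_lit 311)),(k1,(nat_lit 323)),(k10,(nat_lit 324)),(k9,(nat_lit 328))],[(k1,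
    (nat_lit 319)),(k2,(nat_lit 319)),(k10,(nat_lit 320)),(k6,(nat_lit 330)),(k5,(nat_lit 333)),(k9,(nat_lit 360))],
    [(k0,(nat_lit 277)),(k7,(nat_lit 310)),(k11,(nat_lit 320)),(k8,(nat_lit 324)),(k4,(nat_lit 353)),(k3,
    (nat_lit 363))]]
    [] k0
    [[k3,k0,k0,k0,k0,k0],[k2,k0,k0,k1,k0,k0],[k2,k0,k0,k0,k1,k0],[k2,k0,k0,k0,k0,k1],[k1,k1,k0,k0,k0,k1],[k1,k1,k1,k0,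
    k0,k0],[k1,k0,k1,k0,k0,k1],[k1,k1,k0,k1,k0,k0],[k1,k0,k0,k1,k1,k0],[k1,k0,k0,k1,k0,k1],[k1,k0,k0,k0,k0,k2],[k0,k3,
    k0,k0,k0,k0],[k0,k2,k1,k0,k0,k0],[k0,k2,k0,k1,k0,k0],[k0,k2,k0,k0,k1,k0],[k0,k2,k0,k0,k0,k1],[k0,k1,k2,k0,k0,k0],
    [k0,k1,k1,k1,k0,k0],[k0,k1,k1,k0,k1,k0],[k0,k1,k0,k1,k0,k1],[k0,k1,k0,k0,k2,k0],[k0,k0,k3,k0,k0,k0],[k0,k0,k2,k0,
    k1,k0],[k0,k0,k1,k0,k2,k0]]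
    [.ref k17 k7 [(z4,[z1,y3]),(z1,[z1]),(z4,[y1,z3,z12]),(z2,[y1,z3,z0,z6])],.ref k17 k7 [(z2,[z1,y1,z1,z1,y1]),(z1,
    [z2,z1,z2,z2,y2]),(z2,[y1,z1,z5,y1,z1]),(z1,[y1,z1,y1,z2,z1])],.ref k56 k0 [(z1,[z0,z1]),(z1,[y1,z2,z1]),(z1,[z0,
    z0,z0,z1]),(z1,[z0,y1,y1,y1,z1])],.ref k17 k7 [(z3,[z1,y2]),(z3,[z4,z1]),(z3,[y1,z2,z9]),(z3,[y2,z4,z0,z9])],
    .ref k72 k6 [(z1,[y1,z1,z1]),(z1,[z0,y1,y1,y1,z1]),(z1,[z0,z0,z0,z1]),(z1,[z1,y1])],.ref k8 k0 [(z1,[z0,z1]),(z1,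
    [z1,y1,z0,y1]),(z1,[z0,z0,z0,z1]),(z1,[z0,y1,y1,y1,z1])],.ref k17 k7 [(z1,[z1,y1,z0,y1]),(z1,[z4,y1,z0,y4]),(z1,
    [y1,z1,z3,z1]),(z1,[y2,z2,z0,z5])],.ref k8 k0 [(z1,[z0,z1]),(z1,[z1,z0,z1,z1,y1]),(z1,[z0,z0,z0,z1]),(z1,[z0,y1,
    y1,y1,z1])],.ref k36 k0 [(z1,[z0,z1]),(z1,[y1,z0,z0,y1,z1]),(z1,[z0,z0,z0,z1]),(z1,[z0,y1,y1,y1,z1])],
    .ref k17 k7 [(z1,[z1,z0,z1,z1,y1]),(z1,[z4,z3,z4,z4,y4]),(z1,[y1,z0,z2,y1,z1]),(z1,[y2,z0,y2,z1,z2])],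
    .ref k17 k7 [(z2,[z1,y1]),(z1,[z2,z1]),(z2,[y1,z1,z6]),(z1,[y1,z1,z0,z3])],.ref k73 k0 [(z1,[z0,z1]),(z1,[z1]),
    (z1,[z0,z0,z0,z1]),(z1,[z0,y1,y1,y1,z1])],.ref k36 k0 [(z1,[z0,z1]),(z2,[z1,z0,z0,y1]),(z1,[z0,z0,z0,z1]),(z1,[z0,
    y1,y1,y1,z1])],.ref k36 k0 [(z1,[z0,z1]),(z2,[z1,z1,z1,z1,y1]),(z1,[z0,z0,z0,z1]),(z1,[z0,y1,y1,y1,z1])],
    .ref k36 k0 [(z1,[z0,z1]),(z1,[z1,z0,y1]),(z1,[z0,z0,z0,z1]),(z1,[z0,y1,y1,y1,z1])],.ref k74 k1 [(z1,[y2,z0,z0,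
    z1]),(z1,[y2,y1,y1,y1,z1]),(z1,[y1,z0,z1]),(z1,[z1])],.ref k75 k0 [(z1,[z0,z1]),(z1,[z1,z0,z0,y2]),(z1,[z0,z0,z0,
    z1]),(z1,[z0,y1,y1,y1,z1])],.ref k75 k0 [(z1,[z0,z1]),(z1,[z1,z1,z1,z0,y1]),(z1,[z0,z0,z0,z1]),(z1,[z0,y1,y1,y1,
    z1])],.ref k17 k7 [(z1,[y1,z0,z1,z1]),(z1,[y4,z3,z4,z4]),(z1,[z1,z0,z2,y1]),(z1,[z2,z0,y2,z1])],.ref k36 k0 [(z1,
    [z0,z1]),(z1,[z1,z1,z1,z1,y1]),(z1,[z0,z0,z0,z1]),(z1,[z0,y1,y1,y1,z1])],.ref k8 k0 [(z1,[z0,z1]),(z1,[y1,z0,z2]),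
    (z1,[z0,z0,z0,z1]),(z1,[z0,y1,y1,y1,z1])],.ref k17 k7 [(z2,[y1,z0,z0,z3]),(z1,[y2,z3,z0,z6]),(z2,[z1,z0,z6,y3]),
    (z1,[z1])],.ref k72 k6 [(z1,[z1,z0,z0,y2]),(z1,[z0,y1,y1,y1,z1]),(z1,[z0,z0,z0,z1]),(z1,[y1,z0,z1,z2])],
    .ref k8 k0 [(z1,[z0,z1]),(z2,[y1,z0,z2,z1]),(z1,[z0,z0,z0,z1]),(z1,[z0,y1,y1,y1,z1])]],
    .lp [(nat_lit 306),(nat_lit 318),(nat_lit 320),(nat_lit 314),(nat_lit 334),(nat_lit 326)] [k14,k14,k8,k8,k7,k7,k10,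
    k10,k0,k0,k4,k4] k0 [[k0,k0,k0,k0,k0,k0,k0,k16,k0,k0,k32,k28],[k0,k0,k4,k14],[k14,k0,k0,k0,k6,k36],[k4],[k0,k0,k0,
    k36,k0,k0,k20],[k0,k0,k0,k6,k0,k0,k6],[k0,k16,k0,k0,k0,k0,k0,k0,k0,k16],[k0,k0,k0,k0,k6,k20],[k0,k0,k0,k0,k0,k0,
    k0,k16],[k0,k0,k0,k0,k0,k0,k0,k0,k0,k0,k0,k6],[k0,k28,k0,k0,k0,k0,k0,k0,k6],[k0,k32]] (nat_lit 960) k5
    [[(k0,(nat_lit 274)),(k7,(nat_lit 310)),(k4,(nat_lit 313)),(k11,(nat_lit 316)),(k8,(nat_lit 326)),(k3,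
    (nat_lit 340))],[(k1,(nat_lit 274)),(k10,(nat_lit 288)),(k6,(nat_lit 294)),(k2,(nat_lit 316)),(k9,(nat_lit 320)),
    (k5,(nat_lit 327))],[(k2,(nat_lit 304)),(k5,(nat_lit 315)),(k6,(nat_lit 316)),(k1,(nat_lit 340)),(k9,
    (nat_lit 342)),(k10,(nat_lit 354))],[(k4,(nat_lit 283)),(k3,(nat_lit 304)),(k7,(nat_lit 310)),(k0,(nat_lit 316)),
    (k11,(nat_lit 322)),(k8,(nat_lit 326))],[(k3,(nat_lit 315)),(k11,(nat_lit 323)),(k4,(nat_lit 326)),(k0,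
    (nat_lit 327)),(k8,(nat_lit 327)),(k7,(nat_lit 353))],[(k2,(nat_lit 283)),(k9,(nat_lit 307)),(k1,(nat_lit 313)),
    (k6,(nat_lit 323)),(k10,(nat_lit 323)),(k5,(nat_lit 326))],[(k1,(nat_lit 310)),(k2,(nat_lit 310)),(k9,
    (nat_lit 318)),(k10,(nat_lit 320)),(k6,(nat_lit 334)),(k5,(nat_lit 353))],[(k0,(nat_lit 294)),(k8,(nat_lit 308)),
    (k3,(nat_lit 316)),(k11,(nat_lit 320)),(k4,(nat_lit 323)),(k7,(nat_lit 334))],[(k4,(nat_lit 307)),(k7,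
    (nat_lit 318)),(k0,(nat_lit 320)),(k8,(nat_lit 334)),(k3,(nat_lit 342)),(k11,(nat_lit 346))],[(k6,(nat_lit 308)),
    (k1,(nat_lit 326)),(k2,(nat_lit 326)),(k5,(nat_lit 327)),(k10,(nat_lit 330)),(k9,(nat_lit 334))],[(k1,
    (nat_lit 316)),(k6,(nat_lit 320)),(k10,(nat_lit 320)),(k2,(nat_lit 322)),(k5,(nat_lit 323)),(k9,(nat_lit 346))],
    [(k0,(nat_lit 288)),(k7,(nat_lit 320)),(k11,(nat_lit 320)),(k4,(nat_lit 323)),(k8,(nat_lit 330)),(k3,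
    (nat_lit 354))]]
    [] k0
    [[k3,k0,k0,k0,k0,k0],[k2,k1,k0,k0,k0,k0],[k2,k0,k1,k0,k0,k0],[k2,k0,k0,k1,k0,k0],[k2,k0,k0,k0,k1,k0],[k2,k0,k0,k0,
    k0,k1],[k1,k1,k1,k0,k0,k0],[k1,k1,k0,k1,k0,k0],[k1,k1,k0,k0,k0,k1],[k1,k0,k1,k0,k0,k1],[k1,k0,k0,k2,k0,k0],[k1,k0,
    k0,k1,k1,k0],[k1,k0,k0,k1,k0,k1],[k1,k0,k0,k0,k0,k2],[k0,k3,k0,k0,k0,k0],[k0,k2,k1,k0,k0,k0],[k0,k2,k0,k1,k0,k0],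
    [k0,k1,k2,k0,k0,k0],[k0,k1,k1,k1,k0,k0],[k0,k1,k1,k0,k1,k0],[k0,k1,k0,k1,k0,k1]]
    [.ref k6 k0 [(z1,[z1]),(z4,[z1,y3,z12]),(z1,[z0,z0,z0,z1]),(z1,[y1,z3,z0,z0,z1]),(z2,[y1,y3,y6,y2,y2,z6])],
    .ref k6 k0 [(z3,[z4,z1,y4]),(z3,[z1,y2,z8]),(z1,[z0,z0,z0,z1]),(z3,[y4,z8,z4,z0,z3]),(z3,[y2,y5,y7,y3,y3,z9])],
    .ref k6 k0 [(z2,[z3,z0,z0,y1]),(z8,[z3,y6,z24,y1]),(z1,[z0,z0,z0,z1]),(z2,[y3,z6,z0,z1,z2]),(z4,[y3,y6,y12,y3,y4,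
    z12])],.ref k6 k0 [(z1,[z3,y3,z0,z0,y1]),(z4,[z3,y6,z12,z0,y1]),(z1,[z0,z0,z0,z1]),(z1,[y3,z6,z0,z0,z2]),(z2,[y3,
    z0,y6,y2,y1,z6])],.ref k6 k0 [(z3,[z6,z3,z6,z2,z2,y6]),(z6,[z3,y3,z21,z1,z1,y3]),(z1,[z0,z0,z0,z1]),(z3,[y6,z6,y6,
    y2,z1,z6]),(z3,[y3,y6,y12,y4,y4,z12])],.ref k6 k0 [(z3,[z4,z1]),(z3,[z1,y2,z9]),(z1,[z0,z0,z0,z1]),(z3,[y4,z8,z0,
    z0,z3]),(z3,[y2,y5,y9,y3,y3,z9])],.ref k6 k0 [(z5,[z12,z3,y12,y4]),(z5,[z3,y3,z12,y1]),(z1,[z0,z0,z0,z1]),(z5,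
    [y12,z12,z12,z4,z5]),(z5,[y6,y9,y9,y3,y5,z15])],.ref k6 k0 [(z1,[z12,y9,y12,z0,y4]),(z1,[z3,y3,z0,z0,y1]),(z1,[z0,
    z0,z0,z1]),(z1,[y12,z12,z12,z0,z5]),(z1,[y6,z3,z3,y1,z1,z3])],.ref k6 k0 [(z1,[z2,z1,y2]),(z2,[z1,y1,z5]),(z1,[z0,
    z0,z0,z1]),(z1,[y2,z2,z2,z0,z1]),(z1,[y1,y2,y2,y1,y1,z3])],.ref k6 k0 [(z5,[z12,z3,z0,y4]),(z5,[z3,y3,z15,y1]),
    (z1,[z0,z0,z0,z1]),(z5,[y12,z12,z0,z4,z5]),(z5,[y6,y9,y15,y3,y5,z15])],.ref k6 k0 [(z1,[y3,z6,z0,z0,z2]),(z4,[y3,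
    z3,z12,z0,z2]),(z1,[z0,z0,z0,z1]),(z1,[z3,y3,z0,z0,y1]),(z2,[z3,y9,y6,y2,y4,z6])],.ref k6 k0 [(z1,[y6,z3,y6,y2,z0,
    z6]),(z2,[y3,z0,z3,y1,z0,z3]),(z1,[z0,z0,z0,z1]),(z1,[z6,z0,z6,z2,z1,y6]),(z1,[z3,y3,z0,z0,y1])],.ref k6 k0 [(z1,
    [z12,y9,z0,z0,y4]),(z1,[z3,y3,z3,z0,y1]),(z1,[z0,z0,z0,z1]),(z1,[y12,z12,z0,z0,z5]),(z1,[y6,z3,y3,y1,z1,z3])],
    .ref k6 k0 [(z1,[z2,z1]),(z2,[z1,y1,z6]),(z1,[z0,z0,z0,z1]),(z1,[y2,z2,z0,z0,z1]),(z1,[y1,y2,y3,y1,y1,z3])],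
    .ref k6 k0 [(z1,[z4,z3,y12]),(z1,[z1]),(z1,[z0,z0,z0,z1]),(z1,[y4,z0,z12,z0,z1]),(z1,[y2,y3,z3,y1,y1,z3])],
    .ref k6 k0 [(z1,[z6,z3,y12,y2]),(z2,[z3,z0,z0,y1]),(z1,[z0,z0,z0,z1]),(z1,[y6,z0,z12,z2,z1]),(z1,[y3,y3,z3,z0,y1,
    z3])],.ref k6 k0 [(z1,[y6,z3,z12,z0,z2]),(z2,[y3,z0,z12,z0,z1]),(z1,[z0,z0,z0,z1]),(z1,[z6,z0,y12,z0,y1]),(z1,[z3,
    y3,y9,y1,y2,z3])],.ref k6 k0 [(z1,[z12,z3,y12,y8]),(z1,[z3,z0,z0,y2]),(z1,[z0,z0,z0,z1]),(z1,[y12,z0,z12,z8,z1]),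
    (z1,[y6,y3,z3,z3,y1,z3])],.ref k6 k0 [(z3,[y12,z9,z12,z4,z4]),(z3,[y3,z0,z12,z1,z1]),(z1,[z0,z0,z0,z1]),(z3,[z12,
    z0,y12,y4,y1]),(z3,[z6,y9,y15,y5,y5,z9])],.ref k6 k0 [(z1,[y12,y9,z0,z0,y4,z12]),(z1,[y3,y3,z3,z0,y1,z3]),(z1,[z0,
    z0,z0,z1]),(z1,[z12,z12,z0,z0,z5,y12]),(z1,[z6,z3,y3,y1,z1,y3])],.ref k6 k0 [(z1,[y6,z3,z6,z0,z2]),(z2,[y3,z0,z9,
    z0,z1]),(z1,[z0,z0,z0,z1]),(z1,[z6,z0,y6,z0,y1]),(z1,[z3,y3,y6,y1,y2,z3])]],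
    .lp [k160,k136,k176,k156,k162,k168] [k8,k8,k20,k20,k0,k0,k10,k10,k7,k7,k4,k4] k0 [[k0,k0,k48,k0,k0,k0,k4,k26],[k0,k0,
    k8,k0,k0,k0,k0,k0,k0,k0,k8],[k0,k0,k0,k0,k0,k0,k0,k0,k6],[k8,k48],[k0,k0,k0,k0,k0,k0,k0,k28,k0,k0,k20],[k0,k0,k0,
    k0,k0,k0,k0,k22,k0,k0,k14],[k0,k26,k0,k0,k22,k28],[k0,k4,k0,k0,k0,k0,k0,k0,k0,k2],[k0,k0,k0,k0,k0,k0,k2,k0,k0,k0,
    k0,k10],[k0,k0,k0,k6,k0,k0,k0,k0,k0,k0,k0,k8],[k0,k0,k0,k0,k0,k0,k0,k0,k8,k10],[k8,k0,k0,k0,k14,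
    k20]] (nat_lit 480) k5
    [[(k3,k140),(k7,k144),(k4,k148),(k0,k160),(k8,k169),(k11,k174)],[(k5,k120),(k6,k132),(k2,k156),(k9,k157),(k1,
    k160),(k10,k172)],[(k1,k140),(k5,k148),(k6,k150),(k10,k152),(k9,k175),(k2,k184)],[(k7,k146),(k11,k146),(k8,k149),
    (k0,k156),(k4,k156),(k3,k184)],[(k0,k120),(k3,k148),(k7,k166),(k11,k172),(k8,k175),(k4,k176)],[(k6,k138),(k1,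
    k148),(k2,k156),(k5,k176),(k10,k186),(k9,k191)],[(k6,k134),(k1,k144),(k2,k146),(k5,k166),(k10,k182),(k9,k187)],
    [(k0,k132),(k7,k134),(k4,k138),(k3,k150),(k8,k159),(k11,k164)],[(k0,k157),(k8,k160),(k11,k165),(k3,k175),(k7,
    k187),(k4,k191)],[(k2,k149),(k10,k155),(k6,k159),(k9,k160),(k1,k169),(k5,k175)],[(k2,k146),(k10,k160),(k6,k164),
    (k9,k165),(k5,k172),(k1,k174)],[(k3,k152),(k8,k155),(k11,k160),(k0,k172),(k7,k182),(k4,k186)]]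
    [] k0
    [[k2,k1,k0,k0,k0,k0],[k2,k0,k1,k0,k0,k0],[k2,k0,k0,k1,k0,k0],[k1,k1,k1,k0,k0,k0],[k1,k1,k0,k1,k0,k0],[k1,k1,k0,k0,
    k1,k0],[k1,k1,k0,k0,k0,k1],[k1,k0,k2,k0,k0,k0],[k1,k0,k1,k1,k0,k0],[k1,k0,k0,k2,k0,k0],[k1,k0,k0,k1,k1,k0],[k0,k1,
    k1,k1,k0,k0],[k0,k1,k0,k2,k0,k0],[k0,k1,k0,k1,k0,k1],[k0,k1,k0,k0,k1,k1],[k0,k1,k0,k0,k0,k2],[k0,k0,k1,k2,k0,k0],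
    [k0,k0,k0,k3,k0,k0]]
    [.ref k6 k0 [(z6,[z7,z4,y7]),(z3,[z2,y4,z7]),(z3,[y1,z2,z1,z9]),(z3,[y4,z8,z4,z0,z9]),(z3,[y1,y7,y8,y9,y9,z9])],
    .ref k6 k0 [(z4,[z7,y2,z0,y7]),(z1,[z1,y2,z3,y1]),(z2,[y1,z2,z0,z7]),(z1,[y2,z4,z0,z2,z3]),(z2,[y1,y4,y6,y5,y6,
    z6])],.ref k6 k0 [(z2,[z7,y8,z0,z0,y7]),(z1,[z2,y4,z3,z0,y2]),(z1,[y1,z2,z0,z3,z1]),(z1,[y4,z8,z0,z0,z7]),(z1,[y1,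
    y1,y3,y3,y2,z3])],.ref k6 k0 [(z3,[z7,z2,y7,y7]),(z3,[z4,y4,z5,y4]),(z3,[y2,z2,z2,z11]),(z3,[y8,z8,z8,z8,z9]),(z3,
    [y2,y7,y7,y7,y9,z9])],.ref k6 k0 [(z1,[z7,y4,y7,z0,y7]),(z1,[z4,y4,y1,z0,y4]),(z1,[y2,z2,z2,z3,z2]),(z1,[y8,z8,z8,
    z0,z11]),(z1,[y2,y1,y1,y3,y1,z3])],.ref k6 k0 [(z3,[z7,z9,z0,z7,z7,y7]),(z3,[z4,z0,z9,z4,z4,y4]),(z3,[y2,z0,z0,z7,
    y2,z2]),(z3,[y8,z0,z0,y8,z1,z8]),(z3,[y2,y9,y9,y11,y11,z11])],.ref k6 k0 [(z4,[z7,z5,y7]),(z1,[z1,y1,z2]),(z2,[y1,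
    z1,z1,z6]),(z1,[y2,z2,z2,z0,z3]),(z2,[y1,y5,y5,y6,y6,z6])],.ref k6 k0 [(z1,[z7,y4,z0,y14]),(z1,[z4,y4,z3,y8]),(z1,
    [y2,z2,z0,z7]),(z1,[y8,z8,z0,z16,z3]),(z1,[y2,y1,y3,z1,y3,z3])],.ref k6 k0 [(z1,[y7,z10,z0,z7,z7]),(z1,[y4,z4,z3,
    z4,z4]),(z1,[z2,y2,z0,z1,y2]),(z1,[z8,y8,z0,y8,y5]),(z1,[z2,y5,y3,y5,y5,z3])],.ref k6 k0 [(z3,[y7,z16,z0,z0,z14]),
    (z3,[y4,z4,z9,z0,z8]),(z3,[z2,y2,z0,z9,y4]),(z3,[z8,y8,z0,z0,y7]),(z3,[z2,y11,y9,y9,y13,z9])],.ref k6 k0 [(z1,[y7,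
    z3,y7,y7,z0,z7]),(z1,[y4,z0,y1,y4,z0,z4]),(z1,[z2,z0,z2,z5,z0,y2]),(z1,[z8,z0,z8,z8,z3,y8]),(z1,[z2,y3,y1,y1,y3,
    z1])],.ref k6 k0 [(z2,[y7,z6,z7,z7,z7]),(z1,[y2,z0,z5,z2,z2]),(z1,[z1,z0,y1,z2,y1]),(z1,[z4,z0,y4,y4,y1]),(z1,[z1,
    y3,y4,y4,y4,z3])],.ref k6 k0 [(z4,[y7,z12,z7,z0,z14]),(z1,[y1,z0,z4,z0,z2]),(z2,[z1,z0,y1,z6,y2]),(z1,[z2,z0,y2,
    z0,y1]),(z2,[z1,y6,y7,y6,y8,z6])],.ref k6 k0 [(z1,[y7,z3,z7,z0,z7]),(z1,[y4,z0,z7,z0,z4]),(z1,[z2,z0,y2,z3,y2]),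
    (z1,[z8,z0,y8,z0,y5]),(z1,[z2,y3,y5,y3,y5,z3])],.ref k6 k0 [(z1,[z7,z10,z0,z7,z7,y7]),(z1,[z4,z4,z3,z4,z4,y4]),
    (z1,[y2,y2,z0,z1,y2,z2]),(z1,[y8,y8,z0,y8,y5,z8]),(z1,[y2,y5,y3,y5,y5,z5])],.ref k6 k0 [(z2,[z7,z6,y7]),(z1,[z2,
    z0,z1]),(z1,[y1,z0,z1,z3]),(z1,[y4,z0,z4,z0,z3]),(z1,[y1,y3,y2,y3,y3,z3])],.ref k6 k0 [(z6,[y7,z18,z0,z7,z14]),
    (z3,[y2,z0,z9,z2,z4]),(z3,[z1,z0,z0,z8,y2]),(z3,[z4,z0,z0,y4,z1]),(z3,[z1,y9,y9,y10,y11,z9])],.ref k6 k0 [(z8,[y7,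
    z24,z0,z0,z21]),(z2,[y1,z0,z6,z0,z3]),(z4,[z1,z0,z0,z12,y3]),(z1,[z1]),(z4,[z1,y12,y12,y12,y15,z12])]],
    .lp [(nat_lit 300),(nat_lit 306),(nat_lit 320),(nat_lit 326),(nat_lit 340),(nat_lit 324)] [k20,k20,k17,k17,k10,k10,k7,
    k7,k0,k0,k8,k8] k0 [[k0,k0,k18,k54,k0,k0,k4],[k0,k0,k0,k0,k0,k0,k0,k0,k0,k0,k36],[k0,k54,k0,k0,k0,k0,k0,k0,k10,
    k10],[k0,k18],[k0,k0,k0,k0,k0,k0,k0,k2,k0,k0,k0,k34],[k0,k0,k0,k0,k0,k0,k0,k34,k0,k0,k0,k14],[k0,k0,k0,k0,k34,k2],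
    [k0,k4],[k0,k0,k0,k10,k0,k0,k0,k0,k0,k0,k16],[k0,k0,k0,k10],[k0,k0,k0,k0,k14,k34],[k36,k0,k0,k0,k0,k0,k0,k0,k0,
    k16]] (nat_lit 960) k5
    [[(k3,(nat_lit 267)),(k0,(nat_lit 300)),(k8,(nat_lit 304)),(k11,(nat_lit 312)),(k4,(nat_lit 324)),(k7,
    (nat_lit 347))],[(k2,(nat_lit 249)),(k5,(nat_lit 292)),(k1,(nat_lit 300)),(k6,(nat_lit 313)),(k9,(nat_lit 316)),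
    (k10,(nat_lit 348))],[(k1,(nat_lit 267)),(k10,(nat_lit 315)),(k6,(nat_lit 320)),(k9,(nat_lit 323)),(k2,
    (nat_lit 324)),(k5,(nat_lit 367))],[(k0,(nat_lit 249)),(k11,(nat_lit 305)),(k4,(nat_lit 313)),(k8,(nat_lit 313)),
    (k7,(nat_lit 316)),(k3,(nat_lit 324))],[(k0,(nat_lit 292)),(k4,(nat_lit 320)),(k7,(nat_lit 323)),(k11,
    (nat_lit 332)),(k8,(nat_lit 340)),(k3,(nat_lit 367))],[(k10,(nat_lit 288)),(k2,(nat_lit 313)),(k5,(nat_lit 320)),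
    (k6,(nat_lit 321)),(k1,(nat_lit 324)),(k9,(nat_lit 364))],[(k6,(nat_lit 292)),(k10,(nat_lit 311)),(k2,
    (nat_lit 316)),(k5,(nat_lit 323)),(k9,(nat_lit 335)),(k1,(nat_lit 347))],[(k7,(nat_lit 292)),(k0,(nat_lit 313)),
    (k3,(nat_lit 320)),(k4,(nat_lit 321)),(k11,(nat_lit 325)),(k8,(nat_lit 333))],[(k0,(nat_lit 316)),(k3,
    (nat_lit 323)),(k11,(nat_lit 332)),(k7,(nat_lit 335)),(k8,(nat_lit 340)),(k4,(nat_lit 364))],[(k1,(nat_lit 304)),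
    (k2,(nat_lit 313)),(k10,(nat_lit 332)),(k6,(nat_lit 333)),(k5,(nat_lit 340)),(k9,(nat_lit 340))],[(k2,
    (nat_lit 305)),(k1,(nat_lit 312)),(k6,(nat_lit 325)),(k5,(nat_lit 332)),(k9,(nat_lit 332)),(k10,(nat_lit 340))],
    [(k4,(nat_lit 288)),(k7,(nat_lit 311)),(k3,(nat_lit 315)),(k8,(nat_lit 332)),(k11,(nat_lit 340)),(k0,
    (nat_lit 348))]]
    [] k0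
    [[k3,k0,k0,k0,k0,k0],[k2,k1,k0,k0,k0,k0],[k2,k0,k1,k0,k0,k0],[k2,k0,k0,k0,k1,k0],[k1,k2,k0,k0,k0,k0],[k1,k1,k1,k0,
    k0,k0],[k1,k1,k0,k1,k0,k0],[k1,k1,k0,k0,k1,k0],[k1,k1,k0,k0,k0,k1],[k1,k0,k2,k0,k0,k0],[k1,k0,k0,k2,k0,k0],[k1,k0,
    k0,k1,k1,k0],[k1,k0,k1,k0,k0,k1],[k1,k0,k0,k1,k0,k1],[k0,k2,k0,k0,k0,k1],[k0,k1,k1,k1,k0,k0],[k0,k1,k0,k2,k0,k0],
    [k0,k1,k0,k1,k0,k1],[k0,k0,k2,k0,k0,k1],[k0,k0,k1,k2,k0,k0],[k0,k0,k1,k1,k0,k1],[k0,k0,k0,k3,k0,k0],[k0,k0,k0,k2,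
    k0,k1]]
    [.ref k6 k0 [(z1,[z1]),(z4,[z1,y3,z12]),(z1,[z1,y3,z0,z3]),(z1,[y2,z6,z0,z0,z3]),(z2,[y1,y3,y6,y6,y6,z6])],
    .ref k6 k0 [(z3,[z4,z1,y4]),(z3,[z1,y2,z8]),(z3,[z4,y8,y4,z9]),(z3,[y8,z16,z8,z0,z9]),(z3,[y2,y5,y7,y9,y9,z9])],
    .ref k6 k0 [(z1,[z1,z1,z0,y1]),(z4,[z1,y2,z12,y1]),(z1,[z1,y2,z0,z2]),(z1,[y2,z4,z0,z2,z3]),(z2,[y1,y4,y6,y5,y6,
    z6])],.ref k6 k0 [(z1,[z2,z1,z2,z2,z2,y2]),(z2,[z1,y1,z7,z1,z1,y1]),(z1,[z2,y2,z2,z5,z2,y2]),(z1,[y4,z4,y4,y4,y1,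
    z4]),(z1,[y1,y2,y4,y4,y4,z4])],.ref k6 k0 [(z1,[z2,z1,y4]),(z2,[z1,y1,z4]),(z1,[z2,y2,y4,z3]),(z1,[y4,z4,z8,z0,
    z3]),(z1,[y1,y2,y1,y3,y3,z3])],.ref k6 k0 [(z3,[z4,z5,y4,y4]),(z3,[z1,y1,z8,y1]),(z3,[z4,y4,y4,z5]),(z3,[y8,z8,z8,
    z8,z9]),(z3,[y2,y7,y7,y7,y9,z9])],.ref k6 k0 [(z1,[y4,z7,z4,z0,z4]),(z1,[y1,z1,z4,z0,z1]),(z1,[y4,z4,z4,z3,z4]),
    (z1,[z8,y8,y8,z0,y5]),(z1,[z2,y5,y5,y3,y5,z3])],.ref k6 k0 [(z1,[z4,z3,z0,z4,z4,y4]),(z1,[z1,z0,z3,z1,z1,y1]),(z1,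
    [z4,z0,z0,z7,z4,y4]),(z1,[y8,z0,z0,y8,y5,z8]),(z1,[y2,y3,y3,y5,y5,z5])],.ref k6 k0 [(z1,[z2,z1,y2]),(z2,[z1,y1,
    z5]),(z1,[z2,y2,y2,z3]),(z1,[y4,z4,z4,z0,z3]),(z1,[y1,y2,y2,y3,y3,z3])],.ref k6 k0 [(z1,[z1,z2,z0,y2]),(z4,[z1,y1,
    z12,y2]),(z1,[z1,y1,z0,z1]),(z1,[y2,z2,z0,z4,z3]),(z2,[y1,y5,y6,y4,y6,z6])],.ref k6 k0 [(z1,[y1,z4,z0,z0,z2]),(z4,
    [y1,z1,z12,z0,z2]),(z1,[y1,z1,z0,z3,z2]),(z1,[z2,y2,z0,z0,y1]),(z2,[z1,y7,y6,y6,y8,z6])],.ref k6 k0 [(z1,[y2,z3,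
    y2,y2,z0,z2]),(z2,[y1,z0,z5,y1,z0,z1]),(z1,[y2,z0,y2,z1,z0,z2]),(z1,[z4,z0,z4,z4,z3,y4]),(z1,[z1,y3,y2,y2,y3,
    z2])],.ref k6 k0 [(z3,[z4,z5,z0,y4]),(z3,[z1,y1,z9,y1]),(z3,[z4,y4,z0,z5]),(z3,[y8,z8,z0,z8,z9]),(z3,[y2,y7,y9,y7,
    y9,z9])],.ref k6 k0 [(z1,[y4,z7,z0,z0,z4]),(z1,[y1,z1,z3,z0,z1]),(z1,[y4,z4,z0,z3,z4]),(z1,[z8,y8,z0,z0,y5]),(z1,
    [z2,y5,y3,y3,y5,z3])],.ref k6 k0 [(z1,[z4,z3,y8]),(z1,[z1,z0,z1]),(z1,[z4,z0,y8,z3]),(z1,[y8,z0,z16,z0,z3]),(z1,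
    [y2,y3,z1,y3,y3,z3])],.ref k6 k0 [(z1,[y4,z3,z4,z4,z4]),(z1,[y1,z0,z4,z1,z1]),(z1,[y4,z0,z4,z7,z4]),(z1,[z8,z0,y8,
    y8,y5]),(z1,[z2,y3,y5,y5,y5,z3])],.ref k6 k0 [(z5,[y4,z15,z4,z0,z8]),(z5,[y1,z0,z16,z0,z2]),(z5,[y4,z0,z4,z15,
    z8]),(z5,[z8,z0,y8,z0,y1]),(z5,[z2,y15,y17,y15,y19,z15])],.ref k6 k0 [(z1,[y2,z3,z2,z0,z2]),(z2,[y1,z0,z7,z0,z1]),
    (z1,[y2,z0,z2,z3,z2]),(z1,[z4,z0,y4,z0,y1]),(z1,[z1,y3,y4,y3,y4,z3])],.ref k6 k0 [(z3,[z4,z9,z0,y8]),(z3,[z1,z0,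
    z9,y2]),(z3,[z4,z0,z0,z1]),(z3,[y8,z0,z0,z16,z9]),(z3,[y2,y9,y9,y5,y9,z9])],.ref k6 k0 [(z1,[y1,z3,z0,z1,z2]),(z4,
    [y1,z0,z12,z1,z2]),(z1,[y1,z0,z0,z4,z2]),(z1,[z2,z0,z0,y2,y1]),(z2,[z1,y6,y6,y7,y8,z6])],.ref k6 k0 [(z1,[y4,z3,
    z0,z4,z4]),(z1,[y1,z0,z3,z1,z1]),(z1,[y4,z0,z0,z7,z4]),(z1,[z8,z0,z0,y8,y5]),(z1,[z2,y3,y3,y5,y5,z3])],
    .ref k6 k0 [(z2,[y1,z6,z0,z0,z3]),(z8,[y1,z0,z24,z0,z3]),(z2,[y1,z0,z0,z6,z3]),(z1,[z1]),(z4,[z1,y12,y12,y12,y15,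
    z12])],.ref k6 k0 [(z5,[y4,z15,z0,z0,z8]),(z5,[y1,z0,z15,z0,z2]),(z5,[y4,z0,z0,z15,z8]),(z5,[z8,z0,z0,z0,y1]),(z5,
    [z2,y15,y15,y15,y19,z15])]],
    .lp [(nat_lit 216),(nat_lit 234),(nat_lit 238),(nat_lit 240),(nat_lit 246),(nat_lit 260)] [k26,k18,k13,k13,k11,k11,
    k10,k10,k7,k7,k0,k0] k0 [[k0,k0,k0,k0,k0,k0,k2,k14],[k0,k0,k56,k0,k0,k0,k0,k0,k0,k0,k2],[k0,k0,k0,k0,k0,k14,k0,k0,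
    k8,k2],[k56,k0,k0,k0,k0,k10],[k0,k0,k10,k14],[k0,k0,k0,k0,k0,k0,k0,k0,k0,k0,k52,k14],[k0,k14],[k0,k2],[k0,k0,k0,
    k2,k0,k0,k0,k0,k0,k0,k0,k26],[k0,k0,k0,k8,k0,k0,k0,k0,k0,k0,k0,k20],[k0,k0,k0,k0,k14,k0,k0,k0,k20,k26],[k2,k0,k0,
    k0,k52]] (nat_lit 720) k5
    [[(k7,k180),(k0,(nat_lit 216)),(k3,(nat_lit 227)),(k4,(nat_lit 245)),(k8,(nat_lit 255)),(k11,(nat_lit 268))],[(k6,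
    (nat_lit 210)),(k1,(nat_lit 216)),(k5,(nat_lit 223)),(k9,(nat_lit 225)),(k10,(nat_lit 236)),(k2,(nat_lit 277))],
    [(k5,k180),(k1,(nat_lit 227)),(k2,(nat_lit 234)),(k6,(nat_lit 239)),(k10,(nat_lit 247)),(k9,(nat_lit 254))],[(k4,
    (nat_lit 222)),(k3,(nat_lit 234)),(k8,(nat_lit 238)),(k11,(nat_lit 239)),(k7,(nat_lit 247)),(k0,(nat_lit 277))],
    [(k3,k180),(k0,(nat_lit 223)),(k4,(nat_lit 228)),(k8,(nat_lit 250)),(k11,(nat_lit 251)),(k7,(nat_lit 253))],[(k2,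
    (nat_lit 222)),(k5,(nat_lit 228)),(k6,(nat_lit 239)),(k9,(nat_lit 242)),(k1,(nat_lit 245)),(k10,(nat_lit 301))],
    [(k1,k180),(k10,(nat_lit 236)),(k6,(nat_lit 240)),(k9,(nat_lit 243)),(k2,(nat_lit 247)),(k5,(nat_lit 253))],[(k0,
    (nat_lit 210)),(k3,(nat_lit 239)),(k4,(nat_lit 239)),(k7,(nat_lit 240)),(k8,(nat_lit 243)),(k11,(nat_lit 250))],
    [(k0,(nat_lit 225)),(k4,(nat_lit 242)),(k7,(nat_lit 243)),(k8,(nat_lit 246)),(k11,(nat_lit 253)),(k3,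
    (nat_lit 254))],[(k10,(nat_lit 227)),(k2,(nat_lit 238)),(k6,(nat_lit 243)),(k9,(nat_lit 246)),(k5,(nat_lit 250)),
    (k1,(nat_lit 255))],[(k2,(nat_lit 239)),(k10,(nat_lit 240)),(k6,(nat_lit 250)),(k5,(nat_lit 251)),(k9,
    (nat_lit 253)),(k1,(nat_lit 268))],[(k8,(nat_lit 227)),(k0,(nat_lit 236)),(k7,(nat_lit 236)),(k11,(nat_lit 240)),
    (k3,(nat_lit 247)),(k4,(nat_lit 301))]]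
    [] k0
    [[k3,k0,k0,k0,k0,k0],[k2,k0,k1,k0,k0,k0],[k2,k0,k0,k1,k0,k0],[k2,k0,k0,k0,k1,k0],[k1,k1,k1,k0,k0,k0],[k1,k1,k0,k1,
    k0,k0],[k1,k1,k0,k0,k1,k0],[k1,k1,k0,k0,k0,k1],[k1,k0,k2,k0,k0,k0],[k1,k0,k1,k1,k0,k0],[k1,k0,k0,k2,k0,k0],[k1,k0,
    k0,k1,k1,k0],[k1,k0,k0,k1,k0,k1],[k0,k3,k0,k0,k0,k0],[k0,k2,k1,k0,k0,k0],[k0,k1,k2,k0,k0,k0],[k0,k1,k1,k1,k0,k0],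
    [k0,k1,k1,k0,k1,k0],[k0,k1,k0,k1,k0,k1],[k0,k0,k3,k0,k0,k0]]
    [.ref k6 k0 [(z1,[z1]),(z7,[y2,z6,z21]),(z7,[y8,z24,z0,z21]),(z7,[y2,z6,z0,z0,z21]),(z7,[z4,y33,y21,y21,y21,
    z21])],.ref k6 k0 [(z2,[z7,y8,z0,y7]),(z1,[y1,z2,z3,z1]),(z1,[y4,z8,z0,z7]),(z1,[y1,z2,z0,z1,z3]),(z1,[z2,y7,y3,
    y5,y3,z3])],.ref k6 k0 [(z4,[z7,y2,z0,z0,y7]),(z2,[y1,z2,z6,z0,z1]),(z1,[y2,z4,z0,z3,z2]),(z2,[y1,z2,z0,z0,z7]),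
    (z1,[z1,y5,y3,y3,y4,z3])],.ref k6 k0 [(z6,[z7,z11,z7,z7,z7,y7]),(z3,[y1,z1,z8,y1,y1,z1]),(z3,[y4,z4,y4,z5,y4,z4]),
    (z3,[y1,z1,y1,y1,z8,z1]),(z3,[z2,y11,y7,y7,y7,z7])],.ref k6 k0 [(z1,[y7,z10,z7,z7]),(z1,[z2,y2,z1,y2]),(z1,[z8,y8,
    y8,y5]),(z1,[z2,y2,y2,y2,z3]),(z1,[y4,z1,z1,z1,y3,z3])],.ref k6 k0 [(z1,[z7,y4,y7,z0,y7]),(z1,[y2,z2,z5,z0,z2]),
    (z1,[y8,z8,z8,z3,z8]),(z1,[y2,z2,z2,z0,z5]),(z1,[z4,y7,y7,y3,y7,z3])],.ref k6 k0 [(z3,[z7,z9,z0,z7,z7,y7]),(z3,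
    [y2,z0,z9,y2,y2,z2]),(z3,[y8,z0,z0,z1,y8,z8]),(z3,[y2,z0,z0,y2,z7,z2]),(z3,[z4,y9,y9,y5,y5,z5])],.ref k6 k0 [(z2,
    [z7,y1,y7]),(z1,[y1,z1,z4]),(z1,[y4,z4,z4,z3]),(z1,[y1,z1,z1,z0,z3]),(z1,[z2,y5,y5,y3,y3,z3])],.ref k6 k0 [(z3,
    [y7,z16,z0,z14]),(z3,[z2,y2,z9,y4]),(z3,[z8,y8,z0,y7]),(z3,[z2,y2,z0,y4,z9]),(z3,[y4,y5,y9,y1,y9,z9])],
    .ref k6 k0 [(z1,[y7,z10,z0,z7,z7]),(z1,[z2,y2,z3,y2,y2]),(z1,[z8,y8,z0,y5,y8]),(z1,[z2,y2,z0,y2,z1]),(z1,[y4,z1,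
    y3,z1,z1,z3])],.ref k6 k0 [(z1,[z7,y4,z0,z0,y14]),(z1,[y2,z2,z3,z0,z4]),(z1,[y8,z8,z0,z3,z16]),(z1,[y2,z2,z0,z0,
    z7]),(z1,[z4,y7,y3,y3,y11,z3])],.ref k6 k0 [(z3,[z7,z9,z7,z7,z0,y7]),(z3,[y2,z0,z7,y2,z0,z2]),(z3,[y8,z0,y8,z1,z0,
    z8]),(z3,[y2,z0,y2,y2,z9,z2]),(z3,[z4,y9,y5,y5,y9,z5])],.ref k6 k0 [(z2,[z7,y1,z0,z0,y7]),(z1,[y1,z1,z3,z0,z1]),
    (z1,[y4,z4,z0,z3,z4]),(z1,[y1,z1,z0,z0,z4]),(z1,[z2,y5,y3,y3,y5,z3])],.ref k6 k0 [(z2,[y7,z6,z21]),(z1,[z1]),(z1,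
    [z4,z0,y12,z3]),(z1,[z1,z0,y3,z0,z3]),(z1,[y2,y3,z3,y3,y3,z3])],.ref k6 k0 [(z4,[y7,z12,z14,z7]),(z2,[z1,z0,z4,
    y1]),(z1,[z2,z0,y4,z1]),(z2,[z1,z0,y2,y1,z6]),(z1,[y1,y3,y1,y2,y3,z3])],.ref k6 k0 [(z6,[y7,z18,z7,z14]),(z3,[z1,
    z0,z8,y2]),(z3,[z4,z0,y4,z1]),(z3,[z1,z0,y1,y2,z9]),(z3,[y2,y9,y7,y5,y9,z9])],.ref k6 k0 [(z4,[y7,z12,z7,z7,z7]),
    (z2,[z1,z0,z5,y1,y1]),(z1,[z2,z0,y2,z1,y2]),(z2,[z1,z0,y1,y1,z5]),(z1,[y1,y3,y2,y2,y2,z3])],.ref k6 k0 [(z2,[y7,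
    y1,z0,z0,y7,z7]),(z1,[z1,z1,z3,z0,z1,y1]),(z1,[z4,z4,z0,z3,z4,y4]),(z1,[z1,z1,z0,z0,z4,y1]),(z1,[y2,y5,y3,y3,y5,
    z5])],.ref k6 k0 [(z1,[y7,z3,z7,z0,z7]),(z1,[z2,z0,z1,z0,y2]),(z1,[z8,z0,y8,z3,y8]),(z1,[z2,z0,y2,z0,z1]),(z1,[y4,
    y3,z1,y3,z1,z3])],.ref k6 k0 [(z8,[y7,z24,z0,z21]),(z4,[z1,z0,z12,y3]),(z1,[z1]),(z4,[z1,z0,z0,y3,z12]),(z2,[y1,
    y6,y6,y3,y6,z6])]],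
    .lp [(nat_lit 216),(nat_lit 234),(nat_lit 238),(nat_lit 240),(nat_lit 246),(nat_lit 260)] [k26,k18,k13,k13,k11,k11,
    k10,k10,k7,k7,k0,k0] k0 [[k0,k0,k0,k0,k0,k0,k2,k14],[k0,k0,k56,k0,k0,k0,k0,k0,k0,k0,k2],[k0,k0,k0,k0,k0,k14,k0,k0,
    k8,k2],[k56,k0,k0,k0,k0,k10],[k0,k0,k10,k14],[k0,k0,k0,k0,k0,k0,k0,k0,k0,k0,k52,k14],[k0,k14],[k0,k2],[k0,k0,k0,
    k2,k0,k0,k0,k0,k0,k0,k0,k26],[k0,k0,k0,k8,k0,k0,k0,k0,k0,k0,k0,k20],[k0,k0,k0,k0,k14,k0,k0,k0,k20,k26],[k2,k0,k0,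
    k0,k52]] (nat_lit 720) k5
    [[(k7,k180),(k0,(nat_lit 216)),(k3,(nat_lit 227)),(k4,(nat_lit 245)),(k8,(nat_lit 255)),(k11,(nat_lit 268))],[(k6,
    (nat_lit 210)),(k1,(nat_lit 216)),(k5,(nat_lit 223)),(k9,(nat_lit 225)),(k10,(nat_lit 236)),(k2,(nat_lit 277))],
    [(k5,k180),(k1,(nat_lit 227)),(k2,(nat_lit 234)),(k6,(nat_lit 239)),(k10,(nat_lit 247)),(k9,(nat_lit 254))],[(k4,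
    (nat_lit 222)),(k3,(nat_lit 234)),(k8,(nat_lit 238)),(k11,(nat_lit 239)),(k7,(nat_lit 247)),(k0,(nat_lit 277))],
    [(k3,k180),(k0,(nat_lit 223)),(k4,(nat_lit 228)),(k8,(nat_lit 250)),(k11,(nat_lit 251)),(k7,(nat_lit 253))],[(k2,
    (nat_lit 222)),(k5,(nat_lit 228)),(k6,(nat_lit 239)),(k9,(nat_lit 242)),(k1,(nat_lit 245)),(k10,(nat_lit 301))],
    [(k1,k180),(k10,(nat_lit 236)),(k6,(nat_lit 240)),(k9,(nat_lit 243)),(k2,(nat_lit 247)),(k5,(nat_lit 253))],[(k0,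
    (nat_lit 210)),(k3,(nat_lit 239)),(k4,(nat_lit 239)),(k7,(nat_lit 240)),(k8,(nat_lit 243)),(k11,(nat_lit 250))],
    [(k0,(nat_lit 225)),(k4,(nat_lit 242)),(k7,(nat_lit 243)),(k8,(nat_lit 246)),(k11,(nat_lit 253)),(k3,
    (nat_lit 254))],[(k10,(nat_lit 227)),(k2,(nat_lit 238)),(k6,(nat_lit 243)),(k9,(nat_lit 246)),(k5,(nat_lit 250)),
    (k1,(nat_lit 255))],[(k2,(nat_lit 239)),(k10,(nat_lit 240)),(k6,(nat_lit 250)),(k5,(nat_lit 251)),(k9,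
    (nat_lit 253)),(k1,(nat_lit 268))],[(k8,(nat_lit 227)),(k0,(nat_lit 236)),(k7,(nat_lit 236)),(k11,(nat_lit 240)),
    (k3,(nat_lit 247)),(k4,(nat_lit 301))]]
    [] k0
    [[k3,k0,k0,k0,k0,k0],[k2,k0,k1,k0,k0,k0],[k2,k0,k0,k1,k0,k0],[k2,k0,k0,k0,k1,k0],[k1,k1,k1,k0,k0,k0],[k1,k1,k0,k1,
    k0,k0],[k1,k1,k0,k0,k1,k0],[k1,k1,k0,k0,k0,k1],[k1,k0,k2,k0,k0,k0],[k1,k0,k1,k1,k0,k0],[k1,k0,k0,k2,k0,k0],[k1,k0,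
    k0,k1,k1,k0],[k1,k0,k0,k1,k0,k1],[k0,k3,k0,k0,k0,k0],[k0,k2,k1,k0,k0,k0],[k0,k1,k2,k0,k0,k0],[k0,k1,k1,k1,k0,k0],
    [k0,k1,k1,k0,k1,k0],[k0,k1,k0,k1,k0,k1],[k0,k0,k3,k0,k0,k0]]
    [.ref k6 k0 [(z1,[z1]),(z4,[y1,z1,z6]),(z1,[y1,z1,z0,z3]),(z4,[y1,z1,z0,z0,z6]),(z2,[z1,y1])],.ref k6 k0 [(z1,[z3,
    y1,z0,y3]),(z4,[y3,z2,z6,z3]),(z1,[y3,z2,z0,z6]),(z4,[y3,z2,z0,z3,z6]),(z2,[z3,y2,z0,y3])],.ref k6 k0 [(z7,[z12,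
    y1,z0,z0,y6]),(z14,[y6,z4,z21,z0,z3]),(z7,[y12,z8,z0,z21,z6]),(z7,[y3,z2,z0,z0,z12]),(z7,[z6,y4,z0,z0,y3])],
    .ref k6 k0 [(z5,[z6,z1]),(z10,[y3,z2,z15]),(z5,[y6,z4,z0,z15]),(z10,[y3,z2,z0,z0,z15]),(z5,[z3,y2])],
    .ref k6 k0 [(z1,[y12,z5,z6,z12]),(z1,[z3,y1,z0,y3]),(z1,[z12,y4,y6,y9]),(z2,[z6,y2,y3,y6,z3]),(z1,[y6,z2,z3,z6])],
    .ref k6 k0 [(z1,[z6,y1,y3,z0,y3]),(z4,[y6,z2,z9,z0,z3]),(z1,[y6,z2,z3,z3,z3]),(z4,[y6,z2,z3,z0,z9]),(z2,[z6,y2,y3,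
    z0,y3])],.ref k6 k0 [(z5,[z12,z1,y6]),(z5,[y3,z1,z9]),(z5,[y12,z4,z6,z15]),(z10,[y6,z2,z3,z0,z15]),(z5,[z6,y2,
    y3])],.ref k6 k0 [(z1,[z4,z1,z0,z4,z2,y4]),(z2,[y2,z0,z3,y2,y1,z2]),(z1,[y4,z0,z0,y1,y2,z4]),(z1,[y1,z0,z0,y1,z1,
    z1]),(z1,[z2,z0,z0,z2,z1,y2])],.ref k6 k0 [(z1,[y3,z2,z0,z6]),(z4,[z3,y1,z6,y6]),(z1,[z3,y1,z0,y3]),(z4,[z3,y1,z0,
    y6,z6]),(z2,[y3,z1,z0,z6])],.ref k6 k0 [(z1,[y12,z5,z0,z12,z6]),(z2,[z6,y2,z3,y6,y3]),(z1,[z12,y4,z0,y9,y6]),(z1,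
    [z3,y1,z0,y3]),(z1,[y6,z2,z0,z6,z3])],.ref k6 k0 [(z1,[z6,y1,z0,z0,y6]),(z2,[y3,z1,z3,z0,z3]),(z1,[y6,z2,z0,z3,
    z6]),(z2,[y3,z1,z0,z0,z6]),(z1,[z3,y1,z0,z0,y3])],.ref k6 k0 [(z5,[z12,z1,z0,z0,y6]),(z10,[y6,z2,z15,z0,z3]),(z5,
    [y12,z4,z0,z15,z6]),(z5,[y3,z1,z0,z0,z9]),(z5,[z6,y2,z0,z0,y3])],.ref k6 k0 [(z1,[z4,z1,z2,z4,z0,y4]),(z1,[y1,z0,
    z1,y1,z0,z1]),(z1,[y4,z0,y2,y1,z0,z4]),(z2,[y2,z0,y1,y2,z3,z2]),(z1,[z2,z0,z1,z2,z0,y2])],.ref k6 k0 [(z1,[y4,z1,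
    z6]),(z1,[z1]),(z1,[z4,z0,y6,z3]),(z2,[z2,z0,y3,z0,z3]),(z1,[y2,z0,z3])],.ref k6 k0 [(z1,[y2,z1,z2,z2]),(z2,[z1,
    z0,z2,y1]),(z1,[z2,z0,y2,z1]),(z2,[z1,z0,y1,y1,z3]),(z1,[y1,z0,z1,z1])],.ref k6 k0 [(z3,[y4,z3,z2,z8]),(z3,[z1,z0,
    z4,y2]),(z3,[z4,z0,y2,z1]),(z6,[z2,z0,y1,y4,z9]),(z3,[y2,z0,z1,z4])],.ref k6 k0 [(z1,[y2,z1,z1,z2,z1]),(z4,[z2,z0,
    z5,y2,y1]),(z1,[z2,z0,y1,z1,y1]),(z4,[z2,z0,y1,y2,z5]),(z2,[y2,z0,z1,z2,z1])],.ref k6 k0 [(z1,[y4,z1,z2,z4]),(z1,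
    [z1,z0,z1,y1]),(z1,[z4,z0,y2,y1]),(z2,[z2,z0,y1,y2,z3]),(z1,[y2,z0,z1,z2])],.ref k6 k0 [(z1,[y6,y1,z0,y6,z0,z6]),
    (z2,[z3,z1,z3,z3,z0,y3]),(z1,[z6,z2,z0,z9,z0,y6]),(z2,[z3,z1,z0,z3,z3,y3]),(z1,[y3,y1,z0,y3,z0,z3])],
    .ref k6 k0 [(z1,[y1,z1,z0,z3]),(z4,[z1,z0,z6,y3]),(z1,[z1]),(z4,[z1,z0,z0,y3,z6]),(z2,[y1,z0,z0,z3])]],
    .lp [k70,k82,k80,k78,k84,k84] [k9,k5,k1,k1,k2,k2,k3,k3,k0,k0,k0,k0] k0 [[k0,k0,k6],[k0,k0,k0,k0,k0,k0,k0,k2],[k0,k0,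
    k0,k0,k0,k2,k0,k0,k0,k2],[k0,k6],[k0,k0,k0,k2,k0,k0,k4],[k0,k0,k0,k0,k0,k0,k0,k0,k0,k0,k16,k4],[k2],[k0,k0,k0,k0,
    k0,k4],[k0,k0,k0,k2],[k0,k0,k0,k0,k0,k0,k0,k0,k0,k0,k4,k16],[k0,k0,k0,k0,k4,k0,k0,k0,k16],[k0,k0,k0,k0,k16,k0,k0,
    k0,k4]] (nat_lit 240) k5
    [[(k7,k60),(k0,k70),(k11,k75),(k3,k78),(k4,k81),(k8,k95)],[(k5,k67),(k1,k70),(k6,k72),(k2,k74),(k10,k75),(k9,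
    k77)],[(k1,k78),(k6,k78),(k5,k81),(k9,k83),(k10,k83),(k2,k88)],[(k0,k74),(k4,k79),(k7,k80),(k8,k81),(k11,k83),(k3,
    k88)],[(k0,k67),(k4,k80),(k3,k81),(k7,k81),(k8,k82),(k11,k84)],[(k9,k78),(k2,k79),(k6,k79),(k5,k80),(k1,k81),(k10,
    k98)],[(k1,k60),(k10,k77),(k2,k80),(k5,k81),(k9,k81),(k6,k82)],[(k0,k72),(k3,k78),(k4,k79),(k8,k81),(k11,k81),(k7,
    k82)],[(k0,k77),(k4,k78),(k7,k81),(k3,k83),(k8,k84),(k11,k84)],[(k2,k81),(k6,k81),(k5,k82),(k9,k84),(k10,k88),(k1,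
    k95)],[(k10,k68),(k1,k75),(k6,k81),(k2,k83),(k5,k84),(k9,k84)],[(k11,k68),(k0,k75),(k7,k77),(k3,k83),(k8,k88),(k4,
    k98)]]
    [] k0
    [[k3,k0,k0,k0,k0,k0],[k2,k1,k0,k0,k0,k0],[k2,k0,k1,k0,k0,k0],[k2,k0,k0,k1,k0,k0],[k2,k0,k0,k0,k0,k1],[k1,k1,k1,k0,
    k0,k0],[k1,k1,k0,k1,k0,k0],[k1,k1,k0,k0,k1,k0],[k1,k1,k0,k0,k0,k1],[k1,k0,k2,k0,k0,k0],[k1,k0,k1,k1,k0,k0],[k1,k0,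
    k0,k2,k0,k0],[k1,k0,k0,k1,k1,k0],[k1,k0,k0,k1,k0,k1],[k1,k0,k0,k0,k0,k2],[k0,k1,k1,k1,k0,k0],[k0,k1,k0,k1,k0,k1],
    [k0,k1,k0,k0,k0,k2],[k0,k0,k0,k1,k0,k2],[k0,k0,k0,k0,k0,k3]]
    [.ref k77 k4 [(z1,[z0,z4,z2,z5,y4]),(z1,[z0,z1,z1,z1,y1]),(z1,[z1]),(z1,[y1,y9,y6,y12,z12])],.ref k78 k11 [(z1,
    [y4,z1,z2]),(z1,[y2,z0,z1]),(z1,[z1,y1,y1,y1,z1]),(z1,[z4,z0,y2,z1])],.ref k36 k1 [(z1,[z0,z0,y2,z1]),(z1,[z0,y1,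
    y1,y1,z1]),(z1,[z0,z0,z1]),(z2,[y1,z2,z2,z1])],.ref k78 k11 [(z1,[y4,y3,y2,y4,z4]),(z1,[y2,y2,y1,y2,z2]),(z1,
    [z1]),(z1,[z4,z4,z2,z5,y4])],.ref k79 k4 [(z1,[z0,z4,z2,z5,y4]),(z1,[z0,z1,z1,z1,y1]),(z1,[z1,z3,z2,z4,y4]),(z1,
    [y1,y6,y4,y8,z8])],.ref k65 k1 [(z1,[z0,z0,y2,z1]),(z1,[z0,y1,y1,y1,z1]),(z1,[z0,z0,z1]),(z1,[y1,z1,z0,z1])],
    .ref k36 k1 [(z1,[z0,z0,y2,z1]),(z1,[z0,y1,y1,y1,z1]),(z1,[z0,z0,z1]),(z1,[y1,z0,z1,y1,z1])],.ref k37 k4 [(z1,[z0,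
    z4,z2,z5,y4]),(z1,[z0,z1,z1,z1,y1]),(z1,[z1,z1,z0,z1,y1]),(z1,[y1,y4,y2,y5,z5])],.ref k43 k2 [(z1,[y1,z1,z2]),(z1,
    [y4,z4,z2,z3]),(z1,[y1,y2,y1,y3,z3]),(z1,[z2,y2,y1])],.ref k58 k1 [(z1,[z0,z0,y2,z1]),(z1,[z0,y1,y1,y1,z1]),(z1,
    [z0,z0,z1]),(z1,[y1,z1,y2,z2])],.ref k65 k1 [(z1,[z0,z0,y2,z1]),(z1,[z0,y1,y1,y1,z1]),(z1,[z0,z0,z1]),(z1,[y1,z0,
    y1,z0,z1])],.ref k36 k1 [(z1,[z0,z0,y2,z1]),(z1,[z0,y1,y1,y1,z1]),(z1,[z0,z0,z1]),(z1,[y1,y1,z0,y2,z2])],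
    .ref k37 k4 [(z1,[z0,z4,z2,z5,y4]),(z1,[z0,z1,z1,z1,y1]),(z1,[z1,z2,z1,z2,y2]),(z1,[y1,y5,y3,y6,z6])],
    .ref k43 k2 [(z1,[y1,z0,z1,y1,z1]),(z1,[y4,z0,y2,y1,z4]),(z1,[y1,y3,y2,y4,z4]),(z1,[z2,z0,z1,z2,y2])],
    .ref k58 k1 [(z1,[z0,z0,y2,z1]),(z1,[z0,y1,y1,y1,z1]),(z1,[z0,z0,z1]),(z1,[z1,y1,y2])],.ref k43 k2 [(z2,[z1,z1,z3,
    z0,y1]),(z1,[z2,z2,z0,z3,y2]),(z2,[z1,y5,y3,y6,z5]),(z1,[y1,y1,z0,z0,z1])],.ref k36 k1 [(z1,[z0,z0,y2,z1]),(z1,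
    [z0,y1,y1,y1,z1]),(z1,[z0,z0,z1]),(z1,[z1,z1,z1,z1,y1])],.ref k80 k0 [(z1,[y4,z1,z2]),(z1,[z1]),(z1,[z4,z0,y2,
    z1]),(z1,[z1,y1,y1,y1,z1])],.ref k80 k0 [(z1,[y4,y3,y2,y4,z4]),(z1,[z1,z1,z1,z1,y1]),(z1,[z4,z4,z2,z5,y4]),(z1,
    [z1])],.ref k81 k0 [(z1,[y1,z3]),(z1,[z0,z0,z1]),(z1,[z0,z0,z0,z1]),(z1,[z0,y2,y1,y2,z2])]]]

noncomputable def cT6_2_n1_2 : List TN :=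
  [.leafM k6 [k0,k1,k2,k3,k4,k5] [(z1,[y1,y1,y1,z0,z1])] [],
    .leafM k1 [k0,k1,k2,k3,k4,k5] [(z1,[z0,z1,z0,z1]),(z1,[z0,y1,z0,y1,z1])] [],
    .lp [(nat_lit 320),(nat_lit 292),(nat_lit 340),(nat_lit 276),(nat_lit 350),(nat_lit 340)] [k15,k15,k29,k29,k5,k5,k37,
    k37,k0,k0,k5,k5] k0 [[k0,k0,k58,k0,k0,k0,k38],[k0,k0,k0,k0,k0,k0,k0,k0,k0,k0,k2],[k0,k0,k0,k0,k0,k22,k0,k0,k0,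
    k10],[k0,k58,k0,k0,k0,k4],[k0,k0,k4,k22,k0,k0,k0,k14],[k0,k0,k0,k0,k0,k0,k0,k8,k0,k0,k0,k38],[k0,k0,k0,k0,k8,k14],
    [k0,k38,k0,k0,k0,k0,k0,k0,k52],[k0,k0,k0,k10,k0,k0,k0,k0,k0,k0,k0,k18],[k0,k0,k0,k0,k0,k0,k52],[k0,k0,k0,k0,k38,
    k0,k0,k0,k0,k18],[k2]] (nat_lit 960) k5
    [[(k7,(nat_lit 298)),(k3,(nat_lit 304)),(k0,(nat_lit 320)),(k8,(nat_lit 335)),(k11,(nat_lit 348)),(k4,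
    (nat_lit 368))],[(k5,(nat_lit 272)),(k9,(nat_lit 297)),(k6,(nat_lit 298)),(k2,(nat_lit 306)),(k1,(nat_lit 320)),
    (k10,(nat_lit 332))],[(k1,(nat_lit 304)),(k5,(nat_lit 316)),(k10,(nat_lit 316)),(k9,(nat_lit 321)),(k6,
    (nat_lit 322)),(k2,(nat_lit 350))],[(k7,(nat_lit 288)),(k4,(nat_lit 294)),(k0,(nat_lit 306)),(k8,(nat_lit 311)),
    (k11,(nat_lit 316)),(k3,(nat_lit 350))],[(k0,(nat_lit 272)),(k3,(nat_lit 316)),(k7,(nat_lit 330)),(k4,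
    (nat_lit 336)),(k8,(nat_lit 345)),(k11,(nat_lit 350))],[(k2,(nat_lit 294)),(k6,(nat_lit 294)),(k5,(nat_lit 336)),
    (k10,(nat_lit 340)),(k9,(nat_lit 353)),(k1,(nat_lit 368))],[(k6,(nat_lit 268)),(k10,(nat_lit 270)),(k2,
    (nat_lit 288)),(k1,(nat_lit 298)),(k9,(nat_lit 327)),(k5,(nat_lit 330))],[(k7,(nat_lit 268)),(k4,(nat_lit 294)),
    (k0,(nat_lit 298)),(k11,(nat_lit 308)),(k3,(nat_lit 322)),(k8,(nat_lit 365))],[(k11,(nat_lit 293)),(k0,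
    (nat_lit 297)),(k3,(nat_lit 321)),(k7,(nat_lit 327)),(k8,(nat_lit 350)),(k4,(nat_lit 353))],[(k2,(nat_lit 311)),
    (k10,(nat_lit 327)),(k1,(nat_lit 335)),(k5,(nat_lit 345)),(k9,(nat_lit 350)),(k6,(nat_lit 365))],[(k9,
    (nat_lit 293)),(k6,(nat_lit 308)),(k2,(nat_lit 316)),(k10,(nat_lit 340)),(k1,(nat_lit 348)),(k5,(nat_lit 350))],
    [(k7,(nat_lit 270)),(k3,(nat_lit 316)),(k8,(nat_lit 327)),(k0,(nat_lit 332)),(k4,(nat_lit 340)),(k11,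
    (nat_lit 340))]]
    [] k0
    [[k2,k1,k0,k0,k0,k0],[k2,k0,k0,k1,k0,k0],[k2,k0,k0,k0,k1,k0],[k1,k1,k1,k0,k0,k0],[k1,k1,k0,k1,k0,k0],[k1,k1,k0,k0,
    k1,k0],[k1,k1,k0,k0,k0,k1],[k1,k0,k1,k1,k0,k0],[k1,k0,k0,k2,k0,k0],[k1,k0,k0,k1,k0,k1],[k0,k1,k2,k0,k0,k0],[k0,k1,
    k1,k1,k0,k0],[k0,k1,k0,k2,k0,k0],[k0,k1,k0,k1,k0,k1],[k0,k1,k0,k0,k1,k1],[k0,k0,k1,k2,k0,k0],[k0,k0,k1,k1,k0,k1],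
    [k0,k0,k0,k3,k0,k0],[k0,k0,k0,k2,k0,k1],[k0,k0,k0,k1,k1,k1],[k0,k0,k0,k1,k0,k2]]
    [.ref k6 k0 [(z4,[z5,z2,y5]),(z2,[z1,y2,z5]),(z8,[y5,z10,z5,z24]),(z1,[y1,z2,z1,z0,z3]),(z4,[y1,y10,y11,y12,y12,
    z12])],.ref k6 k0 [(z2,[z5,y4,z0,z0,y5]),(z1,[z1,y2,z3,z0,y1]),(z4,[y5,z10,z0,z12,z5]),(z1,[y2,z4,z0,z0,z5]),(z2,
    [y1,y4,y6,y6,y5,z6])],.ref k6 k0 [(z3,[z5,z4,z5,z5,z5,y5]),(z3,[z2,y2,z11,z2,z2,y2]),(z6,[y5,z5,y5,z13,y5,z5]),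
    (z3,[y4,z4,y4,y4,z5,z4]),(z3,[y1,y8,y10,y10,y10,z10])],.ref k6 k0 [(z3,[z10,y1,y10,y10]),(z3,[z4,y4,z5,y4]),(z3,
    [y5,z5,z5,z14]),(z3,[y8,z8,z8,z8,z9]),(z3,[y2,y7,y7,y7,y9,z9])],.ref k6 k0 [(z1,[z5,y2,y5,z0,y5]),(z1,[z2,y2,z1,
    z0,y2]),(z2,[y5,z5,z5,z6,z5]),(z1,[y4,z4,z4,z0,z7]),(z1,[y1,y2,y2,y3,y2,z3])],.ref k6 k0 [(z2,[z5,z6,z0,z5,z5,
    y5]),(z1,[z1,z0,z3,z1,z1,y1]),(z4,[y5,z0,z0,z7,y5,z5]),(z1,[y2,z0,z0,y2,z1,z2]),(z2,[y1,y6,y6,y7,y7,z7])],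
    .ref k6 k0 [(z1,[z2,z1,y2]),(z5,[z4,y4,z11]),(z1,[y1,z1,z1,z3]),(z5,[y8,z8,z8,z0,z15]),(z5,[y2,y13,y13,y15,y15,
    z15])],.ref k6 k0 [(z1,[y10,z13,z0,z10,z10]),(z1,[y4,z4,z3,z4,z4]),(z1,[z5,y5,z0,y2,y5]),(z1,[z8,y8,z0,y8,y5]),
    (z1,[z2,y5,y3,y5,y5,z3])],.ref k6 k0 [(z1,[y5,z8,z0,z0,z10]),(z1,[y2,z2,z3,z0,z4]),(z2,[z5,y5,z0,z6,y10]),(z1,[z4,
    y4,z0,z0,y5]),(z1,[z1,y4,y3,y3,y5,z3])],.ref k6 k0 [(z1,[z10,y7,z0,z0,y10]),(z1,[z4,y4,z3,z0,y4]),(z1,[y5,z5,z0,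
    z3,z5]),(z1,[y8,z8,z0,z0,z11]),(z1,[y2,y1,y3,y3,y1,z3])],.ref k6 k0 [(z1,[y5,z3,z5,z10]),(z1,[y2,z0,z5,z4]),(z2,
    [z5,z0,y5,y4]),(z1,[z4,z0,y4,y8,z3]),(z1,[z1,y3,y4,y5,y3,z3])],.ref k6 k0 [(z3,[y10,z9,z10,z10,z10]),(z3,[y4,z0,
    z13,z4,z4]),(z3,[z5,z0,y5,z4,y5]),(z3,[z8,z0,y8,y8,z1]),(z3,[z2,y9,y11,y11,y11,z9])],.ref k6 k0 [(z2,[y5,z6,z5,z0,
    z10]),(z1,[y1,z0,z4,z0,z2]),(z4,[z5,z0,y5,z12,y10]),(z1,[z2,z0,y2,z0,y1]),(z2,[z1,y6,y7,y6,y8,z6])],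
    .ref k6 k0 [(z1,[y10,z3,z10,z0,z10]),(z1,[y4,z0,z7,z0,z4]),(z1,[z5,z0,y5,z3,y5]),(z1,[z8,z0,y8,z0,y5]),(z1,[z2,y3,
    y5,y3,y5,z3])],.ref k6 k0 [(z1,[z10,z13,z0,z10,z10,y10]),(z1,[z4,z4,z3,z4,z4,y4]),(z1,[y5,y5,z0,y2,y5,z5]),(z1,
    [y8,y8,z0,y8,y5,z8]),(z1,[y2,y5,y3,y5,y5,z5])],.ref k6 k0 [(z7,[y10,z21,z0,z10,z20]),(z7,[y4,z0,z21,z4,z8]),(z7,
    [z5,z0,z0,z16,y10]),(z7,[z8,z0,z0,y8,z5]),(z7,[z2,y21,y21,y23,y25,z21])],.ref k6 k0 [(z2,[y5,z6,z0,z5,z5]),(z1,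
    [y1,z0,z3,z1,z1]),(z4,[z5,z0,z0,z7,y5]),(z1,[z2,z0,z0,y2,z1]),(z2,[z1,y6,y6,y7,y7,z6])],.ref k6 k0 [(z4,[y5,z12,
    z0,z0,z15]),(z2,[y1,z0,z6,z0,z3]),(z8,[z5,z0,z0,z24,y15]),(z1,[z1]),(z4,[z1,y12,y12,y12,y15,z12])],
    .ref k6 k0 [(z1,[y2,z3,z0,z0,z4]),(z5,[y4,z0,z15,z0,z8]),(z1,[z1,z0,z0,z3,y2]),(z5,[z8,z0,z0,z0,y1]),(z5,[z2,y15,
    y15,y15,y19,z15])],.ref k6 k0 [(z3,[y10,y1,y10,y10,z0,z10]),(z3,[y4,y4,z5,y4,z0,z4]),(z3,[z5,z5,z5,z14,z0,y5]),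
    (z3,[z8,z8,z8,z8,z9,y8]),(z3,[z2,y7,y7,y7,y9,z7])],.ref k6 k0 [(z1,[y5,z3,z0,z0,z5]),(z1,[y2,z0,z3,z0,z2]),(z2,
    [z5,z0,z0,z6,y5]),(z1,[z4,z0,z0,z0,y1]),(z1,[z1,y3,y3,y3,y4,z3])]],
    .lp [(nat_lit 328),(nat_lit 286),(nat_lit 328),(nat_lit 330),(nat_lit 326),(nat_lit 320)] [k1,k1,k22,k22,k1,k1,k0,k0,
    k2,k2,k5,k5] k0 [[k0,k0,k58,k46,k0,k0,k0,k0,k0,k0,k22],[k0,k0,k0,k0,k0,k0,k0,k0,k0,k0,k4],[k0,k46,k0,k0,k0,k0,k0,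
    k0,k12],[k0,k58,k0,k0,k8],[k0,k0,k0,k0,k0,k0,k0,k18,k0,k0,k0,k8],[k0,k0,k8,k0,k0,k0,k0,k36],[k0,k0,k0,k0,k36,k18],
    [k0,k0,k0,k0,k0,k0,k0,k0,k18,k16],[k0,k0,k0,k0,k0,k0,k16,k0,k0,k0,k0,k50],[k0,k0,k0,k12,k0,k0,k18],[k0,k0,k0,k0,
    k0,k8,k0,k0,k0,k50],[k4,k22]] (nat_lit 960) k5
    [[(k3,(nat_lit 303)),(k0,(nat_lit 306)),(k8,(nat_lit 327)),(k4,(nat_lit 328)),(k7,(nat_lit 337)),(k11,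
    (nat_lit 374))],[(k2,(nat_lit 261)),(k5,(nat_lit 270)),(k1,(nat_lit 306)),(k9,(nat_lit 327)),(k10,(nat_lit 328)),
    (k6,(nat_lit 329))],[(k1,(nat_lit 303)),(k9,(nat_lit 306)),(k6,(nat_lit 308)),(k10,(nat_lit 325)),(k2,
    (nat_lit 344)),(k5,(nat_lit 353))],[(k0,(nat_lit 261)),(k11,(nat_lit 291)),(k8,(nat_lit 306)),(k7,(nat_lit 308)),
    (k4,(nat_lit 315)),(k3,(nat_lit 344))],[(k0,(nat_lit 270)),(k7,(nat_lit 321)),(k11,(nat_lit 324)),(k4,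
    (nat_lit 328)),(k8,(nat_lit 339)),(k3,(nat_lit 353))],[(k6,(nat_lit 311)),(k2,(nat_lit 315)),(k10,(nat_lit 316)),
    (k1,(nat_lit 328)),(k5,(nat_lit 328)),(k9,(nat_lit 363))],[(k6,(nat_lit 294)),(k2,(nat_lit 308)),(k5,
    (nat_lit 321)),(k10,(nat_lit 325)),(k1,(nat_lit 337)),(k9,(nat_lit 346))],[(k7,(nat_lit 294)),(k3,(nat_lit 308)),
    (k4,(nat_lit 311)),(k0,(nat_lit 329)),(k11,(nat_lit 341)),(k8,(nat_lit 346))],[(k11,(nat_lit 305)),(k3,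
    (nat_lit 306)),(k8,(nat_lit 310)),(k0,(nat_lit 327)),(k7,(nat_lit 346)),(k4,(nat_lit 363))],[(k10,(nat_lit 273)),
    (k2,(nat_lit 306)),(k9,(nat_lit 310)),(k1,(nat_lit 327)),(k5,(nat_lit 339)),(k6,(nat_lit 346))],[(k2,
    (nat_lit 291)),(k9,(nat_lit 305)),(k10,(nat_lit 320)),(k5,(nat_lit 324)),(k6,(nat_lit 341)),(k1,(nat_lit 374))],
    [(k8,(nat_lit 273)),(k4,(nat_lit 316)),(k11,(nat_lit 320)),(k3,(nat_lit 325)),(k7,(nat_lit 325)),(k0,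
    (nat_lit 328))]]
    [] k0
    [[k3,k0,k0,k0,k0,k0],[k2,k1,k0,k0,k0,k0],[k2,k0,k1,k0,k0,k0],[k1,k2,k0,k0,k0,k0],[k1,k1,k1,k0,k0,k0],[k1,k1,k0,k1,
    k0,k0],[k1,k1,k0,k0,k1,k0],[k1,k1,k0,k0,k0,k1],[k1,k0,k2,k0,k0,k0],[k1,k0,k1,k1,k0,k0],[k0,k2,k0,k0,k1,k0],[k0,k1,
    k1,k1,k0,k0],[k0,k1,k0,k2,k0,k0],[k0,k1,k0,k1,k0,k1],[k0,k1,k0,k0,k2,k0],[k0,k1,k0,k0,k1,k1],[k0,k1,k0,k0,k0,k2],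
    [k0,k0,k1,k2,k0,k0],[k0,k0,k0,k3,k0,k0],[k0,k0,k0,k0,k3,k0],[k0,k0,k0,k0,k2,k1],[k0,k0,k0,k0,k1,k2]]
    [.ref k6 k0 [(z1,[z1]),(z2,[z5,y15,z6]),(z4,[y5,z15,z0,z12]),(z2,[y1,z3,z0,z0,z6]),(z1,[y2,z3,y3,y3,y3,z3])],
    .ref k6 k0 [(z3,[z2,z5,y2]),(z3,[z5,y10,z4]),(z6,[y5,z10,z5,z18]),(z3,[y1,z2,z1,z0,z9]),(z3,[y4,y1,y5,y9,y9,z9])],
    .ref k6 k0 [(z1,[z4,y5,z0,y4]),(z1,[z10,y20,z3,y10]),(z1,[y5,z10,z0,z8]),(z1,[y2,z4,z0,z2,z3]),(z1,[y8,z13,y3,z5,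
    y3,z3])],.ref k6 k0 [(z2,[z1,z5,y2]),(z4,[z5,y5,z2]),(z8,[y5,z5,z10,z24]),(z4,[y1,z1,z2,z0,z12]),(z1,[y1,y2,y1,y3,
    y3,z3])],.ref k6 k0 [(z3,[z4,z5,y4,y4]),(z3,[z10,y10,y1,y10]),(z3,[y5,z5,z5,z14]),(z3,[y2,z2,z2,z2,z9]),(z3,[y8,
    y1,y1,y1,y9,z9])],.ref k6 k0 [(z1,[z1,z2,y1,z0,y1]),(z2,[z5,y5,z1,z0,y5]),(z4,[y5,z5,z5,z12,z5]),(z2,[y1,z1,z1,z0,
    z7]),(z1,[y2,y1,y1,y3,y1,z3])],.ref k6 k0 [(z1,[z2,z3,z0,z2,z2,y2]),(z1,[z5,z0,z3,z5,z5,y5]),(z2,[y5,z0,z0,z1,y5,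
    z5]),(z1,[y1,z0,z0,y1,z2,z1]),(z1,[y4,y3,y3,y7,y7,z7])],.ref k6 k0 [(z5,[z4,z11,y4]),(z1,[z2,y2,z1]),(z1,[y1,z1,
    z1,z3]),(z5,[y2,z2,z2,z0,z15]),(z5,[y8,y7,y7,y15,y15,z15])],.ref k6 k0 [(z1,[y2,z5,z0,z4]),(z1,[y5,z5,z3,z10]),
    (z2,[z5,y5,z0,y4]),(z1,[z1,y1,z0,y2,z3]),(z1,[z4,y7,y3,y11,y3,z3])],.ref k6 k0 [(z1,[y4,z7,z0,z4,z4]),(z1,[y10,
    z10,z3,z10,z10]),(z1,[z5,y5,z0,y2,y5]),(z1,[z2,y2,z0,y2,z1]),(z1,[z8,y11,y3,y11,y11,z3])],.ref k6 k0 [(z1,[z1,z4,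
    y1,z1,z1,y1]),(z2,[z5,z5,z1,z5,z5,y5]),(z4,[y5,y5,z5,z7,y5,z5]),(z2,[y1,y1,z1,y1,z5,z1]),(z1,[y2,y5,y1,y5,y5,
    z5])],.ref k6 k0 [(z1,[z4,z3,y4,y4,y4]),(z1,[z10,z0,y7,y10,y10]),(z1,[y5,z0,z5,z8,z5]),(z1,[y2,z0,z2,z2,z5]),(z1,
    [y8,y3,z5,z5,z5,z3])],.ref k6 k0 [(z1,[z2,z3,y2,z0,y4]),(z1,[z5,z0,y2,z0,y10]),(z2,[y5,z0,z5,z6,z10]),(z1,[y1,z0,
    z1,z0,z5]),(z1,[y4,y3,z1,y3,z5,z3])],.ref k6 k0 [(z3,[z4,z9,y4,z0,y4]),(z3,[z10,z0,y1,z0,y10]),(z3,[y5,z0,z5,z9,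
    z5]),(z3,[y2,z0,z2,z0,z11]),(z3,[y8,y9,y1,y9,y1,z9])],.ref k6 k0 [(z1,[y2,y1,y2,y4,y4,z4]),(z1,[y5,y10,y2,y10,y10,
    z10]),(z2,[z5,z10,z5,z16,z10,y10]),(z1,[z1,z2,z1,z2,z5,y2]),(z1,[z4,z5,z1,z5,z5,y5])],.ref k6 k0 [(z1,[z4,z7,z0,
    z4,z4,y4]),(z1,[z10,z10,z3,z10,z10,y10]),(z1,[y5,y5,z0,y2,y5,z5]),(z1,[y2,y2,z0,y2,z1,z2]),(z1,[y8,y11,y3,y11,y11,
    z11])],.ref k6 k0 [(z1,[z1,z3,y1]),(z2,[z5,z0,z1]),(z4,[y5,z0,z5,z12]),(z2,[y1,z0,z1,z0,z6]),(z1,[y2,y3,y1,y3,y3,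
    z3])],.ref k6 k0 [(z3,[y4,z9,z0,z4,z8]),(z3,[y10,z0,z9,z10,z20]),(z3,[z5,z0,z0,z4,y10]),(z3,[z2,z0,z0,y2,z5]),(z3,
    [z8,y9,y9,y17,y25,z9])],.ref k6 k0 [(z1,[y2,z3,z0,z0,z6]),(z1,[y5,z0,z3,z0,z15]),(z2,[z5,z0,z0,z6,y15]),(z1,[z1]),
    (z1,[z4,y3,y3,y3,y15,z3])],.ref k6 k0 [(z2,[y1,z3,y3,y3,y3,z3]),(z4,[y5,y15,y3,y15,y15,z15]),(z8,[z5,z15,z15,z39,
    z15,y15]),(z4,[z1,z3,z3,z3,z15,y3]),(z1,[z1])],.ref k6 k0 [(z5,[y4,z7,y8,y8,y8,z8]),(z1,[y2,y4,y1,y4,y4,z4]),(z1,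
    [z1,z2,z2,z5,z2,y2]),(z5,[z2,z4,z4,z4,z19,y4]),(z5,[z8,z1,z1,z1,z1,y1])],.ref k6 k0 [(z1,[y2,z1,y2,y2,y2,z2]),(z1,
    [y5,y5,y2,y5,y5,z5]),(z2,[z5,z5,z5,z11,z5,y5]),(z1,[z1,z1,z1,z1,z4,y1]),(z1,[z4,z1,z1,z1,z1,y1])]],
    .leafM k6 [k1,k2,k3,k4,k5,k0] [(z1,[z0,y1,y1,y1,z1])] [],
    .lp [(nat_lit 300),(nat_lit 318),(nat_lit 326),(nat_lit 308),(nat_lit 334),(nat_lit 332)] [k17,k17,k8,k8,k4,k4,k13,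
    k13,k0,k0,k1,k1] k0 [[k0,k0,k0,k0,k0,k0,k0,k16,k0,k0,k26,k34],[k0,k0,k50,k60],[k60,k0,k0,k0,k0,k42],[k50],[k0,k0,
    k0,k42,k0,k0,k26],[k0,k0,k0,k0,k0,k0,k0,k0,k0,k0,k34],[k0,k16,k0,k0,k0,k0,k0,k0,k0,k16],[k0,k0,k0,k0,k0,k26],[k0,
    k0,k0,k0,k0,k0,k0,k16],[k0,k0,k0,k0,k0,k0,k0,k0,k0,k0,k0,k12],[k0,k34,k0,k0,k0,k0,k0,k0,k12],[k0,k26,k0,k0,
    k34]] (nat_lit 960) k5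
    [[(k7,(nat_lit 270)),(k0,(nat_lit 274)),(k4,(nat_lit 313)),(k11,(nat_lit 316)),(k8,(nat_lit 329)),(k3,
    (nat_lit 343))],[(k1,(nat_lit 274)),(k10,(nat_lit 282)),(k6,(nat_lit 288)),(k9,(nat_lit 317)),(k2,(nat_lit 359)),
    (k5,(nat_lit 373))],[(k2,(nat_lit 258)),(k5,(nat_lit 272)),(k6,(nat_lit 313)),(k9,(nat_lit 342)),(k1,
    (nat_lit 343)),(k10,(nat_lit 351))],[(k3,(nat_lit 258)),(k4,(nat_lit 280)),(k7,(nat_lit 313)),(k11,(nat_lit 325)),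
    (k8,(nat_lit 326)),(k0,(nat_lit 359))],[(k3,(nat_lit 272)),(k4,(nat_lit 326)),(k11,(nat_lit 329)),(k8,
    (nat_lit 330)),(k7,(nat_lit 359)),(k0,(nat_lit 373))],[(k2,(nat_lit 280)),(k9,(nat_lit 304)),(k1,(nat_lit 313)),
    (k6,(nat_lit 317)),(k5,(nat_lit 326)),(k10,(nat_lit 363))],[(k1,(nat_lit 270)),(k2,(nat_lit 313)),(k10,
    (nat_lit 320)),(k9,(nat_lit 321)),(k6,(nat_lit 334)),(k5,(nat_lit 359))],[(k0,(nat_lit 288)),(k8,(nat_lit 305)),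
    (k3,(nat_lit 313)),(k4,(nat_lit 317)),(k11,(nat_lit 320)),(k7,(nat_lit 334))],[(k4,(nat_lit 304)),(k0,
    (nat_lit 317)),(k7,(nat_lit 321)),(k8,(nat_lit 334)),(k3,(nat_lit 342)),(k11,(nat_lit 349))],[(k6,(nat_lit 305)),
    (k2,(nat_lit 326)),(k1,(nat_lit 329)),(k5,(nat_lit 330)),(k10,(nat_lit 333)),(k9,(nat_lit 334))],[(k1,
    (nat_lit 316)),(k6,(nat_lit 320)),(k10,(nat_lit 320)),(k2,(nat_lit 325)),(k5,(nat_lit 329)),(k9,(nat_lit 349))],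
    [(k0,(nat_lit 282)),(k7,(nat_lit 320)),(k11,(nat_lit 320)),(k8,(nat_lit 333)),(k3,(nat_lit 351)),(k4,
    (nat_lit 363))]]
    [] k0
    [[k3,k0,k0,k0,k0,k0],[k2,k0,k0,k1,k0,k0],[k2,k0,k0,k0,k1,k0],[k2,k0,k0,k0,k0,k1],[k1,k1,k0,k1,k0,k0],[k1,k1,k0,k0,
    k0,k1],[k1,k1,k1,k0,k0,k0],[k1,k0,k1,k0,k0,k1],[k1,k0,k0,k2,k0,k0],[k1,k0,k0,k1,k1,k0],[k1,k0,k0,k1,k0,k1],[k1,k0,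
    k0,k0,k0,k2],[k0,k3,k0,k0,k0,k0],[k0,k2,k1,k0,k0,k0],[k0,k2,k0,k1,k0,k0],[k0,k2,k0,k0,k1,k0],[k0,k2,k0,k0,k0,k1],
    [k0,k1,k2,k0,k0,k0],[k0,k1,k1,k1,k0,k0],[k0,k1,k1,k0,k1,k0],[k0,k1,k0,k1,k0,k1]]
    [.ref k6 k0 [(z1,[z1]),(z2,[y1,z3,z6]),(z5,[y1,z3,z0,z15]),(z5,[y4,z12,z0,z0,z15]),(z5,[z2,y21,y15,y15,y15,z15])],
    .ref k6 k0 [(z2,[z5,y4,z0,z0,y5]),(z4,[y5,z10,z12,z0,z5]),(z2,[y1,z2,z0,z6,z1]),(z1,[y2,z4,z0,z0,z5]),(z1,[z1,y5,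
    y3,y3,y4,z3])],.ref k6 k0 [(z4,[z5,z7,z5,z5,z5,y5]),(z8,[y5,z5,z19,y5,y5,z5]),(z4,[y1,z1,y1,z11,y1,z1]),(z1,[y1,
    z1,y1,y1,z2,z1]),(z2,[z1,y7,y5,y5,y5,z5])],.ref k6 k0 [(z7,[z10,z1]),(z7,[y5,z10,z21]),(z7,[y2,z4,z0,z21]),(z7,
    [y8,z16,z0,z0,z21]),(z7,[z4,y29,y21,y21,y21,z21])],.ref k6 k0 [(z1,[y10,z13,z10,z0,z10]),(z1,[z5,y5,y2,z0,y5]),
    (z1,[z2,y2,y2,z3,y2]),(z1,[z8,y8,y8,z0,y5]),(z1,[y4,z1,z1,y3,z1,z3])],.ref k6 k0 [(z1,[z5,y2,y5]),(z2,[y5,z5,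
    z11]),(z1,[y1,z1,z1,z3]),(z1,[y4,z4,z4,z0,z3]),(z1,[z2,y5,y5,y3,y3,z3])],.ref k6 k0 [(z1,[z10,y7,y10,y10]),(z1,
    [y5,z5,z8,z5]),(z1,[y2,z2,z2,z5]),(z1,[y8,z8,z8,z8,z3]),(z1,[z4,y7,y7,y7,y3,z3])],.ref k6 k0 [(z3,[z10,y1,z0,
    y10]),(z3,[y5,z5,z9,z5]),(z3,[y2,z2,z0,z11]),(z3,[y8,z8,z0,z8,z9]),(z3,[z4,y13,y9,y13,y9,z9])],.ref k6 k0 [(z1,
    [y5,z8,z0,z0,z10]),(z2,[z5,y5,z6,z0,y10]),(z1,[z1,y1,z0,z3,y2]),(z1,[z4,y4,z0,z0,y5]),(z1,[y2,y1,y3,y3,z1,z3])],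
    .ref k6 k0 [(z1,[z5,z3,z5,z5,z0,y5]),(z2,[y5,z0,z1,y5,z0,z5]),(z1,[y1,z0,y1,z2,z0,z1]),(z1,[y4,z0,y4,y4,z3,z4]),
    (z1,[z2,y3,y1,y1,y3,z1])],.ref k6 k0 [(z1,[z10,y7,z0,z0,y10]),(z1,[y5,z5,z3,z0,z5]),(z1,[y2,z2,z0,z3,z2]),(z1,[y8,
    z8,z0,z0,z11]),(z1,[z4,y7,y3,y3,y7,z3])],.ref k6 k0 [(z2,[z5,z1]),(z4,[y5,z5,z12]),(z2,[y1,z1,z0,z6]),(z1,[y2,z2,
    z0,z0,z3]),(z1,[z1,y4,y3,y3,y3,z3])],.ref k6 k0 [(z1,[y2,z3,z6]),(z1,[z1]),(z5,[z2,z0,y6,z15]),(z5,[z8,z0,y24,z0,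
    z15]),(z5,[y4,y15,y3,y15,y15,z15])],.ref k6 k0 [(z2,[y5,z6,z10,z5]),(z4,[z5,z0,z2,y5]),(z2,[z1,z0,y2,z5]),(z1,[z2,
    z0,y4,y2,z3]),(z1,[y1,y3,y1,y2,y3,z3])],.ref k6 k0 [(z3,[y5,z9,z10,z0,z5]),(z6,[z5,z0,z8,z0,y5]),(z3,[z1,z0,y2,z9,
    y1]),(z3,[z4,z0,y8,z0,z5]),(z3,[y2,y9,y5,y9,y7,z9])],.ref k6 k0 [(z1,[y5,y2,z5,y5,y5,z5]),(z2,[z5,z5,z1,z5,z5,
    y5]),(z1,[z1,z1,y1,z4,z1,y1]),(z1,[z4,z4,y4,z4,z7,y4]),(z1,[y2,y5,y1,y5,y5,z5])],.ref k6 k0 [(z3,[y10,z9,z20]),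
    (z3,[z5,z0,y1]),(z3,[z2,z0,y4,z9]),(z3,[z8,z0,y16,z0,z9]),(z3,[y4,y9,y1,y9,y9,z9])],.ref k6 k0 [(z3,[y10,z9,z10,
    z20]),(z3,[z5,z0,z4,y10]),(z3,[z2,z0,y2,z5]),(z3,[z8,z0,y8,y16,z9]),(z3,[y4,y9,y5,y1,y9,z9])],.ref k6 k0 [(z1,[y2,
    z3,z2,z2,z2]),(z1,[z1,z0,z2,y1,y1]),(z5,[z2,z0,y2,z13,y2]),(z5,[z8,z0,y8,y8,z7]),(z5,[y4,y15,y11,y11,y11,z15])],
    .ref k6 k0 [(z1,[y10,y7,z0,z0,y10,z10]),(z1,[z5,z5,z3,z0,z5,y5]),(z1,[z2,z2,z0,z3,z2,y2]),(z1,[z8,z8,z0,z0,z11,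
    y8]),(z1,[y4,y7,y3,y3,y7,z7])],.ref k6 k0 [(z2,[y5,z6,z5,z0,z5]),(z4,[z5,z0,z7,z0,y5]),(z2,[z1,z0,y1,z6,y1]),(z1,
    [z2,z0,y2,z0,z1]),(z1,[y1,y3,y2,y3,y2,z3])]],
    .lp [k174,k140,k182,k142,k160,k160] [k4,k4,k21,k21,k0,k0,k20,k20,k11,k11,k11,k11] k0 [[k0,k0,k36,k0,k0,k0,k14,k16],
    [k0,k0,k0,k0,k0,k0,k0,k0,k0,k0,k10,k6],[k0,k0,k0,k0,k2,k0,k0,k0,k2],[k0,k36,k0,k0,k4],[k0,k0,k0,k0,k0,k0,k0,k24,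
    k0,k0,k20],[k0,k0,k4,k2],[k0,k16,k0,k0,k0,k24],[k0,k14,k0,k0,k0,k0,k0,k0,k24],[],[k0,k0,k0,k2,k0,k0,k24],[k6],
    [k10,k0,k0,k0,k0,k20]] (nat_lit 480) k5
    [[(k3,k147),(k4,k158),(k7,k158),(k8,k167),(k11,k167),(k0,k180)],[(k5,k142),(k6,k142),(k9,k153),(k2,k157),(k10,
    k177),(k1,k180)],[(k10,k144),(k1,k147),(k6,k155),(k5,k161),(k9,k166),(k2,k176)],[(k7,k139),(k11,k148),(k8,k150),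
    (k0,k157),(k4,k165),(k3,k176)],[(k0,k142),(k7,k158),(k3,k161),(k11,k171),(k8,k173),(k4,k184)],[(k6,k138),(k1,
    k158),(k2,k165),(k9,k171),(k10,k171),(k5,k184)],[(k2,k139),(k6,k142),(k1,k158),(k5,k158),(k10,k171),(k9,k175)],
    [(k4,k138),(k0,k142),(k7,k142),(k11,k151),(k3,k155),(k8,k175)],[(k11,k136),(k0,k153),(k8,k160),(k3,k166),(k4,
    k171),(k7,k175)],[(k2,k150),(k9,k160),(k10,k160),(k1,k167),(k5,k173),(k6,k175)],[(k9,k136),(k2,k148),(k6,k151),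
    (k10,k160),(k1,k167),(k5,k171)],[(k3,k144),(k8,k160),(k11,k160),(k4,k171),(k7,k171),(k0,k177)]]
    [] k0
    [[k1,k1,k1,k0,k0,k0],[k1,k1,k0,k1,k0,k0],[k1,k1,k0,k0,k1,k0],[k1,k1,k0,k0,k0,k1],[k1,k0,k1,k1,k0,k0],[k1,k0,k0,k2,
    k0,k0],[k0,k2,k0,k1,k0,k0],[k0,k2,k0,k0,k0,k1],[k0,k1,k1,k1,k0,k0],[k0,k1,k0,k2,k0,k0],[k0,k1,k0,k1,k0,k1],[k0,k1,
    k0,k0,k2,k0],[k0,k1,k0,k0,k1,k1],[k0,k1,k0,k0,k0,k2],[k0,k0,k1,k2,k0,k0],[k0,k0,k0,k3,k0,k0],[k0,k0,k0,k2,k0,k1],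
    [k0,k0,k0,k0,k2,k1],[k0,k0,k0,k0,k1,k2]]
    [.ref k6 k0 [(z1,[z3,z0,y1,y3]),(z2,[z3,y3,z1,y3]),(z2,[y3,z3,z1,z9]),(z4,[y15,z15,z5,z15,z12]),(z1,[z0,y3,y1,y3,
    y3,z3])],.ref k6 k0 [(z1,[z12,y9,y4,z0,y12]),(z1,[z6,y6,y1,z0,y6]),(z1,[y6,z6,z2,z3,z6]),(z1,[y15,z15,z5,z0,z18]),
    (z1,[z0,y3,y1,y3,y3,z3])],.ref k6 k0 [(z1,[z2,z3,z0,z2,z2,y2]),(z1,[z1,z0,z1,z1,z1,y1]),(z1,[y1,z0,z0,z2,y1,z1]),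
    (z2,[y5,z0,z0,y5,z1,z5]),(z1,[z0,y3,y1,y3,y3,z3])],.ref k6 k0 [(z7,[z12,z9,y4]),(z7,[z6,y6,z5]),(z7,[y6,z6,z2,
    z21]),(z7,[y15,z15,z5,z0,z21]),(z1,[z0,y3,y1,y3,y3,z3])],.ref k6 k0 [(z1,[y4,z7,z0,z4,z4]),(z1,[y2,z2,z1,z2,z2]),
    (z1,[z2,y2,z0,z1,y2]),(z1,[z5,y5,z0,y5,y2]),(z1,[z0,y3,y1,y3,y3,z3])],.ref k6 k0 [(z1,[y2,z5,z0,z0,z4]),(z1,[y1,
    z1,z1,z0,z2]),(z1,[z1,y1,z0,z3,y2]),(z2,[z5,y5,z0,z0,y4]),(z1,[z0,y3,y1,y3,y3,z3])],.ref k6 k0 [(z1,[y12,z3,z8,z0,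
    z12]),(z1,[y6,z0,z5,z0,z6]),(z1,[z6,z0,y4,z3,y6]),(z1,[z15,z0,y10,z0,y12]),(z1,[z0,y3,y1,y3,y3,z3])],
    .ref k6 k0 [(z5,[z12,z15,y8]),(z5,[z6,z0,z1]),(z5,[y6,z0,z4,z15]),(z1,[y3,z0,z2,z0,z3]),(z1,[z0,y3,y1,y3,y3,z3])],
    .ref k6 k0 [(z5,[y12,z15,z4,z12,z12]),(z5,[y6,z0,z7,z6,z6]),(z5,[z6,z0,y2,z9,y6]),(z1,[z3,z0,y1,y3]),(z1,[z0,y3,
    y1,y3,y3,z3])],.ref k6 k0 [(z2,[y3,z6,z1,z0,z6]),(z4,[y3,z0,z5,z0,z6]),(z4,[z3,z0,y1,z12,y6]),(z8,[z15,z0,y5,z0,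
    y6]),(z1,[z0,y3,y1,y3,y3,z3])],.ref k6 k0 [(z1,[y6,z3,z2,z0,z6]),(z1,[y3,z0,z2,z0,z3]),(z1,[z3,z0,y1,z3,y3]),(z2,
    [z15,z0,y5,z0,y9]),(z1,[z0,y3,y1,y3,y3,z3])],.ref k6 k0 [(z1,[z6,z15,z2,z12,z12,y12]),(z1,[z3,z6,z2,z6,z6,y6]),
    (z1,[y3,y6,y1,y3,y6,z6]),(z2,[y15,y30,y5,y30,y24,z30]),(z1,[z0,y3,y1,y3,y3,z3])],.ref k6 k0 [(z1,[z4,z7,z0,z4,z4,
    y4]),(z1,[z2,z2,z1,z2,z2,y2]),(z1,[y2,y2,z0,z1,y2,z2]),(z1,[y5,y5,z0,y5,y2,z5]),(z1,[z0,y3,y1,y3,y3,z3])],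
    .ref k6 k0 [(z1,[z3,z3,y1]),(z2,[z3,z0,z1]),(z2,[y3,z0,z1,z6]),(z4,[y15,z0,z5,z0,z12]),(z1,[z0,y3,y1,y3,y3,z3])],
    .ref k6 k0 [(z1,[y1,z3,z0,z1,z2]),(z2,[y1,z0,z2,z1,z2]),(z2,[z1,z0,z0,z5,y2]),(z4,[z5,z0,z0,y5,z2]),(z1,[z0,y3,y1,
    y3,y3,z3])],.ref k6 k0 [(z5,[y4,z15,z0,z0,z12]),(z5,[y2,z0,z5,z0,z6]),(z5,[z2,z0,z0,z15,y6]),(z1,[z1]),(z1,[z0,y3,
    y1,y3,y3,z3])],.ref k6 k0 [(z3,[y4,z9,z0,z0,z8]),(z3,[y2,z0,z3,z0,z4]),(z3,[z2,z0,z0,z9,y4]),(z3,[z5,z0,z0,z0,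
    y1]),(z1,[z0,y3,y1,y3,y3,z3])],.ref k6 k0 [(z1,[z12,z27,z8,z24,z24,y24]),(z1,[z6,z12,z5,z12,z12,y12]),(z1,[y6,y12,
    y4,y9,y12,z12]),(z1,[y15,y30,y10,y30,y27,z30]),(z1,[z0,y3,y1,y3,y3,z3])],.ref k6 k0 [(z1,[z6,z9,z2,z6,z6,y6]),(z1,
    [z3,z3,z2,z3,z3,y3]),(z1,[y3,y3,y1,z0,y3,z3]),(z2,[y15,y15,y5,y15,y9,z15]),(z1,[z0,y3,y1,y3,y3,z3])]],
    .lp [k156,k160,k164,k150,k156,k172] [k8,k8,k6,k6,k4,k4,k11,k11,k8,k8,k0,k0] k0 [[k0,k0,k0,k0,k0,k0,k0,k26],[k0,k0,k4,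
    k0,k0,k0,k0,k0,k0,k0,k0,k12],[k0,k0,k0,k0,k12,k0,k0,k0,k12],[k4,k0,k0,k0,k0,k0,k0,k0,k4],[k0,k0,k0,k0,k0,k0,k0,
    k10,k0,k0,k8],[k0,k0,k0,k12,k0,k0,k0,k12],[k0,k26,k0,k0,k12,k10],[k0,k0,k0,k0,k0,k0,k0,k0,k0,k12],[k0,k0,k0,k0,k0,
    k0,k12,k0,k0,k0,k0,k20],[k0,k0,k4,k12],[k12,k0,k0,k0,k0,k0,k0,k0,k0,k20],[k0,k0,k0,k0,k0,k8]] (nat_lit 480) k5
    [[(k4,k152),(k7,k153),(k8,k156),(k3,k158),(k0,k168),(k11,k184)],[(k6,k127),(k9,k156),(k5,k160),(k2,k162),(k10,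
    k164),(k1,k168)],[(k10,k154),(k6,k155),(k1,k158),(k5,k158),(k2,k160),(k9,k184)],[(k7,k143),(k11,k154),(k3,k160),
    (k0,k162),(k4,k162),(k8,k162)],[(k7,k157),(k3,k158),(k0,k160),(k11,k164),(k8,k172),(k4,k176)],[(k6,k147),(k1,
    k152),(k2,k162),(k10,k168),(k9,k172),(k5,k176)],[(k6,k138),(k2,k143),(k1,k153),(k5,k157),(k9,k163),(k10,k169)],
    [(k0,k127),(k7,k138),(k4,k147),(k8,k153),(k3,k155),(k11,k173)],[(k8,k144),(k0,k156),(k7,k163),(k11,k164),(k4,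
    k172),(k3,k184)],[(k9,k144),(k10,k144),(k6,k153),(k1,k156),(k2,k162),(k5,k172)],[(k2,k154),(k5,k164),(k9,k164),
    (k10,k172),(k6,k173),(k1,k184)],[(k8,k144),(k3,k154),(k0,k164),(k4,k168),(k7,k169),(k11,k172)]]
    [] k0
    [[k2,k0,k0,k1,k0,k0],[k1,k1,k0,k1,k0,k0],[k1,k1,k0,k0,k1,k0],[k1,k1,k0,k0,k0,k1],[k1,k1,k1,k0,k0,k0],[k1,k0,k1,k1,
    k0,k0],[k1,k0,k0,k2,k0,k0],[k1,k0,k0,k1,k1,k0],[k1,k0,k0,k0,k2,k0],[k0,k2,k0,k1,k0,k0],[k0,k2,k0,k0,k0,k1],[k0,k1,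
    k1,k1,k0,k0],[k0,k1,k0,k2,k0,k0],[k0,k1,k0,k1,k0,k1],[k0,k0,k1,k2,k0,k0],[k0,k0,k0,k3,k0,k0],[k0,k0,k0,k2,k1,k0],
    [k0,k0,k0,k1,k2,k0],[k0,k0,k0,k0,k3,k0],[k0,k0,k0,k0,k2,k1]]
    [.ref k17 k7 [(z1,[z1,y1,z1,z1,y1]),(z1,[z4,y1,z4,z4,y4]),(z1,[z2,y2,z5,z2,y2]),(z1,[y2,z2,y2,z1,z2])],
    .ref k37 k3 [(z1,[y4,z1,y4,y4,z4]),(z1,[y1,z0,y1,y1,z1]),(z1,[y2,z0,y1,y2,z2]),(z1,[z5,y1,z4,z4,y4])],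
    .ref k17 k7 [(z2,[z1,y1,y1]),(z1,[z2,z1,y2]),(z1,[z1,y1,z2]),(z1,[y1,z1,z1,z3])],.ref k83 k6 [(z1,[y1,z1,z1]),(z1,
    [z0,y1,y1,y1,z1]),(z1,[z0,z0,z0,z1]),(z1,[z1,y1])],.ref k72 k0 [(z1,[z0,z1]),(z1,[z1,y1,z0,y1]),(z1,[z0,z0,z0,
    z1]),(z1,[z0,y1,y1,y1,z1])],.ref k17 k7 [(z1,[y1,z0,y1,z0,z1]),(z1,[y4,z3,y4,z0,z4]),(z1,[y2,z0,z1,z0,z2]),(z1,
    [z2,z0,z2,z3,y2])],.ref k17 k7 [(z2,[y1,y1,y2,y2,z2]),(z1,[y2,z1,y4,y4,z4]),(z1,[y1,y1,z1,y2,z2]),(z1,[z1,z1,z2,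
    z5,y2])],.ref k37 k3 [(z1,[z4,z1,z0,z4,y4]),(z1,[z1,z0,z0,z1,y1]),(z1,[z2,z0,z1,z2,y2]),(z1,[y5,y1,y1,y6,z6])],
    .ref k84 k0 [(z1,[z0,z1]),(z2,[y1,z1,z2]),(z1,[z0,z0,z0,z1]),(z1,[z0,y1,y1,y1,z1])],.ref k85 k9 [(z1,[z5,z4,y6,z4,
    y4]),(z1,[z2,z2,y2,z3,y2]),(z1,[y2,y2,z3,y2,z2]),(z1,[y4,y3,z4,y4,z4])],.ref k86 k1 [(z1,[y2,z0,z0,z1]),(z1,[y5,
    y1,y1,y1,z1]),(z1,[z2,z0,z1]),(z1,[z1])],.ref k87 k0 [(z1,[z0,z1]),(z1,[z1,z1,z1,z0,y1]),(z1,[z0,z0,z0,z1]),(z1,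
    [z0,y1,y1,y1,z1])],.ref k59 k0 [(z1,[z0,z1]),(z1,[z1,z2,z2,z2,y2]),(z1,[z0,z0,z0,z1]),(z1,[z0,y1,y1,y1,z1])],
    .ref k84 k0 [(z1,[z0,z1]),(z1,[z1,z1,z1,z1,y1]),(z1,[z0,z0,z0,z1]),(z1,[z0,y1,y1,y1,z1])],.ref k17 k7 [(z4,[y1,y2,
    y2,y1,z2]),(z1,[y1,z1,y2,y1,z2]),(z2,[y1,y2,z4,y1,z2]),(z2,[z1,z2,z2,z7,y2])],.ref k17 k7 [(z5,[y1,y3,y3,y3,z3]),
    (z5,[y4,z3,y12,y12,z12]),(z5,[y2,y6,z9,y6,z6]),(z5,[z2,z6,z6,z21,y6])],.ref k88 k6 [(z1,[z1,z2,z2,z2,y2]),(z1,[z0,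
    y1,y1,y1,z1]),(z1,[z0,z0,z0,z1]),(z1,[y1,y2,y1,y2,z2])],.ref k86 k1 [(z1,[z2,z2,y2,z3,y2]),(z1,[z5,z4,y6,z4,y4]),
    (z1,[y2,y2,z3,y2,z2]),(z1,[y1,y1,z1,y1,z1])],.ref k89 k0 [(z1,[z0,z1]),(z1,[y1,z0,z3]),(z1,[z0,z0,z0,z1]),(z1,[z0,
    y1,y1,y1,z1])],.ref k85 k9 [(z1,[y5,y1,y1,y1,z1]),(z1,[y2,z0,z0,z1]),(z1,[z2,z0,z1]),(z1,[z4,z1])]],
    .leafM k6 [k0,k1,k2,k3,k4,k5] [(z2,[y1,y1,y2,z2])] [],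
    .lp [(nat_lit 314),(nat_lit 304),(nat_lit 328),(nat_lit 312),(nat_lit 338),(nat_lit 320)] [k12,k12,k17,k17,k5,k5,k13,
    k13,k0,k0,k9,k9] k0 [[k0,k0,k60,k16,k0,k0,k6],[k0,k0,k0,k0,k0,k0,k0,k0,k0,k0,k6,k12],[k0,k16,k0,k0,k12,k0,k0,k0,
    k0,k20],[k0,k60],[k0,k0,k0,k0,k0,k0,k0,k20,k0,k0,k14,k8],[k0,k0,k0,k12,k0,k0,k0,k40],[k0,k0,k0,k0,k40,k20],[k0,k6,
    k0,k0,k0,k0,k0,k0,k18],[k0,k0,k0,k20],[k0,k0,k0,k0,k0,k0,k18],[k12,k0,k0,k0,k0,k8],[k6,k0,k0,k0,k0,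
    k14]] (nat_lit 960) k5
    [[(k3,(nat_lit 303)),(k4,(nat_lit 307)),(k11,(nat_lit 317)),(k7,(nat_lit 321)),(k0,(nat_lit 326)),(k8,
    (nat_lit 326))],[(k5,(nat_lit 261)),(k2,(nat_lit 293)),(k6,(nat_lit 313)),(k9,(nat_lit 320)),(k10,(nat_lit 323)),
    (k1,(nat_lit 326))],[(k10,(nat_lit 300)),(k1,(nat_lit 303)),(k6,(nat_lit 314)),(k9,(nat_lit 321)),(k5,
    (nat_lit 332)),(k2,(nat_lit 364))],[(k0,(nat_lit 293)),(k7,(nat_lit 296)),(k8,(nat_lit 301)),(k11,(nat_lit 312)),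
    (k4,(nat_lit 316)),(k3,(nat_lit 364))],[(k0,(nat_lit 261)),(k7,(nat_lit 320)),(k3,(nat_lit 332)),(k8,
    (nat_lit 333)),(k4,(nat_lit 340)),(k11,(nat_lit 344))],[(k6,(nat_lit 300)),(k1,(nat_lit 307)),(k2,(nat_lit 316)),
    (k10,(nat_lit 316)),(k5,(nat_lit 340)),(k9,(nat_lit 373))],[(k6,(nat_lit 272)),(k2,(nat_lit 296)),(k5,
    (nat_lit 320)),(k1,(nat_lit 321)),(k10,(nat_lit 330)),(k9,(nat_lit 345))],[(k7,(nat_lit 272)),(k4,(nat_lit 300)),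
    (k0,(nat_lit 313)),(k3,(nat_lit 314)),(k11,(nat_lit 316)),(k8,(nat_lit 343))],[(k11,(nat_lit 311)),(k0,
    (nat_lit 320)),(k3,(nat_lit 321)),(k8,(nat_lit 338)),(k7,(nat_lit 345)),(k4,(nat_lit 373))],[(k2,(nat_lit 301)),
    (k1,(nat_lit 326)),(k10,(nat_lit 329)),(k5,(nat_lit 333)),(k9,(nat_lit 338)),(k6,(nat_lit 343))],[(k9,
    (nat_lit 311)),(k2,(nat_lit 312)),(k6,(nat_lit 316)),(k1,(nat_lit 317)),(k10,(nat_lit 320)),(k5,(nat_lit 344))],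
    [(k3,(nat_lit 300)),(k4,(nat_lit 316)),(k11,(nat_lit 320)),(k0,(nat_lit 323)),(k8,(nat_lit 329)),(k7,
    (nat_lit 330))]]
    [] k0
    [[k2,k1,k0,k0,k0,k0],[k2,k0,k1,k0,k0,k0],[k1,k1,k1,k0,k0,k0],[k1,k1,k0,k1,k0,k0],[k1,k1,k0,k0,k1,k0],[k1,k1,k0,k0,
    k0,k1],[k1,k0,k2,k0,k0,k0],[k1,k0,k1,k1,k0,k0],[k1,k0,k0,k2,k0,k0],[k1,k0,k1,k0,k0,k1],[k0,k1,k1,k1,k0,k0],[k0,k1,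
    k0,k2,k0,k0],[k0,k1,k0,k1,k0,k1],[k0,k1,k0,k0,k1,k1],[k0,k1,k0,k0,k0,k2],[k0,k0,k1,k2,k0,k0],[k0,k0,k1,k1,k0,k1],
    [k0,k0,k0,k3,k0,k0],[k0,k0,k0,k2,k0,k1]]
    [.ref k6 k0 [(z2,[z3,z0,y1]),(z1,[z0,z0,z1]),(z1,[z0,z0,z0,z1]),(z1,[y3,z6,z1,z0,z3]),(z1,[z0,y3,y1,y1,y3,z3])],
    .ref k6 k0 [(z2,[z3,z0,z0,y1]),(z1,[z0,z0,z1]),(z1,[z0,z0,z0,z1]),(z1,[y3,z6,z0,z1,z3]),(z1,[z0,y3,y1,y1,y3,z3])],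
    .ref k6 k0 [(z1,[z3,z0,y1,y1]),(z1,[z0,z0,z1]),(z1,[z0,z0,z0,z1]),(z1,[y6,z6,z2,z2,z3]),(z1,[z0,y3,y1,y1,y3,z3])],
    .ref k6 k0 [(z1,[y3,z6,z1,z0,z3]),(z1,[z0,z0,z1]),(z1,[z0,z0,z0,z1]),(z1,[z6,y6,y2,z0,y3]),(z1,[z0,y3,y1,y1,y3,
    z3])],.ref k6 k0 [(z1,[z3,z3,z0,z1,z3,y3]),(z1,[z0,z0,z1]),(z1,[z0,z0,z0,z1]),(z1,[y6,z0,z0,y2,y3,z6]),(z1,[z0,y3,
    y1,y1,y3,z3])],.ref k6 k0 [(z2,[z3,z3,y1]),(z1,[z0,z0,z1]),(z1,[z0,z0,z0,z1]),(z1,[y3,z3,z1,z0,z3]),(z1,[z0,y3,y1,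
    y1,y3,z3])],.ref k6 k0 [(z1,[z3,z0,z0,y2]),(z1,[z0,z0,z1]),(z1,[z0,z0,z0,z1]),(z1,[y6,z6,z0,z4,z3]),(z1,[z0,y3,y1,
    y1,y3,z3])],.ref k6 k0 [(z1,[y3,z6,z0,z1,z3]),(z1,[z0,z0,z1]),(z1,[z0,z0,z0,z1]),(z1,[z6,y6,z0,y2,y3]),(z1,[z0,y3,
    y1,y1,y3,z3])],.ref k6 k0 [(z1,[y1,z4,z0,z0,z2]),(z1,[z0,z0,z1]),(z1,[z0,z0,z0,z1]),(z1,[z2,y2,z0,z0,y1]),(z1,[z0,
    y3,y1,y1,y3,z3])],.ref k6 k0 [(z2,[z3,z3,z0,y1]),(z1,[z0,z0,z1]),(z1,[z0,z0,z0,z1]),(z1,[y3,z3,z0,z1,z3]),(z1,[z0,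
    y3,y1,y1,y3,z3])],.ref k6 k0 [(z2,[y3,z6,z1,z1,z3]),(z1,[z0,z0,z1]),(z1,[z0,z0,z0,z1]),(z1,[z3,z0,y1,y1]),(z1,[z0,
    y3,y1,y1,y3,z3])],.ref k6 k0 [(z4,[y3,z12,z1,z0,z6]),(z1,[z0,z0,z1]),(z1,[z0,z0,z0,z1]),(z2,[z3,z0,y1]),(z1,[z0,
    y3,y1,y1,y3,z3])],.ref k6 k0 [(z1,[y3,z3,z1,z0,z3]),(z1,[z0,z0,z1]),(z1,[z0,z0,z0,z1]),(z1,[z6,z0,y2,z0,y3]),(z1,
    [z0,y3,y1,y1,y3,z3])],.ref k6 k0 [(z1,[z3,z6,z0,z1,z3,y3]),(z1,[z0,z0,z1]),(z1,[z0,z0,z0,z1]),(z1,[y6,y6,z0,y2,y3,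
    z6]),(z1,[z0,y3,y1,y1,y3,z3])],.ref k6 k0 [(z2,[z3,z6,y1]),(z1,[z0,z0,z1]),(z1,[z0,z0,z0,z1]),(z1,[y3,z0,z1,z0,
    z3]),(z1,[z0,y3,y1,y1,y3,z3])],.ref k6 k0 [(z4,[y3,z12,z0,z1,z6]),(z1,[z0,z0,z1]),(z1,[z0,z0,z0,z1]),(z2,[z3,z0,
    z0,y1]),(z1,[z0,y3,y1,y1,y3,z3])],.ref k6 k0 [(z1,[y3,z3,z0,z1,z3]),(z1,[z0,z0,z1]),(z1,[z0,z0,z0,z1]),(z1,[z6,z0,
    z0,y2,y3]),(z1,[z0,y3,y1,y1,y3,z3])],.ref k6 k0 [(z2,[y1,z6,z0,z0,z3]),(z1,[z0,z0,z1]),(z1,[z0,z0,z0,z1]),(z1,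
    [z1]),(z1,[z0,y3,y1,y1,y3,z3])],.ref k6 k0 [(z1,[y1,z3,z0,z0,z2]),(z1,[z0,z0,z1]),(z1,[z0,z0,z0,z1]),(z1,[z2,z0,
    z0,z0,y1]),(z1,[z0,y3,y1,y1,y3,z3])]],
    .lp [(nat_lit 216),(nat_lit 234),(nat_lit 238),(nat_lit 240),(nat_lit 246),(nat_lit 260)] [k26,k18,k13,k13,k11,k11,
    k10,k10,k7,k7,k0,k0] k0 [[k0,k0,k0,k0,k0,k0,k2,k14],[k0,k0,k56,k0,k0,k0,k0,k0,k0,k0,k2],[k0,k0,k0,k0,k0,k14,k0,k0,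
    k8,k2],[k56,k0,k0,k0,k0,k10],[k0,k0,k10,k14],[k0,k0,k0,k0,k0,k0,k0,k0,k0,k0,k52,k14],[k0,k14],[k0,k2],[k0,k0,k0,
    k2,k0,k0,k0,k0,k0,k0,k0,k26],[k0,k0,k0,k8,k0,k0,k0,k0,k0,k0,k0,k20],[k0,k0,k0,k0,k14,k0,k0,k0,k20,k26],[k2,k0,k0,
    k0,k52]] (nat_lit 720) k5
    [[(k7,k180),(k0,(nat_lit 216)),(k3,(nat_lit 227)),(k4,(nat_lit 245)),(k8,(nat_lit 255)),(k11,(nat_lit 268))],[(k6,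
    (nat_lit 210)),(k1,(nat_lit 216)),(k5,(nat_lit 223)),(k9,(nat_lit 225)),(k10,(nat_lit 236)),(k2,(nat_lit 277))],
    [(k5,k180),(k1,(nat_lit 227)),(k2,(nat_lit 234)),(k6,(nat_lit 239)),(k10,(nat_lit 247)),(k9,(nat_lit 254))],[(k4,
    (nat_lit 222)),(k3,(nat_lit 234)),(k8,(nat_lit 238)),(k11,(nat_lit 239)),(k7,(nat_lit 247)),(k0,(nat_lit 277))],
    [(k3,k180),(k0,(nat_lit 223)),(k4,(nat_lit 228)),(k8,(nat_lit 250)),(k11,(nat_lit 251)),(k7,(nat_lit 253))],[(k2,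
    (nat_lit 222)),(k5,(nat_lit 228)),(k6,(nat_lit 239)),(k9,(nat_lit 242)),(k1,(nat_lit 245)),(k10,(nat_lit 301))],
    [(k1,k180),(k10,(nat_lit 236)),(k6,(nat_lit 240)),(k9,(nat_lit 243)),(k2,(nat_lit 247)),(k5,(nat_lit 253))],[(k0,
    (nat_lit 210)),(k3,(nat_lit 239)),(k4,(nat_lit 239)),(k7,(nat_lit 240)),(k8,(nat_lit 243)),(k11,(nat_lit 250))],
    [(k0,(nat_lit 225)),(k4,(nat_lit 242)),(k7,(nat_lit 243)),(k8,(nat_lit 246)),(k11,(nat_lit 253)),(k3,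
    (nat_lit 254))],[(k10,(nat_lit 227)),(k2,(nat_lit 238)),(k6,(nat_lit 243)),(k9,(nat_lit 246)),(k5,(nat_lit 250)),
    (k1,(nat_lit 255))],[(k2,(nat_lit 239)),(k10,(nat_lit 240)),(k6,(nat_lit 250)),(k5,(nat_lit 251)),(k9,
    (nat_lit 253)),(k1,(nat_lit 268))],[(k8,(nat_lit 227)),(k0,(nat_lit 236)),(k7,(nat_lit 236)),(k11,(nat_lit 240)),
    (k3,(nat_lit 247)),(k4,(nat_lit 301))]]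
    [] k0
    [[k3,k0,k0,k0,k0,k0],[k2,k0,k1,k0,k0,k0],[k2,k0,k0,k1,k0,k0],[k2,k0,k0,k0,k1,k0],[k1,k1,k1,k0,k0,k0],[k1,k1,k0,k1,
    k0,k0],[k1,k1,k0,k0,k1,k0],[k1,k1,k0,k0,k0,k1],[k1,k0,k2,k0,k0,k0],[k1,k0,k1,k1,k0,k0],[k1,k0,k0,k2,k0,k0],[k1,k0,
    k0,k1,k1,k0],[k1,k0,k0,k1,k0,k1],[k0,k3,k0,k0,k0,k0],[k0,k2,k1,k0,k0,k0],[k0,k1,k2,k0,k0,k0],[k0,k1,k1,k1,k0,k0],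
    [k0,k1,k1,k0,k1,k0],[k0,k1,k0,k1,k0,k1],[k0,k0,k3,k0,k0,k0]]
    [.ref k6 k0 [(z1,[z1]),(z11,[z8,y12,z33]),(z22,[y2,z3,z0,z33]),(z11,[y4,z6,z0,z0,z33]),(z22,[y32,z15,y66,y33,y66,
    z66])],.ref k6 k0 [(z14,[z22,y1,z0,y11]),(z7,[z8,y8,z21,y4]),(z7,[y1,z1,z0,z11]),(z7,[y4,z4,z0,z2,z21]),(z14,[y32,
    z11,y42,y5,y42,z42])],.ref k6 k0 [(z6,[z11,y2,z0,z0,y11]),(z3,[z4,y4,z9,z0,y4]),(z6,[y1,z1,z0,z9,z1]),(z3,[y2,z2,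
    z0,z0,z11]),(z6,[y16,z7,y18,y9,y2,z18])],.ref k6 k0 [(z4,[z22,y5,z22,z11,z22,y22]),(z1,[z4,y2,z7,z2,z4,y4]),(z4,
    [y2,z1,y2,z5,y2,z2]),(z1,[y2,z1,y2,y1,z1,z2]),(z2,[y16,z5,y22,y11,y22,z22])],.ref k6 k0 [(z12,[z22,z7,y22,y11]),
    (z3,[z4,y2,z5,y2]),(z12,[y2,z1,z2,z19]),(z3,[y2,z1,z2,z1,z9]),(z6,[y16,y1,y2,y1,y18,z18])],.ref k6 k0 [(z5,[z11,
    z2,y11,z0,y11]),(z5,[z8,y4,z7,z0,y8]),(z10,[y2,z1,z2,z15,z2]),(z5,[y4,z2,z4,z0,z19]),(z10,[y32,z1,z2,y15,z2,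
    z30])],.ref k6 k0 [(z2,[z22,z3,z0,z11,z22,y22]),(z1,[z8,z0,z3,z4,z8,y8]),(z1,[y1,z0,z0,z1,y1,z1]),(z1,[y4,z0,z0,
    y2,y1,z4]),(z2,[y32,y3,y6,y19,y38,z38])],.ref k6 k0 [(z7,[z11,z5,y11]),(z7,[z8,y4,z13]),(z14,[y2,z1,z2,z21]),(z7,
    [y4,z2,z4,z0,z21]),(z14,[y32,y5,y10,y21,y42,z42])],.ref k6 k0 [(z3,[z11,y1,z0,y11]),(z3,[z8,y4,z9,y8]),(z6,[y2,z1,
    z0,z11]),(z3,[y4,z2,z0,z4,z9]),(z6,[y32,z7,y18,z23,y18,z18])],.ref k6 k0 [(z4,[z22,y5,z0,y11,y22]),(z1,[z4,y2,z3,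
    y2,y4]),(z4,[y2,z1,z0,z7,z2]),(z1,[y2,z1,z0,z1,z5]),(z2,[y16,z5,y6,z5,z10,z6])],.ref k6 k0 [(z1,[z11,y4,z0,z0,
    y22]),(z1,[z8,y4,z3,z0,y16]),(z2,[y2,z1,z0,z3,z4]),(z1,[y4,z2,z0,z0,z11]),(z2,[y32,z13,y6,y3,z58,z6])],
    .ref k6 k0 [(z6,[y22,z9,y22,y11,z0,z22]),(z3,[y8,z0,z1,y4,z0,z8]),(z3,[z1,z0,z1,z5,z0,y1]),(z3,[z4,z0,z4,z2,z9,
    y4]),(z6,[z32,y9,z14,z7,y18,y14])],.ref k6 k0 [(z3,[z11,y1,z0,z0,y11]),(z3,[z8,y4,z9,z0,y8]),(z6,[y2,z1,z0,z9,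
    z2]),(z3,[y4,z2,z0,z0,z13]),(z6,[y32,z7,y18,y9,z14,z18])],.ref k6 k0 [(z8,[z11,z12,y33]),(z1,[z1]),(z8,[y1,z0,z3,
    z12]),(z2,[y1,z0,z3,z0,z6]),(z2,[y4,y3,z6,y3,y6,z6])],.ref k6 k0 [(z10,[z22,z15,y44,y11]),(z5,[z8,z0,y1,y4]),(z5,
    [y1,z0,z2,z8]),(z5,[y4,z0,z8,z2,z15]),(z10,[y32,y15,z34,z1,y30,z30])],.ref k6 k0 [(z2,[z11,z3,y11,y11]),(z1,[z4,
    z0,y1,y4]),(z2,[y1,z0,z1,z4]),(z1,[y2,z0,z2,z2,z3]),(z2,[y16,y3,z10,z13,y6,z6])],.ref k6 k0 [(z2,[z22,z3,y22,y11,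
    y22]),(z1,[z8,z0,y5,y4,y8]),(z1,[y1,z0,z1,z2,z1]),(z1,[y4,z0,z4,z2,z7]),(z2,[y32,y3,z26,z13,z26,z6])],
    .ref k6 k0 [(z3,[y11,y1,z0,z0,y11,z11]),(z3,[y8,y4,z9,z0,y8,z8]),(z6,[z2,z1,z0,z9,z2,y2]),(z3,[z4,z2,z0,z0,z13,
    y4]),(z6,[z32,z7,y18,y9,z14,y14])],.ref k6 k0 [(z2,[z11,z3,y11,z0,y11]),(z1,[z4,z0,y1,z0,y4]),(z2,[y1,z0,z1,z3,
    z1]),(z1,[y2,z0,z2,z0,z5]),(z2,[y16,y3,z10,y3,z10,z6])],.ref k6 k0 [(z2,[y22,z3,z0,z33]),(z1,[y8,z0,z3,z12]),(z1,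
    [z1]),(z1,[z4,z0,z0,y6,z3]),(z2,[z32,y3,y6,y51,y6,z6])]],
    .leafM k6 [k1,k2,k3,k4,k5,k0] [(z1,[z0,y1,y1,y1,z1])] []]

noncomputable def cT6_2_n1_3 : List TN :=
  [.lp [k160,k152,k164,k150,k170,k160] [k4,k6,k2,k16,k3,k3,k10,k10,k0,k0,k5,k5] k0 [[k0,k0,k14,k0,k0,k0,k0,k36],[k0,k0,
    k2,k0,k0,k0,k0,k0,k0,k0,k0,k24],[k0,k0,k0,k0,k38,k0,k0,k0,k0,k28],[k2,k14],[k0,k0,k0,k0,k0,k0,k0,k36,k0,k0,k14],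
    [k0,k0,k0,k38,k0,k0,k0,k0,k0,k0,k10],[k0,k36,k0,k0,k0,k36],[k0,k0,k0,k0,k0,k0,k0,k0,k10,k6],[k0,k0,k0,k28,k0,k0,
    k6],[k0,k0,k0,k0,k0,k0,k10],[k24],[k0,k0,k0,k0,k10,k14]] (nat_lit 480) k5
    [[(k7,k144),(k4,k147),(k3,k148),(k11,k159),(k8,k164),(k0,k184)],[(k6,k120),(k5,k149),(k10,k161),(k2,k166),(k9,
    k166),(k1,k184)],[(k10,k125),(k6,k144),(k1,k148),(k5,k149),(k2,k166),(k9,k190)],[(k7,k120),(k8,k140),(k11,k163),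
    (k4,k165),(k0,k166),(k3,k166)],[(k0,k149),(k3,k149),(k7,k157),(k8,k167),(k11,k190),(k4,(nat_lit 202))],[(k6,k121),
    (k1,k147),(k2,k165),(k9,k167),(k10,k172),(k5,(nat_lit 202))],[(k2,k120),(k1,k144),(k6,k150),(k5,k157),(k10,k169),
    (k9,k196)],[(k0,k120),(k4,k121),(k3,k144),(k7,k150),(k11,k161),(k8,k170)],[(k11,k155),(k8,k164),(k0,k166),(k4,
    k167),(k3,k190),(k7,k196)],[(k2,k140),(k1,k164),(k9,k164),(k10,k165),(k5,k167),(k6,k170)],[(k9,k155),(k1,k159),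
    (k10,k160),(k6,k161),(k2,k163),(k5,k190)],[(k3,k125),(k11,k160),(k0,k161),(k8,k165),(k7,k169),(k4,k172)]]
    [] k0
    [[k2,k0,k0,k1,k0,k0],[k1,k1,k1,k0,k0,k0],[k1,k1,k0,k1,k0,k0],[k1,k1,k0,k0,k1,k0],[k1,k1,k0,k0,k0,k1],[k1,k0,k1,k1,
    k0,k0],[k1,k0,k0,k2,k0,k0],[k1,k0,k0,k1,k0,k1],[k0,k2,k0,k1,k0,k0],[k0,k2,k0,k0,k0,k1],[k0,k1,k1,k1,k0,k0],[k0,k1,
    k1,k0,k1,k0],[k0,k1,k0,k2,k0,k0],[k0,k1,k0,k1,k0,k1],[k0,k1,k0,k0,k1,k1],[k0,k1,k0,k0,k0,k2],[k0,k0,k1,k2,k0,k0],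
    [k0,k0,k0,k3,k0,k0]]
    [.ref k6 k0 [(z5,[z12,y9,z0,z0,y4]),(z1,[z0,z0,z1]),(z5,[y6,z12,z0,z15,z2]),(z5,[y9,z18,z0,z0,z8]),(z1,[z0,y3,y1,
    y3,y1,z3])],.ref k6 k0 [(z1,[z6,y3,y2,y6]),(z1,[z0,z0,z1]),(z1,[y3,z3,z1,z6]),(z2,[y9,z9,z3,z9,z2]),(z1,[z0,y3,y1,
    y3,y1,z3])],.ref k6 k0 [(z1,[z12,y9,y4,z0,y4]),(z1,[z0,z0,z1]),(z1,[y6,z6,z2,z3,z2]),(z1,[y9,z9,z3,z0,z4]),(z1,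
    [z0,y3,y1,y3,y1,z3])],.ref k6 k0 [(z1,[z3,z3,z0,z3,z1,y3]),(z1,[z0,z0,z1]),(z2,[y3,z0,z0,z3,y1,z3]),(z4,[y9,z0,z0,
    y9,z1,z9]),(z1,[z0,y3,y1,y3,y1,z3])],.ref k6 k0 [(z5,[z12,z3,y4]),(z1,[z0,z0,z1]),(z5,[y6,z6,z2,z15]),(z5,[y9,z9,
    z3,z0,z5]),(z1,[z0,y3,y1,y3,y1,z3])],.ref k6 k0 [(z1,[y12,z15,z0,z12,z4]),(z1,[z0,z0,z1]),(z1,[z6,y6,z0,y3,y2]),
    (z1,[z9,y9,z0,y9,y2]),(z1,[z0,y3,y1,y3,y1,z3])],.ref k6 k0 [(z1,[y6,z9,z0,z0,z4]),(z1,[z0,z0,z1]),(z1,[z3,y3,z0,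
    z3,y2]),(z2,[z9,y9,z0,z0,y4]),(z1,[z0,y3,y1,y3,y1,z3])],.ref k6 k0 [(z1,[z6,y3,z0,z0,y2]),(z1,[z0,z0,z1]),(z1,[y3,
    z3,z0,z3,z1]),(z2,[y9,z9,z0,z0,z5]),(z1,[z0,y3,y1,y3,y1,z3])],.ref k6 k0 [(z3,[y12,z9,z8,z0,z4]),(z1,[z0,z0,z1]),
    (z3,[z6,z0,y4,z9,y2]),(z1,[z3,z0,y2]),(z1,[z0,y3,y1,y3,y1,z3])],.ref k6 k0 [(z1,[z12,z3,y8]),(z1,[z0,z0,z1]),(z1,
    [y6,z0,z4,z3]),(z1,[y9,z0,z6,z0,z1]),(z1,[z0,y3,y1,y3,y1,z3])],.ref k6 k0 [(z5,[y12,z15,z4,z12,z4]),(z1,[z0,z0,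
    z1]),(z5,[z6,z0,y2,z9,y2]),(z5,[z9,z0,y3,y9,z2]),(z1,[z0,y3,y1,y3,y1,z3])],.ref k6 k0 [(z1,[y6,y3,z0,z0,y2,z6]),
    (z1,[z0,z0,z1]),(z1,[z3,z3,z0,z3,z1,y3]),(z2,[z9,z9,z0,z0,z5,y9]),(z1,[z0,y3,y1,y3,y1,z3])],.ref k6 k0 [(z3,[y6,
    z9,z2,z0,z4]),(z1,[z0,z0,z1]),(z3,[z3,z0,y1,z9,y2]),(z2,[z3,z0,y1]),(z1,[z0,y3,y1,y3,y1,z3])],.ref k6 k0 [(z1,[y6,
    z3,z2,z0,z2]),(z1,[z0,z0,z1]),(z1,[z3,z0,y1,z3,y1]),(z2,[z9,z0,y3,z0,y1]),(z1,[z0,y3,y1,y3,y1,z3])],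
    .ref k6 k0 [(z1,[z12,z15,z0,z12,z4,y12]),(z1,[z0,z0,z1]),(z1,[y6,y6,z0,y3,y2,z6]),(z1,[y9,y9,z0,y9,y2,z9]),(z1,
    [z0,y3,y1,y3,y1,z3])],.ref k6 k0 [(z1,[z6,z3,y2]),(z1,[z0,z0,z1]),(z1,[y3,z0,z1,z3]),(z2,[y9,z0,z3,z0,z2]),(z1,
    [z0,y3,y1,y3,y1,z3])],.ref k6 k0 [(z2,[y3,z6,z0,z3,z2]),(z1,[z0,z0,z1]),(z4,[z3,z0,z0,z9,y2]),(z8,[z9,z0,z0,y9,
    z2]),(z1,[z0,y3,y1,y3,y1,z3])],.ref k6 k0 [(z3,[y4,z9,z0,z0,z4]),(z1,[z0,z0,z1]),(z3,[z2,z0,z0,z9,y2]),(z1,[z1]),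
    (z1,[z0,y3,y1,y3,y1,z3])]],
    .lp [k184,k194,(nat_lit 202),(nat_lit 200),(nat_lit 206),(nat_lit 212)] [k14,k14,k9,k9,k5,k5,k6,k6,k3,k3,k0,
    k0] k0 [[k0,k0,k0,k0,k0,k0,k2,k8],[k0,k0,k48,k0,k0,k0,k0,k0,k0,k0,k10],[k0,k0,k0,k0,k0,k8],[k48,k0,k0,k0,k0,k10],
    [k0,k0,k10,k8,k0,k0,k0,k2],[k0,k0,k0,k0,k0,k0,k0,k0,k0,k0,k40,k30],[k0,k8,k0,k0,k0,k2],[k0,k2,k0,k0,k0,k0,k0,k0,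
    k0,k14],[k0,k0,k0,k0,k0,k0,k14,k0,k0,k0,k0,k10],[k0,k0,k0,k0,k0,k0,k0,k0,k0,k0,k0,k8],[k0,k0,k0,k0,k30,k0,k0,k0,
    k8,k10],[k10,k0,k0,k0,k40]] (nat_lit 600) k5
    [[(k7,k152),(k3,k179),(k0,k184),(k8,(nat_lit 203)),(k11,(nat_lit 208)),(k4,(nat_lit 223))],[(k1,k184),(k6,k184),
    (k5,k193),(k9,k193),(k10,(nat_lit 208)),(k2,(nat_lit 237))],[(k5,k150),(k1,k179),(k2,k194),(k6,k199),(k10,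
    (nat_lit 203)),(k9,(nat_lit 208))],[(k4,k190),(k3,k194),(k8,(nat_lit 200)),(k11,(nat_lit 203)),(k7,(nat_lit 207)),
    (k0,(nat_lit 237))],[(k3,k150),(k4,k192),(k0,k193),(k8,(nat_lit 204)),(k11,(nat_lit 207)),(k7,(nat_lit 209))],
    [(k2,k190),(k5,k192),(k6,k199),(k9,(nat_lit 204)),(k1,(nat_lit 223)),(k10,(nat_lit 247))],[(k1,k152),(k10,k176),
    (k6,(nat_lit 200)),(k9,(nat_lit 205)),(k2,(nat_lit 207)),(k5,(nat_lit 209))],[(k0,k184),(k3,k199),(k4,k199),(k7,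
    (nat_lit 200)),(k8,(nat_lit 203)),(k11,(nat_lit 220))],[(k8,k192),(k0,k193),(k4,(nat_lit 204)),(k7,(nat_lit 205)),
    (k3,(nat_lit 208)),(k11,(nat_lit 209))],[(k9,k192),(k10,k199),(k2,(nat_lit 200)),(k1,(nat_lit 203)),(k6,
    (nat_lit 203)),(k5,(nat_lit 204))],[(k2,(nat_lit 203)),(k10,(nat_lit 204)),(k5,(nat_lit 207)),(k1,(nat_lit 208)),
    (k9,(nat_lit 209)),(k6,(nat_lit 220))],[(k7,k176),(k8,k199),(k3,(nat_lit 203)),(k11,(nat_lit 204)),(k0,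
    (nat_lit 208)),(k4,(nat_lit 247))]]
    [] k0
    [[k3,k0,k0,k0,k0,k0],[k2,k0,k0,k1,k0,k0],[k2,k0,k0,k0,k1,k0],[k1,k1,k1,k0,k0,k0],[k1,k1,k0,k1,k0,k0],[k1,k1,k0,k0,
    k1,k0],[k1,k1,k0,k0,k0,k1],[k1,k0,k1,k1,k0,k0],[k1,k0,k0,k2,k0,k0],[k1,k0,k0,k1,k1,k0],[k1,k0,k0,k1,k0,k1],[k1,k0,
    k0,k0,k2,k0],[k0,k3,k0,k0,k0,k0],[k0,k2,k1,k0,k0,k0],[k0,k1,k2,k0,k0,k0],[k0,k1,k1,k1,k0,k0],[k0,k1,k1,k0,k1,k0],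
    [k0,k1,k0,k1,k0,k1],[k0,k0,k3,k0,k0,k0],[k0,k0,k1,k1,k0,k1],[k0,k0,k0,k2,k0,k1],[k0,k0,k0,k1,k1,k1],[k0,k0,k0,k0,
    k3,k0]]
    [.ref k6 k0 [(z1,[z1]),(z2,[z1,y3,z2]),(z2,[y1,z3,z0,z6]),(z1,[y1,z3,z0,z0,z1]),(z4,[y1,y9,y4,y12,y4,z12])],
    .ref k6 k0 [(z1,[z3,y3,z0,z0,y1]),(z2,[z3,y6,z2,z0,y1]),(z2,[y3,z6,z0,z6,z1]),(z1,[y3,z6,z0,z0,z2]),(z4,[y3,y6,y4,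
    y12,y3,z12])],.ref k6 k0 [(z7,[z12,z9,z4,z12,z4,y12]),(z7,[z6,y6,z9,z6,z2,y6]),(z7,[y6,z6,y2,z15,y2,z6]),(z7,[y12,
    z12,y4,y12,z3,z12]),(z7,[y3,y18,y8,y24,y8,z24])],.ref k6 k0 [(z1,[z3,z0,y1,y3]),(z2,[z3,y3,z1,y3]),(z2,[y3,z3,z1,
    z9]),(z1,[y3,z3,z1,z3,z1]),(z4,[y3,y9,y3,y9,y4,z12])],.ref k6 k0 [(z1,[z6,y3,y2,z0,y2]),(z1,[z3,y3,z0,z0,y1]),(z1,
    [y3,z3,z1,z3,z1]),(z1,[y6,z6,z2,z0,z3]),(z2,[y3,y3,y1,y6,y1,z6])],.ref k6 k0 [(z5,[z12,z15,z0,z12,z4,y12]),(z5,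
    [z6,z0,z5,z6,z2,y6]),(z5,[y6,z0,z0,z9,y2,z6]),(z5,[y12,z0,z0,y12,z1,z12]),(z5,[y3,y15,y5,y18,y6,z18])],
    .ref k6 k0 [(z7,[z12,z9,y4]),(z7,[z6,y6,z5]),(z7,[y6,z6,z2,z21]),(z7,[y12,z12,z4,z0,z7]),(z7,[y3,y18,y6,y21,y7,
    z21])],.ref k6 k0 [(z1,[y6,z9,z0,z6,z2]),(z1,[y3,z3,z1,z3,z1]),(z1,[z3,y3,z0,z0,y1]),(z1,[z6,y6,z0,y6,y1]),(z2,
    [z3,y9,y2,y9,y3,z6])],.ref k6 k0 [(z1,[y3,z6,z0,z0,z2]),(z2,[y3,z3,z2,z0,z2]),(z2,[z3,y3,z0,z6,y2]),(z1,[z3,y3,z0,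
    z0,y1]),(z4,[z3,y15,y4,y12,y6,z12])],.ref k6 k0 [(z1,[y12,z3,y4,y12,z0,z12]),(z1,[y6,z0,y1,y6,z0,z6]),(z1,[z6,z0,
    z2,z9,z0,y6]),(z1,[z12,z0,z4,z12,z1,y12]),(z1,[z3,y3,z0,z0,y1])],.ref k6 k0 [(z1,[z12,y9,z0,z0,y4]),(z1,[z6,y6,z1,
    z0,y2]),(z1,[y6,z6,z0,z3,z2]),(z1,[y12,z12,z0,z0,z5]),(z1,[y3,z0,y1,y3,z0,z3])],.ref k6 k0 [(z1,[z6,z9,z4,z12,z4,
    y12]),(z1,[z3,z3,z3,z6,z2,y6]),(z1,[y3,y3,y2,y3,y2,z6]),(z1,[y6,y6,y4,y12,y3,z12]),(z2,[y3,y9,y4,y12,y4,z12])],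
    .ref k6 k0 [(z1,[z2,z3,y2]),(z1,[z1]),(z1,[y1,z0,z1,z3]),(z1,[y2,z0,z2,z0,z1]),(z2,[y1,y6,y1,y6,y2,z6])],
    .ref k6 k0 [(z1,[z6,z3,y4,y6]),(z1,[z3,z0,y1,y3]),(z1,[y3,z0,z2,z6]),(z1,[y6,z0,z4,z6,z1]),(z2,[y3,y6,z0,y3,y2,
    z6])],.ref k6 k0 [(z1,[y6,z3,z2,z12]),(z1,[y3,z0,z2,z6]),(z1,[z3,z0,y1,y3]),(z1,[z6,z0,y2,y12,z1]),(z2,[z3,y6,y3,
    y12,y2,z6])],.ref k6 k0 [(z1,[y3,z3,z1,z3,z1]),(z2,[y3,z0,z3,z3,z1]),(z2,[z3,z0,y1,z3,y1]),(z1,[z3,z0,y1,y3]),(z4,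
    [z3,y12,y5,y15,y5,z12])],.ref k6 k0 [(z1,[y12,y9,z0,z0,y4,z12]),(z1,[y6,y6,z1,z0,y2,z6]),(z1,[z6,z6,z0,z3,z2,y6]),
    (z1,[z12,z12,z0,z0,z5,y12]),(z1,[z3,z0,y1,y3])],.ref k6 k0 [(z1,[y12,z3,z4,z0,z4]),(z1,[y6,z0,z3,z0,z2]),(z1,[z6,
    z0,y2,z3,y2]),(z1,[z12,z0,y4,z0,y3]),(z1,[z3,y3,y2,y3,y2,z3])],.ref k6 k0 [(z1,[y2,z3,z0,z6]),(z1,[y1,z0,z1,z3]),
    (z1,[z1]),(z1,[z2,z0,z0,y6,z1]),(z2,[z1,y6,y2,y9,y2,z6])],.ref k6 k0 [(z5,[y12,z15,z0,z12,z4]),(z5,[y6,z0,z5,z6,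
    z2]),(z5,[z6,z0,z0,z9,y2]),(z5,[z12,z0,z0,y12,z1]),(z5,[z3,y15,y5,y18,y6,z15])],.ref k6 k0 [(z7,[y12,z21,z0,z0,
    z8]),(z7,[y6,z0,z7,z0,z4]),(z7,[z6,z0,z0,z21,y4]),(z7,[z12,z0,z0,z0,y1]),(z7,[z3,y21,y7,y21,y9,z21])],
    .ref k6 k0 [(z1,[y3,z0,y1,y3,z0,z3]),(z2,[y3,y3,z1,y3,z0,z3]),(z2,[z3,z3,z1,z9,z0,y3]),(z1,[z3,z3,z1,z3,z1,y3]),
    (z4,[z3,y9,y3,y9,y4,z9])],.ref k6 k0 [(z1,[y4,y9,y4,y12,y4,z12]),(z1,[y2,y6,y1,y6,y2,z6]),(z1,[z2,z6,z2,z9,z2,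
    y6]),(z1,[z4,z12,z4,z12,z5,y12]),(z1,[z1])]],
    .lp [(nat_lit 308),(nat_lit 278),(nat_lit 336),(nat_lit 338),(nat_lit 332),(nat_lit 320)] [k15,k15,k30,k30,k1,k1,k0,
    k0,k3,k3,k9,k9] k0 [[k0,k0,k0,k40],[k0,k0,k0,k0,k0,k0,k0,k0,k0,k0,k12,k12],[k0,k40,k0,k0,k0,k0,k0,k0,k0,k10],[k0,
    k0,k0,k0,k28],[k0,k0,k0,k0,k0,k0,k6,k22],[k0,k0,k28,k0,k0,k0,k0,k0,k0,k0,k0,k6],[k0,k0,k0,k0,k0,k22],[k0,k0,k0,k0,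
    k0,k6,k0,k0,k12],[k0,k0,k0,k10],[k0,k0,k0,k0,k0,k0,k12],[k12,k0,k0,k0,k6],[k12]] (nat_lit 960) k5
    [[(k3,(nat_lit 281)),(k11,(nat_lit 314)),(k0,(nat_lit 320)),(k8,(nat_lit 320)),(k7,(nat_lit 323)),(k4,
    (nat_lit 328))],[(k2,(nat_lit 253)),(k1,(nat_lit 320)),(k9,(nat_lit 320)),(k5,(nat_lit 322)),(k6,(nat_lit 323)),
    (k10,(nat_lit 326))],[(k2,(nat_lit 278)),(k1,(nat_lit 281)),(k10,(nat_lit 287)),(k9,(nat_lit 305)),(k6,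
    (nat_lit 308)),(k5,(nat_lit 347))],[(k0,(nat_lit 253)),(k3,(nat_lit 278)),(k8,(nat_lit 295)),(k11,(nat_lit 299)),
    (k7,(nat_lit 308)),(k4,(nat_lit 335))],[(k7,(nat_lit 309)),(k0,(nat_lit 322)),(k8,(nat_lit 334)),(k4,
    (nat_lit 336)),(k11,(nat_lit 338)),(k3,(nat_lit 347))],[(k6,(nat_lit 315)),(k1,(nat_lit 328)),(k9,(nat_lit 328)),
    (k10,(nat_lit 328)),(k2,(nat_lit 335)),(k5,(nat_lit 336))],[(k2,(nat_lit 308)),(k5,(nat_lit 309)),(k1,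
    (nat_lit 323)),(k10,(nat_lit 323)),(k6,(nat_lit 344)),(k9,(nat_lit 357))],[(k3,(nat_lit 308)),(k4,(nat_lit 315)),
    (k0,(nat_lit 323)),(k11,(nat_lit 329)),(k7,(nat_lit 344)),(k8,(nat_lit 347))],[(k3,(nat_lit 305)),(k11,
    (nat_lit 314)),(k0,(nat_lit 320)),(k4,(nat_lit 328)),(k8,(nat_lit 332)),(k7,(nat_lit 357))],[(k2,(nat_lit 295)),
    (k1,(nat_lit 320)),(k10,(nat_lit 326)),(k9,(nat_lit 332)),(k5,(nat_lit 334)),(k6,(nat_lit 347))],[(k2,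
    (nat_lit 299)),(k1,(nat_lit 314)),(k9,(nat_lit 314)),(k10,(nat_lit 320)),(k6,(nat_lit 329)),(k5,(nat_lit 338))],
    [(k3,(nat_lit 287)),(k11,(nat_lit 320)),(k7,(nat_lit 323)),(k0,(nat_lit 326)),(k8,(nat_lit 326)),(k4,
    (nat_lit 328))]]
    [] k0
    [[k2,k1,k0,k0,k0,k0],[k1,k2,k0,k0,k0,k0],[k1,k1,k1,k0,k0,k0],[k1,k1,k0,k1,k0,k0],[k1,k1,k0,k0,k1,k0],[k1,k1,k0,k0,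
    k0,k1],[k0,k3,k0,k0,k0,k0],[k0,k2,k0,k1,k0,k0],[k0,k2,k0,k0,k1,k0],[k0,k2,k0,k0,k0,k1],[k0,k1,k1,k1,k0,k0],[k0,k1,
    k0,k1,k0,k1],[k0,k1,k0,k0,k2,k0],[k0,k1,k0,k0,k1,k1],[k0,k1,k0,k0,k0,k2]]
    [.ref k6 k0 [(z2,[z1,z4,y1]),(z1,[z2,y4,z1]),(z4,[y1,z2,z1,z12]),(z1,[y1,z2,z1,z0,z3]),(z8,[y11,y2,y13,y24,y24,
    z24])],.ref k6 k0 [(z3,[z1,z8,y2]),(z3,[z4,y4,z1]),(z6,[y1,z1,z2,z18]),(z3,[y2,z2,z4,z0,z9]),(z12,[y11,y25,y14,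
    y36,y36,z36])],.ref k6 k0 [(z3,[z2,z7,y2,y2]),(z3,[z8,y8,z1,y8]),(z3,[y1,z1,z1,z10]),(z3,[y4,z4,z4,z4,z9]),(z6,
    [y11,y7,y7,y7,y18,z18])],.ref k6 k0 [(z1,[z1,z2,y1,z0,y1]),(z1,[z4,y4,y1,z0,y4]),(z2,[y1,z1,z1,z6,z1]),(z1,[y2,z2,
    z2,z0,z5]),(z4,[y11,y1,y1,y12,y1,z12])],.ref k6 k0 [(z3,[z4,z9,z0,z4,z4,y4]),(z3,[z16,z0,z9,z16,z16,y16]),(z3,[y2,
    z0,z0,z7,y2,z2]),(z3,[y8,z0,z0,y8,z1,z8]),(z3,[y11,y9,y9,y20,y20,z20])],.ref k6 k0 [(z7,[z4,z17,y4]),(z7,[z16,y16,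
    z5]),(z7,[y2,z2,z2,z21]),(z7,[y8,z8,z8,z0,z21]),(z7,[y11,y10,y10,y21,y21,z21])],.ref k6 k0 [(z4,[z1,z12,y3]),(z1,
    [z1]),(z8,[y1,z0,z3,z24]),(z2,[y1,z0,z3,z0,z6]),(z16,[y11,y48,y15,y48,y48,z48])],.ref k6 k0 [(z2,[z1,z6,y2,z0,
    y1]),(z1,[z2,z0,y1,z0,y2]),(z4,[y1,z0,z2,z12,z1]),(z1,[y1,z0,z2,z0,z4]),(z8,[y11,y24,y2,y24,y13,z24])],
    .ref k6 k0 [(z7,[z4,z25,y4,z4,z4,y4]),(z7,[z16,z16,z5,z16,z16,y16]),(z7,[y2,y2,z2,z19,y2,z2]),(z7,[y8,y8,z8,y8,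
    z13,z8]),(z7,[y11,y32,y10,y32,y32,z32])],.ref k6 k0 [(z11,[z4,z33,y8]),(z11,[z16,z0,z1]),(z11,[y2,z0,z4,z33]),
    (z11,[y8,z0,z16,z0,z33]),(z1,[y1,y3,y1,y3,y3,z3])],.ref k6 k0 [(z1,[z2,z3,y2,y2,y2]),(z1,[z8,z0,y5,y8,y8]),(z1,
    [y1,z0,z1,z4,z1]),(z1,[y4,z0,z4,z4,z7]),(z2,[y11,y6,z5,z5,z5,z6])],.ref k6 k0 [(z3,[z4,z9,y4,z0,y4]),(z3,[z16,z0,
    y7,z0,y16]),(z3,[y2,z0,z2,z9,z2]),(z3,[y8,z0,z8,z0,z17]),(z3,[y11,y9,z2,y9,z2,z9])],.ref k6 k0 [(z1,[y2,y1,y2,y4,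
    y4,z4]),(z1,[y8,y16,y5,y16,y16,z16]),(z1,[z1,z2,z1,z5,z2,y2]),(z1,[z4,z8,z4,z8,z11,y8]),(z2,[z11,z16,z5,z16,z16,
    y16])],.ref k6 k0 [(z1,[z2,z5,z0,z2,z2,y2]),(z1,[z8,z8,z3,z8,z8,y8]),(z1,[y1,y1,z0,z2,y1,z1]),(z1,[y4,y4,z0,y4,y1,
    z4]),(z2,[y11,y17,y6,y17,y17,z17])],.ref k6 k0 [(z3,[z2,z9,y2]),(z3,[z8,z0,z1]),(z3,[y1,z0,z1,z9]),(z3,[y4,z0,z4,
    z0,z9]),(z6,[y11,y18,y7,y18,y18,z18])]],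
    .leafM k6 [k1,k2,k3,k4,k5,k0] [(z1,[z0,y1,y1,y1,z1])] []]

/-- the nodes with numbers from 59 -/
noncomputable def cT6_2_n1 : List TN :=
  cT6_2_n1_0 ++ (cT6_2_n1_1 ++ (cT6_2_n1_2 ++ cT6_2_n1_3))

theorem cT6_2_k1 : allI (chkT 6 cT6_2_w tt6 cT6_2_s (blkF [] cT6_2_D)) cT6_2_n1 59 = true := by
  decide +kernel

end Pool.Agent.Lib_MP_fa6e45
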