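import Pool.Agent.Lib_MP_fa6e45.CG6_1d

/-!
MP_fa6e45_co, stage 5: certificates (captain, generated by a program).
-/

namespace Pool.Agent.Lib_MP_fa6e45

noncomputable def cT6_2_n2_0 : List TN :=
  [.lp [k160,k146,k168,k160,k160,k164] [k4,k4,k11,k11,k0,k0,k4,k4,k4,k4,k2,k2] k0 [[k0,k0,k0,k0,k0,k0,k0,k36,k0,k0,k0,
    k4],[k0,k0,k24],[k0,k0,k0,k0,k22,k0,k0,k0,k0,k2],[k24,k0,k0,k0,k0,k0,k0,k0,k0,k6],[k0,k0,k0,k0,k0,k0,k8,k16,k0,k0,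
    k2],[k0,k0,k0,k22,k0,k0,k0,k0,k0,k0,k20],[k0,k36,k0,k0,k0,k16,k0,k0,k6],[k0,k0,k0,k0,k0,k8],[k0,k0,k6,k2],[k0,k0,
    k0,k0,k0,k0,k0,k6],[k0,k4],[k0,k0,k0,k0,k20,k2]] (nat_lit 480) k5
    [[(k7,k140),(k3,k157),(k0,k160),(k8,k160),(k4,k162),(k11,k162)],[(k6,k124),(k10,k158),(k1,k160),(k9,k160),(k5,
    k164),(k2,k177)],[(k5,k133),(k2,k146),(k6,k153),(k10,k155),(k1,k157),(k9,k189)],[(k7,k131),(k3,k146),(k8,k151),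
    (k4,k157),(k11,k161),(k0,k177)],[(k3,k133),(k8,k158),(k0,k164),(k7,k164),(k11,k168),(k4,k190)],[(k6,k148),(k9,
    k156),(k2,k157),(k1,k162),(k10,k186),(k5,k190)],[(k2,k131),(k1,k140),(k5,k164),(k10,k164),(k6,k168),(k9,k176)],
    [(k0,k124),(k4,k148),(k3,k153),(k11,k156),(k8,k160),(k7,k168)],[(k4,k156),(k0,k160),(k11,k162),(k8,k166),(k7,
    k176),(k3,k189)],[(k2,k151),(k5,k158),(k1,k160),(k6,k160),(k10,k162),(k9,k166)],[(k6,k156),(k2,k161),(k1,k162),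
    (k9,k162),(k10,k164),(k5,k168)],[(k3,k155),(k0,k158),(k8,k162),(k7,k164),(k11,k164),(k4,k186)]]
    [] k0
    [[k2,k0,k0,k1,k0,k0],[k1,k1,k1,k0,k0,k0],[k1,k1,k0,k1,k0,k0],[k1,k1,k0,k0,k1,k0],[k1,k1,k0,k0,k0,k1],[k1,k0,k1,k1,
    k0,k0],[k1,k0,k0,k2,k0,k0],[k1,k0,k0,k1,k1,k0],[k1,k0,k0,k1,k0,k1],[k0,k3,k0,k0,k0,k0],[k0,k2,k1,k0,k0,k0],[k0,k2,
    k0,k1,k0,k0],[k0,k2,k0,k0,k0,k1],[k0,k1,k1,k1,k0,k0],[k0,k1,k1,k0,k1,k0],[k0,k1,k0,k2,k0,k0],[k0,k1,k0,k1,k0,k1],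
    [k0,k1,k0,k0,k1,k1]]
    [.ref k6 k0 [(z2,[z3,z0,z0,z0,y1]),(z4,[y9,z18,z4,z0,z3]),(z4,[y3,z6,z0,z12,z1]),(z1,[z0,z0,z0,z0,z1]),(z8,[z9,
    y42,y8,y24,y11,z24])],.ref k6 k0 [(z1,[y3,z6,z1,z3]),(z2,[z9,y9,y1,y9]),(z2,[z3,y3,y1,z3]),(z1,[z0,z0,z0,z0,z1]),
    (z4,[y9,y3,y1,y3,y4,z12])],.ref k6 k0 [(z1,[y6,z9,z2,z0,z2]),(z1,[z9,y9,y2,z0,y3]),(z1,[z3,y3,y1,z3,y1]),(z1,[z0,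
    z0,z0,z0,z1]),(z2,[y9,z3,z1,y6,z1,z6])],.ref k6 k0 [(z1,[z12,z3,z0,z12,z4,y12]),(z1,[y18,z0,z1,y18,y6,z18]),(z1,
    [y6,z0,z0,y3,y2,z6]),(z1,[z0,z0,z0,z0,z1]),(z1,[z9,y3,y1,z6,z2,y6])],.ref k6 k0 [(z1,[y12,z15,z4]),(z1,[z18,y18,
    y5]),(z1,[z6,y6,y2,z3]),(z1,[z0,z0,z0,z0,z1]),(z1,[y9,z6,z2,y3,y1,z3])],.ref k6 k0 [(z1,[z6,y3,z0,y6,y2]),(z1,[y9,
    z9,z1,z9,z3]),(z1,[y3,z3,z0,z6,z1]),(z1,[z0,z0,z0,z0,z1]),(z2,[z9,y15,y2,y15,y5,z6])],.ref k6 k0 [(z1,[z3,z0,z0,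
    z0,y2]),(z2,[y9,z9,z2,z0,z6]),(z2,[y3,z3,z0,z6,z2]),(z1,[z0,z0,z0,z0,z1]),(z4,[z9,y21,y4,y12,y10,z12])],
    .ref k6 k0 [(z7,[z12,z21,z4,z12,z0,y12]),(z7,[y18,z0,z1,y18,z0,z18]),(z7,[y6,z0,y2,z15,z0,z6]),(z1,[z0,z0,z0,z0,
    z1]),(z7,[z9,y21,y4,y12,y7,z12])],.ref k6 k0 [(z5,[z12,z3,z0,z0,y4]),(z5,[y18,z18,z5,z0,z6]),(z5,[y6,z6,z0,z15,
    z2]),(z1,[z0,z0,z0,z0,z1]),(z5,[z9,y24,y5,y15,y8,z15])],.ref k6 k0 [(z3,[y2,z9,z2]),(z1,[z1]),(z3,[z1,z0,y1,z9]),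
    (z1,[z0,z0,z0,z0,z1]),(z2,[y1,y6,y1,y6,y2,z6])],.ref k6 k0 [(z7,[y6,z21,z4,z6]),(z7,[z9,z0,z1,y9]),(z7,[z3,z0,y2,
    z18]),(z1,[z0,z0,z0,z0,z1]),(z14,[y9,y42,y8,y33,y14,z42])],.ref k6 k0 [(z3,[y3,z9,z2,z0,z1]),(z2,[z3,z0,z0,z0,
    y1]),(z6,[z3,z0,y2,z18,y1]),(z1,[z0,z0,z0,z0,z1]),(z4,[y3,y12,y2,y12,y3,z12])],.ref k6 k0 [(z11,[y12,z33,z8]),
    (z11,[z18,z0,y1]),(z11,[z6,z0,y4,z33]),(z1,[z0,z0,z0,z0,z1]),(z11,[y9,y33,y5,y33,y11,z33])],.ref k6 k0 [(z2,[y3,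
    z6,z1,z3,z1]),(z4,[z9,z0,z1,y9,y3]),(z4,[z3,z0,y1,z9,y1]),(z1,[z0,z0,z0,z0,z1]),(z8,[y9,y24,y5,y15,y5,z24])],
    .ref k6 k0 [(z5,[y12,z3,z0,z0,y4,z12]),(z5,[z18,z18,z5,z0,z6,y18]),(z5,[z6,z6,z0,z15,z2,y6]),(z1,[z0,z0,z0,z0,
    z1]),(z5,[y9,y24,y5,y15,y8,z24])],.ref k6 k0 [(z3,[y6,z9,z2,z0,z4]),(z1,[z3,z0,z0,z0,y2]),(z3,[z3,z0,y1,z9,y2]),
    (z1,[z0,z0,z0,z0,z1]),(z2,[y3,y6,y1,y6,z0,z6])],.ref k6 k0 [(z5,[y12,z15,z4,z0,z4]),(z5,[z18,z0,y1,z0,y6]),(z5,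
    [z6,z0,y2,z15,y2]),(z1,[z0,z0,z0,z0,z1]),(z5,[y9,y15,y2,y15,y2,z15])],.ref k6 k0 [(z1,[y6,y3,z0,y6,y2,z6]),(z1,
    [z9,z9,z1,z9,z3,y9]),(z1,[z3,z3,z0,z6,z1,y3]),(z1,[z0,z0,z0,z0,z1]),(z2,[y9,y15,y2,y15,y5,z15])]],
    .lp [k160,k146,k168,k160,k160,k164] [k4,k4,k11,k11,k0,k0,k4,k4,k4,k4,k2,k2] k0 [[k0,k0,k0,k0,k0,k0,k0,k36,k0,k0,k0,
    k4],[k0,k0,k24],[k0,k0,k0,k0,k22,k0,k0,k0,k0,k2],[k24,k0,k0,k0,k0,k0,k0,k0,k0,k6],[k0,k0,k0,k0,k0,k0,k8,k16,k0,k0,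
    k2],[k0,k0,k0,k22,k0,k0,k0,k0,k0,k0,k20],[k0,k36,k0,k0,k0,k16,k0,k0,k6],[k0,k0,k0,k0,k0,k8],[k0,k0,k6,k2],[k0,k0,
    k0,k0,k0,k0,k0,k6],[k0,k4],[k0,k0,k0,k0,k20,k2]] (nat_lit 480) k5
    [[(k7,k140),(k3,k157),(k0,k160),(k8,k160),(k4,k162),(k11,k162)],[(k6,k124),(k10,k158),(k1,k160),(k9,k160),(k5,
    k164),(k2,k177)],[(k5,k133),(k2,k146),(k6,k153),(k10,k155),(k1,k157),(k9,k189)],[(k7,k131),(k3,k146),(k8,k151),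
    (k4,k157),(k11,k161),(k0,k177)],[(k3,k133),(k8,k158),(k0,k164),(k7,k164),(k11,k168),(k4,k190)],[(k6,k148),(k9,
    k156),(k2,k157),(k1,k162),(k10,k186),(k5,k190)],[(k2,k131),(k1,k140),(k5,k164),(k10,k164),(k6,k168),(k9,k176)],
    [(k0,k124),(k4,k148),(k3,k153),(k11,k156),(k8,k160),(k7,k168)],[(k4,k156),(k0,k160),(k11,k162),(k8,k166),(k7,
    k176),(k3,k189)],[(k2,k151),(k5,k158),(k1,k160),(k6,k160),(k10,k162),(k9,k166)],[(k6,k156),(k2,k161),(k1,k162),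
    (k9,k162),(k10,k164),(k5,k168)],[(k3,k155),(k0,k158),(k8,k162),(k7,k164),(k11,k164),(k4,k186)]]
    [] k0
    [[k2,k0,k0,k1,k0,k0],[k1,k1,k1,k0,k0,k0],[k1,k1,k0,k1,k0,k0],[k1,k1,k0,k0,k1,k0],[k1,k1,k0,k0,k0,k1],[k1,k0,k1,k1,
    k0,k0],[k1,k0,k0,k2,k0,k0],[k1,k0,k0,k1,k1,k0],[k1,k0,k0,k1,k0,k1],[k0,k3,k0,k0,k0,k0],[k0,k2,k1,k0,k0,k0],[k0,k2,
    k0,k1,k0,k0],[k0,k2,k0,k0,k0,k1],[k0,k1,k1,k1,k0,k0],[k0,k1,k1,k0,k1,k0],[k0,k1,k0,k2,k0,k0],[k0,k1,k0,k1,k0,k1],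
    [k0,k1,k0,k0,k1,k1]]
    [.ref k6 k0 [(z7,[z12,y3,z0,z0,y4]),(z7,[y12,z24,z7,z0,z4]),(z7,[y6,z12,z0,z21,z2]),(z7,[y3,z6,z0,z0,z8]),(z7,[z6,
    y33,y7,y21,y9,z21])],.ref k6 k0 [(z1,[y6,z9,z2,z6]),(z1,[z6,y6,y1,y6]),(z1,[z3,y3,y1]),(z2,[z3,y3,y1,y3,z2]),(z1,
    [y3,z0,z0,z0,y1,z3])],.ref k6 k0 [(z1,[y12,z15,z4,z0,z4]),(z1,[z12,y12,y3,z0,y4]),(z1,[z6,y6,y2,z3,y2]),(z1,[z3,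
    y3,y1]),(z1,[y6,z3,z1,y3,z1,z3])],.ref k6 k0 [(z1,[z6,z3,z0,z6,z2,y6]),(z1,[y6,z0,z1,y6,y2,z6]),(z1,[y3,z0,z0,z0,
    y1,z3]),(z2,[y3,z0,z0,y3,z1,z3]),(z1,[z3,y3,y1])],.ref k6 k0 [(z1,[z12,y9,y4]),(z1,[y12,z12,z5]),(z1,[y6,z6,z2,
    z3]),(z1,[y3,z3,z1,z0,z1]),(z1,[z6,y9,y3,y3,y1,z3])],.ref k6 k0 [(z1,[z12,y9,z0,y12,y4]),(z1,[y12,z12,z1,z12,z4]),
    (z1,[y6,z6,z0,z9,z2]),(z1,[y3,z3,z0,z3,z2]),(z1,[z6,y9,y1,y9,y3,z3])],.ref k6 k0 [(z1,[z6,y3,z0,z0,y4]),(z1,[y6,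
    z6,z1,z0,z4]),(z1,[y3,z3,z0,z3,z2]),(z2,[y3,z3,z0,z0,z4]),(z1,[z3,y6,y1,y3,y3,z3])],.ref k6 k0 [(z5,[z12,z15,z4,
    z12,z0,y12]),(z5,[y12,z0,z1,y12,z0,z12]),(z5,[y6,z0,y2,z9,z0,z6]),(z5,[y3,z0,y1,y3,z5,z3]),(z5,[z6,y15,y3,y9,y5,
    z9])],.ref k6 k0 [(z1,[z3,z0,z0,z0,y1]),(z1,[y3,z3,z1,z0,z1]),(z2,[y3,z3,z0,z6,z1]),(z4,[y3,z3,z0,z0,z5]),(z2,[z3,
    y9,y2,y6,y3,z6])],.ref k6 k0 [(z1,[y1,z3,z1]),(z1,[z1]),(z2,[z1,z0,y1,z6]),(z4,[z1,z0,y1,z0,z4]),(z2,[y1,y6,y1,y6,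
    y2,z6])],.ref k6 k0 [(z5,[y6,z15,z4,z6]),(z5,[z6,z0,z1,y6]),(z5,[z3,z0,y2,z12]),(z10,[z3,z0,y2,y3,z10]),(z5,[y3,
    y15,y3,y12,y5,z15])],.ref k6 k0 [(z9,[y12,z27,z8,z0,z4]),(z9,[z12,z0,z1,z0,y4]),(z9,[z6,z0,y4,z27,y2]),(z9,[z3,z0,
    y2,z0,z8]),(z9,[y6,y27,y5,y27,y7,z27])],.ref k6 k0 [(z7,[y12,z21,z8]),(z7,[z12,z0,y1]),(z7,[z6,z0,y4,z21]),(z7,
    [z3,z0,y2,z0,z7]),(z7,[y6,y21,y3,y21,y7,z21])],.ref k6 k0 [(z7,[y12,z21,z4,z12,z4]),(z7,[z12,z0,z3,y12,y4]),(z7,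
    [z6,z0,y2,z15,y2]),(z7,[z3,z0,y1,y3,z6]),(z7,[y6,y21,y5,y15,y5,z21])],.ref k6 k0 [(z1,[y3,z0,z0,z0,y1,z3]),(z1,
    [z3,z3,z1,z0,z1,y3]),(z2,[z3,z3,z0,z6,z1,y3]),(z4,[z3,z3,z0,z0,z5,y3]),(z2,[y3,y9,y2,y6,y3,z9])],.ref k6 k0 [(z3,
    [y6,z9,z2,z0,z4]),(z3,[z6,z0,z1,z0,y4]),(z3,[z3,z0,y1,z9,y2]),(z6,[z3,z0,y1,z0,z4]),(z3,[y3,y9,y2,y9,y1,z9])],
    .ref k6 k0 [(z1,[y3,z3,z1,z0,z1]),(z1,[z3,z0,z0,z0,y1]),(z2,[z3,z0,y1,z6,y1]),(z4,[z3,z0,y1,z0,z3]),(z2,[y3,y6,y1,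
    y6,y1,z6])],.ref k6 k0 [(z1,[y12,y9,z0,y12,y4,z12]),(z1,[z12,z12,z1,z12,z4,y12]),(z1,[z6,z6,z0,z9,z2,y6]),(z1,[z3,
    z3,z0,z3,z2,y3]),(z1,[y6,y9,y1,y9,y3,z9])]],
    .lp [(nat_lit 268),(nat_lit 296),(nat_lit 322),(nat_lit 330),(nat_lit 348),(nat_lit 352)] [k42,k42,k28,k28,k15,k15,
    k11,k11,k2,k2,k0,k0] k0 [[k0,k0,k0,k0,k0,k0,k0,k0,k0,k0,k0,k70],[k0,k0,k30,k0,k0,k0,k46],[k0,k0,k0,k0,k50,k0,k0,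
    k0,k40],[k30,k0,k0,k0,k0,k0,k0,k0,k18],[k0,k0,k0,k0,k0,k0,k0,k0,k0,k0,k0,k48],[k0,k0,k0,k50,k0,k0,k0,k22],[k0,k0,
    k0,k0,k22,k0,k0,k0,k0,k62],[k46,k0,k0,k0,k0,k0,k0,k0,k0,k4],[k0,k0,k0,k0,k0,k0,k4,k62],[k0,k0,k18,k40,k0,k0,k0,k0,
    k0,k0,k50],[k0,k70,k0,k0,k0,k48],[k0,k0,k0,k0,k0,k0,k0,k0,k50]] (nat_lit 960) k5
    [[(k11,(nat_lit 260)),(k0,(nat_lit 268)),(k4,(nat_lit 295)),(k8,(nat_lit 308)),(k7,(nat_lit 347)),(k3,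
    (nat_lit 352))],[(k10,(nat_lit 240)),(k1,(nat_lit 268)),(k5,(nat_lit 295)),(k9,(nat_lit 308)),(k2,(nat_lit 312)),
    (k6,(nat_lit 345))],[(k9,(nat_lit 276)),(k5,(nat_lit 279)),(k2,(nat_lit 296)),(k6,(nat_lit 313)),(k10,
    (nat_lit 324)),(k1,(nat_lit 352))],[(k7,(nat_lit 263)),(k11,(nat_lit 284)),(k3,(nat_lit 296)),(k4,(nat_lit 309)),
    (k0,(nat_lit 312)),(k8,(nat_lit 340))],[(k3,(nat_lit 279)),(k0,(nat_lit 295)),(k11,(nat_lit 319)),(k7,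
    (nat_lit 326)),(k4,(nat_lit 372)),(k8,(nat_lit 375))],[(k10,(nat_lit 289)),(k1,(nat_lit 295)),(k2,(nat_lit 309)),
    (k6,(nat_lit 326)),(k9,(nat_lit 357)),(k5,(nat_lit 372))],[(k2,(nat_lit 263)),(k6,(nat_lit 308)),(k5,
    (nat_lit 326)),(k9,(nat_lit 339)),(k10,(nat_lit 341)),(k1,(nat_lit 347))],[(k8,(nat_lit 277)),(k7,(nat_lit 308)),
    (k3,(nat_lit 313)),(k4,(nat_lit 326)),(k0,(nat_lit 345)),(k11,(nat_lit 345))],[(k3,(nat_lit 276)),(k0,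
    (nat_lit 308)),(k7,(nat_lit 339)),(k8,(nat_lit 344)),(k4,(nat_lit 357)),(k11,(nat_lit 412))],[(k6,(nat_lit 277)),
    (k1,(nat_lit 308)),(k2,(nat_lit 340)),(k9,(nat_lit 344)),(k5,(nat_lit 375)),(k10,(nat_lit 400))],[(k1,
    (nat_lit 260)),(k2,(nat_lit 284)),(k5,(nat_lit 319)),(k6,(nat_lit 345)),(k10,(nat_lit 352)),(k9,(nat_lit 412))],
    [(k0,(nat_lit 240)),(k4,(nat_lit 289)),(k3,(nat_lit 324)),(k7,(nat_lit 341)),(k11,(nat_lit 352)),(k8,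
    (nat_lit 400))]]
    [] k0
    [[k3,k0,k0,k0,k0,k0],[k2,k1,k0,k0,k0,k0],[k2,k0,k1,k0,k0,k0],[k2,k0,k0,k0,k1,k0],[k2,k0,k0,k0,k0,k1],[k1,k1,k1,k0,
    k0,k0],[k1,k1,k0,k0,k0,k1],[k1,k0,k1,k0,k0,k1],[k1,k0,k0,k1,k1,k0],[k1,k0,k0,k1,k0,k1],[k1,k1,k0,k0,k1,k0],[k1,k0,
    k0,k0,k0,k2],[k0,k3,k0,k0,k0,k0],[k0,k2,k1,k0,k0,k0],[k0,k2,k0,k1,k0,k0],[k0,k2,k0,k0,k1,k0],[k0,k2,k0,k0,k0,k1],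
    [k0,k1,k1,k1,k0,k0],[k0,k1,k1,k0,k0,k1],[k0,k1,k0,k2,k0,k0],[k0,k1,k0,k1,k0,k1],[k0,k1,k0,k1,k1,k0],[k0,k0,k0,k3,
    k0,k0],[k0,k0,k0,k2,k1,k0]]
    [.ref k92 k8 [(z4,[z1,z1,z4,z4,y4]),(z4,[z1,y3]),(z1,[z1]),(z2,[y1,y1,y2,y4,z4])],.ref k79 k8 [(z2,[z3,z2,z5,z8,
    y8]),(z2,[z1,z0,z1,z2,y2]),(z1,[z2,z1,z2,z4,y4]),(z1,[y3,y2,y4,y8,z8])],.ref k92 k8 [(z2,[z1,z0,z2,z1,y2]),(z2,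
    [z1,y2,z0,y1]),(z1,[z2,y1,z0,y2]),(z1,[y1,z0,y1,y1,z2])],.ref k93 k5 [(z1,[z2,y6,y2,y13,z2]),(z1,[z1,y2,z0,y4]),
    (z1,[z0,z0,z0,z1]),(z1,[z0,z1,z0,z2])],.ref k92 k8 [(z3,[z1,z1,z3,z3,y3]),(z3,[z1,y2]),(z3,[z4,z1]),(z3,[y2,y2,y3,
    y6,z6])],.ref k8 k0 [(z1,[z0,z1]),(z1,[z1,y1,z0,y1]),(z1,[z0,z0,z0,z1]),(z2,[y1,y1,y1,y1,z2])],.ref k94 k4 [(z1,
    [z2,z2,z2,z5,y4]),(z1,[z6,z4,z5,z10,y10]),(z1,[y4,y3,y4,y8,z8]),(z1,[y1,y1,y1,y2,z2])],.ref k92 k8 [(z1,[z1,z0,z1,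
    z0,y1]),(z1,[z1,y1,z0,y1]),(z1,[z4,y1,z0,y4]),(z1,[y2,z0,y1,z0,z2])],.ref k78 k9 [(z1,[y3,y1,y4,y4,z4]),(z1,[y2,
    z0,y2,y1,z2]),(z1,[z0,z0,z1]),(z1,[z4,z1,z4,z4,y4])],.ref k84 k0 [(z1,[z0,z1]),(z1,[y2,z0,y1,y2,z2]),(z1,[z0,z0,
    z0,z1]),(z1,[z1,y1])],.ref k79 k8 [(z1,[z3,z1,z1,z4,y4]),(z1,[z1,z0,z0,z1,y1]),(z1,[z4,z1,z0,z4,y4]),(z1,[y6,y2,
    y1,y8,z8])],.ref k92 k8 [(z2,[z1,z1,z2,z2,y2]),(z2,[z1,y1]),(z1,[z2,z1]),(z1,[y1,y1,y1,y2,z2])],.ref k95 k0 [(z1,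
    [z0,z1]),(z1,[z1]),(z1,[z0,z0,z0,z1]),(z2,[y1,y6,y3,y6,z6])],.ref k78 k9 [(z2,[z3,y2,y8,y5,z2]),(z1,[z1,z0,y2]),
    (z1,[z0,z0,z1]),(z1,[y2,z1,z4,z2])],.ref k96 k0 [(z1,[z0,z1]),(z1,[z2,z2,z1,z2,y2]),(z1,[z0,z0,z0,z1]),(z1,[y1,y4,
    y2,y4,z4])],.ref k95 k0 [(z1,[z0,z1]),(z1,[z2,z0,y1]),(z1,[z0,z0,z0,z1]),(z1,[y1,y3,y1,y3,z3])],.ref k97 k7 [(z1,
    [z1,z0,y2]),(z1,[z4,z1,y8]),(z1,[z0,z0,z1]),(z1,[y2,z0,z4,z1])],.ref k98 k0 [(z1,[z0,z1]),(z1,[z2,z2,z1,z0,y2]),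
    (z1,[z0,z0,z0,z1]),(z1,[y1,y2,y1,y1,z2])],.ref k78 k9 [(z1,[z3,y1,y4,y4,z1]),(z1,[z2,z0,y2,y1]),(z1,[z0,z0,z1]),
    (z1,[y4,z1,z4,z4])],.ref k92 k8 [(z2,[y1,z0,z1]),(z2,[y1,y2,y1,y2,z2]),(z1,[y2,y1,y2,y4,z4]),(z1,[z1])],
    .ref k84 k0 [(z1,[z0,z1]),(z1,[z2,z2,z1,z2,y2]),(z1,[z0,z0,z0,z1]),(z1,[y1,y2,y1,y2,z2])],.ref k92 k8 [(z1,[y1,z0,
    z1]),(z1,[y1,y1,z0,y1,z1]),(z1,[y4,y1,z0,y4,z4]),(z1,[z2,z0,y1])],.ref k99 k0 [(z1,[z0,z1]),(z1,[y2,y6,y3,y6,z6]),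
    (z1,[z0,z0,z0,z1]),(z1,[z1])],.ref k100 k0 [(z1,[z0,z1]),(z1,[y2,y4,y1,y4,z4]),(z1,[z0,z0,z0,z1]),(z1,[z1,y1,y1,
    y1,z1])]],
    .lp [(nat_lit 216),(nat_lit 234),(nat_lit 238),(nat_lit 240),(nat_lit 246),(nat_lit 260)] [k26,k18,k13,k13,k11,k11,
    k10,k10,k7,k7,k0,k0] k0 [[k0,k0,k0,k0,k0,k0,k2,k14],[k0,k0,k56,k0,k0,k0,k0,k0,k0,k0,k2],[k0,k0,k0,k0,k0,k14,k0,k0,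
    k8,k2],[k56,k0,k0,k0,k0,k10],[k0,k0,k10,k14],[k0,k0,k0,k0,k0,k0,k0,k0,k0,k0,k52,k14],[k0,k14],[k0,k2],[k0,k0,k0,
    k2,k0,k0,k0,k0,k0,k0,k0,k26],[k0,k0,k0,k8,k0,k0,k0,k0,k0,k0,k0,k20],[k0,k0,k0,k0,k14,k0,k0,k0,k20,k26],[k2,k0,k0,
    k0,k52]] (nat_lit 720) k5
    [[(k7,k180),(k0,(nat_lit 216)),(k3,(nat_lit 227)),(k4,(nat_lit 245)),(k8,(nat_lit 255)),(k11,(nat_lit 268))],[(k6,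
    (nat_lit 210)),(k1,(nat_lit 216)),(k5,(nat_lit 223)),(k9,(nat_lit 225)),(k10,(nat_lit 236)),(k2,(nat_lit 277))],
    [(k5,k180),(k1,(nat_lit 227)),(k2,(nat_lit 234)),(k6,(nat_lit 239)),(k10,(nat_lit 247)),(k9,(nat_lit 254))],[(k4,
    (nat_lit 222)),(k3,(nat_lit 234)),(k8,(nat_lit 238)),(k11,(nat_lit 239)),(k7,(nat_lit 247)),(k0,(nat_lit 277))],
    [(k3,k180),(k0,(nat_lit 223)),(k4,(nat_lit 228)),(k8,(nat_lit 250)),(k11,(nat_lit 251)),(k7,(nat_lit 253))],[(k2,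
    (nat_lit 222)),(k5,(nat_lit 228)),(k6,(nat_lit 239)),(k9,(nat_lit 242)),(k1,(nat_lit 245)),(k10,(nat_lit 301))],
    [(k1,k180),(k10,(nat_lit 236)),(k6,(nat_lit 240)),(k9,(nat_lit 243)),(k2,(nat_lit 247)),(k5,(nat_lit 253))],[(k0,
    (nat_lit 210)),(k3,(nat_lit 239)),(k4,(nat_lit 239)),(k7,(nat_lit 240)),(k8,(nat_lit 243)),(k11,(nat_lit 250))],
    [(k0,(nat_lit 225)),(k4,(nat_lit 242)),(k7,(nat_lit 243)),(k8,(nat_lit 246)),(k11,(nat_lit 253)),(k3,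
    (nat_lit 254))],[(k10,(nat_lit 227)),(k2,(nat_lit 238)),(k6,(nat_lit 243)),(k9,(nat_lit 246)),(k5,(nat_lit 250)),
    (k1,(nat_lit 255))],[(k2,(nat_lit 239)),(k10,(nat_lit 240)),(k6,(nat_lit 250)),(k5,(nat_lit 251)),(k9,
    (nat_lit 253)),(k1,(nat_lit 268))],[(k8,(nat_lit 227)),(k0,(nat_lit 236)),(k7,(nat_lit 236)),(k11,(nat_lit 240)),
    (k3,(nat_lit 247)),(k4,(nat_lit 301))]]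
    [] k0
    [[k3,k0,k0,k0,k0,k0],[k2,k0,k1,k0,k0,k0],[k2,k0,k0,k1,k0,k0],[k2,k0,k0,k0,k1,k0],[k1,k1,k1,k0,k0,k0],[k1,k1,k0,k1,
    k0,k0],[k1,k1,k0,k0,k1,k0],[k1,k1,k0,k0,k0,k1],[k1,k0,k2,k0,k0,k0],[k1,k0,k1,k1,k0,k0],[k1,k0,k0,k2,k0,k0],[k1,k0,
    k0,k1,k1,k0],[k1,k0,k0,k1,k0,k1],[k0,k3,k0,k0,k0,k0],[k0,k2,k1,k0,k0,k0],[k0,k1,k2,k0,k0,k0],[k0,k1,k1,k1,k0,k0],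
    [k0,k1,k1,k0,k1,k0],[k0,k1,k0,k1,k0,k1],[k0,k0,k3,k0,k0,k0]]
    [.ref k6 k0 [(z1,[z1]),(z13,[y2,z6,z39]),(z13,[y8,z24,z0,z39]),(z13,[y8,z24,z0,z0,z39]),(z13,[z4,y51,y39,y39,y39,
    z39])],.ref k6 k0 [(z6,[z13,y8,z0,y13]),(z3,[y1,z2,z9,z1]),(z3,[y4,z8,z0,z13]),(z3,[y4,z8,z0,z4,z9]),(z3,[z2,y13,
    y9,y11,y9,z9])],.ref k6 k0 [(z6,[z13,y8,z0,z0,y13]),(z3,[y1,z2,z9,z0,z1]),(z3,[y4,z8,z0,z9,z4]),(z3,[y4,z8,z0,z0,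
    z13]),(z3,[z2,y13,y9,y9,y11,z9])],.ref k6 k0 [(z10,[z13,z17,z13,z13,z13,y13]),(z5,[y1,z1,z14,y1,y1,z1]),(z5,[y4,
    z4,y4,z11,y4,z4]),(z5,[y4,z4,y4,y4,z11,z4]),(z5,[z2,y17,y13,y13,y13,z13])],.ref k6 k0 [(z1,[z13,y10,y13,y13]),(z1,
    [y2,z2,z5,z2]),(z1,[y8,z8,z8,z11]),(z1,[y8,z8,z8,z8,z3]),(z1,[z4,y7,y7,y7,y3,z3])],.ref k6 k0 [(z1,[z13,y10,y13,
    z0,y13]),(z1,[y2,z2,z5,z0,z2]),(z1,[y8,z8,z8,z3,z8]),(z1,[y8,z8,z8,z0,z11]),(z1,[z4,y7,y7,y3,y7,z3])],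
    .ref k6 k0 [(z5,[z13,z15,z0,z13,z13,y13]),(z5,[y2,z0,z15,y2,y2,z2]),(z5,[y8,z0,z0,z7,y8,z8]),(z5,[y8,z0,z0,y8,z7,
    z8]),(z5,[z4,y15,y15,y11,y11,z11])],.ref k6 k0 [(z4,[z13,y1,y13]),(z2,[y1,z1,z7]),(z1,[y2,z2,z2,z3]),(z1,[y2,z2,
    z2,z0,z3]),(z1,[z1,y4,y4,y3,y3,z3])],.ref k6 k0 [(z1,[y13,z16,z0,z26]),(z1,[z2,y2,z3,y4]),(z1,[z8,y8,z0,y13]),(z1,
    [z8,y8,z0,y16,z3]),(z1,[y4,z1,y3,z5,y3,z3])],.ref k6 k0 [(z1,[y13,z16,z0,z13,z13]),(z1,[z2,y2,z3,y2,y2]),(z1,[z8,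
    y8,z0,y5,y8]),(z1,[z8,y8,z0,y8,y5]),(z1,[y4,z1,y3,z1,z1,z3])],.ref k6 k0 [(z1,[y13,z16,z0,z0,z26]),(z1,[z2,y2,z3,
    z0,y4]),(z1,[z8,y8,z0,z3,y16]),(z1,[z8,y8,z0,z0,y13]),(z1,[y4,z1,y3,y3,z5,z3])],.ref k6 k0 [(z3,[z13,z9,z13,z13,
    z0,y13]),(z3,[y2,z0,z7,y2,z0,z2]),(z3,[y8,z0,y8,z1,z0,z8]),(z3,[y8,z0,y8,y8,z9,z8]),(z3,[z4,y9,y5,y5,y9,z5])],
    .ref k6 k0 [(z2,[z13,y7,z0,z0,y13]),(z1,[y1,z1,z3,z0,z1]),(z1,[y4,z4,z0,z3,z4]),(z1,[y4,z4,z0,z0,z7]),(z1,[z2,y5,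
    y3,y3,y5,z3])],.ref k6 k0 [(z2,[y13,z6,z39]),(z1,[z1]),(z1,[z4,z0,y12,z3]),(z1,[z4,z0,y12,z0,z3]),(z1,[y2,y3,z3,
    y3,y3,z3])],.ref k6 k0 [(z4,[y13,z12,z26,z13]),(z2,[z1,z0,z4,y1]),(z1,[z2,z0,y4,z1]),(z1,[z2,z0,y4,y2,z3]),(z1,
    [y1,y3,y1,y2,y3,z3])],.ref k6 k0 [(z6,[y13,z18,z13,z26]),(z3,[z1,z0,z8,y2]),(z3,[z4,z0,y4,z1]),(z3,[z4,z0,y4,y8,
    z9]),(z3,[y2,y9,y7,y5,y9,z9])],.ref k6 k0 [(z6,[y13,z18,z13,z13,z13]),(z3,[z1,z0,z8,y1,y1]),(z3,[z4,z0,y4,z5,y4]),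
    (z3,[z4,z0,y4,y4,z5]),(z3,[y2,y9,y7,y7,y7,z9])],.ref k6 k0 [(z2,[y13,y7,z0,z0,y13,z13]),(z1,[z1,z1,z3,z0,z1,y1]),
    (z1,[z4,z4,z0,z3,z4,y4]),(z1,[z4,z4,z0,z0,z7,y4]),(z1,[y2,y5,y3,y3,y5,z5])],.ref k6 k0 [(z3,[y13,z9,z13,z0,z13]),
    (z3,[z2,z0,z7,z0,y2]),(z3,[z8,z0,y8,z9,y8]),(z3,[z8,z0,y8,z0,z1]),(z3,[y4,y9,y5,y9,y5,z9])],.ref k6 k0 [(z8,[y13,
    z24,z0,z39]),(z4,[z1,z0,z12,y3]),(z1,[z1]),(z1,[z1,z0,z0,y3,z3]),(z2,[y1,y6,y6,y3,y6,z6])]],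
    .leafM k6 [k0,k1,k2,k3,k4,k5] [(z1,[y1,y1,y1,z0,z1])] [],
    .leafM k6 [k0,k1,k2,k3,k4,k5] [(z1,[y1,y1,y1,z0,z1])] [],
    .lp [(nat_lit 216),(nat_lit 234),(nat_lit 238),(nat_lit 240),(nat_lit 246),(nat_lit 260)] [k26,k18,k13,k13,k11,k11,
    k10,k10,k7,k7,k0,k0] k0 [[k0,k0,k0,k0,k0,k0,k2,k14],[k0,k0,k56,k0,k0,k0,k0,k0,k0,k0,k2],[k0,k0,k0,k0,k0,k14,k0,k0,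
    k8,k2],[k56,k0,k0,k0,k0,k10],[k0,k0,k10,k14],[k0,k0,k0,k0,k0,k0,k0,k0,k0,k0,k52,k14],[k0,k14],[k0,k2],[k0,k0,k0,
    k2,k0,k0,k0,k0,k0,k0,k0,k26],[k0,k0,k0,k8,k0,k0,k0,k0,k0,k0,k0,k20],[k0,k0,k0,k0,k14,k0,k0,k0,k20,k26],[k2,k0,k0,
    k0,k52]] (nat_lit 720) k5
    [[(k7,k180),(k0,(nat_lit 216)),(k3,(nat_lit 227)),(k4,(nat_lit 245)),(k8,(nat_lit 255)),(k11,(nat_lit 268))],[(k6,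
    (nat_lit 210)),(k1,(nat_lit 216)),(k5,(nat_lit 223)),(k9,(nat_lit 225)),(k10,(nat_lit 236)),(k2,(nat_lit 277))],
    [(k5,k180),(k1,(nat_lit 227)),(k2,(nat_lit 234)),(k6,(nat_lit 239)),(k10,(nat_lit 247)),(k9,(nat_lit 254))],[(k4,
    (nat_lit 222)),(k3,(nat_lit 234)),(k8,(nat_lit 238)),(k11,(nat_lit 239)),(k7,(nat_lit 247)),(k0,(nat_lit 277))],
    [(k3,k180),(k0,(nat_lit 223)),(k4,(nat_lit 228)),(k8,(nat_lit 250)),(k11,(nat_lit 251)),(k7,(nat_lit 253))],[(k2,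
    (nat_lit 222)),(k5,(nat_lit 228)),(k6,(nat_lit 239)),(k9,(nat_lit 242)),(k1,(nat_lit 245)),(k10,(nat_lit 301))],
    [(k1,k180),(k10,(nat_lit 236)),(k6,(nat_lit 240)),(k9,(nat_lit 243)),(k2,(nat_lit 247)),(k5,(nat_lit 253))],[(k0,
    (nat_lit 210)),(k3,(nat_lit 239)),(k4,(nat_lit 239)),(k7,(nat_lit 240)),(k8,(nat_lit 243)),(k11,(nat_lit 250))],
    [(k0,(nat_lit 225)),(k4,(nat_lit 242)),(k7,(nat_lit 243)),(k8,(nat_lit 246)),(k11,(nat_lit 253)),(k3,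
    (nat_lit 254))],[(k10,(nat_lit 227)),(k2,(nat_lit 238)),(k6,(nat_lit 243)),(k9,(nat_lit 246)),(k5,(nat_lit 250)),
    (k1,(nat_lit 255))],[(k2,(nat_lit 239)),(k10,(nat_lit 240)),(k6,(nat_lit 250)),(k5,(nat_lit 251)),(k9,
    (nat_lit 253)),(k1,(nat_lit 268))],[(k8,(nat_lit 227)),(k0,(nat_lit 236)),(k7,(nat_lit 236)),(k11,(nat_lit 240)),
    (k3,(nat_lit 247)),(k4,(nat_lit 301))]]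
    [] k0
    [[k3,k0,k0,k0,k0,k0],[k2,k0,k1,k0,k0,k0],[k2,k0,k0,k1,k0,k0],[k2,k0,k0,k0,k1,k0],[k1,k1,k1,k0,k0,k0],[k1,k1,k0,k1,
    k0,k0],[k1,k1,k0,k0,k1,k0],[k1,k1,k0,k0,k0,k1],[k1,k0,k2,k0,k0,k0],[k1,k0,k1,k1,k0,k0],[k1,k0,k0,k2,k0,k0],[k1,k0,
    k0,k1,k1,k0],[k1,k0,k0,k1,k0,k1],[k0,k3,k0,k0,k0,k0],[k0,k2,k1,k0,k0,k0],[k0,k1,k2,k0,k0,k0],[k0,k1,k1,k1,k0,k0],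
    [k0,k1,k1,k0,k1,k0],[k0,k1,k0,k1,k0,k1],[k0,k0,k3,k0,k0,k0]]
    [.ref k6 k0 [(z1,[z1]),(z5,[y2,z2,z15]),(z5,[y8,z8,z0,z15]),(z1,[z0,z0,z0,z0,z1]),(z5,[z4,y9,y15,y15,y5,z15])],
    .ref k6 k0 [(z2,[z15,y8,z0,y15]),(z1,[y3,z2,z3,z3]),(z1,[y12,z8,z0,z15]),(z1,[z0,z0,z0,z0,z1]),(z1,[z6,y5,y3,y9,
    y1,z3])],.ref k6 k0 [(z2,[z3,z0,z0,z0,y1]),(z5,[y3,z2,z15,z0,z1]),(z5,[y12,z8,z0,z15,z4]),(z1,[z0,z0,z0,z0,z1]),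
    (z5,[z6,y9,y15,y15,y7,z15])],.ref k6 k0 [(z14,[z15,z9,z15,z15,z5,y15]),(z7,[y3,z1,z18,y3,y1,z3]),(z7,[y12,z4,y12,
    z9,y4,z12]),(z1,[z0,z0,z0,z0,z1]),(z7,[z6,y9,y15,y15,y5,z15])],.ref k6 k0 [(z1,[y3,z2,z3,z3]),(z5,[z6,y2,z9,y6]),
    (z5,[z24,y8,y24,y9]),(z1,[z0,z0,z0,z0,z1]),(z5,[y12,y1,y3,y3,y5,z15])],.ref k6 k0 [(z3,[z15,y2,y15,z0,y5]),(z3,
    [y6,z2,z15,z0,z2]),(z3,[y24,z8,z24,z9,z8]),(z1,[z0,z0,z0,z0,z1]),(z3,[z12,y7,y21,y9,y7,z9])],.ref k6 k0 [(z7,[z15,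
    z7,z0,z15,z5,y15]),(z7,[y6,z0,z21,y6,y2,z6]),(z7,[y24,z0,z0,y3,y8,z24]),(z1,[z0,z0,z0,z0,z1]),(z7,[z12,y7,y21,y9,
    y3,z9])],.ref k6 k0 [(z4,[z15,y1,y15]),(z2,[y3,z1,z9]),(z1,[y6,z2,z6,z3]),(z1,[z0,z0,z0,z0,z1]),(z1,[z3,y2,y6,y3,
    y1,z3])],.ref k6 k0 [(z11,[y15,z16,z0,z30]),(z11,[z6,y2,z33,y12]),(z11,[z24,y8,z0,y15]),(z1,[z0,z0,z0,z0,z1]),
    (z11,[y12,y7,y33,y9,y11,z33])],.ref k6 k0 [(z3,[y15,z8,z0,z15,z5]),(z3,[z6,y2,z9,y6,y2]),(z3,[z24,y8,z0,y15,y8]),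
    (z1,[z0,z0,z0,z0,z1]),(z3,[y12,z1,y9,z3,z1,z9])],.ref k6 k0 [(z1,[z3,z0,z0,z0,y2]),(z5,[y6,z2,z15,z0,z4]),(z5,
    [y24,z8,z0,z15,z16]),(z1,[z0,z0,z0,z0,z1]),(z5,[z12,y9,y15,y15,y13,z15])],.ref k6 k0 [(z3,[z5,z3,z5,z5,z0,y5]),
    (z3,[y2,z0,z7,y2,z0,z2]),(z3,[y8,z0,y8,z1,z0,z8]),(z1,[z0,z0,z0,z0,z1]),(z3,[z4,y3,y5,y5,y3,z5])],.ref k6 k0 [(z6,
    [z15,z1,z0,z0,y5]),(z3,[y3,z1,z9,z0,z1]),(z3,[y12,z4,z0,z9,z4]),(z1,[z0,z0,z0,z0,z1]),(z3,[z6,y5,y9,y9,y5,z9])],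
    .ref k6 k0 [(z2,[y5,z2,z15]),(z1,[z1]),(z1,[z4,z0,y12,z3]),(z1,[z0,z0,z0,z0,z1]),(z1,[y2,y1,z3,y3,y1,z3])],
    .ref k6 k0 [(z4,[y5,z4,z10,z5]),(z2,[z1,z0,z4,y1]),(z1,[z2,z0,y4,z1]),(z1,[z0,z0,z0,z0,z1]),(z1,[y1,y1,y1,y2,y1,
    z3])],.ref k6 k0 [(z6,[y5,z6,z5,z10]),(z3,[z1,z0,z8,y2]),(z3,[z4,z0,y4,z1]),(z1,[z0,z0,z0,z0,z1]),(z3,[y2,y3,y7,
    y5,y3,z9])],.ref k6 k0 [(z2,[y3,z2,z3,z3,z1]),(z5,[z3,z0,z12,y3,y1]),(z5,[z12,z0,y12,z3,y4]),(z1,[z0,z0,z0,z0,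
    z1]),(z5,[y6,y5,y9,y9,y3,z15])],.ref k6 k0 [(z6,[y15,z1,z0,z0,y5,z15]),(z3,[z3,z1,z9,z0,z1,y3]),(z3,[z12,z4,z0,z9,
    z4,y12]),(z1,[z0,z0,z0,z0,z1]),(z3,[y6,y5,y9,y9,y5,z15])],.ref k6 k0 [(z1,[y15,z1,z15,z0,z5]),(z1,[z6,z0,y3,z0,
    y2]),(z1,[z24,z0,y24,z3,y8]),(z1,[z0,z0,z0,z0,z1]),(z1,[y12,y1,z9,y3,z3,z3])],.ref k6 k0 [(z8,[y5,z8,z0,z15]),(z4,
    [z1,z0,z12,y3]),(z1,[z1]),(z1,[z0,z0,z0,z0,z1]),(z2,[y1,y2,y6,y3,y2,z6])]],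
    .lp [(nat_lit 216),(nat_lit 234),(nat_lit 238),(nat_lit 240),(nat_lit 246),(nat_lit 260)] [k26,k18,k13,k13,k11,k11,
    k10,k10,k7,k7,k0,k0] k0 [[k0,k0,k0,k0,k0,k0,k2,k14],[k0,k0,k56,k0,k0,k0,k0,k0,k0,k0,k2],[k0,k0,k0,k0,k0,k14,k0,k0,
    k8,k2],[k56,k0,k0,k0,k0,k10],[k0,k0,k10,k14],[k0,k0,k0,k0,k0,k0,k0,k0,k0,k0,k52,k14],[k0,k14],[k0,k2],[k0,k0,k0,
    k2,k0,k0,k0,k0,k0,k0,k0,k26],[k0,k0,k0,k8,k0,k0,k0,k0,k0,k0,k0,k20],[k0,k0,k0,k0,k14,k0,k0,k0,k20,k26],[k2,k0,k0,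
    k0,k52]] (nat_lit 720) k5
    [[(k7,k180),(k0,(nat_lit 216)),(k3,(nat_lit 227)),(k4,(nat_lit 245)),(k8,(nat_lit 255)),(k11,(nat_lit 268))],[(k6,
    (nat_lit 210)),(k1,(nat_lit 216)),(k5,(nat_lit 223)),(k9,(nat_lit 225)),(k10,(nat_lit 236)),(k2,(nat_lit 277))],
    [(k5,k180),(k1,(nat_lit 227)),(k2,(nat_lit 234)),(k6,(nat_lit 239)),(k10,(nat_lit 247)),(k9,(nat_lit 254))],[(k4,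
    (nat_lit 222)),(k3,(nat_lit 234)),(k8,(nat_lit 238)),(k11,(nat_lit 239)),(k7,(nat_lit 247)),(k0,(nat_lit 277))],
    [(k3,k180),(k0,(nat_lit 223)),(k4,(nat_lit 228)),(k8,(nat_lit 250)),(k11,(nat_lit 251)),(k7,(nat_lit 253))],[(k2,
    (nat_lit 222)),(k5,(nat_lit 228)),(k6,(nat_lit 239)),(k9,(nat_lit 242)),(k1,(nat_lit 245)),(k10,(nat_lit 301))],
    [(k1,k180),(k10,(nat_lit 236)),(k6,(nat_lit 240)),(k9,(nat_lit 243)),(k2,(nat_lit 247)),(k5,(nat_lit 253))],[(k0,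
    (nat_lit 210)),(k3,(nat_lit 239)),(k4,(nat_lit 239)),(k7,(nat_lit 240)),(k8,(nat_lit 243)),(k11,(nat_lit 250))],
    [(k0,(nat_lit 225)),(k4,(nat_lit 242)),(k7,(nat_lit 243)),(k8,(nat_lit 246)),(k11,(nat_lit 253)),(k3,
    (nat_lit 254))],[(k10,(nat_lit 227)),(k2,(nat_lit 238)),(k6,(nat_lit 243)),(k9,(nat_lit 246)),(k5,(nat_lit 250)),
    (k1,(nat_lit 255))],[(k2,(nat_lit 239)),(k10,(nat_lit 240)),(k6,(nat_lit 250)),(k5,(nat_lit 251)),(k9,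
    (nat_lit 253)),(k1,(nat_lit 268))],[(k8,(nat_lit 227)),(k0,(nat_lit 236)),(k7,(nat_lit 236)),(k11,(nat_lit 240)),
    (k3,(nat_lit 247)),(k4,(nat_lit 301))]]
    [] k0
    [[k3,k0,k0,k0,k0,k0],[k2,k0,k1,k0,k0,k0],[k2,k0,k0,k1,k0,k0],[k2,k0,k0,k0,k1,k0],[k1,k1,k1,k0,k0,k0],[k1,k1,k0,k1,
    k0,k0],[k1,k1,k0,k0,k1,k0],[k1,k1,k0,k0,k0,k1],[k1,k0,k2,k0,k0,k0],[k1,k0,k1,k1,k0,k0],[k1,k0,k0,k2,k0,k0],[k1,k0,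
    k0,k1,k1,k0],[k1,k0,k0,k1,k0,k1],[k0,k3,k0,k0,k0,k0],[k0,k2,k1,k0,k0,k0],[k0,k1,k2,k0,k0,k0],[k0,k1,k1,k1,k0,k0],
    [k0,k1,k1,k0,k1,k0],[k0,k1,k0,k1,k0,k1],[k0,k0,k3,k0,k0,k0]]
    [.ref k6 k0 [(z1,[z1]),(z4,[z1,y3,z12]),(z16,[y11,z33,z0,z48]),(z8,[y1,z3,z0,z0,z24]),(z2,[y1,y3,y6,y6,y6,z6])],
    .ref k6 k0 [(z7,[z16,y11,z0,y16]),(z7,[z4,y8,z21,y4]),(z7,[y11,z22,z0,z32]),(z7,[y2,z4,z0,z2,z21]),(z7,[y8,y5,y21,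
    y13,y21,z21])],.ref k6 k0 [(z5,[z8,y1,z0,z0,y8]),(z5,[z2,y4,z15,z0,y2]),(z10,[y11,z22,z0,z30,z11]),(z5,[y1,z2,z0,
    z0,z16]),(z5,[y4,y7,y15,y15,y11,z15])],.ref k6 k0 [(z1,[z2,z1,z2,z2,z2,y2]),(z2,[z1,y1,z7,z1,z1,y1]),(z8,[y11,z11,
    y11,z13,y11,z11]),(z4,[y1,z1,y1,y1,z11,z1]),(z1,[y1,y2,y4,y4,y4,z4])],.ref k6 k0 [(z3,[z16,y7,y16,y16]),(z3,[z4,
    y4,z5,y4]),(z3,[y11,z11,z11,z20]),(z3,[y2,z2,z2,z2,z9]),(z3,[y8,y1,y1,y1,y9,z9])],.ref k6 k0 [(z3,[z8,z1,y8,z0,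
    y8]),(z3,[z2,y2,z7,z0,y2]),(z6,[y11,z11,z11,z18,z11]),(z3,[y1,z1,z1,z0,z10]),(z3,[y4,y5,y5,y9,y5,z9])],
    .ref k6 k0 [(z1,[z4,z3,z0,z4,z4,y4]),(z1,[z1,z0,z3,z1,z1,y1]),(z4,[y11,z0,z0,z1,y11,z11]),(z2,[y1,z0,z0,y1,z5,
    z1]),(z1,[y2,y3,y3,y5,y5,z5])],.ref k6 k0 [(z7,[z16,z5,y16]),(z7,[z4,y4,z17]),(z7,[y11,z11,z11,z21]),(z7,[y2,z2,
    z2,z0,z21]),(z7,[y8,y13,y13,y21,y21,z21])],.ref k6 k0 [(z1,[y8,z11,z0,z16]),(z1,[y2,z2,z3,z4]),(z2,[z11,y11,z0,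
    y16]),(z1,[z1,y1,z0,y2,z3]),(z1,[z4,y7,y3,y11,y3,z3])],.ref k6 k0 [(z1,[z16,y13,z0,y16,y16]),(z1,[z4,y4,z3,y4,
    y4]),(z1,[y11,z11,z0,z14,z11]),(z1,[y2,z2,z0,z2,z5]),(z1,[y8,z5,y3,z5,z5,z3])],.ref k6 k0 [(z1,[z4,y1,z0,z0,y8]),
    (z1,[z1,y1,z3,z0,y2]),(z4,[y11,z11,z0,z12,z22]),(z2,[y1,z1,z0,z0,z8]),(z1,[y2,y1,y3,y3,z1,z3])],.ref k6 k0 [(z1,
    [z8,z3,z8,z8,z0,y8]),(z1,[z2,z0,z5,z2,z0,y2]),(z2,[y11,z0,y11,y5,z0,z11]),(z1,[y1,z0,y1,y1,z3,z1]),(z1,[y4,y3,y7,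
    y7,y3,z7])],.ref k6 k0 [(z5,[z16,y1,z0,z0,y16]),(z5,[z4,y4,z15,z0,y4]),(z5,[y11,z11,z0,z15,z11]),(z5,[y2,z2,z0,z0,
    z17]),(z5,[y8,y7,y15,y15,y7,z15])],.ref k6 k0 [(z1,[z4,z3,y12]),(z1,[z1]),(z4,[y11,z0,z33,z12]),(z2,[y1,z0,z3,z0,
    z6]),(z1,[y2,y3,z3,y3,y3,z3])],.ref k6 k0 [(z1,[y16,z3,z32,z16]),(z1,[y4,z0,z11,z4]),(z1,[z11,z0,y22,y8]),(z1,[z2,
    z0,y4,y2,z3]),(z1,[z8,y3,y19,y11,y3,z3])],.ref k6 k0 [(z3,[y8,z9,z8,z16]),(z3,[y2,z0,z11,z4]),(z6,[z11,z0,y11,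
    y4]),(z3,[z1,z0,y1,y2,z9]),(z3,[z4,y9,y13,y17,y9,z9])],.ref k6 k0 [(z3,[y16,z9,z16,z16,z16]),(z3,[y4,z0,z13,z4,
    z4]),(z3,[z11,z0,y11,y2,y11]),(z3,[z2,z0,y2,y2,z7]),(z3,[z8,y9,y17,y17,y17,z9])],.ref k6 k0 [(z5,[y16,y1,z0,z0,
    y16,z16]),(z5,[y4,y4,z15,z0,y4,z4]),(z5,[z11,z11,z0,z15,z11,y11]),(z5,[z2,z2,z0,z0,z17,y2]),(z5,[z8,y7,y15,y15,y7,
    z7])],.ref k6 k0 [(z1,[z16,z3,y16,z0,y16]),(z1,[z4,z0,y1,z0,y4]),(z1,[y11,z0,z11,z3,z11]),(z1,[y2,z0,z2,z0,z5]),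
    (z1,[y8,y3,z5,y3,z5,z3])],.ref k6 k0 [(z11,[y16,z33,z0,z48]),(z11,[y4,z0,z33,z12]),(z1,[z1]),(z11,[z2,z0,z0,y6,
    z33]),(z11,[z8,y33,y33,y57,y33,z33])]],
    .leafM k1 [k0,k1,k2,k3,k4,k5] [(z1,[z0,z1,z0,z1]),(z1,[z0,y1,z0,y1,z1])] [],
    .lp [(nat_lit 606),(nat_lit 606),(nat_lit 658),(nat_lit 652),(nat_lit 662),(nat_lit 652)] [k28,k28,k28,k28,k2,k2,k5,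
    k5,k0,k0,k5,k5] k0 [[k0,k0,k2,k58],[k0,k0,k0,k0,k0,k0,k0,k0,k0,k0,k22,k34],[k0,k58,k0,k0,k0,k6],[k0,k2,k0,k0,k0,
    k54],[k0,k0,k54,k6,k0,k0,k16],[k0,k0,k0,k0,k0,k0,k0,k0,k0,k0,k6,k18],[k0,k0,k0,k0,k0,k0,k0,k0,k0,k34],[k0,k0,k0,
    k0,k0,k16],[k0,k0,k0,k0,k0,k0,k0,k34],[k0,k0,k0,k0,k0,k0,k0,k0,k0,k0,k0,k12],[k34,k0,k0,k0,k18,k0,k0,k0,k12],[k22,
    k0,k0,k0,k6]] (nat_lit 1920) k5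
    [[(k3,(nat_lit 584)),(k7,(nat_lit 623)),(k11,(nat_lit 629)),(k0,(nat_lit 640)),(k8,(nat_lit 646)),(k4,
    (nat_lit 650))],[(k2,(nat_lit 548)),(k6,(nat_lit 629)),(k5,(nat_lit 630)),(k9,(nat_lit 634)),(k1,(nat_lit 640)),
    (k10,(nat_lit 651))],[(k1,(nat_lit 584)),(k10,(nat_lit 595)),(k2,(nat_lit 608)),(k6,(nat_lit 629)),(k9,
    (nat_lit 634)),(k5,(nat_lit 690))],[(k0,(nat_lit 548)),(k3,(nat_lit 608)),(k4,(nat_lit 626)),(k11,(nat_lit 629)),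
    (k8,(nat_lit 634)),(k7,(nat_lit 683))],[(k4,(nat_lit 604)),(k0,(nat_lit 630)),(k11,(nat_lit 655)),(k8,
    (nat_lit 660)),(k7,(nat_lit 661)),(k3,(nat_lit 690))],[(k5,(nat_lit 604)),(k2,(nat_lit 626)),(k9,(nat_lit 644)),
    (k1,(nat_lit 650)),(k6,(nat_lit 655)),(k10,(nat_lit 661))],[(k1,(nat_lit 623)),(k10,(nat_lit 634)),(k9,
    (nat_lit 657)),(k5,(nat_lit 661)),(k6,(nat_lit 668)),(k2,(nat_lit 683))],[(k8,(nat_lit 623)),(k0,(nat_lit 629)),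
    (k3,(nat_lit 629)),(k11,(nat_lit 652)),(k4,(nat_lit 655)),(k7,(nat_lit 668))],[(k0,(nat_lit 634)),(k3,
    (nat_lit 634)),(k4,(nat_lit 644)),(k7,(nat_lit 657)),(k8,(nat_lit 662)),(k11,(nat_lit 691))],[(k6,(nat_lit 623)),
    (k2,(nat_lit 634)),(k1,(nat_lit 646)),(k10,(nat_lit 657)),(k5,(nat_lit 660)),(k9,(nat_lit 662))],[(k1,
    (nat_lit 629)),(k2,(nat_lit 629)),(k10,(nat_lit 640)),(k6,(nat_lit 652)),(k5,(nat_lit 655)),(k9,(nat_lit 691))],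
    [(k3,(nat_lit 595)),(k7,(nat_lit 634)),(k11,(nat_lit 640)),(k0,(nat_lit 651)),(k8,(nat_lit 657)),(k4,
    (nat_lit 661))]]
    [] k0
    [[k2,k1,k0,k0,k0,k0],[k2,k0,k0,k1,k0,k0],[k1,k2,k0,k0,k0,k0],[k1,k1,k1,k0,k0,k0],[k1,k1,k0,k1,k0,k0],[k1,k1,k0,k0,
    k1,k0],[k1,k1,k0,k0,k0,k1],[k1,k0,k2,k0,k0,k0],[k1,k0,k1,k1,k0,k0],[k1,k0,k0,k1,k1,k0],[k1,k0,k0,k1,k0,k1],[k0,k3,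
    k0,k0,k0,k0],[k0,k2,k0,k0,k1,k0],[k0,k2,k0,k0,k0,k1],[k0,k1,k1,k1,k0,k0],[k0,k1,k0,k1,k0,k1],[k0,k1,k1,k0,k0,k1],
    [k0,k1,k0,k0,k0,k2],[k0,k0,k3,k0,k0,k0],[k0,k0,k2,k0,k1,k0]]
    [.ref k102 k6 [(z1,[y1,z2,z1]),(z1,[z0,y1,y1,y1,z1]),(z1,[z0,z0,z0,z1]),(z1,[z1,y2])],.ref k17 k7 [(z2,[z1,y1,z1,
    z1,y1]),(z1,[z2,z1,z2,z2,y2]),(z2,[z5,y5,z11,z5,y5]),(z1,[y4,z4,y4,y1,z4])],.ref k80 k6 [(z2,[y1,z1,z2]),(z1,[z0,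
    y1,y1,y1,z1]),(z1,[z0,z0,z0,z1]),(z2,[z1,y1])],.ref k103 k0 [(z1,[z0,z1]),(z1,[z1,y1,z0,y1]),(z1,[z0,z0,z0,z1]),
    (z1,[z0,y1,y1,y1,z1])],.ref k80 k6 [(z1,[y1,z0,z0,y1,z1]),(z1,[z0,y1,y1,y1,z1]),(z1,[z0,z0,z0,z1]),(z1,[z1,z0,z1,
    z1,y1])],.ref k17 k7 [(z3,[z1,y1,y1]),(z3,[z4,z5,y4]),(z3,[z5,y5,z4]),(z3,[y8,z8,z8,z9])],.ref k104 k6 [(z1,[y1,
    z1,z1]),(z1,[z0,y1,y1,y1,z1]),(z1,[z0,z0,z0,z1]),(z1,[z1,y1])],.ref k17 k7 [(z4,[y1,z1,z0,z2]),(z1,[y1,z4,z0,z2]),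
    (z4,[y5,z5,z12,z10]),(z1,[z2,y2,z0,y1])],.ref k17 k7 [(z2,[y1,z0,y1,z0,z1]),(z1,[y2,z3,y2,z0,z2]),(z2,[y5,z0,z1,
    z0,z5]),(z1,[z4,z0,z4,z3,y4])],.ref k50 k0 [(z1,[z0,z1]),(z1,[y1,z0,z0,y1,z1]),(z1,[z0,z0,z0,z1]),(z1,[z0,y1,y1,
    y1,z1])],.ref k17 k7 [(z1,[z1,z0,z1,z1,y1]),(z1,[z4,z3,z4,z4,y4]),(z1,[z5,z0,z8,z5,y5]),(z1,[y8,z0,y8,y5,z8])],
    .ref k105 k6 [(z1,[y1,z0,z3]),(z1,[z0,y1,y1,y1,z1]),(z1,[z0,z0,z0,z1]),(z1,[z1])],.ref k104 k6 [(z1,[y1,z0,z2]),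
    (z1,[z0,y1,y1,y1,z1]),(z1,[z0,z0,z0,z1]),(z1,[z1,z0,y1])],.ref k106 k1 [(z1,[y8,z0,z0,z1]),(z1,[y2,y1,y1,y1,z1]),
    (z1,[z5,z0,z1]),(z1,[z1])],.ref k94 k0 [(z1,[z0,z1]),(z1,[z1,z1,z1,z0,y1]),(z1,[z0,z0,z0,z1]),(z1,[z0,y1,y1,y1,
    z1])],.ref k107 k3 [(z1,[y4,y3,y4,y4,z4]),(z1,[y1,y1,y1,y1,z1]),(z1,[y5,y5,y4,y5,z5]),(z1,[z2,z1,z1,z1,y1])],
    .ref k50 k0 [(z1,[z0,z1]),(z1,[z1,z0,z0,y1]),(z1,[z0,z0,z0,z1]),(z1,[z0,y1,y1,y1,z1])],.ref k80 k6 [(z1,[y1,z0,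
    z1]),(z1,[z0,y1,y1,y1,z1]),(z1,[z0,z0,z0,z1]),(z1,[z1])],.ref k17 k7 [(z8,[y1,z0,z0,z3]),(z2,[y1,z6,z0,z3]),(z8,
    [y5,z0,z24,z15]),(z1,[z1])],.ref k62 k6 [(z1,[z1,z0,z0,y2]),(z1,[z0,y1,y1,y1,z1]),(z1,[z0,z0,z0,z1]),(z1,[y1,z0,
    z1,z2])]],
    .leafM k6 [k0,k1,k2,k3,k4,k5] [(z1,[y1,y1,y1,z1])] [],
    .lp [(nat_lit 458),(nat_lit 500),(nat_lit 494),(nat_lit 482),(nat_lit 464),(nat_lit 476)] [k21,k21,k0,k0,k3,k3,k9,k9,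
    k18,k18,k12,k12] k0 [[k0,k0,k12,k0,k0,k0,k24],[k0,k0,k0,k0,k0,k0,k18,k0,k0,k0,k0,k48],[k0,k0,k0,k0,k0,k0,k0,k0,k0,
    k18],[k0,k12,k0,k0,k0,k12],[k0,k0,k12,k0,k0,k0,k0,k12],[k0,k0,k0,k0,k0,k0,k0,k0,k0,k0,k24,k18],[k0,k0,k0,k0,k0,
    k12,k0,k0,k36],[k18,k24],[k0,k0,k0,k18,k0,k0,k0,k0,k0,k0,k60],[k0,k0,k0,k0,k0,k0,k0,k36],[k48,k0,k0,k0,k18],[k0,
    k0,k0,k0,k24,k0,k0,k0,k0,k60]] (nat_lit 1440) k5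
    [[(k8,(nat_lit 401)),(k7,(nat_lit 446)),(k11,(nat_lit 467)),(k3,(nat_lit 479)),(k4,(nat_lit 494)),(k0,
    (nat_lit 506))],[(k9,(nat_lit 437)),(k5,(nat_lit 464)),(k10,(nat_lit 467)),(k2,(nat_lit 479)),(k6,(nat_lit 488)),
    (k1,(nat_lit 506))],[(k10,(nat_lit 440)),(k9,(nat_lit 464)),(k1,(nat_lit 479)),(k5,(nat_lit 497)),(k2,
    (nat_lit 512)),(k6,(nat_lit 515))],[(k8,(nat_lit 464)),(k0,(nat_lit 479)),(k11,(nat_lit 488)),(k4,(nat_lit 497)),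
    (k7,(nat_lit 503)),(k3,(nat_lit 512))],[(k0,(nat_lit 464)),(k8,(nat_lit 479)),(k4,(nat_lit 482)),(k7,
    (nat_lit 488)),(k3,(nat_lit 497)),(k11,(nat_lit 503))],[(k6,(nat_lit 476)),(k9,(nat_lit 479)),(k5,(nat_lit 482)),
    (k1,(nat_lit 494)),(k2,(nat_lit 497)),(k10,(nat_lit 509))],[(k1,(nat_lit 446)),(k10,(nat_lit 461)),(k6,
    (nat_lit 482)),(k9,(nat_lit 485)),(k5,(nat_lit 488)),(k2,(nat_lit 503))],[(k11,(nat_lit 443)),(k8,(nat_lit 473)),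
    (k4,(nat_lit 476)),(k7,(nat_lit 482)),(k0,(nat_lit 488)),(k3,(nat_lit 515))],[(k0,(nat_lit 437)),(k3,
    (nat_lit 464)),(k11,(nat_lit 470)),(k4,(nat_lit 479)),(k7,(nat_lit 485)),(k8,(nat_lit 500))],[(k1,(nat_lit 401)),
    (k2,(nat_lit 464)),(k10,(nat_lit 470)),(k6,(nat_lit 473)),(k5,(nat_lit 479)),(k9,(nat_lit 500))],[(k6,
    (nat_lit 443)),(k1,(nat_lit 467)),(k9,(nat_lit 470)),(k2,(nat_lit 488)),(k5,(nat_lit 503)),(k10,(nat_lit 536))],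
    [(k3,(nat_lit 440)),(k7,(nat_lit 461)),(k0,(nat_lit 467)),(k8,(nat_lit 470)),(k4,(nat_lit 509)),(k11,
    (nat_lit 536))]]
    [] k0
    [[k2,k0,k0,k0,k1,k0],[k1,k1,k0,k0,k1,k0],[k1,k1,k0,k0,k0,k1],[k1,k0,k1,k0,k1,k0],[k1,k0,k1,k1,k0,k0],[k1,k0,k0,k2,
    k0,k0],[k1,k0,k0,k1,k1,k0],[k1,k0,k0,k1,k0,k1],[k1,k0,k0,k0,k2,k0],[k1,k0,k0,k0,k1,k1],[k0,k1,k0,k0,k2,k0],[k0,k1,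
    k0,k0,k1,k1],[k0,k1,k0,k1,k0,k1],[k0,k0,k0,k2,k0,k1],[k0,k0,k0,k1,k1,k1]]
    [.ref k64 k8 [(z1,[z1,z2,z4,y4]),(z1,[z0,y1,y1,z1]),(z1,[z0,y1,y2,z2])],.ref k69 k7 [(z1,[z1,y1,y1]),(z1,[z4,y3,
    y4]),(z1,[y3,z3,z4])],.ref k70 k9 [(z1,[y1,z1,z1]),(z1,[z0,y1,y1,z1]),(z1,[z1,y1])],.ref k71 k4 [(z1,[y1,y1,y2,
    z2]),(z1,[y3,z0,y1,z3]),(z1,[z2,z1,z2,y2])],.ref k76 k0 [(z1,[z0,z1]),(z1,[y1,z0,z0,z1]),(z1,[z0,y1,y1,z1])],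
    .ref k76 k0 [(z1,[z0,z1]),(z2,[y1,z1,z2]),(z1,[z0,y1,y1,z1])],.ref k82 k8 [(z1,[z1,z1,z2,y2]),(z1,[z0,y1,y1,z1]),
    (z1,[z0,y1,y2,z2])],.ref k90 k0 [(z1,[z0,z1]),(z1,[y1,z1,z1]),(z1,[z0,y1,y1,z1])],.ref k71 k4 [(z2,[y1,y1,y2,z2]),
    (z2,[y3,z3,z4]),(z1,[z1])],.ref k91 k8 [(z1,[z2,z3,z5,y5]),(z1,[z0,y1,y1,z1]),(z1,[z0,y1,y2,z2])],
    .ref k101 k0 [(z1,[z0,z1]),(z1,[z1]),(z1,[z0,y1,y1,z1])],.ref k76 k0 [(z1,[z0,z1]),(z1,[z1]),(z1,[z0,y1,y1,z1])],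
    .ref k71 k4 [(z1,[z1,y1,y2,z1]),(z1,[z3,z0,y1]),(z1,[y2,z1,z2])],.ref k108 k4 [(z1,[y2,y1,y1,z1]),(z1,[y3,z0,z1]),
    (z1,[z4,z1])],.ref k109 k4 [(z1,[y2,y1,y1,z1]),(z1,[y3,z0,z1]),(z1,[z4,z1])]]]

noncomputable def cT6_2_n2_1 : List TN :=
  [.lp [(nat_lit 588),(nat_lit 614),(nat_lit 646),(nat_lit 604),(nat_lit 718),(nat_lit 666)] [k65,k65,k52,k52,k36,k36,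
    k57,k57,k0,k0,k26,k26] k0 [[k0,k0,k106,k2],[],[k0,k2,k0,k0,k18,k6],[k0,k106],[k0,k0,k0,k6,k0,k0,k0,k0,k0,k0,k32],
    [k0,k0,k0,k18,k0,k0,k0,k48],[k0,k0,k0,k0,k48],[k0,k0,k0,k0,k0,k0,k0,k0,k42,k62],[k0,k0,k0,k0,k0,k0,k62,k0,k0,k0,
    k0,k78],[k0,k0,k0,k0,k0,k0,k42,k0,k0,k0,k0,k26],[k0,k0,k0,k0,k0,k0,k0,k0,k26,k78],[k0,k0,k0,k0,k0,
    k32]] (nat_lit 1920) k5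
    [[(k4,(nat_lit 585)),(k0,(nat_lit 588)),(k7,(nat_lit 596)),(k3,(nat_lit 601)),(k8,(nat_lit 679)),(k11,
    (nat_lit 705))],[(k5,(nat_lit 511)),(k1,(nat_lit 588)),(k6,(nat_lit 596)),(k2,(nat_lit 599)),(k10,(nat_lit 627)),
    (k9,(nat_lit 653))],[(k1,(nat_lit 601)),(k6,(nat_lit 609)),(k5,(nat_lit 632)),(k10,(nat_lit 640)),(k9,
    (nat_lit 666)),(k2,(nat_lit 720))],[(k7,(nat_lit 591)),(k0,(nat_lit 599)),(k4,(nat_lit 624)),(k11,(nat_lit 640)),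
    (k8,(nat_lit 666)),(k3,(nat_lit 720))],[(k0,(nat_lit 511)),(k7,(nat_lit 631)),(k3,(nat_lit 632)),(k11,
    (nat_lit 656)),(k4,(nat_lit 664)),(k8,(nat_lit 682))],[(k1,(nat_lit 585)),(k2,(nat_lit 624)),(k6,(nat_lit 625)),
    (k10,(nat_lit 656)),(k5,(nat_lit 664)),(k9,(nat_lit 730))],[(k6,(nat_lit 556)),(k2,(nat_lit 591)),(k1,
    (nat_lit 596)),(k5,(nat_lit 631)),(k9,(nat_lit 661)),(k10,(nat_lit 667))],[(k7,(nat_lit 556)),(k0,(nat_lit 596)),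
    (k3,(nat_lit 609)),(k4,(nat_lit 625)),(k11,(nat_lit 697)),(k8,(nat_lit 703))],[(k11,(nat_lit 650)),(k0,
    (nat_lit 653)),(k8,(nat_lit 656)),(k7,(nat_lit 661)),(k3,(nat_lit 666)),(k4,(nat_lit 730))],[(k10,(nat_lit 614)),
    (k9,(nat_lit 656)),(k2,(nat_lit 666)),(k1,(nat_lit 679)),(k5,(nat_lit 682)),(k6,(nat_lit 703))],[(k2,
    (nat_lit 640)),(k10,(nat_lit 640)),(k9,(nat_lit 650)),(k5,(nat_lit 656)),(k6,(nat_lit 697)),(k1,(nat_lit 705))],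
    [(k8,(nat_lit 614)),(k0,(nat_lit 627)),(k3,(nat_lit 640)),(k11,(nat_lit 640)),(k4,(nat_lit 656)),(k7,
    (nat_lit 667))]]
    [] k0
    [[k3,k0,k0,k0,k0,k0],[k2,k1,k0,k0,k0,k0],[k2,k0,k1,k0,k0,k0],[k2,k0,k0,k1,k0,k0],[k1,k1,k1,k0,k0,k0],[k1,k1,k0,k1,
    k0,k0],[k1,k1,k0,k0,k0,k1],[k1,k0,k2,k0,k0,k0],[k1,k0,k1,k1,k0,k0],[k1,k0,k1,k0,k0,k1],[k1,k0,k0,k2,k0,k0],[k0,k1,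
    k1,k1,k0,k0],[k0,k1,k0,k2,k0,k0],[k0,k1,k0,k1,k0,k1],[k0,k0,k1,k2,k0,k0],[k0,k0,k0,k3,k0,k0],[k0,k0,k0,k0,k1,k2]]
    [.ref k6 k0 [(z1,[z1]),(z1,[y1,z1,z3]),(z2,[z1,y1,z0,z6]),(z1,[y1,z1,z0,z0,z3]),(z1,[z0,y1,y3,y3,y3,z3])],
    .ref k6 k0 [(z1,[z3,y1,y3]),(z1,[y3,z2,z6]),(z2,[z3,y2,y3,z6]),(z1,[y3,z2,z3,z0,z3]),(z1,[z0,y1,y3,y3,y3,z3])],
    .ref k6 k0 [(z5,[z6,z1,z0,y6]),(z5,[y6,z4,z15,z6]),(z5,[z3,y2,z0,z12]),(z5,[y6,z4,z0,z6,z15]),(z1,[z0,y1,y3,y3,y3,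
    z3])],.ref k6 k0 [(z1,[z3,y1,z0,z0,y3]),(z1,[y3,z2,z3,z0,z3]),(z2,[z3,y2,z0,z6,y3]),(z1,[y3,z2,z0,z0,z6]),(z1,[z0,
    y1,y3,y3,y3,z3])],.ref k6 k0 [(z1,[z6,y1,y6,y6]),(z1,[y6,z2,z9,z6]),(z1,[z3,y1,y3]),(z1,[y6,z2,z6,z6,z3]),(z1,[z0,
    y1,y3,y3,y3,z3])],.ref k6 k0 [(z1,[y3,z2,z3,z0,z3]),(z1,[z3,y1,z0,z0,y3]),(z2,[y3,z1,z3,z6,z3]),(z1,[z3,y1,y3]),
    (z1,[z0,y1,y3,y3,y3,z3])],.ref k6 k0 [(z1,[z6,y1,y6]),(z1,[y6,z2,z9]),(z1,[z3,y1,y3,z3]),(z1,[y6,z2,z6,z0,z3]),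
    (z1,[z0,y1,y3,y3,y3,z3])],.ref k6 k0 [(z2,[z3,z1,z0,y6]),(z2,[y3,z1,z6,z6]),(z4,[z3,y1,z0,z6]),(z2,[y3,z1,z0,z6,
    z6]),(z1,[z0,y1,y3,y3,y3,z3])],.ref k6 k0 [(z1,[z6,y1,z0,y6,y6]),(z1,[y6,z2,z3,z6,z6]),(z1,[z3,y1,z0,z0,y3]),(z1,
    [y6,z2,z0,z6,z9]),(z1,[z0,y1,y3,y3,y3,z3])],.ref k6 k0 [(z2,[z3,z1,z0,y3]),(z2,[y3,z1,z6,z3]),(z4,[z3,y1,z0,z9]),
    (z2,[y3,z1,z0,z3,z6]),(z1,[z0,y1,y3,y3,y3,z3])],.ref k6 k0 [(z1,[y3,z2,z0,z0,z6]),(z1,[z3,y1,z3,z0,y6]),(z2,[y3,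
    z1,z0,z6,z6]),(z1,[z3,y1,z0,z0,y3]),(z1,[z0,y1,y3,y3,y3,z3])],.ref k6 k0 [(z1,[y2,z1,z2,z2,z2]),(z1,[z2,z0,z1,y2,
    y2]),(z1,[y1,z0,z1,z4,z1]),(z1,[z2,z0,y2,y2,z1]),(z1,[z0,y1,y3,y3,y3,z3])],.ref k6 k0 [(z1,[y1,z1,z1,z0,z2]),(z1,
    [z1,z0,z2,z0,y2]),(z2,[y1,z0,z1,z6,z2]),(z1,[z1,z0,y1,z0,z1]),(z1,[z0,y1,y3,y3,y3,z3])],.ref k6 k0 [(z1,[y2,z1,z2,
    z0,z2]),(z1,[z2,z0,z1,z0,y2]),(z1,[y1,z0,z1,z3,z1]),(z1,[z2,z0,y2,z0,z1]),(z1,[z0,y1,y3,y3,y3,z3])],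
    .ref k6 k0 [(z1,[y2,z1,z0,z2,z4]),(z1,[z2,z0,z3,y2,y4]),(z1,[y1,z0,z0,z4,z2]),(z1,[z2,z0,z0,y2,y1]),(z1,[z0,y1,y3,
    y3,y3,z3])],.ref k6 k0 [(z1,[y1,z1,z0,z0,z3]),(z1,[z1,z0,z3,z0,y3]),(z2,[y1,z0,z0,z6,z3]),(z1,[z1]),(z1,[z0,y1,y3,
    y3,y3,z3])],.ref k6 k0 [(z1,[z3,z2,z3,z3,z3,y3]),(z1,[y3,y1,z0,y3,y3,z3]),(z2,[z3,z1,z3,z9,z3,y3]),(z1,[y3,y1,y3,
    y3,z0,z3]),(z1,[z0,y1,y3,y3,y3,z3])]],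
    .lp [k72,k84,k82,k82,k72,k86] [k7,k7,k1,k1,k2,k2,k2,k2,k7,k7,k0,k0] k0 [[k0,k0,k0,k0,k0,k0,k2],[k0,k0,k0,k0,k0,k0,k0,
    k0,k0,k0,k0,k14],[k0,k0,k0,k0,k0,k0,k0,k0,k12],[k0,k0,k0,k0,k2,k2],[k0,k0,k2,k0,k0,k0,k0,k2],[k0,k0,k2,k0,k0,k0,
    k0,k2],[k0,k0,k0,k0,k2,k2],[k0,k2,k0,k0,k0,k0,k0,k0,k12],[k0,k0,k0,k0,k0,k0,k0,k0,k0,k0,k10],[k0,k0,k0,k12,k0,k0,
    k12],[k14],[k0,k0,k0,k0,k0,k0,k0,k0,k0,k10]] (nat_lit 240) k5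
    [[(k8,k62),(k4,k77),(k7,k77),(k3,k78),(k11,k79),(k0,k86)],[(k9,k70),(k5,k77),(k6,k77),(k2,k78),(k10,k79),(k1,
    k86)],[(k10,k71),(k1,k78),(k9,k78),(k5,k83),(k2,k84),(k6,k85)],[(k11,k73),(k0,k78),(k8,k78),(k3,k84),(k4,k85),(k7,
    k85)],[(k0,k77),(k4,k80),(k7,k80),(k3,k83),(k11,k84),(k8,k89)],[(k1,k77),(k9,k79),(k5,k80),(k6,k80),(k10,k84),(k2,
    k85)],[(k1,k77),(k9,k79),(k5,k80),(k6,k80),(k10,k84),(k2,k85)],[(k0,k77),(k4,k80),(k7,k80),(k11,k84),(k3,k85),(k8,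
    k89)],[(k11,k67),(k0,k70),(k8,k72),(k3,k78),(k4,k79),(k7,k79)],[(k1,k62),(k9,k72),(k2,k78),(k10,k79),(k5,k89),(k6,
    k89)],[(k9,k67),(k2,k73),(k1,k79),(k5,k84),(k6,k84),(k10,k96)],[(k3,k71),(k0,k79),(k8,k79),(k4,k84),(k7,k84),(k11,
    k96)]]
    [] k0
    [[k2,k0,k0,k0,k1,k0],[k1,k1,k0,k0,k1,k0],[k1,k1,k0,k0,k0,k1],[k1,k1,k1,k0,k0,k0],[k1,k0,k2,k0,k0,k0],[k1,k0,k1,k1,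
    k0,k0],[k1,k0,k1,k0,k1,k0],[k1,k0,k0,k2,k0,k0],[k1,k0,k0,k1,k1,k0],[k1,k0,k0,k0,k2,k0],[k1,k0,k0,k0,k1,k1],[k0,k2,
    k0,k0,k0,k1],[k0,k1,k0,k0,k2,k0],[k0,k1,k0,k0,k1,k1],[k0,k0,k0,k0,k3,k0],[k0,k0,k0,k0,k2,k1]]
    [.ref k9 k4 [(z1,[y1,z3,z4,z5,y4]),(z1,[z0,y1,y1,y2,z2]),(z1,[z0,z1,z1,z1,y1]),(z1,[z0,y1,y2,y2,z2])],
    .ref k35 k5 [(z1,[z1,y1,y2,y2,z1]),(z1,[z2,y1,y2,y1]),(z1,[y2,z1,z2,z2]),(z1,[z1,z0,y1,y1])],.ref k5 k7 [(z1,[z2,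
    y1,y2]),(z1,[y1,z2,z1]),(z1,[z2,y1,z1]),(z1,[y2,z1,z2,z3])],.ref k35 k5 [(z1,[y1,z0,z0,y1,z1]),(z1,[y2,z1,z2,z1]),
    (z1,[z2,y1,y2]),(z1,[y1,z1,z1])],.ref k45 k10 [(z1,[y2,z1,z1]),(z1,[z1]),(z1,[y2,z1]),(z1,[z2,y1,z0,z1])],
    .ref k9 k8 [(z1,[y1,z2,z3,z4,y3]),(z1,[z0,y1,y2,y2,z2]),(z1,[z0,z1,z1,z1,y1]),(z1,[z0,y1,y1,y2,z2])],
    .ref k5 k7 [(z1,[y2,z1,z0,z2]),(z1,[z1,z1,z0,y1]),(z1,[y2,z1,z3,z2]),(z1,[z2,y1,z0,z1])],.ref k5 k7 [(z1,[y2,y1,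
    y4,y4,z4]),(z1,[z1,z2,z2,z2,y2]),(z1,[y2,y1,y1,y4,z4]),(z1,[z2,z1,z4,z7,y4])],.ref k9 k4 [(z1,[y1,z2,z3,z4,y3]),
    (z1,[z0,y1,y1,y2,z2]),(z1,[z0,z1,z1,z1,y1]),(z1,[z0,y1,y2,y2,z2])],.ref k45 k7 [(z1,[y2,z1]),(z1,[z1]),(z1,[y2,z1,
    z1]),(z1,[z2,y1,z0,z1])],.ref k35 k5 [(z1,[z1,y1,y1,y2,z1]),(z1,[z2,y1,z0,y1]),(z1,[y2,z1,z0,z2]),(z1,[z1,z0,z0,
    y1])],.ref k5 k7 [(z1,[z1,z0,y2]),(z2,[y1,z3,z2]),(z1,[z1,z0,z1]),(z1,[y1,z0,z2,z3])],.ref k35 k5 [(z2,[z1,y1,y3,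
    y4,z2]),(z1,[z1,z0,y1,y1]),(z1,[y1,z0,z1,z2]),(z2,[z1,z1,y1,y2])],.ref k9 k8 [(z1,[z1,z2,z3,z4,y4]),(z1,[z0,y1,y2,
    y2,z2]),(z1,[z0,z1,z1,z1,y1]),(z1,[z0,y1,y1,y2,z2])],.ref k111 k4 [(z1,[y1,z3,z6,z9,y6]),(z1,[z0,y1,y1,y2,z2]),
    (z1,[z0,z1,z1,z1,y1]),(z1,[z0,y1,y2,y2,z2])],.ref k35 k5 [(z2,[z1,y1,y2,y4,z2]),(z1,[z1,z0,z0,y1]),(z1,[y1,z0,z0,
    z2]),(z2,[z1,z1,z0,y2])]],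
    .tor k2 false k0 [(z1,[z0,z1]),(z1,[z0,z1,z1]),(z1,[z0,y1,y1,z1]),(z1,[z0,y1,z0,z1])],
    .leafM k1 [k0,k1,k2,k3,k4,k5] [(z1,[y1,z0,y1,z1]),(z1,[z1,z0,z1])] [],
    .leafM k6 [k0,k1,k2,k3,k4,k5] [(z2,[y2,y1,y1,z0,z2])] [],
    .lp [(nat_lit 388),(nat_lit 560),(nat_lit 480),(nat_lit 448),(nat_lit 418),(nat_lit 574)] [k93,k93,k7,k7,k47,k47,k63,
    k63,k78,k78,k0,k0] k0 [[k0,k0,k8,k0,k0,k0,k0,k14,k0,k0,k0,k74],[k0,k0,k102,k0,k0,k0,k0,k0,k0,k0,k0,k132],[k0,k0,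
    k0,k0,k16,k42,k0,k0,k130],[k102,k8],[k0,k0,k0,k42,k0,k0,k0,k26],[k0,k0,k0,k16,k0,k0,k0,k0,k0,k0,k58],[k0,k14,k0,
    k0,k0,k26],[k0,k0,k0,k0,k0,k0,k0,k0,k136,k6],[k0,k0,k0,k0,k0,k0,k6,k0,k0,k0,k42,k32],[k0,k0,k0,k130,k0,k0,k136],
    [k132,k74,k0,k0,k0,k0,k0,k0,k0,k32],[k0,k0,k0,k0,k58,k0,k0,k0,k0,k42]] (nat_lit 1440) k5
    [[(k7,(nat_lit 360)),(k8,(nat_lit 361)),(k4,(nat_lit 434)),(k11,(nat_lit 513)),(k0,(nat_lit 520)),(k3,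
    (nat_lit 548))],[(k9,(nat_lit 403)),(k6,(nat_lit 404)),(k10,(nat_lit 407)),(k5,(nat_lit 426)),(k1,(nat_lit 520)),
    (k2,(nat_lit 576))],[(k5,(nat_lit 418)),(k10,(nat_lit 435)),(k9,(nat_lit 503)),(k6,(nat_lit 504)),(k1,
    (nat_lit 548)),(k2,(nat_lit 568))],[(k11,(nat_lit 437)),(k4,(nat_lit 478)),(k7,(nat_lit 488)),(k8,(nat_lit 489)),
    (k3,(nat_lit 568)),(k0,(nat_lit 576))],[(k3,(nat_lit 418)),(k0,(nat_lit 426)),(k4,(nat_lit 496)),(k7,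
    (nat_lit 506)),(k11,(nat_lit 527)),(k8,(nat_lit 579))],[(k1,(nat_lit 434)),(k6,(nat_lit 438)),(k9,(nat_lit 449)),
    (k2,(nat_lit 478)),(k5,(nat_lit 496)),(k10,(nat_lit 585))],[(k1,(nat_lit 360)),(k6,(nat_lit 448)),(k9,
    (nat_lit 459)),(k2,(nat_lit 488)),(k5,(nat_lit 506)),(k10,(nat_lit 511))],[(k0,(nat_lit 404)),(k4,(nat_lit 438)),
    (k7,(nat_lit 448)),(k3,(nat_lit 504)),(k11,(nat_lit 517)),(k8,(nat_lit 569))],[(k11,(nat_lit 360)),(k0,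
    (nat_lit 403)),(k8,(nat_lit 412)),(k4,(nat_lit 449)),(k7,(nat_lit 459)),(k3,(nat_lit 503))],[(k1,(nat_lit 361)),
    (k9,(nat_lit 412)),(k10,(nat_lit 464)),(k2,(nat_lit 489)),(k6,(nat_lit 569)),(k5,(nat_lit 579))],[(k9,
    (nat_lit 360)),(k2,(nat_lit 437)),(k1,(nat_lit 513)),(k6,(nat_lit 517)),(k5,(nat_lit 527)),(k10,(nat_lit 616))],
    [(k0,(nat_lit 407)),(k3,(nat_lit 435)),(k8,(nat_lit 464)),(k7,(nat_lit 511)),(k4,(nat_lit 585)),(k11,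
    (nat_lit 616))]]
    [] k0
    [[k2,k0,k1,k0,k0,k0],[k2,k0,k0,k1,k0,k0],[k2,k0,k0,k0,k1,k0],[k1,k1,k0,k0,k0,k1],[k1,k1,k1,k0,k0,k0],[k1,k0,k2,k0,
    k0,k0],[k1,k0,k1,k1,k0,k0],[k1,k0,k1,k0,k1,k0],[k1,k0,k1,k0,k0,k1],[k1,k0,k0,k2,k0,k0],[k1,k0,k0,k1,k1,k0],[k1,k0,
    k0,k1,k0,k1],[k1,k0,k0,k0,k2,k0],[k1,k0,k0,k0,k1,k1],[k0,k1,k2,k0,k0,k0],[k0,k1,k1,k1,k0,k0],[k0,k1,k1,k0,k1,k0],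
    [k0,k1,k0,k0,k2,k0],[k0,k1,k0,k0,k1,k1],[k0,k0,k1,k2,k0,k0],[k0,k0,k0,k3,k0,k0],[k0,k0,k0,k0,k3,k0],[k0,k0,k0,k0,
    k2,k1]]
    [.ref k6 k0 [(z4,[z5,z1,z0,y5]),(z4,[y1,z1,z6,z1]),(z2,[z1,y1,z0,z5]),(z1,[y1,z1,z0,z1,z3]),(z2,[y2,y1,y3,y4,y6,
    z6])],.ref k6 k0 [(z2,[z5,y2,z0,z0,y5]),(z2,[y1,z1,z3,z0,z1]),(z1,[z1,y1,z0,z3,y1]),(z1,[y2,z2,z0,z0,z5]),(z2,[y4,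
    z1,y3,y6,y2,z6])],.ref k6 k0 [(z4,[z10,z1,z5,z10,z10,y10]),(z4,[y2,z1,z5,y2,y2,z2]),(z2,[z2,y1,z1,z8,z2,y2]),(z1,
    [y2,z1,y1,y2,z1,z2]),(z2,[y4,y1,y5,y10,y10,z10])],.ref k6 k0 [(z4,[z10,z1,y5]),(z4,[y2,z1,z7]),(z2,[z2,y1,y1,z6]),
    (z1,[y2,z1,z1,z0,z3]),(z2,[y4,y1,y1,y6,y6,z6])],.ref k6 k0 [(z4,[z10,z1,y5,y10]),(z4,[y2,z1,z7,z2]),(z2,[z2,y1,y1,
    z4]),(z1,[y2,z1,z1,z2,z3]),(z2,[y4,y1,y1,y2,y6,z6])],.ref k6 k0 [(z3,[z5,z2,z0,y10]),(z6,[y2,z1,z9,z4]),(z3,[z2,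
    y1,z0,z5]),(z3,[y4,z2,z0,z8,z9]),(z6,[y8,y5,y9,y2,y18,z18])],.ref k6 k0 [(z1,[z5,y1,z0,y5,y5]),(z2,[y2,z1,z3,z2,
    z2]),(z1,[z2,y1,z0,z1,y2]),(z1,[y4,z2,z0,z4,z7]),(z2,[y8,z1,y3,z2,z2,z6])],.ref k6 k0 [(z2,[z10,z3,z5,z0,z10,
    y10]),(z1,[y1,z0,z1,z0,y1,z1]),(z1,[z2,z0,z1,z3,z2,y2]),(z1,[y4,z0,y2,z0,y1,z4]),(z2,[y8,y3,y7,y6,y14,z14])],
    .ref k6 k0 [(z3,[z5,z2,z0,y5]),(z6,[y2,z1,z9,z2]),(z3,[z2,y1,z0,z7]),(z3,[y4,z2,z0,z4,z9]),(z6,[y8,y5,y9,y10,y18,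
    z18])],.ref k6 k0 [(z1,[y5,z4,z0,z0,z10]),(z2,[z2,y1,z3,z0,y4]),(z1,[y2,z1,z0,z3,z4]),(z1,[z4,y2,z0,z0,y5]),(z2,
    [z8,y7,y3,y6,y22,z6])],.ref k6 k0 [(z2,[y10,z3,y5,y10,z0,z10]),(z1,[z1,z0,z2,z1,z0,y1]),(z1,[y2,z0,y1,z1,z0,z2]),
    (z1,[z4,z0,z2,z4,z3,y4]),(z2,[z8,y3,z1,z2,y6,y2])],.ref k6 k0 [(z1,[z5,y1,z0,z0,y5]),(z2,[y2,z1,z3,z0,z2]),(z1,
    [z2,y1,z0,z3,y2]),(z1,[y4,z2,z0,z0,z7]),(z2,[y8,z1,y3,y6,z2,z6])],.ref k6 k0 [(z1,[y5,y1,y5,y10,y10,z10]),(z2,[z2,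
    z1,z5,z4,z4,y4]),(z1,[y2,y1,y2,y1,y4,z4]),(z1,[z4,z2,z4,z8,z11,y8]),(z2,[z8,z1,z5,z10,z10,y10])],.ref k6 k0 [(z2,
    [z10,z3,z5,z10,z10,y10]),(z1,[y1,z0,z1,y1,y1,z1]),(z1,[z2,z0,z1,z5,z2,y2]),(z1,[y4,z0,y2,y4,y1,z4]),(z2,[y8,y3,y7,
    y14,y14,z14])],.ref k6 k0 [(z2,[z10,z3,y5,y20]),(z1,[y1,z0,z2,z2]),(z1,[z2,z0,y1,y1]),(z1,[y4,z0,z2,z8,z3]),(z2,
    [y8,y3,z1,z10,y6,z6])],.ref k6 k0 [(z2,[y10,z3,z5,z10,z10]),(z1,[z1,z0,z1,y1,y1]),(z1,[y2,z0,z1,z5,z2]),(z1,[z4,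
    z0,y2,y4,y1]),(z2,[z8,y3,y7,y14,y14,z6])],.ref k6 k0 [(z1,[y5,y1,z0,z0,y5,z5]),(z2,[z2,z1,z3,z0,z2,y2]),(z1,[y2,
    y1,z0,z3,y2,z2]),(z1,[z4,z2,z0,z0,z7,y4]),(z2,[z8,z1,y3,y6,z2,y2])],.ref k6 k0 [(z6,[y10,y1,y5,y20,y20,z20]),(z3,
    [z1,z1,z5,z2,z2,y2]),(z3,[y2,y2,y1,z5,y4,z4]),(z3,[z4,z4,z2,z8,z17,y8]),(z6,[z8,y1,y5,y2,y2,z2])],.ref k6 k0 [(z1,
    [y5,y1,z0,y5,y5,z5]),(z2,[z2,z1,z3,z2,z2,y2]),(z1,[y2,y1,z0,z1,y2,z2]),(z1,[z4,z2,z0,z4,z7,y4]),(z2,[z8,z1,y3,z2,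
    z2,y2])],.ref k6 k0 [(z2,[y5,z3,z0,z5,z10]),(z2,[z1,z0,z3,y1,y2]),(z1,[y1,z0,z0,z4,z2]),(z1,[z2,z0,z0,y2,y1]),(z2,
    [z4,y3,y3,y10,y14,z6])],.ref k6 k0 [(z4,[y5,z6,z0,z0,z15]),(z4,[z1,z0,z6,z0,y3]),(z2,[y1,z0,z0,z6,z3]),(z1,[z1]),
    (z2,[z2,y3,y3,y6,y12,z6])],.ref k6 k0 [(z8,[y10,y3,y15,y30,y30,z30]),(z8,[z2,z3,z15,z6,z6,y6]),(z4,[y2,y3,y3,z6,
    y6,z6]),(z2,[z2,z3,z3,z6,z12,y6]),(z1,[z1])],.ref k6 k0 [(z2,[y5,y2,y5,y10,y10,z10]),(z2,[z1,z1,z4,z2,z2,y2]),(z1,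
    [y1,y1,y1,z1,y2,z2]),(z1,[z2,z2,z2,z4,z7,y4]),(z2,[z4,z1,z1,z2,z2,y2])]],
    .lp [(nat_lit 300),(nat_lit 308),(nat_lit 352),(nat_lit 266),(nat_lit 370),(nat_lit 320)] [k35,k35,k31,k31,k9,k9,k55,
    k49,k0,k0,k25,k25] k0 [[k0,k0,k18,k0,k0,k0,k0,k36],[k0,k0,k26,k0,k0,k0,k0,k0,k0,k0,k0,k64],[k0,k0,k0,k0,k50,k0,k0,
    k0,k0,k44],[k26,k18],[k0,k0,k0,k0,k0,k0,k0,k60,k0,k0,k38],[k0,k0,k0,k50,k0,k0,k0,k0,k0,k0,k6],[k0,k36,k0,k0,k0,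
    k60],[k0,k0,k0,k0,k0,k0,k0,k0,k30,k70],[k0,k0,k0,k44,k0,k0,k70],[k0,k0,k0,k0,k0,k0,k30],[k64],[k0,k0,k0,k0,k6,
    k38]] (nat_lit 960) k5
    [[(k7,(nat_lit 280)),(k4,(nat_lit 288)),(k3,(nat_lit 304)),(k11,(nat_lit 310)),(k8,(nat_lit 335)),(k0,
    (nat_lit 364))],[(k6,(nat_lit 244)),(k5,(nat_lit 308)),(k10,(nat_lit 310)),(k2,(nat_lit 330)),(k9,(nat_lit 335)),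
    (k1,(nat_lit 364))],[(k10,(nat_lit 250)),(k6,(nat_lit 284)),(k1,(nat_lit 304)),(k5,(nat_lit 304)),(k2,
    (nat_lit 326)),(k9,(nat_lit 375))],[(k7,(nat_lit 240)),(k8,(nat_lit 295)),(k11,(nat_lit 314)),(k3,(nat_lit 326)),
    (k0,(nat_lit 330)),(k4,(nat_lit 330))],[(k3,(nat_lit 304)),(k0,(nat_lit 308)),(k7,(nat_lit 312)),(k8,
    (nat_lit 361)),(k11,(nat_lit 380)),(k4,(nat_lit 402))],[(k6,(nat_lit 246)),(k1,(nat_lit 288)),(k2,(nat_lit 330)),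
    (k10,(nat_lit 342)),(k9,(nat_lit 361)),(k5,(nat_lit 402))],[(k2,(nat_lit 240)),(k6,(nat_lit 266)),(k1,
    (nat_lit 280)),(k5,(nat_lit 312)),(k10,(nat_lit 334)),(k9,(nat_lit 381))],[(k0,(nat_lit 244)),(k4,(nat_lit 246)),
    (k7,(nat_lit 266)),(k3,(nat_lit 284)),(k8,(nat_lit 345)),(k11,(nat_lit 360))],[(k8,(nat_lit 300)),(k11,
    (nat_lit 315)),(k0,(nat_lit 335)),(k4,(nat_lit 361)),(k3,(nat_lit 375)),(k7,(nat_lit 381))],[(k2,(nat_lit 295)),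
    (k9,(nat_lit 300)),(k1,(nat_lit 335)),(k6,(nat_lit 345)),(k10,(nat_lit 345)),(k5,(nat_lit 361))],[(k1,
    (nat_lit 310)),(k2,(nat_lit 314)),(k9,(nat_lit 315)),(k10,(nat_lit 320)),(k6,(nat_lit 360)),(k5,(nat_lit 380))],
    [(k3,(nat_lit 250)),(k0,(nat_lit 310)),(k11,(nat_lit 320)),(k7,(nat_lit 334)),(k4,(nat_lit 342)),(k8,
    (nat_lit 345))]]
    [] k0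
    [[k2,k0,k0,k1,k0,k0],[k1,k1,k1,k0,k0,k0],[k1,k1,k0,k1,k0,k0],[k1,k1,k0,k0,k1,k0],[k1,k1,k0,k0,k0,k1],[k1,k0,k1,k1,
    k0,k0],[k1,k0,k0,k2,k0,k0],[k1,k0,k0,k1,k0,k1],[k1,k0,k0,k0,k0,k2],[k0,k2,k0,k1,k0,k0],[k0,k2,k0,k0,k0,k1],[k0,k1,
    k1,k1,k0,k0],[k0,k1,k0,k2,k0,k0],[k0,k1,k0,k1,k0,k1],[k0,k1,k0,k0,k1,k1],[k0,k1,k0,k0,k0,k2],[k0,k0,k1,k2,k0,k0],
    [k0,k0,k0,k3,k0,k0],[k0,k0,k0,k0,k3,k0]]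
    [.ref k6 k0 [(z3,[z3,z1,z0,z0,y1]),(z1,[z0,z0,z1]),(z6,[y3,z2,z0,z6,z1]),(z3,[z3,y2,z0,z0,z2]),(z3,[y6,z1,y3,y3,
    y1,z9])],.ref k6 k0 [(z1,[z6,y1,y2,y2]),(z1,[z0,z0,z1]),(z1,[y3,z1,z1,z2]),(z1,[z6,y2,y2,y2,z1]),(z1,[y12,z3,z3,
    z3,y1,z3])],.ref k6 k0 [(z2,[z3,z1,y1,z0,y1]),(z1,[z0,z0,z1]),(z4,[y3,z1,z1,z4,z1]),(z2,[z3,y1,y1,z0,z1]),(z1,[y3,
    z0,z0,y1,z0,z3])],.ref k6 k0 [(z1,[y3,z1,z0,y1,y1,z3]),(z1,[z0,z0,z1]),(z2,[z3,z0,z0,z3,z1,y3]),(z1,[y3,z0,z0,y1,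
    z0,z3]),(z1,[z6,y1,y1,z1,z1,y3])],.ref k6 k0 [(z3,[z6,z1,y2]),(z1,[z0,z0,z1]),(z3,[y3,z1,z1,z3]),(z3,[z6,y2,y2,z0,
    z3]),(z3,[y12,z1,z1,y3,y3,z9])],.ref k6 k0 [(z3,[z6,z1,z0,y2,y2]),(z1,[z0,z0,z1]),(z3,[y3,z1,z0,z4,z1]),(z3,[z6,
    y2,z0,y2,z1]),(z3,[y12,z1,y3,z1,z1,z9])],.ref k6 k0 [(z3,[z3,z2,z0,z0,y2]),(z1,[z0,z0,z1]),(z6,[y3,z1,z0,z6,z2]),
    (z3,[z3,y1,z0,z0,z1]),(z3,[y6,y1,y3,y3,z1,z9])],.ref k6 k0 [(z5,[z6,z3,z0,z0,y2]),(z1,[z0,z0,z1]),(z5,[y3,z1,z0,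
    z5,z1]),(z5,[z6,y2,z0,z0,z3]),(z5,[y12,y1,y5,y5,y1,z15])],.ref k6 k0 [(z2,[z3,z1]),(z1,[z0,z0,z1]),(z4,[y3,z1,z0,
    z4]),(z2,[z3,y1,z0,z0,z2]),(z1,[y3,z0,y1,y1,y1,z3])],.ref k6 k0 [(z1,[z3,z1,y2,z0,y1]),(z1,[z0,z0,z1]),(z2,[y3,z0,
    z2,z2,z1]),(z1,[z3,z0,y2]),(z1,[y6,y1,z3,y1,z1,z3])],.ref k6 k0 [(z1,[z6,z1,y4]),(z1,[z0,z0,z1]),(z1,[y3,z0,z2,
    z1]),(z1,[z6,z0,y4,z0,z1]),(z1,[y12,y1,z7,y1,y1,z3])],.ref k6 k0 [(z1,[z6,z1,y2,y2,y2]),(z1,[z0,z0,z1]),(z1,[y3,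
    z0,z1,z2,z1]),(z1,[z6,z0,y2,y2,y1]),(z1,[y12,y1,z3,z3,z3,z3])],.ref k6 k0 [(z2,[z3,z2,y1,z0,y2]),(z1,[z0,z0,z1]),
    (z4,[y3,z0,z1,z4,z2]),(z2,[z3,z0,y1]),(z1,[y3,y1,z0,y1,z1,z3])],.ref k6 k0 [(z3,[z6,z3,y2,z0,y2]),(z1,[z0,z0,z1]),
    (z3,[y3,z0,z1,z3,z1]),(z3,[z6,z0,y2,z0,z1]),(z3,[y12,y3,z1,y3,z1,z9])],.ref k6 k0 [(z3,[y6,z1,z0,y2,y2,z6]),(z1,
    [z0,z0,z1]),(z3,[z3,z1,z0,z4,z1,y3]),(z3,[y6,y2,z0,y2,z1,z6]),(z3,[z12,z1,y3,z1,z1,y3])],.ref k6 k0 [(z1,[z3,z1,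
    y1]),(z1,[z0,z0,z1]),(z2,[y3,z0,z1,z2]),(z1,[z3,z0,y1,z0,z1]),(z1,[y6,y1,z1,y1,y1,z3])],.ref k6 k0 [(z3,[z6,z3,z0,
    y2,y4]),(z1,[z0,z0,z1]),(z3,[y3,z0,z0,z4,z2]),(z3,[z6,z0,z0,y2,y1]),(z3,[y12,y3,y3,z1,z5,z9])],.ref k6 k0 [(z1,
    [z1,z1,z0,z0,y1]),(z1,[z0,z0,z1]),(z2,[y1,z0,z0,z2,z1]),(z1,[z1]),(z1,[y2,y1,y1,y1,z1,z3])],.ref k6 k0 [(z2,[y1,
    z1,y1,y1,y1,z3]),(z1,[z0,z0,z1]),(z4,[z1,z1,z1,z5,z1,y3]),(z2,[y1,y1,y1,y1,z1,z3]),(z1,[z1])]],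
    .lp [(nat_lit 506),(nat_lit 434),(nat_lit 452),(nat_lit 506),(nat_lit 494),(nat_lit 482)] [k0,k0,k36,k36,k27,k27,k0,
    k0,k6,k6,k12,k12] k0 [[k0,k0,k72,k0,k0,k0,k42,k6],[k0,k0,k6,k0,k0,k0,k0,k0,k0,k0,k0,k48],[k0,k0,k0,k0,k0,k42,k0,
    k0,k96],[k6,k72],[k0,k0,k0,k42],[k0,k0,k0,k0,k0,k0,k0,k66,k0,k0,k54],[k0,k6,k0,k0,k66],[k0,k42,k0,k0,k0,k0,k0,k0,
    k0,k12],[k0,k0,k0,k0,k0,k0,k12,k0,k0,k0,k0,k18],[k0,k0,k0,k96],[k48,k0,k0,k0,k0,k0,k0,k0,k0,k18],[k0,k0,k0,k0,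
    k54]] (nat_lit 1440) k5
    [[(k7,(nat_lit 452)),(k3,(nat_lit 470)),(k4,(nat_lit 479)),(k8,(nat_lit 500)),(k11,(nat_lit 512)),(k0,
    (nat_lit 554))],[(k5,(nat_lit 407)),(k9,(nat_lit 458)),(k2,(nat_lit 476)),(k10,(nat_lit 494)),(k6,(nat_lit 500)),
    (k1,(nat_lit 554))],[(k10,(nat_lit 410)),(k5,(nat_lit 437)),(k1,(nat_lit 470)),(k9,(nat_lit 470)),(k2,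
    (nat_lit 506)),(k6,(nat_lit 512))],[(k11,(nat_lit 362)),(k4,(nat_lit 401)),(k8,(nat_lit 464)),(k7,(nat_lit 470)),
    (k0,(nat_lit 476)),(k3,(nat_lit 506))],[(k0,(nat_lit 407)),(k3,(nat_lit 437)),(k4,(nat_lit 452)),(k11,
    (nat_lit 467)),(k7,(nat_lit 521)),(k8,(nat_lit 569))],[(k2,(nat_lit 401)),(k5,(nat_lit 452)),(k1,(nat_lit 479)),
    (k6,(nat_lit 479)),(k10,(nat_lit 521)),(k9,(nat_lit 539))],[(k6,(nat_lit 440)),(k1,(nat_lit 452)),(k2,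
    (nat_lit 470)),(k10,(nat_lit 494)),(k9,(nat_lit 500)),(k5,(nat_lit 521))],[(k7,(nat_lit 440)),(k4,(nat_lit 479)),
    (k0,(nat_lit 500)),(k8,(nat_lit 500)),(k11,(nat_lit 506)),(k3,(nat_lit 512))],[(k0,(nat_lit 458)),(k3,
    (nat_lit 470)),(k8,(nat_lit 482)),(k11,(nat_lit 488)),(k7,(nat_lit 500)),(k4,(nat_lit 539))],[(k2,(nat_lit 464)),
    (k10,(nat_lit 470)),(k9,(nat_lit 482)),(k1,(nat_lit 500)),(k6,(nat_lit 500)),(k5,(nat_lit 569))],[(k2,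
    (nat_lit 362)),(k5,(nat_lit 467)),(k10,(nat_lit 482)),(k9,(nat_lit 488)),(k6,(nat_lit 506)),(k1,(nat_lit 512))],
    [(k3,(nat_lit 410)),(k8,(nat_lit 470)),(k11,(nat_lit 482)),(k0,(nat_lit 494)),(k7,(nat_lit 494)),(k4,
    (nat_lit 521))]]
    [] k0
    [[k1,k1,k1,k0,k0,k0],[k1,k1,k0,k0,k1,k0],[k1,k1,k0,k0,k0,k1],[k1,k0,k2,k0,k0,k0],[k1,k0,k1,k1,k0,k0],[k1,k0,k0,k2,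
    k0,k0],[k1,k0,k0,k1,k1,k0],[k0,k2,k1,k0,k0,k0],[k0,k2,k0,k0,k0,k1],[k0,k1,k2,k0,k0,k0],[k0,k1,k1,k1,k0,k0],[k0,k1,
    k1,k0,k0,k1],[k0,k1,k0,k2,k0,k0],[k0,k1,k0,k1,k0,k1],[k0,k1,k0,k0,k2,k0],[k0,k1,k0,k0,k1,k1],[k0,k1,k0,k0,k0,k2],
    [k0,k0,k3,k0,k0,k0],[k0,k0,k0,k3,k0,k0]]
    [.ref k115 k9 [(z2,[z2,y2,y1,y1,z2]),(z4,[z4,y2,y1,z1]),(z4,[y4,z2,z3,z1]),(z4,[z4,z0,y1,y1])],.ref k9 k7 [(z1,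
    [y4,z2,z1]),(z2,[z4,y1,y1]),(z2,[y2,z1,z1]),(z4,[z4,y2,y1,z1])],.ref k5 k7 [(z1,[z4,y2,y1]),(z2,[y4,z5,z1]),(z2,
    [z2,y1,z1]),(z4,[y4,z2,z1,z3])],.ref k115 k9 [(z4,[z2,y3,y1,y2,z4]),(z4,[z2,y1,z0,z1]),(z4,[y2,z1,z2,z1]),(z4,[z2,
    z1,z0,y1])],.ref k46 k1 [(z4,[z4,z0,y3,z1,y4]),(z4,[z0,y2,z1,y1,z4]),(z1,[y1,z0,z1,z0,z1]),(z1,[z0,z0,y1])],
    .ref k5 k7 [(z1,[y2,y1,y1,y1,z4]),(z2,[z2,z4,z1,z1,y4]),(z4,[y2,y1,z2,y1,z4]),(z4,[z2,z1,z1,z4,y4])],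
    .ref k116 k4 [(z4,[y8,z10,z3,z5,y12]),(z4,[z0,y2,z1,y1,z4]),(z4,[z0,z4,z1,z1,y4]),(z2,[z0,y2,y1,y1,z4])],
    .ref k9 k7 [(z1,[z4,z0,y2,y1]),(z2,[y4,z1,z2,z1]),(z4,[z4,z0,y1,y1]),(z2,[y2,z0,z1,z1])],.ref k5 k7 [(z1,[z2,z0,
    y1]),(z2,[y2,z3,z1]),(z2,[z1,z0,z1]),(z4,[y2,z0,z1,z3])],.ref k58 k9 [(z4,[z8,y2,y3,y5,z4]),(z4,[z4,z0,y1,y1]),
    (z2,[y2,z0,z1,z1]),(z2,[z4,z1,y1,y2])],.ref k115 k9 [(z4,[z4,z0,y1,y1]),(z2,[z2,z1,z0,z1,y2]),(z2,[y2,y1,z1,z0,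
    z2]),(z1,[z1,z1,z0,z0,y1])],.ref k116 k4 [(z4,[z8,z10,z3,z5,y20]),(z4,[z0,y2,z1,y1,z4]),(z4,[z0,z4,z1,z1,y4]),(z2,
    [z0,y2,y1,y1,z4])],.ref k5 k7 [(z1,[y4,y4,y1,y2,z8]),(z2,[z4,z7,z1,z2,y8]),(z2,[y2,y2,z1,y1,z4]),(z4,[z4,z4,z1,z5,
    y8])],.ref k5 k7 [(z1,[z4,z2,z0,z1,y4]),(z2,[y4,z1,z0,y1,z4]),(z4,[z4,z2,z3,z1,y4]),(z2,[y2,y1,z0,z1,z2])],
    .ref k58 k9 [(z4,[y8,y2,z1,y1,z4]),(z4,[y4,z0,z1,z1]),(z1,[z1]),(z2,[y4,z1,z1])],.ref k46 k1 [(z4,[y4,z0,y3,z1]),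
    (z4,[z0,y2,z1,y1,z4]),(z1,[z1,z0,z1]),(z1,[z0,z0,y1])],.ref k5 k7 [(z3,[z4,z0,y1]),(z6,[y4,z9,z1]),(z3,[z1,z0,
    z2]),(z12,[y4,z0,z1,z9])],.ref k117 k9 [(z4,[z8,y6,y3,y9,z12]),(z1,[z1]),(z4,[y4,z0,z3,z3]),(z2,[z4,z3,z0,y3])],
    .ref k5 k7 [(z2,[y4,y6,y3,y3,z12]),(z4,[z4,z12,z3,z3,y12]),(z8,[y4,y6,z3,y3,z12]),(z8,[z4,z6,z3,z9,y12])]],
    .leafM k6 [k0,k1,k2,k3,k4,k5] [(z1,[y1,y1,y1,z1])] [],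
    .lp [k74,k86,k86,k74,k82,k74] [k24,k0,k6,k6,k6,k6,k12,k12,k8,k8,k12,k12] k0 [[],[k0,k0,k0,k0,k0,k0,k6,k0,k0,k0,k0,k6],
    [],[],[k0,k0,k0,k0,k0,k0,k14,k0,k0,k0,k0,k6],[],[k0,k0,k0,k0,k0,k0,k0,k0,k6,k4],[k6,k0,k0,k0,k0,k14],[k0,k0,k0,k0,
    k0,k0,k0,k4,k0,k0,k30],[k0,k0,k0,k0,k0,k0,k0,k6,k0,k0,k12],[k6,k0,k0,k0,k0,k6],[k0,k0,k0,k0,k0,k0,k0,k0,k12,
    k30]] (nat_lit 240) k5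
    [[(k8,k60),(k11,k74),(k0,k80),(k3,k92),(k4,k92),(k7,k92)],[(k10,k62),(k9,k66),(k2,k68),(k5,k68),(k6,k68),(k1,
    k80)],[(k10,k74),(k9,k78),(k6,k80),(k2,k86),(k5,k86),(k1,k92)],[(k0,k68),(k7,k80),(k11,k80),(k8,k84),(k3,k86),(k4,
    k86)],[(k0,k68),(k7,k80),(k11,k80),(k8,k84),(k3,k86),(k4,k86)],[(k9,k70),(k10,k74),(k6,k80),(k2,k86),(k5,k86),(k1,
    k92)],[(k10,k74),(k9,k78),(k2,k80),(k5,k80),(k6,k88),(k1,k92)],[(k0,k68),(k11,k68),(k8,k74),(k3,k80),(k4,k80),(k7,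
    k88)],[(k0,k66),(k4,k70),(k3,k78),(k7,k78),(k11,k82),(k8,k88)],[(k1,k60),(k6,k74),(k2,k84),(k5,k84),(k9,k88),(k10,
    k90)],[(k6,k68),(k1,k74),(k2,k80),(k5,k80),(k9,k82),(k10,k104)],[(k0,k62),(k3,k74),(k4,k74),(k7,k74),(k8,k90),
    (k11,k104)]]
    [] k0
    [[k2,k0,k0,k0,k1,k0],[k2,k0,k0,k0,k0,k1],[k1,k1,k0,k0,k0,k1],[k1,k0,k1,k0,k0,k1],[k1,k0,k0,k1,k1,k0],[k1,k0,k0,k1,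
    k0,k1],[k1,k1,k0,k0,k1,k0],[k1,k0,k1,k0,k1,k0],[k1,k0,k0,k0,k2,k0],[k1,k0,k0,k0,k1,k1],[k0,k1,k0,k1,k0,k1],[k0,k1,
    k0,k1,k1,k0],[k0,k0,k1,k1,k1,k0],[k0,k0,k1,k1,k0,k1],[k0,k0,k0,k2,k0,k1],[k0,k0,k0,k1,k1,k1]]
    [.ref k112 k5 [(z1,[z0,y1,y1,z1]),(z1,[z1,y1,z1,y1]),(z1,[y1,z1,z0,z1])],.ref k113 k0 [(z1,[z1]),(z1,[z0,z0,z1]),
    (z1,[y1,z1,y1,z1])],.ref k114 k6 [(z1,[y1,z0,z1]),(z1,[z0,y1]),(z1,[z0,z1,y1,z1])],.ref k4 k7 [(z1,[z1,z0,z1,y1]),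
    (z1,[z0,z1]),(z1,[y1,z0,z0,z1])],.ref k112 k5 [(z1,[z0,y1,y1,z1]),(z1,[z1,z0,z1,y1]),(z1,[y1,z0,z0,z1])],
    .ref k113 k0 [(z1,[z1,z1]),(z1,[z0,z0,z1]),(z1,[y1,z0,y1,z1])],.ref k4 k7 [(z1,[y1,z1,z1]),(z1,[z0,z1]),(z1,[z1,
    y1])],.ref k114 k6 [(z1,[z1,y1,z1,y1]),(z1,[z0,y1]),(z1,[z0,z1,y1,z1])],.ref k118 k5 [(z1,[z0,y1,y1,z1]),(z1,[z2,
    y1,z1,y1]),(z1,[y2,z1,z3,z1])],.ref k119 k2 [(z1,[y1,z0,z1]),(z1,[z0,z1,y1,z1]),(z1,[z0,y1])],.ref k114 k6 [(z1,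
    [y1,y1,z1]),(z1,[z0,y1]),(z1,[z0,z1,y1,z1])],.ref k4 k7 [(z1,[y1,z0,z1]),(z1,[z0,z1]),(z1,[z1])],
    .ref k114 k6 [(z1,[z1,z0,z1,y1]),(z1,[z0,y1]),(z1,[z0,z1,y1,z1])],.ref k4 k7 [(z1,[z1,z1,z1,y1]),(z1,[z0,z1]),(z1,
    [y1,y1,z0,z1])],.ref k113 k0 [(z1,[z1,z2]),(z1,[z0,z0,z1]),(z1,[y1,y1,y1,z1])],.ref k119 k2 [(z1,[y1,y1,z1]),(z1,
    [z0,z1,y1,z1]),(z1,[z0,y1])]],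
    .lp [k146,k164,k158,k166,k164,k160] [k10,k10,k1,k1,k4,k4,k0,k0,k1,k1,k3,k3] k0 [[k0,k0,k0,k0,k0,k0,k0,k0,k0,k0,k2,
    k22],[k0,k0,k4,k0,k0,k0,k8],[k0,k0,k0,k0,k6,k2,k0,k0,k0,k2],[k4,k0,k0,k0,k0,k0,k0,k0,k0,k2],[k0,k0,k0,k2],[k0,k0,
    k0,k6,k0,k0,k10],[k0,k0,k0,k0,k0,k0,k0,k0,k6],[k8,k0,k0,k0,k10],[k0,k0,k2,k2],[k0,k0,k0,k0,k0,k0,k0,k6,k0,k0,k6],
    [k0,k22],[k0,k2,k0,k0,k0,k0,k0,k0,k6]] (nat_lit 480) k5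
    [[(k0,k144),(k11,k147),(k4,k152),(k8,k155),(k7,k156),(k3,k177)],[(k10,k131),(k1,k144),(k5,k152),(k9,k155),(k2,
    k159),(k6,k164)],[(k9,k156),(k5,k157),(k2,k164),(k10,k164),(k6,k165),(k1,k177)],[(k0,k159),(k4,k159),(k7,k159),
    (k8,k162),(k3,k164),(k11,k164)],[(k0,k152),(k3,k157),(k8,k159),(k11,k161),(k4,k164),(k7,k164)],[(k1,k152),(k2,
    k159),(k10,k159),(k9,k161),(k5,k164),(k6,k172)],[(k9,k155),(k1,k156),(k2,k159),(k10,k163),(k5,k164),(k6,k166)],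
    [(k11,k157),(k0,k164),(k3,k165),(k8,k165),(k7,k166),(k4,k172)],[(k0,k155),(k7,k155),(k3,k156),(k4,k161),(k11,
    k162),(k8,k170)],[(k1,k155),(k5,k159),(k2,k162),(k6,k165),(k10,k168),(k9,k170)],[(k1,k147),(k6,k157),(k10,k160),
    (k5,k161),(k9,k162),(k2,k164)],[(k0,k131),(k4,k159),(k11,k160),(k7,k163),(k3,k164),(k8,k168)]]
    [] k0
    [[k3,k0,k0,k0,k0,k0],[k2,k0,k1,k0,k0,k0],[k2,k0,k0,k1,k0,k0],[k2,k0,k0,k0,k1,k0],[k2,k0,k0,k0,k0,k1],[k1,k1,k0,k0,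
    k0,k1],[k1,k1,k1,k0,k0,k0],[k1,k0,k2,k0,k0,k0],[k1,k0,k1,k0,k1,k0],[k1,k0,k1,k0,k0,k1],[k1,k0,k0,k1,k1,k0],[k1,k0,
    k0,k1,k0,k1],[k1,k1,k0,k0,k1,k0],[k1,k0,k0,k0,k1,k1],[k1,k0,k0,k0,k0,k2],[k0,k1,k1,k0,k1,k0]]
    [.ref k6 k0 [(z1,[z1]),(z1,[z0,z0,z1]),(z1,[z0,z0,z0,z1]),(z1,[y1,z1,z0,z0,z3]),(z2,[y1,y1,y2,y2,y6,z6])],
    .ref k6 k0 [(z2,[z3,z0,z0,y1]),(z1,[z0,z0,z1]),(z1,[z0,z0,z0,z1]),(z2,[y3,z2,z0,z1,z6]),(z4,[y3,y2,y4,y3,y12,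
    z12])],.ref k6 k0 [(z1,[z3,y1,z0,z0,y3]),(z1,[z0,z0,z1]),(z1,[z0,z0,z0,z1]),(z1,[y3,z2,z0,z0,z6]),(z2,[y3,z0,y2,
    y2,y3,z6])],.ref k6 k0 [(z3,[z6,z1,z2,z2,z6,y6]),(z1,[z0,z0,z1]),(z1,[z0,z0,z0,z1]),(z3,[y6,z2,y2,y2,z3,z6]),(z3,
    [y3,y2,y4,y4,y12,z12])],.ref k6 k0 [(z5,[z6,z1]),(z1,[z0,z0,z1]),(z1,[z0,z0,z0,z1]),(z5,[y6,z4,z0,z0,z15]),(z5,
    [y3,y3,y5,y5,y15,z15])],.ref k6 k0 [(z3,[z6,z1,y2]),(z1,[z0,z0,z1]),(z1,[z0,z0,z0,z1]),(z3,[y6,z2,z2,z0,z9]),(z3,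
    [y3,y2,y2,y3,y9,z9])],.ref k6 k0 [(z1,[z3,z0,y1,y1]),(z1,[z0,z0,z1]),(z1,[z0,z0,z0,z1]),(z1,[y3,z1,z1,z1,z3]),(z2,
    [y3,y1,y1,y1,y6,z6])],.ref k6 k0 [(z1,[z3,z0,z0,y2]),(z1,[z0,z0,z1]),(z1,[z0,z0,z0,z1]),(z1,[y3,z1,z0,z2,z3]),(z2,
    [y3,y1,y2,z0,y6,z6])],.ref k6 k0 [(z1,[z6,z1,z2,z0,z6,y6]),(z1,[z0,z0,z1]),(z1,[z0,z0,z0,z1]),(z1,[y6,z0,y2,z0,y3,
    z6]),(z1,[y3,y1,y2,y1,y6,z6])],.ref k6 k0 [(z3,[z6,z1,z0,y2]),(z1,[z0,z0,z1]),(z1,[z0,z0,z0,z1]),(z3,[y6,z2,z0,z2,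
    z9]),(z3,[y3,y2,y3,y2,y9,z9])],.ref k6 k0 [(z1,[y6,z1,y2,y2,z0,z6]),(z1,[z0,z0,z1]),(z1,[z0,z0,z0,z1]),(z1,[z6,z0,
    z2,z2,z3,y6]),(z1,[z3,y1,z0,z0,y3])],.ref k6 k0 [(z1,[z6,y1,z0,z0,y6]),(z1,[z0,z0,z1]),(z1,[z0,z0,z0,z1]),(z1,[y6,
    z2,z0,z0,z9]),(z1,[y3,z0,y1,y1,z0,z3])],.ref k6 k0 [(z1,[z6,z1,z0,z2,z6,y6]),(z1,[z0,z0,z1]),(z1,[z0,z0,z0,z1]),
    (z1,[y6,z0,z0,y2,y3,z6]),(z1,[y3,y1,y1,y2,y6,z6])],.ref k6 k0 [(z1,[z3,z1,z1,z1,z3,y3]),(z1,[z0,z0,z1]),(z1,[z0,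
    z0,z0,z1]),(z1,[y3,z0,y1,y1,z0,z3]),(z2,[y3,y2,y3,y3,y9,z9])],.ref k6 k0 [(z2,[z3,z1]),(z1,[z0,z0,z1]),(z1,[z0,z0,
    z0,z1]),(z2,[y3,z1,z0,z0,z6]),(z4,[y3,y3,y4,y4,y12,z12])],.ref k6 k0 [(z1,[y6,y1,z0,z0,y6,z6]),(z1,[z0,z0,z1]),
    (z1,[z0,z0,z0,z1]),(z1,[z6,z2,z0,z0,z9,y6]),(z1,[z3,z0,y1,y1])]],
    .leafM k6 [k1,k2,k3,k4,k5,k0] [(z1,[z0,y1,y1,y1,z1])] []]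

noncomputable def cT6_2_n2_2 : List TN :=
  [.lp [(nat_lit 216),(nat_lit 234),(nat_lit 238),(nat_lit 240),(nat_lit 246),(nat_lit 260)] [k26,k18,k13,k13,k11,k11,
    k10,k10,k7,k7,k0,k0] k0 [[k0,k0,k0,k0,k0,k0,k2,k14],[k0,k0,k56,k0,k0,k0,k0,k0,k0,k0,k2],[k0,k0,k0,k0,k0,k14,k0,k0,
    k8,k2],[k56,k0,k0,k0,k0,k10],[k0,k0,k10,k14],[k0,k0,k0,k0,k0,k0,k0,k0,k0,k0,k52,k14],[k0,k14],[k0,k2],[k0,k0,k0,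
    k2,k0,k0,k0,k0,k0,k0,k0,k26],[k0,k0,k0,k8,k0,k0,k0,k0,k0,k0,k0,k20],[k0,k0,k0,k0,k14,k0,k0,k0,k20,k26],[k2,k0,k0,
    k0,k52]] (nat_lit 720) k5
    [[(k7,k180),(k0,(nat_lit 216)),(k3,(nat_lit 227)),(k4,(nat_lit 245)),(k8,(nat_lit 255)),(k11,(nat_lit 268))],[(k6,
    (nat_lit 210)),(k1,(nat_lit 216)),(k5,(nat_lit 223)),(k9,(nat_lit 225)),(k10,(nat_lit 236)),(k2,(nat_lit 277))],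
    [(k5,k180),(k1,(nat_lit 227)),(k2,(nat_lit 234)),(k6,(nat_lit 239)),(k10,(nat_lit 247)),(k9,(nat_lit 254))],[(k4,
    (nat_lit 222)),(k3,(nat_lit 234)),(k8,(nat_lit 238)),(k11,(nat_lit 239)),(k7,(nat_lit 247)),(k0,(nat_lit 277))],
    [(k3,k180),(k0,(nat_lit 223)),(k4,(nat_lit 228)),(k8,(nat_lit 250)),(k11,(nat_lit 251)),(k7,(nat_lit 253))],[(k2,
    (nat_lit 222)),(k5,(nat_lit 228)),(k6,(nat_lit 239)),(k9,(nat_lit 242)),(k1,(nat_lit 245)),(k10,(nat_lit 301))],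
    [(k1,k180),(k10,(nat_lit 236)),(k6,(nat_lit 240)),(k9,(nat_lit 243)),(k2,(nat_lit 247)),(k5,(nat_lit 253))],[(k0,
    (nat_lit 210)),(k3,(nat_lit 239)),(k4,(nat_lit 239)),(k7,(nat_lit 240)),(k8,(nat_lit 243)),(k11,(nat_lit 250))],
    [(k0,(nat_lit 225)),(k4,(nat_lit 242)),(k7,(nat_lit 243)),(k8,(nat_lit 246)),(k11,(nat_lit 253)),(k3,
    (nat_lit 254))],[(k10,(nat_lit 227)),(k2,(nat_lit 238)),(k6,(nat_lit 243)),(k9,(nat_lit 246)),(k5,(nat_lit 250)),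
    (k1,(nat_lit 255))],[(k2,(nat_lit 239)),(k10,(nat_lit 240)),(k6,(nat_lit 250)),(k5,(nat_lit 251)),(k9,
    (nat_lit 253)),(k1,(nat_lit 268))],[(k8,(nat_lit 227)),(k0,(nat_lit 236)),(k7,(nat_lit 236)),(k11,(nat_lit 240)),
    (k3,(nat_lit 247)),(k4,(nat_lit 301))]]
    [] k0
    [[k3,k0,k0,k0,k0,k0],[k2,k0,k1,k0,k0,k0],[k2,k0,k0,k1,k0,k0],[k2,k0,k0,k0,k1,k0],[k1,k1,k1,k0,k0,k0],[k1,k1,k0,k1,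
    k0,k0],[k1,k1,k0,k0,k1,k0],[k1,k1,k0,k0,k0,k1],[k1,k0,k2,k0,k0,k0],[k1,k0,k1,k1,k0,k0],[k1,k0,k0,k2,k0,k0],[k1,k0,
    k0,k1,k1,k0],[k1,k0,k0,k1,k0,k1],[k0,k3,k0,k0,k0,k0],[k0,k2,k1,k0,k0,k0],[k0,k1,k2,k0,k0,k0],[k0,k1,k1,k1,k0,k0],
    [k0,k1,k1,k0,k1,k0],[k0,k1,k0,k1,k0,k1],[k0,k0,k3,k0,k0,k0]]
    [.ref k6 k0 [(z1,[z1]),(z7,[y2,z6,z21]),(z7,[y8,z24,z0,z21]),(z7,[z4,y12,z0,z0,z21]),(z7,[y2,y15,y21,y21,y21,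
    z21])],.ref k6 k0 [(z2,[z7,y8,z0,y7]),(z1,[y1,z2,z3,z1]),(z1,[y4,z8,z0,z7]),(z1,[z2,y4,z0,y2,z3]),(z1,[y1,y1,y3,
    y2,y3,z3])],.ref k6 k0 [(z6,[z7,z4,z0,z0,y7]),(z3,[y1,z2,z9,z0,z1]),(z3,[y4,z8,z0,z9,z4]),(z3,[z2,y4,z0,z0,z7]),
    (z3,[y1,y7,y9,y9,y8,z9])],.ref k6 k0 [(z4,[z7,z5,z7,z7,z7,y7]),(z2,[y1,z1,z5,y1,y1,z1]),(z1,[y2,z2,y2,z1,y2,z2]),
    (z1,[z1,y1,z1,z1,z4,y1]),(z2,[y1,y5,y7,y7,y7,z7])],.ref k6 k0 [(z1,[y7,z10,z7,z7]),(z1,[z2,y2,z1,y2]),(z1,[z8,y8,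
    y8,y5]),(z1,[y4,z4,z4,z4,z3]),(z1,[z2,y5,y5,y5,y3,z3])],.ref k6 k0 [(z3,[z7,z2,y7,z0,y7]),(z3,[y2,z2,z11,z0,z2]),
    (z3,[y8,z8,z8,z9,z8]),(z3,[z4,y4,y4,z0,z5]),(z3,[y2,y7,y7,y9,y7,z9])],.ref k6 k0 [(z1,[z7,z3,z0,z7,z7,y7]),(z1,
    [y2,z0,z3,y2,y2,z2]),(z1,[y8,z0,z0,y5,y8,z8]),(z1,[z4,z0,z0,z4,z7,y4]),(z1,[y2,y3,y3,y5,y5,z5])],.ref k6 k0 [(z2,
    [z7,y1,y7]),(z1,[y1,z1,z4]),(z1,[y4,z4,z4,z3]),(z1,[z2,y2,y2,z0,z3]),(z1,[y1,y2,y2,y3,y3,z3])],.ref k6 k0 [(z3,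
    [y7,z16,z0,z14]),(z3,[z2,y2,z9,y4]),(z3,[z8,y8,z0,y7]),(z3,[y4,z4,z0,z8,z9]),(z3,[z2,y11,y9,y13,y9,z9])],
    .ref k6 k0 [(z1,[z7,y4,z0,y7,y7]),(z1,[y2,z2,z3,z2,z2]),(z1,[y8,z8,z0,z11,z8]),(z1,[z4,y4,z0,y4,y1]),(z1,[y2,y1,
    y3,y1,y1,z3])],.ref k6 k0 [(z5,[z7,z8,z0,z0,y14]),(z5,[y2,z2,z15,z0,z4]),(z5,[y8,z8,z0,z15,z16]),(z5,[z4,y4,z0,z0,
    z7]),(z5,[y2,y13,y15,y15,y11,z15])],.ref k6 k0 [(z3,[z7,z9,z7,z7,z0,y7]),(z3,[y2,z0,z7,y2,z0,z2]),(z3,[y8,z0,y8,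
    z1,z0,z8]),(z3,[z4,z0,z4,z4,z9,y4]),(z3,[y2,y9,y11,y11,y9,z11])],.ref k6 k0 [(z4,[z7,z5,z0,z0,y7]),(z2,[y1,z1,z6,
    z0,z1]),(z1,[y2,z2,z0,z3,z2]),(z1,[z1,y1,z0,z0,z2]),(z2,[y1,y5,y6,y6,y5,z6])],.ref k6 k0 [(z2,[y7,z6,z21]),(z1,
    [z1]),(z1,[z4,z0,y12,z3]),(z1,[y2,z0,z6,z0,z3]),(z1,[z1,y3,y6,y3,y3,z3])],.ref k6 k0 [(z4,[y7,z12,z14,z7]),(z2,
    [z1,z0,z4,y1]),(z1,[z2,z0,y4,z1]),(z1,[y1,z0,z2,z1,z3]),(z2,[z1,y6,y8,y7,y6,z6])],.ref k6 k0 [(z6,[y7,z18,z7,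
    z14]),(z3,[z1,z0,z8,y2]),(z3,[z4,z0,y4,z1]),(z3,[y2,z0,z2,z4,z9]),(z3,[z1,y9,y10,y11,y9,z9])],.ref k6 k0 [(z2,[y7,
    z6,z7,z7,z7]),(z1,[z1,z0,z2,y1,y1]),(z1,[z4,z0,y4,y1,y4]),(z1,[y2,z0,z2,z2,z5]),(z1,[z1,y3,y4,y4,y4,z3])],
    .ref k6 k0 [(z4,[y7,z5,z0,z0,y7,z7]),(z2,[z1,z1,z6,z0,z1,y1]),(z1,[z2,z2,z0,z3,z2,y2]),(z1,[y1,y1,z0,z0,z2,z1]),
    (z2,[z1,y5,y6,y6,y5,z5])],.ref k6 k0 [(z1,[z7,z3,y7,z0,y7]),(z1,[y2,z0,z5,z0,z2]),(z1,[y8,z0,z8,z3,z8]),(z1,[z4,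
    z0,y4,z0,y1]),(z1,[y2,y3,y1,y3,y1,z3])],.ref k6 k0 [(z8,[y7,z24,z0,z21]),(z4,[z1,z0,z12,y3]),(z1,[z1]),(z2,[y1,z0,
    z0,z3,z6]),(z4,[z1,y12,y12,y15,y12,z12])]],
    .lp [(nat_lit 224),(nat_lit 230),(nat_lit 250),(nat_lit 240),(nat_lit 246),(nat_lit 244)] [k13,k13,k10,k10,k0,k0,k5,
    k5,k2,k2,k3,k3] k0 [[k0,k0,k0,k20,k0,k0,k0,k2,k0,k0,k16],[k0,k0,k0,k0,k0,k0,k0,k6,k0,k0,k42],[k0,k20,k0,k0,k0,k4],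
    [k0,k0,k0,k0,k0,k26,k0,k0,k16],[k0,k0,k26,k4],[k0,k0,k0,k0,k0,k0,k6,k0,k0,k0,k0,k4],[k6,k2],[k0,k0,k0,k0,k6],[k0,
    k0,k0,k0,k0,k0,k0,k0,k0,k0,k0,k2],[k0,k0,k16],[k0,k0,k0,k0,k4,k0,k0,k0,k0,k2],[k42,k16]] (nat_lit 720) k5
    [[(k3,k185),(k0,(nat_lit 208)),(k7,(nat_lit 232)),(k8,(nat_lit 235)),(k11,(nat_lit 236)),(k4,(nat_lit 241))],[(k2,
    (nat_lit 207)),(k1,(nat_lit 208)),(k6,(nat_lit 230)),(k5,(nat_lit 237)),(k9,(nat_lit 241)),(k10,(nat_lit 276))],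
    [(k1,k185),(k6,(nat_lit 229)),(k2,(nat_lit 230)),(k9,(nat_lit 240)),(k10,(nat_lit 253)),(k5,(nat_lit 260))],[(k0,
    (nat_lit 207)),(k3,(nat_lit 230)),(k4,(nat_lit 236)),(k11,(nat_lit 237)),(k8,(nat_lit 254)),(k7,(nat_lit 261))],
    [(k4,(nat_lit 224)),(k11,(nat_lit 231)),(k0,(nat_lit 237)),(k8,(nat_lit 248)),(k7,(nat_lit 249)),(k3,
    (nat_lit 260))],[(k5,(nat_lit 224)),(k2,(nat_lit 236)),(k1,(nat_lit 241)),(k10,(nat_lit 247)),(k9,(nat_lit 248)),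
    (k6,(nat_lit 251))],[(k1,(nat_lit 232)),(k9,(nat_lit 237)),(k10,(nat_lit 238)),(k6,(nat_lit 240)),(k5,
    (nat_lit 249)),(k2,(nat_lit 261))],[(k3,(nat_lit 229)),(k0,(nat_lit 230)),(k7,(nat_lit 240)),(k11,(nat_lit 242)),
    (k8,(nat_lit 243)),(k4,(nat_lit 251))],[(k7,(nat_lit 237)),(k3,(nat_lit 240)),(k0,(nat_lit 241)),(k11,
    (nat_lit 245)),(k8,(nat_lit 246)),(k4,(nat_lit 248))],[(k1,(nat_lit 235)),(k6,(nat_lit 243)),(k10,(nat_lit 243)),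
    (k9,(nat_lit 246)),(k5,(nat_lit 248)),(k2,(nat_lit 254))],[(k5,(nat_lit 231)),(k1,(nat_lit 236)),(k2,
    (nat_lit 237)),(k6,(nat_lit 242)),(k10,(nat_lit 244)),(k9,(nat_lit 245))],[(k7,(nat_lit 238)),(k8,(nat_lit 243)),
    (k11,(nat_lit 244)),(k4,(nat_lit 247)),(k3,(nat_lit 253)),(k0,(nat_lit 276))]]
    [] k0
    [[k3,k0,k0,k0,k0,k0],[k2,k1,k0,k0,k0,k0],[k2,k0,k1,k0,k0,k0],[k2,k0,k0,k1,k0,k0],[k2,k0,k0,k0,k1,k0],[k1,k2,k0,k0,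
    k0,k0],[k1,k1,k1,k0,k0,k0],[k1,k1,k0,k1,k0,k0],[k1,k1,k0,k0,k1,k0],[k1,k1,k0,k0,k0,k1],[k1,k0,k2,k0,k0,k0],[k1,k0,
    k0,k2,k0,k0],[k1,k0,k0,k1,k1,k0],[k1,k0,k0,k1,k0,k1],[k0,k3,k0,k0,k0,k0],[k0,k1,k1,k1,k0,k0],[k0,k1,k0,k1,k0,k1],
    [k0,k0,k3,k0,k0,k0],[k0,k0,k2,k0,k0,k1]]
    [.ref k6 k0 [(z1,[z1]),(z5,[z2,y6,z15]),(z5,[y1,z3,z0,z15]),(z5,[y4,z12,z0,z0,z15]),(z2,[y1,y3,y6,y6,y6,z6])],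
    .ref k6 k0 [(z4,[z5,z2,y5]),(z2,[z1,y2,z5]),(z4,[y1,z2,z1,z12]),(z1,[y1,z2,z1,z0,z3]),(z8,[y5,y14,y19,y24,y24,
    z24])],.ref k6 k0 [(z3,[z5,y1,z0,y5]),(z3,[z2,y4,z9,y2]),(z3,[y1,z2,z0,z10]),(z3,[y4,z8,z0,z4,z9]),(z6,[y5,y8,y18,
    y13,y18,z18])],.ref k6 k0 [(z2,[z5,y4,z0,z0,y5]),(z1,[z1,y2,z3,z0,y1]),(z2,[y1,z2,z0,z6,z1]),(z1,[y2,z4,z0,z0,
    z5]),(z4,[y5,y2,y12,y12,y7,z12])],.ref k6 k0 [(z1,[z2,z1,z2,z2,z2,y2]),(z5,[z4,y4,z19,z4,z4,y4]),(z5,[y2,z2,y2,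
    z13,y2,z2]),(z5,[y8,z8,y8,y8,z7,z8]),(z1,[y1,y2,y4,y4,y4,z4])],.ref k6 k0 [(z3,[z5,z4,y10]),(z3,[z2,y2,z5]),(z3,
    [y1,z1,z2,z9]),(z3,[y4,z4,z8,z0,z9]),(z6,[y5,y13,y8,y18,y18,z18])],.ref k6 k0 [(z2,[z5,z1,y5,y5]),(z1,[z1,y1,z2,
    y1]),(z2,[y1,z1,z1,z7]),(z1,[y2,z2,z2,z2,z3]),(z4,[y5,y7,y7,y7,y12,z12])],.ref k6 k0 [(z1,[z5,y2,y5,z0,y5]),(z1,
    [z2,y2,z1,z0,y2]),(z1,[y1,z1,z1,z3,z1]),(z1,[y4,z4,z4,z0,z7]),(z2,[y5,y1,y1,y6,y1,z6])],.ref k6 k0 [(z3,[z10,z9,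
    z0,z10,z10,y10]),(z3,[z4,z0,z9,z4,z4,y4]),(z3,[y2,z0,z0,z7,y2,z2]),(z3,[y8,z0,z0,y8,z1,z8]),(z3,[y5,y9,y9,y14,y14,
    z14])],.ref k6 k0 [(z1,[z2,z1,y2]),(z5,[z4,y4,z11]),(z5,[y2,z2,z2,z15]),(z5,[y8,z8,z8,z0,z15]),(z1,[y1,y2,y2,y3,
    y3,z3])],.ref k6 k0 [(z1,[z5,y2,z0,y10]),(z1,[z2,y2,z3,y4]),(z1,[y1,z1,z0,z5]),(z1,[y4,z4,z0,z8,z3]),(z2,[y5,y1,
    y6,z4,y6,z6])],.ref k6 k0 [(z1,[y5,z8,z0,z0,z10]),(z1,[y2,z2,z3,z0,z4]),(z1,[z1,y1,z0,z3,y2]),(z1,[z4,y4,z0,z0,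
    y5]),(z2,[z5,y11,y6,y6,y16,z6])],.ref k6 k0 [(z1,[y10,z3,y10,y10,z0,z10]),(z1,[y4,z0,y1,y4,z0,z4]),(z1,[z2,z0,z2,
    z5,z0,y2]),(z1,[z8,z0,z8,z8,z3,y8]),(z1,[z5,y3,z2,z2,y3,y2])],.ref k6 k0 [(z1,[z10,y7,z0,z0,y10]),(z1,[z4,y4,z3,
    z0,y4]),(z1,[y2,z2,z0,z3,z2]),(z1,[y8,z8,z0,z0,z11]),(z1,[y5,z2,y3,y3,z2,z3])],.ref k6 k0 [(z2,[z5,z6,y15]),(z1,
    [z1]),(z2,[y1,z0,z3,z6]),(z1,[y2,z0,z6,z0,z3]),(z4,[y5,y12,z3,y12,y12,z12])],.ref k6 k0 [(z1,[y5,z3,z5,z5,z5]),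
    (z1,[y2,z0,z5,z2,z2]),(z1,[z1,z0,y1,z2,y1]),(z1,[z4,z0,y4,y4,y1]),(z2,[z5,y6,y11,y11,y11,z6])],.ref k6 k0 [(z1,
    [y10,z3,z10,z0,z10]),(z1,[y4,z0,z7,z0,z4]),(z1,[z2,z0,y2,z3,y2]),(z1,[z8,z0,y8,z0,y5]),(z1,[z5,y3,y8,y3,y8,z3])],
    .ref k6 k0 [(z1,[y5,z3,z0,z15]),(z1,[y2,z0,z3,z6]),(z1,[z1]),(z1,[z4,z0,z0,y12,z3]),(z2,[z5,y6,y6,y21,y6,z6])],
    .ref k6 k0 [(z1,[y10,z3,z0,z20]),(z1,[y4,z0,z3,z8]),(z1,[z2,z0,z0,y1]),(z1,[z8,z0,z0,y16,z3]),(z1,[z5,y3,y3,y13,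
    y3,z3])]],
    .leafM k6 [k0,k1,k2,k3,k4,k5] [(z6,[y2,y3,y1,z0,z6])] [],
    .lp [(nat_lit 216),(nat_lit 234),(nat_lit 238),(nat_lit 240),(nat_lit 246),(nat_lit 260)] [k26,k18,k13,k13,k11,k11,
    k10,k10,k7,k7,k0,k0] k0 [[k0,k0,k0,k0,k0,k0,k2,k14],[k0,k0,k56,k0,k0,k0,k0,k0,k0,k0,k2],[k0,k0,k0,k0,k0,k14,k0,k0,
    k8,k2],[k56,k0,k0,k0,k0,k10],[k0,k0,k10,k14],[k0,k0,k0,k0,k0,k0,k0,k0,k0,k0,k52,k14],[k0,k14],[k0,k2],[k0,k0,k0,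
    k2,k0,k0,k0,k0,k0,k0,k0,k26],[k0,k0,k0,k8,k0,k0,k0,k0,k0,k0,k0,k20],[k0,k0,k0,k0,k14,k0,k0,k0,k20,k26],[k2,k0,k0,
    k0,k52]] (nat_lit 720) k5
    [[(k7,k180),(k0,(nat_lit 216)),(k3,(nat_lit 227)),(k4,(nat_lit 245)),(k8,(nat_lit 255)),(k11,(nat_lit 268))],[(k6,
    (nat_lit 210)),(k1,(nat_lit 216)),(k5,(nat_lit 223)),(k9,(nat_lit 225)),(k10,(nat_lit 236)),(k2,(nat_lit 277))],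
    [(k5,k180),(k1,(nat_lit 227)),(k2,(nat_lit 234)),(k6,(nat_lit 239)),(k10,(nat_lit 247)),(k9,(nat_lit 254))],[(k4,
    (nat_lit 222)),(k3,(nat_lit 234)),(k8,(nat_lit 238)),(k11,(nat_lit 239)),(k7,(nat_lit 247)),(k0,(nat_lit 277))],
    [(k3,k180),(k0,(nat_lit 223)),(k4,(nat_lit 228)),(k8,(nat_lit 250)),(k11,(nat_lit 251)),(k7,(nat_lit 253))],[(k2,
    (nat_lit 222)),(k5,(nat_lit 228)),(k6,(nat_lit 239)),(k9,(nat_lit 242)),(k1,(nat_lit 245)),(k10,(nat_lit 301))],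
    [(k1,k180),(k10,(nat_lit 236)),(k6,(nat_lit 240)),(k9,(nat_lit 243)),(k2,(nat_lit 247)),(k5,(nat_lit 253))],[(k0,
    (nat_lit 210)),(k3,(nat_lit 239)),(k4,(nat_lit 239)),(k7,(nat_lit 240)),(k8,(nat_lit 243)),(k11,(nat_lit 250))],
    [(k0,(nat_lit 225)),(k4,(nat_lit 242)),(k7,(nat_lit 243)),(k8,(nat_lit 246)),(k11,(nat_lit 253)),(k3,
    (nat_lit 254))],[(k10,(nat_lit 227)),(k2,(nat_lit 238)),(k6,(nat_lit 243)),(k9,(nat_lit 246)),(k5,(nat_lit 250)),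
    (k1,(nat_lit 255))],[(k2,(nat_lit 239)),(k10,(nat_lit 240)),(k6,(nat_lit 250)),(k5,(nat_lit 251)),(k9,
    (nat_lit 253)),(k1,(nat_lit 268))],[(k8,(nat_lit 227)),(k0,(nat_lit 236)),(k7,(nat_lit 236)),(k11,(nat_lit 240)),
    (k3,(nat_lit 247)),(k4,(nat_lit 301))]]
    [] k0
    [[k3,k0,k0,k0,k0,k0],[k2,k0,k1,k0,k0,k0],[k2,k0,k0,k1,k0,k0],[k2,k0,k0,k0,k1,k0],[k1,k1,k1,k0,k0,k0],[k1,k1,k0,k1,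
    k0,k0],[k1,k1,k0,k0,k1,k0],[k1,k1,k0,k0,k0,k1],[k1,k0,k2,k0,k0,k0],[k1,k0,k1,k1,k0,k0],[k1,k0,k0,k2,k0,k0],[k1,k0,
    k0,k1,k1,k0],[k1,k0,k0,k1,k0,k1],[k0,k3,k0,k0,k0,k0],[k0,k2,k1,k0,k0,k0],[k0,k1,k2,k0,k0,k0],[k0,k1,k1,k1,k0,k0],
    [k0,k1,k1,k0,k1,k0],[k0,k1,k0,k1,k0,k1],[k0,k0,k3,k0,k0,k0]]
    [.ref k6 k0 [(z1,[z1]),(z2,[y1,z3,z6]),(z4,[y5,z15,z0,z12]),(z8,[z5,y15,z0,z0,z12]),(z8,[y1,y21,y24,y24,y12,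
    z24])],.ref k6 k0 [(z1,[z4,y5,z0,y4]),(z1,[y2,z4,z3,z2]),(z1,[y5,z10,z0,z8]),(z2,[z5,y10,z0,y5,z3]),(z2,[y1,y4,y6,
    y5,y3,z6])],.ref k6 k0 [(z7,[z8,z5,z0,z0,y4]),(z7,[y4,z8,z21,z0,z2]),(z7,[y10,z20,z0,z21,z5]),(z7,[z5,y10,z0,z0,
    z8]),(z7,[y1,y19,y21,y21,y10,z21])],.ref k6 k0 [(z5,[z8,z7,z8,z8,z4,y8]),(z5,[y4,z4,z11,y4,y2,z4]),(z1,[y2,z2,y2,
    z1,y1,z2]),(z1,[z1,y1,z1,z1,z2,y1]),(z5,[y1,y14,y16,y16,y8,z16])],.ref k6 k0 [(z1,[y4,z7,z4,z4]),(z1,[z2,y2,z1,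
    y2]),(z1,[z5,y5,y5,y2]),(z2,[y5,z5,z5,z5,z3]),(z2,[z1,y7,y7,y7,y3,z6])],.ref k6 k0 [(z3,[z8,z1,y8,z0,y4]),(z3,[y4,
    z4,z13,z0,z2]),(z3,[y10,z10,z10,z9,z5]),(z3,[z5,y5,y5,z0,z2]),(z3,[y1,y8,y8,y9,y4,z9])],.ref k6 k0 [(z1,[z8,z3,z0,
    z8,z4,y8]),(z1,[y4,z0,z3,y4,y2,z4]),(z1,[y10,z0,z0,y7,y5,z10]),(z1,[z5,z0,z0,z5,z4,y5]),(z1,[y1,y3,y3,y4,y2,z4])],
    .ref k6 k0 [(z1,[z4,y1,y4]),(z1,[y2,z2,z5]),(z1,[y5,z5,z5,z3]),(z2,[z5,y5,y5,z0,z3]),(z2,[y1,y5,y5,y6,y3,z6])],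
    .ref k6 k0 [(z1,[y2,z5,z0,z4]),(z1,[z1,y1,z3,y2]),(z2,[z5,y5,z0,y4]),(z4,[y5,z5,z0,z10,z6]),(z4,[z1,y13,y12,y14,
    y6,z12])],.ref k6 k0 [(z1,[z8,y5,z0,y8,y4]),(z1,[y4,z4,z3,z4,z2]),(z1,[y10,z10,z0,z13,z5]),(z1,[z5,y5,z0,y5,y1]),
    (z1,[y1,y2,y3,y2,y1,z3])],.ref k6 k0 [(z3,[z4,z5,z0,z0,y4]),(z3,[y2,z2,z9,z0,z2]),(z3,[y5,z5,z0,z9,z5]),(z6,[z5,
    y5,z0,z0,z4]),(z6,[y1,y17,y18,y18,y8,z18])],.ref k6 k0 [(z1,[z2,z3,z2,z2,z0,y2]),(z1,[y1,z0,z2,y1,z0,z1]),(z2,[y5,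
    z0,y5,z1,z0,z5]),(z4,[z5,z0,z5,z5,z6,y5]),(z4,[y1,y12,y13,y13,y6,z13])],.ref k6 k0 [(z5,[z8,z7,z0,z0,y4]),(z5,[y4,
    z4,z15,z0,z2]),(z1,[y2,z2,z0,z3,z1]),(z1,[z1,y1,z0,z0,z1]),(z5,[y1,y14,y15,y15,y7,z15])],.ref k6 k0 [(z1,[y2,z3,
    z6]),(z1,[z1]),(z2,[z5,z0,y15,z6]),(z4,[y5,z0,z15,z0,z6]),(z4,[z1,y12,y15,y12,y6,z12])],.ref k6 k0 [(z3,[y4,z9,z8,
    z4]),(z3,[z2,z0,z5,y2]),(z3,[z5,z0,y10,z4]),(z6,[y5,z0,z10,z5,z9]),(z6,[z1,y18,y20,y19,y9,z18])],.ref k6 k0 [(z1,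
    [y1,z3,z1,z2]),(z2,[z1,z0,z5,y2]),(z4,[z5,z0,y5,z2]),(z8,[y5,z0,z5,z10,z12]),(z8,[z1,y24,y25,y26,y12,z24])],
    .ref k6 k0 [(z3,[y8,z9,z8,z8,z4]),(z3,[z4,z0,z5,y4,y2]),(z3,[z10,z0,y10,y1,y5]),(z3,[y5,z0,z5,z5,z7]),(z3,[z1,y9,
    y10,y10,y5,z9])],.ref k6 k0 [(z5,[y8,z7,z0,z0,y4,z8]),(z5,[z4,z4,z15,z0,z2,y4]),(z1,[z2,z2,z0,z3,z1,y2]),(z1,[y1,
    y1,z0,z0,z1,z1]),(z5,[z1,y14,y15,y15,y7,z14])],.ref k6 k0 [(z1,[z8,z3,y8,z0,y4]),(z1,[y4,z0,z7,z0,z2]),(z1,[y10,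
    z0,z10,z3,z5]),(z1,[z5,z0,y5,z0,y1]),(z1,[y1,y3,y2,y3,y1,z3])],.ref k6 k0 [(z5,[y4,z15,z0,z12]),(z5,[z2,z0,z15,
    y6]),(z1,[z1]),(z2,[y1,z0,z0,z3,z3]),(z10,[z1,y30,y30,y33,y15,z30])]],
    .lp [(nat_lit 216),(nat_lit 234),(nat_lit 238),(nat_lit 240),(nat_lit 246),(nat_lit 260)] [k26,k18,k13,k13,k11,k11,
    k10,k10,k7,k7,k0,k0] k0 [[k0,k0,k0,k0,k0,k0,k2,k14],[k0,k0,k56,k0,k0,k0,k0,k0,k0,k0,k2],[k0,k0,k0,k0,k0,k14,k0,k0,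
    k8,k2],[k56,k0,k0,k0,k0,k10],[k0,k0,k10,k14],[k0,k0,k0,k0,k0,k0,k0,k0,k0,k0,k52,k14],[k0,k14],[k0,k2],[k0,k0,k0,
    k2,k0,k0,k0,k0,k0,k0,k0,k26],[k0,k0,k0,k8,k0,k0,k0,k0,k0,k0,k0,k20],[k0,k0,k0,k0,k14,k0,k0,k0,k20,k26],[k2,k0,k0,
    k0,k52]] (nat_lit 720) k5
    [[(k7,k180),(k0,(nat_lit 216)),(k3,(nat_lit 227)),(k4,(nat_lit 245)),(k8,(nat_lit 255)),(k11,(nat_lit 268))],[(k6,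
    (nat_lit 210)),(k1,(nat_lit 216)),(k5,(nat_lit 223)),(k9,(nat_lit 225)),(k10,(nat_lit 236)),(k2,(nat_lit 277))],
    [(k5,k180),(k1,(nat_lit 227)),(k2,(nat_lit 234)),(k6,(nat_lit 239)),(k10,(nat_lit 247)),(k9,(nat_lit 254))],[(k4,
    (nat_lit 222)),(k3,(nat_lit 234)),(k8,(nat_lit 238)),(k11,(nat_lit 239)),(k7,(nat_lit 247)),(k0,(nat_lit 277))],
    [(k3,k180),(k0,(nat_lit 223)),(k4,(nat_lit 228)),(k8,(nat_lit 250)),(k11,(nat_lit 251)),(k7,(nat_lit 253))],[(k2,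
    (nat_lit 222)),(k5,(nat_lit 228)),(k6,(nat_lit 239)),(k9,(nat_lit 242)),(k1,(nat_lit 245)),(k10,(nat_lit 301))],
    [(k1,k180),(k10,(nat_lit 236)),(k6,(nat_lit 240)),(k9,(nat_lit 243)),(k2,(nat_lit 247)),(k5,(nat_lit 253))],[(k0,
    (nat_lit 210)),(k3,(nat_lit 239)),(k4,(nat_lit 239)),(k7,(nat_lit 240)),(k8,(nat_lit 243)),(k11,(nat_lit 250))],
    [(k0,(nat_lit 225)),(k4,(nat_lit 242)),(k7,(nat_lit 243)),(k8,(nat_lit 246)),(k11,(nat_lit 253)),(k3,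
    (nat_lit 254))],[(k10,(nat_lit 227)),(k2,(nat_lit 238)),(k6,(nat_lit 243)),(k9,(nat_lit 246)),(k5,(nat_lit 250)),
    (k1,(nat_lit 255))],[(k2,(nat_lit 239)),(k10,(nat_lit 240)),(k6,(nat_lit 250)),(k5,(nat_lit 251)),(k9,
    (nat_lit 253)),(k1,(nat_lit 268))],[(k8,(nat_lit 227)),(k0,(nat_lit 236)),(k7,(nat_lit 236)),(k11,(nat_lit 240)),
    (k3,(nat_lit 247)),(k4,(nat_lit 301))]]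
    [] k0
    [[k3,k0,k0,k0,k0,k0],[k2,k0,k1,k0,k0,k0],[k2,k0,k0,k1,k0,k0],[k2,k0,k0,k0,k1,k0],[k1,k1,k1,k0,k0,k0],[k1,k1,k0,k1,
    k0,k0],[k1,k1,k0,k0,k1,k0],[k1,k1,k0,k0,k0,k1],[k1,k0,k2,k0,k0,k0],[k1,k0,k1,k1,k0,k0],[k1,k0,k0,k2,k0,k0],[k1,k0,
    k0,k1,k1,k0],[k1,k0,k0,k1,k0,k1],[k0,k3,k0,k0,k0,k0],[k0,k2,k1,k0,k0,k0],[k0,k1,k2,k0,k0,k0],[k0,k1,k1,k1,k0,k0],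
    [k0,k1,k1,k0,k1,k0],[k0,k1,k0,k1,k0,k1],[k0,k0,k3,k0,k0,k0]]
    [.ref k6 k0 [(z1,[z1]),(z1,[y2,z2,z1]),(z1,[y1,z1,z0,z3]),(z2,[z3,y3,z0,z0,z2]),(z2,[z1,y1])],.ref k6 k0 [(z1,[z3,
    y1,z0,y3]),(z1,[y6,z4,z1,z6]),(z1,[y3,z2,z0,z6]),(z2,[z9,y6,z0,y9,z2]),(z2,[z3,y2,z0,y3])],.ref k6 k0 [(z7,[z6,z3,
    z0,z0,y2]),(z7,[y12,z8,z7,z0,z4]),(z7,[y6,z4,z0,z21,z2]),(z7,[z9,y6,z0,z0,z4]),(z7,[z3,y2,z0,z0,y1])],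
    .ref k6 k0 [(z5,[z6,z1]),(z5,[y12,z8,z5]),(z5,[y6,z4,z0,z15]),(z5,[z9,y6,z0,z0,z5]),(z5,[z3,y2])],.ref k6 k0 [(z2,
    [y3,z3,z1,z3]),(z1,[z3,y1,z0,y3]),(z2,[z3,y1,y1,z3]),(z4,[y9,z3,z3,z9,z4]),(z4,[y3,z1,z1,z3])],.ref k6 k0 [(z1,
    [z6,y1,y2,z0,y2]),(z1,[y12,z4,z5,z0,z4]),(z1,[y6,z2,z2,z3,z2]),(z1,[z9,y3,y3,z0,y2]),(z1,[z3,y1,y1,z0,y1])],
    .ref k6 k0 [(z1,[y6,z3,z2]),(z1,[z12,y4,y3]),(z1,[z6,y2,y2,z3]),(z1,[y9,z3,z3,z0,z1]),(z1,[y3,z1,z1])],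
    .ref k6 k0 [(z1,[y3,z1,z0,y3,y1,z3]),(z1,[z6,z0,z1,z6,z2,y6]),(z1,[z3,z0,z0,z6,z1,y3]),(z2,[y9,z0,z0,y9,y1,z9]),
    (z2,[y3,z0,z0,y3,y1,z3])],.ref k6 k0 [(z1,[y3,z2,z0,z6]),(z1,[z6,y2,z1,y12]),(z1,[z3,y1,z0,y3]),(z2,[y9,z3,z0,z18,
    z2]),(z2,[y3,z1,z0,z6])],.ref k6 k0 [(z3,[z6,z1,z0,y6,y2]),(z3,[y12,z4,z3,z12,z4]),(z3,[y6,z2,z0,z15,z2]),(z1,[z3,
    y1,z0,y3]),(z3,[z3,y1,z0,y3,y1])],.ref k6 k0 [(z4,[z3,z3,z0,z0,y2]),(z2,[y3,z1,z2,z0,z2]),(z4,[y3,z1,z0,z12,z2]),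
    (z8,[z9,y3,z0,z0,z2]),(z8,[z3,y1,z0,z0,y2])],.ref k6 k0 [(z3,[z3,z2,z0,z0,y1]),(z3,[y6,z2,z3,z0,z2]),(z3,[y3,z1,
    z0,z9,z1]),(z2,[z3,y1,z0,z0,z1]),(z6,[z3,y1,z0,z0,y1])],.ref k6 k0 [(z5,[z6,z5,z2,z6,z0,y6]),(z5,[y12,z0,z1,y12,
    z0,z12]),(z5,[y6,z0,y2,z9,z0,z6]),(z5,[z9,z0,z3,z9,z5,y9]),(z5,[z3,z0,z1,z3,z0,y3])],.ref k6 k0 [(z2,[y1,z2,z1]),
    (z1,[z1]),(z2,[z1,z0,y1,z6]),(z4,[y3,z0,z3,z0,z4]),(z4,[y1,z0,z1])],.ref k6 k0 [(z5,[y3,z5,z2,z3]),(z5,[z6,z0,z1,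
    y6]),(z5,[z3,z0,y2,z12]),(z10,[y9,z0,z6,z9,z10]),(z10,[y3,z0,z2,z3])],.ref k6 k0 [(z4,[y3,z4,z1,z6]),(z2,[z3,z0,
    z1,y6]),(z4,[z3,z0,y1,z6]),(z8,[y9,z0,z3,z18,z8]),(z8,[y3,z0,z1,z6])],.ref k6 k0 [(z3,[y6,z3,z2,z6,z2]),(z3,[z12,
    z0,y1,y12,y4]),(z3,[z6,z0,y2,z3,y2]),(z1,[y3,z0,z1,z3,z2]),(z3,[y3,z0,z1,z3,z1])],.ref k6 k0 [(z5,[y6,z5,z2,z6]),
    (z5,[z12,z0,z1,y12]),(z5,[z6,z0,y2,z9]),(z5,[y9,z0,z3,z9,z5]),(z5,[y3,z0,z1,z3])],.ref k6 k0 [(z1,[y6,y1,z0,y6,z0,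
    z6]),(z1,[z12,z4,z1,z12,z0,y12]),(z1,[z6,z2,z0,z9,z0,y6]),(z1,[y9,y3,z0,y9,z1,z9]),(z1,[y3,y1,z0,y3,z0,z3])],
    .ref k6 k0 [(z1,[y1,z1,z0,z3]),(z1,[z2,z0,z1,y6]),(z1,[z1]),(z2,[y3,z0,z0,z9,z2]),(z2,[y1,z0,z0,z3])]],
    .lp [(nat_lit 652),(nat_lit 580),(nat_lit 648),(nat_lit 682),(nat_lit 640),(nat_lit 634)] [k15,k15,k51,k51,k17,k17,k0,
    k0,k21,k21,k24,k24] k0 [[k0,k0,k0,k0,k0,k0,k6,k18,k0,k0,k0,k24],[k0,k0,k0,k16,k0,k0,k0,k0,k0,k0,k0,k36],[k16,k0,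
    k0,k0,k0,k0,k0,k0,k0,k22],[k0,k0,k0,k0,k44],[k0,k0,k0,k0,k0,k0,k0,k34],[k0,k0,k44],[k0,k18,k0,k0,k0,k34],[k0,k6],
    [k0,k0,k0,k22],[k0,k0,k0,k0,k0,k0,k0,k0,k0,k0,k30,k18],[k36,k24,k0,k0,k0,k0,k0,k0,k18],[k0,k0,k0,k0,k0,k0,k0,k0,
    k30]] (nat_lit 1920) k5
    [[(k11,(nat_lit 613)),(k3,(nat_lit 640)),(k4,(nat_lit 650)),(k8,(nat_lit 664)),(k7,(nat_lit 667)),(k0,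
    (nat_lit 688))],[(k2,(nat_lit 616)),(k10,(nat_lit 619)),(k9,(nat_lit 640)),(k6,(nat_lit 649)),(k5,(nat_lit 666)),
    (k1,(nat_lit 688))],[(k2,(nat_lit 564)),(k10,(nat_lit 571)),(k5,(nat_lit 614)),(k9,(nat_lit 628)),(k6,
    (nat_lit 637)),(k1,(nat_lit 640))],[(k3,(nat_lit 564)),(k8,(nat_lit 588)),(k11,(nat_lit 607)),(k0,(nat_lit 616)),
    (k7,(nat_lit 631)),(k4,(nat_lit 658))],[(k3,(nat_lit 614)),(k7,(nat_lit 621)),(k8,(nat_lit 644)),(k4,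
    (nat_lit 648)),(k11,(nat_lit 663)),(k0,(nat_lit 666))],[(k6,(nat_lit 631)),(k10,(nat_lit 641)),(k9,(nat_lit 644)),
    (k5,(nat_lit 648)),(k1,(nat_lit 650)),(k2,(nat_lit 658))],[(k5,(nat_lit 621)),(k2,(nat_lit 631)),(k10,
    (nat_lit 658)),(k1,(nat_lit 667)),(k6,(nat_lit 682)),(k9,(nat_lit 695))],[(k4,(nat_lit 631)),(k3,(nat_lit 637)),
    (k0,(nat_lit 649)),(k11,(nat_lit 658)),(k8,(nat_lit 661)),(k7,(nat_lit 682))],[(k3,(nat_lit 628)),(k11,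
    (nat_lit 637)),(k0,(nat_lit 640)),(k8,(nat_lit 640)),(k4,(nat_lit 644)),(k7,(nat_lit 695))],[(k2,(nat_lit 588)),
    (k9,(nat_lit 640)),(k5,(nat_lit 644)),(k6,(nat_lit 661)),(k1,(nat_lit 664)),(k10,(nat_lit 667))],[(k2,
    (nat_lit 607)),(k1,(nat_lit 613)),(k10,(nat_lit 616)),(k9,(nat_lit 637)),(k6,(nat_lit 658)),(k5,(nat_lit 663))],
    [(k3,(nat_lit 571)),(k11,(nat_lit 616)),(k0,(nat_lit 619)),(k4,(nat_lit 641)),(k7,(nat_lit 658)),(k8,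
    (nat_lit 667))]]
    [] k0
    [[k1,k2,k0,k0,k0,k0],[k1,k1,k0,k0,k1,k0],[k1,k1,k0,k0,k0,k1],[k1,k1,k1,k0,k0,k0],[k1,k0,k0,k0,k0,k2],[k0,k3,k0,k0,
    k0,k0],[k0,k2,k1,k0,k0,k0],[k0,k2,k0,k1,k0,k0],[k0,k2,k0,k0,k1,k0],[k0,k2,k0,k0,k0,k1],[k0,k1,k1,k1,k0,k0],[k0,k1,
    k1,k0,k1,k0],[k0,k1,k1,k0,k0,k1],[k0,k1,k0,k1,k0,k1],[k0,k1,k0,k0,k2,k0],[k0,k1,k0,k0,k1,k1],[k0,k1,k0,k0,k0,k2],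
    [k0,k0,k2,k1,k0,k0],[k0,k0,k0,k0,k0,k3]]
    [.ref k121 k7 [(z1,[z1,y1,y2]),(z1,[y1,z4,z2]),(z1,[z2,y2,y1]),(z1,[z0,z0,z0,z1])],.ref k16 k8 [(z1,[z2,y1,y1,z1,
    y1]),(z1,[z3,y2,y2,z1,y1]),(z1,[z1,z1,z0,z1,y1]),(z1,[y2,z0,z1,y2,z2])],.ref k16 k8 [(z1,[z1,z0,z0,z1,y1]),(z2,
    [z3,y1,y1,z2,y2]),(z2,[z1,z3,z1,z2,y2]),(z1,[y1,y1,z0,y2,z2])],.ref k122 k7 [(z1,[z1,y1,y1,y1]),(z1,[y1,z2,z1,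
    z1]),(z1,[z2,y2,y1,y2]),(z1,[z0,z0,z0,z1])],.ref k123 k9 [(z1,[y2,z1,y1,y1,z1]),(z1,[z0,z0,z0,z1]),(z1,[z2,y2,
    z1]),(z1,[y1,z2])],.ref k121 k7 [(z2,[z1,z0,y3]),(z2,[y1,z6,z3]),(z1,[z1]),(z1,[z0,z0,z0,z1])],.ref k116 k7 [(z2,
    [z1,z0,y2,y1]),(z2,[y1,z4,z2,z1]),(z2,[z1,z0,z0,y1]),(z1,[z0,z0,z0,z1])],.ref k116 k7 [(z1,[z1,z1,y1,z1,y1]),(z1,
    [y1,z1,z1,y1,z1]),(z1,[z1,z1,z0,z1,y1]),(z1,[z0,z0,z0,z1])],.ref k78 k11 [(z1,[z2,y7,y4]),(z1,[z1,y4,y2]),(z1,[y1,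
    z1,z1,y1,z1]),(z1,[y2,z8,z4,z1])],.ref k124 k4 [(z1,[z4,z10,z2,z11,y10]),(z1,[z2,z4,z1,z4,y4]),(z1,[y1,y1,z0,y2,
    z2]),(z1,[y3,y8,y2,y8,z8])],.ref k125 k8 [(z1,[y1,y1,z0,z0,z1]),(z1,[y1,y2,y1,y1,z2]),(z1,[y1,z8,z3,z3,y2]),(z1,
    [z1,y2,z0,y3,z2])],.ref k116 k7 [(z1,[z1,z0,y1,y1]),(z1,[y1,z2,z1,z1]),(z1,[z1,z0,z0,y1]),(z1,[z0,z0,z0,z1])],
    .ref k121 k7 [(z1,[z1,z0,y1,y1]),(z1,[y1,z3,z1,z1]),(z1,[z2,z0,z1,y2]),(z1,[z0,z0,z0,z1])],.ref k16 k8 [(z1,[z2,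
    z3,z1,z3,y3]),(z1,[z3,z4,z1,z4,y4]),(z1,[z1,z3,z1,z2,y2]),(z1,[y2,y4,y1,y4,z4])],.ref k16 k8 [(z1,[z1,z1,z0,z1,
    y1]),(z2,[z3,z2,y1,z2,y2]),(z2,[z1,z4,z1,z2,y2]),(z1,[y1,y2,z0,y2,z2])],.ref k16 k8 [(z3,[z2,z3,z1,z3,y3]),(z1,
    [z1,z1,z0,z1,y1]),(z3,[z1,z6,z2,z3,y3]),(z3,[y2,y6,y1,y6,z6])],.ref k16 k8 [(z2,[z1,z2,z1,z2,y2]),(z4,[z3,z4,z1,
    z4,y4]),(z4,[z1,z8,z3,z4,y4]),(z2,[y1,y4,y1,y4,z4])],.ref k126 k9 [(z1,[z1,z0,z0,y2]),(z1,[z0,z0,z0,z1]),(z1,[y1,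
    y1,z0,z1,z1]),(z1,[z1,z3,z1,y1,y1])],.ref k127 k0 [(z1,[y1,z3]),(z1,[z2,z0,z3]),(z1,[z0,z0,z0,z1]),(z1,[y2,y3,y3,
    y3,z3])]],
    .tor k2 false k1 [(z3,[z0,y1,y1,z0,z3]),(z3,[z1,z1,z0,z3]),(z3,[y1,y1,z0,y3,z3]),(z3,[z0,z1,z1])],
    .lp [(nat_lit 592),(nat_lit 634),(nat_lit 612),(nat_lit 664),(nat_lit 660),(nat_lit 674)] [k41,k41,k20,k20,k31,k31,k5,
    k5,k7,k7,k0,k0] k0 [[k0,k0,k122],[k0,k0,k0,k0,k0,k0,k0,k70,k0,k0,k36],[k0,k0,k0,k0,k64],[k0,k122],[k0,k0,k0,k0,k0,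
    k0,k0,k32,k0,k0,k18],[k0,k0,k0,k64],[k70,k0,k0,k0,k0,k32],[k0,k0,k0,k0,k0,k0,k0,k0,k26,k12],[k0,k0,k0,k0,k0,k0,
    k12,k0,k0,k0,k0,k26],[k0,k0,k0,k0,k0,k0,k26,k0,k0,k0,k0,k34],[k0,k0,k0,k0,k0,k0,k0,k0,k34,k26],[k36,k0,k0,k0,k0,
    k18]] (nat_lit 1920) k5
    [[(k3,(nat_lit 577)),(k4,(nat_lit 584)),(k0,(nat_lit 592)),(k7,(nat_lit 628)),(k11,(nat_lit 659)),(k8,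
    (nat_lit 660))],[(k5,(nat_lit 480)),(k1,(nat_lit 592)),(k2,(nat_lit 613)),(k6,(nat_lit 628)),(k10,(nat_lit 669)),
    (k9,(nat_lit 696))],[(k1,(nat_lit 577)),(k6,(nat_lit 579)),(k5,(nat_lit 623)),(k9,(nat_lit 647)),(k10,
    (nat_lit 654)),(k2,(nat_lit 756))],[(k7,(nat_lit 585)),(k0,(nat_lit 613)),(k4,(nat_lit 623)),(k8,(nat_lit 647)),
    (k11,(nat_lit 654)),(k3,(nat_lit 756))],[(k0,(nat_lit 480)),(k3,(nat_lit 623)),(k8,(nat_lit 636)),(k7,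
    (nat_lit 638)),(k11,(nat_lit 643)),(k4,(nat_lit 676))],[(k1,(nat_lit 584)),(k6,(nat_lit 606)),(k2,(nat_lit 623)),
    (k9,(nat_lit 636)),(k10,(nat_lit 643)),(k5,(nat_lit 676))],[(k2,(nat_lit 585)),(k1,(nat_lit 628)),(k5,
    (nat_lit 638)),(k6,(nat_lit 664)),(k10,(nat_lit 687)),(k9,(nat_lit 694))],[(k3,(nat_lit 579)),(k4,(nat_lit 606)),
    (k0,(nat_lit 628)),(k7,(nat_lit 664)),(k11,(nat_lit 681)),(k8,(nat_lit 688))],[(k4,(nat_lit 636)),(k11,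
    (nat_lit 641)),(k3,(nat_lit 647)),(k8,(nat_lit 648)),(k7,(nat_lit 694)),(k0,(nat_lit 696))],[(k5,(nat_lit 636)),
    (k10,(nat_lit 641)),(k2,(nat_lit 647)),(k9,(nat_lit 648)),(k1,(nat_lit 660)),(k6,(nat_lit 688))],[(k10,
    (nat_lit 640)),(k9,(nat_lit 641)),(k5,(nat_lit 643)),(k2,(nat_lit 654)),(k1,(nat_lit 659)),(k6,(nat_lit 681))],
    [(k11,(nat_lit 640)),(k8,(nat_lit 641)),(k4,(nat_lit 643)),(k3,(nat_lit 654)),(k0,(nat_lit 669)),(k7,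
    (nat_lit 687))]]
    [] k0
    [[k3,k0,k0,k0,k0,k0],[k2,k1,k0,k0,k0,k0],[k2,k0,k1,k0,k0,k0],[k2,k0,k0,k1,k0,k0],[k1,k1,k1,k0,k0,k0],[k1,k1,k0,k1,
    k0,k0],[k1,k1,k0,k0,k0,k1],[k1,k0,k2,k0,k0,k0],[k1,k0,k1,k1,k0,k0],[k1,k0,k1,k0,k1,k0],[k1,k0,k1,k0,k0,k1],[k0,k1,
    k1,k1,k0,k0],[k0,k1,k1,k0,k1,k0],[k0,k1,k0,k2,k0,k0],[k0,k0,k1,k2,k0,k0]]
    [.ref k6 k0 [(z1,[z1]),(z8,[y1,z3,z12]),(z4,[z1,y3,z0,z12]),(z2,[y1,z3,z0,z0,z6]),(z8,[y7,y3,y12,y24,y24,z24])],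
    .ref k6 k0 [(z5,[z8,y1,y4]),(z5,[y1,z2,z8]),(z5,[z2,y4,y1,z15]),(z5,[y4,z8,z2,z0,z15]),(z5,[y7,y1,y4,y15,y15,
    z15])],.ref k6 k0 [(z3,[z4,z1,z0,y4]),(z6,[y1,z2,z9,z1]),(z3,[z1,y2,z0,z8]),(z3,[y2,z4,z0,z2,z9]),(z6,[y7,y4,y9,
    y11,y18,z18])],.ref k6 k0 [(z1,[z2,y1,z0,z0,y2]),(z4,[y1,z2,z6,z0,z1]),(z2,[z1,y2,z0,z6,y1]),(z1,[y1,z2,z0,z0,
    z4]),(z4,[y7,z2,y6,y12,y5,z12])],.ref k6 k0 [(z3,[z8,z1,y4,y8]),(z3,[y1,z1,z5,z1]),(z3,[z2,y2,y1,z7]),(z3,[y4,z4,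
    z2,z4,z9]),(z3,[y7,y2,y1,y2,y9,z9])],.ref k6 k0 [(z1,[z8,y5,y4,z0,y8]),(z1,[y1,z1,z2,z0,z1]),(z1,[z2,y2,y1,z3,
    y2]),(z1,[y4,z4,z2,z0,z7]),(z1,[y7,z4,z2,y3,z4,z3])],.ref k6 k0 [(z3,[z8,z1,y4]),(z3,[y1,z1,z5]),(z3,[z2,y2,y1,
    z9]),(z3,[y4,z4,z2,z0,z9]),(z3,[y7,y2,y1,y9,y9,z9])],.ref k6 k0 [(z1,[z2,z1,z0,y4]),(z4,[y1,z1,z6,z2]),(z2,[z1,y1,
    z0,z4]),(z1,[y1,z1,z0,z2,z3]),(z4,[y7,y5,y6,z2,y12,z12])],.ref k6 k0 [(z1,[z4,y1,z0,y4,y4]),(z2,[y1,z1,z3,z1,z1]),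
    (z1,[z1,y1,z0,z2,y1]),(z1,[y2,z2,z0,z2,z5]),(z2,[y7,z1,y3,z1,z1,z6])],.ref k6 k0 [(z1,[z8,z3,z4,z0,z8,y8]),(z1,
    [y1,z0,z1,z0,y1,z1]),(z1,[z2,z0,z1,z3,z2,y2]),(z1,[y4,z0,y2,z0,y1,z4]),(z1,[y7,y3,y5,y3,y10,z10])],
    .ref k6 k0 [(z1,[z2,z1,z0,y2]),(z4,[y1,z1,z6,z1]),(z2,[z1,y1,z0,z5]),(z1,[y1,z1,z0,z1,z3]),(z4,[y7,y5,y6,y5,y12,
    z12])],.ref k6 k0 [(z1,[y8,z3,z4,z8,z8]),(z1,[z1,z0,z1,y1,y1]),(z1,[y2,z0,z1,z5,z2]),(z1,[z4,z0,y2,y4,y1]),(z1,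
    [z7,y3,y5,y10,y10,z3])],.ref k6 k0 [(z1,[y4,y1,z0,z0,y4,z4]),(z2,[z1,z1,z3,z0,z1,y1]),(z1,[y1,y1,z0,z3,y1,z1]),
    (z1,[z2,z2,z0,z0,z5,y2]),(z2,[z7,z1,y3,y6,z1,y1])],.ref k6 k0 [(z3,[y8,z9,z4,z0,z16]),(z3,[z1,z0,z4,z0,y2]),(z3,
    [y2,z0,z1,z9,z4]),(z3,[z4,z0,y2,z0,z1]),(z3,[z7,y9,y8,y9,y23,z9])],.ref k6 k0 [(z1,[y4,z3,z0,z4,z8]),(z2,[z1,z0,
    z3,y1,y2]),(z1,[y1,z0,z0,z4,z2]),(z1,[z2,z0,z0,y2,y1]),(z2,[z7,y6,y3,y13,y20,z6])]],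
    .tor k9 false k5 [(z1,[z1,z0,z0,z2]),(z1,[z1,z0,z1]),(z1,[y1,y1,z0,y1,z1]),(z1,[y1,z1,y1,y1,z1])],
    .leafM k6 [k0,k1,k2,k3,k4,k5] [(z3,[y1,y1,y3,z0,z3])] [],
    .lp [(nat_lit 442),(nat_lit 438),(nat_lit 434),(nat_lit 482),(nat_lit 548),(nat_lit 530)] [k53,k53,k55,k55,k57,k57,
    k33,k33,k0,k0,k9,k9] k0 [[k0,k0,k0,k38,k0,k0,k0,k0,k0,k0,k34],[k0,k0,k0,k0,k0,k0,k0,k34,k0,k0,k22],[k0,k38,k0,k0,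
    k100],[k0,k0,k0,k0,k4],[k0,k0,k0,k0,k0,k0,k34,k6],[k0,k0,k4,k100],[k34,k0,k0,k0,k0,k6],[k0,k0,k0,k0,k0,k34,k0,k0,
    k72],[k0,k0,k0,k0,k0,k0,k0,k0,k0,k0,k0,k38],[k0,k0,k0,k0,k0,k0,k72,k0,k0,k0,k0,k50],[k0,k0,k0,k0,k0,k0,k0,k0,k50,
    k38],[k22,k34]] (nat_lit 1440) k5
    [[(k0,(nat_lit 408)),(k3,(nat_lit 418)),(k4,(nat_lit 438)),(k7,(nat_lit 462)),(k11,(nat_lit 524)),(k8,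
    (nat_lit 545))],[(k2,(nat_lit 402)),(k1,(nat_lit 408)),(k5,(nat_lit 438)),(k6,(nat_lit 462)),(k10,(nat_lit 508)),
    (k9,(nat_lit 529))],[(k1,(nat_lit 418)),(k6,(nat_lit 426)),(k2,(nat_lit 438)),(k5,(nat_lit 474)),(k9,
    (nat_lit 493)),(k10,(nat_lit 518))],[(k7,(nat_lit 360)),(k0,(nat_lit 402)),(k3,(nat_lit 438)),(k4,(nat_lit 440)),
    (k11,(nat_lit 484)),(k8,(nat_lit 493))],[(k0,(nat_lit 438)),(k7,(nat_lit 454)),(k3,(nat_lit 474)),(k11,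
    (nat_lit 482)),(k8,(nat_lit 491)),(k4,(nat_lit 534))],[(k1,(nat_lit 438)),(k2,(nat_lit 440)),(k6,(nat_lit 452)),
    (k9,(nat_lit 457)),(k10,(nat_lit 482)),(k5,(nat_lit 534))],[(k2,(nat_lit 360)),(k5,(nat_lit 454)),(k1,
    (nat_lit 462)),(k10,(nat_lit 506)),(k6,(nat_lit 516)),(k9,(nat_lit 521))],[(k3,(nat_lit 426)),(k4,(nat_lit 452)),
    (k0,(nat_lit 462)),(k11,(nat_lit 506)),(k7,(nat_lit 516)),(k8,(nat_lit 587))],[(k4,(nat_lit 457)),(k11,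
    (nat_lit 467)),(k3,(nat_lit 493)),(k7,(nat_lit 521)),(k0,(nat_lit 529)),(k8,(nat_lit 548))],[(k5,(nat_lit 491)),
    (k2,(nat_lit 493)),(k10,(nat_lit 501)),(k1,(nat_lit 545)),(k9,(nat_lit 548)),(k6,(nat_lit 587))],[(k9,
    (nat_lit 467)),(k10,(nat_lit 480)),(k5,(nat_lit 482)),(k2,(nat_lit 484)),(k6,(nat_lit 506)),(k1,(nat_lit 524))],
    [(k11,(nat_lit 480)),(k4,(nat_lit 482)),(k8,(nat_lit 501)),(k7,(nat_lit 506)),(k0,(nat_lit 508)),(k3,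
    (nat_lit 518))]]
    [] k0
    [[k3,k0,k0,k0,k0,k0],[k2,k1,k0,k0,k0,k0],[k2,k0,k1,k0,k0,k0],[k2,k0,k0,k1,k0,k0],[k1,k2,k0,k0,k0,k0],[k1,k1,k1,k0,
    k0,k0],[k1,k1,k0,k1,k0,k0],[k1,k1,k0,k0,k0,k1],[k1,k0,k2,k0,k0,k0],[k1,k0,k1,k1,k0,k0],[k1,k0,k1,k0,k0,k1],[k0,k3,
    k0,k0,k0,k0],[k0,k2,k1,k0,k0,k0],[k0,k2,k0,k1,k0,k0],[k0,k2,k0,k0,k1,k0],[k0,k1,k1,k1,k0,k0],[k0,k1,k1,k0,k1,k0],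
    [k0,k1,k0,k2,k0,k0],[k0,k1,k0,k1,k0,k1],[k0,k0,k1,k2,k0,k0]]
    [.ref k6 k0 [(z1,[z1]),(z10,[y2,z3,z15]),(z20,[z2,y3,z0,z15]),(z4,[y2,z3,z0,z0,z3]),(z20,[y16,y6,y30,y15,y15,
    z60])],.ref k6 k0 [(z6,[z10,y1,y5]),(z3,[y1,z1,z5]),(z12,[z2,y2,y1,z9]),(z12,[y10,z10,z5,z0,z9]),(z12,[y16,y2,y10,
    y9,y9,z36])],.ref k6 k0 [(z14,[z20,z1,z0,y5]),(z14,[y4,z4,z21,z1]),(z7,[z1,y1,z0,z5]),(z28,[y20,z20,z0,z5,z21]),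
    (z28,[y32,y10,y42,y13,y21,z84])],.ref k6 k0 [(z2,[z4,y1,z0,z0,y1]),(z10,[y4,z4,z15,z0,z1]),(z20,[z4,y4,z0,z15,
    y1]),(z1,[y1,z1,z0,z0,z1]),(z20,[y32,z2,y30,y15,y7,z60])],.ref k6 k0 [(z1,[z5,y1,y5]),(z2,[y2,z1,z5]),(z4,[z2,y1,
    y2,z3]),(z4,[y10,z5,z10,z0,z3]),(z4,[y16,z2,z10,y3,y3,z12])],.ref k6 k0 [(z6,[z20,y1,y10,y5]),(z6,[y4,z2,z11,z1]),
    (z6,[z2,y1,y1,z4]),(z12,[y20,z10,z10,z5,z9]),(z12,[y32,y2,y2,y1,y9,z36])],.ref k6 k0 [(z2,[z20,y7,y10,z0,y5]),(z2,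
    [y4,z2,z5,z0,z1]),(z4,[z4,y2,y2,z3,y1]),(z2,[y10,z5,z5,z0,z4]),(z4,[y32,z10,z10,y3,z5,z12])],.ref k6 k0 [(z4,[z10,
    z1,y5]),(z4,[y2,z1,z7]),(z8,[z2,y1,y1,z6]),(z8,[y10,z5,z5,z0,z6]),(z4,[y8,y2,y2,y3,y3,z12])],.ref k6 k0 [(z4,[z10,
    z1,z0,y5]),(z4,[y2,z1,z6,z1]),(z8,[z2,y1,z0,z5]),(z8,[y10,z5,z0,z5,z6]),(z4,[y8,y2,y6,z1,y3,z12])],
    .ref k6 k0 [(z4,[z20,y4,z0,y5,y5]),(z4,[y4,z2,z6,z1,z1]),(z8,[z4,y2,z0,z5,y1]),(z8,[y20,z10,z0,z5,z11]),(z4,[y16,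
    z2,y6,z1,z1,z12])],.ref k6 k0 [(z2,[z4,z1,z0,y1]),(z10,[y4,z2,z15,z1]),(z10,[z2,y1,z0,z7]),(z4,[y4,z2,z0,z1,z3]),
    (z20,[y32,y14,y30,y7,y15,z60])],.ref k6 k0 [(z2,[y10,z3,z15]),(z1,[z1]),(z4,[y2,z0,z3,z3]),(z4,[z10,z0,y15,z0,
    z3]),(z4,[z16,y6,y30,y3,y3,z12])],.ref k6 k0 [(z2,[y20,z3,z20,z5]),(z2,[z4,z0,y1,y1]),(z1,[y1,z0,z1,z1]),(z4,[z20,
    z0,y20,y5,z3]),(z4,[z32,y6,y38,y11,y3,z12])],.ref k6 k0 [(z6,[y20,z9,z20,z0,z5]),(z6,[z4,z0,z5,z0,y1]),(z12,[y4,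
    z0,z4,z9,z1]),(z3,[z5,z0,y5,z0,z1]),(z12,[z32,y18,y50,y9,y17,z36])],.ref k6 k0 [(z8,[y20,z2,z10,y5,y5,z20]),(z8,
    [z4,z2,z10,z1,z1,y4]),(z16,[y4,y2,z2,z11,y1,z4]),(z16,[z20,z10,y10,z5,z17,y20]),(z4,[z8,y2,y10,y1,y1,z4])],
    .ref k6 k0 [(z4,[y20,z6,z10,z5,z5]),(z4,[z4,z0,z4,y1,y1]),(z8,[y4,z0,z2,z7,z1]),(z8,[z20,z0,y10,y5,z1]),(z4,[z16,
    y6,y14,y7,y7,z12])],.ref k6 k0 [(z6,[y20,y1,z0,z0,y5,z20]),(z6,[z4,z2,z9,z0,z1,y4]),(z12,[y4,y2,z0,z9,y1,z4]),(z6,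
    [z10,z5,z0,z0,z7,y10]),(z12,[z32,y2,y18,y9,y1,z4])],.ref k6 k0 [(z4,[y10,z6,z5,z0,z5]),(z4,[z2,z0,z5,z0,y1]),(z8,
    [y2,z0,z1,z6,z1]),(z8,[z10,z0,y5,z0,z1]),(z4,[z8,y6,y10,y3,y7,z12])],.ref k6 k0 [(z2,[y20,z3,z10,z0,z5]),(z2,[z4,
    z0,z1,z0,y1]),(z4,[y4,z0,z2,z3,z1]),(z2,[z10,z0,y5,z0,y1]),(z4,[z32,y6,y22,y3,y11,z12])],.ref k6 k0 [(z6,[y20,z9,
    z0,z5,z10]),(z6,[z4,z0,z9,y1,y2]),(z6,[y2,z0,z0,z5,z1]),(z12,[z20,z0,z0,y5,y1]),(z12,[z32,y18,y18,y17,y25,z36])]],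
    .lp [(nat_lit 344),(nat_lit 276),(nat_lit 304),(nat_lit 366),(nat_lit 308),(nat_lit 320)] [k11,k11,k45,k45,k31,k31,k0,
    k0,k37,k21,k23,k23] k0 [[k0,k0,k84,k2,k0,k0,k0,k0,k0,k0,k96],[k0,k0,k0,k0,k0,k0,k60,k0,k0,k0,k18],[k0,k2,k0,k0,k0,
    k50,k0,k0,k0,k14],[k0,k84,k0,k0,k0,k40],[k0,k0,k40,k50,k0,k0,k0,k24],[k0,k0,k0,k0,k0,k0,k0,k88,k0,k0,k58,k4],[k0,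
    k0,k0,k0,k88,k24],[k60,k0,k0,k0,k0,k0,k0,k0,k30],[k0,k0,k0,k14,k0,k0,k0,k0,k0,k0,k0,k30],[k0,k0,k0,k0,k0,k0,k30],
    [k0,k0,k0,k0,k4,k0,k0,k0,k0,k30],[k18,k96,k0,k0,k58]] (nat_lit 960) k5
    [[(k0,(nat_lit 248)),(k3,(nat_lit 292)),(k7,(nat_lit 297)),(k8,(nat_lit 318)),(k4,(nat_lit 328)),(k11,
    (nat_lit 362))],[(k5,(nat_lit 240)),(k1,(nat_lit 248)),(k2,(nat_lit 308)),(k9,(nat_lit 334)),(k10,(nat_lit 350)),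
    (k6,(nat_lit 415))],[(k9,(nat_lit 240)),(k1,(nat_lit 292)),(k5,(nat_lit 292)),(k6,(nat_lit 321)),(k2,
    (nat_lit 360)),(k10,(nat_lit 394))],[(k4,(nat_lit 240)),(k8,(nat_lit 270)),(k11,(nat_lit 298)),(k0,(nat_lit 308)),
    (k3,(nat_lit 360)),(k7,(nat_lit 361))],[(k0,(nat_lit 240)),(k4,(nat_lit 264)),(k3,(nat_lit 292)),(k8,
    (nat_lit 298)),(k11,(nat_lit 326)),(k7,(nat_lit 385))],[(k2,(nat_lit 240)),(k5,(nat_lit 264)),(k6,(nat_lit 311)),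
    (k1,(nat_lit 328)),(k10,(nat_lit 370)),(k9,(nat_lit 402))],[(k6,(nat_lit 278)),(k1,(nat_lit 297)),(k10,
    (nat_lit 339)),(k2,(nat_lit 361)),(k9,(nat_lit 369)),(k5,(nat_lit 385))],[(k7,(nat_lit 278)),(k4,(nat_lit 311)),
    (k3,(nat_lit 321)),(k11,(nat_lit 343)),(k8,(nat_lit 359)),(k0,(nat_lit 415))],[(k3,(nat_lit 240)),(k11,
    (nat_lit 292)),(k8,(nat_lit 308)),(k0,(nat_lit 334)),(k7,(nat_lit 369)),(k4,(nat_lit 402))],[(k2,(nat_lit 270)),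
    (k10,(nat_lit 276)),(k5,(nat_lit 298)),(k9,(nat_lit 308)),(k1,(nat_lit 318)),(k6,(nat_lit 359))],[(k9,
    (nat_lit 292)),(k2,(nat_lit 298)),(k10,(nat_lit 320)),(k5,(nat_lit 326)),(k6,(nat_lit 343)),(k1,(nat_lit 362))],
    [(k8,(nat_lit 276)),(k11,(nat_lit 320)),(k7,(nat_lit 339)),(k0,(nat_lit 350)),(k4,(nat_lit 370)),(k3,
    (nat_lit 394))]]
    [] k0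
    [[k3,k0,k0,k0,k0,k0],[k2,k1,k0,k0,k0,k0],[k2,k0,k1,k0,k0,k0],[k2,k0,k0,k0,k1,k0],[k1,k1,k1,k0,k0,k0],[k1,k1,k0,k0,
    k1,k0],[k1,k1,k0,k0,k0,k1],[k1,k0,k2,k0,k0,k0],[k1,k1,k0,k1,k0,k0],[k1,k0,k1,k1,k0,k0],[k0,k2,k1,k0,k0,k0],[k0,k2,
    k0,k0,k1,k0],[k0,k1,k2,k0,k0,k0],[k0,k1,k1,k1,k0,k0],[k0,k1,k0,k1,k0,k1],[k0,k1,k1,k0,k1,k0],[k0,k1,k0,k0,k2,k0],
    [k0,k1,k0,k0,k1,k1],[k0,k0,k3,k0,k0,k0],[k0,k0,k0,k3,k0,k0],[k0,k0,k0,k0,k3,k0],[k0,k0,k0,k0,k2,k1],[k0,k0,k0,k0,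
    k1,k2]]
    [.ref k6 k0 [(z1,[z1]),(z2,[z3,y3,z2]),(z1,[y1,z1,z0,z3]),(z1,[y2,z2,z0,z0,z1]),(z2,[z1,y1])],.ref k6 k0 [(z7,[z6,
    z3,y2]),(z7,[z9,y6,z4]),(z7,[y6,z4,z2,z21]),(z7,[y12,z8,z4,z0,z7]),(z7,[z3,y2,y1])],.ref k6 k0 [(z1,[z3,y1,z0,
    y3]),(z2,[z9,y6,z2,y9]),(z1,[y3,z2,z0,z6]),(z1,[y6,z4,z0,z6,z1]),(z2,[z3,y2,z0,y3])],.ref k6 k0 [(z5,[z6,z1]),(z5,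
    [z9,y6,z5]),(z5,[y6,z4,z0,z15]),(z5,[y12,z8,z0,z0,z5]),(z5,[z3,y2])],.ref k6 k0 [(z3,[z6,z1,y2,y6]),(z1,[z3,y1,z0,
    y3]),(z3,[y6,z2,z2,z15]),(z3,[y12,z4,z4,z12,z3]),(z3,[z3,y1,y1,y3])],.ref k6 k0 [(z3,[z3,z2,y1]),(z2,[z3,y1,z1]),
    (z3,[y3,z1,z1,z9]),(z3,[y6,z2,z2,z0,z3]),(z6,[z3,y1,y1])],.ref k6 k0 [(z5,[z6,z5,z0,z6,z2,y6]),(z5,[z9,z0,z5,z9,
    z3,y9]),(z5,[y6,z0,z0,z9,y2,z6]),(z5,[y12,z0,z0,y12,z1,z12]),(z5,[z3,z0,z0,z3,z1,y3])],.ref k6 k0 [(z1,[y3,z2,z0,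
    z6]),(z2,[y9,z3,z2,z18]),(z1,[z3,y1,z0,y3]),(z1,[z6,y2,z0,y12,z1]),(z2,[y3,z1,z0,z6])],.ref k6 k0 [(z1,[z6,y1,y2,
    z0,y2]),(z1,[z9,y3,y2,z0,y3]),(z1,[y6,z2,z2,z3,z2]),(z1,[y12,z4,z4,z0,z5]),(z1,[z3,y1,y1,z0,y1])],.ref k6 k0 [(z2,
    [y3,z3,z0,z3,z1]),(z4,[y9,z3,z4,z9,z3]),(z2,[z3,y1,z0,z3,y1]),(z1,[z3,y1,z0,y3]),(z4,[y3,z1,z0,z3,z1])],
    .ref k6 k0 [(z2,[z3,z2,y2,y3]),(z4,[z9,z0,y2,y9]),(z2,[y3,z0,z2,z9]),(z1,[y3,z0,z2,z3,z1]),(z4,[z3,z0,y2,y3])],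
    .ref k6 k0 [(z7,[z6,z7,y4]),(z7,[z9,z0,z1]),(z7,[y6,z0,z4,z21]),(z7,[y12,z0,z8,z0,z7]),(z7,[z3,z0,y2])],
    .ref k6 k0 [(z1,[y6,z1,z2,z12]),(z1,[y9,z0,z4,z18]),(z1,[z6,z0,y2,y9]),(z1,[z12,z0,y4,y24,z1]),(z1,[y3,z0,z1,
    z6])],.ref k6 k0 [(z3,[y6,z3,z2,z6,z2]),(z1,[y3,z0,z2,z3,z1]),(z3,[z6,z0,y2,z3,y2]),(z3,[z12,z0,y4,y12,y1]),(z3,
    [y3,z0,z1,z3,z1])],.ref k6 k0 [(z1,[y6,y1,z0,y6,z0,z6]),(z1,[y9,y3,z1,y9,z0,z9]),(z1,[z6,z2,z0,z9,z0,y6]),(z1,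
    [z12,z4,z0,z12,z1,y12]),(z1,[y3,y1,z0,y3,z0,z3])],.ref k6 k0 [(z1,[z3,z1,y1,y3]),(z2,[z9,z0,y1,y9]),(z1,[y3,z0,z1,
    z6]),(z1,[y6,z0,z2,z6,z1]),(z2,[z3,z0,y1,y3])],.ref k6 k0 [(z5,[z6,z5,y2]),(z5,[z9,z0,z2]),(z5,[y6,z0,z2,z15]),
    (z5,[y12,z0,z4,z0,z5]),(z5,[z3,z0,y1])],.ref k6 k0 [(z2,[z3,z3,z0,z3,z1,y3]),(z4,[z9,z3,z4,z9,z3,y9]),(z2,[y3,y1,
    z0,z3,y1,z3]),(z1,[y3,y1,z0,y3,z0,z3]),(z4,[z3,z1,z0,z3,z1,y3])],.ref k6 k0 [(z1,[y1,z1,z0,z3]),(z2,[y3,z0,z2,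
    z9]),(z1,[z1]),(z1,[z2,z0,z0,y6,z1]),(z2,[y1,z0,z0,z3])],.ref k6 k0 [(z2,[y1,z2,z0,z0,z1]),(z4,[y3,z0,z4,z0,z3]),
    (z2,[z1,z0,z0,z6,y1]),(z1,[z1]),(z4,[y1,z0,z0,z0,z1])],.ref k6 k0 [(z1,[z2,z1]),(z1,[z3,z0,z1]),(z1,[y2,z0,z0,
    z3]),(z1,[y4,z0,z0,z0,z1]),(z1,[z1])],.ref k6 k0 [(z1,[z3,z2,z1,z3,z1,y3]),(z2,[z9,z3,z5,z9,z3,y9]),(z1,[y3,y1,y1,
    z0,y1,z3]),(z1,[y6,y2,y2,y6,y1,z6]),(z2,[z3,z1,z1,z3,z1,y3])],.ref k6 k0 [(z1,[z6,z5,z4,z12,z4,y12]),(z1,[z9,z6,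
    z7,z18,z6,y18]),(z1,[y6,y4,y4,y9,y4,z12]),(z1,[y12,y8,y8,y24,y7,z24]),(z1,[z3,z2,z2,z6,z2,y6])]]]

noncomputable def cT6_2_n2_3 : List TN :=
  [.lp [(nat_lit 320),(nat_lit 294),(nat_lit 328),(nat_lit 346),(nat_lit 318),(nat_lit 310)] [k13,k13,k26,k26,k9,k9,k0,
    k0,k14,k14,k18,k18] k0 [[k0,k0,k62,k10],[k0,k0,k0,k0,k0,k0,k0,k12],[k0,k10,k0,k0,k0,k0,k0,k0,k0,k28],[k0,k62],[k0,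
    k0,k0,k0,k0,k0,k0,k42,k0,k0,k18],[k0,k0,k0,k0,k0,k0,k0,k14,k0,k0,k26],[k12,k0,k0,k0,k14,k42],[k0,k0,k0,k0,k0,k0,
    k0,k0,k2,k18],[k0,k0,k0,k28,k0,k0,k18,k0,k0,k0,k0,k38],[k0,k0,k0,k0,k0,k0,k2,k0,k0,k0,k0,k42],[k0,k0,k0,k0,k0,k0,
    k0,k0,k42,k38],[k0,k0,k0,k0,k26,k18]] (nat_lit 960) k5
    [[(k4,(nat_lit 306)),(k3,(nat_lit 307)),(k7,(nat_lit 307)),(k0,(nat_lit 320)),(k11,(nat_lit 353)),(k8,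
    (nat_lit 361))],[(k5,(nat_lit 262)),(k2,(nat_lit 297)),(k10,(nat_lit 315)),(k1,(nat_lit 320)),(k9,(nat_lit 331)),
    (k6,(nat_lit 333))],[(k10,(nat_lit 302)),(k9,(nat_lit 306)),(k1,(nat_lit 307)),(k6,(nat_lit 308)),(k5,
    (nat_lit 321)),(k2,(nat_lit 356))],[(k8,(nat_lit 278)),(k0,(nat_lit 297)),(k11,(nat_lit 302)),(k4,(nat_lit 311)),
    (k7,(nat_lit 320)),(k3,(nat_lit 356))],[(k0,(nat_lit 262)),(k3,(nat_lit 321)),(k8,(nat_lit 323)),(k4,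
    (nat_lit 328)),(k7,(nat_lit 337)),(k11,(nat_lit 347))],[(k6,(nat_lit 295)),(k1,(nat_lit 306)),(k2,(nat_lit 311)),
    (k5,(nat_lit 328)),(k9,(nat_lit 337)),(k10,(nat_lit 345))],[(k1,(nat_lit 307)),(k2,(nat_lit 320)),(k6,
    (nat_lit 332)),(k5,(nat_lit 337)),(k10,(nat_lit 346)),(k9,(nat_lit 374))],[(k4,(nat_lit 295)),(k3,(nat_lit 308)),
    (k7,(nat_lit 332)),(k0,(nat_lit 333)),(k8,(nat_lit 334)),(k11,(nat_lit 346))],[(k8,(nat_lit 300)),(k3,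
    (nat_lit 306)),(k11,(nat_lit 312)),(k0,(nat_lit 331)),(k4,(nat_lit 337)),(k7,(nat_lit 374))],[(k10,(nat_lit 276)),
    (k2,(nat_lit 278)),(k9,(nat_lit 300)),(k5,(nat_lit 323)),(k6,(nat_lit 334)),(k1,(nat_lit 361))],[(k10,
    (nat_lit 268)),(k2,(nat_lit 302)),(k9,(nat_lit 312)),(k6,(nat_lit 346)),(k5,(nat_lit 347)),(k1,(nat_lit 353))],
    [(k11,(nat_lit 268)),(k8,(nat_lit 276)),(k3,(nat_lit 302)),(k0,(nat_lit 315)),(k4,(nat_lit 345)),(k7,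
    (nat_lit 346))]]
    [] k0
    [[k2,k1,k0,k0,k0,k0],[k2,k0,k1,k0,k0,k0],[k1,k1,k1,k0,k0,k0],[k1,k1,k0,k0,k1,k0],[k1,k1,k0,k0,k0,k1],[k1,k0,k2,k0,
    k0,k0],[k1,k1,k0,k1,k0,k0],[k1,k0,k1,k1,k0,k0],[k1,k0,k0,k0,k0,k2],[k0,k2,k0,k0,k1,k0],[k0,k1,k1,k1,k0,k0],[k0,k1,
    k1,k0,k1,k0],[k0,k1,k0,k1,k0,k1],[k0,k1,k0,k0,k2,k0],[k0,k1,k0,k0,k1,k1],[k0,k1,k0,k0,k0,k2],[k0,k0,k0,k0,k3,k0],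
    [k0,k0,k0,k0,k2,k1],[k0,k0,k0,k0,k1,k2],[k0,k0,k0,k0,k0,k3]]
    [.ref k78 k11 [(z1,[y2,y3,z2]),(z1,[y1,y2,z1]),(z1,[z0,z1,y1,y1,z1]),(z1,[z2,z4,y2,z1])],.ref k16 k7 [(z2,[y1,z2,
    z0,z1]),(z2,[z1,z0,z0,y1]),(z1,[z1,y2,z1,y1]),(z1,[z0,z0,z0,z1])],.ref k16 k7 [(z3,[y1,z1,z1,z1]),(z3,[z1,z2,y1,
    y1]),(z3,[z2,y2,z1,y2]),(z1,[z0,z0,z0,z1])],.ref k129 k7 [(z1,[y1,z1,z1]),(z1,[z1,z2,y1]),(z1,[z2,y2,z1]),(z1,[z0,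
    z0,z0,z1])],.ref k75 k2 [(z1,[y1,y3,z2]),(z1,[y2,y2,z2,z1]),(z1,[z0,z1,y1,y1,z1]),(z1,[z1,z1,y1])],
    .ref k130 k5 [(z1,[y2,z1,y1,y1,z1]),(z1,[z0,z0,z0,z1]),(z1,[y1,z1,z0,z1]),(z1,[z1])],.ref k16 k7 [(z1,[y1,z0,z0,
    y1,z1]),(z1,[z1,z1,z0,z1,y1]),(z1,[z2,z0,z1,z2,y2]),(z1,[z0,z0,z0,z1])],.ref k131 k7 [(z1,[z1,z0,z1,z0,y1]),(z1,
    [y1,z1,y1,z0,z1]),(z1,[y2,z0,y1,z0,z2]),(z1,[z0,z0,z0,z1])],.ref k130 k5 [(z1,[z2,y3,y1,y5,z1]),(z1,[z0,z0,z0,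
    z1]),(z1,[z1,y1,z0,y1]),(z1,[y1,z2,z0,z2])],.ref k78 k11 [(z1,[y2,y7,z4]),(z1,[y1,y4,z2]),(z1,[z0,z1,y1,y1,z1]),
    (z1,[z2,z8,y4,z1])],.ref k132 k9 [(z1,[z4,z1,y3,y3,y1]),(z1,[z2,z2,z0,z3,y2]),(z1,[y1,y1,z1,z0,z1]),(z1,[y2,z1,z0,
    z0,z2])],.ref k16 k7 [(z2,[y1,z0,z1,z1]),(z2,[z1,z2,y1,y1]),(z1,[z1,z0,z0,y1]),(z1,[z0,z0,z0,z1])],
    .ref k16 k7 [(z1,[z1,z1,z0,z1,y1]),(z1,[y1,z0,z0,y1,z1]),(z1,[y2,y2,z1,y2,z2]),(z1,[z0,z0,z0,z1])],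
    .ref k75 k2 [(z1,[y1,y4,z2]),(z1,[y2,y4,z2,z1]),(z1,[z0,z1,y1,y1,z1]),(z1,[z1,z2,y1])],.ref k131 k7 [(z1,[y1,z0,
    z1]),(z1,[z1,z1,y1]),(z1,[z2,z0,y1]),(z1,[z0,z0,z0,z1])],.ref k132 k9 [(z1,[y4,y3,z1,y3,z3]),(z1,[y2,z0,z2,z3]),
    (z1,[z1]),(z1,[z2,z3,y2])],.ref k132 k9 [(z1,[y4,y3,y3,y3,z3]),(z1,[y2,z0,z0,z3]),(z1,[z1,z0,z1]),(z1,[z2,z3])],
    .ref k130 k5 [(z1,[z2,y1,y1,y5,z1]),(z1,[z0,z0,z0,z1]),(z1,[z1,z0,z0,y1]),(z1,[y1,z1,z0,z2])],.ref k133 k5 [(z1,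
    [z2,y2,y2,y7,z2]),(z1,[z0,z0,z0,z1]),(z1,[z2,z0,z0,y1]),(z1,[y2,z4,z0,z5])],.ref k134 k0 [(z1,[y1,z3]),(z1,[y2,z0,
    z3]),(z1,[z0,z0,z0,z1]),(z1,[z2,y3,y3,y3,z3])]],
    .leafM k6 [k0,k1,k2,k3,k4,k5] [(z1,[y1,y1,y1,z1])] [],
    .lp [k72,k84,k82,k82,k72,k86] [k7,k7,k1,k1,k2,k2,k2,k2,k7,k7,k0,k0] k0 [[k0,k0,k0,k0,k0,k0,k2],[k0,k0,k0,k0,k0,k0,k0,
    k0,k0,k0,k0,k14],[k0,k0,k0,k0,k0,k0,k0,k0,k12],[k0,k0,k0,k0,k2,k2],[k0,k0,k2,k0,k0,k0,k0,k2],[k0,k0,k2,k0,k0,k0,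
    k0,k2],[k0,k0,k0,k0,k2,k2],[k0,k2,k0,k0,k0,k0,k0,k0,k12],[k0,k0,k0,k0,k0,k0,k0,k0,k0,k0,k10],[k0,k0,k0,k12,k0,k0,
    k12],[k14],[k0,k0,k0,k0,k0,k0,k0,k0,k0,k10]] (nat_lit 240) k5
    [[(k8,k62),(k4,k77),(k7,k77),(k3,k78),(k11,k79),(k0,k86)],[(k9,k70),(k5,k77),(k6,k77),(k2,k78),(k10,k79),(k1,
    k86)],[(k10,k71),(k1,k78),(k9,k78),(k5,k83),(k2,k84),(k6,k85)],[(k11,k73),(k0,k78),(k8,k78),(k3,k84),(k4,k85),(k7,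
    k85)],[(k0,k77),(k4,k80),(k7,k80),(k3,k83),(k11,k84),(k8,k89)],[(k1,k77),(k9,k79),(k5,k80),(k6,k80),(k10,k84),(k2,
    k85)],[(k1,k77),(k9,k79),(k5,k80),(k6,k80),(k10,k84),(k2,k85)],[(k0,k77),(k4,k80),(k7,k80),(k11,k84),(k3,k85),(k8,
    k89)],[(k11,k67),(k0,k70),(k8,k72),(k3,k78),(k4,k79),(k7,k79)],[(k1,k62),(k9,k72),(k2,k78),(k10,k79),(k5,k89),(k6,
    k89)],[(k9,k67),(k2,k73),(k1,k79),(k5,k84),(k6,k84),(k10,k96)],[(k3,k71),(k0,k79),(k8,k79),(k4,k84),(k7,k84),(k11,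
    k96)]]
    [] k0
    [[k2,k0,k0,k0,k1,k0],[k1,k1,k0,k0,k1,k0],[k1,k1,k0,k0,k0,k1],[k1,k1,k1,k0,k0,k0],[k1,k0,k2,k0,k0,k0],[k1,k0,k1,k1,
    k0,k0],[k1,k0,k1,k0,k1,k0],[k1,k0,k0,k2,k0,k0],[k1,k0,k0,k1,k1,k0],[k1,k0,k0,k0,k2,k0],[k1,k0,k0,k0,k1,k1],[k0,k2,
    k0,k0,k0,k1],[k0,k1,k0,k0,k2,k0],[k0,k1,k0,k0,k1,k1],[k0,k0,k0,k0,k3,k0],[k0,k0,k0,k0,k2,k1]]
    [.ref k6 k0 [(z3,[z3,z2,z1,z1,z3,y3]),(z1,[z0,z0,z1]),(z2,[y3,z1,y1,z1,y3,z3]),(z3,[y3,z1,y1,y1,z6,z3]),(z3,[z3,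
    y4,y2,y2,y6,z6])],.ref k6 k0 [(z2,[z3,z2,z0,z1,z3,y3]),(z1,[z0,z0,z1]),(z4,[y9,z0,z0,z1,y9,z9]),(z2,[y3,z0,z0,y1,
    z3,z3]),(z2,[z3,y2,y2,y1,y3,z3])],.ref k6 k0 [(z3,[z6,z1,y2]),(z1,[z0,z0,z1]),(z1,[y3,z1,z1,z1]),(z3,[y6,z2,z2,z0,
    z9]),(z3,[z6,y5,y5,y3,y9,z9])],.ref k6 k0 [(z1,[y6,z3,z2,z2]),(z1,[z0,z0,z1]),(z1,[z9,y3,y3,y2]),(z1,[z6,y2,y2,y2,
    z3]),(z1,[y6,z1,z1,z1,y3,z3])],.ref k6 k0 [(z2,[y3,z3,z0,z2]),(z1,[z0,z0,z1]),(z4,[z9,y3,z0,y2]),(z2,[z3,y1,z0,y2,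
    z6]),(z2,[y3,y1,y2,z0,y6,z6])],.ref k6 k0 [(z3,[y6,z5,z0,z2,z6]),(z1,[z0,z0,z1]),(z1,[z3,y1,z0,z0,y3]),(z3,[z6,y2,
    z0,y2,z3]),(z3,[y6,y1,y3,y1,y3,z9])],.ref k6 k0 [(z1,[z6,z1,z2,z0,z6,y6]),(z1,[z0,z0,z1]),(z1,[y9,z0,y3,z1,y9,
    z9]),(z1,[y6,z0,y2,z0,y3,z6]),(z1,[z6,y1,z1,y1,z3,y3])],.ref k6 k0 [(z1,[y3,z2,z0,z0,z6]),(z1,[z0,z0,z1]),(z2,[z9,
    y3,z0,z2,y18]),(z1,[z3,y1,z0,z0,y3]),(z1,[y3,z0,y1,y1,z3,z3])],.ref k6 k0 [(z1,[z3,z1,z1,z1,z0,y3]),(z1,[z0,z0,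
    z1]),(z2,[y9,z0,y3,y1,z0,z9]),(z1,[y3,z0,y1,y1,z3,z3]),(z1,[z3,y1,z0,z0,y3])],.ref k6 k0 [(z3,[z3,z4,z2,z2,z6,
    y6]),(z1,[z0,z0,z1]),(z2,[y3,y1,y2,z0,y6,z6]),(z3,[y3,y1,y2,y2,z3,z6]),(z3,[z3,y2,y1,y1,y3,z3])],.ref k6 k0 [(z5,
    [z6,z5,z2,z2,z6,y6]),(z1,[z0,z0,z1]),(z5,[y9,z0,y3,z2,y9,z9]),(z5,[y6,z0,y2,y2,z9,z6]),(z5,[z6,y5,y3,y3,y9,z9])],
    .ref k6 k0 [(z1,[z6,z1,y4]),(z1,[z0,z0,z1]),(z1,[y9,z0,z6,z1]),(z1,[y6,z0,z4,z0,z3]),(z1,[z6,y1,y5,y1,y3,z3])],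
    .ref k6 k0 [(z2,[z3,z4,z1,z2,z6,y6]),(z1,[z0,z0,z1]),(z4,[y9,y6,y3,y2,y18,z18]),(z2,[y3,y2,y1,y2,z0,z6]),(z2,[z3,
    z0,y1])],.ref k6 k0 [(z3,[z6,z5,z0,z2,z6,y6]),(z1,[z0,z0,z1]),(z1,[y3,y1,z0,z0,y3,z3]),(z3,[y6,y2,z0,y2,z3,z6]),
    (z3,[z6,y1,y3,y1,y3,z3])],.ref k6 k0 [(z1,[z1,z2,z1,z1,z3,y3]),(z1,[z0,z0,z1]),(z2,[y3,y3,y3,y1,y9,z9]),(z1,[y1,
    y1,y1,y1,z0,z3]),(z1,[z1])],.ref k6 k0 [(z5,[z6,z9,z4,z4,z12,y12]),(z1,[z0,z0,z1]),(z5,[y9,y6,y6,y1,y18,z18]),(z5,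
    [y6,y4,y4,y4,z3,z12]),(z5,[z6,y1,y1,y1,y3,z3])]],
    .lp [k150,k148,k172,k160,k156,k172] [k11,k11,k12,k12,k0,k0,k6,k6,k8,k8,k0,k0] k0 [[k0,k0,k0,k0,k0,k0,k16,k8,k0,k0,k0,
    k22],[k0,k0,k12],[k0,k0,k0,k0,k0,k4],[k12,k0,k0,k0,k0,k12],[k0,k0,k12,k4,k0,k0,k8],[k0,k0,k0,k0,k0,k0,k0,k0,k0,k0,
    k0,k8],[k0,k8,k0,k0,k0,k0,k0,k0,k12,k4],[k0,k16,k0,k0,k0,k8],[k0,k0,k0,k0,k0,k0,k0,k4,k0,k0,k12],[k0,k0,k0,k0,k0,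
    k0,k0,k12,k0,k0,k4],[k0,k22,k0,k0,k8],[k0,k0,k0,k0,k0,k0,k0,k0,k4,k12]] (nat_lit 480) k5
    [[(k8,k141),(k0,k150),(k7,k155),(k11,k157),(k4,k169),(k3,k171)],[(k9,k137),(k10,k139),(k6,k147),(k1,k150),(k2,
    k161),(k5,k161)],[(k2,k148),(k5,k148),(k9,k160),(k10,k160),(k6,k170),(k1,k171)],[(k3,k148),(k8,k152),(k4,k156),
    (k11,k160),(k0,k161),(k7,k166)],[(k3,k148),(k4,k160),(k0,k161),(k8,k164),(k7,k170),(k11,k172)],[(k2,k156),(k9,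
    k156),(k5,k160),(k6,k166),(k1,k169),(k10,k172)],[(k1,k155),(k9,k158),(k10,k158),(k2,k166),(k6,k168),(k5,k170)],
    [(k0,k147),(k8,k154),(k11,k154),(k4,k166),(k7,k168),(k3,k170)],[(k0,k137),(k4,k156),(k7,k158),(k3,k160),(k8,k168),
    (k11,k168)],[(k1,k141),(k2,k152),(k6,k154),(k5,k164),(k9,k168),(k10,k168)],[(k6,k154),(k1,k157),(k2,k160),(k9,
    k168),(k5,k172),(k10,k184)],[(k0,k139),(k7,k158),(k3,k160),(k8,k168),(k4,k172),(k11,k184)]]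
    [] k0
    [[k3,k0,k0,k0,k0,k0],[k2,k0,k0,k1,k0,k0],[k2,k0,k0,k0,k1,k0],[k2,k0,k0,k0,k0,k1],[k1,k1,k0,k0,k1,k0],[k1,k1,k0,k0,
    k0,k1],[k1,k1,k1,k0,k0,k0],[k1,k0,k1,k0,k1,k0],[k1,k0,k0,k2,k0,k0],[k1,k0,k0,k1,k1,k0],[k1,k0,k0,k1,k0,k1],[k1,k0,
    k0,k0,k2,k0],[k1,k0,k0,k0,k1,k1],[k0,k3,k0,k0,k0,k0],[k0,k2,k1,k0,k0,k0],[k0,k2,k0,k0,k1,k0],[k0,k2,k0,k0,k0,k1],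
    [k0,k1,k2,k0,k0,k0],[k0,k1,k1,k0,k1,k0]]
    [.ref k6 k0 [(z1,[z1]),(z2,[y1,z1,z2]),(z1,[y1,z1,z0,z3]),(z1,[z0,z0,z0,z0,z1]),(z2,[z1,y1])],.ref k6 k0 [(z2,[z3,
    z0,z0,z0,y1]),(z4,[y3,z2,z4,z0,z1]),(z2,[y3,z2,z0,z6,z1]),(z1,[z0,z0,z0,z0,z1]),(z4,[z3,y2,z0,z0,y1])],
    .ref k6 k0 [(z5,[z6,z1]),(z5,[y3,z2,z5]),(z5,[y6,z4,z0,z15]),(z1,[z0,z0,z0,z0,z1]),(z5,[z3,y2])],.ref k6 k0 [(z2,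
    [z3,z1,z1,z3,z1,y3]),(z4,[y3,z1,z3,y3,y1,z3]),(z2,[y3,z1,y1,z3,y1,z3]),(z1,[z0,z0,z0,z0,z1]),(z4,[z3,y1,z1,z3,z1,
    y3])],.ref k6 k0 [(z1,[z3,z0,y1]),(z2,[y3,z1,z3]),(z1,[y3,z1,z1,z3]),(z1,[z0,z0,z0,z0,z1]),(z2,[z3,y1,y1])],
    .ref k6 k0 [(z1,[z6,z1,z0,z6,z2,y6]),(z1,[y3,z0,z1,y3,y1,z3]),(z1,[y6,z0,z0,y3,y2,z6]),(z1,[z0,z0,z0,z0,z1]),(z1,
    [z3,z0,z0,z3,z1,y3])],.ref k6 k0 [(z1,[y6,z3,z2,z6]),(z1,[z3,y1,z0,y3]),(z1,[z6,y2,y2,y3]),(z1,[z0,z0,z0,z0,z1]),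
    (z1,[y3,z1,z1,z3])],.ref k6 k0 [(z1,[z6,y1,z0,y6]),(z1,[y3,z1,z1,z3]),(z1,[y6,z2,z0,z9]),(z1,[z0,z0,z0,z0,z1]),
    (z1,[z3,y1,z0,y3])],.ref k6 k0 [(z1,[z3,z0,z0,z0,y2]),(z2,[y3,z1,z2,z0,z2]),(z1,[y3,z1,z0,z3,z2]),(z1,[z0,z0,z0,
    z0,z1]),(z2,[z3,y1,z0,z0,y2])],.ref k6 k0 [(z3,[z6,z1,z0,z0,y2]),(z3,[y3,z1,z3,z0,z1]),(z3,[y6,z2,z0,z9,z2]),(z1,
    [z0,z0,z0,z0,z1]),(z3,[z3,y1,z0,z0,y1])],.ref k6 k0 [(z1,[z3,z1,z1,z3,z0,y3]),(z2,[y3,z0,z1,y3,z0,z3]),(z1,[y3,z0,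
    y1,z0,z0,z3]),(z1,[z0,z0,z0,z0,z1]),(z2,[z3,z0,z1,z3,z0,y3])],.ref k6 k0 [(z2,[z3,z1]),(z4,[y3,z1,z4]),(z2,[y3,z1,
    z0,z6]),(z1,[z0,z0,z0,z0,z1]),(z4,[z3,y1])],.ref k6 k0 [(z3,[z6,z3,z2,z6,z2,y6]),(z3,[y3,z0,z2,y3,y1,z3]),(z3,[y6,
    z0,y2,z3,y2,z6]),(z1,[z0,z0,z0,z0,z1]),(z3,[z3,z0,z1,z3,z1,y3])],.ref k6 k0 [(z1,[y2,z1,z2]),(z1,[z1]),(z1,[z2,z0,
    y2,z3]),(z1,[z0,z0,z0,z0,z1]),(z1,[y1,z0,z1])],.ref k6 k0 [(z2,[y3,z2,z2,z3]),(z4,[z3,z0,z2,y3]),(z2,[z3,z0,y2,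
    z3]),(z1,[z0,z0,z0,z0,z1]),(z4,[y3,z0,z2,z3])],.ref k6 k0 [(z1,[y6,z1,z4]),(z1,[z3,z0,y1]),(z1,[z6,z0,y4,z3]),(z1,
    [z0,z0,z0,z0,z1]),(z1,[y3,z0,z2])],.ref k6 k0 [(z1,[y3,z0,z1,y3,y1,z3]),(z2,[z3,z1,z1,z3,z1,y3]),(z1,[z3,z1,y1,z6,
    z1,y3]),(z1,[z0,z0,z0,z0,z1]),(z2,[y3,y1,z1,y3,y1,z3])],.ref k6 k0 [(z5,[y6,z5,z2,z12]),(z5,[z3,z0,z4,y6]),(z5,
    [z6,z0,y2,z3]),(z1,[z0,z0,z0,z0,z1]),(z5,[y3,z0,z1,z6])],.ref k6 k0 [(z1,[y3,z1,z1,z3]),(z2,[z3,z0,z1,y3]),(z1,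
    [z3,z0,y1]),(z1,[z0,z0,z0,z0,z1]),(z2,[y3,z0,z1,z3])]],
    .lp [k166,k180,k186,k188,k178,k180] [k11,k11,k4,k4,k1,k1,k0,k0,k5,k5,k4,k4] k0 [[k0,k0,k0,k20,k0,k0,k0,k10,k0,k0,k18],
    [k0,k0,k0,k0,k0,k0,k0,k20,k0,k0,k38],[k0,k20,k0,k0,k0,k10],[k0,k0,k0,k0,k0,k22,k0,k0,k14],[k0,k0,k22,k10],[k0,k0,
    k0,k0,k0,k0,k0,k18],[k20,k10,k0,k0,k18],[k0,k0,k0,k0,k0,k0,k0,k0,k4,k2],[k0,k0,k0,k0,k0,k0,k2,k0,k0,k0,k0,k8],[k0,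
    k0,k14,k0,k0,k0,k4],[k0,k0,k0,k0,k0,k0,k0,k0,k0,k8],[k38,k18]] (nat_lit 540) k5
    [[(k3,k135),(k0,k148),(k8,k172),(k4,k176),(k7,k177),(k11,k181)],[(k1,k148),(k2,k153),(k6,k167),(k5,k176),(k9,
    k192),(k10,(nat_lit 211))],[(k1,k135),(k6,k164),(k2,k180),(k9,k189),(k10,k198),(k5,(nat_lit 203))],[(k0,k153),(k4,
    k173),(k3,k180),(k11,k180),(k8,k193),(k7,(nat_lit 206))],[(k4,k164),(k11,k169),(k0,k176),(k8,k182),(k7,k197),(k3,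
    (nat_lit 203))],[(k5,k164),(k2,k173),(k1,k176),(k10,k183),(k6,k187),(k9,(nat_lit 200))],[(k6,k170),(k1,k177),(k9,
    k183),(k10,k184),(k5,k197),(k2,(nat_lit 206))],[(k3,k164),(k0,k167),(k7,k170),(k11,k186),(k4,k187),(k8,k187)],
    [(k11,k175),(k8,k176),(k7,k183),(k3,k189),(k0,k192),(k4,(nat_lit 200))],[(k10,k171),(k1,k172),(k9,k176),(k5,k182),
    (k6,k187),(k2,k193)],[(k5,k169),(k9,k175),(k2,k180),(k10,k180),(k1,k181),(k6,k186)],[(k8,k171),(k11,k180),(k4,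
    k183),(k7,k184),(k3,k198),(k0,(nat_lit 211))]]
    [] k0
    [[k3,k0,k0,k0,k0,k0],[k2,k1,k0,k0,k0,k0],[k2,k0,k1,k0,k0,k0],[k2,k0,k0,k1,k0,k0],[k2,k0,k0,k0,k1,k0],[k1,k2,k0,k0,
    k0,k0],[k1,k1,k1,k0,k0,k0],[k1,k1,k0,k1,k0,k0],[k1,k1,k0,k0,k1,k0],[k1,k1,k0,k0,k0,k1],[k1,k0,k2,k0,k0,k0],[k1,k0,
    k0,k2,k0,k0],[k1,k0,k0,k1,k1,k0],[k1,k0,k0,k1,k0,k1],[k0,k1,k1,k1,k0,k0],[k0,k1,k0,k1,k0,k1],[k0,k0,k3,k0,k0,k0],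
    [k0,k0,k2,k0,k0,k1],[k0,k0,k1,k0,k0,k2],[k0,k0,k0,k3,k0,k0],[k0,k0,k0,k0,k3,k0],[k0,k0,k0,k0,k2,k1],[k0,k0,k0,k0,
    k1,k2]]
    [.ref k6 k0 [(z1,[z1]),(z1,[z0,z0,z1]),(z2,[y3,z3,z0,z2]),(z2,[z1,y1,z0,z0,z6]),(z2,[y1,y1,y2,y2,y6,z6])],
    .ref k6 k0 [(z2,[z3,z0,y1]),(z1,[z0,z0,z1]),(z4,[y9,z6,z3,z4]),(z4,[z3,y2,y1,z0,z12]),(z4,[y3,y2,y3,y4,y12,z12])],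
    .ref k6 k0 [(z1,[z6,y3,z0,y2]),(z1,[z0,z0,z1]),(z1,[y9,z6,z0,z4]),(z1,[z3,y2,z0,y1,z3]),(z1,[y3,z1,y1,z0,y3,z3])],
    .ref k6 k0 [(z5,[z6,z1,z0,z0,y6]),(z1,[z0,z0,z1]),(z5,[y9,z6,z0,z5,z9]),(z5,[z3,y2,z0,z0,z12]),(z5,[y3,y3,y5,y5,
    y12,z15])],.ref k6 k0 [(z3,[z6,z1,z2,z2,z6,y6]),(z1,[z0,z0,z1]),(z1,[y3,z1,y1,z0,y3,z3]),(z3,[z3,y1,z1,z1,z12,
    y3]),(z3,[y3,y2,y4,y4,y12,z12])],.ref k6 k0 [(z1,[z3,z0,y2]),(z1,[z0,z0,z1]),(z2,[y9,z3,z6,z2]),(z2,[z3,y1,y2,z0,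
    z6]),(z2,[y3,y1,z0,y2,y6,z6])],.ref k6 k0 [(z1,[y6,z3,z2,z2]),(z1,[z0,z0,z1]),(z1,[z9,y3,y3,y2]),(z1,[y3,z1,z1,z1,
    z3]),(z1,[z3,y2,y2,y2,y3,z3])],.ref k6 k0 [(z3,[z6,z1,y2,z0,y6]),(z1,[z0,z0,z1]),(z1,[y3,z1,z1,z1,z3]),(z3,[z3,y1,
    y1,z0,z6]),(z3,[y3,y2,y2,y3,y6,z9])],.ref k6 k0 [(z1,[z6,z1,z0,z2,z6,y6]),(z1,[z0,z0,z1]),(z1,[y9,z0,z0,y2,y9,
    z9]),(z1,[z3,z0,z0,z1,z6,y3]),(z1,[y3,y1,y1,y2,y6,z6])],.ref k6 k0 [(z3,[z6,z1,y2]),(z1,[z0,z0,z1]),(z1,[y3,z1,z1,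
    z1]),(z3,[z3,y1,y1,z0,z9]),(z3,[y3,y2,y2,y3,y9,z9])],.ref k6 k0 [(z2,[y3,z3,z0,z2]),(z1,[z0,z0,z1]),(z4,[z9,y3,z0,
    y2]),(z4,[y3,z1,z0,z2,z12]),(z4,[z3,y5,y4,y6,y12,z12])],.ref k6 k0 [(z2,[z3,z1,z0,z0,y6]),(z1,[z0,z0,z1]),(z4,[y9,
    z3,z0,z4,z18]),(z4,[z3,y1,z0,z0,z6]),(z4,[y3,y3,y4,y4,y6,z12])],.ref k6 k0 [(z1,[z3,z1,z1,z1,z0,y3]),(z1,[z0,z0,
    z1]),(z2,[y9,z0,y3,y1,z0,z9]),(z2,[z3,z0,z1,z1,z6,y3]),(z2,[y3,y2,y3,y3,y6,z9])],.ref k6 k0 [(z2,[z3,z1,z0,z0,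
    y3]),(z1,[z0,z0,z1]),(z4,[y9,z3,z0,z4,z9]),(z4,[z3,y1,z0,z0,z9]),(z4,[y3,y3,y4,y4,y9,z12])],.ref k6 k0 [(z1,[y3,
    z1,z1,z1,z3]),(z1,[z0,z0,z1]),(z2,[z9,z0,y3,y1,y9]),(z2,[y3,z0,z1,z1,z9]),(z2,[z3,y2,y3,y3,y9,z6])],
    .ref k6 k0 [(z1,[z3,z1,y1,z0,y3]),(z1,[z0,z0,z1]),(z2,[y9,z0,z3,z2,z9]),(z2,[z3,z0,y1,z0,z3]),(z2,[y3,y2,y1,y2,y3,
    z6])],.ref k6 k0 [(z3,[y2,z3,z0,z2]),(z1,[z0,z0,z1]),(z1,[z1]),(z3,[y1,z0,z0,z1,z9]),(z3,[z1,y3,y3,y4,y9,z9])],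
    .ref k6 k0 [(z5,[y6,z5,z0,z4]),(z1,[z0,z0,z1]),(z5,[z9,z0,z0,y1]),(z5,[y3,z0,z0,z2,z15]),(z5,[z3,y5,y5,y7,y15,
    z15])],.ref k6 k0 [(z1,[y6,z1,z0,z2]),(z1,[z0,z0,z1]),(z1,[z9,z0,z0,y2]),(z1,[y3,z0,z0,z1,z3]),(z1,[z3,y1,y1,y2,
    y3,z3])],.ref k6 k0 [(z1,[z2,z1,z0,z0,y6]),(z1,[z0,z0,z1]),(z1,[y3,z0,z0,z1,z9]),(z1,[z1]),(z1,[y1,y1,y1,y1,z0,
    z3])],.ref k6 k0 [(z1,[y2,y1,y2,y2,y6,z6]),(z1,[z0,z0,z1]),(z1,[z3,z3,z3,z4,z9,y9]),(z1,[y1,y1,y1,y1,z0,z3]),(z1,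
    [z1])],.ref k6 k0 [(z1,[y6,y3,y4,y4,y12,z12]),(z1,[z0,z0,z1]),(z1,[z9,z6,z6,z7,z18,y18]),(z1,[y3,y2,y2,y2,y3,z6]),
    (z1,[z3,z1,z1,z1,z3,y3])],.ref k6 k0 [(z1,[z6,z3,z2,z2,z6,y6]),(z1,[z0,z0,z1]),(z1,[y9,y3,y3,y2,y9,z9]),(z1,[z3,
    z1,z1,z1,z6,y3]),(z1,[y3,y2,y2,y2,y6,z6])]],
    .lp [(nat_lit 224),(nat_lit 230),(nat_lit 250),(nat_lit 240),(nat_lit 246),(nat_lit 244)] [k13,k13,k10,k10,k0,k0,k5,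
    k5,k2,k2,k3,k3] k0 [[k0,k0,k0,k20,k0,k0,k0,k2,k0,k0,k16],[k0,k0,k0,k0,k0,k0,k0,k6,k0,k0,k42],[k0,k20,k0,k0,k0,k4],
    [k0,k0,k0,k0,k0,k26,k0,k0,k16],[k0,k0,k26,k4],[k0,k0,k0,k0,k0,k0,k6,k0,k0,k0,k0,k4],[k6,k2],[k0,k0,k0,k0,k6],[k0,
    k0,k0,k0,k0,k0,k0,k0,k0,k0,k0,k2],[k0,k0,k16],[k0,k0,k0,k0,k4,k0,k0,k0,k0,k2],[k42,k16]] (nat_lit 720) k5
    [[(k3,k185),(k0,(nat_lit 208)),(k7,(nat_lit 232)),(k8,(nat_lit 235)),(k11,(nat_lit 236)),(k4,(nat_lit 241))],[(k2,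
    (nat_lit 207)),(k1,(nat_lit 208)),(k6,(nat_lit 230)),(k5,(nat_lit 237)),(k9,(nat_lit 241)),(k10,(nat_lit 276))],
    [(k1,k185),(k6,(nat_lit 229)),(k2,(nat_lit 230)),(k9,(nat_lit 240)),(k10,(nat_lit 253)),(k5,(nat_lit 260))],[(k0,
    (nat_lit 207)),(k3,(nat_lit 230)),(k4,(nat_lit 236)),(k11,(nat_lit 237)),(k8,(nat_lit 254)),(k7,(nat_lit 261))],
    [(k4,(nat_lit 224)),(k11,(nat_lit 231)),(k0,(nat_lit 237)),(k8,(nat_lit 248)),(k7,(nat_lit 249)),(k3,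
    (nat_lit 260))],[(k5,(nat_lit 224)),(k2,(nat_lit 236)),(k1,(nat_lit 241)),(k10,(nat_lit 247)),(k9,(nat_lit 248)),
    (k6,(nat_lit 251))],[(k1,(nat_lit 232)),(k9,(nat_lit 237)),(k10,(nat_lit 238)),(k6,(nat_lit 240)),(k5,
    (nat_lit 249)),(k2,(nat_lit 261))],[(k3,(nat_lit 229)),(k0,(nat_lit 230)),(k7,(nat_lit 240)),(k11,(nat_lit 242)),
    (k8,(nat_lit 243)),(k4,(nat_lit 251))],[(k7,(nat_lit 237)),(k3,(nat_lit 240)),(k0,(nat_lit 241)),(k11,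
    (nat_lit 245)),(k8,(nat_lit 246)),(k4,(nat_lit 248))],[(k1,(nat_lit 235)),(k6,(nat_lit 243)),(k10,(nat_lit 243)),
    (k9,(nat_lit 246)),(k5,(nat_lit 248)),(k2,(nat_lit 254))],[(k5,(nat_lit 231)),(k1,(nat_lit 236)),(k2,
    (nat_lit 237)),(k6,(nat_lit 242)),(k10,(nat_lit 244)),(k9,(nat_lit 245))],[(k7,(nat_lit 238)),(k8,(nat_lit 243)),
    (k11,(nat_lit 244)),(k4,(nat_lit 247)),(k3,(nat_lit 253)),(k0,(nat_lit 276))]]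
    [] k0
    [[k3,k0,k0,k0,k0,k0],[k2,k1,k0,k0,k0,k0],[k2,k0,k1,k0,k0,k0],[k2,k0,k0,k1,k0,k0],[k2,k0,k0,k0,k1,k0],[k1,k2,k0,k0,
    k0,k0],[k1,k1,k1,k0,k0,k0],[k1,k1,k0,k1,k0,k0],[k1,k1,k0,k0,k1,k0],[k1,k1,k0,k0,k0,k1],[k1,k0,k2,k0,k0,k0],[k1,k0,
    k0,k2,k0,k0],[k1,k0,k0,k1,k1,k0],[k1,k0,k0,k1,k0,k1],[k0,k3,k0,k0,k0,k0],[k0,k1,k1,k1,k0,k0],[k0,k1,k0,k1,k0,k1],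
    [k0,k0,k3,k0,k0,k0],[k0,k0,k2,k0,k0,k1]]
    [.ref k137 k7 [(z1,[y1,z3]),(z1,[z1]),(z1,[z1,y3,z3]),(z1,[z0,z0,z0,z1])],.ref k16 k8 [(z3,[z1,z1,z2,z3,y3]),(z1,
    [z0,z1,z1,z1,y1]),(z3,[z2,z2,z1,z3,y3]),(z3,[y1,y4,y2,y6,z6])],.ref k16 k8 [(z2,[z1,z0,z2,z1,y2]),(z1,[z0,z1,z1,
    z1,y1]),(z1,[z1,z0,z1,z0,y1]),(z2,[y1,y2,y2,y3,z4])],.ref k131 k7 [(z1,[y1,z1,y1,y1,z1]),(z1,[z1,z0,z1,z1,y1]),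
    (z1,[z1,y1,z2,z1,y1]),(z1,[z0,z0,z0,z1])],.ref k34 k2 [(z1,[y3,y1,z1]),(z1,[y2,z0,z0,z1]),(z1,[z2,z0,y1,y1,z1]),
    (z1,[z1])],.ref k138 k0 [(z1,[z1,z2,y2]),(z1,[z1,y1,z1]),(z1,[z0,z0,z0,z1]),(z1,[y1,y2,y1,y3,z3])],
    .ref k65 k1 [(z1,[y2,z2,y2,z3]),(z1,[y1,z0,y1,z0,z1]),(z1,[z1,y1,z1,y1]),(z1,[y1,z1,z0,z1])],.ref k16 k8 [(z1,[z1,
    z1,z1,z2,y2]),(z1,[z0,z1,z1,z1,y1]),(z1,[z2,z2,z1,z3,y3]),(z1,[y1,y2,y1,y3,z3])],.ref k16 k8 [(z2,[z1,z1,z1,z2,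
    y2]),(z1,[z0,z1,z1,z1,y1]),(z1,[z1,z1,z0,z1,y1]),(z2,[y1,y3,y1,y4,z4])],.ref k16 k8 [(z1,[z1,z0,z0,z1,y1]),(z1,
    [z0,z1,z1,z1,y1]),(z1,[z2,z0,y1,z1,y1]),(z1,[y1,y1,z0,y2,z2])],.ref k9 k3 [(z1,[y3,z4,y4,z6]),(z1,[z1,y1,z2,y2]),
    (z1,[y1,z1,y1,z2]),(z1,[z1,y2,z1,y3,z1])],.ref k9 k3 [(z1,[z3,z4,z2,z6,y6]),(z1,[y1,y1,z0,y2,z2]),(z1,[z1,z1,z1,
    z2,y2]),(z1,[y1,y2,y1,y3,z3])],.ref k26 k9 [(z1,[z0,y1,y1,y1,z1]),(z1,[y2,z0,y2,z1,z2]),(z1,[y1,z0,z2,y1,z1]),(z1,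
    [z2,z3,z2,z2,y2])],.ref k9 k3 [(z1,[z3,z1,y1,z3,y3]),(z1,[y1,z0,z1,y1,z1]),(z1,[z1,z0,z0,z1,y1]),(z1,[y1,y1,z0,y2,
    z2])],.ref k139 k4 [(z1,[z2,z6,z0,z9,y6]),(z1,[z1]),(z1,[y2,y6,y3,y9,z9]),(z1,[z0,z1,z1,z1,y1])],.ref k26 k9 [(z1,
    [z0,y1,y1,y1,z1]),(z1,[z2,z2,z0,z3,y2]),(z1,[z1,z1,z3,z0,y1]),(z1,[y2,z1,z0,z0,z2])],.ref k16 k8 [(z1,[y1,z0,z1]),
    (z1,[z0,z1,z1,z1,y1]),(z1,[y2,z0,z1,y1,z1]),(z1,[z1,y1,y1,y1,z1])],.ref k26 k9 [(z1,[z0,y1,y1,y1,z1]),(z1,[z1]),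
    (z2,[z1,z0,z6,y3]),(z1,[y1,z3,z0,z3])],.ref k131 k7 [(z1,[z1,z0,z0,y2]),(z1,[y1,z1,z0,z2]),(z1,[y1,z0,z1,z2]),(z1,
    [z0,z0,z0,z1])]],
    .lp [k150,k148,k172,k160,k156,k172] [k11,k11,k12,k12,k0,k0,k6,k6,k8,k8,k0,k0] k0 [[k0,k0,k0,k0,k0,k0,k16,k8,k0,k0,k0,
    k22],[k0,k0,k12],[k0,k0,k0,k0,k0,k4],[k12,k0,k0,k0,k0,k12],[k0,k0,k12,k4,k0,k0,k8],[k0,k0,k0,k0,k0,k0,k0,k0,k0,k0,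
    k0,k8],[k0,k8,k0,k0,k0,k0,k0,k0,k12,k4],[k0,k16,k0,k0,k0,k8],[k0,k0,k0,k0,k0,k0,k0,k4,k0,k0,k12],[k0,k0,k0,k0,k0,
    k0,k0,k12,k0,k0,k4],[k0,k22,k0,k0,k8],[k0,k0,k0,k0,k0,k0,k0,k0,k4,k12]] (nat_lit 480) k5
    [[(k8,k141),(k0,k150),(k7,k155),(k11,k157),(k4,k169),(k3,k171)],[(k9,k137),(k10,k139),(k6,k147),(k1,k150),(k2,
    k161),(k5,k161)],[(k2,k148),(k5,k148),(k9,k160),(k10,k160),(k6,k170),(k1,k171)],[(k3,k148),(k8,k152),(k4,k156),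
    (k11,k160),(k0,k161),(k7,k166)],[(k3,k148),(k4,k160),(k0,k161),(k8,k164),(k7,k170),(k11,k172)],[(k2,k156),(k9,
    k156),(k5,k160),(k6,k166),(k1,k169),(k10,k172)],[(k1,k155),(k9,k158),(k10,k158),(k2,k166),(k6,k168),(k5,k170)],
    [(k0,k147),(k8,k154),(k11,k154),(k4,k166),(k7,k168),(k3,k170)],[(k0,k137),(k4,k156),(k7,k158),(k3,k160),(k8,k168),
    (k11,k168)],[(k1,k141),(k2,k152),(k6,k154),(k5,k164),(k9,k168),(k10,k168)],[(k6,k154),(k1,k157),(k2,k160),(k9,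
    k168),(k5,k172),(k10,k184)],[(k0,k139),(k7,k158),(k3,k160),(k8,k168),(k4,k172),(k11,k184)]]
    [] k0
    [[k3,k0,k0,k0,k0,k0],[k2,k0,k0,k1,k0,k0],[k2,k0,k0,k0,k1,k0],[k2,k0,k0,k0,k0,k1],[k1,k1,k0,k0,k1,k0],[k1,k1,k0,k0,
    k0,k1],[k1,k1,k1,k0,k0,k0],[k1,k0,k1,k0,k1,k0],[k1,k0,k0,k2,k0,k0],[k1,k0,k0,k1,k1,k0],[k1,k0,k0,k1,k0,k1],[k1,k0,
    k0,k0,k2,k0],[k1,k0,k0,k0,k1,k1],[k0,k3,k0,k0,k0,k0],[k0,k2,k1,k0,k0,k0],[k0,k2,k0,k0,k1,k0],[k0,k2,k0,k0,k0,k1],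
    [k0,k1,k2,k0,k0,k0],[k0,k1,k1,k0,k1,k0]]
    [.ref k6 k0 [(z1,[z1]),(z7,[y5,z15,z21]),(z7,[y5,z15,z0,z21]),(z7,[y2,z6,z0,z0,z21]),(z7,[z4,y33,y21,y21,y21,
    z21])],.ref k6 k0 [(z4,[z7,y2,z0,z0,y7]),(z4,[y5,z10,z12,z0,z5]),(z4,[y5,z10,z0,z12,z5]),(z2,[y1,z2,z0,z0,z7]),
    (z1,[z1,y5,y3,y3,y4,z3])],.ref k6 k0 [(z6,[z7,z11,z7,z7,z7,y7]),(z6,[y5,z5,z13,y5,y5,z5]),(z6,[y5,z5,y5,z13,y5,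
    z5]),(z3,[y1,z1,y1,y1,z8,z1]),(z3,[z2,y11,y7,y7,y7,z7])],.ref k6 k0 [(z5,[z7,z1]),(z1,[y1,z2,z3]),(z1,[y1,z2,z0,
    z3]),(z5,[y2,z4,z0,z0,z15]),(z5,[z4,y23,y15,y15,y15,z15])],.ref k6 k0 [(z2,[z7,z6,z0,z7,z7,y7]),(z2,[y5,z0,z6,y5,
    y5,z5]),(z2,[y5,z0,z0,z1,y5,z5]),(z1,[y1,z0,z0,y1,z2,z1]),(z1,[z2,y3,y3,y1,y1,z1])],.ref k6 k0 [(z1,[z7,y4,y7]),
    (z1,[y5,z5,z8]),(z1,[y5,z5,z5,z3]),(z1,[y2,z2,z2,z0,z3]),(z1,[z4,y7,y7,y3,y3,z3])],.ref k6 k0 [(z1,[y7,z10,z7,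
    z7]),(z1,[z5,y5,y2,y5]),(z1,[z5,y5,y5,y2]),(z1,[z2,y2,y2,y2,z3]),(z1,[y4,z1,z1,z1,y3,z3])],.ref k6 k0 [(z2,[z7,z6,
    z7,z0,z7,y7]),(z2,[y5,z0,z1,z0,y5,z5]),(z2,[y5,z0,y5,z6,y5,z5]),(z1,[y1,z0,y1,z0,z2,z1]),(z1,[z2,y3,y1,y3,y1,
    z1])],.ref k6 k0 [(z1,[z7,y4,z0,z0,y14]),(z1,[y5,z5,z3,z0,z10]),(z1,[y5,z5,z0,z3,z10]),(z1,[y2,z2,z0,z0,z7]),(z1,
    [z4,y7,y3,y3,y11,z3])],.ref k6 k0 [(z3,[z7,z9,z7,z7,z0,y7]),(z3,[y5,z0,z4,y5,z0,z5]),(z3,[y5,z0,y5,z4,z0,z5]),(z3,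
    [y2,z0,y2,y2,z9,z2]),(z3,[z4,y9,y5,y5,y9,z5])],.ref k6 k0 [(z2,[z7,y1,z0,z0,y7]),(z2,[y5,z5,z6,z0,z5]),(z2,[y5,z5,
    z0,z6,z5]),(z1,[y1,z1,z0,z0,z4]),(z1,[z2,y5,y3,y3,y5,z3])],.ref k6 k0 [(z5,[z7,z22,z14,z14,z14,y14]),(z1,[y1,y1,
    z1,y2,y2,z2]),(z1,[y1,y1,y2,z1,y2,z2]),(z5,[y2,y2,y4,y4,z11,z4]),(z5,[z4,y11,y7,y7,y7,z7])],.ref k6 k0 [(z4,[z7,
    z12,z7,z7,z7,y7]),(z4,[y5,z0,z7,y5,y5,z5]),(z4,[y5,z0,y5,z7,y5,z5]),(z2,[y1,z0,y1,y1,z5,z1]),(z1,[z1,y3,y2,y2,y2,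
    z2])],.ref k6 k0 [(z5,[y7,z15,z21]),(z1,[z1]),(z1,[z1,z0,y3,z3]),(z5,[z2,z0,y6,z0,z15]),(z5,[y4,y15,y3,y15,y15,
    z15])],.ref k6 k0 [(z5,[y7,z15,z14,z7]),(z1,[z1,z0,z1,y1]),(z1,[z1,z0,y2,z2]),(z5,[z2,z0,y4,y2,z15]),(z5,[y4,y15,
    y7,y11,y15,z15])],.ref k6 k0 [(z2,[y7,y1,z7,y7,y7,z7]),(z2,[z5,z5,z1,z5,z5,y5]),(z2,[z5,z5,y5,z11,z5,y5]),(z1,[z1,
    z1,y1,z1,z4,y1]),(z1,[y2,y5,y1,y5,y5,z5])],.ref k6 k0 [(z3,[y7,z9,z14]),(z3,[z5,z0,y1]),(z3,[z5,z0,y10,z9]),(z3,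
    [z2,z0,y4,z0,z9]),(z3,[y4,y9,y1,y9,y9,z9])],.ref k6 k0 [(z5,[y7,z15,z7,z14]),(z1,[z1,z0,z2,y2]),(z1,[z1,z0,y1,
    z1]),(z5,[z2,z0,y2,y4,z15]),(z5,[y4,y15,y11,y7,y15,z15])],.ref k6 k0 [(z2,[y7,y1,z0,z0,y7,z7]),(z2,[z5,z5,z6,z0,
    z5,y5]),(z2,[z5,z5,z0,z6,z5,y5]),(z1,[z1,z1,z0,z0,z4,y1]),(z1,[y2,y5,y3,y3,y5,z5])]]]

/-- the nodes with numbers from 99 -/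
noncomputable def cT6_2_n2 : List TN :=
  cT6_2_n2_0 ++ (cT6_2_n2_1 ++ (cT6_2_n2_2 ++ cT6_2_n2_3))

theorem cT6_2_k2 : allI (chkT 6 cT6_2_w tt6 cT6_2_s (blkF [] cT6_2_D)) cT6_2_n2 99 = true := by
  decide +kernel

end Pool.Agent.Lib_MP_fa6e45
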