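import Pool.Agent.Lib_MP_fa6e45.CG6_1d

/-!
MP_fa6e45_co, stage 5: certificates (captain, generated by a program).
-/

namespace Pool.Agent.Lib_MP_fa6e45

noncomputable def cT6_2_n3_0 : List TN :=
  [.lp [(nat_lit 312),(nat_lit 342),(nat_lit 328),(nat_lit 322),(nat_lit 292),(nat_lit 320)] [k15,k15,k0,k0,k7,k7,k10,
    k10,k25,k25,k11,k11] k0 [[k0,k0,k46,k0,k0,k0,k0,k0,k0,k0,k0,k28],[k0,k0,k14,k0,k0,k0,k0,k0,k0,k0,k0,k44],[k0,k0,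
    k0,k0,k0,k0,k0,k0,k46,k14],[k14,k46],[k0,k0,k0,k0,k0,k0,k0,k18,k0,k0,k26],[k0,k0,k0,k0,k0,k0,k0,k26,k0,k0,k30],
    [k0,k0,k0,k0,k26,k18],[k0,k0,k0,k0,k0,k0,k0,k0,k56,k20],[k0,k0,k0,k14,k0,k0,k20],[k0,k0,k0,k46,k0,k0,k56],[k44,
    k28],[k0,k0,k0,k0,k30,k26]] (nat_lit 960) k5
    [[(k7,(nat_lit 287)),(k4,(nat_lit 294)),(k8,(nat_lit 302)),(k11,(nat_lit 316)),(k3,(nat_lit 355)),(k0,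
    (nat_lit 356))],[(k5,(nat_lit 274)),(k10,(nat_lit 288)),(k9,(nat_lit 302)),(k6,(nat_lit 317)),(k2,(nat_lit 341)),
    (k1,(nat_lit 356))],[(k10,(nat_lit 287)),(k9,(nat_lit 317)),(k5,(nat_lit 321)),(k6,(nat_lit 332)),(k1,
    (nat_lit 355)),(k2,(nat_lit 388))],[(k11,(nat_lit 285)),(k8,(nat_lit 303)),(k7,(nat_lit 332)),(k4,(nat_lit 335)),
    (k0,(nat_lit 341)),(k3,(nat_lit 388))],[(k0,(nat_lit 274)),(k3,(nat_lit 321)),(k7,(nat_lit 325)),(k4,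
    (nat_lit 328)),(k11,(nat_lit 338)),(k8,(nat_lit 356))],[(k1,(nat_lit 294)),(k6,(nat_lit 307)),(k5,(nat_lit 328)),
    (k2,(nat_lit 335)),(k9,(nat_lit 336)),(k10,(nat_lit 354))],[(k1,(nat_lit 287)),(k6,(nat_lit 296)),(k5,
    (nat_lit 325)),(k9,(nat_lit 325)),(k2,(nat_lit 332)),(k10,(nat_lit 347))],[(k7,(nat_lit 296)),(k4,(nat_lit 307)),
    (k0,(nat_lit 317)),(k3,(nat_lit 332)),(k11,(nat_lit 341)),(k8,(nat_lit 363))],[(k11,(nat_lit 250)),(k8,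
    (nat_lit 272)),(k0,(nat_lit 302)),(k3,(nat_lit 317)),(k7,(nat_lit 325)),(k4,(nat_lit 336))],[(k9,(nat_lit 272)),
    (k1,(nat_lit 302)),(k2,(nat_lit 303)),(k10,(nat_lit 306)),(k5,(nat_lit 356)),(k6,(nat_lit 363))],[(k9,
    (nat_lit 250)),(k2,(nat_lit 285)),(k1,(nat_lit 316)),(k10,(nat_lit 320)),(k5,(nat_lit 338)),(k6,(nat_lit 341))],
    [(k3,(nat_lit 287)),(k0,(nat_lit 288)),(k8,(nat_lit 306)),(k11,(nat_lit 320)),(k7,(nat_lit 347)),(k4,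
    (nat_lit 354))]]
    [] k0
    [[k2,k0,k1,k0,k0,k0],[k1,k1,k0,k0,k0,k1],[k1,k1,k1,k0,k0,k0],[k1,k0,k2,k0,k0,k0],[k1,k0,k1,k1,k0,k0],[k1,k0,k1,k0,
    k1,k0],[k1,k0,k1,k0,k0,k1],[k1,k0,k0,k2,k0,k0],[k1,k0,k0,k1,k1,k0],[k1,k0,k0,k1,k0,k1],[k1,k0,k0,k0,k2,k0],[k1,k0,
    k0,k0,k1,k1],[k1,k0,k0,k0,k0,k2],[k0,k1,k0,k0,k2,k0],[k0,k1,k0,k0,k1,k1],[k0,k1,k0,k0,k0,k2],[k0,k0,k1,k2,k0,k0],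
    [k0,k0,k0,k3,k0,k0],[k0,k0,k0,k0,k3,k0],[k0,k0,k0,k0,k2,k1],[k0,k0,k0,k0,k1,k2]]
    [.ref k6 k0 [(z20,[z28,z1,z0,y7]),(z10,[y4,z2,z15,z1]),(z10,[z2,y1,z0,z7]),(z4,[y4,z2,z0,z1,z3]),(z4,[y4,y1,y6,y2,
    y3,z12])],.ref k6 k0 [(z6,[z14,z1,y7]),(z6,[y4,z1,z11]),(z12,[z4,y1,y2,z9]),(z12,[y20,z5,z10,z0,z9]),(z12,[y20,y4,
    y8,y9,y9,z36])],.ref k6 k0 [(z8,[z28,y1,y14,y7]),(z4,[y4,z1,z8,z1]),(z8,[z4,y1,y2,z5]),(z8,[y20,z5,z10,z5,z6]),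
    (z8,[y20,y1,y2,y1,y6,z24])],.ref k6 k0 [(z6,[z14,z1,z0,y7]),(z6,[y4,z1,z9,z2]),(z12,[z4,y1,z0,z7]),(z12,[y20,z5,
    z0,z10,z9]),(z12,[y20,y4,y18,z1,y9,z36])],.ref k6 k0 [(z4,[z28,y4,z0,y7,y7]),(z2,[y4,z1,z3,z1,z1]),(z4,[z4,y1,z0,
    z2,y1]),(z4,[y20,z5,z0,z5,z8]),(z2,[y10,z1,y3,z1,z1,z6])],.ref k6 k0 [(z4,[z28,z3,z14,z0,z7,y28]),(z2,[y4,z0,z1,
    z0,y1,z4]),(z4,[z4,z0,z2,z3,z1,y4]),(z2,[y10,z0,y5,z0,y1,z10]),(z4,[y20,y3,y16,y3,y8,z32])],.ref k6 k0 [(z16,[z28,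
    z5,z0,y7]),(z8,[y4,z1,z12,z1]),(z16,[z4,y1,z0,z11]),(z16,[y20,z5,z0,z5,z12]),(z16,[y20,y7,y24,y7,y12,z48])],
    .ref k6 k0 [(z2,[y14,z5,z0,z0,z7]),(z2,[z4,y1,z3,z0,y2]),(z4,[y4,z1,z0,z3,z2]),(z4,[z20,y5,z0,z0,y7]),(z4,[z20,y8,
    y6,y3,y13,z12])],.ref k6 k0 [(z4,[y28,z3,y14,y7,z0,z28]),(z2,[z4,z0,z5,z1,z0,y4]),(z2,[y2,z0,y1,z1,z0,z2]),(z4,
    [z20,z0,z10,z5,z3,y20]),(z4,[z20,y3,z4,z2,y3,y8])],.ref k6 k0 [(z8,[z28,y1,z0,z0,y7]),(z4,[y4,z1,z6,z0,z1]),(z8,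
    [z4,y1,z0,z6,y1]),(z8,[y20,z5,z0,z0,z11]),(z8,[y20,y1,y12,y6,y1,z24])],.ref k6 k0 [(z2,[y14,y2,y14,y7,y7,z28]),
    (z2,[z4,z1,z7,z2,z2,y8]),(z4,[y4,y1,y4,z1,y2,z8]),(z4,[z20,z5,z20,z10,z13,y40]),(z4,[z20,z2,z14,z7,z7,y28])],
    .ref k6 k0 [(z8,[z28,z6,z14,z7,z7,y28]),(z4,[y4,z0,z4,y1,y1,z4]),(z8,[z4,z0,z2,z7,z1,y4]),(z8,[y20,z0,y10,y5,z1,
    z20]),(z8,[y20,y6,y22,y11,y11,z44])],.ref k6 k0 [(z5,[z7,z2]),(z10,[y4,z1,z15]),(z20,[z4,y1,z0,z15]),(z4,[y4,z1,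
    z0,z0,z3]),(z4,[y4,y2,y6,y3,y3,z12])],.ref k6 k0 [(z8,[y14,y1,y7,y7,y7,z28]),(z4,[z2,z1,z7,z1,z1,y4]),(z8,[y2,y1,
    y1,z5,y1,z4]),(z8,[z10,z5,z5,z5,z11,y20]),(z8,[z10,y1,y7,y1,y1,z4])],.ref k6 k0 [(z4,[y28,y4,z0,y7,y7,z28]),(z2,
    [z4,z1,z3,z1,z1,y4]),(z4,[y4,y1,z0,z2,y1,z4]),(z4,[z20,z5,z0,z5,z8,y20]),(z2,[z10,z1,y3,z1,z1,y4])],
    .ref k6 k0 [(z4,[z14,z3,y7]),(z1,[y1,z0,z2]),(z4,[z2,z0,y1,z3]),(z4,[y10,z0,z5,z0,z3]),(z4,[y10,y3,y1,y3,y3,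
    z12])],.ref k6 k0 [(z12,[y28,z9,z0,z7,z14]),(z6,[z4,z0,z9,y1,y2]),(z6,[y2,z0,z0,z5,z1]),(z12,[z20,z0,z0,y5,y1]),
    (z12,[z20,y9,y18,y14,y19,z36])],.ref k6 k0 [(z20,[y28,z15,z0,z0,z21]),(z10,[z4,z0,z15,z0,y3]),(z20,[y4,z0,z0,z15,
    z3]),(z1,[z1]),(z4,[z4,y3,y6,y3,y6,z12])],.ref k6 k0 [(z20,[y28,y6,y42,y21,y21,z84]),(z10,[z4,z3,z21,z3,z3,y12]),
    (z20,[y4,y3,y6,z12,y3,z12]),(z4,[z4,z3,z6,z3,z6,y12]),(z1,[z1])],.ref k6 k0 [(z4,[y14,y4,y14,y7,y7,z28]),(z2,[z2,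
    z1,z5,z1,z1,y4]),(z4,[y2,y1,y2,z2,y1,z4]),(z4,[z10,z5,z10,z5,z8,y20]),(z2,[z5,z1,z2,z1,z1,y4])],.ref k6 k0 [(z4,
    [z28,z10,z14,z7,z7,y28]),(z2,[y4,y1,z1,y1,y1,z4]),(z4,[z4,z1,z2,z4,z1,y4]),(z4,[y20,y5,y10,y5,y2,z20]),(z1,[y5,y2,
    y4,y2,y2,z8])]],
    .lp [(nat_lit 296),(nat_lit 322),(nat_lit 306),(nat_lit 300),(nat_lit 356),(nat_lit 338)] [k30,k30,k17,k17,k25,k25,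
    k28,k28,k0,k0,k9,k9] k0 [[k0,k0,k16,k0,k0,k0,k0,k2,k0,k0,k30],[k0,k0,k6,k0,k0,k0,k0,k0,k0,k0,k2],[k0,k0,k0,k0,k0,
    k54,k0,k0,k0,k18],[k6,k16],[k0,k0,k0,k54],[k0,k0,k0,k0,k0,k0,k0,k0,k0,k0,k0,k2],[k0,k2],[k0,k0,k0,k0,k0,k0,k0,k0,
    k8,k24],[k0,k0,k0,k18,k0,k0,k24,k0,k0,k0,k0,k58],[k0,k0,k0,k0,k0,k0,k8,k0,k0,k0,k0,k18],[k0,k0,k0,k0,k2,k0,k0,k0,
    k18,k58],[k2,k30]] (nat_lit 960) k5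
    [[(k0,(nat_lit 266)),(k7,(nat_lit 298)),(k4,(nat_lit 303)),(k3,(nat_lit 307)),(k8,(nat_lit 344)),(k11,
    (nat_lit 375))],[(k1,(nat_lit 266)),(k5,(nat_lit 285)),(k6,(nat_lit 296)),(k2,(nat_lit 315)),(k10,(nat_lit 319)),
    (k9,(nat_lit 326))],[(k1,(nat_lit 307)),(k5,(nat_lit 308)),(k6,(nat_lit 311)),(k2,(nat_lit 338)),(k9,
    (nat_lit 341)),(k10,(nat_lit 360))],[(k4,(nat_lit 260)),(k7,(nat_lit 311)),(k0,(nat_lit 315)),(k8,(nat_lit 321)),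
    (k11,(nat_lit 330)),(k3,(nat_lit 338))],[(k0,(nat_lit 285)),(k4,(nat_lit 306)),(k3,(nat_lit 308)),(k8,
    (nat_lit 331)),(k11,(nat_lit 340)),(k7,(nat_lit 357))],[(k2,(nat_lit 260)),(k1,(nat_lit 303)),(k6,(nat_lit 303)),
    (k5,(nat_lit 306)),(k10,(nat_lit 322)),(k9,(nat_lit 331))],[(k1,(nat_lit 298)),(k6,(nat_lit 300)),(k2,
    (nat_lit 311)),(k10,(nat_lit 317)),(k9,(nat_lit 328)),(k5,(nat_lit 357))],[(k0,(nat_lit 296)),(k7,(nat_lit 300)),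
    (k4,(nat_lit 303)),(k3,(nat_lit 311)),(k8,(nat_lit 336)),(k11,(nat_lit 343))],[(k0,(nat_lit 326)),(k7,
    (nat_lit 328)),(k4,(nat_lit 331)),(k8,(nat_lit 332)),(k11,(nat_lit 339)),(k3,(nat_lit 341))],[(k10,(nat_lit 289)),
    (k2,(nat_lit 321)),(k5,(nat_lit 331)),(k9,(nat_lit 332)),(k6,(nat_lit 336)),(k1,(nat_lit 344))],[(k10,
    (nat_lit 320)),(k2,(nat_lit 330)),(k9,(nat_lit 339)),(k5,(nat_lit 340)),(k6,(nat_lit 343)),(k1,(nat_lit 375))],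
    [(k8,(nat_lit 289)),(k7,(nat_lit 317)),(k0,(nat_lit 319)),(k11,(nat_lit 320)),(k4,(nat_lit 322)),(k3,
    (nat_lit 360))]]
    [] k0
    [[k3,k0,k0,k0,k0,k0],[k2,k1,k0,k0,k0,k0],[k2,k0,k1,k0,k0,k0],[k2,k0,k0,k1,k0,k0],[k2,k0,k0,k0,k1,k0],[k1,k1,k1,k0,
    k0,k0],[k1,k1,k0,k1,k0,k0],[k1,k1,k0,k0,k1,k0],[k1,k1,k0,k0,k0,k1],[k1,k0,k2,k0,k0,k0],[k1,k0,k1,k1,k0,k0],[k1,k0,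
    k0,k2,k0,k0],[k0,k2,k1,k0,k0,k0],[k0,k1,k2,k0,k0,k0],[k0,k1,k1,k1,k0,k0],[k0,k1,k0,k2,k0,k0],[k0,k1,k0,k1,k0,k1],
    [k0,k1,k1,k0,k1,k0],[k0,k0,k3,k0,k0,k0],[k0,k0,k0,k3,k0,k0],[k0,k0,k0,k0,k1,k2]]
    [.ref k6 k0 [(z1,[z1]),(z1,[z1,y1,z1]),(z1,[y1,z1,z0,z3]),(z2,[y3,z3,z0,z0,z2]),(z2,[z1,y1])],.ref k6 k0 [(z3,[z3,
    z1,y1]),(z3,[z3,y2,z2]),(z3,[y3,z2,z1,z9]),(z2,[y3,z2,z1,z0,z2]),(z6,[z3,y2,y1])],.ref k6 k0 [(z1,[z3,y1,z0,y3]),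
    (z1,[z3,y2,z1,y3]),(z1,[y3,z2,z0,z6]),(z2,[y9,z6,z0,z9,z2]),(z2,[z3,y2,z0,y3])],.ref k6 k0 [(z1,[z6,y3,z0,z0,y2]),
    (z1,[z6,y4,z1,z0,y2]),(z1,[y6,z4,z0,z3,z2]),(z1,[y9,z6,z0,z0,z4]),(z1,[z3,y2,z0,z0,y1])],.ref k6 k0 [(z5,[z6,z1]),
    (z5,[z6,y4,z5]),(z5,[y6,z4,z0,z15]),(z5,[y9,z6,z0,z0,z5]),(z5,[z3,y2])],.ref k6 k0 [(z1,[z3,z0,y1,y3]),(z1,[z3,y1,
    z0,y3]),(z1,[y3,z1,z1,z6]),(z2,[y9,z3,z3,z9,z2]),(z2,[z3,y1,y1,y3])],.ref k6 k0 [(z1,[z6,y1,y2,z0,y2]),(z1,[z6,y2,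
    y1,z0,y2]),(z1,[y6,z2,z2,z3,z2]),(z1,[y9,z3,z3,z0,z4]),(z1,[z3,y1,y1,z0,y1])],.ref k6 k0 [(z5,[z6,z3,y2]),(z5,[z6,
    y2,z3]),(z5,[y6,z2,z2,z15]),(z5,[y9,z3,z3,z0,z5]),(z5,[z3,y1,y1])],.ref k6 k0 [(z2,[z3,z2,z0,z3,z1,y3]),(z2,[z3,
    z0,z2,z3,z1,y3]),(z2,[y3,z0,z0,z3,y1,z3]),(z4,[y9,z0,z0,y9,z1,z9]),(z4,[z3,z0,z0,z3,z1,y3])],.ref k6 k0 [(z1,[y3,
    z2,z0,z6]),(z1,[y3,z1,z1,z6]),(z1,[z3,y1,z0,y3]),(z2,[z9,y3,z0,y18,z2]),(z2,[y3,z1,z0,z6])],.ref k6 k0 [(z3,[y6,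
    z5,z0,z6,z2]),(z3,[y6,z2,z3,z6,z2]),(z3,[z6,y2,z0,z3,y2]),(z1,[z3,y1,z0,y3]),(z3,[y3,z1,z0,z3,z1])],
    .ref k6 k0 [(z2,[y3,z3,z0,z0,z2]),(z2,[y3,z1,z2,z0,z2]),(z2,[z3,y1,z0,z6,y2]),(z4,[z9,y3,z0,z0,y2]),(z4,[y3,z1,z0,
    z0,z2])],.ref k6 k0 [(z1,[z3,z1,y2,y3]),(z1,[z3,z0,y1,y3]),(z1,[y3,z0,z2,z6]),(z2,[y9,z0,z6,z9,z2]),(z2,[z3,z0,y2,
    y3])],.ref k6 k0 [(z1,[y3,z1,z1,z6]),(z1,[y3,z0,z2,z6]),(z1,[z3,z0,y1,y3]),(z2,[z9,z0,y3,y18,z2]),(z2,[y3,z0,z1,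
    z6])],.ref k6 k0 [(z3,[y6,z3,z2,z6,z2]),(z3,[y6,z0,z5,z6,z2]),(z3,[z6,z0,y2,z3,y2]),(z1,[z3,z0,y1,y3]),(z3,[y3,z0,
    z1,z3,z1])],.ref k6 k0 [(z2,[y3,z2,z1,z0,z2]),(z2,[y3,z0,z3,z0,z2]),(z2,[z3,z0,y1,z6,y2]),(z4,[z9,z0,y3,z0,y2]),
    (z4,[y3,z0,z1,z0,z2])],.ref k6 k0 [(z1,[y6,y1,z0,y6,z0,z6]),(z1,[y6,y2,z1,y6,z0,z6]),(z1,[z6,z2,z0,z9,z0,y6]),(z1,
    [z9,z3,z0,z9,z1,y9]),(z1,[y3,y1,z0,y3,z0,z3])],.ref k6 k0 [(z1,[z6,z1,y2,y6]),(z1,[z6,z0,y1,y6]),(z1,[y6,z0,z2,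
    z9]),(z1,[y9,z0,z3,z9,z1]),(z1,[z3,z0,y1,y3])],.ref k6 k0 [(z1,[y1,z1,z0,z3]),(z1,[y1,z0,z1,z3]),(z1,[z1]),(z2,
    [z3,z0,z0,y9,z2]),(z2,[y1,z0,z0,z3])],.ref k6 k0 [(z3,[y2,z3,z0,z0,z2]),(z3,[y2,z0,z3,z0,z2]),(z3,[z2,z0,z0,z9,
    y2]),(z1,[z1]),(z3,[y1,z0,z0,z0,z1])],.ref k6 k0 [(z1,[z6,z5,z4,z12,z4,y12]),(z1,[z6,z4,z5,z12,z4,y12]),(z1,[y6,
    y4,y4,y9,y4,z12]),(z1,[y9,y6,y6,y18,y5,z18]),(z1,[z3,z2,z2,z6,z2,y6])]],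
    .lp [k166,k150,k160,k170,k166,k146] [k2,k2,k10,k10,k5,k5,k0,k0,k2,k2,k12,k12] k0 [[k0,k0,k12,k12,k0,k0,k0,k24],[k0,k0,
    k0,k0,k0,k0,k0,k2,k0,k0,k22],[k0,k12,k0,k0,k0,k0,k0,k0,k6,k8],[k0,k12,k0,k0,k16],[k0,k0,k0,k0,k0,k0,k0,k4],[k0,k0,
    k16,k0,k0,k0,k0,k0,k0,k0,k20],[k2,k24,k0,k0,k0,k4],[k0,k0,k0,k0,k0,k0,k0,k0,k0,k18],[k0,k0,k0,k8,k0,k0,k18],[k0,
    k0,k0,k6],[],[k22,k0,k0,k0,k20]] (nat_lit 480) k5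
    [[(k3,k136),(k7,k148),(k11,k156),(k4,k163),(k0,k166),(k8,k166)],[(k6,k144),(k2,k146),(k5,k151),(k1,k166),(k9,
    k168),(k10,k178)],[(k1,k136),(k10,k148),(k6,k158),(k2,k162),(k5,k167),(k9,k182)],[(k11,k142),(k0,k146),(k8,k150),
    (k7,k160),(k3,k162),(k4,k171)],[(k7,k149),(k0,k151),(k4,k160),(k11,k161),(k3,k167),(k8,k169)],[(k5,k160),(k6,
    k161),(k1,k163),(k9,k163),(k2,k171),(k10,k173)],[(k1,k148),(k5,k149),(k10,k158),(k2,k160),(k6,k170),(k9,k172)],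
    [(k0,k144),(k3,k158),(k4,k161),(k8,k168),(k7,k170),(k11,k176)],[(k8,k148),(k11,k156),(k4,k163),(k0,k168),(k7,
    k172),(k3,k182)],[(k9,k148),(k2,k150),(k10,k156),(k1,k166),(k6,k168),(k5,k169)],[(k2,k142),(k10,k146),(k1,k156),
    (k9,k156),(k5,k161),(k6,k176)],[(k11,k146),(k3,k148),(k8,k156),(k7,k158),(k4,k173),(k0,k178)]]
    [] k0
    [[k2,k1,k0,k0,k0,k0],[k2,k0,k0,k1,k0,k0],[k1,k2,k0,k0,k0,k0],[k1,k1,k1,k0,k0,k0],[k1,k1,k0,k1,k0,k0],[k1,k1,k0,k0,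
    k1,k0],[k1,k1,k0,k0,k0,k1],[k1,k0,k2,k0,k0,k0],[k1,k0,k1,k1,k0,k0],[k1,k0,k0,k2,k0,k0],[k1,k0,k0,k1,k0,k1],[k0,k2,
    k0,k0,k0,k1],[k0,k1,k1,k1,k0,k0],[k0,k1,k0,k1,k0,k1],[k0,k1,k0,k0,k1,k1],[k0,k1,k0,k0,k0,k2],[k0,k0,k2,k1,k0,k0],
    [k0,k0,k0,k0,k3,k0],[k0,k0,k0,k0,k2,k1],[k0,k0,k0,k0,k1,k2],[k0,k0,k0,k0,k0,k3]]
    [.ref k121 k7 [(z1,[y1,z2,z1]),(z1,[z1,z1,y1]),(z1,[z1,y2,z2]),(z1,[z0,z0,z0,z1])],.ref k16 k7 [(z1,[y1,z1,y1,y1,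
    z1]),(z1,[z1,z0,z1,z1,y1]),(z1,[z1,y1,z2,z1,y1]),(z1,[z0,z0,z0,z1])],.ref k121 k7 [(z1,[y1,z1,z2]),(z1,[z1,z2,
    y2]),(z1,[z1,y1,z1]),(z1,[z0,z0,z0,z1])],.ref k16 k7 [(z2,[y1,z1,z1,z1]),(z2,[z1,z1,y1,y1]),(z2,[z1,y1,z1,y1]),
    (z1,[z0,z0,z0,z1])],.ref k16 k7 [(z1,[y1,z0,z0,y1,z1]),(z1,[z1,z1,z0,z1,y1]),(z1,[z1,z0,z1,z1,y1]),(z1,[z0,z0,z0,
    z1])],.ref k37 k4 [(z1,[z2,z2,z2,z5,y4]),(z1,[z1,z0,z1,z1,y1]),(z1,[z1,z1,z0,z1,y1]),(z1,[y3,y2,y2,y5,z5])],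
    .ref k8 k7 [(z1,[y1,z1,z1]),(z1,[z1,z0,y1]),(z1,[z1,y1]),(z1,[z0,z0,z0,z1])],.ref k116 k5 [(z1,[y2,z0,y2,y3,z2]),
    (z1,[z0,z0,z0,z1]),(z1,[y1,z1,z0,z1]),(z1,[z1])],.ref k26 k9 [(z1,[z1,y1,z0,y1]),(z1,[z2,z0,z2,z3,y2]),(z1,[y2,z0,
    z1,z0,z2]),(z1,[y2,z3,y2,z0,z2])],.ref k8 k7 [(z1,[z1,z1,z2,z2,y2]),(z1,[y1,z0,y2,y2,z2]),(z1,[y1,y1,y1,y2,z2]),
    (z1,[z0,z0,z0,z1])],.ref k16 k7 [(z1,[z1,z0,z1,z1,y1]),(z1,[y1,z1,y1,y1,z1]),(z1,[y1,z0,z0,y1,z1]),(z1,[z0,z0,z0,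
    z1])],.ref k8 k7 [(z1,[y1,z0,z2]),(z1,[z1,z1,y2]),(z1,[z1,z0,y1]),(z1,[z0,z0,z0,z1])],.ref k26 k9 [(z1,[z1,z0,y1,
    y1]),(z1,[z2,z2,z0,z3,y2]),(z1,[y2,y2,z3,z0,z2]),(z1,[y2,z1,z0,z0,z2])],.ref k16 k7 [(z1,[z1,z1,z0,z1,y1]),(z1,
    [y1,z0,z0,y1,z1]),(z1,[y1,y1,z1,y1,z1]),(z1,[z0,z0,z0,z1])],.ref k26 k9 [(z1,[y1,y1,z0,y1,z1]),(z1,[y2,z0,z2,z3]),
    (z1,[z2,z0,z1]),(z1,[z2,z3,y2])],.ref k116 k5 [(z1,[z2,y2,y4,y7,z2]),(z1,[z0,z0,z0,z1]),(z1,[z1,z0,y1,y1]),(z1,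
    [y1,z1,z1,z2])],.ref k141 k7 [(z1,[z1,z1,z1,y1,y1]),(z1,[y1,z0,y1,z1,z1]),(z1,[y1,y1,z0,z1,z1]),(z1,[z0,z0,z0,
    z1])],.ref k26 k9 [(z1,[y1,y1,y1,y1,z1]),(z1,[y2,z0,z0,z3]),(z1,[z2,z0,z3]),(z1,[z2,z3])],.ref k116 k5 [(z1,[z2,
    y2,y2,y7,z2]),(z1,[z0,z0,z0,z1]),(z1,[z1,z0,z0,y1]),(z1,[y1,z1,z0,z2])],.ref k142 k5 [(z1,[z2,y4,y4,y11,z4]),(z1,
    [z0,z0,z0,z1]),(z1,[z2,z0,z0,y1]),(z1,[y2,z4,z0,z5])],.ref k143 k0 [(z1,[y1,z3]),(z1,[y1,z0,z3]),(z1,[z0,z0,z0,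
    z1]),(z1,[z1,y3,y3,y3,z3])]],
    .lp [k160,k136,k176,k156,k162,k168] [k8,k8,k20,k20,k0,k0,k10,k10,k7,k7,k4,k4] k0 [[k0,k0,k48,k0,k0,k0,k4,k26],[k0,k0,
    k8,k0,k0,k0,k0,k0,k0,k0,k8],[k0,k0,k0,k0,k0,k0,k0,k0,k6],[k8,k48],[k0,k0,k0,k0,k0,k0,k0,k28,k0,k0,k20],[k0,k0,k0,
    k0,k0,k0,k0,k22,k0,k0,k14],[k0,k26,k0,k0,k22,k28],[k0,k4,k0,k0,k0,k0,k0,k0,k0,k2],[k0,k0,k0,k0,k0,k0,k2,k0,k0,k0,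
    k0,k10],[k0,k0,k0,k6,k0,k0,k0,k0,k0,k0,k0,k8],[k0,k0,k0,k0,k0,k0,k0,k0,k8,k10],[k8,k0,k0,k0,k14,
    k20]] (nat_lit 480) k5
    [[(k3,k140),(k7,k144),(k4,k148),(k0,k160),(k8,k169),(k11,k174)],[(k5,k120),(k6,k132),(k2,k156),(k9,k157),(k1,
    k160),(k10,k172)],[(k1,k140),(k5,k148),(k6,k150),(k10,k152),(k9,k175),(k2,k184)],[(k7,k146),(k11,k146),(k8,k149),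
    (k0,k156),(k4,k156),(k3,k184)],[(k0,k120),(k3,k148),(k7,k166),(k11,k172),(k8,k175),(k4,k176)],[(k6,k138),(k1,
    k148),(k2,k156),(k5,k176),(k10,k186),(k9,k191)],[(k6,k134),(k1,k144),(k2,k146),(k5,k166),(k10,k182),(k9,k187)],
    [(k0,k132),(k7,k134),(k4,k138),(k3,k150),(k8,k159),(k11,k164)],[(k0,k157),(k8,k160),(k11,k165),(k3,k175),(k7,
    k187),(k4,k191)],[(k2,k149),(k10,k155),(k6,k159),(k9,k160),(k1,k169),(k5,k175)],[(k2,k146),(k10,k160),(k6,k164),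
    (k9,k165),(k5,k172),(k1,k174)],[(k3,k152),(k8,k155),(k11,k160),(k0,k172),(k7,k182),(k4,k186)]]
    [] k0
    [[k2,k1,k0,k0,k0,k0],[k2,k0,k1,k0,k0,k0],[k2,k0,k0,k1,k0,k0],[k1,k1,k1,k0,k0,k0],[k1,k1,k0,k1,k0,k0],[k1,k1,k0,k0,
    k1,k0],[k1,k1,k0,k0,k0,k1],[k1,k0,k2,k0,k0,k0],[k1,k0,k1,k1,k0,k0],[k1,k0,k0,k2,k0,k0],[k1,k0,k0,k1,k1,k0],[k0,k1,
    k1,k1,k0,k0],[k0,k1,k0,k2,k0,k0],[k0,k1,k0,k1,k0,k1],[k0,k1,k0,k0,k1,k1],[k0,k1,k0,k0,k0,k2],[k0,k0,k1,k2,k0,k0],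
    [k0,k0,k0,k3,k0,k0]]
    [.ref k6 k0 [(z5,[z6,z1,y6]),(z5,[z3,y2,z12]),(z5,[y6,z4,z6,z15]),(z5,[y6,z4,z6,z0,z15]),(z5,[z3,y2,y3])],
    .ref k6 k0 [(z1,[z3,y1,z0,y3]),(z2,[z3,y2,z6,y3]),(z1,[y3,z2,z0,z6]),(z1,[y3,z2,z0,z3,z3]),(z2,[z3,y2,z0,y3])],
    .ref k6 k0 [(z1,[z3,y1,z0,z0,y3]),(z2,[z3,y2,z6,z0,y3]),(z1,[y3,z2,z0,z3,z3]),(z1,[y3,z2,z0,z0,z6]),(z2,[z3,y2,z0,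
    z0,y3])],.ref k6 k0 [(z1,[z6,y1,y6,y6]),(z1,[z3,y1,z0,y3]),(z1,[y6,z2,z6,z9]),(z1,[y6,z2,z6,z6,z3]),(z1,[z3,y1,y3,
    y3])],.ref k6 k0 [(z1,[z6,y1,y6,z0,y6]),(z1,[z3,y1,z0,z0,y3]),(z1,[y6,z2,z6,z3,z6]),(z1,[y6,z2,z6,z0,z9]),(z1,[z3,
    y1,y3,z0,y3])],.ref k6 k0 [(z2,[z3,z1,y3]),(z4,[z3,y1,z9]),(z2,[y3,z1,z3,z6]),(z2,[y3,z1,z3,z0,z6]),(z4,[z3,y1,
    y3])],.ref k6 k0 [(z1,[z2,z1,z0,z2,z2,y2]),(z1,[z1,z0,z3,z1,z1,y1]),(z1,[y2,z0,z0,z1,y2,z2]),(z1,[y2,z0,z0,y2,z1,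
    z2]),(z1,[z1,z0,z0,z1,z1,y1])],.ref k6 k0 [(z1,[y3,z2,z0,z6]),(z2,[y3,z1,z6,z6]),(z1,[z3,y1,z0,y3]),(z1,[z3,y1,z0,
    y6,z3]),(z2,[y3,z1,z0,z6])],.ref k6 k0 [(z1,[y3,z2,z0,z3,z3]),(z2,[y3,z1,z6,z3,z3]),(z1,[z3,y1,z0,z0,y3]),(z1,[z3,
    y1,z0,y3]),(z2,[y3,z1,z0,z3,z3])],.ref k6 k0 [(z1,[y3,z2,z0,z0,z6]),(z2,[y3,z1,z6,z0,z6]),(z1,[z3,y1,z0,z3,y6]),
    (z1,[z3,y1,z0,z0,y3]),(z2,[y3,z1,z0,z0,z6])],.ref k6 k0 [(z1,[z6,y1,z0,z0,y6]),(z1,[z3,y1,z3,z0,y3]),(z1,[y6,z2,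
    z0,z3,z6]),(z1,[y6,z2,z0,z0,z9]),(z1,[z3,y1,z0,z0,y3])],.ref k6 k0 [(z1,[y2,z1,z2,z2,z2]),(z1,[y1,z0,z4,z1,z1]),
    (z1,[z2,z0,y2,z1,y2]),(z1,[z2,z0,y2,y2,z1]),(z1,[y1,z0,z1,z1,z1])],.ref k6 k0 [(z1,[y2,z1,z2,z0,z4]),(z1,[y1,z0,
    z4,z0,z2]),(z1,[z2,z0,y2,z3,y4]),(z1,[z2,z0,y2,z0,y1]),(z1,[y1,z0,z1,z0,z2])],.ref k6 k0 [(z1,[y6,y1,z0,y6,z0,
    z6]),(z1,[y3,y1,z3,y3,z0,z3]),(z1,[z6,z2,z0,z9,z0,y6]),(z1,[z6,z2,z0,z6,z3,y6]),(z1,[y3,y1,z0,y3,z0,z3])],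
    .ref k6 k0 [(z1,[z3,z2,z0,z3,z3,y3]),(z2,[z3,z1,z6,z3,z3,y3]),(z1,[y3,y1,z0,z0,y3,z3]),(z1,[y3,y1,z0,y3,z0,z3]),
    (z2,[z3,z1,z0,z3,z3,y3])],.ref k6 k0 [(z1,[z6,z5,z6,z12,z12,y12]),(z1,[z3,z2,z6,z6,z6,y6]),(z1,[y6,y4,y6,y9,y12,
    z12]),(z1,[y6,y4,y6,y12,y9,z12]),(z1,[z3,z2,z3,z6,z6,y6])],.ref k6 k0 [(z1,[y1,z1,z0,z1,z2]),(z2,[y1,z0,z6,z1,
    z2]),(z1,[z1,z0,z0,z2,y2]),(z1,[z1,z0,z0,y1,z1]),(z2,[y1,z0,z0,z1,z2])],.ref k6 k0 [(z1,[y1,z1,z0,z0,z3]),(z2,[y1,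
    z0,z6,z0,z3]),(z1,[z1,z0,z0,z3,y3]),(z1,[z1]),(z2,[y1,z0,z0,z0,z3])]],
    .lp [k146,k152,k160,k156,k172,k172] [k13,k13,k10,k10,k6,k6,k8,k8,k0,k0,k0,k0] k0 [[k0,k0,k32,k0,k0,k0,k0,k14],[k0,k0,
    k0,k0,k0,k0,k0,k0,k0,k0,k2],[k0,k0,k0,k0,k12,k4,k0,k0,k2],[k0,k32],[k0,k0,k0,k4,k0,k0,k4],[k0,k0,k0,k12,k0,k0,k0,
    k0,k0,k0,k14],[k0,k14,k0,k0,k0,k0,k0,k0,k0,k2],[k0,k0,k0,k0,k0,k4,k0,k0,k0,k18],[k0,k0,k0,k0,k0,k0,k18,k2,k0,k0,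
    k0,k20],[k0,k0,k0,k2,k0,k0,k0,k0,k0,k0,k0,k38],[k0,k0,k0,k0,k0,k0,k0,k0,k38,k20],[k2,k0,k0,k0,
    k14]] (nat_lit 480) k5
    [[(k7,k137),(k0,k146),(k3,k147),(k4,k153),(k11,k179),(k8,k197)],[(k5,k121),(k6,k137),(k1,k146),(k2,k149),(k9,
    k159),(k10,k161)],[(k1,k147),(k6,k154),(k5,k156),(k10,k162),(k9,k176),(k2,k184)],[(k7,k142),(k0,k149),(k4,k152),
    (k11,k160),(k8,k162),(k3,k184)],[(k0,k121),(k3,k156),(k7,k162),(k11,k166),(k8,k168),(k4,k172)],[(k2,k152),(k1,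
    k153),(k6,k158),(k9,k162),(k5,k172),(k10,k180)],[(k1,k137),(k2,k142),(k6,k160),(k5,k162),(k9,k164),(k10,k164)],
    [(k0,k137),(k3,k154),(k4,k158),(k7,k160),(k8,k162),(k11,k182)],[(k8,k154),(k0,k159),(k4,k162),(k7,k164),(k11,
    k174),(k3,k176)],[(k10,k152),(k9,k154),(k2,k162),(k6,k162),(k5,k168),(k1,k197)],[(k10,k134),(k2,k160),(k5,k166),
    (k9,k174),(k1,k179),(k6,k182)],[(k11,k134),(k8,k152),(k0,k161),(k3,k162),(k7,k164),(k4,k180)]]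
    [] k0
    [[k3,k0,k0,k0,k0,k0],[k2,k1,k0,k0,k0,k0],[k2,k0,k1,k0,k0,k0],[k2,k0,k0,k1,k0,k0],[k1,k1,k1,k0,k0,k0],[k1,k1,k0,k1,
    k0,k0],[k1,k1,k0,k0,k1,k0],[k1,k1,k0,k0,k0,k1],[k1,k0,k2,k0,k0,k0],[k1,k0,k1,k1,k0,k0],[k1,k0,k0,k2,k0,k0],[k1,k0,
    k0,k1,k1,k0],[k1,k0,k0,k0,k0,k2],[k0,k1,k1,k1,k0,k0],[k0,k1,k0,k2,k0,k0],[k0,k1,k0,k1,k0,k1],[k0,k1,k0,k0,k0,k2],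
    [k0,k0,k0,k0,k3,k0],[k0,k0,k0,k0,k1,k2],[k0,k0,k0,k0,k0,k3]]
    [.ref k145 k11 [(z1,[y1,z3,y6]),(z1,[z0,z0,y1]),(z1,[z0,y1,z1,y1,z1]),(z1,[z0,z0,z2,z1])],.ref k116 k7 [(z1,[y1,
    z2,z1]),(z1,[z1,z0,y1]),(z1,[z0,z0,z1]),(z1,[z0,z0,z0,z1])],.ref k16 k7 [(z2,[y1,z2,z0,z1]),(z2,[z1,z0,z0,y1]),
    (z1,[z0,z0,z1]),(z1,[z0,z0,z0,z1])],.ref k16 k7 [(z2,[y1,z1,y1,y1,z1]),(z2,[z1,z1,z1,z1,y1]),(z1,[z0,z0,z1]),(z1,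
    [z0,z0,z0,z1])],.ref k16 k7 [(z1,[y1,z1,z1,z1]),(z1,[z1,z0,y1,y1]),(z1,[z0,z0,z1]),(z1,[z0,z0,z0,z1])],
    .ref k16 k7 [(z1,[y1,z0,z0,y1,z1]),(z1,[z1,z1,z0,z1,y1]),(z1,[z0,z0,z1]),(z1,[z0,z0,z0,z1])],.ref k9 k7 [(z1,[y1,
    z1,z1]),(z1,[z1,z0,y1]),(z1,[z0,z0,z1]),(z1,[z0,z0,z0,z1])],.ref k43 k2 [(z1,[z1,y1,z2]),(z1,[y2,z2,z2,z3]),(z1,
    [y2,y1,y1,y3,z3]),(z1,[z1,y1,y1])],.ref k9 k3 [(z1,[z1,z0,y4,y2]),(z1,[y1,z1,z2,z2]),(z1,[z0,z0,y1]),(z1,[z0,y1,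
    z1,y1,z1])],.ref k9 k3 [(z1,[z1,z1,y3,z0,y1]),(z1,[y1,z0,z1,z0,z1]),(z1,[z0,z0,y1]),(z1,[z0,y1,z1,y1,z1])],
    .ref k9 k3 [(z1,[z1,z2,y2,z2,y2]),(z1,[y1,y1,z0,y2,z2]),(z1,[z0,z0,y1]),(z1,[z0,y1,z1,y1,z1])],.ref k16 k7 [(z1,
    [y1,z0,y1,y1,z1]),(z1,[z1,z1,z1,z1,y1]),(z1,[z0,z0,z1]),(z1,[z0,z0,z0,z1])],.ref k9 k3 [(z1,[y1,z2,y4]),(z1,[z1,
    y1,z2]),(z1,[z0,z0,y1]),(z1,[z0,y1,z1,y1,z1])],.ref k43 k2 [(z1,[y1,y1,z3,z0,z1]),(z1,[z2,z2,z0,z3,y2]),(z1,[z2,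
    y1,y3,y3,z1]),(z1,[y1,y1,z0,z0,z1])],.ref k43 k2 [(z1,[y1,y2,z2,y2,z2]),(z1,[z2,z4,z2,z7,y4]),(z1,[z2,z1,y1,z1,
    y1]),(z1,[y1,y2,y1,y2,z2])],.ref k16 k7 [(z1,[z1,z1,z0,z1,y1]),(z1,[y1,z0,z0,y1,z1]),(z1,[z0,z0,z1]),(z1,[z0,z0,
    z0,z1])],.ref k116 k3 [(z1,[y1,z2,y4]),(z1,[z1]),(z1,[z0,z0,y1]),(z1,[z0,y1,z1,y1,z1])],.ref k43 k2 [(z1,[z1,z0,
    z3]),(z1,[y2,z0,z0,z3]),(z1,[y2,y3,y3,y3,z3]),(z1,[z1])],.ref k116 k3 [(z1,[y1,z2,y5]),(z1,[z1,z0,z1]),(z1,[z0,z0,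
    y1]),(z1,[z0,y1,z1,y1,z1])],.ref k145 k0 [(z1,[y1,z3]),(z1,[z0,z0,z1]),(z1,[z0,z0,z0,z1]),(z1,[z0,y1,y1,y1,z1])]],
    .lp [(nat_lit 458),(nat_lit 460),(nat_lit 454),(nat_lit 460),(nat_lit 514),(nat_lit 522)] [k48,k48,k47,k47,k50,k50,
    k47,k47,k40,k0,k16,k16] k0 [[k0,k0,k96,k0,k0,k0,k36,k78],[k0,k0,k0,k0,k0,k0,k0,k0,k0,k0,k34,k26],[k0,k0,k0,k0,k72,
    k0,k0,k0,k0,k30],[k0,k96],[k0,k0,k0,k0,k0,k0,k144,k0,k0,k0,k58],[k0,k0,k0,k72,k0,k0,k0,k0,k0,k0,k4],[k0,k78,k0,k0,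
    k0,k0,k0,k0,k102],[k0,k36,k0,k0,k0,k144],[k0,k0,k0,k30,k0,k0,k0,k0,k0,k0,k0,k98],[k0,k0,k0,k0,k0,k0,k0,k102,k0,k0,
    k0,k20],[k26,k0,k0,k0,k0,k0,k0,k0,k20,k98],[k34,k0,k0,k0,k4,k58]] (nat_lit 1440) k5
    [[(k4,(nat_lit 398)),(k3,(nat_lit 425)),(k7,(nat_lit 455)),(k0,(nat_lit 484)),(k8,(nat_lit 486)),(k11,
    (nat_lit 588))],[(k5,(nat_lit 360)),(k6,(nat_lit 381)),(k2,(nat_lit 459)),(k9,(nat_lit 470)),(k1,(nat_lit 484)),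
    (k10,(nat_lit 524))],[(k1,(nat_lit 425)),(k5,(nat_lit 457)),(k10,(nat_lit 465)),(k6,(nat_lit 496)),(k2,
    (nat_lit 556)),(k9,(nat_lit 585))],[(k7,(nat_lit 388)),(k8,(nat_lit 437)),(k4,(nat_lit 457)),(k0,(nat_lit 459)),
    (k11,(nat_lit 491)),(k3,(nat_lit 556))],[(k0,(nat_lit 360)),(k3,(nat_lit 457)),(k7,(nat_lit 457)),(k8,
    (nat_lit 464)),(k11,(nat_lit 518)),(k4,(nat_lit 526))],[(k9,(nat_lit 360)),(k1,(nat_lit 398)),(k2,(nat_lit 457)),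
    (k6,(nat_lit 457)),(k10,(nat_lit 492)),(k5,(nat_lit 526))],[(k2,(nat_lit 388)),(k1,(nat_lit 455)),(k5,
    (nat_lit 457)),(k9,(nat_lit 507)),(k10,(nat_lit 549)),(k6,(nat_lit 604))],[(k0,(nat_lit 381)),(k11,(nat_lit 389)),
    (k4,(nat_lit 457)),(k8,(nat_lit 467)),(k3,(nat_lit 496)),(k7,(nat_lit 604))],[(k4,(nat_lit 360)),(k0,
    (nat_lit 470)),(k7,(nat_lit 507)),(k11,(nat_lit 538)),(k3,(nat_lit 585)),(k8,(nat_lit 616))],[(k10,(nat_lit 400)),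
    (k2,(nat_lit 437)),(k5,(nat_lit 464)),(k6,(nat_lit 467)),(k1,(nat_lit 486)),(k9,(nat_lit 616))],[(k6,
    (nat_lit 389)),(k2,(nat_lit 491)),(k10,(nat_lit 502)),(k5,(nat_lit 518)),(k9,(nat_lit 538)),(k1,(nat_lit 588))],
    [(k8,(nat_lit 400)),(k3,(nat_lit 465)),(k4,(nat_lit 492)),(k11,(nat_lit 502)),(k0,(nat_lit 524)),(k7,
    (nat_lit 549))]]
    [] k0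
    [[k2,k1,k0,k0,k0,k0],[k2,k0,k1,k0,k0,k0],[k2,k0,k0,k1,k0,k0],[k1,k1,k1,k0,k0,k0],[k1,k1,k0,k1,k0,k0],[k1,k1,k0,k0,
    k1,k0],[k1,k0,k2,k0,k0,k0],[k1,k0,k1,k1,k0,k0],[k1,k0,k1,k0,k1,k0],[k1,k0,k0,k1,k1,k0],[k1,k0,k0,k1,k0,k1],[k0,k1,
    k1,k1,k0,k0],[k0,k1,k1,k0,k1,k0],[k0,k1,k0,k1,k0,k1],[k0,k0,k2,k0,k1,k0],[k0,k0,k1,k1,k1,k0],[k0,k0,k1,k1,k0,k1],
    [k0,k0,k1,k0,k1,k1],[k0,k0,k0,k1,k1,k1]]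
    [.ref k128 k0 [(z1,[z0,z1]),(z1,[z1,y2]),(z1,[z0,y1,y1,z1])],.ref k3 k7 [(z2,[y1,z1,y1,z1]),(z2,[z1,z1,z1,y1]),
    (z1,[z0,z0,z1])],.ref k135 k0 [(z1,[z0,z1]),(z1,[y1,z2,z1]),(z1,[z0,y1,y1,z1])],.ref k136 k0 [(z1,[z0,z1]),(z1,
    [z1,z0,z1,y1]),(z1,[z0,y1,y1,z1])],.ref k3 k7 [(z1,[y1,z1,z1]),(z1,[z1,z0,y1]),(z1,[z0,z0,z1])],.ref k33 k1 [(z1,
    [y2,y1,y1,z1]),(z1,[y1,z0,z1]),(z1,[z1])],.ref k118 k11 [(z1,[y1,z0,y2,z2]),(z1,[y1,y2,y2,z2]),(z1,[z1,z2,z6,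
    y2])],.ref k140 k0 [(z1,[z0,z1]),(z1,[y1,z0,z0,z1]),(z1,[z0,y1,y1,z1])],.ref k3 k7 [(z1,[y1,z0,y1,z1]),(z1,[z1,z1,
    z1,y1]),(z1,[z0,z0,z1])],.ref k144 k0 [(z1,[z0,z1]),(z1,[y1,z1,z1]),(z1,[z0,y1,y1,z1])],.ref k146 k0 [(z1,[z0,
    z1]),(z1,[y1,z1,z1]),(z1,[z0,y1,y1,z1])],.ref k41 k1 [(z1,[z2,y1,y3,z1]),(z1,[z1,z1,z3,y1]),(z1,[y1,y1,z0,z1])],
    .ref k146 k0 [(z1,[z0,z1]),(z1,[z1,z1,z1,y1]),(z1,[z0,y1,y1,z1])],.ref k3 k7 [(z1,[z1,z0,y1]),(z1,[y1,z1,z1]),(z1,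
    [z0,z0,z1])],.ref k41 k1 [(z1,[z2,z1,z1,y1]),(z1,[z1,z2,z5,y2]),(z1,[y1,y2,y2,z2])],.ref k20 k0 [(z1,[z0,z1]),(z1,
    [y1,y1,z0,z1]),(z1,[z0,y1,y1,z1])],.ref k33 k1 [(z1,[z2,y1,y1,y1]),(z1,[z1,z0,z1,y1]),(z1,[y1,z0,z0,z1])],
    .ref k3 k7 [(z1,[z1,z1,z1,y1]),(z1,[y1,z0,y1,z1]),(z1,[z0,z0,z1])],.ref k136 k0 [(z1,[z0,z1]),(z1,[y1,z0,z1]),(z1,
    [z0,y1,y1,z1])]],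
    .leafM k6 [k2,k3,k4,k5,k0,k1] [(z1,[z1,z1])] [],
    .leafM k6 [k1,k2,k3,k4,k5,k0] [(z2,[z0,y1,y2,y1,z2])] [],
    .lp [(nat_lit 328),(nat_lit 286),(nat_lit 328),(nat_lit 330),(nat_lit 326),(nat_lit 320)] [k1,k1,k22,k22,k1,k1,k0,k0,
    k2,k2,k5,k5] k0 [[k0,k0,k58,k46,k0,k0,k0,k0,k0,k0,k22],[k0,k0,k0,k0,k0,k0,k0,k0,k0,k0,k4],[k0,k46,k0,k0,k0,k0,k0,
    k0,k12],[k0,k58,k0,k0,k8],[k0,k0,k0,k0,k0,k0,k0,k18,k0,k0,k0,k8],[k0,k0,k8,k0,k0,k0,k0,k36],[k0,k0,k0,k0,k36,k18],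
    [k0,k0,k0,k0,k0,k0,k0,k0,k18,k16],[k0,k0,k0,k0,k0,k0,k16,k0,k0,k0,k0,k50],[k0,k0,k0,k12,k0,k0,k18],[k0,k0,k0,k0,
    k0,k8,k0,k0,k0,k50],[k4,k22]] (nat_lit 960) k5
    [[(k3,(nat_lit 303)),(k0,(nat_lit 306)),(k8,(nat_lit 327)),(k4,(nat_lit 328)),(k7,(nat_lit 337)),(k11,
    (nat_lit 374))],[(k2,(nat_lit 261)),(k5,(nat_lit 270)),(k1,(nat_lit 306)),(k9,(nat_lit 327)),(k10,(nat_lit 328)),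
    (k6,(nat_lit 329))],[(k1,(nat_lit 303)),(k9,(nat_lit 306)),(k6,(nat_lit 308)),(k10,(nat_lit 325)),(k2,
    (nat_lit 344)),(k5,(nat_lit 353))],[(k0,(nat_lit 261)),(k11,(nat_lit 291)),(k8,(nat_lit 306)),(k7,(nat_lit 308)),
    (k4,(nat_lit 315)),(k3,(nat_lit 344))],[(k0,(nat_lit 270)),(k7,(nat_lit 321)),(k11,(nat_lit 324)),(k4,
    (nat_lit 328)),(k8,(nat_lit 339)),(k3,(nat_lit 353))],[(k6,(nat_lit 311)),(k2,(nat_lit 315)),(k10,(nat_lit 316)),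
    (k1,(nat_lit 328)),(k5,(nat_lit 328)),(k9,(nat_lit 363))],[(k6,(nat_lit 294)),(k2,(nat_lit 308)),(k5,
    (nat_lit 321)),(k10,(nat_lit 325)),(k1,(nat_lit 337)),(k9,(nat_lit 346))],[(k7,(nat_lit 294)),(k3,(nat_lit 308)),
    (k4,(nat_lit 311)),(k0,(nat_lit 329)),(k11,(nat_lit 341)),(k8,(nat_lit 346))],[(k11,(nat_lit 305)),(k3,
    (nat_lit 306)),(k8,(nat_lit 310)),(k0,(nat_lit 327)),(k7,(nat_lit 346)),(k4,(nat_lit 363))],[(k10,(nat_lit 273)),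
    (k2,(nat_lit 306)),(k9,(nat_lit 310)),(k1,(nat_lit 327)),(k5,(nat_lit 339)),(k6,(nat_lit 346))],[(k2,
    (nat_lit 291)),(k9,(nat_lit 305)),(k10,(nat_lit 320)),(k5,(nat_lit 324)),(k6,(nat_lit 341)),(k1,(nat_lit 374))],
    [(k8,(nat_lit 273)),(k4,(nat_lit 316)),(k11,(nat_lit 320)),(k3,(nat_lit 325)),(k7,(nat_lit 325)),(k0,
    (nat_lit 328))]]
    [] k0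
    [[k3,k0,k0,k0,k0,k0],[k2,k1,k0,k0,k0,k0],[k2,k0,k1,k0,k0,k0],[k1,k2,k0,k0,k0,k0],[k1,k1,k1,k0,k0,k0],[k1,k1,k0,k1,
    k0,k0],[k1,k1,k0,k0,k1,k0],[k1,k1,k0,k0,k0,k1],[k1,k0,k2,k0,k0,k0],[k1,k0,k1,k1,k0,k0],[k0,k2,k0,k0,k1,k0],[k0,k1,
    k1,k1,k0,k0],[k0,k1,k0,k2,k0,k0],[k0,k1,k0,k1,k0,k1],[k0,k1,k0,k0,k2,k0],[k0,k1,k0,k0,k1,k1],[k0,k1,k0,k0,k0,k2],
    [k0,k0,k1,k2,k0,k0],[k0,k0,k0,k3,k0,k0],[k0,k0,k0,k0,k3,k0],[k0,k0,k0,k0,k2,k1],[k0,k0,k0,k0,k1,k2]]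
    [.ref k6 k0 [(z1,[z1]),(z8,[y1,z3,z12]),(z8,[z11,y33,z0,z12]),(z2,[y1,z3,z0,z0,z6]),(z2,[y4,z6,y3,y3,y6,z6])],
    .ref k6 k0 [(z5,[z8,y1,y4]),(z5,[y1,z2,z8]),(z10,[z22,y44,y11,z15]),(z5,[y4,z8,z2,z0,z15]),(z10,[y32,z34,z1,y15,
    y30,z30])],.ref k6 k0 [(z9,[z8,z11,z0,y4]),(z18,[y2,z4,z27,z1]),(z9,[z11,y22,z0,z8]),(z9,[y4,z8,z0,z2,z27]),(z18,
    [y32,z10,y27,y11,y54,z54])],.ref k6 k0 [(z1,[z4,y1,y4]),(z2,[y1,z1,z4]),(z2,[z11,y11,y11,z3]),(z1,[y2,z2,z2,z0,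
    z3]),(z2,[y16,z10,z13,y3,y6,z6])],.ref k6 k0 [(z3,[z4,z5,y2,y2]),(z12,[y2,z2,z19,z1]),(z12,[z22,y22,y11,z7]),(z3,
    [y2,z2,z1,z1,z9]),(z6,[y16,y2,y1,y1,y18,z18])],.ref k6 k0 [(z1,[z8,y5,y4,z0,y8]),(z1,[y1,z1,z2,z0,z1]),(z2,[z22,
    y22,y11,z3,y22]),(z1,[y4,z4,z2,z0,z7]),(z2,[y32,z26,z13,y3,z26,z6])],.ref k6 k0 [(z3,[y8,z9,z0,y4,y8,z8]),(z6,[z2,
    z0,z9,z1,z2,y2]),(z3,[y11,z0,z0,y1,y11,z11]),(z3,[z4,z0,z0,z2,z13,y4]),(z6,[z32,y18,y9,z7,z14,y14])],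
    .ref k6 k0 [(z3,[z8,z1,y4]),(z3,[y1,z1,z5]),(z6,[z22,y22,y11,z9]),(z3,[y4,z4,z2,z0,z9]),(z6,[y32,z14,z7,y9,y18,
    z18])],.ref k6 k0 [(z5,[z4,z11,z0,y4]),(z10,[y1,z1,z15,z1]),(z10,[z11,y11,z0,z4]),(z5,[y2,z2,z0,z2,z15]),(z10,
    [y16,y14,y15,z1,y30,z30])],.ref k6 k0 [(z5,[z8,z7,z0,y4,y8]),(z10,[y2,z2,z15,z1,z2]),(z5,[z11,y11,z0,z2,y11]),(z5,
    [y4,z4,z0,z2,z19]),(z10,[y32,z2,y15,z1,z2,z30])],.ref k6 k0 [(z3,[y4,z5,z2,y2,y4,z4]),(z12,[z2,z2,z17,z1,z2,y2]),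
    (z12,[y22,y22,z11,z7,y22,z22]),(z3,[z2,z2,y1,z1,z11,y2]),(z6,[z16,y2,y17,y1,y2,z2])],.ref k6 k0 [(z1,[z4,z3,y2,y2,
    y4]),(z4,[y2,z0,z7,z1,z2]),(z4,[z22,z0,y11,y5,y22]),(z1,[y2,z0,z1,z1,z5]),(z2,[y16,y6,z5,z5,z10,z6])],
    .ref k6 k0 [(z3,[y8,z9,z4,z0,z16]),(z3,[z1,z0,z4,z0,y2]),(z6,[y22,z0,z11,z9,z44]),(z3,[z4,z0,y2,z0,z1]),(z6,[z32,
    y18,y25,y9,y82,z18])],.ref k6 k0 [(z1,[y8,z3,z4,z0,z8]),(z1,[z1,z0,z1,z0,y1]),(z2,[y22,z0,z11,z3,z22]),(z1,[z4,z0,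
    y2,z0,y1]),(z2,[z32,y6,y19,y3,y38,z6])],.ref k6 k0 [(z11,[y8,z17,y4,y8,y16,z16]),(z11,[z1,z2,z17,z1,z2,y2]),(z2,
    [y2,y4,y1,z1,y4,z4]),(z11,[z4,z8,z2,z4,z41,y8]),(z22,[z32,y2,y17,y1,y2,z2])],.ref k6 k0 [(z5,[y8,z7,z0,y4,y8,z8]),
    (z10,[z2,z2,z15,z1,z2,y2]),(z5,[y11,y11,z0,z2,y11,z11]),(z5,[z4,z4,z0,z2,z19,y4]),(z10,[z32,z2,y15,z1,z2,y2])],
    .ref k6 k0 [(z1,[z8,z3,y4]),(z1,[y1,z0,z2]),(z2,[z22,z0,y11,z3]),(z1,[y4,z0,z2,z0,z3]),(z2,[y32,y6,z13,y3,y6,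
    z6])],.ref k6 k0 [(z1,[z8,z3,z0,y4,y16]),(z2,[y2,z0,z3,z1,z4]),(z1,[z11,z0,z0,y4,y22]),(z1,[y4,z0,z0,z2,z11]),(z2,
    [y32,y6,y3,z13,z58,z6])],.ref k6 k0 [(z1,[y2,z3,z0,z0,z6]),(z4,[z1,z0,z6,z0,y3]),(z4,[y11,z0,z0,z6,z33]),(z1,
    [z1]),(z2,[z8,y6,y3,y3,y30,z6])],.ref k6 k0 [(z4,[y2,z6,y3,y3,y6,z6]),(z32,[z2,z6,z51,z3,z6,y6]),(z32,[y22,y66,
    y33,z15,y66,z66]),(z8,[z2,z6,z3,z3,z30,y6]),(z1,[z1])],.ref k6 k0 [(z5,[y4,z7,y4,y4,y8,z8]),(z10,[z1,z2,z16,z1,z2,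
    y2]),(z10,[y11,y22,y11,z4,y22,z22]),(z5,[z2,z4,z2,z2,z19,y4]),(z10,[z16,z2,z1,z1,z2,y2])],.ref k6 k0 [(z1,[y2,z1,
    y1,y1,y2,z2]),(z8,[z2,z2,z13,z1,z2,y2]),(z8,[y22,y22,y11,z1,y22,z22]),(z2,[z2,z2,z1,z1,z8,y2]),(z2,[z8,z2,z1,z1,
    z2,y2])]],
    .lp [k154,k158,k166,k156,k174,k174] [k10,k10,k8,k8,k4,k4,k9,k9,k0,k0,k0,k0] k0 [[k0,k0,k0,k0,k0,k0,k0,k32],[k0,k0,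
    k26],[k0,k0,k0,k0,k34,k6],[k26,k0,k0,k0,k0,k0,k0,k0,k0,k2],[k0,k0,k0,k6,k0,k0,k12,k4],[k0,k0,k0,k34,k0,k0,k0,k0,
    k0,k0,k18],[k0,k32,k0,k0,k0,k4],[k0,k0,k0,k0,k0,k12,k0,k0,k6],[k0,k0,k2,k0,k0,k0,k0,k0,k0,k0,k0,k10],[k0,k0,k0,k0,
    k0,k0,k6,k0,k0,k0,k0,k10],[k0,k0,k0,k0,k0,k0,k0,k0,k10,k10],[k0,k0,k0,k0,k18]] (nat_lit 492) k5
    [[(k7,k137),(k0,k154),(k3,k156),(k4,k160),(k8,k174),(k11,k174)],[(k6,k123),(k1,k154),(k5,k160),(k9,k164),(k10,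
    k164),(k2,k182)],[(k5,k136),(k1,k156),(k6,k157),(k2,k158),(k10,k166),(k9,k198)],[(k7,k123),(k4,k156),(k3,k158),
    (k8,k166),(k11,k168),(k0,k182)],[(k3,k136),(k0,k160),(k7,k167),(k8,k168),(k11,k170),(k4,(nat_lit 200))],[(k2,
    k156),(k6,k157),(k9,k158),(k1,k160),(k10,k188),(k5,(nat_lit 200))],[(k2,k123),(k1,k137),(k10,k165),(k5,k167),(k6,
    k168),(k9,k169)],[(k0,k123),(k3,k157),(k4,k157),(k11,k165),(k7,k168),(k8,k171)],[(k4,k158),(k0,k164),(k11,k168),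
    (k7,k169),(k8,k174),(k3,k198)],[(k10,k164),(k2,k166),(k5,k168),(k6,k171),(k1,k174),(k9,k174)],[(k10,k164),(k6,
    k165),(k2,k168),(k9,k168),(k5,k170),(k1,k174)],[(k0,k164),(k8,k164),(k11,k164),(k7,k165),(k3,k166),(k4,k188)]]
    [] k0
    [[k3,k0,k0,k0,k0,k0],[k2,k0,k1,k0,k0,k0],[k2,k0,k0,k1,k0,k0],[k1,k1,k1,k0,k0,k0],[k1,k1,k0,k1,k0,k0],[k1,k1,k0,k0,
    k1,k0],[k1,k1,k0,k0,k0,k1],[k1,k0,k1,k1,k0,k0],[k1,k0,k0,k2,k0,k0],[k1,k0,k0,k1,k1,k0],[k1,k0,k0,k1,k0,k1],[k0,k3,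
    k0,k0,k0,k0],[k0,k2,k1,k0,k0,k0],[k0,k2,k0,k1,k0,k0],[k0,k1,k1,k1,k0,k0],[k0,k1,k1,k0,k1,k0],[k0,k1,k0,k2,k0,k0],
    [k0,k1,k0,k1,k0,k1]]
    [.ref k6 k0 [(z1,[z1]),(z8,[y1,z3,z12]),(z2,[y1,z3,z0,z6]),(z1,[z1,y3,z0,z0,z3]),(z8,[y13,z15,y12,y24,y24,z24])],
    .ref k6 k0 [(z1,[z2,y1,z0,y2]),(z4,[y1,z2,z6,z1]),(z1,[y1,z2,z0,z4]),(z1,[z2,y4,z0,y2,z3]),(z4,[y13,z14,y6,z1,y12,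
    z12])],.ref k6 k0 [(z1,[z1,z1,z0,z0,y1]),(z8,[y1,z2,z12,z0,z1]),(z2,[y1,z2,z0,z6,z1]),(z1,[z1,y2,z0,z0,z2]),(z8,
    [y13,z2,y12,y24,y11,z24])],.ref k6 k0 [(z1,[z8,y5,y4,y8]),(z1,[y1,z1,z2,z1]),(z1,[y4,z4,z2,z7]),(z1,[z8,y8,y4,y8,
    z3]),(z1,[y13,z10,z5,z10,y3,z3])],.ref k6 k0 [(z5,[z8,z7,y4,z0,y8]),(z5,[y1,z1,z8,z0,z1]),(z5,[y4,z4,z2,z15,z4]),
    (z5,[z8,y8,y4,z0,z7]),(z5,[y13,y2,y1,y15,y2,z15])],.ref k6 k0 [(z1,[y4,z3,z0,y4,y4,z4]),(z2,[z1,z0,z3,z1,z1,y1]),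
    (z1,[z2,z0,z0,z5,z2,y2]),(z1,[y4,z0,z0,y4,y1,z4]),(z2,[z13,y6,y3,z7,z7,y7])],.ref k6 k0 [(z3,[z8,z1,y4]),(z3,[y1,
    z1,z5]),(z3,[y4,z4,z2,z9]),(z3,[z8,y8,y4,z0,z9]),(z3,[y13,z4,z2,y9,y9,z9])],.ref k6 k0 [(z1,[z2,z1,z0,y2,y2]),(z4,
    [y1,z1,z6,z1,z1]),(z1,[y1,z1,z0,z4,z1]),(z1,[z2,y2,z0,y2,z1]),(z4,[y13,z1,y6,z1,z1,z12])],.ref k6 k0 [(z1,[z1,z2,
    z0,z0,y2]),(z8,[y1,z1,z12,z0,z2]),(z2,[y1,z1,z0,z6,z2]),(z1,[z1,y1,z0,z0,z1]),(z8,[y13,y11,y12,y24,z2,z24])],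
    .ref k6 k0 [(z1,[z8,z3,z4,z8,z0,y8]),(z1,[y1,z0,z1,y1,z0,z1]),(z1,[y4,z0,y2,y1,z0,z4]),(z1,[z8,z0,z4,z8,z3,y8]),
    (z1,[y13,y3,y8,y16,y3,z16])],.ref k6 k0 [(z3,[z4,z5,z0,z0,y4]),(z6,[y1,z1,z9,z0,z1]),(z3,[y2,z2,z0,z9,z2]),(z3,
    [z4,y4,z0,z0,z5]),(z6,[y13,y5,y9,y18,y5,z18])],.ref k6 k0 [(z1,[y8,z3,z12]),(z1,[z1]),(z1,[z4,z0,y6,z3]),(z1,[y8,
    z0,z12,z0,z3]),(z1,[z13,y3,y21,y3,y3,z3])],.ref k6 k0 [(z1,[y4,z3,z4,z4]),(z2,[z1,z0,z2,y1]),(z1,[z2,z0,y2,z1]),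
    (z1,[y4,z0,z4,z4,z3]),(z2,[z13,y6,y16,y19,y6,z6])],.ref k6 k0 [(z1,[z4,z3,y4,z0,y4]),(z2,[y1,z0,z4,z0,z1]),(z1,
    [y2,z0,z2,z3,z2]),(z1,[z4,z0,y4,z0,y1]),(z2,[y13,y6,z10,y6,z7,z6])],.ref k6 k0 [(z1,[z8,z3,y4,y8,y8]),(z1,[y1,z0,
    z2,z1,z1]),(z1,[y4,z0,z2,z7,z4]),(z1,[z8,z0,y4,y8,y5]),(z1,[y13,y3,z5,z10,z10,z3])],.ref k6 k0 [(z3,[y4,z5,z0,z0,
    y4,z4]),(z6,[z1,z1,z9,z0,z1,y1]),(z3,[z2,z2,z0,z9,z2,y2]),(z3,[y4,y4,z0,z0,z5,z4]),(z6,[z13,y5,y9,y18,y5,z5])],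
    .ref k6 k0 [(z5,[z8,z15,y4,z0,y16]),(z5,[y1,z0,z8,z0,z2]),(z5,[y4,z0,z2,z15,z8]),(z5,[z8,z0,y4,z0,y1]),(z5,[y13,
    y15,y1,y15,z11,z15])],.ref k6 k0 [(z3,[z8,z9,y4,z0,y8]),(z3,[y1,z0,z5,z0,z1]),(z3,[y4,z0,z2,z9,z4]),(z3,[z8,z0,y4,
    z0,z1]),(z3,[y13,y9,z2,y9,z4,z9])]],
    .lp [(nat_lit 216),(nat_lit 234),(nat_lit 238),(nat_lit 240),(nat_lit 246),(nat_lit 260)] [k26,k18,k13,k13,k11,k11,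
    k10,k10,k7,k7,k0,k0] k0 [[k0,k0,k0,k0,k0,k0,k2,k14],[k0,k0,k56,k0,k0,k0,k0,k0,k0,k0,k2],[k0,k0,k0,k0,k0,k14,k0,k0,
    k8,k2],[k56,k0,k0,k0,k0,k10],[k0,k0,k10,k14],[k0,k0,k0,k0,k0,k0,k0,k0,k0,k0,k52,k14],[k0,k14],[k0,k2],[k0,k0,k0,
    k2,k0,k0,k0,k0,k0,k0,k0,k26],[k0,k0,k0,k8,k0,k0,k0,k0,k0,k0,k0,k20],[k0,k0,k0,k0,k14,k0,k0,k0,k20,k26],[k2,k0,k0,
    k0,k52]] (nat_lit 720) k5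
    [[(k7,k180),(k0,(nat_lit 216)),(k3,(nat_lit 227)),(k4,(nat_lit 245)),(k8,(nat_lit 255)),(k11,(nat_lit 268))],[(k6,
    (nat_lit 210)),(k1,(nat_lit 216)),(k5,(nat_lit 223)),(k9,(nat_lit 225)),(k10,(nat_lit 236)),(k2,(nat_lit 277))],
    [(k5,k180),(k1,(nat_lit 227)),(k2,(nat_lit 234)),(k6,(nat_lit 239)),(k10,(nat_lit 247)),(k9,(nat_lit 254))],[(k4,
    (nat_lit 222)),(k3,(nat_lit 234)),(k8,(nat_lit 238)),(k11,(nat_lit 239)),(k7,(nat_lit 247)),(k0,(nat_lit 277))],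
    [(k3,k180),(k0,(nat_lit 223)),(k4,(nat_lit 228)),(k8,(nat_lit 250)),(k11,(nat_lit 251)),(k7,(nat_lit 253))],[(k2,
    (nat_lit 222)),(k5,(nat_lit 228)),(k6,(nat_lit 239)),(k9,(nat_lit 242)),(k1,(nat_lit 245)),(k10,(nat_lit 301))],
    [(k1,k180),(k10,(nat_lit 236)),(k6,(nat_lit 240)),(k9,(nat_lit 243)),(k2,(nat_lit 247)),(k5,(nat_lit 253))],[(k0,
    (nat_lit 210)),(k3,(nat_lit 239)),(k4,(nat_lit 239)),(k7,(nat_lit 240)),(k8,(nat_lit 243)),(k11,(nat_lit 250))],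
    [(k0,(nat_lit 225)),(k4,(nat_lit 242)),(k7,(nat_lit 243)),(k8,(nat_lit 246)),(k11,(nat_lit 253)),(k3,
    (nat_lit 254))],[(k10,(nat_lit 227)),(k2,(nat_lit 238)),(k6,(nat_lit 243)),(k9,(nat_lit 246)),(k5,(nat_lit 250)),
    (k1,(nat_lit 255))],[(k2,(nat_lit 239)),(k10,(nat_lit 240)),(k6,(nat_lit 250)),(k5,(nat_lit 251)),(k9,
    (nat_lit 253)),(k1,(nat_lit 268))],[(k8,(nat_lit 227)),(k0,(nat_lit 236)),(k7,(nat_lit 236)),(k11,(nat_lit 240)),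
    (k3,(nat_lit 247)),(k4,(nat_lit 301))]]
    [] k0
    [[k3,k0,k0,k0,k0,k0],[k2,k0,k1,k0,k0,k0],[k2,k0,k0,k1,k0,k0],[k2,k0,k0,k0,k1,k0],[k1,k1,k1,k0,k0,k0],[k1,k1,k0,k1,
    k0,k0],[k1,k1,k0,k0,k1,k0],[k1,k1,k0,k0,k0,k1],[k1,k0,k2,k0,k0,k0],[k1,k0,k1,k1,k0,k0],[k1,k0,k0,k2,k0,k0],[k1,k0,
    k0,k1,k1,k0],[k1,k0,k0,k1,k0,k1],[k0,k3,k0,k0,k0,k0],[k0,k2,k1,k0,k0,k0],[k0,k1,k2,k0,k0,k0],[k0,k1,k1,k1,k0,k0],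
    [k0,k1,k1,k0,k1,k0],[k0,k1,k0,k1,k0,k1],[k0,k0,k3,k0,k0,k0]]
    [.ref k6 k0 [(z1,[z1]),(z10,[y4,z1,z15]),(z5,[y8,z2,z0,z15]),(z20,[z4,y1,z0,z0,z15]),(z5,[z4,y1])],
    .ref k6 k0 [(z2,[z15,y2,z0,y15]),(z2,[y6,z1,z3,z6]),(z1,[y12,z2,z0,z15]),(z4,[z6,y1,z0,y6,z3]),(z1,[z6,y1,z0,
    y6])],.ref k6 k0 [(z44,[z60,z1,z0,z0,y15]),(z22,[y12,z2,z33,z0,z3]),(z11,[y24,z4,z0,z33,z6]),(z22,[z6,y1,z0,z0,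
    z15]),(z11,[z12,y2,z0,z0,y3])],.ref k6 k0 [(z14,[z15,z1]),(z14,[y6,z1,z21]),(z7,[y12,z2,z0,z21]),(z28,[z6,y1,z0,
    z0,z21]),(z7,[z6,y1])],.ref k6 k0 [(z2,[y6,z1,z3,z6]),(z10,[z12,y1,z9,y12]),(z5,[z24,y2,y12,y9]),(z20,[y12,z1,z6,
    z12,z15]),(z5,[y12,z1,z6,z12])],.ref k6 k0 [(z16,[z60,y1,y30,z0,y15]),(z8,[y12,z1,z18,z0,z3]),(z2,[y12,z1,z6,z6,
    z3]),(z16,[z12,y1,y6,z0,z9]),(z4,[z12,y1,y6,z0,y3])],.ref k6 k0 [(z14,[z30,z1,y15]),(z14,[y12,z1,z27]),(z7,[y24,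
    z2,z12,z21]),(z28,[z12,y1,y6,z0,z21]),(z7,[z12,y1,y6])],.ref k6 k0 [(z4,[z20,z1,z0,z20,z5,y20]),(z2,[y4,z0,z3,y4,
    y1,z4]),(z1,[y8,z0,z0,y5,y2,z8]),(z1,[z1,z0,z0,z1,z1,y1]),(z1,[z4,z0,z0,z4,z1,y4])],.ref k6 k0 [(z11,[y15,z4,z0,
    z30]),(z22,[z12,y1,z33,y24]),(z11,[z24,y2,z0,y15]),(z44,[y12,z1,z0,z24,z33]),(z11,[y12,z1,z0,z24])],
    .ref k6 k0 [(z8,[y60,z7,z0,z60,z15]),(z4,[z12,y1,z6,y12,y3]),(z1,[z12,y1,z0,y9,y3]),(z8,[y12,z1,z0,z12,z9]),(z2,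
    [y12,z1,z0,z12,z3])],.ref k6 k0 [(z14,[z30,z1,z0,z0,y15]),(z14,[y12,z1,z21,z0,z6]),(z7,[y24,z2,z0,z21,z12]),(z28,
    [z12,y1,z0,z0,z15]),(z7,[z12,y1,z0,z0,y6])],.ref k6 k0 [(z8,[z12,z1,z0,z0,y3]),(z20,[y12,z1,z30,z0,z3]),(z5,[y12,
    z1,z0,z15,z3]),(z40,[z12,y1,z0,z0,z27]),(z10,[z12,y1,z0,z0,y3])],.ref k6 k0 [(z4,[z10,z1,z5,z10,z0,y10]),(z1,[y1,
    z0,z1,y1,z0,z1]),(z1,[y4,z0,y2,y1,z0,z4]),(z4,[z2,z0,z1,z2,z3,y2]),(z1,[z2,z0,z1,z2,z0,y2])],.ref k6 k0 [(z4,[y10,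
    z1,z15]),(z1,[z1]),(z1,[z4,z0,y6,z3]),(z4,[y2,z0,z3,z0,z3]),(z1,[y2,z0,z3])],.ref k6 k0 [(z4,[y5,z1,z5,z5]),(z2,
    [z1,z0,z2,y1]),(z1,[z2,z0,y2,z1]),(z4,[y1,z0,z1,z1,z3]),(z1,[y1,z0,z1,z1])],.ref k6 k0 [(z12,[y10,z3,z5,z20]),(z3,
    [z1,z0,z4,y2]),(z3,[z4,z0,y2,z1]),(z12,[y2,z0,z1,z4,z9]),(z3,[y2,z0,z1,z4])],.ref k6 k0 [(z12,[y20,z3,z10,z20,
    z5]),(z6,[z4,z0,z7,y4,y1]),(z3,[z8,z0,y4,z1,y2]),(z6,[y2,z0,z1,z2,z5]),(z3,[y4,z0,z2,z4,z1])],.ref k6 k0 [(z4,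
    [y10,z1,z5,z10]),(z1,[z1,z0,z1,y1]),(z1,[z4,z0,y2,y1]),(z4,[y2,z0,z1,z2,z3]),(z1,[y2,z0,z1,z2])],.ref k6 k0 [(z1,
    [y15,y1,z0,y15,z0,z15]),(z2,[z12,z1,z3,z12,z0,y12]),(z1,[z24,z2,z0,z27,z0,y24]),(z4,[y12,y1,z0,y12,z3,z12]),(z1,
    [y12,y1,z0,y12,z0,z12])],.ref k6 k0 [(z8,[y5,z2,z0,z15]),(z4,[z1,z0,z6,y3]),(z1,[z1]),(z8,[y1,z0,z0,z3,z6]),(z2,
    [y1,z0,z0,z3])]],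
    .lp [(nat_lit 324),(nat_lit 302),(nat_lit 328),(nat_lit 328),(nat_lit 330),(nat_lit 306)] [k3,k3,k14,k14,k1,k1,k1,k1,
    k0,k0,k12,k12] k0 [[k0,k0,k58,k2,k0,k0,k0,k8],[k0,k0,k0,k0,k0,k0,k0,k0,k0,k0,k24,k64],[k0,k2],[k0,k58],[k0,k0,k0,
    k0,k0,k0,k2,k24,k0,k0,k22],[k0,k0,k0,k0,k0,k0,k0,k0,k0,k0,k22],[k0,k8,k0,k0,k0,k24],[k0,k0,k0,k0,k0,k2,k0,k0,k0,
    k10],[k0,k0,k0,k0,k0,k0,k10,k0,k0,k0,k0,k38],[k0,k0,k0,k0,k0,k0,k0,k0,k0,k0,k0,k38],[k64,k0,k0,k0,k0,k0,k0,k0,k38,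
    k38],[k24,k0,k0,k0,k22,k22]] (nat_lit 960) k5
    [[(k3,(nat_lit 289)),(k4,(nat_lit 304)),(k7,(nat_lit 304)),(k11,(nat_lit 353)),(k8,(nat_lit 365)),(k0,
    (nat_lit 388))],[(k5,(nat_lit 268)),(k2,(nat_lit 311)),(k6,(nat_lit 318)),(k9,(nat_lit 327)),(k10,(nat_lit 339)),
    (k1,(nat_lit 388))],[(k10,(nat_lit 240)),(k1,(nat_lit 289)),(k6,(nat_lit 315)),(k5,(nat_lit 317)),(k9,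
    (nat_lit 324)),(k2,(nat_lit 360))],[(k11,(nat_lit 304)),(k0,(nat_lit 311)),(k4,(nat_lit 315)),(k7,(nat_lit 315)),
    (k8,(nat_lit 316)),(k3,(nat_lit 360))],[(k0,(nat_lit 268)),(k3,(nat_lit 317)),(k11,(nat_lit 317)),(k4,
    (nat_lit 328)),(k7,(nat_lit 328)),(k8,(nat_lit 329))],[(k1,(nat_lit 304)),(k6,(nat_lit 304)),(k2,(nat_lit 315)),
    (k9,(nat_lit 327)),(k5,(nat_lit 328)),(k10,(nat_lit 339))],[(k1,(nat_lit 304)),(k2,(nat_lit 315)),(k5,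
    (nat_lit 328)),(k6,(nat_lit 330)),(k10,(nat_lit 339)),(k9,(nat_lit 353))],[(k4,(nat_lit 304)),(k3,(nat_lit 315)),
    (k0,(nat_lit 318)),(k11,(nat_lit 327)),(k8,(nat_lit 329)),(k7,(nat_lit 330))],[(k11,(nat_lit 318)),(k8,
    (nat_lit 320)),(k3,(nat_lit 324)),(k0,(nat_lit 327)),(k4,(nat_lit 327)),(k7,(nat_lit 353))],[(k10,(nat_lit 280)),
    (k2,(nat_lit 316)),(k9,(nat_lit 320)),(k5,(nat_lit 329)),(k6,(nat_lit 329)),(k1,(nat_lit 365))],[(k10,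
    (nat_lit 268)),(k2,(nat_lit 304)),(k5,(nat_lit 317)),(k9,(nat_lit 318)),(k6,(nat_lit 327)),(k1,(nat_lit 353))],
    [(k3,(nat_lit 240)),(k11,(nat_lit 268)),(k8,(nat_lit 280)),(k0,(nat_lit 339)),(k4,(nat_lit 339)),(k7,
    (nat_lit 339))]]
    [] k0
    [[k1,k1,k1,k0,k0,k0],[k1,k1,k0,k1,k0,k0],[k1,k1,k0,k0,k1,k0],[k1,k1,k0,k0,k0,k1],[k1,k0,k2,k0,k0,k0],[k1,k0,k1,k1,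
    k0,k0],[k1,k0,k0,k2,k0,k0],[k0,k2,k0,k0,k0,k1],[k0,k1,k1,k1,k0,k0],[k0,k1,k0,k1,k0,k1],[k0,k1,k0,k0,k1,k1],[k0,k1,
    k1,k0,k0,k1],[k0,k1,k0,k0,k0,k2],[k0,k0,k1,k0,k1,k1],[k0,k0,k1,k0,k0,k2],[k0,k0,k0,k1,k0,k2],[k0,k0,k0,k0,k2,k1],
    [k0,k0,k0,k0,k1,k2],[k0,k0,k0,k0,k0,k3]]
    [.ref k149 k1 [(z1,[z0,z0,y2,z1]),(z2,[z0,y1,y1,y4,z4]),(z1,[z0,z0,z1]),(z2,[y4,z1,y3,z4])],.ref k74 k8 [(z1,[z0,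
    z1,z2,z4,y4]),(z1,[y1,z1,z2,z3,y3]),(z2,[z2,z1,z1,z4,y4]),(z2,[z0,y1,y1,y4,z4])],.ref k56 k8 [(z1,[z0,z1,z2,z4,
    y4]),(z1,[y1,z2,z4,z7,y7]),(z2,[z2,y1,y3,y4,z4]),(z2,[z0,y1,y1,y4,z4])],.ref k43 k2 [(z2,[y4,z1,z5]),(z1,[y8,z2,
    z4,z3]),(z1,[z1,y1,y2,y3,z3]),(z1,[z4,y1,y2])],.ref k61 k1 [(z1,[z0,z0,y2,z1]),(z2,[z0,y1,y1,y4,z4]),(z1,[z0,z0,
    z1]),(z2,[y4,z1,y11,z8])],.ref k66 k1 [(z1,[z0,z0,y2,z1]),(z2,[z0,y1,y1,y4,z4]),(z1,[z0,z0,z1]),(z1,[y1,z0,y1,z0,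
    z1])],.ref k56 k8 [(z1,[z0,z1,z2,z4,y4]),(z2,[y2,z3,z5,z10,y10]),(z1,[z1]),(z2,[z0,y1,y1,y4,z4])],
    .ref k74 k8 [(z1,[z0,z1,z2,z4,y4]),(z1,[z1,z1,z1,z4,y4]),(z2,[y2,z1,z3,z2,y2]),(z2,[z0,y1,y1,y4,z4])],
    .ref k43 k2 [(z6,[z4,z1,z9,z0,y4]),(z3,[z8,z2,z0,z9,y8]),(z6,[y2,y5,y9,y18,z20]),(z3,[y4,y1,z0,z0,z4])],
    .ref k107 k8 [(z1,[z0,z1,z2,z4,y4]),(z2,[z2,z1,z1,z4,y4]),(z1,[y1,z1,z2,z3,y3]),(z2,[z0,y1,y1,y4,z4])],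
    .ref k66 k1 [(z1,[z0,z0,y2,z1]),(z2,[z0,y1,y1,y4,z4]),(z1,[z0,z0,z1]),(z1,[z1,z0,y1])],.ref k86 k8 [(z1,[z0,z1,z2,
    z4,y4]),(z2,[z2,z5,z9,z18,y20]),(z1,[y1,y1,y2,y4,z5]),(z2,[z0,y1,y1,y4,z4])],.ref k107 k8 [(z1,[z0,z1,z2,z4,y4]),
    (z4,[z2,z1,z1,z4,y4]),(z4,[y2,z5,z9,z16,y16]),(z2,[z0,y1,y1,y4,z4])],.ref k74 k8 [(z1,[z0,z1,z2,z4,y4]),(z1,[z1,
    z1,z2,z3,y4]),(z2,[y2,z1,z1,z4,y2]),(z2,[z0,y1,y1,y4,z4])],.ref k74 k8 [(z1,[z0,z1,z2,z4,y4]),(z2,[z1,z2,z4,z7,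
    y8]),(z2,[y1,z1,z1,z3,y2]),(z2,[z0,y1,y1,y4,z4])],.ref k150 k8 [(z1,[z0,z1,z2,z4,y4]),(z1,[z1]),(z1,[y1,z3,z5,z10,
    y10]),(z2,[z0,y1,y1,y4,z4])],.ref k151 k1 [(z1,[z0,z0,y2,z1]),(z2,[z0,y1,y1,y4,z4]),(z1,[z0,z0,z1]),(z1,[z1,z0,
    y2])],.ref k66 k1 [(z1,[z0,z0,y2,z1]),(z2,[z0,y1,y1,y4,z4]),(z1,[z0,z0,z1]),(z2,[z1,z0,y1])],.ref k152 k0 [(z1,
    [y4,z3]),(z1,[z0,z0,z1]),(z1,[z0,z0,z0,z1]),(z1,[z0,y1,y2,y4,z4])]]]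

noncomputable def cT6_2_n3_1 : List TN :=
  [.leafM k6 [k2,k3,k4,k5,k0,k1] [(z1,[z1,z1])] [],
    .leafM k1 [k0,k1,k2,k3,k4,k5] [(z1,[z0,z1,z0,z1]),(z1,[z0,y1,z0,y1,z1])] [],
    .leafM k6 [k0,k1,k2,k3,k4,k5] [(z1,[y1,y1,y1,z0,z1])] [],
    .lp [k156,k148,k168,k160,k146,k178] [k28,k28,k32,k32,k44,k0,k26,k26,k33,k33,k17,k17] k0 [[k0,k0,k64,k4],[k0,k0,k0,k0,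
    k0,k0,k0,k0,k0,k0,k32,k8],[k0,k4,k0,k0,k4,k0,k0,k0,k18],[k0,k64,k0,k0,k0,k0,k0,k0,k6],[k0,k0,k0,k0,k0,k0,k0,k20,
    k0,k0,k12],[k0,k0,k0,k4,k0,k0,k0,k36],[k0,k0,k0,k0,k36,k20],[k0,k0,k0,k0,k0,k0,k0,k0,k30,k18],[k0,k0,k0,k0,k0,k0,
    k18,k0,k0,k0,k2,k42],[k0,k0,k6,k18,k0,k0,k30],[k8,k0,k0,k0,k0,k0,k0,k0,k0,k42],[k32,k0,k0,k0,k0,k12,k0,k0,k0,
    k2]] (nat_lit 480) k5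
    [[(k3,k120),(k4,k128),(k8,k149),(k7,k158),(k0,k164),(k11,(nat_lit 209))],[(k5,k120),(k2,k148),(k9,k151),(k6,k158),
    (k1,k164),(k10,k199)],[(k1,k120),(k9,k147),(k6,k154),(k10,k155),(k5,k184),(k2,(nat_lit 212))],[(k4,k136),(k11,
    k145),(k0,k148),(k7,k150),(k8,k153),(k3,(nat_lit 212))],[(k0,k120),(k4,k172),(k3,k184),(k7,k186),(k11,k189),(k8,
    k197)],[(k6,k122),(k1,k128),(k2,k136),(k10,k151),(k9,k171),(k5,k172)],[(k6,k124),(k2,k150),(k1,k158),(k9,k173),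
    (k10,k181),(k5,k186)],[(k4,k122),(k7,k124),(k3,k154),(k0,k158),(k8,k183),(k11,k187)],[(k8,k128),(k11,k132),(k3,
    k147),(k0,k151),(k4,k171),(k7,k173)],[(k10,k120),(k9,k128),(k1,k149),(k2,k153),(k6,k183),(k5,k197)],[(k9,k132),
    (k2,k145),(k10,k180),(k6,k187),(k5,k189),(k1,(nat_lit 209))],[(k8,k120),(k4,k151),(k3,k155),(k11,k180),(k7,k181),
    (k0,k199)]]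
    [] k0
    [[k2,k1,k0,k0,k0,k0],[k2,k0,k1,k0,k0,k0],[k2,k0,k0,k0,k1,k0],[k1,k1,k1,k0,k0,k0],[k1,k1,k0,k1,k0,k0],[k1,k1,k0,k0,
    k1,k0],[k1,k1,k0,k0,k0,k1],[k1,k0,k2,k0,k0,k0],[k1,k0,k1,k1,k0,k0],[k1,k0,k1,k0,k1,k0],[k1,k0,k0,k2,k0,k0],[k1,k0,
    k0,k0,k2,k0],[k0,k1,k1,k1,k0,k0],[k0,k1,k0,k2,k0,k0],[k0,k1,k0,k0,k2,k0],[k0,k1,k0,k0,k1,k1],[k0,k0,k1,k2,k0,k0],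
    [k0,k0,k0,k3,k0,k0],[k0,k0,k0,k0,k3,k0],[k0,k0,k0,k0,k2,k1],[k0,k0,k0,k0,k1,k2]]
    [.ref k6 k0 [(z1,[z2,y1,y2]),(z1,[y1,z2,z4]),(z2,[z1,y2,y1,z6]),(z1,[y4,z8,z4,z0,z3]),(z1,[z2,y7,y5,y3,y3,z3])],
    .ref k6 k0 [(z3,[z4,z1,z0,y4]),(z3,[y2,z4,z9,z2]),(z3,[z1,y2,z0,z8]),(z3,[y8,z16,z0,z8,z9]),(z3,[z4,y17,y9,y13,y9,
    z9])],.ref k6 k0 [(z1,[z1,z2,z1,z1,z1,y1]),(z2,[y1,z1,z5,y1,y1,z1]),(z4,[z1,y1,z1,z13,z1,y1]),(z1,[y2,z2,y2,y2,z1,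
    z2]),(z1,[z1,y4,y2,y2,y2,z2])],.ref k6 k0 [(z1,[z4,y1,y4,y4]),(z1,[y2,z2,z5,z2]),(z1,[z1,y1,y1,z2]),(z1,[y8,z8,z8,
    z8,z3]),(z1,[z4,y7,y7,y7,y3,z3])],.ref k6 k0 [(z1,[y2,z5,z2,z0,z2]),(z1,[z1,y1,z2,z0,y1]),(z2,[y1,z1,z1,z6,z1]),
    (z1,[z4,y4,y4,z0,y1]),(z1,[y2,y1,y1,y3,y1,z3])],.ref k6 k0 [(z1,[z2,z3,z0,z2,z2,y2]),(z1,[y1,z0,z3,y1,y1,z1]),(z2,
    [z1,z0,z0,z7,z1,y1]),(z1,[y4,z0,z0,y4,y1,z4]),(z1,[z2,y3,y3,y1,y1,z1])],.ref k6 k0 [(z1,[z4,y1,y4]),(z1,[y2,z2,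
    z5]),(z1,[z1,y1,y1,z3]),(z1,[y8,z8,z8,z0,z3]),(z1,[z4,y7,y7,y3,y3,z3])],.ref k6 k0 [(z1,[z2,z1,z0,y4]),(z1,[y1,z1,
    z3,z2]),(z2,[z1,y1,z0,z4]),(z1,[y4,z4,z0,z8,z3]),(z1,[z2,y5,y3,y7,y3,z3])],.ref k6 k0 [(z1,[y4,z7,z0,z4,z4]),(z1,
    [z2,y2,z3,y2,y2]),(z1,[y1,z1,z0,z4,z1]),(z1,[z8,y8,z0,y8,y5]),(z1,[y4,z1,y3,z1,z1,z3])],.ref k6 k0 [(z3,[z4,z9,z4,
    z0,z4,y4]),(z3,[y2,z0,z7,z0,y2,z2]),(z3,[z1,z0,z1,z9,z1,y1]),(z3,[y8,z0,y8,z0,z1,z8]),(z3,[z4,y9,y5,y9,y5,z5])],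
    .ref k6 k0 [(z1,[y1,z4,z0,z0,z2]),(z2,[z1,y1,z6,z0,y2]),(z4,[y1,z1,z0,z12,z2]),(z1,[z2,y2,z0,z0,y1]),(z1,[y1,y2,
    y3,y3,y1,z3])],.ref k6 k0 [(z1,[z1,z4,z2,z2,z2,y2]),(z2,[y1,y1,z4,y2,y2,z2]),(z4,[z1,z1,z2,z14,z2,y2]),(z1,[y2,y2,
    y4,y4,y1,z4]),(z1,[z1,y2,y1,y1,y1,z1])],.ref k6 k0 [(z3,[y4,z9,z4,z4,z4]),(z3,[z2,z0,z7,y2,y2]),(z3,[y1,z0,z1,z10,
    z1]),(z3,[z8,z0,y8,y8,z1]),(z3,[y4,y9,y5,y5,y5,z9])],.ref k6 k0 [(z3,[y2,z9,z2,z0,z4]),(z3,[z1,z0,z8,z0,y2]),(z6,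
    [y1,z0,z1,z18,z2]),(z3,[z4,z0,y4,z0,z1]),(z3,[y2,y9,y7,y9,y5,z9])],.ref k6 k0 [(z1,[z2,z7,z2,z4,z4,y4]),(z1,[y1,
    y2,z2,y2,y2,z2]),(z2,[z1,z2,z1,z8,z2,y2]),(z1,[y4,y8,y4,y8,y5,z8]),(z1,[z2,z1,y1,z1,z1,y1])],.ref k6 k0 [(z1,[z4,
    z7,z0,z4,z4,y4]),(z1,[y2,y2,z3,y2,y2,z2]),(z1,[z1,z1,z0,z4,z1,y1]),(z1,[y8,y8,z0,y8,y5,z8]),(z1,[z4,z1,y3,z1,z1,
    y1])],.ref k6 k0 [(z5,[y4,z15,z0,z4,z8]),(z5,[z2,z0,z15,y2,y4]),(z5,[y1,z0,z0,z16,z2]),(z5,[z8,z0,z0,y8,y1]),(z5,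
    [y4,y15,y15,y11,y7,z15])],.ref k6 k0 [(z2,[y1,z6,z0,z0,z3]),(z4,[z1,z0,z12,z0,y3]),(z8,[y1,z0,z0,z24,z3]),(z1,
    [z1]),(z2,[y1,y6,y6,y6,y3,z6])],.ref k6 k0 [(z1,[z1,z6,z3,z3,z3,y3]),(z2,[y1,y3,z3,y3,y3,z3]),(z4,[z1,z3,z3,z15,
    z3,y3]),(z1,[y2,y6,y6,y6,y3,z6]),(z1,[z1])],.ref k6 k0 [(z3,[z4,z17,z8,z8,z8,y8]),(z3,[y2,y4,z5,y4,y4,z4]),(z3,
    [z1,z2,z2,z11,z2,y2]),(z3,[y8,y16,y16,y16,y7,z16]),(z3,[z4,y1,y1,y1,y1,z1])],.ref k6 k0 [(z1,[z2,z5,z2,z2,z2,y2]),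
    (z1,[y1,y1,z2,y1,y1,z1]),(z2,[z1,z1,z1,z7,z1,y1]),(z1,[y4,y4,y4,y4,y1,z4]),(z1,[z2,y1,y1,y1,y1,z1])]],
    .lp [(nat_lit 344),(nat_lit 276),(nat_lit 304),(nat_lit 366),(nat_lit 308),(nat_lit 320)] [k11,k11,k45,k45,k31,k31,k0,
    k0,k37,k21,k23,k23] k0 [[k0,k0,k84,k2,k0,k0,k0,k0,k0,k0,k96],[k0,k0,k0,k0,k0,k0,k60,k0,k0,k0,k18],[k0,k2,k0,k0,k0,
    k50,k0,k0,k0,k14],[k0,k84,k0,k0,k0,k40],[k0,k0,k40,k50,k0,k0,k0,k24],[k0,k0,k0,k0,k0,k0,k0,k88,k0,k0,k58,k4],[k0,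
    k0,k0,k0,k88,k24],[k60,k0,k0,k0,k0,k0,k0,k0,k30],[k0,k0,k0,k14,k0,k0,k0,k0,k0,k0,k0,k30],[k0,k0,k0,k0,k0,k0,k30],
    [k0,k0,k0,k0,k4,k0,k0,k0,k0,k30],[k18,k96,k0,k0,k58]] (nat_lit 960) k5
    [[(k0,(nat_lit 248)),(k3,(nat_lit 292)),(k7,(nat_lit 297)),(k8,(nat_lit 318)),(k4,(nat_lit 328)),(k11,
    (nat_lit 362))],[(k5,(nat_lit 240)),(k1,(nat_lit 248)),(k2,(nat_lit 308)),(k9,(nat_lit 334)),(k10,(nat_lit 350)),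
    (k6,(nat_lit 415))],[(k9,(nat_lit 240)),(k1,(nat_lit 292)),(k5,(nat_lit 292)),(k6,(nat_lit 321)),(k2,
    (nat_lit 360)),(k10,(nat_lit 394))],[(k4,(nat_lit 240)),(k8,(nat_lit 270)),(k11,(nat_lit 298)),(k0,(nat_lit 308)),
    (k3,(nat_lit 360)),(k7,(nat_lit 361))],[(k0,(nat_lit 240)),(k4,(nat_lit 264)),(k3,(nat_lit 292)),(k8,
    (nat_lit 298)),(k11,(nat_lit 326)),(k7,(nat_lit 385))],[(k2,(nat_lit 240)),(k5,(nat_lit 264)),(k6,(nat_lit 311)),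
    (k1,(nat_lit 328)),(k10,(nat_lit 370)),(k9,(nat_lit 402))],[(k6,(nat_lit 278)),(k1,(nat_lit 297)),(k10,
    (nat_lit 339)),(k2,(nat_lit 361)),(k9,(nat_lit 369)),(k5,(nat_lit 385))],[(k7,(nat_lit 278)),(k4,(nat_lit 311)),
    (k3,(nat_lit 321)),(k11,(nat_lit 343)),(k8,(nat_lit 359)),(k0,(nat_lit 415))],[(k3,(nat_lit 240)),(k11,
    (nat_lit 292)),(k8,(nat_lit 308)),(k0,(nat_lit 334)),(k7,(nat_lit 369)),(k4,(nat_lit 402))],[(k2,(nat_lit 270)),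
    (k10,(nat_lit 276)),(k5,(nat_lit 298)),(k9,(nat_lit 308)),(k1,(nat_lit 318)),(k6,(nat_lit 359))],[(k9,
    (nat_lit 292)),(k2,(nat_lit 298)),(k10,(nat_lit 320)),(k5,(nat_lit 326)),(k6,(nat_lit 343)),(k1,(nat_lit 362))],
    [(k8,(nat_lit 276)),(k11,(nat_lit 320)),(k7,(nat_lit 339)),(k0,(nat_lit 350)),(k4,(nat_lit 370)),(k3,
    (nat_lit 394))]]
    [] k0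
    [[k3,k0,k0,k0,k0,k0],[k2,k1,k0,k0,k0,k0],[k2,k0,k1,k0,k0,k0],[k2,k0,k0,k0,k1,k0],[k1,k1,k1,k0,k0,k0],[k1,k1,k0,k0,
    k1,k0],[k1,k1,k0,k0,k0,k1],[k1,k0,k2,k0,k0,k0],[k1,k1,k0,k1,k0,k0],[k1,k0,k1,k1,k0,k0],[k0,k2,k1,k0,k0,k0],[k0,k2,
    k0,k0,k1,k0],[k0,k1,k2,k0,k0,k0],[k0,k1,k1,k1,k0,k0],[k0,k1,k0,k1,k0,k1],[k0,k1,k1,k0,k1,k0],[k0,k1,k0,k0,k2,k0],
    [k0,k1,k0,k0,k1,k1],[k0,k0,k3,k0,k0,k0],[k0,k0,k0,k3,k0,k0],[k0,k0,k0,k0,k3,k0],[k0,k0,k0,k0,k2,k1],[k0,k0,k0,k0,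
    k1,k2]]
    [.ref k6 k0 [(z1,[z1]),(z4,[z1,y3,z12]),(z1,[y1,z3,z0,z1]),(z2,[y1,z3,z0,z0,z6]),(z4,[z1,y3])],.ref k6 k0 [(z3,
    [z4,z1,y4]),(z3,[z1,y2,z8]),(z3,[y4,z8,z4,z3]),(z3,[y2,z4,z2,z0,z9]),(z3,[z1,y2,y1])],.ref k6 k0 [(z1,[z3,y3,z0,
    y1]),(z4,[z3,y6,z12,y1]),(z1,[y3,z6,z0,z2]),(z2,[y3,z6,z0,z1,z6]),(z4,[z3,y6,z0,y1])],.ref k6 k0 [(z3,[z4,z1]),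
    (z3,[z1,y2,z9]),(z3,[y4,z8,z0,z3]),(z3,[y2,z4,z0,z0,z9]),(z3,[z1,y2])],.ref k6 k0 [(z1,[z12,y9,y12,y4]),(z1,[z3,
    y3,z0,y1]),(z1,[y12,z12,z12,z5]),(z1,[y6,z6,z6,z2,z3]),(z1,[z3,y3,y3,y1])],.ref k6 k0 [(z1,[z2,z1,y2]),(z2,[z1,y1,
    z5]),(z1,[y2,z2,z2,z1]),(z1,[y1,z1,z1,z0,z3]),(z2,[z1,y1,y1])],.ref k6 k0 [(z5,[z12,z15,z0,z4,z12,y12]),(z5,[z3,
    z0,z15,z1,z3,y3]),(z5,[y12,z0,z0,z1,y12,z12]),(z5,[y6,z0,z0,y2,z9,z6]),(z5,[z3,z0,z0,z1,z3,y3])],.ref k6 k0 [(z1,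
    [y3,z6,z0,z2]),(z4,[y3,z3,z12,z2]),(z1,[z3,y3,z0,y1]),(z2,[z3,y3,z0,y2,z6]),(z4,[y3,z3,z0,z2])],.ref k6 k0 [(z1,
    [z4,y1,y4,z0,y4]),(z1,[z1,y1,z2,z0,y1]),(z1,[y4,z4,z4,z1,z4]),(z1,[y2,z2,z2,z0,z5]),(z1,[z1,y1,y1,z0,y1])],
    .ref k6 k0 [(z1,[y6,z9,z0,z2,z6]),(z2,[y3,z3,z6,z1,z3]),(z1,[z6,y6,z0,y1,y6]),(z1,[z3,y3,z0,y1]),(z2,[y3,z3,z0,z1,
    z3])],.ref k6 k0 [(z1,[y6,z3,z12,z2]),(z2,[y3,z0,z12,z1]),(z1,[z6,z0,y12,y1]),(z1,[z3,z0,y6,y1,z3]),(z2,[y3,z0,z6,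
    z1])],.ref k6 k0 [(z1,[z4,z3,y8]),(z1,[z1,z0,z1]),(z1,[y4,z0,z8,z1]),(z1,[y2,z0,z4,z0,z3]),(z1,[z1,z0,y2])],
    .ref k6 k0 [(z7,[y12,z21,z12,z8]),(z7,[y3,z0,z24,z2]),(z7,[z12,z0,y12,y1]),(z7,[z6,z0,y6,y4,z21]),(z7,[y3,z0,z3,
    z2])],.ref k6 k0 [(z5,[y12,z15,z12,z4,z12]),(z5,[y3,z0,z18,z1,z3]),(z5,[z12,z0,y12,z1,y12]),(z5,[z6,z0,y6,y2,z9]),
    (z5,[y3,z0,z3,z1,z3])],.ref k6 k0 [(z1,[y12,y9,z0,y4,z0,z12]),(z1,[y3,y3,z3,y1,z0,z3]),(z1,[z12,z12,z0,z5,z0,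
    y12]),(z1,[z6,z6,z0,z2,z3,y6]),(z1,[y3,y3,z0,y1,z0,z3])],.ref k6 k0 [(z1,[y6,z3,z6,z2]),(z2,[y3,z0,z9,z1]),(z1,
    [z6,z0,y6,y1]),(z1,[z3,z0,y3,y1,z3]),(z2,[y3,z0,z3,z1])],.ref k6 k0 [(z1,[z4,z3,y4]),(z1,[z1,z0,z2]),(z1,[y4,z0,
    z4,z1]),(z1,[y2,z0,z2,z0,z3]),(z1,[z1,z0,y1])],.ref k6 k0 [(z1,[z6,z9,z0,z2,z6,y6]),(z2,[z3,z3,z6,z1,z3,y3]),(z1,
    [y6,y6,z0,y1,y6,z6]),(z1,[y3,y3,z0,y1,z0,z3]),(z2,[z3,z3,z0,z1,z3,y3])],.ref k6 k0 [(z1,[y1,z3,z0,z1]),(z4,[y1,z0,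
    z12,z1]),(z1,[z1]),(z2,[z1,z0,z0,y1,z6]),(z4,[y1,z0,z0,z1])],.ref k6 k0 [(z1,[y2,z3,z0,z0,z6]),(z2,[y1,z0,z6,z0,
    z3]),(z1,[z2,z0,z0,z1,y6]),(z1,[z1]),(z2,[y1,z0,z0,z0,z3])],.ref k6 k0 [(z1,[z4,z3]),(z1,[z1,z0,z3]),(z1,[y4,z0,
    z0,z1]),(z1,[y2,z0,z0,z0,z3]),(z1,[z1])],.ref k6 k0 [(z1,[z6,z9,z6,z2,z6,y6]),(z2,[z3,z3,z9,z1,z3,y3]),(z1,[y6,y6,
    y6,y1,y6,z6]),(z1,[y3,y3,y3,y1,z0,z3]),(z2,[z3,z3,z3,z1,z3,y3])],.ref k6 k0 [(z1,[z12,z27,z24,z8,z24,y24]),(z1,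
    [z3,z6,z9,z2,z6,y6]),(z1,[y12,y24,y24,y7,y24,z24]),(z1,[y6,y12,y12,y4,y9,z12]),(z1,[z3,z6,z6,z2,z6,y6])]],
    .lp [k80,k72,k88,k84,k80,k74] [k4,k4,k8,k8,k0,k0,k2,k2,k4,k4,k7,k7] k0 [[k0,k0,k22,k6],[k0,k0,k0,k0,k0,k0,k0,k6],[k0,
    k6,k0,k0,k0,k0,k0,k0,k0,k10],[k0,k22],[k0,k0,k0,k0,k0,k0,k0,k20,k0,k0,k12],[k0,k0,k0,k0,k0,k0,k0,k4,k0,k0,k4],[k6,
    k0,k0,k0,k4,k20],[k0,k0,k0,k0,k0,k0,k0,k0,k4,k6],[k0,k0,k0,k10,k0,k0,k6,k0,k0,k0,k0,k16],[k0,k0,k0,k0,k0,k0,k4,k0,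
    k0,k0,k0,k10],[k0,k0,k0,k0,k0,k0,k0,k0,k10,k16],[k0,k0,k0,k0,k4,k12]] (nat_lit 240) k5
    [[(k4,k72),(k3,k76),(k7,k78),(k0,k80),(k8,k90),(k11,k93)],[(k5,k62),(k2,k70),(k10,k77),(k1,k80),(k6,k82),(k9,
    k86)],[(k6,k72),(k10,k73),(k1,k76),(k9,k76),(k5,k86),(k2,k94)],[(k8,k66),(k0,k70),(k11,k73),(k7,k78),(k4,k80),(k3,
    k94)],[(k0,k62),(k8,k84),(k3,k86),(k7,k86),(k4,k88),(k11,k91)],[(k6,k66),(k1,k72),(k2,k80),(k10,k85),(k5,k88),(k9,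
    k88)],[(k1,k78),(k2,k78),(k6,k80),(k5,k86),(k10,k91),(k9,k102)],[(k4,k66),(k3,k72),(k7,k80),(k0,k82),(k11,k85),
    (k8,k86)],[(k11,k73),(k8,k74),(k3,k76),(k0,k86),(k4,k88),(k7,k102)],[(k10,k61),(k2,k66),(k9,k74),(k5,k84),(k6,
    k86),(k1,k90)],[(k10,k64),(k2,k73),(k9,k73),(k6,k85),(k5,k91),(k1,k93)],[(k8,k61),(k11,k64),(k3,k73),(k0,k77),(k4,
    k85),(k7,k91)]]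
    [] k0
    [[k2,k1,k0,k0,k0,k0],[k2,k0,k1,k0,k0,k0],[k1,k1,k1,k0,k0,k0],[k1,k1,k0,k1,k0,k0],[k1,k1,k0,k0,k1,k0],[k1,k1,k0,k0,
    k0,k1],[k1,k0,k2,k0,k0,k0],[k1,k0,k1,k1,k0,k0],[k1,k0,k0,k0,k0,k2],[k0,k2,k0,k0,k1,k0],[k0,k1,k1,k1,k0,k0],[k0,k1,
    k0,k2,k0,k0],[k0,k1,k0,k1,k0,k1],[k0,k1,k0,k0,k2,k0],[k0,k1,k0,k0,k1,k1],[k0,k1,k0,k0,k0,k2],[k0,k0,k1,k2,k0,k0],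
    [k0,k0,k0,k0,k3,k0],[k0,k0,k0,k0,k2,k1],[k0,k0,k0,k0,k1,k2],[k0,k0,k0,k0,k0,k3]]
    [.ref k17 k0 [(z3,[z4,z1,y4]),(z3,[z1,y2,z8]),(z3,[y4,z8,z4,z9]),(z3,[y2,y5,y7,y9,z9])],.ref k74 k3 [(z1,[z0,z1,
    y4]),(z1,[y1,z2,y4,z1]),(z1,[z0,z0,y1]),(z1,[z0,y1,z1,y1,z1])],.ref k155 k3 [(z1,[z0,z1,y4]),(z1,[y1,z1,z0,z1]),
    (z1,[z0,z0,y1]),(z1,[z0,y1,z1,y1,z1])],.ref k17 k0 [(z1,[z4,z3,z0,z4,y4]),(z1,[z1,z0,z3,z1,y1]),(z1,[y4,z0,z0,y1,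
    z4]),(z1,[y2,y3,y3,y5,z5])],.ref k17 k0 [(z1,[z2,z1,y2]),(z2,[z1,y1,z5]),(z1,[y2,z2,z2,z3]),(z1,[y1,y2,y2,y3,
    z3])],.ref k156 k3 [(z1,[z0,z1,y4]),(z1,[z1,y1,z4]),(z1,[z0,z0,y1]),(z1,[z0,y1,z1,y1,z1])],.ref k9 k3 [(z1,[z0,z1,
    y4]),(z2,[y1,z1,z4,z2]),(z1,[z0,z0,y1]),(z1,[z0,y1,z1,y1,z1])],.ref k9 k3 [(z1,[z0,z1,y4]),(z1,[y1,z0,z1,z0,z1]),
    (z1,[z0,z0,y1]),(z1,[z0,y1,z1,y1,z1])],.ref k9 k3 [(z1,[z0,z1,y4]),(z2,[z1,y1,z4]),(z1,[z0,z0,y1]),(z1,[z0,y1,z1,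
    y1,z1])],.ref k17 k0 [(z1,[z4,z3,y8]),(z1,[z1,z0,z1]),(z1,[y4,z0,z8,z3]),(z1,[y2,y3,z1,y3,z3])],.ref k156 k3 [(z1,
    [z0,z1,y4]),(z1,[y1,y1,z5,z0,z1]),(z1,[z0,z0,y1]),(z1,[z0,y1,z1,y1,z1])],.ref k17 k0 [(z1,[y4,y5,y4,y8,z8]),(z1,
    [y1,y2,z2,y2,z2]),(z1,[z4,z8,z4,z11,y8]),(z1,[z2,z1,y1,z1,y1])],.ref k155 k3 [(z1,[z0,z1,y4]),(z1,[z1,z1,y1,z1,
    y1]),(z1,[z0,z0,y1]),(z1,[z0,y1,z1,y1,z1])],.ref k17 k0 [(z1,[z4,z3,y4]),(z1,[z1,z0,z2]),(z1,[y4,z0,z4,z3]),(z1,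
    [y2,y3,y1,y3,z3])],.ref k9 k3 [(z1,[z0,z1,y4]),(z1,[z1,z0,z1]),(z1,[z0,z0,y1]),(z1,[z0,y1,z1,y1,z1])],
    .ref k130 k3 [(z1,[z0,z1,y4]),(z1,[z1]),(z1,[z0,z0,y1]),(z1,[z0,y1,z1,y1,z1])],.ref k157 k1 [(z1,[z1,z2,y2,z2,
    y2]),(z1,[z0,y1,z1,y1,z1]),(z1,[z0,z0,y1]),(z1,[y1,y2,z6,y1,z2])],.ref k17 k0 [(z1,[z4,z3]),(z1,[z1,z0,z3]),(z1,
    [y4,z0,z0,z3]),(z1,[y2,y3,y3,y3,z3])],.ref k9 k3 [(z1,[z0,z1,y4]),(z1,[z1,z0,z2]),(z1,[z0,z0,y1]),(z1,[z0,y1,z1,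
    y1,z1])],.ref k130 k3 [(z1,[z0,z1,y4]),(z1,[z1,z0,z1]),(z1,[z0,z0,y1]),(z1,[z0,y1,z1,y1,z1])],.ref k158 k0 [(z1,
    [z0,z1]),(z1,[z0,z0,z1]),(z1,[y1,z0,z0,z3]),(z1,[z0,y1,y1,y1,z1])]],
    .leafM k6 [k0,k1,k2,k3,k4,k5] [(z2,[y1,y2,y1,z2])] [],
    .leafM k1 [k0,k1,k2,k3,k4,k5] [(z1,[y1,z0,y1,z1]),(z1,[z1,z0,z1])] [],
    .leafM k6 [k2,k3,k4,k5,k0,k1] [(z1,[z1,z1])] [],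
    .lp [k166,k142,k160,k168,k162,k160] [k1,k1,k13,k13,k4,k4,k0,k0,k3,k3,k4,k4] k0 [[k0,k0,k24,k0,k0,k0,k0,k0,k0,k0,k36,
    k6],[k0,k0,k0,k0,k0,k0,k12],[k0,k0,k0,k0,k0,k18],[k0,k24,k0,k0,k0,k18],[k0,k0,k18,k18,k0,k0,k0,k8],[k0,k0,k0,k0,
    k0,k0,k0,k16,k0,k0,k18],[k0,k0,k0,k0,k16,k8],[k12,k0,k0,k0,k0,k0,k0,k0,k2],[],[k0,k0,k0,k0,k0,k0,k2],[k0,k6],[k0,
    k36,k0,k0,k18]] (nat_lit 480) k5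
    [[(k0,k130),(k7,k149),(k3,k160),(k4,k163),(k11,k163),(k8,k164)],[(k1,k130),(k5,k139),(k2,k154),(k10,k157),(k9,
    k164),(k6,k179)],[(k9,k140),(k5,k151),(k6,k155),(k1,k160),(k2,k166),(k10,k187)],[(k4,k133),(k11,k151),(k8,k152),
    (k0,k154),(k3,k166),(k7,k173)],[(k0,k139),(k4,k142),(k3,k151),(k11,k160),(k8,k161),(k7,k182)],[(k2,k133),(k5,
    k142),(k6,k156),(k1,k163),(k9,k177),(k10,k178)],[(k1,k149),(k6,k152),(k10,k164),(k2,k173),(k9,k173),(k5,k182)],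
    [(k7,k152),(k3,k155),(k4,k156),(k11,k164),(k8,k167),(k0,k179)],[(k3,k140),(k11,k159),(k8,k162),(k0,k164),(k7,
    k173),(k4,k177)],[(k2,k152),(k5,k161),(k10,k161),(k9,k162),(k1,k164),(k6,k167)],[(k2,k151),(k9,k159),(k5,k160),
    (k10,k160),(k1,k163),(k6,k164)],[(k0,k157),(k11,k160),(k8,k161),(k7,k164),(k4,k178),(k3,k187)]]
    [] k0
    [[k3,k0,k0,k0,k0,k0],[k2,k1,k0,k0,k0,k0],[k2,k0,k1,k0,k0,k0],[k2,k0,k0,k1,k0,k0],[k2,k0,k0,k0,k1,k0],[k2,k0,k0,k0,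
    k0,k1],[k1,k1,k1,k0,k0,k0],[k1,k1,k0,k0,k1,k0],[k1,k1,k0,k0,k0,k1],[k1,k0,k2,k0,k0,k0],[k1,k1,k0,k1,k0,k0],[k1,k0,
    k1,k1,k0,k0],[k1,k0,k0,k1,k0,k1],[k0,k2,k1,k0,k0,k0],[k0,k2,k0,k0,k1,k0],[k0,k1,k2,k0,k0,k0],[k0,k1,k1,k1,k0,k0],
    [k0,k1,k0,k1,k0,k1],[k0,k1,k1,k0,k1,k0],[k0,k1,k0,k0,k2,k0],[k0,k1,k0,k0,k1,k1],[k0,k0,k3,k0,k0,k0],[k0,k0,k0,k3,
    k0,k0]]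
    [.ref k6 k0 [(z1,[z1]),(z1,[z0,z0,z1]),(z4,[y1,z3,z0,z4]),(z2,[y1,z3,z0,z0,z6]),(z2,[y1,y3,y2,y2,y6,z6])],
    .ref k6 k0 [(z2,[z3,z0,y1]),(z1,[z0,z0,z1]),(z8,[y3,z6,z1,z8]),(z4,[y3,z6,z1,z0,z12]),(z4,[y3,y6,y3,y4,y12,z12])],
    .ref k6 k0 [(z7,[z12,y3,z0,y4]),(z1,[z0,z0,z1]),(z7,[y3,z6,z0,z8]),(z7,[y6,z12,z0,z2,z21]),(z7,[y6,y9,y7,y5,y21,
    z21])],.ref k6 k0 [(z1,[z2,y1,z0,z0,y2]),(z1,[z0,z0,z1]),(z2,[y1,z2,z0,z2,z1]),(z1,[y1,z2,z0,z0,z4]),(z1,[y1,y1,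
    y1,y1,y2,z3])],.ref k6 k0 [(z3,[z6,z3,z2,z2,z6,y6]),(z1,[z0,z0,z1]),(z6,[y3,z3,y1,z5,y3,z3]),(z3,[y3,z3,y1,y1,z6,
    z3]),(z3,[y3,y6,y4,y4,y12,z12])],.ref k6 k0 [(z3,[z4,z1]),(z1,[z0,z0,z1]),(z3,[y1,z2,z0,z3]),(z3,[y2,z4,z0,z0,
    z9]),(z3,[y2,y5,y3,y3,y9,z9])],.ref k6 k0 [(z3,[z12,y3,y4,y4]),(z1,[z0,z0,z1]),(z3,[y3,z3,z1,z4]),(z3,[y6,z6,z2,
    z2,z9]),(z3,[y6,y3,y1,y1,y9,z9])],.ref k6 k0 [(z1,[z6,z3,z0,z2,z6,y6]),(z1,[z0,z0,z1]),(z2,[y3,z0,z0,z1,y3,z3]),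
    (z1,[y3,z0,z0,y1,z0,z3]),(z1,[y3,y3,y1,y2,y6,z6])],.ref k6 k0 [(z5,[z12,z3,y4]),(z1,[z0,z0,z1]),(z5,[y3,z3,z1,
    z5]),(z5,[y6,z6,z2,z0,z15]),(z5,[y6,y9,y3,y5,y15,z15])],.ref k6 k0 [(z1,[z6,y3,z0,y4]),(z1,[z0,z0,z1]),(z2,[y3,z3,
    z0,z4]),(z1,[y3,z3,z0,z2,z3]),(z1,[y3,z0,y1,z1,y3,z3])],.ref k6 k0 [(z1,[z6,y3,y2,z0,y6]),(z1,[z0,z0,z1]),(z2,[y3,
    z3,z1,z2,z3]),(z1,[y3,z3,z1,z0,z6]),(z1,[y3,z0,z0,y1,z0,z3])],.ref k6 k0 [(z1,[z12,y9,z0,y4,y12]),(z1,[z0,z0,z1]),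
    (z1,[y3,z3,z0,z2,z3]),(z1,[y6,z6,z0,z2,z9]),(z1,[y6,z3,y1,z1,z3,z3])],.ref k6 k0 [(z1,[z4,y1,z0,z0,y4]),(z1,[z0,
    z0,z1]),(z1,[y1,z1,z0,z1,z1]),(z1,[y2,z2,z0,z0,z5]),(z1,[y2,y1,y1,y1,y1,z3])],.ref k6 k0 [(z1,[y12,z3,z8,z4]),(z1,
    [z0,z0,z1]),(z1,[z3,z0,y2]),(z1,[z6,z0,y4,y2,z3]),(z1,[z6,y3,y5,y3,y3,z3])],.ref k6 k0 [(z1,[y6,y3,z2,y2,y6,z6]),
    (z1,[z0,z0,z1]),(z2,[z3,z3,y1,z3,z3,y3]),(z1,[z3,z3,y1,z1,z6,y3]),(z1,[z3,z0,y2])],.ref k6 k0 [(z1,[y6,z3,z2,z4]),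
    (z1,[z0,z0,z1]),(z2,[z3,z0,y1]),(z1,[z3,z0,y1,y2,z3]),(z1,[z3,y3,y2,y3,y3,z3])],.ref k6 k0 [(z3,[y12,z9,z4,z4,
    z12]),(z1,[z0,z0,z1]),(z3,[z3,z0,y1,z2,y3]),(z3,[z6,z0,y2,y2,z3]),(z3,[z6,y9,y5,y5,y15,z9])],.ref k6 k0 [(z1,[y12,
    z3,z4,z0,z12]),(z1,[z0,z0,z1]),(z1,[z3,z0,y1,z1,y3]),(z1,[z6,z0,y2,z0,y3]),(z1,[z6,y3,y3,y1,y9,z3])],
    .ref k6 k0 [(z1,[y4,y1,z0,z0,y4,z4]),(z1,[z0,z0,z1]),(z1,[z1,z1,z0,z1,z1,y1]),(z1,[z2,z2,z0,z0,z5,y2]),(z1,[z2,y1,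
    y1,y1,y1,z1])],.ref k6 k0 [(z1,[y3,y3,y1,y2,y6,z6]),(z1,[z0,z0,z1]),(z4,[z3,z6,z1,z6,z6,y6]),(z2,[z3,z6,z1,z2,z12,
    y6]),(z2,[z3,z0,y1])],.ref k6 k0 [(z1,[y12,y9,z0,y4,y12,z12]),(z1,[z0,z0,z1]),(z1,[z3,z3,z0,z2,z3,y3]),(z1,[z6,z6,
    z0,z2,z9,y6]),(z1,[z6,z3,y1,z1,z3,y3])],.ref k6 k0 [(z1,[y4,z3,z0,z4]),(z1,[z0,z0,z1]),(z1,[z1]),(z1,[z2,z0,z0,y2,
    z3]),(z1,[z2,y3,y1,y3,y3,z3])],.ref k6 k0 [(z1,[y2,z3,z0,z0,z6]),(z1,[z0,z0,z1]),(z2,[z1,z0,z0,z2,y3]),(z1,[z1]),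
    (z1,[z1,y3,y1,y1,y6,z3])]],
    .lp [(nat_lit 304),(nat_lit 324),(nat_lit 330),(nat_lit 338),(nat_lit 300),(nat_lit 322)] [k17,k17,k7,k7,k4,k4,k0,k0,
    k19,k19,k8,k8] k0 [[k0,k0,k0,k0,k0,k0,k0,k0,k0,k0,k0,k8],[k0,k0,k0,k0,k0,k0,k0,k0,k0,k0,k0,k28],[k0,k0,k0,k0,k0,
    k0,k0,k0,k18,k12],[k0,k0,k0,k0,k0,k4],[k0,k0,k4,k0,k0,k0,k0,k10],[k0,k0,k0,k0,k0,k0,k0,k18,k0,k0,k2],[k0,k0,k0,k0,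
    k18,k10],[k0,k0,k0,k0,k0,k0,k0,k0,k12],[k0,k0,k0,k12,k0,k0,k0,k0,k0,k0,k38,k10],[k0,k0,k0,k18,k0,k0,k12],[k28,k8,
    k0,k0,k0,k0,k0,k0,k0,k10],[k0,k0,k0,k0,k2,k0,k0,k0,k0,k38]] (nat_lit 960) k5
    [[(k8,(nat_lit 264)),(k4,(nat_lit 317)),(k7,(nat_lit 319)),(k3,(nat_lit 322)),(k11,(nat_lit 323)),(k0,
    (nat_lit 332))],[(k9,(nat_lit 302)),(k10,(nat_lit 305)),(k2,(nat_lit 314)),(k5,(nat_lit 317)),(k6,(nat_lit 321)),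
    (k1,(nat_lit 332))],[(k10,(nat_lit 295)),(k9,(nat_lit 312)),(k1,(nat_lit 322)),(k2,(nat_lit 324)),(k5,
    (nat_lit 327)),(k6,(nat_lit 331))],[(k8,(nat_lit 300)),(k11,(nat_lit 305)),(k0,(nat_lit 314)),(k3,(nat_lit 324)),
    (k4,(nat_lit 327)),(k7,(nat_lit 335))],[(k0,(nat_lit 317)),(k4,(nat_lit 326)),(k3,(nat_lit 327)),(k8,
    (nat_lit 333)),(k7,(nat_lit 334)),(k11,(nat_lit 338))],[(k1,(nat_lit 317)),(k6,(nat_lit 324)),(k5,(nat_lit 326)),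
    (k2,(nat_lit 327)),(k10,(nat_lit 328)),(k9,(nat_lit 333))],[(k1,(nat_lit 319)),(k6,(nat_lit 320)),(k9,
    (nat_lit 329)),(k10,(nat_lit 330)),(k5,(nat_lit 334)),(k2,(nat_lit 335))],[(k7,(nat_lit 320)),(k0,(nat_lit 321)),
    (k4,(nat_lit 324)),(k11,(nat_lit 330)),(k3,(nat_lit 331)),(k8,(nat_lit 331))],[(k11,(nat_lit 299)),(k8,
    (nat_lit 300)),(k0,(nat_lit 302)),(k3,(nat_lit 312)),(k7,(nat_lit 329)),(k4,(nat_lit 333))],[(k1,(nat_lit 264)),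
    (k2,(nat_lit 300)),(k9,(nat_lit 300)),(k10,(nat_lit 301)),(k6,(nat_lit 331)),(k5,(nat_lit 333))],[(k9,
    (nat_lit 299)),(k2,(nat_lit 305)),(k1,(nat_lit 323)),(k6,(nat_lit 330)),(k5,(nat_lit 338)),(k10,(nat_lit 360))],
    [(k3,(nat_lit 295)),(k8,(nat_lit 301)),(k0,(nat_lit 305)),(k4,(nat_lit 328)),(k7,(nat_lit 330)),(k11,
    (nat_lit 360))]]
    [] k0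
    [[k2,k0,k0,k0,k1,k0],[k1,k1,k0,k0,k1,k0],[k1,k1,k0,k0,k0,k1],[k1,k1,k1,k0,k0,k0],[k1,k0,k1,k0,k1,k0],[k1,k0,k0,k1,
    k1,k0],[k1,k0,k0,k1,k0,k1],[k1,k0,k0,k0,k2,k0],[k1,k0,k0,k0,k1,k1],[k0,k2,k0,k0,k1,k0],[k0,k2,k0,k0,k0,k1],[k0,k1,
    k0,k0,k2,k0],[k0,k1,k0,k0,k1,k1],[k0,k0,k0,k0,k3,k0],[k0,k0,k0,k0,k2,k1]]
    [.ref k15 k5 [(z1,[z0,y1,y1,y5,z1]),(z1,[z1,y2,z0,y4]),(z1,[y1,z2,z0,z5]),(z1,[z0,z1,z0,z2])],.ref k15 k5 [(z1,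
    [z0,y1,y1,y5,z1]),(z1,[z1,y1,y1,y4]),(z1,[y1,z1,z1,z5]),(z1,[z0,z1,z0,z2])],.ref k162 k5 [(z1,[z0,y1,y1,y5,z1]),
    (z1,[y1,z1,z1,z5]),(z1,[z1,y1,y1,y4]),(z1,[z0,z1,z0,z2])],.ref k43 k0 [(z1,[z2,z1,y2,y2]),(z1,[z2,y2,z1,y2]),(z1,
    [y1,z1,z1,z4]),(z1,[y4,z1,z1,z1,z3])],.ref k36 k5 [(z1,[z0,y1,y1,y5,z1]),(z1,[z1,y1,z0,y2]),(z1,[y1,z1,z0,z3]),
    (z1,[z0,z1,z0,z2])],.ref k9 k5 [(z1,[z0,y1,y1,y5,z1]),(z1,[z1,z0,z1,z3,y1]),(z1,[y1,z0,y1,y2,z1]),(z1,[z0,z1,z0,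
    z2])],.ref k36 k5 [(z1,[z0,y1,y1,y5,z1]),(z1,[y1,z0,y1,y2,z1]),(z1,[z1,z0,z1,z3,y1]),(z1,[z0,z1,z0,z2])],
    .ref k36 k5 [(z1,[z0,y1,y1,y5,z1]),(z2,[z1,y1,z0,y2]),(z2,[y1,z1,z0,z4]),(z1,[z0,z1,z0,z2])],.ref k43 k0 [(z1,[z2,
    z1]),(z1,[z2,y2,z3]),(z1,[y1,z1,z0,z3]),(z1,[y4,z1,y3,y3,z3])],.ref k15 k5 [(z1,[z0,y1,y1,y5,z1]),(z1,[z1,z0,y2,
    y4]),(z1,[y1,z0,z2,z5]),(z1,[z0,z1,z0,z2])],.ref k162 k5 [(z1,[z0,y1,y1,y5,z1]),(z1,[y1,z0,z2,z5]),(z1,[z1,z0,y2,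
    y4]),(z1,[z0,z1,z0,z2])],.ref k36 k5 [(z1,[z0,y1,y1,y5,z1]),(z2,[z1,z0,y1,y2]),(z2,[y1,z0,z1,z4]),(z1,[z0,z1,z0,
    z2])],.ref k43 k0 [(z1,[z2,z3,y2]),(z1,[z2,z0,z1]),(z1,[y1,z0,z1,z3]),(z1,[y4,y3,z1,y3,z3])],.ref k163 k5 [(z1,
    [z0,y1,y1,y5,z1]),(z1,[z1]),(z1,[y1,z0,z0,z3]),(z1,[z0,z1,z0,z2])],.ref k36 k5 [(z1,[z0,y1,y1,y5,z1]),(z1,[z1,z0,
    z0,y1]),(z1,[y1,z0,z0,z2]),(z1,[z0,z1,z0,z2])]],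
    .lp [k152,k146,k164,k168,k164,k164] [k8,k8,k11,k11,k2,k2,k0,k0,k2,k2,k2,k2] k0 [[k0,k0,k18,k10,k0,k0,k0,k0,k0,k0,k6],
    [k0,k0,k0,k0,k0,k0,k14,k0,k0,k0,k12],[k0,k10],[k0,k18,k0,k0,k0,k4],[k0,k0,k4,k0,k0,k0,k0,k2],[k0,k0,k0,k0,k0,k0,
    k0,k18],[k0,k0,k0,k0,k18,k2],[k14,k0,k0,k0,k0,k0,k0,k0,k12],[k0,k0,k0,k0,k0,k0,k0,k0,k0,k0,k0,k18],[k0,k0,k0,k0,
    k0,k0,k12],[k0,k0,k0,k0,k0,k0,k0,k0,k0,k18],[k12,k6]] (nat_lit 480) k5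
    [[(k3,k137),(k0,k146),(k4,k158),(k8,k158),(k7,k160),(k11,k176)],[(k2,k139),(k5,k140),(k1,k146),(k9,k158),(k10,
    k170),(k6,k174)],[(k1,k137),(k9,k141),(k6,k157),(k10,k161),(k2,k164),(k5,k165)],[(k0,k139),(k4,k155),(k8,k155),
    (k11,k155),(k7,k161),(k3,k164)],[(k0,k140),(k4,k160),(k8,k164),(k11,k164),(k3,k165),(k7,k166)],[(k2,k155),(k1,
    k158),(k5,k160),(k6,k164),(k10,k164),(k9,k182)],[(k6,k150),(k1,k160),(k2,k161),(k5,k166),(k10,k166),(k9,k168)],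
    [(k7,k150),(k3,k157),(k4,k164),(k11,k166),(k0,k174),(k8,k178)],[(k3,k141),(k11,k152),(k0,k158),(k8,k164),(k7,
    k168),(k4,k182)],[(k10,k146),(k2,k155),(k1,k158),(k5,k164),(k9,k164),(k6,k178)],[(k9,k152),(k2,k155),(k5,k164),
    (k10,k164),(k6,k166),(k1,k176)],[(k8,k146),(k3,k161),(k4,k164),(k11,k164),(k7,k166),(k0,k170)]]
    [] k0
    [[k3,k0,k0,k0,k0,k0],[k2,k1,k0,k0,k0,k0],[k2,k0,k1,k0,k0,k0],[k2,k0,k0,k0,k1,k0],[k1,k2,k0,k0,k0,k0],[k1,k1,k1,k0,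
    k0,k0],[k1,k1,k0,k1,k0,k0],[k1,k1,k0,k0,k1,k0],[k1,k1,k0,k0,k0,k1],[k1,k0,k2,k0,k0,k0],[k1,k0,k1,k1,k0,k0],[k0,k2,
    k0,k0,k1,k0],[k0,k1,k1,k1,k0,k0],[k0,k1,k0,k2,k0,k0],[k0,k1,k0,k1,k0,k1],[k0,k1,k1,k0,k1,k0],[k0,k1,k0,k0,k2,k0],
    [k0,k1,k0,k0,k1,k1],[k0,k0,k0,k3,k0,k0],[k0,k0,k0,k0,k2,k1],[k0,k0,k0,k0,k1,k2]]
    [.ref k6 k0 [(z1,[z1]),(z1,[z0,z0,z1]),(z1,[z0,z0,z0,z1]),(z1,[y2,z6,z0,z0,z3]),(z1,[z1,y3])],.ref k6 k0 [(z2,[z3,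
    z0,y1]),(z1,[z0,z0,z1]),(z1,[z0,z0,z0,z1]),(z1,[y3,z6,z1,z0,z3]),(z2,[z3,y6,y1])],.ref k6 k0 [(z2,[z3,z0,z0,y1]),
    (z1,[z0,z0,z1]),(z1,[z0,z0,z0,z1]),(z1,[y3,z6,z0,z1,z3]),(z2,[z3,y6,z0,y1])],.ref k6 k0 [(z1,[z1,z1]),(z1,[z0,z0,
    z1]),(z1,[z0,z0,z0,z1]),(z1,[y2,z4,z0,z0,z3]),(z1,[z1,y2])],.ref k6 k0 [(z1,[z3,z0,y2]),(z1,[z0,z0,z1]),(z1,[z0,
    z0,z0,z1]),(z1,[y6,z6,z4,z0,z3]),(z1,[z3,y3,y2])],.ref k6 k0 [(z1,[z3,z0,y1,y1]),(z1,[z0,z0,z1]),(z1,[z0,z0,z0,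
    z1]),(z1,[y6,z6,z2,z2,z3]),(z1,[z3,y3,y1,y1])],.ref k6 k0 [(z1,[y3,z6,z1,z0,z3]),(z1,[z0,z0,z1]),(z1,[z0,z0,z0,
    z1]),(z1,[z6,y6,y2,z0,y3]),(z1,[y3,z3,z1,z0,z3])],.ref k6 k0 [(z2,[z3,z3,y1]),(z1,[z0,z0,z1]),(z1,[z0,z0,z0,z1]),
    (z1,[y3,z3,z1,z0,z3]),(z2,[z3,y3,y1])],.ref k6 k0 [(z1,[z3,z3,z0,z1,z3,y3]),(z1,[z0,z0,z1]),(z1,[z0,z0,z0,z1]),
    (z1,[y6,z0,z0,y2,y3,z6]),(z1,[z3,z0,z0,z1,z3,y3])],.ref k6 k0 [(z1,[z3,z0,z0,y2]),(z1,[z0,z0,z1]),(z1,[z0,z0,z0,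
    z1]),(z1,[y6,z6,z0,z4,z3]),(z1,[z3,y3,z0,y2])],.ref k6 k0 [(z1,[y3,z6,z0,z1,z3]),(z1,[z0,z0,z1]),(z1,[z0,z0,z0,
    z1]),(z1,[z6,y6,z0,y2,y3]),(z1,[y3,z3,z0,z1,z3])],.ref k6 k0 [(z1,[z3,z3,y2]),(z1,[z0,z0,z1]),(z1,[z0,z0,z0,z1]),
    (z1,[y6,z0,z4,z0,z3]),(z1,[z3,z0,y2])],.ref k6 k0 [(z2,[y3,z6,z1,z1,z3]),(z1,[z0,z0,z1]),(z1,[z0,z0,z0,z1]),(z1,
    [z3,z0,y1,y1]),(z2,[y3,z0,z1,z1,z3])],.ref k6 k0 [(z4,[y3,z12,z1,z0,z6]),(z1,[z0,z0,z1]),(z1,[z0,z0,z0,z1]),(z2,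
    [z3,z0,y1]),(z4,[y3,z0,z1,z0,z6])],.ref k6 k0 [(z2,[y3,z3,z0,y1,z0,z3]),(z1,[z0,z0,z1]),(z1,[z0,z0,z0,z1]),(z1,
    [z3,z3,z0,z1,z3,y3]),(z2,[y3,y3,z0,y1,z0,z3])],.ref k6 k0 [(z1,[z3,z3,y1,y1]),(z1,[z0,z0,z1]),(z1,[z0,z0,z0,z1]),
    (z1,[y6,z0,z2,z2,z3]),(z1,[z3,z0,y1,y1])],.ref k6 k0 [(z2,[z3,z6,y1]),(z1,[z0,z0,z1]),(z1,[z0,z0,z0,z1]),(z1,[y3,
    z0,z1,z0,z3]),(z2,[z3,z0,y1])],.ref k6 k0 [(z1,[z3,z6,z0,z1,z3,y3]),(z1,[z0,z0,z1]),(z1,[z0,z0,z0,z1]),(z1,[y6,y6,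
    z0,y2,y3,z6]),(z1,[z3,z3,z0,z1,z3,y3])],.ref k6 k0 [(z2,[y1,z6,z0,z0,z3]),(z1,[z0,z0,z1]),(z1,[z0,z0,z0,z1]),(z1,
    [z1]),(z2,[y1,z0,z0,z0,z3])],.ref k6 k0 [(z2,[z3,z9,z1,z1,z3,y3]),(z1,[z0,z0,z1]),(z1,[z0,z0,z0,z1]),(z1,[y3,y3,
    y1,y1,z0,z3]),(z2,[z3,z3,z1,z1,z3,y3])],.ref k6 k0 [(z1,[z3,z9,z2,z2,z6,y6]),(z1,[z0,z0,z1]),(z1,[z0,z0,z0,z1]),
    (z1,[y6,y12,y4,y4,y9,z12]),(z1,[z3,z6,z2,z2,z6,y6])]]]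

noncomputable def cT6_2_n3_2 : List TN :=
  [.lp [(nat_lit 292),(nat_lit 324),(nat_lit 342),(nat_lit 300),(nat_lit 346),(nat_lit 312)] [k27,k27,k11,k11,k2,k2,k23,
    k23,k0,k0,k17,k17] k0 [[k0,k0,k0,k8],[k0,k0,k0,k0,k0,k0,k0,k10,k0,k0,k48],[k0,k8,k0,k0,k0,k18],[k0,k0,k0,k0,k0,
    k22],[k0,k0,k22,k18,k0,k0,k0,k0,k0,k0,k0,k26],[k0,k0,k0,k0,k0,k0,k0,k0,k0,k0,k0,k34],[k10],[k0,k0,k0,k0,k0,k0,k0,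
    k0,k14],[k0,k0,k0,k0,k0,k0,k0,k0,k0,k0,k20,k16],[k0,k0,k0,k0,k0,k0,k14],[k0,k0,k0,k0,k34,k26,k0,k0,k0,k16],[k48,
    k0,k0,k0,k0,k0,k0,k0,k0,k20]] (nat_lit 960) k5
    [[(k3,(nat_lit 260)),(k0,(nat_lit 292)),(k8,(nat_lit 299)),(k11,(nat_lit 318)),(k7,(nat_lit 322)),(k4,
    (nat_lit 351))],[(k1,(nat_lit 292)),(k6,(nat_lit 296)),(k2,(nat_lit 300)),(k5,(nat_lit 317)),(k9,(nat_lit 329)),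
    (k10,(nat_lit 350))],[(k1,(nat_lit 260)),(k6,(nat_lit 302)),(k10,(nat_lit 318)),(k2,(nat_lit 324)),(k9,
    (nat_lit 335)),(k5,(nat_lit 341))],[(k0,(nat_lit 300)),(k4,(nat_lit 315)),(k11,(nat_lit 318)),(k3,(nat_lit 324)),
    (k7,(nat_lit 334)),(k8,(nat_lit 335))],[(k0,(nat_lit 317)),(k4,(nat_lit 320)),(k11,(nat_lit 327)),(k7,
    (nat_lit 339)),(k3,(nat_lit 341)),(k8,(nat_lit 344))],[(k10,(nat_lit 301)),(k2,(nat_lit 315)),(k5,(nat_lit 320)),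
    (k6,(nat_lit 321)),(k9,(nat_lit 344)),(k1,(nat_lit 351))],[(k10,(nat_lit 272)),(k6,(nat_lit 300)),(k1,
    (nat_lit 322)),(k9,(nat_lit 323)),(k2,(nat_lit 334)),(k5,(nat_lit 339))],[(k0,(nat_lit 296)),(k7,(nat_lit 300)),
    (k3,(nat_lit 302)),(k11,(nat_lit 306)),(k4,(nat_lit 321)),(k8,(nat_lit 337))],[(k11,(nat_lit 315)),(k7,
    (nat_lit 323)),(k0,(nat_lit 329)),(k3,(nat_lit 335)),(k4,(nat_lit 344)),(k8,(nat_lit 346))],[(k1,(nat_lit 299)),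
    (k10,(nat_lit 313)),(k2,(nat_lit 335)),(k6,(nat_lit 337)),(k5,(nat_lit 344)),(k9,(nat_lit 346))],[(k6,
    (nat_lit 306)),(k9,(nat_lit 315)),(k1,(nat_lit 318)),(k2,(nat_lit 318)),(k5,(nat_lit 327)),(k10,(nat_lit 332))],
    [(k7,(nat_lit 272)),(k4,(nat_lit 301)),(k8,(nat_lit 313)),(k3,(nat_lit 318)),(k11,(nat_lit 332)),(k0,
    (nat_lit 350))]]
    [] k0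
    [[k3,k0,k0,k0,k0,k0],[k2,k1,k0,k0,k0,k0],[k2,k0,k0,k1,k0,k0],[k2,k0,k0,k0,k1,k0],[k1,k2,k0,k0,k0,k0],[k1,k1,k1,k0,
    k0,k0],[k1,k1,k0,k1,k0,k0],[k1,k1,k0,k0,k1,k0],[k1,k1,k0,k0,k0,k1],[k1,k0,k0,k2,k0,k0],[k1,k0,k0,k1,k1,k0],[k1,k0,
    k1,k0,k0,k1],[k1,k0,k0,k1,k0,k1],[k0,k1,k1,k1,k0,k0],[k0,k1,k0,k2,k0,k0],[k0,k1,k0,k1,k0,k1],[k0,k0,k2,k0,k0,k1],
    [k0,k0,k1,k1,k0,k1],[k0,k0,k0,k3,k0,k0],[k0,k0,k0,k2,k0,k1],[k0,k0,k0,k1,k1,k1],[k0,k0,k0,k1,k0,k2]]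
    [.ref k6 k0 [(z1,[z1]),(z1,[z0,z0,z1]),(z1,[y2,z6,z0,z3]),(z1,[z1,y3]),(z1,[z0,z0,z0,z0,z1])],.ref k6 k0 [(z2,[z3,
    z0,y1]),(z1,[z0,z0,z1]),(z1,[y3,z6,z1,z3]),(z2,[z3,y6,y1]),(z1,[z0,z0,z0,z0,z1])],.ref k6 k0 [(z1,[z1,z1]),(z1,
    [z0,z0,z1]),(z1,[y2,z4,z0,z3]),(z1,[z1,y2]),(z1,[z0,z0,z0,z0,z1])],.ref k6 k0 [(z2,[z3,z0,z0,z0,y1]),(z1,[z0,z0,
    z1]),(z1,[y3,z6,z0,z3,z1]),(z2,[z3,y6,z0,z0,y1]),(z1,[z0,z0,z0,z0,z1])],.ref k6 k0 [(z1,[z3,z0,y2]),(z1,[z0,z0,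
    z1]),(z1,[y6,z6,z4,z3]),(z1,[z3,y3,y2]),(z1,[z0,z0,z0,z0,z1])],.ref k6 k0 [(z1,[y3,z6,z1,z3]),(z1,[z0,z0,z1]),(z1,
    [z6,y6,y2,y3]),(z1,[y3,z3,z1,z3]),(z1,[z0,z0,z0,z0,z1])],.ref k6 k0 [(z2,[z3,z3,y1]),(z1,[z0,z0,z1]),(z1,[y3,z3,
    z1,z3]),(z2,[z3,y3,y1]),(z1,[z0,z0,z0,z0,z1])],.ref k6 k0 [(z1,[z3,z0,y1,z0,y1]),(z1,[z0,z0,z1]),(z1,[y6,z6,z2,z3,
    z2]),(z1,[z3,y3,y1,z0,y1]),(z1,[z0,z0,z0,z0,z1])],.ref k6 k0 [(z1,[z3,z3,z0,z3,z1,y3]),(z1,[z0,z0,z1]),(z1,[y6,z0,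
    z0,y3,y2,z6]),(z1,[z3,z0,z0,z3,z1,y3]),(z1,[z0,z0,z0,z0,z1])],.ref k6 k0 [(z1,[z1,z2]),(z1,[z0,z0,z1]),(z1,[y2,z2,
    z0,z3]),(z1,[z1,y1]),(z1,[z0,z0,z0,z0,z1])],.ref k6 k0 [(z2,[z3,z3,z0,z0,y1]),(z1,[z0,z0,z1]),(z1,[y3,z3,z0,z3,
    z1]),(z2,[z3,y3,z0,z0,y1]),(z1,[z0,z0,z0,z0,z1])],.ref k6 k0 [(z1,[y3,z3,y1,z0,y1,z3]),(z1,[z0,z0,z1]),(z1,[z6,z0,
    z2,z3,z2,y6]),(z1,[y3,z0,y1,z0,y1,z3]),(z1,[z0,z0,z0,z0,z1])],.ref k6 k0 [(z2,[z3,z6,z1,z3,z1,y3]),(z1,[z0,z0,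
    z1]),(z1,[y3,z0,y1,z0,y1,z3]),(z2,[z3,z0,z1,z3,z1,y3]),(z1,[z0,z0,z0,z0,z1])],.ref k6 k0 [(z1,[y3,z3,z1,z3]),(z1,
    [z0,z0,z1]),(z1,[z6,z0,y2,y3]),(z1,[y3,z0,z1,z3]),(z1,[z0,z0,z0,z0,z1])],.ref k6 k0 [(z2,[z3,z6,y1]),(z1,[z0,z0,
    z1]),(z1,[y3,z0,z1,z3]),(z2,[z3,z0,y1]),(z1,[z0,z0,z0,z0,z1])],.ref k6 k0 [(z1,[z3,z6,z0,z3,z1,y3]),(z1,[z0,z0,
    z1]),(z1,[y6,y6,z0,y3,y2,z6]),(z1,[z3,z3,z0,z3,z1,y3]),(z1,[z0,z0,z0,z0,z1])],.ref k6 k0 [(z4,[y3,z9,y1,z3,y1,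
    z3]),(z1,[z0,z0,z1]),(z2,[z3,z3,z1,z3,z1,y3]),(z4,[y3,y3,y1,z3,y1,z3]),(z1,[z0,z0,z0,z0,z1])],.ref k6 k0 [(z1,[y3,
    z0,y1,z0,y1,z3]),(z1,[z0,z0,z1]),(z1,[z6,z6,z2,z3,z2,y6]),(z1,[y3,y3,y1,z0,y1,z3]),(z1,[z0,z0,z0,z0,z1])],
    .ref k6 k0 [(z1,[z1,z3]),(z1,[z0,z0,z1]),(z1,[y2,z0,z0,z3]),(z1,[z1]),(z1,[z0,z0,z0,z0,z1])],.ref k6 k0 [(z2,[z3,
    z9,z1,z3,z1,y3]),(z1,[z0,z0,z1]),(z1,[y3,y3,y1,z0,y1,z3]),(z2,[z3,z3,z1,z3,z1,y3]),(z1,[z0,z0,z0,z0,z1])],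
    .ref k6 k0 [(z1,[z3,z6,z1,z3,z0,y3]),(z1,[z0,z0,z1]),(z1,[y6,y6,y2,y3,z0,z6]),(z1,[z3,z3,z1,z3,z0,y3]),(z1,[z0,z0,
    z0,z0,z1])],.ref k6 k0 [(z1,[z3,z9,z2,z6,z2,y6]),(z1,[z0,z0,z1]),(z1,[y6,y12,y4,y9,y4,z12]),(z1,[z3,z6,z2,z6,z2,
    y6]),(z1,[z0,z0,z0,z0,z1])]],
    .lp [(nat_lit 320),(nat_lit 322),(nat_lit 328),(nat_lit 342),(nat_lit 284),(nat_lit 320)] [k11,k11,k10,k10,k7,k7,k0,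
    k0,k29,k29,k11,k11] k0 [[k0,k0,k2,k6],[k0,k0,k0,k0,k0,k0,k0,k0,k0,k0,k0,k36],[k0,k6,k0,k0,k0,k0,k0,k0,k34,k26],
    [k0,k2],[k0,k0,k0,k0,k0,k0,k0,k38,k0,k0,k14],[k0,k0,k0,k0,k0,k0,k0,k2,k0,k0,k18],[k0,k0,k0,k0,k2,k38],[k0,k0,k0,
    k0,k0,k0,k0,k0,k24,k12],[k0,k0,k0,k26,k0,k0,k12],[k0,k0,k0,k34,k0,k0,k24],[k36],[k0,k0,k0,k0,k18,
    k14]] (nat_lit 960) k5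
    [[(k8,(nat_lit 302)),(k4,(nat_lit 310)),(k7,(nat_lit 313)),(k11,(nat_lit 320)),(k3,(nat_lit 321)),(k0,
    (nat_lit 356))],[(k9,(nat_lit 302)),(k2,(nat_lit 315)),(k10,(nat_lit 320)),(k5,(nat_lit 322)),(k6,(nat_lit 331)),
    (k1,(nat_lit 356))],[(k10,(nat_lit 285)),(k9,(nat_lit 303)),(k1,(nat_lit 321)),(k2,(nat_lit 324)),(k5,
    (nat_lit 331)),(k6,(nat_lit 332))],[(k8,(nat_lit 277)),(k11,(nat_lit 287)),(k0,(nat_lit 315)),(k3,(nat_lit 324)),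
    (k4,(nat_lit 325)),(k7,(nat_lit 332))],[(k0,(nat_lit 322)),(k4,(nat_lit 328)),(k3,(nat_lit 331)),(k7,
    (nat_lit 335)),(k8,(nat_lit 340)),(k11,(nat_lit 350))],[(k6,(nat_lit 297)),(k9,(nat_lit 308)),(k1,(nat_lit 310)),
    (k2,(nat_lit 325)),(k5,(nat_lit 328)),(k10,(nat_lit 342))],[(k1,(nat_lit 313)),(k2,(nat_lit 332)),(k5,
    (nat_lit 335)),(k6,(nat_lit 340)),(k10,(nat_lit 345)),(k9,(nat_lit 351))],[(k4,(nat_lit 297)),(k0,(nat_lit 331)),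
    (k3,(nat_lit 332)),(k8,(nat_lit 337)),(k7,(nat_lit 340)),(k11,(nat_lit 343))],[(k8,(nat_lit 272)),(k11,
    (nat_lit 278)),(k0,(nat_lit 302)),(k3,(nat_lit 303)),(k4,(nat_lit 308)),(k7,(nat_lit 351))],[(k9,(nat_lit 272)),
    (k2,(nat_lit 277)),(k1,(nat_lit 302)),(k10,(nat_lit 302)),(k6,(nat_lit 337)),(k5,(nat_lit 340))],[(k9,
    (nat_lit 278)),(k2,(nat_lit 287)),(k1,(nat_lit 320)),(k10,(nat_lit 320)),(k6,(nat_lit 343)),(k5,(nat_lit 350))],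
    [(k3,(nat_lit 285)),(k8,(nat_lit 302)),(k0,(nat_lit 320)),(k11,(nat_lit 320)),(k4,(nat_lit 342)),(k7,
    (nat_lit 345))]]
    [] k0
    [[k1,k1,k0,k0,k1,k0],[k1,k1,k0,k0,k0,k1],[k1,k1,k1,k0,k0,k0],[k1,k0,k1,k0,k1,k0],[k1,k0,k1,k1,k0,k0],[k1,k0,k0,k1,
    k1,k0],[k1,k0,k0,k0,k2,k0],[k1,k0,k0,k0,k1,k1],[k0,k2,k0,k0,k1,k0],[k0,k2,k0,k0,k0,k1],[k0,k1,k1,k0,k1,k0],[k0,k1,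
    k0,k0,k2,k0],[k0,k1,k0,k0,k1,k1],[k0,k1,k0,k0,k0,k2],[k0,k0,k1,k0,k2,k0],[k0,k0,k0,k0,k3,k0],[k0,k0,k0,k0,k2,k1],
    [k0,k0,k0,k0,k1,k2]]
    [.ref k17 k0 [(z1,[z0,z1]),(z1,[z0,z0,z1]),(z1,[y3,z1,z1,z3]),(z1,[z0,y1,y1,y3,z3])],.ref k5 k7 [(z1,[z3,y1,y1]),
    (z1,[z0,z1]),(z1,[z0,z0,z1]),(z1,[y3,z1,z1,z3])],.ref k43 k0 [(z1,[z0,z1]),(z1,[z0,z0,z1]),(z1,[z3,y1,y1]),(z1,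
    [z0,y1,y1,y3,z3])],.ref k5 k7 [(z1,[y3,z1,z0,z3]),(z1,[z0,z1]),(z1,[z0,z0,z1]),(z1,[z3,y1])],.ref k43 k0 [(z1,[z0,
    z1]),(z1,[z0,z0,z1]),(z1,[z3,z0,z1,z3,y3]),(z1,[z0,y1,y1,y3,z3])],.ref k17 k0 [(z1,[z0,z1]),(z1,[z0,z0,z1]),(z1,
    [y3,z0,y1,z0,z3]),(z1,[z0,y1,y1,y3,z3])],.ref k17 k0 [(z1,[z0,z1]),(z1,[z0,z0,z1]),(z2,[y3,z1,z0,z6]),(z1,[z0,y1,
    y1,y3,z3])],.ref k43 k0 [(z1,[z0,z1]),(z1,[z0,z0,z1]),(z1,[y3,z1,z0,z3]),(z1,[z0,y1,y1,y3,z3])],.ref k17 k0 [(z1,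
    [z0,z1]),(z1,[z0,z0,z1]),(z1,[y3,z0,z2,z3]),(z1,[z0,y1,y1,y3,z3])],.ref k5 k7 [(z1,[z3,z0,y2]),(z1,[z0,z1]),(z1,
    [z0,z0,z1]),(z1,[y3,z0,z2,z3])],.ref k5 k7 [(z1,[y3,z0,z1,z3]),(z1,[z0,z1]),(z1,[z0,z0,z1]),(z1,[z3,z0,y1])],
    .ref k17 k0 [(z1,[z0,z1]),(z1,[z0,z0,z1]),(z2,[y3,z0,z1,z6]),(z1,[z0,y1,y1,y3,z3])],.ref k43 k0 [(z1,[z0,z1]),(z1,
    [z0,z0,z1]),(z1,[y3,z0,z1,z3]),(z1,[z0,y1,y1,y3,z3])],.ref k5 k7 [(z2,[z3,z0,y1]),(z1,[z0,z1]),(z1,[z0,z0,z1]),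
    (z2,[y3,z0,z1,z6])],.ref k92 k7 [(z1,[y1,z0,z0,z1]),(z1,[z0,z1]),(z1,[z0,z0,z1]),(z1,[z1])],.ref k17 k0 [(z1,[z0,
    z1]),(z1,[z0,z0,z1]),(z1,[y1,z0,z0,z3]),(z1,[z0,y1,y1,y3,z3])],.ref k165 k4 [(z1,[y1,z0,z0,z1]),(z1,[z0,z0,z1]),
    (z1,[z0,z1]),(z1,[z1])],.ref k166 k1 [(z1,[y1,z0,z0,z1]),(z1,[z0,y1,y1,y3,z3]),(z1,[z1]),(z1,[z0,z1])]],
    .leafM k6 [k0,k1,k2,k3,k4,k5] [(z2,[y2,y1,y1,z2])] [],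
    .leafM k6 [k1,k2,k3,k4,k5,k0] [(z1,[z0,y1,y1,y1,z1])] [],
    .lp [(nat_lit 598),(nat_lit 648),(nat_lit 626),(nat_lit 648),(nat_lit 670),(nat_lit 646)] [k36,k36,k11,k11,k22,k22,
    k11,k11,k0,k0,k12,k12] k0 [[k0,k0,k4,k0,k0,k0,k0,k0,k0,k0,k46,k22],[k0,k0,k0,k0,k0,k0,k50,k26],[k0,k0,k0,k0,k0,
    k46],[k0,k4,k0,k0,k0,k26],[k0,k0,k26,k46],[k0,k0,k0,k0,k0,k0,k0,k24],[k26,k0,k0,k0,k24,k0,k0,k0,k0,k22],[k50,k0,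
    k0,k0,k0,k0,k0,k0,k0,k2],[k0,k0,k0,k0,k0,k0,k2,k22],[k0,k0,k0,k0,k0,k0,k0,k0,k0,k0,k6,k6],[k0,k22,k0,k0,k0,k0,k0,
    k0,k6],[k0,k46,k0,k0,k0,k0,k0,k0,k6]] (nat_lit 1920) k5
    [[(k0,(nat_lit 552)),(k4,(nat_lit 612)),(k11,(nat_lit 616)),(k7,(nat_lit 623)),(k8,(nat_lit 640)),(k3,
    (nat_lit 645))],[(k1,(nat_lit 552)),(k10,(nat_lit 600)),(k5,(nat_lit 608)),(k2,(nat_lit 623)),(k9,(nat_lit 660)),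
    (k6,(nat_lit 673))],[(k9,(nat_lit 609)),(k6,(nat_lit 622)),(k5,(nat_lit 637)),(k1,(nat_lit 645)),(k2,
    (nat_lit 652)),(k10,(nat_lit 693))],[(k4,(nat_lit 591)),(k0,(nat_lit 623)),(k11,(nat_lit 647)),(k3,(nat_lit 652)),
    (k8,(nat_lit 659)),(k7,(nat_lit 674))],[(k4,(nat_lit 600)),(k0,(nat_lit 608)),(k11,(nat_lit 636)),(k3,
    (nat_lit 637)),(k8,(nat_lit 648)),(k7,(nat_lit 683))],[(k2,(nat_lit 591)),(k5,(nat_lit 600)),(k1,(nat_lit 612)),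
    (k10,(nat_lit 636)),(k6,(nat_lit 637)),(k9,(nat_lit 672))],[(k1,(nat_lit 623)),(k6,(nat_lit 624)),(k10,
    (nat_lit 647)),(k9,(nat_lit 659)),(k2,(nat_lit 674)),(k5,(nat_lit 683))],[(k3,(nat_lit 622)),(k7,(nat_lit 624)),
    (k4,(nat_lit 637)),(k8,(nat_lit 637)),(k11,(nat_lit 649)),(k0,(nat_lit 673))],[(k3,(nat_lit 609)),(k7,
    (nat_lit 659)),(k0,(nat_lit 660)),(k8,(nat_lit 668)),(k4,(nat_lit 672)),(k11,(nat_lit 680))],[(k6,(nat_lit 637)),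
    (k1,(nat_lit 640)),(k5,(nat_lit 648)),(k2,(nat_lit 659)),(k10,(nat_lit 664)),(k9,(nat_lit 668))],[(k1,
    (nat_lit 616)),(k5,(nat_lit 636)),(k10,(nat_lit 640)),(k2,(nat_lit 647)),(k6,(nat_lit 649)),(k9,(nat_lit 680))],
    [(k0,(nat_lit 600)),(k4,(nat_lit 636)),(k11,(nat_lit 640)),(k7,(nat_lit 647)),(k8,(nat_lit 664)),(k3,
    (nat_lit 693))]]
    [] k0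
    [[k3,k0,k0,k0,k0,k0],[k2,k1,k0,k0,k0,k0],[k2,k0,k1,k0,k0,k0],[k2,k0,k0,k1,k0,k0],[k2,k0,k0,k0,k1,k0],[k2,k0,k0,k0,
    k0,k1],[k1,k1,k1,k0,k0,k0],[k1,k1,k0,k0,k0,k1],[k1,k0,k2,k0,k0,k0],[k1,k0,k1,k0,k0,k1],[k1,k1,k0,k1,k0,k0],[k1,k0,
    k1,k1,k0,k0],[k1,k0,k0,k1,k0,k1],[k1,k1,k0,k0,k1,k0],[k1,k0,k0,k0,k0,k2],[k0,k2,k1,k0,k0,k0],[k0,k1,k2,k0,k0,k0],
    [k0,k1,k1,k1,k0,k0],[k0,k1,k0,k1,k0,k1],[k0,k1,k1,k0,k1,k0],[k0,k0,k3,k0,k0,k0],[k0,k0,k2,k0,k0,k1],[k0,k0,k1,k0,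
    k0,k2],[k0,k0,k0,k3,k0,k0]]
    [.ref k6 k0 [(z1,[z1]),(z1,[z0,z0,z1]),(z4,[y3,z9,z0,z4]),(z2,[y1,z3,z0,z0,z6]),(z1,[z0,y3,y1,y1,y3,z3])],
    .ref k6 k0 [(z2,[z3,z0,y1]),(z1,[z0,z0,z1]),(z8,[y9,z18,z3,z8]),(z4,[y3,z6,z1,z0,z12]),(z1,[z0,y3,y1,y1,y3,z3])],
    .ref k6 k0 [(z5,[z12,y9,z0,y4]),(z1,[z0,z0,z1]),(z5,[y9,z18,z0,z8]),(z5,[y6,z12,z0,z2,z15]),(z1,[z0,y3,y1,y1,y3,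
    z3])],.ref k6 k0 [(z1,[z2,y1,z0,z0,y2]),(z1,[z0,z0,z1]),(z2,[y3,z6,z0,z2,z3]),(z1,[y1,z2,z0,z0,z4]),(z1,[z0,y3,y1,
    y1,y3,z3])],.ref k6 k0 [(z2,[z3,z3,z1,z1,z3,y3]),(z1,[z0,z0,z1]),(z8,[y9,z9,y3,z5,y9,z9]),(z4,[y3,z3,y1,y1,z9,
    z3]),(z1,[z0,y3,y1,y1,y3,z3])],.ref k6 k0 [(z3,[z4,z1]),(z1,[z0,z0,z1]),(z1,[y1,z2,z0,z1]),(z3,[y2,z4,z0,z0,z9]),
    (z1,[z0,y3,y1,y1,y3,z3])],.ref k6 k0 [(z1,[z12,y9,y4,y4]),(z1,[z0,z0,z1]),(z1,[y9,z9,z3,z4]),(z1,[y6,z6,z2,z2,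
    z3]),(z1,[z0,y3,y1,y1,y3,z3])],.ref k6 k0 [(z5,[z12,z3,y4]),(z1,[z0,z0,z1]),(z5,[y9,z9,z3,z5]),(z5,[y6,z6,z2,z0,
    z15]),(z1,[z0,y3,y1,y1,y3,z3])],.ref k6 k0 [(z1,[y6,z9,z0,z4]),(z1,[z0,z0,z1]),(z2,[z9,y9,z0,y4]),(z1,[z3,y3,z0,
    y2,z3]),(z1,[z0,y3,y1,y1,y3,z3])],.ref k6 k0 [(z1,[z6,y3,z0,y2]),(z1,[z0,z0,z1]),(z2,[y9,z9,z0,z5]),(z1,[y3,z3,z0,
    z1,z3]),(z1,[z0,y3,y1,y1,y3,z3])],.ref k6 k0 [(z1,[z6,y3,y2,z0,y6]),(z1,[z0,z0,z1]),(z2,[y9,z9,z3,z2,z9]),(z1,[y3,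
    z3,z1,z0,z6]),(z1,[z0,y3,y1,y1,y3,z3])],.ref k6 k0 [(z1,[y12,z15,z0,z4,z12]),(z1,[z0,z0,z1]),(z1,[z9,y9,z0,y2,
    y9]),(z1,[z6,y6,z0,y2,y3]),(z1,[z0,y3,y1,y1,y3,z3])],.ref k6 k0 [(z1,[z4,y1,z0,z0,y4]),(z1,[z0,z0,z1]),(z1,[y3,z3,
    z0,z1,z3]),(z1,[y2,z2,z0,z0,z5]),(z1,[z0,y3,y1,y1,y3,z3])],.ref k6 k0 [(z1,[z3,z3,z0,z1,z3,y3]),(z1,[z0,z0,z1]),
    (z4,[y9,z0,z0,z1,y9,z9]),(z2,[y3,z0,z0,y1,z3,z3]),(z1,[z0,y3,y1,y1,y3,z3])],.ref k6 k0 [(z1,[z2,z1]),(z1,[z0,z0,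
    z1]),(z2,[y3,z3,z0,z2]),(z1,[y1,z1,z0,z0,z3]),(z1,[z0,y3,y1,y1,y3,z3])],.ref k6 k0 [(z3,[y12,z9,z8,z4]),(z1,[z0,
    z0,z1]),(z1,[z3,z0,y2]),(z3,[z6,z0,y4,y2,z9]),(z1,[z0,y3,y1,y1,y3,z3])],.ref k6 k0 [(z3,[y6,z9,z2,z4]),(z1,[z0,z0,
    z1]),(z2,[z3,z0,y1]),(z3,[z3,z0,y1,y2,z9]),(z1,[z0,y3,y1,y1,y3,z3])],.ref k6 k0 [(z5,[y12,z15,z4,z4,z12]),(z1,[z0,
    z0,z1]),(z5,[z9,z0,y3,z2,y9]),(z5,[z6,z0,y2,y2,z9]),(z1,[z0,y3,y1,y1,y3,z3])],.ref k6 k0 [(z1,[y12,z3,z4,z0,z12]),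
    (z1,[z0,z0,z1]),(z1,[z9,z0,y3,z1,y9]),(z1,[z6,z0,y2,z0,y3]),(z1,[z0,y3,y1,y1,y3,z3])],.ref k6 k0 [(z1,[y4,y1,z0,
    z0,y4,z4]),(z1,[z0,z0,z1]),(z1,[z3,z3,z0,z1,z3,y3]),(z1,[z2,z2,z0,z0,z5,y2]),(z1,[z0,y3,y1,y1,y3,z3])],
    .ref k6 k0 [(z3,[y4,z9,z0,z4]),(z1,[z0,z0,z1]),(z1,[z1]),(z3,[z2,z0,z0,y2,z9]),(z1,[z0,y3,y1,y1,y3,z3])],
    .ref k6 k0 [(z5,[y12,z15,z0,z8]),(z1,[z0,z0,z1]),(z5,[z9,z0,z0,y1]),(z5,[z6,z0,z0,y4,z15]),(z1,[z0,y3,y1,y1,y3,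
    z3])],.ref k6 k0 [(z1,[y12,z3,z0,z4]),(z1,[z0,z0,z1]),(z1,[z9,z0,z0,y2]),(z1,[z6,z0,z0,y2,z3]),(z1,[z0,y3,y1,y1,
    y3,z3])],.ref k6 k0 [(z1,[y2,z3,z0,z0,z6]),(z1,[z0,z0,z1]),(z2,[z3,z0,z0,z2,y9]),(z1,[z1]),(z1,[z0,y3,y1,y1,y3,
    z3])]],
    .lp [k166,k142,k160,k168,k162,k160] [k1,k1,k13,k13,k4,k4,k0,k0,k3,k3,k4,k4] k0 [[k0,k0,k24,k0,k0,k0,k0,k0,k0,k0,k36,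
    k6],[k0,k0,k0,k0,k0,k0,k12],[k0,k0,k0,k0,k0,k18],[k0,k24,k0,k0,k0,k18],[k0,k0,k18,k18,k0,k0,k0,k8],[k0,k0,k0,k0,
    k0,k0,k0,k16,k0,k0,k18],[k0,k0,k0,k0,k16,k8],[k12,k0,k0,k0,k0,k0,k0,k0,k2],[],[k0,k0,k0,k0,k0,k0,k2],[k0,k6],[k0,
    k36,k0,k0,k18]] (nat_lit 480) k5
    [[(k0,k130),(k7,k149),(k3,k160),(k4,k163),(k11,k163),(k8,k164)],[(k1,k130),(k5,k139),(k2,k154),(k10,k157),(k9,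
    k164),(k6,k179)],[(k9,k140),(k5,k151),(k6,k155),(k1,k160),(k2,k166),(k10,k187)],[(k4,k133),(k11,k151),(k8,k152),
    (k0,k154),(k3,k166),(k7,k173)],[(k0,k139),(k4,k142),(k3,k151),(k11,k160),(k8,k161),(k7,k182)],[(k2,k133),(k5,
    k142),(k6,k156),(k1,k163),(k9,k177),(k10,k178)],[(k1,k149),(k6,k152),(k10,k164),(k2,k173),(k9,k173),(k5,k182)],
    [(k7,k152),(k3,k155),(k4,k156),(k11,k164),(k8,k167),(k0,k179)],[(k3,k140),(k11,k159),(k8,k162),(k0,k164),(k7,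
    k173),(k4,k177)],[(k2,k152),(k5,k161),(k10,k161),(k9,k162),(k1,k164),(k6,k167)],[(k2,k151),(k9,k159),(k5,k160),
    (k10,k160),(k1,k163),(k6,k164)],[(k0,k157),(k11,k160),(k8,k161),(k7,k164),(k4,k178),(k3,k187)]]
    [] k0
    [[k3,k0,k0,k0,k0,k0],[k2,k1,k0,k0,k0,k0],[k2,k0,k1,k0,k0,k0],[k2,k0,k0,k1,k0,k0],[k2,k0,k0,k0,k1,k0],[k2,k0,k0,k0,
    k0,k1],[k1,k1,k1,k0,k0,k0],[k1,k1,k0,k0,k1,k0],[k1,k1,k0,k0,k0,k1],[k1,k0,k2,k0,k0,k0],[k1,k1,k0,k1,k0,k0],[k1,k0,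
    k1,k1,k0,k0],[k1,k0,k0,k1,k0,k1],[k0,k2,k1,k0,k0,k0],[k0,k2,k0,k0,k1,k0],[k0,k1,k2,k0,k0,k0],[k0,k1,k1,k1,k0,k0],
    [k0,k1,k0,k1,k0,k1],[k0,k1,k1,k0,k1,k0],[k0,k1,k0,k0,k2,k0],[k0,k1,k0,k0,k1,k1],[k0,k0,k3,k0,k0,k0],[k0,k0,k0,k3,
    k0,k0]]
    [.ref k6 k0 [(z1,[z1]),(z14,[y1,z3,z21]),(z7,[y2,z6,z0,z21]),(z2,[y1,z3,z0,z0,z3]),(z14,[y4,y30,y21,y42,y21,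
    z42])],.ref k6 k0 [(z9,[z14,y1,y7]),(z9,[y1,z2,z14]),(z9,[y4,z8,z2,z27]),(z18,[y14,z28,z7,z0,z27]),(z18,[y8,y38,
    y23,y54,y27,z54])],.ref k6 k0 [(z4,[z7,y2,z0,y7]),(z8,[y1,z2,z12,z1]),(z2,[y1,z2,z0,z7]),(z8,[y7,z14,z0,z7,z12]),
    (z2,[y1,y4,y3,y5,y3,z6])],.ref k6 k0 [(z1,[z2,y1,z0,z0,y1]),(z14,[y2,z4,z21,z0,z1]),(z7,[y4,z8,z0,z21,z2]),(z1,
    [y1,z2,z0,z0,z2]),(z14,[y8,y26,y21,y42,y17,z42])],.ref k6 k0 [(z8,[z14,z10,z7,z14,z7,y14]),(z16,[y2,z2,z23,y2,y1,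
    z2]),(z4,[y2,z2,y1,z10,y1,z2]),(z16,[y14,z14,y7,y14,z17,z14]),(z4,[y2,y10,y7,y14,y7,z14])],.ref k6 k0 [(z5,[z7,
    z1]),(z10,[y1,z2,z15]),(z5,[y2,z4,z0,z15]),(z10,[y7,z14,z0,z0,z15]),(z10,[y4,y22,y15,y30,y15,z30])],
    .ref k6 k0 [(z3,[z14,y5,y7,y14]),(z3,[y1,z1,z5,z1]),(z3,[y4,z4,z2,z13]),(z6,[y14,z14,z7,z14,z9]),(z6,[y8,y10,y5,
    y10,y9,z18])],.ref k6 k0 [(z3,[z14,z9,z0,z14,z7,y14]),(z6,[y2,z0,z9,y2,y1,z2]),(z3,[y4,z0,z0,z5,y2,z4]),(z3,[y7,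
    z0,z0,y7,z1,z7]),(z6,[y8,y18,y9,y26,y13,z26])],.ref k6 k0 [(z5,[z14,z1,y7]),(z5,[y1,z1,z8]),(z5,[y4,z4,z2,z15]),
    (z10,[y14,z14,z7,z0,z15]),(z10,[y8,y22,y11,y30,y15,z30])],.ref k6 k0 [(z1,[z7,y4,z0,y14]),(z2,[y1,z1,z3,z2]),(z1,
    [y2,z2,z0,z7]),(z2,[y7,z7,z0,z14,z3]),(z2,[y4,y2,y3,z2,y3,z6])],.ref k6 k0 [(z2,[z14,y8,y7,z0,y7]),(z4,[y2,z2,z7,
    z0,z1]),(z1,[y2,z2,z1,z3,z1]),(z4,[y14,z14,z7,z0,z13]),(z2,[y4,y2,y1,y6,y1,z6])],.ref k6 k0 [(z1,[z14,y11,z0,y14,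
    y7]),(z2,[y2,z2,z3,z2,z1]),(z1,[y4,z4,z0,z7,z2]),(z1,[y7,z7,z0,z7,z5]),(z2,[y8,z2,y3,z2,z1,z6])],.ref k6 k0 [(z3,
    [z14,y5,z0,z0,y7]),(z6,[y2,z2,z9,z0,z1]),(z3,[y4,z4,z0,z9,z2]),(z3,[y7,z7,z0,z0,z8]),(z6,[y8,y10,y9,y18,y5,z18])],
    .ref k6 k0 [(z1,[y7,z3,z7,z7]),(z2,[z1,z0,z2,y1]),(z1,[z2,z0,y2,z1]),(z2,[z7,z0,y7,y7,z3]),(z2,[z4,y6,y7,y10,y3,
    z6])],.ref k6 k0 [(z2,[y14,y8,z7,y14,y7,z14]),(z4,[z2,z2,z5,z2,z1,y2]),(z1,[z2,z2,y1,z5,z1,y2]),(z4,[z14,z14,y7,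
    z14,z13,y14]),(z2,[z4,y2,y5,y2,y1,z2])],.ref k6 k0 [(z3,[y14,z9,z7,z28]),(z3,[z1,z0,z4,y2]),(z3,[z4,z0,y2,z1]),
    (z6,[z14,z0,y7,y28,z9]),(z6,[z8,y18,y13,y34,y9,z18])],.ref k6 k0 [(z4,[y14,z12,z7,z14,z7]),(z8,[z2,z0,z11,y2,y1]),
    (z2,[z2,z0,y1,z4,y1]),(z8,[z14,z0,y7,y14,z5]),(z1,[z1,y3,y2,y4,y2,z3])],.ref k6 k0 [(z2,[y14,z6,z7,z0,z7]),(z4,
    [z2,z0,z5,z0,y1]),(z1,[z2,z0,y1,z3,y1]),(z4,[z14,z0,y7,z0,y1]),(z2,[z4,y6,y5,y6,y5,z6])],.ref k6 k0 [(z3,[y14,y5,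
    z0,z0,y7,z14]),(z6,[z2,z2,z9,z0,z1,y2]),(z3,[z4,z4,z0,z9,z2,y4]),(z3,[z7,z7,z0,z0,z8,y7]),(z6,[z8,y10,y9,y18,y5,
    z10])],.ref k6 k0 [(z3,[y14,y19,y7,y28,y14,z28]),(z3,[z1,z2,z5,z2,z1,y2]),(z3,[z4,z8,z2,z17,z4,y8]),(z6,[z14,z28,
    z7,z28,z23,y28]),(z6,[z8,y2,y5,y2,y1,z2])],.ref k6 k0 [(z1,[y14,y11,z0,y14,y7,z14]),(z2,[z2,z2,z3,z2,z1,y2]),(z1,
    [z4,z4,z0,z7,z2,y4]),(z1,[z7,z7,z0,z7,z5,y7]),(z2,[z8,z2,y3,z2,z1,y2])],.ref k6 k0 [(z2,[y7,z6,z0,z21]),(z4,[z1,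
    z0,z6,y3]),(z1,[z1]),(z4,[z7,z0,z0,y21,z6]),(z2,[z2,y6,y3,y12,y3,z6])],.ref k6 k0 [(z1,[y2,z3,z0,z0,z3]),(z14,[z2,
    z0,z21,z0,y3]),(z7,[z4,z0,z0,z21,y6]),(z1,[z1]),(z14,[z8,y42,y21,y42,y33,z42])]],
    .lp [(nat_lit 310),(nat_lit 320),(nat_lit 316),(nat_lit 322),(nat_lit 346),(nat_lit 304)] [k18,k18,k13,k13,k15,k15,
    k12,k12,k0,k0,k21,k21] k0 [[k0,k0,k36,k26],[k0,k0,k0,k0,k0,k0,k0,k0,k0,k0,k0,k66],[k0,k26,k0,k0,k4,k0,k0,k0,k0,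
    k62],[k0,k36,k0,k0,k24],[k0,k0,k0,k0,k0,k0,k0,k34,k0,k0,k6,k6],[k0,k0,k24,k4],[k0,k0,k0,k0,k0,k34],[k0,k0,k0,k0,
    k0,k0,k0,k0,k0,k48],[k0,k0,k0,k62,k0,k0,k48],[k0,k0,k0,k0,k0,k0,k0,k0,k0,k0,k30,k24],[k66,k0,k0,k0,k0,k6,k0,k0,
    k24],[k0,k0,k0,k0,k0,k6,k0,k0,k30]] (nat_lit 960) k5
    [[(k11,(nat_lit 277)),(k4,(nat_lit 307)),(k3,(nat_lit 315)),(k7,(nat_lit 322)),(k8,(nat_lit 352)),(k0,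
    (nat_lit 376))],[(k5,(nat_lit 277)),(k2,(nat_lit 289)),(k10,(nat_lit 307)),(k6,(nat_lit 316)),(k9,(nat_lit 328)),
    (k1,(nat_lit 376))],[(k10,(nat_lit 246)),(k1,(nat_lit 315)),(k6,(nat_lit 321)),(k9,(nat_lit 333)),(k5,
    (nat_lit 344)),(k2,(nat_lit 356))],[(k8,(nat_lit 271)),(k0,(nat_lit 289)),(k11,(nat_lit 312)),(k7,(nat_lit 317)),
    (k4,(nat_lit 342)),(k3,(nat_lit 356))],[(k0,(nat_lit 277)),(k7,(nat_lit 295)),(k4,(nat_lit 320)),(k8,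
    (nat_lit 331)),(k3,(nat_lit 344)),(k11,(nat_lit 372))],[(k6,(nat_lit 285)),(k10,(nat_lit 304)),(k1,(nat_lit 307)),
    (k5,(nat_lit 320)),(k9,(nat_lit 331)),(k2,(nat_lit 342))],[(k5,(nat_lit 295)),(k2,(nat_lit 317)),(k10,
    (nat_lit 319)),(k1,(nat_lit 322)),(k6,(nat_lit 322)),(k9,(nat_lit 368))],[(k4,(nat_lit 285)),(k0,(nat_lit 316)),
    (k3,(nat_lit 321)),(k7,(nat_lit 322)),(k8,(nat_lit 334)),(k11,(nat_lit 361))],[(k8,(nat_lit 298)),(k11,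
    (nat_lit 325)),(k0,(nat_lit 328)),(k4,(nat_lit 331)),(k3,(nat_lit 333)),(k7,(nat_lit 368))],[(k2,(nat_lit 271)),
    (k9,(nat_lit 298)),(k5,(nat_lit 331)),(k6,(nat_lit 334)),(k1,(nat_lit 352)),(k10,(nat_lit 355))],[(k1,
    (nat_lit 277)),(k10,(nat_lit 280)),(k2,(nat_lit 312)),(k9,(nat_lit 325)),(k6,(nat_lit 361)),(k5,(nat_lit 372))],
    [(k3,(nat_lit 246)),(k11,(nat_lit 280)),(k4,(nat_lit 304)),(k0,(nat_lit 307)),(k7,(nat_lit 319)),(k8,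
    (nat_lit 355))]]
    [] k0
    [[k1,k1,k1,k0,k0,k0],[k1,k1,k0,k1,k0,k0],[k1,k1,k0,k0,k1,k0],[k1,k1,k0,k0,k0,k1],[k1,k0,k2,k0,k0,k0],[k1,k0,k1,k1,
    k0,k0],[k1,k0,k1,k0,k0,k1],[k1,k0,k0,k1,k0,k1],[k1,k0,k0,k0,k0,k2],[k0,k2,k0,k0,k0,k1],[k0,k1,k1,k1,k0,k0],[k0,k1,
    k1,k0,k1,k0],[k0,k1,k0,k1,k0,k1],[k0,k1,k0,k0,k2,k0],[k0,k1,k0,k0,k1,k1],[k0,k1,k0,k0,k0,k2],[k0,k0,k2,k1,k0,k0],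
    [k0,k0,k1,k2,k0,k0],[k0,k0,k1,k0,k0,k2],[k0,k0,k0,k0,k3,k0],[k0,k0,k0,k0,k0,k3]]
    [.ref k169 k1 [(z1,[y3,z3,y2,z2]),(z2,[y4,z2,y3,z1,z2]),(z1,[z0,z0,z1]),(z2,[z2,y2,z1,y1])],.ref k131 k0 [(z1,[z0,
    z1]),(z2,[z2,z0,z1,z1,y2]),(z1,[z1,z0,z0,z1,y1]),(z2,[z0,y2,y1,y1,z2])],.ref k74 k0 [(z1,[z0,z1]),(z1,[y1,z1,z1]),
    (z2,[y2,z2,z1,z1]),(z2,[z0,y2,y1,y1,z2])],.ref k104 k6 [(z1,[y2,z2,z1]),(z2,[z0,y2,y1,y1,z2]),(z2,[z2,y2,y1,z1]),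
    (z1,[z1,y1])],.ref k36 k0 [(z1,[z0,z1]),(z2,[z1,y1,z1,y1]),(z2,[z1,y1]),(z2,[z0,y2,y1,y1,z2])],.ref k36 k0 [(z1,
    [z0,z1]),(z1,[z1,z0,z1,z0,y1]),(z2,[z2,z0,z1,z1,y2]),(z2,[z0,y2,y1,y1,z2])],.ref k131 k0 [(z1,[z0,z1]),(z2,[z2,y2,
    z1,y1]),(z1,[z1,y1]),(z2,[z0,y2,y1,y1,z2])],.ref k92 k10 [(z1,[z1,z0,z1,z0,y1]),(z1,[z4,z3,z2,z2,y4]),(z2,[z2,z0,
    z1,z1,y2]),(z1,[y2,z0,y1,z0,z2])],.ref k92 k10 [(z2,[z1,y1,z1,y1]),(z1,[z2,z1]),(z2,[z1,y1]),(z1,[y1,z1,z0,z1])],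
    .ref k169 k1 [(z2,[y6,z0,y1,z1]),(z2,[y4,y2,y1,y1,z2]),(z1,[z0,z0,z1]),(z1,[z1])],.ref k98 k5 [(z2,[y4,y6,y1,y5,
    z6]),(z1,[y6,y6,z0,y5,z6]),(z1,[z1,z1,z0,z1,y1]),(z1,[z4,z5,z0,z4,y4])],.ref k92 k10 [(z1,[y1,z0,z1]),(z1,[y4,z3,
    z2,z2]),(z2,[y2,z0,z1,z1]),(z1,[z2,z0,y1])],.ref k36 k0 [(z1,[z0,z1]),(z2,[z2,z2,z1,z1,y2]),(z1,[z1,z1,z0,z1,y1]),
    (z2,[z0,y2,y1,y1,z2])],.ref k170 k0 [(z1,[z0,z1]),(z1,[y1,z0,z2]),(z2,[y2,z0,z1,z3]),(z2,[z0,y2,y1,y1,z2])],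
    .ref k36 k0 [(z1,[z0,z1]),(z1,[y1,z0,z1]),(z2,[y2,z0,z1,z1]),(z2,[z0,y2,y1,y1,z2])],.ref k131 k0 [(z1,[z0,z1]),
    (z1,[z1]),(z2,[z2,z0,y1,z1]),(z2,[z0,y2,y1,y1,z2])],.ref k74 k0 [(z1,[z0,z1]),(z4,[z2,z2,z3,y1,y2]),(z4,[z2,z2,z1,
    z1,y2]),(z2,[z0,y2,y1,y1,z2])],.ref k171 k8 [(z2,[y4,z6,z3,z5,y6]),(z2,[z0,y2,y1,y1,z2]),(z1,[z0,y1,y1,y1,z2]),
    (z2,[z4,y6,y1,y5,z6])],.ref k36 k0 [(z1,[z0,z1]),(z2,[z2,z0,z1,y1]),(z1,[z1]),(z2,[z0,y2,y1,y1,z2])],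
    .ref k170 k0 [(z1,[z0,z1]),(z2,[y1,z0,z3]),(z2,[y1,z0,z0,z3]),(z2,[z0,y2,y1,y1,z2])],.ref k92 k10 [(z2,[z2,z0,z1,
    y1]),(z1,[z4,z3]),(z1,[z1]),(z1,[y2,z0,z0,z1])]],
    .lp [(nat_lit 288),(nat_lit 336),(nat_lit 302),(nat_lit 320),(nat_lit 352),(nat_lit 320)] [k32,k32,k8,k8,k25,k25,k16,
    k16,k0,k0,k16,k16] k0 [[k0,k0,k12,k12,k0,k0,k0,k0,k0,k0,k12],[k0,k0,k0,k0,k0,k0,k52,k18],[k0,k12,k0,k0,k0,k38,k0,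
    k0,k0,k28],[k0,k12,k0,k0,k0,k4],[k0,k0,k4,k38,k0,k0,k0,k0,k0,k0,k0,k10],[k0,k0,k0,k0,k0,k0,k2,k30],[k18,k0,k0,k0,
    k30],[k52,k0,k0,k0,k2],[k0,k0,k0,k28],[k0,k0,k0,k0,k0,k0,k0,k0,k0,k0,k4],[k0,k0,k0,k0,k0,k10],[k0,k12,k0,k0,k0,k0,
    k0,k0,k4]] (nat_lit 960) k5
    [[(k0,(nat_lit 276)),(k4,(nat_lit 295)),(k11,(nat_lit 300)),(k3,(nat_lit 312)),(k7,(nat_lit 314)),(k8,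
    (nat_lit 320))],[(k1,(nat_lit 276)),(k5,(nat_lit 283)),(k2,(nat_lit 300)),(k10,(nat_lit 304)),(k9,(nat_lit 338)),
    (k6,(nat_lit 356))],[(k9,(nat_lit 292)),(k6,(nat_lit 310)),(k1,(nat_lit 312)),(k5,(nat_lit 331)),(k10,
    (nat_lit 340)),(k2,(nat_lit 348))],[(k4,(nat_lit 281)),(k0,(nat_lit 300)),(k8,(nat_lit 316)),(k11,(nat_lit 328)),
    (k7,(nat_lit 332)),(k3,(nat_lit 348))],[(k0,(nat_lit 283)),(k4,(nat_lit 298)),(k8,(nat_lit 327)),(k3,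
    (nat_lit 331)),(k11,(nat_lit 339)),(k7,(nat_lit 349))],[(k2,(nat_lit 281)),(k1,(nat_lit 295)),(k5,(nat_lit 298)),
    (k10,(nat_lit 301)),(k6,(nat_lit 313)),(k9,(nat_lit 357))],[(k6,(nat_lit 290)),(k1,(nat_lit 314)),(k10,
    (nat_lit 320)),(k2,(nat_lit 332)),(k9,(nat_lit 334)),(k5,(nat_lit 349))],[(k7,(nat_lit 290)),(k3,(nat_lit 310)),
    (k4,(nat_lit 313)),(k11,(nat_lit 320)),(k8,(nat_lit 336)),(k0,(nat_lit 356))],[(k3,(nat_lit 292)),(k7,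
    (nat_lit 334)),(k11,(nat_lit 336)),(k0,(nat_lit 338)),(k8,(nat_lit 352)),(k4,(nat_lit 357))],[(k2,(nat_lit 316)),
    (k1,(nat_lit 320)),(k5,(nat_lit 327)),(k6,(nat_lit 336)),(k10,(nat_lit 340)),(k9,(nat_lit 352))],[(k1,
    (nat_lit 300)),(k6,(nat_lit 320)),(k10,(nat_lit 320)),(k2,(nat_lit 328)),(k9,(nat_lit 336)),(k5,(nat_lit 339))],
    [(k4,(nat_lit 301)),(k0,(nat_lit 304)),(k7,(nat_lit 320)),(k11,(nat_lit 320)),(k3,(nat_lit 340)),(k8,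
    (nat_lit 340))]]
    [] k0
    [[k3,k0,k0,k0,k0,k0],[k2,k1,k0,k0,k0,k0],[k2,k0,k1,k0,k0,k0],[k2,k0,k0,k1,k0,k0],[k2,k0,k0,k0,k1,k0],[k2,k0,k0,k0,
    k0,k1],[k1,k1,k1,k0,k0,k0],[k1,k1,k0,k0,k0,k1],[k1,k0,k2,k0,k0,k0],[k1,k0,k1,k0,k0,k1],[k1,k1,k0,k1,k0,k0],[k1,k0,
    k1,k1,k0,k0],[k1,k0,k0,k1,k0,k1],[k1,k1,k0,k0,k1,k0],[k1,k0,k0,k0,k0,k2],[k0,k2,k0,k0,k1,k0],[k0,k1,k2,k0,k0,k0],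
    [k0,k1,k1,k1,k0,k0],[k0,k1,k0,k2,k0,k0],[k0,k1,k0,k1,k0,k1],[k0,k1,k1,k0,k1,k0],[k0,k0,k3,k0,k0,k0],[k0,k0,k2,k0,
    k0,k1],[k0,k0,k1,k2,k0,k0],[k0,k0,k0,k3,k0,k0],[k0,k0,k0,k2,k0,k1]]
    [.ref k6 k0 [(z1,[z1]),(z2,[z1,y3,z2]),(z1,[y1,z3,z0,z1]),(z2,[y1,z3,z0,z0,z6]),(z4,[y1,y9,y4,y4,y12,z12])],
    .ref k6 k0 [(z5,[z6,z3,y2]),(z5,[z3,y6,z4]),(z5,[y6,z12,z2,z5]),(z5,[y3,z6,z1,z0,z15]),(z10,[y3,y24,y9,y10,y30,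
    z30])],.ref k6 k0 [(z1,[z3,y3,z0,y1]),(z2,[z3,y6,z2,y1]),(z1,[y3,z6,z0,z2]),(z2,[y3,z6,z0,z1,z6]),(z4,[y3,y6,y4,
    y3,y12,z12])],.ref k6 k0 [(z1,[z2,y1,z0,z0,y2]),(z1,[z1,y2,z1,z0,y1]),(z1,[y2,z4,z0,z1,z2]),(z1,[y1,z2,z0,z0,z4]),
    (z2,[y1,y4,y2,y2,y5,z6])],.ref k6 k0 [(z7,[z12,z9,z4,z4,z12,y12]),(z7,[z6,y6,z9,z2,z6,y6]),(z7,[y12,z12,y4,z3,y12,
    z12]),(z7,[y6,z6,y2,y2,z15,z6]),(z7,[y3,y18,y8,y8,y24,z24])],.ref k6 k0 [(z3,[z4,z1]),(z3,[z2,y4,z3]),(z3,[y4,z8,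
    z0,z3]),(z3,[y2,z4,z0,z0,z9]),(z3,[y1,y7,y3,y3,y9,z9])],.ref k6 k0 [(z1,[z6,y3,y2,y2]),(z1,[z3,y3,z0,y1]),(z1,[y6,
    z6,z2,z3]),(z1,[y3,z3,z1,z1,z3]),(z2,[y3,y3,y1,y1,y6,z6])],.ref k6 k0 [(z7,[z12,z9,y4]),(z7,[z6,y6,z5]),(z7,[y12,
    z12,z4,z7]),(z7,[y6,z6,z2,z0,z21]),(z7,[y3,y18,y6,y7,y21,z21])],.ref k6 k0 [(z1,[y3,z6,z0,z2]),(z2,[y3,z3,z2,z2]),
    (z1,[z3,y3,z0,y1]),(z2,[z3,y3,z0,y2,z6]),(z4,[z3,y15,y4,y6,y12,z12])],.ref k6 k0 [(z1,[z12,y9,z0,y4]),(z1,[z6,y6,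
    z1,y2]),(z1,[y12,z12,z0,z5]),(z1,[y6,z6,z0,z2,z3]),(z1,[y3,z0,y1,z0,y3,z3])],.ref k6 k0 [(z1,[z3,z0,y1,z0,y3]),
    (z2,[z3,y3,z1,z0,y3]),(z1,[y3,z3,z1,z1,z3]),(z2,[y3,z3,z1,z0,z9]),(z4,[y3,y9,y3,y4,y9,z12])],.ref k6 k0 [(z1,[y6,
    z9,z0,z2,z6]),(z1,[y3,z3,z1,z1,z3]),(z1,[z6,y6,z0,y1,y6]),(z1,[z3,y3,z0,y1]),(z2,[z3,y9,y2,y3,y9,z6])],
    .ref k6 k0 [(z1,[z4,y1,z0,z0,y4]),(z1,[z2,y2,z1,z0,y2]),(z1,[y4,z4,z0,z1,z4]),(z1,[y2,z2,z0,z0,z5]),(z1,[y1,y2,y1,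
    y1,y2,z3])],.ref k6 k0 [(z5,[z12,z15,z0,z4,z12,y12]),(z5,[z6,z0,z5,z2,z6,y6]),(z5,[y12,z0,z0,z1,y12,z12]),(z5,[y6,
    z0,z0,y2,z9,z6]),(z5,[y3,y15,y5,y6,y18,z18])],.ref k6 k0 [(z1,[z2,z1]),(z1,[z1,y1,z1]),(z1,[y2,z2,z0,z1]),(z1,[y1,
    z1,z0,z0,z3]),(z2,[y1,y5,y2,y2,y6,z6])],.ref k6 k0 [(z3,[z12,z21,y4,z4,z12,y12]),(z3,[z6,z6,z1,z2,z6,y6]),(z3,
    [y12,y12,z4,y1,y12,z12]),(z3,[y6,y6,z2,y2,z3,z6]),(z3,[y3,y12,y2,y4,y12,z12])],.ref k6 k0 [(z3,[y6,z9,z2,z4]),(z3,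
    [y3,z0,z4,z2]),(z3,[z6,z0,y2,y1]),(z3,[z3,z0,y1,y2,z9]),(z6,[z3,y18,y7,y8,y18,z18])],.ref k6 k0 [(z1,[y3,z3,z1,z1,
    z3]),(z2,[y3,z0,z3,z1,z3]),(z1,[z3,z0,y1,z0,y3]),(z2,[z3,z0,y1,y1,z3]),(z4,[z3,y12,y5,y5,y15,z12])],
    .ref k6 k0 [(z1,[y6,z3,z2,z0,z12]),(z1,[y3,z0,z2,z0,z6]),(z1,[z6,z0,y2,z1,y12]),(z1,[z3,z0,y1,z0,y3]),(z2,[z3,y6,
    y3,y2,y12,z6])],.ref k6 k0 [(z1,[z12,z3,y4,z0,y12]),(z1,[z6,z0,y1,z0,y6]),(z1,[y12,z0,z4,z1,z12]),(z1,[y6,z0,z2,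
    z0,z9]),(z1,[y3,y3,z0,y1,z0,z3])],.ref k6 k0 [(z1,[y4,y1,z0,z0,y4,z4]),(z1,[y2,y2,z1,z0,y2,z2]),(z1,[z4,z4,z0,z1,
    z4,y4]),(z1,[z2,z2,z0,z0,z5,y2]),(z1,[z1,y2,y1,y1,y2,z2])],.ref k6 k0 [(z1,[y1,z3,z0,z1]),(z2,[y1,z0,z2,z1]),(z1,
    [z1]),(z2,[z1,z0,z0,y1,z6]),(z4,[z1,y12,y4,y5,y12,z12])],.ref k6 k0 [(z7,[y12,z21,z0,z8]),(z7,[y6,z0,z7,z4]),(z7,
    [z12,z0,z0,y1]),(z7,[z6,z0,z0,y4,z21]),(z7,[z3,y21,y7,y9,y21,z21])],.ref k6 k0 [(z2,[y3,z6,z0,z1,z6]),(z4,[y3,z0,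
    z4,z1,z6]),(z2,[z3,z0,z0,z1,y6]),(z4,[z3,z0,z0,y1,z6]),(z8,[z3,y24,y8,y9,y30,z24])],.ref k6 k0 [(z1,[y2,z3,z0,z0,
    z6]),(z1,[y1,z0,z1,z0,z3]),(z1,[z2,z0,z0,z1,y6]),(z1,[z1]),(z2,[z1,y6,y2,y2,y9,z6])],.ref k6 k0 [(z1,[y4,z3,z0,z0,
    z8]),(z1,[y2,z0,z1,z0,z4]),(z1,[z4,z0,z0,z1,y8]),(z1,[z2,z0,z0,z0,y1]),(z1,[z1,y3,y1,y1,y5,z3])]],
    .leafM k6 [k0,k1,k2,k3,k4,k5] [(z1,[y1,y1,y1,z0,z1])] [],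
    .lp [(nat_lit 216),(nat_lit 234),(nat_lit 238),(nat_lit 240),(nat_lit 246),(nat_lit 260)] [k26,k18,k13,k13,k11,k11,
    k10,k10,k7,k7,k0,k0] k0 [[k0,k0,k0,k0,k0,k0,k2,k14],[k0,k0,k56,k0,k0,k0,k0,k0,k0,k0,k2],[k0,k0,k0,k0,k0,k14,k0,k0,
    k8,k2],[k56,k0,k0,k0,k0,k10],[k0,k0,k10,k14],[k0,k0,k0,k0,k0,k0,k0,k0,k0,k0,k52,k14],[k0,k14],[k0,k2],[k0,k0,k0,
    k2,k0,k0,k0,k0,k0,k0,k0,k26],[k0,k0,k0,k8,k0,k0,k0,k0,k0,k0,k0,k20],[k0,k0,k0,k0,k14,k0,k0,k0,k20,k26],[k2,k0,k0,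
    k0,k52]] (nat_lit 720) k5
    [[(k7,k180),(k0,(nat_lit 216)),(k3,(nat_lit 227)),(k4,(nat_lit 245)),(k8,(nat_lit 255)),(k11,(nat_lit 268))],[(k6,
    (nat_lit 210)),(k1,(nat_lit 216)),(k5,(nat_lit 223)),(k9,(nat_lit 225)),(k10,(nat_lit 236)),(k2,(nat_lit 277))],
    [(k5,k180),(k1,(nat_lit 227)),(k2,(nat_lit 234)),(k6,(nat_lit 239)),(k10,(nat_lit 247)),(k9,(nat_lit 254))],[(k4,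
    (nat_lit 222)),(k3,(nat_lit 234)),(k8,(nat_lit 238)),(k11,(nat_lit 239)),(k7,(nat_lit 247)),(k0,(nat_lit 277))],
    [(k3,k180),(k0,(nat_lit 223)),(k4,(nat_lit 228)),(k8,(nat_lit 250)),(k11,(nat_lit 251)),(k7,(nat_lit 253))],[(k2,
    (nat_lit 222)),(k5,(nat_lit 228)),(k6,(nat_lit 239)),(k9,(nat_lit 242)),(k1,(nat_lit 245)),(k10,(nat_lit 301))],
    [(k1,k180),(k10,(nat_lit 236)),(k6,(nat_lit 240)),(k9,(nat_lit 243)),(k2,(nat_lit 247)),(k5,(nat_lit 253))],[(k0,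
    (nat_lit 210)),(k3,(nat_lit 239)),(k4,(nat_lit 239)),(k7,(nat_lit 240)),(k8,(nat_lit 243)),(k11,(nat_lit 250))],
    [(k0,(nat_lit 225)),(k4,(nat_lit 242)),(k7,(nat_lit 243)),(k8,(nat_lit 246)),(k11,(nat_lit 253)),(k3,
    (nat_lit 254))],[(k10,(nat_lit 227)),(k2,(nat_lit 238)),(k6,(nat_lit 243)),(k9,(nat_lit 246)),(k5,(nat_lit 250)),
    (k1,(nat_lit 255))],[(k2,(nat_lit 239)),(k10,(nat_lit 240)),(k6,(nat_lit 250)),(k5,(nat_lit 251)),(k9,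
    (nat_lit 253)),(k1,(nat_lit 268))],[(k8,(nat_lit 227)),(k0,(nat_lit 236)),(k7,(nat_lit 236)),(k11,(nat_lit 240)),
    (k3,(nat_lit 247)),(k4,(nat_lit 301))]]
    [] k0
    [[k3,k0,k0,k0,k0,k0],[k2,k0,k1,k0,k0,k0],[k2,k0,k0,k1,k0,k0],[k2,k0,k0,k0,k1,k0],[k1,k1,k1,k0,k0,k0],[k1,k1,k0,k1,
    k0,k0],[k1,k1,k0,k0,k1,k0],[k1,k1,k0,k0,k0,k1],[k1,k0,k2,k0,k0,k0],[k1,k0,k1,k1,k0,k0],[k1,k0,k0,k2,k0,k0],[k1,k0,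
    k0,k1,k1,k0],[k1,k0,k0,k1,k0,k1],[k0,k3,k0,k0,k0,k0],[k0,k2,k1,k0,k0,k0],[k0,k1,k2,k0,k0,k0],[k0,k1,k1,k1,k0,k0],
    [k0,k1,k1,k0,k1,k0],[k0,k1,k0,k1,k0,k1],[k0,k0,k3,k0,k0,k0]]
    [.ref k6 k0 [(z1,[z1]),(z11,[y16,z24,z33]),(z11,[y4,z6,z0,z33]),(z22,[y2,z3,z0,z0,z33]),(z22,[z16,y57,y66,y66,y33,
    z66])],.ref k6 k0 [(z6,[z11,y2,z0,y11]),(z3,[y8,z8,z9,z8]),(z3,[y2,z2,z0,z11]),(z6,[y1,z1,z0,z1,z9]),(z6,[z8,y17,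
    y18,y26,y9,z18])],.ref k6 k0 [(z14,[z22,y1,z0,z0,y11]),(z7,[y16,z16,z21,z0,z8]),(z7,[y4,z4,z0,z21,z2]),(z7,[y1,z1,
    z0,z0,z11]),(z14,[z16,y37,y42,y42,y29,z42])],.ref k6 k0 [(z20,[z22,z19,z22,z22,z11,y22]),(z5,[y8,z4,z7,y8,y4,z8]),
    (z5,[y2,z1,y2,z13,y1,z2]),(z20,[y2,z1,y2,y2,z29,z2]),(z10,[z8,y19,y22,y22,y11,z22])],.ref k6 k0 [(z3,[y11,z10,z11,
    z11]),(z3,[z16,y8,y7,y16]),(z3,[z4,y2,y4,z5]),(z6,[z2,y1,y2,y2,z9]),(z6,[y16,y1,y2,y2,y9,z18])],.ref k6 k0 [(z4,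
    [y22,z17,z22,z0,z11]),(z1,[z8,y4,y5,z0,y4]),(z1,[z2,y1,y2,z3,y1]),(z4,[z2,y1,y2,z0,z5]),(z2,[y8,z1,z2,y6,z1,z6])],
    .ref k6 k0 [(z2,[z22,z3,z0,z22,z11,y22]),(z1,[y16,z0,z3,y16,y8,z16]),(z1,[y4,z0,z0,y1,y2,z4]),(z1,[y1,z0,z0,y1,z1,
    z1]),(z2,[z16,y3,y6,z10,z5,y10])],.ref k6 k0 [(z1,[y11,z7,z11]),(z1,[z16,y8,y13]),(z1,[z4,y2,y4,z3]),(z2,[z2,y1,
    y2,z0,z3]),(z2,[y16,z5,z10,y6,y3,z6])],.ref k6 k0 [(z1,[z11,y4,z0,y22]),(z1,[y16,z8,z3,z32]),(z1,[y4,z2,z0,z11]),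
    (z2,[y2,z1,z0,z4,z3]),(z2,[z16,y11,y6,y38,y3,z6])],.ref k6 k0 [(z4,[z22,y5,z0,y22,y11]),(z1,[y8,z4,z3,z8,z4]),(z1,
    [y2,z1,z0,z5,z1]),(z4,[y2,z1,z0,z2,z7]),(z2,[z8,y7,y6,y14,y7,z6])],.ref k6 k0 [(z3,[z11,y1,z0,z0,y11]),(z3,[y16,
    z8,z9,z0,z16]),(z3,[y4,z2,z0,z9,z4]),(z6,[y2,z1,z0,z0,z11]),(z6,[z16,y17,y18,y18,y25,z18])],.ref k6 k0 [(z6,[z11,
    z9,z11,z11,z0,y11]),(z3,[y8,z0,z1,y8,z0,z8]),(z3,[y2,z0,y2,z7,z0,z2]),(z6,[y1,z0,y1,y1,z9,z1]),(z6,[z8,y9,y10,y10,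
    y9,z10])],.ref k6 k0 [(z8,[z22,z1,z0,z0,y11]),(z1,[y4,z2,z3,z0,z2]),(z2,[y2,z1,z0,z6,z1]),(z8,[y2,z1,z0,z0,z13]),
    (z2,[z4,y5,y6,y6,y5,z6])],.ref k6 k0 [(z16,[y11,z24,z33]),(z1,[z1]),(z4,[z1,z0,y3,z12]),(z16,[z1,z0,y3,z0,z24]),
    (z2,[y1,y3,y3,y6,y3,z6])],.ref k6 k0 [(z12,[y11,z18,z22,z11]),(z3,[z4,z0,z1,y4]),(z3,[z1,z0,y2,z8]),(z12,[z1,z0,
    y2,y1,z18]),(z6,[y4,y9,y10,y14,y9,z18])],.ref k6 k0 [(z8,[y11,z12,z11,z22]),(z1,[z2,z0,z1,y4]),(z2,[z1,z0,y1,z4]),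
    (z8,[z1,z0,y1,y2,z12]),(z2,[y2,y3,y4,y2,y3,z6])],.ref k6 k0 [(z14,[y22,z21,z22,z22,z11]),(z7,[z16,z0,z5,y16,y8]),
    (z7,[z4,z0,y4,z17,y2]),(z7,[z1,z0,y1,y1,z10]),(z14,[y16,y21,y26,y26,y13,z42])],.ref k6 k0 [(z8,[y22,z1,z0,z0,y11,
    z22]),(z1,[z4,z2,z3,z0,z2,y4]),(z2,[z2,z1,z0,z6,z1,y2]),(z8,[z2,z1,z0,z0,z13,y2]),(z2,[y4,y5,y6,y6,y5,z10])],
    .ref k6 k0 [(z10,[y22,z15,z22,z0,z11]),(z5,[z16,z0,y1,z0,y8]),(z5,[z4,z0,y4,z15,y2]),(z5,[z1,z0,y1,z0,z7]),(z10,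
    [y16,y15,y14,y30,y7,z30])],.ref k6 k0 [(z4,[y11,z6,z0,z33]),(z1,[z4,z0,z3,y12]),(z1,[z1]),(z4,[z1,z0,z0,y3,z6]),
    (z2,[y4,y3,y6,z6,y3,z6])]],
    .leafM k1 [k0,k1,k2,k3,k4,k5] [(z1,[z0,z1,z0,z1]),(z1,[z0,y1,z0,y1,z1])] [],
    .lp [(nat_lit 280),(nat_lit 312),(nat_lit 310),(nat_lit 312),(nat_lit 366),(nat_lit 338)] [k43,k43,k27,k27,k28,k28,
    k27,k27,k0,k0,k14,k14] k0 [[k0,k0,k14,k0,k0,k0,k0,k0,k0,k0,k26,k42],[k0,k0,k0,k0,k0,k0,k56,k2],[k0,k0,k0,k0,k0,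
    k54,k0,k0,k0,k28],[k0,k14,k0,k0,k0,k26],[k0,k0,k26,k54],[k0,k0,k0,k0,k0,k0,k0,k0,k0,k0,k0,k2],[k2],[k56],[k0,k0,
    k0,k28],[k0,k0,k0,k0,k0,k0,k0,k0,k0,k0,k0,k18],[k0,k42,k0,k0,k2,k0,k0,k0,k18],[k0,k26]] (nat_lit 960) k5
    [[(k0,(nat_lit 254)),(k7,(nat_lit 296)),(k4,(nat_lit 297)),(k11,(nat_lit 309)),(k3,(nat_lit 338)),(k8,
    (nat_lit 341))],[(k1,(nat_lit 254)),(k10,(nat_lit 267)),(k5,(nat_lit 281)),(k2,(nat_lit 296)),(k9,(nat_lit 325)),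
    (k6,(nat_lit 352))],[(k9,(nat_lit 283)),(k6,(nat_lit 310)),(k5,(nat_lit 311)),(k2,(nat_lit 326)),(k1,
    (nat_lit 338)),(k10,(nat_lit 351))],[(k4,(nat_lit 257)),(k0,(nat_lit 296)),(k8,(nat_lit 311)),(k11,(nat_lit 325)),
    (k3,(nat_lit 326)),(k7,(nat_lit 338))],[(k0,(nat_lit 281)),(k4,(nat_lit 284)),(k3,(nat_lit 311)),(k8,
    (nat_lit 338)),(k11,(nat_lit 352)),(k7,(nat_lit 365))],[(k2,(nat_lit 257)),(k5,(nat_lit 284)),(k1,(nat_lit 297)),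
    (k6,(nat_lit 311)),(k10,(nat_lit 324)),(k9,(nat_lit 338))],[(k1,(nat_lit 296)),(k6,(nat_lit 312)),(k10,
    (nat_lit 323)),(k2,(nat_lit 338)),(k9,(nat_lit 339)),(k5,(nat_lit 365))],[(k3,(nat_lit 310)),(k4,(nat_lit 311)),
    (k7,(nat_lit 312)),(k11,(nat_lit 325)),(k8,(nat_lit 339)),(k0,(nat_lit 352))],[(k3,(nat_lit 283)),(k0,
    (nat_lit 325)),(k4,(nat_lit 338)),(k7,(nat_lit 339)),(k11,(nat_lit 352)),(k8,(nat_lit 366))],[(k2,(nat_lit 311)),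
    (k5,(nat_lit 338)),(k6,(nat_lit 339)),(k1,(nat_lit 341)),(k10,(nat_lit 352)),(k9,(nat_lit 366))],[(k1,
    (nat_lit 309)),(k10,(nat_lit 320)),(k2,(nat_lit 325)),(k6,(nat_lit 325)),(k5,(nat_lit 352)),(k9,(nat_lit 352))],
    [(k0,(nat_lit 267)),(k11,(nat_lit 320)),(k7,(nat_lit 323)),(k4,(nat_lit 324)),(k3,(nat_lit 351)),(k8,
    (nat_lit 352))]]
    [] k0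
    [[k3,k0,k0,k0,k0,k0],[k2,k1,k0,k0,k0,k0],[k2,k0,k1,k0,k0,k0],[k2,k0,k0,k1,k0,k0],[k2,k0,k0,k0,k1,k0],[k2,k0,k0,k0,
    k0,k1],[k1,k1,k1,k0,k0,k0],[k1,k1,k0,k0,k0,k1],[k1,k0,k2,k0,k0,k0],[k1,k0,k1,k0,k0,k1],[k1,k1,k0,k1,k0,k0],[k1,k0,
    k1,k1,k0,k0],[k1,k0,k0,k1,k0,k1],[k1,k1,k0,k0,k1,k0],[k1,k0,k0,k0,k0,k2],[k0,k2,k1,k0,k0,k0],[k0,k2,k0,k0,k1,k0],
    [k0,k1,k2,k0,k0,k0],[k0,k1,k1,k1,k0,k0],[k0,k1,k0,k1,k0,k1],[k0,k1,k1,k0,k1,k0],[k0,k0,k3,k0,k0,k0],[k0,k0,k0,k3,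
    k0,k0]]
    [.ref k6 k0 [(z1,[z1]),(z1,[y1,z3,z1]),(z4,[y1,z3,z0,z4]),(z2,[y1,z3,z0,z0,z6]),(z2,[z1,y9,y2,y2,y6,z6])],
    .ref k6 k0 [(z1,[z3,y3,y1]),(z1,[y3,z6,z2]),(z4,[y3,z6,z1,z4]),(z2,[y3,z6,z1,z0,z6]),(z2,[z3,y12,y3,y2,y6,z6])],
    .ref k6 k0 [(z7,[z12,y3,z0,y4]),(z7,[y12,z24,z7,z4]),(z7,[y3,z6,z0,z8]),(z7,[y6,z12,z0,z2,z21]),(z7,[z6,y33,y7,y9,
    y21,z21])],.ref k6 k0 [(z1,[z2,y1,z0,z0,y2]),(z1,[y2,z4,z1,z0,z2]),(z2,[y1,z2,z0,z2,z1]),(z1,[y1,z2,z0,z0,z4]),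
    (z1,[z1,y5,y1,y1,y4,z3])],.ref k6 k0 [(z5,[z6,z9,z2,z2,z6,y6]),(z5,[y6,z6,z3,y2,y6,z6]),(z10,[y3,z3,y1,z9,y3,z3]),
    (z5,[y3,z3,y1,y1,z12,z3]),(z5,[z3,y18,y4,y4,y12,z12])],.ref k6 k0 [(z3,[z4,z1]),(z3,[y4,z8,z3]),(z3,[y1,z2,z0,
    z3]),(z3,[y2,z4,z0,z0,z9]),(z3,[z2,y13,y3,y3,y9,z9])],.ref k6 k0 [(z1,[y12,z15,z4,z4]),(z1,[z12,y12,y3,y4]),(z1,
    [z3,y3,y1]),(z1,[z6,y6,y2,y2,z3]),(z1,[y6,z3,z1,z1,y3,z3])],.ref k6 k0 [(z1,[z12,y9,y4]),(z1,[y12,z12,z5]),(z1,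
    [y3,z3,z1,z1]),(z1,[y6,z6,z2,z0,z3]),(z1,[z6,y9,y3,y1,y3,z3])],.ref k6 k0 [(z1,[z6,y3,z0,y4]),(z1,[y6,z6,z1,z4]),
    (z2,[y3,z3,z0,z4]),(z1,[y3,z3,z0,z2,z3]),(z1,[z3,y6,y1,y3,y3,z3])],.ref k6 k0 [(z1,[z3,z0,z0,y1]),(z1,[y3,z3,z1,
    z1]),(z4,[y3,z3,z0,z5]),(z2,[y3,z3,z0,z1,z6]),(z2,[z3,y9,y2,y3,y6,z6])],.ref k6 k0 [(z1,[y6,z9,z2,z0,z6]),(z1,[z6,
    y6,y1,z0,y6]),(z2,[z3,y3,y1,z2,y3]),(z1,[z3,y3,y1]),(z1,[y3,z0,z0,y1,z0,z3])],.ref k6 k0 [(z1,[z12,y9,z0,y4,y12]),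
    (z1,[y12,z12,z1,z4,z12]),(z1,[y3,z3,z0,z2,z3]),(z1,[y6,z6,z0,z2,z9]),(z1,[z6,y9,y1,y3,y9,z3])],.ref k6 k0 [(z1,
    [z4,y1,z0,z0,y4]),(z1,[y4,z4,z1,z0,z4]),(z1,[y1,z1,z0,z1,z1]),(z1,[y2,z2,z0,z0,z5]),(z1,[z2,y5,y1,y1,y5,z3])],
    .ref k6 k0 [(z1,[z6,z3,z0,z2,z6,y6]),(z1,[y6,z0,z1,y2,y6,z6]),(z2,[y3,z0,z0,z1,y3,z3]),(z1,[y3,z0,z0,y1,z0,z3]),
    (z1,[z3,y3,y1])],.ref k6 k0 [(z1,[z2,z1]),(z1,[y2,z2,z1]),(z2,[y1,z1,z0,z2]),(z1,[y1,z1,z0,z0,z3]),(z1,[z1,y4,y1,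
    y1,y3,z3])],.ref k6 k0 [(z9,[y12,z27,z8,z4]),(z9,[z12,z0,z1,y4]),(z9,[z3,z0,y2,z8]),(z9,[z6,z0,y4,y2,z27]),(z9,
    [y6,y27,y5,y7,y27,z27])],.ref k6 k0 [(z3,[y6,z3,z2,y2,y6,z6]),(z3,[z6,z6,z1,z2,z6,y6]),(z6,[z3,z3,y1,z7,z3,y3]),
    (z3,[z3,z3,y1,z1,z12,y3]),(z3,[y3,y12,y2,y4,y12,z12])],.ref k6 k0 [(z3,[y6,z9,z2,z4]),(z3,[z6,z0,z1,y4]),(z6,[z3,
    z0,y1,z4]),(z3,[z3,z0,y1,y2,z9]),(z3,[y3,y9,y2,y1,y9,z9])],.ref k6 k0 [(z7,[y12,z21,z4,z4,z12]),(z7,[z12,z0,z3,y4,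
    y12]),(z7,[z3,z0,y1,z6,y3]),(z7,[z6,z0,y2,y2,z15]),(z7,[y6,y21,y5,y5,y15,z21])],.ref k6 k0 [(z5,[y12,z15,z4,z0,
    z12]),(z5,[z12,z0,z1,z0,y12]),(z5,[z3,z0,y1,z5,y3]),(z5,[z6,z0,y2,z0,z9]),(z5,[y6,y15,y3,y5,y9,z15])],
    .ref k6 k0 [(z1,[y4,y1,z0,z0,y4,z4]),(z1,[z4,z4,z1,z0,z4,y4]),(z1,[z1,z1,z0,z1,z1,y1]),(z1,[z2,z2,z0,z0,z5,y2]),
    (z1,[y2,y5,y1,y1,y5,z5])],.ref k6 k0 [(z1,[y4,z3,z0,z4]),(z1,[z4,z0,z1,y4]),(z1,[z1]),(z1,[z2,z0,z0,y2,z3]),(z1,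
    [y2,y3,y1,z1,y3,z3])],.ref k6 k0 [(z1,[y2,z3,z0,z0,z6]),(z1,[z2,z0,z1,z0,y6]),(z2,[z1,z0,z0,z2,y3]),(z1,[z1]),(z1,
    [y1,y3,y1,y1,z0,z3])]]]

noncomputable def cT6_2_n3_3 : List TN :=
  [.lp [k164,k148,k166,k146,k170,k164] [k3,k3,k11,k11,k2,k2,k12,k12,k0,k0,k3,k3] k0 [[k0,k0,k0,k0,k0,k0,k0,k0,k0,k0,k18,
    k22],[],[k0,k0,k0,k0,k22,k22,k0,k0,k0,k8],[k0,k0,k0,k0,k0,k0,k0,k0,k0,k2],[k0,k0,k0,k22,k0,k0,k24],[k0,k0,k0,k22,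
    k0,k0,k4],[],[k0,k0,k0,k0,k4,k24],[k0,k0,k2,k8],[k0,k0,k0,k0,k0,k0,k0,k0,k0,k0,k4,k4],[k0,k22,k0,k0,k0,k0,k0,k0,
    k4],[k0,k18,k0,k0,k0,k0,k0,k0,k4]] (nat_lit 480) k5
    [[(k0,k146),(k7,k155),(k11,k160),(k4,k165),(k8,k171),(k3,k178)],[(k10,k142),(k1,k146),(k6,k155),(k2,k156),(k5,
    k165),(k9,k167)],[(k6,k147),(k2,k148),(k5,k157),(k9,k159),(k10,k174),(k1,k178)],[(k7,k125),(k4,k135),(k3,k148),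
    (k8,k151),(k0,k156),(k11,k158)],[(k3,k157),(k0,k165),(k8,k166),(k11,k173),(k7,k178),(k4,k188)],[(k2,k135),(k9,
    k144),(k6,k160),(k1,k165),(k10,k165),(k5,k188)],[(k2,k125),(k9,k154),(k1,k155),(k10,k155),(k6,k170),(k5,k178)],
    [(k3,k147),(k0,k155),(k11,k155),(k8,k158),(k4,k160),(k7,k170)],[(k4,k144),(k7,k154),(k3,k159),(k0,k167),(k11,
    k167),(k8,k170)],[(k2,k151),(k6,k158),(k5,k166),(k9,k170),(k1,k171),(k10,k171)],[(k6,k155),(k2,k158),(k1,k160),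
    (k10,k160),(k9,k167),(k5,k173)],[(k0,k142),(k7,k155),(k11,k160),(k4,k165),(k8,k171),(k3,k174)]]
    [] k0
    [[k3,k0,k0,k0,k0,k0],[k2,k0,k1,k0,k0,k0],[k2,k0,k0,k1,k0,k0],[k2,k0,k0,k0,k0,k1],[k1,k1,k1,k0,k0,k0],[k1,k1,k0,k1,
    k0,k0],[k1,k1,k0,k0,k0,k1],[k1,k0,k0,k1,k0,k1],[k1,k0,k0,k0,k0,k2],[k0,k3,k0,k0,k0,k0],[k0,k2,k1,k0,k0,k0],[k0,k2,
    k0,k1,k0,k0],[k0,k2,k0,k0,k1,k0],[k0,k1,k1,k1,k0,k0],[k0,k1,k1,k0,k1,k0],[k0,k1,k0,k2,k0,k0],[k0,k1,k0,k1,k1,k0],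
    [k0,k1,k0,k1,k0,k1],[k0,k0,k0,k1,k0,k2]]
    [.ref k170 k10 [(z1,[z0,z0,z1,y2]),(z1,[z1]),(z2,[y1,z3,z0,z9]),(z1,[z0,z0,z0,z1])],.ref k93 k11 [(z1,[y6,z1,z0,
    z3]),(z1,[y2,z0,z0,z1]),(z1,[z0,y1,y2,y1,z2]),(z1,[z1])],.ref k170 k10 [(z1,[z0,z0,z1,y2]),(z1,[z2,z1,z2,z1,y2]),
    (z1,[y1,z1,y1,z4,z1]),(z1,[z0,z0,z0,z1])],.ref k173 k10 [(z1,[z0,z0,z1,y2]),(z1,[z2,y1,z0,y3]),(z1,[y1,z2,z0,z6]),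
    (z1,[z0,z0,z0,z1])],.ref k174 k0 [(z1,[z6,y5,y6,y3]),(z1,[y4,z4,z5,z2]),(z1,[y1,z1,z1,z1]),(z1,[y3,z2,z2,z1,z1])],
    .ref k157 k5 [(z1,[y1,y1,y1,y3,z2]),(z1,[z0,z0,z0,z1]),(z1,[y1,z0,z0,y1,z1]),(z1,[z2,z1,z0,z5,y2])],
    .ref k8 k10 [(z1,[z0,z0,z1,y2]),(z1,[z2,y1,y2,z1]),(z1,[y1,z1,z1,z1]),(z1,[z0,z0,z0,z1])],.ref k165 k9 [(z1,[y1,
    y1,y2,y1,z2]),(z1,[y1,z0,y1,z1,z1]),(z1,[y4,z0,y1,y2,z4]),(z1,[z2,z1,z2,z1,y2])],.ref k165 k9 [(z2,[y1,y1,y2,y1,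
    z2]),(z2,[y1,z1,z0,z3]),(z1,[y2,z2,z3]),(z1,[z1])],.ref k165 k9 [(z4,[z1,y4,y7,y2,z4]),(z4,[z1,z0,y3,z6]),(z1,
    [z1]),(z2,[y1,z2,z3])],.ref k165 k9 [(z3,[z1,y3,y5,y2,z3]),(z3,[z1,z0,y2,z4]),(z3,[z4,z0,z1,y2]),(z3,[y2,z3,z4,
    z1])],.ref k175 k7 [(z1,[z2,z2,y2,z1,y2]),(z1,[y2,y1,z2,y1,z2]),(z1,[z0,z0,z1]),(z1,[z0,z0,z0,z1])],
    .ref k165 k9 [(z2,[z1,y2,y4,y1,z2]),(z2,[z1,z0,y2,z3]),(z1,[z2,z0,y1]),(z1,[y1,z1,z2])],.ref k94 k10 [(z1,[z0,z0,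
    z1,y2]),(z1,[y2,y1,z0,y5,z2]),(z1,[z1,z1,z0,z4,y1]),(z1,[z0,z0,z0,z1])],.ref k165 k9 [(z1,[z1,y1,y2,y1,z1]),(z1,
    [z1,z0,y1,z1]),(z1,[z4,z0,y1,y2]),(z1,[y2,z1,z2,z1])],.ref k15 k10 [(z1,[z0,z0,z1,y2]),(z1,[y1,y1,y1,y3,z2]),(z2,
    [z1,z2,z1,z6,y2]),(z1,[z0,z0,z0,z1])],.ref k15 k10 [(z1,[z0,z0,z1,y2]),(z1,[y2,y1,z0,y3,z2]),(z1,[z1,z1,z0,z3,
    y1]),(z1,[z0,z0,z0,z1])],.ref k176 k8 [(z1,[y2,z2,z4,z1,y2]),(z1,[y3,z4,z7,z2,y4]),(z1,[z0,y1,y2,y1,z2]),(z1,[z4,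
    y4,y7,y2,z4])],.ref k177 k0 [(z1,[y2,y1,y2,y1,z2]),(z1,[z4,z4,z7,z2,y4]),(z1,[z1,z1,z1,z2,y1]),(z1,[z1])]],
    .lp [k158,k160,k166,k166,k148,k160] [k4,k4,k3,k3,k0,k0,k0,k0,k9,k9,k3,k3] k0 [[k0,k0,k7,k0,k0,k0,k13,k3],[k0,k0,k0,k0,
    k0,k0,k0,k0,k0,k0,k0,k4],[k0,k0,k0,k0,k0,k9,k0,k0,k3,k7],[k0,k7,k0,k0,k0,k3],[k0,k0,k3,k9],[k0,k0,k0,k0,k0,k0,k0,
    k0,k0,k0,k3,k1],[k0,k3,k0,k0,k0,k0,k0,k0,k24],[k0,k13],[k0,k0,k0,k7,k0,k0,k0,k0,k0,k0,k19],[k0,k0,k0,k3,k0,k0,k0,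
    k24],[k4,k0,k0,k0,k1],[k0,k0,k0,k0,k3,k0,k0,k0,k0,k19]] (nat_lit 480) k5
    [[(k8,k134),(k3,k159),(k7,k159),(k11,k159),(k0,k162),(k4,k163)],[(k9,k140),(k5,k155),(k2,k159),(k6,k159),(k10,
    k159),(k1,k162)],[(k10,k156),(k9,k157),(k1,k159),(k5,k163),(k2,k167),(k6,k176)],[(k8,k147),(k4,k154),(k11,k157),
    (k0,k159),(k7,k166),(k3,k167)],[(k0,k155),(k8,k160),(k3,k163),(k4,k163),(k11,k170),(k7,k175)],[(k2,k154),(k9,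
    k157),(k1,k163),(k5,k163),(k6,k166),(k10,k166)],[(k9,k157),(k1,k159),(k10,k162),(k2,k166),(k6,k166),(k5,k175)],
    [(k11,k139),(k8,k157),(k0,k159),(k4,k166),(k7,k166),(k3,k176)],[(k0,k140),(k11,k154),(k3,k157),(k4,k157),(k7,
    k157),(k8,k172)],[(k1,k134),(k2,k147),(k10,k154),(k6,k157),(k5,k160),(k9,k172)],[(k6,k139),(k9,k154),(k2,k157),
    (k1,k159),(k5,k170),(k10,k179)],[(k8,k154),(k3,k156),(k0,k159),(k7,k162),(k4,k166),(k11,k179)]]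
    [] k0
    [[k2,k0,k0,k0,k1,k0],[k1,k1,k1,k0,k0,k0],[k1,k1,k0,k0,k1,k0],[k1,k1,k0,k0,k0,k1],[k1,k0,k1,k0,k1,k0],[k1,k0,k0,k1,
    k1,k0],[k1,k0,k0,k1,k0,k1],[k1,k0,k0,k0,k2,k0],[k1,k0,k0,k0,k1,k1],[k0,k2,k0,k0,k1,k0],[k0,k1,k1,k0,k1,k0],[k0,k1,
    k0,k0,k2,k0],[k0,k1,k0,k0,k1,k1],[k0,k1,k0,k1,k0,k1],[k0,k0,k0,k2,k0,k1],[k0,k0,k0,k1,k1,k1]]
    [.ref k153 k1 [(z1,[y4,z3,z4]),(z1,[z0,y1,y2,z2]),(z1,[z1])],.ref k154 k10 [(z1,[z1,z1,z2,y2]),(z1,[z0,y1,y2,z2]),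
    (z1,[z0,y1,y1,z1])],.ref k159 k3 [(z1,[z4,y3,y4]),(z1,[z1,y1,y1]),(z1,[y3,z3,z4])],.ref k160 k10 [(z1,[z2,z3,z5,
    y5]),(z1,[z0,y1,y2,z2]),(z1,[z0,y1,y1,z1])],.ref k161 k0 [(z1,[z0,z1]),(z1,[y1,z1,z1]),(z1,[z1,y1])],
    .ref k164 k5 [(z1,[z2,y1,y1,y1]),(z1,[z3,z0,z1,y3]),(z1,[y1,z0,z0,z1])],.ref k167 k3 [(z1,[z4,z3,z4,y4]),(z1,[z1,
    z0,z1,y1]),(z1,[y1,z0,z0,z1])],.ref k164 k5 [(z1,[z1,y2,y3,z1]),(z2,[z3,y3,y4]),(z2,[y1,z1,z2])],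
    .ref k168 k3 [(z1,[z2,y1,y2]),(z1,[z1,y1,y1]),(z1,[y3,z3,z5])],.ref k172 k0 [(z1,[z0,z1]),(z1,[z1]),(z1,[y1,z0,
    z2])],.ref k167 k3 [(z1,[y4,z3,z4]),(z1,[y1,z0,z1]),(z1,[z1])],.ref k178 k10 [(z1,[y1,z3,z5,y3]),(z1,[z0,y1,y2,
    z2]),(z1,[z0,y1,y1,z1])],.ref k76 k0 [(z1,[z0,z1]),(z1,[z1]),(z1,[y1,z0,z1])],.ref k161 k0 [(z1,[z0,z1]),(z1,[z1,
    z1,z1,y1]),(z1,[y1,y1,z0,z1])],.ref k167 k3 [(z1,[y4,y5,y8,z8]),(z1,[y1,y2,y2,z2]),(z1,[z1,z2,z3,y2])],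
    .ref k154 k10 [(z1,[y1,z1,z2,y1]),(z1,[z0,y1,y2,z2]),(z1,[z0,y1,y1,z1])]],
    .lp [(nat_lit 216),(nat_lit 234),(nat_lit 238),(nat_lit 240),(nat_lit 246),(nat_lit 260)] [k26,k18,k13,k13,k11,k11,
    k10,k10,k7,k7,k0,k0] k0 [[k0,k0,k0,k0,k0,k0,k2,k14],[k0,k0,k56,k0,k0,k0,k0,k0,k0,k0,k2],[k0,k0,k0,k0,k0,k14,k0,k0,
    k8,k2],[k56,k0,k0,k0,k0,k10],[k0,k0,k10,k14],[k0,k0,k0,k0,k0,k0,k0,k0,k0,k0,k52,k14],[k0,k14],[k0,k2],[k0,k0,k0,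
    k2,k0,k0,k0,k0,k0,k0,k0,k26],[k0,k0,k0,k8,k0,k0,k0,k0,k0,k0,k0,k20],[k0,k0,k0,k0,k14,k0,k0,k0,k20,k26],[k2,k0,k0,
    k0,k52]] (nat_lit 720) k5
    [[(k7,k180),(k0,(nat_lit 216)),(k3,(nat_lit 227)),(k4,(nat_lit 245)),(k8,(nat_lit 255)),(k11,(nat_lit 268))],[(k6,
    (nat_lit 210)),(k1,(nat_lit 216)),(k5,(nat_lit 223)),(k9,(nat_lit 225)),(k10,(nat_lit 236)),(k2,(nat_lit 277))],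
    [(k5,k180),(k1,(nat_lit 227)),(k2,(nat_lit 234)),(k6,(nat_lit 239)),(k10,(nat_lit 247)),(k9,(nat_lit 254))],[(k4,
    (nat_lit 222)),(k3,(nat_lit 234)),(k8,(nat_lit 238)),(k11,(nat_lit 239)),(k7,(nat_lit 247)),(k0,(nat_lit 277))],
    [(k3,k180),(k0,(nat_lit 223)),(k4,(nat_lit 228)),(k8,(nat_lit 250)),(k11,(nat_lit 251)),(k7,(nat_lit 253))],[(k2,
    (nat_lit 222)),(k5,(nat_lit 228)),(k6,(nat_lit 239)),(k9,(nat_lit 242)),(k1,(nat_lit 245)),(k10,(nat_lit 301))],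
    [(k1,k180),(k10,(nat_lit 236)),(k6,(nat_lit 240)),(k9,(nat_lit 243)),(k2,(nat_lit 247)),(k5,(nat_lit 253))],[(k0,
    (nat_lit 210)),(k3,(nat_lit 239)),(k4,(nat_lit 239)),(k7,(nat_lit 240)),(k8,(nat_lit 243)),(k11,(nat_lit 250))],
    [(k0,(nat_lit 225)),(k4,(nat_lit 242)),(k7,(nat_lit 243)),(k8,(nat_lit 246)),(k11,(nat_lit 253)),(k3,
    (nat_lit 254))],[(k10,(nat_lit 227)),(k2,(nat_lit 238)),(k6,(nat_lit 243)),(k9,(nat_lit 246)),(k5,(nat_lit 250)),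
    (k1,(nat_lit 255))],[(k2,(nat_lit 239)),(k10,(nat_lit 240)),(k6,(nat_lit 250)),(k5,(nat_lit 251)),(k9,
    (nat_lit 253)),(k1,(nat_lit 268))],[(k8,(nat_lit 227)),(k0,(nat_lit 236)),(k7,(nat_lit 236)),(k11,(nat_lit 240)),
    (k3,(nat_lit 247)),(k4,(nat_lit 301))]]
    [] k0
    [[k3,k0,k0,k0,k0,k0],[k2,k0,k1,k0,k0,k0],[k2,k0,k0,k1,k0,k0],[k2,k0,k0,k0,k1,k0],[k1,k1,k1,k0,k0,k0],[k1,k1,k0,k1,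
    k0,k0],[k1,k1,k0,k0,k1,k0],[k1,k1,k0,k0,k0,k1],[k1,k0,k2,k0,k0,k0],[k1,k0,k1,k1,k0,k0],[k1,k0,k0,k2,k0,k0],[k1,k0,
    k0,k1,k1,k0],[k1,k0,k0,k1,k0,k1],[k0,k3,k0,k0,k0,k0],[k0,k2,k1,k0,k0,k0],[k0,k1,k2,k0,k0,k0],[k0,k1,k1,k1,k0,k0],
    [k0,k1,k1,k0,k1,k0],[k0,k1,k0,k1,k0,k1],[k0,k0,k3,k0,k0,k0]]
    [.ref k6 k0 [(z1,[z1]),(z1,[z1,y1,z1]),(z1,[y1,z1,z0,z3]),(z1,[y1,z1,z0,z0,z3]),(z2,[y1,y1,y2,y6,y6,z6])],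
    .ref k6 k0 [(z1,[z3,y1,z0,y3]),(z1,[z3,y2,z1,y3]),(z1,[y3,z2,z0,z6]),(z1,[y3,z2,z0,z3,z3]),(z2,[y3,z0,y2,y3,y6,
    z6])],.ref k6 k0 [(z1,[z3,y1,z0,z0,y3]),(z1,[z3,y2,z1,z0,y3]),(z1,[y3,z2,z0,z3,z3]),(z1,[y3,z2,z0,z0,z6]),(z2,[y3,
    z0,y2,y6,y3,z6])],.ref k6 k0 [(z3,[z6,z1,z2,z6,z6,y6]),(z3,[z6,y2,z5,z6,z6,y6]),(z3,[y6,z2,y2,z3,y6,z6]),(z3,[y6,
    z2,y2,y6,z3,z6]),(z3,[y3,y2,y4,y12,y12,z12])],.ref k6 k0 [(z1,[z3,z0,y1,y3]),(z1,[z3,y1,z0,y3]),(z1,[y3,z1,z1,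
    z6]),(z1,[y3,z1,z1,z3,z3]),(z2,[y3,y1,y1,y3,y6,z6])],.ref k6 k0 [(z1,[z3,z0,y1,z0,y3]),(z1,[z3,y1,z0,z0,y3]),(z1,
    [y3,z1,z1,z3,z3]),(z1,[y3,z1,z1,z0,z6]),(z2,[y3,y1,y1,y6,y3,z6])],.ref k6 k0 [(z1,[z2,z1,z0,z2,z2,y2]),(z1,[z2,z0,
    z1,z2,z2,y2]),(z1,[y2,z0,z0,z1,y2,z2]),(z1,[y2,z0,z0,y2,z1,z2]),(z1,[y1,y1,y1,y4,y4,z4])],.ref k6 k0 [(z5,[z6,z3,
    y2]),(z5,[z6,y2,z3]),(z5,[y6,z2,z2,z15]),(z5,[y6,z2,z2,z0,z15]),(z5,[y3,y4,y4,y15,y15,z15])],.ref k6 k0 [(z1,[y3,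
    z2,z0,z6]),(z1,[y3,z1,z1,z6]),(z1,[z3,y1,z0,y3]),(z1,[z3,y1,z0,y6,z3]),(z2,[z3,y3,y2,y12,y6,z6])],.ref k6 k0 [(z1,
    [y3,z2,z0,z3,z3]),(z1,[y3,z1,z1,z3,z3]),(z1,[z3,y1,z0,z0,y3]),(z1,[z3,y1,z0,y3]),(z2,[z3,y3,y2,y9,y9,z6])],
    .ref k6 k0 [(z1,[y3,z2,z0,z0,z6]),(z1,[y3,z1,z1,z0,z6]),(z1,[z3,y1,z0,z3,y6]),(z1,[z3,y1,z0,z0,y3]),(z2,[z3,y3,y2,
    y6,y12,z6])],.ref k6 k0 [(z1,[y6,z1,y2,y6,z0,z6]),(z1,[y6,z0,y1,y6,z0,z6]),(z1,[z6,z0,z2,z9,z0,y6]),(z1,[z6,z0,z2,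
    z6,z3,y6]),(z1,[z3,y1,z0,z0,y3])],.ref k6 k0 [(z1,[z6,y1,z0,z0,y6]),(z1,[z6,y2,z1,z0,y6]),(z1,[y6,z2,z0,z3,z6]),
    (z1,[y6,z2,z0,z0,z9]),(z1,[y3,z0,y1,y3,z0,z3])],.ref k6 k0 [(z1,[z1,z1,y1]),(z1,[z1]),(z1,[y1,z0,z1,z3]),(z1,[y1,
    z0,z1,z0,z3]),(z2,[y1,y2,y1,y6,y6,z6])],.ref k6 k0 [(z1,[z3,z1,y2,y3]),(z1,[z3,z0,y1,y3]),(z1,[y3,z0,z2,z6]),(z1,
    [y3,z0,z2,z3,z3]),(z2,[y3,y2,z0,y3,y6,z6])],.ref k6 k0 [(z1,[y3,z1,z1,z6]),(z1,[y3,z0,z2,z6]),(z1,[z3,z0,y1,y3]),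
    (z1,[z3,z0,y1,y6,z3]),(z2,[z3,y2,y3,y12,y6,z6])],.ref k6 k0 [(z1,[y3,z1,z1,z3,z3]),(z1,[y3,z0,z2,z3,z3]),(z1,[z3,
    z0,y1,z0,y3]),(z1,[z3,z0,y1,y3]),(z2,[z3,y2,y3,y9,y9,z6])],.ref k6 k0 [(z1,[y6,y1,z0,z0,y6,z6]),(z1,[y6,y2,z1,z0,
    y6,z6]),(z1,[z6,z2,z0,z3,z6,y6]),(z1,[z6,z2,z0,z0,z9,y6]),(z1,[z3,z0,y1,y3])],.ref k6 k0 [(z1,[z6,z1,y2,z0,y6]),
    (z1,[z6,z0,y1,z0,y6]),(z1,[y6,z0,z2,z3,z6]),(z1,[y6,z0,z2,z0,z9]),(z1,[y3,y1,z0,y3,z0,z3])],.ref k6 k0 [(z1,[y1,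
    z1,z0,z3]),(z1,[y1,z0,z1,z3]),(z1,[z1]),(z1,[z1,z0,z0,y3,z3]),(z2,[z1,y2,y2,y9,y6,z6])]],
    .lp [k162,k150,k172,k152,k158,k164] [k5,k5,k11,k11,k0,k0,k10,k10,k7,k7,k4,k4] k0 [[k0,k0,k38,k0,k0,k0,k0,k0,k0,k0,k2],
    [k0,k0,k0,k0,k0,k0,k0,k0,k0,k0,k20],[k0,k0,k0,k0,k4],[k0,k38],[k0,k0,k0,k0,k0,k0,k0,k20,k0,k0,k12,k6],[k0,k0,k0,
    k4,k0,k0,k0,k26],[k0,k0,k0,k0,k26,k20],[k0,k0,k0,k0,k0,k0,k0,k0,k24,k26],[k0,k0,k0,k0,k0,k0,k26,k0,k0,k0,k0,k26],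
    [k0,k0,k0,k0,k0,k0,k24],[k0,k0,k0,k0,k0,k6,k0,k0,k0,k26],[k20,k2,k0,k0,k0,k12]] (nat_lit 480) k5
    [[(k3,k136),(k4,k155),(k0,k160),(k8,k160),(k7,k163),(k11,k189)],[(k5,k129),(k2,k156),(k6,k157),(k1,k160),(k9,
    k160),(k10,k183)],[(k1,k136),(k6,k151),(k9,k154),(k10,k159),(k5,k161),(k2,k188)],[(k7,k147),(k8,k154),(k0,k156),
    (k11,k157),(k4,k161),(k3,k188)],[(k0,k129),(k3,k161),(k7,k162),(k8,k165),(k11,k168),(k4,k176)],[(k6,k142),(k1,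
    k155),(k2,k161),(k10,k162),(k5,k176),(k9,k191)],[(k6,k126),(k2,k147),(k5,k162),(k1,k163),(k10,k170),(k9,k175)],
    [(k7,k126),(k4,k142),(k3,k151),(k0,k157),(k8,k179),(k11,k184)],[(k8,k132),(k11,k137),(k3,k154),(k0,k160),(k7,
    k175),(k4,k191)],[(k9,k132),(k10,k135),(k2,k154),(k1,k160),(k5,k165),(k6,k179)],[(k9,k137),(k2,k157),(k10,k164),
    (k5,k168),(k6,k184),(k1,k189)],[(k8,k135),(k3,k159),(k4,k162),(k11,k164),(k7,k170),(k0,k183)]]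
    [] k0
    [[k2,k1,k0,k0,k0,k0],[k2,k0,k1,k0,k0,k0],[k1,k1,k1,k0,k0,k0],[k1,k1,k0,k1,k0,k0],[k1,k1,k0,k0,k1,k0],[k1,k1,k0,k0,
    k0,k1],[k1,k0,k2,k0,k0,k0],[k1,k0,k1,k1,k0,k0],[k1,k0,k0,k2,k0,k0],[k1,k0,k0,k0,k2,k0],[k0,k1,k1,k1,k0,k0],[k0,k1,
    k0,k2,k0,k0],[k0,k1,k0,k1,k0,k1],[k0,k1,k0,k0,k2,k0],[k0,k1,k0,k0,k1,k1],[k0,k0,k1,k2,k0,k0],[k0,k0,k1,k0,k1,k1],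
    [k0,k0,k0,k3,k0,k0],[k0,k0,k0,k0,k3,k0],[k0,k0,k0,k0,k2,k1],[k0,k0,k0,k0,k1,k2]]
    [.ref k6 k0 [(z1,[z2,y1,y2]),(z1,[y1,z2,z4]),(z2,[z13,y26,y13,z6]),(z1,[y4,z8,z4,z0,z3]),(z1,[y4,z5,z1,y3,y3,
    z3])],.ref k6 k0 [(z7,[z4,z13,z0,y4]),(z7,[y2,z4,z21,z2]),(z7,[z13,y26,z0,z8]),(z7,[y8,z16,z0,z8,z21]),(z7,[y8,y5,
    y21,y13,y21,z21])],.ref k6 k0 [(z5,[z4,z11,y4,y4]),(z5,[y2,z2,z17,z2]),(z5,[z13,y13,y13,z2]),(z5,[y8,z8,z8,z8,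
    z15]),(z5,[y8,y7,y7,y7,y15,z15])],.ref k6 k0 [(z1,[y2,z5,z2,z0,z2]),(z1,[z1,y1,z2,z0,y1]),(z2,[y13,z13,z13,z6,
    z13]),(z1,[z4,y4,y4,z0,y1]),(z1,[z4,y7,y7,y3,y7,z3])],.ref k6 k0 [(z1,[y2,z3,z0,y2,y2,z2]),(z1,[z1,z0,z3,z1,z1,
    y1]),(z2,[y13,z0,z0,y7,y13,z13]),(z1,[z4,z0,z0,z4,z7,y4]),(z1,[z4,y3,y3,z1,z1,y1])],.ref k6 k0 [(z1,[z4,y1,y4]),
    (z1,[y2,z2,z5]),(z1,[z13,y13,y13,z3]),(z1,[y8,z8,z8,z0,z3]),(z1,[y8,z5,z5,y3,y3,z3])],.ref k6 k0 [(z5,[z2,z13,z0,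
    y4]),(z5,[y1,z1,z15,z2]),(z10,[z13,y13,z0,z4]),(z5,[y4,z4,z0,z8,z15]),(z5,[y4,y11,y15,y7,y15,z15])],
    .ref k6 k0 [(z3,[z4,z5,z0,y4,y4]),(z3,[y2,z2,z9,z2,z2]),(z3,[z13,y13,z0,y4,y13]),(z3,[y8,z8,z0,z8,z17]),(z3,[y8,
    y1,y9,y1,y1,z9])],.ref k6 k0 [(z1,[y1,z4,z0,z0,z2]),(z2,[z1,y1,z6,z0,y2]),(z4,[y13,z13,z0,z12,z26]),(z1,[z2,y2,z0,
    z0,y1]),(z1,[z2,y5,y3,y3,y7,z3])],.ref k6 k0 [(z1,[y1,z2,y2,y2,y2,z2]),(z2,[z1,z1,z8,z2,z2,y2]),(z4,[y13,y13,y26,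
    y14,y26,z26]),(z1,[z2,z2,z4,z4,z7,y4]),(z1,[z2,y1,z1,z1,z1,y1])],.ref k6 k0 [(z1,[z4,z3,y4,y4,y4]),(z1,[y2,z0,z5,
    z2,z2]),(z1,[z13,z0,y13,y10,y13]),(z1,[y8,z0,z8,z8,z11]),(z1,[y8,y3,z5,z5,z5,z3])],.ref k6 k0 [(z3,[y2,z9,z2,z0,
    z4]),(z3,[z1,z0,z8,z0,y2]),(z6,[y13,z0,z13,z18,z26]),(z3,[z4,z0,y4,z0,z1]),(z3,[z4,y9,y13,y9,y17,z9])],
    .ref k6 k0 [(z3,[y4,z9,z4,z0,z4]),(z3,[z2,z0,z7,z0,y2]),(z3,[y13,z0,z13,z9,z13]),(z3,[z8,z0,y8,z0,z1]),(z3,[z8,y9,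
    y17,y9,y17,z9])],.ref k6 k0 [(z3,[y2,z5,y2,y4,y4,z4]),(z3,[z1,z2,z10,z2,z2,y2]),(z6,[y13,y26,y13,y8,y26,z26]),(z3,
    [z4,z8,z4,z8,z17,y8]),(z3,[z4,y1,y5,y1,y1,z1])],.ref k6 k0 [(z3,[y4,z5,z0,y4,y4,z4]),(z3,[z2,z2,z9,z2,z2,y2]),(z3,
    [y13,y13,z0,y4,y13,z13]),(z3,[z8,z8,z0,z8,z17,y8]),(z3,[z8,y1,y9,y1,y1,z1])],.ref k6 k0 [(z1,[y4,z3,z0,z4,z8]),
    (z1,[z2,z0,z3,y2,y4]),(z1,[y13,z0,z0,z16,z26]),(z1,[z8,z0,z0,y8,y13]),(z1,[z8,y3,y3,y11,y19,z3])],.ref k6 k0 [(z1,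
    [z2,z5,z2,z0,z2,y2]),(z1,[y1,y1,z2,z0,y1,z1]),(z2,[z13,z13,z13,z6,z13,y13]),(z1,[y4,y4,y4,z0,y1,z4]),(z1,[y4,y7,
    y7,y3,y7,z7])],.ref k6 k0 [(z2,[y1,z6,z0,z0,z3]),(z4,[z1,z0,z12,z0,y3]),(z8,[y13,z0,z0,z24,z39]),(z1,[z1]),(z1,
    [z1,y3,y3,y3,y6,z3])],.ref k6 k0 [(z2,[y1,z3,y3,y3,y3,z3]),(z4,[z1,z3,z15,z3,z3,y3]),(z8,[y13,y39,y39,y15,y39,
    z39]),(z1,[z1,z3,z3,z3,z6,y3]),(z1,[z1])],.ref k6 k0 [(z5,[y4,z7,y8,y8,y8,z8]),(z5,[z2,z4,z19,z4,z4,y4]),(z5,[y13,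
    y26,y26,y11,y26,z26]),(z5,[z8,z16,z16,z16,z31,y16]),(z5,[z8,z1,z1,z1,z1,y1])],.ref k6 k0 [(z1,[y2,z1,y2,y2,y2,
    z2]),(z1,[z1,z1,z4,z1,z1,y1]),(z2,[y13,y13,y13,y7,y13,z13]),(z1,[z4,z4,z4,z4,z7,y4]),(z1,[z4,z1,z1,z1,z1,y1])]]]

/-- the nodes with numbers from 142 -/
noncomputable def cT6_2_n3 : List TN :=
  cT6_2_n3_0 ++ (cT6_2_n3_1 ++ (cT6_2_n3_2 ++ cT6_2_n3_3))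

theorem cT6_2_k3 : allI (chkT 6 cT6_2_w tt6 cT6_2_s (blkF [] cT6_2_D)) cT6_2_n3 142 = true := by
  decide +kernel

end Pool.Agent.Lib_MP_fa6e45
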