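import Pool.Agent.Lib_MP_fa6e45.CG6_1d

/-!
MP_fa6e45_co, stage 5: certificates (captain, generated by a program).
-/

namespace Pool.Agent.Lib_MP_fa6e45

noncomputable def cT6_2_n4_0 : List TN :=
  [.lp [(nat_lit 216),(nat_lit 234),(nat_lit 238),(nat_lit 240),(nat_lit 246),(nat_lit 260)] [k26,k18,k13,k13,k11,k11,
    k10,k10,k7,k7,k0,k0] k0 [[k0,k0,k0,k0,k0,k0,k2,k14],[k0,k0,k56,k0,k0,k0,k0,k0,k0,k0,k2],[k0,k0,k0,k0,k0,k14,k0,k0,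
    k8,k2],[k56,k0,k0,k0,k0,k10],[k0,k0,k10,k14],[k0,k0,k0,k0,k0,k0,k0,k0,k0,k0,k52,k14],[k0,k14],[k0,k2],[k0,k0,k0,
    k2,k0,k0,k0,k0,k0,k0,k0,k26],[k0,k0,k0,k8,k0,k0,k0,k0,k0,k0,k0,k20],[k0,k0,k0,k0,k14,k0,k0,k0,k20,k26],[k2,k0,k0,
    k0,k52]] (nat_lit 720) k5
    [[(k7,k180),(k0,(nat_lit 216)),(k3,(nat_lit 227)),(k4,(nat_lit 245)),(k8,(nat_lit 255)),(k11,(nat_lit 268))],[(k6,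
    (nat_lit 210)),(k1,(nat_lit 216)),(k5,(nat_lit 223)),(k9,(nat_lit 225)),(k10,(nat_lit 236)),(k2,(nat_lit 277))],
    [(k5,k180),(k1,(nat_lit 227)),(k2,(nat_lit 234)),(k6,(nat_lit 239)),(k10,(nat_lit 247)),(k9,(nat_lit 254))],[(k4,
    (nat_lit 222)),(k3,(nat_lit 234)),(k8,(nat_lit 238)),(k11,(nat_lit 239)),(k7,(nat_lit 247)),(k0,(nat_lit 277))],
    [(k3,k180),(k0,(nat_lit 223)),(k4,(nat_lit 228)),(k8,(nat_lit 250)),(k11,(nat_lit 251)),(k7,(nat_lit 253))],[(k2,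
    (nat_lit 222)),(k5,(nat_lit 228)),(k6,(nat_lit 239)),(k9,(nat_lit 242)),(k1,(nat_lit 245)),(k10,(nat_lit 301))],
    [(k1,k180),(k10,(nat_lit 236)),(k6,(nat_lit 240)),(k9,(nat_lit 243)),(k2,(nat_lit 247)),(k5,(nat_lit 253))],[(k0,
    (nat_lit 210)),(k3,(nat_lit 239)),(k4,(nat_lit 239)),(k7,(nat_lit 240)),(k8,(nat_lit 243)),(k11,(nat_lit 250))],
    [(k0,(nat_lit 225)),(k4,(nat_lit 242)),(k7,(nat_lit 243)),(k8,(nat_lit 246)),(k11,(nat_lit 253)),(k3,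
    (nat_lit 254))],[(k10,(nat_lit 227)),(k2,(nat_lit 238)),(k6,(nat_lit 243)),(k9,(nat_lit 246)),(k5,(nat_lit 250)),
    (k1,(nat_lit 255))],[(k2,(nat_lit 239)),(k10,(nat_lit 240)),(k6,(nat_lit 250)),(k5,(nat_lit 251)),(k9,
    (nat_lit 253)),(k1,(nat_lit 268))],[(k8,(nat_lit 227)),(k0,(nat_lit 236)),(k7,(nat_lit 236)),(k11,(nat_lit 240)),
    (k3,(nat_lit 247)),(k4,(nat_lit 301))]]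
    [] k0
    [[k3,k0,k0,k0,k0,k0],[k2,k0,k1,k0,k0,k0],[k2,k0,k0,k1,k0,k0],[k2,k0,k0,k0,k1,k0],[k1,k1,k1,k0,k0,k0],[k1,k1,k0,k1,
    k0,k0],[k1,k1,k0,k0,k1,k0],[k1,k1,k0,k0,k0,k1],[k1,k0,k2,k0,k0,k0],[k1,k0,k1,k1,k0,k0],[k1,k0,k0,k2,k0,k0],[k1,k0,
    k0,k1,k1,k0],[k1,k0,k0,k1,k0,k1],[k0,k3,k0,k0,k0,k0],[k0,k2,k1,k0,k0,k0],[k0,k1,k2,k0,k0,k0],[k0,k1,k1,k1,k0,k0],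
    [k0,k1,k1,k0,k1,k0],[k0,k1,k0,k1,k0,k1],[k0,k0,k3,k0,k0,k0]]
    [.ref k6 k0 [(z1,[z1]),(z14,[y1,z3,z21]),(z7,[y2,z6,z0,z21]),(z7,[y2,z6,z0,z0,z21]),(z2,[y1,y3,y3,y6,y6,z6])],
    .ref k6 k0 [(z4,[z7,y2,z0,y7]),(z8,[y1,z2,z12,z1]),(z2,[y1,z2,z0,z7]),(z2,[y1,z2,z0,z1,z6]),(z8,[y7,y10,y12,y17,
    y24,z24])],.ref k6 k0 [(z4,[z7,y2,z0,z0,y7]),(z8,[y1,z2,z12,z0,z1]),(z2,[y1,z2,z0,z6,z1]),(z2,[y1,z2,z0,z0,z7]),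
    (z8,[y7,y10,y12,y24,y17,z24])],.ref k6 k0 [(z1,[z2,z1,z1,z2,z2,y2]),(z7,[y1,z1,z10,y1,y1,z1]),(z7,[y4,z4,y2,z17,
    y4,z4]),(z7,[y4,z4,y2,y4,z17,z4]),(z1,[y1,y2,y2,y4,y4,z4])],.ref k6 k0 [(z3,[z14,y5,y7,y14]),(z3,[y1,z1,z5,z1]),
    (z3,[y4,z4,z2,z13]),(z3,[y4,z4,z2,z4,z9]),(z3,[y7,y2,y1,y2,y9,z9])],.ref k6 k0 [(z3,[z14,y5,y7,z0,y14]),(z3,[y1,
    z1,z5,z0,z1]),(z3,[y4,z4,z2,z9,z4]),(z3,[y4,z4,z2,z0,z13]),(z3,[y7,y2,y1,y9,y2,z9])],.ref k6 k0 [(z1,[z7,z3,z0,z7,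
    z7,y7]),(z2,[y1,z0,z3,y1,y1,z1]),(z1,[y2,z0,z0,z1,y2,z2]),(z1,[y2,z0,z0,y2,z1,z2]),(z2,[y7,y6,y3,y13,y13,z13])],
    .ref k6 k0 [(z5,[z14,z1,y7]),(z5,[y1,z1,z8]),(z5,[y4,z4,z2,z15]),(z5,[y4,z4,z2,z0,z15]),(z5,[y7,y8,y4,y15,y15,
    z15])],.ref k6 k0 [(z1,[z7,y4,z0,y14]),(z2,[y1,z1,z3,z2]),(z1,[y2,z2,z0,z7]),(z1,[y2,z2,z0,z4,z3]),(z2,[y7,z1,y3,
    z8,y6,z6])],.ref k6 k0 [(z1,[z7,y4,z0,y7,y7]),(z2,[y1,z1,z3,z1,z1]),(z1,[y2,z2,z0,z5,z2]),(z1,[y2,z2,z0,z2,z5]),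
    (z2,[y7,z1,y3,z1,z1,z6])],.ref k6 k0 [(z1,[z7,y4,z0,z0,y14]),(z2,[y1,z1,z3,z0,z2]),(z1,[y2,z2,z0,z3,z4]),(z1,[y2,
    z2,z0,z0,z7]),(z2,[y7,z1,y3,y6,z8,z6])],.ref k6 k0 [(z1,[z14,z3,z7,z14,z0,y14]),(z1,[y1,z0,z1,y1,z0,z1]),(z1,[y4,
    z0,y2,y1,z0,z4]),(z1,[y4,z0,y2,y4,z3,z4]),(z1,[y7,y3,y5,y10,y3,z10])],.ref k6 k0 [(z2,[z7,y1,z0,z0,y7]),(z4,[y1,
    z1,z6,z0,z1]),(z1,[y1,z1,z0,z3,z1]),(z1,[y1,z1,z0,z0,z4]),(z4,[y7,y5,y6,y12,y5,z12])],.ref k6 k0 [(z1,[y14,z3,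
    z21]),(z1,[z1]),(z1,[z4,z0,y6,z3]),(z1,[z4,z0,y6,z0,z3]),(z1,[z7,y3,y12,y3,y3,z3])],.ref k6 k0 [(z1,[y7,z3,z7,
    z7]),(z2,[z1,z0,z2,y1]),(z1,[z2,z0,y2,z1]),(z1,[z2,z0,y2,y2,z3]),(z2,[z7,y6,y10,y13,y6,z6])],.ref k6 k0 [(z3,[y14,
    z9,z7,z28]),(z3,[z1,z0,z4,y2]),(z3,[z4,z0,y2,z1]),(z3,[z4,z0,y2,y8,z9]),(z3,[z7,y9,y8,y23,y9,z9])],
    .ref k6 k0 [(z3,[y14,z9,z7,z14,z14]),(z3,[z1,z0,z4,y1,y1]),(z3,[z4,z0,y2,z5,y4]),(z3,[z4,z0,y2,y4,z5]),(z3,[z7,y9,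
    y8,y16,y16,z9])],.ref k6 k0 [(z2,[y7,y1,z0,z0,y7,z7]),(z4,[z1,z1,z6,z0,z1,y1]),(z1,[z1,z1,z0,z3,z1,y1]),(z1,[z1,
    z1,z0,z0,z4,y1]),(z4,[z7,y5,y6,y12,y5,z5])],.ref k6 k0 [(z1,[y14,z3,z7,z0,z14]),(z1,[z1,z0,z1,z0,y1]),(z1,[z4,z0,
    y2,z3,y4]),(z1,[z4,z0,y2,z0,y1]),(z1,[z7,y3,y5,y3,y10,z3])],.ref k6 k0 [(z2,[y7,z6,z0,z21]),(z4,[z1,z0,z6,y3]),
    (z1,[z1]),(z1,[z1,z0,z0,y3,z3]),(z4,[z7,y12,y6,y33,y12,z12])]],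
    .lp [k172,k168,k154,k156,k172,k136] [k0,k0,k2,k2,k9,k9,k8,k8,k0,k0,k18,k18] k0 [[k0,k0,k12],[k0,k0,k20,k0,k0,k0,k0,k0,
    k0,k0,k0,k4],[k0,k0,k0,k0,k16,k2,k0,k0,k0,k18],[k20,k12],[k0,k0,k0,k2,k0,k0,k4,k2],[k0,k0,k0,k16,k0,k0,k0,k0,k0,
    k0,k36],[k0,k0,k0,k0,k0,k2],[k0,k0,k0,k0,k0,k4],[k0,k0,k0,k18],[k0,k0,k0,k0,k0,k0,k0,k0,k0,k0,k4],[k4],[k0,k0,k0,
    k0,k36,k0,k0,k0,k4]] (nat_lit 480) k5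
    [[(k7,k128),(k11,k150),(k4,k163),(k3,k170),(k8,k172),(k0,k176)],[(k5,k151),(k10,k154),(k6,k164),(k9,k172),(k1,
    k176),(k2,k190)],[(k5,k141),(k10,k148),(k6,k162),(k1,k170),(k9,k170),(k2,k180)],[(k7,k146),(k8,k152),(k11,k152),
    (k4,k159),(k3,k180),(k0,k190)],[(k3,k141),(k0,k151),(k7,k157),(k8,k163),(k11,k163),(k4,k170)],[(k6,k153),(k2,
    k159),(k9,k159),(k1,k163),(k5,k170),(k10,k181)],[(k1,k128),(k2,k146),(k10,k146),(k5,k157),(k6,k160),(k9,k166)],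
    [(k11,k146),(k4,k153),(k7,k160),(k3,k162),(k0,k164),(k8,k164)],[(k11,k154),(k4,k159),(k7,k166),(k3,k170),(k0,
    k172),(k8,k172)],[(k2,k152),(k10,k158),(k5,k163),(k6,k164),(k1,k172),(k9,k172)],[(k10,k136),(k6,k146),(k1,k150),
    (k2,k152),(k9,k154),(k5,k163)],[(k11,k136),(k7,k146),(k3,k148),(k0,k154),(k8,k158),(k4,k181)]]
    [] k0
    [[k2,k0,k0,k1,k0,k0],[k1,k1,k0,k0,k0,k1],[k1,k0,k1,k1,k0,k0],[k1,k0,k0,k2,k0,k0],[k1,k0,k0,k1,k1,k0],[k1,k0,k0,k1,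
    k0,k1],[k1,k0,k0,k0,k0,k2],[k0,k1,k2,k0,k0,k0],[k0,k1,k1,k1,k0,k0],[k0,k1,k1,k0,k1,k0],[k0,k1,k1,k0,k0,k1],[k0,k1,
    k0,k2,k0,k0],[k0,k1,k0,k1,k0,k1],[k0,k1,k0,k0,k1,k1],[k0,k1,k0,k0,k0,k2],[k0,k0,k1,k2,k0,k0],[k0,k0,k1,k1,k0,k1],
    [k0,k0,k0,k2,k0,k1],[k0,k0,k0,k1,k1,k1],[k0,k0,k0,k1,k0,k2],[k0,k0,k0,k0,k1,k2],[k0,k0,k0,k0,k0,k3]]
    [.ref k180 k1 [(z1,[y2,z2,y3,z3]),(z1,[z1,y1,y3]),(z2,[z0,y1,z1,y2,z2]),(z1,[z0,z0,z1])],.ref k115 k7 [(z2,[z0,z1,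
    z1,z2,y2]),(z2,[z4,y1,y3,y2,z2]),(z2,[z0,y1,z1,y2,z2]),(z2,[y4,z3,z3,z4,y2])],.ref k166 k0 [(z1,[y1,z1,z0,z1]),
    (z2,[z2,y1,z3,y2]),(z1,[z2,y1,z0,y1]),(z2,[y4,y1,y3,y2,z6])],.ref k36 k1 [(z3,[y2,z1,y6,z3]),(z6,[z2,y1,y3]),(z2,
    [z0,y1,z1,y2,z2]),(z1,[z0,z0,z1])],.ref k15 k11 [(z1,[y2,y2,y1,y2,z2]),(z2,[y4,y5,y3,y6,z6]),(z2,[z6,z5,z3,z6,
    y6]),(z1,[z0,z1,z0,z1])],.ref k15 k11 [(z1,[y2,y1]),(z2,[y4,y3,y1,y2,z2]),(z1,[z3,z1]),(z1,[z0,z1,z0,z1])],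
    .ref k57 k3 [(z1,[z1,z0,y2]),(z1,[z0,z0,z1]),(z2,[z0,y1,z1,y2,z2]),(z2,[z2,y1,y7])],.ref k181 k2 [(z1,[z1,y2,z0,
    y2]),(z1,[z0,z1,z0,z1]),(z2,[z6,y13,y3,y12]),(z2,[y4,z7,z1,z6,z2])],.ref k57 k3 [(z2,[y2,z1,y3,z2]),(z1,[z0,z0,
    z1]),(z2,[z0,y1,z1,y2,z2]),(z1,[y1,z0,y3,z1])],.ref k15 k11 [(z1,[z2,y1,z0,z0,y2]),(z2,[z4,y3,y1,y2,y2]),(z1,[y3,
    z1,z0,z0,z3]),(z1,[z0,z1,z0,z1])],.ref k15 k11 [(z1,[z2,y2,y1,y2]),(z2,[z4,y5,y3,y6,z2]),(z2,[y6,z5,z3,z6]),(z1,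
    [z0,z1,z0,z1])],.ref k182 k1 [(z1,[y1,z0,y3,z1]),(z1,[z1]),(z2,[z0,y1,z1,y2,z2]),(z1,[z0,z0,z1])],
    .ref k36 k1 [(z1,[y2,z0,y1,z1]),(z1,[z1,z0,y1]),(z2,[z0,y1,z1,y2,z2]),(z1,[z0,z0,z1])],.ref k166 k0 [(z1,[z1,z1,
    z0,z1,y1]),(z2,[y2,y1,z3,y2,z2]),(z1,[y2,y1,z0,y1,z2]),(z2,[z4,y1,y3,y2,z2])],.ref k166 k0 [(z2,[z2,z1,y1]),(z1,
    [y1,z0,z2]),(z1,[y2,z0,z1,z1]),(z2,[z4,y3,y5,y6,z6])],.ref k166 k0 [(z2,[y1,z1,z0,z1]),(z2,[z1,z0,z3,y1]),(z1,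
    [z1]),(z2,[y2,y3,y3,y4,z6])],.ref k115 k7 [(z2,[z0,z1,z1,z2,y2]),(z2,[y4,z1,y1,z2,z2]),(z2,[z0,y1,z1,y2,z2]),(z2,
    [z4,z1,z1,z0,y2])],.ref k36 k1 [(z1,[y1,z0,y2,z1]),(z2,[z1,z0,y1]),(z2,[z0,y1,z1,y2,z2]),(z1,[z0,z0,z1])],
    .ref k115 k7 [(z2,[z0,z1,z1,z2,y2]),(z2,[z4,z3,z1,z2,y2]),(z2,[z0,y1,z1,y2,z2]),(z2,[y4,y1,y1,z0,z2])],
    .ref k115 k7 [(z2,[z0,z1,z1,z2,y2]),(z2,[z4,z1,y1,y2,z2]),(z2,[z0,y1,z1,y2,z2]),(z2,[y4,z1,z1,z4,y2])],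
    .ref k166 k0 [(z4,[z2,z3,z1,z2,y2]),(z4,[y2,y1,z5,y2,z2]),(z2,[y2,y1,y1,z0,z2]),(z1,[z1,y1,y1,y2,z2])],
    .ref k166 k0 [(z2,[z1,z1]),(z2,[y1,z0,z3]),(z1,[y1,z0,z0,z1]),(z2,[z2,y3,y3,y6,z6])]],
    .lp [(nat_lit 320),(nat_lit 302),(nat_lit 354),(nat_lit 282),(nat_lit 320),(nat_lit 340)] [k17,k17,k26,k26,k0,k0,k36,
    k36,k17,k17,k7,k7] k0 [[k0,k0,k54,k0,k0,k0,k18,k48],[k0,k0,k0,k0,k0,k0,k0,k0,k0,k0,k0,k18],[k0,k0,k0,k0,k0,k48,k0,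
    k0,k4,k30],[k0,k54,k0,k0,k0,k2],[k0,k0,k2,k48,k0,k0,k0,k76],[k0,k0,k0,k0,k0,k0,k0,k20,k0,k0,k0,k2],[k0,k48,k0,k0,
    k20,k76],[k0,k18,k0,k0,k0,k0,k0,k0,k20],[k0,k0,k0,k30],[k0,k0,k0,k4,k0,k0,k20],[k18,k0,k0,k0,k2]] (nat_lit 960) k5
    [[(k7,(nat_lit 301)),(k3,(nat_lit 311)),(k8,(nat_lit 320)),(k11,(nat_lit 330)),(k0,(nat_lit 338)),(k4,
    (nat_lit 339))],[(k6,(nat_lit 253)),(k5,(nat_lit 283)),(k9,(nat_lit 302)),(k2,(nat_lit 311)),(k10,(nat_lit 330)),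
    (k1,(nat_lit 338))],[(k10,(nat_lit 303)),(k6,(nat_lit 310)),(k1,(nat_lit 311)),(k5,(nat_lit 328)),(k2,
    (nat_lit 356)),(k9,(nat_lit 359))],[(k4,(nat_lit 280)),(k8,(nat_lit 281)),(k7,(nat_lit 294)),(k0,(nat_lit 311)),
    (k11,(nat_lit 317)),(k3,(nat_lit 356))],[(k0,(nat_lit 283)),(k3,(nat_lit 328)),(k8,(nat_lit 341)),(k4,
    (nat_lit 352)),(k7,(nat_lit 366)),(k11,(nat_lit 377))],[(k6,(nat_lit 242)),(k2,(nat_lit 280)),(k1,(nat_lit 339)),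
    (k10,(nat_lit 347)),(k5,(nat_lit 352)),(k9,(nat_lit 357))],[(k6,(nat_lit 262)),(k2,(nat_lit 294)),(k1,
    (nat_lit 301)),(k10,(nat_lit 309)),(k5,(nat_lit 366)),(k9,(nat_lit 377))],[(k4,(nat_lit 242)),(k0,(nat_lit 253)),
    (k7,(nat_lit 262)),(k3,(nat_lit 310)),(k11,(nat_lit 311)),(k8,(nat_lit 321))],[(k0,(nat_lit 302)),(k11,
    (nat_lit 310)),(k8,(nat_lit 320)),(k4,(nat_lit 357)),(k3,(nat_lit 359)),(k7,(nat_lit 377))],[(k2,(nat_lit 281)),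
    (k1,(nat_lit 320)),(k9,(nat_lit 320)),(k6,(nat_lit 321)),(k10,(nat_lit 330)),(k5,(nat_lit 341))],[(k9,
    (nat_lit 310)),(k6,(nat_lit 311)),(k2,(nat_lit 317)),(k1,(nat_lit 330)),(k10,(nat_lit 340)),(k5,(nat_lit 377))],
    [(k3,(nat_lit 303)),(k7,(nat_lit 309)),(k0,(nat_lit 330)),(k8,(nat_lit 330)),(k11,(nat_lit 340)),(k4,
    (nat_lit 347))]]
    [] k0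
    [[k2,k0,k0,k1,k0,k0],[k1,k1,k1,k0,k0,k0],[k1,k1,k0,k1,k0,k0],[k1,k1,k0,k0,k1,k0],[k1,k1,k0,k0,k0,k1],[k1,k0,k1,k1,
    k0,k0],[k1,k0,k0,k2,k0,k0],[k1,k0,k0,k1,k1,k0],[k1,k0,k0,k1,k0,k1],[k1,k0,k0,k0,k2,k0],[k0,k1,k1,k1,k0,k0],[k0,k1,
    k0,k2,k0,k0],[k0,k1,k0,k1,k0,k1],[k0,k1,k0,k0,k1,k1],[k0,k0,k1,k2,k0,k0],[k0,k0,k1,k1,k0,k1],[k0,k0,k0,k3,k0,k0],
    [k0,k0,k0,k2,k0,k1],[k0,k0,k0,k1,k1,k1]]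
    [.ref k6 k0 [(z1,[z0,z1]),(z2,[y3,z2,z3,z0,z3]),(z1,[z0,z0,z0,z1]),(z1,[z3,y2]),(z2,[y9,z4,y3,y2,z3,z6])],
    .ref k6 k0 [(z1,[z0,z1]),(z1,[z3,y1,z0,y1]),(z1,[z0,z0,z0,z1]),(z1,[y6,z2,z3,z2,z3]),(z1,[z9,y4,y6,y4,y3,z3])],
    .ref k6 k0 [(z1,[z0,z1]),(z1,[y3,z1,z3,z0,z3]),(z1,[z0,z0,z0,z1]),(z1,[z6,y2,y3,z0,y3]),(z1,[y9,z2,z3,y1,z6,z3])],
    .ref k6 k0 [(z1,[z0,z1]),(z4,[z3,z0,z6,z1,z3,y3]),(z1,[z0,z0,z0,z1]),(z2,[y3,z0,z0,y1,z3,z3]),(z4,[z9,y4,y6,y1,y3,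
    z3])],.ref k6 k0 [(z1,[z0,z1]),(z1,[y3,z1,z3]),(z1,[z0,z0,z0,z1]),(z1,[z6,y2,y3,z0,z3]),(z1,[y9,z2,z3,y1,y3,z3])],
    .ref k6 k0 [(z1,[z0,z1]),(z2,[y3,z1,z3,z1,z3]),(z1,[z0,z0,z0,z1]),(z1,[z3,y1,z0,y1]),(z2,[y9,z1,y3,z1,z3,z6])],
    .ref k6 k0 [(z1,[z0,z1]),(z4,[y3,z1,z6,z0,z6]),(z1,[z0,z0,z0,z1]),(z2,[z3,y1]),(z4,[y9,y1,y6,y4,z6,z12])],
    .ref k6 k0 [(z1,[z0,z1]),(z1,[z3,z0,z3,z1,z0,y3]),(z1,[z0,z0,z0,z1]),(z1,[y6,z0,y3,y2,z3,z6]),(z1,[z9,y1,z3,z2,y3,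
    y6])],.ref k6 k0 [(z1,[z0,z1]),(z4,[y3,z1,z6,z0,z3]),(z1,[z0,z0,z0,z1]),(z2,[z3,y1,z0,z0,z3]),(z4,[y9,y1,y6,y4,y3,
    z12])],.ref k6 k0 [(z1,[z0,z1]),(z6,[z3,z1,z12,z2,z6,y6]),(z1,[z0,z0,z0,z1]),(z3,[y3,y1,y3,y2,z3,z6]),(z2,[z3,
    y1])],.ref k6 k0 [(z1,[z0,z1]),(z1,[y3,z0,z3,z1,z3]),(z1,[z0,z0,z0,z1]),(z1,[z6,z0,y3,y2,y3]),(z1,[y9,y1,z3,z2,z6,
    z3])],.ref k6 k0 [(z1,[z0,z1]),(z1,[y1,z0,z2,z0,z2]),(z1,[z0,z0,z0,z1]),(z1,[z2,z0,y1,z0,y1]),(z1,[y3,y1,z0,y1,z3,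
    z3])],.ref k6 k0 [(z1,[z0,z1]),(z1,[y1,z0,z2,z0,z1]),(z1,[z0,z0,z0,z1]),(z1,[z2,z0,y1,z0,z1]),(z1,[y3,y1,z0,y1,z0,
    z3])],.ref k6 k0 [(z1,[z0,z1]),(z2,[z3,z1,z3,z1,z3,y3]),(z1,[z0,z0,z0,z1]),(z1,[y3,y1,z0,y1,z0,z3]),(z2,[z9,z1,y3,
    z1,z3,y3])],.ref k6 k0 [(z1,[z0,z1]),(z4,[y3,z0,z6,z1,z6]),(z1,[z0,z0,z0,z1]),(z2,[z3,z0,z0,y1]),(z4,[y9,y4,y6,y1,
    z6,z12])],.ref k6 k0 [(z1,[z0,z1]),(z4,[y3,z0,z6,z1,z3]),(z1,[z0,z0,z0,z1]),(z2,[z3,z0,z0,y1,z3]),(z4,[y9,y4,y6,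
    y1,y3,z12])],.ref k6 k0 [(z1,[z0,z1]),(z2,[y1,z0,z3,z0,z3]),(z1,[z0,z0,z0,z1]),(z1,[z1]),(z2,[y3,y2,y3,y2,z3,
    z6])],.ref k6 k0 [(z1,[z0,z1]),(z2,[y1,z0,z3,z0,z2]),(z1,[z0,z0,z0,z1]),(z1,[z1,z0,z0,z0,z1]),(z2,[y3,y2,y3,y2,z0,
    z6])],.ref k6 k0 [(z1,[z0,z1]),(z1,[y3,y1,z0,y1,z0,z3]),(z1,[z0,z0,z0,z1]),(z1,[z6,z2,z3,z2,z3,y6]),(z1,[y9,y4,y6,
    y4,y3,z12])]],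
    .lp [(nat_lit 216),(nat_lit 234),(nat_lit 238),(nat_lit 240),(nat_lit 246),(nat_lit 260)] [k26,k18,k13,k13,k11,k11,
    k10,k10,k7,k7,k0,k0] k0 [[k0,k0,k0,k0,k0,k0,k2,k14],[k0,k0,k56,k0,k0,k0,k0,k0,k0,k0,k2],[k0,k0,k0,k0,k0,k14,k0,k0,
    k8,k2],[k56,k0,k0,k0,k0,k10],[k0,k0,k10,k14],[k0,k0,k0,k0,k0,k0,k0,k0,k0,k0,k52,k14],[k0,k14],[k0,k2],[k0,k0,k0,
    k2,k0,k0,k0,k0,k0,k0,k0,k26],[k0,k0,k0,k8,k0,k0,k0,k0,k0,k0,k0,k20],[k0,k0,k0,k0,k14,k0,k0,k0,k20,k26],[k2,k0,k0,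
    k0,k52]] (nat_lit 720) k5
    [[(k7,k180),(k0,(nat_lit 216)),(k3,(nat_lit 227)),(k4,(nat_lit 245)),(k8,(nat_lit 255)),(k11,(nat_lit 268))],[(k6,
    (nat_lit 210)),(k1,(nat_lit 216)),(k5,(nat_lit 223)),(k9,(nat_lit 225)),(k10,(nat_lit 236)),(k2,(nat_lit 277))],
    [(k5,k180),(k1,(nat_lit 227)),(k2,(nat_lit 234)),(k6,(nat_lit 239)),(k10,(nat_lit 247)),(k9,(nat_lit 254))],[(k4,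
    (nat_lit 222)),(k3,(nat_lit 234)),(k8,(nat_lit 238)),(k11,(nat_lit 239)),(k7,(nat_lit 247)),(k0,(nat_lit 277))],
    [(k3,k180),(k0,(nat_lit 223)),(k4,(nat_lit 228)),(k8,(nat_lit 250)),(k11,(nat_lit 251)),(k7,(nat_lit 253))],[(k2,
    (nat_lit 222)),(k5,(nat_lit 228)),(k6,(nat_lit 239)),(k9,(nat_lit 242)),(k1,(nat_lit 245)),(k10,(nat_lit 301))],
    [(k1,k180),(k10,(nat_lit 236)),(k6,(nat_lit 240)),(k9,(nat_lit 243)),(k2,(nat_lit 247)),(k5,(nat_lit 253))],[(k0,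
    (nat_lit 210)),(k3,(nat_lit 239)),(k4,(nat_lit 239)),(k7,(nat_lit 240)),(k8,(nat_lit 243)),(k11,(nat_lit 250))],
    [(k0,(nat_lit 225)),(k4,(nat_lit 242)),(k7,(nat_lit 243)),(k8,(nat_lit 246)),(k11,(nat_lit 253)),(k3,
    (nat_lit 254))],[(k10,(nat_lit 227)),(k2,(nat_lit 238)),(k6,(nat_lit 243)),(k9,(nat_lit 246)),(k5,(nat_lit 250)),
    (k1,(nat_lit 255))],[(k2,(nat_lit 239)),(k10,(nat_lit 240)),(k6,(nat_lit 250)),(k5,(nat_lit 251)),(k9,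
    (nat_lit 253)),(k1,(nat_lit 268))],[(k8,(nat_lit 227)),(k0,(nat_lit 236)),(k7,(nat_lit 236)),(k11,(nat_lit 240)),
    (k3,(nat_lit 247)),(k4,(nat_lit 301))]]
    [] k0
    [[k3,k0,k0,k0,k0,k0],[k2,k0,k1,k0,k0,k0],[k2,k0,k0,k1,k0,k0],[k2,k0,k0,k0,k1,k0],[k1,k1,k1,k0,k0,k0],[k1,k1,k0,k1,
    k0,k0],[k1,k1,k0,k0,k1,k0],[k1,k1,k0,k0,k0,k1],[k1,k0,k2,k0,k0,k0],[k1,k0,k1,k1,k0,k0],[k1,k0,k0,k2,k0,k0],[k1,k0,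
    k0,k1,k1,k0],[k1,k0,k0,k1,k0,k1],[k0,k3,k0,k0,k0,k0],[k0,k2,k1,k0,k0,k0],[k0,k1,k2,k0,k0,k0],[k0,k1,k1,k1,k0,k0],
    [k0,k1,k1,k0,k1,k0],[k0,k1,k0,k1,k0,k1],[k0,k0,k3,k0,k0,k0]]
    [.ref k6 k0 [(z1,[z1]),(z1,[y1,z1,z3]),(z1,[z1,y1,z0,z1]),(z1,[y1,z1,z0,z0,z3]),(z2,[y1,y1,y6,y2,y6,z6])],
    .ref k6 k0 [(z3,[z3,z1,z0,y1]),(z3,[y3,z2,z9,z1]),(z3,[z3,y2,z0,z2]),(z3,[y3,z2,z0,z1,z9]),(z6,[y3,y4,y18,y5,y18,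
    z18])],.ref k6 k0 [(z1,[z3,y1,z0,z0,y3]),(z1,[y3,z2,z3,z0,z3]),(z1,[z3,y2,z0,z1,y3]),(z1,[y3,z2,z0,z0,z6]),(z2,
    [y3,z0,y6,y2,y3,z6])],.ref k6 k0 [(z3,[z6,z1,z6,z2,z6,y6]),(z3,[y6,z2,z3,y2,y6,z6]),(z3,[z6,y2,z6,z5,z6,y6]),(z3,
    [y6,z2,y6,y2,z3,z6]),(z3,[y3,y2,y12,y4,y12,z12])],.ref k6 k0 [(z1,[z3,z0,y3,y1]),(z1,[y3,z1,z6,z1]),(z1,[z3,y1,
    y3]),(z1,[y3,z1,z3,z1,z3]),(z2,[y3,y1,y3,y1,y6,z6])],.ref k6 k0 [(z1,[y3,z2,z3,z0,z3]),(z1,[z3,y1,z0,z0,y3]),(z1,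
    [y3,z1,z3,z1,z3]),(z1,[z3,y1,y3]),(z2,[z3,y3,y9,y2,y9,z6])],.ref k6 k0 [(z1,[y6,z1,z0,y2,y6,z6]),(z1,[z6,z0,z3,z2,
    z6,y6]),(z1,[y6,z0,z0,y1,y6,z6]),(z1,[z6,z0,z0,z2,z9,y6]),(z1,[z3,y1,y3])],.ref k6 k0 [(z1,[z6,y1,y6]),(z1,[y6,z2,
    z9]),(z1,[z6,y2,y6,z1]),(z1,[y6,z2,z6,z0,z3]),(z1,[y3,z0,z0,y1,y3,z3])],.ref k6 k0 [(z3,[z3,z2,z0,y2]),(z3,[y3,z1,
    z9,z2]),(z3,[z3,y1,z0,z1]),(z3,[y3,z1,z0,z2,z9]),(z6,[y3,y5,y18,y4,y18,z18])],.ref k6 k0 [(z1,[z3,z0,z0,y1,y3]),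
    (z1,[y3,z1,z3,z1,z3]),(z1,[z3,y1,z0,z0,y3]),(z1,[y3,z1,z0,z1,z6]),(z2,[y3,y1,y6,y1,y3,z6])],.ref k6 k0 [(z1,[y3,
    z2,z0,z0,z6]),(z1,[z3,y1,z3,z0,y6]),(z1,[y3,z1,z0,z1,z6]),(z1,[z3,y1,z0,z0,y3]),(z2,[z3,y3,y6,y2,y12,z6])],
    .ref k6 k0 [(z1,[y6,z1,y6,y2,z0,z6]),(z1,[z6,z0,z9,z2,z0,y6]),(z1,[y6,z0,y6,y1,z0,z6]),(z1,[z6,z0,z6,z2,z3,y6]),
    (z1,[z3,y1,z0,z0,y3])],.ref k6 k0 [(z1,[z6,y1,z0,z0,y6]),(z1,[y6,z2,z3,z0,z6]),(z1,[z6,y2,z0,z1,y6]),(z1,[y6,z2,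
    z0,z0,z9]),(z1,[y3,z0,y3,y1,z0,z3])],.ref k6 k0 [(z1,[y1,z1,z3]),(z1,[z1]),(z1,[y1,z0,z3,z1]),(z1,[z1,z0,y3,z0,
    z3]),(z2,[z1,y2,y9,y2,y6,z6])],.ref k6 k0 [(z1,[y3,z1,z6,z1]),(z1,[z3,z0,y3,y1]),(z1,[y3,z0,z6,z2]),(z1,[z3,z0,y6,
    y1,z3]),(z2,[z3,y2,y12,y3,y6,z6])],.ref k6 k0 [(z1,[z3,z1,y3,y2]),(z1,[y3,z0,z6,z2]),(z1,[z3,z0,y3,y1]),(z1,[y3,
    z0,z3,z2,z3]),(z2,[y3,y2,y3,z0,y6,z6])],.ref k6 k0 [(z1,[y3,z1,z3,z1,z3]),(z1,[z3,z0,z0,y1,y3]),(z1,[y3,z0,z3,z2,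
    z3]),(z1,[z3,z0,y3,y1]),(z2,[z3,y2,y9,y3,y9,z6])],.ref k6 k0 [(z1,[y6,y1,z0,z0,y6,z6]),(z1,[z6,z2,z3,z0,z6,y6]),
    (z1,[y6,y2,z0,z1,y6,z6]),(z1,[z6,z2,z0,z0,z9,y6]),(z1,[z3,z0,y3,y1])],.ref k6 k0 [(z1,[y2,z1,z2,z0,z2]),(z1,[z2,
    z0,z1,z0,y2]),(z1,[y2,z0,z2,z1,z2]),(z1,[z2,z0,y2,z0,z1]),(z1,[z1,y1,y4,y1,y4,z3])],.ref k6 k0 [(z1,[z1,z1,z0,
    y1]),(z1,[y1,z0,z3,z1]),(z1,[z1]),(z1,[y1,z0,z0,z1,z3]),(z2,[y1,y2,y6,y1,y6,z6])]],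
    .leafM k1 [k0,k1,k2,k3,k4,k5] [(z1,[y1,z0,y1,z0,z1]),(z1,[z1,z0,z1])] [],
    .lp [k160,k146,k168,k160,k160,k164] [k4,k4,k11,k11,k0,k0,k4,k4,k4,k4,k2,k2] k0 [[k0,k0,k0,k0,k0,k0,k0,k36,k0,k0,k0,
    k4],[k0,k0,k24],[k0,k0,k0,k0,k22,k0,k0,k0,k0,k2],[k24,k0,k0,k0,k0,k0,k0,k0,k0,k6],[k0,k0,k0,k0,k0,k0,k8,k16,k0,k0,
    k2],[k0,k0,k0,k22,k0,k0,k0,k0,k0,k0,k20],[k0,k36,k0,k0,k0,k16,k0,k0,k6],[k0,k0,k0,k0,k0,k8],[k0,k0,k6,k2],[k0,k0,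
    k0,k0,k0,k0,k0,k6],[k0,k4],[k0,k0,k0,k0,k20,k2]] (nat_lit 480) k5
    [[(k7,k140),(k3,k157),(k0,k160),(k8,k160),(k4,k162),(k11,k162)],[(k6,k124),(k10,k158),(k1,k160),(k9,k160),(k5,
    k164),(k2,k177)],[(k5,k133),(k2,k146),(k6,k153),(k10,k155),(k1,k157),(k9,k189)],[(k7,k131),(k3,k146),(k8,k151),
    (k4,k157),(k11,k161),(k0,k177)],[(k3,k133),(k8,k158),(k0,k164),(k7,k164),(k11,k168),(k4,k190)],[(k6,k148),(k9,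
    k156),(k2,k157),(k1,k162),(k10,k186),(k5,k190)],[(k2,k131),(k1,k140),(k5,k164),(k10,k164),(k6,k168),(k9,k176)],
    [(k0,k124),(k4,k148),(k3,k153),(k11,k156),(k8,k160),(k7,k168)],[(k4,k156),(k0,k160),(k11,k162),(k8,k166),(k7,
    k176),(k3,k189)],[(k2,k151),(k5,k158),(k1,k160),(k6,k160),(k10,k162),(k9,k166)],[(k6,k156),(k2,k161),(k1,k162),
    (k9,k162),(k10,k164),(k5,k168)],[(k3,k155),(k0,k158),(k8,k162),(k7,k164),(k11,k164),(k4,k186)]]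
    [] k0
    [[k2,k0,k0,k1,k0,k0],[k1,k1,k1,k0,k0,k0],[k1,k1,k0,k1,k0,k0],[k1,k1,k0,k0,k1,k0],[k1,k1,k0,k0,k0,k1],[k1,k0,k1,k1,
    k0,k0],[k1,k0,k0,k2,k0,k0],[k1,k0,k0,k1,k1,k0],[k1,k0,k0,k1,k0,k1],[k0,k3,k0,k0,k0,k0],[k0,k2,k1,k0,k0,k0],[k0,k2,
    k0,k1,k0,k0],[k0,k2,k0,k0,k0,k1],[k0,k1,k1,k1,k0,k0],[k0,k1,k1,k0,k1,k0],[k0,k1,k0,k2,k0,k0],[k0,k1,k0,k1,k0,k1],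
    [k0,k1,k0,k0,k1,k1]]
    [.ref k6 k0 [(z7,[z4,z13,z0,z0,y4]),(z7,[y2,z4,z21,z0,z2]),(z7,[y8,z16,z0,z21,z8]),(z7,[z13,y26,z0,z0,z8]),(z7,
    [y8,y5,y21,y21,y13,z21])],.ref k6 k0 [(z1,[y2,z5,z2,z2]),(z1,[z1,y1,z2,y1]),(z1,[z4,y4,y4,y1]),(z2,[y13,z13,z13,
    z13,z6]),(z1,[z4,y7,y7,y7,y3,z3])],.ref k6 k0 [(z5,[z4,z11,y4,z0,y4]),(z5,[y2,z2,z17,z0,z2]),(z5,[y8,z8,z8,z15,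
    z8]),(z5,[z13,y13,y13,z0,z2]),(z5,[y8,y7,y7,y15,y7,z15])],.ref k6 k0 [(z1,[y2,z3,z0,y2,y2,z2]),(z1,[z1,z0,z3,z1,
    z1,y1]),(z1,[z4,z0,z0,z7,z4,y4]),(z2,[y13,z0,z0,y13,y7,z13]),(z1,[z4,y3,y3,z1,z1,y1])],.ref k6 k0 [(z1,[z4,y1,
    y4]),(z1,[y2,z2,z5]),(z1,[y8,z8,z8,z3]),(z1,[z13,y13,y13,z0,z3]),(z1,[y8,z5,z5,y3,y3,z3])],.ref k6 k0 [(z3,[z4,z5,
    z0,y4,y4]),(z3,[y2,z2,z9,z2,z2]),(z3,[y8,z8,z0,z17,z8]),(z3,[z13,y13,z0,y13,y4]),(z3,[y8,y1,y9,y1,y1,z9])],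
    .ref k6 k0 [(z5,[z2,z13,z0,z0,y4]),(z5,[y1,z1,z15,z0,z2]),(z5,[y4,z4,z0,z15,z8]),(z10,[z13,y13,z0,z0,z4]),(z5,[y4,
    y11,y15,y15,y7,z15])],.ref k6 k0 [(z3,[z4,z9,z4,z4,z0,y4]),(z3,[y2,z0,z7,y2,z0,z2]),(z3,[y8,z0,y8,z1,z0,z8]),(z3,
    [z13,z0,z13,z13,z9,y13]),(z3,[y8,y9,y17,y17,y9,z17])],.ref k6 k0 [(z3,[z2,z7,z0,z0,y2]),(z3,[y1,z1,z9,z0,z1]),(z3,
    [y4,z4,z0,z9,z4]),(z6,[z13,y13,z0,z0,z5]),(z3,[y4,y5,y9,y9,y5,z9])],.ref k6 k0 [(z1,[y2,z3,z6]),(z1,[z1]),(z1,[z4,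
    z0,y12,z3]),(z2,[y13,z0,z39,z0,z6]),(z1,[z4,y3,y15,y3,y3,z3])],.ref k6 k0 [(z1,[y1,z3,z2,z1]),(z2,[z1,z0,z4,y1]),
    (z1,[z2,z0,y4,z1]),(z4,[y13,z0,z26,z13,z12]),(z1,[z2,y3,y7,y5,y3,z3])],.ref k6 k0 [(z3,[z4,z9,y8,z0,y4]),(z3,[y2,
    z0,z13,z0,z2]),(z3,[y8,z0,z16,z9,z8]),(z3,[z13,z0,y26,z0,y4]),(z3,[y8,y9,z7,y9,y1,z9])],.ref k6 k0 [(z1,[y4,z3,
    z8]),(z1,[z2,z0,y1]),(z1,[z8,z0,y16,z3]),(z1,[y13,z0,z26,z0,z3]),(z1,[z8,y3,y19,y3,y3,z3])],.ref k6 k0 [(z1,[z4,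
    z3,y4,y4,y4]),(z1,[y2,z0,z5,z2,z2]),(z1,[y8,z0,z8,z11,z8]),(z1,[z13,z0,y13,y13,y10]),(z1,[y8,y3,z5,z5,z5,z3])],
    .ref k6 k0 [(z3,[y2,z7,z0,z0,y2,z2]),(z3,[z1,z1,z9,z0,z1,y1]),(z3,[z4,z4,z0,z9,z4,y4]),(z6,[y13,y13,z0,z0,z5,
    z13]),(z3,[z4,y5,y9,y9,y5,z5])],.ref k6 k0 [(z2,[z1,z6,y1,z0,y2]),(z4,[y1,z0,z13,z0,z2]),(z1,[y1,z0,z1,z3,z2]),
    (z8,[z13,z0,y13,z0,y2]),(z1,[y1,y3,y2,y3,y1,z3])],.ref k6 k0 [(z1,[z1,z3,y1,z0,y1]),(z2,[y1,z0,z7,z0,z1]),(z1,[y2,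
    z0,z2,z3,z2]),(z4,[z13,z0,y13,z0,y1]),(z1,[y2,y3,y1,y3,y1,z3])],.ref k6 k0 [(z3,[y4,z5,z0,y4,y4,z4]),(z3,[z2,z2,
    z9,z2,z2,y2]),(z3,[z8,z8,z0,z17,z8,y8]),(z3,[y13,y13,z0,y13,y4,z13]),(z3,[z8,y1,y9,y1,y1,z1])]],
    .lp [k184,k194,(nat_lit 202),(nat_lit 200),(nat_lit 206),(nat_lit 212)] [k14,k14,k9,k9,k5,k5,k6,k6,k3,k3,k0,
    k0] k0 [[k0,k0,k0,k0,k0,k0,k2,k8],[k0,k0,k48,k0,k0,k0,k0,k0,k0,k0,k10],[k0,k0,k0,k0,k0,k8],[k48,k0,k0,k0,k0,k10],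
    [k0,k0,k10,k8,k0,k0,k0,k2],[k0,k0,k0,k0,k0,k0,k0,k0,k0,k0,k40,k30],[k0,k8,k0,k0,k0,k2],[k0,k2,k0,k0,k0,k0,k0,k0,
    k0,k14],[k0,k0,k0,k0,k0,k0,k14,k0,k0,k0,k0,k10],[k0,k0,k0,k0,k0,k0,k0,k0,k0,k0,k0,k8],[k0,k0,k0,k0,k30,k0,k0,k0,
    k8,k10],[k10,k0,k0,k0,k40]] (nat_lit 600) k5
    [[(k7,k152),(k3,k179),(k0,k184),(k8,(nat_lit 203)),(k11,(nat_lit 208)),(k4,(nat_lit 223))],[(k1,k184),(k6,k184),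
    (k5,k193),(k9,k193),(k10,(nat_lit 208)),(k2,(nat_lit 237))],[(k5,k150),(k1,k179),(k2,k194),(k6,k199),(k10,
    (nat_lit 203)),(k9,(nat_lit 208))],[(k4,k190),(k3,k194),(k8,(nat_lit 200)),(k11,(nat_lit 203)),(k7,(nat_lit 207)),
    (k0,(nat_lit 237))],[(k3,k150),(k4,k192),(k0,k193),(k8,(nat_lit 204)),(k11,(nat_lit 207)),(k7,(nat_lit 209))],
    [(k2,k190),(k5,k192),(k6,k199),(k9,(nat_lit 204)),(k1,(nat_lit 223)),(k10,(nat_lit 247))],[(k1,k152),(k10,k176),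
    (k6,(nat_lit 200)),(k9,(nat_lit 205)),(k2,(nat_lit 207)),(k5,(nat_lit 209))],[(k0,k184),(k3,k199),(k4,k199),(k7,
    (nat_lit 200)),(k8,(nat_lit 203)),(k11,(nat_lit 220))],[(k8,k192),(k0,k193),(k4,(nat_lit 204)),(k7,(nat_lit 205)),
    (k3,(nat_lit 208)),(k11,(nat_lit 209))],[(k9,k192),(k10,k199),(k2,(nat_lit 200)),(k1,(nat_lit 203)),(k6,
    (nat_lit 203)),(k5,(nat_lit 204))],[(k2,(nat_lit 203)),(k10,(nat_lit 204)),(k5,(nat_lit 207)),(k1,(nat_lit 208)),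
    (k9,(nat_lit 209)),(k6,(nat_lit 220))],[(k7,k176),(k8,k199),(k3,(nat_lit 203)),(k11,(nat_lit 204)),(k0,
    (nat_lit 208)),(k4,(nat_lit 247))]]
    [] k0
    [[k3,k0,k0,k0,k0,k0],[k2,k0,k0,k1,k0,k0],[k2,k0,k0,k0,k1,k0],[k1,k1,k1,k0,k0,k0],[k1,k1,k0,k1,k0,k0],[k1,k1,k0,k0,
    k1,k0],[k1,k1,k0,k0,k0,k1],[k1,k0,k1,k1,k0,k0],[k1,k0,k0,k2,k0,k0],[k1,k0,k0,k1,k1,k0],[k1,k0,k0,k1,k0,k1],[k1,k0,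
    k0,k0,k2,k0],[k0,k3,k0,k0,k0,k0],[k0,k2,k1,k0,k0,k0],[k0,k1,k2,k0,k0,k0],[k0,k1,k1,k1,k0,k0],[k0,k1,k1,k0,k1,k0],
    [k0,k1,k0,k1,k0,k1],[k0,k0,k3,k0,k0,k0],[k0,k0,k1,k1,k0,k1],[k0,k0,k0,k2,k0,k1],[k0,k0,k0,k1,k1,k1],[k0,k0,k0,k0,
    k3,k0]]
    [.ref k6 k0 [(z1,[z1]),(z2,[z3,y9,z1]),(z2,[y1,z3,z0,z3]),(z1,[y3,z9,z0,z0,z1]),(z1,[z1,y3])],.ref k6 k0 [(z1,[y3,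
    z9,z0,z0,z1]),(z2,[y9,z18,z1,z0,z3]),(z2,[z3,y6,z0,z3,y1]),(z1,[z9,y18,z0,z0,y2]),(z1,[y3,z6,z0,z0,z1])],
    .ref k6 k0 [(z1,[z1,z1]),(z2,[z3,y6,z1]),(z2,[y1,z2,z0,z3]),(z1,[y3,z6,z0,z0,z1]),(z1,[z1,y2])],.ref k6 k0 [(z4,
    [z6,z6,y1,y3]),(z8,[z18,y18,z1,y9]),(z8,[y6,z6,z1,z15]),(z4,[y18,z18,z3,z9,z4]),(z4,[z6,y6,y1,y3])],
    .ref k6 k0 [(z1,[y6,z9,z1,z0,z2]),(z1,[y9,z9,z2,z0,z3]),(z2,[z6,y6,y1,z3,y2]),(z1,[z18,y18,y3,z0,y5]),(z1,[y6,z6,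
    z1,z0,z2])],.ref k6 k0 [(z7,[z6,z15,y1]),(z7,[z9,y9,z2]),(z14,[y6,z6,z1,z21]),(z7,[y18,z18,z3,z0,z7]),(z7,[z6,y6,
    y1])],.ref k6 k0 [(z5,[z6,z15,z0,z3,z2,y6]),(z10,[z18,z0,z5,z9,z6,y18]),(z5,[y3,z0,z0,z6,y1,z3]),(z5,[y18,z0,z0,
    y9,y1,z18]),(z5,[z6,z0,z0,z3,z2,y6])],.ref k6 k0 [(z5,[y6,z21,z0,z3,z2]),(z10,[y18,z18,z5,z9,z6]),(z5,[z3,y3,z0,
    z6,y1]),(z5,[z18,y18,z0,y9,y1]),(z5,[y6,z6,z0,z3,z2])],.ref k6 k0 [(z5,[y3,z18,z0,z0,z2]),(z10,[y9,z9,z5,z0,z6]),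
    (z10,[z3,y3,z0,z15,y2]),(z5,[z9,y9,z0,z0,y1]),(z5,[y3,z3,z0,z0,z2])],.ref k6 k0 [(z1,[y3,z6,z0,z0,z1]),(z2,[y9,z9,
    z1,z0,z3]),(z2,[z3,y3,z0,z3,y1]),(z1,[z9,y9,z0,z0,y2]),(z1,[y3,z3,z0,z0,z1])],.ref k6 k0 [(z4,[y6,z12,y1,y3,z0,
    z6]),(z8,[y18,z0,z1,y9,z0,z18]),(z8,[z6,z0,z1,z15,z0,y6]),(z4,[z18,z0,z3,z9,z4,y18]),(z4,[y6,z0,y1,y3,z0,z6])],
    .ref k6 k0 [(z1,[z1,z2]),(z2,[z3,y3,z1]),(z2,[y1,z1,z0,z3]),(z1,[y3,z3,z0,z0,z1]),(z1,[z1,y1])],.ref k6 k0 [(z3,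
    [z2,z9,y1]),(z1,[z1]),(z6,[y2,z0,z1,z9]),(z1,[y2,z0,z1,z0,z1]),(z3,[z2,z0,y1])],.ref k6 k0 [(z5,[z6,z15,y2,y3]),
    (z10,[z18,z0,y1,y9]),(z5,[y3,z0,z1,z9]),(z5,[y18,z0,z6,z9,z5]),(z5,[z6,z0,y2,y3])],.ref k6 k0 [(z1,[z6,z3,y1,y6]),
    (z1,[z9,z0,y1,y9]),(z2,[y6,z0,z1,z9]),(z1,[y18,z0,z3,z18,z1]),(z1,[z6,z0,y1,y6])],.ref k6 k0 [(z4,[y6,z12,z1,z3,
    z2]),(z8,[y18,z0,z7,z9,z6]),(z8,[z6,z0,y1,z9,y2]),(z4,[z18,z0,y3,y9,y2]),(z4,[y6,z0,z1,z3,z2])],.ref k6 k0 [(z4,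
    [z6,z12,y1,y3]),(z8,[z18,z0,z1,y9]),(z8,[y6,z0,z1,z15]),(z4,[y18,z0,z3,z9,z4]),(z4,[z6,z0,y1,y3])],
    .ref k6 k0 [(z1,[y2,z1,z0,y1,z0,z2]),(z2,[y6,y6,z1,y3,z0,z6]),(z1,[z1,z1,z0,z2,z0,y1]),(z1,[z6,z6,z0,z3,z1,y6]),
    (z1,[y2,y2,z0,y1,z0,z2])],.ref k6 k0 [(z1,[y2,z3,z0,z3]),(z2,[y6,z0,z1,z9]),(z1,[z1]),(z1,[z6,z0,z0,y9,z1]),(z1,
    [y2,z0,z0,z3])],.ref k6 k0 [(z7,[y6,z15,y1,z0,z0,z6]),(z7,[y9,y9,z2,z0,z0,z9]),(z14,[z6,z6,z1,z21,z0,y6]),(z7,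
    [z18,z18,z3,z0,z7,y18]),(z7,[y6,y6,y1,z0,z0,z6])],.ref k6 k0 [(z12,[y6,z30,y1,y3,z2,z6]),(z8,[y6,y6,z3,y3,z2,z6]),
    (z24,[z6,z6,z1,z39,y2,y6]),(z4,[z6,z6,z1,z3,z2,y6]),(z12,[y6,y6,y1,y3,z2,z6])],.ref k6 k0 [(z4,[y6,z6,y1,y3,z0,
    z6]),(z8,[y18,y18,z1,y9,z0,z18]),(z8,[z6,z6,z1,z15,z0,y6]),(z4,[z18,z18,z3,z9,z4,y18]),(z4,[y6,y6,y1,y3,z0,z6])],
    .ref k6 k0 [(z1,[z1,z3]),(z2,[z3,z0,z1]),(z2,[y1,z0,z0,z3]),(z1,[y3,z0,z0,z0,z1]),(z1,[z1])]],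
    .lp [k184,k194,(nat_lit 202),(nat_lit 200),(nat_lit 206),(nat_lit 212)] [k14,k14,k9,k9,k5,k5,k6,k6,k3,k3,k0,
    k0] k0 [[k0,k0,k0,k0,k0,k0,k2,k8],[k0,k0,k48,k0,k0,k0,k0,k0,k0,k0,k10],[k0,k0,k0,k0,k0,k8],[k48,k0,k0,k0,k0,k10],
    [k0,k0,k10,k8,k0,k0,k0,k2],[k0,k0,k0,k0,k0,k0,k0,k0,k0,k0,k40,k30],[k0,k8,k0,k0,k0,k2],[k0,k2,k0,k0,k0,k0,k0,k0,
    k0,k14],[k0,k0,k0,k0,k0,k0,k14,k0,k0,k0,k0,k10],[k0,k0,k0,k0,k0,k0,k0,k0,k0,k0,k0,k8],[k0,k0,k0,k0,k30,k0,k0,k0,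
    k8,k10],[k10,k0,k0,k0,k40]] (nat_lit 600) k5
    [[(k7,k152),(k3,k179),(k0,k184),(k8,(nat_lit 203)),(k11,(nat_lit 208)),(k4,(nat_lit 223))],[(k1,k184),(k6,k184),
    (k5,k193),(k9,k193),(k10,(nat_lit 208)),(k2,(nat_lit 237))],[(k5,k150),(k1,k179),(k2,k194),(k6,k199),(k10,
    (nat_lit 203)),(k9,(nat_lit 208))],[(k4,k190),(k3,k194),(k8,(nat_lit 200)),(k11,(nat_lit 203)),(k7,(nat_lit 207)),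
    (k0,(nat_lit 237))],[(k3,k150),(k4,k192),(k0,k193),(k8,(nat_lit 204)),(k11,(nat_lit 207)),(k7,(nat_lit 209))],
    [(k2,k190),(k5,k192),(k6,k199),(k9,(nat_lit 204)),(k1,(nat_lit 223)),(k10,(nat_lit 247))],[(k1,k152),(k10,k176),
    (k6,(nat_lit 200)),(k9,(nat_lit 205)),(k2,(nat_lit 207)),(k5,(nat_lit 209))],[(k0,k184),(k3,k199),(k4,k199),(k7,
    (nat_lit 200)),(k8,(nat_lit 203)),(k11,(nat_lit 220))],[(k8,k192),(k0,k193),(k4,(nat_lit 204)),(k7,(nat_lit 205)),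
    (k3,(nat_lit 208)),(k11,(nat_lit 209))],[(k9,k192),(k10,k199),(k2,(nat_lit 200)),(k1,(nat_lit 203)),(k6,
    (nat_lit 203)),(k5,(nat_lit 204))],[(k2,(nat_lit 203)),(k10,(nat_lit 204)),(k5,(nat_lit 207)),(k1,(nat_lit 208)),
    (k9,(nat_lit 209)),(k6,(nat_lit 220))],[(k7,k176),(k8,k199),(k3,(nat_lit 203)),(k11,(nat_lit 204)),(k0,
    (nat_lit 208)),(k4,(nat_lit 247))]]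
    [] k0
    [[k3,k0,k0,k0,k0,k0],[k2,k0,k0,k1,k0,k0],[k2,k0,k0,k0,k1,k0],[k1,k1,k1,k0,k0,k0],[k1,k1,k0,k1,k0,k0],[k1,k1,k0,k0,
    k1,k0],[k1,k1,k0,k0,k0,k1],[k1,k0,k1,k1,k0,k0],[k1,k0,k0,k2,k0,k0],[k1,k0,k0,k1,k1,k0],[k1,k0,k0,k1,k0,k1],[k1,k0,
    k0,k0,k2,k0],[k0,k3,k0,k0,k0,k0],[k0,k2,k1,k0,k0,k0],[k0,k1,k2,k0,k0,k0],[k0,k1,k1,k1,k0,k0],[k0,k1,k1,k0,k1,k0],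
    [k0,k1,k0,k1,k0,k1],[k0,k0,k3,k0,k0,k0],[k0,k0,k1,k1,k0,k1],[k0,k0,k0,k2,k0,k1],[k0,k0,k0,k1,k1,k1],[k0,k0,k0,k0,
    k3,k0]]
    [.ref k184 k0 [(z1,[z1]),(z1,[z0,z0,z1]),(z1,[y2,z3,z0,z3]),(z2,[z0,y1,y1,y2,z2])],.ref k115 k4 [(z1,[y1,z1,z0,
    z1]),(z2,[z0,y1,z1,y2,z2]),(z1,[z1]),(z2,[z0,z1,z1,z2,y2])],.ref k185 k1 [(z1,[y2,z2,y3,z3]),(z2,[z0,y1,z1,y2,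
    z2]),(z1,[z1,y1,y3]),(z1,[z0,z0,z1])],.ref k115 k4 [(z2,[z4,y1,y1,z0,y2]),(z2,[z0,y1,z1,y2,z2]),(z2,[y4,z3,z1,z2,
    z2]),(z2,[z0,z1,z1,z2,y2])],.ref k115 k4 [(z2,[y4,z1,z1,z0,z2]),(z2,[z0,y1,z1,y2,z2]),(z2,[z4,z1,y1,z2,y2]),(z2,
    [z0,z1,z1,z2,y2])],.ref k9 k1 [(z2,[y2,z1,y3,z2]),(z2,[z0,y1,z1,y2,z2]),(z4,[z2,y1,y3]),(z1,[z0,z0,z1])],
    .ref k115 k4 [(z2,[y4,z3,z3,z4,y2]),(z2,[z0,y1,z1,y2,z2]),(z2,[z4,y1,y3,y2,z2]),(z2,[z0,z1,z1,z2,y2])],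
    .ref k9 k1 [(z1,[z2,z0,y1,z1,y2]),(z2,[z0,y1,z1,y2,z2]),(z1,[y1,z0,y1,z0,z1]),(z1,[z0,z0,z1])],.ref k66 k4 [(z1,
    [y2,z1,z0,z1]),(z2,[z0,y1,z1,y2,z2]),(z1,[z1]),(z2,[z0,z1,z1,z2,y2])],.ref k162 k11 [(z1,[y2,y2,y1,y2,z2]),(z2,
    [z6,z5,z3,z6,y6]),(z2,[y4,y5,y3,y6,z6]),(z1,[z0,z1,z0,z1])],.ref k66 k4 [(z1,[y2,z2,z1,z3,y2]),(z2,[z0,y1,z1,y2,
    z2]),(z2,[z2,y1,y1,y2,z2]),(z2,[z0,z1,z1,z2,y2])],.ref k9 k1 [(z3,[y2,z1,y6,z3]),(z2,[z0,y1,z1,y2,z2]),(z6,[z2,y1,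
    y3]),(z1,[z0,z0,z1])],.ref k186 k0 [(z2,[y2,z1,z3]),(z1,[z1]),(z1,[z2,z0,y3,z1]),(z2,[y4,y3,z3,y6,z6])],
    .ref k115 k4 [(z2,[z2,z1,y1,z2,y2]),(z2,[z0,y1,z1,y2,z2]),(z2,[y2,z1,z1,z0,z2]),(z2,[z0,z1,z1,z2,y2])],
    .ref k187 k2 [(z1,[z1,y2,z0,y2]),(z1,[z0,z1,z0,z1]),(z2,[y4,z7,z1,z6,z2]),(z2,[z6,y13,y3,y12])],
    .ref k162 k11 [(z1,[z2,y1,z0,z0,y2]),(z1,[y3,z1,z0,z0,z3]),(z2,[z4,y3,y1,y2,y2]),(z1,[z0,z1,z0,z1])],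
    .ref k66 k4 [(z1,[z2,z2,z1,z3,y4]),(z2,[z0,y1,z1,y2,z2]),(z2,[y2,y1,y1,y2,z4]),(z2,[z0,z1,z1,z2,y2])],
    .ref k186 k0 [(z1,[z1,z1,z0,z1,y1]),(z2,[y2,y1,z3,y2,z2]),(z1,[y2,y1,z0,y1,z2]),(z2,[z4,y1,y3,y2,z2])],
    .ref k184 k0 [(z2,[y1,z3,z0,z3]),(z1,[z0,z0,z1]),(z1,[z1]),(z2,[z0,y1,y1,y2,z2])],.ref k9 k1 [(z2,[z2,z1,y3,z2,
    y2]),(z2,[z0,y1,z1,y2,z2]),(z4,[y2,y1,y3,z0,z2]),(z1,[z0,z0,z1])],.ref k186 k0 [(z2,[z1,z2,z1,z2,y2]),(z2,[y1,y1,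
    z2,y2,z2]),(z1,[y1,y1,y1,y1,z2]),(z2,[z2,y1,y1,y2,z2])],.ref k115 k4 [(z2,[y4,y1,y1,z0,z2]),(z2,[z0,y1,z1,y2,z2]),
    (z2,[z4,z3,z1,z2,y2]),(z2,[z0,z1,z1,z2,y2])],.ref k188 k7 [(z2,[z0,z1,z1,z2,y2]),(z2,[z4,z15,z9,z18,y18]),(z2,[z0,
    y1,z1,y2,z2]),(z2,[y4,y9,y9,y12,z18])]],
    .leafM k6 [k1,k2,k3,k4,k5,k0] [(z1,[z0,y1,y1,z1])] [],
    .lp [(nat_lit 606),(nat_lit 650),(nat_lit 632),(nat_lit 662),(nat_lit 646),(nat_lit 640)] [k28,k28,k6,k6,k15,k15,k0,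
    k0,k8,k8,k11,k11] k0 [[k0,k0,k74,k0,k0,k0,k0,k0,k0,k0,k46,k58],[k0,k0,k50],[k0,k0,k0,k0,k56,k0,k0,k0,k0,k100],
    [k50,k74],[k0,k0,k0,k0,k0,k0,k26,k62],[k0,k0,k0,k56,k0,k0,k0,k0,k0,k0,k48],[k0,k0,k0,k0,k0,k62,k0,k0,k22],[k0,k0,
    k0,k0,k0,k26,k0,k0,k18],[k0,k0,k0,k100,k0,k0,k0,k0,k0,k0,k0,k68],[k0,k0,k0,k0,k0,k0,k18,k22],[k0,k58,k0,k0,k0,k0,
    k0,k0,k0,k68],[k0,k46,k0,k0,k48]] (nat_lit 1920) k5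
    [[(k0,(nat_lit 560)),(k7,(nat_lit 586)),(k4,(nat_lit 619)),(k8,(nat_lit 626)),(k3,(nat_lit 686)),(k11,
    (nat_lit 691))],[(k5,(nat_lit 545)),(k1,(nat_lit 560)),(k10,(nat_lit 565)),(k9,(nat_lit 626)),(k6,(nat_lit 634)),
    (k2,(nat_lit 678))],[(k5,(nat_lit 591)),(k9,(nat_lit 648)),(k6,(nat_lit 656)),(k1,(nat_lit 686)),(k10,
    (nat_lit 691)),(k2,(nat_lit 724))],[(k8,(nat_lit 548)),(k7,(nat_lit 600)),(k4,(nat_lit 641)),(k11,(nat_lit 645)),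
    (k0,(nat_lit 678)),(k3,(nat_lit 724))],[(k0,(nat_lit 545)),(k3,(nat_lit 591)),(k8,(nat_lit 639)),(k7,
    (nat_lit 647)),(k4,(nat_lit 688)),(k11,(nat_lit 736))],[(k6,(nat_lit 585)),(k9,(nat_lit 613)),(k1,(nat_lit 619)),
    (k2,(nat_lit 641)),(k10,(nat_lit 684)),(k5,(nat_lit 688))],[(k1,(nat_lit 586)),(k2,(nat_lit 600)),(k5,
    (nat_lit 647)),(k10,(nat_lit 651)),(k6,(nat_lit 688)),(k9,(nat_lit 716))],[(k4,(nat_lit 585)),(k11,(nat_lit 629)),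
    (k0,(nat_lit 634)),(k3,(nat_lit 656)),(k8,(nat_lit 672)),(k7,(nat_lit 688))],[(k4,(nat_lit 613)),(k11,
    (nat_lit 625)),(k0,(nat_lit 626)),(k3,(nat_lit 648)),(k8,(nat_lit 668)),(k7,(nat_lit 716))],[(k2,(nat_lit 548)),
    (k10,(nat_lit 575)),(k1,(nat_lit 626)),(k5,(nat_lit 639)),(k9,(nat_lit 668)),(k6,(nat_lit 672))],[(k9,
    (nat_lit 625)),(k6,(nat_lit 629)),(k10,(nat_lit 640)),(k2,(nat_lit 645)),(k1,(nat_lit 691)),(k5,(nat_lit 736))],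
    [(k0,(nat_lit 565)),(k8,(nat_lit 575)),(k11,(nat_lit 640)),(k7,(nat_lit 651)),(k4,(nat_lit 684)),(k3,
    (nat_lit 691))]]
    [] k0
    [[k3,k0,k0,k0,k0,k0],[k2,k0,k1,k0,k0,k0],[k2,k0,k0,k1,k0,k0],[k2,k0,k0,k0,k1,k0],[k2,k0,k0,k0,k0,k1],[k1,k1,k1,k0,
    k0,k0],[k1,k1,k0,k0,k1,k0],[k1,k1,k0,k0,k0,k1],[k1,k0,k2,k0,k0,k0],[k1,k0,k1,k1,k0,k0],[k1,k0,k1,k0,k1,k0],[k1,k0,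
    k0,k2,k0,k0],[k1,k0,k0,k1,k1,k0],[k1,k0,k0,k1,k0,k1],[k1,k0,k0,k0,k1,k1],[k1,k0,k0,k0,k0,k2],[k0,k1,k1,k1,k0,k0],
    [k0,k1,k1,k0,k1,k0],[k0,k1,k0,k0,k2,k0],[k0,k1,k0,k0,k1,k1],[k0,k0,k0,k0,k2,k1],[k0,k0,k0,k0,k1,k2]]
    [.ref k6 k0 [(z1,[z1]),(z5,[y4,z12,z15]),(z5,[z2,y6,z0,z15]),(z5,[y1,z3,z0,z0,z15]),(z2,[y1,y3,y6,y6,y6,z6])],
    .ref k6 k0 [(z4,[z5,z2,z0,y5]),(z1,[y1,z2,z3,z1]),(z2,[z1,y2,z0,z5]),(z4,[y1,z2,z0,z1,z12]),(z8,[y5,y14,y24,y19,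
    y24,z24])],.ref k6 k0 [(z3,[z5,y1,z0,z0,y5]),(z3,[y4,z8,z9,z0,z4]),(z3,[z2,y4,z0,z9,y2]),(z3,[y1,z2,z0,z0,z10]),
    (z6,[y5,y8,y18,y18,y13,z18])],.ref k6 k0 [(z1,[z2,z1,z2,z2,z2,y2]),(z5,[y8,z8,z7,y8,y8,z8]),(z5,[z4,y4,z4,z19,z4,
    y4]),(z5,[y2,z2,y2,y2,z13,z2]),(z1,[y1,y2,y4,y4,y4,z4])],.ref k6 k0 [(z7,[z10,z1]),(z7,[y8,z16,z21]),(z7,[z4,y8,
    z0,z21]),(z7,[y2,z4,z0,z0,z21]),(z7,[y5,y11,y21,y21,y21,z21])],.ref k6 k0 [(z1,[z5,y2,y5,y5]),(z1,[y4,z4,z7,z4]),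
    (z1,[z2,y2,y2,z1]),(z1,[y1,z1,z1,z1,z3]),(z2,[y5,y1,y1,y1,y6,z6])],.ref k6 k0 [(z1,[y10,z3,z0,y10,y10,z10]),(z1,
    [z8,z0,z3,z8,z8,y8]),(z1,[y4,z0,z0,y1,y4,z4]),(z1,[z2,z0,z0,z2,z5,y2]),(z1,[z5,y3,y3,z2,z2,y2])],.ref k6 k0 [(z1,
    [z10,y7,y10]),(z1,[y8,z8,z11]),(z1,[z4,y4,y4,z3]),(z1,[y2,z2,z2,z0,z3]),(z1,[y5,z2,z2,y3,y3,z3])],.ref k6 k0 [(z3,
    [z5,z4,z0,y10]),(z3,[y4,z4,z9,z8]),(z3,[z2,y2,z0,z5]),(z3,[y1,z1,z0,z2,z9]),(z6,[y5,y13,y18,y8,y18,z18])],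
    .ref k6 k0 [(z2,[z5,z1,z0,y5,y5]),(z1,[y2,z2,z3,z2,z2]),(z1,[z1,y1,z0,z2,y1]),(z2,[y1,z1,z0,z1,z7]),(z4,[y5,y7,
    y12,y7,y7,z12])],.ref k6 k0 [(z3,[z10,z9,z10,z0,z10,y10]),(z3,[y8,z0,z1,z0,y8,z8]),(z3,[z4,z0,z4,z9,z4,y4]),(z3,
    [y2,z0,y2,z0,z7,z2]),(z3,[y5,y9,y14,y9,y14,z14])],.ref k6 k0 [(z1,[z5,y2,z0,z0,y10]),(z1,[y4,z4,z3,z0,z8]),(z1,
    [z2,y2,z0,z3,y4]),(z1,[y1,z1,z0,z0,z5]),(z2,[y5,y1,y6,y6,z4,z6])],.ref k6 k0 [(z1,[z10,z3,z10,z10,z0,y10]),(z1,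
    [y8,z0,y5,y8,z0,z8]),(z1,[z4,z0,z4,z7,z0,y4]),(z1,[y2,z0,y2,y2,z3,z2]),(z1,[y5,y3,y8,y8,y3,z8])],.ref k6 k0 [(z3,
    [z10,y1,z0,z0,y10]),(z3,[y8,z8,z9,z0,z8]),(z3,[z4,y4,z0,z9,y4]),(z3,[y2,z2,z0,z0,z11]),(z3,[y5,y4,y9,y9,y4,z9])],
    .ref k6 k0 [(z1,[z5,z3,z5,z5,z5,y5]),(z1,[y4,z0,y1,y4,y4,z4]),(z1,[z2,z0,z2,z5,z2,y2]),(z1,[y1,z0,y1,y1,z2,z1]),
    (z2,[y5,y6,y11,y11,y11,z11])],.ref k6 k0 [(z2,[z5,z1]),(z1,[y2,z2,z3]),(z1,[z1,y1,z0,z3]),(z2,[y1,z1,z0,z0,z6]),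
    (z4,[y5,y7,y12,y12,y12,z12])],.ref k6 k0 [(z1,[y5,z3,z5,z5,z5]),(z1,[z4,z0,y1,y4,y4]),(z1,[y2,z0,z2,z5,z2]),(z1,
    [z1,z0,y1,y1,z2]),(z2,[z5,y6,y11,y11,y11,z6])],.ref k6 k0 [(z3,[y10,y1,z0,z0,y10,z10]),(z3,[z8,z8,z9,z0,z8,y8]),
    (z3,[y4,y4,z0,z9,y4,z4]),(z3,[z2,z2,z0,z0,z11,y2]),(z3,[z5,y4,y9,y9,y4,z4])],.ref k6 k0 [(z3,[y5,y1,y5,y10,y10,
    z10]),(z3,[z4,z8,z13,z8,z8,y8]),(z3,[y2,y4,y2,z5,y4,z4]),(z3,[z1,z2,z1,z2,z11,y2]),(z6,[z5,y8,y13,y8,y8,z8])],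
    .ref k6 k0 [(z2,[y5,z1,z0,y5,y5,z5]),(z1,[z2,z2,z3,z2,z2,y2]),(z1,[y1,y1,z0,z2,y1,z1]),(z2,[z1,z1,z0,z1,z7,y1]),
    (z4,[z5,y7,y12,y7,y7,z7])],.ref k6 k0 [(z3,[y10,y11,y20,y20,y20,z20]),(z3,[z8,z16,z25,z16,z16,y16]),(z3,[y4,y8,y8,
    z1,y8,z8]),(z3,[z2,z4,z4,z4,z13,y4]),(z3,[z5,z1,z1,z1,z1,y1])],.ref k6 k0 [(z1,[y10,y7,y10,y10,y10,z10]),(z1,[z8,
    z8,z11,z8,z8,y8]),(z1,[y4,y4,y4,y1,y4,z4]),(z1,[z2,z2,z2,z2,z5,y2]),(z1,[z5,z2,z2,z2,z2,y2])]],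
    .leafM k6 [k1,k2,k3,k4,k5,k0] [(z6,[z0,y3,y2,y1,z6])] [],
    .lp [(nat_lit 224),(nat_lit 230),(nat_lit 250),(nat_lit 240),(nat_lit 246),(nat_lit 244)] [k13,k13,k10,k10,k0,k0,k5,
    k5,k2,k2,k3,k3] k0 [[k0,k0,k0,k20,k0,k0,k0,k2,k0,k0,k16],[k0,k0,k0,k0,k0,k0,k0,k6,k0,k0,k42],[k0,k20,k0,k0,k0,k4],
    [k0,k0,k0,k0,k0,k26,k0,k0,k16],[k0,k0,k26,k4],[k0,k0,k0,k0,k0,k0,k6,k0,k0,k0,k0,k4],[k6,k2],[k0,k0,k0,k0,k6],[k0,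
    k0,k0,k0,k0,k0,k0,k0,k0,k0,k0,k2],[k0,k0,k16],[k0,k0,k0,k0,k4,k0,k0,k0,k0,k2],[k42,k16]] (nat_lit 720) k5
    [[(k3,k185),(k0,(nat_lit 208)),(k7,(nat_lit 232)),(k8,(nat_lit 235)),(k11,(nat_lit 236)),(k4,(nat_lit 241))],[(k2,
    (nat_lit 207)),(k1,(nat_lit 208)),(k6,(nat_lit 230)),(k5,(nat_lit 237)),(k9,(nat_lit 241)),(k10,(nat_lit 276))],
    [(k1,k185),(k6,(nat_lit 229)),(k2,(nat_lit 230)),(k9,(nat_lit 240)),(k10,(nat_lit 253)),(k5,(nat_lit 260))],[(k0,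
    (nat_lit 207)),(k3,(nat_lit 230)),(k4,(nat_lit 236)),(k11,(nat_lit 237)),(k8,(nat_lit 254)),(k7,(nat_lit 261))],
    [(k4,(nat_lit 224)),(k11,(nat_lit 231)),(k0,(nat_lit 237)),(k8,(nat_lit 248)),(k7,(nat_lit 249)),(k3,
    (nat_lit 260))],[(k5,(nat_lit 224)),(k2,(nat_lit 236)),(k1,(nat_lit 241)),(k10,(nat_lit 247)),(k9,(nat_lit 248)),
    (k6,(nat_lit 251))],[(k1,(nat_lit 232)),(k9,(nat_lit 237)),(k10,(nat_lit 238)),(k6,(nat_lit 240)),(k5,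
    (nat_lit 249)),(k2,(nat_lit 261))],[(k3,(nat_lit 229)),(k0,(nat_lit 230)),(k7,(nat_lit 240)),(k11,(nat_lit 242)),
    (k8,(nat_lit 243)),(k4,(nat_lit 251))],[(k7,(nat_lit 237)),(k3,(nat_lit 240)),(k0,(nat_lit 241)),(k11,
    (nat_lit 245)),(k8,(nat_lit 246)),(k4,(nat_lit 248))],[(k1,(nat_lit 235)),(k6,(nat_lit 243)),(k10,(nat_lit 243)),
    (k9,(nat_lit 246)),(k5,(nat_lit 248)),(k2,(nat_lit 254))],[(k5,(nat_lit 231)),(k1,(nat_lit 236)),(k2,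
    (nat_lit 237)),(k6,(nat_lit 242)),(k10,(nat_lit 244)),(k9,(nat_lit 245))],[(k7,(nat_lit 238)),(k8,(nat_lit 243)),
    (k11,(nat_lit 244)),(k4,(nat_lit 247)),(k3,(nat_lit 253)),(k0,(nat_lit 276))]]
    [] k0
    [[k3,k0,k0,k0,k0,k0],[k2,k1,k0,k0,k0,k0],[k2,k0,k1,k0,k0,k0],[k2,k0,k0,k1,k0,k0],[k2,k0,k0,k0,k1,k0],[k1,k2,k0,k0,
    k0,k0],[k1,k1,k1,k0,k0,k0],[k1,k1,k0,k1,k0,k0],[k1,k1,k0,k0,k1,k0],[k1,k1,k0,k0,k0,k1],[k1,k0,k2,k0,k0,k0],[k1,k0,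
    k0,k2,k0,k0],[k1,k0,k0,k1,k1,k0],[k1,k0,k0,k1,k0,k1],[k0,k3,k0,k0,k0,k0],[k0,k1,k1,k1,k0,k0],[k0,k1,k0,k1,k0,k1],
    [k0,k0,k3,k0,k0,k0],[k0,k0,k2,k0,k0,k1]]
    [.ref k6 k0 [(z1,[z1]),(z5,[z2,y6,z15]),(z5,[y4,z12,z0,z15]),(z5,[y1,z3,z0,z0,z15]),(z2,[y1,y3,y6,y6,y6,z6])],
    .ref k6 k0 [(z4,[z5,z2,y5]),(z2,[z1,y2,z5]),(z1,[y1,z2,z1,z3]),(z4,[y1,z2,z1,z0,z12]),(z8,[y5,y14,y19,y24,y24,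
    z24])],.ref k6 k0 [(z2,[z5,y4,z0,y5]),(z1,[z1,y2,z3,y1]),(z1,[y2,z4,z0,z5]),(z2,[y1,z2,z0,z1,z6]),(z4,[y5,y2,y12,
    y7,y12,z12])],.ref k6 k0 [(z3,[z5,y1,z0,z0,y5]),(z3,[z2,y4,z9,z0,y2]),(z3,[y4,z8,z0,z9,z4]),(z3,[y1,z2,z0,z0,
    z10]),(z6,[y5,y8,y18,y18,y13,z18])],.ref k6 k0 [(z1,[z2,z1,z2,z2,z2,y2]),(z5,[z4,y4,z19,z4,z4,y4]),(z5,[y8,z8,y8,
    z7,y8,z8]),(z5,[y2,z2,y2,y2,z13,z2]),(z1,[y1,y2,y4,y4,y4,z4])],.ref k6 k0 [(z3,[z5,z4,y10]),(z3,[z2,y2,z5]),(z3,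
    [y4,z4,z8,z9]),(z3,[y1,z1,z2,z0,z9]),(z6,[y5,y13,y8,y18,y18,z18])],.ref k6 k0 [(z1,[z5,y2,y5,y5]),(z1,[z2,y2,z1,
    y2]),(z1,[y4,z4,z4,z7]),(z1,[y1,z1,z1,z1,z3]),(z2,[y5,y1,y1,y1,y6,z6])],.ref k6 k0 [(z2,[z5,z1,y5,z0,y5]),(z1,[z1,
    y1,z2,z0,y1]),(z1,[y2,z2,z2,z3,z2]),(z2,[y1,z1,z1,z0,z7]),(z4,[y5,y7,y7,y12,y7,z12])],.ref k6 k0 [(z3,[z10,z9,z0,
    z10,z10,y10]),(z3,[z4,z0,z9,z4,z4,y4]),(z3,[y8,z0,z0,z1,y8,z8]),(z3,[y2,z0,z0,y2,z7,z2]),(z3,[y5,y9,y9,y14,y14,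
    z14])],.ref k6 k0 [(z1,[z2,z1,y2]),(z5,[z4,y4,z11]),(z5,[y8,z8,z8,z15]),(z5,[y2,z2,z2,z0,z15]),(z1,[y1,y2,y2,y3,
    y3,z3])],.ref k6 k0 [(z1,[y5,z8,z0,z10]),(z1,[y2,z2,z3,z4]),(z1,[z4,y4,z0,y5]),(z1,[z1,y1,z0,y2,z3]),(z2,[z5,y11,
    y6,y16,y6,z6])],.ref k6 k0 [(z1,[z5,y2,z0,z0,y10]),(z1,[z2,y2,z3,z0,y4]),(z1,[y4,z4,z0,z3,z8]),(z1,[y1,z1,z0,z0,
    z5]),(z2,[y5,y1,y6,y6,z4,z6])],.ref k6 k0 [(z1,[z10,z3,z10,z10,z0,y10]),(z1,[z4,z0,z7,z4,z0,y4]),(z1,[y8,z0,y8,y5,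
    z0,z8]),(z1,[y2,z0,y2,y2,z3,z2]),(z1,[y5,y3,y8,y8,y3,z8])],.ref k6 k0 [(z3,[z10,y1,z0,z0,y10]),(z3,[z4,y4,z9,z0,
    y4]),(z3,[y8,z8,z0,z9,z8]),(z3,[y2,z2,z0,z0,z11]),(z3,[y5,y4,y9,y9,y4,z9])],.ref k6 k0 [(z2,[z5,z6,y15]),(z1,
    [z1]),(z1,[y2,z0,z6,z3]),(z2,[y1,z0,z3,z0,z6]),(z4,[y5,y12,z3,y12,y12,z12])],.ref k6 k0 [(z1,[y5,z3,z5,z5,z5]),
    (z1,[y2,z0,z5,z2,z2]),(z1,[z4,z0,y4,y1,y4]),(z1,[z1,z0,y1,y1,z2]),(z2,[z5,y6,y11,y11,y11,z6])],.ref k6 k0 [(z1,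
    [z10,z3,y10,z0,y10]),(z1,[z4,z0,y1,z0,y4]),(z1,[y8,z0,z8,z3,z8]),(z1,[y2,z0,z2,z0,z5]),(z1,[y5,y3,z2,y3,z2,z3])],
    .ref k6 k0 [(z4,[y5,z12,z0,z15]),(z2,[y1,z0,z6,z3]),(z1,[z1]),(z4,[z1,z0,z0,y3,z12]),(z8,[z5,y24,y24,y39,y24,
    z24])],.ref k6 k0 [(z1,[y2,z3,z0,z4]),(z5,[y4,z0,z15,z8]),(z5,[z8,z0,z0,y1]),(z5,[z2,z0,z0,y4,z15]),(z1,[z1,y3,y3,
    y5,y3,z3])]]]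

noncomputable def cT6_2_n4_1 : List TN :=
  [.lp [k82,k80,k74,k84,k86,k72] [k10,k0,k11,k1,k9,k9,k4,k4,k3,k3,k10,k10] k0 [[k0,k0,k6],[k0,k0,k22,k0,k0,k0,k0,k0,k0,
    k0,k0,k20],[k0,k0,k0,k0,k6,k4,k0,k0,k0,k12],[k22,k6],[k0,k0,k0,k4,k0,k0,k0,k2],[k0,k0,k0,k6,k0,k0,k0,k0,k0,k0,
    k28],[k0,k0,k0,k0,k0,k2,k0,k0,k0,k4],[],[k0,k0,k0,k12,k0,k0,k0,k4],[k0,k0,k0,k0,k0,k0,k0,k0,k0,k0,k10,k4],[k20,k0,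
    k0,k0,k0,k0,k0,k0,k4],[k0,k0,k0,k0,k28,k0,k0,k0,k10]] (nat_lit 240) k5
    [[(k7,k60),(k11,k72),(k4,k83),(k3,k91),(k8,k93),(k0,k102)],[(k5,k67),(k10,k72),(k6,k78),(k9,k79),(k2,k93),(k1,
    k102)],[(k5,k60),(k10,k61),(k2,k86),(k6,k87),(k9,k88),(k1,k91)],[(k8,k66),(k4,k68),(k7,k71),(k11,k71),(k3,k86),
    (k0,k93)],[(k3,k60),(k0,k67),(k4,k80),(k8,k80),(k7,k83),(k11,k85)],[(k2,k68),(k6,k77),(k5,k80),(k9,k80),(k1,k83),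
    (k10,k101)],[(k1,k60),(k2,k71),(k10,k78),(k5,k83),(k6,k84),(k9,k87)],[(k4,k77),(k0,k78),(k11,k78),(k8,k81),(k7,
    k84),(k3,k87)],[(k0,k79),(k4,k80),(k11,k83),(k8,k86),(k7,k87),(k3,k88)],[(k2,k66),(k5,k80),(k6,k81),(k9,k86),(k10,
    k89),(k1,k93)],[(k10,k68),(k2,k71),(k1,k72),(k6,k78),(k9,k83),(k5,k85)],[(k3,k61),(k11,k68),(k0,k72),(k7,k78),(k8,
    k89),(k4,k101)]]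
    [] k0
    [[k1,k1,k1,k0,k0,k0],[k1,k1,k0,k0,k1,k0],[k1,k1,k0,k0,k0,k1],[k1,k0,k2,k0,k0,k0],[k1,k0,k1,k1,k0,k0],[k1,k0,k0,k2,
    k0,k0],[k1,k0,k0,k1,k1,k0],[k1,k0,k0,k1,k0,k1],[k1,k0,k0,k0,k0,k2],[k0,k2,k1,k0,k0,k0],[k0,k2,k0,k0,k0,k1],[k0,k1,
    k2,k0,k0,k0],[k0,k1,k1,k1,k0,k0],[k0,k1,k1,k0,k1,k0],[k0,k1,k1,k0,k0,k1],[k0,k1,k0,k1,k0,k1],[k0,k1,k0,k0,k1,k1],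
    [k0,k1,k0,k0,k0,k2],[k0,k0,k0,k1,k0,k2],[k0,k0,k0,k0,k0,k3]]
    [.ref k115 k1 [(z1,[z1,y1,y1]),(z1,[z1,y3,y1,y3,z2]),(z1,[y1,z1,z1,z1]),(z1,[y1,z1,z0,z1])],.ref k9 k7 [(z1,[y2,
    z2,z1]),(z1,[z2,y1,y1]),(z1,[y1,z1,z1]),(z1,[z0,z0,z0,z1])],.ref k115 k1 [(z1,[y1,z1,z0,z1]),(z1,[y1,y1,z0,y2,
    z2]),(z1,[z1,y1]),(z1,[z1,y1,y1])],.ref k115 k1 [(z2,[z1,y1,y1]),(z2,[z1,y5,y1,y6,z4]),(z2,[y1,z1,z1,z2]),(z2,[y1,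
    z1,y1,z2])],.ref k138 k0 [(z1,[z2,z3,z1,z0,y2]),(z1,[y1,z0,z1,z0,z1]),(z1,[z0,z0,z0,z1]),(z1,[z1,y3,y1,y3,z2])],
    .ref k36 k1 [(z1,[z1,z1,y1,z3,y2]),(z2,[z1,y1,y1]),(z2,[y1,y1,z1,y2,z2]),(z1,[y1,y1,z0,y2,z2])],.ref k121 k7 [(z1,
    [y2,z0,y1,y2,z2]),(z1,[z2,z3,z1,z2,y2]),(z1,[y1,z0,z1,y1,z1]),(z1,[z0,z0,z0,z1])],.ref k9 k7 [(z1,[y2,z0,y1,y2,
    z2]),(z1,[z2,z1,z1,z2,y2]),(z1,[y1,z0,z0,y1,z1]),(z1,[z0,z0,z0,z1])],.ref k115 k1 [(z2,[y1,z1,y1,z2]),(z2,[y1,y3,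
    y1,y4,z4]),(z2,[z1,y1,z1]),(z2,[z1,y1,y1])],.ref k9 k7 [(z1,[z1,z0,y1,y1]),(z1,[y1,z1,z1,z1]),(z2,[z1,z0,z0,y1]),
    (z1,[z0,z0,z0,z1])],.ref k36 k1 [(z1,[y1,z0,y1,z1]),(z2,[y1,y2,y1,y2,z2]),(z2,[z1,z0,z1]),(z1,[z1])],
    .ref k191 k7 [(z1,[z2,z0,y1,y4]),(z1,[y2,z1,z1,z4]),(z1,[z1,z0,z0,y2]),(z1,[z0,z0,z0,z1])],.ref k192 k6 [(z1,[y1,
    y1,z0,z0,z1]),(z1,[z0,y2,y1,y2,z2]),(z1,[z2,z2,z0,z3,y2]),(z1,[z2,z2,z3,z0,y2])],.ref k9 k7 [(z1,[z2,z0,y1,y2]),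
    (z1,[y2,z1,z1,z2]),(z1,[z1,z0,z0,y1]),(z1,[z0,z0,z0,z1])],.ref k121 k7 [(z1,[z2,z0,y1,y2]),(z1,[y2,z3,z1,z2]),(z1,
    [z1,z0,z1,y1]),(z1,[z0,z0,z0,z1])],.ref k36 k1 [(z1,[y2,y2,y2,y1,z2]),(z1,[y1,y2,y1,y2,z2]),(z1,[z1,z1,z1,z1,y1]),
    (z1,[z2,z2,z1,z2,y2])],.ref k138 k0 [(z1,[y2,z3,z1]),(z1,[z1,z0,z1]),(z1,[z0,z0,z0,z1]),(z1,[y1,y3,y1,y3,z3])],
    .ref k193 k4 [(z1,[z2,z10,z4,z11,y10]),(z1,[z1,z4,z2,z4,y4]),(z1,[y2,y7,y3,y8,z8]),(z1,[z0,y2,y1,y2,z2])],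
    .ref k138 k0 [(z1,[y2,z1,y1,y2,z2]),(z1,[z1,z1,z2,z1,y1]),(z1,[z0,z0,z0,z1]),(z1,[y1,y4,y2,y4,z4])],
    .ref k138 k0 [(z1,[y1,z3]),(z2,[z1,z0,z3]),(z1,[z0,z0,z0,z1]),(z2,[y1,y6,y3,y6,z6])]],
    .leafM k1 [k0,k1,k2,k3,k4,k5] [(z1,[y1,z0,y1,z1]),(z1,[z1,z0,z1])] [],
    .leafM k1 [k0,k1,k2,k3,k4,k5] [(z1,[z0,z1,z0,z1]),(z1,[z0,y1,z0,y1,z1])] [],
    .lp [(nat_lit 640),(nat_lit 598),(nat_lit 690),(nat_lit 608),(nat_lit 626),(nat_lit 674)] [k25,k25,k46,k46,k0,k0,k41,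
    k41,k32,k32,k8,k8] k0 [[k0,k0,k118,k0,k0,k0,k0,k44],[k0,k0,k42],[k0,k0,k0,k0,k2,k18],[k42,k118],[k0,k0,k0,k18,k0,
    k0,k0,k88,k0,k0,k36],[k0,k0,k0,k2,k0,k0,k0,k56],[k0,k44,k0,k0,k56,k88],[k0,k0,k0,k0,k0,k0,k0,k0,k46,k50],[k0,k0,
    k0,k0,k0,k0,k50,k0,k0,k0,k0,k34],[k0,k0,k0,k0,k0,k0,k46,k0,k0,k0,k0,k26],[k0,k0,k0,k0,k0,k0,k0,k0,k26,k34],[k0,k0,
    k0,k0,k0,k36]] (nat_lit 1920) k5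
    [[(k3,(nat_lit 619)),(k7,(nat_lit 624)),(k4,(nat_lit 629)),(k0,(nat_lit 640)),(k8,(nat_lit 659)),(k11,
    (nat_lit 691))],[(k5,(nat_lit 547)),(k6,(nat_lit 580)),(k9,(nat_lit 633)),(k1,(nat_lit 640)),(k10,(nat_lit 657)),
    (k2,(nat_lit 661))],[(k5,(nat_lit 602)),(k6,(nat_lit 603)),(k1,(nat_lit 619)),(k10,(nat_lit 636)),(k9,
    (nat_lit 656)),(k2,(nat_lit 716))],[(k7,(nat_lit 601)),(k8,(nat_lit 612)),(k4,(nat_lit 626)),(k11,(nat_lit 636)),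
    (k0,(nat_lit 661)),(k3,(nat_lit 716))],[(k0,(nat_lit 547)),(k3,(nat_lit 602)),(k8,(nat_lit 658)),(k7,
    (nat_lit 667)),(k11,(nat_lit 682)),(k4,(nat_lit 692))],[(k6,(nat_lit 561)),(k2,(nat_lit 626)),(k1,(nat_lit 629)),
    (k10,(nat_lit 682)),(k5,(nat_lit 692)),(k9,(nat_lit 714))],[(k6,(nat_lit 552)),(k2,(nat_lit 601)),(k1,
    (nat_lit 624)),(k5,(nat_lit 667)),(k10,(nat_lit 677)),(k9,(nat_lit 705))],[(k7,(nat_lit 552)),(k4,(nat_lit 561)),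
    (k0,(nat_lit 580)),(k3,(nat_lit 603)),(k8,(nat_lit 663)),(k11,(nat_lit 691))],[(k8,(nat_lit 576)),(k11,
    (nat_lit 604)),(k0,(nat_lit 633)),(k3,(nat_lit 656)),(k7,(nat_lit 705)),(k4,(nat_lit 714))],[(k9,(nat_lit 576)),
    (k2,(nat_lit 612)),(k10,(nat_lit 616)),(k5,(nat_lit 658)),(k1,(nat_lit 659)),(k6,(nat_lit 663))],[(k9,
    (nat_lit 604)),(k2,(nat_lit 636)),(k10,(nat_lit 648)),(k5,(nat_lit 682)),(k1,(nat_lit 691)),(k6,(nat_lit 691))],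
    [(k8,(nat_lit 616)),(k3,(nat_lit 636)),(k11,(nat_lit 648)),(k0,(nat_lit 657)),(k7,(nat_lit 677)),(k4,
    (nat_lit 682))]]
    [] k0
    [[k2,k0,k1,k0,k0,k0],[k2,k0,k0,k1,k0,k0],[k1,k1,k1,k0,k0,k0],[k1,k1,k0,k1,k0,k0],[k1,k1,k0,k0,k1,k0],[k1,k1,k0,k0,
    k0,k1],[k1,k0,k2,k0,k0,k0],[k1,k0,k1,k1,k0,k0],[k1,k0,k0,k2,k0,k0],[k1,k0,k0,k0,k2,k0],[k0,k1,k1,k1,k0,k0],[k0,k1,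
    k0,k2,k0,k0],[k0,k1,k0,k1,k0,k1],[k0,k1,k0,k0,k2,k0],[k0,k1,k0,k0,k1,k1],[k0,k0,k1,k2,k0,k0],[k0,k0,k0,k3,k0,k0],
    [k0,k0,k0,k0,k3,k0],[k0,k0,k0,k0,k2,k1],[k0,k0,k0,k0,k1,k2]]
    [.ref k6 k0 [(z3,[z4,z1,z0,y4]),(z3,[y2,z4,z9,z2]),(z3,[z1,y2,z0,z8]),(z3,[z4,y8,z0,y4,z9]),(z3,[y8,z7,y9,y1,y9,
    z9])],.ref k6 k0 [(z1,[z1,z1,z0,z0,y1]),(z2,[y1,z2,z6,z0,z1]),(z4,[z1,y2,z0,z12,y1]),(z1,[z1,y2,z0,z0,z2]),(z1,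
    [y2,z1,y3,y3,y1,z3])],.ref k6 k0 [(z1,[z4,y1,y4,y4]),(z1,[y2,z2,z5,z2]),(z1,[z1,y1,y1,z2]),(z1,[z4,y4,y4,y4,z3]),
    (z1,[y8,z5,z5,z5,y3,z3])],.ref k6 k0 [(z1,[z2,z1,y2,z0,y2]),(z1,[y1,z1,z4,z0,z1]),(z2,[z1,y1,y1,z6,y1]),(z1,[z2,
    y2,y2,z0,z1]),(z1,[y4,z1,z1,y3,z1,z3])],.ref k6 k0 [(z1,[y2,z3,z0,y2,y2,z2]),(z1,[z1,z0,z3,z1,z1,y1]),(z2,[y1,z0,
    z0,z5,y1,z1]),(z1,[y2,z0,z0,y2,z1,z2]),(z1,[z4,y3,y3,z1,z1,y1])],.ref k6 k0 [(z1,[z4,y1,y4]),(z1,[y2,z2,z5]),(z1,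
    [z1,y1,y1,z3]),(z1,[z4,y4,y4,z0,z3]),(z1,[y8,z5,z5,y3,y3,z3])],.ref k6 k0 [(z1,[z2,z1,z0,y4]),(z1,[y1,z1,z3,z2]),
    (z2,[z1,y1,z0,z4]),(z1,[z2,y2,z0,y4,z3]),(z1,[y4,z1,y3,z5,y3,z3])],.ref k6 k0 [(z3,[z4,z5,z0,y4,y4]),(z3,[y2,z2,
    z9,z2,z2]),(z3,[z1,y1,z0,z8,y1]),(z3,[z4,y4,z0,y4,z5]),(z3,[y8,y1,y9,y1,y1,z9])],.ref k6 k0 [(z1,[z1,z2,z0,z0,
    y2]),(z2,[y1,z1,z6,z0,z2]),(z4,[z1,y1,z0,z12,y2]),(z1,[z1,y1,z0,z0,z1]),(z1,[y2,y1,y3,y3,z1,z3])],.ref k6 k0 [(z1,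
    [y1,z2,y2,y2,y2,z2]),(z2,[z1,z1,z8,z2,z2,y2]),(z4,[y1,y1,y2,z10,y2,z2]),(z1,[y1,y1,y2,y2,z1,z2]),(z1,[z2,y1,z1,z1,
    z1,y1])],.ref k6 k0 [(z1,[z4,z3,y4,y4,y4]),(z1,[y2,z0,z5,z2,z2]),(z1,[z1,z0,y1,z2,y1]),(z1,[z4,z0,y4,y4,y1]),(z1,
    [y8,y3,z5,z5,z5,z3])],.ref k6 k0 [(z1,[z2,z3,y2,z0,y4]),(z1,[y1,z0,z4,z0,z2]),(z2,[z1,z0,y1,z6,y2]),(z1,[z2,z0,y2,
    z0,y1]),(z1,[y4,y3,z1,y3,z5,z3])],.ref k6 k0 [(z1,[z4,z3,y4,z0,y4]),(z1,[y2,z0,z5,z0,z2]),(z1,[z1,z0,y1,z3,y1]),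
    (z1,[z4,z0,y4,z0,y1]),(z1,[y8,y3,z5,y3,z5,z3])],.ref k6 k0 [(z3,[y2,z5,y2,y4,y4,z4]),(z3,[z1,z2,z10,z2,z2,y2]),
    (z6,[y1,y2,y1,z16,y2,z2]),(z3,[y2,y4,y2,y4,z5,z4]),(z3,[z4,y1,y5,y1,y1,z1])],.ref k6 k0 [(z3,[y4,z5,z0,y4,y4,z4]),
    (z3,[z2,z2,z9,z2,z2,y2]),(z3,[y1,y1,z0,z8,y1,z1]),(z3,[y4,y4,z0,y4,z5,z4]),(z3,[z8,y1,y9,y1,y1,z1])],
    .ref k6 k0 [(z3,[z4,z9,z0,y4,y8]),(z3,[y2,z0,z9,z2,z4]),(z3,[z1,z0,z0,z8,y2]),(z3,[z4,z0,z0,y4,z1]),(z3,[y8,y9,y9,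
    y1,z7,z9])],.ref k6 k0 [(z1,[z1,z3,z0,z0,y3]),(z2,[y1,z0,z6,z0,z3]),(z4,[z1,z0,z0,z12,y3]),(z1,[z1]),(z1,[y2,y3,
    y3,y3,z3,z3])],.ref k6 k0 [(z2,[y1,z3,y3,y3,y3,z3]),(z4,[z1,z3,z15,z3,z3,y3]),(z8,[y1,y3,y3,z21,y3,z3]),(z2,[y1,
    y3,y3,y3,z3,z3]),(z1,[z1])],.ref k6 k0 [(z5,[y4,z7,y8,y8,y8,z8]),(z5,[z2,z4,z19,z4,z4,y4]),(z5,[y1,y2,y2,z13,y2,
    z2]),(z5,[y4,y8,y8,y8,z7,z8]),(z5,[z8,z1,z1,z1,z1,y1])],.ref k6 k0 [(z1,[y2,z1,y2,y2,y2,z2]),(z1,[z1,z1,z4,z1,z1,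
    y1]),(z2,[y1,y1,y1,z5,y1,z1]),(z1,[y2,y2,y2,y2,z1,z2]),(z1,[z4,z1,z1,z1,z1,y1])]],
    .lp [k140,k170,k170,k138,k172,k168] [k16,k16,k1,k1,k1,k1,k17,k17,k0,k0,k2,k2] k0 [[k0,k0,k0,k0,k0,k0,k0,k0,k0,k0,k8,
    k10],[k0,k0,k28,k32],[k32,k0,k0,k0,k0,k36],[k28,k0,k0,k0,k0,k34],[k0,k0,k34,k36,k0,k0,k34],[k0,k0,k0,k0,k0,k0,k0,
    k0,k0,k0,k0,k12],[k0,k0,k0,k0,k0,k0,k0,k0,k0,k2],[k0,k0,k0,k0,k0,k34],[k0,k0,k0,k0,k0,k0,k0,k2],[k0,k0,k0,k0,k0,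
    k0,k0,k0,k0,k0,k4,k8],[k0,k10,k0,k0,k12,k0,k0,k0,k8],[k0,k8,k0,k0,k0,k0,k0,k0,k4]] (nat_lit 480) k5
    [[(k0,k132),(k7,k139),(k11,k150),(k8,k164),(k3,k165),(k4,k167)],[(k1,k132),(k6,k139),(k10,k144),(k9,k156),(k2,
    k183),(k5,k187)],[(k2,k138),(k5,k142),(k6,k154),(k1,k165),(k9,k171),(k10,k177)],[(k4,k134),(k3,k138),(k11,k169),
    (k8,k171),(k0,k183),(k7,k188)],[(k4,k136),(k3,k142),(k11,k169),(k8,k171),(k0,k187),(k7,k190)],[(k2,k134),(k5,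
    k136),(k9,k137),(k6,k154),(k1,k167),(k10,k169)],[(k1,k139),(k10,k141),(k9,k155),(k6,k172),(k2,k188),(k5,k190)],
    [(k0,k139),(k8,k153),(k11,k153),(k3,k154),(k4,k154),(k7,k172)],[(k4,k137),(k7,k155),(k0,k156),(k3,k171),(k8,k172),
    (k11,k172)],[(k6,k153),(k1,k164),(k2,k171),(k5,k171),(k9,k172),(k10,k174)],[(k1,k150),(k6,k153),(k10,k160),(k2,
    k169),(k5,k169),(k9,k172)],[(k7,k141),(k0,k144),(k11,k160),(k4,k169),(k8,k174),(k3,k177)]]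
    [] k0
    [[k3,k0,k0,k0,k0,k0],[k2,k0,k0,k1,k0,k0],[k2,k0,k0,k0,k1,k0],[k2,k0,k0,k0,k0,k1],[k1,k1,k0,k0,k0,k1],[k1,k1,k0,k1,
    k0,k0],[k1,k0,k0,k2,k0,k0],[k1,k0,k0,k1,k1,k0],[k1,k0,k0,k1,k0,k1],[k1,k0,k0,k0,k0,k2],[k0,k3,k0,k0,k0,k0],[k0,k2,
    k1,k0,k0,k0],[k0,k1,k2,k0,k0,k0],[k0,k1,k1,k0,k1,k0],[k0,k1,k1,k1,k0,k0],[k0,k1,k0,k1,k0,k1],[k0,k0,k3,k0,k0,k0],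
    [k0,k0,k2,k0,k1,k0],[k0,k0,k2,k0,k0,k1],[k0,k0,k1,k1,k0,k1],[k0,k0,k0,k2,k0,k1],[k0,k0,k0,k1,k1,k1],[k0,k0,k0,k1,
    k0,k2]]
    [.ref k166 k10 [(z1,[z0,z1,z1,z1,y1]),(z1,[z1]),(z1,[z0,y2,y1,y2,z2]),(z1,[z1,y3])],.ref k166 k10 [(z1,[z0,z1,z1,
    z1,y1]),(z1,[z1,z1]),(z1,[z0,y2,y1,y2,z2]),(z1,[z1,y2])],.ref k9 k11 [(z1,[y2,y2,y1,y2,z2]),(z1,[z1]),(z1,[z0,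
    y1]),(z1,[z0,z2,z0,z1])],.ref k196 k8 [(z2,[y1,z0,y1,y2,z2]),(z1,[z1,y2]),(z1,[z0,z1]),(z2,[y1,z2,z1])],
    .ref k196 k8 [(z1,[y1,z0,z0,y1,z1]),(z1,[z2,y2,y1]),(z1,[z0,z1]),(z1,[y1,z1,z1])],.ref k9 k11 [(z1,[y2,y2,z1]),
    (z1,[z1,z0,y1,y1,z1]),(z1,[z0,y1]),(z1,[z0,z2,z0,z1])],.ref k166 k10 [(z1,[z0,z1,z1,z1,y1]),(z1,[z1,z2]),(z1,[z0,
    y2,y1,y2,z2]),(z1,[z1,y1])],.ref k9 k11 [(z1,[y2,y4,y1,y2,z2]),(z1,[z1,z1]),(z1,[z0,y1]),(z1,[z0,z2,z0,z1])],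
    .ref k196 k8 [(z2,[y1,y1,y1,y2,z2]),(z1,[z1,y1]),(z1,[z0,z1]),(z2,[y1,z1,z1])],.ref k197 k3 [(z1,[z1,z0,y2]),(z1,
    [z0,z0,z1]),(z1,[z0,y1,y1,y1,z1]),(z1,[z1,y1,y2])],.ref k166 k0 [(z1,[z0,z1]),(z1,[z1]),(z1,[z0,z0,z0,z1]),(z1,
    [z1,y3,y3,y3,z3])],.ref k196 k8 [(z2,[z1,y2,y2,y3,z2]),(z1,[y1,z0,z1,z1]),(z1,[z0,z1]),(z2,[z1,z0,z0,y1])],
    .ref k197 k2 [(z1,[z1,y4,z0,y2]),(z1,[z0,z2,z0,z1]),(z1,[z0,y1]),(z1,[z1,y5,y1,y3,z1])],.ref k196 k8 [(z2,[z1,y1,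
    y1,y2,z1]),(z1,[y1,y1,z0,z0,z1]),(z1,[z0,z1]),(z2,[z1,z1,z1,z0,y1])],.ref k196 k8 [(z1,[z1,y1,y1,y2,z1]),(z1,[y2,
    z0,z1,z2]),(z1,[z0,z1]),(z1,[z1,z0,z0,y1])],.ref k196 k8 [(z1,[y1,y1,z0,y1,z1]),(z1,[z2,z0,y1]),(z1,[z0,z1]),(z1,
    [y1,z0,z1])],.ref k166 k10 [(z1,[z0,z1,z1,z1,y1]),(z2,[y1,z6,z0,z3]),(z1,[z0,y2,y1,y2,z2]),(z2,[y1,z0,z0,z3])],
    .ref k197 k2 [(z1,[z1,y3,z1,y1,y1]),(z1,[z0,z2,z0,z1]),(z1,[z0,y1]),(z1,[z1,y4,z0,y2])],.ref k9 k11 [(z1,[z1,y4,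
    z0,y2]),(z2,[y1,z2,y1,z0,z2]),(z1,[z0,y1]),(z1,[z0,z2,z0,z1])],.ref k9 k1 [(z1,[z2,z0,y2,y1]),(z1,[y1,z0,z1,z1]),
    (z1,[z0,y1,y1,y1,z1]),(z1,[z0,z0,z1])],.ref k196 k8 [(z2,[y1,y2,y1,y2,z2]),(z1,[z1]),(z1,[z0,z1]),(z2,[y1,z0,
    z1])],.ref k196 k8 [(z1,[y1,y2,y1,y2,z2]),(z1,[z2,z2,z1,z2,y2]),(z1,[z0,z1]),(z1,[y1,y1,z0,y1,z1])],
    .ref k197 k3 [(z1,[z1,z1,y2]),(z1,[z0,z0,z1]),(z1,[z0,y1,y1,y1,z1]),(z1,[z1,z0,y2])]],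
    .leafM k6 [k0,k1,k2,k3,k4,k5] [(z1,[y1,y1,y1,z0,z1])] [],
    .lp [(nat_lit 216),(nat_lit 234),(nat_lit 238),(nat_lit 240),(nat_lit 246),(nat_lit 260)] [k26,k18,k13,k13,k11,k11,
    k10,k10,k7,k7,k0,k0] k0 [[k0,k0,k0,k0,k0,k0,k2,k14],[k0,k0,k56,k0,k0,k0,k0,k0,k0,k0,k2],[k0,k0,k0,k0,k0,k14,k0,k0,
    k8,k2],[k56,k0,k0,k0,k0,k10],[k0,k0,k10,k14],[k0,k0,k0,k0,k0,k0,k0,k0,k0,k0,k52,k14],[k0,k14],[k0,k2],[k0,k0,k0,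
    k2,k0,k0,k0,k0,k0,k0,k0,k26],[k0,k0,k0,k8,k0,k0,k0,k0,k0,k0,k0,k20],[k0,k0,k0,k0,k14,k0,k0,k0,k20,k26],[k2,k0,k0,
    k0,k52]] (nat_lit 720) k5
    [[(k7,k180),(k0,(nat_lit 216)),(k3,(nat_lit 227)),(k4,(nat_lit 245)),(k8,(nat_lit 255)),(k11,(nat_lit 268))],[(k6,
    (nat_lit 210)),(k1,(nat_lit 216)),(k5,(nat_lit 223)),(k9,(nat_lit 225)),(k10,(nat_lit 236)),(k2,(nat_lit 277))],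
    [(k5,k180),(k1,(nat_lit 227)),(k2,(nat_lit 234)),(k6,(nat_lit 239)),(k10,(nat_lit 247)),(k9,(nat_lit 254))],[(k4,
    (nat_lit 222)),(k3,(nat_lit 234)),(k8,(nat_lit 238)),(k11,(nat_lit 239)),(k7,(nat_lit 247)),(k0,(nat_lit 277))],
    [(k3,k180),(k0,(nat_lit 223)),(k4,(nat_lit 228)),(k8,(nat_lit 250)),(k11,(nat_lit 251)),(k7,(nat_lit 253))],[(k2,
    (nat_lit 222)),(k5,(nat_lit 228)),(k6,(nat_lit 239)),(k9,(nat_lit 242)),(k1,(nat_lit 245)),(k10,(nat_lit 301))],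
    [(k1,k180),(k10,(nat_lit 236)),(k6,(nat_lit 240)),(k9,(nat_lit 243)),(k2,(nat_lit 247)),(k5,(nat_lit 253))],[(k0,
    (nat_lit 210)),(k3,(nat_lit 239)),(k4,(nat_lit 239)),(k7,(nat_lit 240)),(k8,(nat_lit 243)),(k11,(nat_lit 250))],
    [(k0,(nat_lit 225)),(k4,(nat_lit 242)),(k7,(nat_lit 243)),(k8,(nat_lit 246)),(k11,(nat_lit 253)),(k3,
    (nat_lit 254))],[(k10,(nat_lit 227)),(k2,(nat_lit 238)),(k6,(nat_lit 243)),(k9,(nat_lit 246)),(k5,(nat_lit 250)),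
    (k1,(nat_lit 255))],[(k2,(nat_lit 239)),(k10,(nat_lit 240)),(k6,(nat_lit 250)),(k5,(nat_lit 251)),(k9,
    (nat_lit 253)),(k1,(nat_lit 268))],[(k8,(nat_lit 227)),(k0,(nat_lit 236)),(k7,(nat_lit 236)),(k11,(nat_lit 240)),
    (k3,(nat_lit 247)),(k4,(nat_lit 301))]]
    [] k0
    [[k3,k0,k0,k0,k0,k0],[k2,k0,k1,k0,k0,k0],[k2,k0,k0,k1,k0,k0],[k2,k0,k0,k0,k1,k0],[k1,k1,k1,k0,k0,k0],[k1,k1,k0,k1,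
    k0,k0],[k1,k1,k0,k0,k1,k0],[k1,k1,k0,k0,k0,k1],[k1,k0,k2,k0,k0,k0],[k1,k0,k1,k1,k0,k0],[k1,k0,k0,k2,k0,k0],[k1,k0,
    k0,k1,k1,k0],[k1,k0,k0,k1,k0,k1],[k0,k3,k0,k0,k0,k0],[k0,k2,k1,k0,k0,k0],[k0,k1,k2,k0,k0,k0],[k0,k1,k1,k1,k0,k0],
    [k0,k1,k1,k0,k1,k0],[k0,k1,k0,k1,k0,k1],[k0,k0,k3,k0,k0,k0]]
    [.ref k6 k0 [(z1,[z1]),(z7,[y2,z6,z21]),(z14,[y1,z3,z0,z21]),(z7,[y2,z6,z0,z0,z21]),(z2,[y1,y3,y6,y3,y6,z6])],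
    .ref k6 k0 [(z9,[z14,y1,z0,y7]),(z9,[y4,z8,z27,z2]),(z9,[y1,z2,z0,z14]),(z9,[y4,z8,z0,z2,z27]),(z9,[y7,y13,y27,
    y10,y27,z27])],.ref k6 k0 [(z4,[z7,y2,z0,z0,y7]),(z2,[y1,z2,z6,z0,z1]),(z8,[y1,z2,z0,z12,z1]),(z2,[y1,z2,z0,z0,
    z7]),(z8,[y7,y10,y24,y12,y17,z24])],.ref k6 k0 [(z1,[z2,z1,z2,z1,z2,y2]),(z7,[y4,z4,z17,y2,y4,z4]),(z7,[y1,z1,y1,
    z10,y1,z1]),(z7,[y4,z4,y4,y2,z17,z4]),(z1,[y1,y2,y4,y2,y4,z4])],.ref k6 k0 [(z3,[z14,y5,y14,y7]),(z3,[y4,z4,z13,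
    z2]),(z3,[y1,z1,z1,z5]),(z3,[y4,z4,z4,z2,z9]),(z3,[y7,y2,y2,y1,y9,z9])],.ref k6 k0 [(z1,[z7,y4,y7,z0,y7]),(z1,[y2,
    z2,z5,z0,z2]),(z2,[y1,z1,z1,z3,z1]),(z1,[y2,z2,z2,z0,z5]),(z2,[y7,z1,z1,y3,z1,z6])],.ref k6 k0 [(z1,[z14,z3,z0,z7,
    z14,y14]),(z1,[y4,z0,z3,y2,y4,z4]),(z1,[y1,z0,z0,z1,y1,z1]),(z1,[y4,z0,z0,y2,y1,z4]),(z1,[y7,y3,y3,y5,y10,z10])],
    .ref k6 k0 [(z2,[z7,y1,y7]),(z1,[y1,z1,z4]),(z4,[y1,z1,z1,z6]),(z1,[y1,z1,z1,z0,z3]),(z4,[y7,y5,y5,y6,y12,z12])],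
    .ref k6 k0 [(z2,[z7,y1,z0,y7]),(z1,[y1,z1,z3,z1]),(z4,[y1,z1,z0,z7]),(z1,[y1,z1,z0,z1,z3]),(z4,[y7,y5,y12,z1,y12,
    z12])],.ref k6 k0 [(z3,[z14,y5,z0,y7,y14]),(z3,[y4,z4,z9,z2,z4]),(z3,[y1,z1,z0,z5,z1]),(z3,[y4,z4,z0,z2,z13]),(z3,
    [y7,y2,y9,y1,y2,z9])],.ref k6 k0 [(z1,[z7,y4,z0,z0,y14]),(z1,[y2,z2,z3,z0,z4]),(z2,[y1,z1,z0,z3,z2]),(z1,[y2,z2,
    z0,z0,z7]),(z2,[y7,z1,y6,y3,z8,z6])],.ref k6 k0 [(z1,[z14,z3,z14,z7,z0,y14]),(z1,[y4,z0,y1,y2,z0,z4]),(z1,[y1,z0,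
    y1,z1,z0,z1]),(z1,[y4,z0,y4,y2,z3,z4]),(z1,[y7,y3,y10,y5,y3,z10])],.ref k6 k0 [(z2,[z7,y1,z0,z0,y7]),(z1,[y1,z1,
    z3,z0,z1]),(z4,[y1,z1,z0,z6,z1]),(z1,[y1,z1,z0,z0,z4]),(z4,[y7,y5,y12,y6,y5,z12])],.ref k6 k0 [(z2,[y7,z6,z21]),
    (z1,[z1]),(z4,[z1,z0,y3,z6]),(z1,[z1,z0,y3,z0,z3]),(z4,[z7,y12,y33,y6,y12,z12])],.ref k6 k0 [(z3,[y14,z9,z28,z7]),
    (z3,[z4,z0,z1,y2]),(z3,[z1,z0,y2,z4]),(z3,[z4,z0,y8,y2,z9]),(z3,[z7,y9,y23,y8,y9,z9])],.ref k6 k0 [(z1,[y7,z3,z7,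
    z7]),(z1,[z2,z0,z1,y2]),(z2,[z1,z0,y1,z2]),(z1,[z2,z0,y2,y2,z3]),(z2,[z7,y6,y13,y10,y6,z6])],.ref k6 k0 [(z3,[y14,
    z9,z14,z7,z14]),(z3,[z4,z0,z5,y2,y4]),(z3,[z1,z0,y1,z4,y1]),(z3,[z4,z0,y4,y2,z5]),(z3,[z7,y9,y16,y8,y16,z9])],
    .ref k6 k0 [(z2,[y7,y1,z0,z0,y7,z7]),(z1,[z1,z1,z3,z0,z1,y1]),(z4,[z1,z1,z0,z6,z1,y1]),(z1,[z1,z1,z0,z0,z4,y1]),
    (z4,[z7,y5,y12,y6,y5,z5])],.ref k6 k0 [(z1,[y7,z3,z7,z0,z7]),(z1,[z2,z0,z1,z0,y2]),(z2,[z1,z0,y1,z3,y1]),(z1,[z2,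
    z0,y2,z0,z1]),(z2,[z7,y6,y13,y3,y13,z6])],.ref k6 k0 [(z1,[y14,z3,z0,z21]),(z1,[z4,z0,z3,y6]),(z1,[z1]),(z1,[z4,
    z0,z0,y6,z3]),(z1,[z7,y3,y3,y12,y3,z3])]],
    .lp [(nat_lit 304),(nat_lit 324),(nat_lit 330),(nat_lit 338),(nat_lit 300),(nat_lit 322)] [k17,k17,k7,k7,k4,k4,k0,k0,
    k19,k19,k8,k8] k0 [[k0,k0,k0,k0,k0,k0,k0,k0,k0,k0,k0,k8],[k0,k0,k0,k0,k0,k0,k0,k0,k0,k0,k0,k28],[k0,k0,k0,k0,k0,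
    k0,k0,k0,k18,k12],[k0,k0,k0,k0,k0,k4],[k0,k0,k4,k0,k0,k0,k0,k10],[k0,k0,k0,k0,k0,k0,k0,k18,k0,k0,k2],[k0,k0,k0,k0,
    k18,k10],[k0,k0,k0,k0,k0,k0,k0,k0,k12],[k0,k0,k0,k12,k0,k0,k0,k0,k0,k0,k38,k10],[k0,k0,k0,k18,k0,k0,k12],[k28,k8,
    k0,k0,k0,k0,k0,k0,k0,k10],[k0,k0,k0,k0,k2,k0,k0,k0,k0,k38]] (nat_lit 960) k5
    [[(k8,(nat_lit 264)),(k4,(nat_lit 317)),(k7,(nat_lit 319)),(k3,(nat_lit 322)),(k11,(nat_lit 323)),(k0,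
    (nat_lit 332))],[(k9,(nat_lit 302)),(k10,(nat_lit 305)),(k2,(nat_lit 314)),(k5,(nat_lit 317)),(k6,(nat_lit 321)),
    (k1,(nat_lit 332))],[(k10,(nat_lit 295)),(k9,(nat_lit 312)),(k1,(nat_lit 322)),(k2,(nat_lit 324)),(k5,
    (nat_lit 327)),(k6,(nat_lit 331))],[(k8,(nat_lit 300)),(k11,(nat_lit 305)),(k0,(nat_lit 314)),(k3,(nat_lit 324)),
    (k4,(nat_lit 327)),(k7,(nat_lit 335))],[(k0,(nat_lit 317)),(k4,(nat_lit 326)),(k3,(nat_lit 327)),(k8,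
    (nat_lit 333)),(k7,(nat_lit 334)),(k11,(nat_lit 338))],[(k1,(nat_lit 317)),(k6,(nat_lit 324)),(k5,(nat_lit 326)),
    (k2,(nat_lit 327)),(k10,(nat_lit 328)),(k9,(nat_lit 333))],[(k1,(nat_lit 319)),(k6,(nat_lit 320)),(k9,
    (nat_lit 329)),(k10,(nat_lit 330)),(k5,(nat_lit 334)),(k2,(nat_lit 335))],[(k7,(nat_lit 320)),(k0,(nat_lit 321)),
    (k4,(nat_lit 324)),(k11,(nat_lit 330)),(k3,(nat_lit 331)),(k8,(nat_lit 331))],[(k11,(nat_lit 299)),(k8,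
    (nat_lit 300)),(k0,(nat_lit 302)),(k3,(nat_lit 312)),(k7,(nat_lit 329)),(k4,(nat_lit 333))],[(k1,(nat_lit 264)),
    (k2,(nat_lit 300)),(k9,(nat_lit 300)),(k10,(nat_lit 301)),(k6,(nat_lit 331)),(k5,(nat_lit 333))],[(k9,
    (nat_lit 299)),(k2,(nat_lit 305)),(k1,(nat_lit 323)),(k6,(nat_lit 330)),(k5,(nat_lit 338)),(k10,(nat_lit 360))],
    [(k3,(nat_lit 295)),(k8,(nat_lit 301)),(k0,(nat_lit 305)),(k4,(nat_lit 328)),(k7,(nat_lit 330)),(k11,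
    (nat_lit 360))]]
    [] k0
    [[k2,k0,k0,k0,k1,k0],[k1,k1,k0,k0,k1,k0],[k1,k1,k0,k0,k0,k1],[k1,k1,k1,k0,k0,k0],[k1,k0,k1,k0,k1,k0],[k1,k0,k0,k1,
    k1,k0],[k1,k0,k0,k1,k0,k1],[k1,k0,k0,k0,k2,k0],[k1,k0,k0,k0,k1,k1],[k0,k2,k0,k0,k1,k0],[k0,k2,k0,k0,k0,k1],[k0,k1,
    k0,k0,k2,k0],[k0,k1,k0,k0,k1,k1],[k0,k0,k0,k0,k3,k0],[k0,k0,k0,k0,k2,k1]]
    [.ref k6 k0 [(z3,[z4,z5,z4,z4,z4,y4]),(z3,[z4,y4,z13,z4,z4,y4]),(z3,[y2,z2,y2,z7,y2,z2]),(z3,[y8,z8,y8,y8,z1,z8]),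
    (z3,[z1,y10,y8,y8,y8,z8])],.ref k6 k0 [(z3,[z4,z9,z0,z4,z4,y4]),(z3,[z4,z0,z9,z4,z4,y4]),(z3,[y2,z0,z0,z7,y2,z2]),
    (z3,[y8,z0,z0,y8,z1,z8]),(z3,[z1,y9,y9,y8,y8,z8])],.ref k6 k0 [(z3,[z4,z5,y4]),(z3,[z4,y4,z5]),(z3,[y2,z2,z2,z9]),
    (z3,[y8,z8,z8,z0,z9]),(z3,[z1,y10,y10,y9,y9,z9])],.ref k6 k0 [(z1,[z2,z1,y2,y2]),(z1,[z2,y2,z1,y2]),(z1,[y1,z1,z1,
    z4]),(z1,[y4,z4,z4,z4,z3]),(z2,[z1,y7,y7,y7,y6,z6])],.ref k6 k0 [(z1,[z4,z3,z4,z0,z4,y4]),(z1,[z4,z0,z7,z0,z4,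
    y4]),(z1,[y2,z0,y2,z3,y2,z2]),(z1,[y8,z0,y8,z0,y5,z8]),(z1,[z1,y3,y2,y3,y2,z2])],.ref k6 k0 [(z1,[y4,z3,y4,y4,z0,
    z4]),(z1,[y4,z0,y1,y4,z0,z4]),(z1,[z2,z0,z2,z5,z0,y2]),(z1,[z8,z0,z8,z8,z3,y8]),(z1,[y1,y3,y4,y4,y3,z4])],
    .ref k6 k0 [(z1,[y4,z7,z0,z0,z4]),(z1,[y4,z4,z3,z0,z4]),(z1,[z2,y2,z0,z3,y2]),(z1,[z8,y8,z0,z0,y5]),(z1,[y1,y2,y3,
    y3,y2,z3])],.ref k6 k0 [(z1,[z2,z5,z4,z4,z4,y4]),(z1,[z2,z2,z7,z4,z4,y4]),(z1,[y1,y1,y2,z1,y2,z2]),(z1,[y4,y4,y8,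
    y8,y5,z8]),(z2,[z1,y5,y4,y4,y4,z4])],.ref k6 k0 [(z1,[z2,z3,z2,z2,z2,y2]),(z1,[z2,z0,z5,z2,z2,y2]),(z1,[y1,z0,y1,
    z2,y1,z1]),(z1,[y4,z0,y4,y4,y1,z4]),(z2,[z1,y6,y5,y5,y5,z5])],.ref k6 k0 [(z3,[z4,z13,y4,z4,z4,y4]),(z3,[z4,z4,z5,
    z4,z4,y4]),(z3,[y2,y2,z2,z7,y2,z2]),(z3,[y8,y8,z8,y8,z1,z8]),(z3,[z1,y8,y10,y8,y8,z8])],.ref k6 k0 [(z3,[z4,z9,
    y8]),(z3,[z4,z0,z1]),(z3,[y2,z0,z4,z9]),(z3,[y8,z0,z16,z0,z9]),(z3,[z1,y9,y11,y9,y9,z9])],.ref k6 k0 [(z1,[z2,z7,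
    z2,z4,z4,y4]),(z1,[z2,z4,z5,z4,z4,y4]),(z1,[y1,y2,y1,z1,y2,z2]),(z1,[y4,y8,y4,y8,y5,z8]),(z2,[z1,y4,y5,y4,y4,
    z4])],.ref k6 k0 [(z1,[z2,z5,z0,z2,z2,y2]),(z1,[z2,z2,z3,z2,z2,y2]),(z1,[y1,y1,z0,z2,y1,z1]),(z1,[y4,y4,z0,y4,y1,
    z4]),(z2,[z1,y5,y6,y5,y5,z5])],.ref k6 k0 [(z1,[z4,z15,z12,z12,z12,y12]),(z1,[z4,z12,z15,z12,z12,y12]),(z1,[y2,y6,
    y6,y3,y6,z6]),(z1,[y8,y24,y24,y24,y21,z24]),(z1,[z1])],.ref k6 k0 [(z1,[z4,z11,z8,z8,z8,y8]),(z1,[z4,z8,z11,z8,z8,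
    y8]),(z1,[y2,y4,y4,y1,y4,z4]),(z1,[y8,y16,y16,y16,y13,z16]),(z1,[z1,y1,y1,y1,y1,z1])]],
    .lp [(nat_lit 216),(nat_lit 234),(nat_lit 238),(nat_lit 240),(nat_lit 246),(nat_lit 260)] [k26,k18,k13,k13,k11,k11,
    k10,k10,k7,k7,k0,k0] k0 [[k0,k0,k0,k0,k0,k0,k2,k14],[k0,k0,k56,k0,k0,k0,k0,k0,k0,k0,k2],[k0,k0,k0,k0,k0,k14,k0,k0,
    k8,k2],[k56,k0,k0,k0,k0,k10],[k0,k0,k10,k14],[k0,k0,k0,k0,k0,k0,k0,k0,k0,k0,k52,k50],[k0,k14],[k0,k2],[k0,k0,k0,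
    k2,k0,k0,k0,k0,k0,k0,k0,k26],[k0,k0,k0,k8,k0,k0,k0,k0,k0,k0,k0,k20],[k0,k0,k0,k0,k50,k0,k0,k0,k20,k26],[k2,k0,k0,
    k0,k52]] (nat_lit 720) k5
    [[(k7,k180),(k0,(nat_lit 216)),(k3,(nat_lit 227)),(k8,(nat_lit 255)),(k11,(nat_lit 268)),(k4,(nat_lit 281))],[(k6,
    (nat_lit 210)),(k1,(nat_lit 216)),(k5,(nat_lit 223)),(k9,(nat_lit 225)),(k10,(nat_lit 236)),(k2,(nat_lit 277))],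
    [(k5,k180),(k1,(nat_lit 227)),(k2,(nat_lit 234)),(k6,(nat_lit 239)),(k10,(nat_lit 247)),(k9,(nat_lit 254))],[(k4,
    (nat_lit 222)),(k3,(nat_lit 234)),(k8,(nat_lit 238)),(k11,(nat_lit 239)),(k7,(nat_lit 247)),(k0,(nat_lit 277))],
    [(k3,k180),(k0,(nat_lit 223)),(k4,(nat_lit 228)),(k8,(nat_lit 250)),(k11,(nat_lit 251)),(k7,(nat_lit 253))],[(k2,
    (nat_lit 222)),(k5,(nat_lit 228)),(k6,(nat_lit 239)),(k9,(nat_lit 242)),(k1,(nat_lit 281)),(k10,(nat_lit 301))],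
    [(k1,k180),(k10,(nat_lit 200)),(k6,(nat_lit 240)),(k9,(nat_lit 243)),(k2,(nat_lit 247)),(k5,(nat_lit 253))],[(k0,
    (nat_lit 210)),(k3,(nat_lit 239)),(k4,(nat_lit 239)),(k7,(nat_lit 240)),(k8,(nat_lit 243)),(k11,(nat_lit 250))],
    [(k0,(nat_lit 225)),(k4,(nat_lit 242)),(k7,(nat_lit 243)),(k8,(nat_lit 246)),(k11,(nat_lit 253)),(k3,
    (nat_lit 254))],[(k10,(nat_lit 227)),(k2,(nat_lit 238)),(k6,(nat_lit 243)),(k9,(nat_lit 246)),(k5,(nat_lit 250)),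
    (k1,(nat_lit 255))],[(k2,(nat_lit 239)),(k10,(nat_lit 240)),(k6,(nat_lit 250)),(k5,(nat_lit 251)),(k9,
    (nat_lit 253)),(k1,(nat_lit 268))],[(k7,(nat_lit 200)),(k8,(nat_lit 227)),(k0,(nat_lit 236)),(k11,(nat_lit 240)),
    (k3,(nat_lit 247)),(k4,(nat_lit 301))]]
    [] k0
    [[k3,k0,k0,k0,k0,k0],[k2,k0,k0,k1,k0,k0],[k2,k0,k0,k0,k1,k0],[k1,k1,k1,k0,k0,k0],[k1,k1,k0,k1,k0,k0],[k1,k1,k0,k0,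
    k1,k0],[k1,k1,k0,k0,k0,k1],[k1,k0,k1,k1,k0,k0],[k1,k0,k0,k2,k0,k0],[k1,k0,k0,k1,k1,k0],[k1,k0,k0,k1,k0,k1],[k0,k3,
    k0,k0,k0,k0],[k0,k2,k1,k0,k0,k0],[k0,k1,k2,k0,k0,k0],[k0,k1,k1,k1,k0,k0],[k0,k1,k1,k0,k1,k0],[k0,k1,k0,k1,k0,k1],
    [k0,k0,k3,k0,k0,k0],[k0,k0,k1,k1,k0,k1],[k0,k0,k0,k2,k0,k1],[k0,k0,k0,k1,k1,k1],[k0,k0,k0,k1,k0,k2]]
    [.ref k6 k0 [(z1,[z1]),(z4,[z3,y9,z4]),(z2,[y1,z3,z0,z6]),(z2,[y3,z9,z0,z0,z2]),(z1,[z0,y3,y1,y3,y1,z3])],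
    .ref k6 k0 [(z1,[z6,y9,z0,z0,y2]),(z2,[z9,y18,z2,z0,y3]),(z1,[y3,z6,z0,z3,z1]),(z1,[y9,z18,z0,z0,z4]),(z1,[z0,y3,
    y1,y3,y1,z3])],.ref k6 k0 [(z2,[z3,z3,z1,z3,z1,y3]),(z8,[z9,y9,z11,z9,z3,y9]),(z4,[y3,z3,y1,z9,y1,z3]),(z4,[y9,z9,
    y3,y9,z1,z9]),(z1,[z0,y3,y1,y3,y1,z3])],.ref k6 k0 [(z5,[z12,z3,y4,y12]),(z5,[z9,y9,z2,y9]),(z5,[y6,z6,z2,z21]),
    (z5,[y18,z18,z6,z18,z5]),(z1,[z0,y3,y1,y3,y1,z3])],.ref k6 k0 [(z1,[z12,y9,y4,z0,y4]),(z1,[z9,y9,y2,z0,y3]),(z1,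
    [y6,z6,z2,z3,z2]),(z1,[y18,z18,z6,z0,z7]),(z1,[z0,y3,y1,y3,y1,z3])],.ref k6 k0 [(z7,[z12,z21,z0,z12,z4,y12]),(z7,
    [z9,z0,z7,z9,z3,y9]),(z7,[y6,z0,z0,z15,y2,z6]),(z7,[y18,z0,z0,y18,z1,z18]),(z1,[z0,y3,y1,y3,y1,z3])],
    .ref k6 k0 [(z2,[z3,z3,y1]),(z8,[z9,y9,z5]),(z4,[y3,z3,z1,z12]),(z4,[y9,z9,z3,z0,z4]),(z1,[z0,y3,y1,y3,y1,z3])],
    .ref k6 k0 [(z1,[y3,z6,z0,z3,z1]),(z4,[y9,z9,z4,z9,z3]),(z2,[z3,y3,z0,z3,y1]),(z2,[z9,y9,z0,y9,y1]),(z1,[z0,y3,y1,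
    y3,y1,z3])],.ref k6 k0 [(z2,[y3,z9,z0,z0,z2]),(z8,[y9,z9,z8,z0,z6]),(z4,[z3,y3,z0,z12,y2]),(z4,[z9,y9,z0,z0,y2]),
    (z1,[z0,y3,y1,y3,y1,z3])],.ref k6 k0 [(z1,[y6,z3,y2,y6,z0,z6]),(z2,[y9,z0,y1,y9,z0,z9]),(z1,[z3,z0,z1,z6,z0,y3]),
    (z1,[z9,z0,z3,z9,z1,y9]),(z1,[z0,y3,y1,y3,y1,z3])],.ref k6 k0 [(z1,[y12,z15,z0,z0,z4]),(z1,[y9,z9,z1,z0,z3]),(z1,
    [z6,y6,z0,z3,y2]),(z1,[z18,y18,z0,z0,y5]),(z1,[z0,y3,y1,y3,y1,z3])],.ref k6 k0 [(z3,[z4,z9,y4]),(z1,[z1]),(z3,[y2,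
    z0,z2,z9]),(z1,[y2,z0,z2,z0,z1]),(z1,[z0,y3,y1,y3,y1,z3])],.ref k6 k0 [(z1,[z3,z3,y2,y3]),(z4,[z9,z0,y2,y9]),(z2,
    [y3,z0,z2,z9]),(z2,[y9,z0,z6,z9,z2]),(z1,[z0,y3,y1,y3,y1,z3])],.ref k6 k0 [(z1,[y12,z3,z4,z24]),(z1,[y9,z0,z4,
    z18]),(z1,[z6,z0,y2,y9]),(z1,[z18,z0,y6,y36,z1]),(z1,[z0,y3,y1,y3,y1,z3])],.ref k6 k0 [(z5,[y12,z15,z4,z12,z4]),
    (z5,[y9,z0,z8,z9,z3]),(z5,[z6,z0,y2,z9,y2]),(z5,[z18,z0,y6,y18,y1]),(z1,[z0,y3,y1,y3,y1,z3])],.ref k6 k0 [(z1,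
    [z12,z15,z0,z0,z4,y12]),(z1,[z9,z9,z1,z0,z3,y9]),(z1,[y6,y6,z0,z3,y2,z6]),(z1,[y18,y18,z0,z0,y5,z18]),(z1,[z0,y3,
    y1,y3,y1,z3])],.ref k6 k0 [(z1,[y6,z3,z2,z0,z2]),(z2,[y9,z0,z5,z0,z3]),(z1,[z3,z0,y1,z3,y1]),(z1,[z9,z0,y3,z0,
    y2]),(z1,[z0,y3,y1,y3,y1,z3])],.ref k6 k0 [(z1,[y2,z3,z0,z6]),(z2,[y3,z0,z2,z9]),(z1,[z1]),(z1,[z3,z0,z0,y9,z1]),
    (z1,[z0,y3,y1,y3,y1,z3])],.ref k6 k0 [(z7,[y12,z21,z0,z12,z4]),(z7,[y9,z0,z7,z9,z3]),(z7,[z6,z0,z0,z15,y2]),(z7,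
    [z18,z0,z0,y18,z1]),(z1,[z0,y3,y1,y3,y1,z3])],.ref k6 k0 [(z11,[y12,z33,z0,z0,z8]),(z11,[y9,z0,z11,z0,z6]),(z11,
    [z6,z0,z0,z33,y4]),(z11,[z18,z0,z0,z0,y1]),(z1,[z0,y3,y1,y3,y1,z3])],.ref k6 k0 [(z5,[y12,z3,y4,y12,z0,z12]),(z5,
    [y9,y9,z2,y9,z0,z9]),(z5,[z6,z6,z2,z21,z0,y6]),(z5,[z18,z18,z6,z18,z5,y18]),(z1,[z0,y3,y1,y3,y1,z3])],
    .ref k6 k0 [(z1,[y3,z3,z0,z0,z1]),(z4,[y9,z0,z4,z0,z3]),(z2,[z3,z0,z0,z6,y1]),(z2,[z9,z0,z0,z0,y1]),(z1,[z0,y3,y1,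
    y3,y1,z3])]],
    .lp [(nat_lit 314),(nat_lit 314),(nat_lit 342),(nat_lit 298),(nat_lit 320),(nat_lit 330)] [k14,k14,k14,k14,k0,k0,k22,
    k22,k11,k11,k6,k6] k0 [[k0,k0,k20,k0,k0,k0,k0,k22],[k0,k0,k0,k0,k0,k0,k0,k28,k0,k0,k0,k18],[k0,k0,k0,k0,k22,k0,k0,
    k0,k0,k16],[k0,k20,k0,k0,k10],[k0,k0,k0,k0,k0,k0,k0,k34,k0,k0,k8],[k0,k0,k10,k22],[k28,k22,k0,k0,k0,k34],[k0,k0,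
    k0,k0,k0,k0,k0,k0,k10],[k0,k0,k0,k16],[k0,k0,k0,k0,k0,k0,k10,k0,k0,k0,k0,k6],[k18,k0,k0,k0,k0,k0,k0,k0,k6],[k0,k0,
    k0,k0,k0,k8]] (nat_lit 960) k5
    [[(k7,(nat_lit 306)),(k3,(nat_lit 314)),(k4,(nat_lit 320)),(k11,(nat_lit 322)),(k8,(nat_lit 323)),(k0,
    (nat_lit 332))],[(k6,(nat_lit 284)),(k5,(nat_lit 308)),(k2,(nat_lit 314)),(k10,(nat_lit 322)),(k1,(nat_lit 332)),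
    (k9,(nat_lit 345))],[(k6,(nat_lit 278)),(k10,(nat_lit 304)),(k1,(nat_lit 314)),(k5,(nat_lit 328)),(k2,
    (nat_lit 334)),(k9,(nat_lit 339))],[(k7,(nat_lit 284)),(k8,(nat_lit 301)),(k0,(nat_lit 314)),(k11,(nat_lit 322)),
    (k3,(nat_lit 334)),(k4,(nat_lit 338))],[(k0,(nat_lit 308)),(k7,(nat_lit 310)),(k3,(nat_lit 328)),(k8,
    (nat_lit 331)),(k11,(nat_lit 352)),(k4,(nat_lit 364))],[(k6,(nat_lit 286)),(k1,(nat_lit 320)),(k9,(nat_lit 331)),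
    (k10,(nat_lit 336)),(k2,(nat_lit 338)),(k5,(nat_lit 364))],[(k2,(nat_lit 284)),(k6,(nat_lit 298)),(k1,
    (nat_lit 306)),(k5,(nat_lit 310)),(k10,(nat_lit 322)),(k9,(nat_lit 343))],[(k3,(nat_lit 278)),(k0,(nat_lit 284)),
    (k4,(nat_lit 286)),(k7,(nat_lit 298)),(k11,(nat_lit 314)),(k8,(nat_lit 319))],[(k11,(nat_lit 315)),(k8,
    (nat_lit 320)),(k4,(nat_lit 331)),(k3,(nat_lit 339)),(k7,(nat_lit 343)),(k0,(nat_lit 345))],[(k2,(nat_lit 301)),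
    (k6,(nat_lit 319)),(k9,(nat_lit 320)),(k1,(nat_lit 323)),(k10,(nat_lit 325)),(k5,(nat_lit 331))],[(k6,
    (nat_lit 314)),(k9,(nat_lit 315)),(k1,(nat_lit 322)),(k2,(nat_lit 322)),(k10,(nat_lit 324)),(k5,(nat_lit 352))],
    [(k3,(nat_lit 304)),(k0,(nat_lit 322)),(k7,(nat_lit 322)),(k11,(nat_lit 324)),(k8,(nat_lit 325)),(k4,
    (nat_lit 336))]]
    [] k0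
    [[k2,k0,k0,k1,k0,k0],[k1,k1,k0,k1,k0,k0],[k1,k1,k0,k0,k0,k1],[k1,k0,k1,k1,k0,k0],[k1,k0,k0,k2,k0,k0],[k1,k0,k0,k1,
    k0,k1],[k1,k0,k0,k1,k1,k0],[k0,k2,k0,k1,k0,k0],[k0,k1,k1,k1,k0,k0],[k0,k1,k0,k2,k0,k0],[k0,k1,k0,k1,k1,k0],[k0,k1,
    k0,k1,k0,k1],[k0,k1,k0,k0,k1,k1],[k0,k1,k0,k0,k0,k2],[k0,k0,k1,k2,k0,k0],[k0,k0,k0,k3,k0,k0],[k0,k0,k0,k2,k0,k1],
    [k0,k0,k0,k1,k1,k1]]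
    [.ref k36 k7 [(z1,[z0,z1,z2,z2,y4]),(z6,[z2,z2,z3,z3,y6]),(z2,[z0,y1,y1,y2,z4]),(z6,[y4,y1,y6,y3,z12])],
    .ref k85 k4 [(z2,[y12,z3,z6,z1]),(z2,[y4,z1,z3]),(z2,[z6,y1,y3]),(z1,[z4,y1,y2])],.ref k199 k7 [(z1,[z0,z1,z2,z2,
    y4]),(z2,[z2,y1,y3,y2,z4]),(z2,[z0,y1,y1,y2,z4]),(z2,[y4,z3,z6,z5,y8])],.ref k166 k0 [(z2,[y2,z1,z0,z1]),(z2,[z4,
    y1,z3,y2]),(z2,[z4,y1,z0,y1]),(z2,[y2,y1,y3,y2,z6])],.ref k96 k7 [(z1,[z0,z1,z2,z2,y4]),(z1,[z1,z2,z3,z3,y6]),(z2,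
    [z0,y1,y1,y2,z4]),(z2,[y4,y5,y12,y9,z24])],.ref k66 k7 [(z1,[z0,z1,z2,z2,y4]),(z2,[z2,z0,y1,y1,z2]),(z2,[z0,y1,y1,
    y2,z4]),(z2,[y2,z1,z1,z2,y2])],.ref k36 k7 [(z1,[z0,z1,z2,z2,y4]),(z4,[z2,z2,z3,z3,y6]),(z2,[z0,y1,y1,y2,z4]),(z2,
    [y2,y1,y3,y2,z6])],.ref (nat_lit 200) k1 [(z2,[y4,z0,y3,z1]),(z1,[z1]),(z2,[z0,y1,y1,y2,z4]),(z1,[z0,z0,z1])],
    .ref k60 k7 [(z1,[z0,z1,z2,z2,y4]),(z1,[y1,y1,y2,y2,z5]),(z2,[z0,y1,y1,y2,z4]),(z2,[z4,z5,z8,z9,y20])],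
    .ref (nat_lit 201) k7 [(z1,[z0,z1,z2,z2,y4]),(z4,[z2,z5,z7,z8,y16]),(z2,[z0,y1,y1,y2,z4]),(z2,[y2,y4,y7,y7,z16])],
    .ref (nat_lit 201) k7 [(z1,[z0,z1,z2,z2,y4]),(z2,[z2,z3,z4,z5,y10]),(z2,[z0,y1,y1,y2,z4]),(z2,[y4,y5,y8,y9,z20])],
    .ref k36 k7 [(z1,[z0,z1,z2,z2,y4]),(z2,[z2,z1,z0,z1,y2]),(z2,[z0,y1,y1,y2,z4]),(z2,[y4,y1,z0,y1,z4])],
    .ref k166 k0 [(z2,[z2,z1,z0,z1,y2]),(z2,[y4,y1,z3,y2,z4]),(z2,[y4,y1,z0,y1,z4]),(z2,[z2,y1,y3,y2,z4])],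
    .ref k166 k0 [(z4,[z2,z1,y1]),(z1,[y1,z0,z2]),(z2,[y2,z0,z1,z1]),(z4,[z2,y3,y7,y6,z12])],.ref k166 k0 [(z4,[y2,z1,
    z0,z1]),(z2,[z2,z0,z3,y1]),(z1,[z1]),(z4,[y2,y3,y6,y5,z12])],.ref (nat_lit 202) k7 [(z1,[z0,z1,z2,z2,y4]),(z2,[z2,
    z6,z9,z9,y18]),(z2,[z0,y1,y1,y2,z4]),(z2,[y4,y9,y18,y15,z36])],.ref k36 k7 [(z1,[z0,z1,z2,z2,y4]),(z2,[z1,z1,z1,
    z1,y2]),(z2,[z0,y1,y1,y2,z4]),(z2,[y2,y1,y2,y1,z4])],.ref k199 k7 [(z1,[z0,z1,z2,z2,y4]),(z2,[z2,z0,y1,y1,z2]),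
    (z2,[z0,y1,y1,y2,z4]),(z2,[y4,z1,z2,z3,y4])]],
    .lp [k86,k70,k78,k80,k80,k84] [k0,k0,k1,k15,k4,k4,k3,k3,k3,k3,k1,k1] k0 [[k0,k0,k14,k0,k0,k0,k10],[],[k0,k0,k0,k0,k0,
    k14,k0,k0,k0,k22],[k0,k14,k0,k0,k0,k10,k0,k0,k0,k2],[k0,k0,k10,k14],[k0,k0,k0,k0,k0,k0,k0,k0,k0,k0,k6,k4],[k0,k0,
    k0,k0,k0,k0,k0,k0,k4],[k0,k10],[k0,k0,k2,k22],[k0,k0,k0,k0,k0,k0,k0,k4],[k0,k0,k0,k0,k4],[k0,k0,k0,k0,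
    k6]] (nat_lit 240) k5
    [[(k3,k71),(k7,k77),(k8,k83),(k11,k85),(k0,k86),(k4,k86)],[(k5,k68),(k9,k73),(k6,k83),(k2,k85),(k10,k85),(k1,
    k86)],[(k5,k67),(k9,k68),(k10,k70),(k1,k71),(k6,k78),(k2,k84)],[(k8,k60),(k4,k67),(k3,k84),(k0,k85),(k11,k86),(k7,
    k92)],[(k3,k67),(k0,k68),(k4,k68),(k8,k77),(k7,k93),(k11,k103)],[(k2,k67),(k5,k68),(k6,k79),(k9,k79),(k1,k86),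
    (k10,k87)],[(k1,k77),(k10,k78),(k6,k80),(k9,k80),(k2,k92),(k5,k93)],[(k3,k78),(k11,k78),(k4,k79),(k7,k80),(k8,
    k80),(k0,k83)],[(k3,k68),(k0,k73),(k4,k79),(k7,k80),(k11,k82),(k8,k84)],[(k2,k60),(k5,k77),(k6,k80),(k10,k82),(k1,
    k83),(k9,k84)],[(k6,k78),(k9,k82),(k10,k84),(k1,k85),(k2,k86),(k5,k103)],[(k3,k70),(k7,k78),(k8,k82),(k11,k84),
    (k0,k85),(k4,k87)]]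
    [] k0
    [[k1,k1,k1,k0,k0,k0],[k1,k1,k0,k0,k1,k0],[k1,k0,k2,k0,k0,k0],[k1,k0,k1,k0,k1,k0],[k1,k0,k1,k1,k0,k0],[k1,k0,k0,k1,
    k1,k0],[k0,k2,k1,k0,k0,k0],[k0,k2,k0,k0,k1,k0],[k0,k1,k2,k0,k0,k0],[k0,k1,k1,k1,k0,k0],[k0,k1,k1,k0,k1,k0],[k0,k1,
    k0,k1,k1,k0],[k0,k1,k0,k0,k2,k0],[k0,k1,k0,k0,k1,k1],[k0,k0,k3,k0,k0,k0],[k0,k0,k2,k0,k1,k0],[k0,k0,k1,k1,k1,k0],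
    [k0,k0,k0,k2,k0,k1]]
    [.ref k6 k0 [(z3,[z6,z1,y6,y2]),(z3,[y6,z2,z15,z2]),(z1,[z3,y1,y3]),(z1,[z0,z0,z0,z0,z1]),(z3,[y12,z1,z3,z1,y3,
    z9])],.ref k6 k0 [(z2,[y3,z2,z0,y1,y1,z3]),(z2,[z3,z0,z6,z1,z1,y3]),(z4,[y9,z0,z0,z1,y3,z9]),(z1,[z0,z0,z0,z0,
    z1]),(z1,[z3,y1,y3])],.ref k6 k0 [(z4,[z3,z3,z0,y2]),(z4,[y3,z1,z12,z2]),(z8,[z9,y3,z0,z2]),(z1,[z0,z0,z0,z0,z1]),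
    (z2,[y3,y1,y6,z0,y2,z6])],.ref k6 k0 [(z1,[z6,z1,z6,z0,z2,y6]),(z1,[y6,z0,y3,z0,y2,z6]),(z1,[z9,z0,z9,z1,z3,y9]),
    (z1,[z0,z0,z0,z0,z1]),(z1,[y12,y1,y15,y1,y5,z15])],.ref k6 k0 [(z5,[z6,z3,z0,y2,y2]),(z5,[y6,z2,z15,z2,z2]),(z5,
    [z9,y3,z0,z2,y3]),(z1,[z0,z0,z0,z0,z1]),(z5,[y12,y1,y15,y1,y1,z15])],.ref k6 k0 [(z1,[y3,z1,y3,y1,z0,z3]),(z1,[z3,
    z0,z6,z1,z0,y3]),(z2,[y9,z0,y9,y1,z0,z9]),(z1,[z0,z0,z0,z0,z1]),(z1,[z6,y1,z3,z1,y1,y3])],.ref k6 k0 [(z1,[y6,z1,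
    z12,z2]),(z1,[z6,z0,y9,y2]),(z1,[y9,z0,z18,z4]),(z1,[z0,z0,z0,z0,z1]),(z1,[z12,y1,y27,y5,y1,z3])],.ref k6 k0 [(z4,
    [y3,z3,z3,y1,y1,z3]),(z4,[z3,z1,z9,z1,z1,y3]),(z8,[y9,y3,z9,z5,y3,z9]),(z1,[z0,z0,z0,z0,z1]),(z2,[z3,y1,y9,y1,y1,
    z3])],.ref k6 k0 [(z2,[z3,z2,y3,y2]),(z2,[y3,z0,z9,z2]),(z4,[z9,z0,y9,y2]),(z1,[z0,z0,z0,z0,z1]),(z1,[y3,y1,z0,z1,
    y1,z3])],.ref k6 k0 [(z1,[z6,z1,y6,y2,y2]),(z1,[y6,z0,z9,z2,z2]),(z1,[z9,z0,y9,y2,y3]),(z1,[z0,z0,z0,z0,z1]),(z1,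
    [y12,y1,z9,z3,z3,z3])],.ref k6 k0 [(z3,[y6,z1,z0,z0,y2,z6]),(z3,[z6,z2,z9,z0,z2,y6]),(z1,[y3,y1,z0,z1,y1,z3]),(z1,
    [z0,z0,z0,z0,z1]),(z3,[z12,z1,y9,y3,z1,y3])],.ref k6 k0 [(z3,[y3,z2,z0,y1,z0,z3]),(z3,[z3,z1,z9,z1,z0,y3]),(z2,
    [y3,y1,z0,z1,z0,z3]),(z1,[z0,z0,z0,z0,z1]),(z3,[z6,y1,y9,y1,y3,z3])],.ref k6 k0 [(z5,[y3,z3,y3,y2,y2,z6]),(z5,[z3,
    z2,z18,z2,z2,y6]),(z10,[y9,y6,y9,z4,y6,z18]),(z1,[z0,z0,z0,z0,z1]),(z5,[z6,y1,y9,y1,y1,z3])],.ref k6 k0 [(z5,[y6,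
    z3,z0,y2,y2,z6]),(z5,[z6,z2,z15,z2,z2,y6]),(z5,[y9,y3,z0,z2,y3,z9]),(z1,[z0,z0,z0,z0,z1]),(z5,[z12,y1,y15,y1,y1,
    z3])],.ref k6 k0 [(z3,[z2,z3,z0,y2]),(z3,[y2,z0,z9,z2]),(z1,[z1]),(z1,[z0,z0,z0,z0,z1]),(z3,[y4,y3,y9,z1,y3,z9])],
    .ref k6 k0 [(z1,[z3,z2,z3,y1,z1,y3]),(z1,[y3,y1,z0,z1,y1,z3]),(z2,[z9,z3,z9,y1,z3,y9]),(z1,[z0,z0,z0,z0,z1]),(z1,
    [y6,y3,y9,z1,y3,z9])],.ref k6 k0 [(z1,[y6,y1,y6,z0,z0,z6]),(z1,[z6,z2,z9,z0,z0,y6]),(z1,[y9,y3,y9,z1,z0,z9]),(z1,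
    [z0,z0,z0,z0,z1]),(z1,[z12,z3,z9,y1,y1,y9])],.ref k6 k0 [(z1,[z6,z1,z0,z0,y4]),(z1,[y6,z0,z3,z0,z4]),(z1,[z9,z0,
    z0,z1,y6]),(z1,[z0,z0,z0,z0,z1]),(z1,[y12,y1,y3,y1,z7,z3])]],
    .lp [k168,k150,k184,k128,k168,k160] [k8,k8,k17,k17,k0,k0,k28,k28,k8,k8,k12,k12] k0 [[k0,k0,k0,k0,k0,k0,k0,k24,k0,k0,
    k20],[k0,k0,k14,k0,k0,k0,k0,k6],[k0,k0,k0,k0,k0,k42,k0,k0,k0,k12],[k14,k0,k0,k0,k0,k58],[k0,k0,k58,k42,k0,k0,k40],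
    [k0,k0,k0,k0,k0,k0,k0,k0,k0,k0,k0,k2],[k6,k24,k0,k0,k0,k0,k0,k0,k4],[k0,k0,k0,k0,k0,k40,k0,k0,k16],[k0,k0,k0,k12,
    k0,k0,k0,k0,k0,k0,k0,k4],[k0,k0,k0,k0,k0,k0,k16,k4],[k0,k0,k0,k0,k2,k0,k0,k0,k0,k4],[k0,k20]] (nat_lit 480) k5
    [[(k0,k148),(k7,k148),(k3,k159),(k8,k168),(k11,k168),(k4,k178)],[(k6,k124),(k1,k148),(k10,k164),(k2,k173),(k9,
    k174),(k5,k176)],[(k6,k133),(k2,k150),(k5,k153),(k1,k159),(k10,k175),(k9,k183)],[(k4,k125),(k8,k147),(k3,k150),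
    (k11,k155),(k0,k173),(k7,k197)],[(k4,k126),(k3,k153),(k0,k176),(k8,k176),(k11,k184),(k7,k198)],[(k2,k125),(k5,
    k126),(k9,k136),(k6,k156),(k10,k172),(k1,k178)],[(k10,k142),(k1,k148),(k9,k148),(k6,k168),(k2,k197),(k5,k198)],
    [(k0,k124),(k3,k133),(k11,k140),(k4,k156),(k8,k164),(k7,k168)],[(k4,k136),(k7,k148),(k11,k148),(k8,k172),(k0,
    k174),(k3,k183)],[(k2,k147),(k10,k160),(k6,k164),(k1,k168),(k9,k172),(k5,k176)],[(k6,k140),(k9,k148),(k2,k155),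
    (k10,k160),(k1,k168),(k5,k184)],[(k7,k142),(k8,k160),(k11,k160),(k0,k164),(k4,k172),(k3,k175)]]
    [] k0
    [[k3,k0,k0,k0,k0,k0],[k2,k0,k0,k1,k0,k0],[k1,k1,k1,k0,k0,k0],[k1,k1,k0,k0,k0,k1],[k1,k1,k0,k1,k0,k0],[k1,k0,k0,k2,
    k0,k0],[k1,k0,k0,k1,k0,k1],[k1,k0,k0,k1,k1,k0],[k0,k3,k0,k0,k0,k0],[k0,k2,k1,k0,k0,k0],[k0,k1,k2,k0,k0,k0],[k0,k1,
    k1,k0,k1,k0],[k0,k1,k1,k1,k0,k0],[k0,k1,k0,k1,k1,k0],[k0,k1,k0,k1,k0,k1],[k0,k1,k0,k0,k1,k1],[k0,k0,k3,k0,k0,k0],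
    [k0,k0,k2,k0,k1,k0],[k0,k0,k0,k2,k0,k1],[k0,k0,k0,k1,k1,k1],[k0,k0,k0,k1,k0,k2],[k0,k0,k0,k0,k1,k2]]
    [.ref k6 k0 [(z1,[z1]),(z5,[y1,z3,z15]),(z2,[y1,z3,z0,z6]),(z5,[z2,y6,z0,z0,z15]),(z5,[y4,y3,y15,y15,y15,z15])],
    .ref k6 k0 [(z4,[z5,z2,z0,z0,y5]),(z4,[y1,z2,z12,z0,z1]),(z8,[y5,z10,z0,z24,z5]),(z2,[z1,y2,z0,z0,z5]),(z1,[y1,y1,
    y3,y3,y2,z3])],.ref k6 k0 [(z1,[z10,y7,y10,y10]),(z1,[y2,z2,z5,z2]),(z1,[y5,z5,z5,z8]),(z1,[z4,y4,y4,y4,z3]),(z1,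
    [y8,z5,z5,z5,y3,z3])],.ref k6 k0 [(z3,[z10,y1,y10]),(z3,[y2,z2,z11]),(z3,[y5,z5,z5,z9]),(z3,[z4,y4,y4,z0,z9]),(z3,
    [y8,y1,y1,y9,y9,z9])],.ref k6 k0 [(z2,[z5,z1,y5,z0,y5]),(z2,[y1,z1,z7,z0,z1]),(z4,[y5,z5,z5,z12,z5]),(z1,[z1,y1,
    y1,z0,z2]),(z1,[y2,y1,y1,y3,y1,z3])],.ref k6 k0 [(z3,[z5,z4,z0,z0,y10]),(z3,[y1,z1,z9,z0,z2]),(z6,[y5,z5,z0,z18,
    z10]),(z3,[z2,y2,z0,z0,z5]),(z3,[y4,y5,y9,y9,y1,z9])],.ref k6 k0 [(z1,[z2,z1,z0,z0,y2]),(z5,[y2,z2,z15,z0,z2]),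
    (z1,[y1,z1,z0,z3,z1]),(z5,[z4,y4,z0,z0,z11]),(z5,[y8,y7,y15,y15,y7,z15])],.ref k6 k0 [(z1,[z5,z3,z5,z5,z0,y5]),
    (z1,[y1,z0,z2,y1,z0,z1]),(z2,[y5,z0,y5,z1,z0,z5]),(z1,[z2,z0,z2,z2,z3,y2]),(z1,[y4,y3,y7,y7,y3,z7])],
    .ref k6 k0 [(z1,[y5,z3,z15]),(z1,[z1]),(z2,[z5,z0,y15,z6]),(z1,[y2,z0,z6,z0,z3]),(z1,[z4,y3,y15,y3,y3,z3])],
    .ref k6 k0 [(z3,[y10,z9,z20,z10]),(z3,[z2,z0,z5,y2]),(z3,[z5,z0,y10,z4]),(z3,[y4,z0,z8,z4,z9]),(z3,[z8,y9,y25,y17,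
    y9,z9])],.ref k6 k0 [(z2,[y5,z6,z5,z10]),(z2,[z1,z0,z5,y2]),(z4,[z5,z0,y5,z2]),(z1,[y1,z0,z1,z2,z3]),(z1,[z2,y3,
    y5,y7,y3,z3])],.ref k6 k0 [(z1,[y2,z1,z0,z0,y2,z2]),(z5,[z2,z2,z15,z0,z2,y2]),(z1,[z1,z1,z0,z3,z1,y1]),(z5,[y4,y4,
    z0,z0,z11,z4]),(z5,[z8,y7,y15,y15,y7,z7])],.ref k6 k0 [(z1,[y10,z3,z10,z10,z10]),(z1,[z2,z0,z1,y2,y2]),(z1,[z5,z0,
    y5,y2,y5]),(z1,[y4,z0,z4,z4,z7]),(z1,[z8,y3,y11,y11,y11,z3])],.ref k6 k0 [(z1,[y5,y2,z0,y5,z0,z5]),(z1,[z1,z1,z3,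
    z1,z0,y1]),(z2,[z5,z5,z0,z11,z0,y5]),(z1,[y2,y2,z0,y2,z3,z2]),(z1,[z4,z1,y3,z1,y3,y1])],.ref k6 k0 [(z1,[z10,z3,
    y10,z0,y10]),(z1,[y2,z0,z5,z0,z2]),(z1,[y5,z0,z5,z3,z5]),(z1,[z4,z0,y4,z0,y1]),(z1,[y8,y3,z5,y3,z5,z3])],
    .ref k6 k0 [(z3,[y10,y1,z0,y10,y10,z10]),(z3,[z2,z2,z9,z2,z2,y2]),(z3,[z5,z5,z0,z14,z5,y5]),(z3,[y4,y4,z0,y4,z5,
    z4]),(z3,[z8,y1,y9,y1,y1,z1])],.ref k6 k0 [(z1,[y2,z3,z0,z6]),(z5,[z2,z0,z15,y6]),(z1,[z1]),(z5,[y4,z0,z0,z12,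
    z15]),(z5,[z8,y15,y15,y39,y15,z15])],.ref k6 k0 [(z3,[y5,z4,y5,z5,y5,z5]),(z3,[z1,z1,z10,y1,z1,y1]),(z6,[z5,z5,z5,
    z13,z5,y5]),(z3,[y2,y2,y2,z2,z7,z2]),(z3,[z4,y5,y5,y13,y5,z5])],.ref k6 k0 [(z3,[z10,z9,z0,z0,y20]),(z3,[y2,z0,z9,
    z0,z4]),(z3,[y5,z0,z0,z9,z10]),(z3,[z4,z0,z0,z0,z1]),(z3,[y8,y9,y9,y9,z7,z9])],.ref k6 k0 [(z1,[y10,y7,y10,y10,z0,
    z10]),(z1,[z2,z2,z5,z2,z0,y2]),(z1,[z5,z5,z5,z8,z0,y5]),(z1,[y4,y4,y4,y4,z3,z4]),(z1,[z8,z5,z5,z5,y3,y5])],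
    .ref k6 k0 [(z1,[z5,z3,z0,z0,y5]),(z1,[y1,z0,z3,z0,z1]),(z2,[y5,z0,z0,z6,z5]),(z1,[z2,z0,z0,z0,z1]),(z1,[y4,y3,y3,
    y3,z1,z3])],.ref k6 k0 [(z1,[y5,y2,y5,y5,y5,z5]),(z1,[z1,z1,z4,z1,z1,y1]),(z2,[z5,z5,z5,z11,z5,y5]),(z1,[y2,y2,y2,
    y2,z1,z2]),(z1,[z4,z1,z1,z1,z1,y1])]]]

noncomputable def cT6_2_n4_2 : List TN :=
  [.lp [(nat_lit 318),(nat_lit 296),(nat_lit 324),(nat_lit 326),(nat_lit 334),(nat_lit 320)] [k8,k8,k19,k19,k5,k5,k4,k4,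
    k0,k0,k7,k7] k0 [[k0,k0,k0,k38,k0,k0,k0,k4,k0,k0,k10],[k0,k0,k0,k4,k0,k0,k0,k0,k0,k0,k14],[k4,k38],[k0,k0,k0,k0,
    k10,k0,k0,k0,k0,k6],[k0,k0,k0,k0,k0,k0,k12,k4],[k0,k0,k10,k0,k0,k0,k0,k0,k0,k0,k0,k6],[k0,k4,k0,k0,k0,k4],[k0,k0,
    k0,k0,k0,k12],[k0,k0,k6],[],[k0,k0,k0,k0,k6],[k14,k10]] (nat_lit 960) k5
    [[(k3,(nat_lit 293)),(k0,(nat_lit 308)),(k11,(nat_lit 319)),(k7,(nat_lit 322)),(k8,(nat_lit 326)),(k4,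
    (nat_lit 327))],[(k2,(nat_lit 269)),(k1,(nat_lit 308)),(k6,(nat_lit 318)),(k5,(nat_lit 325)),(k9,(nat_lit 326)),
    (k10,(nat_lit 333))],[(k2,(nat_lit 292)),(k1,(nat_lit 293)),(k6,(nat_lit 311)),(k10,(nat_lit 318)),(k9,
    (nat_lit 319)),(k5,(nat_lit 348))],[(k0,(nat_lit 269)),(k3,(nat_lit 292)),(k7,(nat_lit 311)),(k11,(nat_lit 314)),
    (k8,(nat_lit 315)),(k4,(nat_lit 320))],[(k7,(nat_lit 315)),(k11,(nat_lit 322)),(k8,(nat_lit 323)),(k4,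
    (nat_lit 324)),(k0,(nat_lit 325)),(k3,(nat_lit 348))],[(k9,(nat_lit 317)),(k2,(nat_lit 320)),(k6,(nat_lit 321)),
    (k10,(nat_lit 322)),(k5,(nat_lit 324)),(k1,(nat_lit 327))],[(k2,(nat_lit 311)),(k5,(nat_lit 315)),(k10,
    (nat_lit 317)),(k1,(nat_lit 322)),(k9,(nat_lit 334)),(k6,(nat_lit 338))],[(k3,(nat_lit 311)),(k0,(nat_lit 318)),
    (k4,(nat_lit 321)),(k11,(nat_lit 323)),(k8,(nat_lit 330)),(k7,(nat_lit 338))],[(k4,(nat_lit 317)),(k3,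
    (nat_lit 319)),(k0,(nat_lit 326)),(k11,(nat_lit 327)),(k7,(nat_lit 334)),(k8,(nat_lit 334))],[(k2,(nat_lit 315)),
    (k5,(nat_lit 323)),(k1,(nat_lit 326)),(k10,(nat_lit 327)),(k6,(nat_lit 330)),(k9,(nat_lit 334))],[(k2,
    (nat_lit 314)),(k1,(nat_lit 319)),(k10,(nat_lit 320)),(k5,(nat_lit 322)),(k6,(nat_lit 323)),(k9,(nat_lit 327))],
    [(k7,(nat_lit 317)),(k3,(nat_lit 318)),(k11,(nat_lit 320)),(k4,(nat_lit 322)),(k8,(nat_lit 327)),(k0,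
    (nat_lit 333))]]
    [] k0
    [[k3,k0,k0,k0,k0,k0],[k2,k1,k0,k0,k0,k0],[k2,k0,k0,k1,k0,k0],[k1,k2,k0,k0,k0,k0],[k1,k1,k1,k0,k0,k0],[k1,k1,k0,k1,
    k0,k0],[k1,k1,k0,k0,k1,k0],[k1,k1,k0,k0,k0,k1],[k1,k0,k0,k1,k0,k1],[k0,k3,k0,k0,k0,k0],[k0,k2,k0,k1,k0,k0],[k0,k2,
    k0,k0,k1,k0],[k0,k2,k0,k0,k0,k1],[k0,k1,k1,k1,k0,k0],[k0,k1,k0,k1,k0,k1],[k0,k1,k0,k0,k0,k2]]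
    [.ref (nat_lit 204) k9 [(z1,[y1,z0,y3,y3,z3]),(z1,[z0,z0,z0,z1]),(z1,[y2,z3,z3]),(z1,[z1])],.ref k138 k10 [(z1,
    [y1,z4,z10,z6,y6]),(z1,[z2,y2,y5,y3,z3]),(z1,[z0,y1,y2,y2,z2]),(z1,[z1,y1,y1])],.ref k66 k11 [(z1,[y2,y1,y2,y2,
    z2]),(z1,[z1,z0,z1,z1,y1]),(z1,[z1]),(z1,[y1,z0,y1,z0,z1])],.ref k138 k0 [(z1,[y1,z2,z2]),(z1,[z2,y1,y1]),(z1,[z0,
    z0,z0,z1]),(z1,[z1,y2,y5,y3,z3])],.ref k196 k8 [(z1,[y1,z1,z2,z2,y1]),(z1,[z0,y1,y2,y2,z2]),(z1,[y2,z2,z3,z3,y1]),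
    (z1,[z1,z0,z1,z0,y1])],.ref k15 k4 [(z1,[y2,z2,z4,z3,y2]),(z1,[y1,z2,z5,z3,y3]),(z1,[z2,y2,y5,y3,z3]),(z1,[z0,y1,
    y2,y2,z2])],.ref k15 k7 [(z1,[y2,z1,z2]),(z1,[y1,z1,z1]),(z1,[z2,y1,y1]),(z1,[z0,z0,z0,z1])],.ref k196 k8 [(z1,
    [z1,z0,z0,z1,y1]),(z1,[z0,y1,y2,y2,z2]),(z1,[z2,z0,y1,z1,y1]),(z1,[y1,z1,z3,z1,y1])],.ref k196 k8 [(z2,[z1,z1,z3,
    z3,y3]),(z1,[z0,y1,y2,y2,z2]),(z1,[z1,z1,z2,z2,y2]),(z2,[y1,z1,z3,z1,y1])],.ref (nat_lit 204) k8 [(z1,[y1,z3,z9,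
    z6,y6]),(z1,[z0,y1,y2,y2,z2]),(z1,[y2,z6,z15,z9,y9]),(z1,[z1])],.ref (nat_lit 205) k1 [(z1,[y4,y2,y6,y3,z4]),(z1,
    [z1]),(z1,[z2,z1,z3,z2,y2]),(z1,[y2,y1,y2,y2,z2])],.ref k66 k1 [(z1,[y2,z0,z0,z1]),(z1,[z1,y1,y3,y2,z2]),(z1,
    [z1]),(z1,[y1,z0,z1])],.ref k196 k8 [(z2,[y1,z1,z4,z2,y2]),(z1,[z0,y1,y2,y2,z2]),(z1,[y1,z1,z3,z1,y1]),(z2,[z1,z1,
    z2,z2,y2])],.ref k196 k8 [(z3,[y1,z1,z3,z3,y2]),(z1,[z0,y1,y2,y2,z2]),(z3,[y2,z2,z3,z3,y1]),(z3,[z1,z2,z6,z3,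
    y4])],.ref k196 k8 [(z1,[y1,z0,z1]),(z1,[z0,y1,y2,y2,z2]),(z1,[y2,z0,z1,y1,z1]),(z1,[z1,z1,z2,z2,y2])],
    .ref k15 k4 [(z1,[z2,z2,z2,z5,y4]),(z1,[z1,z2,z4,z4,y4]),(z1,[y2,y2,y3,y5,z5]),(z1,[z0,y1,y2,y2,z2])]],
    .lp [(nat_lit 606),(nat_lit 650),(nat_lit 632),(nat_lit 662),(nat_lit 646),(nat_lit 640)] [k28,k28,k6,k6,k15,k15,k0,
    k0,k8,k8,k11,k11] k0 [[k0,k0,k74,k0,k0,k0,k0,k0,k0,k0,k46,k58],[k0,k0,k50],[k0,k0,k0,k0,k56,k0,k0,k0,k0,k100],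
    [k50,k74],[k0,k0,k0,k0,k0,k0,k26,k62],[k0,k0,k0,k56,k0,k0,k0,k0,k0,k0,k48],[k0,k0,k0,k0,k0,k62,k0,k0,k22],[k0,k0,
    k0,k0,k0,k26,k0,k0,k18],[k0,k0,k0,k100,k0,k0,k0,k0,k0,k0,k0,k68],[k0,k0,k0,k0,k0,k0,k18,k22],[k0,k58,k0,k0,k0,k0,
    k0,k0,k0,k68],[k0,k46,k0,k0,k48]] (nat_lit 1920) k5
    [[(k0,(nat_lit 560)),(k7,(nat_lit 586)),(k4,(nat_lit 619)),(k8,(nat_lit 626)),(k3,(nat_lit 686)),(k11,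
    (nat_lit 691))],[(k5,(nat_lit 545)),(k1,(nat_lit 560)),(k10,(nat_lit 565)),(k9,(nat_lit 626)),(k6,(nat_lit 634)),
    (k2,(nat_lit 678))],[(k5,(nat_lit 591)),(k9,(nat_lit 648)),(k6,(nat_lit 656)),(k1,(nat_lit 686)),(k10,
    (nat_lit 691)),(k2,(nat_lit 724))],[(k8,(nat_lit 548)),(k7,(nat_lit 600)),(k4,(nat_lit 641)),(k11,(nat_lit 645)),
    (k0,(nat_lit 678)),(k3,(nat_lit 724))],[(k0,(nat_lit 545)),(k3,(nat_lit 591)),(k8,(nat_lit 639)),(k7,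
    (nat_lit 647)),(k4,(nat_lit 688)),(k11,(nat_lit 736))],[(k6,(nat_lit 585)),(k9,(nat_lit 613)),(k1,(nat_lit 619)),
    (k2,(nat_lit 641)),(k10,(nat_lit 684)),(k5,(nat_lit 688))],[(k1,(nat_lit 586)),(k2,(nat_lit 600)),(k5,
    (nat_lit 647)),(k10,(nat_lit 651)),(k6,(nat_lit 688)),(k9,(nat_lit 716))],[(k4,(nat_lit 585)),(k11,(nat_lit 629)),
    (k0,(nat_lit 634)),(k3,(nat_lit 656)),(k8,(nat_lit 672)),(k7,(nat_lit 688))],[(k4,(nat_lit 613)),(k11,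
    (nat_lit 625)),(k0,(nat_lit 626)),(k3,(nat_lit 648)),(k8,(nat_lit 668)),(k7,(nat_lit 716))],[(k2,(nat_lit 548)),
    (k10,(nat_lit 575)),(k1,(nat_lit 626)),(k5,(nat_lit 639)),(k9,(nat_lit 668)),(k6,(nat_lit 672))],[(k9,
    (nat_lit 625)),(k6,(nat_lit 629)),(k10,(nat_lit 640)),(k2,(nat_lit 645)),(k1,(nat_lit 691)),(k5,(nat_lit 736))],
    [(k0,(nat_lit 565)),(k8,(nat_lit 575)),(k11,(nat_lit 640)),(k7,(nat_lit 651)),(k4,(nat_lit 684)),(k3,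
    (nat_lit 691))]]
    [] k0
    [[k3,k0,k0,k0,k0,k0],[k2,k0,k1,k0,k0,k0],[k2,k0,k0,k1,k0,k0],[k2,k0,k0,k0,k1,k0],[k2,k0,k0,k0,k0,k1],[k1,k1,k1,k0,
    k0,k0],[k1,k1,k0,k0,k1,k0],[k1,k1,k0,k0,k0,k1],[k1,k0,k2,k0,k0,k0],[k1,k0,k1,k1,k0,k0],[k1,k0,k1,k0,k1,k0],[k1,k0,
    k0,k2,k0,k0],[k1,k0,k0,k1,k1,k0],[k1,k0,k0,k1,k0,k1],[k1,k0,k0,k0,k1,k1],[k1,k0,k0,k0,k0,k2],[k0,k1,k1,k1,k0,k0],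
    [k0,k1,k1,k0,k1,k0],[k0,k1,k0,k0,k2,k0],[k0,k1,k0,k0,k1,k1],[k0,k0,k0,k0,k2,k1],[k0,k0,k0,k0,k1,k2]]
    [.ref k6 k0 [(z1,[z1]),(z10,[y2,z3,z15]),(z20,[z2,y3,z0,z15]),(z5,[y4,z6,z0,z0,z15]),(z4,[y2,y3,y6,y3,y12,z12])],
    .ref k6 k0 [(z14,[z20,z1,z0,y5]),(z14,[y4,z4,z21,z1]),(z7,[z1,y1,z0,z5]),(z7,[y8,z8,z0,z2,z21]),(z14,[y10,y11,y21,
    y8,y42,z42])],.ref k6 k0 [(z2,[z5,y2,z0,z0,y5]),(z2,[y1,z1,z3,z0,z1]),(z4,[z1,y1,z0,z3,y1]),(z1,[y2,z2,z0,z0,z5]),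
    (z4,[y5,y1,y6,y3,y7,z12])],.ref k6 k0 [(z2,[z4,z1,z2,z1,z4,y4]),(z10,[y4,z2,z13,y1,y4,z4]),(z10,[z2,y1,z1,z8,z2,
    y2]),(z5,[y8,z4,y4,y2,z7,z8]),(z1,[y1,y1,y2,y1,y4,z4])],.ref k6 k0 [(z4,[z5,z1]),(z4,[y1,z1,z6]),(z8,[z1,y1,z0,
    z6]),(z1,[y1,z1,z0,z0,z3]),(z8,[y5,y7,y12,y6,y24,z24])],.ref k6 k0 [(z6,[z20,y1,y10,y5]),(z6,[y4,z2,z11,z1]),(z6,
    [z2,y1,y1,z4]),(z3,[y8,z4,z4,z2,z9]),(z3,[y5,y2,y2,y1,y9,z9])],.ref k6 k0 [(z2,[z20,z3,z0,z5,z20,y20]),(z2,[y4,z0,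
    z3,y1,y4,z4]),(z1,[z1,z0,z0,z1,z1,y1]),(z1,[y8,z0,z0,y2,y5,z8]),(z2,[y10,y3,y3,y4,y16,z16])],.ref k6 k0 [(z4,[z10,
    z1,y5]),(z4,[y2,z1,z7]),(z8,[z2,y1,y1,z6]),(z1,[y2,z1,z1,z0,z3]),(z8,[y10,y7,y7,y6,y24,z24])],.ref k6 k0 [(z4,
    [z10,z1,z0,y5]),(z4,[y2,z1,z6,z1]),(z8,[z2,y1,z0,z5]),(z1,[y2,z1,z0,z1,z3]),(z8,[y10,y7,y12,y1,y24,z24])],
    .ref k6 k0 [(z2,[z20,y7,z0,y5,y20]),(z2,[y4,z2,z3,z1,z4]),(z2,[z2,y1,z0,z1,y2]),(z1,[y8,z4,z0,z2,z11]),(z2,[y10,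
    z2,y3,z1,z4,z6])],.ref k6 k0 [(z2,[z10,z3,z5,z0,z10,y10]),(z1,[y1,z0,z1,z0,y1,z1]),(z4,[z2,z0,z1,z3,z2,y2]),(z1,
    [y4,z0,y2,z0,y1,z4]),(z4,[y10,y6,y11,y3,y22,z22])],.ref k6 k0 [(z1,[y5,z4,z0,z0,z10]),(z2,[z2,y1,z3,z0,y4]),(z4,
    [y2,z1,z0,z3,z4]),(z1,[z4,y2,z0,z0,y5]),(z4,[z10,y11,y6,y3,y32,z12])],.ref k6 k0 [(z2,[y20,z3,y10,y5,z0,z20]),(z2,
    [z4,z0,z5,z1,z0,y4]),(z2,[y2,z0,y1,z1,z0,z2]),(z1,[z8,z0,z4,z2,z3,y8]),(z2,[z10,y3,z2,z1,y6,y4])],.ref k6 k0 [(z1,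
    [z5,y1,z0,z0,y5]),(z2,[y2,z1,z3,z0,z2]),(z4,[z2,y1,z0,z3,y2]),(z1,[y4,z2,z0,z0,z7]),(z4,[y10,y1,y6,y3,y2,z12])],
    .ref k6 k0 [(z6,[z20,z9,z10,z5,z20,y20]),(z6,[y4,z0,z7,y1,y4,z4]),(z6,[z2,z0,z1,z5,z2,y2]),(z3,[y8,z0,y4,y2,z1,
    z8]),(z6,[y10,y9,y14,y7,y28,z28])],.ref k6 k0 [(z3,[z5,z2]),(z6,[y2,z1,z9]),(z12,[z2,y1,z0,z9]),(z3,[y4,z2,z0,z0,
    z9]),(z12,[y10,y13,y18,y9,y36,z36])],.ref k6 k0 [(z6,[y20,z9,z10,z5,z20]),(z6,[z4,z0,z7,y1,y4]),(z6,[y2,z0,z1,z5,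
    z2]),(z3,[z8,z0,y4,y2,z1]),(z6,[z10,y9,y14,y7,y28,z18])],.ref k6 k0 [(z1,[y5,y1,z0,z0,y5,z5]),(z2,[z2,z1,z3,z0,z2,
    y2]),(z4,[y2,y1,z0,z3,y2,z2]),(z1,[z4,z2,z0,z0,z7,y4]),(z4,[z10,y1,y6,y3,y2,z2])],.ref k6 k0 [(z4,[y10,y4,y5,y5,
    y20,z20]),(z4,[z2,z2,z7,z1,z4,y4]),(z8,[y2,y2,y1,z5,y4,z4]),(z1,[z2,z2,z1,z1,z7,y4]),(z8,[z10,y2,y7,y1,y4,z4])],
    .ref k6 k0 [(z2,[y20,y7,z0,y5,y20,z20]),(z2,[z4,z2,z3,z1,z4,y4]),(z2,[y2,y1,z0,z1,y2,z2]),(z1,[z8,z4,z0,z2,z11,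
    y8]),(z2,[z10,z2,y3,z1,z4,y4])],.ref k6 k0 [(z2,[y10,y7,y10,y5,y20,z20]),(z2,[z2,z2,z5,z1,z4,y4]),(z2,[y1,y1,y1,
    z1,y2,z2]),(z1,[z4,z4,z4,z2,z11,y8]),(z2,[z5,z2,z2,z1,z4,y4])],.ref k6 k0 [(z2,[z20,z13,z10,z5,z20,y20]),(z2,[y4,
    y2,z1,y1,y4,z4]),(z2,[z2,z1,z1,z2,z2,y2]),(z1,[y8,y4,y4,y2,y5,z8]),(z1,[y5,y4,y4,y2,y8,z8])]],
    .lp [k158,k142,k182,k146,k170,k160] [k12,k12,k20,k20,k0,k0,k18,k18,k6,k6,k11,k11] k0 [[k0,k0,k50,k0,k0,k0,k0,k16],[k0,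
    k0,k26,k0,k0,k0,k0,k0,k0,k0,k10,k6],[k0,k0,k0,k0,k0,k0,k0,k0,k8,k8],[k26,k50],[k0,k0,k0,k0,k0,k0,k0,k30,k0,k0,
    k38],[k0,k0,k0,k0,k0,k0,k0,k20,k0,k0,k30],[k0,k16,k0,k0,k20,k30],[k0,k0,k0,k0,k0,k0,k0,k0,k8,k10],[k0,k0,k0,k8,k0,
    k0,k10],[k0,k0,k0,k8,k0,k0,k8],[k6],[k10,k0,k0,k0,k30,k38]] (nat_lit 480) k5
    [[(k7,k122),(k4,k132),(k3,k140),(k11,k159),(k0,k164),(k8,k164)],[(k5,k120),(k6,k136),(k1,k164),(k9,k164),(k10,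
    k169),(k2,k176)],[(k5,k136),(k1,k140),(k6,k144),(k10,k145),(k9,k172),(k2,k192)],[(k11,k143),(k7,k144),(k8,k148),
    (k4,k162),(k0,k176),(k3,k192)],[(k0,k120),(k3,k136),(k7,k164),(k11,k179),(k4,k182),(k8,k184)],[(k1,k132),(k6,
    k134),(k2,k162),(k5,k182),(k9,k196),(k10,(nat_lit 201))],[(k1,k122),(k6,k126),(k2,k144),(k5,k164),(k9,k188),(k10,
    k191)],[(k7,k126),(k4,k134),(k0,k136),(k3,k144),(k11,k163),(k8,k166)],[(k11,k157),(k8,k160),(k0,k164),(k3,k172),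
    (k7,k188),(k4,k196)],[(k2,k148),(k9,k160),(k1,k164),(k10,k165),(k6,k166),(k5,k184)],[(k2,k143),(k9,k157),(k1,
    k159),(k10,k160),(k6,k163),(k5,k179)],[(k3,k145),(k11,k160),(k8,k165),(k0,k169),(k7,k191),(k4,(nat_lit 201))]]
    [] k0
    [[k2,k0,k1,k0,k0,k0],[k2,k0,k0,k1,k0,k0],[k1,k1,k1,k0,k0,k0],[k1,k1,k0,k1,k0,k0],[k1,k1,k0,k0,k1,k0],[k1,k1,k0,k0,
    k0,k1],[k1,k0,k2,k0,k0,k0],[k1,k0,k1,k1,k0,k0],[k1,k0,k0,k2,k0,k0],[k1,k0,k0,k1,k1,k0],[k1,k0,k0,k1,k0,k1],[k0,k1,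
    k1,k1,k0,k0],[k0,k1,k0,k2,k0,k0],[k0,k1,k0,k1,k0,k1],[k0,k1,k0,k0,k1,k1],[k0,k1,k0,k0,k0,k2],[k0,k0,k1,k2,k0,k0],
    [k0,k0,k0,k3,k0,k0]]
    [.ref k6 k0 [(z1,[z0,z1]),(z6,[y6,z4,z9,z1]),(z1,[z3,y2]),(z3,[y12,z8,z0,z2,z9]),(z2,[z0,y2,y3,y1,y6,z6])],
    .ref k6 k0 [(z1,[z0,z1]),(z4,[z3,y2,z6,z0,y3]),(z4,[y9,z6,z0,z2,z9]),(z1,[z3,y2]),(z2,[z0,y2,y3,y1,y6,z6])],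
    .ref k6 k0 [(z1,[z0,z1]),(z4,[y6,z2,z9,z1]),(z4,[z18,y6,y9,y1]),(z1,[y6,z2,z3,z1,z3]),(z2,[z0,y2,y3,y1,y6,z6])],
    .ref k6 k0 [(z1,[z0,z1]),(z5,[z3,y1,z6,z0,y3]),(z10,[y18,z6,z9,z5,z18]),(z5,[z12,y4,y6,z0,z3]),(z2,[z0,y2,y3,y1,
    y6,z6])],.ref k6 k0 [(z1,[z0,z1]),(z2,[z6,z0,z3,z1,z6,y6]),(z1,[y9,z0,z0,y1,y9,z9]),(z1,[z12,z0,z0,z2,z15,y12]),
    (z2,[z0,y2,y3,y1,y6,z6])],.ref k6 k0 [(z1,[z0,z1]),(z1,[y3,z1,z3]),(z2,[z18,y6,y9,z1]),(z1,[y12,z4,z6,z0,z3]),(z2,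
    [z0,y2,y3,y1,y6,z6])],.ref k6 k0 [(z1,[z0,z1]),(z6,[y3,z1,z9,z1]),(z2,[z3,y1]),(z3,[y6,z2,z0,z2,z9]),(z2,[z0,y2,
    y3,y1,y6,z6])],.ref k6 k0 [(z1,[z0,z1]),(z2,[z6,y2,z3,y1,y6]),(z1,[y9,z3,z0,z2,z9]),(z1,[z12,y4,z0,y2,y9]),(z2,
    [z0,y2,y3,y1,y6,z6])],.ref k6 k0 [(z1,[z0,z1]),(z8,[z3,y1,z12,z0,y6]),(z8,[y9,z3,z0,z4,z18]),(z2,[z3,y1]),(z2,[z0,
    y2,y3,y1,y6,z6])],.ref k6 k0 [(z1,[z0,z1]),(z8,[z6,z0,z15,z1,z0,y6]),(z8,[y18,z0,y9,z1,z0,z18]),(z2,[z6,z0,z3,z1,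
    z6,y6]),(z2,[z0,y2,y3,y1,y6,z6])],.ref k6 k0 [(z1,[z0,z1]),(z2,[z3,y1,z3,z0,y3]),(z2,[y9,z3,z0,z1,z9]),(z1,[z6,y2,
    z0,z0,y3]),(z2,[z0,y2,y3,y1,y6,z6])],.ref k6 k0 [(z1,[z0,z1]),(z4,[z6,z0,z3,y1,y6]),(z4,[y18,z0,z9,z5,z18]),(z1,
    [z6,z0,y3,y1,y3]),(z2,[z0,y2,y3,y1,y6,z6])],.ref k6 k0 [(z1,[z0,z1]),(z3,[z1,z0,z4,z0,y2]),(z2,[y2,z0,z1,z1,z4]),
    (z3,[z4,z0,y2,z0,z1]),(z2,[z0,y2,y3,y1,y6,z6])],.ref k6 k0 [(z1,[z0,z1]),(z1,[z1,z0,z1,z0,y1]),(z2,[y6,z0,z3,z1,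
    z6]),(z1,[z4,z0,y2,z0,y1]),(z2,[z0,y2,y3,y1,y6,z6])],.ref k6 k0 [(z1,[z0,z1]),(z2,[y6,y2,z3,y1,y6,z6]),(z1,[z9,z3,
    z0,z2,z9,y9]),(z1,[y12,y4,z0,y2,y9,z12]),(z2,[z0,y2,y3,y1,y6,z6])],.ref k6 k0 [(z1,[z0,z1]),(z1,[y1,z0,z2]),(z2,
    [z6,z0,y3,z1]),(z1,[y4,z0,z2,z0,z3]),(z2,[z0,y2,y3,y1,y6,z6])],.ref k6 k0 [(z1,[z0,z1]),(z10,[z6,z0,z15,y1,y12]),
    (z5,[y9,z0,z0,z4,z18]),(z5,[z12,z0,z0,y2,y9]),(z2,[z0,y2,y3,y1,y6,z6])],.ref k6 k0 [(z1,[z0,z1]),(z4,[z1,z0,z6,z0,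
    y3]),(z4,[y3,z0,z0,z2,z9]),(z1,[z1]),(z2,[z0,y2,y3,y1,y6,z6])]],
    .lp [(nat_lit 216),(nat_lit 234),(nat_lit 238),(nat_lit 240),(nat_lit 246),(nat_lit 260)] [k26,k18,k13,k13,k11,k11,
    k10,k10,k7,k7,k0,k0] k0 [[k0,k0,k0,k0,k0,k0,k2,k14],[k0,k0,k56,k0,k0,k0,k0,k0,k0,k0,k2],[k0,k0,k0,k0,k0,k14,k0,k0,
    k8,k2],[k56,k0,k0,k0,k0,k10],[k0,k0,k10,k14],[k0,k0,k0,k0,k0,k0,k0,k0,k0,k0,k52,k14],[k0,k14],[k0,k2],[k0,k0,k0,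
    k2,k0,k0,k0,k0,k0,k0,k0,k26],[k0,k0,k0,k8,k0,k0,k0,k0,k0,k0,k0,k20],[k0,k0,k0,k0,k14,k0,k0,k0,k20,k26],[k2,k0,k0,
    k0,k52]] (nat_lit 720) k5
    [[(k7,k180),(k0,(nat_lit 216)),(k3,(nat_lit 227)),(k4,(nat_lit 245)),(k8,(nat_lit 255)),(k11,(nat_lit 268))],[(k6,
    (nat_lit 210)),(k1,(nat_lit 216)),(k5,(nat_lit 223)),(k9,(nat_lit 225)),(k10,(nat_lit 236)),(k2,(nat_lit 277))],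
    [(k5,k180),(k1,(nat_lit 227)),(k2,(nat_lit 234)),(k6,(nat_lit 239)),(k10,(nat_lit 247)),(k9,(nat_lit 254))],[(k4,
    (nat_lit 222)),(k3,(nat_lit 234)),(k8,(nat_lit 238)),(k11,(nat_lit 239)),(k7,(nat_lit 247)),(k0,(nat_lit 277))],
    [(k3,k180),(k0,(nat_lit 223)),(k4,(nat_lit 228)),(k8,(nat_lit 250)),(k11,(nat_lit 251)),(k7,(nat_lit 253))],[(k2,
    (nat_lit 222)),(k5,(nat_lit 228)),(k6,(nat_lit 239)),(k9,(nat_lit 242)),(k1,(nat_lit 245)),(k10,(nat_lit 301))],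
    [(k1,k180),(k10,(nat_lit 236)),(k6,(nat_lit 240)),(k9,(nat_lit 243)),(k2,(nat_lit 247)),(k5,(nat_lit 253))],[(k0,
    (nat_lit 210)),(k3,(nat_lit 239)),(k4,(nat_lit 239)),(k7,(nat_lit 240)),(k8,(nat_lit 243)),(k11,(nat_lit 250))],
    [(k0,(nat_lit 225)),(k4,(nat_lit 242)),(k7,(nat_lit 243)),(k8,(nat_lit 246)),(k11,(nat_lit 253)),(k3,
    (nat_lit 254))],[(k10,(nat_lit 227)),(k2,(nat_lit 238)),(k6,(nat_lit 243)),(k9,(nat_lit 246)),(k5,(nat_lit 250)),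
    (k1,(nat_lit 255))],[(k2,(nat_lit 239)),(k10,(nat_lit 240)),(k6,(nat_lit 250)),(k5,(nat_lit 251)),(k9,
    (nat_lit 253)),(k1,(nat_lit 268))],[(k8,(nat_lit 227)),(k0,(nat_lit 236)),(k7,(nat_lit 236)),(k11,(nat_lit 240)),
    (k3,(nat_lit 247)),(k4,(nat_lit 301))]]
    [] k0
    [[k3,k0,k0,k0,k0,k0],[k2,k0,k1,k0,k0,k0],[k2,k0,k0,k1,k0,k0],[k2,k0,k0,k0,k1,k0],[k1,k1,k1,k0,k0,k0],[k1,k1,k0,k1,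
    k0,k0],[k1,k1,k0,k0,k1,k0],[k1,k1,k0,k0,k0,k1],[k1,k0,k2,k0,k0,k0],[k1,k0,k1,k1,k0,k0],[k1,k0,k0,k2,k0,k0],[k1,k0,
    k0,k1,k1,k0],[k1,k0,k0,k1,k0,k1],[k0,k3,k0,k0,k0,k0],[k0,k2,k1,k0,k0,k0],[k0,k1,k2,k0,k0,k0],[k0,k1,k1,k1,k0,k0],
    [k0,k1,k1,k0,k1,k0],[k0,k1,k0,k1,k0,k1],[k0,k0,k3,k0,k0,k0]]
    [.ref k6 k0 [(z1,[z1]),(z16,[y11,z33,z48]),(z4,[z1,y3,z0,z12]),(z8,[y1,z3,z0,z0,z24]),(z2,[y1,y3,y6,y6,y6,z6])],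
    .ref k6 k0 [(z3,[z4,z1,z0,y4]),(z12,[y11,z22,z36,z11]),(z3,[z1,y2,z0,z8]),(z6,[y1,z2,z0,z1,z18]),(z3,[y2,y5,y9,y7,
    y9,z9])],.ref k6 k0 [(z5,[z8,y1,z0,z0,y8]),(z10,[y11,z22,z30,z0,z11]),(z5,[z2,y4,z0,z15,y2]),(z5,[y1,z2,z0,z0,
    z16]),(z5,[y4,y7,y15,y15,y11,z15])],.ref k6 k0 [(z1,[z2,z1,z2,z2,z2,y2]),(z8,[y11,z11,z13,y11,y11,z11]),(z2,[z1,
    y1,z1,z7,z1,y1]),(z4,[y1,z1,y1,y1,z11,z1]),(z1,[y1,y2,y4,y4,y4,z4])],.ref k6 k0 [(z3,[z16,y7,y16,y16]),(z3,[y11,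
    z11,z20,z11]),(z3,[z4,y4,y4,z5]),(z3,[y2,z2,z2,z2,z9]),(z3,[y8,y1,y1,y1,y9,z9])],.ref k6 k0 [(z1,[z16,y13,y16,z0,
    y16]),(z1,[y11,z11,z14,z0,z11]),(z1,[z4,y4,y4,z3,y4]),(z1,[y2,z2,z2,z0,z5]),(z1,[y8,z5,z5,y3,z5,z3])],
    .ref k6 k0 [(z1,[y16,z3,z0,y16,y16,z16]),(z1,[z11,z0,z3,z11,z11,y11]),(z1,[y4,z0,z0,y1,y4,z4]),(z1,[z2,z0,z0,z2,
    z5,y2]),(z1,[z8,y3,y3,z5,z5,y5])],.ref k6 k0 [(z1,[z8,y5,y8]),(z2,[y11,z11,z17]),(z1,[z2,y2,y2,z3]),(z1,[y1,z1,z1,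
    z0,z3]),(z1,[y4,z1,z1,y3,y3,z3])],.ref k6 k0 [(z1,[z2,z1,z0,y4]),(z8,[y11,z11,z24,z22]),(z2,[z1,y1,z0,z4]),(z4,
    [y1,z1,z0,z2,z12]),(z1,[y1,y2,y3,y1,y3,z3])],.ref k6 k0 [(z3,[z8,z1,z0,y8,y8]),(z6,[y11,z11,z18,z11,z11]),(z3,[z2,
    y2,z0,z7,y2]),(z3,[y1,z1,z0,z1,z10]),(z3,[y4,y5,y9,y5,y5,z9])],.ref k6 k0 [(z1,[z4,y1,z0,z0,y8]),(z4,[y11,z11,z12,
    z0,z22]),(z1,[z1,y1,z0,z3,y2]),(z2,[y1,z1,z0,z0,z8]),(z1,[y2,y1,y3,y3,z1,z3])],.ref k6 k0 [(z1,[z8,z3,z8,z8,z0,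
    y8]),(z2,[y11,z0,y5,y11,z0,z11]),(z1,[z2,z0,z2,z5,z0,y2]),(z1,[y1,z0,y1,y1,z3,z1]),(z1,[y4,y3,y7,y7,y3,z7])],
    .ref k6 k0 [(z5,[z16,y1,z0,z0,y16]),(z5,[y11,z11,z15,z0,z11]),(z5,[z4,y4,z0,z15,y4]),(z5,[y2,z2,z0,z0,z17]),(z5,
    [y8,y7,y15,y15,y7,z15])],.ref k6 k0 [(z11,[y16,z33,z48]),(z1,[z1]),(z11,[y4,z0,z12,z33]),(z11,[z2,z0,y6,z0,z33]),
    (z11,[z8,y33,y57,y33,y33,z33])],.ref k6 k0 [(z3,[y8,z9,z16,z8]),(z6,[z11,z0,y4,y11]),(z3,[y2,z0,z4,z11]),(z3,[z1,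
    z0,y2,y1,z9]),(z3,[z4,y9,y17,y13,y9,z9])],.ref k6 k0 [(z1,[y16,z3,z16,z32]),(z1,[z11,z0,y8,y22]),(z1,[y4,z0,z4,
    z11]),(z1,[z2,z0,y2,y4,z3]),(z1,[z8,y3,y11,y19,y3,z3])],.ref k6 k0 [(z3,[y16,z9,z16,z16,z16]),(z3,[z11,z0,y2,y11,
    y11]),(z3,[y4,z0,z4,z13,z4]),(z3,[z2,z0,y2,y2,z7]),(z3,[z8,y9,y17,y17,y17,z9])],.ref k6 k0 [(z5,[y16,y1,z0,z0,y16,
    z16]),(z5,[z11,z11,z15,z0,z11,y11]),(z5,[y4,y4,z0,z15,y4,z4]),(z5,[z2,z2,z0,z0,z17,y2]),(z5,[z8,y7,y15,y15,y7,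
    z7])],.ref k6 k0 [(z1,[y4,z3,z4,z0,z4]),(z4,[z11,z0,z1,z0,y11]),(z1,[y1,z0,z1,z3,z1]),(z2,[z1,z0,y1,z0,z5]),(z1,
    [z2,y3,y5,y3,y5,z3])],.ref k6 k0 [(z1,[z4,z3,z0,y12]),(z4,[y11,z0,z12,z33]),(z1,[z1]),(z2,[y1,z0,z0,z3,z6]),(z1,
    [y2,y3,y3,z3,y3,z3])]],
    .lp [(nat_lit 320),(nat_lit 302),(nat_lit 354),(nat_lit 282),(nat_lit 320),(nat_lit 340)] [k17,k17,k26,k26,k0,k0,k36,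
    k36,k17,k17,k7,k7] k0 [[k0,k0,k54,k0,k0,k0,k18,k48],[k0,k0,k0,k0,k0,k0,k0,k0,k0,k0,k0,k18],[k0,k0,k0,k0,k0,k48,k0,
    k0,k4,k30],[k0,k54,k0,k0,k0,k2],[k0,k0,k2,k48,k0,k0,k0,k76],[k0,k0,k0,k0,k0,k0,k0,k20,k0,k0,k0,k2],[k0,k48,k0,k0,
    k20,k76],[k0,k18,k0,k0,k0,k0,k0,k0,k20],[k0,k0,k0,k30],[k0,k0,k0,k4,k0,k0,k20],[k18,k0,k0,k0,k2]] (nat_lit 960) k5
    [[(k7,(nat_lit 301)),(k3,(nat_lit 311)),(k8,(nat_lit 320)),(k11,(nat_lit 330)),(k0,(nat_lit 338)),(k4,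
    (nat_lit 339))],[(k6,(nat_lit 253)),(k5,(nat_lit 283)),(k9,(nat_lit 302)),(k2,(nat_lit 311)),(k10,(nat_lit 330)),
    (k1,(nat_lit 338))],[(k10,(nat_lit 303)),(k6,(nat_lit 310)),(k1,(nat_lit 311)),(k5,(nat_lit 328)),(k2,
    (nat_lit 356)),(k9,(nat_lit 359))],[(k4,(nat_lit 280)),(k8,(nat_lit 281)),(k7,(nat_lit 294)),(k0,(nat_lit 311)),
    (k11,(nat_lit 317)),(k3,(nat_lit 356))],[(k0,(nat_lit 283)),(k3,(nat_lit 328)),(k8,(nat_lit 341)),(k4,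
    (nat_lit 352)),(k7,(nat_lit 366)),(k11,(nat_lit 377))],[(k6,(nat_lit 242)),(k2,(nat_lit 280)),(k1,(nat_lit 339)),
    (k10,(nat_lit 347)),(k5,(nat_lit 352)),(k9,(nat_lit 357))],[(k6,(nat_lit 262)),(k2,(nat_lit 294)),(k1,
    (nat_lit 301)),(k10,(nat_lit 309)),(k5,(nat_lit 366)),(k9,(nat_lit 377))],[(k4,(nat_lit 242)),(k0,(nat_lit 253)),
    (k7,(nat_lit 262)),(k3,(nat_lit 310)),(k11,(nat_lit 311)),(k8,(nat_lit 321))],[(k0,(nat_lit 302)),(k11,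
    (nat_lit 310)),(k8,(nat_lit 320)),(k4,(nat_lit 357)),(k3,(nat_lit 359)),(k7,(nat_lit 377))],[(k2,(nat_lit 281)),
    (k1,(nat_lit 320)),(k9,(nat_lit 320)),(k6,(nat_lit 321)),(k10,(nat_lit 330)),(k5,(nat_lit 341))],[(k9,
    (nat_lit 310)),(k6,(nat_lit 311)),(k2,(nat_lit 317)),(k1,(nat_lit 330)),(k10,(nat_lit 340)),(k5,(nat_lit 377))],
    [(k3,(nat_lit 303)),(k7,(nat_lit 309)),(k0,(nat_lit 330)),(k8,(nat_lit 330)),(k11,(nat_lit 340)),(k4,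
    (nat_lit 347))]]
    [] k0
    [[k2,k0,k0,k1,k0,k0],[k1,k1,k1,k0,k0,k0],[k1,k1,k0,k1,k0,k0],[k1,k1,k0,k0,k1,k0],[k1,k1,k0,k0,k0,k1],[k1,k0,k1,k1,
    k0,k0],[k1,k0,k0,k2,k0,k0],[k1,k0,k0,k1,k1,k0],[k1,k0,k0,k1,k0,k1],[k1,k0,k0,k0,k2,k0],[k0,k1,k1,k1,k0,k0],[k0,k1,
    k0,k2,k0,k0],[k0,k1,k0,k1,k0,k1],[k0,k1,k0,k0,k1,k1],[k0,k0,k1,k2,k0,k0],[k0,k0,k1,k1,k0,k1],[k0,k0,k0,k3,k0,k0],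
    [k0,k0,k0,k2,k0,k1],[k0,k0,k0,k1,k1,k1]]
    [.ref k6 k0 [(z4,[z3,z2,z0,z0,y3]),(z4,[y3,z2,z12,z0,z3]),(z8,[y3,z2,z0,z8,z3]),(z2,[z3,y2,z0,z0,z3]),(z2,[y3,z0,
    y6,y2,y3,z6])],.ref k6 k0 [(z1,[y6,z3,z6,z2]),(z1,[z6,y2,y3,y2]),(z1,[z3,y1,y3]),(z1,[y12,z4,z12,z4,z3]),(z1,[z12,
    y5,y15,y5,y3,z3])],.ref k6 k0 [(z2,[z3,z1,y3,z0,y3]),(z2,[y3,z1,z9,z0,z3]),(z4,[y3,z1,z3,z4,z3]),(z1,[z3,y1,y3]),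
    (z1,[y3,z0,z0,y1,z0,z3])],.ref k6 k0 [(z2,[y3,z2,z0,y1,y3,z3]),(z2,[z3,z0,z6,z1,z3,y3]),(z4,[z3,z0,z0,z5,z3,y3]),
    (z1,[y3,z0,z0,y1,z0,z3]),(z1,[z3,y1,y3])],.ref k6 k0 [(z1,[z6,y1,y6]),(z1,[y6,z2,z9]),(z1,[y3,z1,z3,z1]),(z1,[z12,
    y4,y12,z0,z3]),(z1,[y12,z3,z9,y1,y3,z3])],.ref k6 k0 [(z5,[z6,z3,z0,y2,y6]),(z5,[y6,z2,z15,z2,z6]),(z5,[y3,z1,z0,
    z6,z3]),(z5,[z12,y4,z0,y4,z3]),(z5,[y12,y1,y15,y1,y3,z15])],.ref k6 k0 [(z5,[z3,z4,z0,z0,y6]),(z5,[y3,z1,z15,z0,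
    z6]),(z10,[y3,z1,z0,z10,z6]),(z5,[z6,y2,z0,z0,z3]),(z5,[y6,y3,y15,y5,y3,z15])],.ref k6 k0 [(z1,[z3,z1,z3,z1,z0,
    y3]),(z1,[y3,z0,z0,y1,z0,z3]),(z2,[y3,z0,y3,z1,z0,z3]),(z1,[z6,z0,z6,z2,z3,y6]),(z1,[y6,y1,y9,y3,y3,z9])],
    .ref k6 k0 [(z7,[z6,z5,z0,z0,y6]),(z7,[y6,z2,z21,z0,z6]),(z7,[y3,z1,z0,z7,z3]),(z7,[z12,y4,z0,z0,z9]),(z7,[y12,y3,
    y21,y7,y9,z21])],.ref k6 k0 [(z3,[y3,z2,y6,y2,y6,z6]),(z3,[z3,z1,z15,z2,z6,y6]),(z6,[z3,z1,z6,z8,z6,y6]),(z3,[y6,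
    y2,y12,y4,y3,z12]),(z3,[z6,y1,z3,z1,z3,y3])],.ref k6 k0 [(z1,[z6,z1,y6,y2,y6]),(z1,[y6,z0,z9,z2,z6]),(z1,[y3,z0,
    z3,z2,z3]),(z1,[z12,z0,y12,y4,y9]),(z1,[y12,y1,z9,z3,z9,z3])],.ref k6 k0 [(z1,[z1,z1,y1,z0,y2]),(z1,[y1,z0,z4,z0,
    z2]),(z2,[y1,z0,z1,z2,z2]),(z1,[z2,z0,y2,z0,y1]),(z1,[y2,y1,y1,y1,z1,z3])],.ref k6 k0 [(z1,[z2,z1,y2,z0,y2]),(z1,
    [y2,z0,z5,z0,z2]),(z1,[y1,z0,z1,z1,z1]),(z1,[z4,z0,y4,z0,y1]),(z1,[y4,y1,z1,y1,z1,z3])],.ref k6 k0 [(z5,[y6,z3,z0,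
    y2,y6,z6]),(z5,[z6,z2,z15,z2,z6,y6]),(z5,[z3,z1,z0,z6,z3,y3]),(z5,[y12,y4,z0,y4,z3,z12]),(z5,[z12,y1,y15,y1,y3,
    z3])],.ref k6 k0 [(z7,[z6,z7,z0,y2,y12]),(z7,[y6,z0,z21,z2,z12]),(z7,[y3,z0,z0,z8,z6]),(z7,[z12,z0,z0,y4,y3]),(z7,
    [y12,y7,y21,y3,z3,z21])],.ref k6 k0 [(z2,[z3,z2,z0,y1,y3]),(z2,[y3,z0,z6,z1,z3]),(z4,[y3,z0,z0,z5,z3]),(z1,[z3,z0,
    z0,y1]),(z1,[y3,y1,y3,z0,z0,z3])],.ref k6 k0 [(z2,[z1,z2,z0,z0,y3]),(z2,[y1,z0,z6,z0,z3]),(z4,[y1,z0,z0,z4,z3]),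
    (z1,[z1]),(z1,[y1,y1,y3,y1,z0,z3])],.ref k6 k0 [(z3,[z2,z3,z0,z0,y4]),(z3,[y2,z0,z9,z0,z4]),(z3,[y1,z0,z0,z3,z2]),
    (z3,[z4,z0,z0,z0,z1]),(z3,[y4,y3,y9,y3,y1,z9])],.ref k6 k0 [(z1,[z6,z3,z6,z2,z0,y6]),(z1,[y6,y2,y3,y2,z0,z6]),(z1,
    [y3,y1,y3,z0,z0,z3]),(z1,[z12,z4,z12,z4,z3,y12]),(z1,[y12,y5,y15,y5,y3,z15])]],
    .lp [k160,k164,k160,k150,k170,k154] [k5,k5,k3,k3,k5,k5,k10,k10,k0,k0,k8,k8] k0 [[k0,k0,k0,k0,k0,k0,k2],[],[k0,k0,k0,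
    k0,k0,k4],[k0,k0,k0,k0,k0,k0,k0,k0,k10],[k0,k0,k0,k4],[k0,k0,k0,k0,k0,k0,k16,k0,k0,k0,k0,k16],[k0,k0,k0,k0,k0,k0,
    k0,k0,k10,k4],[k0,k2,k0,k0,k16],[k0,k0,k0,k0,k0,k0,k0,k4,k0,k0,k8,k6],[k0,k0,k10,k0,k0,k0,k0,k10],[k0,k0,k0,k0,
    k16,k0,k0,k0,k0,k6],[k0,k0,k0,k0,k0,k0,k0,k0,k0,k8]] (nat_lit 480) k5
    [[(k7,k155),(k8,k157),(k0,k160),(k3,k162),(k11,k163),(k4,k176)],[(k6,k155),(k10,k157),(k1,k160),(k5,k160),(k2,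
    k162),(k9,k163)],[(k6,k159),(k10,k159),(k1,k162),(k5,k162),(k2,k164),(k9,k167)],[(k7,k157),(k4,k158),(k11,k159),
    (k0,k162),(k3,k164),(k8,k177)],[(k11,k147),(k7,k159),(k0,k160),(k4,k160),(k3,k162),(k8,k165)],[(k10,k157),(k2,
    k158),(k5,k160),(k9,k165),(k6,k171),(k1,k176)],[(k10,k136),(k9,k144),(k6,k150),(k1,k155),(k2,k157),(k5,k159)],
    [(k11,k142),(k7,k150),(k0,k155),(k8,k156),(k3,k159),(k4,k171)],[(k7,k144),(k0,k163),(k4,k165),(k11,k166),(k3,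
    k167),(k8,k180)],[(k6,k156),(k10,k156),(k1,k157),(k5,k165),(k2,k177),(k9,k180)],[(k6,k142),(k5,k147),(k2,k159),
    (k10,k162),(k1,k163),(k9,k166)],[(k7,k136),(k8,k156),(k0,k157),(k4,k157),(k3,k159),(k11,k162)]]
    [] k0
    [[k2,k0,k0,k1,k0,k0],[k1,k1,k0,k1,k0,k0],[k1,k1,k0,k0,k0,k1],[k1,k0,k0,k2,k0,k0],[k1,k0,k0,k1,k1,k0],[k1,k0,k0,k1,
    k0,k1],[k0,k1,k1,k0,k0,k1],[k0,k1,k1,k1,k0,k0],[k0,k1,k0,k2,k0,k0],[k0,k1,k0,k1,k0,k1],[k0,k0,k2,k0,k0,k1],[k0,k0,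
    k1,k1,k0,k1],[k0,k0,k1,k0,k1,k1],[k0,k0,k1,k0,k0,k2],[k0,k0,k0,k3,k0,k0],[k0,k0,k0,k2,k1,k0],[k0,k0,k0,k2,k0,k1],
    [k0,k0,k0,k1,k1,k1],[k0,k0,k0,k1,k0,k2]]
    [.ref (nat_lit 201) k0 [(z1,[z2,y1,z2,z2,y2]),(z2,[z3,y3,z5,z3,y3]),(z1,[y1,z1,y1,z0,z1]),(z1,[y3,z2,y4,y4,z4])],
    .ref (nat_lit 201) k0 [(z1,[z4,z1,z0,z4,y4]),(z1,[z3,z0,z1,z3,y3]),(z1,[y2,z0,z0,y1,z2]),(z1,[y6,y1,y1,y7,z7])],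
    .ref k57 k1 [(z1,[y2,z2,y2,z1]),(z1,[z0,y1,z1,y1,z1]),(z1,[z1,y1,z1]),(z1,[y3,z3,y4])],.ref k9 k3 [(z1,[z1,z2,y2,
    z2,y2]),(z4,[y3,y3,z2,y6,z6]),(z4,[z1,z1,y2,z2,y2]),(z1,[z0,y1,z1,y1,z1])],.ref (nat_lit 207) k5 [(z1,[z2,y2,z0,
    y5]),(z1,[z0,z0,z0,z1]),(z1,[y2,z0,y2,y3,z2]),(z1,[z0,z1,z0,z2])],.ref k9 k3 [(z1,[z4,z1,z0,z4,y4]),(z1,[y3,z0,y1,
    y3,z3]),(z1,[z1,z0,z0,z1,y1]),(z1,[z0,y1,z1,y1,z1])],.ref (nat_lit 207) k5 [(z1,[y2,y2,z0,y5,z2]),(z1,[z0,z0,z0,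
    z1]),(z1,[z2,z0,y2,y3]),(z1,[z0,z1,z0,z2])],.ref k199 k9 [(z1,[z2,z1,y1,y1,y1]),(z1,[z0,z0,z0,z1]),(z1,[y1,y1,z1,
    z0,z1]),(z1,[z0,z1])],.ref (nat_lit 208) k5 [(z1,[z2,z1,y1,z1,y1]),(z1,[z0,z0,z0,z1]),(z1,[y2,y4,y2,y13,z4]),(z1,
    [z0,z1,z0,z2])],.ref k186 k2 [(z1,[y1,y1,z1,y1,z1]),(z1,[z2,z2,z0,z5,y2]),(z1,[z2,z1,y1,z1,y1]),(z1,[y1,y1,z0,y1,
    z1])],.ref k182 k5 [(z1,[y2,y1,y1,y4,z1]),(z1,[z0,z0,z0,z1]),(z1,[z1]),(z1,[z0,z1,z0,z2])],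
    .ref (nat_lit 205) k9 [(z1,[z2,z1,z1,y1,y1]),(z1,[z0,z0,z0,z1]),(z1,[y1,y1,z0,z0,z1]),(z1,[z0,z1])],
    .ref (nat_lit 201) k0 [(z1,[y4,z1,z0,z4]),(z1,[y3,z0,z1,z3]),(z1,[z2,z0,z0,y1]),(z1,[z6,y1,y1,y7,z1])],
    .ref (nat_lit 201) k0 [(z1,[y2,z1,z0,z2]),(z2,[y3,z0,z2,z3]),(z1,[z1]),(z1,[z3,y1,y1,y4,z1])],
    .ref (nat_lit 208) k5 [(z1,[z1]),(z1,[z0,z0,z0,z1]),(z1,[y1,y3,y3,y12,z3]),(z1,[z0,z1,z0,z2])],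
    .ref (nat_lit 209) k3 [(z1,[z4,z9,y8,z8,y8]),(z1,[y3,y6,z5,y6,z6]),(z1,[z1,z2,y2,z2,y2]),(z1,[z0,y1,z1,y1,z1])],
    .ref (nat_lit 210) k1 [(z1,[z2,z4,y2,z7,y4]),(z1,[z0,y1,z1,y1,z1]),(z1,[y1,y2,z1,y2,z2]),(z1,[z1,z2,y2,z2,y2])],
    .ref k199 k9 [(z1,[z2,z1,z1,z1,y1]),(z1,[z0,z0,z0,z1]),(z1,[y1,y1,z0,y1,z1]),(z1,[z0,z1])],.ref k186 k2 [(z2,[y1,
    y1,z1,y1,z1]),(z1,[z1,z1,z1,z4,y1]),(z1,[z1]),(z2,[y1,y1,y1,y1,z1])]],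
    .leafM k6 [k0,k1,k2,k3,k4,k5] [(z2,[y1,y2,y1,z2])] [],
    .lp [(nat_lit 32508652),(nat_lit 37407216),(nat_lit 36739230),(nat_lit 35849280),(nat_lit 35849280),
    (nat_lit 35180596)] [(nat_lit 2449282),(nat_lit 2449282),k0,k0,(nat_lit 333993),(nat_lit 333993),(nat_lit 778968),
    (nat_lit 778968),(nat_lit 778968),(nat_lit 778968),(nat_lit 1113310),(nat_lit 1113310)] k0 [[k0,k0,k0,k0,k0,k0,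
    (nat_lit 3562592),k0,k0,k0,k0,(nat_lit 667986)],[k0,k0,k0,k0,k0,k0,k0,k0,k0,k0,k0,(nat_lit 3117268)],[k0,k0,k0,k0,
    k0,k0,k0,k0,k0,(nat_lit 1113310)],[k0,k0,k0,k0,k0,(nat_lit 445324)],[k0,k0,(nat_lit 445324),k0,k0,k0,
    (nat_lit 2003958)],[k0,k0,k0,k0,k0,k0,k0,k0,k0,k0,(nat_lit 2449920),(nat_lit 2003958)],[k0,k0,k0,k0,k0,k0,k0,k0,
    (nat_lit 2003958),(nat_lit 2671944)],[k0,(nat_lit 3562592),k0,k0,k0,(nat_lit 2003958)],[k0,k0,k0,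
    (nat_lit 1113310),k0,k0,k0,(nat_lit 2671944),k0,k0,(nat_lit 4675902)],[k0,k0,k0,k0,k0,k0,k0,(nat_lit 2003958)],
    [(nat_lit 3117268),(nat_lit 667986),k0,k0,(nat_lit 2003958)],[k0,k0,k0,k0,(nat_lit 2449920),k0,k0,k0,k0,
    (nat_lit 4675902)]] (nat_lit 106877760) k5
    [[(k8,(nat_lit 29503064)),(k7,(nat_lit 31729046)),(k11,(nat_lit 33844624)),(k0,(nat_lit 35625920)),(k3,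
    (nat_lit 35625920)),(k4,(nat_lit 36627899))],[(k9,(nat_lit 30616374)),(k10,(nat_lit 33176638)),(k6,
    (nat_lit 34178966)),(k5,(nat_lit 34623941)),(k2,(nat_lit 34957934)),(k1,(nat_lit 35625920))],[(k10,
    (nat_lit 33176638)),(k1,(nat_lit 35625920)),(k9,(nat_lit 36628248)),(k5,(nat_lit 37073223)),(k2,
    (nat_lit 37407216)),(k6,(nat_lit 40190840))],[(k0,(nat_lit 34957934)),(k8,(nat_lit 35514938)),(k11,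
    (nat_lit 36293906)),(k4,(nat_lit 37073223)),(k7,(nat_lit 37073572)),(k3,(nat_lit 37407216))],[(k0,
    (nat_lit 34623941)),(k4,(nat_lit 36293906)),(k7,(nat_lit 36294255)),(k8,(nat_lit 36294255)),(k3,
    (nat_lit 37073223)),(k11,(nat_lit 37073223))],[(k9,(nat_lit 34290297)),(k5,(nat_lit 36293906)),(k6,
    (nat_lit 36294255)),(k1,(nat_lit 36627899)),(k2,(nat_lit 37073223)),(k10,(nat_lit 38409833))],[(k1,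
    (nat_lit 31729046)),(k10,(nat_lit 33510980)),(k9,(nat_lit 35849280)),(k5,(nat_lit 36294255)),(k2,
    (nat_lit 37073572)),(k6,(nat_lit 37853238))],[(k8,(nat_lit 33177336)),(k11,(nat_lit 33510980)),(k0,
    (nat_lit 34178966)),(k4,(nat_lit 36294255)),(k7,(nat_lit 37853238)),(k3,(nat_lit 40190840))],[(k0,
    (nat_lit 30616374)),(k4,(nat_lit 34290297)),(k7,(nat_lit 35849280)),(k3,(nat_lit 36628248)),(k8,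
    (nat_lit 37853238)),(k11,(nat_lit 38186882))],[(k1,(nat_lit 29503064)),(k6,(nat_lit 33177336)),(k2,
    (nat_lit 35514938)),(k10,(nat_lit 35514938)),(k5,(nat_lit 36294255)),(k9,(nat_lit 37853238))],[(k6,
    (nat_lit 33510980)),(k1,(nat_lit 33844624)),(k2,(nat_lit 36293906)),(k5,(nat_lit 37073223)),(k9,
    (nat_lit 38186882)),(k10,(nat_lit 39856498))],[(k0,(nat_lit 33176638)),(k3,(nat_lit 33176638)),(k7,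
    (nat_lit 33510980)),(k8,(nat_lit 35514938)),(k4,(nat_lit 38409833)),(k11,(nat_lit 39856498))]]
    [] k0
    [[k2,k1,k0,k0,k0,k0],[k2,k0,k0,k1,k0,k0],[k2,k0,k0,k0,k1,k0],[k2,k0,k0,k0,k0,k1],[k1,k1,k0,k0,k1,k0],[k1,k1,k0,k0,
    k0,k1],[k1,k0,k1,k0,k1,k0],[k1,k0,k1,k1,k0,k0],[k1,k0,k0,k2,k0,k0],[k1,k0,k0,k1,k1,k0],[k1,k0,k0,k1,k0,k1],[k1,k0,
    k0,k0,k2,k0],[k1,k0,k0,k0,k1,k1],[k0,k1,k0,k1,k0,k1],[k0,k0,k1,k1,k1,k0],[k0,k0,k0,k2,k0,k1],[k0,k0,k0,k1,k1,k1]]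
    [.ref k164 k4 [(z2,[y4,z3,z1,z2]),(z1,[y1,z1,z1]),(z2,[z2,y1,y1])],.ref k183 k10 [(z2,[z4,y1,z5,y6]),(z2,[z0,z1,
    y1,z2]),(z2,[y4,z1,y3,z6])],.ref k189 k10 [(z2,[z4,y1,z5,y6]),(z2,[z0,z1,y1,z2]),(z2,[y4,z1,y3,z6])],
    .ref k190 k2 [(z2,[y1,z0,z1]),(z2,[z0,z1,y1,z2]),(z2,[y1,y1])],.ref k194 k5 [(z1,[y1,z0,y1,z1]),(z2,[z4,y1,z1,
    y2]),(z1,[z0,z0,z1])],.ref k190 k2 [(z1,[y1,z0,z1]),(z2,[z0,z1,y1,z2]),(z2,[y2,y1,z1])],.ref k195 k0 [(z2,[y2,z1,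
    y1,z2]),(z1,[z0,z0,z1]),(z2,[z4,y1,z1,y2])],.ref k198 k0 [(z2,[y2,z1,y1,z2]),(z1,[z0,z0,z1]),(z2,[z4,y1,z1,y2])],
    .ref (nat_lit 203) k10 [(z2,[z4,z1,z7,y6]),(z2,[z0,z1,y1,z2]),(z2,[y4,y1,y3,z6])],.ref k164 k4 [(z2,[y4,z1,y1,
    z2]),(z2,[y2,z1,z1]),(z1,[z1])],.ref (nat_lit 206) k5 [(z2,[z4,y1,y3,y2]),(z1,[y1,z0,z0,z1]),(z1,[z0,z0,z1])],
    .ref (nat_lit 211) k4 [(z2,[y4,z1,y1,z2]),(z2,[y2,z1,z1]),(z1,[z1])],.ref (nat_lit 212) k2 [(z1,[z0,z0,z1]),(z2,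
    [z0,z1,y1,z2]),(z1,[y2,y1])],.ref k195 k0 [(z2,[z2,z1,y1]),(z1,[z0,z0,z1]),(z2,[y4,y1,z1,z2])],.ref k190 k2 [(z1,
    [z1,z0,z1,y1]),(z2,[z0,z1,y1,z2]),(z2,[z2,y1,z1,y2])],.ref k195 k0 [(z2,[z1,z1]),(z1,[z0,z0,z1]),(z2,[y2,y1,y1,
    z2])],.ref k190 k2 [(z2,[y2,y1,z1]),(z2,[z0,z1,y1,z2]),(z1,[y1,y1])]],
    .lp [k170,k148,k178,k152,k150,k160] [k4,k4,k15,k15,k0,k0,k13,k13,k14,k14,k9,k9] k0 [[k0,k0,k36,k0,k0,k0,k0,k18],[k0,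
    k0,k0,k0,k0,k0,k0,k0,k0,k0,k14,k6],[k0,k0,k0,k0,k2,k0,k0,k0,k6],[k0,k36],[k0,k0,k0,k0,k0,k0,k0,k30,k0,k0,k24],[k0,
    k0,k0,k2,k0,k0,k0,k18],[k0,k18,k0,k0,k18,k30],[k0,k0,k0,k0,k0,k0,k0,k0,k14,k10],[k0,k0,k0,k0,k0,k0,k10,k0,k0,k0,
    k0,k8],[k0,k0,k0,k6,k0,k0,k14],[k6,k0,k0,k0,k0,k0,k0,k0,k0,k8],[k14,k0,k0,k0,k0,k24]] (nat_lit 480) k5
    [[(k3,k145),(k4,k150),(k8,k160),(k7,k161),(k11,k173),(k0,k176)],[(k5,k138),(k6,k143),(k2,k159),(k9,k160),(k1,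
    k176),(k10,k179)],[(k1,k145),(k10,k148),(k6,k150),(k5,k163),(k9,k167),(k2,k184)],[(k7,k148),(k11,k148),(k8,k149),
    (k0,k159),(k4,k163),(k3,k184)],[(k0,k138),(k3,k163),(k7,k165),(k11,k169),(k8,k170),(k4,k180)],[(k6,k135),(k1,
    k150),(k2,k163),(k10,k169),(k5,k180),(k9,k182)],[(k6,k134),(k2,k148),(k1,k161),(k5,k165),(k10,k180),(k9,k181)],
    [(k7,k134),(k4,k135),(k0,k143),(k3,k150),(k8,k165),(k11,k166)],[(k8,k140),(k11,k141),(k0,k160),(k3,k167),(k7,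
    k181),(k4,k182)],[(k9,k140),(k10,k147),(k2,k149),(k1,k160),(k6,k165),(k5,k170)],[(k9,k141),(k2,k148),(k10,k160),
    (k6,k166),(k5,k169),(k1,k173)],[(k8,k147),(k3,k148),(k11,k160),(k4,k169),(k0,k179),(k7,k180)]]
    [] k0
    [[k2,k0,k1,k0,k0,k0],[k1,k1,k1,k0,k0,k0],[k1,k1,k0,k1,k0,k0],[k1,k1,k0,k0,k1,k0],[k1,k1,k0,k0,k0,k1],[k1,k0,k2,k0,
    k0,k0],[k1,k0,k1,k1,k0,k0],[k1,k0,k0,k2,k0,k0],[k1,k0,k0,k0,k2,k0],[k0,k1,k1,k1,k0,k0],[k0,k1,k0,k2,k0,k0],[k0,k1,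
    k0,k1,k0,k1],[k0,k1,k0,k0,k2,k0],[k0,k1,k0,k0,k1,k1],[k0,k1,k0,k0,k0,k2],[k0,k0,k1,k2,k0,k0],[k0,k0,k0,k3,k0,k0],
    [k0,k0,k0,k0,k3,k0],[k0,k0,k0,k0,k2,k1],[k0,k0,k0,k0,k1,k2]]
    [.ref k8 k6 [(z1,[y2,z4,z0,z1]),(z2,[z0,y2,y1,y1,z2]),(z1,[z1,y2]),(z2,[z2,y4,z1,y1])],.ref k8 k5 [(z2,[y4,z2,z1,
    y3,z2]),(z1,[z0,z0,z0,z1]),(z2,[z2,y2,y1,z1]),(z2,[z2,z0,y1,z1])],.ref k16 k0 [(z1,[z0,z1]),(z2,[z2,z0,z1,z1,y2]),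
    (z1,[z1,z0,z0,z1,y1]),(z2,[z0,y2,y1,y1,z2])],.ref k16 k0 [(z1,[z0,z1]),(z1,[y1,z1,z1]),(z2,[y2,z2,z1,z1]),(z2,[z0,
    y2,y1,y1,z2])],.ref k8 k6 [(z1,[y2,z2,z1]),(z2,[z0,y2,y1,y1,z2]),(z2,[z2,y2,y1,z1]),(z1,[z1,y1])],.ref k8 k5 [(z2,
    [y4,z2,y1,y1,z2]),(z1,[z0,z0,z0,z1]),(z1,[z1,y1]),(z1,[z1])],.ref k16 k0 [(z1,[z0,z1]),(z1,[z1,z0,z1,z0,y1]),(z2,
    [z2,z0,z1,z1,y2]),(z2,[z0,y2,y1,y1,z2])],.ref k92 k10 [(z2,[z0,z0,z1,y1]),(z1,[y1,z2,y1,y1,z2]),(z1,[y1,y1,y1,y1,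
    z2]),(z1,[z0,z0,z0,z1])],.ref (nat_lit 201) k3 [(z1,[z1,z0,y2]),(z1,[z1,y1,y2]),(z1,[z0,z0,z1]),(z2,[y4,z2,z7,y1,
    z2])],.ref k16 k0 [(z1,[z0,z1]),(z2,[z1,z1,z1,z0,y1]),(z2,[z1,z1,z0,z1,y1]),(z2,[z0,y2,y1,y1,z2])],
    .ref (nat_lit 201) k2 [(z1,[z1,y2,z1,z1,y2]),(z2,[z2,y4,z1,z3,y4]),(z2,[z0,z2,y1,y1,z2]),(z1,[y2,z4,y1,y2,z4])],
    .ref k16 k0 [(z1,[z0,z1]),(z2,[z2,z2,z1,z1,y2]),(z1,[z1,z1,z0,z1,y1]),(z2,[z0,y2,y1,y1,z2])],.ref k92 k0 [(z1,[z0,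
    z1]),(z1,[y1,z0,z2]),(z2,[y2,z0,z1,z3]),(z2,[z0,y2,y1,y1,z2])],.ref k16 k0 [(z1,[z0,z1]),(z1,[y1,z0,z1]),(z2,[y2,
    z0,z1,z1]),(z2,[z0,y2,y1,y1,z2])],.ref k8 k6 [(z1,[y2,z0,z1]),(z2,[z0,y2,y1,y1,z2]),(z2,[z2,z0,y1,z1]),(z1,[z1])],
    .ref (nat_lit 201) k2 [(z2,[z2,y4,z3,z1,y4]),(z1,[z1,y2,z1,z1,y2]),(z2,[z0,z2,y1,y1,z2]),(z1,[y2,z4,y2,y1,z4])],
    .ref k92 k10 [(z2,[z0,z0,z1,y1]),(z4,[y2,z6,y3,y3,z6]),(z4,[y2,y6,y3,y3,z6]),(z1,[z0,z0,z0,z1])],.ref k92 k0 [(z1,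
    [z0,z1]),(z2,[y1,z0,z3]),(z2,[y1,z0,z0,z3]),(z2,[z0,y2,y1,y1,z2])],.ref (nat_lit 201) k3 [(z1,[z1,z1,y2]),(z1,[z1,
    z0,y2]),(z1,[z0,z0,z1]),(z2,[y4,y2,z7,y1,z2])],.ref k16 k0 [(z1,[z0,z1]),(z2,[y1,z0,z1]),(z2,[y1,z0,z0,z1]),(z2,
    [z0,y2,y1,y1,z2])]],
    .leafM k6 [k0,k1,k2,k3,k4,k5] [(z2,[y1,y1,y2,z2])] [],
    .lp [(nat_lit 296),(nat_lit 322),(nat_lit 306),(nat_lit 300),(nat_lit 356),(nat_lit 338)] [k30,k30,k17,k17,k25,k25,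
    k28,k28,k0,k0,k9,k9] k0 [[k0,k0,k16,k0,k0,k0,k0,k2,k0,k0,k30],[k0,k0,k6,k0,k0,k0,k0,k0,k0,k0,k2],[k0,k0,k0,k0,k0,
    k54,k0,k0,k0,k18],[k6,k16],[k0,k0,k0,k54],[k0,k0,k0,k0,k0,k0,k0,k0,k0,k0,k0,k2],[k0,k2],[k0,k0,k0,k0,k0,k0,k0,k0,
    k8,k24],[k0,k0,k0,k18,k0,k0,k24,k0,k0,k0,k0,k58],[k0,k0,k0,k0,k0,k0,k8,k0,k0,k0,k0,k18],[k0,k0,k0,k0,k2,k0,k0,k0,
    k18,k58],[k2,k30]] (nat_lit 960) k5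
    [[(k0,(nat_lit 266)),(k7,(nat_lit 298)),(k4,(nat_lit 303)),(k3,(nat_lit 307)),(k8,(nat_lit 344)),(k11,
    (nat_lit 375))],[(k1,(nat_lit 266)),(k5,(nat_lit 285)),(k6,(nat_lit 296)),(k2,(nat_lit 315)),(k10,(nat_lit 319)),
    (k9,(nat_lit 326))],[(k1,(nat_lit 307)),(k5,(nat_lit 308)),(k6,(nat_lit 311)),(k2,(nat_lit 338)),(k9,
    (nat_lit 341)),(k10,(nat_lit 360))],[(k4,(nat_lit 260)),(k7,(nat_lit 311)),(k0,(nat_lit 315)),(k8,(nat_lit 321)),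
    (k11,(nat_lit 330)),(k3,(nat_lit 338))],[(k0,(nat_lit 285)),(k4,(nat_lit 306)),(k3,(nat_lit 308)),(k8,
    (nat_lit 331)),(k11,(nat_lit 340)),(k7,(nat_lit 357))],[(k2,(nat_lit 260)),(k1,(nat_lit 303)),(k6,(nat_lit 303)),
    (k5,(nat_lit 306)),(k10,(nat_lit 322)),(k9,(nat_lit 331))],[(k1,(nat_lit 298)),(k6,(nat_lit 300)),(k2,
    (nat_lit 311)),(k10,(nat_lit 317)),(k9,(nat_lit 328)),(k5,(nat_lit 357))],[(k0,(nat_lit 296)),(k7,(nat_lit 300)),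
    (k4,(nat_lit 303)),(k3,(nat_lit 311)),(k8,(nat_lit 336)),(k11,(nat_lit 343))],[(k0,(nat_lit 326)),(k7,
    (nat_lit 328)),(k4,(nat_lit 331)),(k8,(nat_lit 332)),(k11,(nat_lit 339)),(k3,(nat_lit 341))],[(k10,(nat_lit 289)),
    (k2,(nat_lit 321)),(k5,(nat_lit 331)),(k9,(nat_lit 332)),(k6,(nat_lit 336)),(k1,(nat_lit 344))],[(k10,
    (nat_lit 320)),(k2,(nat_lit 330)),(k9,(nat_lit 339)),(k5,(nat_lit 340)),(k6,(nat_lit 343)),(k1,(nat_lit 375))],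
    [(k8,(nat_lit 289)),(k7,(nat_lit 317)),(k0,(nat_lit 319)),(k11,(nat_lit 320)),(k4,(nat_lit 322)),(k3,
    (nat_lit 360))]]
    [] k0
    [[k3,k0,k0,k0,k0,k0],[k2,k1,k0,k0,k0,k0],[k2,k0,k1,k0,k0,k0],[k2,k0,k0,k1,k0,k0],[k2,k0,k0,k0,k1,k0],[k1,k1,k1,k0,
    k0,k0],[k1,k1,k0,k1,k0,k0],[k1,k1,k0,k0,k1,k0],[k1,k1,k0,k0,k0,k1],[k1,k0,k2,k0,k0,k0],[k1,k0,k1,k1,k0,k0],[k1,k0,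
    k0,k2,k0,k0],[k0,k2,k1,k0,k0,k0],[k0,k1,k2,k0,k0,k0],[k0,k1,k1,k1,k0,k0],[k0,k1,k0,k2,k0,k0],[k0,k1,k0,k1,k0,k1],
    [k0,k1,k1,k0,k1,k0],[k0,k0,k3,k0,k0,k0],[k0,k0,k0,k3,k0,k0],[k0,k0,k0,k0,k1,k2]]
    [.ref k6 k0 [(z1,[z1]),(z2,[y1,z3,z6]),(z5,[z2,y6,z0,z15]),(z5,[y1,z3,z0,z0,z15]),(z5,[y4,y3,y15,y15,y15,z15])],
    .ref k6 k0 [(z1,[z2,y1,y2]),(z1,[y1,z2,z4]),(z5,[z4,y8,y4,z15]),(z5,[y2,z4,z2,z0,z15]),(z5,[y8,z1,y7,y15,y15,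
    z15])],.ref k6 k0 [(z4,[z5,z2,z0,y5]),(z8,[y5,z10,z24,z5]),(z2,[z1,y2,z0,z5]),(z4,[y1,z2,z0,z1,z12]),(z1,[y1,y1,
    y3,y2,y3,z3])],.ref k6 k0 [(z3,[z5,y1,z0,z0,y5]),(z6,[y5,z10,z18,z0,z5]),(z3,[z2,y4,z0,z9,y2]),(z3,[y1,z2,z0,z0,
    z10]),(z3,[y4,y1,y9,y9,y5,z9])],.ref k6 k0 [(z2,[z5,z1,z5,z5,z5,y5]),(z4,[y5,z5,z7,y5,y5,z5]),(z1,[z1,y1,z1,z4,z1,
    y1]),(z2,[y1,z1,y1,y1,z5,z1]),(z1,[y2,y1,y5,y5,y5,z5])],.ref k6 k0 [(z3,[z10,y1,y10,y10]),(z3,[y5,z5,z14,z5]),(z3,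
    [z4,y4,y4,z5]),(z3,[y2,z2,z2,z2,z9]),(z3,[y8,y1,y1,y1,y9,z9])],.ref k6 k0 [(z1,[z10,y7,y10,z0,y10]),(z1,[y5,z5,z8,
    z0,z5]),(z1,[z4,y4,y4,z3,y4]),(z1,[y2,z2,z2,z0,z5]),(z1,[y8,z5,z5,y3,z5,z3])],.ref k6 k0 [(z1,[y10,z3,z0,y10,y10,
    z10]),(z1,[z5,z0,z3,z5,z5,y5]),(z1,[y4,z0,z0,y1,y4,z4]),(z1,[z2,z0,z0,z2,z5,y2]),(z1,[z8,y3,y3,z5,z5,y5])],
    .ref k6 k0 [(z1,[z5,y2,y5]),(z2,[y5,z5,z11]),(z1,[z2,y2,y2,z3]),(z1,[y1,z1,z1,z0,z3]),(z1,[y4,z1,z1,y3,y3,z3])],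
    .ref k6 k0 [(z3,[z5,z4,z0,y10]),(z6,[y5,z5,z18,z10]),(z3,[z2,y2,z0,z5]),(z3,[y1,z1,z0,z2,z9]),(z3,[y4,y5,y9,y1,y9,
    z9])],.ref k6 k0 [(z2,[z5,z1,z0,y5,y5]),(z4,[y5,z5,z12,z5,z5]),(z1,[z1,y1,z0,z2,y1]),(z2,[y1,z1,z0,z1,z7]),(z1,
    [y2,y1,y3,y1,y1,z3])],.ref k6 k0 [(z1,[z5,y2,z0,z0,y10]),(z2,[y5,z5,z6,z0,z10]),(z1,[z2,y2,z0,z3,y4]),(z1,[y1,z1,
    z0,z0,z5]),(z1,[y4,z1,y3,y3,z5,z3])],.ref k6 k0 [(z1,[y5,z3,z10,z5]),(z2,[z5,z0,y4,y5]),(z1,[y2,z0,z4,z5]),(z1,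
    [z1,z0,y2,y1,z3]),(z1,[z4,y3,y11,y7,y3,z3])],.ref k6 k0 [(z1,[z10,z3,y10,y20]),(z1,[y5,z0,z8,z10]),(z1,[z4,z0,y4,
    y5]),(z1,[y2,z0,z2,z4,z3]),(z1,[y8,y3,z5,z13,y3,z3])],.ref k6 k0 [(z1,[y10,z3,z10,z10,z10]),(z1,[z5,z0,y2,y5,y5]),
    (z1,[y4,z0,z4,z7,z4]),(z1,[z2,z0,y2,y2,z1]),(z1,[z8,y3,y11,y11,y11,z3])],.ref k6 k0 [(z3,[y10,z9,z10,z0,z20]),(z3,
    [z5,z0,z4,z0,y10]),(z3,[y4,z0,z4,z9,z8]),(z3,[z2,z0,y2,z0,z5]),(z3,[z8,y9,y17,y9,y25,z9])],.ref k6 k0 [(z1,[y5,z3,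
    z5,z0,z5]),(z2,[z5,z0,z1,z0,y5]),(z1,[y2,z0,z2,z3,z2]),(z1,[z1,z0,y1,z0,z2]),(z1,[z4,y3,y7,y3,y7,z3])],
    .ref k6 k0 [(z3,[y10,y1,z0,z0,y10,z10]),(z3,[z5,z5,z9,z0,z5,y5]),(z3,[y4,y4,z0,z9,y4,z4]),(z3,[z2,z2,z0,z0,z11,
    y2]),(z3,[z8,y1,y9,y9,y1,z1])],.ref k6 k0 [(z2,[z5,z6,z0,y15]),(z4,[y5,z0,z12,z15]),(z1,[z1]),(z2,[y1,z0,z0,z3,
    z6]),(z1,[y2,y3,y3,z3,y3,z3])],.ref k6 k0 [(z1,[y5,z3,z0,z0,z15]),(z2,[z5,z0,z6,z0,y15]),(z1,[y2,z0,z0,z3,z6]),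
    (z1,[z1]),(z1,[z4,y3,y3,y3,y15,z3])],.ref k6 k0 [(z1,[y5,y2,y5,y5,y5,z5]),(z2,[z5,z5,z11,z5,z5,y5]),(z1,[y2,y2,y2,
    z1,y2,z2]),(z1,[z1,z1,z1,z1,z4,y1]),(z1,[z4,z1,z1,z1,z1,y1])]],
    .lp [(nat_lit 304),(nat_lit 332),(nat_lit 334),(nat_lit 330),(nat_lit 296),(nat_lit 322)] [k15,k15,k1,k1,k0,k0,k2,k2,
    k19,k19,k6,k6] k0 [[k0,k0,k0,k8],[k0,k0,k0,k0,k0,k0,k0,k0,k0,k0,k0,k30],[k0,k8,k0,k0,k0,k0,k0,k0,k32],[k0,k0,k0,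
    k0,k2],[k0,k0,k0,k0,k0,k0,k0,k24,k0,k0,k12,k4],[k0,k0,k2,k0,k0,k0,k0,k8],[k0,k0,k0,k0,k8,k24],[k0,k0,k0,k0,k0,k0,
    k0,k0,k20,k6],[k0,k0,k0,k0,k0,k0,k6,k0,k0,k0,k46],[k0,k0,k0,k32,k0,k0,k20],[k30,k0,k0,k0,k0,k4],[k0,k0,k0,k0,k0,
    k12,k0,k0,k0,k46]] (nat_lit 960) k5
    [[(k8,(nat_lit 254)),(k4,(nat_lit 307)),(k11,(nat_lit 313)),(k3,(nat_lit 318)),(k7,(nat_lit 321)),(k0,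
    (nat_lit 334))],[(k9,(nat_lit 300)),(k2,(nat_lit 310)),(k10,(nat_lit 313)),(k6,(nat_lit 317)),(k5,(nat_lit 319)),
    (k1,(nat_lit 334))],[(k10,(nat_lit 297)),(k9,(nat_lit 314)),(k1,(nat_lit 318)),(k6,(nat_lit 331)),(k2,
    (nat_lit 332)),(k5,(nat_lit 341))],[(k11,(nat_lit 295)),(k0,(nat_lit 310)),(k8,(nat_lit 314)),(k7,(nat_lit 331)),
    (k3,(nat_lit 332)),(k4,(nat_lit 335))],[(k0,(nat_lit 319)),(k11,(nat_lit 328)),(k7,(nat_lit 330)),(k4,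
    (nat_lit 334)),(k3,(nat_lit 341)),(k8,(nat_lit 347))],[(k1,(nat_lit 307)),(k6,(nat_lit 308)),(k9,(nat_lit 323)),
    (k10,(nat_lit 324)),(k5,(nat_lit 334)),(k2,(nat_lit 335))],[(k1,(nat_lit 321)),(k6,(nat_lit 322)),(k5,
    (nat_lit 330)),(k2,(nat_lit 331)),(k9,(nat_lit 337)),(k10,(nat_lit 338))],[(k4,(nat_lit 308)),(k0,(nat_lit 317)),
    (k7,(nat_lit 322)),(k3,(nat_lit 331)),(k11,(nat_lit 332)),(k8,(nat_lit 333))],[(k11,(nat_lit 289)),(k8,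
    (nat_lit 290)),(k0,(nat_lit 300)),(k3,(nat_lit 314)),(k4,(nat_lit 323)),(k7,(nat_lit 337))],[(k1,(nat_lit 254)),
    (k9,(nat_lit 290)),(k10,(nat_lit 309)),(k2,(nat_lit 314)),(k6,(nat_lit 333)),(k5,(nat_lit 347))],[(k9,
    (nat_lit 289)),(k2,(nat_lit 295)),(k1,(nat_lit 313)),(k5,(nat_lit 328)),(k6,(nat_lit 332)),(k10,(nat_lit 368))],
    [(k3,(nat_lit 297)),(k8,(nat_lit 309)),(k0,(nat_lit 313)),(k4,(nat_lit 324)),(k7,(nat_lit 338)),(k11,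
    (nat_lit 368))]]
    [] k0
    [[k2,k0,k0,k0,k1,k0],[k1,k1,k0,k0,k1,k0],[k1,k1,k0,k0,k0,k1],[k1,k1,k1,k0,k0,k0],[k1,k0,k1,k1,k0,k0],[k1,k0,k1,k0,
    k1,k0],[k1,k0,k1,k0,k0,k1],[k1,k0,k0,k1,k1,k0],[k1,k0,k0,k0,k2,k0],[k1,k0,k0,k0,k1,k1],[k0,k2,k0,k0,k0,k1],[k0,k1,
    k0,k0,k2,k0],[k0,k1,k0,k0,k1,k1],[k0,k0,k0,k0,k3,k0],[k0,k0,k0,k0,k2,k1]]
    [.ref k6 k0 [(z4,[z5,z7,z5,z5,z5,y5]),(z4,[y1,z1,z11,y1,y1,z1]),(z8,[y5,z5,y5,z19,y5,z5]),(z1,[y1,z1,y1,y1,z2,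
    z1]),(z2,[z1,y7,y5,y5,y5,z5])],.ref k6 k0 [(z2,[z5,z6,z0,z5,z5,y5]),(z2,[y1,z0,z6,y1,y1,z1]),(z4,[y5,z0,z0,z7,y5,
    z5]),(z1,[y2,z0,z0,y2,z1,z2]),(z1,[z1,y3,y3,y2,y2,z2])],.ref k6 k0 [(z3,[z10,y1,y10]),(z3,[y2,z2,z11]),(z3,[y5,z5,
    z5,z9]),(z3,[y8,z8,z8,z0,z9]),(z3,[z4,y13,y13,y9,y9,z9])],.ref k6 k0 [(z1,[z10,y7,y10,y10]),(z1,[y2,z2,z5,z2]),
    (z1,[y5,z5,z5,z8]),(z1,[y8,z8,z8,z8,z3]),(z1,[z4,y7,y7,y7,y3,z3])],.ref k6 k0 [(z1,[y10,z13,z0,z10,z10]),(z1,[z2,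
    y2,z3,y2,y2]),(z1,[z5,y5,z0,y2,y5]),(z1,[z8,y8,z0,y8,y5]),(z1,[y4,z1,y3,z1,z1,z3])],.ref k6 k0 [(z3,[z10,z9,z10,
    z0,z10,y10]),(z3,[y2,z0,z7,z0,y2,z2]),(z3,[y5,z0,y5,z9,y5,z5]),(z3,[y8,z0,y8,z0,z1,z8]),(z3,[z4,y9,y5,y9,y5,z5])],
    .ref k6 k0 [(z1,[z5,y2,z0,y5]),(z1,[y1,z1,z3,z1]),(z2,[y5,z5,z0,z11]),(z1,[y4,z4,z0,z4,z3]),(z1,[z2,y5,y3,y5,y3,
    z3])],.ref k6 k0 [(z1,[z5,z3,z5,z5,z0,y5]),(z1,[y1,z0,z2,y1,z0,z1]),(z2,[y5,z0,y5,z1,z0,z5]),(z1,[y4,z0,y4,y4,z3,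
    z4]),(z1,[z2,y3,y1,y1,y3,z1])],.ref k6 k0 [(z3,[z5,z14,z10,z10,z10,y10]),(z3,[y1,y1,z7,y2,y2,z2]),(z6,[y5,y5,y10,
    z8,y10,z10]),(z3,[y4,y4,y8,y8,z1,z8]),(z3,[z2,y7,y5,y5,y5,z5])],.ref k6 k0 [(z1,[z2,z3,z2,z2,z2,y2]),(z5,[y2,z0,
    z13,y2,y2,z2]),(z1,[y1,z0,y1,z2,y1,z1]),(z5,[y8,z0,y8,y8,z7,z8]),(z5,[z4,y15,y11,y11,y11,z11])],.ref k6 k0 [(z1,
    [y10,z3,z20]),(z1,[z2,z0,y1]),(z1,[z5,z0,y10,z3]),(z1,[z8,z0,y16,z0,z3]),(z1,[y4,y3,z5,y3,y3,z3])],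
    .ref k6 k0 [(z1,[z5,z13,z5,z10,z10,y10]),(z1,[y1,y2,z2,y2,y2,z2]),(z2,[y5,y10,y5,y4,y10,z10]),(z1,[y4,y8,y4,y8,y5,
    z8]),(z1,[z2,z1,y1,z1,z1,y1])],.ref k6 k0 [(z1,[z10,z13,z0,z10,z10,y10]),(z1,[y2,y2,z3,y2,y2,z2]),(z1,[y5,y5,z0,
    y2,y5,z5]),(z1,[y8,y8,z0,y8,y5,z8]),(z1,[z4,z1,y3,z1,z1,y1])],.ref k6 k0 [(z2,[z5,z21,z15,z15,z15,y15]),(z2,[y1,
    y3,z3,y3,y3,z3]),(z4,[y5,y15,y15,y3,y15,z15]),(z1,[y2,y6,y6,y6,y3,z6]),(z1,[z1])],.ref k6 k0 [(z3,[z10,z29,z20,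
    z20,z20,y20]),(z3,[y2,y4,z5,y4,y4,z4]),(z3,[y5,y10,y10,y1,y10,z10]),(z3,[y8,y16,y16,y16,y7,z16]),(z3,[z4,y1,y1,y1,
    y1,z1])]]]

/-- the nodes with numbers from 182 -/
noncomputable def cT6_2_n4 : List TN :=
  cT6_2_n4_0 ++ (cT6_2_n4_1 ++ cT6_2_n4_2)

theorem cT6_2_k4 : allI (chkT 6 cT6_2_w tt6 cT6_2_s (blkF [] cT6_2_D)) cT6_2_n4 182 = true := by
  decide +kernel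

end Pool.Agent.Lib_MP_fa6e45
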