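import Pool.Agent.Lib_MP_fa6e45.CG6_1d

/-!
MP_fa6e45_co, stage 5: certificates (captain, generated by a program).
-/

namespace Pool.Agent.Lib_MP_fa6e45

noncomputable def cT6_2_n5_0 : List TN :=
  [.lp [k158,k154,k166,k162,k158,k160] [k4,k4,k6,k6,k0,k0,k2,k2,k4,k4,k3,k3] k0 [[k0,k0,k0,k0,k0,k0,k14,k0,k0,k0,k0,k14],
    [k0,k0,k0,k0,k0,k0,k0,k0,k0,k0,k0,k2],[k0,k0,k0,k0,k0,k0,k0,k0,k0,k10],[k0,k0,k0,k0,k6,k6],[k0,k0,k6,k0,k0,k0,k0,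
    k2],[k0,k0,k6],[k0,k0,k0,k0,k0,k2],[k0,k14],[k0,k0,k0,k10,k0,k0,k0,k0,k0,k0,k20],[k0,k0,k0,k0,k0,k0,k0,k0,k0,k0,
    k4],[k2,k14],[k0,k0,k0,k0,k0,k0,k0,k0,k4,k20]] (nat_lit 480) k5
    [[(k8,k138),(k11,k155),(k0,k160),(k7,k160),(k4,k162),(k3,k170)],[(k9,k144),(k10,k145),(k2,k156),(k1,k160),(k6,
    k160),(k5,k162)],[(k2,k154),(k10,k155),(k9,k156),(k5,k160),(k1,k170),(k6,k172)],[(k8,k146),(k3,k154),(k0,k156),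
    (k11,k157),(k7,k164),(k4,k166)],[(k7,k158),(k3,k160),(k4,k160),(k0,k162),(k8,k162),(k11,k173)],[(k5,k160),(k1,
    k162),(k6,k162),(k9,k162),(k10,k163),(k2,k166)],[(k5,k158),(k1,k160),(k10,k161),(k6,k162),(k9,k162),(k2,k164)],
    [(k0,k160),(k8,k160),(k11,k161),(k4,k162),(k7,k162),(k3,k172)],[(k0,k144),(k3,k156),(k8,k158),(k11,k159),(k4,
    k162),(k7,k162)],[(k1,k138),(k2,k146),(k9,k158),(k6,k160),(k5,k162),(k10,k163)],[(k1,k155),(k2,k157),(k9,k159),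
    (k6,k161),(k5,k173),(k10,k180)],[(k0,k145),(k3,k155),(k7,k161),(k4,k163),(k8,k163),(k11,k180)]]
    [] k0
    [[k2,k0,k0,k0,k1,k0],[k2,k0,k0,k0,k0,k1],[k1,k1,k0,k0,k1,k0],[k1,k1,k0,k0,k0,k1],[k1,k1,k1,k0,k0,k0],[k1,k0,k1,k0,
    k1,k0],[k1,k0,k0,k1,k1,k0],[k1,k0,k0,k1,k0,k1],[k1,k0,k0,k0,k2,k0],[k1,k0,k0,k0,k1,k1],[k0,k3,k0,k0,k0,k0],[k0,k2,
    k0,k0,k1,k0],[k0,k2,k0,k0,k0,k1],[k0,k1,k1,k0,k1,k0],[k0,k1,k0,k0,k2,k0],[k0,k1,k0,k0,k1,k1],[k0,k0,k0,k0,k3,k0]]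
    [.ref (nat_lit 205) k10 [(z1,[z2,y4,z1,y10]),(z1,[z0,z1,z0,z2]),(z1,[y1,z2,z0,z5]),(z1,[z1,y2,z0,y4])],
    .ref (nat_lit 216) k5 [(z1,[z2,y5,y1,y11,z1]),(z1,[y1,z2,z0,z5]),(z1,[z1,y2,z0,y4]),(z1,[z0,z1,z0,z2])],
    .ref k29 k0 [(z1,[z2,z1,y2]),(z1,[z0,z0,z1]),(z1,[y1,z1,z1,z3]),(z1,[y2,y1,y1,y3,z3])],.ref k44 k10 [(z1,[z2,y2,
    y1,y4]),(z1,[z0,z1,z0,z2]),(z1,[y1,z1,z1,z2]),(z1,[z1,y1,y1,y1])],.ref k8 k0 [(z1,[z2,y1,y2,y2]),(z1,[z0,z0,z1]),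
    (z1,[y1,z1,z1,z2]),(z1,[y2,z1,z1,z1,z1])],.ref k44 k10 [(z1,[z2,y2,z1,y6]),(z1,[z0,z1,z0,z2]),(z1,[y1,z1,z0,z3]),
    (z1,[z1,y1,z0,y2])],.ref k9 k5 [(z1,[z2,y1,z1,y3,y1]),(z1,[y1,z0,y1,z1,z1]),(z1,[z1,z0,z1,z0,y1]),(z1,[z0,z1,z0,
    z2])],.ref k38 k0 [(z1,[z2,z3,z2,z2,y2]),(z1,[y2,z0,z1,y2,z2]),(z1,[y1,z0,y1,z2,z1]),(z1,[z0,y1,y1,y1,z1])],
    .ref k44 k10 [(z1,[z1,y1,z1,y4]),(z1,[z0,z1,z0,z2]),(z2,[y1,z1,z0,z4]),(z2,[z1,y1,z0,y2])],.ref k125 k3 [(z1,[z2,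
    z1]),(z1,[z0,z0,z1]),(z1,[z2,y2,y3]),(z1,[y2,y1,z0,y3,z3])],.ref k38 k0 [(z1,[y1,z3,z3]),(z1,[z1]),(z2,[z1,z0,y3,
    z6]),(z1,[z0,y1,y1,y1,z1])],.ref (nat_lit 217) k0 [(z1,[z2,z1,y4]),(z1,[z0,z0,z1]),(z1,[y1,z0,z2,z1]),(z1,[y2,y1,
    z3,y1,z1])],.ref k38 k0 [(z1,[y2,z3,z4]),(z1,[z2,z0,y1]),(z1,[z1,z0,y2,z3]),(z1,[z0,y1,y1,y1,z1])],
    .ref k38 k0 [(z1,[y2,z3,z2,z2]),(z1,[z2,z0,z1,y2]),(z1,[z1,z0,y1,z2]),(z1,[z0,y1,y1,y1,z1])],.ref k8 k0 [(z1,[z1,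
    z1,y1]),(z1,[z0,z0,z1]),(z2,[y1,z0,z1,z2]),(z1,[y1,y1,z0,y1,z1])],.ref k8 k0 [(z1,[z2,z1,y2]),(z1,[z0,z0,z1]),(z1,
    [y1,z0,z1,z1]),(z1,[y2,y1,z1,y1,z1])],.ref k29 k0 [(z1,[z2,z3]),(z1,[z0,z0,z1]),(z1,[y1,z0,z0,z3]),(z1,[y2,y3,y3,
    y3,z3])]],
    .leafM k1 [k0,k1,k2,k3,k4,k5] [(z1,[y1,z0,y1,z1]),(z1,[z1,z0,z1])] [],
    .lp [k154,k158,k162,k158,k164,k162] [k5,k5,k3,k3,k1,k1,k3,k3,k0,k0,k1,k1] k0 [[k0,k0,k2,k0,k0,k0,k0,k18],[k0,k0,k18,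
    k0,k0,k0,k0,k0,k0,k0,k4],[k0,k0,k0,k0,k18,k2],[k18,k2],[k0,k0,k0,k2],[k0,k0,k0,k18,k0,k0,k0,k0,k0,k0,k16],[k0,
    k18],[k0,k0,k0,k0,k0,k0,k0,k0,k0,k2],[k0,k0,k0,k0,k0,k0,k2,k0,k0,k0,k0,k6],[k0,k0,k0,k0,k0,k0,k0,k0,k0,k0,k0,k2],
    [k0,k0,k0,k0,k0,k0,k0,k0,k2,k6],[k4,k0,k0,k0,k16]] (nat_lit 480) k5
    [[(k7,k140),(k3,k152),(k0,k154),(k4,k158),(k8,k161),(k11,k164)],[(k6,k138),(k1,k154),(k5,k156),(k9,k159),(k10,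
    k162),(k2,k174)],[(k5,k142),(k1,k152),(k6,k158),(k2,k160),(k10,k160),(k9,k179)],[(k7,k140),(k4,k158),(k3,k160),
    (k11,k160),(k8,k161),(k0,k174)],[(k3,k142),(k0,k156),(k7,k162),(k11,k162),(k8,k163),(k4,k180)],[(k1,k158),(k2,
    k158),(k6,k160),(k9,k163),(k10,k178),(k5,k180)],[(k1,k140),(k2,k140),(k6,k158),(k10,k160),(k9,k161),(k5,k162)],
    [(k0,k138),(k3,k158),(k7,k158),(k4,k160),(k8,k161),(k11,k162)],[(k0,k159),(k7,k161),(k8,k162),(k4,k163),(k11,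
    k163),(k3,k179)],[(k10,k157),(k1,k161),(k2,k161),(k6,k161),(k9,k162),(k5,k163)],[(k2,k160),(k10,k160),(k5,k162),
    (k6,k162),(k9,k163),(k1,k164)],[(k8,k157),(k3,k160),(k7,k160),(k11,k160),(k0,k162),(k4,k178)]]
    [] k0
    [[k3,k0,k0,k0,k0,k0],[k2,k0,k1,k0,k0,k0],[k2,k0,k0,k1,k0,k0],[k2,k0,k0,k0,k1,k0],[k1,k1,k1,k0,k0,k0],[k1,k1,k0,k1,
    k0,k0],[k1,k1,k0,k0,k1,k0],[k1,k1,k0,k0,k0,k1],[k1,k0,k1,k1,k0,k0],[k1,k0,k0,k2,k0,k0],[k1,k0,k0,k1,k1,k0],[k1,k0,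
    k0,k1,k0,k1],[k0,k2,k1,k0,k0,k0],[k0,k2,k0,k1,k0,k0],[k0,k1,k1,k1,k0,k0],[k0,k1,k1,k0,k1,k0],[k0,k1,k0,k2,k0,k0],
    [k0,k1,k0,k1,k0,k1],[k0,k0,k0,k3,k0,k0]]
    [.ref k6 k0 [(z1,[z1]),(z1,[z0,z0,z1]),(z2,[y1,z3,z0,z6]),(z4,[y3,z9,z0,z0,z4]),(z4,[z1,y3])],.ref k6 k0 [(z1,[z2,
    y1,z0,y2]),(z1,[z0,z0,z1]),(z1,[y1,z2,z0,z4]),(z2,[y3,z6,z0,z3,z2]),(z2,[z1,y2,z0,y1])],.ref k6 k0 [(z5,[z12,y9,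
    z0,z0,y4]),(z1,[z0,z0,z1]),(z5,[y6,z12,z0,z15,z2]),(z5,[y9,z18,z0,z0,z8]),(z5,[z3,y6,z0,z0,y1])],.ref k6 k0 [(z3,
    [z4,z1]),(z1,[z0,z0,z1]),(z3,[y2,z4,z0,z9]),(z1,[y1,z2,z0,z0,z1]),(z3,[z1,y2])],.ref k6 k0 [(z1,[z6,y3,y2,y6]),
    (z1,[z0,z0,z1]),(z1,[y3,z3,z1,z6]),(z2,[y9,z9,z3,z9,z2]),(z2,[z3,y3,y1,y3])],.ref k6 k0 [(z1,[z12,y9,y4,z0,y4]),
    (z1,[z0,z0,z1]),(z1,[y6,z6,z2,z3,z2]),(z1,[y9,z9,z3,z0,z4]),(z1,[z3,y3,y1,z0,y1])],.ref k6 k0 [(z5,[z12,z3,y4]),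
    (z1,[z0,z0,z1]),(z5,[y6,z6,z2,z15]),(z5,[y9,z9,z3,z0,z5]),(z5,[z3,y3,y1])],.ref k6 k0 [(z1,[z3,z3,z0,z3,z1,y3]),
    (z1,[z0,z0,z1]),(z2,[y3,z0,z0,z3,y1,z3]),(z4,[y9,z0,z0,y9,z1,z9]),(z4,[z3,z0,z0,z3,z1,y3])],.ref k6 k0 [(z1,[y12,
    z15,z0,z12,z4]),(z1,[z0,z0,z1]),(z1,[z6,y6,z0,y3,y2]),(z1,[z9,y9,z0,y9,y2]),(z1,[y3,z3,z0,z3,z1])],
    .ref k6 k0 [(z1,[y6,z9,z0,z0,z4]),(z1,[z0,z0,z1]),(z1,[z3,y3,z0,z3,y2]),(z2,[z9,y9,z0,z0,y4]),(z2,[y3,z3,z0,z0,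
    z2])],.ref k6 k0 [(z1,[z6,y3,z0,z0,y2]),(z1,[z0,z0,z1]),(z1,[y3,z3,z0,z3,z1]),(z2,[y9,z9,z0,z0,z5]),(z2,[z3,y3,z0,
    z0,y1])],.ref k6 k0 [(z1,[z12,z3,z4,z12,z0,y12]),(z1,[z0,z0,z1]),(z1,[y6,z0,y2,y3,z0,z6]),(z1,[y9,z0,y3,y9,z1,
    z9]),(z1,[z3,z0,z1,z3,z0,y3])],.ref k6 k0 [(z1,[y6,z3,z4,z6]),(z1,[z0,z0,z1]),(z1,[z3,z0,y2]),(z2,[z9,z0,y6,y9,
    z2]),(z2,[y3,z0,z2,z3])],.ref k6 k0 [(z3,[y12,z9,z8,z0,z4]),(z1,[z0,z0,z1]),(z3,[z6,z0,y4,z9,y2]),(z1,[z3,z0,y2]),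
    (z3,[y3,z0,z2,z0,z1])],.ref k6 k0 [(z5,[y12,z15,z4,z12,z4]),(z1,[z0,z0,z1]),(z5,[z6,z0,y2,z9,y2]),(z5,[z9,z0,y3,
    y9,z2]),(z5,[y3,z0,z1,z3,z1])],.ref k6 k0 [(z1,[y12,z3,z4,z12]),(z1,[z0,z0,z1]),(z1,[z6,z0,y2,y3]),(z1,[z9,z0,y3,
    y9,z1]),(z1,[y3,z0,z1,z3])],.ref k6 k0 [(z3,[y6,z9,z2,z0,z4]),(z1,[z0,z0,z1]),(z3,[z3,z0,y1,z9,y2]),(z2,[z3,z0,
    y1]),(z6,[y3,z0,z1,z0,z2])],.ref k6 k0 [(z1,[y4,y1,z0,y4,z0,z4]),(z1,[z0,z0,z1]),(z1,[z2,z2,z0,z5,z0,y2]),(z1,[z3,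
    z3,z0,z3,z1,y3]),(z1,[y1,y1,z0,y1,z0,z1])],.ref k6 k0 [(z3,[y4,z9,z0,z0,z4]),(z1,[z0,z0,z1]),(z3,[z2,z0,z0,z9,
    y2]),(z1,[z1]),(z3,[y1,z0,z0,z0,z1])]],
    .lp [(nat_lit 216),(nat_lit 234),(nat_lit 238),(nat_lit 240),(nat_lit 246),(nat_lit 260)] [k26,k18,k13,k13,k11,k11,
    k10,k10,k7,k7,k0,k0] k0 [[k0,k0,k0,k0,k0,k0,k2,k14],[k0,k0,k56,k0,k0,k0,k0,k0,k0,k0,k2],[k0,k0,k0,k0,k0,k14,k0,k0,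
    k8,k2],[k56,k0,k0,k0,k0,k10],[k0,k0,k10,k14],[k0,k0,k0,k0,k0,k0,k0,k0,k0,k0,k52,k14],[k0,k14],[k0,k2],[k0,k0,k0,
    k2,k0,k0,k0,k0,k0,k0,k0,k26],[k0,k0,k0,k8,k0,k0,k0,k0,k0,k0,k0,k20],[k0,k0,k0,k0,k14,k0,k0,k0,k20,k26],[k2,k0,k0,
    k0,k52]] (nat_lit 720) k5
    [[(k7,k180),(k0,(nat_lit 216)),(k3,(nat_lit 227)),(k4,(nat_lit 245)),(k8,(nat_lit 255)),(k11,(nat_lit 268))],[(k6,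
    (nat_lit 210)),(k1,(nat_lit 216)),(k5,(nat_lit 223)),(k9,(nat_lit 225)),(k10,(nat_lit 236)),(k2,(nat_lit 277))],
    [(k5,k180),(k1,(nat_lit 227)),(k2,(nat_lit 234)),(k6,(nat_lit 239)),(k10,(nat_lit 247)),(k9,(nat_lit 254))],[(k4,
    (nat_lit 222)),(k3,(nat_lit 234)),(k8,(nat_lit 238)),(k11,(nat_lit 239)),(k7,(nat_lit 247)),(k0,(nat_lit 277))],
    [(k3,k180),(k0,(nat_lit 223)),(k4,(nat_lit 228)),(k8,(nat_lit 250)),(k11,(nat_lit 251)),(k7,(nat_lit 253))],[(k2,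
    (nat_lit 222)),(k5,(nat_lit 228)),(k6,(nat_lit 239)),(k9,(nat_lit 242)),(k1,(nat_lit 245)),(k10,(nat_lit 301))],
    [(k1,k180),(k10,(nat_lit 236)),(k6,(nat_lit 240)),(k9,(nat_lit 243)),(k2,(nat_lit 247)),(k5,(nat_lit 253))],[(k0,
    (nat_lit 210)),(k3,(nat_lit 239)),(k4,(nat_lit 239)),(k7,(nat_lit 240)),(k8,(nat_lit 243)),(k11,(nat_lit 250))],
    [(k0,(nat_lit 225)),(k4,(nat_lit 242)),(k7,(nat_lit 243)),(k8,(nat_lit 246)),(k11,(nat_lit 253)),(k3,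
    (nat_lit 254))],[(k10,(nat_lit 227)),(k2,(nat_lit 238)),(k6,(nat_lit 243)),(k9,(nat_lit 246)),(k5,(nat_lit 250)),
    (k1,(nat_lit 255))],[(k2,(nat_lit 239)),(k10,(nat_lit 240)),(k6,(nat_lit 250)),(k5,(nat_lit 251)),(k9,
    (nat_lit 253)),(k1,(nat_lit 268))],[(k8,(nat_lit 227)),(k0,(nat_lit 236)),(k7,(nat_lit 236)),(k11,(nat_lit 240)),
    (k3,(nat_lit 247)),(k4,(nat_lit 301))]]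
    [] k0
    [[k3,k0,k0,k0,k0,k0],[k2,k0,k1,k0,k0,k0],[k2,k0,k0,k1,k0,k0],[k2,k0,k0,k0,k1,k0],[k1,k1,k1,k0,k0,k0],[k1,k1,k0,k1,
    k0,k0],[k1,k1,k0,k0,k1,k0],[k1,k1,k0,k0,k0,k1],[k1,k0,k2,k0,k0,k0],[k1,k0,k1,k1,k0,k0],[k1,k0,k0,k2,k0,k0],[k1,k0,
    k0,k1,k1,k0],[k1,k0,k0,k1,k0,k1],[k0,k3,k0,k0,k0,k0],[k0,k2,k1,k0,k0,k0],[k0,k1,k2,k0,k0,k0],[k0,k1,k1,k1,k0,k0],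
    [k0,k1,k1,k0,k1,k0],[k0,k1,k0,k1,k0,k1],[k0,k0,k3,k0,k0,k0]]
    [.ref k6 k0 [(z1,[z1]),(z3,[y4,z2,z9]),(z6,[y2,z1,z0,z9]),(z1,[z0,z0,z0,z0,z1]),(z3,[z2,y1])],.ref k6 k0 [(z10,
    [z18,y1,z0,y9]),(z5,[y12,z4,z15,z6]),(z5,[y3,z1,z0,z9]),(z1,[z0,z0,z0,z0,z1]),(z5,[z6,y2,z0,y3])],.ref k6 k0 [(z2,
    [z3,z0,z0,z0,y1]),(z3,[y6,z2,z9,z0,z2]),(z6,[y3,z1,z0,z9,z1]),(z1,[z0,z0,z0,z0,z1]),(z3,[z3,y1,z0,z0,y1])],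
    .ref k6 k0 [(z8,[z9,z1]),(z2,[y3,z1,z6]),(z8,[y3,z1,z0,z12]),(z1,[z0,z0,z0,z0,z1]),(z4,[z3,y1])],.ref k6 k0 [(z4,
    [y18,z5,z18,z9]),(z1,[z6,y1,y3,y3]),(z4,[z6,y1,y6,z3]),(z1,[z0,z0,z0,z0,z1]),(z2,[y6,z1,z6,z3])],.ref k6 k0 [(z1,
    [y9,z2,z9,z0,z3]),(z1,[z12,y2,y9,z0,y4]),(z2,[z6,y1,y6,z3,y2]),(z1,[z0,z0,z0,z0,z1]),(z1,[y6,z1,z6,z0,z2])],
    .ref k6 k0 [(z1,[z9,y1,y9]),(z1,[y12,z2,z15]),(z2,[y6,z1,z6,z3]),(z1,[z0,z0,z0,z0,z1]),(z1,[z6,y1,y6])],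
    .ref k6 k0 [(z2,[y18,z1,z0,y9,y6,z18]),(z1,[z12,z0,z3,z6,z4,y12]),(z1,[z3,z0,z0,z3,z1,y3]),(z1,[z0,z0,z0,z0,z1]),
    (z1,[y6,z0,z0,y3,y2,z6])],.ref k6 k0 [(z1,[z9,y1,z0,y9]),(z1,[y12,z2,z3,z12]),(z2,[y6,z1,z0,z9]),(z1,[z0,z0,z0,z0,
    z1]),(z1,[z6,y1,z0,y6])],.ref k6 k0 [(z4,[z18,y1,z0,y9,y6]),(z1,[y6,z1,z3,z3,z2]),(z4,[y6,z1,z0,z9,z2]),(z1,[z0,
    z0,z0,z0,z1]),(z2,[z6,y1,z0,y3,y2])],.ref k6 k0 [(z1,[z3,z0,z0,z0,y2]),(z3,[y12,z2,z9,z0,z8]),(z6,[y6,z1,z0,z9,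
    z4]),(z1,[z0,z0,z0,z0,z1]),(z3,[z6,y1,z0,z0,y4])],.ref k6 k0 [(z5,[z9,z1,z0,z0,y3]),(z5,[y12,z2,z15,z0,z4]),(z10,
    [y6,z1,z0,z15,z2]),(z1,[z0,z0,z0,z0,z1]),(z5,[z6,y1,z0,z0,y2])],.ref k6 k0 [(z2,[z6,z1,z6,z3,z0,y6]),(z1,[y4,z0,
    y1,y2,z0,z4]),(z1,[y1,z0,y1,z1,z0,z1]),(z1,[z0,z0,z0,z0,z1]),(z1,[z2,z0,z2,z1,z0,y2])],.ref k6 k0 [(z4,[y3,z2,
    z9]),(z1,[z1]),(z4,[z1,z0,y3,z6]),(z1,[z0,z0,z0,z0,z1]),(z2,[y1,z0,z3])],.ref k6 k0 [(z2,[y2,z1,z4,z1]),(z3,[z4,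
    z0,z1,y2]),(z3,[z1,z0,y2,z4]),(z1,[z0,z0,z0,z0,z1]),(z3,[y2,z0,z4,z1])],.ref k6 k0 [(z2,[y3,z1,z3,z3]),(z1,[z2,z0,
    z1,y2]),(z2,[z1,z0,y1,z2]),(z1,[z0,z0,z0,z0,z1]),(z1,[y1,z0,z1,z1])],.ref k6 k0 [(z10,[y18,z5,z18,z9,z6]),(z5,
    [z12,z0,z3,y6,y4]),(z5,[z3,z0,y3,z6,y1]),(z1,[z0,z0,z0,z0,z1]),(z5,[y6,z0,z6,z3,z2])],.ref k6 k0 [(z2,[y6,z1,z6,
    z3]),(z1,[z4,z0,y1,y2]),(z1,[z1,z0,y1,z1]),(z1,[z0,z0,z0,z0,z1]),(z1,[y2,z0,z2,z1])],.ref k6 k0 [(z8,[y18,z1,z0,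
    y9,z0,z18]),(z2,[z6,z1,z6,z3,z0,y6]),(z8,[z6,z1,z0,z15,z0,y6]),(z1,[z0,z0,z0,z0,z1]),(z4,[y6,y1,z0,y3,z0,z6])],
    .ref k6 k0 [(z2,[y6,z1,z0,z9]),(z1,[z4,z0,z3,y6]),(z1,[z1]),(z1,[z0,z0,z0,z0,z1]),(z1,[y2,z0,z0,z3])]],
    .lp [k160,k162,k152,k162,k160,k162] [k1,k1,k0,k0,k5,k5,k0,k0,k1,k1,k0,k0] k0 [[k0,k0,k12,k16],[k0,k0,k0,k0,k0,k0,k0,
    k0,k0,k0,k0,k20],[k0,k16,k0,k0,k0,k24,k0,k0,k6],[k0,k12,k0,k0,k0,k14],[k0,k0,k14,k24,k0,k0,k0,k0,k0,k0,k0,k14],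
    [k0,k0,k0,k0,k0,k0,k4,k2],[k0,k0,k0,k0,k2,k0,k0,k0,k0,k18],[k0,k0,k0,k0,k4],[k0,k0,k0,k0,k0,k0,k0,k18,k0,k0,k20],
    [k0,k0,k0,k6,k0,k0,k0,k0,k0,k0,k4],[k20,k0,k0,k0,k0,k14],[k0,k0,k0,k0,k0,k0,k0,k0,k4,k20]] (nat_lit 480) k5
    [[(k8,k140),(k4,k156),(k11,k157),(k3,k161),(k7,k175),(k0,k180)],[(k5,k144),(k2,k145),(k9,k160),(k6,k161),(k10,
    k161),(k1,k180)],[(k10,k142),(k1,k161),(k9,k161),(k6,k162),(k5,k173),(k2,k174)],[(k4,k133),(k0,k145),(k11,k156),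
    (k8,k161),(k3,k174),(k7,k176)],[(k4,k138),(k0,k144),(k11,k157),(k8,k162),(k3,k173),(k7,k181)],[(k2,k133),(k5,
    k138),(k10,k143),(k1,k156),(k9,k158),(k6,k161)],[(k9,k157),(k6,k160),(k10,k162),(k1,k175),(k2,k176),(k5,k181)],
    [(k8,k143),(k7,k160),(k0,k161),(k4,k161),(k3,k162),(k11,k162)],[(k7,k157),(k4,k158),(k0,k160),(k8,k160),(k3,k161),
    (k11,k179)],[(k1,k140),(k6,k143),(k9,k160),(k2,k161),(k5,k162),(k10,k165)],[(k2,k156),(k1,k157),(k5,k157),(k6,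
    k162),(k9,k179),(k10,k182)],[(k3,k142),(k4,k143),(k0,k161),(k7,k162),(k8,k165),(k11,k182)]]
    [] k0
    [[k1,k1,k1,k0,k0,k0],[k1,k1,k0,k0,k0,k1],[k1,k0,k2,k0,k0,k0],[k1,k0,k1,k0,k1,k0],[k1,k0,k1,k0,k0,k1],[k1,k0,k0,k1,
    k1,k0],[k1,k1,k0,k0,k1,k0],[k1,k0,k0,k0,k2,k0],[k0,k2,k0,k0,k0,k1],[k0,k1,k2,k0,k0,k0],[k0,k1,k1,k0,k0,k1],[k0,k1,
    k1,k1,k0,k0],[k0,k1,k1,k0,k1,k0],[k0,k0,k3,k0,k0,k0],[k0,k0,k2,k0,k1,k0],[k0,k0,k2,k0,k0,k1],[k0,k0,k0,k2,k1,k0],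
    [k0,k0,k0,k1,k2,k0]]
    [.ref k43 k0 [(z1,[y3,z2,z1,z1]),(z1,[z0,z0,z1]),(z1,[z6,y2,y2,y1]),(z1,[z0,y1,y1,y1,z3])],.ref k125 k10 [(z1,[z0,
    z0,z1]),(z3,[z0,z2,z0,z1]),(z1,[z6,y2,y2,y1]),(z1,[y3,z1,z1,z1])],.ref k43 k0 [(z3,[y3,z4,z0,z2]),(z1,[z0,z0,z1]),
    (z3,[z6,y2,z0,y1]),(z1,[z0,y1,y1,y1,z3])],.ref k186 k0 [(z3,[y3,z2,z0,z1]),(z1,[z0,z0,z1]),(z3,[z6,y2,z0,y1]),(z1,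
    [z0,y1,y1,y1,z3])],.ref k92 k11 [(z3,[z3,y2,z0,y1]),(z1,[y3,z1,z0,z1]),(z1,[z0,y1,y1,y1,z3]),(z3,[z0,z2,z0,z1])],
    .ref k38 k4 [(z1,[y6,z0,y2,y1,z6]),(z1,[z0,z0,z1]),(z1,[z3,z1,z1,z1,y3]),(z3,[z3,z0,z1,z1,y3])],.ref k38 k4 [(z1,
    [y6,z2,z2,z1]),(z1,[z0,z0,z1]),(z1,[z3,z0,y1]),(z3,[z3,y1,y1])],.ref (nat_lit 220) k4 [(z3,[y6,z2,z0,z1]),(z1,[z0,
    z0,z1]),(z1,[z1]),(z1,[z3,y1])],.ref k186 k0 [(z3,[z3,z1,y2]),(z1,[z0,z0,z1]),(z3,[y6,z0,z4,z1]),(z1,[z0,y1,y1,y1,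
    z3])],.ref k43 k0 [(z4,[y3,z4,z1,z2]),(z1,[z0,z0,z1]),(z2,[z3,z0,y1]),(z1,[z0,y1,y1,y1,z3])],.ref k38 k4 [(z1,[z6,
    z0,y2,y1]),(z1,[z0,z0,z1]),(z1,[y3,z1,z1,z1]),(z3,[y3,z0,z1,z1])],.ref k43 k0 [(z2,[y3,z1,z0,z0,z3]),(z1,[z0,z0,
    z1]),(z1,[z3,z1,z0,z1,y3]),(z1,[z0,y1,y1,y1,z3])],.ref k125 k10 [(z1,[z0,z0,z1]),(z3,[z0,z2,z0,z1]),(z1,[y6,z0,z2,
    z1]),(z1,[z3,z0,y1])],.ref k43 k0 [(z2,[y1,z2,z0,z1]),(z1,[z0,z0,z1]),(z1,[z1]),(z1,[z0,y1,y1,y1,z3])],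
    .ref (nat_lit 208) k10 [(z1,[z0,z0,z1]),(z3,[z0,z2,z0,z1]),(z1,[y6,z0,z0,z1]),(z1,[z1])],
    .ref (nat_lit 221) k8 [(z1,[y6,z0,z0,z1]),(z1,[z1]),(z3,[z0,z2,z0,z1]),(z1,[z0,z0,z1])],.ref k92 k11 [(z3,[y3,y3,
    y2,y2,z6]),(z1,[z3,z2,z2,z2,y6]),(z1,[z0,y1,y1,y1,z3]),(z3,[z0,z2,z0,z1])],.ref k92 k11 [(z6,[y3,y3,y1,y1,z3]),
    (z2,[z3,z1,z1,z1,y3]),(z1,[z0,y1,y1,y1,z3]),(z3,[z0,z2,z0,z1])]],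
    .leafM k6 [k2,k3,k4,k5,k0,k1] [(z1,[z1,z1])] [],
    .leafM k6 [k1,k2,k3,k4,k5,k0] [(z2,[z0,y1,y1,y2,z2])] [],
    .lp [k154,k154,k160,k160,k166,k164] [k6,k6,k6,k6,k3,k3,k3,k3,k0,k0,k1,k1] k0 [[k0,k0,k0,k0,k0,k0,k4,k6,k0,k0,k0,k2],
    [k0,k0,k20,k0,k0,k0,k0,k0,k0,k0,k0,k10],[k0,k0,k0,k0,k0,k16,k0,k0,k10],[k20,k0,k0,k0,k0,k16],[k0,k0,k16,k16],[k0,
    k0,k0,k0,k0,k0,k0,k0,k0,k0,k12,k4],[k0,k6,k0,k0,k0,k0,k0,k0,k0,k6],[k0,k4],[k0,k0,k0,k0,k0,k0,k0,k6],[k0,k0,k0,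
    k10],[k10,k2,k0,k0,k4],[k0,k0,k0,k0,k12]] (nat_lit 480) k5
    [[(k7,k145),(k3,k156),(k11,k159),(k8,k160),(k4,k161),(k0,k164)],[(k6,k151),(k9,k156),(k5,k157),(k10,k157),(k1,
    k164),(k2,k174)],[(k5,k137),(k10,k149),(k2,k154),(k1,k156),(k6,k161),(k9,k166)],[(k4,k141),(k11,k149),(k3,k154),
    (k8,k160),(k7,k173),(k0,k174)],[(k3,k137),(k4,k144),(k0,k157),(k11,k162),(k8,k173),(k7,k176)],[(k2,k141),(k5,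
    k144),(k6,k160),(k1,k161),(k9,k163),(k10,k174)],[(k1,k145),(k10,k158),(k6,k160),(k9,k163),(k2,k173),(k5,k176)],
    [(k0,k151),(k8,k157),(k4,k160),(k7,k160),(k3,k161),(k11,k162)],[(k0,k156),(k4,k163),(k7,k163),(k3,k166),(k8,k166),
    (k11,k171)],[(k6,k157),(k1,k160),(k2,k160),(k10,k165),(k9,k166),(k5,k173)],[(k2,k149),(k1,k159),(k5,k162),(k6,
    k162),(k10,k164),(k9,k171)],[(k3,k149),(k0,k157),(k7,k158),(k11,k164),(k8,k165),(k4,k174)]]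
    [] k0
    [[k2,k0,k0,k1,k0,k0],[k1,k1,k1,k0,k0,k0],[k1,k1,k0,k0,k1,k0],[k1,k1,k0,k0,k0,k1],[k1,k0,k2,k0,k0,k0],[k1,k0,k1,k1,
    k0,k0],[k1,k0,k0,k2,k0,k0],[k1,k0,k0,k1,k1,k0],[k1,k0,k0,k1,k0,k1],[k0,k3,k0,k0,k0,k0],[k0,k2,k1,k0,k0,k0],[k0,k2,
    k0,k0,k0,k1],[k0,k1,k2,k0,k0,k0],[k0,k1,k1,k1,k0,k0],[k0,k1,k1,k0,k1,k0],[k0,k1,k1,k0,k0,k1],[k0,k1,k0,k1,k0,k1],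
    [k0,k1,k0,k0,k0,k2],[k0,k0,k3,k0,k0,k0]]
    [.ref k92 k0 [(z4,[z2,z1,z2,z1,y2]),(z1,[y2,z1,z1,y1,z2]),(z4,[y2,z1,y2,z5,z2]),(z2,[z0,y1,y2,y1,z2])],
    .ref k72 k5 [(z2,[y4,z1,z2,y3,z2]),(z1,[z0,z0,z0,z1]),(z2,[z2,y1,y2,z1]),(z1,[z1,z0,y1,z2])],.ref k9 k10 [(z1,[z0,
    z0,z1,y2]),(z1,[z1,z0,y1,z1]),(z2,[z2,y1,y2,y1]),(z1,[z0,z0,z0,z1])],.ref (nat_lit 223) k0 [(z1,[y3,z2,z3]),(z1,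
    [z4,y2,y3]),(z2,[z2,y1,y2,z1]),(z2,[z0,y1,y2,y1,z2])],.ref k9 k10 [(z1,[z0,z0,z1,y2]),(z1,[z1]),(z2,[z2,y1,z0,
    y3]),(z1,[z0,z0,z0,z1])],.ref k72 k5 [(z2,[z4,y1,z2,y5,y2]),(z1,[z0,z0,z0,z1]),(z1,[y1,z0,y1,z1,z1]),(z2,[y2,z1,
    y2,z5,z2])],.ref k177 k0 [(z1,[z1,z1,z2,z1,y2]),(z1,[y4,y2,y5,y4,z8]),(z2,[y2,y1,y4,z1,z4]),(z2,[z0,y1,y2,y1,
    z2])],.ref (nat_lit 217) k5 [(z2,[z4,y1,z2,y9,y2]),(z1,[z0,z0,z0,z1]),(z1,[y1,z0,y1,z2,z1]),(z2,[y2,z1,y2,z7,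
    z2])],.ref k92 k0 [(z2,[z2,z1,z2,z1,y2]),(z1,[y4,z0,y1,y2,z4]),(z1,[y1,z0,y1,z1,z1]),(z2,[z0,y1,y2,y1,z2])],
    .ref k92 k0 [(z4,[y1,z2,z3]),(z1,[z1]),(z4,[z1,z0,y3,z6]),(z2,[z0,y1,y2,y1,z2])],.ref k92 k0 [(z6,[y2,z3,z4,z1]),
    (z3,[z4,z0,z1,y2]),(z3,[z1,z0,y2,z4]),(z2,[z0,y1,y2,y1,z2])],.ref k62 k5 [(z2,[y4,y1,z6,y17,z2]),(z1,[z0,z0,z0,
    z1]),(z1,[z1,z0,y2,z4]),(z2,[z2,z1,y4,z11])],.ref k92 k0 [(z2,[y1,z1,z1,z1]),(z1,[z2,z0,z1,y2]),(z2,[z1,z0,y1,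
    z2]),(z2,[z0,y1,y2,y1,z2])],.ref (nat_lit 224) k10 [(z1,[z0,z0,z1,y2]),(z2,[y2,z1,z0,z1,z2]),(z2,[y2,y1,z0,y5,
    z2]),(z1,[z0,z0,z0,z1])],.ref k92 k0 [(z2,[y2,z1,z2,z1]),(z1,[z4,z0,y1,y2]),(z1,[z1,z0,y1,z1]),(z2,[z0,y1,y2,y1,
    z2])],.ref (nat_lit 217) k5 [(z2,[y4,y1,z2,y9,z2]),(z1,[z0,z0,z0,z1]),(z1,[z1,z0,y1,z2]),(z2,[z2,z1,y2,z7])],
    .ref k107 k10 [(z1,[z0,z0,z1,y2]),(z1,[y1,z0,z0,y1,z1]),(z2,[y2,y1,z0,y5,z2]),(z1,[z0,z0,z0,z1])],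
    .ref k72 k5 [(z2,[y2,y1,z0,y5,z2]),(z1,[z0,z0,z0,z1]),(z2,[z1,z0,y1,z2]),(z2,[z1,z1,y1,z5])],.ref k92 k0 [(z2,[y2,
    z1,z0,z3]),(z1,[z4,z0,z3,y6]),(z1,[z1]),(z2,[z0,y1,y2,y1,z2])]],
    .lp [k148,k176,k168,k164,k142,k160] [k14,k14,k0,k0,k4,k4,k6,k6,k17,k17,k8,k8] k0 [[k0,k0,k0,k8],[k0,k0,k0,k0,k0,k0,k0,
    k0,k0,k0,k8,k42],[k0,k8,k0,k0,k0,k0,k0,k0,k30,k14],[k0,k0,k0,k0,k4],[k0,k0,k0,k0,k0,k0,k0,k12,k0,k0,k4],[k0,k0,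
    k4],[k0,k0,k0,k0,k0,k12],[k0,k0,k0,k0,k0,k0,k0,k0,k20],[k0,k0,k0,k14,k0,k0,k0,k0,k0,k0,k0,k4],[k0,k0,k0,k30,k0,k0,
    k20],[k42,k0,k0,k0,k0,k0,k0,k0,k0,k4],[k8,k0,k0,k0,k0,k4]] (nat_lit 480) k5
    [[(k8,k145),(k3,k154),(k4,k154),(k7,k156),(k11,k158),(k0,k190)],[(k9,k145),(k2,k154),(k6,k156),(k5,k158),(k10,
    k162),(k1,k190)],[(k10,k126),(k1,k154),(k9,k159),(k6,k170),(k2,k176),(k5,k180)],[(k11,k138),(k8,k145),(k0,k154),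
    (k7,k170),(k3,k176),(k4,k176)],[(k0,k158),(k7,k162),(k4,k168),(k11,k178),(k3,k180),(k8,k185)],[(k1,k154),(k6,
    k154),(k9,k155),(k10,k164),(k5,k168),(k2,k176)],[(k1,k156),(k5,k162),(k6,k164),(k9,k165),(k10,k166),(k2,k170)],
    [(k4,k154),(k0,k156),(k11,k162),(k7,k164),(k3,k170),(k8,k173)],[(k11,k131),(k8,k142),(k0,k145),(k4,k155),(k3,
    k159),(k7,k165)],[(k9,k142),(k1,k145),(k2,k145),(k10,k147),(k6,k173),(k5,k185)],[(k9,k131),(k2,k138),(k1,k158),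
    (k10,k160),(k6,k162),(k5,k178)],[(k3,k126),(k8,k147),(k11,k160),(k0,k162),(k4,k164),(k7,k166)]]
    [] k0
    [[k1,k1,k0,k0,k1,k0],[k1,k1,k0,k0,k0,k1],[k1,k0,k1,k1,k0,k0],[k1,k0,k0,k2,k0,k0],[k1,k0,k0,k1,k1,k0],[k1,k0,k1,k0,
    k1,k0],[k1,k0,k0,k0,k2,k0],[k1,k0,k0,k0,k1,k1],[k0,k2,k0,k0,k0,k1],[k0,k1,k0,k1,k0,k1],[k0,k1,k0,k0,k2,k0],[k0,k1,
    k0,k0,k1,k1],[k0,k1,k0,k0,k0,k2],[k0,k0,k0,k1,k1,k1],[k0,k0,k0,k0,k3,k0],[k0,k0,k0,k0,k2,k1],[k0,k0,k0,k0,k1,k2]]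
    [.ref (nat_lit 214) k2 [(z1,[z1,y1]),(z1,[y2,z1,z1]),(z1,[z0,y1,y1,z2])],.ref (nat_lit 215) k1 [(z1,[y1,y1,z1]),
    (z1,[y1,y1,y1,z2]),(z1,[z0,z1])],.ref (nat_lit 218) k8 [(z1,[y2,z1]),(z1,[z0,y1,y1,z2]),(z1,[z1])],
    .ref k109 k3 [(z1,[y1,z0,y2,z2]),(z1,[y2,y1,y3,z4]),(z1,[z2,z1,z4,y4])],.ref k146 k1 [(z1,[z1,y1,z1,y1]),(z1,[z1,
    y1]),(z1,[z0,z1])],.ref (nat_lit 219) k1 [(z1,[z1,y1]),(z1,[z1,y1,y1,z1]),(z1,[z0,z1])],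
    .ref (nat_lit 222) k5 [(z1,[z1,y2,y3,z3]),(z1,[z2,y1]),(z1,[y2,z1,z3])],.ref k109 k3 [(z1,[z1,z0,y1]),(z1,[z2,y1,
    y1]),(z1,[y2,z1,z2])],.ref (nat_lit 219) k1 [(z2,[y1,y1,z1]),(z2,[y1,y1,y1,z2]),(z1,[z0,z1])],
    .ref (nat_lit 219) k1 [(z1,[y1,y1,z0,z1]),(z1,[y1,y1,y1,z2]),(z1,[z0,z1])],.ref (nat_lit 225) k4 [(z1,[y2,z1,z2,
    y2]),(z1,[z1]),(z1,[z0,z1])],.ref (nat_lit 218) k8 [(z1,[z2,z1,z0,y2]),(z1,[z0,y1,y1,z2]),(z1,[y1,z0,z0,z1])],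
    .ref (nat_lit 211) k10 [(z1,[z1,z2,z2,y4]),(z1,[z1,z2,z1,y3]),(z1,[z0,y1,y1,z2])],.ref k109 k5 [(z1,[z1,z0,y1]),
    (z1,[z2,z1,z0,y2]),(z1,[y2,y1,z1,z2])],.ref (nat_lit 222) k5 [(z2,[z1,y3,y6,z6]),(z1,[z1]),(z1,[y1,z0,z3])],
    .ref k109 k5 [(z2,[z1,y1,y3,z2]),(z1,[z1,z0,y1]),(z1,[y1,z0,z2])],.ref k109 k3 [(z2,[z1,z1,y2]),(z1,[z1,z0,y1]),
    (z1,[y1,z0,z2])]],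
    .lp [(nat_lit 216),(nat_lit 234),(nat_lit 238),(nat_lit 240),(nat_lit 246),(nat_lit 260)] [k26,k18,k13,k13,k11,k11,
    k10,k10,k7,k7,k0,k0] k0 [[k0,k0,k0,k0,k0,k0,k2,k14],[k0,k0,k56,k0,k0,k0,k0,k0,k0,k0,k2],[k0,k0,k0,k0,k0,k14,k0,k0,
    k8,k2],[k56,k0,k0,k0,k0,k10],[k0,k0,k10,k14],[k0,k0,k0,k0,k0,k0,k0,k0,k0,k0,k52,k14],[k0,k14],[k0,k2],[k0,k0,k0,
    k2,k0,k0,k0,k0,k0,k0,k0,k26],[k0,k0,k0,k8,k0,k0,k0,k0,k0,k0,k0,k20],[k0,k0,k0,k0,k14,k0,k0,k0,k20,k26],[k2,k0,k0,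
    k0,k52]] (nat_lit 720) k5
    [[(k7,k180),(k0,(nat_lit 216)),(k3,(nat_lit 227)),(k4,(nat_lit 245)),(k8,(nat_lit 255)),(k11,(nat_lit 268))],[(k6,
    (nat_lit 210)),(k1,(nat_lit 216)),(k5,(nat_lit 223)),(k9,(nat_lit 225)),(k10,(nat_lit 236)),(k2,(nat_lit 277))],
    [(k5,k180),(k1,(nat_lit 227)),(k2,(nat_lit 234)),(k6,(nat_lit 239)),(k10,(nat_lit 247)),(k9,(nat_lit 254))],[(k4,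
    (nat_lit 222)),(k3,(nat_lit 234)),(k8,(nat_lit 238)),(k11,(nat_lit 239)),(k7,(nat_lit 247)),(k0,(nat_lit 277))],
    [(k3,k180),(k0,(nat_lit 223)),(k4,(nat_lit 228)),(k8,(nat_lit 250)),(k11,(nat_lit 251)),(k7,(nat_lit 253))],[(k2,
    (nat_lit 222)),(k5,(nat_lit 228)),(k6,(nat_lit 239)),(k9,(nat_lit 242)),(k1,(nat_lit 245)),(k10,(nat_lit 301))],
    [(k1,k180),(k10,(nat_lit 236)),(k6,(nat_lit 240)),(k9,(nat_lit 243)),(k2,(nat_lit 247)),(k5,(nat_lit 253))],[(k0,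
    (nat_lit 210)),(k3,(nat_lit 239)),(k4,(nat_lit 239)),(k7,(nat_lit 240)),(k8,(nat_lit 243)),(k11,(nat_lit 250))],
    [(k0,(nat_lit 225)),(k4,(nat_lit 242)),(k7,(nat_lit 243)),(k8,(nat_lit 246)),(k11,(nat_lit 253)),(k3,
    (nat_lit 254))],[(k10,(nat_lit 227)),(k2,(nat_lit 238)),(k6,(nat_lit 243)),(k9,(nat_lit 246)),(k5,(nat_lit 250)),
    (k1,(nat_lit 255))],[(k2,(nat_lit 239)),(k10,(nat_lit 240)),(k6,(nat_lit 250)),(k5,(nat_lit 251)),(k9,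
    (nat_lit 253)),(k1,(nat_lit 268))],[(k8,(nat_lit 227)),(k0,(nat_lit 236)),(k7,(nat_lit 236)),(k11,(nat_lit 240)),
    (k3,(nat_lit 247)),(k4,(nat_lit 301))]]
    [] k0
    [[k3,k0,k0,k0,k0,k0],[k2,k0,k1,k0,k0,k0],[k2,k0,k0,k1,k0,k0],[k2,k0,k0,k0,k1,k0],[k1,k1,k1,k0,k0,k0],[k1,k1,k0,k1,
    k0,k0],[k1,k1,k0,k0,k1,k0],[k1,k1,k0,k0,k0,k1],[k1,k0,k2,k0,k0,k0],[k1,k0,k1,k1,k0,k0],[k1,k0,k0,k2,k0,k0],[k1,k0,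
    k0,k1,k1,k0],[k1,k0,k0,k1,k0,k1],[k0,k3,k0,k0,k0,k0],[k0,k2,k1,k0,k0,k0],[k0,k1,k2,k0,k0,k0],[k0,k1,k1,k1,k0,k0],
    [k0,k1,k1,k0,k1,k0],[k0,k1,k0,k1,k0,k1],[k0,k0,k3,k0,k0,k0]]
    [.ref k6 k0 [(z1,[z1]),(z8,[y1,z3,z24]),(z16,[y11,z33,z0,z48]),(z4,[z1,y3,z0,z0,z12]),(z2,[y1,y3,y6,y6,y6,z6])],
    .ref k6 k0 [(z7,[z16,y11,z0,y16]),(z7,[y2,z4,z21,z2]),(z7,[y11,z22,z0,z32]),(z7,[z4,y8,z0,y4,z21]),(z7,[y8,y5,y21,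
    y13,y21,z21])],.ref k6 k0 [(z3,[z4,z1,z0,z0,y4]),(z6,[y1,z2,z18,z0,z1]),(z12,[y11,z22,z0,z36,z11]),(z3,[z1,y2,z0,
    z0,z8]),(z3,[y2,y5,y9,y9,y7,z9])],.ref k6 k0 [(z1,[z2,z1,z2,z2,z2,y2]),(z4,[y1,z1,z11,y1,y1,z1]),(z8,[y11,z11,y11,
    z13,y11,z11]),(z2,[z1,y1,z1,z1,z7,y1]),(z1,[y1,y2,y4,y4,y4,z4])],.ref k6 k0 [(z1,[z16,y13,y16,y16]),(z1,[y2,z2,z5,
    z2]),(z1,[y11,z11,z11,z14]),(z1,[z4,y4,y4,y4,z3]),(z1,[y8,z5,z5,z5,y3,z3])],.ref k6 k0 [(z3,[z8,z1,y8,z0,y8]),(z3,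
    [y1,z1,z10,z0,z1]),(z6,[y11,z11,z11,z18,z11]),(z3,[z2,y2,y2,z0,z7]),(z3,[y4,y5,y5,y9,y5,z9])],.ref k6 k0 [(z1,[z8,
    z3,z0,z8,z8,y8]),(z1,[y1,z0,z3,y1,y1,z1]),(z2,[y11,z0,z0,y5,y11,z11]),(z1,[z2,z0,z0,z2,z5,y2]),(z1,[y4,y3,y3,y7,
    y7,z7])],.ref k6 k0 [(z5,[z16,y1,y16]),(z5,[y2,z2,z17]),(z5,[y11,z11,z11,z15]),(z5,[z4,y4,y4,z0,z15]),(z5,[y8,y7,
    y7,y15,y15,z15])],.ref k6 k0 [(z1,[y8,z11,z0,z16]),(z1,[z1,y1,z3,y2]),(z2,[z11,y11,z0,y16]),(z1,[y2,z2,z0,z4,z3]),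
    (z1,[z4,y7,y3,y11,y3,z3])],.ref k6 k0 [(z3,[z16,y7,z0,y16,y16]),(z3,[y2,z2,z9,z2,z2]),(z3,[y11,z11,z0,z20,z11]),
    (z3,[z4,y4,z0,y4,z5]),(z3,[y8,y1,y9,y1,y1,z9])],.ref k6 k0 [(z1,[z2,z1,z0,z0,y4]),(z4,[y1,z1,z12,z0,z2]),(z8,[y11,
    z11,z0,z24,z22]),(z2,[z1,y1,z0,z0,z4]),(z1,[y1,y2,y3,y3,y1,z3])],.ref k6 k0 [(z1,[z4,z3,z4,z4,z0,y4]),(z2,[y1,z0,
    z5,y1,z0,z1]),(z4,[y11,z0,y11,z1,z0,z11]),(z1,[z1,z0,z1,z1,z3,y1]),(z1,[y2,y3,y5,y5,y3,z5])],.ref k6 k0 [(z7,[z16,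
    z5,z0,z0,y16]),(z7,[y2,z2,z21,z0,z2]),(z7,[y11,z11,z0,z21,z11]),(z7,[z4,y4,z0,z0,z17]),(z7,[y8,y13,y21,y21,y13,
    z21])],.ref k6 k0 [(z1,[y8,z3,z24]),(z1,[z1]),(z2,[z11,z0,y33,z6]),(z1,[y2,z0,z6,z0,z3]),(z1,[z4,y3,y15,y3,y3,
    z3])],.ref k6 k0 [(z5,[y16,z15,z32,z16]),(z5,[z2,z0,z11,y2]),(z5,[z11,z0,y22,z4]),(z5,[y4,z0,z8,z4,z15]),(z5,[z8,
    y15,y31,y23,y15,z15])],.ref k6 k0 [(z1,[y2,z3,z2,z4]),(z4,[z1,z0,z11,y2]),(z8,[z11,z0,y11,z2]),(z2,[y1,z0,z1,z2,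
    z6]),(z1,[z1,y3,y4,y5,y3,z3])],.ref k6 k0 [(z3,[y16,z9,z16,z16,z16]),(z3,[z2,z0,z7,y2,y2]),(z3,[z11,z0,y11,y2,
    y11]),(z3,[y4,z0,z4,z4,z13]),(z3,[z8,y9,y17,y17,y17,z9])],.ref k6 k0 [(z7,[y16,z5,z0,z0,y16,z16]),(z7,[z2,z2,z21,
    z0,z2,y2]),(z7,[z11,z11,z0,z21,z11,y11]),(z7,[y4,y4,z0,z0,z17,z4]),(z7,[z8,y13,y21,y21,y13,z13])],.ref k6 k0 [(z1,
    [z16,z3,y16,z0,y16]),(z1,[y2,z0,z5,z0,z2]),(z1,[y11,z0,z11,z3,z11]),(z1,[z4,z0,y4,z0,y1]),(z1,[y8,y3,z5,y3,z5,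
    z3])],.ref k6 k0 [(z11,[y16,z33,z0,z48]),(z11,[z2,z0,z33,y6]),(z1,[z1]),(z11,[y4,z0,z0,z12,z33]),(z11,[z8,y33,y33,
    y57,y33,z33])]],
    .leafM k6 [k0,k1,k2,k3,k4,k5] [(z4,[y1,y4,y1,z0,z4])] [],
    .lp [k80,k72,k84,k82,k80,k80] [k2,k2,k6,k6,k0,k0,k1,k1,k2,k2,k2,k2] k0 [[k0,k0,k0,k0,k0,k0,k0,k18],[k0,k0,k16],[k0,k0,
    k0,k0,k0,k0,k0,k0,k0,k2],[k16,k0,k0,k0,k2],[k0,k0,k0,k0,k0,k0,k4,k8],[k0,k0,k2,k0,k0,k0,k0,k0,k0,k0,k20],[k0,k18,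
    k0,k0,k0,k8],[k0,k0,k0,k0,k0,k4],[k0,k0,k0,k2],[],[],[k0,k0,k0,k0,k20]] (nat_lit 240) k5
    [[(k7,k61),(k3,k76),(k0,k80),(k8,k80),(k11,k80),(k4,k82)],[(k6,k63),(k1,k80),(k9,k80),(k10,k80),(k5,k82),(k2,
    k92)],[(k5,k62),(k2,k72),(k1,k76),(k10,k76),(k6,k77),(k9,k94)],[(k3,k72),(k8,k74),(k11,k76),(k7,k77),(k4,k80),(k0,
    k92)],[(k3,k62),(k7,k81),(k0,k82),(k8,k82),(k4,k84),(k11,k84)],[(k6,k75),(k9,k78),(k2,k80),(k1,k82),(k5,k84),(k10,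
    k102)],[(k1,k61),(k2,k77),(k5,k81),(k10,k81),(k6,k86),(k9,k89)],[(k0,k63),(k4,k75),(k3,k77),(k8,k81),(k11,k81),
    (k7,k86)],[(k4,k78),(k0,k80),(k8,k80),(k11,k80),(k7,k89),(k3,k94)],[(k2,k74),(k1,k80),(k9,k80),(k10,k80),(k6,k81),
    (k5,k82)],[(k2,k76),(k1,k80),(k9,k80),(k10,k80),(k6,k81),(k5,k84)],[(k3,k76),(k0,k80),(k8,k80),(k11,k80),(k7,k81),
    (k4,k102)]]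
    [] k0
    [[k2,k0,k0,k1,k0,k0],[k1,k1,k1,k0,k0,k0],[k1,k1,k0,k1,k0,k0],[k1,k1,k0,k0,k1,k0],[k1,k1,k0,k0,k0,k1],[k1,k0,k1,k1,
    k0,k0],[k1,k0,k0,k2,k0,k0],[k1,k0,k0,k1,k1,k0],[k1,k0,k0,k1,k0,k1],[k0,k3,k0,k0,k0,k0],[k0,k2,k1,k0,k0,k0],[k0,k2,
    k0,k1,k0,k0],[k0,k2,k0,k0,k0,k1],[k0,k1,k2,k0,k0,k0],[k0,k1,k1,k1,k0,k0],[k0,k1,k1,k0,k1,k0],[k0,k1,k0,k1,k0,k1],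
    [k0,k1,k0,k0,k1,k1],[k0,k1,k0,k0,k0,k2]]
    [.ref k6 k0 [(z4,[z9,y2,z0,z0,y9]),(z1,[z3,y2,z3,z0,y3]),(z1,[z0,z0,z0,z1]),(z2,[y3,z2,z0,z0,z9]),(z2,[y9,z4,y6,
    y2,z3,z6])],.ref k6 k0 [(z7,[z9,z4,y9,y3]),(z7,[z12,y4,z9,y4]),(z1,[z0,z0,z0,z1]),(z7,[y6,z2,z6,z2,z21]),(z7,[y18,
    y1,y3,y1,y21,z21])],.ref k6 k0 [(z5,[z9,z2,y9,z0,y9]),(z5,[z12,y4,z3,z0,y12]),(z1,[z0,z0,z0,z1]),(z5,[y6,z2,z6,z0,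
    z21]),(z5,[y18,z1,z3,y5,z3,z15])],.ref k6 k0 [(z1,[z9,z1,z0,z3,z9,y9]),(z1,[z12,z0,z3,z4,z12,y12]),(z1,[z0,z0,z0,
    z1]),(z1,[y6,z0,z0,y2,y3,z6]),(z1,[y18,y1,y3,y7,y21,z21])],.ref k6 k0 [(z8,[z9,z5,y9]),(z2,[z3,y1,z3]),(z1,[z0,z0,
    z0,z1]),(z4,[y3,z1,z3,z0,z12]),(z4,[y9,y1,y3,y4,y12,z12])],.ref k6 k0 [(z1,[z9,y2,z0,y3,y9]),(z1,[z12,y4,z3,y4,
    y12]),(z1,[z0,z0,z0,z1]),(z1,[y6,z2,z0,z2,z9]),(z1,[y18,z5,y3,z5,z15,z3])],.ref k6 k0 [(z1,[y9,z4,z0,z0,z18]),(z1,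
    [y12,z4,z3,z0,z24]),(z1,[z0,z0,z0,z1]),(z1,[z6,y2,z0,z0,y9]),(z1,[z18,y7,y3,y1,y39,z3])],.ref k6 k0 [(z5,[y9,z5,
    y9,y3,z0,z9]),(z5,[y12,z0,z3,y4,z0,z12]),(z1,[z0,z0,z0,z1]),(z5,[z6,z0,z6,z2,z15,y6]),(z5,[z18,y5,z3,z1,y15,y3])],
    .ref k6 k0 [(z2,[z9,y1,z0,z0,y9]),(z1,[z6,y2,z3,z0,y6]),(z1,[z0,z0,z0,z1]),(z1,[y3,z1,z0,z0,z6]),(z1,[y9,z2,y3,y1,
    z6,z3])],.ref k6 k0 [(z4,[z3,z4,y9]),(z1,[z1]),(z1,[z0,z0,z0,z1]),(z2,[y1,z0,z3,z0,z6]),(z2,[y3,y2,z3,y2,y6,z6])],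
    .ref k6 k0 [(z8,[z9,z8,y18,y3]),(z2,[z3,z0,z0,y1]),(z1,[z0,z0,z0,z1]),(z4,[y3,z0,z6,z1,z12]),(z4,[y9,y4,z6,y1,y12,
    z12])],.ref k6 k0 [(z2,[z3,z2,y6,z0,y3]),(z1,[z2,z0,y1,z0,y2]),(z1,[z0,z0,z0,z1]),(z1,[y1,z0,z2,z0,z4]),(z1,[y3,
    y1,z3,y1,z0,z3])],.ref k6 k0 [(z1,[z1,z1,y2]),(z3,[z4,z0,z1]),(z1,[z0,z0,z0,z1]),(z3,[y2,z0,z4,z0,z9]),(z1,[y2,y1,
    z1,y1,y3,z3])],.ref k6 k0 [(z4,[z9,z4,y9,y6]),(z1,[z3,z0,z0,y2]),(z1,[z0,z0,z0,z1]),(z2,[y3,z0,z3,z2,z6]),(z2,[y9,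
    y2,z3,z4,y6,z6])],.ref k6 k0 [(z2,[z9,z2,y9,y3,y9]),(z1,[z6,z0,y3,y2,y6]),(z1,[z0,z0,z0,z1]),(z1,[y3,z0,z3,z1,
    z6]),(z1,[y9,y1,z6,z2,z6,z3])],.ref k6 k0 [(z2,[y9,y1,z0,z0,y9,z9]),(z1,[y6,y2,z3,z0,y6,z6]),(z1,[z0,z0,z0,z1]),
    (z1,[z3,z1,z0,z0,z6,y3]),(z1,[z9,z2,y3,y1,z6,y6])],.ref k6 k0 [(z1,[z3,z1,y3,z0,y3]),(z1,[z4,z0,y1,z0,y4]),(z1,
    [z0,z0,z0,z1]),(z1,[y2,z0,z2,z0,z5]),(z1,[y6,y1,z3,y1,z3,z3])],.ref k6 k0 [(z1,[y9,y2,z0,y3,y9,z9]),(z1,[y12,y4,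
    z3,y4,y12,z12]),(z1,[z0,z0,z0,z1]),(z1,[z6,z2,z0,z2,z9,y6]),(z1,[z18,z5,y3,z5,z15,y15])],.ref k6 k0 [(z2,[z3,z2,
    y3]),(z1,[z2,z0,z1]),(z1,[z0,z0,z0,z1]),(z1,[y1,z0,z1,z0,z3]),(z1,[y3,y1,z0,y1,y3,z3])]]]

noncomputable def cT6_2_n5_1 : List TN :=
  [.lp [k80,k72,k84,k82,k80,k80] [k2,k2,k6,k6,k0,k0,k1,k1,k2,k2,k2,k2] k0 [[k0,k0,k0,k0,k0,k0,k0,k18],[k0,k0,k16],[k0,k0,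
    k0,k0,k0,k0,k0,k0,k0,k2],[k16,k0,k0,k0,k2],[k0,k0,k0,k0,k0,k0,k4,k8],[k0,k0,k2,k0,k0,k0,k0,k0,k0,k0,k20],[k0,k18,
    k0,k0,k0,k8],[k0,k0,k0,k0,k0,k4],[k0,k0,k0,k2],[],[],[k0,k0,k0,k0,k20]] (nat_lit 240) k5
    [[(k7,k61),(k3,k76),(k0,k80),(k8,k80),(k11,k80),(k4,k82)],[(k6,k63),(k1,k80),(k9,k80),(k10,k80),(k5,k82),(k2,
    k92)],[(k5,k62),(k2,k72),(k1,k76),(k10,k76),(k6,k77),(k9,k94)],[(k3,k72),(k8,k74),(k11,k76),(k7,k77),(k4,k80),(k0,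
    k92)],[(k3,k62),(k7,k81),(k0,k82),(k8,k82),(k4,k84),(k11,k84)],[(k6,k75),(k9,k78),(k2,k80),(k1,k82),(k5,k84),(k10,
    k102)],[(k1,k61),(k2,k77),(k5,k81),(k10,k81),(k6,k86),(k9,k89)],[(k0,k63),(k4,k75),(k3,k77),(k8,k81),(k11,k81),
    (k7,k86)],[(k4,k78),(k0,k80),(k8,k80),(k11,k80),(k7,k89),(k3,k94)],[(k2,k74),(k1,k80),(k9,k80),(k10,k80),(k6,k81),
    (k5,k82)],[(k2,k76),(k1,k80),(k9,k80),(k10,k80),(k6,k81),(k5,k84)],[(k3,k76),(k0,k80),(k8,k80),(k11,k80),(k7,k81),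
    (k4,k102)]]
    [] k0
    [[k2,k0,k0,k1,k0,k0],[k1,k1,k1,k0,k0,k0],[k1,k1,k0,k1,k0,k0],[k1,k1,k0,k0,k1,k0],[k1,k1,k0,k0,k0,k1],[k1,k0,k1,k1,
    k0,k0],[k1,k0,k0,k2,k0,k0],[k1,k0,k0,k1,k1,k0],[k1,k0,k0,k1,k0,k1],[k0,k3,k0,k0,k0,k0],[k0,k2,k1,k0,k0,k0],[k0,k2,
    k0,k1,k0,k0],[k0,k2,k0,k0,k0,k1],[k0,k1,k2,k0,k0,k0],[k0,k1,k1,k1,k0,k0],[k0,k1,k1,k0,k1,k0],[k0,k1,k0,k1,k0,k1],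
    [k0,k1,k0,k0,k1,k1],[k0,k1,k0,k0,k0,k2]]
    [.ref k6 k0 [(z1,[z3,y1,z0,z0,y3]),(z1,[z6,y4,z3,z0,y6]),(z2,[y3,z2,z0,z2,z3]),(z1,[y3,z2,z0,z0,z6]),(z1,[y6,z3,
    y3,y1,z3,z3])],.ref k6 k0 [(z5,[z6,z3,y6,y2]),(z5,[z12,y4,z3,y4]),(z5,[y3,z1,z3,z6]),(z5,[y6,z2,z6,z2,z15]),(z5,
    [y12,y1,y3,y1,y15,z15])],.ref k6 k0 [(z2,[z3,z1,y3,z0,y3]),(z1,[z3,y1,z0,z0,y3]),(z4,[y3,z1,z3,z4,z3]),(z2,[y3,z1,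
    z3,z0,z9]),(z1,[y3,z0,z0,y1,z0,z3])],.ref k6 k0 [(z1,[z3,z1,z0,z1,z3,y3]),(z1,[z6,z0,z3,z2,z6,y6]),(z2,[y3,z0,z0,
    z1,y3,z3]),(z1,[y3,z0,z0,y1,z0,z3]),(z1,[y6,y1,y3,y3,y9,z9])],.ref k6 k0 [(z7,[z6,z5,y6]),(z7,[z12,y4,z9]),(z7,
    [y3,z1,z3,z7]),(z7,[y6,z2,z6,z0,z21]),(z7,[y12,y3,y9,y7,y21,z21])],.ref k6 k0 [(z1,[y6,z3,z0,z2,z6]),(z1,[y12,z4,
    z3,z4,z12]),(z1,[z3,y1,z0,z0,y3]),(z1,[z6,y2,z0,y2,y3]),(z1,[z12,y5,y3,y5,y15,z3])],.ref k6 k0 [(z1,[y3,z2,z0,z0,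
    z6]),(z1,[y6,z2,z3,z0,z12]),(z2,[z3,y1,z0,z2,y6]),(z1,[z3,y1,z0,z0,y3]),(z1,[z6,y3,y3,y1,y15,z3])],
    .ref k6 k0 [(z2,[y3,z2,y3,y1,z0,z3]),(z1,[y3,z0,z0,y1,z0,z3]),(z4,[z3,z0,z3,z5,z0,y3]),(z2,[z3,z0,z3,z1,z6,y3]),
    (z1,[z3,y1,z0,z0,y3])],.ref k6 k0 [(z1,[z6,y1,z0,z0,y6]),(z1,[z12,y4,z3,z0,y12]),(z1,[y3,z1,z0,z1,z3]),(z1,[y6,z2,
    z0,z0,z9]),(z1,[y12,z3,y3,y1,z9,z3])],.ref k6 k0 [(z2,[z1,z2,y3]),(z1,[z1]),(z4,[y1,z0,z3,z4]),(z2,[y1,z0,z3,z0,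
    z6]),(z1,[y1,y1,z0,y1,y3,z3])],.ref k6 k0 [(z7,[z6,z7,y12,y2]),(z7,[z12,z0,y3,y4]),(z7,[y3,z0,z6,z8]),(z7,[y6,z0,
    z12,z2,z21]),(z7,[y12,y7,z3,y3,y21,z21])],.ref k6 k0 [(z1,[z1,z1,y2,z0,y1]),(z1,[z2,z0,y1,z0,y2]),(z2,[y1,z0,z2,
    z2,z1]),(z1,[y1,z0,z2,z0,z4]),(z1,[y2,y1,z1,y1,y1,z3])],.ref k6 k0 [(z3,[z2,z3,y4]),(z3,[z4,z0,z1]),(z3,[y1,z0,z2,
    z3]),(z3,[y2,z0,z4,z0,z9]),(z3,[y4,y3,y1,y3,y9,z9])],.ref k6 k0 [(z1,[z3,z1,y3,y2]),(z1,[z6,z0,y3,y4]),(z2,[y3,z0,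
    z3,z4]),(z1,[y3,z0,z3,z2,z3]),(z1,[y6,y1,z3,z3,y3,z3])],.ref k6 k0 [(z1,[z6,z1,y6,y2,y6]),(z1,[z12,z0,y9,y4,y12]),
    (z1,[y3,z0,z3,z2,z3]),(z1,[y6,z0,z6,z2,z9]),(z1,[y12,y1,z9,z3,z9,z3])],.ref k6 k0 [(z1,[y6,y1,z0,z0,y6,z6]),(z1,
    [y12,y4,z3,z0,y12,z12]),(z1,[z3,z1,z0,z1,z3,y3]),(z1,[z6,z2,z0,z0,z9,y6]),(z1,[z12,z3,y3,y1,z9,y9])],
    .ref k6 k0 [(z1,[z2,z1,y2,z0,y2]),(z1,[z4,z0,y1,z0,y4]),(z1,[y1,z0,z1,z1,z1]),(z1,[y2,z0,z2,z0,z5]),(z1,[y4,y1,z1,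
    y1,z1,z3])],.ref k6 k0 [(z1,[z6,z3,z0,z2,z6,y6]),(z1,[z12,z4,z3,z4,z12,y12]),(z1,[y3,y1,z0,z0,y3,z3]),(z1,[y6,y2,
    z0,y2,y3,z6]),(z1,[y12,y5,y3,y5,y15,z15])],.ref k6 k0 [(z1,[z1,z1,y1]),(z1,[z2,z0,z1]),(z2,[y1,z0,z1,z2]),(z1,[y1,
    z0,z1,z0,z3]),(z1,[y2,y1,y1,y1,y3,z3])]],
    .lp [k80,k72,k84,k82,k80,k80] [k2,k2,k6,k6,k0,k0,k1,k1,k2,k2,k2,k2] k0 [[k0,k0,k0,k0,k0,k0,k0,k18],[k0,k0,k16],[k0,k0,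
    k0,k0,k0,k0,k0,k0,k0,k2],[k16,k0,k0,k0,k2],[k0,k0,k0,k0,k0,k0,k4,k8],[k0,k0,k2,k0,k0,k0,k0,k0,k0,k0,k20],[k0,k18,
    k0,k0,k0,k8],[k0,k0,k0,k0,k0,k4],[k0,k0,k0,k2],[],[],[k0,k0,k0,k0,k20]] (nat_lit 240) k5
    [[(k7,k61),(k3,k76),(k0,k80),(k8,k80),(k11,k80),(k4,k82)],[(k6,k63),(k1,k80),(k9,k80),(k10,k80),(k5,k82),(k2,
    k92)],[(k5,k62),(k2,k72),(k1,k76),(k10,k76),(k6,k77),(k9,k94)],[(k3,k72),(k8,k74),(k11,k76),(k7,k77),(k4,k80),(k0,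
    k92)],[(k3,k62),(k7,k81),(k0,k82),(k8,k82),(k4,k84),(k11,k84)],[(k6,k75),(k9,k78),(k2,k80),(k1,k82),(k5,k84),(k10,
    k102)],[(k1,k61),(k2,k77),(k5,k81),(k10,k81),(k6,k86),(k9,k89)],[(k0,k63),(k4,k75),(k3,k77),(k8,k81),(k11,k81),
    (k7,k86)],[(k4,k78),(k0,k80),(k8,k80),(k11,k80),(k7,k89),(k3,k94)],[(k2,k74),(k1,k80),(k9,k80),(k10,k80),(k6,k81),
    (k5,k82)],[(k2,k76),(k1,k80),(k9,k80),(k10,k80),(k6,k81),(k5,k84)],[(k3,k76),(k0,k80),(k8,k80),(k11,k80),(k7,k81),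
    (k4,k102)]]
    [] k0
    [[k2,k0,k0,k1,k0,k0],[k1,k1,k1,k0,k0,k0],[k1,k1,k0,k1,k0,k0],[k1,k1,k0,k0,k1,k0],[k1,k1,k0,k0,k0,k1],[k1,k0,k1,k1,
    k0,k0],[k1,k0,k0,k2,k0,k0],[k1,k0,k0,k1,k1,k0],[k1,k0,k0,k1,k0,k1],[k0,k3,k0,k0,k0,k0],[k0,k2,k1,k0,k0,k0],[k0,k2,
    k0,k1,k0,k0],[k0,k2,k0,k0,k0,k1],[k0,k1,k2,k0,k0,k0],[k0,k1,k1,k1,k0,k0],[k0,k1,k1,k0,k1,k0],[k0,k1,k0,k1,k0,k1],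
    [k0,k1,k0,k0,k1,k1],[k0,k1,k0,k0,k0,k2]]
    [.ref k6 k0 [(z4,[z7,y2,z0,z0,y7]),(z1,[z1,y2,z3,z0,y1]),(z1,[z1,y2,z0,z3,y1]),(z2,[y1,z2,z0,z0,z7]),(z2,[y7,z8,
    y6,y6,z1,z6])],.ref k6 k0 [(z5,[z7,z8,y7,y7]),(z5,[z4,y4,z11,y4]),(z5,[z4,y4,y4,z11]),(z5,[y2,z2,z2,z2,z15]),(z5,
    [y14,y1,y1,y1,y15,z15])],.ref k6 k0 [(z3,[z7,z2,y7,z0,y7]),(z3,[z4,y4,z5,z0,y4]),(z3,[z4,y4,y4,z9,y4]),(z3,[y2,z2,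
    z2,z0,z11]),(z3,[y14,z5,z5,y9,z5,z9])],.ref k6 k0 [(z1,[y7,z3,z0,y7,y7,z7]),(z1,[y4,z0,z3,y4,y4,z4]),(z1,[y4,z0,
    z0,y1,y4,z4]),(z1,[z2,z0,z0,z2,z5,y2]),(z1,[z14,y3,y3,z11,z11,y11])],.ref k6 k0 [(z4,[z7,z5,y7]),(z1,[z1,y1,z2]),
    (z1,[z1,y1,y1,z3]),(z2,[y1,z1,z1,z0,z6]),(z2,[y7,z1,z1,y6,y6,z6])],.ref k6 k0 [(z3,[z7,z2,z0,y7,y7]),(z3,[z4,y4,
    z9,y4,y4]),(z3,[z4,y4,z0,z5,y4]),(z3,[y2,z2,z0,z2,z11]),(z3,[y14,z5,y9,z5,z5,z9])],.ref k6 k0 [(z1,[z7,y4,z0,z0,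
    y14]),(z1,[z4,y4,z3,z0,y8]),(z1,[z4,y4,z0,z3,y8]),(z1,[y2,z2,z0,z0,z7]),(z1,[y14,z11,y3,y3,z25,z3])],
    .ref k6 k0 [(z3,[y7,z9,y7,y7,z0,z7]),(z3,[y4,z0,z5,y4,z0,z4]),(z3,[y4,z0,y4,z5,z0,z4]),(z3,[z2,z0,z2,z2,z9,y2]),
    (z3,[z14,y9,z5,z5,y9,y5])],.ref k6 k0 [(z2,[z7,y1,z0,z0,y7]),(z1,[z2,y2,z3,z0,y2]),(z1,[z2,y2,z0,z3,y2]),(z1,[y1,
    z1,z0,z0,z4]),(z1,[y7,z4,y3,y3,z4,z3])],.ref k6 k0 [(z4,[z7,z12,y21]),(z1,[z1]),(z1,[z1,z0,y3,z3]),(z2,[y1,z0,z3,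
    z0,z6]),(z2,[y7,y6,z15,y6,y6,z6])],.ref k6 k0 [(z4,[z7,z12,y14,y7]),(z1,[z1,z0,z1,y1]),(z1,[z1,z0,y2,z2]),(z2,[y1,
    z0,z2,z1,z6]),(z2,[y7,y6,z8,z1,y6,z6])],.ref k6 k0 [(z2,[z7,z6,y14,z0,y7]),(z1,[z2,z0,y1,z0,y2]),(z1,[z2,z0,y4,z3,
    y2]),(z1,[y1,z0,z2,z0,z4]),(z1,[y7,y3,z11,y3,z4,z3])],.ref k6 k0 [(z3,[z7,z9,y14]),(z3,[z4,z0,z1]),(z3,[z4,z0,y8,
    z9]),(z3,[y2,z0,z4,z0,z9]),(z3,[y14,y9,z19,y9,y9,z9])],.ref k6 k0 [(z4,[z7,z12,y7,y14]),(z1,[z1,z0,z2,y2]),(z1,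
    [z1,z0,y1,z1]),(z2,[y1,z0,z1,z2,z6]),(z2,[y7,y6,z1,z8,y6,z6])],.ref k6 k0 [(z2,[z7,z6,y7,y7,y7]),(z1,[z2,z0,z1,y2,
    y2]),(z1,[z2,z0,y2,z1,y2]),(z1,[y1,z0,z1,z1,z4]),(z1,[y7,y3,z4,z4,z4,z3])],.ref k6 k0 [(z2,[y7,y1,z0,z0,y7,z7]),
    (z1,[y2,y2,z3,z0,y2,z2]),(z1,[y2,y2,z0,z3,y2,z2]),(z1,[z1,z1,z0,z0,z4,y1]),(z1,[z7,z4,y3,y3,z4,y4])],
    .ref k6 k0 [(z1,[z7,z3,y7,z0,y7]),(z1,[z4,z0,y1,z0,y4]),(z1,[z4,z0,y4,z3,y4]),(z1,[y2,z0,z2,z0,z5]),(z1,[y14,y3,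
    z11,y3,z11,z3])],.ref k6 k0 [(z3,[y7,z2,z0,y7,y7,z7]),(z3,[y4,y4,z9,y4,y4,z4]),(z3,[y4,y4,z0,z5,y4,z4]),(z3,[z2,
    z2,z0,z2,z11,y2]),(z3,[z14,z5,y9,z5,z5,y5])],.ref k6 k0 [(z2,[z7,z6,y7]),(z1,[z2,z0,z1]),(z1,[z2,z0,y2,z3]),(z1,
    [y1,z0,z1,z0,z3]),(z1,[y7,y3,z4,y3,y3,z3])]],
    .leafM k6 [k0,k1,k2,k3,k4,k5] [(z1,[y1,y1,y1,z0,z1])] [],
    .lp [(nat_lit 216),(nat_lit 234),(nat_lit 238),(nat_lit 240),(nat_lit 246),(nat_lit 260)] [k26,k18,k13,k13,k11,k11,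
    k10,k10,k7,k7,k0,k0] k0 [[k0,k0,k0,k0,k0,k0,k2,k14],[k0,k0,k56,k0,k0,k0,k0,k0,k0,k0,k2],[k0,k0,k0,k0,k0,k14,k0,k0,
    k8,k2],[k56,k0,k0,k0,k0,k10],[k0,k0,k10,k14],[k0,k0,k0,k0,k0,k0,k0,k0,k0,k0,k52,k14],[k0,k14],[k0,k2],[k0,k0,k0,
    k2,k0,k0,k0,k0,k0,k0,k0,k26],[k0,k0,k0,k8,k0,k0,k0,k0,k0,k0,k0,k20],[k0,k0,k0,k0,k14,k0,k0,k0,k20,k26],[k2,k0,k0,
    k0,k52]] (nat_lit 720) k5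
    [[(k7,k180),(k0,(nat_lit 216)),(k3,(nat_lit 227)),(k4,(nat_lit 245)),(k8,(nat_lit 255)),(k11,(nat_lit 268))],[(k6,
    (nat_lit 210)),(k1,(nat_lit 216)),(k5,(nat_lit 223)),(k9,(nat_lit 225)),(k10,(nat_lit 236)),(k2,(nat_lit 277))],
    [(k5,k180),(k1,(nat_lit 227)),(k2,(nat_lit 234)),(k6,(nat_lit 239)),(k10,(nat_lit 247)),(k9,(nat_lit 254))],[(k4,
    (nat_lit 222)),(k3,(nat_lit 234)),(k8,(nat_lit 238)),(k11,(nat_lit 239)),(k7,(nat_lit 247)),(k0,(nat_lit 277))],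
    [(k3,k180),(k0,(nat_lit 223)),(k4,(nat_lit 228)),(k8,(nat_lit 250)),(k11,(nat_lit 251)),(k7,(nat_lit 253))],[(k2,
    (nat_lit 222)),(k5,(nat_lit 228)),(k6,(nat_lit 239)),(k9,(nat_lit 242)),(k1,(nat_lit 245)),(k10,(nat_lit 301))],
    [(k1,k180),(k10,(nat_lit 236)),(k6,(nat_lit 240)),(k9,(nat_lit 243)),(k2,(nat_lit 247)),(k5,(nat_lit 253))],[(k0,
    (nat_lit 210)),(k3,(nat_lit 239)),(k4,(nat_lit 239)),(k7,(nat_lit 240)),(k8,(nat_lit 243)),(k11,(nat_lit 250))],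
    [(k0,(nat_lit 225)),(k4,(nat_lit 242)),(k7,(nat_lit 243)),(k8,(nat_lit 246)),(k11,(nat_lit 253)),(k3,
    (nat_lit 254))],[(k10,(nat_lit 227)),(k2,(nat_lit 238)),(k6,(nat_lit 243)),(k9,(nat_lit 246)),(k5,(nat_lit 250)),
    (k1,(nat_lit 255))],[(k2,(nat_lit 239)),(k10,(nat_lit 240)),(k6,(nat_lit 250)),(k5,(nat_lit 251)),(k9,
    (nat_lit 253)),(k1,(nat_lit 268))],[(k8,(nat_lit 227)),(k0,(nat_lit 236)),(k7,(nat_lit 236)),(k11,(nat_lit 240)),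
    (k3,(nat_lit 247)),(k4,(nat_lit 301))]]
    [] k0
    [[k3,k0,k0,k0,k0,k0],[k2,k0,k1,k0,k0,k0],[k2,k0,k0,k1,k0,k0],[k2,k0,k0,k0,k1,k0],[k1,k1,k1,k0,k0,k0],[k1,k1,k0,k1,
    k0,k0],[k1,k1,k0,k0,k1,k0],[k1,k1,k0,k0,k0,k1],[k1,k0,k2,k0,k0,k0],[k1,k0,k1,k1,k0,k0],[k1,k0,k0,k2,k0,k0],[k1,k0,
    k0,k1,k1,k0],[k1,k0,k0,k1,k0,k1],[k0,k3,k0,k0,k0,k0],[k0,k2,k1,k0,k0,k0],[k0,k1,k2,k0,k0,k0],[k0,k1,k1,k1,k0,k0],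
    [k0,k1,k1,k0,k1,k0],[k0,k1,k0,k1,k0,k1],[k0,k0,k3,k0,k0,k0]]
    [.ref k6 k0 [(z1,[z1]),(z1,[y1,z1,z3]),(z4,[z1,y1,z0,z2]),(z4,[y1,z1,z0,z0,z6]),(z2,[y1,y1,y6,y1,y3,z6])],
    .ref k6 k0 [(z9,[z12,z1,z0,y2]),(z9,[y12,z8,z27,z2]),(z9,[z3,y2,z0,z4]),(z18,[y6,z4,z0,z1,z27]),(z18,[y12,y10,y54,
    y7,y27,z54])],.ref k6 k0 [(z7,[z12,y1,z0,z0,y6]),(z7,[y12,z8,z21,z0,z6]),(z14,[z6,y4,z0,z7,y3]),(z7,[y3,z2,z0,z0,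
    z12]),(z14,[y12,y6,y42,y7,y15,z42])],.ref k6 k0 [(z3,[z6,z1,z6,z1,z3,y6]),(z3,[y6,z2,z3,y1,y3,z6]),(z12,[z6,y2,z6,
    z7,z3,y6]),(z12,[y6,z2,y6,y1,z15,z6]),(z3,[y3,y2,y12,y2,y6,z12])],.ref k6 k0 [(z1,[z12,y3,y12,y2]),(z1,[y12,z4,
    z15,z2]),(z1,[z3,y1,y3]),(z2,[y6,z2,z6,z1,z3]),(z2,[y12,z2,z6,z1,y3,z6])],.ref k6 k0 [(z1,[y12,z5,z12,z0,z6]),(z1,
    [z12,y4,y9,z0,y6]),(z2,[y6,z2,z6,z1,z3]),(z1,[z3,y1,y3]),(z2,[z12,y6,y18,y1,y9,z6])],.ref k6 k0 [(z1,[y6,z1,z0,y1,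
    y3,z6]),(z1,[z6,z0,z3,z1,z3,y6]),(z4,[y6,z0,z0,z1,y3,z6]),(z4,[z6,z0,z0,z1,z9,y6]),(z1,[z3,y1,y3])],
    .ref k6 k0 [(z1,[z6,y1,y6]),(z1,[y6,z2,z9]),(z2,[z3,y1,y3,z1]),(z2,[y3,z1,z3,z0,z3]),(z2,[y6,z0,z0,y1,y3,z6])],
    .ref k6 k0 [(z3,[z6,z1,z0,y2]),(z3,[y6,z2,z9,z2]),(z6,[z3,y1,z0,z2]),(z6,[y3,z1,z0,z1,z9]),(z6,[y6,y4,y18,y1,y9,
    z18])],.ref k6 k0 [(z2,[z6,z0,z0,y1,y3]),(z2,[y6,z2,z6,z1,z3]),(z8,[z6,y2,z0,z3,y3]),(z8,[y6,z2,z0,z1,z15]),(z4,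
    [y6,y2,y12,y1,y3,z12])],.ref k6 k0 [(z1,[z6,y1,z0,z0,y6]),(z1,[y6,z2,z3,z0,z6]),(z2,[z3,y1,z0,z1,y3]),(z2,[y3,z1,
    z0,z0,z6]),(z2,[y6,z0,y6,y1,z3,z6])],.ref k6 k0 [(z1,[z12,z1,z12,z2,z0,y12]),(z1,[y12,z0,y9,y2,z0,z12]),(z1,[z3,
    z0,z3,z1,z0,y3]),(z2,[y6,z0,y6,y1,z3,z6]),(z2,[y12,y2,y18,y3,y3,z18])],.ref k6 k0 [(z5,[z12,z1,z0,z0,y6]),(z5,
    [y12,z4,z15,z0,z6]),(z10,[z6,y2,z0,z5,y3]),(z5,[y3,z1,z0,z0,z9]),(z10,[y12,y6,y30,y5,y9,z30])],.ref k6 k0 [(z1,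
    [y1,z1,z3]),(z1,[z1]),(z4,[y1,z0,z3,z2]),(z4,[z1,z0,y3,z0,z6]),(z2,[z1,y2,y9,y1,y3,z6])],.ref k6 k0 [(z7,[y12,z7,
    z24,z2]),(z7,[z12,z0,y3,y2]),(z7,[y3,z0,z6,z4]),(z14,[z6,z0,y12,y1,z21]),(z14,[z12,y14,y66,y9,y21,z42])],
    .ref k6 k0 [(z1,[y6,z1,z6,z2]),(z1,[z6,z0,y3,y2]),(z2,[y3,z0,z3,z2]),(z2,[z3,z0,y3,y1,z3]),(z2,[z6,y2,y12,y3,y3,
    z6])],.ref k6 k0 [(z2,[y6,z2,z6,z1,z3]),(z2,[z6,z0,z0,y1,y3]),(z8,[y6,z0,z6,z5,z3]),(z8,[z6,z0,y6,y1,z9]),(z4,[z6,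
    y4,y18,y3,y9,z12])],.ref k6 k0 [(z5,[y12,z1,z0,z0,y6,z12]),(z5,[z12,z4,z15,z0,z6,y12]),(z10,[y6,y2,z0,z5,y3,z6]),
    (z5,[z3,z1,z0,z0,z9,y3]),(z10,[z12,y6,y30,y5,y9,z18])],.ref k6 k0 [(z1,[y4,z1,z4,z0,z2]),(z1,[z4,z0,y1,z0,y2]),
    (z2,[y2,z0,z2,z1,z1]),(z1,[z1,z0,y1,z0,z1]),(z2,[z4,y2,y10,y1,y5,z6])],.ref k6 k0 [(z1,[z4,z1,z0,y2]),(z1,[y4,z0,
    z3,z2]),(z1,[z1]),(z2,[y2,z0,z0,z1,z3]),(z2,[y4,y2,y6,z1,y3,z6])]],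
    .lp [(nat_lit 320),(nat_lit 288),(nat_lit 316),(nat_lit 324),(nat_lit 338),(nat_lit 332)] [k9,k9,k25,k25,k11,k11,k7,
    k7,k0,k0,k3,k3] k0 [[k0,k0,k0,k0,k0,k0,k10,k2,k0,k0,k0,k20],[k0,k0,k50,k6],[k6,k0,k0,k0,k0,k14],[k50,k0,k0,k0,k0,
    k10],[k0,k0,k10,k14],[k0,k0,k0,k0,k0,k0,k0,k0,k0,k0,k6,k12],[k0,k2,k0,k0,k0,k0,k0,k0,k0,k2],[k0,k10],[k0,k0,k0,k0,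
    k0,k0,k0,k2,k0,k0,k8],[],[k0,k20,k0,k0,k12],[k0,k0,k0,k0,k6,k0,k0,k0,k0,k8]] (nat_lit 960) k5
    [[(k7,(nat_lit 316)),(k0,(nat_lit 320)),(k8,(nat_lit 321)),(k3,(nat_lit 324)),(k11,(nat_lit 326)),(k4,
    (nat_lit 330))],[(k10,(nat_lit 306)),(k9,(nat_lit 319)),(k1,(nat_lit 320)),(k6,(nat_lit 320)),(k5,(nat_lit 324)),
    (k2,(nat_lit 354))],[(k5,(nat_lit 252)),(k2,(nat_lit 282)),(k10,(nat_lit 310)),(k9,(nat_lit 315)),(k6,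
    (nat_lit 316)),(k1,(nat_lit 324))],[(k3,(nat_lit 282)),(k4,(nat_lit 288)),(k11,(nat_lit 310)),(k8,(nat_lit 313)),
    (k7,(nat_lit 316)),(k0,(nat_lit 354))],[(k3,(nat_lit 252)),(k4,(nat_lit 306)),(k0,(nat_lit 324)),(k11,
    (nat_lit 324)),(k8,(nat_lit 327)),(k7,(nat_lit 334))],[(k2,(nat_lit 288)),(k5,(nat_lit 306)),(k6,(nat_lit 320)),
    (k9,(nat_lit 327)),(k1,(nat_lit 330)),(k10,(nat_lit 330))],[(k1,(nat_lit 316)),(k2,(nat_lit 316)),(k10,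
    (nat_lit 316)),(k6,(nat_lit 324)),(k9,(nat_lit 331)),(k5,(nat_lit 334))],[(k3,(nat_lit 316)),(k0,(nat_lit 320)),
    (k4,(nat_lit 320)),(k7,(nat_lit 324)),(k11,(nat_lit 328)),(k8,(nat_lit 329))],[(k3,(nat_lit 315)),(k0,
    (nat_lit 319)),(k4,(nat_lit 327)),(k7,(nat_lit 331)),(k11,(nat_lit 337)),(k8,(nat_lit 338))],[(k2,(nat_lit 313)),
    (k1,(nat_lit 321)),(k5,(nat_lit 327)),(k6,(nat_lit 329)),(k10,(nat_lit 335)),(k9,(nat_lit 338))],[(k2,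
    (nat_lit 310)),(k5,(nat_lit 324)),(k1,(nat_lit 326)),(k6,(nat_lit 328)),(k9,(nat_lit 337)),(k10,(nat_lit 340))],
    [(k0,(nat_lit 306)),(k3,(nat_lit 310)),(k7,(nat_lit 316)),(k4,(nat_lit 330)),(k8,(nat_lit 335)),(k11,
    (nat_lit 340))]]
    [] k0
    [[k2,k0,k0,k1,k0,k0],[k2,k0,k0,k0,k0,k1],[k1,k1,k1,k0,k0,k0],[k1,k1,k0,k0,k1,k0],[k1,k1,k0,k0,k0,k1],[k1,k0,k0,k1,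
    k0,k1],[k0,k3,k0,k0,k0,k0],[k0,k2,k1,k0,k0,k0],[k0,k2,k0,k1,k0,k0],[k0,k2,k0,k0,k1,k0],[k0,k2,k0,k0,k0,k1],[k0,k1,
    k2,k0,k0,k0],[k0,k1,k1,k1,k0,k0],[k0,k1,k1,k0,k1,k0],[k0,k1,k1,k0,k0,k1],[k0,k1,k0,k2,k0,k0],[k0,k1,k0,k1,k0,k1],
    [k0,k0,k3,k0,k0,k0]]
    [.ref k74 k7 [(z2,[y1,z1,y1,y1,z1]),(z1,[z0,z1]),(z2,[y1,z1,z1,y1,z1]),(z1,[z0,z0,z0,z1])],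
    .ref (nat_lit 227) k9 [(z1,[y2,z3,y1,y1,z1]),(z1,[z0,z0,z0,z1]),(z1,[z1,y2,z1]),(z1,[z0,z1])],.ref k8 k0 [(z1,[y4,
    z5,z4,z4]),(z1,[z3,y3,y2,y3]),(z1,[z2,y2,y2,y1]),(z1,[z0,y1,y1,y1,z1])],.ref k46 k9 [(z1,[y2,z1,z1,y1,z1]),(z1,
    [z0,z0,z0,z1]),(z1,[z1,y1]),(z1,[z0,z1])],.ref (nat_lit 228) k10 [(z1,[z2,y2,z2,y7]),(z1,[z0,z1,z0,z2]),(z1,[z2,
    y2,y2,y1]),(z1,[z0,z0,z0,z1])],.ref k74 k7 [(z1,[y1,z0,y1,y1,z1]),(z1,[z0,z1]),(z1,[y1,z0,z0,y1,z1]),(z1,[z0,z0,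
    z0,z1])],.ref (nat_lit 229) k7 [(z1,[z1,z0,y3]),(z1,[z0,z1]),(z1,[z1]),(z1,[z0,z0,z0,z1])],.ref k74 k7 [(z2,[z1,
    z0,y2,y1]),(z1,[z0,z1]),(z2,[z1,z0,z0,y1]),(z1,[z0,z0,z0,z1])],.ref k186 k2 [(z2,[z1,z1,z1,z1,y1]),(z1,[z1,z1,y1,
    z4,y1]),(z1,[z0,y1,y1,y1,z1]),(z2,[y1,y1,z1,y1,z1])],.ref k59 k1 [(z1,[y2,z0,z0,z1]),(z1,[y6,y1,z1,y1,z1]),(z1,
    [z1]),(z1,[z3,z0,y1])],.ref (nat_lit 230) k7 [(z1,[z1,z0,y2]),(z1,[z0,z1]),(z1,[z1,z0,z1]),(z1,[z0,z0,z0,z1])],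
    .ref (nat_lit 231) k7 [(z1,[z1,z0,y1,y2]),(z1,[z0,z1]),(z1,[z1,z0,z0,y2]),(z1,[z0,z0,z0,z1])],
    .ref (nat_lit 232) k9 [(z1,[z2,z1,y1,y1,y1]),(z1,[z0,z0,z0,z1]),(z1,[y1,y1,z1,z0,z1]),(z1,[z0,z1])],
    .ref k74 k7 [(z1,[z1,z0,y1,y1]),(z1,[z0,z1]),(z1,[z1,z0,z0,y1]),(z1,[z0,z0,z0,z1])],.ref k59 k1 [(z1,[y2,z0,y2,
    z3]),(z1,[y6,y1,y5,z5,z1]),(z1,[z1,z0,z1,y1]),(z1,[z3,z0,z2,y3])],.ref (nat_lit 233) k10 [(z1,[y1,y2,z2,y8,z2]),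
    (z1,[z0,z1,z0,z2]),(z1,[y2,y4,y2,y7,z4]),(z1,[z0,z0,z0,z1])],.ref k186 k2 [(z1,[z1,z1,z1,z1,y1]),(z1,[z2,z2,z0,z5,
    y2]),(z1,[z0,y1,y1,y1,z1]),(z1,[y1,y1,z0,y1,z1])],.ref k186 k2 [(z2,[z1,z0,z2,y3]),(z1,[z1]),(z1,[z0,y1,y1,y1,
    z1]),(z2,[y1,z0,z0,z3])]],
    .lp [(nat_lit 312),(nat_lit 322),(nat_lit 312),(nat_lit 332),(nat_lit 318),(nat_lit 320)] [k10,k10,k5,k5,k10,k10,k0,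
    k0,k7,k7,k6,k6] k0 [[k0,k0,k56,k0,k0,k0,k0,k0,k0,k0,k18],[k0,k0,k32,k0,k0,k0,k14],[k0,k0,k0,k0,k20,k20,k0,k0,k0,
    k44],[k32,k56],[k0,k0,k0,k20,k0,k0,k0,k36],[k0,k0,k0,k20,k0,k0,k0,k0,k0,k0,k38],[k0,k0,k0,k0,k0,k36,k0,k0,k12],
    [k14,k0,k0,k0,k0,k0,k0,k0,k22],[k0,k0,k0,k44,k0,k0,k0,k0,k0,k0,k0,k34],[k0,k0,k0,k0,k0,k0,k22,k12],[k0,k0,k0,k0,
    k0,k0,k0,k0,k0,k34],[k0,k18,k0,k0,k38]] (nat_lit 960) k5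
    [[(k7,(nat_lit 284)),(k0,(nat_lit 294)),(k4,(nat_lit 312)),(k8,(nat_lit 315)),(k3,(nat_lit 317)),(k11,
    (nat_lit 350))],[(k5,(nat_lit 256)),(k1,(nat_lit 294)),(k9,(nat_lit 315)),(k10,(nat_lit 316)),(k6,(nat_lit 336)),
    (k2,(nat_lit 349))],[(k5,(nat_lit 285)),(k9,(nat_lit 306)),(k1,(nat_lit 317)),(k6,(nat_lit 327)),(k10,
    (nat_lit 339)),(k2,(nat_lit 378))],[(k8,(nat_lit 276)),(k4,(nat_lit 297)),(k7,(nat_lit 307)),(k11,(nat_lit 321)),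
    (k0,(nat_lit 349)),(k3,(nat_lit 378))],[(k0,(nat_lit 256)),(k3,(nat_lit 285)),(k8,(nat_lit 315)),(k4,
    (nat_lit 332)),(k7,(nat_lit 342)),(k11,(nat_lit 360))],[(k6,(nat_lit 286)),(k2,(nat_lit 297)),(k1,(nat_lit 312)),
    (k9,(nat_lit 315)),(k5,(nat_lit 332)),(k10,(nat_lit 354))],[(k1,(nat_lit 284)),(k2,(nat_lit 307)),(k10,
    (nat_lit 326)),(k6,(nat_lit 332)),(k5,(nat_lit 342)),(k9,(nat_lit 361))],[(k4,(nat_lit 286)),(k11,(nat_lit 314)),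
    (k3,(nat_lit 327)),(k7,(nat_lit 332)),(k0,(nat_lit 336)),(k8,(nat_lit 347))],[(k11,(nat_lit 297)),(k3,
    (nat_lit 306)),(k0,(nat_lit 315)),(k4,(nat_lit 315)),(k8,(nat_lit 330)),(k7,(nat_lit 361))],[(k2,(nat_lit 276)),
    (k10,(nat_lit 285)),(k1,(nat_lit 315)),(k5,(nat_lit 315)),(k9,(nat_lit 330)),(k6,(nat_lit 347))],[(k9,
    (nat_lit 297)),(k6,(nat_lit 314)),(k10,(nat_lit 320)),(k2,(nat_lit 321)),(k1,(nat_lit 350)),(k5,(nat_lit 360))],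
    [(k8,(nat_lit 285)),(k0,(nat_lit 316)),(k11,(nat_lit 320)),(k7,(nat_lit 326)),(k3,(nat_lit 339)),(k4,
    (nat_lit 354))]]
    [] k0
    [[k3,k0,k0,k0,k0,k0],[k2,k0,k1,k0,k0,k0],[k2,k0,k0,k1,k0,k0],[k2,k0,k0,k0,k1,k0],[k1,k1,k1,k0,k0,k0],[k1,k1,k0,k0,
    k1,k0],[k1,k1,k0,k0,k0,k1],[k1,k0,k2,k0,k0,k0],[k1,k0,k1,k0,k1,k0],[k1,k0,k1,k1,k0,k0],[k1,k0,k0,k2,k0,k0],[k1,k0,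
    k0,k1,k1,k0],[k1,k0,k0,k1,k0,k1],[k1,k0,k0,k0,k1,k1],[k0,k1,k2,k0,k0,k0],[k0,k1,k1,k1,k0,k0],[k0,k1,k1,k0,k1,k0],
    [k0,k1,k0,k0,k2,k0],[k0,k1,k0,k0,k1,k1],[k0,k0,k0,k0,k2,k1],[k0,k0,k0,k0,k1,k2]]
    [.ref k6 k0 [(z1,[z1]),(z5,[y1,z3,z15]),(z5,[z2,y6,z0,z15]),(z5,[y4,z12,z0,z0,z15]),(z2,[y1,y3,y6,y6,y6,z6])],
    .ref k6 k0 [(z4,[z5,z2,z0,y5]),(z4,[y1,z2,z12,z1]),(z2,[z1,y2,z0,z5]),(z1,[y1,z2,z0,z1,z3]),(z8,[y5,y14,y24,y19,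
    y24,z24])],.ref k6 k0 [(z2,[z5,y4,z0,z0,y5]),(z2,[y1,z2,z6,z0,z1]),(z1,[z1,y2,z0,z3,y1]),(z1,[y2,z4,z0,z0,z5]),
    (z4,[y5,y2,y12,y12,y7,z12])],.ref k6 k0 [(z1,[z2,z1,z2,z2,z2,y2]),(z5,[y2,z2,z13,y2,y2,z2]),(z5,[z4,y4,z4,z19,z4,
    y4]),(z5,[y8,z8,y8,y8,z7,z8]),(z1,[y1,y2,y4,y4,y4,z4])],.ref k6 k0 [(z2,[z5,z1,y5,y5]),(z2,[y1,z1,z7,z1]),(z1,[z1,
    y1,y1,z2]),(z1,[y2,z2,z2,z2,z3]),(z4,[y5,y7,y7,y7,y12,z12])],.ref k6 k0 [(z1,[z10,z3,z0,z10,z10,y10]),(z1,[y2,z0,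
    z3,y2,y2,z2]),(z1,[z4,z0,z0,z7,z4,y4]),(z1,[y8,z0,z0,y8,y5,z8]),(z1,[y5,y3,y3,y8,y8,z8])],.ref k6 k0 [(z3,[z10,y1,
    y10]),(z3,[y2,z2,z11]),(z3,[z4,y4,y4,z9]),(z3,[y8,z8,z8,z0,z9]),(z3,[y5,y4,y4,y9,y9,z9])],.ref k6 k0 [(z3,[z5,z4,
    z0,y10]),(z3,[y1,z1,z9,z2]),(z3,[z2,y2,z0,z5]),(z3,[y4,z4,z0,z8,z9]),(z6,[y5,y13,y18,y8,y18,z18])],
    .ref k6 k0 [(z3,[z10,z9,z10,z0,z10,y10]),(z3,[y2,z0,z7,z0,y2,z2]),(z3,[z4,z0,z4,z9,z4,y4]),(z3,[y8,z0,y8,z0,z1,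
    z8]),(z3,[y5,y9,y14,y9,y14,z14])],.ref k6 k0 [(z1,[z5,y2,z0,y5,y5]),(z1,[y1,z1,z3,z1,z1]),(z1,[z2,y2,z0,z1,y2]),
    (z1,[y4,z4,z0,z4,z7]),(z2,[y5,y1,y6,y1,y1,z6])],.ref k6 k0 [(z1,[y5,z8,z0,z0,z10]),(z1,[z1,y1,z3,z0,y2]),(z1,[y2,
    z2,z0,z3,z4]),(z1,[z4,y4,z0,z0,y5]),(z2,[z5,y11,y6,y6,y16,z6])],.ref k6 k0 [(z1,[y10,z3,y10,y10,z0,z10]),(z1,[z2,
    z0,z5,z2,z0,y2]),(z1,[y4,z0,y4,y1,z0,z4]),(z1,[z8,z0,z8,z8,z3,y8]),(z1,[z5,y3,z2,z2,y3,y2])],.ref k6 k0 [(z1,[z10,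
    y7,z0,z0,y10]),(z1,[y2,z2,z3,z0,z2]),(z1,[z4,y4,z0,z3,y4]),(z1,[y8,z8,z0,z0,z11]),(z1,[y5,z2,y3,y3,z2,z3])],
    .ref k6 k0 [(z1,[z5,z3,z5,z5,z5,y5]),(z1,[y1,z0,z2,y1,y1,z1]),(z1,[z2,z0,z2,z5,z2,y2]),(z1,[y4,z0,y4,y4,y1,z4]),
    (z2,[y5,y6,y11,y11,y11,z11])],.ref k6 k0 [(z1,[z5,z3,y5,y10]),(z1,[y1,z0,z4,z2]),(z1,[z2,z0,y2,y1]),(z1,[y4,z0,z4,
    z8,z3]),(z2,[y5,y6,y1,z4,y6,z6])],.ref k6 k0 [(z1,[y5,z3,z5,z5,z5]),(z1,[z1,z0,z2,y1,y1]),(z1,[y2,z0,z2,z5,z2]),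
    (z1,[z4,z0,y4,y4,y1]),(z2,[z5,y6,y11,y11,y11,z6])],.ref k6 k0 [(z1,[y10,y7,z0,z0,y10,z10]),(z1,[z2,z2,z3,z0,z2,
    y2]),(z1,[y4,y4,z0,z3,y4,z4]),(z1,[z8,z8,z0,z0,z11,y8]),(z1,[z5,z2,y3,y3,z2,y2])],.ref k6 k0 [(z2,[y5,y4,y5,y10,
    y10,z10]),(z2,[z1,z2,z7,z2,z2,y2]),(z1,[y1,y2,y1,z1,y2,z2]),(z1,[z2,z4,z2,z4,z7,y4]),(z4,[z5,y2,y7,y2,y2,z2])],
    .ref k6 k0 [(z1,[y5,y2,z0,y5,y5,z5]),(z1,[z1,z1,z3,z1,z1,y1]),(z1,[y2,y2,z0,z1,y2,z2]),(z1,[z4,z4,z0,z4,z7,y4]),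
    (z2,[z5,y1,y6,y1,y1,z1])],.ref k6 k0 [(z3,[y10,y11,y20,y20,y20,z20]),(z3,[z2,z4,z13,z4,z4,y4]),(z3,[y4,y8,y8,z1,
    y8,z8]),(z3,[z8,z16,z16,z16,z25,y16]),(z3,[z5,z1,z1,z1,z1,y1])],.ref k6 k0 [(z1,[y10,y7,y10,y10,y10,z10]),(z1,[z2,
    z2,z5,z2,z2,y2]),(z1,[y4,y4,y4,y1,y4,z4]),(z1,[z8,z8,z8,z8,z11,y8]),(z1,[z5,z2,z2,z2,z2,y2])]],
    .leafM k6 [k2,k3,k4,k5,k0,k1] [(z3,[z0,z0,y1,y1,z3])] [],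
    .lp [(nat_lit 306),(nat_lit 320),(nat_lit 314),(nat_lit 314),(nat_lit 336),(nat_lit 326)] [k15,k15,k8,k8,k11,k11,k11,
    k11,k0,k0,k5,k5] k0 [[k0,k0,k0,k0,k0,k0,k0,k4,k0,k0,k42,k34],[k0,k0,k0,k20,k0,k0,k0,k4],[k20,k0,k0,k0,k0,k42],[k0,
    k0,k0,k0,k0,k30],[k0,k0,k30,k42,k0,k0,k22],[k0,k0,k0,k0,k0,k0,k6],[k4,k4,k0,k0,k0,k0,k0,k0,k0,k20],[k0,k0,k0,k0,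
    k6,k22],[k0,k0,k0,k0,k0,k0,k0,k20],[k0,k0,k0,k0,k0,k0,k0,k0,k0,k0,k6,k6],[k0,k34,k0,k0,k0,k0,k0,k0,k6],[k0,k42,k0,
    k0,k0,k0,k0,k0,k6]] (nat_lit 960) k5
    [[(k0,(nat_lit 264)),(k4,(nat_lit 310)),(k7,(nat_lit 310)),(k11,(nat_lit 310)),(k8,(nat_lit 327)),(k3,
    (nat_lit 347))],[(k1,(nat_lit 264)),(k10,(nat_lit 282)),(k6,(nat_lit 306)),(k2,(nat_lit 313)),(k9,(nat_lit 325)),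
    (k5,(nat_lit 330))],[(k2,(nat_lit 300)),(k6,(nat_lit 313)),(k5,(nat_lit 317)),(k9,(nat_lit 332)),(k1,
    (nat_lit 347)),(k10,(nat_lit 365))],[(k4,(nat_lit 275)),(k3,(nat_lit 300)),(k0,(nat_lit 313)),(k11,(nat_lit 323)),
    (k8,(nat_lit 328)),(k7,(nat_lit 347))],[(k4,(nat_lit 284)),(k3,(nat_lit 317)),(k11,(nat_lit 320)),(k8,
    (nat_lit 325)),(k0,(nat_lit 330)),(k7,(nat_lit 356))],[(k2,(nat_lit 275)),(k5,(nat_lit 284)),(k9,(nat_lit 303)),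
    (k1,(nat_lit 310)),(k6,(nat_lit 320)),(k10,(nat_lit 320))],[(k1,(nat_lit 310)),(k9,(nat_lit 319)),(k10,
    (nat_lit 320)),(k6,(nat_lit 336)),(k2,(nat_lit 347)),(k5,(nat_lit 356))],[(k8,(nat_lit 305)),(k0,(nat_lit 306)),
    (k3,(nat_lit 313)),(k4,(nat_lit 320)),(k11,(nat_lit 320)),(k7,(nat_lit 336))],[(k4,(nat_lit 303)),(k7,
    (nat_lit 319)),(k0,(nat_lit 325)),(k3,(nat_lit 332)),(k8,(nat_lit 336)),(k11,(nat_lit 351))],[(k6,(nat_lit 305)),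
    (k5,(nat_lit 325)),(k1,(nat_lit 327)),(k2,(nat_lit 328)),(k9,(nat_lit 336)),(k10,(nat_lit 337))],[(k1,
    (nat_lit 310)),(k5,(nat_lit 320)),(k6,(nat_lit 320)),(k10,(nat_lit 320)),(k2,(nat_lit 323)),(k9,(nat_lit 351))],
    [(k0,(nat_lit 282)),(k4,(nat_lit 320)),(k7,(nat_lit 320)),(k11,(nat_lit 320)),(k8,(nat_lit 337)),(k3,
    (nat_lit 365))]]
    [] k0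
    [[k3,k0,k0,k0,k0,k0],[k2,k1,k0,k0,k0,k0],[k2,k0,k1,k0,k0,k0],[k2,k0,k0,k1,k0,k0],[k2,k0,k0,k0,k1,k0],[k2,k0,k0,k0,
    k0,k1],[k1,k1,k1,k0,k0,k0],[k1,k1,k0,k0,k0,k1],[k1,k0,k2,k0,k0,k0],[k1,k0,k1,k0,k0,k1],[k1,k1,k0,k1,k0,k0],[k1,k0,
    k0,k2,k0,k0],[k1,k0,k0,k1,k1,k0],[k1,k0,k0,k1,k0,k1],[k1,k0,k0,k0,k0,k2],[k0,k3,k0,k0,k0,k0],[k0,k2,k1,k0,k0,k0],
    [k0,k1,k2,k0,k0,k0],[k0,k1,k1,k0,k1,k0],[k0,k1,k1,k1,k0,k0],[k0,k1,k0,k1,k0,k1],[k0,k0,k3,k0,k0,k0],[k0,k0,k2,k0,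
    k1,k0],[k0,k0,k2,k0,k0,k1]]
    [.ref k6 k0 [(z1,[z1]),(z2,[y1,z3,z6]),(z5,[y4,z12,z0,z15]),(z5,[y1,z3,z0,z0,z15]),(z5,[z2,y21,y15,y15,y15,z15])],
    .ref k6 k0 [(z1,[z2,y1,y2]),(z1,[y1,z2,z4]),(z5,[y8,z16,z8,z15]),(z5,[y2,z4,z2,z0,z15]),(z5,[z4,y23,y19,y15,y15,
    z15])],.ref k6 k0 [(z2,[z5,y4,z0,y5]),(z4,[y5,z10,z12,z5]),(z1,[y2,z4,z0,z5]),(z2,[y1,z2,z0,z1,z6]),(z1,[z1,y5,y3,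
    y4,y3,z3])],.ref k6 k0 [(z3,[z5,y1,z0,z0,y5]),(z6,[y5,z10,z18,z0,z5]),(z3,[y4,z8,z0,z9,z4]),(z3,[y1,z2,z0,z0,
    z10]),(z3,[z2,y13,y9,y9,y11,z9])],.ref k6 k0 [(z4,[z5,z7,z5,z5,z5,y5]),(z8,[y5,z5,z19,y5,y5,z5]),(z1,[y1,z1,y1,z2,
    y1,z1]),(z4,[y1,z1,y1,y1,z11,z1]),(z2,[z1,y7,y5,y5,y5,z5])],.ref k6 k0 [(z7,[z10,z1]),(z7,[y5,z10,z21]),(z7,[y8,
    z16,z0,z21]),(z7,[y2,z4,z0,z0,z21]),(z7,[z4,y29,y21,y21,y21,z21])],.ref k6 k0 [(z1,[y10,z13,z10,z10]),(z1,[z5,y5,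
    y2,y5]),(z1,[z8,y8,y8,y5]),(z1,[z2,y2,y2,y2,z3]),(z1,[y4,z1,z1,z1,y3,z3])],.ref k6 k0 [(z1,[z5,y2,y5]),(z2,[y5,z5,
    z11]),(z1,[y4,z4,z4,z3]),(z1,[y1,z1,z1,z0,z3]),(z1,[z2,y5,y5,y3,y3,z3])],.ref k6 k0 [(z1,[y5,z8,z0,z10]),(z2,[z5,
    y5,z6,y10]),(z1,[z4,y4,z0,y5]),(z1,[z1,y1,z0,y2,z3]),(z1,[y2,y1,y3,z1,y3,z3])],.ref k6 k0 [(z1,[z10,y7,z0,y10]),
    (z1,[y5,z5,z3,z5]),(z1,[y8,z8,z0,z11]),(z1,[y2,z2,z0,z2,z3]),(z1,[z4,y7,y3,y7,y3,z3])],.ref k6 k0 [(z1,[z10,y7,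
    y10,z0,y10]),(z1,[y5,z5,z8,z0,z5]),(z1,[y8,z8,z8,z3,z8]),(z1,[y2,z2,z2,z0,z5]),(z1,[z4,y7,y7,y3,y7,z3])],
    .ref k6 k0 [(z1,[z5,y2,z0,z0,y10]),(z2,[y5,z5,z6,z0,z10]),(z1,[y4,z4,z0,z3,z8]),(z1,[y1,z1,z0,z0,z5]),(z1,[z2,y5,
    y3,y3,y7,z3])],.ref k6 k0 [(z2,[z5,z6,z5,z5,z0,y5]),(z4,[y5,z0,z7,y5,z0,z5]),(z1,[y2,z0,y2,z1,z0,z2]),(z2,[y1,z0,
    y1,y1,z6,z1]),(z1,[z1,y3,y2,y2,y3,z2])],.ref k6 k0 [(z3,[z10,y1,z0,z0,y10]),(z3,[y5,z5,z9,z0,z5]),(z3,[y8,z8,z0,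
    z9,z8]),(z3,[y2,z2,z0,z0,z11]),(z3,[z4,y13,y9,y9,y13,z9])],.ref k6 k0 [(z2,[z5,z1]),(z4,[y5,z5,z12]),(z1,[y2,z2,
    z0,z3]),(z2,[y1,z1,z0,z0,z6]),(z1,[z1,y4,y3,y3,y3,z3])],.ref k6 k0 [(z1,[y2,z3,z6]),(z1,[z1]),(z5,[z8,z0,y24,
    z15]),(z5,[z2,z0,y6,z0,z15]),(z5,[y4,y15,y3,y15,y15,z15])],.ref k6 k0 [(z3,[y5,z9,z10,z5]),(z6,[z5,z0,z8,y5]),(z3,
    [z4,z0,y8,z5]),(z3,[z1,z0,y2,y1,z9]),(z3,[y2,y9,y5,y7,y9,z9])],.ref k6 k0 [(z7,[y10,z21,z10,z20]),(z7,[z5,z0,z16,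
    y10]),(z7,[z8,z0,y8,z5]),(z7,[z2,z0,y2,y4,z21]),(z7,[y4,y21,y17,y13,y21,z21])],.ref k6 k0 [(z3,[y10,y1,z0,z0,y10,
    z10]),(z3,[z5,z5,z9,z0,z5,y5]),(z3,[z8,z8,z0,z9,z8,y8]),(z3,[z2,z2,z0,z0,z11,y2]),(z3,[y4,y13,y9,y9,y13,z13])],
    .ref k6 k0 [(z1,[y2,z3,z2,z2,z2]),(z1,[z1,z0,z2,y1,y1]),(z5,[z8,z0,y8,z7,y8]),(z5,[z2,z0,y2,y2,z13]),(z5,[y4,y15,
    y11,y11,y11,z15])],.ref k6 k0 [(z1,[y5,z3,z5,z0,z5]),(z2,[z5,z0,z1,z0,y5]),(z1,[z4,z0,y4,z3,y4]),(z1,[z1,z0,y1,z0,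
    z2]),(z1,[y2,y3,y1,y3,y1,z3])],.ref k6 k0 [(z4,[y5,z12,z0,z15]),(z8,[z5,z0,z24,y15]),(z1,[z1]),(z4,[z1,z0,z0,y3,
    z12]),(z2,[y1,y6,y6,y3,y6,z6])],.ref k6 k0 [(z2,[y5,z1,y5,z5,y5,z5]),(z4,[z5,z5,z17,y5,z5,y5]),(z1,[z2,z2,z2,z1,
    z2,y2]),(z2,[z1,z1,z1,y1,z7,y1]),(z1,[y1,y4,y4,y2,y4,z4])],.ref k6 k0 [(z1,[y2,z3,z0,z4]),(z1,[z1,z0,z3,y2]),(z5,
    [z8,z0,z0,y1]),(z5,[z2,z0,z0,y4,z15]),(z5,[y4,y15,y15,y7,y15,z15])]],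
    .lp [(nat_lit 322),(nat_lit 324),(nat_lit 324),(nat_lit 342),(nat_lit 286),(nat_lit 320)] [k10,k10,k9,k9,k9,k9,k0,k0,
    k28,k28,k11,k11] k0 [[k0,k0,k44,k0,k0,k0,k0,k4],[k0,k0,k0,k0,k0,k0,k0,k0,k0,k0,k0,k30],[k0,k0,k0,k0,k0,k0,k0,k0,
    k22,k22],[k0,k44],[k0,k0,k0,k0,k0,k0,k0,k30,k0,k0,k12],[k0,k0,k0,k0,k0,k0,k0,k18,k0,k0,k28],[k0,k4,k0,k0,k18,k30],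
    [k0,k0,k0,k0,k0,k0,k0,k0,k20,k4],[k0,k0,k0,k22,k0,k0,k4,k0,k0,k0,k0,k10],[k0,k0,k0,k22,k0,k0,k20],[k30,k0,k0,k0,
    k0,k0,k0,k0,k0,k10],[k0,k0,k0,k0,k28,k12]] (nat_lit 960) k5
    [[(k7,(nat_lit 304)),(k8,(nat_lit 304)),(k4,(nat_lit 311)),(k3,(nat_lit 323)),(k11,(nat_lit 331)),(k0,
    (nat_lit 352))],[(k5,(nat_lit 279)),(k9,(nat_lit 304)),(k10,(nat_lit 321)),(k2,(nat_lit 323)),(k6,(nat_lit 328)),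
    (k1,(nat_lit 352))],[(k10,(nat_lit 292)),(k9,(nat_lit 309)),(k1,(nat_lit 323)),(k5,(nat_lit 324)),(k6,
    (nat_lit 333)),(k2,(nat_lit 368))],[(k8,(nat_lit 283)),(k11,(nat_lit 300)),(k0,(nat_lit 323)),(k4,(nat_lit 324)),
    (k7,(nat_lit 333)),(k3,(nat_lit 368))],[(k0,(nat_lit 279)),(k3,(nat_lit 324)),(k4,(nat_lit 324)),(k8,
    (nat_lit 327)),(k7,(nat_lit 333)),(k11,(nat_lit 344))],[(k6,(nat_lit 303)),(k1,(nat_lit 311)),(k9,(nat_lit 323)),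
    (k2,(nat_lit 324)),(k5,(nat_lit 324)),(k10,(nat_lit 350))],[(k1,(nat_lit 304)),(k6,(nat_lit 324)),(k2,
    (nat_lit 333)),(k5,(nat_lit 333)),(k10,(nat_lit 343)),(k9,(nat_lit 344))],[(k4,(nat_lit 303)),(k7,(nat_lit 324)),
    (k0,(nat_lit 328)),(k3,(nat_lit 333)),(k8,(nat_lit 334)),(k11,(nat_lit 335))],[(k8,(nat_lit 282)),(k11,
    (nat_lit 283)),(k0,(nat_lit 304)),(k3,(nat_lit 309)),(k4,(nat_lit 323)),(k7,(nat_lit 344))],[(k9,(nat_lit 282)),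
    (k2,(nat_lit 283)),(k10,(nat_lit 293)),(k1,(nat_lit 304)),(k5,(nat_lit 327)),(k6,(nat_lit 334))],[(k9,
    (nat_lit 283)),(k2,(nat_lit 300)),(k10,(nat_lit 320)),(k1,(nat_lit 331)),(k6,(nat_lit 335)),(k5,(nat_lit 344))],
    [(k3,(nat_lit 292)),(k8,(nat_lit 293)),(k11,(nat_lit 320)),(k0,(nat_lit 321)),(k7,(nat_lit 343)),(k4,
    (nat_lit 350))]]
    [] k0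
    [[k2,k0,k1,k0,k0,k0],[k1,k1,k1,k0,k0,k0],[k1,k1,k0,k0,k1,k0],[k1,k1,k0,k0,k0,k1],[k1,k0,k2,k0,k0,k0],[k1,k0,k1,k0,
    k1,k0],[k1,k0,k1,k1,k0,k0],[k1,k0,k0,k2,k0,k0],[k1,k0,k0,k1,k1,k0],[k1,k0,k0,k0,k2,k0],[k1,k0,k0,k0,k1,k1],[k0,k1,
    k1,k0,k1,k0],[k0,k1,k0,k0,k2,k0],[k0,k1,k0,k0,k1,k1],[k0,k1,k0,k0,k0,k2],[k0,k0,k1,k0,k2,k0],[k0,k0,k0,k0,k3,k0],
    [k0,k0,k0,k0,k2,k1],[k0,k0,k0,k0,k1,k2]]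
    [.ref k6 k0 [(z6,[z5,z4,z0,y5]),(z6,[y1,z1,z9,z1]),(z3,[z4,y4,z0,z5]),(z3,[y2,z2,z0,z2,z9]),(z6,[y10,z1,y9,y8,y18,
    z18])],.ref k6 k0 [(z8,[z10,z7,y5,y10]),(z8,[y2,z1,z13,z2]),(z1,[z2,y1,y1,z1]),(z2,[y2,z1,z1,z2,z6]),(z4,[y10,y1,
    y1,y2,y12,z12])],.ref k6 k0 [(z2,[y5,z3,z0,y5,y5,z5]),(z2,[z1,z0,z3,z1,z1,y1]),(z1,[y4,z0,z0,y1,y4,z4]),(z1,[z2,
    z0,z0,z2,z5,y2]),(z2,[z10,y3,y3,z4,z4,y4])],.ref k6 k0 [(z4,[z10,z1,y5]),(z4,[y2,z1,z7]),(z1,[z4,y2,y2,z3]),(z1,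
    [y2,z1,z1,z0,z3]),(z1,[y5,z1,z1,y3,y3,z3])],.ref k6 k0 [(z7,[z5,z8,z0,y10]),(z14,[y2,z1,z21,z4]),(z7,[z8,y4,z0,
    z5]),(z7,[y4,z2,z0,z8,z21]),(z14,[y20,y11,y21,y2,y42,z42])],.ref k6 k0 [(z2,[z10,z3,z5,z0,z10,y10]),(z1,[y1,z0,z1,
    z0,y1,z1]),(z1,[z8,z0,z4,z3,z8,y8]),(z1,[y4,z0,y2,z0,y1,z4]),(z2,[y20,y3,y13,y6,y26,z26])],.ref k6 k0 [(z3,[z5,z2,
    z0,y5,y5]),(z6,[y2,z1,z9,z2,z2]),(z3,[z8,y4,z0,z1,y8]),(z3,[y4,z2,z0,z4,z13]),(z6,[y20,z1,y9,z2,z2,z18])],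
    .ref k6 k0 [(z1,[y5,z4,z0,z0,z10]),(z2,[z2,y1,z3,z0,y4]),(z1,[y8,z4,z0,z3,z16]),(z1,[z4,y2,z0,z0,y5]),(z2,[z20,
    y13,y3,y6,y46,z6])],.ref k6 k0 [(z6,[y10,z9,y5,y10,z0,z10]),(z3,[z1,z0,z5,z1,z0,y1]),(z3,[y8,z0,y4,z1,z0,z8]),(z3,
    [z4,z0,z2,z4,z9,y4]),(z6,[z20,y9,z1,z2,y18,y2])],.ref k6 k0 [(z1,[y1,z1,y1,y2,y2,z2]),(z10,[z2,z1,z17,z4,z4,y4]),
    (z5,[y8,y4,y8,y1,y16,z16]),(z5,[z4,z2,z4,z8,z23,y8]),(z2,[z4,y1,z1,z2,z2,y2])],.ref k6 k0 [(z2,[y10,z3,y5,y10,y10,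
    z10]),(z1,[z1,z0,z2,z1,z1,y1]),(z1,[y8,z0,y4,y5,y8,z8]),(z1,[z4,z0,z2,z4,z7,y4]),(z2,[z20,y3,z7,z14,z14,y14])],
    .ref k6 k0 [(z1,[y5,y1,z0,z0,y5,z5]),(z2,[z2,z1,z3,z0,z2,y2]),(z1,[y8,y4,z0,z3,y8,z8]),(z1,[z4,z2,z0,z0,z7,y4]),
    (z2,[z20,z7,y3,y6,z14,y14])],.ref k6 k0 [(z14,[y10,z11,y5,y20,y20,z20]),(z7,[z1,z1,z11,z2,z2,y2]),(z7,[y8,y8,y4,
    z5,y16,z16]),(z7,[z4,z4,z2,z8,z29,y8]),(z14,[z20,y1,y11,y2,y2,z2])],.ref k6 k0 [(z3,[y5,z2,z0,y5,y5,z5]),(z6,[z2,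
    z1,z9,z2,z2,y2]),(z3,[y8,y4,z0,z1,y8,z8]),(z3,[z4,z2,z0,z4,z13,y4]),(z6,[z20,z1,y9,z2,z2,y2])],.ref k6 k0 [(z2,
    [z10,z3,y5]),(z1,[y1,z0,z2]),(z1,[z8,z0,y4,z3]),(z1,[y4,z0,z2,z0,z3]),(z2,[y20,y3,z7,y6,y6,z6])],.ref k6 k0 [(z4,
    [y5,z1,y5,y5,y10,z10]),(z4,[z1,z1,z7,z1,z2,y2]),(z1,[y2,y2,y2,z1,y4,z4]),(z1,[z1,z1,z1,z1,z5,y2]),(z2,[z5,z2,z2,
    y1,z4,y4])],.ref k6 k0 [(z4,[y2,z3,y3,y6,y6,z6]),(z20,[z2,z3,z33,z6,z6,y6]),(z5,[y4,y6,y6,z3,y12,z12]),(z5,[z2,z3,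
    z3,z6,z21,y6]),(z1,[z1])],.ref k6 k0 [(z6,[y5,z4,y5,y10,y10,z10]),(z6,[z1,z1,z10,z2,z2,y2]),(z3,[y4,y4,y4,z1,y8,
    z8]),(z3,[z2,z2,z2,z4,z13,y4]),(z6,[z10,z1,z1,z2,z2,y2])],.ref k6 k0 [(z4,[y10,z1,y5,y10,y10,z10]),(z4,[z2,z1,z7,
    z2,z2,y2]),(z1,[y4,y2,y2,y1,y4,z4]),(z1,[z2,z1,z1,z2,z5,y2]),(z1,[z5,z1,z1,z2,z2,y2])]],
    .lp [k80,k72,k80,k82,k86,k78] [k3,k3,k7,k7,k3,k3,k2,k2,k0,k0,k4,k4] k0 [[k0,k0,k0,k0,k0,k0,k4,k12,k0,k0,k0,k16],[k0,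
    k0,k6,k2],[k2,k0,k0,k0,k0,k10],[k6,k0,k0,k0,k0,k2],[k0,k0,k2,k10,k0,k0,k4],[k0,k0,k0,k0,k0,k0,k0,k0,k0,k0,k4],[k0,
    k12,k0,k0,k0,k0,k0,k0,k0,k14],[k0,k4,k0,k0,k0,k4],[k0,k0,k0,k0,k0,k0,k0,k14,k0,k0,k2],[],[k0,k16],[k0,k0,k0,k0,k4,
    k0,k0,k0,k0,k2]] (nat_lit 240) k5
    [[(k7,k77),(k11,k79),(k0,k80),(k4,k80),(k8,k81),(k3,k92)],[(k10,k63),(k6,k69),(k9,k79),(k1,k80),(k2,k82),(k5,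
    k82)],[(k2,k70),(k5,k70),(k10,k75),(k6,k81),(k9,k91),(k1,k92)],[(k4,k66),(k3,k70),(k11,k75),(k7,k79),(k8,k79),(k0,
    k82)],[(k3,k70),(k4,k78),(k11,k79),(k0,k82),(k8,k83),(k7,k91)],[(k2,k66),(k5,k78),(k9,k79),(k1,k80),(k6,k81),(k10,
    k83)],[(k1,k77),(k2,k79),(k10,k80),(k9,k84),(k6,k86),(k5,k91)],[(k0,k69),(k8,k70),(k11,k80),(k3,k81),(k4,k81),(k7,
    k86)],[(k0,k79),(k4,k79),(k7,k84),(k8,k86),(k3,k91),(k11,k96)],[(k6,k70),(k2,k79),(k1,k81),(k10,k82),(k5,k83),(k9,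
    k86)],[(k2,k75),(k1,k79),(k5,k79),(k6,k80),(k10,k80),(k9,k96)],[(k0,k63),(k3,k75),(k7,k80),(k11,k80),(k8,k82),(k4,
    k83)]]
    [] k0
    [[k2,k0,k0,k1,k0,k0],[k2,k0,k0,k0,k0,k1],[k1,k1,k0,k0,k0,k1],[k1,k1,k1,k0,k0,k0],[k1,k0,k1,k0,k0,k1],[k1,k0,k0,k2,
    k0,k0],[k1,k0,k0,k1,k1,k0],[k1,k0,k0,k1,k0,k1],[k1,k0,k0,k0,k0,k2],[k0,k3,k0,k0,k0,k0],[k0,k2,k1,k0,k0,k0],[k0,k2,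
    k0,k1,k0,k0],[k0,k2,k0,k0,k0,k1],[k0,k1,k2,k0,k0,k0],[k0,k1,k1,k1,k0,k0],[k0,k1,k1,k0,k1,k0],[k0,k1,k1,k0,k0,k1],
    [k0,k1,k0,k1,k0,k1],[k0,k1,k0,k0,k0,k2],[k0,k0,k3,k0,k0,k0]]
    [.ref k86 k5 [(z1,[z1,y2,z0,y4]),(z1,[z2,y5,y1,y11,z1]),(z1,[y1,z2,z0,z5]),(z1,[z0,z1,z0,z2])],
    .ref (nat_lit 235) k10 [(z1,[z2,y4,z1,y10]),(z1,[z0,z1,z0,z2]),(z1,[z1,y2,z0,y4]),(z1,[y2,z3,y1,z7,z1])],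
    .ref (nat_lit 236) k0 [(z1,[z2,z1,y2]),(z1,[z0,z0,z1]),(z1,[y1,z1,z1,z3]),(z1,[y2,y1,y1,y3,z3])],.ref k44 k0 [(z1,
    [y2,z3,z2,z2]),(z1,[z2,y2,y1,y2]),(z1,[z1,y1,y1]),(z1,[y1,z1,z1,z1])],.ref k9 k10 [(z1,[z2,y2,z1,y6]),(z1,[z0,z1,
    z0,z2]),(z1,[z1,y1,z0,y2]),(z1,[y2,z1,y1,z3,z1])],.ref k8 k8 [(z1,[y1,z0,y1,y1,z1]),(z2,[z1,y1]),(z1,[z1]),(z1,
    [z0,z0,z1])],.ref k138 k8 [(z1,[z2,y3,y1,y7,z1]),(z1,[y1,z0,y1,z2,z1]),(z1,[z0,z1,z0,z2]),(z1,[y2,z0,z1,y2,z2])],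
    .ref k38 k2 [(z1,[y2,z2,z3]),(z1,[y1,z1,z0,z3]),(z1,[z1,y1]),(z1,[z0,y1,y1,y1,z1])],.ref k9 k10 [(z1,[z1,y1,z1,
    y4]),(z1,[z0,z1,z0,z2]),(z2,[z1,y1,z0,y2]),(z1,[y1,z0,y1,z1,z1])],.ref k138 k8 [(z1,[y1,y3,z0,y9,z3]),(z2,[z1,z0,
    y3,z6]),(z1,[z0,z1,z0,z2]),(z1,[z1])],.ref (nat_lit 237) k8 [(z1,[z2,y1,y5,y3,z1]),(z1,[y1,z0,z2,z1]),(z1,[y2,z1,
    z4,z2]),(z1,[z0,z0,z1])],.ref k138 k8 [(z1,[y2,y3,z1,y9,z3]),(z1,[z1,z0,y2,z3]),(z1,[z0,z1,z0,z2]),(z1,[z2,z0,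
    y1])],.ref (nat_lit 238) k1 [(z1,[y2,z0,y1,z2]),(z1,[z0,z0,z1]),(z1,[y2,y1,y1,y1,z1]),(z1,[z1])],.ref k8 k8 [(z1,
    [z1,y1,y2,y3,z1]),(z2,[y1,z0,z1,z2]),(z1,[y1,z1,z1,z2]),(z1,[z0,z0,z1])],.ref k8 k8 [(z1,[z2,y1,y3,y3,z1]),(z1,
    [y1,z0,z1,z1]),(z1,[y2,z1,z2,z2]),(z1,[z0,z0,z1])],.ref k38 k2 [(z1,[z2,z2,z3,z0,y2]),(z1,[z1,z1,z0,z3,y1]),(z1,
    [y1,y1,z0,z0,z1]),(z1,[z0,y1,y1,y1,z1])],.ref k138 k8 [(z1,[y2,y3,y1,y7,z3]),(z1,[z1,z0,y1,z2]),(z1,[z0,z1,z0,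
    z2]),(z1,[z2,z0,z1,y2])],.ref k44 k0 [(z1,[y2,z1,z2]),(z1,[z2,z0,y1]),(z1,[z1,z0,y1,z1]),(z1,[y1,z0,z1])],
    .ref k44 k0 [(z1,[y1,z1,z1]),(z1,[z1]),(z2,[z1,z0,y1,z2]),(z2,[y1,z0,z1])],.ref k38 k2 [(z1,[z2,z0,z3,y6]),(z1,
    [z1]),(z1,[y1,z0,z0,z3]),(z1,[z0,y1,y1,y1,z1])]],
    .leafM k6 [k2,k3,k4,k5,k0,k1] [(z1,[z1,z1])] [],
    .lp [(nat_lit 306),(nat_lit 320),(nat_lit 314),(nat_lit 314),(nat_lit 336),(nat_lit 326)] [k15,k15,k8,k8,k11,k11,k11,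
    k11,k0,k0,k5,k5] k0 [[k0,k0,k0,k0,k0,k0,k0,k4,k0,k0,k42,k34],[k0,k0,k0,k20,k0,k0,k0,k4],[k20,k0,k0,k0,k0,k42],[k0,
    k0,k0,k0,k0,k30],[k0,k0,k30,k42,k0,k0,k22],[k0,k0,k0,k0,k0,k0,k6],[k4,k4,k0,k0,k0,k0,k0,k0,k0,k20],[k0,k0,k0,k0,
    k6,k22],[k0,k0,k0,k0,k0,k0,k0,k20],[k0,k0,k0,k0,k0,k0,k0,k0,k0,k0,k6,k6],[k0,k34,k0,k0,k0,k0,k0,k0,k6],[k0,k42,k0,
    k0,k0,k0,k0,k0,k6]] (nat_lit 960) k5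
    [[(k0,(nat_lit 264)),(k4,(nat_lit 310)),(k7,(nat_lit 310)),(k11,(nat_lit 310)),(k8,(nat_lit 327)),(k3,
    (nat_lit 347))],[(k1,(nat_lit 264)),(k10,(nat_lit 282)),(k6,(nat_lit 306)),(k2,(nat_lit 313)),(k9,(nat_lit 325)),
    (k5,(nat_lit 330))],[(k2,(nat_lit 300)),(k6,(nat_lit 313)),(k5,(nat_lit 317)),(k9,(nat_lit 332)),(k1,
    (nat_lit 347)),(k10,(nat_lit 365))],[(k4,(nat_lit 275)),(k3,(nat_lit 300)),(k0,(nat_lit 313)),(k11,(nat_lit 323)),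
    (k8,(nat_lit 328)),(k7,(nat_lit 347))],[(k4,(nat_lit 284)),(k3,(nat_lit 317)),(k11,(nat_lit 320)),(k8,
    (nat_lit 325)),(k0,(nat_lit 330)),(k7,(nat_lit 356))],[(k2,(nat_lit 275)),(k5,(nat_lit 284)),(k9,(nat_lit 303)),
    (k1,(nat_lit 310)),(k6,(nat_lit 320)),(k10,(nat_lit 320))],[(k1,(nat_lit 310)),(k9,(nat_lit 319)),(k10,
    (nat_lit 320)),(k6,(nat_lit 336)),(k2,(nat_lit 347)),(k5,(nat_lit 356))],[(k8,(nat_lit 305)),(k0,(nat_lit 306)),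
    (k3,(nat_lit 313)),(k4,(nat_lit 320)),(k11,(nat_lit 320)),(k7,(nat_lit 336))],[(k4,(nat_lit 303)),(k7,
    (nat_lit 319)),(k0,(nat_lit 325)),(k3,(nat_lit 332)),(k8,(nat_lit 336)),(k11,(nat_lit 351))],[(k6,(nat_lit 305)),
    (k5,(nat_lit 325)),(k1,(nat_lit 327)),(k2,(nat_lit 328)),(k9,(nat_lit 336)),(k10,(nat_lit 337))],[(k1,
    (nat_lit 310)),(k5,(nat_lit 320)),(k6,(nat_lit 320)),(k10,(nat_lit 320)),(k2,(nat_lit 323)),(k9,(nat_lit 351))],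
    [(k0,(nat_lit 282)),(k4,(nat_lit 320)),(k7,(nat_lit 320)),(k11,(nat_lit 320)),(k8,(nat_lit 337)),(k3,
    (nat_lit 365))]]
    [] k0
    [[k3,k0,k0,k0,k0,k0],[k2,k1,k0,k0,k0,k0],[k2,k0,k1,k0,k0,k0],[k2,k0,k0,k1,k0,k0],[k2,k0,k0,k0,k1,k0],[k2,k0,k0,k0,
    k0,k1],[k1,k1,k1,k0,k0,k0],[k1,k1,k0,k0,k0,k1],[k1,k0,k2,k0,k0,k0],[k1,k0,k1,k0,k0,k1],[k1,k1,k0,k1,k0,k0],[k1,k0,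
    k0,k2,k0,k0],[k1,k0,k0,k1,k1,k0],[k1,k0,k0,k1,k0,k1],[k1,k0,k0,k0,k0,k2],[k0,k3,k0,k0,k0,k0],[k0,k2,k1,k0,k0,k0],
    [k0,k1,k2,k0,k0,k0],[k0,k1,k1,k0,k1,k0],[k0,k1,k1,k1,k0,k0],[k0,k1,k0,k1,k0,k1],[k0,k0,k3,k0,k0,k0],[k0,k0,k2,k0,
    k1,k0],[k0,k0,k2,k0,k0,k1]]
    [.ref k6 k0 [(z1,[z1]),(z3,[y2,z1,z3]),(z3,[y4,z2,z0,z9]),(z6,[z2,y1,z0,z0,z3]),(z3,[z2,y1])],.ref k6 k0 [(z4,[z9,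
    y1,y3]),(z2,[y3,z1,z3]),(z1,[y3,z1,z1,z3]),(z4,[z3,y1,y1,z0,z2]),(z2,[z3,y1,y1])],.ref k6 k0 [(z2,[z9,y2,z0,y9]),
    (z1,[y3,z1,z1,z3]),(z1,[y6,z2,z0,z9]),(z2,[z3,y1,z0,y3,z1]),(z1,[z3,y1,z0,y3])],.ref k6 k0 [(z14,[z18,z1,z0,z0,
    y3]),(z7,[y6,z2,z7,z0,z1]),(z7,[y12,z4,z0,z21,z2]),(z7,[z3,y1,z0,z0,z3]),(z7,[z6,y2,z0,z0,y1])],.ref k6 k0 [(z8,
    [z9,z1]),(z4,[y3,z1,z4]),(z2,[y3,z1,z0,z6]),(z8,[z3,y1,z0,z0,z4]),(z4,[z3,y1])],.ref k6 k0 [(z4,[z6,z1,z2,z6,z1,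
    y6]),(z6,[y6,z1,z4,y6,y1,z6]),(z3,[y6,z1,y2,z3,y1,z6]),(z12,[z6,y1,z2,z6,z7,y6]),(z6,[z6,y1,z2,z6,z1,y6])],
    .ref k6 k0 [(z1,[y3,z1,z1,z3]),(z3,[z6,y1,z1,y6]),(z3,[z12,y2,y4,y3]),(z6,[y6,z1,z2,z6,z3]),(z3,[y6,z1,z2,z6])],
    .ref k6 k0 [(z2,[z18,z1,z0,z18,z3,y18]),(z1,[y6,z0,z1,y6,y1,z6]),(z1,[y12,z0,z0,y9,y2,z12]),(z1,[z3,z0,z0,z3,z1,
    y3]),(z1,[z6,z0,z0,z6,z1,y6])],.ref k6 k0 [(z5,[y9,z4,z0,z18]),(z5,[z6,y1,z5,y12]),(z5,[z12,y2,z0,y9]),(z10,[y6,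
    z1,z0,z12,z5]),(z5,[y6,z1,z0,z12])],.ref k6 k0 [(z2,[y18,z1,y6,z0,y3,z18]),(z1,[z6,z0,z3,z0,z1,y6]),(z1,[z12,z0,
    z4,z3,z2,y12]),(z1,[y3,z0,y1,z0,z0,z3]),(z1,[y6,z0,y2,z0,y1,z6])],.ref k6 k0 [(z4,[z18,y1,y6,z0,y3]),(z2,[y6,z1,
    z4,z0,z1]),(z1,[y6,z1,z2,z3,z1]),(z4,[z6,y1,y2,z0,z1]),(z2,[z6,y1,y2,z0,y1])],.ref k6 k0 [(z5,[z9,z1,z0,z0,y3]),
    (z5,[y6,z1,z5,z0,z2]),(z5,[y12,z2,z0,z15,z4]),(z10,[z6,y1,z0,z0,z3]),(z5,[z6,y1,z0,z0,y2])],.ref k6 k0 [(z4,[z6,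
    z1,z0,z0,y1]),(z6,[y6,z1,z6,z0,z1]),(z3,[y6,z1,z0,z9,z1]),(z12,[z6,y1,z0,z0,z5]),(z6,[z6,y1,z0,z0,y1])],
    .ref k6 k0 [(z4,[z9,z2,z3,z9,z0,y9]),(z2,[y3,z0,z1,y3,z0,z3]),(z1,[y3,z0,y1,z0,z0,z3]),(z4,[z3,z0,z1,z3,z2,y3]),
    (z2,[z3,z0,z1,z3,z0,y3])],.ref k6 k0 [(z1,[z3,z1,z2,z6,z1,y6]),(z3,[y6,y1,y1,y12,y2,z12]),(z3,[y12,y2,y8,y15,y4,
    z24]),(z6,[z6,z1,z4,z12,z5,y12]),(z3,[z6,z1,z4,z12,z2,y12])],.ref k6 k0 [(z2,[y3,z1,z3]),(z1,[z1]),(z1,[z2,z0,y2,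
    z3]),(z2,[y1,z0,z1,z0,z1]),(z1,[y1,z0,z1])],.ref k6 k0 [(z8,[y9,z4,z6,z9]),(z4,[z3,z0,z2,y3]),(z2,[z3,z0,y2,z3]),
    (z8,[y3,z0,z2,z3,z4]),(z4,[y3,z0,z2,z3])],.ref k6 k0 [(z10,[y9,z5,z3,z18]),(z5,[z3,z0,z4,y6]),(z5,[z6,z0,y2,z3]),
    (z10,[y3,z0,z1,z6,z5]),(z5,[y3,z0,z1,z6])],.ref k6 k0 [(z4,[y9,z2,z3,z9]),(z2,[z3,z0,z1,y3]),(z1,[z3,z0,y1]),(z4,
    [y3,z0,z1,z3,z2]),(z2,[y3,z0,z1,z3])],.ref k6 k0 [(z10,[y18,z5,z6,z18,z3]),(z5,[z6,z0,z3,y6,y1]),(z5,[z12,z0,y4,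
    z3,y2]),(z5,[y3,z0,z1,z3,z3]),(z5,[y6,z0,z2,z6,z1])],.ref k6 k0 [(z1,[y9,y1,z0,y9,z0,z9]),(z1,[z6,z1,z1,z6,z0,
    y6]),(z1,[z12,z2,z0,z15,z0,y12]),(z2,[y6,y1,z0,y6,z1,z6]),(z1,[y6,y1,z0,y6,z0,z6])],.ref k6 k0 [(z4,[y3,z2,z0,
    z9]),(z2,[z1,z0,z2,y3]),(z1,[z1]),(z4,[y1,z0,z0,z3,z2]),(z2,[y1,z0,z0,z3])],.ref k6 k0 [(z2,[y3,z1,z0,z6]),(z1,
    [z1,z0,z1,y2]),(z1,[z2,z0,z0,y1]),(z2,[y1,z0,z0,z2,z1]),(z1,[y1,z0,z0,z2])],.ref k6 k0 [(z16,[y18,z5,y6,z18,y3,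
    z18]),(z8,[z6,z1,z10,y6,z1,y6]),(z4,[z6,z1,z2,z6,z1,y6]),(z16,[y6,y1,y2,z6,z7,z6]),(z8,[y6,y1,y2,z6,y1,z6])]]]

noncomputable def cT6_2_n5_2 : List TN :=
  [.lp [k72,k82,k80,k76,k82,k86] [k7,k7,k2,k2,k3,k3,k5,k5,k2,k2,k0,k0] k0 [[k0,k0,k0,k0,k0,k0,k0,k4],[k0,k0,k16,k0,k0,k0,
    k0,k0,k0,k0,k2],[k0,k0,k0,k0,k0,k14,k0,k0,k6,k6],[k16],[k0,k0,k0,k14,k0,k0,k0,k6],[k0,k0,k0,k0,k0,k0,k0,k0,k0,k0,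
    k14],[k0,k4,k0,k0,k0,k6],[k0,k0,k0,k0,k0,k0,k0,k0,k0,k2],[k0,k0,k0,k6,k0,k0,k2,k0,k0,k0,k0,k8],[k0,k0,k0,k6,k0,k0,
    k0,k0,k0,k0,k0,k6],[k0,k0,k0,k0,k0,k0,k0,k0,k6,k8],[k2,k0,k0,k0,k14]] (nat_lit 240) k5
    [[(k7,k60),(k0,k72),(k3,k75),(k4,k76),(k8,k83),(k11,k87)],[(k6,k70),(k1,k72),(k5,k76),(k9,k77),(k10,k81),(k2,
    k93)],[(k5,k65),(k1,k75),(k6,k79),(k2,k82),(k10,k84),(k9,k86)],[(k4,k67),(k8,k76),(k11,k78),(k7,k79),(k3,k82),(k0,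
    k93)],[(k3,k65),(k0,k76),(k4,k80),(k8,k87),(k11,k89),(k7,k92)],[(k2,k67),(k6,k72),(k1,k76),(k5,k80),(k9,k81),(k10,
    k97)],[(k1,k60),(k6,k76),(k2,k79),(k10,k81),(k9,k85),(k5,k92)],[(k0,k70),(k4,k72),(k7,k76),(k3,k79),(k8,k79),(k11,
    k83)],[(k0,k77),(k8,k80),(k4,k81),(k11,k84),(k7,k85),(k3,k86)],[(k2,k76),(k10,k76),(k6,k79),(k9,k80),(k1,k83),(k5,
    k87)],[(k2,k78),(k10,k80),(k6,k83),(k9,k84),(k1,k87),(k5,k89)],[(k8,k76),(k11,k80),(k0,k81),(k7,k81),(k3,k84),(k4,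
    k97)]]
    [] k0
    [[k3,k0,k0,k0,k0,k0],[k2,k0,k1,k0,k0,k0],[k2,k0,k0,k1,k0,k0],[k2,k0,k0,k0,k1,k0],[k1,k1,k1,k0,k0,k0],[k1,k1,k0,k1,
    k0,k0],[k1,k1,k0,k0,k1,k0],[k1,k1,k0,k0,k0,k1],[k1,k0,k2,k0,k0,k0],[k1,k0,k1,k1,k0,k0],[k1,k0,k0,k2,k0,k0],[k1,k0,
    k0,k1,k1,k0],[k1,k0,k0,k1,k0,k1],[k0,k2,k1,k0,k0,k0],[k0,k1,k2,k0,k0,k0],[k0,k1,k1,k1,k0,k0],[k0,k1,k1,k0,k1,k0],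
    [k0,k1,k0,k2,k0,k0],[k0,k1,k0,k1,k0,k1],[k0,k0,k0,k3,k0,k0]]
    [.ref k6 k0 [(z1,[z1]),(z1,[z0,z0,z1]),(z3,[y4,z4,z0,z3]),(z3,[y2,z2,z0,z0,z9]),(z3,[z2,y5,y3,y3,y9,z9])],
    .ref k6 k0 [(z2,[z9,y4,z0,y3]),(z1,[z0,z0,z1]),(z1,[y6,z4,z0,z3]),(z1,[y3,z2,z0,z1,z3]),(z1,[z3,y3,y1,y2,y3,z3])],
    .ref k6 k0 [(z4,[z9,y2,z0,z0,y9]),(z1,[z0,z0,z1]),(z1,[y3,z2,z0,z1,z3]),(z2,[y3,z2,z0,z0,z9]),(z2,[z3,y4,y2,y2,y9,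
    z6])],.ref k6 k0 [(z8,[z9,z5,z3,z3,z9,y9]),(z1,[z0,z0,z1]),(z2,[y3,z1,y1,z1,y3,z3]),(z4,[y3,z1,y1,y1,z9,z3]),(z4,
    [z3,y5,y3,y3,y9,z9])],.ref k6 k0 [(z1,[y9,z4,z3,z3]),(z1,[z0,z0,z1]),(z1,[z12,y4,y4,y3]),(z1,[z6,y2,y2,y2,z3]),
    (z1,[y6,z1,z1,z1,y3,z3])],.ref k6 k0 [(z1,[z9,y2,y3,z0,y9]),(z1,[z0,z0,z1]),(z1,[y12,z4,z4,z1,z12]),(z1,[y6,z2,z2,
    z0,z9]),(z1,[z6,y3,y3,y1,y9,z3])],.ref k6 k0 [(z5,[z9,z5,z0,z3,z9,y9]),(z1,[z0,z0,z1]),(z5,[y12,z0,z0,z1,y12,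
    z12]),(z5,[y6,z0,z0,y2,z9,z6]),(z5,[z6,y5,y5,y3,y9,z9])],.ref k6 k0 [(z4,[z9,z1,y3]),(z1,[z0,z0,z1]),(z1,[y3,z1,
    z1,z1]),(z2,[y3,z1,z1,z0,z6]),(z2,[z3,y3,y3,y2,y6,z6])],.ref k6 k0 [(z5,[y9,z8,z0,z6]),(z1,[z0,z0,z1]),(z5,[z12,
    y4,z0,y3]),(z5,[z6,y2,z0,y4,z15]),(z5,[y6,y3,y5,y1,y15,z15])],.ref k6 k0 [(z1,[y3,z2,z0,z1,z3]),(z1,[z0,z0,z1]),
    (z3,[z12,y4,z0,y1,y12]),(z3,[z6,y2,z0,y2,z3]),(z3,[y6,y1,y3,y1,y3,z9])],.ref k6 k0 [(z1,[y9,z4,z0,z0,z18]),(z1,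
    [z0,z0,z1]),(z1,[z12,y4,z0,z1,y24]),(z1,[z6,y2,z0,z0,y9]),(z1,[y6,z1,y1,y1,z9,z3])],.ref k6 k0 [(z1,[z3,z1,z1,z1,
    z0,y3]),(z1,[z0,z0,z1]),(z3,[y12,z0,y4,y1,z0,z12]),(z3,[y6,z0,y2,y2,z9,z6]),(z3,[z6,y3,y1,y1,y9,z3])],
    .ref k6 k0 [(z2,[z9,y1,z0,z0,y9]),(z1,[z0,z0,z1]),(z1,[y6,z2,z0,z1,z6]),(z1,[y3,z1,z0,z0,z6]),(z1,[z3,y2,y1,y1,y6,
    z3])],.ref k6 k0 [(z4,[y9,z4,z6,z3]),(z1,[z0,z0,z1]),(z1,[z3,z0,y2]),(z2,[z3,z0,y2,y1,z6]),(z2,[y3,y2,z0,y1,y6,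
    z6])],.ref k6 k0 [(z8,[y9,z8,z3,z6]),(z1,[z0,z0,z1]),(z2,[z3,z0,y1]),(z4,[z3,z0,y1,y2,z12]),(z4,[y3,y4,y3,y2,y12,
    z12])],.ref k6 k0 [(z2,[y3,z2,z1,z1,z3]),(z1,[z0,z0,z1]),(z3,[z6,z0,y2,z1,y6]),(z3,[z3,z0,y1,y1,z6]),(z3,[y3,y3,
    y2,y2,y6,z9])],.ref k6 k0 [(z2,[y9,y1,z0,z0,y9,z9]),(z1,[z0,z0,z1]),(z1,[z6,z2,z0,z1,z6,y6]),(z1,[z3,z1,z0,z0,z6,
    y3]),(z1,[y3,y2,y1,y1,y6,z6])],.ref k6 k0 [(z4,[y9,z4,z3,z0,z18]),(z1,[z0,z0,z1]),(z1,[z3,z0,y1,z1,y6]),(z2,[z3,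
    z0,y1]),(z2,[y3,y2,y1,y2,z0,z6])],.ref k6 k0 [(z1,[y9,z1,z3,z0,z9]),(z1,[z0,z0,z1]),(z1,[z12,z0,y4,z1,y12]),(z1,
    [z6,z0,y2,z0,y3]),(z1,[y6,y1,z1,y1,z3,z3])],.ref k6 k0 [(z2,[y3,z2,z0,z0,z9]),(z1,[z0,z0,z1]),(z1,[z2,z0,z0,z1,
    y6]),(z1,[z1]),(z1,[y1,y1,y1,y1,z0,z3])]],
    .lp [k158,k144,k152,k168,k160,k176] [k9,k9,k16,k16,k12,k12,k4,k4,k8,k8,k0,k0] k0 [[k0,k0,k6,k0,k0,k0,k0,k30,k0,k0,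
    k24],[k0,k0,k28],[k0,k0,k0,k0,k0,k20,k0,k0,k0,k4],[k28,k6],[k0,k0,k0,k20,k0,k0,k0,k12],[k0,k0,k0,k0,k0,k0,k0,k0,
    k0,k0,k36,k24],[k0,k30,k0,k0,k0,k12],[k0,k0,k0,k0,k0,k0,k0,k0,k30],[k0,k0,k0,k4,k0,k0,k0,k0,k0,k0,k0,k12],[k0,k0,
    k0,k0,k0,k0,k30,k0,k0,k0,k0,k16],[k0,k0,k0,k0,k24,k0,k0,k0,k16,k12],[k0,k24,k0,k0,k36]] (nat_lit 480) k5
    [[(k7,k127),(k0,k134),(k3,k151),(k8,k175),(k4,k179),(k11,k179)],[(k6,k133),(k1,k134),(k5,k149),(k9,k159),(k10,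
    k167),(k2,k179)],[(k5,k120),(k2,k150),(k1,k151),(k6,k156),(k9,k182),(k10,k184)],[(k4,k128),(k8,k148),(k3,k150),
    (k7,k156),(k11,k160),(k0,k179)],[(k3,k120),(k0,k149),(k4,k152),(k8,k156),(k11,k168),(k7,k180)],[(k2,k128),(k6,
    k148),(k5,k152),(k9,k156),(k1,k179),(k10,(nat_lit 200))],[(k1,k127),(k10,k148),(k2,k156),(k6,k168),(k9,k176),(k5,
    k180)],[(k0,k133),(k4,k148),(k3,k156),(k7,k168),(k11,k172),(k8,k194)],[(k11,k138),(k4,k156),(k0,k159),(k8,k160),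
    (k7,k176),(k3,k182)],[(k2,k148),(k5,k156),(k10,k156),(k9,k160),(k1,k175),(k6,k194)],[(k9,k138),(k2,k160),(k10,
    k160),(k5,k168),(k6,k172),(k1,k179)],[(k7,k148),(k8,k156),(k11,k160),(k0,k167),(k3,k184),(k4,(nat_lit 200))]]
    [] k0
    [[k3,k0,k0,k0,k0,k0],[k2,k1,k0,k0,k0,k0],[k2,k0,k1,k0,k0,k0],[k2,k0,k0,k1,k0,k0],[k2,k0,k0,k0,k1,k0],[k1,k1,k1,k0,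
    k0,k0],[k1,k1,k0,k1,k0,k0],[k1,k1,k0,k0,k1,k0],[k1,k1,k0,k0,k0,k1],[k1,k0,k1,k1,k0,k0],[k1,k0,k0,k2,k0,k0],[k1,k0,
    k0,k1,k0,k1],[k0,k3,k0,k0,k0,k0],[k0,k2,k1,k0,k0,k0],[k0,k2,k0,k1,k0,k0],[k0,k1,k2,k0,k0,k0],[k0,k1,k1,k1,k0,k0],
    [k0,k1,k1,k0,k1,k0],[k0,k1,k0,k1,k0,k1],[k0,k1,k0,k0,k1,k1],[k0,k0,k3,k0,k0,k0],[k0,k0,k2,k0,k1,k0],[k0,k0,k1,k0,
    k2,k0],[k0,k0,k1,k1,k0,k1],[k0,k0,k0,k0,k2,k1],[k0,k0,k0,k0,k1,k2]]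
    [.ref k6 k0 [(z1,[z1]),(z5,[z2,y6,z15]),(z2,[y1,z3,z0,z6]),(z5,[y1,z3,z0,z0,z15]),(z5,[y4,y3,y15,y15,y15,z15])],
    .ref k6 k0 [(z4,[z5,z2,y5]),(z2,[z1,y2,z5]),(z8,[y5,z10,z5,z24]),(z4,[y1,z2,z1,z0,z12]),(z1,[y1,y1,y2,y3,y3,z3])],
    .ref k6 k0 [(z1,[z2,y1,z0,y2]),(z5,[z4,y8,z15,y4]),(z1,[y1,z2,z0,z4]),(z5,[y2,z4,z0,z2,z15]),(z5,[y8,z1,y15,y7,
    y15,z15])],.ref k6 k0 [(z3,[z5,y1,z0,z0,y5]),(z3,[z2,y4,z9,z0,y2]),(z6,[y5,z10,z0,z18,z5]),(z3,[y1,z2,z0,z0,z10]),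
    (z3,[y4,y1,y9,y9,y5,z9])],.ref k6 k0 [(z2,[z5,z1,z5,z5,z5,y5]),(z1,[z1,y1,z4,z1,z1,y1]),(z4,[y5,z5,y5,z7,y5,z5]),
    (z2,[y1,z1,y1,y1,z5,z1]),(z1,[y2,y1,y5,y5,y5,z5])],.ref k6 k0 [(z3,[z10,y1,y10,y10]),(z3,[z4,y4,z5,y4]),(z3,[y5,
    z5,z5,z14]),(z3,[y2,z2,z2,z2,z9]),(z3,[y8,y1,y1,y1,y9,z9])],.ref k6 k0 [(z2,[z5,z1,y5,z0,y5]),(z1,[z1,y1,z2,z0,
    y1]),(z4,[y5,z5,z5,z12,z5]),(z2,[y1,z1,z1,z0,z7]),(z1,[y2,y1,y1,y3,y1,z3])],.ref k6 k0 [(z1,[z5,z3,z0,z5,z5,y5]),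
    (z1,[z2,z0,z3,z2,z2,y2]),(z2,[y5,z0,z0,z1,y5,z5]),(z1,[y1,z0,z0,y1,z2,z1]),(z1,[y4,y3,y3,y7,y7,z7])],
    .ref k6 k0 [(z1,[z2,z1,y2]),(z5,[z4,y4,z11]),(z1,[y1,z1,z1,z3]),(z5,[y2,z2,z2,z0,z15]),(z5,[y8,y7,y7,y15,y15,
    z15])],.ref k6 k0 [(z1,[z10,y7,z0,y10,y10]),(z1,[z4,y4,z3,y4,y4]),(z1,[y5,z5,z0,z8,z5]),(z1,[y2,z2,z0,z2,z5]),(z1,
    [y8,z5,y3,z5,z5,z3])],.ref k6 k0 [(z1,[z5,y2,z0,z0,y10]),(z1,[z2,y2,z3,z0,y4]),(z2,[y5,z5,z0,z6,z10]),(z1,[y1,z1,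
    z0,z0,z5]),(z1,[y4,z1,y3,y3,z5,z3])],.ref k6 k0 [(z3,[z10,y1,z0,z0,y10]),(z3,[z4,y4,z9,z0,y4]),(z3,[y5,z5,z0,z9,
    z5]),(z3,[y2,z2,z0,z0,z11]),(z3,[y8,y1,y9,y9,y1,z9])],.ref k6 k0 [(z2,[z5,z6,y15]),(z1,[z1]),(z4,[y5,z0,z15,z12]),
    (z2,[y1,z0,z3,z0,z6]),(z1,[y2,y3,z3,y3,y3,z3])],.ref k6 k0 [(z1,[z10,z3,y20,y10]),(z1,[z4,z0,y5,y4]),(z1,[y5,z0,
    z10,z8]),(z1,[y2,z0,z4,z2,z3]),(z1,[y8,y3,z13,z5,y3,z3])],.ref k6 k0 [(z1,[z5,z3,y10,z0,y5]),(z1,[z2,z0,y1,z0,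
    y2]),(z2,[y5,z0,z10,z6,z5]),(z1,[y1,z0,z2,z0,z4]),(z1,[y4,y3,z5,y3,z1,z3])],.ref k6 k0 [(z1,[y5,z3,z5,z10]),(z1,
    [y2,z0,z5,z4]),(z2,[z5,z0,y5,y4]),(z1,[z1,z0,y1,y2,z3]),(z1,[z4,y3,y7,y11,y3,z3])],.ref k6 k0 [(z1,[y10,z3,z10,
    z10,z10]),(z1,[y4,z0,z7,z4,z4]),(z1,[z5,z0,y5,y2,y5]),(z1,[z2,z0,y2,y2,z1]),(z1,[z8,y3,y11,y11,y11,z3])],
    .ref k6 k0 [(z3,[y10,y1,z0,z0,y10,z10]),(z3,[y4,y4,z9,z0,y4,z4]),(z3,[z5,z5,z0,z9,z5,y5]),(z3,[z2,z2,z0,z0,z11,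
    y2]),(z3,[z8,y1,y9,y9,y1,z1])],.ref k6 k0 [(z1,[z10,z3,y10,z0,y10]),(z1,[z4,z0,y1,z0,y4]),(z1,[y5,z0,z5,z3,z5]),
    (z1,[y2,z0,z2,z0,z5]),(z1,[y8,y3,z5,y3,z5,z3])],.ref k6 k0 [(z1,[y10,y7,z0,y10,y10,z10]),(z1,[y4,y4,z3,y4,y4,z4]),
    (z1,[z5,z5,z0,z8,z5,y5]),(z1,[z2,z2,z0,z2,z5,y2]),(z1,[z8,z5,y3,z5,z5,y5])],.ref k6 k0 [(z1,[y2,z3,z0,z6]),(z5,
    [y4,z0,z15,z12]),(z1,[z1]),(z5,[z2,z0,z0,y6,z15]),(z5,[z8,y15,y15,y39,y15,z15])],.ref k6 k0 [(z3,[y5,z4,y5,z5,y5,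
    z5]),(z3,[y2,y2,z7,z2,y2,z2]),(z6,[z5,z5,z5,z13,z5,y5]),(z3,[z1,z1,z1,y1,z10,y1]),(z3,[z4,y5,y5,y13,y5,z5])],
    .ref k6 k0 [(z7,[y10,z1,y20,y10,y20,z20]),(z7,[y4,y8,z13,y4,y8,z8]),(z7,[z5,z10,z10,z26,z10,y10]),(z7,[z2,z4,z4,
    z2,z25,y4]),(z7,[z8,y5,y5,y13,y5,z5])],.ref k6 k0 [(z1,[y5,z3,z0,z5,z5]),(z1,[y2,z0,z3,z2,z2]),(z2,[z5,z0,z0,z1,
    y5]),(z1,[z1,z0,z0,y1,z2]),(z1,[z4,y3,y3,y7,y7,z3])],.ref k6 k0 [(z1,[y2,y1,y4,y4,y4,z4]),(z5,[y4,y8,z7,y8,y8,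
    z8]),(z1,[z1,z2,z2,z5,z2,y2]),(z5,[z2,z4,z4,z4,z19,y4]),(z5,[z8,z1,z1,z1,z1,y1])],.ref k6 k0 [(z1,[y5,y2,y5,y5,y5,
    z5]),(z1,[y2,y2,z1,y2,y2,z2]),(z2,[z5,z5,z5,z11,z5,y5]),(z1,[z1,z1,z1,z1,z4,y1]),(z1,[z4,z1,z1,z1,z1,y1])]],
    .lp [(nat_lit 302),(nat_lit 302),(nat_lit 316),(nat_lit 338),(nat_lit 332),(nat_lit 326)] [k18,k18,k18,k18,k11,k11,k0,
    k0,k3,k3,k6,k6] k0 [[k0,k0,k8,k48,k0,k0,k0,k0,k0,k0,k4],[k0,k0,k0,k0,k0,k0,k22,k0,k0,k0,k10],[k0,k48,k0,k0,k0,k0,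
    k0,k0,k32,k12],[k0,k8,k0,k0,k0,k10],[k0,k0,k10],[k0,k0,k0,k0,k0,k0,k0,k18],[k0,k0,k0,k0,k18],[k22],[k0,k0,k0,k12,
    k0,k0,k0,k0,k0,k0,k0,k24],[k0,k0,k0,k32],[k0,k0,k0,k0,k0,k0,k0,k0,k0,k24],[k10,k4]] (nat_lit 960) k5
    [[(k3,(nat_lit 292)),(k0,(nat_lit 298)),(k4,(nat_lit 309)),(k8,(nat_lit 317)),(k7,(nat_lit 320)),(k11,
    (nat_lit 338))],[(k2,(nat_lit 254)),(k1,(nat_lit 298)),(k5,(nat_lit 301)),(k9,(nat_lit 317)),(k10,(nat_lit 324)),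
    (k6,(nat_lit 342))],[(k1,(nat_lit 292)),(k9,(nat_lit 295)),(k2,(nat_lit 310)),(k10,(nat_lit 318)),(k6,
    (nat_lit 320)),(k5,(nat_lit 357))],[(k0,(nat_lit 254)),(k11,(nat_lit 282)),(k8,(nat_lit 305)),(k4,(nat_lit 309)),
    (k3,(nat_lit 310)),(k7,(nat_lit 330))],[(k0,(nat_lit 301)),(k4,(nat_lit 306)),(k7,(nat_lit 327)),(k11,
    (nat_lit 333)),(k8,(nat_lit 356)),(k3,(nat_lit 357))],[(k5,(nat_lit 306)),(k1,(nat_lit 309)),(k2,(nat_lit 309)),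
    (k10,(nat_lit 321)),(k6,(nat_lit 327)),(k9,(nat_lit 342))],[(k1,(nat_lit 320)),(k6,(nat_lit 320)),(k5,
    (nat_lit 327)),(k2,(nat_lit 330)),(k10,(nat_lit 332)),(k9,(nat_lit 335))],[(k3,(nat_lit 320)),(k7,(nat_lit 320)),
    (k4,(nat_lit 327)),(k11,(nat_lit 332)),(k8,(nat_lit 335)),(k0,(nat_lit 342))],[(k3,(nat_lit 295)),(k0,
    (nat_lit 317)),(k11,(nat_lit 329)),(k8,(nat_lit 332)),(k7,(nat_lit 335)),(k4,(nat_lit 342))],[(k2,(nat_lit 305)),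
    (k10,(nat_lit 305)),(k1,(nat_lit 317)),(k9,(nat_lit 332)),(k6,(nat_lit 335)),(k5,(nat_lit 356))],[(k2,
    (nat_lit 282)),(k10,(nat_lit 326)),(k9,(nat_lit 329)),(k6,(nat_lit 332)),(k5,(nat_lit 333)),(k1,(nat_lit 338))],
    [(k8,(nat_lit 305)),(k3,(nat_lit 318)),(k4,(nat_lit 321)),(k0,(nat_lit 324)),(k11,(nat_lit 326)),(k7,
    (nat_lit 332))]]
    [] k0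
    [[k3,k0,k0,k0,k0,k0],[k2,k1,k0,k0,k0,k0],[k2,k0,k1,k0,k0,k0],[k2,k0,k0,k0,k1,k0],[k1,k2,k0,k0,k0,k0],[k1,k1,k1,k0,
    k0,k0],[k1,k1,k0,k0,k1,k0],[k1,k1,k0,k0,k0,k1],[k1,k0,k2,k0,k0,k0],[k1,k1,k0,k1,k0,k0],[k1,k0,k1,k1,k0,k0],[k0,k3,
    k0,k0,k0,k0],[k0,k2,k0,k0,k1,k0],[k0,k2,k0,k0,k0,k1],[k0,k1,k1,k1,k0,k0],[k0,k1,k0,k1,k0,k1],[k0,k1,k0,k0,k2,k0],
    [k0,k1,k0,k0,k1,k1],[k0,k1,k0,k0,k0,k2],[k0,k0,k3,k0,k0,k0]]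
    [.ref (nat_lit 241) k2 [(z1,[y1,z3,z6]),(z1,[y1,z3,z0,z3]),(z1,[z0,y1,y1,y1,z1]),(z1,[z1,y3])],.ref k125 k8 [(z1,
    [z1,y2,y1]),(z1,[z0,y1,y1,y1,z1]),(z1,[z4,z1,y1,z3,y3]),(z1,[y1,y1,z1,y3,z3])],.ref k16 k7 [(z2,[y1,z2,z0,z1]),
    (z2,[z1,z0,z0,y1]),(z1,[y1,z2,z1,z1]),(z1,[z0,z0,z0,z1])],.ref (nat_lit 238) k7 [(z1,[y1,z2]),(z1,[z1]),(z1,[y1,
    z2,z1]),(z1,[z0,z0,z0,z1])],.ref k138 k0 [(z1,[y1,z4,z2]),(z1,[z2,y2,y1]),(z1,[z0,z0,z0,z1]),(z1,[y2,y1,z1,y3,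
    z3])],.ref k16 k7 [(z1,[z1,y1,y1,y1]),(z1,[y1,z2,z1,z1]),(z1,[z2,y2,y1,y2]),(z1,[z0,z0,z0,z1])],.ref k46 k9 [(z1,
    [y2,z1,z1,y1,z1]),(z1,[z0,z0,z0,z1]),(z1,[z2,y2,y1]),(z1,[y1,z2,z1])],.ref k12 k8 [(z1,[z1,z0,z0,z1,y1]),(z1,[z0,
    y1,y1,y1,z1]),(z1,[z4,z3,z1,z5,y5]),(z1,[y1,y1,z0,y2,z2])],.ref k46 k9 [(z1,[z2,y3,y1,y5,z1]),(z1,[z0,z0,z0,z1]),
    (z1,[y2,z2,z1,z4]),(z1,[z1,z0,z0,y2])],.ref k16 k7 [(z1,[y1,z0,z0,y1,z1]),(z1,[z1,z1,z0,z1,y1]),(z1,[y2,z0,z1,y2,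
    z2]),(z1,[z0,z0,z0,z1])],.ref k138 k0 [(z1,[z1,z3,z1,z0,y1]),(z1,[y2,z0,z1,z0,z2]),(z1,[z0,z0,z0,z1]),(z1,[z2,y3,
    y1,y3,z1])],.ref (nat_lit 242) k0 [(z1,[y2,z3,z6]),(z1,[z1]),(z1,[z2,z0,y6,z3]),(z1,[z0,y1,y1,y1,z1])],
    .ref k80 k0 [(z1,[y2,z1,z4]),(z1,[z1,z0,y1]),(z1,[z2,z0,y4,z1]),(z1,[z0,y1,y1,y1,z1])],.ref (nat_lit 243) k1 [(z1,
    [y4,z0,y2,z1]),(z1,[y2,y1,y1,y1,z1]),(z1,[z2,z0,z1]),(z1,[z1])],.ref k125 k8 [(z1,[y1,y1,z0,z0,z1]),(z1,[z0,y1,y1,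
    y1,z1]),(z1,[y4,z5,z3,z3,z1]),(z1,[z1,y2,z0,y3,z2])],.ref k16 k7 [(z1,[z1,z1,z0,z1,y1]),(z1,[y1,z0,z0,y1,z1]),(z1,
    [z2,z2,z1,z2,y2]),(z1,[z0,z0,z0,z1])],.ref k12 k8 [(z1,[z1,z1,z0,z1,y1]),(z1,[z0,y1,y1,y1,z1]),(z1,[z4,z7,z1,z5,
    y5]),(z1,[y1,y2,z0,y2,z2])],.ref k138 k0 [(z1,[y1,z3,z1]),(z1,[z2,z0,z1]),(z1,[z0,z0,z0,z1]),(z1,[y2,y3,y1,y3,
    z3])],.ref k80 k0 [(z1,[y2,z1,z2]),(z1,[z1]),(z1,[z2,z0,y2,z1]),(z1,[z0,y1,y1,y1,z1])],.ref k125 k8 [(z2,[y1,z0,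
    z0,z3]),(z1,[z0,y1,y1,y1,z1]),(z1,[y2,z9,z3,z9,y3]),(z2,[z1,y6,z0,y9,z6])]],
    .lp [(nat_lit 308),(nat_lit 296),(nat_lit 340),(nat_lit 310),(nat_lit 344),(nat_lit 320)] [k18,k18,k18,k30,k2,k2,k17,
    k17,k0,k0,k12,k12] k0 [[k0,k0,k42,k68],[k0,k0,k0,k0,k0,k0,k6,k0,k0,k0,k40],[k0,k68,k0,k0,k0,k0,k0,k0,k10],[k0,k42,
    k0,k0,k4,k16],[k0,k0,k16,k0,k0,k0,k0,k10,k0,k0,k0,k54],[k0,k0,k4,k0,k0,k0,k0,k10],[k0,k0,k0,k0,k10,k10],[k6,k0,k0,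
    k0,k0,k0,k0,k0,k0,k48],[k0,k0,k0,k0,k0,k0,k48],[k0,k0,k0,k10,k0,k0,k0,k0,k0,k0,k16],[k0,k0,k0,k0,k0,k54],[k40,k0,
    k0,k0,k0,k0,k0,k0,k16]] (nat_lit 960) k5
    [[(k3,(nat_lit 256)),(k11,(nat_lit 298)),(k0,(nat_lit 308)),(k4,(nat_lit 324)),(k8,(nat_lit 326)),(k7,
    (nat_lit 363))],[(k2,(nat_lit 240)),(k5,(nat_lit 282)),(k1,(nat_lit 308)),(k6,(nat_lit 315)),(k9,(nat_lit 326)),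
    (k10,(nat_lit 354))],[(k1,(nat_lit 256)),(k6,(nat_lit 297)),(k10,(nat_lit 302)),(k9,(nat_lit 308)),(k2,
    (nat_lit 338)),(k5,(nat_lit 380))],[(k0,(nat_lit 240)),(k11,(nat_lit 304)),(k7,(nat_lit 325)),(k8,(nat_lit 326)),
    (k4,(nat_lit 328)),(k3,(nat_lit 338))],[(k0,(nat_lit 282)),(k7,(nat_lit 321)),(k4,(nat_lit 324)),(k11,
    (nat_lit 330)),(k8,(nat_lit 352)),(k3,(nat_lit 380))],[(k10,(nat_lit 276)),(k6,(nat_lit 315)),(k1,(nat_lit 324)),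
    (k5,(nat_lit 324)),(k2,(nat_lit 328)),(k9,(nat_lit 352))],[(k6,(nat_lit 300)),(k10,(nat_lit 315)),(k5,
    (nat_lit 321)),(k2,(nat_lit 325)),(k9,(nat_lit 337)),(k1,(nat_lit 363))],[(k3,(nat_lit 297)),(k7,(nat_lit 300)),
    (k0,(nat_lit 315)),(k4,(nat_lit 315)),(k8,(nat_lit 327)),(k11,(nat_lit 363))],[(k8,(nat_lit 296)),(k3,
    (nat_lit 308)),(k0,(nat_lit 326)),(k11,(nat_lit 332)),(k7,(nat_lit 337)),(k4,(nat_lit 352))],[(k9,(nat_lit 296)),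
    (k1,(nat_lit 326)),(k2,(nat_lit 326)),(k6,(nat_lit 327)),(k10,(nat_lit 348)),(k5,(nat_lit 352))],[(k1,
    (nat_lit 298)),(k2,(nat_lit 304)),(k10,(nat_lit 320)),(k5,(nat_lit 330)),(k9,(nat_lit 332)),(k6,(nat_lit 363))],
    [(k4,(nat_lit 276)),(k3,(nat_lit 302)),(k7,(nat_lit 315)),(k11,(nat_lit 320)),(k8,(nat_lit 348)),(k0,
    (nat_lit 354))]]
    [] k0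
    [[k3,k0,k0,k0,k0,k0],[k2,k1,k0,k0,k0,k0],[k2,k0,k1,k0,k0,k0],[k1,k2,k0,k0,k0,k0],[k1,k1,k1,k0,k0,k0],[k1,k1,k0,k1,
    k0,k0],[k1,k1,k0,k0,k1,k0],[k1,k1,k0,k0,k0,k1],[k1,k0,k2,k0,k0,k0],[k1,k0,k0,k0,k2,k0],[k1,k0,k1,k0,k0,k1],[k1,k0,
    k0,k1,k0,k1],[k0,k2,k0,k0,k0,k1],[k0,k1,k1,k1,k0,k0],[k0,k1,k0,k2,k0,k0],[k0,k1,k0,k1,k0,k1],[k0,k1,k0,k0,k2,k0],
    [k0,k1,k0,k0,k0,k2],[k0,k0,k2,k0,k0,k1],[k0,k0,k1,k2,k0,k0],[k0,k0,k1,k0,k0,k2],[k0,k0,k0,k3,k0,k0],[k0,k0,k0,k0,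
    k3,k0]]
    [.ref k6 k0 [(z1,[z1]),(z2,[z3,y3,z2]),(z1,[z0,z0,z0,z1]),(z1,[y1,z1,z0,z0,z3]),(z1,[y2,z1,y1,y1,y3,z3])],
    .ref k6 k0 [(z7,[z6,z3,y2]),(z7,[z9,y6,z4]),(z1,[z0,z0,z0,z1]),(z7,[y6,z4,z2,z0,z21]),(z7,[y12,z1,y3,y7,y21,
    z21])],.ref k6 k0 [(z2,[z3,z0,z0,y1]),(z4,[z9,y6,z4,y3]),(z1,[z0,z0,z0,z1]),(z2,[y3,z2,z0,z1,z6]),(z1,[y3,z1,y1,
    z0,y3,z3])],.ref k6 k0 [(z4,[z3,z3,y2]),(z8,[z9,y3,z2]),(z1,[z0,z0,z0,z1]),(z4,[y3,z1,z2,z0,z12]),(z2,[y3,y1,z0,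
    y2,y6,z6])],.ref k6 k0 [(z5,[z6,z3,y2,y2]),(z5,[z9,y3,z2,y3]),(z1,[z0,z0,z0,z1]),(z5,[y6,z2,z2,z2,z15]),(z5,[y12,
    y1,y1,y1,y15,z15])],.ref k6 k0 [(z3,[z6,z1,y2,z0,y6]),(z1,[z3,y1,z0,z0,y3]),(z1,[z0,z0,z0,z1]),(z3,[y6,z2,z2,z0,
    z15]),(z3,[y12,z1,z1,y3,z3,z9])],.ref k6 k0 [(z1,[z6,z1,z0,z2,z6,y6]),(z1,[z9,z0,z1,z3,z9,y9]),(z1,[z0,z0,z0,z1]),
    (z1,[y6,z0,z0,y2,y3,z6]),(z1,[y12,y1,y1,y5,y15,z15])],.ref k6 k0 [(z3,[z3,z2,y1]),(z2,[z3,y1,z1]),(z1,[z0,z0,z0,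
    z1]),(z3,[y3,z1,z1,z0,z9]),(z3,[y6,y1,y1,y3,y9,z9])],.ref k6 k0 [(z1,[z3,z0,z0,y2]),(z2,[z9,y3,z2,y6]),(z1,[z0,z0,
    z0,z1]),(z1,[y3,z1,z0,z2,z3]),(z1,[y6,z1,y1,z3,y3,z3])],.ref k6 k0 [(z3,[y3,z2,y2,y2,y6,z6]),(z2,[y3,y1,z0,y2,y6,
    z6]),(z1,[z0,z0,z0,z1]),(z3,[z3,z1,z2,z2,z15,y6]),(z3,[z6,y1,z1,z1,z3,y3])],.ref k6 k0 [(z3,[z6,z1,z0,y2]),(z1,
    [z3,y1,z1,y1]),(z1,[z0,z0,z0,z1]),(z3,[y6,z2,z0,z2,z9]),(z3,[y12,z1,y3,z1,y9,z9])],.ref k6 k0 [(z1,[z6,y1,z0,z0,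
    y6]),(z1,[z9,y3,z1,z0,y9]),(z1,[z0,z0,z0,z1]),(z1,[y6,z2,z0,z0,z9]),(z1,[y12,z3,y1,y1,z9,z3])],.ref k6 k0 [(z7,
    [z6,z7,y4]),(z7,[z9,z0,z1]),(z1,[z0,z0,z0,z1]),(z7,[y6,z0,z4,z0,z21]),(z7,[y12,y7,z1,y7,y21,z21])],
    .ref k6 k0 [(z1,[z6,z1,y2,y2,y6]),(z1,[z9,z0,y2,y3,y9]),(z1,[z0,z0,z0,z1]),(z1,[y6,z0,z2,z2,z9]),(z1,[y12,y1,z3,
    z3,z9,z3])],.ref k6 k0 [(z1,[y6,z1,z2,z0,z12]),(z1,[y9,z0,z4,z0,z18]),(z1,[z0,z0,z0,z1]),(z1,[z6,z0,y2,z0,y9]),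
    (z1,[z12,y1,y5,y1,y27,z3])],.ref k6 k0 [(z1,[z3,z1,y1,z0,y3]),(z2,[z9,z0,y1,z0,y9]),(z1,[z0,z0,z0,z1]),(z1,[y3,z0,
    z1,z0,z6]),(z1,[y6,y1,z1,y1,z3,z3])],.ref k6 k0 [(z5,[y6,z1,y2,y4,y12,z12]),(z5,[y9,y6,z2,y6,y18,z18]),(z1,[z0,z0,
    z0,z1]),(z5,[z6,z4,z2,z4,z27,y12]),(z5,[z12,z3,y1,z3,z9,y9])],.ref k6 k0 [(z5,[z6,z5,y2]),(z5,[z9,z0,z2]),(z1,[z0,
    z0,z0,z1]),(z5,[y6,z0,z2,z0,z15]),(z5,[y12,y5,y1,y5,y15,z15])],.ref k6 k0 [(z1,[z6,z1,z0,y4]),(z1,[z9,z0,z1,y6]),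
    (z1,[z0,z0,z0,z1]),(z1,[y6,z0,z0,z4,z3]),(z1,[y12,y1,y1,z7,y3,z3])],.ref k6 k0 [(z2,[y3,z2,z0,z1,z6]),(z4,[y9,z0,
    z4,z3,z18]),(z1,[z0,z0,z0,z1]),(z2,[z3,z0,z0,y1]),(z1,[z3,y1,y1,y2,y9,z3])],.ref k6 k0 [(z1,[z3,z1,z0,y1]),(z2,
    [z9,z0,z2,y3]),(z1,[z0,z0,z0,z1]),(z1,[y3,z0,z0,z1,z3]),(z1,[y6,y1,y1,z1,y3,z3])],.ref k6 k0 [(z1,[y1,z1,z0,z0,
    z3]),(z2,[y3,z0,z2,z0,z9]),(z1,[z0,z0,z0,z1]),(z1,[z1]),(z1,[z2,y1,y1,y1,y9,z3])],.ref k6 k0 [(z2,[y1,z1,y1,y1,y3,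
    z3]),(z4,[y3,y3,z1,y3,y9,z9]),(z1,[z0,z0,z0,z1]),(z2,[z1,z1,z1,z1,z9,y3]),(z1,[z1])]],
    .lp [k74,k78,k80,k80,k86,k80] [k6,k6,k4,k4,k3,k3,k3,k3,k0,k0,k3,k3] k0 [[k0,k0,k0,k0,k0,k0,k0,k0,k0,k0,k6,k6],[k0,k0,
    k4],[k0,k0,k0,k0,k0,k4],[k4,k0,k0,k0,k0,k4],[k0,k0,k4,k4],[k0,k0,k0,k0,k0,k0,k0,k0,k0,k0,k6],[k0,k0,k0,k0,k0,k0,
    k0,k0,k0,k6],[],[k0,k0,k0,k0,k0,k0,k0,k6],[],[k0,k6],[k0,k6,k0,k0,k6]] (nat_lit 240) k5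
    [[(k0,k68),(k7,k71),(k4,k77),(k11,k77),(k8,k80),(k3,k82)],[(k1,k68),(k10,k71),(k5,k77),(k6,k77),(k2,k80),(k9,
    k80)],[(k5,k75),(k2,k78),(k6,k79),(k1,k82),(k9,k82),(k10,k85)],[(k4,k75),(k3,k78),(k11,k79),(k0,k80),(k8,k82),(k7,
    k83)],[(k3,k75),(k4,k76),(k0,k77),(k11,k80),(k8,k83),(k7,k84)],[(k2,k75),(k5,k76),(k1,k77),(k6,k80),(k9,k83),(k10,
    k86)],[(k1,k71),(k6,k80),(k10,k80),(k2,k83),(k9,k83),(k5,k84)],[(k0,k77),(k8,k77),(k3,k79),(k4,k80),(k7,k80),(k11,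
    k80)],[(k0,k80),(k3,k82),(k4,k83),(k7,k83),(k8,k86),(k11,k89)],[(k6,k77),(k1,k80),(k2,k82),(k5,k83),(k10,k83),(k9,
    k86)],[(k1,k77),(k2,k79),(k5,k80),(k6,k80),(k10,k80),(k9,k89)],[(k0,k71),(k7,k80),(k11,k80),(k8,k83),(k3,k85),(k4,
    k86)]]
    [] k0
    [[k3,k0,k0,k0,k0,k0],[k2,k1,k0,k0,k0,k0],[k2,k0,k1,k0,k0,k0],[k2,k0,k0,k1,k0,k0],[k2,k0,k0,k0,k1,k0],[k2,k0,k0,k0,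
    k0,k1],[k1,k1,k1,k0,k0,k0],[k1,k1,k0,k0,k0,k1],[k1,k0,k2,k0,k0,k0],[k1,k0,k1,k1,k0,k0],[k1,k0,k1,k0,k0,k1],[k1,k1,
    k0,k1,k0,k0],[k1,k0,k0,k2,k0,k0],[k1,k0,k0,k1,k1,k0],[k1,k0,k0,k1,k0,k1],[k1,k0,k0,k0,k0,k2],[k0,k3,k0,k0,k0,k0],
    [k0,k2,k1,k0,k0,k0],[k0,k1,k2,k0,k0,k0],[k0,k1,k1,k1,k0,k0],[k0,k1,k0,k1,k0,k1],[k0,k0,k3,k0,k0,k0]]
    [.ref k6 k0 [(z1,[z1]),(z3,[y4,z4,z3]),(z3,[y2,z2,z0,z9]),(z3,[z2,y2,z0,z0,z3]),(z3,[z1,y1])],.ref k6 k0 [(z2,[z9,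
    y4,y3]),(z1,[y6,z4,z3]),(z1,[y3,z2,z1,z3]),(z1,[z3,y2,y1,z0,z1]),(z2,[z3,y2,y1])],.ref k6 k0 [(z4,[z9,y2,z0,y9]),
    (z1,[y3,z2,z1,z3]),(z2,[y3,z2,z0,z9]),(z2,[z3,y2,z0,y3,z2]),(z4,[z3,y2,z0,y3])],.ref k6 k0 [(z8,[z9,z2,z0,z0,y3]),
    (z2,[y3,z2,z2,z0,z1]),(z4,[y3,z2,z0,z12,z1]),(z4,[z3,y2,z0,z0,z3]),(z8,[z3,y2,z0,z0,y1])],.ref k6 k0 [(z7,[z9,
    z1]),(z7,[y12,z8,z7]),(z7,[y6,z4,z0,z21]),(z7,[z6,y4,z0,z0,z7]),(z7,[z3,y2])],.ref k6 k0 [(z2,[z3,z1,z1,z3,z1,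
    y3]),(z3,[y6,z2,z1,y6,y2,z6]),(z3,[y3,z1,y1,z6,y1,z3]),(z3,[z3,y1,z1,z3,z4,y3]),(z6,[z3,y1,z1,z3,z1,y3])],
    .ref k6 k0 [(z1,[y3,z2,z1,z3]),(z3,[z12,y4,y1,y12]),(z3,[z6,y2,y2,z3]),(z3,[y6,z2,z2,z6,z3]),(z3,[y3,z1,z1,z3])],
    .ref k6 k0 [(z1,[y9,z1,z0,y9,y3,z9]),(z1,[z12,z0,z1,z12,z4,y12]),(z1,[z6,z0,z0,z9,z2,y6]),(z1,[y6,z0,z0,y6,y1,
    z6]),(z1,[y3,z0,z0,y3,y1,z3])],.ref k6 k0 [(z1,[y9,z4,z0,z18]),(z1,[z12,y4,z1,y24]),(z1,[z6,y2,z0,y9]),(z1,[y6,z2,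
    z0,z12,z1]),(z1,[y3,z1,z0,z6])],.ref k6 k0 [(z1,[z3,z0,z0,y3,y1]),(z3,[y12,z4,z3,z12,z4]),(z3,[y6,z2,z0,z15,z2]),
    (z3,[z6,y2,z0,y6,z1]),(z3,[z3,y1,z0,y3,y1])],.ref k6 k0 [(z1,[z9,z1,z3,z0,z3,y9]),(z1,[y12,z0,y3,z0,y4,z12]),(z1,
    [y6,z0,y2,z3,y2,z6]),(z1,[z6,z0,z2,z0,z3,y6]),(z1,[z3,z0,z1,z0,z1,y3])],.ref k6 k0 [(z1,[z9,y2,y3,z0,y3]),(z1,
    [y12,z4,z5,z0,z4]),(z1,[y6,z2,z2,z3,z2]),(z1,[z6,y2,y2,z0,y1]),(z1,[z3,y1,y1,z0,y1])],.ref k6 k0 [(z7,[z9,z4,z0,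
    z0,y6]),(z7,[y12,z4,z7,z0,z8]),(z7,[y6,z2,z0,z21,z4]),(z7,[z6,y2,z0,z0,z3]),(z7,[z3,y1,z0,z0,y2])],
    .ref k6 k0 [(z2,[z3,z1,z0,z0,y1]),(z3,[y6,z2,z3,z0,z2]),(z3,[y3,z1,z0,z9,z1]),(z3,[z3,y1,z0,z0,z2]),(z6,[z3,y1,z0,
    z0,y1])],.ref k6 k0 [(z5,[z9,z5,z3,z9,z0,y9]),(z5,[y12,z0,z1,y12,z0,z12]),(z5,[y6,z0,y2,z9,z0,z6]),(z5,[z6,z0,z2,
    z6,z5,y6]),(z5,[z3,z0,z1,z3,z0,y3])],.ref k6 k0 [(z1,[z3,z2,z2,z6,z2,y6]),(z3,[y12,y4,y5,y24,y8,z24]),(z3,[y6,y2,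
    y4,y3,y4,z12]),(z3,[z6,z2,z4,z12,z7,y12]),(z3,[z3,z1,z2,z6,z2,y6])],.ref k6 k0 [(z4,[y3,z4,z3]),(z1,[z1]),(z2,[z1,
    z0,y1,z6]),(z2,[y1,z0,z1,z0,z2]),(z4,[y1,z0,z1])],.ref k6 k0 [(z10,[y9,z10,z6,z9]),(z5,[z6,z0,z1,y6]),(z5,[z3,z0,
    y2,z12]),(z5,[y3,z0,z2,z3,z5]),(z10,[y3,z0,z2,z3])],.ref k6 k0 [(z8,[y9,z8,z3,z18]),(z2,[z3,z0,z1,y6]),(z4,[z3,z0,
    y1,z6]),(z4,[y3,z0,z1,z6,z4]),(z8,[y3,z0,z1,z6])],.ref k6 k0 [(z4,[y9,z4,z3,z9,z3]),(z1,[z3,z0,z0,y3,y1]),(z2,[z3,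
    z0,y1,z3,y1]),(z2,[y3,z0,z1,z3,z3]),(z4,[y3,z0,z1,z3,z1])],.ref k6 k0 [(z2,[y9,y1,z0,y9,z0,z9]),(z1,[z6,z2,z1,z6,
    z0,y6]),(z1,[z3,z1,z0,z6,z0,y3]),(z1,[y3,y1,z0,y3,z1,z3]),(z2,[y3,y1,z0,y3,z0,z3])],.ref k6 k0 [(z2,[y3,z2,z0,
    z9]),(z1,[z2,z0,z1,y6]),(z1,[z1]),(z1,[y1,z0,z0,z3,z1]),(z2,[y1,z0,z0,z3])]],
    .lp [k78,k74,k80,k82,k82,k82] [k2,k2,k6,k2,k1,k1,k0,k0,k0,k0,k0,k0] k0 [[k0,k0,k0,k0,k0,k0,k0,k2,k0,k0,k8,k8],[k0,k0,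
    k18,k12],[k12,k0,k0,k0,k0,k2],[k18],[k0,k0,k0,k2,k0,k0,k2,k2],[k0,k0,k0,k0,k0,k0,k0,k0,k0,k0,k2],[k0,k2,k0,k0,k0,
    k2],[k0,k0,k0,k0,k0,k2],[],[k0,k0,k0,k0,k0,k0,k0,k0,k0,k0,k0,k6],[k0,k8,k0,k0,k0,k0,k0,k0,k6],[k0,k8,k0,k0,
    k2]] (nat_lit 240) k5
    [[(k0,k70),(k7,k78),(k4,k79),(k11,k80),(k3,k86),(k8,k86)],[(k1,k70),(k10,k72),(k6,k78),(k9,k80),(k5,k91),(k2,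
    k92)],[(k5,k61),(k2,k62),(k6,k80),(k9,k82),(k1,k86),(k10,k88)],[(k3,k62),(k4,k73),(k7,k76),(k8,k76),(k11,k76),(k0,
    k92)],[(k3,k61),(k4,k80),(k8,k81),(k11,k81),(k7,k83),(k0,k91)],[(k2,k73),(k1,k79),(k6,k79),(k9,k79),(k5,k80),(k10,
    k83)],[(k2,k76),(k1,k78),(k10,k82),(k5,k83),(k6,k84),(k9,k84)],[(k0,k78),(k4,k79),(k3,k80),(k8,k82),(k11,k82),(k7,
    k84)],[(k4,k79),(k0,k80),(k3,k82),(k8,k82),(k11,k82),(k7,k84)],[(k2,k76),(k5,k81),(k6,k82),(k9,k82),(k10,k82),(k1,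
    k86)],[(k2,k76),(k10,k76),(k1,k80),(k5,k81),(k6,k82),(k9,k82)],[(k0,k72),(k11,k76),(k7,k82),(k8,k82),(k4,k83),(k3,
    k88)]]
    [] k0
    [[k3,k0,k0,k0,k0,k0],[k2,k0,k0,k1,k0,k0],[k2,k0,k0,k0,k1,k0],[k2,k0,k0,k0,k0,k1],[k1,k1,k0,k0,k0,k1],[k1,k1,k1,k0,
    k0,k0],[k1,k0,k1,k0,k0,k1],[k1,k0,k0,k1,k0,k1],[k1,k0,k0,k0,k0,k2],[k0,k3,k0,k0,k0,k0],[k0,k2,k1,k0,k0,k0],[k0,k2,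
    k0,k1,k0,k0],[k0,k2,k0,k0,k1,k0],[k0,k2,k0,k0,k0,k1],[k0,k1,k2,k0,k0,k0],[k0,k1,k1,k1,k0,k0],[k0,k1,k1,k0,k1,k0],
    [k0,k1,k1,k0,k0,k1],[k0,k1,k0,k1,k0,k1],[k0,k0,k0,k0,k0,k3]]
    [.ref (nat_lit 245) k8 [(z1,[y1,z9,z6,z6,y6]),(z1,[y2,z15,z9,z9,y9]),(z1,[z1]),(z1,[z0,y2,y1,y2,z2])],
    .ref k59 k2 [(z1,[y2,y2,y1,y2,z2]),(z1,[y4,y6,y4,y3,z4]),(z1,[z1]),(z1,[z2,z3,z2,z2,y2])],.ref k56 k8 [(z1,[y1,z6,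
    z4,z4,y4]),(z1,[y2,z11,z7,z7,y7]),(z1,[z1,y3,y2,y2,z2]),(z1,[z0,y2,y1,y2,z2])],.ref k38 k1 [(z1,[y4,z2,z0,z3]),
    (z1,[z1,y5,y3,y3,z3]),(z1,[z2,y1]),(z1,[z1])],.ref k16 k8 [(z1,[z1,z0,z0,z1,y1]),(z1,[z2,y1,y1,z1,y1]),(z1,[y1,z3,
    z2,z1,y1]),(z1,[z0,y2,y1,y2,z2])],.ref k192 k1 [(z1,[z2,y2,y2,z1]),(z1,[z0,y2,y1,y2,z2]),(z1,[y1,z1,z1,z1]),(z1,
    [y4,z4,z1,z4])],.ref k16 k8 [(z1,[y1,z2,z1,z2,y1]),(z1,[y2,z3,z1,z3,y1]),(z1,[z1,z1,z1,z0,y1]),(z1,[z0,y2,y1,y2,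
    z2])],.ref k45 k4 [(z1,[y2,z4,z2,z3,y2]),(z1,[z0,y2,y1,y2,z2]),(z1,[y1,z5,z3,z3,y3]),(z1,[z2,y5,y3,y3,z3])],
    .ref k192 k1 [(z1,[y2,z2,z0,z3]),(z1,[z0,y2,y1,y2,z2]),(z1,[z1,y1]),(z1,[z4,y4,y3])],.ref k38 k1 [(z1,[z2,y6,y6,
    z3]),(z2,[y1,y6,y3,y6,z6]),(z1,[y1,z3,z3]),(z2,[y1,z4,z3])],.ref k45 k4 [(z1,[z1,z4,z2,z4,y4]),(z1,[z0,y2,y1,y2,
    z2]),(z2,[z1,z10,z6,z7,y8]),(z1,[y1,y5,y3,y4,z5])],.ref k38 k1 [(z1,[z4,y2,y4,z7,y4]),(z1,[y1,y4,y2,y4,z4]),(z1,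
    [y2,z1,z2,y2,z2]),(z1,[y1,z1,z1,y1,z1])],.ref k56 k8 [(z1,[z1,z4,z2,z4,y4]),(z1,[z2,z7,z3,z7,y7]),(z1,[y1,y1,z0,
    y2,z2]),(z1,[z0,y2,y1,y2,z2])],.ref k59 k2 [(z1,[z2,y4,y3]),(z1,[z4,y10,y8,z1]),(z1,[y1,z1,z1,y1,z1]),(z1,[y2,z5,
    z4])],.ref k162 k7 [(z2,[z1,z0,y1,y2]),(z1,[y1,z1,z1,z2]),(z1,[z1,z0,z0,y2]),(z1,[z0,z0,z0,z1])],
    .ref k162 k7 [(z1,[z1,z1,z0,z0,y1]),(z1,[y2,y1,z0,z0,z2]),(z1,[z2,z2,z1,z0,y2]),(z1,[z0,z0,z0,z1])],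
    .ref k45 k4 [(z1,[z2,z4,z2,z3,y4]),(z1,[z0,y2,y1,y2,z2]),(z1,[z1,z5,z3,z3,y4]),(z1,[y2,y5,y3,y3,z5])],
    .ref k38 k1 [(z1,[z4,y6,y4,y1]),(z1,[y1,y3,y2,y2,z3]),(z1,[y2,z3,z2,z2]),(z1,[y1,z2,z1,z1])],.ref k16 k8 [(z2,[z1,
    z3,z2,z3,y3]),(z1,[z1,z2,z1,z2,y2]),(z2,[y1,z3,z2,z1,y1]),(z1,[z0,y2,y1,y2,z2])],.ref (nat_lit 246) k0 [(z1,[y2,
    z3]),(z1,[z2,z0,z3]),(z1,[z0,z0,z0,z1]),(z1,[y1,y3,y3,y3,z3])]],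
    .lp [k74,k78,k80,k80,k86,k80] [k6,k6,k4,k4,k3,k3,k3,k3,k0,k0,k3,k3] k0 [[k0,k0,k0,k0,k0,k0,k0,k0,k0,k0,k6,k6],[k0,k0,
    k4],[k0,k0,k0,k0,k0,k4],[k4,k0,k0,k0,k0,k4],[k0,k0,k4,k4],[k0,k0,k0,k0,k0,k0,k0,k0,k0,k0,k6],[k0,k0,k0,k0,k0,k0,
    k0,k0,k0,k6],[],[k0,k0,k0,k0,k0,k0,k0,k6],[],[k0,k6],[k0,k6,k0,k0,k6]] (nat_lit 240) k5
    [[(k0,k68),(k7,k71),(k4,k77),(k11,k77),(k8,k80),(k3,k82)],[(k1,k68),(k10,k71),(k5,k77),(k6,k77),(k2,k80),(k9,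
    k80)],[(k5,k75),(k2,k78),(k6,k79),(k1,k82),(k9,k82),(k10,k85)],[(k4,k75),(k3,k78),(k11,k79),(k0,k80),(k8,k82),(k7,
    k83)],[(k3,k75),(k4,k76),(k0,k77),(k11,k80),(k8,k83),(k7,k84)],[(k2,k75),(k5,k76),(k1,k77),(k6,k80),(k9,k83),(k10,
    k86)],[(k1,k71),(k6,k80),(k10,k80),(k2,k83),(k9,k83),(k5,k84)],[(k0,k77),(k8,k77),(k3,k79),(k4,k80),(k7,k80),(k11,
    k80)],[(k0,k80),(k3,k82),(k4,k83),(k7,k83),(k8,k86),(k11,k89)],[(k6,k77),(k1,k80),(k2,k82),(k5,k83),(k10,k83),(k9,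
    k86)],[(k1,k77),(k2,k79),(k5,k80),(k6,k80),(k10,k80),(k9,k89)],[(k0,k71),(k7,k80),(k11,k80),(k8,k83),(k3,k85),(k4,
    k86)]]
    [] k0
    [[k3,k0,k0,k0,k0,k0],[k2,k1,k0,k0,k0,k0],[k2,k0,k1,k0,k0,k0],[k2,k0,k0,k1,k0,k0],[k2,k0,k0,k0,k1,k0],[k2,k0,k0,k0,
    k0,k1],[k1,k1,k1,k0,k0,k0],[k1,k1,k0,k0,k0,k1],[k1,k0,k2,k0,k0,k0],[k1,k0,k1,k1,k0,k0],[k1,k0,k1,k0,k0,k1],[k1,k1,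
    k0,k1,k0,k0],[k1,k0,k0,k2,k0,k0],[k1,k0,k0,k1,k1,k0],[k1,k0,k0,k1,k0,k1],[k1,k0,k0,k0,k0,k2],[k0,k3,k0,k0,k0,k0],
    [k0,k2,k1,k0,k0,k0],[k0,k1,k2,k0,k0,k0],[k0,k1,k1,k1,k0,k0],[k0,k1,k0,k1,k0,k1],[k0,k0,k3,k0,k0,k0]]
    [.ref k6 k0 [(z1,[z1]),(z2,[y1,z3,z6]),(z8,[y1,z3,z0,z12]),(z8,[y1,z3,z0,z0,z12]),(z2,[y1,y3,y6,y3,y3,z6])],
    .ref k6 k0 [(z1,[z2,y1,y2]),(z1,[y1,z2,z4]),(z4,[y1,z2,z1,z6]),(z4,[y1,z2,z1,z0,z6]),(z2,[y2,y2,y4,y3,y3,z6])],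
    .ref k6 k0 [(z5,[z8,y1,z0,y4]),(z5,[y4,z8,z15,z2]),(z5,[y1,z2,z0,z8]),(z10,[y2,z4,z0,z1,z15]),(z10,[y8,y14,y30,
    y11,y15,z30])],.ref k6 k0 [(z5,[z8,y1,z0,z0,y4]),(z5,[y4,z8,z15,z0,z2]),(z10,[y2,z4,z0,z15,z1]),(z5,[y1,z2,z0,z0,
    z8]),(z10,[y8,y14,y30,y15,y11,z30])],.ref k6 k0 [(z1,[z2,z1,z2,z1,z1,y2]),(z2,[y2,z2,z4,y1,y1,z2]),(z8,[y2,z2,y2,
    z11,y1,z2]),(z8,[y2,z2,y2,y1,z11,z2]),(z1,[y1,y2,y4,y2,y2,z4])],.ref k6 k0 [(z3,[z4,z1]),(z3,[y2,z4,z9]),(z6,[y1,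
    z2,z0,z9]),(z6,[y1,z2,z0,z0,z9]),(z6,[y4,y10,y18,y9,y9,z18])],.ref k6 k0 [(z1,[z8,y5,y8,y4]),(z1,[y4,z4,z7,z2]),
    (z1,[y1,z1,z1,z2]),(z2,[y2,z2,z2,z1,z3]),(z2,[y8,z2,z2,z1,y3,z6])],.ref k6 k0 [(z1,[z4,y1,y4]),(z1,[y2,z2,z5]),
    (z2,[y1,z1,z1,z3]),(z2,[y1,z1,z1,z0,z3]),(z2,[y4,y2,y2,y3,y3,z6])],.ref k6 k0 [(z1,[z4,y1,z0,y4]),(z1,[y2,z2,z3,
    z2]),(z2,[y1,z1,z0,z4]),(z2,[y1,z1,z0,z1,z3]),(z2,[y4,y2,y6,z1,y3,z6])],.ref k6 k0 [(z1,[z4,y1,z0,y2,y2]),(z1,[y2,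
    z2,z3,z1,z1]),(z4,[y2,z2,z0,z7,z1]),(z4,[y2,z2,z0,z1,z7]),(z2,[y4,y2,y6,y1,y1,z6])],.ref k6 k0 [(z3,[z8,z1,z0,
    y4]),(z3,[y4,z4,z9,z2]),(z3,[y1,z1,z0,z5]),(z6,[y2,z2,z0,z1,z9]),(z6,[y8,y10,y18,y5,y9,z18])],.ref k6 k0 [(z1,[z8,
    y5,y8,z0,y4]),(z1,[y4,z4,z7,z0,z2]),(z2,[y2,z2,z2,z3,z1]),(z1,[y1,z1,z1,z0,z2]),(z2,[y8,z2,z2,y3,z1,z6])],
    .ref k6 k0 [(z1,[z4,y1,z0,z0,y4]),(z1,[y2,z2,z3,z0,z2]),(z2,[y1,z1,z0,z3,z1]),(z2,[y1,z1,z0,z0,z4]),(z2,[y4,y2,y6,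
    y3,z1,z6])],.ref k6 k0 [(z1,[z8,z3,z8,z4,z0,y8]),(z1,[y4,z0,y1,y2,z0,z4]),(z1,[y1,z0,y1,z1,z0,z1]),(z2,[y2,z0,y2,
    y1,z3,z2]),(z2,[y8,y6,y14,y7,y3,z14])],.ref k6 k0 [(z3,[z8,z1,z0,z0,y4]),(z3,[y4,z4,z9,z0,z2]),(z6,[y2,z2,z0,z9,
    z1]),(z3,[y1,z1,z0,z0,z5]),(z6,[y8,y10,y18,y9,y5,z18])],.ref k6 k0 [(z1,[z2,z1]),(z1,[y1,z1,z3]),(z4,[y1,z1,z0,
    z6]),(z4,[y1,z1,z0,z0,z6]),(z2,[y2,y4,y6,y3,y3,z6])],.ref k6 k0 [(z1,[y2,z3,z6]),(z1,[z1]),(z4,[z1,z0,y3,z6]),(z4,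
    [z1,z0,y3,z0,z6]),(z2,[z2,y6,y12,y3,y3,z6])],.ref k6 k0 [(z3,[y8,z9,z16,z4]),(z3,[z4,z0,z1,y2]),(z3,[z1,z0,y2,
    z4]),(z6,[z2,z0,y4,y1,z9]),(z6,[z8,y18,y34,y13,y9,z18])],.ref k6 k0 [(z1,[y4,z3,z4,z4]),(z1,[z2,z0,z1,y2]),(z2,
    [z1,z0,y1,z2]),(z2,[z1,z0,y1,y1,z3]),(z2,[z4,y6,y10,y7,y3,z6])],.ref k6 k0 [(z1,[y4,z3,z4,z2,z2]),(z1,[z2,z0,z1,
    y1,y1]),(z4,[z2,z0,y2,z5,y1]),(z4,[z2,z0,y2,y1,z5]),(z2,[z4,y6,y10,y5,y5,z6])],.ref k6 k0 [(z1,[y8,z3,z8,z0,z4]),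
    (z1,[z4,z0,y1,z0,y2]),(z2,[z2,z0,y2,z3,y1]),(z1,[z1,z0,y1,z0,z1]),(z2,[z8,y6,y14,y3,y7,z6])],.ref k6 k0 [(z1,[y8,
    z3,z0,z12]),(z1,[z4,z0,z3,y6]),(z1,[z1]),(z2,[z2,z0,z0,y3,z3]),(z2,[z8,y6,y6,y15,y3,z6])]],
    .lp [(nat_lit 318),(nat_lit 282),(nat_lit 328),(nat_lit 322),(nat_lit 346),(nat_lit 320)] [k14,k14,k14,k50,k9,k9,k12,
    k12,k0,k0,k13,k13] k0 [[k0,k0,k0,k78,k0,k0,k0,k0,k0,k0,k22],[k0,k0,k0,k18,k0,k0,k0,k0,k0,k0,k26],[k18,k78],[k0,k0,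
    k0,k0,k8,k0,k0,k0,k0,k16],[k0,k0,k0,k0,k0,k0,k34,k10],[k0,k0,k8],[k0,k0,k0,k0,k0,k10],[k0,k0,k0,k0,k0,k34,k0,k0,
    k10],[k0,k0,k16],[k0,k0,k0,k0,k0,k0,k10],[],[k26,k22]] (nat_lit 960) k5
    [[(k3,(nat_lit 256)),(k0,(nat_lit 296)),(k11,(nat_lit 319)),(k7,(nat_lit 320)),(k4,(nat_lit 323)),(k8,
    (nat_lit 332))],[(k2,(nat_lit 240)),(k1,(nat_lit 296)),(k6,(nat_lit 320)),(k9,(nat_lit 332)),(k5,(nat_lit 341)),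
    (k10,(nat_lit 345))],[(k1,(nat_lit 256)),(k2,(nat_lit 264)),(k6,(nat_lit 284)),(k9,(nat_lit 296)),(k10,
    (nat_lit 305)),(k5,(nat_lit 365))],[(k0,(nat_lit 240)),(k3,(nat_lit 264)),(k7,(nat_lit 320)),(k4,(nat_lit 331)),
    (k8,(nat_lit 332)),(k11,(nat_lit 335))],[(k7,(nat_lit 317)),(k8,(nat_lit 321)),(k11,(nat_lit 324)),(k4,
    (nat_lit 328)),(k0,(nat_lit 341)),(k3,(nat_lit 365))],[(k9,(nat_lit 303)),(k6,(nat_lit 315)),(k1,(nat_lit 323)),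
    (k10,(nat_lit 324)),(k5,(nat_lit 328)),(k2,(nat_lit 331))],[(k5,(nat_lit 317)),(k1,(nat_lit 320)),(k2,
    (nat_lit 320)),(k10,(nat_lit 321)),(k9,(nat_lit 344)),(k6,(nat_lit 356))],[(k3,(nat_lit 284)),(k4,(nat_lit 315)),
    (k0,(nat_lit 320)),(k11,(nat_lit 321)),(k8,(nat_lit 344)),(k7,(nat_lit 356))],[(k3,(nat_lit 296)),(k4,
    (nat_lit 303)),(k11,(nat_lit 323)),(k0,(nat_lit 332)),(k7,(nat_lit 344)),(k8,(nat_lit 346))],[(k5,(nat_lit 321)),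
    (k1,(nat_lit 332)),(k2,(nat_lit 332)),(k10,(nat_lit 333)),(k6,(nat_lit 344)),(k9,(nat_lit 346))],[(k1,
    (nat_lit 319)),(k10,(nat_lit 320)),(k6,(nat_lit 321)),(k9,(nat_lit 323)),(k5,(nat_lit 324)),(k2,(nat_lit 335))],
    [(k3,(nat_lit 305)),(k11,(nat_lit 320)),(k7,(nat_lit 321)),(k4,(nat_lit 324)),(k8,(nat_lit 333)),(k0,
    (nat_lit 345))]]
    [] k0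
    [[k3,k0,k0,k0,k0,k0],[k2,k1,k0,k0,k0,k0],[k2,k0,k0,k1,k0,k0],[k1,k2,k0,k0,k0,k0],[k1,k1,k1,k0,k0,k0],[k1,k1,k0,k1,
    k0,k0],[k1,k1,k0,k0,k1,k0],[k1,k1,k0,k0,k0,k1],[k0,k3,k0,k0,k0,k0],[k0,k2,k0,k1,k0,k0],[k0,k2,k0,k0,k1,k0],[k0,k2,
    k0,k0,k0,k1],[k0,k1,k1,k1,k0,k0],[k0,k1,k0,k1,k0,k1],[k0,k1,k1,k0,k1,k0],[k0,k0,k2,k0,k1,k0]]
    [.ref k92 k6 [(z1,[z0,y1,y1,y1,z1]),(z1,[z1,y3]),(z1,[y2,z6,z0,z3]),(z1,[z0,z0,z1])],.ref k16 k8 [(z2,[y1,z0,y1,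
    y2,z2]),(z2,[y1,z2,z1]),(z1,[z0,z1]),(z1,[z1,y2])],.ref k92 k6 [(z1,[z0,y1,y1,y1,z1]),(z1,[z1,y2]),(z1,[y2,z4,z0,
    z3]),(z1,[z0,z0,z1])],.ref (nat_lit 248) k1 [(z1,[y2,z2,z0,z1]),(z1,[z1,y1]),(z1,[z0,y2,y1,y2,z2]),(z1,[z0,z0,
    z1])],.ref k115 k3 [(z1,[y1,z2,z0,z1]),(z1,[z0,z0,z1]),(z1,[z0,y2,y1,y2,z2]),(z1,[y1,z1,z0,z1])],.ref k16 k8 [(z2,
    [y1,y1,y1,y2,z2]),(z2,[y1,z1,z1]),(z1,[z0,z1]),(z1,[z1,y1])],.ref k16 k8 [(z1,[y1,y1,y1,y2,z2]),(z1,[y1,z0,z0,y1,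
    z1]),(z1,[z0,z1]),(z1,[z2,z0,z1,z2,y2])],.ref k16 k8 [(z1,[y1,z0,z0,y1,z1]),(z1,[y1,z1,z1]),(z1,[z0,z1]),(z1,[z2,
    y2,y1])],.ref k166 k0 [(z1,[z0,z1]),(z1,[z1]),(z1,[z0,z0,z0,z1]),(z2,[y1,y6,y3,y6,z6])],
    .ref (nat_lit 248) k1 [(z1,[y2,z0,z0,z1]),(z1,[z1]),(z1,[z0,y2,y1,y2,z2]),(z1,[z0,z0,z1])],.ref k166 k0 [(z1,[z0,
    z1]),(z1,[z2,z2,z1,z2,y2]),(z1,[z0,z0,z0,z1]),(z1,[y1,y4,y2,y4,z4])],.ref k166 k0 [(z1,[z0,z1]),(z1,[z2,z0,y1]),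
    (z1,[z0,z0,z0,z1]),(z1,[y1,y3,y1,y3,z3])],.ref k115 k3 [(z1,[y1,z1,z0,z1]),(z1,[z0,z0,z1]),(z1,[z0,y2,y1,y2,z2]),
    (z1,[y1,z0,z0,z1])],.ref k16 k8 [(z1,[y1,y1,z0,y1,z1]),(z1,[y1,z0,z1]),(z1,[z0,z1]),(z1,[z2,z0,y1])],
    .ref k9 k2 [(z1,[z2,y2,z1,z0,y2]),(z1,[z0,z2,z0,z1]),(z1,[z0,y1]),(z1,[y1,z0,y1,y1,z2])],.ref k74 k11 [(z1,[z1,y3,
    z1,y1,y1]),(z1,[z1,y4,z0,y2]),(z1,[z0,y1]),(z1,[z0,z2,z0,z1])]],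
    .lp [k154,k158,k162,k158,k164,k162] [k5,k5,k3,k3,k1,k1,k3,k3,k0,k0,k1,k1] k0 [[k0,k0,k2,k0,k0,k0,k0,k18],[k0,k0,k18,
    k0,k0,k0,k0,k0,k0,k0,k4],[k0,k0,k0,k0,k18,k2],[k18,k2],[k0,k0,k0,k2],[k0,k0,k0,k18,k0,k0,k0,k0,k0,k0,k16],[k0,
    k18],[k0,k0,k0,k0,k0,k0,k0,k0,k0,k2],[k0,k0,k0,k0,k0,k0,k2,k0,k0,k0,k0,k6],[k0,k0,k0,k0,k0,k0,k0,k0,k0,k0,k0,k2],
    [k0,k0,k0,k0,k0,k0,k0,k0,k2,k6],[k4,k0,k0,k0,k16]] (nat_lit 480) k5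
    [[(k7,k140),(k3,k152),(k0,k154),(k4,k158),(k8,k161),(k11,k164)],[(k6,k138),(k1,k154),(k5,k156),(k9,k159),(k10,
    k162),(k2,k174)],[(k5,k142),(k1,k152),(k6,k158),(k2,k160),(k10,k160),(k9,k179)],[(k7,k140),(k4,k158),(k3,k160),
    (k11,k160),(k8,k161),(k0,k174)],[(k3,k142),(k0,k156),(k7,k162),(k11,k162),(k8,k163),(k4,k180)],[(k1,k158),(k2,
    k158),(k6,k160),(k9,k163),(k10,k178),(k5,k180)],[(k1,k140),(k2,k140),(k6,k158),(k10,k160),(k9,k161),(k5,k162)],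
    [(k0,k138),(k3,k158),(k7,k158),(k4,k160),(k8,k161),(k11,k162)],[(k0,k159),(k7,k161),(k8,k162),(k4,k163),(k11,
    k163),(k3,k179)],[(k10,k157),(k1,k161),(k2,k161),(k6,k161),(k9,k162),(k5,k163)],[(k2,k160),(k10,k160),(k5,k162),
    (k6,k162),(k9,k163),(k1,k164)],[(k8,k157),(k3,k160),(k7,k160),(k11,k160),(k0,k162),(k4,k178)]]
    [] k0
    [[k3,k0,k0,k0,k0,k0],[k2,k0,k1,k0,k0,k0],[k2,k0,k0,k1,k0,k0],[k2,k0,k0,k0,k1,k0],[k1,k1,k1,k0,k0,k0],[k1,k1,k0,k1,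
    k0,k0],[k1,k1,k0,k0,k1,k0],[k1,k1,k0,k0,k0,k1],[k1,k0,k1,k1,k0,k0],[k1,k0,k0,k2,k0,k0],[k1,k0,k0,k1,k1,k0],[k1,k0,
    k0,k1,k0,k1],[k0,k2,k1,k0,k0,k0],[k0,k2,k0,k1,k0,k0],[k0,k1,k1,k1,k0,k0],[k0,k1,k1,k0,k1,k0],[k0,k1,k0,k2,k0,k0],
    [k0,k1,k0,k1,k0,k1],[k0,k0,k0,k3,k0,k0]]
    [.ref k6 k0 [(z1,[z1]),(z1,[z0,z0,z1]),(z2,[y1,z3,z0,z3]),(z2,[y3,z9,z0,z0,z1]),(z1,[z1,y3])],.ref k6 k0 [(z1,[z2,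
    y1,z0,y1]),(z1,[z0,z0,z1]),(z1,[y1,z2,z0,z2]),(z2,[y6,z12,z0,z3,z1]),(z1,[z2,y4,z0,y1])],.ref k6 k0 [(z1,[z6,y9,
    z0,z0,y1]),(z1,[z0,z0,z1]),(z2,[y6,z12,z0,z3,z1]),(z1,[y9,z18,z0,z0,z2]),(z1,[z6,y12,z0,z0,y1])],.ref k6 k0 [(z1,
    [z1,z1]),(z1,[z0,z0,z1]),(z2,[y1,z2,z0,z3]),(z2,[y3,z6,z0,z0,z1]),(z1,[z1,y2])],.ref k6 k0 [(z1,[z6,y3,y2,y3]),
    (z1,[z0,z0,z1]),(z1,[y3,z3,z1,z3]),(z2,[y18,z18,z6,z9,z1]),(z1,[z6,y6,y2,y3])],.ref k6 k0 [(z1,[y6,z9,z2,z0,z1]),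
    (z1,[z0,z0,z1]),(z2,[z6,y6,y2,z3,y1]),(z1,[z9,y9,y3,z0,y1]),(z1,[y6,z6,z2,z0,z1])],.ref k6 k0 [(z2,[z3,z3,y1]),
    (z1,[z0,z0,z1]),(z4,[y3,z3,z1,z6]),(z4,[y9,z9,z3,z0,z2]),(z2,[z3,y3,y1])],.ref k6 k0 [(z2,[z6,z6,z0,z3,z1,y6]),
    (z1,[z0,z0,z1]),(z4,[y6,z0,z0,z3,y1,z6]),(z4,[y18,z0,z0,y9,y1,z18]),(z2,[z6,z0,z0,z3,z1,y6])],.ref k6 k0 [(z2,[y6,
    z12,z0,z3,z1]),(z1,[z0,z0,z1]),(z4,[z6,y6,z0,z3,y1]),(z4,[z18,y18,z0,y9,y1]),(z2,[y6,z6,z0,z3,z1])],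
    .ref k6 k0 [(z2,[y3,z9,z0,z0,z1]),(z1,[z0,z0,z1]),(z4,[z3,y3,z0,z6,y1]),(z4,[z9,y9,z0,z0,y1]),(z2,[y3,z3,z0,z0,
    z1])],.ref k6 k0 [(z1,[z6,y3,z0,z0,y1]),(z1,[z0,z0,z1]),(z2,[y6,z6,z0,z3,z1]),(z1,[y9,z9,z0,z0,z2]),(z1,[z6,y6,z0,
    z0,y1])],.ref k6 k0 [(z1,[y6,z3,y2,y3,z0,z6]),(z1,[z0,z0,z1]),(z1,[z3,z0,z1,z3,z0,y3]),(z2,[z18,z0,z6,z9,z1,y18]),
    (z1,[y6,z0,y2,y3,z0,z6])],.ref k6 k0 [(z1,[y6,z3,z4,z3]),(z1,[z0,z0,z1]),(z1,[z3,z0,y2]),(z2,[z18,z0,y12,y9,z1]),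
    (z1,[y6,z0,z4,z3])],.ref k6 k0 [(z3,[y6,z9,z4,z0,z1]),(z1,[z0,z0,z1]),(z6,[z6,z0,y4,z9,y1]),(z1,[z3,z0,y2]),(z3,
    [y6,z0,z4,z0,z1])],.ref k6 k0 [(z4,[y6,z12,z2,z3,z1]),(z1,[z0,z0,z1]),(z8,[z6,z0,y2,z9,y1]),(z8,[z18,z0,y6,y9,
    z1]),(z4,[y6,z0,z2,z3,z1])],.ref k6 k0 [(z1,[z6,z3,y2,y3]),(z1,[z0,z0,z1]),(z1,[y3,z0,z1,z3]),(z2,[y18,z0,z6,z9,
    z1]),(z1,[z6,z0,y2,y3])],.ref k6 k0 [(z3,[y3,z9,z1,z0,z1]),(z1,[z0,z0,z1]),(z6,[z3,z0,y1,z9,y1]),(z2,[z3,z0,y1]),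
    (z3,[y3,z0,z1,z0,z1])],.ref k6 k0 [(z1,[y2,z1,z0,y1,z0,z2]),(z1,[z0,z0,z1]),(z1,[z1,z1,z0,z2,z0,y1]),(z2,[z6,z6,
    z0,z3,z1,y6]),(z1,[y2,y2,z0,y1,z0,z2])],.ref k6 k0 [(z3,[y2,z9,z0,z0,z1]),(z1,[z0,z0,z1]),(z6,[z2,z0,z0,z9,y1]),
    (z1,[z1]),(z3,[y2,z0,z0,z0,z1])]],
    .lp [(nat_lit 308),(nat_lit 278),(nat_lit 336),(nat_lit 338),(nat_lit 332),(nat_lit 320)] [k15,k15,k30,k30,k1,k1,k0,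
    k0,k3,k3,k9,k9] k0 [[k0,k0,k0,k40],[k0,k0,k0,k0,k0,k0,k0,k0,k0,k0,k12,k12],[k0,k40,k0,k0,k0,k0,k0,k0,k0,k10],[k0,
    k0,k0,k0,k28],[k0,k0,k0,k0,k0,k0,k6,k22],[k0,k0,k28,k0,k0,k0,k0,k0,k0,k0,k0,k6],[k0,k0,k0,k0,k0,k22],[k0,k0,k0,k0,
    k0,k6,k0,k0,k12],[k0,k0,k0,k10],[k0,k0,k0,k0,k0,k0,k12],[k12,k0,k0,k0,k6],[k12]] (nat_lit 960) k5
    [[(k3,(nat_lit 281)),(k11,(nat_lit 314)),(k0,(nat_lit 320)),(k8,(nat_lit 320)),(k7,(nat_lit 323)),(k4,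
    (nat_lit 328))],[(k2,(nat_lit 253)),(k1,(nat_lit 320)),(k9,(nat_lit 320)),(k5,(nat_lit 322)),(k6,(nat_lit 323)),
    (k10,(nat_lit 326))],[(k2,(nat_lit 278)),(k1,(nat_lit 281)),(k10,(nat_lit 287)),(k9,(nat_lit 305)),(k6,
    (nat_lit 308)),(k5,(nat_lit 347))],[(k0,(nat_lit 253)),(k3,(nat_lit 278)),(k8,(nat_lit 295)),(k11,(nat_lit 299)),
    (k7,(nat_lit 308)),(k4,(nat_lit 335))],[(k7,(nat_lit 309)),(k0,(nat_lit 322)),(k8,(nat_lit 334)),(k4,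
    (nat_lit 336)),(k11,(nat_lit 338)),(k3,(nat_lit 347))],[(k6,(nat_lit 315)),(k1,(nat_lit 328)),(k9,(nat_lit 328)),
    (k10,(nat_lit 328)),(k2,(nat_lit 335)),(k5,(nat_lit 336))],[(k2,(nat_lit 308)),(k5,(nat_lit 309)),(k1,
    (nat_lit 323)),(k10,(nat_lit 323)),(k6,(nat_lit 344)),(k9,(nat_lit 357))],[(k3,(nat_lit 308)),(k4,(nat_lit 315)),
    (k0,(nat_lit 323)),(k11,(nat_lit 329)),(k7,(nat_lit 344)),(k8,(nat_lit 347))],[(k3,(nat_lit 305)),(k11,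
    (nat_lit 314)),(k0,(nat_lit 320)),(k4,(nat_lit 328)),(k8,(nat_lit 332)),(k7,(nat_lit 357))],[(k2,(nat_lit 295)),
    (k1,(nat_lit 320)),(k10,(nat_lit 326)),(k9,(nat_lit 332)),(k5,(nat_lit 334)),(k6,(nat_lit 347))],[(k2,
    (nat_lit 299)),(k1,(nat_lit 314)),(k9,(nat_lit 314)),(k10,(nat_lit 320)),(k6,(nat_lit 329)),(k5,(nat_lit 338))],
    [(k3,(nat_lit 287)),(k11,(nat_lit 320)),(k7,(nat_lit 323)),(k0,(nat_lit 326)),(k8,(nat_lit 326)),(k4,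
    (nat_lit 328))]]
    [] k0
    [[k2,k1,k0,k0,k0,k0],[k1,k2,k0,k0,k0,k0],[k1,k1,k1,k0,k0,k0],[k1,k1,k0,k1,k0,k0],[k1,k1,k0,k0,k1,k0],[k1,k1,k0,k0,
    k0,k1],[k0,k3,k0,k0,k0,k0],[k0,k2,k0,k1,k0,k0],[k0,k2,k0,k0,k1,k0],[k0,k2,k0,k0,k0,k1],[k0,k1,k1,k1,k0,k0],[k0,k1,
    k0,k1,k0,k1],[k0,k1,k0,k0,k2,k0],[k0,k1,k0,k0,k1,k1],[k0,k1,k0,k0,k0,k2]]
    [.ref k6 k0 [(z7,[z4,z13,y4]),(z7,[z13,y26,z8]),(z7,[y8,z16,z8,z21]),(z7,[y2,z4,z2,z0,z21]),(z7,[y8,y5,y13,y21,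
    y21,z21])],.ref k6 k0 [(z5,[z2,z13,y4]),(z10,[z13,y13,z4]),(z5,[y4,z4,z8,z15]),(z5,[y1,z1,z2,z0,z15]),(z5,[y4,y11,
    y7,y15,y15,z15])],.ref k6 k0 [(z3,[z4,z5,y4,y4]),(z3,[z13,y13,y4,y13]),(z3,[y8,z8,z8,z17]),(z3,[y2,z2,z2,z2,z9]),
    (z3,[y8,y1,y1,y1,y9,z9])],.ref k6 k0 [(z5,[z4,z11,y4,z0,y4]),(z5,[z13,y13,z2,z0,y13]),(z5,[y8,z8,z8,z15,z8]),(z5,
    [y2,z2,z2,z0,z17]),(z5,[y8,y7,y7,y15,y7,z15])],.ref k6 k0 [(z3,[z4,z9,z0,z4,z4,y4]),(z3,[z13,z0,z9,z13,z13,y13]),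
    (z3,[y8,z0,z0,z1,y8,z8]),(z3,[y2,z0,z0,y2,z7,z2]),(z3,[y8,y9,y9,y17,y17,z17])],.ref k6 k0 [(z3,[z2,z7,y2]),(z6,
    [z13,y13,z5]),(z3,[y4,z4,z4,z9]),(z3,[y1,z1,z1,z0,z9]),(z3,[y4,y5,y5,y9,y9,z9])],.ref k6 k0 [(z13,[z4,z39,y12]),
    (z1,[z1]),(z13,[y8,z0,z24,z39]),(z13,[y2,z0,z6,z0,z39]),(z13,[y8,y39,y15,y39,y39,z39])],.ref k6 k0 [(z2,[z1,z6,y2,
    z0,y1]),(z8,[z13,z0,y2,z0,y13]),(z1,[y1,z0,z2,z3,z1]),(z4,[y1,z0,z2,z0,z13]),(z1,[y1,y3,y1,y3,y2,z3])],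
    .ref k6 k0 [(z3,[z2,z11,y2,z2,z2,y2]),(z6,[z13,z13,z5,z13,z13,y13]),(z3,[y4,y4,z4,z5,y4,z4]),(z3,[y1,y1,z1,y1,z8,
    z1]),(z3,[y4,y13,y5,y13,y13,z13])],.ref k6 k0 [(z9,[z4,z27,y8]),(z9,[z13,z0,z1]),(z9,[y8,z0,z16,z27]),(z9,[y2,z0,
    z4,z0,z27]),(z9,[y8,y27,y11,y27,y27,z27])],.ref k6 k0 [(z1,[z4,z3,y4,y4,y4]),(z1,[z13,z0,y10,y13,y13]),(z1,[y8,z0,
    z8,z11,z8]),(z1,[y2,z0,z2,z2,z5]),(z1,[y8,y3,z5,z5,z5,z3])],.ref k6 k0 [(z1,[z1,z3,y1,z0,y1]),(z4,[z13,z0,y1,z0,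
    y13]),(z1,[y2,z0,z2,z3,z2]),(z2,[y1,z0,z1,z0,z7]),(z1,[y2,y3,y1,y3,y1,z3])],.ref k6 k0 [(z1,[y4,y5,y4,y8,y8,z8]),
    (z1,[y13,y26,y10,y26,y26,z26]),(z1,[z8,z16,z8,z19,z16,y16]),(z1,[z2,z4,z2,z4,z7,y4]),(z1,[z8,z13,z5,z13,z13,
    y13])],.ref k6 k0 [(z1,[z2,z5,z0,z2,z2,y2]),(z2,[z13,z13,z6,z13,z13,y13]),(z1,[y4,y4,z0,y1,y4,z4]),(z1,[y1,y1,z0,
    y1,z2,z1]),(z1,[y4,y7,y3,y7,y7,z7])],.ref k6 k0 [(z5,[z4,z15,y4]),(z5,[z13,z0,z2]),(z5,[y8,z0,z8,z15]),(z5,[y2,z0,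
    z2,z0,z15]),(z5,[y8,y15,y7,y15,y15,z15])]],
    .lp [(nat_lit 324),(nat_lit 294),(nat_lit 310),(nat_lit 320),(nat_lit 338),(nat_lit 326)] [k7,k7,k22,k22,k14,k14,k9,
    k9,k0,k0,k6,k6] k0 [[k0,k0,k0,k0,k0,k0,k12,k2],[k0,k0,k50,k2],[k2,k0,k0,k0,k0,k58],[k50,k0,k0,k0,k0,k42],[k0,k0,
    k42,k58],[k0,k0,k0,k0,k0,k0,k4],[k0,k2,k0,k0,k0,k0,k0,k0,k0,k2],[k0,k12,k0,k0,k4],[k0,k0,k0,k0,k0,k0,k0,k2,k0,k0,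
    k14],[],[],[k0,k0,k0,k0,k0,k0,k0,k0,k0,k14]] (nat_lit 960) k5
    [[(k3,(nat_lit 309)),(k4,(nat_lit 317)),(k8,(nat_lit 317)),(k7,(nat_lit 322)),(k0,(nat_lit 324)),(k11,
    (nat_lit 325))],[(k5,(nat_lit 319)),(k9,(nat_lit 319)),(k6,(nat_lit 320)),(k1,(nat_lit 324)),(k10,(nat_lit 325)),
    (k2,(nat_lit 359))],[(k5,(nat_lit 252)),(k2,(nat_lit 292)),(k1,(nat_lit 309)),(k10,(nat_lit 310)),(k9,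
    (nat_lit 318)),(k6,(nat_lit 319))],[(k4,(nat_lit 244)),(k3,(nat_lit 292)),(k11,(nat_lit 310)),(k8,(nat_lit 316)),
    (k7,(nat_lit 349)),(k0,(nat_lit 359))],[(k3,(nat_lit 252)),(k4,(nat_lit 268)),(k11,(nat_lit 318)),(k0,
    (nat_lit 319)),(k8,(nat_lit 324)),(k7,(nat_lit 373))],[(k2,(nat_lit 244)),(k5,(nat_lit 268)),(k1,(nat_lit 317)),
    (k10,(nat_lit 318)),(k6,(nat_lit 319)),(k9,(nat_lit 324))],[(k6,(nat_lit 320)),(k1,(nat_lit 322)),(k10,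
    (nat_lit 323)),(k9,(nat_lit 325)),(k2,(nat_lit 349)),(k5,(nat_lit 373))],[(k3,(nat_lit 319)),(k4,(nat_lit 319)),
    (k0,(nat_lit 320)),(k7,(nat_lit 320)),(k11,(nat_lit 323)),(k8,(nat_lit 327))],[(k3,(nat_lit 318)),(k0,
    (nat_lit 319)),(k4,(nat_lit 324)),(k7,(nat_lit 325)),(k11,(nat_lit 334)),(k8,(nat_lit 338))],[(k2,(nat_lit 316)),
    (k1,(nat_lit 317)),(k5,(nat_lit 324)),(k6,(nat_lit 327)),(k10,(nat_lit 332)),(k9,(nat_lit 338))],[(k2,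
    (nat_lit 310)),(k5,(nat_lit 318)),(k6,(nat_lit 323)),(k1,(nat_lit 325)),(k9,(nat_lit 334)),(k10,(nat_lit 340))],
    [(k3,(nat_lit 310)),(k4,(nat_lit 318)),(k7,(nat_lit 323)),(k0,(nat_lit 325)),(k8,(nat_lit 332)),(k11,
    (nat_lit 340))]]
    [] k0
    [[k1,k1,k1,k0,k0,k0],[k1,k1,k0,k0,k1,k0],[k1,k1,k0,k0,k0,k1],[k1,k0,k2,k0,k0,k0],[k0,k3,k0,k0,k0,k0],[k0,k2,k1,k0,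
    k0,k0],[k0,k2,k0,k0,k1,k0],[k0,k2,k0,k0,k0,k1],[k0,k1,k2,k0,k0,k0],[k0,k1,k1,k1,k0,k0],[k0,k1,k1,k0,k1,k0],[k0,k1,
    k1,k0,k0,k1],[k0,k1,k0,k1,k0,k1],[k0,k0,k3,k0,k0,k0],[k0,k0,k2,k0,k1,k0],[k0,k0,k2,k0,k0,k1]]
    [.ref k8 k0 [(z1,[y1,z2,z1,z1]),(z1,[z0,z0,z1]),(z1,[z2,y2,y2,y1]),(z1,[z0,y1,y1,y1,z1])],.ref k45 k9 [(z1,[y2,z1,
    z1,y1,z1]),(z1,[z0,z0,z0,z1]),(z1,[y2,z2,z3]),(z1,[z3,y2,y3])],.ref k115 k8 [(z1,[z1,z0,z0,z1,y1]),(z1,[z0,y1,y1,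
    y1,z1]),(z1,[z2,y1,y3,y1,z1]),(z1,[z0,z1,z2,z1,y1])],.ref k8 k0 [(z3,[y1,z4,z0,z2]),(z1,[z0,z0,z1]),(z3,[z2,y2,z0,
    y1]),(z1,[z0,y1,y1,y1,z1])],.ref k186 k0 [(z2,[y1,z2,z3]),(z1,[z1]),(z1,[z0,z0,z0,z1]),(z1,[z1,y3,y6,y3,z3])],
    .ref k115 k8 [(z2,[y1,z2,z4,z3,y2]),(z1,[z0,y1,y1,y1,z1]),(z1,[y1,z1,z1,z0,z1]),(z1,[z0,z1,z2,z1,y1])],
    .ref k80 k0 [(z1,[z1,z1,y2]),(z1,[z0,z0,z1]),(z1,[y2,z0,z4,z1]),(z1,[z0,y1,y1,y1,z1])],.ref k186 k0 [(z1,[y1,z1,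
    z2]),(z1,[z2,z0,y1]),(z1,[z0,z0,z0,z1]),(z1,[z2,y3,y7,y3,z3])],.ref k45 k9 [(z1,[z1,y1,y2,y3,z1]),(z1,[z0,z0,z0,
    z1]),(z1,[z1,z0,z0,y2]),(z2,[y3,z2,z3,z6])],.ref k115 k8 [(z2,[y1,z1,z2,z2,y1]),(z1,[z0,y1,y1,y1,z1]),(z1,[y1,z0,
    y1,y1,z2]),(z1,[z0,z1,z2,z1,y1])],.ref k115 k8 [(z1,[y1,z1,z2,z2,y1]),(z1,[z0,y1,y1,y1,z1]),(z1,[y2,z1,z1,z1,z1]),
    (z1,[z0,z1,z2,z1,y1])],.ref k45 k9 [(z1,[z2,y1,y3,y3,z1]),(z1,[z0,z0,z0,z1]),(z1,[z2,z0,y1,y2]),(z1,[y3,z1,z3,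
    z3])],.ref k186 k0 [(z1,[y1,z0,z0,y1,z1]),(z1,[z2,z2,z3,z2,y2]),(z1,[z0,z0,z0,z1]),(z1,[z2,y1,y3,y1,z1])],
    .ref (nat_lit 250) k5 [(z1,[z0,y1,y2,y1,z1]),(z2,[y1,z0,z0,z3]),(z1,[z0,z0,z1]),(z1,[y1,z6,z9,z3])],
    .ref (nat_lit 250) k5 [(z1,[z0,y1,y2,y1,z1]),(z1,[y1,z0,z0,z2]),(z1,[z0,z0,z1]),(z1,[y2,z6,z9,z4])],
    .ref (nat_lit 251) k7 [(z1,[z1,z0,z0,y2]),(z1,[z3,z1,z0,y6]),(z1,[y2,z0,z1,z4]),(z1,[z0,z0,z0,z1])]],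
    .leafM k6 [k1,k2,k3,k4,k5,k0] [(z2,[z0,y1,y1,z2])] []]

noncomputable def cT6_2_n5_3 : List TN :=
  [.lp [(nat_lit 458),(nat_lit 500),(nat_lit 494),(nat_lit 482),(nat_lit 464),(nat_lit 476)] [k21,k21,k0,k0,k3,k3,k9,k9,
    k18,k18,k12,k12] k0 [[k0,k0,k12,k0,k0,k0,k24],[k0,k0,k0,k0,k0,k0,k18,k0,k0,k0,k0,k48],[k0,k0,k0,k0,k0,k0,k0,k0,k0,
    k18],[k0,k12,k0,k0,k0,k12],[k0,k0,k12,k0,k0,k0,k0,k12],[k0,k0,k0,k0,k0,k0,k0,k0,k0,k0,k24,k18],[k0,k0,k0,k0,k0,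
    k12,k0,k0,k36],[k18,k24],[k0,k0,k0,k18,k0,k0,k0,k0,k0,k0,k60],[k0,k0,k0,k0,k0,k0,k0,k36],[k48,k0,k0,k0,k18],[k0,
    k0,k0,k0,k24,k0,k0,k0,k0,k60]] (nat_lit 1440) k5
    [[(k8,(nat_lit 401)),(k7,(nat_lit 446)),(k11,(nat_lit 467)),(k3,(nat_lit 479)),(k4,(nat_lit 494)),(k0,
    (nat_lit 506))],[(k9,(nat_lit 437)),(k5,(nat_lit 464)),(k10,(nat_lit 467)),(k2,(nat_lit 479)),(k6,(nat_lit 488)),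
    (k1,(nat_lit 506))],[(k10,(nat_lit 440)),(k9,(nat_lit 464)),(k1,(nat_lit 479)),(k5,(nat_lit 497)),(k2,
    (nat_lit 512)),(k6,(nat_lit 515))],[(k8,(nat_lit 464)),(k0,(nat_lit 479)),(k11,(nat_lit 488)),(k4,(nat_lit 497)),
    (k7,(nat_lit 503)),(k3,(nat_lit 512))],[(k0,(nat_lit 464)),(k8,(nat_lit 479)),(k4,(nat_lit 482)),(k7,
    (nat_lit 488)),(k3,(nat_lit 497)),(k11,(nat_lit 503))],[(k6,(nat_lit 476)),(k9,(nat_lit 479)),(k5,(nat_lit 482)),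
    (k1,(nat_lit 494)),(k2,(nat_lit 497)),(k10,(nat_lit 509))],[(k1,(nat_lit 446)),(k10,(nat_lit 461)),(k6,
    (nat_lit 482)),(k9,(nat_lit 485)),(k5,(nat_lit 488)),(k2,(nat_lit 503))],[(k11,(nat_lit 443)),(k8,(nat_lit 473)),
    (k4,(nat_lit 476)),(k7,(nat_lit 482)),(k0,(nat_lit 488)),(k3,(nat_lit 515))],[(k0,(nat_lit 437)),(k3,
    (nat_lit 464)),(k11,(nat_lit 470)),(k4,(nat_lit 479)),(k7,(nat_lit 485)),(k8,(nat_lit 500))],[(k1,(nat_lit 401)),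
    (k2,(nat_lit 464)),(k10,(nat_lit 470)),(k6,(nat_lit 473)),(k5,(nat_lit 479)),(k9,(nat_lit 500))],[(k6,
    (nat_lit 443)),(k1,(nat_lit 467)),(k9,(nat_lit 470)),(k2,(nat_lit 488)),(k5,(nat_lit 503)),(k10,(nat_lit 536))],
    [(k3,(nat_lit 440)),(k7,(nat_lit 461)),(k0,(nat_lit 467)),(k8,(nat_lit 470)),(k4,(nat_lit 509)),(k11,
    (nat_lit 536))]]
    [] k0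
    [[k2,k0,k0,k0,k1,k0],[k1,k1,k0,k0,k1,k0],[k1,k1,k0,k0,k0,k1],[k1,k0,k1,k0,k1,k0],[k1,k0,k1,k1,k0,k0],[k1,k0,k0,k2,
    k0,k0],[k1,k0,k0,k1,k1,k0],[k1,k0,k0,k1,k0,k1],[k1,k0,k0,k0,k2,k0],[k1,k0,k0,k0,k1,k1],[k0,k1,k0,k0,k2,k0],[k0,k1,
    k0,k0,k1,k1],[k0,k1,k0,k1,k0,k1],[k0,k0,k0,k2,k0,k1],[k0,k0,k0,k1,k1,k1]]
    [.ref (nat_lit 234) k8 [(z1,[z1,z2,z4,y4]),(z1,[y1,y1,y3,z3]),(z1,[z0,y1,y2,z2])],.ref (nat_lit 239) k0 [(z1,[z2,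
    y1,y2]),(z1,[z0,z0,z1]),(z1,[y1,z0,z0,z1])],.ref (nat_lit 240) k0 [(z1,[z1,z0,y1]),(z1,[z0,z0,z1]),(z1,[y1,y1,y1,
    z2])],.ref (nat_lit 219) k8 [(z1,[z1,z1,z2,y2]),(z1,[y1,z0,y1,z1]),(z1,[z0,y1,y2,z2])],.ref k20 k7 [(z1,[y1,z0,y1,
    z1]),(z1,[z2,z1,z2,y2]),(z1,[z0,z0,z1])],.ref k20 k7 [(z2,[y1,z1]),(z1,[z1]),(z1,[z0,z0,z1])],
    .ref (nat_lit 244) k8 [(z1,[z1,z1,z2,y2]),(z1,[y1,z0,y1,z1]),(z1,[z0,y1,y2,z2])],.ref (nat_lit 247) k7 [(z1,[y1,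
    z1]),(z1,[z2,y1]),(z1,[z0,z0,z1])],.ref (nat_lit 219) k8 [(z2,[z1,z1,z2,y2]),(z2,[y1,z1]),(z1,[z0,y1,y2,z2])],
    .ref k20 k7 [(z1,[y1,z1]),(z1,[z2,y1]),(z1,[z0,z0,z1])],.ref (nat_lit 249) k4 [(z2,[z1,y2,y3,z2]),(z1,[z0,z0,z1]),
    (z1,[y1,z1,z1])],.ref k20 k7 [(z1,[z1,z0,y1]),(z1,[y2,z1,z2]),(z1,[z0,z0,z1])],.ref (nat_lit 219) k8 [(z1,[y1,z1,
    z2,y1]),(z1,[z1,z0,y1]),(z1,[z0,y1,y2,z2])],.ref (nat_lit 252) k8 [(z1,[y1,z1,z1,y1]),(z1,[z1]),(z1,[z0,y1,y2,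
    z2])],.ref (nat_lit 253) k1 [(z1,[z1,y1,y2,z1]),(z1,[z0,z0,z1]),(z1,[z2,z0,y1])]],
    .lp [k162,k158,k168,k164,k148,k158] [k3,k3,k5,k5,k0,k0,k2,k2,k10,k10,k5,k5] k0 [[k0,k0,k26,k0,k0,k0,k8,k4],[k0,k0,k10,
    k0,k0,k0,k0,k0,k0,k0,k0,k18],[k0,k0,k0,k0,k0,k0,k0,k0,k0,k14],[k10,k26],[k0,k0,k0,k0,k0,k0,k0,k16],[k0,k0,k0,k0,
    k0,k0,k0,k0,k0,k0,k22,k8],[k0,k4,k0,k0,k0,k16,k0,k0,k32],[k0,k8,k0,k0,k0,k0,k0,k0,k6],[k0,k0,k0,k14,k0,k0,k0,k0,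
    k0,k0,k2],[k0,k0,k0,k0,k0,k0,k6,k32],[k18,k0,k0,k0,k8],[k0,k0,k0,k0,k22,k0,k0,k0,k0,k2]] (nat_lit 480) k5
    [[(k7,k141),(k8,k153),(k3,k160),(k11,k160),(k4,k173),(k0,k180)],[(k5,k139),(k9,k147),(k6,k159),(k10,k160),(k2,
    k170),(k1,k180)],[(k10,k140),(k5,k153),(k9,k157),(k1,k160),(k6,k169),(k2,k184)],[(k8,k139),(k11,k158),(k7,k161),
    (k4,k163),(k0,k170),(k3,k184)],[(k0,k139),(k3,k153),(k8,k158),(k7,k166),(k4,k168),(k11,k177)],[(k6,k150),(k9,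
    k158),(k2,k163),(k5,k168),(k1,k173),(k10,k185)],[(k1,k141),(k10,k153),(k2,k161),(k6,k164),(k5,k166),(k9,k172)],
    [(k11,k129),(k4,k150),(k0,k159),(k8,k162),(k7,k164),(k3,k169)],[(k0,k147),(k11,k147),(k3,k157),(k4,k158),(k7,
    k172),(k8,k180)],[(k2,k139),(k1,k153),(k10,k153),(k5,k158),(k6,k162),(k9,k180)],[(k6,k129),(k9,k147),(k2,k158),
    (k1,k160),(k10,k160),(k5,k177)],[(k3,k140),(k7,k153),(k8,k153),(k0,k160),(k11,k160),(k4,k185)]]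
    [] k0
    [[k1,k1,k1,k0,k0,k0],[k1,k1,k0,k0,k1,k0],[k1,k1,k0,k0,k0,k1],[k1,k0,k1,k0,k1,k0],[k1,k0,k1,k1,k0,k0],[k1,k0,k0,k2,
    k0,k0],[k1,k0,k0,k1,k1,k0],[k1,k0,k0,k1,k0,k1],[k1,k0,k0,k0,k1,k1],[k0,k1,k1,k1,k0,k0],[k0,k1,k1,k0,k1,k0],[k0,k1,
    k0,k0,k2,k0],[k0,k1,k0,k0,k1,k1],[k0,k1,k0,k1,k0,k1],[k0,k1,k0,k0,k0,k2],[k0,k0,k0,k2,k0,k1],[k0,k0,k0,k1,k1,k1],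
    [k0,k0,k0,k1,k0,k2],[k0,k0,k0,k0,k1,k2]]
    [.ref k0 k8 [(z1,[y2,z1]),(z1,[z1,y1,z1])],.ref k21 k3 [(z1,[y1,z1]),(z1,[y1,z0,z1])],.ref k22 k5 [(z1,[y1,y1,
    z1]),(z1,[z0,z1])],.ref k23 k1 [(z1,[z1,y1]),(z1,[y1,z0,z1])],.ref k55 k8 [(z1,[y2,z1]),(z1,[z1,y1,z1])],
    .ref k110 k8 [(z1,[y2,z1]),(z1,[z1,y1,z1])],.ref k120 k3 [(z1,[y1,z1]),(z1,[y1,z0,z1])],.ref k147 k1 [(z1,[y1,y1,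
    z1]),(z1,[z1])],.ref k148 k11 [(z1,[z1,y1]),(z1,[z0,z1])],.ref k148 k11 [(z1,[y1,y1,z1]),(z1,[z0,z1])],
    .ref k147 k1 [(z1,[z1,y1]),(z1,[y1,z0,z1])],.ref k179 k2 [(z1,[z1,y2]),(z1,[y1,z1,z1])],.ref k55 k8 [(z1,[z2,z1,
    y2]),(z1,[y1,y1,z2])],.ref k23 k1 [(z1,[y1,y1,z1]),(z1,[z1])],.ref (nat_lit 213) k7 [(z1,[z2,z1,y2]),(z1,[z0,
    z1])],.ref (nat_lit 226) k0 [(z1,[z0,z1]),(z1,[y1,y1,z2])],.ref k0 k8 [(z1,[z2,z1,y2]),(z1,[y1,y1,z2])],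
    .ref (nat_lit 254) k5 [(z1,[y1,y2,z2]),(z1,[z0,z1])],.ref k148 k11 [(z2,[z1,y1]),(z1,[z0,z1])]],
    .leafM k6 [k2,k3,k4,k5,k0,k1] [(z2,[z1,z1])] [],
    .leafM k6 [k0,k1,k2,k3,k4,k5] [(z1,[y1,y1,y1,z0,z1])] [],
    .tor k2 false k1 [(z1,[z0,y1,y1,z0,z1]),(z1,[z1,z1,z0,z1]),(z1,[y1,y1,z0,y1,z1]),(z1,[z0,z1,z1])]]

/-- the nodes with numbers from 218 -/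
noncomputable def cT6_2_n5 : List TN :=
  cT6_2_n5_0 ++ (cT6_2_n5_1 ++ (cT6_2_n5_2 ++ cT6_2_n5_3))

theorem cT6_2_k5 : allI (chkT 6 cT6_2_w tt6 cT6_2_s (blkF [] cT6_2_D)) cT6_2_n5 218 = true := by
  decide +kernel

end Pool.Agent.Lib_MP_fa6e45
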