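import Pool.Agent.Lib_MP_fa6e45.CG6_1d

/-!
MP_fa6e45_co, stage 5: certificates (captain, generated by a program).
-/

namespace Pool.Agent.Lib_MP_fa6e45

noncomputable def cT6_2_n6_0 : List TN :=
  [.lp [(nat_lit 296),(nat_lit 322),(nat_lit 306),(nat_lit 300),(nat_lit 356),(nat_lit 338)] [k30,k30,k17,k17,k25,k25,
    k28,k28,k0,k0,k9,k9] k0 [[k0,k0,k16,k0,k0,k0,k0,k2,k0,k0,k30],[k0,k0,k6,k0,k0,k0,k0,k0,k0,k0,k2],[k0,k0,k0,k0,k0,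
    k54,k0,k0,k0,k18],[k6,k16],[k0,k0,k0,k54],[k0,k0,k0,k0,k0,k0,k0,k0,k0,k0,k0,k2],[k0,k2],[k0,k0,k0,k0,k0,k0,k0,k0,
    k8,k24],[k0,k0,k0,k18,k0,k0,k24,k0,k0,k0,k0,k58],[k0,k0,k0,k0,k0,k0,k8,k0,k0,k0,k0,k18],[k0,k0,k0,k0,k2,k0,k0,k0,
    k18,k58],[k2,k30]] (nat_lit 960) k5
    [[(k0,(nat_lit 266)),(k7,(nat_lit 298)),(k4,(nat_lit 303)),(k3,(nat_lit 307)),(k8,(nat_lit 344)),(k11,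
    (nat_lit 375))],[(k1,(nat_lit 266)),(k5,(nat_lit 285)),(k6,(nat_lit 296)),(k2,(nat_lit 315)),(k10,(nat_lit 319)),
    (k9,(nat_lit 326))],[(k1,(nat_lit 307)),(k5,(nat_lit 308)),(k6,(nat_lit 311)),(k2,(nat_lit 338)),(k9,
    (nat_lit 341)),(k10,(nat_lit 360))],[(k4,(nat_lit 260)),(k7,(nat_lit 311)),(k0,(nat_lit 315)),(k8,(nat_lit 321)),
    (k11,(nat_lit 330)),(k3,(nat_lit 338))],[(k0,(nat_lit 285)),(k4,(nat_lit 306)),(k3,(nat_lit 308)),(k8,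
    (nat_lit 331)),(k11,(nat_lit 340)),(k7,(nat_lit 357))],[(k2,(nat_lit 260)),(k1,(nat_lit 303)),(k6,(nat_lit 303)),
    (k5,(nat_lit 306)),(k10,(nat_lit 322)),(k9,(nat_lit 331))],[(k1,(nat_lit 298)),(k6,(nat_lit 300)),(k2,
    (nat_lit 311)),(k10,(nat_lit 317)),(k9,(nat_lit 328)),(k5,(nat_lit 357))],[(k0,(nat_lit 296)),(k7,(nat_lit 300)),
    (k4,(nat_lit 303)),(k3,(nat_lit 311)),(k8,(nat_lit 336)),(k11,(nat_lit 343))],[(k0,(nat_lit 326)),(k7,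
    (nat_lit 328)),(k4,(nat_lit 331)),(k8,(nat_lit 332)),(k11,(nat_lit 339)),(k3,(nat_lit 341))],[(k10,(nat_lit 289)),
    (k2,(nat_lit 321)),(k5,(nat_lit 331)),(k9,(nat_lit 332)),(k6,(nat_lit 336)),(k1,(nat_lit 344))],[(k10,
    (nat_lit 320)),(k2,(nat_lit 330)),(k9,(nat_lit 339)),(k5,(nat_lit 340)),(k6,(nat_lit 343)),(k1,(nat_lit 375))],
    [(k8,(nat_lit 289)),(k7,(nat_lit 317)),(k0,(nat_lit 319)),(k11,(nat_lit 320)),(k4,(nat_lit 322)),(k3,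
    (nat_lit 360))]]
    [] k0
    [[k3,k0,k0,k0,k0,k0],[k2,k1,k0,k0,k0,k0],[k2,k0,k1,k0,k0,k0],[k2,k0,k0,k1,k0,k0],[k2,k0,k0,k0,k1,k0],[k1,k1,k1,k0,
    k0,k0],[k1,k1,k0,k1,k0,k0],[k1,k1,k0,k0,k1,k0],[k1,k1,k0,k0,k0,k1],[k1,k0,k2,k0,k0,k0],[k1,k0,k1,k1,k0,k0],[k1,k0,
    k0,k2,k0,k0],[k0,k2,k1,k0,k0,k0],[k0,k1,k2,k0,k0,k0],[k0,k1,k1,k1,k0,k0],[k0,k1,k0,k2,k0,k0],[k0,k1,k0,k1,k0,k1],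
    [k0,k1,k1,k0,k1,k0],[k0,k0,k3,k0,k0,k0],[k0,k0,k0,k3,k0,k0],[k0,k0,k0,k0,k1,k2]]
    [.ref k6 k0 [(z1,[z1]),(z2,[y5,z5,z6]),(z1,[z2,y2,z0,z3]),(z1,[y1,z1,z0,z0,z3]),(z1,[z0,y1,y3,y3,y3,z3])],
    .ref k6 k0 [(z1,[y6,z5,z6]),(z1,[z15,y10,y12]),(z1,[y12,z8,z12,z3]),(z1,[z6,y4,y6,z0,z3]),(z1,[z0,y1,y3,y3,y3,
    z3])],.ref k6 k0 [(z4,[z3,z2,z0,y3]),(z8,[y15,z10,z24,z15]),(z2,[z3,y2,z0,z3]),(z4,[y3,z2,z0,z3,z12]),(z1,[z0,y1,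
    y3,y3,y3,z3])],.ref k6 k0 [(z1,[z3,y1,z0,z0,y3]),(z2,[y15,z10,z6,z0,z15]),(z1,[z6,y4,z0,z3,y6]),(z1,[y3,z2,z0,z0,
    z6]),(z1,[z0,y1,y3,y3,y3,z3])],.ref k6 k0 [(z2,[z3,z1,z3,z3,z3,y3]),(z4,[y15,z5,y3,y15,y15,z15]),(z1,[z3,y1,z3,z6,
    z3,y3]),(z2,[y3,z1,y3,y3,z3,z3]),(z1,[z0,y1,y3,y3,y3,z3])],.ref k6 k0 [(z1,[z6,y1,y6,y6]),(z1,[y15,z5,z18,z15]),
    (z1,[z12,y4,y12,y9]),(z1,[y6,z2,z6,z6,z3]),(z1,[z0,y1,y3,y3,y3,z3])],.ref k6 k0 [(z5,[y6,z7,z6,z0,z6]),(z1,[z3,y1,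
    z0,z0,y3]),(z5,[y12,z4,z12,z15,z12]),(z5,[z6,y2,y6,z0,z9]),(z1,[z0,y1,y3,y3,y3,z3])],.ref k6 k0 [(z1,[y2,z1,z0,y2,
    y2,z2]),(z1,[z5,z0,z3,z5,z5,y5]),(z1,[y4,z0,z0,y1,y4,z4]),(z1,[z2,z0,z0,z2,z5,y2]),(z1,[z0,y1,y3,y3,y3,z3])],
    .ref k6 k0 [(z1,[y3,z2,z3]),(z2,[z15,y5,y9]),(z1,[y6,z2,z6,z3]),(z1,[z3,y1,y3,z0,z3]),(z1,[z0,y1,y3,y3,y3,z3])],
    .ref k6 k0 [(z5,[z3,z4,z0,y6]),(z2,[y3,z1,z6,z6]),(z5,[z6,y2,z0,z3]),(z5,[y3,z1,z0,z6,z15]),(z1,[z0,y1,y3,y3,y3,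
    z3])],.ref k6 k0 [(z2,[z3,z1,z0,y3,y3]),(z4,[y15,z5,z12,z15,z15]),(z1,[z3,y1,z0,z0,y3]),(z2,[y3,z1,z0,z3,z9]),(z1,
    [z0,y1,y3,y3,y3,z3])],.ref k6 k0 [(z1,[y3,z2,z0,z0,z6]),(z2,[z15,y5,z6,z0,y30]),(z1,[y6,z2,z0,z3,z12]),(z1,[z3,y1,
    z0,z0,y3]),(z1,[z0,y1,y3,y3,y3,z3])],.ref k6 k0 [(z1,[y1,z1,z2,z1]),(z2,[z5,z0,y4,y5]),(z1,[y2,z0,z4,z5]),(z1,[z1,
    z0,y2,y1,z3]),(z1,[z0,y1,y3,y3,y3,z3])],.ref k6 k0 [(z1,[z2,z1,y2,y4]),(z1,[y5,z0,z8,z10]),(z1,[z4,z0,y4,y5]),(z1,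
    [y2,z0,z2,z4,z3]),(z1,[z0,y1,y3,y3,y3,z3])],.ref k6 k0 [(z1,[y2,z1,z2,z2,z2]),(z1,[z5,z0,y2,y5,y5]),(z1,[y4,z0,z4,
    z7,z4]),(z1,[z2,z0,y2,y2,z1]),(z1,[z0,y1,y3,y3,y3,z3])],.ref k6 k0 [(z3,[y2,z3,z2,z0,z4]),(z3,[z5,z0,z4,z0,y10]),
    (z3,[y4,z0,z4,z9,z8]),(z3,[z2,z0,y2,z0,z5]),(z1,[z0,y1,y3,y3,y3,z3])],.ref k6 k0 [(z1,[y1,z1,z1,z0,z1]),(z2,[z5,
    z0,z1,z0,y5]),(z1,[y2,z0,z2,z3,z2]),(z1,[z1,z0,y1,z0,z2]),(z1,[z0,y1,y3,y3,y3,z3])],.ref k6 k0 [(z1,[y6,y1,z0,z0,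
    y6,z6]),(z1,[z15,z5,z3,z0,z15,y15]),(z1,[y12,y4,z0,z3,y12,z12]),(z1,[z6,z2,z0,z0,z9,y6]),(z1,[z0,y1,y3,y3,y3,
    z3])],.ref k6 k0 [(z2,[z1,z2,z0,y3]),(z4,[y5,z0,z12,z15]),(z1,[z1]),(z2,[y1,z0,z0,z3,z6]),(z1,[z0,y1,y3,y3,y3,
    z3])],.ref k6 k0 [(z1,[y1,z1,z0,z0,z3]),(z2,[z5,z0,z6,z0,y15]),(z1,[y2,z0,z0,z3,z6]),(z1,[z1]),(z1,[z0,y1,y3,y3,
    y3,z3])],.ref k6 k0 [(z1,[z3,z2,z3,z3,z3,y3]),(z2,[y15,y5,y9,y15,y15,z15]),(z1,[z6,z2,z6,z9,z6,y6]),(z1,[y3,y1,y3,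
    y3,z0,z3]),(z1,[z0,y1,y3,y3,y3,z3])]],
    .lp [k160,k142,k166,k166,k164,k160] [k3,k3,k12,k12,k0,k0,k0,k0,k1,k1,k3,k3] k0 [[k0,k0,k0,k6,k0,k0,k0,k20],[k0,k0,k0,
    k8,k0,k0,k0,k14],[k8,k6,k0,k0,k16],[k0,k0,k0,k0,k12,k0,k0,k0,k0,k6],[k0,k0,k0,k0,k0,k0,k8,k22,k0,k0,k14],[k0,k0,
    k12,k16],[k14,k20,k0,k0,k0,k22],[k0,k0,k0,k0,k0,k8,k0,k0,k4],[k0,k0,k6],[k0,k0,k0,k0,k0,k0,k4],[],[k0,k0,k0,k0,k0,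
    k14]] (nat_lit 480) k5
    [[(k4,k149),(k3,k151),(k0,k160),(k11,k160),(k8,k162),(k7,k163)],[(k6,k143),(k2,k145),(k1,k160),(k10,k160),(k5,
    k171),(k9,k176)],[(k2,k134),(k6,k140),(k1,k151),(k10,k151),(k5,k160),(k9,k173)],[(k3,k134),(k7,k138),(k0,k145),
    (k8,k153),(k11,k157),(k4,k166)],[(k7,k154),(k8,k159),(k3,k160),(k11,k163),(k0,k171),(k4,k182)],[(k6,k144),(k1,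
    k149),(k9,k157),(k10,k163),(k2,k166),(k5,k182)],[(k2,k138),(k5,k154),(k1,k163),(k6,k174),(k10,k177),(k9,k187)],
    [(k3,k140),(k0,k143),(k4,k144),(k11,k163),(k8,k169),(k7,k174)],[(k4,k157),(k11,k158),(k8,k164),(k3,k173),(k0,
    k176),(k7,k187)],[(k2,k153),(k5,k159),(k1,k162),(k10,k162),(k9,k164),(k6,k169)],[(k2,k157),(k9,k158),(k1,k160),
    (k10,k160),(k5,k163),(k6,k163)],[(k3,k151),(k0,k160),(k11,k160),(k8,k162),(k4,k163),(k7,k177)]]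
    [] k0
    [[k2,k1,k0,k0,k0,k0],[k2,k0,k0,k1,k0,k0],[k1,k2,k0,k0,k0,k0],[k1,k1,k0,k1,k0,k0],[k1,k1,k0,k0,k0,k1],[k1,k1,k1,k0,
    k0,k0],[k1,k0,k1,k1,k0,k0],[k1,k0,k1,k0,k0,k1],[k0,k3,k0,k0,k0,k0],[k0,k2,k1,k0,k0,k0],[k0,k2,k0,k1,k0,k0],[k0,k2,
    k0,k0,k1,k0],[k0,k2,k0,k0,k0,k1],[k0,k1,k1,k1,k0,k0],[k0,k1,k1,k0,k1,k0],[k0,k1,k0,k2,k0,k0],[k0,k1,k0,k1,k0,k1],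
    [k0,k1,k0,k0,k1,k1],[k0,k1,k0,k0,k0,k2],[k0,k0,k1,k2,k0,k0]]
    [.ref k6 k0 [(z2,[z5,y4,y5]),(z1,[y2,z4,z5]),(z1,[z1,y2,y1,z3]),(z4,[y5,z10,z5,z0,z12]),(z2,[y1,y4,y5,y6,y6,z6])],
    .ref k6 k0 [(z1,[z2,y1,z0,z0,y2]),(z5,[y8,z16,z15,z0,z8]),(z5,[z4,y8,z0,z15,y4]),(z1,[y1,z2,z0,z0,z4]),(z5,[y2,
    y11,y15,y15,y13,z15])],.ref k6 k0 [(z1,[y5,z8,z10]),(z1,[z4,y4,y5]),(z1,[y2,z2,z4,z3]),(z2,[z5,y5,y10,z0,z6]),(z1,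
    [z1,y4,y5,y3,y3,z3])],.ref k6 k0 [(z1,[y10,z13,z10,z0,z10]),(z1,[z8,y8,y5,z0,y8]),(z1,[y4,z4,z4,z3,z4]),(z1,[z5,
    y5,y5,z0,y2]),(z1,[z2,y5,y5,y3,y5,z3])],.ref k6 k0 [(z1,[z10,y7,y10]),(z1,[y8,z8,z11]),(z1,[z4,y4,y4,z3]),(z1,[y5,
    z5,z5,z0,z3]),(z1,[y2,y1,y1,y3,y3,z3])],.ref k6 k0 [(z1,[z5,y2,y5,y5]),(z1,[y4,z4,z7,z4]),(z1,[z2,y2,y2,z1]),(z2,
    [y5,z5,z5,z5,z6]),(z1,[y1,y2,y2,y2,y3,z3])],.ref k6 k0 [(z3,[z10,y1,z0,y10,y10]),(z3,[y8,z8,z9,z8,z8]),(z3,[z4,y4,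
    z0,z5,y4]),(z3,[y5,z5,z0,z5,z14]),(z3,[y2,y7,y9,y7,y7,z9])],.ref k6 k0 [(z1,[z2,z1,z0,y2]),(z5,[y8,z8,z15,z8]),
    (z5,[z4,y4,z0,z11]),(z1,[y1,z1,z0,z1,z3]),(z5,[y2,y13,y15,y13,y15,z15])],.ref k6 k0 [(z4,[y5,z12,z15]),(z1,[z1]),
    (z2,[y1,z0,z3,z6]),(z8,[z5,z0,y15,z0,z24]),(z4,[z1,y12,y15,y12,y12,z12])],.ref k6 k0 [(z2,[y5,z6,z10,z5]),(z1,[z2,
    z0,y1,y2]),(z1,[y1,z0,z2,z4]),(z4,[z5,z0,y10,y5,z12]),(z2,[z1,y6,y8,y7,y6,z6])],.ref k6 k0 [(z7,[y10,z21,z20,z0,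
    z10]),(z7,[z8,z0,z5,z0,y8]),(z7,[y4,z0,z8,z21,z4]),(z7,[z5,z0,y10,z0,z16]),(z7,[z2,y21,y25,y21,y23,z21])],
    .ref k6 k0 [(z3,[y5,z4,z5,y5,y5,z5]),(z3,[z4,z4,z5,z4,z4,y4]),(z3,[y2,y2,z2,z7,y2,z2]),(z6,[z5,z5,y5,z5,z23,y5]),
    (z3,[z1,y8,y10,y8,y8,z8])],.ref k6 k0 [(z1,[y2,z3,z4]),(z5,[z8,z0,y1]),(z5,[y4,z0,z8,z15]),(z1,[z1,z0,y2,z0,z3]),
    (z5,[z2,y15,y19,y15,y15,z15])],.ref k6 k0 [(z3,[y10,z9,z10,z10,z10]),(z3,[z8,z0,z1,y8,y8]),(z3,[y4,z0,z4,z13,z4]),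
    (z3,[z5,z0,y5,y5,z4]),(z3,[z2,y9,y11,y11,y11,z9])],.ref k6 k0 [(z1,[y5,y2,z0,z0,y5,z5]),(z1,[z4,z4,z3,z0,z4,y4]),
    (z1,[y2,y2,z0,z3,y2,z2]),(z2,[z5,z5,z0,z0,z11,y5]),(z1,[z1,y2,y3,y3,y2,z2])],.ref k6 k0 [(z3,[y5,z9,z5,z0,z10]),
    (z3,[z4,z0,z5,z0,y8]),(z3,[y2,z0,z2,z9,z4]),(z6,[z5,z0,y5,z0,z8]),(z3,[z1,y9,y10,y9,y11,z9])],.ref k6 k0 [(z2,[y5,
    z6,z5,z0,z5]),(z1,[z2,z0,z1,z0,y2]),(z1,[y1,z0,z1,z3,z1]),(z4,[z5,z0,y5,z0,z7]),(z2,[z1,y6,y7,y6,y7,z6])],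
    .ref k6 k0 [(z3,[y10,y1,z0,y10,y10,z10]),(z3,[z8,z8,z9,z8,z8,y8]),(z3,[y4,y4,z0,z5,y4,z4]),(z3,[z5,z5,z0,z5,z14,
    y5]),(z3,[z2,y7,y9,y7,y7,z7])],.ref k6 k0 [(z1,[y5,z3,z5]),(z1,[z4,z0,y1]),(z1,[y2,z0,z2,z3]),(z2,[z5,z0,y5,z0,
    z6]),(z1,[z1,y3,y4,y3,y3,z3])],.ref k6 k0 [(z1,[y5,z3,z0,z5,z10]),(z1,[z4,z0,z3,y4,y8]),(z1,[y2,z0,z0,z5,z4]),(z2,
    [z5,z0,z0,y5,y4]),(z1,[z1,y3,y3,y4,y5,z3])]],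
    .lp [(nat_lit 588),(nat_lit 614),(nat_lit 646),(nat_lit 604),(nat_lit 718),(nat_lit 666)] [k65,k65,k52,k52,k36,k36,
    k57,k57,k0,k0,k26,k26] k0 [[k0,k0,k106,k2],[],[k0,k2,k0,k0,k18,k6],[k0,k106],[k0,k0,k0,k6,k0,k0,k0,k0,k0,k0,k32],
    [k0,k0,k0,k18,k0,k0,k0,k48],[k0,k0,k0,k0,k48],[k0,k0,k0,k0,k0,k0,k0,k0,k42,k62],[k0,k0,k0,k0,k0,k0,k62,k0,k0,k0,
    k0,k78],[k0,k0,k0,k0,k0,k0,k42,k0,k0,k0,k0,k26],[k0,k0,k0,k0,k0,k0,k0,k0,k26,k78],[k0,k0,k0,k0,k0,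
    k32]] (nat_lit 1920) k5
    [[(k4,(nat_lit 585)),(k0,(nat_lit 588)),(k7,(nat_lit 596)),(k3,(nat_lit 601)),(k8,(nat_lit 679)),(k11,
    (nat_lit 705))],[(k5,(nat_lit 511)),(k1,(nat_lit 588)),(k6,(nat_lit 596)),(k2,(nat_lit 599)),(k10,(nat_lit 627)),
    (k9,(nat_lit 653))],[(k1,(nat_lit 601)),(k6,(nat_lit 609)),(k5,(nat_lit 632)),(k10,(nat_lit 640)),(k9,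
    (nat_lit 666)),(k2,(nat_lit 720))],[(k7,(nat_lit 591)),(k0,(nat_lit 599)),(k4,(nat_lit 624)),(k11,(nat_lit 640)),
    (k8,(nat_lit 666)),(k3,(nat_lit 720))],[(k0,(nat_lit 511)),(k7,(nat_lit 631)),(k3,(nat_lit 632)),(k11,
    (nat_lit 656)),(k4,(nat_lit 664)),(k8,(nat_lit 682))],[(k1,(nat_lit 585)),(k2,(nat_lit 624)),(k6,(nat_lit 625)),
    (k10,(nat_lit 656)),(k5,(nat_lit 664)),(k9,(nat_lit 730))],[(k6,(nat_lit 556)),(k2,(nat_lit 591)),(k1,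
    (nat_lit 596)),(k5,(nat_lit 631)),(k9,(nat_lit 661)),(k10,(nat_lit 667))],[(k7,(nat_lit 556)),(k0,(nat_lit 596)),
    (k3,(nat_lit 609)),(k4,(nat_lit 625)),(k11,(nat_lit 697)),(k8,(nat_lit 703))],[(k11,(nat_lit 650)),(k0,
    (nat_lit 653)),(k8,(nat_lit 656)),(k7,(nat_lit 661)),(k3,(nat_lit 666)),(k4,(nat_lit 730))],[(k10,(nat_lit 614)),
    (k9,(nat_lit 656)),(k2,(nat_lit 666)),(k1,(nat_lit 679)),(k5,(nat_lit 682)),(k6,(nat_lit 703))],[(k2,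
    (nat_lit 640)),(k10,(nat_lit 640)),(k9,(nat_lit 650)),(k5,(nat_lit 656)),(k6,(nat_lit 697)),(k1,(nat_lit 705))],
    [(k8,(nat_lit 614)),(k0,(nat_lit 627)),(k3,(nat_lit 640)),(k11,(nat_lit 640)),(k4,(nat_lit 656)),(k7,
    (nat_lit 667))]]
    [] k0
    [[k3,k0,k0,k0,k0,k0],[k2,k1,k0,k0,k0,k0],[k2,k0,k1,k0,k0,k0],[k2,k0,k0,k1,k0,k0],[k1,k1,k1,k0,k0,k0],[k1,k1,k0,k1,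
    k0,k0],[k1,k1,k0,k0,k0,k1],[k1,k0,k2,k0,k0,k0],[k1,k0,k1,k1,k0,k0],[k1,k0,k1,k0,k0,k1],[k1,k0,k0,k2,k0,k0],[k0,k1,
    k1,k1,k0,k0],[k0,k1,k0,k2,k0,k0],[k0,k1,k0,k1,k0,k1],[k0,k0,k1,k2,k0,k0],[k0,k0,k0,k3,k0,k0],[k0,k0,k0,k0,k1,k2]]
    [.ref k6 k0 [(z1,[z1]),(z1,[y1,z1,z3]),(z1,[z2,y2,z0,z3]),(z2,[y5,z5,z0,z0,z6]),(z1,[z0,y1,y3,y3,y3,z3])],
    .ref k6 k0 [(z1,[z3,y1,y3]),(z1,[y3,z2,z6]),(z1,[z6,y4,y6,z3]),(z2,[y15,z10,z15,z0,z6]),(z1,[z0,y1,y3,y3,y3,z3])],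
    .ref k6 k0 [(z4,[z3,z2,z0,y3]),(z4,[y3,z2,z12,z3]),(z2,[z3,y2,z0,z3]),(z8,[y15,z10,z0,z15,z24]),(z1,[z0,y1,y3,y3,
    y3,z3])],.ref k6 k0 [(z1,[y6,z5,z0,z0,z6]),(z1,[z6,y4,z3,z0,y6]),(z1,[y12,z8,z0,z3,z12]),(z1,[z15,y10,z0,z0,y12]),
    (z1,[z0,y1,y3,y3,y3,z3])],.ref k6 k0 [(z2,[z3,z1,y3,y3]),(z2,[y3,z1,z9,z3]),(z1,[z3,y1,y3]),(z4,[y15,z5,z15,z15,
    z12]),(z1,[z0,y1,y3,y3,y3,z3])],.ref k6 k0 [(z5,[y6,z7,z6,z0,z6]),(z5,[z6,y2,z9,z0,y6]),(z5,[y12,z4,z12,z15,z12]),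
    (z1,[z3,y1,y3]),(z1,[z0,y1,y3,y3,y3,z3])],.ref k6 k0 [(z1,[z6,y1,y6]),(z1,[y6,z2,z9]),(z1,[z12,y4,y12,z3]),(z1,
    [y15,z5,z15,z0,z3]),(z1,[z0,y1,y3,y3,y3,z3])],.ref k6 k0 [(z5,[z3,z4,z0,y6]),(z5,[y3,z1,z15,z6]),(z5,[z6,y2,z0,
    z3]),(z2,[y3,z1,z0,z6,z6]),(z1,[z0,y1,y3,y3,y3,z3])],.ref k6 k0 [(z1,[z6,y1,z0,y6,y6]),(z1,[y6,z2,z3,z6,z6]),(z1,
    [z12,y4,z0,y9,y12]),(z1,[y15,z5,z0,z15,z18]),(z1,[z0,y1,y3,y3,y3,z3])],.ref k6 k0 [(z7,[z6,z5,z0,y6]),(z7,[y6,z2,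
    z21,z6]),(z7,[z12,y4,z0,z9]),(z7,[y15,z5,z0,z15,z21]),(z1,[z0,y1,y3,y3,y3,z3])],.ref k6 k0 [(z4,[y3,z5,z0,z0,z6]),
    (z4,[z3,y1,z12,z0,y6]),(z2,[y3,z1,z0,z6,z6]),(z8,[z15,y5,z0,z0,y6]),(z1,[z0,y1,y3,y3,y3,z3])],.ref k6 k0 [(z1,[y2,
    z1,z2,z2,z2]),(z1,[z2,z0,z1,y2,y2]),(z1,[y4,z0,z4,z7,z4]),(z1,[z5,z0,y5,y5,y2]),(z1,[z0,y1,y3,y3,y3,z3])],
    .ref k6 k0 [(z2,[y1,z2,z1,z0,z2]),(z2,[z1,z0,z5,z0,y2]),(z1,[y1,z0,z1,z3,z2]),(z4,[z5,z0,y5,z0,z2]),(z1,[z0,y1,y3,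
    y3,y3,z3])],.ref k6 k0 [(z1,[y1,z1,z1,z0,z1]),(z1,[z1,z0,z2,z0,y1]),(z1,[y2,z0,z2,z3,z2]),(z2,[z5,z0,y5,z0,z1]),
    (z1,[z0,y1,y3,y3,y3,z3])],.ref k6 k0 [(z1,[y1,z1,z0,z1,z2]),(z1,[z1,z0,z3,y1,y2]),(z1,[y2,z0,z0,z5,z4]),(z2,[z5,
    z0,z0,y5,y4]),(z1,[z0,y1,y3,y3,y3,z3])],.ref k6 k0 [(z5,[y2,z5,z0,z0,z6]),(z5,[z2,z0,z15,z0,y6]),(z5,[y4,z0,z0,
    z15,z12]),(z1,[z1]),(z1,[z0,y1,y3,y3,y3,z3])],.ref k6 k0 [(z1,[z3,z2,z3,z3,z3,y3]),(z1,[y3,y1,z0,y3,y3,z3]),(z1,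
    [z6,z2,z6,z9,z6,y6]),(z2,[y15,y5,y15,y15,y9,z15]),(z1,[z0,y1,y3,y3,y3,z3])]],
    .lp [(nat_lit 320),(nat_lit 296),(nat_lit 336),(nat_lit 320),(nat_lit 326),(nat_lit 320)] [k8,k8,k20,k20,k0,k0,k8,k8,
    k5,k5,k8,k8] k0 [[k0,k0,k64,k0,k0,k0,k0,k18],[k0,k0,k0,k0,k0,k0,k0,k16,k0,k0,k0,k24],[k0,k0,k0,k0,k0,k8,k0,k0,k0,
    k40],[k0,k64,k0,k0,k0,k0,k0,k0,k0,k8],[k0,k0,k0,k8,k0,k0,k0,k0,k0,k0,k30],[k0,k0,k0,k0,k0,k0,k18,k42],[k16,k18,k0,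
    k0,k42],[k0,k0,k0,k0,k18,k0,k0,k0,k6],[k0,k0,k8,k40],[k0,k0,k0,k0,k0,k0,k6,k0,k0,k0,k12],[k24],[k0,k0,k0,k0,k0,
    k30,k0,k0,k12]] (nat_lit 960) k5
    [[(k4,(nat_lit 298)),(k3,(nat_lit 308)),(k11,(nat_lit 308)),(k7,(nat_lit 320)),(k8,(nat_lit 323)),(k0,
    (nat_lit 344))],[(k5,(nat_lit 264)),(k6,(nat_lit 302)),(k2,(nat_lit 308)),(k10,(nat_lit 320)),(k9,(nat_lit 339)),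
    (k1,(nat_lit 344))],[(k10,(nat_lit 284)),(k6,(nat_lit 292)),(k1,(nat_lit 308)),(k5,(nat_lit 316)),(k9,
    (nat_lit 329)),(k2,(nat_lit 360))],[(k8,(nat_lit 271)),(k0,(nat_lit 308)),(k4,(nat_lit 308)),(k7,(nat_lit 308)),
    (k11,(nat_lit 316)),(k3,(nat_lit 360))],[(k0,(nat_lit 264)),(k3,(nat_lit 316)),(k8,(nat_lit 323)),(k4,
    (nat_lit 336)),(k7,(nat_lit 336)),(k11,(nat_lit 368))],[(k1,(nat_lit 298)),(k2,(nat_lit 308)),(k10,(nat_lit 328)),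
    (k5,(nat_lit 336)),(k6,(nat_lit 346)),(k9,(nat_lit 373))],[(k6,(nat_lit 278)),(k9,(nat_lit 305)),(k2,
    (nat_lit 308)),(k1,(nat_lit 320)),(k5,(nat_lit 336)),(k10,(nat_lit 350))],[(k7,(nat_lit 278)),(k3,(nat_lit 292)),
    (k0,(nat_lit 302)),(k11,(nat_lit 320)),(k8,(nat_lit 329)),(k4,(nat_lit 346))],[(k7,(nat_lit 305)),(k11,
    (nat_lit 317)),(k8,(nat_lit 326)),(k3,(nat_lit 329)),(k0,(nat_lit 339)),(k4,(nat_lit 373))],[(k2,(nat_lit 271)),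
    (k1,(nat_lit 323)),(k5,(nat_lit 323)),(k9,(nat_lit 326)),(k6,(nat_lit 329)),(k10,(nat_lit 335))],[(k1,
    (nat_lit 308)),(k2,(nat_lit 316)),(k9,(nat_lit 317)),(k6,(nat_lit 320)),(k10,(nat_lit 320)),(k5,(nat_lit 368))],
    [(k3,(nat_lit 284)),(k0,(nat_lit 320)),(k11,(nat_lit 320)),(k4,(nat_lit 328)),(k8,(nat_lit 335)),(k7,
    (nat_lit 350))]]
    [] k0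
    [[k2,k0,k1,k0,k0,k0],[k1,k1,k1,k0,k0,k0],[k1,k1,k0,k1,k0,k0],[k1,k1,k0,k0,k1,k0],[k1,k1,k0,k0,k0,k1],[k1,k0,k2,k0,
    k0,k0],[k1,k0,k1,k1,k0,k0],[k1,k0,k0,k2,k0,k0],[k1,k0,k0,k1,k1,k0],[k1,k0,k1,k0,k0,k1],[k1,k0,k0,k0,k0,k2],[k0,k1,
    k1,k1,k0,k0],[k0,k1,k0,k2,k0,k0],[k0,k1,k0,k1,k1,k0],[k0,k1,k0,k1,k0,k1],[k0,k1,k0,k0,k2,k0],[k0,k1,k0,k0,k1,k1],
    [k0,k1,k0,k0,k0,k2],[k0,k0,k0,k3,k0,k0],[k0,k0,k0,k2,k1,k0],[k0,k0,k0,k2,k0,k1]]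
    [.ref k6 k0 [(z3,[z2,z5,z0,y2]),(z3,[y4,z8,z9,z4]),(z3,[z5,y10,z0,z4]),(z6,[y5,z10,z0,z5,z18]),(z3,[y1,y7,y9,y8,
    y9,z9])],.ref k6 k0 [(z1,[z2,z1,y2,y2]),(z1,[y4,z4,z7,z4]),(z1,[z5,y5,y5,y2]),(z2,[y5,z5,z5,z5,z6]),(z1,[y1,y2,y2,
    y2,y3,z3])],.ref k6 k0 [(z3,[y4,z13,z4,z0,z4]),(z3,[z8,y8,z1,z0,y8]),(z3,[y10,z10,z10,z9,z10]),(z3,[z5,y5,y5,z0,
    z4]),(z3,[z2,y11,y11,y9,y11,z9])],.ref k6 k0 [(z1,[y2,z3,z0,y2,y2,z2]),(z1,[z4,z0,z3,z4,z4,y4]),(z1,[y5,z0,z0,y2,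
    y5,z5]),(z2,[z5,z0,z0,z5,z11,y5]),(z1,[z1,y3,y3,y2,y2,z2])],.ref k6 k0 [(z1,[y4,z7,z4]),(z1,[z8,y8,y5]),(z1,[y10,
    z10,z10,z3]),(z1,[z5,y5,y5,z0,z3]),(z1,[z2,y5,y5,y3,y3,z3])],.ref k6 k0 [(z2,[z1,z5,z0,y2]),(z1,[y1,z1,z3,z2]),
    (z4,[z5,y5,z0,z2]),(z8,[y5,z5,z0,z10,z24]),(z4,[y1,y11,y12,y10,y12,z12])],.ref k6 k0 [(z3,[z4,z5,z0,y4,y4]),(z3,
    [y8,z8,z9,z8,z8]),(z3,[z10,y10,z0,y1,y10]),(z3,[y5,z5,z0,z5,z14]),(z3,[y2,y7,y9,y7,y7,z9])],.ref k6 k0 [(z1,[y2,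
    z5,z0,z0,z4]),(z1,[z4,y4,z3,z0,y8]),(z1,[y5,z5,z0,z3,z10]),(z2,[z5,y5,z0,z0,y4]),(z1,[z1,y4,y3,y3,y5,z3])],
    .ref k6 k0 [(z1,[y4,z3,y4,y4,z0,z4]),(z1,[z8,z0,z11,z8,z0,y8]),(z1,[y10,z0,y10,y7,z0,z10]),(z1,[z5,z0,z5,z5,z3,
    y5]),(z1,[z2,y3,y1,y1,y3,z1])],.ref k6 k0 [(z5,[z4,z11,z0,y4]),(z5,[y8,z8,z15,z8]),(z1,[z2,y2,z0,z1]),(z1,[y1,z1,
    z0,z1,z3]),(z5,[y2,y13,y15,y13,y15,z15])],.ref k6 k0 [(z1,[z2,z1]),(z1,[y4,z4,z3]),(z1,[z5,y5,z0,z3]),(z2,[y5,z5,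
    z0,z0,z6]),(z1,[y1,y2,y3,y3,y3,z3])],.ref k6 k0 [(z1,[y4,z3,z4,z4,z4]),(z1,[z8,z0,y5,y8,y8]),(z1,[y10,z0,z10,z13,
    z10]),(z1,[z5,z0,y5,y5,y2]),(z1,[z2,y3,y5,y5,y5,z3])],.ref k6 k0 [(z3,[y2,z9,z2,z0,z4]),(z3,[z4,z0,z5,z0,y8]),(z3,
    [y5,z0,z5,z9,z10]),(z6,[z5,z0,y5,z0,z8]),(z3,[z1,y9,y10,y9,y11,z9])],.ref k6 k0 [(z5,[y4,z11,z0,y4,z0,z4]),(z5,
    [z8,z8,z15,z8,z0,y8]),(z1,[y2,y2,z0,z1,z0,z2]),(z1,[z1,z1,z0,z1,z3,y1]),(z5,[z2,y13,y15,y13,y15,z13])],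
    .ref k6 k0 [(z1,[y1,z3,z1,z0,z1]),(z1,[z2,z0,z1,z0,y2]),(z2,[y5,z0,z5,z6,z5]),(z4,[z5,z0,y5,z0,z7]),(z2,[z1,y6,y7,
    y6,y7,z6])],.ref k6 k0 [(z1,[y1,z1,y1,y2,y2,z2]),(z1,[z2,z4,z5,z4,z4,y4]),(z2,[y5,y10,y5,y4,y10,z10]),(z4,[z5,z10,
    z5,z10,z22,y10]),(z2,[z1,y4,y5,y4,y4,z4])],.ref k6 k0 [(z3,[y4,z5,z0,y4,y4,z4]),(z3,[z8,z8,z9,z8,z8,y8]),(z3,[y10,
    y10,z0,y1,y10,z10]),(z3,[z5,z5,z0,z5,z14,y5]),(z3,[z2,y7,y9,y7,y7,z7])],.ref k6 k0 [(z1,[y2,z3,z2]),(z1,[z4,z0,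
    y1]),(z1,[y5,z0,z5,z3]),(z2,[z5,z0,y5,z0,z6]),(z1,[z1,y3,y4,y3,y3,z3])],.ref k6 k0 [(z5,[y4,z15,z0,z0,z12]),(z5,
    [z8,z0,z15,z0,y24]),(z1,[y2,z0,z0,z3,z6]),(z1,[z1]),(z5,[z2,y15,y15,y15,y21,z15])],.ref k6 k0 [(z1,[y1,z2,y1,y1,
    z1,z1]),(z1,[z2,z2,z5,z2,y2,y2]),(z2,[y5,y5,y5,z1,z5,z5]),(z4,[z5,z5,z5,z5,z7,y5]),(z2,[z1,y5,y5,y5,y7,z5])],
    .ref k6 k0 [(z3,[y4,z9,z0,z0,z8]),(z3,[z8,z0,z9,z0,y16]),(z3,[y10,z0,z0,z9,z20]),(z3,[z5,z0,z0,z0,y1]),(z3,[z2,y9,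
    y9,y9,y13,z9])]],
    .lp [(nat_lit 592),(nat_lit 634),(nat_lit 612),(nat_lit 664),(nat_lit 660),(nat_lit 674)] [k41,k41,k20,k20,k31,k31,k5,
    k5,k7,k7,k0,k0] k0 [[k0,k0,k122],[k0,k0,k0,k0,k0,k0,k0,k70,k0,k0,k36],[k0,k0,k0,k0,k64],[k0,k122],[k0,k0,k0,k0,k0,
    k0,k0,k32,k0,k0,k18],[k0,k0,k0,k64],[k70,k0,k0,k0,k0,k32],[k0,k0,k0,k0,k0,k0,k0,k0,k26,k12],[k0,k0,k0,k0,k0,k0,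
    k12,k0,k0,k0,k0,k26],[k0,k0,k0,k0,k0,k0,k26,k0,k0,k0,k0,k34],[k0,k0,k0,k0,k0,k0,k0,k0,k34,k26],[k36,k0,k0,k0,k0,
    k18]] (nat_lit 1920) k5
    [[(k3,(nat_lit 577)),(k4,(nat_lit 584)),(k0,(nat_lit 592)),(k7,(nat_lit 628)),(k11,(nat_lit 659)),(k8,
    (nat_lit 660))],[(k5,(nat_lit 480)),(k1,(nat_lit 592)),(k2,(nat_lit 613)),(k6,(nat_lit 628)),(k10,(nat_lit 669)),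
    (k9,(nat_lit 696))],[(k1,(nat_lit 577)),(k6,(nat_lit 579)),(k5,(nat_lit 623)),(k9,(nat_lit 647)),(k10,
    (nat_lit 654)),(k2,(nat_lit 756))],[(k7,(nat_lit 585)),(k0,(nat_lit 613)),(k4,(nat_lit 623)),(k8,(nat_lit 647)),
    (k11,(nat_lit 654)),(k3,(nat_lit 756))],[(k0,(nat_lit 480)),(k3,(nat_lit 623)),(k8,(nat_lit 636)),(k7,
    (nat_lit 638)),(k11,(nat_lit 643)),(k4,(nat_lit 676))],[(k1,(nat_lit 584)),(k6,(nat_lit 606)),(k2,(nat_lit 623)),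
    (k9,(nat_lit 636)),(k10,(nat_lit 643)),(k5,(nat_lit 676))],[(k2,(nat_lit 585)),(k1,(nat_lit 628)),(k5,
    (nat_lit 638)),(k6,(nat_lit 664)),(k10,(nat_lit 687)),(k9,(nat_lit 694))],[(k3,(nat_lit 579)),(k4,(nat_lit 606)),
    (k0,(nat_lit 628)),(k7,(nat_lit 664)),(k11,(nat_lit 681)),(k8,(nat_lit 688))],[(k4,(nat_lit 636)),(k11,
    (nat_lit 641)),(k3,(nat_lit 647)),(k8,(nat_lit 648)),(k7,(nat_lit 694)),(k0,(nat_lit 696))],[(k5,(nat_lit 636)),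
    (k10,(nat_lit 641)),(k2,(nat_lit 647)),(k9,(nat_lit 648)),(k1,(nat_lit 660)),(k6,(nat_lit 688))],[(k10,
    (nat_lit 640)),(k9,(nat_lit 641)),(k5,(nat_lit 643)),(k2,(nat_lit 654)),(k1,(nat_lit 659)),(k6,(nat_lit 681))],
    [(k11,(nat_lit 640)),(k8,(nat_lit 641)),(k4,(nat_lit 643)),(k3,(nat_lit 654)),(k0,(nat_lit 669)),(k7,
    (nat_lit 687))]]
    [] k0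
    [[k3,k0,k0,k0,k0,k0],[k2,k1,k0,k0,k0,k0],[k2,k0,k1,k0,k0,k0],[k2,k0,k0,k1,k0,k0],[k1,k1,k1,k0,k0,k0],[k1,k1,k0,k1,
    k0,k0],[k1,k1,k0,k0,k0,k1],[k1,k0,k2,k0,k0,k0],[k1,k0,k1,k1,k0,k0],[k1,k0,k1,k0,k1,k0],[k1,k0,k1,k0,k0,k1],[k0,k1,
    k1,k1,k0,k0],[k0,k1,k1,k0,k1,k0],[k0,k1,k0,k2,k0,k0],[k0,k0,k1,k2,k0,k0]]
    [.ref k6 k0 [(z1,[z1]),(z5,[y1,z3,z15]),(z5,[z2,y6,z0,z15]),(z2,[y1,z3,z0,z0,z6]),(z5,[y4,y3,y15,y15,y15,z15])],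
    .ref k6 k0 [(z3,[z5,y1,y5]),(z3,[y1,z2,z10]),(z3,[z2,y4,y2,z9]),(z6,[y5,z10,z5,z0,z18]),(z3,[y4,y1,y5,y9,y9,z9])],
    .ref k6 k0 [(z4,[z5,z2,z0,y5]),(z4,[y1,z2,z12,z1]),(z2,[z1,y2,z0,z5]),(z8,[y5,z10,z0,z5,z24]),(z1,[y1,y1,y3,y2,y3,
    z3])],.ref k6 k0 [(z1,[z2,y1,z0,z0,y2]),(z5,[y2,z4,z15,z0,z2]),(z5,[z4,y8,z0,z15,y4]),(z1,[y1,z2,z0,z0,z4]),(z5,
    [y8,z1,y15,y15,y7,z15])],.ref k6 k0 [(z2,[z5,z1,y5,y5]),(z2,[y1,z1,z7,z1]),(z1,[z1,y1,y1,z2]),(z4,[y5,z5,z5,z5,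
    z12]),(z1,[y2,y1,y1,y1,y3,z3])],.ref k6 k0 [(z1,[z10,y7,y10,z0,y10]),(z1,[y2,z2,z5,z0,z2]),(z1,[z4,y4,y4,z3,y4]),
    (z1,[y5,z5,z5,z0,z8]),(z1,[y8,z5,z5,y3,z5,z3])],.ref k6 k0 [(z3,[z10,y1,y10]),(z3,[y2,z2,z11]),(z3,[z4,y4,y4,z9]),
    (z3,[y5,z5,z5,z0,z9]),(z3,[y8,y1,y1,y9,y9,z9])],.ref k6 k0 [(z3,[z5,z4,z0,y10]),(z3,[y1,z1,z9,z2]),(z3,[z2,y2,z0,
    z5]),(z6,[y5,z5,z0,z10,z18]),(z3,[y4,y5,y9,y1,y9,z9])],.ref k6 k0 [(z3,[z10,y1,z0,y10,y10]),(z3,[y2,z2,z9,z2,z2]),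
    (z3,[z4,y4,z0,z5,y4]),(z3,[y5,z5,z0,z5,z14]),(z3,[y8,y1,y9,y1,y1,z9])],.ref k6 k0 [(z1,[z5,z3,z5,z0,z5,y5]),(z1,
    [y1,z0,z2,z0,y1,z1]),(z1,[z2,z0,z2,z3,z2,y2]),(z2,[y5,z0,y5,z0,z1,z5]),(z1,[y4,y3,y7,y3,y7,z7])],.ref k6 k0 [(z1,
    [z2,z1,z0,y2]),(z5,[y2,z2,z15,z2]),(z5,[z4,y4,z0,z11]),(z1,[y1,z1,z0,z1,z3]),(z5,[y8,y7,y15,y7,y15,z15])],
    .ref k6 k0 [(z1,[y10,z3,z10,z10,z10]),(z1,[z2,z0,z1,y2,y2]),(z1,[y4,z0,z4,z7,z4]),(z1,[z5,z0,y5,y5,y2]),(z1,[z8,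
    y3,y11,y11,y11,z3])],.ref k6 k0 [(z1,[y5,y2,z0,z0,y5,z5]),(z1,[z1,z1,z3,z0,z1,y1]),(z1,[y2,y2,z0,z3,y2,z2]),(z2,
    [z5,z5,z0,z0,z11,y5]),(z1,[z4,z1,y3,y3,z1,y1])],.ref k6 k0 [(z2,[y5,z6,z5,z0,z10]),(z2,[z1,z0,z5,z0,y2]),(z1,[y1,
    z0,z1,z3,z2]),(z4,[z5,z0,y5,z0,z2]),(z1,[z2,y3,y5,y3,y7,z3])],.ref k6 k0 [(z1,[y5,z3,z0,z5,z10]),(z1,[z1,z0,z3,y1,
    y2]),(z1,[y2,z0,z0,z5,z4]),(z2,[z5,z0,z0,y5,y4]),(z1,[z4,y3,y3,y7,y11,z3])]],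
    .lp [(nat_lit 334),(nat_lit 304),(nat_lit 340),(nat_lit 272),(nat_lit 348),(nat_lit 320)] [k7,k7,k22,k22,k4,k4,k38,
    k38,k0,k0,k14,k14] k0 [[k0,k0,k0,k0,k0,k0,k50,k0,k0,k0,k0,k28],[k0,k0,k0,k10],[k10,k0,k0,k0,k0,k0,k0,k0,k0,k14],
    [k0,k0,k0,k0,k22,k44],[k0,k0,k44,k0,k0,k0,k0,k0,k0,k0,k20],[k0,k0,k22,k0,k0,k0,k0,k24],[k0,k0,k0,k0,k24,k0,k0,k0,
    k0,k2],[k0,k50,k0,k0,k0,k0,k0,k0,k0,k20],[k0,k0,k0,k14,k0,k0,k20,k2],[],[k0,k28],[k0,k0,k0,k0,k0,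
    k20]] (nat_lit 960) k5
    [[(k7,(nat_lit 303)),(k4,(nat_lit 317)),(k11,(nat_lit 327)),(k0,(nat_lit 334)),(k8,(nat_lit 341)),(k3,
    (nat_lit 347))],[(k9,(nat_lit 291)),(k10,(nat_lit 299)),(k6,(nat_lit 303)),(k2,(nat_lit 319)),(k1,(nat_lit 334)),
    (k5,(nat_lit 347))],[(k2,(nat_lit 294)),(k10,(nat_lit 312)),(k5,(nat_lit 322)),(k9,(nat_lit 326)),(k6,
    (nat_lit 338)),(k1,(nat_lit 347))],[(k3,(nat_lit 294)),(k8,(nat_lit 312)),(k11,(nat_lit 312)),(k0,(nat_lit 319)),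
    (k7,(nat_lit 332)),(k4,(nat_lit 344))],[(k7,(nat_lit 284)),(k4,(nat_lit 296)),(k3,(nat_lit 322)),(k8,
    (nat_lit 344)),(k11,(nat_lit 344)),(k0,(nat_lit 347))],[(k5,(nat_lit 296)),(k6,(nat_lit 306)),(k1,(nat_lit 317)),
    (k10,(nat_lit 330)),(k2,(nat_lit 344)),(k9,(nat_lit 368))],[(k6,(nat_lit 248)),(k5,(nat_lit 284)),(k1,
    (nat_lit 303)),(k9,(nat_lit 310)),(k10,(nat_lit 316)),(k2,(nat_lit 332))],[(k7,(nat_lit 248)),(k0,(nat_lit 303)),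
    (k4,(nat_lit 306)),(k8,(nat_lit 308)),(k11,(nat_lit 316)),(k3,(nat_lit 338))],[(k0,(nat_lit 291)),(k7,
    (nat_lit 310)),(k3,(nat_lit 326)),(k8,(nat_lit 328)),(k11,(nat_lit 336)),(k4,(nat_lit 368))],[(k6,(nat_lit 308)),
    (k2,(nat_lit 312)),(k9,(nat_lit 328)),(k10,(nat_lit 334)),(k1,(nat_lit 341)),(k5,(nat_lit 344))],[(k2,
    (nat_lit 312)),(k6,(nat_lit 316)),(k10,(nat_lit 320)),(k1,(nat_lit 327)),(k9,(nat_lit 336)),(k5,(nat_lit 344))],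
    [(k0,(nat_lit 299)),(k3,(nat_lit 312)),(k7,(nat_lit 316)),(k11,(nat_lit 320)),(k4,(nat_lit 330)),(k8,
    (nat_lit 334))]]
    [] k0
    [[k2,k0,k0,k1,k0,k0],[k1,k1,k0,k0,k1,k0],[k1,k1,k0,k0,k0,k1],[k1,k1,k1,k0,k0,k0],[k1,k0,k1,k1,k0,k0],[k1,k0,k1,k0,
    k1,k0],[k1,k0,k0,k2,k0,k0],[k1,k0,k0,k1,k1,k0],[k1,k0,k0,k1,k0,k1],[k1,k0,k0,k0,k1,k1],[k1,k0,k0,k0,k0,k2],[k0,k3,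
    k0,k0,k0,k0],[k0,k2,k0,k0,k1,k0],[k0,k2,k0,k0,k0,k1],[k0,k1,k0,k2,k0,k0],[k0,k1,k0,k0,k0,k2],[k0,k0,k3,k0,k0,k0],
    [k0,k0,k2,k1,k0,k0],[k0,k0,k1,k2,k0,k0],[k0,k0,k1,k1,k0,k1],[k0,k0,k0,k3,k0,k0],[k0,k0,k0,k2,k1,k0],[k0,k0,k0,k2,
    k0,k1],[k0,k0,k0,k1,k2,k0],[k0,k0,k0,k1,k0,k2]]
    [.ref k162 k5 [(z1,[z1,y1,z0,y1]),(z2,[z0,y1,y1,z2,z2]),(z1,[z0,z0,z0,y1]),(z2,[z0,z1,z0,z1])],.ref k24 k10 [(z2,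
    [z2,z0,z1,y3,y2]),(z2,[z0,z1,z0,z1]),(z1,[z0,z0,z0,y1]),(z2,[z0,y1,y1,z2,z2])],.ref k162 k5 [(z2,[y2,z1,z1,y2]),
    (z2,[z0,y1,y1,z2,z2]),(z1,[z0,z0,z0,y1]),(z2,[z0,z1,z0,z1])],.ref (nat_lit 257) k4 [(z2,[z2,y1,y1]),(z2,[z4,y2,y1,
    y1]),(z2,[y4,z3,z2,z1]),(z1,[z4,y2,y2,y1])],.ref (nat_lit 257) k4 [(z2,[y2,z1,z0,z1]),(z2,[y4,z2,z1,z1]),(z2,[z4,
    y1,z0,y1]),(z1,[y4,z2,z0,z1])],.ref k5 k8 [(z4,[z10,y6,y1,y3,z2]),(z1,[y2,z0,y1,z0,z2]),(z2,[z2,z3,z1,z0,y2]),(z1,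
    [y1,z0,z1,z0,z1])],.ref (nat_lit 257) k4 [(z4,[y2,z1,z0,z1]),(z2,[y2,z1,z1]),(z1,[z1]),(z1,[y2,z1])],
    .ref (nat_lit 258) k5 [(z2,[z2,z0,z1,y3,y2]),(z2,[z0,y1,y1,z2,z2]),(z1,[z0,z0,z0,y1]),(z2,[z0,z1,z0,z1])],
    .ref k45 k10 [(z2,[y2,z1,z1,y2]),(z2,[z0,z1,z0,z1]),(z1,[z0,z0,z0,y1]),(z2,[z0,y1,y1,z2,z2])],.ref k5 k8 [(z2,
    [z10,y3,z2,z1,y4]),(z1,[y4,z0,y2,y1,z4]),(z2,[z4,z3,z2,z1,y4]),(z2,[y4,z0,z1,y1,z4])],.ref k5 k8 [(z4,[y10,y1,y6,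
    y3,z12]),(z1,[z2,y1]),(z1,[y1,z2]),(z2,[z2,y1,z3])],.ref (nat_lit 259) k5 [(z2,[y2,z0,z3,y3]),(z2,[z0,y1,y1,z2,
    z2]),(z1,[z0,z0,z0,y1]),(z2,[z0,z1,z0,z1])],.ref (nat_lit 260) k8 [(z1,[z5,z2,y3,z1,y4]),(z1,[y4,y2,z2,y1,z4]),
    (z2,[z4,z3,y2,z1,y4]),(z2,[y4,y2,z3,y1,z4])],.ref k162 k5 [(z2,[y1,z0,z1,y2]),(z2,[z0,y1,y1,z2,z2]),(z1,[z0,z0,z0,
    y1]),(z2,[z0,z1,z0,z1])],.ref k45 k10 [(z1,[y1,z0,z1,y1]),(z2,[z0,z1,z0,z1]),(z1,[z0,z0,z0,y1]),(z2,[z0,y1,y1,z2,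
    z2])],.ref (nat_lit 216) k5 [(z2,[y2,z0,z1,y5]),(z2,[z0,y1,y1,z2,z2]),(z1,[z0,z0,z0,y1]),(z2,[z0,z1,z0,z1])],
    .ref k5 k8 [(z2,[y10,y3,y3,z6,z6]),(z1,[z4,z0,z0,y3]),(z2,[y4,z3,z0,z3]),(z2,[z4,z0,z3,y3])],.ref k45 k10 [(z2,
    [y2,z0,z1,y1]),(z2,[z0,z1,z0,z1]),(z1,[z0,z0,z0,y1]),(z2,[z0,y1,y1,z2,z2])],.ref (nat_lit 260) k8 [(z2,[y10,y1,y1,
    z2,z2]),(z1,[z4,z0,z0,y1]),(z2,[y4,z1,z0,z1]),(z2,[z4,z0,z1,y1])],.ref k24 k10 [(z2,[y2,z0,z1,y3]),(z2,[z0,z1,z0,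
    z1]),(z1,[z0,z0,z0,y1]),(z2,[z0,y1,y1,z2,z2])],.ref (nat_lit 261) k10 [(z2,[y2,z0,z3,y3]),(z2,[z0,z1,z0,z1]),(z1,
    [z0,z0,z0,y1]),(z2,[z0,y1,y1,z2,z2])],.ref (nat_lit 262) k3 [(z2,[z4,z3,y2,z1,y4]),(z1,[y4,y2,z2,y1,z4]),(z1,[z5,
    z2,y3,z1,y4]),(z2,[y4,y2,z3,y1,z4])],.ref k45 k10 [(z2,[y1,z0,z1,y2]),(z2,[z0,z1,z0,z1]),(z1,[z0,z0,z0,y1]),(z2,
    [z0,y1,y1,z2,z2])],.ref (nat_lit 216) k5 [(z1,[z1,z1,z1,y2,y2]),(z2,[z0,y1,y1,z2,z2]),(z1,[z0,z0,z0,y1]),(z2,[z0,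
    z1,z0,z1])],.ref (nat_lit 263) k10 [(z2,[y2,z0,z1,y5]),(z2,[z0,z1,z0,z1]),(z1,[z0,z0,z0,y1]),(z2,[z0,y1,y1,z2,
    z2])]],
    .lp [(nat_lit 592),(nat_lit 654),(nat_lit 656),(nat_lit 630),(nat_lit 666),(nat_lit 640)] [k37,k37,k6,k6,k5,k5,k18,
    k18,k0,k0,k13,k13] k0 [[k0,k0,k0,k12,k0,k0,k0,k20,k0,k0,k26],[k0,k0,k0,k0,k0,k0,k0,k30,k0,k0,k22],[k0,k12,k0,k0,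
    k0,k56],[k0,k0,k0,k0,k0,k12],[k0,k0,k12,k56,k0,k0,k0,k0,k0,k0,k0,k42],[k0,k0,k0,k0,k0,k0,k0,k6,k0,k0,k0,k6],[k30,
    k20,k0,k0,k6],[k0,k0,k0,k0,k0,k0,k0,k0,k0,k32],[k0,k0,k0,k0,k0,k0,k32],[],[k0,k0,k0,k0,k6,k42],[k22,
    k26]] (nat_lit 1920) k5
    [[(k0,(nat_lit 566)),(k3,(nat_lit 601)),(k11,(nat_lit 616)),(k8,(nat_lit 629)),(k4,(nat_lit 630)),(k7,
    (nat_lit 653))],[(k1,(nat_lit 566)),(k6,(nat_lit 591)),(k2,(nat_lit 611)),(k5,(nat_lit 624)),(k10,(nat_lit 638)),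
    (k9,(nat_lit 659))],[(k1,(nat_lit 601)),(k6,(nat_lit 612)),(k2,(nat_lit 654)),(k5,(nat_lit 667)),(k10,
    (nat_lit 673)),(k9,(nat_lit 680))],[(k4,(nat_lit 599)),(k0,(nat_lit 611)),(k11,(nat_lit 647)),(k3,(nat_lit 654)),
    (k7,(nat_lit 654)),(k8,(nat_lit 660))],[(k0,(nat_lit 624)),(k4,(nat_lit 644)),(k11,(nat_lit 648)),(k8,
    (nat_lit 661)),(k3,(nat_lit 667)),(k7,(nat_lit 699))],[(k2,(nat_lit 599)),(k10,(nat_lit 606)),(k1,(nat_lit 630)),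
    (k6,(nat_lit 643)),(k5,(nat_lit 644)),(k9,(nat_lit 667))],[(k6,(nat_lit 624)),(k10,(nat_lit 629)),(k9,
    (nat_lit 648)),(k1,(nat_lit 653)),(k2,(nat_lit 654)),(k5,(nat_lit 699))],[(k0,(nat_lit 591)),(k3,(nat_lit 612)),
    (k7,(nat_lit 624)),(k4,(nat_lit 643)),(k8,(nat_lit 648)),(k11,(nat_lit 667))],[(k8,(nat_lit 634)),(k7,
    (nat_lit 648)),(k11,(nat_lit 653)),(k0,(nat_lit 659)),(k4,(nat_lit 667)),(k3,(nat_lit 680))],[(k1,(nat_lit 629)),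
    (k9,(nat_lit 634)),(k6,(nat_lit 648)),(k10,(nat_lit 653)),(k2,(nat_lit 660)),(k5,(nat_lit 661))],[(k1,
    (nat_lit 616)),(k10,(nat_lit 640)),(k2,(nat_lit 647)),(k5,(nat_lit 648)),(k9,(nat_lit 653)),(k6,(nat_lit 667))],
    [(k4,(nat_lit 606)),(k7,(nat_lit 629)),(k0,(nat_lit 638)),(k11,(nat_lit 640)),(k8,(nat_lit 653)),(k3,
    (nat_lit 673))]]
    [] k0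
    [[k3,k0,k0,k0,k0,k0],[k2,k1,k0,k0,k0,k0],[k2,k0,k1,k0,k0,k0],[k2,k0,k0,k1,k0,k0],[k2,k0,k0,k0,k1,k0],[k2,k0,k0,k0,
    k0,k1],[k1,k2,k0,k0,k0,k0],[k1,k1,k1,k0,k0,k0],[k1,k1,k0,k1,k0,k0],[k1,k1,k0,k0,k0,k1],[k1,k0,k2,k0,k0,k0],[k1,k0,
    k1,k0,k0,k1],[k1,k0,k0,k2,k0,k0],[k1,k0,k0,k1,k1,k0],[k1,k0,k0,k1,k0,k1],[k1,k0,k0,k0,k0,k2],[k0,k1,k2,k0,k0,k0],
    [k0,k1,k1,k1,k0,k0],[k0,k1,k0,k2,k0,k0],[k0,k1,k0,k1,k0,k1],[k0,k0,k2,k0,k0,k1],[k0,k0,k1,k0,k0,k2],[k0,k0,k0,k3,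
    k0,k0],[k0,k0,k0,k0,k3,k0]]
    [.ref k6 k0 [(z1,[z1]),(z1,[z0,z0,z1]),(z1,[y3,z9,z0,z1]),(z1,[z2,y6,z0,z0,z1]),(z1,[y1,z0,y1,y1,y1,z3])],
    .ref k6 k0 [(z2,[z3,z0,y1]),(z1,[z0,z0,z1]),(z2,[y9,z18,z3,z2]),(z1,[z3,y6,y1,z0,z1]),(z2,[y3,z0,y1,y2,y2,z6])],
    .ref k6 k0 [(z1,[y3,z9,z0,z1]),(z1,[z0,z0,z1]),(z1,[z9,y18,z0,y2]),(z1,[y6,z12,z0,z2,z1]),(z1,[z3,y9,y1,y2,y1,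
    z3])],.ref k6 k0 [(z4,[z3,z6,z0,z0,y1]),(z1,[z0,z0,z1]),(z4,[y9,z18,z0,z4,z3]),(z2,[z3,y6,z0,z0,z1]),(z4,[y3,y6,
    y4,y4,y3,z12])],.ref k6 k0 [(z1,[z3,z0,z1,z1,z1,y3]),(z1,[z0,z0,z1]),(z1,[y9,z9,y3,y2,y3,z9]),(z1,[z6,y6,z2,z2,z3,
    y6]),(z1,[y3,z0,y2,y2,y2,z6])],.ref k6 k0 [(z1,[z1,z1]),(z1,[z0,z0,z1]),(z1,[y3,z6,z0,z1]),(z1,[z2,y4,z0,z0,z1]),
    (z1,[y1,y1,y1,y1,y1,z3])],.ref k6 k0 [(z1,[z3,z0,y2]),(z1,[z0,z0,z1]),(z1,[y9,z9,z6,z1]),(z1,[z6,y6,y4,z0,z1]),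
    (z1,[y3,z0,z1,y1,y1,z3])],.ref k6 k0 [(z2,[y3,z9,z1,z1]),(z1,[z0,z0,z1]),(z2,[z9,y9,y3,y1]),(z1,[y3,z3,z1,z1,z1]),
    (z2,[z3,y9,y3,y3,y2,z6])],.ref k6 k0 [(z3,[z3,z6,y1,z0,y1]),(z1,[z0,z0,z1]),(z1,[y3,z3,z1,z1,z1]),(z3,[z6,y6,y2,
    z0,z1]),(z3,[y3,y6,y2,y3,y2,z9])],.ref k6 k0 [(z2,[z3,z3,y1]),(z1,[z0,z0,z1]),(z2,[y9,z9,z3,z2]),(z1,[z3,y3,y1,z0,
    z1]),(z2,[y3,y3,y1,y2,y2,z6])],.ref k6 k0 [(z5,[y3,z18,z0,z2]),(z1,[z0,z0,z1]),(z5,[z9,y9,z0,y1]),(z5,[y6,z6,z0,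
    z4,z5]),(z5,[z3,y18,y5,y7,y5,z15])],.ref k6 k0 [(z1,[y3,z6,z0,z1]),(z1,[z0,z0,z1]),(z1,[z9,y9,z0,y2]),(z1,[y6,z6,
    z0,z2,z1]),(z1,[z3,y6,y1,y2,y1,z3])],.ref k6 k0 [(z5,[z3,z12,z0,z0,y2]),(z1,[z0,z0,z1]),(z5,[y9,z9,z0,z5,z6]),(z5,
    [z6,y6,z0,z0,z1]),(z5,[y3,y12,y5,y5,y3,z15])],.ref k6 k0 [(z2,[z3,z6,z1,z1,z0,y3]),(z1,[z0,z0,z1]),(z2,[y9,z0,y3,
    y1,z0,z9]),(z1,[z3,z0,z1,z1,z1,y3]),(z2,[y3,y6,y3,y3,y2,z9])],.ref k6 k0 [(z4,[z3,z9,z0,z0,y1]),(z1,[z0,z0,z1]),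
    (z4,[y9,z9,z0,z4,z3]),(z2,[z3,y3,z0,z0,z1]),(z4,[y3,y9,y4,y4,y3,z12])],.ref k6 k0 [(z1,[z1,z2]),(z1,[z0,z0,z1]),
    (z1,[y3,z3,z0,z1]),(z1,[z2,y2,z0,z0,z1]),(z1,[y1,y2,y1,y1,y1,z3])],.ref k6 k0 [(z6,[y3,z18,z1,z2]),(z1,[z0,z0,
    z1]),(z2,[z3,z0,y1]),(z3,[y3,z0,z1,z2,z3]),(z6,[z3,y18,y7,y8,y6,z18])],.ref k6 k0 [(z1,[y3,z3,z1,z1,z1]),(z1,[z0,
    z0,z1]),(z1,[z9,z0,y3,y2,y3]),(z1,[y6,z0,z2,z2,z3]),(z1,[z3,y3,y2,y2,y2,z3])],.ref k6 k0 [(z4,[z3,z12,y1,z0,y2]),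
    (z1,[z0,z0,z1]),(z4,[y9,z0,z3,z4,z6]),(z2,[z3,z0,y1]),(z4,[y3,y12,y3,y4,y2,z12])],.ref k6 k0 [(z3,[z3,z9,y1,z0,
    y1]),(z1,[z0,z0,z1]),(z1,[y3,z0,z1,z1,z1]),(z3,[z6,z0,y2,z0,z1]),(z3,[y3,y9,y2,y3,y2,z9])],.ref k6 k0 [(z5,[y3,
    z15,z0,z2]),(z1,[z0,z0,z1]),(z5,[z9,z0,z0,y1]),(z5,[y6,z0,z0,z4,z5]),(z5,[z3,y15,y5,y7,y5,z15])],.ref k6 k0 [(z1,
    [y3,z3,z0,z1]),(z1,[z0,z0,z1]),(z1,[z9,z0,z0,y2]),(z1,[y6,z0,z0,z2,z1]),(z1,[z3,y3,y1,y2,y1,z3])],.ref k6 k0 [(z2,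
    [z1,z6,z0,z0,y1]),(z1,[z0,z0,z1]),(z2,[y3,z0,z0,z2,z3]),(z1,[z1]),(z2,[y1,y6,y2,y2,y1,z6])],.ref k6 k0 [(z1,[y1,
    z0,y1,y1,y1,z3]),(z1,[z0,z0,z1]),(z1,[z3,z9,z3,z4,z3,y9]),(z1,[y2,y6,y2,y2,y1,z6]),(z1,[z1])]],
    .lp [(nat_lit 300),(nat_lit 308),(nat_lit 352),(nat_lit 266),(nat_lit 370),(nat_lit 320)] [k35,k35,k31,k31,k9,k9,k55,
    k49,k0,k0,k25,k25] k0 [[k0,k0,k18,k0,k0,k0,k0,k36],[k0,k0,k26,k0,k0,k0,k0,k0,k0,k0,k0,k64],[k0,k0,k0,k0,k50,k0,k0,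
    k0,k0,k44],[k26,k18],[k0,k0,k0,k0,k0,k0,k0,k60,k0,k0,k38],[k0,k0,k0,k50,k0,k0,k0,k0,k0,k0,k6],[k0,k36,k0,k0,k0,
    k60],[k0,k0,k0,k0,k0,k0,k0,k0,k30,k70],[k0,k0,k0,k44,k0,k0,k70],[k0,k0,k0,k0,k0,k0,k30],[k64],[k0,k0,k0,k0,k6,
    k38]] (nat_lit 960) k5
    [[(k7,(nat_lit 280)),(k4,(nat_lit 288)),(k3,(nat_lit 304)),(k11,(nat_lit 310)),(k8,(nat_lit 335)),(k0,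
    (nat_lit 364))],[(k6,(nat_lit 244)),(k5,(nat_lit 308)),(k10,(nat_lit 310)),(k2,(nat_lit 330)),(k9,(nat_lit 335)),
    (k1,(nat_lit 364))],[(k10,(nat_lit 250)),(k6,(nat_lit 284)),(k1,(nat_lit 304)),(k5,(nat_lit 304)),(k2,
    (nat_lit 326)),(k9,(nat_lit 375))],[(k7,(nat_lit 240)),(k8,(nat_lit 295)),(k11,(nat_lit 314)),(k3,(nat_lit 326)),
    (k0,(nat_lit 330)),(k4,(nat_lit 330))],[(k3,(nat_lit 304)),(k0,(nat_lit 308)),(k7,(nat_lit 312)),(k8,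
    (nat_lit 361)),(k11,(nat_lit 380)),(k4,(nat_lit 402))],[(k6,(nat_lit 246)),(k1,(nat_lit 288)),(k2,(nat_lit 330)),
    (k10,(nat_lit 342)),(k9,(nat_lit 361)),(k5,(nat_lit 402))],[(k2,(nat_lit 240)),(k6,(nat_lit 266)),(k1,
    (nat_lit 280)),(k5,(nat_lit 312)),(k10,(nat_lit 334)),(k9,(nat_lit 381))],[(k0,(nat_lit 244)),(k4,(nat_lit 246)),
    (k7,(nat_lit 266)),(k3,(nat_lit 284)),(k8,(nat_lit 345)),(k11,(nat_lit 360))],[(k8,(nat_lit 300)),(k11,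
    (nat_lit 315)),(k0,(nat_lit 335)),(k4,(nat_lit 361)),(k3,(nat_lit 375)),(k7,(nat_lit 381))],[(k2,(nat_lit 295)),
    (k9,(nat_lit 300)),(k1,(nat_lit 335)),(k6,(nat_lit 345)),(k10,(nat_lit 345)),(k5,(nat_lit 361))],[(k1,
    (nat_lit 310)),(k2,(nat_lit 314)),(k9,(nat_lit 315)),(k10,(nat_lit 320)),(k6,(nat_lit 360)),(k5,(nat_lit 380))],
    [(k3,(nat_lit 250)),(k0,(nat_lit 310)),(k11,(nat_lit 320)),(k7,(nat_lit 334)),(k4,(nat_lit 342)),(k8,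
    (nat_lit 345))]]
    [] k0
    [[k2,k0,k0,k1,k0,k0],[k1,k1,k1,k0,k0,k0],[k1,k1,k0,k1,k0,k0],[k1,k1,k0,k0,k1,k0],[k1,k1,k0,k0,k0,k1],[k1,k0,k1,k1,
    k0,k0],[k1,k0,k0,k2,k0,k0],[k1,k0,k0,k1,k0,k1],[k1,k0,k0,k0,k0,k2],[k0,k2,k0,k1,k0,k0],[k0,k2,k0,k0,k0,k1],[k0,k1,
    k1,k1,k0,k0],[k0,k1,k0,k2,k0,k0],[k0,k1,k0,k1,k0,k1],[k0,k1,k0,k0,k1,k1],[k0,k1,k0,k0,k0,k2],[k0,k0,k1,k2,k0,k0],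
    [k0,k0,k0,k3,k0,k0],[k0,k0,k0,k0,k3,k0]]
    [.ref k6 k0 [(z1,[z0,z1]),(z1,[z0,z0,z1]),(z2,[y3,z2,z0,z2,z1]),(z1,[z3,y2]),(z1,[y3,z1,y1,y1,z0,z3])],
    .ref k6 k0 [(z1,[z0,z1]),(z1,[z0,z0,z1]),(z1,[z3,y1,y1]),(z1,[y6,z2,z2,z2,z1]),(z1,[z6,y3,y3,y3,y1,z3])],
    .ref k6 k0 [(z1,[z0,z1]),(z1,[z0,z0,z1]),(z2,[y3,z1,z1,z2,z1]),(z1,[z3,y1,y1]),(z1,[y3,z0,z0,y1,z0,z3])],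
    .ref k6 k0 [(z1,[z0,z1]),(z1,[z0,z0,z1]),(z2,[z3,z0,z0,z3,z1,y3]),(z1,[y3,z0,z0,y1,z0,z3]),(z1,[z3,y1,y1])],
    .ref k6 k0 [(z1,[z0,z1]),(z1,[z0,z0,z1]),(z1,[y3,z1,z1,z1]),(z1,[z6,y2,y2,z0,z1]),(z1,[y6,z1,z1,y1,y1,z3])],
    .ref k6 k0 [(z1,[z0,z1]),(z1,[z0,z0,z1]),(z1,[y3,z1,z0,z2,z1]),(z1,[z6,y2,z0,y2,y1]),(z1,[y6,z1,y1,z1,z1,z3])],
    .ref k6 k0 [(z1,[z0,z1]),(z1,[z0,z0,z1]),(z4,[y3,z1,z0,z4,z2]),(z2,[z3,y1]),(z2,[y3,y1,y2,y2,z0,z6])],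
    .ref k6 k0 [(z1,[z0,z1]),(z1,[z0,z0,z1]),(z3,[y3,z1,z0,z3,z1]),(z3,[z6,y2,z0,z0,z1]),(z3,[y6,y1,y3,y3,y1,z9])],
    .ref k6 k0 [(z1,[z0,z1]),(z1,[z0,z0,z1]),(z2,[y3,z1,z0,z2]),(z1,[z3,y1,z0,z0,z1]),(z1,[y3,z0,y1,y1,y1,z3])],
    .ref k6 k0 [(z1,[z0,z1]),(z1,[z0,z0,z1]),(z2,[y3,z0,z2,z2,z1]),(z1,[z3,z0,y2]),(z1,[y3,y1,z1,y1,z0,z3])],
    .ref k6 k0 [(z1,[z0,z1]),(z1,[z0,z0,z1]),(z1,[y3,z0,z2,z1]),(z1,[z6,z0,y4,z0,z1]),(z1,[y6,y1,z3,y1,y1,z3])],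
    .ref k6 k0 [(z1,[z0,z1]),(z1,[z0,z0,z1]),(z1,[y3,z0,z1,z2,z1]),(z1,[z6,z0,y2,y2,y1]),(z1,[y6,y1,z1,z1,z1,z3])],
    .ref k6 k0 [(z1,[z0,z1]),(z1,[z0,z0,z1]),(z4,[y3,z0,z1,z4,z2]),(z2,[z3,z0,y1]),(z2,[y3,y2,y1,y2,z0,z6])],
    .ref k6 k0 [(z1,[z0,z1]),(z1,[z0,z0,z1]),(z3,[y3,z0,z1,z3,z1]),(z3,[z6,z0,y2,z0,z1]),(z3,[y6,y3,y1,y3,y1,z9])],
    .ref k6 k0 [(z1,[z0,z1]),(z1,[z0,z0,z1]),(z1,[z3,z1,z0,z2,z1,y3]),(z1,[y6,y2,z0,y2,y1,z6]),(z1,[z6,z1,y1,z1,z1,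
    y3])],.ref k6 k0 [(z1,[z0,z1]),(z1,[z0,z0,z1]),(z2,[y3,z0,z1,z2]),(z1,[z3,z0,y1,z0,z1]),(z1,[y3,y1,z0,y1,y1,z3])],
    .ref k6 k0 [(z1,[z0,z1]),(z1,[z0,z0,z1]),(z3,[y3,z0,z0,z4,z2]),(z3,[z6,z0,z0,y2,y1]),(z3,[y6,y3,y3,y1,z1,z9])],
    .ref k6 k0 [(z1,[z0,z1]),(z1,[z0,z0,z1]),(z2,[y1,z0,z0,z2,z1]),(z1,[z1]),(z1,[y1,y1,y1,y1,z0,z3])],
    .ref k6 k0 [(z1,[z0,z1]),(z1,[z0,z0,z1]),(z2,[z1,z1,z1,z3,z1,y3]),(z1,[y1,y1,y1,y1,z0,z3]),(z1,[z1])]],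
    .leafM k1 [k0,k1,k2,k3,k4,k5] [(z3,[z0,z1,z0,z1]),(z3,[z0,y1,z0,y1,z3])] [],
    .lp [k150,k148,k172,k160,k156,k172] [k11,k11,k12,k12,k0,k0,k6,k6,k8,k8,k0,k0] k0 [[k0,k0,k0,k0,k0,k0,k16,k8,k0,k0,k0,
    k22],[k0,k0,k12],[k0,k0,k0,k0,k0,k4],[k12,k0,k0,k0,k0,k12],[k0,k0,k12,k4,k0,k0,k8],[k0,k0,k0,k0,k0,k0,k0,k0,k0,k0,
    k0,k8],[k0,k8,k0,k0,k0,k0,k0,k0,k12,k4],[k0,k16,k0,k0,k0,k8],[k0,k0,k0,k0,k0,k0,k0,k4,k0,k0,k12],[k0,k0,k0,k0,k0,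
    k0,k0,k12,k0,k0,k4],[k0,k22,k0,k0,k8],[k0,k0,k0,k0,k0,k0,k0,k0,k4,k12]] (nat_lit 480) k5
    [[(k8,k141),(k0,k150),(k7,k155),(k11,k157),(k4,k169),(k3,k171)],[(k9,k137),(k10,k139),(k6,k147),(k1,k150),(k2,
    k161),(k5,k161)],[(k2,k148),(k5,k148),(k9,k160),(k10,k160),(k6,k170),(k1,k171)],[(k3,k148),(k8,k152),(k4,k156),
    (k11,k160),(k0,k161),(k7,k166)],[(k3,k148),(k4,k160),(k0,k161),(k8,k164),(k7,k170),(k11,k172)],[(k2,k156),(k9,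
    k156),(k5,k160),(k6,k166),(k1,k169),(k10,k172)],[(k1,k155),(k9,k158),(k10,k158),(k2,k166),(k6,k168),(k5,k170)],
    [(k0,k147),(k8,k154),(k11,k154),(k4,k166),(k7,k168),(k3,k170)],[(k0,k137),(k4,k156),(k7,k158),(k3,k160),(k8,k168),
    (k11,k168)],[(k1,k141),(k2,k152),(k6,k154),(k5,k164),(k9,k168),(k10,k168)],[(k6,k154),(k1,k157),(k2,k160),(k9,
    k168),(k5,k172),(k10,k184)],[(k0,k139),(k7,k158),(k3,k160),(k8,k168),(k4,k172),(k11,k184)]]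
    [] k0
    [[k3,k0,k0,k0,k0,k0],[k2,k0,k0,k1,k0,k0],[k2,k0,k0,k0,k1,k0],[k2,k0,k0,k0,k0,k1],[k1,k1,k0,k0,k1,k0],[k1,k1,k0,k0,
    k0,k1],[k1,k1,k1,k0,k0,k0],[k1,k0,k1,k0,k1,k0],[k1,k0,k0,k2,k0,k0],[k1,k0,k0,k1,k1,k0],[k1,k0,k0,k1,k0,k1],[k1,k0,
    k0,k0,k2,k0],[k1,k0,k0,k0,k1,k1],[k0,k3,k0,k0,k0,k0],[k0,k2,k1,k0,k0,k0],[k0,k2,k0,k0,k1,k0],[k0,k2,k0,k0,k0,k1],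
    [k0,k1,k2,k0,k0,k0],[k0,k1,k1,k0,k1,k0]]
    [.ref k6 k0 [(z1,[z1]),(z3,[y2,z1,z3]),(z3,[y2,z1,z0,z3]),(z6,[y2,z1,z0,z0,z9]),(z3,[z2,y1])],.ref k6 k0 [(z10,
    [z18,y1,z0,z0,y9]),(z5,[y6,z2,z5,z0,z3]),(z5,[y6,z2,z0,z5,z3]),(z5,[y3,z1,z0,z0,z9]),(z5,[z6,y2,z0,z0,y3])],
    .ref k6 k0 [(z8,[z9,z1]),(z4,[y3,z1,z4]),(z4,[y3,z1,z0,z4]),(z8,[y3,z1,z0,z0,z12]),(z4,[z3,y1])],.ref k6 k0 [(z4,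
    [z6,z1,z2,z2,z3,y6]),(z6,[y6,z1,z4,y2,y3,z6]),(z6,[y6,z1,y2,z4,y3,z6]),(z12,[y6,z1,y2,y2,z15,z6]),(z6,[z6,y1,z2,
    z2,z3,y6])],.ref k6 k0 [(z1,[z3,z0,y1]),(z3,[y6,z1,z5]),(z3,[y6,z1,z2,z3]),(z6,[y6,z1,z2,z0,z9]),(z3,[z6,y1,y2])],
    .ref k6 k0 [(z2,[z18,z1,z0,z6,z9,y18]),(z1,[y6,z0,z1,y2,y3,z6]),(z1,[y6,z0,z0,y1,y3,z6]),(z1,[y3,z0,z0,y1,z0,z3]),
    (z1,[z6,z0,z0,z2,z3,y6])],.ref k6 k0 [(z1,[y9,z2,z3,z3]),(z1,[z6,y1,y1,y2]),(z1,[z6,y1,y2,y1]),(z2,[z6,y1,y2,y2,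
    z3]),(z1,[y6,z1,z2,z2])],.ref k6 k0 [(z1,[z3,z0,z0,y1]),(z3,[y6,z1,z3,z2]),(z3,[y6,z1,z0,z5]),(z6,[y6,z1,z0,z2,
    z9]),(z3,[z6,y1,z0,y2])],.ref k6 k0 [(z1,[z9,y1,z0,z0,y9]),(z1,[y6,z1,z1,z0,z6]),(z1,[y6,z1,z0,z1,z6]),(z2,[y6,z1,
    z0,z0,z9]),(z1,[z6,y1,z0,z0,y6])],.ref k6 k0 [(z8,[z18,z1,z0,z0,y9]),(z4,[y6,z1,z4,z0,z3]),(z4,[y6,z1,z0,z4,z3]),
    (z8,[y6,z1,z0,z0,z15]),(z4,[z6,y1,z0,z0,y3])],.ref k6 k0 [(z2,[z9,z1,z3,z3,z0,y9]),(z1,[y3,z0,z0,y1,z0,z3]),(z1,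
    [y3,z0,y1,z0,z0,z3]),(z2,[y3,z0,y1,y1,z3,z3]),(z1,[z3,z0,z1,z1,z0,y3])],.ref k6 k0 [(z7,[z9,z2]),(z7,[y6,z1,z7]),
    (z7,[y6,z1,z0,z7]),(z14,[y6,z1,z0,z0,z21]),(z7,[z6,y1])],.ref k6 k0 [(z10,[z18,z5,z6,z6,z9,y18]),(z5,[y6,z0,z3,y2,
    y3,z6]),(z5,[y6,z0,y2,z3,y3,z6]),(z5,[y3,z0,y1,y1,z6,z3]),(z5,[z6,z0,z2,z2,z3,y6])],.ref k6 k0 [(z2,[y3,z1,z3]),
    (z1,[z1]),(z1,[z1,z0,y1,z1]),(z2,[z1,z0,y1,z0,z3]),(z1,[y1,z0,z1])],.ref k6 k0 [(z2,[y3,z1,z2,z1]),(z3,[z3,z0,z1,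
    y1]),(z3,[z3,z0,y2,z2]),(z6,[z3,z0,y2,y1,z9]),(z3,[y3,z0,z2,z1])],.ref k6 k0 [(z2,[y9,z1,z6]),(z1,[z3,z0,y1]),(z1,
    [z3,z0,y2,z1]),(z2,[z3,z0,y2,z0,z3]),(z1,[y3,z0,z2])],.ref k6 k0 [(z8,[y18,z1,z6,y6,y9,z18]),(z4,[z6,z1,z2,z2,z3,
    y6]),(z4,[z6,z1,y2,z6,z3,y6]),(z8,[z6,z1,y2,z2,z15,y6]),(z4,[y6,y1,z2,y2,y3,z6])],.ref k6 k0 [(z2,[y3,z1,z1,z2]),
    (z3,[z3,z0,z2,y2]),(z3,[z3,z0,y1,z1]),(z6,[z3,z0,y1,y2,z9]),(z3,[y3,z0,z1,z2])],.ref k6 k0 [(z2,[y9,z1,z3,z3]),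
    (z1,[z3,z0,z0,y1]),(z1,[z3,z0,y1]),(z2,[z3,z0,y1,y1,z3]),(z1,[y3,z0,z1,z1])]],
    .lp [k148,k170,k160,k168,k170,k142] [k11,k11,k0,k0,k5,k5,k1,k1,k0,k0,k14,k14] k0 [[k0,k0,k0,k0,k0,k0,k2],[k0,k0,k18,
    k26],[k26,k0,k0,k0,k0,k12,k0,k0,k0,k30],[k18,k0,k0,k0,k0,k0,k0,k0,k0,k4],[k0,k0,k0,k12,k0,k0,k2],[k0,k0,k0,k0,k0,
    k0,k0,k0,k0,k0,k22],[k0,k0,k0,k0,k0,k0,k0,k0,k0,k28],[k0,k2,k0,k0,k0,k2],[k0,k0,k4,k30,k0,k0,k0,k28],[k0,k0,k0,k0,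
    k0,k0,k0,k0,k0,k0,k14,k16],[k0,k0,k0,k0,k0,k0,k0,k0,k16],[k0,k0,k0,k0,k22,k0,k0,k0,k14]] (nat_lit 480) k5
    [[(k11,k131),(k7,k136),(k0,k148),(k4,k154),(k3,k159),(k8,k175)],[(k10,k145),(k1,k148),(k9,k157),(k6,k158),(k2,
    k177),(k5,k180)],[(k2,k144),(k5,k147),(k10,k156),(k1,k159),(k9,k170),(k6,k171)],[(k8,k140),(k3,k144),(k4,k153),
    (k11,k160),(k7,k169),(k0,k177)],[(k3,k147),(k4,k160),(k8,k161),(k7,k176),(k0,k180),(k11,k181)],[(k2,k153),(k1,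
    k154),(k5,k160),(k9,k163),(k6,k164),(k10,k173)],[(k1,k136),(k10,k155),(k2,k169),(k9,k169),(k6,k170),(k5,k176)],
    [(k8,k141),(k11,k155),(k0,k158),(k4,k164),(k7,k170),(k3,k171)],[(k0,k157),(k4,k163),(k7,k169),(k3,k170),(k8,k170),
    (k11,k184)],[(k2,k140),(k6,k141),(k5,k161),(k9,k170),(k10,k170),(k1,k175)],[(k10,k126),(k1,k131),(k6,k155),(k2,
    k160),(k5,k181),(k9,k184)],[(k11,k126),(k0,k145),(k7,k155),(k3,k156),(k8,k170),(k4,k173)]]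
    [] k0
    [[k3,k0,k0,k0,k0,k0],[k2,k0,k0,k1,k0,k0],[k2,k0,k0,k0,k0,k1],[k1,k1,k0,k0,k1,k0],[k1,k1,k0,k0,k0,k1],[k1,k1,k1,k0,
    k0,k0],[k1,k0,k1,k0,k1,k0],[k1,k0,k0,k2,k0,k0],[k1,k0,k0,k1,k1,k0],[k1,k0,k0,k1,k0,k1],[k1,k0,k0,k0,k1,k1],[k1,k0,
    k0,k0,k0,k2],[k0,k3,k0,k0,k0,k0],[k0,k2,k1,k0,k0,k0],[k0,k2,k0,k0,k1,k0],[k0,k2,k0,k0,k0,k1],[k0,k1,k2,k0,k0,k0],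
    [k0,k1,k1,k0,k1,k0],[k0,k1,k0,k0,k0,k2],[k0,k0,k0,k1,k0,k2],[k0,k0,k0,k0,k0,k3]]
    [.ref (nat_lit 265) k10 [(z1,[z0,z0,z1,y1]),(z1,[z1]),(z1,[y2,z3,z0,z9]),(z1,[z2,y3,z0,y6])],
    .ref (nat_lit 257) k2 [(z1,[y1,z0,z0,y1,z1]),(z1,[y1,z0,y1,z0,z1]),(z1,[z1]),(z1,[y2,y1,y2,y2,z2])],
    .ref (nat_lit 266) k2 [(z1,[y1,z1,z3]),(z1,[y1,z1,z0,z3]),(z1,[z1,y1,y3,y3,z3]),(z1,[y2,y1])],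
    .ref (nat_lit 267) k1 [(z1,[z0,z0,y1,z1]),(z1,[y1,y1,y2,y3,z3]),(z1,[z2,y1,y2]),(z1,[y2,z1,z5])],.ref k35 k1 [(z1,
    [z0,z0,y1,z1]),(z1,[z1,y1,y3,y1,z1]),(z1,[y2,z1,z4]),(z1,[z2,y1,y3])],.ref k35 k1 [(z1,[z0,z0,y1,z1]),(z1,[y1,z0,
    y1,z0,z1]),(z1,[z2,y1,z0,y2]),(z1,[y2,z1,z1,z2])],.ref (nat_lit 267) k1 [(z1,[z0,z0,y1,z1]),(z1,[y1,y1,y3,y2,z3]),
    (z1,[z2,y1,z0,y2]),(z1,[y2,z1,z3,z2])],.ref k35 k1 [(z1,[z0,z0,y1,z1]),(z1,[z1,z0,z0,z1,y1]),(z1,[y2,y1,y2,y4,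
    z4]),(z1,[z2,z1,z3,z4,y4])],.ref k9 k11 [(z1,[y3,y2,y3,y3,z3]),(z1,[z2,z1,z2,z2,y2]),(z1,[y1,y1,y2,y2,z2]),(z1,
    [z1,z1,z1,z2,y1])],.ref k35 k1 [(z1,[z0,z0,y1,z1]),(z2,[z1,y1,y3,y1,z1]),(z1,[y1,z0,z1,y1,z1]),(z1,[z1,z0,z0,z1,
    y1])],.ref (nat_lit 257) k2 [(z1,[y1,z0,z1]),(z1,[y1,z0,z0,z1]),(z1,[z1,z0,y1,y1,z1]),(z1,[y2,y1])],
    .ref k35 k1 [(z1,[z0,z0,y1,z1]),(z3,[z1,y2,y6,y3,z3]),(z3,[y2,z1,z6]),(z3,[z2,y1,y3])],.ref (nat_lit 266) k2 [(z1,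
    [z1]),(z1,[z1,z0,y3,z3]),(z1,[y1,z0,z0,y3,z3]),(z1,[z2,y3,y6])],.ref (nat_lit 266) k2 [(z1,[z1,z0,z1,y1]),(z1,[z1,
    z0,y2,z2]),(z1,[y1,z0,y1,y2,z3]),(z1,[z2,y3,y4,y2])],.ref k35 k1 [(z1,[z0,z0,y1,z1]),(z2,[y1,y1,y2,y2,z2]),(z1,
    [z1]),(z1,[y1,z0,z1])],.ref k9 k11 [(z1,[z3,y2,y6]),(z1,[y2,z1,z4]),(z1,[z1,y1,y3,y1,z1]),(z1,[y1,z1,z2,z1])],
    .ref (nat_lit 266) k2 [(z1,[z1,z0,z2,y2]),(z1,[z1,z0,y1,z1]),(z1,[y1,z0,y2,y1,z3]),(z1,[z2,y3,y2,y4])],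
    .ref k35 k1 [(z1,[z0,z0,y1,z1]),(z2,[y1,y1,y3,y1,z2]),(z1,[z1,z0,z1,y1]),(z1,[y1,z0,z0,z1])],.ref k15 k4 [(z1,[y1,
    z2,z5,z5,y4]),(z1,[y1,z2,z6,z4,y4]),(z1,[z1,y2,y6,y5,z5]),(z1,[z1,y1,y3,y2,z2])],.ref k141 k0 [(z1,[y3,y1,y3,y3,
    z3]),(z1,[z2,z1,z3,z2,y2]),(z1,[z2,z1,z2,z3,y2]),(z1,[z1])],.ref (nat_lit 268) k0 [(z1,[z2,z3]),(z1,[y1,z0,z3]),
    (z1,[y1,z0,z0,z3]),(z1,[z0,y1,y2,y2,z2])]],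
    .leafM k1 [k0,k1,k2,k3,k4,k5] [(z3,[y1,z0,y1,z3]),(z3,[z1,z0,z1])] []]

noncomputable def cT6_2_n6_1 : List TN :=
  [.leafM k6 [k2,k3,k4,k5,k0,k1] [(z1,[z1,z1])] [],
    .tor k2 false k2 [(z1,[z0,z0,z1]),(z1,[z1,z0,z1]),(z1,[y1,z0,y1,z1]),(z1,[z0,z0,y1,z1])],
    .lp [k148,k152,k166,k160,k166,k166] [k9,k9,k7,k7,k0,k0,k3,k3,k0,k0,k0,k0] k0 [[k0,k0,k0,k22,k0,k0,k0,k0,k0,k0,k10],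
    [k0,k0,k0,k0,k0,k0,k34,k0,k0,k0,k28],[k0,k22,k0,k0,k0,k8],[k0,k0,k0,k0,k0,k18],[k0,k0,k18,k8,k0,k0,k0,k2],[],[k0,
    k0,k0,k0,k0,k2],[k34,k0,k0,k0,k0,k0,k0,k0,k18],[],[k0,k0,k0,k0,k0,k0,k18],[],[k28,k10]] (nat_lit 480) k5
    [[(k3,k122),(k0,k138),(k7,k154),(k4,k157),(k8,k157),(k11,k157)],[(k2,k128),(k1,k138),(k5,k157),(k9,k157),(k10,
    k185),(k6,k188)],[(k1,k122),(k9,k125),(k2,k152),(k6,k156),(k10,k169),(k5,k181)],[(k0,k128),(k4,k151),(k3,k152),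
    (k8,k159),(k11,k159),(k7,k174)],[(k4,k148),(k0,k157),(k8,k166),(k11,k166),(k7,k171),(k3,k181)],[(k5,k148),(k2,
    k151),(k1,k157),(k6,k161),(k9,k166),(k10,k166)],[(k1,k154),(k6,k160),(k10,k163),(k9,k165),(k5,k171),(k2,k174)],
    [(k3,k156),(k7,k160),(k4,k161),(k11,k163),(k8,k181),(k0,k188)],[(k3,k125),(k11,k148),(k0,k157),(k7,k165),(k4,
    k166),(k8,k166)],[(k1,k157),(k2,k159),(k5,k166),(k9,k166),(k10,k166),(k6,k181)],[(k9,k148),(k1,k157),(k2,k159),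
    (k6,k163),(k5,k166),(k10,k166)],[(k7,k163),(k4,k166),(k8,k166),(k11,k166),(k3,k169),(k0,k185)]]
    [] k0
    [[k3,k0,k0,k0,k0,k0],[k2,k1,k0,k0,k0,k0],[k2,k0,k1,k0,k0,k0],[k2,k0,k0,k0,k1,k0],[k1,k2,k0,k0,k0,k0],[k1,k1,k1,k0,
    k0,k0],[k1,k1,k0,k0,k1,k0],[k1,k1,k0,k0,k0,k1],[k1,k0,k2,k0,k0,k0],[k1,k1,k0,k1,k0,k0],[k1,k0,k1,k1,k0,k0],[k0,k3,
    k0,k0,k0,k0],[k0,k2,k0,k0,k1,k0],[k0,k1,k1,k1,k0,k0],[k0,k1,k0,k1,k0,k1],[k0,k1,k1,k0,k1,k0],[k0,k1,k0,k0,k2,k0],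
    [k0,k1,k0,k0,k1,k1],[k0,k0,k3,k0,k0,k0]]
    [.ref k6 k0 [(z1,[z1]),(z2,[z5,y15,z6]),(z4,[y5,z15,z0,z12]),(z1,[y2,z6,z0,z0,z3]),(z2,[y1,y3,y6,y6,y6,z6])],
    .ref k6 k0 [(z3,[z2,z5,y2]),(z3,[z5,y10,z4]),(z6,[y5,z10,z5,z18]),(z3,[y4,z8,z4,z0,z9]),(z3,[y1,y7,y8,y9,y9,z9])],
    .ref k6 k0 [(z1,[z4,y5,z0,y4]),(z1,[z10,y20,z3,y10]),(z1,[y5,z10,z0,z8]),(z1,[y8,z16,z0,z8,z3]),(z1,[y2,z1,y3,y1,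
    y3,z3])],.ref k6 k0 [(z1,[z2,z1,z2,z2,z2,y2]),(z1,[z5,y5,z8,z5,z5,y5]),(z2,[y5,z5,y5,z1,y5,z5]),(z1,[y4,z4,y4,y4,
    y1,z4]),(z1,[y1,y2,y4,y4,y4,z4])],.ref k6 k0 [(z2,[z1,z5,y2]),(z4,[z5,y5,z2]),(z8,[y5,z5,z10,z24]),(z1,[y1,z1,z2,
    z0,z3]),(z4,[y1,y11,y10,y12,y12,z12])],.ref k6 k0 [(z3,[z4,z5,y4,y4]),(z3,[z10,y10,y1,y10]),(z3,[y5,z5,z5,z14]),
    (z3,[y8,z8,z8,z8,z9]),(z3,[y2,y7,y7,y7,y9,z9])],.ref k6 k0 [(z1,[z1,z3,z0,z1,z1,y1]),(z2,[z5,z0,z6,z5,z5,y5]),(z4,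
    [y5,z0,z0,z7,y5,z5]),(z1,[y2,z0,z0,y2,z1,z2]),(z2,[y1,y6,y6,y7,y7,z7])],.ref k6 k0 [(z5,[z4,z11,y4]),(z1,[z2,y2,
    z1]),(z1,[y1,z1,z1,z3]),(z5,[y8,z8,z8,z0,z15]),(z5,[y2,y13,y13,y15,y15,z15])],.ref k6 k0 [(z1,[y2,z5,z0,z4]),(z1,
    [y5,z5,z3,z10]),(z2,[z5,y5,z0,y4]),(z1,[z4,y4,z0,y8,z3]),(z1,[z1,y4,y3,y5,y3,z3])],.ref k6 k0 [(z1,[z2,z1,y2,z0,
    y2]),(z1,[z5,y5,y2,z0,y5]),(z2,[y5,z5,z5,z6,z5]),(z1,[y4,z4,z4,z0,z7]),(z1,[y1,y2,y2,y3,y2,z3])],.ref k6 k0 [(z3,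
    [y4,z13,z0,z4,z4]),(z3,[y10,z10,z9,z10,z10]),(z3,[z5,y5,z0,z4,y5]),(z3,[z8,y8,z0,y8,z1]),(z3,[z2,y11,y9,y11,y11,
    z9])],.ref k6 k0 [(z5,[z2,z15,y6]),(z1,[z1]),(z2,[y1,z0,z3,z6]),(z5,[y4,z0,z12,z0,z15]),(z5,[y1,y15,y12,y15,y15,
    z15])],.ref k6 k0 [(z3,[z2,z11,y2,z2,z2,y2]),(z3,[z5,z5,z4,z5,z5,y5]),(z6,[y5,y5,z5,z13,y5,z5]),(z3,[y4,y4,z4,y4,
    z5,z4]),(z3,[y1,y10,y8,y10,y10,z10])],.ref k6 k0 [(z1,[y4,z3,z4,z4,z4]),(z1,[y10,z0,z13,z10,z10]),(z1,[z5,z0,y5,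
    y2,y5]),(z1,[z8,z0,y8,y8,y5]),(z1,[z2,y3,y5,y5,y5,z3])],.ref k6 k0 [(z1,[z4,z3,y4,z0,y4]),(z1,[z10,z0,y7,z0,y10]),
    (z1,[y5,z0,z5,z3,z5]),(z1,[y8,z0,z8,z0,z11]),(z1,[y2,y3,y1,y3,y1,z3])],.ref k6 k0 [(z1,[z4,z7,z0,z0,z4,y4]),(z1,
    [z10,z10,z3,z0,z10,y10]),(z1,[y5,y5,z0,z3,y5,z5]),(z1,[y8,y8,z0,z0,y5,z8]),(z1,[y2,y5,y3,y3,y5,z5])],
    .ref k6 k0 [(z1,[z2,z7,z2,z4,z4,y4]),(z1,[z5,z10,z8,z10,z10,y10]),(z2,[y5,y10,y5,y4,y10,z10]),(z1,[y4,y8,y4,y8,y5,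
    z8]),(z1,[y1,y5,y4,y5,y5,z5])],.ref k6 k0 [(z3,[z4,z13,z0,z4,z4,y4]),(z3,[z10,z10,z9,z10,z10,y10]),(z3,[y5,y5,z0,
    z4,y5,z5]),(z3,[y8,y8,z0,y8,z1,z8]),(z3,[y2,y11,y9,y11,y11,z11])],.ref k6 k0 [(z5,[y4,z15,z0,z12]),(z1,[y2,z0,z3,
    z6]),(z1,[z1]),(z5,[z8,z0,z0,y24,z15]),(z5,[z2,y15,y15,y21,y15,z15])]],
    .lp [k72,k82,k80,k76,k82,k86] [k7,k7,k2,k2,k3,k3,k5,k5,k2,k2,k0,k0] k0 [[k0,k0,k0,k0,k0,k0,k0,k4],[k0,k0,k16,k0,k0,k0,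
    k0,k0,k0,k0,k2],[k0,k0,k0,k0,k0,k14,k0,k0,k6,k6],[k16],[k0,k0,k0,k14,k0,k0,k0,k6],[k0,k0,k0,k0,k0,k0,k0,k0,k0,k0,
    k14],[k0,k4,k0,k0,k0,k6],[k0,k0,k0,k0,k0,k0,k0,k0,k0,k2],[k0,k0,k0,k6,k0,k0,k2,k0,k0,k0,k0,k8],[k0,k0,k0,k6,k0,k0,
    k0,k0,k0,k0,k0,k6],[k0,k0,k0,k0,k0,k0,k0,k0,k6,k8],[k2,k0,k0,k0,k14]] (nat_lit 240) k5
    [[(k7,k60),(k0,k72),(k3,k75),(k4,k76),(k8,k83),(k11,k87)],[(k6,k70),(k1,k72),(k5,k76),(k9,k77),(k10,k81),(k2,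
    k93)],[(k5,k65),(k1,k75),(k6,k79),(k2,k82),(k10,k84),(k9,k86)],[(k4,k67),(k8,k76),(k11,k78),(k7,k79),(k3,k82),(k0,
    k93)],[(k3,k65),(k0,k76),(k4,k80),(k8,k87),(k11,k89),(k7,k92)],[(k2,k67),(k6,k72),(k1,k76),(k5,k80),(k9,k81),(k10,
    k97)],[(k1,k60),(k6,k76),(k2,k79),(k10,k81),(k9,k85),(k5,k92)],[(k0,k70),(k4,k72),(k7,k76),(k3,k79),(k8,k79),(k11,
    k83)],[(k0,k77),(k8,k80),(k4,k81),(k11,k84),(k7,k85),(k3,k86)],[(k2,k76),(k10,k76),(k6,k79),(k9,k80),(k1,k83),(k5,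
    k87)],[(k2,k78),(k10,k80),(k6,k83),(k9,k84),(k1,k87),(k5,k89)],[(k8,k76),(k11,k80),(k0,k81),(k7,k81),(k3,k84),(k4,
    k97)]]
    [] k0
    [[k3,k0,k0,k0,k0,k0],[k2,k0,k1,k0,k0,k0],[k2,k0,k0,k1,k0,k0],[k2,k0,k0,k0,k1,k0],[k1,k1,k1,k0,k0,k0],[k1,k1,k0,k1,
    k0,k0],[k1,k1,k0,k0,k1,k0],[k1,k1,k0,k0,k0,k1],[k1,k0,k2,k0,k0,k0],[k1,k0,k1,k1,k0,k0],[k1,k0,k0,k2,k0,k0],[k1,k0,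
    k0,k1,k1,k0],[k1,k0,k0,k1,k0,k1],[k0,k2,k1,k0,k0,k0],[k0,k1,k2,k0,k0,k0],[k0,k1,k1,k1,k0,k0],[k0,k1,k1,k0,k1,k0],
    [k0,k1,k0,k2,k0,k0],[k0,k1,k0,k1,k0,k1],[k0,k0,k0,k3,k0,k0]]
    [.ref k6 k0 [(z1,[z1]),(z1,[z0,z0,z1]),(z4,[y5,z15,z0,z12]),(z2,[z1,y3,z0,z0,z2]),(z2,[y1,y3,y2,y6,y2,z6])],
    .ref k6 k0 [(z1,[z4,y5,z0,y4]),(z1,[z0,z0,z1]),(z1,[y5,z10,z0,z8]),(z1,[z2,y4,z0,y2,z1]),(z1,[y2,z1,y1,y1,y1,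
    z3])],.ref k6 k0 [(z5,[z6,z3,z0,z0,y2]),(z1,[z0,z0,z1]),(z2,[y3,z6,z0,z6,z1]),(z5,[z3,y6,z0,z0,z4]),(z5,[y3,y9,y5,
    y15,y4,z15])],.ref k6 k0 [(z3,[z6,z3,z2,z6,z2,y6]),(z1,[z0,z0,z1]),(z6,[y15,z15,y5,z3,y5,z15]),(z3,[z3,y3,z1,z3,
    z4,y3]),(z3,[y3,y6,y4,y12,y4,z12])],.ref k6 k0 [(z1,[y12,z15,z4,z12]),(z1,[z0,z0,z1]),(z1,[z15,y15,y5,y12]),(z1,
    [y6,z6,z2,z6,z1]),(z1,[z6,y9,y3,y9,y1,z3])],.ref k6 k0 [(z3,[z6,z3,y2,z0,y2]),(z1,[z0,z0,z1]),(z6,[y15,z15,z5,z18,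
    z5]),(z3,[z3,y3,y1,z0,z2]),(z3,[y3,y6,y2,y9,y2,z9])],.ref k6 k0 [(z1,[z6,z3,z0,z6,z2,y6]),(z1,[z0,z0,z1]),(z2,
    [y15,z0,z0,y9,y5,z15]),(z1,[z3,z0,z0,z3,z2,y3]),(z1,[y3,y3,y1,y6,y2,z6])],.ref k6 k0 [(z5,[z12,z3,y4]),(z1,[z0,z0,
    z1]),(z1,[y3,z3,z1,z3]),(z5,[z6,y6,y2,z0,z5]),(z5,[y6,y9,y3,y15,y5,z15])],.ref k6 k0 [(z1,[y2,z5,z0,z4]),(z1,[z0,
    z0,z1]),(z2,[z5,y5,z0,y4]),(z1,[y1,z1,z0,z2,z1]),(z1,[z1,y4,y1,y5,y1,z3])],.ref k6 k0 [(z1,[z12,y9,z0,y12,y4]),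
    (z1,[z0,z0,z1]),(z1,[y15,z15,z0,z18,z5]),(z1,[z6,y6,z0,y6,y1]),(z1,[y6,z3,y1,z3,z1,z3])],.ref k6 k0 [(z2,[z3,z3,
    z0,z0,y2]),(z1,[z0,z0,z1]),(z8,[y15,z15,z0,z24,z10]),(z4,[z3,y3,z0,z0,z2]),(z4,[y3,y9,y4,y12,y2,z12])],
    .ref k6 k0 [(z1,[z3,z3,z1,z3,z0,y3]),(z1,[z0,z0,z1]),(z4,[y15,z0,y5,y3,z0,z15]),(z2,[z3,z0,z1,z3,z2,y3]),(z2,[y3,
    y6,y3,y9,y2,z9])],.ref k6 k0 [(z7,[z12,z9,z0,z0,y4]),(z1,[z0,z0,z1]),(z7,[y15,z15,z0,z21,z5]),(z7,[z6,y6,z0,z0,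
    z5]),(z7,[y6,y15,y7,y21,y5,z21])],.ref k6 k0 [(z5,[y12,z15,z8,z12]),(z1,[z0,z0,z1]),(z1,[z3,z0,y2]),(z5,[y6,z0,z4,
    z6,z5]),(z5,[z6,y15,y9,y21,y5,z15])],.ref k6 k0 [(z5,[y6,z15,z2,z12]),(z1,[z0,z0,z1]),(z2,[z3,z0,y1]),(z5,[y3,z0,
    z1,z6,z5]),(z5,[z3,y15,y6,y21,y5,z15])],.ref k6 k0 [(z3,[y12,z9,z4,z12,z4]),(z1,[z0,z0,z1]),(z3,[z15,z0,y5,y6,
    y5]),(z3,[y6,z0,z2,z6,z5]),(z3,[z6,y9,y5,y15,y5,z9])],.ref k6 k0 [(z7,[y12,z9,z0,z0,y4,z12]),(z1,[z0,z0,z1]),(z7,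
    [z15,z15,z0,z21,z5,y15]),(z7,[y6,y6,z0,z0,z5,z6]),(z7,[z6,y15,y7,y21,y5,z15])],.ref k6 k0 [(z1,[z3,z3,y1,z0,y2]),
    (z1,[z0,z0,z1]),(z4,[y15,z0,z5,z12,z10]),(z2,[z3,z0,y1]),(z2,[y3,y6,y1,y6,z0,z6])],.ref k6 k0 [(z3,[z12,z9,y4,z0,
    y4]),(z1,[z0,z0,z1]),(z3,[y15,z0,z5,z9,z5]),(z3,[z6,z0,y2,z0,z1]),(z3,[y6,y9,y1,y9,y1,z9])],.ref k6 k0 [(z1,[z2,
    z3,z0,z0,y2]),(z1,[z0,z0,z1]),(z2,[y5,z0,z0,z6,z5]),(z1,[z1]),(z1,[y1,y3,y1,y3,z0,z3])]],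
    .leafM k6 [k2,k3,k4,k5,k0,k1] [(z1,[z1,z1])] [],
    .lp [(nat_lit 318),(nat_lit 296),(nat_lit 324),(nat_lit 326),(nat_lit 334),(nat_lit 320)] [k8,k8,k19,k19,k5,k5,k4,k4,
    k0,k0,k7,k7] k0 [[k0,k0,k0,k44,k0,k0,k0,k4,k0,k0,k10],[k0,k0,k0,k10,k0,k0,k0,k0,k0,k0,k14],[k10,k44],[k0,k0,k0,k0,
    k10,k0,k0,k0,k0,k6],[k0,k0,k0,k0,k0,k0,k12,k4,k0,k0,k0,k12],[k0,k0,k10,k0,k0,k0,k0,k0,k0,k0,k0,k6],[k0,k4,k0,k0,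
    k0,k4],[k0,k0,k0,k0,k0,k12,k0,k0,k0,k12],[k0,k0,k6,k0,k0,k0,k12],[],[k0,k0,k0,k0,k6,k12],[k14,
    k10]] (nat_lit 960) k5
    [[(k3,(nat_lit 293)),(k0,(nat_lit 308)),(k11,(nat_lit 319)),(k8,(nat_lit 326)),(k4,(nat_lit 327)),(k7,
    (nat_lit 334))],[(k2,(nat_lit 263)),(k1,(nat_lit 308)),(k6,(nat_lit 318)),(k9,(nat_lit 326)),(k5,(nat_lit 331)),
    (k10,(nat_lit 333))],[(k2,(nat_lit 286)),(k1,(nat_lit 293)),(k6,(nat_lit 311)),(k10,(nat_lit 318)),(k9,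
    (nat_lit 319)),(k5,(nat_lit 354))],[(k0,(nat_lit 263)),(k3,(nat_lit 286)),(k7,(nat_lit 311)),(k11,(nat_lit 314)),
    (k8,(nat_lit 315)),(k4,(nat_lit 320))],[(k7,(nat_lit 315)),(k11,(nat_lit 322)),(k8,(nat_lit 323)),(k4,
    (nat_lit 324)),(k0,(nat_lit 331)),(k3,(nat_lit 354))],[(k10,(nat_lit 310)),(k9,(nat_lit 317)),(k2,(nat_lit 320)),
    (k6,(nat_lit 321)),(k5,(nat_lit 324)),(k1,(nat_lit 327))],[(k2,(nat_lit 311)),(k5,(nat_lit 315)),(k10,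
    (nat_lit 317)),(k1,(nat_lit 334)),(k9,(nat_lit 334)),(k6,(nat_lit 338))],[(k3,(nat_lit 311)),(k0,(nat_lit 318)),
    (k4,(nat_lit 321)),(k8,(nat_lit 330)),(k11,(nat_lit 335)),(k7,(nat_lit 338))],[(k4,(nat_lit 317)),(k3,
    (nat_lit 319)),(k8,(nat_lit 322)),(k0,(nat_lit 326)),(k11,(nat_lit 327)),(k7,(nat_lit 334))],[(k2,(nat_lit 315)),
    (k9,(nat_lit 322)),(k5,(nat_lit 323)),(k1,(nat_lit 326)),(k10,(nat_lit 327)),(k6,(nat_lit 330))],[(k2,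
    (nat_lit 314)),(k1,(nat_lit 319)),(k10,(nat_lit 320)),(k5,(nat_lit 322)),(k9,(nat_lit 327)),(k6,(nat_lit 335))],
    [(k4,(nat_lit 310)),(k7,(nat_lit 317)),(k3,(nat_lit 318)),(k11,(nat_lit 320)),(k8,(nat_lit 327)),(k0,
    (nat_lit 333))]]
    [] k0
    [[k3,k0,k0,k0,k0,k0],[k2,k1,k0,k0,k0,k0],[k1,k2,k0,k0,k0,k0],[k1,k1,k1,k0,k0,k0],[k1,k1,k0,k1,k0,k0],[k1,k1,k0,k0,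
    k1,k0],[k1,k1,k0,k0,k0,k1],[k1,k0,k0,k1,k0,k1],[k0,k3,k0,k0,k0,k0],[k0,k2,k0,k1,k0,k0],[k0,k2,k0,k0,k1,k0],[k0,k2,
    k0,k0,k0,k1],[k0,k1,k1,k1,k0,k0],[k0,k1,k0,k1,k0,k1],[k0,k1,k0,k0,k2,k0],[k0,k1,k0,k0,k0,k2],[k0,k0,k2,k0,k0,k1],
    [k0,k0,k1,k0,k0,k2]]
    [.ref k5 k1 [(z5,[y4,z6,z0,z15]),(z5,[y1,y6,y15,y15,z15]),(z5,[z2,y3]),(z5,[y2,z3,z15])],
    .ref (nat_lit 273) k4 [(z1,[z0,z2,z4,z5,y4]),(z1,[z1,z4,z10,z10,y10]),(z1,[z0,y2,y5,y5,z5]),(z1,[y1,y3,y7,y8,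
    z8])],.ref (nat_lit 237) k0 [(z1,[z5,y2,y10]),(z1,[y2,z1,z5]),(z1,[y4,z2,z8,z1]),(z1,[y1,z0,z1,y1,z1])],
    .ref k65 k1 [(z1,[y4,z2,z0,z5]),(z1,[y1,z0,y1,z0,z1]),(z1,[z2,y1,z0,y2]),(z1,[y2,z1,z1,z2])],.ref k15 k4 [(z1,[z0,
    z2,z4,z5,y4]),(z1,[z1,z2,z5,z5,y5]),(z1,[z0,y2,y5,y5,z5]),(z1,[y1,y1,y2,y3,z3])],.ref k28 k4 [(z1,[z0,z2,z4,z5,
    y4]),(z1,[z1,z3,z7,z7,y7]),(z1,[z0,y2,y5,y5,z5]),(z1,[y1,y2,y4,y5,z5])],.ref k5 k1 [(z1,[y4,z2,z4,z3]),(z1,[y1,y1,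
    y2,y3,z3]),(z1,[z2,y1,y2]),(z1,[y2,z1,z5])],.ref k46 k4 [(z1,[z0,z2,z4,z5,y4]),(z1,[y1,y1,y2,y3,z3]),(z1,[z0,y2,
    y5,y5,z5]),(z1,[z1,z2,z5,z5,y5])],.ref (nat_lit 274) k4 [(z1,[z0,z2,z4,z5,y4]),(z1,[z1]),(z1,[z0,y2,y5,y5,z5]),
    (z1,[y1,z3,z9,z6,y6])],.ref (nat_lit 216) k3 [(z1,[y5,y2,y5,y5,z5]),(z1,[z2,z1,z3,z2,y2]),(z1,[y2,y1,y2,y2,z2]),
    (z1,[z1])],.ref k65 k1 [(z1,[y2,z0,z0,z1]),(z2,[y1,y1,y2,y2,z2]),(z1,[z1]),(z1,[y1,z0,z1])],.ref k46 k4 [(z1,[z0,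
    z2,z4,z5,y4]),(z1,[z1,y1,y3,y2,z2]),(z1,[z0,y2,y5,y5,z5]),(z1,[y1,z2,z6,z4,y4])],.ref (nat_lit 275) k4 [(z1,[z0,
    z2,z4,z5,y4]),(z1,[z1,y2,y4,y5,z4]),(z1,[z0,y2,y5,y5,z5]),(z1,[y1,z3,z7,z7,y6])],.ref k5 k1 [(z1,[z4,z2,z0,z7,
    y4]),(z1,[z1,y1,y3,y2,z2]),(z1,[y2,y1,z0,y2,z2]),(z1,[z2,z1,z3,z2,y2])],.ref k15 k4 [(z1,[z0,z2,z4,z5,y4]),(z1,
    [z1,z2,z4,z4,y4]),(z1,[z0,y2,y5,y5,z5]),(z1,[y1,y1,y1,y2,z2])],.ref k15 k4 [(z1,[z0,z2,z4,z5,y4]),(z1,[y1,z2,z6,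
    z4,y4]),(z1,[z0,y2,y5,y5,z5]),(z1,[z1,y1,y3,y2,z2])],.ref (nat_lit 273) k4 [(z1,[z0,z2,z4,z5,y4]),(z1,[y1,z5,z11,
    z12,y10]),(z1,[z0,y2,y5,y5,z5]),(z1,[z1,y4,y8,y10,z8])],.ref k15 k4 [(z1,[z0,z2,z4,z5,y4]),(z2,[y1,z4,z10,z9,y8]),
    (z1,[z0,y2,y5,y5,z5]),(z2,[z1,y2,y4,y5,z4])]],
    .lp [k74,k80,k72,k82,k90,k80] [k8,k8,k10,k0,k9,k9,k4,k4,k0,k0,k2,k8] k0 [[k0,k0,k8,k0,k0,k0,k12,k0,k0,k0,k0,k16],[k0,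
    k0,k0,k0,k0,k0,k4,k0,k0,k0,k0,k28],[k0,k0,k0,k0,k16,k0,k0,k0,k0,k8],[k0,k8],[k0,k0,k0,k0,k0,k0,k10,k2],[k0,k0,k0,
    k16,k0,k0,k0,k0,k0,k0,k8],[k0,k0,k0,k0,k0,k2,k0,k0,k2,k26],[k4,k12,k0,k0,k0,k10],[k0,k0,k0,k8,k0,k0,k0,k26],[k0,
    k0,k0,k0,k0,k0,k0,k2],[k28,k16],[k0,k0,k0,k0,k8]] (nat_lit 240) k5
    [[(k7,k70),(k4,k73),(k11,k74),(k8,k82),(k3,k98),(k0,k102)],[(k10,k64),(k5,k65),(k9,k70),(k2,k72),(k6,k82),(k1,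
    k102)],[(k10,k60),(k5,k81),(k9,k86),(k2,k88),(k1,k98),(k6,k98)],[(k7,k60),(k4,k71),(k0,k72),(k8,k72),(k11,k72),
    (k3,k88)],[(k0,k65),(k7,k77),(k3,k81),(k8,k81),(k11,k81),(k4,k88)],[(k2,k71),(k9,k71),(k1,k73),(k6,k75),(k10,k87),
    (k5,k88)],[(k2,k60),(k1,k70),(k5,k77),(k10,k84),(k9,k88),(k6,k92)],[(k8,k60),(k4,k75),(k11,k76),(k0,k82),(k7,k92),
    (k3,k98)],[(k0,k70),(k4,k71),(k3,k86),(k7,k88),(k8,k92),(k11,k108)],[(k6,k60),(k2,k72),(k5,k81),(k1,k82),(k10,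
    k88),(k9,k92)],[(k2,k72),(k1,k74),(k6,k76),(k10,k80),(k5,k81),(k9,k108)],[(k3,k60),(k0,k64),(k11,k80),(k7,k84),
    (k4,k87),(k8,k88)]]
    [] k0
    [[k1,k1,k1,k0,k0,k0],[k1,k1,k0,k0,k0,k1],[k1,k0,k2,k0,k0,k0],[k1,k0,k1,k1,k0,k0],[k1,k0,k1,k0,k1,k0],[k1,k0,k1,k0,
    k0,k1],[k1,k0,k0,k1,k1,k0],[k1,k0,k0,k1,k0,k1],[k1,k0,k0,k0,k1,k1],[k1,k0,k0,k0,k0,k2],[k0,k2,k0,k0,k0,k1],[k0,k1,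
    k1,k1,k0,k0],[k0,k1,k1,k0,k1,k0],[k0,k1,k0,k1,k1,k0],[k0,k1,k1,k0,k0,k1],[k0,k1,k0,k1,k0,k1],[k0,k1,k0,k0,k0,k2],
    [k0,k0,k1,k1,k1,k0]]
    [.ref (nat_lit 256) k6 [(z1,[y2,z0,y1,z2]),(z1,[z0,z0,z1]),(z1,[z2,y1])],.ref k1 k7 [(z2,[z2,y1,y1]),(z2,[y2,z3,
    z1]),(z2,[z2,y1,z1])],.ref (nat_lit 264) k0 [(z1,[z0,z1]),(z1,[z0,z0,z1]),(z1,[z2,y1])],
    .ref (nat_lit 269) k9 [(z1,[z2,z0,z1,y2]),(z2,[z0,y1,y1,z2]),(z1,[y1,z0,z0,z1])],.ref (nat_lit 270) k7 [(z1,[y2,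
    z0,y1,z2]),(z2,[z2,z3,z1,y2]),(z1,[y1,z0,z1,z1])],.ref (nat_lit 271) k1 [(z1,[z1,y1]),(z2,[z0,z1,z1]),(z2,[y2,y1,
    y1,z2])],.ref (nat_lit 272) k2 [(z2,[y2,z1,z1]),(z2,[z0,y3,y1,z2]),(z1,[z1])],.ref k112 k0 [(z1,[z0,z1]),(z2,[y2,
    z1,z1]),(z2,[z0,y1,y1,z2])],.ref (nat_lit 271) k1 [(z2,[y2,y1,y1,z2]),(z2,[z0,z1,z1]),(z1,[z1,y1])],
    .ref (nat_lit 270) k7 [(z1,[z2,y1]),(z1,[y1,z2]),(z2,[z2,y1,z3])],.ref k1 k7 [(z2,[z1,z0,y1]),(z2,[y1,z2,z1]),(z2,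
    [z1,z0,z1])],.ref (nat_lit 271) k1 [(z2,[z2,y1,y1]),(z2,[z0,z1,z1]),(z1,[y1,y1,z0,z1])],.ref k112 k0 [(z1,[z0,
    z1]),(z2,[z2,z1,z1,y2]),(z2,[z0,y1,y1,z2])],.ref (nat_lit 271) k1 [(z1,[y1,y1,z0,z1]),(z2,[z0,z1,z1]),(z2,[z2,y1,
    y1])],.ref (nat_lit 272) k2 [(z2,[z2,z1,z1,y2]),(z2,[z0,y3,y1,z2]),(z1,[y1,z0,z0,z1])],.ref (nat_lit 270) k7 [(z1,
    [z2,z0,y1]),(z2,[y2,z3,z1]),(z1,[z1,z0,z1])],.ref (nat_lit 276) k9 [(z1,[y2,z0,z1]),(z2,[z0,y1,y1,z2]),(z1,[z1])],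
    .ref k1 k7 [(z2,[y2,y1,y1,z2]),(z2,[z2,z3,z1,y2]),(z2,[y2,y1,z1,z2])]],
    .leafM k6 [k2,k3,k4,k5,k0,k1] [(z1,[z1,z1])] [],
    .leafM k6 [k0,k1,k2,k3,k4,k5] [(z1,[y1,y1,y1,z1])] [],
    .tor k9 false k5 [(z1,[y1,y1,y2,z2]),(z1,[z1,z0,z1]),(z1,[z0,z0,z1]),(z1,[z0,z1])],
    .lp [k160,k160,k164,k150,k156,k168] [k4,k4,k4,k4,k2,k2,k9,k9,k6,k6,k0,k0] k0 [[k0,k0,k0,k0,k0,k0,k0,k26],[k0,k0,k0,k0,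
    k0,k0,k0,k0,k0,k0,k0,k8],[k0,k0,k0,k0,k12,k0,k0,k0,k12],[k0,k0,k0,k0,k0,k0,k0,k0,k4],[k0,k0,k0,k0,k0,k0,k0,k10,k0,
    k0,k12],[k0,k0,k0,k12,k0,k0,k0,k12],[k0,k26,k0,k0,k12,k10],[k0,k0,k0,k0,k0,k0,k0,k0,k0,k12],[k0,k0,k0,k0,k0,k0,
    k12,k0,k0,k0,k4,k16],[k0,k0,k4,k12],[k8,k0,k0,k0,k0,k0,k0,k0,k0,k16],[k0,k0,k0,k0,k0,k12,k0,k0,k0,
    k4]] (nat_lit 480) k5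
    [[(k4,k150),(k8,k154),(k7,k155),(k3,k160),(k0,k168),(k11,k180)],[(k6,k129),(k9,k158),(k2,k160),(k5,k162),(k10,
    k164),(k1,k168)],[(k6,k155),(k10,k156),(k1,k160),(k2,k160),(k5,k162),(k9,k184)],[(k7,k143),(k11,k152),(k0,k160),
    (k3,k160),(k4,k162),(k8,k162)],[(k7,k157),(k0,k162),(k3,k162),(k11,k162),(k8,k172),(k4,k176)],[(k6,k147),(k1,
    k150),(k2,k162),(k10,k166),(k9,k172),(k5,k176)],[(k6,k138),(k2,k143),(k1,k155),(k5,k157),(k9,k163),(k10,k171)],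
    [(k0,k129),(k7,k138),(k4,k147),(k8,k153),(k3,k155),(k11,k171)],[(k8,k144),(k0,k158),(k11,k162),(k7,k163),(k4,
    k172),(k3,k184)],[(k9,k144),(k10,k146),(k6,k153),(k1,k154),(k2,k162),(k5,k172)],[(k2,k152),(k5,k162),(k9,k162),
    (k6,k171),(k10,k172),(k1,k180)],[(k8,k146),(k3,k156),(k0,k164),(k4,k166),(k7,k171),(k11,k172)]]
    [] k0
    [[k2,k0,k0,k1,k0,k0],[k1,k1,k0,k1,k0,k0],[k1,k1,k0,k0,k0,k1],[k1,k1,k1,k0,k0,k0],[k1,k0,k1,k1,k0,k0],[k1,k0,k1,k0,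
    k0,k1],[k1,k0,k0,k2,k0,k0],[k1,k0,k0,k1,k1,k0],[k1,k0,k0,k0,k2,k0],[k0,k2,k0,k1,k0,k0],[k0,k2,k0,k0,k0,k1],[k0,k1,
    k1,k1,k0,k0],[k0,k1,k0,k2,k0,k0],[k0,k1,k0,k1,k0,k1],[k0,k0,k1,k2,k0,k0],[k0,k0,k0,k3,k0,k0],[k0,k0,k0,k2,k1,k0],
    [k0,k0,k0,k1,k2,k0],[k0,k0,k0,k0,k3,k0],[k0,k0,k0,k0,k2,k1]]
    [.ref k17 k7 [(z1,[y3,z1,y1,y1,z3]),(z1,[z0,z1]),(z1,[z0,z0,z1]),(z1,[z0,z0,z0,z1])],.ref k26 k2 [(z3,[z3,z0,z1,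
    z1,y3]),(z1,[z0,z0,z0,z1]),(z1,[z0,y1,y1,y1,z3]),(z1,[y3,z0,z0,y1,z3])],.ref k26 k10 [(z3,[z3,z0,z1,z1,y3]),(z1,
    [z0,z1]),(z1,[z0,y1,y1,y1,z3]),(z1,[y3,z0,z0,y1,z3])],.ref k5 k0 [(z1,[z0,z1]),(z1,[z3,y1,z0,y1]),(z1,[z0,z0,z0,
    z1]),(z1,[z0,y1,y1,y1,z3])],.ref k17 k7 [(z1,[y3,z0,y1,z0,z3]),(z1,[z0,z1]),(z1,[z0,z0,z1]),(z1,[z0,z0,z0,z1])],
    .ref k17 k7 [(z1,[z3,y1,z0,y1]),(z1,[z0,z1]),(z1,[z0,z0,z1]),(z1,[z0,z0,z0,z1])],.ref k17 k7 [(z2,[y3,y1,y2,y2,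
    z6]),(z1,[z0,z1]),(z1,[z0,z0,z1]),(z1,[z0,z0,z0,z1])],.ref k26 k10 [(z3,[y3,z1,z1]),(z1,[z0,z1]),(z1,[z0,y1,y1,y1,
    z3]),(z1,[z3,y1])],.ref k5 k0 [(z1,[z0,z1]),(z2,[y3,z1,z2]),(z1,[z0,z0,z0,z1]),(z1,[z0,y1,y1,y1,z3])],
    .ref k138 k11 [(z1,[y3,y1,y1,y1,z3]),(z1,[z0,z0,z1]),(z1,[z1]),(z1,[z0,z0,z0,z1])],.ref k138 k5 [(z1,[y3,y1,y1,y1,
    z3]),(z1,[z0,z0,z1]),(z1,[z1]),(z1,[z0,z1])],.ref k26 k2 [(z3,[z3,z1,z1,z0,y3]),(z1,[z0,z0,z0,z1]),(z1,[z0,y1,y1,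
    y1,z3]),(z1,[y3,y1,z0,z0,z3])],.ref k38 k2 [(z1,[z3,z2,z2,z2,y6]),(z1,[z0,z0,z0,z1]),(z1,[z0,y1,y1,y1,z3]),(z3,
    [y3,y2,y1,y2,z6])],.ref k5 k0 [(z1,[z0,z1]),(z1,[z3,z1,z1,z1,y3]),(z1,[z0,z0,z0,z1]),(z1,[z0,y1,y1,y1,z3])],
    .ref k17 k7 [(z2,[y3,y2,y2,y1,z6]),(z1,[z0,z1]),(z1,[z0,z0,z1]),(z1,[z0,z0,z0,z1])],.ref k17 k7 [(z1,[y1,y1,y1,y1,
    z3]),(z1,[z0,z1]),(z1,[z0,z0,z1]),(z1,[z0,z0,z0,z1])],.ref k38 k10 [(z1,[y3,z0,z1]),(z1,[z0,z1]),(z1,[z0,y1,y1,y1,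
    z3]),(z1,[z1])],.ref k138 k5 [(z1,[z3,z0,y2]),(z1,[z0,z0,z1]),(z3,[y3,y1,z1,y1,z3]),(z1,[z0,z1])],.ref k5 k0 [(z1,
    [z0,z1]),(z1,[y1,z0,z1]),(z1,[z0,z0,z0,z1]),(z1,[z0,y1,y1,y1,z3])],.ref k138 k11 [(z1,[z3,z0,y2]),(z1,[z0,z0,z1]),
    (z3,[y3,y1,z1,y1,z3]),(z1,[z0,z0,z0,z1])]],
    .lp [(nat_lit 294),(nat_lit 354),(nat_lit 336),(nat_lit 298),(nat_lit 290),(nat_lit 344)] [k51,k51,k42,k0,k30,k30,k49,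
    k49,k53,k53,k26,k26] k0 [[k0,k0,k38,k0,k0,k0,k0,k0,k0,k0,k0,k62],[k0,k0,k70,k0,k0,k0,k0,k0,k0,k0,k0,k130],[k0,k0,
    k0,k0,k48,k44,k0,k0,k0,k48],[k70,k38],[k0,k0,k0,k44,k0,k0,k50,k66],[k0,k0,k0,k48,k0,k0,k0,k0,k0,k0,k56],[k0,k0,k0,
    k0,k0,k66,k0,k0,k30],[k0,k0,k0,k0,k0,k50,k0,k0,k66],[k0,k0,k0,k48,k0,k0,k0,k0,k0,k0,k48],[k0,k0,k0,k0,k0,k0,k66,
    k30],[k130,k62],[k0,k0,k0,k0,k56,k0,k0,k0,k0,k48]] (nat_lit 960) k5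
    [[(k7,(nat_lit 240)),(k8,(nat_lit 244)),(k4,(nat_lit 315)),(k11,(nat_lit 319)),(k3,(nat_lit 407)),(k0,
    (nat_lit 424))],[(k10,(nat_lit 257)),(k5,(nat_lit 277)),(k9,(nat_lit 292)),(k6,(nat_lit 296)),(k2,(nat_lit 373)),
    (k1,(nat_lit 424))],[(k10,(nat_lit 240)),(k5,(nat_lit 296)),(k9,(nat_lit 343)),(k6,(nat_lit 347)),(k2,
    (nat_lit 392)),(k1,(nat_lit 407))],[(k8,(nat_lit 253)),(k7,(nat_lit 257)),(k4,(nat_lit 280)),(k11,(nat_lit 328)),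
    (k0,(nat_lit 373)),(k3,(nat_lit 392))],[(k0,(nat_lit 277)),(k3,(nat_lit 296)),(k8,(nat_lit 313)),(k7,
    (nat_lit 361)),(k4,(nat_lit 384)),(k11,(nat_lit 388))],[(k6,(nat_lit 251)),(k9,(nat_lit 263)),(k2,(nat_lit 280)),
    (k1,(nat_lit 315)),(k5,(nat_lit 384)),(k10,(nat_lit 396))],[(k1,(nat_lit 240)),(k2,(nat_lit 257)),(k10,
    (nat_lit 321)),(k6,(nat_lit 348)),(k9,(nat_lit 360)),(k5,(nat_lit 361))],[(k4,(nat_lit 251)),(k11,(nat_lit 291)),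
    (k0,(nat_lit 296)),(k3,(nat_lit 347)),(k7,(nat_lit 348)),(k8,(nat_lit 360))],[(k11,(nat_lit 251)),(k4,
    (nat_lit 263)),(k0,(nat_lit 292)),(k8,(nat_lit 320)),(k3,(nat_lit 343)),(k7,(nat_lit 360))],[(k1,(nat_lit 244)),
    (k2,(nat_lit 253)),(k5,(nat_lit 313)),(k10,(nat_lit 317)),(k9,(nat_lit 320)),(k6,(nat_lit 360))],[(k9,
    (nat_lit 251)),(k6,(nat_lit 291)),(k1,(nat_lit 319)),(k2,(nat_lit 328)),(k5,(nat_lit 388)),(k10,(nat_lit 392))],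
    [(k3,(nat_lit 240)),(k0,(nat_lit 257)),(k8,(nat_lit 317)),(k7,(nat_lit 321)),(k11,(nat_lit 392)),(k4,
    (nat_lit 396))]]
    [] k0
    [[k1,k1,k0,k0,k1,k0],[k1,k0,k1,k0,k1,k0],[k1,k0,k1,k1,k0,k0],[k1,k0,k0,k2,k0,k0],[k1,k0,k0,k1,k1,k0],[k1,k0,k0,k1,
    k0,k1],[k1,k0,k0,k0,k2,k0],[k1,k0,k0,k0,k1,k1],[k1,k1,k0,k0,k0,k1],[k0,k1,k1,k1,k0,k0],[k0,k1,k1,k0,k1,k0],[k0,k1,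
    k0,k2,k0,k0],[k0,k1,k0,k0,k2,k0],[k0,k1,k1,k0,k0,k1],[k0,k1,k0,k1,k0,k1],[k0,k1,k0,k0,k1,k1],[k0,k0,k1,k1,k1,k0],
    [k0,k0,k1,k0,k2,k0],[k0,k0,k0,k1,k1,k1],[k0,k0,k0,k0,k2,k1]]
    [.ref k4 k6 [(z1,[z0,y1]),(z1,[y1,z0,z1]),(z1,[z0,z0,y1,z1])],.ref k3 k7 [(z1,[y1,z0,y1,z1]),(z1,[z0,z1]),(z1,[z0,
    z0,z1])],.ref (nat_lit 279) k7 [(z1,[y1,z0,y1,z1]),(z1,[z0,z1]),(z1,[z0,z0,z1])],.ref (nat_lit 280) k0 [(z1,[z0,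
    z1]),(z1,[y1,z1,z2]),(z1,[z0,y1,y1,z1])],.ref k4 k0 [(z1,[z0,z1]),(z1,[y1,z1,z1]),(z1,[z0,y1,y1,z1])],
    .ref (nat_lit 279) k0 [(z1,[z0,z1]),(z1,[y1,z1,z1]),(z1,[z0,y1,y1,z1])],.ref (nat_lit 281) k8 [(z1,[z1,y1]),(z1,
    [y1,y2,y3,z3]),(z1,[z1,z2])],.ref (nat_lit 271) k1 [(z1,[y1,y1,y1,z1]),(z1,[z0,z1,z1]),(z1,[z0,y1])],
    .ref (nat_lit 279) k7 [(z1,[z1,y1,y1]),(z1,[z0,z1]),(z1,[z0,z0,z1])],.ref (nat_lit 271) k1 [(z1,[z1,y1,y1]),(z1,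
    [z0,z1,z1]),(z1,[z0,y1])],.ref (nat_lit 279) k0 [(z1,[z0,z1]),(z1,[z1,z1,z1,y1]),(z1,[z0,y1,y1,z1])],
    .ref k4 k6 [(z1,[z0,y1]),(z1,[z1,y1,y1]),(z1,[z0,z0,y1,z1])],.ref k4 k6 [(z1,[z0,y1]),(z1,[y1,y1,z1]),(z1,[z0,z0,
    y1,z1])],.ref k4 k0 [(z1,[z0,z1]),(z1,[z1,z1,z1,y1]),(z1,[z0,y1,y1,z1])],.ref k3 k7 [(z1,[z1,z0,y1]),(z1,[z0,z1]),
    (z1,[z0,z0,z1])],.ref (nat_lit 279) k7 [(z1,[z1,z0,y1]),(z1,[z0,z1]),(z1,[z0,z0,z1])],.ref (nat_lit 279) k7 [(z1,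
    [y1,y1,y1,z1]),(z1,[z0,z1]),(z1,[z0,z0,z1])],.ref k3 k7 [(z1,[y1,y1,y1,z1]),(z1,[z0,z1]),(z1,[z0,z0,z1])],
    .ref (nat_lit 279) k0 [(z1,[z0,z1]),(z1,[y1,z0,z1]),(z1,[z0,y1,y1,z1])],.ref (nat_lit 271) k1 [(z1,[y1,y2,y1,z1]),
    (z1,[z0,z1,z1]),(z1,[z0,y1])]]]

noncomputable def cT6_2_n6_2 : List TN :=
  [.leafM k1 [k0,k1,k2,k3,k4,k5] [(z1,[z0,z1]),(z1,[z0,y1,z1])] [],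
    .tor k2 false k2 [(z1,[y1,y1,z1]),(z1,[z0,y1,z1]),(z1,[z0,z1]),(z1,[z1,z1])],
    .lp [(nat_lit 1090),(nat_lit 778),(nat_lit 1158),(nat_lit 842),(nat_lit 926),(nat_lit 960)] [k34,k34,k190,k190,k0,k0,
    k158,k158,k116,k116,k99,k99] k0 [[k0,k0,(nat_lit 314),k0,k0,k0,k54,(nat_lit 246)],[k0,k0,k2,k0,k0,k0,k0,k0,k0,k0,
    k82,k104],[k0,k0,k0,k0,k90,k0,k0,k0,k14],[k2,(nat_lit 314),k0,k0,k88],[k0,k0,k0,k0,k0,k0,k0,(nat_lit 280),k0,k0,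
    (nat_lit 248)],[k0,k0,k88,k90,k0,k0,k0,k20],[k0,(nat_lit 246),k0,k0,k20,(nat_lit 280)],[k0,k54,k0,k0,k0,k0,k0,k0,
    k178,k8],[k0,k0,k0,k0,k0,k0,k8],[k0,k0,k0,k14,k0,k0,k178],[k104],[k82,k0,k0,k0,k0,
    (nat_lit 248)]] (nat_lit 2880) k5
    [[(k3,(nat_lit 852)),(k4,(nat_lit 876)),(k7,(nat_lit 966)),(k8,(nat_lit 1008)),(k11,(nat_lit 1025)),(k0,
    (nat_lit 1194))],[(k6,(nat_lit 720)),(k5,(nat_lit 810)),(k2,(nat_lit 936)),(k9,(nat_lit 954)),(k10,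
    (nat_lit 1107)),(k1,(nat_lit 1194))],[(k10,(nat_lit 765)),(k1,(nat_lit 852)),(k6,(nat_lit 864)),(k5,
    (nat_lit 966)),(k2,(nat_lit 1092)),(k9,(nat_lit 1098))],[(k7,(nat_lit 720)),(k8,(nat_lit 852)),(k11,
    (nat_lit 855)),(k0,(nat_lit 936)),(k4,(nat_lit 1056)),(k3,(nat_lit 1092))],[(k0,(nat_lit 810)),(k7,(nat_lit 912)),
    (k3,(nat_lit 966)),(k8,(nat_lit 1056)),(k11,(nat_lit 1059)),(k4,(nat_lit 1248))],[(k6,(nat_lit 720)),(k1,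
    (nat_lit 876)),(k2,(nat_lit 1056)),(k10,(nat_lit 1059)),(k9,(nat_lit 1062)),(k5,(nat_lit 1248))],[(k2,
    (nat_lit 720)),(k6,(nat_lit 822)),(k5,(nat_lit 912)),(k1,(nat_lit 966)),(k10,(nat_lit 1149)),(k9,(nat_lit 1164))],
    [(k0,(nat_lit 720)),(k4,(nat_lit 720)),(k7,(nat_lit 822)),(k3,(nat_lit 864)),(k11,(nat_lit 909)),(k8,
    (nat_lit 1062))],[(k11,(nat_lit 765)),(k8,(nat_lit 918)),(k0,(nat_lit 954)),(k4,(nat_lit 1062)),(k3,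
    (nat_lit 1098)),(k7,(nat_lit 1164))],[(k2,(nat_lit 852)),(k9,(nat_lit 918)),(k10,(nat_lit 943)),(k1,
    (nat_lit 1008)),(k5,(nat_lit 1056)),(k6,(nat_lit 1062))],[(k9,(nat_lit 765)),(k2,(nat_lit 855)),(k6,
    (nat_lit 909)),(k10,(nat_lit 960)),(k1,(nat_lit 1025)),(k5,(nat_lit 1059))],[(k3,(nat_lit 765)),(k8,
    (nat_lit 943)),(k11,(nat_lit 960)),(k4,(nat_lit 1059)),(k0,(nat_lit 1107)),(k7,(nat_lit 1149))]]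
    [] k0
    [[k1,k1,k1,k0,k0,k0],[k1,k1,k0,k1,k0,k0],[k1,k1,k0,k0,k1,k0],[k1,k1,k0,k0,k0,k1],[k1,k0,k1,k1,k0,k0],[k1,k0,k0,k2,
    k0,k0],[k0,k2,k0,k1,k0,k0],[k0,k2,k0,k0,k0,k1],[k0,k1,k1,k1,k0,k0],[k0,k1,k0,k2,k0,k0],[k0,k1,k0,k1,k0,k1],[k0,k1,
    k0,k0,k2,k0],[k0,k1,k0,k0,k1,k1],[k0,k1,k0,k0,k0,k2],[k0,k0,k1,k2,k0,k0],[k0,k0,k0,k3,k0,k0],[k0,k0,k0,k0,k3,k0],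
    [k0,k0,k0,k0,k2,k1],[k0,k0,k0,k0,k1,k2]]
    [.ref k6 k0 [(z2,[z6,z0,y1,y3]),(z4,[z6,y6,z1,y3]),(z4,[y6,z6,z1,z9]),(z1,[y6,z6,z1,z3,z3]),(z2,[z6,y6,y1,y3])],
    .ref k6 k0 [(z1,[y6,z9,z1,z0,z6]),(z1,[y3,z3,z1,z0,z3]),(z2,[z6,y6,y1,z3,y6]),(z1,[z12,y12,y2,z0,y9]),(z1,[y6,z6,
    z1,z0,z6])],.ref k6 k0 [(z5,[z6,z9,y1]),(z5,[z3,y3,z2]),(z10,[y6,z6,z1,z15]),(z5,[y12,z12,z2,z0,z15]),(z5,[z6,y6,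
    y1])],.ref k6 k0 [(z1,[z2,z3,z0,z1,z2,y2]),(z2,[z2,z0,z1,z1,z2,y2]),(z1,[y1,z0,z0,z1,y1,z1]),(z1,[y4,z0,z0,y2,y1,
    z4]),(z1,[z2,z0,z0,z1,z2,y2])],.ref k6 k0 [(z1,[y2,z5,z0,z1,z2]),(z2,[y2,z2,z1,z1,z2]),(z1,[z1,y1,z0,z1,y1]),(z1,
    [z4,y4,z0,y2,y1]),(z1,[y2,z2,z0,z1,z2])],.ref k6 k0 [(z1,[y1,z4,z0,z0,z2]),(z2,[y1,z1,z1,z0,z2]),(z2,[z1,y1,z0,z3,
    y2]),(z1,[z2,y2,z0,z0,y1]),(z1,[y1,z1,z0,z0,z2])],.ref k6 k0 [(z1,[y3,z3,z1,z0,z3]),(z2,[y3,z0,z2,z0,z3]),(z2,[z3,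
    z0,y1,z3,y3]),(z1,[z6,z0,y2,z0,y3]),(z1,[y3,z0,z1,z0,z3])],.ref k6 k0 [(z2,[z6,z12,y1,z3,z6,y6]),(z4,[z6,z6,z1,z3,
    z6,y6]),(z4,[y6,y6,z1,z3,y6,z6]),(z1,[y6,y6,z1,y3,y3,z6]),(z2,[z6,z6,y1,z3,z6,y6])],.ref k6 k0 [(z4,[y6,z12,z1,z3,
    z6]),(z8,[y6,z0,z5,z3,z6]),(z8,[z6,z0,y1,z9,y6]),(z2,[z6,z0,y1,y3]),(z4,[y6,z0,z1,z3,z6])],.ref k6 k0 [(z7,[y6,
    z21,z1,z0,z12]),(z7,[y3,z0,z4,z0,z6]),(z14,[z6,z0,y1,z21,y12]),(z7,[z12,z0,y2,z0,y3]),(z7,[y6,z0,z1,z0,z12])],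
    .ref k6 k0 [(z1,[y2,z1,z0,y1,z0,z2]),(z2,[y2,y2,z1,y1,z0,z2]),(z1,[z1,z1,z0,z2,z0,y1]),(z1,[z4,z4,z0,z2,z3,y4]),
    (z1,[y2,y2,z0,y1,z0,z2])],.ref k6 k0 [(z5,[z6,z15,y1]),(z5,[z3,z0,z2]),(z10,[y6,z0,z1,z15]),(z5,[y12,z0,z2,z0,
    z15]),(z5,[z6,z0,y1])],.ref k6 k0 [(z1,[z2,z5,z0,z1,z2,y2]),(z2,[z2,z2,z1,z1,z2,y2]),(z1,[y1,y1,z0,z1,y1,z1]),(z1,
    [y4,y4,z0,y2,y1,z4]),(z1,[z2,z2,z0,z1,z2,y2])],.ref k6 k0 [(z1,[z6,z15,z1,z6,z12,y12]),(z1,[z3,z6,z1,z3,z6,y6]),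
    (z2,[y6,y12,y1,y3,y12,z12]),(z1,[y12,y24,y2,y12,y21,z24]),(z1,[z6,z12,z1,z6,z12,y12])],.ref k6 k0 [(z3,[y2,z9,z0,
    z1,z4]),(z6,[y2,z0,z3,z1,z4]),(z3,[z1,z0,z0,z4,y2]),(z3,[z4,z0,z0,y2,z1]),(z3,[y2,z0,z0,z1,z4])],.ref k6 k0 [(z2,
    [y1,z6,z0,z0,z3]),(z4,[y1,z0,z2,z0,z3]),(z4,[z1,z0,z0,z6,y3]),(z1,[z1]),(z2,[y1,z0,z0,z0,z3])],.ref k6 k0 [(z1,
    [z1,z3]),(z2,[z1,z0,z1]),(z2,[y1,z0,z0,z3]),(z1,[y2,z0,z0,z0,z3]),(z1,[z1])],.ref k6 k0 [(z4,[z6,z18,z1,z3,z6,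
    y6]),(z8,[z6,z6,z5,z3,z6,y6]),(z8,[y6,y6,y1,z9,y6,z6]),(z2,[y6,y6,y1,y3,z0,z6]),(z4,[z6,z6,z1,z3,z6,y6])],
    .ref k6 k0 [(z1,[z3,z9,z1,z3,z6,y6]),(z2,[z3,z6,z2,z3,z6,y6]),(z2,[y3,y6,y1,z0,y6,z6]),(z1,[y6,y12,y2,y6,y9,z12]),
    (z1,[z3,z6,z1,z3,z6,y6])]],
    .lp [k84,k74,k84,k80,k90,k66] [k3,k3,k8,k8,k3,k3,k5,k5,k0,k0,k12,k12] k0 [[k0,k0,k8],[k0,k0,k0,k0,k0,k0,k0,k0,k0,k0,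
    k0,k2],[k0,k0,k0,k0,k6,k0,k0,k0,k0,k18],[k0,k8,k0,k0,k0,k0,k0,k0,k0,k6],[k0,k0,k0,k0,k0,k0,k12,k14,k0,k0,k6],[k0,
    k0,k0,k6,k0,k0,k0,k0,k0,k0,k10],[k0,k0,k0,k0,k0,k14],[k0,k0,k0,k0,k0,k12,k0,k0,k2],[k0,k0,k6,k18,k0,k0,k0,k0,k0,
    k0,k0,k4],[k0,k0,k0,k0,k0,k0,k2,k0,k0,k0,k0,k2],[k2,k0,k0,k0,k0,k0,k0,k0,k2,k4],[k0,k0,k0,k0,k10,
    k6]] (nat_lit 240) k5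
    [[(k7,k72),(k4,k78),(k3,k79),(k11,k79),(k0,k86),(k8,k89)],[(k10,k75),(k5,k76),(k2,k79),(k6,k82),(k1,k86),(k9,
    k87)],[(k10,k68),(k6,k77),(k1,k79),(k5,k79),(k2,k82),(k9,k82)],[(k8,k64),(k7,k71),(k11,k76),(k0,k79),(k4,k79),(k3,
    k82)],[(k0,k76),(k3,k79),(k8,k81),(k7,k82),(k4,k90),(k11,k93)],[(k6,k68),(k9,k75),(k1,k78),(k2,k79),(k10,k85),(k5,
    k90)],[(k2,k71),(k1,k72),(k10,k79),(k5,k82),(k6,k92),(k9,k99)],[(k4,k68),(k11,k73),(k3,k77),(k0,k82),(k8,k87),(k7,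
    k92)],[(k4,k75),(k11,k76),(k3,k82),(k0,k87),(k8,k90),(k7,k99)],[(k2,k64),(k10,k74),(k5,k81),(k6,k87),(k1,k89),(k9,
    k90)],[(k10,k64),(k6,k73),(k2,k76),(k9,k76),(k1,k79),(k5,k93)],[(k11,k64),(k3,k68),(k8,k74),(k0,k75),(k7,k79),(k4,
    k85)]]
    [] k0
    [[k1,k1,k1,k0,k0,k0],[k1,k1,k0,k1,k0,k0],[k1,k1,k0,k0,k1,k0],[k1,k1,k0,k0,k0,k1],[k1,k0,k1,k1,k0,k0],[k1,k0,k0,k1,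
    k0,k1],[k1,k0,k0,k0,k0,k2],[k0,k2,k0,k1,k0,k0],[k0,k2,k0,k0,k1,k0],[k0,k2,k0,k0,k0,k1],[k0,k1,k1,k1,k0,k0],[k0,k1,
    k1,k0,k1,k0],[k0,k1,k0,k1,k0,k1],[k0,k1,k0,k0,k2,k0],[k0,k1,k0,k0,k1,k1],[k0,k1,k0,k0,k0,k2],[k0,k0,k0,k1,k0,k2],
    [k0,k0,k0,k0,k1,k2],[k0,k0,k0,k0,k0,k3]]
    [.ref k8 k5 [(z2,[z0,y2,y1,y5,z2]),(z1,[z0,z0,z0,z1]),(z2,[y2,z2,z1,z3]),(z1,[z0,z1,z0,z1])],.ref k9 k5 [(z2,[z0,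
    y2,y1,y5,z2]),(z1,[z0,z0,z0,z1]),(z1,[y1,z0,z0,y1,z1]),(z1,[z0,z1,z0,z1])],.ref k131 k5 [(z2,[z0,y2,y1,y5,z2]),
    (z1,[z0,z0,z0,z1]),(z2,[y2,z2,z1,z5]),(z1,[z0,z1,z0,z1])],.ref k5 k1 [(z2,[y2,z2,z1,z3]),(z2,[y8,z2,z1,y3,z6]),
    (z1,[z2,y2,y1]),(z1,[z1,y1,z1])],.ref k5 k1 [(z2,[z2,z0,z1,z3,y2]),(z2,[z8,y6,z1,y3,y2]),(z1,[y2,z0,y1,z0,z2]),
    (z1,[y1,z0,z1,z0,z1])],.ref k8 k5 [(z2,[z0,y2,y1,y5,z2]),(z1,[z0,z0,z0,z1]),(z2,[z2,z0,z1,z3,y2]),(z1,[z0,z1,z0,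
    z1])],.ref k9 k5 [(z2,[z0,y2,y1,y5,z2]),(z1,[z0,z0,z0,z1]),(z2,[z1,y1,z0,y1]),(z1,[z0,z1,z0,z1])],.ref k9 k5 [(z2,
    [z0,y2,y1,y5,z2]),(z1,[z0,z0,z0,z1]),(z4,[y2,y2,z1,y3,z2]),(z1,[z0,z1,z0,z1])],.ref k8 k5 [(z2,[z0,y2,y1,y5,z2]),
    (z1,[z0,z0,z0,z1]),(z2,[y1,z0,z1,z2]),(z1,[z0,z1,z0,z1])],.ref k8 k5 [(z2,[z0,y2,y1,y5,z2]),(z1,[z0,z0,z0,z1]),
    (z1,[y1,z0,z1,z1]),(z1,[z0,z1,z0,z1])],.ref k122 k5 [(z2,[z0,y2,y1,y5,z2]),(z1,[z0,z0,z0,z1]),(z1,[y1,y1,z0,y2,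
    z1]),(z1,[z0,z1,z0,z1])],.ref k8 k5 [(z2,[z0,y2,y1,y5,z2]),(z1,[z0,z0,z0,z1]),(z2,[y2,z0,z1,z3]),(z1,[z0,z1,z0,
    z1])],.ref k5 k1 [(z1,[z1,z1,z0,z2,y1]),(z2,[z8,z2,y3,z1,y2]),(z1,[y2,y2,z0,y1,z2]),(z2,[y2,y2,z3,y1,z2])],
    .ref k131 k5 [(z2,[z0,y2,y1,y5,z2]),(z1,[z0,z0,z0,z1]),(z2,[y2,z0,z1,z5]),(z1,[z0,z1,z0,z1])],.ref k5 k1 [(z2,[y2,
    z0,z1,z3]),(z2,[y8,y6,z1,y3,z6]),(z1,[z2,z0,y1]),(z1,[z1,z0,z1])],.ref k9 k5 [(z2,[z0,y2,y1,y5,z2]),(z1,[z0,z0,z0,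
    z1]),(z2,[z2,z0,y1,y1]),(z1,[z0,z1,z0,z1])],.ref k8 k5 [(z2,[z0,y2,y1,y5,z2]),(z1,[z0,z0,z0,z1]),(z4,[z2,z2,z1,z5,
    y2]),(z1,[z0,z1,z0,z1])],.ref k9 k5 [(z2,[z0,y2,y1,y5,z2]),(z1,[z0,z0,z0,z1]),(z2,[z1,z0,z0,y1]),(z1,[z0,z1,z0,
    z1])],.ref (nat_lit 285) k0 [(z1,[z0,z1]),(z1,[y2,z0,z3]),(z1,[z0,z0,z0,z1]),(z2,[z0,y2,y1,y1,z2])]],
    .leafM k6 [k2,k3,k4,k5,k0,k1] [(z1,[z1,z1])] [],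
    .lp [k80,k76,k74,k84,k82,k82] [k10,k10,k12,k12,k26,k0,k8,k8,k9,k9,k9,k9] k0 [[k0,k0,k30,k0,k0,k0,k0,k0,k0,k0,k0,k2],
    [k0,k0,k2,k0,k0,k0,k0,k8],[k0,k0,k0,k0,k18,k0,k0,k0,k0,k8],[k2,k30],[k0,k0,k0,k0,k0,k0,k2],[k0,k0,k0,k18,k0,k0,k0,
    k0,k0,k0,k10],[k8,k0,k0,k0,k0,k0,k0,k0,k8],[k0,k0,k0,k0,k0,k2,k0,k0,k2],[k0,k0,k0,k8],[k0,k0,k0,k0,k0,k0,k2,k8],
    [k0,k2],[k0,k0,k0,k0,k10]] (nat_lit 240) k5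
    [[(k4,k64),(k7,k72),(k0,k80),(k3,k80),(k8,k81),(k11,k81)],[(k5,k60),(k10,k79),(k1,k80),(k2,k80),(k6,k82),(k9,
    k89)],[(k6,k72),(k9,k79),(k10,k79),(k1,k80),(k5,k86),(k2,k106)],[(k4,k62),(k7,k62),(k8,k71),(k11,k79),(k0,k80),
    (k3,k106)],[(k0,k60),(k3,k86),(k8,k91),(k4,k92),(k7,k92),(k11,k99)],[(k2,k62),(k9,k63),(k1,k64),(k6,k66),(k10,
    k75),(k5,k92)],[(k2,k62),(k1,k72),(k9,k83),(k10,k83),(k6,k86),(k5,k92)],[(k4,k66),(k3,k72),(k11,k75),(k0,k82),(k8,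
    k85),(k7,k86)],[(k4,k63),(k3,k79),(k11,k80),(k7,k83),(k0,k89),(k8,k90)],[(k2,k71),(k1,k81),(k10,k82),(k6,k85),(k9,
    k90),(k5,k91)],[(k6,k75),(k2,k79),(k9,k80),(k1,k81),(k10,k82),(k5,k99)],[(k4,k75),(k0,k79),(k3,k79),(k8,k82),(k11,
    k82),(k7,k83)]]
    [] k0
    [[k2,k0,k1,k0,k0,k0],[k2,k0,k0,k1,k0,k0],[k1,k1,k1,k0,k0,k0],[k1,k1,k0,k1,k0,k0],[k1,k1,k0,k0,k0,k1],[k1,k0,k2,k0,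
    k0,k0],[k1,k0,k1,k1,k0,k0],[k1,k0,k0,k1,k0,k1],[k1,k0,k1,k0,k1,k0],[k1,k0,k1,k0,k0,k1],[k0,k1,k1,k1,k0,k0],[k0,k1,
    k1,k0,k1,k0],[k0,k1,k0,k2,k0,k0],[k0,k1,k0,k1,k1,k0],[k0,k1,k0,k1,k0,k1],[k0,k1,k0,k0,k1,k1]]
    [.ref k32 k6 [(z1,[z0,y1]),(z1,[y1,y1,y1,z1]),(z1,[z1])],.ref (nat_lit 280) k5 [(z1,[z1,y2,y1]),(z1,[z0,z0,z1]),
    (z1,[y1,z1,z0,z1])],.ref (nat_lit 271) k8 [(z1,[y1,z1,z1]),(z1,[z0,y1,y1,z1]),(z1,[y1,z2,z1])],.ref k4 k6 [(z1,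
    [z0,y1]),(z1,[z1,y2,y1]),(z1,[y1,z1,z0,z1])],.ref k2 k10 [(z1,[z2,z0,z1,y2]),(z1,[y1,z1,z0,z1]),(z1,[z0,y1,y1,
    z1])],.ref (nat_lit 286) k6 [(z1,[z0,y1]),(z1,[y1,y2,y2,z2]),(z1,[z1])],.ref k2 k10 [(z1,[y2,z2,z1]),(z1,[z1]),
    (z1,[z0,y1,y1,z1])],.ref (nat_lit 271) k8 [(z1,[z1,z0,z1,y1]),(z1,[z0,y1,y1,z1]),(z1,[z1,z1,z1,y1])],
    .ref k32 k6 [(z1,[z0,y1]),(z1,[y1,y2,y1,z1]),(z1,[z1,z1])],.ref k4 k6 [(z1,[z0,y1]),(z1,[y1,y1,y1,z1]),(z1,[z1])],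
    .ref (nat_lit 287) k4 [(z1,[z1,z0,y1]),(z1,[z0,z0,z1]),(z1,[z0,z1])],.ref (nat_lit 271) k8 [(z1,[y1,z0,z1]),(z1,
    [z0,y1,y1,z1]),(z1,[y1,z1,z1])],.ref k4 k6 [(z1,[z0,y1]),(z2,[z1,y2,y1]),(z2,[y1,z0,y1,z2])],.ref k4 k6 [(z1,[z0,
    y1]),(z1,[z1,y1,y1]),(z1,[y1,z0,z0,z1])],.ref k32 k6 [(z1,[z0,y1]),(z1,[z1,y2,y1]),(z1,[y1,z1,z0,z1])],
    .ref k2 k10 [(z1,[z2,z2,z1,y2]),(z1,[y1,z0,z0,z1]),(z1,[z0,y1,y1,z1])]],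
    .leafM k1 [k0,k1,k2,k3,k4,k5] [(z1,[y1,z0,y1,z1]),(z1,[z1,z0,z1])] [],
    .lp [k78,k72,k92,k74,k86,k76] [k7,k7,k10,k10,k0,k0,k9,k9,k3,k3,k8,k8] k0 [[k0,k0,k22,k0,k0,k0,k0,k8],[k0,k0,k0,k0,k0,
    k0,k0,k0,k0,k0,k4,k2],[k0,k0,k0,k0,k0,k16],[k0,k22,k0,k0,k0,k0,k0,k0,k8],[k0,k0,k0,k16,k0,k0,k28],[k0,k0,k0,k0,k0,
    k0,k18],[k0,k8,k0,k0,k0,k0,k0,k0,k12],[k0,k0,k0,k0,k18,k28],[k0,k0,k0,k0,k0,k0,k0,k0,k0,k0,k4,k2],[k0,k0,k8,k0,k0,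
    k0,k0,k12],[k2,k0,k0,k0,k0,k0,k0,k0,k0,k2],[k4,k0,k0,k0,k0,k0,k0,k0,k0,k4]] (nat_lit 240) k5
    [[(k3,k71),(k7,k76),(k8,k78),(k11,k79),(k0,k80),(k4,k85)],[(k5,k63),(k6,k68),(k2,k75),(k1,k80),(k10,k81),(k9,
    k82)],[(k1,k71),(k10,k72),(k6,k73),(k5,k82),(k9,k87),(k2,k94)],[(k4,k66),(k7,k73),(k11,k74),(k0,k75),(k8,k87),(k3,
    k94)],[(k0,k63),(k11,k76),(k3,k82),(k8,k89),(k4,k92),(k7,k99)],[(k9,k61),(k2,k66),(k10,k84),(k1,k85),(k5,k92),(k6,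
    k101)],[(k9,k62),(k2,k73),(k10,k75),(k1,k76),(k5,k99),(k6,k102)],[(k11,k63),(k0,k68),(k3,k73),(k8,k80),(k4,k101),
    (k7,k102)],[(k4,k61),(k7,k62),(k11,k81),(k0,k82),(k3,k87),(k8,k98)],[(k1,k78),(k10,k79),(k6,k80),(k2,k87),(k5,
    k89),(k9,k98)],[(k6,k63),(k2,k74),(k5,k76),(k1,k79),(k10,k80),(k9,k81)],[(k3,k72),(k7,k75),(k8,k79),(k11,k80),(k0,
    k81),(k4,k84)]]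
    [] k0
    [[k2,k1,k0,k0,k0,k0],[k2,k0,k1,k0,k0,k0],[k2,k0,k0,k1,k0,k0],[k1,k1,k1,k0,k0,k0],[k1,k1,k0,k1,k0,k0],[k1,k1,k0,k0,
    k0,k1],[k1,k0,k0,k1,k1,k0],[k1,k0,k0,k1,k0,k1],[k1,k0,k1,k0,k1,k0],[k1,k0,k1,k0,k0,k1],[k0,k1,k1,k0,k1,k0],[k0,k1,
    k1,k1,k0,k0],[k0,k1,k0,k1,k1,k0],[k0,k1,k0,k1,k0,k1],[k0,k1,k1,k0,k0,k1],[k0,k1,k0,k0,k0,k2],[k0,k0,k1,k0,k1,k1],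
    [k0,k0,k0,k1,k1,k1],[k0,k0,k0,k1,k0,k2]]
    [.ref k2 k10 [(z1,[z1,z0,z2,y2]),(z1,[z0,z0,y1,z1]),(z1,[z0,y1,y1,z1])],.ref k4 k7 [(z1,[z1,y1,z1,y1]),(z1,[z1,z0,
    z1,y1]),(z1,[y1,z1,z0,z1])],.ref k4 k3 [(z1,[z1,z0,z1,y1]),(z1,[z1,y1,z1,y1]),(z1,[y1,z1,z0,z1])],
    .ref (nat_lit 279) k5 [(z1,[y1,z0,y1,z1]),(z1,[y1,z1,z1]),(z1,[z1,y1])],.ref (nat_lit 289) k0 [(z1,[z0,z1]),(z1,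
    [z0,z0,z1]),(z1,[y1,z0,z0,z1])],.ref k2 k10 [(z1,[z1,z1,z2,y2]),(z1,[z0,z0,y1,z1]),(z1,[z0,y1,y1,z1])],
    .ref (nat_lit 279) k5 [(z1,[z1,y1,y1]),(z1,[z1,z0,z1,y1]),(z1,[y1,z0,z0,z1])],.ref k4 k3 [(z1,[z1,z1,z1,y1]),(z1,
    [z1,z0,z1,y1]),(z1,[y1,z0,z0,z1])],.ref (nat_lit 289) k0 [(z1,[z0,z1]),(z1,[z0,z0,z1]),(z1,[z1,y1])],
    .ref k4 k7 [(z1,[z1,z0,z1,y1]),(z1,[z1,z1,z1,y1]),(z1,[y1,z0,z0,z1])],.ref k4 k3 [(z1,[y1,z1,z1]),(z1,[y1,z0,z1]),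
    (z1,[z1])],.ref k2 k8 [(z1,[y1,z1,z2,y1]),(z1,[z0,y1,y1,z1]),(z1,[z0,z0,y1,z1])],.ref k4 k7 [(z1,[y1,z0,z1]),(z1,
    [y1,z1,z1]),(z1,[z1])],.ref (nat_lit 289) k0 [(z1,[z0,z1]),(z1,[z0,z0,z1]),(z1,[y1,y1,z0,z1])],
    .ref (nat_lit 279) k5 [(z1,[y1,y1,y1,z1]),(z1,[y1,z0,z1]),(z1,[z1])],.ref k2 k10 [(z1,[z1,z2,z2,y2]),(z1,[z0,z0,
    y1,z1]),(z1,[z0,y1,y1,z1])],.ref (nat_lit 289) k0 [(z1,[z0,z1]),(z1,[z0,z0,z1]),(z1,[z1])],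
    .ref (nat_lit 279) k5 [(z1,[z1,z0,y1]),(z1,[z1,z1,z1,y1]),(z1,[y1,y1,z0,z1])],.ref k4 k3 [(z1,[z1,z2,z1,y1]),(z1,
    [z1,z1,z1,y1]),(z1,[y1,y1,z0,z1])]],
    .leafM k6 [k2,k3,k4,k5,k0,k1] [(z1,[z1,z1])] [],
    .tor k2 false k1 [(z1,[z1,z0,z0,z1]),(z1,[z1,z1,z0,z1]),(z1,[y1,y1,z0,y1,z1]),(z1,[y1,z0,z0,y1,z1])],
    .tor k2 false k2 [(z1,[z0,z0,z1,z1]),(z1,[z1,z0,z1]),(z1,[y1,z0,y1,z0,z1]),(z1,[z0,z0,y1,y1,z1])],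
    .lp [k150,k148,k172,k160,k156,k172] [k11,k11,k12,k12,k0,k0,k6,k6,k8,k8,k0,k0] k0 [[k0,k0,k0,k0,k0,k0,k16,k8,k0,k0,k0,
    k22],[k0,k0,k12],[k0,k0,k0,k0,k0,k4],[k12,k0,k0,k0,k0,k12],[k0,k0,k12,k4,k0,k0,k8],[k0,k0,k0,k0,k0,k0,k0,k0,k0,k0,
    k0,k8],[k0,k8,k0,k0,k0,k0,k0,k0,k12,k4],[k0,k16,k0,k0,k0,k8],[k0,k0,k0,k0,k0,k0,k0,k4,k0,k0,k12],[k0,k0,k0,k0,k0,
    k0,k0,k12,k0,k0,k4],[k0,k22,k0,k0,k8],[k0,k0,k0,k0,k0,k0,k0,k0,k4,k12]] (nat_lit 480) k5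
    [[(k8,k141),(k0,k150),(k7,k155),(k11,k157),(k4,k169),(k3,k171)],[(k9,k137),(k10,k139),(k6,k147),(k1,k150),(k2,
    k161),(k5,k161)],[(k2,k148),(k5,k148),(k9,k160),(k10,k160),(k6,k170),(k1,k171)],[(k3,k148),(k8,k152),(k4,k156),
    (k11,k160),(k0,k161),(k7,k166)],[(k3,k148),(k4,k160),(k0,k161),(k8,k164),(k7,k170),(k11,k172)],[(k2,k156),(k9,
    k156),(k5,k160),(k6,k166),(k1,k169),(k10,k172)],[(k1,k155),(k9,k158),(k10,k158),(k2,k166),(k6,k168),(k5,k170)],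
    [(k0,k147),(k8,k154),(k11,k154),(k4,k166),(k7,k168),(k3,k170)],[(k0,k137),(k4,k156),(k7,k158),(k3,k160),(k8,k168),
    (k11,k168)],[(k1,k141),(k2,k152),(k6,k154),(k5,k164),(k9,k168),(k10,k168)],[(k6,k154),(k1,k157),(k2,k160),(k9,
    k168),(k5,k172),(k10,k184)],[(k0,k139),(k7,k158),(k3,k160),(k8,k168),(k4,k172),(k11,k184)]]
    [] k0
    [[k3,k0,k0,k0,k0,k0],[k2,k0,k0,k1,k0,k0],[k2,k0,k0,k0,k1,k0],[k2,k0,k0,k0,k0,k1],[k1,k1,k0,k0,k1,k0],[k1,k1,k0,k0,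
    k0,k1],[k1,k1,k1,k0,k0,k0],[k1,k0,k1,k0,k1,k0],[k1,k0,k0,k2,k0,k0],[k1,k0,k0,k1,k1,k0],[k1,k0,k0,k1,k0,k1],[k1,k0,
    k0,k0,k2,k0],[k1,k0,k0,k0,k1,k1],[k0,k3,k0,k0,k0,k0],[k0,k2,k1,k0,k0,k0],[k0,k2,k0,k0,k1,k0],[k0,k2,k0,k0,k0,k1],
    [k0,k1,k2,k0,k0,k0],[k0,k1,k1,k0,k1,k0]]
    [.ref k43 k0 [(z1,[z1]),(z1,[y1,z1,z3]),(z1,[y1,z1,z0,z3]),(z1,[z0,y1,y3,y3,z3])],.ref k43 k0 [(z2,[z3,z1,z3,z3,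
    y3]),(z2,[y3,z1,z3,y3,z3]),(z2,[y3,z1,y3,z3,z3]),(z1,[z0,y1,y3,y3,z3])],.ref k30 k8 [(z1,[z3,y2,z0,y6]),(z1,[y3,
    z2,z0,z9]),(z1,[z0,z1,z0,z3]),(z1,[z0,z0,z1,y1])],.ref (nat_lit 265) k1 [(z1,[z0,z0,y1,z1]),(z1,[z0,y1,y3,y3,z3]),
    (z1,[y3,z2,z9]),(z1,[z3,y2,y6])],.ref (nat_lit 267) k1 [(z1,[z0,z0,y1,z1]),(z1,[z0,y1,y3,y3,z3]),(z1,[z3,y1,y3]),
    (z1,[y3,z1,z6])],.ref k26 k6 [(z1,[y1,z0,z1]),(z1,[z0,y1,y3,y3,z3]),(z1,[z0,z1,z0,z3]),(z1,[z0,z1,z3])],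
    .ref k43 k0 [(z1,[y3,z2,z3,z3]),(z1,[z3,y1,z0,y3]),(z1,[z3,y1,y3]),(z1,[z0,y1,y3,y3,z3])],
    .ref (nat_lit 267) k1 [(z1,[z0,z0,y1,z1]),(z1,[z0,y1,y3,y3,z3]),(z1,[z3,y1,z0,y3]),(z1,[y3,z1,z3,z3])],
    .ref k43 k0 [(z1,[z3,z2,z6,z6,y6]),(z1,[y3,y1,y3,y6,z6]),(z1,[y3,y1,y6,y3,z6]),(z1,[z0,y1,y3,y3,z3])],
    .ref (nat_lit 292) k4 [(z1,[y1,z0,y1,z0,z1]),(z1,[y1,z0,z0,y1,z1]),(z1,[z3,z1,z3,z3,y3]),(z1,[z1,z0,z1,z1,y1])],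
    .ref (nat_lit 293) k1 [(z1,[z0,z0,y1,z1]),(z1,[z0,y1,y3,y3,z3]),(z1,[y1,z0,z1,y1,z1]),(z1,[z1,z0,z0,z1,y1])],
    .ref k143 k4 [(z1,[y3,z1,z0,z3]),(z1,[y3,z1,z3]),(z1,[z1]),(z1,[z3,y1])],.ref k43 k0 [(z2,[z3,z1]),(z2,[y3,z1,
    z6]),(z2,[y3,z1,z0,z6]),(z1,[z0,y1,y3,y3,z3])],.ref k43 k0 [(z1,[y1,z1,z3]),(z1,[z1]),(z1,[z1,z0,y3,z3]),(z1,[z0,
    y1,y3,y3,z3])],.ref k43 k0 [(z1,[y1,z1,z2,z1]),(z1,[z1,z0,z1,y1]),(z1,[z1,z0,y2,z2]),(z1,[z0,y1,y3,y3,z3])],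
    .ref (nat_lit 293) k1 [(z1,[z0,z0,y1,z1]),(z1,[z0,y1,y3,y3,z3]),(z1,[z1]),(z1,[y1,z0,z1])],
    .ref (nat_lit 292) k4 [(z1,[z1,z0,y2,z1]),(z1,[z1,z0,y1]),(z1,[y3,z1,z6]),(z1,[y1,z0,z2])],.ref k43 k0 [(z1,[y1,
    z1,z1,z2]),(z1,[z1,z0,z2,y2]),(z1,[z1,z0,y1,z1]),(z1,[z0,y1,y3,y3,z3])],.ref (nat_lit 293) k1 [(z1,[z0,z0,y1,z1]),
    (z1,[z0,y1,y3,y3,z3]),(z1,[z1,z0,z1,y1]),(z1,[y1,z0,z0,z1])]]]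

noncomputable def cT6_2_n6_3 : List TN :=
  [.leafM k6 [k1,k2,k3,k4,k5,k0] [(z3,[z0,y1,y1,y3,z3])] [],
    .lp [k154,k160,k144,k174,k166,k160] [k10,k10,k7,k7,k15,k15,k0,k0,k4,k4,k7,k7] k0 [[k0,k0,k18,k0,k0,k0,k0,k10],[k0,k0,
    k0,k0,k0,k0,k0,k0,k0,k0,k6,k18],[k0,k0,k0,k0,k32,k0,k0,k0,k0,k34],[k0,k18],[k0,k0,k0,k0,k0,k0,k4,k14],[k0,k0,k0,
    k32,k0,k0,k0,k0,k0,k0,k20],[k0,k10,k0,k0,k0,k14,k0,k0,k14],[k0,k0,k0,k0,k0,k4,k0,k0,k6],[k0,k0,k0,k34,k0,k0,k0,k0,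
    k0,k0,k0,k20],[k0,k0,k0,k0,k0,k0,k6,k14],[k18,k0,k0,k0,k0,k0,k0,k0,k0,k20],[k6,k0,k0,k0,k20]] (nat_lit 480) k5
    [[(k7,k144),(k4,k149),(k3,k151),(k8,k160),(k0,k172),(k11,k177)],[(k5,k131),(k6,k154),(k2,k157),(k9,k160),(k10,
    k163),(k1,k172)],[(k10,k142),(k1,k151),(k5,k152),(k6,k167),(k9,k173),(k2,k178)],[(k8,k129),(k7,k135),(k4,k152),
    (k0,k157),(k11,k160),(k3,k178)],[(k0,k131),(k3,k152),(k8,k155),(k7,k159),(k4,k176),(k11,k186)],[(k6,k145),(k1,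
    k149),(k9,k151),(k2,k152),(k10,k172),(k5,k176)],[(k2,k135),(k1,k144),(k5,k159),(k10,k167),(k6,k178),(k9,k184)],
    [(k4,k145),(k11,k153),(k0,k154),(k3,k167),(k8,k176),(k7,k178)],[(k4,k151),(k11,k157),(k0,k160),(k3,k173),(k8,
    k180),(k7,k184)],[(k2,k129),(k10,k143),(k5,k155),(k1,k160),(k6,k176),(k9,k180)],[(k6,k153),(k9,k157),(k2,k160),
    (k10,k160),(k1,k177),(k5,k186)],[(k3,k142),(k8,k143),(k11,k160),(k0,k163),(k7,k167),(k4,k172)]]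
    [] k0
    [[k2,k0,k1,k0,k0,k0],[k2,k0,k0,k1,k0,k0],[k1,k1,k1,k0,k0,k0],[k1,k1,k0,k1,k0,k0],[k1,k1,k0,k0,k1,k0],[k1,k1,k0,k0,
    k0,k1],[k1,k0,k2,k0,k0,k0],[k1,k0,k1,k1,k0,k0],[k1,k0,k1,k0,k1,k0],[k1,k0,k0,k2,k0,k0],[k1,k0,k0,k1,k0,k1],[k0,k1,
    k1,k1,k0,k0],[k0,k1,k1,k0,k1,k0],[k0,k1,k0,k0,k1,k1],[k0,k1,k0,k1,k0,k1],[k0,k1,k0,k0,k0,k2],[k0,k0,k0,k0,k1,k2]]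
    [.ref k6 k0 [(z1,[z0,z1]),(z1,[z0,z0,z1]),(z1,[z3,y2]),(z2,[y3,z2,z0,z1,z1]),(z2,[z3,y4,y2,y3,y1,z6])],
    .ref k6 k0 [(z1,[z0,z1]),(z1,[z0,z0,z1]),(z1,[y6,z4,z0,z1,z1]),(z1,[z3,y2]),(z1,[y3,z1,y1,y1,z0,z3])],
    .ref k6 k0 [(z1,[z0,z1]),(z1,[z0,z0,z1]),(z1,[z3,y1,y1]),(z2,[y3,z1,z1,z1,z1]),(z2,[z3,y3,y3,y3,y1,z6])],
    .ref k6 k0 [(z1,[z0,z1]),(z1,[z0,z0,z1]),(z1,[y6,z2,z2,z1,z1]),(z1,[z3,y1,y1]),(z1,[y3,z0,z0,y1,z0,z3])],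
    .ref k6 k0 [(z1,[z0,z1]),(z1,[z0,z0,z1]),(z1,[z6,z0,z0,z3,z1,y6]),(z1,[y3,z0,z0,y1,z0,z3]),(z1,[z3,y1,y1])],
    .ref k6 k0 [(z1,[z0,z1]),(z1,[z0,z0,z1]),(z1,[y3,z1,z1,z1]),(z2,[z3,y1,y1,z0,z1]),(z2,[y3,y1,y1,y2,y1,z6])],
    .ref k6 k0 [(z1,[z0,z1]),(z1,[z0,z0,z1]),(z2,[z3,y1]),(z4,[y3,z1,z0,z2,z2]),(z4,[z3,y5,y4,y6,y2,z12])],
    .ref k6 k0 [(z1,[z0,z1]),(z1,[z0,z0,z1]),(z1,[z6,y2,z0,y1,y1]),(z1,[y3,z1,z0,z1,z1]),(z1,[z3,y2,y1,y2,y1,z3])],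
    .ref k6 k0 [(z1,[z0,z1]),(z1,[z0,z0,z1]),(z3,[z6,z0,z2,z3,z1,y6]),(z3,[y3,z0,y1,z0,z1,z3]),(z3,[z3,y3,y2,y3,y1,
    z6])],.ref k6 k0 [(z1,[z0,z1]),(z1,[z0,z0,z1]),(z1,[y3,z1,z0,z1,z1]),(z2,[z3,y1]),(z2,[y3,y1,y2,y2,z0,z6])],
    .ref k6 k0 [(z1,[z0,z1]),(z1,[z0,z0,z1]),(z3,[y6,z2,z0,z3,z1]),(z3,[z3,y1,z0,z0,z1]),(z3,[y3,y2,y3,y3,y1,z9])],
    .ref k6 k0 [(z1,[z0,z1]),(z1,[z0,z0,z1]),(z1,[z6,z0,y2,y1,y1]),(z1,[y3,z0,z1,z1,z1]),(z1,[z3,y1,y2,y2,y1,z3])],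
    .ref k6 k0 [(z1,[z0,z1]),(z1,[z0,z0,z1]),(z3,[z6,z2,z0,z3,z1,y6]),(z3,[y3,y1,z0,z0,z1,z3]),(z3,[z3,y2,y3,y3,y1,
    z6])],.ref k6 k0 [(z1,[z0,z1]),(z1,[z0,z0,z1]),(z1,[y6,y2,z0,y1,y1,z6]),(z1,[z3,z1,z0,z1,z1,y3]),(z1,[y3,y2,y1,y2,
    y1,z6])],.ref k6 k0 [(z1,[z0,z1]),(z1,[z0,z0,z1]),(z3,[y6,z0,z2,z3,z1]),(z3,[z3,z0,y1,z0,z1]),(z3,[y3,y3,y2,y3,y1,
    z9])],.ref k6 k0 [(z1,[z0,z1]),(z1,[z0,z0,z1]),(z2,[y3,z0,z1,z2]),(z4,[z3,z0,y1,z0,z2]),(z4,[y3,y4,y3,y4,y2,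
    z12])],.ref k6 k0 [(z1,[z0,z1]),(z1,[z0,z0,z1]),(z3,[y6,y2,y2,z1,y1,z6]),(z3,[z3,z1,z1,z1,z2,y3]),(z3,[y3,y4,y4,
    y4,y2,z12])]],
    .lp [k154,k160,k160,k146,k164,k174] [k10,k10,k7,k7,k7,k7,k14,k14,k5,k5,k0,k0] k0 [[k0,k0,k12,k0,k0,k0,k2,k2],[k0,k0,
    k0,k0,k0,k0,k0,k0,k0,k0,k6,k32],[k0,k0,k0,k0,k0,k0,k0,k0,k12,k18],[k0,k12],[k0,k0,k0,k0,k0,k0,k0,k26,k0,k0,k8],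
    [k0,k0,k0,k0,k0,k0,k0,k14],[k0,k2,k0,k0,k14,k26],[k0,k2,k0,k0,k0,k0,k0,k0,k18],[k0,k0,k0,k18,k0,k0,k0,k0,k0,k0,k0,
    k4],[k0,k0,k0,k12,k0,k0,k18],[k32,k0,k0,k0,k0,k0,k0,k0,k0,k4],[k6,k0,k0,k0,k0,k8]] (nat_lit 480) k5
    [[(k4,k149),(k7,k150),(k3,k151),(k8,k159),(k11,k168),(k0,k186)],[(k5,k145),(k6,k148),(k2,k157),(k9,k157),(k10,
    k170),(k1,k186)],[(k10,k135),(k1,k151),(k6,k155),(k5,k160),(k9,k164),(k2,k172)],[(k8,k144),(k7,k153),(k11,k155),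
    (k0,k157),(k4,k160),(k3,k172)],[(k0,k145),(k7,k153),(k3,k160),(k4,k160),(k8,k174),(k11,k185)],[(k6,k127),(k1,
    k149),(k2,k160),(k5,k160),(k10,k167),(k9,k176)],[(k6,k132),(k1,k150),(k2,k153),(k5,k153),(k10,k168),(k9,k181)],
    [(k4,k127),(k7,k132),(k0,k148),(k3,k155),(k11,k160),(k8,k173)],[(k11,k151),(k0,k157),(k3,k164),(k8,k164),(k4,
    k176),(k7,k181)],[(k2,k144),(k1,k159),(k9,k164),(k10,k165),(k6,k173),(k5,k174)],[(k9,k151),(k2,k155),(k6,k160),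
    (k1,k168),(k10,k174),(k5,k185)],[(k3,k135),(k8,k165),(k4,k167),(k7,k168),(k0,k170),(k11,k174)]]
    [] k0
    [[k1,k1,k1,k0,k0,k0],[k1,k1,k0,k1,k0,k0],[k1,k1,k0,k0,k1,k0],[k1,k1,k0,k0,k0,k1],[k1,k0,k2,k0,k0,k0],[k1,k0,k1,k1,
    k0,k0],[k1,k0,k0,k2,k0,k0],[k0,k2,k0,k0,k0,k1],[k0,k1,k1,k1,k0,k0],[k0,k1,k0,k2,k0,k0],[k0,k1,k0,k1,k0,k1],[k0,k1,
    k0,k0,k2,k0],[k0,k1,k0,k0,k1,k1],[k0,k1,k0,k0,k0,k2],[k0,k0,k2,k1,k0,k0],[k0,k0,k1,k2,k0,k0],[k0,k0,k0,k3,k0,k0],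
    [k0,k0,k0,k2,k0,k1]]
    [.ref k43 k7 [(z1,[y3,z1,z1,z1]),(z1,[z0,z1]),(z1,[z0,z0,z1]),(z1,[z3,y1,y1])],.ref k17 k0 [(z1,[z0,z1]),(z1,[z0,
    z0,z1]),(z1,[z0,z0,z0,z1]),(z1,[z3,y1,y1])],.ref k17 k0 [(z1,[z0,z1]),(z1,[z0,z0,z1]),(z1,[z0,z0,z0,z1]),(z1,[y3,
    z0,z0,y1,z3])],.ref k43 k7 [(z1,[z3,y1,y1]),(z1,[z0,z1]),(z1,[z0,z0,z1]),(z1,[y3,z1,z1,z1])],.ref k43 k7 [(z2,[y3,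
    z1,z0,z2]),(z1,[z0,z1]),(z1,[z0,z0,z1]),(z2,[z3,y1])],.ref (nat_lit 295) k0 [(z1,[z0,z1]),(z1,[z0,z0,z1]),(z1,[z0,
    z0,z0,z1]),(z3,[z3,y1,z0,y1])],.ref k17 k0 [(z1,[z0,z1]),(z1,[z0,z0,z1]),(z1,[z0,z0,z0,z1]),(z2,[z3,y1])],
    .ref k43 k7 [(z1,[z3,z0,y2]),(z1,[z0,z1]),(z1,[z0,z0,z1]),(z1,[y3,z0,z2,z1])],.ref (nat_lit 295) k0 [(z1,[z0,z1]),
    (z1,[z0,z0,z1]),(z1,[z0,z0,z0,z1]),(z3,[z3,z0,y1,y1])],.ref k17 k0 [(z1,[z0,z1]),(z1,[z0,z0,z1]),(z1,[z0,z0,z0,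
    z1]),(z2,[z3,z0,y1])],.ref (nat_lit 267) k7 [(z3,[z3,z1,z0,z1,y3]),(z1,[z0,z1]),(z1,[z0,z0,z1]),(z1,[y3,y1,z0,z0,
    z3])],.ref k17 k0 [(z1,[z0,z1]),(z1,[z0,z0,z1]),(z1,[z0,z0,z0,z1]),(z2,[y3,y2,y1,y2,z6])],
    .ref (nat_lit 295) k0 [(z1,[z0,z1]),(z1,[z0,z0,z1]),(z1,[z0,z0,z0,z1]),(z3,[y3,y1,z0,y1,z3])],.ref k43 k7 [(z2,
    [z3,z0,y1]),(z1,[z0,z1]),(z1,[z0,z0,z1]),(z2,[y3,z0,z1,z2])],.ref (nat_lit 266) k0 [(z1,[z0,z1]),(z1,[z0,z0,z1]),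
    (z1,[z0,z0,z0,z1]),(z1,[z3,z0,z0,y2])],.ref (nat_lit 296) k0 [(z1,[z0,z1]),(z1,[z0,z0,z1]),(z1,[z0,z0,z0,z1]),(z1,
    [z3,z0,z0,y1])],.ref k17 k0 [(z1,[z0,z1]),(z1,[z0,z0,z1]),(z1,[z0,z0,z0,z1]),(z1,[z1])],.ref k121 k7 [(z1,[z3,z2,
    z2,z2,y6]),(z1,[z0,z1]),(z1,[z0,z0,z1]),(z3,[y3,y2,y2,y1,z6])]],
    .lp [(nat_lit 588),(nat_lit 614),(nat_lit 646),(nat_lit 604),(nat_lit 718),(nat_lit 666)] [k65,k65,k52,k52,k36,k36,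
    k57,k57,k0,k0,k26,k26] k0 [[k0,k0,k106,k2],[],[k0,k2,k0,k0,k18,k6],[k0,k106],[k0,k0,k0,k6,k0,k0,k0,k0,k0,k0,k32],
    [k0,k0,k0,k18,k0,k0,k0,k48],[k0,k0,k0,k0,k48],[k0,k0,k0,k0,k0,k0,k0,k0,k42,k62],[k0,k0,k0,k0,k0,k0,k62,k0,k0,k0,
    k0,k78],[k0,k0,k0,k0,k0,k0,k42,k0,k0,k0,k0,k26],[k0,k0,k0,k0,k0,k0,k0,k0,k26,k78],[k0,k0,k0,k0,k0,
    k32]] (nat_lit 1920) k5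
    [[(k4,(nat_lit 585)),(k0,(nat_lit 588)),(k7,(nat_lit 596)),(k3,(nat_lit 601)),(k8,(nat_lit 679)),(k11,
    (nat_lit 705))],[(k5,(nat_lit 511)),(k1,(nat_lit 588)),(k6,(nat_lit 596)),(k2,(nat_lit 599)),(k10,(nat_lit 627)),
    (k9,(nat_lit 653))],[(k1,(nat_lit 601)),(k6,(nat_lit 609)),(k5,(nat_lit 632)),(k10,(nat_lit 640)),(k9,
    (nat_lit 666)),(k2,(nat_lit 720))],[(k7,(nat_lit 591)),(k0,(nat_lit 599)),(k4,(nat_lit 624)),(k11,(nat_lit 640)),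
    (k8,(nat_lit 666)),(k3,(nat_lit 720))],[(k0,(nat_lit 511)),(k7,(nat_lit 631)),(k3,(nat_lit 632)),(k11,
    (nat_lit 656)),(k4,(nat_lit 664)),(k8,(nat_lit 682))],[(k1,(nat_lit 585)),(k2,(nat_lit 624)),(k6,(nat_lit 625)),
    (k10,(nat_lit 656)),(k5,(nat_lit 664)),(k9,(nat_lit 730))],[(k6,(nat_lit 556)),(k2,(nat_lit 591)),(k1,
    (nat_lit 596)),(k5,(nat_lit 631)),(k9,(nat_lit 661)),(k10,(nat_lit 667))],[(k7,(nat_lit 556)),(k0,(nat_lit 596)),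
    (k3,(nat_lit 609)),(k4,(nat_lit 625)),(k11,(nat_lit 697)),(k8,(nat_lit 703))],[(k11,(nat_lit 650)),(k0,
    (nat_lit 653)),(k8,(nat_lit 656)),(k7,(nat_lit 661)),(k3,(nat_lit 666)),(k4,(nat_lit 730))],[(k10,(nat_lit 614)),
    (k9,(nat_lit 656)),(k2,(nat_lit 666)),(k1,(nat_lit 679)),(k5,(nat_lit 682)),(k6,(nat_lit 703))],[(k2,
    (nat_lit 640)),(k10,(nat_lit 640)),(k9,(nat_lit 650)),(k5,(nat_lit 656)),(k6,(nat_lit 697)),(k1,(nat_lit 705))],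
    [(k8,(nat_lit 614)),(k0,(nat_lit 627)),(k3,(nat_lit 640)),(k11,(nat_lit 640)),(k4,(nat_lit 656)),(k7,
    (nat_lit 667))]]
    [] k0
    [[k3,k0,k0,k0,k0,k0],[k2,k1,k0,k0,k0,k0],[k2,k0,k1,k0,k0,k0],[k2,k0,k0,k1,k0,k0],[k1,k1,k1,k0,k0,k0],[k1,k1,k0,k1,
    k0,k0],[k1,k1,k0,k0,k0,k1],[k1,k0,k2,k0,k0,k0],[k1,k0,k1,k1,k0,k0],[k1,k0,k1,k0,k0,k1],[k1,k0,k0,k2,k0,k0],[k0,k1,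
    k1,k1,k0,k0],[k0,k1,k0,k2,k0,k0],[k0,k1,k0,k1,k0,k1],[k0,k0,k1,k2,k0,k0],[k0,k0,k0,k3,k0,k0],[k0,k0,k0,k0,k1,k2]]
    [.ref k6 k0 [(z1,[z1]),(z1,[y1,z1,z3]),(z1,[z1,y1,z0,z1]),(z2,[y3,z3,z0,z0,z2]),(z1,[z0,y1,y3,y1,y1,z3])],
    .ref k6 k0 [(z1,[z3,y1,y3]),(z1,[y3,z2,z6]),(z1,[z3,y2,y3,z1]),(z2,[y9,z6,z9,z0,z2]),(z1,[z0,y1,y3,y1,y1,z3])],
    .ref k6 k0 [(z3,[z3,z1,z0,y1]),(z3,[y3,z2,z9,z1]),(z3,[z3,y2,z0,z2]),(z2,[y3,z2,z0,z1,z2]),(z1,[z0,y1,y3,y1,y1,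
    z3])],.ref k6 k0 [(z1,[z6,y3,z0,z0,y2]),(z1,[y6,z4,z3,z0,z2]),(z1,[z6,y4,z0,z1,y2]),(z1,[y9,z6,z0,z0,z4]),(z1,[z0,
    y1,y3,y1,y1,z3])],.ref k6 k0 [(z1,[z3,z0,y3,y1]),(z1,[y3,z1,z6,z1]),(z1,[z3,y1,y3]),(z2,[y9,z3,z9,z3,z2]),(z1,[z0,
    y1,y3,y1,y1,z3])],.ref k6 k0 [(z3,[y6,z5,z6,z0,z2]),(z3,[z6,y2,z3,z0,y2]),(z3,[y6,z2,z6,z3,z2]),(z1,[z3,y1,y3]),
    (z1,[z0,y1,y3,y1,y1,z3])],.ref k6 k0 [(z1,[z6,y1,y6]),(z1,[y6,z2,z9]),(z1,[z6,y2,y6,z1]),(z1,[y9,z3,z9,z0,z1]),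
    (z1,[z0,y1,y3,y1,y1,z3])],.ref k6 k0 [(z3,[z3,z2,z0,y2]),(z3,[y3,z1,z9,z2]),(z3,[z3,y1,z0,z1]),(z2,[y3,z1,z0,z2,
    z2]),(z1,[z0,y1,y3,y1,y1,z3])],.ref k6 k0 [(z1,[z6,y1,z0,y2,y2]),(z1,[y6,z2,z3,z2,z2]),(z1,[z6,y2,z0,y1,y2]),(z1,
    [y9,z3,z0,z3,z4]),(z1,[z0,y1,y3,y1,y1,z3])],.ref k6 k0 [(z5,[z6,z3,z0,y2]),(z5,[y6,z2,z15,z2]),(z5,[z6,y2,z0,z3]),
    (z5,[y9,z3,z0,z3,z5]),(z1,[z0,y1,y3,y1,y1,z3])],.ref k6 k0 [(z2,[y3,z3,z0,z0,z2]),(z2,[z3,y1,z6,z0,y2]),(z2,[y3,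
    z1,z0,z2,z2]),(z4,[z9,y3,z0,z0,y2]),(z1,[z0,y1,y3,y1,y1,z3])],.ref k6 k0 [(z3,[y6,z3,z6,z2,z2]),(z3,[z6,z0,z3,y2,
    y2]),(z3,[y6,z0,z6,z5,z2]),(z1,[z3,z0,y3,y1]),(z1,[z0,y1,y3,y1,y1,z3])],.ref k6 k0 [(z4,[y3,z4,z3,z0,z2]),(z4,[z3,
    z0,z9,z0,y2]),(z4,[y3,z0,z3,z4,z2]),(z8,[z9,z0,y9,z0,z2]),(z1,[z0,y1,y3,y1,y1,z3])],.ref k6 k0 [(z2,[y3,z2,z3,z0,
    z1]),(z2,[z3,z0,z3,z0,y1]),(z2,[y3,z0,z3,z2,z1]),(z4,[z9,z0,y9,z0,z1]),(z1,[z0,y1,y3,y1,y1,z3])],.ref k6 k0 [(z2,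
    [y3,z2,z0,z1,z2]),(z2,[z3,z0,z6,y1,y2]),(z2,[y3,z0,z0,z3,z2]),(z4,[z9,z0,z0,y3,y2]),(z1,[z0,y1,y3,y1,y1,z3])],
    .ref k6 k0 [(z3,[y2,z3,z0,z0,z2]),(z3,[z2,z0,z9,z0,y2]),(z3,[y2,z0,z0,z3,z2]),(z1,[z1]),(z1,[z0,y1,y3,y1,y1,z3])],
    .ref k6 k0 [(z1,[z3,z2,z3,z1,z1,y3]),(z1,[y3,y1,z0,y1,y1,z3]),(z1,[z3,z1,z3,z2,z1,y3]),(z2,[y9,y3,y9,y3,y1,z9]),
    (z1,[z0,y1,y3,y1,y1,z3])]],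
    .tor k9 false k2 [(z1,[z2,z0,z0,z1]),(z1,[y1,y1,z0,z0,z1]),(z1,[y1,z0,z0,y1,z1]),(z1,[z0,z1])],
    .lp [k80,k64,k88,k76,k84,k86] [k4,k4,k4,k20,k0,k0,k6,k6,k2,k2,k1,k1] k0 [[k0,k0,k0,k20],[],[k0,k20],[k0,k0,k0,k0,k4,
    k0,k0,k0,k2],[k0,k0,k0,k0,k0,k0,k0,k8,k0,k0,k0,k8],[k0,k0,k4],[k0,k0,k0,k0,k0,k8,k0,k0,k0,k4],[k0,k0,k0,k0,k0,k0,
    k0,k0,k0,k2],[k0,k0,k0,k0,k0,k0,k2,k4,k0,k0,k4],[k0,k0,k2,k0,k0,k0,k0,k0,k0,k0,k6],[k0,k0,k0,k0,k0,k8],[k0,k0,k0,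
    k0,k0,k0,k0,k0,k6,k4]] (nat_lit 240) k5
    [[(k3,k64),(k11,k77),(k8,k78),(k0,k80),(k4,k84),(k7,k86)],[(k2,k60),(k6,k78),(k1,k80),(k9,k82),(k10,k83),(k5,
    k84)],[(k6,k62),(k1,k64),(k2,k64),(k9,k66),(k10,k67),(k5,k88)],[(k0,k60),(k3,k64),(k7,k78),(k11,k83),(k8,k84),(k4,
    k88)],[(k7,k78),(k0,k84),(k11,k85),(k8,k86),(k3,k88),(k4,k88)],[(k6,k74),(k10,k79),(k1,k84),(k9,k86),(k2,k88),(k5,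
    k88)],[(k6,k76),(k2,k78),(k5,k78),(k10,k81),(k1,k86),(k9,k88)],[(k3,k62),(k4,k74),(k7,k76),(k8,k76),(k0,k78),(k11,
    k83)],[(k3,k66),(k0,k82),(k8,k82),(k4,k86),(k7,k88),(k11,k89)],[(k6,k76),(k1,k78),(k9,k82),(k2,k84),(k5,k86),(k10,
    k91)],[(k1,k77),(k2,k83),(k6,k83),(k5,k85),(k9,k89),(k10,k90)],[(k3,k67),(k4,k79),(k7,k81),(k0,k83),(k11,k90),(k8,
    k91)]]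
    [] k0
    [[k2,k1,k0,k0,k0,k0],[k1,k2,k0,k0,k0,k0],[k1,k1,k1,k0,k0,k0],[k1,k1,k0,k1,k0,k0],[k1,k1,k0,k0,k1,k0],[k1,k1,k0,k0,
    k0,k1],[k1,k0,k0,k1,k0,k1],[k0,k3,k0,k0,k0,k0],[k0,k2,k0,k1,k0,k0],[k0,k2,k0,k0,k1,k0],[k0,k2,k0,k0,k0,k1],[k0,k1,
    k1,k1,k0,k0],[k0,k1,k0,k2,k0,k0],[k0,k1,k0,k1,k1,k0],[k0,k1,k0,k1,k0,k1],[k0,k1,k0,k0,k2,k0],[k0,k0,k1,k2,k0,k0],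
    [k0,k0,k0,k3,k0,k0]]
    [.ref (nat_lit 295) k0 [(z1,[z0,z1]),(z1,[z3,y2]),(z1,[y3,z2,z3,z3]),(z1,[z1,y1,y2,y1,z1])],
    .ref (nat_lit 295) k0 [(z1,[z0,z1]),(z2,[z3,y1]),(z2,[y3,z1,z6,z6]),(z2,[z1,y1,y4,y2,z2])],
    .ref (nat_lit 295) k7 [(z1,[y3,z1,z3,z3]),(z1,[z0,z1]),(z1,[z3,y1,z0,y3]),(z1,[z0,z0,z0,z1])],
    .ref (nat_lit 293) k10 [(z1,[z1,z0,z1,z0,y1]),(z1,[z0,z1]),(z1,[y1,z0,z0,z1,z1]),(z1,[z0,z0,z0,y1])],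
    .ref (nat_lit 295) k7 [(z1,[y3,z1,z3]),(z1,[z0,z1]),(z1,[z3,y1]),(z1,[z0,z0,z0,z1])],.ref k5 k1 [(z1,[y3,z1,z3,
    z3]),(z1,[z3,y2,y6,y3,z3]),(z1,[y3,z1,z3]),(z1,[z3,y1])],.ref (nat_lit 293) k7 [(z1,[z1,z0,z1,z1,y1]),(z1,[z0,
    z1]),(z1,[y1,z0,z0,y1,z1]),(z1,[z0,z0,z0,z1])],.ref (nat_lit 295) k0 [(z1,[z0,z1]),(z1,[z1]),(z1,[y1,z0,z3,z3]),
    (z3,[z1,y1,y6,y3,z3])],.ref (nat_lit 298) k1 [(z1,[y3,y1,y3,z0,z3]),(z1,[z1]),(z1,[y3,y1,y3,y3,z3]),(z1,[z3,z1,z6,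
    z3,y3])],.ref (nat_lit 299) k2 [(z1,[z1,z0,y1]),(z1,[y1,z0,z2,z1]),(z1,[z3,y1,y9,y3,z3]),(z1,[y1,z0,z2])],
    .ref (nat_lit 293) k10 [(z1,[z1,z0,y1,y1]),(z1,[z0,z1]),(z1,[y1,z0,z2,z2]),(z1,[z0,z0,z0,y1])],
    .ref (nat_lit 295) k0 [(z1,[z0,z1]),(z1,[z3,z1,z3,z0,y3]),(z1,[y3,y1,z0,z3,z3]),(z1,[z1,z0,y1,y1])],
    .ref k139 k10 [(z1,[z3,z2,z6,z0,y6]),(z1,[z0,z1]),(z1,[y3,y2,y3,z3,z6]),(z1,[z0,z0,z0,y1])],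
    .ref (nat_lit 295) k0 [(z1,[z0,z1]),(z1,[z3,z1,z3,z3,y3]),(z1,[y3,y1,z0,z0,z3]),(z1,[z1,z0,y1])],.ref k5 k1 [(z2,
    [y3,y1,z0,z3,z3]),(z2,[z3,y1,y6,y3,z3]),(z2,[y3,y1,z0,y3,z3]),(z2,[z3,z1,z6,z3,y3])],.ref (nat_lit 293) k7 [(z1,
    [y1,z0,z1]),(z1,[z0,z1]),(z1,[z1]),(z1,[z0,z0,z0,z1])],.ref k5 k1 [(z1,[y3,y2,y6,z0,z6]),(z1,[z3,z1,z3,z0,y3]),
    (z1,[y3,y2,y6,y3,z6]),(z1,[z3,z2,z9,z3,y6])],.ref k5 k1 [(z1,[y1,y1,y3,z0,z3]),(z1,[z1]),(z1,[y1,y1,y3,y3,z3]),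
    (z1,[z1,z1,z6,z3,y3])]],
    .tor k2 false k2 [(z1,[z0,z0,z1]),(z1,[z1,z0,z1]),(z1,[y1,z0,y1,z1]),(z1,[z0,z0,y1,z1])],
    .leafM k1 [k0,k1,k2,k3,k4,k5] [(z1,[z0,z1]),(z1,[z0,y1,z0,z1])] [],
    .leafM k6 [k1,k2,k3,k4,k5,k0] [(z3,[z0,y1,y1,z3])] [],
    .leafM k1 [k0,k1,k2,k3,k4,k5] [(z3,[z0,z1,z0,z1]),(z3,[z0,y1,z0,y1,z3])] [],
    .lp [(nat_lit 340),(nat_lit 292),(nat_lit 336),(nat_lit 344),(nat_lit 348),(nat_lit 354)] [k7,k7,k31,k31,k9,k9,k5,k5,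
    k3,k3,k0,k0] k0 [[k0,k0,k0,k0,k0,k0,k16,k24,k0,k0,k0,k26],[k0,k0,k62,k4],[k4,k0,k0,k0,k0,k12],[k62,k0,k0,k0,k0,k0,
    k0,k0,k18],[k0,k0,k0,k12,k0,k0,k12,k8],[],[k0,k24,k0,k0,k0,k8],[k0,k16,k0,k0,k0,k12],[k0,k0,k0,k0,k0,k0,k0,k0,k0,
    k0,k8],[k0,k0,k18],[k0,k26],[k0,k0,k0,k0,k0,k0,k0,k0,k0,k8]] (nat_lit 1008) k5
    [[(k8,(nat_lit 336)),(k4,(nat_lit 338)),(k0,(nat_lit 340)),(k3,(nat_lit 342)),(k7,(nat_lit 342)),(k11,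
    (nat_lit 347))],[(k6,(nat_lit 318)),(k10,(nat_lit 321)),(k9,(nat_lit 328)),(k1,(nat_lit 340)),(k5,(nat_lit 342)),
    (k2,(nat_lit 378))],[(k5,(nat_lit 252)),(k2,(nat_lit 288)),(k10,(nat_lit 323)),(k6,(nat_lit 334)),(k1,
    (nat_lit 342)),(k9,(nat_lit 344))],[(k3,(nat_lit 288)),(k4,(nat_lit 302)),(k7,(nat_lit 318)),(k11,(nat_lit 323)),
    (k8,(nat_lit 338)),(k0,(nat_lit 378))],[(k3,(nat_lit 252)),(k11,(nat_lit 327)),(k4,(nat_lit 336)),(k0,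
    (nat_lit 342)),(k8,(nat_lit 342)),(k7,(nat_lit 352))],[(k2,(nat_lit 302)),(k9,(nat_lit 330)),(k6,(nat_lit 332)),
    (k5,(nat_lit 336)),(k1,(nat_lit 338)),(k10,(nat_lit 345))],[(k2,(nat_lit 318)),(k1,(nat_lit 342)),(k10,
    (nat_lit 349)),(k5,(nat_lit 352)),(k9,(nat_lit 354)),(k6,(nat_lit 356))],[(k0,(nat_lit 318)),(k4,(nat_lit 332)),
    (k3,(nat_lit 334)),(k8,(nat_lit 346)),(k11,(nat_lit 349)),(k7,(nat_lit 356))],[(k0,(nat_lit 328)),(k4,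
    (nat_lit 330)),(k3,(nat_lit 344)),(k8,(nat_lit 348)),(k11,(nat_lit 351)),(k7,(nat_lit 354))],[(k1,(nat_lit 336)),
    (k2,(nat_lit 338)),(k5,(nat_lit 342)),(k6,(nat_lit 346)),(k9,(nat_lit 348)),(k10,(nat_lit 351))],[(k2,
    (nat_lit 323)),(k5,(nat_lit 327)),(k1,(nat_lit 347)),(k6,(nat_lit 349)),(k9,(nat_lit 351)),(k10,(nat_lit 362))],
    [(k0,(nat_lit 321)),(k3,(nat_lit 323)),(k4,(nat_lit 345)),(k7,(nat_lit 349)),(k8,(nat_lit 351)),(k11,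
    (nat_lit 362))]]
    [] k0
    [[k2,k0,k0,k1,k0,k0],[k2,k0,k0,k0,k1,k0],[k1,k1,k1,k0,k0,k0],[k1,k1,k0,k1,k0,k0],[k1,k1,k0,k0,k0,k1],[k1,k0,k1,k0,
    k0,k1],[k0,k3,k0,k0,k0,k0],[k0,k2,k1,k0,k0,k0],[k0,k2,k0,k1,k0,k0],[k0,k2,k0,k0,k1,k0],[k0,k2,k0,k0,k0,k1],[k0,k1,
    k2,k0,k0,k0],[k0,k1,k1,k1,k0,k0],[k0,k1,k1,k0,k1,k0],[k0,k1,k1,k0,k0,k1],[k0,k1,k0,k1,k0,k1]]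
    [.ref k17 k7 [(z1,[z0,y1,y1,y1,z3]),(z5,[z6,z1]),(z5,[y6,z4,z5]),(z5,[y3,z2,z0,z5])],.ref k10 k3 [(z3,[z3,y1,y1]),
    (z1,[z0,y1,y1,y1,z3]),(z3,[y3,z2,z2]),(z1,[z3,y2,y1])],.ref (nat_lit 304) k1 [(z3,[y3,z1,z0,z2]),(z1,[z3,y1,z0,
    y1]),(z3,[y6,z2,z1,z2]),(z1,[z0,y1,y1,y1,z3])],.ref k30 k0 [(z1,[z6,y1,y2]),(z1,[y6,z2,z3]),(z1,[y3,z1,z1,z1]),
    (z3,[z3,y1,y1])],.ref (nat_lit 236) k0 [(z1,[z0,z1]),(z3,[z3,z0,z1,z1,y3]),(z1,[z0,z0,z0,z1]),(z1,[y3,z0,z0,y1,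
    z3])],.ref k17 k7 [(z1,[z0,y1,y1,y1,z3]),(z1,[z6,z1,z2,z0,y6]),(z1,[y6,z0,y1,z0,z6]),(z1,[y3,z0,y1,z1,z3])],
    .ref k125 k2 [(z1,[z1]),(z3,[z0,z1,z0,z2]),(z1,[z0,y1]),(z1,[y1,z1,z1])],.ref (nat_lit 274) k3 [(z3,[y6,z1,z0,
    z2]),(z1,[z0,y1,y1,y1,z3]),(z3,[z6,z0,z1,y2]),(z1,[y3,z0,z0,z1])],.ref (nat_lit 204) k1 [(z1,[y3,z0,z0,z1]),(z1,
    [z1]),(z1,[y6,z0,z1]),(z1,[z0,y1,y1,y1,z3])],.ref k10 k3 [(z3,[y3,z1,z1]),(z1,[z0,y1,y1,y1,z3]),(z1,[z1]),(z1,[y3,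
    z0,z1])],.ref k125 k2 [(z2,[z3,z1,z1,z1,y3]),(z3,[z0,z1,z0,z2]),(z1,[z0,y1]),(z2,[y3,z1,z1,y1,z3])],
    .ref k10 k3 [(z3,[y3,z1,z0,z2]),(z1,[z0,y1,y1,y1,z3]),(z3,[z3,z0,z1,y2]),(z1,[y3,z0,z0,z2])],.ref k125 k2 [(z1,
    [z3,z0,z0,y1]),(z3,[z0,z1,z0,z2]),(z1,[z0,y1]),(z1,[y3,z1,z1,z1])],.ref k17 k7 [(z1,[z0,y1,y1,y1,z3]),(z3,[y6,z3,
    z2,z2]),(z3,[z6,z0,z1,y2]),(z3,[z3,z0,y1,z2])],.ref k139 k3 [(z1,[y6,y1,y2,z0,z6]),(z1,[z0,y1,y1,y1,z3]),(z1,[z6,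
    z2,z3,z0,y6]),(z3,[y3,y1,y1,z0,z3])],.ref (nat_lit 304) k1 [(z3,[y3,y1,y1,z0,z3]),(z1,[z3,z1,z1,z1,y3]),(z3,[y6,
    y2,y1,y2,z6]),(z1,[z0,y1,y1,y1,z3])]],
    .leafM k6 [k0,k1,k2,k3,k4,k5] [(z3,[y1,y3,y1,z3])] []]

noncomputable def cT6_2_n6_4 : List TN :=
  [.lp [(nat_lit 640),(nat_lit 642),(nat_lit 648),(nat_lit 608),(nat_lit 648),(nat_lit 650)] [k5,k5,k4,k4,k1,k1,k21,k21,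
    k1,k1,k0,k0] k0 [[k0,k0,k0,k0,k0,k0,k68,k54],[k0,k0,k4,k8],[k8,k0,k0,k0,k32,k0,k0,k0,k0,k20],[k4],[k0,k0,k0,k0,k0,
    k0,k56,k0,k0,k0,k0,k16],[k0,k0,k0,k32,k0,k0,k0,k0,k0,k0,k0,k78],[k0,k54,k0,k0,k0,k0,k0,k0,k32],[k0,k68,k0,k0,k0,
    k56],[k0,k0,k0,k20,k0,k0,k0,k0,k0,k0,k122],[k0,k0,k0,k0,k0,k0,k0,k32,k0,k0,k10],[k0,k0,k0,k0,k78,k16],[k0,k0,k0,
    k0,k0,k0,k0,k0,k10,k122]] (nat_lit 1920) k5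
    [[(k8,(nat_lit 522)),(k11,(nat_lit 635)),(k0,(nat_lit 640)),(k7,(nat_lit 640)),(k3,(nat_lit 641)),(k4,
    (nat_lit 722))],[(k6,(nat_lit 570)),(k9,(nat_lit 576)),(k1,(nat_lit 640)),(k2,(nat_lit 645)),(k10,(nat_lit 645)),
    (k5,(nat_lit 652))],[(k2,(nat_lit 634)),(k1,(nat_lit 641)),(k5,(nat_lit 641)),(k10,(nat_lit 646)),(k6,
    (nat_lit 693)),(k9,(nat_lit 699))],[(k7,(nat_lit 593)),(k8,(nat_lit 625)),(k3,(nat_lit 634)),(k0,(nat_lit 645)),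
    (k4,(nat_lit 645)),(k11,(nat_lit 646))],[(k7,(nat_lit 628)),(k3,(nat_lit 641)),(k8,(nat_lit 648)),(k0,
    (nat_lit 652)),(k11,(nat_lit 669)),(k4,(nat_lit 680))],[(k9,(nat_lit 592)),(k6,(nat_lit 628)),(k10,(nat_lit 633)),
    (k2,(nat_lit 645)),(k5,(nat_lit 680)),(k1,(nat_lit 722))],[(k10,(nat_lit 551)),(k2,(nat_lit 593)),(k5,
    (nat_lit 628)),(k9,(nat_lit 628)),(k1,(nat_lit 640)),(k6,(nat_lit 664))],[(k0,(nat_lit 570)),(k11,(nat_lit 597)),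
    (k4,(nat_lit 628)),(k8,(nat_lit 628)),(k7,(nat_lit 664)),(k3,(nat_lit 693))],[(k0,(nat_lit 576)),(k4,
    (nat_lit 592)),(k7,(nat_lit 628)),(k11,(nat_lit 649)),(k8,(nat_lit 680)),(k3,(nat_lit 699))],[(k1,(nat_lit 522)),
    (k2,(nat_lit 625)),(k6,(nat_lit 628)),(k5,(nat_lit 648)),(k10,(nat_lit 659)),(k9,(nat_lit 680))],[(k6,
    (nat_lit 597)),(k1,(nat_lit 635)),(k2,(nat_lit 646)),(k9,(nat_lit 649)),(k5,(nat_lit 669)),(k10,(nat_lit 772))],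
    [(k7,(nat_lit 551)),(k4,(nat_lit 633)),(k0,(nat_lit 645)),(k3,(nat_lit 646)),(k8,(nat_lit 659)),(k11,
    (nat_lit 772))]]
    [] k0
    [[k2,k0,k0,k1,k0,k0],[k2,k0,k0,k0,k1,k0],[k1,k1,k0,k1,k0,k0],[k1,k1,k0,k0,k1,k0],[k1,k0,k0,k2,k0,k0],[k1,k0,k0,k1,
    k1,k0],[k1,k0,k0,k1,k0,k1],[k1,k0,k1,k0,k1,k0],[k1,k0,k0,k0,k2,k0],[k1,k0,k0,k0,k1,k1],[k0,k3,k0,k0,k0,k0],[k0,k1,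
    k1,k1,k0,k0],[k0,k1,k1,k0,k1,k0],[k0,k1,k0,k1,k0,k1],[k0,k0,k1,k1,k1,k0],[k0,k0,k1,k1,k0,k1],[k0,k0,k0,k2,k0,k1],
    [k0,k0,k0,k1,k1,k1]]
    [.ref k167 k9 [(z1,[z3,y2]),(z1,[y3,z1,y3,z3]),(z1,[z0,z0,z1])],.ref k41 k3 [(z1,[z0,z1]),(z1,[y3,z2,z3]),(z1,[z3,
    y2])],.ref (nat_lit 294) k9 [(z1,[z3,y1,y3]),(z1,[y1,z0,z0,z1]),(z1,[z0,z0,z1])],.ref (nat_lit 297) k7 [(z1,[y3,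
    z1,z3]),(z1,[z0,z1]),(z1,[z3,y1])],.ref k167 k9 [(z2,[z3,y1]),(z2,[y3,y1,y6,z6]),(z1,[z0,z0,z1])],
    .ref (nat_lit 300) k0 [(z1,[z0,z1]),(z1,[z0,z0,z1]),(z1,[y1,z0,y1,z1])],.ref (nat_lit 301) k1 [(z1,[y1,z0,y1,z1]),
    (z1,[z3,y1]),(z1,[z0,z0,z1])],.ref (nat_lit 302) k1 [(z1,[z3,y1,y3]),(z1,[y1,z0,z0,z1]),(z1,[z0,z0,z1])],
    .ref k41 k3 [(z1,[z0,z1]),(z2,[y3,z1,z6]),(z2,[z3,y1])],.ref (nat_lit 303) k0 [(z1,[z0,z1]),(z1,[y3,z1,z3]),(z1,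
    [z0,y1,y3,z3])],.ref (nat_lit 303) k0 [(z1,[z0,z1]),(z1,[z1]),(z1,[z0,y1,y3,z3])],.ref (nat_lit 303) k0 [(z1,[z0,
    z1]),(z1,[z3,z1,z3,y3]),(z1,[z0,y1,y3,z3])],.ref (nat_lit 301) k1 [(z1,[z1,z0,y1]),(z1,[y3,y1,z0,z3]),(z1,[z0,z0,
    z1])],.ref (nat_lit 302) k1 [(z1,[y3,y1,y3,z3]),(z1,[z1]),(z1,[z0,z0,z1])],.ref k41 k3 [(z1,[z0,z1]),(z1,[y3,y1,
    z0,z3]),(z1,[z3,z1,z3,y3])],.ref (nat_lit 297) k7 [(z1,[z3,z1,z3,y3]),(z1,[z0,z1]),(z1,[y3,y1,z0,z3])],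
    .ref (nat_lit 305) k11 [(z1,[z3,z2,z6,y6]),(z1,[y3,y2,y3,z6]),(z1,[z0,y1,y3,z3])],.ref (nat_lit 306) k0 [(z1,[z0,
    z1]),(z1,[z0,z0,z1]),(z1,[y3,y1,y3,z3])]],
    .lp [k156,k148,k170,k144,k170,k170] [k7,k7,k11,k11,k0,k0,k13,k13,k0,k0,k0,k0] k0 [[k0,k0,k0,k0,k0,k0,k0,k14,k0,k0,k6],
    [k0,k0,k28],[k0,k0,k0,k0,k0,k14],[k28,k0,k0,k0,k0,k0,k0,k0,k0,k4],[k0,k0,k0,k14,k0,k0,k26,k18],[k0,k0,k0,k0,k0,k0,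
    k0,k0,k0,k0,k16,k4],[k0,k14,k0,k0,k0,k18],[k0,k0,k0,k0,k0,k26,k0,k0,k26],[k0,k0,k4,k0,k0,k0,k0,k0,k0,k0,k0,k4],
    [k0,k0,k0,k0,k0,k0,k26,k0,k0,k0,k0,k10],[k0,k0,k0,k0,k4,k0,k0,k0,k10,k4],[k0,k6,k0,k0,k16]] (nat_lit 480) k5
    [[(k7,k134),(k0,k150),(k3,k152),(k4,k167),(k11,k167),(k8,k173)],[(k6,k136),(k1,k150),(k5,k163),(k9,k163),(k10,
    k163),(k2,k180)],[(k5,k131),(k6,k146),(k2,k148),(k1,k152),(k10,k165),(k9,k173)],[(k4,k145),(k7,k146),(k3,k148),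
    (k8,k159),(k11,k163),(k0,k180)],[(k3,k131),(k0,k163),(k8,k166),(k4,k170),(k11,k170),(k7,k171)],[(k6,k139),(k9,
    k144),(k2,k145),(k1,k167),(k5,k170),(k10,k186)],[(k1,k134),(k2,k146),(k10,k153),(k6,k170),(k5,k171),(k9,k175)],
    [(k0,k136),(k4,k139),(k3,k146),(k11,k157),(k7,k170),(k8,k183)],[(k4,k144),(k11,k144),(k0,k163),(k8,k170),(k3,
    k173),(k7,k175)],[(k2,k159),(k5,k166),(k10,k166),(k9,k170),(k1,k173),(k6,k183)],[(k9,k144),(k6,k157),(k10,k160),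
    (k2,k163),(k1,k167),(k5,k170)],[(k7,k153),(k11,k160),(k0,k163),(k3,k165),(k8,k166),(k4,k186)]]
    [] k0
    [[k3,k0,k0,k0,k0,k0],[k2,k0,k0,k1,k0,k0],[k1,k1,k1,k0,k0,k0],[k1,k1,k0,k1,k0,k0],[k1,k1,k0,k0,k1,k0],[k1,k1,k0,k0,
    k0,k1],[k1,k0,k1,k1,k0,k0],[k1,k0,k0,k2,k0,k0],[k1,k0,k0,k1,k0,k1],[k0,k3,k0,k0,k0,k0],[k0,k2,k1,k0,k0,k0],[k0,k2,
    k0,k1,k0,k0],[k0,k2,k0,k0,k0,k1],[k0,k1,k2,k0,k0,k0],[k0,k1,k1,k1,k0,k0],[k0,k1,k1,k0,k1,k0],[k0,k1,k0,k2,k0,k0],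
    [k0,k1,k0,k1,k0,k1],[k0,k1,k0,k0,k1,k1],[k0,k0,k1,k1,k0,k1],[k0,k0,k0,k1,k0,k2],[k0,k0,k0,k0,k1,k2]]
    [.ref k6 k0 [(z1,[z1]),(z4,[y8,z3,z3]),(z4,[z40,y15,z0,z3]),(z8,[y40,z15,z0,z0,z3]),(z8,[z32,y15,y6,y6,y3,z24])],
    .ref k6 k0 [(z8,[y8,z5,z0,z0,z1]),(z4,[z8,y2,z3,z0,y1]),(z4,[y40,z10,z0,z3,z5]),(z4,[z20,y5,z0,z0,y1]),(z8,[y32,
    z5,y6,y6,z1,z24])],.ref k6 k0 [(z12,[z4,z4,y1,y1]),(z12,[y8,z1,z11,z2]),(z12,[z40,y5,y10,y1]),(z24,[y40,z5,z10,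
    z10,z9]),(z24,[z32,y13,y26,y26,y9,z72])],.ref k6 k0 [(z16,[y8,z7,z2,z0,z1]),(z8,[z8,y1,z4,z0,y1]),(z8,[y40,z5,z10,
    z6,z5]),(z16,[z40,y5,y10,z0,z1]),(z8,[y16,y1,y2,y6,y1,z24])],.ref k6 k0 [(z8,[z8,z3,z0,z2,z1,y8]),(z4,[y8,z0,z3,
    y2,y1,z8]),(z4,[z40,z0,z0,z13,z5,y40]),(z4,[y20,z0,z0,y5,y1,z20]),(z8,[z32,y3,y6,z2,z1,y8])],.ref k6 k0 [(z12,[y4,
    z5,z1]),(z12,[z8,y1,z7]),(z12,[y40,z5,z10,z9]),(z24,[z40,y5,y10,z0,z9]),(z24,[y32,y5,y10,y18,y9,z72])],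
    .ref k6 k0 [(z16,[z8,z5,z0,y2,y1]),(z8,[y8,z1,z6,z2,z1]),(z8,[z40,y5,z0,y4,y5]),(z16,[y40,z5,z0,z10,z11]),(z8,
    [z16,y5,y6,y10,y5,z24])],.ref k6 k0 [(z12,[y4,z5,z0,z0,z1]),(z12,[z8,y1,z9,z0,y2]),(z12,[y40,z5,z0,z9,z10]),(z24,
    [z40,y5,z0,z0,y1]),(z24,[y32,y5,y18,y18,y1,z72])],.ref k6 k0 [(z32,[y8,z13,z0,z0,z1]),(z16,[z8,y1,z12,z0,y1]),
    (z16,[y40,z5,z0,z12,z5]),(z32,[z40,y5,z0,z0,z7]),(z4,[y4,y1,y3,y3,y1,z12])],.ref k6 k0 [(z8,[y4,z3,z3]),(z1,[z1]),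
    (z4,[y20,z0,z15,z3]),(z8,[z20,z0,y15,z0,z3]),(z8,[y16,y3,z6,y6,y3,z24])],.ref k6 k0 [(z8,[z4,z3,y2,y1]),(z4,[y4,
    z0,z5,z1]),(z2,[z10,z0,y5,y1]),(z8,[y20,z0,z10,z5,z3]),(z8,[z16,y3,y14,y10,y3,z24])],.ref k6 k0 [(z24,[y8,z9,z4,
    z0,z1]),(z12,[z8,z0,z5,z0,y1]),(z12,[y40,z0,z20,z9,z5]),(z6,[z10,z0,y5,z0,z1]),(z24,[y32,y9,y2,y18,y5,z72])],
    .ref k6 k0 [(z8,[y2,z3,z1]),(z2,[z1,z0,z1]),(z4,[y10,z0,z5,z3]),(z8,[z10,z0,y5,z0,z3]),(z8,[y8,y3,y2,y6,y3,z24])],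
    .ref k6 k0 [(z24,[z4,z9,y1,y2]),(z6,[y2,z0,z5,z1]),(z12,[z20,z0,y5,y1]),(z24,[y20,z0,z5,z10,z9]),(z24,[z16,y9,y22,
    y26,y9,z72])],.ref k6 k0 [(z8,[z8,z3,y2,y2,y1]),(z4,[y8,z0,z5,z2,z1]),(z4,[z40,z0,y10,y7,y5]),(z4,[y20,z0,z5,z5,
    z4]),(z8,[z32,y3,y14,y14,y7,z24])],.ref k6 k0 [(z32,[z8,z13,z0,z0,z1,y8]),(z16,[y8,y1,z12,z0,y1,z8]),(z16,[z40,z5,
    z0,z12,z5,y40]),(z32,[y40,y5,z0,z0,z7,z40]),(z4,[z4,y1,y3,y3,y1,z8])],.ref k6 k0 [(z16,[y4,z6,z1,z0,z1]),(z8,[z4,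
    z0,z5,z0,y1]),(z8,[y20,z0,z5,z6,z5]),(z16,[z20,z0,y5,z0,z1]),(z8,[y8,y3,y4,y6,y1,z24])],.ref k6 k0 [(z40,[y8,z15,
    z2,z0,z1]),(z20,[z8,z0,z13,z0,y1]),(z4,[y8,z0,z2,z3,z1]),(z4,[z4,z0,y1,z0,z1]),(z40,[y32,y15,y22,y30,y11,
    (Int.ofNat (nat_lit 120))])],.ref k6 k0 [(z16,[y8,z5,z0,y2,y1,z8]),(z8,[z8,z1,z6,z2,z1,y8]),(z8,[y40,y5,z0,y4,y5,
    z40]),(z16,[z40,z5,z0,z10,z11,y40]),(z8,[y16,y5,y6,y10,y5,z40])],.ref k6 k0 [(z8,[y8,z3,z0,z2,z1]),(z4,[z8,z0,z3,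
    y2,y1]),(z4,[y40,z0,z0,z13,z5]),(z4,[z20,z0,z0,y5,y1]),(z8,[y32,y3,y6,z2,z1,z24])],.ref k6 k0 [(z56,[y8,z21,z0,z0,
    z1]),(z28,[z8,z0,z21,z0,y1]),(z28,[y40,z0,z0,z21,z5]),(z7,[z5,z0,z0,z0,z2]),(z56,[y32,y21,y42,y42,y17,
    (Int.ofNat (nat_lit 168))])],.ref k6 k0 [(z32,[y8,z11,y2,y2,y1,z8]),(z16,[z8,z1,z14,z2,z1,y8]),(z16,[y40,y5,y10,
    z2,y5,z40]),(z32,[z40,z5,z10,z10,z17,y40]),(z2,[y2,y1,y2,y2,y1,z8])]],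
    .tor k9 false k1 [(z2,[y1,z2,y2,y1,z2]),(z1,[z0,y1,y1,z0,z1]),(z2,[z1,z0,z2,z1]),(z1,[z0,z0,z1])],
    .leafM k6 [k1,k2,k3,k4,k5,k0] [(z5,[z0,y1,y1,y5,z5])] [],
    .leafM k1 [k0,k1,k2,k3,k4,k5] [(z1,[z0,z1,z0,z1]),(z1,[z0,y1,z0,y1,z1])] [],
    .lp [(nat_lit 306),(nat_lit 326),(nat_lit 324),(nat_lit 322),(nat_lit 322),(nat_lit 316)] [k10,k10,k0,k0,k1,k1,k2,k2,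
    k2,k2,k5,k5] k0 [[k0,k0,k0,k0,k0,k0,k22,k22,k0,k0,k0,k18],[k0,k0,k0,k16,k0,k0,k0,k0,k0,k0,k0,k14],[k16,k0,k0,k0,
    k0,k0,k0,k0,k0,k32],[k0,k0,k0,k0,k0,k10],[k0,k0,k10],[],[k0,k22],[k0,k22],[k0,k0,k0,k32,k0,k0,k0,k0,k0,k0,k40],[],
    [k14,k18],[k0,k0,k0,k0,k0,k0,k0,k0,k0,k40]] (nat_lit 960) k5
    [[(k8,(nat_lit 274)),(k11,(nat_lit 311)),(k7,(nat_lit 314)),(k4,(nat_lit 315)),(k0,(nat_lit 320)),(k3,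
    (nat_lit 334))],[(k6,(nat_lit 292)),(k9,(nat_lit 292)),(k10,(nat_lit 293)),(k2,(nat_lit 316)),(k1,(nat_lit 320)),
    (k5,(nat_lit 331))],[(k10,(nat_lit 307)),(k2,(nat_lit 310)),(k5,(nat_lit 325)),(k1,(nat_lit 334)),(k6,
    (nat_lit 346)),(k9,(nat_lit 346))],[(k8,(nat_lit 292)),(k3,(nat_lit 310)),(k0,(nat_lit 316)),(k11,(nat_lit 321)),
    (k4,(nat_lit 325)),(k7,(nat_lit 334))],[(k4,(nat_lit 314)),(k7,(nat_lit 323)),(k8,(nat_lit 323)),(k3,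
    (nat_lit 325)),(k0,(nat_lit 331)),(k11,(nat_lit 352))],[(k5,(nat_lit 314)),(k1,(nat_lit 315)),(k10,(nat_lit 320)),
    (k6,(nat_lit 323)),(k9,(nat_lit 323)),(k2,(nat_lit 325))],[(k1,(nat_lit 314)),(k10,(nat_lit 319)),(k6,
    (nat_lit 322)),(k9,(nat_lit 322)),(k5,(nat_lit 323)),(k2,(nat_lit 334))],[(k0,(nat_lit 292)),(k11,(nat_lit 319)),
    (k7,(nat_lit 322)),(k8,(nat_lit 322)),(k4,(nat_lit 323)),(k3,(nat_lit 346))],[(k0,(nat_lit 292)),(k11,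
    (nat_lit 319)),(k7,(nat_lit 322)),(k8,(nat_lit 322)),(k4,(nat_lit 323)),(k3,(nat_lit 346))],[(k1,(nat_lit 274)),
    (k2,(nat_lit 292)),(k10,(nat_lit 319)),(k6,(nat_lit 322)),(k9,(nat_lit 322)),(k5,(nat_lit 323))],[(k1,
    (nat_lit 311)),(k6,(nat_lit 319)),(k9,(nat_lit 319)),(k2,(nat_lit 321)),(k5,(nat_lit 352)),(k10,(nat_lit 356))],
    [(k0,(nat_lit 293)),(k3,(nat_lit 307)),(k7,(nat_lit 319)),(k8,(nat_lit 319)),(k4,(nat_lit 320)),(k11,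
    (nat_lit 356))]]
    [] k0
    [[k2,k0,k0,k1,k0,k0],[k2,k0,k0,k0,k1,k0],[k2,k0,k0,k0,k0,k1],[k1,k1,k0,k0,k1,k0],[k1,k1,k0,k0,k0,k1],[k1,k1,k1,k0,
    k0,k0],[k1,k0,k1,k1,k0,k0],[k1,k0,k1,k0,k1,k0],[k1,k0,k0,k2,k0,k0],[k1,k0,k0,k1,k1,k0],[k1,k0,k0,k1,k0,k1],[k1,k0,
    k0,k0,k2,k0],[k1,k0,k0,k0,k1,k1],[k0,k3,k0,k0,k0,k0],[k0,k2,k0,k0,k1,k0],[k0,k2,k0,k0,k0,k1],[k0,k1,k1,k0,k1,k0],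
    [k0,k1,k0,k0,k1,k1],[k0,k0,k3,k0,k0,k0]]
    [.ref k6 k0 [(z3,[z5,y1,z0,z0,y5]),(z3,[y4,z8,z9,z0,z4]),(z6,[y5,z10,z0,z18,z5]),(z3,[y1,z2,z0,z0,z10]),(z3,[z2,
    y13,y9,y9,y11,z9])],.ref k6 k0 [(z4,[z5,z7,z5,z5,z5,y5]),(z1,[y1,z1,z2,y1,y1,z1]),(z8,[y5,z5,y5,z19,y5,z5]),(z4,
    [y1,z1,y1,y1,z11,z1]),(z2,[z1,y7,y5,y5,y5,z5])],.ref k6 k0 [(z7,[z10,z1]),(z7,[y8,z16,z21]),(z7,[y5,z10,z0,z21]),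
    (z7,[y2,z4,z0,z0,z21]),(z7,[z4,y29,y21,y21,y21,z21])],.ref k6 k0 [(z1,[z5,z3,z0,z5,z5,y5]),(z1,[y4,z0,z3,y4,y4,
    z4]),(z2,[y5,z0,z0,z1,y5,z5]),(z1,[y1,z0,z0,y1,z2,z1]),(z1,[z2,y3,y3,y1,y1,z1])],.ref k6 k0 [(z1,[z10,y7,y10]),
    (z1,[y8,z8,z11]),(z1,[y5,z5,z5,z3]),(z1,[y2,z2,z2,z0,z3]),(z1,[z4,y7,y7,y3,y3,z3])],.ref k6 k0 [(z1,[y10,z13,z10,
    z10]),(z1,[z8,y8,y5,y8]),(z1,[z5,y5,y5,y2]),(z1,[z2,y2,y2,y2,z3]),(z1,[y4,z1,z1,z1,y3,z3])],.ref k6 k0 [(z1,[z10,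
    y7,z0,y10,y10]),(z1,[y8,z8,z3,z8,z8]),(z1,[y5,z5,z0,z8,z5]),(z1,[y2,z2,z0,z2,z5]),(z1,[z4,y7,y3,y7,y7,z3])],
    .ref k6 k0 [(z3,[z10,z9,z10,z0,z10,y10]),(z3,[y8,z0,z1,z0,y8,z8]),(z3,[y5,z0,y5,z9,y5,z5]),(z3,[y2,z0,y2,z0,z7,
    z2]),(z3,[z4,y9,y5,y9,y5,z5])],.ref k6 k0 [(z1,[z5,y2,z0,z0,y10]),(z1,[y4,z4,z3,z0,z8]),(z2,[y5,z5,z0,z6,z10]),
    (z1,[y1,z1,z0,z0,z5]),(z1,[z2,y5,y3,y3,y7,z3])],.ref k6 k0 [(z2,[z5,z6,z5,z5,z0,y5]),(z1,[y2,z0,z1,y2,z0,z2]),(z4,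
    [y5,z0,y5,z7,z0,z5]),(z2,[y1,z0,y1,y1,z6,z1]),(z1,[z1,y3,y2,y2,y3,z2])],.ref k6 k0 [(z3,[z10,y1,z0,z0,y10]),(z3,
    [y8,z8,z9,z0,z8]),(z3,[y5,z5,z0,z9,z5]),(z3,[y2,z2,z0,z0,z11]),(z3,[z4,y13,y9,y9,y13,z9])],.ref k6 k0 [(z3,[z5,
    z14,z10,z10,z10,y10]),(z3,[y4,y4,z1,y8,y8,z8]),(z6,[y5,y5,y10,z8,y10,z10]),(z3,[y1,y1,y2,y2,z7,z2]),(z3,[z2,y7,y5,
    y5,y5,z5])],.ref k6 k0 [(z1,[z2,z3,z2,z2,z2,y2]),(z5,[y8,z0,z7,y8,y8,z8]),(z1,[y1,z0,y1,z2,y1,z1]),(z5,[y2,z0,y2,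
    y2,z13,z2]),(z5,[z4,y15,y11,y11,y11,z11])],.ref k6 k0 [(z4,[y5,z12,z15]),(z1,[z1]),(z8,[z5,z0,y15,z24]),(z4,[z1,
    z0,y3,z0,z12]),(z2,[y1,y6,y3,y6,y6,z6])],.ref k6 k0 [(z2,[y5,z1,z5,y5,y5,z5]),(z1,[z2,z2,z1,z2,z2,y2]),(z4,[z5,z5,
    y5,z17,z5,y5]),(z2,[z1,z1,y1,z1,z7,y1]),(z1,[y1,y4,y2,y4,y4,z4])],.ref k6 k0 [(z1,[y2,z3,z4]),(z5,[z8,z0,y1]),(z1,
    [z1,z0,y2,z3]),(z5,[z2,z0,y4,z0,z15]),(z5,[y4,y15,y7,y15,y15,z15])],.ref k6 k0 [(z3,[y10,y1,z0,z0,y10,z10]),(z3,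
    [z8,z8,z9,z0,z8,y8]),(z3,[z5,z5,z0,z9,z5,y5]),(z3,[z2,z2,z0,z0,z11,y2]),(z3,[y4,y13,y9,y9,y13,z13])],
    .ref k6 k0 [(z1,[y10,y7,z0,y10,y10,z10]),(z1,[z8,z8,z3,z8,z8,y8]),(z1,[z5,z5,z0,z8,z5,y5]),(z1,[z2,z2,z0,z2,z5,
    y2]),(z1,[y4,y7,y3,y7,y7,z7])],.ref k6 k0 [(z1,[y2,z3,z0,z6]),(z5,[z8,z0,z15,y24]),(z1,[z1]),(z5,[z2,z0,z0,y6,
    z15]),(z5,[y4,y15,y15,y3,y15,z15])]],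
    .lp [(nat_lit 322),(nat_lit 308),(nat_lit 298),(nat_lit 330),(nat_lit 340),(nat_lit 320)] [k9,k9,k16,k16,k21,k21,k5,
    k5,k0,k0,k10,k10] k0 [[k0,k0,k0,k0,k0,k0,k0,k0,k0,k0,k64,k22],[k0,k0,k0,k0,k0,k0,k10],[k0,k0,k0,k0,k0,k56,k0,k0,
    k0,k26],[k0,k0,k0,k0,k0,k14,k0,k0,k0,k2],[k0,k0,k14,k56,k0,k0,k0,k8],[k0,k0,k0,k0,k0,k0,k0,k0,k0,k0,k32,k2],[k0,
    k0,k0,k0,k0,k8,k0,k0,k8],[k10],[k0,k0,k2,k26],[k0,k0,k0,k0,k0,k0,k0,k8],[k0,k22,k0,k0,k2],[k0,k64,k0,k0,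
    k32]] (nat_lit 960) k5
    [[(k0,(nat_lit 258)),(k7,(nat_lit 294)),(k4,(nat_lit 312)),(k11,(nat_lit 321)),(k8,(nat_lit 331)),(k3,
    (nat_lit 337))],[(k1,(nat_lit 258)),(k10,(nat_lit 299)),(k5,(nat_lit 310)),(k2,(nat_lit 315)),(k9,(nat_lit 331)),
    (k6,(nat_lit 336))],[(k5,(nat_lit 303)),(k2,(nat_lit 308)),(k9,(nat_lit 314)),(k6,(nat_lit 319)),(k1,
    (nat_lit 337)),(k10,(nat_lit 378))],[(k4,(nat_lit 247)),(k8,(nat_lit 298)),(k3,(nat_lit 308)),(k0,(nat_lit 315)),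
    (k11,(nat_lit 316)),(k7,(nat_lit 333))],[(k4,(nat_lit 284)),(k3,(nat_lit 303)),(k0,(nat_lit 310)),(k8,
    (nat_lit 317)),(k11,(nat_lit 335)),(k7,(nat_lit 370))],[(k2,(nat_lit 247)),(k5,(nat_lit 284)),(k6,(nat_lit 306)),
    (k1,(nat_lit 312)),(k9,(nat_lit 319)),(k10,(nat_lit 341))],[(k1,(nat_lit 294)),(k10,(nat_lit 323)),(k6,
    (nat_lit 330)),(k2,(nat_lit 333)),(k9,(nat_lit 343)),(k5,(nat_lit 370))],[(k4,(nat_lit 306)),(k11,(nat_lit 317)),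
    (k3,(nat_lit 319)),(k7,(nat_lit 330)),(k8,(nat_lit 335)),(k0,(nat_lit 336))],[(k3,(nat_lit 314)),(k4,
    (nat_lit 319)),(k11,(nat_lit 330)),(k0,(nat_lit 331)),(k7,(nat_lit 343)),(k8,(nat_lit 348))],[(k2,(nat_lit 298)),
    (k5,(nat_lit 317)),(k10,(nat_lit 330)),(k1,(nat_lit 331)),(k6,(nat_lit 335)),(k9,(nat_lit 348))],[(k2,
    (nat_lit 316)),(k6,(nat_lit 317)),(k10,(nat_lit 320)),(k1,(nat_lit 321)),(k9,(nat_lit 330)),(k5,(nat_lit 335))],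
    [(k0,(nat_lit 299)),(k11,(nat_lit 320)),(k7,(nat_lit 323)),(k8,(nat_lit 330)),(k4,(nat_lit 341)),(k3,
    (nat_lit 378))]]
    [] k0
    [[k3,k0,k0,k0,k0,k0],[k2,k1,k0,k0,k0,k0],[k2,k0,k1,k0,k0,k0],[k2,k0,k0,k1,k0,k0],[k2,k0,k0,k0,k1,k0],[k2,k0,k0,k0,
    k0,k1],[k1,k1,k1,k0,k0,k0],[k1,k1,k0,k0,k0,k1],[k1,k0,k2,k0,k0,k0],[k1,k0,k1,k0,k0,k1],[k1,k1,k0,k1,k0,k0],[k1,k0,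
    k1,k1,k0,k0],[k1,k0,k0,k1,k0,k1],[k1,k0,k0,k0,k0,k2],[k0,k3,k0,k0,k0,k0],[k0,k2,k1,k0,k0,k0],[k0,k2,k0,k0,k1,k0],
    [k0,k1,k2,k0,k0,k0],[k0,k1,k1,k1,k0,k0],[k0,k1,k1,k0,k1,k0],[k0,k1,k0,k1,k0,k1],[k0,k0,k3,k0,k0,k0],[k0,k0,k2,k0,
    k1,k0]]
    [.ref k6 k0 [(z1,[z1]),(z4,[y5,z15,z12]),(z2,[z1,y3,z0,z2]),(z2,[y1,z3,z0,z0,z6]),(z4,[z1,y3])],.ref k6 k0 [(z1,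
    [z4,y5,y4]),(z1,[y5,z10,z8]),(z1,[z2,y4,y2,z1]),(z1,[y2,z4,z2,z0,z3]),(z1,[z1,y2,y1])],.ref k6 k0 [(z5,[z6,z3,z0,
    y2]),(z2,[y3,z6,z6,z1]),(z5,[z3,y6,z0,z4]),(z5,[y3,z6,z0,z1,z15]),(z10,[z3,y6,z0,y1])],.ref k6 k0 [(z1,[z2,y1,z0,
    z0,y2]),(z2,[y5,z10,z6,z0,z5]),(z1,[z1,y2,z0,z1,y1]),(z1,[y1,z2,z0,z0,z4]),(z2,[z1,y2,z0,z0,y1])],.ref k6 k0 [(z3,
    [z4,z1]),(z3,[y5,z10,z9]),(z3,[z2,y4,z0,z3]),(z3,[y2,z4,z0,z0,z9]),(z3,[z1,y2])],.ref k6 k0 [(z2,[z3,z3,z3,z1,z3,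
    y3]),(z8,[y15,z15,z9,y5,y15,z15]),(z4,[z3,y3,z3,z5,z3,y3]),(z4,[y3,z3,y3,y1,z9,z3]),(z8,[z3,y3,z3,z1,z3,y3])],
    .ref k6 k0 [(z1,[z12,y9,y12,y4]),(z1,[y15,z15,z18,z5]),(z1,[z6,y6,y6,y1]),(z1,[y6,z6,z6,z2,z3]),(z1,[z3,y3,y3,
    y1])],.ref k6 k0 [(z1,[y12,z3,z0,y4,y12,z12]),(z1,[z15,z0,z3,z5,z15,y15]),(z1,[y6,z0,z0,y1,y6,z6]),(z1,[z6,z0,z0,
    z2,z9,y6]),(z1,[y3,z0,z0,y1,y3,z3])],.ref k6 k0 [(z2,[z3,z3,z0,y2]),(z8,[y15,z15,z24,z10]),(z4,[z3,y3,z0,z2]),(z4,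
    [y3,z3,z0,z2,z12]),(z8,[z3,y3,z0,y2])],.ref k6 k0 [(z1,[z2,z3,z2,z0,z2,y2]),(z2,[y5,z0,z1,z0,y5,z5]),(z1,[z1,z0,
    z1,z1,z1,y1]),(z1,[y1,z0,y1,z0,z2,z1]),(z2,[z1,z0,z1,z0,z1,y1])],.ref k6 k0 [(z1,[y4,z7,z4,z0,z4]),(z1,[z5,y5,y2,
    z0,y5]),(z1,[y2,z2,z2,z1,z2]),(z1,[z2,y2,y2,z0,z1]),(z1,[y1,z1,z1,z0,z1])],.ref k6 k0 [(z1,[z3,z0,z0,y1,y3]),(z4,
    [y15,z15,z12,z5,z15]),(z2,[z3,y3,z0,z1,y3]),(z2,[y3,z3,z0,z1,z9]),(z4,[z3,y3,z0,y1,y3])],.ref k6 k0 [(z1,[z6,z3,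
    z6,z2,z0,y6]),(z2,[y15,z0,y9,y5,z0,z15]),(z1,[z3,z0,z3,z2,z0,y3]),(z1,[y3,z0,y3,y1,z3,z3]),(z2,[z3,z0,z3,z1,z0,
    y3])],.ref k6 k0 [(z1,[z3,z6,z6,z2,z6,y6]),(z4,[y15,y15,y18,y10,y30,z30]),(z2,[z3,z3,z6,z4,z6,y6]),(z2,[y3,y3,y6,
    y2,z0,z6]),(z4,[z3,z3,z6,z2,z6,y6])],.ref k6 k0 [(z5,[y4,z15,z12]),(z1,[z1]),(z5,[y2,z0,z6,z5]),(z5,[z2,z0,y6,z0,
    z15]),(z5,[y1,z0,z3])],.ref k6 k0 [(z2,[y3,z6,z6,z1]),(z8,[z15,z0,y6,y5]),(z4,[y3,z0,z6,z5]),(z4,[z3,z0,y6,y1,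
    z12]),(z8,[y3,z0,z6,z1])],.ref k6 k0 [(z3,[y4,z9,z8]),(z3,[z5,z0,y1]),(z3,[y2,z0,z4,z3]),(z3,[z2,z0,y4,z0,z9]),
    (z3,[y1,z0,z2])],.ref k6 k0 [(z1,[y12,z3,z12,z8]),(z1,[z15,z0,y12,y10]),(z1,[y6,z0,z6,z5]),(z1,[z6,z0,y6,y4,z3]),
    (z1,[y3,z0,z3,z2])],.ref k6 k0 [(z5,[y12,z15,z12,z4,z12]),(z1,[z3,z0,z0,y1,y3]),(z5,[y6,z0,z6,z7,z6]),(z5,[z6,z0,
    y6,y2,z9]),(z5,[y3,z0,z3,z1,z3])],.ref k6 k0 [(z1,[y6,z3,z6,z2]),(z2,[z15,z0,y9,y5]),(z1,[y3,z0,z3,z2]),(z1,[z3,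
    z0,y3,y1,z3]),(z2,[y3,z0,z3,z1])],.ref k6 k0 [(z7,[y12,z9,z0,y4,z0,z12]),(z7,[z15,z15,z21,z5,z0,y15]),(z7,[y6,y6,
    z0,z5,z0,z6]),(z7,[z6,z6,z0,z2,z21,y6]),(z7,[y3,y3,z0,y1,z0,z3])],.ref k6 k0 [(z1,[z2,z3,z0,y2]),(z2,[y5,z0,z6,
    z5]),(z1,[z1]),(z1,[y1,z0,z0,z1,z3]),(z2,[z1,z0,z0,y1])],.ref k6 k0 [(z5,[z12,z15,z0,y8]),(z1,[y3,z0,z3,z2]),(z5,
    [z6,z0,z0,z1]),(z5,[y6,z0,z0,z4,z15]),(z5,[z3,z0,z0,y2])]],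
    .lp [k144,k146,k166,k166,k168,k168] [k12,k12,k11,k11,k1,k1,k1,k1,k0,k0,k0,k0] k0 [[k0,k0,k24,k0,k0,k0,k0,k0,k0,k0,k0,
    k30],[k0,k0,k0,k0,k0,k0,k0,k2,k0,k0,k0,k16],[k0,k0,k0,k0,k0,k0,k0,k0,k0,k8],[k0,k24,k0,k0,k8],[k0,k0,k0,k0,k0,k0,
    k4,k10],[k0,k0,k8],[k2,k0,k0,k0,k0,k10],[k0,k0,k0,k0,k0,k4,k0,k0,k0,k8],[k0,k0,k0,k8,k0,k0,k8],[k0,k0,k0,k0,k0,k0,
    k0,k0,k0,k0,k6,k30],[k16,k30,k0,k0,k0,k0,k0,k0,k30],[k0,k0,k0,k0,k0,k0,k0,k0,k6]] (nat_lit 480) k5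
    [[(k11,k150),(k4,k155),(k7,k155),(k0,k160),(k3,k175),(k8,k186)],[(k10,k126),(k5,k131),(k2,k145),(k6,k155),(k9,
    k158),(k1,k160)],[(k10,k141),(k6,k154),(k5,k156),(k9,k157),(k2,k170),(k1,k175)],[(k0,k145),(k8,k149),(k7,k156),
    (k11,k157),(k4,k164),(k3,k170)],[(k0,k131),(k3,k156),(k7,k158),(k4,k166),(k8,k167),(k11,k175)],[(k1,k155),(k6,
    k156),(k9,k163),(k2,k164),(k5,k166),(k10,k167)],[(k1,k155),(k2,k156),(k5,k158),(k10,k167),(k6,k170),(k9,k177)],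
    [(k3,k154),(k0,k155),(k4,k156),(k8,k167),(k7,k170),(k11,k175)],[(k3,k157),(k0,k158),(k8,k160),(k4,k163),(k11,
    k168),(k7,k177)],[(k2,k149),(k9,k160),(k5,k167),(k6,k167),(k10,k174),(k1,k186)],[(k10,k138),(k1,k150),(k2,k157),
    (k9,k168),(k5,k175),(k6,k175)],[(k0,k126),(k11,k138),(k3,k141),(k4,k167),(k7,k167),(k8,k174)]]
    [] k0
    [[k2,k0,k1,k0,k0,k0],[k2,k0,k0,k1,k0,k0],[k2,k0,k0,k0,k0,k1],[k1,k1,k1,k0,k0,k0],[k1,k1,k0,k0,k0,k1],[k1,k0,k2,k0,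
    k0,k0],[k1,k0,k1,k1,k0,k0],[k1,k0,k1,k0,k0,k1],[k1,k1,k0,k1,k0,k0],[k1,k0,k0,k1,k0,k1],[k1,k0,k0,k0,k0,k2],[k0,k2,
    k0,k0,k1,k0],[k0,k2,k0,k0,k0,k1],[k0,k1,k1,k1,k0,k0],[k0,k1,k1,k0,k1,k0],[k0,k1,k0,k1,k0,k1],[k0,k1,k0,k0,k2,k0],
    [k0,k1,k0,k0,k1,k1],[k0,k1,k0,k0,k0,k2],[k0,k0,k0,k0,k0,k3]]
    [.ref k85 k7 [(z1,[y1,z2,z0,z1]),(z1,[z0,z1]),(z1,[z0,z0,z1]),(z1,[z1,y2])],.ref k17 k0 [(z1,[z2,z1,z2,z2,y2]),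
    (z2,[y5,z5,z1,y5,z5]),(z1,[z1,y1,z1,z4,y1]),(z1,[y1,y2,y4,y4,z4])],.ref (nat_lit 308) k6 [(z1,[z1,y2]),(z1,[y1,y2,
    y4,y4,z4]),(z1,[z1,y2,z0,z4]),(z1,[y5,z10,z8])],.ref k156 k0 [(z1,[z4,y3,y4,y4]),(z1,[y5,z5,z6,z5]),(z1,[z2,y2,y2,
    y1]),(z1,[y2,z1,z1,z1,z1])],.ref k156 k0 [(z1,[y4,z5,z4]),(z1,[z5,y5,y4]),(z1,[y2,z2,z2,z1]),(z1,[z2,y3,y3,y1,
    z1])],.ref k15 k7 [(z2,[y1,z1,z0,z2]),(z1,[z0,z1]),(z1,[z0,z0,z1]),(z2,[z1,y1])],.ref k15 k7 [(z1,[y1,z0,y1,z0,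
    z1]),(z1,[z0,z1]),(z1,[z0,z0,z1]),(z1,[z1,z0,z1,z1,y1])],.ref k17 k0 [(z1,[z2,z1,z0,y2]),(z2,[y5,z5,z6,z5]),(z1,
    [z1,y1,z0,z2]),(z1,[y1,y2,y3,y2,z3])],.ref k17 k0 [(z1,[y4,z3,z0,y4,z4]),(z1,[z5,z0,z3,z5,y5]),(z1,[y2,z0,z0,z1,
    z2]),(z1,[z2,y3,y3,y1,z1])],.ref (nat_lit 309) k8 [(z1,[z0,y1,y1,y1,z1]),(z1,[z1,z1,z2,z2,y2]),(z1,[z0,y1,y2,y2,
    z2]),(z1,[z0,z5,z7,z5,y5])],.ref (nat_lit 309) k8 [(z1,[z0,y1,y1,y1,z1]),(z2,[z1,z1,z2,z2,y2]),(z1,[z0,y1,y2,y2,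
    z2]),(z1,[z0,z5,z7,z5,y5])],.ref k17 k0 [(z3,[y4,z9,z8]),(z3,[z5,z0,y1]),(z3,[y2,z0,z4,z9]),(z3,[z2,y9,y13,y9,
    z9])],.ref k85 k7 [(z1,[z1,z0,y2]),(z1,[z0,z1]),(z1,[z0,z0,z1]),(z1,[y1,z0,z2,z1])],.ref (nat_lit 310) k6 [(z1,
    [y1,y1,z0,z0,z1]),(z1,[z2,y3,y5,y5,z3]),(z1,[y2,y2,z0,z5,z2]),(z1,[z1,z1,z1,z0,y1])],.ref (nat_lit 309) k8 [(z1,
    [z0,y1,y1,y1,z1]),(z1,[y1,z1,z2,z2,y1]),(z1,[z0,y1,y2,y2,z2]),(z1,[z0,z5,z7,z5,y5])],.ref (nat_lit 311) k7 [(z1,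
    [z1,z1,z0,z1,y1]),(z1,[z0,z1]),(z1,[z0,z0,z1]),(z1,[y1,y1,z0,z0,z1])],.ref k17 k0 [(z1,[y4,z3,z4]),(z1,[z5,z0,
    y2]),(z1,[y2,z0,z2,z3]),(z1,[z2,y3,y5,y3,z3])],.ref k15 k7 [(z1,[z1,z0,y1]),(z1,[z0,z1]),(z1,[z0,z0,z1]),(z1,[y1,
    z0,z1,z1])],.ref (nat_lit 312) k10 [(z1,[z5,z0,y4,y10]),(z1,[y4,z1,z4,z8]),(z1,[y2,z0,z2,z5]),(z1,[y1,z0,z1,z2])],
    .ref (nat_lit 313) k0 [(z1,[z0,z1]),(z1,[z0,z0,z1]),(z1,[y1,z0,z0,z3]),(z1,[z0,y1,y1,y1,z1])]]]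

/-- the nodes with numbers from 259 -/
noncomputable def cT6_2_n6 : List TN :=
  cT6_2_n6_0 ++ (cT6_2_n6_1 ++ (cT6_2_n6_2 ++ (cT6_2_n6_3 ++ cT6_2_n6_4)))

theorem cT6_2_k6 : allI (chkT 6 cT6_2_w tt6 cT6_2_s (blkF [] cT6_2_D)) cT6_2_n6 259 = true := by
  decide +kernel

end Pool.Agent.Lib_MP_fa6e45
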