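import Pool.Agent.Lib_MP_fa6e45.CG6_1d

/-!
MP_fa6e45_co, stage 5: certificates (captain, generated by a program).
-/

namespace Pool.Agent.Lib_MP_fa6e45

noncomputable def cT6_2_n7_0 : List TN :=
  [.lp [(nat_lit 314),(nat_lit 308),(nat_lit 324),(nat_lit 316),(nat_lit 332),(nat_lit 324)] [k9,k9,k12,k12,k4,k4,k8,k8,
    k0,k0,k4,k4] k0 [[k0,k0,k0,k0,k0,k0,k0,k24,k0,k0,k4,k6],[k0,k0,k36,k12],[k12],[k36],[k0,k0,k0,k0,k0,k0,k20,k4],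
    [k0,k0,k0,k0,k0,k0,k0,k0,k0,k0,k40],[k0,k24,k0,k0,k0,k4],[k0,k0,k0,k0,k0,k20,k0,k0,k8],[],[k0,k0,k0,k0,k0,k0,k8,
    k0,k0,k0,k0,k4],[k0,k6,k0,k0,k0,k0,k0,k0,k4],[k0,k4,k0,k0,k40]] (nat_lit 960) k5
    [[(k7,(nat_lit 275)),(k0,(nat_lit 310)),(k3,(nat_lit 317)),(k4,(nat_lit 319)),(k11,(nat_lit 319)),(k8,
    (nat_lit 327))],[(k6,(nat_lit 291)),(k1,(nat_lit 310)),(k10,(nat_lit 313)),(k9,(nat_lit 323)),(k5,(nat_lit 331)),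
    (k2,(nat_lit 347))],[(k5,(nat_lit 280)),(k2,(nat_lit 296)),(k6,(nat_lit 312)),(k1,(nat_lit 317)),(k10,
    (nat_lit 320)),(k9,(nat_lit 344))],[(k3,(nat_lit 296)),(k7,(nat_lit 312)),(k4,(nat_lit 316)),(k11,(nat_lit 316)),
    (k8,(nat_lit 320)),(k0,(nat_lit 347))],[(k3,(nat_lit 280)),(k7,(nat_lit 320)),(k4,(nat_lit 324)),(k11,
    (nat_lit 324)),(k8,(nat_lit 328)),(k0,(nat_lit 331))],[(k9,(nat_lit 308)),(k2,(nat_lit 316)),(k6,(nat_lit 316)),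
    (k1,(nat_lit 319)),(k5,(nat_lit 324)),(k10,(nat_lit 364))],[(k1,(nat_lit 275)),(k2,(nat_lit 312)),(k5,
    (nat_lit 320)),(k10,(nat_lit 320)),(k9,(nat_lit 328)),(k6,(nat_lit 336))],[(k0,(nat_lit 291)),(k3,(nat_lit 312)),
    (k4,(nat_lit 316)),(k11,(nat_lit 320)),(k8,(nat_lit 332)),(k7,(nat_lit 336))],[(k4,(nat_lit 308)),(k11,
    (nat_lit 320)),(k0,(nat_lit 323)),(k7,(nat_lit 328)),(k8,(nat_lit 332)),(k3,(nat_lit 344))],[(k2,(nat_lit 320)),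
    (k1,(nat_lit 327)),(k5,(nat_lit 328)),(k10,(nat_lit 328)),(k6,(nat_lit 332)),(k9,(nat_lit 332))],[(k2,
    (nat_lit 316)),(k1,(nat_lit 319)),(k6,(nat_lit 320)),(k9,(nat_lit 320)),(k10,(nat_lit 320)),(k5,(nat_lit 324))],
    [(k0,(nat_lit 313)),(k3,(nat_lit 320)),(k7,(nat_lit 320)),(k11,(nat_lit 320)),(k8,(nat_lit 328)),(k4,
    (nat_lit 364))]]
    [] k0
    [[k3,k0,k0,k0,k0,k0],[k2,k0,k0,k1,k0,k0],[k2,k0,k0,k0,k0,k1],[k1,k1,k0,k1,k0,k0],[k1,k1,k0,k0,k0,k1],[k1,k1,k1,k0,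
    k0,k0],[k1,k0,k1,k1,k0,k0],[k1,k0,k1,k0,k0,k1],[k1,k0,k0,k2,k0,k0],[k1,k0,k0,k1,k1,k0],[k1,k0,k0,k1,k0,k1],[k1,k0,
    k0,k0,k0,k2],[k0,k3,k0,k0,k0,k0],[k0,k2,k1,k0,k0,k0],[k0,k2,k0,k1,k0,k0],[k0,k2,k0,k0,k0,k1],[k0,k1,k2,k0,k0,k0],
    [k0,k1,k1,k1,k0,k0],[k0,k1,k1,k0,k1,k0],[k0,k1,k0,k1,k0,k1],[k0,k1,k0,k0,k0,k2]]
    [.ref k6 k0 [(z1,[z1]),(z5,[y4,z12,z15]),(z2,[y1,z3,z0,z6]),(z5,[z2,y6,z0,z0,z15]),(z5,[y1,y12,y15,y15,y15,z15])],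
    .ref k6 k0 [(z4,[z5,z2,z0,z0,y5]),(z1,[y1,z2,z3,z0,z1]),(z8,[y5,z10,z0,z24,z5]),(z2,[z1,y2,z0,z0,z5]),(z4,[y1,y10,
    y12,y12,y11,z12])],.ref k6 k0 [(z7,[z10,z1]),(z7,[y8,z16,z21]),(z7,[y5,z10,z0,z21]),(z7,[z4,y8,z0,z0,z21]),(z7,
    [y2,y17,y21,y21,y21,z21])],.ref k6 k0 [(z1,[z5,y2,y5,z0,y5]),(z1,[y4,z4,z7,z0,z4]),(z2,[y5,z5,z5,z6,z5]),(z1,[z2,
    y2,y2,z0,z1]),(z1,[y1,y2,y2,y3,y2,z3])],.ref k6 k0 [(z1,[z10,y7,y10]),(z1,[y8,z8,z11]),(z1,[y5,z5,z5,z3]),(z1,[z4,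
    y4,y4,z0,z3]),(z1,[y2,y1,y1,y3,y3,z3])],.ref k6 k0 [(z1,[y10,z13,z10,z10]),(z1,[z8,y8,y5,y8]),(z1,[z5,y5,y5,y2]),
    (z1,[y4,z4,z4,z4,z3]),(z1,[z2,y5,y5,y5,y3,z3])],.ref k6 k0 [(z3,[z10,y1,z0,y10,y10]),(z3,[y8,z8,z9,z8,z8]),(z3,
    [y5,z5,z0,z14,z5]),(z3,[z4,y4,z0,y4,z5]),(z3,[y2,y7,y9,y7,y7,z9])],.ref k6 k0 [(z1,[z5,y2,z0,y5]),(z1,[y4,z4,z3,
    z4]),(z2,[y5,z5,z0,z11]),(z1,[z2,y2,z0,y2,z3]),(z1,[y1,y2,y3,y2,y3,z3])],.ref k6 k0 [(z3,[z5,z4,z0,z0,y10]),(z3,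
    [y4,z4,z9,z0,z8]),(z6,[y5,z5,z0,z18,z10]),(z3,[z2,y2,z0,z0,z5]),(z3,[y1,y8,y9,y9,y7,z9])],.ref k6 k0 [(z2,[z5,z6,
    z5,z5,z0,y5]),(z1,[y2,z0,z1,y2,z0,z2]),(z4,[y5,z0,y5,z7,z0,z5]),(z1,[z1,z0,z1,z1,z3,y1]),(z2,[y1,y6,y7,y7,y6,
    z7])],.ref k6 k0 [(z1,[z2,z1,z0,z0,y2]),(z5,[y8,z8,z15,z0,z8]),(z1,[y1,z1,z0,z3,z1]),(z5,[z4,y4,z0,z0,z11]),(z5,
    [y2,y13,y15,y15,y13,z15])],.ref k6 k0 [(z2,[z5,z1]),(z1,[y2,z2,z3]),(z4,[y5,z5,z0,z12]),(z1,[z1,y1,z0,z0,z3]),(z2,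
    [y1,y5,y6,y6,y6,z6])],.ref k6 k0 [(z4,[y5,z12,z15]),(z1,[z1]),(z8,[z5,z0,y15,z24]),(z2,[y1,z0,z3,z0,z6]),(z4,[z1,
    y12,y15,y12,y12,z12])],.ref k6 k0 [(z7,[y10,z21,z20,z10]),(z7,[z8,z0,z5,y8]),(z7,[z5,z0,y10,z16]),(z7,[y4,z0,z8,
    z4,z21]),(z7,[z2,y21,y25,y23,y21,z21])],.ref k6 k0 [(z2,[y5,z6,z10,z0,z5]),(z1,[z2,z0,y1,z0,y2]),(z4,[z5,z0,y10,
    z12,y5]),(z1,[y1,z0,z2,z0,z4]),(z2,[z1,y6,y8,y6,y7,z6])],.ref k6 k0 [(z1,[y2,z3,z4]),(z5,[z8,z0,y1]),(z1,[z1,z0,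
    y2,z3]),(z5,[y4,z0,z8,z0,z15]),(z5,[z2,y15,y19,y15,y15,z15])],.ref k6 k0 [(z3,[y5,z9,z5,z10]),(z3,[z4,z0,z5,y8]),
    (z6,[z5,z0,y5,z8]),(z3,[y2,z0,z2,z4,z9]),(z3,[z1,y9,y10,y11,y9,z9])],.ref k6 k0 [(z3,[y10,z9,z10,z10,z10]),(z3,
    [z8,z0,z1,y8,y8]),(z3,[z5,z0,y5,z4,y5]),(z3,[y4,z0,z4,z4,z13]),(z3,[z2,y9,y11,y11,y11,z9])],.ref k6 k0 [(z1,[y2,
    z1,z0,z0,y2,z2]),(z5,[z8,z8,z15,z0,z8,y8]),(z1,[z1,z1,z0,z3,z1,y1]),(z5,[y4,y4,z0,z0,z11,z4]),(z5,[z2,y13,y15,y15,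
    y13,z13])],.ref k6 k0 [(z1,[y10,z3,z10,z0,z10]),(z1,[z8,z0,y5,z0,y8]),(z1,[z5,z0,y5,z3,y5]),(z1,[y4,z0,z4,z0,z7]),
    (z1,[z2,y3,y5,y3,y5,z3])],.ref k6 k0 [(z1,[y5,z3,z5]),(z1,[z4,z0,y1]),(z2,[z5,z0,y5,z6]),(z1,[y2,z0,z2,z0,z3]),
    (z1,[z1,y3,y4,y3,y3,z3])]],
    .leafM k6 [k0,k1,k2,k3,k4,k5] [(z1,[y1,y1,y1,z0,z1])] [],
    .lp [(nat_lit 292),(nat_lit 318),(nat_lit 320),(nat_lit 320),(nat_lit 340),(nat_lit 328)] [k24,k24,k11,k11,k10,k10,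
    k10,k10,k0,k0,k6,k6] k0 [[k0,k0,k20,k0,k0,k0,k0,k0,k0,k0,k14],[k0,k0,k12,k0,k0,k0,k0,k16],[k0,k0,k0,k0,k0,k20,k0,
    k0,k2],[k12,k20],[k0,k0,k0,k20],[k0,k0,k0,k0,k0,k0,k0,k20,k0,k0,k8],[k16,k0,k0,k0,k20],[k0,k0,k0,k0,k0,k0,k0,k0,
    k0,k28],[k0,k0,k0,k0,k0,k0,k28,k0,k0,k0,k0,k20],[k0,k0,k0,k2,k0,k0,k0,k0,k0,k0,k0,k8],[k0,k0,k0,k0,k0,k0,k0,k0,k8,
    k20],[k0,k14,k0,k0,k8]] (nat_lit 960) k5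
    [[(k0,(nat_lit 278)),(k7,(nat_lit 298)),(k3,(nat_lit 305)),(k4,(nat_lit 306)),(k8,(nat_lit 324)),(k11,
    (nat_lit 330))],[(k1,(nat_lit 278)),(k5,(nat_lit 286)),(k6,(nat_lit 306)),(k10,(nat_lit 310)),(k2,(nat_lit 317)),
    (k9,(nat_lit 332))],[(k6,(nat_lit 303)),(k1,(nat_lit 305)),(k5,(nat_lit 307)),(k9,(nat_lit 329)),(k10,
    (nat_lit 337)),(k2,(nat_lit 338))],[(k4,(nat_lit 299)),(k0,(nat_lit 317)),(k7,(nat_lit 319)),(k11,(nat_lit 321)),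
    (k8,(nat_lit 329)),(k3,(nat_lit 338))],[(k0,(nat_lit 286)),(k3,(nat_lit 307)),(k4,(nat_lit 320)),(k11,
    (nat_lit 324)),(k8,(nat_lit 332)),(k7,(nat_lit 340))],[(k2,(nat_lit 299)),(k1,(nat_lit 306)),(k5,(nat_lit 320)),
    (k6,(nat_lit 320)),(k10,(nat_lit 332)),(k9,(nat_lit 350))],[(k1,(nat_lit 298)),(k6,(nat_lit 300)),(k2,
    (nat_lit 319)),(k10,(nat_lit 324)),(k9,(nat_lit 330)),(k5,(nat_lit 340))],[(k7,(nat_lit 300)),(k3,(nat_lit 303)),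
    (k0,(nat_lit 306)),(k4,(nat_lit 320)),(k8,(nat_lit 330)),(k11,(nat_lit 352))],[(k8,(nat_lit 312)),(k3,
    (nat_lit 329)),(k7,(nat_lit 330)),(k0,(nat_lit 332)),(k11,(nat_lit 334)),(k4,(nat_lit 350))],[(k9,(nat_lit 312)),
    (k10,(nat_lit 314)),(k1,(nat_lit 324)),(k2,(nat_lit 329)),(k6,(nat_lit 330)),(k5,(nat_lit 332))],[(k10,
    (nat_lit 320)),(k2,(nat_lit 321)),(k5,(nat_lit 324)),(k1,(nat_lit 330)),(k9,(nat_lit 334)),(k6,(nat_lit 352))],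
    [(k0,(nat_lit 310)),(k8,(nat_lit 314)),(k11,(nat_lit 320)),(k7,(nat_lit 324)),(k4,(nat_lit 332)),(k3,
    (nat_lit 337))]]
    [] k0
    [[k3,k0,k0,k0,k0,k0],[k2,k1,k0,k0,k0,k0],[k2,k0,k1,k0,k0,k0],[k2,k0,k0,k1,k0,k0],[k2,k0,k0,k0,k1,k0],[k2,k0,k0,k0,
    k0,k1],[k1,k1,k1,k0,k0,k0],[k1,k1,k0,k1,k0,k0],[k1,k1,k0,k0,k0,k1],[k1,k0,k2,k0,k0,k0],[k1,k0,k1,k1,k0,k0],[k1,k0,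
    k1,k0,k0,k1],[k1,k0,k0,k2,k0,k0],[k0,k2,k1,k0,k0,k0],[k0,k1,k2,k0,k0,k0],[k0,k1,k1,k1,k0,k0],[k0,k1,k0,k2,k0,k0],
    [k0,k1,k0,k1,k0,k1],[k0,k0,k0,k3,k0,k0],[k0,k0,k0,k0,k3,k0]]
    [.ref k6 k0 [(z1,[z1]),(z7,[y5,z15,z21]),(z7,[z4,y12,z0,z21]),(z7,[y5,z15,z0,z0,z21]),(z7,[y2,y15,y21,y21,y21,
    z21])],.ref k6 k0 [(z3,[z7,y5,y7]),(z3,[y5,z10,z14]),(z3,[z4,y8,y4,z9]),(z3,[y5,z10,z5,z0,z9]),(z3,[y2,y5,y7,y9,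
    y9,z9])],.ref k6 k0 [(z6,[z7,z4,z0,y7]),(z6,[y5,z10,z18,z5]),(z3,[z2,y4,z0,z7]),(z6,[y5,z10,z0,z5,z18]),(z3,[y1,
    y7,y9,y8,y9,z9])],.ref k6 k0 [(z3,[z7,y5,z0,z0,y7]),(z3,[y5,z10,z9,z0,z5]),(z3,[z4,y8,z0,z9,y4]),(z3,[y5,z10,z0,
    z0,z14]),(z3,[y2,y5,y9,y9,y7,z9])],.ref k6 k0 [(z4,[z7,z5,z7,z7,z7,y7]),(z4,[y5,z5,z7,y5,y5,z5]),(z1,[z1,y1,z1,z4,
    z1,y1]),(z4,[y5,z5,y5,y5,z7,z5]),(z2,[y1,y5,y7,y7,y7,z7])],.ref k6 k0 [(z5,[z7,z1]),(z1,[y1,z2,z3]),(z5,[z4,y8,z0,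
    z15]),(z1,[y1,z2,z0,z0,z3]),(z5,[y2,y11,y15,y15,y15,z15])],.ref k6 k0 [(z2,[z7,y1,y7,y7]),(z2,[y5,z5,z11,z5]),(z1,
    [z2,y2,y2,z1]),(z2,[y5,z5,z5,z5,z6]),(z1,[y1,y2,y2,y2,y3,z3])],.ref k6 k0 [(z1,[y7,z10,z7,z0,z7]),(z1,[z5,y5,y2,
    z0,y5]),(z1,[y4,z4,z4,z3,z4]),(z1,[z5,y5,y5,z0,y2]),(z1,[z2,y5,y5,y3,y5,z3])],.ref k6 k0 [(z1,[z7,y4,y7]),(z1,[y5,
    z5,z8]),(z1,[z4,y4,y4,z3]),(z1,[y5,z5,z5,z0,z3]),(z1,[y2,y1,y1,y3,y3,z3])],.ref k6 k0 [(z5,[z7,z8,z0,y14]),(z1,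
    [y1,z1,z3,z2]),(z5,[z4,y4,z0,z7]),(z1,[y1,z1,z0,z2,z3]),(z5,[y2,y13,y15,y11,y15,z15])],.ref k6 k0 [(z2,[z7,y1,z0,
    y7,y7]),(z2,[y5,z5,z6,z5,z5]),(z1,[z2,y2,z0,z1,y2]),(z2,[y5,z5,z0,z5,z11]),(z1,[y1,y2,y3,y2,y2,z3])],
    .ref k6 k0 [(z4,[z7,z5,z0,y7]),(z4,[y5,z5,z12,z5]),(z1,[z1,y1,z0,z2]),(z4,[y5,z5,z0,z5,z12]),(z2,[y1,y5,y6,y5,y6,
    z6])],.ref k6 k0 [(z1,[y7,z10,z0,z0,z14]),(z1,[z5,y5,z3,z0,y10]),(z1,[y4,z4,z0,z3,z8]),(z1,[z5,y5,z0,z0,y7]),(z1,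
    [z2,y5,y3,y3,y7,z3])],.ref k6 k0 [(z2,[y7,z6,z14,z7]),(z2,[z5,z0,y4,y5]),(z1,[y2,z0,z4,z5]),(z2,[z5,z0,y10,y5,
    z6]),(z1,[z1,y3,y5,y4,y3,z3])],.ref k6 k0 [(z1,[z7,z3,y7,y14]),(z1,[y5,z0,z8,z10]),(z1,[z4,z0,y4,y5]),(z1,[y5,z0,
    z5,z10,z3]),(z1,[y2,y3,y1,z1,y3,z3])],.ref k6 k0 [(z2,[y7,z6,z7,z7,z7]),(z2,[z5,z0,z1,y5,y5]),(z1,[y2,z0,z2,z5,
    z2]),(z2,[z5,z0,y5,y5,z1]),(z1,[z1,y3,y4,y4,y4,z3])],.ref k6 k0 [(z5,[y7,z15,z7,z0,z14]),(z1,[z1,z0,z2,z0,y2]),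
    (z5,[y4,z0,z4,z15,z8]),(z1,[z1,z0,y1,z0,z1]),(z5,[z2,y15,y17,y15,y19,z15])],.ref k6 k0 [(z3,[y7,z9,z7,z0,z7]),(z3,
    [z5,z0,z4,z0,y5]),(z3,[y4,z0,z4,z9,z4]),(z3,[z5,z0,y5,z0,z4]),(z3,[z2,y9,y11,y9,y11,z9])],.ref k6 k0 [(z5,[y7,z15,
    z0,z0,z21]),(z1,[z1,z0,z3,z0,y3]),(z5,[y4,z0,z0,z15,z12]),(z1,[z1]),(z5,[z2,y15,y15,y15,y21,z15])],
    .ref k6 k0 [(z2,[y7,y15,y21,y21,y21,z21]),(z2,[z5,z15,z21,z15,z15,y15]),(z1,[y2,y6,y6,y3,y6,z6]),(z2,[z5,z15,z15,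
    z15,z21,y15]),(z1,[z1])]],
    .lp [(nat_lit 312),(nat_lit 322),(nat_lit 312),(nat_lit 332),(nat_lit 318),(nat_lit 320)] [k10,k10,k5,k5,k10,k10,k0,
    k0,k7,k7,k6,k6] k0 [[k0,k0,k56,k0,k0,k0,k0,k0,k0,k0,k18],[k0,k0,k32,k0,k0,k0,k14],[k0,k0,k0,k0,k20,k20,k0,k0,k0,
    k44],[k32,k56],[k0,k0,k0,k20,k0,k0,k0,k36],[k0,k0,k0,k20,k0,k0,k0,k0,k0,k0,k38],[k0,k0,k0,k0,k0,k36,k0,k0,k12],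
    [k14,k0,k0,k0,k0,k0,k0,k0,k22],[k0,k0,k0,k44,k0,k0,k0,k0,k0,k0,k0,k34],[k0,k0,k0,k0,k0,k0,k22,k12],[k0,k0,k0,k0,
    k0,k0,k0,k0,k0,k34],[k0,k18,k0,k0,k38]] (nat_lit 960) k5
    [[(k7,(nat_lit 284)),(k0,(nat_lit 294)),(k4,(nat_lit 312)),(k8,(nat_lit 315)),(k3,(nat_lit 317)),(k11,
    (nat_lit 350))],[(k5,(nat_lit 256)),(k1,(nat_lit 294)),(k9,(nat_lit 315)),(k10,(nat_lit 316)),(k6,(nat_lit 336)),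
    (k2,(nat_lit 349))],[(k5,(nat_lit 285)),(k9,(nat_lit 306)),(k1,(nat_lit 317)),(k6,(nat_lit 327)),(k10,
    (nat_lit 339)),(k2,(nat_lit 378))],[(k8,(nat_lit 276)),(k4,(nat_lit 297)),(k7,(nat_lit 307)),(k11,(nat_lit 321)),
    (k0,(nat_lit 349)),(k3,(nat_lit 378))],[(k0,(nat_lit 256)),(k3,(nat_lit 285)),(k8,(nat_lit 315)),(k4,
    (nat_lit 332)),(k7,(nat_lit 342)),(k11,(nat_lit 360))],[(k6,(nat_lit 286)),(k2,(nat_lit 297)),(k1,(nat_lit 312)),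
    (k9,(nat_lit 315)),(k5,(nat_lit 332)),(k10,(nat_lit 354))],[(k1,(nat_lit 284)),(k2,(nat_lit 307)),(k10,
    (nat_lit 326)),(k6,(nat_lit 332)),(k5,(nat_lit 342)),(k9,(nat_lit 361))],[(k4,(nat_lit 286)),(k11,(nat_lit 314)),
    (k3,(nat_lit 327)),(k7,(nat_lit 332)),(k0,(nat_lit 336)),(k8,(nat_lit 347))],[(k11,(nat_lit 297)),(k3,
    (nat_lit 306)),(k0,(nat_lit 315)),(k4,(nat_lit 315)),(k8,(nat_lit 330)),(k7,(nat_lit 361))],[(k2,(nat_lit 276)),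
    (k10,(nat_lit 285)),(k1,(nat_lit 315)),(k5,(nat_lit 315)),(k9,(nat_lit 330)),(k6,(nat_lit 347))],[(k9,
    (nat_lit 297)),(k6,(nat_lit 314)),(k10,(nat_lit 320)),(k2,(nat_lit 321)),(k1,(nat_lit 350)),(k5,(nat_lit 360))],
    [(k8,(nat_lit 285)),(k0,(nat_lit 316)),(k11,(nat_lit 320)),(k7,(nat_lit 326)),(k3,(nat_lit 339)),(k4,
    (nat_lit 354))]]
    [] k0
    [[k3,k0,k0,k0,k0,k0],[k2,k0,k1,k0,k0,k0],[k2,k0,k0,k1,k0,k0],[k2,k0,k0,k0,k1,k0],[k1,k1,k1,k0,k0,k0],[k1,k1,k0,k0,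
    k1,k0],[k1,k1,k0,k0,k0,k1],[k1,k0,k2,k0,k0,k0],[k1,k0,k1,k0,k1,k0],[k1,k0,k1,k1,k0,k0],[k1,k0,k0,k2,k0,k0],[k1,k0,
    k0,k1,k1,k0],[k1,k0,k0,k1,k0,k1],[k1,k0,k0,k0,k1,k1],[k0,k1,k2,k0,k0,k0],[k0,k1,k1,k1,k0,k0],[k0,k1,k1,k0,k1,k0],
    [k0,k1,k0,k0,k2,k0],[k0,k1,k0,k0,k1,k1],[k0,k0,k0,k0,k2,k1],[k0,k0,k0,k0,k1,k2]]
    [.ref k6 k0 [(z1,[z1]),(z4,[y5,z5,z2]),(z1,[z0,z0,z0,z1]),(z4,[z1,y1,z0,z0,z2]),(z2,[y1,y1,y1,y2,y1,z6])],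
    .ref k6 k0 [(z2,[z3,z0,z0,y1]),(z8,[y15,z10,z4,z5]),(z1,[z0,z0,z0,z1]),(z8,[z3,y2,z0,y1,z4]),(z4,[y3,y2,y2,y3,y2,
    z12])],.ref k6 k0 [(z9,[z12,z1,z0,z0,y2]),(z18,[y30,z20,z9,z0,z5]),(z1,[z0,z0,z0,z1]),(z9,[z3,y2,z0,z0,z4]),(z18,
    [y12,y10,y9,y18,y7,z54])],.ref k6 k0 [(z3,[z6,z1,z1,z2,z1,y6]),(z12,[y30,z10,z1,y10,y5,z30]),(z1,[z0,z0,z0,z1]),
    (z12,[z6,y2,z1,z2,z7,y6]),(z3,[y3,y2,y2,y4,y2,z12])],.ref k6 k0 [(z1,[y12,z5,z2,z4]),(z1,[z15,y5,y2,y5]),(z1,[z0,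
    z0,z0,z1]),(z2,[y6,z2,z1,z2,z1]),(z2,[z12,y6,y3,y6,y1,z6])],.ref k6 k0 [(z3,[y12,z3,z0,y4,y2,z12]),(z6,[z30,z0,z3,
    z10,z5,y30]),(z1,[z0,z0,z0,z1]),(z3,[y3,z0,z0,y1,z1,z3]),(z6,[z12,y6,y3,y2,y1,z6])],.ref k6 k0 [(z1,[z12,y3,y2]),
    (z1,[y15,z5,z3]),(z1,[z0,z0,z0,z1]),(z2,[z6,y2,y1,z0,z1]),(z2,[y12,z2,z1,y2,y1,z6])],.ref k6 k0 [(z1,[z3,z0,z0,
    y2]),(z4,[y15,z5,z2,z10]),(z1,[z0,z0,z0,z1]),(z4,[z3,y1,z0,y2,z2]),(z2,[y3,y1,y1,z0,y1,z6])],.ref k6 k0 [(z1,[z6,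
    z1,z1,z0,z1,y6]),(z4,[y30,z0,y3,z0,y5,z30]),(z1,[z0,z0,z0,z1]),(z4,[z6,z0,z1,z0,z3,y6]),(z1,[y3,y1,y1,y1,y1,z6])],
    .ref k6 k0 [(z5,[z12,z1,z0,y4,y2]),(z2,[y6,z2,z1,z2,z1]),(z1,[z0,z0,z0,z1]),(z5,[z3,y1,z0,y1,z2]),(z10,[y12,y6,y5,
    y6,y3,z30])],.ref k6 k0 [(z3,[z6,z1,z0,z0,y2]),(z6,[y15,z5,z3,z0,z5]),(z1,[z0,z0,z0,z1]),(z6,[z3,y1,z0,z0,z2]),
    (z6,[y6,y4,y3,y6,y1,z18])],.ref k6 k0 [(z3,[z12,z3,z2,z4,z0,y12]),(z3,[y15,z0,y1,y5,z0,z15]),(z1,[z0,z0,z0,z1]),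
    (z6,[z6,z0,z1,z2,z3,y6]),(z6,[y12,y6,y5,y10,y3,z30])],.ref k6 k0 [(z7,[z12,z3,z0,z0,y2]),(z14,[y30,z10,z7,z0,z5]),
    (z1,[z0,z0,z0,z1]),(z7,[z3,y1,z0,z0,z3]),(z14,[y12,y10,y7,y14,y5,z42])],.ref k6 k0 [(z2,[z6,z2,z1,z2,z1,y6]),(z8,
    [y30,z0,y1,y10,y5,z30]),(z1,[z0,z0,z0,z1]),(z8,[z6,z0,z1,z2,z5,y6]),(z4,[y6,y4,y3,y6,y3,z18])],.ref k6 k0 [(z5,
    [y12,z5,z2,z8]),(z1,[z3,z0,z0,y2]),(z1,[z0,z0,z0,z1]),(z10,[y6,z0,z1,z4,z5]),(z10,[z12,y10,y7,y18,y5,z30])],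
    .ref k6 k0 [(z2,[y6,z2,z1,z2,z1]),(z8,[z30,z0,y1,y10,y5]),(z1,[z0,z0,z0,z1]),(z8,[y6,z0,z1,z2,z5]),(z4,[z6,y4,y3,
    y6,y3,z12])],.ref k6 k0 [(z7,[y12,z3,z0,z0,y2,z12]),(z14,[z30,z10,z7,z0,z5,y30]),(z1,[z0,z0,z0,z1]),(z7,[y3,y1,z0,
    z0,z3,z3]),(z14,[z12,y10,y7,y14,y5,z30])],.ref k6 k0 [(z9,[y12,z1,y2,y8,y4,z24]),(z9,[z15,z10,z7,z10,z5,y30]),(z1,
    [z0,z0,z0,z1]),(z18,[y6,y4,y1,y4,z7,z12]),(z18,[z12,y10,y7,y10,y5,z30])],.ref k6 k0 [(z5,[y12,z1,z0,y4,y2,z12]),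
    (z2,[z6,z2,z1,z2,z1,y6]),(z1,[z0,z0,z0,z1]),(z5,[y3,y1,z0,y1,z2,z3]),(z10,[z12,y6,y5,y6,y3,z18])],.ref k6 k0 [(z1,
    [y6,y3,y2,y4,y2,z12]),(z2,[z15,z10,z6,z10,z5,y30]),(z1,[z0,z0,z0,z1]),(z2,[y3,y2,y1,y2,z0,z6]),(z2,[z6,z2,z1,z2,
    z1,y6])],.ref k6 k0 [(z1,[z6,z3,z1,z2,z1,y6]),(z4,[y30,y10,y3,y10,y5,z30]),(z1,[z0,z0,z0,z1]),(z4,[z6,z2,z1,z2,z3,
    y6]),(z1,[y3,y2,y1,y2,y1,z6])]],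
    .lp [(nat_lit 300),(nat_lit 316),(nat_lit 336),(nat_lit 302),(nat_lit 324),(nat_lit 340)] [k20,k20,k12,k12,k2,k2,k19,
    k19,k8,k8,k0,k0] k0 [[k0,k0,k26,k0,k0,k0,k0,k44],[k0,k0,k2,k0,k0,k0,k0,k0,k0,k0,k0,k20],[k0,k0,k0,k0,k0,k26,k0,k0,
    k0,k22],[k2,k26],[k0,k0,k0,k26,k0,k0,k0,k40],[k0,k0,k0,k0,k0,k0,k0,k10,k0,k0,k10],[k0,k44,k0,k0,k10,k40],[k0,k0,
    k0,k0,k0,k0,k0,k0,k2,k26],[k0,k0,k0,k22,k0,k0,k26],[k0,k0,k0,k0,k0,k0,k2,k0,k0,k0,k0,k16],[k20,k0,k0,k0,k0,k0,k0,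
    k0,k16],[k0,k0,k0,k0,k10]] (nat_lit 960) k5
    [[(k7,(nat_lit 291)),(k3,(nat_lit 308)),(k4,(nat_lit 318)),(k0,(nat_lit 320)),(k11,(nat_lit 320)),(k8,
    (nat_lit 328))],[(k6,(nat_lit 257)),(k5,(nat_lit 292)),(k2,(nat_lit 310)),(k9,(nat_lit 312)),(k1,(nat_lit 320)),
    (k10,(nat_lit 320))],[(k1,(nat_lit 308)),(k10,(nat_lit 308)),(k6,(nat_lit 309)),(k5,(nat_lit 324)),(k2,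
    (nat_lit 342)),(k9,(nat_lit 364))],[(k8,(nat_lit 298)),(k4,(nat_lit 300)),(k7,(nat_lit 309)),(k0,(nat_lit 310)),
    (k11,(nat_lit 328)),(k3,(nat_lit 342))],[(k0,(nat_lit 292)),(k3,(nat_lit 324)),(k8,(nat_lit 330)),(k4,
    (nat_lit 336)),(k7,(nat_lit 345)),(k11,(nat_lit 360))],[(k6,(nat_lit 279)),(k2,(nat_lit 300)),(k1,(nat_lit 318)),
    (k5,(nat_lit 336)),(k9,(nat_lit 340)),(k10,(nat_lit 348))],[(k1,(nat_lit 291)),(k6,(nat_lit 292)),(k2,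
    (nat_lit 309)),(k10,(nat_lit 321)),(k5,(nat_lit 345)),(k9,(nat_lit 353))],[(k0,(nat_lit 257)),(k4,(nat_lit 279)),
    (k7,(nat_lit 292)),(k3,(nat_lit 309)),(k8,(nat_lit 315)),(k11,(nat_lit 347))],[(k8,(nat_lit 298)),(k0,
    (nat_lit 312)),(k11,(nat_lit 330)),(k4,(nat_lit 340)),(k7,(nat_lit 353)),(k3,(nat_lit 364))],[(k2,(nat_lit 298)),
    (k9,(nat_lit 298)),(k6,(nat_lit 315)),(k1,(nat_lit 328)),(k5,(nat_lit 330)),(k10,(nat_lit 332))],[(k1,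
    (nat_lit 320)),(k10,(nat_lit 324)),(k2,(nat_lit 328)),(k9,(nat_lit 330)),(k6,(nat_lit 347)),(k5,(nat_lit 360))],
    [(k3,(nat_lit 308)),(k0,(nat_lit 320)),(k7,(nat_lit 321)),(k11,(nat_lit 324)),(k8,(nat_lit 332)),(k4,
    (nat_lit 348))]]
    [] k0
    [[k2,k1,k0,k0,k0,k0],[k2,k0,k1,k0,k0,k0],[k2,k0,k0,k1,k0,k0],[k1,k1,k1,k0,k0,k0],[k1,k1,k0,k1,k0,k0],[k1,k1,k0,k0,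
    k1,k0],[k1,k1,k0,k0,k0,k1],[k1,k0,k2,k0,k0,k0],[k1,k0,k1,k1,k0,k0],[k1,k0,k0,k2,k0,k0],[k1,k0,k0,k1,k1,k0],[k1,k0,
    k0,k1,k0,k1],[k1,k0,k0,k0,k2,k0],[k0,k1,k1,k1,k0,k0],[k0,k1,k0,k2,k0,k0],[k0,k1,k0,k1,k0,k1],[k0,k1,k0,k0,k1,k1],
    [k0,k0,k1,k2,k0,k0],[k0,k0,k0,k3,k0,k0],[k0,k0,k0,k0,k3,k0]]
    [.ref k6 k0 [(z1,[z2,y1,y2]),(z1,[y1,z2,z4]),(z2,[y5,z10,z5,z6]),(z1,[z5,y10,y5,z0,z3]),(z1,[y4,z5,z1,y3,y3,z3])],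
    .ref k6 k0 [(z1,[z4,y5,z0,y4]),(z1,[y2,z4,z3,z2]),(z1,[y5,z10,z0,z8]),(z1,[z10,y20,z0,y10,z3]),(z1,[y8,z13,y3,z5,
    y3,z3])],.ref k6 k0 [(z3,[z2,z5,z0,z0,y2]),(z3,[y1,z2,z9,z0,z1]),(z6,[y5,z10,z0,z18,z5]),(z3,[z5,y10,z0,z0,z4]),
    (z3,[y4,y1,y9,y9,y5,z9])],.ref k6 k0 [(z1,[y4,z7,z4,z4]),(z1,[z2,y2,z1,y2]),(z1,[z5,y5,y5,y2]),(z1,[y10,z10,z10,
    z10,z3]),(z1,[z8,y11,y11,y11,y3,z3])],.ref k6 k0 [(z1,[z1,z2,y1,z0,y1]),(z2,[y1,z1,z7,z0,z1]),(z4,[y5,z5,z5,z12,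
    z5]),(z2,[z5,y5,y5,z0,z1]),(z1,[y2,y1,y1,y3,y1,z3])],.ref k6 k0 [(z1,[y2,z3,z0,y2,y2,z2]),(z1,[z1,z0,z3,z1,z1,
    y1]),(z2,[z5,z0,z0,z11,z5,y5]),(z1,[y5,z0,z0,y5,y2,z5]),(z1,[z4,y3,y3,z1,z1,y1])],.ref k6 k0 [(z1,[z4,y1,y4]),(z1,
    [y2,z2,z5]),(z1,[y5,z5,z5,z3]),(z1,[z10,y10,y10,z0,z3]),(z1,[y8,z5,z5,y3,y3,z3])],.ref k6 k0 [(z1,[y2,z5,z0,z4]),
    (z1,[z1,y1,z3,y2]),(z2,[z5,y5,z0,y4]),(z1,[y5,z5,z0,z10,z3]),(z1,[z4,y7,y3,y11,y3,z3])],.ref k6 k0 [(z3,[z4,z5,z0,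
    y4,y4]),(z3,[y2,z2,z9,z2,z2]),(z3,[y5,z5,z0,z14,z5]),(z3,[z10,y10,z0,y10,y1]),(z3,[y8,y1,y9,y1,y1,z9])],
    .ref k6 k0 [(z2,[z1,z5,z0,z0,y2]),(z4,[y1,z1,z12,z0,z2]),(z8,[y5,z5,z0,z24,z10]),(z4,[z5,y5,z0,z0,z2]),(z1,[y1,y2,
    y3,y3,y1,z3])],.ref k6 k0 [(z1,[z2,z3,z2,z2,z0,y2]),(z1,[y1,z0,z2,y1,z0,z1]),(z2,[y5,z0,y5,z1,z0,z5]),(z1,[z5,z0,
    z5,z5,z3,y5]),(z1,[y4,y3,y7,y7,y3,z7])],.ref k6 k0 [(z5,[z4,z11,z0,z0,y4]),(z5,[y2,z2,z15,z0,z2]),(z1,[y1,z1,z0,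
    z3,z1]),(z1,[z2,y2,z0,z0,z1]),(z5,[y8,y7,y15,y15,y7,z15])],.ref k6 k0 [(z1,[y1,z2,y2,y2,y2,z2]),(z2,[z1,z1,z8,z2,
    z2,y2]),(z4,[z5,z5,z10,z22,z10,y10]),(z2,[y5,y5,y10,y10,y4,z10]),(z1,[z2,y1,z1,z1,z1,y1])],.ref k6 k0 [(z1,[z4,z3,
    y4,y4,y4]),(z1,[y2,z0,z5,z2,z2]),(z1,[y5,z0,z5,z8,z5]),(z1,[z10,z0,y10,y10,y7]),(z1,[y8,y3,z5,z5,z5,z3])],
    .ref k6 k0 [(z3,[z2,z9,y2,z0,y4]),(z3,[y1,z0,z10,z0,z2]),(z6,[y5,z0,z5,z18,z10]),(z3,[z5,z0,y5,z0,y1]),(z3,[y4,y9,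
    y5,y9,y1,z9])],.ref k6 k0 [(z3,[z4,z9,y4,z0,y4]),(z3,[y2,z0,z11,z0,z2]),(z3,[y5,z0,z5,z9,z5]),(z3,[z10,z0,y10,z0,
    y1]),(z3,[y8,y9,y1,y9,y1,z9])],.ref k6 k0 [(z3,[y4,z5,z0,y4,y4,z4]),(z3,[z2,z2,z9,z2,z2,y2]),(z3,[z5,z5,z0,z14,z5,
    y5]),(z3,[y10,y10,z0,y10,y1,z10]),(z3,[z8,y1,y9,y1,y1,z1])],.ref k6 k0 [(z5,[z4,z15,z0,y4,y8]),(z5,[y2,z0,z15,z2,
    z4]),(z1,[y1,z0,z0,z4,z2]),(z1,[z2,z0,z0,y2,y1]),(z5,[y8,y15,y15,y7,z1,z15])],.ref k6 k0 [(z5,[z2,z15,z0,z0,y6]),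
    (z5,[y1,z0,z15,z0,z3]),(z2,[y1,z0,z0,z6,z3]),(z1,[z1]),(z5,[y4,y15,y15,y15,y3,z15])],.ref k6 k0 [(z2,[y1,z3,y3,y3,
    y3,z3]),(z4,[z1,z3,z15,z3,z3,y3]),(z8,[z5,z15,z15,z39,z15,y15]),(z4,[y5,y15,y15,y15,y3,z15]),(z1,[z1])]],
    .lp [(nat_lit 320),(nat_lit 282),(nat_lit 336),(nat_lit 328),(nat_lit 312),(nat_lit 340)] [k10,k10,k29,k29,k2,k2,k6,
    k6,k14,k14,k0,k0] k0 [[k0,k0,k68,k0,k0,k0,k0,k28],[k0,k0,k8],[k0,k0,k0,k0,k0,k0,k0,k0,k2,k2],[k8,k68],[k0,k0,k0,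
    k0,k0,k0,k0,k40,k0,k0,k10],[k0,k0,k0,k0,k0,k0,k0,k60,k0,k0,k12],[k0,k28,k0,k0,k60,k40],[k0,k0,k0,k0,k0,k0,k0,k0,
    k12,k14],[k0,k0,k0,k2,k0,k0,k14,k0,k0,k0,k0,k20],[k0,k0,k0,k2,k0,k0,k12],[k0,k0,k0,k0,k0,k0,k0,k0,k0,k20],[k0,k0,
    k0,k0,k12,k10]] (nat_lit 960) k5
    [[(k3,(nat_lit 301)),(k7,(nat_lit 312)),(k8,(nat_lit 316)),(k4,(nat_lit 318)),(k0,(nat_lit 320)),(k11,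
    (nat_lit 350))],[(k5,(nat_lit 260)),(k6,(nat_lit 296)),(k2,(nat_lit 309)),(k9,(nat_lit 316)),(k1,(nat_lit 320)),
    (k10,(nat_lit 330))],[(k1,(nat_lit 301)),(k5,(nat_lit 301)),(k6,(nat_lit 305)),(k10,(nat_lit 311)),(k9,
    (nat_lit 325)),(k2,(nat_lit 350))],[(k8,(nat_lit 295)),(k7,(nat_lit 305)),(k0,(nat_lit 309)),(k4,(nat_lit 309)),
    (k11,(nat_lit 309)),(k3,(nat_lit 350))],[(k0,(nat_lit 260)),(k3,(nat_lit 301)),(k8,(nat_lit 326)),(k7,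
    (nat_lit 332)),(k4,(nat_lit 336)),(k11,(nat_lit 340))],[(k6,(nat_lit 292)),(k2,(nat_lit 309)),(k1,(nat_lit 318)),
    (k5,(nat_lit 336)),(k10,(nat_lit 350)),(k9,(nat_lit 384))],[(k6,(nat_lit 268)),(k2,(nat_lit 305)),(k1,
    (nat_lit 312)),(k5,(nat_lit 332)),(k10,(nat_lit 344)),(k9,(nat_lit 360))],[(k7,(nat_lit 268)),(k4,(nat_lit 292)),
    (k0,(nat_lit 296)),(k3,(nat_lit 305)),(k8,(nat_lit 332)),(k11,(nat_lit 348))],[(k8,(nat_lit 298)),(k11,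
    (nat_lit 314)),(k0,(nat_lit 316)),(k3,(nat_lit 325)),(k7,(nat_lit 360)),(k4,(nat_lit 384))],[(k2,(nat_lit 295)),
    (k9,(nat_lit 298)),(k10,(nat_lit 306)),(k1,(nat_lit 316)),(k5,(nat_lit 326)),(k6,(nat_lit 332))],[(k2,
    (nat_lit 309)),(k9,(nat_lit 314)),(k5,(nat_lit 340)),(k10,(nat_lit 340)),(k6,(nat_lit 348)),(k1,(nat_lit 350))],
    [(k8,(nat_lit 306)),(k3,(nat_lit 311)),(k0,(nat_lit 330)),(k11,(nat_lit 340)),(k7,(nat_lit 344)),(k4,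
    (nat_lit 350))]]
    [] k0
    [[k2,k1,k0,k0,k0,k0],[k2,k0,k1,k0,k0,k0],[k2,k0,k0,k1,k0,k0],[k2,k0,k0,k0,k1,k0],[k1,k1,k1,k0,k0,k0],[k1,k1,k0,k1,
    k0,k0],[k1,k1,k0,k0,k1,k0],[k1,k1,k0,k0,k0,k1],[k1,k0,k2,k0,k0,k0],[k1,k0,k1,k1,k0,k0],[k1,k0,k0,k2,k0,k0],[k1,k0,
    k0,k0,k2,k0],[k0,k1,k2,k0,k0,k0],[k0,k1,k1,k1,k0,k0],[k0,k1,k0,k2,k0,k0],[k0,k1,k0,k1,k0,k1],[k0,k1,k0,k0,k2,k0],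
    [k0,k1,k0,k0,k1,k1],[k0,k0,k1,k2,k0,k0],[k0,k0,k0,k3,k0,k0],[k0,k0,k0,k0,k3,k0],[k0,k0,k0,k0,k2,k1]]
    [.ref k6 k0 [(z1,[z2,y1,y2]),(z1,[y1,z2,z4]),(z5,[z4,y8,y4,z15]),(z5,[y8,z16,z8,z0,z15]),(z5,[y2,y11,y13,y15,y15,
    z15])],.ref k6 k0 [(z4,[z5,z2,z0,y5]),(z8,[y5,z10,z24,z5]),(z2,[z1,y2,z0,z5]),(z1,[y1,z2,z0,z1,z3]),(z4,[y1,y10,
    y12,y11,y12,z12])],.ref k6 k0 [(z2,[z5,y4,z0,z0,y5]),(z4,[y5,z10,z12,z0,z5]),(z1,[z1,y2,z0,z3,y1]),(z1,[y2,z4,z0,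
    z0,z5]),(z2,[y1,y4,y6,y6,y5,z6])],.ref k6 k0 [(z3,[z5,z4,z5,z5,z5,y5]),(z6,[y5,z5,z13,y5,y5,z5]),(z3,[z2,y2,z2,
    z11,z2,y2]),(z3,[y4,z4,y4,y4,z5,z4]),(z3,[y1,y8,y10,y10,y10,z10])],.ref k6 k0 [(z3,[z10,y1,y10,y10]),(z3,[y5,z5,
    z14,z5]),(z3,[z4,y4,y4,z5]),(z3,[y8,z8,z8,z8,z9]),(z3,[y2,y7,y7,y7,y9,z9])],.ref k6 k0 [(z1,[y10,z13,z10,z0,z10]),
    (z1,[z5,y5,y2,z0,y5]),(z1,[y4,z4,z4,z3,z4]),(z1,[z8,y8,y8,z0,y5]),(z1,[z2,y5,y5,y3,y5,z3])],.ref k6 k0 [(z1,[z10,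
    z3,z0,z10,z10,y10]),(z1,[y5,z0,z3,y5,y5,z5]),(z1,[z4,z0,z0,z7,z4,y4]),(z1,[y8,z0,z0,y8,y5,z8]),(z1,[y2,y3,y3,y5,
    y5,z5])],.ref k6 k0 [(z1,[z5,y2,y5]),(z2,[y5,z5,z11]),(z1,[z2,y2,y2,z3]),(z1,[y4,z4,z4,z0,z3]),(z1,[y1,y2,y2,y3,
    y3,z3])],.ref k6 k0 [(z3,[z5,z4,z0,y10]),(z6,[y5,z5,z18,z10]),(z3,[z2,y2,z0,z5]),(z3,[y4,z4,z0,z8,z9]),(z3,[y1,y8,
    y9,y7,y9,z9])],.ref k6 k0 [(z1,[z5,y2,z0,y5,y5]),(z2,[y5,z5,z6,z5,z5]),(z1,[z2,y2,z0,z1,y2]),(z1,[y4,z4,z0,z4,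
    z7]),(z1,[y1,y2,y3,y2,y2,z3])],.ref k6 k0 [(z1,[y5,z8,z0,z0,z10]),(z2,[z5,y5,z6,z0,y10]),(z1,[y2,z2,z0,z3,z4]),
    (z1,[z4,y4,z0,z0,y5]),(z1,[z1,y4,y3,y3,y5,z3])],.ref k6 k0 [(z1,[z5,z8,z10,z10,z10,y10]),(z2,[y5,y5,y4,y10,y10,
    z10]),(z1,[z2,z2,z4,z7,z4,y4]),(z1,[y4,y4,y8,y8,y5,z8]),(z1,[y1,y4,y5,y5,y5,z5])],.ref k6 k0 [(z1,[z10,z3,y10,
    y20]),(z1,[y5,z0,z8,z10]),(z1,[z4,z0,y4,y5]),(z1,[y8,z0,z8,z16,z3]),(z1,[y2,y3,y1,z1,y3,z3])],.ref k6 k0 [(z3,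
    [y10,z9,z10,z10,z10]),(z3,[z5,z0,z4,y5,y5]),(z3,[y4,z0,z4,z13,z4]),(z3,[z8,z0,y8,y8,z1]),(z3,[z2,y9,y11,y11,y11,
    z9])],.ref k6 k0 [(z7,[y10,z21,z10,z0,z20]),(z7,[z5,z0,z16,z0,y10]),(z7,[y4,z0,z4,z21,z8]),(z7,[z8,z0,y8,z0,z5]),
    (z7,[z2,y21,y23,y21,y25,z21])],.ref k6 k0 [(z2,[y5,z6,z5,z0,z5]),(z4,[z5,z0,z7,z0,y5]),(z1,[y1,z0,z1,z3,z1]),(z1,
    [z2,z0,y2,z0,z1]),(z2,[z1,y6,y7,y6,y7,z6])],.ref k6 k0 [(z3,[y10,y11,y10,y20,y20,z20]),(z3,[z5,z10,z14,z10,z10,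
    y10]),(z3,[y4,y8,y4,z1,y8,z8]),(z3,[z8,z16,z8,z16,z25,y16]),(z3,[z2,y5,y7,y5,y5,z5])],.ref k6 k0 [(z1,[y5,y2,z0,
    y5,y5,z5]),(z2,[z5,z5,z6,z5,z5,y5]),(z1,[y2,y2,z0,z1,y2,z2]),(z1,[z4,z4,z0,z4,z7,y4]),(z1,[z1,y2,y3,y2,y2,z2])],
    .ref k6 k0 [(z2,[y5,z6,z0,z5,z10]),(z4,[z5,z0,z12,y5,y10]),(z1,[y1,z0,z0,z4,z2]),(z1,[z2,z0,z0,y2,y1]),(z2,[z1,y6,
    y6,y7,y8,z6])],.ref k6 k0 [(z4,[y5,z12,z0,z0,z15]),(z8,[z5,z0,z24,z0,y15]),(z2,[y1,z0,z0,z6,z3]),(z1,[z1]),(z4,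
    [z1,y12,y12,y12,y15,z12])],.ref k6 k0 [(z1,[y5,y12,y15,y15,y15,z15]),(z2,[z5,z15,z21,z15,z15,y15]),(z1,[y2,y6,y6,
    y3,y6,z6]),(z1,[z4,z12,z12,z12,z15,y12]),(z1,[z1])],.ref k6 k0 [(z1,[y10,y17,y20,y20,y20,z20]),(z1,[z5,z10,z13,
    z10,z10,y10]),(z1,[y4,y8,y8,y5,y8,z8]),(z1,[z8,z16,z16,z16,z19,y16]),(z1,[z2,z1,z1,z1,z1,y1])]],
    .leafM k1 [k0,k1,k2,k3,k4,k5] [(z1,[z0,z1,z0,z1]),(z1,[z0,y1,z0,y1,z1])] [],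
    .lp [(nat_lit 330),(nat_lit 280),(nat_lit 326),(nat_lit 328),(nat_lit 346),(nat_lit 306)] [k8,k8,k33,k33,k10,k10,k9,
    k9,k0,k0,k20,k20] k0 [[k0,k0,k0,k0,k0,k0,k22,k54,k0,k0,k0,k2],[k0,k0,k0,k0,k0,k0,k0,k0,k0,k0,k0,k26],[k0,k0,k0,k0,
    k0,k54,k0,k0,k28],[k0,k0,k0,k0,k0,k74],[k0,k0,k74,k54],[k0,k0,k0,k0,k0,k0,k0,k8],[k0,k54,k0,k0,k8,k0,k0,k0,k0,
    k54],[k0,k22,k0,k0,k0,k0,k0,k0,k0,k6],[k0,k0,k0,k0,k0,k0,k6,k54,k0,k0,k22],[k0,k0,k0,k28,k0,k0,k0,k0,k0,k0,k2],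
    [k26,k2],[k0,k0,k0,k0,k0,k0,k0,k0,k2,k22]] (nat_lit 960) k5
    [[(k3,(nat_lit 307)),(k8,(nat_lit 316)),(k11,(nat_lit 316)),(k4,(nat_lit 328)),(k7,(nat_lit 329)),(k0,
    (nat_lit 356))],[(k6,(nat_lit 275)),(k2,(nat_lit 305)),(k9,(nat_lit 316)),(k10,(nat_lit 316)),(k5,(nat_lit 328)),
    (k1,(nat_lit 356))],[(k10,(nat_lit 267)),(k2,(nat_lit 280)),(k5,(nat_lit 303)),(k1,(nat_lit 307)),(k6,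
    (nat_lit 326)),(k9,(nat_lit 367))],[(k4,(nat_lit 249)),(k11,(nat_lit 265)),(k3,(nat_lit 280)),(k0,(nat_lit 305)),
    (k8,(nat_lit 313)),(k7,(nat_lit 378))],[(k4,(nat_lit 252)),(k3,(nat_lit 303)),(k11,(nat_lit 316)),(k0,
    (nat_lit 328)),(k8,(nat_lit 364)),(k7,(nat_lit 381))],[(k2,(nat_lit 249)),(k5,(nat_lit 252)),(k10,(nat_lit 316)),
    (k6,(nat_lit 327)),(k1,(nat_lit 328)),(k9,(nat_lit 344))],[(k10,(nat_lit 317)),(k6,(nat_lit 320)),(k1,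
    (nat_lit 329)),(k9,(nat_lit 337)),(k2,(nat_lit 378)),(k5,(nat_lit 381))],[(k0,(nat_lit 275)),(k8,(nat_lit 283)),
    (k7,(nat_lit 320)),(k11,(nat_lit 323)),(k3,(nat_lit 326)),(k4,(nat_lit 327))],[(k0,(nat_lit 316)),(k7,
    (nat_lit 337)),(k8,(nat_lit 340)),(k4,(nat_lit 344)),(k3,(nat_lit 367)),(k11,(nat_lit 380))],[(k6,(nat_lit 283)),
    (k2,(nat_lit 313)),(k1,(nat_lit 316)),(k10,(nat_lit 328)),(k9,(nat_lit 340)),(k5,(nat_lit 364))],[(k2,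
    (nat_lit 265)),(k1,(nat_lit 316)),(k5,(nat_lit 316)),(k6,(nat_lit 323)),(k10,(nat_lit 328)),(k9,(nat_lit 380))],
    [(k3,(nat_lit 267)),(k0,(nat_lit 316)),(k4,(nat_lit 316)),(k7,(nat_lit 317)),(k8,(nat_lit 328)),(k11,
    (nat_lit 328))]]
    [] k0
    [[k1,k2,k0,k0,k0,k0],[k1,k1,k1,k0,k0,k0],[k1,k1,k0,k0,k1,k0],[k1,k1,k0,k0,k0,k1],[k1,k0,k2,k0,k0,k0],[k1,k0,k0,k2,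
    k0,k0],[k1,k0,k0,k1,k1,k0],[k1,k0,k0,k1,k0,k1],[k0,k3,k0,k0,k0,k0],[k0,k2,k1,k0,k0,k0],[k0,k2,k0,k0,k0,k1],[k0,k1,
    k2,k0,k0,k0],[k0,k1,k1,k0,k0,k1],[k0,k1,k1,k1,k0,k0],[k0,k1,k0,k1,k0,k1],[k0,k1,k0,k0,k0,k2],[k0,k0,k3,k0,k0,k0],
    [k0,k0,k2,k0,k0,k1],[k0,k0,k0,k2,k1,k0]]
    [.ref (nat_lit 315) k1 [(z2,[y10,z5,z0,z1]),(z2,[z8,y5,y2,y1,z2]),(z1,[z2,y1,z1]),(z1,[y2,z1])],.ref k162 k2 [(z2,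
    [z2,y5,z0,y1]),(z2,[z0,z5,z0,z1]),(z2,[z0,y5,y2,y1,z2]),(z2,[y2,z3,z2,z1])],.ref k17 k7 [(z1,[y2,z1,z2]),(z1,[z1,
    z1,y1]),(z1,[z2,y1,z1]),(z2,[y10,z5,z10,z3])],.ref (nat_lit 316) k9 [(z2,[z8,y5,y10,y1,z2]),(z2,[y10,z5,z10,z1]),
    (z1,[z2,y1,y1]),(z1,[z1,z0,y1])],.ref k17 k7 [(z3,[z2,y1,z0,y2]),(z3,[y1,z5,z0,z1]),(z3,[y2,z1,z9,z2]),(z6,[z10,
    y5,z0,y1])],.ref k17 k7 [(z3,[y2,y1,y4,y2,z4]),(z3,[z1,z5,z2,z1,y2]),(z3,[z2,z1,z13,z2,y4]),(z6,[y10,y5,y20,y1,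
    z20])],.ref (nat_lit 317) k2 [(z2,[y2,y7,z0,y1,z2]),(z2,[z0,z5,z0,z1]),(z2,[z0,y5,y2,y1,z2]),(z2,[z2,z5,z2,z1,
    y2])],.ref k17 k7 [(z1,[y2,z0,y2,y1,z2]),(z2,[z2,z3,z2,z1,y2]),(z1,[z2,z0,z5,z1,y2]),(z1,[y5,z0,y5,y1,z5])],
    .ref (nat_lit 318) k9 [(z2,[z4,y3,y18,y3,z6]),(z1,[y5,z0,z15,z3]),(z1,[z1]),(z1,[z1,z3,y3])],
    .ref (nat_lit 319) k7 [(z1,[z2,z0,y4,y1]),(z2,[y2,z1,z4,z1]),(z1,[y2,z0,z5,z1]),(z1,[z5,z0,y10,y2])],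
    .ref (nat_lit 316) k9 [(z2,[z4,y1,y10,y1,z2]),(z2,[y5,z0,z10,z1]),(z1,[z1,z0,y1]),(z2,[z1,z1,y2])],
    .ref (nat_lit 320) k2 [(z1,[z1,y5,z0,y1]),(z2,[z0,z5,z0,z1]),(z2,[z0,y5,y2,y1,z2]),(z1,[y1,z4,z1,z1])],
    .ref (nat_lit 317) k2 [(z2,[z2,y7,z0,y1]),(z2,[z0,z5,z0,z1]),(z2,[z0,y5,y2,y1,z2]),(z2,[y2,z5,z2,z1])],
    .ref (nat_lit 316) k9 [(z2,[z8,z3,y2,y1,y6]),(z2,[y10,y5,z0,z1,z10]),(z1,[z2,z1,z1,z0,y2]),(z1,[z1,z1,z0,z0,y1])],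
    .ref (nat_lit 321) k1 [(z2,[y10,y5,y10,y3,z10]),(z2,[z4,z1,z2,z1,y2]),(z2,[z2,z1,z4,z1,y2]),(z2,[y2,y1,y2,y1,
    z2])],.ref k162 k2 [(z1,[z1,y2]),(z2,[z0,z5,z0,z1]),(z2,[z0,y5,y2,y1,z2]),(z1,[y1,z1,z1])],.ref k17 k7 [(z5,[z2,
    z0,z0,y3]),(z10,[y2,z15,z0,z3]),(z5,[y2,z0,z15,z3]),(z1,[z1])],.ref k17 k7 [(z2,[z1,z0,z0,y1]),(z4,[y1,z6,z0,z1]),
    (z2,[y1,z0,z6,z1]),(z4,[z5,z0,z0,z1])],.ref (nat_lit 320) k2 [(z1,[y1,y6,y1,y1,z2]),(z2,[z0,z5,z0,z1]),(z2,[z0,y5,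
    y2,y1,z2]),(z1,[z1,z5,z2,z1,y2])]],
    .leafM k1 [k0,k1,k2,k3,k4,k5] [(z1,[z0,z1]),(z1,[z0,y1,z0,z1])] [],
    .leafM k6 [k2,k3,k4,k5,k0,k1] [(z1,[z1,z1])] [],
    .lp [k160,k162,k170,k150,k156,k158] [k5,k5,k4,k4,k0,k0,k10,k10,k7,k7,k6,k6] k0 [[k0,k0,k0,k0,k0,k0,k10,k8],[k0,k0,k0,
    k2,k0,k0,k0,k0,k0,k0,k2],[k2,k0,k0,k0,k2],[k0,k0,k0,k0,k0,k0,k0,k0,k10],[k0,k0,k0,k0,k0,k0,k18,k0,k0,k0,k0,k10],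
    [k0,k0,k0,k2,k0,k0,k0,k0,k0,k0,k0,k8],[k0,k8,k0,k0,k0,k0,k0,k0,k16],[k0,k10,k0,k0,k0,k18,k0,k0,k6],[k0,k0,k0,k0,
    k0,k0,k0,k0,k0,k0,k38],[k0,k0,k10,k0,k0,k0,k6,k16],[k0,k0,k0,k0,k8,k10],[k2,k0,k0,k0,k0,k0,k0,k0,k0,
    k38]] (nat_lit 480) k5
    [[(k8,k120),(k3,k159),(k11,k159),(k0,k160),(k7,k165),(k4,k173)],[(k6,k147),(k9,k148),(k1,k160),(k2,k161),(k10,
    k161),(k5,k167)],[(k1,k159),(k2,k160),(k10,k160),(k5,k166),(k6,k166),(k9,k167)],[(k7,k154),(k3,k160),(k11,k160),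
    (k0,k161),(k4,k166),(k8,k169)],[(k11,k154),(k7,k160),(k8,k163),(k3,k166),(k0,k167),(k4,k172)],[(k9,k145),(k10,
    k154),(k6,k160),(k2,k166),(k5,k172),(k1,k173)],[(k10,k146),(k9,k153),(k2,k154),(k5,k160),(k1,k165),(k6,k168)],
    [(k11,k138),(k0,k147),(k8,k159),(k4,k160),(k3,k166),(k7,k168)],[(k4,k145),(k0,k148),(k11,k151),(k7,k153),(k3,
    k167),(k8,k172)],[(k1,k120),(k10,k157),(k6,k159),(k5,k163),(k2,k169),(k9,k172)],[(k6,k138),(k9,k151),(k5,k154),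
    (k1,k159),(k2,k160),(k10,k196)],[(k7,k146),(k4,k154),(k8,k157),(k3,k160),(k0,k161),(k11,k196)]]
    [] k0
    [[k2,k0,k0,k1,k0,k0],[k2,k0,k0,k0,k1,k0],[k1,k1,k0,k1,k0,k0],[k1,k1,k0,k0,k1,k0],[k1,k0,k0,k1,k1,k0],[k1,k0,k0,k1,
    k0,k1],[k1,k0,k1,k0,k1,k0],[k1,k0,k0,k0,k2,k0],[k1,k0,k0,k0,k1,k1],[k0,k1,k0,k1,k0,k1],[k0,k0,k1,k1,k1,k0],[k0,k0,
    k1,k1,k0,k1],[k0,k0,k1,k0,k1,k1],[k0,k0,k0,k2,k0,k1],[k0,k0,k0,k1,k1,k1]]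
    [.ref (nat_lit 314) k5 [(z1,[z1,y2,y4]),(z1,[y1,z2,z5]),(z1,[z0,y1,y3,z1])],.ref (nat_lit 322) k2 [(z1,[z0,z1,
    z2]),(z1,[z0,z0,y1,z1]),(z1,[y2,y1])],.ref (nat_lit 280) k0 [(z1,[z1,z0,y1]),(z1,[y1,z1,z3]),(z1,[y1,z0,z0,z1])],
    .ref k113 k8 [(z1,[z1,y1,y1]),(z1,[y1,z0,z0,z1]),(z1,[z1,z0,y1])],.ref (nat_lit 297) k0 [(z1,[z2,z1]),(z1,[y1,z1,
    z3]),(z1,[y2,y1,y3,z3])],.ref (nat_lit 269) k6 [(z1,[y2,y1]),(z1,[z1]),(z1,[z0,z0,y1,z1])],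
    .ref (nat_lit 323) k0 [(z1,[z2,z1,z2,y2]),(z1,[y1,z0,z0,z1]),(z1,[y2,y1,y3,z3])],.ref k113 k8 [(z2,[z1,y1]),(z2,
    [y1,y1,y2,z2]),(z2,[z1,z1])],.ref (nat_lit 324) k4 [(z1,[y1,z0,y1,z1]),(z1,[z0,z0,z1]),(z1,[z0,z1])],
    .ref (nat_lit 323) k0 [(z1,[y2,z1,z2]),(z1,[z1]),(z1,[z2,y1,y3,z1])],.ref k119 k10 [(z1,[y1,z0,z1]),(z1,[z2,z1]),
    (z1,[y2,y1,y1,z1])],.ref k113 k8 [(z1,[y1,y1,y1,z1]),(z1,[z1]),(z1,[y1,z0,y1,z1])],.ref (nat_lit 280) k0 [(z1,[y1,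
    z0,y1,z1]),(z1,[z1,z1,z3,y1]),(z1,[z1])],.ref k194 k0 [(z1,[z1,z1]),(z1,[y1,z0,z2]),(z1,[y1,y1,y1,z1])],
    .ref k119 k10 [(z1,[z1,z1,z2,y1]),(z1,[y2,y1,y2,z2]),(z1,[z2,z1,z1,y1])]],
    .lp [k156,k158,k176,k160,k150,k158] [k10,k10,k9,k9,k0,k0,k8,k8,k13,k13,k9,k9] k0 [[k0,k0,k18,k0,k0,k0,k10],[k0,k0,k0,
    k0,k0,k0,k0,k0,k0,k0,k6,k8],[k0,k0,k0,k0,k0,k0,k0,k0,k4,k4],[k0,k18,k0,k0,k0,k12],[k0,k0,k12,k0,k0,k0,k0,k16],[k0,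
    k0,k0,k0,k0,k0,k0,k0,k0,k0,k0,k2],[k0,k0,k0,k0,k0,k16],[k0,k10,k0,k0,k0,k0,k0,k0,k4],[k0,k0,k0,k4,k0,k0,k0,k0,k0,
    k0,k26,k8],[k0,k0,k0,k4,k0,k0,k4],[k8,k0,k0,k0,k2,k0,k0,k0,k0,k8],[k6,k0,k0,k0,k0,k0,k0,k0,k0,
    k26]] (nat_lit 480) k5
    [[(k8,k127),(k3,k151),(k7,k158),(k0,k164),(k11,k165),(k4,k168)],[(k9,k143),(k5,k148),(k2,k157),(k6,k158),(k10,
    k163),(k1,k164)],[(k10,k150),(k1,k151),(k9,k154),(k5,k167),(k6,k169),(k2,k176)],[(k8,k150),(k11,k154),(k0,k157),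
    (k4,k167),(k7,k171),(k3,k176)],[(k0,k148),(k4,k164),(k3,k167),(k8,k167),(k7,k168),(k11,k171)],[(k6,k152),(k9,
    k163),(k5,k164),(k2,k167),(k10,k167),(k1,k168)],[(k10,k157),(k1,k158),(k6,k160),(k5,k168),(k2,k171),(k9,k171)],
    [(k4,k152),(k0,k158),(k8,k159),(k11,k159),(k7,k160),(k3,k169)],[(k0,k143),(k8,k150),(k11,k150),(k3,k154),(k4,
    k163),(k7,k171)],[(k1,k127),(k10,k146),(k2,k150),(k9,k150),(k6,k159),(k5,k167)],[(k9,k150),(k2,k154),(k6,k159),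
    (k1,k165),(k5,k171),(k10,k184)],[(k8,k146),(k3,k150),(k7,k157),(k0,k163),(k4,k167),(k11,k184)]]
    [] k0
    [[k2,k1,k0,k0,k0,k0],[k2,k0,k0,k0,k1,k0],[k1,k1,k1,k0,k0,k0],[k1,k1,k0,k0,k1,k0],[k1,k1,k0,k0,k0,k1],[k1,k0,k1,k0,
    k1,k0],[k1,k0,k1,k1,k0,k0],[k1,k0,k0,k2,k0,k0],[k1,k0,k0,k1,k1,k0],[k1,k0,k0,k0,k2,k0],[k1,k0,k0,k0,k1,k1],[k0,k1,
    k0,k0,k2,k0],[k0,k1,k0,k0,k1,k1],[k0,k0,k0,k2,k0,k1],[k0,k0,k0,k1,k1,k1],[k0,k0,k0,k0,k3,k0],[k0,k0,k0,k0,k2,k1]]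
    [.ref (nat_lit 277) k3 [(z1,[z1]),(z1,[y1,z2])],.ref k147 k1 [(z1,[y1,y1,z1]),(z1,[z0,z1])],
    .ref (nat_lit 278) k6 [(z1,[y1,y1,z1]),(z1,[z0,z1])],.ref (nat_lit 282) k1 [(z1,[y1,y1,z1]),(z1,[z0,z1])],
    .ref (nat_lit 278) k5 [(z1,[y1,z1]),(z1,[z0,y1,z1])],.ref (nat_lit 283) k7 [(z1,[y1,z1]),(z1,[z1])],
    .ref (nat_lit 284) k7 [(z1,[y1,z1]),(z1,[z1])],.ref (nat_lit 288) k7 [(z1,[y1,z1]),(z1,[z1])],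
    .ref (nat_lit 290) k7 [(z1,[y1,z1]),(z1,[z1])],.ref k55 k3 [(z1,[z1,z2,y2]),(z1,[y1,y1,z2])],
    .ref (nat_lit 291) k1 [(z1,[y1,y1,z1]),(z1,[z0,z1])],.ref (nat_lit 288) k4 [(z1,[y1,y1,z1]),(z1,[z1])],
    .ref (nat_lit 284) k7 [(z1,[z1,z1,y1]),(z1,[y1,z0,z1])],.ref k120 k5 [(z1,[z1,y1]),(z1,[z0,y1,z1])],
    .ref (nat_lit 278) k6 [(z1,[z1,y1]),(z1,[z0,z1])],.ref (nat_lit 307) k6 [(z1,[z1]),(z1,[z0,z1])],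
    .ref (nat_lit 325) k11 [(z1,[z1,z2,y2]),(z1,[z0,y1,z1])]]]

noncomputable def cT6_2_n7_1 : List TN :=
  [.leafM k6 [k1,k2,k3,k4,k5,k0] [(z1,[z1])] [],
    .leafM k1 [k0,k1,k2,k3,k4,k5] [(z1,[y1,z1]),(z1,[z1])] [],
    .leafM k6 [k0,k1,k2,k3,k4,k5] [(z1,[y1,y1,y1,z1])] [],
    .lp [(nat_lit 282),(nat_lit 320),(nat_lit 342),(nat_lit 314),(nat_lit 332),(nat_lit 326)] [k30,k30,k11,k11,k0,k0,k14,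
    k14,k5,k5,k8,k8] k0 [[k0,k0,k0,k12],[k0,k0,k0,k0,k0,k0,k0,k0,k0,k0,k54,k74],[k0,k12,k0,k0,k0,k34],[k0,k0,k0,k0,k0,
    k6,k0,k0,k44],[k0,k0,k6,k34,k0,k0,k50],[k0,k0,k0,k0,k0,k0,k22],[k0,k0,k0,k0,k0,k0,k0,k0,k16,k12],[k0,k0,k0,k0,k22,
    k50],[k0,k0,k0,k0,k0,k0,k0,k12,k0,k0,k10,k10],[k0,k0,k44,k0,k0,k0,k0,k16],[k74,k0,k0,k0,k0,k0,k0,k0,k0,k10],[k54,
    k0,k0,k0,k0,k0,k0,k0,k0,k10]] (nat_lit 960) k5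
    [[(k3,(nat_lit 247)),(k8,(nat_lit 297)),(k7,(nat_lit 298)),(k4,(nat_lit 312)),(k11,(nat_lit 314)),(k0,
    (nat_lit 356))],[(k2,(nat_lit 289)),(k6,(nat_lit 298)),(k9,(nat_lit 307)),(k5,(nat_lit 312)),(k1,(nat_lit 356)),
    (k10,(nat_lit 358))],[(k1,(nat_lit 247)),(k10,(nat_lit 249)),(k6,(nat_lit 317)),(k2,(nat_lit 320)),(k9,
    (nat_lit 326)),(k5,(nat_lit 343))],[(k0,(nat_lit 289)),(k4,(nat_lit 297)),(k3,(nat_lit 320)),(k7,(nat_lit 323)),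
    (k11,(nat_lit 323)),(k8,(nat_lit 370))],[(k11,(nat_lit 290)),(k0,(nat_lit 312)),(k4,(nat_lit 336)),(k8,
    (nat_lit 337)),(k3,(nat_lit 343)),(k7,(nat_lit 362))],[(k9,(nat_lit 287)),(k2,(nat_lit 297)),(k1,(nat_lit 312)),
    (k10,(nat_lit 334)),(k5,(nat_lit 336)),(k6,(nat_lit 350))],[(k1,(nat_lit 298)),(k9,(nat_lit 301)),(k10,
    (nat_lit 320)),(k2,(nat_lit 323)),(k5,(nat_lit 362)),(k6,(nat_lit 364))],[(k0,(nat_lit 298)),(k11,(nat_lit 304)),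
    (k8,(nat_lit 311)),(k3,(nat_lit 317)),(k4,(nat_lit 350)),(k7,(nat_lit 364))],[(k4,(nat_lit 287)),(k7,
    (nat_lit 301)),(k0,(nat_lit 307)),(k3,(nat_lit 326)),(k11,(nat_lit 341)),(k8,(nat_lit 348))],[(k1,(nat_lit 297)),
    (k6,(nat_lit 311)),(k10,(nat_lit 319)),(k5,(nat_lit 337)),(k9,(nat_lit 348)),(k2,(nat_lit 370))],[(k5,
    (nat_lit 290)),(k6,(nat_lit 304)),(k1,(nat_lit 314)),(k2,(nat_lit 323)),(k10,(nat_lit 336)),(k9,(nat_lit 341))],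
    [(k3,(nat_lit 249)),(k8,(nat_lit 319)),(k7,(nat_lit 320)),(k4,(nat_lit 334)),(k11,(nat_lit 336)),(k0,
    (nat_lit 358))]]
    [] k0
    [[k2,k1,k0,k0,k0,k0],[k2,k0,k0,k1,k0,k0],[k1,k2,k0,k0,k0,k0],[k1,k1,k1,k0,k0,k0],[k1,k1,k0,k1,k0,k0],[k1,k1,k0,k0,
    k1,k0],[k1,k1,k0,k0,k0,k1],[k1,k0,k1,k0,k1,k0],[k1,k0,k0,k1,k1,k0],[k1,k0,k0,k0,k2,k0],[k1,k0,k0,k1,k0,k1],[k1,k0,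
    k0,k0,k1,k1],[k0,k2,k0,k0,k0,k1],[k0,k1,k1,k0,k0,k1],[k0,k1,k0,k1,k0,k1],[k0,k1,k0,k0,k0,k2],[k0,k0,k1,k0,k1,k1],
    [k0,k0,k0,k1,k1,k1]]
    [.ref k109 k7 [(z1,[z2,y4,y1]),(z1,[z2,y3,y1]),(z1,[y3,z6,z2])],.ref k76 k5 [(z1,[z1,z2,z2,y4]),(z1,[y1,z1,z0,
    z1]),(z1,[z0,y2,y1,z2])],.ref k20 k8 [(z2,[y1,z5,z3,y4]),(z1,[z0,y2,y1,z2]),(z1,[z0,y1,y1,z2])],.ref k20 k8 [(z1,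
    [y1,z2,z1,y1]),(z1,[z0,y2,y1,z2]),(z1,[z0,y1,y1,z2])],.ref k32 k4 [(z1,[z1,y2,y1,z1]),(z1,[z3,y3,y1]),(z1,[y2,z3,
    z1])],.ref k19 k5 [(z1,[y1,z2,z1,y1]),(z1,[z1,z1,z1,y2]),(z1,[z0,y2,y1,z2])],.ref k109 k7 [(z1,[z2,y2,y1]),(z1,
    [z2,y1,y1]),(z1,[y3,z3,z2])],.ref k32 k4 [(z1,[y1,y1,y1,z2]),(z1,[y3,z0,y1,z3]),(z1,[z2,z1,z1,y2])],
    .ref k20 k8 [(z1,[z1,z1,z1,y2]),(z1,[z0,y2,y1,z2]),(z1,[z0,y1,y1,z2])],.ref k32 k4 [(z2,[y1,y1,y1,z2]),(z2,[y3,z3,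
    z1]),(z1,[z1])],.ref k76 k5 [(z1,[z1,z3,z2,y4]),(z1,[y1,z0,z0,z1]),(z1,[z0,y2,y1,z2])],.ref (nat_lit 329) k8 [(z1,
    [z1,z3,z2,y4]),(z1,[z0,y2,y1,z2]),(z1,[z0,y1,y1,z2])],.ref k20 k8 [(z2,[y1,z4,z3,y4]),(z1,[z0,y2,y1,z2]),(z1,[z0,
    y1,y1,z2])],.ref k20 k8 [(z1,[y1,z1,z1,y1]),(z1,[z0,y2,y1,z2]),(z1,[z0,y1,y1,z2])],.ref k32 k4 [(z1,[z1,y1,y1,
    z1]),(z1,[z3,z0,y1]),(z1,[y2,z1,z1])],.ref k109 k7 [(z1,[z2,z0,y1]),(z1,[z2,z1,y1]),(z1,[y3,z0,z2])],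
    .ref k32 k4 [(z1,[y1,y2,y1,z2]),(z1,[y3,y3,y1,z3]),(z1,[z2,z3,z1,y2])],.ref k20 k8 [(z1,[z1,z2,z1,y2]),(z1,[z0,y2,
    y1,z2]),(z1,[z0,y1,y1,z2])]],
    .tor k2 false k2 [(z3,[y1,y1,z0,z3]),(z3,[z1,z0,z1]),(z3,[y1,z0,y1,z3]),(z3,[z1,z1])],
    .leafM k1 [k0,k1,k2,k3,k4,k5] [(z1,[y1,z0,y1,z1]),(z1,[z1,z0,z1])] [],
    .leafM k6 [k0,k1,k2,k3,k4,k5] [(z1,[y1,y1,y1,z1])] [],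
    .lp [(nat_lit 320),(nat_lit 306),(nat_lit 296),(nat_lit 328),(nat_lit 330),(nat_lit 338)] [k9,k9,k16,k16,k21,k21,k5,
    k5,k4,k4,k0,k0] k0 [[k0,k0,k68,k4,k0,k0,k0,k0,k0,k0,k20],[k0,k0,k0,k0,k0,k0,k0,k6,k0,k0,k2],[k0,k4,k0,k0,k42],[k0,
    k68,k0,k0,k0,k0,k0,k0,k0,k28],[k0,k0,k0,k0,k0,k0,k0,k2,k0,k0,k0,k12],[k0,k0,k0,k42,k0,k0,k0,k42],[k6,k0,k0,k0,k42,
    k2],[k0,k0,k0,k0,k0,k0,k0,k0,k38,k10],[k0,k0,k28,k0,k0,k0,k10],[k0,k0,k0,k0,k0,k0,k38,k0,k0,k0,k0,k8],[k0,k0,k0,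
    k0,k0,k12,k0,k0,k8],[k2,k20]] (nat_lit 960) k5
    [[(k0,(nat_lit 300)),(k4,(nat_lit 308)),(k3,(nat_lit 311)),(k11,(nat_lit 329)),(k8,(nat_lit 333)),(k7,
    (nat_lit 336))],[(k5,(nat_lit 240)),(k1,(nat_lit 300)),(k2,(nat_lit 309)),(k6,(nat_lit 324)),(k9,(nat_lit 331)),
    (k10,(nat_lit 331))],[(k5,(nat_lit 305)),(k1,(nat_lit 311)),(k6,(nat_lit 311)),(k9,(nat_lit 318)),(k10,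
    (nat_lit 342)),(k2,(nat_lit 374))],[(k7,(nat_lit 275)),(k4,(nat_lit 301)),(k0,(nat_lit 309)),(k8,(nat_lit 318)),
    (k11,(nat_lit 350)),(k3,(nat_lit 374))],[(k0,(nat_lit 240)),(k8,(nat_lit 285)),(k3,(nat_lit 305)),(k7,
    (nat_lit 312)),(k11,(nat_lit 317)),(k4,(nat_lit 338))],[(k2,(nat_lit 301)),(k10,(nat_lit 305)),(k1,(nat_lit 308)),
    (k6,(nat_lit 310)),(k5,(nat_lit 338)),(k9,(nat_lit 355))],[(k2,(nat_lit 275)),(k6,(nat_lit 286)),(k5,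
    (nat_lit 312)),(k9,(nat_lit 331)),(k10,(nat_lit 333)),(k1,(nat_lit 336))],[(k7,(nat_lit 286)),(k4,(nat_lit 310)),
    (k3,(nat_lit 311)),(k0,(nat_lit 324)),(k11,(nat_lit 343)),(k8,(nat_lit 367))],[(k11,(nat_lit 296)),(k3,
    (nat_lit 318)),(k8,(nat_lit 320)),(k0,(nat_lit 331)),(k7,(nat_lit 331)),(k4,(nat_lit 355))],[(k5,(nat_lit 285)),
    (k2,(nat_lit 318)),(k9,(nat_lit 320)),(k1,(nat_lit 333)),(k10,(nat_lit 334)),(k6,(nat_lit 367))],[(k9,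
    (nat_lit 296)),(k5,(nat_lit 317)),(k1,(nat_lit 329)),(k10,(nat_lit 330)),(k6,(nat_lit 343)),(k2,(nat_lit 350))],
    [(k4,(nat_lit 305)),(k11,(nat_lit 330)),(k0,(nat_lit 331)),(k7,(nat_lit 333)),(k8,(nat_lit 334)),(k3,
    (nat_lit 342))]]
    [] k0
    [[k3,k0,k0,k0,k0,k0],[k2,k1,k0,k0,k0,k0],[k2,k0,k1,k0,k0,k0],[k1,k1,k1,k0,k0,k0],[k1,k1,k0,k1,k0,k0],[k1,k0,k2,k0,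
    k0,k0],[k1,k0,k1,k1,k0,k0],[k1,k0,k1,k0,k1,k0],[k1,k0,k1,k0,k0,k1],[k1,k0,k0,k2,k0,k0],[k0,k1,k2,k0,k0,k0],[k0,k1,
    k1,k1,k0,k0],[k0,k1,k0,k2,k0,k0],[k0,k1,k1,k0,k1,k0],[k0,k1,k0,k0,k2,k0],[k0,k1,k0,k0,k1,k1],[k0,k0,k1,k2,k0,k0],
    [k0,k0,k1,k1,k1,k0],[k0,k0,k1,k0,k1,k1],[k0,k0,k1,k0,k0,k2],[k0,k0,k0,k3,k0,k0],[k0,k0,k0,k0,k2,k1]]
    [.ref k6 k0 [(z1,[z1]),(z1,[y1,z1,z3]),(z2,[z3,y3,z0,z2]),(z1,[y2,z2,z0,z0,z1]),(z1,[z0,y1,y3,y1,y1,z3])],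
    .ref k6 k0 [(z1,[z3,y1,y3]),(z1,[y3,z2,z6]),(z2,[z9,y6,y9,z2]),(z1,[y6,z4,z6,z0,z1]),(z1,[z0,y1,y3,y1,y1,z3])],
    .ref k6 k0 [(z7,[z6,z3,z0,y2]),(z7,[y6,z4,z21,z2]),(z7,[z9,y6,z0,z4]),(z7,[y12,z8,z0,z4,z7]),(z1,[z0,y1,y3,y1,y1,
    z3])],.ref k6 k0 [(z3,[z6,z1,y6,y2]),(z3,[y6,z2,z15,z2]),(z1,[z3,y1,y3]),(z3,[y12,z4,z12,z4,z3]),(z1,[z0,y1,y3,y1,
    y1,z3])],.ref k6 k0 [(z2,[y3,z3,z3,z0,z1]),(z2,[z3,y1,z3,z0,y1]),(z4,[y9,z3,z9,z4,z3]),(z1,[z3,y1,y3]),(z1,[z0,y1,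
    y3,y1,y1,z3])],.ref k6 k0 [(z4,[z3,z3,z0,y2]),(z4,[y3,z1,z12,z2]),(z8,[z9,y3,z0,z2]),(z2,[y3,z1,z0,z2,z2]),(z1,
    [z0,y1,y3,y1,y1,z3])],.ref k6 k0 [(z1,[z6,y1,z0,y2,y2]),(z1,[y6,z2,z3,z2,z2]),(z1,[z9,y3,z0,y2,y3]),(z1,[y12,z4,
    z0,z4,z5]),(z1,[z0,y1,y3,y1,y1,z3])],.ref k6 k0 [(z5,[z6,z5,z6,z0,z2,y6]),(z5,[y6,z0,z9,z0,y2,z6]),(z5,[z9,z0,z9,
    z5,z3,y9]),(z5,[y12,z0,y12,z0,z1,z12]),(z1,[z0,y1,y3,y1,y1,z3])],.ref k6 k0 [(z3,[z3,z2,z0,y1]),(z3,[y3,z1,z9,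
    z1]),(z2,[z3,y1,z0,z1]),(z3,[y6,z2,z0,z2,z3]),(z1,[z0,y1,y3,y1,y1,z3])],.ref k6 k0 [(z3,[y3,z4,z0,z0,z2]),(z3,[z3,
    y1,z9,z0,y2]),(z2,[y3,z1,z0,z2,z2]),(z3,[z6,y2,z0,z0,y1]),(z1,[z0,y1,y3,y1,y1,z3])],.ref k6 k0 [(z2,[z3,z2,y3,
    y2]),(z2,[y3,z0,z9,z2]),(z4,[z9,z0,y9,y2]),(z1,[y3,z0,z3,z2,z1]),(z1,[z0,y1,y3,y1,y1,z3])],.ref k6 k0 [(z3,[y6,z3,
    z6,z2,z2]),(z3,[z6,z0,z3,y2,y2]),(z1,[y3,z0,z3,z2,z1]),(z3,[z12,z0,y12,y4,y1]),(z1,[z0,y1,y3,y1,y1,z3])],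
    .ref k6 k0 [(z5,[y3,z5,z3,z0,z2]),(z5,[z3,z0,z12,z0,y2]),(z10,[y9,z0,z9,z10,z6]),(z5,[z6,z0,y6,z0,z1]),(z1,[z0,y1,
    y3,y1,y1,z3])],.ref k6 k0 [(z1,[z6,z3,z0,z0,z2,y6]),(z1,[y6,y2,z3,z0,y2,z6]),(z1,[z9,z3,z0,z1,z3,y9]),(z1,[y12,y4,
    z0,z0,y3,z12]),(z1,[z0,y1,y3,y1,y1,z3])],.ref k6 k0 [(z1,[y3,y1,y3,y2,y2,z6]),(z1,[z3,z2,z6,z2,z2,y6]),(z2,[y9,y6,
    y9,y4,y6,z18]),(z1,[z6,z4,z6,z4,z5,y12]),(z1,[z0,y1,y3,y1,y1,z3])],.ref k6 k0 [(z1,[y6,y1,z0,y2,y2,z6]),(z1,[z6,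
    z2,z3,z2,z2,y6]),(z1,[y9,y3,z0,y2,y3,z9]),(z1,[z12,z4,z0,z4,z5,y12]),(z1,[z0,y1,y3,y1,y1,z3])],.ref k6 k0 [(z5,
    [y6,z5,z0,z2,z4]),(z5,[z6,z0,z15,y2,y4]),(z5,[y9,z0,z0,z8,z6]),(z5,[z12,z0,z0,y4,y3]),(z1,[z0,y1,y3,y1,y1,z3])],
    .ref k6 k0 [(z1,[y6,y1,y6,z0,z0,z6]),(z1,[z6,z2,z9,z0,z0,y6]),(z1,[y9,y3,y9,z1,z0,z9]),(z1,[z12,z4,z12,z0,z1,
    y12]),(z1,[z0,y1,y3,y1,y1,z3])],.ref k6 k0 [(z2,[z3,z3,z3,z0,z1,y3]),(z2,[y3,y1,z3,z0,y1,z3]),(z4,[z9,z3,z9,z4,z3,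
    y9]),(z1,[y3,y1,y3,z0,z0,z3]),(z1,[z0,y1,y3,y1,y1,z3])],.ref k6 k0 [(z5,[z6,z5,z0,y2]),(z5,[y6,z0,z15,z2]),(z5,
    [z9,z0,z0,z2]),(z5,[y12,z0,z0,z4,z5]),(z1,[z0,y1,y3,y1,y1,z3])],.ref k6 k0 [(z2,[y1,z2,z0,z0,z1]),(z2,[z1,z0,z6,
    z0,y1]),(z4,[y3,z0,z0,z4,z3]),(z1,[z1]),(z1,[z0,y1,y3,y1,y1,z3])],.ref k6 k0 [(z1,[z6,z5,z12,z4,z4,y12]),(z1,[y6,
    y4,y9,y4,y4,z12]),(z1,[z9,z6,z18,z7,z6,y18]),(z1,[y12,y8,y24,y8,y7,z24]),(z1,[z0,y1,y3,y1,y1,z3])]],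
    .lp [(nat_lit 304),(nat_lit 332),(nat_lit 334),(nat_lit 330),(nat_lit 296),(nat_lit 322)] [k15,k15,k1,k1,k0,k0,k2,k2,
    k19,k19,k6,k6] k0 [[k0,k0,k0,k8],[k0,k0,k0,k0,k0,k0,k0,k0,k0,k0,k0,k30],[k0,k8,k0,k0,k0,k0,k0,k0,k32],[k0,k0,k0,
    k0,k2],[k0,k0,k0,k0,k0,k0,k0,k24,k0,k0,k12,k4],[k0,k0,k2,k0,k0,k0,k0,k8],[k0,k0,k0,k0,k8,k24],[k0,k0,k0,k0,k0,k0,
    k0,k0,k20,k6],[k0,k0,k0,k0,k0,k0,k6,k0,k0,k0,k46],[k0,k0,k0,k32,k0,k0,k20],[k30,k0,k0,k0,k0,k4],[k0,k0,k0,k0,k0,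
    k12,k0,k0,k0,k46]] (nat_lit 960) k5
    [[(k8,(nat_lit 254)),(k4,(nat_lit 307)),(k11,(nat_lit 313)),(k3,(nat_lit 318)),(k7,(nat_lit 321)),(k0,
    (nat_lit 334))],[(k9,(nat_lit 300)),(k2,(nat_lit 310)),(k10,(nat_lit 313)),(k6,(nat_lit 317)),(k5,(nat_lit 319)),
    (k1,(nat_lit 334))],[(k10,(nat_lit 297)),(k9,(nat_lit 314)),(k1,(nat_lit 318)),(k6,(nat_lit 331)),(k2,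
    (nat_lit 332)),(k5,(nat_lit 341))],[(k11,(nat_lit 295)),(k0,(nat_lit 310)),(k8,(nat_lit 314)),(k7,(nat_lit 331)),
    (k3,(nat_lit 332)),(k4,(nat_lit 335))],[(k0,(nat_lit 319)),(k11,(nat_lit 328)),(k7,(nat_lit 330)),(k4,
    (nat_lit 334)),(k3,(nat_lit 341)),(k8,(nat_lit 347))],[(k1,(nat_lit 307)),(k6,(nat_lit 308)),(k9,(nat_lit 323)),
    (k10,(nat_lit 324)),(k5,(nat_lit 334)),(k2,(nat_lit 335))],[(k1,(nat_lit 321)),(k6,(nat_lit 322)),(k5,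
    (nat_lit 330)),(k2,(nat_lit 331)),(k9,(nat_lit 337)),(k10,(nat_lit 338))],[(k4,(nat_lit 308)),(k0,(nat_lit 317)),
    (k7,(nat_lit 322)),(k3,(nat_lit 331)),(k11,(nat_lit 332)),(k8,(nat_lit 333))],[(k11,(nat_lit 289)),(k8,
    (nat_lit 290)),(k0,(nat_lit 300)),(k3,(nat_lit 314)),(k4,(nat_lit 323)),(k7,(nat_lit 337))],[(k1,(nat_lit 254)),
    (k9,(nat_lit 290)),(k10,(nat_lit 309)),(k2,(nat_lit 314)),(k6,(nat_lit 333)),(k5,(nat_lit 347))],[(k9,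
    (nat_lit 289)),(k2,(nat_lit 295)),(k1,(nat_lit 313)),(k5,(nat_lit 328)),(k6,(nat_lit 332)),(k10,(nat_lit 368))],
    [(k3,(nat_lit 297)),(k8,(nat_lit 309)),(k0,(nat_lit 313)),(k4,(nat_lit 324)),(k7,(nat_lit 338)),(k11,
    (nat_lit 368))]]
    [] k0
    [[k2,k0,k0,k0,k1,k0],[k1,k1,k0,k0,k1,k0],[k1,k1,k0,k0,k0,k1],[k1,k1,k1,k0,k0,k0],[k1,k0,k1,k1,k0,k0],[k1,k0,k1,k0,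
    k1,k0],[k1,k0,k1,k0,k0,k1],[k1,k0,k0,k1,k1,k0],[k1,k0,k0,k0,k2,k0],[k1,k0,k0,k0,k1,k1],[k0,k2,k0,k0,k0,k1],[k0,k1,
    k0,k0,k2,k0],[k0,k1,k0,k0,k1,k1],[k0,k0,k0,k0,k3,k0],[k0,k0,k0,k0,k2,k1]]
    [.ref k6 k0 [(z5,[z6,z1]),(z10,[y3,z2,z15]),(z5,[y3,z2,z0,z5]),(z10,[y9,z6,z0,z0,z5]),(z5,[z3,y2])],
    .ref k6 k0 [(z5,[z12,z1,y6]),(z5,[y3,z1,z9]),(z5,[y6,z2,z3,z5]),(z10,[y18,z6,z9,z0,z5]),(z5,[z6,y2,y3])],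
    .ref k6 k0 [(z3,[z12,z3,z0,z4,z2,y12]),(z6,[y6,z0,z9,y2,y1,z6]),(z3,[y6,z0,z0,z1,y1,z6]),(z1,[y3,z0,z0,y1,z0,z3]),
    (z3,[z6,z0,z0,z2,z1,y6])],.ref k6 k0 [(z1,[z12,y3,y6,y4]),(z1,[y3,z1,z3,z1]),(z1,[y6,z2,z3,z3]),(z2,[y18,z6,z9,z6,
    z1]),(z1,[z6,y2,y3,y2])],.ref k6 k0 [(z1,[y12,z5,z0,z4,z2]),(z2,[z6,y2,z3,y2,y1]),(z1,[z6,y2,z0,y1,y1]),(z1,[z9,
    y3,z0,y3,y1]),(z1,[y6,z2,z0,z2,z1])],.ref k6 k0 [(z1,[z3,z0,z0,y1]),(z4,[y3,z1,z6,z1]),(z2,[y3,z1,z0,z3]),(z4,[y9,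
    z3,z0,z3,z2]),(z2,[z3,y1,z0,y1])],.ref k6 k0 [(z1,[z6,z1,z3,z0,z1,y6]),(z4,[y6,z0,z3,z0,y1,z6]),(z2,[y6,z0,y3,z2,
    y1,z6]),(z4,[y18,z0,y9,z0,y1,z18]),(z2,[z6,z0,z3,z0,z1,y6])],.ref k6 k0 [(z3,[z12,y1,z0,z0,y2]),(z6,[y6,z2,z9,z0,
    z1]),(z3,[y6,z2,z0,z3,z1]),(z1,[y3,z1,z0,z0,z1]),(z3,[z6,y2,z0,z0,y1])],.ref k6 k0 [(z2,[z3,z1]),(z8,[y3,z1,z12]),
    (z4,[y3,z1,z0,z4]),(z8,[y9,z3,z0,z0,z4]),(z4,[z3,y1])],.ref k6 k0 [(z3,[z6,z3,z3,z2,z1,y6]),(z12,[y6,z0,z15,y2,y1,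
    z6]),(z6,[y6,z0,y3,z4,y1,z6]),(z4,[y6,z0,y3,y2,z1,z6]),(z6,[z6,z0,z3,z2,z1,y6])],.ref k6 k0 [(z1,[y6,y1,z3,y2,y1,
    z6]),(z4,[z6,z2,z3,z2,z1,y6]),(z2,[z6,z2,y3,z4,z1,y6]),(z4,[z18,z6,y9,z6,z5,y18]),(z2,[y6,y2,z3,y2,y1,z6])],
    .ref k6 k0 [(z1,[z4,z1,y2]),(z1,[y1,z0,z2]),(z1,[y2,z0,z1,z1]),(z2,[y6,z0,z3,z0,z1]),(z1,[z2,z0,y1])],
    .ref k6 k0 [(z1,[z12,z5,z0,z4,z2,y12]),(z2,[y6,y2,z3,y2,y1,z6]),(z1,[y6,y2,z0,y1,y1,z6]),(z1,[y9,y3,z0,y3,y1,z9]),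
    (z1,[z6,z2,z0,z2,z1,y6])],.ref k6 k0 [(z1,[z2,z1]),(z2,[y1,z0,z3]),(z1,[y1,z0,z0,z1]),(z2,[y3,z0,z0,z0,z1]),(z1,
    [z1])],.ref k6 k0 [(z2,[z6,z4,z3,z2,z1,y6]),(z8,[y6,y2,z9,y2,y1,z6]),(z4,[y6,y2,y3,z2,y1,z6]),(z8,[y18,y6,y9,y6,
    z1,z18]),(z4,[z6,z2,z3,z2,z1,y6])]],
    .lp [(nat_lit 326),(nat_lit 328),(nat_lit 328),(nat_lit 304),(nat_lit 328),(nat_lit 304)] [k1,k1,k0,k0,k0,k0,k12,k12,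
    k0,k0,k12,k12] k0 [[k0,k0,k0,k0,k0,k0,k2,k24,k0,k0,k0,k50],[k0,k0,k0,k8],[k8,k0,k0,k0,k24],[],[k0,k0,k0,k0,k0,k0,
    k0,k24,k0,k0,k28],[k0,k0,k0,k24],[k0,k24,k0,k0,k0,k24],[k0,k2,k0,k0,k0,k0,k0,k0,k0,k48],[k0,k0,k0,k0,k0,k0,k48],
    [k0,k0,k0,k0,k0,k0,k0,k0,k0,k0,k52,k28],[k0,k50,k0,k0,k0,k0,k0,k0,k28],[k0,k0,k0,k0,k0,k28,k0,k0,
    k52]] (nat_lit 960) k5
    [[(k11,(nat_lit 263)),(k4,(nat_lit 299)),(k7,(nat_lit 315)),(k0,(nat_lit 326)),(k8,(nat_lit 355)),(k3,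
    (nat_lit 377))],[(k10,(nat_lit 265)),(k6,(nat_lit 291)),(k9,(nat_lit 325)),(k1,(nat_lit 326)),(k2,(nat_lit 327)),
    (k5,(nat_lit 335))],[(k10,(nat_lit 316)),(k6,(nat_lit 318)),(k2,(nat_lit 320)),(k5,(nat_lit 328)),(k9,
    (nat_lit 352)),(k1,(nat_lit 377))],[(k7,(nat_lit 292)),(k11,(nat_lit 316)),(k3,(nat_lit 320)),(k0,(nat_lit 327)),
    (k4,(nat_lit 328)),(k8,(nat_lit 328))],[(k7,(nat_lit 316)),(k11,(nat_lit 316)),(k3,(nat_lit 328)),(k8,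
    (nat_lit 328)),(k0,(nat_lit 335)),(k4,(nat_lit 352))],[(k6,(nat_lit 292)),(k1,(nat_lit 299)),(k10,(nat_lit 316)),
    (k2,(nat_lit 328)),(k9,(nat_lit 328)),(k5,(nat_lit 352))],[(k2,(nat_lit 292)),(k6,(nat_lit 304)),(k1,
    (nat_lit 315)),(k5,(nat_lit 316)),(k10,(nat_lit 332)),(k9,(nat_lit 340))],[(k0,(nat_lit 291)),(k4,(nat_lit 292)),
    (k7,(nat_lit 304)),(k8,(nat_lit 316)),(k3,(nat_lit 318)),(k11,(nat_lit 352))],[(k8,(nat_lit 280)),(k11,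
    (nat_lit 316)),(k0,(nat_lit 325)),(k4,(nat_lit 328)),(k7,(nat_lit 340)),(k3,(nat_lit 352))],[(k9,(nat_lit 280)),
    (k6,(nat_lit 316)),(k2,(nat_lit 328)),(k5,(nat_lit 328)),(k1,(nat_lit 355)),(k10,(nat_lit 368))],[(k1,
    (nat_lit 263)),(k10,(nat_lit 276)),(k2,(nat_lit 316)),(k5,(nat_lit 316)),(k9,(nat_lit 316)),(k6,(nat_lit 352))],
    [(k0,(nat_lit 265)),(k11,(nat_lit 276)),(k3,(nat_lit 316)),(k4,(nat_lit 316)),(k7,(nat_lit 332)),(k8,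
    (nat_lit 368))]]
    [] k0
    [[k2,k0,k0,k1,k0,k0],[k2,k0,k0,k0,k0,k1],[k1,k1,k0,k0,k0,k1],[k1,k1,k1,k0,k0,k0],[k1,k0,k1,k1,k0,k0],[k1,k0,k1,k0,
    k1,k0],[k1,k0,k1,k0,k0,k1],[k1,k0,k0,k2,k0,k0],[k1,k0,k0,k1,k1,k0],[k1,k0,k0,k1,k0,k1],[k1,k0,k0,k0,k1,k1],[k1,k0,
    k0,k0,k0,k2],[k0,k2,k0,k1,k0,k0],[k0,k2,k0,k0,k0,k1],[k0,k1,k1,k1,k0,k0],[k0,k1,k0,k2,k0,k0],[k0,k1,k0,k0,k0,k2],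
    [k0,k0,k1,k2,k0,k0],[k0,k0,k1,k0,k2,k0],[k0,k0,k1,k1,k0,k1],[k0,k0,k1,k0,k0,k2],[k0,k0,k0,k3,k0,k0],[k0,k0,k0,k1,
    k2,k0],[k0,k0,k0,k0,k3,k0],[k0,k0,k0,k0,k0,k3]]
    [.ref k15 k5 [(z1,[z1,y2,z0,y4]),(z1,[z2,y2,z1,y2,y2]),(z1,[y2,z2,y1,z3,z2]),(z1,[z0,z1,z0,z2])],
    .ref (nat_lit 260) k8 [(z1,[z4,z2,z5,z10,y10]),(z1,[y3,y2,y4,y8,z8]),(z1,[z2,z1,z2,z4,y4]),(z1,[y2,y1,y2,y5,z5])],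
    .ref k35 k1 [(z3,[y1,z1,y1,z3]),(z3,[y2,y1,y2,y3,z3]),(z1,[z0,z0,z1]),(z3,[z1,y1,y2])],.ref k35 k1 [(z1,[y1,z1,z0,
    z2]),(z1,[y2,z1,z0,z1,z1]),(z1,[z0,z0,z1]),(z1,[z1,y1,y1,y1])],.ref k35 k1 [(z1,[z1,z0,z0,z1,y1]),(z1,[z2,y1,z0,
    y1,y1]),(z1,[z0,z0,z1]),(z1,[y1,z0,y1,z0,z1])],.ref k84 k3 [(z1,[z2,y1,y2,y2]),(z1,[z1,y1,y2,y1]),(z1,[z0,z0,z1]),
    (z1,[y2,z1,z2,z1,z1])],.ref k35 k1 [(z2,[y1,z1,y1,z3]),(z1,[y1,z0,y1,z0,z1]),(z1,[z0,z0,z1]),(z2,[z1,y1,y1,y1])],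
    .ref k35 k1 [(z2,[z1,z1,z0,z4,y2]),(z1,[z1,z0,z0,z1,y1]),(z1,[z0,z0,z1]),(z2,[y1,y1,y2,y2,z2])],.ref k129 k0 [(z1,
    [z4,z3,z2,z4,y4]),(z1,[y1,z0,z1,y1,z1]),(z1,[y2,z0,y1,z1,z2]),(z1,[y1,y1,y1,y2,z2])],.ref k35 k1 [(z1,[y1,z0,y1,
    z0,z1]),(z1,[y2,y1,y2,y3,z3]),(z1,[z0,z0,z1]),(z1,[z1,z0,z0,z1,y1])],.ref k52 k11 [(z1,[z1,y1,y3]),(z1,[z0,z0,
    z1]),(z1,[y2,y1,z0,y3,z3]),(z1,[y1,z1,z0,z3])],.ref k35 k1 [(z4,[y1,z1,y2,z4]),(z2,[y1,y1,y2,y2,z2]),(z1,[z0,z0,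
    z1]),(z4,[z1,y1,y2])],.ref k15 k5 [(z1,[y1,y2,z0,y6,z2]),(z1,[y2,y2,z1,y6,z2]),(z1,[z2,z2,y1,z7,y2]),(z1,[z0,z1,
    z0,z2])],.ref k56 k1 [(z1,[y1,z0,y1,z1]),(z1,[y2,y1,y2,y1,z1]),(z1,[z0,z0,z1]),(z1,[z1])],.ref k52 k11 [(z1,[y1,
    y1,y3,z0,z1]),(z1,[z0,z0,z1]),(z1,[z2,y1,z0,y3,z1]),(z1,[z1,z1,z0,z3,y1])],.ref k48 k10 [(z1,[y1,y2,z0,y6,z2]),
    (z1,[z0,z1,z0,z2]),(z1,[y2,y4,y1,y11,z4]),(z1,[z2,z4,z1,z12,y4])],.ref (nat_lit 217) k0 [(z1,[y4,z1,z2]),(z1,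
    [z1]),(z1,[z2,z0,y1,z1]),(z1,[z3,y1,y2,y1,z1])],.ref (nat_lit 260) k8 [(z1,[y4,z2,z1,z6,y2]),(z1,[z3,y2,y1,y5,
    z2]),(z1,[y2,z1,z0,z2]),(z1,[z2,y1,z0,y3,z1])],.ref k56 k1 [(z1,[z1,z0,y2]),(z1,[z2,y1,y4,y3,z1]),(z1,[z0,z0,z1]),
    (z1,[y1,z0,z1,z1])],.ref k15 k5 [(z1,[y1,y2,y1,y5,z2]),(z1,[y2,y2,y1,y4,z2]),(z1,[z2,z2,z1,z5,y2]),(z1,[z0,z1,z0,
    z2])],.ref k56 k1 [(z1,[y1,z0,y2,z2]),(z1,[y2,y1,y4,z1,z1]),(z1,[z0,z0,z1]),(z1,[z1,z0,z1,y1])],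
    .ref (nat_lit 334) k10 [(z1,[y1,y3,z0,y9,z3]),(z1,[z0,z1,z0,z2]),(z1,[y2,y6,y3,y15,z6]),(z1,[z2,z6,z3,z18,y6])],
    .ref (nat_lit 217) k0 [(z1,[z4,z5,z2,z4,y4]),(z1,[y1,y1,z0,y1,z1]),(z1,[y2,y2,y1,y1,z2]),(z1,[y3,y4,y2,y4,z4])],
    .ref k129 k0 [(z1,[z2,z3]),(z2,[y1,z0,z3]),(z1,[y1,z0,z0,z3]),(z2,[y1,y2,y1,y2,z2])],.ref (nat_lit 335) k0 [(z1,
    [z2,z3]),(z1,[z0,z0,z1]),(z1,[y1,z0,z0,z3]),(z1,[y4,y6,y3,y6,z6])]],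
    .leafM k6 [k0,k1,k2,k3,k4,k5] [(z1,[y1,y1,y1,z1])] [],
    .leafM k6 [k0,k1,k2,k3,k4,k5] [(z1,[y1,y1,y1,z1])] []]

noncomputable def cT6_2_n7_2 : List TN :=
  [.lp [(nat_lit 309600),(nat_lit 294292),(nat_lit 324736),(nat_lit 286740),(nat_lit 294292),
    (nat_lit 309600)] [(nat_lit 7568),(nat_lit 7568),(nat_lit 15222),(nat_lit 15222),k0,k0,(nat_lit 18998),
    (nat_lit 18998),(nat_lit 15222),(nat_lit 15222),(nat_lit 7568),(nat_lit 7568)] k0 [[k0,k0,(nat_lit 45666),k0,k0,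
    k0,(nat_lit 15222),k0,k0,k0,k0,(nat_lit 45666)],[k0,k0,(nat_lit 30444),k0,k0,k0,k0,k0,k0,k0,k0,(nat_lit 30444)],
    [k0,k0,k0,k0,k0,k0,k0,k0,k0,(nat_lit 15222)],[(nat_lit 30444),(nat_lit 45666)],[k0,k0,k0,k0,k0,k0,(nat_lit 30444),
    (nat_lit 15222)],[k0,k0,k0,k0,k0,k0,k0,k0,k0,k0,(nat_lit 22833)],[k0,k0,k0,k0,k0,(nat_lit 15222),k0,k0,
    (nat_lit 30444)],[k0,(nat_lit 15222),k0,k0,k0,(nat_lit 30444)],[k0,k0,k0,(nat_lit 15222)],[k0,k0,k0,k0,k0,k0,k0,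
    (nat_lit 30444)],[(nat_lit 30444),(nat_lit 45666)],[k0,k0,k0,k0,(nat_lit 22833)]] (nat_lit 913320) k5
    [[(k7,(nat_lit 275337)),(k8,(nat_lit 301946)),(k11,(nat_lit 309600)),(k4,(nat_lit 317168)),(k0,(nat_lit 340044)),
    (k3,(nat_lit 347612))],[(k10,(nat_lit 263934)),(k5,(nat_lit 271502)),(k9,(nat_lit 286724)),(k6,(nat_lit 298170)),
    (k2,(nat_lit 332390)),(k1,(nat_lit 340044))],[(k10,(nat_lit 271502)),(k5,(nat_lit 279070)),(k9,(nat_lit 294292)),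
    (k6,(nat_lit 305738)),(k2,(nat_lit 339958)),(k1,(nat_lit 347612))],[(k8,(nat_lit 279070)),(k7,(nat_lit 290516)),
    (k11,(nat_lit 301946)),(k4,(nat_lit 309514)),(k0,(nat_lit 332390)),(k3,(nat_lit 339958))],[(k0,(nat_lit 271502)),
    (k3,(nat_lit 279070)),(k7,(nat_lit 305738)),(k8,(nat_lit 309514)),(k4,(nat_lit 324736)),(k11,(nat_lit 332390))],
    [(k9,(nat_lit 279070)),(k6,(nat_lit 290516)),(k2,(nat_lit 309514)),(k1,(nat_lit 317168)),(k5,(nat_lit 324736)),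
    (k10,(nat_lit 340001))],[(k1,(nat_lit 275337)),(k2,(nat_lit 290516)),(k10,(nat_lit 298170)),(k5,(nat_lit 305738)),
    (k9,(nat_lit 305738)),(k6,(nat_lit 317184))],[(k11,(nat_lit 267726)),(k4,(nat_lit 290516)),(k8,(nat_lit 290516)),
    (k0,(nat_lit 298170)),(k3,(nat_lit 305738)),(k7,(nat_lit 317184))],[(k4,(nat_lit 279070)),(k0,(nat_lit 286724)),
    (k3,(nat_lit 294292)),(k11,(nat_lit 301946)),(k7,(nat_lit 305738)),(k8,(nat_lit 324736))],[(k2,(nat_lit 279070)),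
    (k6,(nat_lit 290516)),(k1,(nat_lit 301946)),(k10,(nat_lit 301946)),(k5,(nat_lit 309514)),(k9,(nat_lit 324736))],
    [(k6,(nat_lit 267726)),(k2,(nat_lit 301946)),(k9,(nat_lit 301946)),(k1,(nat_lit 309600)),(k10,(nat_lit 309600)),
    (k5,(nat_lit 332390))],[(k0,(nat_lit 263934)),(k3,(nat_lit 271502)),(k7,(nat_lit 298170)),(k8,(nat_lit 301946)),
    (k11,(nat_lit 309600)),(k4,(nat_lit 340001))]]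
    [] k0
    [[k1,k0,k1,k1,k0,k0],[k1,k0,k0,k2,k0,k0],[k1,k0,k0,k1,k1,k0],[k1,k0,k0,k1,k0,k1],[k1,k0,k1,k0,k1,k0],[k1,k0,k0,k0,
    k1,k1],[k1,k0,k0,k0,k0,k2],[k0,k1,k1,k1,k0,k0],[k0,k1,k1,k0,k1,k0],[k0,k1,k0,k1,k1,k0],[k0,k1,k0,k1,k0,k1],[k0,k1,
    k0,k0,k2,k0],[k0,k1,k0,k0,k1,k1],[k0,k1,k0,k0,k0,k2],[k0,k0,k1,k1,k1,k0],[k0,k0,k0,k2,k0,k1],[k0,k0,k0,k1,k1,k1],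
    [k0,k0,k0,k1,k0,k2]]
    [.ref k4 k3 [(z1,[y1,z1]),(z2,[y4,z1,y1,z2]),(z2,[z2,y1,z1])],.ref (nat_lit 331) k0 [(z1,[y1,z2]),(z2,[z2,y1,z3]),
    (z2,[y4,y1,y3,z6])],.ref (nat_lit 280) k5 [(z2,[z2,y1,y1]),(z2,[z2,y1,z1]),(z1,[y1,z0,z0,z1])],.ref k4 k3 [(z2,
    [z2,z1,z1,y2]),(z2,[z4,y1,z1,y2]),(z1,[y1,z0,z0,z1])],.ref (nat_lit 332) k10 [(z2,[y2,z1,z1]),(z1,[z0,z1]),(z2,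
    [z0,y1,y1,z2])],.ref (nat_lit 333) k9 [(z1,[y2,z1]),(z2,[z4,y3,y1,z2]),(z2,[y2,z1,z1])],
    .ref (nat_lit 314) k9 [(z1,[y2,z1]),(z2,[z4,y3,y1,z2]),(z2,[y2,z1,z1])],.ref (nat_lit 333) k9 [(z1,[z2,z1,z0,y2]),
    (z2,[y4,y3,y1,z6]),(z2,[z2,z1,z1,y2])],.ref k4 k3 [(z2,[y2,z1,z1]),(z2,[y4,y1,z1,z2]),(z1,[z1])],
    .ref (nat_lit 331) k0 [(z2,[y2,z3,z1]),(z1,[z1,z0,z1]),(z2,[y4,y3,y1,z6])],.ref (nat_lit 332) k10 [(z2,[z2,z1,z1,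
    y2]),(z1,[z0,z1]),(z2,[z0,y1,y1,z2])],.ref (nat_lit 280) k5 [(z1,[z1,z0,y1]),(z1,[z1]),(z2,[y2,y1,z1,z2])],
    .ref k4 k3 [(z1,[z1,z1,z0,y1]),(z2,[z4,z1,y1,y2]),(z2,[y2,y1,z1,z2])],.ref (nat_lit 336) k10 [(z1,[z1,z1,z1,y2]),
    (z1,[z0,z1]),(z2,[z0,y1,y1,z2])],.ref (nat_lit 337) k1 [(z2,[z2,y3,y1]),(z1,[z0,z1]),(z2,[z0,z1,z1])],
    .ref k76 k11 [(z1,[z1,y2]),(z2,[z0,z1,z1]),(z1,[z0,z1])],.ref (nat_lit 338) k5 [(z1,[z2,z1,z0,y2]),(z2,[z2,z1,z1,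
    y2]),(z2,[y4,y3,y1,z6])],.ref k4 k3 [(z2,[z1,z2,z1,y2]),(z2,[z2,z1,z1,y2]),(z2,[y1,y1,z0,z2])]],
    .leafM k6 [k1,k2,k3,k4,k5,k0] [(z1,[z1])] [],
    .leafM k1 [k0,k1,k2,k3,k4,k5] [(z1,[z0,z1]),(z1,[z0,y1,z1])] [],
    .leafM k1 [k0,k1,k2,k3,k4,k5] [(z3,[y1,z0,y1,z3]),(z3,[z1,z0,z1])] [],
    .leafM k6 [k0,k1,k2,k3,k4,k5] [(z3,[y1,y1,z0,z3])] [],
    .lp [(nat_lit 244),(nat_lit 238),(nat_lit 238),(nat_lit 232),(nat_lit 232),(nat_lit 250)] [k3,k3,k6,k6,k6,k6,k9,k9,k9,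
    k9,k0,k0] k0 [[k0,k0,k42,k0,k0,k0,k0,k0,k0,k0,k0,k42],[k0,k0,k12,k0,k0,k0,k0,k0,k0,k0,k0,k36],[k0,k0,k0,k0,k30,k0,
    k0,k0,k0,k30],[k12,k42],[k0,k0,k0,k0,k0,k0,k18],[k0,k0,k0,k30,k0,k0,k0,k0,k0,k0,k6],[k0,k0,k0,k0,k0,k0,k0,k0,k48],
    [k0,k0,k0,k0,k0,k18,k0,k0,k6],[k0,k0,k0,k30,k0,k0,k0,k0,k0,k0,k36,k12],[k0,k0,k0,k0,k0,k0,k6,k48],[k36,k42,k0,k0,
    k0,k0,k0,k0,k0,k12],[k0,k0,k0,k0,k6,k0,k0,k0,k0,k36]] (nat_lit 720) k5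
    [[(k8,(nat_lit 202)),(k7,(nat_lit 232)),(k4,(nat_lit 241)),(k11,(nat_lit 259)),(k0,(nat_lit 280)),(k3,
    (nat_lit 283))],[(k5,k199),(k10,(nat_lit 205)),(k6,(nat_lit 238)),(k9,(nat_lit 238)),(k2,(nat_lit 253)),(k1,
    (nat_lit 280))],[(k10,(nat_lit 208)),(k5,(nat_lit 226)),(k6,(nat_lit 235)),(k9,(nat_lit 235)),(k2,(nat_lit 280)),
    (k1,(nat_lit 283))],[(k7,(nat_lit 205)),(k8,(nat_lit 205)),(k4,(nat_lit 238)),(k11,(nat_lit 244)),(k0,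
    (nat_lit 253)),(k3,(nat_lit 280))],[(k0,k199),(k3,(nat_lit 226)),(k7,(nat_lit 235)),(k8,(nat_lit 235)),(k4,
    (nat_lit 268)),(k11,(nat_lit 274))],[(k9,(nat_lit 217)),(k6,(nat_lit 235)),(k2,(nat_lit 238)),(k1,(nat_lit 241)),
    (k10,(nat_lit 250)),(k5,(nat_lit 268))],[(k2,(nat_lit 205)),(k1,(nat_lit 232)),(k9,(nat_lit 232)),(k5,
    (nat_lit 235)),(k10,(nat_lit 241)),(k6,(nat_lit 250))],[(k11,k193),(k3,(nat_lit 235)),(k4,(nat_lit 235)),(k0,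
    (nat_lit 238)),(k8,(nat_lit 238)),(k7,(nat_lit 250))],[(k4,(nat_lit 217)),(k7,(nat_lit 232)),(k3,(nat_lit 235)),
    (k11,(nat_lit 235)),(k0,(nat_lit 238)),(k8,(nat_lit 280))],[(k1,(nat_lit 202)),(k2,(nat_lit 205)),(k10,
    (nat_lit 229)),(k5,(nat_lit 235)),(k6,(nat_lit 238)),(k9,(nat_lit 280))],[(k6,k193),(k9,(nat_lit 235)),(k2,
    (nat_lit 244)),(k1,(nat_lit 259)),(k5,(nat_lit 274)),(k10,(nat_lit 286))],[(k0,(nat_lit 205)),(k3,(nat_lit 208)),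
    (k8,(nat_lit 229)),(k7,(nat_lit 241)),(k4,(nat_lit 250)),(k11,(nat_lit 286))]]
    [] k0
    [[k1,k0,k2,k0,k0,k0],[k1,k0,k1,k1,k0,k0],[k1,k0,k1,k0,k1,k0],[k1,k0,k0,k1,k1,k0],[k1,k0,k0,k1,k0,k1],[k1,k1,k0,k0,
    k1,k0],[k1,k0,k0,k0,k1,k1],[k1,k0,k1,k0,k0,k1],[k0,k1,k1,k1,k0,k0],[k0,k1,k1,k0,k1,k0],[k0,k1,k0,k2,k0,k0],[k0,k1,
    k0,k1,k1,k0],[k0,k1,k0,k0,k1,k1],[k0,k1,k0,k1,k0,k1],[k0,k0,k1,k1,k1,k0],[k0,k0,k1,k1,k0,k1],[k0,k0,k0,k2,k0,k1],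
    [k0,k0,k0,k1,k1,k1]]
    [.ref k167 k9 [(z1,[z0,y1,y1,z3]),(z2,[z3,y1]),(z6,[y3,z1,z2])],.ref k167 k9 [(z1,[z0,y1,y1,z3]),(z1,[z3,z0,z1,
    y3]),(z1,[y1,z0,z0,z1])],.ref (nat_lit 342) k0 [(z1,[z0,z1]),(z1,[y3,z1,z1]),(z1,[z3,y1])],.ref k167 k5 [(z1,[z0,
    y1,y1,z3]),(z1,[z3,z0,z1,y3]),(z1,[y1,z0,z0,z1])],.ref k167 k3 [(z1,[z0,z1]),(z1,[z3,z0,z1,y3]),(z1,[y1,z0,z0,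
    z1])],.ref (nat_lit 331) k0 [(z1,[z0,z1]),(z1,[z3,y1]),(z1,[y3,z1,z1])],.ref (nat_lit 343) k0 [(z1,[z0,z1]),(z1,
    [y3,z1,z1]),(z1,[z0,y1,y1,z3])],.ref (nat_lit 331) k0 [(z1,[z0,z1]),(z1,[y3,z1,z1]),(z1,[z3,y1])],
    .ref (nat_lit 343) k0 [(z1,[z0,z1]),(z1,[z3,z1,z1,y3]),(z1,[z0,y1,y1,z3])],.ref k167 k3 [(z1,[z0,z1]),(z1,[y3,z0,
    z1]),(z1,[z1])],.ref k167 k0 [(z1,[z0,z1]),(z1,[z3,z2,z2,y6]),(z3,[y3,y2,y1,z6])],.ref (nat_lit 331) k0 [(z1,[z0,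
    z1]),(z1,[z3,z1,z1,y3]),(z1,[y3,y1,z0,z3])],.ref k167 k9 [(z1,[z0,y1,y1,z3]),(z1,[y3,z0,z1]),(z1,[z1])],
    .ref (nat_lit 342) k0 [(z1,[z0,z1]),(z1,[z3,z1,z1,y3]),(z1,[y3,y1,z0,z3])],.ref (nat_lit 342) k0 [(z1,[z0,z1]),
    (z1,[y3,y1,z0,z3]),(z1,[z3,z1,z1,y3])],.ref (nat_lit 331) k0 [(z1,[z0,z1]),(z1,[y3,y1,z0,z3]),(z1,[z3,z1,z1,y3])],
    .ref k167 k3 [(z1,[z0,z1]),(z1,[z3,z2,z2,y6]),(z3,[y3,y2,y1,z6])],.ref (nat_lit 343) k0 [(z1,[z0,z1]),(z1,[y3,y1,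
    z0,z3]),(z1,[z0,y1,y1,z3])]],
    .leafM k6 [k0,k1,k2,k3,k4,k5] [(z1,[y1,y1,z1])] [],
    .leafM k6 [k0,k1,k2,k3,k4,k5] [(z2,[y2,y1,y1,z2])] [],
    .lp [k136,k176,k136,k172,k178,k160] [k21,k21,k1,k1,k21,k21,k3,k3,k0,k0,k9,k9] k0 [[k0,k0,k0,k8,k0,k0,k0,k0,k0,k0,k4],
    [k0,k0,k0,k0,k0,k0,k40,k6],[k0,k8,k0,k0,k0,k0,k0,k0,k0,k4],[],[],[k0,k0,k0,k0,k0,k0,k36],[k6,k0,k0,k0,k0,k0,k0,k0,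
    k0,k6],[k40,k0,k0,k0,k36],[k0,k0,k0,k4,k0,k0,k0,k6],[k0,k0,k0,k0,k0,k0,k0,k0,k0,k0,k6],[],[k0,k4,k0,k0,k0,k0,k0,
    k0,k6]] (nat_lit 480) k5
    [[(k0,k132),(k4,k136),(k11,k142),(k7,k154),(k3,k156),(k8,k157)],[(k1,k132),(k5,k136),(k2,k148),(k10,k148),(k9,
    k163),(k6,k194)],[(k9,k137),(k1,k156),(k5,k164),(k6,k168),(k10,k172),(k2,k176)],[(k0,k148),(k4,k156),(k11,k168),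
    (k8,k173),(k7,k174),(k3,k176)],[(k0,k136),(k4,k136),(k11,k152),(k7,k154),(k8,k157),(k3,k164)],[(k1,k136),(k5,
    k136),(k10,k148),(k2,k156),(k9,k157),(k6,k190)],[(k9,k139),(k1,k154),(k5,k154),(k10,k166),(k6,k172),(k2,k174)],
    [(k11,k166),(k3,k168),(k8,k169),(k7,k172),(k4,k190),(k0,k194)],[(k3,k137),(k7,k139),(k4,k157),(k0,k163),(k11,
    k175),(k8,k178)],[(k1,k157),(k5,k157),(k6,k169),(k2,k173),(k10,k175),(k9,k178)],[(k1,k142),(k5,k152),(k10,k160),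
    (k6,k166),(k2,k168),(k9,k175)],[(k0,k148),(k4,k148),(k11,k160),(k7,k166),(k3,k172),(k8,k175)]]
    [] k0
    [[k3,k0,k0,k0,k0,k0],[k2,k1,k0,k0,k0,k0],[k2,k0,k1,k0,k0,k0],[k2,k0,k0,k0,k1,k0],[k2,k0,k0,k0,k0,k1],[k1,k1,k1,k0,
    k0,k0],[k1,k1,k0,k0,k0,k1],[k1,k0,k2,k0,k0,k0],[k1,k0,k1,k0,k1,k0],[k1,k0,k1,k0,k0,k1],[k1,k1,k0,k1,k0,k0],[k1,k0,
    k0,k1,k0,k1],[k1,k1,k0,k0,k1,k0],[k1,k0,k0,k0,k0,k2],[k0,k1,k2,k0,k0,k0],[k0,k1,k1,k1,k0,k0],[k0,k1,k1,k0,k1,k0],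
    [k0,k0,k3,k0,k0,k0],[k0,k0,k2,k0,k1,k0],[k0,k0,k2,k0,k0,k1],[k0,k0,k1,k1,k0,k1],[k0,k0,k1,k0,k0,k2]]
    [.ref k6 k0 [(z1,[z1]),(z2,[y1,z3,z6]),(z1,[z1,y3,z0,z3]),(z1,[y2,z6,z0,z0,z3]),(z4,[z1,y15,y12,y12,y12,z12])],
    .ref k6 k0 [(z1,[z2,y1,y2]),(z1,[y1,z2,z4]),(z1,[z2,y4,y2,z3]),(z1,[y4,z8,z4,z0,z3]),(z2,[z1,y8,y7,y6,y6,z6])],
    .ref k6 k0 [(z1,[z1,z1,z0,y1]),(z2,[y1,z2,z6,z1]),(z1,[z1,y2,z0,z2]),(z1,[y2,z4,z0,z2,z3]),(z4,[z1,y14,y12,y13,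
    y12,z12])],.ref k6 k0 [(z3,[z4,z5,z4,z4,z4,y4]),(z3,[y2,z2,z7,y2,y2,z2]),(z3,[z4,y4,z4,z13,z4,y4]),(z3,[y8,z8,y8,
    y8,z1,z8]),(z3,[z1,y10,y8,y8,y8,z8])],.ref k6 k0 [(z3,[z4,z1]),(z3,[y2,z4,z9]),(z3,[z4,y8,z0,z9]),(z3,[y8,z16,z0,
    z0,z9]),(z3,[z1,y11,y9,y9,y9,z9])],.ref k6 k0 [(z1,[z2,z1,y2,y2]),(z1,[y1,z1,z4,z1]),(z1,[z2,y2,y2,z1]),(z1,[y4,
    z4,z4,z4,z3]),(z2,[z1,y7,y7,y7,y6,z6])],.ref k6 k0 [(z1,[z4,y1,y4]),(z1,[y2,z2,z5]),(z1,[z4,y4,y4,z3]),(z1,[y8,z8,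
    z8,z0,z3]),(z1,[z1,y4,y4,y3,y3,z3])],.ref k6 k0 [(z1,[z1,z2,z0,y2]),(z2,[y1,z1,z6,z2]),(z1,[z1,y1,z0,z1]),(z1,[y2,
    z2,z0,z4,z3]),(z4,[z1,y13,y12,y14,y12,z12])],.ref k6 k0 [(z3,[z4,z9,z4,z0,z4,y4]),(z3,[y2,z0,z7,z0,y2,z2]),(z3,
    [z4,z0,z4,z9,z4,y4]),(z3,[y8,z0,y8,z0,z1,z8]),(z3,[z1,y9,y8,y9,y8,z8])],.ref k6 k0 [(z3,[z4,z5,z0,y4]),(z3,[y2,z2,
    z9,z2]),(z3,[z4,y4,z0,z5]),(z3,[y8,z8,z0,z8,z9]),(z3,[z1,y10,y9,y10,y9,z9])],.ref k6 k0 [(z1,[y2,z5,z2,z0,z2]),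
    (z1,[z1,y1,z2,z0,y1]),(z1,[y2,z2,z2,z3,z2]),(z1,[z4,y4,y4,z0,y1]),(z2,[y1,y5,y5,y6,y5,z6])],.ref k6 k0 [(z1,[y4,
    z7,z0,z0,z4]),(z1,[z2,y2,z3,z0,y2]),(z1,[y4,z4,z0,z3,z4]),(z1,[z8,y8,z0,z0,y5]),(z1,[y1,y2,y3,y3,y2,z3])],
    .ref k6 k0 [(z1,[z4,z3,z0,z4,z4,y4]),(z1,[y2,z0,z3,y2,y2,z2]),(z1,[z4,z0,z0,z7,z4,y4]),(z1,[y8,z0,z0,y8,y5,z8]),
    (z1,[z1,y3,y3,y2,y2,z2])],.ref k6 k0 [(z1,[z2,z1]),(z1,[y1,z1,z3]),(z1,[z2,y2,z0,z3]),(z1,[y4,z4,z0,z0,z3]),(z2,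
    [z1,y7,y6,y6,y6,z6])],.ref k6 k0 [(z1,[z2,z3,y2,y4]),(z1,[y1,z0,z4,z2]),(z1,[z2,z0,y2,y1]),(z1,[y4,z0,z4,z8,z3]),
    (z2,[z1,y6,y7,y8,y6,z6])],.ref k6 k0 [(z1,[y2,z3,z2,z2,z2]),(z1,[z1,z0,z2,y1,y1]),(z1,[y2,z0,z2,z5,z2]),(z1,[z4,
    z0,y4,y4,y1]),(z2,[y1,y6,y5,y5,y5,z6])],.ref k6 k0 [(z1,[z4,z7,z0,z0,z4,y4]),(z1,[y2,y2,z3,z0,y2,z2]),(z1,[z4,z4,
    z0,z3,z4,y4]),(z1,[y8,y8,z0,z0,y5,z8]),(z1,[z1,y2,y3,y3,y2,z2])],.ref k6 k0 [(z1,[z1,z3,z0,y3]),(z2,[y1,z0,z6,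
    z3]),(z1,[z1]),(z1,[y2,z0,z0,z6,z3]),(z4,[z1,y12,y12,y15,y12,z12])],.ref k6 k0 [(z3,[z4,z13,z4,y4,z4,y4]),(z3,[y2,
    y2,z7,z2,y2,z2]),(z3,[z4,z4,z4,z5,z4,y4]),(z3,[y8,y8,y8,z8,z1,z8]),(z3,[z1,y8,y8,y10,y8,z8])],.ref k6 k0 [(z3,[z4,
    z9,z0,y8]),(z3,[y2,z0,z9,z4]),(z3,[z4,z0,z0,z1]),(z3,[y8,z0,z0,z16,z9]),(z3,[z1,y9,y9,y11,y9,z9])],
    .ref k6 k0 [(z1,[y4,z3,z0,z4,z4]),(z1,[z2,z0,z3,y2,y2]),(z1,[y4,z0,z0,z7,z4]),(z1,[z8,z0,z0,y8,y5]),(z1,[y1,y3,y3,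
    y2,y2,z3])],.ref k6 k0 [(z1,[z2,z3,z0,y2]),(z1,[y1,z0,z3,z1]),(z1,[z2,z0,z0,z1]),(z1,[y4,z0,z0,z4,z3]),(z2,[z1,y6,
    y6,y7,y6,z6])]],
    .lp [k170,k148,k178,k152,k150,k160] [k4,k4,k15,k15,k0,k0,k13,k13,k14,k14,k9,k9] k0 [[k0,k0,k36,k0,k0,k0,k0,k18],[k0,
    k0,k0,k0,k0,k0,k0,k0,k0,k0,k14,k6],[k0,k0,k0,k0,k2,k0,k0,k0,k6],[k0,k36],[k0,k0,k0,k0,k0,k0,k0,k30,k0,k0,k24],[k0,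
    k0,k0,k2,k0,k0,k0,k18],[k0,k18,k0,k0,k18,k30],[k0,k0,k0,k0,k0,k0,k0,k0,k14,k10],[k0,k0,k0,k0,k0,k0,k10,k0,k0,k0,
    k0,k8],[k0,k0,k0,k6,k0,k0,k14],[k6,k0,k0,k0,k0,k0,k0,k0,k0,k8],[k14,k0,k0,k0,k0,k24]] (nat_lit 480) k5
    [[(k3,k145),(k4,k150),(k8,k160),(k7,k161),(k11,k173),(k0,k176)],[(k5,k138),(k6,k143),(k2,k159),(k9,k160),(k1,
    k176),(k10,k179)],[(k1,k145),(k10,k148),(k6,k150),(k5,k163),(k9,k167),(k2,k184)],[(k7,k148),(k11,k148),(k8,k149),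
    (k0,k159),(k4,k163),(k3,k184)],[(k0,k138),(k3,k163),(k7,k165),(k11,k169),(k8,k170),(k4,k180)],[(k6,k135),(k1,
    k150),(k2,k163),(k10,k169),(k5,k180),(k9,k182)],[(k6,k134),(k2,k148),(k1,k161),(k5,k165),(k10,k180),(k9,k181)],
    [(k7,k134),(k4,k135),(k0,k143),(k3,k150),(k8,k165),(k11,k166)],[(k8,k140),(k11,k141),(k0,k160),(k3,k167),(k7,
    k181),(k4,k182)],[(k9,k140),(k10,k147),(k2,k149),(k1,k160),(k6,k165),(k5,k170)],[(k9,k141),(k2,k148),(k10,k160),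
    (k6,k166),(k5,k169),(k1,k173)],[(k8,k147),(k3,k148),(k11,k160),(k4,k169),(k0,k179),(k7,k180)]]
    [] k0
    [[k2,k0,k1,k0,k0,k0],[k1,k1,k1,k0,k0,k0],[k1,k1,k0,k1,k0,k0],[k1,k1,k0,k0,k1,k0],[k1,k1,k0,k0,k0,k1],[k1,k0,k2,k0,
    k0,k0],[k1,k0,k1,k1,k0,k0],[k1,k0,k0,k2,k0,k0],[k1,k0,k0,k0,k2,k0],[k0,k1,k1,k1,k0,k0],[k0,k1,k0,k2,k0,k0],[k0,k1,
    k0,k1,k0,k1],[k0,k1,k0,k0,k2,k0],[k0,k1,k0,k0,k1,k1],[k0,k1,k0,k0,k0,k2],[k0,k0,k1,k2,k0,k0],[k0,k0,k0,k3,k0,k0],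
    [k0,k0,k0,k0,k3,k0],[k0,k0,k0,k0,k2,k1],[k0,k0,k0,k0,k1,k2]]
    [.ref k36 k7 [(z1,[y2,z4,z0,z1]),(z1,[z0,z1]),(z2,[z2,y4,z1,y1]),(z1,[z1,y2])],.ref k8 k5 [(z2,[y4,z2,z1,y3,z2]),
    (z2,[z2,y2,y1,z1]),(z1,[z0,z0,z0,z1]),(z2,[z2,z0,y1,z1])],.ref k35 k2 [(z2,[z2,y2,z1,z1,y2]),(z1,[z1,y1,z0,z1,
    y1]),(z2,[z0,z2,y1,y1,z2]),(z1,[z0,y1])],.ref k36 k7 [(z1,[y2,z2,z1]),(z1,[z0,z1]),(z1,[z1,y1]),(z2,[z2,y2,y1,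
    z1])],.ref k35 k2 [(z1,[y1,z0,z1]),(z2,[y2,z0,z1,z1]),(z2,[z0,z2,y1,y1,z2]),(z1,[z0,y1])],.ref k8 k5 [(z2,[y4,z2,
    y1,y1,z2]),(z1,[z1,y1]),(z1,[z0,z0,z0,z1]),(z1,[z1])],.ref k35 k2 [(z1,[z1,y1,z1,z0,y1]),(z2,[z2,y2,z1,z1,y2]),
    (z2,[z0,z2,y1,y1,z2]),(z1,[z0,y1])],.ref k92 k1 [(z2,[z0,z0,y1,z1]),(z2,[z4,y2,z1,z1,y2]),(z1,[y1,y1,y1,y1,z2]),
    (z1,[z0,z0,z1])],.ref k92 k1 [(z2,[z0,z0,y1,z1]),(z2,[y4,y2,y3,y3,z6]),(z1,[z1,y1]),(z1,[z0,z0,z1])],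
    .ref k35 k2 [(z2,[z1,y1,z1,z0,y1]),(z2,[z1,y1,z0,z1,y1]),(z2,[z0,z2,y1,y1,z2]),(z1,[z0,y1])],.ref k11 k2 [(z1,[z1,
    y2,z1,z1,y2]),(z2,[z2,y4,z1,z3,y4]),(z2,[z0,z2,y1,y1,z2]),(z1,[z0,y1])],.ref k36 k7 [(z1,[z2,z2,z0,z1,y2]),(z1,
    [z0,z1]),(z2,[y2,y2,z1,y1,z2]),(z1,[y1,y1,z0,z0,z1])],.ref k36 k7 [(z1,[y2,z0,z1]),(z1,[z0,z1]),(z1,[z1]),(z2,[z2,
    z0,y1,z1])],.ref k35 k2 [(z1,[y1,y1,z1]),(z2,[y2,y2,z1,z1]),(z2,[z0,z2,y1,y1,z2]),(z1,[z0,y1])],.ref k165 k0 [(z1,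
    [z0,z1]),(z1,[y1,z0,z2]),(z2,[y2,z0,z1,z3]),(z2,[z0,y2,y1,y1,z2])],.ref k11 k2 [(z2,[z2,y4,z3,z1,y4]),(z1,[z1,y2,
    z1,z1,y2]),(z2,[z0,z2,y1,y1,z2]),(z1,[z0,y1])],.ref k92 k1 [(z2,[z0,z0,y1,z1]),(z1,[z1]),(z4,[y2,y6,y3,y3,z6]),
    (z1,[z0,z0,z1])],.ref k92 k1 [(z2,[z0,z0,y1,z1]),(z2,[y4,y6,y3,y3,z6]),(z1,[z1]),(z1,[z0,z0,z1])],
    .ref k35 k2 [(z2,[y1,y2,z1]),(z2,[y1,y2,z0,z1]),(z2,[z0,z2,y1,y1,z2]),(z1,[z0,y1])],.ref (nat_lit 347) k3 [(z1,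
    [z1,z1,y2]),(z1,[z0,z0,z1]),(z1,[z1,z0,y2]),(z2,[y4,y2,z7,y1,z2])]],
    .leafM k1 [k0,k1,k2,k3,k4,k5] [(z1,[y1,z0,y1,z1]),(z1,[z1,z0,z1])] [],
    .leafM k1 [k0,k1,k2,k3,k4,k5] [(z3,[z0,z1,z0,z1]),(z3,[z0,y1,z0,y1,z3])] []]

noncomputable def cT6_2_n7_3 : List TN :=
  [.leafM k6 [k0,k1,k2,k3,k4,k5] [(z3,[y1,y3,y1,z0,z3])] [],
    .lp [k76,k78,k82,k84,k80,k78] [k4,k4,k3,k3,k1,k1,k0,k0,k2,k2,k6,k0] k0 [[k0,k0,k10,k4,k0,k0,k0,k0,k0,k0,k0,k10],[k0,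
    k0,k0,k0,k0,k0,k0,k6,k0,k0,k0,k4],[k0,k4,k0,k0,k2,k0,k0,k0,k0,k2],[k0,k10,k0,k0,k4],[k0,k0,k0,k0,k0,k0,k2,k6],[k0,
    k0,k4,k2],[k6,k0,k0,k0,k0,k6],[k0,k0,k0,k0,k0,k2],[k0,k0,k0,k2],[k0,k0,k0,k0,k0,k0,k0,k0,k0,k0,k20,k16],[k4,k10,
    k0,k0,k0,k0,k0,k0,k16],[k0,k0,k0,k0,k0,k0,k0,k0,k20]] (nat_lit 240) k5
    [[(k11,k60),(k4,k79),(k0,k80),(k7,k80),(k3,k87),(k8,k94)],[(k10,k64),(k5,k69),(k2,k73),(k1,k80),(k6,k80),(k9,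
    k84)],[(k10,k71),(k6,k75),(k9,k79),(k5,k84),(k1,k87),(k2,k88)],[(k0,k73),(k8,k77),(k7,k79),(k11,k81),(k4,k84),(k3,
    k88)],[(k0,k69),(k7,k79),(k8,k81),(k3,k84),(k4,k84),(k11,k85)],[(k6,k77),(k10,k77),(k1,k79),(k9,k79),(k2,k84),(k5,
    k84)],[(k10,k78),(k2,k79),(k5,k79),(k1,k80),(k6,k86),(k9,k88)],[(k3,k75),(k4,k77),(k0,k80),(k8,k82),(k11,k84),(k7,
    k86)],[(k3,k79),(k4,k79),(k8,k80),(k11,k82),(k0,k84),(k7,k88)],[(k2,k77),(k9,k80),(k5,k81),(k6,k82),(k1,k94),(k10,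
    k96)],[(k1,k60),(k10,k62),(k2,k81),(k9,k82),(k6,k84),(k5,k85)],[(k11,k62),(k0,k64),(k3,k71),(k4,k77),(k7,k78),(k8,
    k96)]]
    [] k0
    [[k2,k0,k1,k0,k0,k0],[k2,k0,k0,k0,k0,k1],[k1,k1,k0,k0,k0,k1],[k1,k1,k1,k0,k0,k0],[k1,k0,k2,k0,k0,k0],[k1,k0,k1,k1,
    k0,k0],[k1,k0,k1,k0,k0,k1],[k1,k1,k0,k1,k0,k0],[k1,k0,k0,k1,k0,k1],[k1,k0,k0,k0,k0,k2],[k0,k1,k1,k1,k0,k0],[k0,k1,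
    k0,k1,k0,k1],[k0,k1,k0,k0,k2,k0],[k0,k1,k0,k0,k1,k1],[k0,k1,k0,k0,k0,k2],[k0,k0,k1,k0,k0,k2],[k0,k0,k0,k1,k0,k2],
    [k0,k0,k0,k0,k0,k3]]
    [.ref k165 k2 [(z6,[z6,y4,z3,y1]),(z1,[z3,y2]),(z2,[z0,y2,y3,y1,z6]),(z3,[y6,z4,z0,z1])],.ref k92 k10 [(z6,[z6,y4,
    z3,y1]),(z1,[z0,z1]),(z1,[z3,y2]),(z3,[y6,z4,z0,z1])],.ref (nat_lit 350) k1 [(z2,[y6,z2,y3,z1]),(z2,[z0,y2,y3,y1,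
    z6]),(z1,[z0,z0,z1]),(z1,[z3,y1])],.ref (nat_lit 351) k8 [(z1,[y6,z2,z3]),(z6,[z6,y2,y3,z1]),(z1,[z0,z1]),(z1,[z3,
    y1])],.ref k165 k2 [(z6,[z3,y1,z3,y1]),(z2,[z3,y1]),(z2,[z0,y2,y3,y1,z6]),(z3,[y3,z1,z0,z1])],.ref k165 k2 [(z1,
    [z1,z0,z1,z0,y1]),(z2,[z6,z0,z3,z1,y6]),(z2,[z0,y2,y3,y1,z6]),(z1,[y2,z0,y1,z0,z2])],.ref k17 k0 [(z1,[z0,z1]),
    (z2,[z6,y2,z3,y1]),(z1,[z3,y1]),(z2,[z0,y2,y3,y1,z6])],.ref k17 k0 [(z1,[z0,z1]),(z2,[z6,z0,z3,z1,y6]),(z1,[z3,z0,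
    z0,z1,y3]),(z2,[z0,y2,y3,y1,z6])],.ref k92 k10 [(z1,[z1,z0,z1,z0,y1]),(z1,[z0,z1]),(z2,[z6,z0,z3,z1,y6]),(z1,[y2,
    z0,y1,z0,z2])],.ref k92 k10 [(z6,[z3,y1,z3,y1]),(z1,[z0,z1]),(z2,[z3,y1]),(z3,[y3,z1,z0,z1])],
    .ref (nat_lit 351) k8 [(z1,[y6,y2,z0,y1,z6]),(z3,[z3,z1,z0,z1,y3]),(z1,[z0,z1]),(z2,[z6,z2,z3,z1,y6])],
    .ref (nat_lit 350) k1 [(z1,[y3,y1,y3,z0,z3]),(z2,[z0,y2,y3,y1,z6]),(z1,[z0,z0,z1]),(z2,[z6,z2,z3,z1,y6])],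
    .ref k17 k0 [(z1,[z0,z1]),(z1,[y1,z0,z2]),(z2,[y2,z0,z1,z1]),(z2,[z0,y2,y3,y1,z6])],.ref k165 k2 [(z1,[y1,z0,z1]),
    (z2,[y6,z0,z3,z1]),(z2,[z0,y2,y3,y1,z6]),(z1,[z2,z0,y1])],.ref k170 k6 [(z1,[y2,z0,z1]),(z2,[z0,y2,y3,y1,z6]),(z2,
    [z6,z0,y3,z1]),(z1,[z1])],.ref (nat_lit 350) k1 [(z1,[y3,z0,y3,z1]),(z2,[z0,y2,y3,y1,z6]),(z1,[z0,z0,z1]),(z2,[z6,
    z0,z3,y1])],.ref k92 k10 [(z12,[z6,z2,z9,y1,y6]),(z1,[z0,z1]),(z4,[z6,z2,z3,z1,y6]),(z6,[y6,y2,y3,z1,z6])],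
    .ref k92 k10 [(z6,[z2,z0,z3,y1]),(z1,[z0,z1]),(z1,[z1]),(z3,[y2,z0,z0,z1])]],
    .leafM k6 [k0,k1,k2,k3,k4,k5] [(z1,[y1,y1,y1,z1])] [],
    .lp [(nat_lit 344),(nat_lit 276),(nat_lit 304),(nat_lit 366),(nat_lit 308),(nat_lit 320)] [k11,k11,k45,k45,k31,k31,k0,
    k0,k37,k21,k23,k23] k0 [[k0,k0,k84,k2,k0,k0,k0,k0,k0,k0,k96],[k0,k0,k0,k0,k0,k0,k60,k0,k0,k0,k18],[k0,k2,k0,k0,k0,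
    k50,k0,k0,k0,k14],[k0,k84,k0,k0,k0,k40],[k0,k0,k40,k50,k0,k0,k0,k24],[k0,k0,k0,k0,k0,k0,k0,k88,k0,k0,k58,k4],[k0,
    k0,k0,k0,k88,k24],[k60,k0,k0,k0,k0,k0,k0,k0,k30],[k0,k0,k0,k14,k0,k0,k0,k0,k0,k0,k0,k30],[k0,k0,k0,k0,k0,k0,k30],
    [k0,k0,k0,k0,k4,k0,k0,k0,k0,k30],[k18,k96,k0,k0,k58]] (nat_lit 960) k5
    [[(k0,(nat_lit 248)),(k3,(nat_lit 292)),(k7,(nat_lit 297)),(k8,(nat_lit 318)),(k4,(nat_lit 328)),(k11,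
    (nat_lit 362))],[(k5,(nat_lit 240)),(k1,(nat_lit 248)),(k2,(nat_lit 308)),(k9,(nat_lit 334)),(k10,(nat_lit 350)),
    (k6,(nat_lit 415))],[(k9,(nat_lit 240)),(k1,(nat_lit 292)),(k5,(nat_lit 292)),(k6,(nat_lit 321)),(k2,
    (nat_lit 360)),(k10,(nat_lit 394))],[(k4,(nat_lit 240)),(k8,(nat_lit 270)),(k11,(nat_lit 298)),(k0,(nat_lit 308)),
    (k3,(nat_lit 360)),(k7,(nat_lit 361))],[(k0,(nat_lit 240)),(k4,(nat_lit 264)),(k3,(nat_lit 292)),(k8,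
    (nat_lit 298)),(k11,(nat_lit 326)),(k7,(nat_lit 385))],[(k2,(nat_lit 240)),(k5,(nat_lit 264)),(k6,(nat_lit 311)),
    (k1,(nat_lit 328)),(k10,(nat_lit 370)),(k9,(nat_lit 402))],[(k6,(nat_lit 278)),(k1,(nat_lit 297)),(k10,
    (nat_lit 339)),(k2,(nat_lit 361)),(k9,(nat_lit 369)),(k5,(nat_lit 385))],[(k7,(nat_lit 278)),(k4,(nat_lit 311)),
    (k3,(nat_lit 321)),(k11,(nat_lit 343)),(k8,(nat_lit 359)),(k0,(nat_lit 415))],[(k3,(nat_lit 240)),(k11,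
    (nat_lit 292)),(k8,(nat_lit 308)),(k0,(nat_lit 334)),(k7,(nat_lit 369)),(k4,(nat_lit 402))],[(k2,(nat_lit 270)),
    (k10,(nat_lit 276)),(k5,(nat_lit 298)),(k9,(nat_lit 308)),(k1,(nat_lit 318)),(k6,(nat_lit 359))],[(k9,
    (nat_lit 292)),(k2,(nat_lit 298)),(k10,(nat_lit 320)),(k5,(nat_lit 326)),(k6,(nat_lit 343)),(k1,(nat_lit 362))],
    [(k8,(nat_lit 276)),(k11,(nat_lit 320)),(k7,(nat_lit 339)),(k0,(nat_lit 350)),(k4,(nat_lit 370)),(k3,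
    (nat_lit 394))]]
    [] k0
    [[k3,k0,k0,k0,k0,k0],[k2,k1,k0,k0,k0,k0],[k2,k0,k1,k0,k0,k0],[k2,k0,k0,k0,k1,k0],[k1,k1,k1,k0,k0,k0],[k1,k1,k0,k0,
    k1,k0],[k1,k1,k0,k0,k0,k1],[k1,k0,k2,k0,k0,k0],[k1,k1,k0,k1,k0,k0],[k1,k0,k1,k1,k0,k0],[k0,k2,k1,k0,k0,k0],[k0,k2,
    k0,k0,k1,k0],[k0,k1,k2,k0,k0,k0],[k0,k1,k1,k1,k0,k0],[k0,k1,k0,k1,k0,k1],[k0,k1,k1,k0,k1,k0],[k0,k1,k0,k0,k2,k0],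
    [k0,k1,k0,k0,k1,k1],[k0,k0,k3,k0,k0,k0],[k0,k0,k0,k3,k0,k0],[k0,k0,k0,k0,k3,k0],[k0,k0,k0,k0,k2,k1],[k0,k0,k0,k0,
    k1,k2]]
    [.ref k6 k0 [(z1,[z1]),(z16,[y11,z33,z48]),(z8,[y1,z3,z0,z24]),(z2,[y1,z3,z0,z0,z6]),(z4,[z1,y15,y12,y12,y12,
    z12])],.ref k6 k0 [(z7,[z16,y11,y16]),(z7,[y11,z22,z32]),(z7,[y2,z4,z2,z21]),(z7,[y8,z16,z8,z0,z21]),(z7,[z4,y29,
    y25,y21,y21,z21])],.ref k6 k0 [(z5,[z8,y1,z0,y8]),(z10,[y11,z22,z30,z11]),(z5,[y1,z2,z0,z16]),(z5,[y4,z8,z0,z4,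
    z15]),(z5,[z2,y19,y15,y17,y15,z15])],.ref k6 k0 [(z3,[z4,z5,z4,z4,z4,y4]),(z12,[y11,z11,z25,y11,y11,z11]),(z6,[y1,
    z1,y1,z17,y1,z1]),(z3,[y2,z2,y2,y2,z7,z2]),(z3,[z1,y10,y8,y8,y8,z8])],.ref k6 k0 [(z1,[z16,y13,y16,y16]),(z1,[y11,
    z11,z14,z11]),(z1,[y2,z2,z2,z5]),(z1,[y8,z8,z8,z8,z3]),(z1,[z4,y7,y7,y7,y3,z3])],.ref k6 k0 [(z3,[z16,z9,z0,z16,
    z16,y16]),(z3,[y11,z0,z9,y11,y11,z11]),(z3,[y2,z0,z0,z7,y2,z2]),(z3,[y8,z0,z0,y8,z1,z8]),(z3,[z4,y9,y9,y5,y5,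
    z5])],.ref k6 k0 [(z1,[z8,y5,y8]),(z2,[y11,z11,z17]),(z1,[y1,z1,z1,z3]),(z1,[y4,z4,z4,z0,z3]),(z1,[z2,y5,y5,y3,y3,
    z3])],.ref k6 k0 [(z1,[z4,y1,z0,y8]),(z4,[y11,z11,z12,z22]),(z2,[y1,z1,z0,z8]),(z1,[y2,z2,z0,z4,z3]),(z1,[z1,y4,
    y3,y5,y3,z3])],.ref k6 k0 [(z1,[y16,z19,z16,z0,z16]),(z1,[z11,y11,y8,z0,y11]),(z1,[z2,y2,y2,z3,y2]),(z1,[z8,y8,y8,
    z0,y5]),(z1,[y4,z1,z1,y3,z1,z3])],.ref k6 k0 [(z1,[z8,y5,z0,y8,y8]),(z2,[y11,z11,z6,z11,z11]),(z1,[y1,z1,z0,z4,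
    z1]),(z1,[y4,z4,z0,z4,z7]),(z1,[z2,y5,y3,y5,y5,z3])],.ref k6 k0 [(z1,[y2,z3,z4,z2]),(z8,[z11,z0,z2,y11]),(z4,[z1,
    z0,y2,z11]),(z1,[z1,z0,y2,y1,z3]),(z2,[y1,y6,y4,y5,y6,z6])],.ref k6 k0 [(z3,[y8,z1,z8,y8,y8,z8]),(z6,[z11,z11,z7,
    z11,z11,y11]),(z3,[z1,z1,y1,z10,z1,y1]),(z3,[z4,z4,y4,z4,z13,y4]),(z3,[y2,y11,y7,y11,y11,z11])],.ref k6 k0 [(z5,
    [y16,z15,z16,z32]),(z5,[z11,z0,z4,y22]),(z5,[z2,z0,y2,z11]),(z5,[z8,z0,y8,y16,z15]),(z5,[y4,y15,y11,y7,y15,z15])],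
    .ref k6 k0 [(z7,[y16,z21,z16,z16,z16]),(z7,[z11,z0,z10,y11,y11]),(z7,[z2,z0,y2,z19,y2]),(z7,[z8,z0,y8,y8,z13]),
    (z7,[y4,y21,y17,y17,y17,z21])],.ref k6 k0 [(z3,[y8,z9,z8,z0,z8]),(z6,[z11,z0,z7,z0,y11]),(z3,[z1,z0,y1,z9,y1]),
    (z3,[z4,z0,y4,z0,z5]),(z3,[y2,y9,y7,y9,y7,z9])],.ref k6 k0 [(z3,[y16,y7,z0,z0,y16,z16]),(z3,[z11,z11,z9,z0,z11,
    y11]),(z3,[z2,z2,z0,z9,z2,y2]),(z3,[z8,z8,z0,z0,z17,y8]),(z3,[y4,y13,y9,y9,y13,z13])],.ref k6 k0 [(z1,[y16,y29,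
    y16,y32,y32,z32]),(z1,[z11,z22,z14,z22,z22,y22]),(z1,[z2,z4,z2,z7,z4,y4]),(z1,[z8,z16,z8,z16,z19,y16]),(z1,[y4,
    y11,y7,y11,y11,z11])],.ref k6 k0 [(z1,[y8,y5,z0,y8,y8,z8]),(z2,[z11,z11,z6,z11,z11,y11]),(z1,[z1,z1,z0,z4,z1,y1]),
    (z1,[z4,z4,z0,z4,z7,y4]),(z1,[y2,y5,y3,y5,y5,z5])],.ref k6 k0 [(z1,[y8,z3,z0,z24]),(z2,[z11,z0,z6,y33]),(z1,[z1]),
    (z1,[z4,z0,z0,y12,z3]),(z1,[y2,y3,y3,z3,y3,z3])],.ref k6 k0 [(z1,[y2,z3,z0,z0,z6]),(z8,[z11,z0,z24,z0,y33]),(z4,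
    [z1,z0,z0,z12,y3]),(z1,[z1]),(z2,[y1,y6,y6,y6,y3,z6])],.ref k6 k0 [(z1,[z4,z15,z12,z12,z12,y12]),(z4,[y11,y33,y21,
    y33,y33,z33]),(z2,[y1,y3,y3,z3,y3,z3]),(z1,[y2,y6,y6,y6,y3,z6]),(z1,[z1])],.ref k6 k0 [(z3,[z16,z41,z32,z32,z32,
    y32]),(z3,[y11,y22,y13,y22,y22,z22]),(z3,[y2,y4,y4,z5,y4,z4]),(z3,[y8,y16,y16,y16,y7,z16]),(z3,[z4,y1,y1,y1,y1,
    z1])],.ref k6 k0 [(z1,[z8,z11,z8,z8,z8,y8]),(z2,[y11,y11,y5,y11,y11,z11]),(z1,[y1,y1,y1,z2,y1,z1]),(z1,[y4,y4,y4,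
    y4,y1,z4]),(z1,[z2,y1,y1,y1,y1,z1])]],
    .lp [k80,k72,k84,k82,k80,k80] [k2,k2,k6,k6,k0,k0,k1,k1,k2,k2,k2,k2] k0 [[k0,k0,k0,k0,k0,k0,k0,k18],[k0,k0,k16],[k0,k0,
    k0,k0,k0,k0,k0,k0,k0,k2],[k16,k0,k0,k0,k2],[k0,k0,k0,k0,k0,k0,k4,k8],[k0,k0,k2,k0,k0,k0,k0,k0,k0,k0,k20],[k0,k18,
    k0,k0,k0,k8],[k0,k0,k0,k0,k0,k4],[k0,k0,k0,k2],[],[],[k0,k0,k0,k0,k20]] (nat_lit 240) k5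
    [[(k7,k61),(k3,k76),(k0,k80),(k8,k80),(k11,k80),(k4,k82)],[(k6,k63),(k1,k80),(k9,k80),(k10,k80),(k5,k82),(k2,
    k92)],[(k5,k62),(k2,k72),(k1,k76),(k10,k76),(k6,k77),(k9,k94)],[(k3,k72),(k8,k74),(k11,k76),(k7,k77),(k4,k80),(k0,
    k92)],[(k3,k62),(k7,k81),(k0,k82),(k8,k82),(k4,k84),(k11,k84)],[(k6,k75),(k9,k78),(k2,k80),(k1,k82),(k5,k84),(k10,
    k102)],[(k1,k61),(k2,k77),(k5,k81),(k10,k81),(k6,k86),(k9,k89)],[(k0,k63),(k4,k75),(k3,k77),(k8,k81),(k11,k81),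
    (k7,k86)],[(k4,k78),(k0,k80),(k8,k80),(k11,k80),(k7,k89),(k3,k94)],[(k2,k74),(k1,k80),(k9,k80),(k10,k80),(k6,k81),
    (k5,k82)],[(k2,k76),(k1,k80),(k9,k80),(k10,k80),(k6,k81),(k5,k84)],[(k3,k76),(k0,k80),(k8,k80),(k11,k80),(k7,k81),
    (k4,k102)]]
    [] k0
    [[k2,k0,k0,k1,k0,k0],[k1,k1,k1,k0,k0,k0],[k1,k1,k0,k1,k0,k0],[k1,k1,k0,k0,k1,k0],[k1,k1,k0,k0,k0,k1],[k1,k0,k1,k1,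
    k0,k0],[k1,k0,k0,k2,k0,k0],[k1,k0,k0,k1,k1,k0],[k1,k0,k0,k1,k0,k1],[k0,k3,k0,k0,k0,k0],[k0,k2,k1,k0,k0,k0],[k0,k2,
    k0,k1,k0,k0],[k0,k2,k0,k0,k0,k1],[k0,k1,k2,k0,k0,k0],[k0,k1,k1,k1,k0,k0],[k0,k1,k1,k0,k1,k0],[k0,k1,k0,k1,k0,k1],
    [k0,k1,k0,k0,k1,k1],[k0,k1,k0,k0,k0,k2]]
    [.ref k6 k0 [(z7,[z12,y3,z0,z0,y4]),(z7,[z6,y12,z7,z0,y2]),(z7,[y6,z12,z0,z21,z2]),(z7,[y3,z6,z0,z0,z8]),(z7,[y12,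
    z3,y7,y21,y3,z21])],.ref k6 k0 [(z1,[z3,z0,y1,y3]),(z2,[z3,y3,z1,y3]),(z2,[y3,z3,z1,z9]),(z4,[y3,z3,z1,z3,z4]),
    (z1,[y3,z0,z0,z0,y1,z3])],.ref k6 k0 [(z5,[z12,z3,y4,z0,y4]),(z5,[z6,y6,z3,z0,y2]),(z5,[y6,z6,z2,z15,z2]),(z5,[y3,
    z3,z1,z0,z6]),(z5,[y12,y3,y1,y15,y1,z15])],.ref k6 k0 [(z1,[z6,z3,z0,z6,z2,y6]),(z1,[z3,z0,z1,z3,z1,y3]),(z1,[y3,
    z0,z0,z0,y1,z3]),(z2,[y3,z0,z0,y3,z1,z3]),(z1,[y6,y3,y1,y9,y3,z9])],.ref k6 k0 [(z7,[z12,z9,y4]),(z7,[z6,y6,z5]),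
    (z7,[y6,z6,z2,z21]),(z7,[y3,z3,z1,z0,z7]),(z7,[y12,y9,y3,y21,y7,z21])],.ref k6 k0 [(z1,[z12,y9,z0,y12,y4]),(z1,
    [z6,y6,z1,y6,y2]),(z1,[y6,z6,z0,z9,z2]),(z1,[y3,z3,z0,z3,z2]),(z1,[y12,z9,y1,z9,z3,z3])],.ref k6 k0 [(z1,[z6,y3,
    z0,z0,y4]),(z1,[z3,y3,z1,z0,y2]),(z1,[y3,z3,z0,z3,z2]),(z2,[y3,z3,z0,z0,z4]),(z1,[y6,z3,y1,y3,z3,z3])],
    .ref k6 k0 [(z1,[y12,z3,y4,y12,z0,z12]),(z1,[y6,z0,y1,y6,z0,z6]),(z1,[z6,z0,z2,z9,z0,y6]),(z1,[z3,z0,z1,z3,z1,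
    y3]),(z1,[z12,y3,z3,z9,y1,y9])],.ref k6 k0 [(z1,[z3,z0,z0,z0,y1]),(z2,[z3,y3,z2,z0,y1]),(z2,[y3,z3,z0,z6,z1]),(z4,
    [y3,z3,z0,z0,z5]),(z1,[y3,z0,y1,y3,z0,z3])],.ref k6 k0 [(z1,[z2,z3,y2]),(z1,[z1]),(z1,[y1,z0,z1,z3]),(z2,[y1,z0,
    z1,z0,z2]),(z1,[y2,y3,z1,y3,y1,z3])],.ref k6 k0 [(z1,[z6,z3,y4,y6]),(z1,[z3,z0,y1,y3]),(z1,[y3,z0,z2,z6]),(z2,[y3,
    z0,z2,z3,z2]),(z1,[y6,y3,z3,z3,y1,z3])],.ref k6 k0 [(z3,[z12,z9,y8,z0,y4]),(z3,[z6,z0,y1,z0,y2]),(z3,[y6,z0,z4,z9,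
    z2]),(z3,[y3,z0,z2,z0,z4]),(z3,[y12,y9,z5,y9,z1,z9])],.ref k6 k0 [(z5,[z12,z15,y8]),(z5,[z6,z0,z1]),(z5,[y6,z0,z4,
    z15]),(z5,[y3,z0,z2,z0,z5]),(z5,[y12,y15,z3,y15,y5,z15])],.ref k6 k0 [(z1,[y6,z3,z2,z12]),(z1,[y3,z0,z2,z6]),(z1,
    [z3,z0,y1,y3]),(z2,[z3,z0,y1,y6,z2]),(z1,[z6,y3,y3,y15,y1,z3])],.ref k6 k0 [(z1,[y12,z3,z4,z12,z4]),(z1,[y6,z0,z3,
    z6,z2]),(z1,[z6,z0,y2,y3,y2]),(z1,[z3,z0,y1,y3]),(z1,[z12,y3,y5,y15,y5,z3])],.ref k6 k0 [(z1,[y3,z0,z0,z0,y1,z3]),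
    (z2,[y3,y3,z2,z0,y1,z3]),(z2,[z3,z3,z0,z6,z1,y3]),(z4,[z3,z3,z0,z0,z5,y3]),(z1,[z3,z0,y1,y3])],.ref k6 k0 [(z1,
    [z6,z3,y2,z0,y2]),(z1,[z3,z0,z0,z0,y1]),(z1,[y3,z0,z1,z3,z1]),(z2,[y3,z0,z1,z0,z3]),(z1,[y6,y3,z1,y3,z1,z3])],
    .ref k6 k0 [(z1,[y12,y9,z0,y12,y4,z12]),(z1,[y6,y6,z1,y6,y2,z6]),(z1,[z6,z6,z0,z9,z2,y6]),(z1,[z3,z3,z0,z3,z2,
    y3]),(z1,[z12,z9,y1,z9,z3,y9])],.ref k6 k0 [(z1,[z3,z3,y1]),(z2,[z3,z0,z1]),(z2,[y3,z0,z1,z6]),(z4,[y3,z0,z1,z0,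
    z4]),(z1,[y3,y3,z0,y3,y1,z3])]],
    .lp [(nat_lit 316),(nat_lit 304),(nat_lit 306),(nat_lit 348),(nat_lit 324),(nat_lit 320)] [k16,k16,k22,k22,k21,k21,k0,
    k0,k12,k12,k14,k14] k0 [[k0,k0,k56,k20,k0,k0,k0,k0,k0,k0,k52],[k0,k0,k0,k0,k0,k0,k28,k14],[k0,k20,k0,k0,k0,k22],
    [k0,k56,k0,k0,k0,k12],[k0,k0,k12,k22,k0,k0,k0,k10],[k0,k0,k0,k0,k0,k0,k0,k70,k0,k0,k10],[k14,k0,k0,k0,k70,k10],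
    [k28,k0,k0,k0,k0,k0,k0,k0,k0,k18],[k0,k0,k0,k0,k0,k0,k18,k0,k0,k0,k0,k60],[],[k0,k0,k0,k0,k0,k0,k0,k0,k0,k60],[k0,
    k52,k0,k0,k10]] (nat_lit 960) k5
    [[(k0,(nat_lit 264)),(k3,(nat_lit 310)),(k4,(nat_lit 311)),(k8,(nat_lit 320)),(k7,(nat_lit 322)),(k11,
    (nat_lit 378))],[(k5,(nat_lit 255)),(k1,(nat_lit 264)),(k2,(nat_lit 290)),(k10,(nat_lit 318)),(k9,(nat_lit 334)),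
    (k6,(nat_lit 360))],[(k9,(nat_lit 286)),(k1,(nat_lit 310)),(k6,(nat_lit 312)),(k5,(nat_lit 325)),(k2,
    (nat_lit 360)),(k10,(nat_lit 364))],[(k4,(nat_lit 283)),(k0,(nat_lit 290)),(k11,(nat_lit 312)),(k8,(nat_lit 314)),
    (k7,(nat_lit 338)),(k3,(nat_lit 360))],[(k0,(nat_lit 255)),(k4,(nat_lit 294)),(k11,(nat_lit 313)),(k8,
    (nat_lit 315)),(k3,(nat_lit 325)),(k7,(nat_lit 349))],[(k2,(nat_lit 283)),(k5,(nat_lit 294)),(k1,(nat_lit 311)),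
    (k6,(nat_lit 317)),(k10,(nat_lit 323)),(k9,(nat_lit 385))],[(k6,(nat_lit 278)),(k1,(nat_lit 322)),(k10,
    (nat_lit 334)),(k2,(nat_lit 338)),(k9,(nat_lit 346)),(k5,(nat_lit 349))],[(k7,(nat_lit 278)),(k3,(nat_lit 312)),
    (k4,(nat_lit 317)),(k8,(nat_lit 336)),(k11,(nat_lit 352)),(k0,(nat_lit 360))],[(k3,(nat_lit 286)),(k8,
    (nat_lit 306)),(k11,(nat_lit 322)),(k0,(nat_lit 334)),(k7,(nat_lit 346)),(k4,(nat_lit 385))],[(k10,(nat_lit 262)),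
    (k9,(nat_lit 306)),(k2,(nat_lit 314)),(k5,(nat_lit 315)),(k1,(nat_lit 320)),(k6,(nat_lit 336))],[(k2,
    (nat_lit 312)),(k5,(nat_lit 313)),(k10,(nat_lit 320)),(k9,(nat_lit 322)),(k6,(nat_lit 352)),(k1,(nat_lit 378))],
    [(k8,(nat_lit 262)),(k0,(nat_lit 318)),(k11,(nat_lit 320)),(k4,(nat_lit 323)),(k7,(nat_lit 334)),(k3,
    (nat_lit 364))]]
    [] k0
    [[k3,k0,k0,k0,k0,k0],[k2,k1,k0,k0,k0,k0],[k2,k0,k1,k0,k0,k0],[k2,k0,k0,k1,k0,k0],[k2,k0,k0,k0,k1,k0],[k1,k1,k1,k0,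
    k0,k0],[k1,k1,k0,k0,k1,k0],[k1,k1,k0,k0,k0,k1],[k1,k0,k2,k0,k0,k0],[k1,k0,k1,k0,k0,k1],[k1,k1,k0,k1,k0,k0],[k1,k0,
    k1,k1,k0,k0],[k0,k1,k2,k0,k0,k0],[k0,k1,k1,k1,k0,k0],[k0,k1,k0,k2,k0,k0],[k0,k1,k0,k1,k0,k1],[k0,k1,k1,k0,k1,k0],
    [k0,k1,k0,k0,k2,k0],[k0,k1,k0,k0,k1,k1],[k0,k0,k3,k0,k0,k0],[k0,k0,k2,k0,k0,k1],[k0,k0,k1,k2,k0,k0],[k0,k0,k1,k0,
    k0,k2],[k0,k0,k0,k3,k0,k0],[k0,k0,k0,k0,k3,k0],[k0,k0,k0,k0,k2,k1],[k0,k0,k0,k0,k1,k2]]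
    [.ref k6 k0 [(z1,[z1]),(z6,[y1,z1,z9]),(z3,[y2,z2,z0,z9]),(z2,[y1,z1,z0,z0,z1]),(z3,[z1,y1])],.ref k6 k0 [(z11,
    [z18,y1,y9]),(z11,[y3,z2,z18]),(z11,[y12,z8,z6,z33]),(z22,[y18,z12,z9,z0,z11]),(z11,[z6,y4,y3])],.ref k6 k0 [(z4,
    [z9,y2,z0,y9]),(z8,[y3,z2,z12,z3]),(z2,[y3,z2,z0,z9]),(z8,[y9,z6,z0,z9,z4]),(z4,[z3,y2,z0,y3])],.ref k6 k0 [(z3,
    [z6,y1,z0,z0,y1]),(z18,[y6,z4,z27,z0,z1]),(z9,[y12,z8,z0,z27,z2]),(z3,[y3,z2,z0,z0,z2]),(z9,[z6,y4,z0,z0,y1])],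
    .ref k6 k0 [(z7,[z9,z1]),(z14,[y3,z2,z21]),(z7,[y6,z4,z0,z21]),(z14,[y9,z6,z0,z0,z7]),(z7,[z3,y2])],
    .ref k6 k0 [(z1,[z18,y5,y9,y18]),(z1,[y3,z1,z3,z3]),(z1,[y12,z4,z6,z15]),(z2,[y18,z6,z9,z18,z1]),(z1,[z6,y2,y3,
    y6])],.ref k6 k0 [(z7,[z18,z1,y9]),(z7,[y3,z1,z12]),(z7,[y12,z4,z6,z21]),(z14,[y18,z6,z9,z0,z7]),(z7,[z6,y2,y3])],
    .ref k6 k0 [(z5,[z18,z5,z0,z18,z3,y18]),(z10,[y6,z0,z15,y6,y1,z6]),(z5,[y12,z0,z0,z3,y2,z12]),(z5,[y9,z0,z0,y9,z1,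
    z9]),(z5,[z6,z0,z0,z6,z1,y6])],.ref k6 k0 [(z1,[y9,z4,z0,z18]),(z2,[z3,y1,z3,y6]),(z1,[z6,y2,z0,y9]),(z2,[z9,y3,
    z0,y18,z1]),(z1,[y3,z1,z0,z6])],.ref k6 k0 [(z2,[z18,z2,z9,z0,z3,y18]),(z4,[y6,z0,z3,z0,y1,z6]),(z1,[y6,z0,y3,z3,
    y1,z6]),(z4,[y18,z0,y9,z0,y1,z18]),(z2,[z6,z0,z3,z0,z1,y6])],.ref k6 k0 [(z2,[z18,y4,y9,z0,y3]),(z4,[y6,z2,z9,z0,
    z1]),(z1,[y6,z2,z3,z3,z1]),(z4,[y18,z6,z9,z0,z5]),(z2,[z6,y2,y3,z0,y1])],.ref k6 k0 [(z1,[y18,z7,z0,z18,z3]),(z2,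
    [z6,y2,z3,y6,y1]),(z1,[z12,y4,z0,y9,y2]),(z1,[z9,y3,z0,y9,y1]),(z1,[y6,z2,z0,z6,z1])],.ref k6 k0 [(z1,[y2,z1,z1,
    z4]),(z3,[z1,z0,z4,y2]),(z3,[z4,z0,y2,z1]),(z2,[z2,z0,y1,y4,z1]),(z3,[y2,z0,z1,z4])],.ref k6 k0 [(z8,[y18,z8,z9,
    z18,z3]),(z16,[z6,z0,z21,y6,y1]),(z4,[z6,z0,y3,z6,y1]),(z16,[z18,z0,y9,y18,z5]),(z8,[y6,z0,z3,z6,z1])],
    .ref k6 k0 [(z7,[y18,z7,z9,z0,z6]),(z7,[z3,z0,z9,z0,y1]),(z7,[z12,z0,y6,z21,y4]),(z14,[z18,z0,y9,z0,z1]),(z7,[y6,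
    z0,z3,z0,z2])],.ref k6 k0 [(z2,[y9,y1,z0,y9,z0,z9]),(z4,[z3,z1,z6,z3,z0,y3]),(z1,[z3,z1,z0,z6,z0,y3]),(z4,[z9,z3,
    z0,z9,z2,y9]),(z2,[y3,y1,z0,y3,z0,z3])],.ref k6 k0 [(z1,[y6,z1,z3,z6]),(z1,[z1,z0,z1,y1]),(z1,[z4,z0,y2,y1]),(z2,
    [z6,z0,y3,y6,z1]),(z1,[y2,z0,z1,z2])],.ref k6 k0 [(z1,[z6,z1,y3]),(z1,[y1,z0,z2]),(z1,[y4,z0,z2,z3]),(z2,[y6,z0,
    z3,z0,z1]),(z1,[z2,z0,y1])],.ref k6 k0 [(z1,[z18,z7,z0,z18,z3,y18]),(z2,[y6,y2,z3,y6,y1,z6]),(z1,[y12,y4,z0,y9,y2,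
    z12]),(z1,[y9,y3,z0,y9,y1,z9]),(z1,[z6,z2,z0,z6,z1,y6])],.ref k6 k0 [(z2,[y3,z2,z0,z9]),(z4,[z1,z0,z6,y3]),(z1,
    [z1]),(z4,[z3,z0,z0,y9,z2]),(z2,[y1,z0,z0,z3])],.ref k6 k0 [(z8,[y18,z2,y9,z18,y3,z18]),(z16,[z6,z2,z27,y6,z1,
    y6]),(z4,[z6,z2,z3,z6,z1,y6]),(z16,[z18,z6,z9,y18,z11,y18]),(z8,[y6,y2,y3,z6,y1,z6])],.ref k6 k0 [(z5,[y9,z5,z0,
    z9,z3]),(z10,[z3,z0,z15,y3,y1]),(z5,[z6,z0,z0,z9,y2]),(z10,[z9,z0,z0,y9,z2]),(z5,[y3,z0,z0,z3,z1])],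
    .ref k6 k0 [(z2,[y9,y4,y9,y9,y3,z18]),(z4,[z3,z2,z9,z3,z1,y6]),(z1,[z3,z2,z3,z6,z1,y6]),(z4,[z9,z6,z9,z9,z5,y18]),
    (z2,[y3,y2,y3,y3,y1,z6])],.ref k6 k0 [(z1,[y2,z1,z0,z0,z1]),(z6,[z2,z0,z9,z0,y1]),(z3,[z4,z0,z0,z9,y2]),(z1,[z1]),
    (z3,[y2,z0,z0,z0,z1])],.ref k6 k0 [(z1,[z3,z1]),(z2,[y1,z0,z3]),(z1,[y2,z0,z0,z3]),(z2,[y3,z0,z0,z0,z1]),(z1,
    [z1])],.ref k6 k0 [(z4,[z18,z10,z9,z18,z3,y18]),(z8,[y6,y2,z9,y6,y1,z6]),(z2,[y6,y2,y3,z0,y1,z6]),(z8,[y18,y6,y9,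
    y18,z1,z18]),(z4,[z6,z2,z3,z6,z1,y6])],.ref k6 k0 [(z1,[z9,z7,z9,z18,z3,y18]),(z2,[y3,y2,z0,y6,y1,z6]),(z1,[y6,y4,
    y6,y9,y2,z12]),(z2,[y9,y6,y9,y18,y2,z18]),(z1,[z3,z2,z3,z6,z1,y6])]],
    .lp [(nat_lit 454),(nat_lit 478),(nat_lit 496),(nat_lit 484),(nat_lit 496),(nat_lit 466)] [k21,k21,k9,k9,k0,k0,k6,k6,
    k0,k0,k15,k15] k0 [[k0,k0,k30,k0,k0,k0,k0,k18],[k0,k0,k0,k0,k0,k0,k0,k24,k0,k0,k0,k66],[k0,k0,k0,k0,k0,k0,k0,k0,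
    k0,k60],[k0,k30,k0,k0,k6],[k0,k0,k0,k0,k0,k0,k48,k66],[k0,k0,k6],[k24,k18,k0,k0,k0,k66],[k0,k0,k0,k0,k0,k48,k0,k0,
    k18],[k0,k0,k0,k60],[k0,k0,k0,k0,k0,k0,k18,k0,k0,k0,k0,k72],[k66,k0,k0,k0,k0,k0,k0,k0,k72]] (nat_lit 1440) k5
    [[(k11,(nat_lit 460)),(k3,(nat_lit 466)),(k7,(nat_lit 469)),(k4,(nat_lit 475)),(k0,(nat_lit 520)),(k8,
    (nat_lit 547))],[(k5,(nat_lit 445)),(k6,(nat_lit 451)),(k10,(nat_lit 460)),(k2,(nat_lit 466)),(k9,(nat_lit 499)),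
    (k1,(nat_lit 520))],[(k10,(nat_lit 406)),(k6,(nat_lit 457)),(k1,(nat_lit 466)),(k5,(nat_lit 487)),(k9,
    (nat_lit 505)),(k2,(nat_lit 508))],[(k8,(nat_lit 427)),(k0,(nat_lit 466)),(k11,(nat_lit 472)),(k7,(nat_lit 481)),
    (k4,(nat_lit 493)),(k3,(nat_lit 508))],[(k0,(nat_lit 445)),(k7,(nat_lit 484)),(k3,(nat_lit 487)),(k4,
    (nat_lit 496)),(k8,(nat_lit 496)),(k11,(nat_lit 541))],[(k6,(nat_lit 424)),(k9,(nat_lit 448)),(k1,(nat_lit 475)),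
    (k10,(nat_lit 481)),(k2,(nat_lit 493)),(k5,(nat_lit 496))],[(k1,(nat_lit 469)),(k10,(nat_lit 475)),(k2,
    (nat_lit 481)),(k5,(nat_lit 484)),(k6,(nat_lit 532)),(k9,(nat_lit 556))],[(k4,(nat_lit 424)),(k0,(nat_lit 451)),
    (k3,(nat_lit 457)),(k11,(nat_lit 475)),(k8,(nat_lit 508)),(k7,(nat_lit 532))],[(k4,(nat_lit 448)),(k11,
    (nat_lit 463)),(k8,(nat_lit 496)),(k0,(nat_lit 499)),(k3,(nat_lit 505)),(k7,(nat_lit 556))],[(k2,(nat_lit 427)),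
    (k10,(nat_lit 481)),(k5,(nat_lit 496)),(k9,(nat_lit 496)),(k6,(nat_lit 508)),(k1,(nat_lit 547))],[(k10,
    (nat_lit 394)),(k1,(nat_lit 460)),(k9,(nat_lit 463)),(k2,(nat_lit 472)),(k6,(nat_lit 475)),(k5,(nat_lit 541))],
    [(k11,(nat_lit 394)),(k3,(nat_lit 406)),(k0,(nat_lit 460)),(k7,(nat_lit 475)),(k4,(nat_lit 481)),(k8,
    (nat_lit 481))]]
    [] k0
    [[k1,k1,k1,k0,k0,k0],[k1,k1,k0,k1,k0,k0],[k1,k1,k0,k0,k1,k0],[k1,k1,k0,k0,k0,k1],[k1,k0,k2,k0,k0,k0],[k1,k0,k1,k1,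
    k0,k0],[k1,k0,k0,k1,k0,k1],[k1,k0,k1,k0,k0,k1],[k1,k0,k0,k0,k0,k2],[k0,k2,k0,k0,k0,k1],[k0,k1,k1,k1,k0,k0],[k0,k1,
    k1,k0,k1,k0],[k0,k1,k0,k1,k0,k1],[k0,k1,k0,k0,k2,k0],[k0,k1,k0,k0,k1,k1],[k0,k1,k0,k0,k0,k2],[k0,k0,k2,k1,k0,k0],
    [k0,k0,k1,k0,k0,k2],[k0,k0,k0,k1,k0,k2],[k0,k0,k0,k0,k1,k2],[k0,k0,k0,k0,k0,k3]]
    [.ref k104 k0 [(z1,[z6,y5,y3,y6]),(z1,[y1,z1,z1,z1]),(z1,[y4,z4,z2,z5]),(z1,[y3,z2,z1,z2,z1])],.ref k36 k1 [(z1,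
    [z0,z0,y2,z1]),(z1,[y1,y1,y1,y2,z2]),(z1,[z0,z0,z1]),(z1,[y1,z0,z1,y1,z1])],.ref k56 k8 [(z1,[z2,z2,z1,z4,y4]),
    (z1,[z3,z4,z2,z7,y7]),(z1,[z0,y1,y1,y2,z2]),(z1,[y1,y1,z0,y2,z2])],.ref k72 k1 [(z1,[z0,z0,y2,z1]),(z1,[y1,z0,z1,
    y1,z1]),(z1,[z0,z0,z1]),(z1,[y1,z1,z3])],.ref k11 k1 [(z1,[z0,z0,y2,z1]),(z2,[y1,y1,y5,z0,z2]),(z1,[z0,z0,z1]),
    (z2,[y1,z1,y1,z2])],.ref k11 k1 [(z1,[z0,z0,y2,z1]),(z1,[y1,y1,y3,y1,z2]),(z1,[z0,z0,z1]),(z1,[y1,z0,y1,z0,z1])],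
    .ref k165 k9 [(z1,[y1,y1,y1,y2,z2]),(z1,[y4,z0,y2,y1,z4]),(z1,[y1,z0,z1,y1,z1]),(z1,[z2,z1,z1,z2,y2])],
    .ref k36 k1 [(z1,[z0,z0,y2,z1]),(z1,[y1,z0,y1,z0,z1]),(z1,[z0,z0,z1]),(z1,[y1,z1,z1,z1])],.ref k165 k9 [(z2,[y1,
    y1,y1,y2,z2]),(z1,[y2,z2,z0,z3]),(z2,[y1,z1,z3]),(z1,[z1])],.ref k36 k1 [(z1,[z0,z0,y2,z1]),(z1,[z1,y1,y2,y1,z1]),
    (z1,[z0,z0,z1]),(z1,[z1])],.ref k174 k3 [(z1,[y2,y1,y5,z0,z2]),(z1,[z1,z1,z4,z0,y1]),(z1,[z0,z0,z1]),(z1,[z1,z0,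
    z2,y1])],.ref k165 k9 [(z1,[z1,y1,y1,y2,z1]),(z1,[z4,z0,y2,y1]),(z1,[z1,z0,z1,y1]),(z1,[y2,z1,z1,z2])],
    .ref k36 k1 [(z1,[z0,z0,y2,z1]),(z2,[z1,y1,y2,y1,z1]),(z1,[z0,z0,z1]),(z2,[z1,z1,z2,z1,y1])],.ref k165 k9 [(z1,
    [y1,y1,z0,y1,z1]),(z1,[y4,z0,z2,z3]),(z1,[y1,z0,z2]),(z1,[z2,z1,y1])],.ref k11 k1 [(z1,[z0,z0,y2,z1]),(z1,[z1,y1,
    y3,y1,z1]),(z1,[z0,z0,z1]),(z1,[z1,z0,y1])],.ref k104 k0 [(z1,[y6,z1,z3]),(z1,[z1]),(z1,[z4,z0,y2,z1]),(z1,[z3,y1,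
    y2,y1,z1])],.ref (nat_lit 354) k3 [(z1,[y2,y1,y9,z2,z2]),(z1,[z1,z1,z6,y1,y1]),(z1,[z0,z0,z1]),(z1,[z1,z0,z4,
    y2])],.ref k36 k1 [(z1,[z0,z0,y2,z1]),(z2,[z1,y2,y2,y3,z2]),(z1,[z0,z0,z1]),(z2,[z1,z0,z2,y1])],
    .ref (nat_lit 355) k1 [(z1,[z0,z0,y2,z1]),(z1,[z1,y2,y4,y2,z2]),(z1,[z0,z0,z1]),(z1,[z1,z1,z2,z1,y1])],
    .ref k11 k1 [(z1,[z0,z0,y2,z1]),(z2,[z1,y2,y5,y2,z2]),(z1,[z0,z0,z1]),(z2,[z1,z0,y1])],.ref (nat_lit 356) k0 [(z1,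
    [y2,z3]),(z1,[z0,z0,z1]),(z1,[z0,z0,z0,z1]),(z1,[z2,y6,y3,y6,z6])]],
    .lp [(nat_lit 11952),(nat_lit 14276),(nat_lit 14276),(nat_lit 13280),(nat_lit 11620),(nat_lit 14110)] [(nat_lit 2242),
    (nat_lit 2242),(nat_lit 2160),k0,(nat_lit 1080),(nat_lit 1080),(nat_lit 1578),(nat_lit 1578),(nat_lit 2408),
    (nat_lit 2408),(nat_lit 1163),(nat_lit 1163)] k0 [[k0,k0,(nat_lit 3154),k0,k0,k0,k0,k0,k0,k0,k0,(nat_lit 332)],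
    [k0,k0,(nat_lit 2988),k0,k0,k0,k0,k0,k0,k0,k0,(nat_lit 5312)],[k0,k0,k0,k0,k0,k0,k0,k0,(nat_lit 664),
    (nat_lit 332)],[(nat_lit 2988),(nat_lit 3154)],[k0,k0,k0,k0,k0,k0,k0,(nat_lit 996),k0,k0,(nat_lit 498)],[k0,k0,k0,
    k0,k0,k0,k0,k0,k0,k0,(nat_lit 2656)],[k0,k0,k0,k0,k0,(nat_lit 996),k0,k0,(nat_lit 3154)],[k0,k0,k0,k0,k0,k0,k0,k0,
    (nat_lit 664)],[k0,k0,k0,(nat_lit 332),k0,k0,k0,k0,k0,k0,(nat_lit 996)],[k0,k0,k0,(nat_lit 664),k0,k0,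
    (nat_lit 664),(nat_lit 3154)],[(nat_lit 5312),(nat_lit 332)],[k0,k0,k0,k0,(nat_lit 2656),(nat_lit 498),k0,k0,k0,
    (nat_lit 996)]] (nat_lit 39840) k5
    [[(k7,(nat_lit 9960)),(k8,(nat_lit 10790)),(k4,(nat_lit 12616)),(k11,(nat_lit 13031)),(k3,(nat_lit 14526)),(k0,
    (nat_lit 17264))],[(k5,(nat_lit 9960)),(k9,(nat_lit 11786)),(k6,(nat_lit 12616)),(k10,(nat_lit 12699)),(k2,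
    (nat_lit 15022)),(k1,(nat_lit 17264))],[(k10,(nat_lit 9961)),(k5,(nat_lit 12368)),(k9,(nat_lit 14028)),(k1,
    (nat_lit 14526)),(k6,(nat_lit 14858)),(k2,(nat_lit 17430))],[(k8,(nat_lit 11536)),(k11,(nat_lit 12449)),(k7,
    (nat_lit 12698)),(k4,(nat_lit 13196)),(k0,(nat_lit 15022)),(k3,(nat_lit 17430))],[(k0,(nat_lit 9960)),(k3,
    (nat_lit 12368)),(k8,(nat_lit 13612)),(k7,(nat_lit 13778)),(k4,(nat_lit 14276)),(k11,(nat_lit 14525))],[(k1,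
    (nat_lit 12616)),(k6,(nat_lit 12782)),(k9,(nat_lit 12948)),(k2,(nat_lit 13196)),(k5,(nat_lit 14276)),(k10,
    (nat_lit 16849))],[(k1,(nat_lit 9960)),(k2,(nat_lit 12698)),(k6,(nat_lit 13280)),(k9,(nat_lit 13446)),(k5,
    (nat_lit 13778)),(k10,(nat_lit 14193))],[(k11,(nat_lit 10541)),(k0,(nat_lit 12616)),(k4,(nat_lit 12782)),(k8,
    (nat_lit 13114)),(k7,(nat_lit 13280)),(k3,(nat_lit 14858))],[(k0,(nat_lit 11786)),(k11,(nat_lit 12201)),(k4,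
    (nat_lit 12948)),(k7,(nat_lit 13446)),(k3,(nat_lit 14028)),(k8,(nat_lit 14774))],[(k1,(nat_lit 10790)),(k2,
    (nat_lit 11536)),(k10,(nat_lit 12865)),(k6,(nat_lit 13114)),(k5,(nat_lit 13612)),(k9,(nat_lit 14774))],[(k6,
    (nat_lit 10541)),(k9,(nat_lit 12201)),(k2,(nat_lit 12449)),(k1,(nat_lit 13031)),(k5,(nat_lit 14525)),(k10,
    (nat_lit 15106))],[(k3,(nat_lit 9961)),(k0,(nat_lit 12699)),(k8,(nat_lit 12865)),(k7,(nat_lit 14193)),(k11,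
    (nat_lit 15106)),(k4,(nat_lit 16849))]]
    [] k0
    [[k1,k1,k1,k0,k0,k0],[k1,k1,k0,k0,k1,k0],[k1,k1,k0,k0,k0,k1],[k1,k0,k2,k0,k0,k0],[k1,k0,k1,k1,k0,k0],[k1,k0,k1,k0,
    k1,k0],[k1,k0,k0,k2,k0,k0],[k1,k0,k0,k1,k1,k0],[k1,k0,k0,k1,k0,k1],[k1,k0,k0,k0,k2,k0],[k1,k0,k0,k0,k1,k1],[k0,k1,
    k1,k1,k0,k0],[k0,k1,k1,k0,k1,k0],[k0,k1,k0,k0,k1,k1],[k0,k1,k1,k0,k0,k1],[k0,k1,k0,k1,k0,k1],[k0,k1,k0,k0,k0,k2],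
    [k0,k0,k0,k2,k0,k1],[k0,k0,k0,k1,k1,k1]]
    [.ref (nat_lit 346) k5 [(z1,[y2,z1]),(z1,[z0,z0,z1]),(z1,[z2,y2,y1,z2])],.ref (nat_lit 280) k5 [(z1,[y2,z1,z1]),
    (z1,[z0,z0,z1]),(z1,[z1,y1,y1,z1])],.ref (nat_lit 346) k10 [(z1,[z2,z0,z1,y2]),(z1,[z0,z1]),(z1,[y2,y1,y2,z4])],
    .ref k172 k5 [(z1,[y2,z1]),(z1,[z0,z0,z1]),(z1,[z2,y2,y1,z2])],.ref (nat_lit 348) k3 [(z1,[y1,z1]),(z1,[y2,z0,y1,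
    z2]),(z1,[z0,z0,z1])],.ref (nat_lit 349) k7 [(z1,[y1,z0,y1,z1]),(z1,[z0,z1]),(z1,[z0,z0,z1])],
    .ref (nat_lit 352) k5 [(z1,[z2,y1]),(z1,[z0,z0,z1]),(z1,[y2,y2,y3,z6])],.ref (nat_lit 280) k5 [(z1,[z2,y1,y1]),
    (z1,[z0,z0,z1]),(z1,[y1,z0,z0,z1])],.ref (nat_lit 348) k8 [(z1,[z1,z0,z1,y1]),(z1,[z2,y1]),(z1,[z0,z1])],
    .ref k76 k9 [(z1,[y2,z1]),(z1,[z1,y1,y1,z1]),(z1,[z0,z0,z1])],.ref (nat_lit 353) k2 [(z1,[y2,z0,z1]),(z1,[z1,y1,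
    y1,z1]),(z1,[z0,z1])],.ref (nat_lit 353) k2 [(z1,[z2,z0,z1,y2]),(z1,[y1,y1,y1,z2]),(z1,[z0,z1])],
    .ref (nat_lit 348) k8 [(z1,[y1,z0,z1]),(z1,[y2,y1,z0,z2]),(z1,[z0,z1])],.ref (nat_lit 348) k3 [(z1,[z1,z1,z0,y1]),
    (z1,[z2,z0,y1]),(z1,[z0,z0,z1])],.ref (nat_lit 280) k5 [(z1,[y2,y1,y1,z2]),(z1,[z0,z0,z1]),(z1,[z1])],
    .ref (nat_lit 349) k7 [(z1,[z1,z0,y1]),(z1,[z0,z1]),(z1,[z0,z0,z1])],.ref (nat_lit 348) k3 [(z2,[z1,z2,z1,y2]),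
    (z1,[z1]),(z1,[z0,z0,z1])],.ref (nat_lit 357) k10 [(z1,[y2,y1,y1,z2]),(z1,[z0,z1]),(z1,[z1])],
    .ref (nat_lit 346) k5 [(z1,[z2,z1,z0,y2]),(z1,[z0,z0,z1]),(z1,[y2,y2,y1,z4])]],
    .lp [(nat_lit 458),(nat_lit 500),(nat_lit 494),(nat_lit 482),(nat_lit 464),(nat_lit 476)] [k21,k21,k0,k0,k3,k3,k9,k9,
    k18,k18,k12,k12] k0 [[k0,k0,k12,k0,k0,k0,k24],[k0,k0,k0,k0,k0,k0,k18,k0,k0,k0,k0,k48],[k0,k0,k0,k0,k0,k0,k0,k0,k0,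
    k18],[k0,k12,k0,k0,k0,k12],[k0,k0,k12,k0,k0,k0,k0,k12],[k0,k0,k0,k0,k0,k0,k0,k0,k0,k0,k24,k18],[k0,k0,k0,k0,k0,
    k12,k0,k0,k36],[k18,k24],[k0,k0,k0,k18,k0,k0,k0,k0,k0,k0,k60],[k0,k0,k0,k0,k0,k0,k0,k36],[k48,k0,k0,k0,k18],[k0,
    k0,k0,k0,k24,k0,k0,k0,k0,k60]] (nat_lit 1440) k5
    [[(k8,(nat_lit 401)),(k7,(nat_lit 446)),(k11,(nat_lit 467)),(k3,(nat_lit 479)),(k4,(nat_lit 494)),(k0,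
    (nat_lit 506))],[(k9,(nat_lit 437)),(k5,(nat_lit 464)),(k10,(nat_lit 467)),(k2,(nat_lit 479)),(k6,(nat_lit 488)),
    (k1,(nat_lit 506))],[(k10,(nat_lit 440)),(k9,(nat_lit 464)),(k1,(nat_lit 479)),(k5,(nat_lit 497)),(k2,
    (nat_lit 512)),(k6,(nat_lit 515))],[(k8,(nat_lit 464)),(k0,(nat_lit 479)),(k11,(nat_lit 488)),(k4,(nat_lit 497)),
    (k7,(nat_lit 503)),(k3,(nat_lit 512))],[(k0,(nat_lit 464)),(k8,(nat_lit 479)),(k4,(nat_lit 482)),(k7,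
    (nat_lit 488)),(k3,(nat_lit 497)),(k11,(nat_lit 503))],[(k6,(nat_lit 476)),(k9,(nat_lit 479)),(k5,(nat_lit 482)),
    (k1,(nat_lit 494)),(k2,(nat_lit 497)),(k10,(nat_lit 509))],[(k1,(nat_lit 446)),(k10,(nat_lit 461)),(k6,
    (nat_lit 482)),(k9,(nat_lit 485)),(k5,(nat_lit 488)),(k2,(nat_lit 503))],[(k11,(nat_lit 443)),(k8,(nat_lit 473)),
    (k4,(nat_lit 476)),(k7,(nat_lit 482)),(k0,(nat_lit 488)),(k3,(nat_lit 515))],[(k0,(nat_lit 437)),(k3,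
    (nat_lit 464)),(k11,(nat_lit 470)),(k4,(nat_lit 479)),(k7,(nat_lit 485)),(k8,(nat_lit 500))],[(k1,(nat_lit 401)),
    (k2,(nat_lit 464)),(k10,(nat_lit 470)),(k6,(nat_lit 473)),(k5,(nat_lit 479)),(k9,(nat_lit 500))],[(k6,
    (nat_lit 443)),(k1,(nat_lit 467)),(k9,(nat_lit 470)),(k2,(nat_lit 488)),(k5,(nat_lit 503)),(k10,(nat_lit 536))],
    [(k3,(nat_lit 440)),(k7,(nat_lit 461)),(k0,(nat_lit 467)),(k8,(nat_lit 470)),(k4,(nat_lit 509)),(k11,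
    (nat_lit 536))]]
    [] k0
    [[k2,k0,k0,k0,k1,k0],[k1,k1,k0,k0,k1,k0],[k1,k1,k0,k0,k0,k1],[k1,k0,k1,k0,k1,k0],[k1,k0,k1,k1,k0,k0],[k1,k0,k0,k2,
    k0,k0],[k1,k0,k0,k1,k1,k0],[k1,k0,k0,k1,k0,k1],[k1,k0,k0,k0,k2,k0],[k1,k0,k0,k0,k1,k1],[k0,k1,k0,k0,k2,k0],[k0,k1,
    k0,k0,k1,k1],[k0,k1,k0,k1,k0,k1],[k0,k0,k0,k2,k0,k1],[k0,k0,k0,k1,k1,k1]]
    [.ref (nat_lit 330) k8 [(z1,[z1,y1]),(z1,[y2,z1,z2])],.ref (nat_lit 339) k0 [(z1,[z0,z1]),(z1,[z2,y1])],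
    .ref (nat_lit 340) k2 [(z1,[z1]),(z1,[y1,y1,z1])],.ref (nat_lit 341) k2 [(z1,[y1,y1,z1]),(z1,[z1])],
    .ref (nat_lit 288) k1 [(z1,[z1,y1]),(z1,[z0,z1])],.ref (nat_lit 344) k0 [(z1,[y1,z2]),(z1,[y1,y1,z3])],
    .ref (nat_lit 288) k6 [(z1,[z1,y1]),(z1,[z0,z1])],.ref k21 k11 [(z1,[z1,y1]),(z1,[y1,z0,z1])],.ref k179 k9 [(z1,
    [y2,z1]),(z1,[z1,y1,z1])],.ref (nat_lit 345) k9 [(z1,[y2,z1]),(z1,[z1,y1,z1])],.ref (nat_lit 358) k0 [(z1,[z0,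
    z1]),(z1,[z1])],.ref (nat_lit 288) k1 [(z1,[y1,y1,z1]),(z1,[z0,z1])],.ref (nat_lit 341) k2 [(z1,[z1,y1]),(z1,[y1,
    z0,z1])],.ref k110 k11 [(z1,[z1,y2]),(z1,[y1,z1,z1])],.ref (nat_lit 345) k5 [(z1,[z2,z1,y2]),(z1,[y1,y1,z2])]],
    .lp [(nat_lit 458),(nat_lit 500),(nat_lit 494),(nat_lit 482),(nat_lit 464),(nat_lit 476)] [k21,k21,k0,k0,k3,k3,k9,k9,
    k18,k18,k12,k12] k0 [[k0,k0,k12,k0,k0,k0,k24],[k0,k0,k0,k0,k0,k0,k18,k0,k0,k0,k0,k48],[k0,k0,k0,k0,k0,k0,k0,k0,k0,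
    k18],[k0,k12,k0,k0,k0,k12],[k0,k0,k12,k0,k0,k0,k0,k12],[k0,k0,k0,k0,k0,k0,k0,k0,k0,k0,k24,k18],[k0,k0,k0,k0,k0,
    k12,k0,k0,k36],[k18,k24],[k0,k0,k0,k18,k0,k0,k0,k0,k0,k0,k60],[k0,k0,k0,k0,k0,k0,k0,k36],[k48,k0,k0,k0,k18],[k0,
    k0,k0,k0,k24,k0,k0,k0,k0,k60]] (nat_lit 1440) k5
    [[(k8,(nat_lit 401)),(k7,(nat_lit 446)),(k11,(nat_lit 467)),(k3,(nat_lit 479)),(k4,(nat_lit 494)),(k0,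
    (nat_lit 506))],[(k9,(nat_lit 437)),(k5,(nat_lit 464)),(k10,(nat_lit 467)),(k2,(nat_lit 479)),(k6,(nat_lit 488)),
    (k1,(nat_lit 506))],[(k10,(nat_lit 440)),(k9,(nat_lit 464)),(k1,(nat_lit 479)),(k5,(nat_lit 497)),(k2,
    (nat_lit 512)),(k6,(nat_lit 515))],[(k8,(nat_lit 464)),(k0,(nat_lit 479)),(k11,(nat_lit 488)),(k4,(nat_lit 497)),
    (k7,(nat_lit 503)),(k3,(nat_lit 512))],[(k0,(nat_lit 464)),(k8,(nat_lit 479)),(k4,(nat_lit 482)),(k7,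
    (nat_lit 488)),(k3,(nat_lit 497)),(k11,(nat_lit 503))],[(k6,(nat_lit 476)),(k9,(nat_lit 479)),(k5,(nat_lit 482)),
    (k1,(nat_lit 494)),(k2,(nat_lit 497)),(k10,(nat_lit 509))],[(k1,(nat_lit 446)),(k10,(nat_lit 461)),(k6,
    (nat_lit 482)),(k9,(nat_lit 485)),(k5,(nat_lit 488)),(k2,(nat_lit 503))],[(k11,(nat_lit 443)),(k8,(nat_lit 473)),
    (k4,(nat_lit 476)),(k7,(nat_lit 482)),(k0,(nat_lit 488)),(k3,(nat_lit 515))],[(k0,(nat_lit 437)),(k3,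
    (nat_lit 464)),(k11,(nat_lit 470)),(k4,(nat_lit 479)),(k7,(nat_lit 485)),(k8,(nat_lit 500))],[(k1,(nat_lit 401)),
    (k2,(nat_lit 464)),(k10,(nat_lit 470)),(k6,(nat_lit 473)),(k5,(nat_lit 479)),(k9,(nat_lit 500))],[(k6,
    (nat_lit 443)),(k1,(nat_lit 467)),(k9,(nat_lit 470)),(k2,(nat_lit 488)),(k5,(nat_lit 503)),(k10,(nat_lit 536))],
    [(k3,(nat_lit 440)),(k7,(nat_lit 461)),(k0,(nat_lit 467)),(k8,(nat_lit 470)),(k4,(nat_lit 509)),(k11,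
    (nat_lit 536))]]
    [] k0
    [[k2,k0,k0,k0,k1,k0],[k1,k1,k0,k0,k1,k0],[k1,k1,k0,k0,k0,k1],[k1,k0,k1,k0,k1,k0],[k1,k0,k1,k1,k0,k0],[k1,k0,k0,k2,
    k0,k0],[k1,k0,k0,k1,k1,k0],[k1,k0,k0,k1,k0,k1],[k1,k0,k0,k0,k2,k0],[k1,k0,k0,k0,k1,k1],[k0,k1,k0,k0,k2,k0],[k0,k1,
    k0,k0,k1,k1],[k0,k1,k0,k1,k0,k1],[k0,k0,k0,k2,k0,k1],[k0,k0,k0,k1,k1,k1]]
    [.ref (nat_lit 255) k0 [(z1,[z1])],.ref (nat_lit 326) k2 [(z1,[z1])],.ref (nat_lit 327) k8 [(z1,[y1,z1])],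
    .ref (nat_lit 328) k0 [(z1,[z1])],.ref (nat_lit 326) k5 [(z1,[z1])],.ref (nat_lit 359) k5 [(z1,[z1])],
    .ref (nat_lit 326) k1 [(z1,[y1,z1])],.ref (nat_lit 326) k0 [(z1,[z1])],.ref (nat_lit 255) k6 [(z1,[z1])],
    .ref (nat_lit 327) k0 [(z1,[z1])],.ref (nat_lit 359) k8 [(z1,[z1])],.ref (nat_lit 326) k5 [(z1,[y1,z1])],
    .ref (nat_lit 328) k0 [(z1,[y1,z1])],.ref (nat_lit 255) k9 [(z1,[z1])],.ref (nat_lit 327) k7 [(z1,[z1])]]]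

/-- the nodes with numbers from 315 -/
noncomputable def cT6_2_n7 : List TN :=
  cT6_2_n7_0 ++ (cT6_2_n7_1 ++ (cT6_2_n7_2 ++ cT6_2_n7_3))

theorem cT6_2_k7 : allI (chkT 6 cT6_2_w tt6 cT6_2_s (blkF [] cT6_2_D)) cT6_2_n7 315 = true := by
  decide +kernel

end Pool.Agent.Lib_MP_fa6e45
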