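import Pool.Agent.Lib_MP_fa6e45.CGA
import Pool.Agent.Lib_MP_fa6e45.CG6_1_0
import Pool.Agent.Lib_MP_fa6e45.CG6_1_1
import Pool.Agent.Lib_MP_fa6e45.CG6_1_2
import Pool.Agent.Lib_MP_fa6e45.CG6_1_3
import Pool.Agent.Lib_MP_fa6e45.CG6_1_4
import Pool.Agent.Lib_MP_fa6e45.CG6_1_5
import Pool.Agent.Lib_MP_fa6e45.CG6_1_6
import Pool.Agent.Lib_MP_fa6e45.CG6_1_7

/-!
MP_fa6e45_co, stage 5: certificates (captain, generated by a program).
-/

namespace Pool.Agent.Lib_MP_fa6e45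

/-- the certificate -/
noncomputable def cT6_2 : CertT :=
  ⟨cT6_2_w, cT6_2_s, cT6_2_D,
    cT6_2_n0 ++ (cT6_2_n1 ++ (cT6_2_n2 ++ (cT6_2_n3 ++ (cT6_2_n4 ++ (cT6_2_n5 ++ (cT6_2_n6 ++ cT6_2_n7))))))⟩

theorem cT6_2_ok : chkC 6 tt6 cT6_2 = true := by
  refine chkC_of (by decide +kernel) (by decide +kernel) ?_
  refine allI_app (k := 59) cT6_2_k0 (by decide +kernel) ?_
  refine allI_app (k := 99) cT6_2_k1 (by decide +kernel) ?_
  refine allI_app (k := 142) cT6_2_k2 (by decide +kernel) ?_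
  refine allI_app (k := 182) cT6_2_k3 (by decide +kernel) ?_
  refine allI_app (k := 218) cT6_2_k4 (by decide +kernel) ?_
  refine allI_app (k := 259) cT6_2_k5 (by decide +kernel) ?_
  refine allI_app (k := 315) cT6_2_k6 (by decide +kernel) ?_
  exact cT6_2_k7

/-- the certificates of this file -/
noncomputable def lT6_1 : List CertT := [cT6_2]

theorem gT6_1 : allF (chkC 6 tt6) lT6_1 = true := by
  unfold lT6_1
  change (bif chkC 6 tt6 cT6_2 then true else false) = true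
  rw [cT6_2_ok]
  rfl

end Pool.Agent.Lib_MP_fa6e45
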