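import Pool.Agent.Lib_MP_fa6e45.CSTT
import Pool.Agent.Lib_MP_fa6e45.HK

/-!
MP_fa6e45_co, stage 5: certificates (captain, generated by a program).
-/

namespace Pool.Agent.Lib_MP_fa6e45

/-- classes `0 0 1 0 1 2`, types `S0 S0 C0 S0 C2 S0` -/
noncomputable def cT6_976 : CertT :=
  ⟨[k0,k0,k20,k0,k22,k32],[(false,k0,[k0,k1,k2,k3,k4,k5])],[[[([z1,z0,z0,z0,z1,z1],z2)],[([z1,z0,z0,z1,z0,z1],z2)],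
    []]],
    [.leafM k0 [k0,k1,k2,k3,k4,k5] [(z1,[y1,z1])] [],
    .leafM k3 [k2,k3,k4,k5,k0,k1] [(z1,[z1])] [],
    .lp [k8,k8,k6,k10,k6,k6] [k1,k1,k1,k1,k2,k2,k0,k0,k2,k2,k2,k2] k0 [] k24 k5
    [[(k10,k7),(k1,k8)],[(k5,k7),(k9,k7),(k0,k8),(k2,k8),(k3,k8),(k6,k9)],[(k5,k7),(k9,k7),(k0,k8),(k2,k8),(k3,k8),
    (k6,k9)],[(k5,k7),(k9,k7),(k0,k8),(k2,k8),(k3,k8),(k6,k9)],[(k5,k6),(k9,k6),(k0,k7),(k2,k7),(k3,k7),(k6,k8)],[(k8,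
    k6),(k7,k8)],[(k4,k8),(k11,k8)],[(k5,k8),(k9,k8),(k0,k9),(k2,k9),(k3,k9),(k6,k10)],[(k5,k6),(k9,k6),(k0,k7),(k2,
    k7),(k3,k7),(k6,k8)],[(k4,k6),(k11,k6)],[(k8,k6),(k7,k8)],[(k10,k6),(k1,k7)]]
    [] k0
    [[k1,k0,k0,k0,k1,k1],[k0,k1,k1,k0,k1,k0]]
    [.ref k0 k0 [(z1,[z1])],.ref k1 k0 [(z1,[y1,z1])]]]⟩

/-- classes `0 0 1 0 1 2`, types `S0 S0 N0 S0 N1 C0` -/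
noncomputable def cT6_977 : CertT :=
  ⟨[k0,k0,k28,k0,k29,k36],[],[[[]]],
    [.lp [k10,k12,k6,k6,k6,k6] [k1,k1,k0,k0,k3,k3,k3,k3,k3,k3,k3,k3] k0 [[],[k0,k0,k0,k2],[k2]] k24 k5
    [[(k10,k8)],[(k6,k8),(k9,k8),(k0,k10),(k5,k10),(k2,k11),(k3,k11)],[(k5,k9),(k6,k9),(k9,k9),(k2,k10),(k0,k11),(k3,
    k12)],[(k5,k9),(k6,k9),(k9,k9),(k3,k10),(k0,k11),(k2,k12)],[(k5,k6),(k6,k6),(k9,k6),(k2,k9),(k3,k9),(k0,k10)],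
    [(k11,k6)],[(k8,k6)],[(k5,k6),(k6,k6),(k9,k6),(k0,k8),(k2,k9),(k3,k9)],[(k5,k6),(k6,k6),(k9,k6),(k0,k8),(k2,k9),
    (k3,k9)],[(k7,k6)],[(k4,k6)],[(k1,k8)]]
    [] k0
    []
    []]⟩

/-- classes `0 0 1 0 1 2`, types `S0 S0 N0 S0 N1 S0` -/
noncomputable def cT6_978 : CertT :=
  ⟨[k0,k0,k28,k0,k29,k32],[],[[[]]],
    [.lp [k10,k12,k6,k6,k6,k6] [k1,k1,k0,k0,k3,k3,k3,k3,k3,k3,k3,k3] k0 [[],[k0,k0,k0,k2],[k2]] k24 k5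
    [[(k10,k8),(k1,k10)],[(k6,k8),(k9,k8),(k0,k10),(k5,k10),(k2,k11),(k3,k11)],[(k5,k9),(k6,k9),(k9,k9),(k2,k10),(k0,
    k11),(k3,k12)],[(k5,k9),(k6,k9),(k9,k9),(k3,k10),(k0,k11),(k2,k12)],[(k5,k6),(k6,k6),(k9,k6),(k2,k9),(k3,k9),(k0,
    k10)],[(k11,k6)],[(k8,k6)],[(k5,k6),(k6,k6),(k9,k6),(k0,k8),(k2,k9),(k3,k9)],[(k5,k6),(k6,k6),(k9,k6),(k0,k8),(k2,
    k9),(k3,k9)],[(k7,k6)],[(k4,k6)],[(k10,k6),(k1,k8)]]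
    [] k0
    []
    []]⟩

/-- classes `0 0 1 0 1 2`, types `S0 S0 N0 S0 N2 C0` -/
noncomputable def cT6_979 : CertT :=
  ⟨[k0,k0,k28,k0,k30,k36],[(false,k0,[k0,k1,k2,k3,k4,k5])],[[[([z1,z0,z0,z1,z0,z1],z2)],[]]],
    [.leafM k3 [k2,k3,k4,k5,k0,k1] [(z1,[z1])] [],
    .lp [k12,k8,k6,k12,k6,k0] [k0,k0,k2,k2,k3,k3,k0,k0,k3,k3,k6,k6] k0 [] k24 k5
    [[(k10,k6)],[(k5,k9),(k9,k9),(k2,k10),(k3,k10),(k0,k12),(k6,k12)],[(k5,k7),(k9,k7),(k2,k8),(k3,k8),(k0,k10),(k6,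
    k10)],[(k5,k7),(k9,k7),(k2,k8),(k3,k8),(k0,k10),(k6,k10)],[(k5,k6),(k9,k6),(k2,k7),(k3,k7),(k0,k9),(k6,k9)],[(k8,
    k6)],[(k11,k6)],[(k5,k9),(k9,k9),(k2,k10),(k3,k10),(k0,k12),(k6,k12)],[(k5,k6),(k9,k6),(k2,k7),(k3,k7),(k0,k9),
    (k6,k9)],[(k4,k6)],[(k7,k6)],[(k1,k6)]]
    [] k0
    [[k0,k1,k1,k0,k1,k0]]
    [.ref k0 k0 [(z1,[y1,z1])]]]⟩

/-- classes `0 0 1 0 1 2`, types `S0 S0 N0 S0 N2 S0` -/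
noncomputable def cT6_980 : CertT :=
  ⟨[k0,k0,k28,k0,k30,k32],[(false,k0,[k0,k1,k2,k3,k4,k5])],[[[([z1,z0,z0,z1,z0,z1],z2)],[]]],
    [.leafM k3 [k2,k3,k4,k5,k0,k1] [(z1,[z1])] [],
    .lp [k2,k4,k2,k2,k2,k2] [k1,k1,k0,k0,k1,k1,k1,k1,k1,k1,k1,k1] k0 [] k8 k5
    [[(k1,k2),(k10,k2)],[(k0,k2),(k5,k2),(k6,k2),(k9,k2),(k2,k3),(k3,k3)],[(k0,k3),(k5,k3),(k6,k3),(k9,k3),(k2,k4),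
    (k3,k4)],[(k0,k3),(k5,k3),(k6,k3),(k9,k3),(k2,k4),(k3,k4)],[(k0,k2),(k5,k2),(k6,k2),(k9,k2),(k2,k3),(k3,k3)],[(k8,
    k2)],[(k11,k2)],[(k0,k2),(k5,k2),(k6,k2),(k9,k2),(k2,k3),(k3,k3)],[(k0,k2),(k5,k2),(k6,k2),(k9,k2),(k2,k3),(k3,
    k3)],[(k4,k2)],[(k7,k2)],[(k1,k2),(k10,k2)]]
    [] k0
    [[k1,k0,k0,k1,k0,k1]]
    [.ref k0 k0 [(z1,[z1])]]]⟩

/-- classes `0 0 1 0 1 2`, types `S0 S0 S0 S0 S0 C0` -/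
noncomputable def cT6_981 : CertT :=
  ⟨[k0,k0,k16,k0,k16,k36],[(false,k0,[k0,k1,k2,k3,k4,k5])],[[[([z1,z0,z0,z1,z0,z1],z2)],[([z1,z0,z0,z0,z1,z1],z2)],
    []]],
    [.leafM k3 [k2,k3,k4,k5,k0,k1] [(z1,[z1])] [],
    .leafM k0 [k0,k1,k2,k3,k4,k5] [(z1,[y1,z1])] [],
    .lp [k10,k12,k6,k6,k6,k6] [k1,k1,k0,k0,k3,k3,k3,k3,k3,k3,k3,k3] k0 [[],[k0,k0,k0,k2],[k2]] k24 k5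
    [[(k10,k8)],[(k6,k8),(k9,k8),(k0,k10),(k5,k10),(k2,k11),(k3,k11)],[(k5,k9),(k6,k9),(k9,k9),(k2,k10),(k0,k11),(k3,
    k12)],[(k5,k9),(k6,k9),(k9,k9),(k3,k10),(k0,k11),(k2,k12)],[(k5,k6),(k6,k6),(k9,k6),(k2,k9),(k3,k9),(k0,k10)],
    [(k4,k6),(k7,k6),(k8,k6),(k11,k6)],[(k4,k6),(k7,k6),(k8,k6),(k11,k6)],[(k5,k6),(k6,k6),(k9,k6),(k0,k8),(k2,k9),
    (k3,k9)],[(k5,k6),(k6,k6),(k9,k6),(k0,k8),(k2,k9),(k3,k9)],[(k4,k6),(k7,k6),(k8,k6),(k11,k6)],[(k4,k6),(k7,k6),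
    (k8,k6),(k11,k6)],[(k1,k8)]]
    [] k0
    [[k1,k0,k0,k1,k0,k1],[k1,k0,k0,k0,k1,k1]]
    [.ref k0 k0 [(z1,[z1])],.ref k1 k0 [(z1,[z1])]]]⟩

/-- classes `0 0 1 0 2 1`, types `C0 C0 B0 C0 C0 B1` -/
noncomputable def cT6_982 : CertT :=
  ⟨[k4,k4,k24,k4,k36,k25],[(false,k0,[k0,k1,k2,k3,k4,k5])],[[[([z1,z1,z1,z0,z0,z0],z2)],[]]],
    [.leafM k0 [k2,k3,k4,k5,k0,k1] [(z1,[y1,z1])] [],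
    .lp [k2,k4,k2,k2,k2,k2] [k1,k1,k0,k0,k1,k1,k1,k1,k1,k1,k1,k1] k0 [] k8 k5
    [[(k4,k2),(k7,k2)],[(k5,k2),(k9,k2),(k3,k3)],[(k0,k3),(k6,k3),(k2,k4)],[(k5,k3),(k9,k3),(k3,k4)],[(k0,k2),(k6,k2),
    (k2,k3)],[(k1,k2),(k10,k2)],[(k1,k2),(k10,k2)],[(k5,k2),(k9,k2),(k3,k3)],[(k0,k2),(k6,k2),(k2,k3)],[(k11,k2)],
    [(k8,k2)],[(k4,k2),(k7,k2)]]
    [] k0
    [[k0,k0,k0,k1,k1,k1]]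
    [.ref k0 k0 [(z1,[y1,z1])]]]⟩

/-- classes `0 0 1 0 2 1`, types `C0 C0 B0 C0 S0 B1` -/
noncomputable def cT6_983 : CertT :=
  ⟨[k4,k4,k24,k4,k32,k25],[(false,k0,[k0,k1,k2,k3,k4,k5])],[[[([z1,z1,z1,z0,z0,z0],z2)],[]]],
    [.leafM k0 [k2,k3,k4,k5,k0,k1] [(z1,[y1,z1])] [],
    .lp [k8,k8,k4,k8,k6,k10] [k1,k1,k1,k1,k3,k3,k1,k1,k2,k2,k0,k0] k0 [] k24 k5
    [[(k4,k6),(k7,k8)],[(k5,k6),(k9,k7),(k3,k8)],[(k0,k8),(k2,k8),(k6,k8)],[(k5,k6),(k9,k7),(k3,k8)],[(k0,k6),(k2,k6),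
    (k6,k6)],[(k1,k6),(k10,k7)],[(k1,k8),(k10,k9)],[(k5,k6),(k9,k7),(k3,k8)],[(k0,k7),(k2,k7),(k6,k7)],[(k8,k6),(k11,
    k8)],[(k8,k8),(k11,k10)],[(k4,k7),(k7,k9)]]
    [] k0
    [[k1,k1,k1,k0,k0,k0]]
    [.ref k0 k0 [(z1,[z1])]]]⟩

/-- classes `0 0 1 0 2 1`, types `C0 C0 B0 C2 C0 B1` -/
noncomputable def cT6_984 : CertT :=
  ⟨[k4,k4,k24,k6,k36,k25],[(false,k0,[k0,k1,k2,k3,k4,k5])],[[[([z1,z1,z0,z1,z0,z0],z2)],[([z1,z1,z1,z0,z0,z0],z2)],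
    []]],
    [.leafM k3 [k1,k2,k3,k4,k5,k0] [(z1,[y1,z1])] [],
    .leafM k0 [k2,k3,k4,k5,k0,k1] [(z1,[y1,z1])] [],
    .lp [k2,k4,k6,k4,k2,k4] [k2,k2,k1,k1,k0,k0,k1,k1,k2,k2,k1,k1] k0 [] k12 k5
    [[(k7,k3),(k4,k4)],[(k3,k3),(k6,k3),(k5,k4)],[(k0,k3),(k9,k3),(k2,k4)],[(k3,k4),(k6,k4),(k5,k5)],[(k0,k4),(k9,k4),
    (k2,k5)],[(k1,k4),(k10,k5)],[(k1,k3),(k10,k4)],[(k0,k3),(k9,k3),(k2,k4)],[(k3,k3),(k6,k3),(k5,k4)],[(k11,k3)],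
    [(k8,k3)],[(k7,k4),(k4,k5)]]
    [] k0
    [[k1,k1,k0,k1,k0,k0],[k0,k0,k0,k1,k1,k1]]
    [.ref k0 k0 [(z1,[z1])],.ref k1 k0 [(z1,[y1,z1])]]]⟩

/-- classes `0 0 1 0 2 1`, types `C0 C0 B0 C2 S0 B1` -/
noncomputable def cT6_985 : CertT :=
  ⟨[k4,k4,k24,k6,k32,k25],[(false,k0,[k0,k1,k2,k3,k4,k5])],[[[([z1,z1,z1,z0,z0,z0],z2)],[([z1,z1,z0,z1,z0,z0],z2)],
    []]],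
    [.leafM k0 [k2,k3,k4,k5,k0,k1] [(z1,[y1,z1])] [],
    .leafM k3 [k1,k2,k3,k4,k5,k0] [(z1,[y1,z1])] [],
    .lp [k4,k4,k2,k2,k4,k6] [k1,k1,k1,k1,k2,k2,k2,k2,k1,k1,k0,k0] k0 [] k12 k5
    [[(k4,k3),(k7,k3)],[(k5,k3),(k6,k3),(k3,k4)],[(k0,k4),(k2,k4),(k9,k4)],[(k5,k3),(k6,k3),(k3,k4)],[(k0,k3),(k2,k3),
    (k9,k3)],[(k1,k3),(k10,k4)],[(k1,k3),(k10,k4)],[(k0,k3),(k2,k3),(k9,k3)],[(k5,k3),(k6,k3),(k3,k4)],[(k8,k4),(k11,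
    k5)],[(k8,k5),(k11,k6)],[(k4,k4),(k7,k4)]]
    [] k0
    [[k1,k1,k1,k0,k0,k0],[k1,k1,k0,k1,k0,k0]]
    [.ref k0 k0 [(z1,[z1])],.ref k1 k0 [(z1,[z1])]]]⟩

/-- classes `0 0 1 0 2 1`, types `C0 C0 C0 C0 C0 C0` -/
noncomputable def cT6_986 : CertT :=
  ⟨[k4,k4,k20,k4,k36,k20],[(false,k0,[k0,k1,k2,k3,k4,k5])],[[[([z1,z0,z0,z0,z1,z1],z2)],[([z1,z1,z1,z0,z0,z0],z2)],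
    []]],
    [.leafM k0 [k0,k1,k2,k3,k4,k5] [(z1,[y1,z1])] [],
    .leafM k0 [k2,k3,k4,k5,k0,k1] [(z1,[y1,z1])] [],
    .lp [k6,k8,k10,k6,k6,k6] [k2,k2,k1,k1,k0,k0,k2,k2,k2,k2,k2,k2] k0 [] k24 k5
    [[(k10,k6),(k4,k8)],[(k9,k6),(k3,k7),(k5,k8)],[(k0,k7),(k6,k7),(k2,k8)],[(k9,k7),(k3,k8),(k5,k9)],[(k0,k8),(k6,
    k8),(k2,k9)],[(k1,k8),(k7,k8)],[(k10,k6),(k4,k8)],[(k9,k6),(k3,k7),(k5,k8)],[(k0,k6),(k6,k6),(k2,k7)],[(k11,k6)],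
    [(k8,k6)],[(k1,k6),(k7,k6)]]
    [] k0
    [[k1,k0,k0,k0,k1,k1],[k0,k0,k0,k1,k1,k1]]
    [.ref k0 k0 [(z1,[z1])],.ref k1 k0 [(z1,[y1,z1])]]]⟩

/-- classes `0 0 1 0 2 1`, types `C0 C0 C0 C0 C0 C2` -/
noncomputable def cT6_987 : CertT :=
  ⟨[k4,k4,k20,k4,k36,k22],[(false,k0,[k0,k1,k2,k3,k4,k5])],[[[([z1,z0,z0,z0,z1,z1],z2)],[]]],
    [.leafM k0 [k0,k1,k2,k3,k4,k5] [(z1,[y1,z1])] [],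
    .lp [k6,k8,k6,k10,k6,k6] [k2,k2,k1,k1,k2,k2,k0,k0,k2,k2,k2,k2] k0 [] k24 k5
    [[(k10,k6),(k7,k8)],[(k5,k6),(k9,k6),(k3,k7)],[(k0,k7),(k2,k8),(k6,k9)],[(k5,k7),(k9,k7),(k3,k8)],[(k0,k6),(k2,
    k7),(k6,k8)],[(k10,k6),(k7,k8)],[(k1,k8),(k4,k8)],[(k5,k8),(k9,k8),(k3,k9)],[(k0,k6),(k2,k7),(k6,k8)],[(k11,k6)],
    [(k8,k6)],[(k1,k6),(k4,k6)]]
    [] k0
    [[k1,k0,k0,k0,k1,k1]]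
    [.ref k0 k0 [(z1,[z1])]]]⟩

/-- classes `0 0 1 0 2 1`, types `C0 C0 C0 C0 S0 C0` -/
noncomputable def cT6_988 : CertT :=
  ⟨[k4,k4,k20,k4,k32,k20],[(false,k0,[k0,k1,k2,k3,k4,k5])],[[[([z1,z0,z0,z0,z1,z1],z2)],[([z1,z1,z1,z0,z0,z0],z2)],
    []]],
    [.leafM k0 [k0,k1,k2,k3,k4,k5] [(z1,[y1,z1])] [],
    .leafM k0 [k2,k3,k4,k5,k0,k1] [(z1,[y1,z1])] [],
    .lp [k10,k8,k6,k6,k6,k8] [k0,k0,k1,k1,k2,k2,k2,k2,k2,k2,k1,k1] k0 [] k24 k5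
    [[(k4,k8),(k10,k9)],[(k5,k8),(k9,k8),(k3,k9)],[(k6,k7),(k2,k8),(k0,k9)],[(k5,k7),(k9,k7),(k3,k8)],[(k6,k6),(k2,
    k7),(k0,k8)],[(k7,k6),(k1,k8)],[(k4,k6),(k10,k7)],[(k5,k6),(k9,k6),(k3,k7)],[(k6,k6),(k2,k7),(k0,k8)],[(k8,k6),
    (k11,k7)],[(k8,k7),(k11,k8)],[(k7,k7),(k1,k9)]]
    [] k0
    [[k0,k1,k1,k1,k0,k0],[k0,k0,k0,k1,k1,k1]]
    [.ref k0 k0 [(z1,[y1,z1])],.ref k1 k0 [(z1,[y1,z1])]]]⟩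

/-- classes `0 0 1 0 2 1`, types `C0 C0 C0 C0 S0 C2` -/
noncomputable def cT6_989 : CertT :=
  ⟨[k4,k4,k20,k4,k32,k22],[(false,k0,[k0,k1,k2,k3,k4,k5])],[[[([z1,z0,z0,z0,z1,z1],z2)],[]]],
    [.leafM k0 [k0,k1,k2,k3,k4,k5] [(z1,[y1,z1])] [],
    .lp [k2,k4,k2,k2,k2,k2] [k1,k1,k0,k0,k1,k1,k1,k1,k1,k1,k1,k1] k0 [] k8 k5
    [[(k7,k2),(k10,k2)],[(k5,k2),(k9,k2),(k3,k3)],[(k0,k3),(k6,k3),(k2,k4)],[(k5,k3),(k9,k3),(k3,k4)],[(k0,k2),(k6,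
    k2),(k2,k3)],[(k7,k2),(k10,k2)],[(k1,k2),(k4,k2)],[(k5,k2),(k9,k2),(k3,k3)],[(k0,k2),(k6,k2),(k2,k3)],[(k8,k2),
    (k11,k2)],[(k8,k2),(k11,k2)],[(k1,k2),(k4,k2)]]
    [] k0
    [[k1,k0,k0,k0,k1,k1]]
    [.ref k0 k0 [(z1,[z1])]]]⟩

/-- classes `0 0 1 0 2 1`, types `C0 C0 C0 C2 C0 C0` -/
noncomputable def cT6_990 : CertT :=
  ⟨[k4,k4,k20,k6,k36,k20],[(false,k0,[k0,k1,k2,k3,k4,k5])],[[[([z1,z1,z1,z0,z0,z0],z2)],[]]],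
    [.leafM k0 [k2,k3,k4,k5,k0,k1] [(z1,[y1,z1])] [],
    .lp [k6,k8,k10,k6,k6,k6] [k2,k2,k1,k1,k0,k0,k2,k2,k2,k2,k2,k2] k0 [] k24 k5
    [[(k10,k6),(k4,k8)],[(k6,k6),(k3,k7),(k5,k8)],[(k0,k7),(k9,k7),(k2,k8)],[(k6,k7),(k3,k8),(k5,k9)],[(k0,k8),(k9,
    k8),(k2,k9)],[(k1,k8),(k7,k8)],[(k10,k6),(k4,k8)],[(k0,k6),(k9,k6),(k2,k7)],[(k6,k6),(k3,k7),(k5,k8)],[(k11,k6)],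
    [(k8,k6)],[(k1,k6),(k7,k6)]]
    [] k0
    [[k0,k0,k0,k1,k1,k1]]
    [.ref k0 k0 [(z1,[y1,z1])]]]⟩

/-- classes `0 0 1 0 2 1`, types `C0 C0 C0 C2 C0 C2` -/
noncomputable def cT6_991 : CertT :=
  ⟨[k4,k4,k20,k6,k36,k22],[(false,k0,[k0,k1,k2,k3,k4,k5])],[[[([z1,z1,z0,z1,z0,z0],z2)],[]]],
    [.leafM k3 [k1,k2,k3,k4,k5,k0] [(z1,[y1,z1])] [],
    .lp [k6,k8,k6,k10,k6,k6] [k2,k2,k1,k1,k2,k2,k0,k0,k2,k2,k2,k2] k0 [] k24 k5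
    [[(k10,k6),(k7,k8)],[(k5,k6),(k3,k7),(k6,k8)],[(k0,k7),(k9,k7),(k2,k8)],[(k5,k7),(k3,k8),(k6,k9)],[(k0,k6),(k9,
    k6),(k2,k7)],[(k10,k6),(k7,k8)],[(k1,k8),(k4,k8)],[(k0,k8),(k9,k8),(k2,k9)],[(k5,k6),(k3,k7),(k6,k8)],[(k11,k6)],
    [(k8,k6)],[(k1,k6),(k4,k6)]]
    [] k0
    [[k0,k0,k1,k0,k1,k1]]
    [.ref k0 k0 [(z1,[y1,z1])]]]⟩

/-- classes `0 0 1 0 2 1`, types `C0 C0 C0 C2 S0 C0` -/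
noncomputable def cT6_992 : CertT :=
  ⟨[k4,k4,k20,k6,k32,k20],[(false,k0,[k0,k1,k2,k3,k4,k5])],[[[([z1,z1,z1,z0,z0,z0],z2)],[]]],
    [.leafM k0 [k2,k3,k4,k5,k0,k1] [(z1,[y1,z1])] [],
    .lp [k6,k8,k6,k6,k6,k12] [k3,k3,k2,k2,k3,k3,k3,k3,k3,k3,k0,k0] k0 [] k24 k5
    [[(k4,k6),(k10,k9)],[(k5,k6),(k6,k6),(k3,k7)],[(k0,k7),(k9,k7),(k2,k8)],[(k5,k7),(k6,k7),(k3,k8)],[(k0,k6),(k9,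
    k6),(k2,k7)],[(k1,k6),(k7,k6)],[(k4,k6),(k10,k9)],[(k0,k6),(k9,k6),(k2,k7)],[(k5,k6),(k6,k6),(k3,k7)],[(k8,k6),
    (k11,k9)],[(k8,k9),(k11,k12)],[(k1,k9),(k7,k9)]]
    [] k0
    [[k1,k1,k1,k0,k0,k0]]
    [.ref k0 k0 [(z1,[z1])]]]⟩

/-- classes `0 0 1 0 2 1`, types `C0 C0 C0 C2 S0 C2` -/
noncomputable def cT6_993 : CertT :=
  ⟨[k4,k4,k20,k6,k32,k22],[(false,k0,[k0,k1,k2,k3,k4,k5])],[[[([z1,z1,z0,z1,z0,z0],z2)],[]]],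
    [.leafM k3 [k1,k2,k3,k4,k5,k0] [(z1,[y1,z1])] [],
    .lp [k6,k8,k6,k6,k6,k12] [k3,k3,k2,k2,k3,k3,k3,k3,k3,k3,k0,k0] k0 [] k24 k5
    [[(k7,k6),(k10,k9)],[(k5,k6),(k6,k6),(k3,k7)],[(k0,k7),(k9,k7),(k2,k8)],[(k5,k7),(k6,k7),(k3,k8)],[(k0,k6),(k9,
    k6),(k2,k7)],[(k7,k6),(k10,k9)],[(k1,k6),(k4,k6)],[(k0,k6),(k9,k6),(k2,k7)],[(k5,k6),(k6,k6),(k3,k7)],[(k8,k6),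
    (k11,k9)],[(k8,k9),(k11,k12)],[(k1,k9),(k4,k9)]]
    [] k0
    [[k1,k1,k0,k1,k0,k0]]
    [.ref k0 k0 [(z1,[z1])]]]⟩

/-- classes `0 0 1 0 2 1`, types `C0 C0 N0 C0 C0 N1` -/
noncomputable def cT6_994 : CertT :=
  ⟨[k4,k4,k28,k4,k36,k29],[(false,k0,[k0,k1,k2,k3,k4,k5])],[[[([z1,z1,z1,z0,z0,z0],z2)],[]]],
    [.leafM k0 [k2,k3,k4,k5,k0,k1] [(z1,[y1,z1])] [],
    .lp [k2,k4,k4,k6,k6,k0] [k2,k2,k1,k1,k1,k1,k0,k0,k0,k0,k3,k3] k0 [] k12 k5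
    [[(k4,k3)],[(k3,k3),(k5,k3),(k9,k4)],[(k0,k3),(k2,k4),(k6,k5)],[(k3,k4),(k5,k4),(k9,k5)],[(k0,k3),(k2,k4),(k6,
    k5)],[(k1,k3)],[(k10,k3)],[(k3,k5),(k5,k5),(k9,k6)],[(k0,k4),(k2,k5),(k6,k6)],[(k11,k3)],[(k8,k3)],[(k7,k3)]]
    [] k0
    [[k1,k1,k1,k0,k0,k0]]
    [.ref k0 k0 [(z1,[z1])]]]⟩

/-- classes `0 0 1 0 2 1`, types `C0 C0 N0 C0 C0 N2` -/
noncomputable def cT6_995 : CertT :=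
  ⟨[k4,k4,k28,k4,k36,k30],[],[[[]]],
    [.lp [k6,k8,k6,k6,k6,k6] [k1,k1,k0,k0,k1,k1,k1,k1,k1,k1,k1,k1] k0 [] k24 k5
    [[(k7,k6)],[(k5,k6),(k9,k6),(k3,k7)],[(k0,k7),(k6,k7),(k2,k8)],[(k5,k7),(k9,k7),(k3,k8)],[(k0,k6),(k6,k6),(k2,
    k7)],[(k10,k6)],[(k1,k6)],[(k5,k6),(k9,k6),(k3,k7)],[(k0,k6),(k6,k6),(k2,k7)],[(k11,k6)],[(k8,k6)],[(k4,k6)]]
    [] k0
    []
    []]⟩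

/-- classes `0 0 1 0 2 1`, types `C0 C0 N0 C0 S0 N1` -/
noncomputable def cT6_996 : CertT :=
  ⟨[k4,k4,k28,k4,k32,k29],[(false,k0,[k0,k1,k2,k3,k4,k5])],[[[([z1,z1,z1,z0,z0,z0],z2)],[]]],
    [.leafM k0 [k2,k3,k4,k5,k0,k1] [(z1,[y1,z1])] [],
    .lp [k2,k4,k2,k2,k2,k2] [k1,k1,k0,k0,k1,k1,k1,k1,k1,k1,k1,k1] k0 [] k8 k5
    [[(k4,k2)],[(k5,k2),(k9,k2),(k3,k3)],[(k0,k3),(k6,k3),(k2,k4)],[(k5,k3),(k9,k3),(k3,k4)],[(k0,k2),(k6,k2),(k2,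
    k3)],[(k1,k2)],[(k10,k2)],[(k5,k2),(k9,k2),(k3,k3)],[(k0,k2),(k6,k2),(k2,k3)],[(k8,k2),(k11,k2)],[(k8,k2),(k11,
    k2)],[(k7,k2)]]
    [] k0
    [[k0,k0,k0,k1,k1,k1]]
    [.ref k0 k0 [(z1,[y1,z1])]]]⟩

/-- classes `0 0 1 0 2 1`, types `C0 C0 N0 C0 S0 N2` -/
noncomputable def cT6_997 : CertT :=
  ⟨[k4,k4,k28,k4,k32,k30],[],[[[]]],
    [.lp [k6,k8,k6,k6,k6,k6] [k1,k1,k0,k0,k1,k1,k1,k1,k1,k1,k1,k1] k0 [] k24 k5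
    [[(k7,k6)],[(k5,k6),(k9,k6),(k3,k7)],[(k0,k7),(k6,k7),(k2,k8)],[(k5,k7),(k9,k7),(k3,k8)],[(k0,k6),(k6,k6),(k2,
    k7)],[(k10,k6)],[(k1,k6)],[(k5,k6),(k9,k6),(k3,k7)],[(k0,k6),(k6,k6),(k2,k7)],[(k8,k6),(k11,k6)],[(k8,k6),(k11,
    k6)],[(k4,k6)]]
    [] k0
    []
    []]⟩

/-- classes `0 0 1 0 2 1`, types `C0 C0 N0 C2 C0 N1` -/
noncomputable def cT6_998 : CertT :=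
  ⟨[k4,k4,k28,k6,k36,k29],[(false,k0,[k0,k1,k2,k3,k4,k5])],[[[([z1,z1,z1,z0,z0,z0],z2)],[]]],
    [.leafM k0 [k2,k3,k4,k5,k0,k1] [(z1,[y1,z1])] [],
    .lp [k6,k8,k10,k6,k6,k6] [k2,k2,k1,k1,k0,k0,k2,k2,k2,k2,k2,k2] k0 [] k24 k5
    [[(k4,k8)],[(k6,k6),(k3,k7),(k5,k8)],[(k0,k7),(k9,k7),(k2,k8)],[(k6,k7),(k3,k8),(k5,k9)],[(k0,k8),(k9,k8),(k2,
    k9)],[(k1,k8)],[(k10,k6)],[(k0,k6),(k9,k6),(k2,k7)],[(k6,k6),(k3,k7),(k5,k8)],[(k11,k6)],[(k8,k6)],[(k7,k6)]]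
    [] k0
    [[k0,k0,k0,k1,k1,k1]]
    [.ref k0 k0 [(z1,[y1,z1])]]]⟩

/-- classes `0 0 1 0 2 1`, types `C0 C0 N0 C2 C0 N2` -/
noncomputable def cT6_999 : CertT :=
  ⟨[k4,k4,k28,k6,k36,k30],[(false,k0,[k0,k1,k2,k3,k4,k5])],[[[([z1,z1,z0,z1,z0,z0],z2)],[]]],
    [.leafM k3 [k1,k2,k3,k4,k5,k0] [(z1,[y1,z1])] [],
    .lp [k6,k8,k6,k10,k6,k6] [k2,k2,k1,k1,k2,k2,k0,k0,k2,k2,k2,k2] k0 [] k24 k5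
    [[(k7,k8)],[(k5,k6),(k3,k7),(k6,k8)],[(k0,k7),(k9,k7),(k2,k8)],[(k5,k7),(k3,k8),(k6,k9)],[(k0,k6),(k9,k6),(k2,
    k7)],[(k10,k6)],[(k1,k8)],[(k0,k8),(k9,k8),(k2,k9)],[(k5,k6),(k3,k7),(k6,k8)],[(k11,k6)],[(k8,k6)],[(k4,k6)]]
    [] k0
    [[k0,k0,k1,k0,k1,k1]]
    [.ref k0 k0 [(z1,[y1,z1])]]]⟩

/-- classes `0 0 1 0 2 1`, types `C0 C0 N0 C2 S0 N1` -/
noncomputable def cT6_1000 : CertT :=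
  ⟨[k4,k4,k28,k6,k32,k29],[(false,k0,[k0,k1,k2,k3,k4,k5])],[[[([z1,z1,z1,z0,z0,z0],z2)],[]]],
    [.leafM k0 [k2,k3,k4,k5,k0,k1] [(z1,[y1,z1])] [],
    .lp [k6,k8,k6,k6,k6,k12] [k3,k3,k2,k2,k3,k3,k3,k3,k3,k3,k0,k0] k0 [] k24 k5
    [[(k4,k6)],[(k5,k6),(k6,k6),(k3,k7)],[(k0,k7),(k9,k7),(k2,k8)],[(k5,k7),(k6,k7),(k3,k8)],[(k0,k6),(k9,k6),(k2,
    k7)],[(k1,k6)],[(k10,k9)],[(k0,k6),(k9,k6),(k2,k7)],[(k5,k6),(k6,k6),(k3,k7)],[(k8,k6),(k11,k9)],[(k8,k9),(k11,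
    k12)],[(k7,k9)]]
    [] k0
    [[k1,k1,k1,k0,k0,k0]]
    [.ref k0 k0 [(z1,[z1])]]]⟩

/-- classes `0 0 1 0 2 1`, types `C0 C0 N0 C2 S0 N2` -/
noncomputable def cT6_1001 : CertT :=
  ⟨[k4,k4,k28,k6,k32,k30],[(false,k0,[k0,k1,k2,k3,k4,k5])],[[[([z1,z1,z0,z1,z0,z0],z2)],[]]],
    [.leafM k3 [k1,k2,k3,k4,k5,k0] [(z1,[y1,z1])] [],
    .lp [k6,k8,k6,k6,k6,k12] [k3,k3,k2,k2,k3,k3,k3,k3,k3,k3,k0,k0] k0 [] k24 k5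
    [[(k7,k6)],[(k5,k6),(k6,k6),(k3,k7)],[(k0,k7),(k9,k7),(k2,k8)],[(k5,k7),(k6,k7),(k3,k8)],[(k0,k6),(k9,k6),(k2,
    k7)],[(k10,k9)],[(k1,k6)],[(k0,k6),(k9,k6),(k2,k7)],[(k5,k6),(k6,k6),(k3,k7)],[(k8,k6),(k11,k9)],[(k8,k9),(k11,
    k12)],[(k4,k9)]]
    [] k0
    [[k1,k1,k0,k1,k0,k0]]
    [.ref k0 k0 [(z1,[z1])]]]⟩

/-- classes `0 0 1 0 2 1`, types `C0 C0 S0 C0 C0 S0` -/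
noncomputable def cT6_1002 : CertT :=
  ⟨[k4,k4,k16,k4,k36,k16],[(false,k0,[k0,k1,k2,k3,k4,k5])],[[[([z1,z0,z0,z0,z1,z1],z2)],[([z1,z1,z1,z0,z0,z0],z2)],
    []]],
    [.leafM k0 [k0,k1,k2,k3,k4,k5] [(z1,[y1,z1])] [],
    .leafM k0 [k2,k3,k4,k5,k0,k1] [(z1,[y1,z1])] [],
    .lp [k2,k4,k2,k2,k2,k2] [k1,k1,k0,k0,k1,k1,k1,k1,k1,k1,k1,k1] k0 [] k8 k5
    [[(k1,k2),(k4,k2),(k7,k2),(k10,k2)],[(k5,k2),(k9,k2),(k3,k3)],[(k0,k3),(k6,k3),(k2,k4)],[(k5,k3),(k9,k3),(k3,k4)],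
    [(k0,k2),(k6,k2),(k2,k3)],[(k1,k2),(k4,k2),(k7,k2),(k10,k2)],[(k1,k2),(k4,k2),(k7,k2),(k10,k2)],[(k5,k2),(k9,k2),
    (k3,k3)],[(k0,k2),(k6,k2),(k2,k3)],[(k11,k2)],[(k8,k2)],[(k1,k2),(k4,k2),(k7,k2),(k10,k2)]]
    [] k0
    [[k1,k0,k0,k0,k1,k1],[k0,k0,k0,k1,k1,k1]]
    [.ref k0 k0 [(z1,[z1])],.ref k1 k0 [(z1,[y1,z1])]]]⟩

/-- classes `0 0 1 0 2 1`, types `C0 C0 S0 C0 S0 S0` -/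
noncomputable def cT6_1003 : CertT :=
  ⟨[k4,k4,k16,k4,k32,k16],[(false,k0,[k0,k1,k2,k3,k4,k5])],[[[([z1,z1,z1,z0,z0,z0],z2)],[([z1,z0,z0,z0,z1,z1],z2)],
    []]],
    [.leafM k0 [k2,k3,k4,k5,k0,k1] [(z1,[y1,z1])] [],
    .leafM k0 [k0,k1,k2,k3,k4,k5] [(z1,[y1,z1])] [],
    .lp [k6,k8,k6,k10,k6,k8] [k2,k2,k1,k1,k2,k2,k0,k0,k2,k2,k1,k1] k0 [] k24 k5
    [[(k1,k6),(k4,k6),(k10,k7),(k7,k8)],[(k5,k6),(k9,k6),(k3,k7)],[(k0,k7),(k2,k8),(k6,k9)],[(k5,k7),(k9,k7),(k3,k8)],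
    [(k0,k6),(k2,k7),(k6,k8)],[(k1,k6),(k4,k6),(k10,k7),(k7,k8)],[(k1,k8),(k4,k8),(k10,k9),(k7,k10)],[(k5,k8),(k9,k8),
    (k3,k9)],[(k0,k6),(k2,k7),(k6,k8)],[(k8,k6),(k11,k7)],[(k8,k7),(k11,k8)],[(k1,k7),(k4,k7),(k10,k8),(k7,k9)]]
    [] k0
    [[k1,k1,k1,k0,k0,k0],[k1,k0,k0,k0,k1,k1]]
    [.ref k0 k0 [(z1,[z1])],.ref k1 k0 [(z1,[z1])]]]⟩

/-- classes `0 0 1 0 2 1`, types `C0 C0 S0 C2 C0 S0` -/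
noncomputable def cT6_1004 : CertT :=
  ⟨[k4,k4,k16,k6,k36,k16],[(false,k0,[k0,k1,k2,k3,k4,k5])],[[[([z1,z1,z0,z1,z0,z0],z2)],[([z1,z1,z1,z0,z0,z0],z2)],
    []]],
    [.leafM k3 [k1,k2,k3,k4,k5,k0] [(z1,[y1,z1])] [],
    .leafM k0 [k2,k3,k4,k5,k0,k1] [(z1,[y1,z1])] [],
    .lp [k10,k8,k6,k6,k6,k6] [k0,k0,k1,k1,k2,k2,k2,k2,k2,k2,k2,k2] k0 [] k24 k5
    [[(k4,k8),(k7,k8),(k10,k8),(k1,k10)],[(k5,k8),(k6,k8),(k3,k9)],[(k9,k7),(k2,k8),(k0,k9)],[(k5,k7),(k6,k7),(k3,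
    k8)],[(k9,k6),(k2,k7),(k0,k8)],[(k4,k6),(k7,k6),(k10,k6),(k1,k8)],[(k4,k6),(k7,k6),(k10,k6),(k1,k8)],[(k9,k6),(k2,
    k7),(k0,k8)],[(k5,k6),(k6,k6),(k3,k7)],[(k11,k6)],[(k8,k6)],[(k4,k6),(k7,k6),(k10,k6),(k1,k8)]]
    [] k0
    [[k0,k0,k1,k0,k1,k1],[k0,k0,k0,k1,k1,k1]]
    [.ref k0 k0 [(z1,[y1,z1])],.ref k1 k0 [(z1,[y1,z1])]]]⟩

/-- classes `0 0 1 0 2 1`, types `C0 C0 S0 C2 S0 S0` -/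
noncomputable def cT6_1005 : CertT :=
  ⟨[k4,k4,k16,k6,k32,k16],[(false,k0,[k0,k1,k2,k3,k4,k5])],[[[([z1,z1,z1,z0,z0,z0],z2)],[([z1,z1,z0,z1,z0,z0],z2)],
    []]],
    [.leafM k0 [k2,k3,k4,k5,k0,k1] [(z1,[y1,z1])] [],
    .leafM k3 [k1,k2,k3,k4,k5,k0] [(z1,[y1,z1])] [],
    .lp [k6,k8,k6,k10,k6,k8] [k2,k2,k1,k1,k2,k2,k0,k0,k2,k2,k1,k1] k0 [] k24 k5
    [[(k1,k6),(k4,k6),(k10,k7),(k7,k8)],[(k5,k6),(k3,k7),(k6,k8)],[(k0,k7),(k9,k7),(k2,k8)],[(k5,k7),(k3,k8),(k6,k9)],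
    [(k0,k6),(k9,k6),(k2,k7)],[(k1,k6),(k4,k6),(k10,k7),(k7,k8)],[(k1,k8),(k4,k8),(k10,k9),(k7,k10)],[(k0,k8),(k9,k8),
    (k2,k9)],[(k5,k6),(k3,k7),(k6,k8)],[(k8,k6),(k11,k7)],[(k8,k7),(k11,k8)],[(k1,k7),(k4,k7),(k10,k8),(k7,k9)]]
    [] k0
    [[k1,k1,k1,k0,k0,k0],[k0,k0,k1,k0,k1,k1]]
    [.ref k0 k0 [(z1,[z1])],.ref k1 k0 [(z1,[y1,z1])]]]⟩

/-- classes `0 0 1 0 2 1`, types `C0 C2 B0 C0 C0 B1` -/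
noncomputable def cT6_1006 : CertT :=
  ⟨[k4,k6,k24,k4,k36,k25],[(false,k0,[k0,k1,k2,k3,k4,k5])],[[[([z1,z1,z0,z1,z0,z0],z2)],[([z1,z1,z1,z0,z0,z0],z2)],
    []]],
    [.leafM k3 [k1,k2,k3,k4,k5,k0] [(z1,[y1,z1])] [],
    .leafM k0 [k2,k3,k4,k5,k0,k1] [(z1,[y1,z1])] [],
    .lp [k2,k4,k2,k2,k2,k2] [k1,k1,k0,k0,k1,k1,k1,k1,k1,k1,k1,k1] k0 [] k8 k5
    [[(k4,k2),(k7,k2)],[(k9,k2),(k2,k3),(k3,k3)],[(k0,k3),(k5,k3),(k6,k3)],[(k0,k3),(k5,k3),(k6,k3)],[(k9,k2),(k2,k3),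
    (k3,k3)],[(k1,k2),(k10,k2)],[(k1,k2),(k10,k2)],[(k9,k2),(k2,k3),(k3,k3)],[(k0,k2),(k5,k2),(k6,k2)],[(k11,k2)],
    [(k8,k2)],[(k4,k2),(k7,k2)]]
    [] k0
    [[k0,k0,k1,k0,k1,k1],[k0,k0,k0,k1,k1,k1]]
    [.ref k0 k0 [(z1,[y1,z1])],.ref k1 k0 [(z1,[y1,z1])]]]⟩

/-- classes `0 0 1 0 2 1`, types `C0 C2 B0 C0 S0 B1` -/
noncomputable def cT6_1007 : CertT :=
  ⟨[k4,k6,k24,k4,k32,k25],[(false,k0,[k0,k1,k2,k3,k4,k5])],[[[([z1,z1,z1,z0,z0,z0],z2)],[([z1,z1,z0,z1,z0,z0],z2)],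
    []]],
    [.leafM k0 [k2,k3,k4,k5,k0,k1] [(z1,[y1,z1])] [],
    .leafM k3 [k1,k2,k3,k4,k5,k0] [(z1,[y1,z1])] [],
    .lp [k2,k2,k2,k2,k2,k4] [k1,k1,k1,k1,k1,k1,k1,k1,k1,k1,k0,k0] k0 [] k8 k5
    [[(k4,k2),(k7,k2)],[(k2,k2),(k3,k2),(k9,k2)],[(k0,k2),(k5,k2),(k6,k2)],[(k0,k2),(k5,k2),(k6,k2)],[(k2,k2),(k3,k2),
    (k9,k2)],[(k1,k2),(k10,k3)],[(k1,k2),(k10,k3)],[(k2,k2),(k3,k2),(k9,k2)],[(k0,k2),(k5,k2),(k6,k2)],[(k8,k2),(k11,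
    k3)],[(k8,k3),(k11,k4)],[(k4,k3),(k7,k3)]]
    [] k0
    [[k1,k1,k1,k0,k0,k0],[k1,k1,k0,k1,k0,k0]]
    [.ref k0 k0 [(z1,[z1])],.ref k1 k0 [(z1,[z1])]]]⟩

/-- classes `0 0 1 0 2 1`, types `C0 C2 B0 C2 C0 B1` -/
noncomputable def cT6_1008 : CertT :=
  ⟨[k4,k6,k24,k6,k36,k25],[(false,k0,[k0,k1,k2,k3,k4,k5])],[[[([z1,z1,z1,z0,z0,z0],z2)],[]]],
    [.leafM k0 [k2,k3,k4,k5,k0,k1] [(z1,[y1,z1])] [],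
    .lp [k2,k2,k2,k2,k2,k4] [k1,k1,k1,k1,k1,k1,k1,k1,k1,k1,k0,k0] k0 [] k8 k5
    [[(k4,k2),(k7,k2)],[(k2,k2),(k3,k2),(k6,k2)],[(k0,k2),(k5,k2),(k9,k2)],[(k0,k2),(k5,k2),(k9,k2)],[(k2,k2),(k3,k2),
    (k6,k2)],[(k1,k2),(k10,k3)],[(k1,k2),(k10,k3)],[(k0,k2),(k5,k2),(k9,k2)],[(k2,k2),(k3,k2),(k6,k2)],[(k11,k3)],
    [(k8,k3)],[(k4,k3),(k7,k3)]]
    [] k0
    [[k1,k1,k1,k0,k0,k0]]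
    [.ref k0 k0 [(z1,[z1])]]]⟩

/-- classes `0 0 1 0 2 1`, types `C0 C2 B0 C2 S0 B1` -/
noncomputable def cT6_1009 : CertT :=
  ⟨[k4,k6,k24,k6,k32,k25],[(false,k0,[k0,k1,k2,k3,k4,k5])],[[[([z1,z1,z1,z0,z0,z0],z2)],[]]],
    [.leafM k0 [k2,k3,k4,k5,k0,k1] [(z1,[y1,z1])] [],
    .lp [k2,k4,k2,k2,k2,k2] [k1,k1,k0,k0,k1,k1,k1,k1,k1,k1,k1,k1] k0 [] k8 k5
    [[(k4,k2),(k7,k2)],[(k6,k2),(k2,k3),(k3,k3)],[(k0,k3),(k5,k3),(k9,k3)],[(k0,k3),(k5,k3),(k9,k3)],[(k6,k2),(k2,k3),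
    (k3,k3)],[(k1,k2),(k10,k2)],[(k1,k2),(k10,k2)],[(k0,k2),(k5,k2),(k9,k2)],[(k6,k2),(k2,k3),(k3,k3)],[(k8,k2),(k11,
    k2)],[(k8,k2),(k11,k2)],[(k4,k2),(k7,k2)]]
    [] k0
    [[k0,k0,k0,k1,k1,k1]]
    [.ref k0 k0 [(z1,[y1,z1])]]]⟩

/-- classes `0 0 1 0 2 1`, types `C0 C2 C0 C0 C0 C0` -/
noncomputable def cT6_1010 : CertT :=
  ⟨[k4,k6,k20,k4,k36,k20],[(false,k0,[k0,k1,k2,k3,k4,k5])],[[[([z1,z1,z1,z0,z0,z0],z2)],[([z1,z0,z0,z0,z1,z1],z2)],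
    []]],
    [.leafM k0 [k2,k3,k4,k5,k0,k1] [(z1,[y1,z1])] [],
    .leafM k0 [k0,k1,k2,k3,k4,k5] [(z1,[y1,z1])] [],
    .lp [k2,k2,k2,k4,k2,k2] [k1,k1,k1,k1,k1,k1,k0,k0,k1,k1,k1,k1] k0 [] k8 k5
    [[(k4,k2),(k10,k2)],[(k2,k2),(k3,k2),(k9,k2)],[(k0,k2),(k5,k2),(k6,k3)],[(k0,k2),(k5,k2),(k6,k3)],[(k2,k2),(k3,
    k2),(k9,k2)],[(k1,k2),(k7,k3)],[(k4,k3),(k10,k3)],[(k2,k3),(k3,k3),(k9,k3)],[(k0,k2),(k5,k2),(k6,k3)],[(k11,k2)],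
    [(k8,k2)],[(k1,k2),(k7,k3)]]
    [] k0
    [[k1,k1,k1,k0,k0,k0],[k1,k0,k0,k0,k1,k1]]
    [.ref k0 k0 [(z1,[z1])],.ref k1 k0 [(z1,[z1])]]]⟩

/-- classes `0 0 1 0 2 1`, types `C0 C2 C0 C0 C0 C2` -/
noncomputable def cT6_1011 : CertT :=
  ⟨[k4,k6,k20,k4,k36,k22],[(false,k0,[k0,k1,k2,k3,k4,k5])],[[[([z1,z0,z0,z0,z1,z1],z2)],[([z1,z1,z0,z1,z0,z0],z2)],
    []]],
    [.leafM k0 [k0,k1,k2,k3,k4,k5] [(z1,[y1,z1])] [],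
    .leafM k3 [k1,k2,k3,k4,k5,k0] [(z1,[y1,z1])] [],
    .lp [k2,k2,k2,k4,k2,k2] [k1,k1,k1,k1,k1,k1,k0,k0,k1,k1,k1,k1] k0 [] k8 k5
    [[(k10,k2),(k7,k3)],[(k2,k2),(k3,k2),(k9,k2)],[(k0,k2),(k5,k2),(k6,k3)],[(k0,k2),(k5,k2),(k6,k3)],[(k2,k2),(k3,
    k2),(k9,k2)],[(k10,k2),(k7,k3)],[(k1,k3),(k4,k3)],[(k2,k3),(k3,k3),(k9,k3)],[(k0,k2),(k5,k2),(k6,k3)],[(k11,k2)],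
    [(k8,k2)],[(k1,k2),(k4,k2)]]
    [] k0
    [[k1,k0,k0,k0,k1,k1],[k0,k0,k1,k0,k1,k1]]
    [.ref k0 k0 [(z1,[z1])],.ref k1 k0 [(z1,[y1,z1])]]]⟩

/-- classes `0 0 1 0 2 1`, types `C0 C2 C0 C0 S0 C0` -/
noncomputable def cT6_1012 : CertT :=
  ⟨[k4,k6,k20,k4,k32,k20],[(false,k0,[k0,k1,k2,k3,k4,k5])],[[[([z1,z0,z0,z0,z1,z1],z2)],[([z1,z1,z1,z0,z0,z0],z2)],
    []]],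
    [.leafM k0 [k0,k1,k2,k3,k4,k5] [(z1,[y1,z1])] [],
    .leafM k0 [k2,k3,k4,k5,k0,k1] [(z1,[y1,z1])] [],
    .lp [k2,k4,k2,k2,k2,k2] [k1,k1,k0,k0,k1,k1,k1,k1,k1,k1,k1,k1] k0 [] k8 k5
    [[(k4,k2),(k10,k2)],[(k9,k2),(k2,k3),(k3,k3)],[(k0,k3),(k5,k3),(k6,k3)],[(k0,k3),(k5,k3),(k6,k3)],[(k9,k2),(k2,
    k3),(k3,k3)],[(k1,k2),(k7,k2)],[(k4,k2),(k10,k2)],[(k9,k2),(k2,k3),(k3,k3)],[(k0,k2),(k5,k2),(k6,k2)],[(k8,k2),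
    (k11,k2)],[(k8,k2),(k11,k2)],[(k1,k2),(k7,k2)]]
    [] k0
    [[k1,k0,k0,k0,k1,k1],[k0,k0,k0,k1,k1,k1]]
    [.ref k0 k0 [(z1,[z1])],.ref k1 k0 [(z1,[y1,z1])]]]⟩

/-- classes `0 0 1 0 2 1`, types `C0 C2 C0 C0 S0 C2` -/
noncomputable def cT6_1013 : CertT :=
  ⟨[k4,k6,k20,k4,k32,k22],[(false,k0,[k0,k1,k2,k3,k4,k5])],[[[([z1,z0,z0,z0,z1,z1],z2)],[([z1,z1,z0,z1,z0,z0],z2)],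
    []]],
    [.leafM k0 [k0,k1,k2,k3,k4,k5] [(z1,[y1,z1])] [],
    .leafM k3 [k1,k2,k3,k4,k5,k0] [(z1,[y1,z1])] [],
    .lp [k2,k4,k2,k2,k2,k2] [k1,k1,k0,k0,k1,k1,k1,k1,k1,k1,k1,k1] k0 [] k8 k5
    [[(k7,k2),(k10,k2)],[(k9,k2),(k2,k3),(k3,k3)],[(k0,k3),(k5,k3),(k6,k3)],[(k0,k3),(k5,k3),(k6,k3)],[(k9,k2),(k2,
    k3),(k3,k3)],[(k7,k2),(k10,k2)],[(k1,k2),(k4,k2)],[(k9,k2),(k2,k3),(k3,k3)],[(k0,k2),(k5,k2),(k6,k2)],[(k8,k2),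
    (k11,k2)],[(k8,k2),(k11,k2)],[(k1,k2),(k4,k2)]]
    [] k0
    [[k1,k0,k0,k0,k1,k1],[k0,k0,k1,k0,k1,k1]]
    [.ref k0 k0 [(z1,[z1])],.ref k1 k0 [(z1,[y1,z1])]]]⟩

/-- classes `0 0 1 0 2 1`, types `C0 C2 C0 C2 C0 C0` -/
noncomputable def cT6_1014 : CertT :=
  ⟨[k4,k6,k20,k6,k36,k20],[(false,k0,[k0,k1,k2,k3,k4,k5])],[[[([z1,z1,z1,z0,z0,z0],z2)],[]]],
    [.leafM k0 [k2,k3,k4,k5,k0,k1] [(z1,[y1,z1])] [],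
    .lp [k2,k2,k4,k2,k2,k2] [k1,k1,k1,k1,k0,k0,k1,k1,k1,k1,k1,k1] k0 [] k8 k5
    [[(k10,k2),(k4,k3)],[(k2,k2),(k3,k2),(k6,k2)],[(k0,k2),(k9,k2),(k5,k3)],[(k0,k2),(k9,k2),(k5,k3)],[(k2,k3),(k3,
    k3),(k6,k3)],[(k1,k3),(k7,k3)],[(k10,k2),(k4,k3)],[(k0,k2),(k9,k2),(k5,k3)],[(k2,k2),(k3,k2),(k6,k2)],[(k11,k2)],
    [(k8,k2)],[(k1,k2),(k7,k2)]]
    [] k0
    [[k0,k0,k0,k1,k1,k1]]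
    [.ref k0 k0 [(z1,[y1,z1])]]]⟩

/-- classes `0 0 1 0 2 1`, types `C0 C2 C0 C2 C0 C2` -/
noncomputable def cT6_1015 : CertT :=
  ⟨[k4,k6,k20,k6,k36,k22],[],[[[]]],
    [.lp [k0,k2,k0,k2,k0,k2] [k1,k1,k0,k0,k1,k1,k0,k0,k1,k1,k0,k0] k0 [] k4 k5
    [[(k7,k1),(k10,k1)],[(k2,k1),(k3,k1),(k6,k1)],[(k0,k1),(k5,k1),(k9,k1)],[(k0,k1),(k5,k1),(k9,k1)],[(k2,k1),(k3,
    k1),(k6,k1)],[(k7,k1),(k10,k1)],[(k1,k1),(k4,k1)],[(k0,k1),(k5,k1),(k9,k1)],[(k2,k1),(k3,k1),(k6,k1)],[(k11,k1)],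
    [(k8,k1)],[(k1,k1),(k4,k1)]]
    [] k0
    []
    []]⟩

/-- classes `0 0 1 0 2 1`, types `C0 C2 C0 C2 S0 C0` -/
noncomputable def cT6_1016 : CertT :=
  ⟨[k4,k6,k20,k6,k32,k20],[(false,k0,[k0,k1,k2,k3,k4,k5])],[[[([z1,z1,z1,z0,z0,z0],z2)],[]]],
    [.leafM k0 [k2,k3,k4,k5,k0,k1] [(z1,[y1,z1])] [],
    .lp [k4,k4,k4,k4,k6,k6] [k1,k1,k1,k1,k1,k1,k1,k1,k0,k0,k0,k0] k0 [] k16 k5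
    [[(k4,k4),(k10,k5)],[(k2,k4),(k3,k4),(k6,k4)],[(k0,k4),(k5,k4),(k9,k5)],[(k0,k4),(k5,k4),(k9,k5)],[(k2,k4),(k3,
    k4),(k6,k4)],[(k1,k4),(k7,k4)],[(k4,k4),(k10,k5)],[(k0,k4),(k5,k4),(k9,k5)],[(k2,k5),(k3,k5),(k6,k5)],[(k8,k6),
    (k11,k6)],[(k8,k6),(k11,k6)],[(k1,k5),(k7,k5)]]
    [] k0
    [[k1,k1,k1,k0,k0,k0]]
    [.ref k0 k0 [(z1,[z1])]]]⟩

/-- classes `0 0 1 0 2 1`, types `C0 C2 C0 C2 S0 C2` -/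
noncomputable def cT6_1017 : CertT :=
  ⟨[k4,k6,k20,k6,k32,k22],[],[[[]]],
    [.lp [k4,k4,k4,k4,k6,k4] [k1,k1,k1,k1,k1,k1,k1,k1,k0,k0,k1,k1] k0 [] k16 k5
    [[(k7,k4),(k10,k4)],[(k2,k4),(k3,k4),(k6,k4)],[(k0,k4),(k5,k4),(k9,k5)],[(k0,k4),(k5,k4),(k9,k5)],[(k2,k4),(k3,
    k4),(k6,k4)],[(k7,k4),(k10,k4)],[(k1,k4),(k4,k4)],[(k0,k4),(k5,k4),(k9,k5)],[(k2,k5),(k3,k5),(k6,k5)],[(k11,k5),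
    (k8,k6)],[(k11,k4),(k8,k5)],[(k1,k4),(k4,k4)]]
    [] k0
    []
    []]⟩

/-- classes `0 0 1 0 2 1`, types `C0 C2 N0 C0 C0 N1` -/
noncomputable def cT6_1018 : CertT :=
  ⟨[k4,k6,k28,k4,k36,k29],[(false,k0,[k0,k1,k2,k3,k4,k5])],[[[([z1,z1,z1,z0,z0,z0],z2)],[]]],
    [.leafM k0 [k2,k3,k4,k5,k0,k1] [(z1,[y1,z1])] [],
    .lp [k2,k2,k4,k2,k2,k2] [k1,k1,k1,k1,k0,k0,k1,k1,k1,k1,k1,k1] k0 [] k8 k5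
    [[(k4,k3)],[(k2,k2),(k3,k2),(k9,k2)],[(k0,k2),(k6,k2),(k5,k3)],[(k0,k2),(k6,k2),(k5,k3)],[(k2,k3),(k3,k3),(k9,
    k3)],[(k1,k3)],[(k10,k2)],[(k2,k2),(k3,k2),(k9,k2)],[(k0,k2),(k6,k2),(k5,k3)],[(k11,k2)],[(k8,k2)],[(k7,k2)]]
    [] k0
    [[k0,k0,k0,k1,k1,k1]]
    [.ref k0 k0 [(z1,[y1,z1])]]]⟩

/-- classes `0 0 1 0 2 1`, types `C0 C2 N0 C0 C0 N2` -/
noncomputable def cT6_1019 : CertT :=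
  ⟨[k4,k6,k28,k4,k36,k30],[(false,k0,[k0,k1,k2,k3,k4,k5])],[[[([z1,z1,z0,z1,z0,z0],z2)],[]]],
    [.leafM k3 [k1,k2,k3,k4,k5,k0] [(z1,[y1,z1])] [],
    .lp [k2,k2,k2,k4,k2,k2] [k1,k1,k1,k1,k1,k1,k0,k0,k1,k1,k1,k1] k0 [] k8 k5
    [[(k7,k3)],[(k2,k2),(k3,k2),(k9,k2)],[(k0,k2),(k5,k2),(k6,k3)],[(k0,k2),(k5,k2),(k6,k3)],[(k2,k2),(k3,k2),(k9,
    k2)],[(k10,k2)],[(k1,k3)],[(k2,k3),(k3,k3),(k9,k3)],[(k0,k2),(k5,k2),(k6,k3)],[(k11,k2)],[(k8,k2)],[(k4,k2)]]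
    [] k0
    [[k0,k0,k1,k0,k1,k1]]
    [.ref k0 k0 [(z1,[y1,z1])]]]⟩

/-- classes `0 0 1 0 2 1`, types `C0 C2 N0 C0 S0 N1` -/
noncomputable def cT6_1020 : CertT :=
  ⟨[k4,k6,k28,k4,k32,k29],[(false,k0,[k0,k1,k2,k3,k4,k5])],[[[([z1,z1,z1,z0,z0,z0],z2)],[]]],
    [.leafM k0 [k2,k3,k4,k5,k0,k1] [(z1,[y1,z1])] [],
    .lp [k2,k2,k2,k2,k2,k4] [k1,k1,k1,k1,k1,k1,k1,k1,k1,k1,k0,k0] k0 [] k8 k5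
    [[(k4,k2)],[(k2,k2),(k3,k2),(k9,k2)],[(k0,k2),(k5,k2),(k6,k2)],[(k0,k2),(k5,k2),(k6,k2)],[(k2,k2),(k3,k2),(k9,
    k2)],[(k1,k2)],[(k10,k3)],[(k2,k2),(k3,k2),(k9,k2)],[(k0,k2),(k5,k2),(k6,k2)],[(k8,k2),(k11,k3)],[(k8,k3),(k11,
    k4)],[(k7,k3)]]
    [] k0
    [[k1,k1,k1,k0,k0,k0]]
    [.ref k0 k0 [(z1,[z1])]]]⟩

/-- classes `0 0 1 0 2 1`, types `C0 C2 N0 C0 S0 N2` -/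
noncomputable def cT6_1021 : CertT :=
  ⟨[k4,k6,k28,k4,k32,k30],[(false,k0,[k0,k1,k2,k3,k4,k5])],[[[([z1,z1,z0,z1,z0,z0],z2)],[]]],
    [.leafM k3 [k1,k2,k3,k4,k5,k0] [(z1,[y1,z1])] [],
    .lp [k2,k2,k2,k2,k2,k4] [k1,k1,k1,k1,k1,k1,k1,k1,k1,k1,k0,k0] k0 [] k8 k5
    [[(k7,k2)],[(k2,k2),(k3,k2),(k9,k2)],[(k0,k2),(k5,k2),(k6,k2)],[(k0,k2),(k5,k2),(k6,k2)],[(k2,k2),(k3,k2),(k9,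
    k2)],[(k10,k3)],[(k1,k2)],[(k2,k2),(k3,k2),(k9,k2)],[(k0,k2),(k5,k2),(k6,k2)],[(k8,k2),(k11,k3)],[(k8,k3),(k11,
    k4)],[(k4,k3)]]
    [] k0
    [[k1,k1,k0,k1,k0,k0]]
    [.ref k0 k0 [(z1,[z1])]]]⟩

/-- classes `0 0 1 0 2 1`, types `C0 C2 N0 C2 C0 N1` -/
noncomputable def cT6_1022 : CertT :=
  ⟨[k4,k6,k28,k6,k36,k29],[(false,k0,[k0,k1,k2,k3,k4,k5])],[[[([z1,z1,z1,z0,z0,z0],z2)],[]]],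
    [.leafM k0 [k2,k3,k4,k5,k0,k1] [(z1,[y1,z1])] [],
    .lp [k2,k2,k4,k2,k2,k2] [k1,k1,k1,k1,k0,k0,k1,k1,k1,k1,k1,k1] k0 [] k8 k5
    [[(k4,k3)],[(k2,k2),(k3,k2),(k6,k2)],[(k0,k2),(k9,k2),(k5,k3)],[(k0,k2),(k9,k2),(k5,k3)],[(k2,k3),(k3,k3),(k6,
    k3)],[(k1,k3)],[(k10,k2)],[(k0,k2),(k9,k2),(k5,k3)],[(k2,k2),(k3,k2),(k6,k2)],[(k11,k2)],[(k8,k2)],[(k7,k2)]]
    [] k0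
    [[k0,k0,k0,k1,k1,k1]]
    [.ref k0 k0 [(z1,[y1,z1])]]]⟩

/-- classes `0 0 1 0 2 1`, types `C0 C2 N0 C2 C0 N2` -/
noncomputable def cT6_1023 : CertT :=
  ⟨[k4,k6,k28,k6,k36,k30],[],[[[]]],
    [.lp [k0,k2,k0,k2,k0,k2] [k1,k1,k0,k0,k1,k1,k0,k0,k1,k1,k0,k0] k0 [] k4 k5
    [[(k7,k1)],[(k2,k1),(k3,k1),(k6,k1)],[(k0,k1),(k5,k1),(k9,k1)],[(k0,k1),(k5,k1),(k9,k1)],[(k2,k1),(k3,k1),(k6,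
    k1)],[(k10,k1)],[(k1,k1)],[(k0,k1),(k5,k1),(k9,k1)],[(k2,k1),(k3,k1),(k6,k1)],[(k11,k1)],[(k8,k1)],[(k4,k1)]]
    [] k0
    []
    []]⟩

/-- classes `0 0 1 0 2 1`, types `C0 C2 N0 C2 S0 N1` -/
noncomputable def cT6_1024 : CertT :=
  ⟨[k4,k6,k28,k6,k32,k29],[(false,k0,[k0,k1,k2,k3,k4,k5])],[[[([z1,z1,z1,z0,z0,z0],z2)],[]]],
    [.leafM k0 [k2,k3,k4,k5,k0,k1] [(z1,[y1,z1])] [],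
    .lp [k4,k4,k4,k4,k6,k6] [k1,k1,k1,k1,k1,k1,k1,k1,k0,k0,k0,k0] k0 [] k16 k5
    [[(k4,k4)],[(k2,k4),(k3,k4),(k6,k4)],[(k0,k4),(k5,k4),(k9,k5)],[(k0,k4),(k5,k4),(k9,k5)],[(k2,k4),(k3,k4),(k6,
    k4)],[(k1,k4)],[(k10,k5)],[(k0,k4),(k5,k4),(k9,k5)],[(k2,k5),(k3,k5),(k6,k5)],[(k8,k6),(k11,k6)],[(k8,k6),(k11,
    k6)],[(k7,k5)]]
    [] k0
    [[k1,k1,k1,k0,k0,k0]]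
    [.ref k0 k0 [(z1,[z1])]]]⟩

/-- classes `0 0 1 0 2 1`, types `C0 C2 N0 C2 S0 N2` -/
noncomputable def cT6_1025 : CertT :=
  ⟨[k4,k6,k28,k6,k32,k30],[],[[[]]],
    [.lp [k4,k4,k4,k4,k6,k4] [k1,k1,k1,k1,k1,k1,k1,k1,k0,k0,k1,k1] k0 [] k16 k5
    [[(k7,k4)],[(k2,k4),(k3,k4),(k6,k4)],[(k0,k4),(k5,k4),(k9,k5)],[(k0,k4),(k5,k4),(k9,k5)],[(k2,k4),(k3,k4),(k6,
    k4)],[(k10,k4)],[(k1,k4)],[(k0,k4),(k5,k4),(k9,k5)],[(k2,k5),(k3,k5),(k6,k5)],[(k11,k5),(k8,k6)],[(k11,k4),(k8,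
    k5)],[(k4,k4)]]
    [] k0
    []
    []]⟩

/-- classes `0 0 1 0 2 1`, types `C0 C2 S0 C0 C0 S0` -/
noncomputable def cT6_1026 : CertT :=
  ⟨[k4,k6,k16,k4,k36,k16],[(false,k0,[k0,k1,k2,k3,k4,k5])],[[[([z1,z0,z0,z0,z1,z1],z2)],[([z1,z1,z0,z1,z0,z0],z2)],
    [([z1,z1,z1,z0,z0,z0],z2)],[]]],
    [.leafM k0 [k0,k1,k2,k3,k4,k5] [(z1,[y1,z1])] [],
    .leafM k3 [k1,k2,k3,k4,k5,k0] [(z1,[y1,z1])] [],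
    .leafM k0 [k2,k3,k4,k5,k0,k1] [(z1,[y1,z1])] [],
    .lp [k2,k4,k2,k2,k2,k2] [k1,k1,k0,k0,k1,k1,k1,k1,k1,k1,k1,k1] k0 [] k8 k5
    [[(k1,k2),(k4,k2),(k7,k2),(k10,k2)],[(k9,k2),(k2,k3),(k3,k3)],[(k0,k3),(k5,k3),(k6,k3)],[(k0,k3),(k5,k3),(k6,k3)],
    [(k9,k2),(k2,k3),(k3,k3)],[(k1,k2),(k4,k2),(k7,k2),(k10,k2)],[(k1,k2),(k4,k2),(k7,k2),(k10,k2)],[(k9,k2),(k2,k3),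
    (k3,k3)],[(k0,k2),(k5,k2),(k6,k2)],[(k11,k2)],[(k8,k2)],[(k1,k2),(k4,k2),(k7,k2),(k10,k2)]]
    [] k0
    [[k1,k0,k0,k0,k1,k1],[k0,k0,k1,k0,k1,k1],[k0,k0,k0,k1,k1,k1]]
    [.ref k0 k0 [(z1,[z1])],.ref k1 k0 [(z1,[y1,z1])],.ref k2 k0 [(z1,[y1,z1])]]]⟩

/-- classes `0 0 1 0 2 1`, types `C0 C2 S0 C0 S0 S0` -/
noncomputable def cT6_1027 : CertT :=
  ⟨[k4,k6,k16,k4,k32,k16],[(false,k0,[k0,k1,k2,k3,k4,k5])],[[[([z1,z0,z0,z0,z1,z1],z2)],[([z1,z1,z0,z1,z0,z0],z2)],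
    [([z1,z1,z1,z0,z0,z0],z2)],[]]],
    [.leafM k0 [k0,k1,k2,k3,k4,k5] [(z1,[y1,z1])] [],
    .leafM k3 [k1,k2,k3,k4,k5,k0] [(z1,[y1,z1])] [],
    .leafM k0 [k2,k3,k4,k5,k0,k1] [(z1,[y1,z1])] [],
    .lp [k2,k4,k2,k2,k2,k2] [k1,k1,k0,k0,k1,k1,k1,k1,k1,k1,k1,k1] k0 [] k8 k5
    [[(k1,k2),(k4,k2),(k7,k2),(k10,k2)],[(k9,k2),(k2,k3),(k3,k3)],[(k0,k3),(k5,k3),(k6,k3)],[(k0,k3),(k5,k3),(k6,k3)],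
    [(k9,k2),(k2,k3),(k3,k3)],[(k1,k2),(k4,k2),(k7,k2),(k10,k2)],[(k1,k2),(k4,k2),(k7,k2),(k10,k2)],[(k9,k2),(k2,k3),
    (k3,k3)],[(k0,k2),(k5,k2),(k6,k2)],[(k8,k2),(k11,k2)],[(k8,k2),(k11,k2)],[(k1,k2),(k4,k2),(k7,k2),(k10,k2)]]
    [] k0
    [[k1,k0,k0,k0,k1,k1],[k0,k0,k1,k0,k1,k1],[k0,k0,k0,k1,k1,k1]]
    [.ref k0 k0 [(z1,[z1])],.ref k1 k0 [(z1,[y1,z1])],.ref k2 k0 [(z1,[y1,z1])]]]⟩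

/-- classes `0 0 1 0 2 1`, types `C0 C2 S0 C2 C0 S0` -/
noncomputable def cT6_1028 : CertT :=
  ⟨[k4,k6,k16,k6,k36,k16],[(false,k0,[k0,k1,k2,k3,k4,k5])],[[[([z1,z1,z1,z0,z0,z0],z2)],[]]],
    [.leafM k0 [k2,k3,k4,k5,k0,k1] [(z1,[y1,z1])] [],
    .lp [k2,k4,k2,k2,k2,k2] [k1,k1,k0,k0,k1,k1,k1,k1,k1,k1,k1,k1] k0 [] k8 k5
    [[(k1,k2),(k4,k2),(k7,k2),(k10,k2)],[(k6,k2),(k2,k3),(k3,k3)],[(k0,k3),(k5,k3),(k9,k3)],[(k0,k3),(k5,k3),(k9,k3)],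
    [(k6,k2),(k2,k3),(k3,k3)],[(k1,k2),(k4,k2),(k7,k2),(k10,k2)],[(k1,k2),(k4,k2),(k7,k2),(k10,k2)],[(k0,k2),(k5,k2),
    (k9,k2)],[(k6,k2),(k2,k3),(k3,k3)],[(k11,k2)],[(k8,k2)],[(k1,k2),(k4,k2),(k7,k2),(k10,k2)]]
    [] k0
    [[k0,k0,k0,k1,k1,k1]]
    [.ref k0 k0 [(z1,[y1,z1])]]]⟩

/-- classes `0 0 1 0 2 1`, types `C0 C2 S0 C2 S0 S0` -/
noncomputable def cT6_1029 : CertT :=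
  ⟨[k4,k6,k16,k6,k32,k16],[(false,k0,[k0,k1,k2,k3,k4,k5])],[[[([z1,z1,z1,z0,z0,z0],z2)],[]]],
    [.leafM k0 [k2,k3,k4,k5,k0,k1] [(z1,[y1,z1])] [],
    .lp [k2,k4,k2,k2,k2,k2] [k1,k1,k0,k0,k1,k1,k1,k1,k1,k1,k1,k1] k0 [] k8 k5
    [[(k1,k2),(k4,k2),(k7,k2),(k10,k2)],[(k6,k2),(k2,k3),(k3,k3)],[(k0,k3),(k5,k3),(k9,k3)],[(k0,k3),(k5,k3),(k9,k3)],
    [(k6,k2),(k2,k3),(k3,k3)],[(k1,k2),(k4,k2),(k7,k2),(k10,k2)],[(k1,k2),(k4,k2),(k7,k2),(k10,k2)],[(k0,k2),(k5,k2),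
    (k9,k2)],[(k6,k2),(k2,k3),(k3,k3)],[(k8,k2),(k11,k2)],[(k8,k2),(k11,k2)],[(k1,k2),(k4,k2),(k7,k2),(k10,k2)]]
    [] k0
    [[k0,k0,k0,k1,k1,k1]]
    [.ref k0 k0 [(z1,[y1,z1])]]]⟩

/-- classes `0 0 1 0 2 1`, types `S0 S0 B0 S0 C0 B1` -/
noncomputable def cT6_1030 : CertT :=
  ⟨[k0,k0,k24,k0,k36,k25],[(false,k0,[k0,k1,k2,k3,k4,k5])],[[[([z1,z1,z0,z1,z0,z0],z2)],[([z1,z1,z1,z0,z0,z0],z2)],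
    []]],
    [.leafM k3 [k1,k2,k3,k4,k5,k0] [(z1,[y1,z1])] [],
    .leafM k0 [k2,k3,k4,k5,k0,k1] [(z1,[y1,z1])] [],
    .lp [k6,k8,k12,k6,k6,k6] [k3,k3,k2,k2,k0,k0,k3,k3,k3,k3,k3,k3] k0 [] k24 k5
    [[(k7,k6),(k4,k9)],[(k0,k6),(k6,k6),(k9,k6),(k2,k7),(k3,k7),(k5,k9)],[(k0,k7),(k6,k7),(k9,k7),(k2,k8),(k3,k8),(k5,
    k10)],[(k0,k7),(k6,k7),(k9,k7),(k2,k8),(k3,k8),(k5,k10)],[(k0,k9),(k6,k9),(k9,k9),(k2,k10),(k3,k10),(k5,k12)],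
    [(k1,k9),(k10,k9)],[(k1,k6),(k10,k6)],[(k0,k6),(k6,k6),(k9,k6),(k2,k7),(k3,k7),(k5,k9)],[(k0,k6),(k6,k6),(k9,k6),
    (k2,k7),(k3,k7),(k5,k9)],[(k11,k6)],[(k8,k6)],[(k7,k6),(k4,k9)]]
    [] k0
    [[k1,k1,k0,k1,k0,k0],[k0,k0,k0,k1,k1,k1]]
    [.ref k0 k0 [(z1,[z1])],.ref k1 k0 [(z1,[y1,z1])]]]⟩

/-- classes `0 0 1 0 2 1`, types `S0 S0 B0 S0 S0 B1` -/
noncomputable def cT6_1031 : CertT :=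
  ⟨[k0,k0,k24,k0,k32,k25],[(false,k0,[k0,k1,k2,k3,k4,k5])],[[[([z1,z1,z1,z0,z0,z0],z2)],[([z1,z1,z0,z1,z0,z0],z2)],
    []]],
    [.leafM k0 [k2,k3,k4,k5,k0,k1] [(z1,[y1,z1])] [],
    .leafM k3 [k1,k2,k3,k4,k5,k0] [(z1,[y1,z1])] [],
    .lp [k6,k8,k6,k10,k8,k6] [k2,k2,k1,k1,k2,k2,k0,k0,k1,k1,k2,k2] k0 [] k24 k5
    [[(k4,k6),(k7,k8)],[(k0,k6),(k5,k6),(k2,k7),(k3,k7),(k9,k7),(k6,k8)],[(k0,k7),(k5,k7),(k2,k8),(k3,k8),(k9,k8),(k6,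
    k9)],[(k0,k7),(k5,k7),(k2,k8),(k3,k8),(k9,k8),(k6,k9)],[(k0,k6),(k5,k6),(k2,k7),(k3,k7),(k9,k7),(k6,k8)],[(k1,k6),
    (k10,k6)],[(k1,k8),(k10,k8)],[(k0,k8),(k5,k8),(k2,k9),(k3,k9),(k9,k9),(k6,k10)],[(k0,k7),(k5,k7),(k2,k8),(k3,k8),
    (k9,k8),(k6,k9)],[(k11,k7),(k8,k8)],[(k11,k6),(k8,k7)],[(k4,k6),(k7,k8)]]
    [] k0
    [[k1,k1,k1,k0,k0,k0],[k0,k0,k1,k0,k1,k1]]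
    [.ref k0 k0 [(z1,[z1])],.ref k1 k0 [(z1,[y1,z1])]]]⟩

/-- classes `0 0 1 0 2 1`, types `S0 S0 C0 S0 C0 C0` -/
noncomputable def cT6_1032 : CertT :=
  ⟨[k0,k0,k20,k0,k36,k20],[(false,k0,[k0,k1,k2,k3,k4,k5])],[[[([z1,z0,z0,z0,z1,z1],z2)],[([z1,z1,z1,z0,z0,z0],z2)],
    []]],
    [.leafM k0 [k0,k1,k2,k3,k4,k5] [(z1,[y1,z1])] [],
    .leafM k0 [k2,k3,k4,k5,k0,k1] [(z1,[y1,z1])] [],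
    .lp [k12,k8,k6,k6,k6,k6] [k0,k0,k2,k2,k3,k3,k3,k3,k3,k3,k3,k3] k0 [] k24 k5
    [[(k4,k9),(k10,k9)],[(k5,k9),(k6,k9),(k9,k9),(k2,k10),(k3,k10),(k0,k12)],[(k5,k7),(k6,k7),(k9,k7),(k2,k8),(k3,k8),
    (k0,k10)],[(k5,k7),(k6,k7),(k9,k7),(k2,k8),(k3,k8),(k0,k10)],[(k5,k6),(k6,k6),(k9,k6),(k2,k7),(k3,k7),(k0,k9)],
    [(k7,k6),(k1,k9)],[(k4,k6),(k10,k6)],[(k5,k6),(k6,k6),(k9,k6),(k2,k7),(k3,k7),(k0,k9)],[(k5,k6),(k6,k6),(k9,k6),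
    (k2,k7),(k3,k7),(k0,k9)],[(k11,k6)],[(k8,k6)],[(k7,k6),(k1,k9)]]
    [] k0
    [[k0,k1,k1,k1,k0,k0],[k0,k0,k0,k1,k1,k1]]
    [.ref k0 k0 [(z1,[y1,z1])],.ref k1 k0 [(z1,[y1,z1])]]]⟩

/-- classes `0 0 1 0 2 1`, types `S0 S0 C0 S0 C0 C2` -/
noncomputable def cT6_1033 : CertT :=
  ⟨[k0,k0,k20,k0,k36,k22],[(false,k0,[k0,k1,k2,k3,k4,k5])],[[[([z1,z0,z0,z0,z1,z1],z2)],[([z1,z1,z0,z1,z0,z0],z2)],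
    []]],
    [.leafM k0 [k0,k1,k2,k3,k4,k5] [(z1,[y1,z1])] [],
    .leafM k3 [k1,k2,k3,k4,k5,k0] [(z1,[y1,z1])] [],
    .lp [k2,k4,k2,k2,k2,k2] [k1,k1,k0,k0,k1,k1,k1,k1,k1,k1,k1,k1] k0 [] k8 k5
    [[(k7,k2),(k10,k2)],[(k0,k2),(k5,k2),(k6,k2),(k9,k2),(k2,k3),(k3,k3)],[(k0,k3),(k5,k3),(k6,k3),(k9,k3),(k2,k4),
    (k3,k4)],[(k0,k3),(k5,k3),(k6,k3),(k9,k3),(k2,k4),(k3,k4)],[(k0,k2),(k5,k2),(k6,k2),(k9,k2),(k2,k3),(k3,k3)],[(k7,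
    k2),(k10,k2)],[(k1,k2),(k4,k2)],[(k0,k2),(k5,k2),(k6,k2),(k9,k2),(k2,k3),(k3,k3)],[(k0,k2),(k5,k2),(k6,k2),(k9,
    k2),(k2,k3),(k3,k3)],[(k11,k2)],[(k8,k2)],[(k1,k2),(k4,k2)]]
    [] k0
    [[k1,k0,k0,k0,k1,k1],[k0,k0,k1,k0,k1,k1]]
    [.ref k0 k0 [(z1,[z1])],.ref k1 k0 [(z1,[y1,z1])]]]⟩

/-- classes `0 0 1 0 2 1`, types `S0 S0 C0 S0 S0 C0` -/
noncomputable def cT6_1034 : CertT :=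
  ⟨[k0,k0,k20,k0,k32,k20],[(false,k0,[k0,k1,k2,k3,k4,k5])],[[[([z1,z0,z0,z0,z1,z1],z2)],[([z1,z1,z1,z0,z0,z0],z2)],
    []]],
    [.leafM k0 [k0,k1,k2,k3,k4,k5] [(z1,[y1,z1])] [],
    .leafM k0 [k2,k3,k4,k5,k0,k1] [(z1,[y1,z1])] [],
    .lp [k10,k8,k6,k6,k8,k6] [k0,k0,k1,k1,k2,k2,k2,k2,k1,k1,k2,k2] k0 [] k24 k5
    [[(k4,k8),(k10,k8)],[(k5,k8),(k6,k8),(k2,k9),(k3,k9),(k9,k9),(k0,k10)],[(k5,k7),(k6,k7),(k2,k8),(k3,k8),(k9,k8),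
    (k0,k9)],[(k5,k7),(k6,k7),(k2,k8),(k3,k8),(k9,k8),(k0,k9)],[(k5,k6),(k6,k6),(k2,k7),(k3,k7),(k9,k7),(k0,k8)],[(k7,
    k6),(k1,k8)],[(k4,k6),(k10,k6)],[(k5,k6),(k6,k6),(k2,k7),(k3,k7),(k9,k7),(k0,k8)],[(k5,k7),(k6,k7),(k2,k8),(k3,
    k8),(k9,k8),(k0,k9)],[(k11,k7),(k8,k8)],[(k11,k6),(k8,k7)],[(k7,k6),(k1,k8)]]
    [] k0
    [[k0,k1,k1,k1,k0,k0],[k0,k0,k0,k1,k1,k1]]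
    [.ref k0 k0 [(z1,[y1,z1])],.ref k1 k0 [(z1,[y1,z1])]]]⟩

/-- classes `0 0 1 0 2 1`, types `S0 S0 C0 S0 S0 C2` -/
noncomputable def cT6_1035 : CertT :=
  ⟨[k0,k0,k20,k0,k32,k22],[(false,k0,[k0,k1,k2,k3,k4,k5])],[[[([z1,z0,z0,z0,z1,z1],z2)],[([z1,z1,z0,z1,z0,z0],z2)],
    []]],
    [.leafM k0 [k0,k1,k2,k3,k4,k5] [(z1,[y1,z1])] [],
    .leafM k3 [k1,k2,k3,k4,k5,k0] [(z1,[y1,z1])] [],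
    .lp [k2,k4,k2,k2,k2,k2] [k1,k1,k0,k0,k1,k1,k1,k1,k1,k1,k1,k1] k0 [] k8 k5
    [[(k7,k2),(k10,k2)],[(k0,k2),(k5,k2),(k6,k2),(k9,k2),(k2,k3),(k3,k3)],[(k0,k3),(k5,k3),(k6,k3),(k9,k3),(k2,k4),
    (k3,k4)],[(k0,k3),(k5,k3),(k6,k3),(k9,k3),(k2,k4),(k3,k4)],[(k0,k2),(k5,k2),(k6,k2),(k9,k2),(k2,k3),(k3,k3)],[(k7,
    k2),(k10,k2)],[(k1,k2),(k4,k2)],[(k0,k2),(k5,k2),(k6,k2),(k9,k2),(k2,k3),(k3,k3)],[(k0,k2),(k5,k2),(k6,k2),(k9,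
    k2),(k2,k3),(k3,k3)],[(k8,k2),(k11,k2)],[(k8,k2),(k11,k2)],[(k1,k2),(k4,k2)]]
    [] k0
    [[k1,k0,k0,k0,k1,k1],[k0,k0,k1,k0,k1,k1]]
    [.ref k0 k0 [(z1,[z1])],.ref k1 k0 [(z1,[y1,z1])]]]⟩

/-- classes `0 0 1 0 2 1`, types `S0 S0 N0 S0 C0 N1` -/
noncomputable def cT6_1036 : CertT :=
  ⟨[k0,k0,k28,k0,k36,k29],[(false,k0,[k0,k1,k2,k3,k4,k5])],[[[([z1,z1,z1,z0,z0,z0],z2)],[]]],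
    [.leafM k0 [k2,k3,k4,k5,k0,k1] [(z1,[y1,z1])] [],
    .lp [k2,k4,k2,k2,k2,k2] [k1,k1,k0,k0,k1,k1,k1,k1,k1,k1,k1,k1] k0 [] k8 k5
    [[(k4,k2)],[(k0,k2),(k5,k2),(k6,k2),(k9,k2),(k2,k3),(k3,k3)],[(k0,k3),(k5,k3),(k6,k3),(k9,k3),(k2,k4),(k3,k4)],
    [(k0,k3),(k5,k3),(k6,k3),(k9,k3),(k2,k4),(k3,k4)],[(k0,k2),(k5,k2),(k6,k2),(k9,k2),(k2,k3),(k3,k3)],[(k1,k2)],
    [(k10,k2)],[(k0,k2),(k5,k2),(k6,k2),(k9,k2),(k2,k3),(k3,k3)],[(k0,k2),(k5,k2),(k6,k2),(k9,k2),(k2,k3),(k3,k3)],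
    [(k11,k2)],[(k8,k2)],[(k7,k2)]]
    [] k0
    [[k0,k0,k0,k1,k1,k1]]
    [.ref k0 k0 [(z1,[y1,z1])]]]⟩

/-- classes `0 0 1 0 2 1`, types `S0 S0 N0 S0 C0 N2` -/
noncomputable def cT6_1037 : CertT :=
  ⟨[k0,k0,k28,k0,k36,k30],[(false,k0,[k0,k1,k2,k3,k4,k5])],[[[([z1,z1,z0,z1,z0,z0],z2)],[]]],
    [.leafM k3 [k1,k2,k3,k4,k5,k0] [(z1,[y1,z1])] [],
    .lp [k2,k4,k2,k2,k2,k2] [k1,k1,k0,k0,k1,k1,k1,k1,k1,k1,k1,k1] k0 [] k8 k5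
    [[(k7,k2)],[(k0,k2),(k5,k2),(k6,k2),(k9,k2),(k2,k3),(k3,k3)],[(k0,k3),(k5,k3),(k6,k3),(k9,k3),(k2,k4),(k3,k4)],
    [(k0,k3),(k5,k3),(k6,k3),(k9,k3),(k2,k4),(k3,k4)],[(k0,k2),(k5,k2),(k6,k2),(k9,k2),(k2,k3),(k3,k3)],[(k10,k2)],
    [(k1,k2)],[(k0,k2),(k5,k2),(k6,k2),(k9,k2),(k2,k3),(k3,k3)],[(k0,k2),(k5,k2),(k6,k2),(k9,k2),(k2,k3),(k3,k3)],
    [(k11,k2)],[(k8,k2)],[(k4,k2)]]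
    [] k0
    [[k0,k0,k1,k0,k1,k1]]
    [.ref k0 k0 [(z1,[y1,z1])]]]⟩

/-- classes `0 0 1 0 2 1`, types `S0 S0 N0 S0 S0 N1` -/
noncomputable def cT6_1038 : CertT :=
  ⟨[k0,k0,k28,k0,k32,k29],[(false,k0,[k0,k1,k2,k3,k4,k5])],[[[([z1,z1,z1,z0,z0,z0],z2)],[]]],
    [.leafM k0 [k2,k3,k4,k5,k0,k1] [(z1,[y1,z1])] [],
    .lp [k2,k4,k2,k2,k2,k2] [k1,k1,k0,k0,k1,k1,k1,k1,k1,k1,k1,k1] k0 [] k8 k5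
    [[(k4,k2)],[(k0,k2),(k5,k2),(k6,k2),(k9,k2),(k2,k3),(k3,k3)],[(k0,k3),(k5,k3),(k6,k3),(k9,k3),(k2,k4),(k3,k4)],
    [(k0,k3),(k5,k3),(k6,k3),(k9,k3),(k2,k4),(k3,k4)],[(k0,k2),(k5,k2),(k6,k2),(k9,k2),(k2,k3),(k3,k3)],[(k1,k2)],
    [(k10,k2)],[(k0,k2),(k5,k2),(k6,k2),(k9,k2),(k2,k3),(k3,k3)],[(k0,k2),(k5,k2),(k6,k2),(k9,k2),(k2,k3),(k3,k3)],
    [(k8,k2),(k11,k2)],[(k8,k2),(k11,k2)],[(k7,k2)]]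
    [] k0
    [[k0,k0,k0,k1,k1,k1]]
    [.ref k0 k0 [(z1,[y1,z1])]]]⟩

/-- classes `0 0 1 0 2 1`, types `S0 S0 N0 S0 S0 N2` -/
noncomputable def cT6_1039 : CertT :=
  ⟨[k0,k0,k28,k0,k32,k30],[(false,k0,[k0,k1,k2,k3,k4,k5])],[[[([z1,z1,z0,z1,z0,z0],z2)],[]]],
    [.leafM k3 [k1,k2,k3,k4,k5,k0] [(z1,[y1,z1])] [],
    .lp [k6,k8,k10,k6,k8,k6] [k2,k2,k1,k1,k0,k0,k2,k2,k1,k1,k2,k2] k0 [] k24 k5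
    [[(k7,k6)],[(k0,k6),(k6,k6),(k2,k7),(k3,k7),(k9,k7),(k5,k8)],[(k0,k7),(k6,k7),(k2,k8),(k3,k8),(k9,k8),(k5,k9)],
    [(k0,k7),(k6,k7),(k2,k8),(k3,k8),(k9,k8),(k5,k9)],[(k0,k8),(k6,k8),(k2,k9),(k3,k9),(k9,k9),(k5,k10)],[(k10,k8)],
    [(k1,k6)],[(k0,k6),(k6,k6),(k2,k7),(k3,k7),(k9,k7),(k5,k8)],[(k0,k7),(k6,k7),(k2,k8),(k3,k8),(k9,k8),(k5,k9)],
    [(k11,k7),(k8,k8)],[(k11,k6),(k8,k7)],[(k4,k8)]]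
    [] k0
    [[k1,k1,k0,k1,k0,k0]]
    [.ref k0 k0 [(z1,[z1])]]]⟩

/-- classes `0 0 1 0 2 1`, types `S0 S0 S0 S0 C0 S0` -/
noncomputable def cT6_1040 : CertT :=
  ⟨[k0,k0,k16,k0,k36,k16],[(false,k0,[k0,k1,k2,k3,k4,k5])],[[[([z1,z1,z1,z0,z0,z0],z2)],[([z1,z0,z0,z0,z1,z1],z2)],
    [([z1,z1,z0,z1,z0,z0],z2)],[]]],
    [.leafM k0 [k2,k3,k4,k5,k0,k1] [(z1,[y1,z1])] [],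
    .leafM k0 [k0,k1,k2,k3,k4,k5] [(z1,[y1,z1])] [],
    .leafM k3 [k1,k2,k3,k4,k5,k0] [(z1,[y1,z1])] [],
    .lp [k8,k8,k8,k8,k6,k8] [k0,k0,k0,k0,k0,k0,k0,k0,k1,k1,k0,k0] k0 [[],[],[],[],[k0,k0,k0,k0,k0,k0,k0,k0,k0,k0,k2],[],
    [],[],[],[],[],[k0,k0,k0,k0,k0,k2]] k24 k5
    [[(k4,k6),(k1,k8),(k7,k8),(k10,k8)],[(k9,k7),(k0,k8),(k2,k8),(k3,k8),(k5,k8),(k6,k8)],[(k9,k7),(k0,k8),(k2,k8),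
    (k3,k8),(k5,k8),(k6,k8)],[(k9,k7),(k0,k8),(k2,k8),(k3,k8),(k5,k8),(k6,k8)],[(k9,k7),(k0,k8),(k2,k8),(k3,k8),(k5,
    k8),(k6,k8)],[(k1,k6),(k4,k8),(k7,k8),(k10,k8)],[(k1,k8),(k4,k8),(k7,k8),(k10,k10)],[(k9,k7),(k0,k8),(k2,k8),(k3,
    k8),(k5,k8),(k6,k8)],[(k9,k6),(k0,k7),(k2,k7),(k3,k7),(k5,k7),(k6,k7)],[(k11,k7)],[(k8,k7)],[(k1,k8),(k4,k8),(k10,
    k8),(k7,k10)]]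
    [] k0
    [[k1,k1,k1,k0,k0,k0],[k1,k0,k0,k0,k1,k1],[k0,k0,k1,k0,k1,k1]]
    [.ref k0 k0 [(z1,[z1])],.ref k1 k0 [(z1,[z1])],.ref k2 k0 [(z1,[y1,z1])]]]⟩

/-- classes `0 0 1 0 2 2`, types `C0 C0 C0 C0 B0 B1` -/
noncomputable def cT6_1041 : CertT :=
  ⟨[k4,k4,k20,k4,k40,k41],[(false,k0,[k0,k1,k2,k3,k4,k5])],[[[([z1,z0,z0,z0,z1,z1],z2)],[]]],
    [.leafM k4 [k4,k5,k0,k1,k2,k3] [(z1,[y1,z1])] [],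
    .lp [k6,k4,k2,k4,k2,k4] [k0,k0,k1,k1,k2,k2,k1,k1,k2,k2,k1,k1] k0 [] k12 k5
    [[(k8,k4),(k11,k5)],[(k5,k4),(k9,k4),(k3,k5)],[(k2,k4),(k6,k4),(k0,k5)],[(k5,k3),(k9,k3),(k3,k4)],[(k2,k3),(k6,
    k3),(k0,k4)],[(k7,k3)],[(k4,k3)],[(k5,k3),(k9,k3),(k3,k4)],[(k2,k3),(k6,k3),(k0,k4)],[(k10,k3),(k1,k4)],[(k10,k4),
    (k1,k5)],[(k8,k3),(k11,k4)]]
    [] k0
    [[k0,k1,k1,k1,k0,k0]]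
    [.ref k0 k0 [(z1,[y1,z1])]]]⟩

/-- classes `0 0 1 0 2 2`, types `C0 C0 C0 C0 C0 C0` -/
noncomputable def cT6_1042 : CertT :=
  ⟨[k4,k4,k20,k4,k36,k36],[(false,k0,[k0,k1,k2,k3,k4,k5])],[[[([z1,z0,z0,z0,z1,z1],z2)],[]]],
    [.leafM k0 [k0,k1,k2,k3,k4,k5] [(z1,[y1,z1])] [],
    .lp [k4,k6,k2,k4,k2,k4] [k1,k1,k0,k0,k2,k2,k1,k1,k2,k2,k1,k1] k0 [] k12 k5
    [[(k8,k3),(k10,k4)],[(k5,k3),(k9,k3),(k3,k5)],[(k0,k5),(k6,k5),(k2,k6)],[(k5,k4),(k9,k4),(k3,k6)],[(k0,k3),(k6,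
    k3),(k2,k4)],[(k7,k3)],[(k4,k3)],[(k5,k3),(k9,k3),(k3,k5)],[(k0,k3),(k6,k3),(k2,k4)],[(k1,k3),(k11,k3)],[(k8,k3),
    (k10,k4)],[(k1,k4),(k11,k4)]]
    [] k0
    [[k1,k0,k0,k0,k1,k1]]
    [.ref k0 k0 [(z1,[z1])]]]⟩

/-- classes `0 0 1 0 2 2`, types `C0 C0 C0 C0 C0 C2` -/
noncomputable def cT6_1043 : CertT :=
  ⟨[k4,k4,k20,k4,k36,k38],[(false,k0,[k0,k1,k2,k3,k4,k5])],[[[([z1,z0,z0,z0,z1,z1],z2)],[]]],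
    [.leafM k0 [k0,k1,k2,k3,k4,k5] [(z1,[y1,z1])] [],
    .lp [k6,k8,k6,k10,k6,k6] [k2,k2,k1,k1,k2,k2,k0,k0,k2,k2,k2,k2] k0 [] k24 k5
    [[(k10,k6),(k11,k6)],[(k5,k6),(k9,k6),(k3,k7)],[(k0,k7),(k2,k8),(k6,k9)],[(k5,k7),(k9,k7),(k3,k8)],[(k0,k6),(k2,
    k7),(k6,k8)],[(k7,k8)],[(k4,k8)],[(k5,k8),(k9,k8),(k3,k9)],[(k0,k6),(k2,k7),(k6,k8)],[(k10,k6),(k11,k6)],[(k1,k6),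
    (k8,k6)],[(k1,k6),(k8,k6)]]
    [] k0
    [[k1,k0,k0,k0,k1,k1]]
    [.ref k0 k0 [(z1,[z1])]]]⟩

/-- classes `0 0 1 0 2 2`, types `C0 C0 C0 C0 N0 N1` -/
noncomputable def cT6_1044 : CertT :=
  ⟨[k4,k4,k20,k4,k44,k45],[],[[[]]],
    [.lp [k6,k6,k0,k6,k0,k4] [k0,k0,k0,k0,k3,k3,k0,k0,k3,k3,k1,k1] k0 [] k12 k5
    [[(k8,k3)],[(k5,k3),(k9,k3),(k3,k6)],[(k0,k6),(k2,k6),(k6,k6)],[(k5,k3),(k9,k3),(k3,k6)],[(k0,k3),(k2,k3),(k6,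
    k3)],[(k7,k3)],[(k4,k3)],[(k5,k3),(k9,k3),(k3,k6)],[(k0,k3),(k2,k3),(k6,k3)],[(k1,k3)],[(k10,k4)],[(k11,k4)]]
    [] k0
    []
    []]⟩

/-- classes `0 0 1 0 2 2`, types `C0 C0 C0 C0 N0 N2` -/
noncomputable def cT6_1045 : CertT :=
  ⟨[k4,k4,k20,k4,k44,k46],[(false,k0,[k0,k1,k2,k3,k4,k5])],[[[([z1,z0,z0,z0,z1,z1],z2)],[]]],
    [.leafM k4 [k4,k5,k0,k1,k2,k3] [(z1,[y1,z1])] [],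
    .lp [k6,k8,k6,k10,k6,k6] [k2,k2,k1,k1,k2,k2,k0,k0,k2,k2,k2,k2] k0 [] k24 k5
    [[(k11,k6)],[(k5,k6),(k9,k6),(k3,k7)],[(k0,k7),(k2,k8),(k6,k9)],[(k5,k7),(k9,k7),(k3,k8)],[(k0,k6),(k2,k7),(k6,
    k8)],[(k7,k8)],[(k4,k8)],[(k5,k8),(k9,k8),(k3,k9)],[(k0,k6),(k2,k7),(k6,k8)],[(k10,k6)],[(k1,k6)],[(k8,k6)]]
    [] k0
    [[k1,k0,k0,k0,k1,k1]]
    [.ref k0 k0 [(z1,[z1])]]]⟩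

/-- classes `0 0 1 0 2 2`, types `C0 C0 C0 C0 S0 S0` -/
noncomputable def cT6_1046 : CertT :=
  ⟨[k4,k4,k20,k4,k32,k32],[(false,k0,[k0,k1,k2,k3,k4,k5])],[[[([z1,z0,z0,z0,z1,z1],z2)],[]]],
    [.leafM k0 [k0,k1,k2,k3,k4,k5] [(z1,[y1,z1])] [],
    .lp [k6,k12,k6,k6,k6,k8] [k3,k3,k0,k0,k3,k3,k3,k3,k3,k3,k2,k2] k0 [] k24 k5
    [[(k1,k6),(k8,k6),(k10,k7),(k11,k7)],[(k5,k6),(k9,k6),(k3,k9)],[(k0,k9),(k6,k9),(k2,k12)],[(k5,k9),(k9,k9),(k3,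
    k12)],[(k0,k6),(k6,k6),(k2,k9)],[(k7,k6)],[(k4,k6)],[(k5,k6),(k9,k6),(k3,k9)],[(k0,k6),(k6,k6),(k2,k9)],[(k1,k6),
    (k8,k6),(k10,k7),(k11,k7)],[(k1,k7),(k8,k7),(k10,k8),(k11,k8)],[(k1,k7),(k8,k7),(k10,k8),(k11,k8)]]
    [] k0
    [[k1,k0,k0,k0,k1,k1]]
    [.ref k0 k0 [(z1,[z1])]]]⟩

/-- classes `0 0 1 0 2 2`, types `C0 C0 C0 C2 B0 B1` -/
noncomputable def cT6_1047 : CertT :=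
  ⟨[k4,k4,k20,k6,k40,k41],[],[[[]]],
    [.lp [k6,k8,k6,k6,k6,k8] [k1,k1,k0,k0,k1,k1,k1,k1,k1,k1,k0,k0] k0 [] k24 k5
    [[(k8,k6),(k11,k7)],[(k5,k6),(k6,k6),(k3,k7)],[(k0,k7),(k9,k7),(k2,k8)],[(k5,k7),(k6,k7),(k3,k8)],[(k0,k6),(k9,
    k6),(k2,k7)],[(k7,k6)],[(k4,k6)],[(k0,k6),(k9,k6),(k2,k7)],[(k5,k6),(k6,k6),(k3,k7)],[(k1,k6),(k10,k7)],[(k1,k7),
    (k10,k8)],[(k8,k7),(k11,k8)]]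
    [] k0
    []
    []]⟩

/-- classes `0 0 1 0 2 2`, types `C0 C0 C0 C2 C0 C0` -/
noncomputable def cT6_1048 : CertT :=
  ⟨[k4,k4,k20,k6,k36,k36],[],[[[]]],
    [.lp [k6,k8,k6,k6,k6,k8] [k1,k1,k0,k0,k1,k1,k1,k1,k1,k1,k0,k0] k0 [] k24 k5
    [[(k8,k6),(k10,k7)],[(k5,k6),(k6,k6),(k3,k7)],[(k0,k7),(k9,k7),(k2,k8)],[(k5,k7),(k6,k7),(k3,k8)],[(k0,k6),(k9,
    k6),(k2,k7)],[(k7,k6)],[(k4,k6)],[(k0,k6),(k9,k6),(k2,k7)],[(k5,k6),(k6,k6),(k3,k7)],[(k1,k6),(k11,k7)],[(k8,k7),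
    (k10,k8)],[(k1,k7),(k11,k8)]]
    [] k0
    []
    []]⟩

/-- classes `0 0 1 0 2 2`, types `C0 C0 C0 C2 C0 C2` -/
noncomputable def cT6_1049 : CertT :=
  ⟨[k4,k4,k20,k6,k36,k38],[],[[[]]],
    [.lp [k6,k8,k6,k6,k6,k6] [k1,k1,k0,k0,k1,k1,k1,k1,k1,k1,k1,k1] k0 [] k24 k5
    [[(k10,k6),(k11,k6)],[(k5,k6),(k6,k6),(k3,k7)],[(k0,k7),(k9,k7),(k2,k8)],[(k5,k7),(k6,k7),(k3,k8)],[(k0,k6),(k9,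
    k6),(k2,k7)],[(k7,k6)],[(k4,k6)],[(k0,k6),(k9,k6),(k2,k7)],[(k5,k6),(k6,k6),(k3,k7)],[(k10,k6),(k11,k6)],[(k1,k6),
    (k8,k6)],[(k1,k6),(k8,k6)]]
    [] k0
    []
    []]⟩

/-- classes `0 0 1 0 2 2`, types `C0 C0 C0 C2 N0 N1` -/
noncomputable def cT6_1050 : CertT :=
  ⟨[k4,k4,k20,k6,k44,k45],[],[[[]]],
    [.lp [k6,k8,k6,k6,k6,k8] [k1,k1,k0,k0,k1,k1,k1,k1,k1,k1,k0,k0] k0 [] k24 k5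
    [[(k8,k6)],[(k5,k6),(k6,k6),(k3,k7)],[(k0,k7),(k9,k7),(k2,k8)],[(k5,k7),(k6,k7),(k3,k8)],[(k0,k6),(k9,k6),(k2,
    k7)],[(k7,k6)],[(k4,k6)],[(k0,k6),(k9,k6),(k2,k7)],[(k5,k6),(k6,k6),(k3,k7)],[(k1,k6)],[(k10,k8)],[(k11,k8)]]
    [] k0
    []
    []]⟩

/-- classes `0 0 1 0 2 2`, types `C0 C0 C0 C2 N0 N2` -/
noncomputable def cT6_1051 : CertT :=
  ⟨[k4,k4,k20,k6,k44,k46],[],[[[]]],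
    [.lp [k6,k8,k6,k6,k6,k6] [k1,k1,k0,k0,k1,k1,k1,k1,k1,k1,k1,k1] k0 [] k24 k5
    [[(k11,k6)],[(k5,k6),(k6,k6),(k3,k7)],[(k0,k7),(k9,k7),(k2,k8)],[(k5,k7),(k6,k7),(k3,k8)],[(k0,k6),(k9,k6),(k2,
    k7)],[(k7,k6)],[(k4,k6)],[(k0,k6),(k9,k6),(k2,k7)],[(k5,k6),(k6,k6),(k3,k7)],[(k10,k6)],[(k1,k6)],[(k8,k6)]]
    [] k0
    []
    []]⟩

/-- classes `0 0 1 0 2 2`, types `C0 C0 C0 C2 S0 S0` -/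
noncomputable def cT6_1052 : CertT :=
  ⟨[k4,k4,k20,k6,k32,k32],[],[[[]]],
    [.lp [k6,k8,k6,k6,k6,k8] [k1,k1,k0,k0,k1,k1,k1,k1,k1,k1,k0,k0] k0 [] k24 k5
    [[(k1,k6),(k8,k6),(k10,k7),(k11,k7)],[(k5,k6),(k6,k6),(k3,k7)],[(k0,k7),(k9,k7),(k2,k8)],[(k5,k7),(k6,k7),(k3,
    k8)],[(k0,k6),(k9,k6),(k2,k7)],[(k7,k6)],[(k4,k6)],[(k0,k6),(k9,k6),(k2,k7)],[(k5,k6),(k6,k6),(k3,k7)],[(k1,k6),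
    (k8,k6),(k10,k7),(k11,k7)],[(k1,k7),(k8,k7),(k10,k8),(k11,k8)],[(k1,k7),(k8,k7),(k10,k8),(k11,k8)]]
    [] k0
    []
    []]⟩

/-- classes `0 0 1 0 2 2`, types `C0 C0 S0 C0 B0 B1` -/
noncomputable def cT6_1053 : CertT :=
  ⟨[k4,k4,k16,k4,k40,k41],[(false,k0,[k0,k1,k2,k3,k4,k5])],[[[([z1,z0,z0,z0,z1,z1],z2)],[]]],
    [.leafM k4 [k4,k5,k0,k1,k2,k3] [(z1,[y1,z1])] [],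
    .lp [k10,k8,k6,k6,k6,k8] [k0,k0,k1,k1,k2,k2,k2,k2,k2,k2,k1,k1] k0 [] k24 k5
    [[(k8,k8),(k11,k9)],[(k5,k8),(k9,k8),(k3,k9)],[(k6,k7),(k2,k8),(k0,k9)],[(k5,k7),(k9,k7),(k3,k8)],[(k6,k6),(k2,
    k7),(k0,k8)],[(k4,k6),(k7,k6)],[(k4,k6),(k7,k6)],[(k5,k6),(k9,k6),(k3,k7)],[(k6,k6),(k2,k7),(k0,k8)],[(k10,k7),
    (k1,k8)],[(k10,k8),(k1,k9)],[(k8,k7),(k11,k8)]]
    [] k0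
    [[k0,k1,k1,k1,k0,k0]]
    [.ref k0 k0 [(z1,[y1,z1])]]]⟩

/-- classes `0 0 1 0 2 2`, types `C0 C0 S0 C0 C0 C0` -/
noncomputable def cT6_1054 : CertT :=
  ⟨[k4,k4,k16,k4,k36,k36],[(false,k0,[k0,k1,k2,k3,k4,k5])],[[[([z1,z0,z0,z0,z1,z1],z2)],[]]],
    [.leafM k0 [k0,k1,k2,k3,k4,k5] [(z1,[y1,z1])] [],
    .lp [k10,k8,k6,k6,k6,k8] [k0,k0,k1,k1,k2,k2,k2,k2,k2,k2,k1,k1] k0 [] k24 k5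
    [[(k8,k8),(k10,k9)],[(k5,k8),(k9,k8),(k3,k9)],[(k6,k7),(k2,k8),(k0,k9)],[(k5,k7),(k9,k7),(k3,k8)],[(k6,k6),(k2,
    k7),(k0,k8)],[(k4,k6),(k7,k6)],[(k4,k6),(k7,k6)],[(k5,k6),(k9,k6),(k3,k7)],[(k6,k6),(k2,k7),(k0,k8)],[(k11,k7),
    (k1,k8)],[(k8,k7),(k10,k8)],[(k11,k8),(k1,k9)]]
    [] k0
    [[k0,k1,k1,k1,k0,k0]]
    [.ref k0 k0 [(z1,[y1,z1])]]]⟩

/-- classes `0 0 1 0 2 2`, types `C0 C0 S0 C0 C0 C2` -/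
noncomputable def cT6_1055 : CertT :=
  ⟨[k4,k4,k16,k4,k36,k38],[(false,k0,[k0,k1,k2,k3,k4,k5])],[[[([z1,z0,z0,z0,z1,z1],z2)],[]]],
    [.leafM k0 [k0,k1,k2,k3,k4,k5] [(z1,[y1,z1])] [],
    .lp [k2,k4,k2,k2,k2,k2] [k1,k1,k0,k0,k1,k1,k1,k1,k1,k1,k1,k1] k0 [] k8 k5
    [[(k10,k2),(k11,k2)],[(k5,k2),(k9,k2),(k3,k3)],[(k0,k3),(k6,k3),(k2,k4)],[(k5,k3),(k9,k3),(k3,k4)],[(k0,k2),(k6,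
    k2),(k2,k3)],[(k4,k2),(k7,k2)],[(k4,k2),(k7,k2)],[(k5,k2),(k9,k2),(k3,k3)],[(k0,k2),(k6,k2),(k2,k3)],[(k10,k2),
    (k11,k2)],[(k1,k2),(k8,k2)],[(k1,k2),(k8,k2)]]
    [] k0
    [[k1,k0,k0,k0,k1,k1]]
    [.ref k0 k0 [(z1,[z1])]]]⟩

/-- classes `0 0 1 0 2 2`, types `C0 C0 S0 C0 N0 N1` -/
noncomputable def cT6_1056 : CertT :=
  ⟨[k4,k4,k16,k4,k44,k45],[],[[[]]],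
    [.lp [k6,k12,k6,k6,k6,k8] [k3,k3,k0,k0,k3,k3,k3,k3,k3,k3,k2,k2] k0 [] k24 k5
    [[(k8,k6)],[(k5,k6),(k9,k6),(k3,k9)],[(k0,k9),(k6,k9),(k2,k12)],[(k5,k9),(k9,k9),(k3,k12)],[(k0,k6),(k6,k6),(k2,
    k9)],[(k4,k6),(k7,k6)],[(k4,k6),(k7,k6)],[(k5,k6),(k9,k6),(k3,k9)],[(k0,k6),(k6,k6),(k2,k9)],[(k1,k6)],[(k10,k8)],
    [(k11,k8)]]
    [] k0
    []
    []]⟩

/-- classes `0 0 1 0 2 2`, types `C0 C0 S0 C0 N0 N2` -/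
noncomputable def cT6_1057 : CertT :=
  ⟨[k4,k4,k16,k4,k44,k46],[(false,k0,[k0,k1,k2,k3,k4,k5])],[[[([z1,z0,z0,z0,z1,z1],z2)],[]]],
    [.leafM k4 [k4,k5,k0,k1,k2,k3] [(z1,[y1,z1])] [],
    .lp [k2,k4,k2,k2,k2,k2] [k1,k1,k0,k0,k1,k1,k1,k1,k1,k1,k1,k1] k0 [] k8 k5
    [[(k11,k2)],[(k5,k2),(k9,k2),(k3,k3)],[(k0,k3),(k6,k3),(k2,k4)],[(k5,k3),(k9,k3),(k3,k4)],[(k0,k2),(k6,k2),(k2,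
    k3)],[(k4,k2),(k7,k2)],[(k4,k2),(k7,k2)],[(k5,k2),(k9,k2),(k3,k3)],[(k0,k2),(k6,k2),(k2,k3)],[(k10,k2)],[(k1,k2)],
    [(k8,k2)]]
    [] k0
    [[k1,k0,k0,k0,k1,k1]]
    [.ref k0 k0 [(z1,[z1])]]]⟩

/-- classes `0 0 1 0 2 2`, types `C0 C0 S0 C0 S0 S0` -/
noncomputable def cT6_1058 : CertT :=
  ⟨[k4,k4,k16,k4,k32,k32],[(false,k0,[k0,k1,k2,k3,k4,k5])],[[[([z1,z0,z0,z0,z1,z1],z2)],[]]],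
    [.leafM k0 [k0,k1,k2,k3,k4,k5] [(z1,[y1,z1])] [],
    .lp [k6,k12,k6,k6,k6,k8] [k3,k3,k0,k0,k3,k3,k3,k3,k3,k3,k2,k2] k0 [] k24 k5
    [[(k1,k6),(k8,k6),(k10,k7),(k11,k7)],[(k5,k6),(k9,k6),(k3,k9)],[(k0,k9),(k6,k9),(k2,k12)],[(k5,k9),(k9,k9),(k3,
    k12)],[(k0,k6),(k6,k6),(k2,k9)],[(k4,k6),(k7,k6)],[(k4,k6),(k7,k6)],[(k5,k6),(k9,k6),(k3,k9)],[(k0,k6),(k6,k6),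
    (k2,k9)],[(k1,k6),(k8,k6),(k10,k7),(k11,k7)],[(k1,k7),(k8,k7),(k10,k8),(k11,k8)],[(k1,k7),(k8,k7),(k10,k8),(k11,
    k8)]]
    [] k0
    [[k1,k0,k0,k0,k1,k1]]
    [.ref k0 k0 [(z1,[z1])]]]⟩

/-- classes `0 0 1 0 2 2`, types `C0 C0 S0 C2 B0 B1` -/
noncomputable def cT6_1059 : CertT :=
  ⟨[k4,k4,k16,k6,k40,k41],[],[[[]]],
    [.lp [k6,k8,k6,k6,k6,k8] [k1,k1,k0,k0,k1,k1,k1,k1,k1,k1,k0,k0] k0 [] k24 k5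
    [[(k8,k6),(k11,k7)],[(k5,k6),(k6,k6),(k3,k7)],[(k0,k7),(k9,k7),(k2,k8)],[(k5,k7),(k6,k7),(k3,k8)],[(k0,k6),(k9,
    k6),(k2,k7)],[(k4,k6),(k7,k6)],[(k4,k6),(k7,k6)],[(k0,k6),(k9,k6),(k2,k7)],[(k5,k6),(k6,k6),(k3,k7)],[(k1,k6),
    (k10,k7)],[(k1,k7),(k10,k8)],[(k8,k7),(k11,k8)]]
    [] k0
    []
    []]⟩

/-- classes `0 0 1 0 2 2`, types `C0 C0 S0 C2 C0 C0` -/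
noncomputable def cT6_1060 : CertT :=
  ⟨[k4,k4,k16,k6,k36,k36],[],[[[]]],
    [.lp [k6,k8,k6,k6,k6,k8] [k1,k1,k0,k0,k1,k1,k1,k1,k1,k1,k0,k0] k0 [] k24 k5
    [[(k8,k6),(k10,k7)],[(k5,k6),(k6,k6),(k3,k7)],[(k0,k7),(k9,k7),(k2,k8)],[(k5,k7),(k6,k7),(k3,k8)],[(k0,k6),(k9,
    k6),(k2,k7)],[(k4,k6),(k7,k6)],[(k4,k6),(k7,k6)],[(k0,k6),(k9,k6),(k2,k7)],[(k5,k6),(k6,k6),(k3,k7)],[(k1,k6),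
    (k11,k7)],[(k8,k7),(k10,k8)],[(k1,k7),(k11,k8)]]
    [] k0
    []
    []]⟩

/-- classes `0 0 1 0 2 2`, types `C0 C0 S0 C2 C0 C2` -/
noncomputable def cT6_1061 : CertT :=
  ⟨[k4,k4,k16,k6,k36,k38],[],[[[]]],
    [.lp [k6,k8,k6,k6,k6,k6] [k1,k1,k0,k0,k1,k1,k1,k1,k1,k1,k1,k1] k0 [] k24 k5
    [[(k10,k6),(k11,k6)],[(k5,k6),(k6,k6),(k3,k7)],[(k0,k7),(k9,k7),(k2,k8)],[(k5,k7),(k6,k7),(k3,k8)],[(k0,k6),(k9,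
    k6),(k2,k7)],[(k4,k6),(k7,k6)],[(k4,k6),(k7,k6)],[(k0,k6),(k9,k6),(k2,k7)],[(k5,k6),(k6,k6),(k3,k7)],[(k10,k6),
    (k11,k6)],[(k1,k6),(k8,k6)],[(k1,k6),(k8,k6)]]
    [] k0
    []
    []]⟩

/-- classes `0 0 1 0 2 2`, types `C0 C0 S0 C2 N0 N1` -/
noncomputable def cT6_1062 : CertT :=
  ⟨[k4,k4,k16,k6,k44,k45],[],[[[]]],
    [.lp [k6,k8,k6,k6,k6,k8] [k1,k1,k0,k0,k1,k1,k1,k1,k1,k1,k0,k0] k0 [] k24 k5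
    [[(k8,k6)],[(k5,k6),(k6,k6),(k3,k7)],[(k0,k7),(k9,k7),(k2,k8)],[(k5,k7),(k6,k7),(k3,k8)],[(k0,k6),(k9,k6),(k2,
    k7)],[(k4,k6),(k7,k6)],[(k4,k6),(k7,k6)],[(k0,k6),(k9,k6),(k2,k7)],[(k5,k6),(k6,k6),(k3,k7)],[(k1,k6)],[(k10,k8)],
    [(k11,k8)]]
    [] k0
    []
    []]⟩

/-- classes `0 0 1 0 2 2`, types `C0 C0 S0 C2 N0 N2` -/
noncomputable def cT6_1063 : CertT :=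
  ⟨[k4,k4,k16,k6,k44,k46],[],[[[]]],
    [.lp [k6,k8,k6,k6,k6,k6] [k1,k1,k0,k0,k1,k1,k1,k1,k1,k1,k1,k1] k0 [] k24 k5
    [[(k11,k6)],[(k5,k6),(k6,k6),(k3,k7)],[(k0,k7),(k9,k7),(k2,k8)],[(k5,k7),(k6,k7),(k3,k8)],[(k0,k6),(k9,k6),(k2,
    k7)],[(k4,k6),(k7,k6)],[(k4,k6),(k7,k6)],[(k0,k6),(k9,k6),(k2,k7)],[(k5,k6),(k6,k6),(k3,k7)],[(k10,k6)],[(k1,k6)],
    [(k8,k6)]]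
    [] k0
    []
    []]⟩

/-- classes `0 0 1 0 2 2`, types `C0 C0 S0 C2 S0 S0` -/
noncomputable def cT6_1064 : CertT :=
  ⟨[k4,k4,k16,k6,k32,k32],[],[[[]]],
    [.lp [k6,k8,k6,k6,k6,k8] [k1,k1,k0,k0,k1,k1,k1,k1,k1,k1,k0,k0] k0 [] k24 k5
    [[(k1,k6),(k8,k6),(k10,k7),(k11,k7)],[(k5,k6),(k6,k6),(k3,k7)],[(k0,k7),(k9,k7),(k2,k8)],[(k5,k7),(k6,k7),(k3,
    k8)],[(k0,k6),(k9,k6),(k2,k7)],[(k4,k6),(k7,k6)],[(k4,k6),(k7,k6)],[(k0,k6),(k9,k6),(k2,k7)],[(k5,k6),(k6,k6),(k3,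
    k7)],[(k1,k6),(k8,k6),(k10,k7),(k11,k7)],[(k1,k7),(k8,k7),(k10,k8),(k11,k8)],[(k1,k7),(k8,k7),(k10,k8),(k11,k8)]]
    [] k0
    []
    []]⟩

/-- classes `0 0 1 0 2 2`, types `C0 C2 C0 C0 B0 B1` -/
noncomputable def cT6_1065 : CertT :=
  ⟨[k4,k6,k20,k4,k40,k41],[(false,k0,[k0,k1,k2,k3,k4,k5])],[[[([z1,z0,z0,z0,z1,z1],z2)],[]]],
    [.leafM k4 [k4,k5,k0,k1,k2,k3] [(z1,[y1,z1])] [],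
    .lp [k6,k12,k6,k6,k6,k8] [k3,k3,k0,k0,k3,k3,k3,k3,k3,k3,k2,k2] k0 [] k24 k5
    [[(k8,k6),(k11,k7)],[(k9,k6),(k2,k9),(k3,k9)],[(k0,k9),(k5,k9),(k6,k9)],[(k0,k9),(k5,k9),(k6,k9)],[(k9,k6),(k2,
    k9),(k3,k9)],[(k7,k6)],[(k4,k6)],[(k9,k6),(k2,k9),(k3,k9)],[(k0,k6),(k5,k6),(k6,k6)],[(k1,k6),(k10,k7)],[(k1,k7),
    (k10,k8)],[(k8,k7),(k11,k8)]]
    [] k0
    [[k1,k0,k0,k0,k1,k1]]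
    [.ref k0 k0 [(z1,[z1])]]]⟩

/-- classes `0 0 1 0 2 2`, types `C0 C2 C0 C0 C0 C0` -/
noncomputable def cT6_1066 : CertT :=
  ⟨[k4,k6,k20,k4,k36,k36],[(false,k0,[k0,k1,k2,k3,k4,k5])],[[[([z1,z0,z0,z0,z1,z1],z2)],[]]],
    [.leafM k0 [k0,k1,k2,k3,k4,k5] [(z1,[y1,z1])] [],
    .lp [k4,k2,k4,k6,k2,k4] [k1,k1,k2,k2,k1,k1,k0,k0,k2,k2,k1,k1] k0 [] k12 k5
    [[(k8,k3),(k10,k4)],[(k2,k3),(k3,k3),(k9,k3)],[(k0,k3),(k5,k3),(k6,k4)],[(k0,k3),(k5,k3),(k6,k4)],[(k2,k3),(k3,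
    k3),(k9,k3)],[(k7,k5)],[(k4,k5)],[(k2,k4),(k3,k4),(k9,k4)],[(k0,k3),(k5,k3),(k6,k4)],[(k1,k3),(k11,k3)],[(k8,k3),
    (k10,k4)],[(k1,k4),(k11,k4)]]
    [] k0
    [[k1,k0,k0,k0,k1,k1]]
    [.ref k0 k0 [(z1,[z1])]]]⟩

/-- classes `0 0 1 0 2 2`, types `C0 C2 C0 C0 C0 C2` -/
noncomputable def cT6_1067 : CertT :=
  ⟨[k4,k6,k20,k4,k36,k38],[(false,k0,[k0,k1,k2,k3,k4,k5])],[[[([z1,z0,z0,z0,z1,z1],z2)],[]]],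
    [.leafM k0 [k0,k1,k2,k3,k4,k5] [(z1,[y1,z1])] [],
    .lp [k2,k2,k2,k4,k2,k2] [k1,k1,k1,k1,k1,k1,k0,k0,k1,k1,k1,k1] k0 [] k8 k5
    [[(k10,k2),(k11,k2)],[(k2,k2),(k3,k2),(k9,k2)],[(k0,k2),(k5,k2),(k6,k3)],[(k0,k2),(k5,k2),(k6,k3)],[(k2,k2),(k3,
    k2),(k9,k2)],[(k7,k3)],[(k4,k3)],[(k2,k3),(k3,k3),(k9,k3)],[(k0,k2),(k5,k2),(k6,k3)],[(k10,k2),(k11,k2)],[(k1,k2),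
    (k8,k2)],[(k1,k2),(k8,k2)]]
    [] k0
    [[k1,k0,k0,k0,k1,k1]]
    [.ref k0 k0 [(z1,[z1])]]]⟩

/-- classes `0 0 1 0 2 2`, types `C0 C2 C0 C0 N0 N1` -/
noncomputable def cT6_1068 : CertT :=
  ⟨[k4,k6,k20,k4,k44,k45],[],[[[]]],
    [.lp [k6,k0,k6,k6,k0,k4] [k0,k0,k3,k3,k0,k0,k0,k0,k3,k3,k1,k1] k0 [] k12 k5
    [[(k8,k3)],[(k2,k3),(k3,k3),(k9,k3)],[(k0,k3),(k5,k3),(k6,k3)],[(k0,k3),(k5,k3),(k6,k3)],[(k2,k3),(k3,k3),(k9,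
    k3)],[(k7,k6)],[(k4,k6)],[(k2,k3),(k3,k3),(k9,k3)],[(k0,k3),(k5,k3),(k6,k3)],[(k1,k3)],[(k10,k4)],[(k11,k4)]]
    [] k0
    []
    []]⟩

/-- classes `0 0 1 0 2 2`, types `C0 C2 C0 C0 N0 N2` -/
noncomputable def cT6_1069 : CertT :=
  ⟨[k4,k6,k20,k4,k44,k46],[(false,k0,[k0,k1,k2,k3,k4,k5])],[[[([z1,z0,z0,z0,z1,z1],z2)],[]]],
    [.leafM k4 [k4,k5,k0,k1,k2,k3] [(z1,[y1,z1])] [],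
    .lp [k2,k2,k2,k4,k2,k2] [k1,k1,k1,k1,k1,k1,k0,k0,k1,k1,k1,k1] k0 [] k8 k5
    [[(k11,k2)],[(k2,k2),(k3,k2),(k9,k2)],[(k0,k2),(k5,k2),(k6,k3)],[(k0,k2),(k5,k2),(k6,k3)],[(k2,k2),(k3,k2),(k9,
    k2)],[(k7,k3)],[(k4,k3)],[(k2,k3),(k3,k3),(k9,k3)],[(k0,k2),(k5,k2),(k6,k3)],[(k10,k2)],[(k1,k2)],[(k8,k2)]]
    [] k0
    [[k1,k0,k0,k0,k1,k1]]
    [.ref k0 k0 [(z1,[z1])]]]⟩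

/-- classes `0 0 1 0 2 2`, types `C0 C2 C0 C0 S0 S0` -/
noncomputable def cT6_1070 : CertT :=
  ⟨[k4,k6,k20,k4,k32,k32],[(false,k0,[k0,k1,k2,k3,k4,k5])],[[[([z1,z0,z0,z0,z1,z1],z2)],[]]],
    [.leafM k0 [k0,k1,k2,k3,k4,k5] [(z1,[y1,z1])] [],
    .lp [k6,k12,k6,k6,k6,k8] [k3,k3,k0,k0,k3,k3,k3,k3,k3,k3,k2,k2] k0 [] k24 k5
    [[(k1,k6),(k8,k6),(k10,k7),(k11,k7)],[(k9,k6),(k2,k9),(k3,k9)],[(k0,k9),(k5,k9),(k6,k9)],[(k0,k9),(k5,k9),(k6,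
    k9)],[(k9,k6),(k2,k9),(k3,k9)],[(k7,k6)],[(k4,k6)],[(k9,k6),(k2,k9),(k3,k9)],[(k0,k6),(k5,k6),(k6,k6)],[(k1,k6),
    (k8,k6),(k10,k7),(k11,k7)],[(k1,k7),(k8,k7),(k10,k8),(k11,k8)],[(k1,k7),(k8,k7),(k10,k8),(k11,k8)]]
    [] k0
    [[k1,k0,k0,k0,k1,k1]]
    [.ref k0 k0 [(z1,[z1])]]]⟩

/-- classes `0 0 1 0 2 2`, types `C0 C2 C0 C2 B0 B1` -/
noncomputable def cT6_1071 : CertT :=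
  ⟨[k4,k6,k20,k6,k40,k41],[],[[[]]],
    [.lp [k4,k6,k2,k4,k2,k4] [k1,k1,k0,k0,k2,k2,k1,k1,k2,k2,k1,k1] k0 [] k12 k5
    [[(k8,k3),(k11,k4)],[(k6,k4),(k2,k5),(k3,k5)],[(k5,k4),(k9,k4),(k0,k5)],[(k5,k4),(k9,k4),(k0,k5)],[(k6,k3),(k2,
    k4),(k3,k4)],[(k7,k3)],[(k4,k3)],[(k5,k3),(k9,k3),(k0,k4)],[(k6,k3),(k2,k4),(k3,k4)],[(k1,k3),(k10,k3)],[(k1,k4),
    (k10,k4)],[(k8,k3),(k11,k4)]]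
    [] k0
    []
    []]⟩

/-- classes `0 0 1 0 2 2`, types `C0 C2 C0 C2 C0 C0` -/
noncomputable def cT6_1072 : CertT :=
  ⟨[k4,k6,k20,k6,k36,k36],[],[[[]]],
    [.lp [k2,k6,k0,k6,k4,k4] [k2,k2,k0,k0,k3,k3,k0,k0,k1,k1,k1,k1] k0 [] k12 k5
    [[(k8,k3),(k10,k3)],[(k2,k4),(k3,k4),(k6,k4)],[(k5,k3),(k0,k4),(k9,k5)],[(k5,k3),(k0,k4),(k9,k5)],[(k2,k3),(k3,
    k3),(k6,k3)],[(k7,k3)],[(k4,k3)],[(k5,k3),(k0,k4),(k9,k5)],[(k2,k5),(k3,k5),(k6,k5)],[(k1,k3),(k11,k4)],[(k8,k4),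
    (k10,k4)],[(k1,k3),(k11,k4)]]
    [] k0
    []
    []]⟩

/-- classes `0 0 1 0 2 2`, types `C0 C2 C0 C2 C0 C2` -/
noncomputable def cT6_1073 : CertT :=
  ⟨[k4,k6,k20,k6,k36,k38],[],[[[]]],
    [.lp [k0,k2,k0,k2,k0,k2] [k1,k1,k0,k0,k1,k1,k0,k0,k1,k1,k0,k0] k0 [] k4 k5
    [[(k10,k1),(k11,k1)],[(k2,k1),(k3,k1),(k6,k1)],[(k0,k1),(k5,k1),(k9,k1)],[(k0,k1),(k5,k1),(k9,k1)],[(k2,k1),(k3,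
    k1),(k6,k1)],[(k7,k1)],[(k4,k1)],[(k0,k1),(k5,k1),(k9,k1)],[(k2,k1),(k3,k1),(k6,k1)],[(k10,k1),(k11,k1)],[(k1,k1),
    (k8,k1)],[(k1,k1),(k8,k1)]]
    [] k0
    []
    []]⟩

/-- classes `0 0 1 0 2 2`, types `C0 C2 C0 C2 N0 N1` -/
noncomputable def cT6_1074 : CertT :=
  ⟨[k4,k6,k20,k6,k44,k45],[],[[[]]],
    [.lp [k0,k6,k0,k6,k6,k4] [k3,k3,k0,k0,k3,k3,k0,k0,k0,k0,k1,k1] k0 [] k12 k5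
    [[(k8,k3)],[(k2,k3),(k3,k3),(k6,k3)],[(k0,k3),(k5,k3),(k9,k6)],[(k0,k3),(k5,k3),(k9,k6)],[(k2,k3),(k3,k3),(k6,
    k3)],[(k7,k3)],[(k4,k3)],[(k0,k3),(k5,k3),(k9,k6)],[(k2,k6),(k3,k6),(k6,k6)],[(k1,k3)],[(k10,k4)],[(k11,k4)]]
    [] k0
    []
    []]⟩

/-- classes `0 0 1 0 2 2`, types `C0 C2 C0 C2 N0 N2` -/
noncomputable def cT6_1075 : CertT :=
  ⟨[k4,k6,k20,k6,k44,k46],[],[[[]]],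
    [.lp [k0,k2,k0,k2,k0,k2] [k1,k1,k0,k0,k1,k1,k0,k0,k1,k1,k0,k0] k0 [] k4 k5
    [[(k11,k1)],[(k2,k1),(k3,k1),(k6,k1)],[(k0,k1),(k5,k1),(k9,k1)],[(k0,k1),(k5,k1),(k9,k1)],[(k2,k1),(k3,k1),(k6,
    k1)],[(k7,k1)],[(k4,k1)],[(k0,k1),(k5,k1),(k9,k1)],[(k2,k1),(k3,k1),(k6,k1)],[(k10,k1)],[(k1,k1)],[(k8,k1)]]
    [] k0
    []
    []]⟩

/-- classes `0 0 1 0 2 2`, types `C0 C2 C0 C2 S0 S0` -/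
noncomputable def cT6_1076 : CertT :=
  ⟨[k4,k6,k20,k6,k32,k32],[],[[[]]],
    [.lp [k6,k12,k0,k12,k6,k8] [k3,k3,k0,k0,k6,k6,k0,k0,k3,k3,k2,k2] k0 [] k24 k5
    [[(k1,k6),(k8,k6),(k10,k7),(k11,k7)],[(k2,k9),(k3,k9),(k6,k9)],[(k5,k6),(k0,k9),(k9,k9)],[(k5,k6),(k0,k9),(k9,
    k9)],[(k2,k6),(k3,k6),(k6,k6)],[(k7,k6)],[(k4,k6)],[(k5,k6),(k0,k9),(k9,k9)],[(k2,k9),(k3,k9),(k6,k9)],[(k1,k6),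
    (k8,k6),(k10,k7),(k11,k7)],[(k1,k7),(k8,k7),(k10,k8),(k11,k8)],[(k1,k7),(k8,k7),(k10,k8),(k11,k8)]]
    [] k0
    []
    []]⟩

/-- classes `0 0 1 0 2 2`, types `C0 C2 S0 C0 B0 B1` -/
noncomputable def cT6_1077 : CertT :=
  ⟨[k4,k6,k16,k4,k40,k41],[(false,k0,[k0,k1,k2,k3,k4,k5])],[[[([z1,z0,z0,z0,z1,z1],z2)],[]]],
    [.leafM k4 [k4,k5,k0,k1,k2,k3] [(z1,[y1,z1])] [],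
    .lp [k18,k18,k12,k16,k12,k16] [k0,k0,k0,k0,k3,k3,k1,k1,k3,k3,k1,k1] k0 [[k0,k0,k0,k6],[k0,k0,k0,k0,k0,k0,k0,k2],[k0,
    k6],[],[],[],[k2]] k48 k5
    [[(k8,k15),(k11,k17)],[(k2,k12),(k9,k17),(k3,k18)],[(k6,k15),(k0,k18),(k5,k21)],[(k0,k12),(k5,k15),(k6,k17)],[(k9,
    k12),(k2,k15),(k3,k21)],[(k4,k12),(k7,k14)],[(k4,k14),(k7,k16)],[(k9,k14),(k3,k15),(k2,k17)],[(k5,k12),(k6,k14),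
    (k0,k17)],[(k10,k14),(k1,k15)],[(k10,k16),(k1,k17)],[(k8,k14),(k11,k16)]]
    [] k0
    [[k0,k1,k1,k1,k0,k0]]
    [.ref k0 k0 [(z1,[y1,z1])]]]⟩

/-- classes `0 0 1 0 2 2`, types `C0 C2 S0 C0 C0 C0` -/
noncomputable def cT6_1078 : CertT :=
  ⟨[k4,k6,k16,k4,k36,k36],[(false,k0,[k0,k1,k2,k3,k4,k5])],[[[([z1,z0,z0,z0,z1,z1],z2)],[]]],
    [.leafM k0 [k0,k1,k2,k3,k4,k5] [(z1,[y1,z1])] [],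
    .lp [k6,k12,k6,k6,k6,k8] [k3,k3,k0,k0,k3,k3,k3,k3,k3,k3,k2,k2] k0 [] k24 k5
    [[(k8,k6),(k10,k7)],[(k9,k6),(k2,k9),(k3,k9)],[(k0,k9),(k5,k9),(k6,k9)],[(k0,k9),(k5,k9),(k6,k9)],[(k9,k6),(k2,
    k9),(k3,k9)],[(k4,k6),(k7,k6)],[(k4,k6),(k7,k6)],[(k9,k6),(k2,k9),(k3,k9)],[(k0,k6),(k5,k6),(k6,k6)],[(k1,k6),
    (k11,k7)],[(k8,k7),(k10,k8)],[(k1,k7),(k11,k8)]]
    [] k0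
    [[k1,k0,k0,k0,k1,k1]]
    [.ref k0 k0 [(z1,[z1])]]]⟩

/-- classes `0 0 1 0 2 2`, types `C0 C2 S0 C0 C0 C2` -/
noncomputable def cT6_1079 : CertT :=
  ⟨[k4,k6,k16,k4,k36,k38],[(false,k0,[k0,k1,k2,k3,k4,k5])],[[[([z1,z0,z0,z0,z1,z1],z2)],[]]],
    [.leafM k0 [k0,k1,k2,k3,k4,k5] [(z1,[y1,z1])] [],
    .lp [k2,k4,k2,k2,k2,k2] [k1,k1,k0,k0,k1,k1,k1,k1,k1,k1,k1,k1] k0 [] k8 k5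
    [[(k10,k2),(k11,k2)],[(k9,k2),(k2,k3),(k3,k3)],[(k0,k3),(k5,k3),(k6,k3)],[(k0,k3),(k5,k3),(k6,k3)],[(k9,k2),(k2,
    k3),(k3,k3)],[(k4,k2),(k7,k2)],[(k4,k2),(k7,k2)],[(k9,k2),(k2,k3),(k3,k3)],[(k0,k2),(k5,k2),(k6,k2)],[(k10,k2),
    (k11,k2)],[(k1,k2),(k8,k2)],[(k1,k2),(k8,k2)]]
    [] k0
    [[k1,k0,k0,k0,k1,k1]]
    [.ref k0 k0 [(z1,[z1])]]]⟩

/-- classes `0 0 1 0 2 2`, types `C0 C2 S0 C0 N0 N1` -/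
noncomputable def cT6_1080 : CertT :=
  ⟨[k4,k6,k16,k4,k44,k45],[],[[[]]],
    [.lp [k6,k12,k6,k6,k6,k8] [k3,k3,k0,k0,k3,k3,k3,k3,k3,k3,k2,k2] k0 [] k24 k5
    [[(k8,k6)],[(k9,k6),(k2,k9),(k3,k9)],[(k0,k9),(k5,k9),(k6,k9)],[(k0,k9),(k5,k9),(k6,k9)],[(k9,k6),(k2,k9),(k3,
    k9)],[(k4,k6),(k7,k6)],[(k4,k6),(k7,k6)],[(k9,k6),(k2,k9),(k3,k9)],[(k0,k6),(k5,k6),(k6,k6)],[(k1,k6)],[(k10,k8)],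
    [(k11,k8)]]
    [] k0
    []
    []]⟩

/-- classes `0 0 1 0 2 2`, types `C0 C2 S0 C0 N0 N2` -/
noncomputable def cT6_1081 : CertT :=
  ⟨[k4,k6,k16,k4,k44,k46],[(false,k0,[k0,k1,k2,k3,k4,k5])],[[[([z1,z0,z0,z0,z1,z1],z2)],[]]],
    [.leafM k4 [k4,k5,k0,k1,k2,k3] [(z1,[y1,z1])] [],
    .lp [k2,k4,k2,k2,k2,k2] [k1,k1,k0,k0,k1,k1,k1,k1,k1,k1,k1,k1] k0 [] k8 k5
    [[(k11,k2)],[(k9,k2),(k2,k3),(k3,k3)],[(k0,k3),(k5,k3),(k6,k3)],[(k0,k3),(k5,k3),(k6,k3)],[(k9,k2),(k2,k3),(k3,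
    k3)],[(k4,k2),(k7,k2)],[(k4,k2),(k7,k2)],[(k9,k2),(k2,k3),(k3,k3)],[(k0,k2),(k5,k2),(k6,k2)],[(k10,k2)],[(k1,k2)],
    [(k8,k2)]]
    [] k0
    [[k1,k0,k0,k0,k1,k1]]
    [.ref k0 k0 [(z1,[z1])]]]⟩

/-- classes `0 0 1 0 2 2`, types `C0 C2 S0 C0 S0 S0` -/
noncomputable def cT6_1082 : CertT :=
  ⟨[k4,k6,k16,k4,k32,k32],[(false,k0,[k0,k1,k2,k3,k4,k5])],[[[([z1,z0,z0,z0,z1,z1],z2)],[]]],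
    [.leafM k0 [k0,k1,k2,k3,k4,k5] [(z1,[y1,z1])] [],
    .lp [k6,k12,k6,k6,k6,k8] [k3,k3,k0,k0,k3,k3,k3,k3,k3,k3,k2,k2] k0 [] k24 k5
    [[(k1,k6),(k8,k6),(k10,k7),(k11,k7)],[(k9,k6),(k2,k9),(k3,k9)],[(k0,k9),(k5,k9),(k6,k9)],[(k0,k9),(k5,k9),(k6,
    k9)],[(k9,k6),(k2,k9),(k3,k9)],[(k4,k6),(k7,k6)],[(k4,k6),(k7,k6)],[(k9,k6),(k2,k9),(k3,k9)],[(k0,k6),(k5,k6),(k6,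
    k6)],[(k1,k6),(k8,k6),(k10,k7),(k11,k7)],[(k1,k7),(k8,k7),(k10,k8),(k11,k8)],[(k1,k7),(k8,k7),(k10,k8),(k11,k8)]]
    [] k0
    [[k1,k0,k0,k0,k1,k1]]
    [.ref k0 k0 [(z1,[z1])]]]⟩

/-- classes `0 0 1 0 2 2`, types `C0 C2 S0 C2 B0 B1` -/
noncomputable def cT6_1083 : CertT :=
  ⟨[k4,k6,k16,k6,k40,k41],[],[[[]]],
    [.lp [k6,k12,k6,k6,k6,k8] [k3,k3,k0,k0,k3,k3,k3,k3,k3,k3,k2,k2] k0 [] k24 k5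
    [[(k8,k6),(k11,k7)],[(k6,k6),(k2,k9),(k3,k9)],[(k0,k9),(k5,k9),(k9,k9)],[(k0,k9),(k5,k9),(k9,k9)],[(k6,k6),(k2,
    k9),(k3,k9)],[(k4,k6),(k7,k6)],[(k4,k6),(k7,k6)],[(k0,k6),(k5,k6),(k9,k6)],[(k6,k6),(k2,k9),(k3,k9)],[(k1,k6),
    (k10,k7)],[(k1,k7),(k10,k8)],[(k8,k7),(k11,k8)]]
    [] k0
    []
    []]⟩

/-- classes `0 0 1 0 2 2`, types `C0 C2 S0 C2 C0 C0` -/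
noncomputable def cT6_1084 : CertT :=
  ⟨[k4,k6,k16,k6,k36,k36],[],[[[]]],
    [.lp [k6,k12,k6,k6,k6,k8] [k3,k3,k0,k0,k3,k3,k3,k3,k3,k3,k2,k2] k0 [] k24 k5
    [[(k8,k6),(k10,k7)],[(k6,k6),(k2,k9),(k3,k9)],[(k0,k9),(k5,k9),(k9,k9)],[(k0,k9),(k5,k9),(k9,k9)],[(k6,k6),(k2,
    k9),(k3,k9)],[(k4,k6),(k7,k6)],[(k4,k6),(k7,k6)],[(k0,k6),(k5,k6),(k9,k6)],[(k6,k6),(k2,k9),(k3,k9)],[(k1,k6),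
    (k11,k7)],[(k8,k7),(k10,k8)],[(k1,k7),(k11,k8)]]
    [] k0
    []
    []]⟩

/-- classes `0 0 1 0 2 2`, types `C0 C2 S0 C2 C0 C2` -/
noncomputable def cT6_1085 : CertT :=
  ⟨[k4,k6,k16,k6,k36,k38],[],[[[]]],
    [.lp [k4,k4,k6,k4,k4,k4] [k1,k1,k1,k1,k0,k0,k1,k1,k1,k1,k1,k1] k0 [] k16 k5
    [[(k10,k4),(k11,k4)],[(k2,k4),(k3,k4),(k6,k4)],[(k0,k4),(k9,k4),(k5,k5)],[(k0,k4),(k9,k4),(k5,k5)],[(k2,k5),(k3,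
    k5),(k6,k5)],[(k7,k5),(k4,k6)],[(k7,k4),(k4,k5)],[(k0,k4),(k9,k4),(k5,k5)],[(k2,k4),(k3,k4),(k6,k4)],[(k10,k4),
    (k11,k4)],[(k1,k4),(k8,k4)],[(k1,k4),(k8,k4)]]
    [] k0
    []
    []]⟩

/-- classes `0 0 1 0 2 2`, types `C0 C2 S0 C2 N0 N1` -/
noncomputable def cT6_1086 : CertT :=
  ⟨[k4,k6,k16,k6,k44,k45],[],[[[]]],
    [.lp [k6,k12,k6,k6,k6,k8] [k3,k3,k0,k0,k3,k3,k3,k3,k3,k3,k2,k2] k0 [] k24 k5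
    [[(k8,k6)],[(k6,k6),(k2,k9),(k3,k9)],[(k0,k9),(k5,k9),(k9,k9)],[(k0,k9),(k5,k9),(k9,k9)],[(k6,k6),(k2,k9),(k3,
    k9)],[(k4,k6),(k7,k6)],[(k4,k6),(k7,k6)],[(k0,k6),(k5,k6),(k9,k6)],[(k6,k6),(k2,k9),(k3,k9)],[(k1,k6)],[(k10,k8)],
    [(k11,k8)]]
    [] k0
    []
    []]⟩

/-- classes `0 0 1 0 2 2`, types `C0 C2 S0 C2 N0 N2` -/
noncomputable def cT6_1087 : CertT :=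
  ⟨[k4,k6,k16,k6,k44,k46],[],[[[]]],
    [.lp [k4,k4,k6,k4,k4,k4] [k1,k1,k1,k1,k0,k0,k1,k1,k1,k1,k1,k1] k0 [] k16 k5
    [[(k11,k4)],[(k2,k4),(k3,k4),(k6,k4)],[(k0,k4),(k9,k4),(k5,k5)],[(k0,k4),(k9,k4),(k5,k5)],[(k2,k5),(k3,k5),(k6,
    k5)],[(k7,k5),(k4,k6)],[(k7,k4),(k4,k5)],[(k0,k4),(k9,k4),(k5,k5)],[(k2,k4),(k3,k4),(k6,k4)],[(k10,k4)],[(k1,k4)],
    [(k8,k4)]]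
    [] k0
    []
    []]⟩

/-- classes `0 0 1 0 2 2`, types `C0 C2 S0 C2 S0 S0` -/
noncomputable def cT6_1088 : CertT :=
  ⟨[k4,k6,k16,k6,k32,k32],[],[[[]]],
    [.lp [k6,k12,k6,k6,k6,k8] [k3,k3,k0,k0,k3,k3,k3,k3,k3,k3,k2,k2] k0 [] k24 k5
    [[(k1,k6),(k8,k6),(k10,k7),(k11,k7)],[(k6,k6),(k2,k9),(k3,k9)],[(k0,k9),(k5,k9),(k9,k9)],[(k0,k9),(k5,k9),(k9,
    k9)],[(k6,k6),(k2,k9),(k3,k9)],[(k4,k6),(k7,k6)],[(k4,k6),(k7,k6)],[(k0,k6),(k5,k6),(k9,k6)],[(k6,k6),(k2,k9),(k3,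
    k9)],[(k1,k6),(k8,k6),(k10,k7),(k11,k7)],[(k1,k7),(k8,k7),(k10,k8),(k11,k8)],[(k1,k7),(k8,k7),(k10,k8),(k11,k8)]]
    [] k0
    []
    []]⟩

/-- classes `0 0 1 0 2 2`, types `S0 S0 C0 S0 B0 B1` -/
noncomputable def cT6_1089 : CertT :=
  ⟨[k0,k0,k20,k0,k40,k41],[(false,k0,[k0,k1,k2,k3,k4,k5])],[[[([z1,z0,z0,z0,z1,z1],z2)],[]]],
    [.leafM k4 [k4,k5,k0,k1,k2,k3] [(z1,[y1,z1])] [],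
    .lp [k10,k8,k6,k6,k6,k8] [k0,k0,k1,k1,k2,k2,k2,k2,k2,k2,k1,k1] k0 [] k24 k5
    [[(k8,k8),(k11,k9)],[(k5,k8),(k6,k8),(k9,k8),(k2,k9),(k3,k9),(k0,k10)],[(k5,k7),(k6,k7),(k9,k7),(k2,k8),(k3,k8),
    (k0,k9)],[(k5,k7),(k6,k7),(k9,k7),(k2,k8),(k3,k8),(k0,k9)],[(k5,k6),(k6,k6),(k9,k6),(k2,k7),(k3,k7),(k0,k8)],[(k7,
    k6)],[(k4,k6)],[(k5,k6),(k6,k6),(k9,k6),(k2,k7),(k3,k7),(k0,k8)],[(k5,k6),(k6,k6),(k9,k6),(k2,k7),(k3,k7),(k0,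
    k8)],[(k10,k7),(k1,k8)],[(k10,k8),(k1,k9)],[(k8,k7),(k11,k8)]]
    [] k0
    [[k0,k1,k1,k1,k0,k0]]
    [.ref k0 k0 [(z1,[y1,z1])]]]⟩

/-- classes `0 0 1 0 2 2`, types `S0 S0 C0 S0 C0 C0` -/
noncomputable def cT6_1090 : CertT :=
  ⟨[k0,k0,k20,k0,k36,k36],[(false,k0,[k0,k1,k2,k3,k4,k5])],[[[([z1,z0,z0,z0,z1,z1],z2)],[]]],
    [.leafM k0 [k0,k1,k2,k3,k4,k5] [(z1,[y1,z1])] [],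
    .lp [k6,k12,k6,k6,k6,k8] [k3,k3,k0,k0,k3,k3,k3,k3,k3,k3,k2,k2] k0 [] k24 k5
    [[(k8,k6),(k10,k7)],[(k0,k6),(k5,k6),(k6,k6),(k9,k6),(k2,k9),(k3,k9)],[(k0,k9),(k5,k9),(k6,k9),(k9,k9),(k2,k12),
    (k3,k12)],[(k0,k9),(k5,k9),(k6,k9),(k9,k9),(k2,k12),(k3,k12)],[(k0,k6),(k5,k6),(k6,k6),(k9,k6),(k2,k9),(k3,k9)],
    [(k7,k6)],[(k4,k6)],[(k0,k6),(k5,k6),(k6,k6),(k9,k6),(k2,k9),(k3,k9)],[(k0,k6),(k5,k6),(k6,k6),(k9,k6),(k2,k9),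
    (k3,k9)],[(k1,k6),(k11,k7)],[(k8,k7),(k10,k8)],[(k1,k7),(k11,k8)]]
    [] k0
    [[k1,k0,k0,k0,k1,k1]]
    [.ref k0 k0 [(z1,[z1])]]]⟩

/-- classes `0 0 1 0 2 2`, types `S0 S0 C0 S0 C0 C2` -/
noncomputable def cT6_1091 : CertT :=
  ⟨[k0,k0,k20,k0,k36,k38],[(false,k0,[k0,k1,k2,k3,k4,k5])],[[[([z1,z0,z0,z0,z1,z1],z2)],[]]],
    [.leafM k0 [k0,k1,k2,k3,k4,k5] [(z1,[y1,z1])] [],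
    .lp [k12,k8,k6,k6,k12,k0] [k0,k0,k2,k2,k3,k3,k3,k3,k0,k0,k6,k6] k0 [] k24 k5
    [[(k10,k6),(k11,k6)],[(k5,k9),(k6,k9),(k2,k10),(k3,k10),(k0,k12),(k9,k12)],[(k5,k7),(k6,k7),(k2,k8),(k3,k8),(k0,
    k10),(k9,k10)],[(k5,k7),(k6,k7),(k2,k8),(k3,k8),(k0,k10),(k9,k10)],[(k5,k6),(k6,k6),(k2,k7),(k3,k7),(k0,k9),(k9,
    k9)],[(k7,k6)],[(k4,k6)],[(k5,k6),(k6,k6),(k2,k7),(k3,k7),(k0,k9),(k9,k9)],[(k5,k9),(k6,k9),(k2,k10),(k3,k10),(k0,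
    k12),(k9,k12)],[(k10,k6),(k11,k6)],[(k1,k6),(k8,k6)],[(k1,k6),(k8,k6)]]
    [] k0
    [[k0,k1,k1,k1,k0,k0]]
    [.ref k0 k0 [(z1,[y1,z1])]]]⟩

/-- classes `0 0 1 0 2 2`, types `S0 S0 C0 S0 N0 N1` -/
noncomputable def cT6_1092 : CertT :=
  ⟨[k0,k0,k20,k0,k44,k45],[],[[[]]],
    [.lp [k6,k12,k6,k6,k6,k8] [k3,k3,k0,k0,k3,k3,k3,k3,k3,k3,k2,k2] k0 [] k24 k5
    [[(k8,k6)],[(k0,k6),(k5,k6),(k6,k6),(k9,k6),(k2,k9),(k3,k9)],[(k0,k9),(k5,k9),(k6,k9),(k9,k9),(k2,k12),(k3,k12)],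
    [(k0,k9),(k5,k9),(k6,k9),(k9,k9),(k2,k12),(k3,k12)],[(k0,k6),(k5,k6),(k6,k6),(k9,k6),(k2,k9),(k3,k9)],[(k7,k6)],
    [(k4,k6)],[(k0,k6),(k5,k6),(k6,k6),(k9,k6),(k2,k9),(k3,k9)],[(k0,k6),(k5,k6),(k6,k6),(k9,k6),(k2,k9),(k3,k9)],
    [(k1,k6)],[(k10,k8)],[(k11,k8)]]
    [] k0
    []
    []]⟩

/-- classes `0 0 1 0 2 2`, types `S0 S0 C0 S0 N0 N2` -/
noncomputable def cT6_1093 : CertT :=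
  ⟨[k0,k0,k20,k0,k44,k46],[(false,k0,[k0,k1,k2,k3,k4,k5])],[[[([z1,z0,z0,z0,z1,z1],z2)],[]]],
    [.leafM k4 [k4,k5,k0,k1,k2,k3] [(z1,[y1,z1])] [],
    .lp [k12,k8,k6,k6,k12,k0] [k0,k0,k2,k2,k3,k3,k3,k3,k0,k0,k6,k6] k0 [] k24 k5
    [[(k11,k6)],[(k5,k9),(k6,k9),(k2,k10),(k3,k10),(k0,k12),(k9,k12)],[(k5,k7),(k6,k7),(k2,k8),(k3,k8),(k0,k10),(k9,
    k10)],[(k5,k7),(k6,k7),(k2,k8),(k3,k8),(k0,k10),(k9,k10)],[(k5,k6),(k6,k6),(k2,k7),(k3,k7),(k0,k9),(k9,k9)],[(k7,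
    k6)],[(k4,k6)],[(k5,k6),(k6,k6),(k2,k7),(k3,k7),(k0,k9),(k9,k9)],[(k5,k9),(k6,k9),(k2,k10),(k3,k10),(k0,k12),(k9,
    k12)],[(k10,k6)],[(k1,k6)],[(k8,k6)]]
    [] k0
    [[k0,k1,k1,k1,k0,k0]]
    [.ref k0 k0 [(z1,[y1,z1])]]]⟩

/-- classes `0 0 1 0 2 2`, types `S0 S0 C0 S0 S0 S0` -/
noncomputable def cT6_1094 : CertT :=
  ⟨[k0,k0,k20,k0,k32,k32],[(false,k0,[k0,k1,k2,k3,k4,k5])],[[[([z1,z0,z0,z0,z1,z1],z2)],[]]],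
    [.leafM k0 [k0,k1,k2,k3,k4,k5] [(z1,[y1,z1])] [],
    .lp [k8,k10,k6,k6,k8,k8] [k1,k1,k0,k0,k2,k2,k2,k2,k1,k1,k1,k1] k0 [[k0,k0,k0,k2,k0,k0,k2],[],[k0,k2],[],[],[],[],[k0,
    k2]] k24 k5
    [[(k1,k8),(k8,k8),(k10,k8),(k11,k8)],[(k9,k6),(k2,k7),(k5,k7),(k6,k7),(k0,k8),(k3,k9)],[(k0,k9),(k9,k9),(k2,k10),
    (k3,k10),(k5,k10),(k6,k10)],[(k0,k7),(k5,k8),(k6,k8),(k9,k9),(k2,k10),(k3,k10)],[(k5,k6),(k6,k6),(k0,k7),(k9,k7),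
    (k2,k8),(k3,k10)],[(k7,k6)],[(k4,k6)],[(k5,k6),(k6,k6),(k0,k7),(k9,k7),(k2,k8),(k3,k10)],[(k0,k6),(k5,k7),(k6,k7),
    (k9,k8),(k2,k9),(k3,k9)],[(k1,k8),(k8,k8),(k10,k8),(k11,k8)],[(k1,k8),(k8,k8),(k10,k8),(k11,k8)],[(k1,k8),(k8,k8),
    (k10,k8),(k11,k8)]]
    [] k0
    [[k1,k0,k0,k0,k1,k1]]
    [.ref k0 k0 [(z1,[z1])]]]⟩

/-- classes `0 0 1 0 2 2`, types `S0 S0 S0 S0 B0 B1` -/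
noncomputable def cT6_1095 : CertT :=
  ⟨[k0,k0,k16,k0,k40,k41],[(false,k0,[k0,k1,k2,k3,k4,k5])],[[[([z1,z0,z0,z0,z1,z1],z2)],[]]],
    [.leafM k4 [k4,k5,k0,k1,k2,k3] [(z1,[y1,z1])] [],
    .lp [k6,k12,k6,k6,k6,k8] [k3,k3,k0,k0,k3,k3,k3,k3,k3,k3,k2,k2] k0 [] k24 k5
    [[(k8,k6),(k11,k7)],[(k0,k6),(k5,k6),(k6,k6),(k9,k6),(k2,k9),(k3,k9)],[(k0,k9),(k5,k9),(k6,k9),(k9,k9),(k2,k12),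
    (k3,k12)],[(k0,k9),(k5,k9),(k6,k9),(k9,k9),(k2,k12),(k3,k12)],[(k0,k6),(k5,k6),(k6,k6),(k9,k6),(k2,k9),(k3,k9)],
    [(k4,k6),(k7,k6)],[(k4,k6),(k7,k6)],[(k0,k6),(k5,k6),(k6,k6),(k9,k6),(k2,k9),(k3,k9)],[(k0,k6),(k5,k6),(k6,k6),
    (k9,k6),(k2,k9),(k3,k9)],[(k1,k6),(k10,k7)],[(k1,k7),(k10,k8)],[(k8,k7),(k11,k8)]]
    [] k0
    [[k1,k0,k0,k0,k1,k1]]
    [.ref k0 k0 [(z1,[z1])]]]⟩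

/-- classes `0 0 1 0 2 2`, types `S0 S0 S0 S0 C0 C0` -/
noncomputable def cT6_1096 : CertT :=
  ⟨[k0,k0,k16,k0,k36,k36],[(false,k0,[k0,k1,k2,k3,k4,k5])],[[[([z1,z0,z0,z0,z1,z1],z2)],[]]],
    [.leafM k0 [k0,k1,k2,k3,k4,k5] [(z1,[y1,z1])] [],
    .lp [k6,k10,k6,k6,k10,k8] [k2,k2,k0,k0,k2,k2,k2,k2,k0,k0,k1,k1] k0 [[k0,k0,k0,k2],[],[k0,k2],[k0,k0,k0,k0,k0,k0,k2],
    [],[],[],[k0,k0,k2]] k24 k5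
    [[(k10,k7),(k8,k8)],[(k0,k6),(k2,k6),(k5,k6),(k6,k6),(k3,k8),(k9,k8)],[(k0,k8),(k6,k8),(k2,k10),(k3,k10),(k5,k10),
    (k9,k10)],[(k0,k6),(k5,k8),(k2,k10),(k3,k10),(k6,k10),(k9,k10)],[(k0,k6),(k5,k6),(k6,k6),(k9,k6),(k2,k8),(k3,
    k10)],[(k4,k6),(k7,k6)],[(k4,k6),(k7,k6)],[(k0,k6),(k5,k6),(k6,k6),(k3,k8),(k9,k8),(k2,k10)],[(k5,k6),(k0,k8),(k6,
    k8),(k2,k10),(k3,k10),(k9,k10)],[(k1,k8),(k11,k9)],[(k10,k8),(k8,k9)],[(k1,k7),(k11,k8)]]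
    [] k0
    [[k0,k1,k1,k1,k0,k0]]
    [.ref k0 k0 [(z1,[y1,z1])]]]⟩

/-- classes `0 0 1 0 2 2`, types `S0 S0 S0 S0 C0 C2` -/
noncomputable def cT6_1097 : CertT :=
  ⟨[k0,k0,k16,k0,k36,k38],[(false,k0,[k0,k1,k2,k3,k4,k5])],[[[([z1,z0,z0,z0,z1,z1],z2)],[]]],
    [.leafM k0 [k0,k1,k2,k3,k4,k5] [(z1,[y1,z1])] [],
    .lp [k12,k8,k6,k6,k12,k0] [k0,k0,k2,k2,k3,k3,k3,k3,k0,k0,k6,k6] k0 [[k0,k0,k0,k4,k0,k0,k4],[],[k0,k4],[],[],[],[],[k0,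
    k4]] k24 k5
    [[(k10,k6),(k11,k6)],[(k2,k6),(k9,k8),(k5,k9),(k6,k9),(k3,k10),(k0,k12)],[(k2,k8),(k3,k8),(k0,k10),(k9,k10),(k5,
    k11),(k6,k11)],[(k0,k6),(k5,k7),(k6,k7),(k2,k8),(k3,k8),(k9,k10)],[(k5,k6),(k6,k6),(k2,k7),(k0,k9),(k9,k9),(k3,
    k11)],[(k4,k6),(k7,k6)],[(k4,k6),(k7,k6)],[(k5,k6),(k6,k6),(k2,k7),(k0,k9),(k9,k9),(k3,k11)],[(k0,k8),(k5,k9),(k6,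
    k9),(k2,k10),(k3,k10),(k9,k12)],[(k10,k6),(k11,k6)],[(k1,k6),(k8,k6)],[(k1,k6),(k8,k6)]]
    [] k0
    [[k1,k0,k0,k0,k1,k1]]
    [.ref k0 k0 [(z1,[z1])]]]⟩

/-- classes `0 0 1 0 2 2`, types `S0 S0 S0 S0 N0 N1` -/
noncomputable def cT6_1098 : CertT :=
  ⟨[k0,k0,k16,k0,k44,k45],[],[[[]]],
    [.lp [k6,k12,k6,k6,k6,k8] [k3,k3,k0,k0,k3,k3,k3,k3,k3,k3,k2,k2] k0 [] k24 k5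
    [[(k8,k6)],[(k0,k6),(k5,k6),(k6,k6),(k9,k6),(k2,k9),(k3,k9)],[(k0,k9),(k5,k9),(k6,k9),(k9,k9),(k2,k12),(k3,k12)],
    [(k0,k9),(k5,k9),(k6,k9),(k9,k9),(k2,k12),(k3,k12)],[(k0,k6),(k5,k6),(k6,k6),(k9,k6),(k2,k9),(k3,k9)],[(k4,k6),
    (k7,k6)],[(k4,k6),(k7,k6)],[(k0,k6),(k5,k6),(k6,k6),(k9,k6),(k2,k9),(k3,k9)],[(k0,k6),(k5,k6),(k6,k6),(k9,k6),(k2,
    k9),(k3,k9)],[(k1,k6)],[(k10,k8)],[(k11,k8)]]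
    [] k0
    []
    []]⟩

/-- classes `0 0 1 0 2 2`, types `S0 S0 S0 S0 N0 N2` -/
noncomputable def cT6_1099 : CertT :=
  ⟨[k0,k0,k16,k0,k44,k46],[(false,k0,[k0,k1,k2,k3,k4,k5])],[[[([z1,z0,z0,z0,z1,z1],z2)],[]]],
    [.leafM k4 [k4,k5,k0,k1,k2,k3] [(z1,[y1,z1])] [],
    .lp [k12,k8,k6,k8,k6,k6] [k0,k0,k2,k2,k3,k3,k2,k2,k3,k3,k3,k3] k0 [[k0,k0,k0,k4],[],[k0,k4]] k24 k5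
    [[(k11,k9)],[(k2,k6),(k5,k9),(k9,k9),(k3,k10),(k6,k10),(k0,k12)],[(k9,k7),(k2,k8),(k3,k8),(k6,k8),(k0,k10),(k5,
    k11)],[(k0,k6),(k5,k7),(k9,k7),(k2,k8),(k3,k8),(k6,k8)],[(k5,k6),(k9,k6),(k2,k7),(k6,k7),(k0,k9),(k3,k11)],[(k4,
    k6),(k7,k7)],[(k4,k7),(k7,k8)],[(k5,k7),(k9,k7),(k2,k8),(k3,k8),(k6,k8),(k0,k10)],[(k5,k6),(k9,k6),(k2,k7),(k3,
    k7),(k6,k7),(k0,k9)],[(k10,k6)],[(k1,k9)],[(k8,k6)]]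
    [] k0
    [[k0,k1,k1,k1,k0,k0]]
    [.ref k0 k0 [(z1,[y1,z1])]]]⟩

/-- classes `0 0 1 0 2 3`, types `C0 C0 C0 C0 C0 C0` -/
noncomputable def cT6_1100 : CertT :=
  ⟨[k4,k4,k20,k4,k36,k52],[(false,k0,[k0,k1,k2,k3,k4,k5])],[[[([z1,z0,z0,z0,z1,z1],z2)],[]]],
    [.leafM k0 [k0,k1,k2,k3,k4,k5] [(z1,[y1,z1])] [],
    .lp [k6,k8,k6,k10,k6,k6] [k2,k2,k1,k1,k2,k2,k0,k0,k2,k2,k2,k2] k0 [] k24 k5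
    [[(k10,k6)],[(k5,k6),(k9,k6),(k3,k7)],[(k0,k7),(k2,k8),(k6,k9)],[(k5,k7),(k9,k7),(k3,k8)],[(k0,k6),(k2,k7),(k6,
    k8)],[(k7,k8)],[(k4,k8)],[(k5,k8),(k9,k8),(k3,k9)],[(k0,k6),(k2,k7),(k6,k8)],[(k11,k6)],[(k8,k6)],[(k1,k6)]]
    [] k0
    [[k1,k0,k0,k0,k1,k1]]
    [.ref k0 k0 [(z1,[z1])]]]⟩

/-- classes `0 0 1 0 2 3`, types `C0 C0 C0 C0 C0 S0` -/
noncomputable def cT6_1101 : CertT :=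
  ⟨[k4,k4,k20,k4,k36,k48],[(false,k0,[k0,k1,k2,k3,k4,k5])],[[[([z1,z0,z0,z0,z1,z1],z2)],[]]],
    [.leafM k0 [k0,k1,k2,k3,k4,k5] [(z1,[y1,z1])] [],
    .lp [k6,k8,k6,k10,k6,k6] [k2,k2,k1,k1,k2,k2,k0,k0,k2,k2,k2,k2] k0 [] k24 k5
    [[(k1,k6),(k10,k6)],[(k5,k6),(k9,k6),(k3,k7)],[(k0,k7),(k2,k8),(k6,k9)],[(k5,k7),(k9,k7),(k3,k8)],[(k0,k6),(k2,
    k7),(k6,k8)],[(k7,k8)],[(k4,k8)],[(k5,k8),(k9,k8),(k3,k9)],[(k0,k6),(k2,k7),(k6,k8)],[(k11,k6)],[(k8,k6)],[(k1,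
    k6),(k10,k6)]]
    [] k0
    [[k1,k0,k0,k0,k1,k1]]
    [.ref k0 k0 [(z1,[z1])]]]⟩

/-- classes `0 0 1 0 2 3`, types `C0 C0 C0 C0 S0 C0` -/
noncomputable def cT6_1102 : CertT :=
  ⟨[k4,k4,k20,k4,k32,k52],[(false,k0,[k0,k1,k2,k3,k4,k5])],[[[([z1,z0,z0,z0,z1,z1],z2)],[]]],
    [.leafM k0 [k0,k1,k2,k3,k4,k5] [(z1,[y1,z1])] [],
    .lp [k6,k8,k6,k10,k6,k6] [k2,k2,k1,k1,k2,k2,k0,k0,k2,k2,k2,k2] k0 [] k24 k5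
    [[(k10,k6)],[(k5,k6),(k9,k6),(k3,k7)],[(k0,k7),(k2,k8),(k6,k9)],[(k5,k7),(k9,k7),(k3,k8)],[(k0,k6),(k2,k7),(k6,
    k8)],[(k7,k8)],[(k4,k8)],[(k5,k8),(k9,k8),(k3,k9)],[(k0,k6),(k2,k7),(k6,k8)],[(k8,k6),(k11,k6)],[(k8,k6),(k11,
    k6)],[(k1,k6)]]
    [] k0
    [[k1,k0,k0,k0,k1,k1]]
    [.ref k0 k0 [(z1,[z1])]]]⟩

/-- classes `0 0 1 0 2 3`, types `C0 C0 C0 C0 S0 S0` -/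
noncomputable def cT6_1103 : CertT :=
  ⟨[k4,k4,k20,k4,k32,k48],[(false,k0,[k0,k1,k2,k3,k4,k5])],[[[([z1,z0,z0,z0,z1,z1],z2)],[]]],
    [.leafM k0 [k0,k1,k2,k3,k4,k5] [(z1,[y1,z1])] [],
    .lp [k2,k4,k2,k2,k2,k2] [k1,k1,k0,k0,k1,k1,k1,k1,k1,k1,k1,k1] k0 [] k8 k5
    [[(k1,k2),(k10,k2)],[(k5,k2),(k9,k2),(k3,k3)],[(k0,k3),(k6,k3),(k2,k4)],[(k5,k3),(k9,k3),(k3,k4)],[(k0,k2),(k6,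
    k2),(k2,k3)],[(k7,k2)],[(k4,k2)],[(k5,k2),(k9,k2),(k3,k3)],[(k0,k2),(k6,k2),(k2,k3)],[(k8,k2),(k11,k2)],[(k8,k2),
    (k11,k2)],[(k1,k2),(k10,k2)]]
    [] k0
    [[k1,k0,k0,k0,k1,k1]]
    [.ref k0 k0 [(z1,[z1])]]]⟩

/-- classes `0 0 1 0 2 3`, types `C0 C0 C0 C2 C0 C0` -/
noncomputable def cT6_1104 : CertT :=
  ⟨[k4,k4,k20,k6,k36,k52],[],[[[]]],
    [.lp [k6,k8,k6,k6,k6,k6] [k1,k1,k0,k0,k1,k1,k1,k1,k1,k1,k1,k1] k0 [] k24 k5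
    [[(k10,k6)],[(k5,k6),(k6,k6),(k3,k7)],[(k0,k7),(k9,k7),(k2,k8)],[(k5,k7),(k6,k7),(k3,k8)],[(k0,k6),(k9,k6),(k2,
    k7)],[(k7,k6)],[(k4,k6)],[(k0,k6),(k9,k6),(k2,k7)],[(k5,k6),(k6,k6),(k3,k7)],[(k11,k6)],[(k8,k6)],[(k1,k6)]]
    [] k0
    []
    []]⟩

/-- classes `0 0 1 0 2 3`, types `C0 C0 C0 C2 C0 S0` -/
noncomputable def cT6_1105 : CertT :=
  ⟨[k4,k4,k20,k6,k36,k48],[],[[[]]],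
    [.lp [k6,k8,k6,k6,k6,k6] [k1,k1,k0,k0,k1,k1,k1,k1,k1,k1,k1,k1] k0 [] k24 k5
    [[(k1,k6),(k10,k6)],[(k5,k6),(k6,k6),(k3,k7)],[(k0,k7),(k9,k7),(k2,k8)],[(k5,k7),(k6,k7),(k3,k8)],[(k0,k6),(k9,
    k6),(k2,k7)],[(k7,k6)],[(k4,k6)],[(k0,k6),(k9,k6),(k2,k7)],[(k5,k6),(k6,k6),(k3,k7)],[(k11,k6)],[(k8,k6)],[(k1,
    k6),(k10,k6)]]
    [] k0
    []
    []]⟩

/-- classes `0 0 1 0 2 3`, types `C0 C0 C0 C2 S0 C0` -/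
noncomputable def cT6_1106 : CertT :=
  ⟨[k4,k4,k20,k6,k32,k52],[],[[[]]],
    [.lp [k6,k8,k6,k6,k6,k6] [k1,k1,k0,k0,k1,k1,k1,k1,k1,k1,k1,k1] k0 [] k24 k5
    [[(k10,k6)],[(k5,k6),(k6,k6),(k3,k7)],[(k0,k7),(k9,k7),(k2,k8)],[(k5,k7),(k6,k7),(k3,k8)],[(k0,k6),(k9,k6),(k2,
    k7)],[(k7,k6)],[(k4,k6)],[(k0,k6),(k9,k6),(k2,k7)],[(k5,k6),(k6,k6),(k3,k7)],[(k8,k6),(k11,k6)],[(k8,k6),(k11,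
    k6)],[(k1,k6)]]
    [] k0
    []
    []]⟩

/-- classes `0 0 1 0 2 3`, types `C0 C0 C0 C2 S0 S0` -/
noncomputable def cT6_1107 : CertT :=
  ⟨[k4,k4,k20,k6,k32,k48],[],[[[]]],
    [.lp [k6,k8,k6,k6,k6,k6] [k1,k1,k0,k0,k1,k1,k1,k1,k1,k1,k1,k1] k0 [] k24 k5
    [[(k1,k6),(k10,k6)],[(k5,k6),(k6,k6),(k3,k7)],[(k0,k7),(k9,k7),(k2,k8)],[(k5,k7),(k6,k7),(k3,k8)],[(k0,k6),(k9,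
    k6),(k2,k7)],[(k7,k6)],[(k4,k6)],[(k0,k6),(k9,k6),(k2,k7)],[(k5,k6),(k6,k6),(k3,k7)],[(k8,k6),(k11,k6)],[(k8,k6),
    (k11,k6)],[(k1,k6),(k10,k6)]]
    [] k0
    []
    []]⟩

/-- classes `0 0 1 0 2 3`, types `C0 C0 S0 C0 C0 C0` -/
noncomputable def cT6_1108 : CertT :=
  ⟨[k4,k4,k16,k4,k36,k52],[(false,k0,[k0,k1,k2,k3,k4,k5])],[[[([z1,z0,z0,z0,z1,z1],z2)],[]]],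
    [.leafM k0 [k0,k1,k2,k3,k4,k5] [(z1,[y1,z1])] [],
    .lp [k6,k8,k6,k10,k6,k6] [k2,k2,k1,k1,k2,k2,k0,k0,k2,k2,k2,k2] k0 [] k24 k5
    [[(k10,k6)],[(k5,k6),(k9,k6),(k3,k7)],[(k0,k7),(k2,k8),(k6,k9)],[(k5,k7),(k9,k7),(k3,k8)],[(k0,k6),(k2,k7),(k6,
    k8)],[(k4,k6),(k7,k8)],[(k4,k8),(k7,k10)],[(k5,k8),(k9,k8),(k3,k9)],[(k0,k6),(k2,k7),(k6,k8)],[(k11,k6)],[(k8,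
    k6)],[(k1,k6)]]
    [] k0
    [[k1,k0,k0,k0,k1,k1]]
    [.ref k0 k0 [(z1,[z1])]]]⟩

/-- classes `0 0 1 0 2 3`, types `C0 C0 S0 C0 C0 S0` -/
noncomputable def cT6_1109 : CertT :=
  ⟨[k4,k4,k16,k4,k36,k48],[(false,k0,[k0,k1,k2,k3,k4,k5])],[[[([z1,z0,z0,z0,z1,z1],z2)],[]]],
    [.leafM k0 [k0,k1,k2,k3,k4,k5] [(z1,[y1,z1])] [],
    .lp [k2,k4,k2,k2,k2,k2] [k1,k1,k0,k0,k1,k1,k1,k1,k1,k1,k1,k1] k0 [] k8 k5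
    [[(k1,k2),(k10,k2)],[(k5,k2),(k9,k2),(k3,k3)],[(k0,k3),(k6,k3),(k2,k4)],[(k5,k3),(k9,k3),(k3,k4)],[(k0,k2),(k6,
    k2),(k2,k3)],[(k4,k2),(k7,k2)],[(k4,k2),(k7,k2)],[(k5,k2),(k9,k2),(k3,k3)],[(k0,k2),(k6,k2),(k2,k3)],[(k11,k2)],
    [(k8,k2)],[(k1,k2),(k10,k2)]]
    [] k0
    [[k1,k0,k0,k0,k1,k1]]
    [.ref k0 k0 [(z1,[z1])]]]⟩

/-- classes `0 0 1 0 2 3`, types `C0 C0 S0 C0 S0 C0` -/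
noncomputable def cT6_1110 : CertT :=
  ⟨[k4,k4,k16,k4,k32,k52],[(false,k0,[k0,k1,k2,k3,k4,k5])],[[[([z1,z0,z0,z0,z1,z1],z2)],[]]],
    [.leafM k0 [k0,k1,k2,k3,k4,k5] [(z1,[y1,z1])] [],
    .lp [k2,k4,k2,k2,k2,k2] [k1,k1,k0,k0,k1,k1,k1,k1,k1,k1,k1,k1] k0 [] k8 k5
    [[(k10,k2)],[(k5,k2),(k9,k2),(k3,k3)],[(k0,k3),(k6,k3),(k2,k4)],[(k5,k3),(k9,k3),(k3,k4)],[(k0,k2),(k6,k2),(k2,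
    k3)],[(k4,k2),(k7,k2)],[(k4,k2),(k7,k2)],[(k5,k2),(k9,k2),(k3,k3)],[(k0,k2),(k6,k2),(k2,k3)],[(k8,k2),(k11,k2)],
    [(k8,k2),(k11,k2)],[(k1,k2)]]
    [] k0
    [[k1,k0,k0,k0,k1,k1]]
    [.ref k0 k0 [(z1,[z1])]]]⟩

/-- classes `0 0 1 0 2 3`, types `C0 C0 S0 C0 S0 S0` -/
noncomputable def cT6_1111 : CertT :=
  ⟨[k4,k4,k16,k4,k32,k48],[(false,k0,[k0,k1,k2,k3,k4,k5])],[[[([z1,z0,z0,z0,z1,z1],z2)],[]]],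
    [.leafM k0 [k0,k1,k2,k3,k4,k5] [(z1,[y1,z1])] [],
    .lp [k12,k8,k6,k6,k6,k6] [k0,k0,k2,k2,k3,k3,k3,k3,k3,k3,k3,k3] k0 [] k24 k5
    [[(k10,k9),(k1,k12)],[(k5,k9),(k9,k9),(k3,k10)],[(k6,k7),(k2,k8),(k0,k10)],[(k5,k7),(k9,k7),(k3,k8)],[(k6,k6),(k2,
    k7),(k0,k9)],[(k4,k6),(k7,k6)],[(k4,k6),(k7,k6)],[(k5,k6),(k9,k6),(k3,k7)],[(k6,k6),(k2,k7),(k0,k9)],[(k8,k6),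
    (k11,k6)],[(k8,k6),(k11,k6)],[(k10,k6),(k1,k9)]]
    [] k0
    [[k0,k1,k1,k1,k0,k0]]
    [.ref k0 k0 [(z1,[y1,z1])]]]⟩

/-- classes `0 0 1 0 2 3`, types `C0 C0 S0 C2 C0 C0` -/
noncomputable def cT6_1112 : CertT :=
  ⟨[k4,k4,k16,k6,k36,k52],[],[[[]]],
    [.lp [k6,k8,k6,k6,k6,k6] [k1,k1,k0,k0,k1,k1,k1,k1,k1,k1,k1,k1] k0 [] k24 k5
    [[(k10,k6)],[(k5,k6),(k6,k6),(k3,k7)],[(k0,k7),(k9,k7),(k2,k8)],[(k5,k7),(k6,k7),(k3,k8)],[(k0,k6),(k9,k6),(k2,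
    k7)],[(k4,k6),(k7,k6)],[(k4,k6),(k7,k6)],[(k0,k6),(k9,k6),(k2,k7)],[(k5,k6),(k6,k6),(k3,k7)],[(k11,k6)],[(k8,k6)],
    [(k1,k6)]]
    [] k0
    []
    []]⟩

/-- classes `0 0 1 0 2 3`, types `C0 C0 S0 C2 C0 S0` -/
noncomputable def cT6_1113 : CertT :=
  ⟨[k4,k4,k16,k6,k36,k48],[],[[[]]],
    [.lp [k6,k8,k6,k6,k6,k6] [k1,k1,k0,k0,k1,k1,k1,k1,k1,k1,k1,k1] k0 [] k24 k5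
    [[(k1,k6),(k10,k6)],[(k5,k6),(k6,k6),(k3,k7)],[(k0,k7),(k9,k7),(k2,k8)],[(k5,k7),(k6,k7),(k3,k8)],[(k0,k6),(k9,
    k6),(k2,k7)],[(k4,k6),(k7,k6)],[(k4,k6),(k7,k6)],[(k0,k6),(k9,k6),(k2,k7)],[(k5,k6),(k6,k6),(k3,k7)],[(k11,k6)],
    [(k8,k6)],[(k1,k6),(k10,k6)]]
    [] k0
    []
    []]⟩

/-- classes `0 0 1 0 2 3`, types `C0 C0 S0 C2 S0 C0` -/
noncomputable def cT6_1114 : CertT :=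
  ⟨[k4,k4,k16,k6,k32,k52],[],[[[]]],
    [.lp [k6,k8,k6,k6,k6,k6] [k1,k1,k0,k0,k1,k1,k1,k1,k1,k1,k1,k1] k0 [] k24 k5
    [[(k10,k6)],[(k5,k6),(k6,k6),(k3,k7)],[(k0,k7),(k9,k7),(k2,k8)],[(k5,k7),(k6,k7),(k3,k8)],[(k0,k6),(k9,k6),(k2,
    k7)],[(k4,k6),(k7,k6)],[(k4,k6),(k7,k6)],[(k0,k6),(k9,k6),(k2,k7)],[(k5,k6),(k6,k6),(k3,k7)],[(k8,k6),(k11,k6)],
    [(k8,k6),(k11,k6)],[(k1,k6)]]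
    [] k0
    []
    []]⟩

/-- classes `0 0 1 0 2 3`, types `C0 C0 S0 C2 S0 S0` -/
noncomputable def cT6_1115 : CertT :=
  ⟨[k4,k4,k16,k6,k32,k48],[],[[[]]],
    [.lp [k6,k8,k6,k6,k6,k6] [k1,k1,k0,k0,k1,k1,k1,k1,k1,k1,k1,k1] k0 [] k24 k5
    [[(k1,k6),(k10,k6)],[(k5,k6),(k6,k6),(k3,k7)],[(k0,k7),(k9,k7),(k2,k8)],[(k5,k7),(k6,k7),(k3,k8)],[(k0,k6),(k9,
    k6),(k2,k7)],[(k4,k6),(k7,k6)],[(k4,k6),(k7,k6)],[(k0,k6),(k9,k6),(k2,k7)],[(k5,k6),(k6,k6),(k3,k7)],[(k8,k6),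
    (k11,k6)],[(k8,k6),(k11,k6)],[(k1,k6),(k10,k6)]]
    [] k0
    []
    []]⟩

/-- classes `0 0 1 0 2 3`, types `C0 C2 C0 C0 C0 C0` -/
noncomputable def cT6_1116 : CertT :=
  ⟨[k4,k6,k20,k4,k36,k52],[(false,k0,[k0,k1,k2,k3,k4,k5])],[[[([z1,z0,z0,z0,z1,z1],z2)],[]]],
    [.leafM k0 [k0,k1,k2,k3,k4,k5] [(z1,[y1,z1])] [],
    .lp [k4,k2,k2,k2,k4,k0] [k0,k0,k1,k1,k1,k1,k1,k1,k0,k0,k2,k2] k0 [] k8 k5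
    [[(k10,k2)],[(k2,k3),(k3,k3),(k9,k4)],[(k5,k2),(k6,k2),(k0,k3)],[(k5,k2),(k6,k2),(k0,k3)],[(k2,k2),(k3,k2),(k9,
    k3)],[(k7,k2)],[(k4,k2)],[(k2,k2),(k3,k2),(k9,k3)],[(k5,k3),(k6,k3),(k0,k4)],[(k11,k2)],[(k8,k2)],[(k1,k2)]]
    [] k0
    [[k0,k1,k1,k1,k0,k0]]
    [.ref k0 k0 [(z1,[y1,z1])]]]⟩

/-- classes `0 0 1 0 2 3`, types `C0 C2 C0 C0 C0 S0` -/
noncomputable def cT6_1117 : CertT :=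
  ⟨[k4,k6,k20,k4,k36,k48],[(false,k0,[k0,k1,k2,k3,k4,k5])],[[[([z1,z0,z0,z0,z1,z1],z2)],[]]],
    [.leafM k0 [k0,k1,k2,k3,k4,k5] [(z1,[y1,z1])] [],
    .lp [k2,k4,k2,k2,k2,k2] [k1,k1,k0,k0,k1,k1,k1,k1,k1,k1,k1,k1] k0 [] k8 k5
    [[(k1,k2),(k10,k2)],[(k9,k2),(k2,k3),(k3,k3)],[(k0,k3),(k5,k3),(k6,k3)],[(k0,k3),(k5,k3),(k6,k3)],[(k9,k2),(k2,
    k3),(k3,k3)],[(k7,k2)],[(k4,k2)],[(k9,k2),(k2,k3),(k3,k3)],[(k0,k2),(k5,k2),(k6,k2)],[(k11,k2)],[(k8,k2)],[(k1,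
    k2),(k10,k2)]]
    [] k0
    [[k1,k0,k0,k0,k1,k1]]
    [.ref k0 k0 [(z1,[z1])]]]⟩

/-- classes `0 0 1 0 2 3`, types `C0 C2 C0 C0 S0 C0` -/
noncomputable def cT6_1118 : CertT :=
  ⟨[k4,k6,k20,k4,k32,k52],[(false,k0,[k0,k1,k2,k3,k4,k5])],[[[([z1,z0,z0,z0,z1,z1],z2)],[]]],
    [.leafM k0 [k0,k1,k2,k3,k4,k5] [(z1,[y1,z1])] [],
    .lp [k2,k2,k2,k4,k2,k2] [k1,k1,k1,k1,k1,k1,k0,k0,k1,k1,k1,k1] k0 [] k8 k5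
    [[(k10,k2)],[(k2,k2),(k3,k2),(k9,k2)],[(k0,k2),(k5,k2),(k6,k3)],[(k0,k2),(k5,k2),(k6,k3)],[(k2,k2),(k3,k2),(k9,
    k2)],[(k7,k3)],[(k4,k3)],[(k2,k3),(k3,k3),(k9,k3)],[(k0,k2),(k5,k2),(k6,k3)],[(k8,k2),(k11,k2)],[(k8,k2),(k11,
    k2)],[(k1,k2)]]
    [] k0
    [[k1,k0,k0,k0,k1,k1]]
    [.ref k0 k0 [(z1,[z1])]]]⟩

/-- classes `0 0 1 0 2 3`, types `C0 C2 C0 C0 S0 S0` -/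
noncomputable def cT6_1119 : CertT :=
  ⟨[k4,k6,k20,k4,k32,k48],[(false,k0,[k0,k1,k2,k3,k4,k5])],[[[([z1,z0,z0,z0,z1,z1],z2)],[]]],
    [.leafM k0 [k0,k1,k2,k3,k4,k5] [(z1,[y1,z1])] [],
    .lp [k2,k4,k2,k2,k2,k2] [k1,k1,k0,k0,k1,k1,k1,k1,k1,k1,k1,k1] k0 [] k8 k5
    [[(k1,k2),(k10,k2)],[(k9,k2),(k2,k3),(k3,k3)],[(k0,k3),(k5,k3),(k6,k3)],[(k0,k3),(k5,k3),(k6,k3)],[(k9,k2),(k2,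
    k3),(k3,k3)],[(k7,k2)],[(k4,k2)],[(k9,k2),(k2,k3),(k3,k3)],[(k0,k2),(k5,k2),(k6,k2)],[(k8,k2),(k11,k2)],[(k8,k2),
    (k11,k2)],[(k1,k2),(k10,k2)]]
    [] k0
    [[k1,k0,k0,k0,k1,k1]]
    [.ref k0 k0 [(z1,[z1])]]]⟩

/-- classes `0 0 1 0 2 3`, types `C0 C2 C0 C2 C0 C0` -/
noncomputable def cT6_1120 : CertT :=
  ⟨[k4,k6,k20,k6,k36,k52],[],[[[]]],
    [.lp [k2,k0,k2,k0,k2,k0] [k0,k0,k1,k1,k0,k0,k1,k1,k0,k0,k1,k1] k0 [] k4 k5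
    [[(k10,k1)],[(k2,k1),(k3,k1),(k6,k1)],[(k0,k1),(k5,k1),(k9,k1)],[(k0,k1),(k5,k1),(k9,k1)],[(k2,k1),(k3,k1),(k6,
    k1)],[(k7,k1)],[(k4,k1)],[(k0,k1),(k5,k1),(k9,k1)],[(k2,k1),(k3,k1),(k6,k1)],[(k11,k1)],[(k8,k1)],[(k1,k1)]]
    [] k0
    []
    []]⟩

/-- classes `0 0 1 0 2 3`, types `C0 C2 C0 C2 C0 S0` -/
noncomputable def cT6_1121 : CertT :=
  ⟨[k4,k6,k20,k6,k36,k48],[],[[[]]],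
    [.lp [k6,k4,k4,k4,k4,k4] [k0,k0,k1,k1,k1,k1,k1,k1,k1,k1,k1,k1] k0 [] k16 k5
    [[(k10,k5),(k1,k6)],[(k2,k5),(k3,k5),(k6,k5)],[(k5,k4),(k9,k4),(k0,k5)],[(k5,k4),(k9,k4),(k0,k5)],[(k2,k4),(k3,
    k4),(k6,k4)],[(k7,k4)],[(k4,k4)],[(k5,k4),(k9,k4),(k0,k5)],[(k2,k4),(k3,k4),(k6,k4)],[(k11,k4)],[(k8,k4)],[(k10,
    k4),(k1,k5)]]
    [] k0
    []
    []]⟩

/-- classes `0 0 1 0 2 3`, types `C0 C2 C0 C2 S0 C0` -/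
noncomputable def cT6_1122 : CertT :=
  ⟨[k4,k6,k20,k6,k32,k52],[],[[[]]],
    [.lp [k4,k4,k4,k4,k6,k4] [k1,k1,k1,k1,k1,k1,k1,k1,k0,k0,k1,k1] k0 [] k16 k5
    [[(k10,k4)],[(k2,k4),(k3,k4),(k6,k4)],[(k0,k4),(k5,k4),(k9,k5)],[(k0,k4),(k5,k4),(k9,k5)],[(k2,k4),(k3,k4),(k6,
    k4)],[(k7,k4)],[(k4,k4)],[(k0,k4),(k5,k4),(k9,k5)],[(k2,k5),(k3,k5),(k6,k5)],[(k11,k5),(k8,k6)],[(k11,k4),(k8,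
    k5)],[(k1,k4)]]
    [] k0
    []
    []]⟩

/-- classes `0 0 1 0 2 3`, types `C0 C2 C0 C2 S0 S0` -/
noncomputable def cT6_1123 : CertT :=
  ⟨[k4,k6,k20,k6,k32,k48],[],[[[]]],
    [.lp [k2,k4,k2,k2,k2,k2] [k1,k1,k0,k0,k1,k1,k1,k1,k1,k1,k1,k1] k0 [] k8 k5
    [[(k1,k2),(k10,k2)],[(k6,k2),(k2,k3),(k3,k3)],[(k0,k3),(k5,k3),(k9,k3)],[(k0,k3),(k5,k3),(k9,k3)],[(k6,k2),(k2,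
    k3),(k3,k3)],[(k7,k2)],[(k4,k2)],[(k0,k2),(k5,k2),(k9,k2)],[(k6,k2),(k2,k3),(k3,k3)],[(k8,k2),(k11,k2)],[(k8,k2),
    (k11,k2)],[(k1,k2),(k10,k2)]]
    [] k0
    []
    []]⟩

/-- classes `0 0 1 0 2 3`, types `C0 C2 S0 C0 C0 C0` -/
noncomputable def cT6_1124 : CertT :=
  ⟨[k4,k6,k16,k4,k36,k52],[(false,k0,[k0,k1,k2,k3,k4,k5])],[[[([z1,z0,z0,z0,z1,z1],z2)],[]]],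
    [.leafM k0 [k0,k1,k2,k3,k4,k5] [(z1,[y1,z1])] [],
    .lp [k4,k4,k6,k6,k4,k4] [k1,k1,k1,k1,k0,k0,k0,k0,k1,k1,k1,k1] k0 [] k16 k5
    [[(k10,k4)],[(k2,k4),(k3,k4),(k9,k4)],[(k0,k4),(k5,k5),(k6,k5)],[(k0,k4),(k5,k5),(k6,k5)],[(k2,k5),(k3,k5),(k9,
    k5)],[(k4,k6),(k7,k6)],[(k4,k6),(k7,k6)],[(k2,k5),(k3,k5),(k9,k5)],[(k0,k4),(k5,k5),(k6,k5)],[(k11,k4)],[(k8,k4)],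
    [(k1,k4)]]
    [] k0
    [[k1,k0,k0,k0,k1,k1]]
    [.ref k0 k0 [(z1,[z1])]]]⟩

/-- classes `0 0 1 0 2 3`, types `C0 C2 S0 C0 C0 S0` -/
noncomputable def cT6_1125 : CertT :=
  ⟨[k4,k6,k16,k4,k36,k48],[(false,k0,[k0,k1,k2,k3,k4,k5])],[[[([z1,z0,z0,z0,z1,z1],z2)],[]]],
    [.leafM k0 [k0,k1,k2,k3,k4,k5] [(z1,[y1,z1])] [],
    .lp [k2,k4,k2,k2,k2,k2] [k1,k1,k0,k0,k1,k1,k1,k1,k1,k1,k1,k1] k0 [] k8 k5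
    [[(k1,k2),(k10,k2)],[(k9,k2),(k2,k3),(k3,k3)],[(k0,k3),(k5,k3),(k6,k3)],[(k0,k3),(k5,k3),(k6,k3)],[(k9,k2),(k2,
    k3),(k3,k3)],[(k4,k2),(k7,k2)],[(k4,k2),(k7,k2)],[(k9,k2),(k2,k3),(k3,k3)],[(k0,k2),(k5,k2),(k6,k2)],[(k11,k2)],
    [(k8,k2)],[(k1,k2),(k10,k2)]]
    [] k0
    [[k1,k0,k0,k0,k1,k1]]
    [.ref k0 k0 [(z1,[z1])]]]⟩

/-- classes `0 0 1 0 2 3`, types `C0 C2 S0 C0 S0 C0` -/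
noncomputable def cT6_1126 : CertT :=
  ⟨[k4,k6,k16,k4,k32,k52],[(false,k0,[k0,k1,k2,k3,k4,k5])],[[[([z1,z0,z0,z0,z1,z1],z2)],[]]],
    [.leafM k0 [k0,k1,k2,k3,k4,k5] [(z1,[y1,z1])] [],
    .lp [k2,k4,k2,k2,k2,k2] [k1,k1,k0,k0,k1,k1,k1,k1,k1,k1,k1,k1] k0 [] k8 k5
    [[(k10,k2)],[(k9,k2),(k2,k3),(k3,k3)],[(k0,k3),(k5,k3),(k6,k3)],[(k0,k3),(k5,k3),(k6,k3)],[(k9,k2),(k2,k3),(k3,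
    k3)],[(k4,k2),(k7,k2)],[(k4,k2),(k7,k2)],[(k9,k2),(k2,k3),(k3,k3)],[(k0,k2),(k5,k2),(k6,k2)],[(k8,k2),(k11,k2)],
    [(k8,k2),(k11,k2)],[(k1,k2)]]
    [] k0
    [[k1,k0,k0,k0,k1,k1]]
    [.ref k0 k0 [(z1,[z1])]]]⟩

/-- classes `0 0 1 0 2 3`, types `C0 C2 S0 C0 S0 S0` -/
noncomputable def cT6_1127 : CertT :=
  ⟨[k4,k6,k16,k4,k32,k48],[(false,k0,[k0,k1,k2,k3,k4,k5])],[[[([z1,z0,z0,z0,z1,z1],z2)],[]]],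
    [.leafM k0 [k0,k1,k2,k3,k4,k5] [(z1,[y1,z1])] [],
    .lp [k12,k8,k6,k8,k6,k6] [k0,k0,k2,k2,k3,k3,k2,k2,k3,k3,k3,k3] k0 [[k0,k0,k0,k4],[],[k0,k4]] k24 k5
    [[(k10,k9),(k1,k12)],[(k2,k6),(k9,k9),(k3,k10)],[(k6,k8),(k0,k10),(k5,k11)],[(k0,k6),(k5,k7),(k6,k8)],[(k9,k6),
    (k2,k7),(k3,k11)],[(k4,k6),(k7,k7)],[(k4,k7),(k7,k8)],[(k9,k7),(k2,k8),(k3,k8)],[(k5,k6),(k6,k7),(k0,k9)],[(k8,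
    k6),(k11,k6)],[(k8,k6),(k11,k6)],[(k10,k6),(k1,k9)]]
    [] k0
    [[k0,k1,k1,k1,k0,k0]]
    [.ref k0 k0 [(z1,[y1,z1])]]]⟩

/-- classes `0 0 1 0 2 3`, types `C0 C2 S0 C2 C0 C0` -/
noncomputable def cT6_1128 : CertT :=
  ⟨[k4,k6,k16,k6,k36,k52],[],[[[]]],
    [.lp [k4,k4,k6,k4,k4,k4] [k1,k1,k1,k1,k0,k0,k1,k1,k1,k1,k1,k1] k0 [] k16 k5
    [[(k10,k4)],[(k2,k4),(k3,k4),(k6,k4)],[(k0,k4),(k9,k4),(k5,k5)],[(k0,k4),(k9,k4),(k5,k5)],[(k2,k5),(k3,k5),(k6,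
    k5)],[(k7,k5),(k4,k6)],[(k7,k4),(k4,k5)],[(k0,k4),(k9,k4),(k5,k5)],[(k2,k4),(k3,k4),(k6,k4)],[(k11,k4)],[(k8,k4)],
    [(k1,k4)]]
    [] k0
    []
    []]⟩

/-- classes `0 0 1 0 2 3`, types `C0 C2 S0 C2 C0 S0` -/
noncomputable def cT6_1129 : CertT :=
  ⟨[k4,k6,k16,k6,k36,k48],[],[[[]]],
    [.lp [k2,k4,k2,k2,k2,k2] [k1,k1,k0,k0,k1,k1,k1,k1,k1,k1,k1,k1] k0 [] k8 k5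
    [[(k1,k2),(k10,k2)],[(k6,k2),(k2,k3),(k3,k3)],[(k0,k3),(k5,k3),(k9,k3)],[(k0,k3),(k5,k3),(k9,k3)],[(k6,k2),(k2,
    k3),(k3,k3)],[(k4,k2),(k7,k2)],[(k4,k2),(k7,k2)],[(k0,k2),(k5,k2),(k9,k2)],[(k6,k2),(k2,k3),(k3,k3)],[(k11,k2)],
    [(k8,k2)],[(k1,k2),(k10,k2)]]
    [] k0
    []
    []]⟩

/-- classes `0 0 1 0 2 3`, types `C0 C2 S0 C2 S0 C0` -/
noncomputable def cT6_1130 : CertT :=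
  ⟨[k4,k6,k16,k6,k32,k52],[],[[[]]],
    [.lp [k2,k4,k2,k2,k2,k2] [k1,k1,k0,k0,k1,k1,k1,k1,k1,k1,k1,k1] k0 [] k8 k5
    [[(k10,k2)],[(k6,k2),(k2,k3),(k3,k3)],[(k0,k3),(k5,k3),(k9,k3)],[(k0,k3),(k5,k3),(k9,k3)],[(k6,k2),(k2,k3),(k3,
    k3)],[(k4,k2),(k7,k2)],[(k4,k2),(k7,k2)],[(k0,k2),(k5,k2),(k9,k2)],[(k6,k2),(k2,k3),(k3,k3)],[(k8,k2),(k11,k2)],
    [(k8,k2),(k11,k2)],[(k1,k2)]]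
    [] k0
    []
    []]⟩

/-- classes `0 0 1 0 2 3`, types `C0 C2 S0 C2 S0 S0` -/
noncomputable def cT6_1131 : CertT :=
  ⟨[k4,k6,k16,k6,k32,k48],[],[[[]]],
    [.lp [k2,k4,k2,k2,k2,k2] [k1,k1,k0,k0,k1,k1,k1,k1,k1,k1,k1,k1] k0 [] k8 k5
    [[(k1,k2),(k10,k2)],[(k6,k2),(k2,k3),(k3,k3)],[(k0,k3),(k5,k3),(k9,k3)],[(k0,k3),(k5,k3),(k9,k3)],[(k6,k2),(k2,
    k3),(k3,k3)],[(k4,k2),(k7,k2)],[(k4,k2),(k7,k2)],[(k0,k2),(k5,k2),(k9,k2)],[(k6,k2),(k2,k3),(k3,k3)],[(k8,k2),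
    (k11,k2)],[(k8,k2),(k11,k2)],[(k1,k2),(k10,k2)]]
    [] k0
    []
    []]⟩

/-- classes `0 0 1 0 2 3`, types `S0 S0 C0 S0 C0 C0` -/
noncomputable def cT6_1132 : CertT :=
  ⟨[k0,k0,k20,k0,k36,k52],[(false,k0,[k0,k1,k2,k3,k4,k5])],[[[([z1,z0,z0,z0,z1,z1],z2)],[]]],
    [.leafM k0 [k0,k1,k2,k3,k4,k5] [(z1,[y1,z1])] [],
    .lp [k2,k4,k2,k2,k2,k2] [k1,k1,k0,k0,k1,k1,k1,k1,k1,k1,k1,k1] k0 [] k8 k5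
    [[(k10,k2)],[(k0,k2),(k5,k2),(k6,k2),(k9,k2),(k2,k3),(k3,k3)],[(k0,k3),(k5,k3),(k6,k3),(k9,k3),(k2,k4),(k3,k4)],
    [(k0,k3),(k5,k3),(k6,k3),(k9,k3),(k2,k4),(k3,k4)],[(k0,k2),(k5,k2),(k6,k2),(k9,k2),(k2,k3),(k3,k3)],[(k7,k2)],
    [(k4,k2)],[(k0,k2),(k5,k2),(k6,k2),(k9,k2),(k2,k3),(k3,k3)],[(k0,k2),(k5,k2),(k6,k2),(k9,k2),(k2,k3),(k3,k3)],
    [(k11,k2)],[(k8,k2)],[(k1,k2)]]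
    [] k0
    [[k1,k0,k0,k0,k1,k1]]
    [.ref k0 k0 [(z1,[z1])]]]⟩

/-- classes `0 0 1 0 2 3`, types `S0 S0 C0 S0 C0 S0` -/
noncomputable def cT6_1133 : CertT :=
  ⟨[k0,k0,k20,k0,k36,k48],[(false,k0,[k0,k1,k2,k3,k4,k5])],[[[([z1,z0,z0,z0,z1,z1],z2)],[]]],
    [.leafM k0 [k0,k1,k2,k3,k4,k5] [(z1,[y1,z1])] [],
    .lp [k12,k8,k6,k6,k6,k6] [k0,k0,k2,k2,k3,k3,k3,k3,k3,k3,k3,k3] k0 [] k24 k5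
    [[(k10,k9),(k1,k12)],[(k5,k9),(k6,k9),(k9,k9),(k2,k10),(k3,k10),(k0,k12)],[(k5,k7),(k6,k7),(k9,k7),(k2,k8),(k3,
    k8),(k0,k10)],[(k5,k7),(k6,k7),(k9,k7),(k2,k8),(k3,k8),(k0,k10)],[(k5,k6),(k6,k6),(k9,k6),(k2,k7),(k3,k7),(k0,
    k9)],[(k7,k6)],[(k4,k6)],[(k5,k6),(k6,k6),(k9,k6),(k2,k7),(k3,k7),(k0,k9)],[(k5,k6),(k6,k6),(k9,k6),(k2,k7),(k3,
    k7),(k0,k9)],[(k11,k6)],[(k8,k6)],[(k10,k6),(k1,k9)]]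
    [] k0
    [[k0,k1,k1,k1,k0,k0]]
    [.ref k0 k0 [(z1,[y1,z1])]]]⟩

/-- classes `0 0 1 0 2 3`, types `S0 S0 C0 S0 S0 C0` -/
noncomputable def cT6_1134 : CertT :=
  ⟨[k0,k0,k20,k0,k32,k52],[(false,k0,[k0,k1,k2,k3,k4,k5])],[[[([z1,z0,z0,z0,z1,z1],z2)],[]]],
    [.leafM k0 [k0,k1,k2,k3,k4,k5] [(z1,[y1,z1])] [],
    .lp [k10,k8,k6,k6,k8,k6] [k0,k0,k1,k1,k2,k2,k2,k2,k1,k1,k2,k2] k0 [] k24 k5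
    [[(k10,k8)],[(k5,k8),(k6,k8),(k2,k9),(k3,k9),(k9,k9),(k0,k10)],[(k5,k7),(k6,k7),(k2,k8),(k3,k8),(k9,k8),(k0,k9)],
    [(k5,k7),(k6,k7),(k2,k8),(k3,k8),(k9,k8),(k0,k9)],[(k5,k6),(k6,k6),(k2,k7),(k3,k7),(k9,k7),(k0,k8)],[(k7,k6)],
    [(k4,k6)],[(k5,k6),(k6,k6),(k2,k7),(k3,k7),(k9,k7),(k0,k8)],[(k5,k7),(k6,k7),(k2,k8),(k3,k8),(k9,k8),(k0,k9)],
    [(k11,k7),(k8,k8)],[(k11,k6),(k8,k7)],[(k1,k8)]]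
    [] k0
    [[k0,k1,k1,k1,k0,k0]]
    [.ref k0 k0 [(z1,[y1,z1])]]]⟩

/-- classes `0 0 1 0 2 3`, types `S0 S0 C0 S0 S0 S0` -/
noncomputable def cT6_1135 : CertT :=
  ⟨[k0,k0,k20,k0,k32,k48],[(false,k0,[k0,k1,k2,k3,k4,k5])],[[[([z1,z0,z0,z0,z1,z1],z2)],[]]],
    [.leafM k0 [k0,k1,k2,k3,k4,k5] [(z1,[y1,z1])] [],
    .lp [k10,k8,k6,k6,k8,k6] [k0,k0,k1,k1,k2,k2,k2,k2,k1,k1,k2,k2] k0 [] k24 k5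
    [[(k10,k8),(k1,k10)],[(k5,k8),(k6,k8),(k2,k9),(k3,k9),(k9,k9),(k0,k10)],[(k5,k7),(k6,k7),(k2,k8),(k3,k8),(k9,k8),
    (k0,k9)],[(k5,k7),(k6,k7),(k2,k8),(k3,k8),(k9,k8),(k0,k9)],[(k5,k6),(k6,k6),(k2,k7),(k3,k7),(k9,k7),(k0,k8)],[(k7,
    k6)],[(k4,k6)],[(k5,k6),(k6,k6),(k2,k7),(k3,k7),(k9,k7),(k0,k8)],[(k5,k7),(k6,k7),(k2,k8),(k3,k8),(k9,k8),(k0,
    k9)],[(k11,k7),(k8,k8)],[(k11,k6),(k8,k7)],[(k10,k6),(k1,k8)]]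
    [] k0
    [[k0,k1,k1,k1,k0,k0]]
    [.ref k0 k0 [(z1,[y1,z1])]]]⟩

/-- classes `0 0 1 0 2 3`, types `S0 S0 S0 S0 C0 C0` -/
noncomputable def cT6_1136 : CertT :=
  ⟨[k0,k0,k16,k0,k36,k52],[(false,k0,[k0,k1,k2,k3,k4,k5])],[[[([z1,z0,z0,z0,z1,z1],z2)],[]]],
    [.leafM k0 [k0,k1,k2,k3,k4,k5] [(z1,[y1,z1])] [],
    .lp [k12,k8,k6,k8,k12,k0] [k0,k0,k2,k2,k3,k3,k2,k2,k0,k0,k6,k6] k0 [[k0,k0,k0,k4],[],[k0,k4]] k24 k5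
    [[(k10,k6)],[(k2,k6),(k5,k9),(k3,k10),(k6,k10),(k0,k12),(k9,k12)],[(k2,k8),(k3,k8),(k6,k8),(k0,k10),(k9,k10),(k5,
    k11)],[(k0,k6),(k5,k7),(k2,k8),(k3,k8),(k6,k8),(k9,k10)],[(k5,k6),(k2,k7),(k6,k7),(k0,k9),(k9,k9),(k3,k11)],[(k4,
    k6),(k7,k7)],[(k4,k7),(k7,k8)],[(k5,k7),(k2,k8),(k3,k8),(k6,k8),(k0,k10),(k9,k10)],[(k5,k9),(k2,k10),(k3,k10),(k6,
    k10),(k0,k12),(k9,k12)],[(k11,k6)],[(k8,k6)],[(k1,k6)]]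
    [] k0
    [[k0,k1,k1,k1,k0,k0]]
    [.ref k0 k0 [(z1,[y1,z1])]]]⟩

/-- classes `0 0 1 0 2 3`, types `S0 S0 S0 S0 C0 S0` -/
noncomputable def cT6_1137 : CertT :=
  ⟨[k0,k0,k16,k0,k36,k48],[(false,k0,[k0,k1,k2,k3,k4,k5])],[[[([z1,z0,z0,z0,z1,z1],z2)],[]]],
    [.leafM k0 [k0,k1,k2,k3,k4,k5] [(z1,[y1,z1])] [],
    .lp [k2,k4,k2,k2,k2,k2] [k1,k1,k0,k0,k1,k1,k1,k1,k1,k1,k1,k1] k0 [] k8 k5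
    [[(k1,k2),(k10,k2)],[(k0,k2),(k5,k2),(k6,k2),(k9,k2),(k2,k3),(k3,k3)],[(k0,k3),(k5,k3),(k6,k3),(k9,k3),(k2,k4),
    (k3,k4)],[(k0,k3),(k5,k3),(k6,k3),(k9,k3),(k2,k4),(k3,k4)],[(k0,k2),(k5,k2),(k6,k2),(k9,k2),(k2,k3),(k3,k3)],[(k4,
    k2),(k7,k2)],[(k4,k2),(k7,k2)],[(k0,k2),(k5,k2),(k6,k2),(k9,k2),(k2,k3),(k3,k3)],[(k0,k2),(k5,k2),(k6,k2),(k9,k2),
    (k2,k3),(k3,k3)],[(k11,k2)],[(k8,k2)],[(k1,k2),(k10,k2)]]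
    [] k0
    [[k1,k0,k0,k0,k1,k1]]
    [.ref k0 k0 [(z1,[z1])]]]⟩

/-- classes `0 0 1 0 2 3`, types `S0 S0 S0 S0 S0 C0` -/
noncomputable def cT6_1138 : CertT :=
  ⟨[k0,k0,k16,k0,k32,k52],[(false,k0,[k0,k1,k2,k3,k4,k5])],[[[([z1,z0,z0,z0,z1,z1],z2)],[]]],
    [.leafM k0 [k0,k1,k2,k3,k4,k5] [(z1,[y1,z1])] [],
    .lp [k2,k4,k2,k2,k2,k2] [k1,k1,k0,k0,k1,k1,k1,k1,k1,k1,k1,k1] k0 [] k8 k5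
    [[(k10,k2)],[(k0,k2),(k5,k2),(k6,k2),(k9,k2),(k2,k3),(k3,k3)],[(k0,k3),(k5,k3),(k6,k3),(k9,k3),(k2,k4),(k3,k4)],
    [(k0,k3),(k5,k3),(k6,k3),(k9,k3),(k2,k4),(k3,k4)],[(k0,k2),(k5,k2),(k6,k2),(k9,k2),(k2,k3),(k3,k3)],[(k4,k2),(k7,
    k2)],[(k4,k2),(k7,k2)],[(k0,k2),(k5,k2),(k6,k2),(k9,k2),(k2,k3),(k3,k3)],[(k0,k2),(k5,k2),(k6,k2),(k9,k2),(k2,k3),
    (k3,k3)],[(k8,k2),(k11,k2)],[(k8,k2),(k11,k2)],[(k1,k2)]]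
    [] k0
    [[k1,k0,k0,k0,k1,k1]]
    [.ref k0 k0 [(z1,[z1])]]]⟩

/-- classes `0 0 1 1 2 2`, types `B0 B1 B0 B1 B0 B1` -/
noncomputable def cT6_1139 : CertT :=
  ⟨[k8,k9,k24,k25,k40,k41],[(false,k0,[k0,k1,k2,k3,k4,k5]),(false,k2,[k2,k3,k4,k5,k0,k1])],[[[([z1,z0,z1,z0,z1,z0],
    z2),([z0,z3,z0,z0,z0,z0],z2),([z0,z0,z0,z3,z0,z0],z2)],[([z3,z0,z3,z0,z3,z3],z8),([z0,z3,z0,z0,z0,z0],z2)],[([z3,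
    z0,z3,z3,z3,z3],z10)],[]]],
    [.leafM k2 [k0,k1,k2,k3,k4,k5] [(z1,[z0,z1]),(z1,[z0,z0,z1]),(z1,[y3,y1,y1,z3])] [],
    .lp [k12,k8,k4,k8,k8,k6] [k0,k0,k2,k2,k4,k4,k2,k2,k2,k2,k3,k3] k0 [] k24 k5
    [[(k11,k9),(k8,k10)],[(k5,k8),(k2,k10)],[(k5,k6),(k2,k8)],[(k3,k8),(k0,k10)],[(k3,k6),(k0,k8)],[(k6,k6),(k9,k6)],
    [(k6,k8),(k9,k8)],[(k4,k6),(k7,k8)],[(k4,k6),(k7,k8)],[(k10,k7),(k1,k10)],[(k10,k6),(k1,k9)],[(k11,k6),(k8,k7)]]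
    [] k0
    [[k0,k0,k0,k0,k0,k3]]
    [.ref k0 k0 [(z3,[y1,z1]),(z1,[z0,z0,z1]),(z1,[z0,y1,y1,z3])]],
    .lp [k12,k8,k4,k8,k8,k6] [k0,k0,k2,k2,k4,k4,k2,k2,k2,k2,k3,k3] k0 [] k24 k5
    [[(k11,k9),(k8,k10)],[(k5,k8),(k2,k10)],[(k5,k6),(k2,k8)],[(k3,k8),(k0,k10)],[(k3,k6),(k0,k8)],[(k6,k6),(k9,k6)],
    [(k6,k8),(k9,k8)],[(k4,k6),(k7,k8)],[(k4,k6),(k7,k8)],[(k10,k7),(k1,k10)],[(k10,k6),(k1,k9)],[(k11,k6),(k8,k7)]]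
    [] k0
    [[k0,k0,k0,k0,k0,k3]]
    [.ref k1 k1 [(z1,[y1,z1]),(z1,[z1])]],
    .lp [k12,k8,k4,k8,k8,k6] [k0,k0,k2,k2,k4,k4,k2,k2,k2,k2,k3,k3] k0 [] k24 k5
    [[(k11,k9),(k8,k10)],[(k5,k8),(k2,k10)],[(k5,k6),(k2,k8)],[(k3,k8),(k0,k10)],[(k3,k6),(k0,k8)],[(k6,k6),(k9,k6)],
    [(k6,k8),(k9,k8)],[(k4,k6),(k7,k8)],[(k4,k6),(k7,k8)],[(k10,k7),(k1,k10)],[(k10,k6),(k1,k9)],[(k11,k6),(k8,k7)]]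
    [] k0
    [[k0,k0,k0,k0,k0,k3]]
    [.ref k2 k1 [(z1,[y1,z3])]]]⟩

/-- classes `0 0 1 1 2 2`, types `B0 B1 B0 B1 C0 C0` -/
noncomputable def cT6_1140 : CertT :=
  ⟨[k8,k9,k24,k25,k36,k36],[(false,k0,[k0,k1,k2,k3,k4,k5])],[[[([z1,z0,z1,z0,z1,z0],z2),([z0,z3,z0,z0,z0,z0],z2),([z0,
    z0,z0,z3,z0,z0],z2)],[([z1,z0,z1,z0,z1,z0],z2),([z0,z3,z0,z0,z0,z0],z2)],[([z1,z0,z1,z0,z1,z0],z2)],[]]],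
    [.leafM k2 [k0,k1,k2,k3,k4,k5] [(z1,[z0,z1]),(z1,[z0,z0,z1]),(z1,[y3,y1,y1,z3])] [],
    .lp [k6,k8,k12,k6,k6,k8] [k3,k3,k2,k2,k0,k0,k3,k3,k3,k3,k2,k2] k0 [] k24 k5
    [[(k8,k6),(k10,k7)],[(k2,k7),(k5,k9)],[(k2,k8),(k5,k10)],[(k0,k7),(k3,k8)],[(k0,k9),(k3,k10)],[(k6,k9),(k9,k9)],
    [(k6,k6),(k9,k6)],[(k7,k6),(k4,k9)],[(k7,k6),(k4,k9)],[(k1,k6),(k11,k7)],[(k8,k7),(k10,k8)],[(k1,k7),(k11,k8)]]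
    [] k0
    [[k0,k0,k0,k3,k0,k0]]
    [.ref k0 k0 [(z1,[z0,z1]),(z1,[z0,z0,z1]),(z1,[z1])]],
    .lp [k8,k6,k12,k8,k4,k8] [k2,k2,k3,k3,k0,k0,k2,k2,k4,k4,k2,k2] k0 [] k24 k5
    [[(k8,k6),(k10,k8)],[(k2,k7),(k5,k10)],[(k2,k6),(k5,k9)],[(k3,k6),(k0,k7)],[(k3,k9),(k0,k10)],[(k9,k8),(k6,k10)],
    [(k9,k6),(k6,k8)],[(k7,k8),(k4,k10)],[(k7,k6),(k4,k8)],[(k1,k6),(k11,k6)],[(k8,k6),(k10,k8)],[(k1,k8),(k11,k8)]]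
    [] k0
    [[k0,k3,k0,k0,k0,k0]]
    [.ref k1 k0 [(z1,[z0,z1]),(z1,[z1])]],
    .lp [k6,k8,k6,k8,k6,k8] [k1,k1,k0,k0,k1,k1,k0,k0,k1,k1,k0,k0] k0 [] k24 k5
    [[(k8,k6),(k10,k7)],[(k5,k6),(k2,k7)],[(k5,k7),(k2,k8)],[(k0,k7),(k3,k8)],[(k0,k6),(k3,k7)],[(k9,k6),(k6,k7)],
    [(k9,k7),(k6,k8)],[(k4,k7),(k7,k8)],[(k4,k6),(k7,k7)],[(k1,k6),(k11,k7)],[(k8,k7),(k10,k8)],[(k1,k7),(k11,k8)]]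
    [] k0
    [[k1,k0,k1,k0,k1,k0]]
    [.ref k2 k0 [(z1,[z1])]]]⟩

/-- classes `0 0 1 1 2 2`, types `B0 B1 B0 B1 C0 C2` -/
noncomputable def cT6_1141 : CertT :=
  ⟨[k8,k9,k24,k25,k36,k38],[],[[[]]],
    [.lp [k2,k4,k4,k4,k2,k4] [k1,k1,k0,k0,k0,k0,k0,k0,k1,k1,k0,k0] k0 [] k12 k5
    [[(k10,k3),(k11,k3)],[(k2,k3),(k5,k3)],[(k2,k4),(k5,k4)],[(k0,k3),(k3,k4)],[(k0,k3),(k3,k4)],[(k9,k3),(k6,k4)],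
    [(k9,k3),(k6,k4)],[(k4,k4),(k7,k4)],[(k4,k3),(k7,k3)],[(k10,k3),(k11,k3)],[(k1,k3),(k8,k3)],[(k1,k3),(k8,k3)]]
    [] k0
    []
    []]⟩

/-- classes `0 0 1 1 2 2`, types `B0 B1 B0 B1 N0 N1` -/
noncomputable def cT6_1142 : CertT :=
  ⟨[k8,k9,k24,k25,k44,k45],[(false,k0,[k0,k1,k2,k3,k4,k5])],[[[([z1,z0,z1,z0,z1,z0],z2),([z0,z3,z0,z0,z0,z0],z2),([z0,
    z0,z0,z3,z0,z0],z2)],[([z1,z0,z1,z0,z1,z0],z2),([z0,z3,z0,z0,z0,z0],z2)],[([z1,z0,z1,z0,z1,z0],z2)],[]]],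
    [.leafM k2 [k0,k1,k2,k3,k4,k5] [(z1,[z0,z1]),(z1,[z0,z0,z1]),(z1,[y3,y1,y1,z3])] [],
    .lp [k6,k8,k12,k6,k6,k8] [k3,k3,k2,k2,k0,k0,k3,k3,k3,k3,k2,k2] k0 [] k24 k5
    [[(k8,k6)],[(k2,k7),(k5,k9)],[(k2,k8),(k5,k10)],[(k0,k7),(k3,k8)],[(k0,k9),(k3,k10)],[(k6,k9),(k9,k9)],[(k6,k6),
    (k9,k6)],[(k7,k6),(k4,k9)],[(k7,k6),(k4,k9)],[(k1,k6)],[(k10,k8)],[(k11,k8)]]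
    [] k0
    [[k0,k0,k0,k3,k0,k0]]
    [.ref k0 k0 [(z1,[z0,z1]),(z1,[z0,z0,z1]),(z1,[z1])]],
    .lp [k8,k6,k12,k8,k4,k8] [k2,k2,k3,k3,k0,k0,k2,k2,k4,k4,k2,k2] k0 [] k24 k5
    [[(k8,k6)],[(k2,k7),(k5,k10)],[(k2,k6),(k5,k9)],[(k3,k6),(k0,k7)],[(k3,k9),(k0,k10)],[(k9,k8),(k6,k10)],[(k9,k6),
    (k6,k8)],[(k7,k8),(k4,k10)],[(k7,k6),(k4,k8)],[(k1,k6)],[(k10,k8)],[(k11,k8)]]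
    [] k0
    [[k0,k3,k0,k0,k0,k0]]
    [.ref k1 k0 [(z1,[z0,z1]),(z1,[z1])]],
    .lp [k6,k8,k6,k8,k6,k8] [k1,k1,k0,k0,k1,k1,k0,k0,k1,k1,k0,k0] k0 [] k24 k5
    [[(k8,k6)],[(k5,k6),(k2,k7)],[(k5,k7),(k2,k8)],[(k0,k7),(k3,k8)],[(k0,k6),(k3,k7)],[(k9,k6),(k6,k7)],[(k9,k7),(k6,
    k8)],[(k4,k7),(k7,k8)],[(k4,k6),(k7,k7)],[(k1,k6)],[(k10,k8)],[(k11,k8)]]
    [] k0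
    [[k1,k0,k1,k0,k1,k0]]
    [.ref k2 k0 [(z1,[z1])]]]⟩

/-- classes `0 0 1 1 2 2`, types `B0 B1 B0 B1 N0 N2` -/
noncomputable def cT6_1143 : CertT :=
  ⟨[k8,k9,k24,k25,k44,k46],[],[[[]]],
    [.lp [k2,k4,k4,k4,k2,k4] [k1,k1,k0,k0,k0,k0,k0,k0,k1,k1,k0,k0] k0 [] k12 k5
    [[(k11,k3)],[(k2,k3),(k5,k3)],[(k2,k4),(k5,k4)],[(k0,k3),(k3,k4)],[(k0,k3),(k3,k4)],[(k9,k3),(k6,k4)],[(k9,k3),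
    (k6,k4)],[(k4,k4),(k7,k4)],[(k4,k3),(k7,k3)],[(k10,k3)],[(k1,k3)],[(k8,k3)]]
    [] k0
    []
    []]⟩

/-- classes `0 0 1 1 2 2`, types `B0 B1 B0 B1 S0 S0` -/
noncomputable def cT6_1144 : CertT :=
  ⟨[k8,k9,k24,k25,k32,k32],[(false,k0,[k0,k1,k2,k3,k4,k5])],[[[([z1,z0,z1,z0,z1,z0],z2),([z0,z3,z0,z0,z0,z0],z2),([z0,
    z0,z0,z3,z0,z0],z2)],[([z1,z0,z1,z0,z1,z0],z2),([z0,z3,z0,z0,z0,z0],z2)],[([z3,z0,z3,z3,z3,z3],z10)],[]]],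
    [.leafM k2 [k0,k1,k2,k3,k4,k5] [(z1,[z0,z1]),(z1,[z0,z0,z1]),(z1,[y3,y1,y1,z3])] [],
    .lp [k12,k8,k6,k6,k6,k8] [k0,k0,k2,k2,k3,k3,k3,k3,k3,k3,k2,k2] k0 [] k24 k5
    [[(k8,k9),(k10,k10),(k11,k10),(k1,k12)],[(k5,k9),(k2,k10)],[(k5,k7),(k2,k8)],[(k3,k8),(k0,k10)],[(k3,k7),(k0,k9)],
    [(k6,k6),(k9,k6)],[(k6,k6),(k9,k6)],[(k4,k6),(k7,k6)],[(k4,k6),(k7,k6)],[(k8,k6),(k10,k7),(k11,k7),(k1,k9)],[(k8,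
    k7),(k10,k8),(k11,k8),(k1,k10)],[(k8,k7),(k10,k8),(k11,k8),(k1,k10)]]
    [] k0
    [[k0,k0,k0,k3,k0,k0]]
    [.ref k0 k0 [(z1,[z0,z1]),(z1,[z0,z0,z1]),(z1,[z1])]],
    .lp [k6,k8,k6,k8,k6,k8] [k1,k1,k0,k0,k1,k1,k0,k0,k1,k1,k0,k0] k0 [] k24 k5
    [[(k1,k6),(k8,k6),(k10,k7),(k11,k7)],[(k5,k6),(k2,k7)],[(k5,k7),(k2,k8)],[(k0,k7),(k3,k8)],[(k0,k6),(k3,k7)],[(k9,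
    k6),(k6,k7)],[(k9,k7),(k6,k8)],[(k4,k7),(k7,k8)],[(k4,k6),(k7,k7)],[(k1,k6),(k8,k6),(k10,k7),(k11,k7)],[(k1,k7),
    (k8,k7),(k10,k8),(k11,k8)],[(k1,k7),(k8,k7),(k10,k8),(k11,k8)]]
    [] k0
    [[k1,k0,k1,k0,k1,k0]]
    [.ref k1 k0 [(z1,[z1]),(z1,[z0,y1,z3])]],
    .lp [k12,k6,k6,k8,k6,k8] [k0,k0,k3,k3,k3,k3,k2,k2,k3,k3,k2,k2] k0 [] k24 k5
    [[(k8,k9),(k10,k10),(k11,k10),(k1,k12)],[(k2,k9),(k5,k9)],[(k2,k6),(k5,k6)],[(k3,k6),(k0,k9)],[(k3,k6),(k0,k9)],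
    [(k9,k6),(k6,k7)],[(k9,k7),(k6,k8)],[(k4,k7),(k7,k8)],[(k4,k6),(k7,k7)],[(k8,k6),(k10,k7),(k11,k7),(k1,k9)],[(k8,
    k7),(k10,k8),(k11,k8),(k1,k10)],[(k8,k7),(k10,k8),(k11,k8),(k1,k10)]]
    [] k0
    [[k0,k3,k0,k0,k0,k0]]
    [.ref k2 k0 [(z1,[y1,z3])]]]⟩

/-- classes `0 0 1 1 2 2`, types `B0 B1 C0 C0 C0 C0` -/
noncomputable def cT6_1145 : CertT :=
  ⟨[k8,k9,k20,k20,k36,k36],[(false,k0,[k0,k1,k2,k3,k4,k5]),(true,k2,[k2,k1,k0,k5,k4,k3])],[[[([z1,z0,z1,z0,z1,z0],z2),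
    ([z0,z3,z0,z0,z0,z0],z2),([z0,z0,z0,z3,z0,z0],z2)],[([z3,z3,z3,z0,z3,z0],z8),([z0,z0,z0,z3,z0,z0],z2)],[([z3,z3,
    z3,z0,z3,z3],z10)],[]]],
    [.leafM k2 [k0,k1,k2,k3,k4,k5] [(z1,[z0,z1]),(z1,[z0,z0,z1]),(z1,[y3,y1,y1,z3])] [],
    .lp [k6,k6,k12,k8,k6,k8] [k3,k3,k3,k3,k0,k0,k2,k2,k3,k3,k2,k2] k0 [] k24 k5
    [[(k8,k6),(k10,k7)],[(k2,k6),(k5,k9)],[(k2,k6),(k5,k9)],[(k0,k6),(k3,k6)],[(k0,k9),(k3,k9)],[(k9,k9),(k7,k10)],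
    [(k6,k8),(k4,k10)],[(k9,k7),(k7,k8)],[(k6,k7),(k4,k9)],[(k1,k6),(k11,k7)],[(k8,k7),(k10,k8)],[(k1,k7),(k11,k8)]]
    [] k0
    [[k0,k3,k0,k0,k0,k0]]
    [.ref k0 k0 [(z3,[y1,z1]),(z1,[z1]),(z1,[z0,z0,z1])]],
    .lp [k6,k8,k12,k8,k6,k6] [k3,k3,k2,k2,k0,k0,k2,k2,k3,k3,k3,k3] k0 [] k24 k5
    [[(k8,k6),(k10,k6)],[(k2,k7),(k5,k9)],[(k2,k8),(k5,k10)],[(k0,k7),(k3,k8)],[(k0,k9),(k3,k10)],[(k9,k9),(k7,k10)],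
    [(k6,k8),(k4,k10)],[(k9,k7),(k7,k8)],[(k6,k7),(k4,k9)],[(k1,k6),(k11,k6)],[(k8,k6),(k10,k6)],[(k1,k6),(k11,k6)]]
    [] k0
    [[k0,k0,k0,k0,k0,k3]]
    [.ref k1 k0 [(z1,[y1,z1]),(z1,[z0,y1,z3])]],
    .lp [k6,k8,k12,k8,k6,k6] [k3,k3,k2,k2,k0,k0,k2,k2,k3,k3,k3,k3] k0 [] k24 k5
    [[(k8,k6),(k10,k6)],[(k2,k7),(k5,k9)],[(k2,k8),(k5,k10)],[(k0,k7),(k3,k8)],[(k0,k9),(k3,k10)],[(k9,k9),(k7,k10)],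
    [(k6,k8),(k4,k10)],[(k9,k7),(k7,k8)],[(k6,k7),(k4,k9)],[(k1,k6),(k11,k6)],[(k8,k6),(k10,k6)],[(k1,k6),(k11,k6)]]
    [] k0
    [[k0,k0,k0,k0,k0,k3]]
    [.ref k2 k1 [(z1,[y1,z3])]]]⟩

/-- classes `0 0 1 1 2 2`, types `B0 B1 C0 C0 C0 C2` -/
noncomputable def cT6_1146 : CertT :=
  ⟨[k8,k9,k20,k20,k36,k38],[],[[[]]],
    [.lp [k2,k4,k4,k4,k2,k4] [k1,k1,k0,k0,k0,k0,k0,k0,k1,k1,k0,k0] k0 [] k12 k5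
    [[(k10,k3),(k11,k3)],[(k2,k3),(k5,k3)],[(k2,k4),(k5,k4)],[(k0,k3),(k3,k4)],[(k0,k3),(k3,k4)],[(k9,k3),(k7,k4)],
    [(k4,k4),(k6,k4)],[(k9,k3),(k7,k4)],[(k4,k3),(k6,k3)],[(k10,k3),(k11,k3)],[(k1,k3),(k8,k3)],[(k1,k3),(k8,k3)]]
    [] k0
    []
    []]⟩

/-- classes `0 0 1 1 2 2`, types `B0 B1 C0 C0 N0 N1` -/
noncomputable def cT6_1147 : CertT :=
  ⟨[k8,k9,k20,k20,k44,k45],[(false,k0,[k0,k1,k2,k3,k4,k5])],[[[([z1,z0,z1,z0,z1,z0],z2),([z0,z3,z0,z0,z0,z0],z2),([z0,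
    z0,z0,z3,z0,z0],z2)],[([z3,z0,z3,z3,z3,z0],z8),([z0,z3,z0,z0,z0,z0],z2)],[([z3,z3,z3,z3,z3,z0],z10)],[]]],
    [.leafM k2 [k0,k1,k2,k3,k4,k5] [(z1,[z0,z1]),(z1,[z0,z0,z1]),(z1,[y3,y1,y1,z3])] [],
    .lp [k6,k8,k6,k8,k6,k8] [k1,k1,k0,k0,k1,k1,k0,k0,k1,k1,k0,k0] k0 [] k24 k5
    [[(k8,k6)],[(k5,k6),(k2,k7)],[(k5,k7),(k2,k8)],[(k0,k7),(k3,k8)],[(k0,k6),(k3,k7)],[(k9,k6),(k7,k7)],[(k4,k7),(k6,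
    k8)],[(k9,k7),(k7,k8)],[(k4,k6),(k6,k7)],[(k1,k6)],[(k10,k8)],[(k11,k8)]]
    [] k0
    [[k1,k0,k1,k0,k1,k0]]
    [.ref k0 k0 [(z1,[z1]),(z1,[z0,z0,z1]),(z1,[y3,z1])]],
    .lp [k6,k6,k12,k8,k6,k8] [k3,k3,k3,k3,k0,k0,k2,k2,k3,k3,k2,k2] k0 [] k24 k5
    [[(k8,k6)],[(k2,k6),(k5,k9)],[(k2,k6),(k5,k9)],[(k0,k6),(k3,k6)],[(k0,k9),(k3,k9)],[(k9,k9),(k7,k10)],[(k6,k8),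
    (k4,k10)],[(k9,k7),(k7,k8)],[(k6,k7),(k4,k9)],[(k1,k6)],[(k10,k8)],[(k11,k8)]]
    [] k0
    [[k0,k3,k0,k0,k0,k0]]
    [.ref k1 k0 [(z1,[y1,z1]),(z1,[z1])]],
    .lp [k4,k8,k12,k8,k8,k6] [k4,k4,k2,k2,k0,k0,k2,k2,k2,k2,k3,k3] k0 [] k24 k5
    [[(k8,k6)],[(k2,k6),(k5,k8)],[(k2,k8),(k5,k10)],[(k0,k6),(k3,k8)],[(k0,k8),(k3,k10)],[(k7,k10),(k9,k10)],[(k6,k8),
    (k4,k10)],[(k7,k8),(k9,k8)],[(k6,k8),(k4,k10)],[(k1,k6)],[(k10,k6)],[(k11,k6)]]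
    [] k0
    [[k0,k0,k0,k0,k0,k3]]
    [.ref k2 k0 [(z1,[y1,z3])]]]⟩

/-- the certificates of this file -/
noncomputable def lT6_10 : List CertT :=
  [cT6_976, cT6_977, cT6_978, cT6_979, cT6_980, cT6_981, cT6_982, cT6_983, cT6_984, cT6_985, cT6_986, cT6_987,
      cT6_988, cT6_989, cT6_990, cT6_991, cT6_992, cT6_993, cT6_994, cT6_995, cT6_996, cT6_997, cT6_998,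
      cT6_999, cT6_1000, cT6_1001, cT6_1002, cT6_1003, cT6_1004, cT6_1005, cT6_1006, cT6_1007, cT6_1008,
      cT6_1009, cT6_1010, cT6_1011, cT6_1012, cT6_1013, cT6_1014, cT6_1015, cT6_1016, cT6_1017, cT6_1018,
      cT6_1019, cT6_1020, cT6_1021, cT6_1022, cT6_1023, cT6_1024, cT6_1025, cT6_1026, cT6_1027, cT6_1028,
      cT6_1029, cT6_1030, cT6_1031, cT6_1032, cT6_1033, cT6_1034, cT6_1035, cT6_1036, cT6_1037, cT6_1038,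
      cT6_1039, cT6_1040, cT6_1041, cT6_1042, cT6_1043, cT6_1044, cT6_1045, cT6_1046, cT6_1047, cT6_1048,
      cT6_1049, cT6_1050, cT6_1051, cT6_1052, cT6_1053, cT6_1054, cT6_1055, cT6_1056, cT6_1057, cT6_1058,
      cT6_1059, cT6_1060, cT6_1061, cT6_1062, cT6_1063, cT6_1064, cT6_1065, cT6_1066, cT6_1067, cT6_1068,
      cT6_1069, cT6_1070, cT6_1071, cT6_1072, cT6_1073, cT6_1074, cT6_1075, cT6_1076, cT6_1077, cT6_1078,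
      cT6_1079, cT6_1080, cT6_1081, cT6_1082, cT6_1083, cT6_1084, cT6_1085, cT6_1086, cT6_1087, cT6_1088,
      cT6_1089, cT6_1090, cT6_1091, cT6_1092, cT6_1093, cT6_1094, cT6_1095, cT6_1096, cT6_1097, cT6_1098,
      cT6_1099, cT6_1100, cT6_1101, cT6_1102, cT6_1103, cT6_1104, cT6_1105, cT6_1106, cT6_1107, cT6_1108,
      cT6_1109, cT6_1110, cT6_1111, cT6_1112, cT6_1113, cT6_1114, cT6_1115, cT6_1116, cT6_1117, cT6_1118,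
      cT6_1119, cT6_1120, cT6_1121, cT6_1122, cT6_1123, cT6_1124, cT6_1125, cT6_1126, cT6_1127, cT6_1128,
      cT6_1129, cT6_1130, cT6_1131, cT6_1132, cT6_1133, cT6_1134, cT6_1135, cT6_1136, cT6_1137, cT6_1138,
      cT6_1139, cT6_1140, cT6_1141, cT6_1142, cT6_1143, cT6_1144, cT6_1145, cT6_1146, cT6_1147]

theorem gT6_10 : allF (chkC 6 tt6) lT6_10 = true := by
  decide +kernel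

end Pool.Agent.Lib_MP_fa6e45
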