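import Pool.Agent.Lib_MP_fa6e45.CSTT
import Pool.Agent.Lib_MP_fa6e45.HK

/-!
MP_fa6e45_co, stage 5: certificates (captain, generated by a program).
-/

namespace Pool.Agent.Lib_MP_fa6e45

/-- classes `0 0 1 1 2 2`, types `B0 B1 C0 C0 N0 N2` -/
noncomputable def cT6_1148 : CertT :=
  ⟨[k8,k9,k20,k20,k44,k46],[],[[[]]],
    [.lp [k2,k4,k4,k4,k2,k4] [k1,k1,k0,k0,k0,k0,k0,k0,k1,k1,k0,k0] k0 [] k12 k5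
    [[(k11,k3)],[(k2,k3),(k5,k3)],[(k2,k4),(k5,k4)],[(k0,k3),(k3,k4)],[(k0,k3),(k3,k4)],[(k9,k3),(k7,k4)],[(k4,k4),
    (k6,k4)],[(k9,k3),(k7,k4)],[(k4,k3),(k6,k3)],[(k10,k3)],[(k1,k3)],[(k8,k3)]]
    [] k0
    []
    []]⟩

/-- classes `0 0 1 1 2 2`, types `B0 B1 C0 C0 S0 S0` -/
noncomputable def cT6_1149 : CertT :=
  ⟨[k8,k9,k20,k20,k32,k32],[(false,k0,[k0,k1,k2,k3,k4,k5])],[[[([z1,z0,z1,z0,z1,z0],z2),([z0,z3,z0,z0,z0,z0],z2),([z0,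
    z0,z0,z3,z0,z0],z2)],[([z3,z3,z3,z0,z3,z0],z8),([z0,z0,z0,z3,z0,z0],z2)],[([z3,z3,z3,z3,z3,z0],z10)],[]]],
    [.leafM k2 [k0,k1,k2,k3,k4,k5] [(z1,[z0,z1]),(z1,[z0,z0,z1]),(z1,[y3,y1,y1,z3])] [],
    .lp [k6,k8,k6,k8,k6,k8] [k1,k1,k0,k0,k1,k1,k0,k0,k1,k1,k0,k0] k0 [] k24 k5
    [[(k1,k6),(k8,k6),(k10,k7),(k11,k7)],[(k5,k6),(k2,k7)],[(k5,k7),(k2,k8)],[(k0,k7),(k3,k8)],[(k0,k6),(k3,k7)],[(k9,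
    k6),(k7,k7)],[(k4,k7),(k6,k8)],[(k9,k7),(k7,k8)],[(k4,k6),(k6,k7)],[(k1,k6),(k8,k6),(k10,k7),(k11,k7)],[(k1,k7),
    (k8,k7),(k10,k8),(k11,k8)],[(k1,k7),(k8,k7),(k10,k8),(k11,k8)]]
    [] k0
    [[k1,k0,k1,k0,k1,k0]]
    [.ref k0 k0 [(z1,[z1]),(z1,[y3,z1]),(z1,[z0,z0,z1])]],
    .lp [k12,k8,k6,k6,k6,k8] [k0,k0,k2,k2,k3,k3,k3,k3,k3,k3,k2,k2] k0 [] k24 k5
    [[(k8,k9),(k10,k10),(k11,k10),(k1,k12)],[(k5,k9),(k2,k10)],[(k5,k7),(k2,k8)],[(k3,k8),(k0,k10)],[(k3,k7),(k0,k9)],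
    [(k7,k6),(k9,k6)],[(k4,k6),(k6,k6)],[(k7,k6),(k9,k6)],[(k4,k6),(k6,k6)],[(k8,k6),(k10,k7),(k11,k7),(k1,k9)],[(k8,
    k7),(k10,k8),(k11,k8),(k1,k10)],[(k8,k7),(k10,k8),(k11,k8),(k1,k10)]]
    [] k0
    [[k0,k0,k0,k3,k0,k0]]
    [.ref k1 k0 [(z1,[y1,z1]),(z1,[z1])]],
    .lp [k12,k8,k4,k8,k8,k6] [k0,k0,k2,k2,k4,k4,k2,k2,k2,k2,k3,k3] k0 [] k24 k5
    [[(k10,k9),(k11,k9),(k8,k10),(k1,k12)],[(k5,k8),(k2,k10)],[(k5,k6),(k2,k8)],[(k3,k8),(k0,k10)],[(k3,k6),(k0,k8)],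
    [(k7,k6),(k9,k6)],[(k4,k6),(k6,k8)],[(k7,k8),(k9,k8)],[(k4,k6),(k6,k8)],[(k10,k7),(k11,k7),(k8,k8),(k1,k10)],
    [(k10,k6),(k11,k6),(k8,k7),(k1,k9)],[(k10,k6),(k11,k6),(k8,k7),(k1,k9)]]
    [] k0
    [[k0,k0,k0,k0,k0,k3]]
    [.ref k2 k0 [(z1,[y1,z3])]]]⟩

/-- classes `0 0 1 1 2 2`, types `B0 B1 C0 C2 C0 C2` -/
noncomputable def cT6_1150 : CertT :=
  ⟨[k8,k9,k20,k22,k36,k38],[],[[[]]],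
    [.lp [k6,k8,k6,k6,k6,k6] [k1,k1,k0,k0,k1,k1,k1,k1,k1,k1,k1,k1] k0 [] k24 k5
    [[(k10,k6),(k11,k6)],[(k5,k6),(k2,k7)],[(k5,k7),(k2,k8)],[(k0,k7),(k3,k8)],[(k0,k6),(k3,k7)],[(k6,k6),(k7,k6)],
    [(k4,k6),(k9,k6)],[(k4,k6),(k9,k6)],[(k6,k6),(k7,k6)],[(k10,k6),(k11,k6)],[(k1,k6),(k8,k6)],[(k1,k6),(k8,k6)]]
    [] k0
    []
    []]⟩

/-- classes `0 0 1 1 2 2`, types `B0 B1 C0 C2 N0 N1` -/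
noncomputable def cT6_1151 : CertT :=
  ⟨[k8,k9,k20,k22,k44,k45],[],[[[]]],
    [.lp [k4,k4,k2,k4,k2,k4] [k0,k0,k0,k0,k1,k1,k0,k0,k1,k1,k0,k0] k0 [] k12 k5
    [[(k8,k3)],[(k5,k3),(k2,k4)],[(k5,k3),(k2,k4)],[(k0,k4),(k3,k4)],[(k0,k3),(k3,k3)],[(k6,k3),(k7,k3)],[(k4,k3),(k9,
    k3)],[(k4,k3),(k9,k3)],[(k6,k3),(k7,k3)],[(k1,k3)],[(k10,k4)],[(k11,k4)]]
    [] k0
    []
    []]⟩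

/-- classes `0 0 1 1 2 2`, types `B0 B1 C0 C2 N0 N2` -/
noncomputable def cT6_1152 : CertT :=
  ⟨[k8,k9,k20,k22,k44,k46],[],[[[]]],
    [.lp [k6,k8,k6,k6,k6,k6] [k1,k1,k0,k0,k1,k1,k1,k1,k1,k1,k1,k1] k0 [] k24 k5
    [[(k11,k6)],[(k5,k6),(k2,k7)],[(k5,k7),(k2,k8)],[(k0,k7),(k3,k8)],[(k0,k6),(k3,k7)],[(k6,k6),(k7,k6)],[(k4,k6),
    (k9,k6)],[(k4,k6),(k9,k6)],[(k6,k6),(k7,k6)],[(k10,k6)],[(k1,k6)],[(k8,k6)]]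
    [] k0
    []
    []]⟩

/-- classes `0 0 1 1 2 2`, types `B0 B1 C0 C2 S0 S0` -/
noncomputable def cT6_1153 : CertT :=
  ⟨[k8,k9,k20,k22,k32,k32],[],[[[]]],
    [.lp [k12,k16,k12,k12,k18,k16] [k3,k3,k1,k1,k3,k3,k3,k3,k0,k0,k1,k1] k0 [] k48 k5
    [[(k1,k12),(k10,k14),(k11,k14),(k8,k15)],[(k5,k12),(k2,k14)],[(k5,k14),(k2,k16)],[(k0,k14),(k3,k16)],[(k0,k12),
    (k3,k14)],[(k6,k12),(k7,k12)],[(k4,k12),(k9,k15)],[(k4,k12),(k9,k15)],[(k6,k15),(k7,k15)],[(k1,k15),(k10,k17),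
    (k11,k17),(k8,k18)],[(k1,k14),(k10,k16),(k11,k16),(k8,k17)],[(k1,k14),(k10,k16),(k11,k16),(k8,k17)]]
    [] k0
    []
    []]⟩

/-- classes `0 0 1 1 2 2`, types `B0 B1 N0 N1 N0 N1` -/
noncomputable def cT6_1154 : CertT :=
  ⟨[k8,k9,k28,k29,k44,k45],[(false,k0,[k0,k1,k2,k3,k4,k5]),(true,k2,[k2,k1,k0,k5,k4,k3])],[[[([z1,z0,z1,z0,z1,z0],z2),
    ([z0,z3,z0,z0,z0,z0],z2),([z0,z0,z0,z3,z0,z0],z2)],[([z3,z3,z3,z0,z3,z0],z8),([z0,z0,z0,z3,z0,z0],z2)],[([z3,z3,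
    z3,z0,z3,z3],z10)],[]]],
    [.leafM k2 [k0,k1,k2,k3,k4,k5] [(z1,[z0,z1]),(z1,[z0,z0,z1]),(z1,[y3,y1,y1,z3])] [],
    .lp [k6,k6,k12,k8,k6,k8] [k3,k3,k3,k3,k0,k0,k2,k2,k3,k3,k2,k2] k0 [] k24 k5
    [[(k8,k6)],[(k2,k6),(k5,k9)],[(k2,k6),(k5,k9)],[(k0,k6),(k3,k6)],[(k0,k9),(k3,k9)],[(k9,k9)],[(k6,k8)],[(k7,k8)],
    [(k4,k9)],[(k1,k6)],[(k10,k8)],[(k11,k8)]]
    [] k0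
    [[k0,k3,k0,k0,k0,k0]]
    [.ref k0 k0 [(z3,[y1,z1]),(z1,[z1]),(z1,[z0,z0,z1])]],
    .lp [k4,k8,k12,k8,k8,k6] [k4,k4,k2,k2,k0,k0,k2,k2,k2,k2,k3,k3] k0 [] k24 k5
    [[(k8,k6)],[(k2,k6),(k5,k8)],[(k2,k8),(k5,k10)],[(k0,k6),(k3,k8)],[(k0,k8),(k3,k10)],[(k9,k10)],[(k6,k8)],[(k7,
    k8)],[(k4,k10)],[(k1,k6)],[(k10,k6)],[(k11,k6)]]
    [] k0
    [[k0,k0,k0,k0,k0,k3]]
    [.ref k1 k0 [(z1,[y1,z1]),(z1,[z0,y1,z3])]],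
    .lp [k4,k8,k12,k8,k8,k6] [k4,k4,k2,k2,k0,k0,k2,k2,k2,k2,k3,k3] k0 [] k24 k5
    [[(k8,k6)],[(k2,k6),(k5,k8)],[(k2,k8),(k5,k10)],[(k0,k6),(k3,k8)],[(k0,k8),(k3,k10)],[(k9,k10)],[(k6,k8)],[(k7,
    k8)],[(k4,k10)],[(k1,k6)],[(k10,k6)],[(k11,k6)]]
    [] k0
    [[k0,k0,k0,k0,k0,k3]]
    [.ref k2 k1 [(z1,[y1,z3])]]]⟩

/-- classes `0 0 1 1 2 2`, types `B0 B1 N0 N1 N0 N2` -/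
noncomputable def cT6_1155 : CertT :=
  ⟨[k8,k9,k28,k29,k44,k46],[],[[[]]],
    [.lp [k2,k4,k4,k4,k2,k4] [k1,k1,k0,k0,k0,k0,k0,k0,k1,k1,k0,k0] k0 [] k12 k5
    [[(k11,k3)],[(k2,k3),(k5,k3)],[(k2,k4),(k5,k4)],[(k0,k3),(k3,k4)],[(k0,k3),(k3,k4)],[(k9,k3)],[(k6,k4)],[(k7,k4)],
    [(k4,k3)],[(k10,k3)],[(k1,k3)],[(k8,k3)]]
    [] k0
    []
    []]⟩

/-- classes `0 0 1 1 2 2`, types `B0 B1 N0 N1 S0 S0` -/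
noncomputable def cT6_1156 : CertT :=
  ⟨[k8,k9,k28,k29,k32,k32],[(false,k0,[k0,k1,k2,k3,k4,k5])],[[[([z1,z0,z1,z0,z1,z0],z2),([z0,z3,z0,z0,z0,z0],z2),([z0,
    z0,z0,z3,z0,z0],z2)],[([z3,z3,z3,z0,z3,z0],z8),([z0,z0,z0,z3,z0,z0],z2)],[([z3,z3,z3,z3,z3,z0],z10)],[]]],
    [.leafM k2 [k0,k1,k2,k3,k4,k5] [(z1,[z0,z1]),(z1,[z0,z0,z1]),(z1,[y3,y1,y1,z3])] [],
    .lp [k6,k8,k6,k8,k6,k8] [k1,k1,k0,k0,k1,k1,k0,k0,k1,k1,k0,k0] k0 [] k24 k5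
    [[(k1,k6),(k8,k6),(k10,k7),(k11,k7)],[(k5,k6),(k2,k7)],[(k5,k7),(k2,k8)],[(k0,k7),(k3,k8)],[(k0,k6),(k3,k7)],[(k9,
    k6)],[(k6,k8)],[(k7,k8)],[(k4,k6)],[(k1,k6),(k8,k6),(k10,k7),(k11,k7)],[(k1,k7),(k8,k7),(k10,k8),(k11,k8)],[(k1,
    k7),(k8,k7),(k10,k8),(k11,k8)]]
    [] k0
    [[k1,k0,k1,k0,k1,k0]]
    [.ref k0 k0 [(z1,[z1]),(z1,[y3,z1]),(z1,[z0,z0,z1])]],
    .lp [k12,k8,k4,k6,k8,k8] [k0,k0,k2,k2,k4,k4,k3,k3,k2,k2,k2,k2] k0 [] k24 k5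
    [[(k8,k10),(k10,k10),(k11,k10),(k1,k12)],[(k5,k8),(k2,k10)],[(k5,k6),(k2,k8)],[(k3,k8),(k0,k10)],[(k3,k6),(k0,
    k8)],[(k9,k6)],[(k6,k6)],[(k7,k6)],[(k4,k6)],[(k8,k8),(k10,k8),(k11,k8),(k1,k10)],[(k8,k8),(k10,k8),(k11,k8),(k1,
    k10)],[(k8,k8),(k10,k8),(k11,k8),(k1,k10)]]
    [] k0
    [[k0,k0,k0,k3,k0,k0]]
    [.ref k1 k0 [(z1,[y1,z1]),(z1,[z1])]],
    .lp [k12,k8,k4,k8,k8,k6] [k0,k0,k2,k2,k4,k4,k2,k2,k2,k2,k3,k3] k0 [] k24 k5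
    [[(k10,k9),(k11,k9),(k8,k10),(k1,k12)],[(k5,k8),(k2,k10)],[(k5,k6),(k2,k8)],[(k3,k8),(k0,k10)],[(k3,k6),(k0,k8)],
    [(k9,k6)],[(k6,k8)],[(k7,k8)],[(k4,k6)],[(k10,k7),(k11,k7),(k8,k8),(k1,k10)],[(k10,k6),(k11,k6),(k8,k7),(k1,k9)],
    [(k10,k6),(k11,k6),(k8,k7),(k1,k9)]]
    [] k0
    [[k0,k0,k0,k0,k0,k3]]
    [.ref k2 k0 [(z1,[y1,z3])]]]⟩

/-- classes `0 0 1 1 2 2`, types `B0 B1 N0 N2 N0 N2` -/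
noncomputable def cT6_1157 : CertT :=
  ⟨[k8,k9,k28,k30,k44,k46],[],[[[]]],
    [.lp [k6,k8,k6,k6,k6,k6] [k1,k1,k0,k0,k1,k1,k1,k1,k1,k1,k1,k1] k0 [] k24 k5
    [[(k11,k6)],[(k5,k6),(k2,k7)],[(k5,k7),(k2,k8)],[(k0,k7),(k3,k8)],[(k0,k6),(k3,k7)],[(k6,k6)],[(k9,k6)],[(k4,k6)],
    [(k7,k6)],[(k10,k6)],[(k1,k6)],[(k8,k6)]]
    [] k0
    []
    []]⟩

/-- classes `0 0 1 1 2 2`, types `B0 B1 N0 N2 S0 S0` -/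
noncomputable def cT6_1158 : CertT :=
  ⟨[k8,k9,k28,k30,k32,k32],[],[[[]]],
    [.lp [k6,k8,k6,k6,k6,k8] [k1,k1,k0,k0,k1,k1,k1,k1,k1,k1,k0,k0] k0 [] k24 k5
    [[(k1,k6),(k8,k6),(k10,k7),(k11,k7)],[(k5,k6),(k2,k7)],[(k5,k7),(k2,k8)],[(k0,k7),(k3,k8)],[(k0,k6),(k3,k7)],[(k6,
    k6)],[(k9,k6)],[(k4,k6)],[(k7,k6)],[(k1,k6),(k8,k6),(k10,k7),(k11,k7)],[(k1,k7),(k8,k7),(k10,k8),(k11,k8)],[(k1,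
    k7),(k8,k7),(k10,k8),(k11,k8)]]
    [] k0
    []
    []]⟩

/-- classes `0 0 1 1 2 2`, types `B0 B1 S0 S0 S0 S0` -/
noncomputable def cT6_1159 : CertT :=
  ⟨[k8,k9,k16,k16,k32,k32],[(false,k0,[k0,k1,k2,k3,k4,k5])],[[[([z1,z0,z1,z0,z1,z0],z2),([z0,z3,z0,z0,z0,z0],z2),([z0,
    z0,z0,z3,z0,z0],z2)],[([z3,z0,z3,z0,z3,z3],z8),([z0,z3,z0,z0,z0,z0],z2)],[([z3,z3,z3,z0,z3,z3],z10)],[]]],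
    [.leafM k2 [k0,k1,k2,k3,k4,k5] [(z1,[z0,z1]),(z1,[z0,z0,z1]),(z1,[y3,y1,y1,z3])] [],
    .lp [k6,k8,k6,k8,k8,k8] [k1,k1,k0,k0,k1,k1,k0,k0,k0,k0,k0,k0] k0 [] k24 k5
    [[(k1,k6),(k8,k7),(k10,k7),(k11,k7)],[(k5,k6),(k2,k7)],[(k5,k7),(k2,k8)],[(k0,k7),(k3,k8)],[(k0,k6),(k3,k7)],[(k4,
    k6),(k6,k7),(k7,k7),(k9,k7)],[(k4,k7),(k6,k8),(k7,k8),(k9,k8)],[(k4,k7),(k6,k8),(k7,k8),(k9,k8)],[(k4,k7),(k6,k8),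
    (k7,k8),(k9,k8)],[(k1,k7),(k8,k8),(k10,k8),(k11,k8)],[(k1,k7),(k8,k8),(k10,k8),(k11,k8)],[(k1,k7),(k8,k8),(k10,
    k8),(k11,k8)]]
    [] k0
    [[k1,k0,k1,k0,k1,k0]]
    [.ref k0 k0 [(z1,[z1]),(z1,[z0,z0,z1]),(z1,[z0,y1,y1,z3])]],
    .lp [k10,k6,k6,k8,k8,k8] [k0,k0,k2,k2,k2,k2,k1,k1,k1,k1,k1,k1] k0 [] k24 k5
    [[(k8,k9),(k10,k9),(k11,k9),(k1,k10)],[(k2,k8),(k5,k8)],[(k2,k6),(k5,k6)],[(k3,k6),(k0,k8)],[(k3,k6),(k0,k8)],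
    [(k4,k6),(k6,k7),(k7,k7),(k9,k7)],[(k4,k7),(k6,k8),(k7,k8),(k9,k8)],[(k4,k7),(k6,k8),(k7,k8),(k9,k8)],[(k4,k7),
    (k6,k8),(k7,k8),(k9,k8)],[(k8,k8),(k10,k8),(k11,k8),(k1,k9)],[(k8,k8),(k10,k8),(k11,k8),(k1,k9)],[(k8,k8),(k10,
    k8),(k11,k8),(k1,k9)]]
    [] k0
    [[k0,k3,k0,k0,k0,k0]]
    [.ref k1 k0 [(z1,[y1,z1]),(z1,[z1])]],
    .lp [k18,k16,k12,k12,k18,k16] [k0,k0,k1,k1,k3,k3,k3,k3,k0,k0,k1,k1] k0 [] k48 k5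
    [[(k10,k17),(k11,k17),(k1,k18),(k8,k18)],[(k5,k15),(k2,k17)],[(k5,k14),(k2,k16)],[(k3,k16),(k0,k17)],[(k3,k14),
    (k0,k15)],[(k4,k12),(k6,k12),(k7,k12),(k9,k15)],[(k4,k12),(k6,k12),(k7,k12),(k9,k15)],[(k4,k12),(k6,k12),(k7,k12),
    (k9,k15)],[(k4,k15),(k6,k15),(k7,k15),(k9,k18)],[(k10,k17),(k11,k17),(k1,k18),(k8,k18)],[(k10,k16),(k11,k16),(k1,
    k17),(k8,k17)],[(k10,k16),(k11,k16),(k1,k17),(k8,k17)]]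
    [] k0
    [[k0,k0,k0,k3,k0,k0]]
    [.ref k2 k0 [(z1,[y1,z3])]]]⟩

/-- classes `0 0 1 1 2 2`, types `C0 C0 C0 C0 C0 C0` -/
noncomputable def cT6_1160 : CertT :=
  ⟨[k4,k4,k20,k20,k36,k36],[(false,k0,[k0,k1,k2,k3,k4,k5])],[[[([z1,z0,z1,z0,z1,z0],z2),([z0,z3,z0,z0,z0,z0],z2),([z0,
    z0,z0,z3,z0,z0],z2)],[([z1,z0,z1,z0,z1,z0],z2),([z0,z3,z0,z0,z0,z0],z2)],[([z1,z0,z1,z0,z1,z0],z2)],[]]],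
    [.leafM k2 [k0,k1,k2,k3,k4,k5] [(z1,[z0,z1]),(z1,[z0,z0,z1]),(z1,[y3,y1,y1,z3])] [],
    .lp [k12,k8,k6,k6,k6,k8] [k0,k0,k2,k2,k3,k3,k3,k3,k3,k3,k2,k2] k0 [] k24 k5
    [[(k8,k9),(k10,k10)],[(k5,k9),(k3,k10)],[(k2,k8),(k0,k10)],[(k5,k7),(k3,k8)],[(k2,k7),(k0,k9)],[(k7,k6),(k9,k6)],
    [(k4,k6),(k6,k6)],[(k7,k6),(k9,k6)],[(k4,k6),(k6,k6)],[(k11,k7),(k1,k9)],[(k8,k7),(k10,k8)],[(k11,k8),(k1,k10)]]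
    [] k0
    [[k0,k0,k0,k3,k0,k0]]
    [.ref k0 k0 [(z1,[z0,z1]),(z1,[z0,z0,z1]),(z1,[z1])]],
    .lp [k12,k6,k6,k8,k6,k8] [k0,k0,k3,k3,k3,k3,k2,k2,k3,k3,k2,k2] k0 [] k24 k5
    [[(k8,k9),(k10,k10)],[(k3,k9),(k5,k9)],[(k2,k6),(k0,k9)],[(k3,k6),(k5,k6)],[(k2,k6),(k0,k9)],[(k9,k6),(k7,k7)],
    [(k4,k7),(k6,k8)],[(k9,k7),(k7,k8)],[(k4,k6),(k6,k7)],[(k11,k7),(k1,k9)],[(k8,k7),(k10,k8)],[(k11,k8),(k1,k10)]]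
    [] k0
    [[k0,k3,k0,k0,k0,k0]]
    [.ref k1 k0 [(z1,[z0,z1]),(z1,[z1])]],
    .lp [k6,k8,k6,k8,k6,k8] [k1,k1,k0,k0,k1,k1,k0,k0,k1,k1,k0,k0] k0 [] k24 k5
    [[(k8,k6),(k10,k7)],[(k5,k6),(k3,k7)],[(k0,k7),(k2,k8)],[(k5,k7),(k3,k8)],[(k0,k6),(k2,k7)],[(k9,k6),(k7,k7)],
    [(k4,k7),(k6,k8)],[(k9,k7),(k7,k8)],[(k4,k6),(k6,k7)],[(k1,k6),(k11,k7)],[(k8,k7),(k10,k8)],[(k1,k7),(k11,k8)]]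
    [] k0
    [[k1,k0,k1,k0,k1,k0]]
    [.ref k2 k0 [(z1,[z1])]]]⟩

/-- classes `0 0 1 1 2 2`, types `C0 C0 C0 C0 C0 C2` -/
noncomputable def cT6_1161 : CertT :=
  ⟨[k4,k4,k20,k20,k36,k38],[],[[[]]],
    [.lp [k4,k4,k2,k4,k4,k2] [k0,k0,k0,k0,k1,k1,k0,k0,k0,k0,k1,k1] k0 [] k12 k5
    [[(k10,k3),(k11,k3)],[(k5,k3),(k3,k4)],[(k0,k4),(k2,k4)],[(k5,k3),(k3,k4)],[(k0,k3),(k2,k3)],[(k7,k3),(k9,k3)],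
    [(k4,k3),(k6,k4)],[(k7,k4),(k9,k4)],[(k4,k3),(k6,k4)],[(k10,k3),(k11,k3)],[(k1,k3),(k8,k3)],[(k1,k3),(k8,k3)]]
    [] k0
    []
    []]⟩

/-- classes `0 0 1 1 2 2`, types `C0 C0 C0 C0 N0 N1` -/
noncomputable def cT6_1162 : CertT :=
  ⟨[k4,k4,k20,k20,k44,k45],[(false,k0,[k0,k1,k2,k3,k4,k5])],[[[([z1,z0,z1,z0,z1,z0],z2),([z0,z3,z0,z0,z0,z0],z2),([z0,
    z0,z0,z3,z0,z0],z2)],[([z1,z0,z1,z0,z1,z0],z2),([z0,z3,z0,z0,z0,z0],z2)],[([z1,z0,z1,z0,z1,z0],z2)],[]]],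
    [.leafM k2 [k0,k1,k2,k3,k4,k5] [(z1,[z0,z1]),(z1,[z0,z0,z1]),(z1,[y3,y1,y1,z3])] [],
    .lp [k12,k8,k6,k6,k6,k8] [k0,k0,k2,k2,k3,k3,k3,k3,k3,k3,k2,k2] k0 [] k24 k5
    [[(k8,k9)],[(k5,k9),(k3,k10)],[(k2,k8),(k0,k10)],[(k5,k7),(k3,k8)],[(k2,k7),(k0,k9)],[(k7,k6),(k9,k6)],[(k4,k6),
    (k6,k6)],[(k7,k6),(k9,k6)],[(k4,k6),(k6,k6)],[(k1,k9)],[(k10,k8)],[(k11,k8)]]
    [] k0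
    [[k0,k0,k0,k3,k0,k0]]
    [.ref k0 k0 [(z1,[z0,z1]),(z1,[z0,z0,z1]),(z1,[z1])]],
    .lp [k12,k6,k6,k8,k6,k8] [k0,k0,k3,k3,k3,k3,k2,k2,k3,k3,k2,k2] k0 [] k24 k5
    [[(k8,k9)],[(k3,k9),(k5,k9)],[(k2,k6),(k0,k9)],[(k3,k6),(k5,k6)],[(k2,k6),(k0,k9)],[(k9,k6),(k7,k7)],[(k4,k7),(k6,
    k8)],[(k9,k7),(k7,k8)],[(k4,k6),(k6,k7)],[(k1,k9)],[(k10,k8)],[(k11,k8)]]
    [] k0
    [[k0,k3,k0,k0,k0,k0]]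
    [.ref k1 k0 [(z1,[z0,z1]),(z1,[z1])]],
    .lp [k6,k8,k6,k8,k6,k8] [k1,k1,k0,k0,k1,k1,k0,k0,k1,k1,k0,k0] k0 [] k24 k5
    [[(k8,k6)],[(k5,k6),(k3,k7)],[(k0,k7),(k2,k8)],[(k5,k7),(k3,k8)],[(k0,k6),(k2,k7)],[(k9,k6),(k7,k7)],[(k4,k7),(k6,
    k8)],[(k9,k7),(k7,k8)],[(k4,k6),(k6,k7)],[(k1,k6)],[(k10,k8)],[(k11,k8)]]
    [] k0
    [[k1,k0,k1,k0,k1,k0]]
    [.ref k2 k0 [(z1,[z1])]]]⟩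

/-- classes `0 0 1 1 2 2`, types `C0 C0 C0 C0 N0 N2` -/
noncomputable def cT6_1163 : CertT :=
  ⟨[k4,k4,k20,k20,k44,k46],[],[[[]]],
    [.lp [k4,k4,k2,k4,k4,k2] [k0,k0,k0,k0,k1,k1,k0,k0,k0,k0,k1,k1] k0 [] k12 k5
    [[(k11,k3)],[(k5,k3),(k3,k4)],[(k0,k4),(k2,k4)],[(k5,k3),(k3,k4)],[(k0,k3),(k2,k3)],[(k7,k3),(k9,k3)],[(k4,k3),
    (k6,k4)],[(k7,k4),(k9,k4)],[(k4,k3),(k6,k4)],[(k10,k3)],[(k1,k3)],[(k8,k3)]]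
    [] k0
    []
    []]⟩

/-- classes `0 0 1 1 2 2`, types `C0 C0 C0 C0 S0 S0` -/
noncomputable def cT6_1164 : CertT :=
  ⟨[k4,k4,k20,k20,k32,k32],[(false,k0,[k0,k1,k2,k3,k4,k5]),(true,k4,[k4,k3,k2,k1,k0,k5])],[[[([z1,z0,z1,z0,z1,z0],z2),
    ([z0,z3,z0,z0,z0,z0],z2),([z0,z0,z0,z3,z0,z0],z2)],[([z3,z0,z3,z0,z3,z3],z8),([z0,z3,z0,z0,z0,z0],z2)],[([z3,z0,
    z3,z3,z3,z3],z10)],[]]],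
    [.leafM k2 [k0,k1,k2,k3,k4,k5] [(z1,[z0,z1]),(z1,[z0,z0,z1]),(z1,[y3,y1,y1,z3])] [],
    .lp [k6,k8,k6,k8,k6,k8] [k1,k1,k0,k0,k1,k1,k0,k0,k1,k1,k0,k0] k0 [] k24 k5
    [[(k1,k6),(k8,k6),(k10,k7),(k11,k7)],[(k5,k6),(k3,k7)],[(k0,k7),(k2,k8)],[(k5,k7),(k3,k8)],[(k0,k6),(k2,k7)],[(k9,
    k6),(k7,k7)],[(k4,k7),(k6,k8)],[(k9,k7),(k7,k8)],[(k4,k6),(k6,k7)],[(k1,k6),(k8,k6),(k10,k7),(k11,k7)],[(k1,k7),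
    (k8,k7),(k10,k8),(k11,k8)],[(k1,k7),(k8,k7),(k10,k8),(k11,k8)]]
    [] k0
    [[k1,k0,k1,k0,k1,k0]]
    [.ref k0 k0 [(z1,[z1]),(z1,[z0,z0,z1]),(z1,[z0,y1,y1,z3])]],
    .lp [k12,k8,k6,k6,k6,k8] [k0,k0,k2,k2,k3,k3,k3,k3,k3,k3,k2,k2] k0 [] k24 k5
    [[(k8,k9),(k10,k10),(k11,k10),(k1,k12)],[(k5,k9),(k3,k10)],[(k2,k8),(k0,k10)],[(k5,k7),(k3,k8)],[(k2,k7),(k0,k9)],
    [(k7,k6),(k9,k6)],[(k4,k6),(k6,k6)],[(k7,k6),(k9,k6)],[(k4,k6),(k6,k6)],[(k8,k6),(k10,k7),(k11,k7),(k1,k9)],[(k8,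
    k7),(k10,k8),(k11,k8),(k1,k10)],[(k8,k7),(k10,k8),(k11,k8),(k1,k10)]]
    [] k0
    [[k0,k0,k0,k3,k0,k0]]
    [.ref k1 k0 [(z1,[y1,z1]),(z1,[z0,y1,z3])]],
    .lp [k12,k8,k6,k6,k6,k8] [k0,k0,k2,k2,k3,k3,k3,k3,k3,k3,k2,k2] k0 [] k24 k5
    [[(k8,k9),(k10,k10),(k11,k10),(k1,k12)],[(k5,k9),(k3,k10)],[(k2,k8),(k0,k10)],[(k5,k7),(k3,k8)],[(k2,k7),(k0,k9)],
    [(k7,k6),(k9,k6)],[(k4,k6),(k6,k6)],[(k7,k6),(k9,k6)],[(k4,k6),(k6,k6)],[(k8,k6),(k10,k7),(k11,k7),(k1,k9)],[(k8,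
    k7),(k10,k8),(k11,k8),(k1,k10)],[(k8,k7),(k10,k8),(k11,k8),(k1,k10)]]
    [] k0
    [[k0,k0,k0,k3,k0,k0]]
    [.ref k2 k1 [(z1,[y1,z3])]]]⟩

/-- classes `0 0 1 1 2 2`, types `C0 C0 C0 C2 C0 C2` -/
noncomputable def cT6_1165 : CertT :=
  ⟨[k4,k4,k20,k22,k36,k38],[],[[[]]],
    [.lp [k6,k8,k6,k6,k6,k6] [k1,k1,k0,k0,k1,k1,k1,k1,k1,k1,k1,k1] k0 [] k24 k5
    [[(k10,k6),(k11,k6)],[(k5,k6),(k3,k7)],[(k0,k7),(k2,k8)],[(k5,k7),(k3,k8)],[(k0,k6),(k2,k7)],[(k6,k6),(k7,k6)],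
    [(k4,k6),(k9,k6)],[(k4,k6),(k9,k6)],[(k6,k6),(k7,k6)],[(k10,k6),(k11,k6)],[(k1,k6),(k8,k6)],[(k1,k6),(k8,k6)]]
    [] k0
    []
    []]⟩

/-- classes `0 0 1 1 2 2`, types `C0 C0 C0 C2 N0 N1` -/
noncomputable def cT6_1166 : CertT :=
  ⟨[k4,k4,k20,k22,k44,k45],[],[[[]]],
    [.lp [k4,k4,k2,k4,k2,k4] [k0,k0,k0,k0,k1,k1,k0,k0,k1,k1,k0,k0] k0 [] k12 k5
    [[(k8,k3)],[(k5,k3),(k3,k4)],[(k0,k4),(k2,k4)],[(k5,k3),(k3,k4)],[(k0,k3),(k2,k3)],[(k6,k3),(k7,k3)],[(k4,k3),(k9,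
    k3)],[(k4,k3),(k9,k3)],[(k6,k3),(k7,k3)],[(k1,k3)],[(k10,k4)],[(k11,k4)]]
    [] k0
    []
    []]⟩

/-- classes `0 0 1 1 2 2`, types `C0 C0 C0 C2 N0 N2` -/
noncomputable def cT6_1167 : CertT :=
  ⟨[k4,k4,k20,k22,k44,k46],[],[[[]]],
    [.lp [k6,k8,k6,k6,k6,k6] [k1,k1,k0,k0,k1,k1,k1,k1,k1,k1,k1,k1] k0 [] k24 k5
    [[(k11,k6)],[(k5,k6),(k3,k7)],[(k0,k7),(k2,k8)],[(k5,k7),(k3,k8)],[(k0,k6),(k2,k7)],[(k6,k6),(k7,k6)],[(k4,k6),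
    (k9,k6)],[(k4,k6),(k9,k6)],[(k6,k6),(k7,k6)],[(k10,k6)],[(k1,k6)],[(k8,k6)]]
    [] k0
    []
    []]⟩

/-- classes `0 0 1 1 2 2`, types `C0 C0 C0 C2 S0 S0` -/
noncomputable def cT6_1168 : CertT :=
  ⟨[k4,k4,k20,k22,k32,k32],[],[[[]]],
    [.lp [k12,k16,k12,k12,k18,k16] [k3,k3,k1,k1,k3,k3,k3,k3,k0,k0,k1,k1] k0 [] k48 k5
    [[(k1,k12),(k10,k14),(k11,k14),(k8,k15)],[(k5,k12),(k3,k14)],[(k0,k14),(k2,k16)],[(k5,k14),(k3,k16)],[(k0,k12),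
    (k2,k14)],[(k6,k12),(k7,k12)],[(k4,k12),(k9,k15)],[(k4,k12),(k9,k15)],[(k6,k15),(k7,k15)],[(k1,k15),(k10,k17),
    (k11,k17),(k8,k18)],[(k1,k14),(k10,k16),(k11,k16),(k8,k17)],[(k1,k14),(k10,k16),(k11,k16),(k8,k17)]]
    [] k0
    []
    []]⟩

/-- classes `0 0 1 1 2 2`, types `C0 C0 N0 N1 N0 N1` -/
noncomputable def cT6_1169 : CertT :=
  ⟨[k4,k4,k28,k29,k44,k45],[(false,k0,[k0,k1,k2,k3,k4,k5])],[[[([z1,z0,z1,z0,z1,z0],z2),([z0,z3,z0,z0,z0,z0],z2),([z0,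
    z0,z0,z3,z0,z0],z2)],[([z1,z0,z1,z0,z1,z0],z2),([z0,z3,z0,z0,z0,z0],z2)],[([z1,z0,z1,z0,z1,z0],z2)],[]]],
    [.leafM k2 [k0,k1,k2,k3,k4,k5] [(z1,[z0,z1]),(z1,[z0,z0,z1]),(z1,[y3,y1,y1,z3])] [],
    .lp [k12,k8,k4,k6,k8,k8] [k0,k0,k2,k2,k4,k4,k3,k3,k2,k2,k2,k2] k0 [] k24 k5
    [[(k8,k10)],[(k5,k8),(k3,k10)],[(k2,k8),(k0,k10)],[(k5,k6),(k3,k8)],[(k2,k6),(k0,k8)],[(k9,k6)],[(k6,k6)],[(k7,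
    k6)],[(k4,k6)],[(k1,k10)],[(k10,k8)],[(k11,k8)]]
    [] k0
    [[k0,k0,k0,k3,k0,k0]]
    [.ref k0 k0 [(z1,[z0,z1]),(z1,[z0,z0,z1]),(z1,[z1])]],
    .lp [k12,k6,k6,k8,k6,k8] [k0,k0,k3,k3,k3,k3,k2,k2,k3,k3,k2,k2] k0 [] k24 k5
    [[(k8,k9)],[(k3,k9),(k5,k9)],[(k2,k6),(k0,k9)],[(k3,k6),(k5,k6)],[(k2,k6),(k0,k9)],[(k9,k6)],[(k6,k8)],[(k7,k8)],
    [(k4,k6)],[(k1,k9)],[(k10,k8)],[(k11,k8)]]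
    [] k0
    [[k0,k3,k0,k0,k0,k0]]
    [.ref k1 k0 [(z1,[z0,z1]),(z1,[z1])]],
    .lp [k6,k8,k6,k8,k6,k8] [k1,k1,k0,k0,k1,k1,k0,k0,k1,k1,k0,k0] k0 [] k24 k5
    [[(k8,k6)],[(k5,k6),(k3,k7)],[(k0,k7),(k2,k8)],[(k5,k7),(k3,k8)],[(k0,k6),(k2,k7)],[(k9,k6)],[(k6,k8)],[(k7,k8)],
    [(k4,k6)],[(k1,k6)],[(k10,k8)],[(k11,k8)]]
    [] k0
    [[k1,k0,k1,k0,k1,k0]]
    [.ref k2 k0 [(z1,[z1])]]]⟩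

/-- classes `0 0 1 1 2 2`, types `C0 C0 N0 N1 N0 N2` -/
noncomputable def cT6_1170 : CertT :=
  ⟨[k4,k4,k28,k29,k44,k46],[],[[[]]],
    [.lp [k4,k4,k2,k4,k4,k2] [k0,k0,k0,k0,k1,k1,k0,k0,k0,k0,k1,k1] k0 [] k12 k5
    [[(k11,k3)],[(k5,k3),(k3,k4)],[(k0,k4),(k2,k4)],[(k5,k3),(k3,k4)],[(k0,k3),(k2,k3)],[(k9,k3)],[(k6,k4)],[(k7,k4)],
    [(k4,k3)],[(k10,k3)],[(k1,k3)],[(k8,k3)]]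
    [] k0
    []
    []]⟩

/-- classes `0 0 1 1 2 2`, types `C0 C0 N0 N1 S0 S0` -/
noncomputable def cT6_1171 : CertT :=
  ⟨[k4,k4,k28,k29,k32,k32],[(false,k0,[k0,k1,k2,k3,k4,k5])],[[[([z1,z0,z1,z0,z1,z0],z2),([z0,z3,z0,z0,z0,z0],z2),([z0,
    z0,z0,z3,z0,z0],z2)],[([z1,z0,z1,z0,z1,z0],z2),([z0,z3,z0,z0,z0,z3],z4)],[([z3,z3,z3,z0,z3,z3],z10)],[]]],
    [.leafM k2 [k0,k1,k2,k3,k4,k5] [(z1,[z0,z1]),(z1,[z0,z0,z1]),(z1,[y3,y1,y1,z3])] [],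
    .lp [k12,k8,k4,k8,k8,k6] [k0,k0,k2,k2,k4,k4,k2,k2,k2,k2,k3,k3] k0 [] k24 k5
    [[(k10,k9),(k11,k9),(k8,k10),(k1,k12)],[(k5,k8),(k3,k10)],[(k2,k8),(k0,k10)],[(k5,k6),(k3,k8)],[(k2,k6),(k0,k8)],
    [(k9,k6)],[(k6,k8)],[(k7,k8)],[(k4,k6)],[(k10,k7),(k11,k7),(k8,k8),(k1,k10)],[(k10,k6),(k11,k6),(k8,k7),(k1,k9)],
    [(k10,k6),(k11,k6),(k8,k7),(k1,k9)]]
    [] k0
    [[k0,k0,k0,k0,k0,k3]]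
    [.ref k0 k0 [(z1,[z0,z1]),(z1,[y1,z0,z1]),(z1,[z0,y3,y1,z3])]],
    .lp [k6,k8,k6,k8,k6,k8] [k1,k1,k0,k0,k1,k1,k0,k0,k1,k1,k0,k0] k0 [] k24 k5
    [[(k1,k6),(k8,k6),(k10,k7),(k11,k7)],[(k5,k6),(k3,k7)],[(k0,k7),(k2,k8)],[(k5,k7),(k3,k8)],[(k0,k6),(k2,k7)],[(k9,
    k6)],[(k6,k8)],[(k7,k8)],[(k4,k6)],[(k1,k6),(k8,k6),(k10,k7),(k11,k7)],[(k1,k7),(k8,k7),(k10,k8),(k11,k8)],[(k1,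
    k7),(k8,k7),(k10,k8),(k11,k8)]]
    [] k0
    [[k1,k0,k1,k0,k1,k0]]
    [.ref k1 k0 [(z1,[z1]),(z1,[y3,z1])]],
    .lp [k12,k8,k4,k6,k8,k8] [k0,k0,k2,k2,k4,k4,k3,k3,k2,k2,k2,k2] k0 [] k24 k5
    [[(k8,k10),(k10,k10),(k11,k10),(k1,k12)],[(k5,k8),(k3,k10)],[(k2,k8),(k0,k10)],[(k5,k6),(k3,k8)],[(k2,k6),(k0,
    k8)],[(k9,k6)],[(k6,k6)],[(k7,k6)],[(k4,k6)],[(k8,k8),(k10,k8),(k11,k8),(k1,k10)],[(k8,k8),(k10,k8),(k11,k8),(k1,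
    k10)],[(k8,k8),(k10,k8),(k11,k8),(k1,k10)]]
    [] k0
    [[k0,k0,k0,k3,k0,k0]]
    [.ref k2 k0 [(z1,[y1,z3])]]]⟩

/-- classes `0 0 1 1 2 2`, types `C0 C0 N0 N2 N0 N2` -/
noncomputable def cT6_1172 : CertT :=
  ⟨[k4,k4,k28,k30,k44,k46],[],[[[]]],
    [.lp [k6,k8,k6,k6,k6,k6] [k1,k1,k0,k0,k1,k1,k1,k1,k1,k1,k1,k1] k0 [] k24 k5
    [[(k11,k6)],[(k5,k6),(k3,k7)],[(k0,k7),(k2,k8)],[(k5,k7),(k3,k8)],[(k0,k6),(k2,k7)],[(k6,k6)],[(k9,k6)],[(k4,k6)],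
    [(k7,k6)],[(k10,k6)],[(k1,k6)],[(k8,k6)]]
    [] k0
    []
    []]⟩

/-- classes `0 0 1 1 2 2`, types `C0 C0 N0 N2 S0 S0` -/
noncomputable def cT6_1173 : CertT :=
  ⟨[k4,k4,k28,k30,k32,k32],[],[[[]]],
    [.lp [k6,k8,k6,k6,k6,k8] [k1,k1,k0,k0,k1,k1,k1,k1,k1,k1,k0,k0] k0 [] k24 k5
    [[(k1,k6),(k8,k6),(k10,k7),(k11,k7)],[(k5,k6),(k3,k7)],[(k0,k7),(k2,k8)],[(k5,k7),(k3,k8)],[(k0,k6),(k2,k7)],[(k6,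
    k6)],[(k9,k6)],[(k4,k6)],[(k7,k6)],[(k1,k6),(k8,k6),(k10,k7),(k11,k7)],[(k1,k7),(k8,k7),(k10,k8),(k11,k8)],[(k1,
    k7),(k8,k7),(k10,k8),(k11,k8)]]
    [] k0
    []
    []]⟩

/-- classes `0 0 1 1 2 2`, types `C0 C0 S0 S0 S0 S0` -/
noncomputable def cT6_1174 : CertT :=
  ⟨[k4,k4,k16,k16,k32,k32],[(false,k0,[k0,k1,k2,k3,k4,k5]),(true,k2,[k2,k1,k0,k5,k4,k3])],[[[([z1,z0,z1,z0,z1,z0],z2),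
    ([z0,z3,z0,z0,z0,z0],z2),([z0,z0,z0,z3,z0,z0],z2)],[([z3,z0,z3,z0,z3,z3],z8),([z0,z3,z0,z0,z0,z0],z2)],[([z3,z0,
    z3,z3,z3,z3],z10)],[]]],
    [.leafM k2 [k0,k1,k2,k3,k4,k5] [(z1,[z0,z1]),(z1,[z0,z0,z1]),(z1,[y3,y1,y1,z3])] [],
    .lp [k6,k8,k6,k8,k12,k6] [k3,k3,k2,k2,k3,k3,k2,k2,k0,k0,k3,k3] k0 [] k24 k5
    [[(k1,k6),(k10,k6),(k11,k6),(k8,k9)],[(k5,k6),(k3,k7)],[(k0,k7),(k2,k8)],[(k5,k7),(k3,k8)],[(k0,k6),(k2,k7)],[(k4,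
    k6),(k6,k7),(k7,k7),(k9,k9)],[(k4,k7),(k6,k8),(k7,k8),(k9,k10)],[(k4,k7),(k6,k8),(k7,k8),(k9,k10)],[(k4,k9),(k6,
    k10),(k7,k10),(k9,k12)],[(k1,k9),(k10,k9),(k11,k9),(k8,k12)],[(k1,k6),(k10,k6),(k11,k6),(k8,k9)],[(k1,k6),(k10,
    k6),(k11,k6),(k8,k9)]]
    [] k0
    [[k0,k0,k0,k0,k0,k3]]
    [.ref k0 k0 [(z3,[y1,z1]),(z1,[z0,z0,z1]),(z1,[z0,y1,y1,z3])]],
    .lp [k6,k8,k6,k8,k12,k6] [k3,k3,k2,k2,k3,k3,k2,k2,k0,k0,k3,k3] k0 [] k24 k5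
    [[(k1,k6),(k10,k6),(k11,k6),(k8,k9)],[(k5,k6),(k3,k7)],[(k0,k7),(k2,k8)],[(k5,k7),(k3,k8)],[(k0,k6),(k2,k7)],[(k4,
    k6),(k6,k7),(k7,k7),(k9,k9)],[(k4,k7),(k6,k8),(k7,k8),(k9,k10)],[(k4,k7),(k6,k8),(k7,k8),(k9,k10)],[(k4,k9),(k6,
    k10),(k7,k10),(k9,k12)],[(k1,k9),(k10,k9),(k11,k9),(k8,k12)],[(k1,k6),(k10,k6),(k11,k6),(k8,k9)],[(k1,k6),(k10,
    k6),(k11,k6),(k8,k9)]]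
    [] k0
    [[k0,k0,k0,k0,k0,k3]]
    [.ref k1 k1 [(z1,[y1,z1]),(z1,[z0,y1,z3])]],
    .lp [k6,k6,k6,k8,k12,k8] [k3,k3,k3,k3,k3,k3,k2,k2,k0,k0,k2,k2] k0 [] k24 k5
    [[(k1,k6),(k10,k7),(k11,k7),(k8,k9)],[(k3,k6),(k5,k6)],[(k0,k6),(k2,k6)],[(k3,k6),(k5,k6)],[(k0,k6),(k2,k6)],[(k4,
    k6),(k6,k7),(k7,k7),(k9,k9)],[(k4,k7),(k6,k8),(k7,k8),(k9,k10)],[(k4,k7),(k6,k8),(k7,k8),(k9,k10)],[(k4,k9),(k6,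
    k10),(k7,k10),(k9,k12)],[(k1,k9),(k10,k10),(k11,k10),(k8,k12)],[(k1,k7),(k10,k8),(k11,k8),(k8,k10)],[(k1,k7),(k10,
    k8),(k11,k8),(k8,k10)]]
    [] k0
    [[k0,k3,k0,k0,k0,k0]]
    [.ref k2 k0 [(z1,[y1,z3])]]]⟩

/-- classes `0 0 1 1 2 2`, types `C0 C2 C0 C2 C0 C2` -/
noncomputable def cT6_1175 : CertT :=
  ⟨[k4,k6,k20,k22,k36,k38],[],[[[]]],
    [.lp [k2,k0,k2,k0,k2,k0] [k0,k0,k1,k1,k0,k0,k1,k1,k0,k0,k1,k1] k0 [] k4 k5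
    [[(k10,k1),(k11,k1)],[(k2,k1),(k3,k1)],[(k0,k1),(k5,k1)],[(k0,k1),(k5,k1)],[(k2,k1),(k3,k1)],[(k6,k1),(k7,k1)],
    [(k4,k1),(k9,k1)],[(k4,k1),(k9,k1)],[(k6,k1),(k7,k1)],[(k10,k1),(k11,k1)],[(k1,k1),(k8,k1)],[(k1,k1),(k8,k1)]]
    [] k0
    []
    []]⟩

/-- classes `0 0 1 1 2 2`, types `C0 C2 C0 C2 N0 N1` -/
noncomputable def cT6_1176 : CertT :=
  ⟨[k4,k6,k20,k22,k44,k45],[],[[[]]],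
    [.lp [k6,k6,k6,k6,k6,k8] [k1,k1,k1,k1,k1,k1,k1,k1,k1,k1,k0,k0] k0 [] k24 k5
    [[(k8,k6)],[(k2,k6),(k3,k6)],[(k0,k6),(k5,k6)],[(k0,k6),(k5,k6)],[(k2,k6),(k3,k6)],[(k6,k6),(k7,k6)],[(k4,k6),(k9,
    k6)],[(k4,k6),(k9,k6)],[(k6,k6),(k7,k6)],[(k1,k6)],[(k10,k8)],[(k11,k8)]]
    [] k0
    []
    []]⟩

/-- classes `0 0 1 1 2 2`, types `C0 C2 C0 C2 N0 N2` -/
noncomputable def cT6_1177 : CertT :=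
  ⟨[k4,k6,k20,k22,k44,k46],[],[[[]]],
    [.lp [k2,k0,k2,k0,k2,k0] [k0,k0,k1,k1,k0,k0,k1,k1,k0,k0,k1,k1] k0 [] k4 k5
    [[(k11,k1)],[(k2,k1),(k3,k1)],[(k0,k1),(k5,k1)],[(k0,k1),(k5,k1)],[(k2,k1),(k3,k1)],[(k6,k1),(k7,k1)],[(k4,k1),
    (k9,k1)],[(k4,k1),(k9,k1)],[(k6,k1),(k7,k1)],[(k10,k1)],[(k1,k1)],[(k8,k1)]]
    [] k0
    []
    []]⟩

/-- classes `0 0 1 1 2 2`, types `C0 C2 C0 C2 S0 S0` -/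
noncomputable def cT6_1178 : CertT :=
  ⟨[k4,k6,k20,k22,k32,k32],[],[[[]]],
    [.lp [k6,k12,k0,k12,k6,k8] [k3,k3,k0,k0,k6,k6,k0,k0,k3,k3,k2,k2] k0 [] k24 k5
    [[(k1,k6),(k8,k6),(k10,k7),(k11,k7)],[(k2,k9),(k3,k9)],[(k5,k6),(k0,k9)],[(k5,k6),(k0,k9)],[(k2,k6),(k3,k6)],[(k6,
    k6),(k7,k6)],[(k4,k6),(k9,k9)],[(k4,k6),(k9,k9)],[(k6,k9),(k7,k9)],[(k1,k6),(k8,k6),(k10,k7),(k11,k7)],[(k1,k7),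
    (k8,k7),(k10,k8),(k11,k8)],[(k1,k7),(k8,k7),(k10,k8),(k11,k8)]]
    [] k0
    []
    []]⟩

/-- classes `0 0 1 1 2 2`, types `C0 C2 N0 N1 N0 N1` -/
noncomputable def cT6_1179 : CertT :=
  ⟨[k4,k6,k28,k29,k44,k45],[],[[[]]],
    [.lp [k0,k6,k0,k4,k6,k4] [k3,k3,k0,k0,k3,k3,k1,k1,k0,k0,k1,k1] k0 [] k12 k5
    [[(k8,k3)],[(k2,k3),(k3,k3)],[(k0,k3),(k5,k3)],[(k0,k3),(k5,k3)],[(k2,k3),(k3,k3)],[(k9,k3)],[(k6,k4)],[(k7,k4)],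
    [(k4,k3)],[(k1,k3)],[(k10,k4)],[(k11,k4)]]
    [] k0
    []
    []]⟩

/-- classes `0 0 1 1 2 2`, types `C0 C2 N0 N1 N0 N2` -/
noncomputable def cT6_1180 : CertT :=
  ⟨[k4,k6,k28,k29,k44,k46],[],[[[]]],
    [.lp [k6,k6,k6,k8,k6,k6] [k1,k1,k1,k1,k1,k1,k0,k0,k1,k1,k1,k1] k0 [] k24 k5
    [[(k11,k6)],[(k2,k6),(k3,k6)],[(k0,k6),(k5,k6)],[(k0,k6),(k5,k6)],[(k2,k6),(k3,k6)],[(k9,k6)],[(k6,k8)],[(k7,k8)],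
    [(k4,k6)],[(k10,k6)],[(k1,k6)],[(k8,k6)]]
    [] k0
    []
    []]⟩

/-- classes `0 0 1 1 2 2`, types `C0 C2 N0 N1 S0 S0` -/
noncomputable def cT6_1181 : CertT :=
  ⟨[k4,k6,k28,k29,k32,k32],[],[[[]]],
    [.lp [k18,k12,k12,k16,k12,k16] [k0,k0,k3,k3,k3,k3,k1,k1,k3,k3,k1,k1] k0 [] k48 k5
    [[(k8,k15),(k10,k17),(k11,k17),(k1,k18)],[(k2,k15),(k3,k15)],[(k5,k12),(k0,k15)],[(k5,k12),(k0,k15)],[(k2,k12),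
    (k3,k12)],[(k9,k12)],[(k6,k16)],[(k7,k16)],[(k4,k12)],[(k8,k12),(k10,k14),(k11,k14),(k1,k15)],[(k8,k14),(k10,k16),
    (k11,k16),(k1,k17)],[(k8,k14),(k10,k16),(k11,k16),(k1,k17)]]
    [] k0
    []
    []]⟩

/-- classes `0 0 1 1 2 2`, types `C0 C2 N0 N2 N0 N2` -/
noncomputable def cT6_1182 : CertT :=
  ⟨[k4,k6,k28,k30,k44,k46],[],[[[]]],
    [.lp [k2,k0,k2,k0,k2,k0] [k0,k0,k1,k1,k0,k0,k1,k1,k0,k0,k1,k1] k0 [] k4 k5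
    [[(k11,k1)],[(k2,k1),(k3,k1)],[(k0,k1),(k5,k1)],[(k0,k1),(k5,k1)],[(k2,k1),(k3,k1)],[(k6,k1)],[(k9,k1)],[(k4,k1)],
    [(k7,k1)],[(k10,k1)],[(k1,k1)],[(k8,k1)]]
    [] k0
    []
    []]⟩

/-- classes `0 0 1 1 2 2`, types `C0 C2 N0 N2 S0 S0` -/
noncomputable def cT6_1183 : CertT :=
  ⟨[k4,k6,k28,k30,k32,k32],[],[[[]]],
    [.lp [k18,k12,k12,k12,k12,k16] [k0,k0,k3,k3,k3,k3,k3,k3,k3,k3,k1,k1] k0 [] k48 k5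
    [[(k8,k15),(k10,k17),(k11,k17),(k1,k18)],[(k2,k15),(k3,k15)],[(k5,k12),(k0,k15)],[(k5,k12),(k0,k15)],[(k2,k12),
    (k3,k12)],[(k6,k12)],[(k9,k12)],[(k4,k12)],[(k7,k12)],[(k8,k12),(k10,k14),(k11,k14),(k1,k15)],[(k8,k14),(k10,k16),
    (k11,k16),(k1,k17)],[(k8,k14),(k10,k16),(k11,k16),(k1,k17)]]
    [] k0
    []
    []]⟩

/-- classes `0 0 1 1 2 2`, types `C0 C2 S0 S0 S0 S0` -/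
noncomputable def cT6_1184 : CertT :=
  ⟨[k4,k6,k16,k16,k32,k32],[],[[[]]],
    [.lp [k36,k12,k42,k28,k30,k36] [k3,k3,k15,k15,k0,k0,k7,k7,k6,k6,k3,k3] k0 [[],[],[],[],[k0,k0,k0,k0,k0,k0,k12,k8],[],
    [k0,k0,k0,k0,k0,k8],[k0,k0,k0,k0,k0,k12],[],[],[k0,k0,k0,k0,k0,k0,k0,k0,k0,k0,k0,k12]] k96 k5
    [[(k8,k33),(k10,k36),(k11,k36),(k1,k48)],[(k2,k24),(k3,k24)],[(k0,k24),(k5,k27)],[(k0,k24),(k5,k27)],[(k2,k27),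
    (k3,k27)],[(k9,k24),(k6,k27),(k7,k35),(k4,k42)],[(k7,k28),(k4,k35),(k9,k37),(k6,k40)],[(k4,k27),(k6,k28),(k9,k29),
    (k7,k40)],[(k4,k24),(k6,k29),(k9,k30),(k7,k37)],[(k8,k30),(k1,k33),(k10,k33),(k11,k33)],[(k8,k33),(k1,k36),(k10,
    k36),(k11,k36)],[(k10,k24),(k8,k33),(k1,k36),(k11,k36)]]
    [] k0
    []
    []]⟩

/-- classes `0 0 1 1 2 2`, types `N0 N1 N0 N1 N0 N1` -/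
noncomputable def cT6_1185 : CertT :=
  ⟨[k12,k13,k28,k29,k44,k45],[(false,k0,[k0,k1,k2,k3,k4,k5])],[[[([z1,z0,z1,z0,z1,z0],z2),([z0,z3,z0,z0,z0,z0],z2),
    ([z0,z0,z0,z3,z0,z0],z2)],[([z1,z0,z1,z0,z1,z0],z2),([z0,z3,z0,z0,z0,z0],z2)],[([z1,z0,z1,z0,z1,z0],z2)],[]]],
    [.leafM k2 [k0,k1,k2,k3,k4,k5] [(z1,[z0,z1]),(z1,[z0,z0,z1]),(z1,[y3,y1,y1,z3])] [],
    .lp [k12,k8,k0,k6,k12,k8] [k0,k0,k2,k2,k6,k6,k3,k3,k0,k0,k2,k2] k0 [] k24 k5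
    [[(k8,k12)],[(k5,k6)],[(k2,k8)],[(k3,k8)],[(k0,k6)],[(k9,k6)],[(k6,k6)],[(k7,k6)],[(k4,k6)],[(k1,k12)],[(k10,k8)],
    [(k11,k8)]]
    [] k0
    [[k0,k0,k0,k3,k0,k0]]
    [.ref k0 k0 [(z1,[z0,z1]),(z1,[z0,z0,z1]),(z1,[z1])]],
    .lp [k12,k6,k0,k8,k12,k8] [k0,k0,k3,k3,k6,k6,k2,k2,k0,k0,k2,k2] k0 [] k24 k5
    [[(k8,k12)],[(k5,k6)],[(k2,k6)],[(k3,k6)],[(k0,k6)],[(k9,k6)],[(k6,k8)],[(k7,k8)],[(k4,k6)],[(k1,k12)],[(k10,k8)],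
    [(k11,k8)]]
    [] k0
    [[k0,k3,k0,k0,k0,k0]]
    [.ref k1 k0 [(z1,[z0,z1]),(z1,[z1])]],
    .lp [k6,k8,k6,k8,k6,k8] [k1,k1,k0,k0,k1,k1,k0,k0,k1,k1,k0,k0] k0 [] k24 k5
    [[(k8,k6)],[(k5,k6)],[(k2,k8)],[(k3,k8)],[(k0,k6)],[(k9,k6)],[(k6,k8)],[(k7,k8)],[(k4,k6)],[(k1,k6)],[(k10,k8)],
    [(k11,k8)]]
    [] k0
    [[k1,k0,k1,k0,k1,k0]]
    [.ref k2 k0 [(z1,[z1])]]]⟩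

/-- classes `0 0 1 1 2 2`, types `N0 N1 N0 N1 N0 N2` -/
noncomputable def cT6_1186 : CertT :=
  ⟨[k12,k13,k28,k29,k44,k46],[],[[[]]],
    [.lp [k6,k4,k0,k4,k6,k0] [k0,k0,k1,k1,k3,k3,k1,k1,k0,k0,k3,k3] k0 [] k12 k5
    [[(k11,k3)],[(k5,k3)],[(k2,k4)],[(k3,k4)],[(k0,k3)],[(k9,k3)],[(k6,k4)],[(k7,k4)],[(k4,k3)],[(k10,k3)],[(k1,k3)],
    [(k8,k3)]]
    [] k0
    []
    []]⟩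

/-- classes `0 0 1 1 2 2`, types `N0 N1 N0 N1 S0 S0` -/
noncomputable def cT6_1187 : CertT :=
  ⟨[k12,k13,k28,k29,k32,k32],[(false,k0,[k0,k1,k2,k3,k4,k5]),(true,k4,[k4,k3,k2,k1,k0,k5])],[[[([z1,z0,z1,z0,z1,z0],
    z2),([z0,z3,z0,z0,z0,z0],z2),([z0,z0,z0,z3,z0,z0],z2)],[([z3,z0,z3,z0,z3,z3],z8),([z0,z3,z0,z0,z0,z0],z2)],[([z3,
    z0,z3,z3,z3,z3],z10)],[]]],
    [.leafM k2 [k0,k1,k2,k3,k4,k5] [(z1,[z0,z1]),(z1,[z0,z0,z1]),(z1,[y3,y1,y1,z3])] [],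
    .lp [k6,k8,k6,k8,k6,k8] [k1,k1,k0,k0,k1,k1,k0,k0,k1,k1,k0,k0] k0 [] k24 k5
    [[(k1,k6),(k8,k6),(k10,k7),(k11,k7)],[(k5,k6)],[(k2,k8)],[(k3,k8)],[(k0,k6)],[(k9,k6)],[(k6,k8)],[(k7,k8)],[(k4,
    k6)],[(k1,k6),(k8,k6),(k10,k7),(k11,k7)],[(k1,k7),(k8,k7),(k10,k8),(k11,k8)],[(k1,k7),(k8,k7),(k10,k8),(k11,k8)]]
    [] k0
    [[k1,k0,k1,k0,k1,k0]]
    [.ref k0 k0 [(z1,[z1]),(z1,[z0,z0,z1]),(z1,[z0,y1,y1,z3])]],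
    .lp [k12,k8,k0,k6,k12,k8] [k0,k0,k2,k2,k6,k6,k3,k3,k0,k0,k2,k2] k0 [] k24 k5
    [[(k10,k10),(k11,k10),(k1,k12),(k8,k12)],[(k5,k6)],[(k2,k8)],[(k3,k8)],[(k0,k6)],[(k9,k6)],[(k6,k6)],[(k7,k6)],
    [(k4,k6)],[(k10,k10),(k11,k10),(k1,k12),(k8,k12)],[(k10,k8),(k11,k8),(k1,k10),(k8,k10)],[(k10,k8),(k11,k8),(k1,
    k10),(k8,k10)]]
    [] k0
    [[k0,k0,k0,k3,k0,k0]]
    [.ref k1 k0 [(z1,[y1,z1]),(z1,[z0,y1,z3])]],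
    .lp [k12,k8,k0,k6,k12,k8] [k0,k0,k2,k2,k6,k6,k3,k3,k0,k0,k2,k2] k0 [] k24 k5
    [[(k10,k10),(k11,k10),(k1,k12),(k8,k12)],[(k5,k6)],[(k2,k8)],[(k3,k8)],[(k0,k6)],[(k9,k6)],[(k6,k6)],[(k7,k6)],
    [(k4,k6)],[(k10,k10),(k11,k10),(k1,k12),(k8,k12)],[(k10,k8),(k11,k8),(k1,k10),(k8,k10)],[(k10,k8),(k11,k8),(k1,
    k10),(k8,k10)]]
    [] k0
    [[k0,k0,k0,k3,k0,k0]]
    [.ref k2 k1 [(z1,[y1,z3])]]]⟩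

/-- classes `0 0 1 1 2 2`, types `N0 N1 N0 N2 N0 N2` -/
noncomputable def cT6_1188 : CertT :=
  ⟨[k12,k13,k28,k30,k44,k46],[],[[[]]],
    [.lp [k6,k8,k6,k6,k6,k6] [k1,k1,k0,k0,k1,k1,k1,k1,k1,k1,k1,k1] k0 [] k24 k5
    [[(k11,k6)],[(k5,k6)],[(k2,k8)],[(k3,k8)],[(k0,k6)],[(k6,k6)],[(k9,k6)],[(k4,k6)],[(k7,k6)],[(k10,k6)],[(k1,k6)],
    [(k8,k6)]]
    [] k0
    []
    []]⟩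

/-- classes `0 0 1 1 2 2`, types `N0 N1 N0 N2 S0 S0` -/
noncomputable def cT6_1189 : CertT :=
  ⟨[k12,k13,k28,k30,k32,k32],[],[[[]]],
    [.lp [k6,k8,k6,k6,k6,k8] [k1,k1,k0,k0,k1,k1,k1,k1,k1,k1,k0,k0] k0 [] k24 k5
    [[(k1,k6),(k8,k6),(k10,k7),(k11,k7)],[(k5,k6)],[(k2,k8)],[(k3,k8)],[(k0,k6)],[(k6,k6)],[(k9,k6)],[(k4,k6)],[(k7,
    k6)],[(k1,k6),(k8,k6),(k10,k7),(k11,k7)],[(k1,k7),(k8,k7),(k10,k8),(k11,k8)],[(k1,k7),(k8,k7),(k10,k8),(k11,k8)]]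
    [] k0
    []
    []]⟩

/-- classes `0 0 1 1 2 2`, types `N0 N1 S0 S0 S0 S0` -/
noncomputable def cT6_1190 : CertT :=
  ⟨[k12,k13,k16,k16,k32,k32],[(false,k0,[k0,k1,k2,k3,k4,k5]),(true,k2,[k2,k1,k0,k5,k4,k3])],[[[([z1,z0,z1,z0,z1,z0],
    z2),([z0,z3,z0,z0,z0,z0],z2),([z0,z0,z0,z3,z0,z0],z2)],[([z3,z0,z3,z0,z3,z3],z8),([z0,z3,z0,z0,z0,z0],z2)],[([z3,
    z0,z3,z3,z3,z3],z10)],[]]],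
    [.leafM k2 [k0,k1,k2,k3,k4,k5] [(z1,[z0,z1]),(z1,[z0,z0,z1]),(z1,[y3,y1,y1,z3])] [],
    .lp [k6,k8,k6,k8,k12,k6] [k3,k3,k2,k2,k3,k3,k2,k2,k0,k0,k3,k3] k0 [] k24 k5
    [[(k1,k6),(k10,k6),(k11,k6),(k8,k9)],[(k5,k6)],[(k2,k8)],[(k3,k8)],[(k0,k6)],[(k4,k6),(k6,k7),(k7,k7),(k9,k9)],
    [(k4,k7),(k6,k8),(k7,k8),(k9,k10)],[(k4,k7),(k6,k8),(k7,k8),(k9,k10)],[(k4,k9),(k6,k10),(k7,k10),(k9,k12)],[(k1,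
    k9),(k10,k9),(k11,k9),(k8,k12)],[(k1,k6),(k10,k6),(k11,k6),(k8,k9)],[(k1,k6),(k10,k6),(k11,k6),(k8,k9)]]
    [] k0
    [[k0,k0,k0,k0,k0,k3]]
    [.ref k0 k0 [(z3,[y1,z1]),(z1,[z0,z0,z1]),(z1,[z0,y1,y1,z3])]],
    .lp [k6,k8,k6,k8,k12,k6] [k3,k3,k2,k2,k3,k3,k2,k2,k0,k0,k3,k3] k0 [] k24 k5
    [[(k1,k6),(k10,k6),(k11,k6),(k8,k9)],[(k5,k6)],[(k2,k8)],[(k3,k8)],[(k0,k6)],[(k4,k6),(k6,k7),(k7,k7),(k9,k9)],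
    [(k4,k7),(k6,k8),(k7,k8),(k9,k10)],[(k4,k7),(k6,k8),(k7,k8),(k9,k10)],[(k4,k9),(k6,k10),(k7,k10),(k9,k12)],[(k1,
    k9),(k10,k9),(k11,k9),(k8,k12)],[(k1,k6),(k10,k6),(k11,k6),(k8,k9)],[(k1,k6),(k10,k6),(k11,k6),(k8,k9)]]
    [] k0
    [[k0,k0,k0,k0,k0,k3]]
    [.ref k1 k1 [(z1,[y1,z1]),(z1,[z0,y1,z3])]],
    .lp [k6,k6,k6,k8,k12,k8] [k3,k3,k3,k3,k3,k3,k2,k2,k0,k0,k2,k2] k0 [] k24 k5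
    [[(k1,k6),(k10,k7),(k11,k7),(k8,k9)],[(k5,k6)],[(k2,k6)],[(k3,k6)],[(k0,k6)],[(k4,k6),(k6,k7),(k7,k7),(k9,k9)],
    [(k4,k7),(k6,k8),(k7,k8),(k9,k10)],[(k4,k7),(k6,k8),(k7,k8),(k9,k10)],[(k4,k9),(k6,k10),(k7,k10),(k9,k12)],[(k1,
    k9),(k10,k10),(k11,k10),(k8,k12)],[(k1,k7),(k10,k8),(k11,k8),(k8,k10)],[(k1,k7),(k10,k8),(k11,k8),(k8,k10)]]
    [] k0
    [[k0,k3,k0,k0,k0,k0]]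
    [.ref k2 k0 [(z1,[y1,z3])]]]⟩

/-- classes `0 0 1 1 2 2`, types `N0 N2 N0 N2 N0 N2` -/
noncomputable def cT6_1191 : CertT :=
  ⟨[k12,k14,k28,k30,k44,k46],[],[[[]]],
    [.lp [k2,k0,k2,k0,k2,k0] [k0,k0,k1,k1,k0,k0,k1,k1,k0,k0,k1,k1] k0 [] k4 k5
    [[(k11,k1)],[(k2,k1)],[(k5,k1)],[(k0,k1)],[(k3,k1)],[(k6,k1)],[(k9,k1)],[(k4,k1)],[(k7,k1)],[(k10,k1)],[(k1,k1)],
    [(k8,k1)]]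
    [] k0
    []
    []]⟩

/-- classes `0 0 1 1 2 2`, types `N0 N2 N0 N2 S0 S0` -/
noncomputable def cT6_1192 : CertT :=
  ⟨[k12,k14,k28,k30,k32,k32],[],[[[]]],
    [.lp [k6,k6,k6,k6,k6,k8] [k1,k1,k1,k1,k1,k1,k1,k1,k1,k1,k0,k0] k0 [] k24 k5
    [[(k1,k6),(k8,k6),(k10,k7),(k11,k7)],[(k2,k6)],[(k5,k6)],[(k0,k6)],[(k3,k6)],[(k6,k6)],[(k9,k6)],[(k4,k6)],[(k7,
    k6)],[(k1,k6),(k8,k6),(k10,k7),(k11,k7)],[(k1,k7),(k8,k7),(k10,k8),(k11,k8)],[(k1,k7),(k8,k7),(k10,k8),(k11,k8)]]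
    [] k0
    []
    []]⟩

/-- classes `0 0 1 1 2 2`, types `N0 N2 S0 S0 S0 S0` -/
noncomputable def cT6_1193 : CertT :=
  ⟨[k12,k14,k16,k16,k32,k32],[],[[[]]],
    [.lp [k6,k6,k6,k8,k8,k8] [k1,k1,k1,k1,k1,k1,k0,k0,k0,k0,k0,k0] k0 [] k24 k5
    [[(k1,k6),(k8,k7),(k10,k7),(k11,k7)],[(k2,k6)],[(k5,k6)],[(k0,k6)],[(k3,k6)],[(k4,k6),(k6,k7),(k7,k7),(k9,k7)],
    [(k4,k7),(k6,k8),(k7,k8),(k9,k8)],[(k4,k7),(k6,k8),(k7,k8),(k9,k8)],[(k4,k7),(k6,k8),(k7,k8),(k9,k8)],[(k1,k7),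
    (k8,k8),(k10,k8),(k11,k8)],[(k1,k7),(k8,k8),(k10,k8),(k11,k8)],[(k1,k7),(k8,k8),(k10,k8),(k11,k8)]]
    [] k0
    []
    []]⟩

/-- classes `0 0 1 1 2 3`, types `B0 B1 B0 B1 C0 C0` -/
noncomputable def cT6_1194 : CertT :=
  ⟨[k8,k9,k24,k25,k36,k52],[],[[[]]],
    [.lp [k2,k4,k4,k4,k2,k4] [k1,k1,k0,k0,k0,k0,k0,k0,k1,k1,k0,k0] k0 [] k12 k5
    [[(k10,k3)],[(k2,k3),(k5,k3)],[(k2,k4),(k5,k4)],[(k0,k3),(k3,k4)],[(k0,k3),(k3,k4)],[(k9,k3),(k6,k4)],[(k9,k3),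
    (k6,k4)],[(k4,k4),(k7,k4)],[(k4,k3),(k7,k3)],[(k11,k3)],[(k8,k3)],[(k1,k3)]]
    [] k0
    []
    []]⟩

/-- classes `0 0 1 1 2 3`, types `B0 B1 B0 B1 C0 S0` -/
noncomputable def cT6_1195 : CertT :=
  ⟨[k8,k9,k24,k25,k36,k48],[],[[[]]],
    [.lp [k6,k8,k6,k8,k6,k6] [k1,k1,k0,k0,k1,k1,k0,k0,k1,k1,k1,k1] k0 [] k24 k5
    [[(k1,k6),(k10,k6)],[(k5,k6),(k2,k7)],[(k5,k7),(k2,k8)],[(k0,k7),(k3,k8)],[(k0,k6),(k3,k7)],[(k9,k6),(k6,k7)],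
    [(k9,k7),(k6,k8)],[(k4,k7),(k7,k8)],[(k4,k6),(k7,k7)],[(k11,k6)],[(k8,k6)],[(k1,k6),(k10,k6)]]
    [] k0
    []
    []]⟩

/-- classes `0 0 1 1 2 3`, types `B0 B1 B0 B1 S0 S0` -/
noncomputable def cT6_1196 : CertT :=
  ⟨[k8,k9,k24,k25,k32,k48],[],[[[]]],
    [.lp [k6,k8,k6,k8,k6,k6] [k1,k1,k0,k0,k1,k1,k0,k0,k1,k1,k1,k1] k0 [] k24 k5
    [[(k1,k6),(k10,k6)],[(k5,k6),(k2,k7)],[(k5,k7),(k2,k8)],[(k0,k7),(k3,k8)],[(k0,k6),(k3,k7)],[(k9,k6),(k6,k7)],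
    [(k9,k7),(k6,k8)],[(k4,k7),(k7,k8)],[(k4,k6),(k7,k7)],[(k8,k6),(k11,k6)],[(k8,k6),(k11,k6)],[(k1,k6),(k10,k6)]]
    [] k0
    []
    []]⟩

/-- classes `0 0 1 1 2 3`, types `B0 B1 C0 C0 C0 C0` -/
noncomputable def cT6_1197 : CertT :=
  ⟨[k8,k9,k20,k20,k36,k52],[],[[[]]],
    [.lp [k4,k4,k2,k4,k4,k2] [k0,k0,k0,k0,k1,k1,k0,k0,k0,k0,k1,k1] k0 [] k12 k5
    [[(k10,k3)],[(k5,k3),(k2,k4)],[(k5,k3),(k2,k4)],[(k0,k4),(k3,k4)],[(k0,k3),(k3,k3)],[(k7,k3),(k9,k3)],[(k4,k3),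
    (k6,k4)],[(k7,k4),(k9,k4)],[(k4,k3),(k6,k4)],[(k11,k3)],[(k8,k3)],[(k1,k3)]]
    [] k0
    []
    []]⟩

/-- classes `0 0 1 1 2 3`, types `B0 B1 C0 C0 C0 S0` -/
noncomputable def cT6_1198 : CertT :=
  ⟨[k8,k9,k20,k20,k36,k48],[],[[[]]],
    [.lp [k6,k8,k6,k8,k6,k6] [k1,k1,k0,k0,k1,k1,k0,k0,k1,k1,k1,k1] k0 [] k24 k5
    [[(k1,k6),(k10,k6)],[(k5,k6),(k2,k7)],[(k5,k7),(k2,k8)],[(k0,k7),(k3,k8)],[(k0,k6),(k3,k7)],[(k9,k6),(k7,k7)],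
    [(k4,k7),(k6,k8)],[(k9,k7),(k7,k8)],[(k4,k6),(k6,k7)],[(k11,k6)],[(k8,k6)],[(k1,k6),(k10,k6)]]
    [] k0
    []
    []]⟩

/-- classes `0 0 1 1 2 3`, types `B0 B1 C0 C0 S0 C0` -/
noncomputable def cT6_1199 : CertT :=
  ⟨[k8,k9,k20,k20,k32,k52],[],[[[]]],
    [.lp [k6,k8,k6,k8,k6,k6] [k1,k1,k0,k0,k1,k1,k0,k0,k1,k1,k1,k1] k0 [] k24 k5
    [[(k10,k6)],[(k5,k6),(k2,k7)],[(k5,k7),(k2,k8)],[(k0,k7),(k3,k8)],[(k0,k6),(k3,k7)],[(k9,k6),(k7,k7)],[(k4,k7),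
    (k6,k8)],[(k9,k7),(k7,k8)],[(k4,k6),(k6,k7)],[(k8,k6),(k11,k6)],[(k8,k6),(k11,k6)],[(k1,k6)]]
    [] k0
    []
    []]⟩

/-- classes `0 0 1 1 2 3`, types `B0 B1 C0 C0 S0 S0` -/
noncomputable def cT6_1200 : CertT :=
  ⟨[k8,k9,k20,k20,k32,k48],[],[[[]]],
    [.lp [k6,k8,k6,k8,k6,k6] [k1,k1,k0,k0,k1,k1,k0,k0,k1,k1,k1,k1] k0 [] k24 k5
    [[(k1,k6),(k10,k6)],[(k5,k6),(k2,k7)],[(k5,k7),(k2,k8)],[(k0,k7),(k3,k8)],[(k0,k6),(k3,k7)],[(k9,k6),(k7,k7)],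
    [(k4,k7),(k6,k8)],[(k9,k7),(k7,k8)],[(k4,k6),(k6,k7)],[(k8,k6),(k11,k6)],[(k8,k6),(k11,k6)],[(k1,k6),(k10,k6)]]
    [] k0
    []
    []]⟩

/-- classes `0 0 1 1 2 3`, types `B0 B1 C0 C2 C0 C0` -/
noncomputable def cT6_1201 : CertT :=
  ⟨[k8,k9,k20,k22,k36,k52],[],[[[]]],
    [.lp [k6,k8,k6,k6,k6,k6] [k1,k1,k0,k0,k1,k1,k1,k1,k1,k1,k1,k1] k0 [] k24 k5
    [[(k10,k6)],[(k5,k6),(k2,k7)],[(k5,k7),(k2,k8)],[(k0,k7),(k3,k8)],[(k0,k6),(k3,k7)],[(k6,k6),(k7,k6)],[(k4,k6),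
    (k9,k6)],[(k4,k6),(k9,k6)],[(k6,k6),(k7,k6)],[(k11,k6)],[(k8,k6)],[(k1,k6)]]
    [] k0
    []
    []]⟩

/-- classes `0 0 1 1 2 3`, types `B0 B1 C0 C2 C0 S0` -/
noncomputable def cT6_1202 : CertT :=
  ⟨[k8,k9,k20,k22,k36,k48],[],[[[]]],
    [.lp [k6,k8,k6,k6,k6,k6] [k1,k1,k0,k0,k1,k1,k1,k1,k1,k1,k1,k1] k0 [] k24 k5
    [[(k1,k6),(k10,k6)],[(k5,k6),(k2,k7)],[(k5,k7),(k2,k8)],[(k0,k7),(k3,k8)],[(k0,k6),(k3,k7)],[(k6,k6),(k7,k6)],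
    [(k4,k6),(k9,k6)],[(k4,k6),(k9,k6)],[(k6,k6),(k7,k6)],[(k11,k6)],[(k8,k6)],[(k1,k6),(k10,k6)]]
    [] k0
    []
    []]⟩

/-- classes `0 0 1 1 2 3`, types `B0 B1 C0 C2 S0 C0` -/
noncomputable def cT6_1203 : CertT :=
  ⟨[k8,k9,k20,k22,k32,k52],[],[[[]]],
    [.lp [k12,k16,k12,k12,k18,k12] [k3,k3,k1,k1,k3,k3,k3,k3,k0,k0,k3,k3] k0 [] k48 k5
    [[(k10,k12)],[(k5,k12),(k2,k14)],[(k5,k14),(k2,k16)],[(k0,k14),(k3,k16)],[(k0,k12),(k3,k14)],[(k6,k12),(k7,k12)],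
    [(k4,k12),(k9,k15)],[(k4,k12),(k9,k15)],[(k6,k15),(k7,k15)],[(k11,k15),(k8,k18)],[(k11,k12),(k8,k15)],[(k1,k12)]]
    [] k0
    []
    []]⟩

/-- classes `0 0 1 1 2 3`, types `B0 B1 C0 C2 S0 S0` -/
noncomputable def cT6_1204 : CertT :=
  ⟨[k8,k9,k20,k22,k32,k48],[],[[[]]],
    [.lp [k12,k16,k12,k12,k18,k12] [k3,k3,k1,k1,k3,k3,k3,k3,k0,k0,k3,k3] k0 [] k48 k5
    [[(k1,k12),(k10,k12)],[(k5,k12),(k2,k14)],[(k5,k14),(k2,k16)],[(k0,k14),(k3,k16)],[(k0,k12),(k3,k14)],[(k6,k12),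
    (k7,k12)],[(k4,k12),(k9,k15)],[(k4,k12),(k9,k15)],[(k6,k15),(k7,k15)],[(k11,k15),(k8,k18)],[(k11,k12),(k8,k15)],
    [(k1,k12),(k10,k12)]]
    [] k0
    []
    []]⟩

/-- classes `0 0 1 1 2 3`, types `B0 B1 N0 N1 C0 C0` -/
noncomputable def cT6_1205 : CertT :=
  ⟨[k8,k9,k28,k29,k36,k52],[],[[[]]],
    [.lp [k4,k4,k2,k4,k4,k2] [k0,k0,k0,k0,k1,k1,k0,k0,k0,k0,k1,k1] k0 [] k12 k5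
    [[(k10,k3)],[(k5,k3),(k2,k4)],[(k5,k3),(k2,k4)],[(k0,k4),(k3,k4)],[(k0,k3),(k3,k3)],[(k9,k3)],[(k6,k4)],[(k7,k4)],
    [(k4,k3)],[(k11,k3)],[(k8,k3)],[(k1,k3)]]
    [] k0
    []
    []]⟩

/-- classes `0 0 1 1 2 3`, types `B0 B1 N0 N1 C0 S0` -/
noncomputable def cT6_1206 : CertT :=
  ⟨[k8,k9,k28,k29,k36,k48],[],[[[]]],
    [.lp [k6,k8,k6,k8,k6,k6] [k1,k1,k0,k0,k1,k1,k0,k0,k1,k1,k1,k1] k0 [] k24 k5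
    [[(k1,k6),(k10,k6)],[(k5,k6),(k2,k7)],[(k5,k7),(k2,k8)],[(k0,k7),(k3,k8)],[(k0,k6),(k3,k7)],[(k9,k6)],[(k6,k8)],
    [(k7,k8)],[(k4,k6)],[(k11,k6)],[(k8,k6)],[(k1,k6),(k10,k6)]]
    [] k0
    []
    []]⟩

/-- classes `0 0 1 1 2 3`, types `B0 B1 N0 N1 S0 C0` -/
noncomputable def cT6_1207 : CertT :=
  ⟨[k8,k9,k28,k29,k32,k52],[],[[[]]],
    [.lp [k6,k8,k6,k8,k6,k6] [k1,k1,k0,k0,k1,k1,k0,k0,k1,k1,k1,k1] k0 [] k24 k5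
    [[(k10,k6)],[(k5,k6),(k2,k7)],[(k5,k7),(k2,k8)],[(k0,k7),(k3,k8)],[(k0,k6),(k3,k7)],[(k9,k6)],[(k6,k8)],[(k7,k8)],
    [(k4,k6)],[(k8,k6),(k11,k6)],[(k8,k6),(k11,k6)],[(k1,k6)]]
    [] k0
    []
    []]⟩

/-- classes `0 0 1 1 2 3`, types `B0 B1 N0 N1 S0 S0` -/
noncomputable def cT6_1208 : CertT :=
  ⟨[k8,k9,k28,k29,k32,k48],[],[[[]]],
    [.lp [k6,k8,k6,k8,k6,k6] [k1,k1,k0,k0,k1,k1,k0,k0,k1,k1,k1,k1] k0 [] k24 k5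
    [[(k1,k6),(k10,k6)],[(k5,k6),(k2,k7)],[(k5,k7),(k2,k8)],[(k0,k7),(k3,k8)],[(k0,k6),(k3,k7)],[(k9,k6)],[(k6,k8)],
    [(k7,k8)],[(k4,k6)],[(k8,k6),(k11,k6)],[(k8,k6),(k11,k6)],[(k1,k6),(k10,k6)]]
    [] k0
    []
    []]⟩

/-- classes `0 0 1 1 2 3`, types `B0 B1 N0 N2 C0 C0` -/
noncomputable def cT6_1209 : CertT :=
  ⟨[k8,k9,k28,k30,k36,k52],[],[[[]]],
    [.lp [k6,k8,k6,k6,k6,k6] [k1,k1,k0,k0,k1,k1,k1,k1,k1,k1,k1,k1] k0 [] k24 k5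
    [[(k10,k6)],[(k5,k6),(k2,k7)],[(k5,k7),(k2,k8)],[(k0,k7),(k3,k8)],[(k0,k6),(k3,k7)],[(k6,k6)],[(k9,k6)],[(k4,k6)],
    [(k7,k6)],[(k11,k6)],[(k8,k6)],[(k1,k6)]]
    [] k0
    []
    []]⟩

/-- classes `0 0 1 1 2 3`, types `B0 B1 N0 N2 C0 S0` -/
noncomputable def cT6_1210 : CertT :=
  ⟨[k8,k9,k28,k30,k36,k48],[],[[[]]],
    [.lp [k6,k8,k6,k6,k6,k6] [k1,k1,k0,k0,k1,k1,k1,k1,k1,k1,k1,k1] k0 [] k24 k5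
    [[(k1,k6),(k10,k6)],[(k5,k6),(k2,k7)],[(k5,k7),(k2,k8)],[(k0,k7),(k3,k8)],[(k0,k6),(k3,k7)],[(k6,k6)],[(k9,k6)],
    [(k4,k6)],[(k7,k6)],[(k11,k6)],[(k8,k6)],[(k1,k6),(k10,k6)]]
    [] k0
    []
    []]⟩

/-- classes `0 0 1 1 2 3`, types `B0 B1 N0 N2 S0 C0` -/
noncomputable def cT6_1211 : CertT :=
  ⟨[k8,k9,k28,k30,k32,k52],[],[[[]]],
    [.lp [k6,k8,k6,k6,k6,k6] [k1,k1,k0,k0,k1,k1,k1,k1,k1,k1,k1,k1] k0 [] k24 k5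
    [[(k10,k6)],[(k5,k6),(k2,k7)],[(k5,k7),(k2,k8)],[(k0,k7),(k3,k8)],[(k0,k6),(k3,k7)],[(k6,k6)],[(k9,k6)],[(k4,k6)],
    [(k7,k6)],[(k8,k6),(k11,k6)],[(k8,k6),(k11,k6)],[(k1,k6)]]
    [] k0
    []
    []]⟩

/-- classes `0 0 1 1 2 3`, types `B0 B1 N0 N2 S0 S0` -/
noncomputable def cT6_1212 : CertT :=
  ⟨[k8,k9,k28,k30,k32,k48],[],[[[]]],
    [.lp [k6,k8,k6,k6,k6,k6] [k1,k1,k0,k0,k1,k1,k1,k1,k1,k1,k1,k1] k0 [] k24 k5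
    [[(k1,k6),(k10,k6)],[(k5,k6),(k2,k7)],[(k5,k7),(k2,k8)],[(k0,k7),(k3,k8)],[(k0,k6),(k3,k7)],[(k6,k6)],[(k9,k6)],
    [(k4,k6)],[(k7,k6)],[(k8,k6),(k11,k6)],[(k8,k6),(k11,k6)],[(k1,k6),(k10,k6)]]
    [] k0
    []
    []]⟩

/-- classes `0 0 1 1 2 3`, types `B0 B1 S0 S0 C0 C0` -/
noncomputable def cT6_1213 : CertT :=
  ⟨[k8,k9,k16,k16,k36,k52],[],[[[]]],
    [.lp [k6,k8,k6,k8,k6,k6] [k1,k1,k0,k0,k1,k1,k0,k0,k1,k1,k1,k1] k0 [] k24 k5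
    [[(k10,k6)],[(k5,k6),(k2,k7)],[(k5,k7),(k2,k8)],[(k0,k7),(k3,k8)],[(k0,k6),(k3,k7)],[(k4,k6),(k9,k6),(k6,k7),(k7,
    k7)],[(k4,k7),(k9,k7),(k6,k8),(k7,k8)],[(k4,k7),(k9,k7),(k6,k8),(k7,k8)],[(k4,k6),(k9,k6),(k6,k7),(k7,k7)],[(k11,
    k6)],[(k8,k6)],[(k1,k6)]]
    [] k0
    []
    []]⟩

/-- classes `0 0 1 1 2 3`, types `B0 B1 S0 S0 C0 S0` -/
noncomputable def cT6_1214 : CertT :=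
  ⟨[k8,k9,k16,k16,k36,k48],[],[[[]]],
    [.lp [k6,k8,k6,k8,k6,k6] [k1,k1,k0,k0,k1,k1,k0,k0,k1,k1,k1,k1] k0 [] k24 k5
    [[(k1,k6),(k10,k6)],[(k5,k6),(k2,k7)],[(k5,k7),(k2,k8)],[(k0,k7),(k3,k8)],[(k0,k6),(k3,k7)],[(k4,k6),(k9,k6),(k6,
    k7),(k7,k7)],[(k4,k7),(k9,k7),(k6,k8),(k7,k8)],[(k4,k7),(k9,k7),(k6,k8),(k7,k8)],[(k4,k6),(k9,k6),(k6,k7),(k7,
    k7)],[(k11,k6)],[(k8,k6)],[(k1,k6),(k10,k6)]]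
    [] k0
    []
    []]⟩

/-- classes `0 0 1 1 2 3`, types `B0 B1 S0 S0 S0 C0` -/
noncomputable def cT6_1215 : CertT :=
  ⟨[k8,k9,k16,k16,k32,k52],[],[[[]]],
    [.lp [k6,k8,k6,k8,k8,k6] [k1,k1,k0,k0,k1,k1,k0,k0,k0,k0,k1,k1] k0 [] k24 k5
    [[(k10,k6)],[(k5,k6),(k2,k7)],[(k5,k7),(k2,k8)],[(k0,k7),(k3,k8)],[(k0,k6),(k3,k7)],[(k4,k6),(k6,k7),(k7,k7),(k9,
    k7)],[(k4,k7),(k6,k8),(k7,k8),(k9,k8)],[(k4,k7),(k6,k8),(k7,k8),(k9,k8)],[(k4,k7),(k6,k8),(k7,k8),(k9,k8)],[(k11,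
    k7),(k8,k8)],[(k11,k6),(k8,k7)],[(k1,k6)]]
    [] k0
    []
    []]⟩

/-- classes `0 0 1 1 2 3`, types `B0 B1 S0 S0 S0 S0` -/
noncomputable def cT6_1216 : CertT :=
  ⟨[k8,k9,k16,k16,k32,k48],[],[[[]]],
    [.lp [k6,k8,k6,k8,k8,k6] [k1,k1,k0,k0,k1,k1,k0,k0,k0,k0,k1,k1] k0 [] k24 k5
    [[(k1,k6),(k10,k6)],[(k5,k6),(k2,k7)],[(k5,k7),(k2,k8)],[(k0,k7),(k3,k8)],[(k0,k6),(k3,k7)],[(k4,k6),(k6,k7),(k7,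
    k7),(k9,k7)],[(k4,k7),(k6,k8),(k7,k8),(k9,k8)],[(k4,k7),(k6,k8),(k7,k8),(k9,k8)],[(k4,k7),(k6,k8),(k7,k8),(k9,
    k8)],[(k11,k7),(k8,k8)],[(k11,k6),(k8,k7)],[(k1,k6),(k10,k6)]]
    [] k0
    []
    []]⟩

/-- classes `0 0 1 1 2 3`, types `C0 C0 C0 C0 C0 C0` -/
noncomputable def cT6_1217 : CertT :=
  ⟨[k4,k4,k20,k20,k36,k52],[],[[[]]],
    [.lp [k4,k4,k2,k4,k4,k2] [k0,k0,k0,k0,k1,k1,k0,k0,k0,k0,k1,k1] k0 [] k12 k5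
    [[(k10,k3)],[(k5,k3),(k3,k4)],[(k0,k4),(k2,k4)],[(k5,k3),(k3,k4)],[(k0,k3),(k2,k3)],[(k7,k3),(k9,k3)],[(k4,k3),
    (k6,k4)],[(k7,k4),(k9,k4)],[(k4,k3),(k6,k4)],[(k11,k3)],[(k8,k3)],[(k1,k3)]]
    [] k0
    []
    []]⟩

/-- classes `0 0 1 1 2 3`, types `C0 C0 C0 C0 C0 S0` -/
noncomputable def cT6_1218 : CertT :=
  ⟨[k4,k4,k20,k20,k36,k48],[],[[[]]],
    [.lp [k6,k8,k6,k8,k6,k6] [k1,k1,k0,k0,k1,k1,k0,k0,k1,k1,k1,k1] k0 [] k24 k5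
    [[(k1,k6),(k10,k6)],[(k5,k6),(k3,k7)],[(k0,k7),(k2,k8)],[(k5,k7),(k3,k8)],[(k0,k6),(k2,k7)],[(k9,k6),(k7,k7)],
    [(k4,k7),(k6,k8)],[(k9,k7),(k7,k8)],[(k4,k6),(k6,k7)],[(k11,k6)],[(k8,k6)],[(k1,k6),(k10,k6)]]
    [] k0
    []
    []]⟩

/-- classes `0 0 1 1 2 3`, types `C0 C0 C0 C0 S0 S0` -/
noncomputable def cT6_1219 : CertT :=
  ⟨[k4,k4,k20,k20,k32,k48],[],[[[]]],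
    [.lp [k6,k8,k6,k8,k6,k6] [k1,k1,k0,k0,k1,k1,k0,k0,k1,k1,k1,k1] k0 [] k24 k5
    [[(k1,k6),(k10,k6)],[(k5,k6),(k3,k7)],[(k0,k7),(k2,k8)],[(k5,k7),(k3,k8)],[(k0,k6),(k2,k7)],[(k9,k6),(k7,k7)],
    [(k4,k7),(k6,k8)],[(k9,k7),(k7,k8)],[(k4,k6),(k6,k7)],[(k8,k6),(k11,k6)],[(k8,k6),(k11,k6)],[(k1,k6),(k10,k6)]]
    [] k0
    []
    []]⟩

/-- classes `0 0 1 1 2 3`, types `C0 C0 C0 C2 C0 C0` -/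
noncomputable def cT6_1220 : CertT :=
  ⟨[k4,k4,k20,k22,k36,k52],[],[[[]]],
    [.lp [k6,k8,k6,k6,k6,k6] [k1,k1,k0,k0,k1,k1,k1,k1,k1,k1,k1,k1] k0 [] k24 k5
    [[(k10,k6)],[(k5,k6),(k3,k7)],[(k0,k7),(k2,k8)],[(k5,k7),(k3,k8)],[(k0,k6),(k2,k7)],[(k6,k6),(k7,k6)],[(k4,k6),
    (k9,k6)],[(k4,k6),(k9,k6)],[(k6,k6),(k7,k6)],[(k11,k6)],[(k8,k6)],[(k1,k6)]]
    [] k0
    []
    []]⟩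

/-- classes `0 0 1 1 2 3`, types `C0 C0 C0 C2 C0 S0` -/
noncomputable def cT6_1221 : CertT :=
  ⟨[k4,k4,k20,k22,k36,k48],[],[[[]]],
    [.lp [k6,k8,k6,k6,k6,k6] [k1,k1,k0,k0,k1,k1,k1,k1,k1,k1,k1,k1] k0 [] k24 k5
    [[(k1,k6),(k10,k6)],[(k5,k6),(k3,k7)],[(k0,k7),(k2,k8)],[(k5,k7),(k3,k8)],[(k0,k6),(k2,k7)],[(k6,k6),(k7,k6)],
    [(k4,k6),(k9,k6)],[(k4,k6),(k9,k6)],[(k6,k6),(k7,k6)],[(k11,k6)],[(k8,k6)],[(k1,k6),(k10,k6)]]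
    [] k0
    []
    []]⟩

/-- classes `0 0 1 1 2 3`, types `C0 C0 C0 C2 S0 C0` -/
noncomputable def cT6_1222 : CertT :=
  ⟨[k4,k4,k20,k22,k32,k52],[],[[[]]],
    [.lp [k12,k16,k12,k12,k18,k12] [k3,k3,k1,k1,k3,k3,k3,k3,k0,k0,k3,k3] k0 [] k48 k5
    [[(k10,k12)],[(k5,k12),(k3,k14)],[(k0,k14),(k2,k16)],[(k5,k14),(k3,k16)],[(k0,k12),(k2,k14)],[(k6,k12),(k7,k12)],
    [(k4,k12),(k9,k15)],[(k4,k12),(k9,k15)],[(k6,k15),(k7,k15)],[(k11,k15),(k8,k18)],[(k11,k12),(k8,k15)],[(k1,k12)]]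
    [] k0
    []
    []]⟩

/-- classes `0 0 1 1 2 3`, types `C0 C0 C0 C2 S0 S0` -/
noncomputable def cT6_1223 : CertT :=
  ⟨[k4,k4,k20,k22,k32,k48],[],[[[]]],
    [.lp [k12,k16,k12,k12,k18,k12] [k3,k3,k1,k1,k3,k3,k3,k3,k0,k0,k3,k3] k0 [] k48 k5
    [[(k1,k12),(k10,k12)],[(k5,k12),(k3,k14)],[(k0,k14),(k2,k16)],[(k5,k14),(k3,k16)],[(k0,k12),(k2,k14)],[(k6,k12),
    (k7,k12)],[(k4,k12),(k9,k15)],[(k4,k12),(k9,k15)],[(k6,k15),(k7,k15)],[(k11,k15),(k8,k18)],[(k11,k12),(k8,k15)],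
    [(k1,k12),(k10,k12)]]
    [] k0
    []
    []]⟩

/-- classes `0 0 1 1 2 3`, types `C0 C0 N0 N1 C0 C0` -/
noncomputable def cT6_1224 : CertT :=
  ⟨[k4,k4,k28,k29,k36,k52],[],[[[]]],
    [.lp [k4,k4,k2,k4,k4,k2] [k0,k0,k0,k0,k1,k1,k0,k0,k0,k0,k1,k1] k0 [] k12 k5
    [[(k10,k3)],[(k5,k3),(k3,k4)],[(k0,k4),(k2,k4)],[(k5,k3),(k3,k4)],[(k0,k3),(k2,k3)],[(k9,k3)],[(k6,k4)],[(k7,k4)],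
    [(k4,k3)],[(k11,k3)],[(k8,k3)],[(k1,k3)]]
    [] k0
    []
    []]⟩

/-- classes `0 0 1 1 2 3`, types `C0 C0 N0 N1 C0 S0` -/
noncomputable def cT6_1225 : CertT :=
  ⟨[k4,k4,k28,k29,k36,k48],[],[[[]]],
    [.lp [k6,k8,k6,k8,k6,k6] [k1,k1,k0,k0,k1,k1,k0,k0,k1,k1,k1,k1] k0 [] k24 k5
    [[(k1,k6),(k10,k6)],[(k5,k6),(k3,k7)],[(k0,k7),(k2,k8)],[(k5,k7),(k3,k8)],[(k0,k6),(k2,k7)],[(k9,k6)],[(k6,k8)],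
    [(k7,k8)],[(k4,k6)],[(k11,k6)],[(k8,k6)],[(k1,k6),(k10,k6)]]
    [] k0
    []
    []]⟩

/-- classes `0 0 1 1 2 3`, types `C0 C0 N0 N1 S0 C0` -/
noncomputable def cT6_1226 : CertT :=
  ⟨[k4,k4,k28,k29,k32,k52],[],[[[]]],
    [.lp [k6,k8,k6,k8,k6,k6] [k1,k1,k0,k0,k1,k1,k0,k0,k1,k1,k1,k1] k0 [] k24 k5
    [[(k10,k6)],[(k5,k6),(k3,k7)],[(k0,k7),(k2,k8)],[(k5,k7),(k3,k8)],[(k0,k6),(k2,k7)],[(k9,k6)],[(k6,k8)],[(k7,k8)],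
    [(k4,k6)],[(k8,k6),(k11,k6)],[(k8,k6),(k11,k6)],[(k1,k6)]]
    [] k0
    []
    []]⟩

/-- classes `0 0 1 1 2 3`, types `C0 C0 N0 N1 S0 S0` -/
noncomputable def cT6_1227 : CertT :=
  ⟨[k4,k4,k28,k29,k32,k48],[],[[[]]],
    [.lp [k6,k8,k6,k8,k6,k6] [k1,k1,k0,k0,k1,k1,k0,k0,k1,k1,k1,k1] k0 [] k24 k5
    [[(k1,k6),(k10,k6)],[(k5,k6),(k3,k7)],[(k0,k7),(k2,k8)],[(k5,k7),(k3,k8)],[(k0,k6),(k2,k7)],[(k9,k6)],[(k6,k8)],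
    [(k7,k8)],[(k4,k6)],[(k8,k6),(k11,k6)],[(k8,k6),(k11,k6)],[(k1,k6),(k10,k6)]]
    [] k0
    []
    []]⟩

/-- classes `0 0 1 1 2 3`, types `C0 C0 N0 N2 C0 C0` -/
noncomputable def cT6_1228 : CertT :=
  ⟨[k4,k4,k28,k30,k36,k52],[],[[[]]],
    [.lp [k6,k8,k6,k6,k6,k6] [k1,k1,k0,k0,k1,k1,k1,k1,k1,k1,k1,k1] k0 [] k24 k5
    [[(k10,k6)],[(k5,k6),(k3,k7)],[(k0,k7),(k2,k8)],[(k5,k7),(k3,k8)],[(k0,k6),(k2,k7)],[(k6,k6)],[(k9,k6)],[(k4,k6)],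
    [(k7,k6)],[(k11,k6)],[(k8,k6)],[(k1,k6)]]
    [] k0
    []
    []]⟩

/-- classes `0 0 1 1 2 3`, types `C0 C0 N0 N2 C0 S0` -/
noncomputable def cT6_1229 : CertT :=
  ⟨[k4,k4,k28,k30,k36,k48],[],[[[]]],
    [.lp [k6,k8,k6,k6,k6,k6] [k1,k1,k0,k0,k1,k1,k1,k1,k1,k1,k1,k1] k0 [] k24 k5
    [[(k1,k6),(k10,k6)],[(k5,k6),(k3,k7)],[(k0,k7),(k2,k8)],[(k5,k7),(k3,k8)],[(k0,k6),(k2,k7)],[(k6,k6)],[(k9,k6)],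
    [(k4,k6)],[(k7,k6)],[(k11,k6)],[(k8,k6)],[(k1,k6),(k10,k6)]]
    [] k0
    []
    []]⟩

/-- classes `0 0 1 1 2 3`, types `C0 C0 N0 N2 S0 C0` -/
noncomputable def cT6_1230 : CertT :=
  ⟨[k4,k4,k28,k30,k32,k52],[],[[[]]],
    [.lp [k6,k8,k6,k6,k6,k6] [k1,k1,k0,k0,k1,k1,k1,k1,k1,k1,k1,k1] k0 [] k24 k5
    [[(k10,k6)],[(k5,k6),(k3,k7)],[(k0,k7),(k2,k8)],[(k5,k7),(k3,k8)],[(k0,k6),(k2,k7)],[(k6,k6)],[(k9,k6)],[(k4,k6)],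
    [(k7,k6)],[(k8,k6),(k11,k6)],[(k8,k6),(k11,k6)],[(k1,k6)]]
    [] k0
    []
    []]⟩

/-- classes `0 0 1 1 2 3`, types `C0 C0 N0 N2 S0 S0` -/
noncomputable def cT6_1231 : CertT :=
  ⟨[k4,k4,k28,k30,k32,k48],[],[[[]]],
    [.lp [k6,k8,k6,k6,k6,k6] [k1,k1,k0,k0,k1,k1,k1,k1,k1,k1,k1,k1] k0 [] k24 k5
    [[(k1,k6),(k10,k6)],[(k5,k6),(k3,k7)],[(k0,k7),(k2,k8)],[(k5,k7),(k3,k8)],[(k0,k6),(k2,k7)],[(k6,k6)],[(k9,k6)],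
    [(k4,k6)],[(k7,k6)],[(k8,k6),(k11,k6)],[(k8,k6),(k11,k6)],[(k1,k6),(k10,k6)]]
    [] k0
    []
    []]⟩

/-- classes `0 0 1 1 2 3`, types `C0 C0 S0 S0 C0 C0` -/
noncomputable def cT6_1232 : CertT :=
  ⟨[k4,k4,k16,k16,k36,k52],[],[[[]]],
    [.lp [k6,k8,k6,k8,k6,k6] [k1,k1,k0,k0,k1,k1,k0,k0,k1,k1,k1,k1] k0 [] k24 k5
    [[(k10,k6)],[(k5,k6),(k3,k7)],[(k0,k7),(k2,k8)],[(k5,k7),(k3,k8)],[(k0,k6),(k2,k7)],[(k4,k6),(k9,k6),(k6,k7),(k7,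
    k7)],[(k4,k7),(k9,k7),(k6,k8),(k7,k8)],[(k4,k7),(k9,k7),(k6,k8),(k7,k8)],[(k4,k6),(k9,k6),(k6,k7),(k7,k7)],[(k11,
    k6)],[(k8,k6)],[(k1,k6)]]
    [] k0
    []
    []]⟩

/-- classes `0 0 1 1 2 3`, types `C0 C0 S0 S0 C0 S0` -/
noncomputable def cT6_1233 : CertT :=
  ⟨[k4,k4,k16,k16,k36,k48],[],[[[]]],
    [.lp [k6,k8,k6,k8,k6,k6] [k1,k1,k0,k0,k1,k1,k0,k0,k1,k1,k1,k1] k0 [] k24 k5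
    [[(k1,k6),(k10,k6)],[(k5,k6),(k3,k7)],[(k0,k7),(k2,k8)],[(k5,k7),(k3,k8)],[(k0,k6),(k2,k7)],[(k4,k6),(k9,k6),(k6,
    k7),(k7,k7)],[(k4,k7),(k9,k7),(k6,k8),(k7,k8)],[(k4,k7),(k9,k7),(k6,k8),(k7,k8)],[(k4,k6),(k9,k6),(k6,k7),(k7,
    k7)],[(k11,k6)],[(k8,k6)],[(k1,k6),(k10,k6)]]
    [] k0
    []
    []]⟩

/-- classes `0 0 1 1 2 3`, types `C0 C0 S0 S0 S0 C0` -/
noncomputable def cT6_1234 : CertT :=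
  ⟨[k4,k4,k16,k16,k32,k52],[],[[[]]],
    [.lp [k6,k8,k6,k8,k8,k6] [k1,k1,k0,k0,k1,k1,k0,k0,k0,k0,k1,k1] k0 [] k24 k5
    [[(k10,k6)],[(k5,k6),(k3,k7)],[(k0,k7),(k2,k8)],[(k5,k7),(k3,k8)],[(k0,k6),(k2,k7)],[(k4,k6),(k6,k7),(k7,k7),(k9,
    k7)],[(k4,k7),(k6,k8),(k7,k8),(k9,k8)],[(k4,k7),(k6,k8),(k7,k8),(k9,k8)],[(k4,k7),(k6,k8),(k7,k8),(k9,k8)],[(k11,
    k7),(k8,k8)],[(k11,k6),(k8,k7)],[(k1,k6)]]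
    [] k0
    []
    []]⟩

/-- classes `0 0 1 1 2 3`, types `C0 C0 S0 S0 S0 S0` -/
noncomputable def cT6_1235 : CertT :=
  ⟨[k4,k4,k16,k16,k32,k48],[],[[[]]],
    [.lp [k6,k8,k6,k8,k8,k6] [k1,k1,k0,k0,k1,k1,k0,k0,k0,k0,k1,k1] k0 [] k24 k5
    [[(k1,k6),(k10,k6)],[(k5,k6),(k3,k7)],[(k0,k7),(k2,k8)],[(k5,k7),(k3,k8)],[(k0,k6),(k2,k7)],[(k4,k6),(k6,k7),(k7,
    k7),(k9,k7)],[(k4,k7),(k6,k8),(k7,k8),(k9,k8)],[(k4,k7),(k6,k8),(k7,k8),(k9,k8)],[(k4,k7),(k6,k8),(k7,k8),(k9,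
    k8)],[(k11,k7),(k8,k8)],[(k11,k6),(k8,k7)],[(k1,k6),(k10,k6)]]
    [] k0
    []
    []]⟩

/-- classes `0 0 1 1 2 3`, types `C0 C2 C0 C2 C0 C0` -/
noncomputable def cT6_1236 : CertT :=
  ⟨[k4,k6,k20,k22,k36,k52],[],[[[]]],
    [.lp [k0,k2,k0,k2,k0,k2] [k1,k1,k0,k0,k1,k1,k0,k0,k1,k1,k0,k0] k0 [] k4 k5
    [[(k10,k1)],[(k2,k1),(k3,k1)],[(k0,k1),(k5,k1)],[(k0,k1),(k5,k1)],[(k2,k1),(k3,k1)],[(k6,k1),(k7,k1)],[(k4,k1),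
    (k9,k1)],[(k4,k1),(k9,k1)],[(k6,k1),(k7,k1)],[(k11,k1)],[(k8,k1)],[(k1,k1)]]
    [] k0
    []
    []]⟩

/-- classes `0 0 1 1 2 3`, types `C0 C2 C0 C2 C0 S0` -/
noncomputable def cT6_1237 : CertT :=
  ⟨[k4,k6,k20,k22,k36,k48],[],[[[]]],
    [.lp [k6,k4,k4,k4,k4,k4] [k0,k0,k1,k1,k1,k1,k1,k1,k1,k1,k1,k1] k0 [] k16 k5
    [[(k10,k5),(k1,k6)],[(k2,k5),(k3,k5)],[(k5,k4),(k0,k5)],[(k5,k4),(k0,k5)],[(k2,k4),(k3,k4)],[(k6,k4),(k7,k4)],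
    [(k4,k4),(k9,k4)],[(k4,k4),(k9,k4)],[(k6,k4),(k7,k4)],[(k11,k4)],[(k8,k4)],[(k10,k4),(k1,k5)]]
    [] k0
    []
    []]⟩

/-- classes `0 0 1 1 2 3`, types `C0 C2 C0 C2 S0 S0` -/
noncomputable def cT6_1238 : CertT :=
  ⟨[k4,k6,k20,k22,k32,k48],[],[[[]]],
    [.lp [k2,k4,k0,k4,k2,k2] [k1,k1,k0,k0,k2,k2,k0,k0,k1,k1,k1,k1] k0 [] k8 k5
    [[(k1,k2),(k10,k2)],[(k2,k3),(k3,k3)],[(k5,k2),(k0,k3)],[(k5,k2),(k0,k3)],[(k2,k2),(k3,k2)],[(k6,k2),(k7,k2)],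
    [(k4,k2),(k9,k3)],[(k4,k2),(k9,k3)],[(k6,k3),(k7,k3)],[(k8,k2),(k11,k2)],[(k8,k2),(k11,k2)],[(k1,k2),(k10,k2)]]
    [] k0
    []
    []]⟩

/-- classes `0 0 1 1 2 3`, types `C0 C2 N0 N1 C0 C0` -/
noncomputable def cT6_1239 : CertT :=
  ⟨[k4,k6,k28,k29,k36,k52],[],[[[]]],
    [.lp [k6,k6,k6,k8,k6,k6] [k1,k1,k1,k1,k1,k1,k0,k0,k1,k1,k1,k1] k0 [] k24 k5
    [[(k10,k6)],[(k2,k6),(k3,k6)],[(k0,k6),(k5,k6)],[(k0,k6),(k5,k6)],[(k2,k6),(k3,k6)],[(k9,k6)],[(k6,k8)],[(k7,k8)],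
    [(k4,k6)],[(k11,k6)],[(k8,k6)],[(k1,k6)]]
    [] k0
    []
    []]⟩

/-- classes `0 0 1 1 2 3`, types `C0 C2 N0 N1 C0 S0` -/
noncomputable def cT6_1240 : CertT :=
  ⟨[k4,k6,k28,k29,k36,k48],[],[[[]]],
    [.lp [k18,k12,k12,k16,k12,k12] [k0,k0,k3,k3,k3,k3,k1,k1,k3,k3,k3,k3] k0 [] k48 k5
    [[(k10,k15),(k1,k18)],[(k2,k15),(k3,k15)],[(k5,k12),(k0,k15)],[(k5,k12),(k0,k15)],[(k2,k12),(k3,k12)],[(k9,k12)],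
    [(k6,k16)],[(k7,k16)],[(k4,k12)],[(k11,k12)],[(k8,k12)],[(k10,k12),(k1,k15)]]
    [] k0
    []
    []]⟩

/-- classes `0 0 1 1 2 3`, types `C0 C2 N0 N1 S0 C0` -/
noncomputable def cT6_1241 : CertT :=
  ⟨[k4,k6,k28,k29,k32,k52],[],[[[]]],
    [.lp [k6,k6,k6,k8,k6,k6] [k1,k1,k1,k1,k1,k1,k0,k0,k1,k1,k1,k1] k0 [] k24 k5
    [[(k10,k6)],[(k2,k6),(k3,k6)],[(k0,k6),(k5,k6)],[(k0,k6),(k5,k6)],[(k2,k6),(k3,k6)],[(k9,k6)],[(k6,k8)],[(k7,k8)],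
    [(k4,k6)],[(k8,k6),(k11,k6)],[(k8,k6),(k11,k6)],[(k1,k6)]]
    [] k0
    []
    []]⟩

/-- classes `0 0 1 1 2 3`, types `C0 C2 N0 N1 S0 S0` -/
noncomputable def cT6_1242 : CertT :=
  ⟨[k4,k6,k28,k29,k32,k48],[],[[[]]],
    [.lp [k18,k12,k12,k16,k12,k12] [k0,k0,k3,k3,k3,k3,k1,k1,k3,k3,k3,k3] k0 [] k48 k5
    [[(k10,k15),(k1,k18)],[(k2,k15),(k3,k15)],[(k5,k12),(k0,k15)],[(k5,k12),(k0,k15)],[(k2,k12),(k3,k12)],[(k9,k12)],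
    [(k6,k16)],[(k7,k16)],[(k4,k12)],[(k8,k12),(k11,k12)],[(k8,k12),(k11,k12)],[(k10,k12),(k1,k15)]]
    [] k0
    []
    []]⟩

/-- classes `0 0 1 1 2 3`, types `C0 C2 N0 N2 C0 C0` -/
noncomputable def cT6_1243 : CertT :=
  ⟨[k4,k6,k28,k30,k36,k52],[],[[[]]],
    [.lp [k0,k2,k0,k2,k0,k2] [k1,k1,k0,k0,k1,k1,k0,k0,k1,k1,k0,k0] k0 [] k4 k5
    [[(k10,k1)],[(k2,k1),(k3,k1)],[(k0,k1),(k5,k1)],[(k0,k1),(k5,k1)],[(k2,k1),(k3,k1)],[(k6,k1)],[(k9,k1)],[(k4,k1)],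
    [(k7,k1)],[(k11,k1)],[(k8,k1)],[(k1,k1)]]
    [] k0
    []
    []]⟩

/-- classes `0 0 1 1 2 3`, types `C0 C2 N0 N2 C0 S0` -/
noncomputable def cT6_1244 : CertT :=
  ⟨[k4,k6,k28,k30,k36,k48],[],[[[]]],
    [.lp [k6,k4,k4,k4,k4,k4] [k0,k0,k1,k1,k1,k1,k1,k1,k1,k1,k1,k1] k0 [] k16 k5
    [[(k10,k5),(k1,k6)],[(k2,k5),(k3,k5)],[(k5,k4),(k0,k5)],[(k5,k4),(k0,k5)],[(k2,k4),(k3,k4)],[(k6,k4)],[(k9,k4)],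
    [(k4,k4)],[(k7,k4)],[(k11,k4)],[(k8,k4)],[(k10,k4),(k1,k5)]]
    [] k0
    []
    []]⟩

/-- classes `0 0 1 1 2 3`, types `C0 C2 N0 N2 S0 C0` -/
noncomputable def cT6_1245 : CertT :=
  ⟨[k4,k6,k28,k30,k32,k52],[],[[[]]],
    [.lp [k2,k2,k2,k2,k2,k2] [k0,k0,k0,k0,k0,k0,k0,k0,k0,k0,k0,k0] k0 [] k8 k5
    [[(k10,k2)],[(k2,k2),(k3,k2)],[(k0,k2),(k5,k2)],[(k0,k2),(k5,k2)],[(k2,k2),(k3,k2)],[(k6,k2)],[(k9,k2)],[(k4,k2)],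
    [(k7,k2)],[(k8,k2),(k11,k2)],[(k8,k2),(k11,k2)],[(k1,k2)]]
    [] k0
    []
    []]⟩

/-- classes `0 0 1 1 2 3`, types `C0 C2 N0 N2 S0 S0` -/
noncomputable def cT6_1246 : CertT :=
  ⟨[k4,k6,k28,k30,k32,k48],[],[[[]]],
    [.lp [k6,k4,k4,k4,k4,k4] [k0,k0,k1,k1,k1,k1,k1,k1,k1,k1,k1,k1] k0 [] k16 k5
    [[(k10,k5),(k1,k6)],[(k2,k5),(k3,k5)],[(k5,k4),(k0,k5)],[(k5,k4),(k0,k5)],[(k2,k4),(k3,k4)],[(k6,k4)],[(k9,k4)],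
    [(k4,k4)],[(k7,k4)],[(k8,k4),(k11,k4)],[(k8,k4),(k11,k4)],[(k10,k4),(k1,k5)]]
    [] k0
    []
    []]⟩

/-- classes `0 0 1 1 2 3`, types `C0 C2 S0 S0 C0 C0` -/
noncomputable def cT6_1247 : CertT :=
  ⟨[k4,k6,k16,k16,k36,k52],[],[[[]]],
    [.lp [k12,k12,k18,k16,k12,k12] [k3,k3,k3,k3,k0,k0,k1,k1,k3,k3,k3,k3] k0 [] k48 k5
    [[(k10,k12)],[(k2,k12),(k3,k12)],[(k0,k12),(k5,k15)],[(k0,k12),(k5,k15)],[(k2,k15),(k3,k15)],[(k9,k15),(k6,k17),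
    (k7,k17),(k4,k18)],[(k9,k14),(k6,k16),(k7,k16),(k4,k17)],[(k9,k14),(k6,k16),(k7,k16),(k4,k17)],[(k9,k12),(k6,k14),
    (k7,k14),(k4,k15)],[(k11,k12)],[(k8,k12)],[(k1,k12)]]
    [] k0
    []
    []]⟩

/-- classes `0 0 1 1 2 3`, types `C0 C2 S0 S0 C0 S0` -/
noncomputable def cT6_1248 : CertT :=
  ⟨[k4,k6,k16,k16,k36,k48],[],[[[]]],
    [.lp [k6,k12,k6,k8,k6,k6] [k3,k3,k0,k0,k3,k3,k2,k2,k3,k3,k3,k3] k0 [] k24 k5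
    [[(k1,k6),(k10,k6)],[(k2,k9),(k3,k9)],[(k0,k9),(k5,k9)],[(k0,k9),(k5,k9)],[(k2,k9),(k3,k9)],[(k4,k6),(k9,k6),(k6,
    k7),(k7,k7)],[(k4,k7),(k9,k7),(k6,k8),(k7,k8)],[(k4,k7),(k9,k7),(k6,k8),(k7,k8)],[(k4,k6),(k9,k6),(k6,k7),(k7,
    k7)],[(k11,k6)],[(k8,k6)],[(k1,k6),(k10,k6)]]
    [] k0
    []
    []]⟩

/-- classes `0 0 1 1 2 3`, types `C0 C2 S0 S0 S0 C0` -/
noncomputable def cT6_1249 : CertT :=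
  ⟨[k4,k6,k16,k16,k32,k52],[],[[[]]],
    [.lp [k12,k12,k18,k16,k14,k12] [k3,k3,k3,k3,k0,k0,k1,k1,k2,k2,k3,k3] k0 [[],[],[],[],[k0,k0,k0,k0,k0,k0,k0,k4],[],[k0,
    k0,k0,k0,k0,k4]] k48 k5
    [[(k10,k12)],[(k2,k12),(k3,k12)],[(k0,k12),(k5,k15)],[(k0,k12),(k5,k15)],[(k2,k15),(k3,k15)],[(k6,k13),(k9,k16),
    (k7,k17),(k4,k18)],[(k6,k16),(k7,k16),(k4,k17),(k9,k19)],[(k4,k13),(k9,k15),(k6,k16),(k7,k16)],[(k9,k14),(k6,k15),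
    (k4,k16),(k7,k19)],[(k11,k13),(k8,k14)],[(k11,k12),(k8,k13)],[(k1,k12)]]
    [] k0
    []
    []]⟩

/-- classes `0 0 1 1 2 3`, types `C0 C2 S0 S0 S0 S0` -/
noncomputable def cT6_1250 : CertT :=
  ⟨[k4,k6,k16,k16,k32,k48],[],[[[]]],
    [.lp [k12,k0,k12,k8,k6,k6] [k0,k0,k6,k6,k0,k0,k2,k2,k3,k3,k3,k3] k0 [[],[],[],[],[k0,k0,k0,k0,k0,k0,k0,k4],[],[k0,k0,
    k0,k0,k0,k4]] k24 k5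
    [[(k10,k9),(k1,k12)],[(k2,k6),(k3,k6)],[(k0,k6),(k5,k6)],[(k0,k6),(k5,k6)],[(k2,k6),(k3,k6)],[(k6,k6),(k9,k9),(k7,
    k10),(k4,k12)],[(k6,k8),(k7,k8),(k4,k10),(k9,k11)],[(k4,k6),(k9,k7),(k6,k8),(k7,k8)],[(k9,k6),(k6,k7),(k4,k9),(k7,
    k11)],[(k8,k6),(k11,k6)],[(k8,k6),(k11,k6)],[(k10,k6),(k1,k9)]]
    [] k0
    []
    []]⟩

/-- classes `0 0 1 1 2 3`, types `N0 N1 N0 N1 C0 C0` -/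
noncomputable def cT6_1251 : CertT :=
  ⟨[k12,k13,k28,k29,k36,k52],[],[[[]]],
    [.lp [k6,k4,k0,k4,k6,k0] [k0,k0,k1,k1,k3,k3,k1,k1,k0,k0,k3,k3] k0 [] k12 k5
    [[(k10,k3)],[(k5,k3)],[(k2,k4)],[(k3,k4)],[(k0,k3)],[(k9,k3)],[(k6,k4)],[(k7,k4)],[(k4,k3)],[(k11,k3)],[(k8,k3)],
    [(k1,k3)]]
    [] k0
    []
    []]⟩

/-- classes `0 0 1 1 2 3`, types `N0 N1 N0 N1 C0 S0` -/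
noncomputable def cT6_1252 : CertT :=
  ⟨[k12,k13,k28,k29,k36,k48],[],[[[]]],
    [.lp [k6,k8,k6,k8,k6,k6] [k1,k1,k0,k0,k1,k1,k0,k0,k1,k1,k1,k1] k0 [] k24 k5
    [[(k1,k6),(k10,k6)],[(k5,k6)],[(k2,k8)],[(k3,k8)],[(k0,k6)],[(k9,k6)],[(k6,k8)],[(k7,k8)],[(k4,k6)],[(k11,k6)],
    [(k8,k6)],[(k1,k6),(k10,k6)]]
    [] k0
    []
    []]⟩

/-- classes `0 0 1 1 2 3`, types `N0 N1 N0 N1 S0 S0` -/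
noncomputable def cT6_1253 : CertT :=
  ⟨[k12,k13,k28,k29,k32,k48],[],[[[]]],
    [.lp [k6,k8,k6,k8,k6,k6] [k1,k1,k0,k0,k1,k1,k0,k0,k1,k1,k1,k1] k0 [] k24 k5
    [[(k1,k6),(k10,k6)],[(k5,k6)],[(k2,k8)],[(k3,k8)],[(k0,k6)],[(k9,k6)],[(k6,k8)],[(k7,k8)],[(k4,k6)],[(k8,k6),(k11,
    k6)],[(k8,k6),(k11,k6)],[(k1,k6),(k10,k6)]]
    [] k0
    []
    []]⟩

/-- classes `0 0 1 1 2 3`, types `N0 N1 N0 N2 C0 C0` -/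
noncomputable def cT6_1254 : CertT :=
  ⟨[k12,k13,k28,k30,k36,k52],[],[[[]]],
    [.lp [k6,k8,k6,k6,k6,k6] [k1,k1,k0,k0,k1,k1,k1,k1,k1,k1,k1,k1] k0 [] k24 k5
    [[(k10,k6)],[(k5,k6)],[(k2,k8)],[(k3,k8)],[(k0,k6)],[(k6,k6)],[(k9,k6)],[(k4,k6)],[(k7,k6)],[(k11,k6)],[(k8,k6)],
    [(k1,k6)]]
    [] k0
    []
    []]⟩

/-- classes `0 0 1 1 2 3`, types `N0 N1 N0 N2 C0 S0` -/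
noncomputable def cT6_1255 : CertT :=
  ⟨[k12,k13,k28,k30,k36,k48],[],[[[]]],
    [.lp [k6,k8,k6,k6,k6,k6] [k1,k1,k0,k0,k1,k1,k1,k1,k1,k1,k1,k1] k0 [] k24 k5
    [[(k1,k6),(k10,k6)],[(k5,k6)],[(k2,k8)],[(k3,k8)],[(k0,k6)],[(k6,k6)],[(k9,k6)],[(k4,k6)],[(k7,k6)],[(k11,k6)],
    [(k8,k6)],[(k1,k6),(k10,k6)]]
    [] k0
    []
    []]⟩

/-- classes `0 0 1 1 2 3`, types `N0 N1 N0 N2 S0 C0` -/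
noncomputable def cT6_1256 : CertT :=
  ⟨[k12,k13,k28,k30,k32,k52],[],[[[]]],
    [.lp [k6,k8,k6,k6,k6,k6] [k1,k1,k0,k0,k1,k1,k1,k1,k1,k1,k1,k1] k0 [] k24 k5
    [[(k10,k6)],[(k5,k6)],[(k2,k8)],[(k3,k8)],[(k0,k6)],[(k6,k6)],[(k9,k6)],[(k4,k6)],[(k7,k6)],[(k8,k6),(k11,k6)],
    [(k8,k6),(k11,k6)],[(k1,k6)]]
    [] k0
    []
    []]⟩

/-- classes `0 0 1 1 2 3`, types `N0 N1 N0 N2 S0 S0` -/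
noncomputable def cT6_1257 : CertT :=
  ⟨[k12,k13,k28,k30,k32,k48],[],[[[]]],
    [.lp [k6,k8,k6,k6,k6,k6] [k1,k1,k0,k0,k1,k1,k1,k1,k1,k1,k1,k1] k0 [] k24 k5
    [[(k1,k6),(k10,k6)],[(k5,k6)],[(k2,k8)],[(k3,k8)],[(k0,k6)],[(k6,k6)],[(k9,k6)],[(k4,k6)],[(k7,k6)],[(k8,k6),(k11,
    k6)],[(k8,k6),(k11,k6)],[(k1,k6),(k10,k6)]]
    [] k0
    []
    []]⟩

/-- classes `0 0 1 1 2 3`, types `N0 N1 S0 S0 C0 C0` -/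
noncomputable def cT6_1258 : CertT :=
  ⟨[k12,k13,k16,k16,k36,k52],[],[[[]]],
    [.lp [k6,k8,k6,k8,k6,k6] [k1,k1,k0,k0,k1,k1,k0,k0,k1,k1,k1,k1] k0 [] k24 k5
    [[(k10,k6)],[(k5,k6)],[(k2,k8)],[(k3,k8)],[(k0,k6)],[(k4,k6),(k9,k6),(k6,k7),(k7,k7)],[(k4,k7),(k9,k7),(k6,k8),
    (k7,k8)],[(k4,k7),(k9,k7),(k6,k8),(k7,k8)],[(k4,k6),(k9,k6),(k6,k7),(k7,k7)],[(k11,k6)],[(k8,k6)],[(k1,k6)]]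
    [] k0
    []
    []]⟩

/-- classes `0 0 1 1 2 3`, types `N0 N1 S0 S0 C0 S0` -/
noncomputable def cT6_1259 : CertT :=
  ⟨[k12,k13,k16,k16,k36,k48],[],[[[]]],
    [.lp [k6,k8,k6,k8,k6,k6] [k1,k1,k0,k0,k1,k1,k0,k0,k1,k1,k1,k1] k0 [] k24 k5
    [[(k1,k6),(k10,k6)],[(k5,k6)],[(k2,k8)],[(k3,k8)],[(k0,k6)],[(k4,k6),(k9,k6),(k6,k7),(k7,k7)],[(k4,k7),(k9,k7),
    (k6,k8),(k7,k8)],[(k4,k7),(k9,k7),(k6,k8),(k7,k8)],[(k4,k6),(k9,k6),(k6,k7),(k7,k7)],[(k11,k6)],[(k8,k6)],[(k1,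
    k6),(k10,k6)]]
    [] k0
    []
    []]⟩

/-- classes `0 0 1 1 2 3`, types `N0 N1 S0 S0 S0 C0` -/
noncomputable def cT6_1260 : CertT :=
  ⟨[k12,k13,k16,k16,k32,k52],[],[[[]]],
    [.lp [k6,k8,k6,k8,k8,k6] [k1,k1,k0,k0,k1,k1,k0,k0,k0,k0,k1,k1] k0 [] k24 k5
    [[(k10,k6)],[(k5,k6)],[(k2,k8)],[(k3,k8)],[(k0,k6)],[(k4,k6),(k6,k7),(k7,k7),(k9,k7)],[(k4,k7),(k6,k8),(k7,k8),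
    (k9,k8)],[(k4,k7),(k6,k8),(k7,k8),(k9,k8)],[(k4,k7),(k6,k8),(k7,k8),(k9,k8)],[(k11,k7),(k8,k8)],[(k11,k6),(k8,
    k7)],[(k1,k6)]]
    [] k0
    []
    []]⟩

/-- classes `0 0 1 1 2 3`, types `N0 N1 S0 S0 S0 S0` -/
noncomputable def cT6_1261 : CertT :=
  ⟨[k12,k13,k16,k16,k32,k48],[],[[[]]],
    [.lp [k6,k8,k6,k8,k8,k6] [k1,k1,k0,k0,k1,k1,k0,k0,k0,k0,k1,k1] k0 [] k24 k5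
    [[(k1,k6),(k10,k6)],[(k5,k6)],[(k2,k8)],[(k3,k8)],[(k0,k6)],[(k4,k6),(k6,k7),(k7,k7),(k9,k7)],[(k4,k7),(k6,k8),
    (k7,k8),(k9,k8)],[(k4,k7),(k6,k8),(k7,k8),(k9,k8)],[(k4,k7),(k6,k8),(k7,k8),(k9,k8)],[(k11,k7),(k8,k8)],[(k11,k6),
    (k8,k7)],[(k1,k6),(k10,k6)]]
    [] k0
    []
    []]⟩

/-- classes `0 0 1 1 2 3`, types `N0 N2 N0 N2 C0 C0` -/
noncomputable def cT6_1262 : CertT :=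
  ⟨[k12,k14,k28,k30,k36,k52],[],[[[]]],
    [.lp [k0,k2,k0,k2,k0,k2] [k1,k1,k0,k0,k1,k1,k0,k0,k1,k1,k0,k0] k0 [] k4 k5
    [[(k10,k1)],[(k2,k1)],[(k5,k1)],[(k0,k1)],[(k3,k1)],[(k6,k1)],[(k9,k1)],[(k4,k1)],[(k7,k1)],[(k11,k1)],[(k8,k1)],
    [(k1,k1)]]
    [] k0
    []
    []]⟩

/-- classes `0 0 1 1 2 3`, types `N0 N2 N0 N2 C0 S0` -/
noncomputable def cT6_1263 : CertT :=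
  ⟨[k12,k14,k28,k30,k36,k48],[],[[[]]],
    [.lp [k2,k2,k2,k2,k2,k2] [k0,k0,k0,k0,k0,k0,k0,k0,k0,k0,k0,k0] k0 [] k8 k5
    [[(k1,k2),(k10,k2)],[(k2,k2)],[(k5,k2)],[(k0,k2)],[(k3,k2)],[(k6,k2)],[(k9,k2)],[(k4,k2)],[(k7,k2)],[(k11,k2)],
    [(k8,k2)],[(k1,k2),(k10,k2)]]
    [] k0
    []
    []]⟩

/-- classes `0 0 1 1 2 3`, types `N0 N2 N0 N2 S0 S0` -/
noncomputable def cT6_1264 : CertT :=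
  ⟨[k12,k14,k28,k30,k32,k48],[],[[[]]],
    [.lp [k2,k2,k2,k2,k2,k2] [k0,k0,k0,k0,k0,k0,k0,k0,k0,k0,k0,k0] k0 [] k8 k5
    [[(k1,k2),(k10,k2)],[(k2,k2)],[(k5,k2)],[(k0,k2)],[(k3,k2)],[(k6,k2)],[(k9,k2)],[(k4,k2)],[(k7,k2)],[(k8,k2),(k11,
    k2)],[(k8,k2),(k11,k2)],[(k1,k2),(k10,k2)]]
    [] k0
    []
    []]⟩

/-- classes `0 0 1 1 2 3`, types `N0 N2 S0 S0 C0 C0` -/
noncomputable def cT6_1265 : CertT :=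
  ⟨[k12,k14,k16,k16,k36,k52],[],[[[]]],
    [.lp [k6,k6,k6,k8,k6,k6] [k1,k1,k1,k1,k1,k1,k0,k0,k1,k1,k1,k1] k0 [] k24 k5
    [[(k10,k6)],[(k2,k6)],[(k5,k6)],[(k0,k6)],[(k3,k6)],[(k4,k6),(k9,k6),(k6,k7),(k7,k7)],[(k4,k7),(k9,k7),(k6,k8),
    (k7,k8)],[(k4,k7),(k9,k7),(k6,k8),(k7,k8)],[(k4,k6),(k9,k6),(k6,k7),(k7,k7)],[(k11,k6)],[(k8,k6)],[(k1,k6)]]
    [] k0
    []
    []]⟩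

/-- classes `0 0 1 1 2 3`, types `N0 N2 S0 S0 C0 S0` -/
noncomputable def cT6_1266 : CertT :=
  ⟨[k12,k14,k16,k16,k36,k48],[],[[[]]],
    [.lp [k6,k6,k6,k8,k6,k6] [k1,k1,k1,k1,k1,k1,k0,k0,k1,k1,k1,k1] k0 [] k24 k5
    [[(k1,k6),(k10,k6)],[(k2,k6)],[(k5,k6)],[(k0,k6)],[(k3,k6)],[(k4,k6),(k9,k6),(k6,k7),(k7,k7)],[(k4,k7),(k9,k7),
    (k6,k8),(k7,k8)],[(k4,k7),(k9,k7),(k6,k8),(k7,k8)],[(k4,k6),(k9,k6),(k6,k7),(k7,k7)],[(k11,k6)],[(k8,k6)],[(k1,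
    k6),(k10,k6)]]
    [] k0
    []
    []]⟩

/-- classes `0 0 1 1 2 3`, types `N0 N2 S0 S0 S0 C0` -/
noncomputable def cT6_1267 : CertT :=
  ⟨[k12,k14,k16,k16,k32,k52],[],[[[]]],
    [.lp [k6,k6,k6,k8,k8,k6] [k1,k1,k1,k1,k1,k1,k0,k0,k0,k0,k1,k1] k0 [] k24 k5
    [[(k10,k6)],[(k2,k6)],[(k5,k6)],[(k0,k6)],[(k3,k6)],[(k4,k6),(k6,k7),(k7,k7),(k9,k7)],[(k4,k7),(k6,k8),(k7,k8),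
    (k9,k8)],[(k4,k7),(k6,k8),(k7,k8),(k9,k8)],[(k4,k7),(k6,k8),(k7,k8),(k9,k8)],[(k11,k7),(k8,k8)],[(k11,k6),(k8,
    k7)],[(k1,k6)]]
    [] k0
    []
    []]⟩

/-- classes `0 0 1 1 2 3`, types `N0 N2 S0 S0 S0 S0` -/
noncomputable def cT6_1268 : CertT :=
  ⟨[k12,k14,k16,k16,k32,k48],[],[[[]]],
    [.lp [k6,k6,k6,k8,k8,k6] [k1,k1,k1,k1,k1,k1,k0,k0,k0,k0,k1,k1] k0 [] k24 k5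
    [[(k1,k6),(k10,k6)],[(k2,k6)],[(k5,k6)],[(k0,k6)],[(k3,k6)],[(k4,k6),(k6,k7),(k7,k7),(k9,k7)],[(k4,k7),(k6,k8),
    (k7,k8),(k9,k8)],[(k4,k7),(k6,k8),(k7,k8),(k9,k8)],[(k4,k7),(k6,k8),(k7,k8),(k9,k8)],[(k11,k7),(k8,k8)],[(k11,k6),
    (k8,k7)],[(k1,k6),(k10,k6)]]
    [] k0
    []
    []]⟩

/-- classes `0 0 1 1 2 3`, types `S0 S0 S0 S0 C0 C0` -/
noncomputable def cT6_1269 : CertT :=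
  ⟨[k0,k0,k16,k16,k36,k52],[],[[[]]],
    [.lp [k6,k8,k8,k8,k6,k6] [k1,k1,k0,k0,k0,k0,k0,k0,k1,k1,k1,k1] k0 [] k24 k5
    [[(k10,k6)],[(k0,k6),(k2,k7),(k3,k7),(k5,k7)],[(k0,k7),(k2,k8),(k3,k8),(k5,k8)],[(k0,k7),(k2,k8),(k3,k8),(k5,k8)],
    [(k0,k7),(k2,k8),(k3,k8),(k5,k8)],[(k9,k7),(k4,k8),(k6,k8),(k7,k8)],[(k9,k7),(k4,k8),(k6,k8),(k7,k8)],[(k9,k7),
    (k4,k8),(k6,k8),(k7,k8)],[(k9,k6),(k4,k7),(k6,k7),(k7,k7)],[(k11,k6)],[(k8,k6)],[(k1,k6)]]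
    [] k0
    []
    []]⟩

/-- classes `0 0 1 1 2 3`, types `S0 S0 S0 S0 C0 S0` -/
noncomputable def cT6_1270 : CertT :=
  ⟨[k0,k0,k16,k16,k36,k48],[],[[[]]],
    [.lp [k8,k8,k8,k8,k6,k6] [k0,k0,k0,k0,k0,k0,k0,k0,k1,k1,k1,k1] k0 [] k24 k5
    [[(k10,k7),(k1,k8)],[(k0,k8),(k2,k8),(k3,k8),(k5,k8)],[(k0,k8),(k2,k8),(k3,k8),(k5,k8)],[(k0,k8),(k2,k8),(k3,k8),
    (k5,k8)],[(k0,k8),(k2,k8),(k3,k8),(k5,k8)],[(k9,k7),(k4,k8),(k6,k8),(k7,k8)],[(k9,k7),(k4,k8),(k6,k8),(k7,k8)],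
    [(k9,k7),(k4,k8),(k6,k8),(k7,k8)],[(k9,k6),(k4,k7),(k6,k7),(k7,k7)],[(k11,k6)],[(k8,k6)],[(k10,k6),(k1,k7)]]
    [] k0
    []
    []]⟩

/-- classes `0 0 1 2 1 2`, types `B0 B1 B0 B0 B1 B1` -/
noncomputable def cT6_1271 : CertT :=
  ⟨[k8,k9,k24,k40,k25,k41],[],[[[]]],
    [.lp [k10,k8,k4,k2,k10,k10] [k0,k0,k1,k1,k3,k3,k4,k4,k0,k0,k0,k0] k0 [] k24 k5
    [[(k6,k6),(k9,k10)],[(k5,k7),(k2,k9)],[(k5,k6),(k2,k8)],[(k3,k8),(k0,k9)],[(k3,k6),(k0,k7)],[(k8,k7),(k11,k7)],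
    [(k8,k6),(k11,k6)],[(k1,k6),(k10,k6)],[(k1,k10),(k10,k10)],[(k7,k6),(k4,k7)],[(k7,k6),(k4,k7)],[(k6,k6),(k9,k10)]]
    [] k0
    []
    []]⟩

/-- classes `0 0 1 2 1 2`, types `B0 B1 B0 C0 B1 C0` -/
noncomputable def cT6_1272 : CertT :=
  ⟨[k8,k9,k24,k36,k25,k36],[],[[[]]],
    [.lp [k4,k8,k10,k10,k2,k10] [k3,k3,k1,k1,k0,k0,k0,k0,k4,k4,k0,k0] k0 [] k24 k5
    [[(k6,k7),(k10,k7)],[(k2,k6),(k5,k7)],[(k2,k8),(k5,k9)],[(k0,k6),(k3,k8)],[(k0,k7),(k3,k9)],[(k8,k6),(k11,k10)],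
    [(k8,k6),(k11,k10)],[(k9,k6),(k1,k7)],[(k6,k6),(k10,k6)],[(k4,k6),(k7,k6)],[(k4,k10),(k7,k10)],[(k9,k6),(k1,k7)]]
    [] k0
    []
    []]⟩

/-- classes `0 0 1 2 1 2`, types `B0 B1 B0 C0 B1 C2` -/
noncomputable def cT6_1273 : CertT :=
  ⟨[k8,k9,k24,k36,k25,k38],[],[[[]]],
    [.lp [k6,k4,k6,k6,k0,k0] [k0,k0,k1,k1,k0,k0,k0,k0,k3,k3,k3,k3] k0 [] k12 k5
    [[(k9,k3),(k10,k3)],[(k2,k5),(k5,k6)],[(k2,k4),(k5,k5)],[(k3,k4),(k0,k5)],[(k3,k5),(k0,k6)],[(k8,k3),(k11,k3)],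
    [(k8,k3),(k11,k3)],[(k9,k3),(k10,k3)],[(k1,k3),(k6,k3)],[(k4,k3),(k7,k3)],[(k4,k3),(k7,k3)],[(k1,k3),(k6,k3)]]
    [] k0
    []
    []]⟩

/-- classes `0 0 1 2 1 2`, types `B0 B1 B0 N0 B1 N1` -/
noncomputable def cT6_1274 : CertT :=
  ⟨[k8,k9,k24,k44,k25,k45],[],[[[]]],
    [.lp [k6,k8,k6,k6,k6,k6] [k1,k1,k0,k0,k1,k1,k1,k1,k1,k1,k1,k1] k0 [] k24 k5
    [[(k6,k6)],[(k5,k6),(k2,k7)],[(k5,k7),(k2,k8)],[(k0,k7),(k3,k8)],[(k0,k6),(k3,k7)],[(k8,k6),(k11,k6)],[(k8,k6),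
    (k11,k6)],[(k1,k6)],[(k10,k6)],[(k4,k6),(k7,k6)],[(k4,k6),(k7,k6)],[(k9,k6)]]
    [] k0
    []
    []]⟩

/-- classes `0 0 1 2 1 2`, types `B0 B1 B0 N0 B1 N2` -/
noncomputable def cT6_1275 : CertT :=
  ⟨[k8,k9,k24,k44,k25,k46],[],[[[]]],
    [.lp [k6,k4,k6,k6,k0,k0] [k0,k0,k1,k1,k0,k0,k0,k0,k3,k3,k3,k3] k0 [] k12 k5
    [[(k9,k3)],[(k2,k5),(k5,k6)],[(k2,k4),(k5,k5)],[(k3,k4),(k0,k5)],[(k3,k5),(k0,k6)],[(k8,k3),(k11,k3)],[(k8,k3),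
    (k11,k3)],[(k10,k3)],[(k1,k3)],[(k4,k3),(k7,k3)],[(k4,k3),(k7,k3)],[(k6,k3)]]
    [] k0
    []
    []]⟩

/-- classes `0 0 1 2 1 2`, types `B0 B1 B0 S0 B1 S0` -/
noncomputable def cT6_1276 : CertT :=
  ⟨[k8,k9,k24,k32,k25,k32],[],[[[]]],
    [.lp [k12,k8,k6,k6,k6,k6] [k0,k0,k2,k2,k3,k3,k3,k3,k3,k3,k3,k3] k0 [] k24 k5
    [[(k6,k9),(k9,k9),(k10,k9),(k1,k12)],[(k5,k9),(k2,k10)],[(k5,k7),(k2,k8)],[(k3,k8),(k0,k10)],[(k3,k7),(k0,k9)],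
    [(k8,k6),(k11,k6)],[(k8,k6),(k11,k6)],[(k6,k6),(k9,k6),(k10,k6),(k1,k9)],[(k6,k6),(k9,k6),(k10,k6),(k1,k9)],[(k4,
    k6),(k7,k6)],[(k4,k6),(k7,k6)],[(k6,k6),(k9,k6),(k10,k6),(k1,k9)]]
    [] k0
    []
    []]⟩

/-- classes `0 0 1 2 1 2`, types `B0 B1 C0 C0 C0 C0` -/
noncomputable def cT6_1277 : CertT :=
  ⟨[k8,k9,k20,k36,k20,k36],[],[[[]]],
    [.lp [k2,k4,k4,k6,k0,k6] [k2,k2,k1,k1,k1,k1,k0,k0,k3,k3,k0,k0] k0 [] k12 k5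
    [[(k6,k4),(k10,k4)],[(k2,k3),(k5,k3)],[(k2,k4),(k5,k4)],[(k0,k3),(k3,k4)],[(k0,k3),(k3,k4)],[(k7,k5),(k11,k5)],
    [(k8,k3),(k4,k5)],[(k9,k3),(k1,k4)],[(k6,k3),(k10,k3)],[(k7,k3),(k11,k3)],[(k8,k3),(k4,k5)],[(k9,k3),(k1,k4)]]
    [] k0
    []
    []]⟩

/-- classes `0 0 1 2 1 2`, types `B0 B1 C0 C0 C0 C2` -/
noncomputable def cT6_1278 : CertT :=
  ⟨[k8,k9,k20,k36,k20,k38],[],[[[]]],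
    [.lp [k6,k8,k12,k6,k6,k6] [k3,k3,k2,k2,k0,k0,k3,k3,k3,k3,k3,k3] k0 [] k24 k5
    [[(k9,k6),(k10,k6)],[(k2,k7),(k5,k9)],[(k2,k8),(k5,k10)],[(k0,k7),(k3,k8)],[(k0,k9),(k3,k10)],[(k7,k9),(k11,k9)],
    [(k8,k6),(k4,k9)],[(k9,k6),(k10,k6)],[(k1,k6),(k6,k6)],[(k7,k6),(k11,k6)],[(k8,k6),(k4,k9)],[(k1,k6),(k6,k6)]]
    [] k0
    []
    []]⟩

/-- classes `0 0 1 2 1 2`, types `B0 B1 C0 C0 C2 C2` -/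
noncomputable def cT6_1279 : CertT :=
  ⟨[k8,k9,k20,k36,k22,k38],[],[[[]]],
    [.lp [k10,k8,k4,k10,k10,k2] [k0,k0,k1,k1,k3,k3,k0,k0,k0,k0,k4,k4] k0 [] k24 k5
    [[(k10,k6),(k9,k10)],[(k5,k7),(k2,k9)],[(k5,k6),(k2,k8)],[(k3,k8),(k0,k9)],[(k3,k6),(k0,k7)],[(k7,k7),(k8,k7)],
    [(k11,k6),(k4,k7)],[(k10,k6),(k9,k10)],[(k1,k10),(k6,k10)],[(k11,k6),(k4,k7)],[(k7,k6),(k8,k6)],[(k1,k6),(k6,k6)]]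
    [] k0
    []
    []]⟩

/-- classes `0 0 1 2 1 2`, types `B0 B1 C0 N0 C0 N1` -/
noncomputable def cT6_1280 : CertT :=
  ⟨[k8,k9,k20,k44,k20,k45],[],[[[]]],
    [.lp [k2,k4,k4,k6,k4,k2] [k2,k2,k1,k1,k1,k1,k0,k0,k1,k1,k2,k2] k0 [] k12 k5
    [[(k6,k4)],[(k2,k3),(k5,k3)],[(k2,k4),(k5,k4)],[(k0,k3),(k3,k4)],[(k0,k3),(k3,k4)],[(k11,k3),(k7,k5)],[(k4,k5),
    (k8,k5)],[(k1,k4)],[(k10,k3)],[(k11,k3),(k7,k5)],[(k4,k3),(k8,k3)],[(k9,k3)]]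
    [] k0
    []
    []]⟩

/-- classes `0 0 1 2 1 2`, types `B0 B1 C0 N0 C0 N2` -/
noncomputable def cT6_1281 : CertT :=
  ⟨[k8,k9,k20,k44,k20,k46],[],[[[]]],
    [.lp [k6,k8,k6,k6,k6,k6] [k1,k1,k0,k0,k1,k1,k1,k1,k1,k1,k1,k1] k0 [] k24 k5
    [[(k9,k6)],[(k5,k6),(k2,k7)],[(k5,k7),(k2,k8)],[(k0,k7),(k3,k8)],[(k0,k6),(k3,k7)],[(k7,k6),(k11,k6)],[(k4,k6),
    (k8,k6)],[(k10,k6)],[(k1,k6)],[(k7,k6),(k11,k6)],[(k4,k6),(k8,k6)],[(k6,k6)]]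
    [] k0
    []
    []]⟩

/-- classes `0 0 1 2 1 2`, types `B0 B1 C0 N0 C2 N1` -/
noncomputable def cT6_1282 : CertT :=
  ⟨[k8,k9,k20,k44,k22,k45],[],[[[]]],
    [.lp [k2,k4,k4,k6,k6,k0] [k2,k2,k1,k1,k1,k1,k0,k0,k0,k0,k3,k3] k0 [] k12 k5
    [[(k6,k4)],[(k2,k3),(k5,k3)],[(k2,k4),(k5,k4)],[(k0,k3),(k3,k4)],[(k0,k3),(k3,k4)],[(k7,k5),(k8,k5)],[(k11,k3),
    (k4,k5)],[(k1,k4)],[(k10,k3)],[(k11,k3),(k4,k5)],[(k7,k3),(k8,k3)],[(k9,k3)]]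
    [] k0
    []
    []]⟩

/-- classes `0 0 1 2 1 2`, types `B0 B1 C0 N0 C2 N2` -/
noncomputable def cT6_1283 : CertT :=
  ⟨[k8,k9,k20,k44,k22,k46],[],[[[]]],
    [.lp [k2,k4,k4,k6,k6,k0] [k2,k2,k1,k1,k1,k1,k0,k0,k0,k0,k3,k3] k0 [] k12 k5
    [[(k9,k4)],[(k2,k3),(k5,k3)],[(k2,k4),(k5,k4)],[(k0,k3),(k3,k4)],[(k0,k3),(k3,k4)],[(k7,k5),(k8,k5)],[(k11,k3),
    (k4,k5)],[(k10,k3)],[(k1,k4)],[(k11,k3),(k4,k5)],[(k7,k3),(k8,k3)],[(k6,k3)]]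
    [] k0
    []
    []]⟩

/-- classes `0 0 1 2 1 2`, types `B0 B1 C0 S0 C0 S0` -/
noncomputable def cT6_1284 : CertT :=
  ⟨[k8,k9,k20,k32,k20,k32],[],[[[]]],
    [.lp [k12,k8,k6,k6,k6,k6] [k0,k0,k2,k2,k3,k3,k3,k3,k3,k3,k3,k3] k0 [] k24 k5
    [[(k6,k9),(k9,k9),(k10,k9),(k1,k12)],[(k5,k9),(k2,k10)],[(k5,k7),(k2,k8)],[(k3,k8),(k0,k10)],[(k3,k7),(k0,k9)],
    [(k7,k6),(k11,k6)],[(k4,k6),(k8,k6)],[(k6,k6),(k9,k6),(k10,k6),(k1,k9)],[(k6,k6),(k9,k6),(k10,k6),(k1,k9)],[(k7,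
    k6),(k11,k6)],[(k4,k6),(k8,k6)],[(k6,k6),(k9,k6),(k10,k6),(k1,k9)]]
    [] k0
    []
    []]⟩

/-- classes `0 0 1 2 1 2`, types `B0 B1 C0 S0 C2 S0` -/
noncomputable def cT6_1285 : CertT :=
  ⟨[k8,k9,k20,k32,k22,k32],[],[[[]]],
    [.lp [k12,k8,k6,k6,k6,k6] [k0,k0,k2,k2,k3,k3,k3,k3,k3,k3,k3,k3] k0 [] k24 k5
    [[(k6,k9),(k9,k9),(k10,k9),(k1,k12)],[(k5,k9),(k2,k10)],[(k5,k7),(k2,k8)],[(k3,k8),(k0,k10)],[(k3,k7),(k0,k9)],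
    [(k7,k6),(k8,k6)],[(k4,k6),(k11,k6)],[(k6,k6),(k9,k6),(k10,k6),(k1,k9)],[(k6,k6),(k9,k6),(k10,k6),(k1,k9)],[(k4,
    k6),(k11,k6)],[(k7,k6),(k8,k6)],[(k6,k6),(k9,k6),(k10,k6),(k1,k9)]]
    [] k0
    []
    []]⟩

/-- classes `0 0 1 2 1 2`, types `B0 B1 N0 N0 N1 N1` -/
noncomputable def cT6_1286 : CertT :=
  ⟨[k8,k9,k28,k44,k29,k45],[],[[[]]],
    [.lp [k6,k8,k6,k6,k6,k6] [k1,k1,k0,k0,k1,k1,k1,k1,k1,k1,k1,k1] k0 [] k24 k5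
    [[(k6,k6)],[(k5,k6),(k2,k7)],[(k5,k7),(k2,k8)],[(k0,k7),(k3,k8)],[(k0,k6),(k3,k7)],[(k11,k6)],[(k8,k6)],[(k1,k6)],
    [(k10,k6)],[(k7,k6)],[(k4,k6)],[(k9,k6)]]
    [] k0
    []
    []]⟩

/-- classes `0 0 1 2 1 2`, types `B0 B1 N0 N0 N1 N2` -/
noncomputable def cT6_1287 : CertT :=
  ⟨[k8,k9,k28,k44,k29,k46],[],[[[]]],
    [.lp [k6,k8,k6,k6,k6,k6] [k1,k1,k0,k0,k1,k1,k1,k1,k1,k1,k1,k1] k0 [] k24 k5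
    [[(k9,k6)],[(k5,k6),(k2,k7)],[(k5,k7),(k2,k8)],[(k0,k7),(k3,k8)],[(k0,k6),(k3,k7)],[(k11,k6)],[(k8,k6)],[(k10,
    k6)],[(k1,k6)],[(k7,k6)],[(k4,k6)],[(k6,k6)]]
    [] k0
    []
    []]⟩

/-- classes `0 0 1 2 1 2`, types `B0 B1 N0 N0 N2 N2` -/
noncomputable def cT6_1288 : CertT :=
  ⟨[k8,k9,k28,k44,k30,k46],[],[[[]]],
    [.lp [k2,k4,k6,k6,k4,k0] [k2,k2,k1,k1,k0,k0,k0,k0,k1,k1,k3,k3] k0 [] k12 k5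
    [[(k9,k3)],[(k2,k3),(k5,k4)],[(k2,k4),(k5,k5)],[(k0,k3),(k3,k4)],[(k0,k4),(k3,k5)],[(k8,k5)],[(k11,k3)],[(k10,
    k3)],[(k1,k3)],[(k4,k5)],[(k7,k3)],[(k6,k3)]]
    [] k0
    []
    []]⟩

/-- classes `0 0 1 2 1 2`, types `B0 B1 N0 S0 N1 S0` -/
noncomputable def cT6_1289 : CertT :=
  ⟨[k8,k9,k28,k32,k29,k32],[],[[[]]],
    [.lp [k12,k8,k4,k6,k6,k8] [k0,k0,k2,k2,k4,k4,k3,k3,k3,k3,k2,k2] k0 [] k24 k5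
    [[(k6,k9),(k9,k9),(k10,k10),(k1,k12)],[(k5,k8),(k2,k10)],[(k5,k6),(k2,k8)],[(k3,k8),(k0,k10)],[(k3,k6),(k0,k8)],
    [(k11,k6)],[(k8,k6)],[(k6,k6),(k9,k6),(k10,k7),(k1,k9)],[(k6,k6),(k9,k6),(k10,k7),(k1,k9)],[(k7,k6)],[(k4,k6)],
    [(k6,k7),(k9,k7),(k10,k8),(k1,k10)]]
    [] k0
    []
    []]⟩

/-- classes `0 0 1 2 1 2`, types `B0 B1 N0 S0 N2 S0` -/
noncomputable def cT6_1290 : CertT :=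
  ⟨[k8,k9,k28,k32,k30,k32],[],[[[]]],
    [.lp [k12,k8,k4,k6,k8,k6] [k0,k0,k2,k2,k4,k4,k3,k3,k2,k2,k3,k3] k0 [] k24 k5
    [[(k6,k9),(k10,k9),(k9,k10),(k1,k12)],[(k5,k8),(k2,k10)],[(k5,k6),(k2,k8)],[(k3,k8),(k0,k10)],[(k3,k6),(k0,k8)],
    [(k8,k6)],[(k11,k6)],[(k6,k6),(k10,k6),(k9,k7),(k1,k9)],[(k6,k7),(k10,k7),(k9,k8),(k1,k10)],[(k4,k6)],[(k7,k6)],
    [(k6,k6),(k10,k6),(k9,k7),(k1,k9)]]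
    [] k0
    []
    []]⟩

/-- classes `0 0 1 2 1 2`, types `B0 B1 S0 S0 S0 S0` -/
noncomputable def cT6_1291 : CertT :=
  ⟨[k8,k9,k16,k32,k16,k32],[],[[[]]],
    [.lp [k12,k8,k6,k6,k6,k6] [k0,k0,k2,k2,k3,k3,k3,k3,k3,k3,k3,k3] k0 [] k24 k5
    [[(k6,k9),(k9,k9),(k10,k9),(k1,k12)],[(k5,k9),(k2,k10)],[(k5,k7),(k2,k8)],[(k3,k8),(k0,k10)],[(k3,k7),(k0,k9)],
    [(k4,k6),(k7,k6),(k8,k6),(k11,k6)],[(k4,k6),(k7,k6),(k8,k6),(k11,k6)],[(k6,k6),(k9,k6),(k10,k6),(k1,k9)],[(k6,k6),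
    (k9,k6),(k10,k6),(k1,k9)],[(k4,k6),(k7,k6),(k8,k6),(k11,k6)],[(k4,k6),(k7,k6),(k8,k6),(k11,k6)],[(k6,k6),(k9,k6),
    (k10,k6),(k1,k9)]]
    [] k0
    []
    []]⟩

/-- classes `0 0 1 2 1 2`, types `C0 C0 B0 B0 B1 B1` -/
noncomputable def cT6_1292 : CertT :=
  ⟨[k4,k4,k24,k40,k25,k41],[],[[[]]],
    [.lp [k6,k8,k12,k6,k6,k6] [k3,k3,k2,k2,k0,k0,k3,k3,k3,k3,k3,k3] k0 [] k24 k5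
    [[(k6,k6),(k9,k6)],[(k3,k7),(k5,k9)],[(k0,k7),(k2,k8)],[(k3,k8),(k5,k10)],[(k0,k9),(k2,k10)],[(k8,k9),(k11,k9)],
    [(k8,k6),(k11,k6)],[(k1,k6),(k10,k6)],[(k1,k6),(k10,k6)],[(k7,k6),(k4,k9)],[(k7,k6),(k4,k9)],[(k6,k6),(k9,k6)]]
    [] k0
    []
    []]⟩

/-- classes `0 0 1 2 1 2`, types `C0 C0 B0 C0 B1 C0` -/
noncomputable def cT6_1293 : CertT :=
  ⟨[k4,k4,k24,k36,k25,k36],[],[[[]]],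
    [.lp [k4,k8,k10,k10,k2,k10] [k3,k3,k1,k1,k0,k0,k0,k0,k4,k4,k0,k0] k0 [] k24 k5
    [[(k6,k7),(k10,k7)],[(k3,k6),(k5,k7)],[(k0,k6),(k2,k8)],[(k3,k8),(k5,k9)],[(k0,k7),(k2,k9)],[(k8,k6),(k11,k10)],
    [(k8,k6),(k11,k10)],[(k9,k6),(k1,k7)],[(k6,k6),(k10,k6)],[(k4,k6),(k7,k6)],[(k4,k10),(k7,k10)],[(k9,k6),(k1,k7)]]
    [] k0
    []
    []]⟩

/-- classes `0 0 1 2 1 2`, types `C0 C0 B0 C0 B1 C2` -/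
noncomputable def cT6_1294 : CertT :=
  ⟨[k4,k4,k24,k36,k25,k38],[],[[[]]],
    [.lp [k6,k4,k6,k6,k0,k0] [k0,k0,k1,k1,k0,k0,k0,k0,k3,k3,k3,k3] k0 [] k12 k5
    [[(k9,k3),(k10,k3)],[(k3,k5),(k5,k6)],[(k2,k4),(k0,k5)],[(k3,k4),(k5,k5)],[(k2,k5),(k0,k6)],[(k8,k3),(k11,k3)],
    [(k8,k3),(k11,k3)],[(k9,k3),(k10,k3)],[(k1,k3),(k6,k3)],[(k4,k3),(k7,k3)],[(k4,k3),(k7,k3)],[(k1,k3),(k6,k3)]]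
    [] k0
    []
    []]⟩

/-- classes `0 0 1 2 1 2`, types `C0 C0 B0 N0 B1 N1` -/
noncomputable def cT6_1295 : CertT :=
  ⟨[k4,k4,k24,k44,k25,k45],[],[[[]]],
    [.lp [k6,k8,k6,k6,k6,k6] [k1,k1,k0,k0,k1,k1,k1,k1,k1,k1,k1,k1] k0 [] k24 k5
    [[(k6,k6)],[(k5,k6),(k3,k7)],[(k0,k7),(k2,k8)],[(k5,k7),(k3,k8)],[(k0,k6),(k2,k7)],[(k8,k6),(k11,k6)],[(k8,k6),
    (k11,k6)],[(k1,k6)],[(k10,k6)],[(k4,k6),(k7,k6)],[(k4,k6),(k7,k6)],[(k9,k6)]]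
    [] k0
    []
    []]⟩

/-- classes `0 0 1 2 1 2`, types `C0 C0 B0 N0 B1 N2` -/
noncomputable def cT6_1296 : CertT :=
  ⟨[k4,k4,k24,k44,k25,k46],[],[[[]]],
    [.lp [k2,k4,k6,k6,k4,k0] [k2,k2,k1,k1,k0,k0,k0,k0,k1,k1,k3,k3] k0 [] k12 k5
    [[(k9,k3)],[(k3,k3),(k5,k4)],[(k0,k3),(k2,k4)],[(k3,k4),(k5,k5)],[(k0,k4),(k2,k5)],[(k11,k3),(k8,k5)],[(k11,k3),
    (k8,k5)],[(k10,k3)],[(k1,k3)],[(k4,k5),(k7,k5)],[(k4,k3),(k7,k3)],[(k6,k3)]]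
    [] k0
    []
    []]⟩

/-- classes `0 0 1 2 1 2`, types `C0 C0 B0 S0 B1 S0` -/
noncomputable def cT6_1297 : CertT :=
  ⟨[k4,k4,k24,k32,k25,k32],[],[[[]]],
    [.lp [k12,k8,k6,k6,k6,k6] [k0,k0,k2,k2,k3,k3,k3,k3,k3,k3,k3,k3] k0 [] k24 k5
    [[(k6,k9),(k9,k9),(k10,k9),(k1,k12)],[(k5,k9),(k3,k10)],[(k2,k8),(k0,k10)],[(k5,k7),(k3,k8)],[(k2,k7),(k0,k9)],
    [(k8,k6),(k11,k6)],[(k8,k6),(k11,k6)],[(k6,k6),(k9,k6),(k10,k6),(k1,k9)],[(k6,k6),(k9,k6),(k10,k6),(k1,k9)],[(k4,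
    k6),(k7,k6)],[(k4,k6),(k7,k6)],[(k6,k6),(k9,k6),(k10,k6),(k1,k9)]]
    [] k0
    []
    []]⟩

/-- classes `0 0 1 2 1 2`, types `C0 C0 C0 C0 C0 C0` -/
noncomputable def cT6_1298 : CertT :=
  ⟨[k4,k4,k20,k36,k20,k36],[],[[[]]],
    [.lp [k6,k4,k2,k4,k2,k4] [k0,k0,k1,k1,k2,k2,k1,k1,k2,k2,k1,k1] k0 [] k12 k5
    [[(k6,k5),(k10,k5)],[(k5,k4),(k3,k5)],[(k2,k4),(k0,k5)],[(k5,k3),(k3,k4)],[(k2,k3),(k0,k4)],[(k7,k3),(k11,k3)],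
    [(k4,k3),(k8,k3)],[(k9,k3),(k1,k5)],[(k6,k3),(k10,k3)],[(k7,k3),(k11,k3)],[(k4,k3),(k8,k3)],[(k9,k3),(k1,k5)]]
    [] k0
    []
    []]⟩

/-- classes `0 0 1 2 1 2`, types `C0 C0 C0 C0 C0 C2` -/
noncomputable def cT6_1299 : CertT :=
  ⟨[k4,k4,k20,k36,k20,k38],[],[[[]]],
    [.lp [k6,k4,k2,k4,k2,k4] [k0,k0,k1,k1,k2,k2,k1,k1,k2,k2,k1,k1] k0 [] k12 k5
    [[(k9,k4),(k10,k5)],[(k5,k4),(k3,k5)],[(k2,k4),(k0,k5)],[(k5,k3),(k3,k4)],[(k2,k3),(k0,k4)],[(k7,k3),(k11,k3)],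
    [(k4,k3),(k8,k3)],[(k9,k3),(k10,k4)],[(k6,k3),(k1,k4)],[(k7,k3),(k11,k3)],[(k4,k3),(k8,k3)],[(k6,k4),(k1,k5)]]
    [] k0
    []
    []]⟩

/-- classes `0 0 1 2 1 2`, types `C0 C0 C0 C0 C2 C2` -/
noncomputable def cT6_1300 : CertT :=
  ⟨[k4,k4,k20,k36,k22,k38],[],[[[]]],
    [.lp [k10,k8,k4,k10,k10,k2] [k0,k0,k1,k1,k3,k3,k0,k0,k0,k0,k4,k4] k0 [] k24 k5
    [[(k10,k6),(k9,k10)],[(k5,k7),(k3,k9)],[(k2,k8),(k0,k9)],[(k5,k6),(k3,k8)],[(k2,k6),(k0,k7)],[(k7,k7),(k8,k7)],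
    [(k11,k6),(k4,k7)],[(k10,k6),(k9,k10)],[(k1,k10),(k6,k10)],[(k11,k6),(k4,k7)],[(k7,k6),(k8,k6)],[(k1,k6),(k6,k6)]]
    [] k0
    []
    []]⟩

/-- classes `0 0 1 2 1 2`, types `C0 C0 C0 N0 C0 N1` -/
noncomputable def cT6_1301 : CertT :=
  ⟨[k4,k4,k20,k44,k20,k45],[],[[[]]],
    [.lp [k6,k4,k2,k4,k2,k4] [k0,k0,k1,k1,k2,k2,k1,k1,k2,k2,k1,k1] k0 [] k12 k5
    [[(k6,k5)],[(k5,k4),(k3,k5)],[(k2,k4),(k0,k5)],[(k5,k3),(k3,k4)],[(k2,k3),(k0,k4)],[(k7,k3),(k11,k3)],[(k4,k3),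
    (k8,k3)],[(k1,k5)],[(k10,k3)],[(k7,k3),(k11,k3)],[(k4,k3),(k8,k3)],[(k9,k3)]]
    [] k0
    []
    []]⟩

/-- classes `0 0 1 2 1 2`, types `C0 C0 C0 N0 C0 N2` -/
noncomputable def cT6_1302 : CertT :=
  ⟨[k4,k4,k20,k44,k20,k46],[],[[[]]],
    [.lp [k6,k8,k6,k6,k6,k6] [k1,k1,k0,k0,k1,k1,k1,k1,k1,k1,k1,k1] k0 [] k24 k5
    [[(k9,k6)],[(k5,k6),(k3,k7)],[(k0,k7),(k2,k8)],[(k5,k7),(k3,k8)],[(k0,k6),(k2,k7)],[(k7,k6),(k11,k6)],[(k4,k6),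
    (k8,k6)],[(k10,k6)],[(k1,k6)],[(k7,k6),(k11,k6)],[(k4,k6),(k8,k6)],[(k6,k6)]]
    [] k0
    []
    []]⟩

/-- classes `0 0 1 2 1 2`, types `C0 C0 C0 N0 C2 N1` -/
noncomputable def cT6_1303 : CertT :=
  ⟨[k4,k4,k20,k44,k22,k45],[],[[[]]],
    [.lp [k4,k4,k2,k6,k6,k0] [k1,k1,k1,k1,k2,k2,k0,k0,k0,k0,k3,k3] k0 [] k12 k5
    [[(k6,k5)],[(k5,k3),(k3,k4)],[(k0,k4),(k2,k4)],[(k5,k3),(k3,k4)],[(k0,k3),(k2,k3)],[(k7,k4),(k8,k4)],[(k11,k3),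
    (k4,k4)],[(k1,k5)],[(k10,k3)],[(k11,k3),(k4,k4)],[(k7,k3),(k8,k3)],[(k9,k3)]]
    [] k0
    []
    []]⟩

/-- classes `0 0 1 2 1 2`, types `C0 C0 C0 N0 C2 N2` -/
noncomputable def cT6_1304 : CertT :=
  ⟨[k4,k4,k20,k44,k22,k46],[],[[[]]],
    [.lp [k4,k4,k2,k6,k6,k0] [k1,k1,k1,k1,k2,k2,k0,k0,k0,k0,k3,k3] k0 [] k12 k5
    [[(k9,k5)],[(k5,k3),(k3,k4)],[(k0,k4),(k2,k4)],[(k5,k3),(k3,k4)],[(k0,k3),(k2,k3)],[(k7,k4),(k8,k4)],[(k11,k3),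
    (k4,k4)],[(k10,k3)],[(k1,k5)],[(k11,k3),(k4,k4)],[(k7,k3),(k8,k3)],[(k6,k3)]]
    [] k0
    []
    []]⟩

/-- classes `0 0 1 2 1 2`, types `C0 C0 C0 S0 C0 S0` -/
noncomputable def cT6_1305 : CertT :=
  ⟨[k4,k4,k20,k32,k20,k32],[],[[[]]],
    [.lp [k12,k8,k6,k6,k6,k6] [k0,k0,k2,k2,k3,k3,k3,k3,k3,k3,k3,k3] k0 [] k24 k5
    [[(k6,k9),(k9,k9),(k10,k9),(k1,k12)],[(k5,k9),(k3,k10)],[(k2,k8),(k0,k10)],[(k5,k7),(k3,k8)],[(k2,k7),(k0,k9)],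
    [(k7,k6),(k11,k6)],[(k4,k6),(k8,k6)],[(k6,k6),(k9,k6),(k10,k6),(k1,k9)],[(k6,k6),(k9,k6),(k10,k6),(k1,k9)],[(k7,
    k6),(k11,k6)],[(k4,k6),(k8,k6)],[(k6,k6),(k9,k6),(k10,k6),(k1,k9)]]
    [] k0
    []
    []]⟩

/-- classes `0 0 1 2 1 2`, types `C0 C0 C0 S0 C2 S0` -/
noncomputable def cT6_1306 : CertT :=
  ⟨[k4,k4,k20,k32,k22,k32],[],[[[]]],
    [.lp [k12,k8,k6,k6,k6,k6] [k0,k0,k2,k2,k3,k3,k3,k3,k3,k3,k3,k3] k0 [] k24 k5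
    [[(k6,k9),(k9,k9),(k10,k9),(k1,k12)],[(k5,k9),(k3,k10)],[(k2,k8),(k0,k10)],[(k5,k7),(k3,k8)],[(k2,k7),(k0,k9)],
    [(k7,k6),(k8,k6)],[(k4,k6),(k11,k6)],[(k6,k6),(k9,k6),(k10,k6),(k1,k9)],[(k6,k6),(k9,k6),(k10,k6),(k1,k9)],[(k4,
    k6),(k11,k6)],[(k7,k6),(k8,k6)],[(k6,k6),(k9,k6),(k10,k6),(k1,k9)]]
    [] k0
    []
    []]⟩

/-- classes `0 0 1 2 1 2`, types `C0 C0 N0 N0 N1 N1` -/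
noncomputable def cT6_1307 : CertT :=
  ⟨[k4,k4,k28,k44,k29,k45],[],[[[]]],
    [.lp [k6,k8,k6,k6,k6,k6] [k1,k1,k0,k0,k1,k1,k1,k1,k1,k1,k1,k1] k0 [] k24 k5
    [[(k6,k6)],[(k5,k6),(k3,k7)],[(k0,k7),(k2,k8)],[(k5,k7),(k3,k8)],[(k0,k6),(k2,k7)],[(k11,k6)],[(k8,k6)],[(k1,k6)],
    [(k10,k6)],[(k7,k6)],[(k4,k6)],[(k9,k6)]]
    [] k0
    []
    []]⟩

/-- classes `0 0 1 2 1 2`, types `C0 C0 N0 N0 N1 N2` -/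
noncomputable def cT6_1308 : CertT :=
  ⟨[k4,k4,k28,k44,k29,k46],[],[[[]]],
    [.lp [k6,k8,k6,k6,k6,k6] [k1,k1,k0,k0,k1,k1,k1,k1,k1,k1,k1,k1] k0 [] k24 k5
    [[(k9,k6)],[(k5,k6),(k3,k7)],[(k0,k7),(k2,k8)],[(k5,k7),(k3,k8)],[(k0,k6),(k2,k7)],[(k11,k6)],[(k8,k6)],[(k10,
    k6)],[(k1,k6)],[(k7,k6)],[(k4,k6)],[(k6,k6)]]
    [] k0
    []
    []]⟩

/-- classes `0 0 1 2 1 2`, types `C0 C0 N0 N0 N2 N2` -/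
noncomputable def cT6_1309 : CertT :=
  ⟨[k4,k4,k28,k44,k30,k46],[],[[[]]],
    [.lp [k6,k4,k2,k6,k4,k0] [k0,k0,k1,k1,k2,k2,k0,k0,k1,k1,k3,k3] k0 [] k12 k5
    [[(k9,k5)],[(k5,k4),(k3,k5)],[(k2,k4),(k0,k5)],[(k5,k3),(k3,k4)],[(k2,k3),(k0,k4)],[(k8,k3)],[(k11,k3)],[(k10,
    k3)],[(k1,k5)],[(k4,k3)],[(k7,k3)],[(k6,k3)]]
    [] k0
    []
    []]⟩

/-- classes `0 0 1 2 1 2`, types `C0 C0 N0 S0 N1 S0` -/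
noncomputable def cT6_1310 : CertT :=
  ⟨[k4,k4,k28,k32,k29,k32],[],[[[]]],
    [.lp [k12,k8,k4,k6,k6,k8] [k0,k0,k2,k2,k4,k4,k3,k3,k3,k3,k2,k2] k0 [] k24 k5
    [[(k6,k9),(k9,k9),(k10,k10),(k1,k12)],[(k5,k8),(k3,k10)],[(k2,k8),(k0,k10)],[(k5,k6),(k3,k8)],[(k2,k6),(k0,k8)],
    [(k11,k6)],[(k8,k6)],[(k6,k6),(k9,k6),(k10,k7),(k1,k9)],[(k6,k6),(k9,k6),(k10,k7),(k1,k9)],[(k7,k6)],[(k4,k6)],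
    [(k6,k7),(k9,k7),(k10,k8),(k1,k10)]]
    [] k0
    []
    []]⟩

/-- classes `0 0 1 2 1 2`, types `C0 C0 N0 S0 N2 S0` -/
noncomputable def cT6_1311 : CertT :=
  ⟨[k4,k4,k28,k32,k30,k32],[],[[[]]],
    [.lp [k12,k8,k4,k6,k8,k6] [k0,k0,k2,k2,k4,k4,k3,k3,k2,k2,k3,k3] k0 [] k24 k5
    [[(k6,k9),(k10,k9),(k9,k10),(k1,k12)],[(k5,k8),(k3,k10)],[(k2,k8),(k0,k10)],[(k5,k6),(k3,k8)],[(k2,k6),(k0,k8)],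
    [(k8,k6)],[(k11,k6)],[(k6,k6),(k10,k6),(k9,k7),(k1,k9)],[(k6,k7),(k10,k7),(k9,k8),(k1,k10)],[(k4,k6)],[(k7,k6)],
    [(k6,k6),(k10,k6),(k9,k7),(k1,k9)]]
    [] k0
    []
    []]⟩

/-- classes `0 0 1 2 1 2`, types `C0 C0 S0 S0 S0 S0` -/
noncomputable def cT6_1312 : CertT :=
  ⟨[k4,k4,k16,k32,k16,k32],[],[[[]]],
    [.lp [k6,k8,k12,k6,k6,k6] [k3,k3,k2,k2,k0,k0,k3,k3,k3,k3,k3,k3] k0 [] k24 k5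
    [[(k1,k6),(k6,k6),(k9,k6),(k10,k6)],[(k3,k7),(k5,k9)],[(k0,k7),(k2,k8)],[(k3,k8),(k5,k10)],[(k0,k9),(k2,k10)],
    [(k7,k9),(k8,k9),(k11,k9),(k4,k12)],[(k7,k6),(k8,k6),(k11,k6),(k4,k9)],[(k1,k6),(k6,k6),(k9,k6),(k10,k6)],[(k1,
    k6),(k6,k6),(k9,k6),(k10,k6)],[(k7,k6),(k8,k6),(k11,k6),(k4,k9)],[(k7,k6),(k8,k6),(k11,k6),(k4,k9)],[(k1,k6),(k6,
    k6),(k9,k6),(k10,k6)]]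
    [] k0
    []
    []]⟩

/-- classes `0 0 1 2 1 2`, types `C0 C2 B0 B0 B1 B1` -/
noncomputable def cT6_1313 : CertT :=
  ⟨[k4,k6,k24,k40,k25,k41],[],[[[]]],
    [.lp [k2,k2,k2,k2,k2,k2] [k0,k0,k0,k0,k0,k0,k0,k0,k0,k0,k0,k0] k0 [] k8 k5
    [[(k6,k2),(k9,k2)],[(k2,k2),(k3,k2)],[(k0,k2),(k5,k2)],[(k0,k2),(k5,k2)],[(k2,k2),(k3,k2)],[(k8,k2),(k11,k2)],
    [(k8,k2),(k11,k2)],[(k1,k2),(k10,k2)],[(k1,k2),(k10,k2)],[(k4,k2),(k7,k2)],[(k4,k2),(k7,k2)],[(k6,k2),(k9,k2)]]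
    [] k0
    []
    []]⟩

/-- classes `0 0 1 2 1 2`, types `C0 C2 B0 C0 B1 C0` -/
noncomputable def cT6_1314 : CertT :=
  ⟨[k4,k6,k24,k36,k25,k36],[],[[[]]],
    [.lp [k2,k2,k2,k2,k2,k2] [k0,k0,k0,k0,k0,k0,k0,k0,k0,k0,k0,k0] k0 [] k8 k5
    [[(k6,k2),(k10,k2)],[(k2,k2),(k3,k2)],[(k0,k2),(k5,k2)],[(k0,k2),(k5,k2)],[(k2,k2),(k3,k2)],[(k8,k2),(k11,k2)],
    [(k8,k2),(k11,k2)],[(k1,k2),(k9,k2)],[(k6,k2),(k10,k2)],[(k4,k2),(k7,k2)],[(k4,k2),(k7,k2)],[(k1,k2),(k9,k2)]]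
    [] k0
    []
    []]⟩

/-- classes `0 0 1 2 1 2`, types `C0 C2 B0 C0 B1 C2` -/
noncomputable def cT6_1315 : CertT :=
  ⟨[k4,k6,k24,k36,k25,k38],[],[[[]]],
    [.lp [k2,k0,k2,k2,k0,k0] [k0,k0,k1,k1,k0,k0,k0,k0,k1,k1,k1,k1] k0 [] k4 k5
    [[(k9,k1),(k10,k1)],[(k2,k1),(k3,k1)],[(k0,k1),(k5,k1)],[(k0,k1),(k5,k1)],[(k2,k1),(k3,k1)],[(k8,k1),(k11,k1)],
    [(k8,k1),(k11,k1)],[(k9,k1),(k10,k1)],[(k1,k1),(k6,k1)],[(k4,k1),(k7,k1)],[(k4,k1),(k7,k1)],[(k1,k1),(k6,k1)]]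
    [] k0
    []
    []]⟩

/-- classes `0 0 1 2 1 2`, types `C0 C2 B0 N0 B1 N1` -/
noncomputable def cT6_1316 : CertT :=
  ⟨[k4,k6,k24,k44,k25,k45],[],[[[]]],
    [.lp [k2,k2,k2,k2,k2,k2] [k0,k0,k0,k0,k0,k0,k0,k0,k0,k0,k0,k0] k0 [] k8 k5
    [[(k6,k2)],[(k2,k2),(k3,k2)],[(k0,k2),(k5,k2)],[(k0,k2),(k5,k2)],[(k2,k2),(k3,k2)],[(k8,k2),(k11,k2)],[(k8,k2),
    (k11,k2)],[(k1,k2)],[(k10,k2)],[(k4,k2),(k7,k2)],[(k4,k2),(k7,k2)],[(k9,k2)]]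
    [] k0
    []
    []]⟩

/-- classes `0 0 1 2 1 2`, types `C0 C2 B0 N0 B1 N2` -/
noncomputable def cT6_1317 : CertT :=
  ⟨[k4,k6,k24,k44,k25,k46],[],[[[]]],
    [.lp [k2,k0,k2,k2,k0,k0] [k0,k0,k1,k1,k0,k0,k0,k0,k1,k1,k1,k1] k0 [] k4 k5
    [[(k9,k1)],[(k2,k1),(k3,k1)],[(k0,k1),(k5,k1)],[(k0,k1),(k5,k1)],[(k2,k1),(k3,k1)],[(k8,k1),(k11,k1)],[(k8,k1),
    (k11,k1)],[(k10,k1)],[(k1,k1)],[(k4,k1),(k7,k1)],[(k4,k1),(k7,k1)],[(k6,k1)]]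
    [] k0
    []
    []]⟩

/-- classes `0 0 1 2 1 2`, types `C0 C2 B0 S0 B1 S0` -/
noncomputable def cT6_1318 : CertT :=
  ⟨[k4,k6,k24,k32,k25,k32],[],[[[]]],
    [.lp [k6,k4,k4,k4,k4,k4] [k0,k0,k1,k1,k1,k1,k1,k1,k1,k1,k1,k1] k0 [] k16 k5
    [[(k6,k5),(k9,k5),(k10,k5),(k1,k6)],[(k2,k5),(k3,k5)],[(k5,k4),(k0,k5)],[(k5,k4),(k0,k5)],[(k2,k4),(k3,k4)],[(k8,
    k4),(k11,k4)],[(k8,k4),(k11,k4)],[(k6,k4),(k9,k4),(k10,k4),(k1,k5)],[(k6,k4),(k9,k4),(k10,k4),(k1,k5)],[(k4,k4),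
    (k7,k4)],[(k4,k4),(k7,k4)],[(k6,k4),(k9,k4),(k10,k4),(k1,k5)]]
    [] k0
    []
    []]⟩

/-- classes `0 0 1 2 1 2`, types `C0 C2 C0 C0 C0 C0` -/
noncomputable def cT6_1319 : CertT :=
  ⟨[k4,k6,k20,k36,k20,k36],[],[[[]]],
    [.lp [k2,k0,k2,k0,k2,k0] [k0,k0,k1,k1,k0,k0,k1,k1,k0,k0,k1,k1] k0 [] k4 k5
    [[(k6,k1),(k10,k1)],[(k2,k1),(k3,k1)],[(k0,k1),(k5,k1)],[(k0,k1),(k5,k1)],[(k2,k1),(k3,k1)],[(k7,k1),(k11,k1)],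
    [(k4,k1),(k8,k1)],[(k1,k1),(k9,k1)],[(k6,k1),(k10,k1)],[(k7,k1),(k11,k1)],[(k4,k1),(k8,k1)],[(k1,k1),(k9,k1)]]
    [] k0
    []
    []]⟩

/-- classes `0 0 1 2 1 2`, types `C0 C2 C0 C0 C0 C2` -/
noncomputable def cT6_1320 : CertT :=
  ⟨[k4,k6,k20,k36,k20,k38],[],[[[]]],
    [.lp [k2,k2,k2,k2,k2,k2] [k0,k0,k0,k0,k0,k0,k0,k0,k0,k0,k0,k0] k0 [] k8 k5
    [[(k9,k2),(k10,k2)],[(k2,k2),(k3,k2)],[(k0,k2),(k5,k2)],[(k0,k2),(k5,k2)],[(k2,k2),(k3,k2)],[(k7,k2),(k11,k2)],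
    [(k4,k2),(k8,k2)],[(k9,k2),(k10,k2)],[(k1,k2),(k6,k2)],[(k7,k2),(k11,k2)],[(k4,k2),(k8,k2)],[(k1,k2),(k6,k2)]]
    [] k0
    []
    []]⟩

/-- classes `0 0 1 2 1 2`, types `C0 C2 C0 C0 C2 C2` -/
noncomputable def cT6_1321 : CertT :=
  ⟨[k4,k6,k20,k36,k22,k38],[],[[[]]],
    [.lp [k2,k2,k2,k2,k2,k2] [k0,k0,k0,k0,k0,k0,k0,k0,k0,k0,k0,k0] k0 [] k8 k5
    [[(k9,k2),(k10,k2)],[(k2,k2),(k3,k2)],[(k0,k2),(k5,k2)],[(k0,k2),(k5,k2)],[(k2,k2),(k3,k2)],[(k7,k2),(k8,k2)],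
    [(k4,k2),(k11,k2)],[(k9,k2),(k10,k2)],[(k1,k2),(k6,k2)],[(k4,k2),(k11,k2)],[(k7,k2),(k8,k2)],[(k1,k2),(k6,k2)]]
    [] k0
    []
    []]⟩

/-- classes `0 0 1 2 1 2`, types `C0 C2 C0 N0 C0 N1` -/
noncomputable def cT6_1322 : CertT :=
  ⟨[k4,k6,k20,k44,k20,k45],[],[[[]]],
    [.lp [k2,k0,k2,k0,k2,k0] [k0,k0,k1,k1,k0,k0,k1,k1,k0,k0,k1,k1] k0 [] k4 k5
    [[(k6,k1)],[(k2,k1),(k3,k1)],[(k0,k1),(k5,k1)],[(k0,k1),(k5,k1)],[(k2,k1),(k3,k1)],[(k7,k1),(k11,k1)],[(k4,k1),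
    (k8,k1)],[(k1,k1)],[(k10,k1)],[(k7,k1),(k11,k1)],[(k4,k1),(k8,k1)],[(k9,k1)]]
    [] k0
    []
    []]⟩

/-- classes `0 0 1 2 1 2`, types `C0 C2 C0 N0 C0 N2` -/
noncomputable def cT6_1323 : CertT :=
  ⟨[k4,k6,k20,k44,k20,k46],[],[[[]]],
    [.lp [k2,k2,k2,k2,k2,k2] [k0,k0,k0,k0,k0,k0,k0,k0,k0,k0,k0,k0] k0 [] k8 k5
    [[(k9,k2)],[(k2,k2),(k3,k2)],[(k0,k2),(k5,k2)],[(k0,k2),(k5,k2)],[(k2,k2),(k3,k2)],[(k7,k2),(k11,k2)],[(k4,k2),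
    (k8,k2)],[(k10,k2)],[(k1,k2)],[(k7,k2),(k11,k2)],[(k4,k2),(k8,k2)],[(k6,k2)]]
    [] k0
    []
    []]⟩

/-- classes `0 0 1 2 1 2`, types `C0 C2 C0 N0 C2 N1` -/
noncomputable def cT6_1324 : CertT :=
  ⟨[k4,k6,k20,k44,k22,k45],[],[[[]]],
    [.lp [k0,k2,k0,k2,k2,k0] [k1,k1,k0,k0,k1,k1,k0,k0,k0,k0,k1,k1] k0 [] k4 k5
    [[(k6,k1)],[(k2,k1),(k3,k1)],[(k0,k1),(k5,k1)],[(k0,k1),(k5,k1)],[(k2,k1),(k3,k1)],[(k7,k1),(k8,k1)],[(k4,k1),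
    (k11,k1)],[(k1,k1)],[(k10,k1)],[(k4,k1),(k11,k1)],[(k7,k1),(k8,k1)],[(k9,k1)]]
    [] k0
    []
    []]⟩

/-- classes `0 0 1 2 1 2`, types `C0 C2 C0 N0 C2 N2` -/
noncomputable def cT6_1325 : CertT :=
  ⟨[k4,k6,k20,k44,k22,k46],[],[[[]]],
    [.lp [k0,k2,k0,k2,k2,k0] [k1,k1,k0,k0,k1,k1,k0,k0,k0,k0,k1,k1] k0 [] k4 k5
    [[(k9,k1)],[(k2,k1),(k3,k1)],[(k0,k1),(k5,k1)],[(k0,k1),(k5,k1)],[(k2,k1),(k3,k1)],[(k7,k1),(k8,k1)],[(k4,k1),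
    (k11,k1)],[(k10,k1)],[(k1,k1)],[(k4,k1),(k11,k1)],[(k7,k1),(k8,k1)],[(k6,k1)]]
    [] k0
    []
    []]⟩

/-- classes `0 0 1 2 1 2`, types `C0 C2 C0 S0 C0 S0` -/
noncomputable def cT6_1326 : CertT :=
  ⟨[k4,k6,k20,k32,k20,k32],[],[[[]]],
    [.lp [k6,k4,k4,k4,k4,k4] [k0,k0,k1,k1,k1,k1,k1,k1,k1,k1,k1,k1] k0 [] k16 k5
    [[(k6,k5),(k9,k5),(k10,k5),(k1,k6)],[(k2,k5),(k3,k5)],[(k5,k4),(k0,k5)],[(k5,k4),(k0,k5)],[(k2,k4),(k3,k4)],[(k7,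
    k4),(k11,k4)],[(k4,k4),(k8,k4)],[(k6,k4),(k9,k4),(k10,k4),(k1,k5)],[(k6,k4),(k9,k4),(k10,k4),(k1,k5)],[(k7,k4),
    (k11,k4)],[(k4,k4),(k8,k4)],[(k6,k4),(k9,k4),(k10,k4),(k1,k5)]]
    [] k0
    []
    []]⟩

/-- classes `0 0 1 2 1 2`, types `C0 C2 C0 S0 C2 S0` -/
noncomputable def cT6_1327 : CertT :=
  ⟨[k4,k6,k20,k32,k22,k32],[],[[[]]],
    [.lp [k6,k4,k4,k4,k4,k4] [k0,k0,k1,k1,k1,k1,k1,k1,k1,k1,k1,k1] k0 [] k16 k5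
    [[(k6,k5),(k9,k5),(k10,k5),(k1,k6)],[(k2,k5),(k3,k5)],[(k5,k4),(k0,k5)],[(k5,k4),(k0,k5)],[(k2,k4),(k3,k4)],[(k7,
    k4),(k8,k4)],[(k4,k4),(k11,k4)],[(k6,k4),(k9,k4),(k10,k4),(k1,k5)],[(k6,k4),(k9,k4),(k10,k4),(k1,k5)],[(k4,k4),
    (k11,k4)],[(k7,k4),(k8,k4)],[(k6,k4),(k9,k4),(k10,k4),(k1,k5)]]
    [] k0
    []
    []]⟩

/-- classes `0 0 1 2 1 2`, types `C0 C2 N0 N0 N1 N1` -/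
noncomputable def cT6_1328 : CertT :=
  ⟨[k4,k6,k28,k44,k29,k45],[],[[[]]],
    [.lp [k2,k0,k2,k0,k2,k0] [k0,k0,k1,k1,k0,k0,k1,k1,k0,k0,k1,k1] k0 [] k4 k5
    [[(k6,k1)],[(k2,k1),(k3,k1)],[(k0,k1),(k5,k1)],[(k0,k1),(k5,k1)],[(k2,k1),(k3,k1)],[(k11,k1)],[(k8,k1)],[(k1,k1)],
    [(k10,k1)],[(k7,k1)],[(k4,k1)],[(k9,k1)]]
    [] k0
    []
    []]⟩

/-- classes `0 0 1 2 1 2`, types `C0 C2 N0 N0 N1 N2` -/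
noncomputable def cT6_1329 : CertT :=
  ⟨[k4,k6,k28,k44,k29,k46],[],[[[]]],
    [.lp [k2,k0,k2,k2,k0,k0] [k0,k0,k1,k1,k0,k0,k0,k0,k1,k1,k1,k1] k0 [] k4 k5
    [[(k9,k1)],[(k2,k1),(k3,k1)],[(k0,k1),(k5,k1)],[(k0,k1),(k5,k1)],[(k2,k1),(k3,k1)],[(k11,k1)],[(k8,k1)],[(k10,
    k1)],[(k1,k1)],[(k7,k1)],[(k4,k1)],[(k6,k1)]]
    [] k0
    []
    []]⟩

/-- classes `0 0 1 2 1 2`, types `C0 C2 N0 N0 N2 N2` -/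
noncomputable def cT6_1330 : CertT :=
  ⟨[k4,k6,k28,k44,k30,k46],[],[[[]]],
    [.lp [k0,k2,k0,k2,k2,k0] [k1,k1,k0,k0,k1,k1,k0,k0,k0,k0,k1,k1] k0 [] k4 k5
    [[(k9,k1)],[(k2,k1),(k3,k1)],[(k0,k1),(k5,k1)],[(k0,k1),(k5,k1)],[(k2,k1),(k3,k1)],[(k8,k1)],[(k11,k1)],[(k10,
    k1)],[(k1,k1)],[(k4,k1)],[(k7,k1)],[(k6,k1)]]
    [] k0
    []
    []]⟩

/-- classes `0 0 1 2 1 2`, types `C0 C2 N0 S0 N1 S0` -/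
noncomputable def cT6_1331 : CertT :=
  ⟨[k4,k6,k28,k32,k29,k32],[],[[[]]],
    [.lp [k6,k4,k4,k4,k4,k4] [k0,k0,k1,k1,k1,k1,k1,k1,k1,k1,k1,k1] k0 [] k16 k5
    [[(k6,k5),(k9,k5),(k10,k5),(k1,k6)],[(k2,k5),(k3,k5)],[(k5,k4),(k0,k5)],[(k5,k4),(k0,k5)],[(k2,k4),(k3,k4)],[(k11,
    k4)],[(k8,k4)],[(k6,k4),(k9,k4),(k10,k4),(k1,k5)],[(k6,k4),(k9,k4),(k10,k4),(k1,k5)],[(k7,k4)],[(k4,k4)],[(k6,k4),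
    (k9,k4),(k10,k4),(k1,k5)]]
    [] k0
    []
    []]⟩

/-- classes `0 0 1 2 1 2`, types `C0 C2 N0 S0 N2 S0` -/
noncomputable def cT6_1332 : CertT :=
  ⟨[k4,k6,k28,k32,k30,k32],[],[[[]]],
    [.lp [k6,k4,k4,k4,k4,k4] [k0,k0,k1,k1,k1,k1,k1,k1,k1,k1,k1,k1] k0 [] k16 k5
    [[(k6,k5),(k9,k5),(k10,k5),(k1,k6)],[(k2,k5),(k3,k5)],[(k5,k4),(k0,k5)],[(k5,k4),(k0,k5)],[(k2,k4),(k3,k4)],[(k8,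
    k4)],[(k11,k4)],[(k6,k4),(k9,k4),(k10,k4),(k1,k5)],[(k6,k4),(k9,k4),(k10,k4),(k1,k5)],[(k4,k4)],[(k7,k4)],[(k6,
    k4),(k9,k4),(k10,k4),(k1,k5)]]
    [] k0
    []
    []]⟩

/-- classes `0 0 1 2 1 2`, types `C0 C2 S0 S0 S0 S0` -/
noncomputable def cT6_1333 : CertT :=
  ⟨[k4,k6,k16,k32,k16,k32],[],[[[]]],
    [.lp [k2,k4,k2,k2,k2,k2] [k1,k1,k0,k0,k1,k1,k1,k1,k1,k1,k1,k1] k0 [] k8 k5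
    [[(k1,k2),(k6,k2),(k9,k2),(k10,k2)],[(k2,k3),(k3,k3)],[(k0,k3),(k5,k3)],[(k0,k3),(k5,k3)],[(k2,k3),(k3,k3)],[(k4,
    k2),(k7,k2),(k8,k2),(k11,k2)],[(k4,k2),(k7,k2),(k8,k2),(k11,k2)],[(k1,k2),(k6,k2),(k9,k2),(k10,k2)],[(k1,k2),(k6,
    k2),(k9,k2),(k10,k2)],[(k4,k2),(k7,k2),(k8,k2),(k11,k2)],[(k4,k2),(k7,k2),(k8,k2),(k11,k2)],[(k1,k2),(k6,k2),(k9,
    k2),(k10,k2)]]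
    [] k0
    []
    []]⟩

/-- classes `0 0 1 2 1 2`, types `N0 N1 B0 B0 B1 B1` -/
noncomputable def cT6_1334 : CertT :=
  ⟨[k12,k13,k24,k40,k25,k41],[],[[[]]],
    [.lp [k6,k8,k12,k6,k6,k6] [k3,k3,k2,k2,k0,k0,k3,k3,k3,k3,k3,k3] k0 [] k24 k5
    [[(k6,k6),(k9,k6)],[(k5,k9)],[(k2,k8)],[(k3,k8)],[(k0,k9)],[(k8,k9),(k11,k9)],[(k8,k6),(k11,k6)],[(k1,k6),(k10,
    k6)],[(k1,k6),(k10,k6)],[(k7,k6),(k4,k9)],[(k7,k6),(k4,k9)],[(k6,k6),(k9,k6)]]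
    [] k0
    []
    []]⟩

/-- classes `0 0 1 2 1 2`, types `N0 N1 B0 C0 B1 C0` -/
noncomputable def cT6_1335 : CertT :=
  ⟨[k12,k13,k24,k36,k25,k36],[],[[[]]],
    [.lp [k0,k4,k6,k6,k0,k6] [k3,k3,k1,k1,k0,k0,k0,k0,k3,k3,k0,k0] k0 [] k12 k5
    [[(k6,k3),(k10,k3)],[(k5,k3)],[(k2,k4)],[(k3,k4)],[(k0,k3)],[(k8,k3),(k11,k6)],[(k8,k3),(k11,k6)],[(k1,k3),(k9,
    k3)],[(k6,k3),(k10,k3)],[(k4,k3),(k7,k3)],[(k4,k6),(k7,k6)],[(k1,k3),(k9,k3)]]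
    [] k0
    []
    []]⟩

/-- classes `0 0 1 2 1 2`, types `N0 N1 B0 C0 B1 C2` -/
noncomputable def cT6_1336 : CertT :=
  ⟨[k12,k13,k24,k36,k25,k38],[],[[[]]],
    [.lp [k6,k4,k6,k6,k0,k0] [k0,k0,k1,k1,k0,k0,k0,k0,k3,k3,k3,k3] k0 [] k12 k5
    [[(k9,k3),(k10,k3)],[(k5,k6)],[(k2,k4)],[(k3,k4)],[(k0,k6)],[(k8,k3),(k11,k3)],[(k8,k3),(k11,k3)],[(k9,k3),(k10,
    k3)],[(k1,k3),(k6,k3)],[(k4,k3),(k7,k3)],[(k4,k3),(k7,k3)],[(k1,k3),(k6,k3)]]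
    [] k0
    []
    []]⟩

/-- classes `0 0 1 2 1 2`, types `N0 N1 B0 N0 B1 N1` -/
noncomputable def cT6_1337 : CertT :=
  ⟨[k12,k13,k24,k44,k25,k45],[],[[[]]],
    [.lp [k6,k8,k6,k6,k6,k6] [k1,k1,k0,k0,k1,k1,k1,k1,k1,k1,k1,k1] k0 [] k24 k5
    [[(k6,k6)],[(k5,k6)],[(k2,k8)],[(k3,k8)],[(k0,k6)],[(k8,k6),(k11,k6)],[(k8,k6),(k11,k6)],[(k1,k6)],[(k10,k6)],
    [(k4,k6),(k7,k6)],[(k4,k6),(k7,k6)],[(k9,k6)]]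
    [] k0
    []
    []]⟩

/-- classes `0 0 1 2 1 2`, types `N0 N1 B0 N0 B1 N2` -/
noncomputable def cT6_1338 : CertT :=
  ⟨[k12,k13,k24,k44,k25,k46],[],[[[]]],
    [.lp [k0,k4,k6,k6,k6,k0] [k3,k3,k1,k1,k0,k0,k0,k0,k0,k0,k3,k3] k0 [] k12 k5
    [[(k9,k3)],[(k5,k3)],[(k2,k4)],[(k3,k4)],[(k0,k3)],[(k11,k3),(k8,k6)],[(k11,k3),(k8,k6)],[(k10,k3)],[(k1,k3)],
    [(k4,k6),(k7,k6)],[(k4,k3),(k7,k3)],[(k6,k3)]]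
    [] k0
    []
    []]⟩

/-- classes `0 0 1 2 1 2`, types `N0 N1 B0 S0 B1 S0` -/
noncomputable def cT6_1339 : CertT :=
  ⟨[k12,k13,k24,k32,k25,k32],[],[[[]]],
    [.lp [k12,k8,k6,k6,k6,k6] [k0,k0,k2,k2,k3,k3,k3,k3,k3,k3,k3,k3] k0 [] k24 k5
    [[(k6,k9),(k9,k9),(k10,k9),(k1,k12)],[(k5,k9)],[(k2,k8)],[(k3,k8)],[(k0,k9)],[(k8,k6),(k11,k6)],[(k8,k6),(k11,
    k6)],[(k6,k6),(k9,k6),(k10,k6),(k1,k9)],[(k6,k6),(k9,k6),(k10,k6),(k1,k9)],[(k4,k6),(k7,k6)],[(k4,k6),(k7,k6)],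
    [(k6,k6),(k9,k6),(k10,k6),(k1,k9)]]
    [] k0
    []
    []]⟩

/-- classes `0 0 1 2 1 2`, types `N0 N1 C0 C0 C0 C0` -/
noncomputable def cT6_1340 : CertT :=
  ⟨[k12,k13,k20,k36,k20,k36],[],[[[]]],
    [.lp [k6,k4,k0,k6,k0,k6] [k0,k0,k1,k1,k3,k3,k0,k0,k3,k3,k0,k0] k0 [] k12 k5
    [[(k6,k6),(k10,k6)],[(k5,k3)],[(k2,k4)],[(k3,k4)],[(k0,k3)],[(k7,k3),(k11,k3)],[(k4,k3),(k8,k3)],[(k9,k3),(k1,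
    k6)],[(k6,k3),(k10,k3)],[(k7,k3),(k11,k3)],[(k4,k3),(k8,k3)],[(k9,k3),(k1,k6)]]
    [] k0
    []
    []]⟩

/-- classes `0 0 1 2 1 2`, types `N0 N1 C0 C0 C0 C2` -/
noncomputable def cT6_1341 : CertT :=
  ⟨[k12,k13,k20,k36,k20,k38],[],[[[]]],
    [.lp [k6,k4,k0,k6,k0,k6] [k0,k0,k1,k1,k3,k3,k0,k0,k3,k3,k0,k0] k0 [] k12 k5
    [[(k9,k3),(k10,k6)],[(k5,k3)],[(k2,k4)],[(k3,k4)],[(k0,k3)],[(k7,k3),(k11,k3)],[(k4,k3),(k8,k3)],[(k9,k3),(k10,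
    k6)],[(k1,k3),(k6,k3)],[(k7,k3),(k11,k3)],[(k4,k3),(k8,k3)],[(k1,k6),(k6,k6)]]
    [] k0
    []
    []]⟩

/-- classes `0 0 1 2 1 2`, types `N0 N1 C0 C0 C2 C2` -/
noncomputable def cT6_1342 : CertT :=
  ⟨[k12,k13,k20,k36,k22,k38],[],[[[]]],
    [.lp [k6,k4,k0,k6,k6,k0] [k0,k0,k1,k1,k3,k3,k0,k0,k0,k0,k3,k3] k0 [] k12 k5
    [[(k10,k3),(k9,k6)],[(k5,k3)],[(k2,k4)],[(k3,k4)],[(k0,k3)],[(k7,k3),(k8,k3)],[(k4,k3),(k11,k3)],[(k10,k3),(k9,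
    k6)],[(k1,k6),(k6,k6)],[(k4,k3),(k11,k3)],[(k7,k3),(k8,k3)],[(k1,k3),(k6,k3)]]
    [] k0
    []
    []]⟩

/-- classes `0 0 1 2 1 2`, types `N0 N1 C0 N0 C0 N1` -/
noncomputable def cT6_1343 : CertT :=
  ⟨[k12,k13,k20,k44,k20,k45],[],[[[]]],
    [.lp [k6,k4,k0,k6,k0,k6] [k0,k0,k1,k1,k3,k3,k0,k0,k3,k3,k0,k0] k0 [] k12 k5
    [[(k6,k6)],[(k5,k3)],[(k2,k4)],[(k3,k4)],[(k0,k3)],[(k7,k3),(k11,k3)],[(k4,k3),(k8,k3)],[(k1,k6)],[(k10,k3)],[(k7,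
    k3),(k11,k3)],[(k4,k3),(k8,k3)],[(k9,k3)]]
    [] k0
    []
    []]⟩

/-- classes `0 0 1 2 1 2`, types `N0 N1 C0 N0 C0 N2` -/
noncomputable def cT6_1344 : CertT :=
  ⟨[k12,k13,k20,k44,k20,k46],[],[[[]]],
    [.lp [k6,k8,k6,k6,k6,k6] [k1,k1,k0,k0,k1,k1,k1,k1,k1,k1,k1,k1] k0 [] k24 k5
    [[(k9,k6)],[(k5,k6)],[(k2,k8)],[(k3,k8)],[(k0,k6)],[(k7,k6),(k11,k6)],[(k4,k6),(k8,k6)],[(k10,k6)],[(k1,k6)],[(k7,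
    k6),(k11,k6)],[(k4,k6),(k8,k6)],[(k6,k6)]]
    [] k0
    []
    []]⟩

/-- classes `0 0 1 2 1 2`, types `N0 N1 C0 N0 C2 N1` -/
noncomputable def cT6_1345 : CertT :=
  ⟨[k12,k13,k20,k44,k22,k45],[],[[[]]],
    [.lp [k6,k4,k0,k6,k6,k0] [k0,k0,k1,k1,k3,k3,k0,k0,k0,k0,k3,k3] k0 [] k12 k5
    [[(k6,k6)],[(k5,k3)],[(k2,k4)],[(k3,k4)],[(k0,k3)],[(k7,k3),(k8,k3)],[(k4,k3),(k11,k3)],[(k1,k6)],[(k10,k3)],[(k4,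
    k3),(k11,k3)],[(k7,k3),(k8,k3)],[(k9,k3)]]
    [] k0
    []
    []]⟩

/-- classes `0 0 1 2 1 2`, types `N0 N1 C0 N0 C2 N2` -/
noncomputable def cT6_1346 : CertT :=
  ⟨[k12,k13,k20,k44,k22,k46],[],[[[]]],
    [.lp [k6,k4,k0,k6,k6,k0] [k0,k0,k1,k1,k3,k3,k0,k0,k0,k0,k3,k3] k0 [] k12 k5
    [[(k9,k6)],[(k5,k3)],[(k2,k4)],[(k3,k4)],[(k0,k3)],[(k7,k3),(k8,k3)],[(k4,k3),(k11,k3)],[(k10,k3)],[(k1,k6)],[(k4,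
    k3),(k11,k3)],[(k7,k3),(k8,k3)],[(k6,k3)]]
    [] k0
    []
    []]⟩

/-- classes `0 0 1 2 1 2`, types `N0 N1 C0 S0 C0 S0` -/
noncomputable def cT6_1347 : CertT :=
  ⟨[k12,k13,k20,k32,k20,k32],[],[[[]]],
    [.lp [k12,k8,k6,k6,k6,k6] [k0,k0,k2,k2,k3,k3,k3,k3,k3,k3,k3,k3] k0 [] k24 k5
    [[(k6,k9),(k9,k9),(k10,k9),(k1,k12)],[(k5,k9)],[(k2,k8)],[(k3,k8)],[(k0,k9)],[(k7,k6),(k11,k6)],[(k4,k6),(k8,k6)],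
    [(k6,k6),(k9,k6),(k10,k6),(k1,k9)],[(k6,k6),(k9,k6),(k10,k6),(k1,k9)],[(k7,k6),(k11,k6)],[(k4,k6),(k8,k6)],[(k6,
    k6),(k9,k6),(k10,k6),(k1,k9)]]
    [] k0
    []
    []]⟩

/-- classes `0 0 1 2 1 2`, types `N0 N1 C0 S0 C2 S0` -/
noncomputable def cT6_1348 : CertT :=
  ⟨[k12,k13,k20,k32,k22,k32],[],[[[]]],
    [.lp [k12,k8,k6,k6,k6,k6] [k0,k0,k2,k2,k3,k3,k3,k3,k3,k3,k3,k3] k0 [] k24 k5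
    [[(k6,k9),(k9,k9),(k10,k9),(k1,k12)],[(k5,k9)],[(k2,k8)],[(k3,k8)],[(k0,k9)],[(k7,k6),(k8,k6)],[(k4,k6),(k11,k6)],
    [(k6,k6),(k9,k6),(k10,k6),(k1,k9)],[(k6,k6),(k9,k6),(k10,k6),(k1,k9)],[(k4,k6),(k11,k6)],[(k7,k6),(k8,k6)],[(k6,
    k6),(k9,k6),(k10,k6),(k1,k9)]]
    [] k0
    []
    []]⟩

/-- classes `0 0 1 2 1 2`, types `N0 N1 N0 N0 N1 N1` -/
noncomputable def cT6_1349 : CertT :=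
  ⟨[k12,k13,k28,k44,k29,k45],[],[[[]]],
    [.lp [k6,k8,k6,k6,k6,k6] [k1,k1,k0,k0,k1,k1,k1,k1,k1,k1,k1,k1] k0 [] k24 k5
    [[(k6,k6)],[(k5,k6)],[(k2,k8)],[(k3,k8)],[(k0,k6)],[(k11,k6)],[(k8,k6)],[(k1,k6)],[(k10,k6)],[(k7,k6)],[(k4,k6)],
    [(k9,k6)]]
    [] k0
    []
    []]⟩

/-- classes `0 0 1 2 1 2`, types `N0 N1 N0 N0 N1 N2` -/
noncomputable def cT6_1350 : CertT :=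
  ⟨[k12,k13,k28,k44,k29,k46],[],[[[]]],
    [.lp [k6,k8,k6,k6,k6,k6] [k1,k1,k0,k0,k1,k1,k1,k1,k1,k1,k1,k1] k0 [] k24 k5
    [[(k9,k6)],[(k5,k6)],[(k2,k8)],[(k3,k8)],[(k0,k6)],[(k11,k6)],[(k8,k6)],[(k10,k6)],[(k1,k6)],[(k7,k6)],[(k4,k6)],
    [(k6,k6)]]
    [] k0
    []
    []]⟩

/-- classes `0 0 1 2 1 2`, types `N0 N1 N0 N0 N2 N2` -/
noncomputable def cT6_1351 : CertT :=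
  ⟨[k12,k13,k28,k44,k30,k46],[],[[[]]],
    [.lp [k6,k4,k0,k6,k6,k0] [k0,k0,k1,k1,k3,k3,k0,k0,k0,k0,k3,k3] k0 [] k12 k5
    [[(k9,k6)],[(k5,k3)],[(k2,k4)],[(k3,k4)],[(k0,k3)],[(k8,k3)],[(k11,k3)],[(k10,k3)],[(k1,k6)],[(k4,k3)],[(k7,k3)],
    [(k6,k3)]]
    [] k0
    []
    []]⟩

/-- classes `0 0 1 2 1 2`, types `N0 N1 N0 S0 N1 S0` -/
noncomputable def cT6_1352 : CertT :=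
  ⟨[k12,k13,k28,k32,k29,k32],[],[[[]]],
    [.lp [k12,k8,k0,k6,k6,k12] [k0,k0,k2,k2,k6,k6,k3,k3,k3,k3,k0,k0] k0 [] k24 k5
    [[(k6,k9),(k9,k9),(k1,k12),(k10,k12)],[(k5,k6)],[(k2,k8)],[(k3,k8)],[(k0,k6)],[(k11,k6)],[(k8,k6)],[(k6,k6),(k9,
    k6),(k1,k9),(k10,k9)],[(k6,k6),(k9,k6),(k1,k9),(k10,k9)],[(k7,k6)],[(k4,k6)],[(k6,k9),(k9,k9),(k1,k12),(k10,k12)]]
    [] k0
    []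
    []]⟩

/-- classes `0 0 1 2 1 2`, types `N0 N1 N0 S0 N2 S0` -/
noncomputable def cT6_1353 : CertT :=
  ⟨[k12,k13,k28,k32,k30,k32],[],[[[]]],
    [.lp [k12,k8,k0,k6,k12,k6] [k0,k0,k2,k2,k6,k6,k3,k3,k0,k0,k3,k3] k0 [] k24 k5
    [[(k6,k9),(k10,k9),(k1,k12),(k9,k12)],[(k5,k6)],[(k2,k8)],[(k3,k8)],[(k0,k6)],[(k8,k6)],[(k11,k6)],[(k6,k6),(k10,
    k6),(k1,k9),(k9,k9)],[(k6,k9),(k10,k9),(k1,k12),(k9,k12)],[(k4,k6)],[(k7,k6)],[(k6,k6),(k10,k6),(k1,k9),(k9,k9)]]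
    [] k0
    []
    []]⟩

/-- classes `0 0 1 2 1 2`, types `N0 N1 S0 S0 S0 S0` -/
noncomputable def cT6_1354 : CertT :=
  ⟨[k12,k13,k16,k32,k16,k32],[],[[[]]],
    [.lp [k6,k8,k12,k6,k6,k6] [k3,k3,k2,k2,k0,k0,k3,k3,k3,k3,k3,k3] k0 [] k24 k5
    [[(k1,k6),(k6,k6),(k9,k6),(k10,k6)],[(k5,k9)],[(k2,k8)],[(k3,k8)],[(k0,k9)],[(k7,k9),(k8,k9),(k11,k9),(k4,k12)],
    [(k7,k6),(k8,k6),(k11,k6),(k4,k9)],[(k1,k6),(k6,k6),(k9,k6),(k10,k6)],[(k1,k6),(k6,k6),(k9,k6),(k10,k6)],[(k7,k6),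
    (k8,k6),(k11,k6),(k4,k9)],[(k7,k6),(k8,k6),(k11,k6),(k4,k9)],[(k1,k6),(k6,k6),(k9,k6),(k10,k6)]]
    [] k0
    []
    []]⟩

/-- classes `0 0 1 2 1 2`, types `N0 N2 B0 B0 B1 B1` -/
noncomputable def cT6_1355 : CertT :=
  ⟨[k12,k14,k24,k40,k25,k41],[],[[[]]],
    [.lp [k2,k2,k2,k2,k2,k2] [k0,k0,k0,k0,k0,k0,k0,k0,k0,k0,k0,k0] k0 [] k8 k5
    [[(k6,k2),(k9,k2)],[(k2,k2)],[(k5,k2)],[(k0,k2)],[(k3,k2)],[(k8,k2),(k11,k2)],[(k8,k2),(k11,k2)],[(k1,k2),(k10,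
    k2)],[(k1,k2),(k10,k2)],[(k4,k2),(k7,k2)],[(k4,k2),(k7,k2)],[(k6,k2),(k9,k2)]]
    [] k0
    []
    []]⟩

/-- classes `0 0 1 2 1 2`, types `N0 N2 B0 C0 B1 C0` -/
noncomputable def cT6_1356 : CertT :=
  ⟨[k12,k14,k24,k36,k25,k36],[],[[[]]],
    [.lp [k2,k2,k2,k2,k2,k2] [k0,k0,k0,k0,k0,k0,k0,k0,k0,k0,k0,k0] k0 [] k8 k5
    [[(k6,k2),(k10,k2)],[(k2,k2)],[(k5,k2)],[(k0,k2)],[(k3,k2)],[(k8,k2),(k11,k2)],[(k8,k2),(k11,k2)],[(k1,k2),(k9,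
    k2)],[(k6,k2),(k10,k2)],[(k4,k2),(k7,k2)],[(k4,k2),(k7,k2)],[(k1,k2),(k9,k2)]]
    [] k0
    []
    []]⟩

/-- classes `0 0 1 2 1 2`, types `N0 N2 B0 C0 B1 C2` -/
noncomputable def cT6_1357 : CertT :=
  ⟨[k12,k14,k24,k36,k25,k38],[],[[[]]],
    [.lp [k2,k0,k2,k2,k0,k0] [k0,k0,k1,k1,k0,k0,k0,k0,k1,k1,k1,k1] k0 [] k4 k5
    [[(k9,k1),(k10,k1)],[(k2,k1)],[(k5,k1)],[(k0,k1)],[(k3,k1)],[(k8,k1),(k11,k1)],[(k8,k1),(k11,k1)],[(k9,k1),(k10,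
    k1)],[(k1,k1),(k6,k1)],[(k4,k1),(k7,k1)],[(k4,k1),(k7,k1)],[(k1,k1),(k6,k1)]]
    [] k0
    []
    []]⟩

/-- classes `0 0 1 2 1 2`, types `N0 N2 B0 N0 B1 N1` -/
noncomputable def cT6_1358 : CertT :=
  ⟨[k12,k14,k24,k44,k25,k45],[],[[[]]],
    [.lp [k2,k2,k2,k2,k2,k2] [k0,k0,k0,k0,k0,k0,k0,k0,k0,k0,k0,k0] k0 [] k8 k5
    [[(k6,k2)],[(k2,k2)],[(k5,k2)],[(k0,k2)],[(k3,k2)],[(k8,k2),(k11,k2)],[(k8,k2),(k11,k2)],[(k1,k2)],[(k10,k2)],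
    [(k4,k2),(k7,k2)],[(k4,k2),(k7,k2)],[(k9,k2)]]
    [] k0
    []
    []]⟩

/-- classes `0 0 1 2 1 2`, types `N0 N2 B0 N0 B1 N2` -/
noncomputable def cT6_1359 : CertT :=
  ⟨[k12,k14,k24,k44,k25,k46],[],[[[]]],
    [.lp [k2,k0,k2,k2,k0,k0] [k0,k0,k1,k1,k0,k0,k0,k0,k1,k1,k1,k1] k0 [] k4 k5
    [[(k9,k1)],[(k2,k1)],[(k5,k1)],[(k0,k1)],[(k3,k1)],[(k8,k1),(k11,k1)],[(k8,k1),(k11,k1)],[(k10,k1)],[(k1,k1)],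
    [(k4,k1),(k7,k1)],[(k4,k1),(k7,k1)],[(k6,k1)]]
    [] k0
    []
    []]⟩

/-- classes `0 0 1 2 1 2`, types `N0 N2 B0 S0 B1 S0` -/
noncomputable def cT6_1360 : CertT :=
  ⟨[k12,k14,k24,k32,k25,k32],[],[[[]]],
    [.lp [k2,k2,k2,k2,k2,k2] [k0,k0,k0,k0,k0,k0,k0,k0,k0,k0,k0,k0] k0 [] k8 k5
    [[(k1,k2),(k6,k2),(k9,k2),(k10,k2)],[(k2,k2)],[(k5,k2)],[(k0,k2)],[(k3,k2)],[(k8,k2),(k11,k2)],[(k8,k2),(k11,k2)],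
    [(k1,k2),(k6,k2),(k9,k2),(k10,k2)],[(k1,k2),(k6,k2),(k9,k2),(k10,k2)],[(k4,k2),(k7,k2)],[(k4,k2),(k7,k2)],[(k1,
    k2),(k6,k2),(k9,k2),(k10,k2)]]
    [] k0
    []
    []]⟩

/-- classes `0 0 1 2 1 2`, types `N0 N2 C0 C0 C0 C0` -/
noncomputable def cT6_1361 : CertT :=
  ⟨[k12,k14,k20,k36,k20,k36],[],[[[]]],
    [.lp [k2,k0,k2,k0,k2,k0] [k0,k0,k1,k1,k0,k0,k1,k1,k0,k0,k1,k1] k0 [] k4 k5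
    [[(k6,k1),(k10,k1)],[(k2,k1)],[(k5,k1)],[(k0,k1)],[(k3,k1)],[(k7,k1),(k11,k1)],[(k4,k1),(k8,k1)],[(k1,k1),(k9,
    k1)],[(k6,k1),(k10,k1)],[(k7,k1),(k11,k1)],[(k4,k1),(k8,k1)],[(k1,k1),(k9,k1)]]
    [] k0
    []
    []]⟩

/-- classes `0 0 1 2 1 2`, types `N0 N2 C0 C0 C0 C2` -/
noncomputable def cT6_1362 : CertT :=
  ⟨[k12,k14,k20,k36,k20,k38],[],[[[]]],
    [.lp [k2,k2,k2,k2,k2,k2] [k0,k0,k0,k0,k0,k0,k0,k0,k0,k0,k0,k0] k0 [] k8 k5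
    [[(k9,k2),(k10,k2)],[(k2,k2)],[(k5,k2)],[(k0,k2)],[(k3,k2)],[(k7,k2),(k11,k2)],[(k4,k2),(k8,k2)],[(k9,k2),(k10,
    k2)],[(k1,k2),(k6,k2)],[(k7,k2),(k11,k2)],[(k4,k2),(k8,k2)],[(k1,k2),(k6,k2)]]
    [] k0
    []
    []]⟩

/-- classes `0 0 1 2 1 2`, types `N0 N2 C0 C0 C2 C2` -/
noncomputable def cT6_1363 : CertT :=
  ⟨[k12,k14,k20,k36,k22,k38],[],[[[]]],
    [.lp [k2,k2,k2,k2,k2,k2] [k0,k0,k0,k0,k0,k0,k0,k0,k0,k0,k0,k0] k0 [] k8 k5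
    [[(k9,k2),(k10,k2)],[(k2,k2)],[(k5,k2)],[(k0,k2)],[(k3,k2)],[(k7,k2),(k8,k2)],[(k4,k2),(k11,k2)],[(k9,k2),(k10,
    k2)],[(k1,k2),(k6,k2)],[(k4,k2),(k11,k2)],[(k7,k2),(k8,k2)],[(k1,k2),(k6,k2)]]
    [] k0
    []
    []]⟩

/-- classes `0 0 1 2 1 2`, types `N0 N2 C0 N0 C0 N1` -/
noncomputable def cT6_1364 : CertT :=
  ⟨[k12,k14,k20,k44,k20,k45],[],[[[]]],
    [.lp [k2,k0,k2,k0,k2,k0] [k0,k0,k1,k1,k0,k0,k1,k1,k0,k0,k1,k1] k0 [] k4 k5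
    [[(k6,k1)],[(k2,k1)],[(k5,k1)],[(k0,k1)],[(k3,k1)],[(k7,k1),(k11,k1)],[(k4,k1),(k8,k1)],[(k1,k1)],[(k10,k1)],[(k7,
    k1),(k11,k1)],[(k4,k1),(k8,k1)],[(k9,k1)]]
    [] k0
    []
    []]⟩

/-- classes `0 0 1 2 1 2`, types `N0 N2 C0 N0 C0 N2` -/
noncomputable def cT6_1365 : CertT :=
  ⟨[k12,k14,k20,k44,k20,k46],[],[[[]]],
    [.lp [k2,k2,k2,k2,k2,k2] [k0,k0,k0,k0,k0,k0,k0,k0,k0,k0,k0,k0] k0 [] k8 k5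
    [[(k9,k2)],[(k2,k2)],[(k5,k2)],[(k0,k2)],[(k3,k2)],[(k7,k2),(k11,k2)],[(k4,k2),(k8,k2)],[(k10,k2)],[(k1,k2)],[(k7,
    k2),(k11,k2)],[(k4,k2),(k8,k2)],[(k6,k2)]]
    [] k0
    []
    []]⟩

/-- classes `0 0 1 2 1 2`, types `N0 N2 C0 N0 C2 N1` -/
noncomputable def cT6_1366 : CertT :=
  ⟨[k12,k14,k20,k44,k22,k45],[],[[[]]],
    [.lp [k0,k2,k0,k2,k2,k0] [k1,k1,k0,k0,k1,k1,k0,k0,k0,k0,k1,k1] k0 [] k4 k5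
    [[(k6,k1)],[(k2,k1)],[(k5,k1)],[(k0,k1)],[(k3,k1)],[(k7,k1),(k8,k1)],[(k4,k1),(k11,k1)],[(k1,k1)],[(k10,k1)],[(k4,
    k1),(k11,k1)],[(k7,k1),(k8,k1)],[(k9,k1)]]
    [] k0
    []
    []]⟩

/-- classes `0 0 1 2 1 2`, types `N0 N2 C0 N0 C2 N2` -/
noncomputable def cT6_1367 : CertT :=
  ⟨[k12,k14,k20,k44,k22,k46],[],[[[]]],
    [.lp [k0,k2,k0,k2,k2,k0] [k1,k1,k0,k0,k1,k1,k0,k0,k0,k0,k1,k1] k0 [] k4 k5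
    [[(k9,k1)],[(k2,k1)],[(k5,k1)],[(k0,k1)],[(k3,k1)],[(k7,k1),(k8,k1)],[(k4,k1),(k11,k1)],[(k10,k1)],[(k1,k1)],[(k4,
    k1),(k11,k1)],[(k7,k1),(k8,k1)],[(k6,k1)]]
    [] k0
    []
    []]⟩

/-- classes `0 0 1 2 1 2`, types `N0 N2 C0 S0 C0 S0` -/
noncomputable def cT6_1368 : CertT :=
  ⟨[k12,k14,k20,k32,k20,k32],[],[[[]]],
    [.lp [k2,k2,k2,k2,k2,k2] [k0,k0,k0,k0,k0,k0,k0,k0,k0,k0,k0,k0] k0 [] k8 k5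
    [[(k1,k2),(k6,k2),(k9,k2),(k10,k2)],[(k2,k2)],[(k5,k2)],[(k0,k2)],[(k3,k2)],[(k7,k2),(k11,k2)],[(k4,k2),(k8,k2)],
    [(k1,k2),(k6,k2),(k9,k2),(k10,k2)],[(k1,k2),(k6,k2),(k9,k2),(k10,k2)],[(k7,k2),(k11,k2)],[(k4,k2),(k8,k2)],[(k1,
    k2),(k6,k2),(k9,k2),(k10,k2)]]
    [] k0
    []
    []]⟩

/-- classes `0 0 1 2 1 2`, types `N0 N2 C0 S0 C2 S0` -/
noncomputable def cT6_1369 : CertT :=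
  ⟨[k12,k14,k20,k32,k22,k32],[],[[[]]],
    [.lp [k2,k2,k2,k2,k2,k2] [k0,k0,k0,k0,k0,k0,k0,k0,k0,k0,k0,k0] k0 [] k8 k5
    [[(k1,k2),(k6,k2),(k9,k2),(k10,k2)],[(k2,k2)],[(k5,k2)],[(k0,k2)],[(k3,k2)],[(k7,k2),(k8,k2)],[(k4,k2),(k11,k2)],
    [(k1,k2),(k6,k2),(k9,k2),(k10,k2)],[(k1,k2),(k6,k2),(k9,k2),(k10,k2)],[(k4,k2),(k11,k2)],[(k7,k2),(k8,k2)],[(k1,
    k2),(k6,k2),(k9,k2),(k10,k2)]]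
    [] k0
    []
    []]⟩

/-- classes `0 0 1 2 1 2`, types `N0 N2 N0 N0 N1 N1` -/
noncomputable def cT6_1370 : CertT :=
  ⟨[k12,k14,k28,k44,k29,k45],[],[[[]]],
    [.lp [k2,k0,k2,k0,k2,k0] [k0,k0,k1,k1,k0,k0,k1,k1,k0,k0,k1,k1] k0 [] k4 k5
    [[(k6,k1)],[(k2,k1)],[(k5,k1)],[(k0,k1)],[(k3,k1)],[(k11,k1)],[(k8,k1)],[(k1,k1)],[(k10,k1)],[(k7,k1)],[(k4,k1)],
    [(k9,k1)]]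
    [] k0
    []
    []]⟩

/-- classes `0 0 1 2 1 2`, types `N0 N2 N0 N0 N1 N2` -/
noncomputable def cT6_1371 : CertT :=
  ⟨[k12,k14,k28,k44,k29,k46],[],[[[]]],
    [.lp [k2,k0,k2,k2,k0,k0] [k0,k0,k1,k1,k0,k0,k0,k0,k1,k1,k1,k1] k0 [] k4 k5
    [[(k9,k1)],[(k2,k1)],[(k5,k1)],[(k0,k1)],[(k3,k1)],[(k11,k1)],[(k8,k1)],[(k10,k1)],[(k1,k1)],[(k7,k1)],[(k4,k1)],
    [(k6,k1)]]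
    [] k0
    []
    []]⟩

/-- classes `0 0 1 2 1 2`, types `N0 N2 N0 N0 N2 N2` -/
noncomputable def cT6_1372 : CertT :=
  ⟨[k12,k14,k28,k44,k30,k46],[],[[[]]],
    [.lp [k0,k2,k0,k2,k2,k0] [k1,k1,k0,k0,k1,k1,k0,k0,k0,k0,k1,k1] k0 [] k4 k5
    [[(k9,k1)],[(k2,k1)],[(k5,k1)],[(k0,k1)],[(k3,k1)],[(k8,k1)],[(k11,k1)],[(k10,k1)],[(k1,k1)],[(k4,k1)],[(k7,k1)],
    [(k6,k1)]]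
    [] k0
    []
    []]⟩

/-- the certificates of this file -/
noncomputable def lT6_11 : List CertT :=
  [cT6_1148, cT6_1149, cT6_1150, cT6_1151, cT6_1152, cT6_1153, cT6_1154, cT6_1155, cT6_1156, cT6_1157,
      cT6_1158, cT6_1159, cT6_1160, cT6_1161, cT6_1162, cT6_1163, cT6_1164, cT6_1165, cT6_1166, cT6_1167,
      cT6_1168, cT6_1169, cT6_1170, cT6_1171, cT6_1172, cT6_1173, cT6_1174, cT6_1175, cT6_1176, cT6_1177,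
      cT6_1178, cT6_1179, cT6_1180, cT6_1181, cT6_1182, cT6_1183, cT6_1184, cT6_1185, cT6_1186, cT6_1187,
      cT6_1188, cT6_1189, cT6_1190, cT6_1191, cT6_1192, cT6_1193, cT6_1194, cT6_1195, cT6_1196, cT6_1197,
      cT6_1198, cT6_1199, cT6_1200, cT6_1201, cT6_1202, cT6_1203, cT6_1204, cT6_1205, cT6_1206, cT6_1207,
      cT6_1208, cT6_1209, cT6_1210, cT6_1211, cT6_1212, cT6_1213, cT6_1214, cT6_1215, cT6_1216, cT6_1217,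
      cT6_1218, cT6_1219, cT6_1220, cT6_1221, cT6_1222, cT6_1223, cT6_1224, cT6_1225, cT6_1226, cT6_1227,
      cT6_1228, cT6_1229, cT6_1230, cT6_1231, cT6_1232, cT6_1233, cT6_1234, cT6_1235, cT6_1236, cT6_1237,
      cT6_1238, cT6_1239, cT6_1240, cT6_1241, cT6_1242, cT6_1243, cT6_1244, cT6_1245, cT6_1246, cT6_1247,
      cT6_1248, cT6_1249, cT6_1250, cT6_1251, cT6_1252, cT6_1253, cT6_1254, cT6_1255, cT6_1256, cT6_1257,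
      cT6_1258, cT6_1259, cT6_1260, cT6_1261, cT6_1262, cT6_1263, cT6_1264, cT6_1265, cT6_1266, cT6_1267,
      cT6_1268, cT6_1269, cT6_1270, cT6_1271, cT6_1272, cT6_1273, cT6_1274, cT6_1275, cT6_1276, cT6_1277,
      cT6_1278, cT6_1279, cT6_1280, cT6_1281, cT6_1282, cT6_1283, cT6_1284, cT6_1285, cT6_1286, cT6_1287,
      cT6_1288, cT6_1289, cT6_1290, cT6_1291, cT6_1292, cT6_1293, cT6_1294, cT6_1295, cT6_1296, cT6_1297,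
      cT6_1298, cT6_1299, cT6_1300, cT6_1301, cT6_1302, cT6_1303, cT6_1304, cT6_1305, cT6_1306, cT6_1307,
      cT6_1308, cT6_1309, cT6_1310, cT6_1311, cT6_1312, cT6_1313, cT6_1314, cT6_1315, cT6_1316, cT6_1317,
      cT6_1318, cT6_1319, cT6_1320, cT6_1321, cT6_1322, cT6_1323, cT6_1324, cT6_1325, cT6_1326, cT6_1327,
      cT6_1328, cT6_1329, cT6_1330, cT6_1331, cT6_1332, cT6_1333, cT6_1334, cT6_1335, cT6_1336, cT6_1337,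
      cT6_1338, cT6_1339, cT6_1340, cT6_1341, cT6_1342, cT6_1343, cT6_1344, cT6_1345, cT6_1346, cT6_1347,
      cT6_1348, cT6_1349, cT6_1350, cT6_1351, cT6_1352, cT6_1353, cT6_1354, cT6_1355, cT6_1356, cT6_1357,
      cT6_1358, cT6_1359, cT6_1360, cT6_1361, cT6_1362, cT6_1363, cT6_1364, cT6_1365, cT6_1366, cT6_1367,
      cT6_1368, cT6_1369, cT6_1370, cT6_1371, cT6_1372]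

theorem gT6_11 : allF (chkC 6 tt6) lT6_11 = true := by
  decide +kernel

end Pool.Agent.Lib_MP_fa6e45
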