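import Pool.Agent.Lib_MP_fa6e45.CSTT
import Pool.Agent.Lib_MP_fa6e45.HK

/-!
MP_fa6e45_co, stage 5: certificates (captain, generated by a program).
-/

namespace Pool.Agent.Lib_MP_fa6e45

/-- classes `0 0 1 2 1 2`, types `N0 N2 N0 S0 N1 S0` -/
noncomputable def cT6_1373 : CertT :=
  ⟨[k12,k14,k28,k32,k29,k32],[],[[[]]],
    [.lp [k2,k2,k2,k2,k2,k2] [k0,k0,k0,k0,k0,k0,k0,k0,k0,k0,k0,k0] k0 [] k8 k5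
    [[(k1,k2),(k6,k2),(k9,k2),(k10,k2)],[(k2,k2)],[(k5,k2)],[(k0,k2)],[(k3,k2)],[(k11,k2)],[(k8,k2)],[(k1,k2),(k6,k2),
    (k9,k2),(k10,k2)],[(k1,k2),(k6,k2),(k9,k2),(k10,k2)],[(k7,k2)],[(k4,k2)],[(k1,k2),(k6,k2),(k9,k2),(k10,k2)]]
    [] k0
    []
    []]⟩

/-- classes `0 0 1 2 1 2`, types `N0 N2 N0 S0 N2 S0` -/
noncomputable def cT6_1374 : CertT :=
  ⟨[k12,k14,k28,k32,k30,k32],[],[[[]]],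
    [.lp [k2,k2,k2,k2,k2,k2] [k0,k0,k0,k0,k0,k0,k0,k0,k0,k0,k0,k0] k0 [] k8 k5
    [[(k1,k2),(k6,k2),(k9,k2),(k10,k2)],[(k2,k2)],[(k5,k2)],[(k0,k2)],[(k3,k2)],[(k8,k2)],[(k11,k2)],[(k1,k2),(k6,k2),
    (k9,k2),(k10,k2)],[(k1,k2),(k6,k2),(k9,k2),(k10,k2)],[(k4,k2)],[(k7,k2)],[(k1,k2),(k6,k2),(k9,k2),(k10,k2)]]
    [] k0
    []
    []]⟩

/-- classes `0 0 1 2 1 2`, types `N0 N2 S0 S0 S0 S0` -/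
noncomputable def cT6_1375 : CertT :=
  ⟨[k12,k14,k16,k32,k16,k32],[],[[[]]],
    [.lp [k2,k2,k2,k2,k2,k2] [k0,k0,k0,k0,k0,k0,k0,k0,k0,k0,k0,k0] k0 [] k8 k5
    [[(k1,k2),(k6,k2),(k9,k2),(k10,k2)],[(k2,k2)],[(k5,k2)],[(k0,k2)],[(k3,k2)],[(k4,k2),(k7,k2),(k8,k2),(k11,k2)],
    [(k4,k2),(k7,k2),(k8,k2),(k11,k2)],[(k1,k2),(k6,k2),(k9,k2),(k10,k2)],[(k1,k2),(k6,k2),(k9,k2),(k10,k2)],[(k4,k2),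
    (k7,k2),(k8,k2),(k11,k2)],[(k4,k2),(k7,k2),(k8,k2),(k11,k2)],[(k1,k2),(k6,k2),(k9,k2),(k10,k2)]]
    [] k0
    []
    []]⟩

/-- classes `0 0 1 2 1 2`, types `S0 S0 B0 B0 B1 B1` -/
noncomputable def cT6_1376 : CertT :=
  ⟨[k0,k0,k24,k40,k25,k41],[],[[[]]],
    [.lp [k18,k16,k12,k6,k18,k18] [k0,k0,k1,k1,k3,k3,k6,k6,k0,k0,k0,k0] k0 [] k48 k5
    [[(k6,k12),(k9,k18)],[(k5,k15),(k2,k17),(k3,k17),(k0,k18)],[(k5,k14),(k2,k16),(k3,k16),(k0,k17)],[(k5,k14),(k2,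
    k16),(k3,k16),(k0,k17)],[(k5,k12),(k2,k14),(k3,k14),(k0,k15)],[(k8,k15),(k11,k15)],[(k8,k12),(k11,k12)],[(k1,k12),
    (k10,k12)],[(k1,k18),(k10,k18)],[(k7,k12),(k4,k15)],[(k7,k12),(k4,k15)],[(k6,k12),(k9,k18)]]
    [] k0
    []
    []]⟩

/-- classes `0 0 1 2 1 2`, types `S0 S0 B0 C0 B1 C0` -/
noncomputable def cT6_1377 : CertT :=
  ⟨[k0,k0,k24,k36,k25,k36],[],[[[]]],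
    [.lp [k12,k8,k6,k6,k6,k6] [k0,k0,k2,k2,k3,k3,k3,k3,k3,k3,k3,k3] k0 [] k24 k5
    [[(k6,k9),(k10,k9)],[(k5,k9),(k2,k10),(k3,k10),(k0,k12)],[(k5,k7),(k2,k8),(k3,k8),(k0,k10)],[(k5,k7),(k2,k8),(k3,
    k8),(k0,k10)],[(k5,k6),(k2,k7),(k3,k7),(k0,k9)],[(k8,k6),(k11,k6)],[(k8,k6),(k11,k6)],[(k9,k6),(k1,k9)],[(k6,k6),
    (k10,k6)],[(k4,k6),(k7,k6)],[(k4,k6),(k7,k6)],[(k9,k6),(k1,k9)]]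
    [] k0
    []
    []]⟩

/-- classes `0 0 1 2 1 2`, types `S0 S0 B0 C0 B1 C2` -/
noncomputable def cT6_1378 : CertT :=
  ⟨[k0,k0,k24,k36,k25,k38],[],[[[]]],
    [.lp [k12,k8,k6,k6,k6,k6] [k0,k0,k2,k2,k3,k3,k3,k3,k3,k3,k3,k3] k0 [] k24 k5
    [[(k9,k9),(k10,k9)],[(k5,k9),(k2,k10),(k3,k10),(k0,k12)],[(k5,k7),(k2,k8),(k3,k8),(k0,k10)],[(k5,k7),(k2,k8),(k3,
    k8),(k0,k10)],[(k5,k6),(k2,k7),(k3,k7),(k0,k9)],[(k8,k6),(k11,k6)],[(k8,k6),(k11,k6)],[(k9,k6),(k10,k6)],[(k6,k6),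
    (k1,k9)],[(k4,k6),(k7,k6)],[(k4,k6),(k7,k6)],[(k6,k6),(k1,k9)]]
    [] k0
    []
    []]⟩

/-- classes `0 0 1 2 1 2`, types `S0 S0 B0 N0 B1 N1` -/
noncomputable def cT6_1379 : CertT :=
  ⟨[k0,k0,k24,k44,k25,k45],[],[[[]]],
    [.lp [k6,k8,k6,k6,k6,k6] [k1,k1,k0,k0,k1,k1,k1,k1,k1,k1,k1,k1] k0 [] k24 k5
    [[(k6,k6)],[(k0,k6),(k5,k6),(k2,k7),(k3,k7)],[(k0,k7),(k5,k7),(k2,k8),(k3,k8)],[(k0,k7),(k5,k7),(k2,k8),(k3,k8)],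
    [(k0,k6),(k5,k6),(k2,k7),(k3,k7)],[(k8,k6),(k11,k6)],[(k8,k6),(k11,k6)],[(k1,k6)],[(k10,k6)],[(k4,k6),(k7,k6)],
    [(k4,k6),(k7,k6)],[(k9,k6)]]
    [] k0
    []
    []]⟩

/-- classes `0 0 1 2 1 2`, types `S0 S0 B0 N0 B1 N2` -/
noncomputable def cT6_1380 : CertT :=
  ⟨[k0,k0,k24,k44,k25,k46],[],[[[]]],
    [.lp [k12,k8,k6,k6,k6,k6] [k0,k0,k2,k2,k3,k3,k3,k3,k3,k3,k3,k3] k0 [] k24 k5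
    [[(k9,k9)],[(k5,k9),(k2,k10),(k3,k10),(k0,k12)],[(k5,k7),(k2,k8),(k3,k8),(k0,k10)],[(k5,k7),(k2,k8),(k3,k8),(k0,
    k10)],[(k5,k6),(k2,k7),(k3,k7),(k0,k9)],[(k8,k6),(k11,k6)],[(k8,k6),(k11,k6)],[(k10,k6)],[(k1,k9)],[(k4,k6),(k7,
    k6)],[(k4,k6),(k7,k6)],[(k6,k6)]]
    [] k0
    []
    []]⟩

/-- classes `0 0 1 2 1 2`, types `S0 S0 B0 S0 B1 S0` -/
noncomputable def cT6_1381 : CertT :=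
  ⟨[k0,k0,k24,k32,k25,k32],[],[[[]]],
    [.lp [k12,k8,k6,k6,k6,k6] [k0,k0,k2,k2,k3,k3,k3,k3,k3,k3,k3,k3] k0 [] k24 k5
    [[(k6,k9),(k9,k9),(k10,k9),(k1,k12)],[(k5,k9),(k2,k10),(k3,k10),(k0,k12)],[(k5,k7),(k2,k8),(k3,k8),(k0,k10)],[(k5,
    k7),(k2,k8),(k3,k8),(k0,k10)],[(k5,k6),(k2,k7),(k3,k7),(k0,k9)],[(k8,k6),(k11,k6)],[(k8,k6),(k11,k6)],[(k6,k6),
    (k9,k6),(k10,k6),(k1,k9)],[(k6,k6),(k9,k6),(k10,k6),(k1,k9)],[(k4,k6),(k7,k6)],[(k4,k6),(k7,k6)],[(k6,k6),(k9,k6),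
    (k10,k6),(k1,k9)]]
    [] k0
    []
    []]⟩

/-- classes `0 0 1 2 1 2`, types `S0 S0 C0 C0 C0 C0` -/
noncomputable def cT6_1382 : CertT :=
  ⟨[k0,k0,k20,k36,k20,k36],[],[[[]]],
    [.lp [k12,k8,k6,k6,k6,k6] [k0,k0,k2,k2,k3,k3,k3,k3,k3,k3,k3,k3] k0 [] k24 k5
    [[(k6,k9),(k10,k9)],[(k5,k9),(k2,k10),(k3,k10),(k0,k12)],[(k5,k7),(k2,k8),(k3,k8),(k0,k10)],[(k5,k7),(k2,k8),(k3,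
    k8),(k0,k10)],[(k5,k6),(k2,k7),(k3,k7),(k0,k9)],[(k7,k6),(k11,k6)],[(k4,k6),(k8,k6)],[(k9,k6),(k1,k9)],[(k6,k6),
    (k10,k6)],[(k7,k6),(k11,k6)],[(k4,k6),(k8,k6)],[(k9,k6),(k1,k9)]]
    [] k0
    []
    []]⟩

/-- classes `0 0 1 2 1 2`, types `S0 S0 C0 C0 C0 C2` -/
noncomputable def cT6_1383 : CertT :=
  ⟨[k0,k0,k20,k36,k20,k38],[],[[[]]],
    [.lp [k12,k8,k6,k6,k6,k6] [k0,k0,k2,k2,k3,k3,k3,k3,k3,k3,k3,k3] k0 [] k24 k5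
    [[(k9,k9),(k10,k9)],[(k5,k9),(k2,k10),(k3,k10),(k0,k12)],[(k5,k7),(k2,k8),(k3,k8),(k0,k10)],[(k5,k7),(k2,k8),(k3,
    k8),(k0,k10)],[(k5,k6),(k2,k7),(k3,k7),(k0,k9)],[(k7,k6),(k11,k6)],[(k4,k6),(k8,k6)],[(k9,k6),(k10,k6)],[(k6,k6),
    (k1,k9)],[(k7,k6),(k11,k6)],[(k4,k6),(k8,k6)],[(k6,k6),(k1,k9)]]
    [] k0
    []
    []]⟩

/-- classes `0 0 1 2 1 2`, types `S0 S0 C0 C0 C2 C2` -/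
noncomputable def cT6_1384 : CertT :=
  ⟨[k0,k0,k20,k36,k22,k38],[],[[[]]],
    [.lp [k12,k8,k6,k6,k6,k6] [k0,k0,k2,k2,k3,k3,k3,k3,k3,k3,k3,k3] k0 [] k24 k5
    [[(k9,k9),(k10,k9)],[(k5,k9),(k2,k10),(k3,k10),(k0,k12)],[(k5,k7),(k2,k8),(k3,k8),(k0,k10)],[(k5,k7),(k2,k8),(k3,
    k8),(k0,k10)],[(k5,k6),(k2,k7),(k3,k7),(k0,k9)],[(k7,k6),(k8,k6)],[(k4,k6),(k11,k6)],[(k9,k6),(k10,k6)],[(k6,k6),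
    (k1,k9)],[(k4,k6),(k11,k6)],[(k7,k6),(k8,k6)],[(k6,k6),(k1,k9)]]
    [] k0
    []
    []]⟩

/-- classes `0 0 1 2 1 2`, types `S0 S0 C0 N0 C0 N1` -/
noncomputable def cT6_1385 : CertT :=
  ⟨[k0,k0,k20,k44,k20,k45],[],[[[]]],
    [.lp [k12,k8,k6,k6,k6,k6] [k0,k0,k2,k2,k3,k3,k3,k3,k3,k3,k3,k3] k0 [] k24 k5
    [[(k6,k9)],[(k5,k9),(k2,k10),(k3,k10),(k0,k12)],[(k5,k7),(k2,k8),(k3,k8),(k0,k10)],[(k5,k7),(k2,k8),(k3,k8),(k0,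
    k10)],[(k5,k6),(k2,k7),(k3,k7),(k0,k9)],[(k7,k6),(k11,k6)],[(k4,k6),(k8,k6)],[(k1,k9)],[(k10,k6)],[(k7,k6),(k11,
    k6)],[(k4,k6),(k8,k6)],[(k9,k6)]]
    [] k0
    []
    []]⟩

/-- classes `0 0 1 2 1 2`, types `S0 S0 C0 N0 C0 N2` -/
noncomputable def cT6_1386 : CertT :=
  ⟨[k0,k0,k20,k44,k20,k46],[],[[[]]],
    [.lp [k6,k8,k6,k6,k6,k6] [k1,k1,k0,k0,k1,k1,k1,k1,k1,k1,k1,k1] k0 [] k24 k5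
    [[(k9,k6)],[(k0,k6),(k5,k6),(k2,k7),(k3,k7)],[(k0,k7),(k5,k7),(k2,k8),(k3,k8)],[(k0,k7),(k5,k7),(k2,k8),(k3,k8)],
    [(k0,k6),(k5,k6),(k2,k7),(k3,k7)],[(k7,k6),(k11,k6)],[(k4,k6),(k8,k6)],[(k10,k6)],[(k1,k6)],[(k7,k6),(k11,k6)],
    [(k4,k6),(k8,k6)],[(k6,k6)]]
    [] k0
    []
    []]⟩

/-- classes `0 0 1 2 1 2`, types `S0 S0 C0 N0 C2 N1` -/
noncomputable def cT6_1387 : CertT :=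
  ⟨[k0,k0,k20,k44,k22,k45],[],[[[]]],
    [.lp [k6,k4,k6,k0,k0,k6] [k0,k0,k1,k1,k0,k0,k3,k3,k3,k3,k0,k0] k0 [] k12 k5
    [[(k6,k3)],[(k2,k5),(k3,k5),(k0,k6),(k5,k6)],[(k2,k4),(k3,k4),(k0,k5),(k5,k5)],[(k2,k4),(k3,k4),(k0,k5),(k5,k5)],
    [(k2,k5),(k3,k5),(k0,k6),(k5,k6)],[(k7,k3),(k8,k3)],[(k4,k3),(k11,k3)],[(k1,k3)],[(k10,k3)],[(k4,k3),(k11,k3)],
    [(k7,k3),(k8,k3)],[(k9,k3)]]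
    [] k0
    []
    []]⟩

/-- classes `0 0 1 2 1 2`, types `S0 S0 C0 N0 C2 N2` -/
noncomputable def cT6_1388 : CertT :=
  ⟨[k0,k0,k20,k44,k22,k46],[],[[[]]],
    [.lp [k6,k4,k6,k0,k0,k6] [k0,k0,k1,k1,k0,k0,k3,k3,k3,k3,k0,k0] k0 [] k12 k5
    [[(k9,k3)],[(k2,k5),(k3,k5),(k0,k6),(k5,k6)],[(k2,k4),(k3,k4),(k0,k5),(k5,k5)],[(k2,k4),(k3,k4),(k0,k5),(k5,k5)],
    [(k2,k5),(k3,k5),(k0,k6),(k5,k6)],[(k7,k3),(k8,k3)],[(k4,k3),(k11,k3)],[(k10,k3)],[(k1,k3)],[(k4,k3),(k11,k3)],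
    [(k7,k3),(k8,k3)],[(k6,k3)]]
    [] k0
    []
    []]⟩

/-- classes `0 0 1 2 1 2`, types `S0 S0 C0 S0 C0 S0` -/
noncomputable def cT6_1389 : CertT :=
  ⟨[k0,k0,k20,k32,k20,k32],[],[[[]]],
    [.lp [k8,k8,k10,k6,k6,k6] [k1,k1,k1,k1,k0,k0,k2,k2,k2,k2,k2,k2] k0 [] k24 k5
    [[(k6,k7),(k9,k7),(k10,k7),(k1,k8)],[(k0,k8),(k2,k8),(k3,k8),(k5,k9)],[(k0,k8),(k2,k8),(k3,k8),(k5,k9)],[(k0,k8),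
    (k2,k8),(k3,k8),(k5,k9)],[(k0,k9),(k2,k9),(k3,k9),(k5,k10)],[(k7,k8),(k11,k8)],[(k8,k6),(k4,k8)],[(k6,k6),(k9,k6),
    (k10,k6),(k1,k7)],[(k6,k6),(k9,k6),(k10,k6),(k1,k7)],[(k7,k6),(k11,k6)],[(k8,k6),(k4,k8)],[(k6,k6),(k9,k6),(k10,
    k6),(k1,k7)]]
    [] k0
    []
    []]⟩

/-- classes `0 0 1 2 1 2`, types `S0 S0 C0 S0 C2 S0` -/
noncomputable def cT6_1390 : CertT :=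
  ⟨[k0,k0,k20,k32,k22,k32],[],[[[]]],
    [.lp [k8,k8,k10,k6,k6,k6] [k1,k1,k1,k1,k0,k0,k2,k2,k2,k2,k2,k2] k0 [] k24 k5
    [[(k6,k7),(k9,k7),(k10,k7),(k1,k8)],[(k0,k8),(k2,k8),(k3,k8),(k5,k9)],[(k0,k8),(k2,k8),(k3,k8),(k5,k9)],[(k0,k8),
    (k2,k8),(k3,k8),(k5,k9)],[(k0,k9),(k2,k9),(k3,k9),(k5,k10)],[(k7,k8),(k8,k8)],[(k11,k6),(k4,k8)],[(k6,k6),(k9,k6),
    (k10,k6),(k1,k7)],[(k6,k6),(k9,k6),(k10,k6),(k1,k7)],[(k11,k6),(k4,k8)],[(k7,k6),(k8,k6)],[(k6,k6),(k9,k6),(k10,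
    k6),(k1,k7)]]
    [] k0
    []
    []]⟩

/-- classes `0 0 1 2 1 2`, types `S0 S0 N0 N0 N1 N1` -/
noncomputable def cT6_1391 : CertT :=
  ⟨[k0,k0,k28,k44,k29,k45],[],[[[]]],
    [.lp [k6,k8,k6,k6,k6,k6] [k1,k1,k0,k0,k1,k1,k1,k1,k1,k1,k1,k1] k0 [] k24 k5
    [[(k6,k6)],[(k0,k6),(k5,k6),(k2,k7),(k3,k7)],[(k0,k7),(k5,k7),(k2,k8),(k3,k8)],[(k0,k7),(k5,k7),(k2,k8),(k3,k8)],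
    [(k0,k6),(k5,k6),(k2,k7),(k3,k7)],[(k11,k6)],[(k8,k6)],[(k1,k6)],[(k10,k6)],[(k7,k6)],[(k4,k6)],[(k9,k6)]]
    [] k0
    []
    []]⟩

/-- classes `0 0 1 2 1 2`, types `S0 S0 N0 N0 N1 N2` -/
noncomputable def cT6_1392 : CertT :=
  ⟨[k0,k0,k28,k44,k29,k46],[],[[[]]],
    [.lp [k6,k8,k6,k6,k6,k6] [k1,k1,k0,k0,k1,k1,k1,k1,k1,k1,k1,k1] k0 [] k24 k5
    [[(k9,k6)],[(k0,k6),(k5,k6),(k2,k7),(k3,k7)],[(k0,k7),(k5,k7),(k2,k8),(k3,k8)],[(k0,k7),(k5,k7),(k2,k8),(k3,k8)],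
    [(k0,k6),(k5,k6),(k2,k7),(k3,k7)],[(k11,k6)],[(k8,k6)],[(k10,k6)],[(k1,k6)],[(k7,k6)],[(k4,k6)],[(k6,k6)]]
    [] k0
    []
    []]⟩

/-- classes `0 0 1 2 1 2`, types `S0 S0 N0 N0 N2 N2` -/
noncomputable def cT6_1393 : CertT :=
  ⟨[k0,k0,k28,k44,k30,k46],[],[[[]]],
    [.lp [k12,k8,k6,k0,k6,k12] [k0,k0,k2,k2,k3,k3,k6,k6,k3,k3,k0,k0] k0 [] k24 k5
    [[(k9,k9)],[(k5,k9),(k2,k10),(k3,k10),(k0,k12)],[(k5,k7),(k2,k8),(k3,k8),(k0,k10)],[(k5,k7),(k2,k8),(k3,k8),(k0,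
    k10)],[(k5,k6),(k2,k7),(k3,k7),(k0,k9)],[(k8,k6)],[(k11,k6)],[(k10,k6)],[(k1,k9)],[(k4,k6)],[(k7,k6)],[(k6,k6)]]
    [] k0
    []
    []]⟩

/-- classes `0 0 1 2 1 2`, types `S0 S0 N0 S0 N1 S0` -/
noncomputable def cT6_1394 : CertT :=
  ⟨[k0,k0,k28,k32,k29,k32],[],[[[]]],
    [.lp [k8,k8,k6,k6,k6,k10] [k1,k1,k1,k1,k2,k2,k2,k2,k2,k2,k0,k0] k0 [] k24 k5
    [[(k6,k7),(k9,k7),(k1,k8),(k10,k9)],[(k5,k7),(k0,k8),(k2,k8),(k3,k8)],[(k5,k7),(k0,k8),(k2,k8),(k3,k8)],[(k5,k7),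
    (k0,k8),(k2,k8),(k3,k8)],[(k5,k6),(k0,k7),(k2,k7),(k3,k7)],[(k11,k8)],[(k8,k6)],[(k6,k6),(k9,k6),(k1,k7),(k10,
    k8)],[(k6,k6),(k9,k6),(k1,k7),(k10,k8)],[(k7,k6)],[(k4,k8)],[(k6,k8),(k9,k8),(k1,k9),(k10,k10)]]
    [] k0
    []
    []]⟩

/-- classes `0 0 1 2 1 2`, types `S0 S0 N0 S0 N2 S0` -/
noncomputable def cT6_1395 : CertT :=
  ⟨[k0,k0,k28,k32,k30,k32],[],[[[]]],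
    [.lp [k8,k8,k6,k6,k10,k6] [k1,k1,k1,k1,k2,k2,k2,k2,k0,k0,k2,k2] k0 [] k24 k5
    [[(k6,k7),(k10,k7),(k1,k8),(k9,k9)],[(k5,k7),(k0,k8),(k2,k8),(k3,k8)],[(k5,k7),(k0,k8),(k2,k8),(k3,k8)],[(k5,k7),
    (k0,k8),(k2,k8),(k3,k8)],[(k5,k6),(k0,k7),(k2,k7),(k3,k7)],[(k8,k8)],[(k11,k6)],[(k6,k6),(k10,k6),(k1,k7),(k9,
    k8)],[(k6,k8),(k10,k8),(k1,k9),(k9,k10)],[(k4,k8)],[(k7,k6)],[(k6,k6),(k10,k6),(k1,k7),(k9,k8)]]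
    [] k0
    []
    []]⟩

/-- classes `0 0 1 2 1 3`, types `B0 B1 B0 C0 B1 C0` -/
noncomputable def cT6_1396 : CertT :=
  ⟨[k8,k9,k24,k36,k25,k52],[],[[[]]],
    [.lp [k6,k4,k6,k6,k0,k0] [k0,k0,k1,k1,k0,k0,k0,k0,k3,k3,k3,k3] k0 [] k12 k5
    [[(k10,k3)],[(k2,k5),(k5,k6)],[(k2,k4),(k5,k5)],[(k3,k4),(k0,k5)],[(k3,k5),(k0,k6)],[(k8,k3),(k11,k3)],[(k8,k3),
    (k11,k3)],[(k9,k3)],[(k6,k3)],[(k4,k3),(k7,k3)],[(k4,k3),(k7,k3)],[(k1,k3)]]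
    [] k0
    []
    []]⟩

/-- classes `0 0 1 2 1 3`, types `B0 B1 B0 C0 B1 S0` -/
noncomputable def cT6_1397 : CertT :=
  ⟨[k8,k9,k24,k36,k25,k48],[],[[[]]],
    [.lp [k6,k8,k12,k12,k0,k6] [k3,k3,k2,k2,k0,k0,k0,k0,k6,k6,k3,k3] k0 [] k24 k5
    [[(k1,k6),(k10,k6)],[(k2,k7),(k5,k9)],[(k2,k8),(k5,k10)],[(k0,k7),(k3,k8)],[(k0,k9),(k3,k10)],[(k8,k6),(k11,k9)],
    [(k8,k6),(k11,k9)],[(k9,k6)],[(k6,k6)],[(k4,k6),(k7,k6)],[(k4,k9),(k7,k9)],[(k1,k6),(k10,k6)]]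
    [] k0
    []
    []]⟩

/-- classes `0 0 1 2 1 3`, types `B0 B1 B0 S0 B1 C0` -/
noncomputable def cT6_1398 : CertT :=
  ⟨[k8,k9,k24,k32,k25,k52],[],[[[]]],
    [.lp [k4,k8,k8,k6,k6,k12] [k4,k4,k2,k2,k2,k2,k3,k3,k3,k3,k0,k0] k0 [] k24 k5
    [[(k10,k8)],[(k2,k6),(k5,k6)],[(k2,k8),(k5,k8)],[(k0,k6),(k3,k8)],[(k0,k6),(k3,k8)],[(k8,k7),(k11,k10)],[(k8,k6),
    (k11,k9)],[(k6,k6),(k9,k6)],[(k6,k6),(k9,k6)],[(k7,k6),(k4,k7)],[(k7,k9),(k4,k10)],[(k1,k8)]]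
    [] k0
    []
    []]⟩

/-- classes `0 0 1 2 1 3`, types `B0 B1 B0 S0 B1 S0` -/
noncomputable def cT6_1399 : CertT :=
  ⟨[k8,k9,k24,k32,k25,k48],[],[[[]]],
    [.lp [k12,k8,k6,k6,k6,k6] [k0,k0,k2,k2,k3,k3,k3,k3,k3,k3,k3,k3] k0 [] k24 k5
    [[(k10,k9),(k1,k12)],[(k5,k9),(k2,k10)],[(k5,k7),(k2,k8)],[(k3,k8),(k0,k10)],[(k3,k7),(k0,k9)],[(k8,k6),(k11,k6)],
    [(k8,k6),(k11,k6)],[(k6,k6),(k9,k6)],[(k6,k6),(k9,k6)],[(k4,k6),(k7,k6)],[(k4,k6),(k7,k6)],[(k10,k6),(k1,k9)]]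
    [] k0
    []
    []]⟩

/-- classes `0 0 1 2 1 3`, types `B0 B1 C0 C0 C0 C0` -/
noncomputable def cT6_1400 : CertT :=
  ⟨[k8,k9,k20,k36,k20,k52],[],[[[]]],
    [.lp [k6,k4,k2,k4,k2,k4] [k0,k0,k1,k1,k2,k2,k1,k1,k2,k2,k1,k1] k0 [] k12 k5
    [[(k10,k5)],[(k5,k4),(k2,k5)],[(k5,k3),(k2,k4)],[(k3,k4),(k0,k5)],[(k3,k3),(k0,k4)],[(k7,k3),(k11,k3)],[(k4,k3),
    (k8,k3)],[(k9,k3)],[(k6,k3)],[(k7,k3),(k11,k3)],[(k4,k3),(k8,k3)],[(k1,k5)]]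
    [] k0
    []
    []]⟩

/-- classes `0 0 1 2 1 3`, types `B0 B1 C0 C0 C0 S0` -/
noncomputable def cT6_1401 : CertT :=
  ⟨[k8,k9,k20,k36,k20,k48],[],[[[]]],
    [.lp [k6,k8,k6,k12,k0,k12] [k3,k3,k2,k2,k3,k3,k0,k0,k6,k6,k0,k0] k0 [] k24 k5
    [[(k1,k6),(k10,k9)],[(k5,k6),(k2,k7)],[(k5,k7),(k2,k8)],[(k0,k7),(k3,k8)],[(k0,k6),(k3,k7)],[(k7,k9),(k11,k9)],
    [(k8,k6),(k4,k9)],[(k9,k6)],[(k6,k6)],[(k7,k6),(k11,k6)],[(k8,k6),(k4,k9)],[(k1,k9),(k10,k12)]]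
    [] k0
    []
    []]⟩

/-- classes `0 0 1 2 1 3`, types `B0 B1 C0 C0 C2 C0` -/
noncomputable def cT6_1402 : CertT :=
  ⟨[k8,k9,k20,k36,k22,k52],[],[[[]]],
    [.lp [k6,k8,k6,k6,k6,k6] [k1,k1,k0,k0,k1,k1,k1,k1,k1,k1,k1,k1] k0 [] k24 k5
    [[(k10,k6)],[(k5,k6),(k2,k7)],[(k5,k7),(k2,k8)],[(k0,k7),(k3,k8)],[(k0,k6),(k3,k7)],[(k7,k6),(k8,k6)],[(k4,k6),
    (k11,k6)],[(k9,k6)],[(k6,k6)],[(k4,k6),(k11,k6)],[(k7,k6),(k8,k6)],[(k1,k6)]]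
    [] k0
    []
    []]⟩

/-- classes `0 0 1 2 1 3`, types `B0 B1 C0 C0 C2 S0` -/
noncomputable def cT6_1403 : CertT :=
  ⟨[k8,k9,k20,k36,k22,k48],[],[[[]]],
    [.lp [k6,k8,k6,k6,k6,k6] [k1,k1,k0,k0,k1,k1,k1,k1,k1,k1,k1,k1] k0 [] k24 k5
    [[(k1,k6),(k10,k6)],[(k5,k6),(k2,k7)],[(k5,k7),(k2,k8)],[(k0,k7),(k3,k8)],[(k0,k6),(k3,k7)],[(k7,k6),(k8,k6)],
    [(k4,k6),(k11,k6)],[(k9,k6)],[(k6,k6)],[(k4,k6),(k11,k6)],[(k7,k6),(k8,k6)],[(k1,k6),(k10,k6)]]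
    [] k0
    []
    []]⟩

/-- classes `0 0 1 2 1 3`, types `B0 B1 C0 S0 C0 C0` -/
noncomputable def cT6_1404 : CertT :=
  ⟨[k8,k9,k20,k32,k20,k52],[],[[[]]],
    [.lp [k6,k8,k12,k6,k6,k6] [k3,k3,k2,k2,k0,k0,k3,k3,k3,k3,k3,k3] k0 [] k24 k5
    [[(k10,k6)],[(k2,k7),(k5,k9)],[(k2,k8),(k5,k10)],[(k0,k7),(k3,k8)],[(k0,k9),(k3,k10)],[(k7,k9),(k11,k9)],[(k8,k6),
    (k4,k9)],[(k6,k6),(k9,k6)],[(k6,k6),(k9,k6)],[(k7,k6),(k11,k6)],[(k8,k6),(k4,k9)],[(k1,k6)]]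
    [] k0
    []
    []]⟩

/-- classes `0 0 1 2 1 3`, types `B0 B1 C0 S0 C0 S0` -/
noncomputable def cT6_1405 : CertT :=
  ⟨[k8,k9,k20,k32,k20,k48],[],[[[]]],
    [.lp [k6,k8,k6,k6,k6,k12] [k3,k3,k2,k2,k3,k3,k3,k3,k3,k3,k0,k0] k0 [] k24 k5
    [[(k1,k6),(k10,k9)],[(k5,k6),(k2,k7)],[(k5,k7),(k2,k8)],[(k0,k7),(k3,k8)],[(k0,k6),(k3,k7)],[(k7,k6),(k11,k9)],
    [(k4,k6),(k8,k6)],[(k6,k6),(k9,k6)],[(k6,k6),(k9,k6)],[(k7,k6),(k11,k9)],[(k4,k9),(k8,k9)],[(k1,k9),(k10,k12)]]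
    [] k0
    []
    []]⟩

/-- classes `0 0 1 2 1 3`, types `B0 B1 C0 S0 C2 C0` -/
noncomputable def cT6_1406 : CertT :=
  ⟨[k8,k9,k20,k32,k22,k52],[],[[[]]],
    [.lp [k6,k8,k6,k6,k6,k6] [k1,k1,k0,k0,k1,k1,k1,k1,k1,k1,k1,k1] k0 [] k24 k5
    [[(k10,k6)],[(k5,k6),(k2,k7)],[(k5,k7),(k2,k8)],[(k0,k7),(k3,k8)],[(k0,k6),(k3,k7)],[(k7,k6),(k8,k6)],[(k4,k6),
    (k11,k6)],[(k6,k6),(k9,k6)],[(k6,k6),(k9,k6)],[(k4,k6),(k11,k6)],[(k7,k6),(k8,k6)],[(k1,k6)]]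
    [] k0
    []
    []]⟩

/-- classes `0 0 1 2 1 3`, types `B0 B1 C0 S0 C2 S0` -/
noncomputable def cT6_1407 : CertT :=
  ⟨[k8,k9,k20,k32,k22,k48],[],[[[]]],
    [.lp [k6,k8,k6,k6,k6,k6] [k1,k1,k0,k0,k1,k1,k1,k1,k1,k1,k1,k1] k0 [] k24 k5
    [[(k1,k6),(k10,k6)],[(k5,k6),(k2,k7)],[(k5,k7),(k2,k8)],[(k0,k7),(k3,k8)],[(k0,k6),(k3,k7)],[(k7,k6),(k8,k6)],
    [(k4,k6),(k11,k6)],[(k6,k6),(k9,k6)],[(k6,k6),(k9,k6)],[(k4,k6),(k11,k6)],[(k7,k6),(k8,k6)],[(k1,k6),(k10,k6)]]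
    [] k0
    []
    []]⟩

/-- classes `0 0 1 2 1 3`, types `B0 B1 N0 C0 N1 C0` -/
noncomputable def cT6_1408 : CertT :=
  ⟨[k8,k9,k28,k36,k29,k52],[],[[[]]],
    [.lp [k6,k4,k2,k6,k0,k4] [k0,k0,k1,k1,k2,k2,k0,k0,k3,k3,k1,k1] k0 [] k12 k5
    [[(k10,k5)],[(k5,k4),(k2,k5)],[(k5,k3),(k2,k4)],[(k3,k4),(k0,k5)],[(k3,k3),(k0,k4)],[(k11,k3)],[(k8,k3)],[(k9,
    k3)],[(k6,k3)],[(k7,k3)],[(k4,k3)],[(k1,k5)]]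
    [] k0
    []
    []]⟩

/-- classes `0 0 1 2 1 3`, types `B0 B1 N0 C0 N1 S0` -/
noncomputable def cT6_1409 : CertT :=
  ⟨[k8,k9,k28,k36,k29,k48],[],[[[]]],
    [.lp [k6,k8,k12,k12,k0,k6] [k3,k3,k2,k2,k0,k0,k0,k0,k6,k6,k3,k3] k0 [] k24 k5
    [[(k1,k6),(k10,k6)],[(k2,k7),(k5,k9)],[(k2,k8),(k5,k10)],[(k0,k7),(k3,k8)],[(k0,k9),(k3,k10)],[(k11,k9)],[(k8,
    k6)],[(k9,k6)],[(k6,k6)],[(k7,k6)],[(k4,k9)],[(k1,k6),(k10,k6)]]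
    [] k0
    []
    []]⟩

/-- classes `0 0 1 2 1 3`, types `B0 B1 N0 C0 N2 C0` -/
noncomputable def cT6_1410 : CertT :=
  ⟨[k8,k9,k28,k36,k30,k52],[],[[[]]],
    [.lp [k6,k8,k6,k6,k6,k6] [k1,k1,k0,k0,k1,k1,k1,k1,k1,k1,k1,k1] k0 [] k24 k5
    [[(k10,k6)],[(k5,k6),(k2,k7)],[(k5,k7),(k2,k8)],[(k0,k7),(k3,k8)],[(k0,k6),(k3,k7)],[(k8,k6)],[(k11,k6)],[(k9,
    k6)],[(k6,k6)],[(k4,k6)],[(k7,k6)],[(k1,k6)]]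
    [] k0
    []
    []]⟩

/-- classes `0 0 1 2 1 3`, types `B0 B1 N0 C0 N2 S0` -/
noncomputable def cT6_1411 : CertT :=
  ⟨[k8,k9,k28,k36,k30,k48],[],[[[]]],
    [.lp [k6,k8,k6,k6,k6,k6] [k1,k1,k0,k0,k1,k1,k1,k1,k1,k1,k1,k1] k0 [] k24 k5
    [[(k1,k6),(k10,k6)],[(k5,k6),(k2,k7)],[(k5,k7),(k2,k8)],[(k0,k7),(k3,k8)],[(k0,k6),(k3,k7)],[(k8,k6)],[(k11,k6)],
    [(k9,k6)],[(k6,k6)],[(k4,k6)],[(k7,k6)],[(k1,k6),(k10,k6)]]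
    [] k0
    []
    []]⟩

/-- classes `0 0 1 2 1 3`, types `B0 B1 N0 S0 N1 C0` -/
noncomputable def cT6_1412 : CertT :=
  ⟨[k8,k9,k28,k32,k29,k52],[],[[[]]],
    [.lp [k12,k8,k12,k6,k6,k0] [k0,k0,k2,k2,k0,k0,k3,k3,k3,k3,k6,k6] k0 [] k24 k5
    [[(k10,k6)],[(k2,k10),(k5,k12)],[(k2,k8),(k5,k10)],[(k3,k8),(k0,k10)],[(k3,k10),(k0,k12)],[(k11,k6)],[(k8,k6)],
    [(k6,k6),(k9,k6)],[(k6,k6),(k9,k6)],[(k7,k6)],[(k4,k6)],[(k1,k6)]]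
    [] k0
    []
    []]⟩

/-- classes `0 0 1 2 1 3`, types `B0 B1 N0 S0 N1 S0` -/
noncomputable def cT6_1413 : CertT :=
  ⟨[k8,k9,k28,k32,k29,k48],[],[[[]]],
    [.lp [k6,k8,k6,k6,k6,k12] [k3,k3,k2,k2,k3,k3,k3,k3,k3,k3,k0,k0] k0 [] k24 k5
    [[(k1,k6),(k10,k9)],[(k5,k6),(k2,k7)],[(k5,k7),(k2,k8)],[(k0,k7),(k3,k8)],[(k0,k6),(k3,k7)],[(k11,k9)],[(k8,k6)],
    [(k6,k6),(k9,k6)],[(k6,k6),(k9,k6)],[(k7,k6)],[(k4,k9)],[(k1,k9),(k10,k12)]]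
    [] k0
    []
    []]⟩

/-- classes `0 0 1 2 1 3`, types `B0 B1 N0 S0 N2 C0` -/
noncomputable def cT6_1414 : CertT :=
  ⟨[k8,k9,k28,k32,k30,k52],[],[[[]]],
    [.lp [k6,k8,k6,k6,k6,k6] [k1,k1,k0,k0,k1,k1,k1,k1,k1,k1,k1,k1] k0 [] k24 k5
    [[(k10,k6)],[(k5,k6),(k2,k7)],[(k5,k7),(k2,k8)],[(k0,k7),(k3,k8)],[(k0,k6),(k3,k7)],[(k8,k6)],[(k11,k6)],[(k6,k6),
    (k9,k6)],[(k6,k6),(k9,k6)],[(k4,k6)],[(k7,k6)],[(k1,k6)]]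
    [] k0
    []
    []]⟩

/-- classes `0 0 1 2 1 3`, types `B0 B1 N0 S0 N2 S0` -/
noncomputable def cT6_1415 : CertT :=
  ⟨[k8,k9,k28,k32,k30,k48],[],[[[]]],
    [.lp [k6,k8,k6,k6,k6,k6] [k1,k1,k0,k0,k1,k1,k1,k1,k1,k1,k1,k1] k0 [] k24 k5
    [[(k1,k6),(k10,k6)],[(k5,k6),(k2,k7)],[(k5,k7),(k2,k8)],[(k0,k7),(k3,k8)],[(k0,k6),(k3,k7)],[(k8,k6)],[(k11,k6)],
    [(k6,k6),(k9,k6)],[(k6,k6),(k9,k6)],[(k4,k6)],[(k7,k6)],[(k1,k6),(k10,k6)]]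
    [] k0
    []
    []]⟩

/-- classes `0 0 1 2 1 3`, types `B0 B1 S0 C0 S0 C0` -/
noncomputable def cT6_1416 : CertT :=
  ⟨[k8,k9,k16,k36,k16,k52],[],[[[]]],
    [.lp [k12,k8,k6,k6,k6,k6] [k0,k0,k2,k2,k3,k3,k3,k3,k3,k3,k3,k3] k0 [] k24 k5
    [[(k10,k9)],[(k5,k9),(k2,k10)],[(k5,k7),(k2,k8)],[(k3,k8),(k0,k10)],[(k3,k7),(k0,k9)],[(k4,k6),(k7,k6),(k8,k6),
    (k11,k6)],[(k4,k6),(k7,k6),(k8,k6),(k11,k6)],[(k9,k6)],[(k6,k6)],[(k4,k6),(k7,k6),(k8,k6),(k11,k6)],[(k4,k6),(k7,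
    k6),(k8,k6),(k11,k6)],[(k1,k9)]]
    [] k0
    []
    []]⟩

/-- classes `0 0 1 2 1 3`, types `B0 B1 S0 C0 S0 S0` -/
noncomputable def cT6_1417 : CertT :=
  ⟨[k8,k9,k16,k36,k16,k48],[],[[[]]],
    [.lp [k12,k8,k6,k6,k6,k6] [k0,k0,k2,k2,k3,k3,k3,k3,k3,k3,k3,k3] k0 [] k24 k5
    [[(k10,k9),(k1,k12)],[(k5,k9),(k2,k10)],[(k5,k7),(k2,k8)],[(k3,k8),(k0,k10)],[(k3,k7),(k0,k9)],[(k4,k6),(k7,k6),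
    (k8,k6),(k11,k6)],[(k4,k6),(k7,k6),(k8,k6),(k11,k6)],[(k9,k6)],[(k6,k6)],[(k4,k6),(k7,k6),(k8,k6),(k11,k6)],[(k4,
    k6),(k7,k6),(k8,k6),(k11,k6)],[(k10,k6),(k1,k9)]]
    [] k0
    []
    []]⟩

/-- classes `0 0 1 2 1 3`, types `B0 B1 S0 S0 S0 C0` -/
noncomputable def cT6_1418 : CertT :=
  ⟨[k8,k9,k16,k32,k16,k52],[],[[[]]],
    [.lp [k12,k8,k6,k6,k6,k6] [k0,k0,k2,k2,k3,k3,k3,k3,k3,k3,k3,k3] k0 [] k24 k5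
    [[(k10,k9)],[(k5,k9),(k2,k10)],[(k5,k7),(k2,k8)],[(k3,k8),(k0,k10)],[(k3,k7),(k0,k9)],[(k4,k6),(k7,k6),(k8,k6),
    (k11,k6)],[(k4,k6),(k7,k6),(k8,k6),(k11,k6)],[(k6,k6),(k9,k6)],[(k6,k6),(k9,k6)],[(k4,k6),(k7,k6),(k8,k6),(k11,
    k6)],[(k4,k6),(k7,k6),(k8,k6),(k11,k6)],[(k1,k9)]]
    [] k0
    []
    []]⟩

/-- classes `0 0 1 2 1 3`, types `B0 B1 S0 S0 S0 S0` -/
noncomputable def cT6_1419 : CertT :=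
  ⟨[k8,k9,k16,k32,k16,k48],[],[[[]]],
    [.lp [k6,k8,k6,k6,k6,k12] [k3,k3,k2,k2,k3,k3,k3,k3,k3,k3,k0,k0] k0 [] k24 k5
    [[(k1,k6),(k10,k9)],[(k5,k6),(k2,k7)],[(k5,k7),(k2,k8)],[(k0,k7),(k3,k8)],[(k0,k6),(k3,k7)],[(k4,k6),(k7,k6),(k8,
    k6),(k11,k9)],[(k4,k6),(k7,k6),(k8,k6),(k11,k9)],[(k6,k6),(k9,k6)],[(k6,k6),(k9,k6)],[(k4,k6),(k7,k6),(k8,k6),
    (k11,k9)],[(k4,k9),(k7,k9),(k8,k9),(k11,k12)],[(k1,k9),(k10,k12)]]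
    [] k0
    []
    []]⟩

/-- classes `0 0 1 2 1 3`, types `C0 C0 B0 C0 B1 C0` -/
noncomputable def cT6_1420 : CertT :=
  ⟨[k4,k4,k24,k36,k25,k52],[],[[[]]],
    [.lp [k6,k4,k2,k2,k4,k4] [k0,k0,k1,k1,k2,k2,k2,k2,k1,k1,k1,k1] k0 [] k12 k5
    [[(k10,k5)],[(k5,k4),(k3,k5)],[(k2,k4),(k0,k5)],[(k5,k3),(k3,k4)],[(k2,k3),(k0,k4)],[(k8,k3),(k11,k3)],[(k8,k3),
    (k11,k3)],[(k9,k3)],[(k6,k3)],[(k4,k3),(k7,k3)],[(k4,k3),(k7,k3)],[(k1,k5)]]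
    [] k0
    []
    []]⟩

/-- classes `0 0 1 2 1 3`, types `C0 C0 B0 C0 B1 S0` -/
noncomputable def cT6_1421 : CertT :=
  ⟨[k4,k4,k24,k36,k25,k48],[],[[[]]],
    [.lp [k6,k8,k12,k12,k0,k6] [k3,k3,k2,k2,k0,k0,k0,k0,k6,k6,k3,k3] k0 [] k24 k5
    [[(k1,k6),(k10,k6)],[(k3,k7),(k5,k9)],[(k0,k7),(k2,k8)],[(k3,k8),(k5,k10)],[(k0,k9),(k2,k10)],[(k8,k6),(k11,k9)],
    [(k8,k6),(k11,k9)],[(k9,k6)],[(k6,k6)],[(k4,k6),(k7,k6)],[(k4,k9),(k7,k9)],[(k1,k6),(k10,k6)]]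
    [] k0
    []
    []]⟩

/-- classes `0 0 1 2 1 3`, types `C0 C0 B0 S0 B1 C0` -/
noncomputable def cT6_1422 : CertT :=
  ⟨[k4,k4,k24,k32,k25,k52],[],[[[]]],
    [.lp [k6,k8,k12,k6,k6,k6] [k3,k3,k2,k2,k0,k0,k3,k3,k3,k3,k3,k3] k0 [] k24 k5
    [[(k10,k6)],[(k3,k7),(k5,k9)],[(k0,k7),(k2,k8)],[(k3,k8),(k5,k10)],[(k0,k9),(k2,k10)],[(k8,k9),(k11,k9)],[(k8,k6),
    (k11,k6)],[(k6,k6),(k9,k6)],[(k6,k6),(k9,k6)],[(k7,k6),(k4,k9)],[(k7,k6),(k4,k9)],[(k1,k6)]]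
    [] k0
    []
    []]⟩

/-- classes `0 0 1 2 1 3`, types `C0 C0 B0 S0 B1 S0` -/
noncomputable def cT6_1423 : CertT :=
  ⟨[k4,k4,k24,k32,k25,k48],[],[[[]]],
    [.lp [k6,k8,k6,k6,k6,k12] [k3,k3,k2,k2,k3,k3,k3,k3,k3,k3,k0,k0] k0 [] k24 k5
    [[(k1,k6),(k10,k9)],[(k5,k6),(k3,k7)],[(k0,k7),(k2,k8)],[(k5,k7),(k3,k8)],[(k0,k6),(k2,k7)],[(k8,k6),(k11,k9)],
    [(k8,k6),(k11,k9)],[(k6,k6),(k9,k6)],[(k6,k6),(k9,k6)],[(k4,k6),(k7,k6)],[(k4,k9),(k7,k9)],[(k1,k9),(k10,k12)]]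
    [] k0
    []
    []]⟩

/-- classes `0 0 1 2 1 3`, types `C0 C0 C0 C0 C0 C0` -/
noncomputable def cT6_1424 : CertT :=
  ⟨[k4,k4,k20,k36,k20,k52],[],[[[]]],
    [.lp [k2,k4,k4,k2,k4,k6] [k2,k2,k1,k1,k1,k1,k2,k2,k1,k1,k0,k0] k0 [] k12 k5
    [[(k10,k4)],[(k3,k3),(k5,k3)],[(k0,k3),(k2,k4)],[(k3,k4),(k5,k4)],[(k0,k3),(k2,k4)],[(k7,k3),(k11,k5)],[(k4,k3),
    (k8,k3)],[(k9,k3)],[(k6,k3)],[(k7,k3),(k11,k5)],[(k4,k5),(k8,k5)],[(k1,k4)]]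
    [] k0
    []
    []]⟩

/-- classes `0 0 1 2 1 3`, types `C0 C0 C0 C0 C0 S0` -/
noncomputable def cT6_1425 : CertT :=
  ⟨[k4,k4,k20,k36,k20,k48],[],[[[]]],
    [.lp [k6,k4,k2,k4,k2,k4] [k0,k0,k1,k1,k2,k2,k1,k1,k2,k2,k1,k1] k0 [] k12 k5
    [[(k10,k5),(k1,k6)],[(k5,k4),(k3,k5)],[(k2,k4),(k0,k5)],[(k5,k3),(k3,k4)],[(k2,k3),(k0,k4)],[(k7,k3),(k11,k3)],
    [(k4,k3),(k8,k3)],[(k9,k3)],[(k6,k3)],[(k7,k3),(k11,k3)],[(k4,k3),(k8,k3)],[(k10,k4),(k1,k5)]]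
    [] k0
    []
    []]⟩

/-- classes `0 0 1 2 1 3`, types `C0 C0 C0 C0 C2 C0` -/
noncomputable def cT6_1426 : CertT :=
  ⟨[k4,k4,k20,k36,k22,k52],[],[[[]]],
    [.lp [k6,k8,k6,k6,k6,k6] [k1,k1,k0,k0,k1,k1,k1,k1,k1,k1,k1,k1] k0 [] k24 k5
    [[(k10,k6)],[(k5,k6),(k3,k7)],[(k0,k7),(k2,k8)],[(k5,k7),(k3,k8)],[(k0,k6),(k2,k7)],[(k7,k6),(k8,k6)],[(k4,k6),
    (k11,k6)],[(k9,k6)],[(k6,k6)],[(k4,k6),(k11,k6)],[(k7,k6),(k8,k6)],[(k1,k6)]]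
    [] k0
    []
    []]⟩

/-- classes `0 0 1 2 1 3`, types `C0 C0 C0 C0 C2 S0` -/
noncomputable def cT6_1427 : CertT :=
  ⟨[k4,k4,k20,k36,k22,k48],[],[[[]]],
    [.lp [k6,k8,k6,k6,k6,k6] [k1,k1,k0,k0,k1,k1,k1,k1,k1,k1,k1,k1] k0 [] k24 k5
    [[(k1,k6),(k10,k6)],[(k5,k6),(k3,k7)],[(k0,k7),(k2,k8)],[(k5,k7),(k3,k8)],[(k0,k6),(k2,k7)],[(k7,k6),(k8,k6)],
    [(k4,k6),(k11,k6)],[(k9,k6)],[(k6,k6)],[(k4,k6),(k11,k6)],[(k7,k6),(k8,k6)],[(k1,k6),(k10,k6)]]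
    [] k0
    []
    []]⟩

/-- classes `0 0 1 2 1 3`, types `C0 C0 C0 S0 C0 C0` -/
noncomputable def cT6_1428 : CertT :=
  ⟨[k4,k4,k20,k32,k20,k52],[],[[[]]],
    [.lp [k12,k8,k6,k6,k6,k6] [k0,k0,k2,k2,k3,k3,k3,k3,k3,k3,k3,k3] k0 [] k24 k5
    [[(k10,k9)],[(k5,k9),(k3,k10)],[(k2,k8),(k0,k10)],[(k5,k7),(k3,k8)],[(k2,k7),(k0,k9)],[(k7,k6),(k11,k6)],[(k4,k6),
    (k8,k6)],[(k6,k6),(k9,k6)],[(k6,k6),(k9,k6)],[(k7,k6),(k11,k6)],[(k4,k6),(k8,k6)],[(k1,k9)]]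
    [] k0
    []
    []]⟩

/-- classes `0 0 1 2 1 3`, types `C0 C0 C0 S0 C0 S0` -/
noncomputable def cT6_1429 : CertT :=
  ⟨[k4,k4,k20,k32,k20,k48],[],[[[]]],
    [.lp [k6,k8,k12,k6,k6,k6] [k3,k3,k2,k2,k0,k0,k3,k3,k3,k3,k3,k3] k0 [] k24 k5
    [[(k1,k6),(k10,k6)],[(k3,k7),(k5,k9)],[(k0,k7),(k2,k8)],[(k3,k8),(k5,k10)],[(k0,k9),(k2,k10)],[(k7,k9),(k11,k9)],
    [(k8,k6),(k4,k9)],[(k6,k6),(k9,k6)],[(k6,k6),(k9,k6)],[(k7,k6),(k11,k6)],[(k8,k6),(k4,k9)],[(k1,k6),(k10,k6)]]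
    [] k0
    []
    []]⟩

/-- classes `0 0 1 2 1 3`, types `C0 C0 C0 S0 C2 C0` -/
noncomputable def cT6_1430 : CertT :=
  ⟨[k4,k4,k20,k32,k22,k52],[],[[[]]],
    [.lp [k6,k8,k6,k6,k6,k6] [k1,k1,k0,k0,k1,k1,k1,k1,k1,k1,k1,k1] k0 [] k24 k5
    [[(k10,k6)],[(k5,k6),(k3,k7)],[(k0,k7),(k2,k8)],[(k5,k7),(k3,k8)],[(k0,k6),(k2,k7)],[(k7,k6),(k8,k6)],[(k4,k6),
    (k11,k6)],[(k6,k6),(k9,k6)],[(k6,k6),(k9,k6)],[(k4,k6),(k11,k6)],[(k7,k6),(k8,k6)],[(k1,k6)]]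
    [] k0
    []
    []]⟩

/-- classes `0 0 1 2 1 3`, types `C0 C0 C0 S0 C2 S0` -/
noncomputable def cT6_1431 : CertT :=
  ⟨[k4,k4,k20,k32,k22,k48],[],[[[]]],
    [.lp [k6,k8,k6,k6,k6,k6] [k1,k1,k0,k0,k1,k1,k1,k1,k1,k1,k1,k1] k0 [] k24 k5
    [[(k1,k6),(k10,k6)],[(k5,k6),(k3,k7)],[(k0,k7),(k2,k8)],[(k5,k7),(k3,k8)],[(k0,k6),(k2,k7)],[(k7,k6),(k8,k6)],
    [(k4,k6),(k11,k6)],[(k6,k6),(k9,k6)],[(k6,k6),(k9,k6)],[(k4,k6),(k11,k6)],[(k7,k6),(k8,k6)],[(k1,k6),(k10,k6)]]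
    [] k0
    []
    []]⟩

/-- classes `0 0 1 2 1 3`, types `C0 C0 N0 C0 N1 C0` -/
noncomputable def cT6_1432 : CertT :=
  ⟨[k4,k4,k28,k36,k29,k52],[],[[[]]],
    [.lp [k4,k4,k2,k0,k6,k6] [k1,k1,k1,k1,k2,k2,k3,k3,k0,k0,k0,k0] k0 [] k12 k5
    [[(k10,k5)],[(k5,k3),(k3,k4)],[(k0,k4),(k2,k4)],[(k5,k3),(k3,k4)],[(k0,k3),(k2,k3)],[(k11,k4)],[(k8,k3)],[(k9,
    k3)],[(k6,k3)],[(k7,k3)],[(k4,k4)],[(k1,k5)]]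
    [] k0
    []
    []]⟩

/-- classes `0 0 1 2 1 3`, types `C0 C0 N0 C0 N1 S0` -/
noncomputable def cT6_1433 : CertT :=
  ⟨[k4,k4,k28,k36,k29,k48],[],[[[]]],
    [.lp [k6,k4,k2,k6,k0,k4] [k0,k0,k1,k1,k2,k2,k0,k0,k3,k3,k1,k1] k0 [] k12 k5
    [[(k10,k5),(k1,k6)],[(k5,k4),(k3,k5)],[(k2,k4),(k0,k5)],[(k5,k3),(k3,k4)],[(k2,k3),(k0,k4)],[(k11,k3)],[(k8,k3)],
    [(k9,k3)],[(k6,k3)],[(k7,k3)],[(k4,k3)],[(k10,k4),(k1,k5)]]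
    [] k0
    []
    []]⟩

/-- classes `0 0 1 2 1 3`, types `C0 C0 N0 C0 N2 C0` -/
noncomputable def cT6_1434 : CertT :=
  ⟨[k4,k4,k28,k36,k30,k52],[],[[[]]],
    [.lp [k6,k8,k6,k6,k6,k6] [k1,k1,k0,k0,k1,k1,k1,k1,k1,k1,k1,k1] k0 [] k24 k5
    [[(k10,k6)],[(k5,k6),(k3,k7)],[(k0,k7),(k2,k8)],[(k5,k7),(k3,k8)],[(k0,k6),(k2,k7)],[(k8,k6)],[(k11,k6)],[(k9,
    k6)],[(k6,k6)],[(k4,k6)],[(k7,k6)],[(k1,k6)]]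
    [] k0
    []
    []]⟩

/-- classes `0 0 1 2 1 3`, types `C0 C0 N0 C0 N2 S0` -/
noncomputable def cT6_1435 : CertT :=
  ⟨[k4,k4,k28,k36,k30,k48],[],[[[]]],
    [.lp [k6,k8,k6,k6,k6,k6] [k1,k1,k0,k0,k1,k1,k1,k1,k1,k1,k1,k1] k0 [] k24 k5
    [[(k1,k6),(k10,k6)],[(k5,k6),(k3,k7)],[(k0,k7),(k2,k8)],[(k5,k7),(k3,k8)],[(k0,k6),(k2,k7)],[(k8,k6)],[(k11,k6)],
    [(k9,k6)],[(k6,k6)],[(k4,k6)],[(k7,k6)],[(k1,k6),(k10,k6)]]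
    [] k0
    []
    []]⟩

/-- classes `0 0 1 2 1 3`, types `C0 C0 N0 S0 N1 C0` -/
noncomputable def cT6_1436 : CertT :=
  ⟨[k4,k4,k28,k32,k29,k52],[],[[[]]],
    [.lp [k12,k8,k4,k6,k6,k8] [k0,k0,k2,k2,k4,k4,k3,k3,k3,k3,k2,k2] k0 [] k24 k5
    [[(k10,k10)],[(k5,k8),(k3,k10)],[(k2,k8),(k0,k10)],[(k5,k6),(k3,k8)],[(k2,k6),(k0,k8)],[(k11,k6)],[(k8,k6)],[(k6,
    k6),(k9,k6)],[(k6,k6),(k9,k6)],[(k7,k6)],[(k4,k6)],[(k1,k10)]]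
    [] k0
    []
    []]⟩

/-- classes `0 0 1 2 1 3`, types `C0 C0 N0 S0 N1 S0` -/
noncomputable def cT6_1437 : CertT :=
  ⟨[k4,k4,k28,k32,k29,k48],[],[[[]]],
    [.lp [k6,k8,k12,k6,k6,k6] [k3,k3,k2,k2,k0,k0,k3,k3,k3,k3,k3,k3] k0 [] k24 k5
    [[(k1,k6),(k10,k6)],[(k3,k7),(k5,k9)],[(k0,k7),(k2,k8)],[(k3,k8),(k5,k10)],[(k0,k9),(k2,k10)],[(k11,k9)],[(k8,
    k6)],[(k6,k6),(k9,k6)],[(k6,k6),(k9,k6)],[(k7,k6)],[(k4,k9)],[(k1,k6),(k10,k6)]]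
    [] k0
    []
    []]⟩

/-- classes `0 0 1 2 1 3`, types `C0 C0 N0 S0 N2 C0` -/
noncomputable def cT6_1438 : CertT :=
  ⟨[k4,k4,k28,k32,k30,k52],[],[[[]]],
    [.lp [k6,k8,k6,k6,k6,k6] [k1,k1,k0,k0,k1,k1,k1,k1,k1,k1,k1,k1] k0 [] k24 k5
    [[(k10,k6)],[(k5,k6),(k3,k7)],[(k0,k7),(k2,k8)],[(k5,k7),(k3,k8)],[(k0,k6),(k2,k7)],[(k8,k6)],[(k11,k6)],[(k6,k6),
    (k9,k6)],[(k6,k6),(k9,k6)],[(k4,k6)],[(k7,k6)],[(k1,k6)]]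
    [] k0
    []
    []]⟩

/-- classes `0 0 1 2 1 3`, types `C0 C0 N0 S0 N2 S0` -/
noncomputable def cT6_1439 : CertT :=
  ⟨[k4,k4,k28,k32,k30,k48],[],[[[]]],
    [.lp [k6,k8,k6,k6,k6,k6] [k1,k1,k0,k0,k1,k1,k1,k1,k1,k1,k1,k1] k0 [] k24 k5
    [[(k1,k6),(k10,k6)],[(k5,k6),(k3,k7)],[(k0,k7),(k2,k8)],[(k5,k7),(k3,k8)],[(k0,k6),(k2,k7)],[(k8,k6)],[(k11,k6)],
    [(k6,k6),(k9,k6)],[(k6,k6),(k9,k6)],[(k4,k6)],[(k7,k6)],[(k1,k6),(k10,k6)]]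
    [] k0
    []
    []]⟩

/-- classes `0 0 1 2 1 3`, types `C0 C0 S0 C0 S0 C0` -/
noncomputable def cT6_1440 : CertT :=
  ⟨[k4,k4,k16,k36,k16,k52],[],[[[]]],
    [.lp [k4,k8,k8,k6,k6,k12] [k4,k4,k2,k2,k2,k2,k3,k3,k3,k3,k0,k0] k0 [] k24 k5
    [[(k10,k8)],[(k3,k6),(k5,k6)],[(k0,k6),(k2,k8)],[(k3,k8),(k5,k8)],[(k0,k6),(k2,k8)],[(k7,k7),(k8,k7),(k4,k8),(k11,
    k10)],[(k7,k6),(k8,k6),(k4,k7),(k11,k9)],[(k9,k6)],[(k6,k6)],[(k7,k6),(k8,k6),(k4,k7),(k11,k9)],[(k7,k9),(k8,k9),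
    (k4,k10),(k11,k12)],[(k1,k8)]]
    [] k0
    []
    []]⟩

/-- classes `0 0 1 2 1 3`, types `C0 C0 S0 C0 S0 S0` -/
noncomputable def cT6_1441 : CertT :=
  ⟨[k4,k4,k16,k36,k16,k48],[],[[[]]],
    [.lp [k12,k8,k6,k6,k6,k6] [k0,k0,k2,k2,k3,k3,k3,k3,k3,k3,k3,k3] k0 [] k24 k5
    [[(k10,k9),(k1,k12)],[(k5,k9),(k3,k10)],[(k2,k8),(k0,k10)],[(k5,k7),(k3,k8)],[(k2,k7),(k0,k9)],[(k4,k6),(k7,k6),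
    (k8,k6),(k11,k6)],[(k4,k6),(k7,k6),(k8,k6),(k11,k6)],[(k9,k6)],[(k6,k6)],[(k4,k6),(k7,k6),(k8,k6),(k11,k6)],[(k4,
    k6),(k7,k6),(k8,k6),(k11,k6)],[(k10,k6),(k1,k9)]]
    [] k0
    []
    []]⟩

/-- classes `0 0 1 2 1 3`, types `C0 C0 S0 S0 S0 C0` -/
noncomputable def cT6_1442 : CertT :=
  ⟨[k4,k4,k16,k32,k16,k52],[],[[[]]],
    [.lp [k12,k8,k6,k6,k6,k6] [k0,k0,k2,k2,k3,k3,k3,k3,k3,k3,k3,k3] k0 [] k24 k5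
    [[(k10,k9)],[(k5,k9),(k3,k10)],[(k2,k8),(k0,k10)],[(k5,k7),(k3,k8)],[(k2,k7),(k0,k9)],[(k4,k6),(k7,k6),(k8,k6),
    (k11,k6)],[(k4,k6),(k7,k6),(k8,k6),(k11,k6)],[(k6,k6),(k9,k6)],[(k6,k6),(k9,k6)],[(k4,k6),(k7,k6),(k8,k6),(k11,
    k6)],[(k4,k6),(k7,k6),(k8,k6),(k11,k6)],[(k1,k9)]]
    [] k0
    []
    []]⟩

/-- classes `0 0 1 2 1 3`, types `C0 C0 S0 S0 S0 S0` -/
noncomputable def cT6_1443 : CertT :=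
  ⟨[k4,k4,k16,k32,k16,k48],[],[[[]]],
    [.lp [k12,k8,k6,k6,k6,k6] [k0,k0,k2,k2,k3,k3,k3,k3,k3,k3,k3,k3] k0 [] k24 k5
    [[(k10,k9),(k1,k12)],[(k5,k9),(k3,k10)],[(k2,k8),(k0,k10)],[(k5,k7),(k3,k8)],[(k2,k7),(k0,k9)],[(k4,k6),(k7,k6),
    (k8,k6),(k11,k6)],[(k4,k6),(k7,k6),(k8,k6),(k11,k6)],[(k6,k6),(k9,k6)],[(k6,k6),(k9,k6)],[(k4,k6),(k7,k6),(k8,k6),
    (k11,k6)],[(k4,k6),(k7,k6),(k8,k6),(k11,k6)],[(k10,k6),(k1,k9)]]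
    [] k0
    []
    []]⟩

/-- classes `0 0 1 2 1 3`, types `C0 C2 B0 C0 B1 C0` -/
noncomputable def cT6_1444 : CertT :=
  ⟨[k4,k6,k24,k36,k25,k52],[],[[[]]],
    [.lp [k2,k0,k2,k2,k0,k0] [k0,k0,k1,k1,k0,k0,k0,k0,k1,k1,k1,k1] k0 [] k4 k5
    [[(k10,k1)],[(k2,k1),(k3,k1)],[(k0,k1),(k5,k1)],[(k0,k1),(k5,k1)],[(k2,k1),(k3,k1)],[(k8,k1),(k11,k1)],[(k8,k1),
    (k11,k1)],[(k9,k1)],[(k6,k1)],[(k4,k1),(k7,k1)],[(k4,k1),(k7,k1)],[(k1,k1)]]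
    [] k0
    []
    []]⟩

/-- classes `0 0 1 2 1 3`, types `C0 C2 B0 C0 B1 S0` -/
noncomputable def cT6_1445 : CertT :=
  ⟨[k4,k6,k24,k36,k25,k48],[],[[[]]],
    [.lp [k6,k4,k4,k4,k4,k4] [k0,k0,k1,k1,k1,k1,k1,k1,k1,k1,k1,k1] k0 [] k16 k5
    [[(k10,k5),(k1,k6)],[(k2,k5),(k3,k5)],[(k5,k4),(k0,k5)],[(k5,k4),(k0,k5)],[(k2,k4),(k3,k4)],[(k8,k4),(k11,k4)],
    [(k8,k4),(k11,k4)],[(k9,k4)],[(k6,k4)],[(k4,k4),(k7,k4)],[(k4,k4),(k7,k4)],[(k10,k4),(k1,k5)]]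
    [] k0
    []
    []]⟩

/-- classes `0 0 1 2 1 3`, types `C0 C2 B0 S0 B1 C0` -/
noncomputable def cT6_1446 : CertT :=
  ⟨[k4,k6,k24,k32,k25,k52],[],[[[]]],
    [.lp [k2,k2,k2,k2,k2,k2] [k0,k0,k0,k0,k0,k0,k0,k0,k0,k0,k0,k0] k0 [] k8 k5
    [[(k10,k2)],[(k2,k2),(k3,k2)],[(k0,k2),(k5,k2)],[(k0,k2),(k5,k2)],[(k2,k2),(k3,k2)],[(k8,k2),(k11,k2)],[(k8,k2),
    (k11,k2)],[(k6,k2),(k9,k2)],[(k6,k2),(k9,k2)],[(k4,k2),(k7,k2)],[(k4,k2),(k7,k2)],[(k1,k2)]]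
    [] k0
    []
    []]⟩

/-- classes `0 0 1 2 1 3`, types `C0 C2 B0 S0 B1 S0` -/
noncomputable def cT6_1447 : CertT :=
  ⟨[k4,k6,k24,k32,k25,k48],[],[[[]]],
    [.lp [k6,k4,k4,k4,k4,k4] [k0,k0,k1,k1,k1,k1,k1,k1,k1,k1,k1,k1] k0 [] k16 k5
    [[(k10,k5),(k1,k6)],[(k2,k5),(k3,k5)],[(k5,k4),(k0,k5)],[(k5,k4),(k0,k5)],[(k2,k4),(k3,k4)],[(k8,k4),(k11,k4)],
    [(k8,k4),(k11,k4)],[(k6,k4),(k9,k4)],[(k6,k4),(k9,k4)],[(k4,k4),(k7,k4)],[(k4,k4),(k7,k4)],[(k10,k4),(k1,k5)]]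
    [] k0
    []
    []]⟩

/-- classes `0 0 1 2 1 3`, types `C0 C2 C0 C0 C0 C0` -/
noncomputable def cT6_1448 : CertT :=
  ⟨[k4,k6,k20,k36,k20,k52],[],[[[]]],
    [.lp [k0,k2,k0,k2,k0,k2] [k1,k1,k0,k0,k1,k1,k0,k0,k1,k1,k0,k0] k0 [] k4 k5
    [[(k10,k1)],[(k2,k1),(k3,k1)],[(k0,k1),(k5,k1)],[(k0,k1),(k5,k1)],[(k2,k1),(k3,k1)],[(k7,k1),(k11,k1)],[(k4,k1),
    (k8,k1)],[(k9,k1)],[(k6,k1)],[(k7,k1),(k11,k1)],[(k4,k1),(k8,k1)],[(k1,k1)]]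
    [] k0
    []
    []]⟩

/-- classes `0 0 1 2 1 3`, types `C0 C2 C0 C0 C0 S0` -/
noncomputable def cT6_1449 : CertT :=
  ⟨[k4,k6,k20,k36,k20,k48],[],[[[]]],
    [.lp [k6,k4,k4,k4,k4,k4] [k0,k0,k1,k1,k1,k1,k1,k1,k1,k1,k1,k1] k0 [] k16 k5
    [[(k10,k5),(k1,k6)],[(k2,k5),(k3,k5)],[(k5,k4),(k0,k5)],[(k5,k4),(k0,k5)],[(k2,k4),(k3,k4)],[(k7,k4),(k11,k4)],
    [(k4,k4),(k8,k4)],[(k9,k4)],[(k6,k4)],[(k7,k4),(k11,k4)],[(k4,k4),(k8,k4)],[(k10,k4),(k1,k5)]]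
    [] k0
    []
    []]⟩

/-- classes `0 0 1 2 1 3`, types `C0 C2 C0 C0 C2 C0` -/
noncomputable def cT6_1450 : CertT :=
  ⟨[k4,k6,k20,k36,k22,k52],[],[[[]]],
    [.lp [k2,k2,k2,k2,k2,k2] [k0,k0,k0,k0,k0,k0,k0,k0,k0,k0,k0,k0] k0 [] k8 k5
    [[(k10,k2)],[(k2,k2),(k3,k2)],[(k0,k2),(k5,k2)],[(k0,k2),(k5,k2)],[(k2,k2),(k3,k2)],[(k7,k2),(k8,k2)],[(k4,k2),
    (k11,k2)],[(k9,k2)],[(k6,k2)],[(k4,k2),(k11,k2)],[(k7,k2),(k8,k2)],[(k1,k2)]]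
    [] k0
    []
    []]⟩

/-- classes `0 0 1 2 1 3`, types `C0 C2 C0 C0 C2 S0` -/
noncomputable def cT6_1451 : CertT :=
  ⟨[k4,k6,k20,k36,k22,k48],[],[[[]]],
    [.lp [k6,k4,k4,k4,k4,k4] [k0,k0,k1,k1,k1,k1,k1,k1,k1,k1,k1,k1] k0 [] k16 k5
    [[(k10,k5),(k1,k6)],[(k2,k5),(k3,k5)],[(k5,k4),(k0,k5)],[(k5,k4),(k0,k5)],[(k2,k4),(k3,k4)],[(k7,k4),(k8,k4)],
    [(k4,k4),(k11,k4)],[(k9,k4)],[(k6,k4)],[(k4,k4),(k11,k4)],[(k7,k4),(k8,k4)],[(k10,k4),(k1,k5)]]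
    [] k0
    []
    []]⟩

/-- classes `0 0 1 2 1 3`, types `C0 C2 C0 S0 C0 C0` -/
noncomputable def cT6_1452 : CertT :=
  ⟨[k4,k6,k20,k32,k20,k52],[],[[[]]],
    [.lp [k2,k2,k2,k2,k2,k2] [k0,k0,k0,k0,k0,k0,k0,k0,k0,k0,k0,k0] k0 [] k8 k5
    [[(k10,k2)],[(k2,k2),(k3,k2)],[(k0,k2),(k5,k2)],[(k0,k2),(k5,k2)],[(k2,k2),(k3,k2)],[(k7,k2),(k11,k2)],[(k4,k2),
    (k8,k2)],[(k6,k2),(k9,k2)],[(k6,k2),(k9,k2)],[(k7,k2),(k11,k2)],[(k4,k2),(k8,k2)],[(k1,k2)]]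
    [] k0
    []
    []]⟩

/-- classes `0 0 1 2 1 3`, types `C0 C2 C0 S0 C0 S0` -/
noncomputable def cT6_1453 : CertT :=
  ⟨[k4,k6,k20,k32,k20,k48],[],[[[]]],
    [.lp [k6,k4,k4,k4,k4,k4] [k0,k0,k1,k1,k1,k1,k1,k1,k1,k1,k1,k1] k0 [] k16 k5
    [[(k10,k5),(k1,k6)],[(k2,k5),(k3,k5)],[(k5,k4),(k0,k5)],[(k5,k4),(k0,k5)],[(k2,k4),(k3,k4)],[(k7,k4),(k11,k4)],
    [(k4,k4),(k8,k4)],[(k6,k4),(k9,k4)],[(k6,k4),(k9,k4)],[(k7,k4),(k11,k4)],[(k4,k4),(k8,k4)],[(k10,k4),(k1,k5)]]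
    [] k0
    []
    []]⟩

/-- classes `0 0 1 2 1 3`, types `C0 C2 C0 S0 C2 C0` -/
noncomputable def cT6_1454 : CertT :=
  ⟨[k4,k6,k20,k32,k22,k52],[],[[[]]],
    [.lp [k2,k2,k2,k2,k2,k2] [k0,k0,k0,k0,k0,k0,k0,k0,k0,k0,k0,k0] k0 [] k8 k5
    [[(k10,k2)],[(k2,k2),(k3,k2)],[(k0,k2),(k5,k2)],[(k0,k2),(k5,k2)],[(k2,k2),(k3,k2)],[(k7,k2),(k8,k2)],[(k4,k2),
    (k11,k2)],[(k6,k2),(k9,k2)],[(k6,k2),(k9,k2)],[(k4,k2),(k11,k2)],[(k7,k2),(k8,k2)],[(k1,k2)]]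
    [] k0
    []
    []]⟩

/-- classes `0 0 1 2 1 3`, types `C0 C2 C0 S0 C2 S0` -/
noncomputable def cT6_1455 : CertT :=
  ⟨[k4,k6,k20,k32,k22,k48],[],[[[]]],
    [.lp [k6,k4,k4,k4,k4,k4] [k0,k0,k1,k1,k1,k1,k1,k1,k1,k1,k1,k1] k0 [] k16 k5
    [[(k10,k5),(k1,k6)],[(k2,k5),(k3,k5)],[(k5,k4),(k0,k5)],[(k5,k4),(k0,k5)],[(k2,k4),(k3,k4)],[(k7,k4),(k8,k4)],
    [(k4,k4),(k11,k4)],[(k6,k4),(k9,k4)],[(k6,k4),(k9,k4)],[(k4,k4),(k11,k4)],[(k7,k4),(k8,k4)],[(k10,k4),(k1,k5)]]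
    [] k0
    []
    []]⟩

/-- classes `0 0 1 2 1 3`, types `C0 C2 N0 C0 N1 C0` -/
noncomputable def cT6_1456 : CertT :=
  ⟨[k4,k6,k28,k36,k29,k52],[],[[[]]],
    [.lp [k0,k2,k0,k0,k2,k2] [k1,k1,k0,k0,k1,k1,k1,k1,k0,k0,k0,k0] k0 [] k4 k5
    [[(k10,k1)],[(k2,k1),(k3,k1)],[(k0,k1),(k5,k1)],[(k0,k1),(k5,k1)],[(k2,k1),(k3,k1)],[(k11,k1)],[(k8,k1)],[(k9,
    k1)],[(k6,k1)],[(k7,k1)],[(k4,k1)],[(k1,k1)]]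
    [] k0
    []
    []]⟩

/-- classes `0 0 1 2 1 3`, types `C0 C2 N0 C0 N1 S0` -/
noncomputable def cT6_1457 : CertT :=
  ⟨[k4,k6,k28,k36,k29,k48],[],[[[]]],
    [.lp [k6,k4,k4,k8,k0,k4] [k1,k1,k2,k2,k2,k2,k0,k0,k4,k4,k2,k2] k0 [] k16 k5
    [[(k10,k5),(k1,k6)],[(k2,k5),(k3,k5)],[(k5,k4),(k0,k5)],[(k5,k4),(k0,k5)],[(k2,k4),(k3,k4)],[(k11,k4)],[(k8,k4)],
    [(k9,k4)],[(k6,k4)],[(k7,k4)],[(k4,k4)],[(k10,k4),(k1,k5)]]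
    [] k0
    []
    []]⟩

/-- classes `0 0 1 2 1 3`, types `C0 C2 N0 C0 N2 C0` -/
noncomputable def cT6_1458 : CertT :=
  ⟨[k4,k6,k28,k36,k30,k52],[],[[[]]],
    [.lp [k0,k2,k0,k0,k2,k2] [k1,k1,k0,k0,k1,k1,k1,k1,k0,k0,k0,k0] k0 [] k4 k5
    [[(k10,k1)],[(k2,k1),(k3,k1)],[(k0,k1),(k5,k1)],[(k0,k1),(k5,k1)],[(k2,k1),(k3,k1)],[(k8,k1)],[(k11,k1)],[(k9,
    k1)],[(k6,k1)],[(k4,k1)],[(k7,k1)],[(k1,k1)]]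
    [] k0
    []
    []]⟩

/-- classes `0 0 1 2 1 3`, types `C0 C2 N0 C0 N2 S0` -/
noncomputable def cT6_1459 : CertT :=
  ⟨[k4,k6,k28,k36,k30,k48],[],[[[]]],
    [.lp [k6,k4,k4,k4,k4,k4] [k0,k0,k1,k1,k1,k1,k1,k1,k1,k1,k1,k1] k0 [] k16 k5
    [[(k10,k5),(k1,k6)],[(k2,k5),(k3,k5)],[(k5,k4),(k0,k5)],[(k5,k4),(k0,k5)],[(k2,k4),(k3,k4)],[(k8,k4)],[(k11,k4)],
    [(k9,k4)],[(k6,k4)],[(k4,k4)],[(k7,k4)],[(k10,k4),(k1,k5)]]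
    [] k0
    []
    []]⟩

/-- classes `0 0 1 2 1 3`, types `C0 C2 N0 S0 N1 C0` -/
noncomputable def cT6_1460 : CertT :=
  ⟨[k4,k6,k28,k32,k29,k52],[],[[[]]],
    [.lp [k4,k0,k4,k2,k2,k0] [k0,k0,k2,k2,k0,k0,k1,k1,k1,k1,k2,k2] k0 [] k8 k5
    [[(k10,k2)],[(k2,k2),(k3,k2)],[(k0,k2),(k5,k2)],[(k0,k2),(k5,k2)],[(k2,k2),(k3,k2)],[(k11,k2)],[(k8,k2)],[(k6,k2),
    (k9,k2)],[(k6,k2),(k9,k2)],[(k7,k2)],[(k4,k2)],[(k1,k2)]]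
    [] k0
    []
    []]⟩

/-- classes `0 0 1 2 1 3`, types `C0 C2 N0 S0 N1 S0` -/
noncomputable def cT6_1461 : CertT :=
  ⟨[k4,k6,k28,k32,k29,k48],[],[[[]]],
    [.lp [k6,k4,k4,k4,k4,k4] [k0,k0,k1,k1,k1,k1,k1,k1,k1,k1,k1,k1] k0 [] k16 k5
    [[(k10,k5),(k1,k6)],[(k2,k5),(k3,k5)],[(k5,k4),(k0,k5)],[(k5,k4),(k0,k5)],[(k2,k4),(k3,k4)],[(k11,k4)],[(k8,k4)],
    [(k6,k4),(k9,k4)],[(k6,k4),(k9,k4)],[(k7,k4)],[(k4,k4)],[(k10,k4),(k1,k5)]]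
    [] k0
    []
    []]⟩

/-- classes `0 0 1 2 1 3`, types `C0 C2 N0 S0 N2 C0` -/
noncomputable def cT6_1462 : CertT :=
  ⟨[k4,k6,k28,k32,k30,k52],[],[[[]]],
    [.lp [k2,k2,k2,k2,k2,k2] [k0,k0,k0,k0,k0,k0,k0,k0,k0,k0,k0,k0] k0 [] k8 k5
    [[(k10,k2)],[(k2,k2),(k3,k2)],[(k0,k2),(k5,k2)],[(k0,k2),(k5,k2)],[(k2,k2),(k3,k2)],[(k8,k2)],[(k11,k2)],[(k6,k2),
    (k9,k2)],[(k6,k2),(k9,k2)],[(k4,k2)],[(k7,k2)],[(k1,k2)]]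
    [] k0
    []
    []]⟩

/-- classes `0 0 1 2 1 3`, types `C0 C2 N0 S0 N2 S0` -/
noncomputable def cT6_1463 : CertT :=
  ⟨[k4,k6,k28,k32,k30,k48],[],[[[]]],
    [.lp [k6,k4,k4,k4,k4,k4] [k0,k0,k1,k1,k1,k1,k1,k1,k1,k1,k1,k1] k0 [] k16 k5
    [[(k10,k5),(k1,k6)],[(k2,k5),(k3,k5)],[(k5,k4),(k0,k5)],[(k5,k4),(k0,k5)],[(k2,k4),(k3,k4)],[(k8,k4)],[(k11,k4)],
    [(k6,k4),(k9,k4)],[(k6,k4),(k9,k4)],[(k4,k4)],[(k7,k4)],[(k10,k4),(k1,k5)]]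
    [] k0
    []
    []]⟩

/-- classes `0 0 1 2 1 3`, types `C0 C2 S0 C0 S0 C0` -/
noncomputable def cT6_1464 : CertT :=
  ⟨[k4,k6,k16,k36,k16,k52],[],[[[]]],
    [.lp [k4,k4,k6,k4,k4,k4] [k1,k1,k1,k1,k0,k0,k1,k1,k1,k1,k1,k1] k0 [] k16 k5
    [[(k10,k4)],[(k2,k4),(k3,k4)],[(k0,k4),(k5,k5)],[(k0,k4),(k5,k5)],[(k2,k5),(k3,k5)],[(k7,k5),(k8,k5),(k11,k5),(k4,
    k6)],[(k7,k4),(k8,k4),(k11,k4),(k4,k5)],[(k9,k4)],[(k6,k4)],[(k7,k4),(k8,k4),(k11,k4),(k4,k5)],[(k7,k4),(k8,k4),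
    (k11,k4),(k4,k5)],[(k1,k4)]]
    [] k0
    []
    []]⟩

/-- classes `0 0 1 2 1 3`, types `C0 C2 S0 C0 S0 S0` -/
noncomputable def cT6_1465 : CertT :=
  ⟨[k4,k6,k16,k36,k16,k48],[],[[[]]],
    [.lp [k2,k4,k2,k2,k2,k2] [k1,k1,k0,k0,k1,k1,k1,k1,k1,k1,k1,k1] k0 [] k8 k5
    [[(k1,k2),(k10,k2)],[(k2,k3),(k3,k3)],[(k0,k3),(k5,k3)],[(k0,k3),(k5,k3)],[(k2,k3),(k3,k3)],[(k4,k2),(k7,k2),(k8,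
    k2),(k11,k2)],[(k4,k2),(k7,k2),(k8,k2),(k11,k2)],[(k9,k2)],[(k6,k2)],[(k4,k2),(k7,k2),(k8,k2),(k11,k2)],[(k4,k2),
    (k7,k2),(k8,k2),(k11,k2)],[(k1,k2),(k10,k2)]]
    [] k0
    []
    []]⟩

/-- classes `0 0 1 2 1 3`, types `C0 C2 S0 S0 S0 C0` -/
noncomputable def cT6_1466 : CertT :=
  ⟨[k4,k6,k16,k32,k16,k52],[],[[[]]],
    [.lp [k4,k4,k6,k4,k4,k4] [k1,k1,k1,k1,k0,k0,k1,k1,k1,k1,k1,k1] k0 [] k16 k5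
    [[(k10,k4)],[(k2,k4),(k3,k4)],[(k0,k4),(k5,k5)],[(k0,k4),(k5,k5)],[(k2,k5),(k3,k5)],[(k7,k5),(k8,k5),(k11,k5),(k4,
    k6)],[(k7,k4),(k8,k4),(k11,k4),(k4,k5)],[(k6,k4),(k9,k4)],[(k6,k4),(k9,k4)],[(k7,k4),(k8,k4),(k11,k4),(k4,k5)],
    [(k7,k4),(k8,k4),(k11,k4),(k4,k5)],[(k1,k4)]]
    [] k0
    []
    []]⟩

/-- classes `0 0 1 2 1 3`, types `C0 C2 S0 S0 S0 S0` -/
noncomputable def cT6_1467 : CertT :=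
  ⟨[k4,k6,k16,k32,k16,k48],[],[[[]]],
    [.lp [k2,k4,k2,k2,k2,k2] [k1,k1,k0,k0,k1,k1,k1,k1,k1,k1,k1,k1] k0 [] k8 k5
    [[(k1,k2),(k10,k2)],[(k2,k3),(k3,k3)],[(k0,k3),(k5,k3)],[(k0,k3),(k5,k3)],[(k2,k3),(k3,k3)],[(k4,k2),(k7,k2),(k8,
    k2),(k11,k2)],[(k4,k2),(k7,k2),(k8,k2),(k11,k2)],[(k6,k2),(k9,k2)],[(k6,k2),(k9,k2)],[(k4,k2),(k7,k2),(k8,k2),
    (k11,k2)],[(k4,k2),(k7,k2),(k8,k2),(k11,k2)],[(k1,k2),(k10,k2)]]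
    [] k0
    []
    []]⟩

/-- classes `0 0 1 2 1 3`, types `N0 N1 B0 C0 B1 C0` -/
noncomputable def cT6_1468 : CertT :=
  ⟨[k12,k13,k24,k36,k25,k52],[],[[[]]],
    [.lp [k6,k4,k0,k0,k6,k6] [k0,k0,k1,k1,k3,k3,k3,k3,k0,k0,k0,k0] k0 [] k12 k5
    [[(k10,k6)],[(k5,k3)],[(k2,k4)],[(k3,k4)],[(k0,k3)],[(k8,k3),(k11,k3)],[(k8,k3),(k11,k3)],[(k9,k3)],[(k6,k3)],
    [(k4,k3),(k7,k3)],[(k4,k3),(k7,k3)],[(k1,k6)]]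
    [] k0
    []
    []]⟩

/-- classes `0 0 1 2 1 3`, types `N0 N1 B0 C0 B1 S0` -/
noncomputable def cT6_1469 : CertT :=
  ⟨[k12,k13,k24,k36,k25,k48],[],[[[]]],
    [.lp [k6,k8,k12,k12,k0,k6] [k3,k3,k2,k2,k0,k0,k0,k0,k6,k6,k3,k3] k0 [] k24 k5
    [[(k1,k6),(k10,k6)],[(k5,k9)],[(k2,k8)],[(k3,k8)],[(k0,k9)],[(k8,k6),(k11,k9)],[(k8,k6),(k11,k9)],[(k9,k6)],[(k6,
    k6)],[(k4,k6),(k7,k6)],[(k4,k9),(k7,k9)],[(k1,k6),(k10,k6)]]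
    [] k0
    []
    []]⟩

/-- classes `0 0 1 2 1 3`, types `N0 N1 B0 S0 B1 C0` -/
noncomputable def cT6_1470 : CertT :=
  ⟨[k12,k13,k24,k32,k25,k52],[],[[[]]],
    [.lp [k6,k8,k12,k6,k6,k6] [k3,k3,k2,k2,k0,k0,k3,k3,k3,k3,k3,k3] k0 [] k24 k5
    [[(k10,k6)],[(k5,k9)],[(k2,k8)],[(k3,k8)],[(k0,k9)],[(k8,k9),(k11,k9)],[(k8,k6),(k11,k6)],[(k6,k6),(k9,k6)],[(k6,
    k6),(k9,k6)],[(k7,k6),(k4,k9)],[(k7,k6),(k4,k9)],[(k1,k6)]]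
    [] k0
    []
    []]⟩

/-- classes `0 0 1 2 1 3`, types `N0 N1 B0 S0 B1 S0` -/
noncomputable def cT6_1471 : CertT :=
  ⟨[k12,k13,k24,k32,k25,k48],[],[[[]]],
    [.lp [k6,k8,k6,k6,k6,k12] [k3,k3,k2,k2,k3,k3,k3,k3,k3,k3,k0,k0] k0 [] k24 k5
    [[(k1,k6),(k10,k9)],[(k5,k6)],[(k2,k8)],[(k3,k8)],[(k0,k6)],[(k8,k6),(k11,k9)],[(k8,k6),(k11,k9)],[(k6,k6),(k9,
    k6)],[(k6,k6),(k9,k6)],[(k4,k6),(k7,k6)],[(k4,k9),(k7,k9)],[(k1,k9),(k10,k12)]]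
    [] k0
    []
    []]⟩

/-- classes `0 0 1 2 1 3`, types `N0 N1 C0 C0 C0 C0` -/
noncomputable def cT6_1472 : CertT :=
  ⟨[k12,k13,k20,k36,k20,k52],[],[[[]]],
    [.lp [k0,k4,k6,k0,k6,k6] [k3,k3,k1,k1,k0,k0,k3,k3,k0,k0,k0,k0] k0 [] k12 k5
    [[(k10,k3)],[(k5,k3)],[(k2,k4)],[(k3,k4)],[(k0,k3)],[(k7,k3),(k11,k6)],[(k4,k3),(k8,k3)],[(k9,k3)],[(k6,k3)],[(k7,
    k3),(k11,k6)],[(k4,k6),(k8,k6)],[(k1,k3)]]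
    [] k0
    []
    []]⟩

/-- classes `0 0 1 2 1 3`, types `N0 N1 C0 C0 C0 S0` -/
noncomputable def cT6_1473 : CertT :=
  ⟨[k12,k13,k20,k36,k20,k48],[],[[[]]],
    [.lp [k6,k4,k0,k6,k0,k6] [k0,k0,k1,k1,k3,k3,k0,k0,k3,k3,k0,k0] k0 [] k12 k5
    [[(k1,k6),(k10,k6)],[(k5,k3)],[(k2,k4)],[(k3,k4)],[(k0,k3)],[(k7,k3),(k11,k3)],[(k4,k3),(k8,k3)],[(k9,k3)],[(k6,
    k3)],[(k7,k3),(k11,k3)],[(k4,k3),(k8,k3)],[(k1,k6),(k10,k6)]]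
    [] k0
    []
    []]⟩

/-- classes `0 0 1 2 1 3`, types `N0 N1 C0 C0 C2 C0` -/
noncomputable def cT6_1474 : CertT :=
  ⟨[k12,k13,k20,k36,k22,k52],[],[[[]]],
    [.lp [k6,k8,k6,k6,k6,k6] [k1,k1,k0,k0,k1,k1,k1,k1,k1,k1,k1,k1] k0 [] k24 k5
    [[(k10,k6)],[(k5,k6)],[(k2,k8)],[(k3,k8)],[(k0,k6)],[(k7,k6),(k8,k6)],[(k4,k6),(k11,k6)],[(k9,k6)],[(k6,k6)],[(k4,
    k6),(k11,k6)],[(k7,k6),(k8,k6)],[(k1,k6)]]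
    [] k0
    []
    []]⟩

/-- classes `0 0 1 2 1 3`, types `N0 N1 C0 C0 C2 S0` -/
noncomputable def cT6_1475 : CertT :=
  ⟨[k12,k13,k20,k36,k22,k48],[],[[[]]],
    [.lp [k6,k8,k6,k6,k6,k6] [k1,k1,k0,k0,k1,k1,k1,k1,k1,k1,k1,k1] k0 [] k24 k5
    [[(k1,k6),(k10,k6)],[(k5,k6)],[(k2,k8)],[(k3,k8)],[(k0,k6)],[(k7,k6),(k8,k6)],[(k4,k6),(k11,k6)],[(k9,k6)],[(k6,
    k6)],[(k4,k6),(k11,k6)],[(k7,k6),(k8,k6)],[(k1,k6),(k10,k6)]]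
    [] k0
    []
    []]⟩

/-- classes `0 0 1 2 1 3`, types `N0 N1 C0 S0 C0 C0` -/
noncomputable def cT6_1476 : CertT :=
  ⟨[k12,k13,k20,k32,k20,k52],[],[[[]]],
    [.lp [k12,k8,k6,k6,k6,k6] [k0,k0,k2,k2,k3,k3,k3,k3,k3,k3,k3,k3] k0 [] k24 k5
    [[(k10,k9)],[(k5,k9)],[(k2,k8)],[(k3,k8)],[(k0,k9)],[(k7,k6),(k11,k6)],[(k4,k6),(k8,k6)],[(k6,k6),(k9,k6)],[(k6,
    k6),(k9,k6)],[(k7,k6),(k11,k6)],[(k4,k6),(k8,k6)],[(k1,k9)]]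
    [] k0
    []
    []]⟩

/-- classes `0 0 1 2 1 3`, types `N0 N1 C0 S0 C0 S0` -/
noncomputable def cT6_1477 : CertT :=
  ⟨[k12,k13,k20,k32,k20,k48],[],[[[]]],
    [.lp [k6,k8,k12,k6,k6,k6] [k3,k3,k2,k2,k0,k0,k3,k3,k3,k3,k3,k3] k0 [] k24 k5
    [[(k1,k6),(k10,k6)],[(k5,k9)],[(k2,k8)],[(k3,k8)],[(k0,k9)],[(k7,k9),(k11,k9)],[(k8,k6),(k4,k9)],[(k6,k6),(k9,
    k6)],[(k6,k6),(k9,k6)],[(k7,k6),(k11,k6)],[(k8,k6),(k4,k9)],[(k1,k6),(k10,k6)]]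
    [] k0
    []
    []]⟩

/-- classes `0 0 1 2 1 3`, types `N0 N1 C0 S0 C2 C0` -/
noncomputable def cT6_1478 : CertT :=
  ⟨[k12,k13,k20,k32,k22,k52],[],[[[]]],
    [.lp [k6,k8,k6,k6,k6,k6] [k1,k1,k0,k0,k1,k1,k1,k1,k1,k1,k1,k1] k0 [] k24 k5
    [[(k10,k6)],[(k5,k6)],[(k2,k8)],[(k3,k8)],[(k0,k6)],[(k7,k6),(k8,k6)],[(k4,k6),(k11,k6)],[(k6,k6),(k9,k6)],[(k6,
    k6),(k9,k6)],[(k4,k6),(k11,k6)],[(k7,k6),(k8,k6)],[(k1,k6)]]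
    [] k0
    []
    []]⟩

/-- classes `0 0 1 2 1 3`, types `N0 N1 C0 S0 C2 S0` -/
noncomputable def cT6_1479 : CertT :=
  ⟨[k12,k13,k20,k32,k22,k48],[],[[[]]],
    [.lp [k6,k8,k6,k6,k6,k6] [k1,k1,k0,k0,k1,k1,k1,k1,k1,k1,k1,k1] k0 [] k24 k5
    [[(k1,k6),(k10,k6)],[(k5,k6)],[(k2,k8)],[(k3,k8)],[(k0,k6)],[(k7,k6),(k8,k6)],[(k4,k6),(k11,k6)],[(k6,k6),(k9,
    k6)],[(k6,k6),(k9,k6)],[(k4,k6),(k11,k6)],[(k7,k6),(k8,k6)],[(k1,k6),(k10,k6)]]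
    [] k0
    []
    []]⟩

/-- classes `0 0 1 2 1 3`, types `N0 N1 N0 C0 N1 C0` -/
noncomputable def cT6_1480 : CertT :=
  ⟨[k12,k13,k28,k36,k29,k52],[],[[[]]],
    [.lp [k6,k4,k0,k0,k6,k6] [k0,k0,k1,k1,k3,k3,k3,k3,k0,k0,k0,k0] k0 [] k12 k5
    [[(k10,k6)],[(k5,k3)],[(k2,k4)],[(k3,k4)],[(k0,k3)],[(k11,k3)],[(k8,k3)],[(k9,k3)],[(k6,k3)],[(k7,k3)],[(k4,k3)],
    [(k1,k6)]]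
    [] k0
    []
    []]⟩

/-- classes `0 0 1 2 1 3`, types `N0 N1 N0 C0 N1 S0` -/
noncomputable def cT6_1481 : CertT :=
  ⟨[k12,k13,k28,k36,k29,k48],[],[[[]]],
    [.lp [k6,k4,k0,k6,k0,k6] [k0,k0,k1,k1,k3,k3,k0,k0,k3,k3,k0,k0] k0 [] k12 k5
    [[(k1,k6),(k10,k6)],[(k5,k3)],[(k2,k4)],[(k3,k4)],[(k0,k3)],[(k11,k3)],[(k8,k3)],[(k9,k3)],[(k6,k3)],[(k7,k3)],
    [(k4,k3)],[(k1,k6),(k10,k6)]]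
    [] k0
    []
    []]⟩

/-- classes `0 0 1 2 1 3`, types `N0 N1 N0 C0 N2 C0` -/
noncomputable def cT6_1482 : CertT :=
  ⟨[k12,k13,k28,k36,k30,k52],[],[[[]]],
    [.lp [k6,k8,k6,k6,k6,k6] [k1,k1,k0,k0,k1,k1,k1,k1,k1,k1,k1,k1] k0 [] k24 k5
    [[(k10,k6)],[(k5,k6)],[(k2,k8)],[(k3,k8)],[(k0,k6)],[(k8,k6)],[(k11,k6)],[(k9,k6)],[(k6,k6)],[(k4,k6)],[(k7,k6)],
    [(k1,k6)]]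
    [] k0
    []
    []]⟩

/-- classes `0 0 1 2 1 3`, types `N0 N1 N0 C0 N2 S0` -/
noncomputable def cT6_1483 : CertT :=
  ⟨[k12,k13,k28,k36,k30,k48],[],[[[]]],
    [.lp [k6,k8,k6,k6,k6,k6] [k1,k1,k0,k0,k1,k1,k1,k1,k1,k1,k1,k1] k0 [] k24 k5
    [[(k1,k6),(k10,k6)],[(k5,k6)],[(k2,k8)],[(k3,k8)],[(k0,k6)],[(k8,k6)],[(k11,k6)],[(k9,k6)],[(k6,k6)],[(k4,k6)],
    [(k7,k6)],[(k1,k6),(k10,k6)]]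
    [] k0
    []
    []]⟩

/-- classes `0 0 1 2 1 3`, types `N0 N1 N0 S0 N1 C0` -/
noncomputable def cT6_1484 : CertT :=
  ⟨[k12,k13,k28,k32,k29,k52],[],[[[]]],
    [.lp [k12,k8,k0,k6,k6,k12] [k0,k0,k2,k2,k6,k6,k3,k3,k3,k3,k0,k0] k0 [] k24 k5
    [[(k10,k12)],[(k5,k6)],[(k2,k8)],[(k3,k8)],[(k0,k6)],[(k11,k6)],[(k8,k6)],[(k6,k6),(k9,k6)],[(k6,k6),(k9,k6)],
    [(k7,k6)],[(k4,k6)],[(k1,k12)]]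
    [] k0
    []
    []]⟩

/-- classes `0 0 1 2 1 3`, types `N0 N1 N0 S0 N1 S0` -/
noncomputable def cT6_1485 : CertT :=
  ⟨[k12,k13,k28,k32,k29,k48],[],[[[]]],
    [.lp [k6,k8,k12,k6,k6,k6] [k3,k3,k2,k2,k0,k0,k3,k3,k3,k3,k3,k3] k0 [] k24 k5
    [[(k1,k6),(k10,k6)],[(k5,k9)],[(k2,k8)],[(k3,k8)],[(k0,k9)],[(k11,k9)],[(k8,k6)],[(k6,k6),(k9,k6)],[(k6,k6),(k9,
    k6)],[(k7,k6)],[(k4,k9)],[(k1,k6),(k10,k6)]]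
    [] k0
    []
    []]⟩

/-- classes `0 0 1 2 1 3`, types `N0 N1 N0 S0 N2 C0` -/
noncomputable def cT6_1486 : CertT :=
  ⟨[k12,k13,k28,k32,k30,k52],[],[[[]]],
    [.lp [k6,k8,k6,k6,k6,k6] [k1,k1,k0,k0,k1,k1,k1,k1,k1,k1,k1,k1] k0 [] k24 k5
    [[(k10,k6)],[(k5,k6)],[(k2,k8)],[(k3,k8)],[(k0,k6)],[(k8,k6)],[(k11,k6)],[(k6,k6),(k9,k6)],[(k6,k6),(k9,k6)],[(k4,
    k6)],[(k7,k6)],[(k1,k6)]]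
    [] k0
    []
    []]⟩

/-- classes `0 0 1 2 1 3`, types `N0 N1 N0 S0 N2 S0` -/
noncomputable def cT6_1487 : CertT :=
  ⟨[k12,k13,k28,k32,k30,k48],[],[[[]]],
    [.lp [k6,k8,k6,k6,k6,k6] [k1,k1,k0,k0,k1,k1,k1,k1,k1,k1,k1,k1] k0 [] k24 k5
    [[(k1,k6),(k10,k6)],[(k5,k6)],[(k2,k8)],[(k3,k8)],[(k0,k6)],[(k8,k6)],[(k11,k6)],[(k6,k6),(k9,k6)],[(k6,k6),(k9,
    k6)],[(k4,k6)],[(k7,k6)],[(k1,k6),(k10,k6)]]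
    [] k0
    []
    []]⟩

/-- classes `0 0 1 2 1 3`, types `N0 N1 S0 C0 S0 C0` -/
noncomputable def cT6_1488 : CertT :=
  ⟨[k12,k13,k16,k36,k16,k52],[],[[[]]],
    [.lp [k0,k8,k12,k6,k6,k12] [k6,k6,k2,k2,k0,k0,k3,k3,k3,k3,k0,k0] k0 [] k24 k5
    [[(k10,k6)],[(k5,k6)],[(k2,k8)],[(k3,k8)],[(k0,k6)],[(k7,k9),(k8,k9),(k4,k12),(k11,k12)],[(k7,k6),(k8,k6),(k4,k9),
    (k11,k9)],[(k9,k6)],[(k6,k6)],[(k7,k6),(k8,k6),(k4,k9),(k11,k9)],[(k7,k9),(k8,k9),(k4,k12),(k11,k12)],[(k1,k6)]]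
    [] k0
    []
    []]⟩

/-- classes `0 0 1 2 1 3`, types `N0 N1 S0 C0 S0 S0` -/
noncomputable def cT6_1489 : CertT :=
  ⟨[k12,k13,k16,k36,k16,k48],[],[[[]]],
    [.lp [k12,k8,k6,k6,k6,k6] [k0,k0,k2,k2,k3,k3,k3,k3,k3,k3,k3,k3] k0 [] k24 k5
    [[(k10,k9),(k1,k12)],[(k5,k9)],[(k2,k8)],[(k3,k8)],[(k0,k9)],[(k4,k6),(k7,k6),(k8,k6),(k11,k6)],[(k4,k6),(k7,k6),
    (k8,k6),(k11,k6)],[(k9,k6)],[(k6,k6)],[(k4,k6),(k7,k6),(k8,k6),(k11,k6)],[(k4,k6),(k7,k6),(k8,k6),(k11,k6)],[(k10,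
    k6),(k1,k9)]]
    [] k0
    []
    []]⟩

/-- classes `0 0 1 2 1 3`, types `N0 N1 S0 S0 S0 C0` -/
noncomputable def cT6_1490 : CertT :=
  ⟨[k12,k13,k16,k32,k16,k52],[],[[[]]],
    [.lp [k12,k8,k6,k6,k6,k6] [k0,k0,k2,k2,k3,k3,k3,k3,k3,k3,k3,k3] k0 [] k24 k5
    [[(k10,k9)],[(k5,k9)],[(k2,k8)],[(k3,k8)],[(k0,k9)],[(k4,k6),(k7,k6),(k8,k6),(k11,k6)],[(k4,k6),(k7,k6),(k8,k6),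
    (k11,k6)],[(k6,k6),(k9,k6)],[(k6,k6),(k9,k6)],[(k4,k6),(k7,k6),(k8,k6),(k11,k6)],[(k4,k6),(k7,k6),(k8,k6),(k11,
    k6)],[(k1,k9)]]
    [] k0
    []
    []]⟩

/-- classes `0 0 1 2 1 3`, types `N0 N1 S0 S0 S0 S0` -/
noncomputable def cT6_1491 : CertT :=
  ⟨[k12,k13,k16,k32,k16,k48],[],[[[]]],
    [.lp [k12,k8,k6,k6,k6,k6] [k0,k0,k2,k2,k3,k3,k3,k3,k3,k3,k3,k3] k0 [] k24 k5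
    [[(k10,k9),(k1,k12)],[(k5,k9)],[(k2,k8)],[(k3,k8)],[(k0,k9)],[(k4,k6),(k7,k6),(k8,k6),(k11,k6)],[(k4,k6),(k7,k6),
    (k8,k6),(k11,k6)],[(k6,k6),(k9,k6)],[(k6,k6),(k9,k6)],[(k4,k6),(k7,k6),(k8,k6),(k11,k6)],[(k4,k6),(k7,k6),(k8,k6),
    (k11,k6)],[(k10,k6),(k1,k9)]]
    [] k0
    []
    []]⟩

/-- classes `0 0 1 2 1 3`, types `N0 N2 B0 C0 B1 C0` -/
noncomputable def cT6_1492 : CertT :=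
  ⟨[k12,k14,k24,k36,k25,k52],[],[[[]]],
    [.lp [k2,k0,k2,k2,k0,k0] [k0,k0,k1,k1,k0,k0,k0,k0,k1,k1,k1,k1] k0 [] k4 k5
    [[(k10,k1)],[(k2,k1)],[(k5,k1)],[(k0,k1)],[(k3,k1)],[(k8,k1),(k11,k1)],[(k8,k1),(k11,k1)],[(k9,k1)],[(k6,k1)],
    [(k4,k1),(k7,k1)],[(k4,k1),(k7,k1)],[(k1,k1)]]
    [] k0
    []
    []]⟩

/-- classes `0 0 1 2 1 3`, types `N0 N2 B0 C0 B1 S0` -/
noncomputable def cT6_1493 : CertT :=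
  ⟨[k12,k14,k24,k36,k25,k48],[],[[[]]],
    [.lp [k2,k2,k2,k2,k2,k2] [k0,k0,k0,k0,k0,k0,k0,k0,k0,k0,k0,k0] k0 [] k8 k5
    [[(k1,k2),(k10,k2)],[(k2,k2)],[(k5,k2)],[(k0,k2)],[(k3,k2)],[(k8,k2),(k11,k2)],[(k8,k2),(k11,k2)],[(k9,k2)],[(k6,
    k2)],[(k4,k2),(k7,k2)],[(k4,k2),(k7,k2)],[(k1,k2),(k10,k2)]]
    [] k0
    []
    []]⟩

/-- classes `0 0 1 2 1 3`, types `N0 N2 B0 S0 B1 C0` -/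
noncomputable def cT6_1494 : CertT :=
  ⟨[k12,k14,k24,k32,k25,k52],[],[[[]]],
    [.lp [k2,k2,k2,k2,k2,k2] [k0,k0,k0,k0,k0,k0,k0,k0,k0,k0,k0,k0] k0 [] k8 k5
    [[(k10,k2)],[(k2,k2)],[(k5,k2)],[(k0,k2)],[(k3,k2)],[(k8,k2),(k11,k2)],[(k8,k2),(k11,k2)],[(k6,k2),(k9,k2)],[(k6,
    k2),(k9,k2)],[(k4,k2),(k7,k2)],[(k4,k2),(k7,k2)],[(k1,k2)]]
    [] k0
    []
    []]⟩

/-- classes `0 0 1 2 1 3`, types `N0 N2 B0 S0 B1 S0` -/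
noncomputable def cT6_1495 : CertT :=
  ⟨[k12,k14,k24,k32,k25,k48],[],[[[]]],
    [.lp [k2,k2,k2,k2,k2,k2] [k0,k0,k0,k0,k0,k0,k0,k0,k0,k0,k0,k0] k0 [] k8 k5
    [[(k1,k2),(k10,k2)],[(k2,k2)],[(k5,k2)],[(k0,k2)],[(k3,k2)],[(k8,k2),(k11,k2)],[(k8,k2),(k11,k2)],[(k6,k2),(k9,
    k2)],[(k6,k2),(k9,k2)],[(k4,k2),(k7,k2)],[(k4,k2),(k7,k2)],[(k1,k2),(k10,k2)]]
    [] k0
    []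
    []]⟩

/-- classes `0 0 1 2 1 3`, types `N0 N2 C0 C0 C0 C0` -/
noncomputable def cT6_1496 : CertT :=
  ⟨[k12,k14,k20,k36,k20,k52],[],[[[]]],
    [.lp [k0,k2,k0,k2,k0,k2] [k1,k1,k0,k0,k1,k1,k0,k0,k1,k1,k0,k0] k0 [] k4 k5
    [[(k10,k1)],[(k2,k1)],[(k5,k1)],[(k0,k1)],[(k3,k1)],[(k7,k1),(k11,k1)],[(k4,k1),(k8,k1)],[(k9,k1)],[(k6,k1)],[(k7,
    k1),(k11,k1)],[(k4,k1),(k8,k1)],[(k1,k1)]]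
    [] k0
    []
    []]⟩

/-- classes `0 0 1 2 1 3`, types `N0 N2 C0 C0 C0 S0` -/
noncomputable def cT6_1497 : CertT :=
  ⟨[k12,k14,k20,k36,k20,k48],[],[[[]]],
    [.lp [k2,k2,k2,k2,k2,k2] [k0,k0,k0,k0,k0,k0,k0,k0,k0,k0,k0,k0] k0 [] k8 k5
    [[(k1,k2),(k10,k2)],[(k2,k2)],[(k5,k2)],[(k0,k2)],[(k3,k2)],[(k7,k2),(k11,k2)],[(k4,k2),(k8,k2)],[(k9,k2)],[(k6,
    k2)],[(k7,k2),(k11,k2)],[(k4,k2),(k8,k2)],[(k1,k2),(k10,k2)]]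
    [] k0
    []
    []]⟩

/-- classes `0 0 1 2 1 3`, types `N0 N2 C0 C0 C2 C0` -/
noncomputable def cT6_1498 : CertT :=
  ⟨[k12,k14,k20,k36,k22,k52],[],[[[]]],
    [.lp [k2,k2,k2,k2,k2,k2] [k0,k0,k0,k0,k0,k0,k0,k0,k0,k0,k0,k0] k0 [] k8 k5
    [[(k10,k2)],[(k2,k2)],[(k5,k2)],[(k0,k2)],[(k3,k2)],[(k7,k2),(k8,k2)],[(k4,k2),(k11,k2)],[(k9,k2)],[(k6,k2)],[(k4,
    k2),(k11,k2)],[(k7,k2),(k8,k2)],[(k1,k2)]]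
    [] k0
    []
    []]⟩

/-- classes `0 0 1 2 1 3`, types `N0 N2 C0 C0 C2 S0` -/
noncomputable def cT6_1499 : CertT :=
  ⟨[k12,k14,k20,k36,k22,k48],[],[[[]]],
    [.lp [k2,k2,k2,k2,k2,k2] [k0,k0,k0,k0,k0,k0,k0,k0,k0,k0,k0,k0] k0 [] k8 k5
    [[(k1,k2),(k10,k2)],[(k2,k2)],[(k5,k2)],[(k0,k2)],[(k3,k2)],[(k7,k2),(k8,k2)],[(k4,k2),(k11,k2)],[(k9,k2)],[(k6,
    k2)],[(k4,k2),(k11,k2)],[(k7,k2),(k8,k2)],[(k1,k2),(k10,k2)]]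
    [] k0
    []
    []]⟩

/-- classes `0 0 1 2 1 3`, types `N0 N2 C0 S0 C0 C0` -/
noncomputable def cT6_1500 : CertT :=
  ⟨[k12,k14,k20,k32,k20,k52],[],[[[]]],
    [.lp [k2,k2,k2,k2,k2,k2] [k0,k0,k0,k0,k0,k0,k0,k0,k0,k0,k0,k0] k0 [] k8 k5
    [[(k10,k2)],[(k2,k2)],[(k5,k2)],[(k0,k2)],[(k3,k2)],[(k7,k2),(k11,k2)],[(k4,k2),(k8,k2)],[(k6,k2),(k9,k2)],[(k6,
    k2),(k9,k2)],[(k7,k2),(k11,k2)],[(k4,k2),(k8,k2)],[(k1,k2)]]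
    [] k0
    []
    []]⟩

/-- classes `0 0 1 2 1 3`, types `N0 N2 C0 S0 C0 S0` -/
noncomputable def cT6_1501 : CertT :=
  ⟨[k12,k14,k20,k32,k20,k48],[],[[[]]],
    [.lp [k2,k2,k2,k2,k2,k2] [k0,k0,k0,k0,k0,k0,k0,k0,k0,k0,k0,k0] k0 [] k8 k5
    [[(k1,k2),(k10,k2)],[(k2,k2)],[(k5,k2)],[(k0,k2)],[(k3,k2)],[(k7,k2),(k11,k2)],[(k4,k2),(k8,k2)],[(k6,k2),(k9,
    k2)],[(k6,k2),(k9,k2)],[(k7,k2),(k11,k2)],[(k4,k2),(k8,k2)],[(k1,k2),(k10,k2)]]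
    [] k0
    []
    []]⟩

/-- classes `0 0 1 2 1 3`, types `N0 N2 C0 S0 C2 C0` -/
noncomputable def cT6_1502 : CertT :=
  ⟨[k12,k14,k20,k32,k22,k52],[],[[[]]],
    [.lp [k2,k2,k2,k2,k2,k2] [k0,k0,k0,k0,k0,k0,k0,k0,k0,k0,k0,k0] k0 [] k8 k5
    [[(k10,k2)],[(k2,k2)],[(k5,k2)],[(k0,k2)],[(k3,k2)],[(k7,k2),(k8,k2)],[(k4,k2),(k11,k2)],[(k6,k2),(k9,k2)],[(k6,
    k2),(k9,k2)],[(k4,k2),(k11,k2)],[(k7,k2),(k8,k2)],[(k1,k2)]]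
    [] k0
    []
    []]⟩

/-- classes `0 0 1 2 1 3`, types `N0 N2 C0 S0 C2 S0` -/
noncomputable def cT6_1503 : CertT :=
  ⟨[k12,k14,k20,k32,k22,k48],[],[[[]]],
    [.lp [k2,k2,k2,k2,k2,k2] [k0,k0,k0,k0,k0,k0,k0,k0,k0,k0,k0,k0] k0 [] k8 k5
    [[(k1,k2),(k10,k2)],[(k2,k2)],[(k5,k2)],[(k0,k2)],[(k3,k2)],[(k7,k2),(k8,k2)],[(k4,k2),(k11,k2)],[(k6,k2),(k9,
    k2)],[(k6,k2),(k9,k2)],[(k4,k2),(k11,k2)],[(k7,k2),(k8,k2)],[(k1,k2),(k10,k2)]]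
    [] k0
    []
    []]⟩

/-- classes `0 0 1 2 1 3`, types `N0 N2 N0 C0 N1 C0` -/
noncomputable def cT6_1504 : CertT :=
  ⟨[k12,k14,k28,k36,k29,k52],[],[[[]]],
    [.lp [k0,k2,k0,k0,k2,k2] [k1,k1,k0,k0,k1,k1,k1,k1,k0,k0,k0,k0] k0 [] k4 k5
    [[(k10,k1)],[(k2,k1)],[(k5,k1)],[(k0,k1)],[(k3,k1)],[(k11,k1)],[(k8,k1)],[(k9,k1)],[(k6,k1)],[(k7,k1)],[(k4,k1)],
    [(k1,k1)]]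
    [] k0
    []
    []]⟩

/-- classes `0 0 1 2 1 3`, types `N0 N2 N0 C0 N1 S0` -/
noncomputable def cT6_1505 : CertT :=
  ⟨[k12,k14,k28,k36,k29,k48],[],[[[]]],
    [.lp [k2,k2,k2,k4,k0,k2] [k1,k1,k1,k1,k1,k1,k0,k0,k2,k2,k1,k1] k0 [] k8 k5
    [[(k1,k2),(k10,k2)],[(k2,k2)],[(k5,k2)],[(k0,k2)],[(k3,k2)],[(k11,k2)],[(k8,k2)],[(k9,k2)],[(k6,k2)],[(k7,k2)],
    [(k4,k2)],[(k1,k2),(k10,k2)]]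
    [] k0
    []
    []]⟩

/-- classes `0 0 1 2 1 3`, types `N0 N2 N0 C0 N2 C0` -/
noncomputable def cT6_1506 : CertT :=
  ⟨[k12,k14,k28,k36,k30,k52],[],[[[]]],
    [.lp [k0,k2,k0,k0,k2,k2] [k1,k1,k0,k0,k1,k1,k1,k1,k0,k0,k0,k0] k0 [] k4 k5
    [[(k10,k1)],[(k2,k1)],[(k5,k1)],[(k0,k1)],[(k3,k1)],[(k8,k1)],[(k11,k1)],[(k9,k1)],[(k6,k1)],[(k4,k1)],[(k7,k1)],
    [(k1,k1)]]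
    [] k0
    []
    []]⟩

/-- classes `0 0 1 2 1 3`, types `N0 N2 N0 C0 N2 S0` -/
noncomputable def cT6_1507 : CertT :=
  ⟨[k12,k14,k28,k36,k30,k48],[],[[[]]],
    [.lp [k2,k2,k2,k2,k2,k2] [k0,k0,k0,k0,k0,k0,k0,k0,k0,k0,k0,k0] k0 [] k8 k5
    [[(k1,k2),(k10,k2)],[(k2,k2)],[(k5,k2)],[(k0,k2)],[(k3,k2)],[(k8,k2)],[(k11,k2)],[(k9,k2)],[(k6,k2)],[(k4,k2)],
    [(k7,k2)],[(k1,k2),(k10,k2)]]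
    [] k0
    []
    []]⟩

/-- classes `0 0 1 2 1 3`, types `N0 N2 N0 S0 N1 C0` -/
noncomputable def cT6_1508 : CertT :=
  ⟨[k12,k14,k28,k32,k29,k52],[],[[[]]],
    [.lp [k4,k0,k4,k2,k2,k0] [k0,k0,k2,k2,k0,k0,k1,k1,k1,k1,k2,k2] k0 [] k8 k5
    [[(k10,k2)],[(k2,k2)],[(k5,k2)],[(k0,k2)],[(k3,k2)],[(k11,k2)],[(k8,k2)],[(k6,k2),(k9,k2)],[(k6,k2),(k9,k2)],[(k7,
    k2)],[(k4,k2)],[(k1,k2)]]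
    [] k0
    []
    []]⟩

/-- classes `0 0 1 2 1 3`, types `N0 N2 N0 S0 N1 S0` -/
noncomputable def cT6_1509 : CertT :=
  ⟨[k12,k14,k28,k32,k29,k48],[],[[[]]],
    [.lp [k2,k2,k2,k2,k2,k2] [k0,k0,k0,k0,k0,k0,k0,k0,k0,k0,k0,k0] k0 [] k8 k5
    [[(k1,k2),(k10,k2)],[(k2,k2)],[(k5,k2)],[(k0,k2)],[(k3,k2)],[(k11,k2)],[(k8,k2)],[(k6,k2),(k9,k2)],[(k6,k2),(k9,
    k2)],[(k7,k2)],[(k4,k2)],[(k1,k2),(k10,k2)]]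
    [] k0
    []
    []]⟩

/-- classes `0 0 1 2 1 3`, types `N0 N2 N0 S0 N2 C0` -/
noncomputable def cT6_1510 : CertT :=
  ⟨[k12,k14,k28,k32,k30,k52],[],[[[]]],
    [.lp [k2,k2,k2,k2,k2,k2] [k0,k0,k0,k0,k0,k0,k0,k0,k0,k0,k0,k0] k0 [] k8 k5
    [[(k10,k2)],[(k2,k2)],[(k5,k2)],[(k0,k2)],[(k3,k2)],[(k8,k2)],[(k11,k2)],[(k6,k2),(k9,k2)],[(k6,k2),(k9,k2)],[(k4,
    k2)],[(k7,k2)],[(k1,k2)]]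
    [] k0
    []
    []]⟩

/-- classes `0 0 1 2 1 3`, types `N0 N2 N0 S0 N2 S0` -/
noncomputable def cT6_1511 : CertT :=
  ⟨[k12,k14,k28,k32,k30,k48],[],[[[]]],
    [.lp [k2,k2,k2,k2,k2,k2] [k0,k0,k0,k0,k0,k0,k0,k0,k0,k0,k0,k0] k0 [] k8 k5
    [[(k1,k2),(k10,k2)],[(k2,k2)],[(k5,k2)],[(k0,k2)],[(k3,k2)],[(k8,k2)],[(k11,k2)],[(k6,k2),(k9,k2)],[(k6,k2),(k9,
    k2)],[(k4,k2)],[(k7,k2)],[(k1,k2),(k10,k2)]]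
    [] k0
    []
    []]⟩

/-- classes `0 0 1 2 1 3`, types `N0 N2 S0 C0 S0 C0` -/
noncomputable def cT6_1512 : CertT :=
  ⟨[k12,k14,k16,k36,k16,k52],[],[[[]]],
    [.lp [k2,k2,k2,k2,k2,k2] [k0,k0,k0,k0,k0,k0,k0,k0,k0,k0,k0,k0] k0 [] k8 k5
    [[(k10,k2)],[(k2,k2)],[(k5,k2)],[(k0,k2)],[(k3,k2)],[(k4,k2),(k7,k2),(k8,k2),(k11,k2)],[(k4,k2),(k7,k2),(k8,k2),
    (k11,k2)],[(k9,k2)],[(k6,k2)],[(k4,k2),(k7,k2),(k8,k2),(k11,k2)],[(k4,k2),(k7,k2),(k8,k2),(k11,k2)],[(k1,k2)]]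
    [] k0
    []
    []]⟩

/-- classes `0 0 1 2 1 3`, types `N0 N2 S0 C0 S0 S0` -/
noncomputable def cT6_1513 : CertT :=
  ⟨[k12,k14,k16,k36,k16,k48],[],[[[]]],
    [.lp [k2,k2,k2,k2,k2,k2] [k0,k0,k0,k0,k0,k0,k0,k0,k0,k0,k0,k0] k0 [] k8 k5
    [[(k1,k2),(k10,k2)],[(k2,k2)],[(k5,k2)],[(k0,k2)],[(k3,k2)],[(k4,k2),(k7,k2),(k8,k2),(k11,k2)],[(k4,k2),(k7,k2),
    (k8,k2),(k11,k2)],[(k9,k2)],[(k6,k2)],[(k4,k2),(k7,k2),(k8,k2),(k11,k2)],[(k4,k2),(k7,k2),(k8,k2),(k11,k2)],[(k1,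
    k2),(k10,k2)]]
    [] k0
    []
    []]⟩

/-- classes `0 0 1 2 1 3`, types `N0 N2 S0 S0 S0 C0` -/
noncomputable def cT6_1514 : CertT :=
  ⟨[k12,k14,k16,k32,k16,k52],[],[[[]]],
    [.lp [k2,k2,k2,k2,k2,k2] [k0,k0,k0,k0,k0,k0,k0,k0,k0,k0,k0,k0] k0 [] k8 k5
    [[(k10,k2)],[(k2,k2)],[(k5,k2)],[(k0,k2)],[(k3,k2)],[(k4,k2),(k7,k2),(k8,k2),(k11,k2)],[(k4,k2),(k7,k2),(k8,k2),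
    (k11,k2)],[(k6,k2),(k9,k2)],[(k6,k2),(k9,k2)],[(k4,k2),(k7,k2),(k8,k2),(k11,k2)],[(k4,k2),(k7,k2),(k8,k2),(k11,
    k2)],[(k1,k2)]]
    [] k0
    []
    []]⟩

/-- classes `0 0 1 2 1 3`, types `N0 N2 S0 S0 S0 S0` -/
noncomputable def cT6_1515 : CertT :=
  ⟨[k12,k14,k16,k32,k16,k48],[],[[[]]],
    [.lp [k2,k2,k2,k2,k2,k2] [k0,k0,k0,k0,k0,k0,k0,k0,k0,k0,k0,k0] k0 [] k8 k5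
    [[(k1,k2),(k10,k2)],[(k2,k2)],[(k5,k2)],[(k0,k2)],[(k3,k2)],[(k4,k2),(k7,k2),(k8,k2),(k11,k2)],[(k4,k2),(k7,k2),
    (k8,k2),(k11,k2)],[(k6,k2),(k9,k2)],[(k6,k2),(k9,k2)],[(k4,k2),(k7,k2),(k8,k2),(k11,k2)],[(k4,k2),(k7,k2),(k8,k2),
    (k11,k2)],[(k1,k2),(k10,k2)]]
    [] k0
    []
    []]⟩

/-- classes `0 0 1 2 1 3`, types `S0 S0 B0 C0 B1 C0` -/
noncomputable def cT6_1516 : CertT :=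
  ⟨[k0,k0,k24,k36,k25,k52],[],[[[]]],
    [.lp [k6,k8,k6,k0,k12,k12] [k3,k3,k2,k2,k3,k3,k6,k6,k0,k0,k0,k0] k0 [] k24 k5
    [[(k10,k9)],[(k0,k6),(k5,k6),(k2,k7),(k3,k7)],[(k0,k7),(k5,k7),(k2,k8),(k3,k8)],[(k0,k7),(k5,k7),(k2,k8),(k3,k8)],
    [(k0,k6),(k5,k6),(k2,k7),(k3,k7)],[(k8,k9),(k11,k9)],[(k8,k6),(k11,k6)],[(k9,k6)],[(k6,k6)],[(k7,k6),(k4,k9)],
    [(k7,k6),(k4,k9)],[(k1,k9)]]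
    [] k0
    []
    []]⟩

/-- classes `0 0 1 2 1 3`, types `S0 S0 B0 C0 B1 S0` -/
noncomputable def cT6_1517 : CertT :=
  ⟨[k0,k0,k24,k36,k25,k48],[],[[[]]],
    [.lp [k12,k8,k6,k6,k6,k6] [k0,k0,k2,k2,k3,k3,k3,k3,k3,k3,k3,k3] k0 [] k24 k5
    [[(k10,k9),(k1,k12)],[(k5,k9),(k2,k10),(k3,k10),(k0,k12)],[(k5,k7),(k2,k8),(k3,k8),(k0,k10)],[(k5,k7),(k2,k8),(k3,
    k8),(k0,k10)],[(k5,k6),(k2,k7),(k3,k7),(k0,k9)],[(k8,k6),(k11,k6)],[(k8,k6),(k11,k6)],[(k9,k6)],[(k6,k6)],[(k4,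
    k6),(k7,k6)],[(k4,k6),(k7,k6)],[(k10,k6),(k1,k9)]]
    [] k0
    []
    []]⟩

/-- classes `0 0 1 2 1 3`, types `S0 S0 B0 S0 B1 C0` -/
noncomputable def cT6_1518 : CertT :=
  ⟨[k0,k0,k24,k32,k25,k52],[],[[[]]],
    [.lp [k12,k8,k6,k6,k6,k6] [k0,k0,k2,k2,k3,k3,k3,k3,k3,k3,k3,k3] k0 [] k24 k5
    [[(k10,k9)],[(k5,k9),(k2,k10),(k3,k10),(k0,k12)],[(k5,k7),(k2,k8),(k3,k8),(k0,k10)],[(k5,k7),(k2,k8),(k3,k8),(k0,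
    k10)],[(k5,k6),(k2,k7),(k3,k7),(k0,k9)],[(k8,k6),(k11,k6)],[(k8,k6),(k11,k6)],[(k6,k6),(k9,k6)],[(k6,k6),(k9,k6)],
    [(k4,k6),(k7,k6)],[(k4,k6),(k7,k6)],[(k1,k9)]]
    [] k0
    []
    []]⟩

/-- classes `0 0 1 2 1 3`, types `S0 S0 B0 S0 B1 S0` -/
noncomputable def cT6_1519 : CertT :=
  ⟨[k0,k0,k24,k32,k25,k48],[],[[[]]],
    [.lp [k8,k8,k6,k6,k6,k10] [k1,k1,k1,k1,k2,k2,k2,k2,k2,k2,k0,k0] k0 [] k24 k5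
    [[(k1,k8),(k10,k9)],[(k5,k7),(k0,k8),(k2,k8),(k3,k8)],[(k5,k7),(k0,k8),(k2,k8),(k3,k8)],[(k5,k7),(k0,k8),(k2,k8),
    (k3,k8)],[(k5,k6),(k0,k7),(k2,k7),(k3,k7)],[(k8,k6),(k11,k8)],[(k8,k6),(k11,k8)],[(k6,k6),(k9,k6)],[(k6,k6),(k9,
    k6)],[(k4,k6),(k7,k6)],[(k4,k8),(k7,k8)],[(k1,k9),(k10,k10)]]
    [] k0
    []
    []]⟩

/-- classes `0 0 1 2 1 3`, types `S0 S0 C0 C0 C0 C0` -/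
noncomputable def cT6_1520 : CertT :=
  ⟨[k0,k0,k20,k36,k20,k52],[],[[[]]],
    [.lp [k6,k8,k6,k12,k0,k12] [k3,k3,k2,k2,k3,k3,k0,k0,k6,k6,k0,k0] k0 [] k24 k5
    [[(k10,k9)],[(k0,k6),(k5,k6),(k2,k7),(k3,k7)],[(k0,k7),(k5,k7),(k2,k8),(k3,k8)],[(k0,k7),(k5,k7),(k2,k8),(k3,k8)],
    [(k0,k6),(k5,k6),(k2,k7),(k3,k7)],[(k7,k9),(k11,k9)],[(k8,k6),(k4,k9)],[(k9,k6)],[(k6,k6)],[(k7,k6),(k11,k6)],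
    [(k8,k6),(k4,k9)],[(k1,k9)]]
    [] k0
    []
    []]⟩

/-- classes `0 0 1 2 1 3`, types `S0 S0 C0 C0 C0 S0` -/
noncomputable def cT6_1521 : CertT :=
  ⟨[k0,k0,k20,k36,k20,k48],[],[[[]]],
    [.lp [k12,k8,k6,k6,k6,k6] [k0,k0,k2,k2,k3,k3,k3,k3,k3,k3,k3,k3] k0 [] k24 k5
    [[(k10,k9),(k1,k12)],[(k5,k9),(k2,k10),(k3,k10),(k0,k12)],[(k5,k7),(k2,k8),(k3,k8),(k0,k10)],[(k5,k7),(k2,k8),(k3,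
    k8),(k0,k10)],[(k5,k6),(k2,k7),(k3,k7),(k0,k9)],[(k7,k6),(k11,k6)],[(k4,k6),(k8,k6)],[(k9,k6)],[(k6,k6)],[(k7,k6),
    (k11,k6)],[(k4,k6),(k8,k6)],[(k10,k6),(k1,k9)]]
    [] k0
    []
    []]⟩

/-- classes `0 0 1 2 1 3`, types `S0 S0 C0 C0 C2 C0` -/
noncomputable def cT6_1522 : CertT :=
  ⟨[k0,k0,k20,k36,k22,k52],[],[[[]]],
    [.lp [k6,k8,k6,k6,k6,k6] [k1,k1,k0,k0,k1,k1,k1,k1,k1,k1,k1,k1] k0 [] k24 k5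
    [[(k10,k6)],[(k0,k6),(k5,k6),(k2,k7),(k3,k7)],[(k0,k7),(k5,k7),(k2,k8),(k3,k8)],[(k0,k7),(k5,k7),(k2,k8),(k3,k8)],
    [(k0,k6),(k5,k6),(k2,k7),(k3,k7)],[(k7,k6),(k8,k6)],[(k4,k6),(k11,k6)],[(k9,k6)],[(k6,k6)],[(k4,k6),(k11,k6)],
    [(k7,k6),(k8,k6)],[(k1,k6)]]
    [] k0
    []
    []]⟩

/-- classes `0 0 1 2 1 3`, types `S0 S0 C0 C0 C2 S0` -/
noncomputable def cT6_1523 : CertT :=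
  ⟨[k0,k0,k20,k36,k22,k48],[],[[[]]],
    [.lp [k8,k8,k6,k6,k6,k6] [k0,k0,k0,k0,k1,k1,k1,k1,k1,k1,k1,k1] k0 [] k24 k5
    [[(k10,k7),(k1,k8)],[(k5,k7),(k0,k8),(k2,k8),(k3,k8)],[(k5,k7),(k0,k8),(k2,k8),(k3,k8)],[(k5,k7),(k0,k8),(k2,k8),
    (k3,k8)],[(k5,k6),(k0,k7),(k2,k7),(k3,k7)],[(k7,k6),(k8,k6)],[(k4,k6),(k11,k6)],[(k9,k6)],[(k6,k6)],[(k4,k6),(k11,
    k6)],[(k7,k6),(k8,k6)],[(k10,k6),(k1,k7)]]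
    [] k0
    []
    []]⟩

/-- classes `0 0 1 2 1 3`, types `S0 S0 C0 S0 C0 C0` -/
noncomputable def cT6_1524 : CertT :=
  ⟨[k0,k0,k20,k32,k20,k52],[],[[[]]],
    [.lp [k12,k8,k6,k6,k6,k6] [k0,k0,k2,k2,k3,k3,k3,k3,k3,k3,k3,k3] k0 [] k24 k5
    [[(k10,k9)],[(k5,k9),(k2,k10),(k3,k10),(k0,k12)],[(k5,k7),(k2,k8),(k3,k8),(k0,k10)],[(k5,k7),(k2,k8),(k3,k8),(k0,
    k10)],[(k5,k6),(k2,k7),(k3,k7),(k0,k9)],[(k7,k6),(k11,k6)],[(k4,k6),(k8,k6)],[(k6,k6),(k9,k6)],[(k6,k6),(k9,k6)],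
    [(k7,k6),(k11,k6)],[(k4,k6),(k8,k6)],[(k1,k9)]]
    [] k0
    []
    []]⟩

/-- classes `0 0 1 2 1 3`, types `S0 S0 C0 S0 C0 S0` -/
noncomputable def cT6_1525 : CertT :=
  ⟨[k0,k0,k20,k32,k20,k48],[],[[[]]],
    [.lp [k12,k8,k6,k6,k6,k6] [k0,k0,k2,k2,k3,k3,k3,k3,k3,k3,k3,k3] k0 [] k24 k5
    [[(k10,k9),(k1,k12)],[(k5,k9),(k2,k10),(k3,k10),(k0,k12)],[(k5,k7),(k2,k8),(k3,k8),(k0,k10)],[(k5,k7),(k2,k8),(k3,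
    k8),(k0,k10)],[(k5,k6),(k2,k7),(k3,k7),(k0,k9)],[(k7,k6),(k11,k6)],[(k4,k6),(k8,k6)],[(k6,k6),(k9,k6)],[(k6,k6),
    (k9,k6)],[(k7,k6),(k11,k6)],[(k4,k6),(k8,k6)],[(k10,k6),(k1,k9)]]
    [] k0
    []
    []]⟩

/-- classes `0 0 1 2 1 3`, types `S0 S0 C0 S0 C2 C0` -/
noncomputable def cT6_1526 : CertT :=
  ⟨[k0,k0,k20,k32,k22,k52],[],[[[]]],
    [.lp [k6,k8,k6,k6,k6,k6] [k1,k1,k0,k0,k1,k1,k1,k1,k1,k1,k1,k1] k0 [] k24 k5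
    [[(k10,k6)],[(k0,k6),(k5,k6),(k2,k7),(k3,k7)],[(k0,k7),(k5,k7),(k2,k8),(k3,k8)],[(k0,k7),(k5,k7),(k2,k8),(k3,k8)],
    [(k0,k6),(k5,k6),(k2,k7),(k3,k7)],[(k7,k6),(k8,k6)],[(k4,k6),(k11,k6)],[(k6,k6),(k9,k6)],[(k6,k6),(k9,k6)],[(k4,
    k6),(k11,k6)],[(k7,k6),(k8,k6)],[(k1,k6)]]
    [] k0
    []
    []]⟩

/-- classes `0 0 1 2 1 3`, types `S0 S0 C0 S0 C2 S0` -/
noncomputable def cT6_1527 : CertT :=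
  ⟨[k0,k0,k20,k32,k22,k48],[],[[[]]],
    [.lp [k8,k8,k6,k6,k6,k6] [k0,k0,k0,k0,k1,k1,k1,k1,k1,k1,k1,k1] k0 [] k24 k5
    [[(k10,k7),(k1,k8)],[(k5,k7),(k0,k8),(k2,k8),(k3,k8)],[(k5,k7),(k0,k8),(k2,k8),(k3,k8)],[(k5,k7),(k0,k8),(k2,k8),
    (k3,k8)],[(k5,k6),(k0,k7),(k2,k7),(k3,k7)],[(k7,k6),(k8,k6)],[(k4,k6),(k11,k6)],[(k6,k6),(k9,k6)],[(k6,k6),(k9,
    k6)],[(k4,k6),(k11,k6)],[(k7,k6),(k8,k6)],[(k10,k6),(k1,k7)]]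
    [] k0
    []
    []]⟩

/-- classes `0 0 1 2 1 3`, types `S0 S0 N0 C0 N1 C0` -/
noncomputable def cT6_1528 : CertT :=
  ⟨[k0,k0,k28,k36,k29,k52],[],[[[]]],
    [.lp [k6,k8,k6,k12,k0,k12] [k3,k3,k2,k2,k3,k3,k0,k0,k6,k6,k0,k0] k0 [] k24 k5
    [[(k10,k9)],[(k0,k6),(k5,k6),(k2,k7),(k3,k7)],[(k0,k7),(k5,k7),(k2,k8),(k3,k8)],[(k0,k7),(k5,k7),(k2,k8),(k3,k8)],
    [(k0,k6),(k5,k6),(k2,k7),(k3,k7)],[(k11,k9)],[(k8,k6)],[(k9,k6)],[(k6,k6)],[(k7,k6)],[(k4,k9)],[(k1,k9)]]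
    [] k0
    []
    []]⟩

/-- classes `0 0 1 2 1 3`, types `S0 S0 N0 C0 N1 S0` -/
noncomputable def cT6_1529 : CertT :=
  ⟨[k0,k0,k28,k36,k29,k48],[],[[[]]],
    [.lp [k12,k8,k6,k0,k12,k6] [k0,k0,k2,k2,k3,k3,k6,k6,k0,k0,k3,k3] k0 [] k24 k5
    [[(k10,k9),(k1,k12)],[(k5,k9),(k2,k10),(k3,k10),(k0,k12)],[(k5,k7),(k2,k8),(k3,k8),(k0,k10)],[(k5,k7),(k2,k8),(k3,
    k8),(k0,k10)],[(k5,k6),(k2,k7),(k3,k7),(k0,k9)],[(k11,k6)],[(k8,k6)],[(k9,k6)],[(k6,k6)],[(k7,k6)],[(k4,k6)],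
    [(k10,k6),(k1,k9)]]
    [] k0
    []
    []]⟩

/-- classes `0 0 1 2 1 3`, types `S0 S0 N0 C0 N2 C0` -/
noncomputable def cT6_1530 : CertT :=
  ⟨[k0,k0,k28,k36,k30,k52],[],[[[]]],
    [.lp [k6,k8,k6,k6,k6,k6] [k1,k1,k0,k0,k1,k1,k1,k1,k1,k1,k1,k1] k0 [] k24 k5
    [[(k10,k6)],[(k0,k6),(k5,k6),(k2,k7),(k3,k7)],[(k0,k7),(k5,k7),(k2,k8),(k3,k8)],[(k0,k7),(k5,k7),(k2,k8),(k3,k8)],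
    [(k0,k6),(k5,k6),(k2,k7),(k3,k7)],[(k8,k6)],[(k11,k6)],[(k9,k6)],[(k6,k6)],[(k4,k6)],[(k7,k6)],[(k1,k6)]]
    [] k0
    []
    []]⟩

/-- classes `0 0 1 2 1 3`, types `S0 S0 N0 C0 N2 S0` -/
noncomputable def cT6_1531 : CertT :=
  ⟨[k0,k0,k28,k36,k30,k48],[],[[[]]],
    [.lp [k8,k8,k6,k6,k6,k6] [k0,k0,k0,k0,k1,k1,k1,k1,k1,k1,k1,k1] k0 [] k24 k5
    [[(k10,k7),(k1,k8)],[(k5,k7),(k0,k8),(k2,k8),(k3,k8)],[(k5,k7),(k0,k8),(k2,k8),(k3,k8)],[(k5,k7),(k0,k8),(k2,k8),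
    (k3,k8)],[(k5,k6),(k0,k7),(k2,k7),(k3,k7)],[(k8,k6)],[(k11,k6)],[(k9,k6)],[(k6,k6)],[(k4,k6)],[(k7,k6)],[(k10,k6),
    (k1,k7)]]
    [] k0
    []
    []]⟩

/-- classes `0 0 1 2 1 3`, types `S0 S0 N0 S0 N1 C0` -/
noncomputable def cT6_1532 : CertT :=
  ⟨[k0,k0,k28,k32,k29,k52],[],[[[]]],
    [.lp [k12,k8,k6,k6,k6,k6] [k0,k0,k2,k2,k3,k3,k3,k3,k3,k3,k3,k3] k0 [] k24 k5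
    [[(k10,k9)],[(k5,k9),(k2,k10),(k3,k10),(k0,k12)],[(k5,k7),(k2,k8),(k3,k8),(k0,k10)],[(k5,k7),(k2,k8),(k3,k8),(k0,
    k10)],[(k5,k6),(k2,k7),(k3,k7),(k0,k9)],[(k11,k6)],[(k8,k6)],[(k6,k6),(k9,k6)],[(k6,k6),(k9,k6)],[(k7,k6)],[(k4,
    k6)],[(k1,k9)]]
    [] k0
    []
    []]⟩

/-- classes `0 0 1 2 1 3`, types `S0 S0 N0 S0 N1 S0` -/
noncomputable def cT6_1533 : CertT :=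
  ⟨[k0,k0,k28,k32,k29,k48],[],[[[]]],
    [.lp [k12,k8,k6,k6,k6,k6] [k0,k0,k2,k2,k3,k3,k3,k3,k3,k3,k3,k3] k0 [] k24 k5
    [[(k10,k9),(k1,k12)],[(k5,k9),(k2,k10),(k3,k10),(k0,k12)],[(k5,k7),(k2,k8),(k3,k8),(k0,k10)],[(k5,k7),(k2,k8),(k3,
    k8),(k0,k10)],[(k5,k6),(k2,k7),(k3,k7),(k0,k9)],[(k11,k6)],[(k8,k6)],[(k6,k6),(k9,k6)],[(k6,k6),(k9,k6)],[(k7,
    k6)],[(k4,k6)],[(k10,k6),(k1,k9)]]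
    [] k0
    []
    []]⟩

/-- classes `0 0 1 2 1 3`, types `S0 S0 N0 S0 N2 C0` -/
noncomputable def cT6_1534 : CertT :=
  ⟨[k0,k0,k28,k32,k30,k52],[],[[[]]],
    [.lp [k6,k8,k6,k6,k6,k6] [k1,k1,k0,k0,k1,k1,k1,k1,k1,k1,k1,k1] k0 [] k24 k5
    [[(k10,k6)],[(k0,k6),(k5,k6),(k2,k7),(k3,k7)],[(k0,k7),(k5,k7),(k2,k8),(k3,k8)],[(k0,k7),(k5,k7),(k2,k8),(k3,k8)],
    [(k0,k6),(k5,k6),(k2,k7),(k3,k7)],[(k8,k6)],[(k11,k6)],[(k6,k6),(k9,k6)],[(k6,k6),(k9,k6)],[(k4,k6)],[(k7,k6)],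
    [(k1,k6)]]
    [] k0
    []
    []]⟩

/-- classes `0 0 1 2 1 3`, types `S0 S0 N0 S0 N2 S0` -/
noncomputable def cT6_1535 : CertT :=
  ⟨[k0,k0,k28,k32,k30,k48],[],[[[]]],
    [.lp [k8,k8,k6,k6,k6,k6] [k0,k0,k0,k0,k1,k1,k1,k1,k1,k1,k1,k1] k0 [] k24 k5
    [[(k10,k7),(k1,k8)],[(k5,k7),(k0,k8),(k2,k8),(k3,k8)],[(k5,k7),(k0,k8),(k2,k8),(k3,k8)],[(k5,k7),(k0,k8),(k2,k8),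
    (k3,k8)],[(k5,k6),(k0,k7),(k2,k7),(k3,k7)],[(k8,k6)],[(k11,k6)],[(k6,k6),(k9,k6)],[(k6,k6),(k9,k6)],[(k4,k6)],
    [(k7,k6)],[(k10,k6),(k1,k7)]]
    [] k0
    []
    []]⟩

/-- classes `0 0 1 2 1 3`, types `S0 S0 S0 C0 S0 C0` -/
noncomputable def cT6_1536 : CertT :=
  ⟨[k0,k0,k16,k36,k16,k52],[],[[[]]],
    [.lp [k6,k8,k8,k6,k6,k10] [k2,k2,k1,k1,k1,k1,k2,k2,k2,k2,k0,k0] k0 [] k24 k5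
    [[(k10,k8)],[(k0,k6),(k2,k7),(k3,k7),(k5,k7)],[(k0,k7),(k2,k8),(k3,k8),(k5,k8)],[(k0,k7),(k2,k8),(k3,k8),(k5,k8)],
    [(k0,k7),(k2,k8),(k3,k8),(k5,k8)],[(k7,k7),(k8,k7),(k4,k8),(k11,k9)],[(k7,k6),(k8,k6),(k4,k7),(k11,k8)],[(k9,k6)],
    [(k6,k6)],[(k7,k6),(k8,k6),(k4,k7),(k11,k8)],[(k7,k8),(k8,k8),(k4,k9),(k11,k10)],[(k1,k8)]]
    [] k0
    []
    []]⟩

/-- classes `0 0 1 2 1 3`, types `S0 S0 S0 C0 S0 S0` -/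
noncomputable def cT6_1537 : CertT :=
  ⟨[k0,k0,k16,k36,k16,k48],[],[[[]]],
    [.lp [k8,k8,k8,k6,k6,k8] [k0,k0,k0,k0,k0,k0,k1,k1,k1,k1,k0,k0] k0 [] k24 k5
    [[(k1,k8),(k10,k8)],[(k0,k8),(k2,k8),(k3,k8),(k5,k8)],[(k0,k8),(k2,k8),(k3,k8),(k5,k8)],[(k0,k8),(k2,k8),(k3,k8),
    (k5,k8)],[(k0,k8),(k2,k8),(k3,k8),(k5,k8)],[(k7,k7),(k8,k7),(k4,k8),(k11,k8)],[(k7,k6),(k8,k6),(k4,k7),(k11,k7)],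
    [(k9,k6)],[(k6,k6)],[(k7,k6),(k8,k6),(k4,k7),(k11,k7)],[(k7,k7),(k8,k7),(k4,k8),(k11,k8)],[(k1,k8),(k10,k8)]]
    [] k0
    []
    []]⟩

/-- classes `0 0 1 2 1 3`, types `S0 S0 S0 S0 S0 C0` -/
noncomputable def cT6_1538 : CertT :=
  ⟨[k0,k0,k16,k32,k16,k52],[],[[[]]],
    [.lp [k6,k8,k8,k6,k6,k10] [k2,k2,k1,k1,k1,k1,k2,k2,k2,k2,k0,k0] k0 [] k24 k5
    [[(k10,k8)],[(k0,k6),(k2,k7),(k3,k7),(k5,k7)],[(k0,k7),(k2,k8),(k3,k8),(k5,k8)],[(k0,k7),(k2,k8),(k3,k8),(k5,k8)],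
    [(k0,k7),(k2,k8),(k3,k8),(k5,k8)],[(k7,k7),(k8,k7),(k4,k8),(k11,k9)],[(k7,k6),(k8,k6),(k4,k7),(k11,k8)],[(k6,k6),
    (k9,k6)],[(k6,k6),(k9,k6)],[(k7,k6),(k8,k6),(k4,k7),(k11,k8)],[(k7,k8),(k8,k8),(k4,k9),(k11,k10)],[(k1,k8)]]
    [] k0
    []
    []]⟩

/-- classes `0 0 1 2 2 1`, types `B0 B1 B0 B0 B1 B1` -/
noncomputable def cT6_1539 : CertT :=
  ⟨[k8,k9,k24,k40,k41,k25],[(false,k0,[k0,k1,k2,k3,k4,k5])],[[[([z1,z1,z1,z0,z0,z0],z2)],[]]],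
    [.leafM k6 [k0,k1,k2,k3,k4,k5] [(z1,[y1,z1])] [],
    .lp [k6,k4,k2,k2,k4,k4] [k0,k0,k1,k1,k2,k2,k2,k2,k1,k1,k1,k1] k0 [] k12 k5
    [[(k4,k4),(k7,k4)],[(k5,k4),(k2,k5)],[(k5,k3),(k2,k4)],[(k3,k4),(k0,k5)],[(k3,k3),(k0,k4)],[(k10,k3),(k1,k4)],
    [(k10,k3),(k1,k4)],[(k8,k3),(k11,k3)],[(k8,k4),(k11,k4)],[(k6,k3),(k9,k4)],[(k6,k3),(k9,k4)],[(k4,k3),(k7,k3)]]
    [] k0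
    [[k0,k0,k0,k1,k1,k1]]
    [.ref k0 k0 [(z1,[y1,z1])]]]⟩

/-- classes `0 0 1 2 2 1`, types `B0 B1 B0 C0 C0 B1` -/
noncomputable def cT6_1540 : CertT :=
  ⟨[k8,k9,k24,k36,k36,k25],[(false,k0,[k0,k1,k2,k3,k4,k5])],[[[([z1,z1,z1,z0,z0,z0],z2)],[]]],
    [.leafM k4 [k0,k1,k2,k3,k4,k5] [(z1,[y1,z1])] [],
    .lp [k4,k4,k2,k2,k4,k6] [k1,k1,k1,k1,k2,k2,k2,k2,k1,k1,k0,k0] k0 [] k12 k5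
    [[(k4,k3),(k7,k3)],[(k5,k3),(k2,k4)],[(k5,k3),(k2,k4)],[(k0,k4),(k3,k4)],[(k0,k3),(k3,k3)],[(k1,k3),(k10,k4)],
    [(k1,k3),(k10,k4)],[(k9,k3),(k11,k4)],[(k6,k3),(k8,k4)],[(k9,k4),(k11,k5)],[(k6,k4),(k8,k5)],[(k4,k4),(k7,k4)]]
    [] k0
    [[k1,k1,k1,k0,k0,k0]]
    [.ref k0 k0 [(z1,[z1])]]]⟩

/-- classes `0 0 1 2 2 1`, types `B0 B1 B0 C0 C2 B1` -/
noncomputable def cT6_1541 : CertT :=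
  ⟨[k8,k9,k24,k36,k38,k25],[(false,k0,[k0,k1,k2,k3,k4,k5])],[[[([z1,z1,z1,z0,z0,z0],z2)],[]]],
    [.leafM k4 [k0,k1,k2,k3,k4,k5] [(z1,[y1,z1])] [],
    .lp [k2,k4,k4,k6,k0,k6] [k2,k2,k1,k1,k1,k1,k0,k0,k3,k3,k0,k0] k0 [] k12 k5
    [[(k4,k3),(k7,k4)],[(k2,k3),(k5,k3)],[(k2,k4),(k5,k4)],[(k0,k3),(k3,k4)],[(k0,k3),(k3,k4)],[(k1,k3),(k10,k5)],
    [(k1,k4),(k10,k6)],[(k8,k3),(k9,k3)],[(k6,k3),(k11,k3)],[(k6,k3),(k11,k3)],[(k8,k3),(k9,k3)],[(k4,k5),(k7,k6)]]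
    [] k0
    [[k1,k1,k1,k0,k0,k0]]
    [.ref k0 k0 [(z1,[z1])]]]⟩

/-- classes `0 0 1 2 2 1`, types `B0 B1 B0 N0 N1 B1` -/
noncomputable def cT6_1542 : CertT :=
  ⟨[k8,k9,k24,k44,k45,k25],[],[[[]]],
    [.lp [k6,k6,k0,k0,k4,k6] [k0,k0,k0,k0,k3,k3,k3,k3,k1,k1,k0,k0] k0 [] k12 k5
    [[(k4,k3),(k7,k3)],[(k5,k3),(k2,k6)],[(k5,k3),(k2,k6)],[(k0,k6),(k3,k6)],[(k0,k3),(k3,k3)],[(k1,k3),(k10,k3)],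
    [(k1,k3),(k10,k3)],[(k11,k3)],[(k8,k4)],[(k9,k4)],[(k6,k3)],[(k4,k3),(k7,k3)]]
    [] k0
    []
    []]⟩

/-- classes `0 0 1 2 2 1`, types `B0 B1 B0 N0 N2 B1` -/
noncomputable def cT6_1543 : CertT :=
  ⟨[k8,k9,k24,k44,k46,k25],[(false,k0,[k0,k1,k2,k3,k4,k5])],[[[([z1,z1,z1,z0,z0,z0],z2)],[]]],
    [.leafM k6 [k0,k1,k2,k3,k4,k5] [(z1,[y1,z1])] [],
    .lp [k2,k4,k4,k6,k0,k6] [k2,k2,k1,k1,k1,k1,k0,k0,k3,k3,k0,k0] k0 [] k12 k5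
    [[(k4,k3),(k7,k4)],[(k2,k3),(k5,k3)],[(k2,k4),(k5,k4)],[(k0,k3),(k3,k4)],[(k0,k3),(k3,k4)],[(k1,k3),(k10,k5)],
    [(k1,k4),(k10,k6)],[(k8,k3)],[(k11,k3)],[(k6,k3)],[(k9,k3)],[(k4,k5),(k7,k6)]]
    [] k0
    [[k1,k1,k1,k0,k0,k0]]
    [.ref k0 k0 [(z1,[z1])]]]⟩

/-- classes `0 0 1 2 2 1`, types `B0 B1 B0 S0 S0 B1` -/
noncomputable def cT6_1544 : CertT :=
  ⟨[k8,k9,k24,k32,k32,k25],[(false,k0,[k0,k1,k2,k3,k4,k5])],[[[([z1,z1,z1,z0,z0,z0],z2)],[]]],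
    [.leafM k4 [k0,k1,k2,k3,k4,k5] [(z1,[y1,z1])] [],
    .lp [k8,k8,k4,k6,k8,k10] [k1,k1,k1,k1,k3,k3,k2,k2,k1,k1,k0,k0] k0 [] k24 k5
    [[(k4,k6),(k7,k7)],[(k5,k6),(k2,k8)],[(k5,k6),(k2,k8)],[(k0,k8),(k3,k8)],[(k0,k6),(k3,k6)],[(k1,k6),(k10,k7)],
    [(k1,k7),(k10,k8)],[(k6,k6),(k8,k7),(k9,k7),(k11,k8)],[(k6,k7),(k8,k8),(k9,k8),(k11,k9)],[(k6,k7),(k8,k8),(k9,k8),
    (k11,k9)],[(k6,k8),(k8,k9),(k9,k9),(k11,k10)],[(k4,k7),(k7,k8)]]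
    [] k0
    [[k1,k1,k1,k0,k0,k0]]
    [.ref k0 k0 [(z1,[z1])]]]⟩

/-- classes `0 0 1 2 2 1`, types `B0 B1 C0 B0 B1 C0` -/
noncomputable def cT6_1545 : CertT :=
  ⟨[k8,k9,k20,k40,k41,k20],[(false,k0,[k0,k1,k2,k3,k4,k5])],[[[([z1,z1,z1,z0,z0,z0],z2)],[]]],
    [.leafM k6 [k0,k1,k2,k3,k4,k5] [(z1,[y1,z1])] [],
    .lp [k2,k4,k4,k2,k4,k6] [k2,k2,k1,k1,k1,k1,k2,k2,k1,k1,k0,k0] k0 [] k12 k5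
    [[(k4,k3),(k10,k4)],[(k2,k3),(k5,k3)],[(k2,k4),(k5,k4)],[(k0,k3),(k3,k4)],[(k0,k3),(k3,k4)],[(k1,k3),(k7,k3)],
    [(k4,k3),(k10,k4)],[(k8,k3),(k11,k4)],[(k8,k4),(k11,k5)],[(k6,k3),(k9,k4)],[(k6,k4),(k9,k5)],[(k1,k4),(k7,k4)]]
    [] k0
    [[k1,k1,k1,k0,k0,k0]]
    [.ref k0 k0 [(z1,[z1])]]]⟩

/-- classes `0 0 1 2 2 1`, types `B0 B1 C0 B0 B1 C2` -/
noncomputable def cT6_1546 : CertT :=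
  ⟨[k8,k9,k20,k40,k41,k22],[],[[[]]],
    [.lp [k6,k8,k6,k6,k8,k6] [k1,k1,k0,k0,k1,k1,k1,k1,k0,k0,k1,k1] k0 [] k24 k5
    [[(k7,k6),(k10,k6)],[(k5,k6),(k2,k7)],[(k5,k7),(k2,k8)],[(k0,k7),(k3,k8)],[(k0,k6),(k3,k7)],[(k7,k6),(k10,k6)],
    [(k1,k6),(k4,k6)],[(k11,k6),(k8,k7)],[(k11,k7),(k8,k8)],[(k6,k7),(k9,k8)],[(k6,k6),(k9,k7)],[(k1,k6),(k4,k6)]]
    [] k0
    []
    []]⟩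

/-- classes `0 0 1 2 2 1`, types `B0 B1 C0 C0 C0 C0` -/
noncomputable def cT6_1547 : CertT :=
  ⟨[k8,k9,k20,k36,k36,k20],[(false,k0,[k0,k1,k2,k3,k4,k5])],[[[([z1,z1,z1,z0,z0,z0],z2)],[]]],
    [.leafM k4 [k0,k1,k2,k3,k4,k5] [(z1,[y1,z1])] [],
    .lp [k4,k4,k4,k4,k4,k2] [k0,k0,k0,k0,k0,k0,k0,k0,k0,k0,k1,k1] k0 [] k12 k5
    [[(k10,k3),(k4,k4)],[(k2,k4),(k5,k4)],[(k2,k4),(k5,k4)],[(k0,k4),(k3,k4)],[(k0,k4),(k3,k4)],[(k1,k4),(k7,k4)],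
    [(k10,k3),(k4,k4)],[(k11,k3),(k9,k4)],[(k6,k4),(k8,k4)],[(k11,k3),(k9,k4)],[(k6,k3),(k8,k3)],[(k1,k3),(k7,k3)]]
    [] k0
    [[k0,k0,k0,k1,k1,k1]]
    [.ref k0 k0 [(z1,[y1,z1])]]]⟩

/-- classes `0 0 1 2 2 1`, types `B0 B1 C0 C0 C0 C2` -/
noncomputable def cT6_1548 : CertT :=
  ⟨[k8,k9,k20,k36,k36,k22],[],[[[]]],
    [.lp [k6,k8,k6,k6,k8,k6] [k1,k1,k0,k0,k1,k1,k1,k1,k0,k0,k1,k1] k0 [] k24 k5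
    [[(k7,k6),(k10,k6)],[(k5,k6),(k2,k7)],[(k5,k7),(k2,k8)],[(k0,k7),(k3,k8)],[(k0,k6),(k3,k7)],[(k7,k6),(k10,k6)],
    [(k1,k6),(k4,k6)],[(k11,k6),(k9,k7)],[(k6,k7),(k8,k8)],[(k11,k7),(k9,k8)],[(k6,k6),(k8,k7)],[(k1,k6),(k4,k6)]]
    [] k0
    []
    []]⟩

/-- classes `0 0 1 2 2 1`, types `B0 B1 C0 C0 C2 C0` -/
noncomputable def cT6_1549 : CertT :=
  ⟨[k8,k9,k20,k36,k38,k20],[(false,k0,[k0,k1,k2,k3,k4,k5])],[[[([z1,z1,z1,z0,z0,z0],z2)],[]]],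
    [.leafM k4 [k0,k1,k2,k3,k4,k5] [(z1,[y1,z1])] [],
    .lp [k6,k8,k10,k6,k6,k6] [k2,k2,k1,k1,k0,k0,k2,k2,k2,k2,k2,k2] k0 [] k24 k5
    [[(k10,k6),(k4,k8)],[(k2,k7),(k5,k8)],[(k2,k8),(k5,k9)],[(k0,k7),(k3,k8)],[(k0,k8),(k3,k9)],[(k1,k8),(k7,k8)],
    [(k10,k6),(k4,k8)],[(k8,k6),(k9,k6)],[(k6,k6),(k11,k6)],[(k6,k6),(k11,k6)],[(k8,k6),(k9,k6)],[(k1,k6),(k7,k6)]]
    [] k0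
    [[k0,k0,k0,k1,k1,k1]]
    [.ref k0 k0 [(z1,[y1,z1])]]]⟩

/-- classes `0 0 1 2 2 1`, types `B0 B1 C0 C0 C2 C2` -/
noncomputable def cT6_1550 : CertT :=
  ⟨[k8,k9,k20,k36,k38,k22],[],[[[]]],
    [.lp [k6,k8,k6,k6,k6,k6] [k1,k1,k0,k0,k1,k1,k1,k1,k1,k1,k1,k1] k0 [] k24 k5
    [[(k7,k6),(k10,k6)],[(k5,k6),(k2,k7)],[(k5,k7),(k2,k8)],[(k0,k7),(k3,k8)],[(k0,k6),(k3,k7)],[(k7,k6),(k10,k6)],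
    [(k1,k6),(k4,k6)],[(k8,k6),(k9,k6)],[(k6,k6),(k11,k6)],[(k6,k6),(k11,k6)],[(k8,k6),(k9,k6)],[(k1,k6),(k4,k6)]]
    [] k0
    []
    []]⟩

/-- classes `0 0 1 2 2 1`, types `B0 B1 C0 N0 N1 C0` -/
noncomputable def cT6_1551 : CertT :=
  ⟨[k8,k9,k20,k44,k45,k20],[],[[[]]],
    [.lp [k6,k4,k2,k6,k4,k0] [k0,k0,k1,k1,k2,k2,k0,k0,k1,k1,k3,k3] k0 [] k12 k5
    [[(k10,k3),(k4,k4)],[(k5,k4),(k2,k5)],[(k5,k3),(k2,k4)],[(k3,k4),(k0,k5)],[(k3,k3),(k0,k4)],[(k1,k4),(k7,k4)],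
    [(k10,k3),(k4,k4)],[(k11,k3)],[(k8,k4)],[(k9,k4)],[(k6,k3)],[(k1,k3),(k7,k3)]]
    [] k0
    []
    []]⟩

/-- classes `0 0 1 2 2 1`, types `B0 B1 C0 N0 N1 C2` -/
noncomputable def cT6_1552 : CertT :=
  ⟨[k8,k9,k20,k44,k45,k22],[],[[[]]],
    [.lp [k6,k8,k6,k6,k8,k6] [k1,k1,k0,k0,k1,k1,k1,k1,k0,k0,k1,k1] k0 [] k24 k5
    [[(k7,k6),(k10,k6)],[(k5,k6),(k2,k7)],[(k5,k7),(k2,k8)],[(k0,k7),(k3,k8)],[(k0,k6),(k3,k7)],[(k7,k6),(k10,k6)],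
    [(k1,k6),(k4,k6)],[(k11,k6)],[(k8,k8)],[(k9,k8)],[(k6,k6)],[(k1,k6),(k4,k6)]]
    [] k0
    []
    []]⟩

/-- classes `0 0 1 2 2 1`, types `B0 B1 C0 N0 N2 C0` -/
noncomputable def cT6_1553 : CertT :=
  ⟨[k8,k9,k20,k44,k46,k20],[(false,k0,[k0,k1,k2,k3,k4,k5])],[[[([z1,z1,z1,z0,z0,z0],z2)],[]]],
    [.leafM k6 [k0,k1,k2,k3,k4,k5] [(z1,[y1,z1])] [],
    .lp [k6,k8,k10,k6,k6,k6] [k2,k2,k1,k1,k0,k0,k2,k2,k2,k2,k2,k2] k0 [] k24 k5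
    [[(k10,k6),(k4,k8)],[(k2,k7),(k5,k8)],[(k2,k8),(k5,k9)],[(k0,k7),(k3,k8)],[(k0,k8),(k3,k9)],[(k1,k8),(k7,k8)],
    [(k10,k6),(k4,k8)],[(k8,k6)],[(k11,k6)],[(k6,k6)],[(k9,k6)],[(k1,k6),(k7,k6)]]
    [] k0
    [[k0,k0,k0,k1,k1,k1]]
    [.ref k0 k0 [(z1,[y1,z1])]]]⟩

/-- classes `0 0 1 2 2 1`, types `B0 B1 C0 N0 N2 C2` -/
noncomputable def cT6_1554 : CertT :=
  ⟨[k8,k9,k20,k44,k46,k22],[],[[[]]],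
    [.lp [k6,k8,k6,k6,k6,k6] [k1,k1,k0,k0,k1,k1,k1,k1,k1,k1,k1,k1] k0 [] k24 k5
    [[(k7,k6),(k10,k6)],[(k5,k6),(k2,k7)],[(k5,k7),(k2,k8)],[(k0,k7),(k3,k8)],[(k0,k6),(k3,k7)],[(k7,k6),(k10,k6)],
    [(k1,k6),(k4,k6)],[(k8,k6)],[(k11,k6)],[(k6,k6)],[(k9,k6)],[(k1,k6),(k4,k6)]]
    [] k0
    []
    []]⟩

/-- classes `0 0 1 2 2 1`, types `B0 B1 C0 S0 S0 C0` -/
noncomputable def cT6_1555 : CertT :=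
  ⟨[k8,k9,k20,k32,k32,k20],[(false,k0,[k0,k1,k2,k3,k4,k5])],[[[([z1,z1,z1,z0,z0,z0],z2)],[]]],
    [.leafM k4 [k0,k1,k2,k3,k4,k5] [(z1,[y1,z1])] [],
    .lp [k10,k8,k6,k6,k8,k6] [k0,k0,k1,k1,k2,k2,k2,k2,k1,k1,k2,k2] k0 [] k24 k5
    [[(k4,k8),(k10,k8)],[(k5,k8),(k2,k9)],[(k5,k7),(k2,k8)],[(k3,k8),(k0,k9)],[(k3,k7),(k0,k8)],[(k7,k6),(k1,k8)],
    [(k4,k6),(k10,k6)],[(k6,k6),(k11,k6),(k8,k7),(k9,k7)],[(k6,k7),(k11,k7),(k8,k8),(k9,k8)],[(k6,k7),(k11,k7),(k8,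
    k8),(k9,k8)],[(k6,k6),(k11,k6),(k8,k7),(k9,k7)],[(k7,k6),(k1,k8)]]
    [] k0
    [[k0,k0,k0,k1,k1,k1]]
    [.ref k0 k0 [(z1,[y1,z1])]]]⟩

/-- classes `0 0 1 2 2 1`, types `B0 B1 C0 S0 S0 C2` -/
noncomputable def cT6_1556 : CertT :=
  ⟨[k8,k9,k20,k32,k32,k22],[],[[[]]],
    [.lp [k6,k8,k6,k6,k8,k6] [k1,k1,k0,k0,k1,k1,k1,k1,k0,k0,k1,k1] k0 [] k24 k5
    [[(k7,k6),(k10,k6)],[(k5,k6),(k2,k7)],[(k5,k7),(k2,k8)],[(k0,k7),(k3,k8)],[(k0,k6),(k3,k7)],[(k7,k6),(k10,k6)],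
    [(k1,k6),(k4,k6)],[(k6,k6),(k11,k6),(k8,k7),(k9,k7)],[(k6,k7),(k11,k7),(k8,k8),(k9,k8)],[(k6,k7),(k11,k7),(k8,k8),
    (k9,k8)],[(k6,k6),(k11,k6),(k8,k7),(k9,k7)],[(k1,k6),(k4,k6)]]
    [] k0
    []
    []]⟩

/-- classes `0 0 1 2 2 1`, types `B0 B1 N0 B0 B1 N1` -/
noncomputable def cT6_1557 : CertT :=
  ⟨[k8,k9,k28,k40,k41,k29],[(false,k0,[k0,k1,k2,k3,k4,k5])],[[[([z1,z1,z1,z0,z0,z0],z2)],[]]],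
    [.leafM k6 [k0,k1,k2,k3,k4,k5] [(z1,[y1,z1])] [],
    .lp [k2,k4,k4,k2,k4,k6] [k2,k2,k1,k1,k1,k1,k2,k2,k1,k1,k0,k0] k0 [] k12 k5
    [[(k4,k3)],[(k2,k3),(k5,k3)],[(k2,k4),(k5,k4)],[(k0,k3),(k3,k4)],[(k0,k3),(k3,k4)],[(k1,k3)],[(k10,k4)],[(k8,k3),
    (k11,k4)],[(k8,k4),(k11,k5)],[(k6,k3),(k9,k4)],[(k6,k4),(k9,k5)],[(k7,k4)]]
    [] k0
    [[k1,k1,k1,k0,k0,k0]]
    [.ref k0 k0 [(z1,[z1])]]]⟩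

/-- classes `0 0 1 2 2 1`, types `B0 B1 N0 B0 B1 N2` -/
noncomputable def cT6_1558 : CertT :=
  ⟨[k8,k9,k28,k40,k41,k30],[],[[[]]],
    [.lp [k4,k4,k2,k2,k4,k4] [k0,k0,k0,k0,k1,k1,k1,k1,k0,k0,k0,k0] k0 [] k12 k5
    [[(k7,k3)],[(k5,k3),(k2,k4)],[(k5,k3),(k2,k4)],[(k0,k4),(k3,k4)],[(k0,k3),(k3,k3)],[(k10,k3)],[(k1,k3)],[(k8,k3),
    (k11,k3)],[(k8,k4),(k11,k4)],[(k6,k3),(k9,k4)],[(k6,k3),(k9,k4)],[(k4,k3)]]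
    [] k0
    []
    []]⟩

/-- classes `0 0 1 2 2 1`, types `B0 B1 N0 C0 C0 N1` -/
noncomputable def cT6_1559 : CertT :=
  ⟨[k8,k9,k28,k36,k36,k29],[(false,k0,[k0,k1,k2,k3,k4,k5])],[[[([z1,z1,z1,z0,z0,z0],z2)],[]]],
    [.leafM k4 [k0,k1,k2,k3,k4,k5] [(z1,[y1,z1])] [],
    .lp [k2,k4,k6,k4,k4,k2] [k2,k2,k1,k1,k0,k0,k1,k1,k1,k1,k2,k2] k0 [] k12 k5
    [[(k4,k4)],[(k2,k3),(k5,k4)],[(k2,k4),(k5,k5)],[(k0,k3),(k3,k4)],[(k0,k4),(k3,k5)],[(k1,k4)],[(k10,k3)],[(k11,k3),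
    (k9,k4)],[(k6,k4),(k8,k4)],[(k11,k3),(k9,k4)],[(k6,k3),(k8,k3)],[(k7,k3)]]
    [] k0
    [[k0,k0,k0,k1,k1,k1]]
    [.ref k0 k0 [(z1,[y1,z1])]]]⟩

/-- classes `0 0 1 2 2 1`, types `B0 B1 N0 C0 C0 N2` -/
noncomputable def cT6_1560 : CertT :=
  ⟨[k8,k9,k28,k36,k36,k30],[],[[[]]],
    [.lp [k2,k4,k4,k4,k4,k2] [k1,k1,k0,k0,k0,k0,k0,k0,k0,k0,k1,k1] k0 [] k12 k5
    [[(k7,k3)],[(k2,k3),(k5,k3)],[(k2,k4),(k5,k4)],[(k0,k3),(k3,k4)],[(k0,k3),(k3,k4)],[(k10,k3)],[(k1,k3)],[(k11,k3),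
    (k9,k4)],[(k6,k4),(k8,k4)],[(k11,k3),(k9,k4)],[(k6,k3),(k8,k3)],[(k4,k3)]]
    [] k0
    []
    []]⟩

/-- classes `0 0 1 2 2 1`, types `B0 B1 N0 C0 C2 N1` -/
noncomputable def cT6_1561 : CertT :=
  ⟨[k8,k9,k28,k36,k38,k29],[(false,k0,[k0,k1,k2,k3,k4,k5])],[[[([z1,z1,z1,z0,z0,z0],z2)],[]]],
    [.leafM k4 [k0,k1,k2,k3,k4,k5] [(z1,[y1,z1])] [],
    .lp [k4,k8,k12,k6,k6,k6] [k4,k4,k2,k2,k0,k0,k3,k3,k3,k3,k3,k3] k0 [] k24 k5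
    [[(k4,k8)],[(k2,k6),(k5,k8)],[(k2,k8),(k5,k10)],[(k0,k6),(k3,k8)],[(k0,k8),(k3,k10)],[(k1,k8)],[(k10,k6)],[(k8,
    k6),(k9,k6)],[(k6,k6),(k11,k6)],[(k6,k6),(k11,k6)],[(k8,k6),(k9,k6)],[(k7,k6)]]
    [] k0
    [[k0,k0,k0,k1,k1,k1]]
    [.ref k0 k0 [(z1,[y1,z1])]]]⟩

/-- classes `0 0 1 2 2 1`, types `B0 B1 N0 C0 C2 N2` -/
noncomputable def cT6_1562 : CertT :=
  ⟨[k8,k9,k28,k36,k38,k30],[],[[[]]],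
    [.lp [k6,k8,k6,k6,k6,k6] [k1,k1,k0,k0,k1,k1,k1,k1,k1,k1,k1,k1] k0 [] k24 k5
    [[(k7,k6)],[(k5,k6),(k2,k7)],[(k5,k7),(k2,k8)],[(k0,k7),(k3,k8)],[(k0,k6),(k3,k7)],[(k10,k6)],[(k1,k6)],[(k8,k6),
    (k9,k6)],[(k6,k6),(k11,k6)],[(k6,k6),(k11,k6)],[(k8,k6),(k9,k6)],[(k4,k6)]]
    [] k0
    []
    []]⟩

/-- classes `0 0 1 2 2 1`, types `B0 B1 N0 N0 N1 N1` -/
noncomputable def cT6_1563 : CertT :=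
  ⟨[k8,k9,k28,k44,k45,k29],[],[[[]]],
    [.lp [k2,k4,k6,k6,k4,k0] [k2,k2,k1,k1,k0,k0,k0,k0,k1,k1,k3,k3] k0 [] k12 k5
    [[(k4,k4)],[(k2,k3),(k5,k4)],[(k2,k4),(k5,k5)],[(k0,k3),(k3,k4)],[(k0,k4),(k3,k5)],[(k1,k4)],[(k10,k3)],[(k11,
    k3)],[(k8,k4)],[(k9,k4)],[(k6,k3)],[(k7,k3)]]
    [] k0
    []
    []]⟩

/-- classes `0 0 1 2 2 1`, types `B0 B1 N0 N0 N1 N2` -/
noncomputable def cT6_1564 : CertT :=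
  ⟨[k8,k9,k28,k44,k45,k30],[],[[[]]],
    [.lp [k2,k4,k4,k4,k4,k2] [k1,k1,k0,k0,k0,k0,k0,k0,k0,k0,k1,k1] k0 [] k12 k5
    [[(k7,k3)],[(k2,k3),(k5,k3)],[(k2,k4),(k5,k4)],[(k0,k3),(k3,k4)],[(k0,k3),(k3,k4)],[(k10,k3)],[(k1,k3)],[(k11,
    k3)],[(k8,k4)],[(k9,k4)],[(k6,k3)],[(k4,k3)]]
    [] k0
    []
    []]⟩

/-- classes `0 0 1 2 2 1`, types `B0 B1 N0 N0 N2 N1` -/
noncomputable def cT6_1565 : CertT :=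
  ⟨[k8,k9,k28,k44,k46,k29],[(false,k0,[k0,k1,k2,k3,k4,k5])],[[[([z1,z1,z1,z0,z0,z0],z2)],[]]],
    [.leafM k6 [k0,k1,k2,k3,k4,k5] [(z1,[y1,z1])] [],
    .lp [k4,k8,k12,k6,k6,k6] [k4,k4,k2,k2,k0,k0,k3,k3,k3,k3,k3,k3] k0 [] k24 k5
    [[(k4,k8)],[(k2,k6),(k5,k8)],[(k2,k8),(k5,k10)],[(k0,k6),(k3,k8)],[(k0,k8),(k3,k10)],[(k1,k8)],[(k10,k6)],[(k8,
    k6)],[(k11,k6)],[(k6,k6)],[(k9,k6)],[(k7,k6)]]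
    [] k0
    [[k0,k0,k0,k1,k1,k1]]
    [.ref k0 k0 [(z1,[y1,z1])]]]⟩

/-- classes `0 0 1 2 2 1`, types `B0 B1 N0 N0 N2 N2` -/
noncomputable def cT6_1566 : CertT :=
  ⟨[k8,k9,k28,k44,k46,k30],[],[[[]]],
    [.lp [k6,k8,k6,k6,k6,k6] [k1,k1,k0,k0,k1,k1,k1,k1,k1,k1,k1,k1] k0 [] k24 k5
    [[(k7,k6)],[(k5,k6),(k2,k7)],[(k5,k7),(k2,k8)],[(k0,k7),(k3,k8)],[(k0,k6),(k3,k7)],[(k10,k6)],[(k1,k6)],[(k8,k6)],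
    [(k11,k6)],[(k6,k6)],[(k9,k6)],[(k4,k6)]]
    [] k0
    []
    []]⟩

/-- classes `0 0 1 2 2 1`, types `B0 B1 N0 S0 S0 N1` -/
noncomputable def cT6_1567 : CertT :=
  ⟨[k8,k9,k28,k32,k32,k29],[(false,k0,[k0,k1,k2,k3,k4,k5])],[[[([z1,z1,z1,z0,z0,z0],z2)],[]]],
    [.leafM k4 [k0,k1,k2,k3,k4,k5] [(z1,[y1,z1])] [],
    .lp [k12,k12,k0,k6,k8,k6] [k0,k0,k0,k0,k6,k6,k3,k3,k2,k2,k3,k3] k0 [] k24 k5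
    [[(k4,k6)],[(k5,k6),(k2,k12)],[(k5,k6),(k2,k12)],[(k0,k12),(k3,k12)],[(k0,k6),(k3,k6)],[(k1,k6)],[(k10,k6)],[(k6,
    k6),(k11,k6),(k8,k7),(k9,k7)],[(k6,k7),(k11,k7),(k8,k8),(k9,k8)],[(k6,k7),(k11,k7),(k8,k8),(k9,k8)],[(k6,k6),(k11,
    k6),(k8,k7),(k9,k7)],[(k7,k6)]]
    [] k0
    [[k0,k0,k0,k1,k1,k1]]
    [.ref k0 k0 [(z1,[y1,z1])]]]⟩

/-- classes `0 0 1 2 2 1`, types `B0 B1 N0 S0 S0 N2` -/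
noncomputable def cT6_1568 : CertT :=
  ⟨[k8,k9,k28,k32,k32,k30],[],[[[]]],
    [.lp [k6,k8,k6,k6,k8,k6] [k1,k1,k0,k0,k1,k1,k1,k1,k0,k0,k1,k1] k0 [] k24 k5
    [[(k7,k6)],[(k5,k6),(k2,k7)],[(k5,k7),(k2,k8)],[(k0,k7),(k3,k8)],[(k0,k6),(k3,k7)],[(k10,k6)],[(k1,k6)],[(k6,k6),
    (k11,k6),(k8,k7),(k9,k7)],[(k6,k7),(k11,k7),(k8,k8),(k9,k8)],[(k6,k7),(k11,k7),(k8,k8),(k9,k8)],[(k6,k6),(k11,k6),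
    (k8,k7),(k9,k7)],[(k4,k6)]]
    [] k0
    []
    []]⟩

/-- classes `0 0 1 2 2 1`, types `B0 B1 S0 B0 B1 S0` -/
noncomputable def cT6_1569 : CertT :=
  ⟨[k8,k9,k16,k40,k41,k16],[(false,k0,[k0,k1,k2,k3,k4,k5])],[[[([z1,z1,z1,z0,z0,z0],z2)],[]]],
    [.leafM k6 [k0,k1,k2,k3,k4,k5] [(z1,[y1,z1])] [],
    .lp [k10,k8,k6,k6,k8,k6] [k0,k0,k1,k1,k2,k2,k2,k2,k1,k1,k2,k2] k0 [] k24 k5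
    [[(k4,k8),(k7,k8),(k10,k8),(k1,k10)],[(k5,k8),(k2,k9)],[(k5,k7),(k2,k8)],[(k3,k8),(k0,k9)],[(k3,k7),(k0,k8)],[(k4,
    k6),(k7,k6),(k10,k6),(k1,k8)],[(k4,k6),(k7,k6),(k10,k6),(k1,k8)],[(k11,k6),(k8,k7)],[(k11,k7),(k8,k8)],[(k6,k7),
    (k9,k8)],[(k6,k6),(k9,k7)],[(k4,k6),(k7,k6),(k10,k6),(k1,k8)]]
    [] k0
    [[k0,k0,k0,k1,k1,k1]]
    [.ref k0 k0 [(z1,[y1,z1])]]]⟩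

/-- classes `0 0 1 2 2 1`, types `B0 B1 S0 C0 C0 S0` -/
noncomputable def cT6_1570 : CertT :=
  ⟨[k8,k9,k16,k36,k36,k16],[(false,k0,[k0,k1,k2,k3,k4,k5])],[[[([z1,z1,z1,z0,z0,z0],z2)],[]]],
    [.leafM k4 [k0,k1,k2,k3,k4,k5] [(z1,[y1,z1])] [],
    .lp [k10,k8,k6,k6,k8,k6] [k0,k0,k1,k1,k2,k2,k2,k2,k1,k1,k2,k2] k0 [] k24 k5
    [[(k4,k8),(k7,k8),(k10,k8),(k1,k10)],[(k5,k8),(k2,k9)],[(k5,k7),(k2,k8)],[(k3,k8),(k0,k9)],[(k3,k7),(k0,k8)],[(k4,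
    k6),(k7,k6),(k10,k6),(k1,k8)],[(k4,k6),(k7,k6),(k10,k6),(k1,k8)],[(k11,k6),(k9,k7)],[(k6,k7),(k8,k8)],[(k11,k7),
    (k9,k8)],[(k6,k6),(k8,k7)],[(k4,k6),(k7,k6),(k10,k6),(k1,k8)]]
    [] k0
    [[k0,k0,k0,k1,k1,k1]]
    [.ref k0 k0 [(z1,[y1,z1])]]]⟩

/-- classes `0 0 1 2 2 1`, types `B0 B1 S0 C0 C2 S0` -/
noncomputable def cT6_1571 : CertT :=
  ⟨[k8,k9,k16,k36,k38,k16],[(false,k0,[k0,k1,k2,k3,k4,k5])],[[[([z1,z1,z1,z0,z0,z0],z2)],[]]],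
    [.leafM k4 [k0,k1,k2,k3,k4,k5] [(z1,[y1,z1])] [],
    .lp [k8,k8,k6,k8,k8,k8] [k0,k0,k0,k0,k1,k1,k0,k0,k0,k0,k0,k0] k0 [[],[],[],[],[],[k0,k0,k0,k0,k0,k0,k0,k0,k0,k0,k0,
    k2],[],[],[],[],[k0,k0,k0,k0,k2]] k24 k5
    [[(k1,k8),(k7,k8),(k10,k8),(k4,k9)],[(k5,k7),(k2,k8)],[(k5,k7),(k2,k8)],[(k0,k8),(k3,k8)],[(k0,k7),(k3,k7)],[(k4,
    k6),(k7,k7),(k10,k7),(k1,k9)],[(k10,k6),(k4,k7),(k1,k8),(k7,k8)],[(k8,k8),(k9,k8)],[(k6,k8),(k11,k8)],[(k6,k8),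
    (k11,k8)],[(k8,k8),(k9,k8)],[(k7,k6),(k4,k7),(k1,k8),(k10,k8)]]
    [] k0
    [[k0,k0,k0,k1,k1,k1]]
    [.ref k0 k0 [(z1,[y1,z1])]]]⟩

/-- classes `0 0 1 2 2 1`, types `B0 B1 S0 N0 N1 S0` -/
noncomputable def cT6_1572 : CertT :=
  ⟨[k8,k9,k16,k44,k45,k16],[],[[[]]],
    [.lp [k10,k8,k6,k6,k8,k6] [k0,k0,k1,k1,k2,k2,k2,k2,k1,k1,k2,k2] k0 [] k24 k5
    [[(k4,k8),(k7,k8),(k10,k8),(k1,k10)],[(k5,k8),(k2,k9)],[(k5,k7),(k2,k8)],[(k3,k8),(k0,k9)],[(k3,k7),(k0,k8)],[(k4,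
    k6),(k7,k6),(k10,k6),(k1,k8)],[(k4,k6),(k7,k6),(k10,k6),(k1,k8)],[(k11,k6)],[(k8,k8)],[(k9,k8)],[(k6,k6)],[(k4,
    k6),(k7,k6),(k10,k6),(k1,k8)]]
    [] k0
    []
    []]⟩

/-- classes `0 0 1 2 2 1`, types `B0 B1 S0 N0 N2 S0` -/
noncomputable def cT6_1573 : CertT :=
  ⟨[k8,k9,k16,k44,k46,k16],[(false,k0,[k0,k1,k2,k3,k4,k5])],[[[([z1,z1,z1,z0,z0,z0],z2)],[]]],
    [.leafM k6 [k0,k1,k2,k3,k4,k5] [(z1,[y1,z1])] [],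
    .lp [k10,k8,k6,k6,k6,k6] [k0,k0,k1,k1,k2,k2,k2,k2,k2,k2,k2,k2] k0 [] k24 k5
    [[(k4,k8),(k7,k8),(k10,k8),(k1,k10)],[(k5,k8),(k2,k9)],[(k5,k7),(k2,k8)],[(k3,k8),(k0,k9)],[(k3,k7),(k0,k8)],[(k4,
    k6),(k7,k6),(k10,k6),(k1,k8)],[(k4,k6),(k7,k6),(k10,k6),(k1,k8)],[(k8,k6)],[(k11,k6)],[(k6,k6)],[(k9,k6)],[(k4,
    k6),(k7,k6),(k10,k6),(k1,k8)]]
    [] k0
    [[k0,k0,k0,k1,k1,k1]]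
    [.ref k0 k0 [(z1,[y1,z1])]]]⟩

/-- classes `0 0 1 2 2 1`, types `B0 B1 S0 S0 S0 S0` -/
noncomputable def cT6_1574 : CertT :=
  ⟨[k8,k9,k16,k32,k32,k16],[(false,k0,[k0,k1,k2,k3,k4,k5])],[[[([z1,z1,z1,z0,z0,z0],z2)],[]]],
    [.leafM k4 [k0,k1,k2,k3,k4,k5] [(z1,[y1,z1])] [],
    .lp [k6,k10,k6,k8,k8,k8] [k2,k2,k0,k0,k2,k2,k1,k1,k1,k1,k1,k1] k0 [[],[],[],[],[],[k0,k0,k0,k0,k0,k0,k0,k0,k0,k0,k0,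
    k2],[],[],[],[],[k0,k0,k0,k0,k2]] k24 k5
    [[(k1,k6),(k7,k7),(k10,k7),(k4,k8)],[(k5,k6),(k2,k8)],[(k5,k8),(k2,k10)],[(k0,k8),(k3,k10)],[(k0,k6),(k3,k8)],
    [(k4,k6),(k7,k7),(k10,k7),(k1,k8)],[(k10,k6),(k1,k7),(k4,k7),(k7,k8)],[(k6,k8),(k8,k8),(k9,k8),(k11,k8)],[(k6,k8),
    (k8,k8),(k9,k8),(k11,k8)],[(k6,k8),(k8,k8),(k9,k8),(k11,k8)],[(k6,k8),(k8,k8),(k9,k8),(k11,k8)],[(k7,k6),(k1,k7),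
    (k4,k7),(k10,k8)]]
    [] k0
    [[k0,k0,k0,k1,k1,k1]]
    [.ref k0 k0 [(z1,[y1,z1])]]]⟩

/-- classes `0 0 1 2 2 1`, types `C0 C0 B0 C0 C0 B1` -/
noncomputable def cT6_1575 : CertT :=
  ⟨[k4,k4,k24,k36,k36,k25],[(false,k0,[k0,k1,k2,k3,k4,k5])],[[[([z1,z1,z1,z0,z0,z0],z2)],[]]],
    [.leafM k0 [k2,k3,k4,k5,k0,k1] [(z1,[y1,z1])] [],
    .lp [k2,k4,k6,k4,k4,k2] [k2,k2,k1,k1,k0,k0,k1,k1,k1,k1,k2,k2] k0 [] k12 k5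
    [[(k7,k3),(k4,k4)],[(k3,k3),(k5,k4)],[(k0,k3),(k2,k4)],[(k3,k4),(k5,k5)],[(k0,k4),(k2,k5)],[(k1,k4),(k10,k4)],
    [(k1,k3),(k10,k3)],[(k11,k3),(k9,k4)],[(k6,k4),(k8,k4)],[(k11,k3),(k9,k4)],[(k6,k3),(k8,k3)],[(k7,k3),(k4,k4)]]
    [] k0
    [[k0,k0,k0,k1,k1,k1]]
    [.ref k0 k0 [(z1,[y1,z1])]]]⟩

/-- classes `0 0 1 2 2 1`, types `C0 C0 B0 C0 C2 B1` -/
noncomputable def cT6_1576 : CertT :=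
  ⟨[k4,k4,k24,k36,k38,k25],[(false,k0,[k0,k1,k2,k3,k4,k5])],[[[([z1,z1,z1,z0,z0,z0],z2)],[]]],
    [.leafM k0 [k2,k3,k4,k5,k0,k1] [(z1,[y1,z1])] [],
    .lp [k6,k8,k10,k6,k6,k6] [k2,k2,k1,k1,k0,k0,k2,k2,k2,k2,k2,k2] k0 [] k24 k5
    [[(k7,k6),(k4,k8)],[(k3,k7),(k5,k8)],[(k0,k7),(k2,k8)],[(k3,k8),(k5,k9)],[(k0,k8),(k2,k9)],[(k1,k8),(k10,k8)],
    [(k1,k6),(k10,k6)],[(k8,k6),(k9,k6)],[(k6,k6),(k11,k6)],[(k6,k6),(k11,k6)],[(k8,k6),(k9,k6)],[(k7,k6),(k4,k8)]]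
    [] k0
    [[k0,k0,k0,k1,k1,k1]]
    [.ref k0 k0 [(z1,[y1,z1])]]]⟩

/-- classes `0 0 1 2 2 1`, types `C0 C0 B0 N0 N1 B1` -/
noncomputable def cT6_1577 : CertT :=
  ⟨[k4,k4,k24,k44,k45,k25],[],[[[]]],
    [.lp [k2,k4,k6,k6,k4,k0] [k2,k2,k1,k1,k0,k0,k0,k0,k1,k1,k3,k3] k0 [] k12 k5
    [[(k4,k4),(k7,k4)],[(k3,k3),(k5,k4)],[(k0,k3),(k2,k4)],[(k3,k4),(k5,k5)],[(k0,k4),(k2,k5)],[(k10,k3),(k1,k4)],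
    [(k10,k3),(k1,k4)],[(k11,k3)],[(k8,k4)],[(k9,k4)],[(k6,k3)],[(k4,k3),(k7,k3)]]
    [] k0
    []
    []]⟩

/-- classes `0 0 1 2 2 1`, types `C0 C0 B0 N0 N2 B1` -/
noncomputable def cT6_1578 : CertT :=
  ⟨[k4,k4,k24,k44,k46,k25],[(false,k0,[k0,k1,k2,k3,k4,k5])],[[[([z1,z1,z1,z0,z0,z0],z2)],[]]],
    [.leafM k4 [k3,k4,k5,k0,k1,k2] [(z1,[z1])] [],
    .lp [k6,k8,k10,k6,k6,k6] [k2,k2,k1,k1,k0,k0,k2,k2,k2,k2,k2,k2] k0 [] k24 k5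
    [[(k7,k6),(k4,k8)],[(k3,k7),(k5,k8)],[(k0,k7),(k2,k8)],[(k3,k8),(k5,k9)],[(k0,k8),(k2,k9)],[(k1,k8),(k10,k8)],
    [(k1,k6),(k10,k6)],[(k8,k6)],[(k11,k6)],[(k6,k6)],[(k9,k6)],[(k7,k6),(k4,k8)]]
    [] k0
    [[k0,k0,k0,k1,k1,k1]]
    [.ref k0 k0 [(z1,[y1,z1])]]]⟩

/-- classes `0 0 1 2 2 1`, types `C0 C0 B0 S0 S0 B1` -/
noncomputable def cT6_1579 : CertT :=
  ⟨[k4,k4,k24,k32,k32,k25],[(false,k0,[k0,k1,k2,k3,k4,k5])],[[[([z1,z1,z1,z0,z0,z0],z2)],[]]],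
    [.leafM k0 [k2,k3,k4,k5,k0,k1] [(z1,[y1,z1])] [],
    .lp [k10,k8,k6,k6,k8,k6] [k0,k0,k1,k1,k2,k2,k2,k2,k1,k1,k2,k2] k0 [] k24 k5
    [[(k4,k8),(k7,k8)],[(k5,k8),(k3,k9)],[(k2,k8),(k0,k9)],[(k5,k7),(k3,k8)],[(k2,k7),(k0,k8)],[(k10,k6),(k1,k8)],
    [(k10,k6),(k1,k8)],[(k6,k6),(k11,k6),(k8,k7),(k9,k7)],[(k6,k7),(k11,k7),(k8,k8),(k9,k8)],[(k6,k7),(k11,k7),(k8,
    k8),(k9,k8)],[(k6,k6),(k11,k6),(k8,k7),(k9,k7)],[(k4,k6),(k7,k6)]]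
    [] k0
    [[k0,k0,k0,k1,k1,k1]]
    [.ref k0 k0 [(z1,[y1,z1])]]]⟩

/-- classes `0 0 1 2 2 1`, types `C0 C0 C0 C0 C0 C0` -/
noncomputable def cT6_1580 : CertT :=
  ⟨[k4,k4,k20,k36,k36,k20],[(false,k0,[k0,k1,k2,k3,k4,k5])],[[[([z1,z1,z1,z0,z0,z0],z2)],[]]],
    [.leafM k0 [k2,k3,k4,k5,k0,k1] [(z1,[y1,z1])] [],
    .lp [k4,k4,k2,k6,k4,k2] [k1,k1,k1,k1,k2,k2,k0,k0,k1,k1,k2,k2] k0 [] k12 k5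
    [[(k4,k3),(k10,k3)],[(k5,k3),(k3,k4)],[(k0,k4),(k2,k4)],[(k5,k3),(k3,k4)],[(k0,k3),(k2,k3)],[(k1,k3),(k7,k4)],
    [(k4,k4),(k10,k4)],[(k11,k4),(k9,k5)],[(k8,k4),(k6,k5)],[(k11,k3),(k9,k4)],[(k8,k3),(k6,k4)],[(k1,k3),(k7,k4)]]
    [] k0
    [[k1,k1,k1,k0,k0,k0]]
    [.ref k0 k0 [(z1,[z1])]]]⟩

/-- classes `0 0 1 2 2 1`, types `C0 C0 C0 C0 C0 C2` -/
noncomputable def cT6_1581 : CertT :=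
  ⟨[k4,k4,k20,k36,k36,k22],[],[[[]]],
    [.lp [k6,k8,k6,k6,k8,k6] [k1,k1,k0,k0,k1,k1,k1,k1,k0,k0,k1,k1] k0 [] k24 k5
    [[(k7,k6),(k10,k6)],[(k5,k6),(k3,k7)],[(k0,k7),(k2,k8)],[(k5,k7),(k3,k8)],[(k0,k6),(k2,k7)],[(k7,k6),(k10,k6)],
    [(k1,k6),(k4,k6)],[(k11,k6),(k9,k7)],[(k6,k7),(k8,k8)],[(k11,k7),(k9,k8)],[(k6,k6),(k8,k7)],[(k1,k6),(k4,k6)]]
    [] k0
    []
    []]⟩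

/-- classes `0 0 1 2 2 1`, types `C0 C0 C0 C0 C2 C0` -/
noncomputable def cT6_1582 : CertT :=
  ⟨[k4,k4,k20,k36,k38,k20],[(false,k0,[k0,k1,k2,k3,k4,k5])],[[[([z1,z1,z1,z0,z0,z0],z2)],[]]],
    [.leafM k0 [k2,k3,k4,k5,k0,k1] [(z1,[y1,z1])] [],
    .lp [k4,k4,k2,k6,k4,k2] [k1,k1,k1,k1,k2,k2,k0,k0,k1,k1,k2,k2] k0 [] k12 k5
    [[(k4,k3),(k10,k3)],[(k5,k3),(k3,k4)],[(k0,k4),(k2,k4)],[(k5,k3),(k3,k4)],[(k0,k3),(k2,k3)],[(k1,k3),(k7,k4)],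
    [(k4,k4),(k10,k4)],[(k8,k5),(k9,k5)],[(k11,k3),(k6,k5)],[(k11,k3),(k6,k5)],[(k8,k3),(k9,k3)],[(k1,k3),(k7,k4)]]
    [] k0
    [[k1,k1,k1,k0,k0,k0]]
    [.ref k0 k0 [(z1,[z1])]]]⟩

/-- classes `0 0 1 2 2 1`, types `C0 C0 C0 C0 C2 C2` -/
noncomputable def cT6_1583 : CertT :=
  ⟨[k4,k4,k20,k36,k38,k22],[],[[[]]],
    [.lp [k6,k8,k6,k6,k6,k6] [k1,k1,k0,k0,k1,k1,k1,k1,k1,k1,k1,k1] k0 [] k24 k5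
    [[(k7,k6),(k10,k6)],[(k5,k6),(k3,k7)],[(k0,k7),(k2,k8)],[(k5,k7),(k3,k8)],[(k0,k6),(k2,k7)],[(k7,k6),(k10,k6)],
    [(k1,k6),(k4,k6)],[(k8,k6),(k9,k6)],[(k6,k6),(k11,k6)],[(k6,k6),(k11,k6)],[(k8,k6),(k9,k6)],[(k1,k6),(k4,k6)]]
    [] k0
    []
    []]⟩

/-- classes `0 0 1 2 2 1`, types `C0 C0 C0 N0 N1 C0` -/
noncomputable def cT6_1584 : CertT :=
  ⟨[k4,k4,k20,k44,k45,k20],[],[[[]]],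
    [.lp [k6,k6,k0,k6,k4,k0] [k0,k0,k0,k0,k3,k3,k0,k0,k1,k1,k3,k3] k0 [] k12 k5
    [[(k4,k3),(k10,k3)],[(k5,k3),(k3,k6)],[(k0,k6),(k2,k6)],[(k5,k3),(k3,k6)],[(k0,k3),(k2,k3)],[(k1,k3),(k7,k3)],
    [(k4,k3),(k10,k3)],[(k11,k3)],[(k8,k4)],[(k9,k4)],[(k6,k3)],[(k1,k3),(k7,k3)]]
    [] k0
    []
    []]⟩

/-- classes `0 0 1 2 2 1`, types `C0 C0 C0 N0 N1 C2` -/
noncomputable def cT6_1585 : CertT :=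
  ⟨[k4,k4,k20,k44,k45,k22],[],[[[]]],
    [.lp [k6,k8,k6,k6,k8,k6] [k1,k1,k0,k0,k1,k1,k1,k1,k0,k0,k1,k1] k0 [] k24 k5
    [[(k7,k6),(k10,k6)],[(k5,k6),(k3,k7)],[(k0,k7),(k2,k8)],[(k5,k7),(k3,k8)],[(k0,k6),(k2,k7)],[(k7,k6),(k10,k6)],
    [(k1,k6),(k4,k6)],[(k11,k6)],[(k8,k8)],[(k9,k8)],[(k6,k6)],[(k1,k6),(k4,k6)]]
    [] k0
    []
    []]⟩

/-- classes `0 0 1 2 2 1`, types `C0 C0 C0 N0 N2 C0` -/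
noncomputable def cT6_1586 : CertT :=
  ⟨[k4,k4,k20,k44,k46,k20],[(false,k0,[k0,k1,k2,k3,k4,k5])],[[[([z1,z1,z1,z0,z0,z0],z2)],[]]],
    [.leafM k4 [k3,k4,k5,k0,k1,k2] [(z1,[z1])] [],
    .lp [k4,k4,k2,k6,k4,k2] [k1,k1,k1,k1,k2,k2,k0,k0,k1,k1,k2,k2] k0 [] k12 k5
    [[(k4,k3),(k10,k3)],[(k5,k3),(k3,k4)],[(k0,k4),(k2,k4)],[(k5,k3),(k3,k4)],[(k0,k3),(k2,k3)],[(k1,k3),(k7,k4)],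
    [(k4,k4),(k10,k4)],[(k8,k5)],[(k11,k3)],[(k6,k5)],[(k9,k3)],[(k1,k3),(k7,k4)]]
    [] k0
    [[k1,k1,k1,k0,k0,k0]]
    [.ref k0 k0 [(z1,[z1])]]]⟩

/-- classes `0 0 1 2 2 1`, types `C0 C0 C0 N0 N2 C2` -/
noncomputable def cT6_1587 : CertT :=
  ⟨[k4,k4,k20,k44,k46,k22],[],[[[]]],
    [.lp [k6,k8,k6,k6,k6,k6] [k1,k1,k0,k0,k1,k1,k1,k1,k1,k1,k1,k1] k0 [] k24 k5
    [[(k7,k6),(k10,k6)],[(k5,k6),(k3,k7)],[(k0,k7),(k2,k8)],[(k5,k7),(k3,k8)],[(k0,k6),(k2,k7)],[(k7,k6),(k10,k6)],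
    [(k1,k6),(k4,k6)],[(k8,k6)],[(k11,k6)],[(k6,k6)],[(k9,k6)],[(k1,k6),(k4,k6)]]
    [] k0
    []
    []]⟩

/-- classes `0 0 1 2 2 1`, types `C0 C0 C0 S0 S0 C0` -/
noncomputable def cT6_1588 : CertT :=
  ⟨[k4,k4,k20,k32,k32,k20],[(false,k0,[k0,k1,k2,k3,k4,k5])],[[[([z1,z1,z1,z0,z0,z0],z2)],[]]],
    [.leafM k0 [k2,k3,k4,k5,k0,k1] [(z1,[y1,z1])] [],
    .lp [k4,k4,k2,k4,k4,k4] [k0,k0,k0,k0,k1,k1,k0,k0,k0,k0,k0,k0] k0 [] k12 k5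
    [[(k4,k3),(k10,k4)],[(k5,k3),(k3,k4)],[(k0,k4),(k2,k4)],[(k5,k3),(k3,k4)],[(k0,k3),(k2,k3)],[(k1,k3),(k7,k3)],
    [(k4,k3),(k10,k4)],[(k6,k4),(k8,k4),(k9,k4),(k11,k4)],[(k6,k4),(k8,k4),(k9,k4),(k11,k4)],[(k6,k4),(k8,k4),(k9,k4),
    (k11,k4)],[(k6,k4),(k8,k4),(k9,k4),(k11,k4)],[(k1,k4),(k7,k4)]]
    [] k0
    [[k1,k1,k1,k0,k0,k0]]
    [.ref k0 k0 [(z1,[z1])]]]⟩

/-- classes `0 0 1 2 2 1`, types `C0 C0 C0 S0 S0 C2` -/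
noncomputable def cT6_1589 : CertT :=
  ⟨[k4,k4,k20,k32,k32,k22],[],[[[]]],
    [.lp [k6,k8,k6,k6,k8,k6] [k1,k1,k0,k0,k1,k1,k1,k1,k0,k0,k1,k1] k0 [] k24 k5
    [[(k7,k6),(k10,k6)],[(k5,k6),(k3,k7)],[(k0,k7),(k2,k8)],[(k5,k7),(k3,k8)],[(k0,k6),(k2,k7)],[(k7,k6),(k10,k6)],
    [(k1,k6),(k4,k6)],[(k6,k6),(k11,k6),(k8,k7),(k9,k7)],[(k6,k7),(k11,k7),(k8,k8),(k9,k8)],[(k6,k7),(k11,k7),(k8,k8),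
    (k9,k8)],[(k6,k6),(k11,k6),(k8,k7),(k9,k7)],[(k1,k6),(k4,k6)]]
    [] k0
    []
    []]⟩

/-- classes `0 0 1 2 2 1`, types `C0 C0 N0 C0 C0 N1` -/
noncomputable def cT6_1590 : CertT :=
  ⟨[k4,k4,k28,k36,k36,k29],[(false,k0,[k0,k1,k2,k3,k4,k5])],[[[([z1,z1,z1,z0,z0,z0],z2)],[]]],
    [.leafM k0 [k2,k3,k4,k5,k0,k1] [(z1,[y1,z1])] [],
    .lp [k4,k4,k2,k6,k6,k0] [k1,k1,k1,k1,k2,k2,k0,k0,k0,k0,k3,k3] k0 [] k12 k5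
    [[(k4,k3)],[(k5,k3),(k3,k4)],[(k0,k4),(k2,k4)],[(k5,k3),(k3,k4)],[(k0,k3),(k2,k3)],[(k1,k3)],[(k10,k3)],[(k11,k3),
    (k9,k6)],[(k6,k6),(k8,k6)],[(k11,k3),(k9,k6)],[(k6,k3),(k8,k3)],[(k7,k3)]]
    [] k0
    [[k1,k1,k1,k0,k0,k0]]
    [.ref k0 k0 [(z1,[z1])]]]⟩

/-- classes `0 0 1 2 2 1`, types `C0 C0 N0 C0 C0 N2` -/
noncomputable def cT6_1591 : CertT :=
  ⟨[k4,k4,k28,k36,k36,k30],[],[[[]]],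
    [.lp [k4,k4,k2,k2,k4,k4] [k0,k0,k0,k0,k1,k1,k1,k1,k0,k0,k0,k0] k0 [] k12 k5
    [[(k7,k3)],[(k5,k3),(k3,k4)],[(k0,k4),(k2,k4)],[(k5,k3),(k3,k4)],[(k0,k3),(k2,k3)],[(k10,k3)],[(k1,k3)],[(k9,k3),
    (k11,k3)],[(k6,k3),(k8,k4)],[(k9,k4),(k11,k4)],[(k6,k3),(k8,k4)],[(k4,k3)]]
    [] k0
    []
    []]⟩

/-- classes `0 0 1 2 2 1`, types `C0 C0 N0 C0 C2 N1` -/
noncomputable def cT6_1592 : CertT :=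
  ⟨[k4,k4,k28,k36,k38,k29],[(false,k0,[k0,k1,k2,k3,k4,k5])],[[[([z1,z1,z1,z0,z0,z0],z2)],[]]],
    [.leafM k0 [k2,k3,k4,k5,k0,k1] [(z1,[y1,z1])] [],
    .lp [k4,k4,k2,k6,k6,k0] [k1,k1,k1,k1,k2,k2,k0,k0,k0,k0,k3,k3] k0 [] k12 k5
    [[(k4,k3)],[(k5,k3),(k3,k4)],[(k0,k4),(k2,k4)],[(k5,k3),(k3,k4)],[(k0,k3),(k2,k3)],[(k1,k3)],[(k10,k3)],[(k8,k6),
    (k9,k6)],[(k11,k3),(k6,k6)],[(k11,k3),(k6,k6)],[(k8,k3),(k9,k3)],[(k7,k3)]]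
    [] k0
    [[k1,k1,k1,k0,k0,k0]]
    [.ref k0 k0 [(z1,[z1])]]]⟩

/-- classes `0 0 1 2 2 1`, types `C0 C0 N0 C0 C2 N2` -/
noncomputable def cT6_1593 : CertT :=
  ⟨[k4,k4,k28,k36,k38,k30],[],[[[]]],
    [.lp [k6,k8,k6,k6,k6,k6] [k1,k1,k0,k0,k1,k1,k1,k1,k1,k1,k1,k1] k0 [] k24 k5
    [[(k7,k6)],[(k5,k6),(k3,k7)],[(k0,k7),(k2,k8)],[(k5,k7),(k3,k8)],[(k0,k6),(k2,k7)],[(k10,k6)],[(k1,k6)],[(k8,k6),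
    (k9,k6)],[(k6,k6),(k11,k6)],[(k6,k6),(k11,k6)],[(k8,k6),(k9,k6)],[(k4,k6)]]
    [] k0
    []
    []]⟩

/-- classes `0 0 1 2 2 1`, types `C0 C0 N0 N0 N1 N1` -/
noncomputable def cT6_1594 : CertT :=
  ⟨[k4,k4,k28,k44,k45,k29],[],[[[]]],
    [.lp [k6,k6,k0,k6,k4,k0] [k0,k0,k0,k0,k3,k3,k0,k0,k1,k1,k3,k3] k0 [] k12 k5
    [[(k4,k3)],[(k5,k3),(k3,k6)],[(k0,k6),(k2,k6)],[(k5,k3),(k3,k6)],[(k0,k3),(k2,k3)],[(k1,k3)],[(k10,k3)],[(k11,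
    k3)],[(k8,k4)],[(k9,k4)],[(k6,k3)],[(k7,k3)]]
    [] k0
    []
    []]⟩

/-- classes `0 0 1 2 2 1`, types `C0 C0 N0 N0 N1 N2` -/
noncomputable def cT6_1595 : CertT :=
  ⟨[k4,k4,k28,k44,k45,k30],[],[[[]]],
    [.lp [k4,k4,k2,k2,k4,k4] [k0,k0,k0,k0,k1,k1,k1,k1,k0,k0,k0,k0] k0 [] k12 k5
    [[(k7,k3)],[(k5,k3),(k3,k4)],[(k0,k4),(k2,k4)],[(k5,k3),(k3,k4)],[(k0,k3),(k2,k3)],[(k10,k3)],[(k1,k3)],[(k11,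
    k3)],[(k8,k4)],[(k9,k4)],[(k6,k3)],[(k4,k3)]]
    [] k0
    []
    []]⟩

/-- classes `0 0 1 2 2 1`, types `C0 C0 N0 N0 N2 N1` -/
noncomputable def cT6_1596 : CertT :=
  ⟨[k4,k4,k28,k44,k46,k29],[(false,k0,[k0,k1,k2,k3,k4,k5])],[[[([z1,z1,z1,z0,z0,z0],z2)],[]]],
    [.leafM k4 [k3,k4,k5,k0,k1,k2] [(z1,[z1])] [],
    .lp [k4,k4,k2,k6,k6,k0] [k1,k1,k1,k1,k2,k2,k0,k0,k0,k0,k3,k3] k0 [] k12 k5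
    [[(k4,k3)],[(k5,k3),(k3,k4)],[(k0,k4),(k2,k4)],[(k5,k3),(k3,k4)],[(k0,k3),(k2,k3)],[(k1,k3)],[(k10,k3)],[(k8,k6)],
    [(k11,k3)],[(k6,k6)],[(k9,k3)],[(k7,k3)]]
    [] k0
    [[k1,k1,k1,k0,k0,k0]]
    [.ref k0 k0 [(z1,[z1])]]]⟩

/-- classes `0 0 1 2 2 1`, types `C0 C0 N0 N0 N2 N2` -/
noncomputable def cT6_1597 : CertT :=
  ⟨[k4,k4,k28,k44,k46,k30],[],[[[]]],
    [.lp [k6,k8,k6,k6,k6,k6] [k1,k1,k0,k0,k1,k1,k1,k1,k1,k1,k1,k1] k0 [] k24 k5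
    [[(k7,k6)],[(k5,k6),(k3,k7)],[(k0,k7),(k2,k8)],[(k5,k7),(k3,k8)],[(k0,k6),(k2,k7)],[(k10,k6)],[(k1,k6)],[(k8,k6)],
    [(k11,k6)],[(k6,k6)],[(k9,k6)],[(k4,k6)]]
    [] k0
    []
    []]⟩

/-- classes `0 0 1 2 2 1`, types `C0 C0 N0 S0 S0 N1` -/
noncomputable def cT6_1598 : CertT :=
  ⟨[k4,k4,k28,k32,k32,k29],[(false,k0,[k0,k1,k2,k3,k4,k5])],[[[([z1,z1,z1,z0,z0,z0],z2)],[]]],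
    [.leafM k0 [k2,k3,k4,k5,k0,k1] [(z1,[y1,z1])] [],
    .lp [k8,k8,k4,k6,k8,k10] [k1,k1,k1,k1,k3,k3,k2,k2,k1,k1,k0,k0] k0 [] k24 k5
    [[(k4,k6)],[(k5,k6),(k3,k8)],[(k0,k8),(k2,k8)],[(k5,k6),(k3,k8)],[(k0,k6),(k2,k6)],[(k1,k6)],[(k10,k8)],[(k6,k6),
    (k8,k7),(k9,k7),(k11,k8)],[(k6,k7),(k8,k8),(k9,k8),(k11,k9)],[(k6,k7),(k8,k8),(k9,k8),(k11,k9)],[(k6,k8),(k8,k9),
    (k9,k9),(k11,k10)],[(k7,k8)]]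
    [] k0
    [[k1,k1,k1,k0,k0,k0]]
    [.ref k0 k0 [(z1,[z1])]]]⟩

/-- classes `0 0 1 2 2 1`, types `C0 C0 N0 S0 S0 N2` -/
noncomputable def cT6_1599 : CertT :=
  ⟨[k4,k4,k28,k32,k32,k30],[],[[[]]],
    [.lp [k6,k8,k6,k6,k8,k6] [k1,k1,k0,k0,k1,k1,k1,k1,k0,k0,k1,k1] k0 [] k24 k5
    [[(k7,k6)],[(k5,k6),(k3,k7)],[(k0,k7),(k2,k8)],[(k5,k7),(k3,k8)],[(k0,k6),(k2,k7)],[(k10,k6)],[(k1,k6)],[(k6,k6),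
    (k11,k6),(k8,k7),(k9,k7)],[(k6,k7),(k11,k7),(k8,k8),(k9,k8)],[(k6,k7),(k11,k7),(k8,k8),(k9,k8)],[(k6,k6),(k11,k6),
    (k8,k7),(k9,k7)],[(k4,k6)]]
    [] k0
    []
    []]⟩

/-- classes `0 0 1 2 2 1`, types `C0 C0 S0 C0 C0 S0` -/
noncomputable def cT6_1600 : CertT :=
  ⟨[k4,k4,k16,k36,k36,k16],[(false,k0,[k0,k1,k2,k3,k4,k5])],[[[([z1,z1,z1,z0,z0,z0],z2)],[]]],
    [.leafM k0 [k2,k3,k4,k5,k0,k1] [(z1,[y1,z1])] [],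
    .lp [k10,k8,k6,k6,k8,k6] [k0,k0,k1,k1,k2,k2,k2,k2,k1,k1,k2,k2] k0 [] k24 k5
    [[(k4,k8),(k7,k8),(k10,k8),(k1,k10)],[(k5,k8),(k3,k9)],[(k2,k8),(k0,k9)],[(k5,k7),(k3,k8)],[(k2,k7),(k0,k8)],[(k4,
    k6),(k7,k6),(k10,k6),(k1,k8)],[(k4,k6),(k7,k6),(k10,k6),(k1,k8)],[(k11,k6),(k9,k7)],[(k6,k7),(k8,k8)],[(k11,k7),
    (k9,k8)],[(k6,k6),(k8,k7)],[(k4,k6),(k7,k6),(k10,k6),(k1,k8)]]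
    [] k0
    [[k0,k0,k0,k1,k1,k1]]
    [.ref k0 k0 [(z1,[y1,z1])]]]⟩

/-- classes `0 0 1 2 2 1`, types `C0 C0 S0 C0 C2 S0` -/
noncomputable def cT6_1601 : CertT :=
  ⟨[k4,k4,k16,k36,k38,k16],[(false,k0,[k0,k1,k2,k3,k4,k5])],[[[([z1,z1,z1,z0,z0,z0],z2)],[]]],
    [.leafM k0 [k2,k3,k4,k5,k0,k1] [(z1,[y1,z1])] [],
    .lp [k6,k8,k6,k6,k12,k6] [k3,k3,k2,k2,k3,k3,k3,k3,k0,k0,k3,k3] k0 [] k24 k5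
    [[(k1,k6),(k4,k6),(k7,k6),(k10,k6)],[(k5,k6),(k3,k7)],[(k0,k7),(k2,k8)],[(k5,k7),(k3,k8)],[(k0,k6),(k2,k7)],[(k1,
    k6),(k4,k6),(k7,k6),(k10,k6)],[(k1,k6),(k4,k6),(k7,k6),(k10,k6)],[(k8,k9),(k9,k9)],[(k6,k9),(k11,k9)],[(k6,k9),
    (k11,k9)],[(k8,k9),(k9,k9)],[(k1,k6),(k4,k6),(k7,k6),(k10,k6)]]
    [] k0
    [[k1,k1,k1,k0,k0,k0]]
    [.ref k0 k0 [(z1,[z1])]]]⟩

/-- classes `0 0 1 2 2 1`, types `C0 C0 S0 N0 N1 S0` -/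
noncomputable def cT6_1602 : CertT :=
  ⟨[k4,k4,k16,k44,k45,k16],[],[[[]]],
    [.lp [k10,k8,k6,k6,k8,k6] [k0,k0,k1,k1,k2,k2,k2,k2,k1,k1,k2,k2] k0 [] k24 k5
    [[(k4,k8),(k7,k8),(k10,k8),(k1,k10)],[(k5,k8),(k3,k9)],[(k2,k8),(k0,k9)],[(k5,k7),(k3,k8)],[(k2,k7),(k0,k8)],[(k4,
    k6),(k7,k6),(k10,k6),(k1,k8)],[(k4,k6),(k7,k6),(k10,k6),(k1,k8)],[(k11,k6)],[(k8,k8)],[(k9,k8)],[(k6,k6)],[(k4,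
    k6),(k7,k6),(k10,k6),(k1,k8)]]
    [] k0
    []
    []]⟩

/-- classes `0 0 1 2 2 1`, types `C0 C0 S0 N0 N2 S0` -/
noncomputable def cT6_1603 : CertT :=
  ⟨[k4,k4,k16,k44,k46,k16],[(false,k0,[k0,k1,k2,k3,k4,k5])],[[[([z1,z1,z1,z0,z0,z0],z2)],[]]],
    [.leafM k4 [k3,k4,k5,k0,k1,k2] [(z1,[z1])] [],
    .lp [k10,k8,k6,k6,k6,k6] [k0,k0,k1,k1,k2,k2,k2,k2,k2,k2,k2,k2] k0 [] k24 k5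
    [[(k4,k8),(k7,k8),(k10,k8),(k1,k10)],[(k5,k8),(k3,k9)],[(k2,k8),(k0,k9)],[(k5,k7),(k3,k8)],[(k2,k7),(k0,k8)],[(k4,
    k6),(k7,k6),(k10,k6),(k1,k8)],[(k4,k6),(k7,k6),(k10,k6),(k1,k8)],[(k8,k6)],[(k11,k6)],[(k6,k6)],[(k9,k6)],[(k4,
    k6),(k7,k6),(k10,k6),(k1,k8)]]
    [] k0
    [[k0,k0,k0,k1,k1,k1]]
    [.ref k0 k0 [(z1,[y1,z1])]]]⟩

/-- classes `0 0 1 2 2 1`, types `C0 C0 S0 S0 S0 S0` -/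
noncomputable def cT6_1604 : CertT :=
  ⟨[k4,k4,k16,k32,k32,k16],[(false,k0,[k0,k1,k2,k3,k4,k5])],[[[([z1,z1,z1,z0,z0,z0],z2)],[]]],
    [.leafM k0 [k2,k3,k4,k5,k0,k1] [(z1,[y1,z1])] [],
    .lp [k6,k10,k6,k8,k8,k8] [k2,k2,k0,k0,k2,k2,k1,k1,k1,k1,k1,k1] k0 [[],[],[],[],[],[k0,k0,k0,k0,k0,k0,k0,k0,k0,k0,k0,
    k2],[],[],[],[],[k0,k0,k0,k0,k2]] k24 k5
    [[(k1,k6),(k7,k7),(k10,k7),(k4,k8)],[(k5,k6),(k3,k8)],[(k0,k8),(k2,k10)],[(k5,k8),(k3,k10)],[(k0,k6),(k2,k8)],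
    [(k4,k6),(k7,k7),(k10,k7),(k1,k8)],[(k10,k6),(k1,k7),(k4,k7),(k7,k8)],[(k6,k8),(k8,k8),(k9,k8),(k11,k8)],[(k6,k8),
    (k8,k8),(k9,k8),(k11,k8)],[(k6,k8),(k8,k8),(k9,k8),(k11,k8)],[(k6,k8),(k8,k8),(k9,k8),(k11,k8)],[(k7,k6),(k1,k7),
    (k4,k7),(k10,k8)]]
    [] k0
    [[k0,k0,k0,k1,k1,k1]]
    [.ref k0 k0 [(z1,[y1,z1])]]]⟩

/-- classes `0 0 1 2 2 1`, types `C0 C2 B0 C0 C2 B1` -/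
noncomputable def cT6_1605 : CertT :=
  ⟨[k4,k6,k24,k36,k38,k25],[(false,k0,[k0,k1,k2,k3,k4,k5])],[[[([z1,z1,z1,z0,z0,z0],z2)],[]]],
    [.leafM k0 [k2,k3,k4,k5,k0,k1] [(z1,[y1,z1])] [],
    .lp [k4,k0,k4,k2,k2,k2] [k0,k0,k2,k2,k0,k0,k1,k1,k1,k1,k1,k1] k0 [] k8 k5
    [[(k7,k3),(k4,k4)],[(k2,k2),(k3,k2)],[(k0,k2),(k5,k2)],[(k0,k2),(k5,k2)],[(k2,k2),(k3,k2)],[(k10,k3),(k1,k4)],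
    [(k10,k2),(k1,k3)],[(k8,k2),(k9,k2)],[(k6,k2),(k11,k2)],[(k6,k2),(k11,k2)],[(k8,k2),(k9,k2)],[(k7,k2),(k4,k3)]]
    [] k0
    [[k0,k0,k0,k1,k1,k1]]
    [.ref k0 k0 [(z1,[y1,z1])]]]⟩

/-- classes `0 0 1 2 2 1`, types `C0 C2 B0 N0 N1 B1` -/
noncomputable def cT6_1606 : CertT :=
  ⟨[k4,k6,k24,k44,k45,k25],[],[[[]]],
    [.lp [k6,k0,k6,k6,k4,k0] [k0,k0,k3,k3,k0,k0,k0,k0,k1,k1,k3,k3] k0 [] k12 k5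
    [[(k4,k6),(k7,k6)],[(k2,k3),(k3,k3)],[(k0,k3),(k5,k3)],[(k0,k3),(k5,k3)],[(k2,k3),(k3,k3)],[(k10,k3),(k1,k6)],
    [(k10,k3),(k1,k6)],[(k11,k3)],[(k8,k4)],[(k9,k4)],[(k6,k3)],[(k4,k3),(k7,k3)]]
    [] k0
    []
    []]⟩

/-- classes `0 0 1 2 2 1`, types `C0 C2 B0 N0 N2 B1` -/
noncomputable def cT6_1607 : CertT :=
  ⟨[k4,k6,k24,k44,k46,k25],[(false,k0,[k0,k1,k2,k3,k4,k5])],[[[([z1,z1,z1,z0,z0,z0],z2)],[]]],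
    [.leafM k4 [k3,k4,k5,k0,k1,k2] [(z1,[z1])] [],
    .lp [k4,k0,k4,k2,k2,k2] [k0,k0,k2,k2,k0,k0,k1,k1,k1,k1,k1,k1] k0 [] k8 k5
    [[(k7,k3),(k4,k4)],[(k2,k2),(k3,k2)],[(k0,k2),(k5,k2)],[(k0,k2),(k5,k2)],[(k2,k2),(k3,k2)],[(k10,k3),(k1,k4)],
    [(k10,k2),(k1,k3)],[(k8,k2)],[(k11,k2)],[(k6,k2)],[(k9,k2)],[(k7,k2),(k4,k3)]]
    [] k0
    [[k0,k0,k0,k1,k1,k1]]
    [.ref k0 k0 [(z1,[y1,z1])]]]⟩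

/-- classes `0 0 1 2 2 1`, types `C0 C2 B0 S0 S0 B1` -/
noncomputable def cT6_1608 : CertT :=
  ⟨[k4,k6,k24,k32,k32,k25],[(false,k0,[k0,k1,k2,k3,k4,k5])],[[[([z1,z1,z1,z0,z0,z0],z2)],[]]],
    [.leafM k0 [k2,k3,k4,k5,k0,k1] [(z1,[y1,z1])] [],
    .lp [k12,k6,k6,k6,k8,k6] [k0,k0,k3,k3,k3,k3,k3,k3,k2,k2,k3,k3] k0 [] k24 k5
    [[(k4,k9),(k7,k9)],[(k2,k9),(k3,k9)],[(k5,k6),(k0,k9)],[(k5,k6),(k0,k9)],[(k2,k6),(k3,k6)],[(k10,k6),(k1,k9)],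
    [(k10,k6),(k1,k9)],[(k6,k6),(k11,k6),(k8,k7),(k9,k7)],[(k6,k7),(k11,k7),(k8,k8),(k9,k8)],[(k6,k7),(k11,k7),(k8,
    k8),(k9,k8)],[(k6,k6),(k11,k6),(k8,k7),(k9,k7)],[(k4,k6),(k7,k6)]]
    [] k0
    [[k0,k0,k0,k1,k1,k1]]
    [.ref k0 k0 [(z1,[y1,z1])]]]⟩

/-- classes `0 0 1 2 2 1`, types `C0 C2 C0 C0 C2 C0` -/
noncomputable def cT6_1609 : CertT :=
  ⟨[k4,k6,k20,k36,k38,k20],[(false,k0,[k0,k1,k2,k3,k4,k5])],[[[([z1,z1,z1,z0,z0,z0],z2)],[]]],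
    [.leafM k0 [k2,k3,k4,k5,k0,k1] [(z1,[y1,z1])] [],
    .lp [k4,k2,k2,k2,k2,k2] [k0,k0,k1,k1,k1,k1,k1,k1,k1,k1,k1,k1] k0 [] k8 k5
    [[(k4,k3),(k10,k3)],[(k2,k3),(k3,k3)],[(k5,k2),(k0,k3)],[(k5,k2),(k0,k3)],[(k2,k2),(k3,k2)],[(k7,k2),(k1,k3)],
    [(k4,k2),(k10,k2)],[(k8,k2),(k9,k2)],[(k6,k2),(k11,k2)],[(k6,k2),(k11,k2)],[(k8,k2),(k9,k2)],[(k7,k2),(k1,k3)]]
    [] k0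
    [[k0,k0,k0,k1,k1,k1]]
    [.ref k0 k0 [(z1,[y1,z1])]]]⟩

/-- classes `0 0 1 2 2 1`, types `C0 C2 C0 C0 C2 C2` -/
noncomputable def cT6_1610 : CertT :=
  ⟨[k4,k6,k20,k36,k38,k22],[],[[[]]],
    [.lp [k2,k0,k2,k0,k2,k0] [k0,k0,k1,k1,k0,k0,k1,k1,k0,k0,k1,k1] k0 [] k4 k5
    [[(k7,k1),(k10,k1)],[(k2,k1),(k3,k1)],[(k0,k1),(k5,k1)],[(k0,k1),(k5,k1)],[(k2,k1),(k3,k1)],[(k7,k1),(k10,k1)],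
    [(k1,k1),(k4,k1)],[(k8,k1),(k9,k1)],[(k6,k1),(k11,k1)],[(k6,k1),(k11,k1)],[(k8,k1),(k9,k1)],[(k1,k1),(k4,k1)]]
    [] k0
    []
    []]⟩

/-- classes `0 0 1 2 2 1`, types `C0 C2 C0 N0 N1 C0` -/
noncomputable def cT6_1611 : CertT :=
  ⟨[k4,k6,k20,k44,k45,k20],[],[[[]]],
    [.lp [k6,k6,k0,k6,k4,k0] [k0,k0,k0,k0,k3,k3,k0,k0,k1,k1,k3,k3] k0 [] k12 k5
    [[(k4,k3),(k10,k3)],[(k2,k6),(k3,k6)],[(k5,k3),(k0,k6)],[(k5,k3),(k0,k6)],[(k2,k3),(k3,k3)],[(k1,k3),(k7,k3)],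
    [(k4,k3),(k10,k3)],[(k11,k3)],[(k8,k4)],[(k9,k4)],[(k6,k3)],[(k1,k3),(k7,k3)]]
    [] k0
    []
    []]⟩

/-- classes `0 0 1 2 2 1`, types `C0 C2 C0 N0 N1 C2` -/
noncomputable def cT6_1612 : CertT :=
  ⟨[k4,k6,k20,k44,k45,k22],[],[[[]]],
    [.lp [k6,k6,k6,k6,k8,k6] [k1,k1,k1,k1,k1,k1,k1,k1,k0,k0,k1,k1] k0 [] k24 k5
    [[(k7,k6),(k10,k6)],[(k2,k6),(k3,k6)],[(k0,k6),(k5,k6)],[(k0,k6),(k5,k6)],[(k2,k6),(k3,k6)],[(k7,k6),(k10,k6)],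
    [(k1,k6),(k4,k6)],[(k11,k6)],[(k8,k8)],[(k9,k8)],[(k6,k6)],[(k1,k6),(k4,k6)]]
    [] k0
    []
    []]⟩

/-- classes `0 0 1 2 2 1`, types `C0 C2 C0 N0 N2 C0` -/
noncomputable def cT6_1613 : CertT :=
  ⟨[k4,k6,k20,k44,k46,k20],[(false,k0,[k0,k1,k2,k3,k4,k5])],[[[([z1,z1,z1,z0,z0,z0],z2)],[]]],
    [.leafM k4 [k3,k4,k5,k0,k1,k2] [(z1,[z1])] [],
    .lp [k4,k2,k2,k2,k2,k2] [k0,k0,k1,k1,k1,k1,k1,k1,k1,k1,k1,k1] k0 [] k8 k5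
    [[(k4,k3),(k10,k3)],[(k2,k3),(k3,k3)],[(k5,k2),(k0,k3)],[(k5,k2),(k0,k3)],[(k2,k2),(k3,k2)],[(k7,k2),(k1,k3)],
    [(k4,k2),(k10,k2)],[(k8,k2)],[(k11,k2)],[(k6,k2)],[(k9,k2)],[(k7,k2),(k1,k3)]]
    [] k0
    [[k0,k0,k0,k1,k1,k1]]
    [.ref k0 k0 [(z1,[y1,z1])]]]⟩

/-- classes `0 0 1 2 2 1`, types `C0 C2 C0 N0 N2 C2` -/
noncomputable def cT6_1614 : CertT :=
  ⟨[k4,k6,k20,k44,k46,k22],[],[[[]]],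
    [.lp [k2,k0,k2,k0,k2,k0] [k0,k0,k1,k1,k0,k0,k1,k1,k0,k0,k1,k1] k0 [] k4 k5
    [[(k7,k1),(k10,k1)],[(k2,k1),(k3,k1)],[(k0,k1),(k5,k1)],[(k0,k1),(k5,k1)],[(k2,k1),(k3,k1)],[(k7,k1),(k10,k1)],
    [(k1,k1),(k4,k1)],[(k8,k1)],[(k11,k1)],[(k6,k1)],[(k9,k1)],[(k1,k1),(k4,k1)]]
    [] k0
    []
    []]⟩

/-- the certificates of this file -/
noncomputable def lT6_12 : List CertT :=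
  [cT6_1373, cT6_1374, cT6_1375, cT6_1376, cT6_1377, cT6_1378, cT6_1379, cT6_1380, cT6_1381, cT6_1382,
      cT6_1383, cT6_1384, cT6_1385, cT6_1386, cT6_1387, cT6_1388, cT6_1389, cT6_1390, cT6_1391, cT6_1392,
      cT6_1393, cT6_1394, cT6_1395, cT6_1396, cT6_1397, cT6_1398, cT6_1399, cT6_1400, cT6_1401, cT6_1402,
      cT6_1403, cT6_1404, cT6_1405, cT6_1406, cT6_1407, cT6_1408, cT6_1409, cT6_1410, cT6_1411, cT6_1412,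
      cT6_1413, cT6_1414, cT6_1415, cT6_1416, cT6_1417, cT6_1418, cT6_1419, cT6_1420, cT6_1421, cT6_1422,
      cT6_1423, cT6_1424, cT6_1425, cT6_1426, cT6_1427, cT6_1428, cT6_1429, cT6_1430, cT6_1431, cT6_1432,
      cT6_1433, cT6_1434, cT6_1435, cT6_1436, cT6_1437, cT6_1438, cT6_1439, cT6_1440, cT6_1441, cT6_1442,
      cT6_1443, cT6_1444, cT6_1445, cT6_1446, cT6_1447, cT6_1448, cT6_1449, cT6_1450, cT6_1451, cT6_1452,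
      cT6_1453, cT6_1454, cT6_1455, cT6_1456, cT6_1457, cT6_1458, cT6_1459, cT6_1460, cT6_1461, cT6_1462,
      cT6_1463, cT6_1464, cT6_1465, cT6_1466, cT6_1467, cT6_1468, cT6_1469, cT6_1470, cT6_1471, cT6_1472,
      cT6_1473, cT6_1474, cT6_1475, cT6_1476, cT6_1477, cT6_1478, cT6_1479, cT6_1480, cT6_1481, cT6_1482,
      cT6_1483, cT6_1484, cT6_1485, cT6_1486, cT6_1487, cT6_1488, cT6_1489, cT6_1490, cT6_1491, cT6_1492,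
      cT6_1493, cT6_1494, cT6_1495, cT6_1496, cT6_1497, cT6_1498, cT6_1499, cT6_1500, cT6_1501, cT6_1502,
      cT6_1503, cT6_1504, cT6_1505, cT6_1506, cT6_1507, cT6_1508, cT6_1509, cT6_1510, cT6_1511, cT6_1512,
      cT6_1513, cT6_1514, cT6_1515, cT6_1516, cT6_1517, cT6_1518, cT6_1519, cT6_1520, cT6_1521, cT6_1522,
      cT6_1523, cT6_1524, cT6_1525, cT6_1526, cT6_1527, cT6_1528, cT6_1529, cT6_1530, cT6_1531, cT6_1532,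
      cT6_1533, cT6_1534, cT6_1535, cT6_1536, cT6_1537, cT6_1538, cT6_1539, cT6_1540, cT6_1541, cT6_1542,
      cT6_1543, cT6_1544, cT6_1545, cT6_1546, cT6_1547, cT6_1548, cT6_1549, cT6_1550, cT6_1551, cT6_1552,
      cT6_1553, cT6_1554, cT6_1555, cT6_1556, cT6_1557, cT6_1558, cT6_1559, cT6_1560, cT6_1561, cT6_1562,
      cT6_1563, cT6_1564, cT6_1565, cT6_1566, cT6_1567, cT6_1568, cT6_1569, cT6_1570, cT6_1571, cT6_1572,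
      cT6_1573, cT6_1574, cT6_1575, cT6_1576, cT6_1577, cT6_1578, cT6_1579, cT6_1580, cT6_1581, cT6_1582,
      cT6_1583, cT6_1584, cT6_1585, cT6_1586, cT6_1587, cT6_1588, cT6_1589, cT6_1590, cT6_1591, cT6_1592,
      cT6_1593, cT6_1594, cT6_1595, cT6_1596, cT6_1597, cT6_1598, cT6_1599, cT6_1600, cT6_1601, cT6_1602,
      cT6_1603, cT6_1604, cT6_1605, cT6_1606, cT6_1607, cT6_1608, cT6_1609, cT6_1610, cT6_1611, cT6_1612,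
      cT6_1613, cT6_1614]

theorem gT6_12 : allF (chkC 6 tt6) lT6_12 = true := by
  decide +kernel

end Pool.Agent.Lib_MP_fa6e45
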