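import Pool.Agent.Lib_MP_fa6e45.CSTT
import Pool.Agent.Lib_MP_fa6e45.HK

/-!
MP_fa6e45_co, stage 5: certificates (captain, generated by a program).
-/

namespace Pool.Agent.Lib_MP_fa6e45

/-- classes `0 0 1 2 2 1`, types `C0 C2 C0 S0 S0 C0` -/
noncomputable def cT6_1615 : CertT :=
  ⟨[k4,k6,k20,k32,k32,k20],[(false,k0,[k0,k1,k2,k3,k4,k5])],[[[([z1,z1,z1,z0,z0,z0],z2)],[]]],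
    [.leafM k0 [k2,k3,k4,k5,k0,k1] [(z1,[y1,z1])] [],
    .lp [k12,k6,k6,k6,k8,k6] [k0,k0,k3,k3,k3,k3,k3,k3,k2,k2,k3,k3] k0 [] k24 k5
    [[(k4,k9),(k10,k9)],[(k2,k9),(k3,k9)],[(k5,k6),(k0,k9)],[(k5,k6),(k0,k9)],[(k2,k6),(k3,k6)],[(k7,k6),(k1,k9)],
    [(k4,k6),(k10,k6)],[(k6,k6),(k11,k6),(k8,k7),(k9,k7)],[(k6,k7),(k11,k7),(k8,k8),(k9,k8)],[(k6,k7),(k11,k7),(k8,
    k8),(k9,k8)],[(k6,k6),(k11,k6),(k8,k7),(k9,k7)],[(k7,k6),(k1,k9)]]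
    [] k0
    [[k0,k0,k0,k1,k1,k1]]
    [.ref k0 k0 [(z1,[y1,z1])]]]⟩

/-- classes `0 0 1 2 2 1`, types `C0 C2 C0 S0 S0 C2` -/
noncomputable def cT6_1616 : CertT :=
  ⟨[k4,k6,k20,k32,k32,k22],[],[[[]]],
    [.lp [k6,k6,k6,k6,k8,k6] [k1,k1,k1,k1,k1,k1,k1,k1,k0,k0,k1,k1] k0 [] k24 k5
    [[(k7,k6),(k10,k6)],[(k2,k6),(k3,k6)],[(k0,k6),(k5,k6)],[(k0,k6),(k5,k6)],[(k2,k6),(k3,k6)],[(k7,k6),(k10,k6)],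
    [(k1,k6),(k4,k6)],[(k6,k6),(k11,k6),(k8,k7),(k9,k7)],[(k6,k7),(k11,k7),(k8,k8),(k9,k8)],[(k6,k7),(k11,k7),(k8,k8),
    (k9,k8)],[(k6,k6),(k11,k6),(k8,k7),(k9,k7)],[(k1,k6),(k4,k6)]]
    [] k0
    []
    []]⟩

/-- classes `0 0 1 2 2 1`, types `C0 C2 N0 C0 C2 N1` -/
noncomputable def cT6_1617 : CertT :=
  ⟨[k4,k6,k28,k36,k38,k29],[(false,k0,[k0,k1,k2,k3,k4,k5])],[[[([z1,z1,z1,z0,z0,z0],z2)],[]]],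
    [.leafM k0 [k2,k3,k4,k5,k0,k1] [(z1,[y1,z1])] [],
    .lp [k4,k4,k0,k2,k2,k2] [k0,k0,k0,k0,k2,k2,k1,k1,k1,k1,k1,k1] k0 [] k8 k5
    [[(k4,k2)],[(k2,k4),(k3,k4)],[(k5,k2),(k0,k4)],[(k5,k2),(k0,k4)],[(k2,k2),(k3,k2)],[(k1,k2)],[(k10,k2)],[(k8,k2),
    (k9,k2)],[(k6,k2),(k11,k2)],[(k6,k2),(k11,k2)],[(k8,k2),(k9,k2)],[(k7,k2)]]
    [] k0
    [[k0,k0,k0,k1,k1,k1]]
    [.ref k0 k0 [(z1,[y1,z1])]]]⟩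

/-- classes `0 0 1 2 2 1`, types `C0 C2 N0 C0 C2 N2` -/
noncomputable def cT6_1618 : CertT :=
  ⟨[k4,k6,k28,k36,k38,k30],[],[[[]]],
    [.lp [k2,k0,k2,k0,k2,k0] [k0,k0,k1,k1,k0,k0,k1,k1,k0,k0,k1,k1] k0 [] k4 k5
    [[(k7,k1)],[(k2,k1),(k3,k1)],[(k0,k1),(k5,k1)],[(k0,k1),(k5,k1)],[(k2,k1),(k3,k1)],[(k10,k1)],[(k1,k1)],[(k8,k1),
    (k9,k1)],[(k6,k1),(k11,k1)],[(k6,k1),(k11,k1)],[(k8,k1),(k9,k1)],[(k4,k1)]]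
    [] k0
    []
    []]⟩

/-- classes `0 0 1 2 2 1`, types `C0 C2 N0 N0 N1 N1` -/
noncomputable def cT6_1619 : CertT :=
  ⟨[k4,k6,k28,k44,k45,k29],[],[[[]]],
    [.lp [k6,k6,k0,k6,k4,k0] [k0,k0,k0,k0,k3,k3,k0,k0,k1,k1,k3,k3] k0 [] k12 k5
    [[(k4,k3)],[(k2,k6),(k3,k6)],[(k5,k3),(k0,k6)],[(k5,k3),(k0,k6)],[(k2,k3),(k3,k3)],[(k1,k3)],[(k10,k3)],[(k11,
    k3)],[(k8,k4)],[(k9,k4)],[(k6,k3)],[(k7,k3)]]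
    [] k0
    []
    []]⟩

/-- classes `0 0 1 2 2 1`, types `C0 C2 N0 N0 N1 N2` -/
noncomputable def cT6_1620 : CertT :=
  ⟨[k4,k6,k28,k44,k45,k30],[],[[[]]],
    [.lp [k6,k6,k6,k6,k8,k6] [k1,k1,k1,k1,k1,k1,k1,k1,k0,k0,k1,k1] k0 [] k24 k5
    [[(k7,k6)],[(k2,k6),(k3,k6)],[(k0,k6),(k5,k6)],[(k0,k6),(k5,k6)],[(k2,k6),(k3,k6)],[(k10,k6)],[(k1,k6)],[(k11,
    k6)],[(k8,k8)],[(k9,k8)],[(k6,k6)],[(k4,k6)]]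
    [] k0
    []
    []]⟩

/-- classes `0 0 1 2 2 1`, types `C0 C2 N0 N0 N2 N1` -/
noncomputable def cT6_1621 : CertT :=
  ⟨[k4,k6,k28,k44,k46,k29],[(false,k0,[k0,k1,k2,k3,k4,k5])],[[[([z1,z1,z1,z0,z0,z0],z2)],[]]],
    [.leafM k4 [k3,k4,k5,k0,k1,k2] [(z1,[z1])] [],
    .lp [k4,k4,k0,k2,k2,k2] [k0,k0,k0,k0,k2,k2,k1,k1,k1,k1,k1,k1] k0 [] k8 k5
    [[(k4,k2)],[(k2,k4),(k3,k4)],[(k5,k2),(k0,k4)],[(k5,k2),(k0,k4)],[(k2,k2),(k3,k2)],[(k1,k2)],[(k10,k2)],[(k8,k2)],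
    [(k11,k2)],[(k6,k2)],[(k9,k2)],[(k7,k2)]]
    [] k0
    [[k0,k0,k0,k1,k1,k1]]
    [.ref k0 k0 [(z1,[y1,z1])]]]⟩

/-- classes `0 0 1 2 2 1`, types `C0 C2 N0 N0 N2 N2` -/
noncomputable def cT6_1622 : CertT :=
  ⟨[k4,k6,k28,k44,k46,k30],[],[[[]]],
    [.lp [k2,k0,k2,k0,k2,k0] [k0,k0,k1,k1,k0,k0,k1,k1,k0,k0,k1,k1] k0 [] k4 k5
    [[(k7,k1)],[(k2,k1),(k3,k1)],[(k0,k1),(k5,k1)],[(k0,k1),(k5,k1)],[(k2,k1),(k3,k1)],[(k10,k1)],[(k1,k1)],[(k8,k1)],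
    [(k11,k1)],[(k6,k1)],[(k9,k1)],[(k4,k1)]]
    [] k0
    []
    []]⟩

/-- classes `0 0 1 2 2 1`, types `C0 C2 N0 S0 S0 N1` -/
noncomputable def cT6_1623 : CertT :=
  ⟨[k4,k6,k28,k32,k32,k29],[(false,k0,[k0,k1,k2,k3,k4,k5])],[[[([z1,z1,z1,z0,z0,z0],z2)],[]]],
    [.leafM k0 [k2,k3,k4,k5,k0,k1] [(z1,[y1,z1])] [],
    .lp [k12,k12,k0,k6,k8,k6] [k0,k0,k0,k0,k6,k6,k3,k3,k2,k2,k3,k3] k0 [] k24 k5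
    [[(k4,k6)],[(k2,k12),(k3,k12)],[(k5,k6),(k0,k12)],[(k5,k6),(k0,k12)],[(k2,k6),(k3,k6)],[(k1,k6)],[(k10,k6)],[(k6,
    k6),(k11,k6),(k8,k7),(k9,k7)],[(k6,k7),(k11,k7),(k8,k8),(k9,k8)],[(k6,k7),(k11,k7),(k8,k8),(k9,k8)],[(k6,k6),(k11,
    k6),(k8,k7),(k9,k7)],[(k7,k6)]]
    [] k0
    [[k0,k0,k0,k1,k1,k1]]
    [.ref k0 k0 [(z1,[y1,z1])]]]⟩

/-- classes `0 0 1 2 2 1`, types `C0 C2 N0 S0 S0 N2` -/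
noncomputable def cT6_1624 : CertT :=
  ⟨[k4,k6,k28,k32,k32,k30],[],[[[]]],
    [.lp [k6,k6,k6,k6,k8,k6] [k1,k1,k1,k1,k1,k1,k1,k1,k0,k0,k1,k1] k0 [] k24 k5
    [[(k7,k6)],[(k2,k6),(k3,k6)],[(k0,k6),(k5,k6)],[(k0,k6),(k5,k6)],[(k2,k6),(k3,k6)],[(k10,k6)],[(k1,k6)],[(k6,k6),
    (k11,k6),(k8,k7),(k9,k7)],[(k6,k7),(k11,k7),(k8,k8),(k9,k8)],[(k6,k7),(k11,k7),(k8,k8),(k9,k8)],[(k6,k6),(k11,k6),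
    (k8,k7),(k9,k7)],[(k4,k6)]]
    [] k0
    []
    []]⟩

/-- classes `0 0 1 2 2 1`, types `C0 C2 S0 C0 C2 S0` -/
noncomputable def cT6_1625 : CertT :=
  ⟨[k4,k6,k16,k36,k38,k16],[(false,k0,[k0,k1,k2,k3,k4,k5]),(true,k5,[k5,k4,k3,k2,k1,k0])],[[[([z1,z1,z1,z0,z0,z0],
    z2)],[([z1,z0,y1,z0,z0,z0],z0),([z0,z1,z2,z0,z0,z0],z2)],[([z1,z0,y1,y1,y1,y1],y2)],[]]],
    [.leafM k0 [k2,k3,k4,k5,k0,k1] [(z1,[y1,z1])] [],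
    .leafM k0 [k2,k3,k4,k5,k0,k1] [(z1,[y1,y1,z1])] [],
    .lp [k10,k6,k6,k8,k8,k8] [k0,k0,k2,k2,k2,k2,k1,k1,k1,k1,k1,k1] k0 [[],[],[],[],[],[k0,k0,k0,k0,k0,k0,k0,k0,k0,k0,k0,
    k2],[],[],[],[],[k0,k0,k0,k0,k2]] k24 k5
    [[(k7,k9),(k10,k9),(k1,k10),(k4,k10)],[(k2,k8),(k3,k8)],[(k5,k6),(k0,k8)],[(k5,k6),(k0,k8)],[(k2,k6),(k3,k6)],
    [(k4,k6),(k7,k7),(k10,k7),(k1,k10)],[(k10,k6),(k4,k7),(k7,k8),(k1,k9)],[(k8,k8),(k9,k8)],[(k6,k8),(k11,k8)],[(k6,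
    k8),(k11,k8)],[(k8,k8),(k9,k8)],[(k7,k6),(k4,k7),(k10,k8),(k1,k9)]]
    [] k0
    [[k0,k1,k2,k0,k0,k0],[k0,k0,k0,k1,k1,k1]]
    [.ref k1 k0 [(z2,[y1,z1,z1]),(z1,[z1])],.ref k1 k0 [(z1,[z1,z1]),(z1,[y2,y1,z1])]],
    .lp [k4,k8,k4,k6,k4,k4] [k2,k2,k0,k0,k2,k2,k1,k1,k2,k2,k2,k2] k0 [] k16 k5
    [[(k1,k4),(k4,k4),(k10,k4),(k7,k5)],[(k2,k6),(k3,k6)],[(k0,k6),(k5,k6)],[(k0,k6),(k5,k6)],[(k2,k6),(k3,k6)],[(k1,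
    k4),(k4,k4),(k10,k4),(k7,k5)],[(k1,k5),(k4,k5),(k10,k5),(k7,k6)],[(k8,k5),(k9,k5)],[(k11,k4),(k6,k5)],[(k11,k4),
    (k6,k5)],[(k8,k4),(k9,k4)],[(k1,k4),(k4,k4),(k10,k4),(k7,k5)]]
    [] k0
    [[k0,k0,k0,k1,k1,k1],[k0,k0,k0,k0,k1,k2]]
    [.ref k0 k0 [(z1,[y1,z1])],.ref k2 k1 [(z1,[z1,y1])]]]⟩

/-- classes `0 0 1 2 2 1`, types `C0 C2 S0 N0 N1 S0` -/
noncomputable def cT6_1626 : CertT :=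
  ⟨[k4,k6,k16,k44,k45,k16],[],[[[]]],
    [.lp [k6,k12,k6,k6,k8,k6] [k3,k3,k0,k0,k3,k3,k3,k3,k2,k2,k3,k3] k0 [] k24 k5
    [[(k1,k6),(k4,k6),(k7,k6),(k10,k6)],[(k2,k9),(k3,k9)],[(k0,k9),(k5,k9)],[(k0,k9),(k5,k9)],[(k2,k9),(k3,k9)],[(k1,
    k6),(k4,k6),(k7,k6),(k10,k6)],[(k1,k6),(k4,k6),(k7,k6),(k10,k6)],[(k11,k6)],[(k8,k8)],[(k9,k8)],[(k6,k6)],[(k1,
    k6),(k4,k6),(k7,k6),(k10,k6)]]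
    [] k0
    []
    []]⟩

/-- classes `0 0 1 2 2 1`, types `C0 C2 S0 N0 N2 S0` -/
noncomputable def cT6_1627 : CertT :=
  ⟨[k4,k6,k16,k44,k46,k16],[(false,k0,[k0,k1,k2,k3,k4,k5])],[[[([z1,z1,z1,z0,z0,z0],z2)],[]]],
    [.leafM k4 [k3,k4,k5,k0,k1,k2] [(z1,[z1])] [],
    .lp [k2,k4,k2,k2,k2,k2] [k1,k1,k0,k0,k1,k1,k1,k1,k1,k1,k1,k1] k0 [] k8 k5
    [[(k1,k2),(k4,k2),(k7,k2),(k10,k2)],[(k2,k3),(k3,k3)],[(k0,k3),(k5,k3)],[(k0,k3),(k5,k3)],[(k2,k3),(k3,k3)],[(k1,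
    k2),(k4,k2),(k7,k2),(k10,k2)],[(k1,k2),(k4,k2),(k7,k2),(k10,k2)],[(k8,k2)],[(k11,k2)],[(k6,k2)],[(k9,k2)],[(k1,
    k2),(k4,k2),(k7,k2),(k10,k2)]]
    [] k0
    [[k0,k0,k0,k1,k1,k1]]
    [.ref k0 k0 [(z1,[y1,z1])]]]⟩

/-- classes `0 0 1 2 2 1`, types `C0 C2 S0 S0 S0 S0` -/
noncomputable def cT6_1628 : CertT :=
  ⟨[k4,k6,k16,k32,k32,k16],[(false,k0,[k0,k1,k2,k3,k4,k5]),(true,k2,[k2,k1,k0,k5,k4,k3])],[[[([z1,z0,y1,z0,z0,z0],z0),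
    ([z0,z1,z2,z0,z0,z0],z2)],[([z1,z0,y1,y1,y1,y1],y2)],[([z1,z1,z1,z0,z0,z0],z2)],[]]],
    [.leafM k0 [k2,k3,k4,k5,k0,k1] [(z1,[y1,y1,z1])] [],
    .lp [k8,k8,k6,k8,k8,k8] [k0,k0,k0,k0,k1,k1,k0,k0,k0,k0,k0,k0] k0 [[],[],[],[],[],[k0,k0,k0,k0,k0,k0,k0,k0,k0,k0,k0,
    k2],[],[],[],[],[k0,k0,k0,k0,k2]] k24 k5
    [[(k1,k8),(k7,k8),(k10,k8),(k4,k9)],[(k2,k8),(k3,k8)],[(k5,k7),(k0,k8)],[(k5,k7),(k0,k8)],[(k2,k7),(k3,k7)],[(k4,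
    k6),(k7,k7),(k10,k7),(k1,k9)],[(k10,k6),(k4,k7),(k1,k8),(k7,k8)],[(k6,k8),(k8,k8),(k9,k8),(k11,k8)],[(k6,k8),(k8,
    k8),(k9,k8),(k11,k8)],[(k6,k8),(k8,k8),(k9,k8),(k11,k8)],[(k6,k8),(k8,k8),(k9,k8),(k11,k8)],[(k7,k6),(k4,k7),(k1,
    k8),(k10,k8)]]
    [] k0
    [[k0,k1,k2,k0,k0,k0],[k0,k0,k0,k1,k1,k1]]
    [.ref k0 k0 [(z2,[y1,z1,z1]),(z1,[z1])],.ref k0 k0 [(z1,[z1,z1]),(z1,[y2,y1,z1])]],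
    .leafM k0 [k2,k3,k4,k5,k0,k1] [(z1,[y1,z1])] [],
    .lp [k8,k8,k6,k8,k8,k8] [k0,k0,k0,k0,k1,k1,k0,k0,k0,k0,k0,k0] k0 [[],[],[],[],[],[k0,k0,k0,k0,k0,k0,k0,k0,k0,k0,k0,
    k2],[],[],[],[],[k0,k0,k0,k0,k2]] k24 k5
    [[(k1,k8),(k7,k8),(k10,k8),(k4,k9)],[(k2,k8),(k3,k8)],[(k5,k7),(k0,k8)],[(k5,k7),(k0,k8)],[(k2,k7),(k3,k7)],[(k4,
    k6),(k7,k7),(k10,k7),(k1,k9)],[(k10,k6),(k4,k7),(k1,k8),(k7,k8)],[(k6,k8),(k8,k8),(k9,k8),(k11,k8)],[(k6,k8),(k8,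
    k8),(k9,k8),(k11,k8)],[(k6,k8),(k8,k8),(k9,k8),(k11,k8)],[(k6,k8),(k8,k8),(k9,k8),(k11,k8)],[(k7,k6),(k4,k7),(k1,
    k8),(k10,k8)]]
    [] k0
    [[k0,k1,k2,k0,k0,k0],[k0,k0,k0,k1,k1,k1]]
    [.ref k1 k1 [(z1,[z1,y1])],.ref k2 k0 [(z1,[y1,z1])]]]⟩

/-- classes `0 0 1 2 2 1`, types `N0 N1 B0 N0 N1 B1` -/
noncomputable def cT6_1629 : CertT :=
  ⟨[k12,k13,k24,k44,k45,k25],[],[[[]]],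
    [.lp [k0,k4,k6,k6,k4,k0] [k3,k3,k1,k1,k0,k0,k0,k0,k1,k1,k3,k3] k0 [] k12 k5
    [[(k4,k3),(k7,k3)],[(k5,k3)],[(k2,k4)],[(k3,k4)],[(k0,k3)],[(k1,k3),(k10,k3)],[(k1,k3),(k10,k3)],[(k11,k3)],[(k8,
    k4)],[(k9,k4)],[(k6,k3)],[(k4,k3),(k7,k3)]]
    [] k0
    []
    []]⟩

/-- classes `0 0 1 2 2 1`, types `N0 N1 B0 N0 N2 B1` -/
noncomputable def cT6_1630 : CertT :=
  ⟨[k12,k13,k24,k44,k46,k25],[],[[[]]],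
    [.lp [k0,k4,k6,k6,k6,k0] [k3,k3,k1,k1,k0,k0,k0,k0,k0,k0,k3,k3] k0 [] k12 k5
    [[(k4,k3),(k7,k3)],[(k5,k3)],[(k2,k4)],[(k3,k4)],[(k0,k3)],[(k1,k3),(k10,k3)],[(k1,k3),(k10,k3)],[(k8,k6)],[(k11,
    k3)],[(k6,k6)],[(k9,k3)],[(k4,k3),(k7,k3)]]
    [] k0
    []
    []]⟩

/-- classes `0 0 1 2 2 1`, types `N0 N1 B0 S0 S0 B1` -/
noncomputable def cT6_1631 : CertT :=
  ⟨[k12,k13,k24,k32,k32,k25],[],[[[]]],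
    [.lp [k10,k8,k2,k6,k8,k10] [k0,k0,k1,k1,k4,k4,k2,k2,k1,k1,k0,k0] k0 [] k24 k5
    [[(k4,k6),(k7,k8)],[(k5,k6)],[(k2,k8)],[(k3,k8)],[(k0,k6)],[(k1,k6),(k10,k6)],[(k1,k8),(k10,k8)],[(k6,k6),(k8,k7),
    (k9,k7),(k11,k8)],[(k6,k7),(k8,k8),(k9,k8),(k11,k9)],[(k6,k7),(k8,k8),(k9,k8),(k11,k9)],[(k6,k8),(k8,k9),(k9,k9),
    (k11,k10)],[(k4,k6),(k7,k8)]]
    [] k0
    []
    []]⟩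

/-- classes `0 0 1 2 2 1`, types `N0 N1 C0 N0 N1 C0` -/
noncomputable def cT6_1632 : CertT :=
  ⟨[k12,k13,k20,k44,k45,k20],[],[[[]]],
    [.lp [k6,k4,k0,k6,k4,k0] [k0,k0,k1,k1,k3,k3,k0,k0,k1,k1,k3,k3] k0 [] k12 k5
    [[(k4,k3),(k10,k3)],[(k5,k3)],[(k2,k4)],[(k3,k4)],[(k0,k3)],[(k1,k3),(k7,k3)],[(k4,k3),(k10,k3)],[(k11,k3)],[(k8,
    k4)],[(k9,k4)],[(k6,k3)],[(k1,k3),(k7,k3)]]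
    [] k0
    []
    []]⟩

/-- classes `0 0 1 2 2 1`, types `N0 N1 C0 N0 N1 C2` -/
noncomputable def cT6_1633 : CertT :=
  ⟨[k12,k13,k20,k44,k45,k22],[],[[[]]],
    [.lp [k6,k8,k6,k6,k8,k6] [k1,k1,k0,k0,k1,k1,k1,k1,k0,k0,k1,k1] k0 [] k24 k5
    [[(k7,k6),(k10,k6)],[(k5,k6)],[(k2,k8)],[(k3,k8)],[(k0,k6)],[(k7,k6),(k10,k6)],[(k1,k6),(k4,k6)],[(k11,k6)],[(k8,
    k8)],[(k9,k8)],[(k6,k6)],[(k1,k6),(k4,k6)]]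
    [] k0
    []
    []]⟩

/-- classes `0 0 1 2 2 1`, types `N0 N1 C0 N0 N2 C0` -/
noncomputable def cT6_1634 : CertT :=
  ⟨[k12,k13,k20,k44,k46,k20],[],[[[]]],
    [.lp [k6,k4,k0,k6,k6,k0] [k0,k0,k1,k1,k3,k3,k0,k0,k0,k0,k3,k3] k0 [] k12 k5
    [[(k4,k3),(k10,k3)],[(k5,k3)],[(k2,k4)],[(k3,k4)],[(k0,k3)],[(k1,k3),(k7,k3)],[(k4,k3),(k10,k3)],[(k8,k6)],[(k11,
    k3)],[(k6,k6)],[(k9,k3)],[(k1,k3),(k7,k3)]]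
    [] k0
    []
    []]⟩

/-- classes `0 0 1 2 2 1`, types `N0 N1 C0 N0 N2 C2` -/
noncomputable def cT6_1635 : CertT :=
  ⟨[k12,k13,k20,k44,k46,k22],[],[[[]]],
    [.lp [k6,k8,k6,k6,k6,k6] [k1,k1,k0,k0,k1,k1,k1,k1,k1,k1,k1,k1] k0 [] k24 k5
    [[(k7,k6),(k10,k6)],[(k5,k6)],[(k2,k8)],[(k3,k8)],[(k0,k6)],[(k7,k6),(k10,k6)],[(k1,k6),(k4,k6)],[(k8,k6)],[(k11,
    k6)],[(k6,k6)],[(k9,k6)],[(k1,k6),(k4,k6)]]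
    [] k0
    []
    []]⟩

/-- classes `0 0 1 2 2 1`, types `N0 N1 C0 S0 S0 C0` -/
noncomputable def cT6_1636 : CertT :=
  ⟨[k12,k13,k20,k32,k32,k20],[],[[[]]],
    [.lp [k10,k8,k2,k10,k8,k6] [k0,k0,k1,k1,k4,k4,k0,k0,k1,k1,k2,k2] k0 [] k24 k5
    [[(k4,k6),(k10,k8)],[(k5,k6)],[(k2,k8)],[(k3,k8)],[(k0,k6)],[(k1,k6),(k7,k6)],[(k4,k6),(k10,k8)],[(k11,k8),(k8,
    k9),(k9,k9),(k6,k10)],[(k11,k7),(k8,k8),(k9,k8),(k6,k9)],[(k11,k7),(k8,k8),(k9,k8),(k6,k9)],[(k11,k6),(k8,k7),(k9,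
    k7),(k6,k8)],[(k1,k8),(k7,k8)]]
    [] k0
    []
    []]⟩

/-- classes `0 0 1 2 2 1`, types `N0 N1 C0 S0 S0 C2` -/
noncomputable def cT6_1637 : CertT :=
  ⟨[k12,k13,k20,k32,k32,k22],[],[[[]]],
    [.lp [k6,k8,k6,k6,k8,k6] [k1,k1,k0,k0,k1,k1,k1,k1,k0,k0,k1,k1] k0 [] k24 k5
    [[(k7,k6),(k10,k6)],[(k5,k6)],[(k2,k8)],[(k3,k8)],[(k0,k6)],[(k7,k6),(k10,k6)],[(k1,k6),(k4,k6)],[(k6,k6),(k11,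
    k6),(k8,k7),(k9,k7)],[(k6,k7),(k11,k7),(k8,k8),(k9,k8)],[(k6,k7),(k11,k7),(k8,k8),(k9,k8)],[(k6,k6),(k11,k6),(k8,
    k7),(k9,k7)],[(k1,k6),(k4,k6)]]
    [] k0
    []
    []]⟩

/-- classes `0 0 1 2 2 1`, types `N0 N1 N0 N0 N1 N1` -/
noncomputable def cT6_1638 : CertT :=
  ⟨[k12,k13,k28,k44,k45,k29],[],[[[]]],
    [.lp [k6,k4,k0,k6,k4,k0] [k0,k0,k1,k1,k3,k3,k0,k0,k1,k1,k3,k3] k0 [] k12 k5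
    [[(k4,k3)],[(k5,k3)],[(k2,k4)],[(k3,k4)],[(k0,k3)],[(k1,k3)],[(k10,k3)],[(k11,k3)],[(k8,k4)],[(k9,k4)],[(k6,k3)],
    [(k7,k3)]]
    [] k0
    []
    []]⟩

/-- classes `0 0 1 2 2 1`, types `N0 N1 N0 N0 N1 N2` -/
noncomputable def cT6_1639 : CertT :=
  ⟨[k12,k13,k28,k44,k45,k30],[],[[[]]],
    [.lp [k6,k4,k0,k0,k4,k6] [k0,k0,k1,k1,k3,k3,k3,k3,k1,k1,k0,k0] k0 [] k12 k5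
    [[(k7,k3)],[(k5,k3)],[(k2,k4)],[(k3,k4)],[(k0,k3)],[(k10,k3)],[(k1,k3)],[(k11,k3)],[(k8,k4)],[(k9,k4)],[(k6,k3)],
    [(k4,k3)]]
    [] k0
    []
    []]⟩

/-- classes `0 0 1 2 2 1`, types `N0 N1 N0 N0 N2 N1` -/
noncomputable def cT6_1640 : CertT :=
  ⟨[k12,k13,k28,k44,k46,k29],[],[[[]]],
    [.lp [k6,k4,k0,k6,k6,k0] [k0,k0,k1,k1,k3,k3,k0,k0,k0,k0,k3,k3] k0 [] k12 k5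
    [[(k4,k3)],[(k5,k3)],[(k2,k4)],[(k3,k4)],[(k0,k3)],[(k1,k3)],[(k10,k3)],[(k8,k6)],[(k11,k3)],[(k6,k6)],[(k9,k3)],
    [(k7,k3)]]
    [] k0
    []
    []]⟩

/-- classes `0 0 1 2 2 1`, types `N0 N1 N0 N0 N2 N2` -/
noncomputable def cT6_1641 : CertT :=
  ⟨[k12,k13,k28,k44,k46,k30],[],[[[]]],
    [.lp [k6,k8,k6,k6,k6,k6] [k1,k1,k0,k0,k1,k1,k1,k1,k1,k1,k1,k1] k0 [] k24 k5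
    [[(k7,k6)],[(k5,k6)],[(k2,k8)],[(k3,k8)],[(k0,k6)],[(k10,k6)],[(k1,k6)],[(k8,k6)],[(k11,k6)],[(k6,k6)],[(k9,k6)],
    [(k4,k6)]]
    [] k0
    []
    []]⟩

/-- classes `0 0 1 2 2 1`, types `N0 N1 N0 S0 S0 N1` -/
noncomputable def cT6_1642 : CertT :=
  ⟨[k12,k13,k28,k32,k32,k29],[],[[[]]],
    [.lp [k12,k8,k0,k6,k8,k10] [k0,k0,k2,k2,k6,k6,k3,k3,k2,k2,k1,k1] k0 [] k24 k5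
    [[(k4,k6)],[(k5,k6)],[(k2,k8)],[(k3,k8)],[(k0,k6)],[(k1,k6)],[(k10,k8)],[(k6,k6),(k8,k7),(k9,k7),(k11,k8)],[(k6,
    k7),(k8,k8),(k9,k8),(k11,k9)],[(k6,k7),(k8,k8),(k9,k8),(k11,k9)],[(k6,k8),(k8,k9),(k9,k9),(k11,k10)],[(k7,k8)]]
    [] k0
    []
    []]⟩

/-- classes `0 0 1 2 2 1`, types `N0 N1 N0 S0 S0 N2` -/
noncomputable def cT6_1643 : CertT :=
  ⟨[k12,k13,k28,k32,k32,k30],[],[[[]]],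
    [.lp [k6,k8,k6,k6,k8,k6] [k1,k1,k0,k0,k1,k1,k1,k1,k0,k0,k1,k1] k0 [] k24 k5
    [[(k7,k6)],[(k5,k6)],[(k2,k8)],[(k3,k8)],[(k0,k6)],[(k10,k6)],[(k1,k6)],[(k6,k6),(k11,k6),(k8,k7),(k9,k7)],[(k6,
    k7),(k11,k7),(k8,k8),(k9,k8)],[(k6,k7),(k11,k7),(k8,k8),(k9,k8)],[(k6,k6),(k11,k6),(k8,k7),(k9,k7)],[(k4,k6)]]
    [] k0
    []
    []]⟩

/-- classes `0 0 1 2 2 1`, types `N0 N1 S0 N0 N1 S0` -/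
noncomputable def cT6_1644 : CertT :=
  ⟨[k12,k13,k16,k44,k45,k16],[],[[[]]],
    [.lp [k6,k8,k6,k6,k8,k6] [k1,k1,k0,k0,k1,k1,k1,k1,k0,k0,k1,k1] k0 [] k24 k5
    [[(k1,k6),(k4,k6),(k7,k6),(k10,k6)],[(k5,k6)],[(k2,k8)],[(k3,k8)],[(k0,k6)],[(k1,k6),(k4,k6),(k7,k6),(k10,k6)],
    [(k1,k6),(k4,k6),(k7,k6),(k10,k6)],[(k11,k6)],[(k8,k8)],[(k9,k8)],[(k6,k6)],[(k1,k6),(k4,k6),(k7,k6),(k10,k6)]]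
    [] k0
    []
    []]⟩

/-- classes `0 0 1 2 2 1`, types `N0 N1 S0 N0 N2 S0` -/
noncomputable def cT6_1645 : CertT :=
  ⟨[k12,k13,k16,k44,k46,k16],[],[[[]]],
    [.lp [k6,k8,k6,k6,k6,k12] [k3,k3,k2,k2,k3,k3,k3,k3,k3,k3,k0,k0] k0 [] k24 k5
    [[(k1,k6),(k4,k6),(k7,k6),(k10,k9)],[(k5,k6)],[(k2,k8)],[(k3,k8)],[(k0,k6)],[(k1,k6),(k4,k6),(k7,k6),(k10,k9)],
    [(k1,k6),(k4,k6),(k7,k6),(k10,k9)],[(k8,k6)],[(k11,k9)],[(k6,k6)],[(k9,k9)],[(k1,k9),(k4,k9),(k7,k9),(k10,k12)]]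
    [] k0
    []
    []]⟩

/-- classes `0 0 1 2 2 1`, types `N0 N1 S0 S0 S0 S0` -/
noncomputable def cT6_1646 : CertT :=
  ⟨[k12,k13,k16,k32,k32,k16],[],[[[]]],
    [.lp [k6,k8,k6,k6,k12,k6] [k3,k3,k2,k2,k3,k3,k3,k3,k0,k0,k3,k3] k0 [] k24 k5
    [[(k1,k6),(k4,k6),(k7,k6),(k10,k6)],[(k5,k6)],[(k2,k8)],[(k3,k8)],[(k0,k6)],[(k1,k6),(k4,k6),(k7,k6),(k10,k6)],
    [(k1,k6),(k4,k6),(k7,k6),(k10,k6)],[(k6,k6),(k11,k6),(k8,k9),(k9,k9)],[(k6,k9),(k11,k9),(k8,k12),(k9,k12)],[(k6,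
    k9),(k11,k9),(k8,k12),(k9,k12)],[(k6,k6),(k11,k6),(k8,k9),(k9,k9)],[(k1,k6),(k4,k6),(k7,k6),(k10,k6)]]
    [] k0
    []
    []]⟩

/-- classes `0 0 1 2 2 1`, types `N0 N2 B0 N0 N2 B1` -/
noncomputable def cT6_1647 : CertT :=
  ⟨[k12,k14,k24,k44,k46,k25],[(false,k0,[k0,k1,k2,k3,k4,k5])],[[[([z1,z1,z1,z0,z0,z0],z2)],[]]],
    [.leafM k6 [k0,k1,k2,k3,k4,k5] [(z1,[y1,z1])] [],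
    .lp [k4,k0,k4,k2,k2,k2] [k0,k0,k2,k2,k0,k0,k1,k1,k1,k1,k1,k1] k0 [] k8 k5
    [[(k7,k3),(k4,k4)],[(k2,k2)],[(k5,k2)],[(k0,k2)],[(k3,k2)],[(k10,k3),(k1,k4)],[(k10,k2),(k1,k3)],[(k8,k2)],[(k11,
    k2)],[(k6,k2)],[(k9,k2)],[(k7,k2),(k4,k3)]]
    [] k0
    [[k0,k0,k0,k1,k1,k1]]
    [.ref k0 k0 [(z1,[y1,z1])]]]⟩

/-- classes `0 0 1 2 2 1`, types `N0 N2 B0 S0 S0 B1` -/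
noncomputable def cT6_1648 : CertT :=
  ⟨[k12,k14,k24,k32,k32,k25],[(false,k0,[k0,k1,k2,k3,k4,k5])],[[[([z1,z1,z1,z0,z0,z0],z2)],[]]],
    [.leafM k4 [k0,k1,k2,k3,k4,k5] [(z1,[y1,z1])] [],
    .lp [k12,k6,k6,k6,k8,k6] [k0,k0,k3,k3,k3,k3,k3,k3,k2,k2,k3,k3] k0 [] k24 k5
    [[(k4,k9),(k7,k9)],[(k2,k9)],[(k5,k6)],[(k0,k9)],[(k3,k6)],[(k10,k6),(k1,k9)],[(k10,k6),(k1,k9)],[(k6,k6),(k11,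
    k6),(k8,k7),(k9,k7)],[(k6,k7),(k11,k7),(k8,k8),(k9,k8)],[(k6,k7),(k11,k7),(k8,k8),(k9,k8)],[(k6,k6),(k11,k6),(k8,
    k7),(k9,k7)],[(k4,k6),(k7,k6)]]
    [] k0
    [[k0,k0,k0,k1,k1,k1]]
    [.ref k0 k0 [(z1,[y1,z1])]]]⟩

/-- classes `0 0 1 2 2 1`, types `N0 N2 C0 N0 N2 C0` -/
noncomputable def cT6_1649 : CertT :=
  ⟨[k12,k14,k20,k44,k46,k20],[(false,k0,[k0,k1,k2,k3,k4,k5])],[[[([z1,z1,z1,z0,z0,z0],z2)],[]]],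
    [.leafM k6 [k0,k1,k2,k3,k4,k5] [(z1,[y1,z1])] [],
    .lp [k4,k2,k2,k2,k2,k2] [k0,k0,k1,k1,k1,k1,k1,k1,k1,k1,k1,k1] k0 [] k8 k5
    [[(k4,k3),(k10,k3)],[(k2,k3)],[(k5,k2)],[(k0,k3)],[(k3,k2)],[(k7,k2),(k1,k3)],[(k4,k2),(k10,k2)],[(k8,k2)],[(k11,
    k2)],[(k6,k2)],[(k9,k2)],[(k7,k2),(k1,k3)]]
    [] k0
    [[k0,k0,k0,k1,k1,k1]]
    [.ref k0 k0 [(z1,[y1,z1])]]]⟩

/-- classes `0 0 1 2 2 1`, types `N0 N2 C0 N0 N2 C2` -/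
noncomputable def cT6_1650 : CertT :=
  ⟨[k12,k14,k20,k44,k46,k22],[],[[[]]],
    [.lp [k2,k0,k2,k0,k2,k0] [k0,k0,k1,k1,k0,k0,k1,k1,k0,k0,k1,k1] k0 [] k4 k5
    [[(k7,k1),(k10,k1)],[(k2,k1)],[(k5,k1)],[(k0,k1)],[(k3,k1)],[(k7,k1),(k10,k1)],[(k1,k1),(k4,k1)],[(k8,k1)],[(k11,
    k1)],[(k6,k1)],[(k9,k1)],[(k1,k1),(k4,k1)]]
    [] k0
    []
    []]⟩

/-- classes `0 0 1 2 2 1`, types `N0 N2 C0 S0 S0 C0` -/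
noncomputable def cT6_1651 : CertT :=
  ⟨[k12,k14,k20,k32,k32,k20],[(false,k0,[k0,k1,k2,k3,k4,k5])],[[[([z1,z1,z1,z0,z0,z0],z2)],[]]],
    [.leafM k4 [k0,k1,k2,k3,k4,k5] [(z1,[y1,z1])] [],
    .lp [k12,k6,k6,k6,k8,k6] [k0,k0,k3,k3,k3,k3,k3,k3,k2,k2,k3,k3] k0 [] k24 k5
    [[(k4,k9),(k10,k9)],[(k2,k9)],[(k5,k6)],[(k0,k9)],[(k3,k6)],[(k7,k6),(k1,k9)],[(k4,k6),(k10,k6)],[(k6,k6),(k11,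
    k6),(k8,k7),(k9,k7)],[(k6,k7),(k11,k7),(k8,k8),(k9,k8)],[(k6,k7),(k11,k7),(k8,k8),(k9,k8)],[(k6,k6),(k11,k6),(k8,
    k7),(k9,k7)],[(k7,k6),(k1,k9)]]
    [] k0
    [[k0,k0,k0,k1,k1,k1]]
    [.ref k0 k0 [(z1,[y1,z1])]]]⟩

/-- classes `0 0 1 2 2 1`, types `N0 N2 C0 S0 S0 C2` -/
noncomputable def cT6_1652 : CertT :=
  ⟨[k12,k14,k20,k32,k32,k22],[],[[[]]],
    [.lp [k6,k6,k6,k6,k8,k6] [k1,k1,k1,k1,k1,k1,k1,k1,k0,k0,k1,k1] k0 [] k24 k5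
    [[(k7,k6),(k10,k6)],[(k2,k6)],[(k5,k6)],[(k0,k6)],[(k3,k6)],[(k7,k6),(k10,k6)],[(k1,k6),(k4,k6)],[(k6,k6),(k11,
    k6),(k8,k7),(k9,k7)],[(k6,k7),(k11,k7),(k8,k8),(k9,k8)],[(k6,k7),(k11,k7),(k8,k8),(k9,k8)],[(k6,k6),(k11,k6),(k8,
    k7),(k9,k7)],[(k1,k6),(k4,k6)]]
    [] k0
    []
    []]⟩

/-- classes `0 0 1 2 2 1`, types `N0 N2 N0 N0 N2 N1` -/
noncomputable def cT6_1653 : CertT :=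
  ⟨[k12,k14,k28,k44,k46,k29],[(false,k0,[k0,k1,k2,k3,k4,k5])],[[[([z1,z1,z1,z0,z0,z0],z2)],[]]],
    [.leafM k6 [k0,k1,k2,k3,k4,k5] [(z1,[y1,z1])] [],
    .lp [k4,k4,k0,k2,k2,k2] [k0,k0,k0,k0,k2,k2,k1,k1,k1,k1,k1,k1] k0 [] k8 k5
    [[(k4,k2)],[(k2,k4)],[(k5,k2)],[(k0,k4)],[(k3,k2)],[(k1,k2)],[(k10,k2)],[(k8,k2)],[(k11,k2)],[(k6,k2)],[(k9,k2)],
    [(k7,k2)]]
    [] k0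
    [[k0,k0,k0,k1,k1,k1]]
    [.ref k0 k0 [(z1,[y1,z1])]]]⟩

/-- classes `0 0 1 2 2 1`, types `N0 N2 N0 N0 N2 N2` -/
noncomputable def cT6_1654 : CertT :=
  ⟨[k12,k14,k28,k44,k46,k30],[],[[[]]],
    [.lp [k2,k0,k2,k0,k2,k0] [k0,k0,k1,k1,k0,k0,k1,k1,k0,k0,k1,k1] k0 [] k4 k5
    [[(k7,k1)],[(k2,k1)],[(k5,k1)],[(k0,k1)],[(k3,k1)],[(k10,k1)],[(k1,k1)],[(k8,k1)],[(k11,k1)],[(k6,k1)],[(k9,k1)],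
    [(k4,k1)]]
    [] k0
    []
    []]⟩

/-- classes `0 0 1 2 2 1`, types `N0 N2 N0 S0 S0 N1` -/
noncomputable def cT6_1655 : CertT :=
  ⟨[k12,k14,k28,k32,k32,k29],[(false,k0,[k0,k1,k2,k3,k4,k5])],[[[([z1,z1,z1,z0,z0,z0],z2)],[]]],
    [.leafM k4 [k0,k1,k2,k3,k4,k5] [(z1,[y1,z1])] [],
    .lp [k12,k12,k0,k6,k8,k6] [k0,k0,k0,k0,k6,k6,k3,k3,k2,k2,k3,k3] k0 [] k24 k5
    [[(k4,k6)],[(k2,k12)],[(k5,k6)],[(k0,k12)],[(k3,k6)],[(k1,k6)],[(k10,k6)],[(k6,k6),(k11,k6),(k8,k7),(k9,k7)],[(k6,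
    k7),(k11,k7),(k8,k8),(k9,k8)],[(k6,k7),(k11,k7),(k8,k8),(k9,k8)],[(k6,k6),(k11,k6),(k8,k7),(k9,k7)],[(k7,k6)]]
    [] k0
    [[k0,k0,k0,k1,k1,k1]]
    [.ref k0 k0 [(z1,[y1,z1])]]]⟩

/-- classes `0 0 1 2 2 1`, types `N0 N2 N0 S0 S0 N2` -/
noncomputable def cT6_1656 : CertT :=
  ⟨[k12,k14,k28,k32,k32,k30],[],[[[]]],
    [.lp [k6,k6,k6,k6,k8,k6] [k1,k1,k1,k1,k1,k1,k1,k1,k0,k0,k1,k1] k0 [] k24 k5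
    [[(k7,k6)],[(k2,k6)],[(k5,k6)],[(k0,k6)],[(k3,k6)],[(k10,k6)],[(k1,k6)],[(k6,k6),(k11,k6),(k8,k7),(k9,k7)],[(k6,
    k7),(k11,k7),(k8,k8),(k9,k8)],[(k6,k7),(k11,k7),(k8,k8),(k9,k8)],[(k6,k6),(k11,k6),(k8,k7),(k9,k7)],[(k4,k6)]]
    [] k0
    []
    []]⟩

/-- classes `0 0 1 2 2 1`, types `N0 N2 S0 N0 N2 S0` -/
noncomputable def cT6_1657 : CertT :=
  ⟨[k12,k14,k16,k44,k46,k16],[(false,k0,[k0,k1,k2,k3,k4,k5])],[[[([z1,z1,z1,z0,z0,z0],z2)],[]]],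
    [.leafM k6 [k0,k1,k2,k3,k4,k5] [(z1,[y1,z1])] [],
    .lp [k4,k2,k2,k2,k2,k2] [k0,k0,k1,k1,k1,k1,k1,k1,k1,k1,k1,k1] k0 [] k8 k5
    [[(k4,k3),(k7,k3),(k10,k3),(k1,k4)],[(k2,k3)],[(k5,k2)],[(k0,k3)],[(k3,k2)],[(k4,k2),(k7,k2),(k10,k2),(k1,k3)],
    [(k4,k2),(k7,k2),(k10,k2),(k1,k3)],[(k8,k2)],[(k11,k2)],[(k6,k2)],[(k9,k2)],[(k4,k2),(k7,k2),(k10,k2),(k1,k3)]]
    [] k0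
    [[k0,k0,k0,k1,k1,k1]]
    [.ref k0 k0 [(z1,[y1,z1])]]]⟩

/-- classes `0 0 1 2 2 1`, types `N0 N2 S0 S0 S0 S0` -/
noncomputable def cT6_1658 : CertT :=
  ⟨[k12,k14,k16,k32,k32,k16],[(false,k0,[k0,k1,k2,k3,k4,k5])],[[[([z1,z1,z1,z0,z0,z0],z2)],[]]],
    [.leafM k4 [k0,k1,k2,k3,k4,k5] [(z1,[y1,z1])] [],
    .lp [k6,k10,k6,k8,k8,k8] [k2,k2,k0,k0,k2,k2,k1,k1,k1,k1,k1,k1] k0 [[],[],[],[],[],[k0,k0,k0,k0,k0,k0,k0,k0,k0,k0,k0,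
    k2],[],[],[],[],[k0,k0,k0,k0,k2]] k24 k5
    [[(k1,k6),(k7,k7),(k10,k7),(k4,k8)],[(k2,k8)],[(k5,k8)],[(k0,k8)],[(k3,k8)],[(k4,k6),(k7,k7),(k10,k7),(k1,k8)],
    [(k10,k6),(k1,k7),(k4,k7),(k7,k8)],[(k6,k8),(k8,k8),(k9,k8),(k11,k8)],[(k6,k8),(k8,k8),(k9,k8),(k11,k8)],[(k6,k8),
    (k8,k8),(k9,k8),(k11,k8)],[(k6,k8),(k8,k8),(k9,k8),(k11,k8)],[(k7,k6),(k1,k7),(k4,k7),(k10,k8)]]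
    [] k0
    [[k0,k0,k0,k1,k1,k1]]
    [.ref k0 k0 [(z1,[y1,z1])]]]⟩

/-- classes `0 0 1 2 2 1`, types `S0 S0 B0 S0 S0 B1` -/
noncomputable def cT6_1659 : CertT :=
  ⟨[k0,k0,k24,k32,k32,k25],[(false,k0,[k0,k1,k2,k3,k4,k5])],[[[([z1,z1,z1,z0,z0,z0],z2)],[]]],
    [.leafM k0 [k2,k3,k4,k5,k0,k1] [(z1,[y1,z1])] [],
    .lp [k6,k12,k6,k6,k8,k6] [k3,k3,k0,k0,k3,k3,k3,k3,k2,k2,k3,k3] k0 [] k24 k5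
    [[(k4,k6),(k7,k6)],[(k0,k6),(k5,k6),(k2,k9),(k3,k9)],[(k0,k9),(k5,k9),(k2,k12),(k3,k12)],[(k0,k9),(k5,k9),(k2,
    k12),(k3,k12)],[(k0,k6),(k5,k6),(k2,k9),(k3,k9)],[(k1,k6),(k10,k6)],[(k1,k6),(k10,k6)],[(k6,k6),(k11,k6),(k8,k7),
    (k9,k7)],[(k6,k7),(k11,k7),(k8,k8),(k9,k8)],[(k6,k7),(k11,k7),(k8,k8),(k9,k8)],[(k6,k6),(k11,k6),(k8,k7),(k9,k7)],
    [(k4,k6),(k7,k6)]]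
    [] k0
    [[k0,k0,k0,k1,k1,k1]]
    [.ref k0 k0 [(z1,[y1,z1])]]]⟩

/-- classes `0 0 1 2 2 1`, types `S0 S0 C0 S0 S0 C0` -/
noncomputable def cT6_1660 : CertT :=
  ⟨[k0,k0,k20,k32,k32,k20],[(false,k0,[k0,k1,k2,k3,k4,k5])],[[[([z1,z1,z1,z0,z0,z0],z2)],[]]],
    [.leafM k0 [k2,k3,k4,k5,k0,k1] [(z1,[y1,z1])] [],
    .lp [k6,k12,k6,k6,k8,k6] [k3,k3,k0,k0,k3,k3,k3,k3,k2,k2,k3,k3] k0 [] k24 k5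
    [[(k4,k6),(k10,k6)],[(k0,k6),(k5,k6),(k2,k9),(k3,k9)],[(k0,k9),(k5,k9),(k2,k12),(k3,k12)],[(k0,k9),(k5,k9),(k2,
    k12),(k3,k12)],[(k0,k6),(k5,k6),(k2,k9),(k3,k9)],[(k1,k6),(k7,k6)],[(k4,k6),(k10,k6)],[(k6,k6),(k11,k6),(k8,k7),
    (k9,k7)],[(k6,k7),(k11,k7),(k8,k8),(k9,k8)],[(k6,k7),(k11,k7),(k8,k8),(k9,k8)],[(k6,k6),(k11,k6),(k8,k7),(k9,k7)],
    [(k1,k6),(k7,k6)]]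
    [] k0
    [[k0,k0,k0,k1,k1,k1]]
    [.ref k0 k0 [(z1,[y1,z1])]]]⟩

/-- classes `0 0 1 2 2 1`, types `S0 S0 C0 S0 S0 C2` -/
noncomputable def cT6_1661 : CertT :=
  ⟨[k0,k0,k20,k32,k32,k22],[],[[[]]],
    [.lp [k6,k8,k6,k6,k8,k6] [k1,k1,k0,k0,k1,k1,k1,k1,k0,k0,k1,k1] k0 [] k24 k5
    [[(k7,k6),(k10,k6)],[(k0,k6),(k5,k6),(k2,k7),(k3,k7)],[(k0,k7),(k5,k7),(k2,k8),(k3,k8)],[(k0,k7),(k5,k7),(k2,k8),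
    (k3,k8)],[(k0,k6),(k5,k6),(k2,k7),(k3,k7)],[(k7,k6),(k10,k6)],[(k1,k6),(k4,k6)],[(k6,k6),(k11,k6),(k8,k7),(k9,
    k7)],[(k6,k7),(k11,k7),(k8,k8),(k9,k8)],[(k6,k7),(k11,k7),(k8,k8),(k9,k8)],[(k6,k6),(k11,k6),(k8,k7),(k9,k7)],
    [(k1,k6),(k4,k6)]]
    [] k0
    []
    []]⟩

/-- classes `0 0 1 2 2 1`, types `S0 S0 N0 S0 S0 N1` -/
noncomputable def cT6_1662 : CertT :=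
  ⟨[k0,k0,k28,k32,k32,k29],[(false,k0,[k0,k1,k2,k3,k4,k5])],[[[([z1,z1,z1,z0,z0,z0],z2)],[]]],
    [.leafM k0 [k2,k3,k4,k5,k0,k1] [(z1,[y1,z1])] [],
    .lp [k6,k12,k6,k6,k8,k6] [k3,k3,k0,k0,k3,k3,k3,k3,k2,k2,k3,k3] k0 [] k24 k5
    [[(k4,k6)],[(k0,k6),(k5,k6),(k2,k9),(k3,k9)],[(k0,k9),(k5,k9),(k2,k12),(k3,k12)],[(k0,k9),(k5,k9),(k2,k12),(k3,
    k12)],[(k0,k6),(k5,k6),(k2,k9),(k3,k9)],[(k1,k6)],[(k10,k6)],[(k6,k6),(k11,k6),(k8,k7),(k9,k7)],[(k6,k7),(k11,k7),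
    (k8,k8),(k9,k8)],[(k6,k7),(k11,k7),(k8,k8),(k9,k8)],[(k6,k6),(k11,k6),(k8,k7),(k9,k7)],[(k7,k6)]]
    [] k0
    [[k0,k0,k0,k1,k1,k1]]
    [.ref k0 k0 [(z1,[y1,z1])]]]⟩

/-- classes `0 0 1 2 2 1`, types `S0 S0 N0 S0 S0 N2` -/
noncomputable def cT6_1663 : CertT :=
  ⟨[k0,k0,k28,k32,k32,k30],[],[[[]]],
    [.lp [k6,k8,k6,k6,k8,k6] [k1,k1,k0,k0,k1,k1,k1,k1,k0,k0,k1,k1] k0 [] k24 k5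
    [[(k7,k6)],[(k0,k6),(k5,k6),(k2,k7),(k3,k7)],[(k0,k7),(k5,k7),(k2,k8),(k3,k8)],[(k0,k7),(k5,k7),(k2,k8),(k3,k8)],
    [(k0,k6),(k5,k6),(k2,k7),(k3,k7)],[(k10,k6)],[(k1,k6)],[(k6,k6),(k11,k6),(k8,k7),(k9,k7)],[(k6,k7),(k11,k7),(k8,
    k8),(k9,k8)],[(k6,k7),(k11,k7),(k8,k8),(k9,k8)],[(k6,k6),(k11,k6),(k8,k7),(k9,k7)],[(k4,k6)]]
    [] k0
    []
    []]⟩

/-- classes `0 0 1 2 2 3`, types `B0 B1 C0 B0 B1 C0` -/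
noncomputable def cT6_1664 : CertT :=
  ⟨[k8,k9,k20,k40,k41,k52],[],[[[]]],
    [.lp [k4,k4,k2,k4,k4,k2] [k0,k0,k0,k0,k1,k1,k0,k0,k0,k0,k1,k1] k0 [] k12 k5
    [[(k10,k3)],[(k5,k3),(k2,k4)],[(k5,k3),(k2,k4)],[(k0,k4),(k3,k4)],[(k0,k3),(k3,k3)],[(k7,k3)],[(k4,k3)],[(k11,k3),
    (k8,k4)],[(k11,k3),(k8,k4)],[(k6,k4),(k9,k4)],[(k6,k3),(k9,k3)],[(k1,k3)]]
    [] k0
    []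
    []]⟩

/-- classes `0 0 1 2 2 3`, types `B0 B1 C0 B0 B1 S0` -/
noncomputable def cT6_1665 : CertT :=
  ⟨[k8,k9,k20,k40,k41,k48],[],[[[]]],
    [.lp [k6,k8,k6,k6,k8,k6] [k1,k1,k0,k0,k1,k1,k1,k1,k0,k0,k1,k1] k0 [] k24 k5
    [[(k1,k6),(k10,k6)],[(k5,k6),(k2,k7)],[(k5,k7),(k2,k8)],[(k0,k7),(k3,k8)],[(k0,k6),(k3,k7)],[(k7,k6)],[(k4,k6)],
    [(k11,k6),(k8,k7)],[(k11,k7),(k8,k8)],[(k6,k7),(k9,k8)],[(k6,k6),(k9,k7)],[(k1,k6),(k10,k6)]]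
    [] k0
    []
    []]⟩

/-- classes `0 0 1 2 2 3`, types `B0 B1 C0 C0 C0 C0` -/
noncomputable def cT6_1666 : CertT :=
  ⟨[k8,k9,k20,k36,k36,k52],[],[[[]]],
    [.lp [k4,k4,k2,k4,k4,k2] [k0,k0,k0,k0,k1,k1,k0,k0,k0,k0,k1,k1] k0 [] k12 k5
    [[(k10,k3)],[(k5,k3),(k2,k4)],[(k5,k3),(k2,k4)],[(k0,k4),(k3,k4)],[(k0,k3),(k3,k3)],[(k7,k3)],[(k4,k3)],[(k11,k3),
    (k9,k4)],[(k6,k4),(k8,k4)],[(k11,k3),(k9,k4)],[(k6,k3),(k8,k3)],[(k1,k3)]]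
    [] k0
    []
    []]⟩

/-- classes `0 0 1 2 2 3`, types `B0 B1 C0 C0 C0 S0` -/
noncomputable def cT6_1667 : CertT :=
  ⟨[k8,k9,k20,k36,k36,k48],[],[[[]]],
    [.lp [k6,k8,k6,k6,k8,k6] [k1,k1,k0,k0,k1,k1,k1,k1,k0,k0,k1,k1] k0 [] k24 k5
    [[(k1,k6),(k10,k6)],[(k5,k6),(k2,k7)],[(k5,k7),(k2,k8)],[(k0,k7),(k3,k8)],[(k0,k6),(k3,k7)],[(k7,k6)],[(k4,k6)],
    [(k11,k6),(k9,k7)],[(k6,k7),(k8,k8)],[(k11,k7),(k9,k8)],[(k6,k6),(k8,k7)],[(k1,k6),(k10,k6)]]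
    [] k0
    []
    []]⟩

/-- classes `0 0 1 2 2 3`, types `B0 B1 C0 C0 C2 C0` -/
noncomputable def cT6_1668 : CertT :=
  ⟨[k8,k9,k20,k36,k38,k52],[],[[[]]],
    [.lp [k6,k8,k6,k6,k6,k6] [k1,k1,k0,k0,k1,k1,k1,k1,k1,k1,k1,k1] k0 [] k24 k5
    [[(k10,k6)],[(k5,k6),(k2,k7)],[(k5,k7),(k2,k8)],[(k0,k7),(k3,k8)],[(k0,k6),(k3,k7)],[(k7,k6)],[(k4,k6)],[(k8,k6),
    (k9,k6)],[(k6,k6),(k11,k6)],[(k6,k6),(k11,k6)],[(k8,k6),(k9,k6)],[(k1,k6)]]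
    [] k0
    []
    []]⟩

/-- classes `0 0 1 2 2 3`, types `B0 B1 C0 C0 C2 S0` -/
noncomputable def cT6_1669 : CertT :=
  ⟨[k8,k9,k20,k36,k38,k48],[],[[[]]],
    [.lp [k12,k16,k12,k12,k12,k18] [k3,k3,k1,k1,k3,k3,k3,k3,k3,k3,k0,k0] k0 [] k48 k5
    [[(k1,k12),(k10,k15)],[(k5,k12),(k2,k14)],[(k5,k14),(k2,k16)],[(k0,k14),(k3,k16)],[(k0,k12),(k3,k14)],[(k7,k12)],
    [(k4,k12)],[(k8,k12),(k9,k12)],[(k6,k12),(k11,k15)],[(k6,k12),(k11,k15)],[(k8,k15),(k9,k15)],[(k1,k15),(k10,k18)]]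
    [] k0
    []
    []]⟩

/-- classes `0 0 1 2 2 3`, types `B0 B1 C0 N0 N1 C0` -/
noncomputable def cT6_1670 : CertT :=
  ⟨[k8,k9,k20,k44,k45,k52],[],[[[]]],
    [.lp [k4,k4,k2,k4,k4,k2] [k0,k0,k0,k0,k1,k1,k0,k0,k0,k0,k1,k1] k0 [] k12 k5
    [[(k10,k3)],[(k5,k3),(k2,k4)],[(k5,k3),(k2,k4)],[(k0,k4),(k3,k4)],[(k0,k3),(k3,k3)],[(k7,k3)],[(k4,k3)],[(k11,
    k3)],[(k8,k4)],[(k9,k4)],[(k6,k3)],[(k1,k3)]]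
    [] k0
    []
    []]⟩

/-- classes `0 0 1 2 2 3`, types `B0 B1 C0 N0 N1 S0` -/
noncomputable def cT6_1671 : CertT :=
  ⟨[k8,k9,k20,k44,k45,k48],[],[[[]]],
    [.lp [k6,k8,k6,k6,k8,k6] [k1,k1,k0,k0,k1,k1,k1,k1,k0,k0,k1,k1] k0 [] k24 k5
    [[(k1,k6),(k10,k6)],[(k5,k6),(k2,k7)],[(k5,k7),(k2,k8)],[(k0,k7),(k3,k8)],[(k0,k6),(k3,k7)],[(k7,k6)],[(k4,k6)],
    [(k11,k6)],[(k8,k8)],[(k9,k8)],[(k6,k6)],[(k1,k6),(k10,k6)]]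
    [] k0
    []
    []]⟩

/-- classes `0 0 1 2 2 3`, types `B0 B1 C0 N0 N2 C0` -/
noncomputable def cT6_1672 : CertT :=
  ⟨[k8,k9,k20,k44,k46,k52],[],[[[]]],
    [.lp [k6,k8,k6,k6,k6,k6] [k1,k1,k0,k0,k1,k1,k1,k1,k1,k1,k1,k1] k0 [] k24 k5
    [[(k10,k6)],[(k5,k6),(k2,k7)],[(k5,k7),(k2,k8)],[(k0,k7),(k3,k8)],[(k0,k6),(k3,k7)],[(k7,k6)],[(k4,k6)],[(k8,k6)],
    [(k11,k6)],[(k6,k6)],[(k9,k6)],[(k1,k6)]]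
    [] k0
    []
    []]⟩

/-- classes `0 0 1 2 2 3`, types `B0 B1 C0 N0 N2 S0` -/
noncomputable def cT6_1673 : CertT :=
  ⟨[k8,k9,k20,k44,k46,k48],[],[[[]]],
    [.lp [k6,k8,k6,k6,k6,k6] [k1,k1,k0,k0,k1,k1,k1,k1,k1,k1,k1,k1] k0 [] k24 k5
    [[(k1,k6),(k10,k6)],[(k5,k6),(k2,k7)],[(k5,k7),(k2,k8)],[(k0,k7),(k3,k8)],[(k0,k6),(k3,k7)],[(k7,k6)],[(k4,k6)],
    [(k8,k6)],[(k11,k6)],[(k6,k6)],[(k9,k6)],[(k1,k6),(k10,k6)]]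
    [] k0
    []
    []]⟩

/-- classes `0 0 1 2 2 3`, types `B0 B1 C0 S0 S0 C0` -/
noncomputable def cT6_1674 : CertT :=
  ⟨[k8,k9,k20,k32,k32,k52],[],[[[]]],
    [.lp [k6,k8,k6,k6,k8,k6] [k1,k1,k0,k0,k1,k1,k1,k1,k0,k0,k1,k1] k0 [] k24 k5
    [[(k10,k6)],[(k5,k6),(k2,k7)],[(k5,k7),(k2,k8)],[(k0,k7),(k3,k8)],[(k0,k6),(k3,k7)],[(k7,k6)],[(k4,k6)],[(k6,k6),
    (k11,k6),(k8,k7),(k9,k7)],[(k6,k7),(k11,k7),(k8,k8),(k9,k8)],[(k6,k7),(k11,k7),(k8,k8),(k9,k8)],[(k6,k6),(k11,k6),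
    (k8,k7),(k9,k7)],[(k1,k6)]]
    [] k0
    []
    []]⟩

/-- classes `0 0 1 2 2 3`, types `B0 B1 C0 S0 S0 S0` -/
noncomputable def cT6_1675 : CertT :=
  ⟨[k8,k9,k20,k32,k32,k48],[],[[[]]],
    [.lp [k6,k8,k6,k6,k8,k8] [k1,k1,k0,k0,k1,k1,k1,k1,k0,k0,k0,k0] k0 [] k24 k5
    [[(k1,k6),(k10,k7)],[(k5,k6),(k2,k7)],[(k5,k7),(k2,k8)],[(k0,k7),(k3,k8)],[(k0,k6),(k3,k7)],[(k7,k6)],[(k4,k6)],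
    [(k6,k6),(k8,k7),(k9,k7),(k11,k7)],[(k6,k7),(k8,k8),(k9,k8),(k11,k8)],[(k6,k7),(k8,k8),(k9,k8),(k11,k8)],[(k6,k7),
    (k8,k8),(k9,k8),(k11,k8)],[(k1,k7),(k10,k8)]]
    [] k0
    []
    []]⟩

/-- classes `0 0 1 2 2 3`, types `B0 B1 S0 B0 B1 S0` -/
noncomputable def cT6_1676 : CertT :=
  ⟨[k8,k9,k16,k40,k41,k48],[],[[[]]],
    [.lp [k6,k8,k6,k6,k8,k6] [k1,k1,k0,k0,k1,k1,k1,k1,k0,k0,k1,k1] k0 [] k24 k5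
    [[(k1,k6),(k10,k6)],[(k5,k6),(k2,k7)],[(k5,k7),(k2,k8)],[(k0,k7),(k3,k8)],[(k0,k6),(k3,k7)],[(k4,k6),(k7,k6)],
    [(k4,k6),(k7,k6)],[(k11,k6),(k8,k7)],[(k11,k7),(k8,k8)],[(k6,k7),(k9,k8)],[(k6,k6),(k9,k7)],[(k1,k6),(k10,k6)]]
    [] k0
    []
    []]⟩

/-- classes `0 0 1 2 2 3`, types `B0 B1 S0 C0 C0 S0` -/
noncomputable def cT6_1677 : CertT :=
  ⟨[k8,k9,k16,k36,k36,k48],[],[[[]]],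
    [.lp [k6,k8,k6,k6,k8,k6] [k1,k1,k0,k0,k1,k1,k1,k1,k0,k0,k1,k1] k0 [] k24 k5
    [[(k1,k6),(k10,k6)],[(k5,k6),(k2,k7)],[(k5,k7),(k2,k8)],[(k0,k7),(k3,k8)],[(k0,k6),(k3,k7)],[(k4,k6),(k7,k6)],
    [(k4,k6),(k7,k6)],[(k11,k6),(k9,k7)],[(k6,k7),(k8,k8)],[(k11,k7),(k9,k8)],[(k6,k6),(k8,k7)],[(k1,k6),(k10,k6)]]
    [] k0
    []
    []]⟩

/-- classes `0 0 1 2 2 3`, types `B0 B1 S0 C0 C2 S0` -/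
noncomputable def cT6_1678 : CertT :=
  ⟨[k8,k9,k16,k36,k38,k48],[],[[[]]],
    [.lp [k6,k8,k6,k12,k0,k12] [k3,k3,k2,k2,k3,k3,k0,k0,k6,k6,k0,k0] k0 [] k24 k5
    [[(k1,k6),(k10,k9)],[(k5,k6),(k2,k7)],[(k5,k7),(k2,k8)],[(k0,k7),(k3,k8)],[(k0,k6),(k3,k7)],[(k4,k6),(k7,k9)],
    [(k4,k9),(k7,k12)],[(k8,k6),(k9,k6)],[(k6,k6),(k11,k6)],[(k6,k6),(k11,k6)],[(k8,k6),(k9,k6)],[(k1,k9),(k10,k12)]]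
    [] k0
    []
    []]⟩

/-- classes `0 0 1 2 2 3`, types `B0 B1 S0 N0 N1 S0` -/
noncomputable def cT6_1679 : CertT :=
  ⟨[k8,k9,k16,k44,k45,k48],[],[[[]]],
    [.lp [k6,k8,k6,k6,k8,k6] [k1,k1,k0,k0,k1,k1,k1,k1,k0,k0,k1,k1] k0 [] k24 k5
    [[(k1,k6),(k10,k6)],[(k5,k6),(k2,k7)],[(k5,k7),(k2,k8)],[(k0,k7),(k3,k8)],[(k0,k6),(k3,k7)],[(k4,k6),(k7,k6)],
    [(k4,k6),(k7,k6)],[(k11,k6)],[(k8,k8)],[(k9,k8)],[(k6,k6)],[(k1,k6),(k10,k6)]]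
    [] k0
    []
    []]⟩

/-- classes `0 0 1 2 2 3`, types `B0 B1 S0 N0 N2 S0` -/
noncomputable def cT6_1680 : CertT :=
  ⟨[k8,k9,k16,k44,k46,k48],[],[[[]]],
    [.lp [k6,k8,k6,k6,k6,k6] [k1,k1,k0,k0,k1,k1,k1,k1,k1,k1,k1,k1] k0 [] k24 k5
    [[(k1,k6),(k10,k6)],[(k5,k6),(k2,k7)],[(k5,k7),(k2,k8)],[(k0,k7),(k3,k8)],[(k0,k6),(k3,k7)],[(k4,k6),(k7,k6)],
    [(k4,k6),(k7,k6)],[(k8,k6)],[(k11,k6)],[(k6,k6)],[(k9,k6)],[(k1,k6),(k10,k6)]]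
    [] k0
    []
    []]⟩

/-- classes `0 0 1 2 2 3`, types `B0 B1 S0 S0 S0 S0` -/
noncomputable def cT6_1681 : CertT :=
  ⟨[k8,k9,k16,k32,k32,k48],[],[[[]]],
    [.lp [k6,k8,k6,k8,k8,k8] [k1,k1,k0,k0,k1,k1,k0,k0,k0,k0,k0,k0] k0 [] k24 k5
    [[(k1,k6),(k10,k7)],[(k5,k6),(k2,k7)],[(k5,k7),(k2,k8)],[(k0,k7),(k3,k8)],[(k0,k6),(k3,k7)],[(k4,k6),(k7,k7)],
    [(k4,k7),(k7,k8)],[(k6,k8),(k8,k8),(k9,k8),(k11,k8)],[(k6,k8),(k8,k8),(k9,k8),(k11,k8)],[(k6,k8),(k8,k8),(k9,k8),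
    (k11,k8)],[(k6,k8),(k8,k8),(k9,k8),(k11,k8)],[(k1,k7),(k10,k8)]]
    [] k0
    []
    []]⟩

/-- classes `0 0 1 2 2 3`, types `C0 C0 C0 C0 C0 C0` -/
noncomputable def cT6_1682 : CertT :=
  ⟨[k4,k4,k20,k36,k36,k52],[],[[[]]],
    [.lp [k2,k4,k4,k2,k4,k4] [k1,k1,k0,k0,k0,k0,k1,k1,k0,k0,k0,k0] k0 [] k12 k5
    [[(k10,k3)],[(k3,k3),(k5,k3)],[(k0,k3),(k2,k4)],[(k3,k4),(k5,k4)],[(k0,k3),(k2,k4)],[(k7,k3)],[(k4,k3)],[(k9,k3),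
    (k11,k3)],[(k6,k3),(k8,k4)],[(k9,k4),(k11,k4)],[(k6,k3),(k8,k4)],[(k1,k3)]]
    [] k0
    []
    []]⟩

/-- classes `0 0 1 2 2 3`, types `C0 C0 C0 C0 C0 S0` -/
noncomputable def cT6_1683 : CertT :=
  ⟨[k4,k4,k20,k36,k36,k48],[],[[[]]],
    [.lp [k6,k8,k6,k6,k8,k6] [k1,k1,k0,k0,k1,k1,k1,k1,k0,k0,k1,k1] k0 [] k24 k5
    [[(k1,k6),(k10,k6)],[(k5,k6),(k3,k7)],[(k0,k7),(k2,k8)],[(k5,k7),(k3,k8)],[(k0,k6),(k2,k7)],[(k7,k6)],[(k4,k6)],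
    [(k11,k6),(k9,k7)],[(k6,k7),(k8,k8)],[(k11,k7),(k9,k8)],[(k6,k6),(k8,k7)],[(k1,k6),(k10,k6)]]
    [] k0
    []
    []]⟩

/-- classes `0 0 1 2 2 3`, types `C0 C0 C0 C0 C2 C0` -/
noncomputable def cT6_1684 : CertT :=
  ⟨[k4,k4,k20,k36,k38,k52],[],[[[]]],
    [.lp [k6,k8,k6,k6,k6,k6] [k1,k1,k0,k0,k1,k1,k1,k1,k1,k1,k1,k1] k0 [] k24 k5
    [[(k10,k6)],[(k5,k6),(k3,k7)],[(k0,k7),(k2,k8)],[(k5,k7),(k3,k8)],[(k0,k6),(k2,k7)],[(k7,k6)],[(k4,k6)],[(k8,k6),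
    (k9,k6)],[(k6,k6),(k11,k6)],[(k6,k6),(k11,k6)],[(k8,k6),(k9,k6)],[(k1,k6)]]
    [] k0
    []
    []]⟩

/-- classes `0 0 1 2 2 3`, types `C0 C0 C0 C0 C2 S0` -/
noncomputable def cT6_1685 : CertT :=
  ⟨[k4,k4,k20,k36,k38,k48],[],[[[]]],
    [.lp [k12,k16,k12,k12,k12,k18] [k3,k3,k1,k1,k3,k3,k3,k3,k3,k3,k0,k0] k0 [] k48 k5
    [[(k1,k12),(k10,k15)],[(k5,k12),(k3,k14)],[(k0,k14),(k2,k16)],[(k5,k14),(k3,k16)],[(k0,k12),(k2,k14)],[(k7,k12)],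
    [(k4,k12)],[(k8,k12),(k9,k12)],[(k6,k12),(k11,k15)],[(k6,k12),(k11,k15)],[(k8,k15),(k9,k15)],[(k1,k15),(k10,k18)]]
    [] k0
    []
    []]⟩

/-- classes `0 0 1 2 2 3`, types `C0 C0 C0 N0 N1 C0` -/
noncomputable def cT6_1686 : CertT :=
  ⟨[k4,k4,k20,k44,k45,k52],[],[[[]]],
    [.lp [k2,k4,k4,k2,k4,k4] [k1,k1,k0,k0,k0,k0,k1,k1,k0,k0,k0,k0] k0 [] k12 k5
    [[(k10,k3)],[(k3,k3),(k5,k3)],[(k0,k3),(k2,k4)],[(k3,k4),(k5,k4)],[(k0,k3),(k2,k4)],[(k7,k3)],[(k4,k3)],[(k11,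
    k3)],[(k8,k4)],[(k9,k4)],[(k6,k3)],[(k1,k3)]]
    [] k0
    []
    []]⟩

/-- classes `0 0 1 2 2 3`, types `C0 C0 C0 N0 N1 S0` -/
noncomputable def cT6_1687 : CertT :=
  ⟨[k4,k4,k20,k44,k45,k48],[],[[[]]],
    [.lp [k6,k8,k6,k6,k8,k6] [k1,k1,k0,k0,k1,k1,k1,k1,k0,k0,k1,k1] k0 [] k24 k5
    [[(k1,k6),(k10,k6)],[(k5,k6),(k3,k7)],[(k0,k7),(k2,k8)],[(k5,k7),(k3,k8)],[(k0,k6),(k2,k7)],[(k7,k6)],[(k4,k6)],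
    [(k11,k6)],[(k8,k8)],[(k9,k8)],[(k6,k6)],[(k1,k6),(k10,k6)]]
    [] k0
    []
    []]⟩

/-- classes `0 0 1 2 2 3`, types `C0 C0 C0 N0 N2 C0` -/
noncomputable def cT6_1688 : CertT :=
  ⟨[k4,k4,k20,k44,k46,k52],[],[[[]]],
    [.lp [k6,k8,k6,k6,k6,k6] [k1,k1,k0,k0,k1,k1,k1,k1,k1,k1,k1,k1] k0 [] k24 k5
    [[(k10,k6)],[(k5,k6),(k3,k7)],[(k0,k7),(k2,k8)],[(k5,k7),(k3,k8)],[(k0,k6),(k2,k7)],[(k7,k6)],[(k4,k6)],[(k8,k6)],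
    [(k11,k6)],[(k6,k6)],[(k9,k6)],[(k1,k6)]]
    [] k0
    []
    []]⟩

/-- classes `0 0 1 2 2 3`, types `C0 C0 C0 N0 N2 S0` -/
noncomputable def cT6_1689 : CertT :=
  ⟨[k4,k4,k20,k44,k46,k48],[],[[[]]],
    [.lp [k6,k8,k6,k6,k6,k6] [k1,k1,k0,k0,k1,k1,k1,k1,k1,k1,k1,k1] k0 [] k24 k5
    [[(k1,k6),(k10,k6)],[(k5,k6),(k3,k7)],[(k0,k7),(k2,k8)],[(k5,k7),(k3,k8)],[(k0,k6),(k2,k7)],[(k7,k6)],[(k4,k6)],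
    [(k8,k6)],[(k11,k6)],[(k6,k6)],[(k9,k6)],[(k1,k6),(k10,k6)]]
    [] k0
    []
    []]⟩

/-- classes `0 0 1 2 2 3`, types `C0 C0 C0 S0 S0 C0` -/
noncomputable def cT6_1690 : CertT :=
  ⟨[k4,k4,k20,k32,k32,k52],[],[[[]]],
    [.lp [k6,k8,k6,k6,k8,k6] [k1,k1,k0,k0,k1,k1,k1,k1,k0,k0,k1,k1] k0 [] k24 k5
    [[(k10,k6)],[(k5,k6),(k3,k7)],[(k0,k7),(k2,k8)],[(k5,k7),(k3,k8)],[(k0,k6),(k2,k7)],[(k7,k6)],[(k4,k6)],[(k6,k6),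
    (k11,k6),(k8,k7),(k9,k7)],[(k6,k7),(k11,k7),(k8,k8),(k9,k8)],[(k6,k7),(k11,k7),(k8,k8),(k9,k8)],[(k6,k6),(k11,k6),
    (k8,k7),(k9,k7)],[(k1,k6)]]
    [] k0
    []
    []]⟩

/-- classes `0 0 1 2 2 3`, types `C0 C0 C0 S0 S0 S0` -/
noncomputable def cT6_1691 : CertT :=
  ⟨[k4,k4,k20,k32,k32,k48],[],[[[]]],
    [.lp [k6,k8,k6,k6,k8,k8] [k1,k1,k0,k0,k1,k1,k1,k1,k0,k0,k0,k0] k0 [] k24 k5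
    [[(k1,k6),(k10,k7)],[(k5,k6),(k3,k7)],[(k0,k7),(k2,k8)],[(k5,k7),(k3,k8)],[(k0,k6),(k2,k7)],[(k7,k6)],[(k4,k6)],
    [(k6,k6),(k8,k7),(k9,k7),(k11,k7)],[(k6,k7),(k8,k8),(k9,k8),(k11,k8)],[(k6,k7),(k8,k8),(k9,k8),(k11,k8)],[(k6,k7),
    (k8,k8),(k9,k8),(k11,k8)],[(k1,k7),(k10,k8)]]
    [] k0
    []
    []]⟩

/-- classes `0 0 1 2 2 3`, types `C0 C0 S0 C0 C0 S0` -/
noncomputable def cT6_1692 : CertT :=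
  ⟨[k4,k4,k16,k36,k36,k48],[],[[[]]],
    [.lp [k6,k8,k6,k6,k8,k6] [k1,k1,k0,k0,k1,k1,k1,k1,k0,k0,k1,k1] k0 [] k24 k5
    [[(k1,k6),(k10,k6)],[(k5,k6),(k3,k7)],[(k0,k7),(k2,k8)],[(k5,k7),(k3,k8)],[(k0,k6),(k2,k7)],[(k4,k6),(k7,k6)],
    [(k4,k6),(k7,k6)],[(k11,k6),(k9,k7)],[(k6,k7),(k8,k8)],[(k11,k7),(k9,k8)],[(k6,k6),(k8,k7)],[(k1,k6),(k10,k6)]]
    [] k0
    []
    []]⟩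

/-- classes `0 0 1 2 2 3`, types `C0 C0 S0 C0 C2 S0` -/
noncomputable def cT6_1693 : CertT :=
  ⟨[k4,k4,k16,k36,k38,k48],[],[[[]]],
    [.lp [k6,k8,k6,k12,k0,k12] [k3,k3,k2,k2,k3,k3,k0,k0,k6,k6,k0,k0] k0 [] k24 k5
    [[(k1,k6),(k10,k9)],[(k5,k6),(k3,k7)],[(k0,k7),(k2,k8)],[(k5,k7),(k3,k8)],[(k0,k6),(k2,k7)],[(k4,k6),(k7,k9)],
    [(k4,k9),(k7,k12)],[(k8,k6),(k9,k6)],[(k6,k6),(k11,k6)],[(k6,k6),(k11,k6)],[(k8,k6),(k9,k6)],[(k1,k9),(k10,k12)]]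
    [] k0
    []
    []]⟩

/-- classes `0 0 1 2 2 3`, types `C0 C0 S0 N0 N1 S0` -/
noncomputable def cT6_1694 : CertT :=
  ⟨[k4,k4,k16,k44,k45,k48],[],[[[]]],
    [.lp [k6,k8,k6,k6,k8,k6] [k1,k1,k0,k0,k1,k1,k1,k1,k0,k0,k1,k1] k0 [] k24 k5
    [[(k1,k6),(k10,k6)],[(k5,k6),(k3,k7)],[(k0,k7),(k2,k8)],[(k5,k7),(k3,k8)],[(k0,k6),(k2,k7)],[(k4,k6),(k7,k6)],
    [(k4,k6),(k7,k6)],[(k11,k6)],[(k8,k8)],[(k9,k8)],[(k6,k6)],[(k1,k6),(k10,k6)]]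
    [] k0
    []
    []]⟩

/-- classes `0 0 1 2 2 3`, types `C0 C0 S0 N0 N2 S0` -/
noncomputable def cT6_1695 : CertT :=
  ⟨[k4,k4,k16,k44,k46,k48],[],[[[]]],
    [.lp [k6,k8,k6,k6,k6,k6] [k1,k1,k0,k0,k1,k1,k1,k1,k1,k1,k1,k1] k0 [] k24 k5
    [[(k1,k6),(k10,k6)],[(k5,k6),(k3,k7)],[(k0,k7),(k2,k8)],[(k5,k7),(k3,k8)],[(k0,k6),(k2,k7)],[(k4,k6),(k7,k6)],
    [(k4,k6),(k7,k6)],[(k8,k6)],[(k11,k6)],[(k6,k6)],[(k9,k6)],[(k1,k6),(k10,k6)]]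
    [] k0
    []
    []]⟩

/-- classes `0 0 1 2 2 3`, types `C0 C0 S0 S0 S0 S0` -/
noncomputable def cT6_1696 : CertT :=
  ⟨[k4,k4,k16,k32,k32,k48],[],[[[]]],
    [.lp [k6,k8,k6,k6,k12,k6] [k3,k3,k2,k2,k3,k3,k3,k3,k0,k0,k3,k3] k0 [] k24 k5
    [[(k1,k6),(k10,k6)],[(k5,k6),(k3,k7)],[(k0,k7),(k2,k8)],[(k5,k7),(k3,k8)],[(k0,k6),(k2,k7)],[(k4,k6),(k7,k6)],
    [(k4,k6),(k7,k6)],[(k6,k6),(k11,k6),(k8,k9),(k9,k9)],[(k6,k9),(k11,k9),(k8,k12),(k9,k12)],[(k6,k9),(k11,k9),(k8,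
    k12),(k9,k12)],[(k6,k6),(k11,k6),(k8,k9),(k9,k9)],[(k1,k6),(k10,k6)]]
    [] k0
    []
    []]⟩

/-- classes `0 0 1 2 2 3`, types `C0 C2 C0 C0 C2 C0` -/
noncomputable def cT6_1697 : CertT :=
  ⟨[k4,k6,k20,k36,k38,k52],[],[[[]]],
    [.lp [k0,k2,k0,k2,k0,k2] [k1,k1,k0,k0,k1,k1,k0,k0,k1,k1,k0,k0] k0 [] k4 k5
    [[(k10,k1)],[(k2,k1),(k3,k1)],[(k0,k1),(k5,k1)],[(k0,k1),(k5,k1)],[(k2,k1),(k3,k1)],[(k7,k1)],[(k4,k1)],[(k8,k1),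
    (k9,k1)],[(k6,k1),(k11,k1)],[(k6,k1),(k11,k1)],[(k8,k1),(k9,k1)],[(k1,k1)]]
    [] k0
    []
    []]⟩

/-- classes `0 0 1 2 2 3`, types `C0 C2 C0 C0 C2 S0` -/
noncomputable def cT6_1698 : CertT :=
  ⟨[k4,k6,k20,k36,k38,k48],[],[[[]]],
    [.lp [k2,k4,k0,k4,k0,k4] [k1,k1,k0,k0,k2,k2,k0,k0,k2,k2,k0,k0] k0 [] k8 k5
    [[(k1,k2),(k10,k3)],[(k2,k3),(k3,k3)],[(k5,k2),(k0,k3)],[(k5,k2),(k0,k3)],[(k2,k2),(k3,k2)],[(k7,k2)],[(k4,k2)],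
    [(k8,k2),(k9,k2)],[(k6,k2),(k11,k2)],[(k6,k2),(k11,k2)],[(k8,k2),(k9,k2)],[(k1,k3),(k10,k4)]]
    [] k0
    []
    []]⟩

/-- classes `0 0 1 2 2 3`, types `C0 C2 C0 N0 N1 C0` -/
noncomputable def cT6_1699 : CertT :=
  ⟨[k4,k6,k20,k44,k45,k52],[],[[[]]],
    [.lp [k6,k6,k6,k6,k8,k6] [k1,k1,k1,k1,k1,k1,k1,k1,k0,k0,k1,k1] k0 [] k24 k5
    [[(k10,k6)],[(k2,k6),(k3,k6)],[(k0,k6),(k5,k6)],[(k0,k6),(k5,k6)],[(k2,k6),(k3,k6)],[(k7,k6)],[(k4,k6)],[(k11,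
    k6)],[(k8,k8)],[(k9,k8)],[(k6,k6)],[(k1,k6)]]
    [] k0
    []
    []]⟩

/-- classes `0 0 1 2 2 3`, types `C0 C2 C0 N0 N1 S0` -/
noncomputable def cT6_1700 : CertT :=
  ⟨[k4,k6,k20,k44,k45,k48],[],[[[]]],
    [.lp [k18,k12,k12,k12,k16,k12] [k0,k0,k3,k3,k3,k3,k3,k3,k1,k1,k3,k3] k0 [] k48 k5
    [[(k10,k15),(k1,k18)],[(k2,k15),(k3,k15)],[(k5,k12),(k0,k15)],[(k5,k12),(k0,k15)],[(k2,k12),(k3,k12)],[(k7,k12)],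
    [(k4,k12)],[(k11,k12)],[(k8,k16)],[(k9,k16)],[(k6,k12)],[(k10,k12),(k1,k15)]]
    [] k0
    []
    []]⟩

/-- classes `0 0 1 2 2 3`, types `C0 C2 C0 N0 N2 C0` -/
noncomputable def cT6_1701 : CertT :=
  ⟨[k4,k6,k20,k44,k46,k52],[],[[[]]],
    [.lp [k0,k2,k0,k2,k0,k2] [k1,k1,k0,k0,k1,k1,k0,k0,k1,k1,k0,k0] k0 [] k4 k5
    [[(k10,k1)],[(k2,k1),(k3,k1)],[(k0,k1),(k5,k1)],[(k0,k1),(k5,k1)],[(k2,k1),(k3,k1)],[(k7,k1)],[(k4,k1)],[(k8,k1)],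
    [(k11,k1)],[(k6,k1)],[(k9,k1)],[(k1,k1)]]
    [] k0
    []
    []]⟩

/-- classes `0 0 1 2 2 3`, types `C0 C2 C0 N0 N2 S0` -/
noncomputable def cT6_1702 : CertT :=
  ⟨[k4,k6,k20,k44,k46,k48],[],[[[]]],
    [.lp [k6,k4,k4,k4,k4,k4] [k0,k0,k1,k1,k1,k1,k1,k1,k1,k1,k1,k1] k0 [] k16 k5
    [[(k10,k5),(k1,k6)],[(k2,k5),(k3,k5)],[(k5,k4),(k0,k5)],[(k5,k4),(k0,k5)],[(k2,k4),(k3,k4)],[(k7,k4)],[(k4,k4)],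
    [(k8,k4)],[(k11,k4)],[(k6,k4)],[(k9,k4)],[(k10,k4),(k1,k5)]]
    [] k0
    []
    []]⟩

/-- classes `0 0 1 2 2 3`, types `C0 C2 C0 S0 S0 C0` -/
noncomputable def cT6_1703 : CertT :=
  ⟨[k4,k6,k20,k32,k32,k52],[],[[[]]],
    [.lp [k6,k6,k6,k6,k8,k6] [k1,k1,k1,k1,k1,k1,k1,k1,k0,k0,k1,k1] k0 [] k24 k5
    [[(k10,k6)],[(k2,k6),(k3,k6)],[(k0,k6),(k5,k6)],[(k0,k6),(k5,k6)],[(k2,k6),(k3,k6)],[(k7,k6)],[(k4,k6)],[(k6,k6),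
    (k11,k6),(k8,k7),(k9,k7)],[(k6,k7),(k11,k7),(k8,k8),(k9,k8)],[(k6,k7),(k11,k7),(k8,k8),(k9,k8)],[(k6,k6),(k11,k6),
    (k8,k7),(k9,k7)],[(k1,k6)]]
    [] k0
    []
    []]⟩

/-- classes `0 0 1 2 2 3`, types `C0 C2 C0 S0 S0 S0` -/
noncomputable def cT6_1704 : CertT :=
  ⟨[k4,k6,k20,k32,k32,k48],[],[[[]]],
    [.lp [k18,k12,k12,k12,k16,k16] [k0,k0,k3,k3,k3,k3,k3,k3,k1,k1,k1,k1] k0 [] k48 k5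
    [[(k10,k17),(k1,k18)],[(k2,k15),(k3,k15)],[(k5,k12),(k0,k15)],[(k5,k12),(k0,k15)],[(k2,k12),(k3,k12)],[(k7,k12)],
    [(k4,k12)],[(k6,k12),(k8,k14),(k9,k14),(k11,k14)],[(k6,k14),(k8,k16),(k9,k16),(k11,k16)],[(k6,k14),(k8,k16),(k9,
    k16),(k11,k16)],[(k6,k14),(k8,k16),(k9,k16),(k11,k16)],[(k10,k16),(k1,k17)]]
    [] k0
    []
    []]⟩

/-- classes `0 0 1 2 2 3`, types `C0 C2 S0 C0 C2 S0` -/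
noncomputable def cT6_1705 : CertT :=
  ⟨[k4,k6,k16,k36,k38,k48],[(false,k0,[k0,k1,k2,k3,k4,k5]),(true,k5,[k5,k4,k3,k2,k1,k0])],[[[([z1,z0,y1,z0,z0,z0],z0),
    ([z0,z1,z2,z0,z0,z0],z2),([z0,z0,z0,z1,z0,y1],z0)],[([z1,z0,y1,y1,z0,z1],z0),([z0,z1,z2,z2,z0,y2],z2)],[([z1,z0,
    y1,y1,y1,y1],y2)],[]]],
    [.tor k5 false k0 [(z1,[y1,y1,y1,z1]),(z1,[y1,y1,z1,z1]),(z1,[z0,z1]),(z1,[z2,z1])],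
    .lp [k8,k0,k8,k4,k4,k6] [k0,k0,k4,k4,k0,k0,k2,k2,k2,k2,k1,k1] k0 [] k16 k5
    [[(k10,k7),(k1,k8)],[(k2,k4),(k3,k4)],[(k0,k4),(k5,k4)],[(k0,k4),(k5,k4)],[(k2,k4),(k3,k4)],[(k7,k6),(k4,k8)],
    [(k7,k4),(k4,k6)],[(k8,k4),(k9,k4)],[(k6,k4),(k11,k5)],[(k6,k4),(k11,k5)],[(k8,k5),(k9,k5)],[(k10,k6),(k1,k7)]]
    [] k0
    [[k0,k0,k0,k2,k1,k0]]
    [.ref k0 k0 [(z2,[z1,z3,z1,y1]),(z1,[y1,y1,z0,z1]),(z2,[z1,z1,z1,y1])]],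
    .lp [k8,k0,k8,k6,k4,k4] [k0,k0,k4,k4,k0,k0,k1,k1,k2,k2,k2,k2] k0 [] k16 k5
    [[(k10,k6),(k1,k8)],[(k2,k4),(k3,k4)],[(k0,k4),(k5,k4)],[(k0,k4),(k5,k4)],[(k2,k4),(k3,k4)],[(k7,k7),(k4,k8)],
    [(k7,k6),(k4,k7)],[(k8,k5),(k9,k5)],[(k11,k4),(k6,k5)],[(k11,k4),(k6,k5)],[(k8,k4),(k9,k4)],[(k10,k4),(k1,k6)]]
    [] k0
    [[k0,k0,k0,k0,k1,k2]]
    [.ref k1 k0 [(z1,[z1,z1]),(z1,[y2,y1,z1])]],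
    .lp [k8,k0,k8,k6,k4,k4] [k0,k0,k4,k4,k0,k0,k1,k1,k2,k2,k2,k2] k0 [] k16 k5
    [[(k10,k6),(k1,k8)],[(k2,k4),(k3,k4)],[(k0,k4),(k5,k4)],[(k0,k4),(k5,k4)],[(k2,k4),(k3,k4)],[(k7,k7),(k4,k8)],
    [(k7,k6),(k4,k7)],[(k8,k5),(k9,k5)],[(k11,k4),(k6,k5)],[(k11,k4),(k6,k5)],[(k8,k4),(k9,k4)],[(k10,k4),(k1,k6)]]
    [] k0
    [[k0,k0,k0,k0,k1,k2]]
    [.ref k2 k1 [(z1,[z1,y1])]]]⟩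

/-- classes `0 0 1 2 2 3`, types `C0 C2 S0 N0 N1 S0` -/
noncomputable def cT6_1706 : CertT :=
  ⟨[k4,k6,k16,k44,k45,k48],[],[[[]]],
    [.lp [k12,k0,k12,k6,k8,k6] [k0,k0,k6,k6,k0,k0,k3,k3,k2,k2,k3,k3] k0 [] k24 k5
    [[(k10,k9),(k1,k12)],[(k2,k6),(k3,k6)],[(k0,k6),(k5,k6)],[(k0,k6),(k5,k6)],[(k2,k6),(k3,k6)],[(k7,k9),(k4,k12)],
    [(k7,k6),(k4,k9)],[(k11,k6)],[(k8,k8)],[(k9,k8)],[(k6,k6)],[(k10,k6),(k1,k9)]]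
    [] k0
    []
    []]⟩

/-- classes `0 0 1 2 2 3`, types `C0 C2 S0 N0 N2 S0` -/
noncomputable def cT6_1707 : CertT :=
  ⟨[k4,k6,k16,k44,k46,k48],[],[[[]]],
    [.lp [k4,k0,k4,k2,k2,k2] [k0,k0,k2,k2,k0,k0,k1,k1,k1,k1,k1,k1] k0 [] k8 k5
    [[(k10,k3),(k1,k4)],[(k2,k2),(k3,k2)],[(k0,k2),(k5,k2)],[(k0,k2),(k5,k2)],[(k2,k2),(k3,k2)],[(k7,k3),(k4,k4)],
    [(k7,k2),(k4,k3)],[(k8,k2)],[(k11,k2)],[(k6,k2)],[(k9,k2)],[(k10,k2),(k1,k3)]]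
    [] k0
    []
    []]⟩

/-- classes `0 0 1 2 2 3`, types `C0 C2 S0 S0 S0 S0` -/
noncomputable def cT6_1708 : CertT :=
  ⟨[k4,k6,k16,k32,k32,k48],[(false,k0,[k0,k1,k2,k3,k4,k5])],[[[([z1,z0,y1,z0,z0,z0],z0),([z0,z1,z2,z0,z0,z0],z2),([z0,
    z0,z0,z1,z0,y1],z0)],[([z1,z1,z1,z0,z0,z0],z2),([z0,z0,z0,z1,z0,y1],z0)],[([z2,z2,z2,z0,z1,z2],z6)],[]]],
    [.tor k5 false k0 [(z1,[y1,y1,y1,z1]),(z1,[y1,y1,z1,z1]),(z1,[z0,z1]),(z1,[z2,z1])],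
    .lp [k4,k4,k6,k4,k8,k4] [k2,k2,k2,k2,k1,k1,k2,k2,k0,k0,k2,k2] k0 [] k16 k5
    [[(k1,k4),(k10,k4)],[(k2,k4),(k3,k4)],[(k0,k4),(k5,k5)],[(k0,k4),(k5,k5)],[(k2,k5),(k3,k5)],[(k7,k5),(k4,k6)],
    [(k7,k4),(k4,k5)],[(k6,k4),(k11,k4),(k8,k6),(k9,k6)],[(k6,k6),(k11,k6),(k8,k8),(k9,k8)],[(k6,k6),(k11,k6),(k8,k8),
    (k9,k8)],[(k6,k4),(k11,k4),(k8,k6),(k9,k6)],[(k1,k4),(k10,k4)]]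
    [] k0
    [[k2,k1,k0,k0,k0,k0]]
    [.ref k0 k0 [(z1,[z1,y1]),(z1,[y1,z2]),(z1,[z0,z0,z1])]],
    .lp [k6,k12,k6,k8,k8,k6] [k3,k3,k0,k0,k3,k3,k2,k2,k2,k2,k3,k3] k0 [] k24 k5
    [[(k1,k6),(k10,k6)],[(k2,k9),(k3,k9)],[(k0,k9),(k5,k9)],[(k0,k9),(k5,k9)],[(k2,k9),(k3,k9)],[(k4,k6),(k7,k7)],
    [(k4,k7),(k7,k8)],[(k11,k7),(k6,k8),(k8,k8),(k9,k8)],[(k11,k7),(k6,k8),(k8,k8),(k9,k8)],[(k11,k7),(k6,k8),(k8,k8),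
    (k9,k8)],[(k11,k6),(k6,k7),(k8,k7),(k9,k7)],[(k1,k6),(k10,k6)]]
    [] k0
    [[k0,k0,k0,k0,k1,k2]]
    [.ref k1 k0 [(z2,[y1,z1]),(z2,[y1,y1,z2])]],
    .lp [k6,k12,k6,k6,k8,k8] [k3,k3,k0,k0,k3,k3,k3,k3,k2,k2,k2,k2] k0 [] k24 k5
    [[(k1,k6),(k10,k7)],[(k2,k9),(k3,k9)],[(k0,k9),(k5,k9)],[(k0,k9),(k5,k9)],[(k2,k9),(k3,k9)],[(k4,k6),(k7,k6)],
    [(k4,k6),(k7,k6)],[(k6,k6),(k8,k7),(k9,k7),(k11,k7)],[(k6,k7),(k8,k8),(k9,k8),(k11,k8)],[(k6,k7),(k8,k8),(k9,k8),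
    (k11,k8)],[(k6,k7),(k8,k8),(k9,k8),(k11,k8)],[(k1,k7),(k10,k8)]]
    [] k0
    [[k0,k0,k0,k2,k1,k0]]
    [.ref k2 k0 [(z1,[y1,z2])]]]⟩

/-- classes `0 0 1 2 2 3`, types `N0 N1 C0 N0 N1 C0` -/
noncomputable def cT6_1709 : CertT :=
  ⟨[k12,k13,k20,k44,k45,k52],[],[[[]]],
    [.lp [k0,k4,k6,k0,k4,k6] [k3,k3,k1,k1,k0,k0,k3,k3,k1,k1,k0,k0] k0 [] k12 k5
    [[(k10,k3)],[(k5,k3)],[(k2,k4)],[(k3,k4)],[(k0,k3)],[(k7,k3)],[(k4,k3)],[(k11,k3)],[(k8,k4)],[(k9,k4)],[(k6,k3)],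
    [(k1,k3)]]
    [] k0
    []
    []]⟩

/-- classes `0 0 1 2 2 3`, types `N0 N1 C0 N0 N1 S0` -/
noncomputable def cT6_1710 : CertT :=
  ⟨[k12,k13,k20,k44,k45,k48],[],[[[]]],
    [.lp [k6,k8,k6,k6,k8,k6] [k1,k1,k0,k0,k1,k1,k1,k1,k0,k0,k1,k1] k0 [] k24 k5
    [[(k1,k6),(k10,k6)],[(k5,k6)],[(k2,k8)],[(k3,k8)],[(k0,k6)],[(k7,k6)],[(k4,k6)],[(k11,k6)],[(k8,k8)],[(k9,k8)],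
    [(k6,k6)],[(k1,k6),(k10,k6)]]
    [] k0
    []
    []]⟩

/-- classes `0 0 1 2 2 3`, types `N0 N1 C0 N0 N2 C0` -/
noncomputable def cT6_1711 : CertT :=
  ⟨[k12,k13,k20,k44,k46,k52],[],[[[]]],
    [.lp [k6,k8,k6,k6,k6,k6] [k1,k1,k0,k0,k1,k1,k1,k1,k1,k1,k1,k1] k0 [] k24 k5
    [[(k10,k6)],[(k5,k6)],[(k2,k8)],[(k3,k8)],[(k0,k6)],[(k7,k6)],[(k4,k6)],[(k8,k6)],[(k11,k6)],[(k6,k6)],[(k9,k6)],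
    [(k1,k6)]]
    [] k0
    []
    []]⟩

/-- classes `0 0 1 2 2 3`, types `N0 N1 C0 N0 N2 S0` -/
noncomputable def cT6_1712 : CertT :=
  ⟨[k12,k13,k20,k44,k46,k48],[],[[[]]],
    [.lp [k6,k8,k6,k6,k6,k6] [k1,k1,k0,k0,k1,k1,k1,k1,k1,k1,k1,k1] k0 [] k24 k5
    [[(k1,k6),(k10,k6)],[(k5,k6)],[(k2,k8)],[(k3,k8)],[(k0,k6)],[(k7,k6)],[(k4,k6)],[(k8,k6)],[(k11,k6)],[(k6,k6)],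
    [(k9,k6)],[(k1,k6),(k10,k6)]]
    [] k0
    []
    []]⟩

/-- classes `0 0 1 2 2 3`, types `N0 N1 C0 S0 S0 C0` -/
noncomputable def cT6_1713 : CertT :=
  ⟨[k12,k13,k20,k32,k32,k52],[],[[[]]],
    [.lp [k6,k8,k6,k6,k8,k6] [k1,k1,k0,k0,k1,k1,k1,k1,k0,k0,k1,k1] k0 [] k24 k5
    [[(k10,k6)],[(k5,k6)],[(k2,k8)],[(k3,k8)],[(k0,k6)],[(k7,k6)],[(k4,k6)],[(k6,k6),(k11,k6),(k8,k7),(k9,k7)],[(k6,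
    k7),(k11,k7),(k8,k8),(k9,k8)],[(k6,k7),(k11,k7),(k8,k8),(k9,k8)],[(k6,k6),(k11,k6),(k8,k7),(k9,k7)],[(k1,k6)]]
    [] k0
    []
    []]⟩

/-- classes `0 0 1 2 2 3`, types `N0 N1 C0 S0 S0 S0` -/
noncomputable def cT6_1714 : CertT :=
  ⟨[k12,k13,k20,k32,k32,k48],[],[[[]]],
    [.lp [k6,k8,k6,k6,k8,k8] [k1,k1,k0,k0,k1,k1,k1,k1,k0,k0,k0,k0] k0 [] k24 k5
    [[(k1,k6),(k10,k7)],[(k5,k6)],[(k2,k8)],[(k3,k8)],[(k0,k6)],[(k7,k6)],[(k4,k6)],[(k6,k6),(k8,k7),(k9,k7),(k11,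
    k7)],[(k6,k7),(k8,k8),(k9,k8),(k11,k8)],[(k6,k7),(k8,k8),(k9,k8),(k11,k8)],[(k6,k7),(k8,k8),(k9,k8),(k11,k8)],
    [(k1,k7),(k10,k8)]]
    [] k0
    []
    []]⟩

/-- classes `0 0 1 2 2 3`, types `N0 N1 S0 N0 N1 S0` -/
noncomputable def cT6_1715 : CertT :=
  ⟨[k12,k13,k16,k44,k45,k48],[],[[[]]],
    [.lp [k6,k8,k6,k6,k8,k6] [k1,k1,k0,k0,k1,k1,k1,k1,k0,k0,k1,k1] k0 [] k24 k5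
    [[(k1,k6),(k10,k6)],[(k5,k6)],[(k2,k8)],[(k3,k8)],[(k0,k6)],[(k4,k6),(k7,k6)],[(k4,k6),(k7,k6)],[(k11,k6)],[(k8,
    k8)],[(k9,k8)],[(k6,k6)],[(k1,k6),(k10,k6)]]
    [] k0
    []
    []]⟩

/-- classes `0 0 1 2 2 3`, types `N0 N1 S0 N0 N2 S0` -/
noncomputable def cT6_1716 : CertT :=
  ⟨[k12,k13,k16,k44,k46,k48],[],[[[]]],
    [.lp [k6,k8,k6,k6,k6,k6] [k1,k1,k0,k0,k1,k1,k1,k1,k1,k1,k1,k1] k0 [] k24 k5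
    [[(k1,k6),(k10,k6)],[(k5,k6)],[(k2,k8)],[(k3,k8)],[(k0,k6)],[(k4,k6),(k7,k6)],[(k4,k6),(k7,k6)],[(k8,k6)],[(k11,
    k6)],[(k6,k6)],[(k9,k6)],[(k1,k6),(k10,k6)]]
    [] k0
    []
    []]⟩

/-- classes `0 0 1 2 2 3`, types `N0 N1 S0 S0 S0 S0` -/
noncomputable def cT6_1717 : CertT :=
  ⟨[k12,k13,k16,k32,k32,k48],[],[[[]]],
    [.lp [k6,k8,k6,k6,k12,k6] [k3,k3,k2,k2,k3,k3,k3,k3,k0,k0,k3,k3] k0 [] k24 k5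
    [[(k1,k6),(k10,k6)],[(k5,k6)],[(k2,k8)],[(k3,k8)],[(k0,k6)],[(k4,k6),(k7,k6)],[(k4,k6),(k7,k6)],[(k6,k6),(k11,k6),
    (k8,k9),(k9,k9)],[(k6,k9),(k11,k9),(k8,k12),(k9,k12)],[(k6,k9),(k11,k9),(k8,k12),(k9,k12)],[(k6,k6),(k11,k6),(k8,
    k9),(k9,k9)],[(k1,k6),(k10,k6)]]
    [] k0
    []
    []]⟩

/-- classes `0 0 1 2 2 3`, types `N0 N2 C0 N0 N2 C0` -/
noncomputable def cT6_1718 : CertT :=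
  ⟨[k12,k14,k20,k44,k46,k52],[],[[[]]],
    [.lp [k0,k2,k0,k2,k0,k2] [k1,k1,k0,k0,k1,k1,k0,k0,k1,k1,k0,k0] k0 [] k4 k5
    [[(k10,k1)],[(k2,k1)],[(k5,k1)],[(k0,k1)],[(k3,k1)],[(k7,k1)],[(k4,k1)],[(k8,k1)],[(k11,k1)],[(k6,k1)],[(k9,k1)],
    [(k1,k1)]]
    [] k0
    []
    []]⟩

/-- classes `0 0 1 2 2 3`, types `N0 N2 C0 N0 N2 S0` -/
noncomputable def cT6_1719 : CertT :=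
  ⟨[k12,k14,k20,k44,k46,k48],[],[[[]]],
    [.lp [k2,k2,k2,k2,k2,k2] [k0,k0,k0,k0,k0,k0,k0,k0,k0,k0,k0,k0] k0 [] k8 k5
    [[(k1,k2),(k10,k2)],[(k2,k2)],[(k5,k2)],[(k0,k2)],[(k3,k2)],[(k7,k2)],[(k4,k2)],[(k8,k2)],[(k11,k2)],[(k6,k2)],
    [(k9,k2)],[(k1,k2),(k10,k2)]]
    [] k0
    []
    []]⟩

/-- classes `0 0 1 2 2 3`, types `N0 N2 C0 S0 S0 C0` -/
noncomputable def cT6_1720 : CertT :=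
  ⟨[k12,k14,k20,k32,k32,k52],[],[[[]]],
    [.lp [k6,k6,k6,k6,k8,k6] [k1,k1,k1,k1,k1,k1,k1,k1,k0,k0,k1,k1] k0 [] k24 k5
    [[(k10,k6)],[(k2,k6)],[(k5,k6)],[(k0,k6)],[(k3,k6)],[(k7,k6)],[(k4,k6)],[(k6,k6),(k11,k6),(k8,k7),(k9,k7)],[(k6,
    k7),(k11,k7),(k8,k8),(k9,k8)],[(k6,k7),(k11,k7),(k8,k8),(k9,k8)],[(k6,k6),(k11,k6),(k8,k7),(k9,k7)],[(k1,k6)]]
    [] k0
    []
    []]⟩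

/-- classes `0 0 1 2 2 3`, types `N0 N2 C0 S0 S0 S0` -/
noncomputable def cT6_1721 : CertT :=
  ⟨[k12,k14,k20,k32,k32,k48],[],[[[]]],
    [.lp [k6,k6,k6,k6,k8,k8] [k1,k1,k1,k1,k1,k1,k1,k1,k0,k0,k0,k0] k0 [] k24 k5
    [[(k1,k6),(k10,k7)],[(k2,k6)],[(k5,k6)],[(k0,k6)],[(k3,k6)],[(k7,k6)],[(k4,k6)],[(k6,k6),(k8,k7),(k9,k7),(k11,
    k7)],[(k6,k7),(k8,k8),(k9,k8),(k11,k8)],[(k6,k7),(k8,k8),(k9,k8),(k11,k8)],[(k6,k7),(k8,k8),(k9,k8),(k11,k8)],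
    [(k1,k7),(k10,k8)]]
    [] k0
    []
    []]⟩

/-- classes `0 0 1 2 2 3`, types `N0 N2 S0 N0 N2 S0` -/
noncomputable def cT6_1722 : CertT :=
  ⟨[k12,k14,k16,k44,k46,k48],[],[[[]]],
    [.lp [k2,k2,k2,k2,k2,k2] [k0,k0,k0,k0,k0,k0,k0,k0,k0,k0,k0,k0] k0 [] k8 k5
    [[(k1,k2),(k10,k2)],[(k2,k2)],[(k5,k2)],[(k0,k2)],[(k3,k2)],[(k4,k2),(k7,k2)],[(k4,k2),(k7,k2)],[(k8,k2)],[(k11,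
    k2)],[(k6,k2)],[(k9,k2)],[(k1,k2),(k10,k2)]]
    [] k0
    []
    []]⟩

/-- classes `0 0 1 2 2 3`, types `N0 N2 S0 S0 S0 S0` -/
noncomputable def cT6_1723 : CertT :=
  ⟨[k12,k14,k16,k32,k32,k48],[],[[[]]],
    [.lp [k2,k2,k2,k2,k4,k2] [k1,k1,k1,k1,k1,k1,k1,k1,k0,k0,k1,k1] k0 [] k8 k5
    [[(k1,k2),(k10,k2)],[(k2,k2)],[(k5,k2)],[(k0,k2)],[(k3,k2)],[(k4,k2),(k7,k2)],[(k4,k2),(k7,k2)],[(k6,k2),(k11,k2),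
    (k8,k3),(k9,k3)],[(k6,k3),(k11,k3),(k8,k4),(k9,k4)],[(k6,k3),(k11,k3),(k8,k4),(k9,k4)],[(k6,k2),(k11,k2),(k8,k3),
    (k9,k3)],[(k1,k2),(k10,k2)]]
    [] k0
    []
    []]⟩

/-- classes `0 0 1 2 2 3`, types `S0 S0 C0 S0 S0 C0` -/
noncomputable def cT6_1724 : CertT :=
  ⟨[k0,k0,k20,k32,k32,k52],[],[[[]]],
    [.lp [k6,k8,k6,k6,k8,k6] [k1,k1,k0,k0,k1,k1,k1,k1,k0,k0,k1,k1] k0 [] k24 k5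
    [[(k10,k6)],[(k0,k6),(k5,k6),(k2,k7),(k3,k7)],[(k0,k7),(k5,k7),(k2,k8),(k3,k8)],[(k0,k7),(k5,k7),(k2,k8),(k3,k8)],
    [(k0,k6),(k5,k6),(k2,k7),(k3,k7)],[(k7,k6)],[(k4,k6)],[(k6,k6),(k11,k6),(k8,k7),(k9,k7)],[(k6,k7),(k11,k7),(k8,
    k8),(k9,k8)],[(k6,k7),(k11,k7),(k8,k8),(k9,k8)],[(k6,k6),(k11,k6),(k8,k7),(k9,k7)],[(k1,k6)]]
    [] k0
    []
    []]⟩

/-- classes `0 0 1 2 2 3`, types `S0 S0 C0 S0 S0 S0` -/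
noncomputable def cT6_1725 : CertT :=
  ⟨[k0,k0,k20,k32,k32,k48],[],[[[]]],
    [.lp [k8,k8,k6,k6,k8,k8] [k0,k0,k0,k0,k1,k1,k1,k1,k0,k0,k0,k0] k0 [] k24 k5
    [[(k1,k8),(k10,k8)],[(k5,k7),(k0,k8),(k2,k8),(k3,k8)],[(k5,k7),(k0,k8),(k2,k8),(k3,k8)],[(k5,k7),(k0,k8),(k2,k8),
    (k3,k8)],[(k5,k6),(k0,k7),(k2,k7),(k3,k7)],[(k7,k6)],[(k4,k6)],[(k6,k6),(k8,k7),(k9,k7),(k11,k7)],[(k6,k7),(k8,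
    k8),(k9,k8),(k11,k8)],[(k6,k7),(k8,k8),(k9,k8),(k11,k8)],[(k6,k7),(k8,k8),(k9,k8),(k11,k8)],[(k1,k8),(k10,k8)]]
    [] k0
    []
    []]⟩

/-- classes `0 0 1 2 3 1`, types `B0 B1 B0 C0 C0 B1` -/
noncomputable def cT6_1726 : CertT :=
  ⟨[k8,k9,k24,k36,k52,k25],[(false,k0,[k0,k1,k2,k3,k4,k5])],[[[([z1,z1,z1,z0,z0,z0],z2)],[]]],
    [.leafM k4 [k0,k1,k2,k3,k4,k5] [(z1,[y1,z1])] [],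
    .lp [k6,k8,k10,k6,k6,k6] [k2,k2,k1,k1,k0,k0,k2,k2,k2,k2,k2,k2] k0 [] k24 k5
    [[(k7,k6),(k4,k8)],[(k2,k7),(k5,k8)],[(k2,k8),(k5,k9)],[(k0,k7),(k3,k8)],[(k0,k8),(k3,k9)],[(k1,k8),(k10,k8)],
    [(k1,k6),(k10,k6)],[(k9,k6)],[(k6,k6)],[(k11,k6)],[(k8,k6)],[(k7,k6),(k4,k8)]]
    [] k0
    [[k0,k0,k0,k1,k1,k1]]
    [.ref k0 k0 [(z1,[y1,z1])]]]⟩

/-- classes `0 0 1 2 3 1`, types `B0 B1 B0 C0 S0 B1` -/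
noncomputable def cT6_1727 : CertT :=
  ⟨[k8,k9,k24,k36,k48,k25],[(false,k0,[k0,k1,k2,k3,k4,k5])],[[[([z1,z1,z1,z0,z0,z0],z2)],[]]],
    [.leafM k4 [k0,k1,k2,k3,k4,k5] [(z1,[y1,z1])] [],
    .lp [k6,k8,k6,k6,k6,k12] [k3,k3,k2,k2,k3,k3,k3,k3,k3,k3,k0,k0] k0 [] k24 k5
    [[(k4,k6),(k7,k6)],[(k5,k6),(k2,k7)],[(k5,k7),(k2,k8)],[(k0,k7),(k3,k8)],[(k0,k6),(k3,k7)],[(k1,k6),(k10,k9)],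
    [(k1,k6),(k10,k9)],[(k9,k6)],[(k6,k6)],[(k8,k6),(k11,k9)],[(k8,k9),(k11,k12)],[(k4,k9),(k7,k9)]]
    [] k0
    [[k1,k1,k1,k0,k0,k0]]
    [.ref k0 k0 [(z1,[z1])]]]⟩

/-- classes `0 0 1 2 3 1`, types `B0 B1 B0 S0 S0 B1` -/
noncomputable def cT6_1728 : CertT :=
  ⟨[k8,k9,k24,k32,k48,k25],[(false,k0,[k0,k1,k2,k3,k4,k5])],[[[([z1,z1,z1,z0,z0,z0],z2)],[]]],
    [.leafM k4 [k0,k1,k2,k3,k4,k5] [(z1,[y1,z1])] [],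
    .lp [k10,k8,k6,k6,k6,k6] [k0,k0,k1,k1,k2,k2,k2,k2,k2,k2,k2,k2] k0 [] k24 k5
    [[(k4,k8),(k7,k8)],[(k5,k8),(k2,k9)],[(k5,k7),(k2,k8)],[(k3,k8),(k0,k9)],[(k3,k7),(k0,k8)],[(k10,k6),(k1,k8)],
    [(k10,k6),(k1,k8)],[(k6,k6),(k9,k6)],[(k6,k6),(k9,k6)],[(k8,k6),(k11,k6)],[(k8,k6),(k11,k6)],[(k4,k6),(k7,k6)]]
    [] k0
    [[k0,k0,k0,k1,k1,k1]]
    [.ref k0 k0 [(z1,[y1,z1])]]]⟩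

/-- classes `0 0 1 2 3 1`, types `B0 B1 C0 C0 C0 C0` -/
noncomputable def cT6_1729 : CertT :=
  ⟨[k8,k9,k20,k36,k52,k20],[(false,k0,[k0,k1,k2,k3,k4,k5])],[[[([z1,z1,z1,z0,z0,z0],z2)],[]]],
    [.leafM k4 [k0,k1,k2,k3,k4,k5] [(z1,[y1,z1])] [],
    .lp [k4,k4,k2,k6,k4,k2] [k1,k1,k1,k1,k2,k2,k0,k0,k1,k1,k2,k2] k0 [] k12 k5
    [[(k4,k3),(k10,k3)],[(k5,k3),(k2,k4)],[(k5,k3),(k2,k4)],[(k0,k4),(k3,k4)],[(k0,k3),(k3,k3)],[(k1,k3),(k7,k4)],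
    [(k4,k4),(k10,k4)],[(k9,k5)],[(k6,k5)],[(k11,k3)],[(k8,k3)],[(k1,k3),(k7,k4)]]
    [] k0
    [[k1,k1,k1,k0,k0,k0]]
    [.ref k0 k0 [(z1,[z1])]]]⟩

/-- classes `0 0 1 2 3 1`, types `B0 B1 C0 C0 C0 C2` -/
noncomputable def cT6_1730 : CertT :=
  ⟨[k8,k9,k20,k36,k52,k22],[],[[[]]],
    [.lp [k6,k8,k6,k6,k6,k6] [k1,k1,k0,k0,k1,k1,k1,k1,k1,k1,k1,k1] k0 [] k24 k5
    [[(k7,k6),(k10,k6)],[(k5,k6),(k2,k7)],[(k5,k7),(k2,k8)],[(k0,k7),(k3,k8)],[(k0,k6),(k3,k7)],[(k7,k6),(k10,k6)],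
    [(k1,k6),(k4,k6)],[(k9,k6)],[(k6,k6)],[(k11,k6)],[(k8,k6)],[(k1,k6),(k4,k6)]]
    [] k0
    []
    []]⟩

/-- classes `0 0 1 2 3 1`, types `B0 B1 C0 C0 S0 C0` -/
noncomputable def cT6_1731 : CertT :=
  ⟨[k8,k9,k20,k36,k48,k20],[(false,k0,[k0,k1,k2,k3,k4,k5])],[[[([z1,z1,z1,z0,z0,z0],z2)],[]]],
    [.leafM k4 [k0,k1,k2,k3,k4,k5] [(z1,[y1,z1])] [],
    .lp [k6,k8,k10,k6,k6,k6] [k2,k2,k1,k1,k0,k0,k2,k2,k2,k2,k2,k2] k0 [] k24 k5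
    [[(k10,k6),(k4,k8)],[(k2,k7),(k5,k8)],[(k2,k8),(k5,k9)],[(k0,k7),(k3,k8)],[(k0,k8),(k3,k9)],[(k1,k8),(k7,k8)],
    [(k10,k6),(k4,k8)],[(k9,k6)],[(k6,k6)],[(k8,k6),(k11,k6)],[(k8,k6),(k11,k6)],[(k1,k6),(k7,k6)]]
    [] k0
    [[k0,k0,k0,k1,k1,k1]]
    [.ref k0 k0 [(z1,[y1,z1])]]]⟩

/-- classes `0 0 1 2 3 1`, types `B0 B1 C0 C0 S0 C2` -/
noncomputable def cT6_1732 : CertT :=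
  ⟨[k8,k9,k20,k36,k48,k22],[],[[[]]],
    [.lp [k6,k8,k6,k6,k6,k6] [k1,k1,k0,k0,k1,k1,k1,k1,k1,k1,k1,k1] k0 [] k24 k5
    [[(k7,k6),(k10,k6)],[(k5,k6),(k2,k7)],[(k5,k7),(k2,k8)],[(k0,k7),(k3,k8)],[(k0,k6),(k3,k7)],[(k7,k6),(k10,k6)],
    [(k1,k6),(k4,k6)],[(k9,k6)],[(k6,k6)],[(k8,k6),(k11,k6)],[(k8,k6),(k11,k6)],[(k1,k6),(k4,k6)]]
    [] k0
    []
    []]⟩

/-- classes `0 0 1 2 3 1`, types `B0 B1 C0 S0 S0 C0` -/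
noncomputable def cT6_1733 : CertT :=
  ⟨[k8,k9,k20,k32,k48,k20],[(false,k0,[k0,k1,k2,k3,k4,k5])],[[[([z1,z1,z1,z0,z0,z0],z2)],[]]],
    [.leafM k4 [k0,k1,k2,k3,k4,k5] [(z1,[y1,z1])] [],
    .lp [k4,k8,k8,k6,k6,k12] [k4,k4,k2,k2,k2,k2,k3,k3,k3,k3,k0,k0] k0 [] k24 k5
    [[(k4,k6),(k10,k8)],[(k2,k6),(k5,k6)],[(k2,k8),(k5,k8)],[(k0,k6),(k3,k8)],[(k0,k6),(k3,k8)],[(k1,k6),(k7,k7)],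
    [(k4,k7),(k10,k9)],[(k6,k6),(k9,k6)],[(k6,k6),(k9,k6)],[(k8,k6),(k11,k9)],[(k8,k9),(k11,k12)],[(k1,k8),(k7,k9)]]
    [] k0
    [[k1,k1,k1,k0,k0,k0]]
    [.ref k0 k0 [(z1,[z1])]]]⟩

/-- classes `0 0 1 2 3 1`, types `B0 B1 C0 S0 S0 C2` -/
noncomputable def cT6_1734 : CertT :=
  ⟨[k8,k9,k20,k32,k48,k22],[],[[[]]],
    [.lp [k6,k8,k6,k6,k6,k6] [k1,k1,k0,k0,k1,k1,k1,k1,k1,k1,k1,k1] k0 [] k24 k5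
    [[(k7,k6),(k10,k6)],[(k5,k6),(k2,k7)],[(k5,k7),(k2,k8)],[(k0,k7),(k3,k8)],[(k0,k6),(k3,k7)],[(k7,k6),(k10,k6)],
    [(k1,k6),(k4,k6)],[(k6,k6),(k9,k6)],[(k6,k6),(k9,k6)],[(k8,k6),(k11,k6)],[(k8,k6),(k11,k6)],[(k1,k6),(k4,k6)]]
    [] k0
    []
    []]⟩

/-- classes `0 0 1 2 3 1`, types `B0 B1 N0 C0 C0 N1` -/
noncomputable def cT6_1735 : CertT :=
  ⟨[k8,k9,k28,k36,k52,k29],[(false,k0,[k0,k1,k2,k3,k4,k5])],[[[([z1,z1,z1,z0,z0,z0],z2)],[]]],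
    [.leafM k4 [k0,k1,k2,k3,k4,k5] [(z1,[y1,z1])] [],
    .lp [k4,k4,k2,k6,k6,k0] [k1,k1,k1,k1,k2,k2,k0,k0,k0,k0,k3,k3] k0 [] k12 k5
    [[(k4,k3)],[(k5,k3),(k2,k4)],[(k5,k3),(k2,k4)],[(k0,k4),(k3,k4)],[(k0,k3),(k3,k3)],[(k1,k3)],[(k10,k3)],[(k9,k6)],
    [(k6,k6)],[(k11,k3)],[(k8,k3)],[(k7,k3)]]
    [] k0
    [[k1,k1,k1,k0,k0,k0]]
    [.ref k0 k0 [(z1,[z1])]]]⟩

/-- classes `0 0 1 2 3 1`, types `B0 B1 N0 C0 C0 N2` -/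
noncomputable def cT6_1736 : CertT :=
  ⟨[k8,k9,k28,k36,k52,k30],[],[[[]]],
    [.lp [k6,k8,k6,k6,k6,k6] [k1,k1,k0,k0,k1,k1,k1,k1,k1,k1,k1,k1] k0 [] k24 k5
    [[(k7,k6)],[(k5,k6),(k2,k7)],[(k5,k7),(k2,k8)],[(k0,k7),(k3,k8)],[(k0,k6),(k3,k7)],[(k10,k6)],[(k1,k6)],[(k9,k6)],
    [(k6,k6)],[(k11,k6)],[(k8,k6)],[(k4,k6)]]
    [] k0
    []
    []]⟩

/-- classes `0 0 1 2 3 1`, types `B0 B1 N0 C0 S0 N1` -/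
noncomputable def cT6_1737 : CertT :=
  ⟨[k8,k9,k28,k36,k48,k29],[(false,k0,[k0,k1,k2,k3,k4,k5])],[[[([z1,z1,z1,z0,z0,z0],z2)],[]]],
    [.leafM k4 [k0,k1,k2,k3,k4,k5] [(z1,[y1,z1])] [],
    .lp [k4,k8,k12,k6,k6,k6] [k4,k4,k2,k2,k0,k0,k3,k3,k3,k3,k3,k3] k0 [] k24 k5
    [[(k4,k8)],[(k2,k6),(k5,k8)],[(k2,k8),(k5,k10)],[(k0,k6),(k3,k8)],[(k0,k8),(k3,k10)],[(k1,k8)],[(k10,k6)],[(k9,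
    k6)],[(k6,k6)],[(k8,k6),(k11,k6)],[(k8,k6),(k11,k6)],[(k7,k6)]]
    [] k0
    [[k0,k0,k0,k1,k1,k1]]
    [.ref k0 k0 [(z1,[y1,z1])]]]⟩

/-- classes `0 0 1 2 3 1`, types `B0 B1 N0 C0 S0 N2` -/
noncomputable def cT6_1738 : CertT :=
  ⟨[k8,k9,k28,k36,k48,k30],[],[[[]]],
    [.lp [k6,k8,k6,k6,k6,k6] [k1,k1,k0,k0,k1,k1,k1,k1,k1,k1,k1,k1] k0 [] k24 k5
    [[(k7,k6)],[(k5,k6),(k2,k7)],[(k5,k7),(k2,k8)],[(k0,k7),(k3,k8)],[(k0,k6),(k3,k7)],[(k10,k6)],[(k1,k6)],[(k9,k6)],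
    [(k6,k6)],[(k8,k6),(k11,k6)],[(k8,k6),(k11,k6)],[(k4,k6)]]
    [] k0
    []
    []]⟩

/-- classes `0 0 1 2 3 1`, types `B0 B1 N0 S0 S0 N1` -/
noncomputable def cT6_1739 : CertT :=
  ⟨[k8,k9,k28,k32,k48,k29],[(false,k0,[k0,k1,k2,k3,k4,k5])],[[[([z1,z1,z1,z0,z0,z0],z2)],[]]],
    [.leafM k4 [k0,k1,k2,k3,k4,k5] [(z1,[y1,z1])] [],
    .lp [k4,k8,k8,k6,k6,k12] [k4,k4,k2,k2,k2,k2,k3,k3,k3,k3,k0,k0] k0 [] k24 k5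
    [[(k4,k6)],[(k2,k6),(k5,k6)],[(k2,k8),(k5,k8)],[(k0,k6),(k3,k8)],[(k0,k6),(k3,k8)],[(k1,k6)],[(k10,k9)],[(k6,k6),
    (k9,k6)],[(k6,k6),(k9,k6)],[(k8,k6),(k11,k9)],[(k8,k9),(k11,k12)],[(k7,k9)]]
    [] k0
    [[k1,k1,k1,k0,k0,k0]]
    [.ref k0 k0 [(z1,[z1])]]]⟩

/-- classes `0 0 1 2 3 1`, types `B0 B1 N0 S0 S0 N2` -/
noncomputable def cT6_1740 : CertT :=
  ⟨[k8,k9,k28,k32,k48,k30],[],[[[]]],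
    [.lp [k6,k8,k6,k6,k6,k6] [k1,k1,k0,k0,k1,k1,k1,k1,k1,k1,k1,k1] k0 [] k24 k5
    [[(k7,k6)],[(k5,k6),(k2,k7)],[(k5,k7),(k2,k8)],[(k0,k7),(k3,k8)],[(k0,k6),(k3,k7)],[(k10,k6)],[(k1,k6)],[(k6,k6),
    (k9,k6)],[(k6,k6),(k9,k6)],[(k8,k6),(k11,k6)],[(k8,k6),(k11,k6)],[(k4,k6)]]
    [] k0
    []
    []]⟩

/-- classes `0 0 1 2 3 1`, types `B0 B1 S0 C0 C0 S0` -/
noncomputable def cT6_1741 : CertT :=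
  ⟨[k8,k9,k16,k36,k52,k16],[(false,k0,[k0,k1,k2,k3,k4,k5])],[[[([z1,z1,z1,z0,z0,z0],z2)],[]]],
    [.leafM k4 [k0,k1,k2,k3,k4,k5] [(z1,[y1,z1])] [],
    .lp [k10,k8,k6,k6,k6,k6] [k0,k0,k1,k1,k2,k2,k2,k2,k2,k2,k2,k2] k0 [] k24 k5
    [[(k4,k8),(k7,k8),(k10,k8),(k1,k10)],[(k5,k8),(k2,k9)],[(k5,k7),(k2,k8)],[(k3,k8),(k0,k9)],[(k3,k7),(k0,k8)],[(k4,
    k6),(k7,k6),(k10,k6),(k1,k8)],[(k4,k6),(k7,k6),(k10,k6),(k1,k8)],[(k9,k6)],[(k6,k6)],[(k11,k6)],[(k8,k6)],[(k4,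
    k6),(k7,k6),(k10,k6),(k1,k8)]]
    [] k0
    [[k0,k0,k0,k1,k1,k1]]
    [.ref k0 k0 [(z1,[y1,z1])]]]⟩

/-- classes `0 0 1 2 3 1`, types `B0 B1 S0 C0 S0 S0` -/
noncomputable def cT6_1742 : CertT :=
  ⟨[k8,k9,k16,k36,k48,k16],[(false,k0,[k0,k1,k2,k3,k4,k5])],[[[([z1,z1,z1,z0,z0,z0],z2)],[]]],
    [.leafM k4 [k0,k1,k2,k3,k4,k5] [(z1,[y1,z1])] [],
    .lp [k10,k8,k6,k6,k6,k6] [k0,k0,k1,k1,k2,k2,k2,k2,k2,k2,k2,k2] k0 [] k24 k5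
    [[(k4,k8),(k7,k8),(k10,k8),(k1,k10)],[(k5,k8),(k2,k9)],[(k5,k7),(k2,k8)],[(k3,k8),(k0,k9)],[(k3,k7),(k0,k8)],[(k4,
    k6),(k7,k6),(k10,k6),(k1,k8)],[(k4,k6),(k7,k6),(k10,k6),(k1,k8)],[(k9,k6)],[(k6,k6)],[(k8,k6),(k11,k6)],[(k8,k6),
    (k11,k6)],[(k4,k6),(k7,k6),(k10,k6),(k1,k8)]]
    [] k0
    [[k0,k0,k0,k1,k1,k1]]
    [.ref k0 k0 [(z1,[y1,z1])]]]⟩

/-- classes `0 0 1 2 3 1`, types `B0 B1 S0 S0 S0 S0` -/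
noncomputable def cT6_1743 : CertT :=
  ⟨[k8,k9,k16,k32,k48,k16],[(false,k0,[k0,k1,k2,k3,k4,k5])],[[[([z1,z1,z1,z0,z0,z0],z2)],[]]],
    [.leafM k4 [k0,k1,k2,k3,k4,k5] [(z1,[y1,z1])] [],
    .lp [k10,k8,k6,k6,k6,k6] [k0,k0,k1,k1,k2,k2,k2,k2,k2,k2,k2,k2] k0 [] k24 k5
    [[(k4,k8),(k7,k8),(k10,k8),(k1,k10)],[(k5,k8),(k2,k9)],[(k5,k7),(k2,k8)],[(k3,k8),(k0,k9)],[(k3,k7),(k0,k8)],[(k4,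
    k6),(k7,k6),(k10,k6),(k1,k8)],[(k4,k6),(k7,k6),(k10,k6),(k1,k8)],[(k6,k6),(k9,k6)],[(k6,k6),(k9,k6)],[(k8,k6),
    (k11,k6)],[(k8,k6),(k11,k6)],[(k4,k6),(k7,k6),(k10,k6),(k1,k8)]]
    [] k0
    [[k0,k0,k0,k1,k1,k1]]
    [.ref k0 k0 [(z1,[y1,z1])]]]⟩

/-- classes `0 0 1 2 3 1`, types `C0 C0 B0 C0 C0 B1` -/
noncomputable def cT6_1744 : CertT :=
  ⟨[k4,k4,k24,k36,k52,k25],[(false,k0,[k0,k1,k2,k3,k4,k5])],[[[([z1,z1,z1,z0,z0,z0],z2)],[]]],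
    [.leafM k0 [k2,k3,k4,k5,k0,k1] [(z1,[y1,z1])] [],
    .lp [k4,k4,k2,k6,k2,k4] [k1,k1,k1,k1,k2,k2,k0,k0,k2,k2,k1,k1] k0 [] k12 k5
    [[(k4,k3),(k7,k5)],[(k5,k3),(k3,k4)],[(k0,k4),(k2,k4)],[(k5,k3),(k3,k4)],[(k0,k3),(k2,k3)],[(k1,k3),(k10,k3)],
    [(k1,k5),(k10,k5)],[(k9,k4)],[(k6,k4)],[(k11,k3)],[(k8,k3)],[(k4,k3),(k7,k5)]]
    [] k0
    [[k1,k1,k1,k0,k0,k0]]
    [.ref k0 k0 [(z1,[z1])]]]⟩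

/-- classes `0 0 1 2 3 1`, types `C0 C0 B0 C0 S0 B1` -/
noncomputable def cT6_1745 : CertT :=
  ⟨[k4,k4,k24,k36,k48,k25],[(false,k0,[k0,k1,k2,k3,k4,k5])],[[[([z1,z1,z1,z0,z0,z0],z2)],[]]],
    [.leafM k0 [k2,k3,k4,k5,k0,k1] [(z1,[y1,z1])] [],
    .lp [k6,k8,k10,k6,k6,k6] [k2,k2,k1,k1,k0,k0,k2,k2,k2,k2,k2,k2] k0 [] k24 k5
    [[(k7,k6),(k4,k8)],[(k3,k7),(k5,k8)],[(k0,k7),(k2,k8)],[(k3,k8),(k5,k9)],[(k0,k8),(k2,k9)],[(k1,k8),(k10,k8)],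
    [(k1,k6),(k10,k6)],[(k9,k6)],[(k6,k6)],[(k8,k6),(k11,k6)],[(k8,k6),(k11,k6)],[(k7,k6),(k4,k8)]]
    [] k0
    [[k0,k0,k0,k1,k1,k1]]
    [.ref k0 k0 [(z1,[y1,z1])]]]⟩

/-- classes `0 0 1 2 3 1`, types `C0 C0 B0 S0 S0 B1` -/
noncomputable def cT6_1746 : CertT :=
  ⟨[k4,k4,k24,k32,k48,k25],[(false,k0,[k0,k1,k2,k3,k4,k5])],[[[([z1,z1,z1,z0,z0,z0],z2)],[]]],
    [.leafM k0 [k2,k3,k4,k5,k0,k1] [(z1,[y1,z1])] [],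
    .lp [k6,k8,k6,k6,k6,k12] [k3,k3,k2,k2,k3,k3,k3,k3,k3,k3,k0,k0] k0 [] k24 k5
    [[(k4,k6),(k7,k6)],[(k5,k6),(k3,k7)],[(k0,k7),(k2,k8)],[(k5,k7),(k3,k8)],[(k0,k6),(k2,k7)],[(k1,k6),(k10,k9)],
    [(k1,k6),(k10,k9)],[(k6,k6),(k9,k6)],[(k6,k6),(k9,k6)],[(k8,k6),(k11,k9)],[(k8,k9),(k11,k12)],[(k4,k9),(k7,k9)]]
    [] k0
    [[k1,k1,k1,k0,k0,k0]]
    [.ref k0 k0 [(z1,[z1])]]]⟩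

/-- classes `0 0 1 2 3 1`, types `C0 C0 C0 C0 C0 C0` -/
noncomputable def cT6_1747 : CertT :=
  ⟨[k4,k4,k20,k36,k52,k20],[(false,k0,[k0,k1,k2,k3,k4,k5])],[[[([z1,z1,z1,z0,z0,z0],z2)],[]]],
    [.leafM k0 [k2,k3,k4,k5,k0,k1] [(z1,[y1,z1])] [],
    .lp [k2,k4,k4,k2,k4,k6] [k2,k2,k1,k1,k1,k1,k2,k2,k1,k1,k0,k0] k0 [] k12 k5
    [[(k4,k3),(k10,k4)],[(k3,k3),(k5,k3)],[(k0,k3),(k2,k4)],[(k3,k4),(k5,k4)],[(k0,k3),(k2,k4)],[(k1,k3),(k7,k3)],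
    [(k4,k3),(k10,k4)],[(k9,k3)],[(k6,k3)],[(k11,k5)],[(k8,k5)],[(k1,k4),(k7,k4)]]
    [] k0
    [[k1,k1,k1,k0,k0,k0]]
    [.ref k0 k0 [(z1,[z1])]]]⟩

/-- classes `0 0 1 2 3 1`, types `C0 C0 C0 C0 C0 C2` -/
noncomputable def cT6_1748 : CertT :=
  ⟨[k4,k4,k20,k36,k52,k22],[],[[[]]],
    [.lp [k6,k8,k6,k6,k6,k6] [k1,k1,k0,k0,k1,k1,k1,k1,k1,k1,k1,k1] k0 [] k24 k5
    [[(k7,k6),(k10,k6)],[(k5,k6),(k3,k7)],[(k0,k7),(k2,k8)],[(k5,k7),(k3,k8)],[(k0,k6),(k2,k7)],[(k7,k6),(k10,k6)],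
    [(k1,k6),(k4,k6)],[(k9,k6)],[(k6,k6)],[(k11,k6)],[(k8,k6)],[(k1,k6),(k4,k6)]]
    [] k0
    []
    []]⟩

/-- classes `0 0 1 2 3 1`, types `C0 C0 C0 C0 S0 C0` -/
noncomputable def cT6_1749 : CertT :=
  ⟨[k4,k4,k20,k36,k48,k20],[(false,k0,[k0,k1,k2,k3,k4,k5])],[[[([z1,z1,z1,z0,z0,z0],z2)],[]]],
    [.leafM k0 [k2,k3,k4,k5,k0,k1] [(z1,[y1,z1])] [],
    .lp [k8,k8,k4,k12,k6,k6] [k2,k2,k2,k2,k4,k4,k0,k0,k3,k3,k3,k3] k0 [] k24 k5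
    [[(k4,k6),(k10,k7)],[(k5,k6),(k3,k8)],[(k0,k8),(k2,k8)],[(k5,k6),(k3,k8)],[(k0,k6),(k2,k6)],[(k1,k6),(k7,k8)],
    [(k4,k8),(k10,k9)],[(k9,k9)],[(k6,k9)],[(k8,k6),(k11,k6)],[(k8,k6),(k11,k6)],[(k1,k7),(k7,k9)]]
    [] k0
    [[k1,k1,k1,k0,k0,k0]]
    [.ref k0 k0 [(z1,[z1])]]]⟩

/-- classes `0 0 1 2 3 1`, types `C0 C0 C0 C0 S0 C2` -/
noncomputable def cT6_1750 : CertT :=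
  ⟨[k4,k4,k20,k36,k48,k22],[],[[[]]],
    [.lp [k6,k8,k6,k6,k6,k6] [k1,k1,k0,k0,k1,k1,k1,k1,k1,k1,k1,k1] k0 [] k24 k5
    [[(k7,k6),(k10,k6)],[(k5,k6),(k3,k7)],[(k0,k7),(k2,k8)],[(k5,k7),(k3,k8)],[(k0,k6),(k2,k7)],[(k7,k6),(k10,k6)],
    [(k1,k6),(k4,k6)],[(k9,k6)],[(k6,k6)],[(k8,k6),(k11,k6)],[(k8,k6),(k11,k6)],[(k1,k6),(k4,k6)]]
    [] k0
    []
    []]⟩

/-- classes `0 0 1 2 3 1`, types `C0 C0 C0 S0 S0 C0` -/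
noncomputable def cT6_1751 : CertT :=
  ⟨[k4,k4,k20,k32,k48,k20],[(false,k0,[k0,k1,k2,k3,k4,k5])],[[[([z1,z1,z1,z0,z0,z0],z2)],[]]],
    [.leafM k0 [k2,k3,k4,k5,k0,k1] [(z1,[y1,z1])] [],
    .lp [k6,k8,k10,k6,k6,k6] [k2,k2,k1,k1,k0,k0,k2,k2,k2,k2,k2,k2] k0 [] k24 k5
    [[(k10,k6),(k4,k8)],[(k3,k7),(k5,k8)],[(k0,k7),(k2,k8)],[(k3,k8),(k5,k9)],[(k0,k8),(k2,k9)],[(k1,k8),(k7,k8)],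
    [(k10,k6),(k4,k8)],[(k6,k6),(k9,k6)],[(k6,k6),(k9,k6)],[(k8,k6),(k11,k6)],[(k8,k6),(k11,k6)],[(k1,k6),(k7,k6)]]
    [] k0
    [[k0,k0,k0,k1,k1,k1]]
    [.ref k0 k0 [(z1,[y1,z1])]]]⟩

/-- classes `0 0 1 2 3 1`, types `C0 C0 C0 S0 S0 C2` -/
noncomputable def cT6_1752 : CertT :=
  ⟨[k4,k4,k20,k32,k48,k22],[],[[[]]],
    [.lp [k6,k8,k6,k6,k6,k6] [k1,k1,k0,k0,k1,k1,k1,k1,k1,k1,k1,k1] k0 [] k24 k5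
    [[(k7,k6),(k10,k6)],[(k5,k6),(k3,k7)],[(k0,k7),(k2,k8)],[(k5,k7),(k3,k8)],[(k0,k6),(k2,k7)],[(k7,k6),(k10,k6)],
    [(k1,k6),(k4,k6)],[(k6,k6),(k9,k6)],[(k6,k6),(k9,k6)],[(k8,k6),(k11,k6)],[(k8,k6),(k11,k6)],[(k1,k6),(k4,k6)]]
    [] k0
    []
    []]⟩

/-- classes `0 0 1 2 3 1`, types `C0 C0 N0 C0 C0 N1` -/
noncomputable def cT6_1753 : CertT :=
  ⟨[k4,k4,k28,k36,k52,k29],[(false,k0,[k0,k1,k2,k3,k4,k5])],[[[([z1,z1,z1,z0,z0,z0],z2)],[]]],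
    [.leafM k0 [k2,k3,k4,k5,k0,k1] [(z1,[y1,z1])] [],
    .lp [k4,k4,k2,k0,k6,k6] [k1,k1,k1,k1,k2,k2,k3,k3,k0,k0,k0,k0] k0 [] k12 k5
    [[(k4,k3)],[(k5,k3),(k3,k4)],[(k0,k4),(k2,k4)],[(k5,k3),(k3,k4)],[(k0,k3),(k2,k3)],[(k1,k3)],[(k10,k3)],[(k9,k3)],
    [(k6,k3)],[(k11,k6)],[(k8,k6)],[(k7,k3)]]
    [] k0
    [[k1,k1,k1,k0,k0,k0]]
    [.ref k0 k0 [(z1,[z1])]]]⟩

/-- classes `0 0 1 2 3 1`, types `C0 C0 N0 C0 C0 N2` -/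
noncomputable def cT6_1754 : CertT :=
  ⟨[k4,k4,k28,k36,k52,k30],[],[[[]]],
    [.lp [k6,k8,k6,k6,k6,k6] [k1,k1,k0,k0,k1,k1,k1,k1,k1,k1,k1,k1] k0 [] k24 k5
    [[(k7,k6)],[(k5,k6),(k3,k7)],[(k0,k7),(k2,k8)],[(k5,k7),(k3,k8)],[(k0,k6),(k2,k7)],[(k10,k6)],[(k1,k6)],[(k9,k6)],
    [(k6,k6)],[(k11,k6)],[(k8,k6)],[(k4,k6)]]
    [] k0
    []
    []]⟩

/-- classes `0 0 1 2 3 1`, types `C0 C0 N0 C0 S0 N1` -/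
noncomputable def cT6_1755 : CertT :=
  ⟨[k4,k4,k28,k36,k48,k29],[(false,k0,[k0,k1,k2,k3,k4,k5])],[[[([z1,z1,z1,z0,z0,z0],z2)],[]]],
    [.leafM k0 [k2,k3,k4,k5,k0,k1] [(z1,[y1,z1])] [],
    .lp [k8,k8,k4,k12,k6,k6] [k2,k2,k2,k2,k4,k4,k0,k0,k3,k3,k3,k3] k0 [] k24 k5
    [[(k4,k6)],[(k5,k6),(k3,k8)],[(k0,k8),(k2,k8)],[(k5,k6),(k3,k8)],[(k0,k6),(k2,k6)],[(k1,k6)],[(k10,k9)],[(k9,k9)],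
    [(k6,k9)],[(k8,k6),(k11,k6)],[(k8,k6),(k11,k6)],[(k7,k9)]]
    [] k0
    [[k1,k1,k1,k0,k0,k0]]
    [.ref k0 k0 [(z1,[z1])]]]⟩

/-- classes `0 0 1 2 3 1`, types `C0 C0 N0 C0 S0 N2` -/
noncomputable def cT6_1756 : CertT :=
  ⟨[k4,k4,k28,k36,k48,k30],[],[[[]]],
    [.lp [k6,k8,k6,k6,k6,k6] [k1,k1,k0,k0,k1,k1,k1,k1,k1,k1,k1,k1] k0 [] k24 k5
    [[(k7,k6)],[(k5,k6),(k3,k7)],[(k0,k7),(k2,k8)],[(k5,k7),(k3,k8)],[(k0,k6),(k2,k7)],[(k10,k6)],[(k1,k6)],[(k9,k6)],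
    [(k6,k6)],[(k8,k6),(k11,k6)],[(k8,k6),(k11,k6)],[(k4,k6)]]
    [] k0
    []
    []]⟩

/-- classes `0 0 1 2 3 1`, types `C0 C0 N0 S0 S0 N1` -/
noncomputable def cT6_1757 : CertT :=
  ⟨[k4,k4,k28,k32,k48,k29],[(false,k0,[k0,k1,k2,k3,k4,k5])],[[[([z1,z1,z1,z0,z0,z0],z2)],[]]],
    [.leafM k0 [k2,k3,k4,k5,k0,k1] [(z1,[y1,z1])] [],
    .lp [k4,k8,k12,k6,k6,k6] [k4,k4,k2,k2,k0,k0,k3,k3,k3,k3,k3,k3] k0 [] k24 k5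
    [[(k4,k8)],[(k3,k6),(k5,k8)],[(k0,k6),(k2,k8)],[(k3,k8),(k5,k10)],[(k0,k8),(k2,k10)],[(k1,k8)],[(k10,k6)],[(k6,
    k6),(k9,k6)],[(k6,k6),(k9,k6)],[(k8,k6),(k11,k6)],[(k8,k6),(k11,k6)],[(k7,k6)]]
    [] k0
    [[k0,k0,k0,k1,k1,k1]]
    [.ref k0 k0 [(z1,[y1,z1])]]]⟩

/-- classes `0 0 1 2 3 1`, types `C0 C0 N0 S0 S0 N2` -/
noncomputable def cT6_1758 : CertT :=
  ⟨[k4,k4,k28,k32,k48,k30],[],[[[]]],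
    [.lp [k6,k8,k6,k6,k6,k6] [k1,k1,k0,k0,k1,k1,k1,k1,k1,k1,k1,k1] k0 [] k24 k5
    [[(k7,k6)],[(k5,k6),(k3,k7)],[(k0,k7),(k2,k8)],[(k5,k7),(k3,k8)],[(k0,k6),(k2,k7)],[(k10,k6)],[(k1,k6)],[(k6,k6),
    (k9,k6)],[(k6,k6),(k9,k6)],[(k8,k6),(k11,k6)],[(k8,k6),(k11,k6)],[(k4,k6)]]
    [] k0
    []
    []]⟩

/-- classes `0 0 1 2 3 1`, types `C0 C0 S0 C0 C0 S0` -/
noncomputable def cT6_1759 : CertT :=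
  ⟨[k4,k4,k16,k36,k52,k16],[(false,k0,[k0,k1,k2,k3,k4,k5])],[[[([z1,z1,z1,z0,z0,z0],z2)],[]]],
    [.leafM k0 [k2,k3,k4,k5,k0,k1] [(z1,[y1,z1])] [],
    .lp [k6,k8,k6,k12,k0,k12] [k3,k3,k2,k2,k3,k3,k0,k0,k6,k6,k0,k0] k0 [] k24 k5
    [[(k1,k6),(k4,k6),(k7,k9),(k10,k9)],[(k5,k6),(k3,k7)],[(k0,k7),(k2,k8)],[(k5,k7),(k3,k8)],[(k0,k6),(k2,k7)],[(k1,
    k6),(k4,k6),(k7,k9),(k10,k9)],[(k1,k9),(k4,k9),(k7,k12),(k10,k12)],[(k9,k6)],[(k6,k6)],[(k11,k6)],[(k8,k6)],[(k1,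
    k9),(k4,k9),(k7,k12),(k10,k12)]]
    [] k0
    [[k1,k1,k1,k0,k0,k0]]
    [.ref k0 k0 [(z1,[z1])]]]⟩

/-- classes `0 0 1 2 3 1`, types `C0 C0 S0 C0 S0 S0` -/
noncomputable def cT6_1760 : CertT :=
  ⟨[k4,k4,k16,k36,k48,k16],[(false,k0,[k0,k1,k2,k3,k4,k5])],[[[([z1,z1,z1,z0,z0,z0],z2)],[]]],
    [.leafM k0 [k2,k3,k4,k5,k0,k1] [(z1,[y1,z1])] [],
    .lp [k10,k8,k6,k6,k6,k6] [k0,k0,k1,k1,k2,k2,k2,k2,k2,k2,k2,k2] k0 [] k24 k5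
    [[(k4,k8),(k7,k8),(k10,k8),(k1,k10)],[(k5,k8),(k3,k9)],[(k2,k8),(k0,k9)],[(k5,k7),(k3,k8)],[(k2,k7),(k0,k8)],[(k4,
    k6),(k7,k6),(k10,k6),(k1,k8)],[(k4,k6),(k7,k6),(k10,k6),(k1,k8)],[(k9,k6)],[(k6,k6)],[(k8,k6),(k11,k6)],[(k8,k6),
    (k11,k6)],[(k4,k6),(k7,k6),(k10,k6),(k1,k8)]]
    [] k0
    [[k0,k0,k0,k1,k1,k1]]
    [.ref k0 k0 [(z1,[y1,z1])]]]⟩

/-- classes `0 0 1 2 3 1`, types `C0 C0 S0 S0 S0 S0` -/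
noncomputable def cT6_1761 : CertT :=
  ⟨[k4,k4,k16,k32,k48,k16],[(false,k0,[k0,k1,k2,k3,k4,k5])],[[[([z1,z1,z1,z0,z0,z0],z2)],[]]],
    [.leafM k0 [k2,k3,k4,k5,k0,k1] [(z1,[y1,z1])] [],
    .lp [k10,k8,k6,k6,k6,k6] [k0,k0,k1,k1,k2,k2,k2,k2,k2,k2,k2,k2] k0 [] k24 k5
    [[(k4,k8),(k7,k8),(k10,k8),(k1,k10)],[(k5,k8),(k3,k9)],[(k2,k8),(k0,k9)],[(k5,k7),(k3,k8)],[(k2,k7),(k0,k8)],[(k4,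
    k6),(k7,k6),(k10,k6),(k1,k8)],[(k4,k6),(k7,k6),(k10,k6),(k1,k8)],[(k6,k6),(k9,k6)],[(k6,k6),(k9,k6)],[(k8,k6),
    (k11,k6)],[(k8,k6),(k11,k6)],[(k4,k6),(k7,k6),(k10,k6),(k1,k8)]]
    [] k0
    [[k0,k0,k0,k1,k1,k1]]
    [.ref k0 k0 [(z1,[y1,z1])]]]⟩

/-- classes `0 0 1 2 3 1`, types `C0 C2 B0 C0 C0 B1` -/
noncomputable def cT6_1762 : CertT :=
  ⟨[k4,k6,k24,k36,k52,k25],[(false,k0,[k0,k1,k2,k3,k4,k5])],[[[([z1,z1,z1,z0,z0,z0],z2)],[]]],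
    [.leafM k0 [k2,k3,k4,k5,k0,k1] [(z1,[y1,z1])] [],
    .lp [k4,k2,k2,k2,k2,k2] [k0,k0,k1,k1,k1,k1,k1,k1,k1,k1,k1,k1] k0 [] k8 k5
    [[(k4,k3),(k7,k3)],[(k2,k3),(k3,k3)],[(k5,k2),(k0,k3)],[(k5,k2),(k0,k3)],[(k2,k2),(k3,k2)],[(k10,k2),(k1,k3)],
    [(k10,k2),(k1,k3)],[(k9,k2)],[(k6,k2)],[(k11,k2)],[(k8,k2)],[(k4,k2),(k7,k2)]]
    [] k0
    [[k0,k0,k0,k1,k1,k1]]
    [.ref k0 k0 [(z1,[y1,z1])]]]⟩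

/-- classes `0 0 1 2 3 1`, types `C0 C2 B0 C0 S0 B1` -/
noncomputable def cT6_1763 : CertT :=
  ⟨[k4,k6,k24,k36,k48,k25],[(false,k0,[k0,k1,k2,k3,k4,k5])],[[[([z1,z1,z1,z0,z0,z0],z2)],[]]],
    [.leafM k0 [k2,k3,k4,k5,k0,k1] [(z1,[y1,z1])] [],
    .lp [k4,k0,k4,k2,k2,k2] [k0,k0,k2,k2,k0,k0,k1,k1,k1,k1,k1,k1] k0 [] k8 k5
    [[(k7,k3),(k4,k4)],[(k2,k2),(k3,k2)],[(k0,k2),(k5,k2)],[(k0,k2),(k5,k2)],[(k2,k2),(k3,k2)],[(k10,k3),(k1,k4)],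
    [(k10,k2),(k1,k3)],[(k9,k2)],[(k6,k2)],[(k8,k2),(k11,k2)],[(k8,k2),(k11,k2)],[(k7,k2),(k4,k3)]]
    [] k0
    [[k0,k0,k0,k1,k1,k1]]
    [.ref k0 k0 [(z1,[y1,z1])]]]⟩

/-- classes `0 0 1 2 3 1`, types `C0 C2 B0 S0 S0 B1` -/
noncomputable def cT6_1764 : CertT :=
  ⟨[k4,k6,k24,k32,k48,k25],[(false,k0,[k0,k1,k2,k3,k4,k5])],[[[([z1,z1,z1,z0,z0,z0],z2)],[]]],
    [.leafM k0 [k2,k3,k4,k5,k0,k1] [(z1,[y1,z1])] [],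
    .lp [k2,k2,k2,k2,k2,k4] [k1,k1,k1,k1,k1,k1,k1,k1,k1,k1,k0,k0] k0 [] k8 k5
    [[(k4,k2),(k7,k2)],[(k2,k2),(k3,k2)],[(k0,k2),(k5,k2)],[(k0,k2),(k5,k2)],[(k2,k2),(k3,k2)],[(k1,k2),(k10,k3)],
    [(k1,k2),(k10,k3)],[(k6,k2),(k9,k2)],[(k6,k2),(k9,k2)],[(k8,k2),(k11,k3)],[(k8,k3),(k11,k4)],[(k4,k3),(k7,k3)]]
    [] k0
    [[k1,k1,k1,k0,k0,k0]]
    [.ref k0 k0 [(z1,[z1])]]]⟩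

/-- classes `0 0 1 2 3 1`, types `C0 C2 C0 C0 C0 C0` -/
noncomputable def cT6_1765 : CertT :=
  ⟨[k4,k6,k20,k36,k52,k20],[(false,k0,[k0,k1,k2,k3,k4,k5])],[[[([z1,z1,z1,z0,z0,z0],z2)],[]]],
    [.leafM k0 [k2,k3,k4,k5,k0,k1] [(z1,[y1,z1])] [],
    .lp [k2,k2,k2,k2,k2,k4] [k1,k1,k1,k1,k1,k1,k1,k1,k1,k1,k0,k0] k0 [] k8 k5
    [[(k4,k2),(k10,k3)],[(k2,k2),(k3,k2)],[(k0,k2),(k5,k2)],[(k0,k2),(k5,k2)],[(k2,k2),(k3,k2)],[(k1,k2),(k7,k2)],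
    [(k4,k2),(k10,k3)],[(k9,k2)],[(k6,k2)],[(k11,k3)],[(k8,k3)],[(k1,k3),(k7,k3)]]
    [] k0
    [[k1,k1,k1,k0,k0,k0]]
    [.ref k0 k0 [(z1,[z1])]]]⟩

/-- classes `0 0 1 2 3 1`, types `C0 C2 C0 C0 C0 C2` -/
noncomputable def cT6_1766 : CertT :=
  ⟨[k4,k6,k20,k36,k52,k22],[],[[[]]],
    [.lp [k0,k2,k0,k2,k0,k2] [k1,k1,k0,k0,k1,k1,k0,k0,k1,k1,k0,k0] k0 [] k4 k5
    [[(k7,k1),(k10,k1)],[(k2,k1),(k3,k1)],[(k0,k1),(k5,k1)],[(k0,k1),(k5,k1)],[(k2,k1),(k3,k1)],[(k7,k1),(k10,k1)],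
    [(k1,k1),(k4,k1)],[(k9,k1)],[(k6,k1)],[(k11,k1)],[(k8,k1)],[(k1,k1),(k4,k1)]]
    [] k0
    []
    []]⟩

/-- classes `0 0 1 2 3 1`, types `C0 C2 C0 C0 S0 C0` -/
noncomputable def cT6_1767 : CertT :=
  ⟨[k4,k6,k20,k36,k48,k20],[(false,k0,[k0,k1,k2,k3,k4,k5])],[[[([z1,z1,z1,z0,z0,z0],z2)],[]]],
    [.leafM k0 [k2,k3,k4,k5,k0,k1] [(z1,[y1,z1])] [],
    .lp [k4,k2,k2,k2,k2,k2] [k0,k0,k1,k1,k1,k1,k1,k1,k1,k1,k1,k1] k0 [] k8 k5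
    [[(k4,k3),(k10,k3)],[(k2,k3),(k3,k3)],[(k5,k2),(k0,k3)],[(k5,k2),(k0,k3)],[(k2,k2),(k3,k2)],[(k7,k2),(k1,k3)],
    [(k4,k2),(k10,k2)],[(k9,k2)],[(k6,k2)],[(k8,k2),(k11,k2)],[(k8,k2),(k11,k2)],[(k7,k2),(k1,k3)]]
    [] k0
    [[k0,k0,k0,k1,k1,k1]]
    [.ref k0 k0 [(z1,[y1,z1])]]]⟩

/-- classes `0 0 1 2 3 1`, types `C0 C2 C0 C0 S0 C2` -/
noncomputable def cT6_1768 : CertT :=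
  ⟨[k4,k6,k20,k36,k48,k22],[],[[[]]],
    [.lp [k2,k2,k2,k2,k2,k2] [k0,k0,k0,k0,k0,k0,k0,k0,k0,k0,k0,k0] k0 [] k8 k5
    [[(k7,k2),(k10,k2)],[(k2,k2),(k3,k2)],[(k0,k2),(k5,k2)],[(k0,k2),(k5,k2)],[(k2,k2),(k3,k2)],[(k7,k2),(k10,k2)],
    [(k1,k2),(k4,k2)],[(k9,k2)],[(k6,k2)],[(k8,k2),(k11,k2)],[(k8,k2),(k11,k2)],[(k1,k2),(k4,k2)]]
    [] k0
    []
    []]⟩

/-- classes `0 0 1 2 3 1`, types `C0 C2 C0 S0 S0 C0` -/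
noncomputable def cT6_1769 : CertT :=
  ⟨[k4,k6,k20,k32,k48,k20],[(false,k0,[k0,k1,k2,k3,k4,k5])],[[[([z1,z1,z1,z0,z0,z0],z2)],[]]],
    [.leafM k0 [k2,k3,k4,k5,k0,k1] [(z1,[y1,z1])] [],
    .lp [k4,k0,k4,k2,k2,k2] [k0,k0,k2,k2,k0,k0,k1,k1,k1,k1,k1,k1] k0 [] k8 k5
    [[(k10,k3),(k4,k4)],[(k2,k2),(k3,k2)],[(k0,k2),(k5,k2)],[(k0,k2),(k5,k2)],[(k2,k2),(k3,k2)],[(k7,k3),(k1,k4)],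
    [(k10,k2),(k4,k3)],[(k6,k2),(k9,k2)],[(k6,k2),(k9,k2)],[(k8,k2),(k11,k2)],[(k8,k2),(k11,k2)],[(k7,k2),(k1,k3)]]
    [] k0
    [[k0,k0,k0,k1,k1,k1]]
    [.ref k0 k0 [(z1,[y1,z1])]]]⟩

/-- classes `0 0 1 2 3 1`, types `C0 C2 C0 S0 S0 C2` -/
noncomputable def cT6_1770 : CertT :=
  ⟨[k4,k6,k20,k32,k48,k22],[],[[[]]],
    [.lp [k2,k2,k2,k2,k2,k2] [k0,k0,k0,k0,k0,k0,k0,k0,k0,k0,k0,k0] k0 [] k8 k5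
    [[(k7,k2),(k10,k2)],[(k2,k2),(k3,k2)],[(k0,k2),(k5,k2)],[(k0,k2),(k5,k2)],[(k2,k2),(k3,k2)],[(k7,k2),(k10,k2)],
    [(k1,k2),(k4,k2)],[(k6,k2),(k9,k2)],[(k6,k2),(k9,k2)],[(k8,k2),(k11,k2)],[(k8,k2),(k11,k2)],[(k1,k2),(k4,k2)]]
    [] k0
    []
    []]⟩

/-- classes `0 0 1 2 3 1`, types `C0 C2 N0 C0 C0 N1` -/
noncomputable def cT6_1771 : CertT :=
  ⟨[k4,k6,k28,k36,k52,k29],[(false,k0,[k0,k1,k2,k3,k4,k5])],[[[([z1,z1,z1,z0,z0,z0],z2)],[]]],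
    [.leafM k0 [k2,k3,k4,k5,k0,k1] [(z1,[y1,z1])] [],
    .lp [k2,k2,k2,k0,k4,k4] [k1,k1,k1,k1,k1,k1,k2,k2,k0,k0,k0,k0] k0 [] k8 k5
    [[(k4,k2)],[(k2,k2),(k3,k2)],[(k0,k2),(k5,k2)],[(k0,k2),(k5,k2)],[(k2,k2),(k3,k2)],[(k1,k2)],[(k10,k2)],[(k9,k2)],
    [(k6,k2)],[(k11,k4)],[(k8,k4)],[(k7,k2)]]
    [] k0
    [[k1,k1,k1,k0,k0,k0]]
    [.ref k0 k0 [(z1,[z1])]]]⟩

/-- classes `0 0 1 2 3 1`, types `C0 C2 N0 C0 C0 N2` -/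
noncomputable def cT6_1772 : CertT :=
  ⟨[k4,k6,k28,k36,k52,k30],[],[[[]]],
    [.lp [k0,k2,k0,k2,k0,k2] [k1,k1,k0,k0,k1,k1,k0,k0,k1,k1,k0,k0] k0 [] k4 k5
    [[(k7,k1)],[(k2,k1),(k3,k1)],[(k0,k1),(k5,k1)],[(k0,k1),(k5,k1)],[(k2,k1),(k3,k1)],[(k10,k1)],[(k1,k1)],[(k9,k1)],
    [(k6,k1)],[(k11,k1)],[(k8,k1)],[(k4,k1)]]
    [] k0
    []
    []]⟩

/-- classes `0 0 1 2 3 1`, types `C0 C2 N0 C0 S0 N1` -/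
noncomputable def cT6_1773 : CertT :=
  ⟨[k4,k6,k28,k36,k48,k29],[(false,k0,[k0,k1,k2,k3,k4,k5])],[[[([z1,z1,z1,z0,z0,z0],z2)],[]]],
    [.leafM k0 [k2,k3,k4,k5,k0,k1] [(z1,[y1,z1])] [],
    .lp [k4,k4,k0,k2,k2,k2] [k0,k0,k0,k0,k2,k2,k1,k1,k1,k1,k1,k1] k0 [] k8 k5
    [[(k4,k2)],[(k2,k4),(k3,k4)],[(k5,k2),(k0,k4)],[(k5,k2),(k0,k4)],[(k2,k2),(k3,k2)],[(k1,k2)],[(k10,k2)],[(k9,k2)],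
    [(k6,k2)],[(k8,k2),(k11,k2)],[(k8,k2),(k11,k2)],[(k7,k2)]]
    [] k0
    [[k0,k0,k0,k1,k1,k1]]
    [.ref k0 k0 [(z1,[y1,z1])]]]⟩

/-- classes `0 0 1 2 3 1`, types `C0 C2 N0 C0 S0 N2` -/
noncomputable def cT6_1774 : CertT :=
  ⟨[k4,k6,k28,k36,k48,k30],[],[[[]]],
    [.lp [k2,k2,k2,k2,k2,k2] [k0,k0,k0,k0,k0,k0,k0,k0,k0,k0,k0,k0] k0 [] k8 k5
    [[(k7,k2)],[(k2,k2),(k3,k2)],[(k0,k2),(k5,k2)],[(k0,k2),(k5,k2)],[(k2,k2),(k3,k2)],[(k10,k2)],[(k1,k2)],[(k9,k2)],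
    [(k6,k2)],[(k8,k2),(k11,k2)],[(k8,k2),(k11,k2)],[(k4,k2)]]
    [] k0
    []
    []]⟩

/-- classes `0 0 1 2 3 1`, types `C0 C2 N0 S0 S0 N1` -/
noncomputable def cT6_1775 : CertT :=
  ⟨[k4,k6,k28,k32,k48,k29],[(false,k0,[k0,k1,k2,k3,k4,k5])],[[[([z1,z1,z1,z0,z0,z0],z2)],[]]],
    [.leafM k0 [k2,k3,k4,k5,k0,k1] [(z1,[y1,z1])] [],
    .lp [k4,k0,k4,k2,k2,k2] [k0,k0,k2,k2,k0,k0,k1,k1,k1,k1,k1,k1] k0 [] k8 k5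
    [[(k4,k4)],[(k2,k2),(k3,k2)],[(k0,k2),(k5,k2)],[(k0,k2),(k5,k2)],[(k2,k2),(k3,k2)],[(k1,k4)],[(k10,k2)],[(k6,k2),
    (k9,k2)],[(k6,k2),(k9,k2)],[(k8,k2),(k11,k2)],[(k8,k2),(k11,k2)],[(k7,k2)]]
    [] k0
    [[k0,k0,k0,k1,k1,k1]]
    [.ref k0 k0 [(z1,[y1,z1])]]]⟩

/-- classes `0 0 1 2 3 1`, types `C0 C2 N0 S0 S0 N2` -/
noncomputable def cT6_1776 : CertT :=
  ⟨[k4,k6,k28,k32,k48,k30],[],[[[]]],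
    [.lp [k2,k2,k2,k2,k2,k2] [k0,k0,k0,k0,k0,k0,k0,k0,k0,k0,k0,k0] k0 [] k8 k5
    [[(k7,k2)],[(k2,k2),(k3,k2)],[(k0,k2),(k5,k2)],[(k0,k2),(k5,k2)],[(k2,k2),(k3,k2)],[(k10,k2)],[(k1,k2)],[(k6,k2),
    (k9,k2)],[(k6,k2),(k9,k2)],[(k8,k2),(k11,k2)],[(k8,k2),(k11,k2)],[(k4,k2)]]
    [] k0
    []
    []]⟩

/-- classes `0 0 1 2 3 1`, types `C0 C2 S0 C0 C0 S0` -/
noncomputable def cT6_1777 : CertT :=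
  ⟨[k4,k6,k16,k36,k52,k16],[(false,k0,[k0,k1,k2,k3,k4,k5])],[[[([z1,z1,z1,z0,z0,z0],z2)],[]]],
    [.leafM k0 [k2,k3,k4,k5,k0,k1] [(z1,[y1,z1])] [],
    .lp [k2,k4,k2,k2,k2,k2] [k1,k1,k0,k0,k1,k1,k1,k1,k1,k1,k1,k1] k0 [] k8 k5
    [[(k1,k2),(k4,k2),(k7,k2),(k10,k2)],[(k2,k3),(k3,k3)],[(k0,k3),(k5,k3)],[(k0,k3),(k5,k3)],[(k2,k3),(k3,k3)],[(k1,
    k2),(k4,k2),(k7,k2),(k10,k2)],[(k1,k2),(k4,k2),(k7,k2),(k10,k2)],[(k9,k2)],[(k6,k2)],[(k11,k2)],[(k8,k2)],[(k1,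
    k2),(k4,k2),(k7,k2),(k10,k2)]]
    [] k0
    [[k0,k0,k0,k1,k1,k1]]
    [.ref k0 k0 [(z1,[y1,z1])]]]⟩

/-- classes `0 0 1 2 3 1`, types `C0 C2 S0 C0 S0 S0` -/
noncomputable def cT6_1778 : CertT :=
  ⟨[k4,k6,k16,k36,k48,k16],[(false,k0,[k0,k1,k2,k3,k4,k5])],[[[([z1,z1,z1,z0,z0,z0],z2)],[]]],
    [.leafM k0 [k2,k3,k4,k5,k0,k1] [(z1,[y1,z1])] [],
    .lp [k2,k4,k2,k2,k2,k2] [k1,k1,k0,k0,k1,k1,k1,k1,k1,k1,k1,k1] k0 [] k8 k5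
    [[(k1,k2),(k4,k2),(k7,k2),(k10,k2)],[(k2,k3),(k3,k3)],[(k0,k3),(k5,k3)],[(k0,k3),(k5,k3)],[(k2,k3),(k3,k3)],[(k1,
    k2),(k4,k2),(k7,k2),(k10,k2)],[(k1,k2),(k4,k2),(k7,k2),(k10,k2)],[(k9,k2)],[(k6,k2)],[(k8,k2),(k11,k2)],[(k8,k2),
    (k11,k2)],[(k1,k2),(k4,k2),(k7,k2),(k10,k2)]]
    [] k0
    [[k0,k0,k0,k1,k1,k1]]
    [.ref k0 k0 [(z1,[y1,z1])]]]⟩

/-- classes `0 0 1 2 3 1`, types `C0 C2 S0 S0 S0 S0` -/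
noncomputable def cT6_1779 : CertT :=
  ⟨[k4,k6,k16,k32,k48,k16],[(false,k0,[k0,k1,k2,k3,k4,k5])],[[[([z1,z1,z1,z0,z0,z0],z2)],[]]],
    [.leafM k0 [k2,k3,k4,k5,k0,k1] [(z1,[y1,z1])] [],
    .lp [k2,k4,k2,k2,k2,k2] [k1,k1,k0,k0,k1,k1,k1,k1,k1,k1,k1,k1] k0 [] k8 k5
    [[(k1,k2),(k4,k2),(k7,k2),(k10,k2)],[(k2,k3),(k3,k3)],[(k0,k3),(k5,k3)],[(k0,k3),(k5,k3)],[(k2,k3),(k3,k3)],[(k1,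
    k2),(k4,k2),(k7,k2),(k10,k2)],[(k1,k2),(k4,k2),(k7,k2),(k10,k2)],[(k6,k2),(k9,k2)],[(k6,k2),(k9,k2)],[(k8,k2),
    (k11,k2)],[(k8,k2),(k11,k2)],[(k1,k2),(k4,k2),(k7,k2),(k10,k2)]]
    [] k0
    [[k0,k0,k0,k1,k1,k1]]
    [.ref k0 k0 [(z1,[y1,z1])]]]⟩

/-- classes `0 0 1 2 3 1`, types `N0 N1 B0 C0 C0 B1` -/
noncomputable def cT6_1780 : CertT :=
  ⟨[k12,k13,k24,k36,k52,k25],[],[[[]]],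
    [.lp [k6,k4,k0,k6,k0,k6] [k0,k0,k1,k1,k3,k3,k0,k0,k3,k3,k0,k0] k0 [] k12 k5
    [[(k4,k3),(k7,k6)],[(k5,k3)],[(k2,k4)],[(k3,k4)],[(k0,k3)],[(k1,k3),(k10,k3)],[(k1,k6),(k10,k6)],[(k9,k3)],[(k6,
    k3)],[(k11,k3)],[(k8,k3)],[(k4,k3),(k7,k6)]]
    [] k0
    []
    []]⟩

/-- classes `0 0 1 2 3 1`, types `N0 N1 B0 C0 S0 B1` -/
noncomputable def cT6_1781 : CertT :=
  ⟨[k12,k13,k24,k36,k48,k25],[],[[[]]],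
    [.lp [k0,k8,k12,k12,k6,k6] [k6,k6,k2,k2,k0,k0,k0,k0,k3,k3,k3,k3] k0 [] k24 k5
    [[(k4,k6),(k7,k6)],[(k5,k6)],[(k2,k8)],[(k3,k8)],[(k0,k6)],[(k1,k6),(k10,k9)],[(k1,k6),(k10,k9)],[(k9,k9)],[(k6,
    k9)],[(k8,k6),(k11,k6)],[(k8,k6),(k11,k6)],[(k4,k9),(k7,k9)]]
    [] k0
    []
    []]⟩

/-- classes `0 0 1 2 3 1`, types `N0 N1 B0 S0 S0 B1` -/
noncomputable def cT6_1782 : CertT :=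
  ⟨[k12,k13,k24,k32,k48,k25],[],[[[]]],
    [.lp [k6,k8,k6,k6,k6,k12] [k3,k3,k2,k2,k3,k3,k3,k3,k3,k3,k0,k0] k0 [] k24 k5
    [[(k4,k6),(k7,k6)],[(k5,k6)],[(k2,k8)],[(k3,k8)],[(k0,k6)],[(k1,k6),(k10,k9)],[(k1,k6),(k10,k9)],[(k6,k6),(k9,
    k6)],[(k6,k6),(k9,k6)],[(k8,k6),(k11,k9)],[(k8,k9),(k11,k12)],[(k4,k9),(k7,k9)]]
    [] k0
    []
    []]⟩

/-- classes `0 0 1 2 3 1`, types `N0 N1 C0 C0 C0 C0` -/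
noncomputable def cT6_1783 : CertT :=
  ⟨[k12,k13,k20,k36,k52,k20],[],[[[]]],
    [.lp [k0,k4,k6,k0,k6,k6] [k3,k3,k1,k1,k0,k0,k3,k3,k0,k0,k0,k0] k0 [] k12 k5
    [[(k4,k3),(k10,k3)],[(k5,k3)],[(k2,k4)],[(k3,k4)],[(k0,k3)],[(k1,k3),(k7,k3)],[(k4,k3),(k10,k3)],[(k9,k3)],[(k6,
    k3)],[(k11,k6)],[(k8,k6)],[(k1,k3),(k7,k3)]]
    [] k0
    []
    []]⟩

/-- classes `0 0 1 2 3 1`, types `N0 N1 C0 C0 C0 C2` -/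
noncomputable def cT6_1784 : CertT :=
  ⟨[k12,k13,k20,k36,k52,k22],[],[[[]]],
    [.lp [k6,k8,k6,k6,k6,k6] [k1,k1,k0,k0,k1,k1,k1,k1,k1,k1,k1,k1] k0 [] k24 k5
    [[(k7,k6),(k10,k6)],[(k5,k6)],[(k2,k8)],[(k3,k8)],[(k0,k6)],[(k7,k6),(k10,k6)],[(k1,k6),(k4,k6)],[(k9,k6)],[(k6,
    k6)],[(k11,k6)],[(k8,k6)],[(k1,k6),(k4,k6)]]
    [] k0
    []
    []]⟩

/-- classes `0 0 1 2 3 1`, types `N0 N1 C0 C0 S0 C0` -/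
noncomputable def cT6_1785 : CertT :=
  ⟨[k12,k13,k20,k36,k48,k20],[],[[[]]],
    [.lp [k12,k8,k0,k12,k6,k6] [k0,k0,k2,k2,k6,k6,k0,k0,k3,k3,k3,k3] k0 [] k24 k5
    [[(k4,k6),(k10,k9)],[(k5,k6)],[(k2,k8)],[(k3,k8)],[(k0,k6)],[(k1,k6),(k7,k6)],[(k4,k6),(k10,k9)],[(k9,k9)],[(k6,
    k9)],[(k8,k6),(k11,k6)],[(k8,k6),(k11,k6)],[(k1,k9),(k7,k9)]]
    [] k0
    []
    []]⟩

/-- classes `0 0 1 2 3 1`, types `N0 N1 C0 C0 S0 C2` -/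
noncomputable def cT6_1786 : CertT :=
  ⟨[k12,k13,k20,k36,k48,k22],[],[[[]]],
    [.lp [k6,k8,k6,k6,k6,k6] [k1,k1,k0,k0,k1,k1,k1,k1,k1,k1,k1,k1] k0 [] k24 k5
    [[(k7,k6),(k10,k6)],[(k5,k6)],[(k2,k8)],[(k3,k8)],[(k0,k6)],[(k7,k6),(k10,k6)],[(k1,k6),(k4,k6)],[(k9,k6)],[(k6,
    k6)],[(k8,k6),(k11,k6)],[(k8,k6),(k11,k6)],[(k1,k6),(k4,k6)]]
    [] k0
    []
    []]⟩

/-- classes `0 0 1 2 3 1`, types `N0 N1 C0 S0 S0 C0` -/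
noncomputable def cT6_1787 : CertT :=
  ⟨[k12,k13,k20,k32,k48,k20],[],[[[]]],
    [.lp [k6,k8,k6,k12,k6,k6] [k3,k3,k2,k2,k3,k3,k0,k0,k3,k3,k3,k3] k0 [] k24 k5
    [[(k4,k6),(k10,k6)],[(k5,k6)],[(k2,k8)],[(k3,k8)],[(k0,k6)],[(k1,k6),(k7,k9)],[(k4,k9),(k10,k9)],[(k9,k9),(k6,
    k12)],[(k9,k6),(k6,k9)],[(k8,k6),(k11,k6)],[(k8,k6),(k11,k6)],[(k1,k6),(k7,k9)]]
    [] k0
    []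
    []]⟩

/-- classes `0 0 1 2 3 1`, types `N0 N1 C0 S0 S0 C2` -/
noncomputable def cT6_1788 : CertT :=
  ⟨[k12,k13,k20,k32,k48,k22],[],[[[]]],
    [.lp [k6,k8,k6,k6,k6,k6] [k1,k1,k0,k0,k1,k1,k1,k1,k1,k1,k1,k1] k0 [] k24 k5
    [[(k7,k6),(k10,k6)],[(k5,k6)],[(k2,k8)],[(k3,k8)],[(k0,k6)],[(k7,k6),(k10,k6)],[(k1,k6),(k4,k6)],[(k6,k6),(k9,
    k6)],[(k6,k6),(k9,k6)],[(k8,k6),(k11,k6)],[(k8,k6),(k11,k6)],[(k1,k6),(k4,k6)]]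
    [] k0
    []
    []]⟩

/-- classes `0 0 1 2 3 1`, types `N0 N1 N0 C0 C0 N1` -/
noncomputable def cT6_1789 : CertT :=
  ⟨[k12,k13,k28,k36,k52,k29],[],[[[]]],
    [.lp [k6,k4,k0,k0,k6,k6] [k0,k0,k1,k1,k3,k3,k3,k3,k0,k0,k0,k0] k0 [] k12 k5
    [[(k4,k3)],[(k5,k3)],[(k2,k4)],[(k3,k4)],[(k0,k3)],[(k1,k3)],[(k10,k3)],[(k9,k3)],[(k6,k3)],[(k11,k6)],[(k8,k6)],
    [(k7,k3)]]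
    [] k0
    []
    []]⟩

/-- classes `0 0 1 2 3 1`, types `N0 N1 N0 C0 C0 N2` -/
noncomputable def cT6_1790 : CertT :=
  ⟨[k12,k13,k28,k36,k52,k30],[],[[[]]],
    [.lp [k6,k8,k6,k6,k6,k6] [k1,k1,k0,k0,k1,k1,k1,k1,k1,k1,k1,k1] k0 [] k24 k5
    [[(k7,k6)],[(k5,k6)],[(k2,k8)],[(k3,k8)],[(k0,k6)],[(k10,k6)],[(k1,k6)],[(k9,k6)],[(k6,k6)],[(k11,k6)],[(k8,k6)],
    [(k4,k6)]]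
    [] k0
    []
    []]⟩

/-- classes `0 0 1 2 3 1`, types `N0 N1 N0 C0 S0 N1` -/
noncomputable def cT6_1791 : CertT :=
  ⟨[k12,k13,k28,k36,k48,k29],[],[[[]]],
    [.lp [k12,k8,k0,k12,k6,k6] [k0,k0,k2,k2,k6,k6,k0,k0,k3,k3,k3,k3] k0 [] k24 k5
    [[(k4,k6)],[(k5,k6)],[(k2,k8)],[(k3,k8)],[(k0,k6)],[(k1,k6)],[(k10,k9)],[(k9,k9)],[(k6,k9)],[(k8,k6),(k11,k6)],
    [(k8,k6),(k11,k6)],[(k7,k9)]]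
    [] k0
    []
    []]⟩

/-- classes `0 0 1 2 3 1`, types `N0 N1 N0 C0 S0 N2` -/
noncomputable def cT6_1792 : CertT :=
  ⟨[k12,k13,k28,k36,k48,k30],[],[[[]]],
    [.lp [k6,k8,k6,k6,k6,k6] [k1,k1,k0,k0,k1,k1,k1,k1,k1,k1,k1,k1] k0 [] k24 k5
    [[(k7,k6)],[(k5,k6)],[(k2,k8)],[(k3,k8)],[(k0,k6)],[(k10,k6)],[(k1,k6)],[(k9,k6)],[(k6,k6)],[(k8,k6),(k11,k6)],
    [(k8,k6),(k11,k6)],[(k4,k6)]]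
    [] k0
    []
    []]⟩

/-- classes `0 0 1 2 3 1`, types `N0 N1 N0 S0 S0 N1` -/
noncomputable def cT6_1793 : CertT :=
  ⟨[k12,k13,k28,k32,k48,k29],[],[[[]]],
    [.lp [k0,k8,k12,k12,k6,k6] [k6,k6,k2,k2,k0,k0,k0,k0,k3,k3,k3,k3] k0 [] k24 k5
    [[(k4,k6)],[(k5,k6)],[(k2,k8)],[(k3,k8)],[(k0,k6)],[(k1,k6)],[(k10,k9)],[(k9,k9),(k6,k12)],[(k9,k6),(k6,k9)],[(k8,
    k6),(k11,k6)],[(k8,k6),(k11,k6)],[(k7,k9)]]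
    [] k0
    []
    []]⟩

/-- classes `0 0 1 2 3 1`, types `N0 N1 N0 S0 S0 N2` -/
noncomputable def cT6_1794 : CertT :=
  ⟨[k12,k13,k28,k32,k48,k30],[],[[[]]],
    [.lp [k6,k8,k6,k6,k6,k6] [k1,k1,k0,k0,k1,k1,k1,k1,k1,k1,k1,k1] k0 [] k24 k5
    [[(k7,k6)],[(k5,k6)],[(k2,k8)],[(k3,k8)],[(k0,k6)],[(k10,k6)],[(k1,k6)],[(k6,k6),(k9,k6)],[(k6,k6),(k9,k6)],[(k8,
    k6),(k11,k6)],[(k8,k6),(k11,k6)],[(k4,k6)]]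
    [] k0
    []
    []]⟩

/-- classes `0 0 1 2 3 1`, types `N0 N1 S0 C0 C0 S0` -/
noncomputable def cT6_1795 : CertT :=
  ⟨[k12,k13,k16,k36,k52,k16],[],[[[]]],
    [.lp [k6,k8,k6,k12,k0,k12] [k3,k3,k2,k2,k3,k3,k0,k0,k6,k6,k0,k0] k0 [] k24 k5
    [[(k1,k6),(k4,k6),(k7,k9),(k10,k9)],[(k5,k6)],[(k2,k8)],[(k3,k8)],[(k0,k6)],[(k1,k6),(k4,k6),(k7,k9),(k10,k9)],
    [(k1,k9),(k4,k9),(k7,k12),(k10,k12)],[(k9,k6)],[(k6,k6)],[(k11,k6)],[(k8,k6)],[(k1,k9),(k4,k9),(k7,k12),(k10,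
    k12)]]
    [] k0
    []
    []]⟩

/-- classes `0 0 1 2 3 1`, types `N0 N1 S0 C0 S0 S0` -/
noncomputable def cT6_1796 : CertT :=
  ⟨[k12,k13,k16,k36,k48,k16],[],[[[]]],
    [.lp [k6,k8,k6,k6,k6,k12] [k3,k3,k2,k2,k3,k3,k3,k3,k3,k3,k0,k0] k0 [] k24 k5
    [[(k1,k6),(k4,k6),(k7,k6),(k10,k9)],[(k5,k6)],[(k2,k8)],[(k3,k8)],[(k0,k6)],[(k1,k6),(k4,k6),(k7,k6),(k10,k9)],
    [(k1,k6),(k4,k6),(k7,k6),(k10,k9)],[(k9,k6)],[(k6,k6)],[(k8,k6),(k11,k9)],[(k8,k9),(k11,k12)],[(k1,k9),(k4,k9),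
    (k7,k9),(k10,k12)]]
    [] k0
    []
    []]⟩

/-- classes `0 0 1 2 3 1`, types `N0 N1 S0 S0 S0 S0` -/
noncomputable def cT6_1797 : CertT :=
  ⟨[k12,k13,k16,k32,k48,k16],[],[[[]]],
    [.lp [k6,k8,k6,k6,k12,k6] [k3,k3,k2,k2,k3,k3,k3,k3,k0,k0,k3,k3] k0 [] k24 k5
    [[(k1,k6),(k4,k6),(k7,k6),(k10,k6)],[(k5,k6)],[(k2,k8)],[(k3,k8)],[(k0,k6)],[(k1,k6),(k4,k6),(k7,k6),(k10,k6)],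
    [(k1,k6),(k4,k6),(k7,k6),(k10,k6)],[(k6,k6),(k9,k9)],[(k6,k9),(k9,k12)],[(k11,k9),(k8,k12)],[(k11,k6),(k8,k9)],
    [(k1,k6),(k4,k6),(k7,k6),(k10,k6)]]
    [] k0
    []
    []]⟩

/-- classes `0 0 1 2 3 1`, types `N0 N2 B0 C0 C0 B1` -/
noncomputable def cT6_1798 : CertT :=
  ⟨[k12,k14,k24,k36,k52,k25],[(false,k0,[k0,k1,k2,k3,k4,k5])],[[[([z1,z1,z1,z0,z0,z0],z2)],[]]],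
    [.leafM k4 [k0,k1,k2,k3,k4,k5] [(z1,[y1,z1])] [],
    .lp [k4,k2,k2,k2,k2,k2] [k0,k0,k1,k1,k1,k1,k1,k1,k1,k1,k1,k1] k0 [] k8 k5
    [[(k4,k3),(k7,k3)],[(k2,k3)],[(k5,k2)],[(k0,k3)],[(k3,k2)],[(k10,k2),(k1,k3)],[(k10,k2),(k1,k3)],[(k9,k2)],[(k6,
    k2)],[(k11,k2)],[(k8,k2)],[(k4,k2),(k7,k2)]]
    [] k0
    [[k0,k0,k0,k1,k1,k1]]
    [.ref k0 k0 [(z1,[y1,z1])]]]⟩

/-- classes `0 0 1 2 3 1`, types `N0 N2 B0 C0 S0 B1` -/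
noncomputable def cT6_1799 : CertT :=
  ⟨[k12,k14,k24,k36,k48,k25],[(false,k0,[k0,k1,k2,k3,k4,k5])],[[[([z1,z1,z1,z0,z0,z0],z2)],[]]],
    [.leafM k4 [k0,k1,k2,k3,k4,k5] [(z1,[y1,z1])] [],
    .lp [k4,k0,k4,k2,k2,k2] [k0,k0,k2,k2,k0,k0,k1,k1,k1,k1,k1,k1] k0 [] k8 k5
    [[(k7,k3),(k4,k4)],[(k2,k2)],[(k5,k2)],[(k0,k2)],[(k3,k2)],[(k10,k3),(k1,k4)],[(k10,k2),(k1,k3)],[(k9,k2)],[(k6,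
    k2)],[(k8,k2),(k11,k2)],[(k8,k2),(k11,k2)],[(k7,k2),(k4,k3)]]
    [] k0
    [[k0,k0,k0,k1,k1,k1]]
    [.ref k0 k0 [(z1,[y1,z1])]]]⟩

/-- classes `0 0 1 2 3 1`, types `N0 N2 B0 S0 S0 B1` -/
noncomputable def cT6_1800 : CertT :=
  ⟨[k12,k14,k24,k32,k48,k25],[(false,k0,[k0,k1,k2,k3,k4,k5])],[[[([z1,z1,z1,z0,z0,z0],z2)],[]]],
    [.leafM k4 [k0,k1,k2,k3,k4,k5] [(z1,[y1,z1])] [],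
    .lp [k2,k2,k2,k2,k2,k4] [k1,k1,k1,k1,k1,k1,k1,k1,k1,k1,k0,k0] k0 [] k8 k5
    [[(k4,k2),(k7,k2)],[(k2,k2)],[(k5,k2)],[(k0,k2)],[(k3,k2)],[(k1,k2),(k10,k3)],[(k1,k2),(k10,k3)],[(k6,k2),(k9,
    k2)],[(k6,k2),(k9,k2)],[(k8,k2),(k11,k3)],[(k8,k3),(k11,k4)],[(k4,k3),(k7,k3)]]
    [] k0
    [[k1,k1,k1,k0,k0,k0]]
    [.ref k0 k0 [(z1,[z1])]]]⟩

/-- classes `0 0 1 2 3 1`, types `N0 N2 C0 C0 C0 C0` -/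
noncomputable def cT6_1801 : CertT :=
  ⟨[k12,k14,k20,k36,k52,k20],[(false,k0,[k0,k1,k2,k3,k4,k5])],[[[([z1,z1,z1,z0,z0,z0],z2)],[]]],
    [.leafM k4 [k0,k1,k2,k3,k4,k5] [(z1,[y1,z1])] [],
    .lp [k2,k2,k2,k2,k2,k4] [k1,k1,k1,k1,k1,k1,k1,k1,k1,k1,k0,k0] k0 [] k8 k5
    [[(k4,k2),(k10,k3)],[(k2,k2)],[(k5,k2)],[(k0,k2)],[(k3,k2)],[(k1,k2),(k7,k2)],[(k4,k2),(k10,k3)],[(k9,k2)],[(k6,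
    k2)],[(k11,k3)],[(k8,k3)],[(k1,k3),(k7,k3)]]
    [] k0
    [[k1,k1,k1,k0,k0,k0]]
    [.ref k0 k0 [(z1,[z1])]]]⟩

/-- classes `0 0 1 2 3 1`, types `N0 N2 C0 C0 C0 C2` -/
noncomputable def cT6_1802 : CertT :=
  ⟨[k12,k14,k20,k36,k52,k22],[],[[[]]],
    [.lp [k0,k2,k0,k2,k0,k2] [k1,k1,k0,k0,k1,k1,k0,k0,k1,k1,k0,k0] k0 [] k4 k5
    [[(k7,k1),(k10,k1)],[(k2,k1)],[(k5,k1)],[(k0,k1)],[(k3,k1)],[(k7,k1),(k10,k1)],[(k1,k1),(k4,k1)],[(k9,k1)],[(k6,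
    k1)],[(k11,k1)],[(k8,k1)],[(k1,k1),(k4,k1)]]
    [] k0
    []
    []]⟩

/-- classes `0 0 1 2 3 1`, types `N0 N2 C0 C0 S0 C0` -/
noncomputable def cT6_1803 : CertT :=
  ⟨[k12,k14,k20,k36,k48,k20],[(false,k0,[k0,k1,k2,k3,k4,k5])],[[[([z1,z1,z1,z0,z0,z0],z2)],[]]],
    [.leafM k4 [k0,k1,k2,k3,k4,k5] [(z1,[y1,z1])] [],
    .lp [k4,k2,k2,k2,k2,k2] [k0,k0,k1,k1,k1,k1,k1,k1,k1,k1,k1,k1] k0 [] k8 k5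
    [[(k4,k3),(k10,k3)],[(k2,k3)],[(k5,k2)],[(k0,k3)],[(k3,k2)],[(k7,k2),(k1,k3)],[(k4,k2),(k10,k2)],[(k9,k2)],[(k6,
    k2)],[(k8,k2),(k11,k2)],[(k8,k2),(k11,k2)],[(k7,k2),(k1,k3)]]
    [] k0
    [[k0,k0,k0,k1,k1,k1]]
    [.ref k0 k0 [(z1,[y1,z1])]]]⟩

/-- classes `0 0 1 2 3 1`, types `N0 N2 C0 C0 S0 C2` -/
noncomputable def cT6_1804 : CertT :=
  ⟨[k12,k14,k20,k36,k48,k22],[],[[[]]],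
    [.lp [k2,k2,k2,k2,k2,k2] [k0,k0,k0,k0,k0,k0,k0,k0,k0,k0,k0,k0] k0 [] k8 k5
    [[(k7,k2),(k10,k2)],[(k2,k2)],[(k5,k2)],[(k0,k2)],[(k3,k2)],[(k7,k2),(k10,k2)],[(k1,k2),(k4,k2)],[(k9,k2)],[(k6,
    k2)],[(k8,k2),(k11,k2)],[(k8,k2),(k11,k2)],[(k1,k2),(k4,k2)]]
    [] k0
    []
    []]⟩

/-- classes `0 0 1 2 3 1`, types `N0 N2 C0 S0 S0 C0` -/
noncomputable def cT6_1805 : CertT :=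
  ⟨[k12,k14,k20,k32,k48,k20],[(false,k0,[k0,k1,k2,k3,k4,k5])],[[[([z1,z1,z1,z0,z0,z0],z2)],[]]],
    [.leafM k4 [k0,k1,k2,k3,k4,k5] [(z1,[y1,z1])] [],
    .lp [k4,k0,k4,k2,k2,k2] [k0,k0,k2,k2,k0,k0,k1,k1,k1,k1,k1,k1] k0 [] k8 k5
    [[(k10,k3),(k4,k4)],[(k2,k2)],[(k5,k2)],[(k0,k2)],[(k3,k2)],[(k7,k3),(k1,k4)],[(k10,k2),(k4,k3)],[(k6,k2),(k9,
    k2)],[(k6,k2),(k9,k2)],[(k8,k2),(k11,k2)],[(k8,k2),(k11,k2)],[(k7,k2),(k1,k3)]]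
    [] k0
    [[k0,k0,k0,k1,k1,k1]]
    [.ref k0 k0 [(z1,[y1,z1])]]]⟩

/-- classes `0 0 1 2 3 1`, types `N0 N2 C0 S0 S0 C2` -/
noncomputable def cT6_1806 : CertT :=
  ⟨[k12,k14,k20,k32,k48,k22],[],[[[]]],
    [.lp [k2,k2,k2,k2,k2,k2] [k0,k0,k0,k0,k0,k0,k0,k0,k0,k0,k0,k0] k0 [] k8 k5
    [[(k7,k2),(k10,k2)],[(k2,k2)],[(k5,k2)],[(k0,k2)],[(k3,k2)],[(k7,k2),(k10,k2)],[(k1,k2),(k4,k2)],[(k6,k2),(k9,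
    k2)],[(k6,k2),(k9,k2)],[(k8,k2),(k11,k2)],[(k8,k2),(k11,k2)],[(k1,k2),(k4,k2)]]
    [] k0
    []
    []]⟩

/-- classes `0 0 1 2 3 1`, types `N0 N2 N0 C0 C0 N1` -/
noncomputable def cT6_1807 : CertT :=
  ⟨[k12,k14,k28,k36,k52,k29],[(false,k0,[k0,k1,k2,k3,k4,k5])],[[[([z1,z1,z1,z0,z0,z0],z2)],[]]],
    [.leafM k4 [k0,k1,k2,k3,k4,k5] [(z1,[y1,z1])] [],
    .lp [k2,k2,k2,k0,k4,k4] [k1,k1,k1,k1,k1,k1,k2,k2,k0,k0,k0,k0] k0 [] k8 k5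
    [[(k4,k2)],[(k2,k2)],[(k5,k2)],[(k0,k2)],[(k3,k2)],[(k1,k2)],[(k10,k2)],[(k9,k2)],[(k6,k2)],[(k11,k4)],[(k8,k4)],
    [(k7,k2)]]
    [] k0
    [[k1,k1,k1,k0,k0,k0]]
    [.ref k0 k0 [(z1,[z1])]]]⟩

/-- classes `0 0 1 2 3 1`, types `N0 N2 N0 C0 C0 N2` -/
noncomputable def cT6_1808 : CertT :=
  ⟨[k12,k14,k28,k36,k52,k30],[],[[[]]],
    [.lp [k0,k2,k0,k2,k0,k2] [k1,k1,k0,k0,k1,k1,k0,k0,k1,k1,k0,k0] k0 [] k4 k5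
    [[(k7,k1)],[(k2,k1)],[(k5,k1)],[(k0,k1)],[(k3,k1)],[(k10,k1)],[(k1,k1)],[(k9,k1)],[(k6,k1)],[(k11,k1)],[(k8,k1)],
    [(k4,k1)]]
    [] k0
    []
    []]⟩

/-- classes `0 0 1 2 3 1`, types `N0 N2 N0 C0 S0 N1` -/
noncomputable def cT6_1809 : CertT :=
  ⟨[k12,k14,k28,k36,k48,k29],[(false,k0,[k0,k1,k2,k3,k4,k5])],[[[([z1,z1,z1,z0,z0,z0],z2)],[]]],
    [.leafM k4 [k0,k1,k2,k3,k4,k5] [(z1,[y1,z1])] [],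
    .lp [k4,k4,k0,k2,k2,k2] [k0,k0,k0,k0,k2,k2,k1,k1,k1,k1,k1,k1] k0 [] k8 k5
    [[(k4,k2)],[(k2,k4)],[(k5,k2)],[(k0,k4)],[(k3,k2)],[(k1,k2)],[(k10,k2)],[(k9,k2)],[(k6,k2)],[(k8,k2),(k11,k2)],
    [(k8,k2),(k11,k2)],[(k7,k2)]]
    [] k0
    [[k0,k0,k0,k1,k1,k1]]
    [.ref k0 k0 [(z1,[y1,z1])]]]⟩

/-- classes `0 0 1 2 3 1`, types `N0 N2 N0 C0 S0 N2` -/
noncomputable def cT6_1810 : CertT :=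
  ⟨[k12,k14,k28,k36,k48,k30],[],[[[]]],
    [.lp [k2,k2,k2,k2,k2,k2] [k0,k0,k0,k0,k0,k0,k0,k0,k0,k0,k0,k0] k0 [] k8 k5
    [[(k7,k2)],[(k2,k2)],[(k5,k2)],[(k0,k2)],[(k3,k2)],[(k10,k2)],[(k1,k2)],[(k9,k2)],[(k6,k2)],[(k8,k2),(k11,k2)],
    [(k8,k2),(k11,k2)],[(k4,k2)]]
    [] k0
    []
    []]⟩

/-- classes `0 0 1 2 3 1`, types `N0 N2 N0 S0 S0 N1` -/
noncomputable def cT6_1811 : CertT :=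
  ⟨[k12,k14,k28,k32,k48,k29],[(false,k0,[k0,k1,k2,k3,k4,k5])],[[[([z1,z1,z1,z0,z0,z0],z2)],[]]],
    [.leafM k4 [k0,k1,k2,k3,k4,k5] [(z1,[y1,z1])] [],
    .lp [k4,k0,k4,k2,k2,k2] [k0,k0,k2,k2,k0,k0,k1,k1,k1,k1,k1,k1] k0 [] k8 k5
    [[(k4,k4)],[(k2,k2)],[(k5,k2)],[(k0,k2)],[(k3,k2)],[(k1,k4)],[(k10,k2)],[(k6,k2),(k9,k2)],[(k6,k2),(k9,k2)],[(k8,
    k2),(k11,k2)],[(k8,k2),(k11,k2)],[(k7,k2)]]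
    [] k0
    [[k0,k0,k0,k1,k1,k1]]
    [.ref k0 k0 [(z1,[y1,z1])]]]⟩

/-- classes `0 0 1 2 3 1`, types `N0 N2 N0 S0 S0 N2` -/
noncomputable def cT6_1812 : CertT :=
  ⟨[k12,k14,k28,k32,k48,k30],[],[[[]]],
    [.lp [k2,k2,k2,k2,k2,k2] [k0,k0,k0,k0,k0,k0,k0,k0,k0,k0,k0,k0] k0 [] k8 k5
    [[(k7,k2)],[(k2,k2)],[(k5,k2)],[(k0,k2)],[(k3,k2)],[(k10,k2)],[(k1,k2)],[(k6,k2),(k9,k2)],[(k6,k2),(k9,k2)],[(k8,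
    k2),(k11,k2)],[(k8,k2),(k11,k2)],[(k4,k2)]]
    [] k0
    []
    []]⟩

/-- classes `0 0 1 2 3 1`, types `N0 N2 S0 C0 C0 S0` -/
noncomputable def cT6_1813 : CertT :=
  ⟨[k12,k14,k16,k36,k52,k16],[(false,k0,[k0,k1,k2,k3,k4,k5])],[[[([z1,z1,z1,z0,z0,z0],z2)],[]]],
    [.leafM k4 [k0,k1,k2,k3,k4,k5] [(z1,[y1,z1])] [],
    .lp [k2,k2,k2,k4,k0,k4] [k1,k1,k1,k1,k1,k1,k0,k0,k2,k2,k0,k0] k0 [] k8 k5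
    [[(k1,k2),(k4,k2),(k7,k3),(k10,k3)],[(k2,k2)],[(k5,k2)],[(k0,k2)],[(k3,k2)],[(k1,k2),(k4,k2),(k7,k3),(k10,k3)],
    [(k1,k3),(k4,k3),(k7,k4),(k10,k4)],[(k9,k2)],[(k6,k2)],[(k11,k2)],[(k8,k2)],[(k1,k3),(k4,k3),(k7,k4),(k10,k4)]]
    [] k0
    [[k1,k1,k1,k0,k0,k0]]
    [.ref k0 k0 [(z1,[z1])]]]⟩

/-- classes `0 0 1 2 3 1`, types `N0 N2 S0 C0 S0 S0` -/
noncomputable def cT6_1814 : CertT :=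
  ⟨[k12,k14,k16,k36,k48,k16],[(false,k0,[k0,k1,k2,k3,k4,k5])],[[[([z1,z1,z1,z0,z0,z0],z2)],[]]],
    [.leafM k4 [k0,k1,k2,k3,k4,k5] [(z1,[y1,z1])] [],
    .lp [k4,k2,k2,k2,k2,k2] [k0,k0,k1,k1,k1,k1,k1,k1,k1,k1,k1,k1] k0 [] k8 k5
    [[(k4,k3),(k7,k3),(k10,k3),(k1,k4)],[(k2,k3)],[(k5,k2)],[(k0,k3)],[(k3,k2)],[(k4,k2),(k7,k2),(k10,k2),(k1,k3)],
    [(k4,k2),(k7,k2),(k10,k2),(k1,k3)],[(k9,k2)],[(k6,k2)],[(k8,k2),(k11,k2)],[(k8,k2),(k11,k2)],[(k4,k2),(k7,k2),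
    (k10,k2),(k1,k3)]]
    [] k0
    [[k0,k0,k0,k1,k1,k1]]
    [.ref k0 k0 [(z1,[y1,z1])]]]⟩

/-- classes `0 0 1 2 3 1`, types `N0 N2 S0 S0 S0 S0` -/
noncomputable def cT6_1815 : CertT :=
  ⟨[k12,k14,k16,k32,k48,k16],[(false,k0,[k0,k1,k2,k3,k4,k5])],[[[([z1,z1,z1,z0,z0,z0],z2)],[]]],
    [.leafM k4 [k0,k1,k2,k3,k4,k5] [(z1,[y1,z1])] [],
    .lp [k4,k2,k2,k2,k2,k2] [k0,k0,k1,k1,k1,k1,k1,k1,k1,k1,k1,k1] k0 [] k8 k5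
    [[(k4,k3),(k7,k3),(k10,k3),(k1,k4)],[(k2,k3)],[(k5,k2)],[(k0,k3)],[(k3,k2)],[(k4,k2),(k7,k2),(k10,k2),(k1,k3)],
    [(k4,k2),(k7,k2),(k10,k2),(k1,k3)],[(k6,k2),(k9,k2)],[(k6,k2),(k9,k2)],[(k8,k2),(k11,k2)],[(k8,k2),(k11,k2)],[(k4,
    k2),(k7,k2),(k10,k2),(k1,k3)]]
    [] k0
    [[k0,k0,k0,k1,k1,k1]]
    [.ref k0 k0 [(z1,[y1,z1])]]]⟩

/-- classes `0 0 1 2 3 1`, types `S0 S0 B0 C0 C0 B1` -/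
noncomputable def cT6_1816 : CertT :=
  ⟨[k0,k0,k24,k36,k52,k25],[(false,k0,[k0,k1,k2,k3,k4,k5])],[[[([z1,z1,z1,z0,z0,z0],z2)],[]]],
    [.leafM k0 [k2,k3,k4,k5,k0,k1] [(z1,[y1,z1])] [],
    .lp [k10,k8,k6,k6,k6,k6] [k0,k0,k1,k1,k2,k2,k2,k2,k2,k2,k2,k2] k0 [] k24 k5
    [[(k4,k8),(k7,k8)],[(k5,k8),(k2,k9),(k3,k9),(k0,k10)],[(k5,k7),(k2,k8),(k3,k8),(k0,k9)],[(k5,k7),(k2,k8),(k3,k8),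
    (k0,k9)],[(k5,k6),(k2,k7),(k3,k7),(k0,k8)],[(k10,k6),(k1,k8)],[(k10,k6),(k1,k8)],[(k9,k6)],[(k6,k6)],[(k11,k6)],
    [(k8,k6)],[(k4,k6),(k7,k6)]]
    [] k0
    [[k0,k0,k0,k1,k1,k1]]
    [.ref k0 k0 [(z1,[y1,z1])]]]⟩

/-- classes `0 0 1 2 3 1`, types `S0 S0 B0 C0 S0 B1` -/
noncomputable def cT6_1817 : CertT :=
  ⟨[k0,k0,k24,k36,k48,k25],[(false,k0,[k0,k1,k2,k3,k4,k5])],[[[([z1,z1,z1,z0,z0,z0],z2)],[]]],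
    [.leafM k0 [k2,k3,k4,k5,k0,k1] [(z1,[y1,z1])] [],
    .lp [k10,k8,k6,k6,k6,k6] [k0,k0,k1,k1,k2,k2,k2,k2,k2,k2,k2,k2] k0 [] k24 k5
    [[(k4,k8),(k7,k8)],[(k5,k8),(k2,k9),(k3,k9),(k0,k10)],[(k5,k7),(k2,k8),(k3,k8),(k0,k9)],[(k5,k7),(k2,k8),(k3,k8),
    (k0,k9)],[(k5,k6),(k2,k7),(k3,k7),(k0,k8)],[(k10,k6),(k1,k8)],[(k10,k6),(k1,k8)],[(k9,k6)],[(k6,k6)],[(k8,k6),
    (k11,k6)],[(k8,k6),(k11,k6)],[(k4,k6),(k7,k6)]]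
    [] k0
    [[k0,k0,k0,k1,k1,k1]]
    [.ref k0 k0 [(z1,[y1,z1])]]]⟩

/-- classes `0 0 1 2 3 1`, types `S0 S0 B0 S0 S0 B1` -/
noncomputable def cT6_1818 : CertT :=
  ⟨[k0,k0,k24,k32,k48,k25],[(false,k0,[k0,k1,k2,k3,k4,k5])],[[[([z1,z1,z1,z0,z0,z0],z2)],[]]],
    [.leafM k0 [k2,k3,k4,k5,k0,k1] [(z1,[y1,z1])] [],
    .lp [k10,k8,k6,k6,k6,k6] [k0,k0,k1,k1,k2,k2,k2,k2,k2,k2,k2,k2] k0 [] k24 k5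
    [[(k4,k8),(k7,k8)],[(k5,k8),(k2,k9),(k3,k9),(k0,k10)],[(k5,k7),(k2,k8),(k3,k8),(k0,k9)],[(k5,k7),(k2,k8),(k3,k8),
    (k0,k9)],[(k5,k6),(k2,k7),(k3,k7),(k0,k8)],[(k10,k6),(k1,k8)],[(k10,k6),(k1,k8)],[(k6,k6),(k9,k6)],[(k6,k6),(k9,
    k6)],[(k8,k6),(k11,k6)],[(k8,k6),(k11,k6)],[(k4,k6),(k7,k6)]]
    [] k0
    [[k0,k0,k0,k1,k1,k1]]
    [.ref k0 k0 [(z1,[y1,z1])]]]⟩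

/-- classes `0 0 1 2 3 1`, types `S0 S0 C0 C0 C0 C0` -/
noncomputable def cT6_1819 : CertT :=
  ⟨[k0,k0,k20,k36,k52,k20],[(false,k0,[k0,k1,k2,k3,k4,k5])],[[[([z1,z1,z1,z0,z0,z0],z2)],[]]],
    [.leafM k0 [k2,k3,k4,k5,k0,k1] [(z1,[y1,z1])] [],
    .lp [k6,k8,k6,k12,k0,k12] [k3,k3,k2,k2,k3,k3,k0,k0,k6,k6,k0,k0] k0 [] k24 k5
    [[(k4,k6),(k10,k9)],[(k0,k6),(k5,k6),(k2,k7),(k3,k7)],[(k0,k7),(k5,k7),(k2,k8),(k3,k8)],[(k0,k7),(k5,k7),(k2,k8),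
    (k3,k8)],[(k0,k6),(k5,k6),(k2,k7),(k3,k7)],[(k1,k6),(k7,k9)],[(k4,k9),(k10,k12)],[(k9,k6)],[(k6,k6)],[(k11,k6)],
    [(k8,k6)],[(k1,k9),(k7,k12)]]
    [] k0
    [[k1,k1,k1,k0,k0,k0]]
    [.ref k0 k0 [(z1,[z1])]]]⟩

/-- classes `0 0 1 2 3 1`, types `S0 S0 C0 C0 C0 C2` -/
noncomputable def cT6_1820 : CertT :=
  ⟨[k0,k0,k20,k36,k52,k22],[],[[[]]],
    [.lp [k6,k8,k6,k6,k6,k6] [k1,k1,k0,k0,k1,k1,k1,k1,k1,k1,k1,k1] k0 [] k24 k5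
    [[(k7,k6),(k10,k6)],[(k0,k6),(k5,k6),(k2,k7),(k3,k7)],[(k0,k7),(k5,k7),(k2,k8),(k3,k8)],[(k0,k7),(k5,k7),(k2,k8),
    (k3,k8)],[(k0,k6),(k5,k6),(k2,k7),(k3,k7)],[(k7,k6),(k10,k6)],[(k1,k6),(k4,k6)],[(k9,k6)],[(k6,k6)],[(k11,k6)],
    [(k8,k6)],[(k1,k6),(k4,k6)]]
    [] k0
    []
    []]⟩

/-- classes `0 0 1 2 3 1`, types `S0 S0 C0 C0 S0 C0` -/
noncomputable def cT6_1821 : CertT :=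
  ⟨[k0,k0,k20,k36,k48,k20],[(false,k0,[k0,k1,k2,k3,k4,k5])],[[[([z1,z1,z1,z0,z0,z0],z2)],[]]],
    [.leafM k0 [k2,k3,k4,k5,k0,k1] [(z1,[y1,z1])] [],
    .lp [k10,k8,k6,k6,k6,k6] [k0,k0,k1,k1,k2,k2,k2,k2,k2,k2,k2,k2] k0 [] k24 k5
    [[(k4,k8),(k10,k8)],[(k5,k8),(k2,k9),(k3,k9),(k0,k10)],[(k5,k7),(k2,k8),(k3,k8),(k0,k9)],[(k5,k7),(k2,k8),(k3,k8),
    (k0,k9)],[(k5,k6),(k2,k7),(k3,k7),(k0,k8)],[(k7,k6),(k1,k8)],[(k4,k6),(k10,k6)],[(k9,k6)],[(k6,k6)],[(k8,k6),(k11,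
    k6)],[(k8,k6),(k11,k6)],[(k7,k6),(k1,k8)]]
    [] k0
    [[k0,k0,k0,k1,k1,k1]]
    [.ref k0 k0 [(z1,[y1,z1])]]]⟩

/-- classes `0 0 1 2 3 1`, types `S0 S0 C0 C0 S0 C2` -/
noncomputable def cT6_1822 : CertT :=
  ⟨[k0,k0,k20,k36,k48,k22],[],[[[]]],
    [.lp [k6,k8,k6,k6,k6,k6] [k1,k1,k0,k0,k1,k1,k1,k1,k1,k1,k1,k1] k0 [] k24 k5
    [[(k7,k6),(k10,k6)],[(k0,k6),(k5,k6),(k2,k7),(k3,k7)],[(k0,k7),(k5,k7),(k2,k8),(k3,k8)],[(k0,k7),(k5,k7),(k2,k8),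
    (k3,k8)],[(k0,k6),(k5,k6),(k2,k7),(k3,k7)],[(k7,k6),(k10,k6)],[(k1,k6),(k4,k6)],[(k9,k6)],[(k6,k6)],[(k8,k6),(k11,
    k6)],[(k8,k6),(k11,k6)],[(k1,k6),(k4,k6)]]
    [] k0
    []
    []]⟩

/-- classes `0 0 1 2 3 1`, types `S0 S0 C0 S0 S0 C0` -/
noncomputable def cT6_1823 : CertT :=
  ⟨[k0,k0,k20,k32,k48,k20],[(false,k0,[k0,k1,k2,k3,k4,k5])],[[[([z1,z1,z1,z0,z0,z0],z2)],[]]],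
    [.leafM k0 [k2,k3,k4,k5,k0,k1] [(z1,[y1,z1])] [],
    .lp [k10,k8,k6,k6,k6,k6] [k0,k0,k1,k1,k2,k2,k2,k2,k2,k2,k2,k2] k0 [] k24 k5
    [[(k4,k8),(k10,k8)],[(k5,k8),(k2,k9),(k3,k9),(k0,k10)],[(k5,k7),(k2,k8),(k3,k8),(k0,k9)],[(k5,k7),(k2,k8),(k3,k8),
    (k0,k9)],[(k5,k6),(k2,k7),(k3,k7),(k0,k8)],[(k7,k6),(k1,k8)],[(k4,k6),(k10,k6)],[(k6,k6),(k9,k6)],[(k6,k6),(k9,
    k6)],[(k8,k6),(k11,k6)],[(k8,k6),(k11,k6)],[(k7,k6),(k1,k8)]]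
    [] k0
    [[k0,k0,k0,k1,k1,k1]]
    [.ref k0 k0 [(z1,[y1,z1])]]]⟩

/-- classes `0 0 1 2 3 1`, types `S0 S0 C0 S0 S0 C2` -/
noncomputable def cT6_1824 : CertT :=
  ⟨[k0,k0,k20,k32,k48,k22],[],[[[]]],
    [.lp [k6,k8,k6,k6,k6,k6] [k1,k1,k0,k0,k1,k1,k1,k1,k1,k1,k1,k1] k0 [] k24 k5
    [[(k7,k6),(k10,k6)],[(k0,k6),(k5,k6),(k2,k7),(k3,k7)],[(k0,k7),(k5,k7),(k2,k8),(k3,k8)],[(k0,k7),(k5,k7),(k2,k8),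
    (k3,k8)],[(k0,k6),(k5,k6),(k2,k7),(k3,k7)],[(k7,k6),(k10,k6)],[(k1,k6),(k4,k6)],[(k6,k6),(k9,k6)],[(k6,k6),(k9,
    k6)],[(k8,k6),(k11,k6)],[(k8,k6),(k11,k6)],[(k1,k6),(k4,k6)]]
    [] k0
    []
    []]⟩

/-- classes `0 0 1 2 3 1`, types `S0 S0 N0 C0 C0 N1` -/
noncomputable def cT6_1825 : CertT :=
  ⟨[k0,k0,k28,k36,k52,k29],[(false,k0,[k0,k1,k2,k3,k4,k5])],[[[([z1,z1,z1,z0,z0,z0],z2)],[]]],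
    [.leafM k0 [k2,k3,k4,k5,k0,k1] [(z1,[y1,z1])] [],
    .lp [k6,k8,k6,k12,k0,k12] [k3,k3,k2,k2,k3,k3,k0,k0,k6,k6,k0,k0] k0 [] k24 k5
    [[(k4,k6)],[(k0,k6),(k5,k6),(k2,k7),(k3,k7)],[(k0,k7),(k5,k7),(k2,k8),(k3,k8)],[(k0,k7),(k5,k7),(k2,k8),(k3,k8)],
    [(k0,k6),(k5,k6),(k2,k7),(k3,k7)],[(k1,k6)],[(k10,k12)],[(k9,k6)],[(k6,k6)],[(k11,k6)],[(k8,k6)],[(k7,k12)]]
    [] k0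
    [[k1,k1,k1,k0,k0,k0]]
    [.ref k0 k0 [(z1,[z1])]]]⟩

/-- classes `0 0 1 2 3 1`, types `S0 S0 N0 C0 C0 N2` -/
noncomputable def cT6_1826 : CertT :=
  ⟨[k0,k0,k28,k36,k52,k30],[],[[[]]],
    [.lp [k6,k8,k6,k6,k6,k6] [k1,k1,k0,k0,k1,k1,k1,k1,k1,k1,k1,k1] k0 [] k24 k5
    [[(k7,k6)],[(k0,k6),(k5,k6),(k2,k7),(k3,k7)],[(k0,k7),(k5,k7),(k2,k8),(k3,k8)],[(k0,k7),(k5,k7),(k2,k8),(k3,k8)],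
    [(k0,k6),(k5,k6),(k2,k7),(k3,k7)],[(k10,k6)],[(k1,k6)],[(k9,k6)],[(k6,k6)],[(k11,k6)],[(k8,k6)],[(k4,k6)]]
    [] k0
    []
    []]⟩

/-- classes `0 0 1 2 3 1`, types `S0 S0 N0 C0 S0 N1` -/
noncomputable def cT6_1827 : CertT :=
  ⟨[k0,k0,k28,k36,k48,k29],[(false,k0,[k0,k1,k2,k3,k4,k5])],[[[([z1,z1,z1,z0,z0,z0],z2)],[]]],
    [.leafM k0 [k2,k3,k4,k5,k0,k1] [(z1,[y1,z1])] [],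
    .lp [k10,k8,k6,k6,k6,k6] [k0,k0,k1,k1,k2,k2,k2,k2,k2,k2,k2,k2] k0 [] k24 k5
    [[(k4,k8)],[(k5,k8),(k2,k9),(k3,k9),(k0,k10)],[(k5,k7),(k2,k8),(k3,k8),(k0,k9)],[(k5,k7),(k2,k8),(k3,k8),(k0,k9)],
    [(k5,k6),(k2,k7),(k3,k7),(k0,k8)],[(k1,k8)],[(k10,k6)],[(k9,k6)],[(k6,k6)],[(k8,k6),(k11,k6)],[(k8,k6),(k11,k6)],
    [(k7,k6)]]
    [] k0
    [[k0,k0,k0,k1,k1,k1]]
    [.ref k0 k0 [(z1,[y1,z1])]]]⟩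

/-- classes `0 0 1 2 3 1`, types `S0 S0 N0 C0 S0 N2` -/
noncomputable def cT6_1828 : CertT :=
  ⟨[k0,k0,k28,k36,k48,k30],[],[[[]]],
    [.lp [k6,k8,k6,k6,k6,k6] [k1,k1,k0,k0,k1,k1,k1,k1,k1,k1,k1,k1] k0 [] k24 k5
    [[(k7,k6)],[(k0,k6),(k5,k6),(k2,k7),(k3,k7)],[(k0,k7),(k5,k7),(k2,k8),(k3,k8)],[(k0,k7),(k5,k7),(k2,k8),(k3,k8)],
    [(k0,k6),(k5,k6),(k2,k7),(k3,k7)],[(k10,k6)],[(k1,k6)],[(k9,k6)],[(k6,k6)],[(k8,k6),(k11,k6)],[(k8,k6),(k11,k6)],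
    [(k4,k6)]]
    [] k0
    []
    []]⟩

/-- classes `0 0 1 2 3 1`, types `S0 S0 N0 S0 S0 N1` -/
noncomputable def cT6_1829 : CertT :=
  ⟨[k0,k0,k28,k32,k48,k29],[(false,k0,[k0,k1,k2,k3,k4,k5])],[[[([z1,z1,z1,z0,z0,z0],z2)],[]]],
    [.leafM k0 [k2,k3,k4,k5,k0,k1] [(z1,[y1,z1])] [],
    .lp [k10,k8,k6,k6,k6,k6] [k0,k0,k1,k1,k2,k2,k2,k2,k2,k2,k2,k2] k0 [] k24 k5
    [[(k4,k8)],[(k5,k8),(k2,k9),(k3,k9),(k0,k10)],[(k5,k7),(k2,k8),(k3,k8),(k0,k9)],[(k5,k7),(k2,k8),(k3,k8),(k0,k9)],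
    [(k5,k6),(k2,k7),(k3,k7),(k0,k8)],[(k1,k8)],[(k10,k6)],[(k6,k6),(k9,k6)],[(k6,k6),(k9,k6)],[(k8,k6),(k11,k6)],
    [(k8,k6),(k11,k6)],[(k7,k6)]]
    [] k0
    [[k0,k0,k0,k1,k1,k1]]
    [.ref k0 k0 [(z1,[y1,z1])]]]⟩

/-- classes `0 0 1 2 3 1`, types `S0 S0 N0 S0 S0 N2` -/
noncomputable def cT6_1830 : CertT :=
  ⟨[k0,k0,k28,k32,k48,k30],[],[[[]]],
    [.lp [k6,k8,k6,k6,k6,k6] [k1,k1,k0,k0,k1,k1,k1,k1,k1,k1,k1,k1] k0 [] k24 k5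
    [[(k7,k6)],[(k0,k6),(k5,k6),(k2,k7),(k3,k7)],[(k0,k7),(k5,k7),(k2,k8),(k3,k8)],[(k0,k7),(k5,k7),(k2,k8),(k3,k8)],
    [(k0,k6),(k5,k6),(k2,k7),(k3,k7)],[(k10,k6)],[(k1,k6)],[(k6,k6),(k9,k6)],[(k6,k6),(k9,k6)],[(k8,k6),(k11,k6)],
    [(k8,k6),(k11,k6)],[(k4,k6)]]
    [] k0
    []
    []]⟩

/-- classes `0 0 1 2 3 1`, types `S0 S0 S0 C0 C0 S0` -/
noncomputable def cT6_1831 : CertT :=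
  ⟨[k0,k0,k16,k36,k52,k16],[(false,k0,[k0,k1,k2,k3,k4,k5])],[[[([z1,z1,z1,z0,z0,z0],z2)],[]]],
    [.leafM k0 [k2,k3,k4,k5,k0,k1] [(z1,[y1,z1])] [],
    .lp [k8,k8,k8,k6,k6,k6] [k0,k0,k0,k0,k0,k0,k1,k1,k1,k1,k1,k1] k0 [] k24 k5
    [[(k7,k7),(k10,k7),(k1,k8),(k4,k8)],[(k0,k8),(k2,k8),(k3,k8),(k5,k8)],[(k0,k8),(k2,k8),(k3,k8),(k5,k8)],[(k0,k8),
    (k2,k8),(k3,k8),(k5,k8)],[(k0,k8),(k2,k8),(k3,k8),(k5,k8)],[(k7,k7),(k10,k7),(k1,k8),(k4,k8)],[(k7,k6),(k10,k6),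
    (k1,k7),(k4,k7)],[(k9,k6)],[(k6,k6)],[(k11,k6)],[(k8,k6)],[(k7,k6),(k10,k6),(k1,k7),(k4,k7)]]
    [] k0
    [[k0,k0,k0,k1,k1,k1]]
    [.ref k0 k0 [(z1,[y1,z1])]]]⟩

/-- classes `0 0 1 2 3 1`, types `S0 S0 S0 C0 S0 S0` -/
noncomputable def cT6_1832 : CertT :=
  ⟨[k0,k0,k16,k36,k48,k16],[(false,k0,[k0,k1,k2,k3,k4,k5])],[[[([z1,z1,z1,z0,z0,z0],z2)],[]]],
    [.leafM k0 [k2,k3,k4,k5,k0,k1] [(z1,[y1,z1])] [],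
    .lp [k2,k4,k2,k2,k2,k2] [k1,k1,k0,k0,k1,k1,k1,k1,k1,k1,k1,k1] k0 [] k8 k5
    [[(k1,k2),(k4,k2),(k7,k2),(k10,k2)],[(k0,k2),(k5,k2),(k2,k3),(k3,k3)],[(k0,k3),(k5,k3),(k2,k4),(k3,k4)],[(k0,k3),
    (k5,k3),(k2,k4),(k3,k4)],[(k0,k2),(k5,k2),(k2,k3),(k3,k3)],[(k1,k2),(k4,k2),(k7,k2),(k10,k2)],[(k1,k2),(k4,k2),
    (k7,k2),(k10,k2)],[(k9,k2)],[(k6,k2)],[(k8,k2),(k11,k2)],[(k8,k2),(k11,k2)],[(k1,k2),(k4,k2),(k7,k2),(k10,k2)]]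
    [] k0
    [[k0,k0,k0,k1,k1,k1]]
    [.ref k0 k0 [(z1,[y1,z1])]]]⟩

/-- classes `0 0 1 2 3 4`, types `B0 B1 C0 C0 C0 C0` -/
noncomputable def cT6_1833 : CertT :=
  ⟨[k8,k9,k20,k36,k52,k68],[],[[[]]],
    [.lp [k6,k8,k6,k6,k6,k6] [k1,k1,k0,k0,k1,k1,k1,k1,k1,k1,k1,k1] k0 [] k24 k5
    [[(k10,k6)],[(k5,k6),(k2,k7)],[(k5,k7),(k2,k8)],[(k0,k7),(k3,k8)],[(k0,k6),(k3,k7)],[(k7,k6)],[(k4,k6)],[(k9,k6)],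
    [(k6,k6)],[(k11,k6)],[(k8,k6)],[(k1,k6)]]
    [] k0
    []
    []]⟩

/-- classes `0 0 1 2 3 4`, types `B0 B1 C0 C0 C0 S0` -/
noncomputable def cT6_1834 : CertT :=
  ⟨[k8,k9,k20,k36,k52,k64],[],[[[]]],
    [.lp [k6,k8,k6,k6,k6,k6] [k1,k1,k0,k0,k1,k1,k1,k1,k1,k1,k1,k1] k0 [] k24 k5
    [[(k1,k6),(k10,k6)],[(k5,k6),(k2,k7)],[(k5,k7),(k2,k8)],[(k0,k7),(k3,k8)],[(k0,k6),(k3,k7)],[(k7,k6)],[(k4,k6)],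
    [(k9,k6)],[(k6,k6)],[(k11,k6)],[(k8,k6)],[(k1,k6),(k10,k6)]]
    [] k0
    []
    []]⟩

/-- classes `0 0 1 2 3 4`, types `B0 B1 C0 C0 S0 C0` -/
noncomputable def cT6_1835 : CertT :=
  ⟨[k8,k9,k20,k36,k48,k68],[],[[[]]],
    [.lp [k6,k8,k6,k6,k6,k6] [k1,k1,k0,k0,k1,k1,k1,k1,k1,k1,k1,k1] k0 [] k24 k5
    [[(k10,k6)],[(k5,k6),(k2,k7)],[(k5,k7),(k2,k8)],[(k0,k7),(k3,k8)],[(k0,k6),(k3,k7)],[(k7,k6)],[(k4,k6)],[(k9,k6)],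
    [(k6,k6)],[(k8,k6),(k11,k6)],[(k8,k6),(k11,k6)],[(k1,k6)]]
    [] k0
    []
    []]⟩

/-- classes `0 0 1 2 3 4`, types `B0 B1 C0 C0 S0 S0` -/
noncomputable def cT6_1836 : CertT :=
  ⟨[k8,k9,k20,k36,k48,k64],[],[[[]]],
    [.lp [k6,k8,k6,k6,k6,k6] [k1,k1,k0,k0,k1,k1,k1,k1,k1,k1,k1,k1] k0 [] k24 k5
    [[(k1,k6),(k10,k6)],[(k5,k6),(k2,k7)],[(k5,k7),(k2,k8)],[(k0,k7),(k3,k8)],[(k0,k6),(k3,k7)],[(k7,k6)],[(k4,k6)],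
    [(k9,k6)],[(k6,k6)],[(k8,k6),(k11,k6)],[(k8,k6),(k11,k6)],[(k1,k6),(k10,k6)]]
    [] k0
    []
    []]⟩

/-- classes `0 0 1 2 3 4`, types `B0 B1 C0 S0 C0 S0` -/
noncomputable def cT6_1837 : CertT :=
  ⟨[k8,k9,k20,k32,k52,k64],[],[[[]]],
    [.lp [k6,k8,k6,k6,k6,k6] [k1,k1,k0,k0,k1,k1,k1,k1,k1,k1,k1,k1] k0 [] k24 k5
    [[(k1,k6),(k10,k6)],[(k5,k6),(k2,k7)],[(k5,k7),(k2,k8)],[(k0,k7),(k3,k8)],[(k0,k6),(k3,k7)],[(k7,k6)],[(k4,k6)],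
    [(k6,k6),(k9,k6)],[(k6,k6),(k9,k6)],[(k11,k6)],[(k8,k6)],[(k1,k6),(k10,k6)]]
    [] k0
    []
    []]⟩

/-- classes `0 0 1 2 3 4`, types `B0 B1 C0 S0 S0 C0` -/
noncomputable def cT6_1838 : CertT :=
  ⟨[k8,k9,k20,k32,k48,k68],[],[[[]]],
    [.lp [k6,k8,k6,k6,k6,k6] [k1,k1,k0,k0,k1,k1,k1,k1,k1,k1,k1,k1] k0 [] k24 k5
    [[(k10,k6)],[(k5,k6),(k2,k7)],[(k5,k7),(k2,k8)],[(k0,k7),(k3,k8)],[(k0,k6),(k3,k7)],[(k7,k6)],[(k4,k6)],[(k6,k6),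
    (k9,k6)],[(k6,k6),(k9,k6)],[(k8,k6),(k11,k6)],[(k8,k6),(k11,k6)],[(k1,k6)]]
    [] k0
    []
    []]⟩

/-- classes `0 0 1 2 3 4`, types `B0 B1 C0 S0 S0 S0` -/
noncomputable def cT6_1839 : CertT :=
  ⟨[k8,k9,k20,k32,k48,k64],[],[[[]]],
    [.lp [k6,k8,k6,k6,k6,k6] [k1,k1,k0,k0,k1,k1,k1,k1,k1,k1,k1,k1] k0 [] k24 k5
    [[(k1,k6),(k10,k6)],[(k5,k6),(k2,k7)],[(k5,k7),(k2,k8)],[(k0,k7),(k3,k8)],[(k0,k6),(k3,k7)],[(k7,k6)],[(k4,k6)],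
    [(k6,k6),(k9,k6)],[(k6,k6),(k9,k6)],[(k8,k6),(k11,k6)],[(k8,k6),(k11,k6)],[(k1,k6),(k10,k6)]]
    [] k0
    []
    []]⟩

/-- classes `0 0 1 2 3 4`, types `B0 B1 S0 C0 C0 S0` -/
noncomputable def cT6_1840 : CertT :=
  ⟨[k8,k9,k16,k36,k52,k64],[],[[[]]],
    [.lp [k6,k8,k6,k6,k6,k6] [k1,k1,k0,k0,k1,k1,k1,k1,k1,k1,k1,k1] k0 [] k24 k5
    [[(k1,k6),(k10,k6)],[(k5,k6),(k2,k7)],[(k5,k7),(k2,k8)],[(k0,k7),(k3,k8)],[(k0,k6),(k3,k7)],[(k4,k6),(k7,k6)],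
    [(k4,k6),(k7,k6)],[(k9,k6)],[(k6,k6)],[(k11,k6)],[(k8,k6)],[(k1,k6),(k10,k6)]]
    [] k0
    []
    []]⟩

/-- the certificates of this file -/
noncomputable def lT6_13 : List CertT :=
  [cT6_1615, cT6_1616, cT6_1617, cT6_1618, cT6_1619, cT6_1620, cT6_1621, cT6_1622, cT6_1623, cT6_1624,
      cT6_1625, cT6_1626, cT6_1627, cT6_1628, cT6_1629, cT6_1630, cT6_1631, cT6_1632, cT6_1633, cT6_1634,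
      cT6_1635, cT6_1636, cT6_1637, cT6_1638, cT6_1639, cT6_1640, cT6_1641, cT6_1642, cT6_1643, cT6_1644,
      cT6_1645, cT6_1646, cT6_1647, cT6_1648, cT6_1649, cT6_1650, cT6_1651, cT6_1652, cT6_1653, cT6_1654,
      cT6_1655, cT6_1656, cT6_1657, cT6_1658, cT6_1659, cT6_1660, cT6_1661, cT6_1662, cT6_1663, cT6_1664,
      cT6_1665, cT6_1666, cT6_1667, cT6_1668, cT6_1669, cT6_1670, cT6_1671, cT6_1672, cT6_1673, cT6_1674,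
      cT6_1675, cT6_1676, cT6_1677, cT6_1678, cT6_1679, cT6_1680, cT6_1681, cT6_1682, cT6_1683, cT6_1684,
      cT6_1685, cT6_1686, cT6_1687, cT6_1688, cT6_1689, cT6_1690, cT6_1691, cT6_1692, cT6_1693, cT6_1694,
      cT6_1695, cT6_1696, cT6_1697, cT6_1698, cT6_1699, cT6_1700, cT6_1701, cT6_1702, cT6_1703, cT6_1704,
      cT6_1705, cT6_1706, cT6_1707, cT6_1708, cT6_1709, cT6_1710, cT6_1711, cT6_1712, cT6_1713, cT6_1714,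
      cT6_1715, cT6_1716, cT6_1717, cT6_1718, cT6_1719, cT6_1720, cT6_1721, cT6_1722, cT6_1723, cT6_1724,
      cT6_1725, cT6_1726, cT6_1727, cT6_1728, cT6_1729, cT6_1730, cT6_1731, cT6_1732, cT6_1733, cT6_1734,
      cT6_1735, cT6_1736, cT6_1737, cT6_1738, cT6_1739, cT6_1740, cT6_1741, cT6_1742, cT6_1743, cT6_1744,
      cT6_1745, cT6_1746, cT6_1747, cT6_1748, cT6_1749, cT6_1750, cT6_1751, cT6_1752, cT6_1753, cT6_1754,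
      cT6_1755, cT6_1756, cT6_1757, cT6_1758, cT6_1759, cT6_1760, cT6_1761, cT6_1762, cT6_1763, cT6_1764,
      cT6_1765, cT6_1766, cT6_1767, cT6_1768, cT6_1769, cT6_1770, cT6_1771, cT6_1772, cT6_1773, cT6_1774,
      cT6_1775, cT6_1776, cT6_1777, cT6_1778, cT6_1779, cT6_1780, cT6_1781, cT6_1782, cT6_1783, cT6_1784,
      cT6_1785, cT6_1786, cT6_1787, cT6_1788, cT6_1789, cT6_1790, cT6_1791, cT6_1792, cT6_1793, cT6_1794,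
      cT6_1795, cT6_1796, cT6_1797, cT6_1798, cT6_1799, cT6_1800, cT6_1801, cT6_1802, cT6_1803, cT6_1804,
      cT6_1805, cT6_1806, cT6_1807, cT6_1808, cT6_1809, cT6_1810, cT6_1811, cT6_1812, cT6_1813, cT6_1814,
      cT6_1815, cT6_1816, cT6_1817, cT6_1818, cT6_1819, cT6_1820, cT6_1821, cT6_1822, cT6_1823, cT6_1824,
      cT6_1825, cT6_1826, cT6_1827, cT6_1828, cT6_1829, cT6_1830, cT6_1831, cT6_1832, cT6_1833, cT6_1834,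
      cT6_1835, cT6_1836, cT6_1837, cT6_1838, cT6_1839, cT6_1840]

theorem gT6_13 : allF (chkC 6 tt6) lT6_13 = true := by
  decide +kernel

end Pool.Agent.Lib_MP_fa6e45
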