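import Pool.Agent.Lib_MP_fa6e45.CSTT
import Pool.Agent.Lib_MP_fa6e45.HK

/-!
MP_fa6e45_co, stage 5: certificates (captain, generated by a program).
-/

namespace Pool.Agent.Lib_MP_fa6e45

/-- classes `0 0 1 2 3 4`, types `B0 B1 S0 C0 S0 S0` -/
noncomputable def cT6_1841 : CertT :=
  ⟨[k8,k9,k16,k36,k48,k64],[],[[[]]],
    [.lp [k6,k8,k6,k6,k6,k6] [k1,k1,k0,k0,k1,k1,k1,k1,k1,k1,k1,k1] k0 [] k24 k5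
    [[(k1,k6),(k10,k6)],[(k5,k6),(k2,k7)],[(k5,k7),(k2,k8)],[(k0,k7),(k3,k8)],[(k0,k6),(k3,k7)],[(k4,k6),(k7,k6)],
    [(k4,k6),(k7,k6)],[(k9,k6)],[(k6,k6)],[(k8,k6),(k11,k6)],[(k8,k6),(k11,k6)],[(k1,k6),(k10,k6)]]
    [] k0
    []
    []]⟩

/-- classes `0 0 1 2 3 4`, types `B0 B1 S0 S0 S0 S0` -/
noncomputable def cT6_1842 : CertT :=
  ⟨[k8,k9,k16,k32,k48,k64],[],[[[]]],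
    [.lp [k6,k8,k6,k6,k6,k6] [k1,k1,k0,k0,k1,k1,k1,k1,k1,k1,k1,k1] k0 [] k24 k5
    [[(k1,k6),(k10,k6)],[(k5,k6),(k2,k7)],[(k5,k7),(k2,k8)],[(k0,k7),(k3,k8)],[(k0,k6),(k3,k7)],[(k4,k6),(k7,k6)],
    [(k4,k6),(k7,k6)],[(k6,k6),(k9,k6)],[(k6,k6),(k9,k6)],[(k8,k6),(k11,k6)],[(k8,k6),(k11,k6)],[(k1,k6),(k10,k6)]]
    [] k0
    []
    []]⟩

/-- classes `0 0 1 2 3 4`, types `C0 C0 C0 C0 C0 C0` -/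
noncomputable def cT6_1843 : CertT :=
  ⟨[k4,k4,k20,k36,k52,k68],[],[[[]]],
    [.lp [k6,k8,k6,k6,k6,k6] [k1,k1,k0,k0,k1,k1,k1,k1,k1,k1,k1,k1] k0 [] k24 k5
    [[(k10,k6)],[(k5,k6),(k3,k7)],[(k0,k7),(k2,k8)],[(k5,k7),(k3,k8)],[(k0,k6),(k2,k7)],[(k7,k6)],[(k4,k6)],[(k9,k6)],
    [(k6,k6)],[(k11,k6)],[(k8,k6)],[(k1,k6)]]
    [] k0
    []
    []]⟩

/-- classes `0 0 1 2 3 4`, types `C0 C0 C0 C0 C0 S0` -/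
noncomputable def cT6_1844 : CertT :=
  ⟨[k4,k4,k20,k36,k52,k64],[],[[[]]],
    [.lp [k6,k8,k6,k6,k6,k6] [k1,k1,k0,k0,k1,k1,k1,k1,k1,k1,k1,k1] k0 [] k24 k5
    [[(k1,k6),(k10,k6)],[(k5,k6),(k3,k7)],[(k0,k7),(k2,k8)],[(k5,k7),(k3,k8)],[(k0,k6),(k2,k7)],[(k7,k6)],[(k4,k6)],
    [(k9,k6)],[(k6,k6)],[(k11,k6)],[(k8,k6)],[(k1,k6),(k10,k6)]]
    [] k0
    []
    []]⟩

/-- classes `0 0 1 2 3 4`, types `C0 C0 C0 C0 S0 C0` -/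
noncomputable def cT6_1845 : CertT :=
  ⟨[k4,k4,k20,k36,k48,k68],[],[[[]]],
    [.lp [k6,k8,k6,k6,k6,k6] [k1,k1,k0,k0,k1,k1,k1,k1,k1,k1,k1,k1] k0 [] k24 k5
    [[(k10,k6)],[(k5,k6),(k3,k7)],[(k0,k7),(k2,k8)],[(k5,k7),(k3,k8)],[(k0,k6),(k2,k7)],[(k7,k6)],[(k4,k6)],[(k9,k6)],
    [(k6,k6)],[(k8,k6),(k11,k6)],[(k8,k6),(k11,k6)],[(k1,k6)]]
    [] k0
    []
    []]⟩

/-- classes `0 0 1 2 3 4`, types `C0 C0 C0 C0 S0 S0` -/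
noncomputable def cT6_1846 : CertT :=
  ⟨[k4,k4,k20,k36,k48,k64],[],[[[]]],
    [.lp [k6,k8,k6,k6,k6,k6] [k1,k1,k0,k0,k1,k1,k1,k1,k1,k1,k1,k1] k0 [] k24 k5
    [[(k1,k6),(k10,k6)],[(k5,k6),(k3,k7)],[(k0,k7),(k2,k8)],[(k5,k7),(k3,k8)],[(k0,k6),(k2,k7)],[(k7,k6)],[(k4,k6)],
    [(k9,k6)],[(k6,k6)],[(k8,k6),(k11,k6)],[(k8,k6),(k11,k6)],[(k1,k6),(k10,k6)]]
    [] k0
    []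
    []]⟩

/-- classes `0 0 1 2 3 4`, types `C0 C0 C0 S0 C0 S0` -/
noncomputable def cT6_1847 : CertT :=
  ⟨[k4,k4,k20,k32,k52,k64],[],[[[]]],
    [.lp [k6,k8,k6,k6,k6,k6] [k1,k1,k0,k0,k1,k1,k1,k1,k1,k1,k1,k1] k0 [] k24 k5
    [[(k1,k6),(k10,k6)],[(k5,k6),(k3,k7)],[(k0,k7),(k2,k8)],[(k5,k7),(k3,k8)],[(k0,k6),(k2,k7)],[(k7,k6)],[(k4,k6)],
    [(k6,k6),(k9,k6)],[(k6,k6),(k9,k6)],[(k11,k6)],[(k8,k6)],[(k1,k6),(k10,k6)]]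
    [] k0
    []
    []]⟩

/-- classes `0 0 1 2 3 4`, types `C0 C0 C0 S0 S0 C0` -/
noncomputable def cT6_1848 : CertT :=
  ⟨[k4,k4,k20,k32,k48,k68],[],[[[]]],
    [.lp [k6,k8,k6,k6,k6,k6] [k1,k1,k0,k0,k1,k1,k1,k1,k1,k1,k1,k1] k0 [] k24 k5
    [[(k10,k6)],[(k5,k6),(k3,k7)],[(k0,k7),(k2,k8)],[(k5,k7),(k3,k8)],[(k0,k6),(k2,k7)],[(k7,k6)],[(k4,k6)],[(k6,k6),
    (k9,k6)],[(k6,k6),(k9,k6)],[(k8,k6),(k11,k6)],[(k8,k6),(k11,k6)],[(k1,k6)]]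
    [] k0
    []
    []]⟩

/-- classes `0 0 1 2 3 4`, types `C0 C0 C0 S0 S0 S0` -/
noncomputable def cT6_1849 : CertT :=
  ⟨[k4,k4,k20,k32,k48,k64],[],[[[]]],
    [.lp [k6,k8,k6,k6,k6,k6] [k1,k1,k0,k0,k1,k1,k1,k1,k1,k1,k1,k1] k0 [] k24 k5
    [[(k1,k6),(k10,k6)],[(k5,k6),(k3,k7)],[(k0,k7),(k2,k8)],[(k5,k7),(k3,k8)],[(k0,k6),(k2,k7)],[(k7,k6)],[(k4,k6)],
    [(k6,k6),(k9,k6)],[(k6,k6),(k9,k6)],[(k8,k6),(k11,k6)],[(k8,k6),(k11,k6)],[(k1,k6),(k10,k6)]]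
    [] k0
    []
    []]⟩

/-- classes `0 0 1 2 3 4`, types `C0 C0 S0 C0 C0 S0` -/
noncomputable def cT6_1850 : CertT :=
  ⟨[k4,k4,k16,k36,k52,k64],[],[[[]]],
    [.lp [k6,k8,k6,k6,k6,k6] [k1,k1,k0,k0,k1,k1,k1,k1,k1,k1,k1,k1] k0 [] k24 k5
    [[(k1,k6),(k10,k6)],[(k5,k6),(k3,k7)],[(k0,k7),(k2,k8)],[(k5,k7),(k3,k8)],[(k0,k6),(k2,k7)],[(k4,k6),(k7,k6)],
    [(k4,k6),(k7,k6)],[(k9,k6)],[(k6,k6)],[(k11,k6)],[(k8,k6)],[(k1,k6),(k10,k6)]]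
    [] k0
    []
    []]⟩

/-- classes `0 0 1 2 3 4`, types `C0 C0 S0 C0 S0 S0` -/
noncomputable def cT6_1851 : CertT :=
  ⟨[k4,k4,k16,k36,k48,k64],[],[[[]]],
    [.lp [k6,k8,k6,k6,k6,k6] [k1,k1,k0,k0,k1,k1,k1,k1,k1,k1,k1,k1] k0 [] k24 k5
    [[(k1,k6),(k10,k6)],[(k5,k6),(k3,k7)],[(k0,k7),(k2,k8)],[(k5,k7),(k3,k8)],[(k0,k6),(k2,k7)],[(k4,k6),(k7,k6)],
    [(k4,k6),(k7,k6)],[(k9,k6)],[(k6,k6)],[(k8,k6),(k11,k6)],[(k8,k6),(k11,k6)],[(k1,k6),(k10,k6)]]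
    [] k0
    []
    []]⟩

/-- classes `0 0 1 2 3 4`, types `C0 C0 S0 S0 S0 S0` -/
noncomputable def cT6_1852 : CertT :=
  ⟨[k4,k4,k16,k32,k48,k64],[],[[[]]],
    [.lp [k6,k8,k6,k6,k6,k6] [k1,k1,k0,k0,k1,k1,k1,k1,k1,k1,k1,k1] k0 [] k24 k5
    [[(k1,k6),(k10,k6)],[(k5,k6),(k3,k7)],[(k0,k7),(k2,k8)],[(k5,k7),(k3,k8)],[(k0,k6),(k2,k7)],[(k4,k6),(k7,k6)],
    [(k4,k6),(k7,k6)],[(k6,k6),(k9,k6)],[(k6,k6),(k9,k6)],[(k8,k6),(k11,k6)],[(k8,k6),(k11,k6)],[(k1,k6),(k10,k6)]]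
    [] k0
    []
    []]⟩

/-- classes `0 0 1 2 3 4`, types `C0 C2 C0 C0 C0 C0` -/
noncomputable def cT6_1853 : CertT :=
  ⟨[k4,k6,k20,k36,k52,k68],[],[[[]]],
    [.lp [k0,k2,k0,k2,k0,k2] [k1,k1,k0,k0,k1,k1,k0,k0,k1,k1,k0,k0] k0 [] k4 k5
    [[(k10,k1)],[(k2,k1),(k3,k1)],[(k0,k1),(k5,k1)],[(k0,k1),(k5,k1)],[(k2,k1),(k3,k1)],[(k7,k1)],[(k4,k1)],[(k9,k1)],
    [(k6,k1)],[(k11,k1)],[(k8,k1)],[(k1,k1)]]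
    [] k0
    []
    []]⟩

/-- classes `0 0 1 2 3 4`, types `C0 C2 C0 C0 C0 S0` -/
noncomputable def cT6_1854 : CertT :=
  ⟨[k4,k6,k20,k36,k52,k64],[],[[[]]],
    [.lp [k6,k4,k4,k4,k4,k4] [k0,k0,k1,k1,k1,k1,k1,k1,k1,k1,k1,k1] k0 [] k16 k5
    [[(k10,k5),(k1,k6)],[(k2,k5),(k3,k5)],[(k5,k4),(k0,k5)],[(k5,k4),(k0,k5)],[(k2,k4),(k3,k4)],[(k7,k4)],[(k4,k4)],
    [(k9,k4)],[(k6,k4)],[(k11,k4)],[(k8,k4)],[(k10,k4),(k1,k5)]]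
    [] k0
    []
    []]⟩

/-- classes `0 0 1 2 3 4`, types `C0 C2 C0 C0 S0 C0` -/
noncomputable def cT6_1855 : CertT :=
  ⟨[k4,k6,k20,k36,k48,k68],[],[[[]]],
    [.lp [k2,k2,k2,k2,k2,k2] [k0,k0,k0,k0,k0,k0,k0,k0,k0,k0,k0,k0] k0 [] k8 k5
    [[(k10,k2)],[(k2,k2),(k3,k2)],[(k0,k2),(k5,k2)],[(k0,k2),(k5,k2)],[(k2,k2),(k3,k2)],[(k7,k2)],[(k4,k2)],[(k9,k2)],
    [(k6,k2)],[(k8,k2),(k11,k2)],[(k8,k2),(k11,k2)],[(k1,k2)]]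
    [] k0
    []
    []]⟩

/-- classes `0 0 1 2 3 4`, types `C0 C2 C0 C0 S0 S0` -/
noncomputable def cT6_1856 : CertT :=
  ⟨[k4,k6,k20,k36,k48,k64],[],[[[]]],
    [.lp [k6,k4,k4,k4,k4,k4] [k0,k0,k1,k1,k1,k1,k1,k1,k1,k1,k1,k1] k0 [] k16 k5
    [[(k10,k5),(k1,k6)],[(k2,k5),(k3,k5)],[(k5,k4),(k0,k5)],[(k5,k4),(k0,k5)],[(k2,k4),(k3,k4)],[(k7,k4)],[(k4,k4)],
    [(k9,k4)],[(k6,k4)],[(k8,k4),(k11,k4)],[(k8,k4),(k11,k4)],[(k10,k4),(k1,k5)]]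
    [] k0
    []
    []]⟩

/-- classes `0 0 1 2 3 4`, types `C0 C2 C0 S0 C0 S0` -/
noncomputable def cT6_1857 : CertT :=
  ⟨[k4,k6,k20,k32,k52,k64],[],[[[]]],
    [.lp [k6,k4,k4,k4,k4,k4] [k0,k0,k1,k1,k1,k1,k1,k1,k1,k1,k1,k1] k0 [] k16 k5
    [[(k10,k5),(k1,k6)],[(k2,k5),(k3,k5)],[(k5,k4),(k0,k5)],[(k5,k4),(k0,k5)],[(k2,k4),(k3,k4)],[(k7,k4)],[(k4,k4)],
    [(k6,k4),(k9,k4)],[(k6,k4),(k9,k4)],[(k11,k4)],[(k8,k4)],[(k10,k4),(k1,k5)]]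
    [] k0
    []
    []]⟩

/-- classes `0 0 1 2 3 4`, types `C0 C2 C0 S0 S0 C0` -/
noncomputable def cT6_1858 : CertT :=
  ⟨[k4,k6,k20,k32,k48,k68],[],[[[]]],
    [.lp [k2,k2,k2,k2,k2,k2] [k0,k0,k0,k0,k0,k0,k0,k0,k0,k0,k0,k0] k0 [] k8 k5
    [[(k10,k2)],[(k2,k2),(k3,k2)],[(k0,k2),(k5,k2)],[(k0,k2),(k5,k2)],[(k2,k2),(k3,k2)],[(k7,k2)],[(k4,k2)],[(k6,k2),
    (k9,k2)],[(k6,k2),(k9,k2)],[(k8,k2),(k11,k2)],[(k8,k2),(k11,k2)],[(k1,k2)]]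
    [] k0
    []
    []]⟩

/-- classes `0 0 1 2 3 4`, types `C0 C2 C0 S0 S0 S0` -/
noncomputable def cT6_1859 : CertT :=
  ⟨[k4,k6,k20,k32,k48,k64],[],[[[]]],
    [.lp [k6,k4,k4,k4,k4,k4] [k0,k0,k1,k1,k1,k1,k1,k1,k1,k1,k1,k1] k0 [] k16 k5
    [[(k10,k5),(k1,k6)],[(k2,k5),(k3,k5)],[(k5,k4),(k0,k5)],[(k5,k4),(k0,k5)],[(k2,k4),(k3,k4)],[(k7,k4)],[(k4,k4)],
    [(k6,k4),(k9,k4)],[(k6,k4),(k9,k4)],[(k8,k4),(k11,k4)],[(k8,k4),(k11,k4)],[(k10,k4),(k1,k5)]]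
    [] k0
    []
    []]⟩

/-- classes `0 0 1 2 3 4`, types `C0 C2 S0 C0 C0 S0` -/
noncomputable def cT6_1860 : CertT :=
  ⟨[k4,k6,k16,k36,k52,k64],[],[[[]]],
    [.lp [k4,k0,k4,k2,k2,k2] [k0,k0,k2,k2,k0,k0,k1,k1,k1,k1,k1,k1] k0 [] k8 k5
    [[(k10,k3),(k1,k4)],[(k2,k2),(k3,k2)],[(k0,k2),(k5,k2)],[(k0,k2),(k5,k2)],[(k2,k2),(k3,k2)],[(k7,k3),(k4,k4)],
    [(k7,k2),(k4,k3)],[(k9,k2)],[(k6,k2)],[(k11,k2)],[(k8,k2)],[(k10,k2),(k1,k3)]]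
    [] k0
    []
    []]⟩

/-- classes `0 0 1 2 3 4`, types `C0 C2 S0 C0 S0 S0` -/
noncomputable def cT6_1861 : CertT :=
  ⟨[k4,k6,k16,k36,k48,k64],[],[[[]]],
    [.lp [k4,k0,k4,k2,k2,k2] [k0,k0,k2,k2,k0,k0,k1,k1,k1,k1,k1,k1] k0 [] k8 k5
    [[(k10,k3),(k1,k4)],[(k2,k2),(k3,k2)],[(k0,k2),(k5,k2)],[(k0,k2),(k5,k2)],[(k2,k2),(k3,k2)],[(k7,k3),(k4,k4)],
    [(k7,k2),(k4,k3)],[(k9,k2)],[(k6,k2)],[(k8,k2),(k11,k2)],[(k8,k2),(k11,k2)],[(k10,k2),(k1,k3)]]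
    [] k0
    []
    []]⟩

/-- classes `0 0 1 2 3 4`, types `C0 C2 S0 S0 S0 S0` -/
noncomputable def cT6_1862 : CertT :=
  ⟨[k4,k6,k16,k32,k48,k64],[],[[[]]],
    [.lp [k2,k4,k2,k2,k2,k2] [k1,k1,k0,k0,k1,k1,k1,k1,k1,k1,k1,k1] k0 [] k8 k5
    [[(k1,k2),(k10,k2)],[(k2,k3),(k3,k3)],[(k0,k3),(k5,k3)],[(k0,k3),(k5,k3)],[(k2,k3),(k3,k3)],[(k4,k2),(k7,k2)],
    [(k4,k2),(k7,k2)],[(k6,k2),(k9,k2)],[(k6,k2),(k9,k2)],[(k8,k2),(k11,k2)],[(k8,k2),(k11,k2)],[(k1,k2),(k10,k2)]]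
    [] k0
    []
    []]⟩

/-- classes `0 0 1 2 3 4`, types `N0 N1 C0 C0 C0 C0` -/
noncomputable def cT6_1863 : CertT :=
  ⟨[k12,k13,k20,k36,k52,k68],[],[[[]]],
    [.lp [k6,k8,k6,k6,k6,k6] [k1,k1,k0,k0,k1,k1,k1,k1,k1,k1,k1,k1] k0 [] k24 k5
    [[(k10,k6)],[(k5,k6)],[(k2,k8)],[(k3,k8)],[(k0,k6)],[(k7,k6)],[(k4,k6)],[(k9,k6)],[(k6,k6)],[(k11,k6)],[(k8,k6)],
    [(k1,k6)]]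
    [] k0
    []
    []]⟩

/-- classes `0 0 1 2 3 4`, types `N0 N1 C0 C0 C0 S0` -/
noncomputable def cT6_1864 : CertT :=
  ⟨[k12,k13,k20,k36,k52,k64],[],[[[]]],
    [.lp [k6,k8,k6,k6,k6,k6] [k1,k1,k0,k0,k1,k1,k1,k1,k1,k1,k1,k1] k0 [] k24 k5
    [[(k1,k6),(k10,k6)],[(k5,k6)],[(k2,k8)],[(k3,k8)],[(k0,k6)],[(k7,k6)],[(k4,k6)],[(k9,k6)],[(k6,k6)],[(k11,k6)],
    [(k8,k6)],[(k1,k6),(k10,k6)]]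
    [] k0
    []
    []]⟩

/-- classes `0 0 1 2 3 4`, types `N0 N1 C0 C0 S0 C0` -/
noncomputable def cT6_1865 : CertT :=
  ⟨[k12,k13,k20,k36,k48,k68],[],[[[]]],
    [.lp [k6,k8,k6,k6,k6,k6] [k1,k1,k0,k0,k1,k1,k1,k1,k1,k1,k1,k1] k0 [] k24 k5
    [[(k10,k6)],[(k5,k6)],[(k2,k8)],[(k3,k8)],[(k0,k6)],[(k7,k6)],[(k4,k6)],[(k9,k6)],[(k6,k6)],[(k8,k6),(k11,k6)],
    [(k8,k6),(k11,k6)],[(k1,k6)]]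
    [] k0
    []
    []]⟩

/-- classes `0 0 1 2 3 4`, types `N0 N1 C0 C0 S0 S0` -/
noncomputable def cT6_1866 : CertT :=
  ⟨[k12,k13,k20,k36,k48,k64],[],[[[]]],
    [.lp [k6,k8,k6,k6,k6,k6] [k1,k1,k0,k0,k1,k1,k1,k1,k1,k1,k1,k1] k0 [] k24 k5
    [[(k1,k6),(k10,k6)],[(k5,k6)],[(k2,k8)],[(k3,k8)],[(k0,k6)],[(k7,k6)],[(k4,k6)],[(k9,k6)],[(k6,k6)],[(k8,k6),(k11,
    k6)],[(k8,k6),(k11,k6)],[(k1,k6),(k10,k6)]]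
    [] k0
    []
    []]⟩

/-- classes `0 0 1 2 3 4`, types `N0 N1 C0 S0 C0 S0` -/
noncomputable def cT6_1867 : CertT :=
  ⟨[k12,k13,k20,k32,k52,k64],[],[[[]]],
    [.lp [k6,k8,k6,k6,k6,k6] [k1,k1,k0,k0,k1,k1,k1,k1,k1,k1,k1,k1] k0 [] k24 k5
    [[(k1,k6),(k10,k6)],[(k5,k6)],[(k2,k8)],[(k3,k8)],[(k0,k6)],[(k7,k6)],[(k4,k6)],[(k6,k6),(k9,k6)],[(k6,k6),(k9,
    k6)],[(k11,k6)],[(k8,k6)],[(k1,k6),(k10,k6)]]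
    [] k0
    []
    []]⟩

/-- classes `0 0 1 2 3 4`, types `N0 N1 C0 S0 S0 C0` -/
noncomputable def cT6_1868 : CertT :=
  ⟨[k12,k13,k20,k32,k48,k68],[],[[[]]],
    [.lp [k6,k8,k6,k6,k6,k6] [k1,k1,k0,k0,k1,k1,k1,k1,k1,k1,k1,k1] k0 [] k24 k5
    [[(k10,k6)],[(k5,k6)],[(k2,k8)],[(k3,k8)],[(k0,k6)],[(k7,k6)],[(k4,k6)],[(k6,k6),(k9,k6)],[(k6,k6),(k9,k6)],[(k8,
    k6),(k11,k6)],[(k8,k6),(k11,k6)],[(k1,k6)]]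
    [] k0
    []
    []]⟩

/-- classes `0 0 1 2 3 4`, types `N0 N1 C0 S0 S0 S0` -/
noncomputable def cT6_1869 : CertT :=
  ⟨[k12,k13,k20,k32,k48,k64],[],[[[]]],
    [.lp [k6,k8,k6,k6,k6,k6] [k1,k1,k0,k0,k1,k1,k1,k1,k1,k1,k1,k1] k0 [] k24 k5
    [[(k1,k6),(k10,k6)],[(k5,k6)],[(k2,k8)],[(k3,k8)],[(k0,k6)],[(k7,k6)],[(k4,k6)],[(k6,k6),(k9,k6)],[(k6,k6),(k9,
    k6)],[(k8,k6),(k11,k6)],[(k8,k6),(k11,k6)],[(k1,k6),(k10,k6)]]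
    [] k0
    []
    []]⟩

/-- classes `0 0 1 2 3 4`, types `N0 N1 S0 C0 C0 S0` -/
noncomputable def cT6_1870 : CertT :=
  ⟨[k12,k13,k16,k36,k52,k64],[],[[[]]],
    [.lp [k6,k8,k6,k6,k6,k6] [k1,k1,k0,k0,k1,k1,k1,k1,k1,k1,k1,k1] k0 [] k24 k5
    [[(k1,k6),(k10,k6)],[(k5,k6)],[(k2,k8)],[(k3,k8)],[(k0,k6)],[(k4,k6),(k7,k6)],[(k4,k6),(k7,k6)],[(k9,k6)],[(k6,
    k6)],[(k11,k6)],[(k8,k6)],[(k1,k6),(k10,k6)]]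
    [] k0
    []
    []]⟩

/-- classes `0 0 1 2 3 4`, types `N0 N1 S0 C0 S0 S0` -/
noncomputable def cT6_1871 : CertT :=
  ⟨[k12,k13,k16,k36,k48,k64],[],[[[]]],
    [.lp [k6,k8,k6,k6,k6,k6] [k1,k1,k0,k0,k1,k1,k1,k1,k1,k1,k1,k1] k0 [] k24 k5
    [[(k1,k6),(k10,k6)],[(k5,k6)],[(k2,k8)],[(k3,k8)],[(k0,k6)],[(k4,k6),(k7,k6)],[(k4,k6),(k7,k6)],[(k9,k6)],[(k6,
    k6)],[(k8,k6),(k11,k6)],[(k8,k6),(k11,k6)],[(k1,k6),(k10,k6)]]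
    [] k0
    []
    []]⟩

/-- classes `0 0 1 2 3 4`, types `N0 N1 S0 S0 S0 S0` -/
noncomputable def cT6_1872 : CertT :=
  ⟨[k12,k13,k16,k32,k48,k64],[],[[[]]],
    [.lp [k6,k8,k6,k6,k6,k6] [k1,k1,k0,k0,k1,k1,k1,k1,k1,k1,k1,k1] k0 [] k24 k5
    [[(k1,k6),(k10,k6)],[(k5,k6)],[(k2,k8)],[(k3,k8)],[(k0,k6)],[(k4,k6),(k7,k6)],[(k4,k6),(k7,k6)],[(k6,k6),(k9,k6)],
    [(k6,k6),(k9,k6)],[(k8,k6),(k11,k6)],[(k8,k6),(k11,k6)],[(k1,k6),(k10,k6)]]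
    [] k0
    []
    []]⟩

/-- classes `0 0 1 2 3 4`, types `N0 N2 C0 C0 C0 C0` -/
noncomputable def cT6_1873 : CertT :=
  ⟨[k12,k14,k20,k36,k52,k68],[],[[[]]],
    [.lp [k0,k2,k0,k2,k0,k2] [k1,k1,k0,k0,k1,k1,k0,k0,k1,k1,k0,k0] k0 [] k4 k5
    [[(k10,k1)],[(k2,k1)],[(k5,k1)],[(k0,k1)],[(k3,k1)],[(k7,k1)],[(k4,k1)],[(k9,k1)],[(k6,k1)],[(k11,k1)],[(k8,k1)],
    [(k1,k1)]]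
    [] k0
    []
    []]⟩

/-- classes `0 0 1 2 3 4`, types `N0 N2 C0 C0 C0 S0` -/
noncomputable def cT6_1874 : CertT :=
  ⟨[k12,k14,k20,k36,k52,k64],[],[[[]]],
    [.lp [k2,k2,k2,k2,k2,k2] [k0,k0,k0,k0,k0,k0,k0,k0,k0,k0,k0,k0] k0 [] k8 k5
    [[(k1,k2),(k10,k2)],[(k2,k2)],[(k5,k2)],[(k0,k2)],[(k3,k2)],[(k7,k2)],[(k4,k2)],[(k9,k2)],[(k6,k2)],[(k11,k2)],
    [(k8,k2)],[(k1,k2),(k10,k2)]]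
    [] k0
    []
    []]⟩

/-- classes `0 0 1 2 3 4`, types `N0 N2 C0 C0 S0 C0` -/
noncomputable def cT6_1875 : CertT :=
  ⟨[k12,k14,k20,k36,k48,k68],[],[[[]]],
    [.lp [k2,k2,k2,k2,k2,k2] [k0,k0,k0,k0,k0,k0,k0,k0,k0,k0,k0,k0] k0 [] k8 k5
    [[(k10,k2)],[(k2,k2)],[(k5,k2)],[(k0,k2)],[(k3,k2)],[(k7,k2)],[(k4,k2)],[(k9,k2)],[(k6,k2)],[(k8,k2),(k11,k2)],
    [(k8,k2),(k11,k2)],[(k1,k2)]]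
    [] k0
    []
    []]⟩

/-- classes `0 0 1 2 3 4`, types `N0 N2 C0 C0 S0 S0` -/
noncomputable def cT6_1876 : CertT :=
  ⟨[k12,k14,k20,k36,k48,k64],[],[[[]]],
    [.lp [k2,k2,k2,k2,k2,k2] [k0,k0,k0,k0,k0,k0,k0,k0,k0,k0,k0,k0] k0 [] k8 k5
    [[(k1,k2),(k10,k2)],[(k2,k2)],[(k5,k2)],[(k0,k2)],[(k3,k2)],[(k7,k2)],[(k4,k2)],[(k9,k2)],[(k6,k2)],[(k8,k2),(k11,
    k2)],[(k8,k2),(k11,k2)],[(k1,k2),(k10,k2)]]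
    [] k0
    []
    []]⟩

/-- classes `0 0 1 2 3 4`, types `N0 N2 C0 S0 C0 S0` -/
noncomputable def cT6_1877 : CertT :=
  ⟨[k12,k14,k20,k32,k52,k64],[],[[[]]],
    [.lp [k2,k2,k2,k2,k2,k2] [k0,k0,k0,k0,k0,k0,k0,k0,k0,k0,k0,k0] k0 [] k8 k5
    [[(k1,k2),(k10,k2)],[(k2,k2)],[(k5,k2)],[(k0,k2)],[(k3,k2)],[(k7,k2)],[(k4,k2)],[(k6,k2),(k9,k2)],[(k6,k2),(k9,
    k2)],[(k11,k2)],[(k8,k2)],[(k1,k2),(k10,k2)]]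
    [] k0
    []
    []]⟩

/-- classes `0 0 1 2 3 4`, types `N0 N2 C0 S0 S0 C0` -/
noncomputable def cT6_1878 : CertT :=
  ⟨[k12,k14,k20,k32,k48,k68],[],[[[]]],
    [.lp [k2,k2,k2,k2,k2,k2] [k0,k0,k0,k0,k0,k0,k0,k0,k0,k0,k0,k0] k0 [] k8 k5
    [[(k10,k2)],[(k2,k2)],[(k5,k2)],[(k0,k2)],[(k3,k2)],[(k7,k2)],[(k4,k2)],[(k6,k2),(k9,k2)],[(k6,k2),(k9,k2)],[(k8,
    k2),(k11,k2)],[(k8,k2),(k11,k2)],[(k1,k2)]]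
    [] k0
    []
    []]⟩

/-- classes `0 0 1 2 3 4`, types `N0 N2 C0 S0 S0 S0` -/
noncomputable def cT6_1879 : CertT :=
  ⟨[k12,k14,k20,k32,k48,k64],[],[[[]]],
    [.lp [k2,k2,k2,k2,k2,k2] [k0,k0,k0,k0,k0,k0,k0,k0,k0,k0,k0,k0] k0 [] k8 k5
    [[(k1,k2),(k10,k2)],[(k2,k2)],[(k5,k2)],[(k0,k2)],[(k3,k2)],[(k7,k2)],[(k4,k2)],[(k6,k2),(k9,k2)],[(k6,k2),(k9,
    k2)],[(k8,k2),(k11,k2)],[(k8,k2),(k11,k2)],[(k1,k2),(k10,k2)]]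
    [] k0
    []
    []]⟩

/-- classes `0 0 1 2 3 4`, types `N0 N2 S0 C0 C0 S0` -/
noncomputable def cT6_1880 : CertT :=
  ⟨[k12,k14,k16,k36,k52,k64],[],[[[]]],
    [.lp [k2,k2,k2,k2,k2,k2] [k0,k0,k0,k0,k0,k0,k0,k0,k0,k0,k0,k0] k0 [] k8 k5
    [[(k1,k2),(k10,k2)],[(k2,k2)],[(k5,k2)],[(k0,k2)],[(k3,k2)],[(k4,k2),(k7,k2)],[(k4,k2),(k7,k2)],[(k9,k2)],[(k6,
    k2)],[(k11,k2)],[(k8,k2)],[(k1,k2),(k10,k2)]]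
    [] k0
    []
    []]⟩

/-- classes `0 0 1 2 3 4`, types `N0 N2 S0 C0 S0 S0` -/
noncomputable def cT6_1881 : CertT :=
  ⟨[k12,k14,k16,k36,k48,k64],[],[[[]]],
    [.lp [k2,k2,k2,k2,k2,k2] [k0,k0,k0,k0,k0,k0,k0,k0,k0,k0,k0,k0] k0 [] k8 k5
    [[(k1,k2),(k10,k2)],[(k2,k2)],[(k5,k2)],[(k0,k2)],[(k3,k2)],[(k4,k2),(k7,k2)],[(k4,k2),(k7,k2)],[(k9,k2)],[(k6,
    k2)],[(k8,k2),(k11,k2)],[(k8,k2),(k11,k2)],[(k1,k2),(k10,k2)]]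
    [] k0
    []
    []]⟩

/-- classes `0 0 1 2 3 4`, types `N0 N2 S0 S0 S0 S0` -/
noncomputable def cT6_1882 : CertT :=
  ⟨[k12,k14,k16,k32,k48,k64],[],[[[]]],
    [.lp [k2,k2,k2,k2,k2,k2] [k0,k0,k0,k0,k0,k0,k0,k0,k0,k0,k0,k0] k0 [] k8 k5
    [[(k1,k2),(k10,k2)],[(k2,k2)],[(k5,k2)],[(k0,k2)],[(k3,k2)],[(k4,k2),(k7,k2)],[(k4,k2),(k7,k2)],[(k6,k2),(k9,k2)],
    [(k6,k2),(k9,k2)],[(k8,k2),(k11,k2)],[(k8,k2),(k11,k2)],[(k1,k2),(k10,k2)]]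
    [] k0
    []
    []]⟩

/-- classes `0 0 1 2 3 4`, types `S0 S0 C0 C0 C0 C0` -/
noncomputable def cT6_1883 : CertT :=
  ⟨[k0,k0,k20,k36,k52,k68],[],[[[]]],
    [.lp [k6,k8,k6,k6,k6,k6] [k1,k1,k0,k0,k1,k1,k1,k1,k1,k1,k1,k1] k0 [] k24 k5
    [[(k10,k6)],[(k0,k6),(k5,k6),(k2,k7),(k3,k7)],[(k0,k7),(k5,k7),(k2,k8),(k3,k8)],[(k0,k7),(k5,k7),(k2,k8),(k3,k8)],
    [(k0,k6),(k5,k6),(k2,k7),(k3,k7)],[(k7,k6)],[(k4,k6)],[(k9,k6)],[(k6,k6)],[(k11,k6)],[(k8,k6)],[(k1,k6)]]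
    [] k0
    []
    []]⟩

/-- classes `0 0 1 2 3 4`, types `S0 S0 C0 C0 C0 S0` -/
noncomputable def cT6_1884 : CertT :=
  ⟨[k0,k0,k20,k36,k52,k64],[],[[[]]],
    [.lp [k8,k8,k6,k6,k6,k6] [k0,k0,k0,k0,k1,k1,k1,k1,k1,k1,k1,k1] k0 [] k24 k5
    [[(k10,k7),(k1,k8)],[(k5,k7),(k0,k8),(k2,k8),(k3,k8)],[(k5,k7),(k0,k8),(k2,k8),(k3,k8)],[(k5,k7),(k0,k8),(k2,k8),
    (k3,k8)],[(k5,k6),(k0,k7),(k2,k7),(k3,k7)],[(k7,k6)],[(k4,k6)],[(k9,k6)],[(k6,k6)],[(k11,k6)],[(k8,k6)],[(k10,k6),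
    (k1,k7)]]
    [] k0
    []
    []]⟩

/-- classes `0 0 1 2 3 4`, types `S0 S0 C0 C0 S0 C0` -/
noncomputable def cT6_1885 : CertT :=
  ⟨[k0,k0,k20,k36,k48,k68],[],[[[]]],
    [.lp [k6,k8,k6,k6,k6,k6] [k1,k1,k0,k0,k1,k1,k1,k1,k1,k1,k1,k1] k0 [] k24 k5
    [[(k10,k6)],[(k0,k6),(k5,k6),(k2,k7),(k3,k7)],[(k0,k7),(k5,k7),(k2,k8),(k3,k8)],[(k0,k7),(k5,k7),(k2,k8),(k3,k8)],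
    [(k0,k6),(k5,k6),(k2,k7),(k3,k7)],[(k7,k6)],[(k4,k6)],[(k9,k6)],[(k6,k6)],[(k8,k6),(k11,k6)],[(k8,k6),(k11,k6)],
    [(k1,k6)]]
    [] k0
    []
    []]⟩

/-- classes `0 0 1 2 3 4`, types `S0 S0 C0 C0 S0 S0` -/
noncomputable def cT6_1886 : CertT :=
  ⟨[k0,k0,k20,k36,k48,k64],[],[[[]]],
    [.lp [k8,k8,k6,k6,k6,k6] [k0,k0,k0,k0,k1,k1,k1,k1,k1,k1,k1,k1] k0 [] k24 k5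
    [[(k10,k7),(k1,k8)],[(k5,k7),(k0,k8),(k2,k8),(k3,k8)],[(k5,k7),(k0,k8),(k2,k8),(k3,k8)],[(k5,k7),(k0,k8),(k2,k8),
    (k3,k8)],[(k5,k6),(k0,k7),(k2,k7),(k3,k7)],[(k7,k6)],[(k4,k6)],[(k9,k6)],[(k6,k6)],[(k8,k6),(k11,k6)],[(k8,k6),
    (k11,k6)],[(k10,k6),(k1,k7)]]
    [] k0
    []
    []]⟩

/-- classes `0 0 1 2 3 4`, types `S0 S0 C0 S0 C0 S0` -/
noncomputable def cT6_1887 : CertT :=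
  ⟨[k0,k0,k20,k32,k52,k64],[],[[[]]],
    [.lp [k8,k8,k6,k6,k6,k6] [k0,k0,k0,k0,k1,k1,k1,k1,k1,k1,k1,k1] k0 [] k24 k5
    [[(k10,k7),(k1,k8)],[(k5,k7),(k0,k8),(k2,k8),(k3,k8)],[(k5,k7),(k0,k8),(k2,k8),(k3,k8)],[(k5,k7),(k0,k8),(k2,k8),
    (k3,k8)],[(k5,k6),(k0,k7),(k2,k7),(k3,k7)],[(k7,k6)],[(k4,k6)],[(k6,k6),(k9,k6)],[(k6,k6),(k9,k6)],[(k11,k6)],
    [(k8,k6)],[(k10,k6),(k1,k7)]]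
    [] k0
    []
    []]⟩

/-- classes `0 0 1 2 3 4`, types `S0 S0 C0 S0 S0 C0` -/
noncomputable def cT6_1888 : CertT :=
  ⟨[k0,k0,k20,k32,k48,k68],[],[[[]]],
    [.lp [k6,k8,k6,k6,k6,k6] [k1,k1,k0,k0,k1,k1,k1,k1,k1,k1,k1,k1] k0 [] k24 k5
    [[(k10,k6)],[(k0,k6),(k5,k6),(k2,k7),(k3,k7)],[(k0,k7),(k5,k7),(k2,k8),(k3,k8)],[(k0,k7),(k5,k7),(k2,k8),(k3,k8)],
    [(k0,k6),(k5,k6),(k2,k7),(k3,k7)],[(k7,k6)],[(k4,k6)],[(k6,k6),(k9,k6)],[(k6,k6),(k9,k6)],[(k8,k6),(k11,k6)],[(k8,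
    k6),(k11,k6)],[(k1,k6)]]
    [] k0
    []
    []]⟩

/-- classes `0 0 1 2 3 4`, types `S0 S0 C0 S0 S0 S0` -/
noncomputable def cT6_1889 : CertT :=
  ⟨[k0,k0,k20,k32,k48,k64],[],[[[]]],
    [.lp [k8,k8,k6,k6,k6,k6] [k0,k0,k0,k0,k1,k1,k1,k1,k1,k1,k1,k1] k0 [] k24 k5
    [[(k10,k7),(k1,k8)],[(k5,k7),(k0,k8),(k2,k8),(k3,k8)],[(k5,k7),(k0,k8),(k2,k8),(k3,k8)],[(k5,k7),(k0,k8),(k2,k8),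
    (k3,k8)],[(k5,k6),(k0,k7),(k2,k7),(k3,k7)],[(k7,k6)],[(k4,k6)],[(k6,k6),(k9,k6)],[(k6,k6),(k9,k6)],[(k8,k6),(k11,
    k6)],[(k8,k6),(k11,k6)],[(k10,k6),(k1,k7)]]
    [] k0
    []
    []]⟩

/-- classes `0 0 1 2 3 4`, types `S0 S0 S0 C0 C0 S0` -/
noncomputable def cT6_1890 : CertT :=
  ⟨[k0,k0,k16,k36,k52,k64],[],[[[]]],
    [.lp [k2,k4,k2,k2,k2,k2] [k1,k1,k0,k0,k1,k1,k1,k1,k1,k1,k1,k1] k0 [] k8 k5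
    [[(k1,k2),(k10,k2)],[(k0,k2),(k5,k2),(k2,k3),(k3,k3)],[(k0,k3),(k5,k3),(k2,k4),(k3,k4)],[(k0,k3),(k5,k3),(k2,k4),
    (k3,k4)],[(k0,k2),(k5,k2),(k2,k3),(k3,k3)],[(k4,k2),(k7,k2)],[(k4,k2),(k7,k2)],[(k9,k2)],[(k6,k2)],[(k11,k2)],
    [(k8,k2)],[(k1,k2),(k10,k2)]]
    [] k0
    []
    []]⟩

/-- classes `0 0 1 2 3 4`, types `S0 S0 S0 C0 S0 S0` -/
noncomputable def cT6_1891 : CertT :=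
  ⟨[k0,k0,k16,k36,k48,k64],[],[[[]]],
    [.lp [k2,k4,k2,k2,k2,k2] [k1,k1,k0,k0,k1,k1,k1,k1,k1,k1,k1,k1] k0 [] k8 k5
    [[(k1,k2),(k10,k2)],[(k0,k2),(k5,k2),(k2,k3),(k3,k3)],[(k0,k3),(k5,k3),(k2,k4),(k3,k4)],[(k0,k3),(k5,k3),(k2,k4),
    (k3,k4)],[(k0,k2),(k5,k2),(k2,k3),(k3,k3)],[(k4,k2),(k7,k2)],[(k4,k2),(k7,k2)],[(k9,k2)],[(k6,k2)],[(k8,k2),(k11,
    k2)],[(k8,k2),(k11,k2)],[(k1,k2),(k10,k2)]]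
    [] k0
    []
    []]⟩

/-- classes `0 1 0 1 0 1`, types `C0 C0 C0 C0 C0 C0` -/
noncomputable def cT6_1892 : CertT :=
  ⟨[k4,k20,k4,k20,k4,k20],[],[[[]]],
    [.lp [k0,k2,k0,k2,k0,k2] [k1,k1,k0,k0,k1,k1,k0,k0,k1,k1,k0,k0] k0 [] k4 k5
    [[(k2,k1),(k6,k1),(k10,k1)],[(k3,k1),(k7,k1),(k11,k1)],[(k0,k1),(k4,k1),(k8,k1)],[(k1,k1),(k5,k1),(k9,k1)],[(k2,
    k1),(k6,k1),(k10,k1)],[(k3,k1),(k7,k1),(k11,k1)],[(k0,k1),(k4,k1),(k8,k1)],[(k1,k1),(k5,k1),(k9,k1)],[(k2,k1),(k6,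
    k1),(k10,k1)],[(k3,k1),(k7,k1),(k11,k1)],[(k0,k1),(k4,k1),(k8,k1)],[(k1,k1),(k5,k1),(k9,k1)]]
    [] k0
    []
    []]⟩

/-- classes `0 1 0 1 0 1`, types `C0 C0 C0 C0 C0 C2` -/
noncomputable def cT6_1893 : CertT :=
  ⟨[k4,k20,k4,k20,k4,k22],[],[[[]]],
    [.lp [k2,k2,k2,k2,k2,k2] [k0,k0,k0,k0,k0,k0,k0,k0,k0,k0,k0,k0] k0 [] k8 k5
    [[(k5,k2),(k9,k2),(k10,k2)],[(k3,k2),(k7,k2),(k11,k2)],[(k0,k2),(k4,k2),(k8,k2)],[(k5,k2),(k9,k2),(k10,k2)],[(k1,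
    k2),(k2,k2),(k6,k2)],[(k3,k2),(k7,k2),(k11,k2)],[(k0,k2),(k4,k2),(k8,k2)],[(k5,k2),(k9,k2),(k10,k2)],[(k1,k2),(k2,
    k2),(k6,k2)],[(k3,k2),(k7,k2),(k11,k2)],[(k0,k2),(k4,k2),(k8,k2)],[(k1,k2),(k2,k2),(k6,k2)]]
    [] k0
    []
    []]⟩

/-- classes `0 1 0 1 0 1`, types `C0 C0 C0 C0 C2 C2` -/
noncomputable def cT6_1894 : CertT :=
  ⟨[k4,k20,k4,k20,k6,k22],[],[[[]]],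
    [.lp [k2,k2,k2,k2,k2,k2] [k0,k0,k0,k0,k0,k0,k0,k0,k0,k0,k0,k0] k0 [] k8 k5
    [[(k5,k2),(k9,k2),(k10,k2)],[(k3,k2),(k7,k2),(k8,k2)],[(k0,k2),(k4,k2),(k11,k2)],[(k5,k2),(k9,k2),(k10,k2)],[(k1,
    k2),(k2,k2),(k6,k2)],[(k3,k2),(k7,k2),(k8,k2)],[(k0,k2),(k4,k2),(k11,k2)],[(k5,k2),(k9,k2),(k10,k2)],[(k1,k2),(k2,
    k2),(k6,k2)],[(k0,k2),(k4,k2),(k11,k2)],[(k3,k2),(k7,k2),(k8,k2)],[(k1,k2),(k2,k2),(k6,k2)]]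
    [] k0
    []
    []]⟩

/-- classes `0 1 0 1 0 1`, types `C0 C0 C0 C2 C2 C2` -/
noncomputable def cT6_1895 : CertT :=
  ⟨[k4,k20,k4,k22,k6,k22],[],[[[]]],
    [.lp [k2,k2,k2,k2,k2,k2] [k0,k0,k0,k0,k0,k0,k0,k0,k0,k0,k0,k0] k0 [] k8 k5
    [[(k5,k2),(k6,k2),(k10,k2)],[(k3,k2),(k7,k2),(k8,k2)],[(k0,k2),(k4,k2),(k11,k2)],[(k5,k2),(k6,k2),(k10,k2)],[(k1,
    k2),(k2,k2),(k9,k2)],[(k3,k2),(k7,k2),(k8,k2)],[(k0,k2),(k4,k2),(k11,k2)],[(k1,k2),(k2,k2),(k9,k2)],[(k5,k2),(k6,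
    k2),(k10,k2)],[(k0,k2),(k4,k2),(k11,k2)],[(k3,k2),(k7,k2),(k8,k2)],[(k1,k2),(k2,k2),(k9,k2)]]
    [] k0
    []
    []]⟩

/-- classes `0 1 0 1 0 1`, types `C0 S0 C0 S0 C0 S0` -/
noncomputable def cT6_1896 : CertT :=
  ⟨[k4,k16,k4,k16,k4,k16],[],[[[]]],
    [.lp [k2,k2,k2,k2,k2,k2] [k0,k0,k0,k0,k0,k0,k0,k0,k0,k0,k0,k0] k0 [] k8 k5
    [[(k1,k2),(k2,k2),(k5,k2),(k6,k2),(k9,k2),(k10,k2)],[(k3,k2),(k7,k2),(k11,k2)],[(k0,k2),(k4,k2),(k8,k2)],[(k1,k2),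
    (k2,k2),(k5,k2),(k6,k2),(k9,k2),(k10,k2)],[(k1,k2),(k2,k2),(k5,k2),(k6,k2),(k9,k2),(k10,k2)],[(k3,k2),(k7,k2),
    (k11,k2)],[(k0,k2),(k4,k2),(k8,k2)],[(k1,k2),(k2,k2),(k5,k2),(k6,k2),(k9,k2),(k10,k2)],[(k1,k2),(k2,k2),(k5,k2),
    (k6,k2),(k9,k2),(k10,k2)],[(k3,k2),(k7,k2),(k11,k2)],[(k0,k2),(k4,k2),(k8,k2)],[(k1,k2),(k2,k2),(k5,k2),(k6,k2),
    (k9,k2),(k10,k2)]]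
    [] k0
    []
    []]⟩

/-- classes `0 1 0 1 0 1`, types `C0 S0 C0 S0 C2 S0` -/
noncomputable def cT6_1897 : CertT :=
  ⟨[k4,k16,k4,k16,k6,k16],[],[[[]]],
    [.lp [k2,k2,k2,k2,k2,k2] [k0,k0,k0,k0,k0,k0,k0,k0,k0,k0,k0,k0] k0 [] k8 k5
    [[(k1,k2),(k2,k2),(k5,k2),(k6,k2),(k9,k2),(k10,k2)],[(k3,k2),(k7,k2),(k8,k2)],[(k0,k2),(k4,k2),(k11,k2)],[(k1,k2),
    (k2,k2),(k5,k2),(k6,k2),(k9,k2),(k10,k2)],[(k1,k2),(k2,k2),(k5,k2),(k6,k2),(k9,k2),(k10,k2)],[(k3,k2),(k7,k2),(k8,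
    k2)],[(k0,k2),(k4,k2),(k11,k2)],[(k1,k2),(k2,k2),(k5,k2),(k6,k2),(k9,k2),(k10,k2)],[(k1,k2),(k2,k2),(k5,k2),(k6,
    k2),(k9,k2),(k10,k2)],[(k0,k2),(k4,k2),(k11,k2)],[(k3,k2),(k7,k2),(k8,k2)],[(k1,k2),(k2,k2),(k5,k2),(k6,k2),(k9,
    k2),(k10,k2)]]
    [] k0
    []
    []]⟩

/-- classes `0 1 0 1 0 2`, types `C0 B0 C0 B1 C0 C0` -/
noncomputable def cT6_1898 : CertT :=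
  ⟨[k4,k24,k4,k25,k4,k36],[],[[[]]],
    [.lp [k2,k2,k2,k2,k2,k2] [k0,k0,k0,k0,k0,k0,k0,k0,k0,k0,k0,k0] k0 [] k8 k5
    [[(k10,k2)],[(k3,k2),(k7,k2),(k11,k2)],[(k0,k2),(k4,k2),(k8,k2)],[(k6,k2),(k9,k2)],[(k6,k2),(k9,k2)],[(k3,k2),(k7,
    k2),(k11,k2)],[(k0,k2),(k4,k2),(k8,k2)],[(k2,k2),(k5,k2)],[(k2,k2),(k5,k2)],[(k3,k2),(k7,k2),(k11,k2)],[(k0,k2),
    (k4,k2),(k8,k2)],[(k1,k2)]]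
    [] k0
    []
    []]⟩

/-- classes `0 1 0 1 0 2`, types `C0 B0 C0 B1 C0 S0` -/
noncomputable def cT6_1899 : CertT :=
  ⟨[k4,k24,k4,k25,k4,k32],[],[[[]]],
    [.lp [k2,k2,k2,k2,k2,k2] [k0,k0,k0,k0,k0,k0,k0,k0,k0,k0,k0,k0] k0 [] k8 k5
    [[(k1,k2),(k10,k2)],[(k3,k2),(k7,k2),(k11,k2)],[(k0,k2),(k4,k2),(k8,k2)],[(k6,k2),(k9,k2)],[(k6,k2),(k9,k2)],[(k3,
    k2),(k7,k2),(k11,k2)],[(k0,k2),(k4,k2),(k8,k2)],[(k2,k2),(k5,k2)],[(k2,k2),(k5,k2)],[(k3,k2),(k7,k2),(k11,k2)],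
    [(k0,k2),(k4,k2),(k8,k2)],[(k1,k2),(k10,k2)]]
    [] k0
    []
    []]⟩

/-- classes `0 1 0 1 0 2`, types `C0 B0 C0 B1 C2 C0` -/
noncomputable def cT6_1900 : CertT :=
  ⟨[k4,k24,k4,k25,k6,k36],[],[[[]]],
    [.lp [k2,k2,k2,k2,k2,k2] [k0,k0,k0,k0,k0,k0,k0,k0,k0,k0,k0,k0] k0 [] k8 k5
    [[(k10,k2)],[(k3,k2),(k7,k2),(k8,k2)],[(k0,k2),(k4,k2),(k11,k2)],[(k6,k2),(k9,k2)],[(k6,k2),(k9,k2)],[(k3,k2),(k7,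
    k2),(k8,k2)],[(k0,k2),(k4,k2),(k11,k2)],[(k2,k2),(k5,k2)],[(k2,k2),(k5,k2)],[(k0,k2),(k4,k2),(k11,k2)],[(k3,k2),
    (k7,k2),(k8,k2)],[(k1,k2)]]
    [] k0
    []
    []]⟩

/-- classes `0 1 0 1 0 2`, types `C0 B0 C0 B1 C2 S0` -/
noncomputable def cT6_1901 : CertT :=
  ⟨[k4,k24,k4,k25,k6,k32],[],[[[]]],
    [.lp [k2,k2,k2,k2,k2,k2] [k0,k0,k0,k0,k0,k0,k0,k0,k0,k0,k0,k0] k0 [] k8 k5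
    [[(k1,k2),(k10,k2)],[(k3,k2),(k7,k2),(k8,k2)],[(k0,k2),(k4,k2),(k11,k2)],[(k6,k2),(k9,k2)],[(k6,k2),(k9,k2)],[(k3,
    k2),(k7,k2),(k8,k2)],[(k0,k2),(k4,k2),(k11,k2)],[(k2,k2),(k5,k2)],[(k2,k2),(k5,k2)],[(k0,k2),(k4,k2),(k11,k2)],
    [(k3,k2),(k7,k2),(k8,k2)],[(k1,k2),(k10,k2)]]
    [] k0
    []
    []]⟩

/-- classes `0 1 0 1 0 2`, types `C0 B0 C2 B1 C0 C0` -/
noncomputable def cT6_1902 : CertT :=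
  ⟨[k4,k24,k6,k25,k4,k36],[],[[[]]],
    [.lp [k0,k2,k2,k0,k0,k2] [k1,k1,k0,k0,k0,k0,k1,k1,k1,k1,k0,k0] k0 [] k4 k5
    [[(k10,k1)],[(k3,k1),(k4,k1),(k11,k1)],[(k0,k1),(k7,k1),(k8,k1)],[(k6,k1),(k9,k1)],[(k6,k1),(k9,k1)],[(k0,k1),(k7,
    k1),(k8,k1)],[(k3,k1),(k4,k1),(k11,k1)],[(k2,k1),(k5,k1)],[(k2,k1),(k5,k1)],[(k3,k1),(k4,k1),(k11,k1)],[(k0,k1),
    (k7,k1),(k8,k1)],[(k1,k1)]]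
    [] k0
    []
    []]⟩

/-- classes `0 1 0 1 0 2`, types `C0 B0 C2 B1 C0 S0` -/
noncomputable def cT6_1903 : CertT :=
  ⟨[k4,k24,k6,k25,k4,k32],[],[[[]]],
    [.lp [k2,k2,k2,k2,k2,k2] [k0,k0,k0,k0,k0,k0,k0,k0,k0,k0,k0,k0] k0 [] k8 k5
    [[(k1,k2),(k10,k2)],[(k3,k2),(k4,k2),(k11,k2)],[(k0,k2),(k7,k2),(k8,k2)],[(k6,k2),(k9,k2)],[(k6,k2),(k9,k2)],[(k0,
    k2),(k7,k2),(k8,k2)],[(k3,k2),(k4,k2),(k11,k2)],[(k2,k2),(k5,k2)],[(k2,k2),(k5,k2)],[(k3,k2),(k4,k2),(k11,k2)],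
    [(k0,k2),(k7,k2),(k8,k2)],[(k1,k2),(k10,k2)]]
    [] k0
    []
    []]⟩

/-- classes `0 1 0 1 0 2`, types `C0 C0 C0 C0 C0 C0` -/
noncomputable def cT6_1904 : CertT :=
  ⟨[k4,k20,k4,k20,k4,k36],[],[[[]]],
    [.lp [k0,k2,k0,k2,k0,k2] [k1,k1,k0,k0,k1,k1,k0,k0,k1,k1,k0,k0] k0 [] k4 k5
    [[(k10,k1)],[(k3,k1),(k7,k1),(k11,k1)],[(k0,k1),(k4,k1),(k8,k1)],[(k5,k1),(k9,k1)],[(k2,k1),(k6,k1)],[(k3,k1),(k7,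
    k1),(k11,k1)],[(k0,k1),(k4,k1),(k8,k1)],[(k5,k1),(k9,k1)],[(k2,k1),(k6,k1)],[(k3,k1),(k7,k1),(k11,k1)],[(k0,k1),
    (k4,k1),(k8,k1)],[(k1,k1)]]
    [] k0
    []
    []]⟩

/-- classes `0 1 0 1 0 2`, types `C0 C0 C0 C0 C0 S0` -/
noncomputable def cT6_1905 : CertT :=
  ⟨[k4,k20,k4,k20,k4,k32],[],[[[]]],
    [.lp [k2,k2,k2,k2,k2,k2] [k0,k0,k0,k0,k0,k0,k0,k0,k0,k0,k0,k0] k0 [] k8 k5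
    [[(k1,k2),(k10,k2)],[(k3,k2),(k7,k2),(k11,k2)],[(k0,k2),(k4,k2),(k8,k2)],[(k5,k2),(k9,k2)],[(k2,k2),(k6,k2)],[(k3,
    k2),(k7,k2),(k11,k2)],[(k0,k2),(k4,k2),(k8,k2)],[(k5,k2),(k9,k2)],[(k2,k2),(k6,k2)],[(k3,k2),(k7,k2),(k11,k2)],
    [(k0,k2),(k4,k2),(k8,k2)],[(k1,k2),(k10,k2)]]
    [] k0
    []
    []]⟩

/-- classes `0 1 0 1 0 2`, types `C0 C0 C0 C0 C2 C0` -/
noncomputable def cT6_1906 : CertT :=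
  ⟨[k4,k20,k4,k20,k6,k36],[],[[[]]],
    [.lp [k2,k2,k2,k2,k2,k2] [k0,k0,k0,k0,k0,k0,k0,k0,k0,k0,k0,k0] k0 [] k8 k5
    [[(k10,k2)],[(k3,k2),(k7,k2),(k8,k2)],[(k0,k2),(k4,k2),(k11,k2)],[(k5,k2),(k9,k2)],[(k2,k2),(k6,k2)],[(k3,k2),(k7,
    k2),(k8,k2)],[(k0,k2),(k4,k2),(k11,k2)],[(k5,k2),(k9,k2)],[(k2,k2),(k6,k2)],[(k0,k2),(k4,k2),(k11,k2)],[(k3,k2),
    (k7,k2),(k8,k2)],[(k1,k2)]]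
    [] k0
    []
    []]⟩

/-- classes `0 1 0 1 0 2`, types `C0 C0 C0 C0 C2 S0` -/
noncomputable def cT6_1907 : CertT :=
  ⟨[k4,k20,k4,k20,k6,k32],[],[[[]]],
    [.lp [k2,k2,k2,k2,k2,k2] [k0,k0,k0,k0,k0,k0,k0,k0,k0,k0,k0,k0] k0 [] k8 k5
    [[(k1,k2),(k10,k2)],[(k3,k2),(k7,k2),(k8,k2)],[(k0,k2),(k4,k2),(k11,k2)],[(k5,k2),(k9,k2)],[(k2,k2),(k6,k2)],[(k3,
    k2),(k7,k2),(k8,k2)],[(k0,k2),(k4,k2),(k11,k2)],[(k5,k2),(k9,k2)],[(k2,k2),(k6,k2)],[(k0,k2),(k4,k2),(k11,k2)],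
    [(k3,k2),(k7,k2),(k8,k2)],[(k1,k2),(k10,k2)]]
    [] k0
    []
    []]⟩

/-- classes `0 1 0 1 0 2`, types `C0 C0 C0 C2 C0 C0` -/
noncomputable def cT6_1908 : CertT :=
  ⟨[k4,k20,k4,k22,k4,k36],[],[[[]]],
    [.lp [k2,k2,k2,k2,k2,k2] [k0,k0,k0,k0,k0,k0,k0,k0,k0,k0,k0,k0] k0 [] k8 k5
    [[(k10,k2)],[(k3,k2),(k7,k2),(k11,k2)],[(k0,k2),(k4,k2),(k8,k2)],[(k5,k2),(k6,k2)],[(k2,k2),(k9,k2)],[(k3,k2),(k7,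
    k2),(k11,k2)],[(k0,k2),(k4,k2),(k8,k2)],[(k2,k2),(k9,k2)],[(k5,k2),(k6,k2)],[(k3,k2),(k7,k2),(k11,k2)],[(k0,k2),
    (k4,k2),(k8,k2)],[(k1,k2)]]
    [] k0
    []
    []]⟩

/-- classes `0 1 0 1 0 2`, types `C0 C0 C0 C2 C0 S0` -/
noncomputable def cT6_1909 : CertT :=
  ⟨[k4,k20,k4,k22,k4,k32],[],[[[]]],
    [.lp [k2,k2,k2,k2,k2,k2] [k0,k0,k0,k0,k0,k0,k0,k0,k0,k0,k0,k0] k0 [] k8 k5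
    [[(k1,k2),(k10,k2)],[(k3,k2),(k7,k2),(k11,k2)],[(k0,k2),(k4,k2),(k8,k2)],[(k5,k2),(k6,k2)],[(k2,k2),(k9,k2)],[(k3,
    k2),(k7,k2),(k11,k2)],[(k0,k2),(k4,k2),(k8,k2)],[(k2,k2),(k9,k2)],[(k5,k2),(k6,k2)],[(k3,k2),(k7,k2),(k11,k2)],
    [(k0,k2),(k4,k2),(k8,k2)],[(k1,k2),(k10,k2)]]
    [] k0
    []
    []]⟩

/-- classes `0 1 0 1 0 2`, types `C0 C0 C0 C2 C2 C0` -/
noncomputable def cT6_1910 : CertT :=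
  ⟨[k4,k20,k4,k22,k6,k36],[],[[[]]],
    [.lp [k2,k2,k2,k2,k2,k2] [k0,k0,k0,k0,k0,k0,k0,k0,k0,k0,k0,k0] k0 [] k8 k5
    [[(k10,k2)],[(k3,k2),(k7,k2),(k8,k2)],[(k0,k2),(k4,k2),(k11,k2)],[(k5,k2),(k6,k2)],[(k2,k2),(k9,k2)],[(k3,k2),(k7,
    k2),(k8,k2)],[(k0,k2),(k4,k2),(k11,k2)],[(k2,k2),(k9,k2)],[(k5,k2),(k6,k2)],[(k0,k2),(k4,k2),(k11,k2)],[(k3,k2),
    (k7,k2),(k8,k2)],[(k1,k2)]]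
    [] k0
    []
    []]⟩

/-- classes `0 1 0 1 0 2`, types `C0 C0 C0 C2 C2 S0` -/
noncomputable def cT6_1911 : CertT :=
  ⟨[k4,k20,k4,k22,k6,k32],[],[[[]]],
    [.lp [k2,k2,k2,k2,k2,k2] [k0,k0,k0,k0,k0,k0,k0,k0,k0,k0,k0,k0] k0 [] k8 k5
    [[(k1,k2),(k10,k2)],[(k3,k2),(k7,k2),(k8,k2)],[(k0,k2),(k4,k2),(k11,k2)],[(k5,k2),(k6,k2)],[(k2,k2),(k9,k2)],[(k3,
    k2),(k7,k2),(k8,k2)],[(k0,k2),(k4,k2),(k11,k2)],[(k2,k2),(k9,k2)],[(k5,k2),(k6,k2)],[(k0,k2),(k4,k2),(k11,k2)],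
    [(k3,k2),(k7,k2),(k8,k2)],[(k1,k2),(k10,k2)]]
    [] k0
    []
    []]⟩

/-- classes `0 1 0 1 0 2`, types `C0 C0 C2 C0 C0 C0` -/
noncomputable def cT6_1912 : CertT :=
  ⟨[k4,k20,k6,k20,k4,k36],[],[[[]]],
    [.lp [k2,k2,k2,k2,k2,k2] [k0,k0,k0,k0,k0,k0,k0,k0,k0,k0,k0,k0] k0 [] k8 k5
    [[(k10,k2)],[(k3,k2),(k4,k2),(k11,k2)],[(k0,k2),(k7,k2),(k8,k2)],[(k5,k2),(k9,k2)],[(k2,k2),(k6,k2)],[(k0,k2),(k7,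
    k2),(k8,k2)],[(k3,k2),(k4,k2),(k11,k2)],[(k5,k2),(k9,k2)],[(k2,k2),(k6,k2)],[(k3,k2),(k4,k2),(k11,k2)],[(k0,k2),
    (k7,k2),(k8,k2)],[(k1,k2)]]
    [] k0
    []
    []]⟩

/-- classes `0 1 0 1 0 2`, types `C0 C0 C2 C0 C0 S0` -/
noncomputable def cT6_1913 : CertT :=
  ⟨[k4,k20,k6,k20,k4,k32],[],[[[]]],
    [.lp [k2,k2,k2,k2,k2,k2] [k0,k0,k0,k0,k0,k0,k0,k0,k0,k0,k0,k0] k0 [] k8 k5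
    [[(k1,k2),(k10,k2)],[(k3,k2),(k4,k2),(k11,k2)],[(k0,k2),(k7,k2),(k8,k2)],[(k5,k2),(k9,k2)],[(k2,k2),(k6,k2)],[(k0,
    k2),(k7,k2),(k8,k2)],[(k3,k2),(k4,k2),(k11,k2)],[(k5,k2),(k9,k2)],[(k2,k2),(k6,k2)],[(k3,k2),(k4,k2),(k11,k2)],
    [(k0,k2),(k7,k2),(k8,k2)],[(k1,k2),(k10,k2)]]
    [] k0
    []
    []]⟩

/-- classes `0 1 0 1 0 2`, types `C0 C0 C2 C2 C0 C0` -/
noncomputable def cT6_1914 : CertT :=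
  ⟨[k4,k20,k6,k22,k4,k36],[],[[[]]],
    [.lp [k2,k2,k2,k2,k2,k2] [k0,k0,k0,k0,k0,k0,k0,k0,k0,k0,k0,k0] k0 [] k8 k5
    [[(k10,k2)],[(k3,k2),(k4,k2),(k11,k2)],[(k0,k2),(k7,k2),(k8,k2)],[(k5,k2),(k6,k2)],[(k2,k2),(k9,k2)],[(k0,k2),(k7,
    k2),(k8,k2)],[(k3,k2),(k4,k2),(k11,k2)],[(k2,k2),(k9,k2)],[(k5,k2),(k6,k2)],[(k3,k2),(k4,k2),(k11,k2)],[(k0,k2),
    (k7,k2),(k8,k2)],[(k1,k2)]]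
    [] k0
    []
    []]⟩

/-- classes `0 1 0 1 0 2`, types `C0 C0 C2 C2 C0 S0` -/
noncomputable def cT6_1915 : CertT :=
  ⟨[k4,k20,k6,k22,k4,k32],[],[[[]]],
    [.lp [k2,k2,k2,k2,k2,k2] [k0,k0,k0,k0,k0,k0,k0,k0,k0,k0,k0,k0] k0 [] k8 k5
    [[(k1,k2),(k10,k2)],[(k3,k2),(k4,k2),(k11,k2)],[(k0,k2),(k7,k2),(k8,k2)],[(k5,k2),(k6,k2)],[(k2,k2),(k9,k2)],[(k0,
    k2),(k7,k2),(k8,k2)],[(k3,k2),(k4,k2),(k11,k2)],[(k2,k2),(k9,k2)],[(k5,k2),(k6,k2)],[(k3,k2),(k4,k2),(k11,k2)],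
    [(k0,k2),(k7,k2),(k8,k2)],[(k1,k2),(k10,k2)]]
    [] k0
    []
    []]⟩

/-- classes `0 1 0 1 0 2`, types `C0 N0 C0 N1 C0 C0` -/
noncomputable def cT6_1916 : CertT :=
  ⟨[k4,k28,k4,k29,k4,k36],[],[[[]]],
    [.lp [k0,k2,k0,k2,k0,k2] [k1,k1,k0,k0,k1,k1,k0,k0,k1,k1,k0,k0] k0 [] k4 k5
    [[(k10,k1)],[(k3,k1),(k7,k1),(k11,k1)],[(k0,k1),(k4,k1),(k8,k1)],[(k9,k1)],[(k6,k1)],[(k3,k1),(k7,k1),(k11,k1)],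
    [(k0,k1),(k4,k1),(k8,k1)],[(k5,k1)],[(k2,k1)],[(k3,k1),(k7,k1),(k11,k1)],[(k0,k1),(k4,k1),(k8,k1)],[(k1,k1)]]
    [] k0
    []
    []]⟩

/-- classes `0 1 0 1 0 2`, types `C0 N0 C0 N1 C0 S0` -/
noncomputable def cT6_1917 : CertT :=
  ⟨[k4,k28,k4,k29,k4,k32],[],[[[]]],
    [.lp [k2,k2,k2,k2,k2,k2] [k0,k0,k0,k0,k0,k0,k0,k0,k0,k0,k0,k0] k0 [] k8 k5
    [[(k1,k2),(k10,k2)],[(k3,k2),(k7,k2),(k11,k2)],[(k0,k2),(k4,k2),(k8,k2)],[(k9,k2)],[(k6,k2)],[(k3,k2),(k7,k2),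
    (k11,k2)],[(k0,k2),(k4,k2),(k8,k2)],[(k5,k2)],[(k2,k2)],[(k3,k2),(k7,k2),(k11,k2)],[(k0,k2),(k4,k2),(k8,k2)],[(k1,
    k2),(k10,k2)]]
    [] k0
    []
    []]⟩

/-- classes `0 1 0 1 0 2`, types `C0 N0 C0 N1 C2 C0` -/
noncomputable def cT6_1918 : CertT :=
  ⟨[k4,k28,k4,k29,k6,k36],[],[[[]]],
    [.lp [k2,k2,k2,k2,k2,k2] [k0,k0,k0,k0,k0,k0,k0,k0,k0,k0,k0,k0] k0 [] k8 k5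
    [[(k10,k2)],[(k3,k2),(k7,k2),(k8,k2)],[(k0,k2),(k4,k2),(k11,k2)],[(k9,k2)],[(k6,k2)],[(k3,k2),(k7,k2),(k8,k2)],
    [(k0,k2),(k4,k2),(k11,k2)],[(k5,k2)],[(k2,k2)],[(k0,k2),(k4,k2),(k11,k2)],[(k3,k2),(k7,k2),(k8,k2)],[(k1,k2)]]
    [] k0
    []
    []]⟩

/-- classes `0 1 0 1 0 2`, types `C0 N0 C0 N1 C2 S0` -/
noncomputable def cT6_1919 : CertT :=
  ⟨[k4,k28,k4,k29,k6,k32],[],[[[]]],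
    [.lp [k2,k2,k2,k2,k2,k2] [k0,k0,k0,k0,k0,k0,k0,k0,k0,k0,k0,k0] k0 [] k8 k5
    [[(k1,k2),(k10,k2)],[(k3,k2),(k7,k2),(k8,k2)],[(k0,k2),(k4,k2),(k11,k2)],[(k9,k2)],[(k6,k2)],[(k3,k2),(k7,k2),(k8,
    k2)],[(k0,k2),(k4,k2),(k11,k2)],[(k5,k2)],[(k2,k2)],[(k0,k2),(k4,k2),(k11,k2)],[(k3,k2),(k7,k2),(k8,k2)],[(k1,k2),
    (k10,k2)]]
    [] k0
    []
    []]⟩

/-- classes `0 1 0 1 0 2`, types `C0 N0 C0 N2 C0 C0` -/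
noncomputable def cT6_1920 : CertT :=
  ⟨[k4,k28,k4,k30,k4,k36],[],[[[]]],
    [.lp [k2,k2,k2,k2,k2,k2] [k0,k0,k0,k0,k0,k0,k0,k0,k0,k0,k0,k0] k0 [] k8 k5
    [[(k10,k2)],[(k3,k2),(k7,k2),(k11,k2)],[(k0,k2),(k4,k2),(k8,k2)],[(k6,k2)],[(k9,k2)],[(k3,k2),(k7,k2),(k11,k2)],
    [(k0,k2),(k4,k2),(k8,k2)],[(k2,k2)],[(k5,k2)],[(k3,k2),(k7,k2),(k11,k2)],[(k0,k2),(k4,k2),(k8,k2)],[(k1,k2)]]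
    [] k0
    []
    []]⟩

/-- classes `0 1 0 1 0 2`, types `C0 N0 C0 N2 C0 S0` -/
noncomputable def cT6_1921 : CertT :=
  ⟨[k4,k28,k4,k30,k4,k32],[],[[[]]],
    [.lp [k2,k2,k2,k2,k2,k2] [k0,k0,k0,k0,k0,k0,k0,k0,k0,k0,k0,k0] k0 [] k8 k5
    [[(k1,k2),(k10,k2)],[(k3,k2),(k7,k2),(k11,k2)],[(k0,k2),(k4,k2),(k8,k2)],[(k6,k2)],[(k9,k2)],[(k3,k2),(k7,k2),
    (k11,k2)],[(k0,k2),(k4,k2),(k8,k2)],[(k2,k2)],[(k5,k2)],[(k3,k2),(k7,k2),(k11,k2)],[(k0,k2),(k4,k2),(k8,k2)],[(k1,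
    k2),(k10,k2)]]
    [] k0
    []
    []]⟩

/-- classes `0 1 0 1 0 2`, types `C0 N0 C0 N2 C2 C0` -/
noncomputable def cT6_1922 : CertT :=
  ⟨[k4,k28,k4,k30,k6,k36],[],[[[]]],
    [.lp [k2,k2,k2,k2,k2,k2] [k0,k0,k0,k0,k0,k0,k0,k0,k0,k0,k0,k0] k0 [] k8 k5
    [[(k10,k2)],[(k3,k2),(k7,k2),(k8,k2)],[(k0,k2),(k4,k2),(k11,k2)],[(k6,k2)],[(k9,k2)],[(k3,k2),(k7,k2),(k8,k2)],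
    [(k0,k2),(k4,k2),(k11,k2)],[(k2,k2)],[(k5,k2)],[(k0,k2),(k4,k2),(k11,k2)],[(k3,k2),(k7,k2),(k8,k2)],[(k1,k2)]]
    [] k0
    []
    []]⟩

/-- classes `0 1 0 1 0 2`, types `C0 N0 C0 N2 C2 S0` -/
noncomputable def cT6_1923 : CertT :=
  ⟨[k4,k28,k4,k30,k6,k32],[],[[[]]],
    [.lp [k2,k2,k2,k2,k2,k2] [k0,k0,k0,k0,k0,k0,k0,k0,k0,k0,k0,k0] k0 [] k8 k5
    [[(k1,k2),(k10,k2)],[(k3,k2),(k7,k2),(k8,k2)],[(k0,k2),(k4,k2),(k11,k2)],[(k6,k2)],[(k9,k2)],[(k3,k2),(k7,k2),(k8,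
    k2)],[(k0,k2),(k4,k2),(k11,k2)],[(k2,k2)],[(k5,k2)],[(k0,k2),(k4,k2),(k11,k2)],[(k3,k2),(k7,k2),(k8,k2)],[(k1,k2),
    (k10,k2)]]
    [] k0
    []
    []]⟩

/-- classes `0 1 0 1 0 2`, types `C0 N0 C2 N1 C0 C0` -/
noncomputable def cT6_1924 : CertT :=
  ⟨[k4,k28,k6,k29,k4,k36],[],[[[]]],
    [.lp [k2,k0,k0,k2,k2,k0] [k0,k0,k1,k1,k1,k1,k0,k0,k0,k0,k1,k1] k0 [] k4 k5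
    [[(k10,k1)],[(k3,k1),(k4,k1),(k11,k1)],[(k0,k1),(k7,k1),(k8,k1)],[(k9,k1)],[(k6,k1)],[(k0,k1),(k7,k1),(k8,k1)],
    [(k3,k1),(k4,k1),(k11,k1)],[(k5,k1)],[(k2,k1)],[(k3,k1),(k4,k1),(k11,k1)],[(k0,k1),(k7,k1),(k8,k1)],[(k1,k1)]]
    [] k0
    []
    []]⟩

/-- classes `0 1 0 1 0 2`, types `C0 N0 C2 N1 C0 S0` -/
noncomputable def cT6_1925 : CertT :=
  ⟨[k4,k28,k6,k29,k4,k32],[],[[[]]],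
    [.lp [k2,k2,k2,k2,k2,k2] [k0,k0,k0,k0,k0,k0,k0,k0,k0,k0,k0,k0] k0 [] k8 k5
    [[(k1,k2),(k10,k2)],[(k3,k2),(k4,k2),(k11,k2)],[(k0,k2),(k7,k2),(k8,k2)],[(k9,k2)],[(k6,k2)],[(k0,k2),(k7,k2),(k8,
    k2)],[(k3,k2),(k4,k2),(k11,k2)],[(k5,k2)],[(k2,k2)],[(k3,k2),(k4,k2),(k11,k2)],[(k0,k2),(k7,k2),(k8,k2)],[(k1,k2),
    (k10,k2)]]
    [] k0
    []
    []]⟩

/-- classes `0 1 0 1 0 2`, types `C0 N0 C2 N2 C0 C0` -/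
noncomputable def cT6_1926 : CertT :=
  ⟨[k4,k28,k6,k30,k4,k36],[],[[[]]],
    [.lp [k2,k0,k0,k2,k2,k0] [k0,k0,k1,k1,k1,k1,k0,k0,k0,k0,k1,k1] k0 [] k4 k5
    [[(k10,k1)],[(k3,k1),(k4,k1),(k11,k1)],[(k0,k1),(k7,k1),(k8,k1)],[(k6,k1)],[(k9,k1)],[(k0,k1),(k7,k1),(k8,k1)],
    [(k3,k1),(k4,k1),(k11,k1)],[(k2,k1)],[(k5,k1)],[(k3,k1),(k4,k1),(k11,k1)],[(k0,k1),(k7,k1),(k8,k1)],[(k1,k1)]]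
    [] k0
    []
    []]⟩

/-- classes `0 1 0 1 0 2`, types `C0 N0 C2 N2 C0 S0` -/
noncomputable def cT6_1927 : CertT :=
  ⟨[k4,k28,k6,k30,k4,k32],[],[[[]]],
    [.lp [k2,k2,k2,k2,k2,k2] [k0,k0,k0,k0,k0,k0,k0,k0,k0,k0,k0,k0] k0 [] k8 k5
    [[(k1,k2),(k10,k2)],[(k3,k2),(k4,k2),(k11,k2)],[(k0,k2),(k7,k2),(k8,k2)],[(k6,k2)],[(k9,k2)],[(k0,k2),(k7,k2),(k8,
    k2)],[(k3,k2),(k4,k2),(k11,k2)],[(k2,k2)],[(k5,k2)],[(k3,k2),(k4,k2),(k11,k2)],[(k0,k2),(k7,k2),(k8,k2)],[(k1,k2),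
    (k10,k2)]]
    [] k0
    []
    []]⟩

/-- classes `0 1 0 1 0 2`, types `C0 S0 C0 S0 C0 C0` -/
noncomputable def cT6_1928 : CertT :=
  ⟨[k4,k16,k4,k16,k4,k36],[],[[[]]],
    [.lp [k2,k2,k2,k2,k2,k2] [k0,k0,k0,k0,k0,k0,k0,k0,k0,k0,k0,k0] k0 [] k8 k5
    [[(k10,k2)],[(k3,k2),(k7,k2),(k11,k2)],[(k0,k2),(k4,k2),(k8,k2)],[(k2,k2),(k5,k2),(k6,k2),(k9,k2)],[(k2,k2),(k5,
    k2),(k6,k2),(k9,k2)],[(k3,k2),(k7,k2),(k11,k2)],[(k0,k2),(k4,k2),(k8,k2)],[(k2,k2),(k5,k2),(k6,k2),(k9,k2)],[(k2,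
    k2),(k5,k2),(k6,k2),(k9,k2)],[(k3,k2),(k7,k2),(k11,k2)],[(k0,k2),(k4,k2),(k8,k2)],[(k1,k2)]]
    [] k0
    []
    []]⟩

/-- classes `0 1 0 1 0 2`, types `C0 S0 C0 S0 C0 S0` -/
noncomputable def cT6_1929 : CertT :=
  ⟨[k4,k16,k4,k16,k4,k32],[],[[[]]],
    [.lp [k2,k2,k2,k2,k2,k2] [k0,k0,k0,k0,k0,k0,k0,k0,k0,k0,k0,k0] k0 [] k8 k5
    [[(k1,k2),(k10,k2)],[(k3,k2),(k7,k2),(k11,k2)],[(k0,k2),(k4,k2),(k8,k2)],[(k2,k2),(k5,k2),(k6,k2),(k9,k2)],[(k2,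
    k2),(k5,k2),(k6,k2),(k9,k2)],[(k3,k2),(k7,k2),(k11,k2)],[(k0,k2),(k4,k2),(k8,k2)],[(k2,k2),(k5,k2),(k6,k2),(k9,
    k2)],[(k2,k2),(k5,k2),(k6,k2),(k9,k2)],[(k3,k2),(k7,k2),(k11,k2)],[(k0,k2),(k4,k2),(k8,k2)],[(k1,k2),(k10,k2)]]
    [] k0
    []
    []]⟩

/-- classes `0 1 0 1 0 2`, types `C0 S0 C0 S0 C2 C0` -/
noncomputable def cT6_1930 : CertT :=
  ⟨[k4,k16,k4,k16,k6,k36],[],[[[]]],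
    [.lp [k2,k2,k2,k2,k2,k2] [k0,k0,k0,k0,k0,k0,k0,k0,k0,k0,k0,k0] k0 [] k8 k5
    [[(k10,k2)],[(k3,k2),(k7,k2),(k8,k2)],[(k0,k2),(k4,k2),(k11,k2)],[(k2,k2),(k5,k2),(k6,k2),(k9,k2)],[(k2,k2),(k5,
    k2),(k6,k2),(k9,k2)],[(k3,k2),(k7,k2),(k8,k2)],[(k0,k2),(k4,k2),(k11,k2)],[(k2,k2),(k5,k2),(k6,k2),(k9,k2)],[(k2,
    k2),(k5,k2),(k6,k2),(k9,k2)],[(k0,k2),(k4,k2),(k11,k2)],[(k3,k2),(k7,k2),(k8,k2)],[(k1,k2)]]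
    [] k0
    []
    []]⟩

/-- classes `0 1 0 1 0 2`, types `C0 S0 C0 S0 C2 S0` -/
noncomputable def cT6_1931 : CertT :=
  ⟨[k4,k16,k4,k16,k6,k32],[],[[[]]],
    [.lp [k2,k2,k2,k2,k2,k2] [k0,k0,k0,k0,k0,k0,k0,k0,k0,k0,k0,k0] k0 [] k8 k5
    [[(k1,k2),(k10,k2)],[(k3,k2),(k7,k2),(k8,k2)],[(k0,k2),(k4,k2),(k11,k2)],[(k2,k2),(k5,k2),(k6,k2),(k9,k2)],[(k2,
    k2),(k5,k2),(k6,k2),(k9,k2)],[(k3,k2),(k7,k2),(k8,k2)],[(k0,k2),(k4,k2),(k11,k2)],[(k2,k2),(k5,k2),(k6,k2),(k9,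
    k2)],[(k2,k2),(k5,k2),(k6,k2),(k9,k2)],[(k0,k2),(k4,k2),(k11,k2)],[(k3,k2),(k7,k2),(k8,k2)],[(k1,k2),(k10,k2)]]
    [] k0
    []
    []]⟩

/-- classes `0 1 0 1 0 2`, types `C0 S0 C2 S0 C0 C0` -/
noncomputable def cT6_1932 : CertT :=
  ⟨[k4,k16,k6,k16,k4,k36],[],[[[]]],
    [.lp [k2,k2,k2,k2,k2,k2] [k0,k0,k0,k0,k0,k0,k0,k0,k0,k0,k0,k0] k0 [] k8 k5
    [[(k10,k2)],[(k3,k2),(k4,k2),(k11,k2)],[(k0,k2),(k7,k2),(k8,k2)],[(k2,k2),(k5,k2),(k6,k2),(k9,k2)],[(k2,k2),(k5,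
    k2),(k6,k2),(k9,k2)],[(k0,k2),(k7,k2),(k8,k2)],[(k3,k2),(k4,k2),(k11,k2)],[(k2,k2),(k5,k2),(k6,k2),(k9,k2)],[(k2,
    k2),(k5,k2),(k6,k2),(k9,k2)],[(k3,k2),(k4,k2),(k11,k2)],[(k0,k2),(k7,k2),(k8,k2)],[(k1,k2)]]
    [] k0
    []
    []]⟩

/-- classes `0 1 0 1 0 2`, types `C0 S0 C2 S0 C0 S0` -/
noncomputable def cT6_1933 : CertT :=
  ⟨[k4,k16,k6,k16,k4,k32],[],[[[]]],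
    [.lp [k2,k2,k2,k2,k2,k2] [k0,k0,k0,k0,k0,k0,k0,k0,k0,k0,k0,k0] k0 [] k8 k5
    [[(k1,k2),(k10,k2)],[(k3,k2),(k4,k2),(k11,k2)],[(k0,k2),(k7,k2),(k8,k2)],[(k2,k2),(k5,k2),(k6,k2),(k9,k2)],[(k2,
    k2),(k5,k2),(k6,k2),(k9,k2)],[(k0,k2),(k7,k2),(k8,k2)],[(k3,k2),(k4,k2),(k11,k2)],[(k2,k2),(k5,k2),(k6,k2),(k9,
    k2)],[(k2,k2),(k5,k2),(k6,k2),(k9,k2)],[(k3,k2),(k4,k2),(k11,k2)],[(k0,k2),(k7,k2),(k8,k2)],[(k1,k2),(k10,k2)]]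
    [] k0
    []
    []]⟩

/-- classes `0 1 0 1 0 2`, types `S0 B0 S0 B1 S0 C0` -/
noncomputable def cT6_1934 : CertT :=
  ⟨[k0,k24,k0,k25,k0,k36],[],[[[]]],
    [.lp [k2,k2,k2,k2,k2,k2] [k0,k0,k0,k0,k0,k0,k0,k0,k0,k0,k0,k0] k0 [] k8 k5
    [[(k10,k2)],[(k0,k2),(k3,k2),(k4,k2),(k7,k2),(k8,k2),(k11,k2)],[(k0,k2),(k3,k2),(k4,k2),(k7,k2),(k8,k2),(k11,k2)],
    [(k6,k2),(k9,k2)],[(k6,k2),(k9,k2)],[(k0,k2),(k3,k2),(k4,k2),(k7,k2),(k8,k2),(k11,k2)],[(k0,k2),(k3,k2),(k4,k2),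
    (k7,k2),(k8,k2),(k11,k2)],[(k2,k2),(k5,k2)],[(k2,k2),(k5,k2)],[(k0,k2),(k3,k2),(k4,k2),(k7,k2),(k8,k2),(k11,k2)],
    [(k0,k2),(k3,k2),(k4,k2),(k7,k2),(k8,k2),(k11,k2)],[(k1,k2)]]
    [] k0
    []
    []]⟩

/-- classes `0 1 0 1 0 2`, types `S0 B0 S0 B1 S0 S0` -/
noncomputable def cT6_1935 : CertT :=
  ⟨[k0,k24,k0,k25,k0,k32],[],[[[]]],
    [.lp [k2,k2,k2,k2,k2,k2] [k0,k0,k0,k0,k0,k0,k0,k0,k0,k0,k0,k0] k0 [] k8 k5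
    [[(k1,k2),(k10,k2)],[(k0,k2),(k3,k2),(k4,k2),(k7,k2),(k8,k2),(k11,k2)],[(k0,k2),(k3,k2),(k4,k2),(k7,k2),(k8,k2),
    (k11,k2)],[(k6,k2),(k9,k2)],[(k6,k2),(k9,k2)],[(k0,k2),(k3,k2),(k4,k2),(k7,k2),(k8,k2),(k11,k2)],[(k0,k2),(k3,k2),
    (k4,k2),(k7,k2),(k8,k2),(k11,k2)],[(k2,k2),(k5,k2)],[(k2,k2),(k5,k2)],[(k0,k2),(k3,k2),(k4,k2),(k7,k2),(k8,k2),
    (k11,k2)],[(k0,k2),(k3,k2),(k4,k2),(k7,k2),(k8,k2),(k11,k2)],[(k1,k2),(k10,k2)]]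
    [] k0
    []
    []]⟩

/-- classes `0 1 0 1 0 2`, types `S0 C0 S0 C0 S0 C0` -/
noncomputable def cT6_1936 : CertT :=
  ⟨[k0,k20,k0,k20,k0,k36],[],[[[]]],
    [.lp [k2,k2,k2,k2,k2,k2] [k0,k0,k0,k0,k0,k0,k0,k0,k0,k0,k0,k0] k0 [] k8 k5
    [[(k10,k2)],[(k0,k2),(k3,k2),(k4,k2),(k7,k2),(k8,k2),(k11,k2)],[(k0,k2),(k3,k2),(k4,k2),(k7,k2),(k8,k2),(k11,k2)],
    [(k5,k2),(k9,k2)],[(k2,k2),(k6,k2)],[(k0,k2),(k3,k2),(k4,k2),(k7,k2),(k8,k2),(k11,k2)],[(k0,k2),(k3,k2),(k4,k2),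
    (k7,k2),(k8,k2),(k11,k2)],[(k5,k2),(k9,k2)],[(k2,k2),(k6,k2)],[(k0,k2),(k3,k2),(k4,k2),(k7,k2),(k8,k2),(k11,k2)],
    [(k0,k2),(k3,k2),(k4,k2),(k7,k2),(k8,k2),(k11,k2)],[(k1,k2)]]
    [] k0
    []
    []]⟩

/-- classes `0 1 0 1 0 2`, types `S0 C0 S0 C0 S0 S0` -/
noncomputable def cT6_1937 : CertT :=
  ⟨[k0,k20,k0,k20,k0,k32],[],[[[]]],
    [.lp [k2,k2,k2,k2,k2,k2] [k0,k0,k0,k0,k0,k0,k0,k0,k0,k0,k0,k0] k0 [] k8 k5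
    [[(k1,k2),(k10,k2)],[(k0,k2),(k3,k2),(k4,k2),(k7,k2),(k8,k2),(k11,k2)],[(k0,k2),(k3,k2),(k4,k2),(k7,k2),(k8,k2),
    (k11,k2)],[(k5,k2),(k9,k2)],[(k2,k2),(k6,k2)],[(k0,k2),(k3,k2),(k4,k2),(k7,k2),(k8,k2),(k11,k2)],[(k0,k2),(k3,k2),
    (k4,k2),(k7,k2),(k8,k2),(k11,k2)],[(k5,k2),(k9,k2)],[(k2,k2),(k6,k2)],[(k0,k2),(k3,k2),(k4,k2),(k7,k2),(k8,k2),
    (k11,k2)],[(k0,k2),(k3,k2),(k4,k2),(k7,k2),(k8,k2),(k11,k2)],[(k1,k2),(k10,k2)]]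
    [] k0
    []
    []]⟩

/-- classes `0 1 0 1 0 2`, types `S0 C0 S0 C2 S0 C0` -/
noncomputable def cT6_1938 : CertT :=
  ⟨[k0,k20,k0,k22,k0,k36],[],[[[]]],
    [.lp [k2,k2,k2,k2,k2,k2] [k0,k0,k0,k0,k0,k0,k0,k0,k0,k0,k0,k0] k0 [] k8 k5
    [[(k10,k2)],[(k0,k2),(k3,k2),(k4,k2),(k7,k2),(k8,k2),(k11,k2)],[(k0,k2),(k3,k2),(k4,k2),(k7,k2),(k8,k2),(k11,k2)],
    [(k5,k2),(k6,k2)],[(k2,k2),(k9,k2)],[(k0,k2),(k3,k2),(k4,k2),(k7,k2),(k8,k2),(k11,k2)],[(k0,k2),(k3,k2),(k4,k2),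
    (k7,k2),(k8,k2),(k11,k2)],[(k2,k2),(k9,k2)],[(k5,k2),(k6,k2)],[(k0,k2),(k3,k2),(k4,k2),(k7,k2),(k8,k2),(k11,k2)],
    [(k0,k2),(k3,k2),(k4,k2),(k7,k2),(k8,k2),(k11,k2)],[(k1,k2)]]
    [] k0
    []
    []]⟩

/-- classes `0 1 0 1 0 2`, types `S0 C0 S0 C2 S0 S0` -/
noncomputable def cT6_1939 : CertT :=
  ⟨[k0,k20,k0,k22,k0,k32],[],[[[]]],
    [.lp [k2,k2,k2,k2,k2,k2] [k0,k0,k0,k0,k0,k0,k0,k0,k0,k0,k0,k0] k0 [] k8 k5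
    [[(k1,k2),(k10,k2)],[(k0,k2),(k3,k2),(k4,k2),(k7,k2),(k8,k2),(k11,k2)],[(k0,k2),(k3,k2),(k4,k2),(k7,k2),(k8,k2),
    (k11,k2)],[(k5,k2),(k6,k2)],[(k2,k2),(k9,k2)],[(k0,k2),(k3,k2),(k4,k2),(k7,k2),(k8,k2),(k11,k2)],[(k0,k2),(k3,k2),
    (k4,k2),(k7,k2),(k8,k2),(k11,k2)],[(k2,k2),(k9,k2)],[(k5,k2),(k6,k2)],[(k0,k2),(k3,k2),(k4,k2),(k7,k2),(k8,k2),
    (k11,k2)],[(k0,k2),(k3,k2),(k4,k2),(k7,k2),(k8,k2),(k11,k2)],[(k1,k2),(k10,k2)]]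
    [] k0
    []
    []]⟩

/-- classes `0 1 0 1 0 2`, types `S0 N0 S0 N1 S0 C0` -/
noncomputable def cT6_1940 : CertT :=
  ⟨[k0,k28,k0,k29,k0,k36],[],[[[]]],
    [.lp [k2,k2,k2,k2,k2,k2] [k0,k0,k0,k0,k0,k0,k0,k0,k0,k0,k0,k0] k0 [] k8 k5
    [[(k10,k2)],[(k0,k2),(k3,k2),(k4,k2),(k7,k2),(k8,k2),(k11,k2)],[(k0,k2),(k3,k2),(k4,k2),(k7,k2),(k8,k2),(k11,k2)],
    [(k9,k2)],[(k6,k2)],[(k0,k2),(k3,k2),(k4,k2),(k7,k2),(k8,k2),(k11,k2)],[(k0,k2),(k3,k2),(k4,k2),(k7,k2),(k8,k2),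
    (k11,k2)],[(k5,k2)],[(k2,k2)],[(k0,k2),(k3,k2),(k4,k2),(k7,k2),(k8,k2),(k11,k2)],[(k0,k2),(k3,k2),(k4,k2),(k7,k2),
    (k8,k2),(k11,k2)],[(k1,k2)]]
    [] k0
    []
    []]⟩

/-- classes `0 1 0 1 0 2`, types `S0 N0 S0 N1 S0 S0` -/
noncomputable def cT6_1941 : CertT :=
  ⟨[k0,k28,k0,k29,k0,k32],[],[[[]]],
    [.lp [k2,k2,k2,k2,k2,k2] [k0,k0,k0,k0,k0,k0,k0,k0,k0,k0,k0,k0] k0 [] k8 k5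
    [[(k1,k2),(k10,k2)],[(k0,k2),(k3,k2),(k4,k2),(k7,k2),(k8,k2),(k11,k2)],[(k0,k2),(k3,k2),(k4,k2),(k7,k2),(k8,k2),
    (k11,k2)],[(k9,k2)],[(k6,k2)],[(k0,k2),(k3,k2),(k4,k2),(k7,k2),(k8,k2),(k11,k2)],[(k0,k2),(k3,k2),(k4,k2),(k7,k2),
    (k8,k2),(k11,k2)],[(k5,k2)],[(k2,k2)],[(k0,k2),(k3,k2),(k4,k2),(k7,k2),(k8,k2),(k11,k2)],[(k0,k2),(k3,k2),(k4,k2),
    (k7,k2),(k8,k2),(k11,k2)],[(k1,k2),(k10,k2)]]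
    [] k0
    []
    []]⟩

/-- classes `0 1 0 1 0 2`, types `S0 N0 S0 N2 S0 C0` -/
noncomputable def cT6_1942 : CertT :=
  ⟨[k0,k28,k0,k30,k0,k36],[],[[[]]],
    [.lp [k2,k2,k2,k2,k2,k2] [k0,k0,k0,k0,k0,k0,k0,k0,k0,k0,k0,k0] k0 [] k8 k5
    [[(k10,k2)],[(k0,k2),(k3,k2),(k4,k2),(k7,k2),(k8,k2),(k11,k2)],[(k0,k2),(k3,k2),(k4,k2),(k7,k2),(k8,k2),(k11,k2)],
    [(k6,k2)],[(k9,k2)],[(k0,k2),(k3,k2),(k4,k2),(k7,k2),(k8,k2),(k11,k2)],[(k0,k2),(k3,k2),(k4,k2),(k7,k2),(k8,k2),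
    (k11,k2)],[(k2,k2)],[(k5,k2)],[(k0,k2),(k3,k2),(k4,k2),(k7,k2),(k8,k2),(k11,k2)],[(k0,k2),(k3,k2),(k4,k2),(k7,k2),
    (k8,k2),(k11,k2)],[(k1,k2)]]
    [] k0
    []
    []]⟩

/-- classes `0 1 0 1 0 2`, types `S0 N0 S0 N2 S0 S0` -/
noncomputable def cT6_1943 : CertT :=
  ⟨[k0,k28,k0,k30,k0,k32],[],[[[]]],
    [.lp [k2,k2,k2,k2,k2,k2] [k0,k0,k0,k0,k0,k0,k0,k0,k0,k0,k0,k0] k0 [] k8 k5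
    [[(k1,k2),(k10,k2)],[(k0,k2),(k3,k2),(k4,k2),(k7,k2),(k8,k2),(k11,k2)],[(k0,k2),(k3,k2),(k4,k2),(k7,k2),(k8,k2),
    (k11,k2)],[(k6,k2)],[(k9,k2)],[(k0,k2),(k3,k2),(k4,k2),(k7,k2),(k8,k2),(k11,k2)],[(k0,k2),(k3,k2),(k4,k2),(k7,k2),
    (k8,k2),(k11,k2)],[(k2,k2)],[(k5,k2)],[(k0,k2),(k3,k2),(k4,k2),(k7,k2),(k8,k2),(k11,k2)],[(k0,k2),(k3,k2),(k4,k2),
    (k7,k2),(k8,k2),(k11,k2)],[(k1,k2),(k10,k2)]]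
    [] k0
    []
    []]⟩

/-- classes `0 1 0 1 0 2`, types `S0 S0 S0 S0 S0 C0` -/
noncomputable def cT6_1944 : CertT :=
  ⟨[k0,k16,k0,k16,k0,k36],[],[[[]]],
    [.lp [k2,k2,k2,k2,k2,k2] [k0,k0,k0,k0,k0,k0,k0,k0,k0,k0,k0,k0] k0 [] k8 k5
    [[(k10,k2)],[(k0,k2),(k3,k2),(k4,k2),(k7,k2),(k8,k2),(k11,k2)],[(k0,k2),(k3,k2),(k4,k2),(k7,k2),(k8,k2),(k11,k2)],
    [(k2,k2),(k5,k2),(k6,k2),(k9,k2)],[(k2,k2),(k5,k2),(k6,k2),(k9,k2)],[(k0,k2),(k3,k2),(k4,k2),(k7,k2),(k8,k2),(k11,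
    k2)],[(k0,k2),(k3,k2),(k4,k2),(k7,k2),(k8,k2),(k11,k2)],[(k2,k2),(k5,k2),(k6,k2),(k9,k2)],[(k2,k2),(k5,k2),(k6,
    k2),(k9,k2)],[(k0,k2),(k3,k2),(k4,k2),(k7,k2),(k8,k2),(k11,k2)],[(k0,k2),(k3,k2),(k4,k2),(k7,k2),(k8,k2),(k11,
    k2)],[(k1,k2)]]
    [] k0
    []
    []]⟩

/-- classes `0 1 0 1 2 3`, types `B0 B0 B1 B1 C0 C0` -/
noncomputable def cT6_1945 : CertT :=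
  ⟨[k8,k24,k9,k25,k36,k52],[],[[[]]],
    [.lp [k2,k2,k2,k2,k2,k2] [k0,k0,k0,k0,k0,k0,k0,k0,k0,k0,k0,k0] k0 [] k8 k5
    [[(k10,k2)],[(k4,k2),(k7,k2)],[(k4,k2),(k7,k2)],[(k6,k2),(k9,k2)],[(k6,k2),(k9,k2)],[(k0,k2),(k3,k2)],[(k0,k2),
    (k3,k2)],[(k2,k2),(k5,k2)],[(k2,k2),(k5,k2)],[(k11,k2)],[(k8,k2)],[(k1,k2)]]
    [] k0
    []
    []]⟩

/-- classes `0 1 0 1 2 3`, types `B0 B0 B1 B1 C0 S0` -/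
noncomputable def cT6_1946 : CertT :=
  ⟨[k8,k24,k9,k25,k36,k48],[],[[[]]],
    [.lp [k2,k2,k2,k2,k2,k2] [k0,k0,k0,k0,k0,k0,k0,k0,k0,k0,k0,k0] k0 [] k8 k5
    [[(k1,k2),(k10,k2)],[(k4,k2),(k7,k2)],[(k4,k2),(k7,k2)],[(k6,k2),(k9,k2)],[(k6,k2),(k9,k2)],[(k0,k2),(k3,k2)],
    [(k0,k2),(k3,k2)],[(k2,k2),(k5,k2)],[(k2,k2),(k5,k2)],[(k11,k2)],[(k8,k2)],[(k1,k2),(k10,k2)]]
    [] k0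
    []
    []]⟩

/-- classes `0 1 0 1 2 3`, types `B0 B0 B1 B1 S0 S0` -/
noncomputable def cT6_1947 : CertT :=
  ⟨[k8,k24,k9,k25,k32,k48],[],[[[]]],
    [.lp [k2,k2,k2,k2,k2,k2] [k0,k0,k0,k0,k0,k0,k0,k0,k0,k0,k0,k0] k0 [] k8 k5
    [[(k1,k2),(k10,k2)],[(k4,k2),(k7,k2)],[(k4,k2),(k7,k2)],[(k6,k2),(k9,k2)],[(k6,k2),(k9,k2)],[(k0,k2),(k3,k2)],
    [(k0,k2),(k3,k2)],[(k2,k2),(k5,k2)],[(k2,k2),(k5,k2)],[(k8,k2),(k11,k2)],[(k8,k2),(k11,k2)],[(k1,k2),(k10,k2)]]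
    [] k0
    []
    []]⟩

/-- classes `0 1 0 1 2 3`, types `B0 C0 B1 C0 C0 C0` -/
noncomputable def cT6_1948 : CertT :=
  ⟨[k8,k20,k9,k20,k36,k52],[],[[[]]],
    [.lp [k2,k2,k2,k2,k2,k2] [k0,k0,k0,k0,k0,k0,k0,k0,k0,k0,k0,k0] k0 [] k8 k5
    [[(k10,k2)],[(k4,k2),(k7,k2)],[(k4,k2),(k7,k2)],[(k5,k2),(k9,k2)],[(k2,k2),(k6,k2)],[(k0,k2),(k3,k2)],[(k0,k2),
    (k3,k2)],[(k5,k2),(k9,k2)],[(k2,k2),(k6,k2)],[(k11,k2)],[(k8,k2)],[(k1,k2)]]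
    [] k0
    []
    []]⟩

/-- classes `0 1 0 1 2 3`, types `B0 C0 B1 C0 C0 S0` -/
noncomputable def cT6_1949 : CertT :=
  ⟨[k8,k20,k9,k20,k36,k48],[],[[[]]],
    [.lp [k2,k2,k2,k2,k2,k2] [k0,k0,k0,k0,k0,k0,k0,k0,k0,k0,k0,k0] k0 [] k8 k5
    [[(k1,k2),(k10,k2)],[(k4,k2),(k7,k2)],[(k4,k2),(k7,k2)],[(k5,k2),(k9,k2)],[(k2,k2),(k6,k2)],[(k0,k2),(k3,k2)],
    [(k0,k2),(k3,k2)],[(k5,k2),(k9,k2)],[(k2,k2),(k6,k2)],[(k11,k2)],[(k8,k2)],[(k1,k2),(k10,k2)]]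
    [] k0
    []
    []]⟩

/-- classes `0 1 0 1 2 3`, types `B0 C0 B1 C0 S0 C0` -/
noncomputable def cT6_1950 : CertT :=
  ⟨[k8,k20,k9,k20,k32,k52],[],[[[]]],
    [.lp [k2,k2,k2,k2,k2,k2] [k0,k0,k0,k0,k0,k0,k0,k0,k0,k0,k0,k0] k0 [] k8 k5
    [[(k10,k2)],[(k4,k2),(k7,k2)],[(k4,k2),(k7,k2)],[(k5,k2),(k9,k2)],[(k2,k2),(k6,k2)],[(k0,k2),(k3,k2)],[(k0,k2),
    (k3,k2)],[(k5,k2),(k9,k2)],[(k2,k2),(k6,k2)],[(k8,k2),(k11,k2)],[(k8,k2),(k11,k2)],[(k1,k2)]]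
    [] k0
    []
    []]⟩

/-- classes `0 1 0 1 2 3`, types `B0 C0 B1 C0 S0 S0` -/
noncomputable def cT6_1951 : CertT :=
  ⟨[k8,k20,k9,k20,k32,k48],[],[[[]]],
    [.lp [k2,k2,k2,k2,k2,k2] [k0,k0,k0,k0,k0,k0,k0,k0,k0,k0,k0,k0] k0 [] k8 k5
    [[(k1,k2),(k10,k2)],[(k4,k2),(k7,k2)],[(k4,k2),(k7,k2)],[(k5,k2),(k9,k2)],[(k2,k2),(k6,k2)],[(k0,k2),(k3,k2)],
    [(k0,k2),(k3,k2)],[(k5,k2),(k9,k2)],[(k2,k2),(k6,k2)],[(k8,k2),(k11,k2)],[(k8,k2),(k11,k2)],[(k1,k2),(k10,k2)]]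
    [] k0
    []
    []]⟩

/-- classes `0 1 0 1 2 3`, types `B0 C0 B1 C2 C0 C0` -/
noncomputable def cT6_1952 : CertT :=
  ⟨[k8,k20,k9,k22,k36,k52],[],[[[]]],
    [.lp [k2,k2,k0,k0,k2,k0] [k0,k0,k0,k0,k1,k1,k1,k1,k0,k0,k1,k1] k0 [] k4 k5
    [[(k10,k1)],[(k4,k1),(k7,k1)],[(k4,k1),(k7,k1)],[(k5,k1),(k6,k1)],[(k2,k1),(k9,k1)],[(k0,k1),(k3,k1)],[(k0,k1),
    (k3,k1)],[(k2,k1),(k9,k1)],[(k5,k1),(k6,k1)],[(k11,k1)],[(k8,k1)],[(k1,k1)]]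
    [] k0
    []
    []]⟩

/-- classes `0 1 0 1 2 3`, types `B0 C0 B1 C2 C0 S0` -/
noncomputable def cT6_1953 : CertT :=
  ⟨[k8,k20,k9,k22,k36,k48],[],[[[]]],
    [.lp [k2,k2,k2,k2,k2,k2] [k0,k0,k0,k0,k0,k0,k0,k0,k0,k0,k0,k0] k0 [] k8 k5
    [[(k1,k2),(k10,k2)],[(k4,k2),(k7,k2)],[(k4,k2),(k7,k2)],[(k5,k2),(k6,k2)],[(k2,k2),(k9,k2)],[(k0,k2),(k3,k2)],
    [(k0,k2),(k3,k2)],[(k2,k2),(k9,k2)],[(k5,k2),(k6,k2)],[(k11,k2)],[(k8,k2)],[(k1,k2),(k10,k2)]]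
    [] k0
    []
    []]⟩

/-- classes `0 1 0 1 2 3`, types `B0 C0 B1 C2 S0 C0` -/
noncomputable def cT6_1954 : CertT :=
  ⟨[k8,k20,k9,k22,k32,k52],[],[[[]]],
    [.lp [k2,k2,k2,k2,k2,k2] [k0,k0,k0,k0,k0,k0,k0,k0,k0,k0,k0,k0] k0 [] k8 k5
    [[(k10,k2)],[(k4,k2),(k7,k2)],[(k4,k2),(k7,k2)],[(k5,k2),(k6,k2)],[(k2,k2),(k9,k2)],[(k0,k2),(k3,k2)],[(k0,k2),
    (k3,k2)],[(k2,k2),(k9,k2)],[(k5,k2),(k6,k2)],[(k8,k2),(k11,k2)],[(k8,k2),(k11,k2)],[(k1,k2)]]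
    [] k0
    []
    []]⟩

/-- classes `0 1 0 1 2 3`, types `B0 C0 B1 C2 S0 S0` -/
noncomputable def cT6_1955 : CertT :=
  ⟨[k8,k20,k9,k22,k32,k48],[],[[[]]],
    [.lp [k2,k2,k2,k2,k2,k2] [k0,k0,k0,k0,k0,k0,k0,k0,k0,k0,k0,k0] k0 [] k8 k5
    [[(k1,k2),(k10,k2)],[(k4,k2),(k7,k2)],[(k4,k2),(k7,k2)],[(k5,k2),(k6,k2)],[(k2,k2),(k9,k2)],[(k0,k2),(k3,k2)],
    [(k0,k2),(k3,k2)],[(k2,k2),(k9,k2)],[(k5,k2),(k6,k2)],[(k8,k2),(k11,k2)],[(k8,k2),(k11,k2)],[(k1,k2),(k10,k2)]]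
    [] k0
    []
    []]⟩

/-- classes `0 1 0 1 2 3`, types `B0 N0 B1 N1 C0 C0` -/
noncomputable def cT6_1956 : CertT :=
  ⟨[k8,k28,k9,k29,k36,k52],[],[[[]]],
    [.lp [k2,k2,k2,k2,k2,k2] [k0,k0,k0,k0,k0,k0,k0,k0,k0,k0,k0,k0] k0 [] k8 k5
    [[(k10,k2)],[(k4,k2),(k7,k2)],[(k4,k2),(k7,k2)],[(k9,k2)],[(k6,k2)],[(k0,k2),(k3,k2)],[(k0,k2),(k3,k2)],[(k5,k2)],
    [(k2,k2)],[(k11,k2)],[(k8,k2)],[(k1,k2)]]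
    [] k0
    []
    []]⟩

/-- classes `0 1 0 1 2 3`, types `B0 N0 B1 N1 C0 S0` -/
noncomputable def cT6_1957 : CertT :=
  ⟨[k8,k28,k9,k29,k36,k48],[],[[[]]],
    [.lp [k2,k2,k2,k2,k2,k2] [k0,k0,k0,k0,k0,k0,k0,k0,k0,k0,k0,k0] k0 [] k8 k5
    [[(k1,k2),(k10,k2)],[(k4,k2),(k7,k2)],[(k4,k2),(k7,k2)],[(k9,k2)],[(k6,k2)],[(k0,k2),(k3,k2)],[(k0,k2),(k3,k2)],
    [(k5,k2)],[(k2,k2)],[(k11,k2)],[(k8,k2)],[(k1,k2),(k10,k2)]]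
    [] k0
    []
    []]⟩

/-- classes `0 1 0 1 2 3`, types `B0 N0 B1 N1 S0 C0` -/
noncomputable def cT6_1958 : CertT :=
  ⟨[k8,k28,k9,k29,k32,k52],[],[[[]]],
    [.lp [k2,k2,k2,k2,k2,k2] [k0,k0,k0,k0,k0,k0,k0,k0,k0,k0,k0,k0] k0 [] k8 k5
    [[(k10,k2)],[(k4,k2),(k7,k2)],[(k4,k2),(k7,k2)],[(k9,k2)],[(k6,k2)],[(k0,k2),(k3,k2)],[(k0,k2),(k3,k2)],[(k5,k2)],
    [(k2,k2)],[(k8,k2),(k11,k2)],[(k8,k2),(k11,k2)],[(k1,k2)]]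
    [] k0
    []
    []]⟩

/-- classes `0 1 0 1 2 3`, types `B0 N0 B1 N1 S0 S0` -/
noncomputable def cT6_1959 : CertT :=
  ⟨[k8,k28,k9,k29,k32,k48],[],[[[]]],
    [.lp [k2,k2,k2,k2,k2,k2] [k0,k0,k0,k0,k0,k0,k0,k0,k0,k0,k0,k0] k0 [] k8 k5
    [[(k1,k2),(k10,k2)],[(k4,k2),(k7,k2)],[(k4,k2),(k7,k2)],[(k9,k2)],[(k6,k2)],[(k0,k2),(k3,k2)],[(k0,k2),(k3,k2)],
    [(k5,k2)],[(k2,k2)],[(k8,k2),(k11,k2)],[(k8,k2),(k11,k2)],[(k1,k2),(k10,k2)]]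
    [] k0
    []
    []]⟩

/-- classes `0 1 0 1 2 3`, types `B0 N0 B1 N2 C0 C0` -/
noncomputable def cT6_1960 : CertT :=
  ⟨[k8,k28,k9,k30,k36,k52],[],[[[]]],
    [.lp [k2,k2,k0,k0,k2,k0] [k0,k0,k0,k0,k1,k1,k1,k1,k0,k0,k1,k1] k0 [] k4 k5
    [[(k10,k1)],[(k4,k1),(k7,k1)],[(k4,k1),(k7,k1)],[(k6,k1)],[(k9,k1)],[(k0,k1),(k3,k1)],[(k0,k1),(k3,k1)],[(k2,k1)],
    [(k5,k1)],[(k11,k1)],[(k8,k1)],[(k1,k1)]]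
    [] k0
    []
    []]⟩

/-- classes `0 1 0 1 2 3`, types `B0 N0 B1 N2 C0 S0` -/
noncomputable def cT6_1961 : CertT :=
  ⟨[k8,k28,k9,k30,k36,k48],[],[[[]]],
    [.lp [k2,k2,k2,k2,k2,k2] [k0,k0,k0,k0,k0,k0,k0,k0,k0,k0,k0,k0] k0 [] k8 k5
    [[(k1,k2),(k10,k2)],[(k4,k2),(k7,k2)],[(k4,k2),(k7,k2)],[(k6,k2)],[(k9,k2)],[(k0,k2),(k3,k2)],[(k0,k2),(k3,k2)],
    [(k2,k2)],[(k5,k2)],[(k11,k2)],[(k8,k2)],[(k1,k2),(k10,k2)]]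
    [] k0
    []
    []]⟩

/-- classes `0 1 0 1 2 3`, types `B0 N0 B1 N2 S0 C0` -/
noncomputable def cT6_1962 : CertT :=
  ⟨[k8,k28,k9,k30,k32,k52],[],[[[]]],
    [.lp [k2,k2,k2,k2,k2,k2] [k0,k0,k0,k0,k0,k0,k0,k0,k0,k0,k0,k0] k0 [] k8 k5
    [[(k10,k2)],[(k4,k2),(k7,k2)],[(k4,k2),(k7,k2)],[(k6,k2)],[(k9,k2)],[(k0,k2),(k3,k2)],[(k0,k2),(k3,k2)],[(k2,k2)],
    [(k5,k2)],[(k8,k2),(k11,k2)],[(k8,k2),(k11,k2)],[(k1,k2)]]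
    [] k0
    []
    []]⟩

/-- classes `0 1 0 1 2 3`, types `B0 N0 B1 N2 S0 S0` -/
noncomputable def cT6_1963 : CertT :=
  ⟨[k8,k28,k9,k30,k32,k48],[],[[[]]],
    [.lp [k2,k2,k2,k2,k2,k2] [k0,k0,k0,k0,k0,k0,k0,k0,k0,k0,k0,k0] k0 [] k8 k5
    [[(k1,k2),(k10,k2)],[(k4,k2),(k7,k2)],[(k4,k2),(k7,k2)],[(k6,k2)],[(k9,k2)],[(k0,k2),(k3,k2)],[(k0,k2),(k3,k2)],
    [(k2,k2)],[(k5,k2)],[(k8,k2),(k11,k2)],[(k8,k2),(k11,k2)],[(k1,k2),(k10,k2)]]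
    [] k0
    []
    []]⟩

/-- classes `0 1 0 1 2 3`, types `B0 S0 B1 S0 C0 C0` -/
noncomputable def cT6_1964 : CertT :=
  ⟨[k8,k16,k9,k16,k36,k52],[],[[[]]],
    [.lp [k2,k2,k2,k2,k2,k2] [k0,k0,k0,k0,k0,k0,k0,k0,k0,k0,k0,k0] k0 [] k8 k5
    [[(k10,k2)],[(k4,k2),(k7,k2)],[(k4,k2),(k7,k2)],[(k2,k2),(k5,k2),(k6,k2),(k9,k2)],[(k2,k2),(k5,k2),(k6,k2),(k9,
    k2)],[(k0,k2),(k3,k2)],[(k0,k2),(k3,k2)],[(k2,k2),(k5,k2),(k6,k2),(k9,k2)],[(k2,k2),(k5,k2),(k6,k2),(k9,k2)],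
    [(k11,k2)],[(k8,k2)],[(k1,k2)]]
    [] k0
    []
    []]⟩

/-- classes `0 1 0 1 2 3`, types `B0 S0 B1 S0 C0 S0` -/
noncomputable def cT6_1965 : CertT :=
  ⟨[k8,k16,k9,k16,k36,k48],[],[[[]]],
    [.lp [k2,k2,k2,k2,k2,k2] [k0,k0,k0,k0,k0,k0,k0,k0,k0,k0,k0,k0] k0 [] k8 k5
    [[(k1,k2),(k10,k2)],[(k4,k2),(k7,k2)],[(k4,k2),(k7,k2)],[(k2,k2),(k5,k2),(k6,k2),(k9,k2)],[(k2,k2),(k5,k2),(k6,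
    k2),(k9,k2)],[(k0,k2),(k3,k2)],[(k0,k2),(k3,k2)],[(k2,k2),(k5,k2),(k6,k2),(k9,k2)],[(k2,k2),(k5,k2),(k6,k2),(k9,
    k2)],[(k11,k2)],[(k8,k2)],[(k1,k2),(k10,k2)]]
    [] k0
    []
    []]⟩

/-- classes `0 1 0 1 2 3`, types `B0 S0 B1 S0 S0 C0` -/
noncomputable def cT6_1966 : CertT :=
  ⟨[k8,k16,k9,k16,k32,k52],[],[[[]]],
    [.lp [k2,k2,k2,k2,k2,k2] [k0,k0,k0,k0,k0,k0,k0,k0,k0,k0,k0,k0] k0 [] k8 k5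
    [[(k10,k2)],[(k4,k2),(k7,k2)],[(k4,k2),(k7,k2)],[(k2,k2),(k5,k2),(k6,k2),(k9,k2)],[(k2,k2),(k5,k2),(k6,k2),(k9,
    k2)],[(k0,k2),(k3,k2)],[(k0,k2),(k3,k2)],[(k2,k2),(k5,k2),(k6,k2),(k9,k2)],[(k2,k2),(k5,k2),(k6,k2),(k9,k2)],[(k8,
    k2),(k11,k2)],[(k8,k2),(k11,k2)],[(k1,k2)]]
    [] k0
    []
    []]⟩

/-- classes `0 1 0 1 2 3`, types `B0 S0 B1 S0 S0 S0` -/
noncomputable def cT6_1967 : CertT :=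
  ⟨[k8,k16,k9,k16,k32,k48],[],[[[]]],
    [.lp [k2,k2,k2,k2,k2,k2] [k0,k0,k0,k0,k0,k0,k0,k0,k0,k0,k0,k0] k0 [] k8 k5
    [[(k1,k2),(k10,k2)],[(k4,k2),(k7,k2)],[(k4,k2),(k7,k2)],[(k2,k2),(k5,k2),(k6,k2),(k9,k2)],[(k2,k2),(k5,k2),(k6,
    k2),(k9,k2)],[(k0,k2),(k3,k2)],[(k0,k2),(k3,k2)],[(k2,k2),(k5,k2),(k6,k2),(k9,k2)],[(k2,k2),(k5,k2),(k6,k2),(k9,
    k2)],[(k8,k2),(k11,k2)],[(k8,k2),(k11,k2)],[(k1,k2),(k10,k2)]]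
    [] k0
    []
    []]⟩

/-- classes `0 1 0 1 2 3`, types `C0 C0 C0 C0 C0 C0` -/
noncomputable def cT6_1968 : CertT :=
  ⟨[k4,k20,k4,k20,k36,k52],[],[[[]]],
    [.lp [k0,k2,k0,k2,k0,k2] [k1,k1,k0,k0,k1,k1,k0,k0,k1,k1,k0,k0] k0 [] k4 k5
    [[(k10,k1)],[(k3,k1),(k7,k1)],[(k0,k1),(k4,k1)],[(k5,k1),(k9,k1)],[(k2,k1),(k6,k1)],[(k3,k1),(k7,k1)],[(k0,k1),
    (k4,k1)],[(k5,k1),(k9,k1)],[(k2,k1),(k6,k1)],[(k11,k1)],[(k8,k1)],[(k1,k1)]]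
    [] k0
    []
    []]⟩

/-- classes `0 1 0 1 2 3`, types `C0 C0 C0 C0 C0 S0` -/
noncomputable def cT6_1969 : CertT :=
  ⟨[k4,k20,k4,k20,k36,k48],[],[[[]]],
    [.lp [k2,k2,k2,k2,k2,k2] [k0,k0,k0,k0,k0,k0,k0,k0,k0,k0,k0,k0] k0 [] k8 k5
    [[(k1,k2),(k10,k2)],[(k3,k2),(k7,k2)],[(k0,k2),(k4,k2)],[(k5,k2),(k9,k2)],[(k2,k2),(k6,k2)],[(k3,k2),(k7,k2)],
    [(k0,k2),(k4,k2)],[(k5,k2),(k9,k2)],[(k2,k2),(k6,k2)],[(k11,k2)],[(k8,k2)],[(k1,k2),(k10,k2)]]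
    [] k0
    []
    []]⟩

/-- classes `0 1 0 1 2 3`, types `C0 C0 C0 C0 S0 S0` -/
noncomputable def cT6_1970 : CertT :=
  ⟨[k4,k20,k4,k20,k32,k48],[],[[[]]],
    [.lp [k2,k2,k2,k2,k2,k2] [k0,k0,k0,k0,k0,k0,k0,k0,k0,k0,k0,k0] k0 [] k8 k5
    [[(k1,k2),(k10,k2)],[(k3,k2),(k7,k2)],[(k0,k2),(k4,k2)],[(k5,k2),(k9,k2)],[(k2,k2),(k6,k2)],[(k3,k2),(k7,k2)],
    [(k0,k2),(k4,k2)],[(k5,k2),(k9,k2)],[(k2,k2),(k6,k2)],[(k8,k2),(k11,k2)],[(k8,k2),(k11,k2)],[(k1,k2),(k10,k2)]]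
    [] k0
    []
    []]⟩

/-- classes `0 1 0 1 2 3`, types `C0 C0 C0 C2 C0 C0` -/
noncomputable def cT6_1971 : CertT :=
  ⟨[k4,k20,k4,k22,k36,k52],[],[[[]]],
    [.lp [k2,k2,k2,k2,k2,k2] [k0,k0,k0,k0,k0,k0,k0,k0,k0,k0,k0,k0] k0 [] k8 k5
    [[(k10,k2)],[(k3,k2),(k7,k2)],[(k0,k2),(k4,k2)],[(k5,k2),(k6,k2)],[(k2,k2),(k9,k2)],[(k3,k2),(k7,k2)],[(k0,k2),
    (k4,k2)],[(k2,k2),(k9,k2)],[(k5,k2),(k6,k2)],[(k11,k2)],[(k8,k2)],[(k1,k2)]]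
    [] k0
    []
    []]⟩

/-- classes `0 1 0 1 2 3`, types `C0 C0 C0 C2 C0 S0` -/
noncomputable def cT6_1972 : CertT :=
  ⟨[k4,k20,k4,k22,k36,k48],[],[[[]]],
    [.lp [k2,k2,k2,k2,k2,k2] [k0,k0,k0,k0,k0,k0,k0,k0,k0,k0,k0,k0] k0 [] k8 k5
    [[(k1,k2),(k10,k2)],[(k3,k2),(k7,k2)],[(k0,k2),(k4,k2)],[(k5,k2),(k6,k2)],[(k2,k2),(k9,k2)],[(k3,k2),(k7,k2)],
    [(k0,k2),(k4,k2)],[(k2,k2),(k9,k2)],[(k5,k2),(k6,k2)],[(k11,k2)],[(k8,k2)],[(k1,k2),(k10,k2)]]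
    [] k0
    []
    []]⟩

/-- classes `0 1 0 1 2 3`, types `C0 C0 C0 C2 S0 C0` -/
noncomputable def cT6_1973 : CertT :=
  ⟨[k4,k20,k4,k22,k32,k52],[],[[[]]],
    [.lp [k2,k2,k2,k2,k2,k2] [k0,k0,k0,k0,k0,k0,k0,k0,k0,k0,k0,k0] k0 [] k8 k5
    [[(k10,k2)],[(k3,k2),(k7,k2)],[(k0,k2),(k4,k2)],[(k5,k2),(k6,k2)],[(k2,k2),(k9,k2)],[(k3,k2),(k7,k2)],[(k0,k2),
    (k4,k2)],[(k2,k2),(k9,k2)],[(k5,k2),(k6,k2)],[(k8,k2),(k11,k2)],[(k8,k2),(k11,k2)],[(k1,k2)]]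
    [] k0
    []
    []]⟩

/-- classes `0 1 0 1 2 3`, types `C0 C0 C0 C2 S0 S0` -/
noncomputable def cT6_1974 : CertT :=
  ⟨[k4,k20,k4,k22,k32,k48],[],[[[]]],
    [.lp [k2,k2,k2,k2,k2,k2] [k0,k0,k0,k0,k0,k0,k0,k0,k0,k0,k0,k0] k0 [] k8 k5
    [[(k1,k2),(k10,k2)],[(k3,k2),(k7,k2)],[(k0,k2),(k4,k2)],[(k5,k2),(k6,k2)],[(k2,k2),(k9,k2)],[(k3,k2),(k7,k2)],
    [(k0,k2),(k4,k2)],[(k2,k2),(k9,k2)],[(k5,k2),(k6,k2)],[(k8,k2),(k11,k2)],[(k8,k2),(k11,k2)],[(k1,k2),(k10,k2)]]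
    [] k0
    []
    []]⟩

/-- classes `0 1 0 1 2 3`, types `C0 C0 C2 C2 C0 C0` -/
noncomputable def cT6_1975 : CertT :=
  ⟨[k4,k20,k6,k22,k36,k52],[],[[[]]],
    [.lp [k2,k2,k2,k2,k2,k2] [k0,k0,k0,k0,k0,k0,k0,k0,k0,k0,k0,k0] k0 [] k8 k5
    [[(k10,k2)],[(k3,k2),(k4,k2)],[(k0,k2),(k7,k2)],[(k5,k2),(k6,k2)],[(k2,k2),(k9,k2)],[(k0,k2),(k7,k2)],[(k3,k2),
    (k4,k2)],[(k2,k2),(k9,k2)],[(k5,k2),(k6,k2)],[(k11,k2)],[(k8,k2)],[(k1,k2)]]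
    [] k0
    []
    []]⟩

/-- classes `0 1 0 1 2 3`, types `C0 C0 C2 C2 C0 S0` -/
noncomputable def cT6_1976 : CertT :=
  ⟨[k4,k20,k6,k22,k36,k48],[],[[[]]],
    [.lp [k2,k2,k2,k2,k2,k2] [k0,k0,k0,k0,k0,k0,k0,k0,k0,k0,k0,k0] k0 [] k8 k5
    [[(k1,k2),(k10,k2)],[(k3,k2),(k4,k2)],[(k0,k2),(k7,k2)],[(k5,k2),(k6,k2)],[(k2,k2),(k9,k2)],[(k0,k2),(k7,k2)],
    [(k3,k2),(k4,k2)],[(k2,k2),(k9,k2)],[(k5,k2),(k6,k2)],[(k11,k2)],[(k8,k2)],[(k1,k2),(k10,k2)]]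
    [] k0
    []
    []]⟩

/-- classes `0 1 0 1 2 3`, types `C0 C0 C2 C2 S0 S0` -/
noncomputable def cT6_1977 : CertT :=
  ⟨[k4,k20,k6,k22,k32,k48],[],[[[]]],
    [.lp [k2,k2,k2,k2,k2,k2] [k0,k0,k0,k0,k0,k0,k0,k0,k0,k0,k0,k0] k0 [] k8 k5
    [[(k1,k2),(k10,k2)],[(k3,k2),(k4,k2)],[(k0,k2),(k7,k2)],[(k5,k2),(k6,k2)],[(k2,k2),(k9,k2)],[(k0,k2),(k7,k2)],
    [(k3,k2),(k4,k2)],[(k2,k2),(k9,k2)],[(k5,k2),(k6,k2)],[(k8,k2),(k11,k2)],[(k8,k2),(k11,k2)],[(k1,k2),(k10,k2)]]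
    [] k0
    []
    []]⟩

/-- classes `0 1 0 1 2 3`, types `C0 N0 C0 N1 C0 C0` -/
noncomputable def cT6_1978 : CertT :=
  ⟨[k4,k28,k4,k29,k36,k52],[],[[[]]],
    [.lp [k0,k2,k0,k2,k0,k2] [k1,k1,k0,k0,k1,k1,k0,k0,k1,k1,k0,k0] k0 [] k4 k5
    [[(k10,k1)],[(k3,k1),(k7,k1)],[(k0,k1),(k4,k1)],[(k9,k1)],[(k6,k1)],[(k3,k1),(k7,k1)],[(k0,k1),(k4,k1)],[(k5,k1)],
    [(k2,k1)],[(k11,k1)],[(k8,k1)],[(k1,k1)]]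
    [] k0
    []
    []]⟩

/-- classes `0 1 0 1 2 3`, types `C0 N0 C0 N1 C0 S0` -/
noncomputable def cT6_1979 : CertT :=
  ⟨[k4,k28,k4,k29,k36,k48],[],[[[]]],
    [.lp [k2,k2,k2,k2,k2,k2] [k0,k0,k0,k0,k0,k0,k0,k0,k0,k0,k0,k0] k0 [] k8 k5
    [[(k1,k2),(k10,k2)],[(k3,k2),(k7,k2)],[(k0,k2),(k4,k2)],[(k9,k2)],[(k6,k2)],[(k3,k2),(k7,k2)],[(k0,k2),(k4,k2)],
    [(k5,k2)],[(k2,k2)],[(k11,k2)],[(k8,k2)],[(k1,k2),(k10,k2)]]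
    [] k0
    []
    []]⟩

/-- classes `0 1 0 1 2 3`, types `C0 N0 C0 N1 S0 C0` -/
noncomputable def cT6_1980 : CertT :=
  ⟨[k4,k28,k4,k29,k32,k52],[],[[[]]],
    [.lp [k2,k2,k2,k2,k2,k2] [k0,k0,k0,k0,k0,k0,k0,k0,k0,k0,k0,k0] k0 [] k8 k5
    [[(k10,k2)],[(k3,k2),(k7,k2)],[(k0,k2),(k4,k2)],[(k9,k2)],[(k6,k2)],[(k3,k2),(k7,k2)],[(k0,k2),(k4,k2)],[(k5,k2)],
    [(k2,k2)],[(k8,k2),(k11,k2)],[(k8,k2),(k11,k2)],[(k1,k2)]]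
    [] k0
    []
    []]⟩

/-- classes `0 1 0 1 2 3`, types `C0 N0 C0 N1 S0 S0` -/
noncomputable def cT6_1981 : CertT :=
  ⟨[k4,k28,k4,k29,k32,k48],[],[[[]]],
    [.lp [k2,k2,k2,k2,k2,k2] [k0,k0,k0,k0,k0,k0,k0,k0,k0,k0,k0,k0] k0 [] k8 k5
    [[(k1,k2),(k10,k2)],[(k3,k2),(k7,k2)],[(k0,k2),(k4,k2)],[(k9,k2)],[(k6,k2)],[(k3,k2),(k7,k2)],[(k0,k2),(k4,k2)],
    [(k5,k2)],[(k2,k2)],[(k8,k2),(k11,k2)],[(k8,k2),(k11,k2)],[(k1,k2),(k10,k2)]]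
    [] k0
    []
    []]⟩

/-- classes `0 1 0 1 2 3`, types `C0 N0 C0 N2 C0 C0` -/
noncomputable def cT6_1982 : CertT :=
  ⟨[k4,k28,k4,k30,k36,k52],[],[[[]]],
    [.lp [k2,k2,k2,k2,k2,k2] [k0,k0,k0,k0,k0,k0,k0,k0,k0,k0,k0,k0] k0 [] k8 k5
    [[(k10,k2)],[(k3,k2),(k7,k2)],[(k0,k2),(k4,k2)],[(k6,k2)],[(k9,k2)],[(k3,k2),(k7,k2)],[(k0,k2),(k4,k2)],[(k2,k2)],
    [(k5,k2)],[(k11,k2)],[(k8,k2)],[(k1,k2)]]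
    [] k0
    []
    []]⟩

/-- classes `0 1 0 1 2 3`, types `C0 N0 C0 N2 C0 S0` -/
noncomputable def cT6_1983 : CertT :=
  ⟨[k4,k28,k4,k30,k36,k48],[],[[[]]],
    [.lp [k2,k2,k2,k2,k2,k2] [k0,k0,k0,k0,k0,k0,k0,k0,k0,k0,k0,k0] k0 [] k8 k5
    [[(k1,k2),(k10,k2)],[(k3,k2),(k7,k2)],[(k0,k2),(k4,k2)],[(k6,k2)],[(k9,k2)],[(k3,k2),(k7,k2)],[(k0,k2),(k4,k2)],
    [(k2,k2)],[(k5,k2)],[(k11,k2)],[(k8,k2)],[(k1,k2),(k10,k2)]]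
    [] k0
    []
    []]⟩

/-- classes `0 1 0 1 2 3`, types `C0 N0 C0 N2 S0 C0` -/
noncomputable def cT6_1984 : CertT :=
  ⟨[k4,k28,k4,k30,k32,k52],[],[[[]]],
    [.lp [k2,k2,k2,k2,k2,k2] [k0,k0,k0,k0,k0,k0,k0,k0,k0,k0,k0,k0] k0 [] k8 k5
    [[(k10,k2)],[(k3,k2),(k7,k2)],[(k0,k2),(k4,k2)],[(k6,k2)],[(k9,k2)],[(k3,k2),(k7,k2)],[(k0,k2),(k4,k2)],[(k2,k2)],
    [(k5,k2)],[(k8,k2),(k11,k2)],[(k8,k2),(k11,k2)],[(k1,k2)]]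
    [] k0
    []
    []]⟩

/-- classes `0 1 0 1 2 3`, types `C0 N0 C0 N2 S0 S0` -/
noncomputable def cT6_1985 : CertT :=
  ⟨[k4,k28,k4,k30,k32,k48],[],[[[]]],
    [.lp [k2,k2,k2,k2,k2,k2] [k0,k0,k0,k0,k0,k0,k0,k0,k0,k0,k0,k0] k0 [] k8 k5
    [[(k1,k2),(k10,k2)],[(k3,k2),(k7,k2)],[(k0,k2),(k4,k2)],[(k6,k2)],[(k9,k2)],[(k3,k2),(k7,k2)],[(k0,k2),(k4,k2)],
    [(k2,k2)],[(k5,k2)],[(k8,k2),(k11,k2)],[(k8,k2),(k11,k2)],[(k1,k2),(k10,k2)]]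
    [] k0
    []
    []]⟩

/-- classes `0 1 0 1 2 3`, types `C0 N0 C2 N1 C0 C0` -/
noncomputable def cT6_1986 : CertT :=
  ⟨[k4,k28,k6,k29,k36,k52],[],[[[]]],
    [.lp [k0,k2,k2,k0,k0,k2] [k1,k1,k0,k0,k0,k0,k1,k1,k1,k1,k0,k0] k0 [] k4 k5
    [[(k10,k1)],[(k3,k1),(k4,k1)],[(k0,k1),(k7,k1)],[(k9,k1)],[(k6,k1)],[(k0,k1),(k7,k1)],[(k3,k1),(k4,k1)],[(k5,k1)],
    [(k2,k1)],[(k11,k1)],[(k8,k1)],[(k1,k1)]]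
    [] k0
    []
    []]⟩

/-- classes `0 1 0 1 2 3`, types `C0 N0 C2 N1 C0 S0` -/
noncomputable def cT6_1987 : CertT :=
  ⟨[k4,k28,k6,k29,k36,k48],[],[[[]]],
    [.lp [k2,k2,k2,k2,k2,k2] [k0,k0,k0,k0,k0,k0,k0,k0,k0,k0,k0,k0] k0 [] k8 k5
    [[(k1,k2),(k10,k2)],[(k3,k2),(k4,k2)],[(k0,k2),(k7,k2)],[(k9,k2)],[(k6,k2)],[(k0,k2),(k7,k2)],[(k3,k2),(k4,k2)],
    [(k5,k2)],[(k2,k2)],[(k11,k2)],[(k8,k2)],[(k1,k2),(k10,k2)]]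
    [] k0
    []
    []]⟩

/-- classes `0 1 0 1 2 3`, types `C0 N0 C2 N1 S0 C0` -/
noncomputable def cT6_1988 : CertT :=
  ⟨[k4,k28,k6,k29,k32,k52],[],[[[]]],
    [.lp [k2,k2,k2,k2,k2,k2] [k0,k0,k0,k0,k0,k0,k0,k0,k0,k0,k0,k0] k0 [] k8 k5
    [[(k10,k2)],[(k3,k2),(k4,k2)],[(k0,k2),(k7,k2)],[(k9,k2)],[(k6,k2)],[(k0,k2),(k7,k2)],[(k3,k2),(k4,k2)],[(k5,k2)],
    [(k2,k2)],[(k8,k2),(k11,k2)],[(k8,k2),(k11,k2)],[(k1,k2)]]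
    [] k0
    []
    []]⟩

/-- classes `0 1 0 1 2 3`, types `C0 N0 C2 N1 S0 S0` -/
noncomputable def cT6_1989 : CertT :=
  ⟨[k4,k28,k6,k29,k32,k48],[],[[[]]],
    [.lp [k2,k2,k2,k2,k2,k2] [k0,k0,k0,k0,k0,k0,k0,k0,k0,k0,k0,k0] k0 [] k8 k5
    [[(k1,k2),(k10,k2)],[(k3,k2),(k4,k2)],[(k0,k2),(k7,k2)],[(k9,k2)],[(k6,k2)],[(k0,k2),(k7,k2)],[(k3,k2),(k4,k2)],
    [(k5,k2)],[(k2,k2)],[(k8,k2),(k11,k2)],[(k8,k2),(k11,k2)],[(k1,k2),(k10,k2)]]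
    [] k0
    []
    []]⟩

/-- classes `0 1 0 1 2 3`, types `C0 N0 C2 N2 C0 C0` -/
noncomputable def cT6_1990 : CertT :=
  ⟨[k4,k28,k6,k30,k36,k52],[],[[[]]],
    [.lp [k0,k2,k2,k0,k0,k2] [k1,k1,k0,k0,k0,k0,k1,k1,k1,k1,k0,k0] k0 [] k4 k5
    [[(k10,k1)],[(k3,k1),(k4,k1)],[(k0,k1),(k7,k1)],[(k6,k1)],[(k9,k1)],[(k0,k1),(k7,k1)],[(k3,k1),(k4,k1)],[(k2,k1)],
    [(k5,k1)],[(k11,k1)],[(k8,k1)],[(k1,k1)]]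
    [] k0
    []
    []]⟩

/-- classes `0 1 0 1 2 3`, types `C0 N0 C2 N2 C0 S0` -/
noncomputable def cT6_1991 : CertT :=
  ⟨[k4,k28,k6,k30,k36,k48],[],[[[]]],
    [.lp [k2,k2,k2,k2,k2,k2] [k0,k0,k0,k0,k0,k0,k0,k0,k0,k0,k0,k0] k0 [] k8 k5
    [[(k1,k2),(k10,k2)],[(k3,k2),(k4,k2)],[(k0,k2),(k7,k2)],[(k6,k2)],[(k9,k2)],[(k0,k2),(k7,k2)],[(k3,k2),(k4,k2)],
    [(k2,k2)],[(k5,k2)],[(k11,k2)],[(k8,k2)],[(k1,k2),(k10,k2)]]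
    [] k0
    []
    []]⟩

/-- classes `0 1 0 1 2 3`, types `C0 N0 C2 N2 S0 C0` -/
noncomputable def cT6_1992 : CertT :=
  ⟨[k4,k28,k6,k30,k32,k52],[],[[[]]],
    [.lp [k2,k2,k2,k2,k2,k2] [k0,k0,k0,k0,k0,k0,k0,k0,k0,k0,k0,k0] k0 [] k8 k5
    [[(k10,k2)],[(k3,k2),(k4,k2)],[(k0,k2),(k7,k2)],[(k6,k2)],[(k9,k2)],[(k0,k2),(k7,k2)],[(k3,k2),(k4,k2)],[(k2,k2)],
    [(k5,k2)],[(k8,k2),(k11,k2)],[(k8,k2),(k11,k2)],[(k1,k2)]]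
    [] k0
    []
    []]⟩

/-- classes `0 1 0 1 2 3`, types `C0 N0 C2 N2 S0 S0` -/
noncomputable def cT6_1993 : CertT :=
  ⟨[k4,k28,k6,k30,k32,k48],[],[[[]]],
    [.lp [k2,k2,k2,k2,k2,k2] [k0,k0,k0,k0,k0,k0,k0,k0,k0,k0,k0,k0] k0 [] k8 k5
    [[(k1,k2),(k10,k2)],[(k3,k2),(k4,k2)],[(k0,k2),(k7,k2)],[(k6,k2)],[(k9,k2)],[(k0,k2),(k7,k2)],[(k3,k2),(k4,k2)],
    [(k2,k2)],[(k5,k2)],[(k8,k2),(k11,k2)],[(k8,k2),(k11,k2)],[(k1,k2),(k10,k2)]]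
    [] k0
    []
    []]⟩

/-- classes `0 1 0 1 2 3`, types `C0 S0 C0 S0 C0 C0` -/
noncomputable def cT6_1994 : CertT :=
  ⟨[k4,k16,k4,k16,k36,k52],[],[[[]]],
    [.lp [k2,k2,k2,k2,k2,k2] [k0,k0,k0,k0,k0,k0,k0,k0,k0,k0,k0,k0] k0 [] k8 k5
    [[(k10,k2)],[(k3,k2),(k7,k2)],[(k0,k2),(k4,k2)],[(k2,k2),(k5,k2),(k6,k2),(k9,k2)],[(k2,k2),(k5,k2),(k6,k2),(k9,
    k2)],[(k3,k2),(k7,k2)],[(k0,k2),(k4,k2)],[(k2,k2),(k5,k2),(k6,k2),(k9,k2)],[(k2,k2),(k5,k2),(k6,k2),(k9,k2)],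
    [(k11,k2)],[(k8,k2)],[(k1,k2)]]
    [] k0
    []
    []]⟩

/-- classes `0 1 0 1 2 3`, types `C0 S0 C0 S0 C0 S0` -/
noncomputable def cT6_1995 : CertT :=
  ⟨[k4,k16,k4,k16,k36,k48],[],[[[]]],
    [.lp [k2,k2,k2,k2,k2,k2] [k0,k0,k0,k0,k0,k0,k0,k0,k0,k0,k0,k0] k0 [] k8 k5
    [[(k1,k2),(k10,k2)],[(k3,k2),(k7,k2)],[(k0,k2),(k4,k2)],[(k2,k2),(k5,k2),(k6,k2),(k9,k2)],[(k2,k2),(k5,k2),(k6,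
    k2),(k9,k2)],[(k3,k2),(k7,k2)],[(k0,k2),(k4,k2)],[(k2,k2),(k5,k2),(k6,k2),(k9,k2)],[(k2,k2),(k5,k2),(k6,k2),(k9,
    k2)],[(k11,k2)],[(k8,k2)],[(k1,k2),(k10,k2)]]
    [] k0
    []
    []]⟩

/-- classes `0 1 0 1 2 3`, types `C0 S0 C0 S0 S0 C0` -/
noncomputable def cT6_1996 : CertT :=
  ⟨[k4,k16,k4,k16,k32,k52],[],[[[]]],
    [.lp [k2,k2,k2,k2,k2,k2] [k0,k0,k0,k0,k0,k0,k0,k0,k0,k0,k0,k0] k0 [] k8 k5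
    [[(k10,k2)],[(k3,k2),(k7,k2)],[(k0,k2),(k4,k2)],[(k2,k2),(k5,k2),(k6,k2),(k9,k2)],[(k2,k2),(k5,k2),(k6,k2),(k9,
    k2)],[(k3,k2),(k7,k2)],[(k0,k2),(k4,k2)],[(k2,k2),(k5,k2),(k6,k2),(k9,k2)],[(k2,k2),(k5,k2),(k6,k2),(k9,k2)],[(k8,
    k2),(k11,k2)],[(k8,k2),(k11,k2)],[(k1,k2)]]
    [] k0
    []
    []]⟩

/-- classes `0 1 0 1 2 3`, types `C0 S0 C0 S0 S0 S0` -/
noncomputable def cT6_1997 : CertT :=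
  ⟨[k4,k16,k4,k16,k32,k48],[],[[[]]],
    [.lp [k2,k2,k2,k2,k2,k2] [k0,k0,k0,k0,k0,k0,k0,k0,k0,k0,k0,k0] k0 [] k8 k5
    [[(k1,k2),(k10,k2)],[(k3,k2),(k7,k2)],[(k0,k2),(k4,k2)],[(k2,k2),(k5,k2),(k6,k2),(k9,k2)],[(k2,k2),(k5,k2),(k6,
    k2),(k9,k2)],[(k3,k2),(k7,k2)],[(k0,k2),(k4,k2)],[(k2,k2),(k5,k2),(k6,k2),(k9,k2)],[(k2,k2),(k5,k2),(k6,k2),(k9,
    k2)],[(k8,k2),(k11,k2)],[(k8,k2),(k11,k2)],[(k1,k2),(k10,k2)]]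
    [] k0
    []
    []]⟩

/-- classes `0 1 0 1 2 3`, types `C0 S0 C2 S0 C0 C0` -/
noncomputable def cT6_1998 : CertT :=
  ⟨[k4,k16,k6,k16,k36,k52],[],[[[]]],
    [.lp [k2,k2,k2,k2,k2,k2] [k0,k0,k0,k0,k0,k0,k0,k0,k0,k0,k0,k0] k0 [] k8 k5
    [[(k10,k2)],[(k3,k2),(k4,k2)],[(k0,k2),(k7,k2)],[(k2,k2),(k5,k2),(k6,k2),(k9,k2)],[(k2,k2),(k5,k2),(k6,k2),(k9,
    k2)],[(k0,k2),(k7,k2)],[(k3,k2),(k4,k2)],[(k2,k2),(k5,k2),(k6,k2),(k9,k2)],[(k2,k2),(k5,k2),(k6,k2),(k9,k2)],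
    [(k11,k2)],[(k8,k2)],[(k1,k2)]]
    [] k0
    []
    []]⟩

/-- classes `0 1 0 1 2 3`, types `C0 S0 C2 S0 C0 S0` -/
noncomputable def cT6_1999 : CertT :=
  ⟨[k4,k16,k6,k16,k36,k48],[],[[[]]],
    [.lp [k2,k2,k2,k2,k2,k2] [k0,k0,k0,k0,k0,k0,k0,k0,k0,k0,k0,k0] k0 [] k8 k5
    [[(k1,k2),(k10,k2)],[(k3,k2),(k4,k2)],[(k0,k2),(k7,k2)],[(k2,k2),(k5,k2),(k6,k2),(k9,k2)],[(k2,k2),(k5,k2),(k6,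
    k2),(k9,k2)],[(k0,k2),(k7,k2)],[(k3,k2),(k4,k2)],[(k2,k2),(k5,k2),(k6,k2),(k9,k2)],[(k2,k2),(k5,k2),(k6,k2),(k9,
    k2)],[(k11,k2)],[(k8,k2)],[(k1,k2),(k10,k2)]]
    [] k0
    []
    []]⟩

/-- classes `0 1 0 1 2 3`, types `C0 S0 C2 S0 S0 C0` -/
noncomputable def cT6_2000 : CertT :=
  ⟨[k4,k16,k6,k16,k32,k52],[],[[[]]],
    [.lp [k2,k2,k2,k2,k2,k2] [k0,k0,k0,k0,k0,k0,k0,k0,k0,k0,k0,k0] k0 [] k8 k5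
    [[(k10,k2)],[(k3,k2),(k4,k2)],[(k0,k2),(k7,k2)],[(k2,k2),(k5,k2),(k6,k2),(k9,k2)],[(k2,k2),(k5,k2),(k6,k2),(k9,
    k2)],[(k0,k2),(k7,k2)],[(k3,k2),(k4,k2)],[(k2,k2),(k5,k2),(k6,k2),(k9,k2)],[(k2,k2),(k5,k2),(k6,k2),(k9,k2)],[(k8,
    k2),(k11,k2)],[(k8,k2),(k11,k2)],[(k1,k2)]]
    [] k0
    []
    []]⟩

/-- classes `0 1 0 1 2 3`, types `C0 S0 C2 S0 S0 S0` -/
noncomputable def cT6_2001 : CertT :=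
  ⟨[k4,k16,k6,k16,k32,k48],[],[[[]]],
    [.lp [k2,k2,k2,k2,k2,k2] [k0,k0,k0,k0,k0,k0,k0,k0,k0,k0,k0,k0] k0 [] k8 k5
    [[(k1,k2),(k10,k2)],[(k3,k2),(k4,k2)],[(k0,k2),(k7,k2)],[(k2,k2),(k5,k2),(k6,k2),(k9,k2)],[(k2,k2),(k5,k2),(k6,
    k2),(k9,k2)],[(k0,k2),(k7,k2)],[(k3,k2),(k4,k2)],[(k2,k2),(k5,k2),(k6,k2),(k9,k2)],[(k2,k2),(k5,k2),(k6,k2),(k9,
    k2)],[(k8,k2),(k11,k2)],[(k8,k2),(k11,k2)],[(k1,k2),(k10,k2)]]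
    [] k0
    []
    []]⟩

/-- classes `0 1 0 1 2 3`, types `N0 N0 N1 N1 C0 C0` -/
noncomputable def cT6_2002 : CertT :=
  ⟨[k12,k28,k13,k29,k36,k52],[],[[[]]],
    [.lp [k0,k2,k0,k2,k0,k2] [k1,k1,k0,k0,k1,k1,k0,k0,k1,k1,k0,k0] k0 [] k4 k5
    [[(k10,k1)],[(k7,k1)],[(k4,k1)],[(k9,k1)],[(k6,k1)],[(k3,k1)],[(k0,k1)],[(k5,k1)],[(k2,k1)],[(k11,k1)],[(k8,k1)],
    [(k1,k1)]]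
    [] k0
    []
    []]⟩

/-- classes `0 1 0 1 2 3`, types `N0 N0 N1 N1 C0 S0` -/
noncomputable def cT6_2003 : CertT :=
  ⟨[k12,k28,k13,k29,k36,k48],[],[[[]]],
    [.lp [k2,k2,k2,k2,k2,k2] [k0,k0,k0,k0,k0,k0,k0,k0,k0,k0,k0,k0] k0 [] k8 k5
    [[(k1,k2),(k10,k2)],[(k7,k2)],[(k4,k2)],[(k9,k2)],[(k6,k2)],[(k3,k2)],[(k0,k2)],[(k5,k2)],[(k2,k2)],[(k11,k2)],
    [(k8,k2)],[(k1,k2),(k10,k2)]]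
    [] k0
    []
    []]⟩

/-- classes `0 1 0 1 2 3`, types `N0 N0 N1 N1 S0 S0` -/
noncomputable def cT6_2004 : CertT :=
  ⟨[k12,k28,k13,k29,k32,k48],[],[[[]]],
    [.lp [k2,k2,k2,k2,k2,k2] [k0,k0,k0,k0,k0,k0,k0,k0,k0,k0,k0,k0] k0 [] k8 k5
    [[(k1,k2),(k10,k2)],[(k7,k2)],[(k4,k2)],[(k9,k2)],[(k6,k2)],[(k3,k2)],[(k0,k2)],[(k5,k2)],[(k2,k2)],[(k8,k2),(k11,
    k2)],[(k8,k2),(k11,k2)],[(k1,k2),(k10,k2)]]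
    [] k0
    []
    []]⟩

/-- classes `0 1 0 1 2 3`, types `N0 N0 N1 N2 C0 C0` -/
noncomputable def cT6_2005 : CertT :=
  ⟨[k12,k28,k13,k30,k36,k52],[],[[[]]],
    [.lp [k2,k2,k0,k0,k2,k0] [k0,k0,k0,k0,k1,k1,k1,k1,k0,k0,k1,k1] k0 [] k4 k5
    [[(k10,k1)],[(k7,k1)],[(k4,k1)],[(k6,k1)],[(k9,k1)],[(k3,k1)],[(k0,k1)],[(k2,k1)],[(k5,k1)],[(k11,k1)],[(k8,k1)],
    [(k1,k1)]]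
    [] k0
    []
    []]⟩

/-- classes `0 1 0 1 2 3`, types `N0 N0 N1 N2 C0 S0` -/
noncomputable def cT6_2006 : CertT :=
  ⟨[k12,k28,k13,k30,k36,k48],[],[[[]]],
    [.lp [k2,k2,k2,k2,k2,k2] [k0,k0,k0,k0,k0,k0,k0,k0,k0,k0,k0,k0] k0 [] k8 k5
    [[(k1,k2),(k10,k2)],[(k7,k2)],[(k4,k2)],[(k6,k2)],[(k9,k2)],[(k3,k2)],[(k0,k2)],[(k2,k2)],[(k5,k2)],[(k11,k2)],
    [(k8,k2)],[(k1,k2),(k10,k2)]]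
    [] k0
    []
    []]⟩

/-- classes `0 1 0 1 2 3`, types `N0 N0 N1 N2 S0 C0` -/
noncomputable def cT6_2007 : CertT :=
  ⟨[k12,k28,k13,k30,k32,k52],[],[[[]]],
    [.lp [k2,k2,k2,k2,k2,k2] [k0,k0,k0,k0,k0,k0,k0,k0,k0,k0,k0,k0] k0 [] k8 k5
    [[(k10,k2)],[(k7,k2)],[(k4,k2)],[(k6,k2)],[(k9,k2)],[(k3,k2)],[(k0,k2)],[(k2,k2)],[(k5,k2)],[(k8,k2),(k11,k2)],
    [(k8,k2),(k11,k2)],[(k1,k2)]]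
    [] k0
    []
    []]⟩

/-- classes `0 1 0 1 2 3`, types `N0 N0 N1 N2 S0 S0` -/
noncomputable def cT6_2008 : CertT :=
  ⟨[k12,k28,k13,k30,k32,k48],[],[[[]]],
    [.lp [k2,k2,k2,k2,k2,k2] [k0,k0,k0,k0,k0,k0,k0,k0,k0,k0,k0,k0] k0 [] k8 k5
    [[(k1,k2),(k10,k2)],[(k7,k2)],[(k4,k2)],[(k6,k2)],[(k9,k2)],[(k3,k2)],[(k0,k2)],[(k2,k2)],[(k5,k2)],[(k8,k2),(k11,
    k2)],[(k8,k2),(k11,k2)],[(k1,k2),(k10,k2)]]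
    [] k0
    []
    []]⟩

/-- classes `0 1 0 1 2 3`, types `N0 N0 N2 N2 C0 C0` -/
noncomputable def cT6_2009 : CertT :=
  ⟨[k12,k28,k14,k30,k36,k52],[],[[[]]],
    [.lp [k2,k2,k0,k0,k2,k0] [k0,k0,k0,k0,k1,k1,k1,k1,k0,k0,k1,k1] k0 [] k4 k5
    [[(k10,k1)],[(k4,k1)],[(k7,k1)],[(k6,k1)],[(k9,k1)],[(k0,k1)],[(k3,k1)],[(k2,k1)],[(k5,k1)],[(k11,k1)],[(k8,k1)],
    [(k1,k1)]]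
    [] k0
    []
    []]⟩

/-- classes `0 1 0 1 2 3`, types `N0 N0 N2 N2 C0 S0` -/
noncomputable def cT6_2010 : CertT :=
  ⟨[k12,k28,k14,k30,k36,k48],[],[[[]]],
    [.lp [k2,k0,k2,k4,k2,k2] [k1,k1,k2,k2,k1,k1,k0,k0,k1,k1,k1,k1] k0 [] k8 k5
    [[(k1,k2),(k10,k2)],[(k4,k2)],[(k7,k2)],[(k6,k2)],[(k9,k2)],[(k0,k2)],[(k3,k2)],[(k2,k2)],[(k5,k2)],[(k11,k2)],
    [(k8,k2)],[(k1,k2),(k10,k2)]]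
    [] k0
    []
    []]⟩

/-- classes `0 1 0 1 2 3`, types `N0 N0 N2 N2 S0 S0` -/
noncomputable def cT6_2011 : CertT :=
  ⟨[k12,k28,k14,k30,k32,k48],[],[[[]]],
    [.lp [k2,k0,k2,k4,k2,k2] [k1,k1,k2,k2,k1,k1,k0,k0,k1,k1,k1,k1] k0 [] k8 k5
    [[(k1,k2),(k10,k2)],[(k4,k2)],[(k7,k2)],[(k6,k2)],[(k9,k2)],[(k0,k2)],[(k3,k2)],[(k2,k2)],[(k5,k2)],[(k8,k2),(k11,
    k2)],[(k8,k2),(k11,k2)],[(k1,k2),(k10,k2)]]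
    [] k0
    []
    []]⟩

/-- classes `0 1 0 1 2 3`, types `N0 S0 N1 S0 C0 C0` -/
noncomputable def cT6_2012 : CertT :=
  ⟨[k12,k16,k13,k16,k36,k52],[],[[[]]],
    [.lp [k2,k2,k2,k2,k2,k2] [k0,k0,k0,k0,k0,k0,k0,k0,k0,k0,k0,k0] k0 [] k8 k5
    [[(k10,k2)],[(k7,k2)],[(k4,k2)],[(k2,k2),(k5,k2),(k6,k2),(k9,k2)],[(k2,k2),(k5,k2),(k6,k2),(k9,k2)],[(k3,k2)],
    [(k0,k2)],[(k2,k2),(k5,k2),(k6,k2),(k9,k2)],[(k2,k2),(k5,k2),(k6,k2),(k9,k2)],[(k11,k2)],[(k8,k2)],[(k1,k2)]]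
    [] k0
    []
    []]⟩

/-- classes `0 1 0 1 2 3`, types `N0 S0 N1 S0 C0 S0` -/
noncomputable def cT6_2013 : CertT :=
  ⟨[k12,k16,k13,k16,k36,k48],[],[[[]]],
    [.lp [k2,k2,k2,k2,k2,k2] [k0,k0,k0,k0,k0,k0,k0,k0,k0,k0,k0,k0] k0 [] k8 k5
    [[(k1,k2),(k10,k2)],[(k7,k2)],[(k4,k2)],[(k2,k2),(k5,k2),(k6,k2),(k9,k2)],[(k2,k2),(k5,k2),(k6,k2),(k9,k2)],[(k3,
    k2)],[(k0,k2)],[(k2,k2),(k5,k2),(k6,k2),(k9,k2)],[(k2,k2),(k5,k2),(k6,k2),(k9,k2)],[(k11,k2)],[(k8,k2)],[(k1,k2),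
    (k10,k2)]]
    [] k0
    []
    []]⟩

/-- classes `0 1 0 1 2 3`, types `N0 S0 N1 S0 S0 C0` -/
noncomputable def cT6_2014 : CertT :=
  ⟨[k12,k16,k13,k16,k32,k52],[],[[[]]],
    [.lp [k2,k2,k2,k2,k2,k2] [k0,k0,k0,k0,k0,k0,k0,k0,k0,k0,k0,k0] k0 [] k8 k5
    [[(k10,k2)],[(k7,k2)],[(k4,k2)],[(k2,k2),(k5,k2),(k6,k2),(k9,k2)],[(k2,k2),(k5,k2),(k6,k2),(k9,k2)],[(k3,k2)],
    [(k0,k2)],[(k2,k2),(k5,k2),(k6,k2),(k9,k2)],[(k2,k2),(k5,k2),(k6,k2),(k9,k2)],[(k8,k2),(k11,k2)],[(k8,k2),(k11,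
    k2)],[(k1,k2)]]
    [] k0
    []
    []]⟩

/-- classes `0 1 0 1 2 3`, types `N0 S0 N1 S0 S0 S0` -/
noncomputable def cT6_2015 : CertT :=
  ⟨[k12,k16,k13,k16,k32,k48],[],[[[]]],
    [.lp [k2,k2,k2,k2,k2,k2] [k0,k0,k0,k0,k0,k0,k0,k0,k0,k0,k0,k0] k0 [] k8 k5
    [[(k1,k2),(k10,k2)],[(k7,k2)],[(k4,k2)],[(k2,k2),(k5,k2),(k6,k2),(k9,k2)],[(k2,k2),(k5,k2),(k6,k2),(k9,k2)],[(k3,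
    k2)],[(k0,k2)],[(k2,k2),(k5,k2),(k6,k2),(k9,k2)],[(k2,k2),(k5,k2),(k6,k2),(k9,k2)],[(k8,k2),(k11,k2)],[(k8,k2),
    (k11,k2)],[(k1,k2),(k10,k2)]]
    [] k0
    []
    []]⟩

/-- classes `0 1 0 1 2 3`, types `N0 S0 N2 S0 C0 C0` -/
noncomputable def cT6_2016 : CertT :=
  ⟨[k12,k16,k14,k16,k36,k52],[],[[[]]],
    [.lp [k2,k2,k2,k2,k2,k2] [k0,k0,k0,k0,k0,k0,k0,k0,k0,k0,k0,k0] k0 [] k8 k5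
    [[(k10,k2)],[(k4,k2)],[(k7,k2)],[(k2,k2),(k5,k2),(k6,k2),(k9,k2)],[(k2,k2),(k5,k2),(k6,k2),(k9,k2)],[(k0,k2)],
    [(k3,k2)],[(k2,k2),(k5,k2),(k6,k2),(k9,k2)],[(k2,k2),(k5,k2),(k6,k2),(k9,k2)],[(k11,k2)],[(k8,k2)],[(k1,k2)]]
    [] k0
    []
    []]⟩

/-- classes `0 1 0 1 2 3`, types `N0 S0 N2 S0 C0 S0` -/
noncomputable def cT6_2017 : CertT :=
  ⟨[k12,k16,k14,k16,k36,k48],[],[[[]]],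
    [.lp [k2,k2,k2,k2,k2,k2] [k0,k0,k0,k0,k0,k0,k0,k0,k0,k0,k0,k0] k0 [] k8 k5
    [[(k1,k2),(k10,k2)],[(k4,k2)],[(k7,k2)],[(k2,k2),(k5,k2),(k6,k2),(k9,k2)],[(k2,k2),(k5,k2),(k6,k2),(k9,k2)],[(k0,
    k2)],[(k3,k2)],[(k2,k2),(k5,k2),(k6,k2),(k9,k2)],[(k2,k2),(k5,k2),(k6,k2),(k9,k2)],[(k11,k2)],[(k8,k2)],[(k1,k2),
    (k10,k2)]]
    [] k0
    []
    []]⟩

/-- classes `0 1 0 1 2 3`, types `N0 S0 N2 S0 S0 C0` -/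
noncomputable def cT6_2018 : CertT :=
  ⟨[k12,k16,k14,k16,k32,k52],[],[[[]]],
    [.lp [k2,k2,k2,k2,k2,k2] [k0,k0,k0,k0,k0,k0,k0,k0,k0,k0,k0,k0] k0 [] k8 k5
    [[(k10,k2)],[(k4,k2)],[(k7,k2)],[(k2,k2),(k5,k2),(k6,k2),(k9,k2)],[(k2,k2),(k5,k2),(k6,k2),(k9,k2)],[(k0,k2)],
    [(k3,k2)],[(k2,k2),(k5,k2),(k6,k2),(k9,k2)],[(k2,k2),(k5,k2),(k6,k2),(k9,k2)],[(k8,k2),(k11,k2)],[(k8,k2),(k11,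
    k2)],[(k1,k2)]]
    [] k0
    []
    []]⟩

/-- classes `0 1 0 1 2 3`, types `N0 S0 N2 S0 S0 S0` -/
noncomputable def cT6_2019 : CertT :=
  ⟨[k12,k16,k14,k16,k32,k48],[],[[[]]],
    [.lp [k2,k2,k2,k2,k2,k2] [k0,k0,k0,k0,k0,k0,k0,k0,k0,k0,k0,k0] k0 [] k8 k5
    [[(k1,k2),(k10,k2)],[(k4,k2)],[(k7,k2)],[(k2,k2),(k5,k2),(k6,k2),(k9,k2)],[(k2,k2),(k5,k2),(k6,k2),(k9,k2)],[(k0,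
    k2)],[(k3,k2)],[(k2,k2),(k5,k2),(k6,k2),(k9,k2)],[(k2,k2),(k5,k2),(k6,k2),(k9,k2)],[(k8,k2),(k11,k2)],[(k8,k2),
    (k11,k2)],[(k1,k2),(k10,k2)]]
    [] k0
    []
    []]⟩

/-- classes `0 1 0 1 2 3`, types `S0 S0 S0 S0 C0 C0` -/
noncomputable def cT6_2020 : CertT :=
  ⟨[k0,k16,k0,k16,k36,k52],[],[[[]]],
    [.lp [k2,k2,k2,k2,k2,k2] [k0,k0,k0,k0,k0,k0,k0,k0,k0,k0,k0,k0] k0 [] k8 k5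
    [[(k10,k2)],[(k0,k2),(k3,k2),(k4,k2),(k7,k2)],[(k0,k2),(k3,k2),(k4,k2),(k7,k2)],[(k2,k2),(k5,k2),(k6,k2),(k9,k2)],
    [(k2,k2),(k5,k2),(k6,k2),(k9,k2)],[(k0,k2),(k3,k2),(k4,k2),(k7,k2)],[(k0,k2),(k3,k2),(k4,k2),(k7,k2)],[(k2,k2),
    (k5,k2),(k6,k2),(k9,k2)],[(k2,k2),(k5,k2),(k6,k2),(k9,k2)],[(k11,k2)],[(k8,k2)],[(k1,k2)]]
    [] k0
    []
    []]⟩

/-- classes `0 1 0 1 2 3`, types `S0 S0 S0 S0 C0 S0` -/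
noncomputable def cT6_2021 : CertT :=
  ⟨[k0,k16,k0,k16,k36,k48],[],[[[]]],
    [.lp [k2,k2,k2,k2,k2,k2] [k0,k0,k0,k0,k0,k0,k0,k0,k0,k0,k0,k0] k0 [] k8 k5
    [[(k1,k2),(k10,k2)],[(k0,k2),(k3,k2),(k4,k2),(k7,k2)],[(k0,k2),(k3,k2),(k4,k2),(k7,k2)],[(k2,k2),(k5,k2),(k6,k2),
    (k9,k2)],[(k2,k2),(k5,k2),(k6,k2),(k9,k2)],[(k0,k2),(k3,k2),(k4,k2),(k7,k2)],[(k0,k2),(k3,k2),(k4,k2),(k7,k2)],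
    [(k2,k2),(k5,k2),(k6,k2),(k9,k2)],[(k2,k2),(k5,k2),(k6,k2),(k9,k2)],[(k11,k2)],[(k8,k2)],[(k1,k2),(k10,k2)]]
    [] k0
    []
    []]⟩

/-- classes `0 1 0 2 0 3`, types `C0 C0 C0 C0 C0 C0` -/
noncomputable def cT6_2022 : CertT :=
  ⟨[k4,k20,k4,k36,k4,k52],[],[[[]]],
    [.lp [k2,k0,k2,k0,k2,k0] [k0,k0,k1,k1,k0,k0,k1,k1,k0,k0,k1,k1] k0 [] k4 k5
    [[(k10,k1)],[(k3,k1),(k7,k1),(k11,k1)],[(k0,k1),(k4,k1),(k8,k1)],[(k5,k1)],[(k2,k1)],[(k3,k1),(k7,k1),(k11,k1)],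
    [(k0,k1),(k4,k1),(k8,k1)],[(k9,k1)],[(k6,k1)],[(k3,k1),(k7,k1),(k11,k1)],[(k0,k1),(k4,k1),(k8,k1)],[(k1,k1)]]
    [] k0
    []
    []]⟩

/-- classes `0 1 0 2 0 3`, types `C0 C0 C0 C0 C0 S0` -/
noncomputable def cT6_2023 : CertT :=
  ⟨[k4,k20,k4,k36,k4,k48],[],[[[]]],
    [.lp [k2,k2,k2,k2,k2,k2] [k0,k0,k0,k0,k0,k0,k0,k0,k0,k0,k0,k0] k0 [] k8 k5
    [[(k1,k2),(k10,k2)],[(k3,k2),(k7,k2),(k11,k2)],[(k0,k2),(k4,k2),(k8,k2)],[(k5,k2)],[(k2,k2)],[(k3,k2),(k7,k2),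
    (k11,k2)],[(k0,k2),(k4,k2),(k8,k2)],[(k9,k2)],[(k6,k2)],[(k3,k2),(k7,k2),(k11,k2)],[(k0,k2),(k4,k2),(k8,k2)],[(k1,
    k2),(k10,k2)]]
    [] k0
    []
    []]⟩

/-- classes `0 1 0 2 0 3`, types `C0 C0 C0 C0 C2 C0` -/
noncomputable def cT6_2024 : CertT :=
  ⟨[k4,k20,k4,k36,k6,k52],[],[[[]]],
    [.lp [k2,k2,k2,k2,k2,k2] [k0,k0,k0,k0,k0,k0,k0,k0,k0,k0,k0,k0] k0 [] k8 k5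
    [[(k10,k2)],[(k3,k2),(k7,k2),(k8,k2)],[(k0,k2),(k4,k2),(k11,k2)],[(k5,k2)],[(k2,k2)],[(k3,k2),(k7,k2),(k8,k2)],
    [(k0,k2),(k4,k2),(k11,k2)],[(k9,k2)],[(k6,k2)],[(k0,k2),(k4,k2),(k11,k2)],[(k3,k2),(k7,k2),(k8,k2)],[(k1,k2)]]
    [] k0
    []
    []]⟩

/-- classes `0 1 0 2 0 3`, types `C0 C0 C0 C0 C2 S0` -/
noncomputable def cT6_2025 : CertT :=
  ⟨[k4,k20,k4,k36,k6,k48],[],[[[]]],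
    [.lp [k2,k2,k2,k2,k2,k2] [k0,k0,k0,k0,k0,k0,k0,k0,k0,k0,k0,k0] k0 [] k8 k5
    [[(k1,k2),(k10,k2)],[(k3,k2),(k7,k2),(k8,k2)],[(k0,k2),(k4,k2),(k11,k2)],[(k5,k2)],[(k2,k2)],[(k3,k2),(k7,k2),(k8,
    k2)],[(k0,k2),(k4,k2),(k11,k2)],[(k9,k2)],[(k6,k2)],[(k0,k2),(k4,k2),(k11,k2)],[(k3,k2),(k7,k2),(k8,k2)],[(k1,k2),
    (k10,k2)]]
    [] k0
    []
    []]⟩

/-- classes `0 1 0 2 0 3`, types `C0 C0 C0 S0 C0 S0` -/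
noncomputable def cT6_2026 : CertT :=
  ⟨[k4,k20,k4,k32,k4,k48],[],[[[]]],
    [.lp [k2,k2,k2,k2,k2,k2] [k0,k0,k0,k0,k0,k0,k0,k0,k0,k0,k0,k0] k0 [] k8 k5
    [[(k1,k2),(k10,k2)],[(k3,k2),(k7,k2),(k11,k2)],[(k0,k2),(k4,k2),(k8,k2)],[(k5,k2)],[(k2,k2)],[(k3,k2),(k7,k2),
    (k11,k2)],[(k0,k2),(k4,k2),(k8,k2)],[(k6,k2),(k9,k2)],[(k6,k2),(k9,k2)],[(k3,k2),(k7,k2),(k11,k2)],[(k0,k2),(k4,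
    k2),(k8,k2)],[(k1,k2),(k10,k2)]]
    [] k0
    []
    []]⟩

/-- classes `0 1 0 2 0 3`, types `C0 C0 C0 S0 C2 S0` -/
noncomputable def cT6_2027 : CertT :=
  ⟨[k4,k20,k4,k32,k6,k48],[],[[[]]],
    [.lp [k2,k2,k2,k2,k2,k2] [k0,k0,k0,k0,k0,k0,k0,k0,k0,k0,k0,k0] k0 [] k8 k5
    [[(k1,k2),(k10,k2)],[(k3,k2),(k7,k2),(k8,k2)],[(k0,k2),(k4,k2),(k11,k2)],[(k5,k2)],[(k2,k2)],[(k3,k2),(k7,k2),(k8,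
    k2)],[(k0,k2),(k4,k2),(k11,k2)],[(k6,k2),(k9,k2)],[(k6,k2),(k9,k2)],[(k0,k2),(k4,k2),(k11,k2)],[(k3,k2),(k7,k2),
    (k8,k2)],[(k1,k2),(k10,k2)]]
    [] k0
    []
    []]⟩

/-- classes `0 1 0 2 0 3`, types `C0 C0 C2 C0 C0 S0` -/
noncomputable def cT6_2028 : CertT :=
  ⟨[k4,k20,k6,k36,k4,k48],[],[[[]]],
    [.lp [k2,k2,k2,k2,k2,k2] [k0,k0,k0,k0,k0,k0,k0,k0,k0,k0,k0,k0] k0 [] k8 k5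
    [[(k1,k2),(k10,k2)],[(k3,k2),(k4,k2),(k11,k2)],[(k0,k2),(k7,k2),(k8,k2)],[(k5,k2)],[(k2,k2)],[(k0,k2),(k7,k2),(k8,
    k2)],[(k3,k2),(k4,k2),(k11,k2)],[(k9,k2)],[(k6,k2)],[(k3,k2),(k4,k2),(k11,k2)],[(k0,k2),(k7,k2),(k8,k2)],[(k1,k2),
    (k10,k2)]]
    [] k0
    []
    []]⟩

/-- classes `0 1 0 2 0 3`, types `C0 C0 C2 S0 C0 S0` -/
noncomputable def cT6_2029 : CertT :=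
  ⟨[k4,k20,k6,k32,k4,k48],[],[[[]]],
    [.lp [k2,k2,k2,k2,k2,k2] [k0,k0,k0,k0,k0,k0,k0,k0,k0,k0,k0,k0] k0 [] k8 k5
    [[(k1,k2),(k10,k2)],[(k3,k2),(k4,k2),(k11,k2)],[(k0,k2),(k7,k2),(k8,k2)],[(k5,k2)],[(k2,k2)],[(k0,k2),(k7,k2),(k8,
    k2)],[(k3,k2),(k4,k2),(k11,k2)],[(k6,k2),(k9,k2)],[(k6,k2),(k9,k2)],[(k3,k2),(k4,k2),(k11,k2)],[(k0,k2),(k7,k2),
    (k8,k2)],[(k1,k2),(k10,k2)]]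
    [] k0
    []
    []]⟩

/-- classes `0 1 0 2 0 3`, types `C0 S0 C0 S0 C0 S0` -/
noncomputable def cT6_2030 : CertT :=
  ⟨[k4,k16,k4,k32,k4,k48],[],[[[]]],
    [.lp [k2,k2,k2,k2,k2,k2] [k0,k0,k0,k0,k0,k0,k0,k0,k0,k0,k0,k0] k0 [] k8 k5
    [[(k1,k2),(k10,k2)],[(k3,k2),(k7,k2),(k11,k2)],[(k0,k2),(k4,k2),(k8,k2)],[(k2,k2),(k5,k2)],[(k2,k2),(k5,k2)],[(k3,
    k2),(k7,k2),(k11,k2)],[(k0,k2),(k4,k2),(k8,k2)],[(k6,k2),(k9,k2)],[(k6,k2),(k9,k2)],[(k3,k2),(k7,k2),(k11,k2)],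
    [(k0,k2),(k4,k2),(k8,k2)],[(k1,k2),(k10,k2)]]
    [] k0
    []
    []]⟩

/-- classes `0 1 0 2 0 3`, types `C0 S0 C0 S0 C2 S0` -/
noncomputable def cT6_2031 : CertT :=
  ⟨[k4,k16,k4,k32,k6,k48],[],[[[]]],
    [.lp [k2,k2,k2,k2,k2,k2] [k0,k0,k0,k0,k0,k0,k0,k0,k0,k0,k0,k0] k0 [] k8 k5
    [[(k1,k2),(k10,k2)],[(k3,k2),(k7,k2),(k8,k2)],[(k0,k2),(k4,k2),(k11,k2)],[(k2,k2),(k5,k2)],[(k2,k2),(k5,k2)],[(k3,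
    k2),(k7,k2),(k8,k2)],[(k0,k2),(k4,k2),(k11,k2)],[(k6,k2),(k9,k2)],[(k6,k2),(k9,k2)],[(k0,k2),(k4,k2),(k11,k2)],
    [(k3,k2),(k7,k2),(k8,k2)],[(k1,k2),(k10,k2)]]
    [] k0
    []
    []]⟩

/-- classes `0 1 0 2 0 3`, types `S0 C0 S0 C0 S0 C0` -/
noncomputable def cT6_2032 : CertT :=
  ⟨[k0,k20,k0,k36,k0,k52],[],[[[]]],
    [.lp [k2,k2,k2,k2,k2,k2] [k0,k0,k0,k0,k0,k0,k0,k0,k0,k0,k0,k0] k0 [] k8 k5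
    [[(k10,k2)],[(k0,k2),(k3,k2),(k4,k2),(k7,k2),(k8,k2),(k11,k2)],[(k0,k2),(k3,k2),(k4,k2),(k7,k2),(k8,k2),(k11,k2)],
    [(k5,k2)],[(k2,k2)],[(k0,k2),(k3,k2),(k4,k2),(k7,k2),(k8,k2),(k11,k2)],[(k0,k2),(k3,k2),(k4,k2),(k7,k2),(k8,k2),
    (k11,k2)],[(k9,k2)],[(k6,k2)],[(k0,k2),(k3,k2),(k4,k2),(k7,k2),(k8,k2),(k11,k2)],[(k0,k2),(k3,k2),(k4,k2),(k7,k2),
    (k8,k2),(k11,k2)],[(k1,k2)]]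
    [] k0
    []
    []]⟩

/-- classes `0 1 0 2 0 3`, types `S0 C0 S0 C0 S0 S0` -/
noncomputable def cT6_2033 : CertT :=
  ⟨[k0,k20,k0,k36,k0,k48],[],[[[]]],
    [.lp [k2,k2,k2,k2,k2,k2] [k0,k0,k0,k0,k0,k0,k0,k0,k0,k0,k0,k0] k0 [] k8 k5
    [[(k1,k2),(k10,k2)],[(k0,k2),(k3,k2),(k4,k2),(k7,k2),(k8,k2),(k11,k2)],[(k0,k2),(k3,k2),(k4,k2),(k7,k2),(k8,k2),
    (k11,k2)],[(k5,k2)],[(k2,k2)],[(k0,k2),(k3,k2),(k4,k2),(k7,k2),(k8,k2),(k11,k2)],[(k0,k2),(k3,k2),(k4,k2),(k7,k2),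
    (k8,k2),(k11,k2)],[(k9,k2)],[(k6,k2)],[(k0,k2),(k3,k2),(k4,k2),(k7,k2),(k8,k2),(k11,k2)],[(k0,k2),(k3,k2),(k4,k2),
    (k7,k2),(k8,k2),(k11,k2)],[(k1,k2),(k10,k2)]]
    [] k0
    []
    []]⟩

/-- classes `0 1 0 2 0 3`, types `S0 C0 S0 S0 S0 S0` -/
noncomputable def cT6_2034 : CertT :=
  ⟨[k0,k20,k0,k32,k0,k48],[],[[[]]],
    [.lp [k2,k2,k2,k2,k2,k2] [k0,k0,k0,k0,k0,k0,k0,k0,k0,k0,k0,k0] k0 [] k8 k5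
    [[(k1,k2),(k10,k2)],[(k0,k2),(k3,k2),(k4,k2),(k7,k2),(k8,k2),(k11,k2)],[(k0,k2),(k3,k2),(k4,k2),(k7,k2),(k8,k2),
    (k11,k2)],[(k5,k2)],[(k2,k2)],[(k0,k2),(k3,k2),(k4,k2),(k7,k2),(k8,k2),(k11,k2)],[(k0,k2),(k3,k2),(k4,k2),(k7,k2),
    (k8,k2),(k11,k2)],[(k6,k2),(k9,k2)],[(k6,k2),(k9,k2)],[(k0,k2),(k3,k2),(k4,k2),(k7,k2),(k8,k2),(k11,k2)],[(k0,k2),
    (k3,k2),(k4,k2),(k7,k2),(k8,k2),(k11,k2)],[(k1,k2),(k10,k2)]]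
    [] k0
    []
    []]⟩

/-- classes `0 1 0 2 1 2`, types `B0 B0 B1 B0 B1 B1` -/
noncomputable def cT6_2035 : CertT :=
  ⟨[k8,k24,k9,k40,k25,k41],[(false,k0,[k0,k1,k2,k3,k4,k5])],[[[([z1,z0,z1,z0,z1,z0],z2)],[]]],
    [.leafM k5 [k0,k1,k2,k3,k4,k5] [(z1,[y1,z1]),(z1,[z1])] [],
    .lp [k4,k2,k2,k2,k2,k2] [k0,k0,k1,k1,k1,k1,k1,k1,k1,k1,k1,k1] k0 [] k8 k5
    [[(k6,k3),(k9,k3)],[(k4,k3),(k7,k3)],[(k4,k2),(k7,k2)],[(k8,k2),(k11,k2)],[(k8,k2),(k11,k2)],[(k3,k2),(k0,k3)],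
    [(k3,k2),(k0,k3)],[(k10,k2),(k1,k3)],[(k10,k2),(k1,k3)],[(k2,k2),(k5,k2)],[(k2,k2),(k5,k2)],[(k6,k2),(k9,k2)]]
    [] k0
    [[k0,k1,k0,k1,k0,k1]]
    [.ref k0 k0 [(z1,[y1,z1])]]]⟩

/-- classes `0 1 0 2 1 2`, types `B0 B0 B1 C0 B1 C0` -/
noncomputable def cT6_2036 : CertT :=
  ⟨[k8,k24,k9,k36,k25,k36],[(false,k0,[k0,k1,k2,k3,k4,k5])],[[[([z1,z0,z1,z0,z0,z1],z2)],[]]],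
    [.leafM k3 [k0,k1,k2,k3,k4,k5] [(z1,[y1,z1])] [],
    .lp [k2,k4,k2,k2,k2,k2] [k1,k1,k0,k0,k1,k1,k1,k1,k1,k1,k1,k1] k0 [] k8 k5
    [[(k6,k2),(k10,k2)],[(k4,k2),(k7,k2)],[(k4,k3),(k7,k3)],[(k8,k3),(k11,k3)],[(k8,k2),(k11,k2)],[(k0,k2),(k3,k3)],
    [(k0,k2),(k3,k3)],[(k1,k2),(k9,k2)],[(k6,k2),(k10,k2)],[(k5,k2),(k2,k3)],[(k5,k2),(k2,k3)],[(k1,k2),(k9,k2)]]
    [] k0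
    [[k1,k0,k1,k0,k0,k1]]
    [.ref k0 k0 [(z1,[z1])]]]⟩

/-- classes `0 1 0 2 1 2`, types `B0 B0 B1 C0 B1 C2` -/
noncomputable def cT6_2037 : CertT :=
  ⟨[k8,k24,k9,k36,k25,k38],[(false,k0,[k0,k1,k2,k3,k4,k5])],[[[([z1,z0,z1,z0,z0,z1],z2)],[([z1,z0,z1,z0,z1,z0],z2)],
    []]],
    [.leafM k3 [k0,k1,k2,k3,k4,k5] [(z1,[y1,z1])] [],
    .leafM k5 [k0,k1,k2,k3,k4,k5] [(z1,[y1,z1]),(z1,[z1])] [],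
    .lp [k2,k2,k4,k2,k2,k2] [k1,k1,k1,k1,k0,k0,k1,k1,k1,k1,k1,k1] k0 [] k8 k5
    [[(k9,k2),(k10,k2)],[(k7,k2),(k4,k3)],[(k7,k2),(k4,k3)],[(k8,k2),(k11,k2)],[(k8,k3),(k11,k3)],[(k0,k3),(k3,k3)],
    [(k0,k2),(k3,k2)],[(k9,k2),(k10,k2)],[(k1,k2),(k6,k2)],[(k2,k2),(k5,k3)],[(k2,k2),(k5,k3)],[(k1,k2),(k6,k2)]]
    [] k0
    [[k0,k1,k0,k1,k1,k0],[k0,k1,k0,k1,k0,k1]]
    [.ref k0 k0 [(z1,[y1,z1])],.ref k1 k0 [(z1,[y1,z1])]]]⟩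

/-- classes `0 1 0 2 1 2`, types `B0 B0 B1 N0 B1 N1` -/
noncomputable def cT6_2038 : CertT :=
  ⟨[k8,k24,k9,k44,k25,k45],[],[[[]]],
    [.lp [k2,k2,k2,k2,k2,k2] [k0,k0,k0,k0,k0,k0,k0,k0,k0,k0,k0,k0] k0 [] k8 k5
    [[(k6,k2)],[(k4,k2),(k7,k2)],[(k4,k2),(k7,k2)],[(k8,k2),(k11,k2)],[(k8,k2),(k11,k2)],[(k0,k2),(k3,k2)],[(k0,k2),
    (k3,k2)],[(k1,k2)],[(k10,k2)],[(k2,k2),(k5,k2)],[(k2,k2),(k5,k2)],[(k9,k2)]]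
    [] k0
    []
    []]⟩

/-- classes `0 1 0 2 1 2`, types `B0 B0 B1 N0 B1 N2` -/
noncomputable def cT6_2039 : CertT :=
  ⟨[k8,k24,k9,k44,k25,k46],[(false,k0,[k0,k1,k2,k3,k4,k5])],[[[([z1,z0,z1,z0,z1,z0],z2)],[]]],
    [.leafM k5 [k0,k1,k2,k3,k4,k5] [(z1,[y1,z1]),(z1,[z1])] [],
    .lp [k2,k2,k4,k2,k2,k2] [k1,k1,k1,k1,k0,k0,k1,k1,k1,k1,k1,k1] k0 [] k8 k5
    [[(k9,k2)],[(k7,k2),(k4,k3)],[(k7,k2),(k4,k3)],[(k8,k2),(k11,k2)],[(k8,k3),(k11,k3)],[(k0,k3),(k3,k3)],[(k0,k2),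
    (k3,k2)],[(k10,k2)],[(k1,k2)],[(k2,k2),(k5,k3)],[(k2,k2),(k5,k3)],[(k6,k2)]]
    [] k0
    [[k0,k1,k0,k1,k0,k1]]
    [.ref k0 k0 [(z1,[y1,z1])]]]⟩

/-- classes `0 1 0 2 1 2`, types `B0 B0 B1 S0 B1 S0` -/
noncomputable def cT6_2040 : CertT :=
  ⟨[k8,k24,k9,k32,k25,k32],[(false,k0,[k0,k1,k2,k3,k4,k5])],[[[([z1,z0,z1,z0,z0,z1],z2)],[([z1,z0,z1,z0,z1,z0],z2)],
    []]],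
    [.leafM k3 [k0,k1,k2,k3,k4,k5] [(z1,[y1,z1])] [],
    .leafM k5 [k0,k1,k2,k3,k4,k5] [(z1,[y1,z1]),(z1,[z1])] [],
    .lp [k2,k2,k2,k2,k4,k2] [k1,k1,k1,k1,k1,k1,k1,k1,k0,k0,k1,k1] k0 [] k8 k5
    [[(k1,k2),(k6,k2),(k10,k2),(k9,k3)],[(k4,k2),(k7,k2)],[(k4,k2),(k7,k2)],[(k11,k2),(k8,k3)],[(k11,k2),(k8,k3)],
    [(k0,k2),(k3,k2)],[(k0,k2),(k3,k2)],[(k1,k2),(k6,k2),(k10,k2),(k9,k3)],[(k1,k3),(k6,k3),(k10,k3),(k9,k4)],[(k2,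
    k3),(k5,k3)],[(k2,k2),(k5,k2)],[(k1,k2),(k6,k2),(k10,k2),(k9,k3)]]
    [] k0
    [[k1,k0,k1,k0,k0,k1],[k0,k1,k0,k1,k0,k1]]
    [.ref k0 k0 [(z1,[z1])],.ref k1 k0 [(z1,[y1,z1])]]]⟩

/-- classes `0 1 0 2 1 2`, types `B0 C0 B1 B0 C0 B1` -/
noncomputable def cT6_2041 : CertT :=
  ⟨[k8,k20,k9,k40,k20,k41],[(false,k0,[k0,k1,k2,k3,k4,k5])],[[[([z1,z0,z1,z0,z1,z0],z2)],[]]],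
    [.leafM k5 [k0,k1,k2,k3,k4,k5] [(z1,[y1,z1]),(z1,[z1])] [],
    .lp [k2,k2,k4,k2,k2,k2] [k1,k1,k1,k1,k0,k0,k1,k1,k1,k1,k1,k1] k0 [] k8 k5
    [[(k6,k2),(k9,k2)],[(k7,k2),(k4,k3)],[(k7,k2),(k4,k3)],[(k11,k2),(k5,k3)],[(k2,k3),(k8,k3)],[(k0,k3),(k3,k3)],
    [(k0,k2),(k3,k2)],[(k1,k2),(k10,k2)],[(k1,k2),(k10,k2)],[(k11,k2),(k5,k3)],[(k2,k2),(k8,k2)],[(k6,k2),(k9,k2)]]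
    [] k0
    [[k0,k1,k0,k1,k0,k1]]
    [.ref k0 k0 [(z1,[y1,z1])]]]⟩

/-- classes `0 1 0 2 1 2`, types `B0 C0 B1 B0 C2 B1` -/
noncomputable def cT6_2042 : CertT :=
  ⟨[k8,k20,k9,k40,k22,k41],[],[[[]]],
    [.lp [k2,k2,k0,k0,k0,k2] [k0,k0,k0,k0,k1,k1,k1,k1,k1,k1,k0,k0] k0 [] k4 k5
    [[(k6,k1),(k9,k1)],[(k4,k1),(k7,k1)],[(k4,k1),(k7,k1)],[(k5,k1),(k8,k1)],[(k2,k1),(k11,k1)],[(k0,k1),(k3,k1)],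
    [(k0,k1),(k3,k1)],[(k1,k1),(k10,k1)],[(k1,k1),(k10,k1)],[(k2,k1),(k11,k1)],[(k5,k1),(k8,k1)],[(k6,k1),(k9,k1)]]
    [] k0
    []
    []]⟩

/-- classes `0 1 0 2 1 2`, types `B0 C0 B1 C0 C0 C0` -/
noncomputable def cT6_2043 : CertT :=
  ⟨[k8,k20,k9,k36,k20,k36],[],[[[]]],
    [.lp [k0,k0,k2,k2,k0,k2] [k1,k1,k1,k1,k0,k0,k0,k0,k1,k1,k0,k0] k0 [] k4 k5
    [[(k6,k1),(k10,k1)],[(k4,k1),(k7,k1)],[(k4,k1),(k7,k1)],[(k5,k1),(k11,k1)],[(k2,k1),(k8,k1)],[(k0,k1),(k3,k1)],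
    [(k0,k1),(k3,k1)],[(k1,k1),(k9,k1)],[(k6,k1),(k10,k1)],[(k5,k1),(k11,k1)],[(k2,k1),(k8,k1)],[(k1,k1),(k9,k1)]]
    [] k0
    []
    []]⟩

/-- classes `0 1 0 2 1 2`, types `B0 C0 B1 C0 C0 C2` -/
noncomputable def cT6_2044 : CertT :=
  ⟨[k8,k20,k9,k36,k20,k38],[(false,k0,[k0,k1,k2,k3,k4,k5])],[[[([z1,z0,z1,z0,z1,z0],z2)],[]]],
    [.leafM k5 [k0,k1,k2,k3,k4,k5] [(z1,[y1,z1]),(z1,[z1])] [],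
    .lp [k2,k2,k4,k2,k2,k2] [k1,k1,k1,k1,k0,k0,k1,k1,k1,k1,k1,k1] k0 [] k8 k5
    [[(k9,k2),(k10,k2)],[(k7,k2),(k4,k3)],[(k7,k2),(k4,k3)],[(k11,k2),(k5,k3)],[(k2,k3),(k8,k3)],[(k0,k3),(k3,k3)],
    [(k0,k2),(k3,k2)],[(k9,k2),(k10,k2)],[(k1,k2),(k6,k2)],[(k11,k2),(k5,k3)],[(k2,k2),(k8,k2)],[(k1,k2),(k6,k2)]]
    [] k0
    [[k0,k1,k0,k1,k0,k1]]
    [.ref k0 k0 [(z1,[y1,z1])]]]⟩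

/-- classes `0 1 0 2 1 2`, types `B0 C0 B1 C0 C2 C0` -/
noncomputable def cT6_2045 : CertT :=
  ⟨[k8,k20,k9,k36,k22,k36],[(false,k0,[k0,k1,k2,k3,k4,k5])],[[[([z1,z0,z1,z0,z0,z1],z2)],[]]],
    [.leafM k3 [k0,k1,k2,k3,k4,k5] [(z1,[y1,z1])] [],
    .lp [k2,k2,k4,k2,k2,k2] [k1,k1,k1,k1,k0,k0,k1,k1,k1,k1,k1,k1] k0 [] k8 k5
    [[(k6,k2),(k10,k2)],[(k7,k2),(k4,k3)],[(k7,k2),(k4,k3)],[(k8,k2),(k5,k3)],[(k2,k3),(k11,k3)],[(k0,k3),(k3,k3)],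
    [(k0,k2),(k3,k2)],[(k1,k2),(k9,k2)],[(k6,k2),(k10,k2)],[(k2,k2),(k11,k2)],[(k8,k2),(k5,k3)],[(k1,k2),(k9,k2)]]
    [] k0
    [[k0,k1,k0,k1,k1,k0]]
    [.ref k0 k0 [(z1,[y1,z1])]]]⟩

/-- classes `0 1 0 2 1 2`, types `B0 C0 B1 C0 C2 C2` -/
noncomputable def cT6_2046 : CertT :=
  ⟨[k8,k20,k9,k36,k22,k38],[(false,k0,[k0,k1,k2,k3,k4,k5])],[[[([z1,z0,z1,z0,z0,z1],z2)],[]]],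
    [.leafM k3 [k0,k1,k2,k3,k4,k5] [(z1,[y1,z1])] [],
    .lp [k2,k2,k2,k4,k2,k2] [k1,k1,k1,k1,k1,k1,k0,k0,k1,k1,k1,k1] k0 [] k8 k5
    [[(k9,k2),(k10,k2)],[(k4,k2),(k7,k3)],[(k4,k2),(k7,k3)],[(k5,k2),(k8,k2)],[(k2,k2),(k11,k2)],[(k0,k2),(k3,k2)],
    [(k0,k3),(k3,k3)],[(k9,k3),(k10,k3)],[(k1,k2),(k6,k3)],[(k2,k2),(k11,k2)],[(k5,k2),(k8,k2)],[(k1,k2),(k6,k3)]]
    [] k0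
    [[k1,k0,k1,k0,k0,k1]]
    [.ref k0 k0 [(z1,[z1])]]]⟩

/-- classes `0 1 0 2 1 2`, types `B0 C0 B1 N0 C0 N1` -/
noncomputable def cT6_2047 : CertT :=
  ⟨[k8,k20,k9,k44,k20,k45],[],[[[]]],
    [.lp [k0,k0,k2,k2,k0,k2] [k1,k1,k1,k1,k0,k0,k0,k0,k1,k1,k0,k0] k0 [] k4 k5
    [[(k6,k1)],[(k4,k1),(k7,k1)],[(k4,k1),(k7,k1)],[(k5,k1),(k11,k1)],[(k2,k1),(k8,k1)],[(k0,k1),(k3,k1)],[(k0,k1),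
    (k3,k1)],[(k1,k1)],[(k10,k1)],[(k5,k1),(k11,k1)],[(k2,k1),(k8,k1)],[(k9,k1)]]
    [] k0
    []
    []]⟩

/-- classes `0 1 0 2 1 2`, types `B0 C0 B1 N0 C0 N2` -/
noncomputable def cT6_2048 : CertT :=
  ⟨[k8,k20,k9,k44,k20,k46],[(false,k0,[k0,k1,k2,k3,k4,k5])],[[[([z1,z0,z1,z0,z1,z0],z2)],[]]],
    [.leafM k5 [k0,k1,k2,k3,k4,k5] [(z1,[y1,z1]),(z1,[z1])] [],
    .lp [k2,k2,k4,k2,k2,k2] [k1,k1,k1,k1,k0,k0,k1,k1,k1,k1,k1,k1] k0 [] k8 k5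
    [[(k9,k2)],[(k7,k2),(k4,k3)],[(k7,k2),(k4,k3)],[(k11,k2),(k5,k3)],[(k2,k3),(k8,k3)],[(k0,k3),(k3,k3)],[(k0,k2),
    (k3,k2)],[(k10,k2)],[(k1,k2)],[(k11,k2),(k5,k3)],[(k2,k2),(k8,k2)],[(k6,k2)]]
    [] k0
    [[k0,k1,k0,k1,k0,k1]]
    [.ref k0 k0 [(z1,[y1,z1])]]]⟩

/-- classes `0 1 0 2 1 2`, types `B0 C0 B1 N0 C2 N1` -/
noncomputable def cT6_2049 : CertT :=
  ⟨[k8,k20,k9,k44,k22,k45],[],[[[]]],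
    [.lp [k0,k0,k2,k2,k2,k0] [k1,k1,k1,k1,k0,k0,k0,k0,k0,k0,k1,k1] k0 [] k4 k5
    [[(k6,k1)],[(k4,k1),(k7,k1)],[(k4,k1),(k7,k1)],[(k5,k1),(k8,k1)],[(k2,k1),(k11,k1)],[(k0,k1),(k3,k1)],[(k0,k1),
    (k3,k1)],[(k1,k1)],[(k10,k1)],[(k2,k1),(k11,k1)],[(k5,k1),(k8,k1)],[(k9,k1)]]
    [] k0
    []
    []]⟩

/-- classes `0 1 0 2 1 2`, types `B0 C0 B1 N0 C2 N2` -/
noncomputable def cT6_2050 : CertT :=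
  ⟨[k8,k20,k9,k44,k22,k46],[],[[[]]],
    [.lp [k0,k0,k2,k2,k2,k0] [k1,k1,k1,k1,k0,k0,k0,k0,k0,k0,k1,k1] k0 [] k4 k5
    [[(k9,k1)],[(k4,k1),(k7,k1)],[(k4,k1),(k7,k1)],[(k5,k1),(k8,k1)],[(k2,k1),(k11,k1)],[(k0,k1),(k3,k1)],[(k0,k1),
    (k3,k1)],[(k10,k1)],[(k1,k1)],[(k2,k1),(k11,k1)],[(k5,k1),(k8,k1)],[(k6,k1)]]
    [] k0
    []
    []]⟩

/-- classes `0 1 0 2 1 2`, types `B0 C0 B1 S0 C0 S0` -/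
noncomputable def cT6_2051 : CertT :=
  ⟨[k8,k20,k9,k32,k20,k32],[(false,k0,[k0,k1,k2,k3,k4,k5])],[[[([z1,z0,z1,z0,z1,z0],z2)],[]]],
    [.leafM k5 [k0,k1,k2,k3,k4,k5] [(z1,[y1,z1]),(z1,[z1])] [],
    .lp [k4,k2,k2,k2,k2,k2] [k0,k0,k1,k1,k1,k1,k1,k1,k1,k1,k1,k1] k0 [] k8 k5
    [[(k6,k3),(k9,k3),(k10,k3),(k1,k4)],[(k4,k3),(k7,k3)],[(k4,k2),(k7,k2)],[(k5,k2),(k11,k2)],[(k2,k2),(k8,k2)],[(k3,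
    k2),(k0,k3)],[(k3,k2),(k0,k3)],[(k6,k2),(k9,k2),(k10,k2),(k1,k3)],[(k6,k2),(k9,k2),(k10,k2),(k1,k3)],[(k5,k2),
    (k11,k2)],[(k2,k2),(k8,k2)],[(k6,k2),(k9,k2),(k10,k2),(k1,k3)]]
    [] k0
    [[k0,k1,k0,k1,k0,k1]]
    [.ref k0 k0 [(z1,[y1,z1])]]]⟩

/-- classes `0 1 0 2 1 2`, types `B0 C0 B1 S0 C2 S0` -/
noncomputable def cT6_2052 : CertT :=
  ⟨[k8,k20,k9,k32,k22,k32],[(false,k0,[k0,k1,k2,k3,k4,k5])],[[[([z1,z0,z1,z0,z0,z1],z2)],[]]],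
    [.leafM k3 [k0,k1,k2,k3,k4,k5] [(z1,[y1,z1])] [],
    .lp [k4,k2,k2,k2,k2,k2] [k0,k0,k1,k1,k1,k1,k1,k1,k1,k1,k1,k1] k0 [] k8 k5
    [[(k6,k3),(k9,k3),(k10,k3),(k1,k4)],[(k4,k3),(k7,k3)],[(k4,k2),(k7,k2)],[(k5,k2),(k8,k2)],[(k2,k2),(k11,k2)],[(k3,
    k2),(k0,k3)],[(k3,k2),(k0,k3)],[(k6,k2),(k9,k2),(k10,k2),(k1,k3)],[(k6,k2),(k9,k2),(k10,k2),(k1,k3)],[(k2,k2),
    (k11,k2)],[(k5,k2),(k8,k2)],[(k6,k2),(k9,k2),(k10,k2),(k1,k3)]]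
    [] k0
    [[k0,k1,k0,k1,k1,k0]]
    [.ref k0 k0 [(z1,[y1,z1])]]]⟩

/-- classes `0 1 0 2 1 2`, types `B0 N0 B1 B0 N1 B1` -/
noncomputable def cT6_2053 : CertT :=
  ⟨[k8,k28,k9,k40,k29,k41],[(false,k0,[k0,k1,k2,k3,k4,k5])],[[[([z1,z0,z1,z0,z1,z0],z2)],[]]],
    [.leafM k5 [k0,k1,k2,k3,k4,k5] [(z1,[y1,z1]),(z1,[z1])] [],
    .lp [k2,k2,k4,k2,k2,k2] [k1,k1,k1,k1,k0,k0,k1,k1,k1,k1,k1,k1] k0 [] k8 k5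
    [[(k6,k2),(k9,k2)],[(k7,k2),(k4,k3)],[(k7,k2),(k4,k3)],[(k11,k2)],[(k8,k3)],[(k0,k3),(k3,k3)],[(k0,k2),(k3,k2)],
    [(k1,k2),(k10,k2)],[(k1,k2),(k10,k2)],[(k5,k3)],[(k2,k2)],[(k6,k2),(k9,k2)]]
    [] k0
    [[k0,k1,k0,k1,k0,k1]]
    [.ref k0 k0 [(z1,[y1,z1])]]]⟩

/-- classes `0 1 0 2 1 2`, types `B0 N0 B1 B0 N2 B1` -/
noncomputable def cT6_2054 : CertT :=
  ⟨[k8,k28,k9,k40,k30,k41],[],[[[]]],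
    [.lp [k2,k2,k0,k0,k0,k2] [k0,k0,k0,k0,k1,k1,k1,k1,k1,k1,k0,k0] k0 [] k4 k5
    [[(k6,k1),(k9,k1)],[(k4,k1),(k7,k1)],[(k4,k1),(k7,k1)],[(k8,k1)],[(k11,k1)],[(k0,k1),(k3,k1)],[(k0,k1),(k3,k1)],
    [(k1,k1),(k10,k1)],[(k1,k1),(k10,k1)],[(k2,k1)],[(k5,k1)],[(k6,k1),(k9,k1)]]
    [] k0
    []
    []]⟩

/-- classes `0 1 0 2 1 2`, types `B0 N0 B1 C0 N1 C0` -/
noncomputable def cT6_2055 : CertT :=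
  ⟨[k8,k28,k9,k36,k29,k36],[],[[[]]],
    [.lp [k0,k0,k2,k2,k0,k2] [k1,k1,k1,k1,k0,k0,k0,k0,k1,k1,k0,k0] k0 [] k4 k5
    [[(k6,k1),(k10,k1)],[(k4,k1),(k7,k1)],[(k4,k1),(k7,k1)],[(k11,k1)],[(k8,k1)],[(k0,k1),(k3,k1)],[(k0,k1),(k3,k1)],
    [(k1,k1),(k9,k1)],[(k6,k1),(k10,k1)],[(k5,k1)],[(k2,k1)],[(k1,k1),(k9,k1)]]
    [] k0
    []
    []]⟩

/-- classes `0 1 0 2 1 2`, types `B0 N0 B1 C0 N1 C2` -/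
noncomputable def cT6_2056 : CertT :=
  ⟨[k8,k28,k9,k36,k29,k38],[(false,k0,[k0,k1,k2,k3,k4,k5])],[[[([z1,z0,z1,z0,z1,z0],z2)],[]]],
    [.leafM k5 [k0,k1,k2,k3,k4,k5] [(z1,[y1,z1]),(z1,[z1])] [],
    .lp [k2,k2,k4,k2,k2,k2] [k1,k1,k1,k1,k0,k0,k1,k1,k1,k1,k1,k1] k0 [] k8 k5
    [[(k9,k2),(k10,k2)],[(k7,k2),(k4,k3)],[(k7,k2),(k4,k3)],[(k11,k2)],[(k8,k3)],[(k0,k3),(k3,k3)],[(k0,k2),(k3,k2)],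
    [(k9,k2),(k10,k2)],[(k1,k2),(k6,k2)],[(k5,k3)],[(k2,k2)],[(k1,k2),(k6,k2)]]
    [] k0
    [[k0,k1,k0,k1,k0,k1]]
    [.ref k0 k0 [(z1,[y1,z1])]]]⟩

/-- classes `0 1 0 2 1 2`, types `B0 N0 B1 C0 N2 C0` -/
noncomputable def cT6_2057 : CertT :=
  ⟨[k8,k28,k9,k36,k30,k36],[(false,k0,[k0,k1,k2,k3,k4,k5])],[[[([z1,z0,z1,z0,z0,z1],z2)],[]]],
    [.leafM k3 [k0,k1,k2,k3,k4,k5] [(z1,[y1,z1])] [],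
    .lp [k2,k2,k4,k2,k2,k2] [k1,k1,k1,k1,k0,k0,k1,k1,k1,k1,k1,k1] k0 [] k8 k5
    [[(k6,k2),(k10,k2)],[(k7,k2),(k4,k3)],[(k7,k2),(k4,k3)],[(k8,k2)],[(k11,k3)],[(k0,k3),(k3,k3)],[(k0,k2),(k3,k2)],
    [(k1,k2),(k9,k2)],[(k6,k2),(k10,k2)],[(k2,k2)],[(k5,k3)],[(k1,k2),(k9,k2)]]
    [] k0
    [[k0,k1,k0,k1,k1,k0]]
    [.ref k0 k0 [(z1,[y1,z1])]]]⟩

/-- classes `0 1 0 2 1 2`, types `B0 N0 B1 C0 N2 C2` -/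
noncomputable def cT6_2058 : CertT :=
  ⟨[k8,k28,k9,k36,k30,k38],[(false,k0,[k0,k1,k2,k3,k4,k5])],[[[([z1,z0,z1,z0,z0,z1],z2)],[]]],
    [.leafM k3 [k0,k1,k2,k3,k4,k5] [(z1,[y1,z1])] [],
    .lp [k2,k2,k2,k4,k2,k2] [k1,k1,k1,k1,k1,k1,k0,k0,k1,k1,k1,k1] k0 [] k8 k5
    [[(k9,k2),(k10,k2)],[(k4,k2),(k7,k3)],[(k4,k2),(k7,k3)],[(k8,k2)],[(k11,k2)],[(k0,k2),(k3,k2)],[(k0,k3),(k3,k3)],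
    [(k9,k3),(k10,k3)],[(k1,k2),(k6,k3)],[(k2,k2)],[(k5,k2)],[(k1,k2),(k6,k3)]]
    [] k0
    [[k1,k0,k1,k0,k0,k1]]
    [.ref k0 k0 [(z1,[z1])]]]⟩

/-- classes `0 1 0 2 1 2`, types `B0 N0 B1 N0 N1 N1` -/
noncomputable def cT6_2059 : CertT :=
  ⟨[k8,k28,k9,k44,k29,k45],[],[[[]]],
    [.lp [k0,k0,k2,k2,k0,k2] [k1,k1,k1,k1,k0,k0,k0,k0,k1,k1,k0,k0] k0 [] k4 k5
    [[(k6,k1)],[(k4,k1),(k7,k1)],[(k4,k1),(k7,k1)],[(k11,k1)],[(k8,k1)],[(k0,k1),(k3,k1)],[(k0,k1),(k3,k1)],[(k1,k1)],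
    [(k10,k1)],[(k5,k1)],[(k2,k1)],[(k9,k1)]]
    [] k0
    []
    []]⟩

/-- classes `0 1 0 2 1 2`, types `B0 N0 B1 N0 N1 N2` -/
noncomputable def cT6_2060 : CertT :=
  ⟨[k8,k28,k9,k44,k29,k46],[(false,k0,[k0,k1,k2,k3,k4,k5])],[[[([z1,z0,z1,z0,z1,z0],z2)],[]]],
    [.leafM k5 [k0,k1,k2,k3,k4,k5] [(z1,[y1,z1]),(z1,[z1])] [],
    .lp [k2,k2,k4,k2,k2,k2] [k1,k1,k1,k1,k0,k0,k1,k1,k1,k1,k1,k1] k0 [] k8 k5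
    [[(k9,k2)],[(k7,k2),(k4,k3)],[(k7,k2),(k4,k3)],[(k11,k2)],[(k8,k3)],[(k0,k3),(k3,k3)],[(k0,k2),(k3,k2)],[(k10,
    k2)],[(k1,k2)],[(k5,k3)],[(k2,k2)],[(k6,k2)]]
    [] k0
    [[k0,k1,k0,k1,k0,k1]]
    [.ref k0 k0 [(z1,[y1,z1])]]]⟩

/-- classes `0 1 0 2 1 2`, types `B0 N0 B1 N0 N2 N1` -/
noncomputable def cT6_2061 : CertT :=
  ⟨[k8,k28,k9,k44,k30,k45],[],[[[]]],
    [.lp [k0,k0,k2,k2,k2,k0] [k1,k1,k1,k1,k0,k0,k0,k0,k0,k0,k1,k1] k0 [] k4 k5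
    [[(k6,k1)],[(k4,k1),(k7,k1)],[(k4,k1),(k7,k1)],[(k8,k1)],[(k11,k1)],[(k0,k1),(k3,k1)],[(k0,k1),(k3,k1)],[(k1,k1)],
    [(k10,k1)],[(k2,k1)],[(k5,k1)],[(k9,k1)]]
    [] k0
    []
    []]⟩

/-- classes `0 1 0 2 1 2`, types `B0 N0 B1 N0 N2 N2` -/
noncomputable def cT6_2062 : CertT :=
  ⟨[k8,k28,k9,k44,k30,k46],[],[[[]]],
    [.lp [k0,k0,k2,k2,k2,k0] [k1,k1,k1,k1,k0,k0,k0,k0,k0,k0,k1,k1] k0 [] k4 k5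
    [[(k9,k1)],[(k4,k1),(k7,k1)],[(k4,k1),(k7,k1)],[(k8,k1)],[(k11,k1)],[(k0,k1),(k3,k1)],[(k0,k1),(k3,k1)],[(k10,
    k1)],[(k1,k1)],[(k2,k1)],[(k5,k1)],[(k6,k1)]]
    [] k0
    []
    []]⟩

/-- classes `0 1 0 2 1 2`, types `B0 N0 B1 S0 N1 S0` -/
noncomputable def cT6_2063 : CertT :=
  ⟨[k8,k28,k9,k32,k29,k32],[(false,k0,[k0,k1,k2,k3,k4,k5])],[[[([z1,z0,z1,z0,z1,z0],z2)],[]]],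
    [.leafM k5 [k0,k1,k2,k3,k4,k5] [(z1,[y1,z1]),(z1,[z1])] [],
    .lp [k4,k2,k2,k2,k2,k2] [k0,k0,k1,k1,k1,k1,k1,k1,k1,k1,k1,k1] k0 [] k8 k5
    [[(k6,k3),(k9,k3),(k10,k3),(k1,k4)],[(k4,k3),(k7,k3)],[(k4,k2),(k7,k2)],[(k11,k2)],[(k8,k2)],[(k3,k2),(k0,k3)],
    [(k3,k2),(k0,k3)],[(k6,k2),(k9,k2),(k10,k2),(k1,k3)],[(k6,k2),(k9,k2),(k10,k2),(k1,k3)],[(k5,k2)],[(k2,k2)],[(k6,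
    k2),(k9,k2),(k10,k2),(k1,k3)]]
    [] k0
    [[k0,k1,k0,k1,k0,k1]]
    [.ref k0 k0 [(z1,[y1,z1])]]]⟩

/-- classes `0 1 0 2 1 2`, types `B0 N0 B1 S0 N2 S0` -/
noncomputable def cT6_2064 : CertT :=
  ⟨[k8,k28,k9,k32,k30,k32],[(false,k0,[k0,k1,k2,k3,k4,k5])],[[[([z1,z0,z1,z0,z0,z1],z2)],[]]],
    [.leafM k3 [k0,k1,k2,k3,k4,k5] [(z1,[y1,z1])] [],
    .lp [k4,k2,k2,k2,k2,k2] [k0,k0,k1,k1,k1,k1,k1,k1,k1,k1,k1,k1] k0 [] k8 k5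
    [[(k6,k3),(k9,k3),(k10,k3),(k1,k4)],[(k4,k3),(k7,k3)],[(k4,k2),(k7,k2)],[(k8,k2)],[(k11,k2)],[(k3,k2),(k0,k3)],
    [(k3,k2),(k0,k3)],[(k6,k2),(k9,k2),(k10,k2),(k1,k3)],[(k6,k2),(k9,k2),(k10,k2),(k1,k3)],[(k2,k2)],[(k5,k2)],[(k6,
    k2),(k9,k2),(k10,k2),(k1,k3)]]
    [] k0
    [[k0,k1,k0,k1,k1,k0]]
    [.ref k0 k0 [(z1,[y1,z1])]]]⟩

/-- classes `0 1 0 2 1 2`, types `B0 S0 B1 B0 S0 B1` -/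
noncomputable def cT6_2065 : CertT :=
  ⟨[k8,k16,k9,k40,k16,k41],[(false,k0,[k0,k1,k2,k3,k4,k5])],[[[([z1,z0,z1,z0,z1,z0],z2)],[]]],
    [.leafM k5 [k0,k1,k2,k3,k4,k5] [(z1,[y1,z1]),(z1,[z1])] [],
    .lp [k4,k2,k2,k2,k2,k2] [k0,k0,k1,k1,k1,k1,k1,k1,k1,k1,k1,k1] k0 [] k8 k5
    [[(k6,k3),(k9,k3)],[(k4,k3),(k7,k3)],[(k4,k2),(k7,k2)],[(k2,k2),(k5,k2),(k8,k2),(k11,k2)],[(k2,k2),(k5,k2),(k8,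
    k2),(k11,k2)],[(k3,k2),(k0,k3)],[(k3,k2),(k0,k3)],[(k10,k2),(k1,k3)],[(k10,k2),(k1,k3)],[(k2,k2),(k5,k2),(k8,k2),
    (k11,k2)],[(k2,k2),(k5,k2),(k8,k2),(k11,k2)],[(k6,k2),(k9,k2)]]
    [] k0
    [[k0,k1,k0,k1,k0,k1]]
    [.ref k0 k0 [(z1,[y1,z1])]]]⟩

/-- classes `0 1 0 2 1 2`, types `B0 S0 B1 C0 S0 C0` -/
noncomputable def cT6_2066 : CertT :=
  ⟨[k8,k16,k9,k36,k16,k36],[(false,k0,[k0,k1,k2,k3,k4,k5])],[[[([z1,z0,z1,z0,z0,z1],z2)],[]]],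
    [.leafM k3 [k0,k1,k2,k3,k4,k5] [(z1,[y1,z1])] [],
    .lp [k2,k2,k2,k2,k4,k2] [k1,k1,k1,k1,k1,k1,k1,k1,k0,k0,k1,k1] k0 [] k8 k5
    [[(k6,k2),(k10,k2)],[(k4,k2),(k7,k2)],[(k4,k2),(k7,k2)],[(k2,k2),(k5,k2),(k11,k2),(k8,k3)],[(k2,k2),(k5,k2),(k11,
    k2),(k8,k3)],[(k0,k2),(k3,k2)],[(k0,k2),(k3,k2)],[(k1,k2),(k9,k3)],[(k6,k3),(k10,k3)],[(k2,k3),(k5,k3),(k11,k3),
    (k8,k4)],[(k2,k2),(k5,k2),(k11,k2),(k8,k3)],[(k1,k2),(k9,k3)]]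
    [] k0
    [[k1,k0,k1,k0,k0,k1]]
    [.ref k0 k0 [(z1,[z1])]]]⟩

/-- classes `0 1 0 2 1 2`, types `B0 S0 B1 C0 S0 C2` -/
noncomputable def cT6_2067 : CertT :=
  ⟨[k8,k16,k9,k36,k16,k38],[(false,k0,[k0,k1,k2,k3,k4,k5])],[[[([z1,z0,z1,z0,z0,z1],z2)],[([z1,z0,z1,z0,z1,z0],z2)],
    []]],
    [.leafM k3 [k0,k1,k2,k3,k4,k5] [(z1,[y1,z1])] [],
    .leafM k5 [k0,k1,k2,k3,k4,k5] [(z1,[y1,z1]),(z1,[z1])] [],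
    .lp [k2,k2,k2,k2,k4,k2] [k1,k1,k1,k1,k1,k1,k1,k1,k0,k0,k1,k1] k0 [] k8 k5
    [[(k10,k2),(k9,k3)],[(k4,k2),(k7,k2)],[(k4,k2),(k7,k2)],[(k2,k2),(k5,k2),(k11,k2),(k8,k3)],[(k2,k2),(k5,k2),(k11,
    k2),(k8,k3)],[(k0,k2),(k3,k2)],[(k0,k2),(k3,k2)],[(k10,k2),(k9,k3)],[(k1,k3),(k6,k3)],[(k2,k3),(k5,k3),(k11,k3),
    (k8,k4)],[(k2,k2),(k5,k2),(k11,k2),(k8,k3)],[(k1,k2),(k6,k2)]]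
    [] k0
    [[k1,k0,k1,k0,k0,k1],[k0,k1,k0,k1,k0,k1]]
    [.ref k0 k0 [(z1,[z1])],.ref k1 k0 [(z1,[y1,z1])]]]⟩

/-- classes `0 1 0 2 1 2`, types `B0 S0 B1 N0 S0 N1` -/
noncomputable def cT6_2068 : CertT :=
  ⟨[k8,k16,k9,k44,k16,k45],[],[[[]]],
    [.lp [k2,k2,k2,k2,k2,k2] [k0,k0,k0,k0,k0,k0,k0,k0,k0,k0,k0,k0] k0 [] k8 k5
    [[(k6,k2)],[(k4,k2),(k7,k2)],[(k4,k2),(k7,k2)],[(k2,k2),(k5,k2),(k8,k2),(k11,k2)],[(k2,k2),(k5,k2),(k8,k2),(k11,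
    k2)],[(k0,k2),(k3,k2)],[(k0,k2),(k3,k2)],[(k1,k2)],[(k10,k2)],[(k2,k2),(k5,k2),(k8,k2),(k11,k2)],[(k2,k2),(k5,k2),
    (k8,k2),(k11,k2)],[(k9,k2)]]
    [] k0
    []
    []]⟩

/-- classes `0 1 0 2 1 2`, types `B0 S0 B1 N0 S0 N2` -/
noncomputable def cT6_2069 : CertT :=
  ⟨[k8,k16,k9,k44,k16,k46],[(false,k0,[k0,k1,k2,k3,k4,k5])],[[[([z1,z0,z1,z0,z1,z0],z2)],[]]],
    [.leafM k5 [k0,k1,k2,k3,k4,k5] [(z1,[y1,z1]),(z1,[z1])] [],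
    .lp [k4,k2,k2,k2,k2,k2] [k0,k0,k1,k1,k1,k1,k1,k1,k1,k1,k1,k1] k0 [] k8 k5
    [[(k9,k3)],[(k4,k3),(k7,k3)],[(k4,k2),(k7,k2)],[(k2,k2),(k5,k2),(k8,k2),(k11,k2)],[(k2,k2),(k5,k2),(k8,k2),(k11,
    k2)],[(k3,k2),(k0,k3)],[(k3,k2),(k0,k3)],[(k10,k2)],[(k1,k3)],[(k2,k2),(k5,k2),(k8,k2),(k11,k2)],[(k2,k2),(k5,k2),
    (k8,k2),(k11,k2)],[(k6,k2)]]
    [] k0
    [[k0,k1,k0,k1,k0,k1]]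
    [.ref k0 k0 [(z1,[y1,z1])]]]⟩

/-- classes `0 1 0 2 1 2`, types `B0 S0 B1 S0 S0 S0` -/
noncomputable def cT6_2070 : CertT :=
  ⟨[k8,k16,k9,k32,k16,k32],[(false,k0,[k0,k1,k2,k3,k4,k5])],[[[([z1,z0,z1,z0,z1,z0],z2)],[([z1,z0,z1,z0,z0,z1],z2)],
    []]],
    [.leafM k5 [k0,k1,k2,k3,k4,k5] [(z1,[y1,z1]),(z1,[z1])] [],
    .leafM k3 [k0,k1,k2,k3,k4,k5] [(z1,[y1,z1])] [],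
    .lp [k2,k4,k2,k2,k2,k2] [k1,k1,k0,k0,k1,k1,k1,k1,k1,k1,k1,k1] k0 [] k8 k5
    [[(k1,k2),(k6,k2),(k9,k2),(k10,k2)],[(k4,k2),(k7,k2)],[(k4,k3),(k7,k3)],[(k5,k3),(k8,k3),(k11,k3),(k2,k4)],[(k5,
    k2),(k8,k2),(k11,k2),(k2,k3)],[(k0,k2),(k3,k3)],[(k0,k2),(k3,k3)],[(k1,k2),(k6,k2),(k9,k2),(k10,k2)],[(k1,k2),(k6,
    k2),(k9,k2),(k10,k2)],[(k5,k2),(k8,k2),(k11,k2),(k2,k3)],[(k5,k2),(k8,k2),(k11,k2),(k2,k3)],[(k1,k2),(k6,k2),(k9,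
    k2),(k10,k2)]]
    [] k0
    [[k1,k0,k1,k0,k1,k0],[k1,k0,k1,k0,k0,k1]]
    [.ref k0 k0 [(z1,[z1])],.ref k1 k0 [(z1,[z1])]]]⟩

/-- classes `0 1 0 2 1 2`, types `C0 B0 C0 C0 B1 C0` -/
noncomputable def cT6_2071 : CertT :=
  ⟨[k4,k24,k4,k36,k25,k36],[(false,k0,[k0,k1,k2,k3,k4,k5])],[[[([z1,z1,z0,z0,z0,z1],z2)],[]]],
    [.leafM k0 [k1,k2,k3,k4,k5,k0] [(z1,[y1,z1])] [],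
    .lp [k2,k2,k2,k4,k2,k2] [k1,k1,k1,k1,k1,k1,k0,k0,k1,k1,k1,k1] k0 [] k8 k5
    [[(k10,k2),(k6,k3)],[(k3,k2),(k7,k3)],[(k0,k2),(k4,k2)],[(k8,k2),(k11,k2)],[(k8,k2),(k11,k2)],[(k3,k2),(k7,k3)],
    [(k0,k3),(k4,k3)],[(k1,k3),(k9,k3)],[(k10,k2),(k6,k3)],[(k2,k2),(k5,k2)],[(k2,k2),(k5,k2)],[(k1,k2),(k9,k2)]]
    [] k0
    [[k1,k1,k0,k0,k0,k1]]
    [.ref k0 k0 [(z1,[z1])]]]⟩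

/-- classes `0 1 0 2 1 2`, types `C0 B0 C0 C0 B1 C2` -/
noncomputable def cT6_2072 : CertT :=
  ⟨[k4,k24,k4,k36,k25,k38],[(false,k0,[k0,k1,k2,k3,k4,k5])],[[[([z1,z1,z0,z0,z1,z0],z2)],[([z1,z1,z0,z0,z0,z1],z2)],
    []]],
    [.leafM k3 [k3,k4,k5,k0,k1,k2] [(z1,[z1])] [],
    .leafM k0 [k1,k2,k3,k4,k5,k0] [(z1,[y1,z1])] [],
    .lp [k2,k2,k2,k4,k2,k2] [k1,k1,k1,k1,k1,k1,k0,k0,k1,k1,k1,k1] k0 [] k8 k5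
    [[(k9,k2),(k10,k2)],[(k3,k2),(k7,k3)],[(k0,k2),(k4,k2)],[(k8,k2),(k11,k2)],[(k8,k2),(k11,k2)],[(k3,k2),(k7,k3)],
    [(k0,k3),(k4,k3)],[(k9,k3),(k10,k3)],[(k1,k2),(k6,k3)],[(k2,k2),(k5,k2)],[(k2,k2),(k5,k2)],[(k1,k2),(k6,k3)]]
    [] k0
    [[k1,k1,k0,k0,k1,k0],[k1,k1,k0,k0,k0,k1]]
    [.ref k0 k0 [(z1,[z1])],.ref k1 k0 [(z1,[z1])]]]⟩

/-- classes `0 1 0 2 1 2`, types `C0 B0 C0 N0 B1 N1` -/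
noncomputable def cT6_2073 : CertT :=
  ⟨[k4,k24,k4,k44,k25,k45],[],[[[]]],
    [.lp [k2,k2,k2,k2,k2,k2] [k0,k0,k0,k0,k0,k0,k0,k0,k0,k0,k0,k0] k0 [] k8 k5
    [[(k6,k2)],[(k3,k2),(k7,k2)],[(k0,k2),(k4,k2)],[(k8,k2),(k11,k2)],[(k8,k2),(k11,k2)],[(k3,k2),(k7,k2)],[(k0,k2),
    (k4,k2)],[(k1,k2)],[(k10,k2)],[(k2,k2),(k5,k2)],[(k2,k2),(k5,k2)],[(k9,k2)]]
    [] k0
    []
    []]⟩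

/-- classes `0 1 0 2 1 2`, types `C0 B0 C0 N0 B1 N2` -/
noncomputable def cT6_2074 : CertT :=
  ⟨[k4,k24,k4,k44,k25,k46],[(false,k0,[k0,k1,k2,k3,k4,k5])],[[[([z1,z1,z0,z0,z1,z0],z2)],[]]],
    [.leafM k3 [k3,k4,k5,k0,k1,k2] [(z1,[z1])] [],
    .lp [k2,k2,k2,k4,k2,k2] [k1,k1,k1,k1,k1,k1,k0,k0,k1,k1,k1,k1] k0 [] k8 k5
    [[(k9,k2)],[(k3,k2),(k7,k3)],[(k0,k2),(k4,k2)],[(k8,k2),(k11,k2)],[(k8,k2),(k11,k2)],[(k3,k2),(k7,k3)],[(k0,k3),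
    (k4,k3)],[(k10,k3)],[(k1,k2)],[(k2,k2),(k5,k2)],[(k2,k2),(k5,k2)],[(k6,k3)]]
    [] k0
    [[k1,k1,k0,k0,k1,k0]]
    [.ref k0 k0 [(z1,[z1])]]]⟩

/-- classes `0 1 0 2 1 2`, types `C0 B0 C0 S0 B1 S0` -/
noncomputable def cT6_2075 : CertT :=
  ⟨[k4,k24,k4,k32,k25,k32],[(false,k0,[k0,k1,k2,k3,k4,k5])],[[[([z1,z1,z0,z0,z1,z0],z2)],[([z1,z1,z0,z0,z0,z1],z2)],
    []]],
    [.leafM k3 [k3,k4,k5,k0,k1,k2] [(z1,[z1])] [],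
    .leafM k0 [k1,k2,k3,k4,k5,k0] [(z1,[y1,z1])] [],
    .lp [k2,k2,k2,k4,k2,k2] [k1,k1,k1,k1,k1,k1,k0,k0,k1,k1,k1,k1] k0 [] k8 k5
    [[(k1,k2),(k9,k2),(k10,k2),(k6,k3)],[(k3,k2),(k7,k3)],[(k0,k2),(k4,k2)],[(k8,k2),(k11,k2)],[(k8,k2),(k11,k2)],
    [(k3,k2),(k7,k3)],[(k0,k3),(k4,k3)],[(k1,k3),(k9,k3),(k10,k3),(k6,k4)],[(k1,k2),(k9,k2),(k10,k2),(k6,k3)],[(k2,
    k2),(k5,k2)],[(k2,k2),(k5,k2)],[(k1,k2),(k9,k2),(k10,k2),(k6,k3)]]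
    [] k0
    [[k1,k1,k0,k0,k1,k0],[k1,k1,k0,k0,k0,k1]]
    [.ref k0 k0 [(z1,[z1])],.ref k1 k0 [(z1,[z1])]]]⟩

/-- classes `0 1 0 2 1 2`, types `C0 B0 C2 C0 B1 C2` -/
noncomputable def cT6_2076 : CertT :=
  ⟨[k4,k24,k6,k36,k25,k38],[(false,k3,[k3,k4,k5,k0,k1,k2]),(false,k0,[k0,k1,k2,k3,k4,k5])],[[[([z1,z0,z1,z0,z0,z1],
    z2)],[([z1,z1,z0,z0,z0,z1],z2)],[([z1,z0,z1,z0,z1,z0],z2)],[]]],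
    [.leafM k3 [k0,k1,k2,k3,k4,k5] [(z1,[y1,z1])] [],
    .leafM k0 [k1,k2,k3,k4,k5,k0] [(z1,[y1,z1])] [],
    .leafM k5 [k0,k1,k2,k3,k4,k5] [(z1,[y1,z1]),(z1,[z1])] [],
    .lp [k4,k4,k6,k6,k6,k4] [k1,k1,k1,k1,k0,k0,k0,k0,k0,k0,k1,k1] k0 [] k16 k5
    [[(k10,k4),(k9,k5)],[(k3,k4),(k4,k5)],[(k0,k4),(k7,k5)],[(k11,k4),(k8,k5)],[(k11,k5),(k8,k6)],[(k0,k5),(k7,k6)],
    [(k3,k5),(k4,k6)],[(k10,k5),(k9,k6)],[(k1,k5),(k6,k6)],[(k2,k5),(k5,k6)],[(k2,k4),(k5,k5)],[(k1,k4),(k6,k5)]]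
    [] k0
    [[k1,k1,k0,k0,k1,k0],[k1,k1,k0,k0,k0,k1],[k1,k0,k1,k0,k0,k1],[k0,k1,k0,k1,k0,k1]]
    [.ref k0 k0 [(z1,[y1,z1])],.ref k1 k1 [(z1,[z1])],.ref k0 k1 [(z1,[z1])],.ref k2 k1 [(z1,[y1,z1])]]]⟩

/-- classes `0 1 0 2 1 2`, types `C0 B0 C2 N0 B1 N1` -/
noncomputable def cT6_2077 : CertT :=
  ⟨[k4,k24,k6,k44,k25,k45],[],[[[]]],
    [.lp [k2,k2,k2,k2,k2,k2] [k0,k0,k0,k0,k0,k0,k0,k0,k0,k0,k0,k0] k0 [] k8 k5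
    [[(k6,k2)],[(k3,k2),(k4,k2)],[(k0,k2),(k7,k2)],[(k8,k2),(k11,k2)],[(k8,k2),(k11,k2)],[(k0,k2),(k7,k2)],[(k3,k2),
    (k4,k2)],[(k1,k2)],[(k10,k2)],[(k2,k2),(k5,k2)],[(k2,k2),(k5,k2)],[(k9,k2)]]
    [] k0
    []
    []]⟩

/-- the certificates of this file -/
noncomputable def lT6_14 : List CertT :=
  [cT6_1841, cT6_1842, cT6_1843, cT6_1844, cT6_1845, cT6_1846, cT6_1847, cT6_1848, cT6_1849, cT6_1850,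
      cT6_1851, cT6_1852, cT6_1853, cT6_1854, cT6_1855, cT6_1856, cT6_1857, cT6_1858, cT6_1859, cT6_1860,
      cT6_1861, cT6_1862, cT6_1863, cT6_1864, cT6_1865, cT6_1866, cT6_1867, cT6_1868, cT6_1869, cT6_1870,
      cT6_1871, cT6_1872, cT6_1873, cT6_1874, cT6_1875, cT6_1876, cT6_1877, cT6_1878, cT6_1879, cT6_1880,
      cT6_1881, cT6_1882, cT6_1883, cT6_1884, cT6_1885, cT6_1886, cT6_1887, cT6_1888, cT6_1889, cT6_1890,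
      cT6_1891, cT6_1892, cT6_1893, cT6_1894, cT6_1895, cT6_1896, cT6_1897, cT6_1898, cT6_1899, cT6_1900,
      cT6_1901, cT6_1902, cT6_1903, cT6_1904, cT6_1905, cT6_1906, cT6_1907, cT6_1908, cT6_1909, cT6_1910,
      cT6_1911, cT6_1912, cT6_1913, cT6_1914, cT6_1915, cT6_1916, cT6_1917, cT6_1918, cT6_1919, cT6_1920,
      cT6_1921, cT6_1922, cT6_1923, cT6_1924, cT6_1925, cT6_1926, cT6_1927, cT6_1928, cT6_1929, cT6_1930,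
      cT6_1931, cT6_1932, cT6_1933, cT6_1934, cT6_1935, cT6_1936, cT6_1937, cT6_1938, cT6_1939, cT6_1940,
      cT6_1941, cT6_1942, cT6_1943, cT6_1944, cT6_1945, cT6_1946, cT6_1947, cT6_1948, cT6_1949, cT6_1950,
      cT6_1951, cT6_1952, cT6_1953, cT6_1954, cT6_1955, cT6_1956, cT6_1957, cT6_1958, cT6_1959, cT6_1960,
      cT6_1961, cT6_1962, cT6_1963, cT6_1964, cT6_1965, cT6_1966, cT6_1967, cT6_1968, cT6_1969, cT6_1970,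
      cT6_1971, cT6_1972, cT6_1973, cT6_1974, cT6_1975, cT6_1976, cT6_1977, cT6_1978, cT6_1979, cT6_1980,
      cT6_1981, cT6_1982, cT6_1983, cT6_1984, cT6_1985, cT6_1986, cT6_1987, cT6_1988, cT6_1989, cT6_1990,
      cT6_1991, cT6_1992, cT6_1993, cT6_1994, cT6_1995, cT6_1996, cT6_1997, cT6_1998, cT6_1999, cT6_2000,
      cT6_2001, cT6_2002, cT6_2003, cT6_2004, cT6_2005, cT6_2006, cT6_2007, cT6_2008, cT6_2009, cT6_2010,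
      cT6_2011, cT6_2012, cT6_2013, cT6_2014, cT6_2015, cT6_2016, cT6_2017, cT6_2018, cT6_2019, cT6_2020,
      cT6_2021, cT6_2022, cT6_2023, cT6_2024, cT6_2025, cT6_2026, cT6_2027, cT6_2028, cT6_2029, cT6_2030,
      cT6_2031, cT6_2032, cT6_2033, cT6_2034, cT6_2035, cT6_2036, cT6_2037, cT6_2038, cT6_2039, cT6_2040,
      cT6_2041, cT6_2042, cT6_2043, cT6_2044, cT6_2045, cT6_2046, cT6_2047, cT6_2048, cT6_2049, cT6_2050,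
      cT6_2051, cT6_2052, cT6_2053, cT6_2054, cT6_2055, cT6_2056, cT6_2057, cT6_2058, cT6_2059, cT6_2060,
      cT6_2061, cT6_2062, cT6_2063, cT6_2064, cT6_2065, cT6_2066, cT6_2067, cT6_2068, cT6_2069, cT6_2070,
      cT6_2071, cT6_2072, cT6_2073, cT6_2074, cT6_2075, cT6_2076, cT6_2077]

theorem gT6_14 : allF (chkC 6 tt6) lT6_14 = true := by
  decide +kernel

end Pool.Agent.Lib_MP_fa6e45
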