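import Pool.Agent.Lib_MP_fa6e45.CSTT
import Pool.Agent.Lib_MP_fa6e45.HK

/-!
MP_fa6e45_co, stage 5: certificates (captain, generated by a program).
-/

namespace Pool.Agent.Lib_MP_fa6e45

/-- classes `0 1 0 2 1 2`, types `C0 B0 C2 N0 B1 N2` -/
noncomputable def cT6_2078 : CertT :=
  ⟨[k4,k24,k6,k44,k25,k46],[(false,k0,[k0,k1,k2,k3,k4,k5])],[[[([z1,z1,z0,z0,z1,z0],z2)],[([z1,z0,z1,z0,z1,z0],z2)],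
    []]],
    [.leafM k3 [k3,k4,k5,k0,k1,k2] [(z1,[z1])] [],
    .leafM k5 [k0,k1,k2,k3,k4,k5] [(z1,[y1,z1]),(z1,[z1])] [],
    .lp [k2,k2,k2,k4,k2,k2] [k1,k1,k1,k1,k1,k1,k0,k0,k1,k1,k1,k1] k0 [] k8 k5
    [[(k9,k2)],[(k3,k2),(k4,k2)],[(k0,k2),(k7,k3)],[(k8,k2),(k11,k2)],[(k8,k2),(k11,k2)],[(k0,k2),(k7,k3)],[(k3,k3),
    (k4,k3)],[(k10,k3)],[(k1,k2)],[(k2,k2),(k5,k2)],[(k2,k2),(k5,k2)],[(k6,k3)]]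
    [] k0
    [[k1,k1,k0,k0,k1,k0],[k1,k0,k1,k0,k1,k0]]
    [.ref k0 k0 [(z1,[z1])],.ref k1 k0 [(z1,[z1])]]]⟩

/-- classes `0 1 0 2 1 2`, types `C0 B0 C2 S0 B1 S0` -/
noncomputable def cT6_2079 : CertT :=
  ⟨[k4,k24,k6,k32,k25,k32],[(false,k0,[k0,k1,k2,k3,k4,k5])],[[[([z1,z1,z0,z0,z0,z1],z2)],[([z1,z0,z1,z0,z0,z1],z2)],
    [([z1,z0,z1,z0,z1,z0],z2)],[([z1,z1,z0,z0,z1,z0],z2)],[]]],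
    [.leafM k0 [k1,k2,k3,k4,k5,k0] [(z1,[y1,z1])] [],
    .leafM k3 [k0,k1,k2,k3,k4,k5] [(z1,[y1,z1])] [],
    .leafM k5 [k0,k1,k2,k3,k4,k5] [(z1,[y1,z1]),(z1,[z1])] [],
    .leafM k3 [k3,k4,k5,k0,k1,k2] [(z1,[z1])] [],
    .lp [k6,k4,k6,k4,k6,k4] [k0,k0,k1,k1,k0,k0,k1,k1,k0,k0,k1,k1] k0 [] k16 k5
    [[(k6,k5),(k10,k5),(k1,k6),(k9,k6)],[(k3,k5),(k4,k6)],[(k7,k4),(k0,k5)],[(k11,k4),(k8,k5)],[(k11,k5),(k8,k6)],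
    [(k7,k5),(k0,k6)],[(k3,k4),(k4,k5)],[(k6,k4),(k10,k4),(k1,k5),(k9,k5)],[(k6,k5),(k10,k5),(k1,k6),(k9,k6)],[(k2,
    k5),(k5,k6)],[(k2,k4),(k5,k5)],[(k6,k4),(k10,k4),(k1,k5),(k9,k5)]]
    [] k0
    [[k1,k1,k0,k0,k0,k1],[k0,k1,k0,k1,k1,k0],[k0,k1,k0,k1,k0,k1],[k0,k0,k1,k1,k0,k1]]
    [.ref k0 k0 [(z1,[z1])],.ref k1 k0 [(z1,[y1,z1])],.ref k2 k0 [(z1,[y1,z1])],.ref k3 k0 [(z1,[y1,z1])]]]⟩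

/-- classes `0 1 0 2 1 2`, types `C0 C0 C0 C0 C0 C0` -/
noncomputable def cT6_2080 : CertT :=
  ⟨[k4,k20,k4,k36,k20,k36],[(false,k0,[k0,k1,k2,k3,k4,k5])],[[[([z1,z1,z0,z0,z0,z1],z2)],[]]],
    [.leafM k0 [k1,k2,k3,k4,k5,k0] [(z1,[y1,z1])] [],
    .lp [k4,k2,k2,k2,k2,k2] [k0,k0,k1,k1,k1,k1,k1,k1,k1,k1,k1,k1] k0 [] k8 k5
    [[(k6,k3),(k10,k3)],[(k3,k3),(k7,k3)],[(k4,k2),(k0,k3)],[(k5,k2),(k11,k2)],[(k2,k2),(k8,k2)],[(k3,k2),(k7,k2)],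
    [(k4,k2),(k0,k3)],[(k9,k2),(k1,k3)],[(k6,k2),(k10,k2)],[(k5,k2),(k11,k2)],[(k2,k2),(k8,k2)],[(k9,k2),(k1,k3)]]
    [] k0
    [[k0,k0,k1,k1,k1,k0]]
    [.ref k0 k0 [(z1,[y1,z1])]]]⟩

/-- classes `0 1 0 2 1 2`, types `C0 C0 C0 C0 C0 C2` -/
noncomputable def cT6_2081 : CertT :=
  ⟨[k4,k20,k4,k36,k20,k38],[(false,k0,[k0,k1,k2,k3,k4,k5])],[[[([z1,z1,z0,z0,z0,z1],z2)],[]]],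
    [.leafM k0 [k1,k2,k3,k4,k5,k0] [(z1,[y1,z1])] [],
    .lp [k4,k2,k2,k2,k2,k2] [k0,k0,k1,k1,k1,k1,k1,k1,k1,k1,k1,k1] k0 [] k8 k5
    [[(k9,k3),(k10,k3)],[(k3,k3),(k7,k3)],[(k4,k2),(k0,k3)],[(k5,k2),(k11,k2)],[(k2,k2),(k8,k2)],[(k3,k2),(k7,k2)],
    [(k4,k2),(k0,k3)],[(k9,k2),(k10,k2)],[(k6,k2),(k1,k3)],[(k5,k2),(k11,k2)],[(k2,k2),(k8,k2)],[(k6,k2),(k1,k3)]]
    [] k0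
    [[k0,k0,k1,k1,k1,k0]]
    [.ref k0 k0 [(z1,[y1,z1])]]]⟩

/-- classes `0 1 0 2 1 2`, types `C0 C0 C0 C0 C2 C0` -/
noncomputable def cT6_2082 : CertT :=
  ⟨[k4,k20,k4,k36,k22,k36],[],[[[]]],
    [.lp [k2,k0,k2,k0,k2,k0] [k0,k0,k1,k1,k0,k0,k1,k1,k0,k0,k1,k1] k0 [] k4 k5
    [[(k6,k1),(k10,k1)],[(k3,k1),(k7,k1)],[(k0,k1),(k4,k1)],[(k5,k1),(k8,k1)],[(k2,k1),(k11,k1)],[(k3,k1),(k7,k1)],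
    [(k0,k1),(k4,k1)],[(k1,k1),(k9,k1)],[(k6,k1),(k10,k1)],[(k2,k1),(k11,k1)],[(k5,k1),(k8,k1)],[(k1,k1),(k9,k1)]]
    [] k0
    []
    []]⟩

/-- classes `0 1 0 2 1 2`, types `C0 C0 C0 C0 C2 C2` -/
noncomputable def cT6_2083 : CertT :=
  ⟨[k4,k20,k4,k36,k22,k38],[(false,k0,[k0,k1,k2,k3,k4,k5])],[[[([z1,z1,z0,z0,z1,z0],z2)],[]]],
    [.leafM k3 [k3,k4,k5,k0,k1,k2] [(z1,[z1])] [],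
    .lp [k4,k2,k2,k2,k2,k2] [k0,k0,k1,k1,k1,k1,k1,k1,k1,k1,k1,k1] k0 [] k8 k5
    [[(k9,k3),(k10,k3)],[(k3,k3),(k7,k3)],[(k4,k2),(k0,k3)],[(k5,k2),(k8,k2)],[(k2,k2),(k11,k2)],[(k3,k2),(k7,k2)],
    [(k4,k2),(k0,k3)],[(k9,k2),(k10,k2)],[(k6,k2),(k1,k3)],[(k2,k2),(k11,k2)],[(k5,k2),(k8,k2)],[(k6,k2),(k1,k3)]]
    [] k0
    [[k0,k0,k1,k1,k0,k1]]
    [.ref k0 k0 [(z1,[y1,z1])]]]⟩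

/-- classes `0 1 0 2 1 2`, types `C0 C0 C0 N0 C0 N1` -/
noncomputable def cT6_2084 : CertT :=
  ⟨[k4,k20,k4,k44,k20,k45],[],[[[]]],
    [.lp [k0,k2,k0,k2,k2,k0] [k1,k1,k0,k0,k1,k1,k0,k0,k0,k0,k1,k1] k0 [] k4 k5
    [[(k6,k1)],[(k3,k1),(k7,k1)],[(k0,k1),(k4,k1)],[(k5,k1),(k11,k1)],[(k2,k1),(k8,k1)],[(k3,k1),(k7,k1)],[(k0,k1),
    (k4,k1)],[(k1,k1)],[(k10,k1)],[(k5,k1),(k11,k1)],[(k2,k1),(k8,k1)],[(k9,k1)]]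
    [] k0
    []
    []]⟩

/-- classes `0 1 0 2 1 2`, types `C0 C0 C0 N0 C0 N2` -/
noncomputable def cT6_2085 : CertT :=
  ⟨[k4,k20,k4,k44,k20,k46],[],[[[]]],
    [.lp [k0,k2,k0,k2,k2,k0] [k1,k1,k0,k0,k1,k1,k0,k0,k0,k0,k1,k1] k0 [] k4 k5
    [[(k9,k1)],[(k3,k1),(k7,k1)],[(k0,k1),(k4,k1)],[(k5,k1),(k11,k1)],[(k2,k1),(k8,k1)],[(k3,k1),(k7,k1)],[(k0,k1),
    (k4,k1)],[(k10,k1)],[(k1,k1)],[(k5,k1),(k11,k1)],[(k2,k1),(k8,k1)],[(k6,k1)]]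
    [] k0
    []
    []]⟩

/-- classes `0 1 0 2 1 2`, types `C0 C0 C0 N0 C2 N1` -/
noncomputable def cT6_2086 : CertT :=
  ⟨[k4,k20,k4,k44,k22,k45],[],[[[]]],
    [.lp [k2,k0,k2,k0,k2,k0] [k0,k0,k1,k1,k0,k0,k1,k1,k0,k0,k1,k1] k0 [] k4 k5
    [[(k6,k1)],[(k3,k1),(k7,k1)],[(k0,k1),(k4,k1)],[(k5,k1),(k8,k1)],[(k2,k1),(k11,k1)],[(k3,k1),(k7,k1)],[(k0,k1),
    (k4,k1)],[(k1,k1)],[(k10,k1)],[(k2,k1),(k11,k1)],[(k5,k1),(k8,k1)],[(k9,k1)]]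
    [] k0
    []
    []]⟩

/-- classes `0 1 0 2 1 2`, types `C0 C0 C0 N0 C2 N2` -/
noncomputable def cT6_2087 : CertT :=
  ⟨[k4,k20,k4,k44,k22,k46],[(false,k0,[k0,k1,k2,k3,k4,k5])],[[[([z1,z1,z0,z0,z1,z0],z2)],[]]],
    [.leafM k3 [k3,k4,k5,k0,k1,k2] [(z1,[z1])] [],
    .lp [k4,k2,k2,k2,k2,k2] [k0,k0,k1,k1,k1,k1,k1,k1,k1,k1,k1,k1] k0 [] k8 k5
    [[(k9,k3)],[(k3,k3),(k7,k3)],[(k4,k2),(k0,k3)],[(k5,k2),(k8,k2)],[(k2,k2),(k11,k2)],[(k3,k2),(k7,k2)],[(k4,k2),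
    (k0,k3)],[(k10,k2)],[(k1,k3)],[(k2,k2),(k11,k2)],[(k5,k2),(k8,k2)],[(k6,k2)]]
    [] k0
    [[k0,k0,k1,k1,k0,k1]]
    [.ref k0 k0 [(z1,[y1,z1])]]]⟩

/-- classes `0 1 0 2 1 2`, types `C0 C0 C0 S0 C0 S0` -/
noncomputable def cT6_2088 : CertT :=
  ⟨[k4,k20,k4,k32,k20,k32],[(false,k0,[k0,k1,k2,k3,k4,k5])],[[[([z1,z1,z0,z0,z0,z1],z2)],[]]],
    [.leafM k0 [k1,k2,k3,k4,k5,k0] [(z1,[y1,z1])] [],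
    .lp [k4,k2,k2,k2,k2,k2] [k0,k0,k1,k1,k1,k1,k1,k1,k1,k1,k1,k1] k0 [] k8 k5
    [[(k6,k3),(k9,k3),(k10,k3),(k1,k4)],[(k3,k3),(k7,k3)],[(k4,k2),(k0,k3)],[(k5,k2),(k11,k2)],[(k2,k2),(k8,k2)],[(k3,
    k2),(k7,k2)],[(k4,k2),(k0,k3)],[(k6,k2),(k9,k2),(k10,k2),(k1,k3)],[(k6,k2),(k9,k2),(k10,k2),(k1,k3)],[(k5,k2),
    (k11,k2)],[(k2,k2),(k8,k2)],[(k6,k2),(k9,k2),(k10,k2),(k1,k3)]]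
    [] k0
    [[k0,k0,k1,k1,k1,k0]]
    [.ref k0 k0 [(z1,[y1,z1])]]]⟩

/-- classes `0 1 0 2 1 2`, types `C0 C0 C0 S0 C2 S0` -/
noncomputable def cT6_2089 : CertT :=
  ⟨[k4,k20,k4,k32,k22,k32],[(false,k0,[k0,k1,k2,k3,k4,k5])],[[[([z1,z1,z0,z0,z1,z0],z2)],[]]],
    [.leafM k3 [k3,k4,k5,k0,k1,k2] [(z1,[z1])] [],
    .lp [k2,k2,k2,k2,k2,k4] [k1,k1,k1,k1,k1,k1,k1,k1,k1,k1,k0,k0] k0 [] k8 k5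
    [[(k1,k2),(k6,k2),(k9,k2),(k10,k3)],[(k3,k2),(k7,k2)],[(k0,k2),(k4,k2)],[(k5,k2),(k8,k2)],[(k2,k2),(k11,k3)],[(k3,
    k2),(k7,k2)],[(k0,k2),(k4,k2)],[(k1,k2),(k6,k2),(k9,k2),(k10,k3)],[(k1,k2),(k6,k2),(k9,k2),(k10,k3)],[(k2,k2),
    (k11,k3)],[(k5,k3),(k8,k3)],[(k1,k3),(k6,k3),(k9,k3),(k10,k4)]]
    [] k0
    [[k1,k1,k0,k0,k1,k0]]
    [.ref k0 k0 [(z1,[z1])]]]⟩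

/-- classes `0 1 0 2 1 2`, types `C0 C0 C2 C0 C0 C2` -/
noncomputable def cT6_2090 : CertT :=
  ⟨[k4,k20,k6,k36,k20,k38],[(false,k0,[k0,k1,k2,k3,k4,k5])],[[[([z1,z0,z1,z0,z1,z0],z2)],[([z1,z1,z0,z0,z0,z1],z2)],
    []]],
    [.leafM k5 [k0,k1,k2,k3,k4,k5] [(z1,[y1,z1]),(z1,[z1])] [],
    .leafM k0 [k1,k2,k3,k4,k5,k0] [(z1,[y1,z1])] [],
    .lp [k4,k2,k2,k2,k2,k2] [k0,k0,k1,k1,k1,k1,k1,k1,k1,k1,k1,k1] k0 [] k8 k5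
    [[(k9,k3),(k10,k3)],[(k3,k3),(k4,k3)],[(k7,k2),(k0,k3)],[(k5,k2),(k11,k2)],[(k2,k2),(k8,k2)],[(k7,k2),(k0,k3)],
    [(k3,k2),(k4,k2)],[(k9,k2),(k10,k2)],[(k6,k2),(k1,k3)],[(k5,k2),(k11,k2)],[(k2,k2),(k8,k2)],[(k6,k2),(k1,k3)]]
    [] k0
    [[k0,k1,k0,k1,k0,k1],[k0,k0,k1,k1,k1,k0]]
    [.ref k0 k0 [(z1,[y1,z1])],.ref k1 k0 [(z1,[y1,z1])]]]⟩

/-- classes `0 1 0 2 1 2`, types `C0 C0 C2 C0 C2 C2` -/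
noncomputable def cT6_2091 : CertT :=
  ⟨[k4,k20,k6,k36,k22,k38],[(false,k3,[k3,k4,k5,k0,k1,k2]),(false,k0,[k0,k1,k2,k3,k4,k5])],[[[([z1,z0,z1,z0,z0,z1],
    z2)],[]]],
    [.leafM k3 [k0,k1,k2,k3,k4,k5] [(z1,[y1,z1])] [],
    .lp [k2,k2,k2,k2,k2,k4] [k1,k1,k1,k1,k1,k1,k1,k1,k1,k1,k0,k0] k0 [] k8 k5
    [[(k9,k2),(k10,k3)],[(k3,k2),(k4,k2)],[(k0,k2),(k7,k2)],[(k5,k2),(k8,k2)],[(k2,k2),(k11,k3)],[(k0,k2),(k7,k2)],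
    [(k3,k2),(k4,k2)],[(k9,k2),(k10,k3)],[(k1,k2),(k6,k2)],[(k2,k2),(k11,k3)],[(k5,k3),(k8,k3)],[(k1,k3),(k6,k3)]]
    [] k0
    [[k1,k1,k0,k0,k1,k0],[k0,k1,k0,k1,k1,k0]]
    [.ref k0 k0 [(z1,[y1,z1])],.ref k0 k1 [(z1,[y1,z1])]]]⟩

/-- classes `0 1 0 2 1 2`, types `C0 C0 C2 N0 C0 N1` -/
noncomputable def cT6_2092 : CertT :=
  ⟨[k4,k20,k6,k44,k20,k45],[],[[[]]],
    [.lp [k2,k2,k2,k2,k2,k2] [k0,k0,k0,k0,k0,k0,k0,k0,k0,k0,k0,k0] k0 [] k8 k5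
    [[(k6,k2)],[(k3,k2),(k4,k2)],[(k0,k2),(k7,k2)],[(k5,k2),(k11,k2)],[(k2,k2),(k8,k2)],[(k0,k2),(k7,k2)],[(k3,k2),
    (k4,k2)],[(k1,k2)],[(k10,k2)],[(k5,k2),(k11,k2)],[(k2,k2),(k8,k2)],[(k9,k2)]]
    [] k0
    []
    []]⟩

/-- classes `0 1 0 2 1 2`, types `C0 C0 C2 N0 C0 N2` -/
noncomputable def cT6_2093 : CertT :=
  ⟨[k4,k20,k6,k44,k20,k46],[(false,k0,[k0,k1,k2,k3,k4,k5])],[[[([z1,z0,z1,z0,z1,z0],z2)],[]]],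
    [.leafM k5 [k0,k1,k2,k3,k4,k5] [(z1,[y1,z1]),(z1,[z1])] [],
    .lp [k4,k2,k2,k2,k2,k2] [k0,k0,k1,k1,k1,k1,k1,k1,k1,k1,k1,k1] k0 [] k8 k5
    [[(k9,k3)],[(k3,k3),(k4,k3)],[(k7,k2),(k0,k3)],[(k5,k2),(k11,k2)],[(k2,k2),(k8,k2)],[(k7,k2),(k0,k3)],[(k3,k2),
    (k4,k2)],[(k10,k2)],[(k1,k3)],[(k5,k2),(k11,k2)],[(k2,k2),(k8,k2)],[(k6,k2)]]
    [] k0
    [[k0,k1,k0,k1,k0,k1]]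
    [.ref k0 k0 [(z1,[y1,z1])]]]⟩

/-- classes `0 1 0 2 1 2`, types `C0 C0 C2 N0 C2 N1` -/
noncomputable def cT6_2094 : CertT :=
  ⟨[k4,k20,k6,k44,k22,k45],[],[[[]]],
    [.lp [k2,k2,k2,k2,k2,k2] [k0,k0,k0,k0,k0,k0,k0,k0,k0,k0,k0,k0] k0 [] k8 k5
    [[(k6,k2)],[(k3,k2),(k4,k2)],[(k0,k2),(k7,k2)],[(k5,k2),(k8,k2)],[(k2,k2),(k11,k2)],[(k0,k2),(k7,k2)],[(k3,k2),
    (k4,k2)],[(k1,k2)],[(k10,k2)],[(k2,k2),(k11,k2)],[(k5,k2),(k8,k2)],[(k9,k2)]]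
    [] k0
    []
    []]⟩

/-- classes `0 1 0 2 1 2`, types `C0 C0 C2 N0 C2 N2` -/
noncomputable def cT6_2095 : CertT :=
  ⟨[k4,k20,k6,k44,k22,k46],[(false,k0,[k0,k1,k2,k3,k4,k5])],[[[([z1,z1,z0,z0,z1,z0],z2)],[]]],
    [.leafM k3 [k3,k4,k5,k0,k1,k2] [(z1,[z1])] [],
    .lp [k4,k2,k2,k2,k2,k2] [k0,k0,k1,k1,k1,k1,k1,k1,k1,k1,k1,k1] k0 [] k8 k5
    [[(k9,k3)],[(k3,k3),(k4,k3)],[(k7,k2),(k0,k3)],[(k5,k2),(k8,k2)],[(k2,k2),(k11,k2)],[(k7,k2),(k0,k3)],[(k3,k2),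
    (k4,k2)],[(k10,k2)],[(k1,k3)],[(k2,k2),(k11,k2)],[(k5,k2),(k8,k2)],[(k6,k2)]]
    [] k0
    [[k0,k0,k1,k1,k0,k1]]
    [.ref k0 k0 [(z1,[y1,z1])]]]⟩

/-- classes `0 1 0 2 1 2`, types `C0 C0 C2 S0 C0 S0` -/
noncomputable def cT6_2096 : CertT :=
  ⟨[k4,k20,k6,k32,k20,k32],[(false,k0,[k0,k1,k2,k3,k4,k5])],[[[([z1,z0,z1,z0,z1,z0],z2)],[([z1,z1,z0,z0,z0,z1],z2)],
    []]],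
    [.leafM k5 [k0,k1,k2,k3,k4,k5] [(z1,[y1,z1]),(z1,[z1])] [],
    .leafM k0 [k1,k2,k3,k4,k5,k0] [(z1,[y1,z1])] [],
    .lp [k2,k2,k2,k4,k2,k2] [k1,k1,k1,k1,k1,k1,k0,k0,k1,k1,k1,k1] k0 [] k8 k5
    [[(k1,k2),(k9,k2),(k10,k2),(k6,k3)],[(k3,k2),(k4,k2)],[(k0,k2),(k7,k3)],[(k5,k2),(k11,k2)],[(k2,k2),(k8,k2)],[(k0,
    k2),(k7,k3)],[(k3,k3),(k4,k3)],[(k1,k3),(k9,k3),(k10,k3),(k6,k4)],[(k1,k2),(k9,k2),(k10,k2),(k6,k3)],[(k5,k2),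
    (k11,k2)],[(k2,k2),(k8,k2)],[(k1,k2),(k9,k2),(k10,k2),(k6,k3)]]
    [] k0
    [[k1,k0,k1,k0,k1,k0],[k1,k1,k0,k0,k0,k1]]
    [.ref k0 k0 [(z1,[z1])],.ref k1 k0 [(z1,[z1])]]]⟩

/-- classes `0 1 0 2 1 2`, types `C0 C0 C2 S0 C2 S0` -/
noncomputable def cT6_2097 : CertT :=
  ⟨[k4,k20,k6,k32,k22,k32],[(false,k0,[k0,k1,k2,k3,k4,k5])],[[[([z1,z1,z0,z0,z1,z0],z2)],[([z1,z0,z1,z0,z0,z1],z2)],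
    []]],
    [.leafM k3 [k3,k4,k5,k0,k1,k2] [(z1,[z1])] [],
    .leafM k3 [k0,k1,k2,k3,k4,k5] [(z1,[y1,z1])] [],
    .lp [k2,k2,k2,k2,k2,k4] [k1,k1,k1,k1,k1,k1,k1,k1,k1,k1,k0,k0] k0 [] k8 k5
    [[(k1,k2),(k6,k2),(k9,k2),(k10,k3)],[(k3,k2),(k4,k2)],[(k0,k2),(k7,k2)],[(k5,k2),(k8,k2)],[(k2,k2),(k11,k3)],[(k0,
    k2),(k7,k2)],[(k3,k2),(k4,k2)],[(k1,k2),(k6,k2),(k9,k2),(k10,k3)],[(k1,k2),(k6,k2),(k9,k2),(k10,k3)],[(k2,k2),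
    (k11,k3)],[(k5,k3),(k8,k3)],[(k1,k3),(k6,k3),(k9,k3),(k10,k4)]]
    [] k0
    [[k1,k1,k0,k0,k1,k0],[k0,k1,k0,k1,k1,k0]]
    [.ref k0 k0 [(z1,[z1])],.ref k1 k0 [(z1,[y1,z1])]]]⟩

/-- classes `0 1 0 2 1 2`, types `C0 N0 C0 C0 N1 C0` -/
noncomputable def cT6_2098 : CertT :=
  ⟨[k4,k28,k4,k36,k29,k36],[(false,k0,[k0,k1,k2,k3,k4,k5])],[[[([z1,z1,z0,z0,z0,z1],z2)],[]]],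
    [.leafM k0 [k1,k2,k3,k4,k5,k0] [(z1,[y1,z1])] [],
    .lp [k4,k2,k2,k2,k2,k2] [k0,k0,k1,k1,k1,k1,k1,k1,k1,k1,k1,k1] k0 [] k8 k5
    [[(k6,k3),(k10,k3)],[(k3,k3),(k7,k3)],[(k4,k2),(k0,k3)],[(k11,k2)],[(k8,k2)],[(k3,k2),(k7,k2)],[(k4,k2),(k0,k3)],
    [(k9,k2),(k1,k3)],[(k6,k2),(k10,k2)],[(k5,k2)],[(k2,k2)],[(k9,k2),(k1,k3)]]
    [] k0
    [[k0,k0,k1,k1,k1,k0]]
    [.ref k0 k0 [(z1,[y1,z1])]]]⟩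

/-- classes `0 1 0 2 1 2`, types `C0 N0 C0 C0 N1 C2` -/
noncomputable def cT6_2099 : CertT :=
  ⟨[k4,k28,k4,k36,k29,k38],[(false,k0,[k0,k1,k2,k3,k4,k5])],[[[([z1,z1,z0,z0,z0,z1],z2)],[]]],
    [.leafM k0 [k1,k2,k3,k4,k5,k0] [(z1,[y1,z1])] [],
    .lp [k4,k2,k2,k2,k2,k2] [k0,k0,k1,k1,k1,k1,k1,k1,k1,k1,k1,k1] k0 [] k8 k5
    [[(k9,k3),(k10,k3)],[(k3,k3),(k7,k3)],[(k4,k2),(k0,k3)],[(k11,k2)],[(k8,k2)],[(k3,k2),(k7,k2)],[(k4,k2),(k0,k3)],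
    [(k9,k2),(k10,k2)],[(k6,k2),(k1,k3)],[(k5,k2)],[(k2,k2)],[(k6,k2),(k1,k3)]]
    [] k0
    [[k0,k0,k1,k1,k1,k0]]
    [.ref k0 k0 [(z1,[y1,z1])]]]⟩

/-- classes `0 1 0 2 1 2`, types `C0 N0 C0 C0 N2 C0` -/
noncomputable def cT6_2100 : CertT :=
  ⟨[k4,k28,k4,k36,k30,k36],[],[[[]]],
    [.lp [k2,k0,k2,k0,k2,k0] [k0,k0,k1,k1,k0,k0,k1,k1,k0,k0,k1,k1] k0 [] k4 k5
    [[(k6,k1),(k10,k1)],[(k3,k1),(k7,k1)],[(k0,k1),(k4,k1)],[(k8,k1)],[(k11,k1)],[(k3,k1),(k7,k1)],[(k0,k1),(k4,k1)],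
    [(k1,k1),(k9,k1)],[(k6,k1),(k10,k1)],[(k2,k1)],[(k5,k1)],[(k1,k1),(k9,k1)]]
    [] k0
    []
    []]⟩

/-- classes `0 1 0 2 1 2`, types `C0 N0 C0 C0 N2 C2` -/
noncomputable def cT6_2101 : CertT :=
  ⟨[k4,k28,k4,k36,k30,k38],[(false,k0,[k0,k1,k2,k3,k4,k5])],[[[([z1,z1,z0,z0,z1,z0],z2)],[]]],
    [.leafM k3 [k3,k4,k5,k0,k1,k2] [(z1,[z1])] [],
    .lp [k4,k2,k2,k2,k2,k2] [k0,k0,k1,k1,k1,k1,k1,k1,k1,k1,k1,k1] k0 [] k8 k5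
    [[(k9,k3),(k10,k3)],[(k3,k3),(k7,k3)],[(k4,k2),(k0,k3)],[(k8,k2)],[(k11,k2)],[(k3,k2),(k7,k2)],[(k4,k2),(k0,k3)],
    [(k9,k2),(k10,k2)],[(k6,k2),(k1,k3)],[(k2,k2)],[(k5,k2)],[(k6,k2),(k1,k3)]]
    [] k0
    [[k0,k0,k1,k1,k0,k1]]
    [.ref k0 k0 [(z1,[y1,z1])]]]⟩

/-- classes `0 1 0 2 1 2`, types `C0 N0 C0 N0 N1 N1` -/
noncomputable def cT6_2102 : CertT :=
  ⟨[k4,k28,k4,k44,k29,k45],[],[[[]]],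
    [.lp [k0,k2,k0,k2,k2,k0] [k1,k1,k0,k0,k1,k1,k0,k0,k0,k0,k1,k1] k0 [] k4 k5
    [[(k6,k1)],[(k3,k1),(k7,k1)],[(k0,k1),(k4,k1)],[(k11,k1)],[(k8,k1)],[(k3,k1),(k7,k1)],[(k0,k1),(k4,k1)],[(k1,k1)],
    [(k10,k1)],[(k5,k1)],[(k2,k1)],[(k9,k1)]]
    [] k0
    []
    []]⟩

/-- classes `0 1 0 2 1 2`, types `C0 N0 C0 N0 N1 N2` -/
noncomputable def cT6_2103 : CertT :=
  ⟨[k4,k28,k4,k44,k29,k46],[],[[[]]],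
    [.lp [k0,k2,k0,k2,k2,k0] [k1,k1,k0,k0,k1,k1,k0,k0,k0,k0,k1,k1] k0 [] k4 k5
    [[(k9,k1)],[(k3,k1),(k7,k1)],[(k0,k1),(k4,k1)],[(k11,k1)],[(k8,k1)],[(k3,k1),(k7,k1)],[(k0,k1),(k4,k1)],[(k10,
    k1)],[(k1,k1)],[(k5,k1)],[(k2,k1)],[(k6,k1)]]
    [] k0
    []
    []]⟩

/-- classes `0 1 0 2 1 2`, types `C0 N0 C0 N0 N2 N1` -/
noncomputable def cT6_2104 : CertT :=
  ⟨[k4,k28,k4,k44,k30,k45],[],[[[]]],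
    [.lp [k2,k0,k2,k0,k2,k0] [k0,k0,k1,k1,k0,k0,k1,k1,k0,k0,k1,k1] k0 [] k4 k5
    [[(k6,k1)],[(k3,k1),(k7,k1)],[(k0,k1),(k4,k1)],[(k8,k1)],[(k11,k1)],[(k3,k1),(k7,k1)],[(k0,k1),(k4,k1)],[(k1,k1)],
    [(k10,k1)],[(k2,k1)],[(k5,k1)],[(k9,k1)]]
    [] k0
    []
    []]⟩

/-- classes `0 1 0 2 1 2`, types `C0 N0 C0 N0 N2 N2` -/
noncomputable def cT6_2105 : CertT :=
  ⟨[k4,k28,k4,k44,k30,k46],[(false,k0,[k0,k1,k2,k3,k4,k5])],[[[([z1,z1,z0,z0,z1,z0],z2)],[]]],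
    [.leafM k3 [k3,k4,k5,k0,k1,k2] [(z1,[z1])] [],
    .lp [k4,k2,k2,k2,k2,k2] [k0,k0,k1,k1,k1,k1,k1,k1,k1,k1,k1,k1] k0 [] k8 k5
    [[(k9,k3)],[(k3,k3),(k7,k3)],[(k4,k2),(k0,k3)],[(k8,k2)],[(k11,k2)],[(k3,k2),(k7,k2)],[(k4,k2),(k0,k3)],[(k10,
    k2)],[(k1,k3)],[(k2,k2)],[(k5,k2)],[(k6,k2)]]
    [] k0
    [[k0,k0,k1,k1,k0,k1]]
    [.ref k0 k0 [(z1,[y1,z1])]]]⟩

/-- classes `0 1 0 2 1 2`, types `C0 N0 C0 S0 N1 S0` -/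
noncomputable def cT6_2106 : CertT :=
  ⟨[k4,k28,k4,k32,k29,k32],[(false,k0,[k0,k1,k2,k3,k4,k5])],[[[([z1,z1,z0,z0,z0,z1],z2)],[]]],
    [.leafM k0 [k1,k2,k3,k4,k5,k0] [(z1,[y1,z1])] [],
    .lp [k4,k2,k2,k2,k2,k2] [k0,k0,k1,k1,k1,k1,k1,k1,k1,k1,k1,k1] k0 [] k8 k5
    [[(k6,k3),(k9,k3),(k10,k3),(k1,k4)],[(k3,k3),(k7,k3)],[(k4,k2),(k0,k3)],[(k11,k2)],[(k8,k2)],[(k3,k2),(k7,k2)],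
    [(k4,k2),(k0,k3)],[(k6,k2),(k9,k2),(k10,k2),(k1,k3)],[(k6,k2),(k9,k2),(k10,k2),(k1,k3)],[(k5,k2)],[(k2,k2)],[(k6,
    k2),(k9,k2),(k10,k2),(k1,k3)]]
    [] k0
    [[k0,k0,k1,k1,k1,k0]]
    [.ref k0 k0 [(z1,[y1,z1])]]]⟩

/-- classes `0 1 0 2 1 2`, types `C0 N0 C0 S0 N2 S0` -/
noncomputable def cT6_2107 : CertT :=
  ⟨[k4,k28,k4,k32,k30,k32],[(false,k0,[k0,k1,k2,k3,k4,k5])],[[[([z1,z1,z0,z0,z1,z0],z2)],[]]],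
    [.leafM k3 [k3,k4,k5,k0,k1,k2] [(z1,[z1])] [],
    .lp [k2,k2,k2,k2,k2,k4] [k1,k1,k1,k1,k1,k1,k1,k1,k1,k1,k0,k0] k0 [] k8 k5
    [[(k1,k2),(k6,k2),(k9,k2),(k10,k3)],[(k3,k2),(k7,k2)],[(k0,k2),(k4,k2)],[(k8,k2)],[(k11,k3)],[(k3,k2),(k7,k2)],
    [(k0,k2),(k4,k2)],[(k1,k2),(k6,k2),(k9,k2),(k10,k3)],[(k1,k2),(k6,k2),(k9,k2),(k10,k3)],[(k2,k2)],[(k5,k3)],[(k1,
    k3),(k6,k3),(k9,k3),(k10,k4)]]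
    [] k0
    [[k1,k1,k0,k0,k1,k0]]
    [.ref k0 k0 [(z1,[z1])]]]⟩

/-- classes `0 1 0 2 1 2`, types `C0 N0 C2 C0 N1 C2` -/
noncomputable def cT6_2108 : CertT :=
  ⟨[k4,k28,k6,k36,k29,k38],[(false,k0,[k0,k1,k2,k3,k4,k5])],[[[([z1,z0,z1,z0,z1,z0],z2)],[([z1,z1,z0,z0,z0,z1],z2)],
    []]],
    [.leafM k5 [k0,k1,k2,k3,k4,k5] [(z1,[y1,z1]),(z1,[z1])] [],
    .leafM k0 [k1,k2,k3,k4,k5,k0] [(z1,[y1,z1])] [],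
    .lp [k4,k2,k2,k2,k2,k2] [k0,k0,k1,k1,k1,k1,k1,k1,k1,k1,k1,k1] k0 [] k8 k5
    [[(k9,k3),(k10,k3)],[(k3,k3),(k4,k3)],[(k7,k2),(k0,k3)],[(k11,k2)],[(k8,k2)],[(k7,k2),(k0,k3)],[(k3,k2),(k4,k2)],
    [(k9,k2),(k10,k2)],[(k6,k2),(k1,k3)],[(k5,k2)],[(k2,k2)],[(k6,k2),(k1,k3)]]
    [] k0
    [[k0,k1,k0,k1,k0,k1],[k0,k0,k1,k1,k1,k0]]
    [.ref k0 k0 [(z1,[y1,z1])],.ref k1 k0 [(z1,[y1,z1])]]]⟩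

/-- classes `0 1 0 2 1 2`, types `C0 N0 C2 C0 N2 C2` -/
noncomputable def cT6_2109 : CertT :=
  ⟨[k4,k28,k6,k36,k30,k38],[(false,k3,[k3,k4,k5,k0,k1,k2]),(false,k0,[k0,k1,k2,k3,k4,k5])],[[[([z1,z0,z1,z0,z0,z1],
    z2)],[]]],
    [.leafM k3 [k0,k1,k2,k3,k4,k5] [(z1,[y1,z1])] [],
    .lp [k2,k2,k2,k2,k2,k4] [k1,k1,k1,k1,k1,k1,k1,k1,k1,k1,k0,k0] k0 [] k8 k5
    [[(k9,k2),(k10,k3)],[(k3,k2),(k4,k2)],[(k0,k2),(k7,k2)],[(k8,k2)],[(k11,k3)],[(k0,k2),(k7,k2)],[(k3,k2),(k4,k2)],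
    [(k9,k2),(k10,k3)],[(k1,k2),(k6,k2)],[(k2,k2)],[(k5,k3)],[(k1,k3),(k6,k3)]]
    [] k0
    [[k1,k1,k0,k0,k1,k0],[k0,k1,k0,k1,k1,k0]]
    [.ref k0 k0 [(z1,[y1,z1])],.ref k0 k1 [(z1,[y1,z1])]]]⟩

/-- classes `0 1 0 2 1 2`, types `C0 N0 C2 N0 N1 N1` -/
noncomputable def cT6_2110 : CertT :=
  ⟨[k4,k28,k6,k44,k29,k45],[],[[[]]],
    [.lp [k2,k2,k2,k2,k2,k2] [k0,k0,k0,k0,k0,k0,k0,k0,k0,k0,k0,k0] k0 [] k8 k5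
    [[(k6,k2)],[(k3,k2),(k4,k2)],[(k0,k2),(k7,k2)],[(k11,k2)],[(k8,k2)],[(k0,k2),(k7,k2)],[(k3,k2),(k4,k2)],[(k1,k2)],
    [(k10,k2)],[(k5,k2)],[(k2,k2)],[(k9,k2)]]
    [] k0
    []
    []]⟩

/-- classes `0 1 0 2 1 2`, types `C0 N0 C2 N0 N1 N2` -/
noncomputable def cT6_2111 : CertT :=
  ⟨[k4,k28,k6,k44,k29,k46],[(false,k0,[k0,k1,k2,k3,k4,k5])],[[[([z1,z0,z1,z0,z1,z0],z2)],[]]],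
    [.leafM k5 [k0,k1,k2,k3,k4,k5] [(z1,[y1,z1]),(z1,[z1])] [],
    .lp [k4,k2,k2,k2,k2,k2] [k0,k0,k1,k1,k1,k1,k1,k1,k1,k1,k1,k1] k0 [] k8 k5
    [[(k9,k3)],[(k3,k3),(k4,k3)],[(k7,k2),(k0,k3)],[(k11,k2)],[(k8,k2)],[(k7,k2),(k0,k3)],[(k3,k2),(k4,k2)],[(k10,
    k2)],[(k1,k3)],[(k5,k2)],[(k2,k2)],[(k6,k2)]]
    [] k0
    [[k0,k1,k0,k1,k0,k1]]
    [.ref k0 k0 [(z1,[y1,z1])]]]⟩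

/-- classes `0 1 0 2 1 2`, types `C0 N0 C2 N0 N2 N1` -/
noncomputable def cT6_2112 : CertT :=
  ⟨[k4,k28,k6,k44,k30,k45],[],[[[]]],
    [.lp [k2,k2,k2,k2,k2,k2] [k0,k0,k0,k0,k0,k0,k0,k0,k0,k0,k0,k0] k0 [] k8 k5
    [[(k6,k2)],[(k3,k2),(k4,k2)],[(k0,k2),(k7,k2)],[(k8,k2)],[(k11,k2)],[(k0,k2),(k7,k2)],[(k3,k2),(k4,k2)],[(k1,k2)],
    [(k10,k2)],[(k2,k2)],[(k5,k2)],[(k9,k2)]]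
    [] k0
    []
    []]⟩

/-- classes `0 1 0 2 1 2`, types `C0 N0 C2 N0 N2 N2` -/
noncomputable def cT6_2113 : CertT :=
  ⟨[k4,k28,k6,k44,k30,k46],[(false,k0,[k0,k1,k2,k3,k4,k5])],[[[([z1,z1,z0,z0,z1,z0],z2)],[]]],
    [.leafM k3 [k3,k4,k5,k0,k1,k2] [(z1,[z1])] [],
    .lp [k4,k2,k2,k2,k2,k2] [k0,k0,k1,k1,k1,k1,k1,k1,k1,k1,k1,k1] k0 [] k8 k5
    [[(k9,k3)],[(k3,k3),(k4,k3)],[(k7,k2),(k0,k3)],[(k8,k2)],[(k11,k2)],[(k7,k2),(k0,k3)],[(k3,k2),(k4,k2)],[(k10,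
    k2)],[(k1,k3)],[(k2,k2)],[(k5,k2)],[(k6,k2)]]
    [] k0
    [[k0,k0,k1,k1,k0,k1]]
    [.ref k0 k0 [(z1,[y1,z1])]]]⟩

/-- classes `0 1 0 2 1 2`, types `C0 N0 C2 S0 N1 S0` -/
noncomputable def cT6_2114 : CertT :=
  ⟨[k4,k28,k6,k32,k29,k32],[(false,k0,[k0,k1,k2,k3,k4,k5])],[[[([z1,z0,z1,z0,z1,z0],z2)],[([z1,z1,z0,z0,z0,z1],z2)],
    []]],
    [.leafM k5 [k0,k1,k2,k3,k4,k5] [(z1,[y1,z1]),(z1,[z1])] [],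
    .leafM k0 [k1,k2,k3,k4,k5,k0] [(z1,[y1,z1])] [],
    .lp [k2,k2,k2,k4,k2,k2] [k1,k1,k1,k1,k1,k1,k0,k0,k1,k1,k1,k1] k0 [] k8 k5
    [[(k1,k2),(k9,k2),(k10,k2),(k6,k3)],[(k3,k2),(k4,k2)],[(k0,k2),(k7,k3)],[(k11,k2)],[(k8,k2)],[(k0,k2),(k7,k3)],
    [(k3,k3),(k4,k3)],[(k1,k3),(k9,k3),(k10,k3),(k6,k4)],[(k1,k2),(k9,k2),(k10,k2),(k6,k3)],[(k5,k2)],[(k2,k2)],[(k1,
    k2),(k9,k2),(k10,k2),(k6,k3)]]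
    [] k0
    [[k1,k0,k1,k0,k1,k0],[k1,k1,k0,k0,k0,k1]]
    [.ref k0 k0 [(z1,[z1])],.ref k1 k0 [(z1,[z1])]]]⟩

/-- classes `0 1 0 2 1 2`, types `C0 N0 C2 S0 N2 S0` -/
noncomputable def cT6_2115 : CertT :=
  ⟨[k4,k28,k6,k32,k30,k32],[(false,k0,[k0,k1,k2,k3,k4,k5])],[[[([z1,z1,z0,z0,z1,z0],z2)],[([z1,z0,z1,z0,z0,z1],z2)],
    []]],
    [.leafM k3 [k3,k4,k5,k0,k1,k2] [(z1,[z1])] [],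
    .leafM k3 [k0,k1,k2,k3,k4,k5] [(z1,[y1,z1])] [],
    .lp [k2,k2,k2,k2,k2,k4] [k1,k1,k1,k1,k1,k1,k1,k1,k1,k1,k0,k0] k0 [] k8 k5
    [[(k1,k2),(k6,k2),(k9,k2),(k10,k3)],[(k3,k2),(k4,k2)],[(k0,k2),(k7,k2)],[(k8,k2)],[(k11,k3)],[(k0,k2),(k7,k2)],
    [(k3,k2),(k4,k2)],[(k1,k2),(k6,k2),(k9,k2),(k10,k3)],[(k1,k2),(k6,k2),(k9,k2),(k10,k3)],[(k2,k2)],[(k5,k3)],[(k1,
    k3),(k6,k3),(k9,k3),(k10,k4)]]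
    [] k0
    [[k1,k1,k0,k0,k1,k0],[k0,k1,k0,k1,k1,k0]]
    [.ref k0 k0 [(z1,[z1])],.ref k1 k0 [(z1,[y1,z1])]]]⟩

/-- classes `0 1 0 2 1 2`, types `C0 S0 C0 C0 S0 C0` -/
noncomputable def cT6_2116 : CertT :=
  ⟨[k4,k16,k4,k36,k16,k36],[(false,k0,[k0,k1,k2,k3,k4,k5])],[[[([z1,z1,z0,z0,z0,z1],z2)],[]]],
    [.leafM k0 [k1,k2,k3,k4,k5,k0] [(z1,[y1,z1])] [],
    .lp [k4,k2,k2,k2,k2,k2] [k0,k0,k1,k1,k1,k1,k1,k1,k1,k1,k1,k1] k0 [] k8 k5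
    [[(k6,k3),(k10,k3)],[(k3,k3),(k7,k3)],[(k4,k2),(k0,k3)],[(k2,k2),(k5,k2),(k8,k2),(k11,k2)],[(k2,k2),(k5,k2),(k8,
    k2),(k11,k2)],[(k3,k2),(k7,k2)],[(k4,k2),(k0,k3)],[(k9,k2),(k1,k3)],[(k6,k2),(k10,k2)],[(k2,k2),(k5,k2),(k8,k2),
    (k11,k2)],[(k2,k2),(k5,k2),(k8,k2),(k11,k2)],[(k9,k2),(k1,k3)]]
    [] k0
    [[k0,k0,k1,k1,k1,k0]]
    [.ref k0 k0 [(z1,[y1,z1])]]]⟩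

/-- classes `0 1 0 2 1 2`, types `C0 S0 C0 C0 S0 C2` -/
noncomputable def cT6_2117 : CertT :=
  ⟨[k4,k16,k4,k36,k16,k38],[(false,k0,[k0,k1,k2,k3,k4,k5])],[[[([z1,z1,z0,z0,z0,z1],z2)],[([z1,z1,z0,z0,z1,z0],z2)],
    []]],
    [.leafM k0 [k1,k2,k3,k4,k5,k0] [(z1,[y1,z1])] [],
    .leafM k3 [k3,k4,k5,k0,k1,k2] [(z1,[z1])] [],
    .lp [k4,k2,k2,k2,k2,k2] [k0,k0,k1,k1,k1,k1,k1,k1,k1,k1,k1,k1] k0 [] k8 k5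
    [[(k9,k3),(k10,k3)],[(k3,k3),(k7,k3)],[(k4,k2),(k0,k3)],[(k2,k2),(k5,k2),(k8,k2),(k11,k2)],[(k2,k2),(k5,k2),(k8,
    k2),(k11,k2)],[(k3,k2),(k7,k2)],[(k4,k2),(k0,k3)],[(k9,k2),(k10,k2)],[(k6,k2),(k1,k3)],[(k2,k2),(k5,k2),(k8,k2),
    (k11,k2)],[(k2,k2),(k5,k2),(k8,k2),(k11,k2)],[(k6,k2),(k1,k3)]]
    [] k0
    [[k0,k0,k1,k1,k1,k0],[k0,k0,k1,k1,k0,k1]]
    [.ref k0 k0 [(z1,[y1,z1])],.ref k1 k0 [(z1,[y1,z1])]]]⟩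

/-- classes `0 1 0 2 1 2`, types `C0 S0 C0 N0 S0 N1` -/
noncomputable def cT6_2118 : CertT :=
  ⟨[k4,k16,k4,k44,k16,k45],[],[[[]]],
    [.lp [k2,k2,k2,k2,k2,k2] [k0,k0,k0,k0,k0,k0,k0,k0,k0,k0,k0,k0] k0 [] k8 k5
    [[(k6,k2)],[(k3,k2),(k7,k2)],[(k0,k2),(k4,k2)],[(k2,k2),(k5,k2),(k8,k2),(k11,k2)],[(k2,k2),(k5,k2),(k8,k2),(k11,
    k2)],[(k3,k2),(k7,k2)],[(k0,k2),(k4,k2)],[(k1,k2)],[(k10,k2)],[(k2,k2),(k5,k2),(k8,k2),(k11,k2)],[(k2,k2),(k5,k2),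
    (k8,k2),(k11,k2)],[(k9,k2)]]
    [] k0
    []
    []]⟩

/-- classes `0 1 0 2 1 2`, types `C0 S0 C0 N0 S0 N2` -/
noncomputable def cT6_2119 : CertT :=
  ⟨[k4,k16,k4,k44,k16,k46],[(false,k0,[k0,k1,k2,k3,k4,k5])],[[[([z1,z1,z0,z0,z1,z0],z2)],[]]],
    [.leafM k3 [k3,k4,k5,k0,k1,k2] [(z1,[z1])] [],
    .lp [k4,k2,k2,k2,k2,k2] [k0,k0,k1,k1,k1,k1,k1,k1,k1,k1,k1,k1] k0 [] k8 k5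
    [[(k9,k3)],[(k3,k3),(k7,k3)],[(k4,k2),(k0,k3)],[(k2,k2),(k5,k2),(k8,k2),(k11,k2)],[(k2,k2),(k5,k2),(k8,k2),(k11,
    k2)],[(k3,k2),(k7,k2)],[(k4,k2),(k0,k3)],[(k10,k2)],[(k1,k3)],[(k2,k2),(k5,k2),(k8,k2),(k11,k2)],[(k2,k2),(k5,k2),
    (k8,k2),(k11,k2)],[(k6,k2)]]
    [] k0
    [[k0,k0,k1,k1,k0,k1]]
    [.ref k0 k0 [(z1,[y1,z1])]]]⟩

/-- classes `0 1 0 2 1 2`, types `C0 S0 C0 S0 S0 S0` -/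
noncomputable def cT6_2120 : CertT :=
  ⟨[k4,k16,k4,k32,k16,k32],[(false,k0,[k0,k1,k2,k3,k4,k5])],[[[([z1,z1,z0,z0,z0,z1],z2)],[([z1,z1,z0,z0,z1,z0],z2)],
    []]],
    [.leafM k0 [k1,k2,k3,k4,k5,k0] [(z1,[y1,z1])] [],
    .leafM k3 [k3,k4,k5,k0,k1,k2] [(z1,[z1])] [],
    .lp [k2,k4,k2,k2,k2,k2] [k1,k1,k0,k0,k1,k1,k1,k1,k1,k1,k1,k1] k0 [] k8 k5
    [[(k1,k2),(k6,k2),(k9,k2),(k10,k2)],[(k7,k2),(k3,k3)],[(k0,k3),(k4,k3)],[(k5,k3),(k8,k3),(k11,k3),(k2,k4)],[(k5,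
    k2),(k8,k2),(k11,k2),(k2,k3)],[(k7,k2),(k3,k3)],[(k0,k2),(k4,k2)],[(k1,k2),(k6,k2),(k9,k2),(k10,k2)],[(k1,k2),(k6,
    k2),(k9,k2),(k10,k2)],[(k5,k2),(k8,k2),(k11,k2),(k2,k3)],[(k5,k2),(k8,k2),(k11,k2),(k2,k3)],[(k1,k2),(k6,k2),(k9,
    k2),(k10,k2)]]
    [] k0
    [[k0,k0,k1,k1,k1,k0],[k0,k0,k1,k1,k0,k1]]
    [.ref k0 k0 [(z1,[y1,z1])],.ref k1 k0 [(z1,[y1,z1])]]]⟩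

/-- classes `0 1 0 2 1 2`, types `C0 S0 C2 C0 S0 C2` -/
noncomputable def cT6_2121 : CertT :=
  ⟨[k4,k16,k6,k36,k16,k38],[(false,k0,[k0,k1,k2,k3,k4,k5]),(false,k3,[k3,k4,k5,k0,k1,k2])],[[[([z1,z1,z0,z0,z0,z1],
    z2)],[([z1,z0,z1,z0,z0,z1],z2)],[([z1,z0,z1,z0,z1,z0],z2)],[]]],
    [.leafM k0 [k1,k2,k3,k4,k5,k0] [(z1,[y1,z1])] [],
    .leafM k3 [k0,k1,k2,k3,k4,k5] [(z1,[y1,z1])] [],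
    .leafM k5 [k0,k1,k2,k3,k4,k5] [(z1,[y1,z1]),(z1,[z1])] [],
    .lp [k6,k4,k6,k4,k6,k4] [k0,k0,k1,k1,k0,k0,k1,k1,k0,k0,k1,k1] k0 [] k16 k5
    [[(k10,k5),(k9,k6)],[(k3,k5),(k4,k6)],[(k7,k4),(k0,k5)],[(k2,k4),(k11,k4),(k5,k5),(k8,k5)],[(k2,k5),(k11,k5),(k5,
    k6),(k8,k6)],[(k7,k5),(k0,k6)],[(k3,k4),(k4,k5)],[(k10,k4),(k9,k5)],[(k6,k5),(k1,k6)],[(k2,k5),(k11,k5),(k5,k6),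
    (k8,k6)],[(k2,k4),(k11,k4),(k5,k5),(k8,k5)],[(k6,k4),(k1,k5)]]
    [] k0
    [[k1,k1,k0,k0,k0,k1],[k0,k1,k0,k1,k1,k0],[k0,k1,k0,k1,k0,k1],[k0,k0,k1,k1,k0,k1]]
    [.ref k0 k0 [(z1,[z1])],.ref k1 k0 [(z1,[y1,z1])],.ref k2 k0 [(z1,[y1,z1])],.ref k1 k1 [(z1,[z1])]]]⟩

/-- classes `0 1 0 2 1 2`, types `C0 S0 C2 N0 S0 N1` -/
noncomputable def cT6_2122 : CertT :=
  ⟨[k4,k16,k6,k44,k16,k45],[],[[[]]],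
    [.lp [k2,k2,k2,k2,k2,k2] [k0,k0,k0,k0,k0,k0,k0,k0,k0,k0,k0,k0] k0 [] k8 k5
    [[(k6,k2)],[(k3,k2),(k4,k2)],[(k0,k2),(k7,k2)],[(k2,k2),(k5,k2),(k8,k2),(k11,k2)],[(k2,k2),(k5,k2),(k8,k2),(k11,
    k2)],[(k0,k2),(k7,k2)],[(k3,k2),(k4,k2)],[(k1,k2)],[(k10,k2)],[(k2,k2),(k5,k2),(k8,k2),(k11,k2)],[(k2,k2),(k5,k2),
    (k8,k2),(k11,k2)],[(k9,k2)]]
    [] k0
    []
    []]⟩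

/-- classes `0 1 0 2 1 2`, types `C0 S0 C2 N0 S0 N2` -/
noncomputable def cT6_2123 : CertT :=
  ⟨[k4,k16,k6,k44,k16,k46],[(false,k0,[k0,k1,k2,k3,k4,k5])],[[[([z1,z0,z1,z0,z1,z0],z2)],[([z1,z1,z0,z0,z1,z0],z2)],
    []]],
    [.leafM k5 [k0,k1,k2,k3,k4,k5] [(z1,[y1,z1]),(z1,[z1])] [],
    .leafM k3 [k3,k4,k5,k0,k1,k2] [(z1,[z1])] [],
    .lp [k4,k2,k2,k2,k2,k2] [k0,k0,k1,k1,k1,k1,k1,k1,k1,k1,k1,k1] k0 [] k8 k5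
    [[(k9,k3)],[(k3,k3),(k4,k3)],[(k7,k2),(k0,k3)],[(k2,k2),(k5,k2),(k8,k2),(k11,k2)],[(k2,k2),(k5,k2),(k8,k2),(k11,
    k2)],[(k7,k2),(k0,k3)],[(k3,k2),(k4,k2)],[(k10,k2)],[(k1,k3)],[(k2,k2),(k5,k2),(k8,k2),(k11,k2)],[(k2,k2),(k5,k2),
    (k8,k2),(k11,k2)],[(k6,k2)]]
    [] k0
    [[k0,k1,k0,k1,k0,k1],[k0,k0,k1,k1,k0,k1]]
    [.ref k0 k0 [(z1,[y1,z1])],.ref k1 k0 [(z1,[y1,z1])]]]⟩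

/-- classes `0 1 0 2 1 2`, types `C0 S0 C2 S0 S0 S0` -/
noncomputable def cT6_2124 : CertT :=
  ⟨[k4,k16,k6,k32,k16,k32],[(false,k0,[k0,k1,k2,k3,k4,k5])],[[[([z1,z1,z0,z0,z1,z0],z2)],[([z1,z0,z1,z0,z1,z0],z2)],
    [([z1,z0,z1,z0,z0,z1],z2)],[([z1,z1,z0,z0,z0,z1],z2)],[]]],
    [.leafM k3 [k3,k4,k5,k0,k1,k2] [(z1,[z1])] [],
    .leafM k5 [k0,k1,k2,k3,k4,k5] [(z1,[y1,z1]),(z1,[z1])] [],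
    .leafM k3 [k0,k1,k2,k3,k4,k5] [(z1,[y1,z1])] [],
    .leafM k0 [k1,k2,k3,k4,k5,k0] [(z1,[y1,z1])] [],
    .lp [k2,k2,k2,k2,k2,k4] [k1,k1,k1,k1,k1,k1,k1,k1,k1,k1,k0,k0] k0 [] k8 k5
    [[(k1,k2),(k6,k2),(k9,k2),(k10,k3)],[(k3,k2),(k4,k2)],[(k0,k2),(k7,k2)],[(k2,k2),(k5,k2),(k8,k2),(k11,k3)],[(k2,
    k2),(k5,k2),(k8,k2),(k11,k3)],[(k0,k2),(k7,k2)],[(k3,k2),(k4,k2)],[(k1,k2),(k6,k2),(k9,k2),(k10,k3)],[(k1,k2),(k6,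
    k2),(k9,k2),(k10,k3)],[(k2,k2),(k5,k2),(k8,k2),(k11,k3)],[(k2,k3),(k5,k3),(k8,k3),(k11,k4)],[(k1,k3),(k6,k3),(k9,
    k3),(k10,k4)]]
    [] k0
    [[k1,k1,k0,k0,k1,k0],[k1,k0,k1,k0,k1,k0],[k0,k1,k0,k1,k1,k0],[k0,k0,k1,k1,k1,k0]]
    [.ref k0 k0 [(z1,[z1])],.ref k1 k0 [(z1,[z1])],.ref k2 k0 [(z1,[y1,z1])],.ref k3 k0 [(z1,[y1,z1])]]]⟩

/-- classes `0 1 0 2 1 2`, types `N0 B0 N1 N0 B1 N1` -/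
noncomputable def cT6_2125 : CertT :=
  ⟨[k12,k24,k13,k44,k25,k45],[],[[[]]],
    [.lp [k0,k2,k2,k4,k2,k2] [k2,k2,k1,k1,k1,k1,k0,k0,k1,k1,k1,k1] k0 [] k8 k5
    [[(k6,k2)],[(k7,k2)],[(k4,k2)],[(k8,k2),(k11,k2)],[(k8,k2),(k11,k2)],[(k3,k2)],[(k0,k2)],[(k1,k2)],[(k10,k2)],
    [(k2,k2),(k5,k2)],[(k2,k2),(k5,k2)],[(k9,k2)]]
    [] k0
    []
    []]⟩

/-- classes `0 1 0 2 1 2`, types `N0 B0 N1 N0 B1 N2` -/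
noncomputable def cT6_2126 : CertT :=
  ⟨[k12,k24,k13,k44,k25,k46],[],[[[]]],
    [.lp [k2,k2,k2,k2,k2,k2] [k0,k0,k0,k0,k0,k0,k0,k0,k0,k0,k0,k0] k0 [] k8 k5
    [[(k9,k2)],[(k7,k2)],[(k4,k2)],[(k8,k2),(k11,k2)],[(k8,k2),(k11,k2)],[(k3,k2)],[(k0,k2)],[(k10,k2)],[(k1,k2)],
    [(k2,k2),(k5,k2)],[(k2,k2),(k5,k2)],[(k6,k2)]]
    [] k0
    []
    []]⟩

/-- classes `0 1 0 2 1 2`, types `N0 B0 N1 S0 B1 S0` -/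
noncomputable def cT6_2127 : CertT :=
  ⟨[k12,k24,k13,k32,k25,k32],[],[[[]]],
    [.lp [k2,k2,k2,k2,k2,k2] [k0,k0,k0,k0,k0,k0,k0,k0,k0,k0,k0,k0] k0 [] k8 k5
    [[(k1,k2),(k6,k2),(k9,k2),(k10,k2)],[(k7,k2)],[(k4,k2)],[(k8,k2),(k11,k2)],[(k8,k2),(k11,k2)],[(k3,k2)],[(k0,k2)],
    [(k1,k2),(k6,k2),(k9,k2),(k10,k2)],[(k1,k2),(k6,k2),(k9,k2),(k10,k2)],[(k2,k2),(k5,k2)],[(k2,k2),(k5,k2)],[(k1,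
    k2),(k6,k2),(k9,k2),(k10,k2)]]
    [] k0
    []
    []]⟩

/-- classes `0 1 0 2 1 2`, types `N0 B0 N2 N0 B1 N2` -/
noncomputable def cT6_2128 : CertT :=
  ⟨[k12,k24,k14,k44,k25,k46],[(false,k0,[k0,k1,k2,k3,k4,k5])],[[[([z1,z0,z1,z0,z1,z0],z2)],[]]],
    [.leafM k5 [k0,k1,k2,k3,k4,k5] [(z1,[y1,z1]),(z1,[z1])] [],
    .lp [k2,k2,k2,k4,k2,k2] [k1,k1,k1,k1,k1,k1,k0,k0,k1,k1,k1,k1] k0 [] k8 k5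
    [[(k9,k2)],[(k4,k2)],[(k7,k3)],[(k8,k2),(k11,k2)],[(k8,k2),(k11,k2)],[(k0,k2)],[(k3,k3)],[(k10,k3)],[(k1,k2)],
    [(k2,k2),(k5,k2)],[(k2,k2),(k5,k2)],[(k6,k3)]]
    [] k0
    [[k1,k0,k1,k0,k1,k0]]
    [.ref k0 k0 [(z1,[z1])]]]⟩

/-- classes `0 1 0 2 1 2`, types `N0 B0 N2 S0 B1 S0` -/
noncomputable def cT6_2129 : CertT :=
  ⟨[k12,k24,k14,k32,k25,k32],[(false,k0,[k0,k1,k2,k3,k4,k5])],[[[([z1,z0,z1,z0,z0,z1],z2)],[([z1,z0,z1,z0,z1,z0],z2)],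
    []]],
    [.leafM k3 [k0,k1,k2,k3,k4,k5] [(z1,[y1,z1])] [],
    .leafM k5 [k0,k1,k2,k3,k4,k5] [(z1,[y1,z1]),(z1,[z1])] [],
    .lp [k2,k2,k2,k2,k4,k2] [k1,k1,k1,k1,k1,k1,k1,k1,k0,k0,k1,k1] k0 [] k8 k5
    [[(k1,k2),(k6,k2),(k10,k2),(k9,k3)],[(k4,k2)],[(k7,k2)],[(k11,k2),(k8,k3)],[(k11,k2),(k8,k3)],[(k0,k2)],[(k3,k2)],
    [(k1,k2),(k6,k2),(k10,k2),(k9,k3)],[(k1,k3),(k6,k3),(k10,k3),(k9,k4)],[(k2,k3),(k5,k3)],[(k2,k2),(k5,k2)],[(k1,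
    k2),(k6,k2),(k10,k2),(k9,k3)]]
    [] k0
    [[k1,k0,k1,k0,k0,k1],[k0,k1,k0,k1,k0,k1]]
    [.ref k0 k0 [(z1,[z1])],.ref k1 k0 [(z1,[y1,z1])]]]⟩

/-- classes `0 1 0 2 1 2`, types `N0 C0 N1 N0 C0 N1` -/
noncomputable def cT6_2130 : CertT :=
  ⟨[k12,k20,k13,k44,k20,k45],[],[[[]]],
    [.lp [k2,k2,k0,k0,k2,k0] [k0,k0,k0,k0,k1,k1,k1,k1,k0,k0,k1,k1] k0 [] k4 k5
    [[(k6,k1)],[(k7,k1)],[(k4,k1)],[(k5,k1),(k11,k1)],[(k2,k1),(k8,k1)],[(k3,k1)],[(k0,k1)],[(k1,k1)],[(k10,k1)],[(k5,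
    k1),(k11,k1)],[(k2,k1),(k8,k1)],[(k9,k1)]]
    [] k0
    []
    []]⟩

/-- classes `0 1 0 2 1 2`, types `N0 C0 N1 N0 C0 N2` -/
noncomputable def cT6_2131 : CertT :=
  ⟨[k12,k20,k13,k44,k20,k46],[],[[[]]],
    [.lp [k0,k2,k0,k2,k2,k0] [k1,k1,k0,k0,k1,k1,k0,k0,k0,k0,k1,k1] k0 [] k4 k5
    [[(k9,k1)],[(k7,k1)],[(k4,k1)],[(k5,k1),(k11,k1)],[(k2,k1),(k8,k1)],[(k3,k1)],[(k0,k1)],[(k10,k1)],[(k1,k1)],[(k5,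
    k1),(k11,k1)],[(k2,k1),(k8,k1)],[(k6,k1)]]
    [] k0
    []
    []]⟩

/-- classes `0 1 0 2 1 2`, types `N0 C0 N1 N0 C2 N1` -/
noncomputable def cT6_2132 : CertT :=
  ⟨[k12,k20,k13,k44,k22,k45],[],[[[]]],
    [.lp [k2,k2,k0,k0,k0,k2] [k0,k0,k0,k0,k1,k1,k1,k1,k1,k1,k0,k0] k0 [] k4 k5
    [[(k6,k1)],[(k7,k1)],[(k4,k1)],[(k5,k1),(k8,k1)],[(k2,k1),(k11,k1)],[(k3,k1)],[(k0,k1)],[(k1,k1)],[(k10,k1)],[(k2,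
    k1),(k11,k1)],[(k5,k1),(k8,k1)],[(k9,k1)]]
    [] k0
    []
    []]⟩

/-- classes `0 1 0 2 1 2`, types `N0 C0 N1 N0 C2 N2` -/
noncomputable def cT6_2133 : CertT :=
  ⟨[k12,k20,k13,k44,k22,k46],[],[[[]]],
    [.lp [k2,k2,k0,k0,k0,k2] [k0,k0,k0,k0,k1,k1,k1,k1,k1,k1,k0,k0] k0 [] k4 k5
    [[(k9,k1)],[(k7,k1)],[(k4,k1)],[(k5,k1),(k8,k1)],[(k2,k1),(k11,k1)],[(k3,k1)],[(k0,k1)],[(k10,k1)],[(k1,k1)],[(k2,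
    k1),(k11,k1)],[(k5,k1),(k8,k1)],[(k6,k1)]]
    [] k0
    []
    []]⟩

/-- classes `0 1 0 2 1 2`, types `N0 C0 N1 S0 C0 S0` -/
noncomputable def cT6_2134 : CertT :=
  ⟨[k12,k20,k13,k32,k20,k32],[],[[[]]],
    [.lp [k2,k2,k2,k2,k2,k2] [k0,k0,k0,k0,k0,k0,k0,k0,k0,k0,k0,k0] k0 [] k8 k5
    [[(k1,k2),(k6,k2),(k9,k2),(k10,k2)],[(k7,k2)],[(k4,k2)],[(k5,k2),(k11,k2)],[(k2,k2),(k8,k2)],[(k3,k2)],[(k0,k2)],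
    [(k1,k2),(k6,k2),(k9,k2),(k10,k2)],[(k1,k2),(k6,k2),(k9,k2),(k10,k2)],[(k5,k2),(k11,k2)],[(k2,k2),(k8,k2)],[(k1,
    k2),(k6,k2),(k9,k2),(k10,k2)]]
    [] k0
    []
    []]⟩

/-- classes `0 1 0 2 1 2`, types `N0 C0 N1 S0 C2 S0` -/
noncomputable def cT6_2135 : CertT :=
  ⟨[k12,k20,k13,k32,k22,k32],[],[[[]]],
    [.lp [k2,k2,k2,k2,k2,k2] [k0,k0,k0,k0,k0,k0,k0,k0,k0,k0,k0,k0] k0 [] k8 k5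
    [[(k1,k2),(k6,k2),(k9,k2),(k10,k2)],[(k7,k2)],[(k4,k2)],[(k5,k2),(k8,k2)],[(k2,k2),(k11,k2)],[(k3,k2)],[(k0,k2)],
    [(k1,k2),(k6,k2),(k9,k2),(k10,k2)],[(k1,k2),(k6,k2),(k9,k2),(k10,k2)],[(k2,k2),(k11,k2)],[(k5,k2),(k8,k2)],[(k1,
    k2),(k6,k2),(k9,k2),(k10,k2)]]
    [] k0
    []
    []]⟩

/-- classes `0 1 0 2 1 2`, types `N0 C0 N2 N0 C0 N2` -/
noncomputable def cT6_2136 : CertT :=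
  ⟨[k12,k20,k14,k44,k20,k46],[(false,k0,[k0,k1,k2,k3,k4,k5])],[[[([z1,z0,z1,z0,z1,z0],z2)],[]]],
    [.leafM k5 [k0,k1,k2,k3,k4,k5] [(z1,[y1,z1]),(z1,[z1])] [],
    .lp [k4,k2,k2,k2,k2,k2] [k0,k0,k1,k1,k1,k1,k1,k1,k1,k1,k1,k1] k0 [] k8 k5
    [[(k9,k3)],[(k4,k3)],[(k7,k2)],[(k5,k2),(k11,k2)],[(k2,k2),(k8,k2)],[(k0,k3)],[(k3,k2)],[(k10,k2)],[(k1,k3)],[(k5,
    k2),(k11,k2)],[(k2,k2),(k8,k2)],[(k6,k2)]]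
    [] k0
    [[k0,k1,k0,k1,k0,k1]]
    [.ref k0 k0 [(z1,[y1,z1])]]]⟩

/-- classes `0 1 0 2 1 2`, types `N0 C0 N2 N0 C2 N2` -/
noncomputable def cT6_2137 : CertT :=
  ⟨[k12,k20,k14,k44,k22,k46],[],[[[]]],
    [.lp [k2,k2,k0,k0,k0,k2] [k0,k0,k0,k0,k1,k1,k1,k1,k1,k1,k0,k0] k0 [] k4 k5
    [[(k9,k1)],[(k4,k1)],[(k7,k1)],[(k5,k1),(k8,k1)],[(k2,k1),(k11,k1)],[(k0,k1)],[(k3,k1)],[(k10,k1)],[(k1,k1)],[(k2,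
    k1),(k11,k1)],[(k5,k1),(k8,k1)],[(k6,k1)]]
    [] k0
    []
    []]⟩

/-- classes `0 1 0 2 1 2`, types `N0 C0 N2 S0 C0 S0` -/
noncomputable def cT6_2138 : CertT :=
  ⟨[k12,k20,k14,k32,k20,k32],[(false,k0,[k0,k1,k2,k3,k4,k5])],[[[([z1,z0,z1,z0,z1,z0],z2)],[]]],
    [.leafM k5 [k0,k1,k2,k3,k4,k5] [(z1,[y1,z1]),(z1,[z1])] [],
    .lp [k2,k4,k2,k2,k2,k2] [k1,k1,k0,k0,k1,k1,k1,k1,k1,k1,k1,k1] k0 [] k8 k5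
    [[(k1,k2),(k6,k2),(k9,k2),(k10,k2)],[(k4,k2)],[(k7,k3)],[(k5,k3),(k11,k3)],[(k8,k2),(k2,k3)],[(k0,k2)],[(k3,k3)],
    [(k1,k2),(k6,k2),(k9,k2),(k10,k2)],[(k1,k2),(k6,k2),(k9,k2),(k10,k2)],[(k5,k2),(k11,k2)],[(k8,k2),(k2,k3)],[(k1,
    k2),(k6,k2),(k9,k2),(k10,k2)]]
    [] k0
    [[k1,k0,k1,k0,k1,k0]]
    [.ref k0 k0 [(z1,[z1])]]]⟩

/-- classes `0 1 0 2 1 2`, types `N0 C0 N2 S0 C2 S0` -/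
noncomputable def cT6_2139 : CertT :=
  ⟨[k12,k20,k14,k32,k22,k32],[(false,k0,[k0,k1,k2,k3,k4,k5])],[[[([z1,z0,z1,z0,z0,z1],z2)],[]]],
    [.leafM k3 [k0,k1,k2,k3,k4,k5] [(z1,[y1,z1])] [],
    .lp [k4,k2,k2,k2,k2,k2] [k0,k0,k1,k1,k1,k1,k1,k1,k1,k1,k1,k1] k0 [] k8 k5
    [[(k6,k3),(k9,k3),(k10,k3),(k1,k4)],[(k4,k3)],[(k7,k2)],[(k5,k2),(k8,k2)],[(k2,k2),(k11,k2)],[(k0,k3)],[(k3,k2)],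
    [(k6,k2),(k9,k2),(k10,k2),(k1,k3)],[(k6,k2),(k9,k2),(k10,k2),(k1,k3)],[(k2,k2),(k11,k2)],[(k5,k2),(k8,k2)],[(k6,
    k2),(k9,k2),(k10,k2),(k1,k3)]]
    [] k0
    [[k0,k1,k0,k1,k1,k0]]
    [.ref k0 k0 [(z1,[y1,z1])]]]⟩

/-- classes `0 1 0 2 1 2`, types `N0 N0 N1 N0 N1 N1` -/
noncomputable def cT6_2140 : CertT :=
  ⟨[k12,k28,k13,k44,k29,k45],[],[[[]]],
    [.lp [k2,k2,k0,k0,k2,k0] [k0,k0,k0,k0,k1,k1,k1,k1,k0,k0,k1,k1] k0 [] k4 k5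
    [[(k6,k1)],[(k7,k1)],[(k4,k1)],[(k11,k1)],[(k8,k1)],[(k3,k1)],[(k0,k1)],[(k1,k1)],[(k10,k1)],[(k5,k1)],[(k2,k1)],
    [(k9,k1)]]
    [] k0
    []
    []]⟩

/-- classes `0 1 0 2 1 2`, types `N0 N0 N1 N0 N1 N2` -/
noncomputable def cT6_2141 : CertT :=
  ⟨[k12,k28,k13,k44,k29,k46],[],[[[]]],
    [.lp [k0,k2,k0,k2,k2,k0] [k1,k1,k0,k0,k1,k1,k0,k0,k0,k0,k1,k1] k0 [] k4 k5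
    [[(k9,k1)],[(k7,k1)],[(k4,k1)],[(k11,k1)],[(k8,k1)],[(k3,k1)],[(k0,k1)],[(k10,k1)],[(k1,k1)],[(k5,k1)],[(k2,k1)],
    [(k6,k1)]]
    [] k0
    []
    []]⟩

/-- classes `0 1 0 2 1 2`, types `N0 N0 N1 N0 N2 N1` -/
noncomputable def cT6_2142 : CertT :=
  ⟨[k12,k28,k13,k44,k30,k45],[],[[[]]],
    [.lp [k2,k2,k0,k0,k0,k2] [k0,k0,k0,k0,k1,k1,k1,k1,k1,k1,k0,k0] k0 [] k4 k5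
    [[(k6,k1)],[(k7,k1)],[(k4,k1)],[(k8,k1)],[(k11,k1)],[(k3,k1)],[(k0,k1)],[(k1,k1)],[(k10,k1)],[(k2,k1)],[(k5,k1)],
    [(k9,k1)]]
    [] k0
    []
    []]⟩

/-- classes `0 1 0 2 1 2`, types `N0 N0 N1 N0 N2 N2` -/
noncomputable def cT6_2143 : CertT :=
  ⟨[k12,k28,k13,k44,k30,k46],[],[[[]]],
    [.lp [k2,k2,k0,k0,k0,k2] [k0,k0,k0,k0,k1,k1,k1,k1,k1,k1,k0,k0] k0 [] k4 k5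
    [[(k9,k1)],[(k7,k1)],[(k4,k1)],[(k8,k1)],[(k11,k1)],[(k3,k1)],[(k0,k1)],[(k10,k1)],[(k1,k1)],[(k2,k1)],[(k5,k1)],
    [(k6,k1)]]
    [] k0
    []
    []]⟩

/-- classes `0 1 0 2 1 2`, types `N0 N0 N1 S0 N1 S0` -/
noncomputable def cT6_2144 : CertT :=
  ⟨[k12,k28,k13,k32,k29,k32],[],[[[]]],
    [.lp [k2,k2,k2,k2,k2,k2] [k0,k0,k0,k0,k0,k0,k0,k0,k0,k0,k0,k0] k0 [] k8 k5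
    [[(k1,k2),(k6,k2),(k9,k2),(k10,k2)],[(k7,k2)],[(k4,k2)],[(k11,k2)],[(k8,k2)],[(k3,k2)],[(k0,k2)],[(k1,k2),(k6,k2),
    (k9,k2),(k10,k2)],[(k1,k2),(k6,k2),(k9,k2),(k10,k2)],[(k5,k2)],[(k2,k2)],[(k1,k2),(k6,k2),(k9,k2),(k10,k2)]]
    [] k0
    []
    []]⟩

/-- classes `0 1 0 2 1 2`, types `N0 N0 N1 S0 N2 S0` -/
noncomputable def cT6_2145 : CertT :=
  ⟨[k12,k28,k13,k32,k30,k32],[],[[[]]],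
    [.lp [k2,k2,k2,k2,k2,k2] [k0,k0,k0,k0,k0,k0,k0,k0,k0,k0,k0,k0] k0 [] k8 k5
    [[(k1,k2),(k6,k2),(k9,k2),(k10,k2)],[(k7,k2)],[(k4,k2)],[(k8,k2)],[(k11,k2)],[(k3,k2)],[(k0,k2)],[(k1,k2),(k6,k2),
    (k9,k2),(k10,k2)],[(k1,k2),(k6,k2),(k9,k2),(k10,k2)],[(k2,k2)],[(k5,k2)],[(k1,k2),(k6,k2),(k9,k2),(k10,k2)]]
    [] k0
    []
    []]⟩

/-- classes `0 1 0 2 1 2`, types `N0 N0 N2 N0 N1 N2` -/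
noncomputable def cT6_2146 : CertT :=
  ⟨[k12,k28,k14,k44,k29,k46],[(false,k0,[k0,k1,k2,k3,k4,k5])],[[[([z1,z0,z1,z0,z1,z0],z2)],[]]],
    [.leafM k5 [k0,k1,k2,k3,k4,k5] [(z1,[y1,z1]),(z1,[z1])] [],
    .lp [k4,k2,k0,k2,k4,k2] [k0,k0,k1,k1,k2,k2,k1,k1,k0,k0,k1,k1] k0 [] k8 k5
    [[(k9,k4)],[(k4,k2)],[(k7,k2)],[(k11,k2)],[(k8,k2)],[(k0,k2)],[(k3,k2)],[(k10,k2)],[(k1,k4)],[(k5,k2)],[(k2,k2)],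
    [(k6,k2)]]
    [] k0
    [[k0,k1,k0,k1,k0,k1]]
    [.ref k0 k0 [(z1,[y1,z1])]]]⟩

/-- classes `0 1 0 2 1 2`, types `N0 N0 N2 N0 N2 N2` -/
noncomputable def cT6_2147 : CertT :=
  ⟨[k12,k28,k14,k44,k30,k46],[],[[[]]],
    [.lp [k2,k2,k0,k0,k0,k2] [k0,k0,k0,k0,k1,k1,k1,k1,k1,k1,k0,k0] k0 [] k4 k5
    [[(k9,k1)],[(k4,k1)],[(k7,k1)],[(k8,k1)],[(k11,k1)],[(k0,k1)],[(k3,k1)],[(k10,k1)],[(k1,k1)],[(k2,k1)],[(k5,k1)],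
    [(k6,k1)]]
    [] k0
    []
    []]⟩

/-- classes `0 1 0 2 1 2`, types `N0 N0 N2 S0 N1 S0` -/
noncomputable def cT6_2148 : CertT :=
  ⟨[k12,k28,k14,k32,k29,k32],[(false,k0,[k0,k1,k2,k3,k4,k5])],[[[([z1,z0,z1,z0,z1,z0],z2)],[]]],
    [.leafM k5 [k0,k1,k2,k3,k4,k5] [(z1,[y1,z1]),(z1,[z1])] [],
    .lp [k2,k4,k2,k2,k2,k2] [k1,k1,k0,k0,k1,k1,k1,k1,k1,k1,k1,k1] k0 [] k8 k5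
    [[(k1,k2),(k6,k2),(k9,k2),(k10,k2)],[(k4,k2)],[(k7,k3)],[(k11,k3)],[(k8,k2)],[(k0,k2)],[(k3,k3)],[(k1,k2),(k6,k2),
    (k9,k2),(k10,k2)],[(k1,k2),(k6,k2),(k9,k2),(k10,k2)],[(k5,k2)],[(k2,k3)],[(k1,k2),(k6,k2),(k9,k2),(k10,k2)]]
    [] k0
    [[k1,k0,k1,k0,k1,k0]]
    [.ref k0 k0 [(z1,[z1])]]]⟩

/-- classes `0 1 0 2 1 2`, types `N0 N0 N2 S0 N2 S0` -/
noncomputable def cT6_2149 : CertT :=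
  ⟨[k12,k28,k14,k32,k30,k32],[(false,k0,[k0,k1,k2,k3,k4,k5])],[[[([z1,z0,z1,z0,z0,z1],z2)],[]]],
    [.leafM k3 [k0,k1,k2,k3,k4,k5] [(z1,[y1,z1])] [],
    .lp [k4,k2,k0,k2,k2,k4] [k0,k0,k1,k1,k2,k2,k1,k1,k1,k1,k0,k0] k0 [] k8 k5
    [[(k6,k3),(k9,k3),(k1,k4),(k10,k4)],[(k4,k2)],[(k7,k2)],[(k8,k2)],[(k11,k2)],[(k0,k2)],[(k3,k2)],[(k6,k2),(k9,k2),
    (k1,k3),(k10,k3)],[(k6,k2),(k9,k2),(k1,k3),(k10,k3)],[(k2,k2)],[(k5,k2)],[(k6,k3),(k9,k3),(k1,k4),(k10,k4)]]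
    [] k0
    [[k0,k1,k0,k1,k1,k0]]
    [.ref k0 k0 [(z1,[y1,z1])]]]⟩

/-- classes `0 1 0 2 1 2`, types `N0 S0 N1 N0 S0 N1` -/
noncomputable def cT6_2150 : CertT :=
  ⟨[k12,k16,k13,k44,k16,k45],[],[[[]]],
    [.lp [k4,k2,k2,k0,k2,k2] [k0,k0,k1,k1,k1,k1,k2,k2,k1,k1,k1,k1] k0 [] k8 k5
    [[(k6,k2)],[(k7,k2)],[(k4,k2)],[(k2,k2),(k5,k2),(k8,k2),(k11,k2)],[(k2,k2),(k5,k2),(k8,k2),(k11,k2)],[(k3,k2)],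
    [(k0,k2)],[(k1,k2)],[(k10,k2)],[(k2,k2),(k5,k2),(k8,k2),(k11,k2)],[(k2,k2),(k5,k2),(k8,k2),(k11,k2)],[(k9,k2)]]
    [] k0
    []
    []]⟩

/-- classes `0 1 0 2 1 2`, types `N0 S0 N1 N0 S0 N2` -/
noncomputable def cT6_2151 : CertT :=
  ⟨[k12,k16,k13,k44,k16,k46],[],[[[]]],
    [.lp [k2,k2,k2,k2,k2,k2] [k0,k0,k0,k0,k0,k0,k0,k0,k0,k0,k0,k0] k0 [] k8 k5
    [[(k9,k2)],[(k7,k2)],[(k4,k2)],[(k2,k2),(k5,k2),(k8,k2),(k11,k2)],[(k2,k2),(k5,k2),(k8,k2),(k11,k2)],[(k3,k2)],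
    [(k0,k2)],[(k10,k2)],[(k1,k2)],[(k2,k2),(k5,k2),(k8,k2),(k11,k2)],[(k2,k2),(k5,k2),(k8,k2),(k11,k2)],[(k6,k2)]]
    [] k0
    []
    []]⟩

/-- classes `0 1 0 2 1 2`, types `N0 S0 N1 S0 S0 S0` -/
noncomputable def cT6_2152 : CertT :=
  ⟨[k12,k16,k13,k32,k16,k32],[],[[[]]],
    [.lp [k2,k2,k2,k2,k2,k2] [k0,k0,k0,k0,k0,k0,k0,k0,k0,k0,k0,k0] k0 [] k8 k5
    [[(k1,k2),(k6,k2),(k9,k2),(k10,k2)],[(k7,k2)],[(k4,k2)],[(k2,k2),(k5,k2),(k8,k2),(k11,k2)],[(k2,k2),(k5,k2),(k8,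
    k2),(k11,k2)],[(k3,k2)],[(k0,k2)],[(k1,k2),(k6,k2),(k9,k2),(k10,k2)],[(k1,k2),(k6,k2),(k9,k2),(k10,k2)],[(k2,k2),
    (k5,k2),(k8,k2),(k11,k2)],[(k2,k2),(k5,k2),(k8,k2),(k11,k2)],[(k1,k2),(k6,k2),(k9,k2),(k10,k2)]]
    [] k0
    []
    []]⟩

/-- classes `0 1 0 2 1 2`, types `N0 S0 N2 N0 S0 N2` -/
noncomputable def cT6_2153 : CertT :=
  ⟨[k12,k16,k14,k44,k16,k46],[(false,k0,[k0,k1,k2,k3,k4,k5])],[[[([z1,z0,z1,z0,z1,z0],z2)],[]]],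
    [.leafM k5 [k0,k1,k2,k3,k4,k5] [(z1,[y1,z1]),(z1,[z1])] [],
    .lp [k4,k2,k2,k2,k2,k2] [k0,k0,k1,k1,k1,k1,k1,k1,k1,k1,k1,k1] k0 [] k8 k5
    [[(k9,k3)],[(k4,k3)],[(k7,k2)],[(k2,k2),(k5,k2),(k8,k2),(k11,k2)],[(k2,k2),(k5,k2),(k8,k2),(k11,k2)],[(k0,k3)],
    [(k3,k2)],[(k10,k2)],[(k1,k3)],[(k2,k2),(k5,k2),(k8,k2),(k11,k2)],[(k2,k2),(k5,k2),(k8,k2),(k11,k2)],[(k6,k2)]]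
    [] k0
    [[k0,k1,k0,k1,k0,k1]]
    [.ref k0 k0 [(z1,[y1,z1])]]]⟩

/-- classes `0 1 0 2 1 2`, types `N0 S0 N2 S0 S0 S0` -/
noncomputable def cT6_2154 : CertT :=
  ⟨[k12,k16,k14,k32,k16,k32],[(false,k0,[k0,k1,k2,k3,k4,k5])],[[[([z1,z0,z1,z0,z1,z0],z2)],[([z1,z0,z1,z0,z0,z1],z2)],
    []]],
    [.leafM k5 [k0,k1,k2,k3,k4,k5] [(z1,[y1,z1]),(z1,[z1])] [],
    .leafM k3 [k0,k1,k2,k3,k4,k5] [(z1,[y1,z1])] [],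
    .lp [k2,k4,k2,k2,k2,k2] [k1,k1,k0,k0,k1,k1,k1,k1,k1,k1,k1,k1] k0 [] k8 k5
    [[(k1,k2),(k6,k2),(k9,k2),(k10,k2)],[(k4,k2)],[(k7,k3)],[(k5,k3),(k8,k3),(k11,k3),(k2,k4)],[(k5,k2),(k8,k2),(k11,
    k2),(k2,k3)],[(k0,k2)],[(k3,k3)],[(k1,k2),(k6,k2),(k9,k2),(k10,k2)],[(k1,k2),(k6,k2),(k9,k2),(k10,k2)],[(k5,k2),
    (k8,k2),(k11,k2),(k2,k3)],[(k5,k2),(k8,k2),(k11,k2),(k2,k3)],[(k1,k2),(k6,k2),(k9,k2),(k10,k2)]]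
    [] k0
    [[k1,k0,k1,k0,k1,k0],[k1,k0,k1,k0,k0,k1]]
    [.ref k0 k0 [(z1,[z1])],.ref k1 k0 [(z1,[z1])]]]⟩

/-- classes `0 1 0 2 1 2`, types `S0 B0 S0 S0 B1 S0` -/
noncomputable def cT6_2155 : CertT :=
  ⟨[k0,k24,k0,k32,k25,k32],[(false,k3,[k3,k4,k5,k0,k1,k2]),(false,k0,[k0,k1,k2,k3,k4,k5])],[[[([z1,z0,z1,z0,z0,z1],
    z2)],[([z1,z0,z1,z0,z1,z0],z2)],[([z1,z1,z0,z0,z0,z1],z2)],[]]],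
    [.leafM k3 [k0,k1,k2,k3,k4,k5] [(z1,[y1,z1])] [],
    .leafM k5 [k0,k1,k2,k3,k4,k5] [(z1,[y1,z1]),(z1,[z1])] [],
    .leafM k0 [k1,k2,k3,k4,k5,k0] [(z1,[y1,z1])] [],
    .lp [k2,k2,k2,k2,k2,k4] [k1,k1,k1,k1,k1,k1,k1,k1,k1,k1,k0,k0] k0 [] k8 k5
    [[(k1,k2),(k6,k2),(k9,k2),(k10,k3)],[(k0,k2),(k3,k2),(k4,k2),(k7,k2)],[(k0,k2),(k3,k2),(k4,k2),(k7,k2)],[(k8,k2),
    (k11,k3)],[(k8,k2),(k11,k3)],[(k0,k2),(k3,k2),(k4,k2),(k7,k2)],[(k0,k2),(k3,k2),(k4,k2),(k7,k2)],[(k1,k2),(k6,k2),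
    (k9,k2),(k10,k3)],[(k1,k2),(k6,k2),(k9,k2),(k10,k3)],[(k2,k2),(k5,k2)],[(k2,k3),(k5,k3)],[(k1,k3),(k6,k3),(k9,k3),
    (k10,k4)]]
    [] k0
    [[k1,k1,k0,k0,k1,k0],[k1,k0,k1,k0,k1,k0],[k0,k1,k0,k1,k1,k0],[k0,k0,k1,k1,k1,k0]]
    [.ref k0 k0 [(z1,[y1,z1])],.ref k1 k1 [(z1,[z1])],.ref k0 k1 [(z1,[y1,z1])],.ref k2 k1 [(z1,[y1,z1])]]]⟩

/-- classes `0 1 0 2 1 2`, types `S0 C0 S0 S0 C0 S0` -/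
noncomputable def cT6_2156 : CertT :=
  ⟨[k0,k20,k0,k32,k20,k32],[(false,k0,[k0,k1,k2,k3,k4,k5])],[[[([z1,z0,z1,z0,z1,z0],z2)],[([z1,z1,z0,z0,z0,z1],z2)],
    []]],
    [.leafM k5 [k0,k1,k2,k3,k4,k5] [(z1,[y1,z1]),(z1,[z1])] [],
    .leafM k0 [k1,k2,k3,k4,k5,k0] [(z1,[y1,z1])] [],
    .lp [k4,k2,k2,k2,k2,k2] [k0,k0,k1,k1,k1,k1,k1,k1,k1,k1,k1,k1] k0 [] k8 k5
    [[(k6,k3),(k9,k3),(k10,k3),(k1,k4)],[(k3,k3),(k4,k3),(k7,k3),(k0,k4)],[(k3,k2),(k4,k2),(k7,k2),(k0,k3)],[(k5,k2),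
    (k11,k2)],[(k2,k2),(k8,k2)],[(k3,k2),(k4,k2),(k7,k2),(k0,k3)],[(k3,k2),(k4,k2),(k7,k2),(k0,k3)],[(k6,k2),(k9,k2),
    (k10,k2),(k1,k3)],[(k6,k2),(k9,k2),(k10,k2),(k1,k3)],[(k5,k2),(k11,k2)],[(k2,k2),(k8,k2)],[(k6,k2),(k9,k2),(k10,
    k2),(k1,k3)]]
    [] k0
    [[k0,k1,k0,k1,k0,k1],[k0,k0,k1,k1,k1,k0]]
    [.ref k0 k0 [(z1,[y1,z1])],.ref k1 k0 [(z1,[y1,z1])]]]⟩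

/-- classes `0 1 0 2 1 2`, types `S0 C0 S0 S0 C2 S0` -/
noncomputable def cT6_2157 : CertT :=
  ⟨[k0,k20,k0,k32,k22,k32],[(false,k0,[k0,k1,k2,k3,k4,k5]),(false,k3,[k3,k4,k5,k0,k1,k2])],[[[([z1,z0,z1,z0,z0,z1],
    z2)],[]]],
    [.leafM k3 [k0,k1,k2,k3,k4,k5] [(z1,[y1,z1])] [],
    .lp [k4,k2,k2,k2,k2,k2] [k0,k0,k1,k1,k1,k1,k1,k1,k1,k1,k1,k1] k0 [] k8 k5
    [[(k6,k3),(k9,k3),(k10,k3),(k1,k4)],[(k3,k3),(k4,k3),(k7,k3),(k0,k4)],[(k3,k2),(k4,k2),(k7,k2),(k0,k3)],[(k5,k2),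
    (k8,k2)],[(k2,k2),(k11,k2)],[(k3,k2),(k4,k2),(k7,k2),(k0,k3)],[(k3,k2),(k4,k2),(k7,k2),(k0,k3)],[(k6,k2),(k9,k2),
    (k10,k2),(k1,k3)],[(k6,k2),(k9,k2),(k10,k2),(k1,k3)],[(k2,k2),(k11,k2)],[(k5,k2),(k8,k2)],[(k6,k2),(k9,k2),(k10,
    k2),(k1,k3)]]
    [] k0
    [[k0,k1,k0,k1,k1,k0],[k0,k0,k1,k1,k0,k1]]
    [.ref k0 k0 [(z1,[y1,z1])],.ref k0 k1 [(z1,[z1])]]]⟩

/-- classes `0 1 0 2 1 2`, types `S0 N0 S0 S0 N1 S0` -/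
noncomputable def cT6_2158 : CertT :=
  ⟨[k0,k28,k0,k32,k29,k32],[(false,k0,[k0,k1,k2,k3,k4,k5])],[[[([z1,z0,z1,z0,z1,z0],z2)],[([z1,z1,z0,z0,z0,z1],z2)],
    []]],
    [.leafM k5 [k0,k1,k2,k3,k4,k5] [(z1,[y1,z1]),(z1,[z1])] [],
    .leafM k0 [k1,k2,k3,k4,k5,k0] [(z1,[y1,z1])] [],
    .lp [k4,k2,k2,k2,k2,k2] [k0,k0,k1,k1,k1,k1,k1,k1,k1,k1,k1,k1] k0 [] k8 k5
    [[(k6,k3),(k9,k3),(k10,k3),(k1,k4)],[(k3,k3),(k4,k3),(k7,k3),(k0,k4)],[(k3,k2),(k4,k2),(k7,k2),(k0,k3)],[(k11,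
    k2)],[(k8,k2)],[(k3,k2),(k4,k2),(k7,k2),(k0,k3)],[(k3,k2),(k4,k2),(k7,k2),(k0,k3)],[(k6,k2),(k9,k2),(k10,k2),(k1,
    k3)],[(k6,k2),(k9,k2),(k10,k2),(k1,k3)],[(k5,k2)],[(k2,k2)],[(k6,k2),(k9,k2),(k10,k2),(k1,k3)]]
    [] k0
    [[k0,k1,k0,k1,k0,k1],[k0,k0,k1,k1,k1,k0]]
    [.ref k0 k0 [(z1,[y1,z1])],.ref k1 k0 [(z1,[y1,z1])]]]⟩

/-- classes `0 1 0 2 1 2`, types `S0 N0 S0 S0 N2 S0` -/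
noncomputable def cT6_2159 : CertT :=
  ⟨[k0,k28,k0,k32,k30,k32],[(false,k0,[k0,k1,k2,k3,k4,k5]),(false,k3,[k3,k4,k5,k0,k1,k2])],[[[([z1,z0,z1,z0,z0,z1],
    z2)],[]]],
    [.leafM k3 [k0,k1,k2,k3,k4,k5] [(z1,[y1,z1])] [],
    .lp [k4,k2,k2,k2,k2,k2] [k0,k0,k1,k1,k1,k1,k1,k1,k1,k1,k1,k1] k0 [] k8 k5
    [[(k6,k3),(k9,k3),(k10,k3),(k1,k4)],[(k3,k3),(k4,k3),(k7,k3),(k0,k4)],[(k3,k2),(k4,k2),(k7,k2),(k0,k3)],[(k8,k2)],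
    [(k11,k2)],[(k3,k2),(k4,k2),(k7,k2),(k0,k3)],[(k3,k2),(k4,k2),(k7,k2),(k0,k3)],[(k6,k2),(k9,k2),(k10,k2),(k1,k3)],
    [(k6,k2),(k9,k2),(k10,k2),(k1,k3)],[(k2,k2)],[(k5,k2)],[(k6,k2),(k9,k2),(k10,k2),(k1,k3)]]
    [] k0
    [[k0,k1,k0,k1,k1,k0],[k0,k0,k1,k1,k0,k1]]
    [.ref k0 k0 [(z1,[y1,z1])],.ref k0 k1 [(z1,[z1])]]]⟩

/-- classes `0 1 0 2 1 3`, types `B0 B0 B1 C0 B1 C0` -/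
noncomputable def cT6_2160 : CertT :=
  ⟨[k8,k24,k9,k36,k25,k52],[(false,k0,[k0,k1,k2,k3,k4,k5])],[[[([z1,z0,z1,z0,z0,z1],z2)],[]]],
    [.leafM k3 [k0,k1,k2,k3,k4,k5] [(z1,[y1,z1])] [],
    .lp [k2,k2,k4,k2,k2,k2] [k1,k1,k1,k1,k0,k0,k1,k1,k1,k1,k1,k1] k0 [] k8 k5
    [[(k10,k2)],[(k7,k2),(k4,k3)],[(k7,k2),(k4,k3)],[(k8,k2),(k11,k2)],[(k8,k3),(k11,k3)],[(k0,k3),(k3,k3)],[(k0,k2),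
    (k3,k2)],[(k9,k2)],[(k6,k2)],[(k2,k2),(k5,k3)],[(k2,k2),(k5,k3)],[(k1,k2)]]
    [] k0
    [[k0,k1,k0,k1,k1,k0]]
    [.ref k0 k0 [(z1,[y1,z1])]]]⟩

/-- classes `0 1 0 2 1 3`, types `B0 B0 B1 C0 B1 S0` -/
noncomputable def cT6_2161 : CertT :=
  ⟨[k8,k24,k9,k36,k25,k48],[(false,k0,[k0,k1,k2,k3,k4,k5])],[[[([z1,z0,z1,z0,z0,z1],z2)],[]]],
    [.leafM k3 [k0,k1,k2,k3,k4,k5] [(z1,[y1,z1])] [],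
    .lp [k2,k2,k2,k2,k2,k4] [k1,k1,k1,k1,k1,k1,k1,k1,k1,k1,k0,k0] k0 [] k8 k5
    [[(k1,k2),(k10,k3)],[(k4,k2),(k7,k2)],[(k4,k2),(k7,k2)],[(k8,k2),(k11,k3)],[(k8,k2),(k11,k3)],[(k0,k2),(k3,k2)],
    [(k0,k2),(k3,k2)],[(k9,k2)],[(k6,k2)],[(k2,k2),(k5,k2)],[(k2,k3),(k5,k3)],[(k1,k3),(k10,k4)]]
    [] k0
    [[k0,k1,k0,k1,k1,k0]]
    [.ref k0 k0 [(z1,[y1,z1])]]]⟩

/-- classes `0 1 0 2 1 3`, types `B0 B0 B1 S0 B1 S0` -/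
noncomputable def cT6_2162 : CertT :=
  ⟨[k8,k24,k9,k32,k25,k48],[(false,k0,[k0,k1,k2,k3,k4,k5])],[[[([z1,z0,z1,z0,z0,z1],z2)],[]]],
    [.leafM k3 [k0,k1,k2,k3,k4,k5] [(z1,[y1,z1])] [],
    .lp [k4,k2,k2,k2,k2,k2] [k0,k0,k1,k1,k1,k1,k1,k1,k1,k1,k1,k1] k0 [] k8 k5
    [[(k10,k3),(k1,k4)],[(k4,k3),(k7,k3)],[(k4,k2),(k7,k2)],[(k8,k2),(k11,k2)],[(k8,k2),(k11,k2)],[(k3,k2),(k0,k3)],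
    [(k3,k2),(k0,k3)],[(k6,k2),(k9,k2)],[(k6,k2),(k9,k2)],[(k2,k2),(k5,k2)],[(k2,k2),(k5,k2)],[(k10,k2),(k1,k3)]]
    [] k0
    [[k0,k1,k0,k1,k1,k0]]
    [.ref k0 k0 [(z1,[y1,z1])]]]⟩

/-- classes `0 1 0 2 1 3`, types `B0 C0 B1 C0 C0 C0` -/
noncomputable def cT6_2163 : CertT :=
  ⟨[k8,k20,k9,k36,k20,k52],[],[[[]]],
    [.lp [k2,k2,k0,k0,k2,k0] [k0,k0,k0,k0,k1,k1,k1,k1,k0,k0,k1,k1] k0 [] k4 k5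
    [[(k10,k1)],[(k4,k1),(k7,k1)],[(k4,k1),(k7,k1)],[(k5,k1),(k11,k1)],[(k2,k1),(k8,k1)],[(k0,k1),(k3,k1)],[(k0,k1),
    (k3,k1)],[(k9,k1)],[(k6,k1)],[(k5,k1),(k11,k1)],[(k2,k1),(k8,k1)],[(k1,k1)]]
    [] k0
    []
    []]⟩

/-- classes `0 1 0 2 1 3`, types `B0 C0 B1 C0 C0 S0` -/
noncomputable def cT6_2164 : CertT :=
  ⟨[k8,k20,k9,k36,k20,k48],[],[[[]]],
    [.lp [k2,k2,k2,k2,k2,k2] [k0,k0,k0,k0,k0,k0,k0,k0,k0,k0,k0,k0] k0 [] k8 k5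
    [[(k1,k2),(k10,k2)],[(k4,k2),(k7,k2)],[(k4,k2),(k7,k2)],[(k5,k2),(k11,k2)],[(k2,k2),(k8,k2)],[(k0,k2),(k3,k2)],
    [(k0,k2),(k3,k2)],[(k9,k2)],[(k6,k2)],[(k5,k2),(k11,k2)],[(k2,k2),(k8,k2)],[(k1,k2),(k10,k2)]]
    [] k0
    []
    []]⟩

/-- classes `0 1 0 2 1 3`, types `B0 C0 B1 C0 C2 C0` -/
noncomputable def cT6_2165 : CertT :=
  ⟨[k8,k20,k9,k36,k22,k52],[(false,k0,[k0,k1,k2,k3,k4,k5])],[[[([z1,z0,z1,z0,z0,z1],z2)],[]]],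
    [.leafM k3 [k0,k1,k2,k3,k4,k5] [(z1,[y1,z1])] [],
    .lp [k4,k2,k2,k2,k2,k2] [k0,k0,k1,k1,k1,k1,k1,k1,k1,k1,k1,k1] k0 [] k8 k5
    [[(k10,k3)],[(k4,k3),(k7,k3)],[(k4,k2),(k7,k2)],[(k5,k2),(k8,k2)],[(k2,k2),(k11,k2)],[(k3,k2),(k0,k3)],[(k3,k2),
    (k0,k3)],[(k9,k2)],[(k6,k2)],[(k2,k2),(k11,k2)],[(k5,k2),(k8,k2)],[(k1,k3)]]
    [] k0
    [[k0,k1,k0,k1,k1,k0]]
    [.ref k0 k0 [(z1,[y1,z1])]]]⟩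

/-- classes `0 1 0 2 1 3`, types `B0 C0 B1 C0 C2 S0` -/
noncomputable def cT6_2166 : CertT :=
  ⟨[k8,k20,k9,k36,k22,k48],[(false,k0,[k0,k1,k2,k3,k4,k5])],[[[([z1,z0,z1,z0,z0,z1],z2)],[]]],
    [.leafM k3 [k0,k1,k2,k3,k4,k5] [(z1,[y1,z1])] [],
    .lp [k2,k2,k2,k4,k2,k2] [k1,k1,k1,k1,k1,k1,k0,k0,k1,k1,k1,k1] k0 [] k8 k5
    [[(k1,k2),(k10,k2)],[(k4,k2),(k7,k3)],[(k4,k2),(k7,k3)],[(k5,k2),(k8,k2)],[(k2,k2),(k11,k2)],[(k0,k2),(k3,k2)],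
    [(k0,k3),(k3,k3)],[(k9,k3)],[(k6,k3)],[(k2,k2),(k11,k2)],[(k5,k2),(k8,k2)],[(k1,k2),(k10,k2)]]
    [] k0
    [[k1,k0,k1,k0,k0,k1]]
    [.ref k0 k0 [(z1,[z1])]]]⟩

/-- classes `0 1 0 2 1 3`, types `B0 C0 B1 S0 C0 S0` -/
noncomputable def cT6_2167 : CertT :=
  ⟨[k8,k20,k9,k32,k20,k48],[],[[[]]],
    [.lp [k2,k2,k2,k2,k2,k2] [k0,k0,k0,k0,k0,k0,k0,k0,k0,k0,k0,k0] k0 [] k8 k5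
    [[(k1,k2),(k10,k2)],[(k4,k2),(k7,k2)],[(k4,k2),(k7,k2)],[(k5,k2),(k11,k2)],[(k2,k2),(k8,k2)],[(k0,k2),(k3,k2)],
    [(k0,k2),(k3,k2)],[(k6,k2),(k9,k2)],[(k6,k2),(k9,k2)],[(k5,k2),(k11,k2)],[(k2,k2),(k8,k2)],[(k1,k2),(k10,k2)]]
    [] k0
    []
    []]⟩

/-- classes `0 1 0 2 1 3`, types `B0 C0 B1 S0 C2 S0` -/
noncomputable def cT6_2168 : CertT :=
  ⟨[k8,k20,k9,k32,k22,k48],[(false,k0,[k0,k1,k2,k3,k4,k5])],[[[([z1,z0,z1,z0,z0,z1],z2)],[]]],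
    [.leafM k3 [k0,k1,k2,k3,k4,k5] [(z1,[y1,z1])] [],
    .lp [k2,k2,k2,k2,k2,k4] [k1,k1,k1,k1,k1,k1,k1,k1,k1,k1,k0,k0] k0 [] k8 k5
    [[(k1,k2),(k10,k3)],[(k4,k2),(k7,k2)],[(k4,k2),(k7,k2)],[(k5,k2),(k8,k2)],[(k2,k2),(k11,k3)],[(k0,k2),(k3,k2)],
    [(k0,k2),(k3,k2)],[(k6,k2),(k9,k2)],[(k6,k2),(k9,k2)],[(k2,k2),(k11,k3)],[(k5,k3),(k8,k3)],[(k1,k3),(k10,k4)]]
    [] k0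
    [[k0,k1,k0,k1,k1,k0]]
    [.ref k0 k0 [(z1,[y1,z1])]]]⟩

/-- classes `0 1 0 2 1 3`, types `B0 N0 B1 C0 N1 C0` -/
noncomputable def cT6_2169 : CertT :=
  ⟨[k8,k28,k9,k36,k29,k52],[],[[[]]],
    [.lp [k2,k2,k0,k0,k2,k0] [k0,k0,k0,k0,k1,k1,k1,k1,k0,k0,k1,k1] k0 [] k4 k5
    [[(k10,k1)],[(k4,k1),(k7,k1)],[(k4,k1),(k7,k1)],[(k11,k1)],[(k8,k1)],[(k0,k1),(k3,k1)],[(k0,k1),(k3,k1)],[(k9,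
    k1)],[(k6,k1)],[(k5,k1)],[(k2,k1)],[(k1,k1)]]
    [] k0
    []
    []]⟩

/-- classes `0 1 0 2 1 3`, types `B0 N0 B1 C0 N1 S0` -/
noncomputable def cT6_2170 : CertT :=
  ⟨[k8,k28,k9,k36,k29,k48],[],[[[]]],
    [.lp [k2,k2,k2,k2,k2,k2] [k0,k0,k0,k0,k0,k0,k0,k0,k0,k0,k0,k0] k0 [] k8 k5
    [[(k1,k2),(k10,k2)],[(k4,k2),(k7,k2)],[(k4,k2),(k7,k2)],[(k11,k2)],[(k8,k2)],[(k0,k2),(k3,k2)],[(k0,k2),(k3,k2)],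
    [(k9,k2)],[(k6,k2)],[(k5,k2)],[(k2,k2)],[(k1,k2),(k10,k2)]]
    [] k0
    []
    []]⟩

/-- classes `0 1 0 2 1 3`, types `B0 N0 B1 C0 N2 C0` -/
noncomputable def cT6_2171 : CertT :=
  ⟨[k8,k28,k9,k36,k30,k52],[(false,k0,[k0,k1,k2,k3,k4,k5])],[[[([z1,z0,z1,z0,z0,z1],z2)],[]]],
    [.leafM k3 [k0,k1,k2,k3,k4,k5] [(z1,[y1,z1])] [],
    .lp [k4,k2,k2,k2,k2,k2] [k0,k0,k1,k1,k1,k1,k1,k1,k1,k1,k1,k1] k0 [] k8 k5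
    [[(k10,k3)],[(k4,k3),(k7,k3)],[(k4,k2),(k7,k2)],[(k8,k2)],[(k11,k2)],[(k3,k2),(k0,k3)],[(k3,k2),(k0,k3)],[(k9,
    k2)],[(k6,k2)],[(k2,k2)],[(k5,k2)],[(k1,k3)]]
    [] k0
    [[k0,k1,k0,k1,k1,k0]]
    [.ref k0 k0 [(z1,[y1,z1])]]]⟩

/-- classes `0 1 0 2 1 3`, types `B0 N0 B1 C0 N2 S0` -/
noncomputable def cT6_2172 : CertT :=
  ⟨[k8,k28,k9,k36,k30,k48],[(false,k0,[k0,k1,k2,k3,k4,k5])],[[[([z1,z0,z1,z0,z0,z1],z2)],[]]],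
    [.leafM k3 [k0,k1,k2,k3,k4,k5] [(z1,[y1,z1])] [],
    .lp [k2,k2,k2,k4,k2,k2] [k1,k1,k1,k1,k1,k1,k0,k0,k1,k1,k1,k1] k0 [] k8 k5
    [[(k1,k2),(k10,k2)],[(k4,k2),(k7,k3)],[(k4,k2),(k7,k3)],[(k8,k2)],[(k11,k2)],[(k0,k2),(k3,k2)],[(k0,k3),(k3,k3)],
    [(k9,k3)],[(k6,k3)],[(k2,k2)],[(k5,k2)],[(k1,k2),(k10,k2)]]
    [] k0
    [[k1,k0,k1,k0,k0,k1]]
    [.ref k0 k0 [(z1,[z1])]]]⟩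

/-- classes `0 1 0 2 1 3`, types `B0 N0 B1 S0 N1 S0` -/
noncomputable def cT6_2173 : CertT :=
  ⟨[k8,k28,k9,k32,k29,k48],[],[[[]]],
    [.lp [k2,k2,k2,k2,k2,k2] [k0,k0,k0,k0,k0,k0,k0,k0,k0,k0,k0,k0] k0 [] k8 k5
    [[(k1,k2),(k10,k2)],[(k4,k2),(k7,k2)],[(k4,k2),(k7,k2)],[(k11,k2)],[(k8,k2)],[(k0,k2),(k3,k2)],[(k0,k2),(k3,k2)],
    [(k6,k2),(k9,k2)],[(k6,k2),(k9,k2)],[(k5,k2)],[(k2,k2)],[(k1,k2),(k10,k2)]]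
    [] k0
    []
    []]⟩

/-- classes `0 1 0 2 1 3`, types `B0 N0 B1 S0 N2 S0` -/
noncomputable def cT6_2174 : CertT :=
  ⟨[k8,k28,k9,k32,k30,k48],[(false,k0,[k0,k1,k2,k3,k4,k5])],[[[([z1,z0,z1,z0,z0,z1],z2)],[]]],
    [.leafM k3 [k0,k1,k2,k3,k4,k5] [(z1,[y1,z1])] [],
    .lp [k2,k2,k2,k2,k2,k4] [k1,k1,k1,k1,k1,k1,k1,k1,k1,k1,k0,k0] k0 [] k8 k5
    [[(k1,k2),(k10,k3)],[(k4,k2),(k7,k2)],[(k4,k2),(k7,k2)],[(k8,k2)],[(k11,k3)],[(k0,k2),(k3,k2)],[(k0,k2),(k3,k2)],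
    [(k6,k2),(k9,k2)],[(k6,k2),(k9,k2)],[(k2,k2)],[(k5,k3)],[(k1,k3),(k10,k4)]]
    [] k0
    [[k0,k1,k0,k1,k1,k0]]
    [.ref k0 k0 [(z1,[y1,z1])]]]⟩

/-- classes `0 1 0 2 1 3`, types `B0 S0 B1 C0 S0 C0` -/
noncomputable def cT6_2175 : CertT :=
  ⟨[k8,k16,k9,k36,k16,k52],[(false,k0,[k0,k1,k2,k3,k4,k5])],[[[([z1,z0,z1,z0,z0,z1],z2)],[]]],
    [.leafM k3 [k0,k1,k2,k3,k4,k5] [(z1,[y1,z1])] [],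
    .lp [k4,k2,k2,k2,k2,k2] [k0,k0,k1,k1,k1,k1,k1,k1,k1,k1,k1,k1] k0 [] k8 k5
    [[(k10,k3)],[(k4,k3),(k7,k3)],[(k4,k2),(k7,k2)],[(k2,k2),(k5,k2),(k8,k2),(k11,k2)],[(k2,k2),(k5,k2),(k8,k2),(k11,
    k2)],[(k3,k2),(k0,k3)],[(k3,k2),(k0,k3)],[(k9,k2)],[(k6,k2)],[(k2,k2),(k5,k2),(k8,k2),(k11,k2)],[(k2,k2),(k5,k2),
    (k8,k2),(k11,k2)],[(k1,k3)]]
    [] k0
    [[k0,k1,k0,k1,k1,k0]]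
    [.ref k0 k0 [(z1,[y1,z1])]]]⟩

/-- classes `0 1 0 2 1 3`, types `B0 S0 B1 C0 S0 S0` -/
noncomputable def cT6_2176 : CertT :=
  ⟨[k8,k16,k9,k36,k16,k48],[(false,k0,[k0,k1,k2,k3,k4,k5])],[[[([z1,z0,z1,z0,z0,z1],z2)],[]]],
    [.leafM k3 [k0,k1,k2,k3,k4,k5] [(z1,[y1,z1])] [],
    .lp [k2,k2,k2,k2,k4,k2] [k1,k1,k1,k1,k1,k1,k1,k1,k0,k0,k1,k1] k0 [] k8 k5
    [[(k1,k2),(k10,k2)],[(k4,k2),(k7,k2)],[(k4,k2),(k7,k2)],[(k2,k2),(k5,k2),(k11,k2),(k8,k3)],[(k2,k2),(k5,k2),(k11,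
    k2),(k8,k3)],[(k0,k2),(k3,k2)],[(k0,k2),(k3,k2)],[(k9,k3)],[(k6,k3)],[(k2,k3),(k5,k3),(k11,k3),(k8,k4)],[(k2,k2),
    (k5,k2),(k11,k2),(k8,k3)],[(k1,k2),(k10,k2)]]
    [] k0
    [[k1,k0,k1,k0,k0,k1]]
    [.ref k0 k0 [(z1,[z1])]]]⟩

/-- classes `0 1 0 2 1 3`, types `B0 S0 B1 S0 S0 S0` -/
noncomputable def cT6_2177 : CertT :=
  ⟨[k8,k16,k9,k32,k16,k48],[(false,k0,[k0,k1,k2,k3,k4,k5])],[[[([z1,z0,z1,z0,z0,z1],z2)],[]]],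
    [.leafM k3 [k0,k1,k2,k3,k4,k5] [(z1,[y1,z1])] [],
    .lp [k2,k2,k2,k4,k2,k2] [k1,k1,k1,k1,k1,k1,k0,k0,k1,k1,k1,k1] k0 [] k8 k5
    [[(k1,k2),(k10,k2)],[(k4,k2),(k7,k3)],[(k4,k2),(k7,k3)],[(k2,k2),(k5,k2),(k8,k2),(k11,k2)],[(k2,k2),(k5,k2),(k8,
    k2),(k11,k2)],[(k0,k2),(k3,k2)],[(k0,k3),(k3,k3)],[(k9,k3),(k6,k4)],[(k9,k2),(k6,k3)],[(k2,k2),(k5,k2),(k8,k2),
    (k11,k2)],[(k2,k2),(k5,k2),(k8,k2),(k11,k2)],[(k1,k2),(k10,k2)]]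
    [] k0
    [[k1,k0,k1,k0,k0,k1]]
    [.ref k0 k0 [(z1,[z1])]]]⟩

/-- classes `0 1 0 2 1 3`, types `C0 B0 C0 C0 B1 C0` -/
noncomputable def cT6_2178 : CertT :=
  ⟨[k4,k24,k4,k36,k25,k52],[(false,k0,[k0,k1,k2,k3,k4,k5])],[[[([z1,z1,z0,z0,z0,z1],z2)],[]]],
    [.leafM k0 [k1,k2,k3,k4,k5,k0] [(z1,[y1,z1])] [],
    .lp [k4,k2,k2,k2,k2,k2] [k0,k0,k1,k1,k1,k1,k1,k1,k1,k1,k1,k1] k0 [] k8 k5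
    [[(k10,k3)],[(k3,k3),(k7,k3)],[(k4,k2),(k0,k3)],[(k8,k2),(k11,k2)],[(k8,k2),(k11,k2)],[(k3,k2),(k7,k2)],[(k4,k2),
    (k0,k3)],[(k9,k2)],[(k6,k2)],[(k2,k2),(k5,k2)],[(k2,k2),(k5,k2)],[(k1,k3)]]
    [] k0
    [[k0,k0,k1,k1,k1,k0]]
    [.ref k0 k0 [(z1,[y1,z1])]]]⟩

/-- classes `0 1 0 2 1 3`, types `C0 B0 C0 C0 B1 S0` -/
noncomputable def cT6_2179 : CertT :=
  ⟨[k4,k24,k4,k36,k25,k48],[(false,k0,[k0,k1,k2,k3,k4,k5])],[[[([z1,z1,z0,z0,z0,z1],z2)],[]]],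
    [.leafM k0 [k1,k2,k3,k4,k5,k0] [(z1,[y1,z1])] [],
    .lp [k2,k2,k2,k4,k2,k2] [k1,k1,k1,k1,k1,k1,k0,k0,k1,k1,k1,k1] k0 [] k8 k5
    [[(k1,k2),(k10,k2)],[(k3,k2),(k7,k3)],[(k0,k2),(k4,k2)],[(k8,k2),(k11,k2)],[(k8,k2),(k11,k2)],[(k3,k2),(k7,k3)],
    [(k0,k3),(k4,k3)],[(k9,k3)],[(k6,k3)],[(k2,k2),(k5,k2)],[(k2,k2),(k5,k2)],[(k1,k2),(k10,k2)]]
    [] k0
    [[k1,k1,k0,k0,k0,k1]]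
    [.ref k0 k0 [(z1,[z1])]]]⟩

/-- classes `0 1 0 2 1 3`, types `C0 B0 C0 S0 B1 S0` -/
noncomputable def cT6_2180 : CertT :=
  ⟨[k4,k24,k4,k32,k25,k48],[(false,k0,[k0,k1,k2,k3,k4,k5])],[[[([z1,z1,z0,z0,z0,z1],z2)],[]]],
    [.leafM k0 [k1,k2,k3,k4,k5,k0] [(z1,[y1,z1])] [],
    .lp [k2,k4,k2,k2,k2,k2] [k1,k1,k0,k0,k1,k1,k1,k1,k1,k1,k1,k1] k0 [] k8 k5
    [[(k1,k2),(k10,k2)],[(k7,k2),(k3,k3)],[(k0,k3),(k4,k3)],[(k8,k3),(k11,k3)],[(k8,k2),(k11,k2)],[(k7,k2),(k3,k3)],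
    [(k0,k2),(k4,k2)],[(k6,k2),(k9,k2)],[(k6,k2),(k9,k2)],[(k5,k2),(k2,k3)],[(k5,k2),(k2,k3)],[(k1,k2),(k10,k2)]]
    [] k0
    [[k0,k0,k1,k1,k1,k0]]
    [.ref k0 k0 [(z1,[y1,z1])]]]⟩

/-- classes `0 1 0 2 1 3`, types `C0 B0 C2 C0 B1 C0` -/
noncomputable def cT6_2181 : CertT :=
  ⟨[k4,k24,k6,k36,k25,k52],[(false,k0,[k0,k1,k2,k3,k4,k5])],[[[([z1,z0,z1,z0,z0,z1],z2)],[([z1,z1,z0,z0,z0,z1],z2)],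
    []]],
    [.leafM k3 [k0,k1,k2,k3,k4,k5] [(z1,[y1,z1])] [],
    .leafM k0 [k1,k2,k3,k4,k5,k0] [(z1,[y1,z1])] [],
    .lp [k4,k2,k2,k2,k2,k2] [k0,k0,k1,k1,k1,k1,k1,k1,k1,k1,k1,k1] k0 [] k8 k5
    [[(k10,k3)],[(k3,k3),(k4,k3)],[(k7,k2),(k0,k3)],[(k8,k2),(k11,k2)],[(k8,k2),(k11,k2)],[(k7,k2),(k0,k3)],[(k3,k2),
    (k4,k2)],[(k9,k2)],[(k6,k2)],[(k2,k2),(k5,k2)],[(k2,k2),(k5,k2)],[(k1,k3)]]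
    [] k0
    [[k0,k1,k0,k1,k1,k0],[k0,k0,k1,k1,k1,k0]]
    [.ref k0 k0 [(z1,[y1,z1])],.ref k1 k0 [(z1,[y1,z1])]]]⟩

/-- classes `0 1 0 2 1 3`, types `C0 B0 C2 C0 B1 S0` -/
noncomputable def cT6_2182 : CertT :=
  ⟨[k4,k24,k6,k36,k25,k48],[(false,k0,[k0,k1,k2,k3,k4,k5])],[[[([z1,z1,z0,z0,z0,z1],z2)],[([z1,z0,z1,z0,z0,z1],z2)],
    []]],
    [.leafM k0 [k1,k2,k3,k4,k5,k0] [(z1,[y1,z1])] [],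
    .leafM k3 [k0,k1,k2,k3,k4,k5] [(z1,[y1,z1])] [],
    .lp [k2,k2,k4,k2,k2,k2] [k1,k1,k1,k1,k0,k0,k1,k1,k1,k1,k1,k1] k0 [] k8 k5
    [[(k1,k2),(k10,k2)],[(k3,k2),(k4,k3)],[(k0,k2),(k7,k2)],[(k8,k2),(k11,k2)],[(k8,k3),(k11,k3)],[(k0,k3),(k7,k3)],
    [(k3,k2),(k4,k3)],[(k9,k2)],[(k6,k2)],[(k2,k2),(k5,k3)],[(k2,k2),(k5,k3)],[(k1,k2),(k10,k2)]]
    [] k0
    [[k1,k1,k0,k0,k0,k1],[k0,k1,k0,k1,k1,k0]]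
    [.ref k0 k0 [(z1,[z1])],.ref k1 k0 [(z1,[y1,z1])]]]⟩

/-- classes `0 1 0 2 1 3`, types `C0 B0 C2 S0 B1 S0` -/
noncomputable def cT6_2183 : CertT :=
  ⟨[k4,k24,k6,k32,k25,k48],[(false,k0,[k0,k1,k2,k3,k4,k5])],[[[([z1,z1,z0,z0,z0,z1],z2)],[([z1,z0,z1,z0,z0,z1],z2)],
    []]],
    [.leafM k0 [k1,k2,k3,k4,k5,k0] [(z1,[y1,z1])] [],
    .leafM k3 [k0,k1,k2,k3,k4,k5] [(z1,[y1,z1])] [],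
    .lp [k2,k2,k4,k2,k2,k2] [k1,k1,k1,k1,k0,k0,k1,k1,k1,k1,k1,k1] k0 [] k8 k5
    [[(k1,k2),(k10,k2)],[(k3,k2),(k4,k3)],[(k0,k2),(k7,k2)],[(k8,k2),(k11,k2)],[(k8,k3),(k11,k3)],[(k0,k3),(k7,k3)],
    [(k3,k2),(k4,k3)],[(k6,k2),(k9,k2)],[(k6,k2),(k9,k2)],[(k2,k2),(k5,k3)],[(k2,k2),(k5,k3)],[(k1,k2),(k10,k2)]]
    [] k0
    [[k1,k1,k0,k0,k0,k1],[k0,k1,k0,k1,k1,k0]]
    [.ref k0 k0 [(z1,[z1])],.ref k1 k0 [(z1,[y1,z1])]]]⟩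

/-- classes `0 1 0 2 1 3`, types `C0 C0 C0 C0 C0 C0` -/
noncomputable def cT6_2184 : CertT :=
  ⟨[k4,k20,k4,k36,k20,k52],[(false,k0,[k0,k1,k2,k3,k4,k5])],[[[([z1,z1,z0,z0,z0,z1],z2)],[]]],
    [.leafM k0 [k1,k2,k3,k4,k5,k0] [(z1,[y1,z1])] [],
    .lp [k2,k2,k2,k2,k2,k4] [k1,k1,k1,k1,k1,k1,k1,k1,k1,k1,k0,k0] k0 [] k8 k5
    [[(k10,k3)],[(k3,k2),(k7,k2)],[(k0,k2),(k4,k2)],[(k5,k2),(k11,k3)],[(k2,k2),(k8,k2)],[(k3,k2),(k7,k2)],[(k0,k2),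
    (k4,k2)],[(k9,k2)],[(k6,k2)],[(k5,k2),(k11,k3)],[(k2,k3),(k8,k3)],[(k1,k3)]]
    [] k0
    [[k0,k0,k1,k1,k1,k0]]
    [.ref k0 k0 [(z1,[y1,z1])]]]⟩

/-- classes `0 1 0 2 1 3`, types `C0 C0 C0 C0 C0 S0` -/
noncomputable def cT6_2185 : CertT :=
  ⟨[k4,k20,k4,k36,k20,k48],[(false,k0,[k0,k1,k2,k3,k4,k5])],[[[([z1,z1,z0,z0,z0,z1],z2)],[]]],
    [.leafM k0 [k1,k2,k3,k4,k5,k0] [(z1,[y1,z1])] [],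
    .lp [k4,k2,k2,k2,k2,k2] [k0,k0,k1,k1,k1,k1,k1,k1,k1,k1,k1,k1] k0 [] k8 k5
    [[(k10,k3),(k1,k4)],[(k3,k3),(k7,k3)],[(k4,k2),(k0,k3)],[(k5,k2),(k11,k2)],[(k2,k2),(k8,k2)],[(k3,k2),(k7,k2)],
    [(k4,k2),(k0,k3)],[(k9,k2)],[(k6,k2)],[(k5,k2),(k11,k2)],[(k2,k2),(k8,k2)],[(k10,k2),(k1,k3)]]
    [] k0
    [[k0,k0,k1,k1,k1,k0]]
    [.ref k0 k0 [(z1,[y1,z1])]]]⟩

/-- classes `0 1 0 2 1 3`, types `C0 C0 C0 C0 C2 C0` -/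
noncomputable def cT6_2186 : CertT :=
  ⟨[k4,k20,k4,k36,k22,k52],[],[[[]]],
    [.lp [k0,k2,k0,k2,k0,k2] [k1,k1,k0,k0,k1,k1,k0,k0,k1,k1,k0,k0] k0 [] k4 k5
    [[(k10,k1)],[(k3,k1),(k7,k1)],[(k0,k1),(k4,k1)],[(k5,k1),(k8,k1)],[(k2,k1),(k11,k1)],[(k3,k1),(k7,k1)],[(k0,k1),
    (k4,k1)],[(k9,k1)],[(k6,k1)],[(k2,k1),(k11,k1)],[(k5,k1),(k8,k1)],[(k1,k1)]]
    [] k0
    []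
    []]⟩

/-- classes `0 1 0 2 1 3`, types `C0 C0 C0 C0 C2 S0` -/
noncomputable def cT6_2187 : CertT :=
  ⟨[k4,k20,k4,k36,k22,k48],[],[[[]]],
    [.lp [k2,k2,k2,k2,k2,k2] [k0,k0,k0,k0,k0,k0,k0,k0,k0,k0,k0,k0] k0 [] k8 k5
    [[(k1,k2),(k10,k2)],[(k3,k2),(k7,k2)],[(k0,k2),(k4,k2)],[(k5,k2),(k8,k2)],[(k2,k2),(k11,k2)],[(k3,k2),(k7,k2)],
    [(k0,k2),(k4,k2)],[(k9,k2)],[(k6,k2)],[(k2,k2),(k11,k2)],[(k5,k2),(k8,k2)],[(k1,k2),(k10,k2)]]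
    [] k0
    []
    []]⟩

/-- classes `0 1 0 2 1 3`, types `C0 C0 C0 S0 C0 S0` -/
noncomputable def cT6_2188 : CertT :=
  ⟨[k4,k20,k4,k32,k20,k48],[(false,k0,[k0,k1,k2,k3,k4,k5])],[[[([z1,z1,z0,z0,z0,z1],z2)],[]]],
    [.leafM k0 [k1,k2,k3,k4,k5,k0] [(z1,[y1,z1])] [],
    .lp [k2,k2,k2,k4,k2,k2] [k1,k1,k1,k1,k1,k1,k0,k0,k1,k1,k1,k1] k0 [] k8 k5
    [[(k1,k2),(k10,k2)],[(k3,k2),(k7,k3)],[(k0,k2),(k4,k2)],[(k5,k2),(k11,k2)],[(k2,k2),(k8,k2)],[(k3,k2),(k7,k3)],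
    [(k0,k3),(k4,k3)],[(k9,k3),(k6,k4)],[(k9,k2),(k6,k3)],[(k5,k2),(k11,k2)],[(k2,k2),(k8,k2)],[(k1,k2),(k10,k2)]]
    [] k0
    [[k1,k1,k0,k0,k0,k1]]
    [.ref k0 k0 [(z1,[z1])]]]⟩

/-- classes `0 1 0 2 1 3`, types `C0 C0 C0 S0 C2 S0` -/
noncomputable def cT6_2189 : CertT :=
  ⟨[k4,k20,k4,k32,k22,k48],[],[[[]]],
    [.lp [k2,k2,k2,k2,k2,k2] [k0,k0,k0,k0,k0,k0,k0,k0,k0,k0,k0,k0] k0 [] k8 k5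
    [[(k1,k2),(k10,k2)],[(k3,k2),(k7,k2)],[(k0,k2),(k4,k2)],[(k5,k2),(k8,k2)],[(k2,k2),(k11,k2)],[(k3,k2),(k7,k2)],
    [(k0,k2),(k4,k2)],[(k6,k2),(k9,k2)],[(k6,k2),(k9,k2)],[(k2,k2),(k11,k2)],[(k5,k2),(k8,k2)],[(k1,k2),(k10,k2)]]
    [] k0
    []
    []]⟩

/-- classes `0 1 0 2 1 3`, types `C0 C0 C2 C0 C0 C0` -/
noncomputable def cT6_2190 : CertT :=
  ⟨[k4,k20,k6,k36,k20,k52],[(false,k0,[k0,k1,k2,k3,k4,k5])],[[[([z1,z1,z0,z0,z0,z1],z2)],[]]],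
    [.leafM k0 [k1,k2,k3,k4,k5,k0] [(z1,[y1,z1])] [],
    .lp [k2,k2,k2,k2,k4,k2] [k1,k1,k1,k1,k1,k1,k1,k1,k0,k0,k1,k1] k0 [] k8 k5
    [[(k10,k2)],[(k3,k2),(k4,k2)],[(k0,k2),(k7,k2)],[(k5,k2),(k11,k2)],[(k2,k2),(k8,k3)],[(k0,k2),(k7,k2)],[(k3,k2),
    (k4,k2)],[(k9,k3)],[(k6,k3)],[(k5,k3),(k11,k3)],[(k2,k2),(k8,k3)],[(k1,k2)]]
    [] k0
    [[k1,k1,k0,k0,k0,k1]]
    [.ref k0 k0 [(z1,[z1])]]]⟩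

/-- classes `0 1 0 2 1 3`, types `C0 C0 C2 C0 C0 S0` -/
noncomputable def cT6_2191 : CertT :=
  ⟨[k4,k20,k6,k36,k20,k48],[(false,k0,[k0,k1,k2,k3,k4,k5])],[[[([z1,z1,z0,z0,z0,z1],z2)],[]]],
    [.leafM k0 [k1,k2,k3,k4,k5,k0] [(z1,[y1,z1])] [],
    .lp [k4,k2,k2,k2,k2,k2] [k0,k0,k1,k1,k1,k1,k1,k1,k1,k1,k1,k1] k0 [] k8 k5
    [[(k10,k3),(k1,k4)],[(k3,k3),(k4,k3)],[(k7,k2),(k0,k3)],[(k5,k2),(k11,k2)],[(k2,k2),(k8,k2)],[(k7,k2),(k0,k3)],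
    [(k3,k2),(k4,k2)],[(k9,k2)],[(k6,k2)],[(k5,k2),(k11,k2)],[(k2,k2),(k8,k2)],[(k10,k2),(k1,k3)]]
    [] k0
    [[k0,k0,k1,k1,k1,k0]]
    [.ref k0 k0 [(z1,[y1,z1])]]]⟩

/-- classes `0 1 0 2 1 3`, types `C0 C0 C2 C0 C2 C0` -/
noncomputable def cT6_2192 : CertT :=
  ⟨[k4,k20,k6,k36,k22,k52],[(false,k0,[k0,k1,k2,k3,k4,k5])],[[[([z1,z0,z1,z0,z0,z1],z2)],[]]],
    [.leafM k3 [k0,k1,k2,k3,k4,k5] [(z1,[y1,z1])] [],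
    .lp [k2,k2,k2,k2,k2,k4] [k1,k1,k1,k1,k1,k1,k1,k1,k1,k1,k0,k0] k0 [] k8 k5
    [[(k10,k3)],[(k3,k2),(k4,k2)],[(k0,k2),(k7,k2)],[(k5,k2),(k8,k2)],[(k2,k2),(k11,k3)],[(k0,k2),(k7,k2)],[(k3,k2),
    (k4,k2)],[(k9,k2)],[(k6,k2)],[(k2,k2),(k11,k3)],[(k5,k3),(k8,k3)],[(k1,k3)]]
    [] k0
    [[k0,k1,k0,k1,k1,k0]]
    [.ref k0 k0 [(z1,[y1,z1])]]]⟩

/-- classes `0 1 0 2 1 3`, types `C0 C0 C2 C0 C2 S0` -/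
noncomputable def cT6_2193 : CertT :=
  ⟨[k4,k20,k6,k36,k22,k48],[(false,k0,[k0,k1,k2,k3,k4,k5])],[[[([z1,z0,z1,z0,z0,z1],z2)],[]]],
    [.leafM k3 [k0,k1,k2,k3,k4,k5] [(z1,[y1,z1])] [],
    .lp [k4,k2,k2,k2,k2,k2] [k0,k0,k1,k1,k1,k1,k1,k1,k1,k1,k1,k1] k0 [] k8 k5
    [[(k10,k3),(k1,k4)],[(k3,k3),(k4,k3)],[(k7,k2),(k0,k3)],[(k5,k2),(k8,k2)],[(k2,k2),(k11,k2)],[(k7,k2),(k0,k3)],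
    [(k3,k2),(k4,k2)],[(k9,k2)],[(k6,k2)],[(k2,k2),(k11,k2)],[(k5,k2),(k8,k2)],[(k10,k2),(k1,k3)]]
    [] k0
    [[k0,k1,k0,k1,k1,k0]]
    [.ref k0 k0 [(z1,[y1,z1])]]]⟩

/-- classes `0 1 0 2 1 3`, types `C0 C0 C2 S0 C0 S0` -/
noncomputable def cT6_2194 : CertT :=
  ⟨[k4,k20,k6,k32,k20,k48],[(false,k0,[k0,k1,k2,k3,k4,k5])],[[[([z1,z1,z0,z0,z0,z1],z2)],[]]],
    [.leafM k0 [k1,k2,k3,k4,k5,k0] [(z1,[y1,z1])] [],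
    .lp [k2,k2,k2,k4,k2,k2] [k1,k1,k1,k1,k1,k1,k0,k0,k1,k1,k1,k1] k0 [] k8 k5
    [[(k1,k2),(k10,k2)],[(k3,k2),(k4,k2)],[(k0,k2),(k7,k3)],[(k5,k2),(k11,k2)],[(k2,k2),(k8,k2)],[(k0,k2),(k7,k3)],
    [(k3,k3),(k4,k3)],[(k9,k3),(k6,k4)],[(k9,k2),(k6,k3)],[(k5,k2),(k11,k2)],[(k2,k2),(k8,k2)],[(k1,k2),(k10,k2)]]
    [] k0
    [[k1,k1,k0,k0,k0,k1]]
    [.ref k0 k0 [(z1,[z1])]]]⟩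

/-- classes `0 1 0 2 1 3`, types `C0 C0 C2 S0 C2 S0` -/
noncomputable def cT6_2195 : CertT :=
  ⟨[k4,k20,k6,k32,k22,k48],[(false,k0,[k0,k1,k2,k3,k4,k5])],[[[([z1,z0,z1,z0,z0,z1],z2)],[]]],
    [.leafM k3 [k0,k1,k2,k3,k4,k5] [(z1,[y1,z1])] [],
    .lp [k2,k2,k4,k2,k2,k2] [k1,k1,k1,k1,k0,k0,k1,k1,k1,k1,k1,k1] k0 [] k8 k5
    [[(k1,k2),(k10,k2)],[(k3,k2),(k4,k3)],[(k0,k2),(k7,k2)],[(k8,k2),(k5,k3)],[(k2,k3),(k11,k3)],[(k0,k3),(k7,k3)],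
    [(k3,k2),(k4,k3)],[(k6,k2),(k9,k2)],[(k6,k2),(k9,k2)],[(k2,k2),(k11,k2)],[(k8,k2),(k5,k3)],[(k1,k2),(k10,k2)]]
    [] k0
    [[k0,k1,k0,k1,k1,k0]]
    [.ref k0 k0 [(z1,[y1,z1])]]]⟩

/-- classes `0 1 0 2 1 3`, types `C0 N0 C0 C0 N1 C0` -/
noncomputable def cT6_2196 : CertT :=
  ⟨[k4,k28,k4,k36,k29,k52],[(false,k0,[k0,k1,k2,k3,k4,k5])],[[[([z1,z1,z0,z0,z0,z1],z2)],[]]],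
    [.leafM k0 [k1,k2,k3,k4,k5,k0] [(z1,[y1,z1])] [],
    .lp [k2,k2,k2,k2,k2,k4] [k1,k1,k1,k1,k1,k1,k1,k1,k1,k1,k0,k0] k0 [] k8 k5
    [[(k10,k3)],[(k3,k2),(k7,k2)],[(k0,k2),(k4,k2)],[(k11,k3)],[(k8,k2)],[(k3,k2),(k7,k2)],[(k0,k2),(k4,k2)],[(k9,
    k2)],[(k6,k2)],[(k5,k2)],[(k2,k3)],[(k1,k3)]]
    [] k0
    [[k0,k0,k1,k1,k1,k0]]
    [.ref k0 k0 [(z1,[y1,z1])]]]⟩

/-- classes `0 1 0 2 1 3`, types `C0 N0 C0 C0 N1 S0` -/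
noncomputable def cT6_2197 : CertT :=
  ⟨[k4,k28,k4,k36,k29,k48],[(false,k0,[k0,k1,k2,k3,k4,k5])],[[[([z1,z1,z0,z0,z0,z1],z2)],[]]],
    [.leafM k0 [k1,k2,k3,k4,k5,k0] [(z1,[y1,z1])] [],
    .lp [k4,k2,k2,k2,k2,k2] [k0,k0,k1,k1,k1,k1,k1,k1,k1,k1,k1,k1] k0 [] k8 k5
    [[(k10,k3),(k1,k4)],[(k3,k3),(k7,k3)],[(k4,k2),(k0,k3)],[(k11,k2)],[(k8,k2)],[(k3,k2),(k7,k2)],[(k4,k2),(k0,k3)],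
    [(k9,k2)],[(k6,k2)],[(k5,k2)],[(k2,k2)],[(k10,k2),(k1,k3)]]
    [] k0
    [[k0,k0,k1,k1,k1,k0]]
    [.ref k0 k0 [(z1,[y1,z1])]]]⟩

/-- classes `0 1 0 2 1 3`, types `C0 N0 C0 C0 N2 C0` -/
noncomputable def cT6_2198 : CertT :=
  ⟨[k4,k28,k4,k36,k30,k52],[],[[[]]],
    [.lp [k0,k2,k0,k2,k0,k2] [k1,k1,k0,k0,k1,k1,k0,k0,k1,k1,k0,k0] k0 [] k4 k5
    [[(k10,k1)],[(k3,k1),(k7,k1)],[(k0,k1),(k4,k1)],[(k8,k1)],[(k11,k1)],[(k3,k1),(k7,k1)],[(k0,k1),(k4,k1)],[(k9,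
    k1)],[(k6,k1)],[(k2,k1)],[(k5,k1)],[(k1,k1)]]
    [] k0
    []
    []]⟩

/-- classes `0 1 0 2 1 3`, types `C0 N0 C0 C0 N2 S0` -/
noncomputable def cT6_2199 : CertT :=
  ⟨[k4,k28,k4,k36,k30,k48],[],[[[]]],
    [.lp [k2,k2,k2,k2,k2,k2] [k0,k0,k0,k0,k0,k0,k0,k0,k0,k0,k0,k0] k0 [] k8 k5
    [[(k1,k2),(k10,k2)],[(k3,k2),(k7,k2)],[(k0,k2),(k4,k2)],[(k8,k2)],[(k11,k2)],[(k3,k2),(k7,k2)],[(k0,k2),(k4,k2)],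
    [(k9,k2)],[(k6,k2)],[(k2,k2)],[(k5,k2)],[(k1,k2),(k10,k2)]]
    [] k0
    []
    []]⟩

/-- classes `0 1 0 2 1 3`, types `C0 N0 C0 S0 N1 S0` -/
noncomputable def cT6_2200 : CertT :=
  ⟨[k4,k28,k4,k32,k29,k48],[(false,k0,[k0,k1,k2,k3,k4,k5])],[[[([z1,z1,z0,z0,z0,z1],z2)],[]]],
    [.leafM k0 [k1,k2,k3,k4,k5,k0] [(z1,[y1,z1])] [],
    .lp [k2,k2,k2,k4,k2,k2] [k1,k1,k1,k1,k1,k1,k0,k0,k1,k1,k1,k1] k0 [] k8 k5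
    [[(k1,k2),(k10,k2)],[(k3,k2),(k7,k3)],[(k0,k2),(k4,k2)],[(k11,k2)],[(k8,k2)],[(k3,k2),(k7,k3)],[(k0,k3),(k4,k3)],
    [(k9,k3),(k6,k4)],[(k9,k2),(k6,k3)],[(k5,k2)],[(k2,k2)],[(k1,k2),(k10,k2)]]
    [] k0
    [[k1,k1,k0,k0,k0,k1]]
    [.ref k0 k0 [(z1,[z1])]]]⟩

/-- classes `0 1 0 2 1 3`, types `C0 N0 C0 S0 N2 S0` -/
noncomputable def cT6_2201 : CertT :=
  ⟨[k4,k28,k4,k32,k30,k48],[],[[[]]],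
    [.lp [k2,k2,k2,k2,k2,k2] [k0,k0,k0,k0,k0,k0,k0,k0,k0,k0,k0,k0] k0 [] k8 k5
    [[(k1,k2),(k10,k2)],[(k3,k2),(k7,k2)],[(k0,k2),(k4,k2)],[(k8,k2)],[(k11,k2)],[(k3,k2),(k7,k2)],[(k0,k2),(k4,k2)],
    [(k6,k2),(k9,k2)],[(k6,k2),(k9,k2)],[(k2,k2)],[(k5,k2)],[(k1,k2),(k10,k2)]]
    [] k0
    []
    []]⟩

/-- classes `0 1 0 2 1 3`, types `C0 N0 C2 C0 N1 C0` -/
noncomputable def cT6_2202 : CertT :=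
  ⟨[k4,k28,k6,k36,k29,k52],[(false,k0,[k0,k1,k2,k3,k4,k5])],[[[([z1,z1,z0,z0,z0,z1],z2)],[]]],
    [.leafM k0 [k1,k2,k3,k4,k5,k0] [(z1,[y1,z1])] [],
    .lp [k2,k2,k2,k2,k4,k2] [k1,k1,k1,k1,k1,k1,k1,k1,k0,k0,k1,k1] k0 [] k8 k5
    [[(k10,k2)],[(k3,k2),(k4,k2)],[(k0,k2),(k7,k2)],[(k11,k2)],[(k8,k3)],[(k0,k2),(k7,k2)],[(k3,k2),(k4,k2)],[(k9,
    k3)],[(k6,k3)],[(k5,k3)],[(k2,k2)],[(k1,k2)]]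
    [] k0
    [[k1,k1,k0,k0,k0,k1]]
    [.ref k0 k0 [(z1,[z1])]]]⟩

/-- classes `0 1 0 2 1 3`, types `C0 N0 C2 C0 N1 S0` -/
noncomputable def cT6_2203 : CertT :=
  ⟨[k4,k28,k6,k36,k29,k48],[(false,k0,[k0,k1,k2,k3,k4,k5])],[[[([z1,z1,z0,z0,z0,z1],z2)],[]]],
    [.leafM k0 [k1,k2,k3,k4,k5,k0] [(z1,[y1,z1])] [],
    .lp [k4,k2,k2,k2,k2,k2] [k0,k0,k1,k1,k1,k1,k1,k1,k1,k1,k1,k1] k0 [] k8 k5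
    [[(k10,k3),(k1,k4)],[(k3,k3),(k4,k3)],[(k7,k2),(k0,k3)],[(k11,k2)],[(k8,k2)],[(k7,k2),(k0,k3)],[(k3,k2),(k4,k2)],
    [(k9,k2)],[(k6,k2)],[(k5,k2)],[(k2,k2)],[(k10,k2),(k1,k3)]]
    [] k0
    [[k0,k0,k1,k1,k1,k0]]
    [.ref k0 k0 [(z1,[y1,z1])]]]⟩

/-- classes `0 1 0 2 1 3`, types `C0 N0 C2 C0 N2 C0` -/
noncomputable def cT6_2204 : CertT :=
  ⟨[k4,k28,k6,k36,k30,k52],[(false,k0,[k0,k1,k2,k3,k4,k5])],[[[([z1,z0,z1,z0,z0,z1],z2)],[]]],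
    [.leafM k3 [k0,k1,k2,k3,k4,k5] [(z1,[y1,z1])] [],
    .lp [k2,k2,k2,k2,k2,k4] [k1,k1,k1,k1,k1,k1,k1,k1,k1,k1,k0,k0] k0 [] k8 k5
    [[(k10,k3)],[(k3,k2),(k4,k2)],[(k0,k2),(k7,k2)],[(k8,k2)],[(k11,k3)],[(k0,k2),(k7,k2)],[(k3,k2),(k4,k2)],[(k9,
    k2)],[(k6,k2)],[(k2,k2)],[(k5,k3)],[(k1,k3)]]
    [] k0
    [[k0,k1,k0,k1,k1,k0]]
    [.ref k0 k0 [(z1,[y1,z1])]]]⟩

/-- classes `0 1 0 2 1 3`, types `C0 N0 C2 C0 N2 S0` -/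
noncomputable def cT6_2205 : CertT :=
  ⟨[k4,k28,k6,k36,k30,k48],[(false,k0,[k0,k1,k2,k3,k4,k5])],[[[([z1,z0,z1,z0,z0,z1],z2)],[]]],
    [.leafM k3 [k0,k1,k2,k3,k4,k5] [(z1,[y1,z1])] [],
    .lp [k4,k2,k2,k2,k2,k2] [k0,k0,k1,k1,k1,k1,k1,k1,k1,k1,k1,k1] k0 [] k8 k5
    [[(k10,k3),(k1,k4)],[(k3,k3),(k4,k3)],[(k7,k2),(k0,k3)],[(k8,k2)],[(k11,k2)],[(k7,k2),(k0,k3)],[(k3,k2),(k4,k2)],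
    [(k9,k2)],[(k6,k2)],[(k2,k2)],[(k5,k2)],[(k10,k2),(k1,k3)]]
    [] k0
    [[k0,k1,k0,k1,k1,k0]]
    [.ref k0 k0 [(z1,[y1,z1])]]]⟩

/-- classes `0 1 0 2 1 3`, types `C0 N0 C2 S0 N1 S0` -/
noncomputable def cT6_2206 : CertT :=
  ⟨[k4,k28,k6,k32,k29,k48],[(false,k0,[k0,k1,k2,k3,k4,k5])],[[[([z1,z1,z0,z0,z0,z1],z2)],[]]],
    [.leafM k0 [k1,k2,k3,k4,k5,k0] [(z1,[y1,z1])] [],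
    .lp [k2,k2,k2,k4,k2,k2] [k1,k1,k1,k1,k1,k1,k0,k0,k1,k1,k1,k1] k0 [] k8 k5
    [[(k1,k2),(k10,k2)],[(k3,k2),(k4,k2)],[(k0,k2),(k7,k3)],[(k11,k2)],[(k8,k2)],[(k0,k2),(k7,k3)],[(k3,k3),(k4,k3)],
    [(k9,k3),(k6,k4)],[(k9,k2),(k6,k3)],[(k5,k2)],[(k2,k2)],[(k1,k2),(k10,k2)]]
    [] k0
    [[k1,k1,k0,k0,k0,k1]]
    [.ref k0 k0 [(z1,[z1])]]]⟩

/-- classes `0 1 0 2 1 3`, types `C0 N0 C2 S0 N2 S0` -/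
noncomputable def cT6_2207 : CertT :=
  ⟨[k4,k28,k6,k32,k30,k48],[(false,k0,[k0,k1,k2,k3,k4,k5])],[[[([z1,z0,z1,z0,z0,z1],z2)],[]]],
    [.leafM k3 [k0,k1,k2,k3,k4,k5] [(z1,[y1,z1])] [],
    .lp [k2,k2,k4,k2,k2,k2] [k1,k1,k1,k1,k0,k0,k1,k1,k1,k1,k1,k1] k0 [] k8 k5
    [[(k1,k2),(k10,k2)],[(k3,k2),(k4,k3)],[(k0,k2),(k7,k2)],[(k8,k2)],[(k11,k3)],[(k0,k3),(k7,k3)],[(k3,k2),(k4,k3)],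
    [(k6,k2),(k9,k2)],[(k6,k2),(k9,k2)],[(k2,k2)],[(k5,k3)],[(k1,k2),(k10,k2)]]
    [] k0
    [[k0,k1,k0,k1,k1,k0]]
    [.ref k0 k0 [(z1,[y1,z1])]]]⟩

/-- classes `0 1 0 2 1 3`, types `C0 S0 C0 C0 S0 C0` -/
noncomputable def cT6_2208 : CertT :=
  ⟨[k4,k16,k4,k36,k16,k52],[(false,k0,[k0,k1,k2,k3,k4,k5])],[[[([z1,z1,z0,z0,z0,z1],z2)],[]]],
    [.leafM k0 [k1,k2,k3,k4,k5,k0] [(z1,[y1,z1])] [],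
    .lp [k2,k4,k2,k2,k2,k2] [k1,k1,k0,k0,k1,k1,k1,k1,k1,k1,k1,k1] k0 [] k8 k5
    [[(k10,k2)],[(k7,k2),(k3,k3)],[(k0,k3),(k4,k3)],[(k5,k3),(k8,k3),(k11,k3),(k2,k4)],[(k5,k2),(k8,k2),(k11,k2),(k2,
    k3)],[(k7,k2),(k3,k3)],[(k0,k2),(k4,k2)],[(k9,k2)],[(k6,k2)],[(k5,k2),(k8,k2),(k11,k2),(k2,k3)],[(k5,k2),(k8,k2),
    (k11,k2),(k2,k3)],[(k1,k2)]]
    [] k0
    [[k0,k0,k1,k1,k1,k0]]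
    [.ref k0 k0 [(z1,[y1,z1])]]]⟩

/-- classes `0 1 0 2 1 3`, types `C0 S0 C0 C0 S0 S0` -/
noncomputable def cT6_2209 : CertT :=
  ⟨[k4,k16,k4,k36,k16,k48],[(false,k0,[k0,k1,k2,k3,k4,k5])],[[[([z1,z1,z0,z0,z0,z1],z2)],[]]],
    [.leafM k0 [k1,k2,k3,k4,k5,k0] [(z1,[y1,z1])] [],
    .lp [k4,k2,k2,k2,k2,k2] [k0,k0,k1,k1,k1,k1,k1,k1,k1,k1,k1,k1] k0 [] k8 k5
    [[(k10,k3),(k1,k4)],[(k3,k3),(k7,k3)],[(k4,k2),(k0,k3)],[(k2,k2),(k5,k2),(k8,k2),(k11,k2)],[(k2,k2),(k5,k2),(k8,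
    k2),(k11,k2)],[(k3,k2),(k7,k2)],[(k4,k2),(k0,k3)],[(k9,k2)],[(k6,k2)],[(k2,k2),(k5,k2),(k8,k2),(k11,k2)],[(k2,k2),
    (k5,k2),(k8,k2),(k11,k2)],[(k10,k2),(k1,k3)]]
    [] k0
    [[k0,k0,k1,k1,k1,k0]]
    [.ref k0 k0 [(z1,[y1,z1])]]]⟩

/-- classes `0 1 0 2 1 3`, types `C0 S0 C0 S0 S0 S0` -/
noncomputable def cT6_2210 : CertT :=
  ⟨[k4,k16,k4,k32,k16,k48],[(false,k0,[k0,k1,k2,k3,k4,k5])],[[[([z1,z1,z0,z0,z0,z1],z2)],[]]],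
    [.leafM k0 [k1,k2,k3,k4,k5,k0] [(z1,[y1,z1])] [],
    .lp [k2,k2,k2,k2,k4,k2] [k1,k1,k1,k1,k1,k1,k1,k1,k0,k0,k1,k1] k0 [] k8 k5
    [[(k1,k2),(k10,k2)],[(k3,k2),(k7,k2)],[(k0,k2),(k4,k2)],[(k2,k2),(k5,k2),(k11,k2),(k8,k3)],[(k2,k2),(k5,k2),(k11,
    k2),(k8,k3)],[(k3,k2),(k7,k2)],[(k0,k2),(k4,k2)],[(k6,k2),(k9,k3)],[(k6,k3),(k9,k4)],[(k2,k3),(k5,k3),(k11,k3),
    (k8,k4)],[(k2,k2),(k5,k2),(k11,k2),(k8,k3)],[(k1,k2),(k10,k2)]]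
    [] k0
    [[k1,k1,k0,k0,k0,k1]]
    [.ref k0 k0 [(z1,[z1])]]]⟩

/-- classes `0 1 0 2 1 3`, types `C0 S0 C2 C0 S0 C0` -/
noncomputable def cT6_2211 : CertT :=
  ⟨[k4,k16,k6,k36,k16,k52],[(false,k0,[k0,k1,k2,k3,k4,k5])],[[[([z1,z1,z0,z0,z0,z1],z2)],[([z1,z0,z1,z0,z0,z1],z2)],
    []]],
    [.leafM k0 [k1,k2,k3,k4,k5,k0] [(z1,[y1,z1])] [],
    .leafM k3 [k0,k1,k2,k3,k4,k5] [(z1,[y1,z1])] [],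
    .lp [k2,k2,k2,k4,k2,k2] [k1,k1,k1,k1,k1,k1,k0,k0,k1,k1,k1,k1] k0 [] k8 k5
    [[(k10,k2)],[(k3,k2),(k4,k2)],[(k0,k2),(k7,k3)],[(k2,k2),(k5,k2),(k8,k2),(k11,k2)],[(k2,k2),(k5,k2),(k8,k2),(k11,
    k2)],[(k0,k2),(k7,k3)],[(k3,k3),(k4,k3)],[(k9,k3)],[(k6,k3)],[(k2,k2),(k5,k2),(k8,k2),(k11,k2)],[(k2,k2),(k5,k2),
    (k8,k2),(k11,k2)],[(k1,k2)]]
    [] k0
    [[k1,k1,k0,k0,k0,k1],[k1,k0,k1,k0,k0,k1]]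
    [.ref k0 k0 [(z1,[z1])],.ref k1 k0 [(z1,[z1])]]]⟩

/-- classes `0 1 0 2 1 3`, types `C0 S0 C2 C0 S0 S0` -/
noncomputable def cT6_2212 : CertT :=
  ⟨[k4,k16,k6,k36,k16,k48],[(false,k0,[k0,k1,k2,k3,k4,k5])],[[[([z1,z1,z0,z0,z0,z1],z2)],[([z1,z0,z1,z0,z0,z1],z2)],
    []]],
    [.leafM k0 [k1,k2,k3,k4,k5,k0] [(z1,[y1,z1])] [],
    .leafM k3 [k0,k1,k2,k3,k4,k5] [(z1,[y1,z1])] [],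
    .lp [k2,k2,k4,k2,k2,k2] [k1,k1,k1,k1,k0,k0,k1,k1,k1,k1,k1,k1] k0 [] k8 k5
    [[(k1,k2),(k10,k2)],[(k3,k2),(k4,k3)],[(k0,k2),(k7,k2)],[(k2,k2),(k8,k2),(k11,k2),(k5,k3)],[(k2,k3),(k8,k3),(k11,
    k3),(k5,k4)],[(k0,k3),(k7,k3)],[(k3,k2),(k4,k3)],[(k9,k2)],[(k6,k2)],[(k2,k2),(k8,k2),(k11,k2),(k5,k3)],[(k2,k2),
    (k8,k2),(k11,k2),(k5,k3)],[(k1,k2),(k10,k2)]]
    [] k0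
    [[k1,k1,k0,k0,k0,k1],[k0,k1,k0,k1,k1,k0]]
    [.ref k0 k0 [(z1,[z1])],.ref k1 k0 [(z1,[y1,z1])]]]⟩

/-- classes `0 1 0 2 1 3`, types `C0 S0 C2 S0 S0 S0` -/
noncomputable def cT6_2213 : CertT :=
  ⟨[k4,k16,k6,k32,k16,k48],[(false,k0,[k0,k1,k2,k3,k4,k5])],[[[([z1,z1,z0,z0,z0,z1],z2)],[([z1,z0,z1,z0,z0,z1],z2)],
    []]],
    [.leafM k0 [k1,k2,k3,k4,k5,k0] [(z1,[y1,z1])] [],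
    .leafM k3 [k0,k1,k2,k3,k4,k5] [(z1,[y1,z1])] [],
    .lp [k2,k2,k2,k2,k4,k2] [k1,k1,k1,k1,k1,k1,k1,k1,k0,k0,k1,k1] k0 [] k8 k5
    [[(k1,k2),(k10,k2)],[(k3,k2),(k4,k2)],[(k0,k2),(k7,k2)],[(k2,k2),(k5,k2),(k11,k2),(k8,k3)],[(k2,k2),(k5,k2),(k11,
    k2),(k8,k3)],[(k0,k2),(k7,k2)],[(k3,k2),(k4,k2)],[(k6,k2),(k9,k3)],[(k6,k3),(k9,k4)],[(k2,k3),(k5,k3),(k11,k3),
    (k8,k4)],[(k2,k2),(k5,k2),(k11,k2),(k8,k3)],[(k1,k2),(k10,k2)]]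
    [] k0
    [[k1,k1,k0,k0,k0,k1],[k1,k0,k1,k0,k0,k1]]
    [.ref k0 k0 [(z1,[z1])],.ref k1 k0 [(z1,[z1])]]]⟩

/-- classes `0 1 0 2 1 3`, types `N0 B0 N1 C0 B1 C0` -/
noncomputable def cT6_2214 : CertT :=
  ⟨[k12,k24,k13,k36,k25,k52],[],[[[]]],
    [.lp [k2,k2,k2,k2,k2,k2] [k0,k0,k0,k0,k0,k0,k0,k0,k0,k0,k0,k0] k0 [] k8 k5
    [[(k10,k2)],[(k7,k2)],[(k4,k2)],[(k8,k2),(k11,k2)],[(k8,k2),(k11,k2)],[(k3,k2)],[(k0,k2)],[(k9,k2)],[(k6,k2)],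
    [(k2,k2),(k5,k2)],[(k2,k2),(k5,k2)],[(k1,k2)]]
    [] k0
    []
    []]⟩

/-- classes `0 1 0 2 1 3`, types `N0 B0 N1 C0 B1 S0` -/
noncomputable def cT6_2215 : CertT :=
  ⟨[k12,k24,k13,k36,k25,k48],[],[[[]]],
    [.lp [k2,k2,k2,k2,k2,k2] [k0,k0,k0,k0,k0,k0,k0,k0,k0,k0,k0,k0] k0 [] k8 k5
    [[(k1,k2),(k10,k2)],[(k7,k2)],[(k4,k2)],[(k8,k2),(k11,k2)],[(k8,k2),(k11,k2)],[(k3,k2)],[(k0,k2)],[(k9,k2)],[(k6,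
    k2)],[(k2,k2),(k5,k2)],[(k2,k2),(k5,k2)],[(k1,k2),(k10,k2)]]
    [] k0
    []
    []]⟩

/-- classes `0 1 0 2 1 3`, types `N0 B0 N1 S0 B1 S0` -/
noncomputable def cT6_2216 : CertT :=
  ⟨[k12,k24,k13,k32,k25,k48],[],[[[]]],
    [.lp [k2,k2,k2,k2,k2,k2] [k0,k0,k0,k0,k0,k0,k0,k0,k0,k0,k0,k0] k0 [] k8 k5
    [[(k1,k2),(k10,k2)],[(k7,k2)],[(k4,k2)],[(k8,k2),(k11,k2)],[(k8,k2),(k11,k2)],[(k3,k2)],[(k0,k2)],[(k6,k2),(k9,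
    k2)],[(k6,k2),(k9,k2)],[(k2,k2),(k5,k2)],[(k2,k2),(k5,k2)],[(k1,k2),(k10,k2)]]
    [] k0
    []
    []]⟩

/-- classes `0 1 0 2 1 3`, types `N0 B0 N2 C0 B1 C0` -/
noncomputable def cT6_2217 : CertT :=
  ⟨[k12,k24,k14,k36,k25,k52],[(false,k0,[k0,k1,k2,k3,k4,k5])],[[[([z1,z0,z1,z0,z0,z1],z2)],[]]],
    [.leafM k3 [k0,k1,k2,k3,k4,k5] [(z1,[y1,z1])] [],
    .lp [k4,k2,k2,k2,k2,k2] [k0,k0,k1,k1,k1,k1,k1,k1,k1,k1,k1,k1] k0 [] k8 k5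
    [[(k10,k3)],[(k4,k3)],[(k7,k2)],[(k8,k2),(k11,k2)],[(k8,k2),(k11,k2)],[(k0,k3)],[(k3,k2)],[(k9,k2)],[(k6,k2)],
    [(k2,k2),(k5,k2)],[(k2,k2),(k5,k2)],[(k1,k3)]]
    [] k0
    [[k0,k1,k0,k1,k1,k0]]
    [.ref k0 k0 [(z1,[y1,z1])]]]⟩

/-- classes `0 1 0 2 1 3`, types `N0 B0 N2 C0 B1 S0` -/
noncomputable def cT6_2218 : CertT :=
  ⟨[k12,k24,k14,k36,k25,k48],[(false,k0,[k0,k1,k2,k3,k4,k5])],[[[([z1,z0,z1,z0,z0,z1],z2)],[]]],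
    [.leafM k3 [k0,k1,k2,k3,k4,k5] [(z1,[y1,z1])] [],
    .lp [k2,k2,k2,k4,k2,k2] [k1,k1,k1,k1,k1,k1,k0,k0,k1,k1,k1,k1] k0 [] k8 k5
    [[(k1,k2),(k10,k2)],[(k4,k2)],[(k7,k3)],[(k8,k2),(k11,k2)],[(k8,k2),(k11,k2)],[(k0,k2)],[(k3,k3)],[(k9,k3)],[(k6,
    k3)],[(k2,k2),(k5,k2)],[(k2,k2),(k5,k2)],[(k1,k2),(k10,k2)]]
    [] k0
    [[k1,k0,k1,k0,k0,k1]]
    [.ref k0 k0 [(z1,[z1])]]]⟩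

/-- classes `0 1 0 2 1 3`, types `N0 B0 N2 S0 B1 S0` -/
noncomputable def cT6_2219 : CertT :=
  ⟨[k12,k24,k14,k32,k25,k48],[(false,k0,[k0,k1,k2,k3,k4,k5])],[[[([z1,z0,z1,z0,z0,z1],z2)],[]]],
    [.leafM k3 [k0,k1,k2,k3,k4,k5] [(z1,[y1,z1])] [],
    .lp [k2,k2,k2,k2,k2,k4] [k1,k1,k1,k1,k1,k1,k1,k1,k1,k1,k0,k0] k0 [] k8 k5
    [[(k1,k2),(k10,k3)],[(k4,k2)],[(k7,k2)],[(k8,k2),(k11,k3)],[(k8,k2),(k11,k3)],[(k0,k2)],[(k3,k2)],[(k6,k2),(k9,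
    k2)],[(k6,k2),(k9,k2)],[(k2,k2),(k5,k2)],[(k2,k3),(k5,k3)],[(k1,k3),(k10,k4)]]
    [] k0
    [[k0,k1,k0,k1,k1,k0]]
    [.ref k0 k0 [(z1,[y1,z1])]]]⟩

/-- classes `0 1 0 2 1 3`, types `N0 C0 N1 C0 C0 C0` -/
noncomputable def cT6_2220 : CertT :=
  ⟨[k12,k20,k13,k36,k20,k52],[],[[[]]],
    [.lp [k2,k2,k0,k0,k2,k0] [k0,k0,k0,k0,k1,k1,k1,k1,k0,k0,k1,k1] k0 [] k4 k5
    [[(k10,k1)],[(k7,k1)],[(k4,k1)],[(k5,k1),(k11,k1)],[(k2,k1),(k8,k1)],[(k3,k1)],[(k0,k1)],[(k9,k1)],[(k6,k1)],[(k5,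
    k1),(k11,k1)],[(k2,k1),(k8,k1)],[(k1,k1)]]
    [] k0
    []
    []]⟩

/-- classes `0 1 0 2 1 3`, types `N0 C0 N1 C0 C0 S0` -/
noncomputable def cT6_2221 : CertT :=
  ⟨[k12,k20,k13,k36,k20,k48],[],[[[]]],
    [.lp [k2,k2,k2,k2,k2,k2] [k0,k0,k0,k0,k0,k0,k0,k0,k0,k0,k0,k0] k0 [] k8 k5
    [[(k1,k2),(k10,k2)],[(k7,k2)],[(k4,k2)],[(k5,k2),(k11,k2)],[(k2,k2),(k8,k2)],[(k3,k2)],[(k0,k2)],[(k9,k2)],[(k6,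
    k2)],[(k5,k2),(k11,k2)],[(k2,k2),(k8,k2)],[(k1,k2),(k10,k2)]]
    [] k0
    []
    []]⟩

/-- classes `0 1 0 2 1 3`, types `N0 C0 N1 C0 C2 C0` -/
noncomputable def cT6_2222 : CertT :=
  ⟨[k12,k20,k13,k36,k22,k52],[],[[[]]],
    [.lp [k0,k2,k0,k2,k0,k2] [k1,k1,k0,k0,k1,k1,k0,k0,k1,k1,k0,k0] k0 [] k4 k5
    [[(k10,k1)],[(k7,k1)],[(k4,k1)],[(k5,k1),(k8,k1)],[(k2,k1),(k11,k1)],[(k3,k1)],[(k0,k1)],[(k9,k1)],[(k6,k1)],[(k2,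
    k1),(k11,k1)],[(k5,k1),(k8,k1)],[(k1,k1)]]
    [] k0
    []
    []]⟩

/-- classes `0 1 0 2 1 3`, types `N0 C0 N1 C0 C2 S0` -/
noncomputable def cT6_2223 : CertT :=
  ⟨[k12,k20,k13,k36,k22,k48],[],[[[]]],
    [.lp [k2,k2,k2,k2,k2,k2] [k0,k0,k0,k0,k0,k0,k0,k0,k0,k0,k0,k0] k0 [] k8 k5
    [[(k1,k2),(k10,k2)],[(k7,k2)],[(k4,k2)],[(k5,k2),(k8,k2)],[(k2,k2),(k11,k2)],[(k3,k2)],[(k0,k2)],[(k9,k2)],[(k6,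
    k2)],[(k2,k2),(k11,k2)],[(k5,k2),(k8,k2)],[(k1,k2),(k10,k2)]]
    [] k0
    []
    []]⟩

/-- classes `0 1 0 2 1 3`, types `N0 C0 N1 S0 C0 S0` -/
noncomputable def cT6_2224 : CertT :=
  ⟨[k12,k20,k13,k32,k20,k48],[],[[[]]],
    [.lp [k2,k2,k2,k2,k2,k2] [k0,k0,k0,k0,k0,k0,k0,k0,k0,k0,k0,k0] k0 [] k8 k5
    [[(k1,k2),(k10,k2)],[(k7,k2)],[(k4,k2)],[(k5,k2),(k11,k2)],[(k2,k2),(k8,k2)],[(k3,k2)],[(k0,k2)],[(k6,k2),(k9,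
    k2)],[(k6,k2),(k9,k2)],[(k5,k2),(k11,k2)],[(k2,k2),(k8,k2)],[(k1,k2),(k10,k2)]]
    [] k0
    []
    []]⟩

/-- classes `0 1 0 2 1 3`, types `N0 C0 N1 S0 C2 S0` -/
noncomputable def cT6_2225 : CertT :=
  ⟨[k12,k20,k13,k32,k22,k48],[],[[[]]],
    [.lp [k2,k2,k2,k2,k2,k2] [k0,k0,k0,k0,k0,k0,k0,k0,k0,k0,k0,k0] k0 [] k8 k5
    [[(k1,k2),(k10,k2)],[(k7,k2)],[(k4,k2)],[(k5,k2),(k8,k2)],[(k2,k2),(k11,k2)],[(k3,k2)],[(k0,k2)],[(k6,k2),(k9,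
    k2)],[(k6,k2),(k9,k2)],[(k2,k2),(k11,k2)],[(k5,k2),(k8,k2)],[(k1,k2),(k10,k2)]]
    [] k0
    []
    []]⟩

/-- classes `0 1 0 2 1 3`, types `N0 C0 N2 C0 C0 C0` -/
noncomputable def cT6_2226 : CertT :=
  ⟨[k12,k20,k14,k36,k20,k52],[],[[[]]],
    [.lp [k2,k2,k0,k0,k2,k0] [k0,k0,k0,k0,k1,k1,k1,k1,k0,k0,k1,k1] k0 [] k4 k5
    [[(k10,k1)],[(k4,k1)],[(k7,k1)],[(k5,k1),(k11,k1)],[(k2,k1),(k8,k1)],[(k0,k1)],[(k3,k1)],[(k9,k1)],[(k6,k1)],[(k5,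
    k1),(k11,k1)],[(k2,k1),(k8,k1)],[(k1,k1)]]
    [] k0
    []
    []]⟩

/-- classes `0 1 0 2 1 3`, types `N0 C0 N2 C0 C0 S0` -/
noncomputable def cT6_2227 : CertT :=
  ⟨[k12,k20,k14,k36,k20,k48],[],[[[]]],
    [.lp [k2,k2,k2,k2,k2,k2] [k0,k0,k0,k0,k0,k0,k0,k0,k0,k0,k0,k0] k0 [] k8 k5
    [[(k1,k2),(k10,k2)],[(k4,k2)],[(k7,k2)],[(k5,k2),(k11,k2)],[(k2,k2),(k8,k2)],[(k0,k2)],[(k3,k2)],[(k9,k2)],[(k6,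
    k2)],[(k5,k2),(k11,k2)],[(k2,k2),(k8,k2)],[(k1,k2),(k10,k2)]]
    [] k0
    []
    []]⟩

/-- classes `0 1 0 2 1 3`, types `N0 C0 N2 C0 C2 C0` -/
noncomputable def cT6_2228 : CertT :=
  ⟨[k12,k20,k14,k36,k22,k52],[(false,k0,[k0,k1,k2,k3,k4,k5])],[[[([z1,z0,z1,z0,z0,z1],z2)],[]]],
    [.leafM k3 [k0,k1,k2,k3,k4,k5] [(z1,[y1,z1])] [],
    .lp [k2,k2,k2,k2,k2,k4] [k1,k1,k1,k1,k1,k1,k1,k1,k1,k1,k0,k0] k0 [] k8 k5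
    [[(k10,k3)],[(k4,k2)],[(k7,k2)],[(k5,k2),(k8,k2)],[(k2,k2),(k11,k3)],[(k0,k2)],[(k3,k2)],[(k9,k2)],[(k6,k2)],[(k2,
    k2),(k11,k3)],[(k5,k3),(k8,k3)],[(k1,k3)]]
    [] k0
    [[k0,k1,k0,k1,k1,k0]]
    [.ref k0 k0 [(z1,[y1,z1])]]]⟩

/-- classes `0 1 0 2 1 3`, types `N0 C0 N2 C0 C2 S0` -/
noncomputable def cT6_2229 : CertT :=
  ⟨[k12,k20,k14,k36,k22,k48],[(false,k0,[k0,k1,k2,k3,k4,k5])],[[[([z1,z0,z1,z0,z0,z1],z2)],[]]],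
    [.leafM k3 [k0,k1,k2,k3,k4,k5] [(z1,[y1,z1])] [],
    .lp [k4,k2,k2,k2,k2,k2] [k0,k0,k1,k1,k1,k1,k1,k1,k1,k1,k1,k1] k0 [] k8 k5
    [[(k10,k3),(k1,k4)],[(k4,k3)],[(k7,k2)],[(k5,k2),(k8,k2)],[(k2,k2),(k11,k2)],[(k0,k3)],[(k3,k2)],[(k9,k2)],[(k6,
    k2)],[(k2,k2),(k11,k2)],[(k5,k2),(k8,k2)],[(k10,k2),(k1,k3)]]
    [] k0
    [[k0,k1,k0,k1,k1,k0]]
    [.ref k0 k0 [(z1,[y1,z1])]]]⟩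

/-- classes `0 1 0 2 1 3`, types `N0 C0 N2 S0 C0 S0` -/
noncomputable def cT6_2230 : CertT :=
  ⟨[k12,k20,k14,k32,k20,k48],[],[[[]]],
    [.lp [k2,k2,k2,k2,k2,k2] [k0,k0,k0,k0,k0,k0,k0,k0,k0,k0,k0,k0] k0 [] k8 k5
    [[(k1,k2),(k10,k2)],[(k4,k2)],[(k7,k2)],[(k5,k2),(k11,k2)],[(k2,k2),(k8,k2)],[(k0,k2)],[(k3,k2)],[(k6,k2),(k9,
    k2)],[(k6,k2),(k9,k2)],[(k5,k2),(k11,k2)],[(k2,k2),(k8,k2)],[(k1,k2),(k10,k2)]]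
    [] k0
    []
    []]⟩

/-- classes `0 1 0 2 1 3`, types `N0 C0 N2 S0 C2 S0` -/
noncomputable def cT6_2231 : CertT :=
  ⟨[k12,k20,k14,k32,k22,k48],[(false,k0,[k0,k1,k2,k3,k4,k5])],[[[([z1,z0,z1,z0,z0,z1],z2)],[]]],
    [.leafM k3 [k0,k1,k2,k3,k4,k5] [(z1,[y1,z1])] [],
    .lp [k2,k2,k4,k2,k2,k2] [k1,k1,k1,k1,k0,k0,k1,k1,k1,k1,k1,k1] k0 [] k8 k5
    [[(k1,k2),(k10,k2)],[(k4,k3)],[(k7,k2)],[(k8,k2),(k5,k3)],[(k2,k3),(k11,k3)],[(k0,k3)],[(k3,k2)],[(k6,k2),(k9,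
    k2)],[(k6,k2),(k9,k2)],[(k2,k2),(k11,k2)],[(k8,k2),(k5,k3)],[(k1,k2),(k10,k2)]]
    [] k0
    [[k0,k1,k0,k1,k1,k0]]
    [.ref k0 k0 [(z1,[y1,z1])]]]⟩

/-- classes `0 1 0 2 1 3`, types `N0 N0 N1 C0 N1 C0` -/
noncomputable def cT6_2232 : CertT :=
  ⟨[k12,k28,k13,k36,k29,k52],[],[[[]]],
    [.lp [k2,k2,k0,k0,k2,k0] [k0,k0,k0,k0,k1,k1,k1,k1,k0,k0,k1,k1] k0 [] k4 k5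
    [[(k10,k1)],[(k7,k1)],[(k4,k1)],[(k11,k1)],[(k8,k1)],[(k3,k1)],[(k0,k1)],[(k9,k1)],[(k6,k1)],[(k5,k1)],[(k2,k1)],
    [(k1,k1)]]
    [] k0
    []
    []]⟩

/-- classes `0 1 0 2 1 3`, types `N0 N0 N1 C0 N1 S0` -/
noncomputable def cT6_2233 : CertT :=
  ⟨[k12,k28,k13,k36,k29,k48],[],[[[]]],
    [.lp [k2,k2,k2,k2,k2,k2] [k0,k0,k0,k0,k0,k0,k0,k0,k0,k0,k0,k0] k0 [] k8 k5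
    [[(k1,k2),(k10,k2)],[(k7,k2)],[(k4,k2)],[(k11,k2)],[(k8,k2)],[(k3,k2)],[(k0,k2)],[(k9,k2)],[(k6,k2)],[(k5,k2)],
    [(k2,k2)],[(k1,k2),(k10,k2)]]
    [] k0
    []
    []]⟩

/-- classes `0 1 0 2 1 3`, types `N0 N0 N1 C0 N2 C0` -/
noncomputable def cT6_2234 : CertT :=
  ⟨[k12,k28,k13,k36,k30,k52],[],[[[]]],
    [.lp [k0,k2,k0,k2,k0,k2] [k1,k1,k0,k0,k1,k1,k0,k0,k1,k1,k0,k0] k0 [] k4 k5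
    [[(k10,k1)],[(k7,k1)],[(k4,k1)],[(k8,k1)],[(k11,k1)],[(k3,k1)],[(k0,k1)],[(k9,k1)],[(k6,k1)],[(k2,k1)],[(k5,k1)],
    [(k1,k1)]]
    [] k0
    []
    []]⟩

/-- classes `0 1 0 2 1 3`, types `N0 N0 N1 C0 N2 S0` -/
noncomputable def cT6_2235 : CertT :=
  ⟨[k12,k28,k13,k36,k30,k48],[],[[[]]],
    [.lp [k2,k2,k2,k2,k2,k2] [k0,k0,k0,k0,k0,k0,k0,k0,k0,k0,k0,k0] k0 [] k8 k5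
    [[(k1,k2),(k10,k2)],[(k7,k2)],[(k4,k2)],[(k8,k2)],[(k11,k2)],[(k3,k2)],[(k0,k2)],[(k9,k2)],[(k6,k2)],[(k2,k2)],
    [(k5,k2)],[(k1,k2),(k10,k2)]]
    [] k0
    []
    []]⟩

/-- classes `0 1 0 2 1 3`, types `N0 N0 N1 S0 N1 S0` -/
noncomputable def cT6_2236 : CertT :=
  ⟨[k12,k28,k13,k32,k29,k48],[],[[[]]],
    [.lp [k2,k2,k2,k2,k2,k2] [k0,k0,k0,k0,k0,k0,k0,k0,k0,k0,k0,k0] k0 [] k8 k5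
    [[(k1,k2),(k10,k2)],[(k7,k2)],[(k4,k2)],[(k11,k2)],[(k8,k2)],[(k3,k2)],[(k0,k2)],[(k6,k2),(k9,k2)],[(k6,k2),(k9,
    k2)],[(k5,k2)],[(k2,k2)],[(k1,k2),(k10,k2)]]
    [] k0
    []
    []]⟩

/-- classes `0 1 0 2 1 3`, types `N0 N0 N1 S0 N2 S0` -/
noncomputable def cT6_2237 : CertT :=
  ⟨[k12,k28,k13,k32,k30,k48],[],[[[]]],
    [.lp [k2,k2,k2,k2,k2,k2] [k0,k0,k0,k0,k0,k0,k0,k0,k0,k0,k0,k0] k0 [] k8 k5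
    [[(k1,k2),(k10,k2)],[(k7,k2)],[(k4,k2)],[(k8,k2)],[(k11,k2)],[(k3,k2)],[(k0,k2)],[(k6,k2),(k9,k2)],[(k6,k2),(k9,
    k2)],[(k2,k2)],[(k5,k2)],[(k1,k2),(k10,k2)]]
    [] k0
    []
    []]⟩

/-- classes `0 1 0 2 1 3`, types `N0 N0 N2 C0 N1 C0` -/
noncomputable def cT6_2238 : CertT :=
  ⟨[k12,k28,k14,k36,k29,k52],[],[[[]]],
    [.lp [k2,k2,k0,k0,k2,k0] [k0,k0,k0,k0,k1,k1,k1,k1,k0,k0,k1,k1] k0 [] k4 k5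
    [[(k10,k1)],[(k4,k1)],[(k7,k1)],[(k11,k1)],[(k8,k1)],[(k0,k1)],[(k3,k1)],[(k9,k1)],[(k6,k1)],[(k5,k1)],[(k2,k1)],
    [(k1,k1)]]
    [] k0
    []
    []]⟩

/-- classes `0 1 0 2 1 3`, types `N0 N0 N2 C0 N1 S0` -/
noncomputable def cT6_2239 : CertT :=
  ⟨[k12,k28,k14,k36,k29,k48],[],[[[]]],
    [.lp [k2,k2,k2,k2,k2,k2] [k0,k0,k0,k0,k0,k0,k0,k0,k0,k0,k0,k0] k0 [] k8 k5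
    [[(k1,k2),(k10,k2)],[(k4,k2)],[(k7,k2)],[(k11,k2)],[(k8,k2)],[(k0,k2)],[(k3,k2)],[(k9,k2)],[(k6,k2)],[(k5,k2)],
    [(k2,k2)],[(k1,k2),(k10,k2)]]
    [] k0
    []
    []]⟩

/-- classes `0 1 0 2 1 3`, types `N0 N0 N2 C0 N2 C0` -/
noncomputable def cT6_2240 : CertT :=
  ⟨[k12,k28,k14,k36,k30,k52],[(false,k0,[k0,k1,k2,k3,k4,k5])],[[[([z1,z0,z1,z0,z0,z1],z2)],[]]],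
    [.leafM k3 [k0,k1,k2,k3,k4,k5] [(z1,[y1,z1])] [],
    .lp [k4,k2,k0,k2,k2,k4] [k0,k0,k1,k1,k2,k2,k1,k1,k1,k1,k0,k0] k0 [] k8 k5
    [[(k10,k4)],[(k4,k2)],[(k7,k2)],[(k8,k2)],[(k11,k2)],[(k0,k2)],[(k3,k2)],[(k9,k2)],[(k6,k2)],[(k2,k2)],[(k5,k2)],
    [(k1,k4)]]
    [] k0
    [[k0,k1,k0,k1,k1,k0]]
    [.ref k0 k0 [(z1,[y1,z1])]]]⟩

/-- classes `0 1 0 2 1 3`, types `N0 N0 N2 C0 N2 S0` -/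
noncomputable def cT6_2241 : CertT :=
  ⟨[k12,k28,k14,k36,k30,k48],[(false,k0,[k0,k1,k2,k3,k4,k5])],[[[([z1,z0,z1,z0,z0,z1],z2)],[]]],
    [.leafM k3 [k0,k1,k2,k3,k4,k5] [(z1,[y1,z1])] [],
    .lp [k4,k2,k0,k2,k2,k4] [k0,k0,k1,k1,k2,k2,k1,k1,k1,k1,k0,k0] k0 [] k8 k5
    [[(k1,k4),(k10,k4)],[(k4,k2)],[(k7,k2)],[(k8,k2)],[(k11,k2)],[(k0,k2)],[(k3,k2)],[(k9,k2)],[(k6,k2)],[(k2,k2)],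
    [(k5,k2)],[(k1,k4),(k10,k4)]]
    [] k0
    [[k0,k1,k0,k1,k1,k0]]
    [.ref k0 k0 [(z1,[y1,z1])]]]⟩

/-- classes `0 1 0 2 1 3`, types `N0 N0 N2 S0 N1 S0` -/
noncomputable def cT6_2242 : CertT :=
  ⟨[k12,k28,k14,k32,k29,k48],[],[[[]]],
    [.lp [k2,k2,k2,k2,k2,k2] [k0,k0,k0,k0,k0,k0,k0,k0,k0,k0,k0,k0] k0 [] k8 k5
    [[(k1,k2),(k10,k2)],[(k4,k2)],[(k7,k2)],[(k11,k2)],[(k8,k2)],[(k0,k2)],[(k3,k2)],[(k6,k2),(k9,k2)],[(k6,k2),(k9,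
    k2)],[(k5,k2)],[(k2,k2)],[(k1,k2),(k10,k2)]]
    [] k0
    []
    []]⟩

/-- classes `0 1 0 2 1 3`, types `N0 N0 N2 S0 N2 S0` -/
noncomputable def cT6_2243 : CertT :=
  ⟨[k12,k28,k14,k32,k30,k48],[(false,k0,[k0,k1,k2,k3,k4,k5])],[[[([z1,z0,z1,z0,z0,z1],z2)],[]]],
    [.leafM k3 [k0,k1,k2,k3,k4,k5] [(z1,[y1,z1])] [],
    .lp [k2,k2,k4,k2,k2,k2] [k1,k1,k1,k1,k0,k0,k1,k1,k1,k1,k1,k1] k0 [] k8 k5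
    [[(k1,k2),(k10,k2)],[(k4,k3)],[(k7,k2)],[(k8,k2)],[(k11,k3)],[(k0,k3)],[(k3,k2)],[(k6,k2),(k9,k2)],[(k6,k2),(k9,
    k2)],[(k2,k2)],[(k5,k3)],[(k1,k2),(k10,k2)]]
    [] k0
    [[k0,k1,k0,k1,k1,k0]]
    [.ref k0 k0 [(z1,[y1,z1])]]]⟩

/-- classes `0 1 0 2 1 3`, types `N0 S0 N1 C0 S0 C0` -/
noncomputable def cT6_2244 : CertT :=
  ⟨[k12,k16,k13,k36,k16,k52],[],[[[]]],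
    [.lp [k2,k2,k2,k2,k2,k2] [k0,k0,k0,k0,k0,k0,k0,k0,k0,k0,k0,k0] k0 [] k8 k5
    [[(k10,k2)],[(k7,k2)],[(k4,k2)],[(k2,k2),(k5,k2),(k8,k2),(k11,k2)],[(k2,k2),(k5,k2),(k8,k2),(k11,k2)],[(k3,k2)],
    [(k0,k2)],[(k9,k2)],[(k6,k2)],[(k2,k2),(k5,k2),(k8,k2),(k11,k2)],[(k2,k2),(k5,k2),(k8,k2),(k11,k2)],[(k1,k2)]]
    [] k0
    []
    []]⟩

/-- classes `0 1 0 2 1 3`, types `N0 S0 N1 C0 S0 S0` -/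
noncomputable def cT6_2245 : CertT :=
  ⟨[k12,k16,k13,k36,k16,k48],[],[[[]]],
    [.lp [k2,k2,k2,k2,k2,k2] [k0,k0,k0,k0,k0,k0,k0,k0,k0,k0,k0,k0] k0 [] k8 k5
    [[(k1,k2),(k10,k2)],[(k7,k2)],[(k4,k2)],[(k2,k2),(k5,k2),(k8,k2),(k11,k2)],[(k2,k2),(k5,k2),(k8,k2),(k11,k2)],
    [(k3,k2)],[(k0,k2)],[(k9,k2)],[(k6,k2)],[(k2,k2),(k5,k2),(k8,k2),(k11,k2)],[(k2,k2),(k5,k2),(k8,k2),(k11,k2)],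
    [(k1,k2),(k10,k2)]]
    [] k0
    []
    []]⟩

/-- classes `0 1 0 2 1 3`, types `N0 S0 N1 S0 S0 S0` -/
noncomputable def cT6_2246 : CertT :=
  ⟨[k12,k16,k13,k32,k16,k48],[],[[[]]],
    [.lp [k2,k2,k2,k2,k2,k2] [k0,k0,k0,k0,k0,k0,k0,k0,k0,k0,k0,k0] k0 [] k8 k5
    [[(k1,k2),(k10,k2)],[(k7,k2)],[(k4,k2)],[(k2,k2),(k5,k2),(k8,k2),(k11,k2)],[(k2,k2),(k5,k2),(k8,k2),(k11,k2)],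
    [(k3,k2)],[(k0,k2)],[(k6,k2),(k9,k2)],[(k6,k2),(k9,k2)],[(k2,k2),(k5,k2),(k8,k2),(k11,k2)],[(k2,k2),(k5,k2),(k8,
    k2),(k11,k2)],[(k1,k2),(k10,k2)]]
    [] k0
    []
    []]⟩

/-- classes `0 1 0 2 1 3`, types `N0 S0 N2 C0 S0 C0` -/
noncomputable def cT6_2247 : CertT :=
  ⟨[k12,k16,k14,k36,k16,k52],[(false,k0,[k0,k1,k2,k3,k4,k5])],[[[([z1,z0,z1,z0,z0,z1],z2)],[]]],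
    [.leafM k3 [k0,k1,k2,k3,k4,k5] [(z1,[y1,z1])] [],
    .lp [k2,k4,k2,k2,k2,k2] [k1,k1,k0,k0,k1,k1,k1,k1,k1,k1,k1,k1] k0 [] k8 k5
    [[(k10,k2)],[(k4,k2)],[(k7,k3)],[(k5,k3),(k8,k3),(k11,k3),(k2,k4)],[(k5,k2),(k8,k2),(k11,k2),(k2,k3)],[(k0,k2)],
    [(k3,k3)],[(k9,k2)],[(k6,k2)],[(k5,k2),(k8,k2),(k11,k2),(k2,k3)],[(k5,k2),(k8,k2),(k11,k2),(k2,k3)],[(k1,k2)]]
    [] k0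
    [[k1,k0,k1,k0,k0,k1]]
    [.ref k0 k0 [(z1,[z1])]]]⟩

/-- classes `0 1 0 2 1 3`, types `N0 S0 N2 C0 S0 S0` -/
noncomputable def cT6_2248 : CertT :=
  ⟨[k12,k16,k14,k36,k16,k48],[(false,k0,[k0,k1,k2,k3,k4,k5])],[[[([z1,z0,z1,z0,z0,z1],z2)],[]]],
    [.leafM k3 [k0,k1,k2,k3,k4,k5] [(z1,[y1,z1])] [],
    .lp [k4,k2,k2,k2,k2,k2] [k0,k0,k1,k1,k1,k1,k1,k1,k1,k1,k1,k1] k0 [] k8 k5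
    [[(k10,k3),(k1,k4)],[(k4,k3)],[(k7,k2)],[(k2,k2),(k5,k2),(k8,k2),(k11,k2)],[(k2,k2),(k5,k2),(k8,k2),(k11,k2)],
    [(k0,k3)],[(k3,k2)],[(k9,k2)],[(k6,k2)],[(k2,k2),(k5,k2),(k8,k2),(k11,k2)],[(k2,k2),(k5,k2),(k8,k2),(k11,k2)],
    [(k10,k2),(k1,k3)]]
    [] k0
    [[k0,k1,k0,k1,k1,k0]]
    [.ref k0 k0 [(z1,[y1,z1])]]]⟩

/-- classes `0 1 0 2 1 3`, types `N0 S0 N2 S0 S0 S0` -/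
noncomputable def cT6_2249 : CertT :=
  ⟨[k12,k16,k14,k32,k16,k48],[(false,k0,[k0,k1,k2,k3,k4,k5])],[[[([z1,z0,z1,z0,z0,z1],z2)],[]]],
    [.leafM k3 [k0,k1,k2,k3,k4,k5] [(z1,[y1,z1])] [],
    .lp [k2,k2,k2,k2,k4,k2] [k1,k1,k1,k1,k1,k1,k1,k1,k0,k0,k1,k1] k0 [] k8 k5
    [[(k1,k2),(k10,k2)],[(k4,k2)],[(k7,k2)],[(k2,k2),(k5,k2),(k11,k2),(k8,k3)],[(k2,k2),(k5,k2),(k11,k2),(k8,k3)],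
    [(k0,k2)],[(k3,k2)],[(k6,k2),(k9,k3)],[(k6,k3),(k9,k4)],[(k2,k3),(k5,k3),(k11,k3),(k8,k4)],[(k2,k2),(k5,k2),(k11,
    k2),(k8,k3)],[(k1,k2),(k10,k2)]]
    [] k0
    [[k1,k0,k1,k0,k0,k1]]
    [.ref k0 k0 [(z1,[z1])]]]⟩

/-- classes `0 1 0 2 1 3`, types `S0 B0 S0 C0 B1 C0` -/
noncomputable def cT6_2250 : CertT :=
  ⟨[k0,k24,k0,k36,k25,k52],[(false,k0,[k0,k1,k2,k3,k4,k5])],[[[([z1,z0,z1,z0,z0,z1],z2)],[([z1,z1,z0,z0,z0,z1],z2)],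
    []]],
    [.leafM k3 [k0,k1,k2,k3,k4,k5] [(z1,[y1,z1])] [],
    .leafM k0 [k1,k2,k3,k4,k5,k0] [(z1,[y1,z1])] [],
    .lp [k2,k4,k2,k2,k2,k2] [k1,k1,k0,k0,k1,k1,k1,k1,k1,k1,k1,k1] k0 [] k8 k5
    [[(k10,k2)],[(k0,k2),(k4,k2),(k7,k2),(k3,k3)],[(k0,k3),(k4,k3),(k7,k3),(k3,k4)],[(k8,k3),(k11,k3)],[(k8,k2),(k11,
    k2)],[(k0,k2),(k4,k2),(k7,k2),(k3,k3)],[(k0,k2),(k4,k2),(k7,k2),(k3,k3)],[(k9,k2)],[(k6,k2)],[(k5,k2),(k2,k3)],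
    [(k5,k2),(k2,k3)],[(k1,k2)]]
    [] k0
    [[k1,k0,k1,k0,k0,k1],[k0,k0,k1,k1,k1,k0]]
    [.ref k0 k0 [(z1,[z1])],.ref k1 k0 [(z1,[y1,z1])]]]⟩

/-- classes `0 1 0 2 1 3`, types `S0 B0 S0 C0 B1 S0` -/
noncomputable def cT6_2251 : CertT :=
  ⟨[k0,k24,k0,k36,k25,k48],[(false,k0,[k0,k1,k2,k3,k4,k5])],[[[([z1,z1,z0,z0,z0,z1],z2)],[([z1,z0,z1,z0,z0,z1],z2)],
    []]],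
    [.leafM k0 [k1,k2,k3,k4,k5,k0] [(z1,[y1,z1])] [],
    .leafM k3 [k0,k1,k2,k3,k4,k5] [(z1,[y1,z1])] [],
    .lp [k2,k2,k4,k2,k2,k2] [k1,k1,k1,k1,k0,k0,k1,k1,k1,k1,k1,k1] k0 [] k8 k5
    [[(k1,k2),(k10,k2)],[(k0,k2),(k3,k2),(k7,k2),(k4,k3)],[(k0,k2),(k3,k2),(k7,k2),(k4,k3)],[(k8,k2),(k11,k2)],[(k8,
    k3),(k11,k3)],[(k0,k3),(k3,k3),(k7,k3),(k4,k4)],[(k0,k2),(k3,k2),(k7,k2),(k4,k3)],[(k9,k2)],[(k6,k2)],[(k2,k2),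
    (k5,k3)],[(k2,k2),(k5,k3)],[(k1,k2),(k10,k2)]]
    [] k0
    [[k1,k1,k0,k0,k0,k1],[k0,k1,k0,k1,k1,k0]]
    [.ref k0 k0 [(z1,[z1])],.ref k1 k0 [(z1,[y1,z1])]]]⟩

/-- classes `0 1 0 2 1 3`, types `S0 B0 S0 S0 B1 S0` -/
noncomputable def cT6_2252 : CertT :=
  ⟨[k0,k24,k0,k32,k25,k48],[(false,k0,[k0,k1,k2,k3,k4,k5])],[[[([z1,z1,z0,z0,z0,z1],z2)],[([z1,z0,z1,z0,z0,z1],z2)],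
    []]],
    [.leafM k0 [k1,k2,k3,k4,k5,k0] [(z1,[y1,z1])] [],
    .leafM k3 [k0,k1,k2,k3,k4,k5] [(z1,[y1,z1])] [],
    .lp [k2,k2,k2,k4,k2,k2] [k1,k1,k1,k1,k1,k1,k0,k0,k1,k1,k1,k1] k0 [] k8 k5
    [[(k1,k2),(k10,k2)],[(k0,k2),(k3,k2),(k4,k2),(k7,k3)],[(k0,k2),(k3,k2),(k4,k2),(k7,k3)],[(k8,k2),(k11,k2)],[(k8,
    k2),(k11,k2)],[(k0,k2),(k3,k2),(k4,k2),(k7,k3)],[(k0,k3),(k3,k3),(k4,k3),(k7,k4)],[(k9,k3),(k6,k4)],[(k9,k2),(k6,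
    k3)],[(k2,k2),(k5,k2)],[(k2,k2),(k5,k2)],[(k1,k2),(k10,k2)]]
    [] k0
    [[k1,k1,k0,k0,k0,k1],[k1,k0,k1,k0,k0,k1]]
    [.ref k0 k0 [(z1,[z1])],.ref k1 k0 [(z1,[z1])]]]⟩

/-- classes `0 1 0 2 1 3`, types `S0 C0 S0 C0 C0 C0` -/
noncomputable def cT6_2253 : CertT :=
  ⟨[k0,k20,k0,k36,k20,k52],[(false,k0,[k0,k1,k2,k3,k4,k5])],[[[([z1,z1,z0,z0,z0,z1],z2)],[]]],
    [.leafM k0 [k1,k2,k3,k4,k5,k0] [(z1,[y1,z1])] [],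
    .lp [k2,k4,k2,k2,k2,k2] [k1,k1,k0,k0,k1,k1,k1,k1,k1,k1,k1,k1] k0 [] k8 k5
    [[(k10,k2)],[(k0,k2),(k4,k2),(k7,k2),(k3,k3)],[(k0,k3),(k4,k3),(k7,k3),(k3,k4)],[(k5,k3),(k11,k3)],[(k8,k2),(k2,
    k3)],[(k0,k2),(k4,k2),(k7,k2),(k3,k3)],[(k0,k2),(k4,k2),(k7,k2),(k3,k3)],[(k9,k2)],[(k6,k2)],[(k5,k2),(k11,k2)],
    [(k8,k2),(k2,k3)],[(k1,k2)]]
    [] k0
    [[k0,k0,k1,k1,k1,k0]]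
    [.ref k0 k0 [(z1,[y1,z1])]]]⟩

/-- classes `0 1 0 2 1 3`, types `S0 C0 S0 C0 C0 S0` -/
noncomputable def cT6_2254 : CertT :=
  ⟨[k0,k20,k0,k36,k20,k48],[(false,k0,[k0,k1,k2,k3,k4,k5])],[[[([z1,z1,z0,z0,z0,z1],z2)],[]]],
    [.leafM k0 [k1,k2,k3,k4,k5,k0] [(z1,[y1,z1])] [],
    .lp [k4,k2,k2,k2,k2,k2] [k0,k0,k1,k1,k1,k1,k1,k1,k1,k1,k1,k1] k0 [] k8 k5
    [[(k10,k3),(k1,k4)],[(k3,k3),(k4,k3),(k7,k3),(k0,k4)],[(k3,k2),(k4,k2),(k7,k2),(k0,k3)],[(k5,k2),(k11,k2)],[(k2,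
    k2),(k8,k2)],[(k3,k2),(k4,k2),(k7,k2),(k0,k3)],[(k3,k2),(k4,k2),(k7,k2),(k0,k3)],[(k9,k2)],[(k6,k2)],[(k5,k2),
    (k11,k2)],[(k2,k2),(k8,k2)],[(k10,k2),(k1,k3)]]
    [] k0
    [[k0,k0,k1,k1,k1,k0]]
    [.ref k0 k0 [(z1,[y1,z1])]]]⟩

/-- classes `0 1 0 2 1 3`, types `S0 C0 S0 C0 C2 C0` -/
noncomputable def cT6_2255 : CertT :=
  ⟨[k0,k20,k0,k36,k22,k52],[(false,k0,[k0,k1,k2,k3,k4,k5])],[[[([z1,z0,z1,z0,z0,z1],z2)],[]]],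
    [.leafM k3 [k0,k1,k2,k3,k4,k5] [(z1,[y1,z1])] [],
    .lp [k2,k2,k2,k2,k2,k4] [k1,k1,k1,k1,k1,k1,k1,k1,k1,k1,k0,k0] k0 [] k8 k5
    [[(k10,k3)],[(k0,k2),(k3,k2),(k4,k2),(k7,k2)],[(k0,k2),(k3,k2),(k4,k2),(k7,k2)],[(k5,k2),(k8,k2)],[(k2,k2),(k11,
    k3)],[(k0,k2),(k3,k2),(k4,k2),(k7,k2)],[(k0,k2),(k3,k2),(k4,k2),(k7,k2)],[(k9,k2)],[(k6,k2)],[(k2,k2),(k11,k3)],
    [(k5,k3),(k8,k3)],[(k1,k3)]]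
    [] k0
    [[k0,k1,k0,k1,k1,k0]]
    [.ref k0 k0 [(z1,[y1,z1])]]]⟩

/-- classes `0 1 0 2 1 3`, types `S0 C0 S0 C0 C2 S0` -/
noncomputable def cT6_2256 : CertT :=
  ⟨[k0,k20,k0,k36,k22,k48],[(false,k0,[k0,k1,k2,k3,k4,k5])],[[[([z1,z0,z1,z0,z0,z1],z2)],[]]],
    [.leafM k3 [k0,k1,k2,k3,k4,k5] [(z1,[y1,z1])] [],
    .lp [k4,k2,k2,k2,k2,k2] [k0,k0,k1,k1,k1,k1,k1,k1,k1,k1,k1,k1] k0 [] k8 k5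
    [[(k10,k3),(k1,k4)],[(k3,k3),(k4,k3),(k7,k3),(k0,k4)],[(k3,k2),(k4,k2),(k7,k2),(k0,k3)],[(k5,k2),(k8,k2)],[(k2,
    k2),(k11,k2)],[(k3,k2),(k4,k2),(k7,k2),(k0,k3)],[(k3,k2),(k4,k2),(k7,k2),(k0,k3)],[(k9,k2)],[(k6,k2)],[(k2,k2),
    (k11,k2)],[(k5,k2),(k8,k2)],[(k10,k2),(k1,k3)]]
    [] k0
    [[k0,k1,k0,k1,k1,k0]]
    [.ref k0 k0 [(z1,[y1,z1])]]]⟩

/-- classes `0 1 0 2 1 3`, types `S0 C0 S0 S0 C0 S0` -/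
noncomputable def cT6_2257 : CertT :=
  ⟨[k0,k20,k0,k32,k20,k48],[(false,k0,[k0,k1,k2,k3,k4,k5])],[[[([z1,z1,z0,z0,z0,z1],z2)],[]]],
    [.leafM k0 [k1,k2,k3,k4,k5,k0] [(z1,[y1,z1])] [],
    .lp [k2,k2,k2,k2,k4,k2] [k1,k1,k1,k1,k1,k1,k1,k1,k0,k0,k1,k1] k0 [] k8 k5
    [[(k1,k2),(k10,k2)],[(k0,k2),(k3,k2),(k4,k2),(k7,k2)],[(k0,k2),(k3,k2),(k4,k2),(k7,k2)],[(k5,k2),(k11,k2)],[(k2,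
    k2),(k8,k3)],[(k0,k2),(k3,k2),(k4,k2),(k7,k2)],[(k0,k2),(k3,k2),(k4,k2),(k7,k2)],[(k6,k2),(k9,k3)],[(k6,k3),(k9,
    k4)],[(k5,k3),(k11,k3)],[(k2,k2),(k8,k3)],[(k1,k2),(k10,k2)]]
    [] k0
    [[k1,k1,k0,k0,k0,k1]]
    [.ref k0 k0 [(z1,[z1])]]]⟩

/-- classes `0 1 0 2 1 3`, types `S0 C0 S0 S0 C2 S0` -/
noncomputable def cT6_2258 : CertT :=
  ⟨[k0,k20,k0,k32,k22,k48],[(false,k0,[k0,k1,k2,k3,k4,k5])],[[[([z1,z0,z1,z0,z0,z1],z2)],[]]],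
    [.leafM k3 [k0,k1,k2,k3,k4,k5] [(z1,[y1,z1])] [],
    .lp [k4,k2,k2,k2,k2,k2] [k0,k0,k1,k1,k1,k1,k1,k1,k1,k1,k1,k1] k0 [] k8 k5
    [[(k10,k3),(k1,k4)],[(k3,k3),(k4,k3),(k7,k3),(k0,k4)],[(k3,k2),(k4,k2),(k7,k2),(k0,k3)],[(k5,k2),(k8,k2)],[(k2,
    k2),(k11,k2)],[(k3,k2),(k4,k2),(k7,k2),(k0,k3)],[(k3,k2),(k4,k2),(k7,k2),(k0,k3)],[(k6,k2),(k9,k2)],[(k6,k2),(k9,
    k2)],[(k2,k2),(k11,k2)],[(k5,k2),(k8,k2)],[(k10,k2),(k1,k3)]]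
    [] k0
    [[k0,k1,k0,k1,k1,k0]]
    [.ref k0 k0 [(z1,[y1,z1])]]]⟩

/-- classes `0 1 0 2 1 3`, types `S0 N0 S0 C0 N1 C0` -/
noncomputable def cT6_2259 : CertT :=
  ⟨[k0,k28,k0,k36,k29,k52],[(false,k0,[k0,k1,k2,k3,k4,k5])],[[[([z1,z1,z0,z0,z0,z1],z2)],[]]],
    [.leafM k0 [k1,k2,k3,k4,k5,k0] [(z1,[y1,z1])] [],
    .lp [k2,k4,k2,k2,k2,k2] [k1,k1,k0,k0,k1,k1,k1,k1,k1,k1,k1,k1] k0 [] k8 k5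
    [[(k10,k2)],[(k0,k2),(k4,k2),(k7,k2),(k3,k3)],[(k0,k3),(k4,k3),(k7,k3),(k3,k4)],[(k11,k3)],[(k8,k2)],[(k0,k2),(k4,
    k2),(k7,k2),(k3,k3)],[(k0,k2),(k4,k2),(k7,k2),(k3,k3)],[(k9,k2)],[(k6,k2)],[(k5,k2)],[(k2,k3)],[(k1,k2)]]
    [] k0
    [[k0,k0,k1,k1,k1,k0]]
    [.ref k0 k0 [(z1,[y1,z1])]]]⟩

/-- classes `0 1 0 2 1 3`, types `S0 N0 S0 C0 N1 S0` -/
noncomputable def cT6_2260 : CertT :=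
  ⟨[k0,k28,k0,k36,k29,k48],[(false,k0,[k0,k1,k2,k3,k4,k5])],[[[([z1,z1,z0,z0,z0,z1],z2)],[]]],
    [.leafM k0 [k1,k2,k3,k4,k5,k0] [(z1,[y1,z1])] [],
    .lp [k4,k2,k2,k2,k2,k2] [k0,k0,k1,k1,k1,k1,k1,k1,k1,k1,k1,k1] k0 [] k8 k5
    [[(k10,k3),(k1,k4)],[(k3,k3),(k4,k3),(k7,k3),(k0,k4)],[(k3,k2),(k4,k2),(k7,k2),(k0,k3)],[(k11,k2)],[(k8,k2)],[(k3,
    k2),(k4,k2),(k7,k2),(k0,k3)],[(k3,k2),(k4,k2),(k7,k2),(k0,k3)],[(k9,k2)],[(k6,k2)],[(k5,k2)],[(k2,k2)],[(k10,k2),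
    (k1,k3)]]
    [] k0
    [[k0,k0,k1,k1,k1,k0]]
    [.ref k0 k0 [(z1,[y1,z1])]]]⟩

/-- classes `0 1 0 2 1 3`, types `S0 N0 S0 C0 N2 C0` -/
noncomputable def cT6_2261 : CertT :=
  ⟨[k0,k28,k0,k36,k30,k52],[(false,k0,[k0,k1,k2,k3,k4,k5])],[[[([z1,z0,z1,z0,z0,z1],z2)],[]]],
    [.leafM k3 [k0,k1,k2,k3,k4,k5] [(z1,[y1,z1])] [],
    .lp [k2,k2,k2,k2,k2,k4] [k1,k1,k1,k1,k1,k1,k1,k1,k1,k1,k0,k0] k0 [] k8 k5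
    [[(k10,k3)],[(k0,k2),(k3,k2),(k4,k2),(k7,k2)],[(k0,k2),(k3,k2),(k4,k2),(k7,k2)],[(k8,k2)],[(k11,k3)],[(k0,k2),(k3,
    k2),(k4,k2),(k7,k2)],[(k0,k2),(k3,k2),(k4,k2),(k7,k2)],[(k9,k2)],[(k6,k2)],[(k2,k2)],[(k5,k3)],[(k1,k3)]]
    [] k0
    [[k0,k1,k0,k1,k1,k0]]
    [.ref k0 k0 [(z1,[y1,z1])]]]⟩

/-- classes `0 1 0 2 1 3`, types `S0 N0 S0 C0 N2 S0` -/
noncomputable def cT6_2262 : CertT :=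
  ⟨[k0,k28,k0,k36,k30,k48],[(false,k0,[k0,k1,k2,k3,k4,k5])],[[[([z1,z0,z1,z0,z0,z1],z2)],[]]],
    [.leafM k3 [k0,k1,k2,k3,k4,k5] [(z1,[y1,z1])] [],
    .lp [k4,k2,k2,k2,k2,k2] [k0,k0,k1,k1,k1,k1,k1,k1,k1,k1,k1,k1] k0 [] k8 k5
    [[(k10,k3),(k1,k4)],[(k3,k3),(k4,k3),(k7,k3),(k0,k4)],[(k3,k2),(k4,k2),(k7,k2),(k0,k3)],[(k8,k2)],[(k11,k2)],[(k3,
    k2),(k4,k2),(k7,k2),(k0,k3)],[(k3,k2),(k4,k2),(k7,k2),(k0,k3)],[(k9,k2)],[(k6,k2)],[(k2,k2)],[(k5,k2)],[(k10,k2),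
    (k1,k3)]]
    [] k0
    [[k0,k1,k0,k1,k1,k0]]
    [.ref k0 k0 [(z1,[y1,z1])]]]⟩

/-- classes `0 1 0 2 1 3`, types `S0 N0 S0 S0 N1 S0` -/
noncomputable def cT6_2263 : CertT :=
  ⟨[k0,k28,k0,k32,k29,k48],[(false,k0,[k0,k1,k2,k3,k4,k5])],[[[([z1,z1,z0,z0,z0,z1],z2)],[]]],
    [.leafM k0 [k1,k2,k3,k4,k5,k0] [(z1,[y1,z1])] [],
    .lp [k2,k2,k2,k2,k4,k2] [k1,k1,k1,k1,k1,k1,k1,k1,k0,k0,k1,k1] k0 [] k8 k5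
    [[(k1,k2),(k10,k2)],[(k0,k2),(k3,k2),(k4,k2),(k7,k2)],[(k0,k2),(k3,k2),(k4,k2),(k7,k2)],[(k11,k2)],[(k8,k3)],[(k0,
    k2),(k3,k2),(k4,k2),(k7,k2)],[(k0,k2),(k3,k2),(k4,k2),(k7,k2)],[(k6,k2),(k9,k3)],[(k6,k3),(k9,k4)],[(k5,k3)],[(k2,
    k2)],[(k1,k2),(k10,k2)]]
    [] k0
    [[k1,k1,k0,k0,k0,k1]]
    [.ref k0 k0 [(z1,[z1])]]]⟩

/-- classes `0 1 0 2 1 3`, types `S0 N0 S0 S0 N2 S0` -/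
noncomputable def cT6_2264 : CertT :=
  ⟨[k0,k28,k0,k32,k30,k48],[(false,k0,[k0,k1,k2,k3,k4,k5])],[[[([z1,z0,z1,z0,z0,z1],z2)],[]]],
    [.leafM k3 [k0,k1,k2,k3,k4,k5] [(z1,[y1,z1])] [],
    .lp [k4,k2,k2,k2,k2,k2] [k0,k0,k1,k1,k1,k1,k1,k1,k1,k1,k1,k1] k0 [] k8 k5
    [[(k10,k3),(k1,k4)],[(k3,k3),(k4,k3),(k7,k3),(k0,k4)],[(k3,k2),(k4,k2),(k7,k2),(k0,k3)],[(k8,k2)],[(k11,k2)],[(k3,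
    k2),(k4,k2),(k7,k2),(k0,k3)],[(k3,k2),(k4,k2),(k7,k2),(k0,k3)],[(k6,k2),(k9,k2)],[(k6,k2),(k9,k2)],[(k2,k2)],[(k5,
    k2)],[(k10,k2),(k1,k3)]]
    [] k0
    [[k0,k1,k0,k1,k1,k0]]
    [.ref k0 k0 [(z1,[y1,z1])]]]⟩

/-- classes `0 1 0 2 1 3`, types `S0 S0 S0 C0 S0 C0` -/
noncomputable def cT6_2265 : CertT :=
  ⟨[k0,k16,k0,k36,k16,k52],[(false,k0,[k0,k1,k2,k3,k4,k5])],[[[([z1,z1,z0,z0,z0,z1],z2)],[([z1,z0,z1,z0,z0,z1],z2)],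
    []]],
    [.leafM k0 [k1,k2,k3,k4,k5,k0] [(z1,[y1,z1])] [],
    .leafM k3 [k0,k1,k2,k3,k4,k5] [(z1,[y1,z1])] [],
    .lp [k2,k2,k4,k2,k2,k2] [k1,k1,k1,k1,k0,k0,k1,k1,k1,k1,k1,k1] k0 [] k8 k5
    [[(k10,k2)],[(k0,k2),(k3,k2),(k7,k2),(k4,k3)],[(k0,k2),(k3,k2),(k7,k2),(k4,k3)],[(k2,k2),(k8,k2),(k11,k2),(k5,
    k3)],[(k2,k3),(k8,k3),(k11,k3),(k5,k4)],[(k0,k3),(k3,k3),(k7,k3),(k4,k4)],[(k0,k2),(k3,k2),(k7,k2),(k4,k3)],[(k9,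
    k2)],[(k6,k2)],[(k2,k2),(k8,k2),(k11,k2),(k5,k3)],[(k2,k2),(k8,k2),(k11,k2),(k5,k3)],[(k1,k2)]]
    [] k0
    [[k1,k1,k0,k0,k0,k1],[k0,k1,k0,k1,k1,k0]]
    [.ref k0 k0 [(z1,[z1])],.ref k1 k0 [(z1,[y1,z1])]]]⟩

/-- classes `0 1 0 2 1 3`, types `S0 S0 S0 C0 S0 S0` -/
noncomputable def cT6_2266 : CertT :=
  ⟨[k0,k16,k0,k36,k16,k48],[(false,k0,[k0,k1,k2,k3,k4,k5])],[[[([z1,z1,z0,z0,z0,z1],z2)],[([z1,z0,z1,z0,z0,z1],z2)],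
    []]],
    [.leafM k0 [k1,k2,k3,k4,k5,k0] [(z1,[y1,z1])] [],
    .leafM k3 [k0,k1,k2,k3,k4,k5] [(z1,[y1,z1])] [],
    .lp [k2,k2,k4,k2,k2,k2] [k1,k1,k1,k1,k0,k0,k1,k1,k1,k1,k1,k1] k0 [] k8 k5
    [[(k1,k2),(k10,k2)],[(k0,k2),(k3,k2),(k7,k2),(k4,k3)],[(k0,k2),(k3,k2),(k7,k2),(k4,k3)],[(k2,k2),(k8,k2),(k11,k2),
    (k5,k3)],[(k2,k3),(k8,k3),(k11,k3),(k5,k4)],[(k0,k3),(k3,k3),(k7,k3),(k4,k4)],[(k0,k2),(k3,k2),(k7,k2),(k4,k3)],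
    [(k9,k2)],[(k6,k2)],[(k2,k2),(k8,k2),(k11,k2),(k5,k3)],[(k2,k2),(k8,k2),(k11,k2),(k5,k3)],[(k1,k2),(k10,k2)]]
    [] k0
    [[k1,k1,k0,k0,k0,k1],[k0,k1,k0,k1,k1,k0]]
    [.ref k0 k0 [(z1,[z1])],.ref k1 k0 [(z1,[y1,z1])]]]⟩

/-- classes `0 1 0 2 3 2`, types `B0 C0 B1 B0 C0 B1` -/
noncomputable def cT6_2267 : CertT :=
  ⟨[k8,k20,k9,k40,k52,k41],[],[[[]]],
    [.lp [k0,k0,k2,k2,k2,k0] [k1,k1,k1,k1,k0,k0,k0,k0,k0,k0,k1,k1] k0 [] k4 k5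
    [[(k6,k1),(k9,k1)],[(k4,k1),(k7,k1)],[(k4,k1),(k7,k1)],[(k5,k1)],[(k2,k1)],[(k0,k1),(k3,k1)],[(k0,k1),(k3,k1)],
    [(k1,k1),(k10,k1)],[(k1,k1),(k10,k1)],[(k11,k1)],[(k8,k1)],[(k6,k1),(k9,k1)]]
    [] k0
    []
    []]⟩

/-- classes `0 1 0 2 3 2`, types `B0 C0 B1 B0 S0 B1` -/
noncomputable def cT6_2268 : CertT :=
  ⟨[k8,k20,k9,k40,k48,k41],[],[[[]]],
    [.lp [k2,k2,k2,k2,k2,k2] [k0,k0,k0,k0,k0,k0,k0,k0,k0,k0,k0,k0] k0 [] k8 k5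
    [[(k6,k2),(k9,k2)],[(k4,k2),(k7,k2)],[(k4,k2),(k7,k2)],[(k5,k2)],[(k2,k2)],[(k0,k2),(k3,k2)],[(k0,k2),(k3,k2)],
    [(k1,k2),(k10,k2)],[(k1,k2),(k10,k2)],[(k8,k2),(k11,k2)],[(k8,k2),(k11,k2)],[(k6,k2),(k9,k2)]]
    [] k0
    []
    []]⟩

/-- classes `0 1 0 2 3 2`, types `B0 C0 B1 C0 C0 C0` -/
noncomputable def cT6_2269 : CertT :=
  ⟨[k8,k20,k9,k36,k52,k36],[],[[[]]],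
    [.lp [k2,k2,k0,k0,k2,k0] [k0,k0,k0,k0,k1,k1,k1,k1,k0,k0,k1,k1] k0 [] k4 k5
    [[(k6,k1),(k10,k1)],[(k4,k1),(k7,k1)],[(k4,k1),(k7,k1)],[(k5,k1)],[(k2,k1)],[(k0,k1),(k3,k1)],[(k0,k1),(k3,k1)],
    [(k1,k1),(k9,k1)],[(k6,k1),(k10,k1)],[(k11,k1)],[(k8,k1)],[(k1,k1),(k9,k1)]]
    [] k0
    []
    []]⟩

/-- classes `0 1 0 2 3 2`, types `B0 C0 B1 C0 C0 C2` -/
noncomputable def cT6_2270 : CertT :=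
  ⟨[k8,k20,k9,k36,k52,k38],[],[[[]]],
    [.lp [k2,k2,k2,k2,k2,k2] [k0,k0,k0,k0,k0,k0,k0,k0,k0,k0,k0,k0] k0 [] k8 k5
    [[(k9,k2),(k10,k2)],[(k4,k2),(k7,k2)],[(k4,k2),(k7,k2)],[(k5,k2)],[(k2,k2)],[(k0,k2),(k3,k2)],[(k0,k2),(k3,k2)],
    [(k9,k2),(k10,k2)],[(k1,k2),(k6,k2)],[(k11,k2)],[(k8,k2)],[(k1,k2),(k6,k2)]]
    [] k0
    []
    []]⟩

/-- classes `0 1 0 2 3 2`, types `B0 C0 B1 C0 S0 C0` -/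
noncomputable def cT6_2271 : CertT :=
  ⟨[k8,k20,k9,k36,k48,k36],[],[[[]]],
    [.lp [k2,k2,k2,k2,k2,k2] [k0,k0,k0,k0,k0,k0,k0,k0,k0,k0,k0,k0] k0 [] k8 k5
    [[(k6,k2),(k10,k2)],[(k4,k2),(k7,k2)],[(k4,k2),(k7,k2)],[(k5,k2)],[(k2,k2)],[(k0,k2),(k3,k2)],[(k0,k2),(k3,k2)],
    [(k1,k2),(k9,k2)],[(k6,k2),(k10,k2)],[(k8,k2),(k11,k2)],[(k8,k2),(k11,k2)],[(k1,k2),(k9,k2)]]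
    [] k0
    []
    []]⟩

/-- classes `0 1 0 2 3 2`, types `B0 C0 B1 C0 S0 C2` -/
noncomputable def cT6_2272 : CertT :=
  ⟨[k8,k20,k9,k36,k48,k38],[],[[[]]],
    [.lp [k2,k2,k2,k2,k2,k2] [k0,k0,k0,k0,k0,k0,k0,k0,k0,k0,k0,k0] k0 [] k8 k5
    [[(k9,k2),(k10,k2)],[(k4,k2),(k7,k2)],[(k4,k2),(k7,k2)],[(k5,k2)],[(k2,k2)],[(k0,k2),(k3,k2)],[(k0,k2),(k3,k2)],
    [(k9,k2),(k10,k2)],[(k1,k2),(k6,k2)],[(k8,k2),(k11,k2)],[(k8,k2),(k11,k2)],[(k1,k2),(k6,k2)]]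
    [] k0
    []
    []]⟩

/-- classes `0 1 0 2 3 2`, types `B0 C0 B1 N0 C0 N1` -/
noncomputable def cT6_2273 : CertT :=
  ⟨[k8,k20,k9,k44,k52,k45],[],[[[]]],
    [.lp [k2,k2,k0,k0,k2,k0] [k0,k0,k0,k0,k1,k1,k1,k1,k0,k0,k1,k1] k0 [] k4 k5
    [[(k6,k1)],[(k4,k1),(k7,k1)],[(k4,k1),(k7,k1)],[(k5,k1)],[(k2,k1)],[(k0,k1),(k3,k1)],[(k0,k1),(k3,k1)],[(k1,k1)],
    [(k10,k1)],[(k11,k1)],[(k8,k1)],[(k9,k1)]]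
    [] k0
    []
    []]⟩

/-- classes `0 1 0 2 3 2`, types `B0 C0 B1 N0 C0 N2` -/
noncomputable def cT6_2274 : CertT :=
  ⟨[k8,k20,k9,k44,k52,k46],[],[[[]]],
    [.lp [k2,k2,k0,k0,k0,k2] [k0,k0,k0,k0,k1,k1,k1,k1,k1,k1,k0,k0] k0 [] k4 k5
    [[(k9,k1)],[(k4,k1),(k7,k1)],[(k4,k1),(k7,k1)],[(k5,k1)],[(k2,k1)],[(k0,k1),(k3,k1)],[(k0,k1),(k3,k1)],[(k10,k1)],
    [(k1,k1)],[(k11,k1)],[(k8,k1)],[(k6,k1)]]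
    [] k0
    []
    []]⟩

/-- classes `0 1 0 2 3 2`, types `B0 C0 B1 N0 S0 N1` -/
noncomputable def cT6_2275 : CertT :=
  ⟨[k8,k20,k9,k44,k48,k45],[],[[[]]],
    [.lp [k0,k0,k4,k4,k2,k2] [k2,k2,k2,k2,k0,k0,k0,k0,k1,k1,k1,k1] k0 [] k8 k5
    [[(k6,k2)],[(k4,k2),(k7,k2)],[(k4,k2),(k7,k2)],[(k5,k2)],[(k2,k2)],[(k0,k2),(k3,k2)],[(k0,k2),(k3,k2)],[(k1,k2)],
    [(k10,k2)],[(k8,k2),(k11,k2)],[(k8,k2),(k11,k2)],[(k9,k2)]]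
    [] k0
    []
    []]⟩

/-- classes `0 1 0 2 3 2`, types `B0 C0 B1 N0 S0 N2` -/
noncomputable def cT6_2276 : CertT :=
  ⟨[k8,k20,k9,k44,k48,k46],[],[[[]]],
    [.lp [k2,k2,k2,k2,k2,k2] [k0,k0,k0,k0,k0,k0,k0,k0,k0,k0,k0,k0] k0 [] k8 k5
    [[(k9,k2)],[(k4,k2),(k7,k2)],[(k4,k2),(k7,k2)],[(k5,k2)],[(k2,k2)],[(k0,k2),(k3,k2)],[(k0,k2),(k3,k2)],[(k10,k2)],
    [(k1,k2)],[(k8,k2),(k11,k2)],[(k8,k2),(k11,k2)],[(k6,k2)]]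
    [] k0
    []
    []]⟩

/-- classes `0 1 0 2 3 2`, types `B0 C0 B1 S0 C0 S0` -/
noncomputable def cT6_2277 : CertT :=
  ⟨[k8,k20,k9,k32,k52,k32],[],[[[]]],
    [.lp [k2,k2,k2,k2,k2,k2] [k0,k0,k0,k0,k0,k0,k0,k0,k0,k0,k0,k0] k0 [] k8 k5
    [[(k1,k2),(k6,k2),(k9,k2),(k10,k2)],[(k4,k2),(k7,k2)],[(k4,k2),(k7,k2)],[(k5,k2)],[(k2,k2)],[(k0,k2),(k3,k2)],
    [(k0,k2),(k3,k2)],[(k1,k2),(k6,k2),(k9,k2),(k10,k2)],[(k1,k2),(k6,k2),(k9,k2),(k10,k2)],[(k11,k2)],[(k8,k2)],[(k1,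
    k2),(k6,k2),(k9,k2),(k10,k2)]]
    [] k0
    []
    []]⟩

/-- classes `0 1 0 2 3 2`, types `B0 C0 B1 S0 S0 S0` -/
noncomputable def cT6_2278 : CertT :=
  ⟨[k8,k20,k9,k32,k48,k32],[],[[[]]],
    [.lp [k2,k2,k2,k2,k2,k2] [k0,k0,k0,k0,k0,k0,k0,k0,k0,k0,k0,k0] k0 [] k8 k5
    [[(k1,k2),(k6,k2),(k9,k2),(k10,k2)],[(k4,k2),(k7,k2)],[(k4,k2),(k7,k2)],[(k5,k2)],[(k2,k2)],[(k0,k2),(k3,k2)],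
    [(k0,k2),(k3,k2)],[(k1,k2),(k6,k2),(k9,k2),(k10,k2)],[(k1,k2),(k6,k2),(k9,k2),(k10,k2)],[(k8,k2),(k11,k2)],[(k8,
    k2),(k11,k2)],[(k1,k2),(k6,k2),(k9,k2),(k10,k2)]]
    [] k0
    []
    []]⟩

/-- classes `0 1 0 2 3 2`, types `B0 S0 B1 B0 S0 B1` -/
noncomputable def cT6_2279 : CertT :=
  ⟨[k8,k16,k9,k40,k48,k41],[],[[[]]],
    [.lp [k2,k2,k2,k2,k2,k2] [k0,k0,k0,k0,k0,k0,k0,k0,k0,k0,k0,k0] k0 [] k8 k5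
    [[(k6,k2),(k9,k2)],[(k4,k2),(k7,k2)],[(k4,k2),(k7,k2)],[(k2,k2),(k5,k2)],[(k2,k2),(k5,k2)],[(k0,k2),(k3,k2)],[(k0,
    k2),(k3,k2)],[(k1,k2),(k10,k2)],[(k1,k2),(k10,k2)],[(k8,k2),(k11,k2)],[(k8,k2),(k11,k2)],[(k6,k2),(k9,k2)]]
    [] k0
    []
    []]⟩

/-- classes `0 1 0 2 3 2`, types `B0 S0 B1 C0 C0 C0` -/
noncomputable def cT6_2280 : CertT :=
  ⟨[k8,k16,k9,k36,k52,k36],[],[[[]]],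
    [.lp [k2,k2,k2,k2,k2,k2] [k0,k0,k0,k0,k0,k0,k0,k0,k0,k0,k0,k0] k0 [] k8 k5
    [[(k6,k2),(k10,k2)],[(k4,k2),(k7,k2)],[(k4,k2),(k7,k2)],[(k2,k2),(k5,k2)],[(k2,k2),(k5,k2)],[(k0,k2),(k3,k2)],
    [(k0,k2),(k3,k2)],[(k1,k2),(k9,k2)],[(k6,k2),(k10,k2)],[(k11,k2)],[(k8,k2)],[(k1,k2),(k9,k2)]]
    [] k0
    []
    []]⟩

/-- classes `0 1 0 2 3 2`, types `B0 S0 B1 C0 C0 C2` -/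
noncomputable def cT6_2281 : CertT :=
  ⟨[k8,k16,k9,k36,k52,k38],[],[[[]]],
    [.lp [k2,k2,k2,k2,k2,k2] [k0,k0,k0,k0,k0,k0,k0,k0,k0,k0,k0,k0] k0 [] k8 k5
    [[(k9,k2),(k10,k2)],[(k4,k2),(k7,k2)],[(k4,k2),(k7,k2)],[(k2,k2),(k5,k2)],[(k2,k2),(k5,k2)],[(k0,k2),(k3,k2)],
    [(k0,k2),(k3,k2)],[(k9,k2),(k10,k2)],[(k1,k2),(k6,k2)],[(k11,k2)],[(k8,k2)],[(k1,k2),(k6,k2)]]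
    [] k0
    []
    []]⟩

/-- classes `0 1 0 2 3 2`, types `B0 S0 B1 C0 S0 C0` -/
noncomputable def cT6_2282 : CertT :=
  ⟨[k8,k16,k9,k36,k48,k36],[],[[[]]],
    [.lp [k2,k2,k2,k2,k2,k2] [k0,k0,k0,k0,k0,k0,k0,k0,k0,k0,k0,k0] k0 [] k8 k5
    [[(k6,k2),(k10,k2)],[(k4,k2),(k7,k2)],[(k4,k2),(k7,k2)],[(k2,k2),(k5,k2)],[(k2,k2),(k5,k2)],[(k0,k2),(k3,k2)],
    [(k0,k2),(k3,k2)],[(k1,k2),(k9,k2)],[(k6,k2),(k10,k2)],[(k8,k2),(k11,k2)],[(k8,k2),(k11,k2)],[(k1,k2),(k9,k2)]]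
    [] k0
    []
    []]⟩

/-- classes `0 1 0 2 3 2`, types `B0 S0 B1 C0 S0 C2` -/
noncomputable def cT6_2283 : CertT :=
  ⟨[k8,k16,k9,k36,k48,k38],[],[[[]]],
    [.lp [k2,k2,k2,k2,k2,k2] [k0,k0,k0,k0,k0,k0,k0,k0,k0,k0,k0,k0] k0 [] k8 k5
    [[(k9,k2),(k10,k2)],[(k4,k2),(k7,k2)],[(k4,k2),(k7,k2)],[(k2,k2),(k5,k2)],[(k2,k2),(k5,k2)],[(k0,k2),(k3,k2)],
    [(k0,k2),(k3,k2)],[(k9,k2),(k10,k2)],[(k1,k2),(k6,k2)],[(k8,k2),(k11,k2)],[(k8,k2),(k11,k2)],[(k1,k2),(k6,k2)]]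
    [] k0
    []
    []]⟩

/-- classes `0 1 0 2 3 2`, types `B0 S0 B1 N0 C0 N1` -/
noncomputable def cT6_2284 : CertT :=
  ⟨[k8,k16,k9,k44,k52,k45],[],[[[]]],
    [.lp [k2,k2,k2,k2,k4,k0] [k1,k1,k1,k1,k1,k1,k1,k1,k0,k0,k2,k2] k0 [] k8 k5
    [[(k6,k2)],[(k4,k2),(k7,k2)],[(k4,k2),(k7,k2)],[(k2,k2),(k5,k2)],[(k2,k2),(k5,k2)],[(k0,k2),(k3,k2)],[(k0,k2),(k3,
    k2)],[(k1,k2)],[(k10,k2)],[(k11,k2)],[(k8,k2)],[(k9,k2)]]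
    [] k0
    []
    []]⟩

/-- classes `0 1 0 2 3 2`, types `B0 S0 B1 N0 C0 N2` -/
noncomputable def cT6_2285 : CertT :=
  ⟨[k8,k16,k9,k44,k52,k46],[],[[[]]],
    [.lp [k2,k2,k2,k2,k2,k2] [k0,k0,k0,k0,k0,k0,k0,k0,k0,k0,k0,k0] k0 [] k8 k5
    [[(k9,k2)],[(k4,k2),(k7,k2)],[(k4,k2),(k7,k2)],[(k2,k2),(k5,k2)],[(k2,k2),(k5,k2)],[(k0,k2),(k3,k2)],[(k0,k2),(k3,
    k2)],[(k10,k2)],[(k1,k2)],[(k11,k2)],[(k8,k2)],[(k6,k2)]]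
    [] k0
    []
    []]⟩

/-- classes `0 1 0 2 3 2`, types `B0 S0 B1 N0 S0 N1` -/
noncomputable def cT6_2286 : CertT :=
  ⟨[k8,k16,k9,k44,k48,k45],[],[[[]]],
    [.lp [k2,k2,k2,k2,k2,k2] [k0,k0,k0,k0,k0,k0,k0,k0,k0,k0,k0,k0] k0 [] k8 k5
    [[(k6,k2)],[(k4,k2),(k7,k2)],[(k4,k2),(k7,k2)],[(k2,k2),(k5,k2)],[(k2,k2),(k5,k2)],[(k0,k2),(k3,k2)],[(k0,k2),(k3,
    k2)],[(k1,k2)],[(k10,k2)],[(k8,k2),(k11,k2)],[(k8,k2),(k11,k2)],[(k9,k2)]]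
    [] k0
    []
    []]⟩

/-- classes `0 1 0 2 3 2`, types `B0 S0 B1 N0 S0 N2` -/
noncomputable def cT6_2287 : CertT :=
  ⟨[k8,k16,k9,k44,k48,k46],[],[[[]]],
    [.lp [k2,k2,k2,k2,k2,k2] [k0,k0,k0,k0,k0,k0,k0,k0,k0,k0,k0,k0] k0 [] k8 k5
    [[(k9,k2)],[(k4,k2),(k7,k2)],[(k4,k2),(k7,k2)],[(k2,k2),(k5,k2)],[(k2,k2),(k5,k2)],[(k0,k2),(k3,k2)],[(k0,k2),(k3,
    k2)],[(k10,k2)],[(k1,k2)],[(k8,k2),(k11,k2)],[(k8,k2),(k11,k2)],[(k6,k2)]]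
    [] k0
    []
    []]⟩

/-- the certificates of this file -/
noncomputable def lT6_15 : List CertT :=
  [cT6_2078, cT6_2079, cT6_2080, cT6_2081, cT6_2082, cT6_2083, cT6_2084, cT6_2085, cT6_2086, cT6_2087,
      cT6_2088, cT6_2089, cT6_2090, cT6_2091, cT6_2092, cT6_2093, cT6_2094, cT6_2095, cT6_2096, cT6_2097,
      cT6_2098, cT6_2099, cT6_2100, cT6_2101, cT6_2102, cT6_2103, cT6_2104, cT6_2105, cT6_2106, cT6_2107,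
      cT6_2108, cT6_2109, cT6_2110, cT6_2111, cT6_2112, cT6_2113, cT6_2114, cT6_2115, cT6_2116, cT6_2117,
      cT6_2118, cT6_2119, cT6_2120, cT6_2121, cT6_2122, cT6_2123, cT6_2124, cT6_2125, cT6_2126, cT6_2127,
      cT6_2128, cT6_2129, cT6_2130, cT6_2131, cT6_2132, cT6_2133, cT6_2134, cT6_2135, cT6_2136, cT6_2137,
      cT6_2138, cT6_2139, cT6_2140, cT6_2141, cT6_2142, cT6_2143, cT6_2144, cT6_2145, cT6_2146, cT6_2147,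
      cT6_2148, cT6_2149, cT6_2150, cT6_2151, cT6_2152, cT6_2153, cT6_2154, cT6_2155, cT6_2156, cT6_2157,
      cT6_2158, cT6_2159, cT6_2160, cT6_2161, cT6_2162, cT6_2163, cT6_2164, cT6_2165, cT6_2166, cT6_2167,
      cT6_2168, cT6_2169, cT6_2170, cT6_2171, cT6_2172, cT6_2173, cT6_2174, cT6_2175, cT6_2176, cT6_2177,
      cT6_2178, cT6_2179, cT6_2180, cT6_2181, cT6_2182, cT6_2183, cT6_2184, cT6_2185, cT6_2186, cT6_2187,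
      cT6_2188, cT6_2189, cT6_2190, cT6_2191, cT6_2192, cT6_2193, cT6_2194, cT6_2195, cT6_2196, cT6_2197,
      cT6_2198, cT6_2199, cT6_2200, cT6_2201, cT6_2202, cT6_2203, cT6_2204, cT6_2205, cT6_2206, cT6_2207,
      cT6_2208, cT6_2209, cT6_2210, cT6_2211, cT6_2212, cT6_2213, cT6_2214, cT6_2215, cT6_2216, cT6_2217,
      cT6_2218, cT6_2219, cT6_2220, cT6_2221, cT6_2222, cT6_2223, cT6_2224, cT6_2225, cT6_2226, cT6_2227,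
      cT6_2228, cT6_2229, cT6_2230, cT6_2231, cT6_2232, cT6_2233, cT6_2234, cT6_2235, cT6_2236, cT6_2237,
      cT6_2238, cT6_2239, cT6_2240, cT6_2241, cT6_2242, cT6_2243, cT6_2244, cT6_2245, cT6_2246, cT6_2247,
      cT6_2248, cT6_2249, cT6_2250, cT6_2251, cT6_2252, cT6_2253, cT6_2254, cT6_2255, cT6_2256, cT6_2257,
      cT6_2258, cT6_2259, cT6_2260, cT6_2261, cT6_2262, cT6_2263, cT6_2264, cT6_2265, cT6_2266, cT6_2267,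
      cT6_2268, cT6_2269, cT6_2270, cT6_2271, cT6_2272, cT6_2273, cT6_2274, cT6_2275, cT6_2276, cT6_2277,
      cT6_2278, cT6_2279, cT6_2280, cT6_2281, cT6_2282, cT6_2283, cT6_2284, cT6_2285, cT6_2286, cT6_2287]

theorem gT6_15 : allF (chkC 6 tt6) lT6_15 = true := by
  decide +kernel

end Pool.Agent.Lib_MP_fa6e45
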