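import Pool.Agent.Lib_MP_fa6e45.CSTT
import Pool.Agent.Lib_MP_fa6e45.HK

/-!
MP_fa6e45_co, stage 5: certificates (captain, generated by a program).
-/

namespace Pool.Agent.Lib_MP_fa6e45

/-- classes `0 1 0 2 3 2`, types `B0 S0 B1 S0 C0 S0` -/
noncomputable def cT6_2288 : CertT :=
  ⟨[k8,k16,k9,k32,k52,k32],[],[[[]]],
    [.lp [k2,k2,k2,k2,k2,k2] [k0,k0,k0,k0,k0,k0,k0,k0,k0,k0,k0,k0] k0 [] k8 k5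
    [[(k1,k2),(k6,k2),(k9,k2),(k10,k2)],[(k4,k2),(k7,k2)],[(k4,k2),(k7,k2)],[(k2,k2),(k5,k2)],[(k2,k2),(k5,k2)],[(k0,
    k2),(k3,k2)],[(k0,k2),(k3,k2)],[(k1,k2),(k6,k2),(k9,k2),(k10,k2)],[(k1,k2),(k6,k2),(k9,k2),(k10,k2)],[(k11,k2)],
    [(k8,k2)],[(k1,k2),(k6,k2),(k9,k2),(k10,k2)]]
    [] k0
    []
    []]⟩

/-- classes `0 1 0 2 3 2`, types `B0 S0 B1 S0 S0 S0` -/
noncomputable def cT6_2289 : CertT :=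
  ⟨[k8,k16,k9,k32,k48,k32],[],[[[]]],
    [.lp [k2,k2,k2,k2,k2,k2] [k0,k0,k0,k0,k0,k0,k0,k0,k0,k0,k0,k0] k0 [] k8 k5
    [[(k1,k2),(k6,k2),(k9,k2),(k10,k2)],[(k4,k2),(k7,k2)],[(k4,k2),(k7,k2)],[(k2,k2),(k5,k2)],[(k2,k2),(k5,k2)],[(k0,
    k2),(k3,k2)],[(k0,k2),(k3,k2)],[(k1,k2),(k6,k2),(k9,k2),(k10,k2)],[(k1,k2),(k6,k2),(k9,k2),(k10,k2)],[(k8,k2),
    (k11,k2)],[(k8,k2),(k11,k2)],[(k1,k2),(k6,k2),(k9,k2),(k10,k2)]]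
    [] k0
    []
    []]⟩

/-- classes `0 1 0 2 3 2`, types `C0 C0 C0 C0 C0 C0` -/
noncomputable def cT6_2290 : CertT :=
  ⟨[k4,k20,k4,k36,k52,k36],[],[[[]]],
    [.lp [k0,k2,k0,k2,k0,k2] [k1,k1,k0,k0,k1,k1,k0,k0,k1,k1,k0,k0] k0 [] k4 k5
    [[(k6,k1),(k10,k1)],[(k3,k1),(k7,k1)],[(k0,k1),(k4,k1)],[(k5,k1)],[(k2,k1)],[(k3,k1),(k7,k1)],[(k0,k1),(k4,k1)],
    [(k1,k1),(k9,k1)],[(k6,k1),(k10,k1)],[(k11,k1)],[(k8,k1)],[(k1,k1),(k9,k1)]]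
    [] k0
    []
    []]⟩

/-- classes `0 1 0 2 3 2`, types `C0 C0 C0 C0 C0 C2` -/
noncomputable def cT6_2291 : CertT :=
  ⟨[k4,k20,k4,k36,k52,k38],[],[[[]]],
    [.lp [k2,k2,k2,k2,k2,k2] [k0,k0,k0,k0,k0,k0,k0,k0,k0,k0,k0,k0] k0 [] k8 k5
    [[(k9,k2),(k10,k2)],[(k3,k2),(k7,k2)],[(k0,k2),(k4,k2)],[(k5,k2)],[(k2,k2)],[(k3,k2),(k7,k2)],[(k0,k2),(k4,k2)],
    [(k9,k2),(k10,k2)],[(k1,k2),(k6,k2)],[(k11,k2)],[(k8,k2)],[(k1,k2),(k6,k2)]]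
    [] k0
    []
    []]⟩

/-- classes `0 1 0 2 3 2`, types `C0 C0 C0 C0 S0 C0` -/
noncomputable def cT6_2292 : CertT :=
  ⟨[k4,k20,k4,k36,k48,k36],[],[[[]]],
    [.lp [k2,k2,k2,k2,k2,k2] [k0,k0,k0,k0,k0,k0,k0,k0,k0,k0,k0,k0] k0 [] k8 k5
    [[(k6,k2),(k10,k2)],[(k3,k2),(k7,k2)],[(k0,k2),(k4,k2)],[(k5,k2)],[(k2,k2)],[(k3,k2),(k7,k2)],[(k0,k2),(k4,k2)],
    [(k1,k2),(k9,k2)],[(k6,k2),(k10,k2)],[(k8,k2),(k11,k2)],[(k8,k2),(k11,k2)],[(k1,k2),(k9,k2)]]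
    [] k0
    []
    []]⟩

/-- classes `0 1 0 2 3 2`, types `C0 C0 C0 C0 S0 C2` -/
noncomputable def cT6_2293 : CertT :=
  ⟨[k4,k20,k4,k36,k48,k38],[],[[[]]],
    [.lp [k2,k2,k2,k2,k2,k2] [k0,k0,k0,k0,k0,k0,k0,k0,k0,k0,k0,k0] k0 [] k8 k5
    [[(k9,k2),(k10,k2)],[(k3,k2),(k7,k2)],[(k0,k2),(k4,k2)],[(k5,k2)],[(k2,k2)],[(k3,k2),(k7,k2)],[(k0,k2),(k4,k2)],
    [(k9,k2),(k10,k2)],[(k1,k2),(k6,k2)],[(k8,k2),(k11,k2)],[(k8,k2),(k11,k2)],[(k1,k2),(k6,k2)]]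
    [] k0
    []
    []]⟩

/-- classes `0 1 0 2 3 2`, types `C0 C0 C0 N0 C0 N1` -/
noncomputable def cT6_2294 : CertT :=
  ⟨[k4,k20,k4,k44,k52,k45],[],[[[]]],
    [.lp [k0,k2,k0,k2,k0,k2] [k1,k1,k0,k0,k1,k1,k0,k0,k1,k1,k0,k0] k0 [] k4 k5
    [[(k6,k1)],[(k3,k1),(k7,k1)],[(k0,k1),(k4,k1)],[(k5,k1)],[(k2,k1)],[(k3,k1),(k7,k1)],[(k0,k1),(k4,k1)],[(k1,k1)],
    [(k10,k1)],[(k11,k1)],[(k8,k1)],[(k9,k1)]]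
    [] k0
    []
    []]⟩

/-- classes `0 1 0 2 3 2`, types `C0 C0 C0 N0 C0 N2` -/
noncomputable def cT6_2295 : CertT :=
  ⟨[k4,k20,k4,k44,k52,k46],[],[[[]]],
    [.lp [k0,k2,k0,k2,k2,k0] [k1,k1,k0,k0,k1,k1,k0,k0,k0,k0,k1,k1] k0 [] k4 k5
    [[(k9,k1)],[(k3,k1),(k7,k1)],[(k0,k1),(k4,k1)],[(k5,k1)],[(k2,k1)],[(k3,k1),(k7,k1)],[(k0,k1),(k4,k1)],[(k10,k1)],
    [(k1,k1)],[(k11,k1)],[(k8,k1)],[(k6,k1)]]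
    [] k0
    []
    []]⟩

/-- classes `0 1 0 2 3 2`, types `C0 C0 C0 N0 S0 N1` -/
noncomputable def cT6_2296 : CertT :=
  ⟨[k4,k20,k4,k44,k48,k45],[],[[[]]],
    [.lp [k0,k4,k0,k4,k2,k2] [k2,k2,k0,k0,k2,k2,k0,k0,k1,k1,k1,k1] k0 [] k8 k5
    [[(k6,k2)],[(k3,k2),(k7,k2)],[(k0,k2),(k4,k2)],[(k5,k2)],[(k2,k2)],[(k3,k2),(k7,k2)],[(k0,k2),(k4,k2)],[(k1,k2)],
    [(k10,k2)],[(k8,k2),(k11,k2)],[(k8,k2),(k11,k2)],[(k9,k2)]]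
    [] k0
    []
    []]⟩

/-- classes `0 1 0 2 3 2`, types `C0 C0 C0 N0 S0 N2` -/
noncomputable def cT6_2297 : CertT :=
  ⟨[k4,k20,k4,k44,k48,k46],[],[[[]]],
    [.lp [k2,k2,k2,k2,k2,k2] [k0,k0,k0,k0,k0,k0,k0,k0,k0,k0,k0,k0] k0 [] k8 k5
    [[(k9,k2)],[(k3,k2),(k7,k2)],[(k0,k2),(k4,k2)],[(k5,k2)],[(k2,k2)],[(k3,k2),(k7,k2)],[(k0,k2),(k4,k2)],[(k10,k2)],
    [(k1,k2)],[(k8,k2),(k11,k2)],[(k8,k2),(k11,k2)],[(k6,k2)]]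
    [] k0
    []
    []]⟩

/-- classes `0 1 0 2 3 2`, types `C0 C0 C0 S0 C0 S0` -/
noncomputable def cT6_2298 : CertT :=
  ⟨[k4,k20,k4,k32,k52,k32],[],[[[]]],
    [.lp [k2,k2,k2,k2,k2,k2] [k0,k0,k0,k0,k0,k0,k0,k0,k0,k0,k0,k0] k0 [] k8 k5
    [[(k1,k2),(k6,k2),(k9,k2),(k10,k2)],[(k3,k2),(k7,k2)],[(k0,k2),(k4,k2)],[(k5,k2)],[(k2,k2)],[(k3,k2),(k7,k2)],
    [(k0,k2),(k4,k2)],[(k1,k2),(k6,k2),(k9,k2),(k10,k2)],[(k1,k2),(k6,k2),(k9,k2),(k10,k2)],[(k11,k2)],[(k8,k2)],[(k1,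
    k2),(k6,k2),(k9,k2),(k10,k2)]]
    [] k0
    []
    []]⟩

/-- classes `0 1 0 2 3 2`, types `C0 C0 C0 S0 S0 S0` -/
noncomputable def cT6_2299 : CertT :=
  ⟨[k4,k20,k4,k32,k48,k32],[],[[[]]],
    [.lp [k2,k2,k2,k2,k2,k2] [k0,k0,k0,k0,k0,k0,k0,k0,k0,k0,k0,k0] k0 [] k8 k5
    [[(k1,k2),(k6,k2),(k9,k2),(k10,k2)],[(k3,k2),(k7,k2)],[(k0,k2),(k4,k2)],[(k5,k2)],[(k2,k2)],[(k3,k2),(k7,k2)],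
    [(k0,k2),(k4,k2)],[(k1,k2),(k6,k2),(k9,k2),(k10,k2)],[(k1,k2),(k6,k2),(k9,k2),(k10,k2)],[(k8,k2),(k11,k2)],[(k8,
    k2),(k11,k2)],[(k1,k2),(k6,k2),(k9,k2),(k10,k2)]]
    [] k0
    []
    []]⟩

/-- classes `0 1 0 2 3 2`, types `C0 C0 C2 C0 C0 C2` -/
noncomputable def cT6_2300 : CertT :=
  ⟨[k4,k20,k6,k36,k52,k38],[],[[[]]],
    [.lp [k2,k2,k2,k2,k2,k2] [k0,k0,k0,k0,k0,k0,k0,k0,k0,k0,k0,k0] k0 [] k8 k5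
    [[(k9,k2),(k10,k2)],[(k3,k2),(k4,k2)],[(k0,k2),(k7,k2)],[(k5,k2)],[(k2,k2)],[(k0,k2),(k7,k2)],[(k3,k2),(k4,k2)],
    [(k9,k2),(k10,k2)],[(k1,k2),(k6,k2)],[(k11,k2)],[(k8,k2)],[(k1,k2),(k6,k2)]]
    [] k0
    []
    []]⟩

/-- classes `0 1 0 2 3 2`, types `C0 C0 C2 C0 S0 C0` -/
noncomputable def cT6_2301 : CertT :=
  ⟨[k4,k20,k6,k36,k48,k36],[],[[[]]],
    [.lp [k2,k2,k2,k2,k2,k2] [k0,k0,k0,k0,k0,k0,k0,k0,k0,k0,k0,k0] k0 [] k8 k5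
    [[(k6,k2),(k10,k2)],[(k3,k2),(k4,k2)],[(k0,k2),(k7,k2)],[(k5,k2)],[(k2,k2)],[(k0,k2),(k7,k2)],[(k3,k2),(k4,k2)],
    [(k1,k2),(k9,k2)],[(k6,k2),(k10,k2)],[(k8,k2),(k11,k2)],[(k8,k2),(k11,k2)],[(k1,k2),(k9,k2)]]
    [] k0
    []
    []]⟩

/-- classes `0 1 0 2 3 2`, types `C0 C0 C2 C0 S0 C2` -/
noncomputable def cT6_2302 : CertT :=
  ⟨[k4,k20,k6,k36,k48,k38],[],[[[]]],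
    [.lp [k2,k2,k2,k2,k2,k2] [k0,k0,k0,k0,k0,k0,k0,k0,k0,k0,k0,k0] k0 [] k8 k5
    [[(k9,k2),(k10,k2)],[(k3,k2),(k4,k2)],[(k0,k2),(k7,k2)],[(k5,k2)],[(k2,k2)],[(k0,k2),(k7,k2)],[(k3,k2),(k4,k2)],
    [(k9,k2),(k10,k2)],[(k1,k2),(k6,k2)],[(k8,k2),(k11,k2)],[(k8,k2),(k11,k2)],[(k1,k2),(k6,k2)]]
    [] k0
    []
    []]⟩

/-- classes `0 1 0 2 3 2`, types `C0 C0 C2 N0 C0 N1` -/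
noncomputable def cT6_2303 : CertT :=
  ⟨[k4,k20,k6,k44,k52,k45],[],[[[]]],
    [.lp [k2,k2,k2,k2,k0,k4] [k1,k1,k1,k1,k1,k1,k1,k1,k2,k2,k0,k0] k0 [] k8 k5
    [[(k6,k2)],[(k3,k2),(k4,k2)],[(k0,k2),(k7,k2)],[(k5,k2)],[(k2,k2)],[(k0,k2),(k7,k2)],[(k3,k2),(k4,k2)],[(k1,k2)],
    [(k10,k2)],[(k11,k2)],[(k8,k2)],[(k9,k2)]]
    [] k0
    []
    []]⟩

/-- classes `0 1 0 2 3 2`, types `C0 C0 C2 N0 C0 N2` -/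
noncomputable def cT6_2304 : CertT :=
  ⟨[k4,k20,k6,k44,k52,k46],[],[[[]]],
    [.lp [k2,k2,k2,k2,k2,k2] [k0,k0,k0,k0,k0,k0,k0,k0,k0,k0,k0,k0] k0 [] k8 k5
    [[(k9,k2)],[(k3,k2),(k4,k2)],[(k0,k2),(k7,k2)],[(k5,k2)],[(k2,k2)],[(k0,k2),(k7,k2)],[(k3,k2),(k4,k2)],[(k10,k2)],
    [(k1,k2)],[(k11,k2)],[(k8,k2)],[(k6,k2)]]
    [] k0
    []
    []]⟩

/-- classes `0 1 0 2 3 2`, types `C0 C0 C2 N0 S0 N1` -/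
noncomputable def cT6_2305 : CertT :=
  ⟨[k4,k20,k6,k44,k48,k45],[],[[[]]],
    [.lp [k2,k2,k2,k2,k2,k2] [k0,k0,k0,k0,k0,k0,k0,k0,k0,k0,k0,k0] k0 [] k8 k5
    [[(k6,k2)],[(k3,k2),(k4,k2)],[(k0,k2),(k7,k2)],[(k5,k2)],[(k2,k2)],[(k0,k2),(k7,k2)],[(k3,k2),(k4,k2)],[(k1,k2)],
    [(k10,k2)],[(k8,k2),(k11,k2)],[(k8,k2),(k11,k2)],[(k9,k2)]]
    [] k0
    []
    []]⟩

/-- classes `0 1 0 2 3 2`, types `C0 C0 C2 N0 S0 N2` -/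
noncomputable def cT6_2306 : CertT :=
  ⟨[k4,k20,k6,k44,k48,k46],[],[[[]]],
    [.lp [k2,k2,k2,k2,k2,k2] [k0,k0,k0,k0,k0,k0,k0,k0,k0,k0,k0,k0] k0 [] k8 k5
    [[(k9,k2)],[(k3,k2),(k4,k2)],[(k0,k2),(k7,k2)],[(k5,k2)],[(k2,k2)],[(k0,k2),(k7,k2)],[(k3,k2),(k4,k2)],[(k10,k2)],
    [(k1,k2)],[(k8,k2),(k11,k2)],[(k8,k2),(k11,k2)],[(k6,k2)]]
    [] k0
    []
    []]⟩

/-- classes `0 1 0 2 3 2`, types `C0 C0 C2 S0 C0 S0` -/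
noncomputable def cT6_2307 : CertT :=
  ⟨[k4,k20,k6,k32,k52,k32],[],[[[]]],
    [.lp [k2,k2,k2,k2,k2,k2] [k0,k0,k0,k0,k0,k0,k0,k0,k0,k0,k0,k0] k0 [] k8 k5
    [[(k1,k2),(k6,k2),(k9,k2),(k10,k2)],[(k3,k2),(k4,k2)],[(k0,k2),(k7,k2)],[(k5,k2)],[(k2,k2)],[(k0,k2),(k7,k2)],
    [(k3,k2),(k4,k2)],[(k1,k2),(k6,k2),(k9,k2),(k10,k2)],[(k1,k2),(k6,k2),(k9,k2),(k10,k2)],[(k11,k2)],[(k8,k2)],[(k1,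
    k2),(k6,k2),(k9,k2),(k10,k2)]]
    [] k0
    []
    []]⟩

/-- classes `0 1 0 2 3 2`, types `C0 C0 C2 S0 S0 S0` -/
noncomputable def cT6_2308 : CertT :=
  ⟨[k4,k20,k6,k32,k48,k32],[],[[[]]],
    [.lp [k2,k2,k2,k2,k2,k2] [k0,k0,k0,k0,k0,k0,k0,k0,k0,k0,k0,k0] k0 [] k8 k5
    [[(k1,k2),(k6,k2),(k9,k2),(k10,k2)],[(k3,k2),(k4,k2)],[(k0,k2),(k7,k2)],[(k5,k2)],[(k2,k2)],[(k0,k2),(k7,k2)],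
    [(k3,k2),(k4,k2)],[(k1,k2),(k6,k2),(k9,k2),(k10,k2)],[(k1,k2),(k6,k2),(k9,k2),(k10,k2)],[(k8,k2),(k11,k2)],[(k8,
    k2),(k11,k2)],[(k1,k2),(k6,k2),(k9,k2),(k10,k2)]]
    [] k0
    []
    []]⟩

/-- classes `0 1 0 2 3 2`, types `C0 S0 C0 C0 S0 C0` -/
noncomputable def cT6_2309 : CertT :=
  ⟨[k4,k16,k4,k36,k48,k36],[],[[[]]],
    [.lp [k2,k2,k2,k2,k2,k2] [k0,k0,k0,k0,k0,k0,k0,k0,k0,k0,k0,k0] k0 [] k8 k5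
    [[(k6,k2),(k10,k2)],[(k3,k2),(k7,k2)],[(k0,k2),(k4,k2)],[(k2,k2),(k5,k2)],[(k2,k2),(k5,k2)],[(k3,k2),(k7,k2)],
    [(k0,k2),(k4,k2)],[(k1,k2),(k9,k2)],[(k6,k2),(k10,k2)],[(k8,k2),(k11,k2)],[(k8,k2),(k11,k2)],[(k1,k2),(k9,k2)]]
    [] k0
    []
    []]⟩

/-- classes `0 1 0 2 3 2`, types `C0 S0 C0 C0 S0 C2` -/
noncomputable def cT6_2310 : CertT :=
  ⟨[k4,k16,k4,k36,k48,k38],[],[[[]]],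
    [.lp [k2,k2,k2,k2,k2,k2] [k0,k0,k0,k0,k0,k0,k0,k0,k0,k0,k0,k0] k0 [] k8 k5
    [[(k9,k2),(k10,k2)],[(k3,k2),(k7,k2)],[(k0,k2),(k4,k2)],[(k2,k2),(k5,k2)],[(k2,k2),(k5,k2)],[(k3,k2),(k7,k2)],
    [(k0,k2),(k4,k2)],[(k9,k2),(k10,k2)],[(k1,k2),(k6,k2)],[(k8,k2),(k11,k2)],[(k8,k2),(k11,k2)],[(k1,k2),(k6,k2)]]
    [] k0
    []
    []]⟩

/-- classes `0 1 0 2 3 2`, types `C0 S0 C0 N0 C0 N1` -/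
noncomputable def cT6_2311 : CertT :=
  ⟨[k4,k16,k4,k44,k52,k45],[],[[[]]],
    [.lp [k2,k2,k2,k2,k4,k0] [k1,k1,k1,k1,k1,k1,k1,k1,k0,k0,k2,k2] k0 [] k8 k5
    [[(k6,k2)],[(k3,k2),(k7,k2)],[(k0,k2),(k4,k2)],[(k2,k2),(k5,k2)],[(k2,k2),(k5,k2)],[(k3,k2),(k7,k2)],[(k0,k2),(k4,
    k2)],[(k1,k2)],[(k10,k2)],[(k11,k2)],[(k8,k2)],[(k9,k2)]]
    [] k0
    []
    []]⟩

/-- classes `0 1 0 2 3 2`, types `C0 S0 C0 N0 C0 N2` -/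
noncomputable def cT6_2312 : CertT :=
  ⟨[k4,k16,k4,k44,k52,k46],[],[[[]]],
    [.lp [k2,k2,k2,k2,k2,k2] [k0,k0,k0,k0,k0,k0,k0,k0,k0,k0,k0,k0] k0 [] k8 k5
    [[(k9,k2)],[(k3,k2),(k7,k2)],[(k0,k2),(k4,k2)],[(k2,k2),(k5,k2)],[(k2,k2),(k5,k2)],[(k3,k2),(k7,k2)],[(k0,k2),(k4,
    k2)],[(k10,k2)],[(k1,k2)],[(k11,k2)],[(k8,k2)],[(k6,k2)]]
    [] k0
    []
    []]⟩

/-- classes `0 1 0 2 3 2`, types `C0 S0 C0 N0 S0 N1` -/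
noncomputable def cT6_2313 : CertT :=
  ⟨[k4,k16,k4,k44,k48,k45],[],[[[]]],
    [.lp [k2,k2,k2,k2,k2,k2] [k0,k0,k0,k0,k0,k0,k0,k0,k0,k0,k0,k0] k0 [] k8 k5
    [[(k6,k2)],[(k3,k2),(k7,k2)],[(k0,k2),(k4,k2)],[(k2,k2),(k5,k2)],[(k2,k2),(k5,k2)],[(k3,k2),(k7,k2)],[(k0,k2),(k4,
    k2)],[(k1,k2)],[(k10,k2)],[(k8,k2),(k11,k2)],[(k8,k2),(k11,k2)],[(k9,k2)]]
    [] k0
    []
    []]⟩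

/-- classes `0 1 0 2 3 2`, types `C0 S0 C0 N0 S0 N2` -/
noncomputable def cT6_2314 : CertT :=
  ⟨[k4,k16,k4,k44,k48,k46],[],[[[]]],
    [.lp [k2,k2,k2,k2,k2,k2] [k0,k0,k0,k0,k0,k0,k0,k0,k0,k0,k0,k0] k0 [] k8 k5
    [[(k9,k2)],[(k3,k2),(k7,k2)],[(k0,k2),(k4,k2)],[(k2,k2),(k5,k2)],[(k2,k2),(k5,k2)],[(k3,k2),(k7,k2)],[(k0,k2),(k4,
    k2)],[(k10,k2)],[(k1,k2)],[(k8,k2),(k11,k2)],[(k8,k2),(k11,k2)],[(k6,k2)]]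
    [] k0
    []
    []]⟩

/-- classes `0 1 0 2 3 2`, types `C0 S0 C0 S0 C0 S0` -/
noncomputable def cT6_2315 : CertT :=
  ⟨[k4,k16,k4,k32,k52,k32],[],[[[]]],
    [.lp [k2,k2,k2,k2,k2,k2] [k0,k0,k0,k0,k0,k0,k0,k0,k0,k0,k0,k0] k0 [] k8 k5
    [[(k1,k2),(k6,k2),(k9,k2),(k10,k2)],[(k3,k2),(k7,k2)],[(k0,k2),(k4,k2)],[(k2,k2),(k5,k2)],[(k2,k2),(k5,k2)],[(k3,
    k2),(k7,k2)],[(k0,k2),(k4,k2)],[(k1,k2),(k6,k2),(k9,k2),(k10,k2)],[(k1,k2),(k6,k2),(k9,k2),(k10,k2)],[(k11,k2)],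
    [(k8,k2)],[(k1,k2),(k6,k2),(k9,k2),(k10,k2)]]
    [] k0
    []
    []]⟩

/-- classes `0 1 0 2 3 2`, types `C0 S0 C0 S0 S0 S0` -/
noncomputable def cT6_2316 : CertT :=
  ⟨[k4,k16,k4,k32,k48,k32],[],[[[]]],
    [.lp [k2,k2,k2,k2,k2,k2] [k0,k0,k0,k0,k0,k0,k0,k0,k0,k0,k0,k0] k0 [] k8 k5
    [[(k1,k2),(k6,k2),(k9,k2),(k10,k2)],[(k3,k2),(k7,k2)],[(k0,k2),(k4,k2)],[(k2,k2),(k5,k2)],[(k2,k2),(k5,k2)],[(k3,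
    k2),(k7,k2)],[(k0,k2),(k4,k2)],[(k1,k2),(k6,k2),(k9,k2),(k10,k2)],[(k1,k2),(k6,k2),(k9,k2),(k10,k2)],[(k8,k2),
    (k11,k2)],[(k8,k2),(k11,k2)],[(k1,k2),(k6,k2),(k9,k2),(k10,k2)]]
    [] k0
    []
    []]⟩

/-- classes `0 1 0 2 3 2`, types `C0 S0 C2 C0 S0 C2` -/
noncomputable def cT6_2317 : CertT :=
  ⟨[k4,k16,k6,k36,k48,k38],[],[[[]]],
    [.lp [k2,k2,k2,k2,k2,k2] [k0,k0,k0,k0,k0,k0,k0,k0,k0,k0,k0,k0] k0 [] k8 k5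
    [[(k9,k2),(k10,k2)],[(k3,k2),(k4,k2)],[(k0,k2),(k7,k2)],[(k2,k2),(k5,k2)],[(k2,k2),(k5,k2)],[(k0,k2),(k7,k2)],
    [(k3,k2),(k4,k2)],[(k9,k2),(k10,k2)],[(k1,k2),(k6,k2)],[(k8,k2),(k11,k2)],[(k8,k2),(k11,k2)],[(k1,k2),(k6,k2)]]
    [] k0
    []
    []]⟩

/-- classes `0 1 0 2 3 2`, types `C0 S0 C2 N0 C0 N1` -/
noncomputable def cT6_2318 : CertT :=
  ⟨[k4,k16,k6,k44,k52,k45],[],[[[]]],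
    [.lp [k2,k2,k2,k2,k4,k0] [k1,k1,k1,k1,k1,k1,k1,k1,k0,k0,k2,k2] k0 [] k8 k5
    [[(k6,k2)],[(k3,k2),(k4,k2)],[(k0,k2),(k7,k2)],[(k2,k2),(k5,k2)],[(k2,k2),(k5,k2)],[(k0,k2),(k7,k2)],[(k3,k2),(k4,
    k2)],[(k1,k2)],[(k10,k2)],[(k11,k2)],[(k8,k2)],[(k9,k2)]]
    [] k0
    []
    []]⟩

/-- classes `0 1 0 2 3 2`, types `C0 S0 C2 N0 C0 N2` -/
noncomputable def cT6_2319 : CertT :=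
  ⟨[k4,k16,k6,k44,k52,k46],[],[[[]]],
    [.lp [k2,k2,k2,k2,k2,k2] [k0,k0,k0,k0,k0,k0,k0,k0,k0,k0,k0,k0] k0 [] k8 k5
    [[(k9,k2)],[(k3,k2),(k4,k2)],[(k0,k2),(k7,k2)],[(k2,k2),(k5,k2)],[(k2,k2),(k5,k2)],[(k0,k2),(k7,k2)],[(k3,k2),(k4,
    k2)],[(k10,k2)],[(k1,k2)],[(k11,k2)],[(k8,k2)],[(k6,k2)]]
    [] k0
    []
    []]⟩

/-- classes `0 1 0 2 3 2`, types `C0 S0 C2 N0 S0 N1` -/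
noncomputable def cT6_2320 : CertT :=
  ⟨[k4,k16,k6,k44,k48,k45],[],[[[]]],
    [.lp [k2,k2,k2,k2,k2,k2] [k0,k0,k0,k0,k0,k0,k0,k0,k0,k0,k0,k0] k0 [] k8 k5
    [[(k6,k2)],[(k3,k2),(k4,k2)],[(k0,k2),(k7,k2)],[(k2,k2),(k5,k2)],[(k2,k2),(k5,k2)],[(k0,k2),(k7,k2)],[(k3,k2),(k4,
    k2)],[(k1,k2)],[(k10,k2)],[(k8,k2),(k11,k2)],[(k8,k2),(k11,k2)],[(k9,k2)]]
    [] k0
    []
    []]⟩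

/-- classes `0 1 0 2 3 2`, types `C0 S0 C2 N0 S0 N2` -/
noncomputable def cT6_2321 : CertT :=
  ⟨[k4,k16,k6,k44,k48,k46],[],[[[]]],
    [.lp [k2,k2,k2,k2,k2,k2] [k0,k0,k0,k0,k0,k0,k0,k0,k0,k0,k0,k0] k0 [] k8 k5
    [[(k9,k2)],[(k3,k2),(k4,k2)],[(k0,k2),(k7,k2)],[(k2,k2),(k5,k2)],[(k2,k2),(k5,k2)],[(k0,k2),(k7,k2)],[(k3,k2),(k4,
    k2)],[(k10,k2)],[(k1,k2)],[(k8,k2),(k11,k2)],[(k8,k2),(k11,k2)],[(k6,k2)]]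
    [] k0
    []
    []]⟩

/-- classes `0 1 0 2 3 2`, types `C0 S0 C2 S0 C0 S0` -/
noncomputable def cT6_2322 : CertT :=
  ⟨[k4,k16,k6,k32,k52,k32],[],[[[]]],
    [.lp [k2,k2,k2,k2,k2,k2] [k0,k0,k0,k0,k0,k0,k0,k0,k0,k0,k0,k0] k0 [] k8 k5
    [[(k1,k2),(k6,k2),(k9,k2),(k10,k2)],[(k3,k2),(k4,k2)],[(k0,k2),(k7,k2)],[(k2,k2),(k5,k2)],[(k2,k2),(k5,k2)],[(k0,
    k2),(k7,k2)],[(k3,k2),(k4,k2)],[(k1,k2),(k6,k2),(k9,k2),(k10,k2)],[(k1,k2),(k6,k2),(k9,k2),(k10,k2)],[(k11,k2)],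
    [(k8,k2)],[(k1,k2),(k6,k2),(k9,k2),(k10,k2)]]
    [] k0
    []
    []]⟩

/-- classes `0 1 0 2 3 2`, types `C0 S0 C2 S0 S0 S0` -/
noncomputable def cT6_2323 : CertT :=
  ⟨[k4,k16,k6,k32,k48,k32],[],[[[]]],
    [.lp [k2,k2,k2,k2,k2,k2] [k0,k0,k0,k0,k0,k0,k0,k0,k0,k0,k0,k0] k0 [] k8 k5
    [[(k1,k2),(k6,k2),(k9,k2),(k10,k2)],[(k3,k2),(k4,k2)],[(k0,k2),(k7,k2)],[(k2,k2),(k5,k2)],[(k2,k2),(k5,k2)],[(k0,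
    k2),(k7,k2)],[(k3,k2),(k4,k2)],[(k1,k2),(k6,k2),(k9,k2),(k10,k2)],[(k1,k2),(k6,k2),(k9,k2),(k10,k2)],[(k8,k2),
    (k11,k2)],[(k8,k2),(k11,k2)],[(k1,k2),(k6,k2),(k9,k2),(k10,k2)]]
    [] k0
    []
    []]⟩

/-- classes `0 1 0 2 3 2`, types `N0 C0 N1 N0 C0 N1` -/
noncomputable def cT6_2324 : CertT :=
  ⟨[k12,k20,k13,k44,k52,k45],[],[[[]]],
    [.lp [k2,k2,k0,k0,k0,k2] [k0,k0,k0,k0,k1,k1,k1,k1,k1,k1,k0,k0] k0 [] k4 k5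
    [[(k6,k1)],[(k7,k1)],[(k4,k1)],[(k5,k1)],[(k2,k1)],[(k3,k1)],[(k0,k1)],[(k1,k1)],[(k10,k1)],[(k11,k1)],[(k8,k1)],
    [(k9,k1)]]
    [] k0
    []
    []]⟩

/-- classes `0 1 0 2 3 2`, types `N0 C0 N1 N0 C0 N2` -/
noncomputable def cT6_2325 : CertT :=
  ⟨[k12,k20,k13,k44,k52,k46],[],[[[]]],
    [.lp [k2,k2,k0,k0,k0,k2] [k0,k0,k0,k0,k1,k1,k1,k1,k1,k1,k0,k0] k0 [] k4 k5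
    [[(k9,k1)],[(k7,k1)],[(k4,k1)],[(k5,k1)],[(k2,k1)],[(k3,k1)],[(k0,k1)],[(k10,k1)],[(k1,k1)],[(k11,k1)],[(k8,k1)],
    [(k6,k1)]]
    [] k0
    []
    []]⟩

/-- classes `0 1 0 2 3 2`, types `N0 C0 N1 N0 S0 N1` -/
noncomputable def cT6_2326 : CertT :=
  ⟨[k12,k20,k13,k44,k48,k45],[],[[[]]],
    [.lp [k4,k4,k0,k0,k2,k2] [k0,k0,k0,k0,k2,k2,k2,k2,k1,k1,k1,k1] k0 [] k8 k5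
    [[(k6,k2)],[(k7,k2)],[(k4,k2)],[(k5,k2)],[(k2,k2)],[(k3,k2)],[(k0,k2)],[(k1,k2)],[(k10,k2)],[(k8,k2),(k11,k2)],
    [(k8,k2),(k11,k2)],[(k9,k2)]]
    [] k0
    []
    []]⟩

/-- classes `0 1 0 2 3 2`, types `N0 C0 N1 N0 S0 N2` -/
noncomputable def cT6_2327 : CertT :=
  ⟨[k12,k20,k13,k44,k48,k46],[],[[[]]],
    [.lp [k2,k4,k0,k2,k2,k2] [k1,k1,k0,k0,k2,k2,k1,k1,k1,k1,k1,k1] k0 [] k8 k5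
    [[(k9,k2)],[(k7,k2)],[(k4,k2)],[(k5,k2)],[(k2,k2)],[(k3,k2)],[(k0,k2)],[(k10,k2)],[(k1,k2)],[(k8,k2),(k11,k2)],
    [(k8,k2),(k11,k2)],[(k6,k2)]]
    [] k0
    []
    []]⟩

/-- classes `0 1 0 2 3 2`, types `N0 C0 N1 S0 C0 S0` -/
noncomputable def cT6_2328 : CertT :=
  ⟨[k12,k20,k13,k32,k52,k32],[],[[[]]],
    [.lp [k2,k4,k0,k2,k2,k2] [k1,k1,k0,k0,k2,k2,k1,k1,k1,k1,k1,k1] k0 [] k8 k5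
    [[(k1,k2),(k6,k2),(k9,k2),(k10,k2)],[(k7,k2)],[(k4,k2)],[(k5,k2)],[(k2,k2)],[(k3,k2)],[(k0,k2)],[(k1,k2),(k6,k2),
    (k9,k2),(k10,k2)],[(k1,k2),(k6,k2),(k9,k2),(k10,k2)],[(k11,k2)],[(k8,k2)],[(k1,k2),(k6,k2),(k9,k2),(k10,k2)]]
    [] k0
    []
    []]⟩

/-- classes `0 1 0 2 3 2`, types `N0 C0 N1 S0 S0 S0` -/
noncomputable def cT6_2329 : CertT :=
  ⟨[k12,k20,k13,k32,k48,k32],[],[[[]]],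
    [.lp [k2,k4,k0,k2,k2,k2] [k1,k1,k0,k0,k2,k2,k1,k1,k1,k1,k1,k1] k0 [] k8 k5
    [[(k1,k2),(k6,k2),(k9,k2),(k10,k2)],[(k7,k2)],[(k4,k2)],[(k5,k2)],[(k2,k2)],[(k3,k2)],[(k0,k2)],[(k1,k2),(k6,k2),
    (k9,k2),(k10,k2)],[(k1,k2),(k6,k2),(k9,k2),(k10,k2)],[(k8,k2),(k11,k2)],[(k8,k2),(k11,k2)],[(k1,k2),(k6,k2),(k9,
    k2),(k10,k2)]]
    [] k0
    []
    []]⟩

/-- classes `0 1 0 2 3 2`, types `N0 C0 N2 N0 C0 N2` -/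
noncomputable def cT6_2330 : CertT :=
  ⟨[k12,k20,k14,k44,k52,k46],[],[[[]]],
    [.lp [k2,k2,k0,k0,k0,k2] [k0,k0,k0,k0,k1,k1,k1,k1,k1,k1,k0,k0] k0 [] k4 k5
    [[(k9,k1)],[(k4,k1)],[(k7,k1)],[(k5,k1)],[(k2,k1)],[(k0,k1)],[(k3,k1)],[(k10,k1)],[(k1,k1)],[(k11,k1)],[(k8,k1)],
    [(k6,k1)]]
    [] k0
    []
    []]⟩

/-- classes `0 1 0 2 3 2`, types `N0 C0 N2 N0 S0 N1` -/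
noncomputable def cT6_2331 : CertT :=
  ⟨[k12,k20,k14,k44,k48,k45],[],[[[]]],
    [.lp [k4,k4,k0,k0,k2,k2] [k0,k0,k0,k0,k2,k2,k2,k2,k1,k1,k1,k1] k0 [] k8 k5
    [[(k6,k2)],[(k4,k2)],[(k7,k2)],[(k5,k2)],[(k2,k2)],[(k0,k2)],[(k3,k2)],[(k1,k2)],[(k10,k2)],[(k8,k2),(k11,k2)],
    [(k8,k2),(k11,k2)],[(k9,k2)]]
    [] k0
    []
    []]⟩

/-- classes `0 1 0 2 3 2`, types `N0 C0 N2 N0 S0 N2` -/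
noncomputable def cT6_2332 : CertT :=
  ⟨[k12,k20,k14,k44,k48,k46],[],[[[]]],
    [.lp [k2,k2,k2,k2,k2,k2] [k0,k0,k0,k0,k0,k0,k0,k0,k0,k0,k0,k0] k0 [] k8 k5
    [[(k9,k2)],[(k4,k2)],[(k7,k2)],[(k5,k2)],[(k2,k2)],[(k0,k2)],[(k3,k2)],[(k10,k2)],[(k1,k2)],[(k8,k2),(k11,k2)],
    [(k8,k2),(k11,k2)],[(k6,k2)]]
    [] k0
    []
    []]⟩

/-- classes `0 1 0 2 3 2`, types `N0 C0 N2 S0 C0 S0` -/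
noncomputable def cT6_2333 : CertT :=
  ⟨[k12,k20,k14,k32,k52,k32],[],[[[]]],
    [.lp [k2,k2,k2,k2,k2,k2] [k0,k0,k0,k0,k0,k0,k0,k0,k0,k0,k0,k0] k0 [] k8 k5
    [[(k1,k2),(k6,k2),(k9,k2),(k10,k2)],[(k4,k2)],[(k7,k2)],[(k5,k2)],[(k2,k2)],[(k0,k2)],[(k3,k2)],[(k1,k2),(k6,k2),
    (k9,k2),(k10,k2)],[(k1,k2),(k6,k2),(k9,k2),(k10,k2)],[(k11,k2)],[(k8,k2)],[(k1,k2),(k6,k2),(k9,k2),(k10,k2)]]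
    [] k0
    []
    []]⟩

/-- classes `0 1 0 2 3 2`, types `N0 C0 N2 S0 S0 S0` -/
noncomputable def cT6_2334 : CertT :=
  ⟨[k12,k20,k14,k32,k48,k32],[],[[[]]],
    [.lp [k2,k2,k2,k2,k2,k2] [k0,k0,k0,k0,k0,k0,k0,k0,k0,k0,k0,k0] k0 [] k8 k5
    [[(k1,k2),(k6,k2),(k9,k2),(k10,k2)],[(k4,k2)],[(k7,k2)],[(k5,k2)],[(k2,k2)],[(k0,k2)],[(k3,k2)],[(k1,k2),(k6,k2),
    (k9,k2),(k10,k2)],[(k1,k2),(k6,k2),(k9,k2),(k10,k2)],[(k8,k2),(k11,k2)],[(k8,k2),(k11,k2)],[(k1,k2),(k6,k2),(k9,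
    k2),(k10,k2)]]
    [] k0
    []
    []]⟩

/-- classes `0 1 0 2 3 2`, types `N0 S0 N1 N0 S0 N1` -/
noncomputable def cT6_2335 : CertT :=
  ⟨[k12,k16,k13,k44,k48,k45],[],[[[]]],
    [.lp [k0,k2,k2,k4,k2,k2] [k2,k2,k1,k1,k1,k1,k0,k0,k1,k1,k1,k1] k0 [] k8 k5
    [[(k6,k2)],[(k7,k2)],[(k4,k2)],[(k2,k2),(k5,k2)],[(k2,k2),(k5,k2)],[(k3,k2)],[(k0,k2)],[(k1,k2)],[(k10,k2)],[(k8,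
    k2),(k11,k2)],[(k8,k2),(k11,k2)],[(k9,k2)]]
    [] k0
    []
    []]⟩

/-- classes `0 1 0 2 3 2`, types `N0 S0 N1 N0 S0 N2` -/
noncomputable def cT6_2336 : CertT :=
  ⟨[k12,k16,k13,k44,k48,k46],[],[[[]]],
    [.lp [k2,k2,k2,k2,k2,k2] [k0,k0,k0,k0,k0,k0,k0,k0,k0,k0,k0,k0] k0 [] k8 k5
    [[(k9,k2)],[(k7,k2)],[(k4,k2)],[(k2,k2),(k5,k2)],[(k2,k2),(k5,k2)],[(k3,k2)],[(k0,k2)],[(k10,k2)],[(k1,k2)],[(k8,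
    k2),(k11,k2)],[(k8,k2),(k11,k2)],[(k6,k2)]]
    [] k0
    []
    []]⟩

/-- classes `0 1 0 2 3 2`, types `N0 S0 N1 S0 C0 S0` -/
noncomputable def cT6_2337 : CertT :=
  ⟨[k12,k16,k13,k32,k52,k32],[],[[[]]],
    [.lp [k2,k2,k2,k2,k2,k2] [k0,k0,k0,k0,k0,k0,k0,k0,k0,k0,k0,k0] k0 [] k8 k5
    [[(k1,k2),(k6,k2),(k9,k2),(k10,k2)],[(k7,k2)],[(k4,k2)],[(k2,k2),(k5,k2)],[(k2,k2),(k5,k2)],[(k3,k2)],[(k0,k2)],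
    [(k1,k2),(k6,k2),(k9,k2),(k10,k2)],[(k1,k2),(k6,k2),(k9,k2),(k10,k2)],[(k11,k2)],[(k8,k2)],[(k1,k2),(k6,k2),(k9,
    k2),(k10,k2)]]
    [] k0
    []
    []]⟩

/-- classes `0 1 0 2 3 2`, types `N0 S0 N1 S0 S0 S0` -/
noncomputable def cT6_2338 : CertT :=
  ⟨[k12,k16,k13,k32,k48,k32],[],[[[]]],
    [.lp [k2,k2,k2,k2,k2,k2] [k0,k0,k0,k0,k0,k0,k0,k0,k0,k0,k0,k0] k0 [] k8 k5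
    [[(k1,k2),(k6,k2),(k9,k2),(k10,k2)],[(k7,k2)],[(k4,k2)],[(k2,k2),(k5,k2)],[(k2,k2),(k5,k2)],[(k3,k2)],[(k0,k2)],
    [(k1,k2),(k6,k2),(k9,k2),(k10,k2)],[(k1,k2),(k6,k2),(k9,k2),(k10,k2)],[(k8,k2),(k11,k2)],[(k8,k2),(k11,k2)],[(k1,
    k2),(k6,k2),(k9,k2),(k10,k2)]]
    [] k0
    []
    []]⟩

/-- classes `0 1 0 2 3 2`, types `N0 S0 N2 N0 S0 N2` -/
noncomputable def cT6_2339 : CertT :=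
  ⟨[k12,k16,k14,k44,k48,k46],[],[[[]]],
    [.lp [k2,k2,k2,k2,k2,k2] [k0,k0,k0,k0,k0,k0,k0,k0,k0,k0,k0,k0] k0 [] k8 k5
    [[(k9,k2)],[(k4,k2)],[(k7,k2)],[(k2,k2),(k5,k2)],[(k2,k2),(k5,k2)],[(k0,k2)],[(k3,k2)],[(k10,k2)],[(k1,k2)],[(k8,
    k2),(k11,k2)],[(k8,k2),(k11,k2)],[(k6,k2)]]
    [] k0
    []
    []]⟩

/-- classes `0 1 0 2 3 2`, types `N0 S0 N2 S0 C0 S0` -/
noncomputable def cT6_2340 : CertT :=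
  ⟨[k12,k16,k14,k32,k52,k32],[],[[[]]],
    [.lp [k2,k2,k2,k2,k2,k2] [k0,k0,k0,k0,k0,k0,k0,k0,k0,k0,k0,k0] k0 [] k8 k5
    [[(k1,k2),(k6,k2),(k9,k2),(k10,k2)],[(k4,k2)],[(k7,k2)],[(k2,k2),(k5,k2)],[(k2,k2),(k5,k2)],[(k0,k2)],[(k3,k2)],
    [(k1,k2),(k6,k2),(k9,k2),(k10,k2)],[(k1,k2),(k6,k2),(k9,k2),(k10,k2)],[(k11,k2)],[(k8,k2)],[(k1,k2),(k6,k2),(k9,
    k2),(k10,k2)]]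
    [] k0
    []
    []]⟩

/-- classes `0 1 0 2 3 2`, types `N0 S0 N2 S0 S0 S0` -/
noncomputable def cT6_2341 : CertT :=
  ⟨[k12,k16,k14,k32,k48,k32],[],[[[]]],
    [.lp [k2,k2,k2,k2,k2,k2] [k0,k0,k0,k0,k0,k0,k0,k0,k0,k0,k0,k0] k0 [] k8 k5
    [[(k1,k2),(k6,k2),(k9,k2),(k10,k2)],[(k4,k2)],[(k7,k2)],[(k2,k2),(k5,k2)],[(k2,k2),(k5,k2)],[(k0,k2)],[(k3,k2)],
    [(k1,k2),(k6,k2),(k9,k2),(k10,k2)],[(k1,k2),(k6,k2),(k9,k2),(k10,k2)],[(k8,k2),(k11,k2)],[(k8,k2),(k11,k2)],[(k1,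
    k2),(k6,k2),(k9,k2),(k10,k2)]]
    [] k0
    []
    []]⟩

/-- classes `0 1 0 2 3 2`, types `S0 C0 S0 S0 C0 S0` -/
noncomputable def cT6_2342 : CertT :=
  ⟨[k0,k20,k0,k32,k52,k32],[],[[[]]],
    [.lp [k2,k2,k2,k2,k2,k2] [k0,k0,k0,k0,k0,k0,k0,k0,k0,k0,k0,k0] k0 [] k8 k5
    [[(k1,k2),(k6,k2),(k9,k2),(k10,k2)],[(k0,k2),(k3,k2),(k4,k2),(k7,k2)],[(k0,k2),(k3,k2),(k4,k2),(k7,k2)],[(k5,k2)],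
    [(k2,k2)],[(k0,k2),(k3,k2),(k4,k2),(k7,k2)],[(k0,k2),(k3,k2),(k4,k2),(k7,k2)],[(k1,k2),(k6,k2),(k9,k2),(k10,k2)],
    [(k1,k2),(k6,k2),(k9,k2),(k10,k2)],[(k11,k2)],[(k8,k2)],[(k1,k2),(k6,k2),(k9,k2),(k10,k2)]]
    [] k0
    []
    []]⟩

/-- classes `0 1 0 2 3 2`, types `S0 C0 S0 S0 S0 S0` -/
noncomputable def cT6_2343 : CertT :=
  ⟨[k0,k20,k0,k32,k48,k32],[],[[[]]],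
    [.lp [k2,k2,k2,k2,k2,k2] [k0,k0,k0,k0,k0,k0,k0,k0,k0,k0,k0,k0] k0 [] k8 k5
    [[(k1,k2),(k6,k2),(k9,k2),(k10,k2)],[(k0,k2),(k3,k2),(k4,k2),(k7,k2)],[(k0,k2),(k3,k2),(k4,k2),(k7,k2)],[(k5,k2)],
    [(k2,k2)],[(k0,k2),(k3,k2),(k4,k2),(k7,k2)],[(k0,k2),(k3,k2),(k4,k2),(k7,k2)],[(k1,k2),(k6,k2),(k9,k2),(k10,k2)],
    [(k1,k2),(k6,k2),(k9,k2),(k10,k2)],[(k8,k2),(k11,k2)],[(k8,k2),(k11,k2)],[(k1,k2),(k6,k2),(k9,k2),(k10,k2)]]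
    [] k0
    []
    []]⟩

/-- classes `0 1 0 2 3 4`, types `B0 C0 B1 C0 C0 C0` -/
noncomputable def cT6_2344 : CertT :=
  ⟨[k8,k20,k9,k36,k52,k68],[],[[[]]],
    [.lp [k2,k2,k0,k0,k2,k0] [k0,k0,k0,k0,k1,k1,k1,k1,k0,k0,k1,k1] k0 [] k4 k5
    [[(k10,k1)],[(k4,k1),(k7,k1)],[(k4,k1),(k7,k1)],[(k5,k1)],[(k2,k1)],[(k0,k1),(k3,k1)],[(k0,k1),(k3,k1)],[(k9,k1)],
    [(k6,k1)],[(k11,k1)],[(k8,k1)],[(k1,k1)]]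
    [] k0
    []
    []]⟩

/-- classes `0 1 0 2 3 4`, types `B0 C0 B1 C0 C0 S0` -/
noncomputable def cT6_2345 : CertT :=
  ⟨[k8,k20,k9,k36,k52,k64],[],[[[]]],
    [.lp [k2,k2,k2,k2,k2,k2] [k0,k0,k0,k0,k0,k0,k0,k0,k0,k0,k0,k0] k0 [] k8 k5
    [[(k1,k2),(k10,k2)],[(k4,k2),(k7,k2)],[(k4,k2),(k7,k2)],[(k5,k2)],[(k2,k2)],[(k0,k2),(k3,k2)],[(k0,k2),(k3,k2)],
    [(k9,k2)],[(k6,k2)],[(k11,k2)],[(k8,k2)],[(k1,k2),(k10,k2)]]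
    [] k0
    []
    []]⟩

/-- classes `0 1 0 2 3 4`, types `B0 C0 B1 C0 S0 C0` -/
noncomputable def cT6_2346 : CertT :=
  ⟨[k8,k20,k9,k36,k48,k68],[],[[[]]],
    [.lp [k2,k2,k2,k2,k2,k2] [k0,k0,k0,k0,k0,k0,k0,k0,k0,k0,k0,k0] k0 [] k8 k5
    [[(k10,k2)],[(k4,k2),(k7,k2)],[(k4,k2),(k7,k2)],[(k5,k2)],[(k2,k2)],[(k0,k2),(k3,k2)],[(k0,k2),(k3,k2)],[(k9,k2)],
    [(k6,k2)],[(k8,k2),(k11,k2)],[(k8,k2),(k11,k2)],[(k1,k2)]]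
    [] k0
    []
    []]⟩

/-- classes `0 1 0 2 3 4`, types `B0 C0 B1 C0 S0 S0` -/
noncomputable def cT6_2347 : CertT :=
  ⟨[k8,k20,k9,k36,k48,k64],[],[[[]]],
    [.lp [k2,k2,k2,k2,k2,k2] [k0,k0,k0,k0,k0,k0,k0,k0,k0,k0,k0,k0] k0 [] k8 k5
    [[(k1,k2),(k10,k2)],[(k4,k2),(k7,k2)],[(k4,k2),(k7,k2)],[(k5,k2)],[(k2,k2)],[(k0,k2),(k3,k2)],[(k0,k2),(k3,k2)],
    [(k9,k2)],[(k6,k2)],[(k8,k2),(k11,k2)],[(k8,k2),(k11,k2)],[(k1,k2),(k10,k2)]]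
    [] k0
    []
    []]⟩

/-- classes `0 1 0 2 3 4`, types `B0 C0 B1 S0 C0 S0` -/
noncomputable def cT6_2348 : CertT :=
  ⟨[k8,k20,k9,k32,k52,k64],[],[[[]]],
    [.lp [k2,k2,k2,k2,k2,k2] [k0,k0,k0,k0,k0,k0,k0,k0,k0,k0,k0,k0] k0 [] k8 k5
    [[(k1,k2),(k10,k2)],[(k4,k2),(k7,k2)],[(k4,k2),(k7,k2)],[(k5,k2)],[(k2,k2)],[(k0,k2),(k3,k2)],[(k0,k2),(k3,k2)],
    [(k6,k2),(k9,k2)],[(k6,k2),(k9,k2)],[(k11,k2)],[(k8,k2)],[(k1,k2),(k10,k2)]]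
    [] k0
    []
    []]⟩

/-- classes `0 1 0 2 3 4`, types `B0 C0 B1 S0 S0 S0` -/
noncomputable def cT6_2349 : CertT :=
  ⟨[k8,k20,k9,k32,k48,k64],[],[[[]]],
    [.lp [k2,k2,k2,k2,k2,k2] [k0,k0,k0,k0,k0,k0,k0,k0,k0,k0,k0,k0] k0 [] k8 k5
    [[(k1,k2),(k10,k2)],[(k4,k2),(k7,k2)],[(k4,k2),(k7,k2)],[(k5,k2)],[(k2,k2)],[(k0,k2),(k3,k2)],[(k0,k2),(k3,k2)],
    [(k6,k2),(k9,k2)],[(k6,k2),(k9,k2)],[(k8,k2),(k11,k2)],[(k8,k2),(k11,k2)],[(k1,k2),(k10,k2)]]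
    [] k0
    []
    []]⟩

/-- classes `0 1 0 2 3 4`, types `B0 S0 B1 C0 C0 C0` -/
noncomputable def cT6_2350 : CertT :=
  ⟨[k8,k16,k9,k36,k52,k68],[],[[[]]],
    [.lp [k2,k2,k2,k2,k2,k2] [k0,k0,k0,k0,k0,k0,k0,k0,k0,k0,k0,k0] k0 [] k8 k5
    [[(k10,k2)],[(k4,k2),(k7,k2)],[(k4,k2),(k7,k2)],[(k2,k2),(k5,k2)],[(k2,k2),(k5,k2)],[(k0,k2),(k3,k2)],[(k0,k2),
    (k3,k2)],[(k9,k2)],[(k6,k2)],[(k11,k2)],[(k8,k2)],[(k1,k2)]]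
    [] k0
    []
    []]⟩

/-- classes `0 1 0 2 3 4`, types `B0 S0 B1 C0 C0 S0` -/
noncomputable def cT6_2351 : CertT :=
  ⟨[k8,k16,k9,k36,k52,k64],[],[[[]]],
    [.lp [k2,k2,k2,k2,k2,k2] [k0,k0,k0,k0,k0,k0,k0,k0,k0,k0,k0,k0] k0 [] k8 k5
    [[(k1,k2),(k10,k2)],[(k4,k2),(k7,k2)],[(k4,k2),(k7,k2)],[(k2,k2),(k5,k2)],[(k2,k2),(k5,k2)],[(k0,k2),(k3,k2)],
    [(k0,k2),(k3,k2)],[(k9,k2)],[(k6,k2)],[(k11,k2)],[(k8,k2)],[(k1,k2),(k10,k2)]]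
    [] k0
    []
    []]⟩

/-- classes `0 1 0 2 3 4`, types `B0 S0 B1 C0 S0 C0` -/
noncomputable def cT6_2352 : CertT :=
  ⟨[k8,k16,k9,k36,k48,k68],[],[[[]]],
    [.lp [k2,k2,k2,k2,k2,k2] [k0,k0,k0,k0,k0,k0,k0,k0,k0,k0,k0,k0] k0 [] k8 k5
    [[(k10,k2)],[(k4,k2),(k7,k2)],[(k4,k2),(k7,k2)],[(k2,k2),(k5,k2)],[(k2,k2),(k5,k2)],[(k0,k2),(k3,k2)],[(k0,k2),
    (k3,k2)],[(k9,k2)],[(k6,k2)],[(k8,k2),(k11,k2)],[(k8,k2),(k11,k2)],[(k1,k2)]]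
    [] k0
    []
    []]⟩

/-- classes `0 1 0 2 3 4`, types `B0 S0 B1 C0 S0 S0` -/
noncomputable def cT6_2353 : CertT :=
  ⟨[k8,k16,k9,k36,k48,k64],[],[[[]]],
    [.lp [k2,k2,k2,k2,k2,k2] [k0,k0,k0,k0,k0,k0,k0,k0,k0,k0,k0,k0] k0 [] k8 k5
    [[(k1,k2),(k10,k2)],[(k4,k2),(k7,k2)],[(k4,k2),(k7,k2)],[(k2,k2),(k5,k2)],[(k2,k2),(k5,k2)],[(k0,k2),(k3,k2)],
    [(k0,k2),(k3,k2)],[(k9,k2)],[(k6,k2)],[(k8,k2),(k11,k2)],[(k8,k2),(k11,k2)],[(k1,k2),(k10,k2)]]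
    [] k0
    []
    []]⟩

/-- classes `0 1 0 2 3 4`, types `B0 S0 B1 S0 C0 S0` -/
noncomputable def cT6_2354 : CertT :=
  ⟨[k8,k16,k9,k32,k52,k64],[],[[[]]],
    [.lp [k2,k2,k2,k2,k2,k2] [k0,k0,k0,k0,k0,k0,k0,k0,k0,k0,k0,k0] k0 [] k8 k5
    [[(k1,k2),(k10,k2)],[(k4,k2),(k7,k2)],[(k4,k2),(k7,k2)],[(k2,k2),(k5,k2)],[(k2,k2),(k5,k2)],[(k0,k2),(k3,k2)],
    [(k0,k2),(k3,k2)],[(k6,k2),(k9,k2)],[(k6,k2),(k9,k2)],[(k11,k2)],[(k8,k2)],[(k1,k2),(k10,k2)]]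
    [] k0
    []
    []]⟩

/-- classes `0 1 0 2 3 4`, types `B0 S0 B1 S0 S0 S0` -/
noncomputable def cT6_2355 : CertT :=
  ⟨[k8,k16,k9,k32,k48,k64],[],[[[]]],
    [.lp [k2,k2,k2,k2,k2,k2] [k0,k0,k0,k0,k0,k0,k0,k0,k0,k0,k0,k0] k0 [] k8 k5
    [[(k1,k2),(k10,k2)],[(k4,k2),(k7,k2)],[(k4,k2),(k7,k2)],[(k2,k2),(k5,k2)],[(k2,k2),(k5,k2)],[(k0,k2),(k3,k2)],
    [(k0,k2),(k3,k2)],[(k6,k2),(k9,k2)],[(k6,k2),(k9,k2)],[(k8,k2),(k11,k2)],[(k8,k2),(k11,k2)],[(k1,k2),(k10,k2)]]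
    [] k0
    []
    []]⟩

/-- classes `0 1 0 2 3 4`, types `C0 C0 C0 C0 C0 C0` -/
noncomputable def cT6_2356 : CertT :=
  ⟨[k4,k20,k4,k36,k52,k68],[],[[[]]],
    [.lp [k0,k2,k0,k2,k0,k2] [k1,k1,k0,k0,k1,k1,k0,k0,k1,k1,k0,k0] k0 [] k4 k5
    [[(k10,k1)],[(k3,k1),(k7,k1)],[(k0,k1),(k4,k1)],[(k5,k1)],[(k2,k1)],[(k3,k1),(k7,k1)],[(k0,k1),(k4,k1)],[(k9,k1)],
    [(k6,k1)],[(k11,k1)],[(k8,k1)],[(k1,k1)]]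
    [] k0
    []
    []]⟩

/-- classes `0 1 0 2 3 4`, types `C0 C0 C0 C0 C0 S0` -/
noncomputable def cT6_2357 : CertT :=
  ⟨[k4,k20,k4,k36,k52,k64],[],[[[]]],
    [.lp [k2,k2,k2,k2,k2,k2] [k0,k0,k0,k0,k0,k0,k0,k0,k0,k0,k0,k0] k0 [] k8 k5
    [[(k1,k2),(k10,k2)],[(k3,k2),(k7,k2)],[(k0,k2),(k4,k2)],[(k5,k2)],[(k2,k2)],[(k3,k2),(k7,k2)],[(k0,k2),(k4,k2)],
    [(k9,k2)],[(k6,k2)],[(k11,k2)],[(k8,k2)],[(k1,k2),(k10,k2)]]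
    [] k0
    []
    []]⟩

/-- classes `0 1 0 2 3 4`, types `C0 C0 C0 C0 S0 C0` -/
noncomputable def cT6_2358 : CertT :=
  ⟨[k4,k20,k4,k36,k48,k68],[],[[[]]],
    [.lp [k2,k2,k2,k2,k2,k2] [k0,k0,k0,k0,k0,k0,k0,k0,k0,k0,k0,k0] k0 [] k8 k5
    [[(k10,k2)],[(k3,k2),(k7,k2)],[(k0,k2),(k4,k2)],[(k5,k2)],[(k2,k2)],[(k3,k2),(k7,k2)],[(k0,k2),(k4,k2)],[(k9,k2)],
    [(k6,k2)],[(k8,k2),(k11,k2)],[(k8,k2),(k11,k2)],[(k1,k2)]]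
    [] k0
    []
    []]⟩

/-- classes `0 1 0 2 3 4`, types `C0 C0 C0 C0 S0 S0` -/
noncomputable def cT6_2359 : CertT :=
  ⟨[k4,k20,k4,k36,k48,k64],[],[[[]]],
    [.lp [k2,k2,k2,k2,k2,k2] [k0,k0,k0,k0,k0,k0,k0,k0,k0,k0,k0,k0] k0 [] k8 k5
    [[(k1,k2),(k10,k2)],[(k3,k2),(k7,k2)],[(k0,k2),(k4,k2)],[(k5,k2)],[(k2,k2)],[(k3,k2),(k7,k2)],[(k0,k2),(k4,k2)],
    [(k9,k2)],[(k6,k2)],[(k8,k2),(k11,k2)],[(k8,k2),(k11,k2)],[(k1,k2),(k10,k2)]]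
    [] k0
    []
    []]⟩

/-- classes `0 1 0 2 3 4`, types `C0 C0 C0 S0 C0 S0` -/
noncomputable def cT6_2360 : CertT :=
  ⟨[k4,k20,k4,k32,k52,k64],[],[[[]]],
    [.lp [k2,k2,k2,k2,k2,k2] [k0,k0,k0,k0,k0,k0,k0,k0,k0,k0,k0,k0] k0 [] k8 k5
    [[(k1,k2),(k10,k2)],[(k3,k2),(k7,k2)],[(k0,k2),(k4,k2)],[(k5,k2)],[(k2,k2)],[(k3,k2),(k7,k2)],[(k0,k2),(k4,k2)],
    [(k6,k2),(k9,k2)],[(k6,k2),(k9,k2)],[(k11,k2)],[(k8,k2)],[(k1,k2),(k10,k2)]]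
    [] k0
    []
    []]⟩

/-- classes `0 1 0 2 3 4`, types `C0 C0 C0 S0 S0 S0` -/
noncomputable def cT6_2361 : CertT :=
  ⟨[k4,k20,k4,k32,k48,k64],[],[[[]]],
    [.lp [k2,k2,k2,k2,k2,k2] [k0,k0,k0,k0,k0,k0,k0,k0,k0,k0,k0,k0] k0 [] k8 k5
    [[(k1,k2),(k10,k2)],[(k3,k2),(k7,k2)],[(k0,k2),(k4,k2)],[(k5,k2)],[(k2,k2)],[(k3,k2),(k7,k2)],[(k0,k2),(k4,k2)],
    [(k6,k2),(k9,k2)],[(k6,k2),(k9,k2)],[(k8,k2),(k11,k2)],[(k8,k2),(k11,k2)],[(k1,k2),(k10,k2)]]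
    [] k0
    []
    []]⟩

/-- classes `0 1 0 2 3 4`, types `C0 C0 C2 C0 C0 C0` -/
noncomputable def cT6_2362 : CertT :=
  ⟨[k4,k20,k6,k36,k52,k68],[],[[[]]],
    [.lp [k2,k2,k2,k2,k2,k2] [k0,k0,k0,k0,k0,k0,k0,k0,k0,k0,k0,k0] k0 [] k8 k5
    [[(k10,k2)],[(k3,k2),(k4,k2)],[(k0,k2),(k7,k2)],[(k5,k2)],[(k2,k2)],[(k0,k2),(k7,k2)],[(k3,k2),(k4,k2)],[(k9,k2)],
    [(k6,k2)],[(k11,k2)],[(k8,k2)],[(k1,k2)]]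
    [] k0
    []
    []]⟩

/-- classes `0 1 0 2 3 4`, types `C0 C0 C2 C0 C0 S0` -/
noncomputable def cT6_2363 : CertT :=
  ⟨[k4,k20,k6,k36,k52,k64],[],[[[]]],
    [.lp [k2,k2,k2,k2,k2,k2] [k0,k0,k0,k0,k0,k0,k0,k0,k0,k0,k0,k0] k0 [] k8 k5
    [[(k1,k2),(k10,k2)],[(k3,k2),(k4,k2)],[(k0,k2),(k7,k2)],[(k5,k2)],[(k2,k2)],[(k0,k2),(k7,k2)],[(k3,k2),(k4,k2)],
    [(k9,k2)],[(k6,k2)],[(k11,k2)],[(k8,k2)],[(k1,k2),(k10,k2)]]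
    [] k0
    []
    []]⟩

/-- classes `0 1 0 2 3 4`, types `C0 C0 C2 C0 S0 C0` -/
noncomputable def cT6_2364 : CertT :=
  ⟨[k4,k20,k6,k36,k48,k68],[],[[[]]],
    [.lp [k2,k2,k2,k2,k2,k2] [k0,k0,k0,k0,k0,k0,k0,k0,k0,k0,k0,k0] k0 [] k8 k5
    [[(k10,k2)],[(k3,k2),(k4,k2)],[(k0,k2),(k7,k2)],[(k5,k2)],[(k2,k2)],[(k0,k2),(k7,k2)],[(k3,k2),(k4,k2)],[(k9,k2)],
    [(k6,k2)],[(k8,k2),(k11,k2)],[(k8,k2),(k11,k2)],[(k1,k2)]]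
    [] k0
    []
    []]⟩

/-- classes `0 1 0 2 3 4`, types `C0 C0 C2 C0 S0 S0` -/
noncomputable def cT6_2365 : CertT :=
  ⟨[k4,k20,k6,k36,k48,k64],[],[[[]]],
    [.lp [k2,k2,k2,k2,k2,k2] [k0,k0,k0,k0,k0,k0,k0,k0,k0,k0,k0,k0] k0 [] k8 k5
    [[(k1,k2),(k10,k2)],[(k3,k2),(k4,k2)],[(k0,k2),(k7,k2)],[(k5,k2)],[(k2,k2)],[(k0,k2),(k7,k2)],[(k3,k2),(k4,k2)],
    [(k9,k2)],[(k6,k2)],[(k8,k2),(k11,k2)],[(k8,k2),(k11,k2)],[(k1,k2),(k10,k2)]]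
    [] k0
    []
    []]⟩

/-- classes `0 1 0 2 3 4`, types `C0 C0 C2 S0 C0 S0` -/
noncomputable def cT6_2366 : CertT :=
  ⟨[k4,k20,k6,k32,k52,k64],[],[[[]]],
    [.lp [k2,k2,k2,k2,k2,k2] [k0,k0,k0,k0,k0,k0,k0,k0,k0,k0,k0,k0] k0 [] k8 k5
    [[(k1,k2),(k10,k2)],[(k3,k2),(k4,k2)],[(k0,k2),(k7,k2)],[(k5,k2)],[(k2,k2)],[(k0,k2),(k7,k2)],[(k3,k2),(k4,k2)],
    [(k6,k2),(k9,k2)],[(k6,k2),(k9,k2)],[(k11,k2)],[(k8,k2)],[(k1,k2),(k10,k2)]]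
    [] k0
    []
    []]⟩

/-- classes `0 1 0 2 3 4`, types `C0 C0 C2 S0 S0 S0` -/
noncomputable def cT6_2367 : CertT :=
  ⟨[k4,k20,k6,k32,k48,k64],[],[[[]]],
    [.lp [k2,k2,k2,k2,k2,k2] [k0,k0,k0,k0,k0,k0,k0,k0,k0,k0,k0,k0] k0 [] k8 k5
    [[(k1,k2),(k10,k2)],[(k3,k2),(k4,k2)],[(k0,k2),(k7,k2)],[(k5,k2)],[(k2,k2)],[(k0,k2),(k7,k2)],[(k3,k2),(k4,k2)],
    [(k6,k2),(k9,k2)],[(k6,k2),(k9,k2)],[(k8,k2),(k11,k2)],[(k8,k2),(k11,k2)],[(k1,k2),(k10,k2)]]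
    [] k0
    []
    []]⟩

/-- classes `0 1 0 2 3 4`, types `C0 S0 C0 C0 C0 C0` -/
noncomputable def cT6_2368 : CertT :=
  ⟨[k4,k16,k4,k36,k52,k68],[],[[[]]],
    [.lp [k2,k2,k2,k2,k2,k2] [k0,k0,k0,k0,k0,k0,k0,k0,k0,k0,k0,k0] k0 [] k8 k5
    [[(k10,k2)],[(k3,k2),(k7,k2)],[(k0,k2),(k4,k2)],[(k2,k2),(k5,k2)],[(k2,k2),(k5,k2)],[(k3,k2),(k7,k2)],[(k0,k2),
    (k4,k2)],[(k9,k2)],[(k6,k2)],[(k11,k2)],[(k8,k2)],[(k1,k2)]]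
    [] k0
    []
    []]⟩

/-- classes `0 1 0 2 3 4`, types `C0 S0 C0 C0 C0 S0` -/
noncomputable def cT6_2369 : CertT :=
  ⟨[k4,k16,k4,k36,k52,k64],[],[[[]]],
    [.lp [k2,k2,k2,k2,k2,k2] [k0,k0,k0,k0,k0,k0,k0,k0,k0,k0,k0,k0] k0 [] k8 k5
    [[(k1,k2),(k10,k2)],[(k3,k2),(k7,k2)],[(k0,k2),(k4,k2)],[(k2,k2),(k5,k2)],[(k2,k2),(k5,k2)],[(k3,k2),(k7,k2)],
    [(k0,k2),(k4,k2)],[(k9,k2)],[(k6,k2)],[(k11,k2)],[(k8,k2)],[(k1,k2),(k10,k2)]]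
    [] k0
    []
    []]⟩

/-- classes `0 1 0 2 3 4`, types `C0 S0 C0 C0 S0 C0` -/
noncomputable def cT6_2370 : CertT :=
  ⟨[k4,k16,k4,k36,k48,k68],[],[[[]]],
    [.lp [k2,k2,k2,k2,k2,k2] [k0,k0,k0,k0,k0,k0,k0,k0,k0,k0,k0,k0] k0 [] k8 k5
    [[(k10,k2)],[(k3,k2),(k7,k2)],[(k0,k2),(k4,k2)],[(k2,k2),(k5,k2)],[(k2,k2),(k5,k2)],[(k3,k2),(k7,k2)],[(k0,k2),
    (k4,k2)],[(k9,k2)],[(k6,k2)],[(k8,k2),(k11,k2)],[(k8,k2),(k11,k2)],[(k1,k2)]]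
    [] k0
    []
    []]⟩

/-- classes `0 1 0 2 3 4`, types `C0 S0 C0 C0 S0 S0` -/
noncomputable def cT6_2371 : CertT :=
  ⟨[k4,k16,k4,k36,k48,k64],[],[[[]]],
    [.lp [k2,k2,k2,k2,k2,k2] [k0,k0,k0,k0,k0,k0,k0,k0,k0,k0,k0,k0] k0 [] k8 k5
    [[(k1,k2),(k10,k2)],[(k3,k2),(k7,k2)],[(k0,k2),(k4,k2)],[(k2,k2),(k5,k2)],[(k2,k2),(k5,k2)],[(k3,k2),(k7,k2)],
    [(k0,k2),(k4,k2)],[(k9,k2)],[(k6,k2)],[(k8,k2),(k11,k2)],[(k8,k2),(k11,k2)],[(k1,k2),(k10,k2)]]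
    [] k0
    []
    []]⟩

/-- classes `0 1 0 2 3 4`, types `C0 S0 C0 S0 C0 S0` -/
noncomputable def cT6_2372 : CertT :=
  ⟨[k4,k16,k4,k32,k52,k64],[],[[[]]],
    [.lp [k2,k2,k2,k2,k2,k2] [k0,k0,k0,k0,k0,k0,k0,k0,k0,k0,k0,k0] k0 [] k8 k5
    [[(k1,k2),(k10,k2)],[(k3,k2),(k7,k2)],[(k0,k2),(k4,k2)],[(k2,k2),(k5,k2)],[(k2,k2),(k5,k2)],[(k3,k2),(k7,k2)],
    [(k0,k2),(k4,k2)],[(k6,k2),(k9,k2)],[(k6,k2),(k9,k2)],[(k11,k2)],[(k8,k2)],[(k1,k2),(k10,k2)]]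
    [] k0
    []
    []]⟩

/-- classes `0 1 0 2 3 4`, types `C0 S0 C0 S0 S0 S0` -/
noncomputable def cT6_2373 : CertT :=
  ⟨[k4,k16,k4,k32,k48,k64],[],[[[]]],
    [.lp [k2,k2,k2,k2,k2,k2] [k0,k0,k0,k0,k0,k0,k0,k0,k0,k0,k0,k0] k0 [] k8 k5
    [[(k1,k2),(k10,k2)],[(k3,k2),(k7,k2)],[(k0,k2),(k4,k2)],[(k2,k2),(k5,k2)],[(k2,k2),(k5,k2)],[(k3,k2),(k7,k2)],
    [(k0,k2),(k4,k2)],[(k6,k2),(k9,k2)],[(k6,k2),(k9,k2)],[(k8,k2),(k11,k2)],[(k8,k2),(k11,k2)],[(k1,k2),(k10,k2)]]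
    [] k0
    []
    []]⟩

/-- classes `0 1 0 2 3 4`, types `C0 S0 C2 C0 C0 C0` -/
noncomputable def cT6_2374 : CertT :=
  ⟨[k4,k16,k6,k36,k52,k68],[],[[[]]],
    [.lp [k2,k2,k2,k2,k2,k2] [k0,k0,k0,k0,k0,k0,k0,k0,k0,k0,k0,k0] k0 [] k8 k5
    [[(k10,k2)],[(k3,k2),(k4,k2)],[(k0,k2),(k7,k2)],[(k2,k2),(k5,k2)],[(k2,k2),(k5,k2)],[(k0,k2),(k7,k2)],[(k3,k2),
    (k4,k2)],[(k9,k2)],[(k6,k2)],[(k11,k2)],[(k8,k2)],[(k1,k2)]]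
    [] k0
    []
    []]⟩

/-- classes `0 1 0 2 3 4`, types `C0 S0 C2 C0 C0 S0` -/
noncomputable def cT6_2375 : CertT :=
  ⟨[k4,k16,k6,k36,k52,k64],[],[[[]]],
    [.lp [k2,k2,k2,k2,k2,k2] [k0,k0,k0,k0,k0,k0,k0,k0,k0,k0,k0,k0] k0 [] k8 k5
    [[(k1,k2),(k10,k2)],[(k3,k2),(k4,k2)],[(k0,k2),(k7,k2)],[(k2,k2),(k5,k2)],[(k2,k2),(k5,k2)],[(k0,k2),(k7,k2)],
    [(k3,k2),(k4,k2)],[(k9,k2)],[(k6,k2)],[(k11,k2)],[(k8,k2)],[(k1,k2),(k10,k2)]]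
    [] k0
    []
    []]⟩

/-- classes `0 1 0 2 3 4`, types `C0 S0 C2 C0 S0 C0` -/
noncomputable def cT6_2376 : CertT :=
  ⟨[k4,k16,k6,k36,k48,k68],[],[[[]]],
    [.lp [k2,k2,k2,k2,k2,k2] [k0,k0,k0,k0,k0,k0,k0,k0,k0,k0,k0,k0] k0 [] k8 k5
    [[(k10,k2)],[(k3,k2),(k4,k2)],[(k0,k2),(k7,k2)],[(k2,k2),(k5,k2)],[(k2,k2),(k5,k2)],[(k0,k2),(k7,k2)],[(k3,k2),
    (k4,k2)],[(k9,k2)],[(k6,k2)],[(k8,k2),(k11,k2)],[(k8,k2),(k11,k2)],[(k1,k2)]]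
    [] k0
    []
    []]⟩

/-- classes `0 1 0 2 3 4`, types `C0 S0 C2 C0 S0 S0` -/
noncomputable def cT6_2377 : CertT :=
  ⟨[k4,k16,k6,k36,k48,k64],[],[[[]]],
    [.lp [k2,k2,k2,k2,k2,k2] [k0,k0,k0,k0,k0,k0,k0,k0,k0,k0,k0,k0] k0 [] k8 k5
    [[(k1,k2),(k10,k2)],[(k3,k2),(k4,k2)],[(k0,k2),(k7,k2)],[(k2,k2),(k5,k2)],[(k2,k2),(k5,k2)],[(k0,k2),(k7,k2)],
    [(k3,k2),(k4,k2)],[(k9,k2)],[(k6,k2)],[(k8,k2),(k11,k2)],[(k8,k2),(k11,k2)],[(k1,k2),(k10,k2)]]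
    [] k0
    []
    []]⟩

/-- classes `0 1 0 2 3 4`, types `C0 S0 C2 S0 C0 S0` -/
noncomputable def cT6_2378 : CertT :=
  ⟨[k4,k16,k6,k32,k52,k64],[],[[[]]],
    [.lp [k2,k2,k2,k2,k2,k2] [k0,k0,k0,k0,k0,k0,k0,k0,k0,k0,k0,k0] k0 [] k8 k5
    [[(k1,k2),(k10,k2)],[(k3,k2),(k4,k2)],[(k0,k2),(k7,k2)],[(k2,k2),(k5,k2)],[(k2,k2),(k5,k2)],[(k0,k2),(k7,k2)],
    [(k3,k2),(k4,k2)],[(k6,k2),(k9,k2)],[(k6,k2),(k9,k2)],[(k11,k2)],[(k8,k2)],[(k1,k2),(k10,k2)]]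
    [] k0
    []
    []]⟩

/-- classes `0 1 0 2 3 4`, types `C0 S0 C2 S0 S0 S0` -/
noncomputable def cT6_2379 : CertT :=
  ⟨[k4,k16,k6,k32,k48,k64],[],[[[]]],
    [.lp [k2,k2,k2,k2,k2,k2] [k0,k0,k0,k0,k0,k0,k0,k0,k0,k0,k0,k0] k0 [] k8 k5
    [[(k1,k2),(k10,k2)],[(k3,k2),(k4,k2)],[(k0,k2),(k7,k2)],[(k2,k2),(k5,k2)],[(k2,k2),(k5,k2)],[(k0,k2),(k7,k2)],
    [(k3,k2),(k4,k2)],[(k6,k2),(k9,k2)],[(k6,k2),(k9,k2)],[(k8,k2),(k11,k2)],[(k8,k2),(k11,k2)],[(k1,k2),(k10,k2)]]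
    [] k0
    []
    []]⟩

/-- classes `0 1 0 2 3 4`, types `N0 C0 N1 C0 C0 C0` -/
noncomputable def cT6_2380 : CertT :=
  ⟨[k12,k20,k13,k36,k52,k68],[],[[[]]],
    [.lp [k0,k2,k0,k2,k0,k2] [k1,k1,k0,k0,k1,k1,k0,k0,k1,k1,k0,k0] k0 [] k4 k5
    [[(k10,k1)],[(k7,k1)],[(k4,k1)],[(k5,k1)],[(k2,k1)],[(k3,k1)],[(k0,k1)],[(k9,k1)],[(k6,k1)],[(k11,k1)],[(k8,k1)],
    [(k1,k1)]]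
    [] k0
    []
    []]⟩

/-- classes `0 1 0 2 3 4`, types `N0 C0 N1 C0 C0 S0` -/
noncomputable def cT6_2381 : CertT :=
  ⟨[k12,k20,k13,k36,k52,k64],[],[[[]]],
    [.lp [k2,k4,k0,k2,k2,k2] [k1,k1,k0,k0,k2,k2,k1,k1,k1,k1,k1,k1] k0 [] k8 k5
    [[(k1,k2),(k10,k2)],[(k7,k2)],[(k4,k2)],[(k5,k2)],[(k2,k2)],[(k3,k2)],[(k0,k2)],[(k9,k2)],[(k6,k2)],[(k11,k2)],
    [(k8,k2)],[(k1,k2),(k10,k2)]]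
    [] k0
    []
    []]⟩

/-- classes `0 1 0 2 3 4`, types `N0 C0 N1 C0 S0 C0` -/
noncomputable def cT6_2382 : CertT :=
  ⟨[k12,k20,k13,k36,k48,k68],[],[[[]]],
    [.lp [k2,k4,k0,k2,k2,k2] [k1,k1,k0,k0,k2,k2,k1,k1,k1,k1,k1,k1] k0 [] k8 k5
    [[(k10,k2)],[(k7,k2)],[(k4,k2)],[(k5,k2)],[(k2,k2)],[(k3,k2)],[(k0,k2)],[(k9,k2)],[(k6,k2)],[(k8,k2),(k11,k2)],
    [(k8,k2),(k11,k2)],[(k1,k2)]]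
    [] k0
    []
    []]⟩

/-- classes `0 1 0 2 3 4`, types `N0 C0 N1 C0 S0 S0` -/
noncomputable def cT6_2383 : CertT :=
  ⟨[k12,k20,k13,k36,k48,k64],[],[[[]]],
    [.lp [k2,k4,k0,k2,k2,k2] [k1,k1,k0,k0,k2,k2,k1,k1,k1,k1,k1,k1] k0 [] k8 k5
    [[(k1,k2),(k10,k2)],[(k7,k2)],[(k4,k2)],[(k5,k2)],[(k2,k2)],[(k3,k2)],[(k0,k2)],[(k9,k2)],[(k6,k2)],[(k8,k2),(k11,
    k2)],[(k8,k2),(k11,k2)],[(k1,k2),(k10,k2)]]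
    [] k0
    []
    []]⟩

/-- classes `0 1 0 2 3 4`, types `N0 C0 N1 S0 C0 S0` -/
noncomputable def cT6_2384 : CertT :=
  ⟨[k12,k20,k13,k32,k52,k64],[],[[[]]],
    [.lp [k2,k4,k0,k2,k2,k2] [k1,k1,k0,k0,k2,k2,k1,k1,k1,k1,k1,k1] k0 [] k8 k5
    [[(k1,k2),(k10,k2)],[(k7,k2)],[(k4,k2)],[(k5,k2)],[(k2,k2)],[(k3,k2)],[(k0,k2)],[(k6,k2),(k9,k2)],[(k6,k2),(k9,
    k2)],[(k11,k2)],[(k8,k2)],[(k1,k2),(k10,k2)]]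
    [] k0
    []
    []]⟩

/-- classes `0 1 0 2 3 4`, types `N0 C0 N1 S0 S0 S0` -/
noncomputable def cT6_2385 : CertT :=
  ⟨[k12,k20,k13,k32,k48,k64],[],[[[]]],
    [.lp [k2,k0,k4,k2,k2,k2] [k1,k1,k2,k2,k0,k0,k1,k1,k1,k1,k1,k1] k0 [] k8 k5
    [[(k1,k2),(k10,k2)],[(k7,k2)],[(k4,k2)],[(k5,k2)],[(k2,k2)],[(k3,k2)],[(k0,k2)],[(k6,k2),(k9,k2)],[(k6,k2),(k9,
    k2)],[(k8,k2),(k11,k2)],[(k8,k2),(k11,k2)],[(k1,k2),(k10,k2)]]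
    [] k0
    []
    []]⟩

/-- classes `0 1 0 2 3 4`, types `N0 C0 N2 C0 C0 C0` -/
noncomputable def cT6_2386 : CertT :=
  ⟨[k12,k20,k14,k36,k52,k68],[],[[[]]],
    [.lp [k0,k0,k2,k2,k0,k2] [k1,k1,k1,k1,k0,k0,k0,k0,k1,k1,k0,k0] k0 [] k4 k5
    [[(k10,k1)],[(k4,k1)],[(k7,k1)],[(k5,k1)],[(k2,k1)],[(k0,k1)],[(k3,k1)],[(k9,k1)],[(k6,k1)],[(k11,k1)],[(k8,k1)],
    [(k1,k1)]]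
    [] k0
    []
    []]⟩

/-- classes `0 1 0 2 3 4`, types `N0 C0 N2 C0 C0 S0` -/
noncomputable def cT6_2387 : CertT :=
  ⟨[k12,k20,k14,k36,k52,k64],[],[[[]]],
    [.lp [k2,k2,k2,k2,k2,k2] [k0,k0,k0,k0,k0,k0,k0,k0,k0,k0,k0,k0] k0 [] k8 k5
    [[(k1,k2),(k10,k2)],[(k4,k2)],[(k7,k2)],[(k5,k2)],[(k2,k2)],[(k0,k2)],[(k3,k2)],[(k9,k2)],[(k6,k2)],[(k11,k2)],
    [(k8,k2)],[(k1,k2),(k10,k2)]]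
    [] k0
    []
    []]⟩

/-- classes `0 1 0 2 3 4`, types `N0 C0 N2 C0 S0 C0` -/
noncomputable def cT6_2388 : CertT :=
  ⟨[k12,k20,k14,k36,k48,k68],[],[[[]]],
    [.lp [k2,k2,k2,k2,k2,k2] [k0,k0,k0,k0,k0,k0,k0,k0,k0,k0,k0,k0] k0 [] k8 k5
    [[(k10,k2)],[(k4,k2)],[(k7,k2)],[(k5,k2)],[(k2,k2)],[(k0,k2)],[(k3,k2)],[(k9,k2)],[(k6,k2)],[(k8,k2),(k11,k2)],
    [(k8,k2),(k11,k2)],[(k1,k2)]]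
    [] k0
    []
    []]⟩

/-- classes `0 1 0 2 3 4`, types `N0 C0 N2 C0 S0 S0` -/
noncomputable def cT6_2389 : CertT :=
  ⟨[k12,k20,k14,k36,k48,k64],[],[[[]]],
    [.lp [k2,k2,k2,k2,k2,k2] [k0,k0,k0,k0,k0,k0,k0,k0,k0,k0,k0,k0] k0 [] k8 k5
    [[(k1,k2),(k10,k2)],[(k4,k2)],[(k7,k2)],[(k5,k2)],[(k2,k2)],[(k0,k2)],[(k3,k2)],[(k9,k2)],[(k6,k2)],[(k8,k2),(k11,
    k2)],[(k8,k2),(k11,k2)],[(k1,k2),(k10,k2)]]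
    [] k0
    []
    []]⟩

/-- classes `0 1 0 2 3 4`, types `N0 C0 N2 S0 C0 S0` -/
noncomputable def cT6_2390 : CertT :=
  ⟨[k12,k20,k14,k32,k52,k64],[],[[[]]],
    [.lp [k2,k2,k2,k2,k2,k2] [k0,k0,k0,k0,k0,k0,k0,k0,k0,k0,k0,k0] k0 [] k8 k5
    [[(k1,k2),(k10,k2)],[(k4,k2)],[(k7,k2)],[(k5,k2)],[(k2,k2)],[(k0,k2)],[(k3,k2)],[(k6,k2),(k9,k2)],[(k6,k2),(k9,
    k2)],[(k11,k2)],[(k8,k2)],[(k1,k2),(k10,k2)]]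
    [] k0
    []
    []]⟩

/-- classes `0 1 0 2 3 4`, types `N0 C0 N2 S0 S0 S0` -/
noncomputable def cT6_2391 : CertT :=
  ⟨[k12,k20,k14,k32,k48,k64],[],[[[]]],
    [.lp [k2,k2,k2,k2,k2,k2] [k0,k0,k0,k0,k0,k0,k0,k0,k0,k0,k0,k0] k0 [] k8 k5
    [[(k1,k2),(k10,k2)],[(k4,k2)],[(k7,k2)],[(k5,k2)],[(k2,k2)],[(k0,k2)],[(k3,k2)],[(k6,k2),(k9,k2)],[(k6,k2),(k9,
    k2)],[(k8,k2),(k11,k2)],[(k8,k2),(k11,k2)],[(k1,k2),(k10,k2)]]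
    [] k0
    []
    []]⟩

/-- classes `0 1 0 2 3 4`, types `N0 S0 N1 C0 C0 C0` -/
noncomputable def cT6_2392 : CertT :=
  ⟨[k12,k16,k13,k36,k52,k68],[],[[[]]],
    [.lp [k4,k2,k2,k0,k4,k0] [k0,k0,k1,k1,k1,k1,k2,k2,k0,k0,k2,k2] k0 [] k8 k5
    [[(k10,k2)],[(k7,k2)],[(k4,k2)],[(k2,k2),(k5,k2)],[(k2,k2),(k5,k2)],[(k3,k2)],[(k0,k2)],[(k9,k2)],[(k6,k2)],[(k11,
    k2)],[(k8,k2)],[(k1,k2)]]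
    [] k0
    []
    []]⟩

/-- classes `0 1 0 2 3 4`, types `N0 S0 N1 C0 C0 S0` -/
noncomputable def cT6_2393 : CertT :=
  ⟨[k12,k16,k13,k36,k52,k64],[],[[[]]],
    [.lp [k2,k2,k2,k2,k2,k2] [k0,k0,k0,k0,k0,k0,k0,k0,k0,k0,k0,k0] k0 [] k8 k5
    [[(k1,k2),(k10,k2)],[(k7,k2)],[(k4,k2)],[(k2,k2),(k5,k2)],[(k2,k2),(k5,k2)],[(k3,k2)],[(k0,k2)],[(k9,k2)],[(k6,
    k2)],[(k11,k2)],[(k8,k2)],[(k1,k2),(k10,k2)]]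
    [] k0
    []
    []]⟩

/-- classes `0 1 0 2 3 4`, types `N0 S0 N1 C0 S0 C0` -/
noncomputable def cT6_2394 : CertT :=
  ⟨[k12,k16,k13,k36,k48,k68],[],[[[]]],
    [.lp [k2,k2,k2,k2,k2,k2] [k0,k0,k0,k0,k0,k0,k0,k0,k0,k0,k0,k0] k0 [] k8 k5
    [[(k10,k2)],[(k7,k2)],[(k4,k2)],[(k2,k2),(k5,k2)],[(k2,k2),(k5,k2)],[(k3,k2)],[(k0,k2)],[(k9,k2)],[(k6,k2)],[(k8,
    k2),(k11,k2)],[(k8,k2),(k11,k2)],[(k1,k2)]]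
    [] k0
    []
    []]⟩

/-- classes `0 1 0 2 3 4`, types `N0 S0 N1 C0 S0 S0` -/
noncomputable def cT6_2395 : CertT :=
  ⟨[k12,k16,k13,k36,k48,k64],[],[[[]]],
    [.lp [k2,k2,k2,k2,k2,k2] [k0,k0,k0,k0,k0,k0,k0,k0,k0,k0,k0,k0] k0 [] k8 k5
    [[(k1,k2),(k10,k2)],[(k7,k2)],[(k4,k2)],[(k2,k2),(k5,k2)],[(k2,k2),(k5,k2)],[(k3,k2)],[(k0,k2)],[(k9,k2)],[(k6,
    k2)],[(k8,k2),(k11,k2)],[(k8,k2),(k11,k2)],[(k1,k2),(k10,k2)]]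
    [] k0
    []
    []]⟩

/-- classes `0 1 0 2 3 4`, types `N0 S0 N1 S0 C0 S0` -/
noncomputable def cT6_2396 : CertT :=
  ⟨[k12,k16,k13,k32,k52,k64],[],[[[]]],
    [.lp [k2,k2,k2,k2,k2,k2] [k0,k0,k0,k0,k0,k0,k0,k0,k0,k0,k0,k0] k0 [] k8 k5
    [[(k1,k2),(k10,k2)],[(k7,k2)],[(k4,k2)],[(k2,k2),(k5,k2)],[(k2,k2),(k5,k2)],[(k3,k2)],[(k0,k2)],[(k6,k2),(k9,k2)],
    [(k6,k2),(k9,k2)],[(k11,k2)],[(k8,k2)],[(k1,k2),(k10,k2)]]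
    [] k0
    []
    []]⟩

/-- classes `0 1 0 2 3 4`, types `N0 S0 N1 S0 S0 S0` -/
noncomputable def cT6_2397 : CertT :=
  ⟨[k12,k16,k13,k32,k48,k64],[],[[[]]],
    [.lp [k2,k2,k2,k2,k2,k2] [k0,k0,k0,k0,k0,k0,k0,k0,k0,k0,k0,k0] k0 [] k8 k5
    [[(k1,k2),(k10,k2)],[(k7,k2)],[(k4,k2)],[(k2,k2),(k5,k2)],[(k2,k2),(k5,k2)],[(k3,k2)],[(k0,k2)],[(k6,k2),(k9,k2)],
    [(k6,k2),(k9,k2)],[(k8,k2),(k11,k2)],[(k8,k2),(k11,k2)],[(k1,k2),(k10,k2)]]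
    [] k0
    []
    []]⟩

/-- classes `0 1 0 2 3 4`, types `N0 S0 N2 C0 C0 C0` -/
noncomputable def cT6_2398 : CertT :=
  ⟨[k12,k16,k14,k36,k52,k68],[],[[[]]],
    [.lp [k2,k2,k2,k2,k2,k2] [k0,k0,k0,k0,k0,k0,k0,k0,k0,k0,k0,k0] k0 [] k8 k5
    [[(k10,k2)],[(k4,k2)],[(k7,k2)],[(k2,k2),(k5,k2)],[(k2,k2),(k5,k2)],[(k0,k2)],[(k3,k2)],[(k9,k2)],[(k6,k2)],[(k11,
    k2)],[(k8,k2)],[(k1,k2)]]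
    [] k0
    []
    []]⟩

/-- classes `0 1 0 2 3 4`, types `N0 S0 N2 C0 C0 S0` -/
noncomputable def cT6_2399 : CertT :=
  ⟨[k12,k16,k14,k36,k52,k64],[],[[[]]],
    [.lp [k2,k2,k2,k2,k2,k2] [k0,k0,k0,k0,k0,k0,k0,k0,k0,k0,k0,k0] k0 [] k8 k5
    [[(k1,k2),(k10,k2)],[(k4,k2)],[(k7,k2)],[(k2,k2),(k5,k2)],[(k2,k2),(k5,k2)],[(k0,k2)],[(k3,k2)],[(k9,k2)],[(k6,
    k2)],[(k11,k2)],[(k8,k2)],[(k1,k2),(k10,k2)]]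
    [] k0
    []
    []]⟩

/-- classes `0 1 0 2 3 4`, types `N0 S0 N2 C0 S0 C0` -/
noncomputable def cT6_2400 : CertT :=
  ⟨[k12,k16,k14,k36,k48,k68],[],[[[]]],
    [.lp [k2,k2,k2,k2,k2,k2] [k0,k0,k0,k0,k0,k0,k0,k0,k0,k0,k0,k0] k0 [] k8 k5
    [[(k10,k2)],[(k4,k2)],[(k7,k2)],[(k2,k2),(k5,k2)],[(k2,k2),(k5,k2)],[(k0,k2)],[(k3,k2)],[(k9,k2)],[(k6,k2)],[(k8,
    k2),(k11,k2)],[(k8,k2),(k11,k2)],[(k1,k2)]]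
    [] k0
    []
    []]⟩

/-- classes `0 1 0 2 3 4`, types `N0 S0 N2 C0 S0 S0` -/
noncomputable def cT6_2401 : CertT :=
  ⟨[k12,k16,k14,k36,k48,k64],[],[[[]]],
    [.lp [k2,k2,k2,k2,k2,k2] [k0,k0,k0,k0,k0,k0,k0,k0,k0,k0,k0,k0] k0 [] k8 k5
    [[(k1,k2),(k10,k2)],[(k4,k2)],[(k7,k2)],[(k2,k2),(k5,k2)],[(k2,k2),(k5,k2)],[(k0,k2)],[(k3,k2)],[(k9,k2)],[(k6,
    k2)],[(k8,k2),(k11,k2)],[(k8,k2),(k11,k2)],[(k1,k2),(k10,k2)]]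
    [] k0
    []
    []]⟩

/-- classes `0 1 0 2 3 4`, types `N0 S0 N2 S0 C0 S0` -/
noncomputable def cT6_2402 : CertT :=
  ⟨[k12,k16,k14,k32,k52,k64],[],[[[]]],
    [.lp [k2,k2,k2,k2,k2,k2] [k0,k0,k0,k0,k0,k0,k0,k0,k0,k0,k0,k0] k0 [] k8 k5
    [[(k1,k2),(k10,k2)],[(k4,k2)],[(k7,k2)],[(k2,k2),(k5,k2)],[(k2,k2),(k5,k2)],[(k0,k2)],[(k3,k2)],[(k6,k2),(k9,k2)],
    [(k6,k2),(k9,k2)],[(k11,k2)],[(k8,k2)],[(k1,k2),(k10,k2)]]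
    [] k0
    []
    []]⟩

/-- classes `0 1 0 2 3 4`, types `N0 S0 N2 S0 S0 S0` -/
noncomputable def cT6_2403 : CertT :=
  ⟨[k12,k16,k14,k32,k48,k64],[],[[[]]],
    [.lp [k2,k2,k2,k2,k2,k2] [k0,k0,k0,k0,k0,k0,k0,k0,k0,k0,k0,k0] k0 [] k8 k5
    [[(k1,k2),(k10,k2)],[(k4,k2)],[(k7,k2)],[(k2,k2),(k5,k2)],[(k2,k2),(k5,k2)],[(k0,k2)],[(k3,k2)],[(k6,k2),(k9,k2)],
    [(k6,k2),(k9,k2)],[(k8,k2),(k11,k2)],[(k8,k2),(k11,k2)],[(k1,k2),(k10,k2)]]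
    [] k0
    []
    []]⟩

/-- classes `0 1 0 2 3 4`, types `S0 C0 S0 C0 C0 C0` -/
noncomputable def cT6_2404 : CertT :=
  ⟨[k0,k20,k0,k36,k52,k68],[],[[[]]],
    [.lp [k2,k2,k2,k2,k2,k2] [k0,k0,k0,k0,k0,k0,k0,k0,k0,k0,k0,k0] k0 [] k8 k5
    [[(k10,k2)],[(k0,k2),(k3,k2),(k4,k2),(k7,k2)],[(k0,k2),(k3,k2),(k4,k2),(k7,k2)],[(k5,k2)],[(k2,k2)],[(k0,k2),(k3,
    k2),(k4,k2),(k7,k2)],[(k0,k2),(k3,k2),(k4,k2),(k7,k2)],[(k9,k2)],[(k6,k2)],[(k11,k2)],[(k8,k2)],[(k1,k2)]]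
    [] k0
    []
    []]⟩

/-- classes `0 1 0 2 3 4`, types `S0 C0 S0 C0 C0 S0` -/
noncomputable def cT6_2405 : CertT :=
  ⟨[k0,k20,k0,k36,k52,k64],[],[[[]]],
    [.lp [k2,k2,k2,k2,k2,k2] [k0,k0,k0,k0,k0,k0,k0,k0,k0,k0,k0,k0] k0 [] k8 k5
    [[(k1,k2),(k10,k2)],[(k0,k2),(k3,k2),(k4,k2),(k7,k2)],[(k0,k2),(k3,k2),(k4,k2),(k7,k2)],[(k5,k2)],[(k2,k2)],[(k0,
    k2),(k3,k2),(k4,k2),(k7,k2)],[(k0,k2),(k3,k2),(k4,k2),(k7,k2)],[(k9,k2)],[(k6,k2)],[(k11,k2)],[(k8,k2)],[(k1,k2),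
    (k10,k2)]]
    [] k0
    []
    []]⟩

/-- classes `0 1 0 2 3 4`, types `S0 C0 S0 C0 S0 C0` -/
noncomputable def cT6_2406 : CertT :=
  ⟨[k0,k20,k0,k36,k48,k68],[],[[[]]],
    [.lp [k2,k2,k2,k2,k2,k2] [k0,k0,k0,k0,k0,k0,k0,k0,k0,k0,k0,k0] k0 [] k8 k5
    [[(k10,k2)],[(k0,k2),(k3,k2),(k4,k2),(k7,k2)],[(k0,k2),(k3,k2),(k4,k2),(k7,k2)],[(k5,k2)],[(k2,k2)],[(k0,k2),(k3,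
    k2),(k4,k2),(k7,k2)],[(k0,k2),(k3,k2),(k4,k2),(k7,k2)],[(k9,k2)],[(k6,k2)],[(k8,k2),(k11,k2)],[(k8,k2),(k11,k2)],
    [(k1,k2)]]
    [] k0
    []
    []]⟩

/-- classes `0 1 0 2 3 4`, types `S0 C0 S0 C0 S0 S0` -/
noncomputable def cT6_2407 : CertT :=
  ⟨[k0,k20,k0,k36,k48,k64],[],[[[]]],
    [.lp [k2,k2,k2,k2,k2,k2] [k0,k0,k0,k0,k0,k0,k0,k0,k0,k0,k0,k0] k0 [] k8 k5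
    [[(k1,k2),(k10,k2)],[(k0,k2),(k3,k2),(k4,k2),(k7,k2)],[(k0,k2),(k3,k2),(k4,k2),(k7,k2)],[(k5,k2)],[(k2,k2)],[(k0,
    k2),(k3,k2),(k4,k2),(k7,k2)],[(k0,k2),(k3,k2),(k4,k2),(k7,k2)],[(k9,k2)],[(k6,k2)],[(k8,k2),(k11,k2)],[(k8,k2),
    (k11,k2)],[(k1,k2),(k10,k2)]]
    [] k0
    []
    []]⟩

/-- classes `0 1 0 2 3 4`, types `S0 C0 S0 S0 C0 S0` -/
noncomputable def cT6_2408 : CertT :=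
  ⟨[k0,k20,k0,k32,k52,k64],[],[[[]]],
    [.lp [k2,k2,k2,k2,k2,k2] [k0,k0,k0,k0,k0,k0,k0,k0,k0,k0,k0,k0] k0 [] k8 k5
    [[(k1,k2),(k10,k2)],[(k0,k2),(k3,k2),(k4,k2),(k7,k2)],[(k0,k2),(k3,k2),(k4,k2),(k7,k2)],[(k5,k2)],[(k2,k2)],[(k0,
    k2),(k3,k2),(k4,k2),(k7,k2)],[(k0,k2),(k3,k2),(k4,k2),(k7,k2)],[(k6,k2),(k9,k2)],[(k6,k2),(k9,k2)],[(k11,k2)],
    [(k8,k2)],[(k1,k2),(k10,k2)]]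
    [] k0
    []
    []]⟩

/-- classes `0 1 0 2 3 4`, types `S0 C0 S0 S0 S0 S0` -/
noncomputable def cT6_2409 : CertT :=
  ⟨[k0,k20,k0,k32,k48,k64],[],[[[]]],
    [.lp [k2,k2,k2,k2,k2,k2] [k0,k0,k0,k0,k0,k0,k0,k0,k0,k0,k0,k0] k0 [] k8 k5
    [[(k1,k2),(k10,k2)],[(k0,k2),(k3,k2),(k4,k2),(k7,k2)],[(k0,k2),(k3,k2),(k4,k2),(k7,k2)],[(k5,k2)],[(k2,k2)],[(k0,
    k2),(k3,k2),(k4,k2),(k7,k2)],[(k0,k2),(k3,k2),(k4,k2),(k7,k2)],[(k6,k2),(k9,k2)],[(k6,k2),(k9,k2)],[(k8,k2),(k11,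
    k2)],[(k8,k2),(k11,k2)],[(k1,k2),(k10,k2)]]
    [] k0
    []
    []]⟩

/-- classes `0 1 0 2 3 4`, types `S0 S0 S0 C0 C0 C0` -/
noncomputable def cT6_2410 : CertT :=
  ⟨[k0,k16,k0,k36,k52,k68],[],[[[]]],
    [.lp [k2,k2,k2,k2,k2,k2] [k0,k0,k0,k0,k0,k0,k0,k0,k0,k0,k0,k0] k0 [] k8 k5
    [[(k10,k2)],[(k0,k2),(k3,k2),(k4,k2),(k7,k2)],[(k0,k2),(k3,k2),(k4,k2),(k7,k2)],[(k2,k2),(k5,k2)],[(k2,k2),(k5,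
    k2)],[(k0,k2),(k3,k2),(k4,k2),(k7,k2)],[(k0,k2),(k3,k2),(k4,k2),(k7,k2)],[(k9,k2)],[(k6,k2)],[(k11,k2)],[(k8,k2)],
    [(k1,k2)]]
    [] k0
    []
    []]⟩

/-- classes `0 1 0 2 3 4`, types `S0 S0 S0 C0 C0 S0` -/
noncomputable def cT6_2411 : CertT :=
  ⟨[k0,k16,k0,k36,k52,k64],[],[[[]]],
    [.lp [k2,k2,k2,k2,k2,k2] [k0,k0,k0,k0,k0,k0,k0,k0,k0,k0,k0,k0] k0 [] k8 k5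
    [[(k1,k2),(k10,k2)],[(k0,k2),(k3,k2),(k4,k2),(k7,k2)],[(k0,k2),(k3,k2),(k4,k2),(k7,k2)],[(k2,k2),(k5,k2)],[(k2,
    k2),(k5,k2)],[(k0,k2),(k3,k2),(k4,k2),(k7,k2)],[(k0,k2),(k3,k2),(k4,k2),(k7,k2)],[(k9,k2)],[(k6,k2)],[(k11,k2)],
    [(k8,k2)],[(k1,k2),(k10,k2)]]
    [] k0
    []
    []]⟩

/-- classes `0 1 0 2 3 4`, types `S0 S0 S0 C0 S0 C0` -/
noncomputable def cT6_2412 : CertT :=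
  ⟨[k0,k16,k0,k36,k48,k68],[],[[[]]],
    [.lp [k2,k2,k2,k2,k2,k2] [k0,k0,k0,k0,k0,k0,k0,k0,k0,k0,k0,k0] k0 [] k8 k5
    [[(k10,k2)],[(k0,k2),(k3,k2),(k4,k2),(k7,k2)],[(k0,k2),(k3,k2),(k4,k2),(k7,k2)],[(k2,k2),(k5,k2)],[(k2,k2),(k5,
    k2)],[(k0,k2),(k3,k2),(k4,k2),(k7,k2)],[(k0,k2),(k3,k2),(k4,k2),(k7,k2)],[(k9,k2)],[(k6,k2)],[(k8,k2),(k11,k2)],
    [(k8,k2),(k11,k2)],[(k1,k2)]]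
    [] k0
    []
    []]⟩

/-- classes `0 1 0 2 3 4`, types `S0 S0 S0 C0 S0 S0` -/
noncomputable def cT6_2413 : CertT :=
  ⟨[k0,k16,k0,k36,k48,k64],[],[[[]]],
    [.lp [k2,k2,k2,k2,k2,k2] [k0,k0,k0,k0,k0,k0,k0,k0,k0,k0,k0,k0] k0 [] k8 k5
    [[(k1,k2),(k10,k2)],[(k0,k2),(k3,k2),(k4,k2),(k7,k2)],[(k0,k2),(k3,k2),(k4,k2),(k7,k2)],[(k2,k2),(k5,k2)],[(k2,
    k2),(k5,k2)],[(k0,k2),(k3,k2),(k4,k2),(k7,k2)],[(k0,k2),(k3,k2),(k4,k2),(k7,k2)],[(k9,k2)],[(k6,k2)],[(k8,k2),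
    (k11,k2)],[(k8,k2),(k11,k2)],[(k1,k2),(k10,k2)]]
    [] k0
    []
    []]⟩

/-- classes `0 1 0 2 3 4`, types `S0 S0 S0 S0 C0 S0` -/
noncomputable def cT6_2414 : CertT :=
  ⟨[k0,k16,k0,k32,k52,k64],[],[[[]]],
    [.lp [k2,k2,k2,k2,k2,k2] [k0,k0,k0,k0,k0,k0,k0,k0,k0,k0,k0,k0] k0 [] k8 k5
    [[(k1,k2),(k10,k2)],[(k0,k2),(k3,k2),(k4,k2),(k7,k2)],[(k0,k2),(k3,k2),(k4,k2),(k7,k2)],[(k2,k2),(k5,k2)],[(k2,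
    k2),(k5,k2)],[(k0,k2),(k3,k2),(k4,k2),(k7,k2)],[(k0,k2),(k3,k2),(k4,k2),(k7,k2)],[(k6,k2),(k9,k2)],[(k6,k2),(k9,
    k2)],[(k11,k2)],[(k8,k2)],[(k1,k2),(k10,k2)]]
    [] k0
    []
    []]⟩

/-- classes `0 1 2 0 1 2`, types `B0 B0 B0 B1 B1 B1` -/
noncomputable def cT6_2415 : CertT :=
  ⟨[k8,k24,k40,k9,k25,k41],[(false,k0,[k0,k1,k2,k3,k4,k5])],[[[([z1,z0,z1,z0,z1,z0],z2)],[]]],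
    [.leafM k1 [k0,k1,k2,k3,k4,k5] [(z1,[y1,z1]),(z1,[z1])] [],
    .lp [k2,k4,k2,k2,k2,k2] [k1,k1,k0,k0,k1,k1,k1,k1,k1,k1,k1,k1] k0 [] k8 k5
    [[(k4,k2),(k7,k2)],[(k6,k2),(k9,k2)],[(k6,k3),(k9,k3)],[(k8,k3),(k11,k3)],[(k8,k2),(k11,k2)],[(k1,k2),(k10,k2)],
    [(k1,k2),(k10,k2)],[(k0,k2),(k3,k3)],[(k0,k2),(k3,k3)],[(k5,k2),(k2,k3)],[(k5,k2),(k2,k3)],[(k4,k2),(k7,k2)]]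
    [] k0
    [[k1,k0,k1,k0,k1,k0]]
    [.ref k0 k0 [(z1,[z1])]]]⟩

/-- classes `0 1 2 0 1 2`, types `B0 B0 C0 B1 B1 C0` -/
noncomputable def cT6_2416 : CertT :=
  ⟨[k8,k24,k36,k9,k25,k36],[(false,k0,[k0,k1,k2,k3,k4,k5])],[[[([z1,z0,z1,z0,z1,z0],z2)],[]]],
    [.leafM k1 [k0,k1,k2,k3,k4,k5] [(z1,[y1,z1]),(z1,[z1])] [],
    .lp [k2,k4,k2,k2,k2,k2] [k1,k1,k0,k0,k1,k1,k1,k1,k1,k1,k1,k1] k0 [] k8 k5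
    [[(k4,k2),(k10,k2)],[(k6,k2),(k9,k2)],[(k6,k3),(k9,k3)],[(k8,k3),(k11,k3)],[(k8,k2),(k11,k2)],[(k1,k2),(k7,k2)],
    [(k4,k2),(k10,k2)],[(k0,k2),(k3,k3)],[(k0,k2),(k3,k3)],[(k5,k2),(k2,k3)],[(k5,k2),(k2,k3)],[(k1,k2),(k7,k2)]]
    [] k0
    [[k1,k0,k1,k0,k1,k0]]
    [.ref k0 k0 [(z1,[z1])]]]⟩

/-- classes `0 1 2 0 1 2`, types `B0 B0 C0 B1 B1 C2` -/
noncomputable def cT6_2417 : CertT :=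
  ⟨[k8,k24,k36,k9,k25,k38],[],[[[]]],
    [.lp [k2,k2,k2,k0,k0,k0] [k0,k0,k0,k0,k0,k0,k1,k1,k1,k1,k1,k1] k0 [] k4 k5
    [[(k7,k1),(k10,k1)],[(k6,k1),(k9,k1)],[(k6,k1),(k9,k1)],[(k8,k1),(k11,k1)],[(k8,k1),(k11,k1)],[(k7,k1),(k10,k1)],
    [(k1,k1),(k4,k1)],[(k0,k1),(k3,k1)],[(k0,k1),(k3,k1)],[(k2,k1),(k5,k1)],[(k2,k1),(k5,k1)],[(k1,k1),(k4,k1)]]
    [] k0
    []
    []]⟩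

/-- classes `0 1 2 0 1 2`, types `B0 B0 N0 B1 B1 N1` -/
noncomputable def cT6_2418 : CertT :=
  ⟨[k8,k24,k44,k9,k25,k45],[(false,k0,[k0,k1,k2,k3,k4,k5])],[[[([z1,z0,z1,z0,z1,z0],z2)],[]]],
    [.leafM k1 [k0,k1,k2,k3,k4,k5] [(z1,[y1,z1]),(z1,[z1])] [],
    .lp [k2,k4,k2,k2,k2,k2] [k1,k1,k0,k0,k1,k1,k1,k1,k1,k1,k1,k1] k0 [] k8 k5
    [[(k4,k2)],[(k6,k2),(k9,k2)],[(k6,k3),(k9,k3)],[(k8,k3),(k11,k3)],[(k8,k2),(k11,k2)],[(k1,k2)],[(k10,k2)],[(k0,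
    k2),(k3,k3)],[(k0,k2),(k3,k3)],[(k5,k2),(k2,k3)],[(k5,k2),(k2,k3)],[(k7,k2)]]
    [] k0
    [[k1,k0,k1,k0,k1,k0]]
    [.ref k0 k0 [(z1,[z1])]]]⟩

/-- classes `0 1 2 0 1 2`, types `B0 B0 N0 B1 B1 N2` -/
noncomputable def cT6_2419 : CertT :=
  ⟨[k8,k24,k44,k9,k25,k46],[],[[[]]],
    [.lp [k2,k2,k2,k0,k0,k0] [k0,k0,k0,k0,k0,k0,k1,k1,k1,k1,k1,k1] k0 [] k4 k5
    [[(k7,k1)],[(k6,k1),(k9,k1)],[(k6,k1),(k9,k1)],[(k8,k1),(k11,k1)],[(k8,k1),(k11,k1)],[(k10,k1)],[(k1,k1)],[(k0,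
    k1),(k3,k1)],[(k0,k1),(k3,k1)],[(k2,k1),(k5,k1)],[(k2,k1),(k5,k1)],[(k4,k1)]]
    [] k0
    []
    []]⟩

/-- classes `0 1 2 0 1 2`, types `B0 B0 S0 B1 B1 S0` -/
noncomputable def cT6_2420 : CertT :=
  ⟨[k8,k24,k32,k9,k25,k32],[(false,k0,[k0,k1,k2,k3,k4,k5])],[[[([z1,z0,z1,z0,z1,z0],z2)],[]]],
    [.leafM k1 [k0,k1,k2,k3,k4,k5] [(z1,[y1,z1]),(z1,[z1])] [],
    .lp [k4,k2,k2,k2,k2,k2] [k0,k0,k1,k1,k1,k1,k1,k1,k1,k1,k1,k1] k0 [] k8 k5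
    [[(k4,k3),(k7,k3),(k10,k3),(k1,k4)],[(k6,k3),(k9,k3)],[(k6,k2),(k9,k2)],[(k8,k2),(k11,k2)],[(k8,k2),(k11,k2)],
    [(k4,k2),(k7,k2),(k10,k2),(k1,k3)],[(k4,k2),(k7,k2),(k10,k2),(k1,k3)],[(k3,k2),(k0,k3)],[(k3,k2),(k0,k3)],[(k2,
    k2),(k5,k2)],[(k2,k2),(k5,k2)],[(k4,k2),(k7,k2),(k10,k2),(k1,k3)]]
    [] k0
    [[k0,k1,k0,k1,k0,k1]]
    [.ref k0 k0 [(z1,[y1,z1])]]]⟩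

/-- classes `0 1 2 0 1 2`, types `B0 C0 C0 B1 C0 C0` -/
noncomputable def cT6_2421 : CertT :=
  ⟨[k8,k20,k36,k9,k20,k36],[(false,k0,[k0,k1,k2,k3,k4,k5])],[[[([z1,z0,z1,z0,z1,z0],z2)],[([z1,z0,z0,z0,z1,z1],z2)],
    []]],
    [.leafM k1 [k0,k1,k2,k3,k4,k5] [(z1,[y1,z1]),(z1,[z1])] [],
    .leafM k0 [k0,k1,k2,k3,k4,k5] [(z1,[y1,z1])] [],
    .lp [k2,k2,k2,k4,k2,k2] [k1,k1,k1,k1,k1,k1,k0,k0,k1,k1,k1,k1] k0 [] k8 k5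
    [[(k4,k2),(k10,k2)],[(k9,k2),(k6,k3)],[(k9,k2),(k6,k3)],[(k5,k2),(k11,k2)],[(k2,k2),(k8,k2)],[(k1,k2),(k7,k3)],
    [(k4,k3),(k10,k3)],[(k0,k3),(k3,k3)],[(k0,k2),(k3,k2)],[(k5,k2),(k11,k2)],[(k2,k2),(k8,k2)],[(k1,k2),(k7,k3)]]
    [] k0
    [[k1,k0,k1,k0,k1,k0],[k1,k0,k0,k0,k1,k1]]
    [.ref k0 k0 [(z1,[z1])],.ref k1 k0 [(z1,[z1])]]]⟩

/-- classes `0 1 2 0 1 2`, types `B0 C0 C0 B1 C0 C2` -/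
noncomputable def cT6_2422 : CertT :=
  ⟨[k8,k20,k36,k9,k20,k38],[(false,k0,[k0,k1,k2,k3,k4,k5])],[[[([z1,z0,z0,z0,z1,z1],z2)],[]]],
    [.leafM k0 [k0,k1,k2,k3,k4,k5] [(z1,[y1,z1])] [],
    .lp [k2,k2,k2,k4,k2,k2] [k1,k1,k1,k1,k1,k1,k0,k0,k1,k1,k1,k1] k0 [] k8 k5
    [[(k10,k2),(k7,k3)],[(k9,k2),(k6,k3)],[(k9,k2),(k6,k3)],[(k5,k2),(k11,k2)],[(k2,k2),(k8,k2)],[(k10,k2),(k7,k3)],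
    [(k1,k3),(k4,k3)],[(k0,k3),(k3,k3)],[(k0,k2),(k3,k2)],[(k5,k2),(k11,k2)],[(k2,k2),(k8,k2)],[(k1,k2),(k4,k2)]]
    [] k0
    [[k1,k0,k0,k0,k1,k1]]
    [.ref k0 k0 [(z1,[z1])]]]⟩

/-- classes `0 1 2 0 1 2`, types `B0 C0 C0 B1 C2 C2` -/
noncomputable def cT6_2423 : CertT :=
  ⟨[k8,k20,k36,k9,k22,k38],[(false,k0,[k0,k1,k2,k3,k4,k5])],[[[([z1,z0,z0,z0,z1,z1],z2)],[]]],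
    [.leafM k0 [k0,k1,k2,k3,k4,k5] [(z1,[y1,z1])] [],
    .lp [k2,k2,k2,k4,k2,k2] [k1,k1,k1,k1,k1,k1,k0,k0,k1,k1,k1,k1] k0 [] k8 k5
    [[(k10,k2),(k7,k3)],[(k9,k2),(k6,k3)],[(k9,k2),(k6,k3)],[(k5,k2),(k8,k2)],[(k2,k2),(k11,k2)],[(k10,k2),(k7,k3)],
    [(k1,k3),(k4,k3)],[(k0,k3),(k3,k3)],[(k0,k2),(k3,k2)],[(k2,k2),(k11,k2)],[(k5,k2),(k8,k2)],[(k1,k2),(k4,k2)]]
    [] k0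
    [[k1,k0,k0,k0,k1,k1]]
    [.ref k0 k0 [(z1,[z1])]]]⟩

/-- classes `0 1 2 0 1 2`, types `B0 C0 N0 B1 C0 N1` -/
noncomputable def cT6_2424 : CertT :=
  ⟨[k8,k20,k44,k9,k20,k45],[(false,k0,[k0,k1,k2,k3,k4,k5])],[[[([z1,z0,z1,z0,z1,z0],z2)],[]]],
    [.leafM k1 [k0,k1,k2,k3,k4,k5] [(z1,[y1,z1]),(z1,[z1])] [],
    .lp [k2,k2,k2,k4,k2,k2] [k1,k1,k1,k1,k1,k1,k0,k0,k1,k1,k1,k1] k0 [] k8 k5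
    [[(k4,k2)],[(k9,k2),(k6,k3)],[(k9,k2),(k6,k3)],[(k5,k2),(k11,k2)],[(k2,k2),(k8,k2)],[(k1,k2)],[(k10,k3)],[(k0,k3),
    (k3,k3)],[(k0,k2),(k3,k2)],[(k5,k2),(k11,k2)],[(k2,k2),(k8,k2)],[(k7,k3)]]
    [] k0
    [[k1,k0,k1,k0,k1,k0]]
    [.ref k0 k0 [(z1,[z1])]]]⟩

/-- classes `0 1 2 0 1 2`, types `B0 C0 N0 B1 C0 N2` -/
noncomputable def cT6_2425 : CertT :=
  ⟨[k8,k20,k44,k9,k20,k46],[],[[[]]],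
    [.lp [k2,k2,k2,k2,k2,k2] [k0,k0,k0,k0,k0,k0,k0,k0,k0,k0,k0,k0] k0 [] k8 k5
    [[(k7,k2)],[(k6,k2),(k9,k2)],[(k6,k2),(k9,k2)],[(k5,k2),(k11,k2)],[(k2,k2),(k8,k2)],[(k10,k2)],[(k1,k2)],[(k0,k2),
    (k3,k2)],[(k0,k2),(k3,k2)],[(k5,k2),(k11,k2)],[(k2,k2),(k8,k2)],[(k4,k2)]]
    [] k0
    []
    []]⟩

/-- classes `0 1 2 0 1 2`, types `B0 C0 N0 B1 C2 N1` -/
noncomputable def cT6_2426 : CertT :=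
  ⟨[k8,k20,k44,k9,k22,k45],[],[[[]]],
    [.lp [k0,k0,k2,k2,k2,k0] [k1,k1,k1,k1,k0,k0,k0,k0,k0,k0,k1,k1] k0 [] k4 k5
    [[(k4,k1)],[(k6,k1),(k9,k1)],[(k6,k1),(k9,k1)],[(k5,k1),(k8,k1)],[(k2,k1),(k11,k1)],[(k1,k1)],[(k10,k1)],[(k0,k1),
    (k3,k1)],[(k0,k1),(k3,k1)],[(k2,k1),(k11,k1)],[(k5,k1),(k8,k1)],[(k7,k1)]]
    [] k0
    []
    []]⟩

/-- classes `0 1 2 0 1 2`, types `B0 C0 N0 B1 C2 N2` -/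
noncomputable def cT6_2427 : CertT :=
  ⟨[k8,k20,k44,k9,k22,k46],[],[[[]]],
    [.lp [k0,k0,k2,k2,k2,k0] [k1,k1,k1,k1,k0,k0,k0,k0,k0,k0,k1,k1] k0 [] k4 k5
    [[(k7,k1)],[(k6,k1),(k9,k1)],[(k6,k1),(k9,k1)],[(k5,k1),(k8,k1)],[(k2,k1),(k11,k1)],[(k10,k1)],[(k1,k1)],[(k0,k1),
    (k3,k1)],[(k0,k1),(k3,k1)],[(k2,k1),(k11,k1)],[(k5,k1),(k8,k1)],[(k4,k1)]]
    [] k0
    []
    []]⟩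

/-- classes `0 1 2 0 1 2`, types `B0 C0 S0 B1 C0 S0` -/
noncomputable def cT6_2428 : CertT :=
  ⟨[k8,k20,k32,k9,k20,k32],[(false,k0,[k0,k1,k2,k3,k4,k5])],[[[([z1,z0,z1,z0,z1,z0],z2)],[([z1,z0,z0,z0,z1,z1],z2)],
    []]],
    [.leafM k1 [k0,k1,k2,k3,k4,k5] [(z1,[y1,z1]),(z1,[z1])] [],
    .leafM k0 [k0,k1,k2,k3,k4,k5] [(z1,[y1,z1])] [],
    .lp [k2,k4,k2,k2,k2,k2] [k1,k1,k0,k0,k1,k1,k1,k1,k1,k1,k1,k1] k0 [] k8 k5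
    [[(k1,k2),(k4,k2),(k7,k2),(k10,k2)],[(k6,k2),(k9,k2)],[(k6,k3),(k9,k3)],[(k5,k3),(k11,k3)],[(k8,k2),(k2,k3)],[(k1,
    k2),(k4,k2),(k7,k2),(k10,k2)],[(k1,k2),(k4,k2),(k7,k2),(k10,k2)],[(k0,k2),(k3,k3)],[(k0,k2),(k3,k3)],[(k5,k2),
    (k11,k2)],[(k8,k2),(k2,k3)],[(k1,k2),(k4,k2),(k7,k2),(k10,k2)]]
    [] k0
    [[k1,k0,k1,k0,k1,k0],[k1,k0,k0,k0,k1,k1]]
    [.ref k0 k0 [(z1,[z1])],.ref k1 k0 [(z1,[z1])]]]⟩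

/-- classes `0 1 2 0 1 2`, types `B0 C0 S0 B1 C2 S0` -/
noncomputable def cT6_2429 : CertT :=
  ⟨[k8,k20,k32,k9,k22,k32],[(false,k0,[k0,k1,k2,k3,k4,k5])],[[[([z1,z0,z0,z0,z1,z1],z2)],[]]],
    [.leafM k0 [k0,k1,k2,k3,k4,k5] [(z1,[y1,z1])] [],
    .lp [k2,k4,k2,k2,k2,k2] [k1,k1,k0,k0,k1,k1,k1,k1,k1,k1,k1,k1] k0 [] k8 k5
    [[(k1,k2),(k4,k2),(k7,k2),(k10,k2)],[(k6,k2),(k9,k2)],[(k6,k3),(k9,k3)],[(k5,k3),(k8,k3)],[(k11,k2),(k2,k3)],[(k1,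
    k2),(k4,k2),(k7,k2),(k10,k2)],[(k1,k2),(k4,k2),(k7,k2),(k10,k2)],[(k0,k2),(k3,k3)],[(k0,k2),(k3,k3)],[(k11,k2),
    (k2,k3)],[(k5,k2),(k8,k2)],[(k1,k2),(k4,k2),(k7,k2),(k10,k2)]]
    [] k0
    [[k1,k0,k0,k0,k1,k1]]
    [.ref k0 k0 [(z1,[z1])]]]⟩

/-- classes `0 1 2 0 1 2`, types `B0 N0 N0 B1 N1 N1` -/
noncomputable def cT6_2430 : CertT :=
  ⟨[k8,k28,k44,k9,k29,k45],[(false,k0,[k0,k1,k2,k3,k4,k5])],[[[([z1,z0,z1,z0,z1,z0],z2)],[]]],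
    [.leafM k1 [k0,k1,k2,k3,k4,k5] [(z1,[y1,z1]),(z1,[z1])] [],
    .lp [k2,k4,k2,k4,k2,k0] [k1,k1,k0,k0,k1,k1,k0,k0,k1,k1,k2,k2] k0 [] k8 k5
    [[(k4,k2)],[(k9,k2),(k6,k3)],[(k9,k3),(k6,k4)],[(k11,k2)],[(k8,k2)],[(k1,k2)],[(k10,k2)],[(k0,k3),(k3,k4)],[(k0,
    k2),(k3,k3)],[(k5,k2)],[(k2,k2)],[(k7,k2)]]
    [] k0
    [[k1,k0,k1,k0,k1,k0]]
    [.ref k0 k0 [(z1,[z1])]]]⟩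

/-- classes `0 1 2 0 1 2`, types `B0 N0 N0 B1 N1 N2` -/
noncomputable def cT6_2431 : CertT :=
  ⟨[k8,k28,k44,k9,k29,k46],[],[[[]]],
    [.lp [k0,k0,k0,k2,k2,k2] [k1,k1,k1,k1,k1,k1,k0,k0,k0,k0,k0,k0] k0 [] k4 k5
    [[(k7,k1)],[(k6,k1),(k9,k1)],[(k6,k1),(k9,k1)],[(k11,k1)],[(k8,k1)],[(k10,k1)],[(k1,k1)],[(k0,k1),(k3,k1)],[(k0,
    k1),(k3,k1)],[(k5,k1)],[(k2,k1)],[(k4,k1)]]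
    [] k0
    []
    []]⟩

/-- classes `0 1 2 0 1 2`, types `B0 N0 N0 B1 N2 N2` -/
noncomputable def cT6_2432 : CertT :=
  ⟨[k8,k28,k44,k9,k30,k46],[],[[[]]],
    [.lp [k0,k0,k2,k2,k2,k0] [k1,k1,k1,k1,k0,k0,k0,k0,k0,k0,k1,k1] k0 [] k4 k5
    [[(k7,k1)],[(k6,k1),(k9,k1)],[(k6,k1),(k9,k1)],[(k8,k1)],[(k11,k1)],[(k10,k1)],[(k1,k1)],[(k0,k1),(k3,k1)],[(k0,
    k1),(k3,k1)],[(k2,k1)],[(k5,k1)],[(k4,k1)]]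
    [] k0
    []
    []]⟩

/-- classes `0 1 2 0 1 2`, types `B0 N0 S0 B1 N1 S0` -/
noncomputable def cT6_2433 : CertT :=
  ⟨[k8,k28,k32,k9,k29,k32],[(false,k0,[k0,k1,k2,k3,k4,k5])],[[[([z1,z0,z1,z0,z1,z0],z2)],[]]],
    [.leafM k1 [k0,k1,k2,k3,k4,k5] [(z1,[y1,z1]),(z1,[z1])] [],
    .lp [k2,k2,k2,k2,k2,k4] [k1,k1,k1,k1,k1,k1,k1,k1,k1,k1,k0,k0] k0 [] k8 k5
    [[(k1,k2),(k4,k2),(k7,k2),(k10,k3)],[(k6,k2),(k9,k2)],[(k6,k2),(k9,k2)],[(k11,k3)],[(k8,k2)],[(k1,k2),(k4,k2),(k7,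
    k2),(k10,k3)],[(k1,k2),(k4,k2),(k7,k2),(k10,k3)],[(k0,k2),(k3,k2)],[(k0,k2),(k3,k2)],[(k5,k2)],[(k2,k3)],[(k1,k3),
    (k4,k3),(k7,k3),(k10,k4)]]
    [] k0
    [[k1,k0,k1,k0,k1,k0]]
    [.ref k0 k0 [(z1,[z1])]]]⟩

/-- classes `0 1 2 0 1 2`, types `B0 N0 S0 B1 N2 S0` -/
noncomputable def cT6_2434 : CertT :=
  ⟨[k8,k28,k32,k9,k30,k32],[],[[[]]],
    [.lp [k2,k2,k2,k2,k2,k2] [k0,k0,k0,k0,k0,k0,k0,k0,k0,k0,k0,k0] k0 [] k8 k5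
    [[(k1,k2),(k4,k2),(k7,k2),(k10,k2)],[(k6,k2),(k9,k2)],[(k6,k2),(k9,k2)],[(k8,k2)],[(k11,k2)],[(k1,k2),(k4,k2),(k7,
    k2),(k10,k2)],[(k1,k2),(k4,k2),(k7,k2),(k10,k2)],[(k0,k2),(k3,k2)],[(k0,k2),(k3,k2)],[(k2,k2)],[(k5,k2)],[(k1,k2),
    (k4,k2),(k7,k2),(k10,k2)]]
    [] k0
    []
    []]⟩

/-- classes `0 1 2 0 1 2`, types `B0 S0 S0 B1 S0 S0` -/
noncomputable def cT6_2435 : CertT :=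
  ⟨[k8,k16,k32,k9,k16,k32],[(false,k0,[k0,k1,k2,k3,k4,k5])],[[[([z1,z0,z0,z0,z1,z1],z2)],[([z1,z0,z1,z0,z1,z0],z2)],
    []]],
    [.leafM k0 [k0,k1,k2,k3,k4,k5] [(z1,[y1,z1])] [],
    .leafM k1 [k0,k1,k2,k3,k4,k5] [(z1,[y1,z1]),(z1,[z1])] [],
    .lp [k2,k2,k4,k2,k2,k2] [k1,k1,k1,k1,k0,k0,k1,k1,k1,k1,k1,k1] k0 [] k8 k5
    [[(k1,k2),(k7,k2),(k10,k2),(k4,k3)],[(k6,k2),(k9,k2)],[(k6,k2),(k9,k2)],[(k2,k2),(k8,k2),(k11,k2),(k5,k3)],[(k2,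
    k3),(k8,k3),(k11,k3),(k5,k4)],[(k1,k3),(k7,k3),(k10,k3),(k4,k4)],[(k1,k2),(k7,k2),(k10,k2),(k4,k3)],[(k0,k2),(k3,
    k2)],[(k0,k2),(k3,k2)],[(k2,k2),(k8,k2),(k11,k2),(k5,k3)],[(k2,k2),(k8,k2),(k11,k2),(k5,k3)],[(k1,k2),(k7,k2),
    (k10,k2),(k4,k3)]]
    [] k0
    [[k1,k0,k0,k0,k1,k1],[k0,k1,k0,k1,k0,k1]]
    [.ref k0 k0 [(z1,[z1])],.ref k1 k0 [(z1,[y1,z1])]]]⟩

/-- classes `0 1 2 0 1 2`, types `C0 C0 C0 C0 C0 C0` -/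
noncomputable def cT6_2436 : CertT :=
  ⟨[k4,k20,k36,k4,k20,k36],[(false,k1,[k1,k2,k3,k4,k5,k0]),(false,k0,[k0,k1,k2,k3,k4,k5]),(false,k2,[k2,k3,k4,k5,k0,
    k1])],[[[([z1,z0,z0,z0,z1,z1],z2)],[([z1,z0,z1,z0,z1,z0],z2)],[]]],
    [.leafM k0 [k0,k1,k2,k3,k4,k5] [(z1,[y1,z1])] [],
    .leafM k1 [k0,k1,k2,k3,k4,k5] [(z1,[y1,z1]),(z1,[z1])] [],
    .lp [k6,k4,k4,k4,k6,k6] [k0,k0,k1,k1,k1,k1,k1,k1,k0,k0,k0,k0] k0 [] k16 k5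
    [[(k4,k5),(k10,k6)],[(k3,k5),(k9,k6)],[(k6,k4),(k0,k5)],[(k5,k4),(k11,k5)],[(k2,k4),(k8,k5)],[(k7,k4),(k1,k5)],
    [(k4,k4),(k10,k5)],[(k3,k4),(k9,k5)],[(k6,k5),(k0,k6)],[(k5,k5),(k11,k6)],[(k2,k5),(k8,k6)],[(k7,k5),(k1,k6)]]
    [] k0
    [[k1,k1,k1,k0,k0,k0],[k0,k1,k1,k1,k0,k0],[k0,k1,k0,k1,k0,k1],[k0,k0,k1,k1,k1,k0]]
    [.ref k0 k0 [(z1,[y1,z1])],.ref k0 k1 [(z1,[y1,z1])],.ref k1 k1 [(z1,[y1,z1])],.ref k0 k2 [(z1,[z1])]]]⟩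

/-- classes `0 1 2 0 1 2`, types `C0 C0 C0 C0 C0 C2` -/
noncomputable def cT6_2437 : CertT :=
  ⟨[k4,k20,k36,k4,k20,k38],[(false,k0,[k0,k1,k2,k3,k4,k5]),(true,k2,[k2,k1,k0,k5,k4,k3])],[[[([z1,z0,z0,z0,z1,z1],
    z2)],[]]],
    [.leafM k0 [k0,k1,k2,k3,k4,k5] [(z1,[y1,z1])] [],
    .lp [k4,k2,k2,k2,k2,k2] [k0,k0,k1,k1,k1,k1,k1,k1,k1,k1,k1,k1] k0 [] k8 k5
    [[(k7,k3),(k10,k3)],[(k3,k3),(k9,k3)],[(k6,k2),(k0,k3)],[(k5,k2),(k11,k2)],[(k2,k2),(k8,k2)],[(k7,k2),(k10,k2)],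
    [(k4,k2),(k1,k3)],[(k3,k2),(k9,k2)],[(k6,k2),(k0,k3)],[(k5,k2),(k11,k2)],[(k2,k2),(k8,k2)],[(k4,k2),(k1,k3)]]
    [] k0
    [[k0,k1,k1,k1,k0,k0],[k0,k0,k1,k1,k1,k0]]
    [.ref k0 k0 [(z1,[y1,z1])],.ref k0 k1 [(z1,[z1])]]]⟩

/-- classes `0 1 2 0 1 2`, types `C0 C0 C0 C0 C2 C2` -/
noncomputable def cT6_2438 : CertT :=
  ⟨[k4,k20,k36,k4,k22,k38],[(false,k0,[k0,k1,k2,k3,k4,k5])],[[[([z1,z0,z0,z0,z1,z1],z2)],[]]],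
    [.leafM k0 [k0,k1,k2,k3,k4,k5] [(z1,[y1,z1])] [],
    .lp [k4,k2,k2,k2,k2,k2] [k0,k0,k1,k1,k1,k1,k1,k1,k1,k1,k1,k1] k0 [] k8 k5
    [[(k7,k3),(k10,k3)],[(k3,k3),(k9,k3)],[(k6,k2),(k0,k3)],[(k5,k2),(k8,k2)],[(k2,k2),(k11,k2)],[(k7,k2),(k10,k2)],
    [(k4,k2),(k1,k3)],[(k3,k2),(k9,k2)],[(k6,k2),(k0,k3)],[(k2,k2),(k11,k2)],[(k5,k2),(k8,k2)],[(k4,k2),(k1,k3)]]
    [] k0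
    [[k0,k1,k1,k1,k0,k0]]
    [.ref k0 k0 [(z1,[y1,z1])]]]⟩

/-- classes `0 1 2 0 1 2`, types `C0 C0 C0 C2 C2 C2` -/
noncomputable def cT6_2439 : CertT :=
  ⟨[k4,k20,k36,k6,k22,k38],[],[[[]]],
    [.lp [k2,k0,k2,k0,k2,k0] [k0,k0,k1,k1,k0,k0,k1,k1,k0,k0,k1,k1] k0 [] k4 k5
    [[(k7,k1),(k10,k1)],[(k3,k1),(k6,k1)],[(k0,k1),(k9,k1)],[(k5,k1),(k8,k1)],[(k2,k1),(k11,k1)],[(k7,k1),(k10,k1)],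
    [(k1,k1),(k4,k1)],[(k0,k1),(k9,k1)],[(k3,k1),(k6,k1)],[(k2,k1),(k11,k1)],[(k5,k1),(k8,k1)],[(k1,k1),(k4,k1)]]
    [] k0
    []
    []]⟩

/-- classes `0 1 2 0 1 2`, types `C0 C0 N0 C0 C0 N1` -/
noncomputable def cT6_2440 : CertT :=
  ⟨[k4,k20,k44,k4,k20,k45],[(false,k0,[k0,k1,k2,k3,k4,k5])],[[[([z1,z1,z1,z0,z0,z0],z2)],[([z1,z0,z1,z0,z1,z0],z2)],
    []]],
    [.leafM k0 [k2,k3,k4,k5,k0,k1] [(z1,[y1,z1])] [],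
    .leafM k1 [k0,k1,k2,k3,k4,k5] [(z1,[y1,z1]),(z1,[z1])] [],
    .lp [k2,k2,k2,k2,k4,k2] [k1,k1,k1,k1,k1,k1,k1,k1,k0,k0,k1,k1] k0 [] k8 k5
    [[(k4,k2)],[(k3,k2),(k9,k3)],[(k0,k2),(k6,k2)],[(k5,k2),(k11,k2)],[(k2,k2),(k8,k3)],[(k1,k2)],[(k10,k2)],[(k3,k2),
    (k9,k3)],[(k0,k3),(k6,k3)],[(k5,k3),(k11,k3)],[(k2,k2),(k8,k3)],[(k7,k2)]]
    [] k0
    [[k1,k1,k1,k0,k0,k0],[k0,k1,k0,k1,k0,k1]]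
    [.ref k0 k0 [(z1,[z1])],.ref k1 k0 [(z1,[y1,z1])]]]⟩

/-- classes `0 1 2 0 1 2`, types `C0 C0 N0 C0 C0 N2` -/
noncomputable def cT6_2441 : CertT :=
  ⟨[k4,k20,k44,k4,k20,k46],[],[[[]]],
    [.lp [k2,k2,k2,k2,k2,k2] [k0,k0,k0,k0,k0,k0,k0,k0,k0,k0,k0,k0] k0 [] k8 k5
    [[(k7,k2)],[(k3,k2),(k9,k2)],[(k0,k2),(k6,k2)],[(k5,k2),(k11,k2)],[(k2,k2),(k8,k2)],[(k10,k2)],[(k1,k2)],[(k3,k2),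
    (k9,k2)],[(k0,k2),(k6,k2)],[(k5,k2),(k11,k2)],[(k2,k2),(k8,k2)],[(k4,k2)]]
    [] k0
    []
    []]⟩

/-- classes `0 1 2 0 1 2`, types `C0 C0 N0 C0 C2 N1` -/
noncomputable def cT6_2442 : CertT :=
  ⟨[k4,k20,k44,k4,k22,k45],[(false,k0,[k0,k1,k2,k3,k4,k5])],[[[([z1,z1,z1,z0,z0,z0],z2)],[]]],
    [.leafM k0 [k2,k3,k4,k5,k0,k1] [(z1,[y1,z1])] [],
    .lp [k2,k2,k2,k4,k2,k2] [k1,k1,k1,k1,k1,k1,k0,k0,k1,k1,k1,k1] k0 [] k8 k5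
    [[(k4,k2)],[(k3,k2),(k9,k2)],[(k0,k2),(k6,k3)],[(k5,k2),(k8,k2)],[(k2,k2),(k11,k2)],[(k1,k2)],[(k10,k3)],[(k3,k3),
    (k9,k3)],[(k0,k2),(k6,k3)],[(k2,k2),(k11,k2)],[(k5,k2),(k8,k2)],[(k7,k3)]]
    [] k0
    [[k1,k1,k1,k0,k0,k0]]
    [.ref k0 k0 [(z1,[z1])]]]⟩

/-- classes `0 1 2 0 1 2`, types `C0 C0 N0 C0 C2 N2` -/
noncomputable def cT6_2443 : CertT :=
  ⟨[k4,k20,k44,k4,k22,k46],[],[[[]]],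
    [.lp [k2,k2,k2,k2,k2,k2] [k0,k0,k0,k0,k0,k0,k0,k0,k0,k0,k0,k0] k0 [] k8 k5
    [[(k7,k2)],[(k3,k2),(k9,k2)],[(k0,k2),(k6,k2)],[(k5,k2),(k8,k2)],[(k2,k2),(k11,k2)],[(k10,k2)],[(k1,k2)],[(k3,k2),
    (k9,k2)],[(k0,k2),(k6,k2)],[(k2,k2),(k11,k2)],[(k5,k2),(k8,k2)],[(k4,k2)]]
    [] k0
    []
    []]⟩

/-- classes `0 1 2 0 1 2`, types `C0 C0 N0 C2 C2 N1` -/
noncomputable def cT6_2444 : CertT :=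
  ⟨[k4,k20,k44,k6,k22,k45],[(false,k0,[k0,k1,k2,k3,k4,k5])],[[[([z1,z1,z1,z0,z0,z0],z2)],[]]],
    [.leafM k0 [k2,k3,k4,k5,k0,k1] [(z1,[y1,z1])] [],
    .lp [k4,k2,k2,k2,k2,k2] [k0,k0,k1,k1,k1,k1,k1,k1,k1,k1,k1,k1] k0 [] k8 k5
    [[(k4,k3)],[(k3,k3),(k6,k3)],[(k9,k2),(k0,k3)],[(k5,k2),(k8,k2)],[(k2,k2),(k11,k2)],[(k1,k3)],[(k10,k2)],[(k9,k2),
    (k0,k3)],[(k3,k2),(k6,k2)],[(k2,k2),(k11,k2)],[(k5,k2),(k8,k2)],[(k7,k2)]]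
    [] k0
    [[k0,k0,k0,k1,k1,k1]]
    [.ref k0 k0 [(z1,[y1,z1])]]]⟩

/-- classes `0 1 2 0 1 2`, types `C0 C0 N0 C2 C2 N2` -/
noncomputable def cT6_2445 : CertT :=
  ⟨[k4,k20,k44,k6,k22,k46],[],[[[]]],
    [.lp [k2,k0,k2,k0,k2,k0] [k0,k0,k1,k1,k0,k0,k1,k1,k0,k0,k1,k1] k0 [] k4 k5
    [[(k7,k1)],[(k3,k1),(k6,k1)],[(k0,k1),(k9,k1)],[(k5,k1),(k8,k1)],[(k2,k1),(k11,k1)],[(k10,k1)],[(k1,k1)],[(k0,k1),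
    (k9,k1)],[(k3,k1),(k6,k1)],[(k2,k1),(k11,k1)],[(k5,k1),(k8,k1)],[(k4,k1)]]
    [] k0
    []
    []]⟩

/-- classes `0 1 2 0 1 2`, types `C0 C0 S0 C0 C0 S0` -/
noncomputable def cT6_2446 : CertT :=
  ⟨[k4,k20,k32,k4,k20,k32],[(false,k0,[k0,k1,k2,k3,k4,k5]),(true,k2,[k2,k1,k0,k5,k4,k3])],[[[([z1,z0,z1,z0,z1,z0],
    z2)],[([z1,z0,z0,z0,z1,z1],z2)],[([z1,z1,z1,z0,z0,z0],z2)],[]]],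
    [.leafM k1 [k0,k1,k2,k3,k4,k5] [(z1,[y1,z1]),(z1,[z1])] [],
    .leafM k0 [k0,k1,k2,k3,k4,k5] [(z1,[y1,z1])] [],
    .leafM k0 [k2,k3,k4,k5,k0,k1] [(z1,[y1,z1])] [],
    .lp [k2,k4,k2,k2,k2,k2] [k1,k1,k0,k0,k1,k1,k1,k1,k1,k1,k1,k1] k0 [] k8 k5
    [[(k1,k2),(k4,k2),(k7,k2),(k10,k2)],[(k9,k2),(k3,k3)],[(k0,k3),(k6,k3)],[(k5,k3),(k11,k3)],[(k8,k2),(k2,k3)],[(k1,
    k2),(k4,k2),(k7,k2),(k10,k2)],[(k1,k2),(k4,k2),(k7,k2),(k10,k2)],[(k9,k2),(k3,k3)],[(k0,k2),(k6,k2)],[(k5,k2),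
    (k11,k2)],[(k8,k2),(k2,k3)],[(k1,k2),(k4,k2),(k7,k2),(k10,k2)]]
    [] k0
    [[k1,k0,k1,k0,k1,k0],[k1,k0,k0,k0,k1,k1],[k0,k0,k1,k1,k1,k0],[k0,k0,k0,k1,k1,k1]]
    [.ref k0 k0 [(z1,[z1])],.ref k1 k0 [(z1,[z1])],.ref k1 k1 [(z1,[z1])],.ref k2 k0 [(z1,[y1,z1])]]]⟩

/-- classes `0 1 2 0 1 2`, types `C0 C0 S0 C0 C2 S0` -/
noncomputable def cT6_2447 : CertT :=
  ⟨[k4,k20,k32,k4,k22,k32],[(false,k0,[k0,k1,k2,k3,k4,k5])],[[[([z1,z0,z0,z0,z1,z1],z2)],[([z1,z1,z1,z0,z0,z0],z2)],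
    []]],
    [.leafM k0 [k0,k1,k2,k3,k4,k5] [(z1,[y1,z1])] [],
    .leafM k0 [k2,k3,k4,k5,k0,k1] [(z1,[y1,z1])] [],
    .lp [k4,k2,k2,k2,k2,k2] [k0,k0,k1,k1,k1,k1,k1,k1,k1,k1,k1,k1] k0 [] k8 k5
    [[(k4,k3),(k7,k3),(k10,k3),(k1,k4)],[(k3,k3),(k9,k3)],[(k6,k2),(k0,k3)],[(k5,k2),(k8,k2)],[(k2,k2),(k11,k2)],[(k4,
    k2),(k7,k2),(k10,k2),(k1,k3)],[(k4,k2),(k7,k2),(k10,k2),(k1,k3)],[(k3,k2),(k9,k2)],[(k6,k2),(k0,k3)],[(k2,k2),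
    (k11,k2)],[(k5,k2),(k8,k2)],[(k4,k2),(k7,k2),(k10,k2),(k1,k3)]]
    [] k0
    [[k0,k1,k1,k1,k0,k0],[k0,k0,k0,k1,k1,k1]]
    [.ref k0 k0 [(z1,[y1,z1])],.ref k1 k0 [(z1,[y1,z1])]]]⟩

/-- classes `0 1 2 0 1 2`, types `C0 C0 S0 C2 C2 S0` -/
noncomputable def cT6_2448 : CertT :=
  ⟨[k4,k20,k32,k6,k22,k32],[(false,k0,[k0,k1,k2,k3,k4,k5])],[[[([z1,z1,z1,z0,z0,z0],z2)],[]]],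
    [.leafM k0 [k2,k3,k4,k5,k0,k1] [(z1,[y1,z1])] [],
    .lp [k4,k2,k2,k2,k2,k2] [k0,k0,k1,k1,k1,k1,k1,k1,k1,k1,k1,k1] k0 [] k8 k5
    [[(k4,k3),(k7,k3),(k10,k3),(k1,k4)],[(k3,k3),(k6,k3)],[(k9,k2),(k0,k3)],[(k5,k2),(k8,k2)],[(k2,k2),(k11,k2)],[(k4,
    k2),(k7,k2),(k10,k2),(k1,k3)],[(k4,k2),(k7,k2),(k10,k2),(k1,k3)],[(k9,k2),(k0,k3)],[(k3,k2),(k6,k2)],[(k2,k2),
    (k11,k2)],[(k5,k2),(k8,k2)],[(k4,k2),(k7,k2),(k10,k2),(k1,k3)]]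
    [] k0
    [[k0,k0,k0,k1,k1,k1]]
    [.ref k0 k0 [(z1,[y1,z1])]]]⟩

/-- classes `0 1 2 0 1 2`, types `C0 N0 N0 C0 N1 N1` -/
noncomputable def cT6_2449 : CertT :=
  ⟨[k4,k28,k44,k4,k29,k45],[(false,k0,[k0,k1,k2,k3,k4,k5])],[[[([z1,z0,z1,z0,z1,z0],z2)],[]]],
    [.leafM k1 [k0,k1,k2,k3,k4,k5] [(z1,[y1,z1]),(z1,[z1])] [],
    .lp [k2,k2,k2,k4,k2,k2] [k1,k1,k1,k1,k1,k1,k0,k0,k1,k1,k1,k1] k0 [] k8 k5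
    [[(k4,k2)],[(k3,k2),(k9,k2)],[(k0,k2),(k6,k3)],[(k11,k2)],[(k8,k2)],[(k1,k2)],[(k10,k3)],[(k3,k3),(k9,k3)],[(k0,
    k2),(k6,k3)],[(k5,k2)],[(k2,k2)],[(k7,k3)]]
    [] k0
    [[k1,k0,k1,k0,k1,k0]]
    [.ref k0 k0 [(z1,[z1])]]]⟩

/-- classes `0 1 2 0 1 2`, types `C0 N0 N0 C0 N1 N2` -/
noncomputable def cT6_2450 : CertT :=
  ⟨[k4,k28,k44,k4,k29,k46],[],[[[]]],
    [.lp [k2,k2,k2,k2,k2,k2] [k0,k0,k0,k0,k0,k0,k0,k0,k0,k0,k0,k0] k0 [] k8 k5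
    [[(k7,k2)],[(k3,k2),(k9,k2)],[(k0,k2),(k6,k2)],[(k11,k2)],[(k8,k2)],[(k10,k2)],[(k1,k2)],[(k3,k2),(k9,k2)],[(k0,
    k2),(k6,k2)],[(k5,k2)],[(k2,k2)],[(k4,k2)]]
    [] k0
    []
    []]⟩

/-- classes `0 1 2 0 1 2`, types `C0 N0 N0 C0 N2 N2` -/
noncomputable def cT6_2451 : CertT :=
  ⟨[k4,k28,k44,k4,k30,k46],[],[[[]]],
    [.lp [k2,k2,k0,k2,k2,k4] [k1,k1,k1,k1,k2,k2,k1,k1,k1,k1,k0,k0] k0 [] k8 k5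
    [[(k7,k2)],[(k3,k2),(k9,k2)],[(k0,k2),(k6,k2)],[(k8,k2)],[(k11,k2)],[(k10,k2)],[(k1,k2)],[(k3,k2),(k9,k2)],[(k0,
    k2),(k6,k2)],[(k2,k2)],[(k5,k2)],[(k4,k2)]]
    [] k0
    []
    []]⟩

/-- classes `0 1 2 0 1 2`, types `C0 N0 N0 C2 N1 N1` -/
noncomputable def cT6_2452 : CertT :=
  ⟨[k4,k28,k44,k6,k29,k45],[],[[[]]],
    [.lp [k2,k0,k0,k0,k2,k2] [k0,k0,k1,k1,k1,k1,k1,k1,k0,k0,k0,k0] k0 [] k4 k5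
    [[(k4,k1)],[(k3,k1),(k6,k1)],[(k0,k1),(k9,k1)],[(k11,k1)],[(k8,k1)],[(k1,k1)],[(k10,k1)],[(k0,k1),(k9,k1)],[(k3,
    k1),(k6,k1)],[(k5,k1)],[(k2,k1)],[(k7,k1)]]
    [] k0
    []
    []]⟩

/-- classes `0 1 2 0 1 2`, types `C0 N0 N0 C2 N1 N2` -/
noncomputable def cT6_2453 : CertT :=
  ⟨[k4,k28,k44,k6,k29,k46],[],[[[]]],
    [.lp [k2,k0,k0,k0,k2,k2] [k0,k0,k1,k1,k1,k1,k1,k1,k0,k0,k0,k0] k0 [] k4 k5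
    [[(k7,k1)],[(k3,k1),(k6,k1)],[(k0,k1),(k9,k1)],[(k11,k1)],[(k8,k1)],[(k10,k1)],[(k1,k1)],[(k0,k1),(k9,k1)],[(k3,
    k1),(k6,k1)],[(k5,k1)],[(k2,k1)],[(k4,k1)]]
    [] k0
    []
    []]⟩

/-- classes `0 1 2 0 1 2`, types `C0 N0 N0 C2 N2 N2` -/
noncomputable def cT6_2454 : CertT :=
  ⟨[k4,k28,k44,k6,k30,k46],[],[[[]]],
    [.lp [k2,k0,k0,k0,k2,k2] [k0,k0,k1,k1,k1,k1,k1,k1,k0,k0,k0,k0] k0 [] k4 k5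
    [[(k7,k1)],[(k3,k1),(k6,k1)],[(k0,k1),(k9,k1)],[(k8,k1)],[(k11,k1)],[(k10,k1)],[(k1,k1)],[(k0,k1),(k9,k1)],[(k3,
    k1),(k6,k1)],[(k2,k1)],[(k5,k1)],[(k4,k1)]]
    [] k0
    []
    []]⟩

/-- classes `0 1 2 0 1 2`, types `C0 N0 S0 C0 N1 S0` -/
noncomputable def cT6_2455 : CertT :=
  ⟨[k4,k28,k32,k4,k29,k32],[(false,k0,[k0,k1,k2,k3,k4,k5])],[[[([z1,z0,z1,z0,z1,z0],z2)],[([z1,z1,z0,z0,z0,z1],z2)],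
    []]],
    [.leafM k1 [k0,k1,k2,k3,k4,k5] [(z1,[y1,z1]),(z1,[z1])] [],
    .leafM k0 [k1,k2,k3,k4,k5,k0] [(z1,[y1,z1])] [],
    .lp [k2,k4,k2,k2,k2,k2] [k1,k1,k0,k0,k1,k1,k1,k1,k1,k1,k1,k1] k0 [] k8 k5
    [[(k1,k2),(k4,k2),(k7,k2),(k10,k2)],[(k9,k2),(k3,k3)],[(k0,k3),(k6,k3)],[(k11,k3)],[(k8,k2)],[(k1,k2),(k4,k2),(k7,
    k2),(k10,k2)],[(k1,k2),(k4,k2),(k7,k2),(k10,k2)],[(k9,k2),(k3,k3)],[(k0,k2),(k6,k2)],[(k5,k2)],[(k2,k3)],[(k1,k2),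
    (k4,k2),(k7,k2),(k10,k2)]]
    [] k0
    [[k1,k0,k1,k0,k1,k0],[k0,k0,k1,k1,k1,k0]]
    [.ref k0 k0 [(z1,[z1])],.ref k1 k0 [(z1,[y1,z1])]]]⟩

/-- classes `0 1 2 0 1 2`, types `C0 N0 S0 C0 N2 S0` -/
noncomputable def cT6_2456 : CertT :=
  ⟨[k4,k28,k32,k4,k30,k32],[],[[[]]],
    [.lp [k2,k2,k2,k2,k2,k2] [k0,k0,k0,k0,k0,k0,k0,k0,k0,k0,k0,k0] k0 [] k8 k5
    [[(k1,k2),(k4,k2),(k7,k2),(k10,k2)],[(k3,k2),(k9,k2)],[(k0,k2),(k6,k2)],[(k8,k2)],[(k11,k2)],[(k1,k2),(k4,k2),(k7,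
    k2),(k10,k2)],[(k1,k2),(k4,k2),(k7,k2),(k10,k2)],[(k3,k2),(k9,k2)],[(k0,k2),(k6,k2)],[(k2,k2)],[(k5,k2)],[(k1,k2),
    (k4,k2),(k7,k2),(k10,k2)]]
    [] k0
    []
    []]⟩

/-- classes `0 1 2 0 1 2`, types `C0 N0 S0 C2 N1 S0` -/
noncomputable def cT6_2457 : CertT :=
  ⟨[k4,k28,k32,k6,k29,k32],[(false,k0,[k0,k1,k2,k3,k4,k5])],[[[([z1,z1,z0,z0,z0,z1],z2)],[]]],
    [.leafM k0 [k1,k2,k3,k4,k5,k0] [(z1,[y1,z1])] [],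
    .lp [k2,k2,k2,k2,k4,k2] [k1,k1,k1,k1,k1,k1,k1,k1,k0,k0,k1,k1] k0 [] k8 k5
    [[(k1,k2),(k4,k2),(k7,k2),(k10,k2)],[(k3,k2),(k6,k2)],[(k0,k2),(k9,k3)],[(k11,k2)],[(k8,k3)],[(k1,k2),(k4,k2),(k7,
    k2),(k10,k2)],[(k1,k2),(k4,k2),(k7,k2),(k10,k2)],[(k0,k2),(k9,k3)],[(k3,k3),(k6,k3)],[(k5,k3)],[(k2,k2)],[(k1,k2),
    (k4,k2),(k7,k2),(k10,k2)]]
    [] k0
    [[k1,k1,k0,k0,k0,k1]]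
    [.ref k0 k0 [(z1,[z1])]]]⟩

/-- classes `0 1 2 0 1 2`, types `C0 N0 S0 C2 N2 S0` -/
noncomputable def cT6_2458 : CertT :=
  ⟨[k4,k28,k32,k6,k30,k32],[],[[[]]],
    [.lp [k2,k2,k2,k2,k2,k2] [k0,k0,k0,k0,k0,k0,k0,k0,k0,k0,k0,k0] k0 [] k8 k5
    [[(k1,k2),(k4,k2),(k7,k2),(k10,k2)],[(k3,k2),(k6,k2)],[(k0,k2),(k9,k2)],[(k8,k2)],[(k11,k2)],[(k1,k2),(k4,k2),(k7,
    k2),(k10,k2)],[(k1,k2),(k4,k2),(k7,k2),(k10,k2)],[(k0,k2),(k9,k2)],[(k3,k2),(k6,k2)],[(k2,k2)],[(k5,k2)],[(k1,k2),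
    (k4,k2),(k7,k2),(k10,k2)]]
    [] k0
    []
    []]⟩

/-- classes `0 1 2 0 1 2`, types `C0 S0 S0 C0 S0 S0` -/
noncomputable def cT6_2459 : CertT :=
  ⟨[k4,k16,k32,k4,k16,k32],[(false,k0,[k0,k1,k2,k3,k4,k5]),(true,k1,[k1,k0,k5,k4,k3,k2])],[[[([z1,z1,z0,z0,z0,z1],
    z2)],[([z1,z0,z0,z0,z1,z1],z2)],[([z1,z0,z1,z0,z1,z0],z2)],[]]],
    [.leafM k0 [k1,k2,k3,k4,k5,k0] [(z1,[y1,z1])] [],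
    .leafM k0 [k0,k1,k2,k3,k4,k5] [(z1,[y1,z1])] [],
    .leafM k1 [k0,k1,k2,k3,k4,k5] [(z1,[y1,z1]),(z1,[z1])] [],
    .lp [k2,k2,k4,k2,k2,k2] [k1,k1,k1,k1,k0,k0,k1,k1,k1,k1,k1,k1] k0 [] k8 k5
    [[(k1,k2),(k7,k2),(k10,k2),(k4,k3)],[(k3,k2),(k9,k2)],[(k0,k2),(k6,k2)],[(k2,k2),(k8,k2),(k11,k2),(k5,k3)],[(k2,
    k3),(k8,k3),(k11,k3),(k5,k4)],[(k1,k3),(k7,k3),(k10,k3),(k4,k4)],[(k1,k2),(k7,k2),(k10,k2),(k4,k3)],[(k3,k2),(k9,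
    k2)],[(k0,k2),(k6,k2)],[(k2,k2),(k8,k2),(k11,k2),(k5,k3)],[(k2,k2),(k8,k2),(k11,k2),(k5,k3)],[(k1,k2),(k7,k2),
    (k10,k2),(k4,k3)]]
    [] k0
    [[k1,k1,k0,k0,k0,k1],[k1,k0,k0,k0,k1,k1],[k0,k1,k0,k1,k0,k1],[k0,k0,k0,k1,k1,k1]]
    [.ref k0 k0 [(z1,[z1])],.ref k1 k0 [(z1,[z1])],.ref k2 k0 [(z1,[y1,z1])],.ref k0 k1 [(z1,[y1,z1])]]]⟩

/-- classes `0 1 2 0 1 2`, types `C0 S0 S0 C2 S0 S0` -/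
noncomputable def cT6_2460 : CertT :=
  ⟨[k4,k16,k32,k6,k16,k32],[(true,k1,[k1,k0,k5,k4,k3,k2]),(false,k0,[k0,k1,k2,k3,k4,k5])],[[[([z1,z1,z0,z0,z0,z1],
    z2)],[]]],
    [.leafM k0 [k1,k2,k3,k4,k5,k0] [(z1,[y1,z1])] [],
    .lp [k2,k2,k2,k2,k2,k4] [k1,k1,k1,k1,k1,k1,k1,k1,k1,k1,k0,k0] k0 [] k8 k5
    [[(k1,k2),(k4,k2),(k7,k2),(k10,k3)],[(k3,k2),(k6,k2)],[(k0,k2),(k9,k2)],[(k2,k2),(k5,k2),(k8,k2),(k11,k3)],[(k2,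
    k2),(k5,k2),(k8,k2),(k11,k3)],[(k1,k2),(k4,k2),(k7,k2),(k10,k3)],[(k1,k2),(k4,k2),(k7,k2),(k10,k3)],[(k0,k2),(k9,
    k2)],[(k3,k2),(k6,k2)],[(k2,k2),(k5,k2),(k8,k2),(k11,k3)],[(k2,k3),(k5,k3),(k8,k3),(k11,k4)],[(k1,k3),(k4,k3),(k7,
    k3),(k10,k4)]]
    [] k0
    [[k1,k1,k1,k0,k0,k0],[k0,k0,k1,k1,k1,k0]]
    [.ref k0 k0 [(z1,[z1])],.ref k0 k1 [(z1,[y1,z1])]]]⟩

/-- classes `0 1 2 0 1 2`, types `N0 N0 N0 N1 N1 N1` -/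
noncomputable def cT6_2461 : CertT :=
  ⟨[k12,k28,k44,k13,k29,k45],[(false,k0,[k0,k1,k2,k3,k4,k5])],[[[([z1,z0,z1,z0,z1,z0],z2)],[]]],
    [.leafM k1 [k0,k1,k2,k3,k4,k5] [(z1,[y1,z1]),(z1,[z1])] [],
    .lp [k2,k0,k2,k4,k2,k4] [k1,k1,k2,k2,k1,k1,k0,k0,k1,k1,k0,k0] k0 [] k8 k5
    [[(k4,k2)],[(k9,k2)],[(k6,k2)],[(k11,k2)],[(k8,k2)],[(k1,k2)],[(k10,k4)],[(k3,k2)],[(k0,k2)],[(k5,k2)],[(k2,k2)],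
    [(k7,k4)]]
    [] k0
    [[k1,k0,k1,k0,k1,k0]]
    [.ref k0 k0 [(z1,[z1])]]]⟩

/-- classes `0 1 2 0 1 2`, types `N0 N0 N0 N1 N1 N2` -/
noncomputable def cT6_2462 : CertT :=
  ⟨[k12,k28,k44,k13,k29,k46],[],[[[]]],
    [.lp [k0,k0,k0,k2,k2,k2] [k1,k1,k1,k1,k1,k1,k0,k0,k0,k0,k0,k0] k0 [] k4 k5
    [[(k7,k1)],[(k9,k1)],[(k6,k1)],[(k11,k1)],[(k8,k1)],[(k10,k1)],[(k1,k1)],[(k3,k1)],[(k0,k1)],[(k5,k1)],[(k2,k1)],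
    [(k4,k1)]]
    [] k0
    []
    []]⟩

/-- classes `0 1 2 0 1 2`, types `N0 N0 N0 N1 N2 N2` -/
noncomputable def cT6_2463 : CertT :=
  ⟨[k12,k28,k44,k13,k30,k46],[],[[[]]],
    [.lp [k0,k0,k0,k2,k2,k2] [k1,k1,k1,k1,k1,k1,k0,k0,k0,k0,k0,k0] k0 [] k4 k5
    [[(k7,k1)],[(k9,k1)],[(k6,k1)],[(k8,k1)],[(k11,k1)],[(k10,k1)],[(k1,k1)],[(k3,k1)],[(k0,k1)],[(k2,k1)],[(k5,k1)],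
    [(k4,k1)]]
    [] k0
    []
    []]⟩

/-- classes `0 1 2 0 1 2`, types `N0 N0 N0 N2 N2 N2` -/
noncomputable def cT6_2464 : CertT :=
  ⟨[k12,k28,k44,k14,k30,k46],[],[[[]]],
    [.lp [k2,k0,k0,k0,k2,k2] [k0,k0,k1,k1,k1,k1,k1,k1,k0,k0,k0,k0] k0 [] k4 k5
    [[(k7,k1)],[(k6,k1)],[(k9,k1)],[(k8,k1)],[(k11,k1)],[(k10,k1)],[(k1,k1)],[(k0,k1)],[(k3,k1)],[(k2,k1)],[(k5,k1)],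
    [(k4,k1)]]
    [] k0
    []
    []]⟩

/-- classes `0 1 2 0 1 2`, types `N0 N0 S0 N1 N1 S0` -/
noncomputable def cT6_2465 : CertT :=
  ⟨[k12,k28,k32,k13,k29,k32],[(false,k0,[k0,k1,k2,k3,k4,k5])],[[[([z1,z0,z1,z0,z1,z0],z2)],[]]],
    [.leafM k1 [k0,k1,k2,k3,k4,k5] [(z1,[y1,z1]),(z1,[z1])] [],
    .lp [k2,k4,k2,k2,k2,k2] [k1,k1,k0,k0,k1,k1,k1,k1,k1,k1,k1,k1] k0 [] k8 k5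
    [[(k1,k2),(k4,k2),(k7,k2),(k10,k2)],[(k9,k2)],[(k6,k3)],[(k11,k3)],[(k8,k2)],[(k1,k2),(k4,k2),(k7,k2),(k10,k2)],
    [(k1,k2),(k4,k2),(k7,k2),(k10,k2)],[(k3,k3)],[(k0,k2)],[(k5,k2)],[(k2,k3)],[(k1,k2),(k4,k2),(k7,k2),(k10,k2)]]
    [] k0
    [[k1,k0,k1,k0,k1,k0]]
    [.ref k0 k0 [(z1,[z1])]]]⟩

/-- classes `0 1 2 0 1 2`, types `N0 N0 S0 N1 N2 S0` -/
noncomputable def cT6_2466 : CertT :=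
  ⟨[k12,k28,k32,k13,k30,k32],[],[[[]]],
    [.lp [k2,k2,k2,k2,k2,k2] [k0,k0,k0,k0,k0,k0,k0,k0,k0,k0,k0,k0] k0 [] k8 k5
    [[(k1,k2),(k4,k2),(k7,k2),(k10,k2)],[(k9,k2)],[(k6,k2)],[(k8,k2)],[(k11,k2)],[(k1,k2),(k4,k2),(k7,k2),(k10,k2)],
    [(k1,k2),(k4,k2),(k7,k2),(k10,k2)],[(k3,k2)],[(k0,k2)],[(k2,k2)],[(k5,k2)],[(k1,k2),(k4,k2),(k7,k2),(k10,k2)]]
    [] k0
    []
    []]⟩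

/-- classes `0 1 2 0 1 2`, types `N0 N0 S0 N2 N2 S0` -/
noncomputable def cT6_2467 : CertT :=
  ⟨[k12,k28,k32,k14,k30,k32],[],[[[]]],
    [.lp [k2,k4,k2,k2,k0,k2] [k1,k1,k0,k0,k1,k1,k1,k1,k2,k2,k1,k1] k0 [] k8 k5
    [[(k1,k2),(k4,k2),(k7,k2),(k10,k2)],[(k6,k2)],[(k9,k2)],[(k8,k2)],[(k11,k2)],[(k1,k2),(k4,k2),(k7,k2),(k10,k2)],
    [(k1,k2),(k4,k2),(k7,k2),(k10,k2)],[(k0,k2)],[(k3,k2)],[(k2,k2)],[(k5,k2)],[(k1,k2),(k4,k2),(k7,k2),(k10,k2)]]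
    [] k0
    []
    []]⟩

/-- classes `0 1 2 0 1 2`, types `N0 S0 S0 N1 S0 S0` -/
noncomputable def cT6_2468 : CertT :=
  ⟨[k12,k16,k32,k13,k16,k32],[(false,k0,[k0,k1,k2,k3,k4,k5])],[[[([z1,z0,z0,z0,z1,z1],z2)],[([z1,z0,z1,z0,z1,z0],z2)],
    []]],
    [.leafM k0 [k0,k1,k2,k3,k4,k5] [(z1,[y1,z1])] [],
    .leafM k1 [k0,k1,k2,k3,k4,k5] [(z1,[y1,z1]),(z1,[z1])] [],
    .lp [k2,k2,k2,k2,k4,k2] [k1,k1,k1,k1,k1,k1,k1,k1,k0,k0,k1,k1] k0 [] k8 k5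
    [[(k1,k2),(k4,k2),(k7,k2),(k10,k2)],[(k9,k3)],[(k6,k2)],[(k2,k2),(k5,k2),(k11,k2),(k8,k3)],[(k2,k2),(k5,k2),(k11,
    k2),(k8,k3)],[(k1,k2),(k4,k2),(k7,k2),(k10,k2)],[(k1,k2),(k4,k2),(k7,k2),(k10,k2)],[(k3,k2)],[(k0,k3)],[(k2,k3),
    (k5,k3),(k11,k3),(k8,k4)],[(k2,k2),(k5,k2),(k11,k2),(k8,k3)],[(k1,k2),(k4,k2),(k7,k2),(k10,k2)]]
    [] k0
    [[k0,k1,k1,k1,k0,k0],[k0,k1,k0,k1,k0,k1]]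
    [.ref k0 k0 [(z1,[y1,z1])],.ref k1 k0 [(z1,[y1,z1])]]]⟩

/-- classes `0 1 2 0 1 2`, types `N0 S0 S0 N2 S0 S0` -/
noncomputable def cT6_2469 : CertT :=
  ⟨[k12,k16,k32,k14,k16,k32],[],[[[]]],
    [.lp [k2,k2,k2,k2,k2,k2] [k0,k0,k0,k0,k0,k0,k0,k0,k0,k0,k0,k0] k0 [] k8 k5
    [[(k1,k2),(k4,k2),(k7,k2),(k10,k2)],[(k6,k2)],[(k9,k2)],[(k2,k2),(k5,k2),(k8,k2),(k11,k2)],[(k2,k2),(k5,k2),(k8,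
    k2),(k11,k2)],[(k1,k2),(k4,k2),(k7,k2),(k10,k2)],[(k1,k2),(k4,k2),(k7,k2),(k10,k2)],[(k0,k2)],[(k3,k2)],[(k2,k2),
    (k5,k2),(k8,k2),(k11,k2)],[(k2,k2),(k5,k2),(k8,k2),(k11,k2)],[(k1,k2),(k4,k2),(k7,k2),(k10,k2)]]
    [] k0
    []
    []]⟩

/-- classes `0 1 2 0 1 3`, types `B0 B0 C0 B1 B1 C0` -/
noncomputable def cT6_2470 : CertT :=
  ⟨[k8,k24,k36,k9,k25,k52],[],[[[]]],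
    [.lp [k0,k0,k0,k2,k2,k2] [k1,k1,k1,k1,k1,k1,k0,k0,k0,k0,k0,k0] k0 [] k4 k5
    [[(k10,k1)],[(k6,k1),(k9,k1)],[(k6,k1),(k9,k1)],[(k8,k1),(k11,k1)],[(k8,k1),(k11,k1)],[(k7,k1)],[(k4,k1)],[(k0,
    k1),(k3,k1)],[(k0,k1),(k3,k1)],[(k2,k1),(k5,k1)],[(k2,k1),(k5,k1)],[(k1,k1)]]
    [] k0
    []
    []]⟩

/-- classes `0 1 2 0 1 3`, types `B0 B0 C0 B1 B1 S0` -/
noncomputable def cT6_2471 : CertT :=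
  ⟨[k8,k24,k36,k9,k25,k48],[],[[[]]],
    [.lp [k2,k2,k2,k2,k2,k2] [k0,k0,k0,k0,k0,k0,k0,k0,k0,k0,k0,k0] k0 [] k8 k5
    [[(k1,k2),(k10,k2)],[(k6,k2),(k9,k2)],[(k6,k2),(k9,k2)],[(k8,k2),(k11,k2)],[(k8,k2),(k11,k2)],[(k7,k2)],[(k4,k2)],
    [(k0,k2),(k3,k2)],[(k0,k2),(k3,k2)],[(k2,k2),(k5,k2)],[(k2,k2),(k5,k2)],[(k1,k2),(k10,k2)]]
    [] k0
    []
    []]⟩

/-- classes `0 1 2 0 1 3`, types `B0 B0 S0 B1 B1 S0` -/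
noncomputable def cT6_2472 : CertT :=
  ⟨[k8,k24,k32,k9,k25,k48],[],[[[]]],
    [.lp [k2,k2,k2,k2,k2,k2] [k0,k0,k0,k0,k0,k0,k0,k0,k0,k0,k0,k0] k0 [] k8 k5
    [[(k1,k2),(k10,k2)],[(k6,k2),(k9,k2)],[(k6,k2),(k9,k2)],[(k8,k2),(k11,k2)],[(k8,k2),(k11,k2)],[(k4,k2),(k7,k2)],
    [(k4,k2),(k7,k2)],[(k0,k2),(k3,k2)],[(k0,k2),(k3,k2)],[(k2,k2),(k5,k2)],[(k2,k2),(k5,k2)],[(k1,k2),(k10,k2)]]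
    [] k0
    []
    []]⟩

/-- classes `0 1 2 0 1 3`, types `B0 C0 C0 B1 C0 C0` -/
noncomputable def cT6_2473 : CertT :=
  ⟨[k8,k20,k36,k9,k20,k52],[(false,k0,[k0,k1,k2,k3,k4,k5])],[[[([z1,z0,z0,z0,z1,z1],z2)],[]]],
    [.leafM k0 [k0,k1,k2,k3,k4,k5] [(z1,[y1,z1])] [],
    .lp [k4,k2,k2,k2,k2,k2] [k0,k0,k1,k1,k1,k1,k1,k1,k1,k1,k1,k1] k0 [] k8 k5
    [[(k10,k3)],[(k6,k3),(k9,k3)],[(k6,k2),(k9,k2)],[(k5,k2),(k11,k2)],[(k2,k2),(k8,k2)],[(k7,k2)],[(k4,k2)],[(k3,k2),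
    (k0,k3)],[(k3,k2),(k0,k3)],[(k5,k2),(k11,k2)],[(k2,k2),(k8,k2)],[(k1,k3)]]
    [] k0
    [[k0,k1,k1,k1,k0,k0]]
    [.ref k0 k0 [(z1,[y1,z1])]]]⟩

/-- classes `0 1 2 0 1 3`, types `B0 C0 C0 B1 C0 S0` -/
noncomputable def cT6_2474 : CertT :=
  ⟨[k8,k20,k36,k9,k20,k48],[(false,k0,[k0,k1,k2,k3,k4,k5])],[[[([z1,z0,z0,z0,z1,z1],z2)],[]]],
    [.leafM k0 [k0,k1,k2,k3,k4,k5] [(z1,[y1,z1])] [],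
    .lp [k2,k2,k2,k4,k2,k2] [k1,k1,k1,k1,k1,k1,k0,k0,k1,k1,k1,k1] k0 [] k8 k5
    [[(k1,k2),(k10,k2)],[(k9,k2),(k6,k3)],[(k9,k2),(k6,k3)],[(k5,k2),(k11,k2)],[(k2,k2),(k8,k2)],[(k7,k3)],[(k4,k3)],
    [(k0,k3),(k3,k3)],[(k0,k2),(k3,k2)],[(k5,k2),(k11,k2)],[(k2,k2),(k8,k2)],[(k1,k2),(k10,k2)]]
    [] k0
    [[k1,k0,k0,k0,k1,k1]]
    [.ref k0 k0 [(z1,[z1])]]]⟩

/-- classes `0 1 2 0 1 3`, types `B0 C0 C0 B1 C2 C0` -/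
noncomputable def cT6_2475 : CertT :=
  ⟨[k8,k20,k36,k9,k22,k52],[(false,k0,[k0,k1,k2,k3,k4,k5])],[[[([z1,z0,z0,z0,z1,z1],z2)],[]]],
    [.leafM k0 [k0,k1,k2,k3,k4,k5] [(z1,[y1,z1])] [],
    .lp [k4,k2,k2,k2,k2,k2] [k0,k0,k1,k1,k1,k1,k1,k1,k1,k1,k1,k1] k0 [] k8 k5
    [[(k10,k3)],[(k6,k3),(k9,k3)],[(k6,k2),(k9,k2)],[(k5,k2),(k8,k2)],[(k2,k2),(k11,k2)],[(k7,k2)],[(k4,k2)],[(k3,k2),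
    (k0,k3)],[(k3,k2),(k0,k3)],[(k2,k2),(k11,k2)],[(k5,k2),(k8,k2)],[(k1,k3)]]
    [] k0
    [[k0,k1,k1,k1,k0,k0]]
    [.ref k0 k0 [(z1,[y1,z1])]]]⟩

/-- classes `0 1 2 0 1 3`, types `B0 C0 C0 B1 C2 S0` -/
noncomputable def cT6_2476 : CertT :=
  ⟨[k8,k20,k36,k9,k22,k48],[(false,k0,[k0,k1,k2,k3,k4,k5])],[[[([z1,z0,z0,z0,z1,z1],z2)],[]]],
    [.leafM k0 [k0,k1,k2,k3,k4,k5] [(z1,[y1,z1])] [],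
    .lp [k2,k2,k2,k4,k2,k2] [k1,k1,k1,k1,k1,k1,k0,k0,k1,k1,k1,k1] k0 [] k8 k5
    [[(k1,k2),(k10,k2)],[(k9,k2),(k6,k3)],[(k9,k2),(k6,k3)],[(k5,k2),(k8,k2)],[(k2,k2),(k11,k2)],[(k7,k3)],[(k4,k3)],
    [(k0,k3),(k3,k3)],[(k0,k2),(k3,k2)],[(k2,k2),(k11,k2)],[(k5,k2),(k8,k2)],[(k1,k2),(k10,k2)]]
    [] k0
    [[k1,k0,k0,k0,k1,k1]]
    [.ref k0 k0 [(z1,[z1])]]]⟩

/-- classes `0 1 2 0 1 3`, types `B0 C0 S0 B1 C0 S0` -/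
noncomputable def cT6_2477 : CertT :=
  ⟨[k8,k20,k32,k9,k20,k48],[(false,k0,[k0,k1,k2,k3,k4,k5])],[[[([z1,z0,z0,z0,z1,z1],z2)],[]]],
    [.leafM k0 [k0,k1,k2,k3,k4,k5] [(z1,[y1,z1])] [],
    .lp [k2,k4,k2,k2,k2,k2] [k1,k1,k0,k0,k1,k1,k1,k1,k1,k1,k1,k1] k0 [] k8 k5
    [[(k1,k2),(k10,k2)],[(k6,k2),(k9,k2)],[(k6,k3),(k9,k3)],[(k5,k3),(k11,k3)],[(k8,k2),(k2,k3)],[(k4,k2),(k7,k2)],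
    [(k4,k2),(k7,k2)],[(k0,k2),(k3,k3)],[(k0,k2),(k3,k3)],[(k5,k2),(k11,k2)],[(k8,k2),(k2,k3)],[(k1,k2),(k10,k2)]]
    [] k0
    [[k1,k0,k0,k0,k1,k1]]
    [.ref k0 k0 [(z1,[z1])]]]⟩

/-- classes `0 1 2 0 1 3`, types `B0 C0 S0 B1 C2 S0` -/
noncomputable def cT6_2478 : CertT :=
  ⟨[k8,k20,k32,k9,k22,k48],[(false,k0,[k0,k1,k2,k3,k4,k5])],[[[([z1,z0,z0,z0,z1,z1],z2)],[]]],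
    [.leafM k0 [k0,k1,k2,k3,k4,k5] [(z1,[y1,z1])] [],
    .lp [k2,k4,k2,k2,k2,k2] [k1,k1,k0,k0,k1,k1,k1,k1,k1,k1,k1,k1] k0 [] k8 k5
    [[(k1,k2),(k10,k2)],[(k6,k2),(k9,k2)],[(k6,k3),(k9,k3)],[(k5,k3),(k8,k3)],[(k11,k2),(k2,k3)],[(k4,k2),(k7,k2)],
    [(k4,k2),(k7,k2)],[(k0,k2),(k3,k3)],[(k0,k2),(k3,k3)],[(k11,k2),(k2,k3)],[(k5,k2),(k8,k2)],[(k1,k2),(k10,k2)]]
    [] k0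
    [[k1,k0,k0,k0,k1,k1]]
    [.ref k0 k0 [(z1,[z1])]]]⟩

/-- classes `0 1 2 0 1 3`, types `B0 N0 C0 B1 N1 C0` -/
noncomputable def cT6_2479 : CertT :=
  ⟨[k8,k28,k36,k9,k29,k52],[],[[[]]],
    [.lp [k0,k0,k0,k2,k2,k2] [k1,k1,k1,k1,k1,k1,k0,k0,k0,k0,k0,k0] k0 [] k4 k5
    [[(k10,k1)],[(k6,k1),(k9,k1)],[(k6,k1),(k9,k1)],[(k11,k1)],[(k8,k1)],[(k7,k1)],[(k4,k1)],[(k0,k1),(k3,k1)],[(k0,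
    k1),(k3,k1)],[(k5,k1)],[(k2,k1)],[(k1,k1)]]
    [] k0
    []
    []]⟩

/-- classes `0 1 2 0 1 3`, types `B0 N0 C0 B1 N1 S0` -/
noncomputable def cT6_2480 : CertT :=
  ⟨[k8,k28,k36,k9,k29,k48],[],[[[]]],
    [.lp [k2,k2,k2,k2,k2,k2] [k0,k0,k0,k0,k0,k0,k0,k0,k0,k0,k0,k0] k0 [] k8 k5
    [[(k1,k2),(k10,k2)],[(k6,k2),(k9,k2)],[(k6,k2),(k9,k2)],[(k11,k2)],[(k8,k2)],[(k7,k2)],[(k4,k2)],[(k0,k2),(k3,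
    k2)],[(k0,k2),(k3,k2)],[(k5,k2)],[(k2,k2)],[(k1,k2),(k10,k2)]]
    [] k0
    []
    []]⟩

/-- classes `0 1 2 0 1 3`, types `B0 N0 C0 B1 N2 C0` -/
noncomputable def cT6_2481 : CertT :=
  ⟨[k8,k28,k36,k9,k30,k52],[],[[[]]],
    [.lp [k0,k0,k0,k2,k2,k2] [k1,k1,k1,k1,k1,k1,k0,k0,k0,k0,k0,k0] k0 [] k4 k5
    [[(k10,k1)],[(k6,k1),(k9,k1)],[(k6,k1),(k9,k1)],[(k8,k1)],[(k11,k1)],[(k7,k1)],[(k4,k1)],[(k0,k1),(k3,k1)],[(k0,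
    k1),(k3,k1)],[(k2,k1)],[(k5,k1)],[(k1,k1)]]
    [] k0
    []
    []]⟩

/-- classes `0 1 2 0 1 3`, types `B0 N0 C0 B1 N2 S0` -/
noncomputable def cT6_2482 : CertT :=
  ⟨[k8,k28,k36,k9,k30,k48],[],[[[]]],
    [.lp [k2,k2,k2,k2,k2,k2] [k0,k0,k0,k0,k0,k0,k0,k0,k0,k0,k0,k0] k0 [] k8 k5
    [[(k1,k2),(k10,k2)],[(k6,k2),(k9,k2)],[(k6,k2),(k9,k2)],[(k8,k2)],[(k11,k2)],[(k7,k2)],[(k4,k2)],[(k0,k2),(k3,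
    k2)],[(k0,k2),(k3,k2)],[(k2,k2)],[(k5,k2)],[(k1,k2),(k10,k2)]]
    [] k0
    []
    []]⟩

/-- classes `0 1 2 0 1 3`, types `B0 N0 S0 B1 N1 S0` -/
noncomputable def cT6_2483 : CertT :=
  ⟨[k8,k28,k32,k9,k29,k48],[],[[[]]],
    [.lp [k2,k2,k2,k2,k2,k2] [k0,k0,k0,k0,k0,k0,k0,k0,k0,k0,k0,k0] k0 [] k8 k5
    [[(k1,k2),(k10,k2)],[(k6,k2),(k9,k2)],[(k6,k2),(k9,k2)],[(k11,k2)],[(k8,k2)],[(k4,k2),(k7,k2)],[(k4,k2),(k7,k2)],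
    [(k0,k2),(k3,k2)],[(k0,k2),(k3,k2)],[(k5,k2)],[(k2,k2)],[(k1,k2),(k10,k2)]]
    [] k0
    []
    []]⟩

/-- classes `0 1 2 0 1 3`, types `B0 N0 S0 B1 N2 S0` -/
noncomputable def cT6_2484 : CertT :=
  ⟨[k8,k28,k32,k9,k30,k48],[],[[[]]],
    [.lp [k2,k2,k2,k2,k2,k2] [k0,k0,k0,k0,k0,k0,k0,k0,k0,k0,k0,k0] k0 [] k8 k5
    [[(k1,k2),(k10,k2)],[(k6,k2),(k9,k2)],[(k6,k2),(k9,k2)],[(k8,k2)],[(k11,k2)],[(k4,k2),(k7,k2)],[(k4,k2),(k7,k2)],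
    [(k0,k2),(k3,k2)],[(k0,k2),(k3,k2)],[(k2,k2)],[(k5,k2)],[(k1,k2),(k10,k2)]]
    [] k0
    []
    []]⟩

/-- classes `0 1 2 0 1 3`, types `B0 S0 C0 B1 S0 C0` -/
noncomputable def cT6_2485 : CertT :=
  ⟨[k8,k16,k36,k9,k16,k52],[(false,k0,[k0,k1,k2,k3,k4,k5])],[[[([z1,z0,z0,z0,z1,z1],z2)],[]]],
    [.leafM k0 [k0,k1,k2,k3,k4,k5] [(z1,[y1,z1])] [],
    .lp [k4,k2,k2,k2,k2,k2] [k0,k0,k1,k1,k1,k1,k1,k1,k1,k1,k1,k1] k0 [] k8 k5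
    [[(k10,k3)],[(k6,k3),(k9,k3)],[(k6,k2),(k9,k2)],[(k2,k2),(k5,k2),(k8,k2),(k11,k2)],[(k2,k2),(k5,k2),(k8,k2),(k11,
    k2)],[(k7,k2)],[(k4,k2)],[(k3,k2),(k0,k3)],[(k3,k2),(k0,k3)],[(k2,k2),(k5,k2),(k8,k2),(k11,k2)],[(k2,k2),(k5,k2),
    (k8,k2),(k11,k2)],[(k1,k3)]]
    [] k0
    [[k0,k1,k1,k1,k0,k0]]
    [.ref k0 k0 [(z1,[y1,z1])]]]⟩

/-- classes `0 1 2 0 1 3`, types `B0 S0 C0 B1 S0 S0` -/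
noncomputable def cT6_2486 : CertT :=
  ⟨[k8,k16,k36,k9,k16,k48],[(false,k0,[k0,k1,k2,k3,k4,k5])],[[[([z1,z0,z0,z0,z1,z1],z2)],[]]],
    [.leafM k0 [k0,k1,k2,k3,k4,k5] [(z1,[y1,z1])] [],
    .lp [k2,k4,k2,k2,k2,k2] [k1,k1,k0,k0,k1,k1,k1,k1,k1,k1,k1,k1] k0 [] k8 k5
    [[(k1,k2),(k10,k2)],[(k6,k2),(k9,k2)],[(k6,k3),(k9,k3)],[(k5,k3),(k8,k3),(k11,k3),(k2,k4)],[(k5,k2),(k8,k2),(k11,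
    k2),(k2,k3)],[(k7,k2)],[(k4,k2)],[(k0,k2),(k3,k3)],[(k0,k2),(k3,k3)],[(k5,k2),(k8,k2),(k11,k2),(k2,k3)],[(k5,k2),
    (k8,k2),(k11,k2),(k2,k3)],[(k1,k2),(k10,k2)]]
    [] k0
    [[k1,k0,k0,k0,k1,k1]]
    [.ref k0 k0 [(z1,[z1])]]]⟩

/-- classes `0 1 2 0 1 3`, types `B0 S0 S0 B1 S0 S0` -/
noncomputable def cT6_2487 : CertT :=
  ⟨[k8,k16,k32,k9,k16,k48],[(false,k0,[k0,k1,k2,k3,k4,k5])],[[[([z1,z0,z0,z0,z1,z1],z2)],[]]],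
    [.leafM k0 [k0,k1,k2,k3,k4,k5] [(z1,[y1,z1])] [],
    .lp [k2,k2,k2,k2,k2,k4] [k1,k1,k1,k1,k1,k1,k1,k1,k1,k1,k0,k0] k0 [] k8 k5
    [[(k1,k2),(k10,k3)],[(k6,k2),(k9,k2)],[(k6,k2),(k9,k2)],[(k2,k2),(k5,k2),(k8,k2),(k11,k3)],[(k2,k2),(k5,k2),(k8,
    k2),(k11,k3)],[(k4,k2),(k7,k2)],[(k4,k2),(k7,k2)],[(k0,k2),(k3,k2)],[(k0,k2),(k3,k2)],[(k2,k2),(k5,k2),(k8,k2),
    (k11,k3)],[(k2,k3),(k5,k3),(k8,k3),(k11,k4)],[(k1,k3),(k10,k4)]]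
    [] k0
    [[k0,k1,k1,k1,k0,k0]]
    [.ref k0 k0 [(z1,[y1,z1])]]]⟩

/-- classes `0 1 2 0 1 3`, types `C0 C0 C0 C0 C0 C0` -/
noncomputable def cT6_2488 : CertT :=
  ⟨[k4,k20,k36,k4,k20,k52],[(false,k0,[k0,k1,k2,k3,k4,k5]),(true,k2,[k2,k1,k0,k5,k4,k3])],[[[([z1,z0,z0,z0,z1,z1],
    z2)],[]]],
    [.leafM k0 [k0,k1,k2,k3,k4,k5] [(z1,[y1,z1])] [],
    .lp [k2,k2,k2,k2,k2,k4] [k1,k1,k1,k1,k1,k1,k1,k1,k1,k1,k0,k0] k0 [] k8 k5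
    [[(k10,k3)],[(k3,k2),(k9,k2)],[(k0,k2),(k6,k2)],[(k5,k2),(k11,k3)],[(k2,k2),(k8,k2)],[(k7,k2)],[(k4,k2)],[(k3,k2),
    (k9,k2)],[(k0,k2),(k6,k2)],[(k5,k2),(k11,k3)],[(k2,k3),(k8,k3)],[(k1,k3)]]
    [] k0
    [[k0,k1,k1,k1,k0,k0],[k0,k0,k1,k1,k1,k0]]
    [.ref k0 k0 [(z1,[y1,z1])],.ref k0 k1 [(z1,[z1])]]]⟩

/-- classes `0 1 2 0 1 3`, types `C0 C0 C0 C0 C0 S0` -/
noncomputable def cT6_2489 : CertT :=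
  ⟨[k4,k20,k36,k4,k20,k48],[(false,k0,[k0,k1,k2,k3,k4,k5]),(true,k5,[k5,k4,k3,k2,k1,k0])],[[[([z1,z0,z0,z0,z1,z1],
    z2)],[]]],
    [.leafM k0 [k0,k1,k2,k3,k4,k5] [(z1,[y1,z1])] [],
    .lp [k4,k2,k2,k2,k2,k2] [k0,k0,k1,k1,k1,k1,k1,k1,k1,k1,k1,k1] k0 [] k8 k5
    [[(k10,k3),(k1,k4)],[(k3,k3),(k9,k3)],[(k6,k2),(k0,k3)],[(k5,k2),(k11,k2)],[(k2,k2),(k8,k2)],[(k7,k2)],[(k4,k2)],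
    [(k3,k2),(k9,k2)],[(k6,k2),(k0,k3)],[(k5,k2),(k11,k2)],[(k2,k2),(k8,k2)],[(k10,k2),(k1,k3)]]
    [] k0
    [[k0,k1,k1,k1,k0,k0],[k0,k0,k1,k1,k1,k0]]
    [.ref k0 k0 [(z1,[y1,z1])],.ref k0 k1 [(z1,[y1,z1])]]]⟩

/-- classes `0 1 2 0 1 3`, types `C0 C0 C0 C0 C2 C0` -/
noncomputable def cT6_2490 : CertT :=
  ⟨[k4,k20,k36,k4,k22,k52],[(false,k0,[k0,k1,k2,k3,k4,k5])],[[[([z1,z0,z0,z0,z1,z1],z2)],[]]],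
    [.leafM k0 [k0,k1,k2,k3,k4,k5] [(z1,[y1,z1])] [],
    .lp [k2,k2,k2,k2,k2,k4] [k1,k1,k1,k1,k1,k1,k1,k1,k1,k1,k0,k0] k0 [] k8 k5
    [[(k10,k3)],[(k3,k2),(k9,k2)],[(k0,k2),(k6,k2)],[(k5,k2),(k8,k2)],[(k2,k2),(k11,k3)],[(k7,k2)],[(k4,k2)],[(k3,k2),
    (k9,k2)],[(k0,k2),(k6,k2)],[(k2,k2),(k11,k3)],[(k5,k3),(k8,k3)],[(k1,k3)]]
    [] k0
    [[k0,k1,k1,k1,k0,k0]]
    [.ref k0 k0 [(z1,[y1,z1])]]]⟩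

/-- classes `0 1 2 0 1 3`, types `C0 C0 C0 C0 C2 S0` -/
noncomputable def cT6_2491 : CertT :=
  ⟨[k4,k20,k36,k4,k22,k48],[(false,k0,[k0,k1,k2,k3,k4,k5])],[[[([z1,z0,z0,z0,z1,z1],z2)],[]]],
    [.leafM k0 [k0,k1,k2,k3,k4,k5] [(z1,[y1,z1])] [],
    .lp [k4,k2,k2,k2,k2,k2] [k0,k0,k1,k1,k1,k1,k1,k1,k1,k1,k1,k1] k0 [] k8 k5
    [[(k10,k3),(k1,k4)],[(k3,k3),(k9,k3)],[(k6,k2),(k0,k3)],[(k5,k2),(k8,k2)],[(k2,k2),(k11,k2)],[(k7,k2)],[(k4,k2)],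
    [(k3,k2),(k9,k2)],[(k6,k2),(k0,k3)],[(k2,k2),(k11,k2)],[(k5,k2),(k8,k2)],[(k10,k2),(k1,k3)]]
    [] k0
    [[k0,k1,k1,k1,k0,k0]]
    [.ref k0 k0 [(z1,[y1,z1])]]]⟩

/-- classes `0 1 2 0 1 3`, types `C0 C0 C0 C2 C2 C0` -/
noncomputable def cT6_2492 : CertT :=
  ⟨[k4,k20,k36,k6,k22,k52],[],[[[]]],
    [.lp [k0,k2,k0,k2,k0,k2] [k1,k1,k0,k0,k1,k1,k0,k0,k1,k1,k0,k0] k0 [] k4 k5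
    [[(k10,k1)],[(k3,k1),(k6,k1)],[(k0,k1),(k9,k1)],[(k5,k1),(k8,k1)],[(k2,k1),(k11,k1)],[(k7,k1)],[(k4,k1)],[(k0,k1),
    (k9,k1)],[(k3,k1),(k6,k1)],[(k2,k1),(k11,k1)],[(k5,k1),(k8,k1)],[(k1,k1)]]
    [] k0
    []
    []]⟩

/-- classes `0 1 2 0 1 3`, types `C0 C0 C0 C2 C2 S0` -/
noncomputable def cT6_2493 : CertT :=
  ⟨[k4,k20,k36,k6,k22,k48],[],[[[]]],
    [.lp [k2,k2,k2,k2,k2,k2] [k0,k0,k0,k0,k0,k0,k0,k0,k0,k0,k0,k0] k0 [] k8 k5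
    [[(k1,k2),(k10,k2)],[(k3,k2),(k6,k2)],[(k0,k2),(k9,k2)],[(k5,k2),(k8,k2)],[(k2,k2),(k11,k2)],[(k7,k2)],[(k4,k2)],
    [(k0,k2),(k9,k2)],[(k3,k2),(k6,k2)],[(k2,k2),(k11,k2)],[(k5,k2),(k8,k2)],[(k1,k2),(k10,k2)]]
    [] k0
    []
    []]⟩

/-- classes `0 1 2 0 1 3`, types `C0 C0 S0 C0 C0 S0` -/
noncomputable def cT6_2494 : CertT :=
  ⟨[k4,k20,k32,k4,k20,k48],[(true,k2,[k2,k1,k0,k5,k4,k3]),(false,k0,[k0,k1,k2,k3,k4,k5])],[[[([z1,z0,z0,z0,z1,z1],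
    z2)],[]]],
    [.leafM k0 [k0,k1,k2,k3,k4,k5] [(z1,[y1,z1])] [],
    .lp [k2,k2,k2,k4,k2,k2] [k1,k1,k1,k1,k1,k1,k0,k0,k1,k1,k1,k1] k0 [] k8 k5
    [[(k1,k2),(k10,k2)],[(k3,k2),(k9,k2)],[(k0,k2),(k6,k3)],[(k5,k2),(k11,k2)],[(k2,k2),(k8,k2)],[(k4,k2),(k7,k3)],
    [(k4,k3),(k7,k4)],[(k3,k3),(k9,k3)],[(k0,k2),(k6,k3)],[(k5,k2),(k11,k2)],[(k2,k2),(k8,k2)],[(k1,k2),(k10,k2)]]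
    [] k0
    [[k1,k1,k0,k0,k0,k1],[k1,k0,k0,k0,k1,k1]]
    [.ref k0 k0 [(z1,[y1,z1])],.ref k0 k1 [(z1,[z1])]]]⟩

/-- classes `0 1 2 0 1 3`, types `C0 C0 S0 C0 C2 S0` -/
noncomputable def cT6_2495 : CertT :=
  ⟨[k4,k20,k32,k4,k22,k48],[(false,k0,[k0,k1,k2,k3,k4,k5])],[[[([z1,z0,z0,z0,z1,z1],z2)],[]]],
    [.leafM k0 [k0,k1,k2,k3,k4,k5] [(z1,[y1,z1])] [],
    .lp [k2,k2,k2,k4,k2,k2] [k1,k1,k1,k1,k1,k1,k0,k0,k1,k1,k1,k1] k0 [] k8 k5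
    [[(k1,k2),(k10,k2)],[(k3,k2),(k9,k2)],[(k0,k2),(k6,k3)],[(k5,k2),(k8,k2)],[(k2,k2),(k11,k2)],[(k4,k2),(k7,k3)],
    [(k4,k3),(k7,k4)],[(k3,k3),(k9,k3)],[(k0,k2),(k6,k3)],[(k2,k2),(k11,k2)],[(k5,k2),(k8,k2)],[(k1,k2),(k10,k2)]]
    [] k0
    [[k1,k0,k0,k0,k1,k1]]
    [.ref k0 k0 [(z1,[z1])]]]⟩

/-- classes `0 1 2 0 1 3`, types `C0 C0 S0 C2 C2 S0` -/
noncomputable def cT6_2496 : CertT :=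
  ⟨[k4,k20,k32,k6,k22,k48],[],[[[]]],
    [.lp [k2,k2,k2,k2,k2,k2] [k0,k0,k0,k0,k0,k0,k0,k0,k0,k0,k0,k0] k0 [] k8 k5
    [[(k1,k2),(k10,k2)],[(k3,k2),(k6,k2)],[(k0,k2),(k9,k2)],[(k5,k2),(k8,k2)],[(k2,k2),(k11,k2)],[(k4,k2),(k7,k2)],
    [(k4,k2),(k7,k2)],[(k0,k2),(k9,k2)],[(k3,k2),(k6,k2)],[(k2,k2),(k11,k2)],[(k5,k2),(k8,k2)],[(k1,k2),(k10,k2)]]
    [] k0
    []
    []]⟩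

/-- classes `0 1 2 0 1 3`, types `C0 N0 C0 C0 N1 C0` -/
noncomputable def cT6_2497 : CertT :=
  ⟨[k4,k28,k36,k4,k29,k52],[(false,k0,[k0,k1,k2,k3,k4,k5])],[[[([z1,z1,z0,z0,z0,z1],z2)],[]]],
    [.leafM k0 [k1,k2,k3,k4,k5,k0] [(z1,[y1,z1])] [],
    .lp [k2,k2,k2,k2,k2,k4] [k1,k1,k1,k1,k1,k1,k1,k1,k1,k1,k0,k0] k0 [] k8 k5
    [[(k10,k3)],[(k3,k2),(k9,k2)],[(k0,k2),(k6,k2)],[(k11,k3)],[(k8,k2)],[(k7,k2)],[(k4,k2)],[(k3,k2),(k9,k2)],[(k0,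
    k2),(k6,k2)],[(k5,k2)],[(k2,k3)],[(k1,k3)]]
    [] k0
    [[k0,k0,k1,k1,k1,k0]]
    [.ref k0 k0 [(z1,[y1,z1])]]]⟩

/-- classes `0 1 2 0 1 3`, types `C0 N0 C0 C0 N1 S0` -/
noncomputable def cT6_2498 : CertT :=
  ⟨[k4,k28,k36,k4,k29,k48],[(false,k0,[k0,k1,k2,k3,k4,k5])],[[[([z1,z1,z0,z0,z0,z1],z2)],[]]],
    [.leafM k0 [k1,k2,k3,k4,k5,k0] [(z1,[y1,z1])] [],
    .lp [k4,k2,k2,k2,k2,k2] [k0,k0,k1,k1,k1,k1,k1,k1,k1,k1,k1,k1] k0 [] k8 k5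
    [[(k10,k3),(k1,k4)],[(k3,k3),(k9,k3)],[(k6,k2),(k0,k3)],[(k11,k2)],[(k8,k2)],[(k7,k2)],[(k4,k2)],[(k3,k2),(k9,
    k2)],[(k6,k2),(k0,k3)],[(k5,k2)],[(k2,k2)],[(k10,k2),(k1,k3)]]
    [] k0
    [[k0,k0,k1,k1,k1,k0]]
    [.ref k0 k0 [(z1,[y1,z1])]]]⟩

/-- classes `0 1 2 0 1 3`, types `C0 N0 C0 C0 N2 C0` -/
noncomputable def cT6_2499 : CertT :=
  ⟨[k4,k28,k36,k4,k30,k52],[],[[[]]],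
    [.lp [k2,k2,k2,k2,k2,k2] [k0,k0,k0,k0,k0,k0,k0,k0,k0,k0,k0,k0] k0 [] k8 k5
    [[(k10,k2)],[(k3,k2),(k9,k2)],[(k0,k2),(k6,k2)],[(k8,k2)],[(k11,k2)],[(k7,k2)],[(k4,k2)],[(k3,k2),(k9,k2)],[(k0,
    k2),(k6,k2)],[(k2,k2)],[(k5,k2)],[(k1,k2)]]
    [] k0
    []
    []]⟩

/-- classes `0 1 2 0 1 3`, types `C0 N0 C0 C0 N2 S0` -/
noncomputable def cT6_2500 : CertT :=
  ⟨[k4,k28,k36,k4,k30,k48],[],[[[]]],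
    [.lp [k2,k2,k2,k2,k2,k2] [k0,k0,k0,k0,k0,k0,k0,k0,k0,k0,k0,k0] k0 [] k8 k5
    [[(k1,k2),(k10,k2)],[(k3,k2),(k9,k2)],[(k0,k2),(k6,k2)],[(k8,k2)],[(k11,k2)],[(k7,k2)],[(k4,k2)],[(k3,k2),(k9,
    k2)],[(k0,k2),(k6,k2)],[(k2,k2)],[(k5,k2)],[(k1,k2),(k10,k2)]]
    [] k0
    []
    []]⟩

/-- classes `0 1 2 0 1 3`, types `C0 N0 C0 C2 N1 C0` -/
noncomputable def cT6_2501 : CertT :=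
  ⟨[k4,k28,k36,k6,k29,k52],[(false,k0,[k0,k1,k2,k3,k4,k5])],[[[([z1,z1,z0,z0,z0,z1],z2)],[]]],
    [.leafM k0 [k1,k2,k3,k4,k5,k0] [(z1,[y1,z1])] [],
    .lp [k2,k2,k0,k4,k4,k2] [k1,k1,k1,k1,k2,k2,k0,k0,k0,k0,k1,k1] k0 [] k8 k5
    [[(k10,k2)],[(k3,k2),(k6,k3)],[(k0,k2),(k9,k3)],[(k11,k2)],[(k8,k2)],[(k7,k2)],[(k4,k2)],[(k0,k3),(k9,k4)],[(k3,
    k3),(k6,k4)],[(k5,k2)],[(k2,k2)],[(k1,k2)]]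
    [] k0
    [[k1,k1,k0,k0,k0,k1]]
    [.ref k0 k0 [(z1,[z1])]]]⟩

/-- classes `0 1 2 0 1 3`, types `C0 N0 C0 C2 N1 S0` -/
noncomputable def cT6_2502 : CertT :=
  ⟨[k4,k28,k36,k6,k29,k48],[(false,k0,[k0,k1,k2,k3,k4,k5])],[[[([z1,z1,z0,z0,z0,z1],z2)],[]]],
    [.leafM k0 [k1,k2,k3,k4,k5,k0] [(z1,[y1,z1])] [],
    .lp [k4,k2,k2,k2,k2,k2] [k0,k0,k1,k1,k1,k1,k1,k1,k1,k1,k1,k1] k0 [] k8 k5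
    [[(k10,k3),(k1,k4)],[(k3,k3),(k6,k3)],[(k9,k2),(k0,k3)],[(k11,k2)],[(k8,k2)],[(k7,k2)],[(k4,k2)],[(k9,k2),(k0,
    k3)],[(k3,k2),(k6,k2)],[(k5,k2)],[(k2,k2)],[(k10,k2),(k1,k3)]]
    [] k0
    [[k0,k0,k1,k1,k1,k0]]
    [.ref k0 k0 [(z1,[y1,z1])]]]⟩

/-- classes `0 1 2 0 1 3`, types `C0 N0 C0 C2 N2 C0` -/
noncomputable def cT6_2503 : CertT :=
  ⟨[k4,k28,k36,k6,k30,k52],[],[[[]]],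
    [.lp [k0,k2,k0,k2,k0,k2] [k1,k1,k0,k0,k1,k1,k0,k0,k1,k1,k0,k0] k0 [] k4 k5
    [[(k10,k1)],[(k3,k1),(k6,k1)],[(k0,k1),(k9,k1)],[(k8,k1)],[(k11,k1)],[(k7,k1)],[(k4,k1)],[(k0,k1),(k9,k1)],[(k3,
    k1),(k6,k1)],[(k2,k1)],[(k5,k1)],[(k1,k1)]]
    [] k0
    []
    []]⟩

/-- classes `0 1 2 0 1 3`, types `C0 N0 C0 C2 N2 S0` -/
noncomputable def cT6_2504 : CertT :=
  ⟨[k4,k28,k36,k6,k30,k48],[],[[[]]],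
    [.lp [k2,k2,k2,k2,k2,k2] [k0,k0,k0,k0,k0,k0,k0,k0,k0,k0,k0,k0] k0 [] k8 k5
    [[(k1,k2),(k10,k2)],[(k3,k2),(k6,k2)],[(k0,k2),(k9,k2)],[(k8,k2)],[(k11,k2)],[(k7,k2)],[(k4,k2)],[(k0,k2),(k9,
    k2)],[(k3,k2),(k6,k2)],[(k2,k2)],[(k5,k2)],[(k1,k2),(k10,k2)]]
    [] k0
    []
    []]⟩

/-- classes `0 1 2 0 1 3`, types `C0 N0 S0 C0 N1 S0` -/
noncomputable def cT6_2505 : CertT :=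
  ⟨[k4,k28,k32,k4,k29,k48],[(false,k0,[k0,k1,k2,k3,k4,k5])],[[[([z1,z1,z0,z0,z0,z1],z2)],[]]],
    [.leafM k0 [k1,k2,k3,k4,k5,k0] [(z1,[y1,z1])] [],
    .lp [k2,k2,k2,k4,k2,k2] [k1,k1,k1,k1,k1,k1,k0,k0,k1,k1,k1,k1] k0 [] k8 k5
    [[(k1,k2),(k10,k2)],[(k3,k2),(k9,k2)],[(k0,k2),(k6,k3)],[(k11,k2)],[(k8,k2)],[(k4,k2),(k7,k3)],[(k4,k3),(k7,k4)],
    [(k3,k3),(k9,k3)],[(k0,k2),(k6,k3)],[(k5,k2)],[(k2,k2)],[(k1,k2),(k10,k2)]]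
    [] k0
    [[k1,k1,k0,k0,k0,k1]]
    [.ref k0 k0 [(z1,[z1])]]]⟩

/-- classes `0 1 2 0 1 3`, types `C0 N0 S0 C0 N2 S0` -/
noncomputable def cT6_2506 : CertT :=
  ⟨[k4,k28,k32,k4,k30,k48],[],[[[]]],
    [.lp [k2,k2,k2,k2,k2,k2] [k0,k0,k0,k0,k0,k0,k0,k0,k0,k0,k0,k0] k0 [] k8 k5
    [[(k1,k2),(k10,k2)],[(k3,k2),(k9,k2)],[(k0,k2),(k6,k2)],[(k8,k2)],[(k11,k2)],[(k4,k2),(k7,k2)],[(k4,k2),(k7,k2)],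
    [(k3,k2),(k9,k2)],[(k0,k2),(k6,k2)],[(k2,k2)],[(k5,k2)],[(k1,k2),(k10,k2)]]
    [] k0
    []
    []]⟩

/-- classes `0 1 2 0 1 3`, types `C0 N0 S0 C2 N1 S0` -/
noncomputable def cT6_2507 : CertT :=
  ⟨[k4,k28,k32,k6,k29,k48],[(false,k0,[k0,k1,k2,k3,k4,k5])],[[[([z1,z1,z0,z0,z0,z1],z2)],[]]],
    [.leafM k0 [k1,k2,k3,k4,k5,k0] [(z1,[y1,z1])] [],
    .lp [k2,k2,k2,k4,k2,k2] [k1,k1,k1,k1,k1,k1,k0,k0,k1,k1,k1,k1] k0 [] k8 k5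
    [[(k1,k2),(k10,k2)],[(k3,k2),(k6,k3)],[(k0,k2),(k9,k2)],[(k11,k2)],[(k8,k2)],[(k4,k2),(k7,k3)],[(k4,k3),(k7,k4)],
    [(k0,k3),(k9,k3)],[(k3,k2),(k6,k3)],[(k5,k2)],[(k2,k2)],[(k1,k2),(k10,k2)]]
    [] k0
    [[k1,k1,k0,k0,k0,k1]]
    [.ref k0 k0 [(z1,[z1])]]]⟩

/-- classes `0 1 2 0 1 3`, types `C0 N0 S0 C2 N2 S0` -/
noncomputable def cT6_2508 : CertT :=
  ⟨[k4,k28,k32,k6,k30,k48],[],[[[]]],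
    [.lp [k2,k2,k2,k2,k2,k2] [k0,k0,k0,k0,k0,k0,k0,k0,k0,k0,k0,k0] k0 [] k8 k5
    [[(k1,k2),(k10,k2)],[(k3,k2),(k6,k2)],[(k0,k2),(k9,k2)],[(k8,k2)],[(k11,k2)],[(k4,k2),(k7,k2)],[(k4,k2),(k7,k2)],
    [(k0,k2),(k9,k2)],[(k3,k2),(k6,k2)],[(k2,k2)],[(k5,k2)],[(k1,k2),(k10,k2)]]
    [] k0
    []
    []]⟩

/-- classes `0 1 2 0 1 3`, types `C0 S0 C0 C0 S0 C0` -/
noncomputable def cT6_2509 : CertT :=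
  ⟨[k4,k16,k36,k4,k16,k52],[(false,k0,[k0,k1,k2,k3,k4,k5])],[[[([z1,z0,z0,z0,z1,z1],z2)],[([z1,z1,z0,z0,z0,z1],z2)],
    []]],
    [.leafM k0 [k0,k1,k2,k3,k4,k5] [(z1,[y1,z1])] [],
    .leafM k0 [k1,k2,k3,k4,k5,k0] [(z1,[y1,z1])] [],
    .lp [k2,k4,k2,k2,k2,k2] [k1,k1,k0,k0,k1,k1,k1,k1,k1,k1,k1,k1] k0 [] k8 k5
    [[(k10,k2)],[(k9,k2),(k3,k3)],[(k0,k3),(k6,k3)],[(k5,k3),(k8,k3),(k11,k3),(k2,k4)],[(k5,k2),(k8,k2),(k11,k2),(k2,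
    k3)],[(k7,k2)],[(k4,k2)],[(k9,k2),(k3,k3)],[(k0,k2),(k6,k2)],[(k5,k2),(k8,k2),(k11,k2),(k2,k3)],[(k5,k2),(k8,k2),
    (k11,k2),(k2,k3)],[(k1,k2)]]
    [] k0
    [[k1,k0,k0,k0,k1,k1],[k0,k0,k1,k1,k1,k0]]
    [.ref k0 k0 [(z1,[z1])],.ref k1 k0 [(z1,[y1,z1])]]]⟩

/-- classes `0 1 2 0 1 3`, types `C0 S0 C0 C0 S0 S0` -/
noncomputable def cT6_2510 : CertT :=
  ⟨[k4,k16,k36,k4,k16,k48],[(false,k0,[k0,k1,k2,k3,k4,k5])],[[[([z1,z0,z0,z0,z1,z1],z2)],[([z1,z1,z0,z0,z0,z1],z2)],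
    []]],
    [.leafM k0 [k0,k1,k2,k3,k4,k5] [(z1,[y1,z1])] [],
    .leafM k0 [k1,k2,k3,k4,k5,k0] [(z1,[y1,z1])] [],
    .lp [k4,k2,k2,k2,k2,k2] [k0,k0,k1,k1,k1,k1,k1,k1,k1,k1,k1,k1] k0 [] k8 k5
    [[(k10,k3),(k1,k4)],[(k3,k3),(k9,k3)],[(k6,k2),(k0,k3)],[(k2,k2),(k5,k2),(k8,k2),(k11,k2)],[(k2,k2),(k5,k2),(k8,
    k2),(k11,k2)],[(k7,k2)],[(k4,k2)],[(k3,k2),(k9,k2)],[(k6,k2),(k0,k3)],[(k2,k2),(k5,k2),(k8,k2),(k11,k2)],[(k2,k2),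
    (k5,k2),(k8,k2),(k11,k2)],[(k10,k2),(k1,k3)]]
    [] k0
    [[k0,k1,k1,k1,k0,k0],[k0,k0,k1,k1,k1,k0]]
    [.ref k0 k0 [(z1,[y1,z1])],.ref k1 k0 [(z1,[y1,z1])]]]⟩

/-- classes `0 1 2 0 1 3`, types `C0 S0 C0 C2 S0 C0` -/
noncomputable def cT6_2511 : CertT :=
  ⟨[k4,k16,k36,k6,k16,k52],[(false,k0,[k0,k1,k2,k3,k4,k5])],[[[([z1,z1,z0,z0,z0,z1],z2)],[]]],
    [.leafM k0 [k1,k2,k3,k4,k5,k0] [(z1,[y1,z1])] [],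
    .lp [k2,k2,k4,k2,k2,k2] [k1,k1,k1,k1,k0,k0,k1,k1,k1,k1,k1,k1] k0 [] k8 k5
    [[(k10,k2)],[(k3,k2),(k6,k2)],[(k0,k2),(k9,k2)],[(k2,k2),(k8,k2),(k11,k2),(k5,k3)],[(k2,k3),(k8,k3),(k11,k3),(k5,
    k4)],[(k7,k3)],[(k4,k3)],[(k0,k2),(k9,k2)],[(k3,k2),(k6,k2)],[(k2,k2),(k8,k2),(k11,k2),(k5,k3)],[(k2,k2),(k8,k2),
    (k11,k2),(k5,k3)],[(k1,k2)]]
    [] k0
    [[k1,k1,k0,k0,k0,k1]]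
    [.ref k0 k0 [(z1,[z1])]]]⟩

/-- classes `0 1 2 0 1 3`, types `C0 S0 C0 C2 S0 S0` -/
noncomputable def cT6_2512 : CertT :=
  ⟨[k4,k16,k36,k6,k16,k48],[(false,k0,[k0,k1,k2,k3,k4,k5])],[[[([z1,z1,z0,z0,z0,z1],z2)],[]]],
    [.leafM k0 [k1,k2,k3,k4,k5,k0] [(z1,[y1,z1])] [],
    .lp [k2,k2,k2,k2,k4,k2] [k1,k1,k1,k1,k1,k1,k1,k1,k0,k0,k1,k1] k0 [] k8 k5
    [[(k1,k2),(k10,k2)],[(k3,k2),(k6,k2)],[(k0,k2),(k9,k3)],[(k2,k2),(k5,k2),(k11,k2),(k8,k3)],[(k2,k2),(k5,k2),(k11,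
    k2),(k8,k3)],[(k7,k2)],[(k4,k2)],[(k0,k2),(k9,k3)],[(k3,k3),(k6,k3)],[(k2,k3),(k5,k3),(k11,k3),(k8,k4)],[(k2,k2),
    (k5,k2),(k11,k2),(k8,k3)],[(k1,k2),(k10,k2)]]
    [] k0
    [[k1,k1,k0,k0,k0,k1]]
    [.ref k0 k0 [(z1,[z1])]]]⟩

/-- classes `0 1 2 0 1 3`, types `C0 S0 S0 C0 S0 S0` -/
noncomputable def cT6_2513 : CertT :=
  ⟨[k4,k16,k32,k4,k16,k48],[(false,k0,[k0,k1,k2,k3,k4,k5])],[[[([z1,z1,z0,z0,z0,z1],z2)],[([z1,z0,z0,z0,z1,z1],z2)],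
    []]],
    [.leafM k0 [k1,k2,k3,k4,k5,k0] [(z1,[y1,z1])] [],
    .leafM k0 [k0,k1,k2,k3,k4,k5] [(z1,[y1,z1])] [],
    .lp [k2,k2,k2,k4,k2,k2] [k1,k1,k1,k1,k1,k1,k0,k0,k1,k1,k1,k1] k0 [] k8 k5
    [[(k1,k2),(k10,k2)],[(k3,k2),(k9,k2)],[(k0,k2),(k6,k3)],[(k2,k2),(k5,k2),(k8,k2),(k11,k2)],[(k2,k2),(k5,k2),(k8,
    k2),(k11,k2)],[(k4,k2),(k7,k3)],[(k4,k3),(k7,k4)],[(k3,k3),(k9,k3)],[(k0,k2),(k6,k3)],[(k2,k2),(k5,k2),(k8,k2),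
    (k11,k2)],[(k2,k2),(k5,k2),(k8,k2),(k11,k2)],[(k1,k2),(k10,k2)]]
    [] k0
    [[k1,k1,k0,k0,k0,k1],[k1,k0,k0,k0,k1,k1]]
    [.ref k0 k0 [(z1,[z1])],.ref k1 k0 [(z1,[z1])]]]⟩

/-- classes `0 1 2 0 1 3`, types `C0 S0 S0 C2 S0 S0` -/
noncomputable def cT6_2514 : CertT :=
  ⟨[k4,k16,k32,k6,k16,k48],[(false,k0,[k0,k1,k2,k3,k4,k5])],[[[([z1,z1,z0,z0,z0,z1],z2)],[]]],
    [.leafM k0 [k1,k2,k3,k4,k5,k0] [(z1,[y1,z1])] [],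
    .lp [k2,k2,k2,k2,k4,k2] [k1,k1,k1,k1,k1,k1,k1,k1,k0,k0,k1,k1] k0 [] k8 k5
    [[(k1,k2),(k10,k2)],[(k3,k2),(k6,k2)],[(k0,k2),(k9,k3)],[(k2,k2),(k5,k2),(k11,k2),(k8,k3)],[(k2,k2),(k5,k2),(k11,
    k2),(k8,k3)],[(k4,k2),(k7,k2)],[(k4,k2),(k7,k2)],[(k0,k2),(k9,k3)],[(k3,k3),(k6,k3)],[(k2,k3),(k5,k3),(k11,k3),
    (k8,k4)],[(k2,k2),(k5,k2),(k11,k2),(k8,k3)],[(k1,k2),(k10,k2)]]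
    [] k0
    [[k1,k1,k0,k0,k0,k1]]
    [.ref k0 k0 [(z1,[z1])]]]⟩

/-- classes `0 1 2 0 1 3`, types `N0 N0 C0 N1 N1 C0` -/
noncomputable def cT6_2515 : CertT :=
  ⟨[k12,k28,k36,k13,k29,k52],[],[[[]]],
    [.lp [k0,k0,k0,k2,k2,k2] [k1,k1,k1,k1,k1,k1,k0,k0,k0,k0,k0,k0] k0 [] k4 k5
    [[(k10,k1)],[(k9,k1)],[(k6,k1)],[(k11,k1)],[(k8,k1)],[(k7,k1)],[(k4,k1)],[(k3,k1)],[(k0,k1)],[(k5,k1)],[(k2,k1)],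
    [(k1,k1)]]
    [] k0
    []
    []]⟩

/-- classes `0 1 2 0 1 3`, types `N0 N0 C0 N1 N1 S0` -/
noncomputable def cT6_2516 : CertT :=
  ⟨[k12,k28,k36,k13,k29,k48],[],[[[]]],
    [.lp [k2,k2,k2,k2,k2,k2] [k0,k0,k0,k0,k0,k0,k0,k0,k0,k0,k0,k0] k0 [] k8 k5
    [[(k1,k2),(k10,k2)],[(k9,k2)],[(k6,k2)],[(k11,k2)],[(k8,k2)],[(k7,k2)],[(k4,k2)],[(k3,k2)],[(k0,k2)],[(k5,k2)],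
    [(k2,k2)],[(k1,k2),(k10,k2)]]
    [] k0
    []
    []]⟩

/-- classes `0 1 2 0 1 3`, types `N0 N0 C0 N1 N2 C0` -/
noncomputable def cT6_2517 : CertT :=
  ⟨[k12,k28,k36,k13,k30,k52],[],[[[]]],
    [.lp [k0,k0,k0,k2,k2,k2] [k1,k1,k1,k1,k1,k1,k0,k0,k0,k0,k0,k0] k0 [] k4 k5
    [[(k10,k1)],[(k9,k1)],[(k6,k1)],[(k8,k1)],[(k11,k1)],[(k7,k1)],[(k4,k1)],[(k3,k1)],[(k0,k1)],[(k2,k1)],[(k5,k1)],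
    [(k1,k1)]]
    [] k0
    []
    []]⟩

/-- classes `0 1 2 0 1 3`, types `N0 N0 C0 N1 N2 S0` -/
noncomputable def cT6_2518 : CertT :=
  ⟨[k12,k28,k36,k13,k30,k48],[],[[[]]],
    [.lp [k2,k2,k2,k2,k2,k2] [k0,k0,k0,k0,k0,k0,k0,k0,k0,k0,k0,k0] k0 [] k8 k5
    [[(k1,k2),(k10,k2)],[(k9,k2)],[(k6,k2)],[(k8,k2)],[(k11,k2)],[(k7,k2)],[(k4,k2)],[(k3,k2)],[(k0,k2)],[(k2,k2)],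
    [(k5,k2)],[(k1,k2),(k10,k2)]]
    [] k0
    []
    []]⟩

/-- classes `0 1 2 0 1 3`, types `N0 N0 C0 N2 N2 C0` -/
noncomputable def cT6_2519 : CertT :=
  ⟨[k12,k28,k36,k14,k30,k52],[],[[[]]],
    [.lp [k0,k2,k0,k2,k0,k2] [k1,k1,k0,k0,k1,k1,k0,k0,k1,k1,k0,k0] k0 [] k4 k5
    [[(k10,k1)],[(k6,k1)],[(k9,k1)],[(k8,k1)],[(k11,k1)],[(k7,k1)],[(k4,k1)],[(k0,k1)],[(k3,k1)],[(k2,k1)],[(k5,k1)],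
    [(k1,k1)]]
    [] k0
    []
    []]⟩

/-- classes `0 1 2 0 1 3`, types `N0 N0 C0 N2 N2 S0` -/
noncomputable def cT6_2520 : CertT :=
  ⟨[k12,k28,k36,k14,k30,k48],[],[[[]]],
    [.lp [k2,k0,k2,k2,k4,k2] [k1,k1,k2,k2,k1,k1,k1,k1,k0,k0,k1,k1] k0 [] k8 k5
    [[(k1,k2),(k10,k2)],[(k6,k2)],[(k9,k2)],[(k8,k2)],[(k11,k2)],[(k7,k2)],[(k4,k2)],[(k0,k2)],[(k3,k2)],[(k2,k2)],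
    [(k5,k2)],[(k1,k2),(k10,k2)]]
    [] k0
    []
    []]⟩

/-- classes `0 1 2 0 1 3`, types `N0 N0 S0 N1 N1 S0` -/
noncomputable def cT6_2521 : CertT :=
  ⟨[k12,k28,k32,k13,k29,k48],[],[[[]]],
    [.lp [k2,k2,k2,k2,k2,k2] [k0,k0,k0,k0,k0,k0,k0,k0,k0,k0,k0,k0] k0 [] k8 k5
    [[(k1,k2),(k10,k2)],[(k9,k2)],[(k6,k2)],[(k11,k2)],[(k8,k2)],[(k4,k2),(k7,k2)],[(k4,k2),(k7,k2)],[(k3,k2)],[(k0,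
    k2)],[(k5,k2)],[(k2,k2)],[(k1,k2),(k10,k2)]]
    [] k0
    []
    []]⟩

/-- classes `0 1 2 0 1 3`, types `N0 N0 S0 N1 N2 S0` -/
noncomputable def cT6_2522 : CertT :=
  ⟨[k12,k28,k32,k13,k30,k48],[],[[[]]],
    [.lp [k2,k2,k2,k2,k2,k2] [k0,k0,k0,k0,k0,k0,k0,k0,k0,k0,k0,k0] k0 [] k8 k5
    [[(k1,k2),(k10,k2)],[(k9,k2)],[(k6,k2)],[(k8,k2)],[(k11,k2)],[(k4,k2),(k7,k2)],[(k4,k2),(k7,k2)],[(k3,k2)],[(k0,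
    k2)],[(k2,k2)],[(k5,k2)],[(k1,k2),(k10,k2)]]
    [] k0
    []
    []]⟩

/-- classes `0 1 2 0 1 3`, types `N0 N0 S0 N2 N2 S0` -/
noncomputable def cT6_2523 : CertT :=
  ⟨[k12,k28,k32,k14,k30,k48],[],[[[]]],
    [.lp [k2,k0,k2,k2,k4,k2] [k1,k1,k2,k2,k1,k1,k1,k1,k0,k0,k1,k1] k0 [] k8 k5
    [[(k1,k2),(k10,k2)],[(k6,k2)],[(k9,k2)],[(k8,k2)],[(k11,k2)],[(k4,k2),(k7,k2)],[(k4,k2),(k7,k2)],[(k0,k2)],[(k3,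
    k2)],[(k2,k2)],[(k5,k2)],[(k1,k2),(k10,k2)]]
    [] k0
    []
    []]⟩

/-- classes `0 1 2 0 1 3`, types `N0 S0 C0 N1 S0 C0` -/
noncomputable def cT6_2524 : CertT :=
  ⟨[k12,k16,k36,k13,k16,k52],[(false,k0,[k0,k1,k2,k3,k4,k5])],[[[([z1,z0,z0,z0,z1,z1],z2)],[]]],
    [.leafM k0 [k0,k1,k2,k3,k4,k5] [(z1,[y1,z1])] [],
    .lp [k2,k4,k4,k0,k2,k2] [k1,k1,k0,k0,k0,k0,k2,k2,k1,k1,k1,k1] k0 [] k8 k5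
    [[(k10,k2)],[(k9,k2)],[(k6,k2)],[(k8,k3),(k11,k3),(k2,k4),(k5,k4)],[(k8,k3),(k11,k3),(k2,k4),(k5,k4)],[(k7,k2)],
    [(k4,k2)],[(k3,k2)],[(k0,k2)],[(k8,k2),(k11,k2),(k2,k3),(k5,k3)],[(k8,k2),(k11,k2),(k2,k3),(k5,k3)],[(k1,k2)]]
    [] k0
    [[k1,k0,k0,k0,k1,k1]]
    [.ref k0 k0 [(z1,[z1])]]]⟩

/-- classes `0 1 2 0 1 3`, types `N0 S0 C0 N1 S0 S0` -/
noncomputable def cT6_2525 : CertT :=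
  ⟨[k12,k16,k36,k13,k16,k48],[(false,k0,[k0,k1,k2,k3,k4,k5])],[[[([z1,z0,z0,z0,z1,z1],z2)],[]]],
    [.leafM k0 [k0,k1,k2,k3,k4,k5] [(z1,[y1,z1])] [],
    .lp [k4,k2,k2,k2,k2,k2] [k0,k0,k1,k1,k1,k1,k1,k1,k1,k1,k1,k1] k0 [] k8 k5
    [[(k10,k3),(k1,k4)],[(k9,k3)],[(k6,k2)],[(k2,k2),(k5,k2),(k8,k2),(k11,k2)],[(k2,k2),(k5,k2),(k8,k2),(k11,k2)],
    [(k7,k2)],[(k4,k2)],[(k3,k2)],[(k0,k3)],[(k2,k2),(k5,k2),(k8,k2),(k11,k2)],[(k2,k2),(k5,k2),(k8,k2),(k11,k2)],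
    [(k10,k2),(k1,k3)]]
    [] k0
    [[k0,k1,k1,k1,k0,k0]]
    [.ref k0 k0 [(z1,[y1,z1])]]]⟩

/-- classes `0 1 2 0 1 3`, types `N0 S0 C0 N2 S0 C0` -/
noncomputable def cT6_2526 : CertT :=
  ⟨[k12,k16,k36,k14,k16,k52],[],[[[]]],
    [.lp [k2,k2,k2,k2,k2,k2] [k0,k0,k0,k0,k0,k0,k0,k0,k0,k0,k0,k0] k0 [] k8 k5
    [[(k10,k2)],[(k6,k2)],[(k9,k2)],[(k2,k2),(k5,k2),(k8,k2),(k11,k2)],[(k2,k2),(k5,k2),(k8,k2),(k11,k2)],[(k7,k2)],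
    [(k4,k2)],[(k0,k2)],[(k3,k2)],[(k2,k2),(k5,k2),(k8,k2),(k11,k2)],[(k2,k2),(k5,k2),(k8,k2),(k11,k2)],[(k1,k2)]]
    [] k0
    []
    []]⟩

/-- classes `0 1 2 0 1 3`, types `N0 S0 C0 N2 S0 S0` -/
noncomputable def cT6_2527 : CertT :=
  ⟨[k12,k16,k36,k14,k16,k48],[],[[[]]],
    [.lp [k2,k2,k2,k2,k2,k2] [k0,k0,k0,k0,k0,k0,k0,k0,k0,k0,k0,k0] k0 [] k8 k5
    [[(k1,k2),(k10,k2)],[(k6,k2)],[(k9,k2)],[(k2,k2),(k5,k2),(k8,k2),(k11,k2)],[(k2,k2),(k5,k2),(k8,k2),(k11,k2)],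
    [(k7,k2)],[(k4,k2)],[(k0,k2)],[(k3,k2)],[(k2,k2),(k5,k2),(k8,k2),(k11,k2)],[(k2,k2),(k5,k2),(k8,k2),(k11,k2)],
    [(k1,k2),(k10,k2)]]
    [] k0
    []
    []]⟩

/-- the certificates of this file -/
noncomputable def lT6_16 : List CertT :=
  [cT6_2288, cT6_2289, cT6_2290, cT6_2291, cT6_2292, cT6_2293, cT6_2294, cT6_2295, cT6_2296, cT6_2297,
      cT6_2298, cT6_2299, cT6_2300, cT6_2301, cT6_2302, cT6_2303, cT6_2304, cT6_2305, cT6_2306, cT6_2307,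
      cT6_2308, cT6_2309, cT6_2310, cT6_2311, cT6_2312, cT6_2313, cT6_2314, cT6_2315, cT6_2316, cT6_2317,
      cT6_2318, cT6_2319, cT6_2320, cT6_2321, cT6_2322, cT6_2323, cT6_2324, cT6_2325, cT6_2326, cT6_2327,
      cT6_2328, cT6_2329, cT6_2330, cT6_2331, cT6_2332, cT6_2333, cT6_2334, cT6_2335, cT6_2336, cT6_2337,
      cT6_2338, cT6_2339, cT6_2340, cT6_2341, cT6_2342, cT6_2343, cT6_2344, cT6_2345, cT6_2346, cT6_2347,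
      cT6_2348, cT6_2349, cT6_2350, cT6_2351, cT6_2352, cT6_2353, cT6_2354, cT6_2355, cT6_2356, cT6_2357,
      cT6_2358, cT6_2359, cT6_2360, cT6_2361, cT6_2362, cT6_2363, cT6_2364, cT6_2365, cT6_2366, cT6_2367,
      cT6_2368, cT6_2369, cT6_2370, cT6_2371, cT6_2372, cT6_2373, cT6_2374, cT6_2375, cT6_2376, cT6_2377,
      cT6_2378, cT6_2379, cT6_2380, cT6_2381, cT6_2382, cT6_2383, cT6_2384, cT6_2385, cT6_2386, cT6_2387,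
      cT6_2388, cT6_2389, cT6_2390, cT6_2391, cT6_2392, cT6_2393, cT6_2394, cT6_2395, cT6_2396, cT6_2397,
      cT6_2398, cT6_2399, cT6_2400, cT6_2401, cT6_2402, cT6_2403, cT6_2404, cT6_2405, cT6_2406, cT6_2407,
      cT6_2408, cT6_2409, cT6_2410, cT6_2411, cT6_2412, cT6_2413, cT6_2414, cT6_2415, cT6_2416, cT6_2417,
      cT6_2418, cT6_2419, cT6_2420, cT6_2421, cT6_2422, cT6_2423, cT6_2424, cT6_2425, cT6_2426, cT6_2427,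
      cT6_2428, cT6_2429, cT6_2430, cT6_2431, cT6_2432, cT6_2433, cT6_2434, cT6_2435, cT6_2436, cT6_2437,
      cT6_2438, cT6_2439, cT6_2440, cT6_2441, cT6_2442, cT6_2443, cT6_2444, cT6_2445, cT6_2446, cT6_2447,
      cT6_2448, cT6_2449, cT6_2450, cT6_2451, cT6_2452, cT6_2453, cT6_2454, cT6_2455, cT6_2456, cT6_2457,
      cT6_2458, cT6_2459, cT6_2460, cT6_2461, cT6_2462, cT6_2463, cT6_2464, cT6_2465, cT6_2466, cT6_2467,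
      cT6_2468, cT6_2469, cT6_2470, cT6_2471, cT6_2472, cT6_2473, cT6_2474, cT6_2475, cT6_2476, cT6_2477,
      cT6_2478, cT6_2479, cT6_2480, cT6_2481, cT6_2482, cT6_2483, cT6_2484, cT6_2485, cT6_2486, cT6_2487,
      cT6_2488, cT6_2489, cT6_2490, cT6_2491, cT6_2492, cT6_2493, cT6_2494, cT6_2495, cT6_2496, cT6_2497,
      cT6_2498, cT6_2499, cT6_2500, cT6_2501, cT6_2502, cT6_2503, cT6_2504, cT6_2505, cT6_2506, cT6_2507,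
      cT6_2508, cT6_2509, cT6_2510, cT6_2511, cT6_2512, cT6_2513, cT6_2514, cT6_2515, cT6_2516, cT6_2517,
      cT6_2518, cT6_2519, cT6_2520, cT6_2521, cT6_2522, cT6_2523, cT6_2524, cT6_2525, cT6_2526, cT6_2527]

theorem gT6_16 : allF (chkC 6 tt6) lT6_16 = true := by
  decide +kernel

end Pool.Agent.Lib_MP_fa6e45
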