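import Pool.Agent.Lib_MP_fa6e45.CSTT
import Pool.Agent.Lib_MP_fa6e45.HK

/-!
MP_fa6e45_co, stage 5: certificates (captain, generated by a program).
-/

namespace Pool.Agent.Lib_MP_fa6e45

/-- classes `0 1 2 0 1 3`, types `N0 S0 S0 N1 S0 S0` -/
noncomputable def cT6_2528 : CertT :=
  ⟨[k12,k16,k32,k13,k16,k48],[(false,k0,[k0,k1,k2,k3,k4,k5])],[[[([z1,z0,z0,z0,z1,z1],z2)],[]]],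
    [.leafM k0 [k0,k1,k2,k3,k4,k5] [(z1,[y1,z1])] [],
    .lp [k2,k4,k2,k2,k2,k2] [k1,k1,k0,k0,k1,k1,k1,k1,k1,k1,k1,k1] k0 [] k8 k5
    [[(k1,k2),(k10,k2)],[(k9,k2)],[(k6,k3)],[(k5,k3),(k8,k3),(k11,k3),(k2,k4)],[(k5,k2),(k8,k2),(k11,k2),(k2,k3)],
    [(k4,k2),(k7,k2)],[(k4,k2),(k7,k2)],[(k3,k3)],[(k0,k2)],[(k5,k2),(k8,k2),(k11,k2),(k2,k3)],[(k5,k2),(k8,k2),(k11,
    k2),(k2,k3)],[(k1,k2),(k10,k2)]]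
    [] k0
    [[k1,k0,k0,k0,k1,k1]]
    [.ref k0 k0 [(z1,[z1])]]]⟩

/-- classes `0 1 2 0 1 3`, types `N0 S0 S0 N2 S0 S0` -/
noncomputable def cT6_2529 : CertT :=
  ⟨[k12,k16,k32,k14,k16,k48],[],[[[]]],
    [.lp [k2,k2,k2,k2,k2,k2] [k0,k0,k0,k0,k0,k0,k0,k0,k0,k0,k0,k0] k0 [] k8 k5
    [[(k1,k2),(k10,k2)],[(k6,k2)],[(k9,k2)],[(k2,k2),(k5,k2),(k8,k2),(k11,k2)],[(k2,k2),(k5,k2),(k8,k2),(k11,k2)],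
    [(k4,k2),(k7,k2)],[(k4,k2),(k7,k2)],[(k0,k2)],[(k3,k2)],[(k2,k2),(k5,k2),(k8,k2),(k11,k2)],[(k2,k2),(k5,k2),(k8,
    k2),(k11,k2)],[(k1,k2),(k10,k2)]]
    [] k0
    []
    []]⟩

/-- classes `0 1 2 0 1 3`, types `S0 S0 C0 S0 S0 C0` -/
noncomputable def cT6_2530 : CertT :=
  ⟨[k0,k16,k36,k0,k16,k52],[(true,k2,[k2,k1,k0,k5,k4,k3]),(false,k0,[k0,k1,k2,k3,k4,k5])],[[[([z1,z0,z0,z0,z1,z1],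
    z2)],[]]],
    [.leafM k0 [k0,k1,k2,k3,k4,k5] [(z1,[y1,z1])] [],
    .lp [k2,k2,k2,k2,k4,k2] [k1,k1,k1,k1,k1,k1,k1,k1,k0,k0,k1,k1] k0 [] k8 k5
    [[(k10,k2)],[(k0,k2),(k3,k2),(k6,k2),(k9,k3)],[(k0,k2),(k3,k2),(k6,k2),(k9,k3)],[(k2,k2),(k5,k2),(k11,k2),(k8,
    k3)],[(k2,k2),(k5,k2),(k11,k2),(k8,k3)],[(k7,k2)],[(k4,k2)],[(k0,k2),(k3,k2),(k6,k2),(k9,k3)],[(k0,k3),(k3,k3),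
    (k6,k3),(k9,k4)],[(k2,k3),(k5,k3),(k11,k3),(k8,k4)],[(k2,k2),(k5,k2),(k11,k2),(k8,k3)],[(k1,k2)]]
    [] k0
    [[k1,k1,k0,k0,k0,k1],[k0,k1,k1,k1,k0,k0]]
    [.ref k0 k0 [(z1,[y1,z1])],.ref k0 k1 [(z1,[y1,z1])]]]⟩

/-- classes `0 1 2 0 1 3`, types `S0 S0 C0 S0 S0 S0` -/
noncomputable def cT6_2531 : CertT :=
  ⟨[k0,k16,k36,k0,k16,k48],[(false,k0,[k0,k1,k2,k3,k4,k5]),(true,k5,[k5,k4,k3,k2,k1,k0])],[[[([z1,z0,z0,z0,z1,z1],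
    z2)],[]]],
    [.leafM k0 [k0,k1,k2,k3,k4,k5] [(z1,[y1,z1])] [],
    .lp [k2,k2,k2,k2,k2,k4] [k1,k1,k1,k1,k1,k1,k1,k1,k1,k1,k0,k0] k0 [] k8 k5
    [[(k1,k2),(k10,k3)],[(k0,k2),(k3,k2),(k6,k2),(k9,k2)],[(k0,k2),(k3,k2),(k6,k2),(k9,k2)],[(k2,k2),(k5,k2),(k8,k2),
    (k11,k3)],[(k2,k2),(k5,k2),(k8,k2),(k11,k3)],[(k7,k2)],[(k4,k2)],[(k0,k2),(k3,k2),(k6,k2),(k9,k2)],[(k0,k2),(k3,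
    k2),(k6,k2),(k9,k2)],[(k2,k2),(k5,k2),(k8,k2),(k11,k3)],[(k2,k3),(k5,k3),(k8,k3),(k11,k4)],[(k1,k3),(k10,k4)]]
    [] k0
    [[k0,k1,k1,k1,k0,k0],[k0,k0,k1,k1,k1,k0]]
    [.ref k0 k0 [(z1,[y1,z1])],.ref k0 k1 [(z1,[y1,z1])]]]⟩

/-- classes `0 1 2 0 3 4`, types `B0 C0 C0 B1 C0 C0` -/
noncomputable def cT6_2532 : CertT :=
  ⟨[k8,k20,k36,k9,k52,k68],[(false,k0,[k0,k1,k2,k3,k4,k5])],[[[([z1,z0,z0,z0,z1,z1],z2)],[]]],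
    [.leafM k0 [k0,k1,k2,k3,k4,k5] [(z1,[y1,z1])] [],
    .lp [k2,k2,k2,k2,k2,k4] [k1,k1,k1,k1,k1,k1,k1,k1,k1,k1,k0,k0] k0 [] k8 k5
    [[(k10,k3)],[(k6,k2),(k9,k2)],[(k6,k2),(k9,k2)],[(k5,k2)],[(k2,k2)],[(k7,k2)],[(k4,k2)],[(k0,k2),(k3,k2)],[(k0,
    k2),(k3,k2)],[(k11,k3)],[(k8,k3)],[(k1,k3)]]
    [] k0
    [[k0,k1,k1,k1,k0,k0]]
    [.ref k0 k0 [(z1,[y1,z1])]]]⟩

/-- classes `0 1 2 0 3 4`, types `B0 C0 C0 B1 C0 S0` -/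
noncomputable def cT6_2533 : CertT :=
  ⟨[k8,k20,k36,k9,k52,k64],[(false,k0,[k0,k1,k2,k3,k4,k5])],[[[([z1,z0,z0,z0,z1,z1],z2)],[]]],
    [.leafM k0 [k0,k1,k2,k3,k4,k5] [(z1,[y1,z1])] [],
    .lp [k4,k2,k2,k2,k2,k2] [k0,k0,k1,k1,k1,k1,k1,k1,k1,k1,k1,k1] k0 [] k8 k5
    [[(k10,k3),(k1,k4)],[(k6,k3),(k9,k3)],[(k6,k2),(k9,k2)],[(k5,k2)],[(k2,k2)],[(k7,k2)],[(k4,k2)],[(k3,k2),(k0,k3)],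
    [(k3,k2),(k0,k3)],[(k11,k2)],[(k8,k2)],[(k10,k2),(k1,k3)]]
    [] k0
    [[k0,k1,k1,k1,k0,k0]]
    [.ref k0 k0 [(z1,[y1,z1])]]]⟩

/-- classes `0 1 2 0 3 4`, types `B0 C0 C0 B1 S0 S0` -/
noncomputable def cT6_2534 : CertT :=
  ⟨[k8,k20,k36,k9,k48,k64],[(false,k0,[k0,k1,k2,k3,k4,k5])],[[[([z1,z0,z0,z0,z1,z1],z2)],[]]],
    [.leafM k0 [k0,k1,k2,k3,k4,k5] [(z1,[y1,z1])] [],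
    .lp [k2,k2,k2,k4,k2,k2] [k1,k1,k1,k1,k1,k1,k0,k0,k1,k1,k1,k1] k0 [] k8 k5
    [[(k1,k2),(k10,k2)],[(k9,k2),(k6,k3)],[(k9,k2),(k6,k3)],[(k5,k2)],[(k2,k2)],[(k7,k3)],[(k4,k3)],[(k0,k3),(k3,k3)],
    [(k0,k2),(k3,k2)],[(k8,k2),(k11,k2)],[(k8,k2),(k11,k2)],[(k1,k2),(k10,k2)]]
    [] k0
    [[k1,k0,k0,k0,k1,k1]]
    [.ref k0 k0 [(z1,[z1])]]]⟩

/-- classes `0 1 2 0 3 4`, types `B0 C0 S0 B1 C0 S0` -/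
noncomputable def cT6_2535 : CertT :=
  ⟨[k8,k20,k32,k9,k52,k64],[(false,k0,[k0,k1,k2,k3,k4,k5])],[[[([z1,z0,z0,z0,z1,z1],z2)],[]]],
    [.leafM k0 [k0,k1,k2,k3,k4,k5] [(z1,[y1,z1])] [],
    .lp [k2,k2,k2,k4,k2,k2] [k1,k1,k1,k1,k1,k1,k0,k0,k1,k1,k1,k1] k0 [] k8 k5
    [[(k1,k2),(k10,k2)],[(k9,k2),(k6,k3)],[(k9,k2),(k6,k3)],[(k5,k2)],[(k2,k2)],[(k4,k2),(k7,k3)],[(k4,k3),(k7,k4)],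
    [(k0,k3),(k3,k3)],[(k0,k2),(k3,k2)],[(k11,k2)],[(k8,k2)],[(k1,k2),(k10,k2)]]
    [] k0
    [[k1,k0,k0,k0,k1,k1]]
    [.ref k0 k0 [(z1,[z1])]]]⟩

/-- classes `0 1 2 0 3 4`, types `B0 C0 S0 B1 S0 C0` -/
noncomputable def cT6_2536 : CertT :=
  ⟨[k8,k20,k32,k9,k48,k68],[(false,k0,[k0,k1,k2,k3,k4,k5])],[[[([z1,z0,z0,z0,z1,z1],z2)],[]]],
    [.leafM k0 [k0,k1,k2,k3,k4,k5] [(z1,[y1,z1])] [],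
    .lp [k2,k2,k2,k4,k2,k2] [k1,k1,k1,k1,k1,k1,k0,k0,k1,k1,k1,k1] k0 [] k8 k5
    [[(k10,k2)],[(k9,k2),(k6,k3)],[(k9,k2),(k6,k3)],[(k5,k2)],[(k2,k2)],[(k4,k2),(k7,k3)],[(k4,k3),(k7,k4)],[(k0,k3),
    (k3,k3)],[(k0,k2),(k3,k2)],[(k8,k2),(k11,k2)],[(k8,k2),(k11,k2)],[(k1,k2)]]
    [] k0
    [[k1,k0,k0,k0,k1,k1]]
    [.ref k0 k0 [(z1,[z1])]]]⟩

/-- classes `0 1 2 0 3 4`, types `B0 C0 S0 B1 S0 S0` -/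
noncomputable def cT6_2537 : CertT :=
  ⟨[k8,k20,k32,k9,k48,k64],[(false,k0,[k0,k1,k2,k3,k4,k5])],[[[([z1,z0,z0,z0,z1,z1],z2)],[]]],
    [.leafM k0 [k0,k1,k2,k3,k4,k5] [(z1,[y1,z1])] [],
    .lp [k2,k4,k2,k2,k2,k2] [k1,k1,k0,k0,k1,k1,k1,k1,k1,k1,k1,k1] k0 [] k8 k5
    [[(k1,k2),(k10,k2)],[(k6,k2),(k9,k2)],[(k6,k3),(k9,k3)],[(k5,k3)],[(k2,k3)],[(k4,k2),(k7,k2)],[(k4,k2),(k7,k2)],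
    [(k0,k2),(k3,k3)],[(k0,k2),(k3,k3)],[(k8,k2),(k11,k2)],[(k8,k2),(k11,k2)],[(k1,k2),(k10,k2)]]
    [] k0
    [[k1,k0,k0,k0,k1,k1]]
    [.ref k0 k0 [(z1,[z1])]]]⟩

/-- classes `0 1 2 0 3 4`, types `B0 S0 S0 B1 S0 S0` -/
noncomputable def cT6_2538 : CertT :=
  ⟨[k8,k16,k32,k9,k48,k64],[(false,k0,[k0,k1,k2,k3,k4,k5])],[[[([z1,z0,z0,z0,z1,z1],z2)],[]]],
    [.leafM k0 [k0,k1,k2,k3,k4,k5] [(z1,[y1,z1])] [],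
    .lp [k4,k2,k2,k2,k2,k2] [k0,k0,k1,k1,k1,k1,k1,k1,k1,k1,k1,k1] k0 [] k8 k5
    [[(k10,k3),(k1,k4)],[(k6,k3),(k9,k3)],[(k6,k2),(k9,k2)],[(k2,k2),(k5,k2)],[(k2,k2),(k5,k2)],[(k4,k2),(k7,k2)],
    [(k4,k2),(k7,k2)],[(k3,k2),(k0,k3)],[(k3,k2),(k0,k3)],[(k8,k2),(k11,k2)],[(k8,k2),(k11,k2)],[(k10,k2),(k1,k3)]]
    [] k0
    [[k0,k1,k1,k1,k0,k0]]
    [.ref k0 k0 [(z1,[y1,z1])]]]⟩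

/-- classes `0 1 2 0 3 4`, types `C0 C0 C0 C0 C0 C0` -/
noncomputable def cT6_2539 : CertT :=
  ⟨[k4,k20,k36,k4,k52,k68],[(false,k0,[k0,k1,k2,k3,k4,k5])],[[[([z1,z0,z0,z0,z1,z1],z2)],[]]],
    [.leafM k0 [k0,k1,k2,k3,k4,k5] [(z1,[y1,z1])] [],
    .lp [k2,k2,k2,k2,k2,k4] [k1,k1,k1,k1,k1,k1,k1,k1,k1,k1,k0,k0] k0 [] k8 k5
    [[(k10,k3)],[(k3,k2),(k9,k2)],[(k0,k2),(k6,k2)],[(k5,k2)],[(k2,k2)],[(k7,k2)],[(k4,k2)],[(k3,k2),(k9,k2)],[(k0,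
    k2),(k6,k2)],[(k11,k3)],[(k8,k3)],[(k1,k3)]]
    [] k0
    [[k0,k1,k1,k1,k0,k0]]
    [.ref k0 k0 [(z1,[y1,z1])]]]⟩

/-- classes `0 1 2 0 3 4`, types `C0 C0 C0 C0 C0 S0` -/
noncomputable def cT6_2540 : CertT :=
  ⟨[k4,k20,k36,k4,k52,k64],[(false,k0,[k0,k1,k2,k3,k4,k5])],[[[([z1,z0,z0,z0,z1,z1],z2)],[]]],
    [.leafM k0 [k0,k1,k2,k3,k4,k5] [(z1,[y1,z1])] [],
    .lp [k2,k2,k2,k2,k2,k4] [k1,k1,k1,k1,k1,k1,k1,k1,k1,k1,k0,k0] k0 [] k8 k5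
    [[(k1,k2),(k10,k3)],[(k3,k2),(k9,k2)],[(k0,k2),(k6,k2)],[(k5,k2)],[(k2,k2)],[(k7,k2)],[(k4,k2)],[(k3,k2),(k9,k2)],
    [(k0,k2),(k6,k2)],[(k11,k3)],[(k8,k3)],[(k1,k3),(k10,k4)]]
    [] k0
    [[k0,k1,k1,k1,k0,k0]]
    [.ref k0 k0 [(z1,[y1,z1])]]]⟩

/-- classes `0 1 2 0 3 4`, types `C0 C0 C0 C0 S0 S0` -/
noncomputable def cT6_2541 : CertT :=
  ⟨[k4,k20,k36,k4,k48,k64],[(false,k0,[k0,k1,k2,k3,k4,k5])],[[[([z1,z0,z0,z0,z1,z1],z2)],[]]],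
    [.leafM k0 [k0,k1,k2,k3,k4,k5] [(z1,[y1,z1])] [],
    .lp [k4,k2,k2,k2,k2,k2] [k0,k0,k1,k1,k1,k1,k1,k1,k1,k1,k1,k1] k0 [] k8 k5
    [[(k10,k3),(k1,k4)],[(k3,k3),(k9,k3)],[(k6,k2),(k0,k3)],[(k5,k2)],[(k2,k2)],[(k7,k2)],[(k4,k2)],[(k3,k2),(k9,k2)],
    [(k6,k2),(k0,k3)],[(k8,k2),(k11,k2)],[(k8,k2),(k11,k2)],[(k10,k2),(k1,k3)]]
    [] k0
    [[k0,k1,k1,k1,k0,k0]]
    [.ref k0 k0 [(z1,[y1,z1])]]]⟩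

/-- classes `0 1 2 0 3 4`, types `C0 C0 C0 C2 C0 C0` -/
noncomputable def cT6_2542 : CertT :=
  ⟨[k4,k20,k36,k6,k52,k68],[],[[[]]],
    [.lp [k0,k2,k0,k2,k0,k2] [k1,k1,k0,k0,k1,k1,k0,k0,k1,k1,k0,k0] k0 [] k4 k5
    [[(k10,k1)],[(k3,k1),(k6,k1)],[(k0,k1),(k9,k1)],[(k5,k1)],[(k2,k1)],[(k7,k1)],[(k4,k1)],[(k0,k1),(k9,k1)],[(k3,
    k1),(k6,k1)],[(k11,k1)],[(k8,k1)],[(k1,k1)]]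
    [] k0
    []
    []]⟩

/-- classes `0 1 2 0 3 4`, types `C0 C0 C0 C2 C0 S0` -/
noncomputable def cT6_2543 : CertT :=
  ⟨[k4,k20,k36,k6,k52,k64],[],[[[]]],
    [.lp [k2,k2,k2,k2,k2,k2] [k0,k0,k0,k0,k0,k0,k0,k0,k0,k0,k0,k0] k0 [] k8 k5
    [[(k1,k2),(k10,k2)],[(k3,k2),(k6,k2)],[(k0,k2),(k9,k2)],[(k5,k2)],[(k2,k2)],[(k7,k2)],[(k4,k2)],[(k0,k2),(k9,k2)],
    [(k3,k2),(k6,k2)],[(k11,k2)],[(k8,k2)],[(k1,k2),(k10,k2)]]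
    [] k0
    []
    []]⟩

/-- classes `0 1 2 0 3 4`, types `C0 C0 C0 C2 S0 S0` -/
noncomputable def cT6_2544 : CertT :=
  ⟨[k4,k20,k36,k6,k48,k64],[],[[[]]],
    [.lp [k2,k2,k2,k2,k2,k2] [k0,k0,k0,k0,k0,k0,k0,k0,k0,k0,k0,k0] k0 [] k8 k5
    [[(k1,k2),(k10,k2)],[(k3,k2),(k6,k2)],[(k0,k2),(k9,k2)],[(k5,k2)],[(k2,k2)],[(k7,k2)],[(k4,k2)],[(k0,k2),(k9,k2)],
    [(k3,k2),(k6,k2)],[(k8,k2),(k11,k2)],[(k8,k2),(k11,k2)],[(k1,k2),(k10,k2)]]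
    [] k0
    []
    []]⟩

/-- classes `0 1 2 0 3 4`, types `C0 C0 S0 C0 C0 S0` -/
noncomputable def cT6_2545 : CertT :=
  ⟨[k4,k20,k32,k4,k52,k64],[(false,k0,[k0,k1,k2,k3,k4,k5])],[[[([z1,z0,z0,z0,z1,z1],z2)],[]]],
    [.leafM k0 [k0,k1,k2,k3,k4,k5] [(z1,[y1,z1])] [],
    .lp [k4,k2,k2,k2,k2,k2] [k0,k0,k1,k1,k1,k1,k1,k1,k1,k1,k1,k1] k0 [] k8 k5
    [[(k10,k3),(k1,k4)],[(k3,k3),(k9,k3)],[(k6,k2),(k0,k3)],[(k5,k2)],[(k2,k2)],[(k4,k2),(k7,k2)],[(k4,k2),(k7,k2)],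
    [(k3,k2),(k9,k2)],[(k6,k2),(k0,k3)],[(k11,k2)],[(k8,k2)],[(k10,k2),(k1,k3)]]
    [] k0
    [[k0,k1,k1,k1,k0,k0]]
    [.ref k0 k0 [(z1,[y1,z1])]]]⟩

/-- classes `0 1 2 0 3 4`, types `C0 C0 S0 C0 S0 C0` -/
noncomputable def cT6_2546 : CertT :=
  ⟨[k4,k20,k32,k4,k48,k68],[(false,k0,[k0,k1,k2,k3,k4,k5])],[[[([z1,z0,z0,z0,z1,z1],z2)],[]]],
    [.leafM k0 [k0,k1,k2,k3,k4,k5] [(z1,[y1,z1])] [],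
    .lp [k4,k2,k2,k2,k2,k2] [k0,k0,k1,k1,k1,k1,k1,k1,k1,k1,k1,k1] k0 [] k8 k5
    [[(k10,k3)],[(k3,k3),(k9,k3)],[(k6,k2),(k0,k3)],[(k5,k2)],[(k2,k2)],[(k4,k2),(k7,k2)],[(k4,k2),(k7,k2)],[(k3,k2),
    (k9,k2)],[(k6,k2),(k0,k3)],[(k8,k2),(k11,k2)],[(k8,k2),(k11,k2)],[(k1,k3)]]
    [] k0
    [[k0,k1,k1,k1,k0,k0]]
    [.ref k0 k0 [(z1,[y1,z1])]]]⟩

/-- classes `0 1 2 0 3 4`, types `C0 C0 S0 C0 S0 S0` -/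
noncomputable def cT6_2547 : CertT :=
  ⟨[k4,k20,k32,k4,k48,k64],[(false,k0,[k0,k1,k2,k3,k4,k5])],[[[([z1,z0,z0,z0,z1,z1],z2)],[]]],
    [.leafM k0 [k0,k1,k2,k3,k4,k5] [(z1,[y1,z1])] [],
    .lp [k2,k2,k2,k4,k2,k2] [k1,k1,k1,k1,k1,k1,k0,k0,k1,k1,k1,k1] k0 [] k8 k5
    [[(k1,k2),(k10,k2)],[(k3,k2),(k9,k2)],[(k0,k2),(k6,k3)],[(k5,k2)],[(k2,k2)],[(k4,k2),(k7,k3)],[(k4,k3),(k7,k4)],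
    [(k3,k3),(k9,k3)],[(k0,k2),(k6,k3)],[(k8,k2),(k11,k2)],[(k8,k2),(k11,k2)],[(k1,k2),(k10,k2)]]
    [] k0
    [[k1,k0,k0,k0,k1,k1]]
    [.ref k0 k0 [(z1,[z1])]]]⟩

/-- classes `0 1 2 0 3 4`, types `C0 C0 S0 C2 C0 S0` -/
noncomputable def cT6_2548 : CertT :=
  ⟨[k4,k20,k32,k6,k52,k64],[],[[[]]],
    [.lp [k2,k2,k2,k2,k2,k2] [k0,k0,k0,k0,k0,k0,k0,k0,k0,k0,k0,k0] k0 [] k8 k5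
    [[(k1,k2),(k10,k2)],[(k3,k2),(k6,k2)],[(k0,k2),(k9,k2)],[(k5,k2)],[(k2,k2)],[(k4,k2),(k7,k2)],[(k4,k2),(k7,k2)],
    [(k0,k2),(k9,k2)],[(k3,k2),(k6,k2)],[(k11,k2)],[(k8,k2)],[(k1,k2),(k10,k2)]]
    [] k0
    []
    []]⟩

/-- classes `0 1 2 0 3 4`, types `C0 C0 S0 C2 S0 C0` -/
noncomputable def cT6_2549 : CertT :=
  ⟨[k4,k20,k32,k6,k48,k68],[],[[[]]],
    [.lp [k2,k2,k2,k2,k2,k2] [k0,k0,k0,k0,k0,k0,k0,k0,k0,k0,k0,k0] k0 [] k8 k5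
    [[(k10,k2)],[(k3,k2),(k6,k2)],[(k0,k2),(k9,k2)],[(k5,k2)],[(k2,k2)],[(k4,k2),(k7,k2)],[(k4,k2),(k7,k2)],[(k0,k2),
    (k9,k2)],[(k3,k2),(k6,k2)],[(k8,k2),(k11,k2)],[(k8,k2),(k11,k2)],[(k1,k2)]]
    [] k0
    []
    []]⟩

/-- classes `0 1 2 0 3 4`, types `C0 C0 S0 C2 S0 S0` -/
noncomputable def cT6_2550 : CertT :=
  ⟨[k4,k20,k32,k6,k48,k64],[],[[[]]],
    [.lp [k2,k2,k2,k2,k2,k2] [k0,k0,k0,k0,k0,k0,k0,k0,k0,k0,k0,k0] k0 [] k8 k5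
    [[(k1,k2),(k10,k2)],[(k3,k2),(k6,k2)],[(k0,k2),(k9,k2)],[(k5,k2)],[(k2,k2)],[(k4,k2),(k7,k2)],[(k4,k2),(k7,k2)],
    [(k0,k2),(k9,k2)],[(k3,k2),(k6,k2)],[(k8,k2),(k11,k2)],[(k8,k2),(k11,k2)],[(k1,k2),(k10,k2)]]
    [] k0
    []
    []]⟩

/-- classes `0 1 2 0 3 4`, types `C0 S0 S0 C0 S0 S0` -/
noncomputable def cT6_2551 : CertT :=
  ⟨[k4,k16,k32,k4,k48,k64],[(false,k0,[k0,k1,k2,k3,k4,k5])],[[[([z1,z0,z0,z0,z1,z1],z2)],[]]],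
    [.leafM k0 [k0,k1,k2,k3,k4,k5] [(z1,[y1,z1])] [],
    .lp [k2,k4,k2,k2,k2,k2] [k1,k1,k0,k0,k1,k1,k1,k1,k1,k1,k1,k1] k0 [] k8 k5
    [[(k1,k2),(k10,k2)],[(k9,k2),(k3,k3)],[(k0,k3),(k6,k3)],[(k5,k3),(k2,k4)],[(k5,k2),(k2,k3)],[(k4,k2),(k7,k2)],
    [(k4,k2),(k7,k2)],[(k9,k2),(k3,k3)],[(k0,k2),(k6,k2)],[(k8,k2),(k11,k2)],[(k8,k2),(k11,k2)],[(k1,k2),(k10,k2)]]
    [] k0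
    [[k1,k0,k0,k0,k1,k1]]
    [.ref k0 k0 [(z1,[z1])]]]⟩

/-- classes `0 1 2 0 3 4`, types `C0 S0 S0 C2 S0 S0` -/
noncomputable def cT6_2552 : CertT :=
  ⟨[k4,k16,k32,k6,k48,k64],[],[[[]]],
    [.lp [k2,k2,k2,k2,k2,k2] [k0,k0,k0,k0,k0,k0,k0,k0,k0,k0,k0,k0] k0 [] k8 k5
    [[(k1,k2),(k10,k2)],[(k3,k2),(k6,k2)],[(k0,k2),(k9,k2)],[(k2,k2),(k5,k2)],[(k2,k2),(k5,k2)],[(k4,k2),(k7,k2)],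
    [(k4,k2),(k7,k2)],[(k0,k2),(k9,k2)],[(k3,k2),(k6,k2)],[(k8,k2),(k11,k2)],[(k8,k2),(k11,k2)],[(k1,k2),(k10,k2)]]
    [] k0
    []
    []]⟩

/-- classes `0 1 2 0 3 4`, types `N0 C0 C0 N1 C0 C0` -/
noncomputable def cT6_2553 : CertT :=
  ⟨[k12,k20,k36,k13,k52,k68],[(false,k0,[k0,k1,k2,k3,k4,k5])],[[[([z1,z0,z0,z0,z1,z1],z2)],[]]],
    [.leafM k0 [k0,k1,k2,k3,k4,k5] [(z1,[y1,z1])] [],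
    .lp [k4,k2,k2,k2,k0,k4] [k0,k0,k1,k1,k1,k1,k1,k1,k2,k2,k0,k0] k0 [] k8 k5
    [[(k10,k4)],[(k9,k2)],[(k6,k2)],[(k5,k2)],[(k2,k2)],[(k7,k2)],[(k4,k2)],[(k3,k2)],[(k0,k2)],[(k11,k2)],[(k8,k2)],
    [(k1,k4)]]
    [] k0
    [[k0,k1,k1,k1,k0,k0]]
    [.ref k0 k0 [(z1,[y1,z1])]]]⟩

/-- classes `0 1 2 0 3 4`, types `N0 C0 C0 N1 C0 S0` -/
noncomputable def cT6_2554 : CertT :=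
  ⟨[k12,k20,k36,k13,k52,k64],[(false,k0,[k0,k1,k2,k3,k4,k5])],[[[([z1,z0,z0,z0,z1,z1],z2)],[]]],
    [.leafM k0 [k0,k1,k2,k3,k4,k5] [(z1,[y1,z1])] [],
    .lp [k2,k2,k2,k2,k2,k4] [k1,k1,k1,k1,k1,k1,k1,k1,k1,k1,k0,k0] k0 [] k8 k5
    [[(k1,k2),(k10,k3)],[(k9,k2)],[(k6,k2)],[(k5,k2)],[(k2,k2)],[(k7,k2)],[(k4,k2)],[(k3,k2)],[(k0,k2)],[(k11,k3)],
    [(k8,k3)],[(k1,k3),(k10,k4)]]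
    [] k0
    [[k0,k1,k1,k1,k0,k0]]
    [.ref k0 k0 [(z1,[y1,z1])]]]⟩

/-- classes `0 1 2 0 3 4`, types `N0 C0 C0 N1 S0 S0` -/
noncomputable def cT6_2555 : CertT :=
  ⟨[k12,k20,k36,k13,k48,k64],[(false,k0,[k0,k1,k2,k3,k4,k5])],[[[([z1,z0,z0,z0,z1,z1],z2)],[]]],
    [.leafM k0 [k0,k1,k2,k3,k4,k5] [(z1,[y1,z1])] [],
    .lp [k4,k2,k2,k2,k2,k2] [k0,k0,k1,k1,k1,k1,k1,k1,k1,k1,k1,k1] k0 [] k8 k5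
    [[(k10,k3),(k1,k4)],[(k9,k3)],[(k6,k2)],[(k5,k2)],[(k2,k2)],[(k7,k2)],[(k4,k2)],[(k3,k2)],[(k0,k3)],[(k8,k2),(k11,
    k2)],[(k8,k2),(k11,k2)],[(k10,k2),(k1,k3)]]
    [] k0
    [[k0,k1,k1,k1,k0,k0]]
    [.ref k0 k0 [(z1,[y1,z1])]]]⟩

/-- classes `0 1 2 0 3 4`, types `N0 C0 C0 N2 C0 C0` -/
noncomputable def cT6_2556 : CertT :=
  ⟨[k12,k20,k36,k14,k52,k68],[],[[[]]],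
    [.lp [k0,k2,k0,k2,k0,k2] [k1,k1,k0,k0,k1,k1,k0,k0,k1,k1,k0,k0] k0 [] k4 k5
    [[(k10,k1)],[(k6,k1)],[(k9,k1)],[(k5,k1)],[(k2,k1)],[(k7,k1)],[(k4,k1)],[(k0,k1)],[(k3,k1)],[(k11,k1)],[(k8,k1)],
    [(k1,k1)]]
    [] k0
    []
    []]⟩

/-- classes `0 1 2 0 3 4`, types `N0 C0 C0 N2 C0 S0` -/
noncomputable def cT6_2557 : CertT :=
  ⟨[k12,k20,k36,k14,k52,k64],[],[[[]]],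
    [.lp [k2,k2,k2,k2,k2,k2] [k0,k0,k0,k0,k0,k0,k0,k0,k0,k0,k0,k0] k0 [] k8 k5
    [[(k1,k2),(k10,k2)],[(k6,k2)],[(k9,k2)],[(k5,k2)],[(k2,k2)],[(k7,k2)],[(k4,k2)],[(k0,k2)],[(k3,k2)],[(k11,k2)],
    [(k8,k2)],[(k1,k2),(k10,k2)]]
    [] k0
    []
    []]⟩

/-- classes `0 1 2 0 3 4`, types `N0 C0 C0 N2 S0 S0` -/
noncomputable def cT6_2558 : CertT :=
  ⟨[k12,k20,k36,k14,k48,k64],[],[[[]]],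
    [.lp [k2,k2,k2,k2,k2,k2] [k0,k0,k0,k0,k0,k0,k0,k0,k0,k0,k0,k0] k0 [] k8 k5
    [[(k1,k2),(k10,k2)],[(k6,k2)],[(k9,k2)],[(k5,k2)],[(k2,k2)],[(k7,k2)],[(k4,k2)],[(k0,k2)],[(k3,k2)],[(k8,k2),(k11,
    k2)],[(k8,k2),(k11,k2)],[(k1,k2),(k10,k2)]]
    [] k0
    []
    []]⟩

/-- classes `0 1 2 0 3 4`, types `N0 C0 S0 N1 C0 S0` -/
noncomputable def cT6_2559 : CertT :=
  ⟨[k12,k20,k32,k13,k52,k64],[(false,k0,[k0,k1,k2,k3,k4,k5])],[[[([z1,z0,z0,z0,z1,z1],z2)],[]]],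
    [.leafM k0 [k0,k1,k2,k3,k4,k5] [(z1,[y1,z1])] [],
    .lp [k4,k2,k2,k2,k2,k2] [k0,k0,k1,k1,k1,k1,k1,k1,k1,k1,k1,k1] k0 [] k8 k5
    [[(k10,k3),(k1,k4)],[(k9,k3)],[(k6,k2)],[(k5,k2)],[(k2,k2)],[(k4,k2),(k7,k2)],[(k4,k2),(k7,k2)],[(k3,k2)],[(k0,
    k3)],[(k11,k2)],[(k8,k2)],[(k10,k2),(k1,k3)]]
    [] k0
    [[k0,k1,k1,k1,k0,k0]]
    [.ref k0 k0 [(z1,[y1,z1])]]]⟩

/-- classes `0 1 2 0 3 4`, types `N0 C0 S0 N1 S0 C0` -/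
noncomputable def cT6_2560 : CertT :=
  ⟨[k12,k20,k32,k13,k48,k68],[(false,k0,[k0,k1,k2,k3,k4,k5])],[[[([z1,z0,z0,z0,z1,z1],z2)],[]]],
    [.leafM k0 [k0,k1,k2,k3,k4,k5] [(z1,[y1,z1])] [],
    .lp [k4,k2,k2,k2,k2,k2] [k0,k0,k1,k1,k1,k1,k1,k1,k1,k1,k1,k1] k0 [] k8 k5
    [[(k10,k3)],[(k9,k3)],[(k6,k2)],[(k5,k2)],[(k2,k2)],[(k4,k2),(k7,k2)],[(k4,k2),(k7,k2)],[(k3,k2)],[(k0,k3)],[(k8,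
    k2),(k11,k2)],[(k8,k2),(k11,k2)],[(k1,k3)]]
    [] k0
    [[k0,k1,k1,k1,k0,k0]]
    [.ref k0 k0 [(z1,[y1,z1])]]]⟩

/-- classes `0 1 2 0 3 4`, types `N0 C0 S0 N1 S0 S0` -/
noncomputable def cT6_2561 : CertT :=
  ⟨[k12,k20,k32,k13,k48,k64],[(false,k0,[k0,k1,k2,k3,k4,k5])],[[[([z1,z0,z0,z0,z1,z1],z2)],[]]],
    [.leafM k0 [k0,k1,k2,k3,k4,k5] [(z1,[y1,z1])] [],
    .lp [k2,k0,k4,k4,k2,k2] [k1,k1,k2,k2,k0,k0,k0,k0,k1,k1,k1,k1] k0 [] k8 k5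
    [[(k1,k2),(k10,k2)],[(k9,k2)],[(k6,k2)],[(k5,k2)],[(k2,k2)],[(k4,k4),(k7,k4)],[(k4,k4),(k7,k4)],[(k3,k2)],[(k0,
    k2)],[(k8,k2),(k11,k2)],[(k8,k2),(k11,k2)],[(k1,k2),(k10,k2)]]
    [] k0
    [[k1,k0,k0,k0,k1,k1]]
    [.ref k0 k0 [(z1,[z1])]]]⟩

/-- classes `0 1 2 0 3 4`, types `N0 C0 S0 N2 C0 S0` -/
noncomputable def cT6_2562 : CertT :=
  ⟨[k12,k20,k32,k14,k52,k64],[],[[[]]],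
    [.lp [k2,k2,k2,k2,k2,k2] [k0,k0,k0,k0,k0,k0,k0,k0,k0,k0,k0,k0] k0 [] k8 k5
    [[(k1,k2),(k10,k2)],[(k6,k2)],[(k9,k2)],[(k5,k2)],[(k2,k2)],[(k4,k2),(k7,k2)],[(k4,k2),(k7,k2)],[(k0,k2)],[(k3,
    k2)],[(k11,k2)],[(k8,k2)],[(k1,k2),(k10,k2)]]
    [] k0
    []
    []]⟩

/-- classes `0 1 2 0 3 4`, types `N0 C0 S0 N2 S0 C0` -/
noncomputable def cT6_2563 : CertT :=
  ⟨[k12,k20,k32,k14,k48,k68],[],[[[]]],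
    [.lp [k2,k2,k2,k2,k2,k2] [k0,k0,k0,k0,k0,k0,k0,k0,k0,k0,k0,k0] k0 [] k8 k5
    [[(k10,k2)],[(k6,k2)],[(k9,k2)],[(k5,k2)],[(k2,k2)],[(k4,k2),(k7,k2)],[(k4,k2),(k7,k2)],[(k0,k2)],[(k3,k2)],[(k8,
    k2),(k11,k2)],[(k8,k2),(k11,k2)],[(k1,k2)]]
    [] k0
    []
    []]⟩

/-- classes `0 1 2 0 3 4`, types `N0 C0 S0 N2 S0 S0` -/
noncomputable def cT6_2564 : CertT :=
  ⟨[k12,k20,k32,k14,k48,k64],[],[[[]]],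
    [.lp [k2,k2,k2,k2,k2,k2] [k0,k0,k0,k0,k0,k0,k0,k0,k0,k0,k0,k0] k0 [] k8 k5
    [[(k1,k2),(k10,k2)],[(k6,k2)],[(k9,k2)],[(k5,k2)],[(k2,k2)],[(k4,k2),(k7,k2)],[(k4,k2),(k7,k2)],[(k0,k2)],[(k3,
    k2)],[(k8,k2),(k11,k2)],[(k8,k2),(k11,k2)],[(k1,k2),(k10,k2)]]
    [] k0
    []
    []]⟩

/-- classes `0 1 2 0 3 4`, types `N0 S0 S0 N1 S0 S0` -/
noncomputable def cT6_2565 : CertT :=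
  ⟨[k12,k16,k32,k13,k48,k64],[(false,k0,[k0,k1,k2,k3,k4,k5])],[[[([z1,z0,z0,z0,z1,z1],z2)],[]]],
    [.leafM k0 [k0,k1,k2,k3,k4,k5] [(z1,[y1,z1])] [],
    .lp [k2,k4,k2,k2,k2,k2] [k1,k1,k0,k0,k1,k1,k1,k1,k1,k1,k1,k1] k0 [] k8 k5
    [[(k1,k2),(k10,k2)],[(k9,k2)],[(k6,k3)],[(k5,k3),(k2,k4)],[(k5,k2),(k2,k3)],[(k4,k2),(k7,k2)],[(k4,k2),(k7,k2)],
    [(k3,k3)],[(k0,k2)],[(k8,k2),(k11,k2)],[(k8,k2),(k11,k2)],[(k1,k2),(k10,k2)]]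
    [] k0
    [[k1,k0,k0,k0,k1,k1]]
    [.ref k0 k0 [(z1,[z1])]]]⟩

/-- classes `0 1 2 0 3 4`, types `N0 S0 S0 N2 S0 S0` -/
noncomputable def cT6_2566 : CertT :=
  ⟨[k12,k16,k32,k14,k48,k64],[],[[[]]],
    [.lp [k2,k2,k2,k2,k2,k2] [k0,k0,k0,k0,k0,k0,k0,k0,k0,k0,k0,k0] k0 [] k8 k5
    [[(k1,k2),(k10,k2)],[(k6,k2)],[(k9,k2)],[(k2,k2),(k5,k2)],[(k2,k2),(k5,k2)],[(k4,k2),(k7,k2)],[(k4,k2),(k7,k2)],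
    [(k0,k2)],[(k3,k2)],[(k8,k2),(k11,k2)],[(k8,k2),(k11,k2)],[(k1,k2),(k10,k2)]]
    [] k0
    []
    []]⟩

/-- classes `0 1 2 0 3 4`, types `S0 C0 C0 S0 C0 C0` -/
noncomputable def cT6_2567 : CertT :=
  ⟨[k0,k20,k36,k0,k52,k68],[(false,k0,[k0,k1,k2,k3,k4,k5])],[[[([z1,z0,z0,z0,z1,z1],z2)],[]]],
    [.leafM k0 [k0,k1,k2,k3,k4,k5] [(z1,[y1,z1])] [],
    .lp [k2,k2,k2,k4,k2,k2] [k1,k1,k1,k1,k1,k1,k0,k0,k1,k1,k1,k1] k0 [] k8 k5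
    [[(k10,k2)],[(k0,k2),(k3,k2),(k9,k2),(k6,k3)],[(k0,k2),(k3,k2),(k9,k2),(k6,k3)],[(k5,k2)],[(k2,k2)],[(k7,k3)],
    [(k4,k3)],[(k0,k3),(k3,k3),(k9,k3),(k6,k4)],[(k0,k2),(k3,k2),(k9,k2),(k6,k3)],[(k11,k2)],[(k8,k2)],[(k1,k2)]]
    [] k0
    [[k1,k0,k0,k0,k1,k1]]
    [.ref k0 k0 [(z1,[z1])]]]⟩

/-- classes `0 1 2 0 3 4`, types `S0 C0 C0 S0 C0 S0` -/
noncomputable def cT6_2568 : CertT :=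
  ⟨[k0,k20,k36,k0,k52,k64],[(false,k0,[k0,k1,k2,k3,k4,k5])],[[[([z1,z0,z0,z0,z1,z1],z2)],[]]],
    [.leafM k0 [k0,k1,k2,k3,k4,k5] [(z1,[y1,z1])] [],
    .lp [k2,k4,k2,k2,k2,k2] [k1,k1,k0,k0,k1,k1,k1,k1,k1,k1,k1,k1] k0 [] k8 k5
    [[(k1,k2),(k10,k2)],[(k0,k2),(k6,k2),(k9,k2),(k3,k3)],[(k0,k3),(k6,k3),(k9,k3),(k3,k4)],[(k5,k3)],[(k2,k3)],[(k7,
    k2)],[(k4,k2)],[(k0,k2),(k6,k2),(k9,k2),(k3,k3)],[(k0,k2),(k6,k2),(k9,k2),(k3,k3)],[(k11,k2)],[(k8,k2)],[(k1,k2),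
    (k10,k2)]]
    [] k0
    [[k1,k0,k0,k0,k1,k1]]
    [.ref k0 k0 [(z1,[z1])]]]⟩

/-- classes `0 1 2 0 3 4`, types `S0 C0 C0 S0 S0 S0` -/
noncomputable def cT6_2569 : CertT :=
  ⟨[k0,k20,k36,k0,k48,k64],[(false,k0,[k0,k1,k2,k3,k4,k5])],[[[([z1,z0,z0,z0,z1,z1],z2)],[]]],
    [.leafM k0 [k0,k1,k2,k3,k4,k5] [(z1,[y1,z1])] [],
    .lp [k4,k2,k2,k2,k2,k2] [k0,k0,k1,k1,k1,k1,k1,k1,k1,k1,k1,k1] k0 [] k8 k5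
    [[(k10,k3),(k1,k4)],[(k3,k3),(k6,k3),(k9,k3),(k0,k4)],[(k3,k2),(k6,k2),(k9,k2),(k0,k3)],[(k5,k2)],[(k2,k2)],[(k7,
    k2)],[(k4,k2)],[(k3,k2),(k6,k2),(k9,k2),(k0,k3)],[(k3,k2),(k6,k2),(k9,k2),(k0,k3)],[(k8,k2),(k11,k2)],[(k8,k2),
    (k11,k2)],[(k10,k2),(k1,k3)]]
    [] k0
    [[k0,k1,k1,k1,k0,k0]]
    [.ref k0 k0 [(z1,[y1,z1])]]]⟩

/-- classes `0 1 2 0 3 4`, types `S0 C0 S0 S0 C0 S0` -/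
noncomputable def cT6_2570 : CertT :=
  ⟨[k0,k20,k32,k0,k52,k64],[(false,k0,[k0,k1,k2,k3,k4,k5])],[[[([z1,z0,z0,z0,z1,z1],z2)],[]]],
    [.leafM k0 [k0,k1,k2,k3,k4,k5] [(z1,[y1,z1])] [],
    .lp [k4,k2,k2,k2,k2,k2] [k0,k0,k1,k1,k1,k1,k1,k1,k1,k1,k1,k1] k0 [] k8 k5
    [[(k10,k3),(k1,k4)],[(k3,k3),(k6,k3),(k9,k3),(k0,k4)],[(k3,k2),(k6,k2),(k9,k2),(k0,k3)],[(k5,k2)],[(k2,k2)],[(k4,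
    k2),(k7,k2)],[(k4,k2),(k7,k2)],[(k3,k2),(k6,k2),(k9,k2),(k0,k3)],[(k3,k2),(k6,k2),(k9,k2),(k0,k3)],[(k11,k2)],
    [(k8,k2)],[(k10,k2),(k1,k3)]]
    [] k0
    [[k0,k1,k1,k1,k0,k0]]
    [.ref k0 k0 [(z1,[y1,z1])]]]⟩

/-- classes `0 1 2 0 3 4`, types `S0 C0 S0 S0 S0 C0` -/
noncomputable def cT6_2571 : CertT :=
  ⟨[k0,k20,k32,k0,k48,k68],[(false,k0,[k0,k1,k2,k3,k4,k5])],[[[([z1,z0,z0,z0,z1,z1],z2)],[]]],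
    [.leafM k0 [k0,k1,k2,k3,k4,k5] [(z1,[y1,z1])] [],
    .lp [k4,k2,k2,k2,k2,k2] [k0,k0,k1,k1,k1,k1,k1,k1,k1,k1,k1,k1] k0 [] k8 k5
    [[(k10,k3)],[(k3,k3),(k6,k3),(k9,k3),(k0,k4)],[(k3,k2),(k6,k2),(k9,k2),(k0,k3)],[(k5,k2)],[(k2,k2)],[(k4,k2),(k7,
    k2)],[(k4,k2),(k7,k2)],[(k3,k2),(k6,k2),(k9,k2),(k0,k3)],[(k3,k2),(k6,k2),(k9,k2),(k0,k3)],[(k8,k2),(k11,k2)],
    [(k8,k2),(k11,k2)],[(k1,k3)]]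
    [] k0
    [[k0,k1,k1,k1,k0,k0]]
    [.ref k0 k0 [(z1,[y1,z1])]]]⟩

/-- classes `0 1 2 0 3 4`, types `S0 C0 S0 S0 S0 S0` -/
noncomputable def cT6_2572 : CertT :=
  ⟨[k0,k20,k32,k0,k48,k64],[(false,k0,[k0,k1,k2,k3,k4,k5])],[[[([z1,z0,z0,z0,z1,z1],z2)],[]]],
    [.leafM k0 [k0,k1,k2,k3,k4,k5] [(z1,[y1,z1])] [],
    .lp [k2,k4,k2,k2,k2,k2] [k1,k1,k0,k0,k1,k1,k1,k1,k1,k1,k1,k1] k0 [] k8 k5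
    [[(k1,k2),(k10,k2)],[(k0,k2),(k6,k2),(k9,k2),(k3,k3)],[(k0,k3),(k6,k3),(k9,k3),(k3,k4)],[(k5,k3)],[(k2,k3)],[(k4,
    k2),(k7,k2)],[(k4,k2),(k7,k2)],[(k0,k2),(k6,k2),(k9,k2),(k3,k3)],[(k0,k2),(k6,k2),(k9,k2),(k3,k3)],[(k8,k2),(k11,
    k2)],[(k8,k2),(k11,k2)],[(k1,k2),(k10,k2)]]
    [] k0
    [[k1,k0,k0,k0,k1,k1]]
    [.ref k0 k0 [(z1,[z1])]]]⟩

/-- classes `0 1 2 3 4 5`, types `C0 C0 C0 C0 C0 C0` -/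
noncomputable def cT6_2573 : CertT :=
  ⟨[k4,k20,k36,k52,k68,k84],[],[[[]]],
    [.lp [k0,k2,k0,k2,k0,k2] [k1,k1,k0,k0,k1,k1,k0,k0,k1,k1,k0,k0] k0 [] k4 k5
    [[(k10,k1)],[(k3,k1)],[(k0,k1)],[(k5,k1)],[(k2,k1)],[(k7,k1)],[(k4,k1)],[(k9,k1)],[(k6,k1)],[(k11,k1)],[(k8,k1)],
    [(k1,k1)]]
    [] k0
    []
    []]⟩

/-- classes `0 1 2 3 4 5`, types `C0 C0 C0 C0 C0 S0` -/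
noncomputable def cT6_2574 : CertT :=
  ⟨[k4,k20,k36,k52,k68,k80],[],[[[]]],
    [.lp [k2,k2,k2,k2,k2,k2] [k0,k0,k0,k0,k0,k0,k0,k0,k0,k0,k0,k0] k0 [] k8 k5
    [[(k1,k2),(k10,k2)],[(k3,k2)],[(k0,k2)],[(k5,k2)],[(k2,k2)],[(k7,k2)],[(k4,k2)],[(k9,k2)],[(k6,k2)],[(k11,k2)],
    [(k8,k2)],[(k1,k2),(k10,k2)]]
    [] k0
    []
    []]⟩

/-- classes `0 1 2 3 4 5`, types `C0 C0 C0 C0 S0 S0` -/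
noncomputable def cT6_2575 : CertT :=
  ⟨[k4,k20,k36,k52,k64,k80],[],[[[]]],
    [.lp [k2,k2,k2,k2,k2,k2] [k0,k0,k0,k0,k0,k0,k0,k0,k0,k0,k0,k0] k0 [] k8 k5
    [[(k1,k2),(k10,k2)],[(k3,k2)],[(k0,k2)],[(k5,k2)],[(k2,k2)],[(k7,k2)],[(k4,k2)],[(k9,k2)],[(k6,k2)],[(k8,k2),(k11,
    k2)],[(k8,k2),(k11,k2)],[(k1,k2),(k10,k2)]]
    [] k0
    []
    []]⟩

/-- classes `0 1 2 3 4 5`, types `C0 C0 C0 S0 C0 S0` -/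
noncomputable def cT6_2576 : CertT :=
  ⟨[k4,k20,k36,k48,k68,k80],[],[[[]]],
    [.lp [k2,k2,k2,k2,k2,k2] [k0,k0,k0,k0,k0,k0,k0,k0,k0,k0,k0,k0] k0 [] k8 k5
    [[(k1,k2),(k10,k2)],[(k3,k2)],[(k0,k2)],[(k5,k2)],[(k2,k2)],[(k7,k2)],[(k4,k2)],[(k6,k2),(k9,k2)],[(k6,k2),(k9,
    k2)],[(k11,k2)],[(k8,k2)],[(k1,k2),(k10,k2)]]
    [] k0
    []
    []]⟩

/-- classes `0 1 2 3 4 5`, types `C0 C0 C0 S0 S0 S0` -/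
noncomputable def cT6_2577 : CertT :=
  ⟨[k4,k20,k36,k48,k64,k80],[],[[[]]],
    [.lp [k2,k2,k2,k2,k2,k2] [k0,k0,k0,k0,k0,k0,k0,k0,k0,k0,k0,k0] k0 [] k8 k5
    [[(k1,k2),(k10,k2)],[(k3,k2)],[(k0,k2)],[(k5,k2)],[(k2,k2)],[(k7,k2)],[(k4,k2)],[(k6,k2),(k9,k2)],[(k6,k2),(k9,
    k2)],[(k8,k2),(k11,k2)],[(k8,k2),(k11,k2)],[(k1,k2),(k10,k2)]]
    [] k0
    []
    []]⟩

/-- classes `0 1 2 3 4 5`, types `C0 C0 S0 C0 C0 S0` -/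
noncomputable def cT6_2578 : CertT :=
  ⟨[k4,k20,k32,k52,k68,k80],[],[[[]]],
    [.lp [k2,k2,k2,k2,k2,k2] [k0,k0,k0,k0,k0,k0,k0,k0,k0,k0,k0,k0] k0 [] k8 k5
    [[(k1,k2),(k10,k2)],[(k3,k2)],[(k0,k2)],[(k5,k2)],[(k2,k2)],[(k4,k2),(k7,k2)],[(k4,k2),(k7,k2)],[(k9,k2)],[(k6,
    k2)],[(k11,k2)],[(k8,k2)],[(k1,k2),(k10,k2)]]
    [] k0
    []
    []]⟩

/-- classes `0 1 2 3 4 5`, types `C0 C0 S0 C0 S0 S0` -/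
noncomputable def cT6_2579 : CertT :=
  ⟨[k4,k20,k32,k52,k64,k80],[],[[[]]],
    [.lp [k2,k2,k2,k2,k2,k2] [k0,k0,k0,k0,k0,k0,k0,k0,k0,k0,k0,k0] k0 [] k8 k5
    [[(k1,k2),(k10,k2)],[(k3,k2)],[(k0,k2)],[(k5,k2)],[(k2,k2)],[(k4,k2),(k7,k2)],[(k4,k2),(k7,k2)],[(k9,k2)],[(k6,
    k2)],[(k8,k2),(k11,k2)],[(k8,k2),(k11,k2)],[(k1,k2),(k10,k2)]]
    [] k0
    []
    []]⟩

/-- classes `0 1 2 3 4 5`, types `C0 C0 S0 S0 S0 S0` -/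
noncomputable def cT6_2580 : CertT :=
  ⟨[k4,k20,k32,k48,k64,k80],[],[[[]]],
    [.lp [k2,k2,k2,k2,k2,k2] [k0,k0,k0,k0,k0,k0,k0,k0,k0,k0,k0,k0] k0 [] k8 k5
    [[(k1,k2),(k10,k2)],[(k3,k2)],[(k0,k2)],[(k5,k2)],[(k2,k2)],[(k4,k2),(k7,k2)],[(k4,k2),(k7,k2)],[(k6,k2),(k9,k2)],
    [(k6,k2),(k9,k2)],[(k8,k2),(k11,k2)],[(k8,k2),(k11,k2)],[(k1,k2),(k10,k2)]]
    [] k0
    []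
    []]⟩

/-- classes `0 1 2 3 4 5`, types `C0 S0 C0 S0 C0 S0` -/
noncomputable def cT6_2581 : CertT :=
  ⟨[k4,k16,k36,k48,k68,k80],[],[[[]]],
    [.lp [k2,k2,k2,k2,k2,k2] [k0,k0,k0,k0,k0,k0,k0,k0,k0,k0,k0,k0] k0 [] k8 k5
    [[(k1,k2),(k10,k2)],[(k3,k2)],[(k0,k2)],[(k2,k2),(k5,k2)],[(k2,k2),(k5,k2)],[(k7,k2)],[(k4,k2)],[(k6,k2),(k9,k2)],
    [(k6,k2),(k9,k2)],[(k11,k2)],[(k8,k2)],[(k1,k2),(k10,k2)]]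
    [] k0
    []
    []]⟩

/-- classes `0 1 2 3 4 5`, types `C0 S0 C0 S0 S0 S0` -/
noncomputable def cT6_2582 : CertT :=
  ⟨[k4,k16,k36,k48,k64,k80],[],[[[]]],
    [.lp [k2,k2,k2,k2,k2,k2] [k0,k0,k0,k0,k0,k0,k0,k0,k0,k0,k0,k0] k0 [] k8 k5
    [[(k1,k2),(k10,k2)],[(k3,k2)],[(k0,k2)],[(k2,k2),(k5,k2)],[(k2,k2),(k5,k2)],[(k7,k2)],[(k4,k2)],[(k6,k2),(k9,k2)],
    [(k6,k2),(k9,k2)],[(k8,k2),(k11,k2)],[(k8,k2),(k11,k2)],[(k1,k2),(k10,k2)]]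
    [] k0
    []
    []]⟩

/-- classes `0 1 2 3 4 5`, types `C0 S0 S0 C0 S0 S0` -/
noncomputable def cT6_2583 : CertT :=
  ⟨[k4,k16,k32,k52,k64,k80],[],[[[]]],
    [.lp [k2,k2,k2,k2,k2,k2] [k0,k0,k0,k0,k0,k0,k0,k0,k0,k0,k0,k0] k0 [] k8 k5
    [[(k1,k2),(k10,k2)],[(k3,k2)],[(k0,k2)],[(k2,k2),(k5,k2)],[(k2,k2),(k5,k2)],[(k4,k2),(k7,k2)],[(k4,k2),(k7,k2)],
    [(k9,k2)],[(k6,k2)],[(k8,k2),(k11,k2)],[(k8,k2),(k11,k2)],[(k1,k2),(k10,k2)]]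
    [] k0
    []
    []]⟩

/-- classes `0 1 2 3 4 5`, types `C0 S0 S0 S0 S0 S0` -/
noncomputable def cT6_2584 : CertT :=
  ⟨[k4,k16,k32,k48,k64,k80],[],[[[]]],
    [.lp [k2,k2,k2,k2,k2,k2] [k0,k0,k0,k0,k0,k0,k0,k0,k0,k0,k0,k0] k0 [] k8 k5
    [[(k1,k2),(k10,k2)],[(k3,k2)],[(k0,k2)],[(k2,k2),(k5,k2)],[(k2,k2),(k5,k2)],[(k4,k2),(k7,k2)],[(k4,k2),(k7,k2)],
    [(k6,k2),(k9,k2)],[(k6,k2),(k9,k2)],[(k8,k2),(k11,k2)],[(k8,k2),(k11,k2)],[(k1,k2),(k10,k2)]]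
    [] k0
    []
    []]⟩

/-- the certificates of this file -/
noncomputable def lT6_17 : List CertT :=
  [cT6_2528, cT6_2529, cT6_2530, cT6_2531, cT6_2532, cT6_2533, cT6_2534, cT6_2535, cT6_2536, cT6_2537,
      cT6_2538, cT6_2539, cT6_2540, cT6_2541, cT6_2542, cT6_2543, cT6_2544, cT6_2545, cT6_2546, cT6_2547,
      cT6_2548, cT6_2549, cT6_2550, cT6_2551, cT6_2552, cT6_2553, cT6_2554, cT6_2555, cT6_2556, cT6_2557,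
      cT6_2558, cT6_2559, cT6_2560, cT6_2561, cT6_2562, cT6_2563, cT6_2564, cT6_2565, cT6_2566, cT6_2567,
      cT6_2568, cT6_2569, cT6_2570, cT6_2571, cT6_2572, cT6_2573, cT6_2574, cT6_2575, cT6_2576, cT6_2577,
      cT6_2578, cT6_2579, cT6_2580, cT6_2581, cT6_2582, cT6_2583, cT6_2584]

theorem gT6_17 : allF (chkC 6 tt6) lT6_17 = true := by
  decide +kernel

end Pool.Agent.Lib_MP_fa6e45
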