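import Pool.Agent.Lib_MP_fa6e45.CSTT
import Pool.Agent.Lib_MP_fa6e45.HK

/-!
MP_fa6e45_co, stage 5: certificates (captain, generated by a program).
-/

namespace Pool.Agent.Lib_MP_fa6e45

/-- classes `0 0 0 0 0 0`, types `B0 B1 B0 B1 B0 B1` -/
noncomputable def cT6_2_w : List ℕ := [k8,k9,k8,k9,k8,k9]

/-- symmetries -/
noncomputable def cT6_2_s : List (Bool × ℕ × List ℕ) :=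
  [(false,k0,[k0,k1,k2,k3,k4,k5]),(false,k4,[k4,k5,k0,k1,k2,k3]),(false,k5,[k5,k0,k1,k2,k3,k4]),(true,k0,[k0,k5,k4,k3,
    k2,k1]),(true,k2,[k2,k1,k0,k5,k4,k3]),(false,k3,[k3,k4,k5,k0,k1,k2]),(true,k4,[k4,k3,k2,k1,k0,k5]),(false,k1,[k1,
    k2,k3,k4,k5,k0]),(false,k2,[k2,k3,k4,k5,k0,k1]),(true,k3,[k3,k2,k1,k0,k5,k4]),(true,k1,[k1,k0,k5,k4,k3,k2]),(true,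
    k5,[k5,k4,k3,k2,k1,k0])]

/-- equations of the nodes -/
noncomputable def cT6_2_D : List (List (List Eqn)) :=
  [[[([z1,z0,z0,y2,y2,z0],y2),([z0,z1,z0,z2,z2,z1],z4)],[([z1,z0,z0,z0,y1,z0],z0),([z0,z2,z0,z0,z1,z0],z2),([z0,z0,z2,
    z0,z1,z0],z2)],[([z1,z0,z0,z0,y2,y2],y2),([z0,z1,z0,z0,z1,z1],z2),([z0,z0,z1,z0,z1,z1],z2)],[([z1,z0,z0,z0,z0,y1],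
    z0),([z0,z1,z0,z0,z0,y1],z0),([z0,z0,z1,z0,z1,z1],z2)],[([z1,z0,z0,z0,y1,z0],z0),([z0,z1,z0,z0,y1,z0],z0),([z0,z0,
    z1,z0,z1,z1],z2)],[([z3,z0,z0,z0,z0,z0],z2),([z0,z3,z0,z0,z0,z0],z2),([z0,z0,z3,z0,z0,z0],z2),([z0,z0,z0,z3,z0,
    z3],z4)],[([z3,z0,z0,z0,z0,z0],z2),([z0,z3,z0,z0,z0,z0],z2),([z0,z0,z3,z0,z0,z0],z2),([z0,z0,z0,z3,z0,z0],z2),
    ([z0,z0,z0,z0,z3,z0],z2)],[([z4,z0,z0,z0,z0,y7],y2),([z0,z2,z0,z0,z0,z1],z2),([z0,z0,z2,z0,z0,z1],z2),([z0,z0,z0,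
    z4,z0,y1],z2)],[([z1,z0,z0,z0,z0,y4],y2),([z0,z1,z0,z0,z0,z2],z2),([z0,z0,z1,z0,z0,z2],z2),([z0,z0,z0,z1,z0,z2],
    z2)],[([z1,z0,z0,z0,z0,y4],y2),([z0,z1,z0,z0,z0,z2],z2),([z0,z0,z1,z0,z0,y1],z0),([z0,z0,z0,z1,z0,z2],z2)],[([z1,
    z0,z0,z0,z0,y1],z0),([z0,z3,z0,z0,z0,z0],z2),([z0,z0,z1,z0,z0,z2],z2),([z0,z0,z0,z6,z0,y3],z2)],[([z1,z0,z0,z0,z0,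
    y4],y2),([z0,z1,z0,z0,z0,y4],y2),([z0,z0,z1,z0,z0,z2],z2),([z0,z0,z0,z1,z0,y1],z0)]],
    [[([z1,z0,z0,z0,z0,y1],z0),([z0,z2,z0,z0,z0,z1],z2),([z0,z0,z2,z0,z0,y5],y2),([z0,z0,z0,z1,z0,z2],z2)],[([z1,z0,
    z0,z0,y4,z0],y2),([z0,z3,z0,z0,z3,z0],z4),([z0,z0,z1,z0,z2,z0],z2),([z0,z0,z0,z1,z2,z0],z2)],[([z1,z0,z0,z0,y4,
    z0],y2),([z0,z1,z0,z0,z1,z1],z2),([z0,z0,z1,z0,z2,z0],z2)],[([z1,z0,z0,z0,z0,y4],y2),([z0,z1,z0,z0,z0,y4],y2),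
    ([z0,z0,z1,z0,z0,z5],z4),([z0,z0,z0,z1,z0,z2],z2)],[([z1,z0,z0,z0,z0,y1],z0),([z0,z1,z0,z0,z0,y1],z0),([z0,z0,z1,
    z0,z0,y1],z0),([z0,z0,z0,z1,z0,z2],z2)],[([z3,z0,z0,z0,z0,z0],z2),([z0,z3,z0,z0,z0,z0],z2),([z0,z0,z3,z0,z0,z3],
    z4),([z0,z0,z0,z3,z0,z0],z2)],[([z3,z0,z0,z0,z0,y6],y2),([z0,z1,z0,z0,z0,z2],z2),([z0,z0,z1,z0,z0,z2],z2),([z0,z0,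
    z0,z3,z0,z0],z2)],[([z1,z0,z0,z0,z0,y1],z0),([z0,z1,z0,z0,z1,y2],z0),([z0,z0,z1,z0,z0,z2],z2)],[([z1,z0,z0,z0,y2,
    z1],z0),([z0,z1,z0,z0,z2,z0],z2),([z0,z0,z1,z0,z2,z0],z2)],[([z1,z0,z0,z0,z0,y1],z0),([z0,z1,z0,z1,z1,z0],z2)],
    [([z1,z0,z0,y2,z0,z1],z0),([z0,z1,z0,z2,z0,z0],z2)],[([z1,z0,z0,z0,y1,z0],z0),([z0,z1,z0,z1,z0,z1],z2)]],
    [[([z1,z0,z0,z0,z0,y7],y4),([z0,z1,z0,z0,z0,z2],z2),([z0,z0,z1,z0,z0,y4],y2),([z0,z0,z0,z1,z0,z5],z4)],[([z1,z0,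
    z0,z0,z0,y4],y2),([z0,z1,z0,z0,z0,z5],z4),([z0,z0,z1,z0,z0,z2],z2),([z0,z0,z0,z1,z0,y1],z0)],[([z1,z0,z0,z0,y1,
    z0],z0),([z0,z3,z0,z0,z0,z0],z2),([z0,z0,z3,z0,z3,z0],z4),([z0,z0,z0,z3,z3,z0],z4)],[([z3,z0,z0,z0,z0,y6],y2),
    ([z0,z3,z0,z0,z0,y6],y2),([z0,z0,z3,z0,z0,z9],z8),([z0,z0,z0,z1,z0,z2],z2)],[([z1,z0,z0,z0,z0,y4],y2),([z0,z1,z0,
    z0,z0,y7],y4),([z0,z0,z1,z0,z0,z5],z4),([z0,z0,z0,z1,z0,z5],z4)],[([z3,z0,z0,z0,z0,y6],y2),([z0,z1,z0,z0,z0,z2],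
    z2),([z0,z0,z3,z0,z0,z3],z4),([z0,z0,z0,z3,z0,z0],z2)],[([z3,z0,z0,z0,y6,z0],y2),([z0,z3,z0,z0,z9,z0],z8),([z0,z0,
    z3,z0,z3,z0],z4),([z0,z0,z0,z1,y1,z0],z0)],[([z1,z0,z0,z0,y2,y2],y2),([z0,z1,z0,z0,z3,z2],z4),([z0,z0,z1,z0,z1,
    z1],z2)],[([z1,z0,z0,z0,y1,z0],z0),([z0,z1,z0,z0,y2,z1],z0),([z0,z0,z1,z0,z2,z0],z2)],[([z1,z0,z0,z0,y2,y2],y2),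
    ([z0,z1,z0,z0,y1,z0],z0),([z0,z0,z1,z0,z1,z1],z2)],[([z1,z0,z0,z0,z0,y7],y4),([z0,z1,z0,z0,z0,y4],y2),([z0,z0,z1,
    z0,z0,z5],z4),([z0,z0,z0,z1,z0,z2],z2)],[([z1,z0,z0,z0,z0,y1],z0),([z0,z1,z0,z0,z0,y1],z0),([z0,z0,z1,z0,z0,z2],
    z2),([z0,z0,z0,z1,z0,y1],z0)]],
    [[([z1,z0,z0,z0,z0,y4],y2),([z0,z1,z0,z0,z0,y1],z0),([z0,z0,z1,z0,z0,z2],z2),([z0,z0,z0,z1,z0,z2],z2)],[([z1,z0,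
    z0,z0,z0,y4],y2),([z0,z1,z0,z0,z0,y1],z0),([z0,z0,z1,z0,z0,y1],z0),([z0,z0,z0,z1,z0,z5],z4)],[([z3,z0,z0,z0,y6,
    z0],y2),([z0,z3,z0,z0,z0,z0],z2),([z0,z0,z3,z0,z3,z0],z4),([z0,z0,z0,z1,z2,z0],z2)],[([z3,z0,z0,z0,z0,y9],y4),
    ([z0,z3,z0,z0,z0,z0],z2),([z0,z0,z3,z0,z0,z3],z4),([z0,z0,z0,z1,z0,z2],z2)],[([z1,z0,z0,z0,y2,y2],y2),([z0,z1,z0,
    z0,z0,y1],z0),([z0,z0,z1,z0,z1,z1],z2)],[([z3,z0,z0,z0,z0,z0],z2),([z0,z3,z0,z0,z0,z3],z4),([z0,z0,z3,z0,z0,z0],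
    z2)],[([z1,z0,z0,z0,y2,y2],y2),([z0,z1,z0,z0,z2,z3],z4),([z0,z0,z1,z0,z1,z1],z2)],[([z3,z0,z0,z0,z0,z0],z2),([z0,
    z3,z0,z0,z0,z0],z2),([z0,z0,z3,z0,z0,z0],z2),([z0,z0,z0,z3,z0,z0],z2)],[([z1,z0,z0,z0,z0,y4],y2),([z0,z1,z0,z0,z0,
    z2],z2),([z0,z0,z1,z0,z0,z2],z2),([z0,z0,z0,z1,z0,y1],z0)],[([z1,z0,z0,z0,z0,y4],y2),([z0,z1,z0,z0,z0,z2],z2),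
    ([z0,z0,z1,z0,z0,y4],y2),([z0,z0,z0,z1,z0,z5],z4)],[([z1,z0,z0,z0,z0,y4],y2),([z0,z1,z0,z0,z0,z2],z2),([z0,z0,z1,
    z0,z0,z5],z4),([z0,z0,z0,z1,z0,y4],y2)],[([z1,z0,z0,z0,z0,y4],y2),([z0,z1,z0,z0,z0,z2],z2),([z0,z0,z1,z0,z0,z8],
    z6),([z0,z0,z0,z1,z0,y7],y4)]],
    [[([z1,z0,z0,z0,z0,y4],y2),([z0,z1,z0,z0,z0,z2],z2),([z0,z0,z1,z0,z0,y7],y4),([z0,z0,z0,z1,z0,z8],z6)],[([z1,z0,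
    z0,z0,y2,y2],y2),([z0,z1,z0,z0,z1,z1],z2),([z0,z0,z1,z0,z4,z4],z6)],[([z1,z0,z0,z0,z0,y4],y2),([z0,z1,z0,z0,z0,
    y7],y4),([z0,z0,z1,z0,z0,z8],z6),([z0,z0,z0,z1,z0,z2],z2)],[([z1,z0,z0,z0,z0,y4],y2),([z0,z1,z0,z0,z0,y10],y6),
    ([z0,z0,z1,z0,z0,z8],z6),([z0,z0,z0,z1,z0,z5],z4)],[([z3,z0,z0,z0,y6,z0],y2),([z0,z1,z0,z0,z2,z0],z2),([z0,z0,z3,
    z0,z3,z0],z4),([z0,z0,z0,z3,z0,z0],z2)],[([z3,z0,z0,z0,z0,y6],y2),([z0,z3,z0,z0,z0,y9],y4),([z0,z0,z3,z0,z0,z12],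
    z10),([z0,z0,z0,z1,z0,z2],z2)],[([z1,z0,z0,z0,y2,y2],y2),([z0,z2,z0,z0,z4,z3],z6),([z0,z0,z1,z0,z1,z1],z2)],[([z1,
    z0,z0,z0,y2,y2],y2),([z0,z1,z0,z1,z2,z2],z4)],[([z1,z0,z0,z0,z0,y4],y2),([z0,z1,z0,z0,z0,y7],y4),([z0,z0,z1,z0,z0,
    z2],z2),([z0,z0,z0,z1,z0,z2],z2)],[([z1,z0,z0,z0,z0,y4],y2),([z0,z1,z0,z0,z0,z2],z2),([z0,z0,z1,z0,z0,z2],z2),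
    ([z0,z0,z0,z1,z0,y7],y4)],[([z1,z0,z0,z0,z0,y4],y2),([z0,z1,z0,z0,z0,y1],z0),([z0,z0,z1,z0,z0,z2],z2),([z0,z0,z0,
    z1,z0,y4],y2)],[([z1,z0,z0,z0,z0,y4],y2),([z0,z1,z0,z0,z0,y10],y6),([z0,z0,z1,z0,z0,z2],z2),([z0,z0,z0,z1,z0,z5],
    z4)]],
    [[([z1,z0,z0,z0,z0,y4],y2),([z0,z1,z0,z0,z0,z5],z4),([z0,z0,z1,z0,z0,z2],z2),([z0,z0,z0,z1,z0,y10],y6)],[([z1,z0,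
    z0,z0,z0,y4],y2),([z0,z2,z0,z0,z0,z1],z2),([z0,z0,z1,z0,z0,z2],z2),([z0,z0,z0,z2,z0,y11],y6)],[([z1,z0,z0,z0,z0,
    y16],y10),([z0,z1,z0,z0,z0,z2],z2),([z0,z0,z1,z0,z0,z8],z6),([z0,z0,z0,z1,z0,z11],z8)],[([z1,z0,z0,z0,z0,y4],y2),
    ([z0,z3,z0,z0,z0,z0],z2),([z0,z0,z1,z0,z0,z2],z2),([z0,z0,z0,z3,z0,y15],y8)],[([z1,z0,z0,z0,y4,z0],y2),([z0,z2,z0,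
    z0,z1,z0],z2),([z0,z0,z1,z0,z2,z0],z2)],[([z1,z0,z0,z0,z0,y4],y2),([z0,z1,z0,z0,z0,y1],z0),([z0,z0,z1,z0,z0,z2],
    z2),([z0,z0,z0,z1,z0,y1],z0)],[([z1,z0,z0,z0,z0,y4],y2),([z0,z2,z0,z0,z0,z1],z2),([z0,z0,z1,z0,z0,z2],z2),([z0,z0,
    z0,z1,z0,y1],z0)],[([z1,z0,z0,z0,z0,y4],y2),([z0,z2,z0,z0,z0,z7],z6),([z0,z0,z1,z0,z0,z2],z2),([z0,z0,z0,z1,z0,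
    y1],z0)],[([z1,z0,z0,z0,y1,z0],z0),([z0,z1,z0,z0,y4,z0],y2),([z0,z0,z3,z0,z12,z0],z10),([z0,z0,z0,z1,z2,z0],z2)],
    [([z1,z0,z0,z0,y1,z0],z0),([z0,z1,z0,z0,y4,z0],y2),([z0,z0,z1,z0,z4,z1],z4)],[([z1,z0,z0,z0,y2,z1],z0),([z0,z1,z0,
    z0,z2,z0],z2),([z0,z0,z1,z0,z5,z0],z4)],[([z1,z0,z0,z0,y1,z0],z0),([z0,z2,z0,z0,y1,z2],z2),([z0,z0,z1,z0,z2,z0],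
    z2)]],
    [[([z1,z0,z0,z0,z0,y4],y2),([z0,z1,z0,z0,z0,z2],z2),([z0,z0,z1,z0,z0,z2],z2),([z0,z0,z0,z1,z0,z5],z4)],[([z1,z0,
    z0,z0,z0,y4],y2),([z0,z3,z0,z0,z0,z0],z2),([z0,z0,z1,z0,z0,z2],z2),([z0,z0,z0,z1,z0,z2],z2)],[([z1,z0,z0,z0,z0,
    y4],y2),([z0,z1,z0,z0,z0,y4],y2),([z0,z0,z1,z0,z0,y1],z0),([z0,z0,z0,z1,z0,z2],z2)],[([z1,z0,z0,z0,z0,y4],y2),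
    ([z0,z1,z0,z0,z0,y4],y2),([z0,z0,z1,z0,z0,z2],z2),([z0,z0,z0,z1,z0,z2],z2)],[([z1,z0,z0,z0,z0,y4],y2),([z0,z1,z0,
    z0,z1,z1],z2),([z0,z0,z1,z0,z0,z2],z2)],[([z1,z0,z0,z0,z0,y4],y2),([z0,z1,z0,z0,z0,y1],z0),([z0,z0,z3,z0,z0,z0],
    z2),([z0,z0,z0,z3,z0,z12],z10)],[([z1,z0,z0,z0,z0,y7],y4),([z0,z1,z0,z0,z0,y4],y2),([z0,z0,z1,z0,z0,z2],z2),([z0,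
    z0,z0,z1,z0,z8],z6)],[([z1,z0,z0,z0,z0,y4],y2),([z0,z1,z0,z0,z0,y1],z0),([z0,z0,z1,z0,z0,y4],y2),([z0,z0,z0,z1,z0,
    z8],z6)],[([z1,z0,z0,z0,z0,y7],y4),([z0,z1,z0,z0,z0,z2],z2),([z0,z0,z1,z0,z0,z8],z6),([z0,z0,z0,z1,z0,z2],z2)],
    [([z3,z0,z0,z0,y6,z0],y2),([z0,z2,z0,z0,z1,z0],z2),([z0,z0,z1,z0,z2,z0],z2),([z0,z0,z0,z2,z1,z0],z2)],[([z1,z0,z0,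
    z0,y2,z1],z0),([z0,z2,z0,z0,z1,z0],z2),([z0,z0,z1,z0,z2,z0],z2)],[([z1,z0,z0,z0,z0,y7],y4),([z0,z1,z0,z0,z0,z5],
    z4),([z0,z0,z1,z0,z0,z2],z2),([z0,z0,z0,z1,z0,z5],z4)]],
    [[([z1,z0,z0,z0,z0,y4],y2),([z0,z1,z0,z0,z0,y4],y2),([z0,z0,z1,z0,z0,z2],z2),([z0,z0,z0,z1,z0,z5],z4)],[([z1,z0,
    z0,z0,z0,y10],y6),([z0,z1,z0,z0,z0,y4],y2),([z0,z0,z1,z0,z0,z5],z4),([z0,z0,z0,z1,z0,z8],z6)],[([z1,z0,z0,z0,z0,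
    y4],y2),([z0,z1,z0,z0,z0,y10],y6),([z0,z0,z1,z0,z0,z5],z4),([z0,z0,z0,z1,z0,z2],z2)],[([z1,z0,z0,z0,z0,y4],y2),
    ([z0,z1,z0,z0,z0,y7],y4),([z0,z0,z1,z0,z0,z2],z2),([z0,z0,z0,z1,z0,z5],z4)],[([z1,z0,z0,z0,z0,y10],y6),([z0,z1,z0,
    z0,z0,z5],z4),([z0,z0,z1,z0,z0,z2],z2),([z0,z0,z0,z1,z0,z8],z6)],[([z1,z0,z0,z0,z0,y4],y2),([z0,z3,z0,z0,z0,y6],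
    y2),([z0,z0,z1,z0,z0,z2],z2),([z0,z0,z0,z1,z0,z5],z4)],[([z1,z0,z0,z0,z0,y4],y2),([z0,z1,z0,z0,z1,y2],z0),([z0,z0,
    z1,z0,z0,z2],z2)],[([z2,z0,z0,z0,y5,z0],y2),([z0,z2,z0,z0,z1,z0],z2),([z0,z0,z1,z0,z2,z0],z2)],[([z1,z0,z0,z0,z0,
    y1],z0),([z0,z3,z0,z0,z0,z0],z2),([z0,z0,z3,z0,z0,z0],z2),([z0,z0,z0,z1,z0,z2],z2)],[([z2,z0,z0,z0,z0,y11],y6),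
    ([z0,z1,z0,z0,z0,y4],y2),([z0,z0,z2,z0,z0,z1],z2),([z0,z0,z0,z1,z0,z2],z2)],[([z1,z0,z0,z0,z0,y4],y2),([z0,z1,z0,
    z0,z0,y10],y6),([z0,z0,z1,z0,z0,z8],z6),([z0,z0,z0,z1,z0,z2],z2)],[([z1,z0,z0,z0,z0,y4],y2),([z0,z3,z0,z0,z0,z0],
    z2),([z0,z0,z1,z0,z0,z2],z2),([z0,z0,z0,z3,z0,z9],z8)]],
    [[([z1,z0,z0,z0,z0,y4],y2),([z0,z3,z0,z0,z0,y6],y2),([z0,z0,z1,z0,z0,z2],z2),([z0,z0,z0,z3,z0,z12],z10)],[([z1,z0,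
    z0,z0,z0,y4],y2),([z0,z1,z0,z0,z0,y16],y10),([z0,z0,z1,z0,z0,z2],z2),([z0,z0,z0,z1,z0,z8],z6)],[([z1,z0,z0,z0,z0,
    y4],y2),([z0,z1,z0,z0,z0,y10],y6),([z0,z0,z1,z0,z0,z2],z2),([z0,z0,z0,z1,z0,z8],z6)],[([z1,z0,z0,z0,z0,y4],y2),
    ([z0,z3,z0,z0,z0,z18],z14),([z0,z0,z1,z0,z0,z2],z2),([z0,z0,z0,z3,z0,z0],z2)],[([z1,z0,z0,z0,z0,y4],y2),([z0,z3,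
    z0,z0,z0,z12],z10),([z0,z0,z1,z0,z0,z2],z2),([z0,z0,z0,z3,z0,z3],z4)],[([z1,z0,z0,z0,z0,y4],y2),([z0,z1,z0,z0,z2,
    z0],z2),([z0,z0,z1,z0,z0,z2],z2)],[([z1,z0,z0,z0,z0,y13],y8),([z0,z1,z0,z0,z0,z2],z2),([z0,z0,z1,z0,z0,z8],z6),
    ([z0,z0,z0,z1,z0,z8],z6)],[([z1,z0,z0,z0,z0,y4],y2),([z0,z1,z0,z0,z0,y4],y2),([z0,z0,z1,z0,z0,z8],z6),([z0,z0,z0,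
    z1,z0,z2],z2)],[([z1,z0,z0,z0,z0,y10],y6),([z0,z1,z0,z0,z0,z2],z2),([z0,z0,z1,z0,z0,z8],z6),([z0,z0,z0,z1,z0,z5],
    z4)],[([z3,z0,z0,z0,z0,y15],y8),([z0,z1,z0,z0,z0,z2],z2),([z0,z0,z1,z0,z0,z8],z6),([z0,z0,z0,z3,z0,z0],z2)],[([z1,
    z0,z0,z0,z0,y16],y10),([z0,z1,z0,z0,z0,y4],y2),([z0,z0,z1,z0,z0,z11],z8),([z0,z0,z0,z1,z0,z2],z2)],[([z1,z0,z0,z0,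
    z0,y4],y2),([z0,z1,z0,z0,z0,y1],z0),([z0,z0,z1,z0,z0,y4],y2),([z0,z0,z0,z1,z0,z2],z2)]],
    [[([z1,z0,z0,z0,z0,y4],y2),([z0,z1,z0,z0,z1,y5],y2),([z0,z0,z1,z0,z0,z8],z6)],[([z1,z0,z0,z0,y2,y2],y2),([z0,z1,
    z0,z0,y2,y2],y2),([z0,z0,z1,z0,z4,z4],z6)],[([z1,z0,z0,z0,z0,y4],y2),([z0,z1,z0,z1,z1,z3],z4)],[([z3,z0,z0,z0,z0,
    y6],y2),([z0,z1,z0,z0,z0,z2],z2),([z0,z0,z1,z0,z0,y1],z0),([z0,z0,z0,z1,z0,z2],z2)],[([z2,z0,z0,z0,z0,z1],z2),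
    ([z0,z1,z0,z0,z0,y1],z0),([z0,z0,z1,z0,z1,z1],z2)],[([z2,z0,z0,z0,z0,z1],z2),([z0,z1,z0,z0,z1,z1],z2),([z0,z0,z1,
    z0,z0,y1],z0)],[([z1,z0,z0,z0,y1,z0],z0),([z0,z1,z0,z0,y1,z0],z0),([z0,z0,z1,z0,z2,z0],z2)],[([z1,z0,z0,z0,z0,y1],
    z0),([z0,z2,z0,z0,z0,z1],z2),([z0,z0,z2,z0,z0,z1],z2),([z0,z0,z0,z1,z0,y1],z0)],[([z2,z0,z0,z0,z0,y5],y2),([z0,z2,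
    z0,z0,z0,z1],z2),([z0,z0,z1,z0,z0,y1],z0),([z0,z0,z0,z1,z0,z2],z2)],[([z3,z0,z0,z0,z0,y6],y2),([z0,z3,z0,z0,z0,
    z0],z2),([z0,z0,z3,z0,z0,z3],z4),([z0,z0,z0,z3,z0,y6],y2)],[([z2,z0,z0,z0,z0,z1],z2),([z0,z4,z0,z0,z0,y1],z2),
    ([z0,z0,z4,z0,z4,z1],z6)],[([z1,z0,z0,z0,z0,y1],z0),([z0,z1,z0,z0,z0,z2],z2),([z0,z0,z1,z0,z0,y1],z0)]],
    [[([z1,z0,z0,y1,z0,z0],z0),([z0,z1,z0,z0,z1,z1],z2)],[([z3,z0,z0,z0,z0,y6],y2),([z0,z3,z0,z0,z0,z0],z2),([z0,z0,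
    z3,z0,z0,z0],z2),([z0,z0,z0,z1,z0,z2],z2)],[([z1,z0,z0,z0,z0,y4],y2),([z0,z1,z0,z0,z0,z2],z2),([z0,z0,z1,z0,z0,
    y4],y2),([z0,z0,z0,z1,z0,z2],z2)],[([z1,z0,z0,z0,z0,y7],y4),([z0,z1,z0,z0,z0,z2],z2),([z0,z0,z1,z0,z0,z8],z6),
    ([z0,z0,z0,z1,z0,y4],y2)],[([z1,z0,z0,z0,z0,y10],y6),([z0,z1,z0,z0,z0,y4],y2),([z0,z0,z1,z0,z0,z2],z2),([z0,z0,z0,
    z1,z0,z8],z6)],[([z3,z0,z0,z0,z0,z0],z2),([z0,z2,z0,z0,z0,z1],z2),([z0,z0,z6,z0,z0,y3],z2),([z0,z0,z0,z3,z0,z3],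
    z4)],[([z1,z0,z0,z0,z0,y4],y2),([z0,z1,z0,z0,z0,z2],z2),([z0,z0,z1,z0,z0,z5],z4),([z0,z0,z0,z2,z0,y5],y2)],[([z3,
    z0,z0,z0,y6,z0],y2),([z0,z3,z0,z0,z12,z0],z10),([z0,z0,z1,z0,z2,z0],z2),([z0,z0,z0,z3,y9,z0],y4)],[([z1,z0,z0,z0,
    y2,z1],z0),([z0,z1,z0,z0,z4,y2],z2),([z0,z0,z1,z0,z2,z0],z2)],[([z3,z0,z0,z0,z0,y6],y2),([z0,z3,z0,z0,z0,z0],z2),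
    ([z0,z0,z3,z0,z0,z3],z4),([z0,z0,z0,z1,z0,z2],z2)],[([z1,z0,z0,z0,z0,y4],y2),([z0,z2,z0,z0,z0,z1],z2),([z0,z0,z1,
    z0,z0,y1],z0),([z0,z0,z0,z1,z0,z2],z2)],[([z1,z0,z0,z0,z0,y4],y2),([z0,z1,z0,z0,z0,z2],z2),([z0,z0,z1,z0,z0,z5],
    z4),([z0,z0,z0,z1,z0,z2],z2)]],
    [[([z3,z0,z0,z0,y6,z0],y2),([z0,z3,z0,z0,z0,z0],z2),([z0,z0,z1,z0,z2,z0],z2),([z0,z0,z0,z3,z3,z0],z4)],[([z2,z0,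
    z0,z0,z0,y5],y2),([z0,z2,z0,z0,z0,z1],z2),([z0,z0,z4,z0,z0,y1],z2),([z0,z0,z0,z4,z0,z5],z6)],[([z3,z0,z0,z0,y6,
    z0],y2),([z0,z3,z0,z0,y9,z0],y4),([z0,z0,z1,z0,z2,z0],z2),([z0,z0,z0,z3,z12,z0],z10)],[([z1,z0,z0,z0,y2,z1],z0),
    ([z0,z1,z0,z0,y3,z2],z0),([z0,z0,z1,z0,z2,z0],z2)],[([z1,z0,z0,z0,y2,z1],z0),([z0,z1,z0,z0,z0,y1],z0),([z0,z0,z1,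
    z0,z2,z0],z2)],[([z3,z0,z0,z0,z0,y6],y2),([z0,z3,z0,z0,z0,z0],z2),([z0,z0,z3,z0,z0,z9],z8),([z0,z0,z0,z1,z0,z2],
    z2)],[([z3,z0,z0,z0,y6,z0],y2),([z0,z3,z0,z0,z3,z0],z4),([z0,z0,z1,z0,z2,z0],z2),([z0,z0,z0,z3,z0,z0],z2)],[([z3,
    z0,z0,z0,z0,y6],y2),([z0,z3,z0,z0,z0,z0],z2),([z0,z0,z3,z0,z0,z9],z8),([z0,z0,z0,z1,z0,y1],z0)],[([z1,z0,z0,z0,y2,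
    z1],z0),([z0,z1,z0,z0,z1,z1],z2),([z0,z0,z1,z0,z2,z0],z2)],[([z1,z0,z0,z0,z0,y7],y4),([z0,z1,z0,z0,z0,z5],z4),
    ([z0,z0,z1,z0,z0,z5],z4),([z0,z0,z0,z1,z0,z2],z2)],[([z4,z0,z0,z0,z0,y7],y2),([z0,z2,z0,z0,z0,z1],z2),([z0,z0,z4,
    z0,z0,y1],z2),([z0,z0,z0,z4,z0,z5],z6)],[([z3,z0,z0,z0,y6,z0],y2),([z0,z3,z0,z0,y6,z0],y2),([z0,z0,z1,z0,z2,z0],
    z2),([z0,z0,z0,z3,z9,z0],z8)]],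
    [[([z1,z0,z0,z0,y2,z1],z0),([z0,z1,z0,z0,y2,z1],z0),([z0,z0,z1,z0,z2,z0],z2)],[([z3,z0,z0,z0,y6,z0],y2),([z0,z1,
    z0,z0,y1,z0],z0),([z0,z0,z1,z0,z2,z0],z2),([z0,z0,z0,z1,z2,z0],z2)],[([z1,z0,z0,z0,y2,z1],z0),([z0,z1,z0,z0,y1,
    z0],z0),([z0,z0,z1,z0,z2,z0],z2)],[([z1,z0,z0,z0,y2,z1],z0),([z0,z1,z0,z1,z1,z0],z2)],[([z1,z0,z0,z0,z0,y1],z0),
    ([z0,z1,z0,z0,z0,z2],z2)],[([z1,z0,z0,z0,z0,y4],y2),([z0,z2,z0,z0,z0,z1],z2),([z0,z0,z1,z0,z0,z2],z2),([z0,z0,z0,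
    z2,z0,y5],y2)],[([z1,z0,z0,z0,z0,y4],y2),([z0,z2,z0,z0,z0,z1],z2),([z0,z0,z2,z0,z0,y11],y6),([z0,z0,z0,z1,z0,z2],
    z2)],[([z1,z0,z0,z0,z0,y4],y2),([z0,z2,z0,z0,z0,z1],z2),([z0,z0,z1,z0,z0,z2],z2),([z0,z0,z0,z1,z0,y4],y2)],[([z12,
    z0,z0,z0,y15,z0],y2),([z0,z2,z0,z0,z1,z0],z2),([z0,z0,z1,z0,z2,z0],z2),([z0,z0,z0,z4,y1,z0],z2)],[([z4,z0,z0,z0,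
    y5,z4],z2),([z0,z2,z0,z0,z1,z0],z2),([z0,z0,z1,z0,z2,z0],z2)],[([z1,z0,z0,z0,y2,z1],z0),([z0,z1,z0,z0,z2,z0],z2),
    ([z0,z0,z2,z0,z1,z0],z2)],[([z1,z0,z0,z0,z0,y4],y2),([z0,z1,z0,z0,z0,y1],z0),([z0,z0,z1,z0,z0,y1],z0),([z0,z0,z0,
    z1,z0,z2],z2)]],
    [[([z1,z0,z0,z0,z0,y4],y2),([z0,z1,z0,z0,z0,z5],z4),([z0,z0,z1,z0,z0,y1],z0),([z0,z0,z0,z1,z0,z2],z2)],[([z1,z0,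
    z0,z0,z0,y4],y2),([z0,z1,z0,z0,z0,z2],z2),([z0,z0,z1,z0,z0,y1],z0),([z0,z0,z0,z1,z0,z8],z6)],[([z1,z0,z0,z0,y4,
    z0],y2),([z0,z1,z0,z0,y1,z0],z0),([z0,z0,z3,z0,z12,z0],z10),([z0,z0,z0,z1,z2,z0],z2)],[([z1,z0,z0,z0,y4,z0],y2),
    ([z0,z1,z0,z0,y1,z0],z0),([z0,z0,z1,z0,z4,z1],z4)],[([z2,z0,z0,z0,y5,z0],y2),([z0,z1,z0,z0,z2,z0],z2),([z0,z0,z2,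
    z0,z1,z0],z2)],[([z1,z0,z0,z0,z0,y4],y2),([z0,z1,z0,z0,z0,y1],z0),([z0,z0,z1,z0,z1,z4],z4)],[([z1,z0,z0,z0,z0,y4],
    y2),([z0,z1,z0,z0,z0,z5],z4),([z0,z0,z1,z0,z0,y4],y2),([z0,z0,z0,z1,z0,z2],z2)],[([z1,z0,z0,z0,z0,y4],y2),([z0,z3,
    z0,z0,z0,z0],z2),([z0,z0,z3,z0,z0,z3],z4),([z0,z0,z0,z1,z0,z2],z2)],[([z1,z0,z0,z0,y2,y2],y2),([z0,z1,z0,z0,y2,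
    y2],y2),([z0,z0,z1,z0,z1,z1],z2)],[([z1,z0,z0,z0,y1,z0],z0),([z0,z3,z0,z0,z0,z0],z2),([z0,z0,z3,z0,z0,z0],z2),
    ([z0,z0,z0,z1,z2,z0],z2)],[([z1,z0,z0,y1,z0,z0],z0),([z0,z3,z0,z0,z0,z0],z2),([z0,z0,z1,z2,z0,z0],z2),([z0,z0,z0,
    z0,z3,z0],z2)],[([z3,z0,z0,z0,z0,z0],z2),([z0,z3,z0,z0,z0,z0],z2),([z0,z0,z1,z0,z1,z1],z2)]],
    [[([z1,z0,z0,z0,y2,y2],y2),([z0,z2,z0,z0,y1,y1],z0),([z0,z0,z2,z0,z5,z5],z8)],[([z1,z0,z0,z0,z0,y7],y4),([z0,z1,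
    z0,z0,z0,y4],y2),([z0,z0,z1,z0,z0,z2],z2),([z0,z0,z0,z1,z0,z2],z2)],[([z1,z0,z0,z0,z0,y4],y2),([z0,z3,z0,z0,z0,
    z0],z2),([z0,z0,z3,z0,z0,z9],z8),([z0,z0,z0,z1,z0,z2],z2)],[([z1,z0,z0,z0,z0,y7],y4),([z0,z2,z0,z0,z0,z1],z2),
    ([z0,z0,z1,z0,z0,z2],z2),([z0,z0,z0,z2,z0,z7],z6)],[([z1,z0,z0,z0,z0,y4],y2),([z0,z2,z0,z0,z1,z0],z2),([z0,z0,z2,
    z0,z1,z6],z6)],[([z1,z0,z0,z0,z0,y4],y2),([z0,z3,z0,z0,z0,y6],y2),([z0,z0,z3,z0,z0,z12],z10),([z0,z0,z0,z1,z0,z2],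
    z2)],[([z1,z0,z0,z0,z0,y10],y6),([z0,z1,z0,z0,z0,z8],z6),([z0,z0,z1,z0,z0,z2],z2),([z0,z0,z0,z1,z0,z5],z4)],[([z2,
    z0,z0,z0,z0,y11],y6),([z0,z1,z0,z0,z0,z8],z6),([z0,z0,z1,z0,z0,z2],z2),([z0,z0,z0,z2,z0,z1],z2)],[([z1,z0,z0,z0,
    z0,y4],y2),([z0,z1,z0,z0,z0,y7],y4),([z0,z0,z1,z0,z0,z2],z2),([z0,z0,z0,z1,z0,z8],z6)],[([z1,z0,z0,z0,z0,y4],y2),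
    ([z0,z3,z0,z0,z0,z12],z10),([z0,z0,z3,z0,z0,z3],z4),([z0,z0,z0,z1,z0,z2],z2)],[([z1,z0,z0,z0,y3,z2],z0),([z0,z1,
    z0,z0,z2,z0],z2),([z0,z0,z2,z0,z1,z0],z2)],[([z1,z0,z0,z0,z0,y4],y2),([z0,z1,z1,z0,z1,z3],z4)]],
    [[([z3,z0,z0,z0,z0,y6],y2),([z0,z3,z0,z0,z0,y6],y2),([z0,z0,z1,z0,z0,z2],z2),([z0,z0,z0,z1,z0,z2],z2)],[([z1,z0,
    z0,z0,z0,y4],y2),([z0,z1,z0,z0,z0,z2],z2),([z0,z0,z1,z0,z0,y13],y8),([z0,z0,z0,z1,z0,z8],z6)],[([z1,z0,z0,z0,z0,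
    y7],y4),([z0,z2,z0,z0,z0,z1],z2),([z0,z0,z1,z0,z0,z2],z2),([z0,z0,z0,z1,z0,z2],z2)],[([z2,z0,z0,y2,z0,y3],y2),
    ([z0,z2,z0,z0,z0,z1],z2),([z0,z0,z1,z2,z0,z3],z4)],[([z3,z0,z0,z0,z0,z0],z2),([z0,z2,z0,z0,z0,z1],z2),([z0,z0,z3,
    z0,z0,z0],z2),([z0,z0,z0,z1,z0,y1],z0)],[([z3,z0,z0,z0,z0,y6],y2),([z0,z1,z0,z0,z0,z2],z2),([z0,z0,z3,z0,z0,y6],
    y2),([z0,z0,z0,z1,z0,z2],z2)],[([z1,z0,z0,z0,y1,z0],z0),([z0,z3,z0,z0,z0,z0],z2),([z0,z0,z1,z0,z2,z0],z2),([z0,z0,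
    z0,z3,z0,z0],z2)],[([z1,z0,z0,z0,z0,y4],y2),([z0,z1,z0,z0,z0,z2],z2),([z0,z0,z1,z0,z0,z8],z6),([z0,z0,z0,z1,z0,
    y13],y8)],[([z1,z0,z0,z0,y1,z0],z0),([z0,z6,z0,z0,y9,z0],y2),([z0,z0,z2,z0,z1,z0],z2),([z0,z0,z0,z3,z9,z0],z8)],
    [([z2,z0,z0,z0,y2,y3],y2),([z0,z2,z0,z0,z0,z1],z2),([z0,z0,z1,z0,z2,z3],z4)],[([z1,z0,z0,z0,z0,y1],z0),([z0,z1,z0,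
    z0,z0,z2],z2),([z0,z0,z1,z1,z0,y2],z0)],[([z1,z0,z0,z0,z0,y10],y6),([z0,z1,z0,z0,z0,z8],z6),([z0,z0,z1,z0,z0,y4],
    y2),([z0,z0,z0,z1,z0,z2],z2)]],
    [[([z3,z0,z0,z0,z0,z0],z2),([z0,z2,z0,z0,z0,z1],z2),([z0,z0,z3,z0,z0,z0],z2),([z0,z0,z0,z6,z0,y3],z2)],[([z1,z0,
    z0,z0,z0,y10],y6),([z0,z1,z0,z0,z0,y4],y2),([z0,z0,z1,z0,z0,z8],z6),([z0,z0,z0,z1,z0,z2],z2)],[([z1,z0,z0,z0,y2,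
    z1],z0),([z0,z2,z0,z0,z2,y1],z2),([z0,z0,z1,z0,z2,z0],z2)],[([z1,z0,z0,z0,y1,z0],z0),([z0,z2,z0,z0,z0,z1],z2),
    ([z0,z0,z1,z0,z2,z0],z2)],[([z1,z0,z0,z0,z0,y1],z0),([z0,z1,z0,z0,z0,z2],z2),([z0,z0,z1,z0,z0,y1],z0),([z0,z0,z0,
    z1,z0,y1],z0)],[([z1,z0,z0,z0,z0,y4],y2),([z0,z1,z0,z0,z0,z2],z2),([z0,z0,z1,z0,z0,y1],z0),([z0,z0,z0,z1,z0,y4],
    y2)],[([z1,z0,z0,y1,z0,z0],z0),([z0,z2,z0,z0,z0,z1],z2),([z0,z0,z1,z2,z0,z0],z2)],[([z1,z0,z0,z0,z0,y4],y2),([z0,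
    z1,z0,z0,z0,z2],z2),([z0,z0,z1,z0,z0,z2],z2),([z0,z0,z0,z1,z0,y4],y2)],[([z1,z0,z0,z0,z0,y7],y4),([z0,z1,z0,z0,z0,
    z2],z2),([z0,z0,z2,z0,z0,z1],z2),([z0,z0,z0,z1,z0,z2],z2)],[([z1,z0,z0,z0,z0,y4],y2),([z0,z1,z0,z0,z0,y4],y2),
    ([z0,z0,z1,z0,z0,z2],z2),([z0,z0,z0,z1,z0,z8],z6)],[([z1,z0,z0,z0,z0,y4],y2),([z0,z3,z0,z0,z0,y9],y4),([z0,z0,z1,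
    z0,z0,z2],z2),([z0,z0,z0,z3,z0,z18],z14)],[([z4,z0,z0,y4,z0,y3],y2),([z0,z2,z0,z0,z0,z1],z2),([z0,z0,z2,z4,z0,z3],
    z6)]],
    [[([z3,z0,z0,z0,z0,y6],y2),([z0,z1,z0,z0,z0,z2],z2),([z0,z0,z3,z0,z0,y9],y4),([z0,z0,z0,z3,z0,z0],z2)],[([z1,z0,
    z0,z0,z0,y10],y6),([z0,z1,z0,z0,z0,z2],z2),([z0,z0,z1,z0,z0,z5],z4),([z0,z0,z0,z1,z0,y4],y2)],[([z2,z0,z0,z0,y4,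
    y1],y2),([z0,z1,z0,z0,z1,z1],z2),([z0,z0,z1,z0,z2,z0],z2)],[([z2,z0,z0,z0,z0,y5],y2),([z0,z2,z0,z0,z0,z1],z2),
    ([z0,z0,z4,z0,z0,y1],z2),([z0,z0,z0,z1,z0,z2],z2)],[([z3,z0,z0,z0,z0,z0],z2),([z0,z2,z0,z0,z0,z1],z2),([z0,z0,z6,
    z0,z0,y9],y2),([z0,z0,z0,z1,z0,z2],z2)],[([z1,z0,z0,z0,z0,y16],y10),([z0,z1,z0,z0,z0,z11],z8),([z0,z0,z1,z0,z0,
    y4],y2),([z0,z0,z0,z1,z0,z2],z2)],[([z3,z0,z0,z0,z0,y6],y2),([z0,z1,z0,z0,z0,z2],z2),([z0,z0,z3,z0,z0,z3],z4),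
    ([z0,z0,z0,z1,z0,y4],y2)],[([z1,z0,z0,z0,y4,z0],y2),([z0,z1,z0,z0,y3,y1],y2),([z0,z0,z1,z0,z2,z0],z2)],[([z2,z0,
    z0,z0,z1,z0],z2),([z0,z1,z0,z0,z0,z2],z2),([z0,z0,z2,z0,y1,y4],y2)],[([z2,z0,z0,y2,y2,y1],y2),([z0,z2,z0,z0,z0,
    z1],z2)],[([z1,z0,z0,z0,z0,y1],z0),([z0,z2,z0,z0,z1,z0],z2),([z0,z0,z2,z0,z1,z0],z2)],[([z2,z0,z0,z0,y3,z1],z0),
    ([z0,z2,z0,z0,y1,y1],z0),([z0,z0,z1,z0,z2,z0],z2)]],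
    [[([z1,z0,z0,z0,z0,y10],y6),([z0,z1,z0,z0,z0,z5],z4),([z0,z0,z1,z0,z0,y4],y2),([z0,z0,z0,z1,z0,z2],z2)],[([z1,z0,
    z0,z0,z0,y10],y6),([z0,z1,z0,z0,z0,z2],z2),([z0,z0,z1,z0,z0,z5],z4),([z0,z0,z0,z1,z0,z8],z6)],[([z1,z0,z0,z0,y2,
    y2],y2),([z0,z1,z0,z0,z0,z2],z2),([z0,z0,z1,z0,z1,z1],z2)],[([z1,z0,z0,z0,y1,z0],z0),([z0,z1,z0,z0,z0,y1],z0),
    ([z0,z0,z1,z0,z2,z0],z2)],[([z1,z0,z0,z0,y4,z0],y2),([z0,z3,z0,z0,z0,z0],z2),([z0,z0,z1,z0,z2,z0],z2),([z0,z0,z0,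
    z3,z9,z0],z8)],[([z6,z0,z0,z0,y9,z0],y2),([z0,z1,z0,z0,z2,z0],z2),([z0,z0,z2,z0,z1,z0],z2),([z0,z0,z0,z3,z0,z0],
    z2)],[([z3,z0,z0,z0,y3,y3],y2),([z0,z3,z0,z0,z0,z0],z2),([z0,z0,z3,z0,z6,z6],z10)],[([z1,z0,z0,z0,z0,y7],y4),([z0,
    z1,z0,z0,z0,z8],z6),([z0,z0,z1,z0,z0,z2],z2),([z0,z0,z0,z1,z0,z2],z2)],[([z1,z0,z0,z0,z0,y4],y2),([z0,z2,z0,z0,z0,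
    z1],z2),([z0,z0,z2,z0,z0,y5],y2),([z0,z0,z0,z1,z0,z2],z2)],[([z2,z0,z0,z0,y3,y2],y2),([z0,z1,z0,z0,z2,z0],z2),
    ([z0,z0,z2,z0,z1,z0],z2)],[([z2,z0,z0,z0,z1,z0],z2),([z0,z2,z2,z0,z1,z1],z4)],[([z1,z0,z0,z0,z0,y16],y10),([z0,z1,
    z0,z0,z0,z2],z2),([z0,z0,z1,z0,z0,z11],z8),([z0,z0,z0,z1,z0,y4],y2)]],
    [[([z4,z0,z0,z0,z0,y7],y2),([z0,z1,z0,z0,z0,z2],z2),([z0,z0,z4,z0,z0,y1],z2),([z0,z0,z0,z2,z0,z1],z2)],[([z3,z0,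
    z0,z0,z0,y9],y4),([z0,z1,z0,z0,z0,y4],y2),([z0,z0,z3,z0,z0,z0],z2),([z0,z0,z0,z1,z0,z2],z2)],[([z3,z0,z0,z0,z0,
    y6],y2),([z0,z1,z0,z0,z0,y4],y2),([z0,z0,z3,z0,z0,z3],z4),([z0,z0,z0,z1,z0,z2],z2)],[([z1,z0,z0,z0,z0,y7],y4),
    ([z0,z1,z0,z0,z0,y4],y2),([z0,z0,z1,z0,z0,y4],y2),([z0,z0,z0,z1,z0,z2],z2)],[([z1,z0,z0,z0,z0,y10],y6),([z0,z1,z0,
    z0,z0,z2],z2),([z0,z0,z1,z0,z0,z8],z6),([z0,z0,z0,z1,z0,y4],y2)],[([z3,z0,z0,z0,z0,y6],y2),([z0,z1,z0,z0,z0,z2],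
    z2),([z0,z0,z6,z0,z0,y3],z2),([z0,z0,z0,z2,z0,z1],z2)],[([z1,z0,z0,z0,y4,z0],y2),([z0,z1,z0,z0,z3,y1],z2),([z0,z0,
    z1,z0,z2,z0],z2)],[([z1,z0,z0,z0,z0,y10],y6),([z0,z1,z0,z0,z0,z2],z2),([z0,z0,z1,z0,z0,y4],y2),([z0,z0,z0,z1,z0,
    z8],z6)],[([z3,z0,z0,y6,z0,z0],y2),([z0,z1,z0,z2,z0,z0],z2),([z0,z0,z3,z3,z0,z0],z4),([z0,z0,z0,z0,z3,z0],z2)],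
    [([z1,z0,z0,z0,z0,y10],y6),([z0,z1,z0,z0,z0,z5],z4),([z0,z0,z1,z0,z0,z8],z6),([z0,z0,z0,z1,z0,z2],z2)],[([z2,z0,
    z0,z0,z0,y5],y2),([z0,z2,z0,z0,z0,z1],z2),([z0,z0,z1,z0,z0,y4],y2),([z0,z0,z0,z1,z0,z2],z2)],[([z1,z0,z0,y2,z0,
    y2],y2),([z0,z1,z0,z2,z0,z0],z2),([z0,z0,z1,z1,z0,z1],z2)]],
    [[([z1,z0,z0,y2,z0,z1],z0),([z0,z1,z0,z2,z0,z0],z2),([z0,z0,z2,z2,z0,y1],z2)],[([z6,z0,z0,z0,y9,z0],y2),([z0,z3,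
    z0,z0,z3,z0],z4),([z0,z0,z1,z0,z2,z0],z2),([z0,z0,z0,z6,y3,z0],z2)],[([z3,z0,z0,z0,z0,y9],y4),([z0,z3,z0,z0,z0,
    z0],z2),([z0,z0,z3,z0,z0,z12],z10),([z0,z0,z0,z1,z0,z2],z2)],[([z1,z0,z0,z0,z0,y10],y6),([z0,z1,z0,z0,z0,y4],y2),
    ([z0,z0,z1,z0,z0,z5],z4),([z0,z0,z0,z1,z0,z2],z2)],[([z1,z0,z0,z0,y2,z1],z0),([z0,z1,z0,z0,z1,y2],z0),([z0,z0,z1,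
    z0,z2,z0],z2)],[([z3,z0,z0,z0,z0,y6],y2),([z0,z3,z0,z0,z0,y9],y4),([z0,z0,z3,z0,z0,z0],z2),([z0,z0,z0,z1,z0,z2],
    z2)],[([z3,z0,z0,z0,y9,z0],y4),([z0,z3,z0,z0,z12,z0],z10),([z0,z0,z1,z0,z2,z0],z2),([z0,z0,z0,z3,y6,z0],y2)],
    [([z1,z0,z0,z0,y3,z2],z0),([z0,z1,z0,z0,z4,y2],z2),([z0,z0,z1,z0,z2,z0],z2)],[([z1,z0,z0,z0,z0,y4],y2),([z0,z1,z0,
    z0,z0,z2],z2),([z0,z0,z2,z0,z0,z1],z2),([z0,z0,z0,z2,z0,z1],z2)],[([z1,z0,z0,y1,z0,z0],z0),([z0,z1,z0,z0,z0,z2],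
    z2),([z0,z0,z1,z2,z0,z0],z2)],[([z1,z0,z0,z0,y1,z0],z0),([z0,z3,z0,z0,z0,z0],z2),([z0,z0,z2,z0,z1,z0],z2),([z0,z0,
    z0,z6,z9,z0],z10)],[([z1,z0,z0,z0,z0,y4],y2),([z0,z1,z0,z0,z0,y13],y8),([z0,z0,z1,z0,z0,z8],z6),([z0,z0,z0,z1,z0,
    z2],z2)]],
    [[([z1,z0,z0,z0,y1,y3],y2),([z0,z1,z0,z0,z0,z2],z2),([z0,z0,z1,z0,z2,z0],z2)],[([z1,z0,z0,z0,z0,y1],z0),([z0,z2,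
    z0,z0,z0,z1],z2),([z0,z0,z2,z2,z0,y1],z2)],[([z1,z0,z0,y2,z2,z2],z2),([z0,z1,z0,z2,z0,z0],z2)],[([z2,z0,z0,z0,z1,
    z0],z2)],[([z2,z0,z0,y2,z0,z3],z2),([z0,z2,z0,z2,z0,y1],z2),([z0,z0,z2,z2,z0,y1],z2)],[([z1,z0,z0,z0,z0,y1],z0),
    ([z0,z1,z0,z0,z0,y1],z0),([z0,z0,z1,z0,z0,z2],z2),([z0,z0,z0,z1,z0,y4],y2)],[([z1,z0,z0,z0,z0,y7],y4),([z0,z1,z0,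
    z0,z0,z5],z4),([z0,z0,z1,z0,z0,y4],y2),([z0,z0,z0,z1,z0,z2],z2)],[([z3,z0,z0,z0,z0,y6],y2),([z0,z1,z0,z0,z0,z5],
    z4),([z0,z0,z1,z0,z0,y4],y2),([z0,z0,z0,z1,z0,z2],z2)],[([z1,z0,z0,z0,z0,y10],y6),([z0,z1,z0,z0,z0,z8],z6),([z0,
    z0,z1,z0,z0,y4],y2),([z0,z0,z0,z1,z0,z5],z4)],[([z3,z0,z0,z0,z0,y6],y2),([z0,z1,z0,z0,z0,z2],z2),([z0,z0,z1,z0,z0,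
    y4],y2),([z0,z0,z0,z1,z0,z5],z4)],[([z1,z0,z0,z0,z0,y4],y2),([z0,z1,z0,z0,z0,z8],z6),([z0,z0,z1,z0,z0,y10],y6),
    ([z0,z0,z0,z1,z0,z5],z4)],[([z1,z0,z0,z0,z0,y10],y6),([z0,z1,z0,z0,z0,z2],z2),([z0,z0,z1,z0,z0,y4],y2),([z0,z0,z0,
    z1,z0,z5],z4)]],
    [[([z2,z0,z0,z0,z0,z1],z2),([z0,z2,z0,z2,z0,y1],z2),([z0,z0,z4,z0,z0,y1],z2)],[([z1,z0,z0,z0,z0,y1],z0),([z0,z3,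
    z0,z0,z0,z0],z2),([z0,z0,z3,z0,z0,z9],z8),([z0,z0,z0,z3,z0,y6],y2)],[([z3,z0,z0,z0,z0,z0],z2),([z0,z3,z0,z0,z0,
    z0],z2),([z0,z0,z3,z0,z0,z3],z4),([z0,z0,z0,z3,z0,y6],y2)],[([z1,z0,z0,z0,z0,y1],z0),([z0,z3,z0,z0,z0,z0],z2),
    ([z0,z0,z3,z0,z0,z0],z2),([z0,z0,z0,z3,z0,z3],z4)],[([z6,z0,z0,z0,y9,z0],y2),([z0,z3,z0,z0,z3,z0],z4),([z0,z0,z3,
    z0,z3,z0],z4),([z0,z0,z0,z2,z1,z0],z2)],[([z2,z0,z0,z0,y3,y2],y2),([z0,z1,z0,z0,z1,z1],z2),([z0,z0,z1,z0,z1,z1],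
    z2)],[([z3,z0,z0,z0,z0,z0],z2),([z0,z3,z0,z0,z0,z0],z2),([z0,z0,z3,z0,z3,z0],z4)],[([z1,z0,z0,z0,y1,z0],z0),([z0,
    z1,z0,z0,z1,z1],z2),([z0,z0,z1,z0,y1,z0],z0)],[([z1,z0,z0,y1,z0,z0],z0),([z0,z1,z0,z1,z0,y2],z0),([z0,z0,z1,z1,z0,
    z1],z2)],[([z1,z0,z0,z0,z0,y4],y2),([z0,z1,z0,z0,z0,y10],y6),([z0,z0,z1,z0,z0,z5],z4),([z0,z0,z0,z1,z0,z8],z6)],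
    [([z1,z0,z0,z0,z0,y4],y2),([z0,z3,z0,z0,z0,z0],z2),([z0,z0,z1,z0,z0,z5],z4),([z0,z0,z0,z3,z0,y6],y2)],[([z1,z0,z0,
    z0,z0,y4],y2),([z0,z1,z0,z0,z0,z5],z4),([z0,z0,z1,z0,z0,z5],z4),([z0,z0,z0,z1,z0,y7],y4)]],
    [[([z2,z0,z0,z0,y5,z0],y2),([z0,z1,z0,z0,z1,z1],z2),([z0,z0,z1,z0,z2,z0],z2)],[([z2,z0,z0,z0,z0,z1],z2),([z0,z2,
    z0,z2,z0,y1],z2)],[([z1,z0,z0,z0,y1,z0],z0),([z0,z1,z0,z0,z1,z1],z2)],[([z1,z0,z0,z0,y1,z0],z0),([z0,z1,z0,z0,z0,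
    y1],z0),([z0,z0,z1,z0,z1,z1],z2)],[([z1,z0,z0,z0,y1,z0],z0),([z0,z2,z0,z0,z1,z0],z2),([z0,z0,z1,z0,z1,z1],z2)],
    [([z3,z0,z0,z0,z0,z0],z2),([z0,z3,z0,z0,z3,z0],z4),([z0,z0,z3,z0,z0,z0],z2)],[([z1,z0,z0,z0,y1,z0],z0),([z0,z1,z0,
    z1,z1,z0],z2)],[([z1,z0,z0,y1,z1,y1],z0),([z0,z1,z0,z1,z0,z1],z2)],[([z1,z0,z0,y1,z0,z0],z0),([z0,z1,z0,z1,z1,z0],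
    z2)],[([z1,z0,z0,z0,y1,z0],z0),([z0,z6,z0,z0,y3,z0],z2),([z0,z0,z2,z0,z1,z0],z2),([z0,z0,z0,z1,z2,z0],z2)],[([z1,
    z0,z0,z0,y1,z0],z0),([z0,z2,z0,z0,y1,z2],z2),([z0,z0,z2,z0,z1,z0],z2)],[([z1,z0,z0,z0,y2,z1],z0),([z0,z1,z0,z0,z2,
    z0],z2),([z0,z0,z1,z0,y1,z0],z0)]],
    [[([z1,z0,z0,z0,y1,z0],z0),([z0,z1,z0,z0,z2,z0],z2)],[([z1,z0,z0,z0,z0,y1],z0),([z0,z1,z0,z0,z1,z1],z2),([z0,z0,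
    z1,z0,z1,z1],z2)],[([z1,z0,z0,z0,z0,y1],z0),([z0,z1,z0,z0,z1,z1],z2)],[([z1,z0,z0,y1,y1,z1],z0),([z0,z1,z0,z1,z1,
    z0],z2)],[([z1,z0,z0,z0,y1,z0],z0),([z0,z1,z0,z0,y1,z0],z0),([z0,z0,z3,z0,z3,z0],z4),([z0,z0,z0,z1,z2,z0],z2)],
    [([z1,z0,z0,z0,z0,y1],z0),([z0,z3,z0,z0,z0,z0],z2),([z0,z0,z1,z0,z0,z2],z2),([z0,z0,z0,z1,z0,y1],z0)],[([z3,z0,z0,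
    z0,y3,y3],y2),([z0,z1,z0,z0,z1,z1],z2),([z0,z0,z1,z0,z1,z1],z2)],[([z3,z0,z0,z0,z0,z0],z2),([z0,z3,z0,z0,z0,z0],
    z2),([z0,z0,z3,z0,z0,z3],z4),([z0,z0,z0,z1,z0,y1],z0)],[([z3,z0,z0,z0,z0,z0],z2),([z0,z3,z0,z0,z0,z0],z2),([z0,z0,
    z3,z0,z0,z3],z4),([z0,z0,z0,z6,z0,y3],z2)],[([z3,z0,z0,z0,z0,z0],z2),([z0,z3,z0,z0,z0,z0],z2),([z0,z0,z3,z0,z0,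
    z3],z4)],[([z3,z0,z0,z0,z0,y6],y2),([z0,z1,z0,z0,z0,z2],z2),([z0,z0,z3,z0,z0,y6],y2),([z0,z0,z0,z3,z0,z9],z8)],
    [([z1,z0,z0,z0,y1,z0],z0),([z0,z1,z0,z0,z2,z0],z2),([z0,z0,z3,z0,y6,z0],y2),([z0,z0,z0,z1,z2,z0],z2)]],
    [[([z3,z0,z0,z0,z0,z0],z2),([z0,z1,z0,z0,z1,z1],z2),([z0,z0,z1,z0,y1,z0],z0)],[([z1,z0,z0,y1,z0,z0],z0),([z0,z3,
    z0,z3,z0,z0],z4),([z0,z0,z1,z1,z0,z1],z2)],[([z3,z0,z0,y3,z0,y3],y2),([z0,z1,z0,z1,z0,z1],z2),([z0,z0,z1,z1,z0,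
    z1],z2)],[([z3,z0,z0,z0,z0,z0],z2),([z0,z3,z0,z0,z0,z0],z2),([z0,z0,z3,z3,z0,z0],z4)],[([z1,z0,z0,z0,z0,y1],z0),
    ([z0,z3,z0,z0,z0,z3],z4),([z0,z0,z1,z0,z0,y1],z0),([z0,z0,z0,z3,z0,z0],z2)],[([z3,z0,z0,y6,z0,z0],y2),([z0,z3,z0,
    z6,z3,z0],z8),([z0,z0,z3,z3,z0,z0],z4)],[([z3,z0,z0,z0,z0,z0],z2),([z0,z1,z0,z0,z1,z1],z2),([z0,z0,z3,z0,y3,y3],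
    y2)],[([z3,z0,z0,z0,z0,z0],z2),([z0,z1,z0,z0,z1,z1],z2)],[([z8,z0,z0,z0,z0,z1],z6),([z0,z4,z0,z0,z0,y1],z2),([z0,
    z0,z4,z0,z0,z5],z6),([z0,z0,z0,z8,z0,y5],z2)],[([z2,z0,z0,z0,z0,z1],z2),([z0,z1,z0,z0,z0,y1],z0),([z0,z0,z1,z0,z0,
    z2],z2),([z0,z0,z0,z2,z0,y5],y2)],[([z5,z0,z0,z0,z0,z1],z4),([z0,z5,z0,z0,z0,y2],z2),([z0,z0,z5,z0,z0,z7],z8),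
    ([z0,z0,z0,z1,z0,y1],z0)],[([z1,z0,z0,z0,z0,y7],y4),([z0,z1,z0,z0,z0,y4],y2),([z0,z0,z1,z0,z0,z5],z4),([z0,z0,z0,
    z1,z0,z5],z4)]],
    [[([z1,z0,z0,z0,z0,y10],y6),([z0,z1,z0,z0,z0,z8],z6),([z0,z0,z1,z0,z0,z5],z4),([z0,z0,z0,z1,z0,z2],z2)],[([z1,z0,
    z0,z0,y4,z0],y2),([z0,z1,z0,z0,z5,z0],z4),([z0,z0,z3,z0,y6,z0],y2),([z0,z0,z0,z1,z2,z0],z2)],[([z1,z0,z0,z0,y4,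
    z0],y2),([z0,z1,z0,z0,z5,z0],z4),([z0,z0,z1,z0,y2,z1],z0)],[([z1,z0,z0,z0,z0,y10],y6),([z0,z1,z0,z0,z0,z8],z6),
    ([z0,z0,z1,z0,z0,z5],z4),([z0,z0,z0,z1,z0,y4],y2)],[([z1,z0,z0,z0,z0,y4],y2),([z0,z1,z0,z0,z0,z5],z4),([z0,z0,z1,
    z0,z0,y1],z0),([z0,z0,z0,z1,z0,y1],z0)],[([z1,z0,z0,z0,z0,y7],y4),([z0,z1,z0,z0,z0,z5],z4),([z0,z0,z1,z0,z0,y4],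
    y2),([z0,z0,z0,z1,z0,z5],z4)],[([z3,z0,z0,z0,z0,y6],y2),([z0,z6,z0,z0,z0,z15],z14),([z0,z0,z3,z0,z0,z0],z2),([z0,
    z0,z0,z6,z0,y3],z2)],[([z1,z0,z0,z0,z0,y4],y2),([z0,z1,z0,z0,z0,z2],z2),([z0,z0,z1,z0,z0,z5],z4),([z0,z0,z0,z1,z0,
    y10],y6)],[([z1,z0,z0,z0,z0,y10],y6),([z0,z1,z0,z0,z0,z5],z4),([z0,z0,z1,z0,z0,y4],y2),([z0,z0,z0,z1,z0,z8],z6)],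
    [([z2,z0,z0,z0,z0,y5],y2),([z0,z1,z0,z0,z0,z2],z2),([z0,z0,z1,z0,z0,z2],z2),([z0,z0,z0,z1,z0,y1],z0)],[([z2,z0,z0,
    z0,z0,z1],z2),([z0,z1,z0,z0,z1,z1],z2),([z0,z0,z2,z0,z0,y5],y2)],[([z1,z0,z0,y2,z0,y2],y2),([z0,z1,z0,z1,z0,z1],
    z2),([z0,z0,z1,z2,z0,z3],z4)]],
    [[([z1,z0,z0,z0,y1,z0],z0),([z0,z1,z0,z0,z1,z1],z2),([z0,z0,z1,z0,y2,y2],y2)],[([z1,z0,z0,y2,y2,z0],y2),([z0,z1,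
    z0,z1,z1,z0],z2)],[([z1,z0,z0,z1,z0,z1],z2)],[([z1,z0,z0,z0,z1,z1],z2)],[([z1,z0,z1,z0,z1,z0],z2)],[([z1,z0,z0,z0,
    y4,z0],y2),([z0,z1,z0,z0,z2,z0],z2),([z0,z0,z1,z0,z2,z0],z2)],[([z1,z0,z0,z0,z0,y1],z0),([z0,z2,z0,z2,z2,z3],z6)],
    [([z3,z0,z0,z0,z0,z0],z2),([z0,z3,z0,z0,z3,z0],z4),([z0,z0,z3,z0,z0,z3],z4)],[([z1,z0,z0,z0,z0,y1],z0),([z0,z2,z0,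
    z0,z1,z0],z2),([z0,z0,z1,z0,z1,z1],z2)],[([z1,z0,z0,z0,y2,y2],y2),([z0,z1,z0,z0,z3,z2],z4),([z0,z0,z1,z0,y1,z0],
    z0)],[([z3,z0,z0,z0,z0,y6],y2),([z0,z1,z0,z0,z0,z2],z2),([z0,z0,z3,z0,z0,y9],y4),([z0,z0,z0,z3,z0,z12],z10)],
    [([z3,z0,z0,z0,y6,z0],y2),([z0,z2,z0,z0,z1,z0],z2),([z0,z0,z3,z0,z3,z0],z4),([z0,z0,z0,z6,z9,z0],z10)]],
    [[([z1,z0,z0,z0,y2,y2],y2),([z0,z2,z0,z0,z1,z0],z2),([z0,z0,z1,z0,z1,z1],z2)],[([z1,z0,z0,z0,y3,y1],y2),([z0,z1,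
    z0,z0,z2,z0],z2),([z0,z0,z1,z0,z1,z1],z2)],[([z1,z0,z0,z0,y2,y2],y2),([z0,z1,z0,z0,z0,y1],z0),([z0,z0,z1,z0,z2,
    z3],z4)],[([z2,z0,z0,z1,z0,z0],z2),([z0,z2,z0,y1,z2,z0],z2)],[([z1,z0,z0,z0,z1,z1],z2),([z0,z1,z0,z1,z0,y2],z0)],
    [([z1,z0,z0,z0,z1,y2],z0),([z0,z1,z0,z1,z0,z1],z2)],[([z3,z0,z0,z0,z0,z0],z2),([z0,z3,z0,z0,z0,z3],z4),([z0,z0,z3,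
    z0,z3,z0],z4)],[([z3,z0,z0,z0,z0,z0],z2),([z0,z3,z3,z0,z0,z0],z4),([z0,z0,z0,z3,z0,z0],z2)],[([z3,z0,z0,z0,z0,z0],
    z2),([z0,z3,z3,z0,z3,z3],z8)],[([z1,z0,z0,z0,y2,y2],y2),([z0,z1,z1,z0,z2,z2],z4)],[([z1,z0,z0,z0,y2,y2],y2),([z0,
    z2,z0,z0,z1,z0],z2),([z0,z0,z2,z0,z3,z4],z6)],[([z1,z0,z0,z0,z0,y4],y2),([z0,z1,z0,z0,z0,z2],z2),([z0,z0,z1,z0,z0,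
    y4],y2),([z0,z0,z0,z1,z0,z8],z6)]],
    [[([z1,z0,z0,z0,y1,z0],z0),([z0,z2,z0,z0,z0,z1],z2),([z0,z0,z2,z0,z0,z1],z2)],[([z1,z0,z0,z0,z1,y2],z0),([z0,z2,
    z0,z0,z1,z0],z2),([z0,z0,z1,z0,z0,z2],z2)],[([z3,z0,z0,z0,z0,y6],y2),([z0,z3,z0,z0,z0,z0],z2),([z0,z0,z1,z0,z0,
    z2],z2),([z0,z0,z0,z3,z0,z3],z4)],[([z3,z0,z0,z0,y6,z0],y2),([z0,z1,z0,z0,z2,z0],z2),([z0,z0,z3,z0,z0,z0],z2),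
    ([z0,z0,z0,z3,z3,z0],z4)],[([z3,z0,z0,z0,z0,z0],z2),([z0,z2,z0,z0,z1,z0],z2),([z0,z0,z6,z0,z3,z6],z10)],[([z1,z0,
    z0,z0,y2,y2],y2),([z0,z1,z0,z0,z2,z0],z2),([z0,z0,z1,z0,z0,z2],z2)],[([z1,z0,z0,z0,z0,y16],y10),([z0,z1,z0,z0,z0,
    z11],z8),([z0,z0,z1,z0,z0,z2],z2),([z0,z0,z0,z1,z0,z8],z6)],[([z1,z0,z0,z0,z0,y4],y2),([z0,z3,z0,z0,z0,y6],y2),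
    ([z0,z0,z1,z0,z0,z2],z2),([z0,z0,z0,z3,z0,z3],z4)],[([z3,z0,z0,z0,y9,z0],y4),([z0,z2,z0,z0,z1,z0],z2),([z0,z0,z1,
    z0,z2,z0],z2),([z0,z0,z0,z6,z9,z0],z10)],[([z1,z0,z0,z0,y3,z2],z0),([z0,z2,z0,z0,z1,z0],z2),([z0,z0,z1,z0,z2,z0],
    z2)],[([z2,z0,z0,z1,z0,z0],z2),([z0,z1,z0,z0,z2,z0],z2)],[([z2,z0,z0,z1,z0,z0],z2)]],
    [[]]]

end Pool.Agent.Lib_MP_fa6e45
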