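import Pool.Agent.Lib_MP_fa6e45.CG6_2d

/-!
MP_fa6e45_co, stage 5: certificates (captain, generated by a program).
-/

namespace Pool.Agent.Lib_MP_fa6e45

noncomputable def cT6_3_n0_0 : List TN :=
  [.leafM k0 [k0,k1,k2,k3,k4,k5] [(z1,[y1,z1])] [],
    .leafM k1 [k0,k1,k2,k3,k4,k5] [(z1,[y1,z1]),(z1,[z1])] [],
    .leafM k0 [k2,k3,k4,k5,k0,k1] [(z1,[y1,y1,z1])] [],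
    .leafM k1 [k0,k1,k2,k3,k4,k5] [(z1,[z0,z1]),(z1,[z0,y1,z1])] [],
    .leafM k0 [k2,k3,k4,k5,k0,k1] [(z2,[y1,y1,z2])] [],
    .leafM k1 [k0,k1,k2,k3,k4,k5] [(z2,[y1,z0,y1,z2]),(z2,[z1,z0,z1])] [],
    .leafM k0 [k2,k3,k4,k5,k0,k1] [(z1,[y1,y1,y1,z1])] [],
    .leafM k0 [k2,k3,k4,k5,k0,k1] [(z3,[y1,y1,y1,z3])] [],
    .leafM k1 [k0,k1,k2,k3,k4,k5] [(z1,[z0,z1,z0,z1]),(z1,[z0,y1,z0,y1,z1])] [],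
    .leafM k0 [k0,k1,k2,k3,k4,k5] [(z3,[z0,z1,z1,z1])] [],
    .tor k0 false k2 [(z1,[z1,z1,z0,z1]),(z1,[z0,z1,z1]),(z1,[z0,y1,y1,z0,z1]),(z1,[y1,y1,z0,y1,z1])],
    .tor k7 false k3 [(z1,[z0,z2,z1]),(z2,[y1,y2,y2,y1,z2]),(z2,[z1,z0,z2,z1]),(z1,[z0,y1,y1,z0,z1])]]

noncomputable def cT6_3_n0_1 : List TN :=
  [.leafM k0 [k0,k1,k2,k3,k4,k5] [(z3,[z0,z1,z1,z1])] [],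
    .lp [(nat_lit 320),(nat_lit 348),(nat_lit 328),(nat_lit 300),(nat_lit 292),(nat_lit 330)] [k14,k14,k0,k0,k10,k10,k24,
    k24,k28,k28,k9,k9] k0 [[k0,k0,k0,k0,k0,k0,k0,k0,k28],[k0,k0,k0,k0,k0,k12],[k0,k0,k0,k0,k4,k0,k0,k0,k0,k0,k10],[],
    [k12,k0,k0,k0,k0,k0,k70],[k0,k0,k0,k4,k0,k0,k0,k0,k0,k2],[],[k0,k0,k0,k0,k0,k70,k0,k0,k0,k0,k0,k38],[k0,k0,k0,k0,
    k2],[k0,k28],[k0,k0,k0,k0,k0,k0,k38],[k0,k0,k0,k10]] (nat_lit 960) k5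
    [[(k8,(nat_lit 306)),(k0,(nat_lit 320)),(k2,(nat_lit 324)),(k4,(nat_lit 324)),(k10,(nat_lit 325)),(k6,
    (nat_lit 348))],[(k11,(nat_lit 297)),(k9,(nat_lit 306)),(k1,(nat_lit 320)),(k7,(nat_lit 322)),(k5,(nat_lit 324)),
    (k3,(nat_lit 334))],[(k6,(nat_lit 324)),(k4,(nat_lit 326)),(k0,(nat_lit 334)),(k10,(nat_lit 339)),(k2,
    (nat_lit 348)),(k8,(nat_lit 348))],[(k7,(nat_lit 320)),(k9,(nat_lit 320)),(k1,(nat_lit 324)),(k5,(nat_lit 338)),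
    (k11,(nat_lit 339)),(k3,(nat_lit 348))],[(k8,(nat_lit 310)),(k6,(nat_lit 314)),(k0,(nat_lit 324)),(k4,
    (nat_lit 332)),(k2,(nat_lit 338)),(k10,(nat_lit 339))],[(k9,(nat_lit 240)),(k7,(nat_lit 314)),(k1,(nat_lit 324)),
    (k3,(nat_lit 326)),(k11,(nat_lit 331)),(k5,(nat_lit 332))],[(k8,(nat_lit 294)),(k4,(nat_lit 314)),(k10,
    (nat_lit 315)),(k2,(nat_lit 320)),(k0,(nat_lit 322)),(k6,(nat_lit 370))],[(k9,(nat_lit 296)),(k5,(nat_lit 314)),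
    (k11,(nat_lit 315)),(k3,(nat_lit 324)),(k1,(nat_lit 348)),(k7,(nat_lit 370))],[(k4,(nat_lit 240)),(k10,
    (nat_lit 273)),(k8,(nat_lit 292)),(k6,(nat_lit 296)),(k0,(nat_lit 306)),(k2,(nat_lit 320))],[(k9,(nat_lit 292)),
    (k7,(nat_lit 294)),(k1,(nat_lit 306)),(k5,(nat_lit 310)),(k11,(nat_lit 311)),(k3,(nat_lit 348))],[(k0,
    (nat_lit 297)),(k8,(nat_lit 311)),(k6,(nat_lit 315)),(k10,(nat_lit 330)),(k4,(nat_lit 331)),(k2,(nat_lit 339))],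
    [(k9,(nat_lit 273)),(k7,(nat_lit 315)),(k1,(nat_lit 325)),(k11,(nat_lit 330)),(k3,(nat_lit 339)),(k5,
    (nat_lit 339))]]
    [] k0
    [[k2,k0,k0,k0,k1,k0],[k2,k0,k0,k0,k0,k1],[k1,k0,k1,k0,k1,k0],[k1,k0,k0,k1,k1,k0],[k1,k0,k0,k0,k2,k0],[k1,k0,k0,k0,
    k1,k1],[k1,k0,k0,k0,k0,k2],[k0,k1,k1,k0,k1,k0],[k0,k1,k0,k1,k1,k0],[k0,k0,k2,k0,k1,k0],[k0,k0,k1,k1,k1,k0],[k0,k0,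
    k1,k0,k2,k0],[k0,k0,k1,k0,k1,k1],[k0,k0,k0,k1,k2,k0],[k0,k0,k0,k1,k1,k1],[k0,k0,k0,k0,k3,k0],[k0,k0,k0,k0,k2,k1],
    [k0,k0,k0,k0,k1,k2]]
    [.ref k12 k0 [(z3,[z4,z5,z4,z4,z4,y4]),(z3,[y2,z2,z7,y2,y2,z2]),(z3,[z4,y4,z4,z13,z4,y4]),(z3,[y8,z8,y8,y8,z1,
    z8]),(z3,[z1,y10,y8,y8,y8,z8])],.ref k12 k0 [(z3,[z4,z1]),(z3,[y2,z4,z9]),(z3,[z4,y8,z0,z9]),(z3,[y8,z16,z0,z0,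
    z9]),(z3,[z1,y11,y9,y9,y9,z9])],.ref k12 k0 [(z3,[z4,z9,z4,z0,z4,y4]),(z3,[y2,z0,z7,z0,y2,z2]),(z3,[z4,z0,z4,z9,
    z4,y4]),(z3,[y8,z0,y8,z0,z1,z8]),(z3,[z1,y9,y8,y9,y8,z8])],.ref k12 k0 [(z1,[y4,z3,y4,y4,z0,z4]),(z1,[z2,z0,z5,z2,
    z0,y2]),(z1,[y4,z0,y4,y1,z0,z4]),(z1,[z8,z0,z8,z8,z3,y8]),(z1,[y1,y3,y4,y4,y3,z4])],.ref k12 k0 [(z1,[z2,z5,z4,z4,
    z4,y4]),(z1,[y1,y1,z1,y2,y2,z2]),(z1,[z2,z2,z4,z7,z4,y4]),(z1,[y4,y4,y8,y8,y5,z8]),(z2,[z1,y5,y4,y4,y4,z4])],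
    .ref k12 k0 [(z1,[z2,z3,z2,z2,z2,y2]),(z1,[y1,z0,z2,y1,y1,z1]),(z1,[z2,z0,z2,z5,z2,y2]),(z1,[y4,z0,y4,y4,y1,z4]),
    (z2,[z1,y6,y5,y5,y5,z5])],.ref k12 k0 [(z1,[z2,z1]),(z1,[y1,z1,z3]),(z1,[z2,y2,z0,z3]),(z1,[y4,z4,z0,z0,z3]),(z2,
    [z1,y7,y6,y6,y6,z6])],.ref k12 k0 [(z1,[z4,z7,z0,z0,z4,y4]),(z1,[y2,y2,z3,z0,y2,z2]),(z1,[z4,z4,z0,z3,z4,y4]),(z1,
    [y8,y8,z0,z0,y5,z8]),(z1,[z1,y2,y3,y3,y2,z2])],.ref k12 k0 [(z3,[y4,z5,z0,y4,z0,z4]),(z3,[z2,z2,z9,z2,z0,y2]),(z3,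
    [y4,y4,z0,z5,z0,z4]),(z3,[z8,z8,z0,z8,z9,y8]),(z3,[y1,y10,y9,y10,y9,z10])],.ref k12 k0 [(z3,[z4,z13,z4,y4,z4,y4]),
    (z3,[y2,y2,z7,z2,y2,z2]),(z3,[z4,z4,z4,z5,z4,y4]),(z3,[y8,y8,y8,z8,z1,z8]),(z3,[z1,y8,y8,y10,y8,z8])],
    .ref k12 k0 [(z1,[y4,y1,y4,z0,z0,z4]),(z1,[z2,z2,z5,z0,z0,y2]),(z1,[y4,y4,y4,z3,z0,z4]),(z1,[z8,z8,z8,z0,z3,y8]),
    (z1,[y1,y4,y4,y3,y3,z4])],.ref k12 k0 [(z1,[z2,z7,z4,z2,z4,y4]),(z1,[y1,y2,z1,y1,y2,z2]),(z1,[z2,z4,z4,z5,z4,y4]),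
    (z1,[y4,y8,y8,y4,y5,z8]),(z2,[z1,y4,y4,y5,y4,z4])],.ref k12 k0 [(z1,[z2,z5,z2,z0,z2,y2]),(z1,[y1,y1,z2,z0,y1,z1]),
    (z1,[z2,z2,z2,z3,z2,y2]),(z1,[y4,y4,y4,z0,y1,z4]),(z2,[z1,y5,y5,y6,y5,z5])],.ref k12 k0 [(z1,[y2,y1,y4,y4,y2,z4]),
    (z1,[z1,z2,z5,z2,z1,y2]),(z1,[y2,y4,y4,y1,y2,z4]),(z1,[z4,z8,z8,z8,z7,y8]),(z2,[y1,y8,y8,y8,y7,z8])],
    .ref k12 k0 [(z1,[y2,z1,y2,y2,z0,z2]),(z1,[z1,z1,z4,z1,z0,y1]),(z1,[y2,y2,y2,z1,z0,z2]),(z1,[z4,z4,z4,z4,z3,y4]),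
    (z2,[y1,y7,y7,y7,y6,z7])],.ref k12 k0 [(z1,[z4,z15,z12,z12,z12,y12]),(z1,[y2,y6,y3,y6,y6,z6]),(z1,[z4,z12,z12,z15,
    z12,y12]),(z1,[y8,y24,y24,y24,y21,z24]),(z1,[z1])],.ref k12 k0 [(z1,[z4,z11,z8,z8,z8,y8]),(z1,[y2,y4,y1,y4,y4,
    z4]),(z1,[z4,z8,z8,z11,z8,y8]),(z1,[y8,y16,y16,y16,y13,z16]),(z1,[z1,y1,y1,y1,y1,z1])],.ref k12 k0 [(z1,[z4,z7,z4,
    z4,z4,y4]),(z1,[y2,y2,z1,y2,y2,z2]),(z1,[z4,z4,z4,z7,z4,y4]),(z1,[y8,y8,y8,y8,y5,z8]),(z1,[z1,y2,y2,y2,y2,z2])]],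
    .leafM k0 [k2,k3,k4,k5,k0,k1] [(z2,[y1,y2,y1,z0,z2])] [],
    .lp [k168,k170,k154,k164,k140,k162] [k1,k1,k0,k0,k8,k8,k3,k3,k15,k15,k4,k4] k0 [[k0,k0,k0,k0,k0,k0,k0,k0,k4,k0,k8],
    [k0,k0,k0,k0,k0,k0,k0,k8],[k0,k0,k0,k0,k8,k0,k0,k0,k0,k0,k10],[k0,k0,k0,k0,k0,k0,k0,k0,k0,k4],[k0,k0,k0,k0,k0,k0,
    k12],[k0,k0,k0,k8],[k8],[k0,k0,k0,k0,k0,k12],[k0,k0,k4],[k0,k4,k0,k0,k0,k0,k0,k0,k0,k0,k0,k8],[k0,k0,k0,k0,k0,k0,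
    k0,k0,k8],[k0,k8,k0,k10]] (nat_lit 480) k5
    [[(k2,k159),(k0,k160),(k4,k161),(k8,k162),(k10,k165),(k6,k166)],[(k1,k160),(k5,k161),(k11,k161),(k9,k162),(k7,
    k166),(k3,k169)],[(k6,k159),(k8,k159),(k4,k162),(k0,k169),(k2,k170),(k10,k174)],[(k9,k155),(k1,k159),(k7,k159),
    (k5,k162),(k3,k170),(k11,k170)],[(k8,k143),(k6,k159),(k0,k161),(k2,k162),(k4,k162),(k10,k168)],[(k9,k135),(k11,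
    k158),(k7,k159),(k1,k161),(k3,k162),(k5,k162)],[(k8,k152),(k2,k159),(k4,k159),(k10,k163),(k0,k166),(k6,k176)],
    [(k9,k152),(k3,k159),(k5,k159),(k11,k163),(k1,k166),(k7,k176)],[(k4,k135),(k8,k140),(k10,k151),(k6,k152),(k2,
    k155),(k0,k162)],[(k9,k140),(k5,k143),(k11,k151),(k7,k152),(k3,k159),(k1,k162)],[(k8,k151),(k10,k154),(k4,k158),
    (k0,k161),(k6,k163),(k2,k170)],[(k9,k151),(k11,k154),(k7,k163),(k1,k165),(k5,k168),(k3,k174)]]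
    [] k0
    [[k1,k0,k1,k0,k1,k0],[k1,k0,k0,k0,k2,k0],[k1,k0,k0,k0,k1,k1],[k0,k1,k1,k0,k1,k0],[k0,k1,k0,k1,k1,k0],[k0,k1,k0,k0,
    k2,k0],[k0,k0,k2,k0,k1,k0],[k0,k0,k1,k1,k1,k0],[k0,k0,k1,k0,k2,k0],[k0,k0,k1,k0,k1,k1],[k0,k0,k0,k1,k2,k0],[k0,k0,
    k0,k1,k1,k1],[k0,k0,k0,k0,k3,k0],[k0,k0,k0,k0,k2,k1],[k0,k0,k0,k0,k1,k2],[k0,k0,k0,k0,k0,k3]]
    [.ref k12 k0 [(z14,[z7,z6,z1,z0,z1,y7]),(z28,[y7,z0,z11,z0,y1,z7]),(z14,[z7,z0,z1,z6,z1,y7]),(z7,[y7,z0,y1,z0,z2,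
    z7]),(z7,[z14,y3,y1,y3,y1,z7])],.ref k12 k0 [(z21,[z7,z10,z2,z2,z2,y14]),(z42,[y7,y1,z16,y2,y2,z14]),(z21,[z7,z1,
    z2,z11,z2,y14]),(z21,[y14,y2,y4,y4,z5,z28]),(z21,[z28,y5,y1,y1,y1,z7])],.ref k12 k0 [(z7,[z14,z3,z2,z2,z2,y14]),
    (z7,[y7,z0,z2,y1,y1,z7]),(z7,[z14,z0,z2,z5,z2,y14]),(z7,[y28,z0,y4,y4,y1,z28]),(z7,[z56,y3,z5,z5,z5,y35])],
    .ref k12 k0 [(z21,[z14,z11,z0,z0,z2,y14]),(z21,[y7,y1,z9,z0,y1,z7]),(z21,[z14,z2,z0,z9,z2,y14]),(z21,[y28,y4,z0,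
    z0,z5,z28]),(z21,[z56,y1,y9,y9,y1,z7])],.ref k12 k0 [(z7,[z14,z5,z0,z2,z0,y14]),(z7,[y7,y1,z3,y1,z0,z7]),(z7,[z14,
    z2,z0,z5,z0,y14]),(z7,[y28,y4,z0,y4,z3,z28]),(z7,[z56,z5,y3,z5,y3,y35])],.ref k12 k0 [(z35,[z14,z19,z2,z4,z4,
    y28]),(z35,[y7,y2,z14,y2,y2,z14]),(z35,[z14,z4,z2,z19,z4,y28]),(z35,[y28,y8,y4,y8,z7,z56]),(z35,[z56,z1,y7,z1,z1,
    y7])],.ref k12 k0 [(z14,[z7,z7,z1,y1,z1,y7]),(z28,[y7,y1,z11,z1,y1,z7]),(z14,[z7,z1,z1,z5,z1,y7]),(z7,[y7,y1,y1,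
    z1,z2,z7]),(z7,[z14,y1,y1,y5,y1,z7])],.ref k12 k0 [(z7,[z7,z4,z1,z0,z0,y7]),(z14,[y7,y1,z5,z0,z0,z7]),(z7,[z7,z1,
    z1,z3,z0,y7]),(z7,[y14,y2,y2,z0,z3,z14]),(z7,[z28,z1,z1,y3,y3,y7])],.ref k12 k0 [(z21,[z7,z11,z2,z1,z2,y14]),(z42,
    [y7,y2,z16,y1,y2,z14]),(z21,[z7,z2,z2,z10,z2,y14]),(z21,[y14,y4,y4,y2,z5,z28]),(z21,[z28,y1,y1,y5,y1,z7])],
    .ref k12 k0 [(z7,[z14,z5,z2,z0,z2,y14]),(z7,[y7,y1,z2,z0,y1,z7]),(z7,[z14,z2,z2,z3,z2,y14]),(z7,[y28,y4,y4,z0,y1,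
    z28]),(z7,[z56,z5,z5,y3,z5,y35])],.ref k12 k0 [(z14,[z7,z8,z2,z2,z1,y14]),(z28,[y7,y2,z10,y2,y1,z14]),(z14,[z7,z2,
    z2,z8,z1,y14]),(z7,[y7,y2,y2,y2,z2,z14]),(z7,[z14,z1,z1,z1,y1,y7])],.ref k12 k0 [(z7,[y14,z1,y2,y2,z0,z14]),(z7,
    [z7,z1,z4,z1,z0,y7]),(z7,[y14,y2,y2,z1,z0,z14]),(z7,[z28,z4,z4,z4,z3,y28]),(z7,[y56,y11,y11,y11,y3,z77])],
    .ref k12 k0 [(z28,[z7,z15,z3,z3,z3,y21]),(z56,[y7,y3,z21,y3,y3,z21]),(z28,[z7,z3,z3,z15,z3,y21]),(z14,[y7,y3,y3,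
    y3,z3,z21]),(z1,[z1])],.ref k12 k0 [(z21,[z14,z13,z4,z4,z4,y28]),(z21,[y7,y2,z7,y2,y2,z14]),(z21,[z14,z4,z4,z13,
    z4,y28]),(z21,[y28,y8,y8,y8,z1,z56]),(z3,[z8,z1,z1,z1,z1,y7])],.ref k12 k0 [(z7,[y7,z2,y1,y1,y1,z7]),(z14,[z7,z1,
    z7,z1,z1,y7]),(z7,[y7,y1,y1,z2,y1,z7]),(z7,[z14,z2,z2,z2,z5,y14]),(z1,[y4,y1,y1,y1,y1,z7])],.ref k12 k0 [(z7,[y2,
    z3]),(z7,[z1,z0,z3]),(z7,[y2,z0,z0,z3]),(z7,[z4,z0,z0,z0,z3]),(z7,[y8,y3,y3,y3,y3,z21])]],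
    .lp [(nat_lit 204),(nat_lit 206),(nat_lit 212),(nat_lit 204),k194,(nat_lit 202)] [k4,k4,k3,k3,k0,k0,k4,k4,k9,k9,k5,
    k5] k0 [[k0,k0,k0,k0,k0,k0,k20,k0,k50],[k0,k0,k0,k12],[k12,k0,k0,k0,k0,k0,k0,k0,k0,k0,k22],[k0,k0,k0,k0,k0,k0,k0,
    k10],[k0,k0,k0,k0,k0,k0,k16],[k0,k0,k0,k0,k0,k0,k0,k0,k0,k6,k0,k2],[k0,k0,k10,k0,k0,k0,k0,k0,k28],[k0,k20,k0,k0,
    k0,k16],[k0,k0,k0,k0,k6,k0,k0,k0,k0,k0,k2],[k0,k50,k0,k0,k0,k0,k0,k28],[k0,k0,k0,k0,k2],[k0,k0,k0,k22,k0,k0,k0,k0,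
    k0,k2]] (nat_lit 612) k5
    [[(k2,k183),(k8,k197),(k10,(nat_lit 203)),(k0,(nat_lit 204)),(k6,(nat_lit 204)),(k4,(nat_lit 210))],[(k11,k153),
    (k9,k179),(k1,(nat_lit 204)),(k7,(nat_lit 204)),(k3,(nat_lit 205)),(k5,(nat_lit 220))],[(k2,k194),(k10,
    (nat_lit 204)),(k0,(nat_lit 205)),(k4,(nat_lit 209)),(k6,(nat_lit 225)),(k8,(nat_lit 250))],[(k1,k183),(k3,k194),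
    (k11,(nat_lit 204)),(k7,(nat_lit 205)),(k5,(nat_lit 209)),(k9,(nat_lit 210))],[(k6,k198),(k8,(nat_lit 203)),(k2,
    (nat_lit 209)),(k4,(nat_lit 212)),(k0,(nat_lit 220)),(k10,(nat_lit 229))],[(k9,k187),(k7,(nat_lit 208)),(k3,
    (nat_lit 209)),(k1,(nat_lit 210)),(k5,(nat_lit 212)),(k11,(nat_lit 213))],[(k8,k193),(k10,(nat_lit 201)),(k0,
    (nat_lit 204)),(k2,(nat_lit 205)),(k4,(nat_lit 208)),(k6,(nat_lit 220))],[(k11,k175),(k5,k198),(k9,k199),(k1,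
    (nat_lit 204)),(k7,(nat_lit 220)),(k3,(nat_lit 225))],[(k0,k179),(k4,k187),(k10,k198),(k6,k199),(k2,
    (nat_lit 210)),(k8,(nat_lit 222))],[(k7,k193),(k1,k197),(k11,k198),(k5,(nat_lit 203)),(k9,(nat_lit 222)),(k3,
    (nat_lit 250))],[(k0,k153),(k6,k175),(k8,k198),(k2,(nat_lit 204)),(k10,(nat_lit 204)),(k4,(nat_lit 213))],[(k9,
    k198),(k7,(nat_lit 201)),(k1,(nat_lit 203)),(k3,(nat_lit 204)),(k11,(nat_lit 204)),(k5,(nat_lit 229))]]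
    [] k0
    [[k2,k1,k0,k0,k0,k0],[k2,k0,k0,k0,k1,k0],[k2,k0,k0,k0,k0,k1],[k1,k2,k0,k0,k0,k0],[k1,k1,k0,k0,k0,k1],[k1,k0,k1,k0,
    k1,k0],[k1,k0,k1,k0,k0,k1],[k1,k0,k0,k1,k1,k0],[k1,k0,k0,k1,k0,k1],[k1,k0,k0,k0,k2,k0],[k1,k0,k0,k0,k1,k1],[k1,k0,
    k0,k0,k0,k2],[k0,k3,k0,k0,k0,k0],[k0,k2,k0,k0,k0,k1],[k0,k1,k0,k1,k0,k1],[k0,k0,k2,k0,k1,k0],[k0,k0,k1,k1,k1,k0],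
    [k0,k0,k0,k2,k0,k1],[k0,k0,k0,k1,k1,k1],[k0,k0,k0,k1,k0,k2],[k0,k0,k0,k0,k1,k2]]
    [.ref k12 k0 [(z3,[z8,y7,y4]),(z3,[y7,z14,z8]),(z3,[y4,z8,z2,z9]),(z3,[z2,y4,y1,z0,z9]),(z3,[y1,y7,y4,y9,y9,z9])],
    .ref k12 k0 [(z5,[z8,z7,z4,z8,z8,y8]),(z5,[y7,z7,z4,y7,y7,z7]),(z5,[y4,z4,y2,z11,y4,z4]),(z5,[z2,y2,z1,z2,z17,
    y2]),(z5,[y1,y14,y8,y16,y16,z16])],.ref k12 k0 [(z3,[z4,z1]),(z6,[y7,z14,z9]),(z3,[y2,z4,z0,z9]),(z3,[z1,y2,z0,z0,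
    z9]),(z6,[y1,y16,y9,y18,y18,z18])],.ref k12 k0 [(z1,[y4,z7,z4]),(z2,[z7,y7,y4]),(z1,[z2,y2,y2,z3]),(z1,[y1,z1,z1,
    z0,z3]),(z2,[z1,y7,y4,y6,y6,z6])],.ref k12 k0 [(z1,[z8,y5,y4]),(z1,[y7,z7,z5]),(z1,[y4,z4,z2,z3]),(z1,[z2,y2,y1,
    z0,z3]),(z1,[y1,y2,y1,y3,y3,z3])],.ref k12 k0 [(z1,[z8,z3,z4,z0,z8,y8]),(z1,[y7,z0,y2,z0,y7,z7]),(z1,[y4,z0,y2,z3,
    y4,z4]),(z1,[z2,z0,z1,z0,z5,y2]),(z1,[y1,y3,y2,y3,y4,z4])],.ref k12 k0 [(z1,[z4,y1,z0,y4]),(z2,[y7,z7,z3,z7]),(z1,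
    [y2,z2,z0,z5]),(z1,[z1,y1,z0,y1,z3]),(z2,[y1,y5,y3,y5,y6,z6])],.ref k12 k0 [(z3,[z8,z9,z4,z8,z0,y8]),(z3,[y7,z0,
    z1,y7,z0,z7]),(z3,[y4,z0,y2,z5,z0,z4]),(z3,[z2,z0,z1,z2,z9,y2]),(z3,[y1,y9,y5,y10,y9,z10])],.ref k12 k0 [(z1,[z2,
    z1,z0,z0,y2]),(z4,[y7,z7,z6,z0,z7]),(z1,[y1,z1,z0,z3,z1]),(z2,[z1,y1,z0,z0,z5]),(z4,[y1,y11,y6,y12,y11,z12])],
    .ref k12 k0 [(z1,[z4,z7,z4,z8,z8,y8]),(z2,[y7,y7,y4,y14,y14,z14]),(z1,[y2,y2,y2,y1,y4,z4]),(z1,[z1,z1,z1,z2,z5,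
    y2]),(z2,[y1,y7,y4,y8,y8,z8])],.ref k12 k0 [(z3,[z8,z9,z4,z8,z8,y8]),(z3,[y7,z0,z1,y7,y7,z7]),(z3,[y4,z0,y2,z5,y4,
    z4]),(z3,[z2,z0,z1,z2,z11,y2]),(z3,[y1,y9,y5,y10,y10,z10])],.ref k12 k0 [(z1,[z2,z1]),(z4,[y7,z7,z6]),(z1,[y1,z1,
    z0,z3]),(z2,[z1,y1,z0,z0,z6]),(z4,[y1,y11,y6,y12,y12,z12])],.ref k12 k0 [(z7,[y8,z21,z12]),(z1,[z1]),(z7,[z4,z0,
    y6,z21]),(z7,[y2,z0,z3,z0,z21]),(z7,[z1,y21,y12,y21,y21,z21])],.ref k12 k0 [(z1,[y2,z3,z2]),(z4,[z7,z0,y1]),(z1,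
    [z1,z0,y1,z3]),(z2,[y1,z0,z1,z0,z6]),(z4,[z1,y12,y7,y12,y12,z12])],.ref k12 k0 [(z1,[y8,z3,z4,z0,z8]),(z1,[z7,z0,
    y2,z0,y7]),(z1,[z4,z0,y2,z3,y4]),(z1,[y2,z0,z1,z0,z5]),(z1,[z1,y3,y2,y3,y4,z3])],.ref k12 k0 [(z3,[y8,z1,y4,z8,y8,
    z8]),(z3,[z7,z7,z8,y7,z7,y7]),(z3,[z4,z4,z2,z5,z4,y4]),(z3,[y2,y2,y1,z2,z7,z2]),(z3,[z1,y8,y4,y10,y8,z8])],
    .ref k12 k0 [(z1,[y8,y5,y4,z0,z0,z8]),(z1,[z7,z7,z5,z0,z0,y7]),(z1,[z4,z4,z2,z3,z0,y4]),(z1,[y2,y2,y1,z0,z3,z2]),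
    (z1,[z1,y2,y1,y3,y3,z2])],.ref k12 k0 [(z1,[z4,z3,z0,z0,y8]),(z2,[y7,z0,z3,z0,z14]),(z1,[y2,z0,z0,z3,z4]),(z1,[z1,
    z0,z0,z0,z1]),(z2,[y1,y6,y3,y6,y4,z6])],.ref k12 k0 [(z1,[z8,z11,z4,z8,z0,y8]),(z1,[y7,y7,y2,y7,z0,z7]),(z1,[y4,
    y4,y2,y1,z0,z4]),(z1,[z2,z2,z1,z2,z3,y2]),(z1,[y1,y4,y2,y4,y3,z4])],.ref k12 k0 [(z1,[z4,z3,z0,z0,y4]),(z2,[y7,z0,
    z3,z0,z7]),(z1,[y2,z0,z0,z3,z2]),(z1,[z1,z0,z0,z0,z2]),(z2,[y1,y6,y3,y6,y5,z6])],.ref k12 k0 [(z1,[z8,z11,z4,z8,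
    z8,y8]),(z1,[y7,y7,y2,y7,y7,z7]),(z1,[y4,y4,y2,y1,y4,z4]),(z1,[z2,z2,z1,z2,z5,y2]),(z1,[y1,y4,y2,y4,y4,z4])]],
    .lp [k160,k162,k166,k152,k162,k156] [k3,k3,k2,k2,k0,k0,k7,k7,k2,k2,k5,k5] k0 [[k0,k0,k0,k0,k0,k0,k4,k0,k4],[k0,k0,k0,
    k0,k0,k4],[k0,k0,k0,k0,k0,k0,k0,k0,k0,k0,k2],[k0,k0,k0,k0,k0,k4],[k4,k0,k4],[k0,k0,k0,k0,k0,k0,k0,k12],[k0,k0,k0,
    k0,k12,k0,k0,k0,k4],[k0,k4,k0,k0,k0,k0,k0,k0,k0,k0,k0,k4],[k0,k0,k0,k0,k0,k0,k0,k0,k0,k0,k20],[k0,k4,k0,k0,k0,k0,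
    k0,k4],[k0,k0,k0,k0,k0,k0,k4],[k0,k0,k0,k2,k0,k0,k0,k0,k0,k20]] (nat_lit 480) k5
    [[(k8,k141),(k10,k158),(k2,k159),(k0,k160),(k6,k160),(k4,k163)],[(k11,k154),(k9,k157),(k1,k160),(k7,k160),(k3,
    k161),(k5,k163)],[(k10,k159),(k4,k160),(k0,k161),(k6,k161),(k2,k162),(k8,k166)],[(k1,k159),(k11,k159),(k7,k161),
    (k3,k162),(k9,k162),(k5,k164)],[(k6,k159),(k4,k162),(k0,k163),(k10,k163),(k2,k164),(k8,k164)],[(k7,k159),(k3,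
    k160),(k11,k161),(k5,k162),(k1,k163),(k9,k176)],[(k6,k140),(k10,k154),(k8,k157),(k4,k159),(k0,k160),(k2,k161)],
    [(k7,k140),(k11,k150),(k9,k157),(k5,k159),(k1,k160),(k3,k161)],[(k10,k155),(k0,k157),(k6,k157),(k2,k162),(k8,
    k166),(k4,k176)],[(k1,k141),(k7,k157),(k11,k159),(k5,k164),(k3,k166),(k9,k166)],[(k6,k150),(k0,k154),(k2,k159),
    (k8,k159),(k4,k161),(k10,k176)],[(k7,k154),(k9,k155),(k1,k158),(k3,k159),(k5,k163),(k11,k176)]]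
    [] k0
    [[k2,k0,k0,k0,k1,k0],[k2,k0,k0,k0,k0,k1],[k1,k1,k0,k0,k0,k1],[k1,k0,k0,k2,k0,k0],[k1,k0,k0,k1,k1,k0],[k1,k0,k0,k1,
    k0,k1],[k1,k1,k0,k0,k1,k0],[k1,k0,k0,k0,k2,k0],[k1,k0,k0,k0,k1,k1],[k0,k1,k0,k2,k0,k0],[k0,k1,k0,k1,k0,k1],[k0,k0,
    k1,k2,k0,k0],[k0,k0,k1,k1,k0,k1],[k0,k0,k0,k3,k0,k0],[k0,k0,k0,k2,k1,k0],[k0,k0,k0,k2,k0,k1],[k0,k0,k0,k1,k1,k1]]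
    [.ref k12 k0 [(z2,[z3,z1,z1,z1,z1,y3]),(z4,[y3,z1,z3,y1,y1,z3]),(z2,[z3,y1,z1,z3,z1,y3]),(z1,[y3,z1,y1,y1,z0,z3]),
    (z1,[z0,y1,y1,y1,y1,z3])],.ref k12 k0 [(z5,[z6,z1]),(z5,[y3,z2,z5]),(z5,[z6,y4,z0,z5]),(z5,[y12,z8,z0,z0,z5]),(z1,
    [z0,y1,y1,y1,y1,z3])],.ref k12 k0 [(z1,[z3,z0,y1]),(z2,[y3,z1,z3]),(z1,[z3,y1,y1,z1]),(z1,[y6,z2,z2,z0,z1]),(z1,
    [z0,y1,y1,y1,y1,z3])],.ref k12 k0 [(z3,[y3,z4,z0,z0,z2]),(z6,[z3,y1,z6,z0,y2]),(z3,[y3,z1,z0,z3,z2]),(z3,[z6,y2,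
    z0,z0,y1]),(z1,[z0,y1,y1,y1,y1,z3])],.ref k12 k0 [(z1,[y3,z1,y1,y1,z0,z3]),(z2,[z3,z0,z3,z1,z0,y3]),(z1,[y3,z0,y1,
    z0,z0,z3]),(z1,[z6,z0,z2,z2,z1,y6]),(z1,[z0,y1,y1,y1,y1,z3])],.ref k12 k0 [(z1,[y6,z3,z0,z0,z2]),(z1,[z3,y1,z1,z0,
    y1]),(z1,[y6,z2,z0,z1,z2]),(z1,[z12,y4,z0,z0,y3]),(z1,[z0,y1,y1,y1,y1,z3])],.ref k12 k0 [(z1,[z6,z1,z0,z2,z2,y6]),
    (z1,[y3,z0,z1,y1,y1,z3]),(z1,[z6,z0,z0,z3,z2,y6]),(z1,[y12,z0,z0,y4,y3,z12]),(z1,[z0,y1,y1,y1,y1,z3])],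
    .ref k12 k0 [(z1,[z3,z2,z2,z2,z2,y6]),(z2,[y3,y1,z0,y2,y2,z6]),(z1,[z3,z1,z2,z3,z2,y6]),(z1,[y6,y2,y4,y4,y3,z12]),
    (z1,[z0,y1,y1,y1,y1,z3])],.ref k12 k0 [(z3,[z6,z3,z2,z2,z2,y6]),(z3,[y3,z0,z2,y1,y1,z3]),(z3,[z6,z0,z2,z5,z2,y6]),
    (z3,[y12,z0,y4,y4,y1,z12]),(z1,[z0,y1,y1,y1,y1,z3])],.ref k12 k0 [(z9,[y6,z9,z2,z0,z4]),(z9,[z3,z0,z8,z0,y2]),(z9,
    [y6,z0,z2,z9,z4]),(z9,[z12,z0,y4,z0,z1]),(z1,[z0,y1,y1,y1,y1,z3])],.ref k12 k0 [(z2,[y3,z2,z1,z0,z1]),(z4,[z3,z0,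
    z3,z0,y1]),(z2,[y3,z0,z1,z2,z1]),(z1,[z3,z0,y1]),(z1,[z0,y1,y1,y1,y1,z3])],.ref k12 k0 [(z3,[y3,z3,z0,z1,z2]),(z6,
    [z3,z0,z6,y1,y2]),(z3,[y3,z0,z0,z4,z2]),(z3,[z6,z0,z0,y2,y1]),(z1,[z0,y1,y1,y1,y1,z3])],.ref k12 k0 [(z1,[y6,z1,
    z0,z2,z2]),(z1,[z3,z0,z1,y1,y1]),(z1,[y6,z0,z0,z3,z2]),(z1,[z12,z0,z0,y4,y3]),(z1,[z0,y1,y1,y1,y1,z3])],
    .ref k12 k0 [(z2,[y1,z2,z0,z0,z1]),(z4,[z1,z0,z4,z0,y1]),(z2,[y1,z0,z0,z2,z1]),(z1,[z1]),(z1,[z0,y1,y1,y1,y1,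
    z3])],.ref k12 k0 [(z4,[y3,z3,y1,y1,z1,z3]),(z8,[z3,z1,z9,z1,y1,y3]),(z4,[y3,y1,y1,z3,z1,z3]),(z2,[z3,z1,z1,z1,z1,
    y3]),(z1,[z0,y1,y1,y1,y1,z3])],.ref k12 k0 [(z7,[y6,z7,z0,z0,z4]),(z7,[z3,z0,z7,z0,y2]),(z7,[y6,z0,z0,z7,z4]),(z7,
    [z12,z0,z0,z0,y1]),(z1,[z0,y1,y1,y1,y1,z3])],.ref k12 k0 [(z3,[y6,z1,y2,y2,z0,z6]),(z3,[z3,z1,z4,z1,z0,y3]),(z3,
    [y6,y2,y2,z1,z0,z6]),(z3,[z12,z4,z4,z4,z3,y12]),(z1,[z0,y1,y1,y1,y1,z3])]],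
    .lp [k42,k44,k40,k38,k33,k42] [k1,k1,k0,k0,k2,k2,k3,k3,k10,k1,k1,k1] k0 [[k0,k0,k0,k0,k0,k0,k0,k0,k1,k0,k1],[k0,k0,k0,
    k0,k0,k0,k0,k2],[k0,k0,k0,k0,k2],[],[k0,k0,k0,k0,k0,k0,k11],[k0,k0,k0,k2],[k2],[k0,k0,k0,k0,k0,k11],[],[k0,k1,k0,
    k0,k0,k0,k0,k0,k0,k0,k0,k2],[k0,k0,k0,k0,k0,k0,k0,k0,k2],[k0,k1]] k120 k5
    [[(k8,k35),(k6,k40),(k0,k41),(k4,k41),(k10,k42),(k2,k43)],[(k7,k40),(k1,k41),(k5,k41),(k11,k41),(k3,k43),(k9,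
    k44)],[(k8,k35),(k6,k39),(k4,k42),(k0,k43),(k2,k44),(k10,k44)],[(k7,k39),(k5,k42),(k1,k43),(k9,k43),(k11,k43),(k3,
    k44)],[(k8,k32),(k6,k39),(k0,k41),(k10,k41),(k2,k42),(k4,k42)],[(k9,k30),(k7,k39),(k1,k41),(k11,k41),(k3,k42),(k5,
    k42)],[(k8,k31),(k2,k39),(k4,k39),(k0,k40),(k10,k40),(k6,k49)],[(k3,k39),(k5,k39),(k1,k40),(k9,k40),(k11,k40),(k7,
    k49)],[(k4,k30),(k8,k33),(k6,k40),(k10,k42),(k2,k43),(k0,k44)],[(k7,k31),(k5,k32),(k9,k33),(k11,k33),(k1,k35),(k3,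
    k35)],[(k8,k33),(k6,k40),(k10,k40),(k0,k41),(k4,k41),(k2,k43)],[(k7,k40),(k11,k40),(k5,k41),(k1,k42),(k9,k42),(k3,
    k44)]]
    [] k0
    [[k1,k0,k1,k0,k1,k0],[k1,k0,k0,k1,k1,k0],[k1,k0,k0,k0,k2,k0],[k1,k0,k0,k0,k1,k1],[k0,k1,k1,k0,k1,k0],[k0,k1,k0,k1,
    k1,k0],[k0,k1,k0,k0,k2,k0],[k0,k0,k2,k0,k1,k0],[k0,k0,k1,k1,k1,k0],[k0,k0,k1,k0,k2,k0],[k0,k0,k1,k0,k1,k1],[k0,k0,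
    k0,k1,k2,k0],[k0,k0,k0,k1,k1,k1],[k0,k0,k0,k0,k3,k0],[k0,k0,k0,k0,k2,k1],[k0,k0,k0,k0,k1,k2]]
    [.ref k12 k0 [(z5,[z6,z3,z0,y2]),(z5,[y3,z1,z5,z1]),(z5,[z6,y2,z0,z3]),(z5,[y12,z4,z0,z4,z5]),(z5,[z3,y1,z0,y1])],
    .ref k12 k0 [(z1,[y6,z3,z0,z0,z2]),(z1,[z3,y1,z1,z0,y1]),(z1,[y6,z2,z0,z1,z2]),(z1,[z12,y4,z0,z0,y3]),(z1,[y3,z1,
    z0,z0,z1])],.ref k12 k0 [(z2,[z3,z1]),(z4,[y3,z1,z4]),(z2,[z3,y1,z0,z2]),(z1,[y3,z1,z0,z0,z1]),(z4,[z3,y1])],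
    .ref k12 k0 [(z3,[z6,z3,z2,z2,z2,y6]),(z3,[y3,z0,z2,y1,y1,z3]),(z3,[z6,z0,z2,z5,z2,y6]),(z3,[y12,z0,y4,y4,y1,
    z12]),(z3,[z3,z0,z1,z1,z1,y3])],.ref k12 k0 [(z1,[z3,z1,y1,y1]),(z2,[y3,z0,z3,z1]),(z1,[z3,z0,y1]),(z1,[y6,z0,z2,
    z2,z1]),(z2,[z3,z0,y1,y1])],.ref k12 k0 [(z2,[y3,z2,z1,z0,z1]),(z4,[z3,z0,z3,z0,y1]),(z2,[y3,z0,z1,z2,z1]),(z1,
    [z3,z0,y1]),(z4,[y3,z0,z1,z0,z1])],.ref k12 k0 [(z1,[z6,z1,y2]),(z1,[y3,z0,z2]),(z1,[z6,z0,y2,z1]),(z1,[y12,z0,z4,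
    z0,z1]),(z1,[z3,z0,y1])],.ref k12 k0 [(z5,[z6,z5,z0,y4]),(z5,[y3,z0,z5,z2]),(z5,[z6,z0,z0,z1]),(z5,[y12,z0,z0,z8,
    z5]),(z5,[z3,z0,z0,y2])],.ref k12 k0 [(z1,[y6,z1,z0,z2,z2]),(z1,[z3,z0,z1,y1,y1]),(z1,[y6,z0,z0,z3,z2]),(z1,[z12,
    z0,z0,y4,y3]),(z1,[y3,z0,z0,z1,z1])],.ref k12 k0 [(z2,[z3,z2,z0,y1]),(z4,[y3,z0,z4,z1]),(z2,[z3,z0,z0,z1]),(z1,
    [y3,z0,z0,z1,z1]),(z4,[z3,z0,z0,y1])],.ref k12 k0 [(z3,[z6,z5,z2,z0,z2,y6]),(z3,[y3,y1,z2,z0,y1,z3]),(z3,[z6,z2,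
    z2,z3,z2,y6]),(z3,[y12,y4,y4,z0,y1,z12]),(z3,[z3,z1,z1,z0,z1,y3])],.ref k12 k0 [(z1,[y3,z1,z0,z0,z1]),(z2,[z3,z0,
    z2,z0,y1]),(z1,[y3,z0,z0,z1,z1]),(z1,[z6,z0,z0,z0,y1]),(z2,[y3,z0,z0,z0,z1])],.ref k12 k0 [(z3,[y6,z1,y2,y2,z0,
    z6]),(z3,[z3,z1,z4,z1,z0,y3]),(z3,[y6,y2,y2,z1,z0,z6]),(z3,[z12,z4,z4,z4,z3,y12]),(z3,[y3,y1,y1,y1,z0,z3])],
    .ref k12 k0 [(z1,[z2,z1]),(z1,[y1,z0,z1]),(z1,[z2,z0,z0,z1]),(z1,[y4,z0,z0,z0,z1]),(z1,[z1])],.ref k12 k0 [(z1,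
    [z3,z2,z1,z1,z1,y3]),(z2,[y3,y1,z1,y1,y1,z3]),(z1,[z3,z1,z1,z2,z1,y3]),(z1,[y6,y2,y2,y2,y1,z6]),(z2,[z3,z1,z1,z1,
    z1,y3])],.ref k12 k0 [(z1,[z6,z5,z4,z4,z4,y12]),(z1,[y3,y2,y1,y2,y2,z6]),(z1,[z6,z4,z4,z5,z4,y12]),(z1,[y12,y8,y8,
    y8,y7,z24]),(z1,[z3,z2,z2,z2,z2,y6])]],
    .lp [(nat_lit 322),(nat_lit 326),(nat_lit 320),(nat_lit 318),(nat_lit 306),(nat_lit 326)] [k2,k2,k0,k0,k3,k3,k4,k4,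
    k10,k10,k0,k0] k0 [[k0,k0,k0,k0,k0,k0,k0,k0,k2,k0,k2],[k0,k0,k0,k0,k0,k2,k0,k4],[k0,k0,k0,k0,k2],[k0,k0,k0,k0,k0,
    k0,k0,k0,k0,k10],[k2,k0,k0,k0,k0,k0,k0,k0,k0,k0,k2],[k0,k0,k0,k2,k0,k0,k0,k38],[k4,k0,k0,k0,k38],[k0,k0,k0,k0,k0,
    k0,k0,k0,k0,k0,k0,k10],[k0,k0,k10],[k0,k2,k0,k0,k0,k0,k0,k0,k0,k0,k0,k12],[k0,k0,k0,k0,k0,k0,k10,k0,k12],[k0,k2,
    k0,k0,k0,k2]] (nat_lit 960) k5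
    [[(k4,(nat_lit 319)),(k0,(nat_lit 320)),(k2,(nat_lit 324)),(k10,(nat_lit 324)),(k8,(nat_lit 326)),(k6,
    (nat_lit 330))],[(k9,(nat_lit 318)),(k1,(nat_lit 320)),(k5,(nat_lit 321)),(k7,(nat_lit 322)),(k11,(nat_lit 322)),
    (k3,(nat_lit 324))],[(k6,(nat_lit 318)),(k8,(nat_lit 318)),(k4,(nat_lit 321)),(k0,(nat_lit 324)),(k2,
    (nat_lit 326)),(k10,(nat_lit 328))],[(k9,(nat_lit 316)),(k7,(nat_lit 320)),(k5,(nat_lit 323)),(k1,(nat_lit 324)),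
    (k3,(nat_lit 326)),(k11,(nat_lit 336))],[(k8,(nat_lit 303)),(k6,(nat_lit 319)),(k0,(nat_lit 321)),(k4,
    (nat_lit 322)),(k2,(nat_lit 323)),(k10,(nat_lit 323))],[(k1,(nat_lit 319)),(k7,(nat_lit 319)),(k3,(nat_lit 321)),
    (k5,(nat_lit 322)),(k11,(nat_lit 323)),(k9,(nat_lit 351))],[(k6,(nat_lit 280)),(k8,(nat_lit 312)),(k4,
    (nat_lit 319)),(k2,(nat_lit 320)),(k0,(nat_lit 322)),(k10,(nat_lit 324))],[(k7,(nat_lit 280)),(k9,(nat_lit 312)),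
    (k3,(nat_lit 318)),(k5,(nat_lit 319)),(k11,(nat_lit 322)),(k1,(nat_lit 330))],[(k8,(nat_lit 306)),(k10,
    (nat_lit 306)),(k6,(nat_lit 312)),(k2,(nat_lit 316)),(k0,(nat_lit 318)),(k4,(nat_lit 351))],[(k5,(nat_lit 303)),
    (k9,(nat_lit 306)),(k7,(nat_lit 312)),(k11,(nat_lit 316)),(k3,(nat_lit 318)),(k1,(nat_lit 326))],[(k10,
    (nat_lit 314)),(k8,(nat_lit 316)),(k0,(nat_lit 322)),(k6,(nat_lit 322)),(k4,(nat_lit 323)),(k2,(nat_lit 336))],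
    [(k9,(nat_lit 306)),(k11,(nat_lit 314)),(k5,(nat_lit 323)),(k1,(nat_lit 324)),(k7,(nat_lit 324)),(k3,
    (nat_lit 328))]]
    [] k0
    [[k1,k0,k1,k0,k1,k0],[k1,k0,k0,k2,k0,k0],[k1,k0,k0,k0,k2,k0],[k1,k0,k0,k0,k1,k1],[k0,k1,k1,k0,k1,k0],[k0,k1,k0,k2,
    k0,k0],[k0,k1,k0,k1,k1,k0],[k0,k1,k0,k0,k2,k0],[k0,k0,k1,k2,k0,k0],[k0,k0,k1,k1,k1,k0],[k0,k0,k1,k0,k1,k1],[k0,k0,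
    k0,k3,k0,k0],[k0,k0,k0,k2,k1,k0],[k0,k0,k0,k2,k0,k1],[k0,k0,k0,k1,k2,k0],[k0,k0,k0,k1,k1,k1],[k0,k0,k0,k0,k3,k0],
    [k0,k0,k0,k0,k2,k1],[k0,k0,k0,k0,k1,k2],[k0,k0,k0,k0,k0,k3]]
    [.ref k8 k1 [(z1,[y2,y3,z0,z2]),(z1,[z1,z1,z0,y1]),(z1,[z0,z1,y1,y1,z1]),(z1,[z0,y1,z0,z1])],.ref k9 k0 [(z1,[y1,
    z2,y2,y2,z2]),(z2,[z1,z1,z8,z2,y2]),(z1,[y1,y1,y2,z1,z2]),(z1,[z2,y1,z1,z1,y1])],.ref k10 k2 [(z1,[y2,z1,y1,y1,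
    z1]),(z1,[z1,y1,z0,z1]),(z2,[y1,z1,z2]),(z1,[z1])],.ref k9 k0 [(z1,[z2,z1]),(z1,[y1,z1,z3]),(z1,[z2,y2,z0,z3]),
    (z1,[y4,z1,y3,y3,z3])],.ref k10 k2 [(z1,[y4,y1,z3,z3,z1]),(z1,[z2,z0,y2,y1]),(z1,[y1,z0,z2,z1]),(z1,[z2,z1,y2,
    y2])],.ref k9 k0 [(z3,[y2,z5,y2,y4,z4]),(z3,[z1,z2,z10,z2,y2]),(z3,[y2,y4,y2,z5,z4]),(z3,[z4,y1,y5,y1,z1])],
    .ref k11 k3 [(z1,[z0,z1,z2]),(z1,[z0,y1,z0,z1]),(z1,[z0,z1,y1,y1,z1]),(z1,[z2,y3,z0,z2,y2])],.ref k13 k0 [(z1,[z2,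
    z1,y2]),(z1,[y1,z0,z2]),(z1,[z2,z0,y2,z1]),(z1,[y4,y1,z3,y1,z1])],.ref k9 k0 [(z1,[y1,z1,y2,y1,z2]),(z2,[z1,z2,z8,
    z1,y2]),(z1,[y1,y2,y2,z2,z2]),(z1,[z2,z1,z1,y1,y1])],.ref k14 k4 [(z1,[y1,y1,y1,z0,z1]),(z1,[y1,z0,y1,z0,z1]),(z1,
    [z1,z1,z3,z0,y1]),(z1,[y1,y1,y1,z1,z1])],.ref k9 k0 [(z1,[z2,z3,z0,y2]),(z1,[y1,z0,z3,z1]),(z1,[z2,z0,z0,z1]),(z1,
    [y4,y3,y3,z1,z3])],.ref k9 k0 [(z2,[y1,z3,y3,y3,z3]),(z4,[z1,z3,z15,z3,y3]),(z2,[y1,y3,y3,z3,z3]),(z1,[z1])],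
    .ref k15 k0 [(z1,[y2,z3,y4,y4,z4]),(z1,[z1,z2,z9,z2,y2]),(z1,[y2,y4,y4,z3,z4]),(z1,[z4,z1,z1,z1,y1])],
    .ref k16 k1 [(z1,[z1,y2,z2,z2,y2]),(z1,[y2,z3,y4,y4,z4]),(z1,[z0,z1,y1,y1,z1]),(z1,[z0,y1,z0,z1])],
    .ref k14 k4 [(z2,[y1,y1,y1,y1,z1]),(z2,[y1,z1,y1,y1,z1]),(z2,[z1,z1,z5,z1,y1]),(z2,[y1,y1,y1,z1,z1])],
    .ref k9 k0 [(z1,[y2,z1,y2,y2,z2]),(z1,[z1,z1,z4,z1,y1]),(z1,[y2,y2,y2,z1,z2]),(z1,[z4,z1,z1,z1,y1])],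
    .ref k17 k0 [(z1,[z2,z3]),(z1,[y1,z0,z3]),(z1,[z2,z0,z0,z3]),(z1,[y4,y3,y3,y3,z3])],.ref k10 k2 [(z1,[y4,y1,y1,y1,
    z1]),(z1,[z2,z0,z0,z1]),(z1,[y1,z0,z1]),(z1,[z2,z1])],.ref k14 k4 [(z1,[z1]),(z1,[z1,z1]),(z1,[y1,z0,z2]),(z1,[z1,
    z0,z0,z1])],.ref k18 k0 [(z1,[z2,z3]),(z1,[y1,z0,z3]),(z1,[z2,z0,z0,z3]),(z1,[y4,y3,y3,y3,z3])]],
    .tor k1 false k5 [(z2,[y1,y1,y2,y2,z2]),(z1,[z0,z0,z2,z1]),(z1,[z0,z0,y1,y1,z1]),(z2,[z1,z1,z0,z2])],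
    .tor k0 false k0 [(z1,[z0,z0,z1,z1]),(z1,[y1,z0,y1,z0,z1]),(z1,[z1,z0,z1]),(z1,[z0,z0,y1,y1,z1])],
    .leafM k0 [k2,k3,k4,k5,k0,k1] [(z3,[y1,y1,y1,z0,z3])] [],
    .leafM k0 [k0,k1,k2,k3,k4,k5] [(z2,[z0,z1,z1,z2])] []]

noncomputable def cT6_3_n0_2 : List TN :=
  [.lp [k168,k170,k154,k164,k140,k162] [k1,k1,k0,k0,k8,k8,k3,k3,k15,k15,k4,k4] k0 [[k0,k0,k0,k0,k0,k0,k0,k0,k4,k0,k8],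
    [k0,k0,k0,k0,k0,k0,k0,k8],[k0,k0,k0,k0,k8,k0,k0,k0,k0,k0,k10],[k0,k0,k0,k0,k0,k0,k0,k0,k0,k4],[k0,k0,k0,k0,k0,k0,
    k12],[k0,k0,k0,k8],[k8],[k0,k0,k0,k0,k0,k12],[k0,k0,k4],[k0,k4,k0,k0,k0,k0,k0,k0,k0,k0,k0,k8],[k0,k0,k0,k0,k0,k0,
    k0,k0,k8],[k0,k8,k0,k10]] (nat_lit 480) k5
    [[(k2,k159),(k0,k160),(k4,k161),(k8,k162),(k10,k165),(k6,k166)],[(k1,k160),(k5,k161),(k11,k161),(k9,k162),(k7,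
    k166),(k3,k169)],[(k6,k159),(k8,k159),(k4,k162),(k0,k169),(k2,k170),(k10,k174)],[(k9,k155),(k1,k159),(k7,k159),
    (k5,k162),(k3,k170),(k11,k170)],[(k8,k143),(k6,k159),(k0,k161),(k2,k162),(k4,k162),(k10,k168)],[(k9,k135),(k11,
    k158),(k7,k159),(k1,k161),(k3,k162),(k5,k162)],[(k8,k152),(k2,k159),(k4,k159),(k10,k163),(k0,k166),(k6,k176)],
    [(k9,k152),(k3,k159),(k5,k159),(k11,k163),(k1,k166),(k7,k176)],[(k4,k135),(k8,k140),(k10,k151),(k6,k152),(k2,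
    k155),(k0,k162)],[(k9,k140),(k5,k143),(k11,k151),(k7,k152),(k3,k159),(k1,k162)],[(k8,k151),(k10,k154),(k4,k158),
    (k0,k161),(k6,k163),(k2,k170)],[(k9,k151),(k11,k154),(k7,k163),(k1,k165),(k5,k168),(k3,k174)]]
    [] k0
    [[k1,k0,k1,k0,k1,k0],[k1,k0,k0,k0,k2,k0],[k1,k0,k0,k0,k1,k1],[k0,k1,k1,k0,k1,k0],[k0,k1,k0,k1,k1,k0],[k0,k1,k0,k0,
    k2,k0],[k0,k0,k2,k0,k1,k0],[k0,k0,k1,k1,k1,k0],[k0,k0,k1,k0,k2,k0],[k0,k0,k1,k0,k1,k1],[k0,k0,k0,k1,k2,k0],[k0,k0,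
    k0,k1,k1,k1],[k0,k0,k0,k0,k3,k0],[k0,k0,k0,k0,k2,k1],[k0,k0,k0,k0,k1,k2],[k0,k0,k0,k0,k0,k3]]
    [.ref k12 k0 [(z1,[y2,z3,y2,z0,y2,z2]),(z2,[y1,z0,z5,z0,y1,z1]),(z1,[z1,z0,z1,z3,z1,y1]),(z1,[y2,z0,y2,z0,z1,z2]),
    (z1,[z4,y3,z1,y3,z1,y1])],.ref k12 k0 [(z1,[y1,z2,y2,y2,y2,z2]),(z4,[y1,y1,z10,y2,y2,z2]),(z2,[z1,z1,z2,z8,z2,
    y2]),(z1,[y1,y1,y2,y2,z1,z2]),(z1,[z2,y1,z1,z1,z1,y1])],.ref k12 k0 [(z1,[y4,z3,y4,y4,y4,z4]),(z1,[y1,z0,z2,y1,y1,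
    z1]),(z1,[z2,z0,z2,z5,z2,y2]),(z1,[y4,z0,y4,y4,y1,z4]),(z1,[z8,y3,z5,z5,z5,y5])],.ref k12 k0 [(z3,[y4,z5,z0,z0,y4,
    z4]),(z3,[y1,y1,z9,z0,y1,z1]),(z3,[z2,z2,z0,z9,z2,y2]),(z3,[y4,y4,z0,z0,z5,z4]),(z3,[z8,y1,y9,y9,y1,z1])],
    .ref k12 k0 [(z1,[y4,y1,z0,y4,z0,z4]),(z1,[y1,y1,z3,y1,z0,z1]),(z1,[z2,z2,z0,z5,z0,y2]),(z1,[y4,y4,z0,y4,z3,z4]),
    (z1,[z8,z5,y3,z5,y3,y5])],.ref k12 k0 [(z5,[y4,z7,y4,y8,y8,z8]),(z5,[y1,y2,z14,y2,y2,z2]),(z5,[z2,z4,z2,z19,z4,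
    y4]),(z5,[y4,y8,y4,y8,z7,z8]),(z5,[z8,z1,y7,z1,z1,y1])],.ref k12 k0 [(z1,[y1,z2,y1,z1,y1,z1]),(z4,[y1,y1,z11,z1,
    y1,z1]),(z2,[z1,z1,z1,z5,z1,y1]),(z1,[y1,y1,y1,z1,z2,z1]),(z1,[z2,y1,y1,y5,y1,z1])],.ref k12 k0 [(z1,[y2,z1,y2,z0,
    z0,z2]),(z2,[y1,y1,z5,z0,z0,z1]),(z1,[z1,z1,z1,z3,z0,y1]),(z1,[y2,y2,y2,z0,z3,z2]),(z1,[z4,z1,z1,y3,y3,y1])],
    .ref k12 k0 [(z3,[y2,z5,y4,y2,y4,z4]),(z6,[y1,y2,z16,y1,y2,z2]),(z3,[z1,z2,z2,z10,z2,y2]),(z3,[y2,y4,y4,y2,z5,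
    z4]),(z3,[z4,y1,y1,y5,y1,z1])],.ref k12 k0 [(z3,[y4,z5,y4,z0,y4,z4]),(z3,[y1,y1,z8,z0,y1,z1]),(z3,[z2,z2,z2,z9,z2,
    y2]),(z3,[y4,y4,y4,z0,z5,z4]),(z3,[z8,y1,y1,y9,y1,z1])],.ref k12 k0 [(z1,[y1,z1,y2,y2,y1,z2]),(z4,[y1,y2,z10,y2,
    y1,z2]),(z2,[z1,z2,z2,z8,z1,y2]),(z1,[y1,y2,y2,y2,z2,z2]),(z1,[z2,z1,z1,z1,y1,y1])],.ref k12 k0 [(z1,[y4,y1,y4,y4,
    z0,z4]),(z1,[y1,y1,z2,y1,z0,z1]),(z1,[z2,z2,z2,z5,z0,y2]),(z1,[y4,y4,y4,y4,z3,z4]),(z1,[z8,z5,z5,z5,y3,y5])],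
    .ref k12 k0 [(z2,[y1,z3,y3,y3,y3,z3]),(z8,[y1,y3,z21,y3,y3,z3]),(z4,[z1,z3,z3,z15,z3,y3]),(z2,[y1,y3,y3,y3,z3,
    z3]),(z1,[z1])],.ref k12 k0 [(z5,[y4,z7,y8,y8,y8,z8]),(z5,[y1,y2,z13,y2,y2,z2]),(z5,[z2,z4,z4,z19,z4,y4]),(z5,[y4,
    y8,y8,y8,z7,z8]),(z5,[z8,z1,z1,z1,z1,y1])],.ref k12 k0 [(z1,[y2,z1,y2,y2,y2,z2]),(z2,[y1,y1,z5,y1,y1,z1]),(z1,[z1,
    z1,z1,z4,z1,y1]),(z1,[y2,y2,y2,y2,z1,z2]),(z1,[z4,z1,z1,z1,z1,y1])],.ref k12 k0 [(z1,[z4,z3]),(z1,[z1,z0,z3]),(z1,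
    [y2,z0,z0,z3]),(z1,[z4,z0,z0,z0,z3]),(z1,[y8,y3,y3,y3,y3,z3])]],
    .lp [k162,k166,k166,k166,k166,k132] [k10,k10,k8,k8,k16,k0,k8,k8,k8,k8,k25,k25] k0 [[k0,k0,k0,k0,k0,k0,k0,k0,k0,k0,k2],
    [],[k0,k0,k0,k0,k4,k0,k0,k0,k0,k0,k14],[k0,k0,k0,k0,k0,k0,k0,k14,k0,k54],[k0,k0,k0,k0,k0,k0,k0,k0,k2],[k0,k0,k0,
    k4],[k0,k0,k14],[k0,k0,k0,k0,k0,k0,k0,k0,k0,k20,k0,k20],[k0,k0,k54,k0,k0,k0,k20],[k0,k0,k0,k0,k0,k2,k0,k0,k0,k0,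
    k0,k6],[k0,k0,k0,k0,k0,k0,k20,k0,k6],[k0,k2,k0,k14]] (nat_lit 480) k5
    [[(k10,k147),(k2,k150),(k4,k156),(k0,k160),(k8,k170),(k6,k184)],[(k11,k147),(k1,k160),(k3,k164),(k7,k164),(k9,
    k164),(k5,k172)],[(k10,k151),(k4,k158),(k0,k164),(k2,k166),(k6,k166),(k8,k166)],[(k1,k150),(k7,k162),(k3,k166),
    (k5,k174),(k9,k180),(k11,(nat_lit 203))],[(k8,k120),(k6,k160),(k4,k170),(k10,k171),(k0,k172),(k2,k174)],[(k11,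
    k139),(k1,k156),(k3,k158),(k7,k158),(k9,k158),(k5,k170)],[(k10,k149),(k4,k158),(k2,k162),(k0,k164),(k6,k166),(k8,
    k168)],[(k5,k160),(k3,k166),(k7,k166),(k9,k166),(k11,k169),(k1,k184)],[(k10,k129),(k8,k146),(k4,k158),(k0,k164),
    (k6,k166),(k2,k180)],[(k5,k120),(k9,k146),(k11,k149),(k3,k166),(k7,k168),(k1,k170)],[(k10,k126),(k4,k139),(k0,
    k147),(k8,k149),(k6,k169),(k2,(nat_lit 203))],[(k11,k126),(k9,k129),(k1,k147),(k7,k149),(k3,k151),(k5,k171)]]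
    [] k0
    [[k2,k1,k0,k0,k0,k0],[k2,k0,k0,k0,k0,k1],[k1,k1,k0,k0,k0,k1],[k1,k0,k1,k0,k1,k0],[k1,k0,k1,k0,k0,k1],[k1,k0,k0,k0,
    k1,k1],[k1,k0,k0,k0,k0,k2],[k0,k1,k1,k0,k1,k0],[k0,k1,k1,k0,k0,k1],[k0,k0,k2,k0,k1,k0],[k0,k0,k1,k1,k0,k1],[k0,k0,
    k1,k1,k1,k0],[k0,k0,k1,k0,k2,k0],[k0,k0,k1,k0,k1,k1],[k0,k0,k1,k0,k0,k2],[k0,k0,k0,k1,k1,k1],[k0,k0,k0,k1,k0,k2],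
    [k0,k0,k0,k0,k3,k0],[k0,k0,k0,k0,k2,k1],[k0,k0,k0,k0,k1,k2],[k0,k0,k0,k0,k0,k3]]
    [.ref k12 k0 [(z2,[z3,z0,y1]),(z1,[z0,z0,z1]),(z1,[y3,z2,z1,z1]),(z2,[z3,y2,y1,z0,z2]),(z4,[y3,y2,y3,y4,y4,z12])],
    .ref k12 k0 [(z5,[z6,z1]),(z1,[z0,z0,z1]),(z5,[y12,z8,z0,z5]),(z5,[z6,y4,z0,z0,z5]),(z5,[y3,y3,y5,y5,y5,z15])],
    .ref k12 k0 [(z3,[z6,z1,y2]),(z1,[z0,z0,z1]),(z3,[y12,z4,z4,z3]),(z3,[z6,y2,y2,z0,z3]),(z3,[y3,y2,y2,y3,y3,z9])],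
    .ref k12 k0 [(z3,[y6,z3,y2,z0,y2,z6]),(z1,[z0,z0,z1]),(z3,[z12,z0,z4,z3,z4,y12]),(z3,[y6,z0,y2,z0,z1,z6]),(z3,[z3,
    y3,y2,y3,y2,z6])],.ref k12 k0 [(z1,[y6,z3,z0,z2]),(z1,[z0,z0,z1]),(z1,[z12,y4,z0,y3]),(z1,[y6,z2,z0,z2,z1]),(z1,
    [z3,y2,y1,y2,y1,z3])],.ref k12 k0 [(z1,[z3,z1,z1,z1,z1,y3]),(z1,[z0,z0,z1]),(z1,[y6,z0,y2,y1,y2,z6]),(z1,[z3,z0,
    z1,z1,z2,y3]),(z2,[y3,y2,y3,y3,y3,z9])],.ref k12 k0 [(z2,[z3,z1]),(z1,[z0,z0,z1]),(z1,[y3,z1,z0,z1]),(z2,[z3,y1,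
    z0,z0,z2]),(z4,[y3,y3,y4,y4,y4,z12])],.ref k12 k0 [(z5,[y6,z3,z0,z0,y2,z6]),(z1,[z0,z0,z1]),(z5,[z12,z4,z0,z5,z4,
    y12]),(z5,[y6,y2,z0,z0,z3,z6]),(z5,[z3,y4,y5,y5,y4,z12])],.ref k12 k0 [(z3,[y6,z3,z2,z2]),(z1,[z0,z0,z1]),(z3,
    [z12,z0,y4,y1]),(z3,[y6,z0,z2,z2,z3]),(z3,[z3,y3,y4,y4,y3,z9])],.ref k12 k0 [(z9,[y6,z7,y2,z2,y2,z6]),(z1,[z0,z0,
    z1]),(z9,[z12,z4,z4,z5,z4,y12]),(z9,[y6,y2,y2,z2,z7,z6]),(z9,[z3,y8,y8,y10,y8,z24])],.ref k12 k0 [(z1,[y6,z1,z0,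
    z2,z2]),(z1,[z0,z0,z1]),(z1,[z12,z0,z0,y3,y4]),(z1,[y6,z0,z0,z2,z3]),(z1,[z3,y1,y1,y2,y2,z3])],.ref k12 k0 [(z3,
    [y6,z1,y2,z0,z0,z6]),(z1,[z0,z0,z1]),(z3,[z12,z4,z4,z3,z0,y12]),(z3,[y6,y2,y2,z0,z3,z6]),(z3,[z3,y2,y2,y3,y3,
    z6])],.ref k12 k0 [(z3,[y3,z1,y2,y1,y2,z6]),(z1,[z0,z0,z1]),(z3,[z6,z4,z4,z5,z4,y12]),(z3,[y3,y2,y2,y1,z1,z6]),
    (z6,[z3,y4,y4,y5,y4,z12])],.ref k12 k0 [(z2,[y3,z1,y1,z0,y1,z3]),(z1,[z0,z0,z1]),(z1,[z3,z1,z1,z1,z1,y3]),(z2,[y3,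
    y1,y1,z0,z1,z3]),(z4,[z3,y3,y3,y4,y3,z9])],.ref k12 k0 [(z1,[y3,z1,z0,z1]),(z1,[z0,z0,z1]),(z1,[z6,z0,z0,y1]),(z1,
    [y3,z0,z0,z1,z1]),(z2,[z3,y2,y2,y3,y2,z6])],.ref k12 k0 [(z1,[z3,z2,z1,z1,z0,y3]),(z1,[z0,z0,z1]),(z1,[y6,y2,y2,
    y1,z0,z6]),(z1,[z3,z1,z1,z1,z1,y3]),(z2,[y3,y3,y3,y3,y2,z9])],.ref k12 k0 [(z2,[z3,z2,z0,z0,y1]),(z1,[z0,z0,z1]),
    (z1,[y3,z0,z0,z1,z1]),(z2,[z3,z0,z0,z0,z1]),(z4,[y3,y4,y4,y4,y3,z12])],.ref k12 k0 [(z1,[y2,y1,y2,y2,y2,z6]),(z1,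
    [z0,z0,z1]),(z1,[z4,z4,z4,z5,z4,y12]),(z1,[y2,y2,y2,y2,y1,z6]),(z1,[z1])],.ref k12 k0 [(z1,[y6,y3,y4,y4,y4,z12]),
    (z1,[z0,z0,z1]),(z1,[z12,z8,z8,z9,z8,y24]),(z1,[y6,y4,y4,y4,y3,z12]),(z1,[z3,z1,z1,z1,z1,y3])],.ref k12 k0 [(z1,
    [z6,z3,z2,z2,z2,y6]),(z1,[z0,z0,z1]),(z1,[y12,y4,y4,y3,y4,z12]),(z1,[z6,z2,z2,z2,z3,y6]),(z1,[y3,y2,y2,y2,y2,
    z6])],.ref k12 k0 [(z1,[z2,z1]),(z1,[z0,z0,z1]),(z1,[y4,z0,z0,z1]),(z1,[z2,z0,z0,z0,z1]),(z1,[y1,y1,y1,y1,y1,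
    z3])]],
    .lp [(nat_lit 320),(nat_lit 338),(nat_lit 330),(nat_lit 308),(nat_lit 314),(nat_lit 308)] [k9,k9,k0,k0,k4,k4,k15,k15,
    k12,k12,k15,k15] k0 [[k0,k0,k0,k0,k0,k0,k12],[k0,k0,k0,k36,k0,k16],[k36],[],[k16,k0,k0,k0,k0,k0,k14],[k0,k0,k0,k0,
    k0,k0,k0,k0,k0,k0,k0,k8],[k0,k0,k0,k0,k0,k0,k0,k0,k50,k0,k4],[k0,k12,k0,k0,k0,k14],[k0,k0,k0,k0,k0,k0,k0,k0,k0,k0,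
    k26],[k0,k0,k0,k0,k0,k0,k0,k50],[k0,k0,k0,k0,k8],[k0,k0,k0,k0,k0,k0,k0,k4,k0,k26]] (nat_lit 960) k5
    [[(k8,(nat_lit 291)),(k6,(nat_lit 310)),(k10,(nat_lit 314)),(k0,(nat_lit 320)),(k2,(nat_lit 329)),(k4,
    (nat_lit 333))],[(k9,(nat_lit 305)),(k11,(nat_lit 314)),(k1,(nat_lit 320)),(k3,(nat_lit 329)),(k7,(nat_lit 330)),
    (k5,(nat_lit 361))],[(k2,(nat_lit 302)),(k4,(nat_lit 318)),(k10,(nat_lit 323)),(k8,(nat_lit 326)),(k0,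
    (nat_lit 329)),(k6,(nat_lit 335))],[(k3,(nat_lit 302)),(k7,(nat_lit 323)),(k11,(nat_lit 323)),(k9,(nat_lit 326)),
    (k1,(nat_lit 329)),(k5,(nat_lit 334))],[(k6,(nat_lit 319)),(k10,(nat_lit 319)),(k8,(nat_lit 322)),(k4,
    (nat_lit 330)),(k2,(nat_lit 334)),(k0,(nat_lit 361))],[(k9,(nat_lit 308)),(k3,(nat_lit 318)),(k7,(nat_lit 319)),
    (k11,(nat_lit 319)),(k5,(nat_lit 330)),(k1,(nat_lit 333))],[(k10,(nat_lit 300)),(k8,(nat_lit 311)),(k4,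
    (nat_lit 319)),(k6,(nat_lit 322)),(k2,(nat_lit 323)),(k0,(nat_lit 330))],[(k11,(nat_lit 258)),(k1,(nat_lit 310)),
    (k9,(nat_lit 311)),(k5,(nat_lit 319)),(k7,(nat_lit 322)),(k3,(nat_lit 335))],[(k0,(nat_lit 305)),(k4,
    (nat_lit 308)),(k6,(nat_lit 311)),(k10,(nat_lit 315)),(k2,(nat_lit 326)),(k8,(nat_lit 364))],[(k1,(nat_lit 291)),
    (k7,(nat_lit 311)),(k11,(nat_lit 311)),(k5,(nat_lit 322)),(k3,(nat_lit 326)),(k9,(nat_lit 364))],[(k6,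
    (nat_lit 258)),(k8,(nat_lit 311)),(k0,(nat_lit 314)),(k4,(nat_lit 319)),(k2,(nat_lit 323)),(k10,(nat_lit 334))],
    [(k7,(nat_lit 300)),(k1,(nat_lit 314)),(k9,(nat_lit 315)),(k5,(nat_lit 319)),(k3,(nat_lit 323)),(k11,
    (nat_lit 334))]]
    [] k0
    [[k2,k0,k0,k0,k1,k0],[k2,k0,k0,k0,k0,k1],[k1,k0,k0,k1,k1,k0],[k1,k0,k0,k1,k0,k1],[k1,k1,k0,k0,k1,k0],[k1,k0,k0,k0,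
    k1,k1],[k0,k3,k0,k0,k0,k0],[k0,k2,k1,k0,k0,k0],[k0,k2,k0,k0,k1,k0],[k0,k2,k0,k0,k0,k1],[k0,k1,k0,k1,k0,k1],[k0,k0,
    k1,k1,k1,k0],[k0,k0,k1,k1,k0,k1],[k0,k0,k1,k0,k1,k1],[k0,k0,k0,k2,k1,k0],[k0,k0,k0,k2,k0,k1],[k0,k0,k0,k1,k1,k1],
    [k0,k0,k0,k1,k0,k2]]
    [.ref k12 k0 [(z4,[z7,z5,z7,z7,z7,y7]),(z2,[y1,z1,z5,y1,y1,z1]),(z1,[y2,z2,y2,z1,y2,z2]),(z1,[z1,y1,z1,z1,z4,y1]),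
    (z2,[y1,y5,y7,y7,y7,z7])],.ref k12 k0 [(z5,[z7,z1]),(z5,[y2,z4,z15]),(z5,[y8,z16,z0,z15]),(z5,[z4,y8,z0,z0,z15]),
    (z5,[y2,y11,y15,y15,y15,z15])],.ref k12 k0 [(z3,[z7,z9,z7,z7,z0,y7]),(z3,[y2,z0,z7,y2,z0,z2]),(z3,[y8,z0,y8,z1,z0,
    z8]),(z3,[z4,z0,z4,z4,z9,y4]),(z3,[y2,y9,y11,y11,y9,z11])],.ref k12 k0 [(z4,[z7,z5,z0,z0,y7]),(z2,[y1,z1,z6,z0,
    z1]),(z1,[y2,z2,z0,z3,z2]),(z1,[z1,y1,z0,z0,z2]),(z2,[y1,y5,y6,y6,y5,z6])],.ref k12 k0 [(z1,[z7,z3,z0,z7,z7,y7]),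
    (z1,[y2,z0,z3,y2,y2,z2]),(z1,[y8,z0,z0,y5,y8,z8]),(z1,[z4,z0,z0,z4,z7,y4]),(z1,[y2,y3,y3,y5,y5,z5])],
    .ref k12 k0 [(z2,[z7,z6,z7,z7,z7,y7]),(z1,[y1,z0,z2,y1,y1,z1]),(z1,[y4,z0,y4,y1,y4,z4]),(z1,[z2,z0,z2,z2,z5,y2]),
    (z1,[y1,y3,y4,y4,y4,z4])],.ref k12 k0 [(z2,[y7,z6,z21]),(z1,[z1]),(z1,[z4,z0,y12,z3]),(z1,[y2,z0,z6,z0,z3]),(z1,
    [z1,y3,y6,y3,y3,z3])],.ref k12 k0 [(z4,[y7,z12,z14,z7]),(z2,[z1,z0,z4,y1]),(z1,[z2,z0,y4,z1]),(z1,[y1,z0,z2,z1,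
    z3]),(z2,[z1,y6,y8,y7,y6,z6])],.ref k12 k0 [(z2,[y7,y1,z7,y7,y7,z7]),(z1,[z1,z1,z2,z1,z1,y1]),(z1,[z4,z4,y4,z7,z4,
    y4]),(z1,[y2,y2,z2,y2,z1,z2]),(z1,[z1,y2,y4,y2,y2,z2])],.ref k12 k0 [(z1,[y7,z3,z14]),(z1,[z2,z0,y1]),(z1,[z8,z0,
    y16,z3]),(z1,[y4,z0,z8,z0,z3]),(z1,[z2,y3,y7,y3,y3,z3])],.ref k12 k0 [(z1,[z7,z3,y7,z0,y7]),(z1,[y2,z0,z5,z0,z2]),
    (z1,[y8,z0,z8,z3,z8]),(z1,[z4,z0,y4,z0,y1]),(z1,[y2,y3,y1,y3,y1,z3])],.ref k12 k0 [(z2,[y7,y1,y7,z0,z0,z7]),(z1,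
    [z1,z1,z4,z0,z0,y1]),(z1,[z4,z4,z4,z3,z0,y4]),(z1,[y2,y2,y2,z0,z3,z2]),(z1,[z1,y2,y2,y3,y3,z2])],.ref k12 k0 [(z1,
    [y7,z3,z0,z7,z7]),(z1,[z2,z0,z3,y2,y2]),(z1,[z8,z0,z0,y5,y8]),(z1,[y4,z0,z0,z4,z7]),(z1,[z2,y3,y3,y5,y5,z3])],
    .ref k12 k0 [(z3,[y7,z2,y7,z0,y7,z7]),(z3,[z2,z2,z11,z0,z2,y2]),(z3,[z8,z8,z8,z9,z8,y8]),(z3,[y4,y4,y4,z0,z5,z4]),
    (z3,[z2,y7,y7,y9,y7,z7])],.ref k12 k0 [(z2,[z7,z13,z7,z7,y7,y7]),(z1,[y1,y1,z2,y1,z1,z1]),(z1,[y4,y4,y4,y1,z4,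
    z4]),(z1,[z2,z2,z2,z2,z1,y2]),(z1,[y1,y4,y4,y4,y2,z4])],.ref k12 k0 [(z3,[z7,z9,z0,z0,y14]),(z3,[y2,z0,z9,z0,z4]),
    (z3,[y8,z0,z0,z9,z16]),(z3,[z4,z0,z0,z0,z1]),(z3,[y2,y9,y9,y9,y5,z9])],.ref k12 k0 [(z1,[z7,z10,z7,z7,z0,y7]),(z1,
    [y2,y2,z1,y2,z0,z2]),(z1,[y8,y8,y8,y5,z0,z8]),(z1,[z4,z4,z4,z4,z3,y4]),(z1,[y2,y5,y5,y5,y3,z5])],.ref k12 k0 [(z2,
    [z7,z6,z0,z0,y7]),(z1,[y1,z0,z3,z0,z1]),(z1,[y4,z0,z0,z3,z4]),(z1,[z2,z0,z0,z0,z1]),(z1,[y1,y3,y3,y3,y2,z3])]],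
    .lp [(nat_lit 33840),(nat_lit 33840),(nat_lit 33840),(nat_lit 33428),(nat_lit 27674),(nat_lit 34250)] [(nat_lit 205),
    (nat_lit 205),(nat_lit 205),(nat_lit 205),(nat_lit 205),(nat_lit 205),(nat_lit 411),(nat_lit 411),(nat_lit 3288),
    (nat_lit 3288),k0,k0] k0 [[k0,k0,k0,k0,(nat_lit 2466),k0,k0,k0,(nat_lit 3288)],[k0,k0,k0,(nat_lit 822)],
    [(nat_lit 822),k0,k0,k0,(nat_lit 1233)],[k0,k0,k0,k0,k0,k0,k0,(nat_lit 3699)],[k0,k0,k0,k0,k0,k0,k0,k0,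
    (nat_lit 4110)],[k0,(nat_lit 2466),k0,(nat_lit 1233)],[k0,k0,(nat_lit 3699)],[k0,k0,k0,k0,k0,k0,k0,k0,k0,k0,k0,
    (nat_lit 411)],[k0,k0,k0,k0,k0,k0,k0,k0,k0,k0,(nat_lit 411)],[k0,(nat_lit 3288),k0,k0,k0,(nat_lit 4110)],[k0,k0,
    k0,k0,k0,k0,(nat_lit 411)],[k0,k0,k0,k0,k0,k0,k0,k0,k0,(nat_lit 411)]] (nat_lit 98640) k5
    [[(k8,(nat_lit 30346)),(k0,(nat_lit 33840)),(k2,(nat_lit 33840)),(k4,(nat_lit 33840)),(k6,(nat_lit 34045)),(k10,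
    (nat_lit 34045))],[(k9,(nat_lit 30757)),(k11,(nat_lit 30757)),(k7,(nat_lit 31168)),(k1,(nat_lit 33840)),(k3,
    (nat_lit 33840)),(k5,(nat_lit 34662))],[(k2,(nat_lit 33018)),(k6,(nat_lit 33634)),(k0,(nat_lit 33840)),(k8,
    (nat_lit 34045)),(k10,(nat_lit 34045)),(k4,(nat_lit 36306))],[(k7,(nat_lit 32401)),(k3,(nat_lit 33018)),(k1,
    (nat_lit 33840)),(k5,(nat_lit 33840)),(k11,(nat_lit 34045)),(k9,(nat_lit 34456))],[(k6,(nat_lit 29935)),(k8,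
    (nat_lit 30757)),(k2,(nat_lit 33840)),(k10,(nat_lit 34045)),(k0,(nat_lit 34662)),(k4,(nat_lit 35073))],[(k11,
    (nat_lit 29935)),(k9,(nat_lit 30757)),(k7,(nat_lit 33634)),(k1,(nat_lit 33840)),(k5,(nat_lit 35073)),(k3,
    (nat_lit 36306))],[(k0,(nat_lit 31168)),(k2,(nat_lit 32401)),(k6,(nat_lit 33428)),(k4,(nat_lit 33634)),(k10,
    (nat_lit 33839)),(k8,(nat_lit 34661))],[(k5,(nat_lit 29935)),(k9,(nat_lit 30551)),(k7,(nat_lit 33428)),(k3,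
    (nat_lit 33634)),(k11,(nat_lit 33839)),(k1,(nat_lit 34045))],[(k8,(nat_lit 27674)),(k6,(nat_lit 30551)),(k10,
    (nat_lit 30551)),(k0,(nat_lit 30757)),(k4,(nat_lit 30757)),(k2,(nat_lit 34456))],[(k9,(nat_lit 27674)),(k1,
    (nat_lit 30346)),(k5,(nat_lit 30757)),(k11,(nat_lit 30962)),(k3,(nat_lit 34045)),(k7,(nat_lit 34661))],[(k4,
    (nat_lit 29935)),(k0,(nat_lit 30757)),(k8,(nat_lit 30962)),(k6,(nat_lit 33839)),(k2,(nat_lit 34045)),(k10,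
    (nat_lit 34661))],[(k9,(nat_lit 30551)),(k7,(nat_lit 33839)),(k1,(nat_lit 34045)),(k3,(nat_lit 34045)),(k5,
    (nat_lit 34045)),(k11,(nat_lit 34661))]]
    [] k0
    [[k2,k0,k0,k0,k1,k0],[k1,k0,k1,k1,k0,k0],[k1,k0,k1,k0,k1,k0],[k1,k0,k0,k1,k1,k0],[k1,k0,k0,k0,k2,k0],[k1,k0,k0,k0,
    k1,k1],[k0,k1,k0,k1,k1,k0],[k0,k1,k0,k0,k2,k0],[k0,k1,k1,k0,k0,k1],[k0,k0,k2,k0,k1,k0],[k0,k0,k1,k2,k0,k0],[k0,k0,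
    k1,k1,k1,k0],[k0,k0,k1,k1,k0,k1],[k0,k0,k1,k0,k2,k0],[k0,k0,k1,k0,k1,k1],[k0,k0,k0,k1,k2,k0],[k0,k0,k0,k1,k1,k1],
    [k0,k0,k0,k0,k3,k0],[k0,k0,k0,k0,k2,k1],[k0,k0,k0,k0,k1,k2]]
    [.ref k20 k5 [(z4,[y8,z18,z5,z7,y20]),(z4,[z0,y2,z1,y1,z4]),(z4,[z0,z4,z1,z1,y4]),(z2,[z0,y2,y1,y1,z4])],
    .ref k21 k6 [(z4,[z4,z0,y3,z1,y4]),(z4,[z0,y2,z1,y1,z4]),(z1,[y1,z0,z1,z0,z1]),(z1,[z0,z0,y1])],.ref k22 k4 [(z1,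
    [y4,z2,z0,z1]),(z2,[z4,z1,z0,y1]),(z4,[y4,z2,z3,z1]),(z2,[z2,y1,z0,z1])],.ref k20 k5 [(z4,[y8,z10,z3,z5,y12]),(z4,
    [z0,y2,z1,y1,z4]),(z4,[z0,z4,z1,z1,y4]),(z2,[z0,y2,y1,y1,z4])],.ref k10 k4 [(z1,[y2,z1]),(z1,[z1]),(z4,[y2,z1,
    z1]),(z4,[z2,y1,z0,z1])],.ref k23 k2 [(z4,[y4,z0,y1,y1,z4]),(z2,[y2,z1,z0,z1]),(z2,[z2,y1,z1]),(z1,[y1,z1])],
    .ref k10 k4 [(z1,[y4,y2,z0,y1,z4]),(z2,[z4,z3,z0,z1,y4]),(z4,[y4,y2,z1,y1,z4]),(z2,[z2,z1,z0,z1,y2])],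
    .ref k24 k2 [(z4,[y8,y2,z1,y1,z4]),(z4,[y4,z0,z1,z1]),(z1,[z1]),(z2,[y4,z1,z1])],.ref k20 k5 [(z4,[z8,z10,z3,z5,
    y20]),(z4,[z0,y2,z1,y1,z4]),(z4,[z0,z4,z1,z1,y4]),(z2,[z0,y2,y1,y1,z4])],.ref k23 k2 [(z4,[z4,y2,y1,y3,z4]),(z1,
    [z1]),(z2,[y2,z0,z1,z1]),(z2,[z2,z1,z0,y1])],.ref k21 k6 [(z2,[z2,z2,y1,z1,y4]),(z4,[z0,y2,z1,y1,z4]),(z4,[y4,y4,
    z3,y1,z8]),(z1,[z0,z0,y1])],.ref k22 k4 [(z1,[y4,y2,y1,z0,z4]),(z2,[z4,z5,z1,z0,y4]),(z2,[y2,y1,z1,z0,z2]),(z4,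
    [z4,z2,z1,z3,y4])],.ref k10 k4 [(z1,[z4,z2,z1,z0,y4]),(z2,[y4,y1,y1,z0,z4]),(z2,[z2,z1,z1,z0,y2]),(z4,[y4,y2,y1,
    z1,z4])],.ref k10 k4 [(z1,[y4,z0,z0,z1]),(z2,[z4,z1,z0,y1]),(z4,[y4,z0,z1,z1]),(z1,[z1])],.ref k22 k4 [(z1,[z4,z0,
    z0,y1]),(z2,[y4,z3,z0,z1]),(z4,[z4,z0,z3,y1]),(z1,[y1,z0,z0,z1])],.ref k10 k4 [(z2,[y4,y2,y1,y1,z4]),(z4,[z4,z4,
    z1,z1,y4]),(z8,[y4,y2,z1,y1,z4]),(z8,[z4,z2,z1,z3,y4])],.ref k23 k2 [(z2,[y2,y2,y1,y1,z4]),(z4,[y4,y2,y1,z1,z4]),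
    (z4,[z4,z2,z3,z1,y4]),(z4,[y4,z0,y1,y1,z4])],.ref k25 k7 [(z4,[z8,y6,y3,y9,z12]),(z1,[z1]),(z1,[y4,z0,z0,z3]),(z2,
    [z4,z3,z0,y3])],.ref k23 k2 [(z4,[y2,y2,y1,y1,z4]),(z2,[y1,z0,z0,z1]),(z2,[z1,z0,z1]),(z2,[y1,z1])],
    .ref k26 k6 [(z4,[y4,z0,y7,z1]),(z4,[z0,y2,z1,y1,z4]),(z1,[z1,z0,z2]),(z1,[z0,z0,y1])]],
    .leafM k1 [k0,k1,k2,k3,k4,k5] [(z4,[z0,z1,z0,z1]),(z4,[z0,y1,z0,y1,z4])] [],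
    .tor k0 false k1 [(z1,[y1,z0,z0,y1,z1]),(z1,[z1,z0,z1,z1]),(z1,[y1,z0,y1,y1,z1]),(z1,[z1,z0,z0,z1])],
    .lp [(nat_lit 350),(nat_lit 344),(nat_lit 304),(nat_lit 342),(nat_lit 266),(nat_lit 310)] [k0,k0,k3,k3,k23,k23,k4,k4,
    k42,k42,k20,k20] k0 [[k0,k0,k0,k0,k0,k0,k0,k0,k36,k0,k30],[k0,k0,k0,k0,k0,k0,k0,k2],[k0,k0,k0,k0,k20,k0,k0,k0,k0,
    k0,k38],[k0,k0,k0,k0,k0,k0,k0,k10,k0,k4],[k0,k0,k0,k0,k0,k0,k10],[k0,k0,k0,k20],[k2,k0,k10],[k0,k0,k0,k0,k0,k10],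
    [k0,k0,k4],[k0,k36,k0,k0,k0,k0,k0,k0,k0,k0,k0,k2],[k0,k0,k0,k0,k0,k0,k0,k0,k2],[k0,k30,k0,k38]] (nat_lit 960) k5
    [[(k2,(nat_lit 309)),(k8,(nat_lit 310)),(k0,(nat_lit 320)),(k4,(nat_lit 327)),(k10,(nat_lit 330)),(k6,
    (nat_lit 346))],[(k11,(nat_lit 294)),(k9,(nat_lit 310)),(k1,(nat_lit 320)),(k5,(nat_lit 327)),(k7,(nat_lit 346)),
    (k3,(nat_lit 347))],[(k4,(nat_lit 324)),(k6,(nat_lit 341)),(k8,(nat_lit 341)),(k2,(nat_lit 344)),(k0,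
    (nat_lit 347)),(k10,(nat_lit 357))],[(k1,(nat_lit 309)),(k9,(nat_lit 315)),(k7,(nat_lit 323)),(k5,(nat_lit 324)),
    (k11,(nat_lit 331)),(k3,(nat_lit 344))],[(k8,(nat_lit 281)),(k6,(nat_lit 313)),(k2,(nat_lit 324)),(k4,
    (nat_lit 324)),(k0,(nat_lit 327)),(k10,(nat_lit 345))],[(k9,(nat_lit 275)),(k11,(nat_lit 307)),(k7,(nat_lit 323)),
    (k3,(nat_lit 324)),(k5,(nat_lit 324)),(k1,(nat_lit 327))],[(k8,(nat_lit 304)),(k2,(nat_lit 323)),(k4,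
    (nat_lit 323)),(k10,(nat_lit 326)),(k0,(nat_lit 346)),(k6,(nat_lit 352))],[(k9,(nat_lit 304)),(k5,(nat_lit 313)),
    (k11,(nat_lit 326)),(k3,(nat_lit 341)),(k1,(nat_lit 346)),(k7,(nat_lit 352))],[(k8,(nat_lit 266)),(k4,
    (nat_lit 275)),(k10,(nat_lit 288)),(k6,(nat_lit 304)),(k0,(nat_lit 310)),(k2,(nat_lit 315))],[(k9,(nat_lit 266)),
    (k5,(nat_lit 281)),(k11,(nat_lit 288)),(k7,(nat_lit 304)),(k1,(nat_lit 310)),(k3,(nat_lit 341))],[(k8,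
    (nat_lit 288)),(k0,(nat_lit 294)),(k4,(nat_lit 307)),(k10,(nat_lit 308)),(k6,(nat_lit 326)),(k2,(nat_lit 331))],
    [(k9,(nat_lit 288)),(k11,(nat_lit 308)),(k7,(nat_lit 326)),(k1,(nat_lit 330)),(k5,(nat_lit 345)),(k3,
    (nat_lit 357))]]
    [] k0
    [[k2,k0,k0,k0,k1,k0],[k2,k0,k0,k0,k0,k1],[k1,k0,k1,k0,k1,k0],[k1,k0,k0,k0,k2,k0],[k1,k0,k0,k0,k1,k1],[k1,k0,k0,k0,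
    k0,k2],[k0,k1,k1,k0,k1,k0],[k0,k1,k0,k0,k2,k0],[k0,k0,k2,k0,k1,k0],[k0,k0,k1,k1,k1,k0],[k0,k0,k1,k1,k0,k1],[k0,k0,
    k1,k0,k2,k0],[k0,k0,k1,k0,k1,k1],[k0,k0,k0,k1,k2,k0],[k0,k0,k0,k1,k1,k1],[k0,k0,k0,k0,k3,k0],[k0,k0,k0,k0,k2,k1],
    [k0,k0,k0,k0,k1,k2],[k0,k0,k0,k0,k0,k3]]
    [.ref k12 k0 [(z15,[z5,z8,z1,z1,z5,y5]),(z15,[y10,z2,z7,y2,y10,z10]),(z15,[z20,y4,z4,z13,z20,y20]),(z3,[y5,z1,y1,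
    y1,z4,z5]),(z15,[z35,y16,y2,y2,y10,z10])],.ref k12 k0 [(z1,[y1,z1]),(z5,[z10,y4,z3]),(z5,[y20,z8,z0,z3]),(z1,[z5,
    y2,z0,z0,z3]),(z5,[y35,z11,y3,y3,y15,z15])],.ref k12 k0 [(z20,[z5,z12,z1,z0,z5,y5]),(z2,[y1,z0,z1,z0,y1,z1]),(z5,
    [z5,z0,z1,z3,z5,y5]),(z4,[y5,z0,y1,z0,z7,z5]),(z20,[z35,y12,y5,y12,y25,z25])],.ref k12 k0 [(z25,[z5,z16,z2,z2,z10,
    y10]),(z25,[y10,y2,z11,y4,y20,z20]),(z25,[z20,z4,z8,z23,z40,y40]),(z5,[y5,y1,y2,y2,z5,z10]),(z25,[z35,y8,y1,y1,y5,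
    z5])],.ref k12 k0 [(z5,[z5,z3,z1,z1,z5,y5]),(z5,[y10,z0,z1,y2,y10,z10]),(z5,[z20,z0,z4,z7,z20,y20]),(z1,[y5,z0,y1,
    y1,y2,z5]),(z5,[z35,y3,z4,z4,z20,y20])],.ref k12 k0 [(z3,[y1,z2]),(z15,[z10,y2,z9]),(z15,[y20,z4,z0,z9]),(z3,[z5,
    y1,z0,z0,z9]),(z15,[y35,y2,y9,y9,y45,z45])],.ref k12 k0 [(z3,[z1,z2,z0,z0,z1,y1]),(z15,[y10,y2,z9,z0,y10,z10]),
    (z15,[z20,z4,z0,z9,z20,y20]),(z3,[y5,y1,z0,z0,z4,z5]),(z15,[z35,y2,y9,y9,y10,z10])],.ref k12 k0 [(z20,[z5,z14,z1,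
    z2,z10,y10]),(z10,[y5,y2,z5,y2,y10,z10]),(z5,[z5,z2,z1,z5,z10,y10]),(z4,[y5,y2,y1,y2,z2,z10]),(z20,[z35,z2,y5,z2,
    z10,y10])],.ref k12 k0 [(z25,[z5,z16,z1,y1,z5,y5]),(z25,[y10,y2,z13,z2,y10,z10]),(z25,[z20,z4,z4,z11,z20,y20]),
    (z5,[y5,y1,y1,z1,z10,z5]),(z25,[z35,y8,y8,y22,y40,z40])],.ref k12 k0 [(z10,[z5,z7,z1,z0,z0,y5]),(z5,[y5,y1,z2,z0,
    z0,z5]),(z5,[z10,z2,z2,z3,z0,y10]),(z2,[y5,y1,y1,z0,z6,z5]),(z10,[z35,z1,z1,y6,y30,y5])],.ref k12 k0 [(z10,[y5,z6,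
    z0,z1,z5]),(z5,[z5,z0,z3,y1,y5]),(z1,[y2,z0,z0,z1,z2]),(z2,[z5,z0,z0,y1,z1]),(z10,[y35,y6,y6,z1,z5,z30])],
    .ref k12 k0 [(z30,[z5,z20,z2,z1,z10,y10]),(z15,[y5,y2,z7,y1,y10,z10]),(z15,[z10,z4,z4,z11,z20,y20]),(z6,[y5,y2,y2,
    y1,z8,z10]),(z30,[z35,y4,y4,y11,y20,z20])],.ref k12 k0 [(z10,[z5,z7,z1,z0,z5,y5]),(z5,[y5,y1,z2,z0,y5,z5]),(z5,
    [z10,z2,z2,z3,z10,y10]),(z2,[y5,y1,y1,z0,z1,z5]),(z10,[z35,z1,z1,y6,z5,y5])],.ref k12 k0 [(z15,[z5,z11,z2,z2,z5,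
    y10]),(z15,[y10,y4,z5,y4,y10,z20]),(z15,[z20,z8,z8,z17,z20,y40]),(z3,[y5,y2,y2,y2,z4,z10]),(z3,[z7,z1,z1,z1,y2,
    y5])],.ref k12 k0 [(z5,[y5,z2,y1,y1,z0,z5]),(z5,[z10,z2,z5,z2,z0,y10]),(z5,[y20,y4,y4,y1,z0,z20]),(z1,[z5,z1,z1,
    z1,z3,y5]),(z1,[y7,y2,y2,y2,y3,z10])],.ref k12 k0 [(z35,[z5,z24,z3,z3,z15,y15]),(z35,[y10,y6,z15,y6,y30,z30]),
    (z35,[z20,z12,z12,z33,z60,y60]),(z7,[y5,y3,y3,y3,z6,z15]),(z1,[z1])],.ref k12 k0 [(z15,[z5,z11,z2,z2,z10,y10]),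
    (z15,[y10,y4,z5,y4,y20,z20]),(z15,[z20,z8,z8,z17,z40,y40]),(z3,[y5,y2,y2,y2,y1,z10]),(z3,[z7,z1,z1,z1,z5,y5])],
    .ref k12 k0 [(z5,[y5,z2,y1,y1,y5,z5]),(z5,[z10,z2,z5,z2,z10,y10]),(z5,[y20,y4,y4,y1,y20,z20]),(z1,[z5,z1,z1,z1,z8,
    y5]),(z1,[y7,y2,y2,y2,y10,z10])],.ref k12 k0 [(z5,[y1,z3]),(z5,[z2,z0,z3]),(z5,[y4,z0,z0,z3]),(z1,[z1,z0,z0,z0,
    z3]),(z5,[y7,y3,y3,y3,y15,z15])]],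
    .leafM k0 [k0,k1,k2,k3,k4,k5] [(z5,[z0,z1,z1,z1])] [],
    .lp [k160,k174,k162,k162,k136,k164] [k7,k7,k0,k0,k6,k6,k6,k6,k19,k19,k5,k5] k0 [[k0,k0,k0,k0,k0,k0,k0,k0,k12],[k0,k0,
    k0,k0,k0,k8],[k0,k0,k0,k0,k2,k0,k0,k0,k0,k0,k6],[k0,k0,k0,k0,k0,k0,k0,k8],[k8,k0,k0,k0,k0,k0,k20],[k0,k0,k0,k2],
    [k0,k0,k8,k0,k0,k0,k0,k0,k14],[k0,k0,k0,k0,k0,k20,k0,k0,k0,k0,k0,k6],[k0,k0,k0,k0,k0,k0,k0,k0,k0,k0,k22],[k0,k12,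
    k0,k0,k0,k0,k0,k14],[k0,k0,k0,k0,k0,k0,k6],[k0,k0,k0,k6,k0,k0,k0,k0,k0,k22]] (nat_lit 480) k5
    [[(k8,k126),(k0,k160),(k2,k161),(k4,k161),(k10,k162),(k6,k167)],[(k9,k148),(k11,k150),(k1,k160),(k5,k161),(k3,
    k167),(k7,k169)],[(k4,k160),(k0,k167),(k8,k167),(k6,k168),(k10,k169),(k2,k174)],[(k1,k161),(k9,k163),(k7,k166),
    (k5,k168),(k11,k169),(k3,k174)],[(k8,k149),(k6,k154),(k0,k161),(k4,k164),(k2,k168),(k10,k169)],[(k9,k129),(k3,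
    k160),(k1,k161),(k7,k162),(k11,k163),(k5,k164)],[(k8,k149),(k4,k162),(k10,k163),(k2,k166),(k0,k169),(k6,k182)],
    [(k9,k149),(k11,k149),(k5,k154),(k1,k167),(k3,k168),(k7,k182)],[(k4,k129),(k10,k144),(k0,k148),(k6,k149),(k8,
    k150),(k2,k163)],[(k1,k126),(k5,k149),(k7,k149),(k9,k150),(k11,k150),(k3,k167)],[(k6,k149),(k0,k150),(k8,k150),
    (k4,k163),(k2,k169),(k10,k186)],[(k9,k144),(k1,k162),(k7,k163),(k3,k169),(k5,k169),(k11,k186)]]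
    [] k0
    [[k2,k0,k0,k0,k1,k0],[k2,k0,k0,k0,k0,k1],[k1,k1,k0,k0,k1,k0],[k1,k0,k1,k0,k1,k0],[k1,k0,k0,k1,k1,k0],[k1,k0,k0,k0,
    k2,k0],[k1,k0,k0,k0,k1,k1],[k0,k1,k1,k0,k1,k0],[k0,k0,k2,k0,k1,k0],[k0,k0,k1,k1,k1,k0],[k0,k0,k1,k0,k2,k0],[k0,k0,
    k1,k0,k1,k1],[k0,k0,k0,k1,k2,k0],[k0,k0,k0,k1,k1,k1],[k0,k0,k0,k0,k3,k0],[k0,k0,k0,k0,k2,k1]]
    [.ref k12 k0 [(z20,[z5,z11,z1,z1,z1,y5]),(z10,[y5,z1,z5,y1,y1,z5]),(z5,[z5,y1,z1,z4,z1,y5]),(z5,[y10,z2,y2,y2,z1,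
    z10]),(z10,[z25,y11,y1,y1,y1,z5])],.ref k12 k0 [(z1,[y1,z1]),(z5,[z10,y4,z3]),(z5,[y20,z8,z0,z3]),(z5,[z40,y16,z0,
    z0,z3]),(z5,[y50,z17,y3,y3,y3,z15])],.ref k12 k0 [(z15,[z5,z9,z0,z1,z1,y5]),(z15,[y10,z0,z9,y2,y2,z10]),(z15,[z20,
    z0,z0,z13,z4,y20]),(z15,[y40,z0,z0,y8,z1,z40]),(z15,[z50,y9,y9,z1,z1,y5])],.ref k12 k0 [(z25,[z5,z15,z1,z0,z1,
    y5]),(z25,[y10,z0,z13,z0,y2,z10]),(z25,[z20,z0,z4,z15,z4,y20]),(z25,[y40,z0,y8,z0,z7,z40]),(z5,[z10,y3,y1,y3,y1,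
    z5])],.ref k12 k0 [(z5,[z5,z3,z1,z1,z0,y5]),(z5,[y10,z0,z1,y2,z0,z10]),(z5,[z20,z0,z4,z7,z0,y20]),(z5,[y40,z0,y8,
    y8,z3,z40]),(z5,[z50,y3,z7,z7,y3,y35])],.ref k12 k0 [(z35,[z5,z22,z2,z2,z2,y10]),(z35,[y10,y2,z17,y4,y4,z20]),
    (z35,[z20,z4,z8,z29,z8,y40]),(z35,[y40,y8,y16,y16,z5,z80]),(z35,[z50,y11,y1,y1,y1,z5])],.ref k12 k0 [(z10,[z5,z6,
    z1,z1,z1,y5]),(z5,[y5,z0,z2,y1,y1,z5]),(z5,[z10,z0,z2,z5,z2,y10]),(z5,[y20,z0,y4,y4,y1,z20]),(z5,[z25,y3,z2,z2,z2,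
    y10])],.ref k12 k0 [(z20,[z5,z13,z0,z0,z1,y5]),(z10,[y5,y1,z6,z0,y1,z5]),(z5,[z5,z1,z0,z3,z1,y5]),(z5,[y10,y2,z0,
    z0,z1,z10]),(z10,[z25,y1,y6,y6,y1,z5])],.ref k12 k0 [(z30,[z5,z19,z1,y1,z1,y5]),(z15,[y5,y1,z8,z1,y1,z5]),(z15,
    [z10,z2,z2,z7,z2,y10]),(z15,[y20,y4,y4,z4,z5,z20]),(z15,[z25,y4,y4,y14,y4,z20])],.ref k12 k0 [(z10,[z5,z7,z1,z0,
    z0,y5]),(z5,[y5,y1,z2,z0,z0,z5]),(z5,[z10,z2,z2,z3,z0,y10]),(z5,[y20,y4,y4,z0,z3,z20]),(z5,[z25,z2,z2,y3,y3,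
    y10])],.ref k12 k0 [(z40,[z5,z26,z2,z1,z2,y10]),(z20,[y5,y2,z10,y1,y2,z10]),(z10,[z5,z2,z2,z7,z2,y10]),(z5,[y5,y2,
    y2,y1,z1,z10]),(z20,[z25,y2,y2,y7,y2,z10])],.ref k12 k0 [(z15,[z5,z10,z1,z0,z1,y5]),(z15,[y10,y2,z7,z0,y2,z10]),
    (z15,[z20,z4,z4,z9,z4,y20]),(z15,[y40,y8,y8,z0,z1,z40]),(z15,[z50,z1,z1,y9,z1,y5])],.ref k12 k0 [(z20,[z5,z14,z2,
    z2,z1,y10]),(z10,[y5,y2,z4,y2,y1,z10]),(z5,[z5,z2,z2,z5,z1,y10]),(z5,[y10,y4,y4,y4,z1,z20]),(z10,[z25,z4,z4,z4,y1,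
    y20])],.ref k12 k0 [(z5,[y5,z2,y1,y1,z0,z5]),(z5,[z10,z2,z5,z2,z0,y10]),(z5,[y20,y4,y4,y1,z0,z20]),(z5,[z40,z8,z8,
    z8,z3,y40]),(z5,[y50,y13,y13,y13,y3,z65])],.ref k12 k0 [(z50,[z5,z33,z3,z3,z3,y15]),(z25,[y5,y3,z12,y3,y3,z15]),
    (z25,[z10,z6,z6,z21,z6,y30]),(z25,[y20,y12,y12,y12,z3,z60]),(z1,[z1])],.ref k12 k0 [(z25,[z5,z17,z2,z2,z2,y10]),
    (z25,[y10,y4,z11,y4,y4,z20]),(z25,[z20,z8,z8,z23,z8,y40]),(z25,[y40,y16,y16,y16,y1,z80]),(z5,[z10,z1,z1,z1,z1,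
    y5])]],
    .lp [k160,k162,k162,k160,k156,k158] [k1,k1,k0,k0,k0,k0,k1,k1,k3,k3,k2,k2] k0 [[k0,k0,k0,k0,k0,k0,k10,k0,k24],[k0,k0,
    k0,k28],[k28,k0,k0,k0,k0,k0,k0,k0,k0,k0,k12],[k0,k0,k0,k0,k0,k0,k0,k4],[k0,k0,k0,k0,k0,k0,k24],[k0,k0,k0,k0,k0,k0,
    k0,k0,k0,k16,k0,k12],[k0,k0,k4,k0,k0,k0,k0,k0,k10],[k0,k10,k0,k0,k0,k24],[k0,k0,k0,k0,k16,k0,k0,k0,k0,k0,k2],[k0,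
    k24,k0,k0,k0,k0,k0,k10],[k0,k0,k0,k0,k12],[k0,k0,k0,k12,k0,k0,k0,k0,k0,k2]] (nat_lit 480) k5
    [[(k2,k149),(k8,k156),(k10,k159),(k0,k160),(k6,k160),(k4,k173)],[(k11,k135),(k9,k148),(k1,k160),(k7,k160),(k3,
    k161),(k5,k189)],[(k2,k134),(k10,k160),(k0,k161),(k4,k162),(k6,k171),(k8,k183)],[(k3,k134),(k1,k149),(k11,k160),
    (k7,k161),(k5,k162),(k9,k163)],[(k6,k157),(k8,k159),(k2,k162),(k4,k162),(k10,k172),(k0,k189)],[(k9,k135),(k7,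
    k161),(k3,k162),(k5,k162),(k1,k173),(k11,k176)],[(k8,k142),(k10,k147),(k0,k160),(k2,k161),(k4,k161),(k6,k184)],
    [(k11,k149),(k5,k157),(k9,k158),(k1,k160),(k3,k171),(k7,k184)],[(k4,k135),(k0,k148),(k10,k157),(k6,k158),(k2,
    k163),(k8,k166)],[(k7,k142),(k1,k156),(k11,k157),(k5,k159),(k9,k166),(k3,k183)],[(k0,k135),(k6,k149),(k8,k157),
    (k2,k160),(k10,k160),(k4,k176)],[(k7,k147),(k9,k157),(k1,k159),(k3,k160),(k11,k160),(k5,k172)]]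
    [] k0
    [[k2,k1,k0,k0,k0,k0],[k2,k0,k0,k0,k1,k0],[k2,k0,k0,k0,k0,k1],[k1,k2,k0,k0,k0,k0],[k1,k1,k0,k0,k0,k1],[k1,k0,k0,k1,
    k1,k0],[k1,k0,k0,k1,k0,k1],[k1,k0,k0,k0,k2,k0],[k1,k0,k0,k0,k1,k1],[k1,k0,k0,k0,k0,k2],[k0,k3,k0,k0,k0,k0],[k0,k2,
    k1,k0,k0,k0],[k0,k2,k0,k1,k0,k0],[k0,k2,k0,k0,k0,k1],[k0,k1,k0,k1,k1,k0],[k0,k1,k0,k1,k0,k1],[k0,k0,k2,k0,k1,k0],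
    [k0,k0,k1,k1,k1,k0],[k0,k0,k1,k0,k2,k0],[k0,k0,k1,k0,k1,k1],[k0,k0,k0,k1,k2,k0],[k0,k0,k0,k1,k1,k1],[k0,k0,k0,k1,
    k0,k2],[k0,k0,k0,k0,k1,k2]]
    [.ref k12 k0 [(z2,[z5,y2,y5]),(z1,[y2,z2,z5]),(z4,[y5,z5,z5,z3]),(z4,[z1,y1,y1,z0,z3]),(z4,[y2,y4,y10,y3,y3,
    z12])],.ref k12 k0 [(z12,[z20,z8,z20,z5,z5,y20]),(z3,[y4,z2,z5,y1,y1,z4]),(z24,[y20,z10,y20,z13,y5,z20]),(z24,[z4,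
    y2,z4,z1,z19,y4]),(z6,[y2,y8,y20,y5,y5,z20])],.ref k12 k0 [(z4,[z5,z1]),(z1,[y1,z1,z3]),(z8,[y5,z5,z0,z6]),(z8,
    [z1,y1,z0,z0,z6]),(z4,[y1,y5,y12,y3,y3,z12])],.ref k12 k0 [(z1,[y5,z4,z10]),(z1,[z4,y2,y5]),(z4,[z10,y5,y20,z3]),
    (z4,[y2,z1,z4,z0,z3]),(z4,[z4,y8,y20,y3,y3,z12])],.ref k12 k0 [(z1,[z5,y1,y5]),(z1,[y4,z2,z7]),(z4,[y10,z5,z10,
    z3]),(z4,[z2,y1,y2,z0,z3]),(z4,[y4,y4,y8,y3,y3,z12])],.ref k12 k0 [(z6,[z20,z9,z20,z5,z0,y20]),(z3,[y8,z0,z1,y2,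
    z0,z8]),(z3,[y5,z0,y5,z1,z0,z5]),(z12,[z4,z0,z4,z1,z9,y4]),(z12,[y8,y18,y44,y11,y9,z44])],.ref k12 k0 [(z2,[z4,z1,
    z0,z0,y1]),(z5,[y8,z4,z15,z0,z2]),(z4,[y4,z2,z0,z3,z1]),(z10,[z2,y1,z0,z0,z7]),(z20,[y8,y26,y60,y15,y13,z60])],
    .ref k12 k0 [(z2,[z10,z8,z20,z5,z5,y20]),(z1,[y4,y2,y5,y2,y2,z8]),(z4,[y10,y5,y20,y2,y5,z20]),(z4,[z2,z1,z4,z1,z4,
    y4]),(z4,[y4,y8,y20,y5,y5,z20])],.ref k12 k0 [(z8,[z20,z12,z20,z5,z5,y20]),(z2,[y4,z0,z2,y1,y1,z4]),(z16,[y20,z0,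
    y20,z7,y5,z20]),(z16,[z4,z0,z4,z1,z13,y4]),(z8,[y4,y12,y28,y7,y7,z28])],.ref k12 k0 [(z3,[z5,z2]),(z3,[y4,z2,z9]),
    (z12,[y10,z5,z0,z9]),(z12,[z2,y1,z0,z0,z9]),(z12,[y4,y16,y36,y9,y9,z36])],.ref k12 k0 [(z4,[y5,z6,z15]),(z1,[z1]),
    (z8,[z5,z0,y15,z6]),(z8,[y1,z0,z3,z0,z6]),(z4,[z1,y6,y15,y3,y3,z12])],.ref k12 k0 [(z14,[y20,z21,z40,z5]),(z7,[z8,
    z0,z5,y2]),(z7,[z5,z0,y10,z4]),(z28,[y4,z0,z8,z1,z21]),(z28,[z8,y42,y100,y23,y21,z84])],.ref k12 k0 [(z2,[y4,z3,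
    z8,z0,z1]),(z5,[z8,z0,y1,z0,y2]),(z4,[z4,z0,y8,z3,y1]),(z5,[y1,z0,z2,z0,z4]),(z20,[z8,y30,y76,y15,y17,z60])],
    .ref k12 k0 [(z2,[y5,z3,z10]),(z1,[z2,z0,y1]),(z4,[z5,z0,y10,z3]),(z4,[y1,z0,z2,z0,z3]),(z4,[z2,y6,y16,y3,y3,
    z12])],.ref k12 k0 [(z6,[y20,y1,z0,y5,z0,z20]),(z3,[z8,z4,z9,z2,z0,y8]),(z6,[z10,z5,z0,z7,z0,y10]),(z12,[y4,y2,z0,
    y1,z9,z4]),(z12,[z8,y14,y36,y7,y9,z28])],.ref k12 k0 [(z2,[y20,z3,z20,z0,z5]),(z1,[z8,z0,y5,z0,y2]),(z4,[z20,z0,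
    y20,z3,y5]),(z1,[y1,z0,z1,z0,z1]),(z4,[z8,y6,y20,y3,y5,z12])],.ref k12 k0 [(z8,[y20,z2,y20,z5,y5,z20]),(z2,[z4,z2,
    z10,y1,z1,y4]),(z16,[z20,z10,z20,z7,z5,y20]),(z16,[y4,y2,y4,z1,z11,z4]),(z8,[z4,y10,y20,y7,y5,z20])],
    .ref k12 k0 [(z1,[y5,y1,y5,z0,z0,z5]),(z1,[z4,z2,z7,z0,z0,y4]),(z4,[z10,z5,z10,z3,z0,y10]),(z4,[y2,y1,y2,z0,z3,
    z2]),(z4,[z4,y4,y8,y3,y3,z8])],.ref k12 k0 [(z6,[y20,y11,y40,y5,y10,z40]),(z3,[z8,z8,z25,z2,z4,y16]),(z6,[z10,z10,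
    z20,z7,z5,y20]),(z12,[y4,y4,y8,y1,z7,z8]),(z12,[z8,y10,y20,y7,y5,z20])],.ref k12 k0 [(z2,[y20,y7,y20,z0,y5,z20]),
    (z1,[z8,z4,z11,z0,z2,y8]),(z4,[z20,z10,z20,z3,z5,y20]),(z2,[y2,y1,y2,z0,z1,z2]),(z4,[z8,y2,y4,y3,y1,z4])],
    .ref k12 k0 [(z2,[y20,y17,y40,y10,y5,z40]),(z1,[z8,z8,z19,z4,z2,y16]),(z4,[z20,z20,z40,z13,z5,y40]),(z2,[y2,y2,y4,
    y1,z1,z4]),(z4,[z8,z2,z4,z1,y1,y4])],.ref k12 k0 [(z2,[z20,z13,z20,z5,z0,y20]),(z1,[y8,y4,y5,y2,z0,z8]),(z2,[y10,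
    y5,y10,y1,z0,z10]),(z4,[z4,z2,z4,z1,z3,y4]),(z4,[y8,y10,y20,y5,y3,z20])],.ref k12 k0 [(z6,[z20,z9,z0,z0,y5]),(z3,
    [y8,z0,z9,z0,z2]),(z12,[y20,z0,z0,z9,z5]),(z3,[z1,z0,z0,z0,z2]),(z12,[y8,y18,y36,y9,y7,z36])],.ref k12 k0 [(z4,
    [z20,z16,z20,z5,z5,y20]),(z1,[y4,y2,y1,y1,y1,z4]),(z8,[y20,y10,y20,z1,y5,z20]),(z8,[z4,z2,z4,z1,z7,y4]),(z1,[y1,
    y2,y4,y1,y1,z4])]],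
    .lp [k150,k168,k168,k164,k148,k160] [k15,k15,k6,k6,k0,k12,k8,k8,k16,k16,k15,k5] k0 [[k0,k0,k0,k0,k0,k0,k12,k0,k40],
    [k0,k0,k0,k8,k0,k0,k0,k0,k0,k0,k0,k16],[k8,k0,k0,k0,k0,k0,k0,k0,k0,k0,k14],[k0,k0,k0,k0,k0,k0,k0,k20,k0,k8],[k0,
    k0,k0,k0,k0,k0,k44],[k0,k0,k0,k0,k0,k0,k0,k0,k0,k36,k0,k28],[k0,k0,k20,k0,k0,k0,k0,k0,k24],[k0,k12,k0,k0,k0,k44],
    [k0,k0,k8,k0,k36],[k0,k40,k0,k0,k0,k0,k0,k24],[k16,k0,k0,k0,k28],[k0,k0,k0,k14]] (nat_lit 480) k5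
    [[(k2,k145),(k8,k149),(k10,k150),(k6,k157),(k0,k166),(k4,k193)],[(k11,k120),(k9,k137),(k7,k157),(k3,k159),(k5,
    k161),(k1,k166)],[(k10,k143),(k0,k159),(k2,k160),(k4,k174),(k6,k178),(k8,k198)],[(k1,k145),(k3,k160),(k5,k162),
    (k7,k166),(k11,k177),(k9,k178)],[(k6,k140),(k8,k144),(k0,k161),(k2,k162),(k10,k167),(k4,k168)],[(k9,k120),(k5,
    k168),(k7,k172),(k3,k174),(k1,k193),(k11,(nat_lit 211))],[(k8,k120),(k10,k129),(k0,k157),(k2,k166),(k4,k172),(k6,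
    (nat_lit 208))],[(k5,k140),(k11,k143),(k9,k156),(k1,k157),(k3,k178),(k7,(nat_lit 208))],[(k4,k120),(k0,k137),(k10,
    k149),(k6,k156),(k8,k172),(k2,k178)],[(k7,k120),(k5,k144),(k1,k149),(k11,k159),(k9,k172),(k3,k198)],[(k0,k120),
    (k6,k143),(k8,k159),(k10,k160),(k2,k177),(k4,(nat_lit 211))],[(k7,k129),(k3,k143),(k9,k149),(k1,k150),(k11,k160),
    (k5,k167)]]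
    [] k0
    [[k2,k1,k0,k0,k0,k0],[k2,k0,k0,k0,k1,k0],[k2,k0,k0,k0,k0,k1],[k1,k2,k0,k0,k0,k0],[k1,k1,k0,k0,k0,k1],[k1,k0,k1,k0,
    k1,k0],[k1,k0,k0,k1,k1,k0],[k1,k0,k0,k1,k0,k1],[k1,k0,k0,k0,k2,k0],[k1,k0,k0,k0,k1,k1],[k1,k0,k0,k0,k0,k2],[k0,k1,
    k0,k1,k1,k0],[k0,k1,k0,k1,k0,k1],[k0,k0,k2,k0,k1,k0],[k0,k0,k1,k1,k1,k0],[k0,k0,k1,k0,k2,k0],[k0,k0,k1,k0,k1,k1],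
    [k0,k0,k0,k1,k2,k0],[k0,k0,k0,k1,k1,k1],[k0,k0,k0,k1,k0,k2],[k0,k0,k0,k0,k1,k2]]
    [.ref k12 k0 [(z8,[y8,z5,z1]),(z4,[z20,y5,y1]),(z4,[y40,z10,z5,z3]),(z4,[z8,y2,y1,z0,z3]),(z8,[y32,z5,z1,y6,y6,
    z24])],.ref k12 k0 [(z16,[z8,z5,z1,z2,z2,y8]),(z16,[y40,z5,z1,y10,y10,z40]),(z8,[z40,y5,z5,z16,z10,y40]),(z8,[y8,
    z1,y1,y2,z4,z8]),(z8,[z16,y5,y1,y2,y2,z8])],.ref k12 k0 [(z2,[y1,z1]),(z8,[z20,y5,z3]),(z4,[y20,z5,z0,z3]),(z4,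
    [z4,y1,z0,z0,z3]),(z8,[y16,z1,y3,y6,y6,z24])],.ref k12 k0 [(z12,[y4,z5,z1]),(z24,[z40,y5,y1]),(z12,[y40,z5,z10,
    z9]),(z12,[z8,y1,y2,z0,z9]),(z24,[y32,y5,y1,y18,y18,z72])],.ref k12 k0 [(z32,[y8,z13,z1]),(z32,[z40,y5,z7]),(z16,
    [y40,z5,z5,z12]),(z16,[z8,y1,y1,z0,z12]),(z4,[y4,y1,y1,y3,y3,z12])],.ref k12 k0 [(z40,[z8,z15,z1,z0,z2,y8]),(z4,
    [y4,z0,z1,z0,y1,z4]),(z4,[z8,z0,z1,z3,z2,y8]),(z20,[y8,z0,y1,z0,z13,z8]),(z40,[z32,y15,y11,y30,y22,z88])],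
    .ref k12 k0 [(z8,[z8,z3,z1,z2,z0,y8]),(z4,[y20,z0,y1,y5,z0,z20]),(z4,[z40,z0,z5,z13,z0,y40]),(z4,[y8,z0,y1,y2,z3,
    z8]),(z8,[z32,y3,z1,z2,y6,y8])],.ref k12 k0 [(z12,[y4,z5,z0,z0,z1]),(z24,[z40,y5,z9,z0,y10]),(z12,[y40,z5,z0,z9,
    z10]),(z12,[z8,y1,z0,z0,z7]),(z24,[y32,y5,y9,y18,y10,z72])],.ref k12 k0 [(z12,[z4,z5,z1,z2,z2,y8]),(z24,[y40,y5,
    y1,y20,y20,z80]),(z12,[z40,z5,z10,z29,z20,y80]),(z12,[y8,y1,y2,y4,z5,z16]),(z24,[z32,y5,y1,y2,y2,z8])],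
    .ref k12 k0 [(z8,[y8,z3,y1,y2,y2,z8]),(z4,[z20,z0,z4,z5,z5,y20]),(z4,[y40,z0,y5,y7,y10,z40]),(z4,[z8,z0,z1,z2,z5,
    y8]),(z8,[y32,y3,y7,y14,y14,z56])],.ref k12 k0 [(z5,[y1,z2]),(z8,[z8,y1,z3]),(z4,[y8,z1,z0,z3]),(z20,[z8,y1,z0,z0,
    z15]),(z40,[y32,y11,y15,y30,y30,(Int.ofNat (nat_lit 120))])],.ref k12 k0 [(z4,[y4,z1,z0,y1,z0,z4]),(z8,[z40,z5,z3,
    z10,z0,y40]),(z4,[y40,y5,z0,y7,z0,z40]),(z4,[z8,z1,z0,z2,z3,y8]),(z8,[y32,y7,y3,y14,y6,z56])],.ref k12 k0 [(z40,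
    [y8,z15,z1,z0,z2]),(z4,[z4,z0,z1,z0,y1]),(z4,[y8,z0,z1,z3,z2]),(z20,[z8,z0,y1,z0,z13]),(z40,[y32,y15,y11,y30,y22,
    (Int.ofNat (nat_lit 120))])],.ref k12 k0 [(z64,[z8,z25,z1,y2,z2,y8]),(z64,[y40,y5,z19,z10,y10,z40]),(z32,[z40,z5,
    z5,z14,z10,y40]),(z32,[y8,y1,y1,z2,z22,z8]),(z16,[z8,y5,y5,y14,y10,z40])],.ref k12 k0 [(z32,[z8,z13,z1,z0,z0,y8]),
    (z32,[y40,y5,z7,z0,z0,z40]),(z16,[z40,z5,z5,z12,z0,y40]),(z16,[y8,y1,y1,z0,z12,z8]),(z4,[z4,y1,y1,y3,y3,z8])],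
    .ref k12 k0 [(z24,[z4,z10,z1,z1,z2,y8]),(z24,[y20,y5,z4,y5,y10,z40]),(z12,[z20,z5,z5,z14,z10,y40]),(z12,[y4,y1,y1,
    y1,z7,z8]),(z24,[z16,y5,y5,y14,y10,z40])],.ref k12 k0 [(z16,[z8,z7,z1,z0,z2,y8]),(z16,[y40,y5,z1,z0,y10,z40]),(z8,
    [z40,z5,z5,z6,z10,y40]),(z8,[y8,y1,y1,z0,z4,z8]),(z8,[z16,y1,y1,y6,y2,z8])],.ref k12 k0 [(z8,[z4,z4,z1,z2,z1,y8]),
    (z8,[y20,y5,y2,y10,y5,z40]),(z4,[z20,z5,z5,z13,z5,y40]),(z4,[y4,y1,y1,y2,z2,z8]),(z8,[z16,z1,z1,z2,y2,y8])],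
    .ref k12 k0 [(z16,[y8,z5,y1,y2,z0,z8]),(z16,[z40,z5,z11,z10,z0,y40]),(z8,[y40,y5,y5,y4,z0,z40]),(z8,[z8,z1,z1,z2,
    z6,y8]),(z8,[y16,y5,y5,y10,y6,z40])],.ref k12 k0 [(z24,[y4,z9,z0,z0,z1]),(z24,[z20,z0,z9,z0,y5]),(z12,[y20,z0,z0,
    z9,z5]),(z3,[z1,z0,z0,z0,z2]),(z24,[y16,y9,y9,y18,y14,z72])],.ref k12 k0 [(z32,[y8,z11,y1,y2,y2,z8]),(z32,[z40,z5,
    z17,z10,z10,y40]),(z16,[y40,y5,y5,z2,y10,z40]),(z16,[z8,z1,z1,z2,z14,y8]),(z2,[y2,y1,y1,y2,y2,z8])]],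
    .lp [k160,k160,k174,k148,k168,k148] [k7,k7,k7,k7,k0,k0,k13,k13,k3,k3,k13,k13] k0 [[k0,k0,k0,k0,k0,k0,k24,k0,k4],[],[],
    [k0,k0,k0,k0,k0,k12,k0,k4],[k0,k0,k12],[k0,k0,k0,k0,k0,k0,k0,k12,k0,k0,k0,k2],[k0,k0,k4,k0,k12],[k0,k24,k0,k0,k0,
    k0,k0,k0,k0,k4],[k0,k0,k0,k0,k0,k0,k4,k0,k0,k0,k34],[k0,k4],[k0,k0,k0,k0,k2],[k0,k0,k0,k0,k0,k0,k0,k0,k0,
    k34]] (nat_lit 480) k5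
    [[(k8,k130),(k6,k154),(k10,k154),(k0,k160),(k2,k160),(k4,k169)],[(k9,k140),(k11,k150),(k7,k154),(k1,k160),(k3,
    k160),(k5,k167)],[(k10,k154),(k0,k160),(k2,k160),(k4,k167),(k8,k168),(k6,k178)],[(k11,k154),(k1,k160),(k3,k160),
    (k7,k166),(k5,k167),(k9,k168)],[(k6,k157),(k10,k161),(k4,k162),(k0,k167),(k2,k167),(k8,k171)],[(k7,k161),(k11,
    k161),(k5,k162),(k3,k167),(k1,k169),(k9,k183)],[(k6,k136),(k10,k146),(k0,k154),(k8,k158),(k4,k161),(k2,k166)],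
    [(k7,k136),(k11,k152),(k1,k154),(k5,k157),(k9,k158),(k3,k178)],[(k0,k140),(k6,k158),(k10,k158),(k8,k164),(k2,
    k168),(k4,k183)],[(k1,k130),(k7,k158),(k11,k158),(k9,k164),(k3,k168),(k5,k171)],[(k0,k150),(k6,k152),(k2,k154),
    (k8,k158),(k4,k161),(k10,k182)],[(k7,k146),(k1,k154),(k3,k154),(k9,k158),(k5,k161),(k11,k182)]]
    [] k0
    [[k2,k0,k0,k1,k0,k0],[k2,k0,k0,k0,k1,k0],[k2,k0,k0,k0,k0,k1],[k1,k1,k0,k0,k1,k0],[k1,k1,k0,k0,k0,k1],[k1,k0,k0,k2,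
    k0,k0],[k1,k0,k0,k1,k1,k0],[k1,k0,k0,k1,k0,k1],[k1,k0,k0,k0,k2,k0],[k1,k0,k0,k0,k1,k1],[k0,k2,k0,k0,k0,k1],[k0,k1,
    k0,k1,k0,k1],[k0,k0,k1,k2,k0,k0],[k0,k0,k1,k1,k0,k1],[k0,k0,k0,k3,k0,k0],[k0,k0,k0,k2,k1,k0],[k0,k0,k0,k2,k0,k1],
    [k0,k0,k0,k1,k1,k1]]
    [.ref k12 k0 [(z3,[z12,y5,z0,z0,y2]),(z3,[y6,z4,z3,z0,z1]),(z6,[z6,y4,z0,z3,y1]),(z3,[y15,z10,z0,z0,z4]),(z2,[z0,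
    y2,y2,y1,y1,z6])],.ref k12 k0 [(z4,[z6,z2,z2,z1,z1,y6]),(z8,[y6,z2,z6,y1,y1,z6]),(z16,[z6,y2,z2,z9,z1,y6]),(z16,
    [y30,z10,y10,y5,z3,z30]),(z2,[z0,y2,y2,y1,y1,z6])],.ref k12 k0 [(z5,[z6,z1]),(z5,[y3,z2,z5]),(z10,[z3,y2,z0,z5]),
    (z2,[y3,z2,z0,z0,z1]),(z2,[z0,y2,y2,y1,y1,z6])],.ref k12 k0 [(z1,[z6,z1,z0,z1,z1,y6]),(z2,[y6,z0,z2,y1,y1,z6]),
    (z4,[z6,z0,z0,z3,z1,y6]),(z4,[y30,z0,z0,y5,y3,z30]),(z2,[z0,y2,y2,y1,y1,z6])],.ref k12 k0 [(z1,[z3,z0,y1]),(z2,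
    [y3,z1,z3]),(z4,[z3,y1,y1,z2]),(z4,[y15,z5,z5,z0,z2]),(z2,[z0,y2,y2,y1,y1,z6])],.ref k12 k0 [(z3,[y6,z5,z0,z0,
    z2]),(z3,[z3,y1,z3,z0,y1]),(z6,[y3,z1,z0,z3,z1]),(z6,[z15,y5,z0,z0,y2]),(z2,[z0,y2,y2,y1,y1,z6])],
    .ref k12 k0 [(z1,[y12,z1,y4,y2,z0,z12]),(z1,[z6,z0,z3,z1,z0,y6]),(z1,[y3,z0,y1,z0,z0,z3]),(z2,[z30,z0,z10,z5,z1,
    y30]),(z2,[z0,y2,y2,y1,y1,z6])],.ref k12 k0 [(z1,[z12,y3,z0,z0,y2]),(z1,[y6,z2,z1,z0,z1]),(z2,[z6,y2,z0,z1,y1]),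
    (z1,[y15,z5,z0,z0,z3]),(z2,[z0,y2,y2,y1,y1,z6])],.ref k12 k0 [(z1,[z3,z2,z2,z1,z1,y6]),(z2,[y3,y1,z0,y1,y1,z6]),
    (z4,[z3,z1,z2,z3,z1,y6]),(z4,[y15,y5,y10,y5,y3,z30]),(z2,[z0,y2,y2,y1,y1,z6])],.ref k12 k0 [(z3,[z6,z3,z2,z1,z1,
    y6]),(z6,[y6,z0,z4,y1,y1,z6]),(z12,[z6,z0,z2,z7,z1,y6]),(z12,[y30,z0,y10,y5,z1,z30]),(z2,[z0,y2,y2,y1,y1,z6])],
    .ref k12 k0 [(z1,[y6,z1,z4]),(z1,[z3,z0,y1]),(z2,[y3,z0,z2,z1]),(z2,[z15,z0,y10,z0,z1]),(z2,[z0,y2,y2,y1,y1,z6])],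
    .ref k12 k0 [(z5,[y12,z5,z4,z0,z2]),(z5,[z6,z0,z3,z0,y1]),(z10,[y6,z0,z2,z5,z1]),(z1,[z3,z0,y1]),(z2,[z0,y2,y2,y1,
    y1,z6])],.ref k12 k0 [(z9,[y12,z9,z0,z2,z4]),(z9,[z6,z0,z9,y1,y2]),(z9,[y3,z0,z0,z5,z1]),(z18,[z30,z0,z0,y5,y1]),
    (z2,[z0,y2,y2,y1,y1,z6])],.ref k12 k0 [(z1,[y6,z1,z0,z1,z1]),(z2,[z6,z0,z2,y1,y1]),(z4,[y6,z0,z0,z3,z1]),(z4,[z30,
    z0,z0,y5,y3]),(z2,[z0,y2,y2,y1,y1,z6])],.ref k12 k0 [(z5,[y4,z5,z0,z0,z2]),(z5,[z2,z0,z5,z0,y1]),(z10,[y2,z0,z0,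
    z5,z1]),(z1,[z1]),(z2,[z0,y2,y2,y1,y1,z6])],.ref k12 k0 [(z5,[y6,z3,y2,y1,z1,z6]),(z10,[z6,z2,z12,z1,y1,y6]),(z20,
    [y6,y2,y2,z9,z1,z6]),(z4,[z6,z2,z2,z1,z1,y6]),(z2,[z0,y2,y2,y1,y1,z6])],.ref k12 k0 [(z2,[y3,z2,z0,z0,z1]),(z4,
    [z3,z0,z4,z0,y1]),(z8,[y3,z0,z0,z4,z1]),(z8,[z15,z0,z0,z0,y1]),(z2,[z0,y2,y2,y1,y1,z6])],.ref k12 k0 [(z3,[y12,y1,
    y4,y2,z0,z12]),(z3,[z6,z2,z5,z1,z0,y6]),(z3,[y3,y1,y1,z1,z0,z3]),(z6,[z30,z10,z10,z5,z3,y30]),(z2,[z0,y2,y2,y1,y1,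
    z6])]]]

noncomputable def cT6_3_n0_3 : List TN :=
  [.lp [k42,k44,k40,k38,k33,k42] [k1,k1,k0,k0,k2,k2,k3,k3,k10,k1,k1,k1] k0 [[k0,k0,k0,k0,k0,k0,k0,k0,k1,k0,k1],[k0,k0,k0,
    k0,k0,k0,k0,k2],[k0,k0,k0,k0,k2],[],[k0,k0,k0,k0,k0,k0,k11],[k0,k0,k0,k2],[k2],[k0,k0,k0,k0,k0,k11],[],[k0,k1,k0,
    k0,k0,k0,k0,k0,k0,k0,k0,k2],[k0,k0,k0,k0,k0,k0,k0,k0,k2],[k0,k1]] k120 k5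
    [[(k8,k35),(k6,k40),(k0,k41),(k4,k41),(k10,k42),(k2,k43)],[(k7,k40),(k1,k41),(k5,k41),(k11,k41),(k3,k43),(k9,
    k44)],[(k8,k35),(k6,k39),(k4,k42),(k0,k43),(k2,k44),(k10,k44)],[(k7,k39),(k5,k42),(k1,k43),(k9,k43),(k11,k43),(k3,
    k44)],[(k8,k32),(k6,k39),(k0,k41),(k10,k41),(k2,k42),(k4,k42)],[(k9,k30),(k7,k39),(k1,k41),(k11,k41),(k3,k42),(k5,
    k42)],[(k8,k31),(k2,k39),(k4,k39),(k0,k40),(k10,k40),(k6,k49)],[(k3,k39),(k5,k39),(k1,k40),(k9,k40),(k11,k40),(k7,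
    k49)],[(k4,k30),(k8,k33),(k6,k40),(k10,k42),(k2,k43),(k0,k44)],[(k7,k31),(k5,k32),(k9,k33),(k11,k33),(k1,k35),(k3,
    k35)],[(k8,k33),(k6,k40),(k10,k40),(k0,k41),(k4,k41),(k2,k43)],[(k7,k40),(k11,k40),(k5,k41),(k1,k42),(k9,k42),(k3,
    k44)]]
    [] k0
    [[k1,k0,k1,k0,k1,k0],[k1,k0,k0,k1,k1,k0],[k1,k0,k0,k0,k2,k0],[k1,k0,k0,k0,k1,k1],[k0,k1,k1,k0,k1,k0],[k0,k1,k0,k1,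
    k1,k0],[k0,k1,k0,k0,k2,k0],[k0,k0,k2,k0,k1,k0],[k0,k0,k1,k1,k1,k0],[k0,k0,k1,k0,k2,k0],[k0,k0,k1,k0,k1,k1],[k0,k0,
    k0,k1,k2,k0],[k0,k0,k0,k1,k1,k1],[k0,k0,k0,k0,k3,k0],[k0,k0,k0,k0,k2,k1],[k0,k0,k0,k0,k1,k2]]
    [.ref k12 k0 [(z7,[z12,z3,z0,y2]),(z7,[y6,z2,z7,z1]),(z7,[z3,y1,z0,z3]),(z14,[y30,z10,z0,z5,z7]),(z7,[z6,y2,z0,
    y1])],.ref k12 k0 [(z1,[z12,y3,z0,z0,y2]),(z1,[y6,z2,z1,z0,z1]),(z2,[z6,y2,z0,z1,y1]),(z1,[y15,z5,z0,z0,z3]),(z1,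
    [z6,y2,z0,z0,y1])],.ref k12 k0 [(z2,[z3,z1]),(z4,[y3,z1,z4]),(z8,[z3,y1,z0,z4]),(z8,[y15,z5,z0,z0,z4]),(z4,[z3,
    y1])],.ref k12 k0 [(z3,[z6,z3,z2,z1,z1,y6]),(z6,[y6,z0,z4,y1,y1,z6]),(z12,[z6,z0,z2,z7,z1,y6]),(z12,[y30,z0,y10,
    y5,z1,z30]),(z6,[z6,z0,z2,z1,z1,y6])],.ref k12 k0 [(z1,[z12,z1,y4,y2]),(z1,[y6,z0,z3,z1]),(z1,[z3,z0,y1]),(z2,
    [y30,z0,z10,z5,z1]),(z1,[z6,z0,y2,y1])],.ref k12 k0 [(z5,[y12,z5,z4,z0,z2]),(z5,[z6,z0,z3,z0,y1]),(z10,[y6,z0,z2,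
    z5,z1]),(z1,[z3,z0,y1]),(z5,[y6,z0,z2,z0,z1])],.ref k12 k0 [(z1,[z6,z1,y2]),(z1,[y3,z0,z2]),(z2,[z3,z0,y1,z1]),
    (z2,[y15,z0,z5,z0,z1]),(z1,[z3,z0,y1])],.ref k12 k0 [(z1,[z3,z1,z0,y1]),(z2,[y3,z0,z2,z1]),(z4,[z3,z0,z0,z1]),(z4,
    [y15,z0,z0,z5,z2]),(z2,[z3,z0,z0,y1])],.ref k12 k0 [(z1,[y6,z1,z0,z1,z1]),(z2,[z6,z0,z2,y1,y1]),(z4,[y6,z0,z0,z3,
    z1]),(z4,[z30,z0,z0,y5,y3]),(z2,[y6,z0,z0,z1,z1])],.ref k12 k0 [(z5,[z12,z5,z0,y2]),(z5,[y6,z0,z5,z1]),(z5,[z3,z0,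
    z0,z2]),(z2,[y6,z0,z0,z1,z1]),(z5,[z6,z0,z0,y1])],.ref k12 k0 [(z3,[z12,z7,z4,z0,z2,y12]),(z3,[y6,y2,z1,z0,y1,
    z6]),(z6,[z6,z2,z2,z3,z1,y6]),(z3,[y15,y5,y5,z0,y1,z15]),(z3,[z6,z2,z2,z0,z1,y6])],.ref k12 k0 [(z1,[y12,z1,z0,z0,
    z2]),(z1,[z6,z0,z1,z0,y1]),(z2,[y6,z0,z0,z1,z1]),(z1,[z15,z0,z0,z0,y2]),(z1,[y6,z0,z0,z0,z1])],.ref k12 k0 [(z3,
    [y12,y1,y4,y2,z0,z12]),(z3,[z6,z2,z5,z1,z0,y6]),(z3,[y3,y1,y1,z1,z0,z3]),(z6,[z30,z10,z10,z5,z3,y30]),(z3,[y6,y2,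
    y2,y1,z0,z6])],.ref k12 k0 [(z1,[z2,z1]),(z1,[y1,z0,z1]),(z2,[z1,z0,z0,z1]),(z2,[y5,z0,z0,z0,z1]),(z1,[z1])],
    .ref k12 k0 [(z2,[z6,z4,z2,z1,z1,y6]),(z4,[y6,y2,z2,y1,y1,z6]),(z8,[z6,z2,z2,z5,z1,y6]),(z8,[y30,y10,y10,y5,y1,
    z30]),(z4,[z6,z2,z2,z1,z1,y6])],.ref k12 k0 [(z1,[z6,z5,z4,z2,z2,y12]),(z1,[y3,y2,y1,y1,y1,z6]),(z2,[z3,z2,z2,z2,
    z1,y6]),(z2,[y15,y10,y10,y5,y4,z30]),(z1,[z3,z2,z2,z1,z1,y6])]],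
    .lp [(nat_lit 322),(nat_lit 326),(nat_lit 320),(nat_lit 318),(nat_lit 306),(nat_lit 326)] [k2,k2,k0,k0,k3,k3,k4,k4,
    k10,k10,k0,k0] k0 [[k0,k0,k0,k0,k0,k0,k0,k0,k2,k0,k2],[k0,k0,k0,k0,k0,k2,k0,k4],[k0,k0,k0,k0,k2],[k0,k0,k0,k0,k0,
    k0,k0,k0,k0,k10],[k2,k0,k0,k0,k0,k0,k0,k0,k0,k0,k2],[k0,k0,k0,k2,k0,k0,k0,k38],[k4,k0,k0,k0,k38],[k0,k0,k0,k0,k0,
    k0,k0,k0,k0,k0,k0,k10],[k0,k0,k10],[k0,k2,k0,k0,k0,k0,k0,k0,k0,k0,k0,k12],[k0,k0,k0,k0,k0,k0,k10,k0,k12],[k0,k2,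
    k0,k0,k0,k2]] (nat_lit 960) k5
    [[(k4,(nat_lit 319)),(k0,(nat_lit 320)),(k2,(nat_lit 324)),(k10,(nat_lit 324)),(k8,(nat_lit 326)),(k6,
    (nat_lit 330))],[(k9,(nat_lit 318)),(k1,(nat_lit 320)),(k5,(nat_lit 321)),(k7,(nat_lit 322)),(k11,(nat_lit 322)),
    (k3,(nat_lit 324))],[(k6,(nat_lit 318)),(k8,(nat_lit 318)),(k4,(nat_lit 321)),(k0,(nat_lit 324)),(k2,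
    (nat_lit 326)),(k10,(nat_lit 328))],[(k9,(nat_lit 316)),(k7,(nat_lit 320)),(k5,(nat_lit 323)),(k1,(nat_lit 324)),
    (k3,(nat_lit 326)),(k11,(nat_lit 336))],[(k8,(nat_lit 303)),(k6,(nat_lit 319)),(k0,(nat_lit 321)),(k4,
    (nat_lit 322)),(k2,(nat_lit 323)),(k10,(nat_lit 323))],[(k1,(nat_lit 319)),(k7,(nat_lit 319)),(k3,(nat_lit 321)),
    (k5,(nat_lit 322)),(k11,(nat_lit 323)),(k9,(nat_lit 351))],[(k6,(nat_lit 280)),(k8,(nat_lit 312)),(k4,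
    (nat_lit 319)),(k2,(nat_lit 320)),(k0,(nat_lit 322)),(k10,(nat_lit 324))],[(k7,(nat_lit 280)),(k9,(nat_lit 312)),
    (k3,(nat_lit 318)),(k5,(nat_lit 319)),(k11,(nat_lit 322)),(k1,(nat_lit 330))],[(k8,(nat_lit 306)),(k10,
    (nat_lit 306)),(k6,(nat_lit 312)),(k2,(nat_lit 316)),(k0,(nat_lit 318)),(k4,(nat_lit 351))],[(k5,(nat_lit 303)),
    (k9,(nat_lit 306)),(k7,(nat_lit 312)),(k11,(nat_lit 316)),(k3,(nat_lit 318)),(k1,(nat_lit 326))],[(k10,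
    (nat_lit 314)),(k8,(nat_lit 316)),(k0,(nat_lit 322)),(k6,(nat_lit 322)),(k4,(nat_lit 323)),(k2,(nat_lit 336))],
    [(k9,(nat_lit 306)),(k11,(nat_lit 314)),(k5,(nat_lit 323)),(k1,(nat_lit 324)),(k7,(nat_lit 324)),(k3,
    (nat_lit 328))]]
    [] k0
    [[k1,k0,k1,k0,k1,k0],[k1,k0,k0,k2,k0,k0],[k1,k0,k0,k0,k2,k0],[k1,k0,k0,k0,k1,k1],[k0,k1,k1,k0,k1,k0],[k0,k1,k0,k2,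
    k0,k0],[k0,k1,k0,k1,k1,k0],[k0,k1,k0,k0,k2,k0],[k0,k0,k1,k2,k0,k0],[k0,k0,k1,k1,k1,k0],[k0,k0,k1,k0,k1,k1],[k0,k0,
    k0,k3,k0,k0],[k0,k0,k0,k2,k1,k0],[k0,k0,k0,k2,k0,k1],[k0,k0,k0,k1,k2,k0],[k0,k0,k0,k1,k1,k1],[k0,k0,k0,k0,k3,k0],
    [k0,k0,k0,k0,k2,k1],[k0,k0,k0,k0,k1,k2],[k0,k0,k0,k0,k0,k3]]
    [.ref k28 k1 [(z1,[y4,y3,z0,z2]),(z1,[z4,z1,z0,y2]),(z1,[z0,z1,y4,y2,z4]),(z1,[z0,y1,z0,z2])],.ref k9 k0 [(z1,[y2,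
    z1,y4,y2,z4]),(z1,[z1,z1,z5,z1,y2]),(z2,[y1,y1,y2,z2,z2]),(z2,[z5,y1,z4,z2,y4])],.ref k20 k2 [(z2,[y5,z1,y4,y2,
    z4]),(z2,[z1,y1,z0,z2]),(z2,[y1,z1,z2]),(z1,[z1])],.ref k9 k0 [(z1,[z2,z1]),(z1,[y1,z1,z3]),(z2,[z1,y1,z0,z3]),
    (z2,[y5,y1,y6,y3,z6])],.ref k29 k0 [(z1,[z4,z1,y4,y2]),(z1,[y2,z0,z3,z1]),(z1,[z1,z0,y1]),(z1,[y5,y1,z4,z2,z1])],
    .ref k9 k0 [(z1,[y1,z1,y1,y1,z2]),(z2,[z1,z2,z7,z1,y2]),(z4,[y1,y2,y1,z5,z2]),(z4,[z5,y2,y7,y1,z2])],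
    .ref k30 k5 [(z1,[z0,y1,y1,z2,z1]),(z1,[z0,z2,z7,z1,y2]),(z1,[z0,z1,y4,y2,z4]),(z1,[y1,z0,z1])],.ref k29 k0 [(z1,
    [z2,z1,y2]),(z1,[y1,z0,z2]),(z2,[z1,z0,y1,z1]),(z2,[y5,y2,z3,y1,z2])],.ref k9 k0 [(z3,[y4,z1,y8,y2,z8]),(z3,[z2,
    z4,z13,z1,y4]),(z3,[y1,y2,y2,z4,z2]),(z3,[z5,z1,z1,y2,y1])],.ref k31 k5 [(z1,[z0,y1,y1,z2,z1]),(z1,[z0,z2,z7,z1,
    y2]),(z1,[z0,z1,y4,y2,z4]),(z1,[y5,y3,y3,z1,z3])],.ref k9 k0 [(z1,[z4,z3,z0,y2]),(z1,[y2,z0,z3,z1]),(z1,[z1,z0,z0,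
    z1]),(z1,[y5,y3,y3,z1,z3])],.ref k9 k0 [(z5,[y4,z3,y12,y6,z12]),(z5,[z2,z6,z21,z3,y6]),(z5,[y1,y3,y3,z6,z3]),(z1,
    [z1])],.ref k32 k5 [(z1,[z0,y1,y1,z2,z1]),(z1,[z0,z2,z7,z1,y2]),(z1,[z0,z1,y4,y2,z4]),(z1,[y5,y2,y2,y1,z2])],
    .ref k33 k1 [(z1,[z2,y1,z4,z2,y4]),(z1,[y1,z0,y2,y1,z2]),(z1,[z0,z1,y4,y2,z4]),(z1,[z0,y1,z0,z2])],
    .ref k34 k1 [(z1,[y4,y3,y4,y2,z4]),(z1,[z4,y1,z4,z2,y4]),(z1,[z0,z1,y4,y2,z4]),(z1,[z0,y1,z0,z2])],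
    .ref k9 k0 [(z1,[y4,y1,y4,y2,z4]),(z1,[z2,z2,z5,z1,y2]),(z1,[y1,y1,y1,z1,z1]),(z1,[z5,z2,z2,z1,y2])],
    .ref k35 k0 [(z1,[z2,z3]),(z1,[y1,z0,z3]),(z1,[z1,z0,z0,z3]),(z1,[y5,y6,y6,y3,z6])],.ref k20 k2 [(z1,[y5,y2,y2,y1,
    z2]),(z1,[z1,z0,z0,z1]),(z1,[y1,z0,z1]),(z1,[z2,z1])],.ref k31 k5 [(z1,[z0,y1,y1,z2,z1]),(z1,[z0,z2,z7,z1,y2]),
    (z1,[z0,z1,y4,y2,z4]),(z1,[z5,z2,z2,z1,y2])],.ref k36 k0 [(z1,[z2,z3]),(z1,[y1,z0,z3]),(z1,[z1,z0,z0,z3]),(z1,[y5,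
    y6,y6,y3,z6])]],
    .lp [(nat_lit 322),(nat_lit 332),(nat_lit 334),(nat_lit 312),(nat_lit 298),(nat_lit 320)] [k6,k6,k1,k1,k0,k0,k11,k11,
    k18,k18,k7,k7] k0 [[k0,k0,k0,k0,k0,k0,k0,k0,k2,k0,k2],[k0,k0,k0,k22,k0,k0,k0,k6],[k22,k0,k0,k0,k10],[k0,k0,k0,k0,
    k0,k0,k0,k8,k0,k16],[k0,k0,k0,k0,k0,k0,k0,k0,k38],[k0,k0,k0,k10],[k6,k0,k8],[k0,k0,k0,k0,k0,k0,k0,k0,k0,k16,k0,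
    k8],[k0,k0,k16,k0,k0,k0,k16],[k0,k2,k0,k0,k0,k38],[k0,k0,k0,k0,k0,k0,k8],[k0,k2]] (nat_lit 960) k5
    [[(k8,(nat_lit 310)),(k0,(nat_lit 320)),(k10,(nat_lit 321)),(k6,(nat_lit 325)),(k2,(nat_lit 327)),(k4,
    (nat_lit 328))],[(k9,(nat_lit 316)),(k7,(nat_lit 317)),(k11,(nat_lit 319)),(k1,(nat_lit 320)),(k3,(nat_lit 327)),
    (k5,(nat_lit 350))],[(k2,(nat_lit 310)),(k6,(nat_lit 316)),(k8,(nat_lit 317)),(k0,(nat_lit 327)),(k10,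
    (nat_lit 328)),(k4,(nat_lit 333))],[(k3,(nat_lit 310)),(k7,(nat_lit 312)),(k9,(nat_lit 323)),(k1,(nat_lit 327)),
    (k5,(nat_lit 333)),(k11,(nat_lit 342))],[(k8,(nat_lit 300)),(k6,(nat_lit 315)),(k10,(nat_lit 327)),(k2,
    (nat_lit 333)),(k4,(nat_lit 344)),(k0,(nat_lit 350))],[(k11,(nat_lit 289)),(k9,(nat_lit 316)),(k7,(nat_lit 323)),
    (k1,(nat_lit 328)),(k3,(nat_lit 333)),(k5,(nat_lit 344))],[(k2,(nat_lit 312)),(k6,(nat_lit 312)),(k10,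
    (nat_lit 316)),(k0,(nat_lit 317)),(k4,(nat_lit 323)),(k8,(nat_lit 343))],[(k9,(nat_lit 305)),(k7,(nat_lit 312)),
    (k5,(nat_lit 315)),(k3,(nat_lit 316)),(k1,(nat_lit 325)),(k11,(nat_lit 332))],[(k8,(nat_lit 282)),(k10,
    (nat_lit 301)),(k6,(nat_lit 305)),(k0,(nat_lit 316)),(k4,(nat_lit 316)),(k2,(nat_lit 323))],[(k9,(nat_lit 282)),
    (k5,(nat_lit 300)),(k11,(nat_lit 309)),(k1,(nat_lit 310)),(k3,(nat_lit 317)),(k7,(nat_lit 343))],[(k4,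
    (nat_lit 289)),(k8,(nat_lit 309)),(k0,(nat_lit 319)),(k10,(nat_lit 320)),(k6,(nat_lit 332)),(k2,(nat_lit 342))],
    [(k9,(nat_lit 301)),(k7,(nat_lit 316)),(k11,(nat_lit 320)),(k1,(nat_lit 321)),(k5,(nat_lit 327)),(k3,
    (nat_lit 328))]]
    [] k0
    [[k2,k0,k0,k0,k1,k0],[k1,k0,k1,k0,k1,k0],[k1,k0,k0,k2,k0,k0],[k1,k0,k0,k1,k1,k0],[k1,k0,k0,k0,k2,k0],[k1,k0,k0,k0,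
    k1,k1],[k0,k3,k0,k0,k0,k0],[k0,k2,k0,k1,k0,k0],[k0,k2,k0,k0,k1,k0],[k0,k1,k1,k0,k1,k0],[k0,k1,k0,k2,k0,k0],[k0,k1,
    k0,k1,k1,k0],[k0,k1,k0,k0,k2,k0],[k0,k1,k1,k0,k0,k1],[k0,k0,k1,k2,k0,k0],[k0,k0,k1,k1,k0,k1],[k0,k0,k1,k1,k1,k0],
    [k0,k0,k1,k0,k2,k0],[k0,k0,k1,k0,k1,k1],[k0,k0,k1,k0,k0,k2],[k0,k0,k0,k3,k0,k0],[k0,k0,k0,k1,k2,k0],[k0,k0,k0,k1,
    k1,k1],[k0,k0,k0,k0,k3,k0],[k0,k0,k0,k0,k2,k1],[k0,k0,k0,k0,k1,k2]]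
    [.ref k12 k0 [(z6,[z13,z5,z13,z13,z13,y13]),(z3,[y1,z1,z8,y1,y1,z1]),(z3,[z2,y2,z2,z11,z2,y2]),(z3,[y4,z4,y4,y4,
    z5,z4]),(z3,[y4,y5,y13,y13,y13,z13])],.ref k12 k0 [(z3,[z13,z9,z13,z0,z13,y13]),(z3,[y2,z0,z7,z0,y2,z2]),(z3,[z4,
    z0,z4,z9,z4,y4]),(z3,[y8,z0,y8,z0,z1,z8]),(z3,[y8,y9,y17,y9,y17,z17])],.ref k12 k0 [(z1,[y13,z16,z0,z0,z26]),(z1,
    [z2,y2,z3,z0,y4]),(z1,[y4,z4,z0,z3,z8]),(z1,[z8,y8,z0,z0,y13]),(z1,[z8,y11,y3,y3,y19,z3])],.ref k12 k0 [(z1,[y13,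
    z3,y13,y13,z0,z13]),(z1,[z2,z0,z5,z2,z0,y2]),(z1,[y4,z0,y4,y1,z0,z4]),(z1,[z8,z0,z8,z8,z3,y8]),(z1,[z8,y3,z5,z5,
    y3,y5])],.ref k12 k0 [(z1,[y13,y10,y26,y26,y26,z26]),(z1,[z2,z2,z7,z4,z4,y4]),(z1,[y4,y4,y8,y5,y8,z8]),(z1,[z8,z8,
    z16,z16,z19,y16]),(z1,[z8,z5,z13,z13,z13,y13])],.ref k12 k0 [(z2,[z13,z6,z13,z13,z13,y13]),(z1,[y1,z0,z2,y1,y1,
    z1]),(z1,[z2,z0,z2,z5,z2,y2]),(z1,[y4,z0,y4,y4,y1,z4]),(z1,[y4,y3,y7,y7,y7,z7])],.ref k12 k0 [(z2,[y13,z6,z39]),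
    (z1,[z1]),(z1,[y2,z0,z6,z3]),(z1,[z4,z0,y12,z0,z3]),(z1,[z4,y3,y15,y3,y3,z3])],.ref k12 k0 [(z4,[y13,z12,z26,z0,
    z13]),(z2,[z1,z0,z4,z0,y1]),(z1,[y1,z0,z2,z3,z1]),(z1,[z2,z0,y4,z0,z1]),(z1,[z2,y3,y7,y3,y5,z3])],
    .ref k12 k0 [(z4,[y13,y1,z13,y13,y13,z13]),(z2,[z1,z1,z5,z1,z1,y1]),(z1,[y1,y1,z1,z2,y1,z1]),(z1,[z2,z2,y2,z2,z5,
    y2]),(z1,[z2,y1,y5,y1,y1,z1])],.ref k12 k0 [(z2,[y13,y7,z0,z0,y13,z13]),(z1,[z1,z1,z3,z0,z1,y1]),(z1,[y2,y2,z0,z3,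
    y2,z2]),(z1,[z4,z4,z0,z0,z7,y4]),(z1,[z4,z1,y3,y3,z1,y1])],.ref k12 k0 [(z6,[y13,z18,z13,z0,z26]),(z3,[z1,z0,z8,
    z0,y2]),(z3,[y2,z0,z2,z9,z4]),(z3,[z4,z0,y4,z0,z1]),(z3,[z4,y9,y13,y9,y17,z9])],.ref k12 k0 [(z6,[y13,z5,z0,y13,
    z0,z13]),(z3,[z1,z1,z9,z1,z0,y1]),(z3,[y2,y2,z0,z7,z0,z2]),(z3,[z4,z4,z0,z4,z9,y4]),(z3,[z4,y5,y9,y5,y9,z5])],
    .ref k12 k0 [(z6,[y13,y8,y13,y26,y26,z26]),(z3,[z1,z2,z10,z2,z2,y2]),(z3,[y2,y4,y2,z5,y4,z4]),(z3,[z4,z8,z4,z8,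
    z17,y8]),(z3,[z4,y1,y5,y1,y1,z1])],.ref k12 k0 [(z1,[z13,z3,y13,y13]),(z1,[y2,z0,z5,z2]),(z1,[z4,z0,y4,y1]),(z1,
    [y8,z0,z8,z8,z3]),(z1,[y8,y3,z5,z5,y3,z3])],.ref k12 k0 [(z4,[y13,z12,z0,z13,z26]),(z2,[z1,z0,z6,y1,y2]),(z1,[y1,
    z0,z0,z4,z2]),(z1,[z2,z0,z0,y2,y1]),(z1,[z2,y3,y3,y5,y7,z3])],.ref k12 k0 [(z1,[y13,z3,z0,z13,z13]),(z1,[z2,z0,z3,
    y2,y2]),(z1,[y4,z0,z0,z7,z4]),(z1,[z8,z0,z0,y8,y5]),(z1,[z8,y3,y3,y11,y11,z3])],.ref k12 k0 [(z4,[y13,y1,y13,z0,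
    z0,z13]),(z2,[z1,z1,z7,z0,z0,y1]),(z1,[y1,y1,y1,z3,z0,z1]),(z1,[z2,z2,z2,z0,z3,y2]),(z1,[z2,y1,y1,y3,y3,z1])],
    .ref k12 k0 [(z4,[y13,y14,y26,y13,y26,z26]),(z2,[z1,z2,z8,z1,z2,y2]),(z1,[y1,y2,y2,z2,y2,z2]),(z1,[z2,z4,z4,z2,z7,
    y4]),(z1,[z2,z1,z1,y1,z1,y1])],.ref k12 k0 [(z1,[y13,y10,y13,z0,y13,z13]),(z1,[z2,z2,z5,z0,z2,y2]),(z1,[y4,y4,y4,
    z3,y4,z4]),(z1,[z8,z8,z8,z0,z11,y8]),(z1,[z8,z5,z5,y3,z5,y5])],.ref k12 k0 [(z2,[z13,z6,z0,y13]),(z1,[y1,z0,z3,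
    z1]),(z1,[z2,z0,z0,z1]),(z1,[y4,z0,z0,z4,z3]),(z1,[y4,y3,y3,z1,y3,z3])],.ref k12 k0 [(z8,[y13,z24,z0,z0,z39]),(z4,
    [z1,z0,z12,z0,y3]),(z2,[y1,z0,z0,z6,z3]),(z1,[z1]),(z1,[z1,y3,y3,y3,y6,z3])],.ref k12 k0 [(z8,[y13,y2,y26,y26,y13,
    z26]),(z4,[z1,z2,z14,z2,z1,y2]),(z2,[y1,y2,y2,z4,y1,z2]),(z1,[z1,z2,z2,z2,z4,y2]),(z1,[z1,y1,y1,y1,y2,z1])],
    .ref k12 k0 [(z5,[y13,z2,y13,y13,z0,z13]),(z5,[z2,z2,z17,z2,z0,y2]),(z5,[y4,y4,y4,z11,z0,z4]),(z5,[z8,z8,z8,z8,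
    z15,y8]),(z5,[z8,y7,y7,y7,y15,z7])],.ref k12 k0 [(z8,[y13,y15,y39,y39,y39,z39]),(z4,[z1,z3,z15,z3,z3,y3]),(z2,[y1,
    y3,y3,z3,y3,z3]),(z1,[z1,z3,z3,z3,z6,y3]),(z1,[z1])],.ref k12 k0 [(z5,[y13,y11,y26,y26,y26,z26]),(z5,[z2,z4,z19,
    z4,z4,y4]),(z5,[y4,y8,y8,z7,y8,z8]),(z5,[z8,z16,z16,z16,z31,y16]),(z5,[z8,z1,z1,z1,z1,y1])],.ref k12 k0 [(z2,[y13,
    y7,y13,y13,y13,z13]),(z1,[z1,z1,z4,z1,z1,y1]),(z1,[y2,y2,y2,z1,y2,z2]),(z1,[z4,z4,z4,z4,z7,y4]),(z1,[z4,z1,z1,z1,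
    z1,y1])]],
    .lp [(nat_lit 320),(nat_lit 340),(nat_lit 332),(nat_lit 296),(nat_lit 294),(nat_lit 336)] [k10,k10,k0,k0,k4,k4,k22,
    k22,k23,k23,k2,k2] k0 [[k0,k0,k0,k0,k0,k0,k66,k0,k32],[k0,k0,k0,k0,k0,k8],[k0,k0,k0,k0,k0,k0,k0,k0,k2,k0,k4],[],
    [k8],[k0,k0,k0,k0,k0,k0,k0,k38,k0,k36],[k0,k0,k0,k0,k38],[k0,k66,k0,k0,k0,k0,k0,k0,k0,k0,k0,k40],[k0,k0,k0,k0,k36,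
    k0,k0,k0,k0,k0,k34],[k0,k32,k0,k2],[k0,k0,k0,k0,k0,k0,k40],[k0,k0,k0,k4,k0,k0,k0,k0,k0,k34]] (nat_lit 960) k5
    [[(k8,(nat_lit 273)),(k0,(nat_lit 320)),(k2,(nat_lit 326)),(k4,(nat_lit 326)),(k10,(nat_lit 328)),(k6,
    (nat_lit 348))],[(k9,(nat_lit 241)),(k11,(nat_lit 296)),(k7,(nat_lit 316)),(k1,(nat_lit 320)),(k5,(nat_lit 326)),
    (k3,(nat_lit 330))],[(k4,(nat_lit 328)),(k0,(nat_lit 330)),(k10,(nat_lit 338)),(k2,(nat_lit 340)),(k8,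
    (nat_lit 349)),(k6,(nat_lit 384))],[(k9,(nat_lit 317)),(k7,(nat_lit 318)),(k1,(nat_lit 326)),(k5,(nat_lit 336)),
    (k11,(nat_lit 336)),(k3,(nat_lit 340))],[(k6,(nat_lit 314)),(k8,(nat_lit 315)),(k0,(nat_lit 326)),(k4,
    (nat_lit 332)),(k2,(nat_lit 336)),(k10,(nat_lit 338))],[(k7,(nat_lit 314)),(k1,(nat_lit 326)),(k3,(nat_lit 328)),
    (k5,(nat_lit 332)),(k9,(nat_lit 351)),(k11,(nat_lit 370))],[(k6,(nat_lit 258)),(k8,(nat_lit 259)),(k4,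
    (nat_lit 314)),(k0,(nat_lit 316)),(k10,(nat_lit 316)),(k2,(nat_lit 318))],[(k7,(nat_lit 258)),(k9,(nat_lit 295)),
    (k5,(nat_lit 314)),(k11,(nat_lit 316)),(k1,(nat_lit 348)),(k3,(nat_lit 384))],[(k0,(nat_lit 241)),(k10,
    (nat_lit 275)),(k8,(nat_lit 294)),(k6,(nat_lit 295)),(k2,(nat_lit 317)),(k4,(nat_lit 351))],[(k7,(nat_lit 259)),
    (k1,(nat_lit 273)),(k9,(nat_lit 294)),(k5,(nat_lit 315)),(k11,(nat_lit 315)),(k3,(nat_lit 349))],[(k0,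
    (nat_lit 296)),(k8,(nat_lit 315)),(k6,(nat_lit 316)),(k2,(nat_lit 336)),(k4,(nat_lit 370)),(k10,(nat_lit 370))],
    [(k9,(nat_lit 275)),(k7,(nat_lit 316)),(k1,(nat_lit 328)),(k3,(nat_lit 338)),(k5,(nat_lit 338)),(k11,
    (nat_lit 370))]]
    [] k0
    [[k2,k0,k0,k0,k1,k0],[k2,k0,k0,k0,k0,k1],[k1,k1,k0,k0,k1,k0],[k1,k0,k1,k1,k0,k0],[k1,k0,k1,k0,k1,k0],[k1,k0,k0,k2,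
    k0,k0],[k1,k0,k0,k1,k1,k0],[k1,k0,k0,k0,k2,k0],[k1,k0,k0,k0,k1,k1],[k0,k0,k1,k2,k0,k0],[k0,k0,k1,k1,k1,k0],[k0,k0,
    k0,k3,k0,k0],[k0,k0,k0,k2,k1,k0],[k0,k0,k0,k2,k0,k1],[k0,k0,k0,k1,k2,k0],[k0,k0,k0,k1,k1,k1],[k0,k0,k0,k0,k3,k0],
    [k0,k0,k0,k0,k2,k1]]
    [.ref k12 k0 [(z4,[z7,z5,z7,z7,z7,y7]),(z2,[y1,z1,z5,y1,y1,z1]),(z1,[z1,y1,z1,z4,z1,y1]),(z1,[y2,z2,y2,y2,z1,z2]),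
    (z2,[y1,y5,y7,y7,y7,z7])],.ref k12 k0 [(z5,[z7,z1]),(z5,[y2,z4,z15]),(z5,[z4,y8,z0,z15]),(z5,[y8,z16,z0,z0,z15]),
    (z5,[y2,y11,y15,y15,y15,z15])],.ref k12 k0 [(z1,[z7,z3,z0,z7,z7,y7]),(z1,[y2,z0,z3,y2,y2,z2]),(z1,[z4,z0,z0,z7,z4,
    y4]),(z1,[y8,z0,z0,y8,y5,z8]),(z1,[y2,y3,y3,y5,y5,z5])],.ref k12 k0 [(z1,[z7,y4,z0,y7,y7]),(z1,[y2,z2,z3,z2,z2]),
    (z1,[z4,y4,z0,y1,y4]),(z1,[y8,z8,z0,z8,z11]),(z1,[y2,y1,y3,y1,y1,z3])],.ref k12 k0 [(z3,[z7,z9,z7,z0,z7,y7]),(z3,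
    [y2,z0,z7,z0,y2,z2]),(z3,[z4,z0,z4,z9,z4,y4]),(z3,[y8,z0,y8,z0,z1,z8]),(z3,[y2,y9,y11,y9,y11,z11])],
    .ref k12 k0 [(z3,[y7,z16,z0,z0,z14]),(z3,[z2,y2,z9,z0,y4]),(z3,[y4,z4,z0,z9,z8]),(z3,[z8,y8,z0,z0,y7]),(z3,[z2,
    y11,y9,y9,y13,z9])],.ref k12 k0 [(z1,[y7,z3,y7,y7,z0,z7]),(z1,[z2,z0,z5,z2,z0,y2]),(z1,[y4,z0,y4,y1,z0,z4]),(z1,
    [z8,z0,z8,z8,z3,y8]),(z1,[z2,y3,y1,y1,y3,z1])],.ref k12 k0 [(z1,[z7,z10,z14,z14,z14,y14]),(z1,[y2,y2,y1,y4,y4,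
    z4]),(z1,[z4,z4,z8,z11,z8,y8]),(z1,[y8,y8,y16,y16,y13,z16]),(z1,[y2,y5,y7,y7,y7,z7])],.ref k12 k0 [(z2,[z7,z6,z7,
    z7,z7,y7]),(z1,[y1,z0,z2,y1,y1,z1]),(z1,[z2,z0,z2,z5,z2,y2]),(z1,[y4,z0,y4,y4,y1,z4]),(z1,[y1,y3,y4,y4,y4,z4])],
    .ref k12 k0 [(z4,[y7,z12,z0,z7,z14]),(z2,[z1,z0,z6,y1,y2]),(z1,[y1,z0,z0,z4,z2]),(z1,[z2,z0,z0,y2,y1]),(z2,[z1,y6,
    y6,y7,y8,z6])],.ref k12 k0 [(z2,[y7,y1,y7,z0,z0,z7]),(z1,[z1,z1,z4,z0,z0,y1]),(z1,[y2,y2,y2,z3,z0,z2]),(z1,[z4,z4,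
    z4,z0,z3,y4]),(z1,[z1,y2,y2,y3,y3,z2])],.ref k12 k0 [(z8,[y7,z24,z0,z0,z21]),(z4,[z1,z0,z12,z0,y3]),(z2,[y1,z0,z0,
    z6,z3]),(z1,[z1]),(z4,[z1,y12,y12,y12,y15,z12])],.ref k12 k0 [(z6,[y7,z11,y7,y7,z7,z7]),(z3,[z1,z1,z10,z1,y1,y1]),
    (z3,[y2,y2,y2,z7,z2,z2]),(z3,[z4,z4,z4,z4,z5,y4]),(z3,[z1,y8,y8,y8,y10,z8])],.ref k12 k0 [(z5,[y7,z15,z0,z0,z14]),
    (z5,[z2,z0,z15,z0,y4]),(z5,[y4,z0,z0,z15,z8]),(z5,[z8,z0,z0,z0,y1]),(z5,[z2,y15,y15,y15,y19,z15])],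
    .ref k12 k0 [(z4,[y7,y2,y14,y14,y7,z14]),(z2,[z1,z2,z8,z2,z1,y2]),(z1,[y1,y2,y2,z1,y1,z2]),(z1,[z2,z4,z4,z4,z5,
    y4]),(z2,[z1,y4,y4,y4,y5,z4])],.ref k12 k0 [(z3,[y7,z2,y7,y7,z0,z7]),(z3,[z2,z2,z11,z2,z0,y2]),(z3,[y4,y4,y4,z5,
    z0,z4]),(z3,[z8,z8,z8,z8,z9,y8]),(z3,[z2,y7,y7,y7,y9,z7])],.ref k12 k0 [(z2,[y7,y15,y21,y21,y21,z21]),(z1,[z1,z3,
    z6,z3,z3,y3]),(z1,[y2,y6,y6,y3,y6,z6]),(z1,[z4,z12,z12,z12,z15,y12]),(z1,[z1])],.ref k12 k0 [(z1,[y7,y11,y14,y14,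
    y14,z14]),(z1,[z2,z4,z7,z4,z4,y4]),(z1,[y4,y8,y8,y5,y8,z8]),(z1,[z8,z16,z16,z16,z19,y16]),(z1,[z2,z1,z1,z1,z1,
    y1])]],
    .lp [k168,k168,k162,k150,k150,k160] [k0,k0,k0,k0,k3,k3,k9,k9,k9,k9,k4,k4] k0 [[k0,k0,k0,k0,k0,k0,k0,k0,k0,k0,k8],[k0,
    k0,k0,k0,k0,k6],[k0,k0,k0,k0,k0,k0,k6],[k0,k0,k0,k0,k0,k0,k0,k0,k0,k2],[k6,k0,k0,k0,k0,k0,k0,k0,k0,k0,k2],[k0,k0,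
    k0,k0,k0,k0,k0,k16,k0,k10],[k0,k0,k0,k0,k16,k0,k0,k0,k4],[k0,k0,k0,k6],[k0,k0,k2,k0,k10],[k0,k0,k0,k0,k0,k0,k0,k4,
    k0,k0,k0,k8],[k0,k0,k0,k0,k0,k0,k0,k0,k8],[k0,k8,k0,k0,k0,k2]] (nat_lit 480) k5
    [[(k6,k159),(k0,k160),(k4,k163),(k10,k164),(k8,k167),(k2,k168)],[(k9,k159),(k1,k160),(k11,k164),(k5,k165),(k7,
    k165),(k3,k168)],[(k4,k159),(k6,k159),(k8,k159),(k0,k168),(k2,k168),(k10,k172)],[(k9,k153),(k7,k159),(k5,k165),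
    (k11,k166),(k1,k168),(k3,k168)],[(k8,k154),(k10,k161),(k4,k162),(k6,k162),(k0,k165),(k2,k165)],[(k7,k156),(k3,
    k159),(k5,k162),(k1,k163),(k11,k171),(k9,k172)],[(k6,k134),(k8,k140),(k4,k156),(k10,k157),(k2,k159),(k0,k165)],
    [(k7,k134),(k9,k150),(k11,k151),(k1,k159),(k3,k159),(k5,k162)],[(k6,k150),(k2,k153),(k8,k154),(k10,k155),(k0,
    k159),(k4,k172)],[(k7,k140),(k5,k154),(k9,k154),(k11,k155),(k3,k159),(k1,k167)],[(k6,k151),(k10,k152),(k8,k155),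
    (k0,k164),(k2,k166),(k4,k171)],[(k11,k152),(k9,k155),(k7,k157),(k5,k161),(k1,k164),(k3,k172)]]
    [] k0
    [[k1,k0,k1,k0,k1,k0],[k1,k0,k0,k2,k0,k0],[k1,k0,k0,k1,k1,k0],[k1,k0,k0,k0,k1,k1],[k0,k1,k1,k0,k1,k0],[k0,k1,k0,k2,
    k0,k0],[k0,k1,k0,k1,k1,k0],[k0,k1,k0,k0,k2,k0],[k0,k0,k1,k2,k0,k0],[k0,k0,k1,k1,k1,k0],[k0,k0,k1,k1,k0,k1],[k0,k0,
    k0,k3,k0,k0],[k0,k0,k0,k2,k1,k0],[k0,k0,k0,k2,k0,k1],[k0,k0,k0,k1,k2,k0],[k0,k0,k0,k1,k1,k1],[k0,k0,k0,k1,k0,k2],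
    [k0,k0,k0,k0,k3,k0],[k0,k0,k0,k0,k2,k1],[k0,k0,k0,k0,k1,k2],[k0,k0,k0,k0,k0,k3]]
    [.ref k12 k0 [(z3,[z10,z9,z10,z0,z10,y10]),(z3,[y2,z0,z7,z0,y2,z2]),(z3,[z4,z0,z4,z9,z4,y4]),(z3,[y8,z0,y8,z0,z1,
    z8]),(z3,[y5,y9,y14,y9,y14,z14])],.ref k12 k0 [(z1,[y5,z8,z0,z0,z10]),(z1,[z1,y1,z3,z0,y2]),(z1,[y2,z2,z0,z3,z4]),
    (z1,[z4,y4,z0,z0,y5]),(z2,[z5,y11,y6,y6,y16,z6])],.ref k12 k0 [(z1,[y10,z3,y10,y10,z0,z10]),(z1,[z2,z0,z5,z2,z0,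
    y2]),(z1,[y4,z0,y4,y1,z0,z4]),(z1,[z8,z0,z8,z8,z3,y8]),(z1,[z5,y3,z2,z2,y3,y2])],.ref k12 k0 [(z1,[z5,z3,z5,z5,z5,
    y5]),(z1,[y1,z0,z2,y1,y1,z1]),(z1,[z2,z0,z2,z5,z2,y2]),(z1,[y4,z0,y4,y4,y1,z4]),(z2,[y5,y6,y11,y11,y11,z11])],
    .ref k12 k0 [(z1,[y10,y7,z0,z0,y10,z10]),(z1,[z2,z2,z3,z0,z2,y2]),(z1,[y4,y4,z0,z3,y4,z4]),(z1,[z8,z8,z0,z0,z11,
    y8]),(z1,[z5,z2,y3,y3,z2,y2])],.ref k12 k0 [(z3,[y5,z9,z5,z0,z10]),(z3,[z1,z0,z8,z0,y2]),(z3,[y2,z0,z2,z9,z4]),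
    (z3,[z4,z0,y4,z0,z1]),(z6,[z5,y18,y23,y18,y28,z18])],.ref k12 k0 [(z1,[y2,z1,z0,y2,z0,z2]),(z5,[z2,z2,z15,z2,z0,
    y2]),(z5,[y4,y4,z0,z11,z0,z4]),(z5,[z8,z8,z0,z8,z15,y8]),(z1,[z1,y2,y3,y2,y3,z2])],.ref k12 k0 [(z2,[y5,y4,y5,y10,
    y10,z10]),(z2,[z1,z2,z7,z2,z2,y2]),(z1,[y1,y2,y1,z1,y2,z2]),(z1,[z2,z4,z2,z4,z7,y4]),(z4,[z5,y2,y7,y2,y2,z2])],
    .ref k12 k0 [(z2,[y5,z6,z0,z5,z10]),(z2,[z1,z0,z6,y1,y2]),(z1,[y1,z0,z0,z4,z2]),(z1,[z2,z0,z0,y2,y1]),(z4,[z5,y12,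
    y12,y17,y22,z12])],.ref k12 k0 [(z3,[y10,y1,y10,z0,z0,z10]),(z3,[z2,z2,z11,z0,z0,y2]),(z3,[y4,y4,y4,z9,z0,z4]),
    (z3,[z8,z8,z8,z0,z9,y8]),(z3,[z5,y4,y4,y9,y9,z4])],.ref k12 k0 [(z1,[y10,z3,z0,z10,z10]),(z1,[z2,z0,z3,y2,y2]),
    (z1,[y4,z0,z0,z7,z4]),(z1,[z8,z0,z0,y8,y5]),(z1,[z5,y3,y3,y8,y8,z3])],.ref k12 k0 [(z4,[y5,z12,z0,z0,z15]),(z4,
    [z1,z0,z12,z0,y3]),(z2,[y1,z0,z0,z6,z3]),(z1,[z1]),(z8,[z5,y24,y24,y24,y39,z24])],.ref k12 k0 [(z7,[y10,z11,y10,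
    y10,z10,z10]),(z7,[z2,z2,z23,z2,y2,y2]),(z7,[y4,y4,y4,z17,z4,z4]),(z7,[z8,z8,z8,z8,z13,y8]),(z7,[z5,y16,y16,y16,
    y26,z16])],.ref k12 k0 [(z1,[y2,z3,z0,z0,z4]),(z5,[z2,z0,z15,z0,y4]),(z5,[y4,z0,z0,z15,z8]),(z5,[z8,z0,z0,z0,y1]),
    (z1,[z1,y3,y3,y3,y5,z3])],.ref k12 k0 [(z3,[y5,y1,y10,y10,y5,z10]),(z3,[z1,z2,z11,z2,z1,y2]),(z3,[y2,y4,y4,z5,y2,
    z4]),(z3,[z4,z8,z8,z8,z13,y8]),(z6,[z5,y8,y8,y8,y13,z8])],.ref k12 k0 [(z2,[y5,z1,y5,y5,z0,z5]),(z2,[z1,z1,z7,z1,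
    z0,y1]),(z1,[y1,y1,y1,z2,z0,z1]),(z1,[z2,z2,z2,z2,z3,y2]),(z4,[z5,y7,y7,y7,y12,z7])],.ref k12 k0 [(z1,[y5,z3,z0,
    z0,z5]),(z1,[z1,z0,z3,z0,y1]),(z1,[y2,z0,z0,z3,z2]),(z1,[z4,z0,z0,z0,y1]),(z2,[z5,y6,y6,y6,y11,z6])],
    .ref k12 k0 [(z1,[y2,y3,y6,y6,y6,z6]),(z5,[z2,z6,z21,z6,z6,y6]),(z5,[y4,y12,y12,z3,y12,z12]),(z5,[z8,z24,z24,z24,
    z39,y24]),(z1,[z1])],.ref k12 k0 [(z3,[y10,y11,y20,y20,y20,z20]),(z3,[z2,z4,z13,z4,z4,y4]),(z3,[y4,y8,y8,z1,y8,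
    z8]),(z3,[z8,z16,z16,z16,z25,y16]),(z3,[z5,z1,z1,z1,z1,y1])],.ref k12 k0 [(z1,[y10,y7,y10,y10,y10,z10]),(z1,[z2,
    z2,z5,z2,z2,y2]),(z1,[y4,y4,y4,y1,y4,z4]),(z1,[z8,z8,z8,z8,z11,y8]),(z1,[z5,z2,z2,z2,z2,y2])],.ref k12 k0 [(z1,
    [z10,z3]),(z1,[y2,z0,z3]),(z1,[z4,z0,z0,z3]),(z1,[y8,z0,z0,z0,z3]),(z1,[y5,y3,y3,y3,y3,z3])]],
    .leafM k0 [k2,k3,k4,k5,k0,k1] [(z1,[y1,y1,y1,z0,z1])] [],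
    .lp [k80,k82,k82,k80,k58,k96] [k8,k8,k7,k7,k7,k7,k8,k8,k19,k19,k0,k0] k0 [[k0,k0,k0,k0,k0,k0,k4],[k0,k0,k0,k14],[k14,
    k0,k0,k0,k0,k0,k0,k0,k0,k0,k6],[k0,k0,k0,k0,k0,k0,k0,k4,k0,k4],[k0,k0,k0,k0,k0,k0,k2,k0,k0,k0,k16],[k0,k0,k0,k0,
    k0,k0,k0,k0,k0,k8],[k0,k0,k4,k0,k0,k0,k0,k0,k16],[k0,k4,k0,k0,k0,k2],[k0,k0,k4,k0,k8],[k0,k0,k0,k0,k0,k0,k0,k16,
    k0,k0,k0,k32],[k0,k0,k0,k0,k0,k0,k0,k0,k32],[k0,k0,k0,k6,k0,k16]] (nat_lit 240) k5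
    [[(k4,k65),(k2,k75),(k0,k80),(k6,k80),(k10,k88),(k8,k101)],[(k9,k65),(k1,k80),(k7,k80),(k3,k81),(k11,k88),(k5,
    k95)],[(k2,k68),(k8,k70),(k0,k81),(k4,k82),(k6,k85),(k10,k89)],[(k3,k68),(k9,k74),(k1,k75),(k7,k81),(k5,k82),(k11,
    k93)],[(k8,k66),(k6,k77),(k2,k82),(k4,k82),(k0,k95),(k10,k95)],[(k1,k65),(k9,k68),(k7,k81),(k3,k82),(k5,k82),(k11,
    k97)],[(k8,k61),(k0,k80),(k2,k81),(k4,k81),(k6,k82),(k10,k104)],[(k9,k69),(k11,k72),(k5,k77),(k1,k80),(k7,k82),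
    (k3,k85)],[(k0,k65),(k4,k68),(k6,k69),(k2,k74),(k8,k74),(k10,k77)],[(k7,k61),(k5,k66),(k3,k70),(k9,k74),(k11,k77),
    (k1,k101)],[(k10,k64),(k6,k72),(k8,k77),(k0,k88),(k2,k93),(k4,k97)],[(k11,k64),(k9,k77),(k1,k88),(k3,k89),(k5,
    k95),(k7,k104)]]
    [] k0
    [[k2,k1,k0,k0,k0,k0],[k1,k2,k0,k0,k0,k0],[k1,k1,k0,k0,k1,k0],[k1,k1,k1,k0,k0,k0],[k1,k0,k1,k1,k0,k0],[k1,k0,k1,k0,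
    k1,k0],[k1,k0,k0,k1,k1,k0],[k1,k0,k0,k0,k1,k1],[k0,k3,k0,k0,k0,k0],[k0,k2,k1,k0,k0,k0],[k0,k2,k0,k1,k0,k0],[k0,k2,
    k0,k0,k1,k0],[k0,k1,k1,k0,k1,k0],[k0,k1,k0,k1,k1,k0],[k0,k1,k0,k0,k2,k0],[k0,k0,k2,k0,k1,k0],[k0,k0,k1,k1,k1,k0],
    [k0,k0,k1,k0,k2,k0],[k0,k0,k0,k2,k1,k0],[k0,k0,k0,k1,k2,k0],[k0,k0,k0,k1,k1,k1],[k0,k0,k0,k0,k3,k0],[k0,k0,k0,k0,
    k2,k1],[k0,k0,k0,k0,k1,k2],[k0,k0,k0,k0,k0,k3]]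
    [.ref k12 k0 [(z2,[z5,y4,y5]),(z1,[y2,z4,z5]),(z1,[z1,y2,y1,z3]),(z2,[y1,z2,z1,z0,z6]),(z4,[y5,y2,y7,y12,y12,
    z12])],.ref k12 k0 [(z1,[y5,z8,z10]),(z1,[z4,y4,y5]),(z1,[y2,z2,z4,z3]),(z1,[z1,y1,y2,z0,z3]),(z2,[z5,y11,y16,y6,
    y6,z6])],.ref k12 k0 [(z1,[y10,z3,z0,y10,y10,z10]),(z1,[z8,z0,z3,z8,z8,y8]),(z1,[y4,z0,z0,y1,y4,z4]),(z1,[z2,z0,
    z0,z2,z5,y2]),(z1,[z5,y3,y3,z2,z2,y2])],.ref k12 k0 [(z1,[z5,y2,y5,y5]),(z1,[y4,z4,z7,z4]),(z1,[z2,y2,y2,z1]),(z1,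
    [y1,z1,z1,z1,z3]),(z2,[y5,y1,y1,y1,y6,z6])],.ref k12 k0 [(z2,[z5,z1,z0,y5,y5]),(z1,[y2,z2,z3,z2,z2]),(z1,[z1,y1,
    z0,z2,y1]),(z2,[y1,z1,z0,z1,z7]),(z4,[y5,y7,y12,y7,y7,z12])],.ref k12 k0 [(z3,[z10,z9,z10,z0,z10,y10]),(z3,[y8,z0,
    z1,z0,y8,z8]),(z3,[z4,z0,z4,z9,z4,y4]),(z3,[y2,z0,y2,z0,z7,z2]),(z3,[y5,y9,y14,y9,y14,z14])],.ref k12 k0 [(z1,
    [z10,z3,z10,z10,z0,y10]),(z1,[y8,z0,y5,y8,z0,z8]),(z1,[z4,z0,z4,z7,z0,y4]),(z1,[y2,z0,y2,y2,z3,z2]),(z1,[y5,y3,y8,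
    y8,y3,z8])],.ref k12 k0 [(z1,[z5,z3,z5,z5,z5,y5]),(z1,[y4,z0,y1,y4,y4,z4]),(z1,[z2,z0,z2,z5,z2,y2]),(z1,[y1,z0,y1,
    y1,z2,z1]),(z2,[y5,y6,y11,y11,y11,z11])],.ref k12 k0 [(z4,[y5,z12,z15]),(z1,[z1]),(z2,[y1,z0,z3,z6]),(z4,[z1,z0,
    y3,z0,z12]),(z8,[z5,y24,y39,y24,y24,z24])],.ref k12 k0 [(z2,[y5,z6,z10,z5]),(z1,[z2,z0,y1,y2]),(z1,[y1,z0,z2,z4]),
    (z2,[z1,z0,y2,y1,z6]),(z4,[z5,y12,y22,y17,y12,z12])],.ref k12 k0 [(z3,[y5,z9,z10,z0,z5]),(z3,[z4,z0,z1,z0,y4]),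
    (z3,[y2,z0,z4,z9,z2]),(z3,[z1,z0,y2,z0,z8]),(z6,[z5,y18,y28,y18,y23,z18])],.ref k12 k0 [(z7,[y10,z11,z10,y10,y10,
    z10]),(z7,[z8,z8,z13,z8,z8,y8]),(z7,[y4,y4,z4,z17,y4,z4]),(z7,[z2,z2,y2,z2,z23,y2]),(z7,[z5,y16,y26,y16,y16,
    z16])],.ref k12 k0 [(z3,[y10,y1,z0,z0,y10,z10]),(z3,[z8,z8,z9,z0,z8,y8]),(z3,[y4,y4,z0,z9,y4,z4]),(z3,[z2,z2,z0,
    z0,z11,y2]),(z3,[z5,y4,y9,y9,y4,z4])],.ref k12 k0 [(z1,[y2,z1,z0,y2,z0,z2]),(z5,[z8,z8,z15,z8,z0,y8]),(z5,[y4,y4,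
    z0,z11,z0,z4]),(z5,[z2,z2,z0,z2,z15,y2]),(z1,[z1,y2,y3,y2,y3,z2])],.ref k12 k0 [(z3,[y5,y1,y5,y10,y10,z10]),(z3,
    [z4,z8,z13,z8,z8,y8]),(z3,[y2,y4,y2,z5,y4,z4]),(z3,[z1,z2,z1,z2,z11,y2]),(z6,[z5,y8,y13,y8,y8,z8])],
    .ref k12 k0 [(z1,[z10,z13,z10,y10,z10,y10]),(z1,[y8,y8,y5,z8,y8,z8]),(z1,[z4,z4,z4,y1,z4,y4]),(z1,[y2,y2,y2,z2,z1,
    z2]),(z1,[y5,y8,y8,z2,y8,z8])],.ref k12 k0 [(z1,[y10,y7,y10,z0,z0,z10]),(z1,[z8,z8,z11,z0,z0,y8]),(z1,[y4,y4,y4,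
    z3,z0,z4]),(z1,[z2,z2,z2,z0,z3,y2]),(z1,[z5,z2,z2,y3,y3,y2])],.ref k12 k0 [(z1,[y5,y7,y10,y5,y10,z10]),(z1,[z4,z8,
    z11,z4,z8,y8]),(z1,[y2,y4,y4,z1,y4,z4]),(z1,[z1,z2,z2,z1,z5,y2]),(z2,[z5,z4,z4,y1,z4,y4])],.ref k12 k0 [(z3,[y10,
    y1,y10,y10,z10,z10]),(z3,[z8,z8,z17,z8,y8,y8]),(z3,[y4,y4,y4,z5,z4,z4]),(z3,[z2,z2,z2,z2,z7,y2]),(z3,[z5,y4,y4,y4,
    y14,z4])],.ref k12 k0 [(z2,[y5,y4,y10,y10,y5,z10]),(z1,[z2,z4,z7,z4,z2,y4]),(z1,[y1,y2,y2,z1,y1,z2]),(z2,[z1,z2,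
    z2,z2,z7,y2]),(z4,[z5,y2,y2,y2,y7,z2])],.ref k12 k0 [(z1,[y5,y2,y5,y5,z0,z5]),(z1,[z4,z4,z7,z4,z0,y4]),(z1,[y2,y2,
    y2,z1,z0,z2]),(z1,[z1,z1,z1,z1,z3,y1]),(z2,[z5,y1,y1,y1,y6,z1])],.ref k12 k0 [(z1,[y2,y3,y6,y6,y6,z6]),(z5,[z8,
    z24,z39,z24,z24,y24]),(z5,[y4,y12,y12,z3,y12,z12]),(z5,[z2,z6,z6,z6,z21,y6]),(z1,[z1])],.ref k12 k0 [(z3,[y10,y11,
    y20,y20,y20,z20]),(z3,[z8,z16,z25,z16,z16,y16]),(z3,[y4,y8,y8,z1,y8,z8]),(z3,[z2,z4,z4,z4,z13,y4]),(z3,[z5,z1,z1,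
    z1,z1,y1])],.ref k12 k0 [(z1,[y10,y7,y10,y10,y10,z10]),(z1,[z8,z8,z11,z8,z8,y8]),(z1,[y4,y4,y4,y1,y4,z4]),(z1,[z2,
    z2,z2,z2,z5,y2]),(z1,[z5,z2,z2,z2,z2,y2])],.ref k12 k0 [(z1,[z10,z3]),(z1,[y8,z0,z3]),(z1,[z4,z0,z0,z3]),(z1,[y2,
    z0,z0,z0,z3]),(z1,[y5,y3,y3,y3,y3,z3])]],
    .lp [k162,k164,k170,k146,k148,k168] [k4,k4,k3,k3,k0,k0,k12,k12,k11,k11,k1,k1] k0 [[k0,k0,k0,k0,k0,k0,k0,k0,k0,k0,k2],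
    [k0,k0,k0,k30],[k30,k0,k0,k0,k0,k0,k2],[k0,k0,k0,k0,k0,k8,k0,k0,k0,k0,k0,k20],[k0,k0,k8,k0,k0,k0,k16],[],[k0,k0,
    k0,k0,k0,k0,k0,k0,k16],[k0,k0,k0,k2,k0,k16],[k0,k0,k0,k0,k0,k0,k0,k0,k0,k0,k14],[k0,k0,k0,k0,k0,k0,k0,k16],[k0,k0,
    k20],[k0,k2,k0,k0,k0,k0,k0,k0,k0,k14]] (nat_lit 480) k5
    [[(k8,k141),(k6,k154),(k0,k160),(k10,k165),(k4,k166),(k2,k183)],[(k7,k154),(k9,k155),(k1,k160),(k3,k163),(k11,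
    k165),(k5,k196)],[(k2,k134),(k6,k155),(k8,k156),(k0,k163),(k4,k167),(k10,k168)],[(k3,k134),(k9,k154),(k7,k163),
    (k11,k166),(k5,k167),(k1,k183)],[(k10,k149),(k8,k159),(k6,k160),(k4,k162),(k2,k167),(k0,k196)],[(k9,k143),(k7,
    k158),(k5,k162),(k1,k166),(k3,k167),(k11,k169)],[(k8,k147),(k0,k154),(k10,k157),(k4,k158),(k6,k162),(k2,k163)],
    [(k11,k141),(k9,k147),(k1,k154),(k3,k155),(k5,k160),(k7,k162)],[(k4,k143),(k6,k147),(k2,k154),(k0,k155),(k10,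
    k158),(k8,k164)],[(k1,k141),(k7,k147),(k3,k156),(k11,k158),(k5,k159),(k9,k164)],[(k6,k141),(k8,k158),(k0,k165),
    (k2,k166),(k4,k169),(k10,k182)],[(k5,k149),(k7,k157),(k9,k158),(k1,k165),(k3,k168),(k11,k182)]]
    [] k0
    [[k2,k0,k0,k1,k0,k0],[k2,k0,k0,k0,k1,k0],[k1,k0,k0,k2,k0,k0],[k1,k0,k0,k1,k1,k0],[k1,k0,k0,k1,k0,k1],[k1,k1,k0,k0,
    k1,k0],[k1,k0,k0,k0,k2,k0],[k1,k0,k0,k0,k1,k1],[k0,k3,k0,k0,k0,k0],[k0,k2,k1,k0,k0,k0],[k0,k2,k0,k1,k0,k0],[k0,k2,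
    k0,k0,k1,k0],[k0,k2,k0,k0,k0,k1],[k0,k1,k0,k1,k1,k0],[k0,k1,k0,k1,k0,k1],[k0,k1,k1,k0,k1,k0],[k0,k1,k0,k0,k2,k0],
    [k0,k0,k2,k0,k1,k0],[k0,k0,k1,k1,k1,k0],[k0,k0,k1,k0,k2,k0],[k0,k0,k1,k1,k0,k1],[k0,k0,k1,k0,k1,k1],[k0,k0,k0,k2,
    k1,k0],[k0,k0,k0,k2,k0,k1],[k0,k0,k0,k1,k2,k0],[k0,k0,k0,k1,k1,k1]]
    [.ref k12 k0 [(z8,[z15,y2,z0,z0,y15]),(z1,[y3,z2,z3,z0,z3]),(z2,[z3,y2,z0,z6,y3]),(z4,[y3,z2,z0,z0,z15]),(z1,[z0,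
    y1,y3,y3,y3,z3])],.ref k12 k0 [(z2,[z3,z1,z3,z3,z3,y3]),(z5,[y12,z4,z3,y12,y12,z12]),(z5,[z6,y2,z6,z21,z6,y6]),
    (z5,[y3,z1,y3,y3,z12,z3]),(z1,[z0,y1,y3,y3,y3,z3])],.ref k12 k0 [(z1,[z15,y4,z0,z0,y30]),(z1,[y24,z8,z3,z0,z48]),
    (z1,[z12,y4,z0,z3,y24]),(z1,[y6,z2,z0,z0,z15]),(z1,[z0,y1,y3,y3,y3,z3])],.ref k12 k0 [(z1,[z5,z1,z5,z5,z0,y5]),
    (z1,[y8,z0,y5,y8,z0,z8]),(z1,[z4,z0,z4,z7,z0,y4]),(z1,[y2,z0,y2,y2,z3,z2]),(z1,[z0,y1,y3,y3,y3,z3])],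
    .ref k12 k0 [(z4,[z15,y1,z0,z0,y15]),(z1,[y6,z2,z3,z0,z6]),(z1,[z3,y1,z0,z3,y3]),(z2,[y3,z1,z0,z0,z9]),(z1,[z0,y1,
    y3,y3,y3,z3])],.ref k12 k0 [(z1,[y5,z1,z0,y5,y5,z5]),(z1,[z8,z0,z3,z8,z8,y8]),(z1,[y4,z0,z0,y1,y4,z4]),(z1,[z2,z0,
    z0,z2,z5,y2]),(z1,[z0,y1,y3,y3,y3,z3])],.ref k12 k0 [(z1,[z3,z2,z6,z6,z6,y6]),(z5,[y24,y8,y33,y48,y48,z48]),(z5,
    [z12,z4,z24,z39,z24,y24]),(z5,[y6,y2,y12,y12,z3,z12]),(z1,[z0,y1,y3,y3,y3,z3])],.ref k12 k0 [(z2,[z5,z2,z5,z5,z5,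
    y5]),(z1,[y4,z0,y1,y4,y4,z4]),(z1,[z2,z0,z2,z5,z2,y2]),(z1,[y1,z0,y1,y1,z2,z1]),(z1,[z0,y1,y3,y3,y3,z3])],
    .ref k12 k0 [(z8,[y5,z8,z15]),(z1,[z1]),(z2,[y1,z0,z3,z6]),(z4,[z1,z0,y3,z0,z12]),(z1,[z0,y1,y3,y3,y3,z3])],
    .ref k12 k0 [(z4,[y5,z4,z10,z5]),(z1,[z2,z0,y1,y2]),(z1,[y1,z0,z2,z4]),(z2,[z1,z0,y2,y1,z6]),(z1,[z0,y1,y3,y3,y3,
    z3])],.ref k12 k0 [(z6,[y5,z6,z10,z0,z5]),(z3,[z4,z0,z1,z0,y4]),(z3,[y2,z0,z4,z9,z2]),(z3,[z1,z0,y2,z0,z8]),(z1,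
    [z0,y1,y3,y3,y3,z3])],.ref k12 k0 [(z16,[y15,z11,z15,y15,y15,z15]),(z2,[z3,z1,z3,z3,z3,y3]),(z4,[y3,y1,z3,z9,y3,
    z3]),(z8,[z3,z1,y3,z3,z27,y3]),(z1,[z0,y1,y3,y3,y3,z3])],.ref k12 k0 [(z1,[y1,z1,z2]),(z5,[z8,z0,y1]),(z5,[y4,z0,
    z8,z15]),(z5,[z2,z0,y4,z0,z15]),(z1,[z0,y1,y3,y3,y3,z3])],.ref k12 k0 [(z2,[y3,z1,z0,y3,z0,z3]),(z5,[z12,z4,z15,
    z12,z0,y12]),(z5,[y6,y2,z0,z9,z0,z6]),(z5,[z3,z1,z0,z3,z15,y3]),(z1,[z0,y1,y3,y3,y3,z3])],.ref k12 k0 [(z3,[y5,z3,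
    z5,z0,z5]),(z3,[z8,z0,z1,z0,y8]),(z3,[y4,z0,z4,z9,z4]),(z3,[z2,z0,y2,z0,z7]),(z1,[z0,y1,y3,y3,y3,z3])],
    .ref k12 k0 [(z4,[y15,y1,z0,z0,y15,z15]),(z1,[z6,z2,z3,z0,z6,y6]),(z1,[y3,y1,z0,z3,y3,z3]),(z2,[z3,z1,z0,z0,z9,
    y3]),(z1,[z0,y1,y3,y3,y3,z3])],.ref k12 k0 [(z8,[y15,y2,y15,y30,y30,z30]),(z1,[z3,z2,z6,z6,z6,y6]),(z2,[y3,y2,y3,
    z0,y6,z6]),(z4,[z3,z2,z3,z6,z18,y6]),(z1,[z0,y1,y3,y3,y3,z3])],.ref k12 k0 [(z8,[z15,z13,z15,y15,z15,y15]),(z1,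
    [y3,y1,z0,z3,y3,z3]),(z2,[z3,z1,z3,z3,z3,y3]),(z4,[y3,y1,y3,z3,z9,z3]),(z1,[z0,y1,y3,y3,y3,z3])],.ref k12 k0 [(z2,
    [z15,z7,z15,z0,z0,y15]),(z1,[y12,y4,y9,z0,z0,z12]),(z1,[z6,z2,z6,z3,z0,y6]),(z1,[y3,y1,y3,z0,z3,z3]),(z1,[z0,y1,
    y3,y3,y3,z3])],.ref k12 k0 [(z4,[z15,z14,z30,z15,z30,y30]),(z1,[y6,y4,y9,y6,y12,z12]),(z1,[z3,z2,z6,z6,z6,y6]),
    (z2,[y3,y2,y6,y3,z0,z6]),(z1,[z0,y1,y3,y3,y3,z3])],.ref k12 k0 [(z1,[z5,z1,z0,y5,y5]),(z1,[y8,z0,z3,z8,z8]),(z1,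
    [z4,z0,z0,y1,y4]),(z1,[y2,z0,z0,z2,z5]),(z1,[z0,y1,y3,y3,y3,z3])],.ref k12 k0 [(z1,[z3,z2,z3,z0,z3,y3]),(z5,[y24,
    y8,y9,z0,y24,z24]),(z5,[z12,z4,z12,z15,z12,y12]),(z5,[y6,y2,y6,z0,z9,z6]),(z1,[z0,y1,y3,y3,y3,z3])],
    .ref k12 k0 [(z4,[y15,y1,y15,y15,z15,z15]),(z1,[z6,z2,z9,z6,y6,y6]),(z1,[y3,y1,y3,z0,z3,z3]),(z2,[z3,z1,z3,z3,z3,
    y3]),(z1,[z0,y1,y3,y3,y3,z3])],.ref k12 k0 [(z1,[y5,z1,z0,z0,z10]),(z1,[z8,z0,z3,z0,y16]),(z1,[y4,z0,z0,z3,z8]),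
    (z1,[z2,z0,z0,z0,y1]),(z1,[z0,y1,y3,y3,y3,z3])],.ref k12 k0 [(z2,[y15,y8,y30,y30,y15,z30]),(z1,[z12,z8,z27,z24,
    z12,y24]),(z1,[y6,y4,y12,y9,y6,z12]),(z1,[z3,z2,z6,z6,z6,y6]),(z1,[z0,y1,y3,y3,y3,z3])],.ref k12 k0 [(z1,[y15,y4,
    y15,y15,z0,z15]),(z1,[z24,z8,z27,z24,z0,y24]),(z1,[y12,y4,y12,y9,z0,z12]),(z1,[z6,z2,z6,z6,z3,y6]),(z1,[z0,y1,y3,
    y3,y3,z3])]],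
    .lp [k156,k176,k164,k152,k144,k166] [k10,k10,k0,k0,k6,k6,k12,k12,k16,k16,k5,k5] k0 [[k0,k0,k0,k0,k0,k0,k30,k0,k10],
    [k0,k0,k0,k0,k0,k12,k0,k0,k0,k0,k0,k4],[k0,k0,k0,k0,k0,k0,k0,k0,k0,k0,k4],[],[k12],[k0,k0,k0,k0,k0,k0,k0,k22,k0,
    k22],[k0,k0,k0,k0,k22,k0,k0,k0,k6],[k0,k30,k0,k0,k0,k0,k0,k0,k0,k0,k0,k16],[k0,k0,k0,k0,k22,k0,k0,k0,k0,k0,k20],
    [k0,k10,k0,k0,k0,k0,k0,k6],[k4,k0,k0,k0,k0,k0,k16],[k0,k0,k0,k4,k0,k0,k0,k0,k0,k20]] (nat_lit 480) k5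
    [[(k8,k130),(k0,k160),(k4,k160),(k10,k161),(k2,k162),(k6,k170)],[(k9,k120),(k11,k151),(k1,k160),(k5,k160),(k3,
    k166),(k7,k166)],[(k4,k158),(k0,k166),(k10,k167),(k8,k170),(k2,k176),(k6,k194)],[(k9,k160),(k1,k162),(k7,k164),
    (k5,k170),(k11,k171),(k3,k176)],[(k8,k154),(k6,k158),(k0,k160),(k4,k164),(k10,k169),(k2,k170)],[(k3,k158),(k7,
    k158),(k1,k160),(k5,k164),(k9,k176),(k11,k187)],[(k8,k126),(k6,k130),(k4,k158),(k10,k159),(k2,k164),(k0,k166)],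
    [(k7,k130),(k9,k148),(k11,k153),(k5,k158),(k1,k170),(k3,k194)],[(k0,k120),(k10,k139),(k6,k148),(k8,k150),(k2,
    k160),(k4,k176)],[(k7,k126),(k1,k130),(k9,k150),(k5,k154),(k11,k155),(k3,k170)],[(k0,k151),(k6,k153),(k8,k155),
    (k2,k171),(k10,k186),(k4,k187)],[(k9,k139),(k7,k159),(k1,k161),(k3,k167),(k5,k169),(k11,k186)]]
    [] k0
    [[k2,k0,k0,k0,k1,k0],[k2,k0,k0,k0,k0,k1],[k1,k1,k0,k0,k1,k0],[k1,k0,k1,k0,k1,k0],[k1,k0,k0,k2,k0,k0],[k1,k0,k0,k1,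
    k1,k0],[k1,k0,k0,k0,k2,k0],[k1,k0,k0,k0,k1,k1],[k0,k1,k1,k0,k1,k0],[k0,k0,k1,k2,k0,k0],[k0,k0,k1,k1,k1,k0],[k0,k0,
    k0,k3,k0,k0],[k0,k0,k0,k2,k1,k0],[k0,k0,k0,k2,k0,k1],[k0,k0,k0,k1,k2,k0],[k0,k0,k0,k1,k1,k1],[k0,k0,k0,k0,k3,k0],
    [k0,k0,k0,k0,k2,k1]]
    [.ref k12 k0 [(z5,[z8,z7,z8,z8,z8,y8]),(z5,[y4,z4,z11,y4,y4,z4]),(z5,[z2,y2,z2,z17,z2,y2]),(z10,[y11,z11,y11,y11,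
    z19,z11]),(z5,[y1,y14,y16,y16,y16,z16])],.ref k12 k0 [(z11,[z16,z1]),(z11,[y8,z16,z33]),(z11,[z4,y8,z0,z33]),(z1,
    [y1,z2,z0,z0,z3]),(z11,[y2,y29,y33,y33,y33,z33])],.ref k12 k0 [(z1,[z8,z3,z0,z8,z8,y8]),(z1,[y4,z0,z3,y4,y4,z4]),
    (z1,[z2,z0,z0,z5,z2,y2]),(z2,[y11,z0,z0,y11,y5,z11]),(z1,[y1,y3,y3,y4,y4,z4])],.ref k12 k0 [(z3,[z8,z9,z8,z0,z8,
    y8]),(z3,[y4,z0,z5,z0,y4,z4]),(z3,[z2,z0,z2,z9,z2,y2]),(z6,[y11,z0,y11,z0,z7,z11]),(z3,[y1,y9,y10,y9,y10,z10])],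
    .ref k12 k0 [(z1,[y8,z11,z0,z0,z16]),(z1,[z4,y4,z3,z0,y8]),(z1,[y2,z2,z0,z3,z4]),(z2,[z11,y11,z0,z0,y16]),(z1,[z1,
    y4,y3,y3,y5,z3])],.ref k12 k0 [(z1,[z16,z3,z16,z16,z0,y16]),(z1,[y8,z0,y5,y8,z0,z8]),(z1,[z4,z0,z4,z7,z0,y4]),(z1,
    [y11,z0,y11,y11,z3,z11]),(z1,[y2,y3,y5,y5,y3,z5])],.ref k12 k0 [(z1,[z4,z7,z8,z8,z8,y8]),(z1,[y2,y2,y1,y4,y4,z4]),
    (z1,[z1,z1,z2,z5,z2,y2]),(z4,[y11,y11,y22,y22,y10,z22]),(z2,[y1,y7,y8,y8,y8,z8])],.ref k12 k0 [(z5,[z16,z15,z16,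
    z16,z16,y16]),(z5,[y8,z0,z7,y8,y8,z8]),(z5,[z4,z0,z4,z19,z4,y4]),(z5,[y11,z0,y11,y11,z4,z11]),(z5,[y2,y15,y17,y17,
    y17,z17])],.ref k12 k0 [(z1,[y8,y5,z0,z0,y8,z8]),(z1,[z4,z4,z3,z0,z4,y4]),(z1,[y2,y2,z0,z3,y2,z2]),(z2,[z11,z11,
    z0,z0,z17,y11]),(z1,[z1,y2,y3,y3,y2,z2])],.ref k12 k0 [(z3,[y8,z9,z0,z8,z16]),(z3,[z4,z0,z9,y4,y8]),(z3,[y2,z0,z0,
    z11,z4]),(z6,[z11,z0,z0,y11,y4]),(z3,[z1,y9,y9,y10,y11,z9])],.ref k12 k0 [(z3,[y16,y7,y16,z0,z0,z16]),(z3,[z8,z8,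
    z17,z0,z0,y8]),(z3,[y4,y4,y4,z9,z0,z4]),(z3,[z11,z11,z11,z0,z9,y11]),(z3,[z2,y7,y7,y9,y9,z7])],.ref k12 k0 [(z11,
    [y16,z33,z0,z0,z48]),(z11,[z8,z0,z33,z0,y24]),(z11,[y4,z0,z0,z33,z12]),(z1,[z1]),(z11,[z2,y33,y33,y33,y39,z33])],
    .ref k12 k0 [(z1,[y2,z1,y2,y2,z2,z2]),(z1,[z1,z1,z4,z1,y1,y1]),(z2,[y1,y1,y1,z5,z1,z1]),(z8,[z11,z11,z11,z11,z13,
    y11]),(z4,[z1,y11,y11,y11,y13,z11])],.ref k12 k0 [(z7,[y16,z21,z0,z0,z32]),(z7,[z8,z0,z21,z0,y16]),(z7,[y4,z0,z0,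
    z21,z8]),(z7,[z11,z0,z0,z0,y1]),(z7,[z2,y21,y21,y21,y25,z21])],.ref k12 k0 [(z5,[y16,y17,y32,y32,y16,z32]),(z5,
    [z8,z16,z31,z16,z8,y16]),(z5,[y4,y8,y8,z7,y4,z8]),(z5,[z11,z22,z22,z22,z26,y22]),(z5,[z2,y11,y11,y11,y13,z11])],
    .ref k12 k0 [(z1,[y4,y1,y4,y4,z0,z4]),(z1,[z2,z2,z5,z2,z0,y2]),(z1,[y1,y1,y1,z2,z0,z1]),(z4,[z11,z11,z11,z11,z12,
    y11]),(z2,[z1,y5,y5,y5,y6,z5])],.ref k12 k0 [(z1,[y8,y21,y24,y24,y24,z24]),(z1,[z4,z12,z15,z12,z12,y12]),(z1,[y2,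
    y6,y6,y3,y6,z6]),(z2,[z11,z33,z33,z33,z39,y33]),(z1,[z1])],.ref k12 k0 [(z1,[y16,y29,y32,y32,y32,z32]),(z1,[z8,
    z16,z19,z16,z16,y16]),(z1,[y4,y8,y8,y5,y8,z8]),(z1,[z11,z22,z22,z22,z25,y22]),(z1,[z2,z1,z1,z1,z1,y1])]],
    .leafM k0 [k1,k2,k3,k4,k5,k0] [(z1,[y1,y1,z0,z0,z1])] [],
    .lp [k160,k160,k166,k156,k152,k164] [k3,k3,k3,k3,k0,k0,k5,k5,k7,k7,k1,k1] k0 [[k0,k0,k0,k0,k0,k0,k20],[k0,k0,k0,k0,k0,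
    k12],[k0,k0,k0,k0,k0,k0,k6,k0,k20],[k0,k0,k0,k0,k0,k12,k0,k0,k0,k0,k0,k6],[k12,k0,k12],[k0,k0,k0,k0,k0,k0,k0,k4,
    k0,k2],[k0,k0,k0,k0,k4,k0,k0,k0,k12],[k0,k20,k0,k6],[k0,k0,k0,k0,k2,k0,k0,k0,k0,k0,k12],[k0,k0,k0,k20,k0,k0,k0,
    k12],[k0,k0,k6],[k0,k0,k0,k0,k0,k0,k0,k0,k0,k12]] (nat_lit 480) k5
    [[(k8,k144),(k6,k158),(k0,k160),(k10,k162),(k4,k163),(k2,k166)],[(k9,k136),(k1,k160),(k3,k160),(k11,k162),(k5,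
    k163),(k7,k170)],[(k4,k151),(k8,k156),(k0,k160),(k2,k160),(k10,k162),(k6,k178)],[(k11,k142),(k9,k150),(k3,k160),
    (k5,k163),(k1,k166),(k7,k170)],[(k4,k154),(k10,k159),(k0,k163),(k2,k163),(k6,k167),(k8,k179)],[(k3,k151),(k5,
    k154),(k7,k161),(k1,k163),(k9,k163),(k11,k167)],[(k6,k152),(k8,k152),(k10,k160),(k4,k161),(k0,k170),(k2,k170)],
    [(k11,k148),(k7,k152),(k9,k154),(k1,k158),(k5,k167),(k3,k178)],[(k0,k136),(k2,k150),(k6,k154),(k10,k158),(k4,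
    k163),(k8,k164)],[(k1,k144),(k7,k152),(k3,k156),(k11,k158),(k9,k164),(k5,k179)],[(k2,k142),(k6,k148),(k8,k158),
    (k0,k162),(k4,k167),(k10,k176)],[(k9,k158),(k5,k159),(k7,k160),(k1,k162),(k3,k162),(k11,k176)]]
    [] k0
    [[k2,k0,k0,k0,k1,k0],[k1,k1,k0,k0,k1,k0],[k1,k0,k1,k0,k1,k0],[k1,k0,k0,k1,k1,k0],[k1,k0,k0,k0,k2,k0],[k1,k0,k0,k0,
    k1,k1],[k1,k1,k0,k0,k0,k1],[k0,k2,k1,k0,k0,k0],[k0,k2,k0,k0,k1,k0],[k0,k2,k0,k0,k0,k1],[k0,k1,k2,k0,k0,k0],[k0,k1,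
    k1,k0,k0,k1],[k0,k1,k0,k0,k2,k0],[k0,k1,k0,k0,k1,k1],[k0,k0,k3,k0,k0,k0],[k0,k0,k1,k1,k0,k1],[k0,k0,k0,k3,k0,k0],
    [k0,k0,k0,k2,k1,k0],[k0,k0,k0,k2,k0,k1],[k0,k0,k0,k1,k2,k0],[k0,k0,k0,k1,k1,k1]]
    [.ref k38 k5 [(z4,[y4,z30,z13,z7,y52]),(z4,[z0,y4,y1,y1,z8]),(z2,[z0,z5,z2,z1,y8]),(z1,[z0,y4,y2,y1,z8])],
    .ref k39 k5 [(z1,[y1,z4,z2,z1,y7]),(z4,[z0,y4,y1,y1,z8]),(z2,[z0,z5,z2,z1,y8]),(z1,[z0,y4,y2,y1,z8])],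
    .ref k22 k4 [(z3,[y8,z4,z0,z1]),(z6,[z8,z5,z0,y1]),(z12,[y8,z4,z9,z1]),(z6,[z10,y5,z0,z1])],.ref k40 k5 [(z4,[y4,
    z20,z9,z5,y36]),(z4,[z0,y4,y1,y1,z8]),(z2,[z0,z5,z2,z1,y8]),(z1,[z0,y4,y2,y1,z8])],.ref k39 k5 [(z4,[y2,z15,z7,z4,
    y28]),(z4,[z0,y4,y1,y1,z8]),(z2,[z0,z5,z2,z1,y8]),(z1,[z0,y4,y2,y1,z8])],.ref k41 k8 [(z2,[z2,z3,z2,z1,y8]),(z1,
    [z0,y4,y2,y1,z8]),(z2,[z0,z5,z2,z1,y8]),(z4,[z0,y4,y1,y1,z8])],.ref k22 k4 [(z1,[z4,y2,y1]),(z2,[y4,z5,z1]),(z2,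
    [z2,y1,z1]),(z8,[y20,z10,z5,z3])],.ref k13 k5 [(z2,[z2,z4,z1,z1,y8]),(z4,[z0,y4,y1,y1,z8]),(z2,[z0,z5,z2,z1,y8]),
    (z1,[z0,y4,y2,y1,z8])],.ref k41 k8 [(z2,[z2,z4,z1,z1,y8]),(z1,[z0,y4,y2,y1,z8]),(z2,[z0,z5,z2,z1,y8]),(z4,[z0,y4,
    y1,y1,z8])],.ref k22 k4 [(z1,[z2,z0,y1]),(z2,[y2,z3,z1]),(z2,[z1,z0,z1]),(z8,[y10,z0,z5,z3])],.ref k41 k8 [(z8,
    [y4,z16,z9,z5,y32]),(z1,[z0,y4,y2,y1,z8]),(z2,[z0,z5,z2,z1,y8]),(z4,[z0,y4,y1,y1,z8])],.ref k40 k5 [(z4,[z4,z20,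
    z9,z5,y40]),(z4,[z0,y4,y1,y1,z8]),(z2,[z0,z5,z2,z1,y8]),(z1,[z0,y4,y2,y1,z8])],.ref k13 k5 [(z8,[y4,z16,z9,z5,
    y32]),(z4,[z0,y4,y1,y1,z8]),(z2,[z0,z5,z2,z1,y8]),(z1,[z0,y4,y2,y1,z8])],.ref k42 k8 [(z4,[z4,z20,z9,z5,y40]),(z1,
    [z0,y4,y2,y1,z8]),(z2,[z0,z5,z2,z1,y8]),(z4,[z0,y4,y1,y1,z8])],.ref k43 k8 [(z4,[y4,z30,z15,z9,y60]),(z1,[z0,y4,
    y2,y1,z8]),(z2,[z0,z5,z2,z1,y8]),(z4,[z0,y4,y1,y1,z8])],.ref k39 k5 [(z1,[z1,z4,z2,z1,y8]),(z4,[z0,y4,y1,y1,z8]),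
    (z2,[z0,z5,z2,z1,y8]),(z1,[z0,y4,y2,y1,z8])],.ref k22 k4 [(z1,[y8,y12,y6,y3,z24]),(z2,[z8,z15,z6,z3,y24]),(z4,[y8,
    y12,y3,y3,z24]),(z4,[z20,z30,z15,z9,y60])],.ref k39 k5 [(z4,[y4,z10,z5,z3,y20]),(z4,[z0,y4,y1,y1,z8]),(z2,[z0,z5,
    z2,z1,y8]),(z1,[z0,y4,y2,y1,z8])],.ref k22 k4 [(z1,[z4,z4,z2,z1,y8]),(z2,[y4,y1,y2,y1,z8]),(z4,[z4,z4,z5,z1,y8]),
    (z4,[y10,y10,y5,y1,z20])],.ref k44 k4 [(z1,[y8,y4,y2,y1,z8]),(z2,[z8,z5,z2,z1,y8]),(z4,[y8,y4,y1,y1,z8]),(z4,[z20,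
    z10,z5,z3,y20])],.ref k45 k8 [(z1,[z1,z4,z2,z1,y8]),(z1,[z0,y4,y2,y1,z8]),(z2,[z0,z5,z2,z1,y8]),(z4,[z0,y4,y1,y1,
    z8])]],
    .leafM k0 [k0,k1,k2,k3,k4,k5] [(z3,[z0,z1,z1,z1])] []]

noncomputable def cT6_3_n0_4 : List TN :=
  [.lp [k160,k166,k168,k150,k146,k168] [k4,k4,k1,k1,k0,k0,k9,k9,k11,k11,k0,k0] k0 [[k0,k0,k0,k0,k0,k0,k18,k0,k2],[k0,k0,
    k0,k0,k0,k2],[k0,k0,k0,k0,k2,k0,k0,k0,k0,k0,k12],[k0,k0,k0,k0,k0,k0,k0,k0,k0,k6],[k2,k0,k0,k0,k0,k0,k0,k0,k38],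
    [k0,k0,k0,k2,k0,k0,k0,k2],[k0,k0,k0,k0,k2],[k0,k18,k0,k0,k0,k0,k0,k0,k0,k0,k0,k8],[k0,k0,k6,k0,k0,k0,k0,k0,k0,k0,
    k6],[k0,k2,k0,k0,k0,k38],[k0,k0,k0,k0,k0,k0,k8],[k0,k0,k0,k12,k0,k0,k0,k0,k0,k6]] (nat_lit 480) k5
    [[(k8,k147),(k2,k151),(k0,k160),(k6,k163),(k4,k164),(k10,k164)],[(k9,k135),(k7,k157),(k1,k160),(k11,k162),(k3,
    k163),(k5,k164)],[(k8,k158),(k0,k163),(k4,k165),(k2,k166),(k10,k167),(k6,k176)],[(k1,k151),(k7,k156),(k9,k156),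
    (k3,k166),(k5,k167),(k11,k173)],[(k8,k151),(k6,k159),(k0,k164),(k2,k167),(k4,k170),(k10,k180)],[(k11,k130),(k7,
    k159),(k9,k159),(k1,k164),(k3,k165),(k5,k170)],[(k6,k148),(k2,k156),(k0,k157),(k4,k159),(k10,k159),(k8,k186)],
    [(k7,k148),(k9,k148),(k5,k159),(k11,k159),(k1,k163),(k3,k176)],[(k0,k135),(k8,k146),(k6,k148),(k10,k149),(k2,
    k156),(k4,k159)],[(k9,k146),(k1,k147),(k5,k151),(k11,k157),(k3,k158),(k7,k186)],[(k4,k130),(k8,k157),(k6,k159),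
    (k0,k162),(k2,k173),(k10,k174)],[(k9,k149),(k7,k159),(k1,k164),(k3,k167),(k11,k174),(k5,k180)]]
    [] k0
    [[k2,k1,k0,k0,k0,k0],[k2,k0,k0,k0,k1,k0],[k1,k1,k0,k0,k1,k0],[k1,k0,k1,k0,k1,k0],[k1,k0,k0,k2,k0,k0],[k1,k0,k0,k1,
    k1,k0],[k1,k0,k0,k0,k2,k0],[k1,k0,k0,k0,k1,k1],[k1,k0,k1,k0,k0,k1],[k0,k1,k1,k0,k1,k0],[k0,k1,k0,k1,k1,k0],[k0,k1,
    k0,k0,k2,k0],[k0,k1,k1,k0,k0,k1],[k0,k0,k1,k2,k0,k0],[k0,k0,k1,k1,k0,k1],[k0,k0,k1,k1,k1,k0],[k0,k0,k1,k0,k2,k0],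
    [k0,k0,k1,k0,k1,k1],[k0,k0,k0,k3,k0,k0],[k0,k0,k0,k2,k0,k1],[k0,k0,k0,k1,k1,k1],[k0,k0,k0,k0,k3,k0],[k0,k0,k0,k0,
    k2,k1]]
    [.ref k12 k0 [(z1,[z2,y1,y2]),(z1,[y1,z2,z4]),(z8,[y11,z22,z11,z24]),(z2,[z1,y2,y1,z0,z6]),(z4,[y1,y10,y11,y12,
    y12,z12])],.ref k12 k0 [(z5,[z8,z7,z8,z8,z8,y8]),(z5,[y4,z4,z11,y4,y4,z4]),(z10,[y11,z11,y11,z19,y11,z11]),(z5,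
    [z2,y2,z2,z2,z17,y2]),(z5,[y1,y14,y16,y16,y16,z16])],.ref k12 k0 [(z1,[z8,z3,z0,z8,z8,y8]),(z1,[y4,z0,z3,y4,y4,
    z4]),(z2,[y11,z0,z0,y5,y11,z11]),(z1,[z2,z0,z0,z2,z5,y2]),(z1,[y1,y3,y3,y4,y4,z4])],.ref k12 k0 [(z1,[z16,z3,z16,
    z0,z16,y16]),(z1,[y8,z0,y5,z0,y8,z8]),(z1,[y11,z0,y11,z3,y11,z11]),(z1,[z4,z0,z4,z0,z7,y4]),(z1,[y2,y3,y5,y3,y5,
    z5])],.ref k12 k0 [(z1,[z2,z1,z0,z0,y4]),(z1,[y1,z1,z3,z0,z2]),(z8,[y11,z11,z0,z24,z22]),(z2,[z1,y1,z0,z0,z4]),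
    (z4,[y1,y11,y12,y12,y10,z12])],.ref k12 k0 [(z3,[z8,z9,z8,z8,z0,y8]),(z3,[y4,z0,z5,y4,z0,z4]),(z6,[y11,z0,y11,z7,
    z0,z11]),(z3,[z2,z0,z2,z2,z9,y2]),(z3,[y1,y9,y10,y10,y9,z10])],.ref k12 k0 [(z1,[z4,z7,z8,z8,z8,y8]),(z1,[y2,y2,
    y1,y4,y4,z4]),(z4,[y11,y11,y22,y10,y22,z22]),(z1,[z1,z1,z2,z2,z5,y2]),(z2,[y1,y7,y8,y8,y8,z8])],.ref k12 k0 [(z5,
    [z16,z15,z16,z16,z16,y16]),(z5,[y8,z0,z7,y8,y8,z8]),(z5,[y11,z0,y11,z4,y11,z11]),(z5,[z4,z0,z4,z4,z19,y4]),(z5,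
    [y2,y15,y17,y17,y17,z17])],.ref k12 k0 [(z1,[z8,y5,z0,y8]),(z1,[y4,z4,z3,z4]),(z2,[y11,z11,z0,z17]),(z1,[z2,y2,z0,
    y2,z3]),(z1,[y1,y2,y3,y2,y3,z3])],.ref k12 k0 [(z7,[y16,z5,z0,z0,y16,z16]),(z7,[z8,z8,z21,z0,z8,y8]),(z7,[z11,z11,
    z0,z21,z11,y11]),(z7,[y4,y4,z0,z0,z17,z4]),(z7,[z2,y19,y21,y21,y19,z19])],.ref k12 k0 [(z1,[y8,y5,z0,y8,z0,z8]),
    (z1,[z4,z4,z3,z4,z0,y4]),(z2,[z11,z11,z0,z17,z0,y11]),(z1,[y2,y2,z0,y2,z3,z2]),(z1,[z1,y2,y3,y2,y3,z2])],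
    .ref k12 k0 [(z1,[y4,y5,y4,y8,y8,z8]),(z1,[z2,z4,z5,z4,z4,y4]),(z4,[z11,z22,z11,z34,z22,y22]),(z1,[y1,y2,y1,y2,z1,
    z2]),(z2,[z1,y4,y5,y4,y4,z4])],.ref k12 k0 [(z3,[y8,z9,z8,z8]),(z3,[z4,z0,z5,y4]),(z6,[z11,z0,y11,z7]),(z3,[y2,z0,
    z2,z2,z9]),(z3,[z1,y9,y10,y10,y9,z9])],.ref k12 k0 [(z1,[y16,z3,z0,z16,z32]),(z1,[z8,z0,z3,y8,y16]),(z1,[z11,z0,
    z0,y8,y22]),(z1,[y4,z0,z0,z4,z11]),(z1,[z2,y3,y3,y5,y7,z3])],.ref k12 k0 [(z1,[y8,z3,z0,z8,z8]),(z1,[z4,z0,z3,y4,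
    y4]),(z2,[z11,z0,z0,y5,y11]),(z1,[y2,z0,z0,z2,z5]),(z1,[z1,y3,y3,y4,y4,z3])],.ref k12 k0 [(z3,[y16,y7,y16,z0,z0,
    z16]),(z3,[z8,z8,z17,z0,z0,y8]),(z3,[z11,z11,z11,z9,z0,y11]),(z3,[y4,y4,y4,z0,z9,z4]),(z3,[z2,y7,y7,y9,y9,z7])],
    .ref k12 k0 [(z5,[y16,y17,y32,y16,y32,z32]),(z5,[z8,z16,z31,z8,z16,y16]),(z5,[z11,z22,z22,z26,z22,y22]),(z5,[y4,
    y8,y8,y4,z7,z8]),(z5,[z2,y11,y11,y13,y11,z11])],.ref k12 k0 [(z1,[y4,y1,y4,z0,y4,z4]),(z1,[z2,z2,z5,z0,z2,y2]),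
    (z4,[z11,z11,z11,z12,z11,y11]),(z1,[y1,y1,y1,z0,z2,z1]),(z2,[z1,y5,y5,y6,y5,z5])],.ref k12 k0 [(z1,[z4,z3,z0,z0,
    y12]),(z1,[y2,z0,z3,z0,z6]),(z4,[y11,z0,z0,z12,z33]),(z1,[z1]),(z2,[y1,y6,y6,y6,y3,z6])],.ref k12 k0 [(z3,[z16,z9,
    z0,z0,y32]),(z3,[y8,z0,z9,z0,z16]),(z3,[y11,z0,z0,z9,z22]),(z3,[z4,z0,z0,z0,z1]),(z3,[y2,y9,y9,y9,y5,z9])],
    .ref k12 k0 [(z1,[z16,z19,z16,z16,z0,y16]),(z1,[y8,y8,y5,y8,z0,z8]),(z1,[y11,y11,y11,y8,z0,z11]),(z1,[z4,z4,z4,z4,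
    z3,y4]),(z1,[y2,y5,y5,y5,y3,z5])],.ref k12 k0 [(z1,[y8,y21,y24,y24,y24,z24]),(z1,[z4,z12,z15,z12,z12,y12]),(z2,
    [z11,z33,z33,z39,z33,y33]),(z1,[y2,y6,y6,y6,y3,z6]),(z1,[z1])],.ref k12 k0 [(z1,[y16,y29,y32,y32,y32,z32]),(z1,
    [z8,z16,z19,z16,z16,y16]),(z1,[z11,z22,z22,z25,z22,y22]),(z1,[y4,y8,y8,y8,y5,z8]),(z1,[z2,z1,z1,z1,z1,y1])]],
    .leafM k1 [k0,k1,k2,k3,k4,k5] [(z1,[z0,z1,z0,z1]),(z1,[z0,y1,z0,y1,z1])] [],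
    .lp [k84,k84,k84,k74,k82,k70] [k0,k0,k0,k0,k0,k0,k5,k5,k1,k1,k9,k5] k0 [[k0,k0,k0,k0,k0,k0,k0,k0,k0,k0,k4],[k0,k0,k0,
    k2],[k2,k0,k0,k0,k0,k0,k0,k0,k0,k0,k2],[k0,k0,k0,k0,k0,k0,k0,k2,k0,k12],[k0,k0,k0,k0,k0,k0,k10],[k0,k0,k0,k0,k0,
    k0,k0,k0,k0,k0,k0,k2],[k0,k0,k2,k0,k0,k0,k0,k0,k14],[k0,k0,k0,k0,k0,k10,k0,k0,k0,k0,k0,k2],[k0,k0,k12],[k0,k0,k0,
    k0,k0,k0,k0,k14],[k0,k0,k0,k0,k2,k0,k2],[k0,k4,k0,k2]] (nat_lit 240) k5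
    [[(k10,k75),(k0,k80),(k6,k81),(k2,k82),(k8,k83),(k4,k86)],[(k7,k79),(k11,k79),(k1,k80),(k9,k83),(k3,k84),(k5,
    k86)],[(k6,k79),(k10,k79),(k2,k82),(k8,k83),(k0,k84),(k4,k84)],[(k7,k79),(k1,k82),(k3,k82),(k5,k84),(k9,k85),(k11,
    k91)],[(k8,k71),(k6,k77),(k10,k77),(k2,k84),(k4,k84),(k0,k86)],[(k9,k73),(k7,k79),(k11,k79),(k3,k84),(k5,k84),(k1,
    k86)],[(k10,k68),(k8,k78),(k0,k79),(k2,k79),(k4,k79),(k6,k84)],[(k11,k60),(k5,k77),(k9,k78),(k3,k79),(k1,k81),(k7,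
    k84)],[(k10,k72),(k4,k73),(k6,k78),(k0,k83),(k2,k85),(k8,k96)],[(k5,k71),(k7,k78),(k11,k78),(k1,k83),(k3,k83),(k9,
    k96)],[(k6,k60),(k10,k70),(k8,k78),(k0,k79),(k4,k79),(k2,k91)],[(k7,k68),(k11,k70),(k9,k72),(k1,k75),(k5,k77),(k3,
    k79)]]
    [] k0
    [[k2,k0,k0,k0,k0,k1],[k1,k0,k0,k1,k0,k1],[k1,k0,k0,k0,k1,k1],[k1,k0,k0,k0,k0,k2],[k0,k1,k0,k1,k0,k1],[k0,k0,k2,k0,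
    k1,k0],[k0,k0,k1,k1,k1,k0],[k0,k0,k1,k1,k0,k1],[k0,k0,k1,k0,k1,k1],[k0,k0,k1,k0,k0,k2],[k0,k0,k0,k2,k0,k1],[k0,k0,
    k0,k1,k1,k1],[k0,k0,k0,k1,k0,k2],[k0,k0,k0,k0,k1,k2],[k0,k0,k0,k0,k0,k3]]
    [.ref k12 k0 [(z3,[z4,z1]),(z3,[y2,z4,z9]),(z3,[z1,y2,z0,z9]),(z3,[y8,z16,z0,z0,z9]),(z3,[z4,y17,y9,y9,y9,z9])],
    .ref k12 k0 [(z1,[y4,z7,z0,z0,z4]),(z1,[z2,y2,z3,z0,y2]),(z1,[y1,z1,z0,z3,z1]),(z1,[z8,y8,z0,z0,y5]),(z1,[y4,z1,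
    y3,y3,z1,z3])],.ref k12 k0 [(z3,[z4,z9,z4,z4,z4,y4]),(z3,[y2,z0,z7,y2,y2,z2]),(z3,[z1,z0,z1,z10,z1,y1]),(z3,[y8,
    z0,y8,y8,z1,z8]),(z3,[z4,y9,y5,y5,y5,z5])],.ref k12 k0 [(z1,[z2,z1]),(z1,[y1,z1,z3]),(z2,[z1,y1,z0,z6]),(z1,[y4,
    z4,z0,z0,z3]),(z1,[z2,y5,y3,y3,y3,z3])],.ref k12 k0 [(z3,[y4,z9,z4,z0,z4]),(z3,[z2,z0,z7,z0,y2]),(z3,[y1,z0,z1,z9,
    z1]),(z3,[z8,z0,y8,z0,z1]),(z3,[y4,y9,y5,y9,y5,z9])],.ref k12 k0 [(z1,[z2,z5,z2,y2,z2,y2]),(z1,[y1,y1,z2,z1,y1,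
    z1]),(z2,[z1,z1,z1,z5,z1,y1]),(z1,[y4,y4,y4,z4,y1,z4]),(z1,[z2,y1,y1,y5,y1,z1])],.ref k12 k0 [(z1,[y4,y1,y4,z0,z0,
    z4]),(z1,[z2,z2,z5,z0,z0,y2]),(z1,[y1,y1,y1,z3,z0,z1]),(z1,[z8,z8,z8,z0,z3,y8]),(z1,[y4,y7,y7,y3,y3,z7])],
    .ref k12 k0 [(z1,[y2,z3,z0,z2,z2]),(z1,[z1,z0,z3,y1,y1]),(z2,[y1,z0,z0,z7,z1]),(z1,[z4,z0,z0,y4,y1]),(z1,[y2,y3,
    y3,y1,y1,z3])],.ref k12 k0 [(z1,[z2,z5,z2,z0,z2,y2]),(z1,[y1,y1,z2,z0,y1,z1]),(z2,[z1,z1,z1,z6,z1,y1]),(z1,[y4,y4,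
    y4,z0,y1,z4]),(z1,[z2,y1,y1,y3,y1,z1])],.ref k12 k0 [(z1,[z4,z3,z0,y4]),(z1,[y2,z0,z3,z2]),(z1,[z1,z0,z0,z2]),(z1,
    [y8,z0,z0,z8,z3]),(z1,[z4,y3,y3,y7,y3,z3])],.ref k12 k0 [(z5,[y4,z15,z0,z0,z8]),(z5,[z2,z0,z15,z0,y4]),(z5,[y1,z0,
    z0,z15,z2]),(z5,[z8,z0,z0,z0,y1]),(z5,[y4,y15,y15,y15,y7,z15])],.ref k12 k0 [(z1,[y4,y1,y4,y4,z0,z4]),(z1,[z2,z2,
    z5,z2,z0,y2]),(z1,[y1,y1,y1,z2,z0,z1]),(z1,[z8,z8,z8,z8,z3,y8]),(z1,[y4,y7,y7,y7,y3,z7])],.ref k12 k0 [(z1,[y2,z3,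
    z0,z0,z2]),(z1,[z1,z0,z3,z0,y1]),(z2,[y1,z0,z0,z6,z1]),(z1,[z4,z0,z0,z0,y1]),(z1,[y2,y3,y3,y3,y1,z3])],
    .ref k12 k0 [(z1,[z2,z5,z2,z2,z2,y2]),(z1,[y1,y1,z2,y1,y1,z1]),(z2,[z1,z1,z1,z7,z1,y1]),(z1,[y4,y4,y4,y4,y1,z4]),
    (z1,[z2,y1,y1,y1,y1,z1])],.ref k12 k0 [(z1,[z4,z3]),(z1,[y2,z0,z3]),(z1,[z1,z0,z0,z3]),(z1,[y8,z0,z0,z0,z3]),(z1,
    [z4,y3,y3,y3,y3,z3])]],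
    .lp [k168,k170,k154,k164,k140,k162] [k1,k1,k0,k0,k8,k8,k3,k3,k15,k15,k4,k4] k0 [[k0,k0,k0,k0,k0,k0,k0,k0,k4,k0,k8],
    [k0,k0,k0,k0,k0,k0,k0,k8],[k0,k0,k0,k0,k8,k0,k0,k0,k0,k0,k10],[k0,k0,k0,k0,k0,k0,k0,k0,k0,k4],[k0,k0,k0,k0,k0,k0,
    k12],[k0,k0,k0,k8],[k8],[k0,k0,k0,k0,k0,k12],[k0,k0,k4],[k0,k4,k0,k0,k0,k0,k0,k0,k0,k0,k0,k8],[k0,k0,k0,k0,k0,k0,
    k0,k0,k8],[k0,k8,k0,k10]] (nat_lit 480) k5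
    [[(k2,k159),(k0,k160),(k4,k161),(k8,k162),(k10,k165),(k6,k166)],[(k1,k160),(k5,k161),(k11,k161),(k9,k162),(k7,
    k166),(k3,k169)],[(k6,k159),(k8,k159),(k4,k162),(k0,k169),(k2,k170),(k10,k174)],[(k9,k155),(k1,k159),(k7,k159),
    (k5,k162),(k3,k170),(k11,k170)],[(k8,k143),(k6,k159),(k0,k161),(k2,k162),(k4,k162),(k10,k168)],[(k9,k135),(k11,
    k158),(k7,k159),(k1,k161),(k3,k162),(k5,k162)],[(k8,k152),(k2,k159),(k4,k159),(k10,k163),(k0,k166),(k6,k176)],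
    [(k9,k152),(k3,k159),(k5,k159),(k11,k163),(k1,k166),(k7,k176)],[(k4,k135),(k8,k140),(k10,k151),(k6,k152),(k2,
    k155),(k0,k162)],[(k9,k140),(k5,k143),(k11,k151),(k7,k152),(k3,k159),(k1,k162)],[(k8,k151),(k10,k154),(k4,k158),
    (k0,k161),(k6,k163),(k2,k170)],[(k9,k151),(k11,k154),(k7,k163),(k1,k165),(k5,k168),(k3,k174)]]
    [] k0
    [[k1,k0,k1,k0,k1,k0],[k1,k0,k0,k0,k2,k0],[k1,k0,k0,k0,k1,k1],[k0,k1,k1,k0,k1,k0],[k0,k1,k0,k1,k1,k0],[k0,k1,k0,k0,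
    k2,k0],[k0,k0,k2,k0,k1,k0],[k0,k0,k1,k1,k1,k0],[k0,k0,k1,k0,k2,k0],[k0,k0,k1,k0,k1,k1],[k0,k0,k0,k1,k2,k0],[k0,k0,
    k0,k1,k1,k1],[k0,k0,k0,k0,k3,k0],[k0,k0,k0,k0,k2,k1],[k0,k0,k0,k0,k1,k2],[k0,k0,k0,k0,k0,k3]]
    [.ref k12 k0 [(z77,[z11,z21,z1,z0,z1,y11]),(z77,[y22,z0,z19,z0,y2,z22]),(z77,[z44,z0,z4,z21,z4,y44]),(z77,[y88,z0,
    y8,z0,z13,z88]),(z77,[(Int.ofNat (nat_lit 176)),y21,y5,y21,y5,z55])],.ref k12 k0 [((Int.ofNat (nat_lit 121)),[z11,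
    z34,z2,z2,z2,y22]),((Int.ofNat (nat_lit 121)),[y22,y2,z29,y4,y4,z44]),((Int.ofNat (nat_lit 121)),[z44,z4,z8,z41,
    z8,y88]),((Int.ofNat (nat_lit 121)),[y88,y8,y16,y16,z17,(Int.ofNat (nat_lit 176))]),((Int.ofNat (nat_lit 121)),
    [(Int.ofNat (nat_lit 176)),y17,y1,y1,y1,z11])],.ref k12 k0 [(z22,[z11,z6,z1,z1,z1,y11]),(z11,[y11,z0,z2,y1,y1,
    z11]),(z11,[z22,z0,z2,z5,z2,y22]),(z11,[y44,z0,y4,y4,y1,z44]),(z11,[z88,y3,z5,z5,z5,y55])],.ref k12 k0 [(z66,[z11,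
    z19,z0,z0,z1,y11]),(z33,[y11,y1,z9,z0,y1,z11]),(z33,[z22,z2,z0,z9,z2,y22]),(z33,[y44,y4,z0,z0,z5,z44]),(z33,[z88,
    y1,y9,y9,y1,z11])],.ref k12 k0 [(z22,[z11,z7,z0,z1,z0,y11]),(z11,[y11,y1,z3,y1,z0,z11]),(z11,[z22,z2,z0,z5,z0,
    y22]),(z11,[y44,y4,z0,y4,z3,z44]),(z11,[z88,z5,y3,z5,y3,y55])],.ref k12 k0 [((Int.ofNat (nat_lit 110)),[z11,z32,
    z1,z2,z2,y22]),(z55,[y11,y2,z14,y2,y2,z22]),(z55,[z22,z4,z2,z19,z4,y44]),(z55,[y44,y8,y4,y8,z7,z88]),(z55,[z88,z1,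
    y7,z1,z1,y11])],.ref k12 k0 [(z88,[z11,z25,z1,y1,z1,y11]),(z44,[y11,y1,z11,z1,y1,z11]),(z22,[z11,z1,z1,z5,z1,
    y11]),(z11,[y11,y1,y1,z1,z2,z11]),(z11,[z22,y1,y1,y5,y1,z11])],.ref k12 k0 [(z44,[z11,z13,z1,z0,z0,y11]),(z22,
    [y11,y1,z5,z0,z0,z11]),(z11,[z11,z1,z1,z3,z0,y11]),(z11,[y22,y2,y2,z0,z3,z22]),(z11,[z44,z1,z1,y3,y3,y11])],
    .ref k12 k0 [((Int.ofNat (nat_lit 132)),[z11,z38,z2,z1,z2,y22]),(z66,[y11,y2,z16,y1,y2,z22]),(z33,[z11,z2,z2,z10,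
    z2,y22]),(z33,[y22,y4,y4,y2,z5,z44]),(z33,[z44,y1,y1,y5,y1,z11])],.ref k12 k0 [(z33,[z11,z10,z1,z0,z1,y11]),(z33,
    [y22,y2,z7,z0,y2,z22]),(z33,[z44,z4,z4,z9,z4,y44]),(z33,[y88,y8,y8,z0,z1,z88]),(z33,[(Int.ofNat (nat_lit 176)),z7,
    z7,y9,z7,y77])],.ref k12 k0 [(z88,[z11,z26,z2,z2,z1,y22]),(z44,[y11,y2,z10,y2,y1,z22]),(z22,[z11,z2,z2,z8,z1,
    y22]),(z11,[y11,y2,y2,y2,z2,z22]),(z11,[z22,z1,z1,z1,y1,y11])],.ref k12 k0 [(z11,[y11,z2,y1,y1,z0,z11]),(z11,[z22,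
    z2,z5,z2,z0,y22]),(z11,[y44,y4,y4,y1,z0,z44]),(z11,[z88,z8,z8,z8,z3,y88]),(z11,[(Int.negSucc (nat_lit 175)),y19,
    y19,y19,y3,(Int.ofNat (nat_lit 209))])],.ref k12 k0 [((Int.ofNat (nat_lit 176)),[z11,z51,z3,z3,z3,y33]),(z88,[y11,
    y3,z21,y3,y3,z33]),(z44,[z11,z3,z3,z15,z3,y33]),(z22,[y11,y3,y3,y3,z3,z33]),(z1,[z1])],.ref k12 k0 [(z77,[z11,z23,
    z2,z2,z2,y22]),(z77,[y22,y4,z17,y4,y4,z44]),(z77,[z44,z8,z8,z29,z8,y88]),(z77,[y88,y16,y16,y16,z5,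
    (Int.ofNat (nat_lit 176))]),(z7,[z16,z1,z1,z1,z1,y11])],.ref k12 k0 [(z22,[y11,z5,y1,y1,y1,z11]),(z11,[z11,z1,z4,
    z1,z1,y11]),(z11,[y22,y2,y2,z1,y2,z22]),(z11,[z44,z4,z4,z4,z7,y44]),(z1,[y8,y1,y1,y1,y1,z11])],.ref k12 k0 [(z11,
    [y1,z3]),(z11,[z2,z0,z3]),(z11,[y4,z0,z0,z3]),(z11,[z8,z0,z0,z0,z3]),(z11,[y16,y3,y3,y3,y3,z33])]],
    .lp [k168,k170,k154,k164,k140,k162] [k1,k1,k0,k0,k8,k8,k3,k3,k15,k15,k4,k4] k0 [[k0,k0,k0,k0,k0,k0,k0,k0,k4,k0,k8],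
    [k0,k0,k0,k0,k0,k0,k0,k8],[k0,k0,k0,k0,k8,k0,k0,k0,k0,k0,k10],[k0,k0,k0,k0,k0,k0,k0,k0,k0,k4],[k0,k0,k0,k0,k0,k0,
    k12],[k0,k0,k0,k8],[k8],[k0,k0,k0,k0,k0,k12],[k0,k0,k4],[k0,k4,k0,k0,k0,k0,k0,k0,k0,k0,k0,k8],[k0,k0,k0,k0,k0,k0,
    k0,k0,k8],[k0,k8,k0,k10]] (nat_lit 480) k5
    [[(k2,k159),(k0,k160),(k4,k161),(k8,k162),(k10,k165),(k6,k166)],[(k1,k160),(k5,k161),(k11,k161),(k9,k162),(k7,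
    k166),(k3,k169)],[(k6,k159),(k8,k159),(k4,k162),(k0,k169),(k2,k170),(k10,k174)],[(k9,k155),(k1,k159),(k7,k159),
    (k5,k162),(k3,k170),(k11,k170)],[(k8,k143),(k6,k159),(k0,k161),(k2,k162),(k4,k162),(k10,k168)],[(k9,k135),(k11,
    k158),(k7,k159),(k1,k161),(k3,k162),(k5,k162)],[(k8,k152),(k2,k159),(k4,k159),(k10,k163),(k0,k166),(k6,k176)],
    [(k9,k152),(k3,k159),(k5,k159),(k11,k163),(k1,k166),(k7,k176)],[(k4,k135),(k8,k140),(k10,k151),(k6,k152),(k2,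
    k155),(k0,k162)],[(k9,k140),(k5,k143),(k11,k151),(k7,k152),(k3,k159),(k1,k162)],[(k8,k151),(k10,k154),(k4,k158),
    (k0,k161),(k6,k163),(k2,k170)],[(k9,k151),(k11,k154),(k7,k163),(k1,k165),(k5,k168),(k3,k174)]]
    [] k0
    [[k1,k0,k1,k0,k1,k0],[k1,k0,k0,k0,k2,k0],[k1,k0,k0,k0,k1,k1],[k0,k1,k1,k0,k1,k0],[k0,k1,k0,k1,k1,k0],[k0,k1,k0,k0,
    k2,k0],[k0,k0,k2,k0,k1,k0],[k0,k0,k1,k1,k1,k0],[k0,k0,k1,k0,k2,k0],[k0,k0,k1,k0,k1,k1],[k0,k0,k0,k1,k2,k0],[k0,k0,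
    k0,k1,k1,k1],[k0,k0,k0,k0,k3,k0],[k0,k0,k0,k0,k2,k1],[k0,k0,k0,k0,k1,k2],[k0,k0,k0,k0,k0,k3]]
    [.ref k12 k0 [(z1,[z0,z1]),(z1,[z0,z0,z1]),(z15,[z9,z0,z3,z5,z1,y9]),(z5,[y6,z0,y2,z0,z1,z6]),(z15,[z36,y15,y3,y5,
    y1,z9])],.ref k12 k0 [(z1,[z0,z1]),(z1,[z0,z0,z1]),(z24,[z9,z3,z6,z10,z2,y18]),(z12,[y9,y3,y6,y2,z2,z18]),(z2,[z3,
    y1])],.ref k12 k0 [(z1,[z0,z1]),(z1,[z0,z0,z1]),(z3,[z9,z0,z3,z2,z1,y9]),(z3,[y18,z0,y6,y2,y1,z18]),(z1,[z12,y1,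
    z3,z1,z1,y9])],.ref k12 k0 [(z1,[z0,z1]),(z1,[z0,z0,z1]),(z15,[z9,z3,z0,z5,z1,y9]),(z5,[y6,y2,z0,z0,z1,z6]),(z15,
    [z36,y3,y15,y5,y1,z9])],.ref k12 k0 [(z1,[z0,z1]),(z1,[z0,z0,z1]),(z2,[z3,z1,z0,z1,z0,y3]),(z3,[y9,y3,z0,y1,z1,
    z9]),(z3,[z18,z3,y3,z1,y1,y9])],.ref k12 k0 [(z1,[z0,z1]),(z1,[z0,z0,z1]),(z24,[z9,z6,z3,z10,z2,y18]),(z12,[y9,y6,
    y3,y2,z2,z18]),(z2,[z3,z0,y1])],.ref k12 k0 [(z1,[z0,z1]),(z1,[z0,z0,z1]),(z18,[z9,z3,z3,z5,z1,y9]),(z9,[y9,y3,y3,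
    z1,z2,z9]),(z9,[z18,y3,y3,y5,y1,z9])],.ref k12 k0 [(z1,[z0,z1]),(z1,[z0,z0,z1]),(z3,[z3,z1,z1,z1,z0,y3]),(z3,[y6,
    y2,y2,z0,z1,z6]),(z3,[z12,z1,z1,y1,y1,y3])],.ref k12 k0 [(z1,[z0,z1]),(z1,[z0,z0,z1]),(z27,[z9,z6,z6,z10,z2,y18]),
    (z27,[y18,y12,y12,y2,z5,z36]),(z27,[z36,y3,y3,y5,y1,z9])],.ref k12 k0 [(z1,[z0,z1]),(z1,[z0,z0,z1]),(z6,[z9,z3,z3,
    z2,z1,y9]),(z1,[y3,y1,y1,z0,z0,z3]),(z3,[z18,z3,z3,y1,z1,y9])],.ref k12 k0 [(z1,[z0,z1]),(z1,[z0,z0,z1]),(z18,[z9,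
    z6,z6,z8,z1,y18]),(z9,[y9,y6,y6,y2,z2,z18]),(z9,[z18,z3,z3,z1,y1,y9])],.ref k12 k0 [(z1,[z0,z1]),(z1,[z0,z0,z1]),
    (z1,[y3,y1,y1,z0,z0,z3]),(z3,[z18,z6,z6,z2,z1,y18]),(z3,[y36,y15,y15,y5,y1,z45])],.ref k12 k0 [(z1,[z0,z1]),(z1,
    [z0,z0,z1]),(z12,[z3,z3,z3,z5,z1,y9]),(z6,[y3,y3,y3,y1,z1,z9]),(z1,[z1])],.ref k12 k0 [(z1,[z0,z1]),(z1,[z0,z0,
    z1]),(z15,[z9,z6,z6,z7,z2,y18]),(z15,[y18,y12,y12,y4,z1,z36]),(z5,[z12,z3,z3,z1,z1,y9])],.ref k12 k0 [(z1,[z0,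
    z1]),(z1,[z0,z0,z1]),(z6,[y9,y3,y3,z1,y1,z9]),(z3,[z9,z3,z3,z1,z2,y9]),(z1,[y6,y3,y3,y1,y1,z9])],.ref k12 k0 [(z1,
    [z0,z1]),(z1,[z0,z0,z1]),(z3,[y1,z0,z0,z1]),(z3,[z2,z0,z0,z0,z1]),(z3,[y4,y3,y3,y1,y1,z9])]]]

/-- the nodes with numbers from 0 -/
noncomputable def cT6_3_n0 : List TN :=
  cT6_3_n0_0 ++ (cT6_3_n0_1 ++ (cT6_3_n0_2 ++ (cT6_3_n0_3 ++ cT6_3_n0_4)))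

theorem cT6_3_k0 : allI (chkT 6 cT6_3_w tt6 cT6_3_s (blkF [] cT6_3_D)) cT6_3_n0 0 = true := by
  decide +kernel

end Pool.Agent.Lib_MP_fa6e45
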