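import Pool.Agent.Lib_MP_fa6e45.CG6_2d

/-!
MP_fa6e45_co, stage 5: certificates (captain, generated by a program).
-/

namespace Pool.Agent.Lib_MP_fa6e45

noncomputable def cT6_3_n1_0 : List TN :=
  [.lp [k162,k162,k162,k156,k142,k174] [k6,k6,k6,k6,k6,k6,k9,k9,k16,k16,k0,k0] k0 [[k0,k0,k0,k0,k0,k0,k0,k0,k0,k0,k2],
    [k0,k0,k0,k12],[k12],[k0,k0,k0,k0,k0,k0,k0,k0,k0,k0,k0,k14],[k0,k0,k0,k0,k0,k0,k32],[k0,k0,k0,k0,k0,k0,k0,k0,k0,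
    k6],[k0,k0,k0,k0,k0,k0,k0,k0,k12,k0,k12],[k0,k0,k0,k0,k0,k32],[k0,k0,k0,k0,k6],[k0,k0,k0,k0,k0,k0,k0,k12,k0,k0,k0,
    k22],[k0,k0,k14,k0,k0,k0,k0,k0,k22],[k0,k2,k0,k0,k0,k0,k0,k12]] (nat_lit 480) k5
    [[(k6,k147),(k0,k160),(k4,k162),(k10,k168),(k8,k174),(k2,k176)],[(k9,k152),(k7,k159),(k1,k160),(k3,k162),(k11,
    k168),(k5,k174)],[(k2,k150),(k8,k152),(k6,k159),(k0,k162),(k4,k162),(k10,k170)],[(k3,k150),(k9,k152),(k7,k159),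
    (k5,k162),(k11,k168),(k1,k176)],[(k8,k152),(k10,k154),(k6,k159),(k2,k162),(k4,k162),(k0,k174)],[(k9,k120),(k7,
    k159),(k1,k162),(k3,k162),(k5,k162),(k11,k174)],[(k8,k143),(k0,k159),(k2,k159),(k4,k159),(k10,k165),(k6,k188)],
    [(k1,k147),(k9,k149),(k11,k153),(k3,k159),(k5,k159),(k7,k188)],[(k4,k120),(k6,k149),(k0,k152),(k2,k152),(k8,k154),
    (k10,k170)],[(k7,k143),(k3,k152),(k5,k152),(k9,k154),(k11,k158),(k1,k174)],[(k10,k152),(k6,k153),(k8,k158),(k0,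
    k168),(k2,k168),(k4,k174)],[(k11,k152),(k5,k154),(k7,k165),(k1,k168),(k3,k170),(k9,k170)]]
    [] k0
    [[k2,k0,k0,k1,k0,k0],[k1,k0,k1,k0,k1,k0],[k1,k1,k0,k1,k0,k0],[k1,k0,k0,k1,k1,k0],[k1,k0,k0,k0,k1,k1],[k0,k3,k0,k0,
    k0,k0],[k0,k2,k1,k0,k0,k0],[k0,k2,k0,k1,k0,k0],[k0,k2,k0,k0,k1,k0],[k0,k1,k1,k0,k1,k0],[k0,k1,k0,k1,k1,k0],[k0,k1,
    k0,k0,k2,k0],[k0,k0,k2,k0,k1,k0],[k0,k0,k1,k1,k1,k0],[k0,k0,k1,k0,k2,k0],[k0,k0,k1,k1,k0,k1],[k0,k0,k1,k0,k1,k1],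
    [k0,k0,k0,k1,k2,k0],[k0,k0,k0,k1,k1,k1],[k0,k0,k0,k1,k0,k2],[k0,k0,k0,k0,k3,k0],[k0,k0,k0,k0,k0,k3]]
    [.ref k12 k0 [(z7,[z12,y3,z0,z0,y4]),(z7,[y12,z24,z7,z0,z4]),(z7,[z6,y12,z0,z7,y2]),(z7,[y3,z6,z0,z0,z8]),(z7,[y6,
    y9,y7,y7,y5,z21])],.ref k12 k0 [(z1,[z3,z3,z1,z0,z1,y3]),(z1,[y3,z0,z0,z0,y1,z3]),(z2,[z3,z0,z1,z2,z1,y3]),(z4,
    [y3,z0,y1,z0,z3,z3]),(z2,[y3,y6,y3,y2,y3,z9])],.ref k12 k0 [(z1,[y12,z15,z4,z0,z4]),(z1,[z12,y12,y3,z0,y4]),(z1,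
    [y6,z6,z2,z1,z2]),(z1,[z3,y3,y1]),(z1,[z6,y9,y3,y1,y3,z3])],.ref k12 k0 [(z1,[z12,z3,z4,z4,z0,y12]),(z1,[y12,z0,
    y3,y4,z0,z12]),(z1,[z6,z0,z2,z3,z0,y6]),(z1,[y3,z0,y1,y1,z1,z3]),(z1,[y6,y3,y3,y3,y1,z9])],.ref k12 k0 [(z3,[z12,
    z9,z4,z4,z4,y12]),(z3,[y12,z0,y1,y4,y4,z12]),(z3,[z6,z0,z2,z5,z2,y6]),(z3,[y3,z0,y1,y1,z2,z3]),(z3,[y6,y9,y5,y5,
    y5,z15])],.ref k12 k0 [(z1,[y1,z3,z1]),(z1,[z1]),(z2,[y1,z0,z1,z2]),(z4,[z1,z0,y1,z0,z4]),(z2,[z1,y6,y3,y2,y2,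
    z6])],.ref k12 k0 [(z3,[y6,z9,z4,z2]),(z3,[z6,z0,y1,y2]),(z3,[y3,z0,z2,z4]),(z6,[z3,z0,y2,y1,z6]),(z3,[z3,y9,y5,
    y4,y3,z9])],.ref k12 k0 [(z9,[y12,z27,z8,z0,z4]),(z9,[z12,z0,z1,z0,y4]),(z9,[y6,z0,z4,z9,z2]),(z9,[z3,z0,y2,z0,
    z8]),(z9,[z6,y27,y13,y9,y11,z27])],.ref k12 k0 [(z5,[y6,z9,z2,y2,y2,z6]),(z5,[z6,z6,z3,z2,z2,y6]),(z5,[y3,y3,z1,
    z4,y1,z3]),(z10,[z3,z3,y1,z1,z11,y3]),(z5,[z3,y12,y6,y4,y4,z12])],.ref k12 k0 [(z1,[y3,z0,z0,z0,y1,z3]),(z1,[z3,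
    z3,z1,z0,z1,y3]),(z2,[y3,y3,z0,z2,y1,z3]),(z4,[z3,z3,z0,z0,z5,y3]),(z2,[z3,y3,y2,y2,y1,z3])],.ref k12 k0 [(z7,
    [y12,z9,z0,y4,z0,z12]),(z7,[z12,z12,z7,z4,z0,y12]),(z7,[y6,y6,z0,z5,z0,z6]),(z7,[z3,z3,z0,z1,z7,y3]),(z7,[z6,y15,
    y7,y5,y7,z15])],.ref k12 k0 [(z2,[y3,z0,y1,y2,y2,z6]),(z2,[z3,z6,z3,z2,z2,y6]),(z4,[y3,y6,y1,z2,y2,z6]),(z8,[z3,
    z6,z1,z2,z10,y6]),(z4,[z3,y6,y3,y2,y2,z6])],.ref k12 k0 [(z1,[z6,z9,z2,y2,z2,y6]),(z1,[y6,y6,y1,z2,y2,z6]),(z1,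
    [z3,z3,z1,z0,z1,y3]),(z2,[y3,y3,y1,z1,z1,z3]),(z1,[y3,y6,y2,z0,y2,z6])],.ref k12 k0 [(z1,[y12,y9,y4,z0,z0,z12]),
    (z1,[z12,z12,z5,z0,z0,y12]),(z1,[y6,y6,y2,z1,z0,z6]),(z1,[z3,z3,z1,z0,z1,y3]),(z1,[z6,z3,z1,y1,y1,y3])],
    .ref k12 k0 [(z1,[y6,y9,y4,y2,y4,z12]),(z1,[z6,z12,z5,z2,z4,y12]),(z1,[y3,y6,y2,z0,y2,z6]),(z2,[z3,z6,z2,z1,z4,
    y6]),(z1,[z3,z3,z1,z0,z1,y3])],.ref k12 k0 [(z1,[z6,z3,z0,y2,y2]),(z1,[y6,z0,z1,z2,z2]),(z1,[z3,z0,z0,z0,y1]),(z2,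
    [y3,z0,z0,z1,z3]),(z1,[y3,y3,y1,z0,z0,z3])],.ref k12 k0 [(z1,[z12,z15,z4,z0,z4,y12]),(z1,[y12,y12,y3,z0,y4,z12]),
    (z1,[z6,z6,z2,z1,z2,y6]),(z1,[y3,y3,y1,z0,z0,z3]),(z1,[y6,y9,y3,y1,y3,z9])],.ref k12 k0 [(z5,[y12,y9,y8,y8,y4,
    z24]),(z5,[z12,z24,z13,z8,z4,y24]),(z5,[y6,y12,y4,z1,y2,z12]),(z5,[z3,z6,z2,z2,z6,y6]),(z5,[z6,y3,y1,y1,y3,z3])],
    .ref k12 k0 [(z1,[y6,y3,y2,y2,z0,z6]),(z1,[z6,z6,z3,z2,z0,y6]),(z1,[y3,y3,y1,z0,z0,z3]),(z2,[z3,z3,z1,z1,z2,y3]),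
    (z1,[z3,z0,z0,z0,y1])],.ref k12 k0 [(z1,[z12,z3,z0,z0,y4]),(z1,[y12,z0,z1,z0,z4]),(z1,[z6,z0,z0,z1,y2]),(z1,[y3,
    z0,z0,z0,z2]),(z1,[y6,y3,y1,y1,z1,z3])],.ref k12 k0 [(z1,[y2,y3,y2,y2,y2,z6]),(z1,[z2,z6,z3,z2,z2,y6]),(z1,[y1,y3,
    y1,z0,y1,z3]),(z2,[z1,z3,z1,z1,z3,y3]),(z1,[z1])],.ref k12 k0 [(z1,[z4,z3]),(z1,[y4,z0,z1]),(z1,[z2,z0,z0,z1]),
    (z1,[y1,z0,z0,z0,z1]),(z1,[y2,y3,y1,y1,y1,z3])]],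
    .lp [k162,k172,k170,k150,k152,k152] [k5,k5,k0,k0,k1,k1,k11,k11,k10,k10,k10,k10] k0 [[k0,k0,k0,k0,k0,k0,k0,k0,k0,k0,
    k2],[k0,k0,k0,k22],[k22,k0,k0,k0,k4],[k0,k0,k0,k0,k0,k0,k0,k8,k0,k4],[k0,k0,k0,k0,k0,k0,k12,k0,k16],[k0,k0,k0,k4,
    k0,k0,k0,k0,k0,k0,k0,k6],[k0,k0,k8,k0,k0,k0,k0,k0,k28],[k0,k0,k0,k0,k0,k12],[k0,k0,k4,k0,k0,k0,k0,k0,k0,k0,k14],
    [k0,k0,k0,k0,k0,k16,k0,k28],[k0,k0,k0,k0,k6],[k0,k2,k0,k0,k0,k0,k0,k0,k0,k14]] (nat_lit 480) k5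
    [[(k8,k143),(k6,k156),(k10,k157),(k0,k160),(k2,k167),(k4,k172)],[(k7,k156),(k9,k157),(k11,k157),(k1,k160),(k3,
    k167),(k5,k188)],[(k2,k150),(k6,k161),(k8,k162),(k10,k164),(k0,k167),(k4,k171)],[(k3,k150),(k7,k157),(k11,k166),
    (k1,k167),(k9,k170),(k5,k171)],[(k6,k152),(k8,k157),(k10,k161),(k2,k171),(k4,k174),(k0,k188)],[(k11,k145),(k9,
    k149),(k7,k160),(k3,k171),(k1,k172),(k5,k174)],[(k10,k145),(k0,k156),(k2,k157),(k4,k160),(k6,k162),(k8,k167)],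
    [(k11,k123),(k9,k151),(k5,k152),(k1,k156),(k3,k161),(k7,k162)],[(k4,k149),(k6,k151),(k10,k152),(k0,k157),(k2,
    k170),(k8,k180)],[(k1,k143),(k11,k152),(k5,k157),(k3,k162),(k7,k167),(k9,k180)],[(k6,k123),(k4,k145),(k8,k152),
    (k0,k157),(k2,k166),(k10,k166)],[(k7,k145),(k9,k152),(k1,k157),(k5,k161),(k3,k164),(k11,k166)]]
    [] k0
    [[k2,k0,k0,k1,k0,k0],[k2,k0,k0,k0,k1,k0],[k2,k0,k0,k0,k0,k1],[k1,k0,k0,k2,k0,k0],[k1,k0,k0,k1,k0,k1],[k1,k0,k0,k1,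
    k1,k0],[k1,k0,k0,k0,k1,k1],[k0,k3,k0,k0,k0,k0],[k0,k2,k0,k1,k0,k0],[k0,k1,k0,k1,k0,k1],[k0,k1,k0,k1,k1,k0],[k0,k0,
    k1,k2,k0,k0],[k0,k0,k1,k1,k1,k0],[k0,k0,k1,k1,k0,k1],[k0,k0,k1,k0,k1,k1],[k0,k0,k1,k0,k0,k2],[k0,k0,k0,k2,k0,k1],
    [k0,k0,k0,k1,k1,k1],[k0,k0,k0,k1,k0,k2],[k0,k0,k0,k0,k1,k2]]
    [.ref k12 k0 [(z4,[z12,y1,z0,z0,y3]),(z2,[y12,z2,z1,z0,z3]),(z1,[z12,y2,z0,z1,y3]),(z2,[y6,z1,z0,z0,z3]),(z4,[z24,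
    y5,y2,y4,y9,z12])],.ref k12 k0 [(z16,[z12,z3,z2,z4,z3,y12]),(z8,[y12,z1,z2,y4,y3,z12]),(z4,[z12,y1,z2,z8,z3,y12]),
    (z16,[y12,z1,y2,y4,z9,z12]),(z8,[z12,y3,y2,y4,y3,z12])],.ref k12 k0 [(z2,[y3,z1]),(z2,[z6,y1,z1]),(z1,[y6,z1,z0,
    z1]),(z4,[z6,y1,z0,z0,z3]),(z4,[y12,z1,y2,y4,y3,z12])],.ref k12 k0 [(z2,[y6,z1,z0,z0,z3]),(z2,[z12,y1,z1,z0,y6]),
    (z1,[y12,z1,z0,z1,z6]),(z4,[z12,y1,z0,z0,y3]),(z4,[y24,z1,y2,y4,z9,z12])],.ref k12 k0 [(z16,[y12,z5,z0,z0,z3]),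
    (z8,[z12,y1,z4,z0,y3]),(z4,[y12,z1,z0,z4,z3]),(z16,[z12,y1,z0,z0,z9]),(z8,[y12,y1,y4,y8,y3,z24])],
    .ref k12 k0 [(z4,[z6,z1,z1,z2,z0,y6]),(z1,[y3,z0,z0,y1,z0,z3]),(z1,[z6,z0,z1,z3,z0,y6]),(z4,[y6,z0,y1,y2,z3,z6]),
    (z4,[z12,y1,z0,z0,y3])],.ref k12 k0 [(z4,[y12,z1,y2,y4,y3,z12]),(z2,[z12,z0,z3,z4,z3,y12]),(z1,[y12,z0,y2,y3,y3,
    z12]),(z2,[z6,z0,z1,z2,z3,y6]),(z4,[y24,y1,y6,y12,y9,z36])],.ref k12 k0 [(z4,[y2,z1,z1]),(z1,[z1]),(z1,[y2,z0,z1,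
    z1]),(z4,[z2,z0,y1,z0,z3]),(z4,[y4,y1,z0,y4,y3,z12])],.ref k12 k0 [(z20,[y12,z5,z4,z0,z3]),(z10,[z12,z0,z1,z0,
    y3]),(z5,[y12,z0,z4,z5,z3]),(z5,[z3,z0,y1,z0,z3]),(z20,[y24,y5,y2,y20,y9,z60])],.ref k12 k0 [(z28,[y12,z7,z2,z0,
    z3]),(z14,[z12,z0,z5,z0,y3]),(z7,[y12,z0,z2,z7,z3]),(z14,[z6,z0,y1,z0,z9]),(z28,[y24,y7,y10,y28,y15,z84])],
    .ref k12 k0 [(z1,[y3,z0,z0,y1,z0,z3]),(z2,[z12,z1,z1,z4,z0,y12]),(z1,[y12,y1,z0,y3,z0,z12]),(z4,[z12,z1,z0,z4,z3,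
    y12]),(z4,[y24,y3,y2,y12,y3,z36])],.ref k12 k0 [(z4,[z6,z1,z0,y2,y3]),(z2,[y6,z0,z1,z2,z3]),(z1,[z6,z0,z0,y1,y3]),
    (z2,[y3,z0,z0,z1,z3]),(z4,[z12,y1,y2,y8,y9,z12])],.ref k12 k0 [(z10,[z6,z3,z1,z0,z0,y6]),(z10,[y12,y1,z3,z0,z0,
    z12]),(z5,[z12,z1,z2,z5,z0,y12]),(z20,[y12,y1,y2,z0,z15,z12]),(z20,[z24,y3,y6,y20,y15,z36])],.ref k12 k0 [(z4,
    [y12,z1,z0,z4,z3]),(z2,[z12,z0,z1,y4,y3]),(z1,[y12,z0,z0,z5,z3]),(z1,[z3,z0,z0,y1]),(z4,[y24,y1,y2,z4,z3,z12])],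
    .ref k12 k0 [(z8,[z12,z3,z2,z0,z3,y12]),(z4,[y12,y1,z0,z0,y3,z12]),(z2,[z12,z1,z2,z2,z3,y12]),(z8,[y12,y1,y2,z0,
    z3,z12]),(z1,[z3,z0,z0,y1])],.ref k12 k0 [(z4,[y3,z1,z0,z1]),(z2,[z3,z0,z1,y1]),(z1,[y3,z0,z0,z2]),(z4,[z3,z0,z0,
    y1,z3]),(z4,[y6,y1,y2,y2,y3,z12])],.ref k12 k0 [(z4,[y2,z1,z0,z0,z1]),(z2,[z2,z0,z1,z0,y1]),(z1,[y2,z0,z0,z1,z1]),
    (z2,[z1,z0,z0,z0,z1]),(z4,[y4,y1,y2,y4,y1,z12])],.ref k12 k0 [(z6,[y6,z1,y1,y2,z0,z6]),(z6,[z12,z1,z5,z4,z0,y12]),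
    (z3,[y12,y1,y2,y1,z0,z12]),(z12,[z12,z1,z2,z4,z9,y12]),(z12,[y24,y5,y10,y20,y9,z60])],.ref k12 k0 [(z12,[y4,z3,z0,
    z0,z1]),(z6,[z4,z0,z3,z0,y1]),(z3,[y4,z0,z0,z3,z1]),(z3,[z1,z0,z0,z0,z2]),(z12,[y8,y3,y6,y12,y7,z36])],
    .ref k12 k0 [(z24,[y12,z5,y2,y4,y3,z12]),(z12,[z12,z1,z8,z4,z3,y12]),(z6,[y12,y1,y2,z2,y3,z12]),(z24,[z12,z1,z2,
    z4,z21,y12]),(z3,[y3,y1,y2,y4,y3,z12])]],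
    .lp [(nat_lit 320),(nat_lit 330),(nat_lit 334),(nat_lit 330),(nat_lit 296),(nat_lit 308)] [k7,k7,k2,k2,k0,k0,k2,k2,
    k19,k19,k13,k13] k0 [[k0,k0,k0,k0,k0,k0,k6,k0,k40],[k0,k0,k0,k0,k0,k4],[k0,k0,k0,k0,k2,k0,k0,k0,k0,k0,k20],[k0,k0,
    k0,k0,k0,k0,k0,k28],[k4,k0,k0,k0,k0,k0,k0,k0,k38],[k0,k0,k0,k2,k0,k0,k0,k34],[k0,k0,k28,k0,k34],[k0,k6,k0,k0,k0,
    k0,k0,k0,k0,k0,k0,k42],[k0,k0,k0,k0,k0,k0,k0,k0,k0,k0,k14],[k0,k40,k0,k0,k0,k38],[k0,k0,k0,k0,k0,k0,k42],[k0,k0,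
    k0,k20,k0,k0,k0,k0,k0,k14]] (nat_lit 960) k5
    [[(k8,(nat_lit 294)),(k2,(nat_lit 305)),(k10,(nat_lit 314)),(k0,(nat_lit 320)),(k4,(nat_lit 327)),(k6,
    (nat_lit 367))],[(k11,(nat_lit 274)),(k9,(nat_lit 302)),(k1,(nat_lit 320)),(k3,(nat_lit 325)),(k5,(nat_lit 327)),
    (k7,(nat_lit 329))],[(k10,(nat_lit 319)),(k0,(nat_lit 325)),(k4,(nat_lit 328)),(k2,(nat_lit 330)),(k6,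
    (nat_lit 336)),(k8,(nat_lit 353))],[(k1,(nat_lit 305)),(k11,(nat_lit 319)),(k7,(nat_lit 328)),(k3,(nat_lit 330)),
    (k5,(nat_lit 332)),(k9,(nat_lit 341))],[(k6,(nat_lit 304)),(k8,(nat_lit 315)),(k0,(nat_lit 327)),(k2,
    (nat_lit 332)),(k4,(nat_lit 336)),(k10,(nat_lit 341))],[(k11,(nat_lit 283)),(k1,(nat_lit 327)),(k3,(nat_lit 328)),
    (k7,(nat_lit 332)),(k5,(nat_lit 336)),(k9,(nat_lit 349))],[(k6,(nat_lit 296)),(k10,(nat_lit 319)),(k2,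
    (nat_lit 328)),(k0,(nat_lit 329)),(k4,(nat_lit 332)),(k8,(nat_lit 351))],[(k7,(nat_lit 296)),(k5,(nat_lit 304)),
    (k9,(nat_lit 313)),(k11,(nat_lit 319)),(k3,(nat_lit 336)),(k1,(nat_lit 367))],[(k10,(nat_lit 260)),(k8,
    (nat_lit 296)),(k0,(nat_lit 302)),(k6,(nat_lit 313)),(k2,(nat_lit 341)),(k4,(nat_lit 349))],[(k1,(nat_lit 294)),
    (k9,(nat_lit 296)),(k11,(nat_lit 302)),(k5,(nat_lit 315)),(k7,(nat_lit 351)),(k3,(nat_lit 353))],[(k0,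
    (nat_lit 274)),(k4,(nat_lit 283)),(k8,(nat_lit 302)),(k2,(nat_lit 319)),(k6,(nat_lit 319)),(k10,(nat_lit 322))],
    [(k9,(nat_lit 260)),(k1,(nat_lit 314)),(k3,(nat_lit 319)),(k7,(nat_lit 319)),(k11,(nat_lit 322)),(k5,
    (nat_lit 341))]]
    [] k0
    [[k2,k1,k0,k0,k0,k0],[k2,k0,k0,k0,k1,k0],[k2,k0,k0,k0,k0,k1],[k1,k1,k0,k0,k0,k1],[k1,k0,k1,k0,k1,k0],[k1,k0,k1,k0,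
    k0,k1],[k1,k0,k0,k1,k1,k0],[k1,k0,k0,k0,k2,k0],[k1,k0,k0,k0,k1,k1],[k1,k0,k0,k0,k0,k2],[k0,k1,k0,k0,k1,k1],[k0,k1,
    k1,k0,k0,k1],[k0,k0,k1,k2,k0,k0],[k0,k0,k1,k1,k0,k1],[k0,k0,k1,k0,k1,k1],[k0,k0,k1,k0,k0,k2],[k0,k0,k0,k3,k0,k0],
    [k0,k0,k0,k2,k0,k1],[k0,k0,k0,k1,k1,k1],[k0,k0,k0,k0,k3,k0],[k0,k0,k0,k0,k2,k1],[k0,k0,k0,k0,k1,k2]]
    [.ref k47 k4 [(z6,[y3,z2,z1]),(z3,[z6,y1,y2]),(z3,[y3,z2,z4]),(z6,[z3,y2,y1,z6])],.ref k48 k7 [(z3,[y6,z3,y1,y17,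
    z3]),(z3,[z3,y2,z0,z8]),(z3,[z3,y2,z0,z11]),(z3,[z0,z1,z0,y4])],.ref k49 k7 [(z3,[y6,z3,y1,y11,z3]),(z3,[z3,y2,z0,
    z5]),(z3,[z3,y2,z0,z8]),(z3,[z0,z1,z0,y4])],.ref k14 k6 [(z3,[z0,z0,z1,z2]),(z3,[y6,z1,z0,y1,z3]),(z3,[z6,y2,y1]),
    (z3,[z3,y1,y2])],.ref k49 k7 [(z3,[y6,z1,y1,y9,z3]),(z3,[z3,y1,z0,z4]),(z3,[z3,y1,z0,z7]),(z3,[z0,z1,z0,y4])],
    .ref k21 k7 [(z3,[y6,z1,y1,y3,z3]),(z3,[z3,y1,z0,z1]),(z3,[z3,y1,z0,z4]),(z3,[z0,z1,z0,y4])],.ref k50 k0 [(z3,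
    [z12,z1,z4,z4,y12]),(z3,[y6,z0,y1,y2,z6]),(z3,[z3,z0,z1,z2,y3]),(z3,[y18,y1,y7,y7,z21])],.ref k21 k7 [(z3,[y3,z0,
    y1,y5,z3]),(z6,[z3,y1,z0,z4]),(z6,[z3,y1,z0,z10]),(z3,[z0,z1,z0,y4])],.ref k45 k4 [(z1,[y3,z1]),(z1,[z4,y1]),(z3,
    [y6,z2,z1]),(z3,[z3,y1,z0,z1])],.ref k14 k6 [(z3,[z0,z0,z1,z2]),(z3,[y3,z0,y2,y1,z3]),(z3,[z3,y1,z1]),(z6,[z3,y1,
    y2])],.ref k34 k1 [(z3,[z12,z1,y4]),(z3,[z12,y5,y4]),(z3,[y12,z1,z0,y4,z12]),(z3,[z0,y1,z0,z4])],.ref k50 k0 [(z3,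
    [y12,z1,z4,z4]),(z3,[z6,z0,y1,y2]),(z3,[y3,z0,z1,z2]),(z3,[z18,y1,y7,y7,z3])],.ref k51 k9 [(z1,[y3,y2,y2,y1,z6]),
    (z3,[z18,z1,z1,y5,y3]),(z3,[y3,y2,y2,z10,z6]),(z3,[z6,z4,z15,z2,y12])],.ref k21 k7 [(z3,[z6,z1,z1,y5,y3]),(z3,[y3,
    y1,y1,z2,z3]),(z3,[y3,y1,y1,z5,z3]),(z3,[z0,z1,z0,y4])],.ref k14 k6 [(z3,[z0,z0,z1,z2]),(z3,[y3,y1,y2,z0,z3]),(z3,
    [z3,z0,z1,y1]),(z6,[z3,z0,y2,y1])],.ref k34 k1 [(z3,[z12,z1,z0,y4]),(z3,[z12,y5,z0,y4]),(z3,[y12,z1,y4,z0,z12]),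
    (z3,[z0,y1,z0,z4])],.ref k52 k9 [(z2,[y1,y1,y1,y1,z3]),(z1,[z1]),(z2,[y1,y1,y1,z5,z3]),(z1,[z1,z1,z4,z1,y3])],
    .ref k53 k4 [(z3,[z3,z2,z2,z2,y6]),(z3,[y12,y5,y8,y8,z24]),(z3,[z6,z4,z7,z4,y12]),(z3,[y3,y2,y2,z1,z6])],
    .ref k47 k4 [(z3,[z3,z1,z1,z1,y3]),(z3,[y12,y1,y4,y4,z12]),(z3,[z6,z2,z5,z2,y6]),(z3,[y3,y1,y1,z2,z3])],
    .ref k52 k9 [(z1,[z1]),(z1,[y2,y1,y1,y1,z3]),(z1,[z1,z0,z0,z3]),(z1,[y2,z0,z3])],.ref k14 k6 [(z3,[z0,z0,z1,z2]),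
    (z3,[y2,y1,y2,y1,z3]),(z3,[z2,z0,z1]),(z3,[z1,z0,y1])],.ref k54 k5 [(z1,[y2,y1,y1,z3,z3]),(z1,[z2,z1,z3,z1,y3]),
    (z1,[y2,z0,y1,y1,z3]),(z3,[z6,z1,z1,z1,y3])]],
    .leafM k0 [k0,k1,k2,k3,k4,k5] [(z1,[z0,z1,z1,z1])] [],
    .lp [k168,k170,k154,k164,k140,k162] [k1,k1,k0,k0,k8,k8,k3,k3,k15,k15,k4,k4] k0 [[k0,k0,k0,k0,k0,k0,k0,k0,k4,k0,k8],
    [k0,k0,k0,k0,k0,k0,k0,k8],[k0,k0,k0,k0,k8,k0,k0,k0,k0,k0,k10],[k0,k0,k0,k0,k0,k0,k0,k0,k0,k4],[k0,k0,k0,k0,k0,k0,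
    k12],[k0,k0,k0,k8],[k8],[k0,k0,k0,k0,k0,k12],[k0,k0,k4],[k0,k4,k0,k0,k0,k0,k0,k0,k0,k0,k0,k8],[k0,k0,k0,k0,k0,k0,
    k0,k0,k8],[k0,k8,k0,k10]] (nat_lit 480) k5
    [[(k2,k159),(k0,k160),(k4,k161),(k8,k162),(k10,k165),(k6,k166)],[(k1,k160),(k5,k161),(k11,k161),(k9,k162),(k7,
    k166),(k3,k169)],[(k6,k159),(k8,k159),(k4,k162),(k0,k169),(k2,k170),(k10,k174)],[(k9,k155),(k1,k159),(k7,k159),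
    (k5,k162),(k3,k170),(k11,k170)],[(k8,k143),(k6,k159),(k0,k161),(k2,k162),(k4,k162),(k10,k168)],[(k9,k135),(k11,
    k158),(k7,k159),(k1,k161),(k3,k162),(k5,k162)],[(k8,k152),(k2,k159),(k4,k159),(k10,k163),(k0,k166),(k6,k176)],
    [(k9,k152),(k3,k159),(k5,k159),(k11,k163),(k1,k166),(k7,k176)],[(k4,k135),(k8,k140),(k10,k151),(k6,k152),(k2,
    k155),(k0,k162)],[(k9,k140),(k5,k143),(k11,k151),(k7,k152),(k3,k159),(k1,k162)],[(k8,k151),(k10,k154),(k4,k158),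
    (k0,k161),(k6,k163),(k2,k170)],[(k9,k151),(k11,k154),(k7,k163),(k1,k165),(k5,k168),(k3,k174)]]
    [] k0
    [[k1,k0,k1,k0,k1,k0],[k1,k0,k0,k0,k2,k0],[k1,k0,k0,k0,k1,k1],[k0,k1,k1,k0,k1,k0],[k0,k1,k0,k1,k1,k0],[k0,k1,k0,k0,
    k2,k0],[k0,k0,k2,k0,k1,k0],[k0,k0,k1,k1,k1,k0],[k0,k0,k1,k0,k2,k0],[k0,k0,k1,k0,k1,k1],[k0,k0,k0,k1,k2,k0],[k0,k0,
    k0,k1,k1,k1],[k0,k0,k0,k0,k3,k0],[k0,k0,k0,k0,k2,k1],[k0,k0,k0,k0,k1,k2],[k0,k0,k0,k0,k0,k3]]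
    [.ref k12 k0 [(z1,[z12,z3,z12,z0,z4,y12]),(z1,[y6,z0,y3,z0,y2,z6]),(z1,[z3,z0,z3,z3,z1,y3]),(z1,[z0,z0,z0,z0,z1]),
    (z1,[y12,y3,y15,y3,y5,z15])],.ref k12 k0 [(z1,[y3,z0,y6,y6,y2,z6]),(z2,[z3,z3,z12,z6,z2,y6]),(z4,[y3,y3,y6,z6,y2,
    z6]),(z1,[z0,z0,z0,z0,z1]),(z1,[z3,z0,z3,z3,z1,y3])],.ref k12 k0 [(z1,[z12,z3,z12,z12,z4,y12]),(z1,[y6,z0,y3,y6,
    y2,z6]),(z1,[z3,z0,z3,z6,z1,y3]),(z1,[z0,z0,z0,z0,z1]),(z1,[y12,y3,y15,y15,y5,z15])],.ref k12 k0 [(z5,[y12,z3,z0,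
    z0,y4,z12]),(z5,[z6,z6,z15,z0,z2,y6]),(z5,[y3,y3,z0,z15,y1,z3]),(z1,[z0,z0,z0,z0,z1]),(z5,[z12,y3,y15,y15,y1,
    z3])],.ref k12 k0 [(z1,[y2,z1,z0,y2,z0,z2]),(z1,[z1,z1,z3,z1,z0,y1]),(z2,[y1,y1,z0,z5,z0,z1]),(z1,[z0,z0,z0,z0,
    z1]),(z1,[z2,y1,y3,y1,y1,z1])],.ref k12 k0 [(z5,[y6,z3,y6,y12,y4,z12]),(z5,[z3,z6,z18,z6,z2,y6]),(z10,[y3,y6,y3,
    z24,y2,z6]),(z1,[z0,z0,z0,z0,z1]),(z5,[z6,y3,y9,y3,y1,z3])],.ref k12 k0 [(z1,[y6,y3,y6,z6,y2,z6]),(z1,[z3,z3,z6,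
    y3,z1,y3]),(z2,[y3,y3,y3,z9,y1,z3]),(z1,[z0,z0,z0,z0,z1]),(z1,[z6,z3,z3,y9,z1,y3])],.ref k12 k0 [(z1,[y4,y1,y4,z0,
    z0,z4]),(z1,[z2,z2,z5,z0,z0,y2]),(z1,[y1,y1,y1,z3,z0,z1]),(z1,[z0,z0,z0,z0,z1]),(z1,[z4,z1,z1,y3,y1,y1])],
    .ref k12 k0 [(z7,[y12,y3,y24,y12,y8,z24]),(z7,[z6,z12,z33,z6,z4,y12]),(z7,[y3,y6,y6,z18,y2,z6]),(z1,[z0,z0,z0,z0,
    z1]),(z7,[z12,z3,z3,y9,z1,y3])],.ref k12 k0 [(z1,[y6,y3,y6,z0,y2,z6]),(z1,[z3,z3,z6,z0,z1,y3]),(z2,[y3,y3,y3,z6,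
    y1,z3]),(z1,[z0,z0,z0,z0,z1]),(z1,[z6,z3,z3,y3,z1,y3])],.ref k12 k0 [(z2,[y3,z0,y6,y6,y1,z6]),(z4,[z3,z6,z18,z6,
    z1,y6]),(z8,[y3,y6,y6,z18,y1,z6]),(z1,[z0,z0,z0,z0,z1]),(z2,[z3,z0,z0,z0,y1])],.ref k12 k0 [(z1,[y4,y1,y4,y4,z0,
    z4]),(z1,[z2,z2,z5,z2,z0,y2]),(z1,[y1,y1,y1,z2,z0,z1]),(z1,[z0,z0,z0,z0,z1]),(z1,[z4,z1,z1,z1,y1,y1])],
    .ref k12 k0 [(z1,[y1,z0,y3,y3,y1,z3]),(z2,[z1,z3,z9,z3,z1,y3]),(z4,[y1,y3,y3,z9,y1,z3]),(z1,[z0,z0,z0,z0,z1]),(z1,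
    [z1])],.ref k12 k0 [(z7,[y12,y3,y24,y24,y8,z24]),(z7,[z6,z12,z33,z12,z4,y12]),(z7,[y3,y6,y6,z15,y2,z6]),(z1,[z0,
    z0,z0,z0,z1]),(z7,[z12,z3,z3,z3,z1,y3])],.ref k12 k0 [(z1,[y6,y3,y6,y6,y2,z6]),(z1,[z3,z3,z6,z3,z1,y3]),(z2,[y3,
    y3,y3,z3,y1,z3]),(z1,[z0,z0,z0,z0,z1]),(z1,[z6,z3,z3,z3,z1,y3])],.ref k12 k0 [(z1,[z4,z3]),(z1,[y2,z0,z3]),(z1,
    [z1,z0,z0,z3]),(z1,[z0,z0,z0,z0,z1]),(z1,[y4,y3,y3,y3,y1,z3])]],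
    .lp [k168,k170,k154,k164,k140,k162] [k1,k1,k0,k0,k8,k8,k3,k3,k15,k15,k4,k4] k0 [[k0,k0,k0,k0,k0,k0,k0,k0,k4,k0,k8],
    [k0,k0,k0,k0,k0,k0,k0,k8],[k0,k0,k0,k0,k8,k0,k0,k0,k0,k0,k10],[k0,k0,k0,k0,k0,k0,k0,k0,k0,k4],[k0,k0,k0,k0,k0,k0,
    k12],[k0,k0,k0,k8],[k8],[k0,k0,k0,k0,k0,k12],[k0,k0,k4],[k0,k4,k0,k0,k0,k0,k0,k0,k0,k0,k0,k8],[k0,k0,k0,k0,k0,k0,
    k0,k0,k8],[k0,k8,k0,k10]] (nat_lit 480) k5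
    [[(k2,k159),(k0,k160),(k4,k161),(k8,k162),(k10,k165),(k6,k166)],[(k1,k160),(k5,k161),(k11,k161),(k9,k162),(k7,
    k166),(k3,k169)],[(k6,k159),(k8,k159),(k4,k162),(k0,k169),(k2,k170),(k10,k174)],[(k9,k155),(k1,k159),(k7,k159),
    (k5,k162),(k3,k170),(k11,k170)],[(k8,k143),(k6,k159),(k0,k161),(k2,k162),(k4,k162),(k10,k168)],[(k9,k135),(k11,
    k158),(k7,k159),(k1,k161),(k3,k162),(k5,k162)],[(k8,k152),(k2,k159),(k4,k159),(k10,k163),(k0,k166),(k6,k176)],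
    [(k9,k152),(k3,k159),(k5,k159),(k11,k163),(k1,k166),(k7,k176)],[(k4,k135),(k8,k140),(k10,k151),(k6,k152),(k2,
    k155),(k0,k162)],[(k9,k140),(k5,k143),(k11,k151),(k7,k152),(k3,k159),(k1,k162)],[(k8,k151),(k10,k154),(k4,k158),
    (k0,k161),(k6,k163),(k2,k170)],[(k9,k151),(k11,k154),(k7,k163),(k1,k165),(k5,k168),(k3,k174)]]
    [] k0
    [[k1,k0,k1,k0,k1,k0],[k1,k0,k0,k0,k2,k0],[k1,k0,k0,k0,k1,k1],[k0,k1,k1,k0,k1,k0],[k0,k1,k0,k1,k1,k0],[k0,k1,k0,k0,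
    k2,k0],[k0,k0,k2,k0,k1,k0],[k0,k0,k1,k1,k1,k0],[k0,k0,k1,k0,k2,k0],[k0,k0,k1,k0,k1,k1],[k0,k0,k0,k1,k2,k0],[k0,k0,
    k0,k1,k1,k1],[k0,k0,k0,k0,k3,k0],[k0,k0,k0,k0,k2,k1],[k0,k0,k0,k0,k1,k2],[k0,k0,k0,k0,k0,k3]]
    [.ref k12 k0 [(z1,[y4,z3,y4,z0,y4,z4]),(z1,[z2,z0,z5,z0,z2,y2]),(z1,[y1,z0,y1,z3,y1,z1]),(z1,[y4,z0,y4,z0,y1,z4]),
    (z1,[z8,y3,z5,y3,z5,y5])],.ref k12 k0 [(z1,[y1,z2,y2,y2,y2,z2]),(z2,[z1,z1,z8,z2,z2,y2]),(z4,[y1,y1,y2,z10,y2,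
    z2]),(z1,[y1,y1,y2,y2,z1,z2]),(z1,[z2,y1,z1,z1,z1,y1])],.ref k12 k0 [(z1,[y4,z3,y4,y4,y4,z4]),(z1,[z2,z0,z5,z2,z2,
    y2]),(z1,[y1,z0,y1,z2,y1,z1]),(z1,[y4,z0,y4,y4,y1,z4]),(z1,[z8,y3,z5,z5,z5,y5])],.ref k12 k0 [(z3,[y4,z5,z0,z0,y4,
    z4]),(z3,[z2,z2,z9,z0,z2,y2]),(z3,[y1,y1,z0,z9,y1,z1]),(z3,[y4,y4,z0,z0,z5,z4]),(z3,[z8,y1,y9,y9,y1,z1])],
    .ref k12 k0 [(z1,[y2,z1,z0,y2,z0,z2]),(z1,[z1,z1,z3,z1,z0,y1]),(z2,[y1,y1,z0,z5,z0,z1]),(z1,[y2,y2,z0,y2,z3,z2]),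
    (z1,[z4,z1,y3,z1,y3,y1])],.ref k12 k0 [(z3,[y2,z5,y2,y4,y4,z4]),(z3,[z1,z2,z10,z2,z2,y2]),(z6,[y1,y2,y1,z16,y2,
    z2]),(z3,[y2,y4,y2,y4,z5,z4]),(z3,[z4,y1,y5,y1,y1,z1])],.ref k12 k0 [(z1,[y2,z1,y2,z2,y2,z2]),(z1,[z1,z1,z4,y1,z1,
    y1]),(z2,[y1,y1,y1,z7,y1,z1]),(z1,[y2,y2,y2,z2,z1,z2]),(z1,[z4,z1,z1,y7,z1,y1])],.ref k12 k0 [(z1,[y4,y1,y4,z0,z0,
    z4]),(z1,[z2,z2,z5,z0,z0,y2]),(z1,[y1,y1,y1,z3,z0,z1]),(z1,[y4,y4,y4,z0,z3,z4]),(z1,[z8,z5,z5,y3,y3,y5])],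
    .ref k12 k0 [(z5,[y4,z7,y8,y4,y8,z8]),(z5,[z2,z4,z19,z2,z4,y4]),(z5,[y1,y2,y2,z14,y2,z2]),(z5,[y4,y8,y8,y4,z7,
    z8]),(z5,[z8,z1,z1,y7,z1,y1])],.ref k12 k0 [(z1,[y2,z1,y2,z0,y2,z2]),(z1,[z1,z1,z4,z0,z1,y1]),(z2,[y1,y1,y1,z6,y1,
    z1]),(z1,[y2,y2,y2,z0,z1,z2]),(z1,[z4,z1,z1,y3,z1,y1])],.ref k12 k0 [(z1,[y1,z1,y2,y2,y1,z2]),(z2,[z1,z2,z8,z2,z1,
    y2]),(z4,[y1,y2,y2,z10,y1,z2]),(z1,[y1,y2,y2,y2,z2,z2]),(z1,[z2,z1,z1,z1,y1,y1])],.ref k12 k0 [(z1,[y4,y1,y4,y4,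
    z0,z4]),(z1,[z2,z2,z5,z2,z0,y2]),(z1,[y1,y1,y1,z2,z0,z1]),(z1,[y4,y4,y4,y4,z3,z4]),(z1,[z8,z5,z5,z5,y3,y5])],
    .ref k12 k0 [(z2,[y1,z3,y3,y3,y3,z3]),(z4,[z1,z3,z15,z3,z3,y3]),(z8,[y1,y3,y3,z21,y3,z3]),(z2,[y1,y3,y3,y3,z3,
    z3]),(z1,[z1])],.ref k12 k0 [(z5,[y4,z7,y8,y8,y8,z8]),(z5,[z2,z4,z19,z4,z4,y4]),(z5,[y1,y2,y2,z13,y2,z2]),(z5,[y4,
    y8,y8,y8,z7,z8]),(z5,[z8,z1,z1,z1,z1,y1])],.ref k12 k0 [(z1,[y2,z1,y2,y2,y2,z2]),(z1,[z1,z1,z4,z1,z1,y1]),(z2,[y1,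
    y1,y1,z5,y1,z1]),(z1,[y2,y2,y2,y2,z1,z2]),(z1,[z4,z1,z1,z1,z1,y1])],.ref k12 k0 [(z1,[z4,z3]),(z1,[y2,z0,z3]),(z1,
    [z1,z0,z0,z3]),(z1,[z4,z0,z0,z0,z3]),(z1,[y8,y3,y3,y3,y3,z3])]],
    .lp [k84,k84,k84,k74,k82,k70] [k0,k0,k0,k0,k0,k0,k5,k5,k1,k1,k9,k5] k0 [[k0,k0,k0,k0,k0,k0,k0,k0,k0,k0,k4],[k0,k0,k0,
    k2],[k2,k0,k0,k0,k0,k0,k0,k0,k0,k0,k2],[k0,k0,k0,k0,k0,k0,k0,k2,k0,k12],[k0,k0,k0,k0,k0,k0,k10],[k0,k0,k0,k0,k0,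
    k0,k0,k0,k0,k0,k0,k2],[k0,k0,k2,k0,k0,k0,k0,k0,k14],[k0,k0,k0,k0,k0,k10,k0,k0,k0,k0,k0,k2],[k0,k0,k12],[k0,k0,k0,
    k0,k0,k0,k0,k14],[k0,k0,k0,k0,k2,k0,k2],[k0,k4,k0,k2]] (nat_lit 240) k5
    [[(k10,k75),(k0,k80),(k6,k81),(k2,k82),(k8,k83),(k4,k86)],[(k7,k79),(k11,k79),(k1,k80),(k9,k83),(k3,k84),(k5,
    k86)],[(k6,k79),(k10,k79),(k2,k82),(k8,k83),(k0,k84),(k4,k84)],[(k7,k79),(k1,k82),(k3,k82),(k5,k84),(k9,k85),(k11,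
    k91)],[(k8,k71),(k6,k77),(k10,k77),(k2,k84),(k4,k84),(k0,k86)],[(k9,k73),(k7,k79),(k11,k79),(k3,k84),(k5,k84),(k1,
    k86)],[(k10,k68),(k8,k78),(k0,k79),(k2,k79),(k4,k79),(k6,k84)],[(k11,k60),(k5,k77),(k9,k78),(k3,k79),(k1,k81),(k7,
    k84)],[(k10,k72),(k4,k73),(k6,k78),(k0,k83),(k2,k85),(k8,k96)],[(k5,k71),(k7,k78),(k11,k78),(k1,k83),(k3,k83),(k9,
    k96)],[(k6,k60),(k10,k70),(k8,k78),(k0,k79),(k4,k79),(k2,k91)],[(k7,k68),(k11,k70),(k9,k72),(k1,k75),(k5,k77),(k3,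
    k79)]]
    [] k0
    [[k2,k0,k0,k0,k0,k1],[k1,k0,k0,k1,k0,k1],[k1,k0,k0,k0,k1,k1],[k1,k0,k0,k0,k0,k2],[k0,k1,k0,k1,k0,k1],[k0,k0,k2,k0,
    k1,k0],[k0,k0,k1,k1,k1,k0],[k0,k0,k1,k1,k0,k1],[k0,k0,k1,k0,k1,k1],[k0,k0,k1,k0,k0,k2],[k0,k0,k0,k2,k0,k1],[k0,k0,
    k0,k1,k1,k1],[k0,k0,k0,k1,k0,k2],[k0,k0,k0,k0,k1,k2],[k0,k0,k0,k0,k0,k3]]
    [.ref k12 k0 [(z3,[z4,z1]),(z3,[y2,z4,z9]),(z3,[z1,y2,z0,z9]),(z3,[y4,z8,z0,z0,z3]),(z1,[z0,y3,y3,y3,y1,z3])],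
    .ref k12 k0 [(z1,[z12,y9,z0,z0,y4]),(z1,[y6,z6,z3,z0,z2]),(z1,[z3,y3,z0,z3,y1]),(z1,[y12,z12,z0,z0,z5]),(z1,[z0,
    y3,y3,y3,y1,z3])],.ref k12 k0 [(z5,[z12,z15,z12,z12,z4,y12]),(z5,[y6,z0,z9,y6,y2,z6]),(z5,[z3,z0,z3,z18,z1,y3]),
    (z5,[y12,z0,y12,y12,z1,z12]),(z1,[z0,y3,y3,y3,y1,z3])],.ref k12 k0 [(z1,[z2,z1]),(z1,[y1,z1,z3]),(z2,[z1,y1,z0,
    z6]),(z1,[y2,z2,z0,z0,z1]),(z1,[z0,y3,y3,y3,y1,z3])],.ref k12 k0 [(z5,[y12,z15,z12,z0,z4]),(z5,[z6,z0,z9,z0,y2]),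
    (z5,[y3,z0,z3,z15,z1]),(z5,[z12,z0,y12,z0,z1]),(z1,[z0,y3,y3,y3,y1,z3])],.ref k12 k0 [(z1,[z6,z9,z6,y6,z2,y6]),
    (z1,[y3,y3,z0,z3,y1,z3]),(z2,[z3,z3,z3,z3,z1,y3]),(z1,[y6,y6,y6,z6,y1,z6]),(z1,[z0,y3,y3,y3,y1,z3])],
    .ref k12 k0 [(z1,[y4,y1,y4,z0,z0,z4]),(z1,[z2,z2,z5,z0,z0,y2]),(z1,[y1,y1,y1,z3,z0,z1]),(z1,[z4,z4,z4,z0,z1,y4]),
    (z1,[z0,y3,y3,y3,y1,z3])],.ref k12 k0 [(z1,[y6,z3,z0,z6,z2]),(z1,[z3,z0,z3,y3,y1]),(z2,[y3,z0,z0,z9,z1]),(z1,[z6,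
    z0,z0,y6,y1]),(z1,[z0,y3,y3,y3,y1,z3])],.ref k12 k0 [(z1,[z6,z9,z6,z0,z2,y6]),(z1,[y3,y3,z0,z0,y1,z3]),(z2,[z3,z3,
    z3,z6,z1,y3]),(z1,[y6,y6,y6,z0,y1,z6]),(z1,[z0,y3,y3,y3,y1,z3])],.ref k12 k0 [(z1,[z4,z3,z0,y4]),(z1,[y2,z0,z3,
    z2]),(z1,[z1,z0,z0,z2]),(z1,[y4,z0,z0,z4,z1]),(z1,[z0,y3,y3,y3,y1,z3])],.ref k12 k0 [(z7,[y12,z21,z0,z0,z8]),(z7,
    [z6,z0,z21,z0,y4]),(z7,[y3,z0,z0,z21,z2]),(z7,[z12,z0,z0,z0,y1]),(z1,[z0,y3,y3,y3,y1,z3])],.ref k12 k0 [(z1,[y4,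
    y1,y4,y4,z0,z4]),(z1,[z2,z2,z5,z2,z0,y2]),(z1,[y1,y1,y1,z2,z0,z1]),(z1,[z4,z4,z4,z4,z1,y4]),(z1,[z0,y3,y3,y3,y1,
    z3])],.ref k12 k0 [(z1,[y6,z3,z0,z0,z2]),(z1,[z3,z0,z3,z0,y1]),(z2,[y3,z0,z0,z6,z1]),(z1,[z6,z0,z0,z0,y1]),(z1,
    [z0,y3,y3,y3,y1,z3])],.ref k12 k0 [(z1,[z6,z9,z6,z6,z2,y6]),(z1,[y3,y3,z0,y3,y1,z3]),(z2,[z3,z3,z3,z9,z1,y3]),(z1,
    [y6,y6,y6,y6,y1,z6]),(z1,[z0,y3,y3,y3,y1,z3])],.ref k12 k0 [(z1,[z4,z3]),(z1,[y2,z0,z3]),(z1,[z1,z0,z0,z3]),(z1,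
    [y4,z0,z0,z0,z1]),(z1,[z0,y3,y3,y3,y1,z3])]],
    .lp [(nat_lit 322),(nat_lit 326),(nat_lit 320),(nat_lit 318),(nat_lit 306),(nat_lit 326)] [k2,k2,k0,k0,k3,k3,k4,k4,
    k10,k10,k0,k0] k0 [[k0,k0,k0,k0,k0,k0,k0,k0,k2,k0,k2],[k0,k0,k0,k0,k0,k2,k0,k4],[k0,k0,k0,k0,k2],[k0,k0,k0,k0,k0,
    k0,k0,k0,k0,k10],[k2,k0,k0,k0,k0,k0,k0,k0,k0,k0,k2],[k0,k0,k0,k2,k0,k0,k0,k38],[k4,k0,k0,k0,k38],[k0,k0,k0,k0,k0,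
    k0,k0,k0,k0,k0,k0,k10],[k0,k0,k10],[k0,k2,k0,k0,k0,k0,k0,k0,k0,k0,k0,k12],[k0,k0,k0,k0,k0,k0,k10,k0,k12],[k0,k2,
    k0,k0,k0,k2]] (nat_lit 960) k5
    [[(k4,(nat_lit 319)),(k0,(nat_lit 320)),(k2,(nat_lit 324)),(k10,(nat_lit 324)),(k8,(nat_lit 326)),(k6,
    (nat_lit 330))],[(k9,(nat_lit 318)),(k1,(nat_lit 320)),(k5,(nat_lit 321)),(k7,(nat_lit 322)),(k11,(nat_lit 322)),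
    (k3,(nat_lit 324))],[(k6,(nat_lit 318)),(k8,(nat_lit 318)),(k4,(nat_lit 321)),(k0,(nat_lit 324)),(k2,
    (nat_lit 326)),(k10,(nat_lit 328))],[(k9,(nat_lit 316)),(k7,(nat_lit 320)),(k5,(nat_lit 323)),(k1,(nat_lit 324)),
    (k3,(nat_lit 326)),(k11,(nat_lit 336))],[(k8,(nat_lit 303)),(k6,(nat_lit 319)),(k0,(nat_lit 321)),(k4,
    (nat_lit 322)),(k2,(nat_lit 323)),(k10,(nat_lit 323))],[(k1,(nat_lit 319)),(k7,(nat_lit 319)),(k3,(nat_lit 321)),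
    (k5,(nat_lit 322)),(k11,(nat_lit 323)),(k9,(nat_lit 351))],[(k6,(nat_lit 280)),(k8,(nat_lit 312)),(k4,
    (nat_lit 319)),(k2,(nat_lit 320)),(k0,(nat_lit 322)),(k10,(nat_lit 324))],[(k7,(nat_lit 280)),(k9,(nat_lit 312)),
    (k3,(nat_lit 318)),(k5,(nat_lit 319)),(k11,(nat_lit 322)),(k1,(nat_lit 330))],[(k8,(nat_lit 306)),(k10,
    (nat_lit 306)),(k6,(nat_lit 312)),(k2,(nat_lit 316)),(k0,(nat_lit 318)),(k4,(nat_lit 351))],[(k5,(nat_lit 303)),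
    (k9,(nat_lit 306)),(k7,(nat_lit 312)),(k11,(nat_lit 316)),(k3,(nat_lit 318)),(k1,(nat_lit 326))],[(k10,
    (nat_lit 314)),(k8,(nat_lit 316)),(k0,(nat_lit 322)),(k6,(nat_lit 322)),(k4,(nat_lit 323)),(k2,(nat_lit 336))],
    [(k9,(nat_lit 306)),(k11,(nat_lit 314)),(k5,(nat_lit 323)),(k1,(nat_lit 324)),(k7,(nat_lit 324)),(k3,
    (nat_lit 328))]]
    [] k0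
    [[k1,k0,k1,k0,k1,k0],[k1,k0,k0,k2,k0,k0],[k1,k0,k0,k0,k2,k0],[k1,k0,k0,k0,k1,k1],[k0,k1,k1,k0,k1,k0],[k0,k1,k0,k2,
    k0,k0],[k0,k1,k0,k1,k1,k0],[k0,k1,k0,k0,k2,k0],[k0,k0,k1,k2,k0,k0],[k0,k0,k1,k1,k1,k0],[k0,k0,k1,k0,k1,k1],[k0,k0,
    k0,k3,k0,k0],[k0,k0,k0,k2,k1,k0],[k0,k0,k0,k2,k0,k1],[k0,k0,k0,k1,k2,k0],[k0,k0,k0,k1,k1,k1],[k0,k0,k0,k0,k3,k0],
    [k0,k0,k0,k0,k2,k1],[k0,k0,k0,k0,k1,k2],[k0,k0,k0,k0,k0,k3]]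
    [.ref k56 k0 [(z1,[z0,z1]),(z1,[z0,z0,z1]),(z1,[z0,z0,z0,z1]),(z1,[y1,z0,y1,z0,z1])],.ref k10 k0 [(z1,[z0,z1]),
    (z1,[z0,z0,z1]),(z1,[z0,z0,z0,z1]),(z2,[z1,y1])],.ref k10 k0 [(z1,[z0,z1]),(z1,[z0,z0,z1]),(z1,[z0,z0,z0,z1]),(z2,
    [y1,y1,y2,y2,z2])],.ref k56 k0 [(z1,[z0,z1]),(z1,[z0,z0,z1]),(z1,[z0,z0,z0,z1]),(z1,[y1,z0,y1,y1,z1])],
    .ref k29 k0 [(z1,[z0,z1]),(z1,[z0,z0,z1]),(z1,[z0,z0,z0,z1]),(z1,[y1,y1,z0,z0,z1])],.ref k56 k0 [(z1,[z0,z1]),(z1,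
    [z0,z0,z1]),(z1,[z0,z0,z0,z1]),(z2,[z1,z0,y1])],.ref k9 k4 [(z2,[y1,y1,z0,y1,z1]),(z1,[y2,z1,z0,y2,z2]),(z1,[z1,
    z1,z3,z1,y1]),(z2,[y1,y1,z0,z5,z1])],.ref k29 k0 [(z1,[z0,z1]),(z1,[z0,z0,z1]),(z1,[z0,z0,z0,z1]),(z2,[y1,y2,y1,
    y2,z2])],.ref k26 k8 [(z1,[y4,y1,y1,z3,z1]),(z1,[z1,z0,z0,y1]),(z1,[z4,z1,z0,y4]),(z1,[y2,z0,z1,z2])],
    .ref k9 k4 [(z1,[y1,y1,y1,z0,z1]),(z1,[y4,y1,y4,z0,z4]),(z1,[z2,z2,z5,z0,y2]),(z1,[y1,y1,y1,z3,z1])],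
    .ref k10 k0 [(z1,[z0,z1]),(z1,[z0,z0,z1]),(z1,[z0,z0,z0,z1]),(z1,[y1,y1,y1,z0,z1])],.ref k57 k0 [(z1,[z0,z1]),(z1,
    [z0,z0,z1]),(z1,[z0,z0,z0,z1]),(z1,[z1])],.ref k58 k0 [(z1,[z0,z1]),(z1,[z0,z0,z1]),(z1,[z0,z0,z0,z1]),(z1,[z1,z1,
    z1,z1,y1])],.ref k26 k8 [(z1,[y4,y1,y1,y1,z1]),(z1,[z1]),(z1,[z4,z1]),(z1,[y2,z0,z1])],.ref k50 k0 [(z1,[z0,z1]),
    (z1,[z0,z0,z1]),(z1,[z0,z0,z0,z1]),(z1,[y1,y2,y2,y2,z2])],.ref k9 k4 [(z1,[y1,y1,y1,y1,z1]),(z1,[y4,y1,y4,y4,z4]),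
    (z1,[z2,z2,z5,z2,y2]),(z1,[y1,y1,y1,z2,z1])],.ref k59 k0 [(z1,[z0,z1]),(z1,[z0,z0,z1]),(z1,[z0,z0,z0,z1]),(z1,[y1,
    y3,y3,y3,z3])],.ref k39 k2 [(z1,[y4,y1,y1,y1,z1]),(z1,[z1,z0,z0,z1]),(z1,[y2,z0,z1]),(z1,[z4,z1])],
    .ref k10 k0 [(z1,[z0,z1]),(z1,[z0,z0,z1]),(z1,[z0,z0,z0,z1]),(z1,[y1,y1,y1,y1,z1])],.ref k9 k4 [(z1,[z1]),(z1,[z4,
    z3]),(z1,[y2,z0,z3]),(z1,[z1,z0,z0,z3])]],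
    .lp [k168,k170,k154,k164,k140,k162] [k1,k1,k0,k0,k8,k8,k3,k3,k15,k15,k4,k4] k0 [[k0,k0,k0,k0,k0,k0,k0,k0,k4,k0,k8],
    [k0,k0,k0,k0,k0,k0,k0,k8],[k0,k0,k0,k0,k8,k0,k0,k0,k0,k0,k10],[k0,k0,k0,k0,k0,k0,k0,k0,k0,k4],[k0,k0,k0,k0,k0,k0,
    k12],[k0,k0,k0,k8],[k8],[k0,k0,k0,k0,k0,k12],[k0,k0,k4],[k0,k4,k0,k0,k0,k0,k0,k0,k0,k0,k0,k8],[k0,k0,k0,k0,k0,k0,
    k0,k0,k8],[k0,k8,k0,k10]] (nat_lit 480) k5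
    [[(k2,k159),(k0,k160),(k4,k161),(k8,k162),(k10,k165),(k6,k166)],[(k1,k160),(k5,k161),(k11,k161),(k9,k162),(k7,
    k166),(k3,k169)],[(k6,k159),(k8,k159),(k4,k162),(k0,k169),(k2,k170),(k10,k174)],[(k9,k155),(k1,k159),(k7,k159),
    (k5,k162),(k3,k170),(k11,k170)],[(k8,k143),(k6,k159),(k0,k161),(k2,k162),(k4,k162),(k10,k168)],[(k9,k135),(k11,
    k158),(k7,k159),(k1,k161),(k3,k162),(k5,k162)],[(k8,k152),(k2,k159),(k4,k159),(k10,k163),(k0,k166),(k6,k176)],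
    [(k9,k152),(k3,k159),(k5,k159),(k11,k163),(k1,k166),(k7,k176)],[(k4,k135),(k8,k140),(k10,k151),(k6,k152),(k2,
    k155),(k0,k162)],[(k9,k140),(k5,k143),(k11,k151),(k7,k152),(k3,k159),(k1,k162)],[(k8,k151),(k10,k154),(k4,k158),
    (k0,k161),(k6,k163),(k2,k170)],[(k9,k151),(k11,k154),(k7,k163),(k1,k165),(k5,k168),(k3,k174)]]
    [] k0
    [[k1,k0,k1,k0,k1,k0],[k1,k0,k0,k0,k2,k0],[k1,k0,k0,k0,k1,k1],[k0,k1,k1,k0,k1,k0],[k0,k1,k0,k1,k1,k0],[k0,k1,k0,k0,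
    k2,k0],[k0,k0,k2,k0,k1,k0],[k0,k0,k1,k1,k1,k0],[k0,k0,k1,k0,k2,k0],[k0,k0,k1,k0,k1,k1],[k0,k0,k0,k1,k2,k0],[k0,k0,
    k0,k1,k1,k1],[k0,k0,k0,k0,k3,k0],[k0,k0,k0,k0,k2,k1],[k0,k0,k0,k0,k1,k2],[k0,k0,k0,k0,k0,k3]]
    [.ref k12 k0 [(z1,[y2,z3,y2,z0,y2,z2]),(z1,[y2,z0,z1,z0,y2,z2]),(z1,[z1,z0,z1,z3,z1,y1]),(z2,[y1,z0,y1,z0,z5,z1]),
    (z1,[z4,y3,z1,y3,z1,y1])],.ref k12 k0 [(z1,[y1,z2,y2,y2,y2,z2]),(z1,[y1,y1,z1,y2,y2,z2]),(z2,[z1,z1,z2,z8,z2,y2]),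
    (z4,[y1,y1,y2,y2,z10,z2]),(z1,[z2,y1,z1,z1,z1,y1])],.ref k12 k0 [(z1,[y4,z3,y4,y4,y4,z4]),(z1,[y4,z0,y1,y4,y4,
    z4]),(z1,[z2,z0,z2,z5,z2,y2]),(z1,[y1,z0,y1,y1,z2,z1]),(z1,[z8,y3,z5,z5,z5,y5])],.ref k12 k0 [(z1,[y2,z1,z0,z0,y2,
    z2]),(z1,[y2,y2,z3,z0,y2,z2]),(z1,[z1,z1,z0,z3,z1,y1]),(z2,[y1,y1,z0,z0,z5,z1]),(z1,[z4,z1,y3,y3,z1,y1])],
    .ref k12 k0 [(z1,[y4,y1,z0,y4,z0,z4]),(z1,[y4,y4,z3,y4,z0,z4]),(z1,[z2,z2,z0,z5,z0,y2]),(z1,[y1,y1,z0,y1,z3,z1]),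
    (z1,[z8,z5,y3,z5,y3,y5])],.ref k12 k0 [(z1,[y1,z1,y1,y2,y2,z2]),(z1,[y1,y2,z2,y2,y2,z2]),(z2,[z1,z2,z1,z8,z2,y2]),
    (z4,[y1,y2,y1,y2,z10,z2]),(z1,[z2,z1,y1,z1,z1,y1])],.ref k12 k0 [(z1,[y1,z2,y1,z1,y1,z1]),(z1,[y1,y1,z2,z1,y1,
    z1]),(z2,[z1,z1,z1,z5,z1,y1]),(z4,[y1,y1,y1,z1,z11,z1]),(z1,[z2,y1,y1,y5,y1,z1])],.ref k12 k0 [(z3,[y4,z5,y4,z0,
    z0,z4]),(z3,[y4,y4,z5,z0,z0,z4]),(z3,[z2,z2,z2,z9,z0,y2]),(z3,[y1,y1,y1,z0,z9,z1]),(z3,[z8,y1,y1,y9,y9,z1])],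
    .ref k12 k0 [(z3,[y2,z5,y4,y2,y4,z4]),(z3,[y2,y4,z5,y2,y4,z4]),(z3,[z1,z2,z2,z10,z2,y2]),(z6,[y1,y2,y2,y1,z16,
    z2]),(z3,[z4,y1,y1,y5,y1,z1])],.ref k12 k0 [(z3,[y4,z5,y4,z0,y4,z4]),(z3,[y4,y4,z5,z0,y4,z4]),(z3,[z2,z2,z2,z9,z2,
    y2]),(z3,[y1,y1,y1,z0,z8,z1]),(z3,[z8,y1,y1,y9,y1,z1])],.ref k12 k0 [(z5,[y4,z7,y8,y8,y4,z8]),(z5,[y4,y8,z7,y8,y4,
    z8]),(z5,[z2,z4,z4,z19,z2,y4]),(z5,[y1,y2,y2,y2,z14,z2]),(z5,[z8,z1,z1,z1,y7,y1])],.ref k12 k0 [(z1,[y2,z1,y2,y2,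
    z0,z2]),(z1,[y2,y2,z1,y2,z0,z2]),(z1,[z1,z1,z1,z4,z0,y1]),(z2,[y1,y1,y1,y1,z6,z1]),(z1,[z4,z1,z1,z1,y3,y1])],
    .ref k12 k0 [(z2,[y1,z3,y3,y3,y3,z3]),(z2,[y1,y3,z3,y3,y3,z3]),(z4,[z1,z3,z3,z15,z3,y3]),(z8,[y1,y3,y3,y3,z21,
    z3]),(z1,[z1])],.ref k12 k0 [(z5,[y4,z7,y8,y8,y8,z8]),(z5,[y4,y8,z7,y8,y8,z8]),(z5,[z2,z4,z4,z19,z4,y4]),(z5,[y1,
    y2,y2,y2,z13,z2]),(z5,[z8,z1,z1,z1,z1,y1])],.ref k12 k0 [(z1,[y2,z1,y2,y2,y2,z2]),(z1,[y2,y2,z1,y2,y2,z2]),(z1,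
    [z1,z1,z1,z4,z1,y1]),(z2,[y1,y1,y1,y1,z5,z1]),(z1,[z4,z1,z1,z1,z1,y1])],.ref k12 k0 [(z1,[z4,z3]),(z1,[z4,z0,z3]),
    (z1,[y2,z0,z0,z3]),(z1,[z1,z0,z0,z0,z3]),(z1,[y8,y3,y3,y3,y3,z3])]],
    .leafM k0 [k1,k2,k3,k4,k5,k0] [(z1,[y1,y1,z0,z0,z1])] [],
    .lp [k168,k170,k154,k164,k140,k162] [k1,k1,k0,k0,k8,k8,k3,k3,k15,k15,k4,k4] k0 [[k0,k0,k0,k0,k0,k0,k0,k0,k4,k0,k8],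
    [k0,k0,k0,k0,k0,k0,k0,k8],[k0,k0,k0,k0,k8,k0,k0,k0,k0,k0,k10],[k0,k0,k0,k0,k0,k0,k0,k0,k0,k4],[k0,k0,k0,k0,k0,k0,
    k12],[k0,k0,k0,k8],[k8],[k0,k0,k0,k0,k0,k12],[k0,k0,k4],[k0,k4,k0,k0,k0,k0,k0,k0,k0,k0,k0,k8],[k0,k0,k0,k0,k0,k0,
    k0,k0,k8],[k0,k8,k0,k10]] (nat_lit 480) k5
    [[(k2,k159),(k0,k160),(k4,k161),(k8,k162),(k10,k165),(k6,k166)],[(k1,k160),(k5,k161),(k11,k161),(k9,k162),(k7,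
    k166),(k3,k169)],[(k6,k159),(k8,k159),(k4,k162),(k0,k169),(k2,k170),(k10,k174)],[(k9,k155),(k1,k159),(k7,k159),
    (k5,k162),(k3,k170),(k11,k170)],[(k8,k143),(k6,k159),(k0,k161),(k2,k162),(k4,k162),(k10,k168)],[(k9,k135),(k11,
    k158),(k7,k159),(k1,k161),(k3,k162),(k5,k162)],[(k8,k152),(k2,k159),(k4,k159),(k10,k163),(k0,k166),(k6,k176)],
    [(k9,k152),(k3,k159),(k5,k159),(k11,k163),(k1,k166),(k7,k176)],[(k4,k135),(k8,k140),(k10,k151),(k6,k152),(k2,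
    k155),(k0,k162)],[(k9,k140),(k5,k143),(k11,k151),(k7,k152),(k3,k159),(k1,k162)],[(k8,k151),(k10,k154),(k4,k158),
    (k0,k161),(k6,k163),(k2,k170)],[(k9,k151),(k11,k154),(k7,k163),(k1,k165),(k5,k168),(k3,k174)]]
    [] k0
    [[k1,k0,k1,k0,k1,k0],[k1,k0,k0,k0,k2,k0],[k1,k0,k0,k0,k1,k1],[k0,k1,k1,k0,k1,k0],[k0,k1,k0,k1,k1,k0],[k0,k1,k0,k0,
    k2,k0],[k0,k0,k2,k0,k1,k0],[k0,k0,k1,k1,k1,k0],[k0,k0,k1,k0,k2,k0],[k0,k0,k1,k0,k1,k1],[k0,k0,k0,k1,k2,k0],[k0,k0,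
    k0,k1,k1,k1],[k0,k0,k0,k0,k3,k0],[k0,k0,k0,k0,k2,k1],[k0,k0,k0,k0,k1,k2],[k0,k0,k0,k0,k0,k3]]
    [.ref k12 k0 [(z3,[z16,z9,z16,z0,z16,y16]),(z3,[y8,z0,z1,z0,y8,z8]),(z3,[z4,z0,z4,z9,z4,y4]),(z3,[y2,z0,y2,z0,z7,
    z2]),(z3,[y11,y9,y20,y9,y20,z20])],.ref k12 k0 [(z1,[y8,y5,y16,y16,y16,z16]),(z1,[z4,z4,z11,z8,z8,y8]),(z1,[y2,y2,
    y4,y1,y4,z4]),(z1,[z1,z1,z2,z2,z5,y2]),(z2,[z11,z5,z16,z16,z16,y16])],.ref k12 k0 [(z1,[z8,z3,z8,z8,z8,y8]),(z1,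
    [y4,z0,y1,y4,y4,z4]),(z1,[z2,z0,z2,z5,z2,y2]),(z1,[y1,z0,y1,y1,z2,z1]),(z2,[y11,y6,y17,y17,y17,z17])],
    .ref k12 k0 [(z5,[y16,y1,z0,z0,y16,z16]),(z5,[z8,z8,z15,z0,z8,y8]),(z5,[y4,y4,z0,z15,y4,z4]),(z5,[z2,z2,z0,z0,z17,
    y2]),(z5,[z11,y4,y15,y15,y4,z4])],.ref k12 k0 [(z7,[y16,z5,z0,y16,z0,z16]),(z7,[z8,z8,z21,z8,z0,y8]),(z7,[y4,y4,
    z0,z17,z0,z4]),(z7,[z2,z2,z0,z2,z21,y2]),(z7,[z11,y10,y21,y10,y21,z10])],.ref k12 k0 [(z5,[y8,y1,y8,y16,y16,z16]),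
    (z5,[z4,z8,z19,z8,z8,y8]),(z5,[y2,y4,y2,z11,y4,z4]),(z5,[z1,z2,z1,z2,z17,y2]),(z10,[z11,y8,y19,y8,y8,z8])],
    .ref k12 k0 [(z1,[y16,y13,y16,z16,y16,z16]),(z1,[z8,z8,z11,y8,z8,y8]),(z1,[y4,y4,y4,z7,y4,z4]),(z1,[z2,z2,z2,y2,
    z5,y2]),(z1,[z11,z8,z8,y14,z8,y8])],.ref k12 k0 [(z3,[y16,y7,y16,z0,z0,z16]),(z3,[z8,z8,z17,z0,z0,y8]),(z3,[y4,y4,
    y4,z9,z0,z4]),(z3,[z2,z2,z2,z0,z9,y2]),(z3,[z11,z2,z2,y9,y9,y2])],.ref k12 k0 [(z3,[y8,y7,y16,y8,y16,z16]),(z3,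
    [z4,z8,z17,z4,z8,y8]),(z3,[y2,y4,y4,z7,y4,z4]),(z3,[z1,z2,z2,z1,z11,y2]),(z6,[z11,z4,z4,y7,z4,y4])],
    .ref k12 k0 [(z1,[y8,y5,y8,z0,y8,z8]),(z1,[z4,z4,z7,z0,z4,y4]),(z1,[y2,y2,y2,z3,y2,z2]),(z1,[z1,z1,z1,z0,z4,y1]),
    (z2,[z11,z5,z5,y6,z5,y5])],.ref k12 k0 [(z1,[y2,y1,y4,y4,y2,z4]),(z1,[z1,z2,z5,z2,z1,y2]),(z2,[y1,y2,y2,z4,y1,
    z2]),(z4,[z1,z2,z2,z2,z13,y2]),(z8,[z11,y2,y2,y2,y13,z2])],.ref k12 k0 [(z1,[y4,y1,y4,y4,z0,z4]),(z1,[z2,z2,z5,z2,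
    z0,y2]),(z1,[y1,y1,y1,z2,z0,z1]),(z2,[z1,z1,z1,z1,z6,y1]),(z4,[z11,y1,y1,y1,y12,z1])],.ref k12 k0 [(z11,[y16,y15,
    y48,y48,y48,z48]),(z11,[z8,z24,z57,z24,z24,y24]),(z11,[y4,y12,y12,z21,y12,z12]),(z11,[z2,z6,z6,z6,z39,y6]),(z1,
    [z1])],.ref k12 k0 [(z7,[y16,y11,y32,y32,y32,z32]),(z7,[z8,z16,z37,z16,z16,y16]),(z7,[y4,y8,y8,z13,y8,z8]),(z7,
    [z2,z4,z4,z4,z25,y4]),(z7,[z11,z1,z1,z1,z1,y1])],.ref k12 k0 [(z3,[y16,y7,y16,y16,y16,z16]),(z3,[z8,z8,z17,z8,z8,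
    y8]),(z3,[y4,y4,y4,z5,y4,z4]),(z3,[z2,z2,z2,z2,z11,y2]),(z3,[z11,z2,z2,z2,z2,y2])],.ref k12 k0 [(z1,[z16,z3]),(z1,
    [y8,z0,z3]),(z1,[z4,z0,z0,z3]),(z1,[y2,z0,z0,z0,z3]),(z1,[y11,y3,y3,y3,y3,z3])]],
    .lp [k162,k160,k168,k148,k160,k160] [k3,k3,k4,k4,k0,k0,k10,k10,k4,k4,k4,k4] k0 [[k0,k0,k0,k0,k0,k0,k4,k0,k28],[k0,k0,
    k0,k20],[k20,k0,k0,k0,k0,k0,k0,k0,k0,k0,k26],[k0,k0,k0,k0,k0,k4],[k0,k0,k4,k0,k0,k0,k30],[k0,k0,k0,k0,k0,k0,k0,k0,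
    k0,k6,k0,k2],[k0,k0,k0,k0,k0,k0,k0,k0,k22],[k0,k4,k0,k0,k0,k30],[k0,k0,k0,k0,k6],[k0,k28,k0,k0,k0,k0,k0,k22],[k0,
    k0,k0,k0,k2],[k0,k0,k0,k26]] (nat_lit 480) k5
    [[(k2,k135),(k6,k155),(k8,k161),(k10,k161),(k0,k162),(k4,k167)],[(k11,k133),(k7,k155),(k9,k157),(k3,k161),(k1,
    k162),(k5,k185)],[(k2,k140),(k6,k158),(k10,k160),(k0,k161),(k4,k164),(k8,k188)],[(k1,k135),(k3,k140),(k7,k158),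
    (k9,k160),(k11,k160),(k5,k164)],[(k6,k158),(k2,k164),(k4,k164),(k8,k164),(k0,k185),(k10,k190)],[(k9,k134),(k7,
    k158),(k3,k164),(k5,k164),(k1,k167),(k11,k170)],[(k8,k148),(k10,k152),(k0,k155),(k2,k158),(k4,k158),(k6,k178)],
    [(k11,k132),(k9,k154),(k1,k155),(k3,k158),(k5,k158),(k7,k178)],[(k4,k134),(k6,k154),(k0,k157),(k2,k160),(k10,
    k160),(k8,k182)],[(k7,k148),(k11,k160),(k1,k161),(k5,k164),(k9,k182),(k3,k188)],[(k6,k132),(k0,k133),(k2,k160),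
    (k8,k160),(k10,k160),(k4,k170)],[(k7,k152),(k3,k160),(k9,k160),(k11,k160),(k1,k161),(k5,k190)]]
    [] k0
    [[k2,k1,k0,k0,k0,k0],[k2,k0,k0,k1,k0,k0],[k2,k0,k0,k0,k0,k1],[k1,k2,k0,k0,k0,k0],[k1,k1,k0,k1,k0,k0],[k1,k1,k0,k0,
    k0,k1],[k1,k0,k0,k1,k1,k0],[k1,k0,k0,k1,k0,k1],[k1,k0,k0,k0,k1,k1],[k1,k0,k0,k0,k0,k2],[k0,k3,k0,k0,k0,k0],[k0,k2,
    k1,k0,k0,k0],[k0,k2,k0,k1,k0,k0],[k0,k2,k0,k0,k0,k1],[k0,k1,k0,k1,k1,k0],[k0,k1,k0,k1,k0,k1],[k0,k0,k2,k0,k1,k0],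
    [k0,k0,k1,k1,k1,k0],[k0,k0,k0,k2,k0,k1],[k0,k0,k0,k1,k1,k1],[k0,k0,k0,k1,k0,k2]]
    [.ref k12 k0 [(z2,[z5,y4,y5]),(z1,[y2,z4,z5]),(z4,[y5,z10,z5,z12]),(z1,[z1,y2,y1,z0,z3]),(z2,[y1,y4,y5,y6,y6,
    z6])],.ref k12 k0 [(z4,[z5,z2,z0,z0,y5]),(z1,[y1,z2,z3,z0,z1]),(z8,[y5,z10,z0,z24,z5]),(z2,[z1,y2,z0,z0,z5]),(z4,
    [y1,y10,y12,y12,y11,z12])],.ref k12 k0 [(z7,[z10,z1]),(z7,[y8,z16,z21]),(z7,[y5,z10,z0,z21]),(z7,[z4,y8,z0,z0,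
    z21]),(z7,[y2,y17,y21,y21,y21,z21])],.ref k12 k0 [(z1,[y5,z8,z10]),(z1,[z4,y4,y5]),(z2,[z5,y5,y10,z6]),(z1,[y2,z2,
    z4,z0,z3]),(z1,[z1,y4,y5,y3,y3,z3])],.ref k12 k0 [(z1,[z5,y2,y5,z0,y5]),(z1,[y4,z4,z7,z0,z4]),(z2,[y5,z5,z5,z6,
    z5]),(z1,[z2,y2,y2,z0,z1]),(z1,[y1,y2,y2,y3,y2,z3])],.ref k12 k0 [(z1,[z10,y7,y10]),(z1,[y8,z8,z11]),(z1,[y5,z5,
    z5,z3]),(z1,[z4,y4,y4,z0,z3]),(z1,[y2,y1,y1,y3,y3,z3])],.ref k12 k0 [(z2,[z5,z6,z5,z5,z0,y5]),(z1,[y2,z0,z1,y2,z0,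
    z2]),(z4,[y5,z0,y5,z7,z0,z5]),(z1,[z1,z0,z1,z1,z3,y1]),(z2,[y1,y6,y7,y7,y6,z7])],.ref k12 k0 [(z1,[z2,z1,z0,z0,
    y2]),(z5,[y8,z8,z15,z0,z8]),(z1,[y1,z1,z0,z3,z1]),(z5,[z4,y4,z0,z0,z11]),(z5,[y2,y13,y15,y15,y13,z15])],
    .ref k12 k0 [(z3,[z10,z9,z10,z10,z10,y10]),(z3,[y8,z0,z1,y8,y8,z8]),(z3,[y5,z0,y5,z4,y5,z5]),(z3,[z4,z0,z4,z4,z13,
    y4]),(z3,[y2,y9,y11,y11,y11,z11])],.ref k12 k0 [(z2,[z5,z1]),(z1,[y2,z2,z3]),(z4,[y5,z5,z0,z12]),(z1,[z1,y1,z0,z0,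
    z3]),(z2,[y1,y5,y6,y6,y6,z6])],.ref k12 k0 [(z4,[y5,z12,z15]),(z1,[z1]),(z8,[z5,z0,y15,z24]),(z2,[y1,z0,z3,z0,
    z6]),(z4,[z1,y12,y15,y12,y12,z12])],.ref k12 k0 [(z7,[y10,z21,z20,z10]),(z7,[z8,z0,z5,y8]),(z7,[z5,z0,y10,z16]),
    (z7,[y4,z0,z8,z4,z21]),(z7,[z2,y21,y25,y23,y21,z21])],.ref k12 k0 [(z2,[y5,z6,z10,z0,z5]),(z1,[z2,z0,y1,z0,y2]),
    (z4,[z5,z0,y10,z12,y5]),(z1,[y1,z0,z2,z0,z4]),(z2,[z1,y6,y8,y6,y7,z6])],.ref k12 k0 [(z1,[y2,z3,z4]),(z5,[z8,z0,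
    y1]),(z1,[z1,z0,y2,z3]),(z5,[y4,z0,z8,z0,z15]),(z5,[z2,y15,y19,y15,y15,z15])],.ref k12 k0 [(z1,[y5,y2,z0,y5,z0,
    z5]),(z1,[z4,z4,z3,z4,z0,y4]),(z2,[z5,z5,z0,z11,z0,y5]),(z1,[y2,y2,z0,y2,z3,z2]),(z1,[z1,y2,y3,y2,y3,z2])],
    .ref k12 k0 [(z1,[y10,z3,z10,z0,z10]),(z1,[z8,z0,y5,z0,y8]),(z1,[z5,z0,y5,z3,y5]),(z1,[y4,z0,z4,z0,z7]),(z1,[z2,
    y3,y5,y3,y5,z3])],.ref k12 k0 [(z2,[y5,z1,y5,z5,y5,z5]),(z1,[z2,z2,z5,y2,z2,y2]),(z4,[z5,z5,z5,z7,z5,y5]),(z1,[y1,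
    y1,y1,z1,z2,z1]),(z2,[z1,y5,y5,y7,y5,z5])],.ref k12 k0 [(z1,[y10,y7,y10,z0,z0,z10]),(z1,[z8,z8,z11,z0,z0,y8]),(z1,
    [z5,z5,z5,z3,z0,y5]),(z1,[y4,y4,y4,z0,z3,z4]),(z1,[z2,y1,y1,y3,y3,z1])],.ref k12 k0 [(z3,[z10,z9,z0,z0,y20]),(z3,
    [y8,z0,z9,z0,z16]),(z3,[y5,z0,z0,z9,z10]),(z3,[z4,z0,z0,z0,z1]),(z3,[y2,y9,y9,y9,y5,z9])],.ref k12 k0 [(z1,[z10,
    z13,z10,z10,z0,y10]),(z1,[y8,y8,y5,y8,z0,z8]),(z1,[y5,y5,y5,y2,z0,z5]),(z1,[z4,z4,z4,z4,z3,y4]),(z1,[y2,y5,y5,y5,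
    y3,z5])],.ref k12 k0 [(z1,[z5,z3,z0,z0,y5]),(z1,[y4,z0,z3,z0,z4]),(z2,[y5,z0,z0,z6,z5]),(z1,[z2,z0,z0,z0,z1]),(z1,
    [y1,y3,y3,y3,y2,z3])]]]

noncomputable def cT6_3_n1_1 : List TN :=
  [.lp [k84,k84,k84,k74,k82,k70] [k0,k0,k0,k0,k0,k0,k5,k5,k1,k1,k9,k5] k0 [[k0,k0,k0,k0,k0,k0,k0,k0,k0,k0,k4],[k0,k0,k0,
    k2],[k2,k0,k0,k0,k0,k0,k0,k0,k0,k0,k2],[k0,k0,k0,k0,k0,k0,k0,k2,k0,k12],[k0,k0,k0,k0,k0,k0,k10],[k0,k0,k0,k0,k0,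
    k0,k0,k0,k0,k0,k0,k2],[k0,k0,k2,k0,k0,k0,k0,k0,k14],[k0,k0,k0,k0,k0,k10,k0,k0,k0,k0,k0,k2],[k0,k0,k12],[k0,k0,k0,
    k0,k0,k0,k0,k14],[k0,k0,k0,k0,k2,k0,k2],[k0,k4,k0,k2]] (nat_lit 240) k5
    [[(k10,k75),(k0,k80),(k6,k81),(k2,k82),(k8,k83),(k4,k86)],[(k7,k79),(k11,k79),(k1,k80),(k9,k83),(k3,k84),(k5,
    k86)],[(k6,k79),(k10,k79),(k2,k82),(k8,k83),(k0,k84),(k4,k84)],[(k7,k79),(k1,k82),(k3,k82),(k5,k84),(k9,k85),(k11,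
    k91)],[(k8,k71),(k6,k77),(k10,k77),(k2,k84),(k4,k84),(k0,k86)],[(k9,k73),(k7,k79),(k11,k79),(k3,k84),(k5,k84),(k1,
    k86)],[(k10,k68),(k8,k78),(k0,k79),(k2,k79),(k4,k79),(k6,k84)],[(k11,k60),(k5,k77),(k9,k78),(k3,k79),(k1,k81),(k7,
    k84)],[(k10,k72),(k4,k73),(k6,k78),(k0,k83),(k2,k85),(k8,k96)],[(k5,k71),(k7,k78),(k11,k78),(k1,k83),(k3,k83),(k9,
    k96)],[(k6,k60),(k10,k70),(k8,k78),(k0,k79),(k4,k79),(k2,k91)],[(k7,k68),(k11,k70),(k9,k72),(k1,k75),(k5,k77),(k3,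
    k79)]]
    [] k0
    [[k2,k0,k0,k0,k0,k1],[k1,k0,k0,k1,k0,k1],[k1,k0,k0,k0,k1,k1],[k1,k0,k0,k0,k0,k2],[k0,k1,k0,k1,k0,k1],[k0,k0,k2,k0,
    k1,k0],[k0,k0,k1,k1,k1,k0],[k0,k0,k1,k1,k0,k1],[k0,k0,k1,k0,k1,k1],[k0,k0,k1,k0,k0,k2],[k0,k0,k0,k2,k0,k1],[k0,k0,
    k0,k1,k1,k1],[k0,k0,k0,k1,k0,k2],[k0,k0,k0,k0,k1,k2],[k0,k0,k0,k0,k0,k3]]
    [.ref k12 k0 [(z1,[z0,z1]),(z3,[y3,z2,z1]),(z3,[z6,y4,z0,z1]),(z3,[y12,z8,z0,z0,z1]),(z3,[z0,y3,y1,y1,y1,z9])],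
    .ref k12 k0 [(z1,[z0,z1]),(z3,[z9,y3,z1,z0,y1]),(z3,[y18,z6,z0,z1,z2]),(z1,[z12,y4,z0,z0,y1]),(z3,[z0,y3,y1,y1,y1,
    z9])],.ref k12 k0 [(z1,[z0,z1]),(z9,[y9,z0,z2,y1,y1,z9]),(z9,[z18,z0,z2,z5,z2,y18]),(z9,[y36,z0,y4,y4,y1,z36]),
    (z3,[z0,y3,y1,y1,y1,z9])],.ref k12 k0 [(z1,[z0,z1]),(z6,[y3,z1,z2]),(z3,[z3,y1,z0,z1]),(z3,[y6,z2,z0,z0,z1]),(z3,
    [z0,y3,y1,y1,y1,z9])],.ref k12 k0 [(z1,[z0,z1]),(z6,[z9,z0,z1,z0,y1]),(z3,[y9,z0,z1,z1,z1]),(z3,[z18,z0,y2,z0,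
    y1]),(z3,[z0,y3,y1,y1,y1,z9])],.ref k12 k0 [(z1,[z0,z1]),(z12,[y9,y3,z3,z1,y1,z9]),(z6,[z9,z3,z1,z1,z1,y9]),(z3,
    [y9,y3,y1,z1,z0,z9]),(z3,[z0,y3,y1,y1,y1,z9])],.ref k12 k0 [(z1,[z0,z1]),(z2,[z3,z1,z1,z0,z0,y3]),(z3,[y9,y3,y1,
    z1,z0,z9]),(z3,[z18,z6,z2,z0,z1,y18]),(z3,[z0,y3,y1,y1,y1,z9])],.ref k12 k0 [(z1,[z0,z1]),(z3,[y9,z0,z1,z1,z1]),
    (z3,[z18,z0,z0,y1,y2]),(z3,[y36,z0,z0,z4,z5]),(z3,[z0,y3,y1,y1,y1,z9])],.ref k12 k0 [(z1,[z0,z1]),(z15,[y9,y3,z4,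
    z0,y1,z9]),(z15,[z18,z6,z2,z5,z2,y18]),(z15,[y36,y12,y4,z0,z1,z36]),(z3,[z0,y3,y1,y1,y1,z9])],.ref k12 k0 [(z1,
    [z0,z1]),(z24,[y9,z0,z8,z1]),(z4,[z3,z0,z0,z1]),(z6,[y9,z0,z0,z1,z2]),(z3,[z0,y3,y1,y1,y1,z9])],.ref k12 k0 [(z1,
    [z0,z1]),(z15,[z9,z0,z5,z0,y2]),(z15,[y18,z0,z0,z5,z4]),(z5,[z12,z0,z0,z0,y1]),(z3,[z0,y3,y1,y1,y1,z9])],
    .ref k12 k0 [(z1,[z0,z1]),(z3,[z9,z3,z2,z1,z0,y9]),(z3,[y18,y6,y2,y1,z0,z18]),(z3,[z36,z12,z4,z4,z1,y36]),(z3,[z0,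
    y3,y1,y1,y1,z9])],.ref k12 k0 [(z1,[z0,z1]),(z6,[y9,z0,z2,z0,z1]),(z3,[z9,z0,z0,z1,y1]),(z1,[y6,z0,z0,z0,z1]),(z3,
    [z0,y3,y1,y1,y1,z9])],.ref k12 k0 [(z1,[z0,z1]),(z18,[y9,y3,z5,y1,y1,z9]),(z9,[z9,z3,z1,z4,z1,y9]),(z9,[y18,y6,y2,
    y2,z1,z18]),(z3,[z0,y3,y1,y1,y1,z9])],.ref k12 k0 [(z1,[z0,z1]),(z3,[y1,z0,z1]),(z3,[z2,z0,z0,z1]),(z3,[y4,z0,z0,
    z0,z1]),(z3,[z0,y3,y1,y1,y1,z9])]],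
    .lp [k168,k170,k154,k164,k140,k162] [k1,k1,k0,k0,k8,k8,k3,k3,k15,k15,k4,k4] k0 [[k0,k0,k0,k0,k0,k0,k0,k0,k4,k0,k8],
    [k0,k0,k0,k0,k0,k0,k0,k8],[k0,k0,k0,k0,k8,k0,k0,k0,k0,k0,k10],[k0,k0,k0,k0,k0,k0,k0,k0,k0,k4],[k0,k0,k0,k0,k0,k0,
    k12],[k0,k0,k0,k8],[k8],[k0,k0,k0,k0,k0,k12],[k0,k0,k4],[k0,k4,k0,k0,k0,k0,k0,k0,k0,k0,k0,k8],[k0,k0,k0,k0,k0,k0,
    k0,k0,k8],[k0,k8,k0,k10]] (nat_lit 480) k5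
    [[(k2,k159),(k0,k160),(k4,k161),(k8,k162),(k10,k165),(k6,k166)],[(k1,k160),(k5,k161),(k11,k161),(k9,k162),(k7,
    k166),(k3,k169)],[(k6,k159),(k8,k159),(k4,k162),(k0,k169),(k2,k170),(k10,k174)],[(k9,k155),(k1,k159),(k7,k159),
    (k5,k162),(k3,k170),(k11,k170)],[(k8,k143),(k6,k159),(k0,k161),(k2,k162),(k4,k162),(k10,k168)],[(k9,k135),(k11,
    k158),(k7,k159),(k1,k161),(k3,k162),(k5,k162)],[(k8,k152),(k2,k159),(k4,k159),(k10,k163),(k0,k166),(k6,k176)],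
    [(k9,k152),(k3,k159),(k5,k159),(k11,k163),(k1,k166),(k7,k176)],[(k4,k135),(k8,k140),(k10,k151),(k6,k152),(k2,
    k155),(k0,k162)],[(k9,k140),(k5,k143),(k11,k151),(k7,k152),(k3,k159),(k1,k162)],[(k8,k151),(k10,k154),(k4,k158),
    (k0,k161),(k6,k163),(k2,k170)],[(k9,k151),(k11,k154),(k7,k163),(k1,k165),(k5,k168),(k3,k174)]]
    [] k0
    [[k1,k0,k1,k0,k1,k0],[k1,k0,k0,k0,k2,k0],[k1,k0,k0,k0,k1,k1],[k0,k1,k1,k0,k1,k0],[k0,k1,k0,k1,k1,k0],[k0,k1,k0,k0,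
    k2,k0],[k0,k0,k2,k0,k1,k0],[k0,k0,k1,k1,k1,k0],[k0,k0,k1,k0,k2,k0],[k0,k0,k1,k0,k1,k1],[k0,k0,k0,k1,k2,k0],[k0,k0,
    k0,k1,k1,k1],[k0,k0,k0,k0,k3,k0],[k0,k0,k0,k0,k2,k1],[k0,k0,k0,k0,k1,k2],[k0,k0,k0,k0,k0,k3]]
    [.ref k12 k0 [(z1,[y12,z3,y12,z0,y4,z12]),(z1,[z6,z0,z9,z0,z2,y6]),(z1,[z3,z0,z3,z1,z1,y3]),(z1,[y6,z0,y6,z0,y1,
    z6]),(z1,[z12,y3,z9,y1,z3,y9])],.ref k12 k0 [(z1,[y3,z0,y6,y2,y2,z6]),(z2,[z3,z3,z12,z2,z2,y6]),(z4,[z3,z3,z6,z6,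
    z2,y6]),(z2,[y3,y3,y6,y2,z0,z6]),(z1,[z3,z0,z3,z1,z1,y3])],.ref k12 k0 [(z1,[z12,z3,z12,z4,z4,y12]),(z1,[y6,z0,y3,
    y2,y2,z6]),(z1,[y3,z0,y3,z0,y1,z3]),(z1,[z6,z0,z6,z2,z3,y6]),(z1,[y12,y3,y15,y5,y5,z15])],.ref k12 k0 [(z7,[y12,
    z9,z0,z0,y4,z12]),(z7,[z6,z6,z21,z0,z2,y6]),(z7,[z3,z3,z0,z7,z1,y3]),(z7,[y6,y6,z0,z0,z5,z6]),(z7,[z12,y9,y21,y7,
    y3,z9])],.ref k12 k0 [(z1,[y3,z0,z0,y1,z0,z3]),(z2,[z3,z3,z6,z1,z0,y3]),(z4,[z3,z3,z0,z5,z0,y3]),(z2,[y3,y3,z0,y1,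
    z2,z3]),(z1,[z3,z0,y3,z0,y1])],.ref k12 k0 [(z5,[y6,z3,y6,y4,y4,z12]),(z5,[z3,z6,z18,z2,z2,y6]),(z10,[z3,z6,z3,
    z12,z2,y6]),(z5,[y3,y6,y3,y2,z3,z6]),(z5,[z6,y3,y9,y1,y1,z3])],.ref k12 k0 [(z3,[y6,z3,y6,z2,y2,z6]),(z3,[z3,z3,
    z12,y1,z1,y3]),(z6,[z3,z3,z3,z5,z1,y3]),(z3,[y3,y3,y3,z1,z2,z3]),(z3,[z6,y3,y3,y5,y1,z3])],.ref k12 k0 [(z1,[y4,
    y1,y4,z0,z0,z4]),(z1,[z2,z2,z5,z0,z0,y2]),(z1,[z1,z1,z1,z1,z0,y1]),(z1,[y2,y2,y2,z0,z1,z2]),(z1,[z4,z1,z1,y1,y1,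
    y1])],.ref k12 k0 [(z9,[y12,z3,y24,y4,y8,z24]),(z9,[z6,z12,z39,z2,z4,y12]),(z9,[z3,z6,z6,z10,z2,y6]),(z9,[y6,y12,
    y12,y2,z5,z12]),(z9,[z12,y3,y3,y5,y1,z3])],.ref k12 k0 [(z1,[y3,z0,y3,z0,y1,z3]),(z2,[z3,z3,z9,z0,z1,y3]),(z4,[z3,
    z3,z3,z4,z1,y3]),(z2,[y3,y3,y3,z0,z1,z3]),(z1,[z3,z0,z0,y1])],.ref k12 k0 [(z3,[y6,y3,y12,y4,y2,z12]),(z3,[z3,z6,
    z15,z2,z1,y6]),(z6,[z3,z6,z6,z8,z1,y6]),(z3,[y3,y6,y6,y2,z2,z6]),(z3,[z6,z3,z3,z1,y1,y3])],.ref k12 k0 [(z1,[y12,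
    y9,y12,y4,z0,z12]),(z1,[z6,z6,z9,z2,z0,y6]),(z1,[z3,z3,z3,z2,z0,y3]),(z1,[y6,y6,y6,y2,z1,z6]),(z1,[z12,z9,z9,z3,
    y1,y9])],.ref k12 k0 [(z1,[y1,z0,y3,y1,y1,z3]),(z2,[z1,z3,z9,z1,z1,y3]),(z4,[z1,z3,z3,z5,z1,y3]),(z2,[y1,y3,y3,y1,
    z1,z3]),(z1,[z1])],.ref k12 k0 [(z7,[y12,y3,y24,y8,y8,z24]),(z7,[z6,z12,z33,z4,z4,y12]),(z7,[z3,z6,z6,z9,z2,y6]),
    (z7,[y6,y12,y12,y4,z3,z12]),(z7,[z12,z3,z3,z1,z1,y3])],.ref k12 k0 [(z1,[y6,y3,y6,y2,y2,z6]),(z1,[z3,z3,z6,z1,z1,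
    y3]),(z2,[z3,z3,z3,z3,z1,y3]),(z1,[y3,y3,y3,y1,z0,z3]),(z1,[z6,z3,z3,z1,z1,y3])],.ref k12 k0 [(z1,[z4,z3]),(z1,
    [y2,z0,z3]),(z1,[y1,z0,z0,z1]),(z1,[z2,z0,z0,z0,z1]),(z1,[y4,y3,y3,y1,y1,z3])]],
    .lp [k160,k160,k174,k148,k168,k148] [k7,k7,k7,k7,k0,k0,k13,k13,k3,k3,k13,k13] k0 [[k0,k0,k0,k0,k0,k0,k24,k0,k4],[],[],
    [k0,k0,k0,k0,k0,k12,k0,k4],[k0,k0,k12],[k0,k0,k0,k0,k0,k0,k0,k12,k0,k0,k0,k2],[k0,k0,k4,k0,k12],[k0,k24,k0,k0,k0,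
    k0,k0,k0,k0,k4],[k0,k0,k0,k0,k0,k0,k4,k0,k0,k0,k34],[k0,k4],[k0,k0,k0,k0,k2],[k0,k0,k0,k0,k0,k0,k0,k0,k0,
    k34]] (nat_lit 480) k5
    [[(k8,k130),(k6,k154),(k10,k154),(k0,k160),(k2,k160),(k4,k169)],[(k9,k140),(k11,k150),(k7,k154),(k1,k160),(k3,
    k160),(k5,k167)],[(k10,k154),(k0,k160),(k2,k160),(k4,k167),(k8,k168),(k6,k178)],[(k11,k154),(k1,k160),(k3,k160),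
    (k7,k166),(k5,k167),(k9,k168)],[(k6,k157),(k10,k161),(k4,k162),(k0,k167),(k2,k167),(k8,k171)],[(k7,k161),(k11,
    k161),(k5,k162),(k3,k167),(k1,k169),(k9,k183)],[(k6,k136),(k10,k146),(k0,k154),(k8,k158),(k4,k161),(k2,k166)],
    [(k7,k136),(k11,k152),(k1,k154),(k5,k157),(k9,k158),(k3,k178)],[(k0,k140),(k6,k158),(k10,k158),(k8,k164),(k2,
    k168),(k4,k183)],[(k1,k130),(k7,k158),(k11,k158),(k9,k164),(k3,k168),(k5,k171)],[(k0,k150),(k6,k152),(k2,k154),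
    (k8,k158),(k4,k161),(k10,k182)],[(k7,k146),(k1,k154),(k3,k154),(k9,k158),(k5,k161),(k11,k182)]]
    [] k0
    [[k2,k0,k0,k1,k0,k0],[k2,k0,k0,k0,k1,k0],[k2,k0,k0,k0,k0,k1],[k1,k1,k0,k0,k1,k0],[k1,k1,k0,k0,k0,k1],[k1,k0,k0,k2,
    k0,k0],[k1,k0,k0,k1,k1,k0],[k1,k0,k0,k1,k0,k1],[k1,k0,k0,k0,k2,k0],[k1,k0,k0,k0,k1,k1],[k0,k2,k0,k0,k0,k1],[k0,k1,
    k0,k1,k0,k1],[k0,k0,k1,k2,k0,k0],[k0,k0,k1,k1,k0,k1],[k0,k0,k0,k3,k0,k0],[k0,k0,k0,k2,k1,k0],[k0,k0,k0,k2,k0,k1],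
    [k0,k0,k0,k1,k1,k1]]
    [.ref k12 k0 [(z1,[z6,y1,z0,z0,y6]),(z3,[y9,z2,z1,z0,z9]),(z6,[z9,y2,z0,z2,y9]),(z1,[y9,z2,z0,z0,z12]),(z3,[z0,y1,
    y1,y1,y9,z9])],.ref k12 k0 [(z6,[z9,z1,z1,z1,z9,y9]),(z12,[y9,z1,z3,y1,y9,z9]),(z24,[z9,y1,z1,z9,z9,y9]),(z4,[y9,
    z1,y1,y1,z3,z9]),(z3,[z0,y1,y1,y1,y9,z9])],.ref k12 k0 [(z11,[z12,z1]),(z33,[y18,z4,z11]),(z33,[z9,y2,z0,z11]),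
    (z11,[y18,z4,z0,z0,z33]),(z3,[z0,y1,y1,y1,y9,z9])],.ref k12 k0 [(z3,[z18,z1,z0,z2,z18,y18]),(z3,[y9,z0,z1,y1,y9,
    z9]),(z2,[z3,z0,z0,z1,z3,y3]),(z1,[y9,z0,z0,y1,y6,z9]),(z3,[z0,y1,y1,y1,y9,z9])],.ref k12 k0 [(z15,[z36,z1,y4]),
    (z15,[y18,z2,z7]),(z15,[z9,y1,y1,z5]),(z5,[y18,z2,z2,z0,z15]),(z3,[z0,y1,y1,y1,y9,z9])],.ref k12 k0 [(z2,[y3,z1,
    z0,z0,z6]),(z12,[z9,y1,z4,z0,y18]),(z24,[y9,z1,z0,z8,z18]),(z4,[z9,y1,z0,z0,y6]),(z3,[z0,y1,y1,y1,y9,z9])],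
    .ref k12 k0 [(z3,[y18,z1,y2,y2,z0,z18]),(z3,[z9,z0,z2,z1,z0,y9]),(z6,[y9,z0,y1,z1,z0,z9]),(z1,[z9,z0,z1,z1,z3,
    y9]),(z3,[z0,y1,y1,y1,y9,z9])],.ref k12 k0 [(z1,[z12,y1,z0,z0,y12]),(z3,[y18,z2,z1,z0,z18]),(z3,[z9,y1,z0,z1,y9]),
    (z1,[y18,z2,z0,z0,z21]),(z3,[z0,y1,y1,y1,y9,z9])],.ref k12 k0 [(z3,[z9,z2,z2,z2,z18,y18]),(z6,[y9,y1,z0,y2,y18,
    z18]),(z12,[z9,z1,z2,z6,z18,y18]),(z2,[y9,y1,y2,y2,y12,z18]),(z3,[z0,y1,y1,y1,y9,z9])],.ref k12 k0 [(z21,[z36,z7,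
    z4,z4,z36,y36]),(z21,[y18,z0,z5,y2,y18,z18]),(z21,[z9,z0,z1,z8,z9,y9]),(z7,[y18,z0,y2,y2,z3,z18]),(z3,[z0,y1,y1,
    y1,y9,z9])],.ref k12 k0 [(z3,[y36,z1,z8]),(z1,[z6,z0,y1]),(z3,[y9,z0,z2,z1]),(z1,[z18,z0,y4,z0,z3]),(z3,[z0,y1,y1,
    y1,y9,z9])],.ref k12 k0 [(z15,[y36,z5,z4,z0,z36]),(z5,[z6,z0,z1,z0,y6]),(z15,[y9,z0,z1,z5,z9]),(z5,[z18,z0,y2,z0,
    y3]),(z3,[z0,y1,y1,y1,y9,z9])],.ref k12 k0 [(z33,[y36,z11,z0,z4,z72]),(z33,[z18,z0,z11,y2,y36]),(z11,[y3,z0,z0,z4,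
    z6]),(z11,[z18,z0,z0,y2,y3]),(z3,[z0,y1,y1,y1,y9,z9])],.ref k12 k0 [(z3,[y18,z1,z0,z2,z18]),(z3,[z9,z0,z1,y1,y9]),
    (z2,[y3,z0,z0,z1,z3]),(z1,[z9,z0,z0,y1,y6]),(z3,[z0,y1,y1,y1,y9,z9])],.ref k12 k0 [(z3,[y2,z1,z0,z0,z6]),(z3,[z1,
    z0,z1,z0,y3]),(z6,[y1,z0,z0,z2,z3]),(z1,[z1]),(z3,[z0,y1,y1,y1,y9,z9])],.ref k12 k0 [(z9,[y9,z2,y1,y1,z9,z9]),
    (z18,[z9,z1,z7,z1,y9,y9]),(z36,[y9,y1,y1,z11,z9,z9]),(z6,[z9,z1,z1,z1,z9,y9]),(z3,[z0,y1,y1,y1,y9,z9])],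
    .ref k12 k0 [(z3,[y4,z1,z0,z0,z8]),(z3,[z2,z0,z1,z0,y4]),(z3,[y1,z0,z0,z1,z2]),(z1,[z2,z0,z0,z0,y1]),(z3,[z0,y1,
    y1,y1,y9,z9])],.ref k12 k0 [(z9,[y36,y1,y4,y4,z0,z36]),(z9,[z18,z2,z5,z2,z0,y18]),(z9,[y9,y1,y1,z2,z0,z9]),(z3,
    [z18,z2,z2,z2,z9,y18]),(z3,[z0,y1,y1,y1,y9,z9])]],
    .lp [k160,k166,k168,k150,k162,k152] [k4,k4,k1,k1,k0,k0,k9,k9,k3,k3,k8,k8] k0 [[k0,k0,k0,k0,k0,k0,k10],[k0,k0,k0,k4,k0,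
    k10],[k4,k0,k0,k0,k0,k0,k0,k0,k0,k0,k4],[k0,k0,k0,k0,k0,k6],[k10,k0,k6],[k0,k0,k0,k0,k0,k0,k0,k2],[k0,k0,k0,k0,k2,
    k0,k0,k0,k22],[k0,k10],[k0,k0,k0,k0,k0,k0,k0,k0,k0,k0,k16],[k0,k0,k0,k0,k0,k0,k0,k22],[],[k0,k0,k0,k4,k0,k0,k0,k0,
    k0,k16]] (nat_lit 480) k5
    [[(k8,k145),(k6,k155),(k10,k156),(k2,k159),(k0,k160),(k4,k164)],[(k9,k151),(k11,k156),(k1,k160),(k3,k163),(k7,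
    k165),(k5,k168)],[(k4,k157),(k10,k159),(k2,k162),(k0,k163),(k8,k164),(k6,k168)],[(k1,k159),(k11,k159),(k3,k162),
    (k7,k164),(k9,k164),(k5,k167)],[(k6,k159),(k4,k162),(k10,k164),(k8,k165),(k2,k167),(k0,k168)],[(k3,k157),(k7,
    k159),(k11,k160),(k5,k162),(k1,k164),(k9,k167)],[(k6,k148),(k10,k151),(k8,k156),(k4,k159),(k2,k164),(k0,k165)],
    [(k11,k129),(k7,k148),(k1,k155),(k9,k156),(k5,k159),(k3,k168)],[(k0,k151),(k6,k156),(k10,k157),(k2,k164),(k4,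
    k167),(k8,k184)],[(k1,k145),(k7,k156),(k11,k157),(k3,k164),(k5,k165),(k9,k184)],[(k6,k129),(k0,k156),(k8,k157),
    (k2,k159),(k4,k160),(k10,k168)],[(k7,k151),(k1,k156),(k9,k157),(k3,k159),(k5,k164),(k11,k168)]]
    [] k0
    [[k2,k0,k0,k0,k1,k0],[k2,k0,k0,k0,k0,k1],[k1,k1,k0,k0,k1,k0],[k1,k1,k0,k0,k0,k1],[k1,k0,k0,k2,k0,k0],[k1,k0,k0,k1,
    k1,k0],[k1,k0,k0,k1,k0,k1],[k1,k0,k0,k0,k1,k1],[k0,k1,k0,k1,k0,k1],[k0,k0,k1,k2,k0,k0],[k0,k0,k1,k1,k0,k1],[k0,k0,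
    k0,k3,k0,k0],[k0,k0,k0,k2,k1,k0],[k0,k0,k0,k2,k0,k1],[k0,k0,k0,k1,k1,k1],[k0,k0,k0,k1,k0,k2]]
    [.ref k12 k0 [(z3,[z6,z3,z2,z2,z2,y6]),(z6,[y3,z3,z5,y1,y1,z3]),(z3,[z3,y3,z1,z4,z1,y3]),(z3,[y6,z6,y2,y2,z1,z6]),
    (z3,[y3,y6,y4,y4,y4,z12])],.ref k12 k0 [(z3,[z4,z1]),(z3,[y1,z2,z3]),(z3,[z2,y4,z0,z3]),(z3,[y4,z8,z0,z0,z3]),(z3,
    [y2,y5,y3,y3,y3,z9])],.ref k12 k0 [(z1,[z12,z3,z0,z4,z4,y12]),(z1,[y3,z0,z1,y1,y1,z3]),(z1,[z6,z0,z0,z3,z2,y6]),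
    (z1,[y12,z0,z0,y4,y3,z12]),(z1,[y6,y3,y1,y3,y3,z9])],.ref k12 k0 [(z1,[z3,z0,y1]),(z4,[y3,z3,z5]),(z2,[z3,y3,y1,
    z2]),(z1,[y3,z3,z1,z0,z1]),(z2,[y3,y3,y1,y2,y2,z6])],.ref k12 k0 [(z1,[y3,z6,z0,z0,z2]),(z4,[z3,y3,z4,z0,y2]),(z2,
    [y3,z3,z0,z2,z2]),(z1,[z3,y3,z0,z0,y1]),(z2,[z3,y9,y2,y2,y4,z6])],.ref k12 k0 [(z1,[y6,z3,y2,y2,z0,z6]),(z2,[z3,
    z0,z3,z1,z0,y3]),(z1,[y3,z0,y1,z0,z0,z3]),(z1,[z6,z0,z2,z2,z1,y6]),(z1,[z3,y3,z0,z0,y1])],.ref k12 k0 [(z1,[z12,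
    y9,z0,z0,y4]),(z1,[y3,z3,z1,z0,z1]),(z1,[z6,y6,z0,z1,y2]),(z1,[y12,z12,z0,z0,z5]),(z1,[y6,z3,y1,y1,z1,z3])],
    .ref k12 k0 [(z3,[z12,z9,z4,z4,z4,y12]),(z3,[y3,z0,z2,y1,y1,z3]),(z3,[z6,z0,z2,z5,z2,y6]),(z3,[y12,z0,y4,y4,y1,
    z12]),(z3,[y6,y9,y5,y5,y5,z15])],.ref k12 k0 [(z1,[y3,z3,z1,z0,z1]),(z4,[z3,z0,z3,z0,y1]),(z2,[y3,z0,z1,z2,z1]),
    (z1,[z3,z0,y1]),(z2,[z3,y6,y3,y2,y3,z6])],.ref k12 k0 [(z3,[y6,z9,z0,z2,z4]),(z6,[z3,z0,z6,y1,y2]),(z3,[y3,z0,z0,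
    z4,z2]),(z3,[z6,z0,z0,y2,y1]),(z3,[z3,y9,y3,y4,y5,z9])],.ref k12 k0 [(z1,[y12,z3,z0,z4,z4]),(z1,[z3,z0,z1,y1,y1]),
    (z1,[y6,z0,z0,z3,z2]),(z1,[z12,z0,z0,y4,y3]),(z1,[z6,y3,y1,y3,y3,z3])],.ref k12 k0 [(z1,[y1,z3,z0,z0,z1]),(z4,[z1,
    z0,z4,z0,y1]),(z2,[y1,z0,z0,z2,z1]),(z1,[z1]),(z2,[z1,y6,y2,y2,y3,z6])],.ref k12 k0 [(z5,[y6,z9,y2,y2,z2,z6]),
    (z10,[z3,z3,z11,z1,y1,y3]),(z5,[y3,y3,y1,z4,z1,z3]),(z5,[z6,z6,z2,z2,z3,y6]),(z5,[z3,y12,y4,y4,y6,z12])],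
    .ref k12 k0 [(z7,[y12,z21,z0,z0,z8]),(z7,[z3,z0,z7,z0,y2]),(z7,[y6,z0,z0,z7,z4]),(z7,[z12,z0,z0,z0,y1]),(z7,[z6,
    y21,y7,y7,y11,z21])],.ref k12 k0 [(z5,[y12,z3,y4,y4,z0,z12]),(z5,[z3,z3,z6,z1,z0,y3]),(z5,[y6,y6,y2,z3,z0,z6]),
    (z5,[z12,z12,z4,z4,z5,y12]),(z5,[z6,y9,y3,y3,y5,z9])],.ref k12 k0 [(z1,[y6,z3,z0,z0,z2]),(z2,[z3,z0,z2,z0,y1]),
    (z1,[y3,z0,z0,z1,z1]),(z1,[z6,z0,z0,z0,y1]),(z1,[z3,y3,y1,y1,y2,z3])]],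
    .leafM k0 [k0,k1,k2,k3,k4,k5] [(z1,[z0,z1,z1,z1])] [],
    .lp [(nat_lit 336),(nat_lit 320),(nat_lit 324),(nat_lit 304),(nat_lit 314),(nat_lit 320)] [k0,k0,k8,k8,k6,k6,k16,k16,
    k11,k11,k8,k8] k0 [[k0,k0,k0,k0,k0,k0,k30,k0,k0,k0,k14],[k0,k0,k0,k0,k0,k12],[k0,k0,k0,k0,k0,k0,k0,k0,k14],[k0,k0,
    k0,k0,k0,k24,k0,k0,k0,k0,k0,k20],[k12,k0,k24],[k0,k0,k0,k0,k0,k0,k0,k22,k0,k36],[k0,k0,k0,k0,k22,k0,k0,k0,k12],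
    [k0,k30],[k0,k0,k0,k0,k36,k0,k0,k0,k0,k0,k6],[k0,k0,k0,k14,k0,k0,k0,k12],[k0,k0,k20],[k0,k14,k0,k0,k0,k0,k0,k0,k0,
    k6]] (nat_lit 960) k5
    [[(k8,(nat_lit 319)),(k6,(nat_lit 320)),(k0,(nat_lit 322)),(k10,(nat_lit 328)),(k4,(nat_lit 330)),(k2,
    (nat_lit 348))],[(k9,(nat_lit 295)),(k1,(nat_lit 322)),(k3,(nat_lit 328)),(k11,(nat_lit 328)),(k5,(nat_lit 330)),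
    (k7,(nat_lit 332))],[(k4,(nat_lit 310)),(k8,(nat_lit 317)),(k2,(nat_lit 320)),(k0,(nat_lit 328)),(k10,
    (nat_lit 334)),(k6,(nat_lit 342))],[(k11,(nat_lit 306)),(k9,(nat_lit 317)),(k3,(nat_lit 320)),(k5,(nat_lit 322)),
    (k7,(nat_lit 336)),(k1,(nat_lit 348))],[(k4,(nat_lit 300)),(k10,(nat_lit 302)),(k6,(nat_lit 314)),(k2,
    (nat_lit 322)),(k0,(nat_lit 330)),(k8,(nat_lit 333))],[(k5,(nat_lit 300)),(k3,(nat_lit 310)),(k7,(nat_lit 314)),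
    (k1,(nat_lit 330)),(k9,(nat_lit 341)),(k11,(nat_lit 358))],[(k8,(nat_lit 273)),(k6,(nat_lit 282)),(k10,
    (nat_lit 312)),(k4,(nat_lit 314)),(k0,(nat_lit 332)),(k2,(nat_lit 336))],[(k7,(nat_lit 282)),(k11,(nat_lit 300)),
    (k9,(nat_lit 309)),(k5,(nat_lit 314)),(k1,(nat_lit 320)),(k3,(nat_lit 342))],[(k0,(nat_lit 295)),(k6,
    (nat_lit 309)),(k2,(nat_lit 317)),(k10,(nat_lit 317)),(k8,(nat_lit 326)),(k4,(nat_lit 341))],[(k7,(nat_lit 273)),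
    (k3,(nat_lit 317)),(k11,(nat_lit 317)),(k1,(nat_lit 319)),(k9,(nat_lit 326)),(k5,(nat_lit 333))],[(k6,
    (nat_lit 300)),(k2,(nat_lit 306)),(k8,(nat_lit 317)),(k10,(nat_lit 326)),(k0,(nat_lit 328)),(k4,(nat_lit 358))],
    [(k5,(nat_lit 302)),(k7,(nat_lit 312)),(k9,(nat_lit 317)),(k11,(nat_lit 326)),(k1,(nat_lit 328)),(k3,
    (nat_lit 334))]]
    [] k0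
    [[k2,k0,k0,k0,k1,k0],[k1,k0,k1,k0,k1,k0],[k1,k0,k0,k2,k0,k0],[k1,k0,k0,k1,k1,k0],[k1,k0,k0,k0,k2,k0],[k1,k0,k0,k0,
    k1,k1],[k0,k2,k1,k0,k0,k0],[k0,k2,k0,k0,k1,k0],[k0,k1,k2,k0,k0,k0],[k0,k1,k1,k0,k0,k1],[k0,k1,k0,k1,k1,k0],[k0,k1,
    k0,k0,k1,k1],[k0,k0,k3,k0,k0,k0],[k0,k0,k2,k1,k0,k0],[k0,k0,k1,k2,k0,k0],[k0,k0,k1,k1,k1,k0],[k0,k0,k1,k1,k0,k1],
    [k0,k0,k0,k3,k0,k0],[k0,k0,k0,k2,k1,k0],[k0,k0,k0,k2,k0,k1],[k0,k0,k0,k1,k2,k0],[k0,k0,k0,k1,k1,k1],[k0,k0,k0,k1,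
    k0,k2]]
    [.ref k61 k8 [(z1,[y3,z5,z1,z4,y4]),(z1,[y4,z6,z1,z4,y4]),(z2,[z4,y5,y1,y4,z4]),(z2,[y2,z3,z1,z2,y2])],
    .ref k62 k6 [(z1,[z2,y1,y1,y1]),(z1,[y1,z0,z1,z0,z1]),(z2,[y2,z1,z1,z2]),(z1,[z0,z0,y1])],.ref k61 k8 [(z4,[y6,z5,
    z1,z4,y4]),(z1,[y2,z1]),(z1,[z1]),(z4,[y2,z1,z1])],.ref k40 k5 [(z1,[y6,z5,z1,z5,y4]),(z1,[z1,y1,z0,y1,z1]),(z2,
    [y4,z5,z1,z4,y4]),(z1,[z4,y4,y1,y4,z4])],.ref k10 k4 [(z1,[y2,z1]),(z1,[z1]),(z4,[y2,z1,z1]),(z1,[z0,z0,z0,z1])],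
    .ref k62 k6 [(z1,[y2,z1,y1,z1]),(z1,[z1,y1,z1,y1,z1]),(z2,[z2,y1,z1]),(z1,[z0,z0,y1])],.ref k10 k4 [(z1,[z2,z0,y1,
    y2]),(z2,[y2,z1,z1,z2]),(z2,[z1,z0,z0,y1]),(z1,[z0,z0,z0,z1])],.ref k62 k6 [(z1,[y2,z0,z0,z1]),(z2,[z2,y1,z1,y2,
    z2]),(z1,[z1]),(z1,[z0,z0,y1])],.ref k63 k4 [(z1,[z4,z0,y1,y8]),(z2,[y4,z1,z1,z8]),(z1,[z1,z0,z0,y2]),(z1,[z0,z0,
    z0,z1])],.ref k40 k5 [(z1,[z6,z5,z1,z5,y10]),(z1,[y1,y1,z0,y1,z2]),(z2,[z4,z5,z1,z4,y8]),(z1,[y4,y4,y1,y4,z8])],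
    .ref k10 k4 [(z1,[y2,y1,z0,y2,z2]),(z1,[z1,z1,z0,z1,y1]),(z4,[y2,y1,z1,y2,z2]),(z1,[z0,z0,z0,z1])],
    .ref k64 k6 [(z1,[y2,z0,y2,z1]),(z2,[z2,y1,z3,y2,z2]),(z1,[z1,z0,z1]),(z1,[z0,z0,y1])],.ref k65 k5 [(z1,[z1]),(z2,
    [y1,y3,z3,y3,z6]),(z2,[z2,z15,z3,z6,y12]),(z1,[y2,y6,y3,y6,z12])],.ref k66 k2 [(z1,[z1,z0,z0,y2]),(z1,[z0,z0,z0,
    z1]),(z2,[y2,y1,z1,z2,z2]),(z2,[z4,z5,z1,y4,y4])],.ref k47 k8 [(z2,[y1,z0,z0,z1]),(z1,[y2,y2,y1,y2,z4]),(z2,[z2,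
    z5,z1,z2,y4]),(z2,[y1,y1,z1,y1,z2])],.ref k47 k8 [(z1,[y1,z0,z0,z1]),(z1,[y4,y2,y1,z0,z4]),(z2,[z4,z5,z1,z0,y4]),
    (z2,[y2,y1,z1,z0,z2])],.ref k10 k4 [(z1,[z4,z2,z1,z0,y4]),(z2,[y4,y1,y1,z0,z4]),(z2,[z2,z1,z1,z0,y2]),(z1,[z0,z0,
    z0,z1])],.ref k67 k4 [(z1,[y4,y6,y3,y12,z12]),(z2,[z4,z15,z3,z12,y12]),(z2,[y2,y3,z3,y6,z6]),(z1,[z0,z0,z0,z1])],
    .ref k68 k5 [(z1,[y2,z0,z0,z1]),(z2,[z2,y1,z1,y2,z2]),(z2,[y4,z5,z1,z4,y4]),(z1,[z4,y2,y1,y4,z4])],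
    .ref k10 k4 [(z1,[y2,y2,y1,y4,z4]),(z2,[z2,z3,z1,z4,y4]),(z2,[y1,y1,z0,y2,z2]),(z1,[z0,z0,z0,z1])],
    .ref k10 k4 [(z3,[y4,y2,y1,y4,z4]),(z6,[z4,z5,z1,z4,y4]),(z6,[y2,y1,z1,y2,z2]),(z1,[z0,z0,z0,z1])],
    .ref k69 k2 [(z1,[y3,y2,y1,y4,z4]),(z1,[z0,z0,z0,z1]),(z2,[z2,z1,z1,z2,y2]),(z2,[y4,y1,y1,y4,z4])],
    .ref k64 k6 [(z1,[y2,y1,y3,y1,z2]),(z1,[z1,z0,z2]),(z2,[z2,z1,z3,z2,y2]),(z1,[z0,z0,y1])]],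
    .leafM k0 [k2,k3,k4,k5,k0,k1] [(z1,[y1,y1,y1,z0,z1])] [],
    .lp [k162,k172,k162,k158,k158,k146] [k5,k5,k0,k0,k5,k5,k7,k7,k7,k7,k13,k13] k0 [[k0,k0,k0,k0,k0,k0,k0,k0,k2,k0,k2],
    [k0,k0,k0,k12],[k12,k0,k0,k0,k10],[k0,k0,k0,k0,k0,k0,k0,k2,k0,k6],[k0,k0,k0,k0,k0,k0,k6],[k0,k0,k0,k10,k0,k0,k0,
    k0,k0,k0,k0,k12],[k0,k0,k2,k0,k0,k0,k0,k0,k18],[k0,k0,k0,k0,k0,k6],[k0,k0,k6,k0,k0,k0,k0,k0,k0,k0,k8],[k0,k2,k0,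
    k0,k0,k0,k0,k18],[k0,k0,k0,k0,k12],[k0,k2,k0,k0,k0,k0,k0,k0,k0,k8]] (nat_lit 480) k5
    [[(k8,k152),(k10,k154),(k0,k160),(k6,k160),(k2,k167),(k4,k174)],[(k11,k152),(k1,k160),(k7,k160),(k9,k160),(k3,
    k167),(k5,k174)],[(k2,k160),(k10,k161),(k6,k165),(k0,k167),(k4,k167),(k8,k167)],[(k7,k155),(k3,k160),(k11,k165),
    (k1,k167),(k5,k167),(k9,k167)],[(k8,k154),(k10,k154),(k6,k158),(k2,k167),(k4,k172),(k0,k174)],[(k9,k154),(k11,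
    k154),(k7,k160),(k3,k167),(k5,k172),(k1,k174)],[(k10,k140),(k2,k155),(k8,k158),(k0,k160),(k4,k160),(k6,k164)],
    [(k11,k134),(k5,k158),(k9,k158),(k1,k160),(k7,k164),(k3,k165)],[(k10,k152),(k4,k154),(k6,k158),(k0,k160),(k2,
    k167),(k8,k176)],[(k1,k152),(k11,k152),(k5,k154),(k7,k158),(k3,k167),(k9,k176)],[(k6,k134),(k0,k152),(k8,k152),
    (k4,k154),(k10,k154),(k2,k165)],[(k7,k140),(k9,k152),(k1,k154),(k5,k154),(k11,k154),(k3,k161)]]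
    [] k0
    [[k2,k0,k0,k0,k1,k0],[k2,k0,k0,k0,k0,k1],[k1,k0,k0,k1,k1,k0],[k1,k0,k0,k1,k0,k1],[k1,k0,k0,k0,k1,k1],[k1,k0,k0,k0,
    k0,k2],[k0,k1,k0,k1,k0,k1],[k0,k0,k1,k1,k1,k0],[k0,k0,k1,k1,k0,k1],[k0,k0,k1,k0,k1,k1],[k0,k0,k1,k0,k0,k2],[k0,k0,
    k0,k2,k0,k1],[k0,k0,k0,k1,k1,k1],[k0,k0,k0,k1,k0,k2],[k0,k0,k0,k0,k1,k2],[k0,k0,k0,k0,k0,k3]]
    [.ref k12 k0 [(z16,[z8,z5,z2,z1,z2,y8]),(z8,[y8,z1,z4,y1,y2,z8]),(z16,[z56,y7,z14,z13,z14,y56]),(z8,[y8,z1,y2,y1,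
    z4,z8]),(z8,[z16,y5,y2,y1,y2,z8])],.ref k12 k0 [(z2,[y1,z1]),(z4,[z4,y1,z3]),(z8,[y28,z7,z0,z3]),(z4,[z4,y1,z0,z0,
    z3]),(z8,[y16,z1,y6,y3,y6,z24])],.ref k12 k0 [(z8,[z8,z3,z2,z1,z0,y8]),(z4,[y8,z0,z1,y1,z0,z8]),(z4,[z28,z0,z7,z5,
    z0,y28]),(z4,[y8,z0,y2,y1,z3,z8]),(z8,[z32,y3,z2,z1,y6,y8])],.ref k12 k0 [(z12,[y4,z5,z0,z0,z1]),(z12,[z8,y1,z9,
    z0,y2]),(z24,[y56,z7,z0,z9,z14]),(z12,[z8,y1,z0,z0,z7]),(z24,[y32,y5,y18,y9,y10,z72])],.ref k12 k0 [(z8,[y8,z3,y2,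
    y1,y2,z8]),(z4,[z8,z0,z5,z1,z2,y8]),(z4,[y28,z0,y7,y2,y7,z28]),(z4,[z8,z0,z2,z1,z5,y8]),(z8,[y32,y3,y14,y7,y14,
    z56])],.ref k12 k0 [(z5,[y1,z2]),(z20,[z8,y1,z15]),(z40,[y56,z7,z0,z15]),(z20,[z8,y1,z0,z0,z15]),(z40,[y32,y11,
    y30,y15,y30,(Int.ofNat (nat_lit 120))])],.ref k12 k0 [(z16,[y4,z6,z1,z0,z1]),(z8,[z4,z0,z5,z0,y1]),(z16,[y28,z0,
    z7,z6,z7]),(z8,[z4,z0,y1,z0,z5]),(z8,[y8,y3,y4,y3,y4,z24])],.ref k12 k0 [(z12,[z4,z5,z1,z0,z0,y4]),(z12,[y8,y1,z7,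
    z0,z0,z8]),(z24,[z56,z7,z14,z9,z0,y56]),(z12,[y8,y1,y2,z0,z9,z8]),(z24,[z32,y5,y10,y9,y18,z40])],.ref k12 k0 [(z8,
    [y8,z3,z0,z1,z2]),(z4,[z8,z0,z3,y1,y2]),(z4,[y28,z0,z0,z5,z7]),(z4,[z8,z0,z0,y1,z1]),(z8,[y32,y3,y6,z1,z2,z24])],
    .ref k12 k0 [(z4,[z4,z2,z1,z0,z1,y4]),(z4,[y8,y1,z1,z0,y2,z8]),(z8,[z56,z7,z14,z3,z14,y56]),(z4,[y8,y1,y2,z0,z1,
    z8]),(z8,[z32,z1,z2,y3,z2,y8])],.ref k12 k0 [(z24,[y8,z9,z0,z1]),(z12,[z8,z0,z9,y1]),(z3,[y7,z0,z0,z2]),(z12,[z8,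
    z0,z0,y1,z9]),(z24,[y32,y9,y18,y5,y18,z72])],.ref k12 k0 [(z8,[y2,z3,z0,z0,z1]),(z4,[z2,z0,z3,z0,y1]),(z8,[y14,z0,
    z0,z3,z7]),(z2,[z1,z0,z0,z0,z1]),(z8,[y8,y3,y6,y3,y2,z24])],.ref k12 k0 [(z16,[y8,z5,y2,y1,z0,z8]),(z8,[z8,z1,z8,
    z1,z0,y8]),(z16,[y56,y7,y14,y1,z0,z56]),(z8,[z8,z1,z2,z1,z6,y8]),(z8,[y16,y5,y10,y5,y6,z40])],.ref k12 k0 [(z24,
    [y4,z9,z0,z0,z1]),(z12,[z4,z0,z9,z0,y1]),(z24,[y28,z0,z0,z9,z7]),(z3,[z1,z0,z0,z0,z2]),(z24,[y16,y9,y18,y9,y14,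
    z72])],.ref k12 k0 [(z32,[y8,z11,y2,y1,y2,z8]),(z16,[z8,z1,z14,z1,z2,y8]),(z32,[y56,y7,y14,z5,y14,z56]),(z16,[z8,
    z1,z2,z1,z14,y8]),(z2,[y2,y1,y2,y1,y2,z8])],.ref k12 k0 [(z8,[y1,z3]),(z4,[z1,z0,z3]),(z8,[y7,z0,z0,z3]),(z4,[z1,
    z0,z0,z0,z3]),(z8,[y4,y3,y6,y3,y6,z24])]],
    .lp [(nat_lit 320),(nat_lit 348),(nat_lit 328),(nat_lit 300),(nat_lit 292),(nat_lit 330)] [k14,k14,k0,k0,k10,k10,k24,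
    k24,k28,k28,k9,k9] k0 [[k0,k0,k0,k0,k0,k0,k0,k0,k28],[k0,k0,k0,k0,k0,k12],[k0,k0,k0,k0,k4,k0,k0,k0,k0,k0,k10],[],
    [k12,k0,k0,k0,k0,k0,k70],[k0,k0,k0,k4,k0,k0,k0,k0,k0,k2],[],[k0,k0,k0,k0,k0,k70,k0,k0,k0,k0,k0,k38],[k0,k0,k0,k0,
    k2],[k0,k28],[k0,k0,k0,k0,k0,k0,k38],[k0,k0,k0,k10]] (nat_lit 960) k5
    [[(k8,(nat_lit 306)),(k0,(nat_lit 320)),(k2,(nat_lit 324)),(k4,(nat_lit 324)),(k10,(nat_lit 325)),(k6,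
    (nat_lit 348))],[(k11,(nat_lit 297)),(k9,(nat_lit 306)),(k1,(nat_lit 320)),(k7,(nat_lit 322)),(k5,(nat_lit 324)),
    (k3,(nat_lit 334))],[(k6,(nat_lit 324)),(k4,(nat_lit 326)),(k0,(nat_lit 334)),(k10,(nat_lit 339)),(k2,
    (nat_lit 348)),(k8,(nat_lit 348))],[(k7,(nat_lit 320)),(k9,(nat_lit 320)),(k1,(nat_lit 324)),(k5,(nat_lit 338)),
    (k11,(nat_lit 339)),(k3,(nat_lit 348))],[(k8,(nat_lit 310)),(k6,(nat_lit 314)),(k0,(nat_lit 324)),(k4,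
    (nat_lit 332)),(k2,(nat_lit 338)),(k10,(nat_lit 339))],[(k9,(nat_lit 240)),(k7,(nat_lit 314)),(k1,(nat_lit 324)),
    (k3,(nat_lit 326)),(k11,(nat_lit 331)),(k5,(nat_lit 332))],[(k8,(nat_lit 294)),(k4,(nat_lit 314)),(k10,
    (nat_lit 315)),(k2,(nat_lit 320)),(k0,(nat_lit 322)),(k6,(nat_lit 370))],[(k9,(nat_lit 296)),(k5,(nat_lit 314)),
    (k11,(nat_lit 315)),(k3,(nat_lit 324)),(k1,(nat_lit 348)),(k7,(nat_lit 370))],[(k4,(nat_lit 240)),(k10,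
    (nat_lit 273)),(k8,(nat_lit 292)),(k6,(nat_lit 296)),(k0,(nat_lit 306)),(k2,(nat_lit 320))],[(k9,(nat_lit 292)),
    (k7,(nat_lit 294)),(k1,(nat_lit 306)),(k5,(nat_lit 310)),(k11,(nat_lit 311)),(k3,(nat_lit 348))],[(k0,
    (nat_lit 297)),(k8,(nat_lit 311)),(k6,(nat_lit 315)),(k10,(nat_lit 330)),(k4,(nat_lit 331)),(k2,(nat_lit 339))],
    [(k9,(nat_lit 273)),(k7,(nat_lit 315)),(k1,(nat_lit 325)),(k11,(nat_lit 330)),(k3,(nat_lit 339)),(k5,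
    (nat_lit 339))]]
    [] k0
    [[k2,k0,k0,k0,k1,k0],[k2,k0,k0,k0,k0,k1],[k1,k0,k1,k0,k1,k0],[k1,k0,k0,k1,k1,k0],[k1,k0,k0,k0,k2,k0],[k1,k0,k0,k0,
    k1,k1],[k1,k0,k0,k0,k0,k2],[k0,k1,k1,k0,k1,k0],[k0,k1,k0,k1,k1,k0],[k0,k0,k2,k0,k1,k0],[k0,k0,k1,k1,k1,k0],[k0,k0,
    k1,k0,k2,k0],[k0,k0,k1,k0,k1,k1],[k0,k0,k0,k1,k2,k0],[k0,k0,k0,k1,k1,k1],[k0,k0,k0,k0,k3,k0],[k0,k0,k0,k0,k2,k1],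
    [k0,k0,k0,k0,k1,k2]]
    [.ref k12 k0 [(z1,[z1,z1]),(z1,[y2,z4,z3]),(z1,[z4,y8,z0,z3]),(z1,[y4,z8,z0,z0,z1]),(z1,[z1,y2])],
    .ref k12 k0 [(z2,[z3,z3,z3,z3,z1,y3]),(z1,[y3,z3,z0,y3,y1,z3]),(z1,[z6,y6,z6,z9,z2,y6]),(z1,[y6,z6,y6,y6,y1,z6]),
    (z2,[z3,y3,z3,z3,z1,y3])],.ref k12 k0 [(z2,[z1,z5,z0,y1]),(z1,[y1,z1,z3,z1]),(z1,[z2,y2,z0,z1]),(z1,[y2,z2,z0,z2,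
    z1]),(z2,[z1,y1,z0,y1])],.ref k12 k0 [(z2,[y3,z9,z0,z0,z1]),(z1,[z3,y3,z3,z0,y1]),(z1,[y6,z6,z0,z3,z2]),(z1,[z6,
    y6,z0,z0,y1]),(z2,[y3,z3,z0,z0,z1])],.ref k12 k0 [(z1,[z1,z2]),(z1,[y2,z2,z3]),(z1,[z4,y4,z0,z3]),(z1,[y4,z4,z0,
    z0,z1]),(z1,[z1,y1])],.ref k12 k0 [(z2,[z3,z6,z3,z3,z1,y3]),(z1,[y3,z0,z0,y3,y1,z3]),(z1,[z6,z0,z6,z9,z2,y6]),(z1,
    [y6,z0,y6,y6,y1,z6]),(z2,[z3,z0,z3,z3,z1,y3])],.ref k12 k0 [(z1,[z3,z6,z6,z6,z2,y6]),(z1,[y6,y6,y9,y12,y4,z12]),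
    (z1,[z12,z12,z24,z27,z8,y24]),(z1,[y12,y12,y24,y24,y7,z24]),(z1,[z3,z3,z6,z6,z2,y6])],.ref k12 k0 [(z1,[z1,z3,y1,
    y1]),(z1,[y2,z0,z5,z2]),(z1,[z4,z0,y4,y1]),(z1,[y4,z0,z4,z4,z1]),(z1,[z1,z0,y1,y1])],.ref k12 k0 [(z5,[y3,z15,z3,
    z0,z1]),(z5,[z6,z0,z9,z0,y2]),(z5,[y12,z0,z12,z15,z4]),(z5,[z12,z0,y12,z0,z1]),(z5,[y3,z0,z3,z0,z1])],
    .ref k12 k0 [(z3,[z1,z9,z0,y2]),(z3,[y2,z0,z9,z4]),(z3,[z4,z0,z0,z1]),(z3,[y4,z0,z0,z8,z3]),(z3,[z1,z0,z0,y2])],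
    .ref k12 k0 [(z1,[z3,z3,z0,y3,y1]),(z1,[y6,z0,z3,z6,z2]),(z1,[z12,z0,z0,y9,y4]),(z1,[y12,z0,z0,z12,z5]),(z1,[z3,
    z0,z0,y3,y1])],.ref k12 k0 [(z2,[z1,z6,z0,y1]),(z1,[y1,z0,z3,z1]),(z1,[z2,z0,z0,z1]),(z1,[y2,z0,z0,z2,z1]),(z2,
    [z1,z0,z0,y1])],.ref k12 k0 [(z5,[z3,z18,z3,z0,z1,y3]),(z5,[y6,y6,z9,z0,y2,z6]),(z5,[z12,z12,z12,z15,z4,y12]),(z5,
    [y12,y12,y12,z0,z1,z12]),(z5,[z3,z3,z3,z0,z1,y3])],.ref k12 k0 [(z2,[y3,z6,z0,z0,z1]),(z1,[z3,z0,z3,z0,y1]),(z1,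
    [y6,z0,z0,z3,z2]),(z1,[z6,z0,z0,z0,y1]),(z2,[y3,z0,z0,z0,z1])],.ref k12 k0 [(z1,[y1,z2,y1,y1,z0,z1]),(z1,[z2,z2,
    z5,z2,z0,y2]),(z1,[y4,y4,y4,y1,z0,z4]),(z1,[z4,z4,z4,z4,z1,y4]),(z1,[y1,y1,y1,y1,z0,z1])],.ref k12 k0 [(z1,[z1,
    z3]),(z1,[y2,z0,z3]),(z1,[z4,z0,z0,z3]),(z1,[y4,z0,z0,z0,z1]),(z1,[z1])],.ref k12 k0 [(z2,[z3,z9,z3,z3,z1,y3]),
    (z1,[y3,y3,z0,y3,y1,z3]),(z1,[z6,z6,z6,z9,z2,y6]),(z1,[y6,y6,y6,y6,y1,z6]),(z2,[z3,z3,z3,z3,z1,y3])],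
    .ref k12 k0 [(z1,[z3,z9,z6,z6,z2,y6]),(z1,[y6,y12,y9,y12,y4,z12]),(z1,[z12,z24,z24,z27,z8,y24]),(z1,[y12,y24,y24,
    y24,y7,z24]),(z1,[z3,z6,z6,z6,z2,y6])]],
    .lp [k164,k172,k172,k166,k134,k150] [k4,k4,k0,k0,k0,k0,k3,k3,k19,k19,k11,k11] k0 [[k0,k0,k0,k0,k0,k0,k0,k0,k10,k0,k4],
    [],[],[k0,k0,k0,k0,k0,k0,k0,k30,k0,k28],[k0,k0,k0,k0,k0,k0,k8,k0,k6],[k0,k0,k0,k0,k0,k0,k0,k0,k0,k0,k0,k4],[k0,k0,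
    k30],[k0,k0,k0,k0,k0,k8,k0,k0,k0,k0,k0,k14],[k0,k0,k28,k0,k0,k0,k0,k0,k0,k0,k18],[k0,k10,k0,k0,k0,k6],[k0,k0,k0,
    k0,k4,k0,k14],[k0,k4,k0,k0,k0,k0,k0,k0,k0,k18]] (nat_lit 480) k5
    [[(k8,k131),(k10,k157),(k0,k160),(k2,k168),(k4,k172),(k6,k179)],[(k11,k147),(k9,k149),(k1,k160),(k7,k165),(k3,
    k168),(k5,k168)],[(k8,k163),(k10,k165),(k0,k168),(k6,k169),(k2,k172),(k4,k172)],[(k1,k168),(k7,k169),(k3,k172),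
    (k5,k172),(k9,k183),(k11,k189)],[(k8,k125),(k6,k139),(k10,k161),(k0,k168),(k2,k172),(k4,k172)],[(k9,k145),(k11,
    k155),(k7,k169),(k1,k172),(k3,k172),(k5,k172)],[(k10,k154),(k8,k156),(k0,k165),(k2,k169),(k4,k169),(k6,k174)],
    [(k5,k139),(k9,k150),(k11,k158),(k3,k169),(k7,k174),(k1,k179)],[(k10,k128),(k8,k134),(k4,k145),(k0,k149),(k6,
    k150),(k2,k183)],[(k5,k125),(k1,k131),(k9,k134),(k11,k142),(k7,k156),(k3,k163)],[(k8,k142),(k0,k147),(k4,k155),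
    (k6,k158),(k10,k168),(k2,k189)],[(k9,k128),(k7,k154),(k1,k157),(k5,k161),(k3,k165),(k11,k168)]]
    [] k0
    [[k2,k0,k0,k0,k1,k0],[k2,k0,k0,k0,k0,k1],[k1,k0,k1,k1,k0,k0],[k1,k0,k1,k0,k1,k0],[k1,k0,k0,k1,k1,k0],[k1,k0,k0,k0,
    k2,k0],[k1,k0,k0,k0,k1,k1],[k1,k0,k0,k0,k0,k2],[k0,k0,k2,k0,k1,k0],[k0,k0,k1,k1,k1,k0],[k0,k0,k1,k1,k0,k1],[k0,k0,
    k1,k0,k2,k0],[k0,k0,k1,k0,k1,k1],[k0,k0,k0,k1,k2,k0],[k0,k0,k0,k1,k1,k1],[k0,k0,k0,k0,k3,k0],[k0,k0,k0,k0,k2,k1],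
    [k0,k0,k0,k0,k1,k2]]
    [.ref k12 k0 [(z3,[z4,z1]),(z3,[y2,z4,z9]),(z3,[z1,y2,z0,z9]),(z3,[y4,z8,z0,z0,z3]),(z3,[z1,y2])],
    .ref k12 k0 [(z2,[z3,z3,z3,z3,z1,y3]),(z4,[y3,z3,z9,y3,y1,z3]),(z8,[z3,y3,z3,z27,z1,y3]),(z2,[y3,z3,y3,y3,z1,z3]),
    (z8,[z3,y3,z3,z3,z1,y3])],.ref k12 k0 [(z1,[z12,y9,z0,y12,y4]),(z1,[y6,z6,z3,z6,z2]),(z1,[z3,y3,z0,z0,y1]),(z1,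
    [y12,z12,z0,z12,z5]),(z1,[z3,y3,z0,y3,y1])],.ref k12 k0 [(z1,[z2,z1,z0,y2]),(z1,[y1,z1,z3,z1]),(z2,[z1,y1,z0,z5]),
    (z1,[y2,z2,z0,z2,z1]),(z2,[z1,y1,z0,y1])],.ref k12 k0 [(z1,[z12,y9,z0,z0,y4]),(z1,[y6,z6,z3,z0,z2]),(z1,[z3,y3,z0,
    z3,y1]),(z1,[y12,z12,z0,z0,z5]),(z1,[z3,y3,z0,z0,y1])],.ref k12 k0 [(z1,[z2,z1]),(z1,[y1,z1,z3]),(z2,[z1,y1,z0,
    z6]),(z1,[y2,z2,z0,z0,z1]),(z2,[z1,y1])],.ref k12 k0 [(z5,[z12,z15,z12,z12,z4,y12]),(z5,[y6,z0,z9,y6,y2,z6]),(z5,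
    [z3,z0,z3,z18,z1,y3]),(z5,[y12,z0,y12,y12,z1,z12]),(z5,[z3,z0,z3,z3,z1,y3])],.ref k12 k0 [(z1,[z3,z6,z6,z6,z2,
    y6]),(z2,[y3,y3,z0,y6,y2,z6]),(z4,[z3,z3,z6,z18,z2,y6]),(z1,[y3,y3,y6,y6,y1,z6]),(z4,[z3,z3,z6,z6,z2,y6])],
    .ref k12 k0 [(z1,[z4,z3,z0,y8]),(z1,[y2,z0,z3,z4]),(z1,[z1,z0,z0,z1]),(z1,[y4,z0,z0,z8,z1]),(z1,[z1,z0,z0,y2])],
    .ref k12 k0 [(z1,[y6,z3,z0,z6,z2]),(z1,[z3,z0,z3,y3,y1]),(z2,[y3,z0,z0,z9,z1]),(z1,[z6,z0,z0,y6,y1]),(z2,[y3,z0,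
    z0,z3,z1])],.ref k12 k0 [(z1,[y4,y1,y4,z0,z0,z4]),(z1,[z2,z2,z5,z0,z0,y2]),(z1,[y1,y1,y1,z3,z0,z1]),(z1,[z4,z4,z4,
    z0,z1,y4]),(z1,[y1,y1,y1,z0,z0,z1])],.ref k12 k0 [(z1,[z4,z3,z0,y4]),(z1,[y2,z0,z3,z2]),(z1,[z1,z0,z0,z2]),(z1,
    [y4,z0,z0,z4,z1]),(z1,[z1,z0,z0,y1])],.ref k12 k0 [(z1,[z6,z9,z6,z0,z2,y6]),(z1,[y3,y3,z0,z0,y1,z3]),(z2,[z3,z3,
    z3,z6,z1,y3]),(z1,[y6,y6,y6,z0,y1,z6]),(z2,[z3,z3,z3,z0,z1,y3])],.ref k12 k0 [(z1,[y6,z3,z0,z0,z2]),(z1,[z3,z0,z3,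
    z0,y1]),(z2,[y3,z0,z0,z6,z1]),(z1,[z6,z0,z0,z0,y1]),(z2,[y3,z0,z0,z0,z1])],.ref k12 k0 [(z1,[y4,y1,y4,y4,z0,z4]),
    (z1,[z2,z2,z5,z2,z0,y2]),(z1,[y1,y1,y1,z2,z0,z1]),(z1,[z4,z4,z4,z4,z1,y4]),(z1,[y1,y1,y1,y1,z0,z1])],
    .ref k12 k0 [(z1,[z4,z3]),(z1,[y2,z0,z3]),(z1,[z1,z0,z0,z3]),(z1,[y4,z0,z0,z0,z1]),(z1,[z1])],.ref k12 k0 [(z1,
    [z6,z9,z6,z6,z2,y6]),(z1,[y3,y3,z0,y3,y1,z3]),(z2,[z3,z3,z3,z9,z1,y3]),(z1,[y6,y6,y6,y6,y1,z6]),(z2,[z3,z3,z3,z3,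
    z1,y3])],.ref k12 k0 [(z1,[z12,z27,z24,z24,z8,y24]),(z1,[y6,y12,y9,y12,y4,z12]),(z1,[z3,z6,z6,z9,z2,y6]),(z1,[y12,
    y24,y24,y24,y7,z24]),(z1,[z3,z6,z6,z6,z2,y6])]],
    .lp [(nat_lit 324),(nat_lit 340),(nat_lit 334),(nat_lit 294),(nat_lit 324),(nat_lit 302)] [k8,k8,k0,k0,k3,k3,k23,k23,
    k8,k8,k19,k19] k0 [[k0,k0,k0,k0,k0,k0,k0,k0,k4,k0,k4],[k0,k0,k0,k0,k0,k6],[k0,k0,k0,k0,k0,k0,k0,k0,k0,k0,k4],[k0,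
    k0,k0,k0,k0,k0,k0,k2,k0,k34],[k6],[k0,k0,k0,k0,k0,k0,k0,k46],[k0,k0,k2,k0,k46],[k0,k0,k0,k0,k0,k0,k0,k0,k0,k34,k0,
    k44],[k0,k0,k34,k0,k0,k0,k34],[k0,k4,k0,k0,k0,k0,k0,k0,k0,k0,k0,k22],[k0,k0,k0,k0,k0,k0,k44,k0,k22],[k0,k4,k0,
    k4]] (nat_lit 960) k5
    [[(k10,(nat_lit 313)),(k0,(nat_lit 320)),(k2,(nat_lit 328)),(k4,(nat_lit 329)),(k8,(nat_lit 346)),(k6,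
    (nat_lit 353))],[(k11,(nat_lit 309)),(k7,(nat_lit 315)),(k1,(nat_lit 320)),(k9,(nat_lit 324)),(k5,(nat_lit 329)),
    (k3,(nat_lit 332))],[(k6,(nat_lit 317)),(k10,(nat_lit 325)),(k4,(nat_lit 331)),(k0,(nat_lit 332)),(k8,
    (nat_lit 336)),(k2,(nat_lit 340))],[(k7,(nat_lit 317)),(k1,(nat_lit 328)),(k9,(nat_lit 334)),(k5,(nat_lit 337)),
    (k3,(nat_lit 340)),(k11,(nat_lit 355))],[(k8,(nat_lit 295)),(k6,(nat_lit 312)),(k10,(nat_lit 322)),(k0,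
    (nat_lit 329)),(k4,(nat_lit 334)),(k2,(nat_lit 337))],[(k7,(nat_lit 314)),(k11,(nat_lit 318)),(k1,(nat_lit 329)),
    (k3,(nat_lit 331)),(k5,(nat_lit 334)),(k9,(nat_lit 375))],[(k6,(nat_lit 248)),(k10,(nat_lit 298)),(k8,
    (nat_lit 309)),(k4,(nat_lit 314)),(k0,(nat_lit 315)),(k2,(nat_lit 317))],[(k7,(nat_lit 248)),(k9,(nat_lit 309)),
    (k5,(nat_lit 312)),(k3,(nat_lit 317)),(k11,(nat_lit 332)),(k1,(nat_lit 353))],[(k10,(nat_lit 269)),(k8,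
    (nat_lit 290)),(k6,(nat_lit 309)),(k0,(nat_lit 324)),(k2,(nat_lit 334)),(k4,(nat_lit 375))],[(k9,(nat_lit 290)),
    (k5,(nat_lit 295)),(k7,(nat_lit 309)),(k11,(nat_lit 313)),(k3,(nat_lit 336)),(k1,(nat_lit 346))],[(k10,
    (nat_lit 280)),(k0,(nat_lit 309)),(k8,(nat_lit 313)),(k4,(nat_lit 318)),(k6,(nat_lit 332)),(k2,(nat_lit 355))],
    [(k9,(nat_lit 269)),(k11,(nat_lit 280)),(k7,(nat_lit 298)),(k1,(nat_lit 313)),(k5,(nat_lit 322)),(k3,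
    (nat_lit 325))]]
    [] k0
    [[k2,k0,k0,k0,k0,k1],[k1,k0,k1,k1,k0,k0],[k1,k0,k1,k0,k1,k0],[k1,k0,k0,k2,k0,k0],[k1,k0,k0,k0,k1,k1],[k1,k0,k0,k0,
    k0,k2],[k0,k1,k0,k2,k0,k0],[k0,k0,k1,k2,k0,k0],[k0,k0,k1,k1,k0,k1],[k0,k0,k1,k1,k1,k0],[k0,k0,k1,k0,k1,k1],[k0,k0,
    k1,k0,k0,k2],[k0,k0,k0,k3,k0,k0],[k0,k0,k0,k2,k1,k0],[k0,k0,k0,k2,k0,k1],[k0,k0,k0,k1,k2,k0],[k0,k0,k0,k1,k1,k1],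
    [k0,k0,k0,k1,k0,k2],[k0,k0,k0,k0,k3,k0],[k0,k0,k0,k0,k2,k1],[k0,k0,k0,k0,k1,k2],[k0,k0,k0,k0,k0,k3]]
    [.ref k24 k2 [(z1,[y1,z1,y1,y1,z1]),(z1,[z0,z0,z0,z1]),(z1,[z0,z0,z1]),(z1,[z0,z1])],.ref k29 k0 [(z1,[z4,z1,z4,
    z0,y4]),(z1,[y2,z0,y1,z0,z2]),(z1,[z1,z0,z1,z1,y1]),(z1,[y4,y1,y5,y1,z5])],.ref k22 k0 [(z1,[z2,z1,z0,y2]),(z1,
    [y1,z1,z3,z1]),(z2,[z1,y1,z0,z5]),(z1,[y2,y1,y3,y1,z3])],.ref k14 k6 [(z1,[z0,z0,z1,z2]),(z2,[z1,y1,y2]),(z1,[z0,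
    z0,z1]),(z2,[y1,y1,y4,y2,z2])],.ref k71 k2 [(z1,[y1,z0,y1,y1,z1]),(z1,[z0,z0,z0,z1]),(z1,[z0,z0,z1]),(z1,[z0,
    z1])],.ref k14 k6 [(z1,[z0,z0,z1,z2]),(z2,[y1,y1,y4,y2,z2]),(z1,[z0,z0,z1]),(z2,[z1,y1,y2])],.ref k71 k2 [(z2,[z1,
    z0,y1]),(z1,[z0,z0,z0,z1]),(z1,[z0,z0,z1]),(z1,[z0,z1])],.ref k15 k9 [(z1,[y1,y2,y2,y1,z2]),(z1,[z4,z1,z1,y3,y1]),
    (z1,[y1,y2,y2,z6,z2]),(z1,[z2,z4,z11,z2,y4])],.ref k22 k0 [(z1,[y4,y1,y4,z0,z4]),(z1,[z2,z2,z5,z0,y2]),(z1,[y1,y1,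
    y1,z3,z1]),(z1,[z4,z1,z1,y3,y1])],.ref k14 k6 [(z1,[z0,z0,z1,z2]),(z1,[z1,z0,y1,y1]),(z1,[z0,z0,z1]),(z1,[y1,y1,
    y2,z0,z1])],.ref k14 k6 [(z1,[z0,z0,z1,z2]),(z1,[y1,y1,y2,z0,z1]),(z1,[z0,z0,z1]),(z1,[z1,z0,y1,y1])],
    .ref k72 k1 [(z1,[z4,z1,z0,y4]),(z1,[z0,y1]),(z1,[y4,y1,y8,y4,z8]),(z1,[z0,y1,z0,z4])],.ref k73 k5 [(z1,[z0,z0,z0,
    z1]),(z1,[z0,z0,z1]),(z1,[z0,z1]),(z1,[y1,y3,y3,y3,z3])],.ref k15 k9 [(z1,[y1,y2,y2,y2,z2]),(z1,[z4,z1,z1,z1,y1]),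
    (z1,[y1,y2,y2,z5,z2]),(z1,[z2,z4,z11,z4,y4])],.ref k24 k2 [(z1,[z1,z1,z1,z1,y1]),(z1,[z0,z0,z0,z1]),(z1,[z0,z0,
    z1]),(z1,[z0,z1])],.ref k14 k6 [(z1,[z0,z0,z1,z2]),(z1,[z1,z0,y1]),(z1,[z0,z0,z1]),(z1,[y1,y1,y2,y1,z1])],
    .ref k22 k0 [(z1,[y4,y1,y4,y4,z4]),(z1,[z2,z2,z5,z2,y2]),(z1,[y1,y1,y1,z2,z1]),(z1,[z4,z1,z1,z1,y1])],
    .ref k61 k4 [(z1,[z1,z1,z1,z1,y1]),(z1,[z0,z1]),(z1,[z0,z0,z1]),(z1,[z0,z0,z0,z1])],.ref k22 k0 [(z1,[z4,z3]),(z1,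
    [y2,z0,z3]),(z1,[z1,z0,z0,z3]),(z1,[y4,y3,y3,y3,z3])],.ref k14 k6 [(z1,[z0,z0,z1,z2]),(z1,[y1,y1,y2,y1,z1]),(z1,
    [z0,z0,z1]),(z1,[z1,z0,y1])],.ref k72 k1 [(z1,[z4,z1]),(z1,[z0,y1]),(z1,[y4,y1,y8,y8,z8]),(z1,[z0,y1,z0,z4])],
    .ref k74 k0 [(z1,[z0,z1]),(z1,[z0,z0,z1]),(z1,[z0,z0,z0,z1]),(z1,[y1,y3,y3,y3,z3])]],
    .leafM k0 [k1,k2,k3,k4,k5,k0] [(z1,[y1,y1,z0,z1])] []]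

noncomputable def cT6_3_n1_2 : List TN :=
  [.lp [k78,k86,k86,k82,k58,k88] [k12,k12,k8,k8,k8,k8,k10,k10,k22,k22,k14,k0] k0 [[k0,k0,k0,k0,k0,k0,k4],[k0,k0,k0,k0,k0,
    k0,k0,k0,k0,k0,k0,k2],[k0,k0,k0,k0,k4,k0,k0,k0,k0,k0,k10],[k0,k0,k0,k0,k0,k0,k0,k10,k0,k8],[k0,k0,k0,k0,k0,k0,k0,
    k0,k34],[k0,k0,k0,k4,k0,k0,k0,k0,k0,k0,k0,k4],[k0,k0,k10,k0,k0,k0,k0,k0,k8],[k0,k4],[k0,k0,k8,k0,k0,k0,k0,k0,k0,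
    k0,k6],[k0,k0,k0,k0,k0,k34,k0,k8],[k2,k0,k0,k0,k4],[k0,k0,k0,k10,k0,k0,k0,k0,k0,k6]] (nat_lit 240) k5
    [[(k8,k62),(k2,k72),(k10,k76),(k0,k80),(k6,k80),(k4,k86)],[(k9,k64),(k1,k80),(k7,k80),(k3,k82),(k5,k82),(k11,
    k90)],[(k8,k72),(k10,k78),(k0,k82),(k2,k86),(k4,k86),(k6,k88)],[(k1,k72),(k7,k80),(k9,k82),(k3,k86),(k5,k86),(k11,
    k102)],[(k8,k64),(k6,k74),(k0,k82),(k2,k86),(k4,k90),(k10,k90)],[(k11,k60),(k9,k72),(k7,k84),(k1,k86),(k3,k86),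
    (k5,k90)],[(k10,k74),(k0,k80),(k2,k80),(k6,k82),(k4,k84),(k8,k104)],[(k9,k70),(k5,k74),(k1,k80),(k7,k82),(k11,
    k84),(k3,k88)],[(k0,k64),(k8,k66),(k10,k66),(k6,k70),(k4,k72),(k2,k82)],[(k1,k62),(k5,k64),(k9,k66),(k3,k72),(k11,
    k80),(k7,k104)],[(k4,k60),(k8,k80),(k6,k84),(k0,k90),(k10,k94),(k2,k102)],[(k9,k66),(k7,k74),(k1,k76),(k3,k78),
    (k5,k90),(k11,k94)]]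
    [] k0
    [[k2,k1,k0,k0,k0,k0],[k2,k0,k0,k0,k1,k0],[k1,k1,k0,k0,k1,k0],[k1,k0,k1,k0,k1,k0],[k1,k0,k0,k1,k1,k0],[k1,k0,k0,k0,
    k2,k0],[k1,k0,k0,k0,k1,k1],[k1,k0,k1,k0,k0,k1],[k0,k1,k1,k0,k1,k0],[k0,k1,k0,k1,k1,k0],[k0,k1,k0,k0,k2,k0],[k0,k1,
    k1,k0,k0,k1],[k0,k0,k2,k0,k1,k0],[k0,k0,k1,k1,k0,k1],[k0,k0,k1,k1,k1,k0],[k0,k0,k1,k0,k2,k0],[k0,k0,k1,k0,k1,k1],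
    [k0,k0,k0,k1,k1,k1],[k0,k0,k0,k0,k3,k0],[k0,k0,k0,k0,k2,k1]]
    [.ref k12 k0 [(z2,[z3,z0,y1]),(z1,[z0,z0,z1]),(z5,[y12,z8,z4,z15]),(z5,[z6,y4,y2,z0,z15]),(z5,[y3,y3,y4,y15,y15,
    z15])],.ref k12 k0 [(z8,[z15,z3,z5,z15,z15,y15]),(z1,[z0,z0,z1]),(z1,[y3,z1,y1,z0,y3,z3]),(z2,[z3,y1,z1,z3,z9,
    y3]),(z4,[y3,y3,y5,y15,y15,z15])],.ref k12 k0 [(z1,[z5,z1,z0,z5,z5,y5]),(z1,[z0,z0,z1]),(z1,[y8,z0,z0,y5,y8,z8]),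
    (z1,[z4,z0,z0,z4,z7,y4]),(z1,[y2,y1,y1,y5,y5,z5])],.ref k12 k0 [(z1,[y3,z1,y1,z0,y3,z3]),(z1,[z0,z0,z1]),(z5,[z24,
    z0,z8,z15,z24,y24]),(z5,[y12,z0,y4,z0,z3,z12]),(z5,[z6,y5,y3,y15,y9,z9])],.ref k12 k0 [(z7,[z15,z7,z5,z15,z0,
    y15]),(z1,[z0,z0,z1]),(z7,[y24,z0,y8,y3,z0,z24]),(z7,[z12,z0,z4,z12,z21,y12]),(z7,[y6,y7,y9,y27,y21,z27])],
    .ref k12 k0 [(z1,[z15,z6,z10,z30,z30,y30]),(z1,[z0,z0,z1]),(z1,[y24,y8,y16,y45,y48,z48]),(z1,[z12,z4,z8,z24,z27,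
    y24]),(z1,[y6,y3,y5,y15,y15,z15])],.ref k12 k0 [(z4,[z15,z4,z5,z15,z15,y15]),(z1,[z0,z0,z1]),(z1,[y6,z0,y2,y3,y6,
    z6]),(z1,[z3,z0,z1,z3,z6,y3]),(z2,[y3,y2,y3,y9,y9,z9])],.ref k12 k0 [(z2,[y15,z7,z0,z15]),(z1,[z0,z0,z1]),(z1,
    [z12,y4,z0,y9]),(z1,[y6,z2,z0,z6,z3]),(z1,[z3,y2,y1,y6,y3,z3])],.ref k12 k0 [(z2,[y3,z1,z0,z0,y3,z3]),(z1,[z0,z0,
    z1]),(z5,[z12,z4,z0,z15,z12,y12]),(z5,[y6,y2,z0,z0,z9,z6]),(z5,[z3,y4,y5,y15,y12,z12])],.ref k12 k0 [(z2,[z15,z7,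
    z0,z15,z0,y15]),(z1,[z0,z0,z1]),(z1,[y12,y4,z0,y9,z0,z12]),(z1,[z6,z2,z0,z6,z3,y6]),(z1,[y3,y2,y1,y6,y3,z6])],
    .ref k12 k0 [(z4,[y15,y6,y5,y30,y30,z30]),(z1,[z0,z0,z1]),(z1,[z6,z4,z2,z15,z12,y12]),(z1,[y3,y2,y1,y6,y3,z6]),
    (z2,[z3,z0,y1])],.ref k12 k0 [(z7,[y15,z7,z5,z15]),(z1,[z0,z0,z1]),(z7,[z24,z0,y8,y3]),(z7,[y12,z0,z4,z12,z21]),
    (z7,[z6,y7,y9,y27,y21,z21])],.ref k12 k0 [(z18,[y15,z13,y5,z15,y15,z15]),(z1,[z0,z0,z1]),(z9,[z12,z4,z4,z15,z12,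
    y12]),(z9,[y6,y2,y2,z6,z21,z6]),(z9,[z3,y8,y8,y30,y24,z24])],.ref k12 k0 [(z1,[y5,z1,z0,z5,z5]),(z1,[z0,z0,z1]),
    (z1,[z8,z0,z0,y5,y8]),(z1,[y4,z0,z0,z4,z7]),(z1,[z2,y1,y1,y5,y5,z3])],.ref k12 k0 [(z6,[y15,z1,y5,z0,z0,z15]),(z1,
    [z0,z0,z1]),(z3,[z12,z4,z4,z9,z0,y12]),(z3,[y6,y2,y2,z0,z9,z6]),(z3,[z3,y2,y2,y9,y9,z6])],.ref k12 k0 [(z12,[y15,
    z2,y10,y15,y30,z30]),(z1,[z0,z0,z1]),(z3,[z6,z4,z4,z15,z12,y12]),(z3,[y3,y2,y2,y3,z3,z6]),(z6,[z3,y4,y4,y15,y12,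
    z12])],.ref k12 k0 [(z9,[y15,z4,y5,z0,y15,z15]),(z1,[z0,z0,z1]),(z9,[z24,z8,z8,z27,z24,y24]),(z9,[y12,y4,y4,z0,
    z15,z12]),(z9,[z6,y7,y7,y27,y21,z21])],.ref k12 k0 [(z3,[z15,z8,z5,z15,z0,y15]),(z1,[z0,z0,z1]),(z3,[y24,y8,y8,
    y15,z0,z24]),(z3,[z12,z4,z4,z12,z9,y12]),(z3,[y6,y5,y5,y15,y9,z15])],.ref k12 k0 [(z2,[y5,y3,y5,y15,y15,z15]),(z1,
    [z0,z0,z1]),(z1,[z4,z4,z4,z15,z12,y12]),(z1,[y2,y2,y2,y6,y3,z6]),(z1,[z1])],.ref k12 k0 [(z3,[y15,y7,y10,y30,y30,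
    z30]),(z1,[z0,z0,z1]),(z3,[z24,z16,z16,z57,z48,y48]),(z3,[y12,y8,y8,y24,y15,z24]),(z3,[z6,z1,z1,z3,z3,y3])]],
    .lp [k168,k170,k154,k164,k140,k162] [k1,k1,k0,k0,k8,k8,k3,k3,k15,k15,k4,k4] k0 [[k0,k0,k0,k0,k0,k0,k0,k0,k4,k0,k8],
    [k0,k0,k0,k0,k0,k0,k0,k8],[k0,k0,k0,k0,k8,k0,k0,k0,k0,k0,k10],[k0,k0,k0,k0,k0,k0,k0,k0,k0,k4],[k0,k0,k0,k0,k0,k0,
    k12],[k0,k0,k0,k8],[k8],[k0,k0,k0,k0,k0,k12],[k0,k0,k4],[k0,k4,k0,k0,k0,k0,k0,k0,k0,k0,k0,k8],[k0,k0,k0,k0,k0,k0,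
    k0,k0,k8],[k0,k8,k0,k10]] (nat_lit 480) k5
    [[(k2,k159),(k0,k160),(k4,k161),(k8,k162),(k10,k165),(k6,k166)],[(k1,k160),(k5,k161),(k11,k161),(k9,k162),(k7,
    k166),(k3,k169)],[(k6,k159),(k8,k159),(k4,k162),(k0,k169),(k2,k170),(k10,k174)],[(k9,k155),(k1,k159),(k7,k159),
    (k5,k162),(k3,k170),(k11,k170)],[(k8,k143),(k6,k159),(k0,k161),(k2,k162),(k4,k162),(k10,k168)],[(k9,k135),(k11,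
    k158),(k7,k159),(k1,k161),(k3,k162),(k5,k162)],[(k8,k152),(k2,k159),(k4,k159),(k10,k163),(k0,k166),(k6,k176)],
    [(k9,k152),(k3,k159),(k5,k159),(k11,k163),(k1,k166),(k7,k176)],[(k4,k135),(k8,k140),(k10,k151),(k6,k152),(k2,
    k155),(k0,k162)],[(k9,k140),(k5,k143),(k11,k151),(k7,k152),(k3,k159),(k1,k162)],[(k8,k151),(k10,k154),(k4,k158),
    (k0,k161),(k6,k163),(k2,k170)],[(k9,k151),(k11,k154),(k7,k163),(k1,k165),(k5,k168),(k3,k174)]]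
    [] k0
    [[k1,k0,k1,k0,k1,k0],[k1,k0,k0,k0,k2,k0],[k1,k0,k0,k0,k1,k1],[k0,k1,k1,k0,k1,k0],[k0,k1,k0,k1,k1,k0],[k0,k1,k0,k0,
    k2,k0],[k0,k0,k2,k0,k1,k0],[k0,k0,k1,k1,k1,k0],[k0,k0,k1,k0,k2,k0],[k0,k0,k1,k0,k1,k1],[k0,k0,k0,k1,k2,k0],[k0,k0,
    k0,k1,k1,k1],[k0,k0,k0,k0,k3,k0],[k0,k0,k0,k0,k2,k1],[k0,k0,k0,k0,k1,k2],[k0,k0,k0,k0,k0,k3]]
    [.ref k12 k0 [(z24,[z4,z9,z1,z0,z4,y4]),(z3,[y1,z0,z2,z0,y1,z1]),(z6,[z4,z0,z1,z9,z4,y4]),(z3,[y4,z0,y1,z0,z5,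
    z4]),(z24,[z52,y9,y5,y36,y20,z20])],.ref k12 k0 [(z18,[z2,z7,z1,z2,z4,y4]),(z36,[y8,y1,z23,y8,y16,z16]),(z18,[z8,
    z1,z4,z35,z16,y16]),(z9,[y8,y1,y4,y8,z11,z16]),(z36,[z52,y7,y1,y2,y4,z4])],.ref k12 k0 [(z8,[z4,z3,z1,z2,z4,y4]),
    (z2,[y2,z0,z1,y1,y2,z2]),(z2,[z4,z0,z1,z5,z4,y4]),(z1,[y4,z0,y1,y2,y1,z4]),(z8,[z52,y3,z7,z14,z28,y28])],
    .ref k12 k0 [(z5,[z1,z2,z0,z0,z1,y1]),(z20,[y8,y1,z15,z0,y8,z8]),(z10,[z8,z1,z0,z15,z8,y8]),(z5,[y8,y1,z0,z0,z7,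
    z8]),(z20,[z52,y1,y15,y30,y8,z8])],.ref k12 k0 [(z2,[z2,z1,z0,z1,z0,y2]),(z4,[y8,y1,z3,y4,z0,z8]),(z2,[z8,z1,z0,
    z7,z0,y8]),(z1,[y8,y1,z0,y4,z3,z8]),(z4,[z52,z5,y3,z20,y12,y40])],.ref k12 k0 [(z32,[z4,z13,z1,z4,z8,y8]),(z16,
    [y4,y1,z11,y4,y8,z8]),(z8,[z4,z1,z1,z16,z8,y8]),(z4,[y4,y1,y1,y4,z4,z8]),(z32,[z52,z1,y11,z4,z8,y8])],
    .ref k12 k0 [(z28,[z4,z11,z1,y2,z4,y4]),(z28,[y8,y1,z19,z4,y8,z8]),(z14,[z8,z1,z2,z17,z8,y8]),(z7,[y8,y1,y2,z4,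
    z13,z8]),(z7,[z13,y1,y2,y17,y8,z8])],.ref k12 k0 [(z12,[z4,z5,z1,z0,z0,y4]),(z12,[y8,y1,z7,z0,z0,z8]),(z6,[z8,z1,
    z2,z9,z0,y8]),(z3,[y8,y1,y2,z0,z9,z8]),(z6,[z26,z1,z2,y9,y18,y8])],.ref k12 k0 [(z20,[z2,z8,z1,z1,z4,y4]),(z20,
    [y4,y1,z13,y2,y8,z8]),(z10,[z4,z1,z2,z17,z8,y8]),(z5,[y4,y1,y2,y2,z7,z8]),(z20,[z26,y1,y2,y17,y8,z8])],
    .ref k12 k0 [(z12,[z4,z5,z1,z0,z4,y4]),(z12,[y8,y1,z7,z0,y8,z8]),(z6,[z8,z1,z2,z9,z8,y8]),(z3,[y8,y1,y2,z0,z1,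
    z8]),(z6,[z26,z1,z2,y9,z8,y8])],.ref k12 k0 [(z12,[z2,z5,z1,z2,z2,y4]),(z12,[y4,y1,z7,y4,y4,z8]),(z6,[z4,z1,z2,
    z13,z4,y8]),(z3,[y4,y1,y2,y4,z5,z8]),(z6,[z13,z1,z2,z4,y5,y8])],.ref k12 k0 [(z4,[y4,z1,y1,y2,z0,z4]),(z4,[z8,z1,
    z5,z4,z0,y8]),(z2,[y8,y1,y2,y1,z0,z8]),(z1,[z8,z1,z2,z4,z3,y8]),(z1,[y13,y2,y4,y8,y3,z16])],.ref k12 k0 [(z52,[z4,
    z21,z3,z6,z12,y12]),(z52,[y8,y3,z33,y12,y24,z24]),(z26,[z8,z3,z6,z51,z24,y24]),(z13,[y8,y3,y6,y12,z15,z24]),(z1,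
    [z1])],.ref k12 k0 [(z12,[z2,z5,z1,z2,z4,y4]),(z12,[y4,y1,z7,y4,y8,z8]),(z6,[z4,z1,z2,z13,z8,y8]),(z3,[y4,y1,y2,
    y4,z1,z8]),(z6,[z13,z1,z2,z4,z8,y8])],.ref k12 k0 [(z4,[y4,z1,y1,y2,y4,z4]),(z4,[z8,z1,z5,z4,z8,y8]),(z2,[y8,y1,
    y2,y1,y8,z8]),(z1,[z8,z1,z2,z4,z11,y8]),(z1,[y13,y2,y4,y8,y16,z16])],.ref k12 k0 [(z8,[y1,z3]),(z4,[z1,z0,z3]),
    (z2,[y1,z0,z0,z3]),(z1,[z1,z0,z0,z0,z3]),(z8,[y13,y3,y6,y12,y24,z24])]],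
    .lp [(nat_lit 172913873440),(nat_lit 165648584640),(nat_lit 170825102910),(nat_lit 166687133760),
    (nat_lit 163577977332),(nat_lit 153224940792)] [k0,k0,(nat_lit 3632644400),(nat_lit 3632644400),
    (nat_lit 1044385265),(nat_lit 1044385265),(nat_lit 3113369840),(nat_lit 3113369840),(nat_lit 4667948054),
    (nat_lit 4667948054),(nat_lit 9844466324),(nat_lit 9844466324)] k0 [[k0,k0,k0,k0,k0,k0,(nat_lit 13471421040),k0,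
    k0,k0,(nat_lit 14494251156)],[k0,k0,k0,k0,k0,(nat_lit 7244107200)],[k0,k0,k0,k0,k0,k0,k0,k0,(nat_lit 2070607308)],
    [k0,k0,k0,k0,k0,(nat_lit 3105910962),k0,(nat_lit 2070607308)],[(nat_lit 7244107200),k0,(nat_lit 3105910962)],[],
    [k0,k0,(nat_lit 2070607308),k0,k0,k0,k0,k0,(nat_lit 3105910962)],[k0,(nat_lit 13471421040),k0,k0,k0,k0,k0,k0,k0,
    k0,k0,(nat_lit 4141214616)],[k0,k0,k0,k0,k0,k0,k0,k0,k0,k0,(nat_lit 31059109620)],[k0,k0,k0,(nat_lit 2070607308),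
    k0,k0,k0,(nat_lit 3105910962)],[k0,k0,k0,k0,k0,k0,(nat_lit 4141214616)],[k0,(nat_lit 14494251156),k0,k0,k0,k0,k0,
    k0,k0,(nat_lit 31059109620)]] (nat_lit 496945753920) k5
    [[(k8,(nat_lit 137186815766)),(k0,(nat_lit 158419622284)),(k10,(nat_lit 163069407116)),(k2,
    (nat_lit 169281229040)),(k4,(nat_lit 171869488175)),(k6,(nat_lit 173941718216))],[(k9,(nat_lit 154774504346)),(k1,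
    (nat_lit 158419622284)),(k11,(nat_lit 163069407116)),(k3,(nat_lit 169281229040)),(k5,(nat_lit 171869488175)),(k7,
    (nat_lit 177044610800))],[(k4,(nat_lit 160992736575)),(k8,(nat_lit 164613280986)),(k2,(nat_lit 165648584640)),(k0,
    (nat_lit 169281229040)),(k10,(nat_lit 173931013872)),(k6,(nat_lit 179639280240))],[(k11,(nat_lit 157366155408)),
    (k3,(nat_lit 165648584640)),(k9,(nat_lit 166683888294)),(k5,(nat_lit 168236843775)),(k7,(nat_lit 169273770162)),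
    (k1,(nat_lit 169281229040))],[(k10,(nat_lit 162025021851)),(k6,(nat_lit 166685511027)),(k4,
    (nat_lit 167719191948)),(k2,(nat_lit 168236843775)),(k8,(nat_lit 169272147429)),(k0,(nat_lit 171869488175))],[(k3,
    (nat_lit 160992736575)),(k11,(nat_lit 162025021851)),(k9,(nat_lit 167201540121)),(k5,(nat_lit 167719191948)),(k7,
    (nat_lit 168756118335)),(k1,(nat_lit 171869488175))],[(k10,(nat_lit 159956037276)),(k8,(nat_lit 165132555546)),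
    (k6,(nat_lit 166687133760)),(k4,(nat_lit 168756118335)),(k2,(nat_lit 169273770162)),(k0,(nat_lit 177044610800))],
    [(k11,(nat_lit 156850126314)),(k9,(nat_lit 165132555546)),(k5,(nat_lit 166685511027)),(k7,(nat_lit 166687133760)),
    (k1,(nat_lit 173941718216)),(k3,(nat_lit 179639280240))],[(k10,(nat_lit 154260244446)),(k0,
    (nat_lit 154774504346)),(k6,(nat_lit 165132555546)),(k2,(nat_lit 166683888294)),(k8,(nat_lit 166683888294)),(k4,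
    (nat_lit 167201540121))],[(k1,(nat_lit 137186815766)),(k11,(nat_lit 158401459062)),(k3,(nat_lit 164613280986)),
    (k7,(nat_lit 165132555546)),(k9,(nat_lit 166683888294)),(k5,(nat_lit 169272147429))],[(k6,(nat_lit 156850126314)),
    (k2,(nat_lit 157366155408)),(k8,(nat_lit 158401459062)),(k4,(nat_lit 162025021851)),(k0,(nat_lit 163069407116)),
    (k10,(nat_lit 184284050412))],[(k9,(nat_lit 154260244446)),(k7,(nat_lit 159956037276)),(k5,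
    (nat_lit 162025021851)),(k1,(nat_lit 163069407116)),(k3,(nat_lit 173931013872)),(k11,(nat_lit 184284050412))]]
    [] k0
    [[k3,k0,k0,k0,k0,k0],[k2,k0,k0,k0,k1,k0],[k2,k0,k0,k0,k0,k1],[k1,k1,k0,k0,k1,k0],[k1,k0,k1,k0,k1,k0],[k1,k0,k0,k1,
    k1,k0],[k1,k0,k0,k0,k2,k0],[k1,k0,k0,k0,k1,k1],[k1,k1,k0,k0,k0,k1],[k0,k2,k1,k0,k0,k0],[k0,k1,k1,k0,k0,k1],[k0,k1,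
    k0,k0,k1,k1],[k0,k0,k2,k0,k0,k1],[k0,k0,k1,k1,k0,k1],[k0,k0,k1,k0,k1,k1],[k0,k0,k0,k2,k0,k1],[k0,k0,k0,k1,k1,k1],
    [k0,k0,k0,k0,k2,k1]]
    [.ref k77 k4 [(z1,[y1,z3]),(z1,[z1]),(z1,[z0,z0,z1]),(z1,[z0,z0,z0,z1])],.ref k63 k3 [(z1,[y8,z0,z1]),(z1,[z4,z0,
    z0,z1]),(z1,[y2,y1,y1,y1,z1]),(z1,[z1])],.ref k49 k4 [(z1,[y1,z2]),(z1,[z1,y1]),(z1,[z0,z0,z1]),(z1,[z0,z0,z0,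
    z1])],.ref k15 k1 [(z1,[y5,z7,z5]),(z1,[y1,z0,z1]),(z1,[z2,y7,y9,y7,z7]),(z1,[y4,z0,z4,z7])],.ref k49 k4 [(z1,[y1,
    z1,z0,z1]),(z1,[z1,z0,z0,y1]),(z1,[z0,z0,z1]),(z1,[z0,z0,z0,z1])],.ref k24 k1 [(z1,[y5,y4,y5,y5,z5]),(z1,[y1,y1,
    y1,y1,z1]),(z1,[z2,z1,z1,z1,y1]),(z1,[y4,y4,y4,y3,z4])],.ref k26 k4 [(z1,[y1,z1]),(z1,[z1]),(z1,[z0,z0,z1]),(z1,
    [z0,z0,z0,z1])],.ref k9 k3 [(z1,[y4,z4,z3]),(z1,[z2,y2,z0,z3]),(z1,[y1,y2,y3,y3,z3]),(z2,[z1,y1])],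
    .ref k9 k3 [(z1,[z8,y8,y5]),(z1,[y4,z4,z4,z3]),(z1,[z2,y5,y5,y3,z3]),(z1,[y1,z1,z1])],.ref k9 k3 [(z1,[z2,z0,y1,
    y2]),(z1,[y1,z0,z2,z4]),(z2,[z1,y6,y8,y7,z6]),(z4,[y1,z0,z2,z1])],.ref k24 k1 [(z1,[z5,y4,y5,y5]),(z1,[z1,y1,y1,
    y1]),(z1,[y2,z1,z1,z1,z1]),(z1,[z4,y4,y4,y3])],.ref k26 k4 [(z1,[z1,z0,y1]),(z1,[y1,z1,z1]),(z1,[z0,z0,z1]),(z1,
    [z0,z0,z0,z1])],.ref k78 k9 [(z1,[z1,z0,z0,y2]),(z1,[y1,y4,y4,y2,z4]),(z1,[z1]),(z1,[y1,z0,z1,z2])],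
    .ref k15 k1 [(z1,[z5,z7,z5,z0,y5]),(z1,[z1,z0,z1,z0,y1]),(z1,[y2,y7,y9,y7,z9]),(z1,[z4,z0,z4,z7,y4])],
    .ref k32 k9 [(z1,[z1,z0,z0,y1]),(z1,[y2,y5,y5,y3,z5]),(z1,[z4,z0,z0,z1]),(z1,[y8,z0,z5,z8])],.ref k24 k1 [(z1,[z5,
    z6,z10,z10,y10]),(z1,[z1,z1,z2,z2,y2]),(z1,[y2,y3,y5,y5,z5]),(z1,[z4,z4,z8,z9,y8])],.ref k41 k0 [(z1,[y5,y4,y5,y5,
    z5]),(z1,[z8,z8,z9,z8,y8]),(z1,[y4,y4,y4,y3,z4]),(z1,[z2,z1,z1,z1,y1])],.ref k15 k1 [(z1,[z5,z2]),(z1,[z1,y1]),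
    (z1,[y2,y5,y7,y7,z7]),(z1,[z4,y4,z0,z7])]],
    .lp [k96,k72,k72,k80,k80,k78] [k0,k0,k12,k12,k12,k12,k16,k0,k8,k8,k9,k9] k0 [[k0,k0,k0,k0,k0,k0,k0,k0,k18,k0,k12],[],
    [k0,k0,k0,k0,k24],[k0,k0,k0,k0,k0,k0,k0,k8,k0,k8],[],[k0,k0,k0,k24,k0,k0,k0,k0,k0,k0,k0,k12],[k0,k0,k8],[k0,k0,k0,
    k0,k0,k0,k0,k0,k0,k0,k0,k16],[k0,k0,k8,k0,k0,k0,k0,k0,k0,k0,k16],[k0,k18],[k0,k0,k0,k0,k12,k0,k16],[k0,k12,k0,k0,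
    k0,k0,k0,k0,k0,k16]] (nat_lit 240) k5
    [[(k8,k72),(k0,k84),(k2,k84),(k10,k87),(k4,k96),(k6,k96)],[(k11,k69),(k1,k84),(k3,k84),(k5,k84),(k9,k88),(k7,
    k96)],[(k6,k68),(k2,k72),(k4,k72),(k0,k84),(k10,k87),(k8,k94)],[(k7,k60),(k3,k72),(k5,k72),(k11,k83),(k1,k84),(k9,
    k84)],[(k6,k60),(k8,k68),(k2,k72),(k10,k75),(k0,k84),(k4,k96)],[(k3,k72),(k11,k75),(k9,k76),(k7,k84),(k1,k96),(k5,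
    k96)],[(k2,k60),(k10,k75),(k6,k80),(k4,k84),(k8,k88),(k0,k96)],[(k5,k60),(k3,k68),(k11,k71),(k9,k72),(k7,k80),(k1,
    k96)],[(k10,k63),(k6,k72),(k4,k76),(k8,k80),(k2,k84),(k0,k88)],[(k5,k68),(k1,k72),(k11,k79),(k9,k80),(k7,k88),(k3,
    k94)],[(k0,k69),(k6,k71),(k4,k75),(k8,k79),(k2,k83),(k10,k94)],[(k9,k63),(k5,k75),(k7,k75),(k1,k87),(k3,k87),(k11,
    k94)]]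
    [] k0
    [[k1,k0,k1,k0,k1,k0],[k1,k0,k0,k0,k1,k1],[k0,k3,k0,k0,k0,k0],[k0,k2,k1,k0,k0,k0],[k0,k2,k0,k1,k0,k0],[k0,k1,k1,k1,
    k0,k0],[k0,k1,k1,k0,k1,k0],[k0,k1,k1,k0,k0,k1],[k0,k1,k0,k2,k0,k0],[k0,k1,k0,k1,k0,k1],[k0,k1,k0,k1,k1,k0],[k0,k0,
    k1,k2,k0,k0],[k0,k0,k1,k1,k1,k0],[k0,k0,k1,k1,k0,k1],[k0,k0,k1,k0,k2,k0],[k0,k0,k1,k0,k1,k1],[k0,k0,k0,k2,k0,k1],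
    [k0,k0,k0,k1,k1,k1],[k0,k0,k0,k0,k2,k1],[k0,k0,k0,k0,k1,k2]]
    [.ref k5 k0 [(z1,[z0,z1]),(z1,[z0,z0,z1]),(z1,[z2,y1])],.ref k6 k8 [(z2,[z6,y1,z1,y4]),(z1,[y4,z0,y1,z4]),(z2,[z4,
    z1,z1,y4])],.ref k7 k4 [(z1,[z4,z0,y3]),(z2,[y4,z3,z3]),(z1,[z1])],.ref k19 k5 [(z1,[z3,z1,y1,y2]),(z2,[y2,y1,z1,
    z2]),(z2,[z4,z3,y1,y4])],.ref k27 k0 [(z1,[z0,z1]),(z1,[z0,z0,z1]),(z1,[y4,y2,z1,z4])],.ref k6 k8 [(z2,[y6,y1,z1,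
    z2]),(z1,[z4,z0,y1]),(z2,[y4,z1,z1])],.ref k27 k0 [(z1,[z0,z1]),(z1,[z0,z0,z1]),(z1,[z4,z0,y1])],.ref k37 k4 [(z1,
    [z2,z1,z0,y2]),(z1,[y1,z0,z0,z1]),(z2,[z2,z1,z1,y2])],.ref k46 k0 [(z1,[z0,z1]),(z1,[z0,z0,z1]),(z1,[y4,y4,y1,
    z8])],.ref k5 k0 [(z1,[z0,z1]),(z1,[z0,z0,z1]),(z1,[y2,y1,z0,z2])],.ref k19 k5 [(z2,[y6,y1,z1,z2]),(z1,[z1]),(z2,
    [y4,z1,z1])],.ref k55 k4 [(z1,[y4,y2,y1,z4]),(z2,[z4,z5,z1,y4]),(z2,[y2,y1,z1,z2])],.ref k7 k4 [(z1,[y4,y2,y1,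
    z4]),(z2,[z4,z5,z1,y4]),(z2,[y2,y1,z1,z2])],.ref k60 k4 [(z1,[z4,z2,z1,y4]),(z2,[y4,y1,y1,z4]),(z2,[z2,z1,z1,
    y2])],.ref k70 k0 [(z1,[z0,z1]),(z1,[z0,z0,z1]),(z1,[z1])],.ref k75 k4 [(z1,[z4,z2,z1,y4]),(z2,[y4,y1,y1,z4]),(z2,
    [z2,z1,z1,y2])],.ref k27 k0 [(z1,[z0,z1]),(z1,[z0,z0,z1]),(z1,[y2,y2,y1,z4])],.ref k76 k10 [(z2,[z2,z1,z1,y2]),
    (z2,[y4,y1,y1,z4]),(z1,[z4,z2,z1,y4])],.ref k6 k8 [(z2,[z3,z2,z1,y4]),(z1,[y2,y2,y1,z4]),(z2,[z2,z3,z1,y4])],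
    .ref k79 k7 [(z2,[y2,y1,y3,z2]),(z1,[z1,z0,z2]),(z1,[z0,z0,y1])]],
    .lp [(nat_lit 320),(nat_lit 336),(nat_lit 338),(nat_lit 328),(nat_lit 276),(nat_lit 320)] [k9,k9,k1,k1,k0,k0,k5,k5,
    k31,k31,k9,k9] k0 [[k0,k0,k0,k0,k0,k0,k6,k0,k66],[k0,k0,k0,k0,k0,k2],[k0,k0,k0,k0,k12,k0,k0,k0,k0,k0,k32],[k0,k0,
    k0,k0,k0,k0,k0,k28,k0,k20],[k2,k0,k0,k0,k0,k0,k0,k0,k80],[k0,k0,k0,k12,k0,k0,k0,k16],[k0,k0,k28,k0,k16],[k0,k6,k0,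
    k0,k0,k0,k0,k0,k0,k0,k0,k58],[k0,k0,k20],[k0,k66,k0,k0,k0,k80],[k0,k0,k0,k0,k0,k0,k58],[k0,k0,k0,
    k32]] (nat_lit 960) k5
    [[(k2,(nat_lit 296)),(k8,(nat_lit 298)),(k0,(nat_lit 320)),(k10,(nat_lit 320)),(k4,(nat_lit 329)),(k6,
    (nat_lit 382))],[(k11,(nat_lit 254)),(k9,(nat_lit 292)),(k1,(nat_lit 320)),(k7,(nat_lit 326)),(k3,(nat_lit 328)),
    (k5,(nat_lit 329))],[(k0,(nat_lit 328)),(k10,(nat_lit 328)),(k4,(nat_lit 335)),(k2,(nat_lit 336)),(k6,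
    (nat_lit 338)),(k8,(nat_lit 372))],[(k1,(nat_lit 296)),(k7,(nat_lit 320)),(k9,(nat_lit 334)),(k3,(nat_lit 336)),
    (k5,(nat_lit 337)),(k11,(nat_lit 348))],[(k8,(nat_lit 287)),(k6,(nat_lit 305)),(k0,(nat_lit 329)),(k2,
    (nat_lit 337)),(k4,(nat_lit 350)),(k10,(nat_lit 361))],[(k11,(nat_lit 249)),(k9,(nat_lit 323)),(k1,(nat_lit 329)),
    (k7,(nat_lit 333)),(k3,(nat_lit 335)),(k5,(nat_lit 350))],[(k6,(nat_lit 312)),(k2,(nat_lit 320)),(k10,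
    (nat_lit 324)),(k0,(nat_lit 326)),(k4,(nat_lit 333)),(k8,(nat_lit 382))],[(k9,(nat_lit 302)),(k5,(nat_lit 305)),
    (k7,(nat_lit 312)),(k11,(nat_lit 324)),(k3,(nat_lit 338)),(k1,(nat_lit 382))],[(k10,(nat_lit 240)),(k8,
    (nat_lit 276)),(k0,(nat_lit 292)),(k6,(nat_lit 302)),(k4,(nat_lit 323)),(k2,(nat_lit 334))],[(k9,(nat_lit 276)),
    (k5,(nat_lit 287)),(k1,(nat_lit 298)),(k11,(nat_lit 298)),(k3,(nat_lit 372)),(k7,(nat_lit 382))],[(k4,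
    (nat_lit 249)),(k0,(nat_lit 254)),(k8,(nat_lit 298)),(k10,(nat_lit 320)),(k6,(nat_lit 324)),(k2,(nat_lit 348))],
    [(k9,(nat_lit 240)),(k1,(nat_lit 320)),(k11,(nat_lit 320)),(k7,(nat_lit 324)),(k3,(nat_lit 328)),(k5,
    (nat_lit 361))]]
    [] k0
    [[k2,k1,k0,k0,k0,k0],[k2,k0,k0,k0,k1,k0],[k2,k0,k0,k0,k0,k1],[k1,k1,k0,k0,k0,k1],[k1,k0,k1,k0,k1,k0],[k1,k0,k1,k0,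
    k0,k1],[k1,k0,k0,k1,k1,k0],[k1,k0,k0,k0,k2,k0],[k1,k0,k0,k0,k1,k1],[k1,k0,k0,k0,k0,k2],[k0,k1,k1,k0,k1,k0],[k0,k1,
    k1,k0,k0,k1],[k0,k0,k1,k2,k0,k0],[k0,k0,k1,k1,k0,k1],[k0,k0,k1,k1,k1,k0],[k0,k0,k1,k0,k2,k0],[k0,k0,k1,k0,k1,k1],
    [k0,k0,k1,k0,k0,k2],[k0,k0,k0,k3,k0,k0],[k0,k0,k0,k1,k1,k1],[k0,k0,k0,k0,k3,k0],[k0,k0,k0,k0,k2,k1],[k0,k0,k0,k0,
    k1,k2]]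
    [.ref k12 k0 [(z44,[z60,z1,y15]),(z22,[z6,y1,z15]),(z22,[y12,z2,z3,z33]),(z11,[y24,z4,z6,z0,z33]),(z11,[z12,y2,
    y3])],.ref k12 k0 [(z14,[z15,z1]),(z28,[z6,y1,z21]),(z14,[y6,z1,z0,z21]),(z7,[y12,z2,z0,z0,z21]),(z7,[z6,y1])],
    .ref k12 k0 [(z8,[z12,z1,z3,z6,z12,y12]),(z40,[z12,y1,z33,z6,z12,y12]),(z20,[y12,z1,y3,z24,y12,z12]),(z5,[y12,z1,
    y3,y6,z3,z12]),(z10,[z12,y1,z3,z6,z12,y12])],.ref k12 k0 [(z4,[z10,z1,z0,z5,z10,y10]),(z4,[z2,z0,z3,z1,z2,y2]),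
    (z1,[y1,z0,z0,z1,y1,z1]),(z1,[y4,z0,z0,y2,y1,z4]),(z1,[z2,z0,z0,z1,z2,y2])],.ref k12 k0 [(z14,[z30,z1,z0,y15]),
    (z28,[z12,y1,z21,y6]),(z14,[y12,z1,z0,z27]),(z7,[y24,z2,z0,z12,z21]),(z7,[z12,y1,z0,y6])],.ref k12 k0 [(z4,[z20,
    z1,z5,z0,z20,y20]),(z1,[z1,z0,z1,z0,z1,y1]),(z2,[y4,z0,y1,z3,y4,z4]),(z1,[y8,z0,y2,z0,y5,z8]),(z1,[z4,z0,z1,z0,z4,
    y4])],.ref k12 k0 [(z1,[z15,y1,z0,z0,y15]),(z4,[z12,y1,z3,z0,y12]),(z2,[y12,z1,z0,z3,z12]),(z1,[y24,z2,z0,z0,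
    z27]),(z1,[z12,y1,z0,z0,y12])],.ref k12 k0 [(z13,[z15,z2]),(z52,[z12,y1,z39]),(z26,[y12,z1,z0,z39]),(z13,[y24,z2,
    z0,z0,z39]),(z13,[z12,y1])],.ref k12 k0 [(z12,[z20,z3,z5,z10,z20,y20]),(z6,[z2,z0,z5,z1,z2,y2]),(z6,[y4,z0,y1,z7,
    y4,z4]),(z3,[y8,z0,y2,y4,z1,z8]),(z3,[z4,z0,z1,z2,z4,y4])],.ref k12 k0 [(z2,[z6,z1,z3,z6,z12,y12]),(z20,[z12,z1,
    z21,z12,z24,y24]),(z10,[y12,y1,y6,z3,y24,z24]),(z5,[y24,y2,y12,y24,y33,z48]),(z5,[z12,z1,z6,z12,z24,y24])],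
    .ref k12 k0 [(z4,[z20,z1,y5,y10]),(z2,[z2,z0,z1,y1]),(z2,[y4,z0,z1,z5]),(z1,[y8,z0,z2,z4,z3]),(z1,[z4,z0,y1,y2])],
    .ref k12 k0 [(z1,[y15,y1,z0,z0,y15,z15]),(z4,[y12,y1,z3,z0,y12,z12]),(z2,[z12,z1,z0,z3,z12,y12]),(z1,[z24,z2,z0,
    z0,z27,y24]),(z1,[y12,y1,z0,z0,y12,z12])],.ref k12 k0 [(z12,[y10,z3,z0,z5,z20]),(z12,[y2,z0,z9,z1,z4]),(z3,[z1,z0,
    z0,z4,y2]),(z3,[z4,z0,z0,y2,z1]),(z3,[y2,z0,z0,z1,z4])],.ref k12 k0 [(z8,[y12,z1,y3,z0,z0,z12]),(z40,[y12,y1,z27,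
    z0,z0,z12]),(z20,[z12,z1,z3,z30,z0,y12]),(z5,[z12,z1,z3,z0,z15,y12]),(z10,[y12,y1,y3,z0,z0,z12])],
    .ref k12 k0 [(z4,[y10,z1,z0,z5,z10]),(z4,[y2,z0,z3,z1,z2]),(z1,[z1,z0,z0,z1,y1]),(z1,[z4,z0,z0,y2,y1]),(z1,[y2,z0,
    z0,z1,z2])],.ref k12 k0 [(z4,[z10,z1,z0,y5]),(z4,[z2,z0,z3,y1]),(z1,[y1,z0,z0,z2]),(z1,[y4,z0,z0,z2,z3]),(z1,[z2,
    z0,z0,y1])],.ref k12 k0 [(z8,[z60,z7,z15,z0,z60,y60]),(z8,[z12,z1,z9,z0,z12,y12]),(z4,[y12,y1,y3,z6,y12,z12]),(z1,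
    [y12,y1,y3,z0,y9,z12]),(z2,[z12,z1,z3,z0,z12,y12])],.ref k12 k0 [(z4,[y30,y4,y15,y15,y60,z60]),(z4,[y6,y1,z0,y3,
    y12,z12]),(z2,[z6,z1,z3,z6,z12,y12]),(z1,[z12,z2,z6,z6,z27,y24]),(z1,[y6,y1,y3,y3,y12,z12])],.ref k12 k0 [(z8,[y5,
    z2,z0,z0,z15]),(z8,[y1,z0,z6,z0,z3]),(z4,[z1,z0,z0,z6,y3]),(z1,[z1]),(z2,[y1,z0,z0,z0,z3])],.ref k12 k0 [(z16,
    [y60,y1,y15,y30,z0,z60]),(z16,[y12,y1,z9,y6,z0,z12]),(z8,[z12,z1,z3,z18,z0,y12]),(z2,[z12,z1,z3,z6,z6,y12]),(z4,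
    [y12,y1,y3,y6,z0,z12])],.ref k12 k0 [(z4,[z5,z1]),(z4,[z1,z0,z3]),(z2,[y1,z0,z0,z3]),(z1,[y2,z0,z0,z0,z3]),(z1,
    [z1])],.ref k12 k0 [(z32,[z60,z13,z15,z30,z60,y60]),(z32,[z12,z1,z27,z6,z12,y12]),(z16,[y12,y1,y3,z18,y12,z12]),
    (z4,[y12,y1,y3,y6,z0,z12]),(z8,[z12,z1,z3,z6,z12,y12])],.ref k12 k0 [(z8,[z30,z7,z15,z30,z60,y60]),(z8,[z6,z1,z9,
    z6,z12,y12]),(z4,[y6,y1,y3,z0,y12,z12]),(z1,[y6,y1,y3,y6,y9,z12]),(z2,[z6,z1,z3,z6,z12,y12])]],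
    .lp [k160,k166,k168,k150,k162,k152] [k4,k4,k1,k1,k0,k0,k9,k9,k3,k3,k8,k8] k0 [[k0,k0,k0,k0,k0,k0,k10],[k0,k0,k0,k4,k0,
    k10],[k4,k0,k0,k0,k0,k0,k0,k0,k0,k0,k4],[k0,k0,k0,k0,k0,k6],[k10,k0,k6],[k0,k0,k0,k0,k0,k0,k0,k2],[k0,k0,k0,k0,k2,
    k0,k0,k0,k22],[k0,k10],[k0,k0,k0,k0,k0,k0,k0,k0,k0,k0,k16],[k0,k0,k0,k0,k0,k0,k0,k22],[],[k0,k0,k0,k4,k0,k0,k0,k0,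
    k0,k16]] (nat_lit 480) k5
    [[(k8,k145),(k6,k155),(k10,k156),(k2,k159),(k0,k160),(k4,k164)],[(k9,k151),(k11,k156),(k1,k160),(k3,k163),(k7,
    k165),(k5,k168)],[(k4,k157),(k10,k159),(k2,k162),(k0,k163),(k8,k164),(k6,k168)],[(k1,k159),(k11,k159),(k3,k162),
    (k7,k164),(k9,k164),(k5,k167)],[(k6,k159),(k4,k162),(k10,k164),(k8,k165),(k2,k167),(k0,k168)],[(k3,k157),(k7,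
    k159),(k11,k160),(k5,k162),(k1,k164),(k9,k167)],[(k6,k148),(k10,k151),(k8,k156),(k4,k159),(k2,k164),(k0,k165)],
    [(k11,k129),(k7,k148),(k1,k155),(k9,k156),(k5,k159),(k3,k168)],[(k0,k151),(k6,k156),(k10,k157),(k2,k164),(k4,
    k167),(k8,k184)],[(k1,k145),(k7,k156),(k11,k157),(k3,k164),(k5,k165),(k9,k184)],[(k6,k129),(k0,k156),(k8,k157),
    (k2,k159),(k4,k160),(k10,k168)],[(k7,k151),(k1,k156),(k9,k157),(k3,k159),(k5,k164),(k11,k168)]]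
    [] k0
    [[k2,k0,k0,k0,k1,k0],[k2,k0,k0,k0,k0,k1],[k1,k1,k0,k0,k1,k0],[k1,k1,k0,k0,k0,k1],[k1,k0,k0,k2,k0,k0],[k1,k0,k0,k1,
    k1,k0],[k1,k0,k0,k1,k0,k1],[k1,k0,k0,k0,k1,k1],[k0,k1,k0,k1,k0,k1],[k0,k0,k1,k2,k0,k0],[k0,k0,k1,k1,k0,k1],[k0,k0,
    k0,k3,k0,k0],[k0,k0,k0,k2,k1,k0],[k0,k0,k0,k2,k0,k1],[k0,k0,k0,k1,k1,k1],[k0,k0,k0,k1,k0,k2]]
    [.ref k12 k0 [(z1,[z2,z1,z2,z2,z2,y2]),(z2,[z1,y1,z7,z1,z1,y1]),(z1,[z2,y2,z2,z5,z2,y2]),(z1,[y4,z4,y4,y4,y1,z4]),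
    (z1,[y1,y2,y4,y4,y4,z4])],.ref k12 k0 [(z3,[z4,z1]),(z3,[z1,y2,z9]),(z3,[z4,y8,z0,z9]),(z3,[y8,z16,z0,z0,z9]),(z3,
    [y2,y5,y9,y9,y9,z9])],.ref k12 k0 [(z1,[z4,z3,z0,z4,z4,y4]),(z1,[z1,z0,z3,z1,z1,y1]),(z1,[z4,z0,z0,z7,z4,y4]),(z1,
    [y8,z0,z0,y8,y5,z8]),(z1,[y2,y3,y3,y5,y5,z5])],.ref k12 k0 [(z1,[z2,z1,y2]),(z2,[z1,y1,z5]),(z1,[z2,y2,y2,z3]),
    (z1,[y4,z4,z4,z0,z3]),(z1,[y1,y2,y2,y3,y3,z3])],.ref k12 k0 [(z1,[y1,z4,z0,z0,z2]),(z4,[y1,z1,z12,z0,z2]),(z1,[y1,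
    z1,z0,z3,z2]),(z1,[z2,y2,z0,z0,y1]),(z2,[z1,y7,y6,y6,y8,z6])],.ref k12 k0 [(z1,[y2,z3,y2,y2,z0,z2]),(z2,[y1,z0,z5,
    y1,z0,z1]),(z1,[y2,z0,y2,z1,z0,z2]),(z1,[z4,z0,z4,z4,z3,y4]),(z1,[z1,y3,y2,y2,y3,z2])],.ref k12 k0 [(z1,[y4,z7,z0,
    z0,z4]),(z1,[y1,z1,z3,z0,z1]),(z1,[y4,z4,z0,z3,z4]),(z1,[z8,y8,z0,z0,y5]),(z1,[z2,y5,y3,y3,y5,z3])],
    .ref k12 k0 [(z1,[z4,z3,z4,z4,z4,y4]),(z1,[z1,z0,z4,z1,z1,y1]),(z1,[z4,z0,z4,z7,z4,y4]),(z1,[y8,z0,y8,y8,y5,z8]),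
    (z1,[y2,y3,y5,y5,y5,z5])],.ref k12 k0 [(z1,[y2,z3,z2,z0,z2]),(z2,[y1,z0,z7,z0,z1]),(z1,[y2,z0,z2,z3,z2]),(z1,[z4,
    z0,y4,z0,y1]),(z1,[z1,y3,y4,y3,y4,z3])],.ref k12 k0 [(z1,[y1,z3,z0,z1,z2]),(z4,[y1,z0,z12,z1,z2]),(z1,[y1,z0,z0,
    z4,z2]),(z1,[z2,z0,z0,y2,y1]),(z2,[z1,y6,y6,y7,y8,z6])],.ref k12 k0 [(z1,[y4,z3,z0,z4,z4]),(z1,[y1,z0,z3,z1,z1]),
    (z1,[y4,z0,z0,z7,z4]),(z1,[z8,z0,z0,y8,y5]),(z1,[z2,y3,y3,y5,y5,z3])],.ref k12 k0 [(z2,[y1,z6,z0,z0,z3]),(z8,[y1,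
    z0,z24,z0,z3]),(z2,[y1,z0,z0,z6,z3]),(z1,[z1]),(z4,[z1,y12,y12,y12,y15,z12])],.ref k12 k0 [(z3,[y2,z7,y2,y2,z2,
    z2]),(z6,[y1,y1,z17,y1,z1,z1]),(z3,[y2,y2,y2,z7,z2,z2]),(z3,[z4,z4,z4,z4,z5,y4]),(z3,[z1,y8,y8,y8,y10,z8])],
    .ref k12 k0 [(z5,[y4,z15,z0,z0,z8]),(z5,[y1,z0,z15,z0,z2]),(z5,[y4,z0,z0,z15,z8]),(z5,[z8,z0,z0,z0,y1]),(z5,[z2,
    y15,y15,y15,y19,z15])],.ref k12 k0 [(z3,[y4,z5,y4,y4,z0,z4]),(z3,[y1,y1,z8,y1,z0,z1]),(z3,[y4,y4,y4,z5,z0,z4]),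
    (z3,[z8,z8,z8,z8,z9,y8]),(z3,[z2,y7,y7,y7,y9,z7])],.ref k12 k0 [(z1,[y2,z3,z0,z0,z2]),(z2,[y1,z0,z6,z0,z1]),(z1,
    [y2,z0,z0,z3,z2]),(z1,[z4,z0,z0,z0,y1]),(z1,[z1,y3,y3,y3,y4,z3])]],
    .lp [k156,k176,k164,k152,k144,k166] [k10,k10,k0,k0,k6,k6,k12,k12,k16,k16,k5,k5] k0 [[k0,k0,k0,k0,k0,k0,k30,k0,k10],
    [k0,k0,k0,k0,k0,k12,k0,k0,k0,k0,k0,k4],[k0,k0,k0,k0,k0,k0,k0,k0,k0,k0,k4],[],[k12],[k0,k0,k0,k0,k0,k0,k0,k22,k0,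
    k22],[k0,k0,k0,k0,k22,k0,k0,k0,k6],[k0,k30,k0,k0,k0,k0,k0,k0,k0,k0,k0,k16],[k0,k0,k0,k0,k22,k0,k0,k0,k0,k0,k20],
    [k0,k10,k0,k0,k0,k0,k0,k6],[k4,k0,k0,k0,k0,k0,k16],[k0,k0,k0,k4,k0,k0,k0,k0,k0,k20]] (nat_lit 480) k5
    [[(k8,k130),(k0,k160),(k4,k160),(k10,k161),(k2,k162),(k6,k170)],[(k9,k120),(k11,k151),(k1,k160),(k5,k160),(k3,
    k166),(k7,k166)],[(k4,k158),(k0,k166),(k10,k167),(k8,k170),(k2,k176),(k6,k194)],[(k9,k160),(k1,k162),(k7,k164),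
    (k5,k170),(k11,k171),(k3,k176)],[(k8,k154),(k6,k158),(k0,k160),(k4,k164),(k10,k169),(k2,k170)],[(k3,k158),(k7,
    k158),(k1,k160),(k5,k164),(k9,k176),(k11,k187)],[(k8,k126),(k6,k130),(k4,k158),(k10,k159),(k2,k164),(k0,k166)],
    [(k7,k130),(k9,k148),(k11,k153),(k5,k158),(k1,k170),(k3,k194)],[(k0,k120),(k10,k139),(k6,k148),(k8,k150),(k2,
    k160),(k4,k176)],[(k7,k126),(k1,k130),(k9,k150),(k5,k154),(k11,k155),(k3,k170)],[(k0,k151),(k6,k153),(k8,k155),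
    (k2,k171),(k10,k186),(k4,k187)],[(k9,k139),(k7,k159),(k1,k161),(k3,k167),(k5,k169),(k11,k186)]]
    [] k0
    [[k2,k0,k0,k0,k1,k0],[k2,k0,k0,k0,k0,k1],[k1,k1,k0,k0,k1,k0],[k1,k0,k1,k0,k1,k0],[k1,k0,k0,k2,k0,k0],[k1,k0,k0,k1,
    k1,k0],[k1,k0,k0,k0,k2,k0],[k1,k0,k0,k0,k1,k1],[k0,k1,k1,k0,k1,k0],[k0,k0,k1,k2,k0,k0],[k0,k0,k1,k1,k1,k0],[k0,k0,
    k0,k3,k0,k0],[k0,k0,k0,k2,k1,k0],[k0,k0,k0,k2,k0,k1],[k0,k0,k0,k1,k2,k0],[k0,k0,k0,k1,k1,k1],[k0,k0,k0,k0,k3,k0],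
    [k0,k0,k0,k0,k2,k1]]
    [.ref k12 k0 [(z12,[z22,z7,z11,z22,z22,y22]),(z12,[y2,z1,z17,y2,y2,z2]),(z3,[z4,y2,z2,z13,z4,y4]),(z3,[y8,z4,y4,
    y8,z1,z8]),(z6,[y4,y7,y11,y22,y22,z22])],.ref k12 k0 [(z8,[z11,z1]),(z8,[y1,z1,z12]),(z1,[z1,y1,z0,z3]),(z1,[y2,
    z2,z0,z0,z3]),(z2,[y1,y2,y3,y6,y6,z6])],.ref k12 k0 [(z2,[z11,z3,z0,z11,z11,y11]),(z2,[y1,z0,z3,y1,y1,z1]),(z1,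
    [z4,z0,z0,z7,z4,y4]),(z1,[y8,z0,z0,y8,y5,z8]),(z2,[y4,y3,y3,y10,y10,z10])],.ref k12 k0 [(z10,[z22,z15,z11,z0,z22,
    y22]),(z5,[y1,z0,z7,z0,y1,z1]),(z5,[z8,z0,z4,z15,z8,y8]),(z5,[y16,z0,y8,z0,y1,z16]),(z10,[y8,y15,y19,y30,y38,
    z38])],.ref k12 k0 [(z7,[y11,z16,z0,z0,z22]),(z14,[z2,y1,z21,z0,y4]),(z7,[y8,z4,z0,z21,z16]),(z7,[z16,y8,z0,z0,
    y11]),(z14,[z8,y25,y21,y42,y58,z42])],.ref k12 k0 [(z6,[y22,z9,y11,y22,z0,z22]),(z3,[z1,z0,z5,z1,z0,y1]),(z3,[y8,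
    z0,y4,z1,z0,z8]),(z3,[z16,z0,z8,z16,z9,y16]),(z6,[z8,y9,y5,y10,y18,z10])],.ref k12 k0 [(z1,[z11,z7,z11,z22,z22,
    y22]),(z2,[y2,y1,z1,y4,y4,z4]),(z1,[z8,z4,z8,z19,z16,y16]),(z1,[y16,y8,y16,y32,y29,z32]),(z2,[y8,y7,y11,y22,y22,
    z22])],.ref k12 k0 [(z6,[z22,z9,z11,z22,z22,y22]),(z3,[y1,z0,z4,y1,y1,z1]),(z3,[z8,z0,z4,z17,z8,y8]),(z3,[y16,z0,
    y8,y16,y7,z16]),(z6,[y8,y9,y13,y26,y26,z26])],.ref k12 k0 [(z1,[z11,z7,z0,z0,z11,y11]),(z2,[y2,y1,z3,z0,y2,z2]),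
    (z1,[z8,z4,z0,z3,z8,y8]),(z1,[y16,y8,z0,z0,y13,z16]),(z2,[y8,y7,y3,y6,y14,z14])],.ref k12 k0 [(z8,[y11,z12,z0,z11,
    z22]),(z8,[z1,z0,z12,y1,y2]),(z1,[y1,z0,z0,z4,z2]),(z1,[z2,z0,z0,y2,y1]),(z2,[z1,y3,y3,y7,y8,z6])],
    .ref k12 k0 [(z8,[y22,z1,y11,z0,z0,z22]),(z8,[z2,z1,z13,z0,z0,y2]),(z1,[y2,y1,y1,z3,z0,z2]),(z1,[z4,z2,z2,z0,z3,
    y4]),(z1,[z1,y1,y1,y3,y3,z2])],.ref k12 k0 [(z16,[y11,z24,z0,z0,z33]),(z16,[z1,z0,z24,z0,y3]),(z2,[y1,z0,z0,z6,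
    z3]),(z1,[z1]),(z4,[z1,y6,y6,y12,y15,z12])],.ref k12 k0 [(z24,[y22,z25,y11,y22,z22,z22]),(z24,[z2,z1,z37,z2,y2,
    y2]),(z3,[y2,y1,y1,z7,z2,z2]),(z3,[z4,z2,z2,z4,z5,y4]),(z3,[z1,y4,y4,y8,y10,z8])],.ref k12 k0 [(z10,[y11,z15,z0,
    z0,z22]),(z10,[z1,z0,z15,z0,y2]),(z5,[y4,z0,z0,z15,z8]),(z5,[z8,z0,z0,z0,y1]),(z10,[z4,y15,y15,y30,y38,z30])],
    .ref k12 k0 [(z8,[y11,z1,y11,y22,y11,z22]),(z8,[z1,z1,z13,z2,z1,y2]),(z1,[y1,y1,y1,z1,y1,z2]),(z1,[z2,z2,z2,z4,z5,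
    y4]),(z2,[z1,y2,y2,y4,y5,z4])],.ref k12 k0 [(z12,[y22,z7,y11,y22,z0,z22]),(z12,[z2,z1,z19,z2,z0,y2]),(z3,[y4,y2,
    y2,z5,z0,z4]),(z3,[z8,z4,z4,z8,z9,y8]),(z6,[z4,y7,y7,y14,y18,z14])],.ref k12 k0 [(z8,[y22,y21,y33,y66,y66,z66]),
    (z8,[z2,z3,z15,z6,z6,y6]),(z1,[y2,y3,y3,y3,y6,z6]),(z1,[z4,z6,z6,z12,z15,y12]),(z1,[z1])],.ref k12 k0 [(z2,[y11,
    y8,y11,y22,y22,z22]),(z2,[z1,z1,z4,z2,z2,y2]),(z1,[y4,y4,y4,y5,y8,z8]),(z1,[z8,z8,z8,z16,z19,y16]),(z2,[z4,z1,z1,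
    z2,z2,y2])]],
    .lp [k172,k154,k160,k162,k148,k162] [k0,k0,k9,k9,k6,k6,k5,k5,k12,k12,k5,k5] k0 [[k0,k0,k0,k0,k0,k0,k4,k0,k0,k0,k26],
    [k0,k0,k0,k0,k0,k6],[k0,k0,k0,k0,k0,k0,k10],[k0,k0,k0,k0,k0,k0,k0,k0,k0,k16],[k6,k0,k0,k0,k0,k0,k0,k0,k2],[k0,k0,
    k0,k0,k0,k0,k0,k28,k0,k0,k0,k2],[k0,k0,k0,k0,k28,k0,k0,k0,k12],[k0,k4,k0,k10],[k0,k0,k16,k0,k0,k0,k0,k0,k0,k0,k8],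
    [k0,k0,k0,k0,k0,k2,k0,k12],[k0,k0,k0,k0,k2],[k0,k26,k0,k0,k0,k0,k0,k0,k0,k8]] (nat_lit 480) k5
    [[(k0,k146),(k8,k152),(k2,k163),(k6,k167),(k10,k167),(k4,k168)],[(k1,k146),(k9,k156),(k3,k163),(k5,k166),(k11,
    k167),(k7,k173)],[(k4,k151),(k8,k151),(k2,k154),(k6,k162),(k0,k163),(k10,k184)],[(k9,k141),(k3,k154),(k5,k157),
    (k7,k158),(k1,k163),(k11,k174)],[(k8,k138),(k2,k157),(k4,k160),(k10,k161),(k0,k166),(k6,k171)],[(k3,k151),(k11,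
    k159),(k5,k160),(k7,k161),(k1,k168),(k9,k182)],[(k6,k134),(k8,k157),(k2,k158),(k10,k160),(k4,k161),(k0,k173)],
    [(k7,k134),(k11,k150),(k9,k155),(k3,k162),(k1,k167),(k5,k171)],[(k2,k141),(k6,k155),(k10,k155),(k0,k156),(k8,
    k160),(k4,k182)],[(k5,k138),(k3,k151),(k1,k152),(k11,k155),(k7,k157),(k9,k160)],[(k6,k150),(k8,k155),(k4,k159),
    (k0,k167),(k10,k170),(k2,k174)],[(k9,k155),(k7,k160),(k5,k161),(k1,k167),(k11,k170),(k3,k184)]]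
    [] k0
    [[k3,k0,k0,k0,k0,k0],[k2,k1,k0,k0,k0,k0],[k2,k0,k0,k0,k1,k0],[k1,k1,k0,k0,k1,k0],[k1,k0,k1,k0,k1,k0],[k1,k0,k0,k2,
    k0,k0],[k1,k0,k0,k0,k2,k0],[k1,k0,k0,k0,k1,k1],[k0,k3,k0,k0,k0,k0],[k0,k2,k1,k0,k0,k0],[k0,k2,k0,k1,k0,k0],[k0,k2,
    k0,k0,k1,k0],[k0,k1,k2,k0,k0,k0],[k0,k1,k1,k0,k1,k0],[k0,k1,k0,k2,k0,k0],[k0,k1,k0,k1,k1,k0],[k0,k1,k0,k0,k2,k0],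
    [k0,k0,k1,k2,k0,k0],[k0,k0,k1,k1,k1,k0],[k0,k0,k1,k0,k1,k1],[k0,k0,k1,k1,k0,k1],[k0,k0,k0,k3,k0,k0],[k0,k0,k0,k2,
    k1,k0],[k0,k0,k0,k2,k0,k1],[k0,k0,k0,k1,k2,k0],[k0,k0,k0,k1,k1,k1],[k0,k0,k0,k0,k2,k1]]
    [.ref k12 k0 [(z1,[z1]),(z2,[y1,z3,z6]),(z5,[z2,y6,z0,z15]),(z5,[y4,z12,z0,z0,z15]),(z5,[y1,y12,y15,y15,y15,
    z15])],.ref k12 k0 [(z1,[z2,y1,y2]),(z1,[y1,z2,z4]),(z5,[z4,y8,y4,z15]),(z5,[y8,z16,z8,z0,z15]),(z5,[y2,y11,y13,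
    y15,y15,z15])],.ref k12 k0 [(z3,[z5,z4,z5,z5,z5,y5]),(z6,[y5,z5,z13,y5,y5,z5]),(z3,[z2,y2,z2,z11,z2,y2]),(z3,[y4,
    z4,y4,y4,z5,z4]),(z3,[y1,y8,y10,y10,y10,z10])],.ref k12 k0 [(z1,[z10,z3,z0,z10,z10,y10]),(z1,[y5,z0,z3,y5,y5,z5]),
    (z1,[z4,z0,z0,z7,z4,y4]),(z1,[y8,z0,z0,y8,y5,z8]),(z1,[y2,y3,y3,y5,y5,z5])],.ref k12 k0 [(z2,[z5,z6,z5,z0,z5,y5]),
    (z4,[y5,z0,z7,z0,y5,z5]),(z1,[z1,z0,z1,z3,z1,y1]),(z1,[y2,z0,y2,z0,z1,z2]),(z2,[y1,y6,y7,y6,y7,z7])],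
    .ref k12 k0 [(z1,[y5,z8,z0,z0,z10]),(z2,[z5,y5,z6,z0,y10]),(z1,[y2,z2,z0,z3,z4]),(z1,[z4,y4,z0,z0,y5]),(z1,[z1,y4,
    y3,y3,y5,z3])],.ref k12 k0 [(z1,[z5,z8,z10,z10,z10,y10]),(z2,[y5,y5,y4,y10,y10,z10]),(z1,[z2,z2,z4,z7,z4,y4]),(z1,
    [y4,y4,y8,y8,y5,z8]),(z1,[y1,y4,y5,y5,y5,z5])],.ref k12 k0 [(z3,[z10,z9,z10,z10,z10,y10]),(z3,[y5,z0,z4,y5,y5,
    z5]),(z3,[z4,z0,z4,z13,z4,y4]),(z3,[y8,z0,y8,y8,z1,z8]),(z3,[y2,y9,y11,y11,y11,z11])],.ref k12 k0 [(z1,[y2,z3,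
    z6]),(z1,[z1]),(z5,[y4,z0,z12,z15]),(z5,[z8,z0,y24,z0,z15]),(z5,[z2,y15,y21,y15,y15,z15])],.ref k12 k0 [(z1,[y5,
    z3,z10,z5]),(z2,[z5,z0,y4,y5]),(z1,[y2,z0,z4,z5]),(z1,[z4,z0,y8,y4,z3]),(z1,[z1,y3,y5,y4,y3,z3])],
    .ref k12 k0 [(z3,[y5,z9,z10,z0,z5]),(z6,[z5,z0,z8,z0,y5]),(z3,[y2,z0,z4,z9,z2]),(z3,[z4,z0,y8,z0,z5]),(z3,[z1,y9,
    y11,y9,y10,z9])],.ref k12 k0 [(z2,[y5,z1,z5,y5,y5,z5]),(z4,[z5,z5,z7,z5,z5,y5]),(z1,[y1,y1,z1,z2,y1,z1]),(z1,[z2,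
    z2,y2,z2,z5,y2]),(z2,[z1,y5,y7,y5,y5,z5])],.ref k12 k0 [(z1,[z10,z3,y10,y20]),(z1,[y5,z0,z8,z10]),(z1,[z4,z0,y4,
    y5]),(z1,[y8,z0,z8,z16,z3]),(z1,[y2,y3,y1,z1,y3,z3])],.ref k12 k0 [(z1,[y10,y7,z0,z0,y10,z10]),(z1,[z5,z5,z3,z0,
    z5,y5]),(z1,[y4,y4,z0,z3,y4,z4]),(z1,[z8,z8,z0,z0,z11,y8]),(z1,[z2,y1,y3,y3,y1,z1])],.ref k12 k0 [(z7,[y10,z21,
    z10,z0,z20]),(z7,[z5,z0,z16,z0,y10]),(z7,[y4,z0,z4,z21,z8]),(z7,[z8,z0,y8,z0,z5]),(z7,[z2,y21,y23,y21,y25,z21])],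
    .ref k12 k0 [(z1,[y2,z1,z0,y2,z0,z2]),(z1,[z1,z1,z3,z1,z0,y1]),(z5,[y4,y4,z0,z11,z0,z4]),(z5,[z8,z8,z0,z8,z15,
    y8]),(z5,[z2,y13,y15,y13,y15,z13])],.ref k12 k0 [(z3,[y10,y11,y10,y20,y20,z20]),(z3,[z5,z10,z14,z10,z10,y10]),(z3,
    [y4,y8,y4,z1,y8,z8]),(z3,[z8,z16,z8,z16,z25,y16]),(z3,[z2,y5,y7,y5,y5,z5])],.ref k12 k0 [(z2,[y5,z6,z0,z5,z10]),
    (z4,[z5,z0,z12,y5,y10]),(z1,[y1,z0,z0,z4,z2]),(z1,[z2,z0,z0,y2,y1]),(z2,[z1,y6,y6,y7,y8,z6])],.ref k12 k0 [(z1,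
    [y5,y2,y5,z0,z0,z5]),(z2,[z5,z5,z11,z0,z0,y5]),(z1,[y2,y2,y2,z3,z0,z2]),(z1,[z4,z4,z4,z0,z3,y4]),(z1,[z1,y2,y2,y3,
    y3,z2])],.ref k12 k0 [(z1,[z10,z13,z10,z0,z10,y10]),(z1,[y5,y5,y2,z0,y5,z5]),(z1,[z4,z4,z4,z3,z4,y4]),(z1,[y8,y8,
    y8,z0,y5,z8]),(z1,[y2,y5,y5,y3,y5,z5])],.ref k12 k0 [(z1,[y10,z3,z0,z10,z10]),(z1,[z5,z0,z3,y5,y5]),(z1,[y4,z0,z0,
    z7,z4]),(z1,[z8,z0,z0,y8,y5]),(z1,[z2,y3,y3,y5,y5,z3])],.ref k12 k0 [(z4,[y5,z12,z0,z0,z15]),(z8,[z5,z0,z24,z0,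
    y15]),(z2,[y1,z0,z0,z6,z3]),(z1,[z1]),(z4,[z1,y12,y12,y12,y15,z12])],.ref k12 k0 [(z3,[y5,z4,y5,y5,z5,z5]),(z6,
    [z5,z5,z23,z5,y5,y5]),(z3,[y2,y2,y2,z7,z2,z2]),(z3,[z4,z4,z4,z4,z5,y4]),(z3,[z1,y8,y8,y8,y10,z8])],
    .ref k12 k0 [(z1,[y2,z3,z0,z0,z4]),(z1,[z1,z0,z3,z0,y2]),(z5,[y4,z0,z0,z15,z8]),(z5,[z8,z0,z0,z0,y1]),(z5,[z2,y15,
    y15,y15,y19,z15])],.ref k12 k0 [(z2,[y5,y4,y10,y10,y5,z10]),(z4,[z5,z10,z22,z10,z5,y10]),(z1,[y1,y2,y2,z1,y1,z2]),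
    (z1,[z2,z4,z4,z4,z5,y4]),(z2,[z1,y4,y4,y4,y5,z4])],.ref k12 k0 [(z3,[y10,y1,y10,y10,z0,z10]),(z3,[z5,z5,z14,z5,z0,
    y5]),(z3,[y4,y4,y4,z5,z0,z4]),(z3,[z8,z8,z8,z8,z9,y8]),(z3,[z2,y7,y7,y7,y9,z7])],.ref k12 k0 [(z1,[y10,y17,y20,
    y20,y20,z20]),(z1,[z5,z10,z13,z10,z10,y10]),(z1,[y4,y8,y8,y5,y8,z8]),(z1,[z8,z16,z16,z16,z19,y16]),(z1,[z2,z1,z1,
    z1,z1,y1])]],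
    .leafM k1 [k0,k1,k2,k3,k4,k5] [(z1,[z0,z1,z0,z1]),(z1,[z0,y1,z0,y1,z1])] [],
    .lp [k162,k172,k162,k158,k158,k146] [k5,k5,k0,k0,k5,k5,k7,k7,k7,k7,k13,k13] k0 [[k0,k0,k0,k0,k0,k0,k0,k0,k2,k0,k2],
    [k0,k0,k0,k12],[k12,k0,k0,k0,k10],[k0,k0,k0,k0,k0,k0,k0,k2,k0,k6],[k0,k0,k0,k0,k0,k0,k6],[k0,k0,k0,k10,k0,k0,k0,
    k0,k0,k0,k0,k12],[k0,k0,k2,k0,k0,k0,k0,k0,k18],[k0,k0,k0,k0,k0,k6],[k0,k0,k6,k0,k0,k0,k0,k0,k0,k0,k8],[k0,k2,k0,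
    k0,k0,k0,k0,k18],[k0,k0,k0,k0,k12],[k0,k2,k0,k0,k0,k0,k0,k0,k0,k8]] (nat_lit 480) k5
    [[(k8,k152),(k10,k154),(k0,k160),(k6,k160),(k2,k167),(k4,k174)],[(k11,k152),(k1,k160),(k7,k160),(k9,k160),(k3,
    k167),(k5,k174)],[(k2,k160),(k10,k161),(k6,k165),(k0,k167),(k4,k167),(k8,k167)],[(k7,k155),(k3,k160),(k11,k165),
    (k1,k167),(k5,k167),(k9,k167)],[(k8,k154),(k10,k154),(k6,k158),(k2,k167),(k4,k172),(k0,k174)],[(k9,k154),(k11,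
    k154),(k7,k160),(k3,k167),(k5,k172),(k1,k174)],[(k10,k140),(k2,k155),(k8,k158),(k0,k160),(k4,k160),(k6,k164)],
    [(k11,k134),(k5,k158),(k9,k158),(k1,k160),(k7,k164),(k3,k165)],[(k10,k152),(k4,k154),(k6,k158),(k0,k160),(k2,
    k167),(k8,k176)],[(k1,k152),(k11,k152),(k5,k154),(k7,k158),(k3,k167),(k9,k176)],[(k6,k134),(k0,k152),(k8,k152),
    (k4,k154),(k10,k154),(k2,k165)],[(k7,k140),(k9,k152),(k1,k154),(k5,k154),(k11,k154),(k3,k161)]]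
    [] k0
    [[k2,k0,k0,k0,k1,k0],[k2,k0,k0,k0,k0,k1],[k1,k0,k0,k1,k1,k0],[k1,k0,k0,k1,k0,k1],[k1,k0,k0,k0,k1,k1],[k1,k0,k0,k0,
    k0,k2],[k0,k1,k0,k1,k0,k1],[k0,k0,k1,k1,k1,k0],[k0,k0,k1,k1,k0,k1],[k0,k0,k1,k0,k1,k1],[k0,k0,k1,k0,k0,k2],[k0,k0,
    k0,k2,k0,k1],[k0,k0,k0,k1,k1,k1],[k0,k0,k0,k1,k0,k2],[k0,k0,k0,k0,k1,k2],[k0,k0,k0,k0,k0,k3]]
    [.ref k12 k0 [(z5,[z8,z7,z8,z8,z4,y8]),(z5,[y4,z4,z11,y4,y2,z4]),(z1,[y2,z2,y2,z1,y1,z2]),(z1,[z1,y1,z1,z1,z2,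
    y1]),(z5,[y1,y14,y16,y16,y8,z16])],.ref k12 k0 [(z3,[z4,z1]),(z3,[y2,z4,z9]),(z3,[y5,z10,z0,z9]),(z6,[z5,y10,z0,
    z0,z9]),(z6,[y1,y16,y18,y18,y9,z18])],.ref k12 k0 [(z1,[z2,z3,z2,z2,z0,y2]),(z1,[y1,z0,z2,y1,z0,z1]),(z2,[y5,z0,
    y5,z1,z0,z5]),(z4,[z5,z0,z5,z5,z6,y5]),(z4,[y1,y12,y13,y13,y6,z13])],.ref k12 k0 [(z5,[z8,z7,z0,z0,y4]),(z5,[y4,
    z4,z15,z0,z2]),(z1,[y2,z2,z0,z3,z1]),(z1,[z1,y1,z0,z0,z1]),(z5,[y1,y14,y15,y15,y7,z15])],.ref k12 k0 [(z3,[z8,z9,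
    z8,z8,z4,y8]),(z3,[y4,z0,z5,y4,y2,z4]),(z3,[y10,z0,y10,y1,y5,z10]),(z3,[z5,z0,z5,z5,z7,y5]),(z3,[y1,y9,y10,y10,y5,
    z10])],.ref k12 k0 [(z1,[z2,z1]),(z1,[y1,z1,z3]),(z2,[y5,z5,z0,z6]),(z4,[z5,y5,z0,z0,z6]),(z4,[y1,y11,y12,y12,y6,
    z12])],.ref k12 k0 [(z1,[z8,z3,y8,z0,y4]),(z1,[y4,z0,z7,z0,z2]),(z1,[y10,z0,z10,z3,z5]),(z1,[z5,z0,y5,z0,y1]),(z1,
    [y1,y3,y2,y3,y1,z3])],.ref k12 k0 [(z1,[y4,y1,y4,z0,z0,z4]),(z1,[z2,z2,z5,z0,z0,y2]),(z1,[z5,z5,z5,z3,z0,y5]),(z2,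
    [y5,y5,y5,z0,z3,z5]),(z2,[z1,y5,y5,y6,y3,z5])],.ref k12 k0 [(z1,[y8,z3,z0,z8,z4]),(z1,[z4,z0,z3,y4,y2]),(z1,[z10,
    z0,z0,y7,y5]),(z1,[y5,z0,z0,z5,z4]),(z1,[z1,y3,y3,y4,y2,z3])],.ref k12 k0 [(z3,[y8,z1,y8,z0,y4,z8]),(z3,[z4,z4,
    z13,z0,z2,y4]),(z3,[z10,z10,z10,z9,z5,y10]),(z3,[y5,y5,y5,z0,z2,z5]),(z3,[z1,y8,y8,y9,y4,z8])],.ref k12 k0 [(z1,
    [y4,z3,z0,z4]),(z1,[z2,z0,z3,y2]),(z1,[z5,z0,z0,y2]),(z2,[y5,z0,z0,z5,z3]),(z2,[z1,y6,y6,y7,y3,z6])],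
    .ref k12 k0 [(z1,[z2,z3,z0,z0,y2]),(z1,[y1,z0,z3,z0,z1]),(z2,[y5,z0,z0,z6,z5]),(z4,[z5,z0,z0,z0,z1]),(z4,[y1,y12,
    y12,y12,y5,z12])],.ref k12 k0 [(z1,[z4,z7,z4,z4,z0,y4]),(z1,[y2,y2,z1,y2,z0,z2]),(z1,[y5,y5,y5,y2,z0,z5]),(z2,[z5,
    z5,z5,z5,z3,y5]),(z2,[y1,y7,y7,y7,y3,z7])],.ref k12 k0 [(z3,[z8,z9,z0,z0,y4]),(z3,[y4,z0,z9,z0,z2]),(z3,[y10,z0,
    z0,z9,z5]),(z3,[z5,z0,z0,z0,z2]),(z3,[y1,y9,y9,y9,y4,z9])],.ref k12 k0 [(z1,[z8,z11,z8,z8,z4,y8]),(z1,[y4,y4,y1,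
    y4,y2,z4]),(z1,[y10,y10,y10,y7,y5,z10]),(z1,[z5,z5,z5,z5,z4,y5]),(z1,[y1,y4,y4,y4,y2,z4])],.ref k12 k0 [(z1,[z4,
    z3]),(z1,[y2,z0,z3]),(z1,[y5,z0,z0,z3]),(z2,[z5,z0,z0,z0,z3]),(z2,[y1,y6,y6,y6,y3,z6])]],
    .leafM k0 [k2,k3,k4,k5,k0,k1] [(z1,[y1,y1,y1,z0,z1])] [],
    .lp [k82,k82,k82,k76,k72,k84] [k1,k1,k1,k1,k1,k1,k4,k4,k6,k6,k0,k0] k0 [[k0,k0,k0,k0,k0,k0,k10,k0,k0,k0,k2],[k0,k0,k0,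
    k10,k0,k0,k0,k0,k0,k8],[k10],[k0,k0,k0,k0,k0,k0,k0,k0,k0,k0,k0,k4],[k0,k0,k0,k0,k0,k0,k16],[],[k0,k0,k0,k0,k0,k0,
    k0,k0,k2,k0,k10],[k0,k10,k0,k0,k0,k16],[k8],[k0,k0,k0,k0,k0,k0,k0,k2],[k0,k0,k4],[k0,k2,k0,k0,k0,k0,k0,
    k10]] (nat_lit 240) k5
    [[(k6,k69),(k8,k77),(k0,k80),(k4,k82),(k10,k83),(k2,k86)],[(k9,k67),(k7,k79),(k1,k80),(k3,k82),(k11,k91),(k5,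
    k92)],[(k8,k69),(k2,k72),(k0,k82),(k4,k82),(k10,k85),(k6,k89)],[(k3,k72),(k9,k77),(k7,k79),(k5,k82),(k11,k83),(k1,
    k86)],[(k8,k77),(k6,k79),(k10,k79),(k2,k82),(k4,k82),(k0,k92)],[(k9,k61),(k7,k79),(k1,k82),(k3,k82),(k5,k82),(k11,
    k83)],[(k8,k74),(k0,k79),(k2,k79),(k4,k79),(k10,k80),(k6,k92)],[(k1,k69),(k9,k74),(k11,k78),(k5,k79),(k3,k89),(k7,
    k92)],[(k4,k61),(k0,k67),(k6,k74),(k8,k74),(k2,k77),(k10,k88)],[(k3,k69),(k7,k74),(k9,k74),(k1,k77),(k5,k77),(k11,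
    k78)],[(k6,k78),(k8,k78),(k2,k83),(k4,k83),(k10,k84),(k0,k91)],[(k5,k79),(k7,k80),(k1,k83),(k11,k84),(k3,k85),(k9,
    k88)]]
    [] k0
    [[k2,k0,k0,k1,k0,k0],[k2,k0,k0,k0,k1,k0],[k1,k1,k0,k0,k1,k0],[k1,k0,k1,k0,k1,k0],[k1,k1,k0,k1,k0,k0],[k1,k0,k0,k1,
    k1,k0],[k1,k0,k0,k0,k2,k0],[k1,k0,k0,k0,k1,k1],[k0,k3,k0,k0,k0,k0],[k0,k2,k1,k0,k0,k0],[k0,k2,k0,k0,k1,k0],[k0,k1,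
    k1,k0,k1,k0],[k0,k1,k0,k1,k1,k0],[k0,k1,k0,k0,k2,k0],[k0,k0,k2,k0,k1,k0],[k0,k0,k1,k1,k1,k0],[k0,k0,k1,k0,k2,k0],
    [k0,k0,k1,k1,k0,k1],[k0,k0,k1,k0,k1,k1],[k0,k0,k0,k1,k2,k0],[k0,k0,k0,k1,k1,k1],[k0,k0,k0,k0,k3,k0]]
    [.ref k12 k0 [(z1,[z1,z1,z0,z0,y1]),(z2,[y1,z2,z6,z0,z1]),(z8,[y13,z26,z0,z12,z13]),(z1,[z1,y2,z0,z0,z2]),(z8,[y1,
    y22,y24,y12,y23,z24])],.ref k12 k0 [(z5,[z8,z7,z8,z4,z8,y8]),(z5,[y4,z4,z11,y2,y4,z4]),(z5,[y13,z13,y13,z1,y13,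
    z13]),(z5,[z8,y8,z8,z4,z23,y8]),(z5,[y1,y14,y16,y8,y16,z16])],.ref k12 k0 [(z1,[z8,z3,z0,z4,z8,y8]),(z1,[y4,z0,z3,
    y2,y4,z4]),(z1,[y13,z0,z0,y5,y13,z13]),(z1,[z8,z0,z0,z4,z11,y8]),(z1,[y1,y3,y3,y2,y4,z4])],.ref k12 k0 [(z1,[y4,
    z3,y4,z0,y4,z4]),(z1,[z2,z0,z5,z0,z2,y2]),(z2,[z13,z0,z13,z3,z13,y13]),(z1,[y4,z0,y4,z0,y1,z4]),(z2,[z1,y6,y5,y3,
    y5,z5])],.ref k12 k0 [(z1,[z2,z1,y2,z0,y2]),(z1,[y1,z1,z4,z0,z1]),(z4,[y13,z13,z13,z6,z13]),(z1,[z2,y2,y2,z0,z1]),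
    (z4,[y1,y11,y11,y6,y11,z12])],.ref k12 k0 [(z5,[z8,z15,z8,z4,z0,y8]),(z5,[y4,z0,z11,y2,z0,z4]),(z5,[y13,z0,y13,z1,
    z0,z13]),(z5,[z8,z0,z8,z4,z15,y8]),(z5,[y1,y15,y16,y8,y15,z16])],.ref k12 k0 [(z1,[z4,z7,z8,z4,z8,y8]),(z1,[y2,y2,
    y1,y2,y4,z4]),(z2,[y13,y13,y26,y10,y26,z26]),(z1,[z4,z4,z8,z4,z11,y8]),(z2,[y1,y7,y8,y4,y8,z8])],.ref k12 k0 [(z3,
    [z8,z9,z8,z4,z8,y8]),(z3,[y4,z0,z5,y2,y4,z4]),(z3,[y13,z0,y13,y2,y13,z13]),(z3,[z8,z0,z8,z4,z17,y8]),(z3,[y1,y9,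
    y10,y5,y10,z10])],.ref k12 k0 [(z1,[y2,z3,z6]),(z1,[z1]),(z4,[z13,z0,y39,z6]),(z1,[y2,z0,z6,z0,z3]),(z4,[z1,y12,
    y15,y6,y12,z12])],.ref k12 k0 [(z7,[y8,z21,z16,z4]),(z7,[z4,z0,z13,y2]),(z7,[z13,z0,y26,z4]),(z7,[y8,z0,z16,z4,
    z21]),(z7,[z1,y21,y23,y11,y21,z21])],.ref k12 k0 [(z3,[y8,z1,z8,y4,y8,z8]),(z3,[z4,z4,z5,z2,z4,y4]),(z3,[z13,z13,
    y13,z11,z13,y13]),(z3,[y8,y8,z8,y4,z1,z8]),(z3,[z1,y8,y10,y4,y8,z8])],.ref k12 k0 [(z3,[y4,z5,z0,z0,y4,z4]),(z3,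
    [z2,z2,z9,z0,z2,y2]),(z6,[z13,z13,z0,z9,z13,y13]),(z3,[y4,y4,z0,z0,z5,z4]),(z6,[z1,y17,y18,y9,y17,z17])],
    .ref k12 k0 [(z1,[z8,z11,z0,z4,z0,y8]),(z1,[y4,y4,z3,y2,z0,z4]),(z1,[y13,y13,z0,y5,z0,z13]),(z1,[z8,z8,z0,z4,z3,
    y8]),(z1,[y1,y4,y3,y2,y3,z4])],.ref k12 k0 [(z1,[y4,y5,y4,y4,y8,z8]),(z1,[z2,z4,z5,z2,z4,y4]),(z2,[z13,z26,z13,
    z16,z26,y26]),(z1,[y4,y8,y4,y4,y5,z8]),(z2,[z1,y4,y5,y2,y4,z4])],.ref k12 k0 [(z9,[y8,z19,y8,z4,y8,z8]),(z9,[z4,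
    z4,z31,y2,z4,y4]),(z9,[z13,z13,z13,z7,z13,y13]),(z9,[y8,y8,y8,z4,z19,z8]),(z9,[z1,y26,y26,y14,y26,z26])],
    .ref k12 k0 [(z1,[y4,y1,y4,z0,z0,z4]),(z1,[z2,z2,z5,z0,z0,y2]),(z2,[z13,z13,z13,z3,z0,y13]),(z1,[y4,y4,y4,z0,z3,
    z4]),(z2,[z1,y5,y5,y3,y6,z5])],.ref k12 k0 [(z5,[y8,y1,y16,y4,y16,z16]),(z5,[z4,z8,z23,z2,z8,y8]),(z5,[z13,z26,
    z26,z14,z26,y26]),(z5,[y8,y16,y16,y4,y1,z16]),(z5,[z1,y13,y13,y7,y13,z13])],.ref k12 k0 [(z1,[y8,z3,z0,z4,z8]),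
    (z1,[z4,z0,z3,y2,y4]),(z1,[z13,z0,z0,y5,y13]),(z1,[y8,z0,z0,z4,z11]),(z1,[z1,y3,y3,y2,y4,z3])],.ref k12 k0 [(z1,
    [y2,z1,y2,z0,y2,z2]),(z1,[z1,z1,z4,z0,z1,y1]),(z4,[z13,z13,z13,z6,z13,y13]),(z1,[y2,y2,y2,z0,z1,z2]),(z4,[z1,y11,
    y11,y6,y11,z11])],.ref k12 k0 [(z1,[z4,z11,z8,z4,z4,y8]),(z1,[y2,y4,y1,y2,y2,z4]),(z2,[y13,y26,y26,y10,y13,z26]),
    (z1,[z4,z8,z8,z4,z7,y8]),(z2,[y1,y8,y8,y4,y7,z8])],.ref k12 k0 [(z3,[z8,z17,z8,z4,z0,y8]),(z3,[y4,y4,z5,y2,z0,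
    z4]),(z3,[y13,y13,y13,y2,z0,z13]),(z3,[z8,z8,z8,z4,z9,y8]),(z3,[y1,y10,y10,y5,y9,z10])],.ref k12 k0 [(z1,[y8,y21,
    y24,y12,y24,z24]),(z1,[z4,z12,z15,z6,z12,y12]),(z1,[z13,z39,z39,z21,z39,y39]),(z1,[y8,y24,y24,y12,y21,z24]),(z1,
    [z1])]]]

noncomputable def cT6_3_n1_3 : List TN :=
  [.lp [(nat_lit 320),(nat_lit 324),(nat_lit 330),(nat_lit 308),(nat_lit 304),(nat_lit 332)] [k6,k6,k4,k4,k1,k1,k12,k12,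
    k14,k14,k0,k0] k0 [[k0,k0,k0,k0,k0,k0,k44,k0,k26],[k0,k0,k0,k0,k0,k10],[k0,k0,k0,k0,k0,k0,k0,k0,k0,k0,k4],[k0,k0,
    k0,k0,k0,k8],[k10,k0,k8],[k0,k0,k0,k0,k0,k0,k0,k12,k0,k20],[k0,k0,k0,k0,k12,k0,k0,k0,k10],[k0,k44,k0,k0,k0,k0,k0,
    k0,k0,k0,k0,k26],[k0,k0,k0,k0,k20,k0,k0,k0,k0,k0,k18],[k0,k26,k0,k0,k0,k0,k0,k10],[k0,k0,k0,k0,k0,k0,k26],[k0,k0,
    k0,k4,k0,k0,k0,k0,k0,k18]] (nat_lit 960) k5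
    [[(k8,(nat_lit 294)),(k2,(nat_lit 318)),(k0,(nat_lit 320)),(k4,(nat_lit 325)),(k10,(nat_lit 326)),(k6,
    (nat_lit 340))],[(k9,(nat_lit 268)),(k11,(nat_lit 300)),(k1,(nat_lit 320)),(k3,(nat_lit 322)),(k7,(nat_lit 324)),
    (k5,(nat_lit 325))],[(k4,(nat_lit 317)),(k0,(nat_lit 322)),(k2,(nat_lit 324)),(k10,(nat_lit 328)),(k8,
    (nat_lit 340)),(k6,(nat_lit 360))],[(k9,(nat_lit 314)),(k1,(nat_lit 318)),(k3,(nat_lit 324)),(k7,(nat_lit 324)),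
    (k5,(nat_lit 327)),(k11,(nat_lit 328))],[(k8,(nat_lit 317)),(k6,(nat_lit 319)),(k4,(nat_lit 322)),(k0,
    (nat_lit 325)),(k2,(nat_lit 327)),(k10,(nat_lit 335))],[(k3,(nat_lit 317)),(k7,(nat_lit 319)),(k5,(nat_lit 322)),
    (k1,(nat_lit 325)),(k9,(nat_lit 329)),(k11,(nat_lit 351))],[(k8,(nat_lit 286)),(k6,(nat_lit 296)),(k4,
    (nat_lit 319)),(k10,(nat_lit 320)),(k0,(nat_lit 324)),(k2,(nat_lit 324))],[(k7,(nat_lit 296)),(k9,(nat_lit 306)),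
    (k11,(nat_lit 310)),(k5,(nat_lit 319)),(k1,(nat_lit 340)),(k3,(nat_lit 360))],[(k0,(nat_lit 268)),(k10,
    (nat_lit 292)),(k6,(nat_lit 306)),(k2,(nat_lit 314)),(k8,(nat_lit 314)),(k4,(nat_lit 329))],[(k7,(nat_lit 286)),
    (k1,(nat_lit 294)),(k9,(nat_lit 314)),(k5,(nat_lit 317)),(k11,(nat_lit 318)),(k3,(nat_lit 340))],[(k0,
    (nat_lit 300)),(k6,(nat_lit 310)),(k8,(nat_lit 318)),(k2,(nat_lit 328)),(k10,(nat_lit 350)),(k4,(nat_lit 351))],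
    [(k9,(nat_lit 292)),(k7,(nat_lit 320)),(k1,(nat_lit 326)),(k3,(nat_lit 328)),(k5,(nat_lit 335)),(k11,
    (nat_lit 350))]]
    [] k0
    [[k2,k0,k0,k0,k1,k0],[k2,k0,k0,k0,k0,k1],[k1,k1,k0,k0,k1,k0],[k1,k1,k0,k0,k0,k1],[k1,k0,k1,k0,k1,k0],[k1,k0,k0,k1,
    k1,k0],[k1,k0,k0,k0,k2,k0],[k1,k0,k0,k0,k1,k1],[k0,k1,k1,k0,k1,k0],[k0,k0,k1,k2,k0,k0],[k0,k0,k1,k1,k1,k0],[k0,k0,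
    k0,k3,k0,k0],[k0,k0,k0,k2,k1,k0],[k0,k0,k0,k2,k0,k1],[k0,k0,k0,k1,k2,k0],[k0,k0,k0,k1,k1,k1],[k0,k0,k0,k0,k3,k0],
    [k0,k0,k0,k0,k2,k1]]
    [.ref k12 k0 [(z5,[z8,z7,z8,z8,z8,y8]),(z10,[y11,z11,z19,y11,y11,z11]),(z5,[z2,y2,z2,z17,z2,y2]),(z5,[y4,z4,y4,y4,
    z11,z4]),(z5,[y1,y14,y16,y16,y16,z16])],.ref k12 k0 [(z11,[z16,z1]),(z1,[y1,z2,z3]),(z11,[z4,y8,z0,z33]),(z11,[y8,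
    z16,z0,z0,z33]),(z11,[y2,y29,y33,y33,y33,z33])],.ref k12 k0 [(z1,[z16,z3,z0,z16,z16,y16]),(z1,[y11,z0,z3,y11,y11,
    z11]),(z1,[z4,z0,z0,z7,z4,y4]),(z1,[y8,z0,z0,y8,y5,z8]),(z1,[y2,y3,y3,y5,y5,z5])],.ref k12 k0 [(z1,[z8,y5,y8]),
    (z2,[y11,z11,z17]),(z1,[z2,y2,y2,z3]),(z1,[y4,z4,z4,z0,z3]),(z1,[y1,y2,y2,y3,y3,z3])],.ref k12 k0 [(z3,[z8,z9,z8,
    z0,z8,y8]),(z6,[y11,z0,z7,z0,y11,z11]),(z3,[z2,z0,z2,z9,z2,y2]),(z3,[y4,z0,y4,z0,z5,z4]),(z3,[y1,y9,y10,y9,y10,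
    z10])],.ref k12 k0 [(z1,[z8,z3,z8,z8,z0,y8]),(z2,[y11,z0,y5,y11,z0,z11]),(z1,[z2,z0,z2,z5,z0,y2]),(z1,[y4,z0,y4,
    y4,z3,z4]),(z1,[y1,y3,y4,y4,y3,z4])],.ref k12 k0 [(z1,[z4,z7,z8,z8,z8,y8]),(z4,[y11,y11,y10,y22,y22,z22]),(z1,[z1,
    z1,z2,z5,z2,y2]),(z1,[y2,y2,y4,y4,y1,z4]),(z2,[y1,y7,y8,y8,y8,z8])],.ref k12 k0 [(z5,[z16,z15,z16,z16,z16,y16]),
    (z5,[y11,z0,z4,y11,y11,z11]),(z5,[z4,z0,z4,z19,z4,y4]),(z5,[y8,z0,y8,y8,z7,z8]),(z5,[y2,y15,y17,y17,y17,z17])],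
    .ref k12 k0 [(z3,[y16,y7,z0,z0,y16,z16]),(z3,[z11,z11,z9,z0,z11,y11]),(z3,[y4,y4,z0,z9,y4,z4]),(z3,[z8,z8,z0,z0,
    z17,y8]),(z3,[z2,y7,y9,y9,y7,z7])],.ref k12 k0 [(z1,[y4,z3,z0,z4,z8]),(z4,[z11,z0,z12,y11,y22]),(z1,[y1,z0,z0,z4,
    z2]),(z1,[z2,z0,z0,y2,y1]),(z2,[z1,y6,y6,y7,y8,z6])],.ref k12 k0 [(z1,[y8,y5,y8,z0,z0,z8]),(z2,[z11,z11,z17,z0,z0,
    y11]),(z1,[y2,y2,y2,z3,z0,z2]),(z1,[z4,z4,z4,z0,z3,y4]),(z1,[z1,y2,y2,y3,y3,z2])],.ref k12 k0 [(z1,[y2,z3,z0,z0,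
    z6]),(z8,[z11,z0,z24,z0,y33]),(z2,[y1,z0,z0,z6,z3]),(z1,[z1]),(z4,[z1,y12,y12,y12,y15,z12])],.ref k12 k0 [(z3,[y8,
    z1,y8,y8,z8,z8]),(z6,[z11,z11,z29,z11,y11,y11]),(z3,[y2,y2,y2,z7,z2,z2]),(z3,[z4,z4,z4,z4,z5,y4]),(z3,[z1,y8,y8,
    y8,y10,z8])],.ref k12 k0 [(z5,[y16,z15,z0,z0,z32]),(z5,[z11,z0,z15,z0,y22]),(z5,[y4,z0,z0,z15,z8]),(z5,[z8,z0,z0,
    z0,y1]),(z5,[z2,y15,y15,y15,y19,z15])],.ref k12 k0 [(z1,[y4,y5,y8,y8,y4,z8]),(z4,[z11,z22,z34,z22,z11,y22]),(z1,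
    [y1,y2,y2,z1,y1,z2]),(z1,[z2,z4,z4,z4,z5,y4]),(z2,[z1,y4,y4,y4,y5,z4])],.ref k12 k0 [(z3,[y16,y7,y16,y16,z0,z16]),
    (z3,[z11,z11,z20,z11,z0,y11]),(z3,[y4,y4,y4,z5,z0,z4]),(z3,[z8,z8,z8,z8,z9,y8]),(z3,[z2,y7,y7,y7,y9,z7])],
    .ref k12 k0 [(z1,[y8,y21,y24,y24,y24,z24]),(z2,[z11,z33,z39,z33,z33,y33]),(z1,[y2,y6,y6,y3,y6,z6]),(z1,[z4,z12,
    z12,z12,z15,y12]),(z1,[z1])],.ref k12 k0 [(z1,[y16,y29,y32,y32,y32,z32]),(z1,[z11,z22,z25,z22,z22,y22]),(z1,[y4,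
    y8,y8,y5,y8,z8]),(z1,[z8,z16,z16,z16,z19,y16]),(z1,[z2,z1,z1,z1,z1,y1])]]]

/-- the nodes with numbers from 53 -/
noncomputable def cT6_3_n1 : List TN :=
  cT6_3_n1_0 ++ (cT6_3_n1_1 ++ (cT6_3_n1_2 ++ cT6_3_n1_3))

theorem cT6_3_k1 : allI (chkT 6 cT6_3_w tt6 cT6_3_s (blkF [] cT6_3_D)) cT6_3_n1 53 = true := by
  decide +kernel

end Pool.Agent.Lib_MP_fa6e45
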