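import Pool.Agent.Lib_MP_fa6e45.CG6_2d

/-!
MP_fa6e45_co, stage 5: certificates (captain, generated by a program).
-/

namespace Pool.Agent.Lib_MP_fa6e45

noncomputable def cT6_3_n11_0 : List TN :=
  [.lp [k160,k162,k176,k138,k166,k156] [k8,k8,k7,k7,k0,k0,k19,k19,k5,k5,k10,k10] k0 [[k0,k0,k0,k0,k0,k0,k8,k0,k30],[k0,
    k0,k0,k0,k0,k6],[k0,k0,k0,k0,k0,k0,k0,k0,k0,k0,k30],[k0,k0,k0,k0,k0,k10],[k6,k0,k10],[k0,k0,k0,k0,k0,k0,k0,k10,k0,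
    k10],[k0,k0,k0,k0,k10,k0,k0,k0,k20],[k0,k8,k0,k0,k0,k0,k0,k0,k0,k0,k0,k6],[k0,k0,k0,k0,k10,k0,k0,k0,k0,k0,k8],[k0,
    k30,k0,k0,k0,k0,k0,k20],[k0,k0,k0,k0,k0,k0,k6],[k0,k0,k0,k30,k0,k0,k0,k0,k0,k8]] (nat_lit 480) k5
    [[(k2,k131),(k6,k155),(k8,k155),(k10,k158),(k0,k160),(k4,k168)],[(k11,k128),(k7,k155),(k9,k155),(k1,k160),(k3,
    k161),(k5,k168)],[(k6,k158),(k10,k159),(k0,k161),(k2,k162),(k4,k163),(k8,k194)],[(k1,k131),(k11,k159),(k7,k160),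
    (k3,k162),(k9,k164),(k5,k169)],[(k6,k157),(k4,k166),(k0,k168),(k2,k169),(k8,k171),(k10,k196)],[(k7,k157),(k3,
    k163),(k5,k166),(k1,k168),(k11,k176),(k9,k181)],[(k6,k128),(k8,k142),(k10,k147),(k0,k155),(k4,k157),(k2,k160)],
    [(k11,k127),(k7,k128),(k9,k152),(k1,k155),(k5,k157),(k3,k158)],[(k6,k152),(k0,k155),(k10,k155),(k2,k164),(k4,
    k181),(k8,k186)],[(k7,k142),(k1,k155),(k11,k161),(k5,k171),(k9,k186),(k3,k194)],[(k6,k127),(k0,k128),(k2,k159),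
    (k8,k161),(k10,k164),(k4,k176)],[(k7,k147),(k9,k155),(k1,k158),(k3,k159),(k11,k164),(k5,k196)]]
    [] k0
    [[k2,k1,k0,k0,k0,k0],[k2,k0,k0,k1,k0,k0],[k2,k0,k0,k0,k1,k0],[k2,k0,k0,k0,k0,k1],[k1,k2,k0,k0,k0,k0],[k1,k1,k1,k0,
    k0,k0],[k1,k1,k0,k1,k0,k0],[k1,k1,k0,k0,k0,k1],[k1,k0,k0,k2,k0,k0],[k1,k0,k0,k1,k1,k0],[k1,k0,k0,k1,k0,k1],[k1,k0,
    k0,k0,k1,k1],[k1,k0,k0,k0,k0,k2],[k0,k1,k0,k2,k0,k0],[k0,k1,k0,k1,k1,k0],[k0,k1,k0,k1,k0,k1],[k0,k0,k1,k2,k0,k0],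
    [k0,k0,k0,k3,k0,k0],[k0,k0,k0,k2,k1,k0],[k0,k0,k0,k2,k0,k1],[k0,k0,k0,k1,k1,k1],[k0,k0,k0,k1,k0,k2]]
    [.ref k12 k0 [(z2,[z3,z0,y1]),(z1,[z0,z0,z1]),(z4,[y15,z10,z5,z12]),(z1,[z3,y2,y1,z0,z3]),(z2,[y3,z0,y1,y6,y6,
    z6])],.ref k12 k0 [(z4,[z3,z2,z0,z0,y3]),(z1,[z0,z0,z1]),(z8,[y15,z10,z0,z24,z15]),(z2,[z3,y2,z0,z0,z3]),(z4,[y3,
    y2,y4,y12,y9,z12])],.ref k12 k0 [(z1,[z3,z0,z1,z3,z3,y3]),(z1,[z0,z0,z1]),(z2,[y15,z5,y5,y9,y15,z15]),(z1,[z6,y2,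
    z2,z6,z9,y6]),(z1,[y3,z0,y2,y6,y6,z6])],.ref k12 k0 [(z5,[z6,z1]),(z1,[z0,z0,z1]),(z1,[y3,z2,z0,z3]),(z5,[z12,y8,
    z0,z0,z15]),(z5,[y6,y1,y5,y15,y15,z15])],.ref k12 k0 [(z1,[z3,z0,y2]),(z1,[z0,z0,z1]),(z2,[y15,z5,z10,z6]),(z1,
    [z6,y2,y4,z0,z3]),(z1,[y3,z0,z1,y3,y3,z3])],.ref k12 k0 [(z3,[y6,z5,z2,z6]),(z1,[z0,z0,z1]),(z3,[z15,y5,y5,y6]),
    (z3,[y12,z4,z4,z12,z9]),(z3,[z6,y5,y5,y15,y9,z9])],.ref k12 k0 [(z3,[z3,z2,y1,z0,y3]),(z1,[z0,z0,z1]),(z6,[y15,z5,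
    z5,z18,z15]),(z3,[z6,y2,y2,z0,z3]),(z3,[y3,y2,y2,y9,y6,z9])],.ref k12 k0 [(z3,[z6,z1,y2]),(z1,[z0,z0,z1]),(z3,
    [y15,z5,z5,z9]),(z3,[z12,y4,y4,z0,z9]),(z3,[y6,y1,y1,y9,y9,z9])],.ref k12 k0 [(z5,[z3,z4,z0,z0,y6]),(z1,[z0,z0,
    z1]),(z2,[y3,z1,z0,z6,z6]),(z5,[z6,y2,z0,z0,z3]),(z5,[y3,y4,y5,y15,y9,z15])],.ref k12 k0 [(z2,[z3,z2,z1,z3,z0,
    y3]),(z1,[z0,z0,z1]),(z4,[y15,z0,y5,y3,z0,z15]),(z1,[z3,z0,z1,z3,z3,y3]),(z2,[y3,y2,y3,y9,y6,z9])],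
    .ref k12 k0 [(z7,[z6,z5,z0,z0,y6]),(z1,[z0,z0,z1]),(z7,[y15,z5,z0,z21,z15]),(z7,[z12,y4,z0,z0,z9]),(z7,[y6,y5,y7,
    y21,y15,z21])],.ref k12 k0 [(z1,[z6,z1,z2,z6,z6,y6]),(z1,[z0,z0,z1]),(z1,[y15,z0,y5,y12,y15,z15]),(z1,[z12,z0,z4,
    z12,z15,y12]),(z1,[y6,y1,y3,y9,y9,z9])],.ref k12 k0 [(z2,[z3,z1]),(z1,[z0,z0,z1]),(z4,[y15,z5,z0,z12]),(z1,[z3,y1,
    z0,z0,z3]),(z2,[y3,y1,y2,y6,y6,z6])],.ref k12 k0 [(z4,[z3,z4,y1,z0,y6]),(z1,[z0,z0,z1]),(z8,[y15,z0,z5,z24,z30]),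
    (z2,[z3,z0,y1]),(z4,[y3,y4,y3,y12,y6,z12])],.ref k12 k0 [(z1,[z3,z2,z0,z3,z0,y3]),(z1,[z0,z0,z1]),(z2,[y15,y5,z0,
    y9,z0,z15]),(z1,[z6,z2,z0,z6,z3,y6]),(z1,[y3,y2,y1,y6,y3,z6])],.ref k12 k0 [(z5,[z6,z5,y2,z0,y6]),(z1,[z0,z0,z1]),
    (z1,[y3,z0,z1,z3,z3]),(z5,[z12,z0,y4,z0,z3]),(z5,[y6,y5,y3,y15,y9,z15])],.ref k12 k0 [(z1,[z2,z1,z0,y2,y4]),(z1,
    [z0,z0,z1]),(z1,[y5,z0,z0,z8,z10]),(z1,[z4,z0,z0,y4,y5]),(z1,[y2,y1,y1,y1,z1,z3])],.ref k12 k0 [(z2,[z1,z2,z0,z0,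
    y3]),(z1,[z0,z0,z1]),(z4,[y5,z0,z0,z12,z15]),(z1,[z1]),(z2,[y1,y2,y2,y6,y3,z6])],.ref k12 k0 [(z3,[z3,z4,z1,z3,y3,
    y3]),(z1,[z0,z0,z1]),(z6,[y15,y5,y5,z3,z15,z15]),(z3,[z6,z2,z2,z6,z3,y6]),(z3,[y3,y4,y4,y12,y6,z12])],
    .ref k12 k0 [(z3,[z2,z3,z0,z0,y4]),(z1,[z0,z0,z1]),(z3,[y5,z0,z0,z9,z10]),(z3,[z4,z0,z0,z0,z1]),(z3,[y2,y3,y3,y9,
    y5,z9])],.ref k12 k0 [(z3,[z6,z5,z2,z6,z0,y6]),(z1,[z0,z0,z1]),(z3,[y15,y5,y5,y6,z0,z15]),(z3,[z12,z4,z4,z12,z9,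
    y12]),(z3,[y6,y5,y5,y15,y9,z15])],.ref k12 k0 [(z1,[z1,z1,z0,z0,y1]),(z1,[z0,z0,z1]),(z2,[y5,z0,z0,z6,z5]),(z1,
    [z2,z0,z0,z0,z1]),(z1,[y1,y1,y1,y3,y2,z3])]],
    .leafM k1 [k0,k1,k2,k3,k4,k5] [(z1,[z0,z1,z0,z1]),(z1,[z0,y1,z0,y1,z1])] [],
    .lp [k154,k166,k168,k166,k144,k160] [k7,k7,k1,k1,k0,k0,k1,k1,k12,k12,k4,k4] k0 [[k0,k0,k0,k0,k0,k0,k0,k0,k22],[k0,k0,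
    k0,k0,k0,k0,k0,k0,k0,k0,k0,k6],[k0,k0,k0,k0,k4,k0,k0,k0,k0,k0,k6],[k0,k0,k0,k0,k0,k0,k0,k16,k0,k8],[k0,k0,k0,k0,
    k0,k0,k0,k0,k26,k0,k2],[k0,k0,k0,k4,k0,k0,k0,k4],[k0,k0,k16,k0,k4],[k0,k0,k0,k0,k0,k0,k0,k0,k0,k0,k0,k20],[k0,k0,
    k8],[k0,k22,k0,k0,k0,k26],[k6,k0,k0,k0,k0,k0,k20],[k0,k0,k0,k6,k0,k2]] (nat_lit 480) k5
    [[(k8,k149),(k2,k154),(k10,k157),(k4,k159),(k0,k160),(k6,k180)],[(k11,k135),(k9,k149),(k1,k160),(k3,k160),(k7,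
    k160),(k5,k161)],[(k10,k157),(k0,k160),(k2,k166),(k6,k166),(k4,k167),(k8,k177)],[(k1,k154),(k7,k162),(k3,k166),
    (k5,k167),(k9,k171),(k11,k171)],[(k8,k148),(k6,k151),(k0,k161),(k2,k167),(k10,k170),(k4,k172)],[(k11,k138),(k1,
    k159),(k9,k160),(k3,k167),(k7,k167),(k5,k172)],[(k0,k160),(k2,k162),(k6,k162),(k10,k165),(k4,k167),(k8,k181)],
    [(k5,k151),(k9,k155),(k7,k162),(k11,k163),(k3,k166),(k1,k180)],[(k10,k132),(k8,k144),(k0,k149),(k6,k155),(k4,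
    k160),(k2,k171)],[(k9,k144),(k5,k148),(k1,k149),(k11,k152),(k3,k177),(k7,k181)],[(k0,k135),(k4,k138),(k8,k152),
    (k10,k160),(k6,k163),(k2,k171)],[(k9,k132),(k1,k157),(k3,k157),(k11,k160),(k7,k165),(k5,k170)]]
    [] k0
    [[k2,k1,k0,k0,k0,k0],[k2,k0,k0,k0,k1,k0],[k2,k0,k0,k0,k0,k1],[k1,k1,k0,k0,k0,k1],[k1,k0,k1,k1,k0,k0],[k1,k0,k1,k0,
    k1,k0],[k1,k0,k1,k0,k0,k1],[k1,k0,k0,k1,k1,k0],[k1,k0,k0,k0,k2,k0],[k1,k0,k0,k0,k1,k1],[k1,k0,k0,k0,k0,k2],[k0,k1,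
    k1,k0,k0,k1],[k0,k0,k1,k1,k0,k1],[k0,k0,k1,k1,k1,k0],[k0,k0,k1,k0,k2,k0],[k0,k0,k1,k0,k1,k1],[k0,k0,k1,k0,k0,k2],
    [k0,k0,k0,k1,k1,k1],[k0,k0,k0,k0,k3,k0],[k0,k0,k0,k0,k2,k1],[k0,k0,k0,k0,k1,k2]]
    [.ref k12 k0 [(z1,[y6,z5,z6]),(z1,[z15,y10,y12]),(z1,[y12,z8,z12,z3]),(z1,[z6,y4,y6,z0,z3]),(z1,[y3,z2,z3])],
    .ref k12 k0 [(z5,[z6,z1]),(z1,[y3,z2,z3]),(z5,[z12,y8,z0,z15]),(z5,[y6,z4,z0,z0,z15]),(z5,[z3,y2])],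
    .ref k12 k0 [(z2,[z3,z1,z3,z3,z3,y3]),(z4,[y15,z5,y3,y15,y15,z15]),(z1,[z3,y1,z3,z6,z3,y3]),(z2,[y3,z1,y3,y3,z3,
    z3]),(z4,[z3,y1,z3,z3,z3,y3])],.ref k12 k0 [(z1,[y2,z1,z0,y2,y2,z2]),(z1,[z5,z0,z3,z5,z5,y5]),(z1,[y4,z0,z0,y1,y4,
    z4]),(z1,[z2,z0,z0,z2,z5,y2]),(z1,[y1,z0,z0,y1,y1,z1])],.ref k12 k0 [(z2,[z3,z1,z0,y3,y3]),(z4,[y15,z5,z12,z15,
    z15]),(z1,[z3,y1,z0,z0,y3]),(z2,[y3,z1,z0,z3,z9]),(z4,[z3,y1,z0,y3,y3])],.ref k12 k0 [(z7,[z6,z5,z0,y6]),(z7,[y15,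
    z5,z21,z15]),(z7,[z12,y4,z0,z9]),(z7,[y6,z2,z0,z6,z21]),(z7,[z3,y1,z0,y3])],.ref k12 k0 [(z1,[z1,z1,z1,z0,z1,y1]),
    (z2,[y5,z0,z1,z0,y5,z5]),(z1,[z2,z0,z2,z3,z2,y2]),(z1,[y1,z0,y1,z0,z2,z1]),(z2,[z1,z0,z1,z0,z1,y1])],
    .ref k12 k0 [(z1,[z6,y1,z0,z0,y6]),(z1,[y15,z5,z3,z0,z15]),(z1,[z12,y4,z0,z3,y12]),(z1,[y6,z2,z0,z0,z9]),(z1,[z3,
    y1,z0,z0,y3])],.ref k12 k0 [(z2,[z3,z1]),(z4,[y15,z5,z12]),(z1,[z3,y1,z0,z3]),(z2,[y3,z1,z0,z0,z6]),(z4,[z3,y1])],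
    .ref k12 k0 [(z1,[z2,z1,z2,z2,z2,y2]),(z1,[y5,z0,y2,y5,y5,z5]),(z1,[z4,z0,z4,z7,z4,y4]),(z1,[y2,z0,y2,y2,z1,z2]),
    (z1,[z1,z0,z1,z1,z1,y1])],.ref k12 k0 [(z1,[z3,z2,z6,z6,z6,y6]),(z2,[y15,y5,y24,y30,y30,z30]),(z1,[z6,z2,z12,z15,
    z12,y12]),(z1,[y3,y1,y6,y6,y3,z6]),(z2,[z3,z1,z6,z6,z6,y6])],.ref k12 k0 [(z1,[y6,y1,z0,z0,y6,z6]),(z1,[z15,z5,z3,
    z0,z15,y15]),(z1,[y12,y4,z0,z3,y12,z12]),(z1,[z6,z2,z0,z0,z9,y6]),(z1,[y3,y1,z0,z0,y3,z3])],.ref k12 k0 [(z1,[z3,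
    z2,z3,z0,z0,y3]),(z2,[y15,y5,y9,z0,z0,z15]),(z1,[z6,z2,z6,z3,z0,y6]),(z1,[y3,y1,y3,z0,z3,z3]),(z2,[z3,z1,z3,z0,z0,
    y3])],.ref k12 k0 [(z1,[z2,z1,z0,y2,y2]),(z1,[y5,z0,z3,z5,z5]),(z1,[z4,z0,z0,y1,y4]),(z1,[y2,z0,z0,z2,z5]),(z1,
    [z1,z0,z0,y1,y1])],.ref k12 k0 [(z1,[z1,z1,z0,y1]),(z2,[y5,z0,z6,z5]),(z1,[z2,z0,z0,z1]),(z1,[y1,z0,z0,z1,z3]),
    (z2,[z1,z0,z0,y1])],.ref k12 k0 [(z5,[z6,z7,z6,z0,z6,y6]),(z1,[y3,y1,z0,z0,y3,z3]),(z5,[z12,z4,z12,z15,z12,y12]),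
    (z5,[y6,y2,y6,z0,z9,z6]),(z5,[z3,z1,z3,z0,z3,y3])],.ref k12 k0 [(z2,[z3,z4,z6,z3,z6,y6]),(z4,[y15,y10,y18,y15,y30,
    z30]),(z1,[z3,z2,z6,z6,z6,y6]),(z2,[y3,y2,y6,y3,z0,z6]),(z4,[z3,z2,z6,z3,z6,y6])],.ref k12 k0 [(z1,[y6,y1,y6,y6,
    z0,z6]),(z1,[z15,z5,z18,z15,z0,y15]),(z1,[y12,y4,y12,y9,z0,z12]),(z1,[z6,z2,z6,z6,z3,y6]),(z1,[y3,y1,y3,y3,z0,
    z3])],.ref k12 k0 [(z1,[z2,z1]),(z1,[y5,z0,z3]),(z1,[z4,z0,z0,z3]),(z1,[y2,z0,z0,z0,z3]),(z1,[z1])],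
    .ref k12 k0 [(z1,[z3,z2,z3,z3,z3,y3]),(z2,[y15,y5,y9,y15,y15,z15]),(z1,[z6,z2,z6,z9,z6,y6]),(z1,[y3,y1,y3,y3,z0,
    z3]),(z2,[z3,z1,z3,z3,z3,y3])],.ref k12 k0 [(z1,[z6,z5,z12,z12,z12,y12]),(z1,[y15,y10,y27,y30,y30,z30]),(z1,[z12,
    z8,z24,z27,z24,y24]),(z1,[y6,y4,y12,y12,y9,z12]),(z1,[z3,z2,z6,z6,z6,y6])]],
    .lp [(nat_lit 2014),(nat_lit 2120),(nat_lit 2280),(nat_lit 2120),(nat_lit 2226),(nat_lit 1908)] [(nat_lit 265),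
    (nat_lit 265),(nat_lit 212),(nat_lit 212),k132,k132,(nat_lit 212),(nat_lit 212),(nat_lit 318),k0,(nat_lit 318),
    (nat_lit 318)] k0 [[k0,k0,k0,k0,k0,k0,k0,k0,(nat_lit 318),k0,(nat_lit 265)],[k0,k0,k0,(nat_lit 424),k0,k0,k0,
    k159],[(nat_lit 424),k0,k0,k0,k0,k0,k0,k0,k0,k0,(nat_lit 477)],[k0,k0,k0,k0,k0,k0,k0,k159,k0,(nat_lit 424)],[k0,
    k0,k0,k0,k0,k0,k0,k0,(nat_lit 212)],[],[k159,k0,k159],[k0,k0,k0,k0,k0,k0,k0,k0,k0,(nat_lit 424),k0,(nat_lit 636)],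
    [k0,k0,(nat_lit 424),k0,k0,k0,(nat_lit 424)],[k0,(nat_lit 318),k0,k0,k0,(nat_lit 212)],[k0,k0,k0,k0,k0,k0,
    (nat_lit 636)],[k0,(nat_lit 265),k0,(nat_lit 477)]] (nat_lit 6360) k5
    [[(k2,(nat_lit 1590)),(k0,(nat_lit 1749)),(k8,(nat_lit 1961)),(k10,(nat_lit 1961)),(k4,(nat_lit 2147)),(k6,
    (nat_lit 2703))],[(k11,(nat_lit 1643)),(k1,(nat_lit 1749)),(k3,(nat_lit 2067)),(k7,(nat_lit 2067)),(k9,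
    (nat_lit 2438)),(k5,(nat_lit 2571))],[(k2,(nat_lit 1696)),(k6,(nat_lit 1961)),(k0,(nat_lit 2067)),(k4,
    (nat_lit 2200)),(k10,(nat_lit 2279)),(k8,(nat_lit 2332))],[(k1,(nat_lit 1590)),(k3,(nat_lit 1696)),(k7,
    (nat_lit 2120)),(k5,(nat_lit 2200)),(k11,(nat_lit 2438)),(k9,(nat_lit 2491))],[(k8,(nat_lit 1670)),(k6,
    (nat_lit 2041)),(k2,(nat_lit 2200)),(k4,(nat_lit 2280)),(k0,(nat_lit 2571)),(k10,(nat_lit 2571))],[(k11,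
    (nat_lit 1882)),(k1,(nat_lit 2147)),(k3,(nat_lit 2200)),(k7,(nat_lit 2200)),(k5,(nat_lit 2280)),(k9,
    (nat_lit 2412))],[(k10,(nat_lit 2014)),(k0,(nat_lit 2067)),(k2,(nat_lit 2120)),(k6,(nat_lit 2120)),(k4,
    (nat_lit 2200)),(k8,(nat_lit 2226))],[(k3,(nat_lit 1961)),(k5,(nat_lit 2041)),(k7,(nat_lit 2120)),(k9,
    (nat_lit 2332)),(k11,(nat_lit 2438)),(k1,(nat_lit 2703))],[(k10,(nat_lit 1590)),(k8,(nat_lit 1802)),(k6,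
    (nat_lit 2332)),(k4,(nat_lit 2412)),(k0,(nat_lit 2438)),(k2,(nat_lit 2491))],[(k5,(nat_lit 1670)),(k9,
    (nat_lit 1802)),(k11,(nat_lit 1908)),(k1,(nat_lit 1961)),(k7,(nat_lit 2226)),(k3,(nat_lit 2332))],[(k0,
    (nat_lit 1643)),(k4,(nat_lit 1882)),(k8,(nat_lit 1908)),(k10,(nat_lit 1908)),(k2,(nat_lit 2438)),(k6,
    (nat_lit 2438))],[(k9,(nat_lit 1590)),(k11,(nat_lit 1908)),(k1,(nat_lit 1961)),(k7,(nat_lit 2014)),(k3,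
    (nat_lit 2279)),(k5,(nat_lit 2571))]]
    [] k0
    [[k3,k0,k0,k0,k0,k0],[k2,k1,k0,k0,k0,k0],[k2,k0,k0,k0,k1,k0],[k2,k0,k0,k0,k0,k1],[k1,k2,k0,k0,k0,k0],[k1,k1,k0,k1,
    k0,k0],[k1,k1,k0,k0,k0,k1],[k1,k0,k1,k1,k0,k0],[k1,k0,k1,k0,k1,k0],[k1,k0,k0,k0,k2,k0],[k1,k0,k0,k0,k1,k1],[k1,k0,
    k0,k0,k0,k2],[k0,k3,k0,k0,k0,k0],[k0,k2,k1,k0,k0,k0],[k0,k2,k0,k1,k0,k0],[k0,k1,k0,k2,k0,k0],[k0,k0,k1,k1,k0,k1],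
    [k0,k0,k1,k1,k1,k0],[k0,k0,k1,k0,k2,k0],[k0,k0,k1,k0,k1,k1],[k0,k0,k0,k1,k1,k1],[k0,k0,k0,k0,k3,k0],[k0,k0,k0,k0,
    k2,k1],[k0,k0,k0,k0,k1,k2],[k0,k0,k0,k0,k0,k3]]
    [.ref (nat_lit 469) k4 [(z1,[y1,z3]),(z1,[z1]),(z1,[z0,z0,z1]),(z1,[z0,z0,z0,z1])],.ref k32 k1 [(z1,[y2,z5,z2]),
    (z1,[y1,z0,z1]),(z1,[z2,y5,y7,y5,z5]),(z1,[y4,z0,z4,z5])],.ref k42 k3 [(z1,[y5,z0,z1]),(z1,[z4,z0,z0,z1]),(z1,[y2,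
    y1,y1,y1,z1]),(z1,[z1])],.ref k21 k4 [(z1,[y1,z2]),(z1,[z1,y1]),(z1,[z0,z0,z1]),(z1,[z0,z0,z0,z1])],
    .ref k168 k9 [(z1,[y1,z1,z2]),(z1,[z1,y5,y6,y4,z4]),(z1,[y1,z1,z2,z2]),(z1,[z5,y5,y2])],.ref k30 k9 [(z1,[y1,z0,
    z0,y1,z1]),(z1,[z2,y5,y5,y3,z3]),(z1,[y4,z0,z0,z1,z4]),(z1,[z1,z0,z1,z1,y1])],.ref k9 k3 [(z1,[z5,y5,y2]),(z1,[y4,
    z4,z4,z3]),(z1,[z2,y5,y5,y3,z3]),(z1,[y1,z1,z1])],.ref k21 k4 [(z1,[y1,z0,y1,z0,z1]),(z1,[z1,z1,z1,z0,y1]),(z1,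
    [z0,z0,z1]),(z1,[z0,z0,z0,z1])],.ref (nat_lit 470) k4 [(z1,[y1,z1,z0,z1]),(z1,[z1,z0,z0,y1]),(z1,[z0,z0,z1]),(z1,
    [z0,z0,z0,z1])],.ref k21 k4 [(z1,[y1,z1]),(z1,[z1]),(z1,[z0,z0,z1]),(z1,[z0,z0,z0,z1])],.ref k9 k3 [(z1,[y5,z5,
    z3]),(z1,[z4,y4,z0,z3]),(z1,[y2,y1,y3,y3,z3]),(z1,[z1,y1])],.ref k11 k8 [(z1,[z0,y1,y1,y1,z1]),(z1,[z1,z0,z1,z1,
    y1]),(z1,[y1,z0,y2,y2,z2]),(z1,[z0,z5,z7,z5,y5])],.ref k9 k3 [(z1,[z1]),(z5,[y4,z0,z12,z15]),(z5,[z2,y15,y21,y15,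
    z15]),(z5,[y1,z0,z3])],.ref k9 k3 [(z2,[z5,z0,y4,y5]),(z1,[y2,z0,z4,z5]),(z1,[z1,y3,y5,y4,z3]),(z2,[y1,z0,z2,
    z1])],.ref k9 k3 [(z4,[z5,z5,z7,z5,y5]),(z1,[y1,y1,z1,z2,z1]),(z2,[z1,y5,y7,y5,z5]),(z4,[y1,y1,z1,y1,z1])],
    .ref k9 k3 [(z3,[z5,z10,z14,z10,y10]),(z3,[y4,y8,y4,z1,z8]),(z3,[z2,y5,y7,y5,z5]),(z3,[y1,y2,y1,y2,z2])],
    .ref k11 k8 [(z1,[z0,y1,y1,y1,z1]),(z1,[z1,z2,z2,z1,y2]),(z1,[y1,y2,y3,y2,z3]),(z1,[z0,z5,z7,z5,y5])],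
    .ref k9 k3 [(z1,[y5,y5,y2,z0,z5]),(z1,[z4,z4,z4,z3,y4]),(z1,[y2,y5,y5,y3,z5]),(z1,[z1,z1,z1,z0,y1])],
    .ref k9 k3 [(z2,[y5,z0,z6,z5]),(z1,[z2,z0,z0,z1]),(z1,[y1,y3,y3,y2,z3]),(z2,[z1,z0,z0,y1])],.ref k30 k9 [(z1,[z1,
    z0,z0,y1]),(z1,[y2,y5,y5,y3,z5]),(z1,[z4,z0,z0,z1]),(z1,[y1,z0,z1,z1])],.ref k71 k1 [(z1,[z2,z1,z2,z2,y2]),(z1,
    [z1,z0,z1,z1,y1]),(z1,[y2,y1,y3,y3,z3]),(z1,[z4,z0,z4,z5,y4])],.ref k9 k3 [(z1,[y5,z0,z3]),(z1,[z4,z0,z0,z3]),(z1,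
    [y2,y3,y3,y3,z3]),(z1,[z1])],.ref k11 k8 [(z1,[z0,y1,y1,y1,z1]),(z1,[z1,z1,z1,z1,y1]),(z1,[y1,y1,y2,y2,z2]),(z1,
    [z0,z5,z7,z5,y5])],.ref k32 k1 [(z1,[z2,z1]),(z1,[z1,y2]),(z1,[y2,y1,y5,y5,z5]),(z1,[z4,y8,z0,z5])],
    .ref (nat_lit 471) k0 [(z1,[y1,z3]),(z1,[z0,z0,z1]),(z1,[z0,z0,z0,z1]),(z1,[z0,y1,y1,y1,z1])]],
    .lp [(nat_lit 350),(nat_lit 344),(nat_lit 304),(nat_lit 342),(nat_lit 266),(nat_lit 310)] [k0,k0,k3,k3,k23,k23,k4,k4,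
    k42,k42,k20,k20] k0 [[k0,k0,k0,k0,k0,k0,k0,k0,k36,k0,k30],[k0,k0,k0,k0,k0,k0,k0,k2],[k0,k0,k0,k0,k20,k0,k0,k0,k0,
    k0,k38],[k0,k0,k0,k0,k0,k0,k0,k10,k0,k4],[k0,k0,k0,k0,k0,k0,k10],[k0,k0,k0,k20],[k2,k0,k10],[k0,k0,k0,k0,k0,k10],
    [k0,k0,k4],[k0,k36,k0,k0,k0,k0,k0,k0,k0,k0,k0,k2],[k0,k0,k0,k0,k0,k0,k0,k0,k2],[k0,k30,k0,k38]] (nat_lit 960) k5
    [[(k2,(nat_lit 309)),(k8,(nat_lit 310)),(k0,(nat_lit 320)),(k4,(nat_lit 327)),(k10,(nat_lit 330)),(k6,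
    (nat_lit 346))],[(k11,(nat_lit 294)),(k9,(nat_lit 310)),(k1,(nat_lit 320)),(k5,(nat_lit 327)),(k7,(nat_lit 346)),
    (k3,(nat_lit 347))],[(k4,(nat_lit 324)),(k6,(nat_lit 341)),(k8,(nat_lit 341)),(k2,(nat_lit 344)),(k0,
    (nat_lit 347)),(k10,(nat_lit 357))],[(k1,(nat_lit 309)),(k9,(nat_lit 315)),(k7,(nat_lit 323)),(k5,(nat_lit 324)),
    (k11,(nat_lit 331)),(k3,(nat_lit 344))],[(k8,(nat_lit 281)),(k6,(nat_lit 313)),(k2,(nat_lit 324)),(k4,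
    (nat_lit 324)),(k0,(nat_lit 327)),(k10,(nat_lit 345))],[(k9,(nat_lit 275)),(k11,(nat_lit 307)),(k7,(nat_lit 323)),
    (k3,(nat_lit 324)),(k5,(nat_lit 324)),(k1,(nat_lit 327))],[(k8,(nat_lit 304)),(k2,(nat_lit 323)),(k4,
    (nat_lit 323)),(k10,(nat_lit 326)),(k0,(nat_lit 346)),(k6,(nat_lit 352))],[(k9,(nat_lit 304)),(k5,(nat_lit 313)),
    (k11,(nat_lit 326)),(k3,(nat_lit 341)),(k1,(nat_lit 346)),(k7,(nat_lit 352))],[(k8,(nat_lit 266)),(k4,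
    (nat_lit 275)),(k10,(nat_lit 288)),(k6,(nat_lit 304)),(k0,(nat_lit 310)),(k2,(nat_lit 315))],[(k9,(nat_lit 266)),
    (k5,(nat_lit 281)),(k11,(nat_lit 288)),(k7,(nat_lit 304)),(k1,(nat_lit 310)),(k3,(nat_lit 341))],[(k8,
    (nat_lit 288)),(k0,(nat_lit 294)),(k4,(nat_lit 307)),(k10,(nat_lit 308)),(k6,(nat_lit 326)),(k2,(nat_lit 331))],
    [(k9,(nat_lit 288)),(k11,(nat_lit 308)),(k7,(nat_lit 326)),(k1,(nat_lit 330)),(k5,(nat_lit 345)),(k3,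
    (nat_lit 357))]]
    [] k0
    [[k2,k0,k0,k0,k1,k0],[k2,k0,k0,k0,k0,k1],[k1,k0,k1,k0,k1,k0],[k1,k0,k0,k0,k2,k0],[k1,k0,k0,k0,k1,k1],[k1,k0,k0,k0,
    k0,k2],[k0,k1,k1,k0,k1,k0],[k0,k1,k0,k0,k2,k0],[k0,k0,k2,k0,k1,k0],[k0,k0,k1,k1,k1,k0],[k0,k0,k1,k1,k0,k1],[k0,k0,
    k1,k0,k2,k0],[k0,k0,k1,k0,k1,k1],[k0,k0,k0,k1,k2,k0],[k0,k0,k0,k1,k1,k1],[k0,k0,k0,k0,k3,k0],[k0,k0,k0,k0,k2,k1],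
    [k0,k0,k0,k0,k1,k2],[k0,k0,k0,k0,k0,k3]]
    [.ref k12 k0 [(z2,[y3,z9,y1,y3,y3,z3]),(z1,[z0,z0,z1]),(z1,[z3,y3,z1,z6,z3,y3]),(z1,[y6,z6,y2,y6,y3,z6]),(z1,[z6,
    y9,z1,z3,z3,y3])],.ref k12 k0 [(z1,[z1,z1]),(z1,[z0,z0,z1]),(z1,[y2,z4,z0,z3]),(z1,[z4,y8,z0,z0,z3]),(z1,[y4,z5,
    y1,y3,y3,z3])],.ref k12 k0 [(z5,[y3,z15,y1,z0,y3,z3]),(z1,[z0,z0,z1]),(z5,[z6,z0,z2,z15,z6,y6]),(z5,[y12,z0,y4,z0,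
    z3,z12]),(z5,[z12,y15,y1,y15,y3,z3])],.ref k12 k0 [(z7,[y3,z18,y2,y6,y6,z6]),(z1,[z0,z0,z1]),(z7,[z6,z6,z4,z33,
    z12,y12]),(z7,[y12,y12,y8,y24,y3,z24]),(z7,[z12,y9,z1,z3,z3,y3])],.ref k12 k0 [(z2,[y3,z6,y1,y3,y3,z3]),(z1,[z0,
    z0,z1]),(z1,[z3,z0,z1,z6,z3,y3]),(z1,[y6,z0,y2,y6,y3,z6]),(z1,[z6,y3,z1,z3,z3,y3])],.ref k12 k0 [(z1,[z1,z2]),(z1,
    [z0,z0,z1]),(z1,[y2,z2,z0,z3]),(z1,[z4,y4,z0,z0,z3]),(z1,[y4,z1,y1,y3,y3,z3])],.ref k12 k0 [(z2,[y1,z5,z0,z0,y1,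
    z1]),(z1,[z0,z0,z1]),(z1,[z1,z1,z0,z3,z1,y1]),(z1,[y2,y2,z0,z0,z1,z2]),(z1,[z2,y1,y1,y3,y1,z1])],.ref k12 k0 [(z8,
    [y3,z18,y1,y6,y6,z6]),(z1,[z0,z0,z1]),(z4,[z3,z6,z1,z18,z6,y6]),(z2,[y3,y6,y1,y6,z0,z6]),(z2,[z3,z0,y1])],
    .ref k12 k0 [(z8,[y3,z21,y1,z3,y3,z3]),(z1,[z0,z0,z1]),(z4,[z3,z3,z1,z9,z3,y3]),(z2,[y3,y3,y1,z3,z3,z3]),(z2,[z3,
    y3,y1,y9,y3,z3])],.ref k12 k0 [(z2,[y3,z3,y1,z0,z0,z3]),(z1,[z0,z0,z1]),(z1,[z3,z3,z1,z3,z0,y3]),(z1,[y6,y6,y2,z0,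
    z3,z6]),(z1,[z6,z3,z1,y3,y3,y3])],.ref k12 k0 [(z1,[z1,z3,z0,y1,y1]),(z1,[z0,z0,z1]),(z1,[y2,z0,z0,z5,z2]),(z1,
    [z4,z0,z0,y4,y1]),(z1,[y4,y3,y1,z1,z1,z3])],.ref k12 k0 [(z10,[y3,z24,y2,y3,y6,z6]),(z1,[z0,z0,z1]),(z5,[z3,z6,z2,
    z18,z6,y6]),(z5,[y6,y12,y4,y6,z3,z12]),(z5,[z6,y3,y1,y9,y3,z3])],.ref k12 k0 [(z5,[y3,z12,y1,z0,y3,z3]),(z1,[z0,
    z0,z1]),(z5,[z6,z6,z2,z15,z6,y6]),(z5,[y12,y12,y4,z0,z3,z12]),(z5,[z12,y3,y1,y15,y3,z3])],.ref k12 k0 [(z4,[y3,z6,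
    y2,y6,y3,z6]),(z1,[z0,z0,z1]),(z2,[z3,z6,z2,z12,z3,y6]),(z1,[y3,y6,y2,y6,z0,z6]),(z1,[z3,z3,z1,z3,z0,y3])],
    .ref k12 k0 [(z1,[z3,z6,z1,z3,z0,y3]),(z1,[z0,z0,z1]),(z1,[y6,y6,y2,y3,z0,z6]),(z1,[z12,z12,z4,z12,z3,y12]),(z1,
    [y12,y15,y5,y15,y3,z15])],.ref k12 k0 [(z4,[y1,z9,y1,y3,y3,z3]),(z1,[z0,z0,z1]),(z2,[z1,z3,z1,z9,z3,y3]),(z1,[y1,
    y3,y1,y3,z0,z3]),(z1,[z1])],.ref k12 k0 [(z7,[y3,z15,y2,y6,y6,z6]),(z1,[z0,z0,z1]),(z7,[z6,z12,z4,z33,z12,y12]),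
    (z7,[y12,y24,y8,y24,y3,z24]),(z7,[z12,z3,z1,z3,z3,y3])],.ref k12 k0 [(z2,[y3,z3,y1,y3,y3,z3]),(z1,[z0,z0,z1]),(z1,
    [z3,z3,z1,z6,z3,y3]),(z1,[y6,y6,y2,y6,y3,z6]),(z1,[z6,z3,z1,z3,z3,y3])],.ref k12 k0 [(z1,[z1,z3]),(z1,[z0,z0,z1]),
    (z1,[y2,z0,z0,z3]),(z1,[z4,z0,z0,z0,z3]),(z1,[y4,y3,y1,y3,y3,z3])]],
    .lp [(nat_lit 332),(nat_lit 332),(nat_lit 292),(nat_lit 336),(nat_lit 298),(nat_lit 328)] [k2,k2,k2,k2,k22,k22,k0,k0,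
    k19,k19,k4,k4] k0 [[k0,k0,k0,k0,k0,k0,k0,k0,k4,k0,k2],[k0,k0,k0,k12],[k12,k0,k0,k0,k0,k0,k0,k0,k0,k0,k6],[k0,k0,
    k0,k0,k0,k0,k0,k0,k0,k2],[k0,k0,k0,k0,k0,k0,k28],[k0,k0,k0,k0,k0,k0,k0,k0,k0,k6,k0,k32],[k0,k0,k0,k0,k0,k0,k0,k0,
    k36],[k0,k0,k0,k0,k0,k28],[k0,k0,k2,k0,k6],[k0,k4,k0,k0,k0,k0,k0,k36],[k0,k0,k0,k0,k32],[k0,k2,k0,
    k6]] (nat_lit 960) k5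
    [[(k8,(nat_lit 315)),(k2,(nat_lit 326)),(k0,(nat_lit 330)),(k10,(nat_lit 330)),(k6,(nat_lit 334)),(k4,
    (nat_lit 344))],[(k9,(nat_lit 315)),(k5,(nat_lit 324)),(k11,(nat_lit 326)),(k1,(nat_lit 330)),(k3,(nat_lit 332)),
    (k7,(nat_lit 334))],[(k4,(nat_lit 312)),(k8,(nat_lit 319)),(k2,(nat_lit 320)),(k0,(nat_lit 332)),(k10,
    (nat_lit 332)),(k6,(nat_lit 334))],[(k5,(nat_lit 312)),(k9,(nat_lit 315)),(k3,(nat_lit 320)),(k1,(nat_lit 326)),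
    (k11,(nat_lit 332)),(k7,(nat_lit 334))],[(k4,(nat_lit 292)),(k8,(nat_lit 293)),(k2,(nat_lit 312)),(k6,
    (nat_lit 314)),(k10,(nat_lit 316)),(k0,(nat_lit 324))],[(k9,(nat_lit 267)),(k5,(nat_lit 292)),(k3,(nat_lit 312)),
    (k7,(nat_lit 314)),(k11,(nat_lit 316)),(k1,(nat_lit 344))],[(k10,(nat_lit 300)),(k8,(nat_lit 311)),(k4,
    (nat_lit 314)),(k0,(nat_lit 334)),(k2,(nat_lit 334)),(k6,(nat_lit 364))],[(k11,(nat_lit 296)),(k5,(nat_lit 314)),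
    (k9,(nat_lit 317)),(k1,(nat_lit 334)),(k3,(nat_lit 334)),(k7,(nat_lit 364))],[(k4,(nat_lit 267)),(k10,
    (nat_lit 313)),(k0,(nat_lit 315)),(k2,(nat_lit 315)),(k6,(nat_lit 317)),(k8,(nat_lit 334))],[(k5,(nat_lit 293)),
    (k7,(nat_lit 311)),(k11,(nat_lit 313)),(k1,(nat_lit 315)),(k3,(nat_lit 319)),(k9,(nat_lit 334))],[(k6,
    (nat_lit 296)),(k8,(nat_lit 313)),(k4,(nat_lit 316)),(k0,(nat_lit 326)),(k10,(nat_lit 328)),(k2,(nat_lit 332))],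
    [(k7,(nat_lit 300)),(k9,(nat_lit 313)),(k5,(nat_lit 316)),(k11,(nat_lit 328)),(k1,(nat_lit 330)),(k3,
    (nat_lit 332))]]
    [] k0
    [[k1,k0,k1,k0,k1,k0],[k1,k0,k0,k0,k1,k1],[k0,k2,k1,k0,k0,k0],[k0,k2,k0,k0,k1,k0],[k0,k1,k2,k0,k0,k0],[k0,k1,k1,k0,
    k1,k0],[k0,k0,k3,k0,k0,k0],[k0,k0,k2,k1,k0,k0],[k0,k0,k2,k0,k1,k0],[k0,k0,k2,k0,k0,k1],[k0,k0,k1,k1,k1,k0],[k0,k0,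
    k1,k1,k0,k1],[k0,k0,k1,k0,k2,k0],[k0,k0,k1,k0,k1,k1],[k0,k0,k0,k1,k1,k1],[k0,k0,k0,k1,k0,k2],[k0,k0,k0,k0,k1,k2]]
    [.ref (nat_lit 337) k0 [(z1,[z4,y3,z0,y4]),(z1,[y2,z2,z1,z2]),(z1,[y4,z4,z0,z5]),(z1,[z1,y2,y1,y2,z1])],
    .ref k71 k2 [(z1,[z0,y1,y1,y1,z1]),(z1,[y1,z1,z0,z1]),(z1,[z0,z0,z1]),(z1,[z0,z1])],.ref k13 k5 [(z1,[z1,z4,z2,z4,
    y4]),(z1,[z0,y2,y1,y2,z2]),(z1,[z0,z5,z4,z4,y4]),(z1,[y1,y8,y6,y7,z8])],.ref k122 k0 [(z1,[y4,z3,z8]),(z1,[z2,z0,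
    y1]),(z1,[z4,z0,y8,z3]),(z1,[y1,y3,y1,y3,z3])],.ref k71 k2 [(z1,[z0,y1,y1,y1,z1]),(z2,[z1,z0,y1]),(z1,[z0,z0,z1]),
    (z1,[z0,z1])],.ref k71 k2 [(z1,[z0,y1,y1,y1,z1]),(z1,[z1,z0,y1]),(z1,[z0,z0,z1]),(z1,[z0,z1])],
    .ref (nat_lit 473) k2 [(z1,[z0,y1,y1,y1,z1]),(z1,[z1]),(z1,[z0,z0,z1]),(z1,[z0,z1])],.ref (nat_lit 272) k10 [(z1,
    [y2,y2,y1,y2,z2]),(z1,[z4,z5,z4,z4,y4]),(z1,[y4,y4,y4,y3,z4]),(z1,[z1,z1,z1,z1,y1])],.ref (nat_lit 272) k10 [(z1,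
    [y2,z0,z1]),(z1,[z4,z1]),(z1,[y4,z0,z0,z1]),(z1,[z1])],.ref k13 k5 [(z1,[z1,z4,z4,z3,y4]),(z1,[z0,y2,y1,y2,z2]),
    (z1,[z0,z5,z4,z4,y4]),(z1,[y1,y8,y8,y6,z8])],.ref k23 k6 [(z1,[z1,z1,z0,z1,y1]),(z1,[z0,y2,y1,y2,z2]),(z1,[z0,z0,
    z1]),(z1,[y1,y1,y2,z0,z1])],.ref k122 k0 [(z1,[y4,y1,y4,z0,z4]),(z1,[z2,z2,z5,z0,y2]),(z1,[z4,z4,z4,z3,y4]),(z1,
    [y1,y4,y4,y3,z4])],.ref k23 k6 [(z1,[z1,z0,y1]),(z1,[z0,y2,y1,y2,z2]),(z1,[z0,z0,z1]),(z1,[y1,z0,y1,z1])],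
    .ref k122 k0 [(z1,[y4,z3,z0,z4]),(z1,[z2,z0,z3,y2]),(z1,[z4,z0,z0,y1]),(z1,[y1,y3,y3,y2,z3])],.ref k23 k6 [(z1,
    [y1,y1,y2,z0,z1]),(z1,[z0,y2,y1,y2,z2]),(z1,[z0,z0,z1]),(z1,[z1,z1,z0,z1,y1])],.ref k170 k6 [(z1,[y2,y2,y9,z2,
    z2]),(z1,[z0,y2,y1,y2,z2]),(z1,[z0,z0,z1]),(z1,[z2,z2,z1,z2,y2])],.ref k170 k6 [(z1,[y2,z0,y7,z4]),(z1,[z0,y2,y1,
    y2,z2]),(z1,[z0,z0,z1]),(z1,[z2,z0,y1])]],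
    .lp [k162,k178,k144,k160,k156,k158] [k8,k8,k0,k0,k17,k17,k9,k9,k11,k11,k10,k10] k0 [[k0,k0,k0,k0,k0,k0,k0,k0,k22],[k0,
    k0,k0,k0,k0,k38,k0,k0,k0,k0,k0,k16],[k0,k0,k0,k0,k36,k0,k0,k0,k0,k0,k38],[k0,k0,k0,k0,k0,k0,k0,k4],[k38],[k0,k0,
    k0,k36,k0,k0,k0,k0,k0,k16],[k0,k0,k4,k0,k0,k0,k0,k0,k32],[k0,k0,k0,k0,k0,k0,k0,k0,k0,k0,k0,k22],[k0,k0,k0,k0,k16,
    k0,k0,k0,k0,k0,k36],[k0,k22,k0,k0,k0,k0,k0,k32],[k16,k0,k0,k0,k0,k0,k22],[k0,k0,k0,k38,k0,k0,k0,k0,k0,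
    k36]] (nat_lit 480) k5
    [[(k8,k123),(k2,k132),(k4,k153),(k10,k160),(k0,k178),(k6,k183)],[(k11,k138),(k5,k153),(k9,k159),(k3,k170),(k1,
    k178),(k7,k199)],[(k4,k123),(k10,k152),(k6,k169),(k0,k170),(k2,k178),(k8,k189)],[(k1,k132),(k7,k133),(k5,k161),
    (k11,k168),(k9,k171),(k3,k178)],[(k6,k148),(k8,k150),(k0,k153),(k2,k161),(k4,k180),(k10,k189)],[(k3,k123),(k9,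
    k150),(k7,k152),(k1,k153),(k11,k167),(k5,k180)],[(k2,k133),(k8,k142),(k4,k152),(k10,k159),(k6,k160),(k0,k199)],
    [(k11,k127),(k5,k148),(k9,k158),(k7,k160),(k3,k169),(k1,k183)],[(k10,k135),(k4,k150),(k6,k158),(k0,k159),(k2,
    k171),(k8,k188)],[(k1,k123),(k7,k142),(k5,k150),(k11,k157),(k9,k188),(k3,k189)],[(k6,k127),(k0,k138),(k8,k157),
    (k4,k167),(k2,k168),(k10,k194)],[(k9,k135),(k3,k152),(k7,k159),(k1,k160),(k5,k189),(k11,k194)]]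
    [] k0
    [[k2,k0,k0,k0,k1,k0],[k2,k0,k0,k0,k0,k1],[k1,k1,k1,k0,k0,k0],[k1,k1,k0,k0,k0,k1],[k1,k0,k1,k0,k1,k0],[k1,k1,k0,k0,
    k1,k0],[k1,k0,k0,k0,k2,k0],[k1,k0,k0,k0,k1,k1],[k0,k2,k1,k0,k0,k0],[k0,k1,k2,k0,k0,k0],[k0,k1,k1,k1,k0,k0],[k0,k1,
    k1,k0,k1,k0],[k0,k1,k0,k2,k0,k0],[k0,k1,k0,k1,k0,k1],[k0,k0,k1,k2,k0,k0],[k0,k0,k1,k1,k1,k0],[k0,k0,k1,k1,k0,k1],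
    [k0,k0,k1,k0,k1,k1],[k0,k0,k0,k2,k1,k0],[k0,k0,k0,k2,k0,k1],[k0,k0,k0,k1,k1,k1]]
    [.ref k130 k3 [(z1,[z0,z1,z2]),(z1,[z0,z0,y1,z1]),(z1,[y2,y1])],.ref k19 k5 [(z1,[y1,z1,y1,z1]),(z1,[z0,z0,z1]),
    (z1,[z0,z1])],.ref (nat_lit 258) k10 [(z1,[y1,z1,z2]),(z1,[z2,y1,y2]),(z1,[y2,z1,z1,z1])],
    .ref (nat_lit 258) k10 [(z1,[z1,z0,z1,y1]),(z1,[y2,z1,z0,z2]),(z1,[z2,y1,y1,y1])],.ref (nat_lit 467) k0 [(z1,[z2,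
    z1,z2,y2]),(z1,[y1,z0,z0,z1]),(z1,[y2,y1,y3,z3])],.ref (nat_lit 260) k8 [(z1,[z1,y1,y1]),(z1,[y1,z0,z0,z1]),(z1,
    [z1,z0,y1])],.ref (nat_lit 260) k8 [(z2,[z1,y1]),(z2,[y1,y1,y2,z2]),(z2,[z1,z1])],.ref (nat_lit 468) k5 [(z1,[y1,
    z0,y1,z1]),(z1,[z0,z0,z1]),(z1,[z0,z1])],.ref k19 k5 [(z1,[z1,z0,y2]),(z1,[z0,z0,z1]),(z1,[z0,z1])],
    .ref (nat_lit 472) k8 [(z1,[y1,z0,z1]),(z1,[z2,y1,y3,z1]),(z1,[y2,z1,z2])],.ref (nat_lit 468) k5 [(z1,[z1,z0,y1]),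
    (z1,[z0,z0,z1]),(z1,[z0,z1])],.ref (nat_lit 463) k9 [(z1,[z2,y1,z0,y2]),(z1,[y1,z0,z0,z1]),(z1,[z0,z0,y1,z1])],
    .ref (nat_lit 474) k0 [(z1,[z2,z1,y2]),(z1,[y1,z0,z2]),(z1,[y2,y1,z1,z1])],.ref (nat_lit 467) k0 [(z1,[y2,z1,z2]),
    (z1,[z1]),(z1,[z2,y1,y3,z1])],.ref k166 k0 [(z1,[y1,z0,y1,z1]),(z1,[z1,z1,z3,y1]),(z1,[z1])],
    .ref (nat_lit 258) k10 [(z1,[y1,z0,z1]),(z1,[z2,z1]),(z1,[y2,y1,y1,z1])],.ref (nat_lit 260) k8 [(z1,[y1,y1,y1,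
    z1]),(z1,[z1]),(z1,[y1,z0,y1,z1])],.ref (nat_lit 263) k0 [(z1,[y1,z0,y1,z1]),(z1,[z1,z1,z3,y1]),(z1,[z1])],
    .ref (nat_lit 263) k0 [(z1,[z1,z1]),(z1,[y1,z0,z2]),(z1,[y1,y1,y1,z1])],.ref (nat_lit 238) k0 [(z1,[z1,z1]),(z1,
    [y1,z0,z2]),(z1,[y1,y1,y1,z1])],.ref (nat_lit 258) k10 [(z1,[z1,z1,z2,y1]),(z1,[y2,y1,y2,z2]),(z1,[z2,z1,z1,y1])]],
    .lp [k84,k76,k84,k82,k80,k72] [k8,k0,k8,k8,k4,k4,k5,k5,k6,k6,k10,k10] k0 [[k0,k0,k4,k0,k0,k0,k6],[k0,k0,k0,k0,k0,k20],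
    [k0,k0,k0,k0,k4,k0,k0,k0,k6],[k0,k4,k0,k0,k0,k0,k0,k14],[k20],[k0,k0,k0,k4,k0,k0,k0,k0,k0,k4],[k0,k0,k14,k0,k0,k0,
    k0,k0,k12],[k0,k6,k0,k0,k0,k0,k0,k0,k0,k0,k0,k4],[k0,k0,k0,k0,k4,k0,k0,k0,k0,k0,k26],[k0,k0,k0,k6,k0,k0,k0,k12],
    [k0,k0,k0,k0,k0,k0,k4],[k0,k0,k0,k0,k0,k0,k0,k0,k0,k26]] (nat_lit 240) k5
    [[(k8,k60),(k10,k82),(k0,k84),(k2,k84),(k4,k88),(k6,k91)],[(k9,k72),(k11,k74),(k3,k76),(k5,k76),(k1,k84),(k7,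
    k99)],[(k4,k60),(k10,k74),(k0,k76),(k8,k78),(k2,k80),(k6,k85)],[(k11,k68),(k7,k75),(k3,k80),(k5,k80),(k1,k84),(k9,
    k92)],[(k6,k69),(k0,k76),(k10,k78),(k2,k80),(k4,k88),(k8,k88)],[(k3,k60),(k9,k82),(k11,k82),(k7,k83),(k1,k88),(k5,
    k88)],[(k2,k75),(k8,k77),(k10,k77),(k6,k82),(k4,k83),(k0,k99)],[(k11,k65),(k5,k69),(k9,k81),(k7,k82),(k3,k85),(k1,
    k91)],[(k0,k72),(k10,k72),(k6,k81),(k4,k82),(k2,k92),(k8,k92)],[(k1,k60),(k11,k76),(k7,k77),(k3,k78),(k5,k88),(k9,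
    k92)],[(k6,k65),(k2,k68),(k0,k74),(k8,k76),(k4,k82),(k10,k98)],[(k9,k72),(k3,k74),(k7,k77),(k5,k78),(k1,k82),(k11,
    k98)]]
    [] k0
    [[k2,k0,k0,k0,k1,k0],[k1,k1,k1,k0,k0,k0],[k1,k1,k0,k0,k1,k0],[k1,k1,k0,k0,k0,k1],[k1,k0,k1,k0,k1,k0],[k1,k0,k0,k0,
    k2,k0],[k1,k0,k0,k0,k1,k1],[k0,k2,k1,k0,k0,k0],[k0,k2,k0,k0,k0,k1],[k0,k1,k2,k0,k0,k0],[k0,k1,k1,k1,k0,k0],[k0,k1,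
    k1,k0,k0,k1],[k0,k1,k0,k1,k0,k1],[k0,k1,k0,k1,k1,k0],[k0,k1,k0,k0,k1,k1],[k0,k0,k1,k2,k0,k0],[k0,k0,k1,k1,k1,k0],
    [k0,k0,k1,k1,k0,k1],[k0,k0,k1,k0,k1,k1],[k0,k0,k0,k2,k0,k1],[k0,k0,k0,k1,k1,k1]]
    [.ref (nat_lit 346) k6 [(z1,[y1,y1,z1]),(z1,[z0,z1])],.ref (nat_lit 438) k9 [(z1,[y1,y1,z1]),(z1,[z0,z1])],
    .ref (nat_lit 440) k6 [(z1,[y1,y1,z1]),(z1,[z0,z1])],.ref (nat_lit 438) k7 [(z1,[y1,z1]),(z1,[z0,y1,z1])],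
    .ref (nat_lit 441) k4 [(z1,[y1,z1]),(z1,[z1])],.ref (nat_lit 458) k11 [(z1,[z1,z2,y2]),(z1,[y1,y1,z2])],
    .ref (nat_lit 459) k6 [(z1,[y1,y1,z1]),(z1,[z0,z1])],.ref (nat_lit 261) k9 [(z1,[y1,y1,z1]),(z1,[z0,z1])],
    .ref (nat_lit 430) k4 [(z1,[z1,z2,y2]),(z1,[y1,y1,z2])],.ref (nat_lit 266) k5 [(z1,[z1,z1,y1]),(z1,[y1,y2,z2])],
    .ref (nat_lit 459) k6 [(z1,[z1,y1]),(z1,[z0,z1])],.ref (nat_lit 465) k4 [(z1,[z1,z1,y1]),(z1,[y1,z0,z1])],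
    .ref (nat_lit 441) k4 [(z1,[z1,z1,y1]),(z1,[y1,z0,z1])],.ref (nat_lit 465) k7 [(z1,[z1,z1,y1]),(z1,[z0,y1,z1])],
    .ref (nat_lit 466) k4 [(z1,[z1,z1,y1]),(z1,[y1,z0,z1])],.ref (nat_lit 475) k6 [(z1,[z1,y2]),(z1,[z0,z1])],
    .ref (nat_lit 438) k7 [(z1,[z1,z1,y1]),(z1,[z0,y1,z1])],.ref (nat_lit 440) k6 [(z1,[z1,y1]),(z1,[z0,z1])],
    .ref (nat_lit 440) k3 [(z1,[y1,y1,z1]),(z1,[z1])],.ref (nat_lit 261) k7 [(z1,[z1,y1]),(z1,[z0,y1,z1])],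
    .ref (nat_lit 438) k9 [(z1,[z1,y1]),(z1,[z0,z1])]],
    .lp [k86,k80,k68,k84,k74,k86] [k0,k0,k3,k3,k9,k9,k1,k1,k7,k5,k0,k0] k0 [[k0,k0,k0,k0,k0,k0,k0,k0,k6],[k0,k0,k0,k0,k0,
    k2],[k0,k0,k0,k0,k20,k0,k0,k0,k0,k0,k6],[k0,k0,k0,k0,k0,k0,k0,k0,k0,k4],[k2,k0,k0,k0,k0,k0,k12],[k0,k0,k0,k20,k0,
    k0,k0,k0,k0,k6],[k0,k0,k0,k0,k0,k0,k0,k0,k16],[k0,k0,k0,k0,k0,k12,k0,k0,k0,k0,k0,k10],[k0,k0,k4,k0,k6],[k0,k6,k0,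
    k0,k0,k0,k0,k16],[k0,k0,k0,k0,k0,k0,k10],[k0,k0,k0,k6]] (nat_lit 240) k5
    [[(k2,k77),(k4,k77),(k8,k79),(k0,k86),(k10,k86),(k6,k95)],[(k5,k77),(k11,k80),(k9,k81),(k3,k83),(k1,k86),(k7,
    k87)],[(k4,k72),(k2,k80),(k6,k82),(k8,k82),(k0,k83),(k10,k83)],[(k7,k62),(k5,k74),(k1,k77),(k9,k78),(k3,k80),(k11,
    k87)],[(k8,k66),(k2,k74),(k6,k76),(k0,k77),(k10,k83),(k4,k88)],[(k9,k60),(k3,k72),(k7,k76),(k1,k77),(k11,k83),(k5,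
    k88)],[(k2,k62),(k8,k72),(k4,k76),(k10,k85),(k0,k87),(k6,k96)],[(k11,k69),(k5,k76),(k9,k80),(k3,k82),(k1,k95),(k7,
    k96)],[(k4,k60),(k10,k71),(k2,k78),(k6,k80),(k0,k81),(k8,k90)],[(k5,k66),(k7,k72),(k1,k79),(k11,k79),(k3,k82),(k9,
    k90)],[(k6,k69),(k8,k79),(k0,k80),(k4,k83),(k10,k86),(k2,k87)],[(k9,k71),(k3,k83),(k5,k83),(k7,k85),(k1,k86),(k11,
    k86)]]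
    [] k0
    [[k1,k1,k1,k0,k0,k0],[k1,k0,k1,k0,k1,k0],[k1,k0,k0,k0,k1,k1],[k0,k2,k1,k0,k0,k0],[k0,k2,k0,k1,k0,k0],[k0,k1,k2,k0,
    k0,k0],[k0,k1,k1,k1,k0,k0],[k0,k1,k1,k0,k1,k0],[k0,k1,k0,k1,k1,k0],[k0,k1,k0,k1,k0,k1],[k0,k0,k2,k0,k1,k0],[k0,k0,
    k1,k1,k1,k0],[k0,k0,k1,k0,k2,k0],[k0,k0,k1,k0,k1,k1],[k0,k0,k1,k1,k0,k1],[k0,k0,k0,k1,k1,k1],[k0,k0,k0,k0,k1,k2]]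
    [.ref k0 k4 [(z1,[y1,z1])],.ref k1 k0 [(z1,[z1])],.ref k0 k0 [(z1,[z1])],.ref (nat_lit 286) k3 [(z1,[z1,y1])],
    .ref (nat_lit 437) k10 [(z1,[z1])],.ref (nat_lit 286) k5 [(z1,[z1,y1])],.ref k0 k0 [(z1,[y1,z1])],
    .ref (nat_lit 476) k0 [(z1,[y1,z1])],.ref (nat_lit 476) k8 [(z1,[z1])],.ref k1 k0 [(z1,[y1,z1])],
    .ref (nat_lit 437) k5 [(z1,[z1])],.ref k0 k8 [(z1,[z1])],.ref (nat_lit 437) k8 [(z1,[z1])],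
    .ref (nat_lit 476) k4 [(z1,[z1])],.ref (nat_lit 476) k3 [(z1,[y1,z1])],.ref k0 k4 [(z1,[z1])],
    .ref (nat_lit 286) k1 [(z1,[z1,y1])]]]

/-- the nodes with numbers from 469 -/
noncomputable def cT6_3_n11 : List TN :=
  cT6_3_n11_0

theorem cT6_3_k11 : allI (chkT 6 cT6_3_w tt6 cT6_3_s (blkF [] cT6_3_D)) cT6_3_n11 469 = true := by
  decide +kernel

end Pool.Agent.Lib_MP_fa6e45
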