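import Pool.Agent.Lib_MP_fa6e45.CG6_2d

/-!
MP_fa6e45_co, stage 5: certificates (captain, generated by a program).
-/

namespace Pool.Agent.Lib_MP_fa6e45

noncomputable def cT6_3_n2_0 : List TN :=
  [.lp [k156,k162,k162,k158,k160,k160] [k3,k3,k0,k0,k0,k0,k2,k2,k1,k1,k1,k1] k0 [[k0,k0,k0,k0,k0,k0,k18],[k0,k0,k0,k0,k0,
    k6,k0,k0,k0,k12],[k0,k0,k0,k0,k0,k0,k10,k0,k12],[k0,k0,k0,k0,k0,k0,k0,k0,k0,k0,k0,k6],[k6,k0,k0,k0,k0,k0,k0,k0,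
    k12],[k0,k0,k0,k0,k0,k0,k0,k8,k0,k0,k0,k6],[k0,k0,k0,k0,k8],[k0,k18,k0,k10],[k12,k0,k0,k0,k0,k0,k0,k0,k0,k0,k16],
    [k0,k0,k0,k12,k0,k12],[k0,k0,k6,k0,k6],[k0,k0,k0,k0,k0,k0,k0,k0,k0,k16]] (nat_lit 480) k5
    [[(k8,k142),(k0,k156),(k6,k157),(k10,k158),(k2,k165),(k4,k165)],[(k9,k140),(k1,k156),(k3,k159),(k5,k159),(k7,
    k163),(k11,k170)],[(k8,k149),(k4,k156),(k0,k159),(k10,k161),(k2,k162),(k6,k178)],[(k11,k149),(k9,k151),(k7,k160),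
    (k3,k162),(k5,k162),(k1,k165)],[(k10,k155),(k0,k159),(k2,k162),(k4,k162),(k6,k170),(k8,k173)],[(k11,k149),(k3,
    k156),(k7,k160),(k5,k162),(k1,k165),(k9,k169)],[(k6,k150),(k10,k153),(k2,k160),(k4,k160),(k0,k163),(k8,k171)],
    [(k7,k150),(k1,k157),(k9,k159),(k11,k159),(k5,k170),(k3,k178)],[(k0,k140),(k2,k151),(k6,k159),(k8,k160),(k10,
    k160),(k4,k169)],[(k1,k142),(k3,k149),(k9,k160),(k11,k160),(k7,k171),(k5,k173)],[(k2,k149),(k4,k149),(k6,k159),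
    (k8,k160),(k0,k170),(k10,k176)],[(k7,k153),(k5,k155),(k1,k158),(k9,k160),(k3,k161),(k11,k176)]]
    [] k0
    [[k3,k0,k0,k0,k0,k0],[k2,k0,k0,k1,k0,k0],[k2,k0,k0,k0,k1,k0],[k1,k1,k0,k0,k1,k0],[k1,k0,k1,k0,k1,k0],[k1,k1,k0,k1,
    k0,k0],[k1,k0,k1,k1,k0,k0],[k1,k0,k0,k2,k0,k0],[k1,k0,k0,k1,k1,k0],[k1,k0,k0,k0,k2,k0],[k1,k0,k0,k0,k1,k1],[k1,k1,
    k0,k0,k0,k1],[k1,k0,k1,k0,k0,k1],[k0,k2,k0,k0,k1,k0],[k0,k2,k0,k0,k0,k1],[k0,k1,k1,k0,k0,k1],[k0,k1,k0,k1,k1,k0],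
    [k0,k1,k0,k0,k2,k0],[k0,k1,k0,k0,k1,k1],[k0,k0,k2,k0,k0,k1],[k0,k0,k1,k1,k0,k1],[k0,k0,k0,k3,k0,k0],[k0,k0,k0,k2,
    k0,k1],[k0,k0,k0,k1,k1,k1]]
    [.ref k81 k1 [(z1,[y4,z12,y15]),(z1,[z0,z0,y1]),(z1,[z0,y2,y1,y2,z2]),(z1,[z0,z0,z2,z1])],.ref k82 k4 [(z2,[y1,z1,
    y1,y1,z1]),(z2,[z1,z1,z1,z1,y1]),(z1,[z0,z0,z1]),(z1,[z0,z0,z0,z1])],.ref k83 k4 [(z1,[y1,z2]),(z1,[z1]),(z1,[z0,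
    z0,z1]),(z1,[z0,z0,z0,z1])],.ref k84 k4 [(z1,[y1,z1,z1]),(z1,[z1,z0,y1]),(z1,[z0,z0,z1]),(z1,[z0,z0,z0,z1])],
    .ref k85 k5 [(z1,[z0,z4,z4,z5,y4]),(z1,[z0,y2,y1,y2,z2]),(z1,[z2,y7,y7,y9,z7]),(z1,[y1,z2,z1,z2,y1])],
    .ref k39 k4 [(z1,[y1,z0,z0,y1,z1]),(z1,[z1,z1,z0,z1,y1]),(z1,[z0,z0,z1]),(z1,[z0,z0,z0,z1])],.ref k86 k5 [(z1,[z0,
    z4,z4,z5,y4]),(z1,[z0,y2,y1,y2,z2]),(z1,[z1,y4,y4,y5,z4]),(z1,[y2,z5,z3,z5,y3])],.ref k87 k0 [(z1,[z5,z6,z10,z10,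
    y10]),(z1,[z4,z4,z9,z8,y8]),(z1,[y8,y8,y16,y15,z16]),(z1,[y2,y3,y5,y5,z5])],.ref k82 k4 [(z1,[y1,z0,y1,y1,z1]),
    (z1,[z1,z1,z1,z1,y1]),(z1,[z0,z0,z1]),(z1,[z0,z0,z0,z1])],.ref k39 k4 [(z1,[y1,z1]),(z1,[z1]),(z1,[z0,z0,z1]),(z1,
    [z0,z0,z0,z1])],.ref k9 k3 [(z1,[z2,y2,z3]),(z1,[y4,z4,z0,z3]),(z1,[y1,y2,y3,y3,z3]),(z2,[z1,y1])],
    .ref k9 k3 [(z3,[z4,y4,z5]),(z3,[y8,z8,z8,z9]),(z3,[y2,y7,y7,y9,z9]),(z3,[z1,y1,y1])],.ref k9 k3 [(z1,[y4,z4,z3,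
    z4]),(z1,[z8,y8,z0,y5]),(z1,[z2,y5,y3,y5,z3]),(z1,[y1,z1,z0,z1])],.ref k9 k3 [(z3,[z4,z0,z1]),(z3,[y8,z0,z16,z9]),
    (z3,[y2,y9,y5,y9,z9]),(z3,[z1,z0,y2])],.ref k88 k5 [(z1,[z0,z4,z4,z5,y4]),(z1,[z0,y2,y1,y2,z2]),(z1,[y2,y11,y9,
    y13,z13]),(z1,[z1,z4,z2,z4,y4])],.ref k82 k4 [(z1,[z1,z0,y1,y1]),(z1,[y1,z1,z1,z1]),(z1,[z0,z0,z1]),(z1,[z0,z0,z0,
    z1])],.ref k9 k3 [(z1,[z4,z4,z3,z4,y4]),(z1,[y8,y8,z0,y5,z8]),(z1,[y2,y5,y3,y5,z5]),(z1,[z1,z1,z0,z1,y1])],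
    .ref k9 k3 [(z1,[z2,z0,z1]),(z1,[y4,z0,z4,z3]),(z1,[y1,y3,y2,y3,z3]),(z2,[z1,z0,y1])],.ref k86 k5 [(z1,[z0,z4,z4,
    z5,y4]),(z1,[z0,y2,y1,y2,z2]),(z1,[y1,y4,y4,y5,z5]),(z1,[z2,z5,z3,z5,y5])],.ref k89 k4 [(z1,[z1,z0,z0,y2]),(z1,
    [y1,z1,z0,z2]),(z1,[z0,z0,z1]),(z1,[z0,z0,z0,z1])],.ref k84 k4 [(z1,[z1,z1,z1,z0,y1]),(z1,[y1,z0,y1,z0,z1]),(z1,
    [z0,z0,z1]),(z1,[z0,z0,z0,z1])],.ref k9 k3 [(z1,[y2,y6,y3,y6,z6]),(z1,[z4,z12,z12,z15,y12]),(z1,[z1]),(z2,[y1,y3,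
    y3,y3,z3])],.ref k82 k4 [(z1,[z1,z2,z2,z2,y2]),(z1,[y1,y1,y2,y2,z2]),(z1,[z0,z0,z1]),(z1,[z0,z0,z0,z1])],
    .ref k87 k0 [(z1,[y5,y4,y5,y5,z5]),(z1,[y4,y4,y3,y4,z4]),(z1,[z8,z8,z8,z9,y8]),(z1,[z2,z1,z1,z1,y1])]],
    .leafM k0 [k0,k1,k2,k3,k4,k5] [(z2,[z0,z1,z1])] [],
    .leafM k0 [k1,k2,k3,k4,k5,k0] [(z1,[y1,y1,z0,z1])] [],
    .leafM k1 [k0,k1,k2,k3,k4,k5] [(z2,[y1,z0,y1,z2]),(z2,[z1,z0,z1])] [],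
    .leafM k0 [k2,k3,k4,k5,k0,k1] [(z1,[y1,y1,z0,z1])] [],
    .lp [k168,k170,k154,k164,k140,k162] [k1,k1,k0,k0,k8,k8,k3,k3,k15,k15,k4,k4] k0 [[k0,k0,k0,k0,k0,k0,k0,k0,k4,k0,k8],
    [k0,k0,k0,k0,k0,k0,k0,k8],[k0,k0,k0,k0,k8,k0,k0,k0,k0,k0,k10],[k0,k0,k0,k0,k0,k0,k0,k0,k0,k4],[k0,k0,k0,k0,k0,k0,
    k12],[k0,k0,k0,k8],[k8],[k0,k0,k0,k0,k0,k12],[k0,k0,k4],[k0,k4,k0,k0,k0,k0,k0,k0,k0,k0,k0,k8],[k0,k0,k0,k0,k0,k0,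
    k0,k0,k8],[k0,k8,k0,k10]] (nat_lit 480) k5
    [[(k2,k159),(k0,k160),(k4,k161),(k8,k162),(k10,k165),(k6,k166)],[(k1,k160),(k5,k161),(k11,k161),(k9,k162),(k7,
    k166),(k3,k169)],[(k6,k159),(k8,k159),(k4,k162),(k0,k169),(k2,k170),(k10,k174)],[(k9,k155),(k1,k159),(k7,k159),
    (k5,k162),(k3,k170),(k11,k170)],[(k8,k143),(k6,k159),(k0,k161),(k2,k162),(k4,k162),(k10,k168)],[(k9,k135),(k11,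
    k158),(k7,k159),(k1,k161),(k3,k162),(k5,k162)],[(k8,k152),(k2,k159),(k4,k159),(k10,k163),(k0,k166),(k6,k176)],
    [(k9,k152),(k3,k159),(k5,k159),(k11,k163),(k1,k166),(k7,k176)],[(k4,k135),(k8,k140),(k10,k151),(k6,k152),(k2,
    k155),(k0,k162)],[(k9,k140),(k5,k143),(k11,k151),(k7,k152),(k3,k159),(k1,k162)],[(k8,k151),(k10,k154),(k4,k158),
    (k0,k161),(k6,k163),(k2,k170)],[(k9,k151),(k11,k154),(k7,k163),(k1,k165),(k5,k168),(k3,k174)]]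
    [] k0
    [[k1,k0,k1,k0,k1,k0],[k1,k0,k0,k0,k2,k0],[k1,k0,k0,k0,k1,k1],[k0,k1,k1,k0,k1,k0],[k0,k1,k0,k1,k1,k0],[k0,k1,k0,k0,
    k2,k0],[k0,k0,k2,k0,k1,k0],[k0,k0,k1,k1,k1,k0],[k0,k0,k1,k0,k2,k0],[k0,k0,k1,k0,k1,k1],[k0,k0,k0,k1,k2,k0],[k0,k0,
    k0,k1,k1,k1],[k0,k0,k0,k0,k3,k0],[k0,k0,k0,k0,k2,k1],[k0,k0,k0,k0,k1,k2],[k0,k0,k0,k0,k0,k3]]
    [.ref k12 k0 [(z3,[z4,z9,z4,z0,z4,y4]),(z3,[y2,z0,z7,z0,y2,z2]),(z3,[z13,z0,z13,z9,z13,y13]),(z3,[y8,z0,y8,z0,z1,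
    z8]),(z3,[y8,y9,y17,y9,y17,z17])],.ref k12 k0 [(z1,[y1,z2,y2,y2,y2,z2]),(z2,[z1,z1,z8,z2,z2,y2]),(z4,[y13,y13,y26,
    y14,y26,z26]),(z1,[z2,z2,z4,z4,z7,y4]),(z1,[z2,y1,z1,z1,z1,y1])],.ref k12 k0 [(z1,[y4,z3,y4,y4,y4,z4]),(z1,[z2,z0,
    z5,z2,z2,y2]),(z1,[y13,z0,y13,y10,y13,z13]),(z1,[z8,z0,z8,z8,z11,y8]),(z1,[z8,y3,z5,z5,z5,y5])],.ref k12 k0 [(z1,
    [z4,z7,z0,z0,z4,y4]),(z1,[y2,y2,z3,z0,y2,z2]),(z1,[z13,z13,z0,z3,z13,y13]),(z1,[y8,y8,z0,z0,y5,z8]),(z1,[y8,y11,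
    y3,y3,y11,z11])],.ref k12 k0 [(z3,[y2,z7,z0,y2,z0,z2]),(z3,[z1,z1,z9,z1,z0,y1]),(z6,[y13,y13,z0,z5,z0,z13]),(z3,
    [z4,z4,z0,z4,z9,y4]),(z3,[z4,y5,y9,y5,y9,z5])],.ref k12 k0 [(z3,[y2,z5,y2,y4,y4,z4]),(z3,[z1,z2,z10,z2,z2,y2]),
    (z6,[y13,y26,y13,y8,y26,z26]),(z3,[z4,z8,z4,z8,z17,y8]),(z3,[z4,y1,y5,y1,y1,z1])],.ref k12 k0 [(z3,[z2,z11,z2,y2,
    z2,y2]),(z3,[y1,y1,z8,z1,y1,z1]),(z6,[z13,z13,z13,z5,z13,y13]),(z3,[y4,y4,y4,z4,z5,z4]),(z3,[y4,y13,y13,y5,y13,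
    z13])],.ref k12 k0 [(z1,[y4,y1,y4,z0,z0,z4]),(z1,[z2,z2,z5,z0,z0,y2]),(z1,[y13,y13,y13,z3,z0,z13]),(z1,[z8,z8,z8,
    z0,z3,y8]),(z1,[z8,z5,z5,y3,y3,y5])],.ref k12 k0 [(z1,[y4,y5,y8,y4,y8,z8]),(z1,[z2,z4,z7,z2,z4,y4]),(z1,[y13,y26,
    y26,y10,y26,z26]),(z1,[z8,z16,z16,z8,z19,y16]),(z1,[z8,z13,z13,z5,z13,y13])],.ref k12 k0 [(z1,[z2,z5,z2,z0,z2,
    y2]),(z1,[y1,y1,z2,z0,y1,z1]),(z2,[z13,z13,z13,z6,z13,y13]),(z1,[y4,y4,y4,z0,y1,z4]),(z1,[y4,y7,y7,y3,y7,z7])],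
    .ref k12 k0 [(z2,[y1,z4,y2,y2,y1,z2]),(z4,[z1,z2,z14,z2,z1,y2]),(z8,[y13,y26,y26,y2,y13,z26]),(z1,[z1,z2,z2,z2,z4,
    y2]),(z1,[z1,y1,y1,y1,y2,z1])],.ref k12 k0 [(z5,[y4,z11,y4,y4,z0,z4]),(z5,[z2,z2,z17,z2,z0,y2]),(z5,[y13,y13,y13,
    z2,z0,z13]),(z5,[z8,z8,z8,z8,z15,y8]),(z5,[z8,y7,y7,y7,y15,z7])],.ref k12 k0 [(z2,[y1,z3,y3,y3,y3,z3]),(z4,[z1,z3,
    z15,z3,z3,y3]),(z8,[y13,y39,y39,y15,y39,z39]),(z1,[z1,z3,z3,z3,z6,y3]),(z1,[z1])],.ref k12 k0 [(z5,[y4,z7,y8,y8,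
    y8,z8]),(z5,[z2,z4,z19,z4,z4,y4]),(z5,[y13,y26,y26,y11,y26,z26]),(z5,[z8,z16,z16,z16,z31,y16]),(z5,[z8,z1,z1,z1,
    z1,y1])],.ref k12 k0 [(z1,[y2,z1,y2,y2,y2,z2]),(z1,[z1,z1,z4,z1,z1,y1]),(z2,[y13,y13,y13,y7,y13,z13]),(z1,[z4,z4,
    z4,z4,z7,y4]),(z1,[z4,z1,z1,z1,z1,y1])],.ref k12 k0 [(z1,[z4,z3]),(z1,[y2,z0,z3]),(z1,[z13,z0,z0,z3]),(z1,[y8,z0,
    z0,z0,z3]),(z1,[y8,y3,y3,y3,y3,z3])]],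
    .leafM k1 [k0,k1,k2,k3,k4,k5] [(z1,[z0,z1,z0,z1]),(z1,[z0,y1,z0,y1,z1])] [],
    .lp [k168,k170,k154,k164,k140,k162] [k1,k1,k0,k0,k8,k8,k3,k3,k15,k15,k4,k4] k0 [[k0,k0,k0,k0,k0,k0,k0,k0,k4,k0,k8],
    [k0,k0,k0,k0,k0,k0,k0,k8],[k0,k0,k0,k0,k8,k0,k0,k0,k0,k0,k10],[k0,k0,k0,k0,k0,k0,k0,k0,k0,k4],[k0,k0,k0,k0,k0,k0,
    k12],[k0,k0,k0,k8],[k8],[k0,k0,k0,k0,k0,k12],[k0,k0,k4],[k0,k4,k0,k0,k0,k0,k0,k0,k0,k0,k0,k8],[k0,k0,k0,k0,k0,k0,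
    k0,k0,k8],[k0,k8,k0,k10]] (nat_lit 480) k5
    [[(k2,k159),(k0,k160),(k4,k161),(k8,k162),(k10,k165),(k6,k166)],[(k1,k160),(k5,k161),(k11,k161),(k9,k162),(k7,
    k166),(k3,k169)],[(k6,k159),(k8,k159),(k4,k162),(k0,k169),(k2,k170),(k10,k174)],[(k9,k155),(k1,k159),(k7,k159),
    (k5,k162),(k3,k170),(k11,k170)],[(k8,k143),(k6,k159),(k0,k161),(k2,k162),(k4,k162),(k10,k168)],[(k9,k135),(k11,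
    k158),(k7,k159),(k1,k161),(k3,k162),(k5,k162)],[(k8,k152),(k2,k159),(k4,k159),(k10,k163),(k0,k166),(k6,k176)],
    [(k9,k152),(k3,k159),(k5,k159),(k11,k163),(k1,k166),(k7,k176)],[(k4,k135),(k8,k140),(k10,k151),(k6,k152),(k2,
    k155),(k0,k162)],[(k9,k140),(k5,k143),(k11,k151),(k7,k152),(k3,k159),(k1,k162)],[(k8,k151),(k10,k154),(k4,k158),
    (k0,k161),(k6,k163),(k2,k170)],[(k9,k151),(k11,k154),(k7,k163),(k1,k165),(k5,k168),(k3,k174)]]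
    [] k0
    [[k1,k0,k1,k0,k1,k0],[k1,k0,k0,k0,k2,k0],[k1,k0,k0,k0,k1,k1],[k0,k1,k1,k0,k1,k0],[k0,k1,k0,k1,k1,k0],[k0,k1,k0,k0,
    k2,k0],[k0,k0,k2,k0,k1,k0],[k0,k0,k1,k1,k1,k0],[k0,k0,k1,k0,k2,k0],[k0,k0,k1,k0,k1,k1],[k0,k0,k0,k1,k2,k0],[k0,k0,
    k0,k1,k1,k1],[k0,k0,k0,k0,k3,k0],[k0,k0,k0,k0,k2,k1],[k0,k0,k0,k0,k1,k2],[k0,k0,k0,k0,k0,k3]]
    [.ref k12 k0 [(z1,[y8,z3,y4,z0,y8,z8]),(z1,[z1,z0,z2,z0,z1,y1]),(z1,[z4,z0,z2,z3,z4,y4]),(z1,[y2,z0,y1,z0,z1,z2]),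
    (z1,[z7,y3,z2,y3,z4,y4])],.ref k12 k0 [(z1,[y4,y1,y4,y8,y8,z8]),(z2,[z1,z1,z4,z2,z2,y2]),(z1,[z2,z2,z2,z7,z4,y4]),
    (z1,[y1,y1,y1,y2,z1,z2]),(z2,[z7,z1,z4,z8,z8,y8])],.ref k12 k0 [(z1,[z8,z3,z4,z8,z8,y8]),(z1,[y1,z0,z1,y1,y1,z1]),
    (z1,[y4,z0,y2,y1,y4,z4]),(z1,[z2,z0,z1,z2,z5,y2]),(z1,[y7,y3,y5,y10,y10,z10])],.ref k12 k0 [(z1,[y2,z1,z0,z0,y2,
    z2]),(z4,[z1,z1,z6,z0,z1,y1]),(z1,[z1,z1,z0,z3,z1,y1]),(z2,[y1,y1,z0,z0,z5,z1]),(z4,[z7,y5,y6,y12,y5,z5])],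
    .ref k12 k0 [(z1,[y4,y1,z0,y4,z0,z4]),(z2,[z1,z1,z3,z1,z0,y1]),(z1,[z2,z2,z0,z5,z0,y2]),(z1,[y1,y1,z0,y1,z3,z1]),
    (z2,[z7,z1,y3,z1,y6,y1])],.ref k12 k0 [(z5,[y8,y1,y4,y16,y16,z16]),(z5,[z1,z2,z8,z2,z2,y2]),(z5,[z4,z8,z2,z23,z8,
    y8]),(z5,[y2,y4,y1,y4,z11,z4]),(z5,[z7,y1,y4,y1,y1,z1])],.ref k12 k0 [(z5,[y8,z7,y4,z8,y8,z8]),(z5,[z1,z1,z8,y1,
    z1,y1]),(z5,[z4,z4,z2,z11,z4,y4]),(z5,[y2,y2,y1,z2,z13,z2]),(z5,[z7,y8,y4,y22,y8,z8])],.ref k12 k0 [(z3,[y8,z1,y4,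
    z0,z0,z8]),(z3,[z1,z1,z5,z0,z0,y1]),(z3,[z4,z4,z2,z9,z0,y4]),(z3,[y2,y2,y1,z0,z9,z2]),(z3,[z7,y2,y1,y9,y9,z2])],
    .ref k12 k0 [(z3,[y4,z1,y4,y4,y8,z8]),(z6,[z1,z2,z10,z1,z2,y2]),(z3,[z2,z4,z2,z11,z4,y4]),(z3,[y1,y2,y1,y1,z7,
    z2]),(z6,[z7,y4,y2,y11,y4,z4])],.ref k12 k0 [(z3,[y8,z1,y4,z0,y8,z8]),(z3,[z1,z1,z5,z0,z1,y1]),(z3,[z4,z4,z2,z9,
    z4,y4]),(z3,[y2,y2,y1,z0,z7,z2]),(z3,[z7,y2,y1,y9,y2,z2])],.ref k12 k0 [(z1,[y2,y1,y2,y4,y2,z4]),(z4,[z1,z2,z7,z2,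
    z1,y2]),(z1,[z1,z2,z1,z5,z1,y2]),(z2,[y1,y2,y1,y2,z5,z2]),(z4,[z7,z2,z1,z2,y5,y2])],.ref k12 k0 [(z1,[y8,y5,y4,y8,
    z0,z8]),(z1,[z1,z1,z2,z1,z0,y1]),(z1,[z4,z4,z2,z7,z0,y4]),(z1,[y2,y2,y1,y2,z3,z2]),(z1,[z7,z4,z2,z4,y3,y4])],
    .ref k12 k0 [(z7,[y8,y3,y12,y24,y24,z24]),(z7,[z1,z3,z12,z3,z3,y3]),(z7,[z4,z12,z6,z33,z12,y12]),(z7,[y2,y6,y3,y6,
    z15,z6]),(z1,[z1])],.ref k12 k0 [(z1,[y2,y1,y2,y4,y4,z4]),(z4,[z1,z2,z7,z2,z2,y2]),(z1,[z1,z2,z1,z5,z2,y2]),(z2,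
    [y1,y2,y1,y2,z4,z2]),(z4,[z7,z2,z1,z2,z2,y2])],.ref k12 k0 [(z1,[y8,y5,y4,y8,y8,z8]),(z1,[z1,z1,z2,z1,z1,y1]),(z1,
    [z4,z4,z2,z7,z4,y4]),(z1,[y2,y2,y1,y2,z1,z2]),(z1,[z7,z4,z2,z4,z4,y4])],.ref k12 k0 [(z1,[z4,z3]),(z2,[y1,z0,z3]),
    (z1,[y2,z0,z0,z3]),(z1,[z1,z0,z0,z0,z3]),(z2,[y7,y6,y3,y6,y6,z6])]],
    .lp [(nat_lit 970),(nat_lit 1000),(nat_lit 964),(nat_lit 1012),(nat_lit 856),(nat_lit 952)] [k21,k21,k6,k6,k24,k24,k0,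
    k0,k78,k78,k30,k30] k0 [[k0,k0,k0,k0,k0,k0,k0,k0,k60],[k0,k0,k0,k0,k0,k0,k0,k48],[k0,k0,k0,k0,k18,k0,k0,k0,k0,k0,
    k54],[k0,k0,k0,k0,k0,k0,k0,k78,k0,k18],[],[k0,k0,k0,k18],[k48,k0,k78],[k0,k0,k0,k0,k0,k0,k0,k0,k0,k6,k0,k6],[k0,
    k0,k18,k0,k0,k0,k6],[k0,k60,k0,k0,k0,k0,k0,k0,k0,k0,k0,k42],[k0,k0,k0,k0,k0,k0,k6,k0,k42],[k0,k0,k0,
    k54]] (nat_lit 2880) k5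
    [[(k2,(nat_lit 931)),(k8,(nat_lit 955)),(k10,(nat_lit 961)),(k4,(nat_lit 967)),(k0,(nat_lit 970)),(k6,
    (nat_lit 997))],[(k11,(nat_lit 901)),(k9,(nat_lit 961)),(k5,(nat_lit 967)),(k1,(nat_lit 970)),(k3,(nat_lit 985)),
    (k7,(nat_lit 991))],[(k6,(nat_lit 958)),(k10,(nat_lit 976)),(k4,(nat_lit 982)),(k0,(nat_lit 985)),(k8,
    (nat_lit 988)),(k2,(nat_lit 1000))],[(k1,(nat_lit 931)),(k5,(nat_lit 982)),(k7,(nat_lit 988)),(k11,(nat_lit 994)),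
    (k3,(nat_lit 1000)),(k9,(nat_lit 1006))],[(k8,(nat_lit 892)),(k6,(nat_lit 910)),(k0,(nat_lit 967)),(k2,
    (nat_lit 982)),(k4,(nat_lit 982)),(k10,(nat_lit 1012))],[(k9,(nat_lit 910)),(k11,(nat_lit 958)),(k1,
    (nat_lit 967)),(k3,(nat_lit 982)),(k5,(nat_lit 982)),(k7,(nat_lit 988))],[(k8,(nat_lit 934)),(k10,(nat_lit 982)),
    (k2,(nat_lit 988)),(k4,(nat_lit 988)),(k0,(nat_lit 991)),(k6,(nat_lit 1012))],[(k5,(nat_lit 910)),(k9,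
    (nat_lit 934)),(k3,(nat_lit 958)),(k11,(nat_lit 988)),(k1,(nat_lit 997)),(k7,(nat_lit 1012))],[(k8,(nat_lit 850)),
    (k10,(nat_lit 898)),(k4,(nat_lit 910)),(k6,(nat_lit 934)),(k0,(nat_lit 961)),(k2,(nat_lit 1006))],[(k9,
    (nat_lit 850)),(k5,(nat_lit 892)),(k11,(nat_lit 904)),(k7,(nat_lit 934)),(k1,(nat_lit 955)),(k3,(nat_lit 988))],
    [(k0,(nat_lit 901)),(k8,(nat_lit 904)),(k10,(nat_lit 910)),(k4,(nat_lit 958)),(k6,(nat_lit 988)),(k2,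
    (nat_lit 994))],[(k9,(nat_lit 898)),(k11,(nat_lit 910)),(k1,(nat_lit 961)),(k3,(nat_lit 976)),(k7,(nat_lit 982)),
    (k5,(nat_lit 1012))]]
    [] k0
    [[k2,k0,k0,k0,k0,k1],[k1,k1,k0,k0,k0,k1],[k1,k0,k1,k1,k0,k0],[k1,k0,k1,k0,k1,k0],[k1,k0,k0,k0,k2,k0],[k1,k0,k0,k0,
    k1,k1],[k1,k0,k0,k0,k0,k2],[k0,k1,k0,k0,k2,k0],[k0,k0,k2,k0,k1,k0],[k0,k0,k1,k1,k1,k0],[k0,k0,k1,k1,k0,k1],[k0,k0,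
    k1,k0,k2,k0],[k0,k0,k1,k0,k1,k1],[k0,k0,k0,k1,k2,k0],[k0,k0,k0,k1,k1,k1],[k0,k0,k0,k0,k3,k0],[k0,k0,k0,k0,k2,k1],
    [k0,k0,k0,k0,k1,k2],[k0,k0,k0,k0,k0,k3]]
    [.ref k12 k0 [(z3,[z4,z1]),(z3,[y2,z4,z9]),(z3,[z10,y20,z0,z9]),(z3,[y5,z10,z0,z0,z9]),(z3,[y8,z7,y9,y9,y9,z9])],
    .ref k12 k0 [(z1,[z4,y1,y4]),(z1,[y2,z2,z5]),(z1,[z10,y10,y10,z3]),(z1,[y5,z5,z5,z0,z3]),(z1,[y8,z5,z5,y3,y3,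
    z3])],.ref k12 k0 [(z3,[z4,z5,z0,y4,y4]),(z3,[y2,z2,z9,z2,z2]),(z3,[z10,y10,z0,y1,y10]),(z3,[y5,z5,z0,z5,z14]),
    (z3,[y8,y1,y9,y1,y1,z9])],.ref k12 k0 [(z1,[z2,z3,z2,z0,z2,y2]),(z1,[y1,z0,z2,z0,y1,z1]),(z1,[z5,z0,z5,z3,z5,y5]),
    (z2,[y5,z0,y5,z0,z1,z5]),(z1,[y4,y3,y7,y3,y7,z7])],.ref k12 k0 [(z1,[y1,z2,y2,y2,y2,z2]),(z2,[z1,z1,z8,z2,z2,y2]),
    (z2,[y5,y5,y10,y4,y10,z10]),(z4,[z5,z5,z10,z10,z22,y10]),(z1,[z2,y1,z1,z1,z1,y1])],.ref k12 k0 [(z1,[y4,z3,y4,y4,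
    y4,z4]),(z1,[z2,z0,z5,z2,z2,y2]),(z1,[y10,z0,y10,y7,y10,z10]),(z1,[z5,z0,z5,z5,z8,y5]),(z1,[z8,y3,z5,z5,z5,y5])],
    .ref k12 k0 [(z1,[z2,z1]),(z1,[y1,z1,z3]),(z1,[z5,y5,z0,z3]),(z2,[y5,z5,z0,z0,z6]),(z1,[y4,z1,y3,y3,y3,z3])],
    .ref k12 k0 [(z3,[y2,z5,y2,y4,y4,z4]),(z3,[z1,z2,z10,z2,z2,y2]),(z3,[y5,y10,y5,y1,y10,z10]),(z6,[z5,z10,z5,z10,
    z28,y10]),(z3,[z4,y1,y5,y1,y1,z1])],.ref k12 k0 [(z1,[z1,z4,z1,y1,z1,y1]),(z2,[y1,y1,z5,z1,y1,z1]),(z2,[z5,z5,z5,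
    z1,z5,y5]),(z4,[y5,y5,y5,z5,z7,z5]),(z1,[y2,y5,y5,y1,y5,z5])],.ref k12 k0 [(z1,[y4,y1,y4,z0,z0,z4]),(z1,[z2,z2,z5,
    z0,z0,y2]),(z1,[y10,y10,y10,z3,z0,z10]),(z1,[z5,z5,z5,z0,z3,y5]),(z1,[z8,z5,z5,y3,y3,y5])],.ref k12 k0 [(z1,[z2,
    z3,z0,y2,y2]),(z1,[y1,z0,z3,z1,z1]),(z1,[z5,z0,z0,y2,y5]),(z2,[y5,z0,z0,z5,z11]),(z1,[y4,y3,y3,z1,z1,z3])],
    .ref k12 k0 [(z1,[y2,y1,y4,y2,y4,z4]),(z1,[z1,z2,z5,z1,z2,y2]),(z1,[y5,y10,y10,y2,y10,z10]),(z2,[z5,z10,z10,z5,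
    z16,y10]),(z1,[z4,z5,z5,z1,z5,y5])],.ref k12 k0 [(z1,[z4,z7,z4,z0,z4,y4]),(z1,[y2,y2,z1,z0,y2,z2]),(z1,[z10,z10,
    z10,z3,z10,y10]),(z1,[y5,y5,y5,z0,y2,z5]),(z1,[y8,y11,y11,y3,y11,z11])],.ref k12 k0 [(z7,[y4,z13,y8,y8,y4,z8]),
    (z7,[z2,z4,z25,z4,z2,y4]),(z7,[y10,y20,y20,z1,y10,z20]),(z7,[z5,z10,z10,z10,z26,y10]),(z7,[z8,y5,y5,y5,y13,z5])],
    .ref k12 k0 [(z1,[y1,z2,y1,y1,z0,z1]),(z2,[z1,z1,z7,z1,z0,y1]),(z2,[y5,y5,y5,z1,z0,z5]),(z4,[z5,z5,z5,z5,z12,y5]),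
    (z1,[z2,y1,y1,y1,y3,z1])],.ref k12 k0 [(z2,[y1,z3,y3,y3,y3,z3]),(z4,[z1,z3,z15,z3,z3,y3]),(z4,[y5,y15,y15,y3,y15,
    z15]),(z8,[z5,z15,z15,z15,z39,y15]),(z1,[z1])],.ref k12 k0 [(z5,[y4,z7,y8,y8,y8,z8]),(z5,[z2,z4,z19,z4,z4,y4]),
    (z1,[y2,y4,y4,y1,y4,z4]),(z1,[z1,z2,z2,z2,z5,y2]),(z5,[z8,z1,z1,z1,z1,y1])],.ref k12 k0 [(z1,[y2,z1,y2,y2,y2,z2]),
    (z1,[z1,z1,z4,z1,z1,y1]),(z1,[y5,y5,y5,y2,y5,z5]),(z2,[z5,z5,z5,z5,z11,y5]),(z1,[z4,z1,z1,z1,z1,y1])],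
    .ref k12 k0 [(z1,[z4,z3]),(z1,[y2,z0,z3]),(z1,[z10,z0,z0,z3]),(z1,[y5,z0,z0,z0,z3]),(z1,[y8,y3,y3,y3,y3,z3])]],
    .lp [(nat_lit 248),(nat_lit 254),(nat_lit 242),(nat_lit 266),k188,(nat_lit 236)] [k9,k9,k6,k6,k12,k12,k0,k0,k39,k39,
    k15,k15] k0 [[k0,k0,k0,k0,k0,k0,k0,k0,k30,k0,k6],[k0,k0,k0,k0,k0,k0,k0,k24],[k0,k0,k0,k0,k6,k0,k0,k0,k0,k0,k24],
    [k0,k0,k0,k0,k0,k0,k0,k36,k0,k12],[],[k0,k0,k0,k6],[k24,k0,k36],[],[k0,k0,k12],[k0,k30,k0,k0,k0,k0,k0,k0,k0,k0,k0,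
    k18],[k0,k0,k0,k0,k0,k0,k0,k0,k18],[k0,k6,k0,k24]] (nat_lit 720) k5
    [[(k2,(nat_lit 227)),(k8,(nat_lit 236)),(k0,(nat_lit 242)),(k10,(nat_lit 242)),(k4,(nat_lit 245)),(k6,
    (nat_lit 257))],[(k11,(nat_lit 212)),(k1,(nat_lit 242)),(k9,(nat_lit 242)),(k5,(nat_lit 245)),(k3,(nat_lit 251)),
    (k7,(nat_lit 257))],[(k6,(nat_lit 236)),(k4,(nat_lit 248)),(k0,(nat_lit 251)),(k8,(nat_lit 251)),(k10,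
    (nat_lit 251)),(k2,(nat_lit 254))],[(k1,(nat_lit 227)),(k5,(nat_lit 248)),(k3,(nat_lit 254)),(k7,(nat_lit 254)),
    (k9,(nat_lit 257)),(k11,(nat_lit 257))],[(k8,(nat_lit 203)),(k6,(nat_lit 218)),(k0,(nat_lit 245)),(k2,
    (nat_lit 248)),(k4,(nat_lit 248)),(k10,(nat_lit 263))],[(k9,(nat_lit 215)),(k11,(nat_lit 239)),(k1,(nat_lit 245)),
    (k3,(nat_lit 248)),(k5,(nat_lit 248)),(k7,(nat_lit 254))],[(k8,(nat_lit 227)),(k10,(nat_lit 251)),(k2,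
    (nat_lit 254)),(k4,(nat_lit 254)),(k0,(nat_lit 257)),(k6,(nat_lit 266))],[(k5,(nat_lit 218)),(k9,(nat_lit 227)),
    (k3,(nat_lit 236)),(k11,(nat_lit 251)),(k1,(nat_lit 257)),(k7,(nat_lit 266))],[(k8,k188),(k10,(nat_lit 212)),(k4,
    (nat_lit 215)),(k6,(nat_lit 227)),(k0,(nat_lit 242)),(k2,(nat_lit 257))],[(k9,k188),(k5,(nat_lit 203)),(k11,
    (nat_lit 212)),(k7,(nat_lit 227)),(k1,(nat_lit 236)),(k3,(nat_lit 251))],[(k0,(nat_lit 212)),(k8,(nat_lit 212)),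
    (k10,(nat_lit 218)),(k4,(nat_lit 239)),(k6,(nat_lit 251)),(k2,(nat_lit 257))],[(k9,(nat_lit 212)),(k11,
    (nat_lit 218)),(k1,(nat_lit 242)),(k3,(nat_lit 251)),(k7,(nat_lit 251)),(k5,(nat_lit 263))]]
    [] k0
    [[k2,k0,k0,k0,k0,k1],[k1,k1,k0,k0,k0,k1],[k1,k0,k1,k0,k1,k0],[k1,k0,k0,k0,k2,k0],[k1,k0,k0,k0,k1,k1],[k1,k0,k0,k0,
    k0,k2],[k0,k1,k1,k0,k1,k0],[k0,k1,k0,k0,k2,k0],[k0,k0,k2,k0,k1,k0],[k0,k0,k1,k1,k1,k0],[k0,k0,k1,k1,k0,k1],[k0,k0,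
    k1,k0,k2,k0],[k0,k0,k1,k0,k1,k1],[k0,k0,k0,k1,k2,k0],[k0,k0,k0,k1,k1,k1],[k0,k0,k0,k0,k3,k0],[k0,k0,k0,k0,k2,k1],
    [k0,k0,k0,k0,k1,k2],[k0,k0,k0,k0,k0,k3]]
    [.ref k12 k0 [(z3,[z4,z1]),(z3,[y2,z4,z9]),(z3,[y5,z10,z0,z9]),(z3,[z10,y20,z0,z0,z9]),(z3,[y8,z7,y9,y9,y9,z9])],
    .ref k12 k0 [(z1,[z4,y1,y4]),(z1,[y2,z2,z5]),(z1,[y5,z5,z5,z3]),(z1,[z10,y10,y10,z0,z3]),(z1,[y8,z5,z5,y3,y3,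
    z3])],.ref k12 k0 [(z3,[y4,z9,y4,z0,y4,z4]),(z3,[z2,z0,z11,z0,z2,y2]),(z3,[z5,z0,z5,z9,z5,y5]),(z3,[y10,z0,y10,z0,
    y1,z10]),(z3,[z8,y9,y1,y9,y1,z1])],.ref k12 k0 [(z1,[y1,z2,y2,y2,y2,z2]),(z2,[z1,z1,z8,z2,z2,y2]),(z4,[z5,z5,z10,
    z22,z10,y10]),(z2,[y5,y5,y10,y10,y4,z10]),(z1,[z2,y1,z1,z1,z1,y1])],.ref k12 k0 [(z1,[y4,z3,y4,y4,y4,z4]),(z1,[z2,
    z0,z5,z2,z2,y2]),(z1,[z5,z0,z5,z8,z5,y5]),(z1,[y10,z0,y10,y10,y7,z10]),(z1,[z8,y3,z5,z5,z5,y5])],.ref k12 k0 [(z1,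
    [z2,z1]),(z1,[y1,z1,z3]),(z2,[y5,z5,z0,z6]),(z1,[z5,y5,z0,z0,z3]),(z1,[y4,z1,y3,y3,y3,z3])],.ref k12 k0 [(z5,[y4,
    z11,z0,z0,y4,z4]),(z5,[z2,z2,z15,z0,z2,y2]),(z1,[z1,z1,z0,z3,z1,y1]),(z1,[y2,y2,z0,z0,z1,z2]),(z5,[z8,y7,y15,y15,
    y7,z7])],.ref k12 k0 [(z3,[y2,z5,y2,y4,y4,z4]),(z3,[z1,z2,z10,z2,z2,y2]),(z6,[z5,z10,z5,z28,z10,y10]),(z3,[y5,y10,
    y5,y10,y1,z10]),(z3,[z4,y1,y5,y1,y1,z1])],.ref k12 k0 [(z3,[y2,z7,y2,z2,y2,z2]),(z3,[z1,z1,z10,y1,z1,y1]),(z6,[z5,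
    z5,z5,z13,z5,y5]),(z3,[y5,y5,y5,z5,z4,z5]),(z3,[z4,y5,y5,y13,y5,z5])],.ref k12 k0 [(z1,[y4,y1,y4,z0,z0,z4]),(z1,
    [z2,z2,z5,z0,z0,y2]),(z1,[z5,z5,z5,z3,z0,y5]),(z1,[y10,y10,y10,z0,z3,z10]),(z1,[z8,z5,z5,y3,y3,y5])],
    .ref k12 k0 [(z1,[z2,z3,z0,y2,y2]),(z1,[y1,z0,z3,z1,z1]),(z2,[y5,z0,z0,z11,z5]),(z1,[z5,z0,z0,y5,y2]),(z1,[y4,y3,
    y3,z1,z1,z3])],.ref k12 k0 [(z7,[y4,z13,y8,y4,y8,z8]),(z7,[z2,z4,z25,z2,z4,y4]),(z7,[z5,z10,z10,z26,z10,y10]),(z7,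
    [y10,y20,y20,y10,z1,z20]),(z7,[z8,y5,y5,y13,y5,z5])],.ref k12 k0 [(z1,[y1,z2,y1,z0,y1,z1]),(z2,[z1,z1,z7,z0,z1,
    y1]),(z4,[z5,z5,z5,z12,z5,y5]),(z2,[y5,y5,y5,z0,z1,z5]),(z1,[z2,y1,y1,y3,y1,z1])],.ref k12 k0 [(z1,[y2,y1,y4,y4,
    y2,z4]),(z1,[z1,z2,z5,z2,z1,y2]),(z2,[z5,z10,z10,z16,z5,y10]),(z1,[y5,y10,y10,y10,y2,z10]),(z1,[z4,z5,z5,z5,z1,
    y5])],.ref k12 k0 [(z1,[z4,z7,z4,z4,z0,y4]),(z1,[y2,y2,z1,y2,z0,z2]),(z1,[y5,y5,y5,y2,z0,z5]),(z1,[z10,z10,z10,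
    z10,z3,y10]),(z1,[y8,y11,y11,y11,y3,z11])],.ref k12 k0 [(z2,[y1,z3,y3,y3,y3,z3]),(z4,[z1,z3,z15,z3,z3,y3]),(z8,
    [z5,z15,z15,z39,z15,y15]),(z4,[y5,y15,y15,y15,y3,z15]),(z1,[z1])],.ref k12 k0 [(z5,[y4,z7,y8,y8,y8,z8]),(z5,[z2,
    z4,z19,z4,z4,y4]),(z1,[z1,z2,z2,z5,z2,y2]),(z1,[y2,y4,y4,y4,y1,z4]),(z5,[z8,z1,z1,z1,z1,y1])],.ref k12 k0 [(z1,
    [y2,z1,y2,y2,y2,z2]),(z1,[z1,z1,z4,z1,z1,y1]),(z2,[z5,z5,z5,z11,z5,y5]),(z1,[y5,y5,y5,y5,y2,z5]),(z1,[z4,z1,z1,z1,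
    z1,y1])],.ref k12 k0 [(z1,[z4,z3]),(z1,[y2,z0,z3]),(z1,[y5,z0,z0,z3]),(z1,[z10,z0,z0,z0,z3]),(z1,[y8,y3,y3,y3,y3,
    z3])]],
    .lp [k168,k170,k154,k164,k140,k162] [k1,k1,k0,k0,k8,k8,k3,k3,k15,k15,k4,k4] k0 [[k0,k0,k0,k0,k0,k0,k0,k0,k4,k0,k8],
    [k0,k0,k0,k0,k0,k0,k0,k8],[k0,k0,k0,k0,k8,k0,k0,k0,k0,k0,k10],[k0,k0,k0,k0,k0,k0,k0,k0,k0,k4],[k0,k0,k0,k0,k0,k0,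
    k12],[k0,k0,k0,k8],[k8],[k0,k0,k0,k0,k0,k12],[k0,k0,k4],[k0,k4,k0,k0,k0,k0,k0,k0,k0,k0,k0,k8],[k0,k0,k0,k0,k0,k0,
    k0,k0,k8],[k0,k8,k0,k10]] (nat_lit 480) k5
    [[(k2,k159),(k0,k160),(k4,k161),(k8,k162),(k10,k165),(k6,k166)],[(k1,k160),(k5,k161),(k11,k161),(k9,k162),(k7,
    k166),(k3,k169)],[(k6,k159),(k8,k159),(k4,k162),(k0,k169),(k2,k170),(k10,k174)],[(k9,k155),(k1,k159),(k7,k159),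
    (k5,k162),(k3,k170),(k11,k170)],[(k8,k143),(k6,k159),(k0,k161),(k2,k162),(k4,k162),(k10,k168)],[(k9,k135),(k11,
    k158),(k7,k159),(k1,k161),(k3,k162),(k5,k162)],[(k8,k152),(k2,k159),(k4,k159),(k10,k163),(k0,k166),(k6,k176)],
    [(k9,k152),(k3,k159),(k5,k159),(k11,k163),(k1,k166),(k7,k176)],[(k4,k135),(k8,k140),(k10,k151),(k6,k152),(k2,
    k155),(k0,k162)],[(k9,k140),(k5,k143),(k11,k151),(k7,k152),(k3,k159),(k1,k162)],[(k8,k151),(k10,k154),(k4,k158),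
    (k0,k161),(k6,k163),(k2,k170)],[(k9,k151),(k11,k154),(k7,k163),(k1,k165),(k5,k168),(k3,k174)]]
    [] k0
    [[k1,k0,k1,k0,k1,k0],[k1,k0,k0,k0,k2,k0],[k1,k0,k0,k0,k1,k1],[k0,k1,k1,k0,k1,k0],[k0,k1,k0,k1,k1,k0],[k0,k1,k0,k0,
    k2,k0],[k0,k0,k2,k0,k1,k0],[k0,k0,k1,k1,k1,k0],[k0,k0,k1,k0,k2,k0],[k0,k0,k1,k0,k1,k1],[k0,k0,k0,k1,k2,k0],[k0,k0,
    k0,k1,k1,k1],[k0,k0,k0,k0,k3,k0],[k0,k0,k0,k0,k2,k1],[k0,k0,k0,k0,k1,k2],[k0,k0,k0,k0,k0,k3]]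
    [.ref k12 k0 [(z1,[y3,z3,y3,z0,y1,z3]),(z2,[z3,z0,z9,z0,z1,y3]),(z1,[z0,z0,z0,z1]),(z4,[y15,z0,y15,z0,y1,z15]),
    (z1,[z6,y3,z3,y1,z1,y3])],.ref k12 k0 [(z3,[y3,z6,y6,y2,y2,z6]),(z6,[z3,z3,z24,z2,z2,y6]),(z1,[z0,z0,z0,z1]),(z12,
    [y15,y15,y30,y10,z2,z30]),(z3,[z6,y3,z3,z1,z1,y3])],.ref k12 k0 [(z3,[y12,z9,y12,y4,y4,z12]),(z3,[z6,z0,z15,z2,z2,
    y6]),(z1,[z0,z0,z0,z1]),(z3,[y15,z0,y15,y5,y2,z15]),(z3,[z24,y9,z15,z5,z5,y15])],.ref k12 k0 [(z5,[y6,z9,z0,z0,y2,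
    z6]),(z5,[z3,z3,z15,z0,z1,y3]),(z1,[z0,z0,z0,z1]),(z2,[y3,y3,z0,z0,z1,z3]),(z5,[z12,y3,y15,y5,y1,z3])],
    .ref k12 k0 [(z5,[y12,z3,z0,y4,z0,z12]),(z5,[z6,z6,z15,z2,z0,y6]),(z1,[z0,z0,z0,z1]),(z1,[y3,y3,z0,y1,z1,z3]),(z5,
    [z24,z9,y15,z3,y5,y9])],.ref k12 k0 [(z9,[y6,z15,y6,y4,y4,z12]),(z9,[z3,z6,z30,z2,z2,y6]),(z1,[z0,z0,z0,z1]),(z18,
    [y15,y30,y15,y10,z8,z30]),(z9,[z12,y3,y15,y1,y1,z3])],.ref k12 k0 [(z2,[y3,z3,y3,z1,y1,z3]),(z4,[z3,z3,z15,y1,z1,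
    y3]),(z1,[z0,z0,z0,z1]),(z8,[y15,y15,y15,z5,z3,z15]),(z1,[z3,z0,z0,y2])],.ref k12 k0 [(z1,[y4,y1,y4,z0,z0,z4]),
    (z1,[z2,z2,z5,z0,z0,y2]),(z1,[z0,z0,z0,z1]),(z1,[y5,y5,y5,z0,z1,z5]),(z1,[z8,z5,z5,y1,y1,y5])],.ref k12 k0 [(z4,
    [y3,z6,y6,y1,y2,z6]),(z8,[z3,z6,z30,z1,z2,y6]),(z1,[z0,z0,z0,z1]),(z16,[y15,y30,y30,y5,z6,z30]),(z2,[z3,z0,z0,
    y1])],.ref k12 k0 [(z7,[y12,z9,y12,z0,y4,z12]),(z7,[z6,z6,z27,z0,z2,y6]),(z1,[z0,z0,z0,z1]),(z7,[y15,y15,y15,z0,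
    z2,z15]),(z7,[z24,z3,z3,y7,z1,y3])],.ref k12 k0 [(z11,[y12,z9,y24,y8,y4,z24]),(z11,[z6,z12,z45,z4,z2,y12]),(z1,
    [z0,z0,z0,z1]),(z11,[y15,y30,y30,y10,z6,z30]),(z11,[z24,z15,z15,z5,y3,y15])],.ref k12 k0 [(z1,[y6,y3,y6,y2,z0,
    z6]),(z1,[z3,z3,z6,z1,z0,y3]),(z1,[z0,z0,z0,z1]),(z2,[y15,y15,y15,y5,z2,z15]),(z1,[z12,z9,z9,z3,y1,y9])],
    .ref k12 k0 [(z2,[y1,z3,y3,y1,y1,z3]),(z4,[z1,z3,z15,z1,z1,y3]),(z1,[z0,z0,z0,z1]),(z8,[y5,y15,y15,y5,z3,z15]),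
    (z1,[z1])],.ref k12 k0 [(z15,[y12,z21,y24,y8,y8,z24]),(z15,[z6,z12,z57,z4,z4,y12]),(z1,[z0,z0,z0,z1]),(z3,[y3,y6,
    y6,y2,z1,z6]),(z15,[z24,z3,z3,z1,z1,y3])],.ref k12 k0 [(z3,[y6,z3,y6,y2,y2,z6]),(z3,[z3,z3,z12,z1,z1,y3]),(z1,[z0,
    z0,z0,z1]),(z6,[y15,y15,y15,y5,z1,z15]),(z3,[z12,z3,z3,z1,z1,y3])],.ref k12 k0 [(z1,[z4,z3]),(z1,[y2,z0,z3]),(z1,
    [z0,z0,z0,z1]),(z1,[z5,z0,z0,z0,z1]),(z1,[y8,y3,y3,y1,y1,z3])]],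
    .lp [k168,k170,k154,k164,k140,k162] [k1,k1,k0,k0,k8,k8,k3,k3,k15,k15,k4,k4] k0 [[k0,k0,k0,k0,k0,k0,k0,k0,k4,k0,k8],
    [k0,k0,k0,k0,k0,k0,k0,k8],[k0,k0,k0,k0,k8,k0,k0,k0,k0,k0,k10],[k0,k0,k0,k0,k0,k0,k0,k0,k0,k4],[k0,k0,k0,k0,k0,k0,
    k12],[k0,k0,k0,k8],[k8],[k0,k0,k0,k0,k0,k12],[k0,k0,k4],[k0,k4,k0,k0,k0,k0,k0,k0,k0,k0,k0,k8],[k0,k0,k0,k0,k0,k0,
    k0,k0,k8],[k0,k8,k0,k10]] (nat_lit 480) k5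
    [[(k2,k159),(k0,k160),(k4,k161),(k8,k162),(k10,k165),(k6,k166)],[(k1,k160),(k5,k161),(k11,k161),(k9,k162),(k7,
    k166),(k3,k169)],[(k6,k159),(k8,k159),(k4,k162),(k0,k169),(k2,k170),(k10,k174)],[(k9,k155),(k1,k159),(k7,k159),
    (k5,k162),(k3,k170),(k11,k170)],[(k8,k143),(k6,k159),(k0,k161),(k2,k162),(k4,k162),(k10,k168)],[(k9,k135),(k11,
    k158),(k7,k159),(k1,k161),(k3,k162),(k5,k162)],[(k8,k152),(k2,k159),(k4,k159),(k10,k163),(k0,k166),(k6,k176)],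
    [(k9,k152),(k3,k159),(k5,k159),(k11,k163),(k1,k166),(k7,k176)],[(k4,k135),(k8,k140),(k10,k151),(k6,k152),(k2,
    k155),(k0,k162)],[(k9,k140),(k5,k143),(k11,k151),(k7,k152),(k3,k159),(k1,k162)],[(k8,k151),(k10,k154),(k4,k158),
    (k0,k161),(k6,k163),(k2,k170)],[(k9,k151),(k11,k154),(k7,k163),(k1,k165),(k5,k168),(k3,k174)]]
    [] k0
    [[k1,k0,k1,k0,k1,k0],[k1,k0,k0,k0,k2,k0],[k1,k0,k0,k0,k1,k1],[k0,k1,k1,k0,k1,k0],[k0,k1,k0,k1,k1,k0],[k0,k1,k0,k0,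
    k2,k0],[k0,k0,k2,k0,k1,k0],[k0,k0,k1,k1,k1,k0],[k0,k0,k1,k0,k2,k0],[k0,k0,k1,k0,k1,k1],[k0,k0,k0,k1,k2,k0],[k0,k0,
    k0,k1,k1,k1],[k0,k0,k0,k0,k3,k0],[k0,k0,k0,k0,k2,k1],[k0,k0,k0,k0,k1,k2],[k0,k0,k0,k0,k0,k3]]
    [.ref k12 k0 [(z1,[z12,z3,z12,z0,z4,y12]),(z1,[y6,z0,y3,z0,y2,z6]),(z1,[z15,z0,z15,z1,z5,y15]),(z1,[z0,z0,z0,z0,
    z1]),(z1,[y24,y3,y27,y1,y9,z27])],.ref k12 k0 [(z3,[y3,z6,y6,y2,y2,z6]),(z6,[z3,z3,z24,z2,z2,y6]),(z12,[y15,y15,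
    y30,z2,y10,z30]),(z1,[z0,z0,z0,z0,z1]),(z3,[z6,y3,z3,z1,z1,y3])],.ref k12 k0 [(z3,[y12,z9,y12,y4,y4,z12]),(z3,[z6,
    z0,z15,z2,z2,y6]),(z3,[y15,z0,y15,y2,y5,z15]),(z1,[z0,z0,z0,z0,z1]),(z3,[z24,y9,z15,z5,z5,y15])],.ref k12 k0 [(z5,
    [y12,z3,z0,z0,y4,z12]),(z5,[z6,z6,z15,z0,z2,y6]),(z1,[y3,y3,z0,z1,y1,z3]),(z1,[z0,z0,z0,z0,z1]),(z5,[z24,z9,y15,
    y5,z3,y9])],.ref k12 k0 [(z5,[y6,z9,z0,y2,z0,z6]),(z5,[z3,z3,z15,z1,z0,y3]),(z2,[y3,y3,z0,z1,z0,z3]),(z1,[z0,z0,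
    z0,z0,z1]),(z5,[z12,y3,y15,y1,y5,z3])],.ref k12 k0 [(z9,[y6,z15,y6,y4,y4,z12]),(z9,[z3,z6,z30,z2,z2,y6]),(z18,
    [y15,y30,y15,z8,y10,z30]),(z1,[z0,z0,z0,z0,z1]),(z9,[z12,y3,y15,y1,y1,z3])],.ref k12 k0 [(z1,[z6,z9,z6,y2,z2,y6]),
    (z1,[y3,y3,z0,z1,y1,z3]),(z2,[z15,z15,z15,y3,z5,y15]),(z1,[z0,z0,z0,z0,z1]),(z1,[y12,y15,y15,z3,y5,z15])],
    .ref k12 k0 [(z1,[y4,y1,y4,z0,z0,z4]),(z1,[z2,z2,z5,z0,z0,y2]),(z1,[y5,y5,y5,z1,z0,z5]),(z1,[z0,z0,z0,z0,z1]),(z1,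
    [z8,z5,z5,y1,y1,y5])],.ref k12 k0 [(z11,[y12,z9,y24,y4,y8,z24]),(z11,[z6,z12,z45,z2,z4,y12]),(z11,[y15,y30,y30,z6,
    y10,z30]),(z1,[z0,z0,z0,z0,z1]),(z11,[z24,z15,z15,y3,z5,y15])],.ref k12 k0 [(z1,[y6,y3,y6,z0,y2,z6]),(z1,[z3,z3,
    z6,z0,z1,y3]),(z2,[y15,y15,y15,z2,y5,z15]),(z1,[z0,z0,z0,z0,z1]),(z1,[z12,z9,z9,y1,z3,y9])],.ref k12 k0 [(z4,[y3,
    z6,y6,y2,y1,z6]),(z8,[z3,z6,z30,z2,z1,y6]),(z16,[y15,y30,y30,z6,y5,z30]),(z1,[z0,z0,z0,z0,z1]),(z2,[z3,z0,z0,z0,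
    y1])],.ref k12 k0 [(z7,[y12,z9,y12,y4,z0,z12]),(z7,[z6,z6,z27,z2,z0,y6]),(z7,[y15,y15,y15,z2,z0,z15]),(z1,[z0,z0,
    z0,z0,z1]),(z7,[z24,z3,z3,z1,y7,y3])],.ref k12 k0 [(z2,[y1,z3,y3,y1,y1,z3]),(z4,[z1,z3,z15,z1,z1,y3]),(z8,[y5,y15,
    y15,z3,y5,z15]),(z1,[z0,z0,z0,z0,z1]),(z1,[z1])],.ref k12 k0 [(z15,[y12,z21,y24,y8,y8,z24]),(z15,[z6,z12,z57,z4,
    z4,y12]),(z3,[y3,y6,y6,z1,y2,z6]),(z1,[z0,z0,z0,z0,z1]),(z15,[z24,z3,z3,z1,z1,y3])],.ref k12 k0 [(z3,[y6,z3,y6,y2,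
    y2,z6]),(z3,[z3,z3,z12,z1,z1,y3]),(z6,[y15,y15,y15,z1,y5,z15]),(z1,[z0,z0,z0,z0,z1]),(z3,[z12,z3,z3,z1,z1,y3])],
    .ref k12 k0 [(z1,[z4,z3]),(z1,[y2,z0,z3]),(z1,[z5,z0,z0,z1]),(z1,[z0,z0,z0,z0,z1]),(z1,[y8,y3,y3,y1,y1,z3])]]]

noncomputable def cT6_3_n2_1 : List TN :=
  [.lp [k168,k170,k154,k164,k140,k162] [k1,k1,k0,k0,k8,k8,k3,k3,k15,k15,k4,k4] k0 [[k0,k0,k0,k0,k0,k0,k0,k0,k4,k0,k8],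
    [k0,k0,k0,k0,k0,k0,k0,k8],[k0,k0,k0,k0,k8,k0,k0,k0,k0,k0,k10],[k0,k0,k0,k0,k0,k0,k0,k0,k0,k4],[k0,k0,k0,k0,k0,k0,
    k12],[k0,k0,k0,k8],[k8],[k0,k0,k0,k0,k0,k12],[k0,k0,k4],[k0,k4,k0,k0,k0,k0,k0,k0,k0,k0,k0,k8],[k0,k0,k0,k0,k0,k0,
    k0,k0,k8],[k0,k8,k0,k10]] (nat_lit 480) k5
    [[(k2,k159),(k0,k160),(k4,k161),(k8,k162),(k10,k165),(k6,k166)],[(k1,k160),(k5,k161),(k11,k161),(k9,k162),(k7,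
    k166),(k3,k169)],[(k6,k159),(k8,k159),(k4,k162),(k0,k169),(k2,k170),(k10,k174)],[(k9,k155),(k1,k159),(k7,k159),
    (k5,k162),(k3,k170),(k11,k170)],[(k8,k143),(k6,k159),(k0,k161),(k2,k162),(k4,k162),(k10,k168)],[(k9,k135),(k11,
    k158),(k7,k159),(k1,k161),(k3,k162),(k5,k162)],[(k8,k152),(k2,k159),(k4,k159),(k10,k163),(k0,k166),(k6,k176)],
    [(k9,k152),(k3,k159),(k5,k159),(k11,k163),(k1,k166),(k7,k176)],[(k4,k135),(k8,k140),(k10,k151),(k6,k152),(k2,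
    k155),(k0,k162)],[(k9,k140),(k5,k143),(k11,k151),(k7,k152),(k3,k159),(k1,k162)],[(k8,k151),(k10,k154),(k4,k158),
    (k0,k161),(k6,k163),(k2,k170)],[(k9,k151),(k11,k154),(k7,k163),(k1,k165),(k5,k168),(k3,k174)]]
    [] k0
    [[k1,k0,k1,k0,k1,k0],[k1,k0,k0,k0,k2,k0],[k1,k0,k0,k0,k1,k1],[k0,k1,k1,k0,k1,k0],[k0,k1,k0,k1,k1,k0],[k0,k1,k0,k0,
    k2,k0],[k0,k0,k2,k0,k1,k0],[k0,k0,k1,k1,k1,k0],[k0,k0,k1,k0,k2,k0],[k0,k0,k1,k0,k1,k1],[k0,k0,k0,k1,k2,k0],[k0,k0,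
    k0,k1,k1,k1],[k0,k0,k0,k0,k3,k0],[k0,k0,k0,k0,k2,k1],[k0,k0,k0,k0,k1,k2],[k0,k0,k0,k0,k0,k3]]
    [.ref k12 k0 [(z1,[y16,z3,y16,z0,y16,z16]),(z1,[z2,z0,z5,z0,z2,y2]),(z1,[z8,z0,z8,z3,z8,y8]),(z1,[y4,z0,y4,z0,y1,
    z4]),(z1,[z11,y3,z8,y3,z8,y8])],.ref k12 k0 [(z1,[y8,y5,y16,y16,y16,z16]),(z1,[z1,z1,z5,z2,z2,y2]),(z1,[z4,z4,z8,
    z11,z8,y8]),(z1,[y2,y2,y4,y4,y1,z4]),(z2,[z11,z5,z16,z16,z16,y16])],.ref k12 k0 [(z1,[z8,z3,z8,z8,z8,y8]),(z1,[y1,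
    z0,z2,y1,y1,z1]),(z1,[y4,z0,y4,y1,y4,z4]),(z1,[z2,z0,z2,z2,z5,y2]),(z2,[y11,y6,y17,y17,y17,z17])],
    .ref k12 k0 [(z7,[y16,z5,z0,z0,y16,z16]),(z7,[z2,z2,z21,z0,z2,y2]),(z7,[z8,z8,z0,z21,z8,y8]),(z7,[y4,y4,z0,z0,z17,
    z4]),(z7,[z11,y10,y21,y21,y10,z10])],.ref k12 k0 [(z3,[y16,y7,z0,y16,z0,z16]),(z3,[z2,z2,z9,z2,z0,y2]),(z3,[z8,z8,
    z0,z17,z0,y8]),(z3,[y4,y4,z0,y4,z9,z4]),(z3,[z11,z2,y9,z2,y9,y2])],.ref k12 k0 [(z1,[y2,y1,y2,y4,y4,z4]),(z4,[z1,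
    z2,z13,z2,z2,y2]),(z1,[z1,z2,z1,z5,z2,y2]),(z2,[y1,y2,y1,y2,z4,z2]),(z8,[z11,y2,y13,y2,y2,z2])],.ref k12 k0 [(z9,
    [y16,z11,y16,z16,y16,z16]),(z9,[z2,z2,z29,y2,z2,y2]),(z9,[z8,z8,z8,z19,z8,y8]),(z9,[y4,y4,y4,z4,z23,z4]),(z9,[z11,
    y16,y16,y38,y16,z16])],.ref k12 k0 [(z5,[y16,y1,y16,z0,z0,z16]),(z5,[z2,z2,z17,z0,z0,y2]),(z5,[z8,z8,z8,z15,z0,
    y8]),(z5,[y4,y4,y4,z0,z15,z4]),(z5,[z11,y4,y4,y15,y15,z4])],.ref k12 k0 [(z5,[y8,y1,y16,y8,y16,z16]),(z5,[z1,z2,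
    z17,z1,z2,y2]),(z5,[z4,z8,z8,z19,z8,y8]),(z5,[y2,y4,y4,y2,z11,z4]),(z10,[z11,y8,y8,y19,y8,z8])],.ref k12 k0 [(z3,
    [y8,z1,y8,z0,y8,z8]),(z3,[z1,z1,z10,z0,z1,y1]),(z3,[z4,z4,z4,z9,z4,y4]),(z3,[y2,y2,y2,z0,z7,z2]),(z6,[z11,y7,y7,
    y18,y7,z7])],.ref k12 k0 [(z3,[y8,y7,y16,y16,y8,z16]),(z3,[z1,z2,z11,z2,z1,y2]),(z3,[z4,z8,z8,z17,z4,y8]),(z3,[y2,
    y4,y4,y4,z7,z4]),(z6,[z11,z4,z4,z4,y7,y4])],.ref k12 k0 [(z1,[y8,y5,y8,y8,z0,z8]),(z1,[z1,z1,z4,z1,z0,y1]),(z1,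
    [z4,z4,z4,z7,z0,y4]),(z1,[y2,y2,y2,y2,z3,z2]),(z2,[z11,z5,z5,z5,y6,y5])],.ref k12 k0 [(z11,[y16,y15,y48,y48,y48,
    z48]),(z11,[z2,z6,z39,z6,z6,y6]),(z11,[z8,z24,z24,z57,z24,y24]),(z11,[y4,y12,y12,y12,z21,z12]),(z1,[z1])],
    .ref k12 k0 [(z7,[y16,y11,y32,y32,y32,z32]),(z7,[z2,z4,z25,z4,z4,y4]),(z7,[z8,z16,z16,z37,z16,y16]),(z7,[y4,y8,y8,
    y8,z13,z8]),(z7,[z11,z1,z1,z1,z1,y1])],.ref k12 k0 [(z3,[y16,y7,y16,y16,y16,z16]),(z3,[z2,z2,z11,z2,z2,y2]),(z3,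
    [z8,z8,z8,z17,z8,y8]),(z3,[y4,y4,y4,y4,z5,z4]),(z3,[z11,z2,z2,z2,z2,y2])],.ref k12 k0 [(z1,[z16,z3]),(z1,[y2,z0,
    z3]),(z1,[y8,z0,z0,z3]),(z1,[z4,z0,z0,z0,z3]),(z1,[y11,y3,y3,y3,y3,z3])]],
    .lp [(nat_lit 628),(nat_lit 650),(nat_lit 656),(nat_lit 646),(nat_lit 656),(nat_lit 600)] [k14,k14,k3,k3,k0,k0,k5,k5,
    k0,k0,k28,k28] k0 [[k0,k0,k0,k0,k0,k0,k42,k0,k22],[k0,k0,k0,k0,k0,k6,k0,k0,k0,k0,k0,k12],[k0,k0,k0,k0,k0,k0,k0,k0,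
    k8,k0,k8],[k0,k0,k0,k0,k0,k0,k0,k26],[k6],[k0,k0,k0,k0,k0,k0,k0,k0,k0,k0,k0,k10],[k0,k0,k26],[k0,k42,k0,k0,k0,k0,
    k0,k0,k0,k38],[k0,k0,k0,k0,k0,k0,k38,k0,k0,k0,k114],[k0,k22,k0,k8],[k12,k0,k0,k0,k10],[k0,k0,k0,k8,k0,k0,k0,k0,k0,
    k114]] (nat_lit 1920) k5
    [[(k8,(nat_lit 528)),(k10,(nat_lit 614)),(k2,(nat_lit 631)),(k6,(nat_lit 637)),(k0,(nat_lit 640)),(k4,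
    (nat_lit 652))],[(k11,(nat_lit 592)),(k9,(nat_lit 600)),(k3,(nat_lit 639)),(k1,(nat_lit 640)),(k5,(nat_lit 642)),
    (k7,(nat_lit 643))],[(k10,(nat_lit 613)),(k0,(nat_lit 639)),(k4,(nat_lit 647)),(k2,(nat_lit 650)),(k8,
    (nat_lit 675)),(k6,(nat_lit 690))],[(k11,(nat_lit 617)),(k1,(nat_lit 631)),(k7,(nat_lit 648)),(k3,(nat_lit 650)),
    (k5,(nat_lit 653)),(k9,(nat_lit 679))],[(k6,(nat_lit 625)),(k10,(nat_lit 636)),(k0,(nat_lit 642)),(k2,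
    (nat_lit 653)),(k4,(nat_lit 656)),(k8,(nat_lit 664))],[(k11,(nat_lit 628)),(k3,(nat_lit 647)),(k7,(nat_lit 651)),
    (k1,(nat_lit 652)),(k5,(nat_lit 656)),(k9,(nat_lit 656))],[(k10,(nat_lit 613)),(k0,(nat_lit 643)),(k6,
    (nat_lit 646)),(k2,(nat_lit 648)),(k4,(nat_lit 651)),(k8,(nat_lit 651))],[(k5,(nat_lit 625)),(k1,(nat_lit 637)),
    (k7,(nat_lit 646)),(k9,(nat_lit 651)),(k11,(nat_lit 661)),(k3,(nat_lit 690))],[(k0,(nat_lit 600)),(k8,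
    (nat_lit 618)),(k10,(nat_lit 628)),(k6,(nat_lit 651)),(k4,(nat_lit 656)),(k2,(nat_lit 679))],[(k1,(nat_lit 528)),
    (k9,(nat_lit 618)),(k11,(nat_lit 628)),(k7,(nat_lit 651)),(k5,(nat_lit 664)),(k3,(nat_lit 675))],[(k0,
    (nat_lit 592)),(k2,(nat_lit 617)),(k4,(nat_lit 628)),(k8,(nat_lit 628)),(k6,(nat_lit 661)),(k10,(nat_lit 714))],
    [(k3,(nat_lit 613)),(k7,(nat_lit 613)),(k1,(nat_lit 614)),(k9,(nat_lit 628)),(k5,(nat_lit 636)),(k11,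
    (nat_lit 714))]]
    [] k0
    [[k2,k1,k0,k0,k0,k0],[k2,k0,k0,k0,k1,k0],[k2,k0,k0,k0,k0,k1],[k1,k1,k0,k0,k1,k0],[k1,k1,k0,k0,k0,k1],[k1,k0,k1,k0,
    k1,k0],[k1,k0,k1,k0,k0,k1],[k1,k0,k0,k1,k1,k0],[k1,k0,k0,k1,k0,k1],[k1,k0,k0,k0,k2,k0],[k1,k0,k0,k0,k1,k1],[k0,k2,
    k0,k0,k0,k1],[k0,k1,k1,k0,k0,k1],[k0,k0,k1,k1,k0,k1],[k0,k0,k0,k1,k1,k1],[k0,k0,k0,k0,k3,k0],[k0,k0,k0,k0,k2,k1]]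
    [.ref k12 k0 [(z2,[z11,y8,y11]),(z1,[y8,z8,z11]),(z1,[z4,y4,y4,z3]),(z2,[y1,z1,z1,z0,z3]),(z2,[y4,z1,y2,y6,y3,
    z6])],.ref k12 k0 [(z12,[z22,z7,z22,z22,z11,y22]),(z3,[y8,z4,z1,y8,y4,z8]),(z3,[z4,y2,z4,z13,z2,y4]),(z12,[y2,z1,
    y2,y2,z17,z2]),(z6,[y4,y7,y22,y22,y11,z22])],.ref k12 k0 [(z8,[z11,z1]),(z1,[y2,z2,z3]),(z1,[z1,y1,z0,z3]),(z8,
    [y1,z1,z0,z0,z12]),(z2,[y1,y2,y6,y6,y3,z6])],.ref k12 k0 [(z6,[y22,z9,z0,y22,y11,z22]),(z3,[z16,z0,z9,z16,z8,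
    y16]),(z3,[y8,z0,z0,z1,y4,z8]),(z3,[z1,z0,z0,z1,z5,y1]),(z6,[z8,y9,y18,y10,y5,z10])],.ref k12 k0 [(z1,[y11,z7,
    z11]),(z1,[z16,y8,y13]),(z1,[y8,z4,z8,z3]),(z2,[z2,y1,y2,z0,z3]),(z2,[z8,y7,y14,y6,y3,z6])],.ref k12 k0 [(z10,
    [z22,z15,z22,z0,z11,y22]),(z5,[y16,z0,y1,z0,y8,z16]),(z5,[z8,z0,z8,z15,z4,y8]),(z5,[y1,z0,y1,z0,z7,z1]),(z10,[y8,
    y15,y38,y30,y19,z38])],.ref k12 k0 [(z7,[z11,z5,z0,y11]),(z7,[y16,z8,z21,z16]),(z7,[z8,y4,z0,z13]),(z14,[y2,z1,z0,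
    z2,z21]),(z14,[y8,y17,y42,y34,y21,z42])],.ref k12 k0 [(z2,[z11,z3,z11,z11,z0,y11]),(z1,[y8,z0,y5,y8,z0,z8]),(z1,
    [z4,z0,z4,z7,z0,y4]),(z2,[y1,z0,y1,y1,z3,z1]),(z2,[y4,y3,y10,y10,y3,z10])],.ref k12 k0 [(z8,[z22,z1,z0,z0,y11]),
    (z1,[y4,z2,z3,z0,z2]),(z1,[z2,y1,z0,z3,y1]),(z8,[y2,z1,z0,z0,z13]),(z1,[y1,y1,y3,y3,y1,z3])],.ref k12 k0 [(z1,
    [z11,z7,z22,z22,z11,y22]),(z1,[y16,y8,y29,y32,y16,z32]),(z1,[z8,z4,z16,z19,z8,y16]),(z2,[y2,y1,y4,y4,z1,z4]),(z2,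
    [y8,y7,y22,y22,y11,z22])],.ref k12 k0 [(z6,[z22,z9,z22,z22,z11,y22]),(z3,[y16,z0,y7,y16,y8,z16]),(z3,[z8,z0,z8,
    z17,z4,y8]),(z3,[y1,z0,y1,y1,z4,z1]),(z6,[y8,y9,y26,y26,y13,z26])],.ref k12 k0 [(z10,[y11,z15,z22]),(z5,[z8,z0,
    y1]),(z5,[y4,z0,z8,z15]),(z10,[z1,z0,y2,z0,z15]),(z10,[z4,y15,y38,y30,y15,z30])],.ref k12 k0 [(z2,[y11,z3,z11,
    z11]),(z1,[z8,z0,y5,y8]),(z1,[y4,z0,z4,z7]),(z2,[z1,z0,y1,y1,z3]),(z2,[z4,y3,y10,y10,y3,z6])],.ref k12 k0 [(z6,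
    [z22,z9,z0,y22,y11]),(z3,[y16,z0,z9,z16,z8]),(z3,[z8,z0,z0,z1,y4]),(z3,[y1,z0,z0,z1,z5]),(z6,[y8,y9,y18,y10,y5,
    z18])],.ref k12 k0 [(z1,[y11,y4,y11,y11,z0,z11]),(z1,[z16,z8,z19,z16,z0,y16]),(z1,[y8,y4,y8,y5,z0,z8]),(z2,[z2,z1,
    z2,z2,z3,y2]),(z2,[z8,z1,z2,z2,y3,y2])],.ref k12 k0 [(z8,[y22,y21,y66,y66,y33,z66]),(z1,[z4,z6,z15,z12,z6,y12]),
    (z1,[y2,y3,y6,y3,y3,z6]),(z8,[z2,z3,z6,z6,z15,y6]),(z1,[z1])],.ref k12 k0 [(z2,[y11,y8,y22,y22,y11,z22]),(z1,[z8,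
    z8,z19,z16,z8,y16]),(z1,[y4,y4,y8,y5,y4,z8]),(z2,[z1,z1,z2,z2,z4,y2]),(z2,[z4,z1,z2,z2,z1,y2])]],
    .leafM k0 [k2,k3,k4,k5,k0,k1] [(z1,[y1,y1,y1,z0,z1])] [],
    .lp [k166,k166,k170,k138,k156,k162] [k2,k2,k2,k2,k0,k0,k16,k16,k7,k7,k4,k4] k0 [[k0,k0,k0,k0,k0,k0,k8,k0,k2],[k0,k0,
    k0,k6,k0,k2],[k6,k0,k0,k0,k0,k0,k4],[k0,k0,k0,k0,k0,k24,k0,k0,k0,k6],[k2,k0,k24],[k0,k0,k0,k0,k0,k0,k0,k14,k0,k2],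
    [k0,k0,k0,k0,k14,k0,k0,k0,k10],[k0,k8,k0,k4],[k0,k0,k6,k0,k2],[k0,k2,k0,k0,k0,k0,k0,k10]] (nat_lit 480) k5
    [[(k6,k152),(k8,k161),(k10,k164),(k0,k166),(k2,k166),(k4,k168)],[(k9,k153),(k7,k154),(k11,k162),(k1,k166),(k3,
    k166),(k5,k174)],[(k2,k160),(k6,k160),(k8,k163),(k10,k164),(k0,k166),(k4,k166)],[(k9,k157),(k3,k160),(k1,k166),
    (k5,k168),(k11,k170),(k7,k176)],[(k4,k146),(k8,k157),(k6,k158),(k10,k166),(k2,k168),(k0,k174)],[(k5,k146),(k7,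
    k154),(k3,k166),(k1,k168),(k11,k168),(k9,k177)],[(k6,k124),(k8,k145),(k10,k150),(k0,k154),(k4,k154),(k2,k176)],
    [(k7,k124),(k11,k140),(k9,k147),(k1,k152),(k5,k158),(k3,k160)],[(k6,k147),(k0,k153),(k2,k157),(k10,k159),(k8,
    k166),(k4,k177)],[(k7,k145),(k5,k157),(k11,k159),(k1,k161),(k3,k163),(k9,k166)],[(k6,k140),(k8,k159),(k0,k162),
    (k10,k162),(k4,k168),(k2,k170)],[(k7,k150),(k9,k159),(k11,k162),(k1,k164),(k3,k164),(k5,k166)]]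
    [] k0
    [[k2,k0,k0,k1,k0,k0],[k1,k0,k1,k0,k1,k0],[k1,k0,k0,k2,k0,k0],[k1,k0,k0,k1,k1,k0],[k1,k0,k0,k1,k0,k1],[k1,k0,k0,k0,
    k1,k1],[k0,k1,k0,k2,k0,k0],[k0,k1,k0,k1,k1,k0],[k0,k0,k3,k0,k0,k0],[k0,k0,k2,k1,k0,k0],[k0,k0,k1,k2,k0,k0],[k0,k0,
    k1,k1,k0,k1],[k0,k0,k1,k1,k1,k0],[k0,k0,k0,k3,k0,k0],[k0,k0,k0,k2,k1,k0],[k0,k0,k0,k2,k0,k1],[k0,k0,k0,k1,k2,k0],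
    [k0,k0,k0,k1,k1,k1],[k0,k0,k0,k1,k0,k2]]
    [.ref k95 k0 [(z1,[z0,z1]),(z1,[z0,z0,z1]),(z1,[y1,z2,z0,z1]),(z1,[z1,y2])],.ref k96 k0 [(z1,[z0,z1]),(z1,[z0,z0,
    z1]),(z1,[z1,z0,z1,z1,y1]),(z1,[y1,z0,y1,z0,z1])],.ref k97 k8 [(z1,[y2,z1,y1,y1,z1]),(z2,[z1,y1]),(z1,[z1]),(z2,
    [y1,z1,z2])],.ref k58 k0 [(z1,[z0,z1]),(z1,[z0,z0,z1]),(z1,[y1,z0,y1,z0,z1]),(z1,[z1,z0,z1,z1,y1])],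
    .ref k98 k0 [(z1,[z0,z1]),(z1,[z0,z0,z1]),(z1,[y1,z1,z0,z1]),(z1,[z1,y1])],.ref k9 k8 [(z1,[z8,y3,z5,z5,y5]),(z1,
    [y1,z0,y1,y1,z1]),(z1,[y4,z3,y4,y4,z4]),(z1,[z2,z0,z5,z2,y2])],.ref k96 k0 [(z1,[z0,z1]),(z1,[z0,z0,z1]),(z2,[y1,
    z0,z1,z2]),(z2,[z1,z0,y1])],.ref k99 k0 [(z1,[z0,z1]),(z1,[z0,z0,z1]),(z1,[y1,y1,z0,z0,z1]),(z1,[z1,z1,z0,z1,
    y1])],.ref k100 k0 [(z1,[z0,z1]),(z1,[z0,z0,z1]),(z1,[z1]),(z1,[y1,z0,z0,z3])],.ref k99 k0 [(z1,[z0,z1]),(z1,[z0,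
    z0,z1]),(z1,[z1,z0,z0,y1]),(z1,[y1,z0,z0,z2])],.ref k98 k0 [(z1,[z0,z1]),(z1,[z0,z0,z1]),(z1,[y1,z0,z0,z2]),(z1,
    [z1,z0,z0,y1])],.ref k9 k8 [(z1,[y4,y3,y3,z1,z3]),(z2,[z1,z0,z0,y1]),(z1,[z2,z3,z0,y2]),(z1,[y1,z0,z3,z1])],
    .ref k9 k8 [(z1,[z8,z5,z5,y3,y5]),(z1,[y1,y1,y1,z0,z1]),(z1,[y4,y1,y4,z0,z4]),(z1,[z2,z2,z5,z0,y2])],
    .ref k101 k0 [(z1,[z0,z1]),(z1,[z0,z0,z1]),(z1,[y1,z0,z0,z3]),(z1,[z1])],.ref k58 k0 [(z1,[z0,z1]),(z1,[z0,z0,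
    z1]),(z2,[y1,y1,y1,z1,z1]),(z2,[z1,z1,z1,z1,y1])],.ref k102 k8 [(z1,[y8,y1,y1,y1,z1]),(z1,[z1]),(z1,[z4,z1]),(z1,
    [y2,z0,z1])],.ref k103 k6 [(z1,[y2,y4,y15,y2,z4]),(z1,[z1,z2,z10,z2,y2]),(z1,[z0,y1,y5,y1,z1]),(z1,[z0,z0,z1])],
    .ref k104 k0 [(z1,[z0,z1]),(z1,[z0,z0,z1]),(z1,[y1,y1,y1,z0,z1]),(z1,[z1,z1,z1,z1,y1])],.ref k97 k8 [(z1,[y4,y1,
    y1,y1,z1]),(z1,[z1]),(z1,[z2,z1]),(z1,[y1,z0,z1])]],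
    .lp [(nat_lit 56538),(nat_lit 57934),(nat_lit 57236),(nat_lit 55840),(nat_lit 50954),(nat_lit 55840)] [(nat_lit 3491),
    (nat_lit 3491),(nat_lit 2793),(nat_lit 2793),(nat_lit 3142),(nat_lit 3142),(nat_lit 7680),k0,(nat_lit 6283),
    (nat_lit 6283),(nat_lit 3840),(nat_lit 3840)] k0 [[k0,k0,k0,k0,k0,k0,k0,k0,(nat_lit 5584)],[k0,k0,k0,k0,k0,
    (nat_lit 698)],[k0,k0,k0,k0,k0,k0,k0,k0,k0,k0,(nat_lit 3490)],[k0,k0,k0,k0,k0,k0,k0,(nat_lit 2792),k0,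
    (nat_lit 6980)],[(nat_lit 698)],[k0,k0,k0,k0,k0,k0,k0,k0,k0,(nat_lit 15356)],[k0,k0,(nat_lit 2792)],[k0,k0,k0,k0,
    k0,k0,k0,k0,k0,k0,k0,(nat_lit 4886)],[k0,k0,(nat_lit 6980),k0,(nat_lit 15356)],[k0,(nat_lit 5584),k0,k0,k0,k0,k0,
    k0,k0,k0,k0,(nat_lit 9074)],[k0,k0,k0,k0,k0,k0,(nat_lit 4886),k0,(nat_lit 9074)],[k0,k0,k0,
    (nat_lit 3490)]] (nat_lit 167520) k5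
    [[(k2,(nat_lit 53746)),(k10,(nat_lit 56189)),(k0,(nat_lit 56538)),(k4,(nat_lit 56887)),(k6,(nat_lit 57235)),(k8,
    (nat_lit 62820))],[(k11,(nat_lit 50605)),(k9,(nat_lit 53746)),(k1,(nat_lit 56538)),(k5,(nat_lit 56887)),(k3,
    (nat_lit 57236)),(k7,(nat_lit 60727))],[(k6,(nat_lit 53047)),(k4,(nat_lit 56887)),(k10,(nat_lit 56887)),(k0,
    (nat_lit 57236)),(k2,(nat_lit 57934)),(k8,(nat_lit 60028))],[(k1,(nat_lit 53746)),(k9,(nat_lit 57236)),(k5,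
    (nat_lit 57585)),(k3,(nat_lit 57934)),(k7,(nat_lit 60727)),(k11,(nat_lit 63867))],[(k8,(nat_lit 47115)),(k6,
    (nat_lit 49906)),(k0,(nat_lit 56887)),(k4,(nat_lit 57236)),(k2,(nat_lit 57585)),(k10,(nat_lit 60028))],[(k9,
    (nat_lit 54095)),(k1,(nat_lit 56887)),(k3,(nat_lit 56887)),(k5,(nat_lit 57236)),(k7,(nat_lit 60378)),(k11,
    (nat_lit 71894))],[(k8,(nat_lit 41881)),(k6,(nat_lit 55840)),(k10,(nat_lit 59680)),(k4,(nat_lit 60378)),(k0,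
    (nat_lit 60727)),(k2,(nat_lit 60727))],[(k9,(nat_lit 49557)),(k5,(nat_lit 49906)),(k11,(nat_lit 52000)),(k3,
    (nat_lit 53047)),(k7,(nat_lit 55840)),(k1,(nat_lit 57235))],[(k10,(nat_lit 48511)),(k6,(nat_lit 49557)),(k8,
    (nat_lit 50954)),(k0,(nat_lit 53746)),(k4,(nat_lit 54095)),(k2,(nat_lit 57236))],[(k7,(nat_lit 41881)),(k5,
    (nat_lit 47115)),(k9,(nat_lit 50954)),(k11,(nat_lit 53397)),(k3,(nat_lit 60028)),(k1,(nat_lit 62820))],[(k10,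
    (nat_lit 46766)),(k0,(nat_lit 50605)),(k6,(nat_lit 52000)),(k8,(nat_lit 53397)),(k2,(nat_lit 63867)),(k4,
    (nat_lit 71894))],[(k11,(nat_lit 46766)),(k9,(nat_lit 48511)),(k1,(nat_lit 56189)),(k3,(nat_lit 56887)),(k7,
    (nat_lit 59680)),(k5,(nat_lit 60028))]]
    [] k0
    [[k2,k0,k0,k0,k0,k1],[k1,k1,k0,k0,k0,k1],[k1,k0,k1,k0,k1,k0],[k1,k0,k0,k1,k1,k0],[k1,k0,k0,k0,k1,k1],[k1,k0,k0,k0,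
    k0,k2],[k0,k1,k1,k0,k1,k0],[k0,k1,k0,k1,k1,k0],[k0,k0,k2,k0,k1,k0],[k0,k0,k1,k2,k0,k0],[k0,k0,k1,k1,k1,k0],[k0,k0,
    k1,k0,k2,k0],[k0,k0,k0,k2,k1,k0],[k0,k0,k0,k1,k2,k0],[k0,k0,k0,k1,k1,k1],[k0,k0,k0,k1,k0,k2],[k0,k0,k0,k0,k3,k0],
    [k0,k0,k0,k0,k2,k1],[k0,k0,k0,k0,k1,k2],[k0,k0,k0,k0,k0,k3]]
    [.ref k12 k0 [(z4,[z5,z1]),(z1,[y1,z1,z3]),(z8,[z1,y1,z0,z6]),(z4,[y1,z1,z0,z0,z6]),(z8,[y5,y7,y24,y6,y12,z24])],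
    .ref k12 k0 [(z1,[z5,y1,y5]),(z1,[y4,z2,z7]),(z4,[z2,y1,y2,z3]),(z2,[y2,z1,z2,z0,z3]),(z4,[y10,y1,y2,y3,y6,z12])],
    .ref k12 k0 [(z2,[z10,z3,z10,z0,z5,y10]),(z1,[y4,z0,y1,z0,y2,z4]),(z4,[z2,z0,z2,z3,z1,y2]),(z1,[y1,z0,y1,z0,z1,
    z1]),(z4,[y10,y6,y22,y3,y11,z22])],.ref k12 k0 [(z2,[z20,z3,z20,z5,z0,y20]),(z1,[y8,z0,y5,y2,z0,z8]),(z1,[z1,z0,
    z1,z1,z0,y1]),(z2,[y4,z0,y4,y1,z3,z4]),(z2,[y10,y3,y16,y4,y3,z16])],.ref k12 k0 [(z6,[z20,z9,z20,z5,z10,y20]),(z3,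
    [y8,z0,z1,y2,y4,z8]),(z6,[z2,z0,z2,z5,z1,y2]),(z6,[y4,z0,y4,y1,z7,z4]),(z6,[y10,y9,y28,y7,y14,z28])],
    .ref k12 k0 [(z3,[z5,z2]),(z3,[y4,z2,z9]),(z12,[z2,y1,z0,z9]),(z6,[y2,z1,z0,z0,z9]),(z12,[y10,y13,y36,y9,y18,
    z36])],.ref k12 k0 [(z4,[y10,z1,z0,z0,y5,z10]),(z1,[z2,z1,z3,z0,z1,y2]),(z8,[y2,y1,z0,z6,y1,z2]),(z4,[z2,z1,z0,z0,
    z7,y2]),(z8,[z10,y7,y24,y6,y7,z14])],.ref k12 k0 [(z2,[y4,z1,z0,y1,z0,z4]),(z5,[z8,z4,z15,z2,z0,y8]),(z10,[y2,y1,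
    z0,z7,z0,z2]),(z10,[z4,z2,z0,z1,z15,y4]),(z2,[z2,y2,y6,y1,y3,z4])],.ref k12 k0 [(z2,[y20,y7,y20,z5,y10,z20]),(z1,
    [z8,z4,z11,y2,z4,y8]),(z2,[y2,y1,y2,z2,y1,z2]),(z2,[z4,z2,z4,y1,z5,y4]),(z1,[z5,z1,z2,y2,z1,y2])],
    .ref k12 k0 [(z2,[y20,z3,z0,z5,z20]),(z1,[z8,z0,z3,y2,y8]),(z1,[y1,z0,z0,z1,z1]),(z2,[z4,z0,z0,y1,y1]),(z2,[z10,
    y3,y6,y4,y13,z6])],.ref k12 k0 [(z1,[y5,y1,y5,z0,z0,z5]),(z1,[z4,z2,z7,z0,z0,y4]),(z4,[y2,y1,y2,z3,z0,z2]),(z2,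
    [z2,z1,z2,z0,z3,y2]),(z4,[z10,y1,y2,y3,y6,z2])],.ref k12 k0 [(z6,[y20,y11,y40,y5,y20,z40]),(z3,[z8,z8,z25,z2,z8,
    y16]),(z3,[y1,y1,y2,z2,y1,z2]),(z6,[z4,z4,z8,z1,z13,y8]),(z6,[z10,z1,z2,y2,z1,y2])],.ref k12 k0 [(z6,[y20,y1,y20,
    y5,z10,z20]),(z3,[z8,z4,z17,z2,y4,y8]),(z6,[y2,y1,y2,z4,z1,z2]),(z6,[z4,z2,z4,z1,z7,y4]),(z3,[z5,y2,y4,y1,y7,
    z4])],.ref k12 k0 [(z4,[y10,y4,y20,y5,y5,z20]),(z1,[z2,z2,z7,z1,z1,y4]),(z8,[y2,y2,y4,z5,y1,z4]),(z4,[z2,z2,z4,z1,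
    z7,y4]),(z8,[z10,y2,y4,y1,y7,z4])],.ref k12 k0 [(z2,[y20,y7,y20,y5,z0,z20]),(z1,[z8,z4,z11,z2,z0,y8]),(z2,[y2,y1,
    y2,z1,z0,z2]),(z2,[z4,z2,z4,z1,z3,y4]),(z2,[z10,z2,z4,z1,y3,y4])],.ref k12 k0 [(z2,[z10,z3,z0,z0,y5]),(z1,[y4,z0,
    z3,z0,z2]),(z4,[z2,z0,z0,z3,y1]),(z1,[y1,z0,z0,z0,z2]),(z4,[y10,y6,y12,y3,y1,z12])],.ref k12 k0 [(z2,[y4,y3,y12,
    y3,y6,z12]),(z5,[z8,z12,z39,z6,z12,y24]),(z10,[y2,y3,y6,z6,y3,z6]),(z10,[z4,z6,z12,z3,z21,y12]),(z1,[z1])],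
    .ref k12 k0 [(z2,[y10,y7,y20,y5,y10,z20]),(z1,[z4,z4,z11,z2,z4,y8]),(z2,[y1,y1,y2,z1,y1,z2]),(z2,[z2,z2,z4,z1,z5,
    y4]),(z2,[z5,z2,z4,z1,z2,y4])],.ref k12 k0 [(z2,[z20,z13,z20,z5,z10,y20]),(z1,[y8,y4,y5,y2,y4,z8]),(z2,[z2,z1,z2,
    z2,z1,y2]),(z2,[y4,y2,y4,y1,z1,z4]),(z1,[y5,y4,y8,y2,y4,z8])],.ref k12 k0 [(z2,[z5,z3]),(z1,[y2,z0,z3]),(z4,[z1,
    z0,z0,z3]),(z2,[y1,z0,z0,z0,z3]),(z4,[y5,y6,y12,y3,y6,z12])]],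
    .lp [k84,k84,k84,k74,k82,k70] [k0,k0,k0,k0,k0,k0,k5,k5,k1,k1,k9,k5] k0 [[k0,k0,k0,k0,k0,k0,k0,k0,k0,k0,k4],[k0,k0,k0,
    k2],[k2,k0,k0,k0,k0,k0,k0,k0,k0,k0,k2],[k0,k0,k0,k0,k0,k0,k0,k2,k0,k12],[k0,k0,k0,k0,k0,k0,k10],[k0,k0,k0,k0,k0,
    k0,k0,k0,k0,k0,k0,k2],[k0,k0,k2,k0,k0,k0,k0,k0,k14],[k0,k0,k0,k0,k0,k10,k0,k0,k0,k0,k0,k2],[k0,k0,k12],[k0,k0,k0,
    k0,k0,k0,k0,k14],[k0,k0,k0,k0,k2,k0,k2],[k0,k4,k0,k2]] (nat_lit 240) k5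
    [[(k10,k75),(k0,k80),(k6,k81),(k2,k82),(k8,k83),(k4,k86)],[(k7,k79),(k11,k79),(k1,k80),(k9,k83),(k3,k84),(k5,
    k86)],[(k6,k79),(k10,k79),(k2,k82),(k8,k83),(k0,k84),(k4,k84)],[(k7,k79),(k1,k82),(k3,k82),(k5,k84),(k9,k85),(k11,
    k91)],[(k8,k71),(k6,k77),(k10,k77),(k2,k84),(k4,k84),(k0,k86)],[(k9,k73),(k7,k79),(k11,k79),(k3,k84),(k5,k84),(k1,
    k86)],[(k10,k68),(k8,k78),(k0,k79),(k2,k79),(k4,k79),(k6,k84)],[(k11,k60),(k5,k77),(k9,k78),(k3,k79),(k1,k81),(k7,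
    k84)],[(k10,k72),(k4,k73),(k6,k78),(k0,k83),(k2,k85),(k8,k96)],[(k5,k71),(k7,k78),(k11,k78),(k1,k83),(k3,k83),(k9,
    k96)],[(k6,k60),(k10,k70),(k8,k78),(k0,k79),(k4,k79),(k2,k91)],[(k7,k68),(k11,k70),(k9,k72),(k1,k75),(k5,k77),(k3,
    k79)]]
    [] k0
    [[k2,k0,k0,k0,k0,k1],[k1,k0,k0,k1,k0,k1],[k1,k0,k0,k0,k1,k1],[k1,k0,k0,k0,k0,k2],[k0,k1,k0,k1,k0,k1],[k0,k0,k2,k0,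
    k1,k0],[k0,k0,k1,k1,k1,k0],[k0,k0,k1,k1,k0,k1],[k0,k0,k1,k0,k1,k1],[k0,k0,k1,k0,k0,k2],[k0,k0,k0,k2,k0,k1],[k0,k0,
    k0,k1,k1,k1],[k0,k0,k0,k1,k0,k2],[k0,k0,k0,k0,k1,k2],[k0,k0,k0,k0,k0,k3]]
    [.ref k12 k0 [(z1,[z0,z1]),(z2,[y3,z2,z3]),(z4,[z3,y2,z0,z3]),(z4,[y9,z6,z0,z0,z1]),(z4,[z0,y4,y6,y3,y1,z12])],
    .ref k12 k0 [(z1,[z0,z1]),(z2,[y12,z4,z3,z0,z1]),(z4,[z12,y4,z0,z3,y1]),(z1,[y9,z3,z0,z0,z1]),(z4,[z0,y4,y6,y3,y1,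
    z12])],.ref k12 k0 [(z1,[z0,z1]),(z8,[y12,z0,z6,y3,y1,z12]),(z16,[z12,z0,z6,z15,z1,y12]),(z16,[y36,z0,y18,y9,z1,
    z36]),(z4,[z0,y4,y6,y3,y1,z12])],.ref k12 k0 [(z1,[z0,z1]),(z4,[y3,z1,z6]),(z8,[z3,y1,z0,z6]),(z8,[y9,z3,z0,z0,
    z2]),(z4,[z0,y4,y6,y3,y1,z12])],.ref k12 k0 [(z1,[z0,z1]),(z2,[z12,z0,y3,z0,y1]),(z4,[y12,z0,z6,z3,z1]),(z2,[z18,
    z0,y9,z0,y1]),(z4,[z0,y4,y6,y3,y1,z12])],.ref k12 k0 [(z1,[z0,z1]),(z4,[y12,y4,z0,z3,y1,z12]),(z8,[z12,z4,z6,z3,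
    z1,y12]),(z8,[y36,y12,y18,z9,y1,z36]),(z4,[z0,y4,y6,y3,y1,z12])],.ref k12 k0 [(z1,[z0,z1]),(z1,[z3,z1,z3,z0,z0,
    y3]),(z4,[y6,y2,y3,z3,z0,z6]),(z4,[z18,z6,z9,z0,z1,y18]),(z4,[z0,y4,y6,y3,y1,z12])],.ref k12 k0 [(z1,[z0,z1]),(z4,
    [y12,z0,z6,z3,z1]),(z8,[z12,z0,z0,z3,y1]),(z8,[y36,z0,z0,z9,z5]),(z4,[z0,y4,y6,y3,y1,z12])],.ref k12 k0 [(z1,[z0,
    z1]),(z10,[y12,y4,z9,z0,y1,z12]),(z20,[z12,z4,z6,z15,z1,y12]),(z10,[y18,y6,y9,z0,z1,z18]),(z4,[z0,y4,y6,y3,y1,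
    z12])],.ref k12 k0 [(z1,[z0,z1]),(z6,[y4,z0,z9,z1]),(z3,[z1,z0,z0,z2]),(z4,[y4,z0,z0,z1,z1]),(z4,[z0,y4,y6,y3,y1,
    z12])],.ref k12 k0 [(z1,[z0,z1]),(z2,[z6,z0,z3,z0,y1]),(z4,[y6,z0,z0,z3,z1]),(z2,[z9,z0,z0,z0,y1]),(z4,[z0,y4,y6,
    y3,y1,z12])],.ref k12 k0 [(z1,[z0,z1]),(z2,[y12,y4,y3,y3,z0,z12]),(z2,[z6,z2,z3,z3,z0,y6]),(z4,[y36,y12,y18,y9,z1,
    z36]),(z4,[z0,y4,y6,y3,y1,z12])],.ref k12 k0 [(z1,[z0,z1]),(z10,[y12,z0,z15,z0,z1]),(z20,[z12,z0,z0,z15,y1]),(z5,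
    [y9,z0,z0,z0,z2]),(z4,[z0,y4,y6,y3,y1,z12])],.ref k12 k0 [(z1,[z0,z1]),(z16,[y12,y4,z18,y3,y1,z12]),(z32,[z12,z4,
    z6,z27,z1,y12]),(z32,[y36,y12,y18,y9,z5,z36]),(z4,[z0,y4,y6,y3,y1,z12])],.ref k12 k0 [(z1,[z0,z1]),(z2,[y1,z0,
    z3]),(z4,[z1,z0,z0,z3]),(z4,[y3,z0,z0,z0,z1]),(z4,[z0,y4,y6,y3,y1,z12])]],
    .leafM k0 [k2,k3,k4,k5,k0,k1] [(z1,[y1,y1,y1,z0,z1])] [],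
    .leafM k0 [k0,k1,k2,k3,k4,k5] [(z2,[z0,z1,z1,z2])] [],
    .lp [k162,k168,k162,k156,k160,k150] [k6,k0,k0,k0,k3,k3,k6,k6,k4,k4,k9,k9] k0 [[k0,k0,k0,k0,k0,k0,k0,k0,k2,k0,k2],[k0,
    k0,k0,k6],[k6,k0,k0,k0,k6],[k0,k0,k0,k0,k0,k0,k0,k0,k0,k2],[k0,k0,k0,k0,k0,k0,k8],[k0,k0,k0,k6,k0,k0,k0,k0,k0,k0,
    k0,k8],[k0,k0,k0,k0,k0,k0,k0,k0,k12],[k0,k0,k0,k0,k0,k8,k0,k0,k0,k0,k0,k2],[k0,k0,k2,k0,k0,k0,k0,k0,k0,k0,k44],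
    [k0,k2,k0,k0,k0,k0,k0,k12],[k0,k0,k0,k0,k8,k0,k2],[k0,k2,k0,k0,k0,k0,k0,k0,k0,k44]] (nat_lit 480) k5
    [[(k8,k120),(k10,k159),(k0,k160),(k6,k164),(k2,k168),(k4,k173)],[(k11,k151),(k7,k156),(k9,k158),(k1,k160),(k3,
    k162),(k5,k165)],[(k10,k161),(k0,k162),(k2,k162),(k6,k162),(k4,k165),(k8,k166)],[(k7,k156),(k11,k161),(k3,k162),
    (k9,k164),(k5,k165),(k1,k168)],[(k10,k156),(k6,k159),(k8,k159),(k0,k165),(k2,k165),(k4,k168)],[(k9,k153),(k11,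
    k156),(k7,k159),(k3,k165),(k5,k168),(k1,k173)],[(k10,k145),(k0,k156),(k2,k156),(k8,k158),(k4,k159),(k6,k164)],
    [(k11,k141),(k9,k158),(k5,k159),(k3,k162),(k1,k164),(k7,k164)],[(k4,k153),(k10,k153),(k0,k158),(k6,k158),(k2,
    k164),(k8,k172)],[(k1,k120),(k11,k155),(k7,k158),(k5,k159),(k3,k166),(k9,k172)],[(k6,k141),(k0,k151),(k8,k155),
    (k4,k156),(k2,k161),(k10,k194)],[(k7,k145),(k9,k153),(k5,k156),(k1,k159),(k3,k161),(k11,k194)]]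
    [] k0
    [[k2,k0,k0,k0,k1,k0],[k2,k0,k0,k0,k0,k1],[k1,k0,k0,k1,k0,k1],[k1,k1,k0,k0,k1,k0],[k1,k0,k1,k0,k1,k0],[k1,k0,k0,k1,
    k1,k0],[k1,k0,k0,k0,k2,k0],[k1,k0,k0,k0,k1,k1],[k0,k1,k0,k1,k0,k1],[k0,k0,k1,k1,k1,k0],[k0,k0,k1,k1,k0,k1],[k0,k0,
    k1,k0,k1,k1],[k0,k0,k0,k2,k0,k1],[k0,k0,k0,k1,k1,k1]]
    [.ref k12 k0 [(z2,[z3,z0,z0,z0,y1]),(z1,[z0,z0,z1]),(z1,[y3,z6,z0,z3,z1]),(z2,[z3,y6,z0,z0,y1]),(z1,[z0,z0,z0,z0,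
    z1])],.ref k12 k0 [(z2,[z3,z3,z1,z3,z1,y3]),(z1,[z0,z0,z1]),(z1,[y3,z3,y1,z0,y1,z3]),(z2,[z3,y3,z1,z3,z1,y3]),(z1,
    [z0,z0,z0,z0,z1])],.ref k12 k0 [(z2,[z3,z6,z1,z3,z1,y3]),(z1,[z0,z0,z1]),(z1,[y3,z0,y1,z0,y1,z3]),(z2,[z3,z0,z1,
    z3,z1,y3]),(z1,[z0,z0,z0,z0,z1])],.ref k12 k0 [(z1,[z3,z0,y1,z0,y1]),(z1,[z0,z0,z1]),(z1,[y6,z6,z2,z3,z2]),(z1,
    [z3,y3,y1,z0,y1]),(z1,[z0,z0,z0,z0,z1])],.ref k12 k0 [(z1,[y3,z6,z0,z3,z1]),(z1,[z0,z0,z1]),(z1,[z6,y6,z0,y3,y2]),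
    (z1,[y3,z3,z0,z3,z1]),(z1,[z0,z0,z0,z0,z1])],.ref k12 k0 [(z2,[z3,z3,z0,z0,y1]),(z1,[z0,z0,z1]),(z1,[y3,z3,z0,z3,
    z1]),(z2,[z3,y3,z0,z0,y1]),(z1,[z0,z0,z0,z0,z1])],.ref k12 k0 [(z1,[z3,z0,z0,z0,y2]),(z1,[z0,z0,z1]),(z1,[y6,z6,
    z0,z3,z4]),(z1,[z3,y3,z0,z0,y2]),(z1,[z0,z0,z0,z0,z1])],.ref k12 k0 [(z1,[z3,z3,z1,z3,z0,y3]),(z1,[z0,z0,z1]),(z1,
    [y6,z0,y2,y3,z0,z6]),(z1,[z3,z0,z1,z3,z0,y3]),(z1,[z0,z0,z0,z0,z1])],.ref k12 k0 [(z1,[z3,z6,z0,z3,z1,y3]),(z1,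
    [z0,z0,z1]),(z1,[y6,y6,z0,y3,y2,z6]),(z1,[z3,z3,z0,z3,z1,y3]),(z1,[z0,z0,z0,z0,z1])],.ref k12 k0 [(z1,[y3,z3,z0,
    z3,z1]),(z1,[z0,z0,z1]),(z1,[z6,z0,z0,y3,y2]),(z1,[y3,z0,z0,z3,z1]),(z1,[z0,z0,z0,z0,z1])],.ref k12 k0 [(z1,[y3,
    z0,y1,z0,y1,z3]),(z1,[z0,z0,z1]),(z1,[z6,z6,z2,z3,z2,y6]),(z1,[y3,y3,y1,z0,y1,z3]),(z1,[z0,z0,z0,z0,z1])],
    .ref k12 k0 [(z2,[y3,z3,y1,z0,z0,z3]),(z1,[z0,z0,z1]),(z1,[z3,z3,z1,z3,z0,y3]),(z2,[y3,y3,y1,z0,z0,z3]),(z1,[z0,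
    z0,z0,z0,z1])],.ref k12 k0 [(z2,[z3,z9,z1,z3,z1,y3]),(z1,[z0,z0,z1]),(z1,[y3,y3,y1,z0,y1,z3]),(z2,[z3,z3,z1,z3,z1,
    y3]),(z1,[z0,z0,z0,z0,z1])],.ref k12 k0 [(z1,[z3,z6,z1,z3,z0,y3]),(z1,[z0,z0,z1]),(z1,[y6,y6,y2,y3,z0,z6]),(z1,
    [z3,z3,z1,z3,z0,y3]),(z1,[z0,z0,z0,z0,z1])]],
    .lp [k160,k174,k162,k162,k136,k164] [k7,k7,k0,k0,k6,k6,k6,k6,k19,k19,k5,k5] k0 [[k0,k0,k0,k0,k0,k0,k0,k0,k12],[k0,k0,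
    k0,k0,k0,k8],[k0,k0,k0,k0,k2,k0,k0,k0,k0,k0,k6],[k0,k0,k0,k0,k0,k0,k0,k8],[k8,k0,k0,k0,k0,k0,k20],[k0,k0,k0,k2],
    [k0,k0,k8,k0,k0,k0,k0,k0,k14],[k0,k0,k0,k0,k0,k20,k0,k0,k0,k0,k0,k6],[k0,k0,k0,k0,k0,k0,k0,k0,k0,k0,k22],[k0,k12,
    k0,k0,k0,k0,k0,k14],[k0,k0,k0,k0,k0,k0,k6],[k0,k0,k0,k6,k0,k0,k0,k0,k0,k22]] (nat_lit 480) k5
    [[(k8,k126),(k0,k160),(k2,k161),(k4,k161),(k10,k162),(k6,k167)],[(k9,k148),(k11,k150),(k1,k160),(k5,k161),(k3,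
    k167),(k7,k169)],[(k4,k160),(k0,k167),(k8,k167),(k6,k168),(k10,k169),(k2,k174)],[(k1,k161),(k9,k163),(k7,k166),
    (k5,k168),(k11,k169),(k3,k174)],[(k8,k149),(k6,k154),(k0,k161),(k4,k164),(k2,k168),(k10,k169)],[(k9,k129),(k3,
    k160),(k1,k161),(k7,k162),(k11,k163),(k5,k164)],[(k8,k149),(k4,k162),(k10,k163),(k2,k166),(k0,k169),(k6,k182)],
    [(k9,k149),(k11,k149),(k5,k154),(k1,k167),(k3,k168),(k7,k182)],[(k4,k129),(k10,k144),(k0,k148),(k6,k149),(k8,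
    k150),(k2,k163)],[(k1,k126),(k5,k149),(k7,k149),(k9,k150),(k11,k150),(k3,k167)],[(k6,k149),(k0,k150),(k8,k150),
    (k4,k163),(k2,k169),(k10,k186)],[(k9,k144),(k1,k162),(k7,k163),(k3,k169),(k5,k169),(k11,k186)]]
    [] k0
    [[k2,k0,k0,k0,k1,k0],[k2,k0,k0,k0,k0,k1],[k1,k1,k0,k0,k1,k0],[k1,k0,k1,k0,k1,k0],[k1,k0,k0,k1,k1,k0],[k1,k0,k0,k0,
    k2,k0],[k1,k0,k0,k0,k1,k1],[k0,k1,k1,k0,k1,k0],[k0,k0,k2,k0,k1,k0],[k0,k0,k1,k1,k1,k0],[k0,k0,k1,k0,k2,k0],[k0,k0,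
    k1,k0,k1,k1],[k0,k0,k0,k1,k2,k0],[k0,k0,k0,k1,k1,k1],[k0,k0,k0,k0,k3,k0],[k0,k0,k0,k0,k2,k1]]
    [.ref k12 k0 [(z2,[z6,z0,z3,z2,z1,y6]),(z8,[y6,z2,z9,y2,y1,z6]),(z4,[y6,z2,y3,z2,y1,z6]),(z8,[z6,y2,z3,z2,z5,y6]),
    (z1,[y3,z0,y3,y2,y1,z6])],.ref k12 k0 [(z5,[z6,z1]),(z10,[y3,z2,z15]),(z5,[y3,z2,z0,z5]),(z10,[z3,y2,z0,z0,z5]),
    (z10,[y12,y2,y15,y10,y5,z30])],.ref k12 k0 [(z1,[y12,z1,z0,y4,y2,z12]),(z2,[z6,z0,z3,z2,z1,y6]),(z1,[z6,z0,z0,z3,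
    z1,y6]),(z1,[y3,z0,z0,y1,z0,z3]),(z2,[z24,y2,y3,z6,z3,y18])],.ref k12 k0 [(z1,[y6,z1,y3,z0,y1,z6]),(z4,[z6,z0,z9,
    z0,z1,y6]),(z2,[z6,z0,z3,z2,z1,y6]),(z4,[y6,z0,y3,z0,z1,z6]),(z2,[z12,y2,z3,y2,z1,y6])],.ref k12 k0 [(z1,[z12,z1,
    z6,z4,z0,y12]),(z1,[y3,z0,z0,y1,z0,z3]),(z1,[y6,z0,y3,y1,z0,z6]),(z2,[z6,z0,z3,z2,z1,y6]),(z2,[y24,y2,y15,y10,y1,
    z30])],.ref k12 k0 [(z1,[y3,z0,y3,y2,y1,z6]),(z4,[z3,z1,z9,z2,z1,y6]),(z2,[z3,z1,z3,z4,z1,y6]),(z4,[y3,y1,y3,y2,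
    z1,z6]),(z2,[z6,z0,z3,z2,z1,y6])],.ref k12 k0 [(z1,[z6,z1,z3,z2,z1,y6]),(z4,[y6,z0,z3,y2,y1,z6]),(z2,[y6,z0,y3,z0,
    y1,z6]),(z4,[z6,z0,z3,z2,z3,y6]),(z2,[y12,y2,y9,y6,y3,z18])],.ref k12 k0 [(z7,[y12,z3,z0,z0,y2,z12]),(z14,[z6,z2,
    z21,z0,z1,y6]),(z7,[z6,z2,z0,z7,z1,y6]),(z7,[y3,y1,z0,z0,z3,z3]),(z14,[z24,y6,y21,y14,y3,z18])],.ref k12 k0 [(z4,
    [y6,z2,y3,z2,y1,z6]),(z16,[z6,z2,z27,y2,z1,y6]),(z8,[z6,z2,z3,z6,z1,y6]),(z16,[y6,y2,y3,z2,z7,z6]),(z4,[z6,y2,y3,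
    y6,y1,z6])],.ref k12 k0 [(z5,[y12,z1,y6,z0,z0,z12]),(z5,[z3,z1,z9,z0,z0,y3]),(z5,[z6,z2,z3,z5,z0,y6]),(z10,[y6,y2,
    y3,z0,z5,z6]),(z10,[z24,y2,y3,y10,y5,z6])],.ref k12 k0 [(z5,[y6,z1,y6,y2,y2,z12]),(z10,[z3,z2,z18,z1,z1,y6]),(z5,
    [z3,z2,z3,z6,z1,y6]),(z10,[y3,y2,y3,y1,z4,z6]),(z10,[z12,y2,y3,y6,y1,z6])],.ref k12 k0 [(z2,[y6,z0,y3,z0,y1,z6]),
    (z8,[z6,z2,z15,z0,z1,y6]),(z4,[z6,z2,z3,z4,z1,y6]),(z8,[y6,y2,y3,z0,z3,z6]),(z1,[z3,z0,z0,y1])],.ref k12 k0 [(z7,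
    [y12,y1,y12,y8,y2,z24]),(z14,[z6,z4,z27,z4,z1,y12]),(z7,[z6,z4,z6,z11,z1,y12]),(z7,[y3,y2,y3,y2,z3,z6]),(z14,[z24,
    z2,z3,z2,y3,y6])],.ref k12 k0 [(z1,[y12,y3,y6,y4,z0,z12]),(z1,[z3,z1,z3,z1,z0,y3]),(z1,[z6,z2,z3,z3,z0,y6]),(z2,
    [y6,y2,y3,y2,z1,z6]),(z2,[z24,z6,z9,z6,y1,y18])],.ref k12 k0 [(z2,[y2,z0,y3,y2,y1,z6]),(z8,[z2,z2,z15,z2,z1,y6]),
    (z4,[z2,z2,z3,z6,z1,y6]),(z8,[y2,y2,y3,y2,z3,z6]),(z1,[z1])],.ref k12 k0 [(z3,[y6,y1,y6,y4,y2,z12]),(z6,[z3,z2,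
    z12,z2,z1,y6]),(z3,[z3,z2,z3,z5,z1,y6]),(z6,[y3,y2,y3,y2,z2,z6]),(z6,[z12,z2,z3,z2,z1,y6])]],
    .lp [k176,k166,k162,k156,k146,k152] [k0,k0,k5,k5,k7,k7,k10,k10,k15,k15,k12,k12] k0 [[k0,k0,k2,k0,k0,k0,k0,k0,k0,k0,
    k16],[k0,k0,k0,k0,k0,k4,k0,k4],[k0,k0,k0,k0,k0,k0,k0,k0,k0,k0,k12],[k0,k2,k0,k0,k0,k0,k0,k0,k0,k16],[k4,k0,k0,k0,
    k0,k0,k24],[k0,k0,k0,k0,k0,k0,k0,k0,k0,k2],[k4,k0,k0,k0,k0,k0,k0,k0,k8],[k0,k0,k0,k0,k0,k24],[k0,k0,k16,k0,k2],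
    [k0,k0,k0,k0,k0,k0,k0,k8],[],[k0,k16,k0,k12]] (nat_lit 480) k5
    [[(k2,k159),(k0,k160),(k8,k161),(k10,k164),(k6,k166),(k4,k169)],[(k1,k160),(k11,k164),(k9,k165),(k5,k167),(k7,
    k170),(k3,k171)],[(k8,k156),(k6,k157),(k4,k160),(k2,k168),(k0,k171),(k10,k175)],[(k9,k156),(k1,k159),(k7,k161),
    (k5,k164),(k3,k168),(k11,k175)],[(k8,k138),(k6,k159),(k4,k162),(k2,k164),(k0,k167),(k10,k169)],[(k9,k130),(k7,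
    k159),(k11,k159),(k3,k160),(k5,k162),(k1,k169)],[(k8,k149),(k10,k154),(k4,k159),(k2,k161),(k0,k170),(k6,k180)],
    [(k11,k146),(k9,k151),(k3,k157),(k5,k159),(k1,k166),(k7,k180)],[(k4,k130),(k10,k149),(k6,k151),(k8,k154),(k2,
    k156),(k0,k165)],[(k5,k138),(k7,k149),(k11,k149),(k9,k154),(k3,k156),(k1,k161)],[(k6,k146),(k8,k149),(k10,k152),
    (k4,k159),(k0,k164),(k2,k175)],[(k9,k149),(k11,k152),(k7,k154),(k1,k164),(k5,k169),(k3,k175)]]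
    [] k0
    [[k1,k0,k1,k0,k1,k0],[k1,k0,k0,k0,k1,k1],[k0,k1,k1,k0,k1,k0],[k0,k1,k0,k1,k1,k0],[k0,k1,k0,k0,k2,k0],[k0,k0,k2,k0,
    k1,k0],[k0,k0,k1,k1,k1,k0],[k0,k0,k1,k1,k0,k1],[k0,k0,k1,k0,k2,k0],[k0,k0,k1,k0,k1,k1],[k0,k0,k0,k1,k2,k0],[k0,k0,
    k0,k1,k1,k1],[k0,k0,k0,k1,k0,k2],[k0,k0,k0,k0,k3,k0],[k0,k0,k0,k0,k2,k1],[k0,k0,k0,k0,k1,k2],[k0,k0,k0,k0,k0,k3]]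
    [.ref k12 k0 [(z1,[y16,z3,y16,z0,y16,z16]),(z1,[z2,z0,z5,z0,z2,y2]),(z1,[z11,z0,z11,z3,z11,y11]),(z1,[y4,z0,y4,z0,
    y1,z4]),(z1,[z8,y3,z5,y3,z5,y5])],.ref k12 k0 [(z3,[z16,z9,z16,z16,z16,y16]),(z3,[y2,z0,z7,y2,y2,z2]),(z3,[y11,z0,
    y11,y2,y11,z11]),(z3,[z4,z0,z4,z4,z13,y4]),(z3,[y8,y9,y17,y17,y17,z17])],.ref k12 k0 [(z7,[y16,z5,z0,z0,y16,z16]),
    (z7,[z2,z2,z21,z0,z2,y2]),(z7,[z11,z11,z0,z21,z11,y11]),(z7,[y4,y4,z0,z0,z17,z4]),(z7,[z8,y13,y21,y21,y13,z13])],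
    .ref k12 k0 [(z1,[y8,y5,z0,y8,z0,z8]),(z1,[z1,z1,z3,z1,z0,y1]),(z2,[z11,z11,z0,z17,z0,y11]),(z1,[y2,y2,z0,y2,z3,
    z2]),(z1,[z4,z1,y3,z1,y3,y1])],.ref k12 k0 [(z3,[y8,y7,y8,y16,y16,z16]),(z3,[z1,z2,z10,z2,z2,y2]),(z6,[z11,z22,
    z11,z40,z22,y22]),(z3,[y2,y4,y2,y4,z5,z4]),(z3,[z4,y1,y5,y1,y1,z1])],.ref k12 k0 [(z5,[y8,z7,y8,z8,y8,z8]),(z5,
    [z1,z1,z16,y1,z1,y1]),(z10,[z11,z11,z11,z19,z11,y11]),(z5,[y2,y2,y2,z2,z13,z2]),(z5,[z4,y11,y11,y19,y11,z11])],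
    .ref k12 k0 [(z5,[y16,y1,y16,z0,z0,z16]),(z5,[z2,z2,z17,z0,z0,y2]),(z5,[z11,z11,z11,z15,z0,y11]),(z5,[y4,y4,y4,z0,
    z15,z4]),(z5,[z8,y7,y7,y15,y15,z7])],.ref k12 k0 [(z1,[y8,z3,z0,z8,z8]),(z1,[z1,z0,z3,y1,y1]),(z2,[z11,z0,z0,y5,
    y11]),(z1,[y2,z0,z0,z2,z5]),(z1,[z4,y3,y3,y7,y7,z3])],.ref k12 k0 [(z9,[y16,y5,y32,y16,y32,z32]),(z9,[z2,z4,z31,
    z2,z4,y4]),(z9,[z11,z22,z22,z38,z22,y22]),(z9,[y4,y8,y8,y4,z19,z8]),(z9,[z8,y11,y11,y19,y11,z11])],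
    .ref k12 k0 [(z3,[y8,z1,y8,z0,y8,z8]),(z3,[z1,z1,z10,z0,z1,y1]),(z6,[z11,z11,z11,z18,z11,y11]),(z3,[y2,y2,y2,z0,
    z7,z2]),(z3,[z4,y5,y5,y9,y5,z5])],.ref k12 k0 [(z1,[y4,y5,y8,y8,y4,z8]),(z2,[z1,z2,z8,z2,z1,y2]),(z4,[z11,z22,z22,
    z34,z11,y22]),(z1,[y1,y2,y2,y2,z2,z2]),(z1,[z2,z1,z1,z1,y1,y1])],.ref k12 k0 [(z1,[y16,y13,y16,y16,z0,z16]),(z1,
    [z2,z2,z5,z2,z0,y2]),(z1,[z11,z11,z11,z14,z0,y11]),(z1,[y4,y4,y4,y4,z3,z4]),(z1,[z8,z5,z5,z5,y3,y5])],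
    .ref k12 k0 [(z1,[z8,z3,z0,z0,y8]),(z1,[y1,z0,z3,z0,z1]),(z2,[y11,z0,z0,z6,z11]),(z1,[z2,z0,z0,z0,z1]),(z1,[y4,y3,
    y3,y3,z1,z3])],.ref k12 k0 [(z1,[y2,y3,y6,y6,y6,z6]),(z4,[z1,z3,z15,z3,z3,y3]),(z8,[z11,z33,z33,z57,z33,y33]),(z2,
    [y1,y3,y3,y3,z3,z3]),(z1,[z1])],.ref k12 k0 [(z5,[y16,y17,y32,y32,y32,z32]),(z5,[z2,z4,z19,z4,z4,y4]),(z5,[z11,
    z22,z22,z37,z22,y22]),(z5,[y4,y8,y8,y8,z7,z8]),(z5,[z8,z1,z1,z1,z1,y1])],.ref k12 k0 [(z1,[y8,y5,y8,y8,y8,z8]),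
    (z1,[z1,z1,z4,z1,z1,y1]),(z2,[z11,z11,z11,z17,z11,y11]),(z1,[y2,y2,y2,y2,z1,z2]),(z1,[z4,z1,z1,z1,z1,y1])],
    .ref k12 k0 [(z1,[z16,z3]),(z1,[y2,z0,z3]),(z1,[y11,z0,z0,z3]),(z1,[z4,z0,z0,z0,z3]),(z1,[y8,y3,y3,y3,y3,z3])]],
    .leafM k0 [k0,k1,k2,k3,k4,k5] [(z4,[z0,z2,z1,z1])] []]

noncomputable def cT6_3_n2_2 : List TN :=
  [.lp [k160,k166,k168,k150,k162,k152] [k4,k4,k1,k1,k0,k0,k9,k9,k3,k3,k8,k8] k0 [[k0,k0,k0,k0,k0,k0,k10],[k0,k0,k0,k4,k0,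
    k10],[k4,k0,k0,k0,k0,k0,k0,k0,k0,k0,k4],[k0,k0,k0,k0,k0,k6],[k10,k0,k6],[k0,k0,k0,k0,k0,k0,k0,k2],[k0,k0,k0,k0,k2,
    k0,k0,k0,k22],[k0,k10],[k0,k0,k0,k0,k0,k0,k0,k0,k0,k0,k16],[k0,k0,k0,k0,k0,k0,k0,k22],[],[k0,k0,k0,k4,k0,k0,k0,k0,
    k0,k16]] (nat_lit 480) k5
    [[(k8,k145),(k6,k155),(k10,k156),(k2,k159),(k0,k160),(k4,k164)],[(k9,k151),(k11,k156),(k1,k160),(k3,k163),(k7,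
    k165),(k5,k168)],[(k4,k157),(k10,k159),(k2,k162),(k0,k163),(k8,k164),(k6,k168)],[(k1,k159),(k11,k159),(k3,k162),
    (k7,k164),(k9,k164),(k5,k167)],[(k6,k159),(k4,k162),(k10,k164),(k8,k165),(k2,k167),(k0,k168)],[(k3,k157),(k7,
    k159),(k11,k160),(k5,k162),(k1,k164),(k9,k167)],[(k6,k148),(k10,k151),(k8,k156),(k4,k159),(k2,k164),(k0,k165)],
    [(k11,k129),(k7,k148),(k1,k155),(k9,k156),(k5,k159),(k3,k168)],[(k0,k151),(k6,k156),(k10,k157),(k2,k164),(k4,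
    k167),(k8,k184)],[(k1,k145),(k7,k156),(k11,k157),(k3,k164),(k5,k165),(k9,k184)],[(k6,k129),(k0,k156),(k8,k157),
    (k2,k159),(k4,k160),(k10,k168)],[(k7,k151),(k1,k156),(k9,k157),(k3,k159),(k5,k164),(k11,k168)]]
    [] k0
    [[k2,k0,k0,k0,k1,k0],[k2,k0,k0,k0,k0,k1],[k1,k1,k0,k0,k1,k0],[k1,k1,k0,k0,k0,k1],[k1,k0,k0,k2,k0,k0],[k1,k0,k0,k1,
    k1,k0],[k1,k0,k0,k1,k0,k1],[k1,k0,k0,k0,k1,k1],[k0,k1,k0,k1,k0,k1],[k0,k0,k1,k2,k0,k0],[k0,k0,k1,k1,k0,k1],[k0,k0,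
    k0,k3,k0,k0],[k0,k0,k0,k2,k1,k0],[k0,k0,k0,k2,k0,k1],[k0,k0,k0,k1,k1,k1],[k0,k0,k0,k1,k0,k2]]
    [.ref k12 k0 [(z1,[z2,z1,z2,z2,z2,y2]),(z1,[y7,z7,y4,y7,y7,z7]),(z1,[z2,y2,z2,z5,z2,y2]),(z2,[z7,y7,z7,z7,z13,
    y7]),(z1,[y1,y2,y4,y4,y4,z4])],.ref k12 k0 [(z3,[z4,z1]),(z3,[y14,z28,z9]),(z3,[z4,y8,z0,z9]),(z3,[z7,y14,z0,z0,
    z9]),(z3,[y2,y5,y9,y9,y9,z9])],.ref k12 k0 [(z1,[y1,z3,z0,y1,y1,z1]),(z2,[z7,z0,z6,z7,z7,y7]),(z1,[y1,z0,z0,z2,y1,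
    z1]),(z4,[y7,z0,z0,y7,z5,z7]),(z2,[z1,y6,y6,y5,y5,z5])],.ref k12 k0 [(z3,[y4,z13,z4]),(z3,[z14,y14,y5]),(z3,[y4,
    z4,z4,z9]),(z3,[y7,z7,z7,z0,z9]),(z3,[z2,y11,y11,y9,y9,z9])],.ref k12 k0 [(z3,[z2,z7,z0,z0,y4]),(z3,[y7,z7,z9,z0,
    z14]),(z3,[z2,y2,z0,z9,y4]),(z6,[z7,y7,z0,z0,z4]),(z3,[y1,y8,y9,y9,y7,z9])],.ref k12 k0 [(z3,[z4,z9,z4,z4,z0,y4]),
    (z3,[y14,z0,y5,y14,z0,z14]),(z3,[z4,z0,z4,z13,z0,y4]),(z3,[z7,z0,z7,z7,z9,y7]),(z3,[y2,y9,y11,y11,y9,z11])],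
    .ref k12 k0 [(z1,[z1,z2,z0,z0,y1]),(z2,[y7,z7,z6,z0,z7]),(z1,[z1,y1,z0,z3,y1]),(z4,[z7,y7,z0,z0,z5]),(z2,[y1,y5,
    y6,y6,y5,z6])],.ref k12 k0 [(z1,[z4,z3,z4,z4,z4,y4]),(z1,[y14,z0,y11,y14,y14,z14]),(z1,[z4,z0,z4,z7,z4,y4]),(z1,
    [z7,z0,z7,z7,z10,y7]),(z1,[y2,y3,y5,y5,y5,z5])],.ref k12 k0 [(z1,[y2,z3,z2,z0,z2]),(z1,[z7,z0,y4,z0,y7]),(z1,[y2,
    z0,z2,z3,z2]),(z2,[y7,z0,z7,z0,z13]),(z1,[z1,y3,y4,y3,y4,z3])],.ref k12 k0 [(z3,[z2,z9,z0,y2,y4]),(z3,[y7,z0,z9,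
    z7,z14]),(z3,[z2,z0,z0,z7,y4]),(z6,[z7,z0,z0,y7,z4]),(z3,[y1,y9,y9,y8,y7,z9])],.ref k12 k0 [(z1,[z1,z3,z0,y1,y1]),
    (z2,[y7,z0,z6,z7,z7]),(z1,[z1,z0,z0,z2,y1]),(z4,[z7,z0,z0,y7,z5]),(z2,[y1,y6,y6,y5,y5,z6])],.ref k12 k0 [(z7,[z4,
    z21,z0,z0,y12]),(z1,[y2,z0,z3,z0,z6]),(z7,[z4,z0,z0,z21,y12]),(z1,[z1]),(z7,[y2,y21,y21,y21,y15,z21])],
    .ref k12 k0 [(z1,[z1,z4,z1,z1,y1,y1]),(z2,[y7,y7,y1,y7,z7,z7]),(z1,[z1,z1,z1,z4,y1,y1]),(z4,[z7,z7,z7,z7,z5,y7]),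
    (z2,[y1,y7,y7,y7,y5,z7])],.ref k12 k0 [(z5,[z4,z15,z0,z0,y8]),(z5,[y14,z0,z15,z0,z28]),(z5,[z4,z0,z0,z15,y8]),(z5,
    [z7,z0,z0,z0,z1]),(z5,[y2,y15,y15,y15,y11,z15])],.ref k12 k0 [(z1,[z2,z5,z2,z2,z0,y2]),(z1,[y7,y7,y4,y7,z0,z7]),
    (z1,[z2,z2,z2,z5,z0,y2]),(z2,[z7,z7,z7,z7,z6,y7]),(z1,[y1,y4,y4,y4,y3,z4])],.ref k12 k0 [(z3,[z4,z9,z0,z0,y4]),
    (z3,[y14,z0,z9,z0,z14]),(z3,[z4,z0,z0,z9,y4]),(z3,[z7,z0,z0,z0,z2]),(z3,[y2,y9,y9,y9,y7,z9])]],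
    .lp [k164,k164,k156,k180,k134,k160] [k8,k8,k8,k8,k12,k12,k0,k0,k23,k23,k20,k0] k0 [[k0,k0,k0,k0,k0,k0,k4,k0,k0,k0,k4],
    [k0,k0,k0,k0,k0,k4],[k0,k0,k0,k0,k0,k0,k0,k0,k10],[k0,k0,k0,k0,k0,k32],[k4,k0,k32],[k0,k0,k0,k0,k0,k0,k0,k12,k0,
    k2],[k0,k0,k0,k0,k12,k0,k0,k0,k60],[k0,k4,k0,k0,k0,k0,k0,k0,k0,k0,k0,k8],[k0,k0,k0,k0,k2,k0,k0,k0,k0,k0,k2],[k0,
    k0,k0,k10,k0,k0,k0,k60],[k0,k0,k0,k0,k0,k0,k8],[k0,k4,k0,k0,k0,k0,k0,k0,k0,k2]] (nat_lit 480) k5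
    [[(k8,k147),(k10,k152),(k0,k160),(k4,k160),(k2,k164),(k6,k180)],[(k9,k145),(k1,k160),(k5,k160),(k3,k164),(k11,
    k172),(k7,k176)],[(k8,k149),(k4,k156),(k10,k156),(k0,k164),(k2,k164),(k6,k176)],[(k9,k149),(k5,k160),(k11,k162),
    (k1,k164),(k3,k164),(k7,(nat_lit 204))],[(k4,k124),(k10,k148),(k8,k155),(k0,k160),(k2,k160),(k6,k168)],[(k5,k124),
    (k3,k156),(k9,k157),(k1,k160),(k7,k168),(k11,k170)],[(k8,k155),(k10,k160),(k4,k168),(k6,k168),(k0,k176),(k2,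
    (nat_lit 204))],[(k11,k120),(k9,k157),(k5,k168),(k7,k168),(k3,k176),(k1,k180)],[(k10,k129),(k0,k145),(k2,k149),
    (k4,k157),(k6,k157),(k8,k194)],[(k1,k147),(k3,k149),(k5,k155),(k7,k155),(k11,k157),(k9,k194)],[(k6,k120),(k8,
    k157),(k2,k162),(k10,k162),(k4,k170),(k0,k172)],[(k9,k129),(k5,k148),(k1,k152),(k3,k156),(k7,k160),(k11,k162)]]
    [] k0
    [[k2,k0,k0,k0,k1,k0],[k1,k1,k0,k0,k1,k0],[k1,k0,k2,k0,k0,k0],[k1,k0,k1,k0,k1,k0],[k1,k0,k0,k0,k1,k1],[k1,k1,k0,k0,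
    k0,k1],[k1,k0,k0,k1,k0,k1],[k0,k2,k0,k0,k1,k0],[k0,k1,k2,k0,k0,k0],[k0,k1,k1,k0,k1,k0],[k0,k1,k1,k0,k0,k1],[k0,k1,
    k0,k0,k1,k1],[k0,k0,k3,k0,k0,k0],[k0,k0,k2,k1,k0,k0],[k0,k0,k2,k0,k1,k0],[k0,k0,k2,k0,k0,k1],[k0,k0,k1,k0,k1,k1],
    [k0,k0,k1,k1,k0,k1],[k0,k0,k0,k2,k0,k1],[k0,k0,k0,k1,k1,k1],[k0,k0,k0,k1,k0,k2],[k0,k0,k0,k0,k1,k2]]
    [.ref k97 k10 [(z1,[z4,y2,z5,z0,y4]),(z1,[z0,z1,z0,z1]),(z1,[y2,z1,y2,z0,z2]),(z1,[z1,y1,z0,y1])],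
    .ref k106 k6 [(z1,[y4,z0,y5,y2,z4]),(z1,[z1,z0,z2,z1,y1]),(z1,[z0,y2,y5,y4,z4]),(z1,[z0,z0,z1])],
    .ref k107 k11 [(z1,[y1,z2,z0,z2]),(z1,[z0,z0,z1]),(z1,[z0,y2,y5,y4,z4]),(z1,[y4,z2,z9,z8])],.ref k108 k3 [(z1,[z4,
    y2,z5,z0,y4]),(z1,[z0,z1,z0,z1]),(z1,[y3,z1,y3,z0,z3]),(z1,[z1,y1,z0,y1])],.ref k108 k3 [(z1,[y4,y2,y3,y4,z4]),
    (z1,[z0,z1,z0,z1]),(z1,[z3,z1,z3,z3,y3]),(z1,[y1,y1,y2,y2,z2])],.ref k109 k1 [(z1,[y1,z0,z1]),(z1,[z1,y1,y3,y2,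
    z2]),(z1,[y3,y1,z3]),(z1,[z0,z1,z0,z1])],.ref k64 k5 [(z1,[y6,z3,z0,z1]),(z1,[z4,y2,z1]),(z1,[z3,y1]),(z1,[y2,
    z1])],.ref k110 k0 [(z3,[z1,z2,y1,z1,y1]),(z3,[z4,z2,z5,z4,y4]),(z3,[y2,y1,z2,z1,z2]),(z3,[z1,y4,y10,y8,z8])],
    .ref k108 k3 [(z1,[z1,y2,z0,y2]),(z1,[z0,z1,z0,z1]),(z4,[y3,z4,z3,z6]),(z4,[z1,y4,y5,y6,z4])],.ref k64 k5 [(z1,
    [z6,z3,z0,z1,y6]),(z1,[y4,y2,z1,z0,z4]),(z1,[y3,y1,z0,z0,z3]),(z1,[z2,z1,z0,z0,y2])],.ref k108 k3 [(z1,[z2,y2,y1,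
    y2]),(z1,[z0,z1,z0,z1]),(z2,[y3,z2,z3,z3]),(z2,[z1,y2,y3,y3,z2])],.ref k110 k0 [(z1,[z1,z1,z0,z1,y1]),(z1,[z4,z2,
    z3,z4,y4]),(z1,[y2,y1,z0,y1,z2]),(z1,[z1,y1,y3,y2,z2])],.ref k107 k11 [(z2,[y1,z3,z0,z3]),(z1,[z0,z0,z1]),(z1,[z0,
    y2,y5,y4,z4]),(z1,[y2,z0,z9,z6])],.ref k111 k10 [(z1,[y4,z0,z3,z2]),(z1,[z0,z1,z0,z1]),(z1,[z2,z0,z0,y1]),(z1,[y2,
    y3,y6,y5,z6])],.ref k112 k3 [(z1,[z4,y6,z5,y4,y4]),(z1,[z0,z1,z0,z1]),(z1,[y3,z4,y3,z3,z3]),(z1,[z1,y2,z0,y2])],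
    .ref k97 k10 [(z1,[y2,z0,z1]),(z1,[z0,z1,z0,z1]),(z1,[z1]),(z2,[y1,y1,y2,y2,z2])],.ref k97 k10 [(z1,[y4,y2,y3,y4,
    z4]),(z1,[z0,z1,z0,z1]),(z1,[z2,z1,z2,z2,y2]),(z1,[y1,y1,y2,y2,z2])],.ref k106 k6 [(z1,[z4,z0,y5,y2]),(z1,[y1,z0,
    z2,z1]),(z1,[z0,y2,y5,y4,z4]),(z1,[z0,z0,z1])],.ref k113 k11 [(z2,[z1,z1,y2]),(z1,[z0,z0,z1]),(z1,[z0,y2,y5,y4,
    z4]),(z1,[z2,z0,y1])],.ref k113 k11 [(z1,[z1,z1,z0,z1,y1]),(z1,[z0,z0,z1]),(z1,[z0,y2,y5,y4,z4]),(z1,[z4,z2,z3,z4,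
    y4])],.ref k114 k2 [(z1,[z1,z2,z4,z4,y4]),(z1,[y2,y7,y14,y13,z14]),(z1,[z0,z2,z5,z4,y4]),(z1,[z1,z4,z7,z7,y7])],
    .ref k110 k0 [(z1,[y1,z0,y1,y1,z1]),(z1,[y4,y2,y1,y4,z4]),(z1,[z2,z1,z2,z3,y2]),(z1,[y1,y2,y4,y4,z4])]],
    .lp [k78,k86,k86,k82,k58,k88] [k12,k12,k8,k8,k8,k8,k10,k10,k22,k22,k14,k0] k0 [[k0,k0,k0,k0,k0,k0,k4],[k0,k0,k0,k0,k0,
    k0,k0,k0,k0,k0,k0,k2],[k0,k0,k0,k0,k4,k0,k0,k0,k0,k0,k10],[k0,k0,k0,k0,k0,k0,k0,k10,k0,k8],[k0,k0,k0,k0,k0,k0,k0,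
    k0,k34],[k0,k0,k0,k4,k0,k0,k0,k0,k0,k0,k0,k4],[k0,k0,k10,k0,k0,k0,k0,k0,k8],[k0,k4],[k0,k0,k8,k0,k0,k0,k0,k0,k0,
    k0,k6],[k0,k0,k0,k0,k0,k34,k0,k8],[k2,k0,k0,k0,k4],[k0,k0,k0,k10,k0,k0,k0,k0,k0,k6]] (nat_lit 240) k5
    [[(k8,k62),(k2,k72),(k10,k76),(k0,k80),(k6,k80),(k4,k86)],[(k9,k64),(k1,k80),(k7,k80),(k3,k82),(k5,k82),(k11,
    k90)],[(k8,k72),(k10,k78),(k0,k82),(k2,k86),(k4,k86),(k6,k88)],[(k1,k72),(k7,k80),(k9,k82),(k3,k86),(k5,k86),(k11,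
    k102)],[(k8,k64),(k6,k74),(k0,k82),(k2,k86),(k4,k90),(k10,k90)],[(k11,k60),(k9,k72),(k7,k84),(k1,k86),(k3,k86),
    (k5,k90)],[(k10,k74),(k0,k80),(k2,k80),(k6,k82),(k4,k84),(k8,k104)],[(k9,k70),(k5,k74),(k1,k80),(k7,k82),(k11,
    k84),(k3,k88)],[(k0,k64),(k8,k66),(k10,k66),(k6,k70),(k4,k72),(k2,k82)],[(k1,k62),(k5,k64),(k9,k66),(k3,k72),(k11,
    k80),(k7,k104)],[(k4,k60),(k8,k80),(k6,k84),(k0,k90),(k10,k94),(k2,k102)],[(k9,k66),(k7,k74),(k1,k76),(k3,k78),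
    (k5,k90),(k11,k94)]]
    [] k0
    [[k2,k1,k0,k0,k0,k0],[k2,k0,k0,k0,k1,k0],[k1,k1,k0,k0,k1,k0],[k1,k0,k1,k0,k1,k0],[k1,k0,k0,k1,k1,k0],[k1,k0,k0,k0,
    k2,k0],[k1,k0,k0,k0,k1,k1],[k1,k0,k1,k0,k0,k1],[k0,k1,k1,k0,k1,k0],[k0,k1,k0,k1,k1,k0],[k0,k1,k0,k0,k2,k0],[k0,k1,
    k1,k0,k0,k1],[k0,k0,k2,k0,k1,k0],[k0,k0,k1,k1,k0,k1],[k0,k0,k1,k1,k1,k0],[k0,k0,k1,k0,k2,k0],[k0,k0,k1,k0,k1,k1],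
    [k0,k0,k0,k1,k1,k1],[k0,k0,k0,k0,k3,k0],[k0,k0,k0,k0,k2,k1]]
    [.ref k12 k0 [(z6,[z13,y8,y13]),(z3,[y4,z8,z13]),(z3,[y4,z8,z4,z9]),(z3,[z2,y4,y2,z0,z9]),(z3,[y1,y7,y8,y9,y9,
    z9])],.ref k12 k0 [(z8,[z13,z11,z13,z13,z13,y13]),(z1,[y1,z1,z2,y1,y1,z1]),(z1,[y1,z1,y1,z2,y1,z1]),(z2,[z1,y1,z1,
    z1,z7,y1]),(z4,[y1,y11,y13,y13,y13,z13])],.ref k12 k0 [(z1,[z13,z3,z0,z13,z13,y13]),(z1,[y8,z0,z3,y8,y8,z8]),(z1,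
    [y8,z0,z0,y5,y8,z8]),(z1,[z4,z0,z0,z4,z7,y4]),(z1,[y2,y3,y3,y5,y5,z5])],.ref k12 k0 [(z1,[z13,z3,z13,z0,z13,y13]),
    (z1,[y8,z0,y5,z0,y8,z8]),(z1,[y8,z0,y8,z3,y8,z8]),(z1,[z4,z0,z4,z0,z7,y4]),(z1,[y2,y3,y5,y3,y5,z5])],
    .ref k12 k0 [(z5,[z13,z15,z13,z13,z0,y13]),(z5,[y8,z0,z7,y8,z0,z8]),(z5,[y8,z0,y8,z7,z0,z8]),(z5,[z4,z0,z4,z4,z15,
    y4]),(z5,[y2,y15,y17,y17,y15,z17])],.ref k12 k0 [(z3,[z13,z22,z26,z26,z26,y26]),(z3,[y8,y8,y7,y16,y16,z16]),(z3,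
    [y8,y8,y16,y7,y16,z16]),(z3,[z4,z4,z8,z8,z17,y8]),(z3,[y2,y11,y13,y13,y13,z13])],.ref k12 k0 [(z4,[z13,z12,z13,
    z13,z13,y13]),(z1,[y2,z0,z1,y2,y2,z2]),(z1,[y2,z0,y2,z1,y2,z2]),(z1,[z1,z0,z1,z1,z4,y1]),(z2,[y1,y6,y7,y7,y7,
    z7])],.ref k12 k0 [(z2,[z13,y7,z0,y13]),(z1,[y4,z4,z3,z4]),(z1,[y4,z4,z0,z7]),(z1,[z2,y2,z0,y2,z3]),(z1,[y1,y2,y3,
    y2,y3,z3])],.ref k12 k0 [(z6,[y13,z5,z0,z0,y13,z13]),(z3,[z4,z4,z9,z0,z4,y4]),(z3,[z4,z4,z0,z9,z4,y4]),(z3,[y2,y2,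
    z0,z0,z7,z2]),(z3,[z1,y8,y9,y9,y8,z8])],.ref k12 k0 [(z2,[y13,y7,z0,y13,z0,z13]),(z1,[z4,z4,z3,z4,z0,y4]),(z1,[z4,
    z4,z0,z7,z0,y4]),(z1,[y2,y2,z0,y2,z3,z2]),(z1,[z1,y2,y3,y2,y3,z2])],.ref k12 k0 [(z4,[y13,y14,y13,y26,y26,z26]),
    (z1,[z2,z4,z5,z4,z4,y4]),(z1,[z2,z4,z2,z7,z4,y4]),(z1,[y1,y2,y1,y2,z1,z2]),(z2,[z1,y4,y5,y4,y4,z4])],
    .ref k12 k0 [(z5,[y13,z15,z13,z13]),(z5,[z8,z0,z7,y8]),(z5,[z8,z0,y8,z7]),(z5,[y4,z0,z4,z4,z15]),(z5,[z2,y15,y17,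
    y17,y15,z15])],.ref k12 k0 [(z6,[y13,z5,y13,z13,y13,z13]),(z3,[z4,z4,z13,y4,z4,y4]),(z3,[z4,z4,z4,z5,z4,y4]),(z3,
    [y2,y2,y2,z2,z7,z2]),(z3,[z1,y8,y8,y10,y8,z8])],.ref k12 k0 [(z1,[y13,z3,z0,z13,z13]),(z1,[z8,z0,z3,y8,y8]),(z1,
    [z8,z0,z0,y5,y8]),(z1,[y4,z0,z0,z4,z7]),(z1,[z2,y3,y3,y5,y5,z3])],.ref k12 k0 [(z2,[y13,y7,y13,z0,z0,z13]),(z1,
    [z4,z4,z7,z0,z0,y4]),(z1,[z4,z4,z4,z3,z0,y4]),(z1,[y2,y2,y2,z0,z3,z2]),(z1,[z1,y2,y2,y3,y3,z2])],.ref k12 k0 [(z4,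
    [y13,y14,y26,y13,y26,z26]),(z1,[z2,z4,z7,z2,z4,y4]),(z1,[z2,z4,z4,z5,z4,y4]),(z1,[y1,y2,y2,y1,z1,z2]),(z2,[z1,y4,
    y4,y5,y4,z4])],.ref k12 k0 [(z3,[y13,y4,y13,z0,y13,z13]),(z3,[z8,z8,z17,z0,z8,y8]),(z3,[z8,z8,z8,z9,z8,y8]),(z3,
    [y4,y4,y4,z0,z5,z4]),(z3,[z2,y7,y7,y9,y7,z7])],.ref k12 k0 [(z1,[z13,z16,z13,z13,z0,y13]),(z1,[y8,y8,y5,y8,z0,
    z8]),(z1,[y8,y8,y8,y5,z0,z8]),(z1,[z4,z4,z4,z4,z3,y4]),(z1,[y2,y5,y5,y5,y3,z5])],.ref k12 k0 [(z2,[y13,y33,y39,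
    y39,y39,z39]),(z1,[z4,z12,z15,z12,z12,y12]),(z1,[z4,z12,z12,z15,z12,y12]),(z1,[y2,y6,y6,y6,y3,z6]),(z1,[z1])],
    .ref k12 k0 [(z1,[y13,y23,y26,y26,y26,z26]),(z1,[z8,z16,z19,z16,z16,y16]),(z1,[z8,z16,z16,z19,z16,y16]),(z1,[y4,
    y8,y8,y8,y5,z8]),(z1,[z2,z1,z1,z1,z1,y1])]],
    .lp [k168,k170,k154,k164,k140,k162] [k1,k1,k0,k0,k8,k8,k3,k3,k15,k15,k4,k4] k0 [[k0,k0,k0,k0,k0,k0,k0,k0,k4,k0,k8],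
    [k0,k0,k0,k0,k0,k0,k0,k8],[k0,k0,k0,k0,k8,k0,k0,k0,k0,k0,k10],[k0,k0,k0,k0,k0,k0,k0,k0,k0,k4],[k0,k0,k0,k0,k0,k0,
    k12],[k0,k0,k0,k8],[k8],[k0,k0,k0,k0,k0,k12],[k0,k0,k4],[k0,k4,k0,k0,k0,k0,k0,k0,k0,k0,k0,k8],[k0,k0,k0,k0,k0,k0,
    k0,k0,k8],[k0,k8,k0,k10]] (nat_lit 480) k5
    [[(k2,k159),(k0,k160),(k4,k161),(k8,k162),(k10,k165),(k6,k166)],[(k1,k160),(k5,k161),(k11,k161),(k9,k162),(k7,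
    k166),(k3,k169)],[(k6,k159),(k8,k159),(k4,k162),(k0,k169),(k2,k170),(k10,k174)],[(k9,k155),(k1,k159),(k7,k159),
    (k5,k162),(k3,k170),(k11,k170)],[(k8,k143),(k6,k159),(k0,k161),(k2,k162),(k4,k162),(k10,k168)],[(k9,k135),(k11,
    k158),(k7,k159),(k1,k161),(k3,k162),(k5,k162)],[(k8,k152),(k2,k159),(k4,k159),(k10,k163),(k0,k166),(k6,k176)],
    [(k9,k152),(k3,k159),(k5,k159),(k11,k163),(k1,k166),(k7,k176)],[(k4,k135),(k8,k140),(k10,k151),(k6,k152),(k2,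
    k155),(k0,k162)],[(k9,k140),(k5,k143),(k11,k151),(k7,k152),(k3,k159),(k1,k162)],[(k8,k151),(k10,k154),(k4,k158),
    (k0,k161),(k6,k163),(k2,k170)],[(k9,k151),(k11,k154),(k7,k163),(k1,k165),(k5,k168),(k3,k174)]]
    [] k0
    [[k1,k0,k1,k0,k1,k0],[k1,k0,k0,k0,k2,k0],[k1,k0,k0,k0,k1,k1],[k0,k1,k1,k0,k1,k0],[k0,k1,k0,k1,k1,k0],[k0,k1,k0,k0,
    k2,k0],[k0,k0,k2,k0,k1,k0],[k0,k0,k1,k1,k1,k0],[k0,k0,k1,k0,k2,k0],[k0,k0,k1,k0,k1,k1],[k0,k0,k0,k1,k2,k0],[k0,k0,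
    k0,k1,k1,k1],[k0,k0,k0,k0,k3,k0],[k0,k0,k0,k0,k2,k1],[k0,k0,k0,k0,k1,k2],[k0,k0,k0,k0,k0,k3]]
    [.ref k12 k0 [(z1,[y6,z3,y3,z0,y2,z6]),(z1,[z3,z0,z3,z0,z1,y3]),(z4,[y6,z0,y3,z3,y2,z6]),(z1,[z0,z0,z0,z0,z1]),
    (z4,[z42,y12,z15,y3,z10,y30])],.ref k12 k0 [(z5,[y6,z9,y6,y3,y4,z12]),(z10,[z6,z6,z21,z3,z4,y12]),(z10,[y3,y3,y3,
    z6,y2,z6]),(z1,[z0,z0,z0,z0,z1]),(z10,[z21,y9,z6,z3,z4,y12])],.ref k12 k0 [(z1,[z12,z3,z6,z3,z4,y12]),(z2,[y12,z0,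
    y3,y3,y4,z12]),(z2,[z6,z0,z3,z3,z2,y6]),(z1,[z0,z0,z0,z0,z1]),(z1,[y21,y3,y12,y6,y8,z24])],.ref k12 k0 [(z2,[y3,
    z3,z0,z0,y1,z3]),(z4,[z3,z3,z6,z0,z1,y3]),(z8,[y3,y3,z0,z6,y1,z3]),(z1,[z0,z0,z0,z0,z1]),(z8,[z21,y3,y12,y6,y1,
    z3])],.ref k12 k0 [(z3,[y4,z5,z0,y1,z0,z4]),(z6,[z4,z4,z9,z1,z0,y4]),(z3,[y1,y1,z0,z2,z0,z1]),(z1,[z0,z0,z0,z0,
    z1]),(z6,[z14,y4,y9,y1,y6,z4])],.ref k12 k0 [(z8,[y6,z12,y3,y3,y4,z12]),(z16,[z6,z12,z27,z3,z4,y12]),(z32,[y6,y12,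
    y3,z21,y4,z12]),(z1,[z0,z0,z0,z0,z1]),(z32,[z42,y12,y27,y3,y4,z12])],.ref k12 k0 [(z5,[y12,z3,y6,z3,y4,z12]),(z10,
    [z12,z12,z21,y3,z4,y12]),(z10,[y6,y6,y3,z9,y2,z6]),(z1,[z0,z0,z0,z0,z1]),(z5,[z21,z6,z3,y9,z2,y6])],
    .ref k12 k0 [(z1,[y2,z1,y1,z0,z0,z2]),(z1,[z1,z1,z2,z0,z0,y1]),(z4,[y2,y2,y1,z3,z0,z2]),(z1,[z0,z0,z0,z0,z1]),(z4,
    [z14,z2,z1,y3,y4,y2])],.ref k12 k0 [(z13,[y12,z15,y12,y3,y8,z24]),(z26,[z12,z24,z51,z3,z8,y24]),(z13,[y3,y6,y3,z9,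
    y2,z6]),(z1,[z0,z0,z0,z0,z1]),(z26,[z42,z6,z3,y9,z2,y6])],.ref k12 k0 [(z1,[y6,y3,y3,z0,y2,z6]),(z1,[z3,z3,z3,z0,
    z1,y3]),(z4,[y6,y6,y3,z3,y2,z6]),(z1,[z0,z0,z0,z0,z1]),(z4,[z42,z30,z15,y3,z10,y30])],.ref k12 k0 [(z7,[y6,z9,y6,
    y3,y2,z12]),(z14,[z6,z12,z27,z3,z2,y12]),(z14,[y3,y6,y3,z9,y1,z6]),(z1,[z0,z0,z0,z0,z1]),(z2,[z3,z0,z0,z0,y1])],
    .ref k12 k0 [(z1,[y4,y1,y2,y1,z0,z4]),(z2,[z4,z4,z5,z1,z0,y4]),(z2,[y2,y2,y1,z1,z0,z2]),(z1,[z0,z0,z0,z0,z1]),(z1,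
    [z7,z4,z2,z1,y1,y4])],.ref k12 k0 [(z7,[y4,z9,y6,y3,y4,z12]),(z14,[z4,z12,z27,z3,z4,y12]),(z14,[y2,y6,y3,z9,y2,
    z6]),(z1,[z0,z0,z0,z0,z1]),(z1,[z1])],.ref k12 k0 [(z5,[y6,z3,y6,y3,y4,z12]),(z10,[z6,z12,z21,z3,z4,y12]),(z10,
    [y3,y6,y3,z6,y2,z6]),(z1,[z0,z0,z0,z0,z1]),(z10,[z21,z12,z6,z3,z4,y12])],.ref k12 k0 [(z1,[z12,z15,z6,z3,z4,y12]),
    (z2,[y12,y12,y3,y3,y4,z12]),(z2,[z6,z6,z3,z3,z2,y6]),(z1,[z0,z0,z0,z0,z1]),(z1,[y21,y24,y12,y6,y8,z24])],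
    .ref k12 k0 [(z1,[z1,z3]),(z2,[y1,z0,z3]),(z4,[z1,z0,z0,z3]),(z1,[z0,z0,z0,z0,z1]),(z4,[y7,y12,y6,y3,y4,z12])]],
    .lp [k160,k160,k174,k148,k168,k148] [k7,k7,k7,k7,k0,k0,k13,k13,k3,k3,k13,k13] k0 [[k0,k0,k0,k0,k0,k0,k24,k0,k4],[],[],
    [k0,k0,k0,k0,k0,k12,k0,k4],[k0,k0,k12],[k0,k0,k0,k0,k0,k0,k0,k12,k0,k0,k0,k2],[k0,k0,k4,k0,k12],[k0,k24,k0,k0,k0,
    k0,k0,k0,k0,k4],[k0,k0,k0,k0,k0,k0,k4,k0,k0,k0,k34],[k0,k4],[k0,k0,k0,k0,k2],[k0,k0,k0,k0,k0,k0,k0,k0,k0,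
    k34]] (nat_lit 480) k5
    [[(k8,k130),(k6,k154),(k10,k154),(k0,k160),(k2,k160),(k4,k169)],[(k9,k140),(k11,k150),(k7,k154),(k1,k160),(k3,
    k160),(k5,k167)],[(k10,k154),(k0,k160),(k2,k160),(k4,k167),(k8,k168),(k6,k178)],[(k11,k154),(k1,k160),(k3,k160),
    (k7,k166),(k5,k167),(k9,k168)],[(k6,k157),(k10,k161),(k4,k162),(k0,k167),(k2,k167),(k8,k171)],[(k7,k161),(k11,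
    k161),(k5,k162),(k3,k167),(k1,k169),(k9,k183)],[(k6,k136),(k10,k146),(k0,k154),(k8,k158),(k4,k161),(k2,k166)],
    [(k7,k136),(k11,k152),(k1,k154),(k5,k157),(k9,k158),(k3,k178)],[(k0,k140),(k6,k158),(k10,k158),(k8,k164),(k2,
    k168),(k4,k183)],[(k1,k130),(k7,k158),(k11,k158),(k9,k164),(k3,k168),(k5,k171)],[(k0,k150),(k6,k152),(k2,k154),
    (k8,k158),(k4,k161),(k10,k182)],[(k7,k146),(k1,k154),(k3,k154),(k9,k158),(k5,k161),(k11,k182)]]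
    [] k0
    [[k2,k0,k0,k1,k0,k0],[k2,k0,k0,k0,k1,k0],[k2,k0,k0,k0,k0,k1],[k1,k1,k0,k0,k1,k0],[k1,k1,k0,k0,k0,k1],[k1,k0,k0,k2,
    k0,k0],[k1,k0,k0,k1,k1,k0],[k1,k0,k0,k1,k0,k1],[k1,k0,k0,k0,k2,k0],[k1,k0,k0,k0,k1,k1],[k0,k2,k0,k0,k0,k1],[k0,k1,
    k0,k1,k0,k1],[k0,k0,k1,k2,k0,k0],[k0,k0,k1,k1,k0,k1],[k0,k0,k0,k3,k0,k0],[k0,k0,k0,k2,k1,k0],[k0,k0,k0,k2,k0,k1],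
    [k0,k0,k0,k1,k1,k1]]
    [.ref k12 k0 [(z6,[z7,z4,z0,z0,y7]),(z3,[y7,z14,z9,z0,z7]),(z3,[z2,y4,z0,z9,y2]),(z3,[z2,y4,z0,z0,z7]),(z3,[y1,y7,
    y9,y9,y8,z9])],.ref k12 k0 [(z4,[z7,z5,z7,z7,z7,y7]),(z2,[y7,z7,y1,y7,y7,z7]),(z1,[z1,y1,z1,z4,z1,y1]),(z1,[z1,y1,
    z1,z1,z4,y1]),(z2,[y1,y5,y7,y7,y7,z7])],.ref k12 k0 [(z5,[z7,z1]),(z5,[y14,z28,z15]),(z5,[z4,y8,z0,z15]),(z5,[z4,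
    y8,z0,z0,z15]),(z5,[y2,y11,y15,y15,y15,z15])],.ref k12 k0 [(z3,[y7,z9,z0,y7,y7,z7]),(z3,[z14,z0,z9,z14,z14,y14]),
    (z3,[y4,z0,z0,z5,y4,z4]),(z3,[y4,z0,z0,y4,z5,z4]),(z3,[z2,y9,y9,y7,y7,z7])],.ref k12 k0 [(z2,[y7,z13,z7]),(z1,[z7,
    y7,y4]),(z1,[y2,z2,z2,z3]),(z1,[y2,z2,z2,z0,z3]),(z1,[z1,y4,y4,y3,y3,z3])],.ref k12 k0 [(z5,[z7,z8,z0,z0,y14]),
    (z5,[y14,z14,z15,z0,z28]),(z5,[z4,y4,z0,z15,y8]),(z5,[z4,y4,z0,z0,z7]),(z5,[y2,y13,y15,y15,y11,z15])],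
    .ref k12 k0 [(z3,[z7,z9,z7,z7,z0,y7]),(z3,[y14,z0,y5,y14,z0,z14]),(z3,[z4,z0,z4,z13,z0,y4]),(z3,[z4,z0,z4,z4,z9,
    y4]),(z3,[y2,y9,y11,y11,y9,z11])],.ref k12 k0 [(z4,[z7,z5,z0,z0,y7]),(z2,[y7,z7,z6,z0,z7]),(z1,[z1,y1,z0,z3,y1]),
    (z1,[z1,y1,z0,z0,z2]),(z2,[y1,y5,y6,y6,y5,z6])],.ref k12 k0 [(z1,[z7,z10,z14,z14,z14,y14]),(z1,[y14,y14,y25,y28,
    y28,z28]),(z1,[z4,z4,z8,z11,z8,y8]),(z1,[z4,z4,z8,z8,z11,y8]),(z1,[y2,y5,y7,y7,y7,z7])],.ref k12 k0 [(z2,[z7,z6,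
    z7,z7,z7,y7]),(z1,[y7,z0,y4,y7,y7,z7]),(z1,[z2,z0,z2,z5,z2,y2]),(z1,[z2,z0,z2,z2,z5,y2]),(z1,[y1,y3,y4,y4,y4,
    z4])],.ref k12 k0 [(z9,[y7,z27,z14]),(z9,[z14,z0,y1]),(z9,[y4,z0,z8,z27]),(z9,[y4,z0,z8,z0,z27]),(z9,[z2,y27,y31,
    y27,y27,z27])],.ref k12 k0 [(z3,[y7,z9,z7,z0,z7]),(z3,[z14,z0,y5,z0,y14]),(z3,[y4,z0,z4,z9,z4]),(z3,[y4,z0,z4,z0,
    z13]),(z3,[z2,y9,y11,y9,y11,z9])],.ref k12 k0 [(z4,[z7,z12,z0,y7,y14]),(z2,[y7,z0,z6,z7,z14]),(z1,[z1,z0,z0,z2,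
    y2]),(z1,[z1,z0,z0,y1,z1]),(z2,[y1,y6,y6,y5,y4,z6])],.ref k12 k0 [(z3,[z7,z9,z0,y7,y7]),(z3,[y14,z0,z9,z14,z14]),
    (z3,[z4,z0,z0,z5,y4]),(z3,[z4,z0,z0,y4,z5]),(z3,[y2,y9,y9,y7,y7,z9])],.ref k12 k0 [(z4,[z7,z12,z0,z0,y21]),(z2,
    [y7,z0,z6,z0,z21]),(z1,[z1,z0,z0,z3,y3]),(z1,[z1]),(z2,[y1,y6,y6,y6,y3,z6])],.ref k12 k0 [(z2,[z7,z13,z7,z7,y7,
    y7]),(z1,[y7,y7,y4,y7,z7,z7]),(z1,[z2,z2,z2,z5,y2,y2]),(z1,[z2,z2,z2,z2,z1,y2]),(z1,[y1,y4,y4,y4,y2,z4])],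
    .ref k12 k0 [(z3,[z7,z9,z0,z0,y14]),(z3,[y14,z0,z9,z0,z28]),(z3,[z4,z0,z0,z9,y8]),(z3,[z4,z0,z0,z0,z1]),(z3,[y2,
    y9,y9,y9,y5,z9])],.ref k12 k0 [(z1,[z7,z10,z7,z7,z0,y7]),(z1,[y14,y14,y11,y14,z0,z14]),(z1,[z4,z4,z4,z7,z0,y4]),
    (z1,[z4,z4,z4,z4,z3,y4]),(z1,[y2,y5,y5,y5,y3,z5])]],
    .lp [k168,k170,k154,k164,k140,k162] [k1,k1,k0,k0,k8,k8,k3,k3,k15,k15,k4,k4] k0 [[k0,k0,k0,k0,k0,k0,k0,k0,k4,k0,k8],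
    [k0,k0,k0,k0,k0,k0,k0,k8],[k0,k0,k0,k0,k8,k0,k0,k0,k0,k0,k10],[k0,k0,k0,k0,k0,k0,k0,k0,k0,k4],[k0,k0,k0,k0,k0,k0,
    k12],[k0,k0,k0,k8],[k8],[k0,k0,k0,k0,k0,k12],[k0,k0,k4],[k0,k4,k0,k0,k0,k0,k0,k0,k0,k0,k0,k8],[k0,k0,k0,k0,k0,k0,
    k0,k0,k8],[k0,k8,k0,k10]] (nat_lit 480) k5
    [[(k2,k159),(k0,k160),(k4,k161),(k8,k162),(k10,k165),(k6,k166)],[(k1,k160),(k5,k161),(k11,k161),(k9,k162),(k7,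
    k166),(k3,k169)],[(k6,k159),(k8,k159),(k4,k162),(k0,k169),(k2,k170),(k10,k174)],[(k9,k155),(k1,k159),(k7,k159),
    (k5,k162),(k3,k170),(k11,k170)],[(k8,k143),(k6,k159),(k0,k161),(k2,k162),(k4,k162),(k10,k168)],[(k9,k135),(k11,
    k158),(k7,k159),(k1,k161),(k3,k162),(k5,k162)],[(k8,k152),(k2,k159),(k4,k159),(k10,k163),(k0,k166),(k6,k176)],
    [(k9,k152),(k3,k159),(k5,k159),(k11,k163),(k1,k166),(k7,k176)],[(k4,k135),(k8,k140),(k10,k151),(k6,k152),(k2,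
    k155),(k0,k162)],[(k9,k140),(k5,k143),(k11,k151),(k7,k152),(k3,k159),(k1,k162)],[(k8,k151),(k10,k154),(k4,k158),
    (k0,k161),(k6,k163),(k2,k170)],[(k9,k151),(k11,k154),(k7,k163),(k1,k165),(k5,k168),(k3,k174)]]
    [] k0
    [[k1,k0,k1,k0,k1,k0],[k1,k0,k0,k0,k2,k0],[k1,k0,k0,k0,k1,k1],[k0,k1,k1,k0,k1,k0],[k0,k1,k0,k1,k1,k0],[k0,k1,k0,k0,
    k2,k0],[k0,k0,k2,k0,k1,k0],[k0,k0,k1,k1,k1,k0],[k0,k0,k1,k0,k2,k0],[k0,k0,k1,k0,k1,k1],[k0,k0,k0,k1,k2,k0],[k0,k0,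
    k0,k1,k1,k1],[k0,k0,k0,k0,k3,k0],[k0,k0,k0,k0,k2,k1],[k0,k0,k0,k0,k1,k2],[k0,k0,k0,k0,k0,k3]]
    [.ref k12 k0 [(z8,[z14,z6,z7,z0,z7,y14]),(z4,[y14,z0,y1,z0,y7,z14]),(z8,[z2,z0,z1,z6,z1,y2]),(z4,[y2,z0,y1,z0,z5,
    z2]),(z4,[z4,y3,y4,y3,y4,z8])],.ref k12 k0 [(z10,[z14,z11,z14,z7,z14,y28]),(z10,[y28,y7,y13,y14,y28,z56]),(z20,
    [z4,z1,z4,z17,z4,y8]),(z10,[y4,y1,y4,y2,z11,z8]),(z20,[z16,y11,y14,y7,y14,z28])],.ref k12 k0 [(z20,[z28,z15,z14,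
    z7,z14,y28]),(z10,[y28,z0,z1,y7,y14,z28]),(z10,[z2,z0,z1,z8,z1,y2]),(z10,[y4,z0,y2,y1,z13,z4]),(z20,[z16,y15,y22,
    y11,y22,z44])],.ref k12 k0 [(z6,[y14,z1,z0,z0,y7,z14]),(z6,[z28,z7,z9,z0,z14,y28]),(z12,[y4,y1,z0,z9,y2,z4]),(z6,
    [z4,z1,z0,z0,z11,y4]),(z12,[y16,y13,y18,y9,y26,z52])],.ref k12 k0 [(z16,[y28,z5,z0,y7,z0,z28]),(z8,[z28,z7,z12,z7,
    z0,y28]),(z16,[y4,y1,z0,z11,z0,z4]),(z8,[z4,z1,z0,z1,z12,y4]),(z2,[y2,y2,y3,y2,y3,z8])],.ref k12 k0 [(z4,[y14,y4,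
    y7,y7,y14,z28]),(z2,[z14,z7,z10,z7,z14,y28]),(z4,[y2,y1,y1,z2,y2,z4]),(z2,[z2,z1,z1,z1,z5,y4]),(z4,[y8,y7,y10,y7,
    y14,z28])],.ref k12 k0 [(z8,[z28,z13,z14,y7,z14,y28]),(z4,[y28,y7,y8,z7,y14,z28]),(z8,[z4,z1,z2,z5,z2,y4]),(z4,
    [y4,y1,y2,z1,z4,z4]),(z4,[z8,y1,y2,y5,y2,z4])],.ref k12 k0 [(z2,[z14,z5,z7,z0,z0,y14]),(z2,[y28,y7,y11,z0,z0,
    z28]),(z4,[z4,z1,z2,z3,z0,y4]),(z2,[y4,y1,y2,z0,z3,z4]),(z4,[z16,z1,z2,y3,y6,y4])],.ref k12 k0 [(z12,[z28,z23,z28,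
    z7,z28,y56]),(z6,[y28,y14,y19,y7,y28,z56]),(z6,[z2,z1,z2,z5,z2,y4]),(z6,[y4,y2,y4,y1,z5,z8]),(z12,[z16,y1,y2,y5,
    y2,z4])],.ref k12 k0 [(z6,[z14,z8,z7,z0,z7,y14]),(z6,[y28,y7,y5,z0,y14,z28]),(z12,[z4,z1,z2,z9,z2,y4]),(z6,[y4,y1,
    y2,z0,z7,z4]),(z12,[z16,y5,y10,y9,y10,z20])],.ref k12 k0 [(z4,[z14,z10,z14,z7,z7,y28]),(z2,[y14,y7,y11,y7,y7,
    z28]),(z4,[z2,z1,z2,z4,z1,y4]),(z2,[y2,y1,y2,y1,z2,z4]),(z4,[z8,z1,z2,z1,y2,y4])],.ref k12 k0 [(z8,[z28,z13,z14,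
    z7,z0,y28]),(z4,[y28,y7,y8,y7,z0,z28]),(z8,[z4,z1,z2,z7,z0,y4]),(z4,[y4,y1,y2,y1,z6,z4]),(z4,[z8,y1,y2,y1,y6,
    z4])],.ref k12 k0 [(z16,[z28,z33,z42,z21,z42,y84]),(z8,[y28,y21,y30,y21,y42,z84]),(z16,[z4,z3,z6,z15,z6,y12]),(z8,
    [y4,y3,y6,y3,z6,z12]),(z1,[z1])],.ref k12 k0 [(z8,[z14,z13,z14,z7,z14,y28]),(z4,[y14,y7,y8,y7,y14,z28]),(z8,[z2,
    z1,z2,z7,z2,y4]),(z4,[y2,y1,y2,y1,z4,z4]),(z4,[z4,y1,y2,y1,y2,z4])],.ref k12 k0 [(z16,[z28,z19,z14,z7,z14,y28]),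
    (z8,[y28,y7,y2,y7,y14,z28]),(z16,[z4,z1,z2,z13,z2,y4]),(z8,[y4,y1,y2,y1,z10,z4]),(z2,[z2,y1,y2,y1,y2,z4])],
    .ref k12 k0 [(z4,[z7,z3]),(z2,[y7,z0,z3]),(z4,[z1,z0,z0,z3]),(z2,[y1,z0,z0,z0,z3]),(z4,[z4,y3,y6,y3,y6,z12])]],
    .lp [k162,k172,k162,k158,k158,k146] [k5,k5,k0,k0,k5,k5,k7,k7,k7,k7,k13,k13] k0 [[k0,k0,k0,k0,k0,k0,k0,k0,k2,k0,k2],
    [k0,k0,k0,k12],[k12,k0,k0,k0,k10],[k0,k0,k0,k0,k0,k0,k0,k2,k0,k6],[k0,k0,k0,k0,k0,k0,k6],[k0,k0,k0,k10,k0,k0,k0,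
    k0,k0,k0,k0,k12],[k0,k0,k2,k0,k0,k0,k0,k0,k18],[k0,k0,k0,k0,k0,k6],[k0,k0,k6,k0,k0,k0,k0,k0,k0,k0,k8],[k0,k2,k0,
    k0,k0,k0,k0,k18],[k0,k0,k0,k0,k12],[k0,k2,k0,k0,k0,k0,k0,k0,k0,k8]] (nat_lit 480) k5
    [[(k8,k152),(k10,k154),(k0,k160),(k6,k160),(k2,k167),(k4,k174)],[(k11,k152),(k1,k160),(k7,k160),(k9,k160),(k3,
    k167),(k5,k174)],[(k2,k160),(k10,k161),(k6,k165),(k0,k167),(k4,k167),(k8,k167)],[(k7,k155),(k3,k160),(k11,k165),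
    (k1,k167),(k5,k167),(k9,k167)],[(k8,k154),(k10,k154),(k6,k158),(k2,k167),(k4,k172),(k0,k174)],[(k9,k154),(k11,
    k154),(k7,k160),(k3,k167),(k5,k172),(k1,k174)],[(k10,k140),(k2,k155),(k8,k158),(k0,k160),(k4,k160),(k6,k164)],
    [(k11,k134),(k5,k158),(k9,k158),(k1,k160),(k7,k164),(k3,k165)],[(k10,k152),(k4,k154),(k6,k158),(k0,k160),(k2,
    k167),(k8,k176)],[(k1,k152),(k11,k152),(k5,k154),(k7,k158),(k3,k167),(k9,k176)],[(k6,k134),(k0,k152),(k8,k152),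
    (k4,k154),(k10,k154),(k2,k165)],[(k7,k140),(k9,k152),(k1,k154),(k5,k154),(k11,k154),(k3,k161)]]
    [] k0
    [[k2,k0,k0,k0,k1,k0],[k2,k0,k0,k0,k0,k1],[k1,k0,k0,k1,k1,k0],[k1,k0,k0,k1,k0,k1],[k1,k0,k0,k0,k1,k1],[k1,k0,k0,k0,
    k0,k2],[k0,k1,k0,k1,k0,k1],[k0,k0,k1,k1,k1,k0],[k0,k0,k1,k1,k0,k1],[k0,k0,k1,k0,k1,k1],[k0,k0,k1,k0,k0,k2],[k0,k0,
    k0,k2,k0,k1],[k0,k0,k0,k1,k1,k1],[k0,k0,k0,k1,k0,k2],[k0,k0,k0,k0,k1,k2],[k0,k0,k0,k0,k0,k3]]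
    [.ref k12 k0 [(z6,[z12,z6,z4,z1,z3,y12]),(z1,[z0,z0,z1]),(z24,[y84,z84,y28,y1,y21,z84]),(z24,[z12,y12,z4,z1,z21,
    y12]),(z3,[y3,y6,y4,y1,y3,z12])],.ref k12 k0 [(z1,[z1,z1]),(z1,[z0,z0,z1]),(z4,[y7,z14,z0,z1]),(z4,[z1,y2,z0,z0,
    z3]),(z4,[y2,y8,y4,y1,y3,z12])],.ref k12 k0 [(z3,[z12,z9,z4,z1,z0,y12]),(z1,[z0,z0,z1]),(z3,[y21,z0,y7,y1,z0,
    z21]),(z12,[z12,z0,z4,z1,z9,y12]),(z12,[y24,y36,y20,y5,y9,z60])],.ref k12 k0 [(z3,[z4,z5,z0,z0,y1]),(z1,[z0,z0,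
    z1]),(z12,[y28,z28,z0,z3,z7]),(z3,[z1,y1,z0,z0,z2]),(z12,[y8,y28,y12,y3,y7,z36])],.ref k12 k0 [(z6,[z12,z18,z4,z1,
    z3,y12]),(z1,[z0,z0,z1]),(z24,[y84,z0,y28,y1,y21,z84]),(z24,[z12,z0,z4,z1,z21,y12]),(z3,[y3,y9,y4,y1,y3,z12])],
    .ref k12 k0 [(z1,[z1,z2]),(z1,[z0,z0,z1]),(z4,[y7,z7,z0,z1]),(z4,[z1,y1,z0,z0,z3]),(z4,[y2,y10,y4,y1,y3,z12])],
    .ref k12 k0 [(z5,[z12,z15,y4,z0,y3]),(z1,[z0,z0,z1]),(z20,[y84,z0,z28,z5,z21]),(z5,[z3,z0,y1,z0,z3]),(z20,[y24,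
    y60,y12,y5,y9,z60])],.ref k12 k0 [(z2,[y3,z3,y1,z0,z0,z3]),(z1,[z0,z0,z1]),(z8,[z21,z21,z7,z2,z0,y21]),(z8,[y3,y3,
    y1,z0,z6,z3]),(z4,[z3,y9,y3,y1,y3,z9])],.ref k12 k0 [(z2,[y12,z6,z0,z1,z3]),(z1,[z0,z0,z1]),(z8,[z84,z0,z0,y5,
    y21]),(z8,[y12,z0,z0,z1,z9]),(z2,[z6,y6,y2,y1,y3,z6])],.ref k12 k0 [(z5,[y12,z3,y4,z0,y3,z12]),(z1,[z0,z0,z1]),
    (z20,[z84,z84,z28,z5,z21,y84]),(z5,[y3,y3,y1,z0,z3,z3]),(z20,[z24,y36,y12,y5,y9,z36])],.ref k12 k0 [(z1,[z12,z3,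
    z0,y1]),(z1,[z0,z0,z1]),(z1,[y21,z0,z0,z2]),(z4,[z12,z0,z0,y1,z3]),(z4,[y24,y12,y4,z1,y3,z12])],.ref k12 k0 [(z1,
    [z2,z3,z0,z0,y1]),(z1,[z0,z0,z1]),(z4,[y14,z0,z0,z1,z7]),(z2,[z1,z0,z0,z0,z1]),(z4,[y4,y12,y4,y1,y1,z12])],
    .ref k12 k0 [(z3,[z12,z21,z4,z1,z0,y12]),(z1,[z0,z0,z1]),(z3,[y21,y21,y7,y1,z0,z21]),(z12,[z12,z12,z4,z1,z9,y12]),
    (z12,[y24,y60,y20,y5,y9,z60])],.ref k12 k0 [(z3,[z4,z9,z0,z0,y1]),(z1,[z0,z0,z1]),(z12,[y28,z0,z0,z3,z7]),(z3,[z1,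
    z0,z0,z0,z2]),(z12,[y8,y36,y12,y3,y7,z36])],.ref k12 k0 [(z6,[z12,z30,z4,z1,z3,y12]),(z1,[z0,z0,z1]),(z24,[y84,
    y84,y28,y1,y21,z84]),(z24,[z12,z12,z4,z1,z21,y12]),(z3,[y3,y12,y4,y1,y3,z12])],.ref k12 k0 [(z1,[z1,z3]),(z1,[z0,
    z0,z1]),(z4,[y7,z0,z0,z1]),(z4,[z1,z0,z0,z0,z3]),(z4,[y2,y12,y4,y1,y3,z12])]],
    .lp [k162,k166,k158,k160,k144,k168] [k3,k3,k1,k1,k5,k5,k4,k4,k12,k12,k0,k0] k0 [[k0,k0,k0,k0,k0,k0,k0,k0,k4,k0,k2],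
    [k0,k0,k0,k0,k0,k0,k0,k4],[k0,k0,k0,k0,k4],[k0,k0,k0,k0,k0,k0,k0,k0,k0,k8],[],[k0,k0,k0,k4,k0,k0,k0,k24],[k4,k0,
    k0,k0,k24],[k0,k0,k0,k0,k0,k0,k0,k0,k0,k16,k0,k10],[k0,k0,k8,k0,k0,k0,k16],[k0,k4,k0,k0,k0,k0,k0,k0,k0,k0,k0,k14],
    [k0,k0,k0,k0,k0,k0,k10,k0,k14],[k0,k2]] (nat_lit 480) k5
    [[(k0,k160),(k4,k160),(k2,k164),(k10,k165),(k8,k167),(k6,k171)],[(k9,k157),(k1,k160),(k5,k160),(k7,k161),(k11,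
    k161),(k3,k164)],[(k6,k159),(k8,k159),(k4,k162),(k0,k164),(k2,k166),(k10,k169)],[(k9,k155),(k7,k159),(k5,k162),
    (k1,k164),(k3,k166),(k11,k175)],[(k8,k143),(k6,k159),(k0,k160),(k2,k162),(k4,k162),(k10,k163)],[(k7,k159),(k1,
    k160),(k3,k162),(k5,k162),(k11,k163),(k9,k175)],[(k6,k136),(k8,k152),(k2,k159),(k4,k159),(k0,k161),(k10,k164)],
    [(k7,k136),(k9,k152),(k3,k159),(k5,k159),(k1,k171),(k11,k180)],[(k8,k128),(k10,k146),(k6,k152),(k2,k155),(k0,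
    k157),(k4,k175)],[(k9,k128),(k5,k143),(k7,k152),(k11,k156),(k3,k159),(k1,k167)],[(k10,k154),(k8,k156),(k0,k161),
    (k4,k163),(k2,k175),(k6,k180)],[(k9,k146),(k11,k154),(k5,k163),(k7,k164),(k1,k165),(k3,k169)]]
    [] k0
    [[k1,k0,k1,k0,k1,k0],[k1,k0,k0,k2,k0,k0],[k1,k0,k0,k0,k2,k0],[k1,k0,k0,k0,k1,k1],[k0,k1,k1,k0,k1,k0],[k0,k1,k0,k2,
    k0,k0],[k0,k1,k0,k1,k1,k0],[k0,k1,k0,k0,k2,k0],[k0,k0,k1,k2,k0,k0],[k0,k0,k1,k1,k1,k0],[k0,k0,k1,k0,k2,k0],[k0,k0,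
    k1,k0,k1,k1],[k0,k0,k0,k3,k0,k0],[k0,k0,k0,k2,k1,k0],[k0,k0,k0,k1,k2,k0],[k0,k0,k0,k1,k1,k1],[k0,k0,k0,k0,k3,k0],
    [k0,k0,k0,k0,k2,k1],[k0,k0,k0,k0,k1,k2],[k0,k0,k0,k0,k0,k3]]
    [.ref k8 k8 [(z2,[z14,y4,z5,y1,y10]),(z1,[y2,z0,y1,z0,z2]),(z1,[y2,z1,y1,z0,z2]),(z1,[z1,z0,z1,z0,y1])],
    .ref k8 k8 [(z2,[y7,z3,y2,y1,z4]),(z1,[z1,y1]),(z1,[z1]),(z2,[y1,z1,z1])],.ref k20 k2 [(z2,[y7,z3,y2,y1,z4]),(z2,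
    [z1,y1,z0,z1]),(z2,[y1,z1,z1]),(z1,[z1])],.ref k113 k0 [(z1,[z0,z1]),(z1,[z0,z0,z1]),(z1,[z0,z0,z0,z1]),(z1,[y4,
    z0,y2,y1,z4])],.ref k61 k4 [(z1,[y4,z0,z2,z1]),(z1,[y4,z1,z2,z1]),(z2,[z4,z0,y1,y1]),(z2,[y2,z0,z1,z1])],
    .ref k113 k0 [(z1,[z0,z1]),(z1,[z0,z0,z1]),(z1,[z0,z0,z0,z1]),(z1,[z2,z0,y1])],.ref k9 k4 [(z3,[y4,y4,z0,y1,z4]),
    (z3,[y4,z5,z0,y1,z4]),(z6,[z4,z4,z9,z1,y4]),(z3,[y1,y1,z0,z2,z1])],.ref k61 k4 [(z1,[y2,z0,z1]),(z1,[y2,z1,z1]),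
    (z1,[z1]),(z4,[y2,z0,z1,z1])],.ref k116 k8 [(z2,[y14,y2,y1,z3,z2]),(z1,[z4,z0,z0,y1]),(z1,[z4,z1,z0,y1]),(z2,[y4,
    z0,z1,z1])],.ref k9 k4 [(z1,[y2,y2,y1,z0,z2]),(z1,[y2,z1,y1,z0,z2]),(z1,[z1,z1,z2,z0,y1]),(z4,[y2,y2,y1,z3,z2])],
    .ref k38 k2 [(z2,[y14,y2,y1,z3,z2]),(z1,[z1]),(z2,[y4,z0,z1,z1]),(z1,[z4,z1,z0,y1])],.ref k8 k8 [(z2,[z14,z10,z5,
    y1,y10]),(z1,[y2,y2,y1,z0,z2]),(z1,[y2,y1,y1,z0,z2]),(z1,[z1,z1,z1,z0,y1])],.ref k117 k0 [(z1,[z0,z1]),(z1,[z0,z0,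
    z1]),(z1,[z0,z0,z0,z1]),(z1,[z1])],.ref k118 k7 [(z2,[z2,z2,z1,y3,y2]),(z1,[y1,y2,y1,z3,z2]),(z1,[z0,z0,z0,y1]),
    (z1,[z0,z1,z0,y1])],.ref k119 k9 [(z1,[z4,z4,z2,z1,y4]),(z1,[y2,y4,y2,y1,z4]),(z1,[z0,z0,z0,z1]),(z1,[z0,z0,z1])],
    .ref k9 k4 [(z1,[y4,y4,y2,y1,z4]),(z1,[y4,y1,y2,y1,z4]),(z2,[z4,z4,z5,z1,y4]),(z2,[y2,y2,y1,z1,z2])],
    .ref k120 k1 [(z1,[z0,y1]),(z1,[z1]),(z1,[y4,z9,y6,y3,z12]),(z1,[z0,y1,z0,z1])],.ref k20 k2 [(z2,[y7,y4,y2,y1,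
    z4]),(z2,[z1,z0,z0,z1]),(z2,[y1,z0,z1]),(z1,[z1,z1])],.ref k113 k0 [(z1,[z0,z1]),(z1,[z0,z0,z1]),(z1,[z0,z0,z0,
    z1]),(z1,[y4,y4,y2,y1,z4])],.ref k9 k4 [(z1,[z1]),(z1,[z1,z3]),(z2,[y1,z0,z3]),(z4,[z1,z0,z0,z3])]],
    .tor k0 false k0 [(z3,[z0,z0,z1,z1]),(z3,[y1,z0,y1,z0,z3]),(z3,[z1,z0,z1]),(z3,[z0,z0,y1,y1,z3])],
    .leafM k0 [k1,k2,k3,k4,k5,k0] [(z1,[y1,y1,z0,z0,z1])] [],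
    .lp [k166,k164,k164,k152,k148,k164] [k0,k0,k1,k1,k1,k1,k7,k7,k9,k9,k1,k1] k0 [[k0,k0,k0,k0,k0,k0,k0,k0,k4,k0,k4],[],
    [],[],[k0,k0,k0,k0,k0,k0,k0,k0,k0,k0,k2],[k0,k0,k0,k0,k0,k0,k0,k22,k0,k4],[k0,k0,k0,k0,k22],[k0,k0,k0,k0,k0,k0,k0,
    k0,k0,k2],[k0,k0,k0,k0,k4,k0,k2],[k0,k4,k0,k0,k0,k0,k0,k0,k0,k0,k0,k4],[k0,k0,k0,k0,k0,k0,k0,k0,k4],[k0,k4,k0,k0,
    k0,k2]] (nat_lit 480) k5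
    [[(k6,k159),(k8,k161),(k0,k162),(k4,k163),(k2,k165),(k10,k165)],[(k9,k157),(k7,k159),(k11,k161),(k1,k162),(k3,
    k165),(k5,k165)],[(k6,k158),(k8,k160),(k2,k164),(k4,k164),(k0,k165),(k10,k168)],[(k9,k156),(k7,k158),(k3,k164),
    (k5,k164),(k11,k164),(k1,k165)],[(k8,k156),(k6,k158),(k2,k164),(k4,k164),(k10,k164),(k0,k165)],[(k7,k158),(k1,
    k163),(k3,k164),(k5,k164),(k11,k168),(k9,k178)],[(k6,k130),(k8,k146),(k2,k158),(k4,k158),(k0,k159),(k10,k160)],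
    [(k7,k130),(k9,k150),(k3,k158),(k5,k158),(k1,k159),(k11,k160)],[(k8,k146),(k6,k150),(k2,k156),(k10,k156),(k0,
    k157),(k4,k178)],[(k7,k146),(k9,k146),(k5,k156),(k11,k156),(k3,k160),(k1,k161)],[(k8,k156),(k6,k160),(k10,k160),
    (k0,k161),(k2,k164),(k4,k168)],[(k9,k156),(k7,k160),(k11,k160),(k5,k164),(k1,k165),(k3,k168)]]
    [] k0
    [[k1,k0,k1,k0,k1,k0],[k1,k0,k0,k2,k0,k0],[k1,k0,k0,k1,k1,k0],[k1,k0,k0,k0,k2,k0],[k1,k0,k0,k0,k1,k1],[k0,k1,k1,k0,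
    k1,k0],[k0,k1,k0,k2,k0,k0],[k0,k1,k0,k1,k1,k0],[k0,k1,k0,k0,k2,k0],[k0,k0,k1,k2,k0,k0],[k0,k0,k1,k1,k1,k0],[k0,k0,
    k0,k3,k0,k0],[k0,k0,k0,k2,k1,k0],[k0,k0,k0,k2,k0,k1],[k0,k0,k0,k1,k2,k0],[k0,k0,k0,k1,k1,k1],[k0,k0,k0,k0,k3,k0],
    [k0,k0,k0,k0,k2,k1],[k0,k0,k0,k0,k1,k2]]
    [.ref k12 k0 [(z4,[z28,z3,z14,z0,z7,y28]),(z2,[y4,z0,z1,z0,y1,z4]),(z4,[z4,z0,z2,z3,z1,y4]),(z2,[y10,z0,y5,z0,y1,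
    z10]),(z4,[y20,y3,y16,y3,y8,z32])],.ref k12 k0 [(z2,[y14,z5,z0,z0,z7]),(z2,[z4,y1,z3,z0,y2]),(z4,[y4,z1,z0,z3,
    z2]),(z4,[z20,y5,z0,z0,y7]),(z4,[z20,y8,y6,y3,y13,z12])],.ref k12 k0 [(z4,[y28,z3,y14,y7,z0,z28]),(z2,[z4,z0,z5,
    z1,z0,y4]),(z2,[y2,z0,y1,z1,z0,z2]),(z4,[z20,z0,z10,z5,z3,y20]),(z4,[z20,y3,z4,z2,y3,y8])],.ref k12 k0 [(z2,[y14,
    y2,y14,y7,y7,z28]),(z2,[z4,z1,z7,z2,z2,y8]),(z4,[y4,y1,y4,z1,y2,z8]),(z4,[z20,z5,z20,z10,z13,y40]),(z4,[z20,z2,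
    z14,z7,z7,y28])],.ref k12 k0 [(z8,[z28,z6,z14,z7,z7,y28]),(z4,[y4,z0,z4,y1,y1,z4]),(z8,[z4,z0,z2,z7,z1,y4]),(z8,
    [y20,z0,y10,y5,z1,z20]),(z8,[y20,y6,y22,y11,y11,z44])],.ref k12 k0 [(z8,[y28,y1,z0,z0,y7,z28]),(z4,[z4,z1,z6,z0,
    z1,y4]),(z8,[y4,y1,z0,z6,y1,z4]),(z8,[z20,z5,z0,z0,z11,y20]),(z8,[z20,y1,y12,y6,y1,z4])],.ref k12 k0 [(z8,[y14,z6,
    z7,z0,z7]),(z4,[z2,z0,z5,z0,y1]),(z8,[y2,z0,z1,z6,z1]),(z8,[z10,z0,y5,z0,z1]),(z8,[z10,y6,y17,y6,y11,z24])],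
    .ref k12 k0 [(z16,[y28,z5,z0,y7,z0,z28]),(z8,[z4,z1,z12,z1,z0,y4]),(z16,[y4,y1,z0,z11,z0,z4]),(z16,[z20,z5,z0,z5,
    z12,y20]),(z16,[z20,y7,y24,y7,y12,z28])],.ref k12 k0 [(z8,[y14,y1,y7,y7,y7,z28]),(z4,[z2,z1,z7,z1,z1,y4]),(z8,[y2,
    y1,y1,z5,y1,z4]),(z8,[z10,z5,z5,z5,z11,y20]),(z8,[z10,y1,y7,y1,y1,z4])],.ref k12 k0 [(z12,[y28,z9,z0,z7,z14]),(z6,
    [z4,z0,z9,y1,y2]),(z6,[y2,z0,z0,z5,z1]),(z12,[z20,z0,z0,y5,y1]),(z12,[z20,y9,y18,y14,y19,z36])],.ref k12 k0 [(z6,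
    [y14,z1,y7,z0,z0,z14]),(z6,[z4,z1,z11,z0,z0,y4]),(z12,[y4,y1,y2,z9,z0,z4]),(z12,[z20,z5,z10,z0,z9,y20]),(z12,[z20,
    y4,y8,y9,y9,z16])],.ref k12 k0 [(z20,[y28,z15,z0,z0,z21]),(z10,[z4,z0,z15,z0,y3]),(z20,[y4,z0,z0,z15,z3]),(z1,
    [z1]),(z4,[z4,y3,y6,y3,y6,z12])],.ref k12 k0 [(z20,[y28,z8,y14,y7,z7,z28]),(z10,[z4,z1,z17,z1,y1,y4]),(z20,[y4,y1,
    y2,z14,z1,z4]),(z4,[z4,z1,z2,z1,z2,y4]),(z2,[z2,y1,y2,y1,y2,z4])],.ref k12 k0 [(z4,[y14,z3,z0,z0,z7]),(z2,[z2,z0,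
    z3,z0,y1]),(z4,[y2,z0,z0,z3,z1]),(z2,[z5,z0,z0,z0,y1]),(z4,[z10,y3,y6,y3,y8,z12])],.ref k12 k0 [(z20,[y28,z1,y28,
    y14,y7,z56]),(z10,[z4,z2,z19,z2,z1,y8]),(z20,[y4,y2,y4,z13,y1,z8]),(z2,[z2,z1,z2,z1,z2,y4]),(z4,[z4,y1,y2,y1,y2,
    z4])],.ref k12 k0 [(z8,[y28,y1,y14,y7,z0,z28]),(z4,[z4,z1,z8,z1,z0,y4]),(z8,[y4,y1,y2,z5,z0,z4]),(z8,[z20,z5,z10,
    z5,z6,y20]),(z8,[z20,y1,y2,y1,y6,z4])],.ref k12 k0 [(z20,[y28,y6,y42,y21,y21,z84]),(z10,[z4,z3,z21,z3,z3,y12]),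
    (z20,[y4,y3,y6,z12,y3,z12]),(z4,[z4,z3,z6,z3,z6,y12]),(z1,[z1])],.ref k12 k0 [(z4,[y14,y4,y14,y7,y7,z28]),(z2,[z2,
    z1,z5,z1,z1,y4]),(z4,[y2,y1,y2,z2,y1,z4]),(z4,[z10,z5,z10,z5,z8,y20]),(z2,[z5,z1,z2,z1,z1,y4])],.ref k12 k0 [(z4,
    [z28,z10,z14,z7,z7,y28]),(z2,[y4,y1,z1,y1,y1,z4]),(z4,[z4,z1,z2,z4,z1,y4]),(z4,[y20,y5,y10,y5,y2,z20]),(z1,[y5,y2,
    y4,y2,y2,z8])]],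
    .lp [(nat_lit 320),(nat_lit 328),(nat_lit 302),(nat_lit 332),(nat_lit 334),(nat_lit 302)] [k7,k7,k3,k3,k16,k16,k1,k1,
    k0,k0,k16,k16] k0 [[k0,k0,k0,k0,k0,k0,k0,k0,k16],[k0,k0,k0,k48,k0,k10],[k48,k0,k0,k0,k0,k0,k0,k0,k0,k0,k38],[k0,
    k0,k0,k0,k0,k14,k0,k6],[k10,k0,k14],[k0,k0,k0,k0,k0,k0,k0,k0,k0,k32,k0,k2],[k0,k0,k6],[k0,k0,k0,k0,k0,k0,k0,k0,k0,
    k0,k0,k6],[k0,k0,k0,k0,k32,k0,k0,k0,k0,k0,k28],[k0,k16],[k0,k0,k0,k0,k2,k0,k6],[k0,k0,k0,k38,k0,k0,k0,k0,k0,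
    k28]] (nat_lit 960) k5
    [[(k2,(nat_lit 286)),(k8,(nat_lit 299)),(k10,(nat_lit 311)),(k4,(nat_lit 313)),(k0,(nat_lit 320)),(k6,
    (nat_lit 332))],[(k11,(nat_lit 295)),(k1,(nat_lit 320)),(k3,(nat_lit 324)),(k9,(nat_lit 327)),(k7,(nat_lit 336)),
    (k5,(nat_lit 359))],[(k2,(nat_lit 280)),(k4,(nat_lit 305)),(k10,(nat_lit 315)),(k0,(nat_lit 324)),(k6,
    (nat_lit 330)),(k8,(nat_lit 347))],[(k3,(nat_lit 280)),(k1,(nat_lit 286)),(k5,(nat_lit 315)),(k11,(nat_lit 315)),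
    (k9,(nat_lit 337)),(k7,(nat_lit 344))],[(k4,(nat_lit 288)),(k6,(nat_lit 311)),(k2,(nat_lit 315)),(k8,
    (nat_lit 318)),(k10,(nat_lit 340)),(k0,(nat_lit 359))],[(k5,(nat_lit 288)),(k3,(nat_lit 305)),(k1,(nat_lit 313)),
    (k7,(nat_lit 317)),(k9,(nat_lit 318)),(k11,(nat_lit 334))],[(k8,(nat_lit 301)),(k10,(nat_lit 315)),(k4,
    (nat_lit 317)),(k6,(nat_lit 332)),(k0,(nat_lit 336)),(k2,(nat_lit 344))],[(k5,(nat_lit 311)),(k11,(nat_lit 317)),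
    (k3,(nat_lit 330)),(k1,(nat_lit 332)),(k7,(nat_lit 332)),(k9,(nat_lit 333))],[(k10,(nat_lit 312)),(k4,
    (nat_lit 318)),(k0,(nat_lit 327)),(k6,(nat_lit 333)),(k8,(nat_lit 334)),(k2,(nat_lit 337))],[(k1,(nat_lit 299)),
    (k7,(nat_lit 301)),(k5,(nat_lit 318)),(k11,(nat_lit 318)),(k9,(nat_lit 334)),(k3,(nat_lit 347))],[(k0,
    (nat_lit 295)),(k2,(nat_lit 315)),(k6,(nat_lit 317)),(k8,(nat_lit 318)),(k10,(nat_lit 330)),(k4,(nat_lit 334))],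
    [(k1,(nat_lit 311)),(k9,(nat_lit 312)),(k3,(nat_lit 315)),(k7,(nat_lit 315)),(k11,(nat_lit 330)),(k5,
    (nat_lit 340))]]
    [] k0
    [[k2,k1,k0,k0,k0,k0],[k2,k0,k0,k0,k1,k0],[k2,k0,k0,k0,k0,k1],[k1,k2,k0,k0,k0,k0],[k1,k1,k1,k0,k0,k0],[k1,k1,k0,k1,
    k0,k0],[k1,k1,k0,k0,k0,k1],[k1,k0,k1,k0,k1,k0],[k1,k0,k1,k0,k0,k1],[k1,k0,k0,k1,k0,k1],[k1,k0,k0,k0,k1,k1],[k1,k0,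
    k0,k0,k0,k2],[k0,k3,k0,k0,k0,k0],[k0,k2,k1,k0,k0,k0],[k0,k2,k0,k1,k0,k0],[k0,k2,k0,k0,k0,k1],[k0,k1,k2,k0,k0,k0],
    [k0,k0,k3,k0,k0,k0],[k0,k0,k2,k1,k0,k0],[k0,k0,k2,k0,k1,k0],[k0,k0,k1,k1,k1,k0],[k0,k0,k0,k1,k1,k1]]
    [.ref k12 k0 [(z3,[z7,y5,y7]),(z3,[y5,z10,z14]),(z3,[z4,y8,y4,z9]),(z3,[y5,z10,z5,z0,z9]),(z3,[y2,y5,y7,y9,y9,
    z9])],.ref k12 k0 [(z4,[z7,z5,z7,z7,z7,y7]),(z4,[y5,z5,z7,y5,y5,z5]),(z1,[z1,y1,z1,z4,z1,y1]),(z4,[y5,z5,y5,y5,z7,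
    z5]),(z2,[y1,y5,y7,y7,y7,z7])],.ref k12 k0 [(z5,[z7,z1]),(z1,[y1,z2,z3]),(z5,[z4,y8,z0,z15]),(z1,[y1,z2,z0,z0,
    z3]),(z5,[y2,y11,y15,y15,y15,z15])],.ref k12 k0 [(z1,[y7,z10,z14]),(z1,[z5,y5,y7]),(z1,[y4,z4,z8,z3]),(z1,[z5,y5,
    y10,z0,z3]),(z1,[z2,y5,y7,y3,y3,z3])],.ref k12 k0 [(z2,[z7,y1,y7,y7]),(z2,[y5,z5,z11,z5]),(z1,[z2,y2,y2,z1]),(z2,
    [y5,z5,z5,z5,z6]),(z1,[y1,y2,y2,y2,y3,z3])],.ref k12 k0 [(z1,[y7,z10,z7,z0,z7]),(z1,[z5,y5,y2,z0,y5]),(z1,[y4,z4,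
    z4,z3,z4]),(z1,[z5,y5,y5,z0,y2]),(z1,[z2,y5,y5,y3,y5,z3])],.ref k12 k0 [(z1,[z7,y4,y7]),(z1,[y5,z5,z8]),(z1,[z4,
    y4,y4,z3]),(z1,[y5,z5,z5,z0,z3]),(z1,[y2,y1,y1,y3,y3,z3])],.ref k12 k0 [(z3,[z7,z9,z7,z0,z7,y7]),(z3,[y5,z0,z4,z0,
    y5,z5]),(z3,[z4,z0,z4,z9,z4,y4]),(z3,[y5,z0,y5,z0,z4,z5]),(z3,[y2,y9,y11,y9,y11,z11])],.ref k12 k0 [(z4,[z7,z5,z0,
    y7]),(z4,[y5,z5,z12,z5]),(z1,[z1,y1,z0,z2]),(z4,[y5,z5,z0,z5,z12]),(z2,[y1,y5,y6,y5,y6,z6])],.ref k12 k0 [(z1,[z7,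
    y4,z0,z0,y7]),(z1,[y5,z5,z3,z0,z5]),(z1,[z4,y4,z0,z3,y4]),(z1,[y5,z5,z0,z0,z8]),(z1,[y2,y1,y3,y3,y1,z3])],
    .ref k12 k0 [(z2,[z7,z6,z7,z7,z7,y7]),(z2,[y5,z0,z1,y5,y5,z5]),(z1,[z2,z0,z2,z5,z2,y2]),(z2,[y5,z0,y5,y5,z1,z5]),
    (z1,[y1,y3,y4,y4,y4,z4])],.ref k12 k0 [(z3,[z7,z2]),(z3,[y5,z5,z9]),(z3,[z4,y4,z0,z9]),(z3,[y5,z5,z0,z0,z9]),(z3,
    [y2,y7,y9,y9,y9,z9])],.ref k12 k0 [(z5,[y7,z15,z21]),(z1,[z1]),(z5,[y4,z0,z12,z15]),(z1,[z1,z0,y3,z0,z3]),(z5,[z2,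
    y15,y21,y15,y15,z15])],.ref k12 k0 [(z2,[y7,z6,z14,z7]),(z2,[z5,z0,y4,y5]),(z1,[y2,z0,z4,z5]),(z2,[z5,z0,y10,y5,
    z6]),(z1,[z1,y3,y5,y4,y3,z3])],.ref k12 k0 [(z5,[y7,z15,z14,z0,z7]),(z1,[z1,z0,z1,z0,y1]),(z5,[y4,z0,z8,z15,z4]),
    (z1,[z1,z0,y2,z0,z2]),(z5,[z2,y15,y19,y15,y17,z15])],.ref k12 k0 [(z3,[y7,z9,z14]),(z3,[z5,z0,y1]),(z3,[y4,z0,z8,
    z9]),(z3,[z5,z0,y10,z0,z9]),(z3,[z2,y9,y13,y9,y9,z9])],.ref k12 k0 [(z1,[z7,z3,y7,y14]),(z1,[y5,z0,z8,z10]),(z1,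
    [z4,z0,y4,y5]),(z1,[y5,z0,z5,z10,z3]),(z1,[y2,y3,y1,z1,y3,z3])],.ref k12 k0 [(z4,[z7,z12,z0,y21]),(z4,[y5,z0,z12,
    z15]),(z1,[z1]),(z4,[y5,z0,z0,z15,z12]),(z2,[y1,y6,y6,y3,y6,z6])],.ref k12 k0 [(z1,[z7,z3,z0,y14,y7]),(z1,[y5,z0,
    z3,z10,z5]),(z1,[z4,z0,z0,y5,y4]),(z1,[y5,z0,z0,z10,z8]),(z1,[y2,y3,y3,z1,y1,z3])],.ref k12 k0 [(z2,[z7,z13,z7,y7,
    z7,y7]),(z2,[y5,y5,z1,z5,y5,z5]),(z1,[z2,z2,z2,z1,z2,y2]),(z2,[y5,y5,y5,z5,z1,z5]),(z1,[y1,y4,y4,y2,y4,z4])],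
    .ref k12 k0 [(z1,[y7,y4,y7,z0,z0,z7]),(z1,[z5,z5,z8,z0,z0,y5]),(z1,[y4,y4,y4,z3,z0,z4]),(z1,[z5,z5,z5,z0,z3,y5]),
    (z1,[z2,y1,y1,y3,y3,z1])],.ref k12 k0 [(z2,[y7,y1,y7,y7,z0,z7]),(z2,[z5,z5,z11,z5,z0,y5]),(z1,[y2,y2,y2,z1,z0,
    z2]),(z2,[z5,z5,z5,z5,z6,y5]),(z1,[z1,y2,y2,y2,y3,z2])]]]

noncomputable def cT6_3_n2_3 : List TN :=
  [.leafM k0 [k1,k2,k3,k4,k5,k0] [(z1,[y1,y1,z0,z0,z1])] [],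
    .lp [(nat_lit 320),(nat_lit 332),(nat_lit 334),(nat_lit 308),(nat_lit 324),(nat_lit 300)] [k7,k7,k1,k1,k0,k0,k13,k13,
    k5,k5,k17,k17] k0 [[k0,k0,k0,k0,k0,k0,k22,k0,k30],[k0,k0,k0,k0,k0,k2],[k0,k0,k0,k0,k0,k0,k0,k0,k0,k0,k24],[k0,k0,
    k0,k0,k0,k0,k0,k12],[k2,k0,k0,k0,k0,k0,k22],[k0,k0,k0,k0,k0,k0,k0,k0,k0,k2,k0,k8],[k0,k0,k12,k0,k0,k0,k0,k0,k42],
    [k0,k22,k0,k0,k0,k22],[k0,k0,k0,k0,k2,k0,k0,k0,k0,k0,k28],[k0,k30,k0,k0,k0,k0,k0,k42],[k0,k0,k0,k0,k8],[k0,k0,k0,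
    k24,k0,k0,k0,k0,k0,k28]] (nat_lit 960) k5
    [[(k8,(nat_lit 294)),(k2,(nat_lit 302)),(k10,(nat_lit 310)),(k6,(nat_lit 314)),(k0,(nat_lit 320)),(k4,
    (nat_lit 335))],[(k11,(nat_lit 280)),(k9,(nat_lit 300)),(k7,(nat_lit 316)),(k1,(nat_lit 320)),(k3,(nat_lit 326)),
    (k5,(nat_lit 327))],[(k10,(nat_lit 316)),(k0,(nat_lit 326)),(k4,(nat_lit 331)),(k2,(nat_lit 332)),(k6,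
    (nat_lit 342)),(k8,(nat_lit 358))],[(k1,(nat_lit 302)),(k11,(nat_lit 316)),(k7,(nat_lit 320)),(k3,(nat_lit 332)),
    (k5,(nat_lit 333)),(k9,(nat_lit 340))],[(k6,(nat_lit 309)),(k0,(nat_lit 327)),(k8,(nat_lit 329)),(k2,
    (nat_lit 333)),(k4,(nat_lit 334)),(k10,(nat_lit 341))],[(k9,(nat_lit 307)),(k11,(nat_lit 319)),(k7,(nat_lit 321)),
    (k3,(nat_lit 331)),(k5,(nat_lit 334)),(k1,(nat_lit 335))],[(k10,(nat_lit 296)),(k8,(nat_lit 314)),(k0,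
    (nat_lit 316)),(k2,(nat_lit 320)),(k4,(nat_lit 321)),(k6,(nat_lit 330))],[(k11,(nat_lit 262)),(k5,(nat_lit 309)),
    (k1,(nat_lit 314)),(k9,(nat_lit 316)),(k7,(nat_lit 330)),(k3,(nat_lit 342))],[(k0,(nat_lit 300)),(k4,
    (nat_lit 307)),(k10,(nat_lit 312)),(k6,(nat_lit 316)),(k2,(nat_lit 340)),(k8,(nat_lit 366))],[(k1,(nat_lit 294)),
    (k11,(nat_lit 312)),(k7,(nat_lit 314)),(k5,(nat_lit 329)),(k3,(nat_lit 358)),(k9,(nat_lit 366))],[(k6,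
    (nat_lit 262)),(k0,(nat_lit 280)),(k8,(nat_lit 312)),(k2,(nat_lit 316)),(k4,(nat_lit 319)),(k10,(nat_lit 328))],
    [(k7,(nat_lit 296)),(k1,(nat_lit 310)),(k9,(nat_lit 312)),(k3,(nat_lit 316)),(k11,(nat_lit 328)),(k5,
    (nat_lit 341))]]
    [] k0
    [[k2,k1,k0,k0,k0,k0],[k2,k0,k0,k1,k0,k0],[k2,k0,k0,k0,k1,k0],[k2,k0,k0,k0,k0,k1],[k1,k1,k0,k0,k0,k1],[k1,k0,k1,k0,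
    k0,k1],[k1,k0,k0,k1,k1,k0],[k1,k0,k0,k1,k0,k1],[k1,k0,k1,k0,k1,k0],[k1,k0,k0,k0,k1,k1],[k1,k0,k0,k0,k0,k2],[k0,k1,
    k0,k1,k0,k1],[k0,k0,k1,k1,k1,k0],[k0,k0,k1,k1,k0,k1],[k0,k0,k0,k2,k0,k1],[k0,k0,k0,k1,k1,k1],[k0,k0,k0,k1,k0,k2],
    [k0,k0,k0,k0,k1,k2]]
    [.ref k12 k0 [(z3,[z12,y5,y2]),(z3,[y15,z10,z4]),(z1,[z0,z0,z0,z1]),(z6,[z6,y4,y1,z0,z3]),(z6,[y12,z2,y1,y6,y3,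
    z18])],.ref k12 k0 [(z9,[z12,z1,z0,z0,y2]),(z18,[y30,z20,z9,z0,z5]),(z1,[z0,z0,z0,z1]),(z9,[z3,y2,z0,z0,z4]),(z18,
    [y12,y10,y9,y18,y7,z54])],.ref k12 k0 [(z3,[z6,z1,z1,z2,z1,y6]),(z12,[y30,z10,z1,y10,y5,z30]),(z1,[z0,z0,z0,z1]),
    (z12,[z6,y2,z1,z2,z7,y6]),(z3,[y3,y2,y2,y4,y2,z12])],.ref k12 k0 [(z5,[z6,z1]),(z2,[y3,z2,z1]),(z1,[z0,z0,z0,z1]),
    (z10,[z3,y2,z0,z0,z5]),(z10,[y6,y6,y5,y10,y5,z30])],.ref k12 k0 [(z1,[z12,y3,y2]),(z1,[y15,z5,z3]),(z1,[z0,z0,z0,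
    z1]),(z2,[z6,y2,y1,z0,z1]),(z2,[y12,z2,z1,y2,y1,z6])],.ref k12 k0 [(z3,[z6,z1,z0,y2]),(z6,[y15,z5,z3,z5]),(z1,[z0,
    z0,z0,z1]),(z6,[z3,y1,z0,y1,z3]),(z6,[y6,y4,y3,y4,y3,z18])],.ref k12 k0 [(z3,[z12,z3,z2,z4,z0,y12]),(z3,[y15,z0,
    y1,y5,z0,z15]),(z1,[z0,z0,z0,z1]),(z6,[z6,z0,z1,z2,z3,y6]),(z6,[y12,y6,y5,y10,y3,z30])],.ref k12 k0 [(z7,[z12,z3,
    z0,z0,y2]),(z14,[y30,z10,z7,z0,z5]),(z1,[z0,z0,z0,z1]),(z7,[z3,y1,z0,z0,z3]),(z14,[y12,y10,y7,y14,y5,z42])],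
    .ref k12 k0 [(z1,[z6,z1,z1,z0,z1,y6]),(z4,[y30,z0,y3,z0,y5,z30]),(z1,[z0,z0,z0,z1]),(z4,[z6,z0,z1,z0,z3,y6]),(z1,
    [y3,y1,y1,y1,y1,z6])],.ref k12 k0 [(z2,[z6,z2,z1,z2,z1,y6]),(z8,[y30,z0,y1,y10,y5,z30]),(z1,[z0,z0,z0,z1]),(z8,
    [z6,z0,z1,z2,z5,y6]),(z4,[y6,y4,y3,y6,y3,z18])],.ref k12 k0 [(z2,[z3,z1]),(z8,[y15,z5,z4]),(z1,[z0,z0,z0,z1]),(z8,
    [z3,y1,z0,z0,z4]),(z4,[y3,y3,y2,y4,y2,z12])],.ref k12 k0 [(z1,[y6,z1,z1,z0,z1]),(z4,[z30,z0,y3,z0,y5]),(z1,[z0,z0,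
    z0,z1]),(z4,[y6,z0,z1,z0,z3]),(z1,[z3,y1,y1,y1,y1,z3])],.ref k12 k0 [(z1,[y12,y3,y2,z0,z0,z12]),(z1,[z15,z5,z3,z0,
    z0,y15]),(z1,[z0,z0,z0,z1]),(z2,[y6,y2,y1,z0,z1,z6]),(z2,[z12,z2,z1,y2,y1,y6])],.ref k12 k0 [(z3,[z12,z3,z0,y4,
    y2]),(z6,[y30,z0,z3,z10,z5]),(z1,[z0,z0,z0,z1]),(z3,[z3,z0,z0,y1,z1]),(z6,[y12,y6,y3,y2,y1,z18])],
    .ref k12 k0 [(z1,[z3,z1,z0,z0,y1]),(z4,[y15,z0,z2,z0,z5]),(z1,[z0,z0,z0,z1]),(z4,[z3,z0,z0,z0,z1]),(z2,[y3,y2,y1,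
    y2,z0,z6])],.ref k12 k0 [(z1,[z12,z5,z2,z4,z0,y12]),(z1,[y15,y5,y2,y5,z0,z15]),(z1,[z0,z0,z0,z1]),(z2,[z6,z2,z1,
    z2,z1,y6]),(z2,[y12,y6,y3,y6,y1,z18])],.ref k12 k0 [(z5,[z12,z5,z0,z0,y2]),(z2,[y6,z0,z1,z0,z1]),(z1,[z0,z0,z0,
    z1]),(z5,[z3,z0,z0,z0,z2]),(z10,[y12,y10,y5,y10,y3,z30])],.ref k12 k0 [(z1,[z6,z3,z1,z2,z1,y6]),(z4,[y30,y10,y3,
    y10,y5,z30]),(z1,[z0,z0,z0,z1]),(z4,[z6,z2,z1,z2,z3,y6]),(z1,[y3,y2,y1,y2,y1,z6])]],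
    .lp [(nat_lit 326),(nat_lit 326),(nat_lit 326),(nat_lit 308),(nat_lit 302),(nat_lit 330)] [k2,k2,k2,k2,k2,k2,k11,k11,
    k14,k14,k0,k0] k0 [[k0,k0,k0,k0,k0,k0,k0,k0,k0,k0,k2],[k0,k0,k0,k6],[k6],[k0,k0,k0,k0,k0,k0,k0,k0,k0,k4],[k0,k0,
    k0,k0,k0,k0,k0,k0,k0,k0,k22],[k0,k0,k0,k0,k0,k0,k0,k30,k0,k8],[k0,k0,k0,k0,k30,k0,k0,k0,k4],[k0,k0,k0,k0,k0,k0,k0,
    k0,k0,k0,k0,k2],[k0,k0,k4,k0,k8],[k0,k0,k0,k0,k0,k0,k0,k4,k0,k0,k0,k26],[k0,k0,k0,k0,k0,k0,k2,k0,k26],[k0,k2,k0,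
    k0,k0,k22]] (nat_lit 960) k5
    [[(k4,(nat_lit 304)),(k6,(nat_lit 319)),(k0,(nat_lit 324)),(k2,(nat_lit 326)),(k10,(nat_lit 328)),(k8,
    (nat_lit 340))],[(k9,(nat_lit 314)),(k7,(nat_lit 317)),(k1,(nat_lit 324)),(k3,(nat_lit 326)),(k11,(nat_lit 328)),
    (k5,(nat_lit 332))],[(k8,(nat_lit 314)),(k6,(nat_lit 317)),(k2,(nat_lit 320)),(k0,(nat_lit 326)),(k4,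
    (nat_lit 326)),(k10,(nat_lit 330))],[(k9,(nat_lit 314)),(k7,(nat_lit 317)),(k3,(nat_lit 320)),(k1,(nat_lit 326)),
    (k5,(nat_lit 326)),(k11,(nat_lit 332))],[(k8,(nat_lit 310)),(k6,(nat_lit 317)),(k2,(nat_lit 326)),(k4,
    (nat_lit 326)),(k10,(nat_lit 328)),(k0,(nat_lit 332))],[(k1,(nat_lit 304)),(k7,(nat_lit 317)),(k3,(nat_lit 326)),
    (k5,(nat_lit 326)),(k11,(nat_lit 336)),(k9,(nat_lit 344))],[(k6,(nat_lit 278)),(k8,(nat_lit 297)),(k0,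
    (nat_lit 317)),(k2,(nat_lit 317)),(k4,(nat_lit 317)),(k10,(nat_lit 341))],[(k7,(nat_lit 278)),(k9,(nat_lit 305)),
    (k11,(nat_lit 315)),(k3,(nat_lit 317)),(k5,(nat_lit 317)),(k1,(nat_lit 319))],[(k6,(nat_lit 305)),(k8,
    (nat_lit 306)),(k0,(nat_lit 314)),(k2,(nat_lit 314)),(k10,(nat_lit 314)),(k4,(nat_lit 344))],[(k7,(nat_lit 297)),
    (k9,(nat_lit 306)),(k5,(nat_lit 310)),(k3,(nat_lit 314)),(k11,(nat_lit 316)),(k1,(nat_lit 340))],[(k10,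
    (nat_lit 304)),(k6,(nat_lit 315)),(k8,(nat_lit 316)),(k0,(nat_lit 328)),(k2,(nat_lit 332)),(k4,(nat_lit 336))],
    [(k11,(nat_lit 304)),(k9,(nat_lit 314)),(k1,(nat_lit 328)),(k5,(nat_lit 328)),(k3,(nat_lit 330)),(k7,
    (nat_lit 341))]]
    [] k0
    [[k1,k1,k0,k0,k1,k0],[k1,k1,k1,k0,k0,k0],[k1,k0,k1,k1,k0,k0],[k1,k0,k1,k0,k1,k0],[k1,k0,k0,k2,k0,k0],[k1,k0,k0,k1,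
    k1,k0],[k1,k0,k0,k0,k1,k1],[k0,k2,k0,k1,k0,k0],[k0,k2,k0,k0,k1,k0],[k0,k1,k1,k0,k1,k0],[k0,k1,k0,k2,k0,k0],[k0,k1,
    k0,k1,k1,k0],[k0,k1,k0,k0,k2,k0],[k0,k0,k1,k2,k0,k0],[k0,k0,k1,k1,k1,k0],[k0,k0,k0,k3,k0,k0],[k0,k0,k0,k2,k1,k0],
    [k0,k0,k0,k2,k0,k1],[k0,k0,k0,k1,k2,k0],[k0,k0,k0,k1,k1,k1],[k0,k0,k0,k0,k3,k0],[k0,k0,k0,k0,k2,k1],[k0,k0,k0,k0,
    k1,k2],[k0,k0,k0,k0,k0,k3]]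
    [.ref k12 k0 [(z2,[z20,z3,z0,z5,z20,y20]),(z2,[y4,z0,z3,y1,y4,z4]),(z1,[z1,z0,z0,z1,z1,y1]),(z1,[y8,z0,z0,y2,y5,
    z8]),(z2,[y10,y3,y3,y4,y16,z16])],.ref k12 k0 [(z6,[z20,y1,y10,y5]),(z6,[y4,z2,z11,z1]),(z6,[z2,y1,y1,z4]),(z3,
    [y8,z4,z4,z2,z9]),(z3,[y5,y2,y2,y1,y9,z9])],.ref k12 k0 [(z2,[z20,y7,z0,y5,y20]),(z2,[y4,z2,z3,z1,z4]),(z2,[z2,y1,
    z0,z1,y2]),(z1,[y8,z4,z0,z2,z11]),(z2,[y10,z2,y3,z1,z4,z6])],.ref k12 k0 [(z2,[z10,z3,z5,z0,z10,y10]),(z1,[y1,z0,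
    z1,z0,y1,z1]),(z4,[z2,z0,z1,z3,z2,y2]),(z1,[y4,z0,y2,z0,y1,z4]),(z4,[y10,y6,y11,y3,y22,z22])],.ref k12 k0 [(z1,
    [y5,z4,z0,z0,z10]),(z2,[z2,y1,z3,z0,y4]),(z4,[y2,z1,z0,z3,z4]),(z1,[z4,y2,z0,z0,y5]),(z4,[z10,y11,y6,y3,y32,
    z12])],.ref k12 k0 [(z2,[y20,z3,y10,y5,z0,z20]),(z2,[z4,z0,z5,z1,z0,y4]),(z2,[y2,z0,y1,z1,z0,z2]),(z1,[z8,z0,z4,
    z2,z3,y8]),(z2,[z10,y3,z2,z1,y6,y4])],.ref k12 k0 [(z6,[z20,z9,z10,z5,z20,y20]),(z6,[y4,z0,z7,y1,y4,z4]),(z6,[z2,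
    z0,z1,z5,z2,y2]),(z3,[y8,z0,y4,y2,z1,z8]),(z6,[y10,y9,y14,y7,y28,z28])],.ref k12 k0 [(z2,[y5,z3,z5,z0,z5]),(z2,
    [z1,z0,z2,z0,y1]),(z4,[y1,z0,z1,z3,z1]),(z1,[z2,z0,y2,z0,z1]),(z4,[z5,y6,y11,y3,y17,z12])],.ref k12 k0 [(z6,[y20,
    y1,z10,y5,y20,z20]),(z6,[z4,z2,z7,z1,z4,y4]),(z6,[y2,y1,z1,z4,y2,z2]),(z3,[z8,z4,y4,z2,z17,y8]),(z3,[z5,y2,y7,y1,
    y4,z4])],.ref k12 k0 [(z1,[y5,y1,z0,z0,y5,z5]),(z2,[z2,z1,z3,z0,z2,y2]),(z4,[y2,y1,z0,z3,y2,z2]),(z1,[z4,z2,z0,z0,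
    z7,y4]),(z4,[z10,y1,y6,y3,y2,z2])],.ref k12 k0 [(z6,[y10,z9,z5,z0,z20]),(z3,[z1,z0,z4,z0,y2]),(z12,[y2,z0,z1,z9,
    z4]),(z3,[z4,z0,y2,z0,z1]),(z12,[z10,y18,y23,y9,y56,z36])],.ref k12 k0 [(z2,[y4,z1,z0,y1,z0,z4]),(z10,[z4,z2,z15,
    z1,z0,y4]),(z10,[y2,y1,z0,z7,z0,z2]),(z5,[z8,z4,z0,z2,z15,y8]),(z2,[z2,y2,y3,y1,y6,z4])],.ref k12 k0 [(z4,[y10,y4,
    y5,y5,y20,z20]),(z4,[z2,z2,z7,z1,z4,y4]),(z8,[y2,y2,y1,z5,y4,z4]),(z1,[z2,z2,z1,z1,z7,y4]),(z8,[z10,y2,y7,y1,y4,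
    z4])],.ref k12 k0 [(z2,[y4,z3,z0,z1,z8]),(z10,[z4,z0,z15,y1,y8]),(z5,[y1,z0,z0,z4,z2]),(z5,[z8,z0,z0,y2,y1]),(z2,
    [z2,y3,y3,y2,y10,z6])],.ref k12 k0 [(z4,[y10,z1,y5,z0,z0,z10]),(z4,[z2,z1,z7,z0,z0,y2]),(z8,[y2,y1,y1,z6,z0,z2]),
    (z1,[z2,z1,z1,z0,z3,y2]),(z8,[z10,y7,y7,y6,y24,z14])],.ref k12 k0 [(z4,[y5,z6,z0,z0,z15]),(z4,[z1,z0,z6,z0,y3]),
    (z8,[y1,z0,z0,z6,z3]),(z1,[z1]),(z8,[z5,y12,y12,y6,y39,z24])],.ref k12 k0 [(z14,[y20,z11,y10,y5,z20,z20]),(z14,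
    [z4,z2,z23,z1,y4,y4]),(z14,[y2,y1,y1,z10,z2,z2]),(z7,[z8,z4,z4,z2,z13,y8]),(z7,[z5,y8,y8,y4,y26,z16])],
    .ref k12 k0 [(z2,[y5,z3,z0,z0,z10]),(z2,[z1,z0,z3,z0,y2]),(z4,[y1,z0,z0,z3,z2]),(z1,[z2,z0,z0,z0,y1]),(z4,[z5,y6,
    y6,y3,y22,z12])],.ref k12 k0 [(z6,[y10,y1,y10,y5,y10,z20]),(z6,[z2,z2,z11,z1,z2,y4]),(z6,[y1,y1,y1,z4,y1,z2]),(z3,
    [z4,z4,z4,z2,z13,y8]),(z6,[z5,y4,y4,y2,y13,z8])],.ref k12 k0 [(z6,[y20,y1,y10,y5,z0,z20]),(z6,[z4,z2,z11,z1,z0,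
    y4]),(z6,[y2,y1,y1,z4,z0,z2]),(z3,[z8,z4,z4,z2,z9,y8]),(z3,[z5,y2,y2,y1,y9,z4])],.ref k12 k0 [(z2,[y4,y3,y6,y3,
    y12,z12]),(z10,[z4,z6,z21,z3,z12,y12]),(z10,[y2,y3,y3,z6,y6,z6]),(z5,[z8,z12,z12,z6,z39,y24]),(z1,[z1])],
    .ref k12 k0 [(z2,[y10,y7,y10,y5,y20,z20]),(z2,[z2,z2,z5,z1,z4,y4]),(z2,[y1,y1,y1,z1,y2,z2]),(z1,[z4,z4,z4,z2,z11,
    y8]),(z2,[z5,z2,z2,z1,z4,y4])],.ref k12 k0 [(z2,[z20,z13,z10,z5,z20,y20]),(z2,[y4,y2,z1,y1,y4,z4]),(z2,[z2,z1,z1,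
    z2,z2,y2]),(z1,[y8,y4,y4,y2,y5,z8]),(z1,[y5,y4,y4,y2,y8,z8])],.ref k12 k0 [(z2,[z5,z3]),(z2,[y1,z0,z3]),(z4,[z1,
    z0,z0,z3]),(z1,[y2,z0,z0,z0,z3]),(z4,[y5,y6,y6,y3,y12,z12])]],
    .lp [(nat_lit 332),(nat_lit 334),(nat_lit 302),(nat_lit 324),(nat_lit 318),(nat_lit 308)] [k1,k1,k0,k0,k16,k16,k5,k5,
    k8,k8,k13,k13] k0 [[k0,k0,k6,k0,k0,k0,k0,k0,k12],[k0,k0,k0,k0,k0,k24],[k0,k0,k0,k0,k0,k0,k0,k0,k0,k0,k46],[k0,k6,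
    k0,k0,k0,k24],[k24,k0,k24],[k0,k0,k0,k0,k0,k0,k0,k4,k0,k26],[k0,k0,k0,k0,k4,k0,k0,k0,k18],[k0,k0,k0,k0,k0,k0,k0,
    k0,k0,k0,k0,k12],[k0,k0,k0,k0,k26,k0,k0,k0,k0,k0,k38],[k0,k12,k0,k0,k0,k0,k0,k18],[k0,k0,k0,k0,k0,k0,k12],[k0,k0,
    k0,k46,k0,k0,k0,k0,k0,k38]] (nat_lit 960) k5
    [[(k2,(nat_lit 287)),(k8,(nat_lit 287)),(k4,(nat_lit 317)),(k10,(nat_lit 320)),(k0,(nat_lit 332)),(k6,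
    (nat_lit 340))],[(k11,(nat_lit 308)),(k5,(nat_lit 311)),(k9,(nat_lit 325)),(k1,(nat_lit 332)),(k3,(nat_lit 333)),
    (k7,(nat_lit 352))],[(k4,(nat_lit 294)),(k10,(nat_lit 321)),(k6,(nat_lit 329)),(k0,(nat_lit 333)),(k8,
    (nat_lit 338)),(k2,(nat_lit 340))],[(k1,(nat_lit 287)),(k5,(nat_lit 318)),(k11,(nat_lit 321)),(k9,(nat_lit 326)),
    (k3,(nat_lit 340)),(k7,(nat_lit 353))],[(k4,(nat_lit 278)),(k8,(nat_lit 310)),(k0,(nat_lit 311)),(k6,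
    (nat_lit 313)),(k2,(nat_lit 318)),(k10,(nat_lit 351))],[(k5,(nat_lit 278)),(k3,(nat_lit 294)),(k7,(nat_lit 313)),
    (k9,(nat_lit 314)),(k1,(nat_lit 317)),(k11,(nat_lit 331))],[(k8,(nat_lit 295)),(k4,(nat_lit 313)),(k10,
    (nat_lit 316)),(k6,(nat_lit 320)),(k0,(nat_lit 352)),(k2,(nat_lit 353))],[(k11,(nat_lit 298)),(k5,(nat_lit 313)),
    (k7,(nat_lit 320)),(k9,(nat_lit 321)),(k3,(nat_lit 329)),(k1,(nat_lit 340))],[(k10,(nat_lit 301)),(k4,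
    (nat_lit 314)),(k6,(nat_lit 321)),(k0,(nat_lit 325)),(k2,(nat_lit 326)),(k8,(nat_lit 336))],[(k1,(nat_lit 287)),
    (k7,(nat_lit 295)),(k5,(nat_lit 310)),(k11,(nat_lit 313)),(k9,(nat_lit 336)),(k3,(nat_lit 338))],[(k6,
    (nat_lit 298)),(k0,(nat_lit 308)),(k8,(nat_lit 313)),(k2,(nat_lit 321)),(k4,(nat_lit 331)),(k10,(nat_lit 346))],
    [(k9,(nat_lit 301)),(k7,(nat_lit 316)),(k1,(nat_lit 320)),(k3,(nat_lit 321)),(k11,(nat_lit 346)),(k5,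
    (nat_lit 351))]]
    [] k0
    [[k2,k1,k0,k0,k0,k0],[k2,k0,k0,k0,k1,k0],[k1,k1,k1,k0,k0,k0],[k1,k1,k0,k0,k1,k0],[k1,k1,k0,k0,k0,k1],[k1,k0,k2,k0,
    k0,k0],[k1,k0,k1,k0,k1,k0],[k1,k0,k0,k0,k2,k0],[k1,k0,k0,k0,k1,k1],[k0,k2,k1,k0,k0,k0],[k0,k1,k2,k0,k0,k0],[k0,k1,
    k1,k0,k1,k0],[k0,k1,k0,k1,k1,k0],[k0,k0,k3,k0,k0,k0],[k0,k0,k2,k1,k0,k0],[k0,k0,k2,k0,k1,k0],[k0,k0,k1,k2,k0,k0],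
    [k0,k0,k1,k1,k1,k0],[k0,k0,k1,k0,k1,k1],[k0,k0,k0,k2,k1,k0],[k0,k0,k0,k2,k0,k1],[k0,k0,k0,k1,k2,k0],[k0,k0,k0,k1,
    k1,k1],[k0,k0,k0,k0,k2,k1]]
    [.ref k12 k0 [(z1,[y6,z5,z6]),(z1,[z15,y10,y12]),(z1,[y12,z8,z12,z3]),(z1,[z0,z0,z0,z0,z1]),(z1,[z6,y5,y9,y3,y1,
    z3])],.ref k12 k0 [(z1,[z3,z0,z3,z3,z1,y3]),(z2,[y15,z5,y9,y15,y5,z15]),(z1,[z6,y2,z6,z9,z2,y6]),(z1,[z0,z0,z0,z0,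
    z1]),(z1,[y3,z0,y6,y6,y2,z6])],.ref k12 k0 [(z1,[z6,y1,y6,y6]),(z1,[y15,z5,z18,z15]),(z1,[z12,y4,y12,y9]),(z1,[z0,
    z0,z0,z0,z1]),(z1,[y6,z1,z3,z3,y1,z3])],.ref k12 k0 [(z5,[y6,z5,z0,y6,y2,z6]),(z1,[z3,z0,z3,z3,z1,y3]),(z5,[y12,
    z0,z0,z3,y4,z12]),(z1,[z0,z0,z0,z0,z1]),(z5,[z6,y5,y15,y9,y3,z9])],.ref k12 k0 [(z1,[y3,z2,z3]),(z2,[z15,y5,y9]),
    (z1,[y6,z2,z6,z3]),(z1,[z0,z0,z0,z0,z1]),(z1,[z3,y2,y6,y3,y1,z3])],.ref k12 k0 [(z5,[z3,z4,z0,y6]),(z2,[y3,z1,z6,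
    z6]),(z5,[z6,y2,z0,z3]),(z1,[z0,z0,z0,z0,z1]),(z5,[y3,y4,y15,y9,y5,z15])],.ref k12 k0 [(z2,[z3,z2,z3,z0,z1,y3]),
    (z4,[y15,z0,y3,z0,y5,z15]),(z1,[z3,z0,z3,z3,z1,y3]),(z1,[z0,z0,z0,z0,z1]),(z2,[y3,y2,y9,y6,y3,z9])],
    .ref k12 k0 [(z1,[y3,z0,y6,y6,y2,z6]),(z2,[z15,z5,z36,z30,z10,y30]),(z1,[y6,y2,y12,y9,y4,z12]),(z1,[z0,z0,z0,z0,
    z1]),(z1,[z3,z0,z3,z3,z1,y3])],.ref k12 k0 [(z1,[z6,z1,z6,z6,z2,y6]),(z1,[y15,z0,y12,y15,y5,z15]),(z1,[z12,z0,z12,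
    z15,z4,y12]),(z1,[z0,z0,z0,z0,z1]),(z1,[y6,y1,y9,y9,y3,z9])],.ref k12 k0 [(z1,[y1,z1,z2,z1]),(z2,[z5,z0,y4,y5]),
    (z1,[y2,z0,z4,z5]),(z1,[z0,z0,z0,z0,z1]),(z1,[z1,y1,y5,y4,y1,z3])],.ref k12 k0 [(z1,[z2,z1,y2,y4]),(z1,[y5,z0,z8,
    z10]),(z1,[z4,z0,y4,y5]),(z1,[z0,z0,z0,z0,z1]),(z1,[y2,y1,y1,z1,y1,z3])],.ref k12 k0 [(z3,[y6,z1,z0,z0,y2,z6]),
    (z3,[z15,z5,z9,z0,z5,y15]),(z3,[y12,y4,z0,z9,y4,z12]),(z1,[z0,z0,z0,z0,z1]),(z3,[z6,y1,y9,y9,y1,z3])],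
    .ref k12 k0 [(z7,[y6,z5,z0,y6,z0,z6]),(z7,[z15,z5,z21,z15,z0,y15]),(z7,[y12,y4,z0,z9,z0,z12]),(z1,[z0,z0,z0,z0,
    z1]),(z7,[z6,y5,y21,y15,y7,z15])],.ref k12 k0 [(z2,[z1,z2,z0,y3]),(z4,[y5,z0,z12,z15]),(z1,[z1]),(z1,[z0,z0,z0,z0,
    z1]),(z2,[y1,y2,y6,y3,y2,z6])],.ref k12 k0 [(z4,[z3,z4,z0,y6,y1]),(z8,[y15,z0,z24,z30,z5]),(z2,[z3,z0,z0,z0,y1]),
    (z1,[z0,z0,z0,z0,z1]),(z4,[y3,y4,y12,y6,y3,z12])],.ref k12 k0 [(z3,[z3,z4,z3,y3,z1,y3]),(z6,[y15,y5,z3,z15,y5,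
    z15]),(z3,[z6,z2,z6,z3,z2,y6]),(z1,[z0,z0,z0,z0,z1]),(z3,[y3,y4,y12,y6,y4,z12])],.ref k12 k0 [(z2,[z3,z2,z0,y3,
    y2]),(z4,[y15,z0,z12,z15,z10]),(z1,[z3,z0,z0,z0,y2]),(z1,[z0,z0,z0,z0,z1]),(z2,[y3,y2,y6,y3,z0,z6])],
    .ref k12 k0 [(z1,[z3,z2,z3,z0,z0,y3]),(z2,[y15,y5,y9,z0,z0,z15]),(z1,[z6,z2,z6,z3,z0,y6]),(z1,[z0,z0,z0,z0,z1]),
    (z1,[y3,y2,y6,y3,y1,z6])],.ref k12 k0 [(z3,[z6,z5,z6,z0,z2,y6]),(z3,[y15,y5,y6,z0,y5,z15]),(z3,[z12,z4,z12,z9,z4,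
    y12]),(z1,[z0,z0,z0,z0,z1]),(z3,[y6,y5,y15,y9,y5,z15])],.ref k12 k0 [(z1,[y3,z0,y3,y3,z1,z3]),(z2,[z15,z5,z21,z15,
    y5,y15]),(z1,[y6,y2,y6,y3,z2,z6]),(z1,[z0,z0,z0,z0,z1]),(z1,[z3,z0,z0,z0,y2])],.ref k12 k0 [(z1,[z6,z1,z0,z0,y4]),
    (z1,[y15,z0,z3,z0,z10]),(z1,[z12,z0,z0,z3,y8]),(z1,[z0,z0,z0,z0,z1]),(z1,[y6,y1,y3,y3,z3,z3])],.ref k12 k0 [(z2,
    [y3,z0,y6,y6,y1,z6]),(z4,[z15,z10,z42,z30,z5,y30]),(z1,[y3,y2,y6,y3,y1,z6]),(z1,[z0,z0,z0,z0,z1]),(z2,[z3,z0,z0,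
    z0,y1])],.ref k12 k0 [(z1,[y6,y1,y6,y6,z0,z6]),(z1,[z15,z5,z18,z15,z0,y15]),(z1,[y12,y4,y12,y9,z0,z12]),(z1,[z0,
    z0,z0,z0,z1]),(z1,[z6,z1,z3,z3,y1,y3])],.ref k12 k0 [(z3,[y6,y1,y12,y12,y4,z12]),(z3,[z15,z10,z39,z30,z10,y30]),
    (z3,[y12,y8,y24,y15,y8,z24]),(z1,[z0,z0,z0,z0,z1]),(z3,[z6,z1,z3,z3,z1,y3])]],
    .lp [k80,k74,k82,k76,k74,k92] [k6,k6,k9,k9,k5,k5,k8,k8,k11,k7,k0,k0] k0 [[k0,k0,k0,k0,k8,k0,k18],[k0,k0,k0,k2,k0,k0,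
    k0,k0,k0,k2],[k2],[k0,k0,k0,k0,k0,k0,k0,k0,k0,k2],[k0,k0,k0,k0,k0,k0,k16,k0,k16],[k0,k8,k0,k0,k0,k0,k0,k0,k0,k0,
    k0,k10],[],[k0,k18,k0,k0,k0,k16],[k2,k0,k2],[k0,k0,k0,k0,k0,k16],[k0,k0,k0,k0,k10]] (nat_lit 240) k5
    [[(k8,k75),(k2,k77),(k6,k78),(k0,k80),(k10,k86),(k4,k91)],[(k9,k61),(k7,k70),(k3,k77),(k1,k80),(k5,k83),(k11,
    k88)],[(k8,k70),(k2,k72),(k0,k77),(k10,k83),(k4,k86),(k6,k93)],[(k3,k72),(k7,k75),(k9,k76),(k1,k77),(k5,k78),(k11,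
    k85)],[(k8,k74),(k2,k78),(k6,k79),(k4,k82),(k0,k83),(k10,k87)],[(k9,k64),(k11,k71),(k7,k79),(k5,k82),(k3,k86),(k1,
    k91)],[(k0,k70),(k10,k74),(k2,k75),(k4,k79),(k8,k89),(k6,k92)],[(k9,k77),(k1,k78),(k5,k79),(k11,k84),(k7,k92),(k3,
    k93)],[(k0,k61),(k4,k64),(k8,k74),(k2,k76),(k6,k77),(k10,k85)],[(k3,k70),(k5,k74),(k9,k74),(k1,k75),(k11,k81),(k7,
    k89)],[(k4,k71),(k8,k81),(k6,k84),(k2,k85),(k0,k88),(k10,k92)],[(k7,k74),(k3,k83),(k9,k85),(k1,k86),(k5,k87),(k11,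
    k92)]]
    [] k0
    [[k2,k1,k0,k0,k0,k0],[k2,k0,k0,k1,k0,k0],[k2,k0,k0,k0,k1,k0],[k1,k2,k0,k0,k0,k0],[k1,k1,k0,k0,k1,k0],[k1,k0,k1,k0,
    k1,k0],[k1,k1,k0,k1,k0,k0],[k1,k0,k0,k1,k1,k0],[k1,k0,k0,k0,k2,k0],[k1,k0,k0,k0,k1,k1],[k0,k3,k0,k0,k0,k0],[k0,k2,
    k1,k0,k0,k0],[k0,k2,k0,k0,k1,k0],[k0,k1,k1,k0,k1,k0],[k0,k1,k0,k1,k1,k0],[k0,k1,k0,k0,k2,k0],[k0,k1,k1,k0,k0,k1],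
    [k0,k0,k2,k0,k1,k0],[k0,k0,k1,k1,k1,k0],[k0,k0,k1,k1,k0,k1],[k0,k0,k1,k0,k2,k0],[k0,k0,k1,k0,k1,k1],[k0,k0,k0,k1,
    k1,k1],[k0,k0,k0,k0,k3,k0]]
    [.ref k8 k6 [(z1,[y5,z5,z0,z1]),(z2,[z4,y5,y2,y1,z2]),(z1,[z1,y1,z1]),(z1,[y1,z1])],.ref k122 k4 [(z2,[y2,z1,y2,
    y1,z2]),(z4,[z2,z5,z2,z1,y2]),(z2,[z2,y1,z8,z1,y2]),(z4,[y10,z5,y10,z1,z10])],.ref k123 k3 [(z1,[y1,y1,z1]),(z2,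
    [z0,z5,z0,z1]),(z2,[z0,y5,y2,y1,z2]),(z1,[z1])],.ref k64 k6 [(z2,[y10,z5,z0,z1]),(z2,[z8,y5,y2,y1,z2]),(z1,[z2,y1,
    z1]),(z1,[y2,z1])],.ref k122 k4 [(z1,[y2,z1,z2]),(z1,[z1,z1,y1]),(z1,[z2,y1,z1]),(z2,[y10,z5,z10,z3])],
    .ref k8 k6 [(z2,[z10,y5,y10,y3]),(z2,[y4,z1,z2,z1,z2]),(z2,[y2,z1,z4,z1]),(z2,[z2,y1,y2,y1])],.ref k124 k8 [(z2,
    [y8,z7,z14,z3,y6]),(z2,[z0,y1,y2,y1,z2]),(z2,[z0,z5,z2,z1,y2]),(z2,[z8,y5,y2,y1,z2])],.ref k125 k3 [(z2,[y2,y7,z0,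
    y1,z2]),(z2,[z0,z5,z0,z1]),(z2,[z0,y5,y2,y1,z2]),(z2,[z2,z5,z2,z1,y2])],.ref k99 k4 [(z1,[y2,z1]),(z1,[z1]),(z1,
    [z2,y1,z1]),(z2,[y10,z5,z0,z1])],.ref k126 k2 [(z2,[y8,z3,y2,y1,z2]),(z2,[z10,y5,z0,z1]),(z1,[y2,z1,z1]),(z1,[y1,
    z1])],.ref k127 k2 [(z2,[z4,y3,y18,y3,z6]),(z1,[y5,z0,z15,z3]),(z1,[z1]),(z1,[z1,z3,y3])],.ref k99 k4 [(z1,[z2,z0,
    y4,y1]),(z2,[y2,z1,z4,z1]),(z1,[y2,z0,z5,z1]),(z1,[z5,z0,y10,y2])],.ref k8 k6 [(z1,[y5,z0,z5,z1]),(z2,[z4,y1,y6,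
    y1,z2]),(z1,[z1]),(z1,[y1,z0,z1])],.ref k122 k4 [(z1,[z2,z0,y2,y1]),(z2,[y2,z3,z2,z1]),(z1,[y2,z0,z5,z1]),(z1,[z5,
    z0,y5,y1])],.ref k122 k4 [(z2,[y2,y1,z0,y1,z2]),(z4,[z2,z7,z0,z1,y2]),(z2,[z2,z1,z6,z1,y2]),(z4,[y10,y5,z0,z1,
    z10])],.ref k123 k3 [(z1,[y1,y2,z2]),(z2,[z0,z5,z0,z1]),(z2,[z0,y5,y2,y1,z2]),(z1,[z1,z1,y1])],.ref k125 k3 [(z2,
    [z2,y7,z0,y1]),(z2,[z0,z5,z0,z1]),(z2,[z0,y5,y2,y1,z2]),(z2,[y2,z5,z2,z1])],.ref k128 k8 [(z2,[z4,z5,z10,z1,y10]),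
    (z2,[z0,y1,y2,y1,z2]),(z2,[z0,z5,z2,z1,y2]),(z1,[y1,y1,y1,z0,z2])],.ref k126 k2 [(z2,[y8,y5,y10,y1,z10]),(z2,[z10,
    z5,z10,z1,y10]),(z1,[y2,y1,y1,z0,z2]),(z1,[y1,z0,y1,z0,z1])],.ref k122 k4 [(z1,[z2,z1,z2,z0,y2]),(z1,[y1,z1,y1,z0,
    z1]),(z1,[y2,y1,z1,z0,z2]),(z2,[z10,z5,z10,z3,y10])],.ref k64 k6 [(z1,[z5,z0,y10,y2]),(z2,[y8,y1,z14,z3,z2]),(z1,
    [y2,z0,z5,z1]),(z1,[z2,z0,y4,y1])],.ref k124 k8 [(z2,[z8,z7,z14,z3,y14]),(z2,[z0,y1,y2,y1,z2]),(z2,[z0,z5,z2,z1,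
    y2]),(z2,[y8,y5,y2,y1,z10])],.ref k123 k3 [(z2,[y2,y5,z0,y1,z2]),(z2,[z0,z5,z0,z1]),(z2,[z0,y5,y2,y1,z2]),(z2,[z2,
    z3,z2,z1,y2])],.ref k129 k3 [(z1,[y1,y3,z3]),(z2,[z0,z5,z0,z1]),(z2,[z0,y5,y2,y1,z2]),(z1,[z1])]],
    .leafM k0 [k0,k1,k2,k3,k4,k5] [(z1,[z0,z1,z1,z1])] [],
    .tor k0 false k0 [(z2,[z0,z0,z1,z1]),(z2,[y1,z0,y1,z0,z2]),(z2,[z1,z0,z1]),(z2,[z0,z0,y1,y1,z2])],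
    .lp [(nat_lit 326),(nat_lit 328),(nat_lit 330),(nat_lit 306),(nat_lit 300),(nat_lit 326)] [k2,k2,k1,k1,k0,k0,k12,k12,
    k15,k15,k2,k2] k0 [[k0,k0,k0,k0,k0,k0,k0,k0,k24,k0,k6],[k0,k0,k0,k0,k0,k4,k0,k2],[k0,k0,k0,k0,k0,k0,k0,k0,k0,k0,
    k2],[k0,k0,k0,k0,k0,k0,k0,k0,k0,k8],[k4],[k0,k0,k0,k0,k0,k0,k0,k8],[k2,k0,k0,k0,k8],[k0,k0,k0,k0,k0,k0,k0,k0,k0,
    k30,k0,k26],[k0,k0,k8,k0,k0,k0,k30],[k0,k24,k0,k0,k0,k0,k0,k0,k0,k0,k0,k24],[k0,k0,k0,k0,k0,k0,k26,k0,k24],[k0,k6,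
    k0,k2]] (nat_lit 960) k5
    [[(k0,(nat_lit 320)),(k2,(nat_lit 325)),(k10,(nat_lit 326)),(k4,(nat_lit 328)),(k8,(nat_lit 337)),(k6,
    (nat_lit 342))],[(k11,(nat_lit 302)),(k9,(nat_lit 315)),(k1,(nat_lit 320)),(k7,(nat_lit 320)),(k3,(nat_lit 327)),
    (k5,(nat_lit 328))],[(k6,(nat_lit 315)),(k4,(nat_lit 325)),(k0,(nat_lit 327)),(k2,(nat_lit 328)),(k10,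
    (nat_lit 333)),(k8,(nat_lit 338))],[(k9,(nat_lit 314)),(k7,(nat_lit 317)),(k1,(nat_lit 325)),(k3,(nat_lit 328)),
    (k5,(nat_lit 329)),(k11,(nat_lit 335))],[(k8,(nat_lit 307)),(k6,(nat_lit 318)),(k0,(nat_lit 328)),(k2,
    (nat_lit 329)),(k4,(nat_lit 330)),(k10,(nat_lit 330))],[(k7,(nat_lit 318)),(k9,(nat_lit 323)),(k3,(nat_lit 325)),
    (k1,(nat_lit 328)),(k11,(nat_lit 328)),(k5,(nat_lit 330))],[(k6,(nat_lit 298)),(k8,(nat_lit 303)),(k10,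
    (nat_lit 316)),(k2,(nat_lit 317)),(k4,(nat_lit 318)),(k0,(nat_lit 320))],[(k7,(nat_lit 298)),(k9,(nat_lit 303)),
    (k3,(nat_lit 315)),(k5,(nat_lit 318)),(k1,(nat_lit 342)),(k11,(nat_lit 346))],[(k8,(nat_lit 270)),(k10,
    (nat_lit 287)),(k6,(nat_lit 303)),(k2,(nat_lit 314)),(k0,(nat_lit 315)),(k4,(nat_lit 323))],[(k9,(nat_lit 270)),
    (k7,(nat_lit 303)),(k5,(nat_lit 307)),(k11,(nat_lit 313)),(k1,(nat_lit 337)),(k3,(nat_lit 338))],[(k0,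
    (nat_lit 302)),(k10,(nat_lit 302)),(k8,(nat_lit 313)),(k4,(nat_lit 328)),(k2,(nat_lit 335)),(k6,(nat_lit 346))],
    [(k9,(nat_lit 287)),(k11,(nat_lit 302)),(k7,(nat_lit 316)),(k1,(nat_lit 326)),(k5,(nat_lit 330)),(k3,
    (nat_lit 333))]]
    [] k0
    [[k2,k0,k0,k0,k0,k1],[k1,k0,k1,k0,k1,k0],[k1,k0,k0,k0,k2,k0],[k1,k0,k0,k0,k1,k1],[k1,k0,k0,k0,k0,k2],[k0,k1,k1,k0,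
    k1,k0],[k0,k1,k0,k2,k0,k0],[k0,k1,k0,k1,k1,k0],[k0,k1,k0,k0,k2,k0],[k0,k0,k1,k2,k0,k0],[k0,k0,k1,k1,k1,k0],[k0,k0,
    k1,k0,k2,k0],[k0,k0,k1,k0,k1,k1],[k0,k0,k0,k3,k0,k0],[k0,k0,k0,k2,k1,k0],[k0,k0,k0,k1,k2,k0],[k0,k0,k0,k1,k1,k1],
    [k0,k0,k0,k0,k3,k0],[k0,k0,k0,k0,k2,k1],[k0,k0,k0,k0,k1,k2],[k0,k0,k0,k0,k0,k3]]
    [.ref k12 k0 [(z7,[z10,z1]),(z7,[y2,z4,z21]),(z7,[z4,y8,z0,z21]),(z7,[y5,z10,z0,z0,z21]),(z7,[y8,y5,y21,y21,y21,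
    z21])],.ref k12 k0 [(z1,[z5,z3,z5,z0,z5,y5]),(z1,[y1,z0,z2,z0,y1,z1]),(z1,[z2,z0,z2,z3,z2,y2]),(z2,[y5,z0,y5,z0,
    z1,z5]),(z1,[y4,y3,y7,y3,y7,z7])],.ref k12 k0 [(z1,[y5,y2,y10,y10,y10,z10]),(z1,[z1,z1,z5,z2,z2,y2]),(z1,[y2,y2,
    y4,y1,y4,z4]),(z2,[z5,z5,z10,z10,z16,y10]),(z1,[z4,z1,z5,z5,z5,y5])],.ref k12 k0 [(z1,[z10,z3,z10,z10,z10,y10]),
    (z1,[y2,z0,z1,y2,y2,z2]),(z1,[z4,z0,z4,z7,z4,y4]),(z1,[y5,z0,y5,y5,y2,z5]),(z1,[y8,y3,y11,y11,y11,z11])],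
    .ref k12 k0 [(z2,[z5,z1]),(z2,[y1,z1,z6]),(z1,[z1,y1,z0,z3]),(z4,[y5,z5,z0,z0,z12]),(z1,[y2,y1,y3,y3,y3,z3])],
    .ref k12 k0 [(z1,[y5,y2,z0,z0,y5,z5]),(z1,[z1,z1,z3,z0,z1,y1]),(z1,[y2,y2,z0,z3,y2,z2]),(z2,[z5,z5,z0,z0,z11,y5]),
    (z1,[z4,z1,y3,y3,z1,y1])],.ref k12 k0 [(z2,[y5,z6,z5,z0,z10]),(z2,[z1,z0,z5,z0,y2]),(z1,[y1,z0,z1,z3,z2]),(z4,[z5,
    z0,y5,z0,z2]),(z1,[z2,y3,y5,y3,y7,z3])],.ref k12 k0 [(z1,[y2,z1,z0,y2,z0,z2]),(z5,[z2,z2,z15,z2,z0,y2]),(z5,[y4,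
    y4,z0,z11,z0,z4]),(z1,[z1,z1,z0,z1,z3,y1]),(z5,[z8,y7,y15,y7,y15,z7])],.ref k12 k0 [(z3,[y5,y1,y5,y10,y10,z10]),
    (z3,[z1,z2,z10,z2,z2,y2]),(z3,[y2,y4,y2,z5,y4,z4]),(z6,[z5,z10,z5,z10,z28,y10]),(z3,[z4,y1,y5,y1,y1,z1])],
    .ref k12 k0 [(z1,[y5,z3,z0,z5,z10]),(z1,[z1,z0,z3,y1,y2]),(z1,[y2,z0,z0,z5,z4]),(z2,[z5,z0,z0,y5,y4]),(z1,[z4,y3,
    y3,y7,y11,z3])],.ref k12 k0 [(z3,[y10,y1,y10,z0,z0,z10]),(z3,[z2,z2,z11,z0,z0,y2]),(z3,[y4,y4,y4,z9,z0,z4]),(z3,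
    [z5,z5,z5,z0,z9,y5]),(z3,[z8,y1,y1,y9,y9,z1])],.ref k12 k0 [(z2,[y5,y4,y10,y5,y10,z10]),(z2,[z1,z2,z8,z1,z2,y2]),
    (z1,[y1,y2,y2,z2,y2,z2]),(z4,[z5,z10,z10,z5,z22,y10]),(z1,[z2,z1,z1,y1,z1,y1])],.ref k12 k0 [(z1,[y10,y7,y10,z0,
    y10,z10]),(z1,[z2,z2,z5,z0,z2,y2]),(z1,[y4,y4,y4,z3,y4,z4]),(z1,[z5,z5,z5,z0,z8,y5]),(z1,[z8,z5,z5,y3,z5,y5])],
    .ref k12 k0 [(z1,[y2,z3,z0,z0,z6]),(z5,[z2,z0,z15,z0,y6]),(z5,[y4,z0,z0,z15,z12]),(z1,[z1]),(z5,[z8,y15,y15,y15,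
    y39,z15])],.ref k12 k0 [(z3,[y5,z4,y5,y5,z5,z5]),(z3,[z1,z1,z10,z1,y1,y1]),(z3,[y2,y2,y2,z7,z2,z2]),(z6,[z5,z5,z5,
    z5,z13,y5]),(z3,[z4,y5,y5,y5,y13,z5])],.ref k12 k0 [(z7,[y10,z1,y20,y20,y10,z20]),(z7,[z2,z4,z25,z4,z2,y4]),(z7,
    [y4,y8,y8,z13,y4,z8]),(z7,[z5,z10,z10,z10,z26,y10]),(z7,[z8,y5,y5,y5,y13,z5])],.ref k12 k0 [(z2,[y5,z1,y5,y5,z0,
    z5]),(z2,[z1,z1,z7,z1,z0,y1]),(z1,[y1,y1,y1,z2,z0,z1]),(z4,[z5,z5,z5,z5,z12,y5]),(z1,[z2,y1,y1,y1,y3,z1])],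
    .ref k12 k0 [(z4,[y5,y3,y15,y15,y15,z15]),(z4,[z1,z3,z15,z3,z3,y3]),(z2,[y1,y3,y3,z3,y3,z3]),(z8,[z5,z15,z15,z15,
    z39,y15]),(z1,[z1])],.ref k12 k0 [(z1,[y2,y1,y4,y4,y4,z4]),(z5,[z2,z4,z19,z4,z4,y4]),(z5,[y4,y8,y8,z7,y8,z8]),(z1,
    [z1,z2,z2,z2,z5,y2]),(z5,[z8,z1,z1,z1,z1,y1])],.ref k12 k0 [(z1,[y5,y2,y5,y5,y5,z5]),(z1,[z1,z1,z4,z1,z1,y1]),(z1,
    [y2,y2,y2,z1,y2,z2]),(z2,[z5,z5,z5,z5,z11,y5]),(z1,[z4,z1,z1,z1,z1,y1])],.ref k12 k0 [(z1,[z10,z3]),(z1,[y2,z0,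
    z3]),(z1,[z4,z0,z0,z3]),(z1,[y5,z0,z0,z0,z3]),(z1,[y8,y3,y3,y3,y3,z3])]]]

/-- the nodes with numbers from 90 -/
noncomputable def cT6_3_n2 : List TN :=
  cT6_3_n2_0 ++ (cT6_3_n2_1 ++ (cT6_3_n2_2 ++ cT6_3_n2_3))

theorem cT6_3_k2 : allI (chkT 6 cT6_3_w tt6 cT6_3_s (blkF [] cT6_3_D)) cT6_3_n2 90 = true := by
  decide +kernel

end Pool.Agent.Lib_MP_fa6e45
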