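import Pool.Agent.Lib_MP_fa6e45.CG6_2d

/-!
MP_fa6e45_co, stage 5: certificates (captain, generated by a program).
-/

namespace Pool.Agent.Lib_MP_fa6e45

noncomputable def cT6_3_n3_0 : List TN :=
  [.lp [k168,k168,k156,k160,k142,k164] [k0,k0,k0,k0,k6,k6,k4,k4,k13,k13,k2,k2] k0 [[k0,k0,k0,k0,k4,k0,k0,k0,k0,k0,k6],
    [k0,k0,k0,k8],[k8,k0,k0,k0,k8],[k0,k0,k0,k0,k0,k0,k0,k0,k0,k0,k0,k2],[k0,k0,k0,k0,k0,k0,k18],[k0,k4,k0,k8],[k0,k0,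
    k0,k0,k0,k0,k0,k0,k0,k0,k12],[k0,k0,k0,k0,k0,k18,k0,k0,k0,k2],[k0,k0,k0,k0,k0,k0,k2],[k0,k0,k0,k0,k0,k0,k0,k0,k0,
    k0,k0,k2],[k0,k0,k2,k0,k0,k0,k0,k0,k2],[k0,k6,k0,k0,k0,k0,k0,k12]] (nat_lit 480) k5
    [[(k6,k152),(k8,k157),(k0,k162),(k4,k162),(k10,k166),(k2,k170)],[(k9,k155),(k7,k160),(k1,k162),(k11,k166),(k3,
    k168),(k5,k170)],[(k8,k155),(k2,k160),(k6,k164),(k4,k166),(k0,k168),(k10,k172)],[(k9,k155),(k7,k156),(k3,k160),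
    (k5,k162),(k11,k166),(k1,k170)],[(k8,k149),(k6,k158),(k10,k158),(k2,k162),(k4,k164),(k0,k170)],[(k9,k131),(k7,
    k158),(k11,k160),(k1,k162),(k5,k164),(k3,k166)],[(k8,k151),(k2,k156),(k4,k158),(k0,k160),(k10,k162),(k6,k178)],
    [(k9,k151),(k1,k152),(k5,k158),(k3,k164),(k11,k164),(k7,k178)],[(k4,k131),(k8,k140),(k6,k151),(k0,k155),(k2,k155),
    (k10,k165)],[(k9,k140),(k5,k149),(k7,k151),(k11,k153),(k3,k155),(k1,k157)],[(k8,k153),(k4,k160),(k10,k162),(k6,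
    k164),(k0,k166),(k2,k166)],[(k5,k158),(k7,k162),(k11,k162),(k9,k165),(k1,k166),(k3,k172)]]
    [] k0
    [[k2,k0,k0,k1,k0,k0],[k2,k0,k0,k0,k1,k0],[k1,k0,k1,k0,k1,k0],[k1,k1,k0,k1,k0,k0],[k1,k0,k0,k1,k1,k0],[k1,k0,k0,k0,
    k2,k0],[k1,k0,k0,k0,k1,k1],[k0,k2,k0,k0,k1,k0],[k0,k1,k1,k0,k1,k0],[k0,k1,k0,k1,k1,k0],[k0,k1,k0,k0,k2,k0],[k0,k0,
    k2,k0,k1,k0],[k0,k0,k1,k1,k1,k0],[k0,k0,k1,k0,k2,k0],[k0,k0,k1,k0,k1,k1],[k0,k0,k0,k1,k2,k0],[k0,k0,k0,k1,k1,k1],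
    [k0,k0,k0,k0,k3,k0],[k0,k0,k0,k0,k2,k1]]
    [.ref k12 k0 [(z2,[z4,y1,z0,z0,y1]),(z10,[y4,z4,z15,z0,z1]),(z20,[z4,y4,z0,z15,y1]),(z1,[y1,z1,z0,z0,z1]),(z20,
    [y32,z2,y30,y15,y7,z60])],.ref k12 k0 [(z8,[z20,z2,z10,z5,z5,y20]),(z8,[y4,z2,z10,y1,y1,z4]),(z16,[z4,y2,z2,z13,
    z1,y4]),(z16,[y20,z10,y10,y5,z7,z20]),(z4,[y8,y2,y10,y5,y5,z20])],.ref k12 k0 [(z2,[z20,z3,z10,z0,z5,y20]),(z2,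
    [y4,z0,z1,z0,y1,z4]),(z4,[z4,z0,z2,z3,z1,y4]),(z2,[y10,z0,y5,z0,y1,z10]),(z4,[y32,y6,y22,y3,y11,z44])],
    .ref k12 k0 [(z2,[z20,y7,y10,z0,y5]),(z2,[y4,z2,z5,z0,z1]),(z4,[z4,y2,y2,z3,y1]),(z2,[y10,z5,z5,z0,z4]),(z4,[y32,
    z10,z10,y3,z5,z12])],.ref k12 k0 [(z2,[y20,z3,y10,y5,z0,z20]),(z2,[z4,z0,z5,z1,z0,y4]),(z2,[y2,z0,y1,z1,z0,z2]),
    (z4,[z20,z0,z10,z5,z3,y20]),(z4,[z32,y6,z10,z5,y3,y20])],.ref k12 k0 [(z2,[y10,y2,y10,y5,y5,z20]),(z2,[z2,z1,z5,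
    z1,z1,y4]),(z4,[y2,y1,y2,z2,y1,z4]),(z4,[z10,z5,z10,z5,z8,y20]),(z4,[z16,z2,z10,z5,z5,y20])],.ref k12 k0 [(z4,
    [z20,z6,z10,z5,z5,y20]),(z4,[y4,z0,z4,y1,y1,z4]),(z8,[z4,z0,z2,z7,z1,y4]),(z8,[y20,z0,y10,y5,z1,z20]),(z4,[y16,y6,
    y14,y7,y7,z28])],.ref k12 k0 [(z8,[y20,z2,z10,y5,y5,z20]),(z8,[z4,z2,z10,z1,z1,y4]),(z16,[y4,y2,z2,z11,y1,z4]),
    (z16,[z20,z10,y10,z5,z17,y20]),(z4,[z8,y2,y10,y1,y1,z4])],.ref k12 k0 [(z6,[y20,y1,z0,z0,y5,z20]),(z6,[z4,z2,z9,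
    z0,z1,y4]),(z12,[y4,y2,z0,z9,y1,z4]),(z6,[z10,z5,z0,z0,z7,y10]),(z12,[z32,y2,y18,y9,y1,z4])],.ref k12 k0 [(z2,[y4,
    z1,z0,y1,z0,z4]),(z10,[z4,z2,z15,z1,z0,y4]),(z10,[y2,y1,z0,z7,z0,z2]),(z4,[z4,z2,z0,z1,z3,y4]),(z20,[z32,y14,y30,
    y7,y15,z28])],.ref k12 k0 [(z6,[y10,y1,y5,y5,y5,z20]),(z6,[z2,z2,z10,z1,z1,y4]),(z12,[y2,y2,y1,z8,y1,z4]),(z12,
    [z10,z10,z5,z5,z14,y20]),(z12,[z16,y2,y10,y1,y1,z4])],.ref k12 k0 [(z4,[y20,y4,y10,z5,y5,z20]),(z4,[z4,z2,z8,y1,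
    z1,y4]),(z8,[y4,y2,y2,z7,y1,z4]),(z8,[z20,z10,z10,y5,z11,y20]),(z4,[z16,z2,z2,y7,z1,y4])],.ref k12 k0 [(z4,[y10,
    z1,y5,z0,z0,z10]),(z4,[z2,z1,z7,z0,z0,y2]),(z8,[y2,y1,y1,z6,z0,z2]),(z8,[z10,z5,z5,z0,z6,y10]),(z4,[z8,y2,y2,y3,
    y3,z4])],.ref k12 k0 [(z2,[y4,y1,y4,y1,y2,z8]),(z10,[z4,z4,z19,z1,z2,y8]),(z10,[y2,y2,y2,z7,y1,z4]),(z4,[z4,z4,z4,
    z1,z5,y8]),(z20,[z32,z2,z2,y7,z1,y4])],.ref k12 k0 [(z2,[y20,y7,y10,z0,y5,z20]),(z2,[z4,z2,z5,z0,z1,y4]),(z4,[y4,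
    y2,y2,z3,y1,z4]),(z2,[z10,z5,z5,z0,z4,y10]),(z4,[z32,z10,z10,y3,z5,y20])],.ref k12 k0 [(z14,[y20,z1,y20,y10,y5,
    z40]),(z14,[z4,z4,z25,z2,z1,y8]),(z28,[y4,y4,y4,z19,y1,z8]),(z14,[z10,z10,z10,z5,z13,y20]),(z28,[z32,y10,y10,y5,
    y13,z20])],.ref k12 k0 [(z6,[y20,y1,y10,y5,z0,z20]),(z6,[z4,z2,z11,z1,z0,y4]),(z6,[y2,y1,y1,z4,z0,z2]),(z12,[z20,
    z10,z10,z5,z9,y20]),(z12,[z32,y2,y2,y1,y9,z4])],.ref k12 k0 [(z16,[y20,y6,y30,y15,y15,z60]),(z16,[z4,z6,z30,z3,z3,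
    y12]),(z32,[y4,y6,y6,z21,y3,z12]),(z32,[z20,z30,z30,z15,z39,y60]),(z1,[z1])],.ref k12 k0 [(z4,[y10,y4,y10,y5,y5,
    z20]),(z4,[z2,z2,z8,z1,z1,y4]),(z8,[y2,y2,y2,z5,y1,z4]),(z8,[z10,z10,z10,z5,z11,y20]),(z4,[z8,z2,z2,z1,z1,y4])]],
    .lp [k176,k166,k162,k156,k146,k152] [k0,k0,k5,k5,k7,k7,k10,k10,k15,k15,k12,k12] k0 [[k0,k0,k2,k0,k0,k0,k0,k0,k0,k0,
    k16],[k0,k0,k0,k0,k0,k4,k0,k4],[k0,k0,k0,k0,k0,k0,k0,k0,k0,k0,k12],[k0,k2,k0,k0,k0,k0,k0,k0,k0,k16],[k4,k0,k0,k0,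
    k0,k0,k24],[k0,k0,k0,k0,k0,k0,k0,k0,k0,k2],[k4,k0,k0,k0,k0,k0,k0,k0,k8],[k0,k0,k0,k0,k0,k24],[k0,k0,k16,k0,k2],
    [k0,k0,k0,k0,k0,k0,k0,k8],[],[k0,k16,k0,k12]] (nat_lit 480) k5
    [[(k2,k159),(k0,k160),(k8,k161),(k10,k164),(k6,k166),(k4,k169)],[(k1,k160),(k11,k164),(k9,k165),(k5,k167),(k7,
    k170),(k3,k171)],[(k8,k156),(k6,k157),(k4,k160),(k2,k168),(k0,k171),(k10,k175)],[(k9,k156),(k1,k159),(k7,k161),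
    (k5,k164),(k3,k168),(k11,k175)],[(k8,k138),(k6,k159),(k4,k162),(k2,k164),(k0,k167),(k10,k169)],[(k9,k130),(k7,
    k159),(k11,k159),(k3,k160),(k5,k162),(k1,k169)],[(k8,k149),(k10,k154),(k4,k159),(k2,k161),(k0,k170),(k6,k180)],
    [(k11,k146),(k9,k151),(k3,k157),(k5,k159),(k1,k166),(k7,k180)],[(k4,k130),(k10,k149),(k6,k151),(k8,k154),(k2,
    k156),(k0,k165)],[(k5,k138),(k7,k149),(k11,k149),(k9,k154),(k3,k156),(k1,k161)],[(k6,k146),(k8,k149),(k10,k152),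
    (k4,k159),(k0,k164),(k2,k175)],[(k9,k149),(k11,k152),(k7,k154),(k1,k164),(k5,k169),(k3,k175)]]
    [] k0
    [[k1,k0,k1,k0,k1,k0],[k1,k0,k0,k0,k1,k1],[k0,k1,k1,k0,k1,k0],[k0,k1,k0,k1,k1,k0],[k0,k1,k0,k0,k2,k0],[k0,k0,k2,k0,
    k1,k0],[k0,k0,k1,k1,k1,k0],[k0,k0,k1,k1,k0,k1],[k0,k0,k1,k0,k2,k0],[k0,k0,k1,k0,k1,k1],[k0,k0,k0,k1,k2,k0],[k0,k0,
    k0,k1,k1,k1],[k0,k0,k0,k1,k0,k2],[k0,k0,k0,k0,k3,k0],[k0,k0,k0,k0,k2,k1],[k0,k0,k0,k0,k1,k2],[k0,k0,k0,k0,k0,k3]]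
    [.ref k12 k0 [(z3,[y12,z3,y4,z0,y2,z12]),(z1,[z0,z0,z1]),(z6,[z30,z0,z10,z3,z5,y30]),(z3,[y3,z0,y1,z0,z1,z3]),(z6,
    [z12,y6,y2,y3,y1,z6])],.ref k12 k0 [(z2,[z6,z2,z2,z1,z1,y6]),(z1,[z0,z0,z1]),(z8,[y30,z0,y10,y1,y5,z30]),(z8,[z6,
    z0,z2,z1,z5,y6]),(z4,[y6,y4,y6,y3,y3,z18])],.ref k12 k0 [(z7,[y12,z3,z0,z0,y2,z12]),(z1,[z0,z0,z1]),(z14,[z30,z10,
    z0,z7,z5,y30]),(z7,[y3,y1,z0,z0,z3,z3]),(z14,[z12,y10,y14,y7,y5,z30])],.ref k12 k0 [(z1,[y12,y3,z0,y2,z0,z12]),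
    (z1,[z0,z0,z1]),(z1,[z15,z5,z0,z3,z0,y15]),(z2,[y6,y2,z0,y1,z1,z6]),(z2,[z12,z2,y2,z1,y1,y6])],.ref k12 k0 [(z1,
    [y3,y1,y1,y1,y1,z6]),(z1,[z0,z0,z1]),(z4,[z15,z10,z5,z7,z5,y30]),(z4,[y3,y2,y1,y1,z1,z6]),(z2,[z3,z0,y1])],
    .ref k12 k0 [(z6,[y6,z4,y2,z1,y1,z6]),(z1,[z0,z0,z1]),(z24,[z30,z10,z10,z7,z5,y30]),(z24,[y6,y2,y2,z1,z11,z6]),
    (z12,[z6,y10,y10,y7,y5,z30])],.ref k12 k0 [(z3,[y6,z1,y2,z0,z0,z6]),(z1,[z0,z0,z1]),(z6,[z15,z5,z5,z3,z0,y15]),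
    (z6,[y3,y1,y1,z0,z3,z3]),(z6,[z6,y4,y4,y3,y3,z12])],.ref k12 k0 [(z1,[y6,z1,z0,z1,z1]),(z1,[z0,z0,z1]),(z4,[z30,
    z0,z0,y3,y5]),(z4,[y6,z0,z0,z1,z3]),(z1,[z3,y1,y1,y1,y1,z3])],.ref k12 k0 [(z9,[y12,z1,y8,y2,y4,z24]),(z1,[z0,z0,
    z1]),(z9,[z15,z10,z10,z7,z5,y30]),(z18,[y6,y4,y4,y1,z7,z12]),(z18,[z12,y10,y10,y7,y5,z30])],.ref k12 k0 [(z5,[y12,
    z1,y4,z0,y2,z12]),(z1,[z0,z0,z1]),(z2,[z6,z2,z2,z1,z1,y6]),(z5,[y3,y1,y1,z0,z2,z3]),(z10,[z12,y6,y6,y5,y3,z18])],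
    .ref k12 k0 [(z3,[y12,y5,y8,y4,y2,z24]),(z1,[z0,z0,z1]),(z6,[z30,z20,z20,z13,z5,y60]),(z3,[y3,y2,y2,y1,z1,z6]),
    (z6,[z12,z2,z2,z1,y1,y6])],.ref k12 k0 [(z1,[z12,z5,z4,z2,z0,y12]),(z1,[z0,z0,z1]),(z1,[y15,y5,y5,y2,z0,z15]),(z2,
    [z6,z2,z2,z1,z1,y6]),(z2,[y12,y6,y6,y3,y1,z18])],.ref k12 k0 [(z5,[z12,z5,z0,z0,y2]),(z1,[z0,z0,z1]),(z2,[y6,z0,
    z0,z1,z1]),(z5,[z3,z0,z0,z0,z2]),(z10,[y12,y10,y10,y5,y3,z30])],.ref k12 k0 [(z1,[y2,y1,y2,y1,y1,z6]),(z1,[z0,z0,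
    z1]),(z4,[z10,z10,z10,z7,z5,y30]),(z4,[y2,y2,y2,y1,z1,z6]),(z1,[z1])],.ref k12 k0 [(z1,[y6,y3,y4,y2,y2,z12]),(z1,
    [z0,z0,z1]),(z2,[z15,z10,z10,z6,z5,y30]),(z2,[y3,y2,y2,y1,z0,z6]),(z2,[z6,z2,z2,z1,z1,y6])],.ref k12 k0 [(z1,[z6,
    z3,z2,z1,z1,y6]),(z1,[z0,z0,z1]),(z4,[y30,y10,y10,y3,y5,z30]),(z4,[z6,z2,z2,z1,z3,y6]),(z1,[y3,y2,y2,y1,y1,z6])],
    .ref k12 k0 [(z1,[z2,z1]),(z1,[z0,z0,z1]),(z2,[y5,z0,z0,z1]),(z2,[z1,z0,z0,z0,z1]),(z2,[y2,y2,y2,y1,y1,z6])]],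
    .lp [k162,k174,k158,k158,k146,k160] [k6,k6,k0,k0,k8,k8,k8,k8,k14,k14,k7,k7] k0 [[k0,k0,k0,k0,k0,k0,k28,k0,k0,k0,k2],
    [k0,k0,k0,k30],[k30,k0,k0,k0,k8],[k0,k0,k0,k0,k0,k0,k0,k2],[k0,k0,k0,k0,k0,k0,k0,k0,k30],[k0,k0,k0,k8,k0,k0,k0,
    k30],[k0,k0,k2,k0,k30],[k0,k28],[k0,k0,k0,k0,k0,k0,k0,k0,k0,k0,k32],[k0,k0,k0,k0,k0,k30],[],[k0,k2,k0,k0,k0,k0,k0,
    k0,k0,k32]] (nat_lit 480) k5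
    [[(k8,k122),(k0,k160),(k4,k160),(k6,k160),(k10,k161),(k2,k168)],[(k9,k126),(k1,k160),(k7,k160),(k11,k161),(k3,
    k168),(k5,k190)],[(k2,k144),(k8,k160),(k4,k166),(k0,k168),(k10,k169),(k6,k194)],[(k3,k144),(k7,k158),(k9,k162),
    (k5,k166),(k11,k167),(k1,k168)],[(k8,k152),(k6,k156),(k10,k159),(k2,k166),(k4,k166),(k0,k190)],[(k11,k129),(k7,
    k158),(k1,k160),(k3,k166),(k5,k166),(k9,k182)],[(k6,k128),(k2,k158),(k4,k158),(k10,k159),(k0,k160),(k8,k182)],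
    [(k7,k128),(k9,k152),(k5,k156),(k11,k159),(k1,k160),(k3,k194)],[(k0,k126),(k8,k146),(k6,k152),(k10,k153),(k2,
    k162),(k4,k182)],[(k1,k122),(k9,k146),(k5,k152),(k11,k153),(k3,k160),(k7,k182)],[(k4,k129),(k8,k153),(k6,k159),
    (k0,k161),(k2,k167),(k10,k192)],[(k9,k153),(k5,k159),(k7,k159),(k1,k161),(k3,k169),(k11,k192)]]
    [] k0
    [[k2,k0,k0,k0,k1,k0],[k1,k1,k0,k0,k1,k0],[k1,k0,k1,k1,k0,k0],[k1,k0,k1,k0,k1,k0],[k1,k0,k0,k2,k0,k0],[k1,k0,k0,k1,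
    k1,k0],[k1,k0,k0,k0,k2,k0],[k1,k0,k0,k0,k1,k1],[k0,k3,k0,k0,k0,k0],[k0,k2,k1,k0,k0,k0],[k0,k2,k0,k0,k1,k0],[k0,k1,
    k0,k1,k1,k0],[k0,k1,k0,k0,k2,k0],[k0,k1,k1,k0,k0,k1],[k0,k0,k2,k0,k0,k1],[k0,k0,k1,k2,k0,k0],[k0,k0,k1,k1,k0,k1],
    [k0,k0,k1,k1,k1,k0],[k0,k0,k1,k0,k1,k1],[k0,k0,k0,k3,k0,k0],[k0,k0,k0,k2,k1,k0],[k0,k0,k0,k2,k0,k1],[k0,k0,k0,k1,
    k1,k1],[k0,k0,k0,k0,k3,k0],[k0,k0,k0,k0,k2,k1]]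
    [.ref k20 k4 [(z1,[y5,z2]),(z1,[z1]),(z5,[y5,z2,z1]),(z5,[z5,y2,z0,z1])],.ref k131 k2 [(z5,[y20,z3,z3,y1,z5]),(z5,
    [y10,z2,z2,z1]),(z5,[z10,y2,y1]),(z5,[y5,z2,z1])],.ref k132 k6 [(z5,[z10,z0,y3,z2,y10]),(z5,[z0,y1,z1,y1,z5]),(z1,
    [y2,z0,z1,z0,z2]),(z1,[z0,z0,y1])],.ref k22 k4 [(z1,[y5,z1,z0,z1]),(z5,[z5,z2,z0,y1]),(z5,[y10,z2,z3,z2]),(z5,
    [z10,y2,z0,z1])],.ref k22 k4 [(z3,[y5,y1,y2,y2,z10]),(z15,[z5,z10,z2,z2,y10]),(z15,[y10,y2,z5,y4,z20]),(z15,[z10,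
    z2,z4,z13,y20])],.ref k124 k5 [(z5,[y20,z7,z3,z7,y15]),(z5,[z0,y1,z1,y1,z5]),(z5,[z0,z5,z1,z1,y5]),(z1,[z0,y1,y1,
    y1,z5])],.ref k133 k4 [(z1,[y5,z1]),(z1,[z1]),(z5,[y10,z2,z1]),(z5,[z10,y2,z0,z1])],.ref k109 k10 [(z5,[z5,y1,z1,
    y1]),(z5,[y5,z3,z0,z1]),(z1,[z5,y1,z0,y1]),(z5,[y5,z1,z0,z2])],.ref k22 k4 [(z2,[z5,z0,y3]),(z10,[y5,z6,z3]),(z1,
    [z1]),(z5,[y5,z0,z3,z3])],.ref k20 k4 [(z1,[z5,z0,y2,y1]),(z5,[y5,z2,z2,z1]),(z5,[z5,z0,y1,y1]),(z5,[y5,z0,z2,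
    z2])],.ref k109 k10 [(z5,[z5,z0,y1,y1]),(z5,[y5,z2,z2,z1]),(z1,[z5,z0,y2,y1]),(z5,[y5,z0,z2,z2])],
    .ref k20 k4 [(z1,[y5,y1,z0,y1,z5]),(z5,[z5,z3,z0,z1,y5]),(z5,[y5,y1,z1,y1,z5]),(z5,[z5,z1,z0,z2,y5])],
    .ref k131 k2 [(z5,[y10,y1,z1,y1,z5]),(z5,[y5,z0,z1,z1]),(z1,[z1]),(z10,[y5,z2,z1])],.ref k124 k5 [(z5,[z20,z7,z3,
    z7,y35]),(z5,[z0,y1,z1,y1,z5]),(z5,[z0,z5,z1,z1,y5]),(z1,[z0,y1,y1,y1,z5])],.ref k133 k4 [(z1,[z5,z0,z0,y2]),(z5,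
    [y5,z1,z0,z2]),(z5,[z10,z0,z1,y4]),(z1,[y2,z0,z0,z1])],.ref k86 k6 [(z5,[z5,z2,y2,z2,y10]),(z5,[z0,y1,z1,y1,z5]),
    (z5,[y5,y2,z3,y1,z10]),(z1,[z0,z0,y1])],.ref k131 k2 [(z5,[z20,z3,z3,y1,y15]),(z5,[z10,z2,z2,z1,y10]),(z5,[y10,y2,
    y1,z0,z10]),(z5,[z5,z2,z1,z0,y5])],.ref k22 k4 [(z2,[y5,y1,y1,z0,z5]),(z10,[z5,z7,z1,z0,y5]),(z5,[y5,y1,z2,z0,
    z5]),(z5,[z5,z1,z1,z3,y5])],.ref k22 k4 [(z1,[z5,z0,z0,y1]),(z5,[y5,z3,z0,z1]),(z5,[z10,z0,z3,y2]),(z1,[y2,z0,z0,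
    z1])],.ref k22 k4 [(z4,[y5,y3,y3,y3,z15]),(z20,[z5,z15,z3,z3,y15]),(z10,[y5,y3,z3,y3,z15]),(z10,[z5,z3,z3,z9,
    y15])],.ref k134 k5 [(z5,[y10,z1,z1,z3,y5]),(z5,[z0,y1,z1,y1,z5]),(z5,[z0,z5,z1,z1,y5]),(z1,[z0,y1,y1,y1,z5])],
    .ref k22 k4 [(z1,[y5,y2,y2,y2,z10]),(z5,[z5,z5,z2,z2,y10]),(z5,[y10,y4,y1,y4,z20]),(z5,[z10,z4,z4,z7,y20])],
    .ref k131 k2 [(z1,[y4,y1,y1,y1,z5]),(z5,[y10,y2,y2,y1,z10]),(z5,[z10,z2,z3,z2,y10]),(z5,[y5,z0,y1,y1,z5])],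
    .ref k135 k7 [(z5,[z10,y3,y3,y9,z15]),(z1,[z1]),(z1,[y5,z0,z0,z3]),(z5,[z5,z6,z0,y3])],.ref k98 k10 [(z5,[z10,z0,
    z1,y4]),(z5,[y5,z1,z0,z2]),(z1,[z5,z0,z0,y2]),(z1,[y2,z0,z0,z1])]],
    .lp [(nat_lit 328),(nat_lit 334),(nat_lit 334),(nat_lit 292),(nat_lit 292),(nat_lit 338)] [k5,k5,k2,k2,k2,k2,k23,k23,
    k23,k23,k0,k0] k0 [[],[k0,k0,k0,k14],[k14],[k0,k0,k0,k0,k0,k0,k0,k0,k0,k0,k0,k6],[k0,k0,k0,k0,k0,k0,k0,k0,k0,k0,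
    k44],[k0,k0,k0,k0,k0,k0,k0,k44,k0,k6],[k0,k0,k0,k0,k44,k0,k0,k0,k0,k0,k42],[k0,k0,k0,k0,k0,k0,k0,k0,k0,k2],[k0,k0,
    k0,k0,k6,k0,k2],[k0,k0,k0,k0,k0,k0,k0,k0,k0,k0,k0,k50],[k0,k0,k6,k0,k0,k0,k0,k0,k50],[k0,k0,k0,k0,k0,k44,k0,
    k42]] (nat_lit 960) k5
    [[(k6,(nat_lit 268)),(k4,(nat_lit 287)),(k0,(nat_lit 328)),(k10,(nat_lit 333)),(k2,(nat_lit 337)),(k8,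
    (nat_lit 360))],[(k7,(nat_lit 310)),(k9,(nat_lit 310)),(k1,(nat_lit 328)),(k3,(nat_lit 331)),(k11,(nat_lit 333)),
    (k5,(nat_lit 345))],[(k6,(nat_lit 313)),(k8,(nat_lit 313)),(k2,(nat_lit 320)),(k0,(nat_lit 331)),(k4,
    (nat_lit 334)),(k10,(nat_lit 336))],[(k7,(nat_lit 313)),(k9,(nat_lit 313)),(k3,(nat_lit 320)),(k5,(nat_lit 334)),
    (k11,(nat_lit 336)),(k1,(nat_lit 337))],[(k6,(nat_lit 313)),(k8,(nat_lit 313)),(k10,(nat_lit 330)),(k2,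
    (nat_lit 334)),(k4,(nat_lit 334)),(k0,(nat_lit 345))],[(k1,(nat_lit 287)),(k7,(nat_lit 313)),(k3,(nat_lit 334)),
    (k5,(nat_lit 334)),(k11,(nat_lit 342)),(k9,(nat_lit 357))],[(k6,(nat_lit 248)),(k8,(nat_lit 286)),(k0,
    (nat_lit 310)),(k2,(nat_lit 313)),(k4,(nat_lit 313)),(k10,(nat_lit 359))],[(k7,(nat_lit 248)),(k1,(nat_lit 268)),
    (k9,(nat_lit 292)),(k3,(nat_lit 313)),(k5,(nat_lit 313)),(k11,(nat_lit 317))],[(k8,(nat_lit 290)),(k6,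
    (nat_lit 292)),(k0,(nat_lit 310)),(k2,(nat_lit 313)),(k4,(nat_lit 357)),(k10,(nat_lit 357))],[(k7,(nat_lit 286)),
    (k9,(nat_lit 290)),(k3,(nat_lit 313)),(k5,(nat_lit 313)),(k11,(nat_lit 315)),(k1,(nat_lit 360))],[(k10,
    (nat_lit 288)),(k8,(nat_lit 315)),(k6,(nat_lit 317)),(k0,(nat_lit 333)),(k2,(nat_lit 336)),(k4,(nat_lit 342))],
    [(k11,(nat_lit 288)),(k5,(nat_lit 330)),(k1,(nat_lit 333)),(k3,(nat_lit 336)),(k9,(nat_lit 357)),(k7,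
    (nat_lit 359))]]
    [] k0
    [[k2,k0,k0,k1,k0,k0],[k1,k1,k1,k0,k0,k0],[k1,k0,k1,k1,k0,k0],[k1,k0,k1,k0,k1,k0],[k1,k0,k1,k0,k0,k1],[k1,k1,k0,k1,
    k0,k0],[k1,k0,k0,k2,k0,k0],[k1,k0,k0,k1,k1,k0],[k1,k0,k0,k0,k1,k1],[k1,k0,k0,k0,k0,k2],[k0,k2,k0,k1,k0,k0],[k0,k2,
    k0,k0,k1,k0],[k0,k1,k0,k2,k0,k0],[k0,k1,k0,k1,k1,k0],[k0,k1,k0,k0,k2,k0],[k0,k0,k1,k2,k0,k0],[k0,k0,k1,k1,k1,k0],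
    [k0,k0,k0,k3,k0,k0],[k0,k0,k0,k2,k1,k0],[k0,k0,k0,k2,k0,k1],[k0,k0,k0,k1,k2,k0],[k0,k0,k0,k0,k3,k0],[k0,k0,k0,k0,
    k0,k3]]
    [.ref k12 k0 [(z1,[z4,y5,z0,z0,y4]),(z1,[y2,z4,z3,z0,z2]),(z1,[z4,y8,z0,z3,y4]),(z1,[y5,z10,z0,z0,z8]),(z1,[y2,z1,
    y3,y3,y1,z3])],.ref k12 k0 [(z1,[z2,z1,y2,y2]),(z1,[y1,z1,z4,z1]),(z1,[z2,y2,y2,z1]),(z2,[y5,z5,z5,z5,z6]),(z1,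
    [y1,y2,y2,y2,y3,z3])],.ref k12 k0 [(z1,[z4,y1,z0,y4,y4]),(z1,[y2,z2,z3,z2,z2]),(z1,[z4,y4,z0,y1,y4]),(z1,[y5,z5,
    z0,z5,z8]),(z1,[y2,y1,y3,y1,y1,z3])],.ref k12 k0 [(z1,[z2,z3,z2,z0,z2,y2]),(z1,[y1,z0,z2,z0,y1,z1]),(z1,[z2,z0,z2,
    z3,z2,y2]),(z2,[y5,z0,y5,z0,z1,z5]),(z1,[y1,y3,y4,y3,y4,z4])],.ref k12 k0 [(z3,[z4,z5,z0,y4]),(z3,[y2,z2,z9,z2]),
    (z3,[z4,y4,z0,z5]),(z3,[y5,z5,z0,z5,z9]),(z3,[y2,y7,y9,y7,y9,z9])],.ref k12 k0 [(z1,[y4,z7,z4,z0,z4]),(z1,[z2,y2,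
    z1,z0,y2]),(z1,[y4,z4,z4,z3,z4]),(z1,[z5,y5,y5,z0,y2]),(z1,[z2,y5,y5,y3,y5,z3])],.ref k12 k0 [(z1,[y2,z5,z0,z0,
    z4]),(z1,[z1,y1,z3,z0,y2]),(z1,[y2,z2,z0,z3,z4]),(z2,[z5,y5,z0,z0,y4]),(z1,[z1,y4,y3,y3,y5,z3])],.ref k12 k0 [(z1,
    [y4,z3,y4,y4,z0,z4]),(z1,[z2,z0,z5,z2,z0,y2]),(z1,[y4,z0,y4,y1,z0,z4]),(z1,[z5,z0,z5,z5,z3,y5]),(z1,[z2,y3,y1,y1,
    y3,z1])],.ref k12 k0 [(z1,[z4,z3,z4,z4,z4,y4]),(z1,[y2,z0,z1,y2,y2,z2]),(z1,[z4,z0,z4,z7,z4,y4]),(z1,[y5,z0,y5,y5,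
    y2,z5]),(z1,[y2,y3,y5,y5,y5,z5])],.ref k12 k0 [(z1,[z2,z1]),(z1,[y1,z1,z3]),(z1,[z2,y2,z0,z3]),(z2,[y5,z5,z0,z0,
    z6]),(z1,[y1,y2,y3,y3,y3,z3])],.ref k12 k0 [(z3,[y4,z9,z8,z0,z4]),(z3,[z2,z0,z5,z0,y2]),(z3,[y4,z0,z8,z9,z4]),(z3,
    [z5,z0,y10,z0,z4]),(z3,[z2,y9,y13,y9,y11,z9])],.ref k12 k0 [(z1,[y2,z1,z2,y2,y2,z2]),(z1,[z1,z1,z2,z1,z1,y1]),(z1,
    [y2,y2,z2,z1,y2,z2]),(z2,[z5,z5,y5,z5,z11,y5]),(z1,[z1,y2,y4,y2,y2,z2])],.ref k12 k0 [(z1,[y1,z3,z1,z0,z2]),(z2,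
    [z1,z0,z5,z0,y2]),(z1,[y1,z0,z1,z3,z2]),(z4,[z5,z0,y5,z0,z2]),(z2,[z1,y6,y7,y6,y8,z6])],.ref k12 k0 [(z3,[y4,z5,
    z0,y4,z0,z4]),(z3,[z2,z2,z9,z2,z0,y2]),(z3,[y4,y4,z0,z5,z0,z4]),(z3,[z5,z5,z0,z5,z9,y5]),(z3,[z2,y7,y9,y7,y9,
    z7])],.ref k12 k0 [(z1,[y2,y1,y2,y4,y4,z4]),(z1,[z1,z2,z4,z2,z2,y2]),(z1,[y2,y4,y2,y1,y4,z4]),(z2,[z5,z10,z5,z10,
    z16,y10]),(z1,[z1,y1,y2,y1,y1,z1])],.ref k12 k0 [(z1,[y2,z3,z0,z2,z4]),(z1,[z1,z0,z3,y1,y2]),(z1,[y2,z0,z0,z5,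
    z4]),(z2,[z5,z0,z0,y5,y4]),(z1,[z1,y3,y3,y4,y5,z3])],.ref k12 k0 [(z1,[y4,y1,y4,z0,z0,z4]),(z1,[z2,z2,z5,z0,z0,
    y2]),(z1,[y4,y4,y4,z3,z0,z4]),(z1,[z5,z5,z5,z0,z3,y5]),(z1,[z2,y1,y1,y3,y3,z1])],.ref k12 k0 [(z5,[y4,z15,z0,z0,
    z12]),(z5,[z2,z0,z15,z0,y6]),(z5,[y4,z0,z0,z15,z12]),(z1,[z1]),(z5,[z2,y15,y15,y15,y21,z15])],.ref k12 k0 [(z1,
    [y1,z2,y1,y1,z1,z1]),(z2,[z1,z1,z7,z1,y1,y1]),(z1,[y1,y1,y1,z2,z1,z1]),(z4,[z5,z5,z5,z5,z7,y5]),(z2,[z1,y5,y5,y5,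
    y7,z5])],.ref k12 k0 [(z3,[y4,z9,z0,z0,z8]),(z3,[z2,z0,z9,z0,y4]),(z3,[y4,z0,z0,z9,z8]),(z3,[z5,z0,z0,z0,y1]),(z3,
    [z2,y9,y9,y9,y13,z9])],.ref k12 k0 [(z3,[y4,z1,y8,y8,y4,z8]),(z3,[z2,z4,z13,z4,z2,y4]),(z3,[y4,y8,y8,z1,y4,z8]),
    (z3,[z5,z10,z10,z10,z14,y10]),(z3,[z2,y5,y5,y5,y7,z5])],.ref k12 k0 [(z1,[y2,y3,y6,y6,y6,z6]),(z1,[z1,z3,z6,z3,z3,
    y3]),(z1,[y2,y6,y6,y3,y6,z6]),(z2,[z5,z15,z15,z15,z21,y15]),(z1,[z1])],.ref k12 k0 [(z1,[z4,z3]),(z1,[y2,z0,z3]),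
    (z1,[z4,z0,z0,z3]),(z1,[y5,z0,z0,z0,z3]),(z1,[y2,y3,y3,y3,y3,z3])]],
    .lp [k160,k166,k168,k150,k162,k152] [k4,k4,k1,k1,k0,k0,k9,k9,k3,k3,k8,k8] k0 [[k0,k0,k0,k0,k0,k0,k10],[k0,k0,k0,k4,k0,
    k10],[k4,k0,k0,k0,k0,k0,k0,k0,k0,k0,k4],[k0,k0,k0,k0,k0,k6],[k10,k0,k6],[k0,k0,k0,k0,k0,k0,k0,k2],[k0,k0,k0,k0,k2,
    k0,k0,k0,k22],[k0,k10],[k0,k0,k0,k0,k0,k0,k0,k0,k0,k0,k16],[k0,k0,k0,k0,k0,k0,k0,k22],[],[k0,k0,k0,k4,k0,k0,k0,k0,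
    k0,k16]] (nat_lit 480) k5
    [[(k8,k145),(k6,k155),(k10,k156),(k2,k159),(k0,k160),(k4,k164)],[(k9,k151),(k11,k156),(k1,k160),(k3,k163),(k7,
    k165),(k5,k168)],[(k4,k157),(k10,k159),(k2,k162),(k0,k163),(k8,k164),(k6,k168)],[(k1,k159),(k11,k159),(k3,k162),
    (k7,k164),(k9,k164),(k5,k167)],[(k6,k159),(k4,k162),(k10,k164),(k8,k165),(k2,k167),(k0,k168)],[(k3,k157),(k7,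
    k159),(k11,k160),(k5,k162),(k1,k164),(k9,k167)],[(k6,k148),(k10,k151),(k8,k156),(k4,k159),(k2,k164),(k0,k165)],
    [(k11,k129),(k7,k148),(k1,k155),(k9,k156),(k5,k159),(k3,k168)],[(k0,k151),(k6,k156),(k10,k157),(k2,k164),(k4,
    k167),(k8,k184)],[(k1,k145),(k7,k156),(k11,k157),(k3,k164),(k5,k165),(k9,k184)],[(k6,k129),(k0,k156),(k8,k157),
    (k2,k159),(k4,k160),(k10,k168)],[(k7,k151),(k1,k156),(k9,k157),(k3,k159),(k5,k164),(k11,k168)]]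
    [] k0
    [[k2,k0,k0,k0,k1,k0],[k2,k0,k0,k0,k0,k1],[k1,k1,k0,k0,k1,k0],[k1,k1,k0,k0,k0,k1],[k1,k0,k0,k2,k0,k0],[k1,k0,k0,k1,
    k1,k0],[k1,k0,k0,k1,k0,k1],[k1,k0,k0,k0,k1,k1],[k0,k1,k0,k1,k0,k1],[k0,k0,k1,k2,k0,k0],[k0,k0,k1,k1,k0,k1],[k0,k0,
    k0,k3,k0,k0],[k0,k0,k0,k2,k1,k0],[k0,k0,k0,k2,k0,k1],[k0,k0,k0,k1,k1,k1],[k0,k0,k0,k1,k0,k2]]
    [.ref k12 k0 [(z1,[z2,z1,z1,z2,z1,y2]),(z8,[y2,z2,z11,y2,y1,z2]),(z4,[z2,y2,z1,z14,z1,y2]),(z8,[y14,z14,y7,y14,z5,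
    z14]),(z1,[y1,y2,y2,y4,y2,z4])],.ref k12 k0 [(z3,[z4,z1]),(z6,[y1,z2,z9]),(z3,[z1,y2,z0,z9]),(z6,[y7,z14,z0,z0,
    z9]),(z6,[y4,y10,y9,y18,y9,z18])],.ref k12 k0 [(z1,[z8,z3,z0,z8,z4,y8]),(z2,[y2,z0,z3,y2,y1,z2]),(z1,[z2,z0,z0,z5,
    z1,y2]),(z1,[y7,z0,z0,y7,y2,z7]),(z2,[y8,y6,y3,y14,y7,z14])],.ref k12 k0 [(z3,[z8,z1,y4]),(z3,[y1,z1,z5]),(z3,[z2,
    y2,y1,z9]),(z6,[y14,z14,z7,z0,z9]),(z6,[y8,y10,y5,y18,y9,z18])],.ref k12 k0 [(z1,[y4,z7,z0,z0,z4]),(z2,[z1,y1,z3,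
    z0,y1]),(z1,[y1,z1,z0,z3,z1]),(z2,[z7,y7,z0,z0,y4]),(z2,[z4,y10,y3,y6,y7,z6])],.ref k12 k0 [(z1,[y8,z3,y4,y8,z0,
    z8]),(z1,[z1,z0,z2,z1,z0,y1]),(z1,[y2,z0,y1,z1,z0,z2]),(z2,[z14,z0,z7,z14,z3,y14]),(z2,[z8,y6,z1,z2,y3,y2])],
    .ref k12 k0 [(z1,[z8,y5,z0,z0,y4]),(z2,[y2,z2,z3,z0,z1]),(z1,[z2,y2,z0,z3,y1]),(z1,[y7,z7,z0,z0,z5]),(z2,[y8,z2,
    y3,y6,z1,z6])],.ref k12 k0 [(z1,[z4,z3,z2,z4,z2,y4]),(z4,[y2,z0,z5,y2,y1,z2]),(z2,[z2,z0,z1,z8,z1,y2]),(z4,[y14,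
    z0,y7,y14,y1,z14]),(z2,[y4,y6,y5,y10,y5,z10])],.ref k12 k0 [(z1,[y4,z3,z2,z0,z2]),(z4,[z2,z0,z5,z0,y1]),(z2,[y2,
    z0,z1,z6,z1]),(z4,[z14,z0,y7,z0,y1]),(z2,[z4,y6,y5,y6,y5,z6])],.ref k12 k0 [(z1,[y2,z3,z0,z2,z2]),(z4,[z1,z0,z6,
    y1,y1]),(z2,[y1,z0,z0,z7,z1]),(z4,[z7,z0,z0,y7,y1]),(z2,[z2,y6,y3,y8,y5,z6])],.ref k12 k0 [(z1,[y8,z3,z0,z8,z4]),
    (z2,[z2,z0,z3,y2,y1]),(z1,[y2,z0,z0,z5,z1]),(z1,[z7,z0,z0,y7,y2]),(z2,[z8,y6,y3,y14,y7,z6])],.ref k12 k0 [(z7,[y8,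
    z21,z0,z0,z12]),(z14,[z2,z0,z21,z0,y3]),(z7,[y2,z0,z0,z21,z3]),(z1,[z1]),(z14,[z8,y42,y21,y42,y33,z42])],
    .ref k12 k0 [(z3,[y4,z5,y2,y4,z2,z4]),(z12,[z2,z2,z19,z2,y1,y2]),(z6,[y2,y2,y1,z16,z1,z2]),(z12,[z14,z14,z7,z14,
    z11,y14]),(z6,[z4,y14,y7,y14,y11,z14])],.ref k12 k0 [(z1,[y2,z3,z0,z0,z2]),(z4,[z1,z0,z6,z0,y1]),(z2,[y1,z0,z0,z6,
    z1]),(z4,[z7,z0,z0,z0,y1]),(z2,[z2,y6,y3,y6,y5,z6])],.ref k12 k0 [(z3,[y8,z1,y4,y8,z0,z8]),(z3,[z1,z1,z5,z1,z0,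
    y1]),(z3,[y2,y2,y1,z7,z0,z2]),(z6,[z14,z14,z7,z14,z9,y14]),(z6,[z8,y10,y5,y10,y9,z10])],.ref k12 k0 [(z1,[y8,z3,
    z0,z0,z4]),(z2,[z2,z0,z3,z0,y1]),(z1,[y2,z0,z0,z3,z1]),(z1,[z7,z0,z0,z0,y2]),(z2,[z8,y6,y3,y6,y7,z6])]],
    .lp [k160,k170,k170,k146,k164,k148] [k5,k5,k0,k0,k0,k0,k12,k12,k3,k3,k11,k11] k0 [[k0,k0,k0,k0,k0,k0,k12,k0,k2],[k0,
    k0,k0,k2,k0,k12],[k2,k0,k0,k0,k0,k0,k0,k0,k0,k0,k4],[k0,k0,k0,k0,k0,k6],[k12,k0,k6],[],[k0,k0,k0,k0,k0,k0,k0,k0,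
    k18],[k0,k12,k0,k0,k0,k0,k0,k0,k0,k0,k0,k2],[k0,k0,k0,k0,k0,k0,k0,k0,k0,k0,k14],[k0,k2,k0,k0,k0,k0,k0,k18],[k0,k0,
    k0,k0,k0,k0,k2],[k0,k0,k0,k4,k0,k0,k0,k0,k0,k14]] (nat_lit 480) k5
    [[(k8,k148),(k10,k154),(k6,k155),(k0,k160),(k2,k161),(k4,k165)],[(k9,k150),(k11,k152),(k1,k160),(k3,k165),(k7,
    k165),(k5,k167)],[(k4,k158),(k10,k159),(k0,k165),(k2,k168),(k8,k169),(k6,k170)],[(k11,k159),(k1,k161),(k7,k164),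
    (k9,k167),(k3,k168),(k5,k170)],[(k6,k158),(k10,k163),(k4,k164),(k0,k167),(k8,k167),(k2,k170)],[(k3,k158),(k7,
    k158),(k11,k159),(k5,k164),(k1,k165),(k9,k167)],[(k6,k146),(k10,k147),(k8,k155),(k4,k158),(k2,k164),(k0,k165)],
    [(k11,k129),(k7,k146),(k1,k155),(k9,k155),(k5,k158),(k3,k170)],[(k0,k150),(k10,k154),(k6,k155),(k2,k167),(k4,
    k167),(k8,k182)],[(k1,k148),(k7,k155),(k11,k156),(k5,k167),(k3,k169),(k9,k182)],[(k6,k129),(k0,k152),(k8,k156),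
    (k2,k159),(k4,k159),(k10,k162)],[(k7,k147),(k1,k154),(k9,k154),(k3,k159),(k11,k162),(k5,k163)]]
    [] k0
    [[k2,k0,k0,k0,k1,k0],[k2,k0,k0,k0,k0,k1],[k1,k1,k0,k0,k0,k1],[k1,k0,k0,k2,k0,k0],[k1,k0,k0,k1,k1,k0],[k1,k0,k0,k1,
    k0,k1],[k1,k0,k0,k0,k1,k1],[k1,k0,k0,k0,k0,k2],[k0,k1,k0,k1,k0,k1],[k0,k0,k1,k2,k0,k0],[k0,k0,k1,k1,k0,k1],[k0,k0,
    k0,k3,k0,k0],[k0,k0,k0,k2,k1,k0],[k0,k0,k0,k2,k0,k1],[k0,k0,k0,k1,k1,k1],[k0,k0,k0,k1,k0,k2],[k0,k0,k0,k0,k1,k2]]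
    [.ref k12 k0 [(z3,[z6,z1,z2,z2,z2,y6]),(z3,[y12,z4,y1,y4,y4,z12]),(z1,[z0,z0,z0,z1]),(z3,[z6,y2,z2,z2,z5,y6]),(z3,
    [y3,y2,y4,y4,y4,z12])],.ref k12 k0 [(z5,[z6,z1]),(z5,[y12,z8,z5]),(z1,[z0,z0,z0,z1]),(z5,[z6,y4,z0,z0,z5]),(z5,
    [y3,y3,y5,y5,y5,z15])],.ref k12 k0 [(z1,[y6,z3,z2]),(z1,[z12,y4,y3]),(z1,[z0,z0,z0,z1]),(z1,[y6,z2,z2,z0,z1]),(z1,
    [z3,y2,y2,y1,y1,z3])],.ref k12 k0 [(z3,[z3,z2,z0,z0,y2]),(z3,[y6,z2,z3,z0,z4]),(z1,[z0,z0,z0,z1]),(z3,[z3,y1,z0,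
    z0,z1]),(z6,[y3,y5,y6,y6,y4,z18])],.ref k12 k0 [(z3,[z6,z3,z2,z2,z0,y6]),(z3,[y12,z0,y1,y4,z0,z12]),(z1,[z0,z0,z0,
    z1]),(z3,[z6,z0,z2,z2,z3,y6]),(z3,[y3,y3,y4,y4,y3,z12])],.ref k12 k0 [(z5,[z6,z3,z0,z0,y2]),(z5,[y12,z4,z5,z0,
    z4]),(z1,[z0,z0,z0,z1]),(z5,[z6,y2,z0,z0,z3]),(z5,[y3,y4,y5,y5,y4,z15])],.ref k12 k0 [(z1,[z3,z1,z1,z1,z1,y3]),
    (z1,[y6,z0,y1,y2,y2,z6]),(z1,[z0,z0,z0,z1]),(z1,[z3,z0,z1,z1,z2,y3]),(z2,[y3,y2,y3,y3,y3,z9])],.ref k12 k0 [(z2,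
    [z3,z1]),(z1,[y3,z1,z1]),(z1,[z0,z0,z0,z1]),(z2,[z3,y1,z0,z0,z2]),(z4,[y3,y3,y4,y4,y4,z12])],.ref k12 k0 [(z1,[y6,
    z1,z2,z0,z2]),(z1,[z12,z0,y3,z0,y4]),(z1,[z0,z0,z0,z1]),(z1,[y6,z0,z2,z0,z3]),(z1,[z3,y1,y2,y1,y2,z3])],
    .ref k12 k0 [(z2,[z3,z2,z0,y1,y2]),(z1,[y3,z0,z1,z1,z2]),(z1,[z0,z0,z0,z1]),(z2,[z3,z0,z0,y1]),(z4,[y3,y4,y4,y3,
    y2,z12])],.ref k12 k0 [(z3,[z6,z3,z0,y2,y2]),(z3,[y12,z0,z3,z4,z4]),(z1,[z0,z0,z0,z1]),(z3,[z6,z0,z0,y2,z1]),(z3,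
    [y3,y3,y3,y2,y2,z9])],.ref k12 k0 [(z1,[z1,z1,z0,z0,y1]),(z1,[y2,z0,z1,z0,z2]),(z1,[z0,z0,z0,z1]),(z1,[z1]),(z2,
    [y1,y2,y2,y2,y1,z6])],.ref k12 k0 [(z3,[z6,z5,z2,z2,y2,y6]),(z3,[y12,y4,y1,y4,z4,z12]),(z1,[z0,z0,z0,z1]),(z3,[z6,
    z2,z2,z2,z1,y6]),(z3,[y3,y4,y4,y4,y2,z12])],.ref k12 k0 [(z5,[z6,z5,z0,z0,y4]),(z5,[y12,z0,z5,z0,z8]),(z1,[z0,z0,
    z0,z1]),(z5,[z6,z0,z0,z0,z1]),(z5,[y3,y5,y5,y5,y3,z15])],.ref k12 k0 [(z1,[z3,z2,z1,z1,z0,y3]),(z1,[y6,y2,y1,y2,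
    z0,z6]),(z1,[z0,z0,z0,z1]),(z1,[z3,z1,z1,z1,z1,y3]),(z2,[y3,y3,y3,y3,y2,z9])],.ref k12 k0 [(z2,[z3,z2,z0,z0,y1]),
    (z1,[y3,z0,z1,z0,z1]),(z1,[z0,z0,z0,z1]),(z2,[z3,z0,z0,z0,z1]),(z4,[y3,y4,y4,y4,y3,z12])],.ref k12 k0 [(z1,[z6,z3,
    z2,z2,z2,y6]),(z1,[y12,y4,y3,y4,y4,z12]),(z1,[z0,z0,z0,z1]),(z1,[z6,z2,z2,z2,z3,y6]),(z1,[y3,y2,y2,y2,y2,z6])]],
    .lp [k166,k164,k164,k152,k148,k164] [k0,k0,k1,k1,k1,k1,k7,k7,k9,k9,k1,k1] k0 [[k0,k0,k0,k0,k0,k0,k0,k0,k4,k0,k4],[],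
    [],[],[k0,k0,k0,k0,k0,k0,k0,k0,k0,k0,k2],[k0,k0,k0,k0,k0,k0,k0,k22,k0,k4],[k0,k0,k0,k0,k22],[k0,k0,k0,k0,k0,k0,k0,
    k0,k0,k2],[k0,k0,k0,k0,k4,k0,k2],[k0,k4,k0,k0,k0,k0,k0,k0,k0,k0,k0,k4],[k0,k0,k0,k0,k0,k0,k0,k0,k4],[k0,k4,k0,k0,
    k0,k2]] (nat_lit 480) k5
    [[(k6,k159),(k8,k161),(k0,k162),(k4,k163),(k2,k165),(k10,k165)],[(k9,k157),(k7,k159),(k11,k161),(k1,k162),(k3,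
    k165),(k5,k165)],[(k6,k158),(k8,k160),(k2,k164),(k4,k164),(k0,k165),(k10,k168)],[(k9,k156),(k7,k158),(k3,k164),
    (k5,k164),(k11,k164),(k1,k165)],[(k8,k156),(k6,k158),(k2,k164),(k4,k164),(k10,k164),(k0,k165)],[(k7,k158),(k1,
    k163),(k3,k164),(k5,k164),(k11,k168),(k9,k178)],[(k6,k130),(k8,k146),(k2,k158),(k4,k158),(k0,k159),(k10,k160)],
    [(k7,k130),(k9,k150),(k3,k158),(k5,k158),(k1,k159),(k11,k160)],[(k8,k146),(k6,k150),(k2,k156),(k10,k156),(k0,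
    k157),(k4,k178)],[(k7,k146),(k9,k146),(k5,k156),(k11,k156),(k3,k160),(k1,k161)],[(k8,k156),(k6,k160),(k10,k160),
    (k0,k161),(k2,k164),(k4,k168)],[(k9,k156),(k7,k160),(k11,k160),(k5,k164),(k1,k165),(k3,k168)]]
    [] k0
    [[k1,k0,k1,k0,k1,k0],[k1,k0,k0,k2,k0,k0],[k1,k0,k0,k1,k1,k0],[k1,k0,k0,k0,k2,k0],[k1,k0,k0,k0,k1,k1],[k0,k1,k1,k0,
    k1,k0],[k0,k1,k0,k2,k0,k0],[k0,k1,k0,k1,k1,k0],[k0,k1,k0,k0,k2,k0],[k0,k0,k1,k2,k0,k0],[k0,k0,k1,k1,k1,k0],[k0,k0,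
    k0,k3,k0,k0],[k0,k0,k0,k2,k1,k0],[k0,k0,k0,k2,k0,k1],[k0,k0,k0,k1,k2,k0],[k0,k0,k0,k1,k1,k1],[k0,k0,k0,k0,k3,k0],
    [k0,k0,k0,k0,k2,k1],[k0,k0,k0,k0,k1,k2]]
    [.ref k108 k2 [(z2,[y8,z3,y1,z6,z2]),(z1,[z2,y1,z0,y1]),(z2,[z2,y1,z1,y2]),(z1,[y1,z1,z0,z1])],.ref k122 k4 [(z3,
    [y2,y1,y2,y4,z4]),(z3,[z1,z5,z1,z2,y2]),(z6,[y2,y1,z7,y4,z4]),(z3,[y2,y1,y2,z5,z4])],.ref k137 k3 [(z1,[y1,y2,z0,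
    y1,z1]),(z1,[z0,z1,z0,z1]),(z2,[z0,y5,y1,y2,z2]),(z2,[z2,z5,z1,z2,y2])],.ref k58 k4 [(z1,[y2,z1]),(z1,[z1]),(z2,
    [y2,z1,z1]),(z1,[y2,z1,z0,z1])],.ref k108 k2 [(z2,[y8,z3,y1,y2,z2]),(z1,[z2,y1,z0,z1]),(z2,[z2,y1,z1]),(z1,[y1,
    z1])],.ref k122 k4 [(z1,[z2,z0,y1,y2]),(z2,[y2,z3,z1,z2]),(z1,[z1,z0,z1,y1]),(z1,[z2,z0,y1,z1])],
    .ref k138 k10 [(z1,[z1,z1,z1,y2,y2]),(z1,[z0,z1,z0,z1]),(z1,[z0,z0,z0,y1]),(z1,[y2,y2,y1,z3,z4])],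
    .ref k122 k4 [(z1,[y2,y1,z0,y2,z2]),(z1,[z1,z2,z0,z1,y1]),(z2,[y2,y1,z3,y2,z2]),(z1,[y2,y1,z0,z1,z2])],
    .ref k108 k2 [(z2,[y8,y1,z3,y2,z2]),(z1,[z2,z0,y1,z1]),(z1,[z1]),(z2,[y2,z1,z1])],.ref k122 k4 [(z1,[y1,y1,y1,y1,
    z2]),(z2,[z1,z4,z1,z1,y2]),(z2,[y1,y1,z2,y1,z2]),(z1,[y1,y1,y1,z2,z2])],.ref k23 k4 [(z2,[y2,y1,y1,z0,z2]),(z2,
    [z2,z3,z1,z0,y2]),(z2,[y2,y1,z1,z0,z2]),(z2,[y2,y1,y1,z2,z2])],.ref k122 k4 [(z4,[y2,y3,y3,y6,z6]),(z8,[z2,z15,z3,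
    z6,y6]),(z8,[y2,y3,z9,y6,z6]),(z4,[y2,y3,y3,z6,z6])],.ref k39 k3 [(z2,[y2,y9,y1,y4,z4]),(z1,[z0,z1,z0,z1]),(z2,
    [z0,y5,y1,y2,z2]),(z1,[z1,z5,z1,z2,y2])],.ref k122 k4 [(z1,[y1,y1,y1,y2,z2]),(z2,[z1,z4,z1,z2,y2]),(z2,[y1,y1,z2,
    y2,z2]),(z1,[y1,y1,y1,z1,z2])],.ref k23 k4 [(z4,[y2,y1,y1,y2,z2]),(z4,[z2,z5,z1,z2,y2]),(z4,[y2,y1,z3,y2,z2]),(z4,
    [y2,y1,y1,z2,z2])],.ref k23 k4 [(z2,[y2,y1,y1,y2,z2]),(z2,[z2,z3,z1,z2,y2]),(z2,[y2,y1,z1,y2,z2]),(z2,[y2,y1,y1,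
    z0,z2])],.ref k139 k6 [(z1,[z2,z0,y3,z3]),(z2,[y8,y3,z9,y6,z6]),(z1,[z1]),(z1,[z2,z0,y3])],.ref k108 k2 [(z2,[y4,
    y1,y1,y2,z2]),(z1,[z1,z0,z0,z1]),(z2,[z1,z0,z1]),(z2,[y1,z1])],.ref k20 k10 [(z1,[y2,z0,z1,y5]),(z1,[z0,z1,z0,
    z1]),(z1,[z0,z0,z0,y1]),(z1,[z1,z0,z0,z2])]],
    .leafM k0 [k2,k3,k4,k5,k0,k1] [(z1,[y1,y1,y1,z0,z1])] [],
    .lp [k168,k170,k154,k164,k140,k162] [k1,k1,k0,k0,k8,k8,k3,k3,k15,k15,k4,k4] k0 [[k0,k0,k0,k0,k0,k0,k0,k0,k4,k0,k8],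
    [k0,k0,k0,k0,k0,k0,k0,k8],[k0,k0,k0,k0,k8,k0,k0,k0,k0,k0,k10],[k0,k0,k0,k0,k0,k0,k0,k0,k0,k4],[k0,k0,k0,k0,k0,k0,
    k12],[k0,k0,k0,k8],[k8],[k0,k0,k0,k0,k0,k12],[k0,k0,k4],[k0,k4,k0,k0,k0,k0,k0,k0,k0,k0,k0,k8],[k0,k0,k0,k0,k0,k0,
    k0,k0,k8],[k0,k8,k0,k10]] (nat_lit 480) k5
    [[(k2,k159),(k0,k160),(k4,k161),(k8,k162),(k10,k165),(k6,k166)],[(k1,k160),(k5,k161),(k11,k161),(k9,k162),(k7,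
    k166),(k3,k169)],[(k6,k159),(k8,k159),(k4,k162),(k0,k169),(k2,k170),(k10,k174)],[(k9,k155),(k1,k159),(k7,k159),
    (k5,k162),(k3,k170),(k11,k170)],[(k8,k143),(k6,k159),(k0,k161),(k2,k162),(k4,k162),(k10,k168)],[(k9,k135),(k11,
    k158),(k7,k159),(k1,k161),(k3,k162),(k5,k162)],[(k8,k152),(k2,k159),(k4,k159),(k10,k163),(k0,k166),(k6,k176)],
    [(k9,k152),(k3,k159),(k5,k159),(k11,k163),(k1,k166),(k7,k176)],[(k4,k135),(k8,k140),(k10,k151),(k6,k152),(k2,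
    k155),(k0,k162)],[(k9,k140),(k5,k143),(k11,k151),(k7,k152),(k3,k159),(k1,k162)],[(k8,k151),(k10,k154),(k4,k158),
    (k0,k161),(k6,k163),(k2,k170)],[(k9,k151),(k11,k154),(k7,k163),(k1,k165),(k5,k168),(k3,k174)]]
    [] k0
    [[k1,k0,k1,k0,k1,k0],[k1,k0,k0,k0,k2,k0],[k1,k0,k0,k0,k1,k1],[k0,k1,k1,k0,k1,k0],[k0,k1,k0,k1,k1,k0],[k0,k1,k0,k0,
    k2,k0],[k0,k0,k2,k0,k1,k0],[k0,k0,k1,k1,k1,k0],[k0,k0,k1,k0,k2,k0],[k0,k0,k1,k0,k1,k1],[k0,k0,k0,k1,k2,k0],[k0,k0,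
    k0,k1,k1,k1],[k0,k0,k0,k0,k3,k0],[k0,k0,k0,k0,k2,k1],[k0,k0,k0,k0,k1,k2],[k0,k0,k0,k0,k0,k3]]
    [.ref k12 k0 [(z1,[y1,z3,y1,z0,y1,z1]),(z2,[z1,z0,z7,z0,z1,y1]),(z1,[z2,z0,z2,z3,z2,y2]),(z4,[y13,z0,y13,z0,y1,
    z13]),(z1,[z2,y3,y1,y3,y1,z1])],.ref k12 k0 [(z1,[y1,z2,y2,y2,y2,z2]),(z2,[z1,z1,z8,z2,z2,y2]),(z1,[z2,z2,z4,z7,
    z4,y4]),(z4,[y13,y13,y26,y26,y14,z26]),(z1,[z2,y1,z1,z1,z1,y1])],.ref k12 k0 [(z1,[y4,z3,y4,y4,y4,z4]),(z1,[z2,z0,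
    z5,z2,z2,y2]),(z1,[z8,z0,z8,z11,z8,y8]),(z1,[y13,z0,y13,y13,y10,z13]),(z1,[z8,y3,z5,z5,z5,y5])],.ref k12 k0 [(z3,
    [y2,z7,z0,z0,y2,z2]),(z3,[z1,z1,z9,z0,z1,y1]),(z3,[z4,z4,z0,z9,z4,y4]),(z6,[y13,y13,z0,z0,z5,z13]),(z3,[z4,y5,y9,
    y9,y5,z5])],.ref k12 k0 [(z1,[z4,z7,z0,z4,z0,y4]),(z1,[y2,y2,z3,y2,z0,z2]),(z1,[y8,y8,z0,y5,z0,z8]),(z1,[z13,z13,
    z0,z13,z3,y13]),(z1,[y8,y11,y3,y11,y3,z11])],.ref k12 k0 [(z3,[y2,z5,y2,y4,y4,z4]),(z3,[z1,z2,z10,z2,z2,y2]),(z3,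
    [z4,z8,z4,z17,z8,y8]),(z6,[y13,y26,y13,y26,y8,z26]),(z3,[z4,y1,y5,y1,y1,z1])],.ref k12 k0 [(z2,[y1,z5,y1,z1,y1,
    z1]),(z4,[z1,z1,z13,y1,z1,y1]),(z1,[z1,z1,z1,z2,z1,y1]),(z8,[y13,y13,y13,z13,z11,z13]),(z1,[z1,y2,y2,y4,y2,z2])],
    .ref k12 k0 [(z1,[y4,y1,y4,z0,z0,z4]),(z1,[z2,z2,z5,z0,z0,y2]),(z1,[z8,z8,z8,z3,z0,y8]),(z1,[y13,y13,y13,z0,z3,
    z13]),(z1,[z8,z5,z5,y3,y3,y5])],.ref k12 k0 [(z2,[y1,z4,y2,y1,y2,z2]),(z4,[z1,z2,z14,z1,z2,y2]),(z1,[z1,z2,z2,z4,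
    z2,y2]),(z8,[y13,y26,y26,y13,y2,z26]),(z1,[z1,y1,y1,y2,y1,z1])],.ref k12 k0 [(z5,[y4,z11,y4,z0,y4,z4]),(z5,[z2,z2,
    z17,z0,z2,y2]),(z5,[z8,z8,z8,z15,z8,y8]),(z5,[y13,y13,y13,z0,z2,z13]),(z5,[z8,y7,y7,y15,y7,z7])],.ref k12 k0 [(z1,
    [y4,y5,y8,y8,y4,z8]),(z1,[z2,z4,z7,z4,z2,y4]),(z1,[z8,z16,z16,z19,z8,y16]),(z1,[y13,y26,y26,y26,y10,z26]),(z1,[z8,
    z13,z13,z13,z5,y13])],.ref k12 k0 [(z1,[z2,z5,z2,z2,z0,y2]),(z1,[y1,y1,z2,y1,z0,z1]),(z1,[y4,y4,y4,y1,z0,z4]),(z2,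
    [z13,z13,z13,z13,z6,y13]),(z1,[y4,y7,y7,y7,y3,z7])],.ref k12 k0 [(z2,[y1,z3,y3,y3,y3,z3]),(z4,[z1,z3,z15,z3,z3,
    y3]),(z1,[z1,z3,z3,z6,z3,y3]),(z8,[y13,y39,y39,y39,y15,z39]),(z1,[z1])],.ref k12 k0 [(z5,[y4,z7,y8,y8,y8,z8]),(z5,
    [z2,z4,z19,z4,z4,y4]),(z5,[z8,z16,z16,z31,z16,y16]),(z5,[y13,y26,y26,y26,y11,z26]),(z5,[z8,z1,z1,z1,z1,y1])],
    .ref k12 k0 [(z1,[y2,z1,y2,y2,y2,z2]),(z1,[z1,z1,z4,z1,z1,y1]),(z1,[z4,z4,z4,z7,z4,y4]),(z2,[y13,y13,y13,y13,y7,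
    z13]),(z1,[z4,z1,z1,z1,z1,y1])],.ref k12 k0 [(z1,[z4,z3]),(z1,[y2,z0,z3]),(z1,[y8,z0,z0,z3]),(z1,[z13,z0,z0,z0,
    z3]),(z1,[y8,y3,y3,y3,y3,z3])]],
    .lp [k160,k166,k168,k150,k162,k152] [k4,k4,k1,k1,k0,k0,k9,k9,k3,k3,k8,k8] k0 [[k0,k0,k0,k0,k0,k0,k10],[k0,k0,k0,k4,k0,
    k10],[k4,k0,k0,k0,k0,k0,k0,k0,k0,k0,k4],[k0,k0,k0,k0,k0,k6],[k10,k0,k6],[k0,k0,k0,k0,k0,k0,k0,k2],[k0,k0,k0,k0,k2,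
    k0,k0,k0,k22],[k0,k10],[k0,k0,k0,k0,k0,k0,k0,k0,k0,k0,k16],[k0,k0,k0,k0,k0,k0,k0,k22],[],[k0,k0,k0,k4,k0,k0,k0,k0,
    k0,k16]] (nat_lit 480) k5
    [[(k8,k145),(k6,k155),(k10,k156),(k2,k159),(k0,k160),(k4,k164)],[(k9,k151),(k11,k156),(k1,k160),(k3,k163),(k7,
    k165),(k5,k168)],[(k4,k157),(k10,k159),(k2,k162),(k0,k163),(k8,k164),(k6,k168)],[(k1,k159),(k11,k159),(k3,k162),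
    (k7,k164),(k9,k164),(k5,k167)],[(k6,k159),(k4,k162),(k10,k164),(k8,k165),(k2,k167),(k0,k168)],[(k3,k157),(k7,
    k159),(k11,k160),(k5,k162),(k1,k164),(k9,k167)],[(k6,k148),(k10,k151),(k8,k156),(k4,k159),(k2,k164),(k0,k165)],
    [(k11,k129),(k7,k148),(k1,k155),(k9,k156),(k5,k159),(k3,k168)],[(k0,k151),(k6,k156),(k10,k157),(k2,k164),(k4,
    k167),(k8,k184)],[(k1,k145),(k7,k156),(k11,k157),(k3,k164),(k5,k165),(k9,k184)],[(k6,k129),(k0,k156),(k8,k157),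
    (k2,k159),(k4,k160),(k10,k168)],[(k7,k151),(k1,k156),(k9,k157),(k3,k159),(k5,k164),(k11,k168)]]
    [] k0
    [[k2,k0,k0,k0,k1,k0],[k2,k0,k0,k0,k0,k1],[k1,k1,k0,k0,k1,k0],[k1,k1,k0,k0,k0,k1],[k1,k0,k0,k2,k0,k0],[k1,k0,k0,k1,
    k1,k0],[k1,k0,k0,k1,k0,k1],[k1,k0,k0,k0,k1,k1],[k0,k1,k0,k1,k0,k1],[k0,k0,k1,k2,k0,k0],[k0,k0,k1,k1,k0,k1],[k0,k0,
    k0,k3,k0,k0],[k0,k0,k0,k2,k1,k0],[k0,k0,k0,k2,k0,k1],[k0,k0,k0,k1,k1,k1],[k0,k0,k0,k1,k0,k2]]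
    [.ref k12 k0 [(z1,[z2,z1,z2,z2,z2,y2]),(z2,[y11,z11,y5,y11,y11,z11]),(z1,[z2,y2,z2,z5,z2,y2]),(z1,[z2,y2,z2,z2,z5,
    y2]),(z1,[y1,y2,y4,y4,y4,z4])],.ref k12 k0 [(z3,[z4,z1]),(z3,[y11,z22,z9]),(z3,[z4,y8,z0,z9]),(z3,[z4,y8,z0,z0,
    z9]),(z3,[y2,y5,y9,y9,y9,z9])],.ref k12 k0 [(z3,[y4,z9,z0,y4,y4,z4]),(z3,[z11,z0,z9,z11,z11,y11]),(z3,[y4,z0,z0,
    z5,y4,z4]),(z3,[y4,z0,z0,y4,z5,z4]),(z3,[z2,y9,y9,y7,y7,z7])],.ref k12 k0 [(z1,[y2,z5,z2]),(z2,[z11,y11,y5]),(z1,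
    [y2,z2,z2,z3]),(z1,[y2,z2,z2,z0,z3]),(z1,[z1,y4,y4,y3,y3,z3])],.ref k12 k0 [(z1,[z1,z2,z0,z0,y2]),(z4,[y11,z11,
    z12,z0,z22]),(z1,[z1,y1,z0,z3,y2]),(z1,[z1,y1,z0,z0,z1]),(z2,[y1,y5,y6,y6,y4,z6])],.ref k12 k0 [(z1,[z2,z3,z2,z2,
    z0,y2]),(z2,[y11,z0,y5,y11,z0,z11]),(z1,[z2,z0,z2,z5,z0,y2]),(z1,[z2,z0,z2,z2,z3,y2]),(z1,[y1,y3,y4,y4,y3,z4])],
    .ref k12 k0 [(z3,[z4,z5,z0,z0,y4]),(z3,[y11,z11,z9,z0,z11]),(z3,[z4,y4,z0,z9,y4]),(z3,[z4,y4,z0,z0,z5]),(z3,[y2,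
    y7,y9,y9,y7,z9])],.ref k12 k0 [(z1,[z4,z3,z4,z4,z4,y4]),(z1,[y11,z0,y8,y11,y11,z11]),(z1,[z4,z0,z4,z7,z4,y4]),(z1,
    [z4,z0,z4,z4,z7,y4]),(z1,[y2,y3,y5,y5,y5,z5])],.ref k12 k0 [(z1,[y2,z3,z2,z0,z2]),(z2,[z11,z0,y5,z0,y11]),(z1,[y2,
    z0,z2,z3,z2]),(z1,[y2,z0,z2,z0,z5]),(z1,[z1,y3,y4,y3,y4,z3])],.ref k12 k0 [(z1,[z1,z3,z0,y1,y2]),(z4,[y11,z0,z12,
    z11,z22]),(z1,[z1,z0,z0,z2,y2]),(z1,[z1,z0,z0,y1,z1]),(z2,[y1,y6,y6,y5,y4,z6])],.ref k12 k0 [(z3,[z4,z9,z0,y4,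
    y4]),(z3,[y11,z0,z9,z11,z11]),(z3,[z4,z0,z0,z5,y4]),(z3,[z4,z0,z0,y4,z5]),(z3,[y2,y9,y9,y7,y7,z9])],
    .ref k12 k0 [(z1,[z1,z3,z0,z0,y3]),(z4,[y11,z0,z12,z0,z33]),(z1,[z1,z0,z0,z3,y3]),(z1,[z1]),(z2,[y1,y6,y6,y6,y3,
    z6])],.ref k12 k0 [(z1,[z2,z5,z2,z2,y2,y2]),(z2,[y11,y11,y5,y11,z11,z11]),(z1,[z2,z2,z2,z5,y2,y2]),(z1,[z2,z2,z2,
    z2,z1,y2]),(z1,[y1,y4,y4,y4,y2,z4])],.ref k12 k0 [(z3,[z4,z9,z0,z0,y8]),(z3,[y11,z0,z9,z0,z22]),(z3,[z4,z0,z0,z9,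
    y8]),(z3,[z4,z0,z0,z0,z1]),(z3,[y2,y9,y9,y9,y5,z9])],.ref k12 k0 [(z1,[z4,z7,z4,z4,z0,y4]),(z1,[y11,y11,y8,y11,z0,
    z11]),(z1,[z4,z4,z4,z7,z0,y4]),(z1,[z4,z4,z4,z4,z3,y4]),(z1,[y2,y5,y5,y5,y3,z5])],.ref k12 k0 [(z1,[z2,z3,z0,z0,
    y2]),(z2,[y11,z0,z6,z0,z11]),(z1,[z2,z0,z0,z3,y2]),(z1,[z2,z0,z0,z0,z1]),(z1,[y1,y3,y3,y3,y2,z3])]],
    .lp [k164,k164,k164,k152,k140,k174] [k5,k5,k5,k5,k5,k5,k11,k11,k25,k9,k0,k0] k0 [[k0,k0,k0,k0,k0,k0,k0,k0,k0,k0,k2],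
    [k0,k0,k0,k20,k0,k0,k0,k0,k0,k10],[k20],[k0,k0,k0,k0,k0,k0,k0,k0,k0,k0,k0,k22],[k0,k0,k0,k0,k0,k0,k40],[k0,k0,k0,
    k0,k0,k0,k0,k0,k0,k4],[k0,k0,k0,k0,k0,k0,k0,k0,k6,k0,k20],[k0,k0,k0,k0,k0,k40],[k10,k0,k0,k0,k4],[k0,k0,k0,k0,k0,
    k0,k0,k6,k0,k0,k0,k14],[k0,k0,k22,k0,k0,k0,k0,k0,k14],[k0,k2,k0,k0,k0,k0,k0,k20]] (nat_lit 480) k5
    [[(k6,k138),(k8,k158),(k0,k162),(k4,k164),(k10,k169),(k2,k186)],[(k7,k158),(k9,k160),(k1,k162),(k3,k164),(k11,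
    k179),(k5,k184)],[(k8,k134),(k2,k144),(k6,k158),(k0,k164),(k4,k164),(k10,k171)],[(k3,k144),(k7,k158),(k9,k160),
    (k5,k164),(k11,k169),(k1,k186)],[(k8,k144),(k10,k147),(k6,k158),(k2,k164),(k4,k164),(k0,k184)],[(k9,k120),(k7,
    k158),(k1,k164),(k3,k164),(k5,k164),(k11,k173)],[(k8,k134),(k0,k158),(k2,k158),(k4,k158),(k10,k163),(k6,k192)],
    [(k1,k138),(k9,k154),(k11,k157),(k3,k158),(k5,k158),(k7,k192)],[(k4,k120),(k8,k146),(k6,k154),(k0,k160),(k2,k160),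
    (k10,k185)],[(k3,k134),(k7,k134),(k5,k144),(k9,k146),(k11,k149),(k1,k158)],[(k8,k149),(k6,k157),(k10,k160),(k2,
    k169),(k4,k173),(k0,k179)],[(k5,k147),(k11,k160),(k7,k163),(k1,k169),(k3,k171),(k9,k185)]]
    [] k0
    [[k2,k0,k0,k1,k0,k0],[k1,k0,k1,k0,k1,k0],[k1,k1,k0,k1,k0,k0],[k1,k0,k0,k1,k1,k0],[k1,k0,k0,k0,k2,k0],[k1,k0,k0,k0,
    k1,k1],[k0,k3,k0,k0,k0,k0],[k0,k2,k1,k0,k0,k0],[k0,k2,k0,k1,k0,k0],[k0,k2,k0,k0,k1,k0],[k0,k1,k1,k0,k1,k0],[k0,k1,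
    k0,k1,k1,k0],[k0,k1,k0,k0,k2,k0],[k0,k0,k2,k0,k1,k0],[k0,k0,k1,k1,k1,k0],[k0,k0,k1,k0,k2,k0],[k0,k0,k1,k1,k0,k1],
    [k0,k0,k1,k0,k1,k1],[k0,k0,k0,k1,k2,k0],[k0,k0,k0,k1,k1,k1],[k0,k0,k0,k0,k3,k0]]
    [.ref k12 k0 [(z6,[z11,y2,z0,z0,y11]),(z3,[y2,z2,z9,z0,z2]),(z3,[y2,z2,z0,z9,z2]),(z3,[y2,z2,z0,z0,z11]),(z6,[y1,
    y8,y18,y18,y17,z18])],.ref k12 k0 [(z2,[z11,z3,z11,z0,z11,y11]),(z1,[y2,z0,z1,z0,y2,z2]),(z1,[y2,z0,y2,z3,y2,z2]),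
    (z1,[y2,z0,y2,z0,z1,z2]),(z2,[y1,y3,y7,y6,y7,z7])],.ref k12 k0 [(z1,[z11,y4,y11,z0,y11]),(z1,[y4,z2,z7,z0,z4]),
    (z1,[y4,z2,z4,z3,z4]),(z1,[y4,z2,z4,z0,z7]),(z1,[y1,y1,y2,y3,y2,z3])],.ref k12 k0 [(z2,[z11,z3,z11,z11,z0,y11]),
    (z1,[y2,z0,z1,y2,z0,z2]),(z1,[y2,z0,y2,z1,z0,z2]),(z1,[y2,z0,y2,y2,z3,z2]),(z2,[y1,y3,y7,y7,y6,z7])],
    .ref k12 k0 [(z3,[z11,z10,z22,z22,z22,y22]),(z3,[y4,y2,z1,y8,y8,z8]),(z3,[y4,y2,y8,z1,y8,z8]),(z3,[y4,y2,y8,y8,z1,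
    z8]),(z3,[y1,y5,y11,y11,y11,z11])],.ref k12 k0 [(z4,[z11,z6,z11,z11,z11,y11]),(z1,[y1,z0,z2,y1,y1,z1]),(z1,[y1,z0,
    y1,z2,y1,z1]),(z1,[y1,z0,y1,y1,z2,z1]),(z4,[y1,y6,y13,y13,y13,z13])],.ref k12 k0 [(z4,[y11,z6,z33]),(z1,[z1]),(z1,
    [z1,z0,y3,z3]),(z1,[z1,z0,y3,z0,z3]),(z4,[z1,y6,y15,y12,y12,z12])],.ref k12 k0 [(z4,[y11,z6,z22,z11]),(z1,[z1,z0,
    z1,y1]),(z1,[z1,z0,y2,z2]),(z1,[z1,z0,y2,y1,z3]),(z4,[z1,y6,y14,y13,y12,z12])],.ref k12 k0 [(z4,[y11,z6,z22,z0,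
    z11]),(z1,[z1,z0,z1,z0,y1]),(z1,[z1,z0,y2,z3,y1]),(z1,[z1,z0,y2,z0,z2]),(z4,[z1,y6,y14,y12,y13,z12])],
    .ref k12 k0 [(z3,[y11,y1,z11,y11,y11,z11]),(z3,[z4,z2,z5,z4,z4,y4]),(z3,[z4,z2,y4,z13,z4,y4]),(z3,[z4,z2,y4,z4,
    z13,y4]),(z3,[z1,y4,y10,y8,y8,z8])],.ref k12 k0 [(z3,[y11,y1,z0,z0,y11,z11]),(z3,[z4,z2,z9,z0,z4,y4]),(z3,[z4,z2,
    z0,z9,z4,y4]),(z3,[z4,z2,z0,z0,z13,y4]),(z3,[z1,y4,y9,y9,y8,z8])],.ref k12 k0 [(z3,[y11,y1,z0,y11,z0,z11]),(z3,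
    [z4,z2,z9,z4,z0,y4]),(z3,[z4,z2,z0,z13,z0,y4]),(z3,[z4,z2,z0,z4,z9,y4]),(z3,[z1,y4,y9,y8,y9,z8])],
    .ref k12 k0 [(z2,[y11,y8,y11,y22,y22,z22]),(z1,[z2,z2,z5,z4,z4,y4]),(z1,[z2,z2,z2,z7,z4,y4]),(z1,[z2,z2,z2,z4,z7,
    y4]),(z2,[z1,y2,y5,y4,y4,z4])],.ref k12 k0 [(z3,[y11,y1,y11,z11,y11,z11]),(z3,[z4,z2,z13,y4,z4,y4]),(z3,[z4,z2,z4,
    z5,z4,y4]),(z3,[z4,z2,z4,y4,z13,y4]),(z3,[z1,y4,y8,y10,y8,z8])],.ref k12 k0 [(z3,[y11,y1,y11,z0,z0,z11]),(z3,[z4,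
    z2,z13,z0,z0,y4]),(z3,[z4,z2,z4,z9,z0,y4]),(z3,[z4,z2,z4,z0,z9,y4]),(z3,[z1,y4,y8,y9,y9,z8])],.ref k12 k0 [(z2,
    [y11,y8,y22,y11,y22,z22]),(z1,[z2,z2,z7,z2,z4,y4]),(z1,[z2,z2,z4,z5,z4,y4]),(z1,[z2,z2,z4,z2,z7,y4]),(z2,[z1,y2,
    y4,y5,y4,z4])],.ref k12 k0 [(z2,[y11,z3,z0,z11,z11]),(z1,[z2,z0,z3,y2,y2]),(z1,[z2,z0,z0,z1,y2]),(z1,[z2,z0,z0,y2,
    z1]),(z2,[z1,y3,y6,y7,y7,z6])],.ref k12 k0 [(z1,[y11,y4,y11,z0,y11,z11]),(z1,[z4,z2,z7,z0,z4,y4]),(z1,[z4,z2,z4,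
    z3,z4,y4]),(z1,[z4,z2,z4,z0,z7,y4]),(z1,[z1,y1,y2,y3,y2,z2])],.ref k12 k0 [(z2,[y11,y8,y22,y22,y11,z22]),(z1,[z2,
    z2,z7,z4,z2,y4]),(z1,[z2,z2,z4,z7,z2,y4]),(z1,[z2,z2,z4,z4,z5,y4]),(z2,[z1,y2,y4,y4,y5,z4])],.ref k12 k0 [(z1,
    [y11,y4,y11,y11,z0,z11]),(z1,[z4,z2,z7,z4,z0,y4]),(z1,[z4,z2,z4,z7,z0,y4]),(z1,[z4,z2,z4,z4,z3,y4]),(z1,[z1,y1,y2,
    y2,y3,z2])],.ref k12 k0 [(z1,[y11,y15,y33,y33,y33,z33]),(z1,[z4,z6,z15,z12,z12,y12]),(z1,[z4,z6,z12,z15,z12,y12]),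
    (z1,[z4,z6,z12,z12,z15,y12]),(z1,[z1])]],
    .lp [(nat_lit 2081444376),(nat_lit 2119742240),(nat_lit 2094136110),(nat_lit 1903760100),(nat_lit 2043408960),
    (nat_lit 1929143568)] [(nat_lit 19148932),(nat_lit 19148932),k0,k0,(nat_lit 12803065),(nat_lit 12803065),
    (nat_lit 107991070),(nat_lit 107991070),(nat_lit 38166640),(nat_lit 38166640),(nat_lit 95299336),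
    (nat_lit 95299336)] k0 [[k0,k0,k0,k0,k0,k0,(nat_lit 139645440)],[k0,k0,k0,(nat_lit 190376010),k0,
    (nat_lit 25383468)],[(nat_lit 190376010)],[],[(nat_lit 25383468),k0,k0,k0,k0,k0,(nat_lit 126917340)],[k0,k0,k0,k0,
    k0,k0,k0,k0,k0,k0,k0,(nat_lit 16922312)],[k0,k0,k0,k0,k0,k0,k0,k0,(nat_lit 253834680)],[k0,(nat_lit 139645440),k0,
    k0,k0,(nat_lit 126917340)],[k0,k0,k0,k0,k0,k0,k0,k0,k0,k0,(nat_lit 190376010)],[k0,k0,k0,k0,k0,k0,k0,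
    (nat_lit 253834680)],[k0,k0,k0,k0,(nat_lit 16922312)],[k0,k0,k0,k0,k0,k0,k0,k0,k0,
    (nat_lit 190376010)]] (nat_lit 6092032320) k5
    [[(k8,(nat_lit 1872050658)),(k6,(nat_lit 1992602238)),(k10,(nat_lit 2005293972)),(k0,(nat_lit 2081444376)),(k2,
    (nat_lit 2100593308)),(k4,(nat_lit 2104712555))],[(k9,(nat_lit 1922781228)),(k11,(nat_lit 2005293972)),(k7,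
    (nat_lit 2017985706)),(k1,(nat_lit 2081444376)),(k3,(nat_lit 2100593308)),(k5,(nat_lit 2278166253))],[(k2,
    (nat_lit 1929366230)),(k10,(nat_lit 2024442904)),(k4,(nat_lit 2081555707)),(k8,(nat_lit 2081575600)),(k0,
    (nat_lit 2100593308)),(k6,(nat_lit 2151396610))],[(k3,(nat_lit 1929366230)),(k7,(nat_lit 2011751170)),(k11,
    (nat_lit 2024442904)),(k9,(nat_lit 2081575600)),(k1,(nat_lit 2100593308)),(k5,(nat_lit 2106939175))],[(k6,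
    (nat_lit 1998948105)),(k10,(nat_lit 2011639839)),(k8,(nat_lit 2068772535)),(k4,(nat_lit 2094136110)),(k2,
    (nat_lit 2106939175)),(k0,(nat_lit 2278166253))],[(k9,(nat_lit 1941855195)),(k7,(nat_lit 1998948105)),(k11,
    (nat_lit 2011639839)),(k3,(nat_lit 2081555707)),(k5,(nat_lit 2094136110)),(k1,(nat_lit 2104712555))],[(k10,
    (nat_lit 1899529522)),(k8,(nat_lit 1973584530)),(k4,(nat_lit 1998948105)),(k2,(nat_lit 2011751170)),(k0,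
    (nat_lit 2017985706)),(k6,(nat_lit 2030677440))],[(k11,(nat_lit 1662617154)),(k9,(nat_lit 1973584530)),(k1,
    (nat_lit 1992602238)),(k5,(nat_lit 1998948105)),(k7,(nat_lit 2030677440)),(k3,(nat_lit 2151396610))],[(k0,
    (nat_lit 1922781228)),(k4,(nat_lit 1941855195)),(k6,(nat_lit 1973584530)),(k10,(nat_lit 1986276264)),(k2,
    (nat_lit 2081575600)),(k8,(nat_lit 2297243640))],[(k1,(nat_lit 1872050658)),(k7,(nat_lit 1973584530)),(k11,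
    (nat_lit 1986276264)),(k5,(nat_lit 2068772535)),(k3,(nat_lit 2081575600)),(k9,(nat_lit 2297243640))],[(k6,
    (nat_lit 1662617154)),(k8,(nat_lit 1986276264)),(k0,(nat_lit 2005293972)),(k4,(nat_lit 2011639839)),(k2,
    (nat_lit 2024442904)),(k10,(nat_lit 2119519578))],[(k7,(nat_lit 1899529522)),(k9,(nat_lit 1986276264)),(k1,
    (nat_lit 2005293972)),(k5,(nat_lit 2011639839)),(k3,(nat_lit 2024442904)),(k11,(nat_lit 2119519578))]]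
    [] k0
    [[k2,k0,k0,k0,k1,k0],[k1,k0,k0,k2,k0,k0],[k1,k0,k0,k1,k1,k0],[k1,k0,k0,k1,k0,k1],[k1,k1,k0,k0,k1,k0],[k1,k0,k0,k0,
    k1,k1],[k0,k3,k0,k0,k0,k0],[k0,k2,k0,k0,k0,k1],[k0,k1,k0,k1,k0,k1],[k0,k1,k0,k1,k1,k0],[k0,k0,k1,k2,k0,k0],[k0,k0,
    k1,k1,k1,k0],[k0,k0,k1,k1,k0,k1],[k0,k0,k1,k0,k1,k1],[k0,k0,k0,k2,k1,k0],[k0,k0,k0,k2,k0,k1],[k0,k0,k0,k1,k1,k1],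
    [k0,k0,k0,k1,k0,k2]]
    [.ref k12 k0 [(z3,[z6,z3,z2,z6,z2,y6]),(z6,[y21,z21,y1,y21,y7,z21]),(z3,[z6,y6,z2,z15,z2,y6]),(z1,[z0,z0,z0,z0,
    z1]),(z3,[y3,y6,y4,y12,y4,z12])],.ref k12 k0 [(z1,[z3,z0,z0,z0,y2]),(z4,[y21,z21,z4,z0,z14]),(z1,[z3,y3,z0,z3,
    y2]),(z1,[z0,z0,z0,z0,z1]),(z2,[y3,y3,y2,y6,z0,z6])],.ref k12 k0 [(z1,[z6,z3,z2,z6,z0,y6]),(z2,[y21,z0,y5,y21,z0,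
    z21]),(z1,[z6,z0,z2,z9,z0,y6]),(z1,[z0,z0,z0,z0,z1]),(z1,[y3,y3,y2,y6,y1,z6])],.ref k12 k0 [(z5,[z12,z3,z0,z0,
    y4]),(z5,[y21,z21,z5,z0,z7]),(z5,[z12,y12,z0,z15,y4]),(z1,[z0,z0,z0,z0,z1]),(z5,[y6,y9,y5,y15,y3,z15])],
    .ref k12 k0 [(z5,[y12,z15,z0,y12,y4,z12]),(z5,[z21,z0,z5,z21,z7,y21]),(z5,[y12,z0,z0,z3,y4,z12]),(z1,[z0,z0,z0,z0,
    z1]),(z5,[z6,y15,y5,y9,y3,z9])],.ref k12 k0 [(z3,[z12,z9,z4,z12,z4,y12]),(z3,[y21,z0,y4,y21,y7,z21]),(z3,[z12,z0,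
    z4,z21,z4,y12]),(z1,[z0,z0,z0,z0,z1]),(z3,[y6,y9,y5,y15,y5,z15])],.ref k12 k0 [(z7,[y4,z21,z4]),(z1,[z1]),(z7,[y4,
    z0,z4,z21]),(z1,[z0,z0,z0,z0,z1]),(z7,[z2,y21,y9,y21,y7,z21])],.ref k12 k0 [(z13,[y12,z39,z8]),(z13,[z21,z0,y1]),
    (z13,[y12,z0,z8,z39]),(z1,[z0,z0,z0,z0,z1]),(z13,[z6,y39,y17,y39,y13,z39])],.ref k12 k0 [(z3,[y6,z9,z2,z0,z2]),
    (z6,[z21,z0,y1,z0,y7]),(z3,[y6,z0,z2,z9,z2]),(z1,[z0,z0,z0,z0,z1]),(z3,[z3,y9,y4,y9,y4,z9])],.ref k12 k0 [(z3,[y4,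
    z5,z0,y4,z0,z4]),(z3,[z7,z7,z3,z7,z0,y7]),(z3,[y4,y4,z0,z5,z0,z4]),(z1,[z0,z0,z0,z0,z1]),(z3,[z2,y7,y3,y7,y3,
    z7])],.ref k12 k0 [(z1,[z3,z3,z0,y3,y2]),(z4,[y21,z0,z4,z21,z14]),(z1,[z3,z0,z0,z0,y2]),(z1,[z0,z0,z0,z0,z1]),(z2,
    [y3,y6,y2,y3,z0,z6])],.ref k12 k0 [(z1,[z6,z9,z2,z0,z0,y6]),(z2,[y21,y21,y5,z0,z0,z21]),(z1,[z6,z6,z2,z3,z0,y6]),
    (z1,[z0,z0,z0,z0,z1]),(z1,[y3,y6,y2,y3,y1,z6])],.ref k12 k0 [(z5,[z12,z15,z0,y12,y4]),(z5,[y21,z0,z5,z21,z7]),(z5,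
    [z12,z0,z0,z3,y4]),(z1,[z0,z0,z0,z0,z1]),(z5,[y6,y15,y5,y9,y3,z15])],.ref k12 k0 [(z3,[z12,z21,z4,z0,z4,y12]),(z3,
    [y21,y21,y4,z0,y7,z21]),(z3,[z12,z12,z4,z9,z4,y12]),(z1,[z0,z0,z0,z0,z1]),(z3,[y6,y15,y5,y9,y5,z15])],
    .ref k12 k0 [(z1,[y6,y3,y2,y6,z2,z6]),(z2,[z21,z21,z9,z21,y7,y21]),(z1,[y6,y6,y2,y3,z2,z6]),(z1,[z0,z0,z0,z0,z1]),
    (z1,[z3,z0,z0,z0,y2])],.ref k12 k0 [(z1,[z12,z3,z0,z0,y8]),(z1,[y21,z0,z1,z0,z14]),(z1,[z12,z0,z0,z3,y8]),(z1,[z0,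
    z0,z0,z0,z1]),(z1,[y6,y3,y1,y3,z3,z3])],.ref k12 k0 [(z1,[y12,y9,y4,y12,z0,z12]),(z1,[z21,z21,z8,z21,z0,y21]),(z1,
    [y12,y12,y4,y9,z0,z12]),(z1,[z0,z0,z0,z0,z1]),(z1,[z6,z3,z1,z3,y1,y3])],.ref k12 k0 [(z1,[z6,z3,z0,z0,y2]),(z2,
    [y21,z0,z2,z0,z7]),(z1,[z6,z0,z0,z3,y2]),(z1,[z0,z0,z0,z0,z1]),(z1,[y3,y3,y1,y3,z0,z3])]]]

noncomputable def cT6_3_n3_1 : List TN :=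
  [.lp [k164,k164,k164,k152,k140,k174] [k5,k5,k5,k5,k5,k5,k11,k11,k25,k9,k0,k0] k0 [[k0,k0,k0,k0,k0,k0,k0,k0,k0,k0,k2],
    [k0,k0,k0,k20,k0,k0,k0,k0,k0,k10],[k20],[k0,k0,k0,k0,k0,k0,k0,k0,k0,k0,k0,k22],[k0,k0,k0,k0,k0,k0,k40],[k0,k0,k0,
    k0,k0,k0,k0,k0,k0,k4],[k0,k0,k0,k0,k0,k0,k0,k0,k6,k0,k20],[k0,k0,k0,k0,k0,k40],[k10,k0,k0,k0,k4],[k0,k0,k0,k0,k0,
    k0,k0,k6,k0,k0,k0,k14],[k0,k0,k22,k0,k0,k0,k0,k0,k14],[k0,k2,k0,k0,k0,k0,k0,k20]] (nat_lit 480) k5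
    [[(k6,k138),(k8,k158),(k0,k162),(k4,k164),(k10,k169),(k2,k186)],[(k7,k158),(k9,k160),(k1,k162),(k3,k164),(k11,
    k179),(k5,k184)],[(k8,k134),(k2,k144),(k6,k158),(k0,k164),(k4,k164),(k10,k171)],[(k3,k144),(k7,k158),(k9,k160),
    (k5,k164),(k11,k169),(k1,k186)],[(k8,k144),(k10,k147),(k6,k158),(k2,k164),(k4,k164),(k0,k184)],[(k9,k120),(k7,
    k158),(k1,k164),(k3,k164),(k5,k164),(k11,k173)],[(k8,k134),(k0,k158),(k2,k158),(k4,k158),(k10,k163),(k6,k192)],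
    [(k1,k138),(k9,k154),(k11,k157),(k3,k158),(k5,k158),(k7,k192)],[(k4,k120),(k8,k146),(k6,k154),(k0,k160),(k2,k160),
    (k10,k185)],[(k3,k134),(k7,k134),(k5,k144),(k9,k146),(k11,k149),(k1,k158)],[(k8,k149),(k6,k157),(k10,k160),(k2,
    k169),(k4,k173),(k0,k179)],[(k5,k147),(k11,k160),(k7,k163),(k1,k169),(k3,k171),(k9,k185)]]
    [] k0
    [[k2,k0,k0,k1,k0,k0],[k1,k0,k1,k0,k1,k0],[k1,k1,k0,k1,k0,k0],[k1,k0,k0,k1,k1,k0],[k1,k0,k0,k0,k2,k0],[k1,k0,k0,k0,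
    k1,k1],[k0,k3,k0,k0,k0,k0],[k0,k2,k1,k0,k0,k0],[k0,k2,k0,k1,k0,k0],[k0,k2,k0,k0,k1,k0],[k0,k1,k1,k0,k1,k0],[k0,k1,
    k0,k1,k1,k0],[k0,k1,k0,k0,k2,k0],[k0,k0,k2,k0,k1,k0],[k0,k0,k1,k1,k1,k0],[k0,k0,k1,k0,k2,k0],[k0,k0,k1,k1,k0,k1],
    [k0,k0,k1,k0,k1,k1],[k0,k0,k0,k1,k2,k0],[k0,k0,k0,k1,k1,k1],[k0,k0,k0,k0,k3,k0]]
    [.ref k12 k0 [(z4,[z7,y2,z0,z0,y7]),(z2,[y1,z2,z6,z0,z1]),(z8,[y7,z14,z0,z12,z7]),(z2,[y1,z2,z0,z0,z7]),(z8,[y1,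
    y22,y24,y12,y23,z24])],.ref k12 k0 [(z1,[z7,z3,z7,z0,z7,y7]),(z1,[y2,z0,z1,z0,y2,z2]),(z2,[y7,z0,y7,z3,y7,z7]),
    (z1,[y2,z0,y2,z0,z1,z2]),(z2,[y1,y6,y7,y3,y7,z7])],.ref k12 k0 [(z1,[z7,y4,y7,z0,y7]),(z1,[y2,z2,z5,z0,z2]),(z2,
    [y7,z7,z7,z3,z7]),(z1,[y2,z2,z2,z0,z5]),(z2,[y1,y5,y5,y3,y5,z6])],.ref k12 k0 [(z3,[z14,z9,z14,z7,z0,y14]),(z3,
    [y4,z0,z5,y2,z0,z4]),(z3,[y7,z0,y7,z1,z0,z7]),(z3,[y4,z0,y4,y2,z9,z4]),(z3,[y1,y9,y10,y5,y9,z10])],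
    .ref k12 k0 [(z2,[z7,z13,z14,z7,z14,y14]),(z1,[y1,y1,z1,y1,y2,z2]),(z4,[y7,y7,y14,y1,y14,z14]),(z1,[y1,y1,y2,y1,
    z1,z2]),(z4,[y1,y13,y14,y7,y14,z14])],.ref k12 k0 [(z5,[z14,z15,z14,z7,z14,y14]),(z5,[y4,z0,z11,y2,y4,z4]),(z5,
    [y7,z0,y7,z4,y7,z7]),(z5,[y4,z0,y4,y2,z11,z4]),(z5,[y1,y15,y16,y8,y16,z16])],.ref k12 k0 [(z2,[y7,z6,z21]),(z1,
    [z1]),(z4,[z7,z0,y21,z6]),(z1,[z1,z0,y3,z0,z3]),(z4,[z1,y12,y15,y6,y12,z12])],.ref k12 k0 [(z5,[y14,z15,z28,z7]),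
    (z5,[z4,z0,z7,y2]),(z5,[z7,z0,y14,z4]),(z5,[z4,z0,y8,y2,z15]),(z5,[z1,y15,y17,y8,y15,z15])],.ref k12 k0 [(z2,[y7,
    z6,z14,z0,z7]),(z1,[z1,z0,z1,z0,y1]),(z4,[z7,z0,y14,z6,y7]),(z1,[z1,z0,y2,z0,z2]),(z4,[z1,y12,y14,y6,y13,z12])],
    .ref k12 k0 [(z3,[y14,y5,z14,y7,y14,z14]),(z3,[z4,z4,z5,z2,z4,y4]),(z3,[z7,z7,y7,z8,z7,y7]),(z3,[z4,z4,y4,z2,z13,
    y4]),(z3,[z1,y8,y10,y4,y8,z8])],.ref k12 k0 [(z2,[y7,y1,z0,z0,y7,z7]),(z1,[z1,z1,z3,z0,z1,y1]),(z4,[z7,z7,z0,z6,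
    z7,y7]),(z1,[z1,z1,z0,z0,z4,y1]),(z4,[z1,y11,y12,y6,y11,z11])],.ref k12 k0 [(z3,[y14,y5,z0,y7,z0,z14]),(z3,[z4,z4,
    z9,z2,z0,y4]),(z3,[z7,z7,z0,z8,z0,y7]),(z3,[z4,z4,z0,z2,z9,y4]),(z3,[z1,y8,y9,y4,y9,z8])],.ref k12 k0 [(z1,[y7,
    y11,y7,y7,y14,z14]),(z1,[z2,z4,z5,z2,z4,y4]),(z2,[z7,z14,z7,z10,z14,y14]),(z1,[z2,z4,z2,z2,z7,y4]),(z2,[z1,y4,y5,
    y2,y4,z4])],.ref k12 k0 [(z5,[y14,z1,y14,z7,y14,z14]),(z5,[z4,z4,z19,y2,z4,y4]),(z5,[z7,z7,z7,z4,z7,y7]),(z5,[z4,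
    z4,z4,y2,z19,y4]),(z5,[z1,y14,y14,y8,y14,z14])],.ref k12 k0 [(z2,[y7,y1,y7,z0,z0,z7]),(z1,[z1,z1,z4,z0,z0,y1]),
    (z4,[z7,z7,z7,z6,z0,y7]),(z1,[z1,z1,z1,z0,z3,y1]),(z4,[z1,y11,y11,y6,y12,z11])],.ref k12 k0 [(z3,[y14,y19,y28,y7,
    y28,z28]),(z3,[z4,z8,z17,z2,z8,y8]),(z3,[z7,z14,z14,z8,z14,y14]),(z3,[z4,z8,z8,z2,z17,y8]),(z3,[z1,y7,y7,y4,y7,
    z7])],.ref k12 k0 [(z3,[y14,z9,z0,z7,z14]),(z3,[z4,z0,z9,y2,y4]),(z3,[z7,z0,z0,z1,y7]),(z3,[z4,z0,z0,y2,z5]),(z3,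
    [z1,y9,y9,y5,y10,z9])],.ref k12 k0 [(z1,[y7,y4,y7,z0,y7,z7]),(z1,[z2,z2,z5,z0,z2,y2]),(z2,[z7,z7,z7,z3,z7,y7]),
    (z1,[z2,z2,z2,z0,z5,y2]),(z2,[z1,y5,y5,y3,y5,z5])],.ref k12 k0 [(z1,[y7,y11,y14,y7,y7,z14]),(z1,[z2,z4,z7,z2,z2,
    y4]),(z2,[z7,z14,z14,z10,z7,y14]),(z1,[z2,z4,z4,z2,z5,y4]),(z2,[z1,y4,y4,y2,y5,z4])],.ref k12 k0 [(z1,[y14,y11,
    y14,y7,z0,z14]),(z1,[z4,z4,z7,z2,z0,y4]),(z1,[z7,z7,z7,z5,z0,y7]),(z1,[z4,z4,z4,z2,z3,y4]),(z1,[z1,y2,y2,y1,y3,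
    z2])],.ref k12 k0 [(z1,[y14,y39,y42,y21,y42,z42]),(z1,[z4,z12,z15,z6,z12,y12]),(z1,[z7,z21,z21,z12,z21,y21]),(z1,
    [z4,z12,z12,z6,z15,y12]),(z1,[z1])]],
    .lp [(nat_lit 322),(nat_lit 332),(nat_lit 334),(nat_lit 312),(nat_lit 298),(nat_lit 320)] [k6,k6,k1,k1,k0,k0,k11,k11,
    k18,k18,k7,k7] k0 [[k0,k0,k0,k0,k0,k0,k0,k0,k2,k0,k2],[k0,k0,k0,k22,k0,k0,k0,k6],[k22,k0,k0,k0,k10],[k0,k0,k0,k0,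
    k0,k0,k0,k8,k0,k16],[k0,k0,k0,k0,k0,k0,k0,k0,k38],[k0,k0,k0,k10],[k6,k0,k8],[k0,k0,k0,k0,k0,k0,k0,k0,k0,k16,k0,
    k8],[k0,k0,k16,k0,k0,k0,k16],[k0,k2,k0,k0,k0,k38],[k0,k0,k0,k0,k0,k0,k8],[k0,k2]] (nat_lit 960) k5
    [[(k8,(nat_lit 310)),(k0,(nat_lit 320)),(k10,(nat_lit 321)),(k6,(nat_lit 325)),(k2,(nat_lit 327)),(k4,
    (nat_lit 328))],[(k9,(nat_lit 316)),(k7,(nat_lit 317)),(k11,(nat_lit 319)),(k1,(nat_lit 320)),(k3,(nat_lit 327)),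
    (k5,(nat_lit 350))],[(k2,(nat_lit 310)),(k6,(nat_lit 316)),(k8,(nat_lit 317)),(k0,(nat_lit 327)),(k10,
    (nat_lit 328)),(k4,(nat_lit 333))],[(k3,(nat_lit 310)),(k7,(nat_lit 312)),(k9,(nat_lit 323)),(k1,(nat_lit 327)),
    (k5,(nat_lit 333)),(k11,(nat_lit 342))],[(k8,(nat_lit 300)),(k6,(nat_lit 315)),(k10,(nat_lit 327)),(k2,
    (nat_lit 333)),(k4,(nat_lit 344)),(k0,(nat_lit 350))],[(k11,(nat_lit 289)),(k9,(nat_lit 316)),(k7,(nat_lit 323)),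
    (k1,(nat_lit 328)),(k3,(nat_lit 333)),(k5,(nat_lit 344))],[(k2,(nat_lit 312)),(k6,(nat_lit 312)),(k10,
    (nat_lit 316)),(k0,(nat_lit 317)),(k4,(nat_lit 323)),(k8,(nat_lit 343))],[(k9,(nat_lit 305)),(k7,(nat_lit 312)),
    (k5,(nat_lit 315)),(k3,(nat_lit 316)),(k1,(nat_lit 325)),(k11,(nat_lit 332))],[(k8,(nat_lit 282)),(k10,
    (nat_lit 301)),(k6,(nat_lit 305)),(k0,(nat_lit 316)),(k4,(nat_lit 316)),(k2,(nat_lit 323))],[(k9,(nat_lit 282)),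
    (k5,(nat_lit 300)),(k11,(nat_lit 309)),(k1,(nat_lit 310)),(k3,(nat_lit 317)),(k7,(nat_lit 343))],[(k4,
    (nat_lit 289)),(k8,(nat_lit 309)),(k0,(nat_lit 319)),(k10,(nat_lit 320)),(k6,(nat_lit 332)),(k2,(nat_lit 342))],
    [(k9,(nat_lit 301)),(k7,(nat_lit 316)),(k11,(nat_lit 320)),(k1,(nat_lit 321)),(k5,(nat_lit 327)),(k3,
    (nat_lit 328))]]
    [] k0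
    [[k2,k0,k0,k0,k1,k0],[k1,k0,k1,k0,k1,k0],[k1,k0,k0,k2,k0,k0],[k1,k0,k0,k1,k1,k0],[k1,k0,k0,k0,k2,k0],[k1,k0,k0,k0,
    k1,k1],[k0,k3,k0,k0,k0,k0],[k0,k2,k0,k1,k0,k0],[k0,k2,k0,k0,k1,k0],[k0,k1,k1,k0,k1,k0],[k0,k1,k0,k2,k0,k0],[k0,k1,
    k0,k1,k1,k0],[k0,k1,k0,k0,k2,k0],[k0,k1,k1,k0,k0,k1],[k0,k0,k1,k2,k0,k0],[k0,k0,k1,k1,k0,k1],[k0,k0,k1,k1,k1,k0],
    [k0,k0,k1,k0,k2,k0],[k0,k0,k1,k0,k1,k1],[k0,k0,k1,k0,k0,k2],[k0,k0,k0,k3,k0,k0],[k0,k0,k0,k1,k2,k0],[k0,k0,k0,k1,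
    k1,k1],[k0,k0,k0,k0,k3,k0],[k0,k0,k0,k0,k2,k1],[k0,k0,k0,k0,k1,k2]]
    [.ref k12 k0 [(z1,[z1,z1]),(z4,[z1,y2,z3]),(z2,[y1,z2,z0,z3]),(z4,[y7,z14,z0,z0,z1]),(z1,[z1,y2])],
    .ref k12 k0 [(z1,[z2,z1,z0,y1]),(z4,[z2,y2,z3,y1]),(z1,[y1,z1,z0,z2]),(z4,[y14,z14,z0,z7,z1]),(z1,[z2,y2,z0,y1])],
    .ref k12 k0 [(z5,[y6,z21,z0,z0,z1]),(z20,[y6,z6,z15,z0,z1]),(z10,[z6,y6,z0,z15,y1]),(z10,[z21,y21,z0,z0,y1]),(z5,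
    [y6,z6,z0,z0,z1])],.ref k12 k0 [(z1,[z12,y9,z0,z0,y1]),(z4,[z12,y12,z3,z0,y1]),(z2,[y12,z12,z0,z3,z1]),(z1,[y21,
    z21,z0,z0,z2]),(z1,[z12,y12,z0,z0,y1])],.ref k12 k0 [(z1,[z1,z2]),(z4,[z1,y1,z3]),(z2,[y1,z1,z0,z3]),(z4,[y7,z7,
    z0,z0,z1]),(z1,[z1,y1])],.ref k12 k0 [(z8,[z12,z24,z3,z6,z1,y12]),(z32,[z12,z0,z27,z6,z1,y12]),(z16,[y12,z0,y3,
    z18,y1,z12]),(z32,[y84,z0,y21,y42,z1,z84]),(z8,[z12,z0,z3,z6,z1,y12])],.ref k12 k0 [(z1,[z4,z3,y3]),(z1,[z1]),(z2,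
    [y4,z0,z3,z3]),(z4,[y28,z0,z21,z0,z1]),(z1,[z4,z0,y3])],.ref k12 k0 [(z5,[y12,z15,z6,z0,z1]),(z20,[y12,z0,z21,z0,
    z1]),(z10,[z12,z0,y6,z15,y1]),(z10,[z42,z0,y21,z0,y1]),(z5,[y12,z0,z6,z0,z1])],.ref k12 k0 [(z1,[z2,z3,y1]),(z2,
    [z1,z0,z1]),(z2,[y2,z0,z1,z3]),(z4,[y14,z0,z7,z0,z1]),(z1,[z2,z0,y1])],.ref k12 k0 [(z1,[z4,z3,y1,y2]),(z2,[z2,z0,
    z1,y1]),(z2,[y4,z0,z1,z5]),(z4,[y28,z0,z7,z14,z1]),(z1,[z4,z0,y1,y2])],.ref k12 k0 [(z13,[y12,z39,z3,z0,z2]),(z26,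
    [y6,z0,z21,z0,z1]),(z26,[z12,z0,y3,z39,y2]),(z52,[z84,z0,y21,z0,y1]),(z13,[y12,z0,z3,z0,z2])],.ref k12 k0 [(z2,
    [y12,z6,z3,z0,z1]),(z8,[y12,z0,z9,z0,z1]),(z4,[z12,z0,y3,z6,y1]),(z8,[z84,z0,y21,z0,y5]),(z2,[y12,z0,z3,z0,z1])],
    .ref k12 k0 [(z3,[z4,z9,y1]),(z3,[z1,z0,z2]),(z6,[y4,z0,z1,z9]),(z12,[y28,z0,z7,z0,z3]),(z3,[z4,z0,y1])],
    .ref k12 k0 [(z1,[y12,y9,z0,z0,y1,z12]),(z4,[y12,y12,z3,z0,y1,z12]),(z2,[z12,z12,z0,z3,z1,y12]),(z1,[z21,z21,z0,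
    z0,z2,y21]),(z1,[y12,y12,z0,z0,y1,z12])],.ref k12 k0 [(z8,[y6,z24,z0,z3,z1]),(z32,[y6,z0,z24,z3,z1]),(z16,[z6,z0,
    z0,z21,y1]),(z32,[z42,z0,z0,y21,z1]),(z8,[y6,z0,z0,z3,z1])],.ref k12 k0 [(z3,[y4,z5,y1,z0,z0,z4]),(z3,[y1,y1,z2,
    z0,z0,z1]),(z6,[z4,z4,z1,z9,z0,y4]),(z12,[z28,z28,z7,z0,z3,y28]),(z3,[y4,y4,y1,z0,z0,z4])],.ref k12 k0 [(z5,[y12,
    z15,z0,z6,z1]),(z20,[y12,z0,z15,z6,z1]),(z10,[z12,z0,z0,z9,y1]),(z10,[z42,z0,z0,y21,y1]),(z5,[y12,z0,z0,z6,z1])],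
    .ref k12 k0 [(z1,[z2,z3,z0,y1]),(z4,[z2,z0,z3,y1]),(z1,[y1,z0,z0,z2]),(z4,[y14,z0,z0,z7,z1]),(z1,[z2,z0,z0,y1])],
    .ref k12 k0 [(z2,[z12,z18,z3,z0,z1,y12]),(z8,[z12,z12,z9,z0,z1,y12]),(z4,[y12,y12,y3,z6,y1,z12]),(z8,[y84,y84,y21,
    z0,y5,z84]),(z2,[z12,z12,z3,z0,z1,y12])],.ref k12 k0 [(z1,[y6,y9,y3,y3,y1,z12]),(z4,[y6,y12,z0,y3,y1,z12]),(z2,
    [z6,z12,z3,z6,z1,y12]),(z4,[z42,z84,z21,z21,z8,y84]),(z1,[y6,y12,y3,y3,y1,z12])],.ref k12 k0 [(z7,[y4,z21,z0,z0,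
    z1]),(z28,[y4,z0,z21,z0,z1]),(z14,[z4,z0,z0,z21,y1]),(z1,[z1]),(z7,[y4,z0,z0,z0,z1])],.ref k12 k0 [(z1,[z12,z3,z0,
    z0,y1]),(z4,[z12,z0,z3,z0,y1]),(z2,[y12,z0,z0,z3,z1]),(z1,[y21,z0,z0,z0,z2]),(z1,[z12,z0,z0,z0,y1])],
    .ref k12 k0 [(z1,[y4,y1,y1,y2,z0,z4]),(z2,[y2,y2,z1,y1,z0,z2]),(z2,[z4,z4,z1,z5,z0,y4]),(z4,[z28,z28,z7,z14,z1,
    y28]),(z1,[y4,y4,y1,y2,z0,z4])],.ref k12 k0 [(z1,[z1,z3]),(z4,[z1,z0,z3]),(z2,[y1,z0,z0,z3]),(z4,[y7,z0,z0,z0,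
    z1]),(z1,[z1])],.ref k12 k0 [(z8,[z12,z36,z3,z6,z1,y12]),(z32,[z12,z12,z27,z6,z1,y12]),(z16,[y12,y12,y3,z18,y1,
    z12]),(z32,[y84,y84,y21,y42,z1,z84]),(z8,[z12,z12,z3,z6,z1,y12])],.ref k12 k0 [(z2,[z6,z18,z3,z6,z1,y12]),(z8,[z6,
    z12,z9,z6,z1,y12]),(z4,[y6,y12,y3,z0,y1,z12]),(z8,[y42,y84,y21,y42,y5,z84]),(z2,[z6,z12,z3,z6,z1,y12])]],
    .lp [k166,k172,k154,k160,k156,k150] [k3,k3,k0,k0,k9,k9,k6,k6,k8,k8,k11,k11] k0 [[k0,k0,k0,k0,k0,k0,k0,k0,k0,k0,k2],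
    [k0,k0,k0,k0,k0,k0,k0,k6],[k0,k0,k0,k0,k6],[k0,k0,k0,k0,k0,k0,k0,k0,k0,k6],[k0,k0,k0,k0,k0,k0,k0,k0,k28],[k0,k0,
    k0,k6,k0,k0,k0,k24],[k6,k0,k0,k0,k24],[k0,k0,k0,k0,k0,k0,k0,k0,k0,k4,k0,k4],[k0,k0,k6,k0,k0,k0,k4],[k0,k0,k0,k0,
    k0,k28],[k0,k0,k0,k0,k0,k0,k4],[k0,k2]] (nat_lit 480) k5
    [[(k10,k158),(k4,k160),(k8,k161),(k0,k164),(k6,k167),(k2,k169)],[(k11,k158),(k5,k160),(k7,k163),(k1,k164),(k9,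
    k167),(k3,k169)],[(k6,k160),(k4,k163),(k10,k163),(k8,k164),(k0,k169),(k2,k172)],[(k7,k160),(k5,k163),(k9,k164),
    (k11,k167),(k1,k169),(k3,k172)],[(k8,k149),(k10,k152),(k6,k157),(k0,k160),(k4,k160),(k2,k163)],[(k11,k124),(k7,
    k157),(k1,k160),(k5,k160),(k3,k163),(k9,k179)],[(k6,k136),(k10,k155),(k4,k157),(k2,k160),(k0,k163),(k8,k186)],
    [(k7,k136),(k5,k157),(k9,k158),(k11,k159),(k3,k160),(k1,k167)],[(k10,k149),(k8,k152),(k6,k158),(k2,k164),(k0,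
    k167),(k4,k179)],[(k5,k149),(k9,k152),(k11,k153),(k1,k161),(k3,k164),(k7,k186)],[(k4,k124),(k10,k150),(k8,k153),
    (k0,k158),(k6,k159),(k2,k167)],[(k9,k149),(k11,k150),(k5,k152),(k7,k155),(k1,k158),(k3,k163)]]
    [] k0
    [[k1,k0,k1,k0,k1,k0],[k1,k0,k1,k0,k0,k1],[k1,k0,k0,k2,k0,k0],[k1,k0,k0,k0,k1,k1],[k1,k0,k0,k0,k0,k2],[k0,k1,k1,k0,
    k1,k0],[k0,k1,k0,k2,k0,k0],[k0,k1,k1,k0,k0,k1],[k0,k0,k2,k1,k0,k0],[k0,k0,k2,k0,k0,k1],[k0,k0,k1,k2,k0,k0],[k0,k0,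
    k1,k1,k0,k1],[k0,k0,k1,k1,k1,k0],[k0,k0,k1,k0,k1,k1],[k0,k0,k1,k0,k0,k2],[k0,k0,k0,k3,k0,k0],[k0,k0,k0,k2,k0,k1],
    [k0,k0,k0,k1,k1,k1],[k0,k0,k0,k1,k0,k2],[k0,k0,k0,k0,k3,k0],[k0,k0,k0,k0,k2,k1],[k0,k0,k0,k0,k1,k2],[k0,k0,k0,k0,
    k0,k3]]
    [.ref k22 k0 [(z1,[z2,z1,z0,y1]),(z4,[z2,y2,z3,y1]),(z1,[y1,z1,z0,z2]),(z4,[y14,z2,y3,z1,z12])],
    .ref k137 k11 [(z1,[z0,z1,y1]),(z2,[z2,y2,z1,y1]),(z1,[z0,z0,y1]),(z1,[y1,z0,z1,z0,z1])],.ref k123 k11 [(z1,[z0,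
    z1,y1]),(z2,[y1,y1,z2,y1,z2]),(z1,[z0,z0,y1]),(z2,[z1,y1,z1])],.ref k141 k8 [(z1,[z4,z0,z1,z2,y4]),(z1,[y7,y1,y2,
    y4,z8]),(z1,[z4,z1,z1,z2,y4]),(z2,[z2,z0,z1,z1,y2])],.ref k137 k11 [(z1,[z0,z1,y1]),(z2,[z1,y1,z1]),(z1,[z0,z0,
    y1]),(z2,[y1,y1,z2,y1,z2])],.ref k22 k0 [(z1,[z4,z3,y1,y2]),(z2,[z2,z0,z1,y1]),(z2,[y4,z0,z1,z5]),(z1,[y7,y3,z1,
    z2,z3])],.ref k142 k5 [(z2,[y4,z0,z1,z1]),(z1,[z1]),(z1,[z4,z1,y1]),(z2,[y14,y2,z3,y1,z2])],.ref k82 k11 [(z1,[z0,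
    z1,y1]),(z2,[z2,z0,y1,y1]),(z1,[z0,z0,y1]),(z1,[y1,y1,z2,z0,z1])],.ref k143 k11 [(z1,[z0,z1,y1]),(z2,[y2,y2,z5,z1,
    z2]),(z1,[z0,z0,y1]),(z1,[z1,z0,y1,y1])],.ref k144 k7 [(z2,[y4,y4,y1,y9,z4]),(z1,[z0,z0,z0,z1]),(z1,[z1]),(z1,[z0,
    z1,z0,z1])],.ref k141 k8 [(z1,[y2,z0,z0,z1]),(z4,[z14,y4,y1,y9,z4]),(z1,[y2,z1,z0,z1]),(z4,[y2,z0,z1,z1])],
    .ref k22 k0 [(z3,[y4,z5,y1,z0,z4]),(z3,[y1,y1,z2,z0,z1]),(z6,[z4,z4,z1,z9,y4]),(z6,[z14,y4,y1,y9,z4])],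
    .ref k123 k11 [(z1,[z0,z1,y1]),(z1,[y1,y1,z1,z0,z1]),(z1,[z0,z0,y1]),(z2,[z2,z0,z1,y1])],.ref k137 k11 [(z1,[z0,
    z1,y1]),(z2,[z2,z0,z1,y1]),(z1,[z0,z0,y1]),(z1,[y1,y1,z1,z0,z1])],.ref k82 k11 [(z1,[z0,z1,y1]),(z4,[z2,z0,y1,
    y1]),(z1,[z0,z0,y1]),(z4,[y2,y4,z7,y1,z4])],.ref k145 k11 [(z1,[z0,z1,y1]),(z2,[y2,y6,z9,y3,z6]),(z1,[z0,z0,y1]),
    (z1,[z1])],.ref k114 k11 [(z1,[z0,z1,y1]),(z1,[y1,y2,z3,y1,z2]),(z1,[z0,z0,y1]),(z2,[z2,z2,y3,z1,y2])],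
    .ref k22 k0 [(z1,[y4,y1,y1,y2,z4]),(z2,[y2,y2,z1,y1,z2]),(z2,[z4,z4,z1,z5,y4]),(z1,[z7,z4,z1,z2,y4])],
    .ref k146 k7 [(z2,[y2,y4,y1,y9,z4]),(z1,[z0,z0,z0,z1]),(z2,[z4,z4,z1,z9,y4]),(z1,[z0,z1,z0,z1])],.ref k22 k0 [(z1,
    [z1,z3]),(z4,[z1,z0,z3]),(z2,[y1,z0,z0,z3]),(z4,[y7,y12,y3,y6,z12])],.ref k141 k8 [(z1,[z4,z4,z1,z2,y4]),(z1,[y7,
    y8,y2,y4,z8]),(z1,[z4,z5,z1,z2,y4]),(z2,[z2,z2,z1,z1,y2])],.ref k137 k11 [(z1,[z0,z1,y1]),(z2,[z1,z0,z1]),(z1,[z0,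
    z0,y1]),(z2,[y1,y2,z2,y1,z2])],.ref k147 k0 [(z1,[z0,z1]),(z1,[z0,z0,z1]),(z1,[z0,z0,z0,z1]),(z1,[y4,y12,y3,y6,
    z12])]],
    .lp [k170,k162,k154,k174,k138,k160] [k2,k2,k6,k6,k10,k10,k0,k0,k18,k18,k7,k7] k0 [[k0,k0,k18,k0,k0,k0,k0,k0,k0,k0,
    k20],[k0,k0,k0,k0,k0,k0,k0,k10],[k0,k0,k0,k0,k10,k0,k0,k0,k0,k0,k12],[k0,k18,k0,k0,k0,k0,k0,k0,k0,k20],[k0,k0,k0,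
    k0,k0,k0,k20,k0,k6],[k0,k0,k0,k10,k0,k0,k0,k0,k0,k0,k0,k24],[k10,k0,k0,k0,k0,k0,k0,k0,k24],[k0,k0,k0,k0,k0,k20],
    [k0,k0,k20],[k0,k0,k0,k0,k0,k6,k0,k24],[k0,k0,k0,k0,k24],[k0,k20,k0,k12]] (nat_lit 480) k5
    [[(k0,k150),(k2,k154),(k8,k154),(k10,k165),(k6,k172),(k4,k186)],[(k5,k144),(k1,k150),(k9,k164),(k11,k165),(k3,
    k166),(k7,k172)],[(k8,k150),(k4,k158),(k6,k158),(k0,k166),(k2,k180),(k10,k181)],[(k9,k150),(k1,k154),(k5,k158),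
    (k7,k158),(k3,k180),(k11,k181)],[(k8,k126),(k0,k144),(k2,k158),(k4,k164),(k6,k164),(k10,k169)],[(k9,k126),(k11,
    k151),(k3,k158),(k5,k164),(k7,k164),(k1,k186)],[(k10,k143),(k2,k158),(k8,k162),(k4,k164),(k0,k172),(k6,k194)],
    [(k11,k143),(k9,k156),(k3,k158),(k5,k164),(k1,k172),(k7,k194)],[(k4,k126),(k10,k149),(k2,k150),(k6,k156),(k8,
    k162),(k0,k164)],[(k5,k126),(k11,k149),(k3,k150),(k1,k154),(k7,k162),(k9,k162)],[(k6,k143),(k8,k149),(k4,k151),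
    (k10,k160),(k0,k165),(k2,k181)],[(k7,k143),(k9,k149),(k11,k160),(k1,k165),(k5,k169),(k3,k181)]]
    [] k0
    [[k3,k0,k0,k0,k0,k0],[k2,k1,k0,k0,k0,k0],[k2,k0,k0,k0,k1,k0],[k1,k1,k1,k0,k0,k0],[k1,k1,k0,k0,k1,k0],[k1,k0,k1,k0,
    k1,k0],[k1,k0,k0,k0,k1,k1],[k1,k0,k1,k0,k0,k1],[k0,k1,k1,k0,k1,k0],[k0,k1,k0,k1,k1,k0],[k0,k1,k0,k0,k2,k0],[k0,k0,
    k2,k0,k1,k0],[k0,k0,k1,k1,k1,k0],[k0,k0,k1,k1,k0,k1],[k0,k0,k1,k0,k2,k0],[k0,k0,k1,k0,k1,k1],[k0,k0,k0,k1,k1,k1],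
    [k0,k0,k0,k1,k0,k2],[k0,k0,k0,k0,k2,k1],[k0,k0,k0,k0,k1,k2]]
    [.ref k12 k0 [(z1,[z1]),(z1,[z0,z0,z1]),(z1,[z0,z0,z0,z1]),(z1,[y2,z6,z0,z0,z3]),(z1,[z1,y3])],.ref k12 k0 [(z2,
    [z3,z0,y1]),(z1,[z0,z0,z1]),(z1,[z0,z0,z0,z1]),(z1,[y3,z6,z1,z0,z3]),(z2,[z3,y6,y1])],.ref k12 k0 [(z1,[z1,z1]),
    (z1,[z0,z0,z1]),(z1,[z0,z0,z0,z1]),(z1,[y2,z4,z0,z0,z3]),(z1,[z1,y2])],.ref k12 k0 [(z1,[z3,z0,y1,y1]),(z1,[z0,z0,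
    z1]),(z1,[z0,z0,z0,z1]),(z1,[y6,z6,z2,z2,z3]),(z1,[z3,y3,y1,y1])],.ref k12 k0 [(z2,[z3,z3,y1]),(z1,[z0,z0,z1]),
    (z1,[z0,z0,z0,z1]),(z1,[y3,z3,z1,z0,z3]),(z2,[z3,y3,y1])],.ref k12 k0 [(z2,[z3,z3,z0,y1]),(z1,[z0,z0,z1]),(z1,[z0,
    z0,z0,z1]),(z1,[y3,z3,z0,z1,z3]),(z2,[z3,y3,z0,y1])],.ref k12 k0 [(z2,[z3,z6,z1,z1,z3,y3]),(z1,[z0,z0,z1]),(z1,
    [z0,z0,z0,z1]),(z1,[y3,z0,y1,y1,z0,z3]),(z2,[z3,z0,z1,z1,z3,y3])],.ref k12 k0 [(z1,[z3,z3,z1,z0,z3,y3]),(z1,[z0,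
    z0,z1]),(z1,[z0,z0,z0,z1]),(z1,[y6,z0,y2,z0,y3,z6]),(z1,[z3,z0,z1,z0,z3,y3])],.ref k12 k0 [(z1,[z3,z3,y1,y1]),(z1,
    [z0,z0,z1]),(z1,[z0,z0,z0,z1]),(z1,[y6,z0,z2,z2,z3]),(z1,[z3,z0,y1,y1])],.ref k12 k0 [(z1,[y3,z3,z1,z0,z3]),(z1,
    [z0,z0,z1]),(z1,[z0,z0,z0,z1]),(z1,[z6,z0,y2,z0,y3]),(z1,[y3,z0,z1,z0,z3])],.ref k12 k0 [(z2,[z3,z6,y1]),(z1,[z0,
    z0,z1]),(z1,[z0,z0,z0,z1]),(z1,[y3,z0,z1,z0,z3]),(z2,[z3,z0,y1])],.ref k12 k0 [(z1,[z3,z3,z0,y2]),(z1,[z0,z0,z1]),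
    (z1,[z0,z0,z0,z1]),(z1,[y6,z0,z0,z4,z3]),(z1,[z3,z0,z0,y2])],.ref k12 k0 [(z1,[y3,z3,z0,z1,z3]),(z1,[z0,z0,z1]),
    (z1,[z0,z0,z0,z1]),(z1,[z6,z0,z0,y2,y3]),(z1,[y3,z0,z0,z1,z3])],.ref k12 k0 [(z2,[y3,z3,y1,z0,z0,z3]),(z1,[z0,z0,
    z1]),(z1,[z0,z0,z0,z1]),(z1,[z3,z3,z1,z0,z3,y3]),(z2,[y3,y3,y1,z0,z0,z3])],.ref k12 k0 [(z2,[z3,z6,z0,y1]),(z1,
    [z0,z0,z1]),(z1,[z0,z0,z0,z1]),(z1,[y3,z0,z0,z1,z3]),(z2,[z3,z0,z0,y1])],.ref k12 k0 [(z1,[z3,z6,z1,z0,z3,y3]),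
    (z1,[z0,z0,z1]),(z1,[z0,z0,z0,z1]),(z1,[y6,y6,y2,z0,y3,z6]),(z1,[z3,z3,z1,z0,z3,y3])],.ref k12 k0 [(z1,[y3,z0,y1,
    y1,z0,z3]),(z1,[z0,z0,z1]),(z1,[z0,z0,z0,z1]),(z1,[z6,z6,z2,z2,z3,y6]),(z1,[y3,y3,y1,y1,z0,z3])],.ref k12 k0 [(z2,
    [y3,z0,y2,y2,y3,z6]),(z1,[z0,z0,z1]),(z1,[z0,z0,z0,z1]),(z1,[z3,z6,z2,z2,z6,y6]),(z2,[y3,y6,y2,y2,y3,z6])],
    .ref k12 k0 [(z2,[z3,z9,z1,z1,z3,y3]),(z1,[z0,z0,z1]),(z1,[z0,z0,z0,z1]),(z1,[y3,y3,y1,y1,z0,z3]),(z2,[z3,z3,z1,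
    z1,z3,y3])],.ref k12 k0 [(z1,[z3,z9,z2,z2,z6,y6]),(z1,[z0,z0,z1]),(z1,[z0,z0,z0,z1]),(z1,[y6,y12,y4,y4,y9,z12]),
    (z1,[z3,z6,z2,z2,z6,y6])]],
    .leafM k0 [k2,k3,k4,k5,k0,k1] [(z1,[y1,y1,y1,z0,z1])] [],
    .leafM k0 [k2,k3,k4,k5,k0,k1] [(z4,[y1,y4,y1,z0,z4])] [],
    .lp [k78,k86,k86,k82,k58,k88] [k12,k12,k8,k8,k8,k8,k10,k10,k22,k22,k14,k0] k0 [[k0,k0,k0,k0,k0,k0,k4],[k0,k0,k0,k0,k0,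
    k0,k0,k0,k0,k0,k0,k2],[k0,k0,k0,k0,k4,k0,k0,k0,k0,k0,k10],[k0,k0,k0,k0,k0,k0,k0,k10,k0,k8],[k0,k0,k0,k0,k0,k0,k0,
    k0,k34],[k0,k0,k0,k4,k0,k0,k0,k0,k0,k0,k0,k4],[k0,k0,k10,k0,k0,k0,k0,k0,k8],[k0,k4],[k0,k0,k8,k0,k0,k0,k0,k0,k0,
    k0,k6],[k0,k0,k0,k0,k0,k34,k0,k8],[k2,k0,k0,k0,k4],[k0,k0,k0,k10,k0,k0,k0,k0,k0,k6]] (nat_lit 240) k5
    [[(k8,k62),(k2,k72),(k10,k76),(k0,k80),(k6,k80),(k4,k86)],[(k9,k64),(k1,k80),(k7,k80),(k3,k82),(k5,k82),(k11,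
    k90)],[(k8,k72),(k10,k78),(k0,k82),(k2,k86),(k4,k86),(k6,k88)],[(k1,k72),(k7,k80),(k9,k82),(k3,k86),(k5,k86),(k11,
    k102)],[(k8,k64),(k6,k74),(k0,k82),(k2,k86),(k4,k90),(k10,k90)],[(k11,k60),(k9,k72),(k7,k84),(k1,k86),(k3,k86),
    (k5,k90)],[(k10,k74),(k0,k80),(k2,k80),(k6,k82),(k4,k84),(k8,k104)],[(k9,k70),(k5,k74),(k1,k80),(k7,k82),(k11,
    k84),(k3,k88)],[(k0,k64),(k8,k66),(k10,k66),(k6,k70),(k4,k72),(k2,k82)],[(k1,k62),(k5,k64),(k9,k66),(k3,k72),(k11,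
    k80),(k7,k104)],[(k4,k60),(k8,k80),(k6,k84),(k0,k90),(k10,k94),(k2,k102)],[(k9,k66),(k7,k74),(k1,k76),(k3,k78),
    (k5,k90),(k11,k94)]]
    [] k0
    [[k2,k1,k0,k0,k0,k0],[k2,k0,k0,k0,k1,k0],[k1,k1,k0,k0,k1,k0],[k1,k0,k1,k0,k1,k0],[k1,k0,k0,k1,k1,k0],[k1,k0,k0,k0,
    k2,k0],[k1,k0,k0,k0,k1,k1],[k1,k0,k1,k0,k0,k1],[k0,k1,k1,k0,k1,k0],[k0,k1,k0,k1,k1,k0],[k0,k1,k0,k0,k2,k0],[k0,k1,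
    k1,k0,k0,k1],[k0,k0,k2,k0,k1,k0],[k0,k0,k1,k1,k0,k1],[k0,k0,k1,k1,k1,k0],[k0,k0,k1,k0,k2,k0],[k0,k0,k1,k0,k1,k1],
    [k0,k0,k0,k1,k1,k1],[k0,k0,k0,k0,k3,k0],[k0,k0,k0,k0,k2,k1]]
    [.ref k12 k0 [(z7,[z16,y11,y16]),(z7,[y11,z22,z32]),(z7,[y8,z16,z8,z21]),(z7,[z4,y8,y4,z0,z21]),(z7,[y2,y17,y19,
    y21,y21,z21])],.ref k12 k0 [(z5,[z8,z7,z8,z8,z8,y8]),(z10,[y11,z11,z19,y11,y11,z11]),(z5,[y4,z4,y4,z11,y4,z4]),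
    (z5,[z2,y2,z2,z2,z17,y2]),(z5,[y1,y14,y16,y16,y16,z16])],.ref k12 k0 [(z1,[z16,z3,z0,z16,z16,y16]),(z1,[y11,z0,z3,
    y11,y11,z11]),(z1,[y8,z0,z0,y5,y8,z8]),(z1,[z4,z0,z0,z4,z7,y4]),(z1,[y2,y3,y3,y5,y5,z5])],.ref k12 k0 [(z1,[z8,z3,
    z8,z0,z8,y8]),(z2,[y11,z0,y5,z0,y11,z11]),(z1,[y4,z0,y4,z3,y4,z4]),(z1,[z2,z0,z2,z0,z5,y2]),(z1,[y1,y3,y4,y3,y4,
    z4])],.ref k12 k0 [(z3,[z8,z9,z8,z8,z0,y8]),(z6,[y11,z0,z7,y11,z0,z11]),(z3,[y4,z0,y4,z5,z0,z4]),(z3,[z2,z0,z2,z2,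
    z9,y2]),(z3,[y1,y9,y10,y10,y9,z10])],.ref k12 k0 [(z1,[z4,z7,z8,z8,z8,y8]),(z4,[y11,y11,y10,y22,y22,z22]),(z1,[y2,
    y2,y4,y1,y4,z4]),(z1,[z1,z1,z2,z2,z5,y2]),(z2,[y1,y7,y8,y8,y8,z8])],.ref k12 k0 [(z5,[z16,z15,z16,z16,z16,y16]),
    (z5,[y11,z0,z4,y11,y11,z11]),(z5,[y8,z0,y8,z7,y8,z8]),(z5,[z4,z0,z4,z4,z19,y4]),(z5,[y2,y15,y17,y17,y17,z17])],
    .ref k12 k0 [(z3,[z16,y7,z0,y16]),(z3,[y11,z11,z9,z11]),(z3,[y8,z8,z0,z17]),(z3,[z4,y4,z0,y4,z9]),(z3,[y2,y7,y9,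
    y7,y9,z9])],.ref k12 k0 [(z7,[y16,z5,z0,z0,y16,z16]),(z7,[z11,z11,z21,z0,z11,y11]),(z7,[z8,z8,z0,z21,z8,y8]),(z7,
    [y4,y4,z0,z0,z17,z4]),(z7,[z2,y19,y21,y21,y19,z19])],.ref k12 k0 [(z3,[y16,y7,z0,y16,z0,z16]),(z3,[z11,z11,z9,z11,
    z0,y11]),(z3,[z8,z8,z0,z17,z0,y8]),(z3,[y4,y4,z0,y4,z9,z4]),(z3,[z2,y7,y9,y7,y9,z7])],.ref k12 k0 [(z5,[y16,y17,
    y16,y32,y32,z32]),(z5,[z11,z22,z26,z22,z22,y22]),(z5,[z8,z16,z8,z31,z16,y16]),(z5,[y4,y8,y4,y8,z7,z8]),(z5,[z2,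
    y11,y13,y11,y11,z11])],.ref k12 k0 [(z3,[y8,z9,z8,z8]),(z6,[z11,z0,z7,y11]),(z3,[z4,z0,y4,z5]),(z3,[y2,z0,z2,z2,
    z9]),(z3,[z1,y9,y10,y10,y9,z9])],.ref k12 k0 [(z3,[y8,z1,y8,z8,y8,z8]),(z6,[z11,z11,z29,y11,z11,y11]),(z3,[z4,z4,
    z4,z5,z4,y4]),(z3,[y2,y2,y2,z2,z7,z2]),(z3,[z1,y8,y8,y10,y8,z8])],.ref k12 k0 [(z1,[y16,z3,z0,z16,z16]),(z1,[z11,
    z0,z3,y11,y11]),(z1,[z8,z0,z0,y5,y8]),(z1,[y4,z0,z0,z4,z7]),(z1,[z2,y3,y3,y5,y5,z3])],.ref k12 k0 [(z1,[y8,y5,y8,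
    z0,z0,z8]),(z2,[z11,z11,z17,z0,z0,y11]),(z1,[z4,z4,z4,z3,z0,y4]),(z1,[y2,y2,y2,z0,z3,z2]),(z1,[z1,y2,y2,y3,y3,
    z2])],.ref k12 k0 [(z1,[y4,y5,y8,y4,y8,z8]),(z4,[z11,z22,z34,z11,z22,y22]),(z1,[z2,z4,z4,z5,z4,y4]),(z1,[y1,y2,y2,
    y1,z1,z2]),(z2,[z1,y4,y4,y5,y4,z4])],.ref k12 k0 [(z3,[y16,y7,y16,z0,y16,z16]),(z3,[z11,z11,z20,z0,z11,y11]),(z3,
    [z8,z8,z8,z9,z8,y8]),(z3,[y4,y4,y4,z0,z5,z4]),(z3,[z2,y7,y7,y9,y7,z7])],.ref k12 k0 [(z1,[z16,z19,z16,z16,z0,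
    y16]),(z1,[y11,y11,y8,y11,z0,z11]),(z1,[y8,y8,y8,y5,z0,z8]),(z1,[z4,z4,z4,z4,z3,y4]),(z1,[y2,y5,y5,y5,y3,z5])],
    .ref k12 k0 [(z1,[y8,y21,y24,y24,y24,z24]),(z2,[z11,z33,z39,z33,z33,y33]),(z1,[z4,z12,z12,z15,z12,y12]),(z1,[y2,
    y6,y6,y6,y3,z6]),(z1,[z1])],.ref k12 k0 [(z1,[y16,y29,y32,y32,y32,z32]),(z1,[z11,z22,z25,z22,z22,y22]),(z1,[z8,
    z16,z16,z19,z16,y16]),(z1,[y4,y8,y8,y8,y5,z8]),(z1,[z2,z1,z1,z1,z1,y1])]],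
    .lp [k162,k164,k170,k146,k148,k168] [k4,k4,k3,k3,k0,k0,k12,k12,k11,k11,k1,k1] k0 [[k0,k0,k0,k0,k0,k0,k0,k0,k0,k0,k2],
    [k0,k0,k0,k30],[k30,k0,k0,k0,k0,k0,k2],[k0,k0,k0,k0,k0,k8,k0,k0,k0,k0,k0,k20],[k0,k0,k8,k0,k0,k0,k16],[],[k0,k0,
    k0,k0,k0,k0,k0,k0,k16],[k0,k0,k0,k2,k0,k16],[k0,k0,k0,k0,k0,k0,k0,k0,k0,k0,k14],[k0,k0,k0,k0,k0,k0,k0,k16],[k0,k0,
    k20],[k0,k2,k0,k0,k0,k0,k0,k0,k0,k14]] (nat_lit 480) k5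
    [[(k8,k141),(k6,k154),(k0,k160),(k10,k165),(k4,k166),(k2,k183)],[(k7,k154),(k9,k155),(k1,k160),(k3,k163),(k11,
    k165),(k5,k196)],[(k2,k134),(k6,k155),(k8,k156),(k0,k163),(k4,k167),(k10,k168)],[(k3,k134),(k9,k154),(k7,k163),
    (k11,k166),(k5,k167),(k1,k183)],[(k10,k149),(k8,k159),(k6,k160),(k4,k162),(k2,k167),(k0,k196)],[(k9,k143),(k7,
    k158),(k5,k162),(k1,k166),(k3,k167),(k11,k169)],[(k8,k147),(k0,k154),(k10,k157),(k4,k158),(k6,k162),(k2,k163)],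
    [(k11,k141),(k9,k147),(k1,k154),(k3,k155),(k5,k160),(k7,k162)],[(k4,k143),(k6,k147),(k2,k154),(k0,k155),(k10,
    k158),(k8,k164)],[(k1,k141),(k7,k147),(k3,k156),(k11,k158),(k5,k159),(k9,k164)],[(k6,k141),(k8,k158),(k0,k165),
    (k2,k166),(k4,k169),(k10,k182)],[(k5,k149),(k7,k157),(k9,k158),(k1,k165),(k3,k168),(k11,k182)]]
    [] k0
    [[k2,k0,k0,k1,k0,k0],[k2,k0,k0,k0,k1,k0],[k1,k0,k0,k2,k0,k0],[k1,k0,k0,k1,k1,k0],[k1,k0,k0,k1,k0,k1],[k1,k1,k0,k0,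
    k1,k0],[k1,k0,k0,k0,k2,k0],[k1,k0,k0,k0,k1,k1],[k0,k3,k0,k0,k0,k0],[k0,k2,k1,k0,k0,k0],[k0,k2,k0,k1,k0,k0],[k0,k2,
    k0,k0,k1,k0],[k0,k2,k0,k0,k0,k1],[k0,k1,k0,k1,k1,k0],[k0,k1,k0,k1,k0,k1],[k0,k1,k1,k0,k1,k0],[k0,k1,k0,k0,k2,k0],
    [k0,k0,k2,k0,k1,k0],[k0,k0,k1,k1,k1,k0],[k0,k0,k1,k0,k2,k0],[k0,k0,k1,k1,k0,k1],[k0,k0,k1,k0,k1,k1],[k0,k0,k0,k2,
    k1,k0],[k0,k0,k0,k2,k0,k1],[k0,k0,k0,k1,k2,k0],[k0,k0,k0,k1,k1,k1]]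
    [.ref k12 k0 [(z3,[z4,z1]),(z1,[y1,z2,z1]),(z3,[y2,z4,z0,z9]),(z3,[z1,y2]),(z1,[z0,z0,z0,z0,z1])],
    .ref k12 k0 [(z2,[z3,z0,z0,z0,y1]),(z8,[y9,z18,z8,z0,z3]),(z4,[y3,z6,z0,z12,z1]),(z8,[z3,y6,z0,z0,y1]),(z1,[z0,z0,
    z0,z0,z1])],.ref k12 k0 [(z1,[z2,z1]),(z2,[y3,z3,z2]),(z1,[y1,z1,z0,z3]),(z2,[z1,y1]),(z1,[z0,z0,z0,z0,z1])],
    .ref k12 k0 [(z5,[z12,z3,z0,z0,y4]),(z5,[y9,z9,z5,z0,z3]),(z5,[y6,z6,z0,z15,z2]),(z5,[z3,y3,z0,z0,y1]),(z1,[z0,z0,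
    z0,z0,z1])],.ref k12 k0 [(z5,[z12,z15,z4,z12,z4,y12]),(z5,[y9,z0,z2,y9,y3,z9]),(z5,[y6,z0,y2,z9,y2,z6]),(z5,[z3,
    z0,z1,z3,z1,y3]),(z1,[z0,z0,z0,z0,z1])],.ref k12 k0 [(z1,[z12,y9,y4,z0,y4]),(z1,[y9,z9,z4,z0,z3]),(z1,[y6,z6,z2,
    z3,z2]),(z1,[z3,y3,y1,z0,y1]),(z1,[z0,z0,z0,z0,z1])],.ref k12 k0 [(z1,[z3,z0,z0,z0,y2]),(z4,[y9,z9,z4,z0,z6]),(z2,
    [y3,z3,z0,z6,z2]),(z4,[z3,y3,z0,z0,y2]),(z1,[z0,z0,z0,z0,z1])],.ref k12 k0 [(z1,[z3,z3,z1,z3,z0,y3]),(z4,[y9,z0,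
    z1,y9,z0,z9]),(z2,[y3,z0,y1,z3,z0,z3]),(z4,[z3,z0,z1,z3,z0,y3]),(z1,[z0,z0,z0,z0,z1])],.ref k12 k0 [(z3,[y4,z9,
    z4]),(z1,[z1]),(z3,[z2,z0,y2,z9]),(z3,[y1,z0,z1]),(z1,[z0,z0,z0,z0,z1])],.ref k12 k0 [(z2,[y3,z6,z2,z3]),(z8,[z9,
    z0,z2,y9]),(z4,[z3,z0,y2,z9]),(z8,[y3,z0,z2,z3]),(z1,[z0,z0,z0,z0,z1])],.ref k12 k0 [(z5,[y12,z15,z8]),(z5,[z9,z0,
    y1]),(z5,[z6,z0,y4,z15]),(z5,[y3,z0,z2]),(z1,[z0,z0,z0,z0,z1])],.ref k12 k0 [(z3,[y6,z9,z4,z0,z2]),(z2,[z3,z0,z0,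
    z0,y1]),(z3,[z3,z0,y2,z9,y1]),(z6,[y3,z0,z2,z0,z1]),(z1,[z0,z0,z0,z0,z1])],.ref k12 k0 [(z3,[y6,z3,z2,y6,y2,z6]),
    (z2,[z3,z3,z1,z3,z1,y3]),(z3,[z3,z3,y1,z12,z1,y3]),(z6,[y3,y3,z1,y3,y1,z3]),(z1,[z0,z0,z0,z0,z1])],
    .ref k12 k0 [(z1,[y6,z3,z2,z0,z2]),(z2,[z9,z0,y1,z0,y3]),(z1,[z3,z0,y1,z3,y1]),(z2,[y3,z0,z1,z0,z1]),(z1,[z0,z0,
    z0,z0,z1])],.ref k12 k0 [(z1,[y6,y3,z0,y6,y2,z6]),(z2,[z9,z9,z2,z9,z3,y9]),(z1,[z3,z3,z0,z6,z1,y3]),(z2,[y3,y3,z0,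
    y3,y1,z3]),(z1,[z0,z0,z0,z0,z1])],.ref k12 k0 [(z5,[y12,z15,z4,z12,z4]),(z5,[z9,z0,z2,y9,y3]),(z5,[z6,z0,y2,z9,
    y2]),(z5,[y3,z0,z1,z3,z1]),(z1,[z0,z0,z0,z0,z1])],.ref k12 k0 [(z3,[y12,z9,z4,z0,z8]),(z1,[z3,z0,z0,z0,y2]),(z3,
    [z6,z0,y2,z9,y4]),(z3,[y3,z0,z1,z0,z2]),(z1,[z0,z0,z0,z0,z1])],.ref k12 k0 [(z1,[y3,z3,z0,z6,z1]),(z4,[z9,z0,z4,
    y18,y3]),(z2,[z3,z0,z0,z0,y1]),(z4,[y3,z0,z0,z6,z1]),(z1,[z0,z0,z0,z0,z1])],.ref k12 k0 [(z1,[y12,z3,z0,z12,z4]),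
    (z1,[z9,z0,z1,y9,y3]),(z1,[z6,z0,z0,y3,y2]),(z1,[y3,z0,z0,z3,z1]),(z1,[z0,z0,z0,z0,z1])],.ref k12 k0 [(z1,[y6,z3,
    z0,z6,z4]),(z2,[z9,z0,z2,y9,y6]),(z1,[z3,z0,z0,z0,y2]),(z2,[y3,z0,z0,z3,z2]),(z1,[z0,z0,z0,z0,z1])],
    .ref k12 k0 [(z1,[y12,y9,y4,z0,y4,z12]),(z1,[z9,z9,z4,z0,z3,y9]),(z1,[z6,z6,z2,z3,z2,y6]),(z1,[y3,y3,y1,z0,y1,
    z3]),(z1,[z0,z0,z0,z0,z1])],.ref k12 k0 [(z1,[y6,y3,y2,z0,z0,z6]),(z2,[z9,z9,z5,z0,z0,y9]),(z1,[z3,z3,z1,z3,z0,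
    y3]),(z2,[y3,y3,y1,z0,z0,z3]),(z1,[z0,z0,z0,z0,z1])],.ref k12 k0 [(z1,[z6,z3,z0,z0,y2]),(z2,[y9,z0,z2,z0,z3]),(z1,
    [y3,z0,z0,z3,z1]),(z2,[z3,z0,z0,z0,y1]),(z1,[z0,z0,z0,z0,z1])],.ref k12 k0 [(z1,[z6,z9,z2,z6,z2,y6]),(z2,[y9,y9,
    y1,y9,y3,z9]),(z1,[y3,y3,y1,z0,y1,z3]),(z2,[z3,z3,z1,z3,z1,y3]),(z1,[z0,z0,z0,z0,z1])],.ref k12 k0 [(z1,[z12,z3,
    z0,z0,y8]),(z1,[y9,z0,z1,z0,z6]),(z1,[y6,z0,z0,z3,z4]),(z1,[z3,z0,z0,z0,y2]),(z1,[z0,z0,z0,z0,z1])],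
    .ref k12 k0 [(z1,[z12,z15,z4,z12,z0,y12]),(z1,[y9,y9,y2,y9,z0,z9]),(z1,[y6,y6,y2,y3,z0,z6]),(z1,[z3,z3,z1,z3,z0,
    y3]),(z1,[z0,z0,z0,z0,z1])]],
    .lp [(nat_lit 206),(nat_lit 260),(nat_lit 260),(nat_lit 224),(nat_lit 254),(nat_lit 230)] [k27,k27,k0,k0,k0,k0,k18,
    k18,k3,k3,k15,k15] k0 [[],[],[],[],[k0,k0,k0,k0,k0,k0,k18,k0,k0,k0,k6],[],[k0,k0,k0,k0,k0,k0,k0,k0,k0,k0,k12],[k0,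
    k0,k0,k0,k0,k18,k0,k0,k0,k30],[k0,k0,k0,k0,k0,k0,k30],[],[],[k0,k0,k0,k0,k0,k6,k0,k12]] (nat_lit 720) k5
    [[(k6,(nat_lit 203)),(k0,(nat_lit 206)),(k10,(nat_lit 218)),(k4,(nat_lit 227)),(k8,(nat_lit 230)),(k2,
    (nat_lit 233))],[(k1,(nat_lit 206)),(k7,(nat_lit 215)),(k11,(nat_lit 218)),(k9,(nat_lit 230)),(k3,(nat_lit 233)),
    (k5,(nat_lit 233))],[(k0,(nat_lit 233)),(k6,(nat_lit 242)),(k10,(nat_lit 245)),(k8,(nat_lit 257)),(k2,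
    (nat_lit 260)),(k4,(nat_lit 260))],[(k1,(nat_lit 233)),(k7,(nat_lit 242)),(k11,(nat_lit 245)),(k9,(nat_lit 257)),
    (k3,(nat_lit 260)),(k5,(nat_lit 260))],[(k0,(nat_lit 233)),(k6,(nat_lit 242)),(k10,(nat_lit 245)),(k8,
    (nat_lit 257)),(k2,(nat_lit 260)),(k4,(nat_lit 260))],[(k1,(nat_lit 227)),(k9,(nat_lit 239)),(k7,(nat_lit 242)),
    (k11,(nat_lit 245)),(k3,(nat_lit 260)),(k5,(nat_lit 260))],[(k0,(nat_lit 215)),(k10,(nat_lit 233)),(k8,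
    (nat_lit 239)),(k2,(nat_lit 242)),(k4,(nat_lit 242)),(k6,(nat_lit 242))],[(k1,(nat_lit 203)),(k9,(nat_lit 239)),
    (k3,(nat_lit 242)),(k5,(nat_lit 242)),(k7,(nat_lit 242)),(k11,(nat_lit 257))],[(k8,(nat_lit 224)),(k0,
    (nat_lit 230)),(k4,(nat_lit 239)),(k6,(nat_lit 239)),(k10,(nat_lit 254)),(k2,(nat_lit 257))],[(k9,(nat_lit 224)),
    (k1,(nat_lit 230)),(k7,(nat_lit 239)),(k11,(nat_lit 242)),(k3,(nat_lit 257)),(k5,(nat_lit 257))],[(k0,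
    (nat_lit 218)),(k10,(nat_lit 230)),(k8,(nat_lit 242)),(k2,(nat_lit 245)),(k4,(nat_lit 245)),(k6,(nat_lit 257))],
    [(k1,(nat_lit 218)),(k11,(nat_lit 230)),(k7,(nat_lit 233)),(k3,(nat_lit 245)),(k5,(nat_lit 245)),(k9,
    (nat_lit 254))]]
    [] k0
    [[k3,k0,k0,k0,k0,k0],[k2,k1,k0,k0,k0,k0],[k2,k0,k1,k0,k0,k0],[k2,k0,k0,k1,k0,k0],[k2,k0,k0,k0,k1,k0],[k2,k0,k0,k0,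
    k0,k1],[k1,k1,k0,k1,k0,k0],[k1,k1,k0,k0,k0,k1],[k1,k0,k1,k1,k0,k0],[k1,k0,k1,k0,k1,k0],[k1,k0,k1,k0,k0,k1],[k1,k0,
    k0,k2,k0,k0],[k1,k0,k0,k1,k1,k0],[k1,k0,k0,k1,k0,k1],[k1,k0,k0,k0,k2,k0],[k1,k0,k0,k0,k1,k1],[k1,k0,k0,k0,k0,k2],
    [k0,k0,k0,k1,k2,k0],[k0,k0,k0,k1,k1,k1],[k0,k0,k0,k0,k3,k0],[k0,k0,k0,k0,k0,k3]]
    [.ref k149 k3 [(z4,[y1,z3,z4]),(z2,[y1,z3,z0,z6]),(z4,[z1,y3]),(z1,[z0,y1,y1,y1,z1])],.ref k84 k8 [(z1,[y2,z3,z1,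
    y1,z1]),(z1,[z1,y2,y1]),(z1,[z0,z1]),(z1,[z1,y2])],.ref k149 k3 [(z2,[y1,z2,z2,z1]),(z1,[y1,z2,z0,z4]),(z2,[z1,y2,
    z0,y1]),(z1,[z0,y1,y1,y1,z1])],.ref k149 k3 [(z3,[y1,z2,z3]),(z3,[y2,z4,z0,z9]),(z3,[z1,y2]),(z1,[z0,y1,y1,y1,
    z1])],.ref k150 k11 [(z1,[z2,y1,y2,z2,y2]),(z2,[z3,y3,y5,z3,y3]),(z1,[y3,z2,z4,y4,z4]),(z2,[z1,y1,y1,z1,y1])],
    .ref k44 k8 [(z1,[y2,z3,y1,y1,z1]),(z1,[z1,y2]),(z1,[z0,z1]),(z1,[z1,y2,z1])],.ref k137 k8 [(z1,[y2,z1,z1,y1,z1]),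
    (z1,[z1,y1,y1]),(z1,[z0,z1]),(z1,[z1,y1])],.ref k151 k10 [(z1,[z2,y2,z2,y7]),(z1,[z0,z1,z0,z2]),(z1,[z2,y2,y2,
    y1]),(z1,[y2,z0,z0,y1,z2])],.ref k149 k3 [(z1,[y1,z1,z1,z1]),(z1,[y2,z2,z0,z5]),(z1,[z1,y1,z0,y1]),(z1,[z0,y1,y1,
    y1,z1])],.ref k108 k0 [(z1,[z2,z1,z2,z0,y2]),(z2,[y3,z0,y1,z0,z3]),(z1,[y1,z0,y1,z1,z1]),(z2,[z1,z0,z1,z0,y1])],
    .ref k137 k8 [(z1,[y2,z1,y1,z1,z1]),(z1,[z1,y1,z0,y1]),(z1,[z0,z1]),(z1,[z1,y1,z1,y1])],.ref k149 k3 [(z2,[y1,z1,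
    z2]),(z1,[y1,z1,z0,z3]),(z2,[z1,y1]),(z1,[z0,y1,y1,y1,z1])],.ref k98 k6 [(z1,[z2,z0,y2,z3,y2]),(z1,[y1,z0,z1,y1,
    z1]),(z1,[z6,y1,y5,z5,y5]),(z1,[y3,z0,z2,y3,z3])],.ref k84 k8 [(z1,[y2,z1,y1,y1,z1]),(z1,[z1,y1]),(z1,[z0,z1]),
    (z1,[z1,y1,z1])],.ref k108 k0 [(z1,[z1,z2,z2,z2,y2]),(z4,[y3,y3,y2,y6,z6]),(z2,[y1,y1,y2,z0,z2]),(z4,[z1,z1,z2,z2,
    y2])],.ref k150 k11 [(z1,[z4,z1,z0,z4,y4]),(z1,[z3,z0,y1,z3,y3]),(z1,[y6,y1,z1,y7,z7]),(z1,[z1,z0,z0,z1,y1])],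
    .ref k137 k8 [(z1,[y1,z0,y1,y1,z1]),(z2,[z1,y1]),(z1,[z0,z1]),(z2,[z1,y1,z2])],.ref k152 k0 [(z1,[z4,z9,z8,z8,
    y8]),(z1,[y3,y6,y5,y6,z6]),(z1,[y2,y4,y4,y3,z4]),(z1,[z1,z2,z2,z2,y2])],.ref k108 k0 [(z1,[z4,z5,z4,z4,y4]),(z1,
    [y3,y3,y2,y3,z3]),(z1,[y2,y2,y2,y1,z2]),(z1,[z1,z1,z1,z1,y1])],.ref k153 k0 [(z1,[z0,z1]),(z2,[y1,y3,z3,y3,z3]),
    (z1,[z0,z0,z0,z1]),(z1,[z1])],.ref k153 k0 [(z1,[z0,z1]),(z1,[z1,z0,z3]),(z1,[z0,z0,z0,z1]),(z1,[y2,y3,y3,y3,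
    z3])]],
    .lp [k178,k144,k140,k176,k158,k162] [k0,k0,k17,k17,k19,k19,k1,k1,k10,k10,k8,k8] k0 [[k0,k0,k16,k0,k0,k0,k0,k0,k38],
    [k0,k0,k0,k0,k0,k20],[k0,k0,k0,k0,k40,k0,k0,k0,k0,k0,k38],[k0,k16,k0,k0,k0,k0,k0,k16],[k20,k0,k0,k0,k0,k0,k12],
    [k0,k0,k0,k40,k0,k0,k0,k0,k0,k42],[k0,k0,k16,k0,k0,k0,k0,k0,k36],[k0,k0,k0,k0,k0,k12,k0,k0,k0,k0,k0,k22],[k0,k0,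
    k0,k0,k42,k0,k0,k0,k0,k0,k16],[k0,k38,k0,k0,k0,k0,k0,k36],[k0,k0,k0,k0,k0,k0,k22],[k0,k0,k0,k38,k0,k0,k0,k0,k0,
    k16]] (nat_lit 480) k5
    [[(k2,k123),(k8,k152),(k4,k159),(k10,k170),(k0,k178),(k6,k199)],[(k11,k132),(k5,k143),(k3,k161),(k9,k168),(k1,
    k178),(k7,k197)],[(k4,k122),(k10,k153),(k2,k160),(k6,k160),(k0,k161),(k8,k189)],[(k7,k120),(k1,k123),(k5,k142),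
    (k11,k153),(k3,k160),(k9,k167)],[(k2,k142),(k6,k142),(k0,k143),(k8,k149),(k4,k180),(k10,k189)],[(k3,k122),(k9,
    k137),(k7,k158),(k1,k159),(k5,k180),(k11,k193)],[(k2,k120),(k8,k125),(k4,k158),(k10,k169),(k6,k188),(k0,k197)],
    [(k11,k133),(k5,k142),(k3,k160),(k9,k167),(k7,k188),(k1,k199)],[(k4,k137),(k10,k138),(k2,k167),(k6,k167),(k0,
    k168),(k8,k194)],[(k7,k125),(k5,k149),(k1,k152),(k11,k160),(k3,k189),(k9,k194)],[(k0,k132),(k6,k133),(k2,k153),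
    (k8,k160),(k10,k178),(k4,k193)],[(k9,k138),(k3,k153),(k7,k169),(k1,k170),(k11,k178),(k5,k189)]]
    [] k0
    [[k2,k1,k0,k0,k0,k0],[k1,k2,k0,k0,k0,k0],[k1,k1,k1,k0,k0,k0],[k1,k1,k0,k0,k0,k1],[k1,k0,k1,k0,k1,k0],[k1,k0,k0,k0,
    k1,k1],[k0,k2,k1,k0,k0,k0],[k0,k2,k0,k1,k0,k0],[k0,k2,k0,k0,k0,k1],[k0,k1,k2,k0,k0,k0],[k0,k1,k1,k1,k0,k0],[k0,k1,
    k1,k0,k1,k0],[k0,k1,k1,k0,k0,k1],[k0,k1,k0,k2,k0,k0],[k0,k1,k0,k1,k1,k0],[k0,k1,k0,k1,k0,k1],[k0,k0,k2,k0,k1,k0],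
    [k0,k0,k1,k1,k1,k0],[k0,k0,k0,k1,k1,k1],[k0,k0,k0,k0,k1,k2]]
    [.ref k90 k4 [(z1,[y1,z2,z1]),(z1,[z0,z1]),(z1,[z1,y2])],.ref k91 k6 [(z2,[y1,y1,y2,z2]),(z2,[z1,y1]),(z2,[y3,z3,
    z4])],.ref k91 k6 [(z1,[y1,y1,y2,z2]),(z1,[z1,z0,z1,y1]),(z1,[y3,z0,y1,z3])],.ref k92 k0 [(z1,[z4,y3,y4]),(z1,[y3,
    z3,z4]),(z1,[y2,z1,z1,z1])],.ref k93 k7 [(z1,[z0,y1,y1,z1]),(z1,[z1,z1,z2,y2]),(z1,[y2,z1,z1,z1])],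
    .ref k94 k11 [(z1,[z4,y3,y4]),(z1,[y3,z3,z4]),(z1,[z1,y1,y1])],.ref k94 k11 [(z1,[y2,y1,y2,z2]),(z2,[z3,z3,z5,
    y3]),(z2,[y1,y1,y1,z1])],.ref k105 k6 [(z1,[y2,y1,y1,z1]),(z1,[z1]),(z1,[y3,z0,z1])],.ref k115 k10 [(z1,[z2,y3,y5,
    z3]),(z1,[z0,y1,y2,z2]),(z1,[y1,z3,z5,y3])],.ref k121 k3 [(z1,[z1,z1,z2,y2]),(z1,[z0,y1,y2,z2]),(z1,[z0,y1])],
    .ref k94 k11 [(z1,[y4,y3,y4,z4]),(z1,[z3,z3,z4,y3]),(z1,[y1,y1,y1,z1])],.ref k130 k7 [(z1,[z0,y1,y1,z1]),(z1,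
    [z1]),(z1,[y2,z3,z5,y3])],.ref k136 k2 [(z1,[y1,y1,z0,z1]),(z1,[z2,y3,y5,z3]),(z1,[z3,z3,z5,y3])],
    .ref k91 k6 [(z1,[y1,y1,y1,z1]),(z1,[z1]),(z1,[y3,z0,z2])],.ref k140 k7 [(z1,[z0,y1,y1,z1]),(z1,[z2,z1,z1,y1]),
    (z1,[y1,z1,z2,y1])],.ref k93 k7 [(z1,[z0,y1,y1,z1]),(z1,[y1,z1,z2,y1]),(z1,[z2,z1,z1,y1])],.ref k148 k9 [(z1,[z1,
    z1,z2,y2]),(z1,[z0,y1]),(z1,[z0,y1,y2,z2])],.ref k92 k0 [(z1,[y4,y3,y4,z4]),(z1,[z3,z3,z4,y3]),(z1,[z2,z1,z1,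
    y1])],.ref k91 k6 [(z1,[z1,y1,y2,z1]),(z1,[y1,z0,z1]),(z1,[z3,z0,y1])],.ref k154 k0 [(z1,[z0,z1]),(z1,[y1,z0,z1]),
    (z1,[z0,y1,y1,z1])]],
    .leafM k0 [k1,k2,k3,k4,k5,k0] [(z2,[y1,y1,z0,z2])] [],
    .leafM k0 [k2,k3,k4,k5,k0,k1] [(z2,[y2,y1,y1,z2])] []]

noncomputable def cT6_3_n3_2 : List TN :=
  [.leafM k0 [k1,k2,k3,k4,k5,k0] [(z1,[y1,y1,z0,z1])] [],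
    .leafM k1 [k0,k1,k2,k3,k4,k5] [(z3,[y1,z0,y1,z3]),(z3,[z1,z0,z1])] [],
    .lp [k84,k84,k84,k74,k82,k70] [k0,k0,k0,k0,k0,k0,k5,k5,k1,k1,k9,k5] k0 [[k0,k0,k0,k0,k0,k0,k0,k0,k0,k0,k4],[k0,k0,k0,
    k2],[k2,k0,k0,k0,k0,k0,k0,k0,k0,k0,k2],[k0,k0,k0,k0,k0,k0,k0,k2,k0,k12],[k0,k0,k0,k0,k0,k0,k10],[k0,k0,k0,k0,k0,
    k0,k0,k0,k0,k0,k0,k2],[k0,k0,k2,k0,k0,k0,k0,k0,k14],[k0,k0,k0,k0,k0,k10,k0,k0,k0,k0,k0,k2],[k0,k0,k12],[k0,k0,k0,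
    k0,k0,k0,k0,k14],[k0,k0,k0,k0,k2,k0,k2],[k0,k4,k0,k2]] (nat_lit 240) k5
    [[(k10,k75),(k0,k80),(k6,k81),(k2,k82),(k8,k83),(k4,k86)],[(k7,k79),(k11,k79),(k1,k80),(k9,k83),(k3,k84),(k5,
    k86)],[(k6,k79),(k10,k79),(k2,k82),(k8,k83),(k0,k84),(k4,k84)],[(k7,k79),(k1,k82),(k3,k82),(k5,k84),(k9,k85),(k11,
    k91)],[(k8,k71),(k6,k77),(k10,k77),(k2,k84),(k4,k84),(k0,k86)],[(k9,k73),(k7,k79),(k11,k79),(k3,k84),(k5,k84),(k1,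
    k86)],[(k10,k68),(k8,k78),(k0,k79),(k2,k79),(k4,k79),(k6,k84)],[(k11,k60),(k5,k77),(k9,k78),(k3,k79),(k1,k81),(k7,
    k84)],[(k10,k72),(k4,k73),(k6,k78),(k0,k83),(k2,k85),(k8,k96)],[(k5,k71),(k7,k78),(k11,k78),(k1,k83),(k3,k83),(k9,
    k96)],[(k6,k60),(k10,k70),(k8,k78),(k0,k79),(k4,k79),(k2,k91)],[(k7,k68),(k11,k70),(k9,k72),(k1,k75),(k5,k77),(k3,
    k79)]]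
    [] k0
    [[k2,k0,k0,k0,k0,k1],[k1,k0,k0,k1,k0,k1],[k1,k0,k0,k0,k1,k1],[k1,k0,k0,k0,k0,k2],[k0,k1,k0,k1,k0,k1],[k0,k0,k2,k0,
    k1,k0],[k0,k0,k1,k1,k1,k0],[k0,k0,k1,k1,k0,k1],[k0,k0,k1,k0,k1,k1],[k0,k0,k1,k0,k0,k2],[k0,k0,k0,k2,k0,k1],[k0,k0,
    k0,k1,k1,k1],[k0,k0,k0,k1,k0,k2],[k0,k0,k0,k0,k1,k2],[k0,k0,k0,k0,k0,k3]]
    [.ref k12 k0 [(z1,[z0,z1]),(z1,[z0,z0,z1]),(z1,[y3,z2,z0,z1]),(z2,[z3,y2,z0,z0,z1]),(z2,[y3,z0,y2,y2,y1,z6])],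
    .ref k12 k0 [(z1,[z0,z1]),(z1,[z0,z0,z1]),(z3,[y6,z2,z0,z3,z1]),(z3,[z3,y1,z0,z0,z1]),(z3,[y3,y2,y3,y3,y1,z9])],
    .ref k12 k0 [(z1,[z0,z1]),(z1,[z0,z0,z1]),(z1,[y6,z0,y2,y1,y1,z6]),(z1,[z3,z0,z1,z1,z1,y3]),(z1,[y3,y1,y2,y2,y1,
    z6])],.ref k12 k0 [(z1,[z0,z1]),(z1,[z0,z0,z1]),(z2,[y3,z1,z0,z2]),(z4,[z3,y1,z0,z0,z2]),(z4,[y3,y3,y4,y4,y2,
    z12])],.ref k12 k0 [(z1,[z0,z1]),(z1,[z0,z0,z1]),(z3,[y6,z0,z2,z3,z1]),(z3,[z3,z0,y1,z0,z1]),(z3,[y3,y3,y2,y3,y1,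
    z9])],.ref k12 k0 [(z1,[z0,z1]),(z1,[z0,z0,z1]),(z5,[z6,z2,z2,z3,z1,y6]),(z5,[y3,y1,y1,z1,z2,z3]),(z5,[z3,y4,y4,
    y6,y2,z12])],.ref k12 k0 [(z1,[z0,z1]),(z1,[z0,z0,z1]),(z1,[z3,z1,z1,z1,z0,y3]),(z2,[y3,y1,y1,z0,z1,z3]),(z2,[z3,
    y1,y1,y2,y1,z3])],.ref k12 k0 [(z1,[z0,z1]),(z1,[z0,z0,z1]),(z1,[y6,z0,z0,z3,z1]),(z1,[z3,z0,z0,y1]),(z1,[y3,y1,
    y1,z0,z0,z3])],.ref k12 k0 [(z1,[z0,z1]),(z1,[z0,z0,z1]),(z1,[z6,z2,z2,z1,z1,y6]),(z1,[y3,y1,y1,z0,z0,z3]),(z1,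
    [z3,z0,z0,y1])],.ref k12 k0 [(z1,[z0,z1]),(z1,[z0,z0,z1]),(z1,[y3,z0,z0,z2]),(z2,[z3,z0,z0,y1,z1]),(z2,[y3,y2,y2,
    y1,y1,z6])],.ref k12 k0 [(z1,[z0,z1]),(z1,[z0,z0,z1]),(z2,[y3,z0,z0,z2,z1]),(z4,[z3,z0,z0,z0,z1]),(z4,[y3,y4,y4,
    y4,y1,z12])],.ref k12 k0 [(z1,[z0,z1]),(z1,[z0,z0,z1]),(z1,[y3,y1,y1,z0,z0,z3]),(z2,[z3,z1,z1,z1,z1,y3]),(z2,[y3,
    y3,y3,y3,y1,z9])],.ref k12 k0 [(z1,[z0,z1]),(z1,[z0,z0,z1]),(z5,[y6,z0,z0,z5,z1]),(z5,[z3,z0,z0,z0,z2]),(z5,[y3,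
    y5,y5,y5,y2,z15])],.ref k12 k0 [(z1,[z0,z1]),(z1,[z0,z0,z1]),(z3,[y6,y2,y2,z1,y1,z6]),(z3,[z3,z1,z1,z1,z2,y3]),
    (z3,[y3,y4,y4,y4,y2,z12])],.ref k12 k0 [(z1,[z0,z1]),(z1,[z0,z0,z1]),(z1,[y1,z0,z0,z1]),(z2,[z1,z0,z0,z0,z1]),(z2,
    [y1,y2,y2,y2,y1,z6])]],
    .lp [k84,k84,k84,k74,k82,k70] [k0,k0,k0,k0,k0,k0,k5,k5,k1,k1,k9,k5] k0 [[k0,k0,k0,k0,k0,k0,k0,k0,k0,k0,k4],[k0,k0,k0,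
    k2],[k2,k0,k0,k0,k0,k0,k0,k0,k0,k0,k2],[k0,k0,k0,k0,k0,k0,k0,k2,k0,k12],[k0,k0,k0,k0,k0,k0,k10],[k0,k0,k0,k0,k0,
    k0,k0,k0,k0,k0,k0,k2],[k0,k0,k2,k0,k0,k0,k0,k0,k14],[k0,k0,k0,k0,k0,k10,k0,k0,k0,k0,k0,k2],[k0,k0,k12],[k0,k0,k0,
    k0,k0,k0,k0,k14],[k0,k0,k0,k0,k2,k0,k2],[k0,k4,k0,k2]] (nat_lit 240) k5
    [[(k10,k75),(k0,k80),(k6,k81),(k2,k82),(k8,k83),(k4,k86)],[(k7,k79),(k11,k79),(k1,k80),(k9,k83),(k3,k84),(k5,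
    k86)],[(k6,k79),(k10,k79),(k2,k82),(k8,k83),(k0,k84),(k4,k84)],[(k7,k79),(k1,k82),(k3,k82),(k5,k84),(k9,k85),(k11,
    k91)],[(k8,k71),(k6,k77),(k10,k77),(k2,k84),(k4,k84),(k0,k86)],[(k9,k73),(k7,k79),(k11,k79),(k3,k84),(k5,k84),(k1,
    k86)],[(k10,k68),(k8,k78),(k0,k79),(k2,k79),(k4,k79),(k6,k84)],[(k11,k60),(k5,k77),(k9,k78),(k3,k79),(k1,k81),(k7,
    k84)],[(k10,k72),(k4,k73),(k6,k78),(k0,k83),(k2,k85),(k8,k96)],[(k5,k71),(k7,k78),(k11,k78),(k1,k83),(k3,k83),(k9,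
    k96)],[(k6,k60),(k10,k70),(k8,k78),(k0,k79),(k4,k79),(k2,k91)],[(k7,k68),(k11,k70),(k9,k72),(k1,k75),(k5,k77),(k3,
    k79)]]
    [] k0
    [[k2,k0,k0,k0,k0,k1],[k1,k0,k0,k1,k0,k1],[k1,k0,k0,k0,k1,k1],[k1,k0,k0,k0,k0,k2],[k0,k1,k0,k1,k0,k1],[k0,k0,k2,k0,
    k1,k0],[k0,k0,k1,k1,k1,k0],[k0,k0,k1,k1,k0,k1],[k0,k0,k1,k0,k1,k1],[k0,k0,k1,k0,k0,k2],[k0,k0,k0,k2,k0,k1],[k0,k0,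
    k0,k1,k1,k1],[k0,k0,k0,k1,k0,k2],[k0,k0,k0,k0,k1,k2],[k0,k0,k0,k0,k0,k3]]
    [.ref k12 k0 [(z2,[y1,z1]),(z4,[z4,y1,z3]),(z4,[y20,z5,z0,z3]),(z8,[z20,y5,z0,z0,z3]),(z8,[y16,z1,y6,y6,y3,z24])],
    .ref k12 k0 [(z32,[y8,z13,z0,z0,z1]),(z16,[z8,y1,z12,z0,y1]),(z16,[y40,z5,z0,z12,z5]),(z32,[z40,y5,z0,z0,z7]),(z4,
    [y4,y1,y3,y3,y1,z12])],.ref k12 k0 [(z8,[y8,z3,y2,y2,y1,z8]),(z4,[z8,z0,z5,z2,z1,y8]),(z4,[y40,z0,y10,y7,y5,z40]),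
    (z4,[z20,z0,z5,z5,z4,y20]),(z8,[y32,y3,y14,y14,y7,z56])],.ref k12 k0 [(z5,[y1,z2]),(z20,[z8,y1,z15]),(z4,[y8,z1,
    z0,z3]),(z8,[z8,y1,z0,z0,z3]),(z40,[y32,y11,y30,y30,y15,(Int.ofNat (nat_lit 120))])],.ref k12 k0 [(z40,[y8,z15,z2,
    z0,z1]),(z20,[z8,z0,z13,z0,y1]),(z4,[y8,z0,z2,z3,z1]),(z4,[z4,z0,y1,z0,z1]),(z40,[y32,y15,y22,y30,y11,
    (Int.ofNat (nat_lit 120))])],.ref k12 k0 [(z64,[z8,z25,z2,y2,z1,y8]),(z32,[y8,y1,z22,z2,y1,z8]),(z32,[z40,z5,z10,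
    z14,z5,y40]),(z64,[y40,y5,y10,z10,z19,z40]),(z16,[z8,y5,y10,y14,y5,z40])],.ref k12 k0 [(z12,[z4,z5,z1,z0,z0,y4]),
    (z12,[y8,y1,z7,z0,z0,z8]),(z12,[z40,z5,z10,z9,z0,y40]),(z24,[y40,y5,y10,z0,z9,z40]),(z24,[z32,y5,y10,y18,y9,
    z40])],.ref k12 k0 [(z8,[y8,z3,z0,z2,z1]),(z4,[z8,z0,z3,y2,y1]),(z4,[y40,z0,z0,z13,z5]),(z4,[z20,z0,z0,y5,y1]),
    (z8,[y32,y3,y6,z2,z1,z24])],.ref k12 k0 [(z16,[z8,z7,z2,z0,z1,y8]),(z8,[y8,y1,z4,z0,y1,z8]),(z8,[z40,z5,z10,z6,z5,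
    y40]),(z16,[y40,y5,y10,z0,z1,z40]),(z8,[z16,y1,y2,y6,y1,z8])],.ref k12 k0 [(z8,[y4,z3,z0,z1]),(z4,[z4,z0,z3,y1]),
    (z1,[y5,z0,z0,z2]),(z8,[z20,z0,z0,y5,z3]),(z8,[y16,y3,y6,y2,y3,z24])],.ref k12 k0 [(z24,[y4,z9,z0,z0,z1]),(z12,
    [z4,z0,z9,z0,y1]),(z12,[y20,z0,z0,z9,z5]),(z6,[z5,z0,z0,z0,z1]),(z24,[y16,y9,y18,y18,y5,z72])],.ref k12 k0 [(z12,
    [y4,z4,y1,y1,z0,z4]),(z12,[z8,z1,z11,z2,z0,y8]),(z12,[y40,y5,y10,y1,z0,z40]),(z24,[z40,z5,z10,z10,z9,y40]),(z24,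
    [y32,y13,y26,y26,y9,(Int.ofNat (nat_lit 104))])],.ref k12 k0 [(z56,[y8,z21,z0,z0,z1]),(z28,[z8,z0,z21,z0,y1]),
    (z28,[y40,z0,z0,z21,z5]),(z7,[z5,z0,z0,z0,z2]),(z56,[y32,y21,y42,y42,y17,(Int.ofNat (nat_lit 168))])],
    .ref k12 k0 [(z32,[y8,z11,y2,y2,y1,z8]),(z16,[z8,z1,z14,z2,z1,y8]),(z16,[y40,y5,y10,z2,y5,z40]),(z32,[z40,z5,z10,
    z10,z17,y40]),(z2,[y2,y1,y2,y2,y1,z8])],.ref k12 k0 [(z8,[y1,z3]),(z4,[z1,z0,z3]),(z4,[y5,z0,z0,z3]),(z8,[z5,z0,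
    z0,z0,z3]),(z8,[y4,y3,y6,y6,y3,z24])]],
    .leafM k1 [k0,k1,k2,k3,k4,k5] [(z3,[y1,z0,y3,y1,z3]),(z3,[z1,z0,z3,z1])] [],
    .lp [k160,k172,k144,k178,k124,k180] [k10,k10,k4,k4,k18,k18,k1,k1,k28,k28,k0,k0] k0 [[k0,k0,k0,k0,k0,k0,k0,k0,k26],[k0,
    k0,k0,k0,k0,k32],[k0,k0,k0,k0,k20,k0,k0,k0,k0,k0,k6],[k0,k0,k0,k0,k0,k0,k0,k6,k0,k10],[k32],[k0,k0,k0,k20,k0,k0,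
    k0,k0,k0,k0,k0,k16],[k0,k0,k6,k0,k0,k0,k0,k0,k28],[k0,k0,k0,k0,k0,k0,k0,k0,k0,k0,k0,k18],[k0,k0,k10,k0,k0,k0,k0,
    k0,k0,k0,k14],[k0,k26,k0,k0,k0,k0,k0,k28],[k0,k0,k0,k0,k16,k0,k18],[k0,k0,k0,k6,k0,k0,k0,k0,k0,
    k14]] (nat_lit 480) k5
    [[(k8,k128),(k0,k160),(k2,k160),(k4,k168),(k10,k170),(k6,k187)],[(k9,k142),(k11,k144),(k5,k152),(k1,k160),(k3,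
    k166),(k7,(nat_lit 201))],[(k4,k126),(k0,k166),(k2,k172),(k8,k174),(k6,k175),(k10,k176)],[(k9,k154),(k7,k155),(k5,
    k158),(k1,k160),(k3,k172),(k11,k186)],[(k8,k124),(k0,k152),(k6,k155),(k2,k158),(k4,k164),(k10,k168)],[(k3,k126),
    (k9,k134),(k7,k161),(k11,k162),(k5,k164),(k1,k168)],[(k8,k151),(k2,k155),(k4,k161),(k10,k163),(k6,k178),(k0,
    (nat_lit 201))],[(k9,k151),(k11,k151),(k5,k155),(k3,k175),(k7,k178),(k1,k187)],[(k4,k134),(k10,k134),(k0,k142),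
    (k6,k151),(k8,k152),(k2,k154)],[(k5,k124),(k1,k128),(k7,k151),(k9,k152),(k11,k152),(k3,k174)],[(k0,k144),(k6,
    k151),(k8,k152),(k4,k162),(k2,k186),(k10,k194)],[(k9,k134),(k7,k163),(k5,k168),(k1,k170),(k3,k176),(k11,k194)]]
    [] k0
    [[k2,k0,k0,k0,k1,k0],[k2,k0,k0,k0,k0,k1],[k1,k1,k1,k0,k0,k0],[k1,k1,k0,k0,k1,k0],[k1,k0,k1,k0,k1,k0],[k1,k0,k0,k0,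
    k2,k0],[k1,k0,k0,k0,k1,k1],[k0,k2,k1,k0,k0,k0],[k0,k1,k2,k0,k0,k0],[k0,k1,k1,k1,k0,k0],[k0,k1,k1,k0,k1,k0],[k0,k0,
    k2,k0,k1,k0],[k0,k0,k1,k1,k1,k0],[k0,k0,k1,k0,k2,k0],[k0,k0,k1,k0,k1,k1],[k0,k0,k0,k1,k2,k0],[k0,k0,k0,k1,k1,k1],
    [k0,k0,k0,k0,k3,k0],[k0,k0,k0,k0,k2,k1]]
    [.ref k12 k0 [(z1,[z0,z1]),(z1,[z0,z0,z1]),(z2,[z3,y1,z1,z3,z1,y3]),(z1,[y3,z1,y1,y1,z0,z3]),(z1,[z3,y2])],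
    .ref k12 k0 [(z1,[z0,z1]),(z1,[z0,z0,z1]),(z1,[y3,z2,z0,z1]),(z1,[z6,y4,z0,z0,z1]),(z1,[y6,z3,y1,y1,y1,z3])],
    .ref k12 k0 [(z1,[z0,z1]),(z1,[z0,z0,z1]),(z1,[z3,y1,y1]),(z1,[y6,z2,z2,z2,z1]),(z1,[z6,y3,y3,y3,y1,z3])],
    .ref k12 k0 [(z1,[z0,z1]),(z1,[z0,z0,z1]),(z2,[z3,z0,z0,z3,z1,y3]),(z1,[y3,z0,z0,y1,z0,z3]),(z1,[z3,y1,y1])],
    .ref k12 k0 [(z1,[z0,z1]),(z1,[z0,z0,z1]),(z3,[z3,z0,z1,z3,z1,y3]),(z3,[y6,z0,y2,z0,z1,z6]),(z3,[z6,y3,y1,y3,y1,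
    z3])],.ref k12 k0 [(z1,[z0,z1]),(z1,[z0,z0,z1]),(z4,[z3,z1,z2,z6,z2,y6]),(z2,[y3,y1,y2,y2,z0,z6]),(z2,[z3,y1])],
    .ref k12 k0 [(z1,[z0,z1]),(z1,[z0,z0,z1]),(z1,[z3,z0,z1,z2,z1,y3]),(z1,[y6,z0,y2,y2,y1,z6]),(z1,[z6,y1,z1,z1,z1,
    y3])],.ref k12 k0 [(z1,[z0,z1]),(z1,[z0,z0,z1]),(z1,[z3,z0,y2]),(z1,[y6,z0,z4,z2,z1]),(z1,[z6,y1,y5,y3,y1,z3])],
    .ref k12 k0 [(z1,[z0,z1]),(z1,[z0,z0,z1]),(z2,[z3,z0,y1]),(z1,[y3,z0,z1,z2,z1]),(z1,[z3,y1,y2,y3,y1,z3])],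
    .ref k12 k0 [(z1,[z0,z1]),(z1,[z0,z0,z1]),(z1,[y3,z0,z1,z2,z1]),(z1,[z6,z0,y2,y2,y1]),(z1,[y6,y1,z1,z1,z1,z3])],
    .ref k12 k0 [(z1,[z0,z1]),(z1,[z0,z0,z1]),(z3,[z3,z1,z0,z3,z1,y3]),(z3,[y6,y2,z0,z0,z1,z6]),(z3,[z6,y1,y3,y3,y1,
    z3])],.ref k12 k0 [(z1,[z0,z1]),(z1,[z0,z0,z1]),(z4,[z3,z1,z1,z3,z1,y3]),(z2,[y3,y1,y1,z1,z1,z3]),(z2,[z3,y1,y1,
    y3,y1,z3])],.ref k12 k0 [(z1,[z0,z1]),(z1,[z0,z0,z1]),(z1,[z3,z1,z1,z1,z0,y3]),(z1,[y6,y2,y2,z0,z1,z6]),(z1,[z6,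
    z1,z1,y1,y1,y3])],.ref k12 k0 [(z1,[z0,z1]),(z1,[z0,z0,z1]),(z5,[z3,z2,z2,z6,z2,y6]),(z5,[y6,y4,y4,y2,z1,z12]),
    (z5,[z6,y1,y1,y3,y1,z3])],.ref k12 k0 [(z1,[z0,z1]),(z1,[z0,z0,z1]),(z2,[z3,z1,z1,z2,z1,y3]),(z1,[y3,y1,y1,z0,z0,
    z3]),(z1,[z3,z0,z0,y1])],.ref k12 k0 [(z1,[z0,z1]),(z1,[z0,z0,z1]),(z2,[z3,z2,z2,z4,z1,y6]),(z1,[y3,y2,y2,y2,z0,
    z6]),(z1,[z3,z1,z1,z1,z0,y3])],.ref k12 k0 [(z1,[z0,z1]),(z1,[z0,z0,z1]),(z1,[y3,y1,y1,z0,z0,z3]),(z1,[z6,z2,z2,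
    z2,z1,y6]),(z1,[y6,y3,y3,y3,y1,z9])],.ref k12 k0 [(z1,[z0,z1]),(z1,[z0,z0,z1]),(z2,[z1,z1,z1,z3,z1,y3]),(z1,[y1,
    y1,y1,y1,z0,z3]),(z1,[z1])],.ref k12 k0 [(z1,[z0,z1]),(z1,[z0,z0,z1]),(z3,[z3,z2,z2,z5,z2,y6]),(z3,[y6,y4,y4,y4,
    y1,z12]),(z3,[z6,z1,z1,z1,z1,y3])]],
    .lp [k160,k166,k166,k148,k148,k170] [k5,k5,k2,k2,k2,k2,k11,k11,k11,k11,k0,k0] k0 [[k0,k0,k0,k0,k0,k0,k0,k0,k20],[k0,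
    k0,k0,k34],[k34],[k0,k0,k0,k0,k0,k0,k0,k0,k0,k0,k0,k22],[k0,k0,k0,k0,k0,k0,k18,k0,k0,k0,k40],[k0,k0,k0,k0,k0,k0,
    k0,k0,k0,k22],[k0,k0,k0,k0,k0,k0,k0,k0,k0,k0,k18],[k0,k0,k0,k0,k0,k18,k0,k0,k0,k2],[k0,k0,k0,k0,k22,k0,k2],[k0,
    k20,k0,k0,k0,k0,k0,k0,k0,k0,k0,k26],[k0,k0,k22,k0,k0,k0,k0,k0,k26],[k0,k0,k0,k0,k0,k40,k0,k18]] (nat_lit 480) k5
    [[(k4,k123),(k6,k136),(k0,k160),(k10,k165),(k8,k180),(k2,k185)],[(k11,k145),(k7,k154),(k9,k154),(k1,k160),(k3,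
    k163),(k5,k197)],[(k2,k132),(k6,k157),(k0,k163),(k4,k166),(k10,k168),(k8,k177)],[(k3,k132),(k7,k157),(k9,k157),
    (k5,k166),(k11,k168),(k1,k185)],[(k10,k146),(k6,k157),(k8,k157),(k2,k166),(k4,k166),(k0,k197)],[(k1,k123),(k9,
    k139),(k7,k157),(k3,k166),(k5,k166),(k11,k190)],[(k8,k126),(k0,k154),(k2,k157),(k4,k157),(k6,k166),(k10,k199)],
    [(k1,k136),(k9,k148),(k3,k157),(k5,k157),(k11,k161),(k7,k166)],[(k4,k139),(k8,k146),(k6,k148),(k0,k154),(k2,k157),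
    (k10,k177)],[(k7,k126),(k9,k146),(k5,k157),(k11,k159),(k3,k177),(k1,k180)],[(k10,k144),(k0,k145),(k8,k159),(k6,
    k161),(k2,k168),(k4,k190)],[(k11,k144),(k5,k146),(k1,k165),(k3,k168),(k9,k177),(k7,k199)]]
    [] k0
    [[k2,k0,k0,k1,k0,k0],[k2,k0,k0,k0,k0,k1],[k1,k1,k1,k0,k0,k0],[k1,k0,k1,k1,k0,k0],[k1,k0,k1,k0,k1,k0],[k1,k0,k1,k0,
    k0,k1],[k1,k1,k0,k1,k0,k0],[k1,k0,k0,k2,k0,k0],[k1,k0,k0,k1,k1,k0],[k1,k0,k0,k0,k1,k1],[k1,k0,k0,k0,k0,k2],[k0,k3,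
    k0,k0,k0,k0],[k0,k2,k1,k0,k0,k0],[k0,k2,k0,k1,k0,k0],[k0,k2,k0,k0,k1,k0],[k0,k2,k0,k0,k0,k1],[k0,k1,k0,k1,k1,k0],
    [k0,k0,k2,k0,k1,k0],[k0,k0,k1,k1,k1,k0],[k0,k0,k1,k0,k2,k0],[k0,k0,k1,k1,k0,k1],[k0,k0,k1,k0,k1,k1],[k0,k0,k0,k2,
    k1,k0],[k0,k0,k0,k1,k2,k0],[k0,k0,k0,k1,k1,k1],[k0,k0,k0,k0,k3,k0],[k0,k0,k0,k0,k0,k3]]
    [.ref k12 k0 [(z1,[z4,y5,z0,z0,y4]),(z1,[y8,z16,z3,z0,z8]),(z1,[z10,y20,z0,z3,y10]),(z1,[y5,z10,z0,z0,z8]),(z1,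
    [y2,z1,y3,y3,y1,z3])],.ref k12 k0 [(z3,[z4,z1]),(z3,[y8,z16,z9]),(z3,[z10,y20,z0,z9]),(z3,[y5,z10,z0,z0,z9]),(z3,
    [y2,y5,y9,y9,y9,z9])],.ref k12 k0 [(z1,[z2,z1,y2,y2]),(z1,[y4,z4,z7,z4]),(z1,[z5,y5,y5,y2]),(z2,[y5,z5,z5,z5,z6]),
    (z1,[y1,y2,y2,y2,y3,z3])],.ref k12 k0 [(z3,[z4,z5,z0,y4,y4]),(z3,[y8,z8,z9,z8,z8]),(z3,[z10,y10,z0,y1,y10]),(z3,
    [y5,z5,z0,z5,z14]),(z3,[y2,y7,y9,y7,y7,z9])],.ref k12 k0 [(z1,[z1,z3,z1,z0,z1,y1]),(z1,[y2,z0,z1,z0,y2,z2]),(z2,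
    [z5,z0,z5,z6,z5,y5]),(z4,[y5,z0,y5,z0,z7,z5]),(z2,[y1,y6,y7,y6,y7,z7])],.ref k12 k0 [(z5,[z4,z11,z0,y4]),(z5,[y8,
    z8,z15,z8]),(z1,[z2,y2,z0,z1]),(z1,[y1,z1,z0,z1,z3]),(z5,[y2,y13,y15,y13,y15,z15])],.ref k12 k0 [(z3,[y4,z13,z4,
    z0,z4]),(z3,[z8,y8,z1,z0,y8]),(z3,[y10,z10,z10,z9,z10]),(z3,[z5,y5,y5,z0,z4]),(z3,[z2,y11,y11,y9,y11,z9])],
    .ref k12 k0 [(z1,[y2,z5,z0,z0,z4]),(z1,[z4,y4,z3,z0,y8]),(z1,[y5,z5,z0,z3,z10]),(z2,[z5,y5,z0,z0,y4]),(z1,[z1,y4,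
    y3,y3,y5,z3])],.ref k12 k0 [(z1,[y4,z3,y4,y4,z0,z4]),(z1,[z8,z0,z11,z8,z0,y8]),(z1,[y10,z0,y10,y7,z0,z10]),(z1,
    [z5,z0,z5,z5,z3,y5]),(z1,[z2,y3,y1,y1,y3,z1])],.ref k12 k0 [(z1,[z4,z3,z4,z4,z4,y4]),(z1,[y8,z0,y5,y8,y8,z8]),(z1,
    [z10,z0,z10,z13,z10,y10]),(z1,[y5,z0,y5,y5,y2,z5]),(z1,[y2,y3,y5,y5,y5,z5])],.ref k12 k0 [(z1,[z2,z1]),(z1,[y4,z4,
    z3]),(z1,[z5,y5,z0,z3]),(z2,[y5,z5,z0,z0,z6]),(z1,[y1,y2,y3,y3,y3,z3])],.ref k12 k0 [(z2,[y1,z6,z3]),(z1,[z1]),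
    (z4,[y5,z0,z15,z12]),(z8,[z5,z0,y15,z0,z24]),(z4,[z1,y12,y15,y12,y12,z12])],.ref k12 k0 [(z1,[y2,z3,z4,z2]),(z1,
    [z4,z0,y5,y4]),(z1,[y5,z0,z10,z8]),(z2,[z5,z0,y10,y5,z6]),(z1,[z1,y3,y5,y4,y3,z3])],.ref k12 k0 [(z7,[y4,z21,z8,
    z0,z4]),(z7,[z8,z0,z5,z0,y8]),(z7,[y10,z0,z20,z21,z10]),(z7,[z5,z0,y10,z0,z16]),(z7,[z2,y21,y25,y21,y23,z21])],
    .ref k12 k0 [(z3,[y2,z7,z2,y2,y2,z2]),(z3,[z4,z4,z5,z4,z4,y4]),(z3,[y5,y5,z5,z4,y5,z5]),(z6,[z5,z5,y5,z5,z23,y5]),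
    (z3,[z1,y8,y10,y8,y8,z8])],.ref k12 k0 [(z5,[y4,z15,z8]),(z5,[z8,z0,y1]),(z1,[y2,z0,z4,z3]),(z1,[z1,z0,y2,z0,z3]),
    (z5,[z2,y15,y19,y15,y15,z15])],.ref k12 k0 [(z5,[y4,z11,z0,y4,z0,z4]),(z5,[z8,z8,z15,z8,z0,y8]),(z1,[y2,y2,z0,z1,
    z0,z2]),(z1,[z1,z1,z0,z1,z3,y1]),(z5,[z2,y13,y15,y13,y15,z13])],.ref k12 k0 [(z3,[z2,z11,z2,y2,z2,y2]),(z3,[y4,y4,
    z5,z4,y4,z4]),(z3,[z5,z5,z5,z4,z5,y5]),(z6,[y5,y5,y5,z5,z13,z5]),(z3,[y1,y10,y10,y8,y10,z10])],.ref k12 k0 [(z1,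
    [z4,z7,z4,z0,z0,y4]),(z1,[y8,y8,y5,z0,z0,z8]),(z1,[z10,z10,z10,z3,z0,y10]),(z1,[y5,y5,y5,z0,z3,z5]),(z1,[y2,y5,y5,
    y3,y3,z5])],.ref k12 k0 [(z1,[z2,z7,z4,z2,z4,y4]),(z1,[y4,y8,y5,y4,y8,z8]),(z1,[z5,z10,z10,z8,z10,y10]),(z2,[y5,
    y10,y10,y5,y4,z10]),(z1,[y1,y5,y5,y4,y5,z5])],.ref k12 k0 [(z1,[z2,z3,z0,y2,y2]),(z1,[y4,z0,z3,z4,z4]),(z1,[z5,z0,
    z0,y2,y5]),(z2,[y5,z0,z0,z5,z11]),(z1,[y1,y3,y3,y2,y2,z3])],.ref k12 k0 [(z3,[z4,z13,z4,z0,z4,y4]),(z3,[y8,y8,z1,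
    z0,y8,z8]),(z3,[z10,z10,z10,z9,z10,y10]),(z3,[y5,y5,y5,z0,z4,z5]),(z3,[y2,y11,y11,y9,y11,z11])],.ref k12 k0 [(z1,
    [y1,z2,y1,y1,z1,z1]),(z1,[z2,z2,z5,z2,y2,y2]),(z2,[y5,y5,y5,z1,z5,z5]),(z4,[z5,z5,z5,z5,z7,y5]),(z2,[z1,y5,y5,y5,
    y7,z5])],.ref k12 k0 [(z3,[y4,z1,y8,y8,y4,z8]),(z3,[z8,z16,z25,z16,z8,y16]),(z3,[y10,y20,y20,y11,y10,z20]),(z3,
    [z5,z10,z10,z10,z14,y10]),(z3,[z2,y5,y5,y5,y7,z5])],.ref k12 k0 [(z1,[y2,z1,y2,y2,z0,z2]),(z1,[z4,z4,z7,z4,z0,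
    y4]),(z1,[y5,y5,y5,y2,z0,z5]),(z2,[z5,z5,z5,z5,z6,y5]),(z1,[z1,y2,y2,y2,y3,z2])],.ref k12 k0 [(z1,[y2,y3,y6,y6,y6,
    z6]),(z1,[z4,z12,z15,z12,z12,y12]),(z1,[y5,y15,y15,y12,y15,z15]),(z2,[z5,z15,z15,z15,z21,y15]),(z1,[z1])],
    .ref k12 k0 [(z1,[z4,z3]),(z1,[y8,z0,z3]),(z1,[z10,z0,z0,z3]),(z1,[y5,z0,z0,z0,z3]),(z1,[y2,y3,y3,y3,y3,z3])]],
    .lp [k160,k166,k168,k150,k162,k152] [k4,k4,k1,k1,k0,k0,k9,k9,k3,k3,k8,k8] k0 [[k0,k0,k0,k0,k0,k0,k10],[k0,k0,k0,k4,k0,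
    k10],[k4,k0,k0,k0,k0,k0,k0,k0,k0,k0,k4],[k0,k0,k0,k0,k0,k6],[k10,k0,k6],[k0,k0,k0,k0,k0,k0,k0,k2],[k0,k0,k0,k0,k2,
    k0,k0,k0,k22],[k0,k10],[k0,k0,k0,k0,k0,k0,k0,k0,k0,k0,k16],[k0,k0,k0,k0,k0,k0,k0,k22],[],[k0,k0,k0,k4,k0,k0,k0,k0,
    k0,k16]] (nat_lit 480) k5
    [[(k8,k145),(k6,k155),(k10,k156),(k2,k159),(k0,k160),(k4,k164)],[(k9,k151),(k11,k156),(k1,k160),(k3,k163),(k7,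
    k165),(k5,k168)],[(k4,k157),(k10,k159),(k2,k162),(k0,k163),(k8,k164),(k6,k168)],[(k1,k159),(k11,k159),(k3,k162),
    (k7,k164),(k9,k164),(k5,k167)],[(k6,k159),(k4,k162),(k10,k164),(k8,k165),(k2,k167),(k0,k168)],[(k3,k157),(k7,
    k159),(k11,k160),(k5,k162),(k1,k164),(k9,k167)],[(k6,k148),(k10,k151),(k8,k156),(k4,k159),(k2,k164),(k0,k165)],
    [(k11,k129),(k7,k148),(k1,k155),(k9,k156),(k5,k159),(k3,k168)],[(k0,k151),(k6,k156),(k10,k157),(k2,k164),(k4,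
    k167),(k8,k184)],[(k1,k145),(k7,k156),(k11,k157),(k3,k164),(k5,k165),(k9,k184)],[(k6,k129),(k0,k156),(k8,k157),
    (k2,k159),(k4,k160),(k10,k168)],[(k7,k151),(k1,k156),(k9,k157),(k3,k159),(k5,k164),(k11,k168)]]
    [] k0
    [[k2,k0,k0,k0,k1,k0],[k2,k0,k0,k0,k0,k1],[k1,k1,k0,k0,k1,k0],[k1,k1,k0,k0,k0,k1],[k1,k0,k0,k2,k0,k0],[k1,k0,k0,k1,
    k1,k0],[k1,k0,k0,k1,k0,k1],[k1,k0,k0,k0,k1,k1],[k0,k1,k0,k1,k0,k1],[k0,k0,k1,k2,k0,k0],[k0,k0,k1,k1,k0,k1],[k0,k0,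
    k0,k3,k0,k0],[k0,k0,k0,k2,k1,k0],[k0,k0,k0,k2,k0,k1],[k0,k0,k0,k1,k1,k1],[k0,k0,k0,k1,k0,k2]]
    [.ref k12 k0 [(z1,[z2,z1,z2,z2,z2,y2]),(z1,[y4,z4,y1,y4,y4,z4]),(z2,[y5,z5,y5,z1,y5,z5]),(z1,[z5,y5,z5,z5,z8,y5]),
    (z1,[y1,y2,y4,y4,y4,z4])],.ref k12 k0 [(z3,[z4,z1]),(z3,[y8,z16,z9]),(z3,[y5,z10,z0,z9]),(z3,[z10,y20,z0,z0,z9]),
    (z3,[y2,y5,y9,y9,y9,z9])],.ref k12 k0 [(z1,[y2,z3,z0,y2,y2,z2]),(z1,[z4,z0,z3,z4,z4,y4]),(z2,[z5,z0,z0,z11,z5,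
    y5]),(z1,[y5,z0,z0,y5,y2,z5]),(z1,[z1,y3,y3,y2,y2,z2])],.ref k12 k0 [(z1,[y4,z7,z4]),(z1,[z8,y8,y5]),(z1,[z5,y5,
    y5,z3]),(z1,[y10,z10,z10,z0,z3]),(z1,[z2,y5,y5,y3,y3,z3])],.ref k12 k0 [(z2,[z1,z5,z0,z0,y2]),(z1,[y1,z1,z3,z0,
    z2]),(z8,[y5,z5,z0,z24,z10]),(z4,[z5,y5,z0,z0,z2]),(z4,[y1,y11,y12,y12,y10,z12])],.ref k12 k0 [(z1,[z1,z3,z1,z1,
    z0,y1]),(z1,[y2,z0,z1,y2,z0,z2]),(z4,[y5,z0,y5,z7,z0,z5]),(z2,[z5,z0,z5,z5,z6,y5]),(z2,[y1,y6,y7,y7,y6,z7])],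
    .ref k12 k0 [(z5,[z4,z11,z0,z0,y4]),(z5,[y8,z8,z15,z0,z8]),(z1,[y1,z1,z0,z3,z1]),(z1,[z2,y2,z0,z0,z1]),(z5,[y2,
    y13,y15,y15,y13,z15])],.ref k12 k0 [(z1,[z4,z3,z4,z4,z4,y4]),(z1,[y8,z0,y5,y8,y8,z8]),(z1,[y5,z0,y5,y2,y5,z5]),
    (z1,[z10,z0,z10,z10,z13,y10]),(z1,[y2,y3,y5,y5,y5,z5])],.ref k12 k0 [(z1,[z4,z3,y4,z0,y4]),(z1,[y8,z0,z11,z0,z8]),
    (z1,[y5,z0,z5,z3,z5]),(z1,[z10,z0,y10,z0,y7]),(z1,[y2,y3,y1,y3,y1,z3])],.ref k12 k0 [(z5,[z4,z15,z0,y4,y8]),(z5,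
    [y8,z0,z15,z8,z16]),(z1,[y1,z0,z0,z4,z2]),(z1,[z2,z0,z0,y2,y1]),(z5,[y2,y15,y15,y13,y11,z15])],.ref k12 k0 [(z1,
    [z2,z3,z0,y2,y2]),(z1,[y4,z0,z3,z4,z4]),(z2,[y5,z0,z0,z11,z5]),(z1,[z5,z0,z0,y5,y2]),(z1,[y1,y3,y3,y2,y2,z3])],
    .ref k12 k0 [(z5,[z2,z15,z0,z0,y6]),(z5,[y4,z0,z15,z0,z12]),(z2,[y1,z0,z0,z6,z3]),(z1,[z1]),(z5,[y1,y15,y15,y15,
    y12,z15])],.ref k12 k0 [(z3,[z2,z11,z2,z2,y2,y2]),(z3,[y4,y4,z5,y4,z4,z4]),(z6,[y5,y5,y5,z13,z5,z5]),(z3,[z5,z5,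
    z5,z5,z4,y5]),(z3,[y1,y10,y10,y10,y8,z10])],.ref k12 k0 [(z7,[z4,z21,z0,z0,y8]),(z7,[y8,z0,z21,z0,z16]),(z7,[y5,
    z0,z0,z21,z10]),(z7,[z10,z0,z0,z0,z1]),(z7,[y2,y21,y21,y21,y17,z21])],.ref k12 k0 [(z3,[z4,z13,z4,z4,z0,y4]),(z3,
    [y8,y8,z1,y8,z0,z8]),(z3,[y5,y5,y5,z4,z0,z5]),(z3,[z10,z10,z10,z10,z9,y10]),(z3,[y2,y11,y11,y11,y9,z11])],
    .ref k12 k0 [(z1,[z1,z3,z0,z0,y1]),(z1,[y2,z0,z3,z0,z2]),(z4,[y5,z0,z0,z12,z5]),(z2,[z5,z0,z0,z0,z1]),(z2,[y1,y6,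
    y6,y6,y5,z6])]],
    .lp [k150,k178,k156,k160,k150,k164] [k14,k14,k0,k0,k11,k11,k9,k9,k14,k14,k7,k7] k0 [[k0,k0,k0,k0,k0,k0,k0,k0,k2,k0,
    k16],[k0,k0,k0,k18],[k18,k0,k0,k0,k4],[k0,k0,k0,k0,k0,k0,k0,k6],[k0,k0,k0,k0,k0,k0,k10],[k0,k0,k0,k4,k0,k0,k0,k0,
    k0,k0,k0,k22],[k0,k0,k6,k0,k0,k0,k0,k0,k34],[k0,k0,k0,k0,k0,k10],[k0,k0,k0,k0,k0,k0,k0,k0,k0,k0,k4],[k0,k2,k0,k0,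
    k0,k0,k0,k34],[k0,k0,k0,k0,k22],[k0,k16,k0,k0,k0,k0,k0,k0,k0,k4]] (nat_lit 480) k5
    [[(k0,k134),(k8,k146),(k6,k155),(k10,k157),(k2,k164),(k4,k175)],[(k1,k134),(k9,k150),(k7,k155),(k11,k155),(k3,
    k164),(k5,k171)],[(k2,k160),(k0,k164),(k8,k166),(k4,k167),(k6,k169),(k10,k187)],[(k3,k160),(k1,k164),(k7,k165),
    (k5,k167),(k9,k170),(k11,k171)],[(k6,k152),(k8,k153),(k4,k160),(k10,k160),(k2,k167),(k0,k171)],[(k9,k143),(k7,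
    k158),(k5,k160),(k11,k160),(k3,k167),(k1,k175)],[(k10,k140),(k0,k155),(k8,k155),(k4,k158),(k2,k165),(k6,k170)],
    [(k11,k128),(k5,k152),(k1,k155),(k9,k155),(k3,k169),(k7,k170)],[(k4,k143),(k0,k150),(k6,k155),(k10,k157),(k2,
    k170),(k8,k184)],[(k1,k146),(k5,k153),(k7,k155),(k11,k157),(k3,k166),(k9,k184)],[(k6,k128),(k0,k155),(k8,k157),
    (k4,k160),(k10,k168),(k2,k171)],[(k7,k140),(k1,k157),(k9,k157),(k5,k160),(k11,k168),(k3,k187)]]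
    [] k0
    [[k3,k0,k0,k0,k0,k0],[k2,k1,k0,k0,k0,k0],[k2,k0,k0,k1,k0,k0],[k2,k0,k0,k0,k1,k0],[k2,k0,k0,k0,k0,k1],[k1,k0,k1,k0,
    k1,k0],[k1,k0,k0,k1,k1,k0],[k1,k0,k0,k1,k0,k1],[k1,k0,k0,k0,k1,k1],[k0,k1,k1,k0,k1,k0],[k0,k0,k2,k1,k0,k0],[k0,k0,
    k2,k0,k1,k0],[k0,k0,k1,k1,k1,k0],[k0,k0,k1,k1,k0,k1],[k0,k0,k1,k0,k1,k1],[k0,k0,k0,k2,k0,k1],[k0,k0,k0,k1,k1,k1],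
    [k0,k0,k0,k1,k0,k2]]
    [.ref k160 k0 [(z1,[z1]),(z2,[y1,z3,z3]),(z1,[y1,z3,z0,z3]),(z1,[z1,y3])],.ref k160 k0 [(z1,[z2,y1,y1]),(z1,[y1,
    z2,z2]),(z1,[y2,z4,z1,z3]),(z1,[z2,y4,y1])],.ref k161 k10 [(z1,[y2,z4,z4,z1]),(z1,[z2,z0,z0,y1]),(z1,[y2,z4,z0,
    z5]),(z1,[z2,y12,y4,y13,z8])],.ref k84 k6 [(z1,[z2,y2,y4,z3,y2]),(z1,[y1,z1,z2,y1,z1]),(z1,[z1,y2,y2]),(z1,[y2,z2,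
    z3,y2,z2])],.ref k14 k3 [(z1,[z0,z1,z1]),(z1,[y1,z1,z0,z1]),(z1,[z1,y1]),(z2,[y1,y2,y1,y2,z2])],.ref k162 k0 [(z1,
    [z2,z3,z1,z0,y2]),(z1,[y1,z0,z1,z0,z1]),(z1,[z0,z0,z0,z1]),(z1,[z1,y3,y1,y3,z2])],.ref k160 k0 [(z1,[z2,z3,z1,z2,
    y2]),(z1,[y1,z0,z1,y1,z1]),(z1,[y2,z0,y1,z1,z2]),(z1,[z2,z0,z1,z2,y2])],.ref k163 k6 [(z1,[y2,z2,z0,z3]),(z1,[z1,
    y1]),(z1,[y1,y2,z0,y3,z3]),(z1,[z2,y2,y3])],.ref k14 k3 [(z1,[z0,z1,z1]),(z1,[y2,y1,y1,y1,z2]),(z1,[z2,z1,z1,z2,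
    y2]),(z1,[y1,y2,y1,y2,z2])],.ref k163 k6 [(z1,[z2,z2,z0,z3,y2]),(z1,[y1,y1,z0,z0,z1]),(z1,[z1,y2,z0,y3,z2]),(z1,
    [y2,y2,y3,z0,z2])],.ref k163 k6 [(z1,[z2,z0,z0,y1]),(z1,[y1,z0,z0,z2]),(z1,[z1,y3,z0,y5,z3]),(z1,[y2,z0,y3,z4])],
    .ref k164 k8 [(z1,[z1,z0,z0,y2]),(z1,[y2,y2,y1,z2,z2]),(z1,[z2,z3,z1,y2,y2]),(z1,[y1,y1,z0,z1,z1])],
    .ref k23 k6 [(z1,[z1,z1,z0,z1,y1]),(z1,[y1,y1,z0,z0,z1]),(z1,[z1,y1,z0,y2,z1]),(z1,[y1,y1,y1,z0,z1])],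
    .ref k10 k6 [(z1,[y2,z0,y2,z3]),(z1,[z1,z0,z1,y1]),(z1,[y1,y1,y1,z0,z1]),(z1,[z2,z0,z1,y2])],.ref k14 k3 [(z1,[z0,
    z1,z1]),(z1,[z2,z1,z1,z1,y2]),(z1,[y2,y1,y1,z0,z2]),(z1,[z1,y1,z0,y1])],.ref k23 k6 [(z2,[y1,z0,y1,z2]),(z2,[z1,
    z0,z1]),(z2,[y1,y4,y1,y4,z4]),(z2,[z1,z0,y1])],.ref k23 k6 [(z1,[y1,y1,y1,z0,z1]),(z1,[z1,z1,z1,z1,y1]),(z1,[y1,
    y3,y1,y3,z3]),(z1,[z1,z1,z0,z1,y1])],.ref k165 k2 [(z1,[z1,z4,z2,z4,y4]),(z1,[y2,y8,y4,y7,z8]),(z1,[y1,y5,y2,y5,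
    z5]),(z1,[z2,z11,z5,z10,y10])]],
    .leafM k0 [k0,k1,k2,k3,k4,k5] [(z1,[z0,z1,z1,z1])] [],
    .lp [k168,k170,k154,k164,k140,k162] [k1,k1,k0,k0,k8,k8,k3,k3,k15,k15,k4,k4] k0 [[k0,k0,k0,k0,k0,k0,k0,k0,k4,k0,k8],
    [k0,k0,k0,k0,k0,k0,k0,k8],[k0,k0,k0,k0,k8,k0,k0,k0,k0,k0,k10],[k0,k0,k0,k0,k0,k0,k0,k0,k0,k4],[k0,k0,k0,k0,k0,k0,
    k12],[k0,k0,k0,k8],[k8],[k0,k0,k0,k0,k0,k12],[k0,k0,k4],[k0,k4,k0,k0,k0,k0,k0,k0,k0,k0,k0,k8],[k0,k0,k0,k0,k0,k0,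
    k0,k0,k8],[k0,k8,k0,k10]] (nat_lit 480) k5
    [[(k2,k159),(k0,k160),(k4,k161),(k8,k162),(k10,k165),(k6,k166)],[(k1,k160),(k5,k161),(k11,k161),(k9,k162),(k7,
    k166),(k3,k169)],[(k6,k159),(k8,k159),(k4,k162),(k0,k169),(k2,k170),(k10,k174)],[(k9,k155),(k1,k159),(k7,k159),
    (k5,k162),(k3,k170),(k11,k170)],[(k8,k143),(k6,k159),(k0,k161),(k2,k162),(k4,k162),(k10,k168)],[(k9,k135),(k11,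
    k158),(k7,k159),(k1,k161),(k3,k162),(k5,k162)],[(k8,k152),(k2,k159),(k4,k159),(k10,k163),(k0,k166),(k6,k176)],
    [(k9,k152),(k3,k159),(k5,k159),(k11,k163),(k1,k166),(k7,k176)],[(k4,k135),(k8,k140),(k10,k151),(k6,k152),(k2,
    k155),(k0,k162)],[(k9,k140),(k5,k143),(k11,k151),(k7,k152),(k3,k159),(k1,k162)],[(k8,k151),(k10,k154),(k4,k158),
    (k0,k161),(k6,k163),(k2,k170)],[(k9,k151),(k11,k154),(k7,k163),(k1,k165),(k5,k168),(k3,k174)]]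
    [] k0
    [[k1,k0,k1,k0,k1,k0],[k1,k0,k0,k0,k2,k0],[k1,k0,k0,k0,k1,k1],[k0,k1,k1,k0,k1,k0],[k0,k1,k0,k1,k1,k0],[k0,k1,k0,k0,
    k2,k0],[k0,k0,k2,k0,k1,k0],[k0,k0,k1,k1,k1,k0],[k0,k0,k1,k0,k2,k0],[k0,k0,k1,k0,k1,k1],[k0,k0,k0,k1,k2,k0],[k0,k0,
    k0,k1,k1,k1],[k0,k0,k0,k0,k3,k0],[k0,k0,k0,k0,k2,k1],[k0,k0,k0,k0,k1,k2],[k0,k0,k0,k0,k0,k3]]
    [.ref k12 k0 [(z40,[z8,z15,z2,z0,z1,y8]),(z20,[y8,z0,z13,z0,y1,z8]),(z10,[z8,z0,z2,z15,z1,y8]),(z4,[y4,z0,y1,z0,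
    z1,z4]),(z8,[z16,y3,y2,y12,y1,z8])],.ref k12 k0 [(z28,[z4,z11,z2,z4,z1,y8]),(z28,[y8,y1,z17,y8,y2,z16]),(z14,[z8,
    z1,z4,z29,z2,y16]),(z56,[y40,y5,y20,y40,z11,z80]),(z56,[z80,y11,y2,y4,y1,z8])],.ref k12 k0 [(z8,[z8,z3,z2,z4,z1,
    y8]),(z4,[y8,z0,z1,y4,y1,z8]),(z2,[z8,z0,z2,z7,z1,y8]),(z4,[y20,z0,y5,y10,y1,z20]),(z8,[z80,y3,z14,z28,z7,y56])],
    .ref k12 k0 [(z32,[z8,z13,z0,z0,z1,y8]),(z16,[y8,y1,z12,z0,y1,z8]),(z8,[z8,z1,z0,z12,z1,y8]),(z32,[y40,y5,z0,z0,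
    z7,z40]),(z16,[z40,y1,y12,y24,y1,z8])],.ref k12 k0 [(z2,[z2,z1,z0,z1,z0,y2]),(z4,[y8,y1,z3,y4,z0,z8]),(z2,[z8,z1,
    z0,z7,z0,y8]),(z8,[y40,y5,z0,y20,z3,z40]),(z8,[z80,z7,y6,z28,y3,y56])],.ref k12 k0 [(z24,[z4,z10,z1,z4,z1,y8]),
    (z12,[y4,y1,z8,y4,y1,z8]),(z6,[z4,z1,z1,z13,z1,y8]),(z24,[y20,y5,y5,y20,z4,z40]),(z24,[z40,z1,y8,z4,z1,y8])],
    .ref k12 k0 [(z48,[z8,z19,z2,y4,z1,y8]),(z24,[y8,y1,z16,z4,y1,z8]),(z12,[z8,z1,z2,z14,z1,y8]),(z48,[y40,y5,y10,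
    z20,z13,z40]),(z6,[z10,y1,y2,y14,y1,z8])],.ref k12 k0 [(z12,[z4,z5,z1,z0,z0,y4]),(z12,[y8,y1,z7,z0,z0,z8]),(z6,
    [z8,z1,z2,z9,z0,y8]),(z24,[y40,y5,y10,z0,z9,z40]),(z24,[z80,z1,z2,y36,y9,y8])],.ref k12 k0 [(z32,[z4,z13,z2,z2,z1,
    y8]),(z16,[y4,y1,z10,y2,y1,z8]),(z8,[z4,z1,z2,z14,z1,y8]),(z32,[y20,y5,y10,y10,z7,z40]),(z16,[z20,y1,y2,y14,y1,
    z8])],.ref k12 k0 [(z16,[z8,z7,z2,z0,z1,y8]),(z8,[y8,y1,z4,z0,y1,z8]),(z4,[z8,z1,z2,z6,z1,y8]),(z16,[y40,y5,y10,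
    z0,z1,z40]),(z4,[z20,z1,z2,y6,z1,y8])],.ref k12 k0 [(z40,[z8,z17,z4,z8,z1,y16]),(z20,[y8,y2,z11,y8,y1,z16]),(z10,
    [z8,z2,z4,z23,z1,y16]),(z4,[y4,y1,y2,y4,z1,z8]),(z8,[z16,z1,z2,z4,y1,y8])],.ref k12 k0 [(z4,[y4,z1,y1,y2,z0,z4]),
    (z4,[z8,z1,z5,z4,z0,y8]),(z2,[y8,y1,y2,y1,z0,z8]),(z8,[z40,z5,z10,z20,z3,y40]),(z8,[y80,y13,y26,y52,y3,
    (Int.ofNat (nat_lit 104))])],.ref k12 k0 [(z80,[z8,z33,z6,z12,z3,y24]),(z40,[y8,y3,z24,y12,y3,z24]),(z20,[z8,z3,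
    z6,z42,z3,y24]),(z16,[y8,y3,y6,y12,z3,z24]),(z1,[z1])],.ref k12 k0 [(z16,[z4,z7,z2,z4,z1,y8]),(z8,[y4,y1,z4,y4,y1,
    z8]),(z4,[z4,z1,z2,z10,z1,y8]),(z16,[y20,y5,y10,y20,z1,z40]),(z4,[z10,z1,z2,z4,z1,y8])],.ref k12 k0 [(z16,[y8,z5,
    y2,y4,y1,z8]),(z8,[z8,z1,z8,z4,z1,y8]),(z4,[y8,y1,y2,z2,y1,z8]),(z16,[z40,z5,z10,z20,z11,y40]),(z1,[y5,y1,y2,y4,
    y1,z8])],.ref k12 k0 [(z8,[y1,z3]),(z4,[z1,z0,z3]),(z2,[y1,z0,z0,z3]),(z8,[z5,z0,z0,z0,z3]),(z8,[y10,y3,y6,y12,y3,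
    z24])]],
    .lp [(nat_lit 204),(nat_lit 206),(nat_lit 212),(nat_lit 204),k194,(nat_lit 202)] [k4,k4,k3,k3,k0,k0,k4,k4,k9,k9,k5,
    k5] k0 [[k0,k0,k0,k0,k0,k0,k20,k0,k50],[k0,k0,k0,k12],[k12,k0,k0,k0,k0,k0,k0,k0,k0,k0,k22],[k0,k0,k0,k0,k0,k0,k0,
    k10],[k0,k0,k0,k0,k0,k0,k16],[k0,k0,k0,k0,k0,k0,k0,k0,k0,k6,k0,k2],[k0,k0,k10,k0,k0,k0,k0,k0,k28],[k0,k20,k0,k0,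
    k0,k16],[k0,k0,k0,k0,k6,k0,k0,k0,k0,k0,k2],[k0,k50,k0,k0,k0,k0,k0,k28],[k0,k0,k0,k0,k2],[k0,k0,k0,k22,k0,k0,k0,k0,
    k0,k2]] (nat_lit 612) k5
    [[(k2,k183),(k8,k197),(k10,(nat_lit 203)),(k0,(nat_lit 204)),(k6,(nat_lit 204)),(k4,(nat_lit 210))],[(k11,k153),
    (k9,k179),(k1,(nat_lit 204)),(k7,(nat_lit 204)),(k3,(nat_lit 205)),(k5,(nat_lit 220))],[(k2,k194),(k10,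
    (nat_lit 204)),(k0,(nat_lit 205)),(k4,(nat_lit 209)),(k6,(nat_lit 225)),(k8,(nat_lit 250))],[(k1,k183),(k3,k194),
    (k11,(nat_lit 204)),(k7,(nat_lit 205)),(k5,(nat_lit 209)),(k9,(nat_lit 210))],[(k6,k198),(k8,(nat_lit 203)),(k2,
    (nat_lit 209)),(k4,(nat_lit 212)),(k0,(nat_lit 220)),(k10,(nat_lit 229))],[(k9,k187),(k7,(nat_lit 208)),(k3,
    (nat_lit 209)),(k1,(nat_lit 210)),(k5,(nat_lit 212)),(k11,(nat_lit 213))],[(k8,k193),(k10,(nat_lit 201)),(k0,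
    (nat_lit 204)),(k2,(nat_lit 205)),(k4,(nat_lit 208)),(k6,(nat_lit 220))],[(k11,k175),(k5,k198),(k9,k199),(k1,
    (nat_lit 204)),(k7,(nat_lit 220)),(k3,(nat_lit 225))],[(k0,k179),(k4,k187),(k10,k198),(k6,k199),(k2,
    (nat_lit 210)),(k8,(nat_lit 222))],[(k7,k193),(k1,k197),(k11,k198),(k5,(nat_lit 203)),(k9,(nat_lit 222)),(k3,
    (nat_lit 250))],[(k0,k153),(k6,k175),(k8,k198),(k2,(nat_lit 204)),(k10,(nat_lit 204)),(k4,(nat_lit 213))],[(k9,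
    k198),(k7,(nat_lit 201)),(k1,(nat_lit 203)),(k3,(nat_lit 204)),(k11,(nat_lit 204)),(k5,(nat_lit 229))]]
    [] k0
    [[k2,k1,k0,k0,k0,k0],[k2,k0,k0,k0,k1,k0],[k2,k0,k0,k0,k0,k1],[k1,k2,k0,k0,k0,k0],[k1,k1,k0,k0,k0,k1],[k1,k0,k1,k0,
    k1,k0],[k1,k0,k1,k0,k0,k1],[k1,k0,k0,k1,k1,k0],[k1,k0,k0,k1,k0,k1],[k1,k0,k0,k0,k2,k0],[k1,k0,k0,k0,k1,k1],[k1,k0,
    k0,k0,k0,k2],[k0,k3,k0,k0,k0,k0],[k0,k2,k0,k0,k0,k1],[k0,k1,k0,k1,k0,k1],[k0,k0,k2,k0,k1,k0],[k0,k0,k1,k1,k1,k0],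
    [k0,k0,k0,k2,k0,k1],[k0,k0,k0,k1,k1,k1],[k0,k0,k0,k1,k0,k2],[k0,k0,k0,k0,k1,k2]]
    [.ref k12 k0 [(z2,[z9,y4,y3]),(z1,[y6,z4,z3]),(z1,[z3,y2,y1,z1]),(z1,[y3,z2,z1,z0,z3]),(z2,[z3,y2,y1])],
    .ref k12 k0 [(z7,[z9,z1]),(z7,[y12,z8,z7]),(z7,[z6,y4,z0,z7]),(z7,[y6,z4,z0,z0,z21]),(z7,[z3,y2])],
    .ref k12 k0 [(z2,[z3,z1,z1,z1,z3,y3]),(z3,[y6,z2,z1,y2,y6,z6]),(z3,[z3,y1,z1,z4,z3,y3]),(z3,[y3,z1,y1,y1,z6,z3]),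
    (z6,[z3,y1,z1,z1,z3,y3])],.ref k12 k0 [(z5,[y9,z8,z6]),(z5,[z12,y4,y3]),(z5,[y6,z2,z4,z5]),(z5,[z6,y2,y4,z0,z15]),
    (z5,[y3,z1,z2])],.ref k12 k0 [(z1,[y9,z1,z0,y3,y9,z9]),(z1,[z12,z0,z1,z4,z12,y12]),(z1,[y6,z0,z0,y1,y6,z6]),(z1,
    [z6,z0,z0,z2,z9,y6]),(z1,[y3,z0,z0,y1,y3,z3])],.ref k12 k0 [(z2,[z3,z1,z0,y1]),(z3,[y6,z2,z3,z2]),(z3,[z3,y1,z0,
    z2]),(z3,[y3,z1,z0,z1,z9]),(z6,[z3,y1,z0,y1])],.ref k12 k0 [(z5,[z9,z5,z3,z0,z9,y9]),(z5,[y12,z0,z1,z0,y12,z12]),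
    (z5,[z6,z0,z2,z5,z6,y6]),(z5,[y6,z0,y2,z0,z9,z6]),(z5,[z3,z0,z1,z0,z3,y3])],.ref k12 k0 [(z2,[z9,y1,z0,z0,y9]),
    (z1,[y6,z2,z1,z0,z6]),(z1,[z3,y1,z0,z1,y3]),(z1,[y3,z1,z0,z0,z6]),(z2,[z3,y1,z0,z0,y3])],.ref k12 k0 [(z1,[z9,z1,
    z3,z3,z0,y9]),(z1,[y12,z0,y3,y4,z0,z12]),(z1,[z6,z0,z2,z3,z0,y6]),(z1,[y6,z0,y2,y2,z3,z6]),(z1,[z3,z0,z1,z1,z0,
    y3])],.ref k12 k0 [(z5,[z9,z2]),(z5,[y12,z4,z5]),(z5,[z6,y2,z0,z5]),(z5,[y6,z2,z0,z0,z15]),(z5,[z3,y1])],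
    .ref k12 k0 [(z4,[z9,z4,z3,z3,z9,y9]),(z1,[y3,z0,z0,y1,y3,z3]),(z2,[z3,z0,z1,z3,z3,y3]),(z2,[y3,z0,y1,y1,z3,z3]),
    (z4,[z3,z0,z1,z1,z3,y3])],.ref k12 k0 [(z1,[z3,z2,z2,z2,z6,y6]),(z3,[y12,y4,y5,y8,y24,z24]),(z3,[z6,z2,z4,z7,z12,
    y12]),(z3,[y6,y2,y4,y4,y3,z12]),(z3,[z3,z1,z2,z2,z6,y6])],.ref k12 k0 [(z4,[y3,z4,z3]),(z1,[z1]),(z2,[y1,z0,z1,
    z2]),(z2,[z1,z0,y1,z0,z6]),(z4,[y1,z0,z1])],.ref k12 k0 [(z8,[y9,z5,z3,y3,y9,z9]),(z2,[z3,z1,z1,z1,z3,y3]),(z4,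
    [y3,y1,z1,z3,y3,z3]),(z4,[z3,z1,y1,z1,z15,y3]),(z8,[y3,y1,z1,y1,y3,z3])],.ref k12 k0 [(z2,[y3,z1,z0,y1,z0,z3]),
    (z3,[z6,z2,z3,z2,z0,y6]),(z3,[y3,y1,z0,z2,z0,z3]),(z3,[z3,z1,z0,z1,z9,y3]),(z6,[y3,y1,z0,y1,z0,z3])],
    .ref k12 k0 [(z5,[z9,z5,z0,y6]),(z5,[y12,z0,z5,z8]),(z5,[z6,z0,z0,z1]),(z5,[y6,z0,z0,z4,z15]),(z5,[z3,z0,z0,y2])],
    .ref k12 k0 [(z1,[z9,z1,z0,y3,y9]),(z1,[y12,z0,z1,z4,z12]),(z1,[z6,z0,z0,y1,y6]),(z1,[y6,z0,z0,z2,z9]),(z1,[z3,z0,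
    z0,y1,y3])],.ref k12 k0 [(z4,[y9,z1,y3,y3,z9,z9]),(z1,[z3,z1,z2,z1,y3,y3]),(z2,[y3,y1,y1,z1,z3,z3]),(z2,[z3,z1,z1,
    z1,z3,y3]),(z4,[y3,y1,y1,y1,z3,z3])],.ref k12 k0 [(z1,[y9,y2,y3,y3,z0,z9]),(z1,[z12,z4,z5,z4,z0,y12]),(z1,[y6,y2,
    y2,y1,z0,z6]),(z1,[z6,z2,z2,z2,z3,y6]),(z1,[y3,y1,y1,y1,z0,z3])],.ref k12 k0 [(z2,[y9,y4,y6,y6,y9,z18]),(z1,[z6,
    z4,z5,z4,z6,y12]),(z1,[y3,y2,y2,y1,y3,z6]),(z1,[z3,z2,z2,z2,z6,y6]),(z2,[y3,y2,y2,y2,y3,z6])],.ref k12 k0 [(z1,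
    [z9,z7,z6,z6,z18,y18]),(z1,[y12,y8,y7,y8,y24,z24]),(z1,[z6,z4,z4,z5,z12,y12]),(z1,[y6,y4,y4,y4,y9,z12]),(z1,[z3,
    z2,z2,z2,z6,y6])]]]

noncomputable def cT6_3_n3_3 : List TN :=
  [.lp [k160,k170,k136,k180,k132,k180] [k10,k10,k5,k5,k22,k22,k0,k0,k24,k24,k0,k0] k0 [[k0,k0,k0,k0,k0,k0,k0,k0,k10],[k0,
    k0,k0,k0,k0,k8,k0,k6],[k0,k0,k0,k0,k0,k0,k0,k0,k0,k0,k20],[k0,k0,k0,k0,k0,k2],[k8,k0,k2],[k0,k0,k0,k0,k0,k0,k0,k0,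
    k0,k10,k0,k24],[k6,k0,k0,k0,k0,k0,k0,k0,k36],[k0,k0,k0,k0,k0,k0,k0,k0,k0,k0,k0,k12],[k0,k0,k0,k0,k10],[k0,k10,k0,
    k0,k0,k0,k0,k36],[k0,k0,k0,k0,k24,k0,k12],[k0,k0,k0,k20]] (nat_lit 480) k5
    [[(k2,k145),(k8,k146),(k0,k160),(k10,k170),(k4,k172),(k6,k182)],[(k5,k148),(k9,k152),(k1,k160),(k11,k160),(k3,
    k165),(k7,k178)],[(k4,k145),(k8,k161),(k0,k165),(k6,k169),(k2,k170),(k10,k175)],[(k1,k145),(k9,k151),(k5,k153),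
    (k3,k170),(k11,k175),(k7,k177)],[(k4,k134),(k8,k134),(k0,k148),(k2,k153),(k6,k158),(k10,k178)],[(k5,k134),(k9,
    k134),(k3,k145),(k7,k158),(k11,k168),(k1,k172)],[(k8,k146),(k10,k156),(k4,k158),(k2,k177),(k0,k178),(k6,k180)],
    [(k11,k144),(k9,k156),(k5,k158),(k3,k169),(k7,k180),(k1,k182)],[(k4,k134),(k10,k144),(k2,k151),(k0,k152),(k6,
    k156),(k8,k168)],[(k5,k134),(k1,k146),(k7,k146),(k11,k156),(k3,k161),(k9,k168)],[(k6,k144),(k8,k156),(k0,k160),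
    (k4,k168),(k2,k175),(k10,k180)],[(k9,k144),(k7,k156),(k1,k170),(k3,k175),(k5,k178),(k11,k180)]]
    [] k0
    [[k2,k1,k0,k0,k0,k0],[k2,k0,k0,k0,k1,k0],[k1,k1,k1,k0,k0,k0],[k1,k1,k0,k0,k1,k0],[k1,k0,k2,k0,k0,k0],[k1,k0,k1,k0,
    k1,k0],[k1,k0,k0,k0,k2,k0],[k1,k0,k0,k0,k1,k1],[k0,k2,k1,k0,k0,k0],[k0,k1,k2,k0,k0,k0],[k0,k1,k1,k0,k1,k0],[k0,k1,
    k0,k1,k1,k0],[k0,k0,k3,k0,k0,k0],[k0,k0,k2,k1,k0,k0],[k0,k0,k2,k0,k1,k0],[k0,k0,k1,k1,k1,k0],[k0,k0,k1,k0,k2,k0],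
    [k0,k0,k1,k0,k1,k1],[k0,k0,k0,k1,k2,k0],[k0,k0,k0,k1,k1,k1],[k0,k0,k0,k0,k2,k1]]
    [.ref k12 k0 [(z8,[z14,y1,y7]),(z4,[y2,z1,z7]),(z4,[y2,z1,z1,z6]),(z8,[z2,y1,y1,z0,z6]),(z4,[y8,z1,y2,y6,y3,
    z12])],.ref k12 k0 [(z8,[z28,y1,z14,z14,z7,y28]),(z4,[y4,z1,z4,y2,y1,z4]),(z4,[y4,z1,y2,z4,y1,z4]),(z8,[z4,y1,z2,
    z2,z7,y4]),(z4,[y16,z1,y14,y14,y7,z28])],.ref k12 k0 [(z2,[z14,y2,y7,y7]),(z2,[y4,z1,z5,z2]),(z2,[y4,z1,z2,z5]),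
    (z4,[z4,y1,y2,y2,z3]),(z4,[y32,z5,z10,z10,y3,z12])],.ref k12 k0 [(z4,[y28,z3,z0,y14,y7,z28]),(z2,[z4,z0,z3,z2,z1,
    y4]),(z2,[z4,z0,z0,z5,z1,y4]),(z2,[y2,z0,z0,y1,z1,z2]),(z4,[z32,y3,y6,z10,z5,y20])],.ref k12 k0 [(z1,[z7,y1,z0,
    y7]),(z2,[y4,z1,z3,z4]),(z2,[y4,z1,z0,z7]),(z4,[z4,y1,z0,y4,z3]),(z4,[y32,z5,y6,z26,y3,z12])],.ref k12 k0 [(z4,
    [y28,z3,y14,z0,y7,z28]),(z2,[z4,z0,z5,z0,z1,y4]),(z2,[z4,z0,z2,z3,z1,y4]),(z2,[y2,z0,y1,z0,z1,z2]),(z4,[z32,y3,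
    z10,y6,z5,y20])],.ref k12 k0 [(z6,[y14,z1,y14,y14,y7,z28]),(z6,[z4,z1,z13,z4,z2,y8]),(z6,[z4,z1,z4,z13,z2,y8]),
    (z12,[y4,y1,y4,y4,z7,z8]),(z12,[z32,y1,z14,z14,z7,y28])],.ref k12 k0 [(z4,[z28,z3,z14,z14,z7,y28]),(z2,[y4,z0,z1,
    y2,y1,z4]),(z2,[y4,z0,y2,z1,y1,z4]),(z2,[z2,z0,z1,z1,z2,y2]),(z4,[y32,y3,y22,y22,y11,z44])],.ref k12 k0 [(z4,[y14,
    z3,z14,z7]),(z2,[z2,z0,z1,y1]),(z1,[z1,z0,y1,z1]),(z4,[y2,z0,z2,z1,z3]),(z4,[z16,y3,y22,y14,y3,z12])],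
    .ref k12 k0 [(z4,[y14,z3,z7,z14]),(z1,[z1,z0,z1,y1]),(z2,[z2,z0,y1,z1]),(z4,[y2,z0,z1,z2,z3]),(z4,[z16,y3,y14,y22,
    y3,z12])],.ref k12 k0 [(z16,[y28,z5,z0,z0,y7,z28]),(z8,[z4,z1,z12,z0,z1,y4]),(z8,[z4,z1,z0,z12,z1,y4]),(z16,[y4,
    y1,z0,z0,z11,z4]),(z4,[z8,y1,y6,y6,y1,z4])],.ref k12 k0 [(z6,[y14,z1,z0,y7,z0,z14]),(z6,[z4,z1,z9,z2,z0,y4]),(z6,
    [z4,z1,z0,z11,z0,y4]),(z12,[y4,y1,z0,y2,z9,z4]),(z12,[z32,y1,y18,y2,y9,z4])],.ref k12 k0 [(z4,[y14,z3,z0,z21]),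
    (z2,[z2,z0,z3,y3]),(z1,[z1]),(z4,[y2,z0,z0,z3,z3]),(z4,[z16,y3,y6,y30,y3,z12])],.ref k12 k0 [(z4,[y28,z3,z0,z28,
    z7]),(z2,[z4,z0,z3,y4,y1]),(z2,[z4,z0,z0,y1,y1]),(z1,[y1,z0,z0,z1,z1]),(z4,[z32,y3,y6,y38,y11,z12])],
    .ref k12 k0 [(z16,[y28,z5,y14,z14,y7,z28]),(z8,[z4,z1,z14,y2,z1,y4]),(z8,[z4,z1,z2,z10,z1,y4]),(z16,[y4,y1,y2,z2,
    z11,z4]),(z4,[z8,y1,y2,y10,y1,z4])],.ref k12 k0 [(z6,[y14,z1,y7,z0,z0,z14]),(z6,[z4,z1,z11,z0,z0,y4]),(z6,[z4,z1,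
    z2,z9,z0,y4]),(z12,[y4,y1,y2,z0,z9,z4]),(z12,[z32,y1,y2,y18,y9,z4])],.ref k12 k0 [(z12,[y14,z2,y14,y7,y7,z28]),
    (z6,[z2,z1,z11,z1,z1,y4]),(z6,[z2,z1,z2,z10,z1,y4]),(z12,[y2,y1,y2,y1,z8,z4]),(z12,[z16,y1,y2,y10,y1,z4])],
    .ref k12 k0 [(z8,[y28,y1,y14,z0,y7,z28]),(z4,[z4,z1,z8,z0,z1,y4]),(z4,[z4,z1,z2,z6,z1,y4]),(z8,[y4,y1,y2,z0,z5,
    z4]),(z4,[z16,z1,z2,y6,z1,y4])],.ref k12 k0 [(z20,[y28,z1,y28,y28,y7,z56]),(z10,[z4,z2,z19,z4,z1,y8]),(z10,[z4,z2,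
    z4,z19,z1,y8]),(z10,[y2,y1,y2,y2,z7,z4]),(z20,[z32,z1,z2,z2,y7,y4])],.ref k12 k0 [(z2,[y14,y2,y7,y7,z0,z14]),(z2,
    [z4,z1,z5,z2,z0,y4]),(z2,[z4,z1,z2,z5,z0,y4]),(z4,[y4,y1,y2,y2,z3,z4]),(z4,[z32,z5,z10,z10,y3,y20])],
    .ref k12 k0 [(z8,[y14,y1,y14,y14,y7,z28]),(z4,[z2,z1,z8,z2,z1,y4]),(z4,[z2,z1,z2,z8,z1,y4]),(z8,[y2,y1,y2,y2,z5,
    z4]),(z4,[z8,z1,z2,z2,z1,y4])]],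
    .lp [(nat_lit 338),(nat_lit 336),(nat_lit 284),(nat_lit 336),(nat_lit 290),(nat_lit 334)] [k0,k0,k1,k1,k27,k27,k1,k1,
    k24,k24,k2,k2] k0 [[k0,k0,k0,k0,k0,k0,k4,k0,k6],[k0,k0,k0,k16],[k16,k0,k0,k0,k0,k0,k0,k0,k0,k0,k6],[k0,k0,k0,k0,
    k0,k4],[k0,k0,k4,k0,k0,k0,k44],[k0,k0,k0,k0,k0,k0,k0,k0,k0,k0,k0,k42],[k0,k0,k0,k0,k0,k0,k0,k0,k48],[k0,k4,k0,k0,
    k0,k44],[k0,k0,k0,k0,k0,k0,k0,k0,k0,k0,k2],[k0,k6,k0,k0,k0,k0,k0,k48],[k0,k0,k0,k0,k42],[k0,k0,k0,k6,k0,k0,k0,k0,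
    k0,k2]] (nat_lit 960) k5
    [[(k8,(nat_lit 312)),(k2,(nat_lit 331)),(k10,(nat_lit 336)),(k6,(nat_lit 337)),(k0,(nat_lit 338)),(k4,
    (nat_lit 353))],[(k9,(nat_lit 310)),(k5,(nat_lit 327)),(k11,(nat_lit 330)),(k3,(nat_lit 337)),(k7,(nat_lit 337)),
    (k1,(nat_lit 338))],[(k4,(nat_lit 310)),(k8,(nat_lit 319)),(k2,(nat_lit 320)),(k10,(nat_lit 335)),(k0,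
    (nat_lit 337)),(k6,(nat_lit 340))],[(k5,(nat_lit 310)),(k9,(nat_lit 313)),(k3,(nat_lit 320)),(k1,(nat_lit 331)),
    (k11,(nat_lit 335)),(k7,(nat_lit 340))],[(k4,(nat_lit 280)),(k8,(nat_lit 287)),(k2,(nat_lit 310)),(k6,
    (nat_lit 310)),(k10,(nat_lit 315)),(k0,(nat_lit 327))],[(k9,(nat_lit 243)),(k5,(nat_lit 280)),(k11,(nat_lit 309)),
    (k3,(nat_lit 310)),(k7,(nat_lit 310)),(k1,(nat_lit 353))],[(k10,(nat_lit 293)),(k4,(nat_lit 310)),(k8,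
    (nat_lit 313)),(k0,(nat_lit 337)),(k2,(nat_lit 340)),(k6,(nat_lit 380))],[(k11,(nat_lit 287)),(k5,(nat_lit 310)),
    (k9,(nat_lit 313)),(k1,(nat_lit 337)),(k3,(nat_lit 340)),(k7,(nat_lit 380))],[(k4,(nat_lit 243)),(k0,
    (nat_lit 310)),(k10,(nat_lit 312)),(k2,(nat_lit 313)),(k6,(nat_lit 313)),(k8,(nat_lit 338))],[(k5,(nat_lit 287)),
    (k1,(nat_lit 312)),(k11,(nat_lit 312)),(k7,(nat_lit 313)),(k3,(nat_lit 319)),(k9,(nat_lit 338))],[(k6,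
    (nat_lit 287)),(k4,(nat_lit 309)),(k8,(nat_lit 312)),(k0,(nat_lit 330)),(k2,(nat_lit 335)),(k10,(nat_lit 336))],
    [(k7,(nat_lit 293)),(k9,(nat_lit 312)),(k5,(nat_lit 315)),(k3,(nat_lit 335)),(k1,(nat_lit 336)),(k11,
    (nat_lit 336))]]
    [] k0
    [[k1,k0,k1,k0,k1,k0],[k1,k0,k0,k0,k1,k1],[k0,k2,k1,k0,k0,k0],[k0,k2,k0,k0,k1,k0],[k0,k1,k2,k0,k0,k0],[k0,k1,k1,k0,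
    k1,k0],[k0,k1,k1,k0,k0,k1],[k0,k0,k3,k0,k0,k0],[k0,k0,k2,k1,k0,k0],[k0,k0,k2,k0,k1,k0],[k0,k0,k2,k0,k0,k1],[k0,k0,
    k1,k1,k1,k0],[k0,k0,k1,k1,k0,k1],[k0,k0,k1,k0,k2,k0],[k0,k0,k1,k0,k1,k1],[k0,k0,k0,k1,k1,k1],[k0,k0,k0,k1,k0,k2]]
    [.ref k162 k0 [(z1,[z4,z3,z4,z0,y4]),(z1,[y2,z0,z1,z0,z2]),(z1,[y1,z0,y1,z1,z1]),(z1,[z2,y3,y1,y3,z1])],
    .ref k123 k6 [(z1,[z1,z0,y3,z2,y1]),(z1,[y2,z0,z3,y2,z2]),(z1,[z2,y1,y3,z1,y1]),(z1,[y1,z0,z1,y1,z1])],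
    .ref k15 k5 [(z1,[z3,z0,y6,z4]),(z1,[z2,z0,z3,y2]),(z1,[y4,z7,z8,z4]),(z1,[z1,z0,y2,y1])],.ref k167 k6 [(z2,[z1,
    z1,y3,z3,y1]),(z1,[y1,y1,z0,y1,z1]),(z1,[z1]),(z2,[y1,y1,y1,y1,z1])],.ref k168 k5 [(z1,[z3,z0,y3,z2]),(z1,[z1,z0,
    z3,y2]),(z1,[y1,z2,z1,z2]),(z1,[z1,z0,y1,y2])],.ref k167 k6 [(z3,[z1,z1,y3,z3,y1]),(z3,[y2,y2,y3,z0,z2]),(z3,[z2,
    y1,z3,y3,z1]),(z3,[y1,y1,y3,z0,z1])],.ref k163 k0 [(z1,[y2,z3,z2,z2]),(z1,[z1,z0,z2,y1]),(z1,[z2,z0,y2,z1]),(z1,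
    [y1,z0,z1,z1])],.ref k169 k7 [(z1,[y2,z0,y9,z6]),(z1,[z2,y3,z9,y9,z3]),(z1,[y1,z0,y6,z3]),(z1,[z0,z1,z2])],
    .ref k163 k0 [(z1,[y2,z3,z0,z4]),(z1,[z1,z0,z3,y2]),(z1,[z2,z0,z0,y1]),(z1,[y1,z0,z0,z2])],.ref k167 k6 [(z4,[z1,
    z1,y3,z3,y1]),(z2,[y1,y1,y3,z1,z1]),(z2,[z1,y1,z3,y3,z1]),(z4,[y1,y1,y5,z1,z1])],.ref k15 k5 [(z1,[z3,z0,z0,z1]),
    (z1,[z2,z0,z7,y4]),(z1,[y4,z7,z0,z8]),(z1,[z1,z0,z0,y2])],.ref k167 k6 [(z1,[z1,z1,z0,z1,y1]),(z1,[y2,y2,y3,z0,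
    z2]),(z1,[z2,z1,z3,y1,y1]),(z1,[y1,y1,y2,z0,z1])],.ref k21 k0 [(z1,[y2,z1,z0,z2]),(z1,[z1,z0,z1,y1]),(z1,[z2,z0,
    z0,y1]),(z1,[y1,z0,z0,z1])],.ref k98 k8 [(z1,[z2,z3,z3,z1,y3]),(z1,[y1,y2,y2,y1,z2]),(z1,[z4,z9,z8,z4,y8]),(z1,
    [y2,y4,y3,y2,z4])],.ref k167 k6 [(z2,[z1,z1,y1,z2,y1]),(z1,[y1,y1,y2,z0,z1]),(z1,[z1,z0,z2,y1]),(z2,[y1,y1,y3,z0,
    z1])],.ref k167 k6 [(z1,[y1,y1,y2,z0,z1]),(z1,[z2,z2,z1,z2,y2]),(z1,[y2,y3,y1,y3,z3]),(z1,[z1,z1,z0,z1,y1])],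
    .ref k170 k6 [(z1,[y1,z0,y7,z4]),(z1,[z1,z0,z1]),(z1,[y1,y2,y1,y2,z2]),(z1,[z1,z0,y1])]]]

/-- the nodes with numbers from 134 -/
noncomputable def cT6_3_n3 : List TN :=
  cT6_3_n3_0 ++ (cT6_3_n3_1 ++ (cT6_3_n3_2 ++ cT6_3_n3_3))

theorem cT6_3_k3 : allI (chkT 6 cT6_3_w tt6 cT6_3_s (blkF [] cT6_3_D)) cT6_3_n3 134 = true := by
  decide +kernel

end Pool.Agent.Lib_MP_fa6e45
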