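import Pool.Agent.Lib_MP_fa6e45.CG6_2d

/-!
MP_fa6e45_co, stage 5: certificates (captain, generated by a program).
-/

namespace Pool.Agent.Lib_MP_fa6e45

noncomputable def cT6_3_n4_0 : List TN :=
  [.lp [(nat_lit 37722720),(nat_lit 42348244),(nat_lit 42348244),(nat_lit 42348244),(nat_lit 43897570),
    (nat_lit 38733150)] [(nat_lit 3087425),(nat_lit 3087425),(nat_lit 774663),(nat_lit 774663),(nat_lit 774663),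
    (nat_lit 774663),(nat_lit 774663),(nat_lit 774663),k0,k0,(nat_lit 2582210),(nat_lit 2582210)] k0 [[k0,k0,k0,k0,k0,
    k0,(nat_lit 5164420),k0,(nat_lit 7230188)],[k0,k0,k0,(nat_lit 8263072),k0,k0,k0,k0,k0,k0,k0,(nat_lit 3610080)],
    [(nat_lit 8263072),k0,k0,k0,k0,k0,k0,k0,k0,k0,(nat_lit 2065768)],[k0,k0,k0,k0,k0,k0,k0,(nat_lit 3098652),k0,
    (nat_lit 7746630)],[k0,k0,k0,k0,k0,k0,k0,k0,k0,k0,(nat_lit 5685600)],[k0,k0,k0,k0,k0,k0,k0,k0,k0,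
    (nat_lit 4131536)],[k0,k0,(nat_lit 3098652),k0,k0,k0,k0,k0,(nat_lit 1549326)],[k0,(nat_lit 5164420),k0,k0,k0,k0,
    k0,k0,k0,k0,k0,(nat_lit 9295956)],[k0,k0,(nat_lit 7746630),k0,(nat_lit 4131536)],[k0,(nat_lit 7230188),k0,k0,k0,
    k0,k0,(nat_lit 1549326)],[(nat_lit 3610080),k0,k0,k0,k0,k0,(nat_lit 9295956)],[k0,k0,k0,(nat_lit 2065768),k0,
    (nat_lit 5685600)]] (nat_lit 123946080) k5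
    [[(k4,(nat_lit 34349882)),(k2,(nat_lit 37969714)),(k10,(nat_lit 38227935)),(k8,(nat_lit 40810145)),(k0,
    (nat_lit 41332800)),(k6,(nat_lit 49331438))],[(k11,(nat_lit 30997747)),(k9,(nat_lit 35645725)),(k3,
    (nat_lit 40035482)),(k7,(nat_lit 40035482)),(k1,(nat_lit 41332800)),(k5,(nat_lit 48298554))],[(k2,
    (nat_lit 34085172)),(k10,(nat_lit 36930617)),(k0,(nat_lit 40035482)),(k4,(nat_lit 42348244)),(k6,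
    (nat_lit 47512664)),(k8,(nat_lit 50353095))],[(k3,(nat_lit 34085172)),(k1,(nat_lit 37969714)),(k5,
    (nat_lit 42348244)),(k7,(nat_lit 42348244)),(k9,(nat_lit 46221559)),(k11,(nat_lit 48287327))],[(k8,
    (nat_lit 35376277)),(k6,(nat_lit 39249592)),(k2,(nat_lit 42348244)),(k4,(nat_lit 42348244)),(k10,
    (nat_lit 42606465)),(k0,(nat_lit 48298554))],[(k1,(nat_lit 34349882)),(k3,(nat_lit 42348244)),(k5,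
    (nat_lit 42348244)),(k7,(nat_lit 42348244)),(k9,(nat_lit 43122907)),(k11,(nat_lit 44672233))],[(k8,
    (nat_lit 38991371)),(k0,(nat_lit 40035482)),(k2,(nat_lit 42348244)),(k4,(nat_lit 42348244)),(k6,
    (nat_lit 42348244)),(k10,(nat_lit 46226297))],[(k11,(nat_lit 38991371)),(k5,(nat_lit 39249592)),(k7,
    (nat_lit 42348244)),(k9,(nat_lit 43122907)),(k3,(nat_lit 47512664)),(k1,(nat_lit 49331438))],[(k10,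
    (nat_lit 32019404)),(k0,(nat_lit 35645725)),(k4,(nat_lit 43122907)),(k6,(nat_lit 43122907)),(k8,
    (nat_lit 45446896)),(k2,(nat_lit 46221559))],[(k5,(nat_lit 35376277)),(k7,(nat_lit 38991371)),(k1,
    (nat_lit 40810145)),(k11,(nat_lit 41315360)),(k9,(nat_lit 45446896)),(k3,(nat_lit 50353095))],[(k0,
    (nat_lit 30997747)),(k10,(nat_lit 38733150)),(k6,(nat_lit 38991371)),(k8,(nat_lit 41315360)),(k4,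
    (nat_lit 44672233)),(k2,(nat_lit 48287327))],[(k9,(nat_lit 32019404)),(k3,(nat_lit 36930617)),(k1,
    (nat_lit 38227935)),(k11,(nat_lit 38733150)),(k5,(nat_lit 42606465)),(k7,(nat_lit 46226297))]]
    [] k0
    [[k2,k1,k0,k0,k0,k0],[k2,k0,k0,k0,k1,k0],[k2,k0,k0,k0,k0,k1],[k1,k2,k0,k0,k0,k0],[k1,k1,k0,k0,k0,k1],[k1,k1,k1,k0,
    k0,k0],[k1,k0,k1,k1,k0,k0],[k1,k0,k1,k0,k1,k0],[k1,k0,k1,k0,k0,k1],[k1,k0,k0,k0,k2,k0],[k1,k0,k0,k0,k1,k1],[k1,k0,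
    k0,k1,k0,k1],[k1,k0,k0,k0,k0,k2],[k0,k3,k0,k0,k0,k0],[k0,k2,k1,k0,k0,k0],[k0,k2,k0,k0,k0,k1],[k0,k1,k0,k1,k0,k1],
    [k0,k0,k2,k0,k1,k0],[k0,k0,k1,k1,k1,k0],[k0,k0,k1,k0,k1,k1],[k0,k0,k0,k1,k1,k1],[k0,k0,k0,k0,k2,k1],[k0,k0,k0,k0,
    k1,k2],[k0,k0,k0,k0,k0,k3]]
    [.ref k12 k0 [(z1,[z3,y1,y3]),(z1,[y3,z2,z6]),(z2,[z3,y2,y3,z6]),(z1,[y3,z2,z3,z0,z3]),(z1,[z0,y1,y3,y3,y3,z3])],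
    .ref k12 k0 [(z2,[z3,z1,z3,z3,z3,y3]),(z2,[y3,z1,z3,y3,y3,z3]),(z4,[z3,y1,z3,z15,z3,y3]),(z2,[y3,z1,y3,y3,z3,z3]),
    (z1,[z0,y1,y3,y3,y3,z3])],.ref k12 k0 [(z5,[z6,z1]),(z5,[y6,z4,z15]),(z5,[z3,y2,z0,z15]),(z5,[y6,z4,z0,z0,z15]),
    (z1,[z0,y1,y3,y3,y3,z3])],.ref k12 k0 [(z1,[y3,z2,z6]),(z1,[z3,y1,y3]),(z2,[y3,z1,z6,z6]),(z1,[z3,y1,y6,z0,z3]),
    (z1,[z0,y1,y3,y3,y3,z3])],.ref k12 k0 [(z1,[z6,y1,y6]),(z1,[y6,z2,z9]),(z1,[z3,y1,y3,z3]),(z1,[y6,z2,z6,z0,z3]),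
    (z1,[z0,y1,y3,y3,y3,z3])],.ref k12 k0 [(z1,[z6,y1,y6,y6]),(z1,[y6,z2,z9,z6]),(z1,[z3,y1,y3]),(z1,[y6,z2,z6,z6,
    z3]),(z1,[z0,y1,y3,y3,y3,z3])],.ref k12 k0 [(z1,[z6,y1,z0,y6,y6]),(z1,[y6,z2,z3,z6,z6]),(z1,[z3,y1,z0,z0,y3]),(z1,
    [y6,z2,z0,z6,z9]),(z1,[z0,y1,y3,y3,y3,z3])],.ref k12 k0 [(z1,[z2,z1,z2,z0,z2,y2]),(z1,[y2,z0,z1,z0,y2,z2]),(z1,
    [z1,z0,z1,z3,z1,y1]),(z1,[y2,z0,y2,z0,z1,z2]),(z1,[z0,y1,y3,y3,y3,z3])],.ref k12 k0 [(z2,[z3,z1,z0,y3]),(z2,[y3,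
    z1,z6,z3]),(z4,[z3,y1,z0,z9]),(z2,[y3,z1,z0,z3,z6]),(z1,[z0,y1,y3,y3,y3,z3])],.ref k12 k0 [(z1,[z3,z2,z6,z6,z6,
    y6]),(z1,[y3,y1,y3,y6,y6,z6]),(z2,[z3,z1,z6,z12,z6,y6]),(z1,[y3,y1,y6,y6,y3,z6]),(z1,[z0,y1,y3,y3,y3,z3])],
    .ref k12 k0 [(z1,[z2,z1,z2,z2,z2,y2]),(z1,[y2,z0,z1,y2,y2,z2]),(z1,[z1,z0,z1,z4,z1,y1]),(z1,[y2,z0,y2,y2,z1,z2]),
    (z1,[z0,y1,y3,y3,y3,z3])],.ref k12 k0 [(z1,[z6,y1,z0,z0,y6]),(z1,[y6,z2,z3,z0,z6]),(z1,[z3,y1,z0,z3,y3]),(z1,[y6,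
    z2,z0,z0,z9]),(z1,[z0,y1,y3,y3,y3,z3])],.ref k12 k0 [(z2,[z3,z1]),(z2,[y3,z1,z6]),(z4,[z3,y1,z0,z12]),(z2,[y3,z1,
    z0,z0,z6]),(z1,[z0,y1,y3,y3,y3,z3])],.ref k12 k0 [(z1,[y1,z1,z3]),(z1,[z1]),(z2,[y1,z0,z3,z6]),(z1,[z1,z0,y3,z0,
    z3]),(z1,[z0,y1,y3,y3,y3,z3])],.ref k12 k0 [(z1,[y2,z1,z4,z2]),(z1,[z2,z0,y1,y2]),(z1,[y1,z0,z2,z4]),(z1,[z2,z0,
    y4,y2,z3]),(z1,[z0,y1,y3,y3,y3,z3])],.ref k12 k0 [(z1,[y2,z1,z4]),(z1,[z2,z0,y1]),(z1,[y1,z0,z2,z3]),(z1,[z2,z0,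
    y4,z0,z3]),(z1,[z0,y1,y3,y3,y3,z3])],.ref k12 k0 [(z1,[y2,z1,z2,z0,z2]),(z1,[z2,z0,z1,z0,y2]),(z1,[y1,z0,z1,z3,
    z1]),(z1,[z2,z0,y2,z0,z1]),(z1,[z0,y1,y3,y3,y3,z3])],.ref k12 k0 [(z1,[z3,z2,z3,y3,z3,y3]),(z1,[y3,y1,z0,z3,y3,
    z3]),(z2,[z3,z1,z3,z3,z3,y3]),(z1,[y3,y1,y3,z3,z0,z3]),(z1,[z0,y1,y3,y3,y3,z3])],.ref k12 k0 [(z1,[y6,y1,y6,z0,z0,
    z6]),(z1,[z6,z2,z9,z0,z0,y6]),(z1,[y3,y1,y3,z3,z0,z3]),(z1,[z6,z2,z6,z0,z3,y6]),(z1,[z0,y1,y3,y3,y3,z3])],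
    .ref k12 k0 [(z1,[z3,z2,z3,z0,z3,y3]),(z1,[y3,y1,z0,z0,y3,z3]),(z2,[z3,z1,z3,z6,z3,y3]),(z1,[y3,y1,y3,z0,z0,z3]),
    (z1,[z0,y1,y3,y3,y3,z3])],.ref k12 k0 [(z1,[y6,y1,y6,y6,z0,z6]),(z1,[z6,z2,z9,z6,z0,y6]),(z1,[y3,y1,y3,z0,z0,z3]),
    (z1,[z6,z2,z6,z6,z3,y6]),(z1,[z0,y1,y3,y3,y3,z3])],.ref k12 k0 [(z1,[z6,z5,z12,z12,z12,y12]),(z1,[y6,y4,y9,y12,
    y12,z12]),(z1,[z3,z2,z6,z9,z6,y6]),(z1,[y6,y4,y12,y12,y9,z12]),(z1,[z0,y1,y3,y3,y3,z3])],.ref k12 k0 [(z1,[z3,z2,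
    z3,z3,z3,y3]),(z1,[y3,y1,z0,y3,y3,z3]),(z2,[z3,z1,z3,z9,z3,y3]),(z1,[y3,y1,y3,y3,z0,z3]),(z1,[z0,y1,y3,y3,y3,
    z3])],.ref k12 k0 [(z1,[z2,z1]),(z1,[y2,z0,z3]),(z1,[z1,z0,z0,z3]),(z1,[y2,z0,z0,z0,z3]),(z1,[z0,y1,y3,y3,y3,
    z3])]],
    .lp [k164,k162,k162,k160,k130,k180] [k8,k8,k9,k9,k9,k9,k10,k10,k25,k25,k0,k0] k0 [[k0,k0,k0,k0,k0,k0,k2,k0,k34],[k0,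
    k0,k0,k0,k0,k0,k0,k0,k0,k0,k0,k24],[k0,k0,k0,k0,k0,k0,k0,k0,k0,k0,k8],[k0,k0,k0,k0,k0,k28,k0,k32],[k0,k0,k28],[k0,
    k0,k0,k0,k0,k0,k0,k0,k0,k18],[k0,k0,k32],[k0,k2,k0,k0,k0,k0,k0,k0,k0,k0,k0,k10],[k0,k0,k0,k0,k18],[k0,k34],[k24,
    k0,k0,k0,k0,k0,k10],[k0,k0,k0,k8]] (nat_lit 480) k5
    [[(k8,k147),(k2,k155),(k4,k163),(k6,k172),(k10,k172),(k0,k188)],[(k11,k138),(k9,k145),(k7,k162),(k3,k163),(k5,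
    k163),(k1,k188)],[(k10,k147),(k2,k162),(k4,k162),(k0,k163),(k6,k163),(k8,k180)],[(k1,k155),(k3,k162),(k5,k162),
    (k11,k171),(k9,k178),(k7,k189)],[(k6,k129),(k4,k134),(k8,k146),(k2,k162),(k0,k163),(k10,k179)],[(k5,k134),(k9,
    k146),(k7,k161),(k3,k162),(k1,k163),(k11,k189)],[(k8,k127),(k6,k160),(k4,k161),(k0,k162),(k10,k170),(k2,k189)],
    [(k5,k129),(k9,k145),(k7,k160),(k3,k163),(k11,k170),(k1,k172)],[(k8,k130),(k0,k145),(k6,k145),(k10,k145),(k4,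
    k146),(k2,k178)],[(k7,k127),(k9,k130),(k5,k146),(k1,k147),(k11,k155),(k3,k180)],[(k0,k138),(k8,k155),(k6,k170),
    (k2,k171),(k10,k180),(k4,k189)],[(k9,k145),(k3,k147),(k7,k170),(k1,k172),(k5,k179),(k11,k180)]]
    [] k0
    [[k1,k1,k0,k0,k0,k1],[k1,k0,k2,k0,k0,k0],[k1,k0,k1,k1,k0,k0],[k1,k0,k1,k0,k1,k0],[k1,k0,k0,k1,k1,k0],[k1,k0,k0,k0,
    k2,k0],[k1,k0,k0,k0,k1,k1],[k0,k1,k2,k0,k0,k0],[k0,k1,k0,k1,k1,k0],[k0,k0,k3,k0,k0,k0],[k0,k0,k2,k1,k0,k0],[k0,k0,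
    k2,k0,k1,k0],[k0,k0,k1,k2,k0,k0],[k0,k0,k1,k1,k1,k0],[k0,k0,k1,k0,k2,k0],[k0,k0,k0,k2,k1,k0],[k0,k0,k0,k1,k2,k0],
    [k0,k0,k0,k1,k1,k1],[k0,k0,k0,k0,k3,k0],[k0,k0,k0,k0,k2,k1]]
    [.ref k22 k4 [(z1,[z2,y1,y2]),(z1,[y1,z2,z1]),(z1,[z2,y1,z1]),(z1,[y2,z1,z2,z3])],.ref k137 k10 [(z1,[y2,z1,z1]),
    (z1,[z1]),(z1,[y2,z1]),(z1,[z2,y1,z0,z1])],.ref k10 k8 [(z1,[y1,z2,z3,z4,y3]),(z1,[z0,y1,y2,y2,z2]),(z1,[z0,z1,z1,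
    z1,y1]),(z1,[z0,y1,y1,y2,z2])],.ref k22 k4 [(z1,[y2,z1,z0,z2]),(z1,[z1,z1,z0,y1]),(z1,[y2,z1,z3,z2]),(z1,[z2,y1,
    z0,z1])],.ref k10 k5 [(z1,[y1,z2,z3,z4,y3]),(z1,[z0,y1,y1,y2,z2]),(z1,[z0,z1,z1,z1,y1]),(z1,[z0,y1,y2,y2,z2])],
    .ref k137 k4 [(z1,[y2,z1]),(z1,[z1]),(z1,[y2,z1,z1]),(z1,[z2,y1,z0,z1])],.ref k167 k7 [(z1,[z1,y1,y1,y2,z1]),(z1,
    [z2,y1,z0,y1]),(z1,[y2,z1,z0,z2]),(z1,[z1,z0,z0,y1])],.ref k167 k7 [(z2,[y1,y1,y1,y2,z2]),(z1,[y1,z0,z1,z1]),(z1,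
    [z1,z0,y1]),(z2,[y1,z1,z1])],.ref k167 k7 [(z1,[z1,z0,y1,y1]),(z1,[z2,z1,z0,z1,y2]),(z1,[y2,y1,z0,z0,z2]),(z1,[z1,
    z1,z0,z0,y1])],.ref k172 k8 [(z1,[y1,z3,z6,z9,y6]),(z1,[z0,y1,y2,y2,z2]),(z1,[z0,z1,z1,z1,y1]),(z1,[z0,y1,y1,y2,
    z2])],.ref k137 k10 [(z1,[y2,y1,y1,y2,z2]),(z1,[z1,z1,z1,z1,y1]),(z1,[y2,y1,y2,y2,z2]),(z1,[z2,z1,z2,z3,y2])],
    .ref k10 k8 [(z1,[y1,z2,z4,z6,y4]),(z1,[z0,y1,y2,y2,z2]),(z1,[z0,z1,z1,z1,y1]),(z1,[z0,y1,y1,y2,z2])],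
    .ref k10 k8 [(z1,[y1,z1,z2,z3,y2]),(z1,[z0,y1,y2,y2,z2]),(z1,[z0,z1,z1,z1,y1]),(z1,[z0,y1,y1,y2,z2])],
    .ref k22 k4 [(z1,[y2,y1,y2,z0,z2]),(z1,[z1,z2,z1,z0,y1]),(z1,[y2,y1,z1,z0,z2]),(z1,[z2,z1,z2,z3,y2])],
    .ref k10 k5 [(z1,[y1,z2,z4,z6,y4]),(z1,[z0,y1,y1,y2,z2]),(z1,[z0,z1,z1,z1,y1]),(z1,[z0,y1,y2,y2,z2])],
    .ref k10 k5 [(z1,[y1,z1,z2,z3,y2]),(z1,[z0,y1,y1,y2,z2]),(z1,[z0,z1,z1,z1,y1]),(z1,[z0,y1,y2,y2,z2])],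
    .ref k137 k4 [(z1,[y2,y1,y2,y2,z2]),(z1,[z1,z1,z1,z1,y1]),(z1,[y2,y1,y1,y2,z2]),(z1,[z2,z1,z2,z3,y2])],
    .ref k167 k7 [(z1,[z1,z0,z0,y1]),(z1,[z2,z1,z2,z1,y2]),(z1,[y2,y1,y2,z0,z2]),(z1,[z1,z1,z1,z0,y1])],
    .ref k172 k5 [(z1,[y1,z3,z6,z9,y6]),(z1,[z0,y1,y1,y2,z2]),(z1,[z0,z1,z1,z1,y1]),(z1,[z0,y1,y2,y2,z2])],
    .ref k167 k7 [(z2,[z1,y1,y2,y4,z2]),(z1,[z1,z0,z0,y1]),(z1,[y1,z0,z0,z2]),(z2,[z1,z1,z0,y2])]],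
    .tor k0 false k0 [(z1,[z0,z0,z1]),(z1,[y1,z0,y1,z1]),(z1,[z1,z0,z1]),(z1,[z0,z0,y1,z1])],
    .leafM k0 [k0,k1,k2,k3,k4,k5] [(z6,[z0,z2,z3,z1])] [],
    .lp [(nat_lit 244),(nat_lit 256),(nat_lit 264),(nat_lit 224),(nat_lit 254),(nat_lit 220)] [k10,k10,k4,k4,k0,k0,k20,
    k20,k5,k5,k22,k22] k0 [[k0,k0,k0,k0,k0,k0,k0,k0,k2],[],[k0,k0,k0,k0,k0,k0,k0,k0,k0,k0,k24],[k0,k0,k0,k0,k0,k4,k0,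
    k16],[k0,k0,k4,k0,k0,k0,k40],[k0,k0,k0,k0,k0,k0,k0,k0,k0,k56,k0,k16],[k0,k0,k16],[k0,k0,k0,k0,k0,k40],[k0,k0,k0,
    k0,k56,k0,k0,k0,k0,k0,k38],[k0,k2],[k0,k0,k0,k0,k16],[k0,k0,k0,k24,k0,k0,k0,k0,k0,k38]] (nat_lit 732) k5
    [[(k8,(nat_lit 211)),(k2,(nat_lit 226)),(k10,(nat_lit 232)),(k6,(nat_lit 234)),(k0,(nat_lit 244)),(k4,
    (nat_lit 270))],[(k11,(nat_lit 230)),(k7,(nat_lit 234)),(k1,(nat_lit 244)),(k9,(nat_lit 249)),(k3,(nat_lit 250)),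
    (k5,(nat_lit 254))],[(k10,(nat_lit 238)),(k6,(nat_lit 240)),(k0,(nat_lit 250)),(k2,(nat_lit 256)),(k8,
    (nat_lit 257)),(k4,(nat_lit 260))],[(k1,(nat_lit 226)),(k11,(nat_lit 238)),(k7,(nat_lit 244)),(k3,(nat_lit 256)),
    (k5,(nat_lit 260)),(k9,(nat_lit 271))],[(k6,(nat_lit 228)),(k0,(nat_lit 254)),(k8,(nat_lit 259)),(k2,
    (nat_lit 260)),(k4,(nat_lit 260)),(k10,(nat_lit 266))],[(k9,(nat_lit 219)),(k7,(nat_lit 244)),(k3,(nat_lit 260)),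
    (k5,(nat_lit 260)),(k1,(nat_lit 270)),(k11,(nat_lit 298))],[(k8,k183),(k10,(nat_lit 206)),(k0,(nat_lit 234)),(k2,
    (nat_lit 244)),(k4,(nat_lit 244)),(k6,(nat_lit 264))],[(k11,(nat_lit 222)),(k5,(nat_lit 228)),(k1,(nat_lit 234)),
    (k9,(nat_lit 239)),(k3,(nat_lit 240)),(k7,(nat_lit 264))],[(k4,(nat_lit 219)),(k10,(nat_lit 237)),(k6,
    (nat_lit 239)),(k0,(nat_lit 249)),(k8,(nat_lit 254)),(k2,(nat_lit 271))],[(k7,k183),(k1,(nat_lit 211)),(k11,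
    (nat_lit 237)),(k9,(nat_lit 254)),(k3,(nat_lit 257)),(k5,(nat_lit 259))],[(k6,(nat_lit 222)),(k0,(nat_lit 230)),
    (k8,(nat_lit 237)),(k2,(nat_lit 238)),(k10,(nat_lit 258)),(k4,(nat_lit 298))],[(k7,(nat_lit 206)),(k1,
    (nat_lit 232)),(k9,(nat_lit 237)),(k3,(nat_lit 238)),(k11,(nat_lit 258)),(k5,(nat_lit 266))]]
    [] k0
    [[k2,k1,k0,k0,k0,k0],[k2,k0,k0,k1,k0,k0],[k2,k0,k0,k0,k1,k0],[k2,k0,k0,k0,k0,k1],[k1,k1,k0,k1,k0,k0],[k1,k1,k0,k0,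
    k0,k1],[k1,k0,k0,k1,k1,k0],[k1,k0,k0,k1,k0,k1],[k1,k0,k1,k0,k1,k0],[k1,k0,k0,k0,k2,k0],[k1,k0,k0,k0,k1,k1],[k1,k0,
    k0,k0,k0,k2],[k0,k1,k0,k1,k1,k0],[k0,k1,k0,k1,k0,k1],[k0,k0,k1,k1,k1,k0],[k0,k0,k1,k0,k1,k1],[k0,k0,k0,k2,k1,k0],
    [k0,k0,k0,k2,k0,k1],[k0,k0,k0,k1,k2,k0],[k0,k0,k0,k1,k1,k1],[k0,k0,k0,k1,k0,k2],[k0,k0,k0,k0,k2,k1]]
    [.ref k12 k0 [(z2,[z5,y4,y5]),(z1,[y2,z4,z5]),(z1,[z1,y2,y1,z3]),(z4,[y5,z10,z5,z0,z12]),(z2,[y1,y4,y5,y6,y6,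
    z6])],.ref k12 k0 [(z1,[z2,y1,z0,z0,y2]),(z5,[y8,z16,z15,z0,z8]),(z5,[z4,y8,z0,z15,y4]),(z1,[y1,z2,z0,z0,z4]),(z5,
    [y2,y11,y15,y15,y13,z15])],.ref k12 k0 [(z3,[z5,z4,z5,z5,z5,y5]),(z3,[y4,z4,z5,y4,y4,z4]),(z3,[z2,y2,z2,z11,z2,
    y2]),(z6,[y5,z5,y5,y5,z13,z5]),(z3,[y1,y8,y10,y10,y10,z10])],.ref k12 k0 [(z7,[z10,z1]),(z7,[y8,z16,z21]),(z7,[z4,
    y8,z0,z21]),(z7,[y5,z10,z0,z0,z21]),(z7,[y2,y17,y21,y21,y21,z21])],.ref k12 k0 [(z1,[y10,z13,z10,z0,z10]),(z1,[z8,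
    y8,y5,z0,y8]),(z1,[y4,z4,z4,z3,z4]),(z1,[z5,y5,y5,z0,y2]),(z1,[z2,y5,y5,y3,y5,z3])],.ref k12 k0 [(z1,[z10,y7,
    y10]),(z1,[y8,z8,z11]),(z1,[z4,y4,y4,z3]),(z1,[y5,z5,z5,z0,z3]),(z1,[y2,y1,y1,y3,y3,z3])],.ref k12 k0 [(z1,[z10,
    z3,z10,z10,z0,y10]),(z1,[y8,z0,y5,y8,z0,z8]),(z1,[z4,z0,z4,z7,z0,y4]),(z1,[y5,z0,y5,y5,z3,z5]),(z1,[y2,y3,y5,y5,
    y3,z5])],.ref k12 k0 [(z1,[z5,y2,z0,z0,y5]),(z1,[y4,z4,z3,z0,z4]),(z1,[z2,y2,z0,z3,y2]),(z2,[y5,z5,z0,z0,z11]),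
    (z1,[y1,y2,y3,y3,y2,z3])],.ref k12 k0 [(z2,[z5,z6,z5,z0,z5,y5]),(z1,[y2,z0,z1,z0,y2,z2]),(z1,[z1,z0,z1,z3,z1,y1]),
    (z4,[y5,z0,y5,z0,z7,z5]),(z2,[y1,y6,y7,y6,y7,z7])],.ref k12 k0 [(z1,[z5,z8,z10,z10,z10,y10]),(z1,[y4,y4,y5,y8,y8,
    z8]),(z1,[z2,z2,z4,z7,z4,y4]),(z2,[y5,y5,y10,y10,y4,z10]),(z1,[y1,y4,y5,y5,y5,z5])],.ref k12 k0 [(z3,[z10,z9,z10,
    z10,z10,y10]),(z3,[y8,z0,z1,y8,y8,z8]),(z3,[z4,z0,z4,z13,z4,y4]),(z3,[y5,z0,y5,y5,z4,z5]),(z3,[y2,y9,y11,y11,y11,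
    z11])],.ref k12 k0 [(z2,[z5,z1]),(z1,[y2,z2,z3]),(z1,[z1,y1,z0,z3]),(z4,[y5,z5,z0,z0,z12]),(z2,[y1,y5,y6,y6,y6,
    z6])],.ref k12 k0 [(z1,[y2,z1,z0,y2,z0,z2]),(z5,[z8,z8,z15,z8,z0,y8]),(z5,[y4,y4,z0,z11,z0,z4]),(z1,[z1,z1,z0,z1,
    z3,y1]),(z5,[z2,y13,y15,y13,y15,z13])],.ref k12 k0 [(z2,[y5,z6,z5,z0,z5]),(z1,[z2,z0,z1,z0,y2]),(z1,[y1,z0,z1,z3,
    z1]),(z4,[z5,z0,y5,z0,z7]),(z2,[z1,y6,y7,y6,y7,z6])],.ref k12 k0 [(z1,[y10,y7,y10,z0,z0,z10]),(z1,[z8,z8,z11,z0,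
    z0,y8]),(z1,[y4,y4,y4,z3,z0,z4]),(z1,[z5,z5,z5,z0,z3,y5]),(z1,[z2,y1,y1,y3,y3,z1])],.ref k12 k0 [(z1,[z10,z13,z10,
    z0,z10,y10]),(z1,[y8,y8,y5,z0,y8,z8]),(z1,[z4,z4,z4,z3,z4,y4]),(z1,[y5,y5,y5,z0,y2,z5]),(z1,[y2,y5,y5,y3,y5,z5])],
    .ref k12 k0 [(z2,[y5,z1,y5,y5,z5,z5]),(z1,[z2,z2,z5,z2,y2,y2]),(z1,[y1,y1,y1,z2,z1,z1]),(z4,[z5,z5,z5,z5,z7,y5]),
    (z2,[z1,y5,y5,y5,y7,z5])],.ref k12 k0 [(z3,[y10,z9,z0,z0,z20]),(z3,[z8,z0,z9,z0,y16]),(z3,[y4,z0,z0,z9,z8]),(z3,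
    [z5,z0,z0,z0,y1]),(z3,[z2,y9,y9,y9,y13,z9])],.ref k12 k0 [(z3,[y10,y11,y20,y20,y10,z20]),(z3,[z8,z16,z25,z16,z8,
    y16]),(z3,[y4,y8,y8,z1,y4,z8]),(z3,[z5,z10,z10,z10,z14,y10]),(z3,[z2,y5,y5,y5,y7,z5])],.ref k12 k0 [(z1,[y5,y2,y5,
    y5,z0,z5]),(z1,[z4,z4,z7,z4,z0,y4]),(z1,[y2,y2,y2,z1,z0,z2]),(z2,[z5,z5,z5,z5,z6,y5]),(z1,[z1,y2,y2,y2,y3,z2])],
    .ref k12 k0 [(z1,[y10,z3,z0,z0,z10]),(z1,[z8,z0,z3,z0,y8]),(z1,[y4,z0,z0,z3,z4]),(z1,[z5,z0,z0,z0,y2]),(z1,[z2,y3,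
    y3,y3,y5,z3])],.ref k12 k0 [(z1,[y10,y17,y20,y20,y20,z20]),(z1,[z8,z16,z19,z16,z16,y16]),(z1,[y4,y8,y8,y5,y8,z8]),
    (z1,[z5,z10,z10,z10,z13,y10]),(z1,[z2,z1,z1,z1,z1,y1])]],
    .leafM k1 [k0,k1,k2,k3,k4,k5] [(z3,[z0,z1,z0,z1]),(z3,[z0,y1,z0,y1,z3])] [],
    .tor k0 false k1 [(z3,[z0,z1,z1]),(z3,[z1,z0,z1,z3]),(z3,[y1,z0,y1,y3,z3]),(z3,[z0,y1,y1,z0,z3])],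
    .leafM k0 [k2,k3,k4,k5,k0,k1] [(z1,[y1,y1,y1,z0,z1])] [],
    .lp [k160,k166,k168,k150,k146,k168] [k4,k4,k1,k1,k0,k0,k9,k9,k11,k11,k0,k0] k0 [[k0,k0,k0,k0,k0,k0,k18,k0,k2],[k0,k0,
    k0,k0,k0,k2],[k0,k0,k0,k0,k2,k0,k0,k0,k0,k0,k12],[k0,k0,k0,k0,k0,k0,k0,k0,k0,k6],[k2,k0,k0,k0,k0,k0,k0,k0,k38],
    [k0,k0,k0,k2,k0,k0,k0,k2],[k0,k0,k0,k0,k2],[k0,k18,k0,k0,k0,k0,k0,k0,k0,k0,k0,k8],[k0,k0,k6,k0,k0,k0,k0,k0,k0,k0,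
    k6],[k0,k2,k0,k0,k0,k38],[k0,k0,k0,k0,k0,k0,k8],[k0,k0,k0,k12,k0,k0,k0,k0,k0,k6]] (nat_lit 480) k5
    [[(k8,k147),(k2,k151),(k0,k160),(k6,k163),(k4,k164),(k10,k164)],[(k9,k135),(k7,k157),(k1,k160),(k11,k162),(k3,
    k163),(k5,k164)],[(k8,k158),(k0,k163),(k4,k165),(k2,k166),(k10,k167),(k6,k176)],[(k1,k151),(k7,k156),(k9,k156),
    (k3,k166),(k5,k167),(k11,k173)],[(k8,k151),(k6,k159),(k0,k164),(k2,k167),(k4,k170),(k10,k180)],[(k11,k130),(k7,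
    k159),(k9,k159),(k1,k164),(k3,k165),(k5,k170)],[(k6,k148),(k2,k156),(k0,k157),(k4,k159),(k10,k159),(k8,k186)],
    [(k7,k148),(k9,k148),(k5,k159),(k11,k159),(k1,k163),(k3,k176)],[(k0,k135),(k8,k146),(k6,k148),(k10,k149),(k2,
    k156),(k4,k159)],[(k9,k146),(k1,k147),(k5,k151),(k11,k157),(k3,k158),(k7,k186)],[(k4,k130),(k8,k157),(k6,k159),
    (k0,k162),(k2,k173),(k10,k174)],[(k9,k149),(k7,k159),(k1,k164),(k3,k167),(k11,k174),(k5,k180)]]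
    [] k0
    [[k2,k1,k0,k0,k0,k0],[k2,k0,k0,k0,k1,k0],[k1,k1,k0,k0,k1,k0],[k1,k0,k1,k0,k1,k0],[k1,k0,k0,k2,k0,k0],[k1,k0,k0,k1,
    k1,k0],[k1,k0,k0,k0,k2,k0],[k1,k0,k0,k0,k1,k1],[k1,k0,k1,k0,k0,k1],[k0,k1,k1,k0,k1,k0],[k0,k1,k0,k1,k1,k0],[k0,k1,
    k0,k0,k2,k0],[k0,k1,k1,k0,k0,k1],[k0,k0,k1,k2,k0,k0],[k0,k0,k1,k1,k0,k1],[k0,k0,k1,k1,k1,k0],[k0,k0,k1,k0,k2,k0],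
    [k0,k0,k1,k0,k1,k1],[k0,k0,k0,k3,k0,k0],[k0,k0,k0,k2,k0,k1],[k0,k0,k0,k1,k1,k1],[k0,k0,k0,k0,k3,k0],[k0,k0,k0,k0,
    k2,k1]]
    [.ref k12 k0 [(z1,[z2,y1,y2]),(z1,[y1,z2,z4]),(z5,[y2,z4,z2,z15]),(z5,[y8,z16,z8,z0,z15]),(z5,[z4,y23,y19,y15,y15,
    z15])],.ref k12 k0 [(z4,[z5,z7,z5,z5,z5,y5]),(z8,[y5,z5,z19,y5,y5,z5]),(z4,[y1,z1,y1,z11,y1,z1]),(z1,[y1,z1,y1,y1,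
    z2,z1]),(z2,[z1,y7,y5,y5,y5,z5])],.ref k12 k0 [(z3,[z10,z9,z0,z10,z10,y10]),(z3,[y5,z0,z9,y5,y5,z5]),(z3,[y2,z0,
    z0,z7,y2,z2]),(z3,[y8,z0,z0,y8,z1,z8]),(z3,[z4,y9,y9,y5,y5,z5])],.ref k12 k0 [(z2,[z5,z6,z5,z0,z5,y5]),(z4,[y5,z0,
    z7,z0,y5,z5]),(z2,[y1,z0,y1,z6,y1,z1]),(z1,[y2,z0,y2,z0,z1,z2]),(z1,[z1,y3,y2,y3,y2,z2])],.ref k12 k0 [(z1,[y5,z8,
    z0,z0,z10]),(z2,[z5,y5,z6,z0,y10]),(z1,[z1,y1,z0,z3,y2]),(z1,[z4,y4,z0,z0,y5]),(z1,[y2,y1,y3,y3,z1,z3])],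
    .ref k12 k0 [(z1,[z5,z3,z5,z5,z0,y5]),(z2,[y5,z0,z1,y5,z0,z5]),(z1,[y1,z0,y1,z2,z0,z1]),(z1,[y4,z0,y4,y4,z3,z4]),
    (z1,[z2,y3,y1,y1,y3,z1])],.ref k12 k0 [(z3,[z5,z14,z10,z10,z10,y10]),(z6,[y5,y5,z8,y10,y10,z10]),(z3,[y1,y1,y2,z7,
    y2,z2]),(z3,[y4,y4,y8,y8,z1,z8]),(z3,[z2,y7,y5,y5,y5,z5])],.ref k12 k0 [(z1,[z2,z3,z2,z2,z2,y2]),(z1,[y1,z0,z2,y1,
    y1,z1]),(z5,[y2,z0,y2,z13,y2,z2]),(z5,[y8,z0,y8,y8,z7,z8]),(z5,[z4,y15,y11,y11,y11,z11])],.ref k12 k0 [(z3,[z10,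
    y1,z0,y10]),(z3,[y5,z5,z9,z5]),(z3,[y2,z2,z0,z11]),(z3,[y8,z8,z0,z8,z9]),(z3,[z4,y13,y9,y13,y9,z9])],
    .ref k12 k0 [(z1,[y10,y7,z0,z0,y10,z10]),(z1,[z5,z5,z3,z0,z5,y5]),(z1,[z2,z2,z0,z3,z2,y2]),(z1,[z8,z8,z0,z0,z11,
    y8]),(z1,[y4,y7,y3,y3,y7,z7])],.ref k12 k0 [(z3,[y10,y1,z0,y10,z0,z10]),(z3,[z5,z5,z9,z5,z0,y5]),(z3,[z2,z2,z0,
    z11,z0,y2]),(z3,[z8,z8,z0,z8,z9,y8]),(z3,[y4,y13,y9,y13,y9,z13])],.ref k12 k0 [(z1,[z10,z23,z10,z20,z20,y20]),(z1,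
    [y5,y10,y2,y10,y10,z10]),(z1,[y2,y4,y2,y1,y4,z4]),(z1,[y8,y16,y8,y16,y13,z16]),(z1,[z4,z5,z1,z5,z5,y5])],
    .ref k12 k0 [(z1,[y5,z3,z5,z5]),(z2,[z5,z0,z1,y5]),(z1,[z1,z0,y1,z2]),(z1,[z4,z0,y4,y4,z3]),(z1,[y2,y3,y1,y1,y3,
    z3])],.ref k12 k0 [(z3,[y5,z9,z0,z5,z10]),(z6,[z5,z0,z18,y5,y10]),(z3,[z1,z0,z0,z8,y2]),(z3,[z4,z0,z0,y4,z1]),(z3,
    [y2,y9,y9,y7,y5,z9])],.ref k12 k0 [(z3,[y10,z9,z0,z10,z10]),(z3,[z5,z0,z9,y5,y5]),(z3,[z2,z0,z0,z7,y2]),(z3,[z8,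
    z0,z0,y8,z1]),(z3,[y4,y9,y9,y5,y5,z9])],.ref k12 k0 [(z1,[y5,y2,y5,z0,z0,z5]),(z2,[z5,z5,z11,z0,z0,y5]),(z1,[z1,
    z1,z1,z3,z0,y1]),(z1,[z4,z4,z4,z0,z3,y4]),(z1,[y2,y5,y5,y3,y3,z5])],.ref k12 k0 [(z1,[z5,z13,z10,z5,z10,y10]),(z2,
    [y5,y10,y4,y5,y10,z10]),(z1,[y1,y2,y2,z2,y2,z2]),(z1,[y4,y8,y8,y4,y5,z8]),(z1,[z2,z1,z1,y1,z1,y1])],
    .ref k12 k0 [(z1,[z10,z13,z10,z0,z10,y10]),(z1,[y5,y5,y2,z0,y5,z5]),(z1,[y2,y2,y2,z3,y2,z2]),(z1,[y8,y8,y8,z0,y5,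
    z8]),(z1,[z4,z1,z1,y3,z1,y1])],.ref k12 k0 [(z4,[y5,z12,z0,z0,z15]),(z8,[z5,z0,z24,z0,y15]),(z4,[z1,z0,z0,z12,
    y3]),(z1,[z1]),(z2,[y1,y6,y6,y6,y3,z6])],.ref k12 k0 [(z1,[y2,z3,z0,z0,z4]),(z1,[z1,z0,z3,z0,y2]),(z5,[z2,z0,z0,
    z15,y4]),(z5,[z8,z0,z0,z0,y1]),(z5,[y4,y15,y15,y15,y7,z15])],.ref k12 k0 [(z1,[y10,y7,y10,y10,z0,z10]),(z1,[z5,z5,
    z8,z5,z0,y5]),(z1,[z2,z2,z2,z5,z0,y2]),(z1,[z8,z8,z8,z8,z3,y8]),(z1,[y4,y7,y7,y7,y3,z7])],.ref k12 k0 [(z2,[z5,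
    z21,z15,z15,z15,y15]),(z4,[y5,y15,y3,y15,y15,z15]),(z2,[y1,y3,y3,z3,y3,z3]),(z1,[y2,y6,y6,y6,y3,z6]),(z1,[z1])],
    .ref k12 k0 [(z3,[z10,z29,z20,z20,z20,y20]),(z3,[y5,y10,y1,y10,y10,z10]),(z3,[y2,y4,y4,z5,y4,z4]),(z3,[y8,y16,y16,
    y16,y7,z16]),(z3,[z4,y1,y1,y1,y1,z1])]],
    .lp [k78,k86,k86,k82,k58,k88] [k12,k12,k8,k8,k8,k8,k10,k10,k22,k22,k14,k0] k0 [[k0,k0,k0,k0,k0,k0,k4],[k0,k0,k0,k0,k0,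
    k0,k0,k0,k0,k0,k0,k2],[k0,k0,k0,k0,k4,k0,k0,k0,k0,k0,k10],[k0,k0,k0,k0,k0,k0,k0,k10,k0,k8],[k0,k0,k0,k0,k0,k0,k0,
    k0,k34],[k0,k0,k0,k4,k0,k0,k0,k0,k0,k0,k0,k4],[k0,k0,k10,k0,k0,k0,k0,k0,k8],[k0,k4],[k0,k0,k8,k0,k0,k0,k0,k0,k0,
    k0,k6],[k0,k0,k0,k0,k0,k34,k0,k8],[k2,k0,k0,k0,k4],[k0,k0,k0,k10,k0,k0,k0,k0,k0,k6]] (nat_lit 240) k5
    [[(k8,k62),(k2,k72),(k10,k76),(k0,k80),(k6,k80),(k4,k86)],[(k9,k64),(k1,k80),(k7,k80),(k3,k82),(k5,k82),(k11,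
    k90)],[(k8,k72),(k10,k78),(k0,k82),(k2,k86),(k4,k86),(k6,k88)],[(k1,k72),(k7,k80),(k9,k82),(k3,k86),(k5,k86),(k11,
    k102)],[(k8,k64),(k6,k74),(k0,k82),(k2,k86),(k4,k90),(k10,k90)],[(k11,k60),(k9,k72),(k7,k84),(k1,k86),(k3,k86),
    (k5,k90)],[(k10,k74),(k0,k80),(k2,k80),(k6,k82),(k4,k84),(k8,k104)],[(k9,k70),(k5,k74),(k1,k80),(k7,k82),(k11,
    k84),(k3,k88)],[(k0,k64),(k8,k66),(k10,k66),(k6,k70),(k4,k72),(k2,k82)],[(k1,k62),(k5,k64),(k9,k66),(k3,k72),(k11,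
    k80),(k7,k104)],[(k4,k60),(k8,k80),(k6,k84),(k0,k90),(k10,k94),(k2,k102)],[(k9,k66),(k7,k74),(k1,k76),(k3,k78),
    (k5,k90),(k11,k94)]]
    [] k0
    [[k2,k1,k0,k0,k0,k0],[k2,k0,k0,k0,k1,k0],[k1,k1,k0,k0,k1,k0],[k1,k0,k1,k0,k1,k0],[k1,k0,k0,k1,k1,k0],[k1,k0,k0,k0,
    k2,k0],[k1,k0,k0,k0,k1,k1],[k1,k0,k1,k0,k0,k1],[k0,k1,k1,k0,k1,k0],[k0,k1,k0,k1,k1,k0],[k0,k1,k0,k0,k2,k0],[k0,k1,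
    k1,k0,k0,k1],[k0,k0,k2,k0,k1,k0],[k0,k0,k1,k1,k0,k1],[k0,k0,k1,k1,k1,k0],[k0,k0,k1,k0,k2,k0],[k0,k0,k1,k0,k1,k1],
    [k0,k0,k0,k1,k1,k1],[k0,k0,k0,k0,k3,k0],[k0,k0,k0,k0,k2,k1]]
    [.ref k175 k10 [(z1,[y1,z2,z4]),(z1,[z2,y1,y2]),(z1,[z0,z0,z0,z1]),(z1,[z2,y4,y2,y3])],.ref k176 k6 [(z1,[z2,y4,
    y10,z1]),(z1,[y2,z3,z7,y1,z1]),(z1,[z1,y2,y4]),(z1,[y1,z2,z5])],.ref k10 k6 [(z1,[z2,y2,y6,z1]),(z1,[y2,z1,z3,y1,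
    z1]),(z1,[z1,y1,y2]),(z1,[y1,z1,z3])],.ref k177 k6 [(z1,[z2,y2,y6,z1]),(z1,[y2,y1,y3,y1,z3]),(z1,[z1,y1,z0,y1]),
    (z1,[y1,z1,z3,z1])],.ref k14 k4 [(z1,[z1,z0,z1,z1,y1]),(z1,[z1,z1,z1,z1,y1]),(z1,[y1,z0,z1,y1,z1]),(z1,[y1,z0,y1,
    z0,z1])],.ref k10 k6 [(z1,[z1,y1,y4,z1]),(z1,[y1,z0,z1,y1,z1]),(z2,[z1,y1,y2]),(z2,[y1,z1,z4])],
    .ref k175 k10 [(z1,[y1,z1,z3]),(z1,[z2,z1]),(z1,[z0,z0,z0,z1]),(z1,[z2,y2,z0,y3])],.ref k10 k6 [(z1,[z2,y2,y4,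
    y1]),(z1,[y2,z1,z1,z1,z1]),(z1,[z1,y1,y1,y1]),(z1,[y1,z1,z2,z1])],.ref k178 k0 [(z1,[y2,z3,z2,z2]),(z1,[z1,z0,z2,
    y1]),(z1,[z2,z0,y2,z1]),(z1,[z0,y1,y1,y1,z1])],.ref k10 k6 [(z1,[y2,y2,y4,y1,z2]),(z1,[z2,z1,z1,z1,y1]),(z1,[y1,
    y1,y1,y1,z1]),(z1,[z1,z1,z2,z1,y1])],.ref k179 k0 [(z1,[z2,z1,y2]),(z1,[y1,z0,z2]),(z1,[z0,z0,z0,z1]),(z1,[y2,y1,
    z1,y1,z1])],.ref k14 k4 [(z1,[y1,z0,z1,z1]),(z1,[y1,z1,z1,z1]),(z1,[z1,z0,z1,y1]),(z1,[z1,z0,y1])],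
    .ref k180 k0 [(z1,[z2,z1,z0,y4]),(z1,[y1,z0,z1,z2]),(z1,[z0,z0,z0,z1]),(z1,[y2,y1,y1,z3,z1])],.ref k10 k6 [(z1,
    [y2,y2,y6,z1,z2]),(z1,[z2,z1,z3,y1,y1]),(z1,[y1,y1,y2,z0,z1]),(z1,[z1,z1,z3,z0,y1])],.ref k14 k4 [(z1,[y1,y1,y1,
    z0,z1]),(z1,[y1,z0,y1,z0,z1]),(z1,[z1,z1,z3,z0,y1]),(z1,[z1,z1,z1,z1,y1])],.ref k179 k0 [(z1,[z1,z1,z0,y1]),(z2,
    [y1,z0,z2,z1]),(z1,[z0,z0,z0,z1]),(z1,[y1,y1,y1,z0,z1])],.ref k179 k0 [(z1,[z2,z1,z0,y2]),(z1,[y1,z0,z1,z1]),(z1,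
    [z0,z0,z0,z1]),(z1,[y2,y1,y1,z1,z1])],.ref k179 k0 [(z1,[y2,y1,y2,y2,z2]),(z1,[z1,z1,z2,z1,y1]),(z1,[z0,z0,z0,
    z1]),(z1,[z2,z1,z1,z1,y1])],.ref k177 k6 [(z1,[z2,z0,y6,z3]),(z1,[y2,y3,y3,y3,z3]),(z1,[z1]),(z1,[y1,z0,z3])],
    .ref k10 k6 [(z1,[z2,z0,y4,z1]),(z1,[y2,y1,z1,y1,z1]),(z1,[z1,z0,y1]),(z1,[y1,z0,z2])]],
    .lp [k168,k170,k154,k164,k140,k162] [k1,k1,k0,k0,k8,k8,k3,k3,k15,k15,k4,k4] k0 [[k0,k0,k0,k0,k0,k0,k0,k0,k4,k0,k8],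
    [k0,k0,k0,k0,k0,k0,k0,k8],[k0,k0,k0,k0,k8,k0,k0,k0,k0,k0,k10],[k0,k0,k0,k0,k0,k0,k0,k0,k0,k4],[k0,k0,k0,k0,k0,k0,
    k12],[k0,k0,k0,k8],[k8],[k0,k0,k0,k0,k0,k12],[k0,k0,k4],[k0,k4,k0,k0,k0,k0,k0,k0,k0,k0,k0,k8],[k0,k0,k0,k0,k0,k0,
    k0,k0,k8],[k0,k8,k0,k10]] (nat_lit 480) k5
    [[(k2,k159),(k0,k160),(k4,k161),(k8,k162),(k10,k165),(k6,k166)],[(k1,k160),(k5,k161),(k11,k161),(k9,k162),(k7,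
    k166),(k3,k169)],[(k6,k159),(k8,k159),(k4,k162),(k0,k169),(k2,k170),(k10,k174)],[(k9,k155),(k1,k159),(k7,k159),
    (k5,k162),(k3,k170),(k11,k170)],[(k8,k143),(k6,k159),(k0,k161),(k2,k162),(k4,k162),(k10,k168)],[(k9,k135),(k11,
    k158),(k7,k159),(k1,k161),(k3,k162),(k5,k162)],[(k8,k152),(k2,k159),(k4,k159),(k10,k163),(k0,k166),(k6,k176)],
    [(k9,k152),(k3,k159),(k5,k159),(k11,k163),(k1,k166),(k7,k176)],[(k4,k135),(k8,k140),(k10,k151),(k6,k152),(k2,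
    k155),(k0,k162)],[(k9,k140),(k5,k143),(k11,k151),(k7,k152),(k3,k159),(k1,k162)],[(k8,k151),(k10,k154),(k4,k158),
    (k0,k161),(k6,k163),(k2,k170)],[(k9,k151),(k11,k154),(k7,k163),(k1,k165),(k5,k168),(k3,k174)]]
    [] k0
    [[k1,k0,k1,k0,k1,k0],[k1,k0,k0,k0,k2,k0],[k1,k0,k0,k0,k1,k1],[k0,k1,k1,k0,k1,k0],[k0,k1,k0,k1,k1,k0],[k0,k1,k0,k0,
    k2,k0],[k0,k0,k2,k0,k1,k0],[k0,k0,k1,k1,k1,k0],[k0,k0,k1,k0,k2,k0],[k0,k0,k1,k0,k1,k1],[k0,k0,k0,k1,k2,k0],[k0,k0,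
    k0,k1,k1,k1],[k0,k0,k0,k0,k3,k0],[k0,k0,k0,k0,k2,k1],[k0,k0,k0,k0,k1,k2],[k0,k0,k0,k0,k0,k3]]
    [.ref k12 k0 [(z3,[y6,z9,y2,z0,y1,z6]),(z1,[z0,z0,z1]),(z2,[z6,z0,z2,z1,z1,y6]),(z3,[y3,z0,y1,z0,z1,z3]),(z6,[z12,
    y18,y2,y3,y1,z6])],.ref k12 k0 [(z1,[y3,z0,y2,y1,y1,z6]),(z1,[z0,z0,z1]),(z2,[z9,z9,z6,z4,z3,y18]),(z2,[y3,y3,y2,
    y1,z0,z6]),(z2,[z6,z0,z2,z1,z1,y6])],.ref k12 k0 [(z2,[z6,z6,z2,z1,z1,y6]),(z1,[z0,z0,z1]),(z4,[y18,z0,y6,y1,y3,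
    z18]),(z4,[z6,z0,z2,z1,z3,y6]),(z1,[y3,y3,y2,y1,y1,z6])],.ref k12 k0 [(z5,[y6,z9,z0,z0,y1,z6]),(z1,[z0,z0,z1]),
    (z10,[z18,z18,z0,z5,z3,y18]),(z5,[y3,y3,z0,z0,z2,z3]),(z10,[z12,y18,y10,y5,y3,z18])],.ref k12 k0 [(z1,[y6,y3,z0,
    y1,z0,z6]),(z1,[z0,z0,z1]),(z1,[z9,z9,z0,z2,z0,y9]),(z2,[y6,y6,z0,y1,z1,z6]),(z2,[z12,z6,y2,z1,y1,y6])],
    .ref k12 k0 [(z2,[y3,z0,y1,y1,y1,z6]),(z1,[z0,z0,z1]),(z4,[z9,z18,z3,z5,z3,y18]),(z4,[y3,y6,y1,y1,z1,z6]),(z2,[z3,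
    z0,y1])],.ref k12 k0 [(z8,[y6,z18,y2,z1,y1,z6]),(z1,[z0,z0,z1]),(z16,[z18,z18,z6,z5,z3,y18]),(z16,[y6,y6,y2,z1,z7,
    z6]),(z8,[z6,y18,y6,y5,y3,z18])],.ref k12 k0 [(z2,[y3,z3,y1,z0,z0,z3]),(z1,[z0,z0,z1]),(z4,[z9,z9,z3,z2,z0,y9]),
    (z4,[y3,y3,y1,z0,z2,z3]),(z2,[z3,y3,y1,y1,y1,z3])],.ref k12 k0 [(z7,[y6,z9,y4,y1,y2,z12]),(z1,[z0,z0,z1]),(z7,[z9,
    z18,z6,z5,z3,y18]),(z14,[y6,y12,y4,y1,z5,z12]),(z14,[z12,y18,y6,y5,y3,z18])],.ref k12 k0 [(z3,[y6,z3,y2,z0,y1,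
    z6]),(z1,[z0,z0,z1]),(z2,[z6,z6,z2,z1,z1,y6]),(z3,[y3,y3,y1,z0,z1,z3]),(z6,[z12,y6,y2,y3,y1,z6])],
    .ref k12 k0 [(z3,[y6,y3,y4,y2,y1,z12]),(z1,[z0,z0,z1]),(z2,[z6,z12,z4,z3,z1,y12]),(z3,[y3,y6,y2,y1,z1,z6]),(z6,
    [z12,z6,z2,z1,y1,y6])],.ref k12 k0 [(z1,[z6,z9,z2,z1,z0,y6]),(z1,[z0,z0,z1]),(z1,[y9,y9,y3,y1,z0,z9]),(z2,[z6,z6,
    z2,z1,z1,y6]),(z2,[y12,y18,y6,y3,y1,z18])],.ref k12 k0 [(z2,[y2,z0,y2,y1,y1,z6]),(z1,[z0,z0,z1]),(z4,[z6,z18,z6,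
    z5,z3,y18]),(z4,[y2,y6,y2,y1,z1,z6]),(z1,[z1])],.ref k12 k0 [(z1,[y3,y3,y2,y1,y1,z6]),(z1,[z0,z0,z1]),(z2,[z9,z18,
    z6,z4,z3,y18]),(z2,[y3,y6,y2,y1,z0,z6]),(z2,[z6,z6,z2,z1,z1,y6])],.ref k12 k0 [(z2,[z6,z12,z2,z1,z1,y6]),(z1,[z0,
    z0,z1]),(z4,[y18,y18,y6,y1,y3,z18]),(z4,[z6,z6,z2,z1,z3,y6]),(z1,[y3,y6,y2,y1,y1,z6])],.ref k12 k0 [(z1,[z1,z3]),
    (z1,[z0,z0,z1]),(z2,[y3,z0,z0,z1]),(z2,[z1,z0,z0,z0,z1]),(z2,[y2,y6,y2,y1,y1,z6])]],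
    .lp [k166,k164,k164,k152,k148,k164] [k0,k0,k1,k1,k1,k1,k7,k7,k9,k9,k1,k1] k0 [[k0,k0,k0,k0,k0,k0,k0,k0,k4,k0,k4],[],
    [],[],[k0,k0,k0,k0,k0,k0,k0,k0,k0,k0,k2],[k0,k0,k0,k0,k0,k0,k0,k22,k0,k4],[k0,k0,k0,k0,k22],[k0,k0,k0,k0,k0,k0,k0,
    k0,k0,k2],[k0,k0,k0,k0,k4,k0,k2],[k0,k4,k0,k0,k0,k0,k0,k0,k0,k0,k0,k4],[k0,k0,k0,k0,k0,k0,k0,k0,k4],[k0,k4,k0,k0,
    k0,k2]] (nat_lit 480) k5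
    [[(k6,k159),(k8,k161),(k0,k162),(k4,k163),(k2,k165),(k10,k165)],[(k9,k157),(k7,k159),(k11,k161),(k1,k162),(k3,
    k165),(k5,k165)],[(k6,k158),(k8,k160),(k2,k164),(k4,k164),(k0,k165),(k10,k168)],[(k9,k156),(k7,k158),(k3,k164),
    (k5,k164),(k11,k164),(k1,k165)],[(k8,k156),(k6,k158),(k2,k164),(k4,k164),(k10,k164),(k0,k165)],[(k7,k158),(k1,
    k163),(k3,k164),(k5,k164),(k11,k168),(k9,k178)],[(k6,k130),(k8,k146),(k2,k158),(k4,k158),(k0,k159),(k10,k160)],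
    [(k7,k130),(k9,k150),(k3,k158),(k5,k158),(k1,k159),(k11,k160)],[(k8,k146),(k6,k150),(k2,k156),(k10,k156),(k0,
    k157),(k4,k178)],[(k7,k146),(k9,k146),(k5,k156),(k11,k156),(k3,k160),(k1,k161)],[(k8,k156),(k6,k160),(k10,k160),
    (k0,k161),(k2,k164),(k4,k168)],[(k9,k156),(k7,k160),(k11,k160),(k5,k164),(k1,k165),(k3,k168)]]
    [] k0
    [[k1,k0,k1,k0,k1,k0],[k1,k0,k0,k2,k0,k0],[k1,k0,k0,k1,k1,k0],[k1,k0,k0,k0,k2,k0],[k1,k0,k0,k0,k1,k1],[k0,k1,k1,k0,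
    k1,k0],[k0,k1,k0,k2,k0,k0],[k0,k1,k0,k1,k1,k0],[k0,k1,k0,k0,k2,k0],[k0,k0,k1,k2,k0,k0],[k0,k0,k1,k1,k1,k0],[k0,k0,
    k0,k3,k0,k0],[k0,k0,k0,k2,k1,k0],[k0,k0,k0,k2,k0,k1],[k0,k0,k0,k1,k2,k0],[k0,k0,k0,k1,k1,k1],[k0,k0,k0,k0,k3,k0],
    [k0,k0,k0,k0,k2,k1],[k0,k0,k0,k0,k1,k2]]
    [.ref k12 k0 [(z2,[z7,z6,z7,z0,z7,y7]),(z1,[y1,z0,z2,z0,y1,z1]),(z1,[z2,z0,z2,z3,z2,y2]),(z2,[y5,z0,y5,z0,z1,z5]),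
    (z2,[y5,y6,y11,y6,y11,z11])],.ref k12 k0 [(z1,[y7,z10,z0,z0,z14]),(z1,[z2,y2,z3,z0,y4]),(z1,[y4,z4,z0,z3,z8]),(z1,
    [z5,y5,z0,z0,y7]),(z1,[z5,y8,y3,y3,y13,z3])],.ref k12 k0 [(z1,[y7,z3,y7,y7,z0,z7]),(z1,[z2,z0,z5,z2,z0,y2]),(z1,
    [y4,z0,y4,y1,z0,z4]),(z1,[z5,z0,z5,z5,z3,y5]),(z1,[z5,y3,z2,z2,y3,y2])],.ref k12 k0 [(z1,[y7,y4,y14,y14,y14,z14]),
    (z1,[z2,z2,z7,z4,z4,y4]),(z1,[y4,y4,y8,y5,y8,z8]),(z1,[z5,z5,z10,z10,z13,y10]),(z1,[z5,z2,z7,z7,z7,y7])],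
    .ref k12 k0 [(z1,[z7,z3,z7,z7,z7,y7]),(z1,[y2,z0,z1,y2,y2,z2]),(z1,[z4,z0,z4,z7,z4,y4]),(z1,[y5,z0,y5,y5,y2,z5]),
    (z1,[y5,y3,y8,y8,y8,z8])],.ref k12 k0 [(z1,[y7,y4,z0,z0,y7,z7]),(z1,[z2,z2,z3,z0,z2,y2]),(z1,[y4,y4,z0,z3,y4,z4]),
    (z1,[z5,z5,z0,z0,z8,y5]),(z1,[z5,z2,y3,y3,z2,y2])],.ref k12 k0 [(z4,[y7,z12,z7,z0,z14]),(z2,[z1,z0,z5,z0,y2]),(z1,
    [y1,z0,z1,z3,z2]),(z4,[z5,z0,y5,z0,z2]),(z4,[z5,y12,y17,y12,y22,z12])],.ref k12 k0 [(z4,[y7,z5,z0,y7,z0,z7]),(z2,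
    [z1,z1,z6,z1,z0,y1]),(z1,[y1,y1,z0,z2,z0,z1]),(z4,[z5,z5,z0,z5,z12,y5]),(z4,[z5,y7,y12,y7,y12,z7])],
    .ref k12 k0 [(z4,[y7,y2,y7,y14,y14,z14]),(z2,[z1,z2,z7,z2,z2,y2]),(z1,[y1,y2,y1,z1,y2,z2]),(z4,[z5,z10,z5,z10,z22,
    y10]),(z4,[z5,y2,y7,y2,y2,z2])],.ref k12 k0 [(z2,[y7,z6,z0,z7,z14]),(z1,[z1,z0,z3,y1,y2]),(z1,[y2,z0,z0,z5,z4]),
    (z2,[z5,z0,z0,y5,y4]),(z2,[z5,y6,y6,y11,y16,z6])],.ref k12 k0 [(z2,[y7,y1,y7,z0,z0,z7]),(z1,[z1,z1,z4,z0,z0,y1]),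
    (z1,[y2,y2,y2,z3,z0,z2]),(z2,[z5,z5,z5,z0,z6,y5]),(z2,[z5,y1,y1,y6,y6,z1])],.ref k12 k0 [(z5,[y7,z15,z0,z0,z21]),
    (z5,[z2,z0,z15,z0,y6]),(z5,[y4,z0,z0,z15,z12]),(z1,[z1]),(z1,[z1,y3,y3,y3,y6,z3])],.ref k12 k0 [(z5,[y7,z8,y7,y7,
    z7,z7]),(z5,[z2,z2,z17,z2,y2,y2]),(z5,[y4,y4,y4,z11,z4,z4]),(z1,[z1,z1,z1,z1,z2,y1]),(z1,[z1,y2,y2,y2,y4,z2])],
    .ref k12 k0 [(z3,[y7,z9,z0,z0,z14]),(z3,[z2,z0,z9,z0,y4]),(z3,[y4,z0,z0,z9,z8]),(z3,[z5,z0,z0,z0,y1]),(z3,[z5,y9,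
    y9,y9,y19,z9])],.ref k12 k0 [(z5,[y7,z1,y14,y14,y7,z14]),(z5,[z2,z4,z19,z4,z2,y4]),(z5,[y4,y8,y8,z7,y4,z8]),(z1,
    [z1,z2,z2,z2,z4,y2]),(z1,[z1,y1,y1,y1,y2,z1])],.ref k12 k0 [(z3,[y7,z2,y7,y7,z0,z7]),(z3,[z2,z2,z11,z2,z0,y2]),
    (z3,[y4,y4,y4,z5,z0,z4]),(z3,[z5,z5,z5,z5,z9,y5]),(z3,[z5,y4,y4,y4,y9,z4])],.ref k12 k0 [(z5,[y7,y6,y21,y21,y21,
    z21]),(z5,[z2,z6,z21,z6,z6,y6]),(z5,[y4,y12,y12,z3,y12,z12]),(z1,[z1,z3,z3,z3,z6,y3]),(z1,[z1])],.ref k12 k0 [(z3,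
    [y7,y5,y14,y14,y14,z14]),(z3,[z2,z4,z13,z4,z4,y4]),(z3,[y4,y8,y8,z1,y8,z8]),(z3,[z5,z10,z10,z10,z19,y10]),(z3,[z5,
    z1,z1,z1,z1,y1])],.ref k12 k0 [(z1,[y7,y4,y7,y7,y7,z7]),(z1,[z2,z2,z5,z2,z2,y2]),(z1,[y4,y4,y4,y1,y4,z4]),(z1,[z5,
    z5,z5,z5,z8,y5]),(z1,[z5,z2,z2,z2,z2,y2])]]]

noncomputable def cT6_3_n4_1 : List TN :=
  [.leafM k1 [k0,k1,k2,k3,k4,k5] [(z3,[z0,z1,z0,z1]),(z3,[z0,y1,z0,y1,z3])] [],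
    .lp [(nat_lit 320),(nat_lit 308),(nat_lit 326),(nat_lit 308),(nat_lit 346),(nat_lit 310)] [k13,k13,k19,k19,k10,k10,
    k19,k19,k0,k0,k18,k18] k0 [[k0,k0,k0,k0,k18,k0,k18],[k0,k0,k0,k28],[k28,k0,k0,k0,k0,k0,k0,k0,k0,k0,k38],[k0,k0,k0,
    k0,k0,k0,k0,k0,k0,k38],[k0,k0,k0,k0,k0,k0,k0,k0,k18,k0,k34],[k0,k18,k0,k0,k0,k0,k0,k20],[k0,k0,k0,k0,k20],[k0,k18,
    k0,k0,k0,k0,k0,k0,k0,k40],[k0,k0,k38,k0,k0,k0,k40],[k0,k0,k0,k0,k0,k18,k0,k0,k0,k0,k0,k6],[k0,k0,k0,k0,k0,k0,k0,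
    k0,k6],[k0,k0,k0,k38,k0,k34]] (nat_lit 960) k5
    [[(k2,(nat_lit 276)),(k4,(nat_lit 289)),(k6,(nat_lit 314)),(k10,(nat_lit 315)),(k0,(nat_lit 320)),(k8,
    (nat_lit 339))],[(k7,(nat_lit 296)),(k3,(nat_lit 314)),(k9,(nat_lit 315)),(k11,(nat_lit 315)),(k1,(nat_lit 320)),
    (k5,(nat_lit 351))],[(k2,(nat_lit 280)),(k10,(nat_lit 309)),(k0,(nat_lit 314)),(k6,(nat_lit 326)),(k8,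
    (nat_lit 327)),(k4,(nat_lit 335))],[(k1,(nat_lit 276)),(k3,(nat_lit 280)),(k7,(nat_lit 308)),(k5,(nat_lit 317)),
    (k9,(nat_lit 327)),(k11,(nat_lit 347))],[(k8,(nat_lit 298)),(k2,(nat_lit 317)),(k6,(nat_lit 317)),(k4,
    (nat_lit 326)),(k0,(nat_lit 351)),(k10,(nat_lit 356))],[(k1,(nat_lit 289)),(k11,(nat_lit 300)),(k7,(nat_lit 317)),
    (k5,(nat_lit 326)),(k3,(nat_lit 335)),(k9,(nat_lit 356))],[(k6,(nat_lit 288)),(k0,(nat_lit 296)),(k2,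
    (nat_lit 308)),(k4,(nat_lit 317)),(k10,(nat_lit 343)),(k8,(nat_lit 345))],[(k7,(nat_lit 288)),(k1,(nat_lit 314)),
    (k5,(nat_lit 317)),(k3,(nat_lit 326)),(k9,(nat_lit 327)),(k11,(nat_lit 349))],[(k8,(nat_lit 306)),(k0,
    (nat_lit 315)),(k2,(nat_lit 327)),(k6,(nat_lit 327)),(k10,(nat_lit 328)),(k4,(nat_lit 356))],[(k5,(nat_lit 298)),
    (k9,(nat_lit 306)),(k3,(nat_lit 327)),(k11,(nat_lit 328)),(k1,(nat_lit 339)),(k7,(nat_lit 345))],[(k4,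
    (nat_lit 300)),(k10,(nat_lit 304)),(k0,(nat_lit 315)),(k8,(nat_lit 328)),(k2,(nat_lit 347)),(k6,(nat_lit 349))],
    [(k11,(nat_lit 304)),(k3,(nat_lit 309)),(k1,(nat_lit 315)),(k9,(nat_lit 328)),(k7,(nat_lit 343)),(k5,
    (nat_lit 356))]]
    [] k0
    [[k2,k1,k0,k0,k0,k0],[k2,k0,k0,k1,k0,k0],[k2,k0,k0,k0,k0,k1],[k1,k2,k0,k0,k0,k0],[k1,k1,k0,k1,k0,k0],[k1,k1,k0,k0,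
    k1,k0],[k1,k1,k0,k0,k0,k1],[k1,k1,k1,k0,k0,k0],[k1,k0,k1,k1,k0,k0],[k1,k0,k1,k0,k1,k0],[k1,k0,k0,k2,k0,k0],[k1,k0,
    k0,k0,k1,k1],[k1,k0,k0,k0,k0,k2],[k0,k3,k0,k0,k0,k0],[k0,k2,k1,k0,k0,k0],[k0,k2,k0,k1,k0,k0],[k0,k2,k0,k0,k1,k0],
    [k0,k2,k0,k0,k0,k1],[k0,k1,k0,k2,k0,k0],[k0,k1,k1,k0,k0,k1],[k0,k0,k1,k2,k0,k0],[k0,k0,k1,k1,k1,k0],[k0,k0,k1,k0,
    k1,k1],[k0,k0,k0,k3,k0,k0],[k0,k0,k0,k0,k3,k0],[k0,k0,k0,k0,k0,k3]]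
    [.ref k12 k0 [(z5,[z4,z7,y4]),(z5,[z7,y14,z8]),(z1,[y1,z2,z1,z3]),(z1,[y1,z2,z1,z0,z3]),(z5,[y2,y11,y13,y15,y15,
    z15])],.ref k12 k0 [(z1,[z4,y5,z0,z0,y4]),(z1,[z7,y14,z3,z0,y7]),(z1,[y5,z10,z0,z3,z5]),(z1,[y5,z10,z0,z0,z8]),
    (z1,[y2,z1,y3,y3,y1,z3])],.ref k12 k0 [(z3,[z4,z1]),(z3,[z7,y14,z9]),(z3,[y5,z10,z0,z9]),(z3,[y5,z10,z0,z0,z9]),
    (z3,[y2,y5,y9,y9,y9,z9])],.ref k12 k0 [(z3,[z2,z7,y4]),(z6,[z7,y7,z4]),(z6,[y5,z5,z10,z18]),(z6,[y5,z5,z10,z0,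
    z18]),(z3,[y1,y8,y7,y9,y9,z9])],.ref k12 k0 [(z1,[z2,z1,y2,z0,y2]),(z2,[z7,y7,y1,z0,y7]),(z2,[y5,z5,z5,z6,z5]),
    (z2,[y5,z5,z5,z0,z11]),(z1,[y1,y2,y2,y3,y2,z3])],.ref k12 k0 [(z3,[z4,z9,z0,z4,z4,y4]),(z3,[z7,z0,z9,z7,z7,y7]),
    (z3,[y5,z0,z0,z4,y5,z5]),(z3,[y5,z0,z0,y5,z4,z5]),(z3,[y2,y9,y9,y11,y11,z11])],.ref k12 k0 [(z1,[z1,z2,y1]),(z4,
    [z7,y7,z5]),(z4,[y5,z5,z5,z12]),(z4,[y5,z5,z5,z0,z12]),(z2,[y1,y5,y5,y6,y6,z6])],.ref k12 k0 [(z1,[z2,z1,y2,y2]),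
    (z2,[z7,y7,y1,y7]),(z2,[y5,z5,z5,z11]),(z2,[y5,z5,z5,z5,z6]),(z1,[y1,y2,y2,y2,y3,z3])],.ref k12 k0 [(z1,[y2,z5,z0,
    z2,z2]),(z2,[y7,z7,z6,z7,z7]),(z2,[z5,y5,z0,z1,y5]),(z2,[z5,y5,z0,y5,z1]),(z1,[z1,y4,y3,y4,y4,z3])],
    .ref k12 k0 [(z1,[y4,z3,y4,z0,y4,z4]),(z1,[y7,z0,y4,z0,y7,z7]),(z1,[z5,z0,z5,z3,z5,y5]),(z1,[z5,z0,z5,z0,z8,y5]),
    (z1,[z2,y3,y1,y3,y1,z1])],.ref k12 k0 [(z1,[y2,z5,z0,z0,z4]),(z2,[y7,z7,z6,z0,z14]),(z2,[z5,y5,z0,z6,y10]),(z2,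
    [z5,y5,z0,z0,y4]),(z1,[z1,y4,y3,y3,y5,z3])],.ref k12 k0 [(z1,[z4,z3,z4,z4,z4,y4]),(z1,[z7,z0,z10,z7,z7,y7]),(z1,
    [y5,z0,y5,y2,y5,z5]),(z1,[y5,z0,y5,y5,y2,z5]),(z1,[y2,y3,y5,y5,y5,z5])],.ref k12 k0 [(z1,[z2,z1]),(z2,[z7,y7,z6]),
    (z2,[y5,z5,z0,z6]),(z2,[y5,z5,z0,z0,z6]),(z1,[y1,y2,y3,y3,y3,z3])],.ref k12 k0 [(z7,[z4,z21,y12]),(z1,[z1]),(z7,
    [y5,z0,z15,z21]),(z7,[y5,z0,z15,z0,z21]),(z7,[y2,y21,y15,y21,y21,z21])],.ref k12 k0 [(z3,[z4,z9,y8,y4]),(z3,[z7,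
    z0,y5,y7]),(z3,[y5,z0,z10,z14]),(z3,[y5,z0,z10,z5,z9]),(z3,[y2,y9,y5,y7,y9,z9])],.ref k12 k0 [(z3,[z4,z9,y8,z0,
    y4]),(z3,[z7,z0,y5,z0,y7]),(z3,[y5,z0,z10,z9,z5]),(z3,[y5,z0,z10,z0,z14]),(z3,[y2,y9,y5,y9,y7,z9])],
    .ref k12 k0 [(z1,[z1,z4,y1,z1,z1,y1]),(z4,[z7,z7,z5,z7,z7,y7]),(z4,[y5,y5,z5,z7,y5,z5]),(z4,[y5,y5,z5,y5,z7,z5]),
    (z2,[y1,y7,y5,y7,y7,z7])],.ref k12 k0 [(z5,[z4,z15,y8]),(z5,[z7,z0,z1]),(z1,[y1,z0,z2,z3]),(z1,[y1,z0,z2,z0,z3]),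
    (z5,[y2,y15,y11,y15,y15,z15])],.ref k12 k0 [(z1,[y4,z3,z4,z0,z8]),(z1,[y7,z0,z10,z0,z14]),(z1,[z5,z0,y5,z3,y10]),
    (z1,[z5,z0,y5,z0,y7]),(z1,[z2,y3,y5,y3,y7,z3])],.ref k12 k0 [(z1,[z4,z3,y4,y4]),(z1,[z7,z0,y4,y7]),(z1,[y5,z0,z5,
    z8]),(z1,[y5,z0,z5,z5,z3]),(z1,[y2,y3,y1,y1,y3,z3])],.ref k12 k0 [(z5,[y4,z15,z0,z4,z8]),(z5,[y7,z0,z15,z7,z14]),
    (z1,[z1,z0,z0,z2,y2]),(z1,[z1,z0,z0,y1,z1]),(z5,[z2,y15,y15,y17,y19,z15])],.ref k12 k0 [(z1,[y1,z2,y1,z0,z0,z1]),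
    (z4,[y7,y7,z5,z0,z0,z7]),(z4,[z5,z5,z5,z12,z0,y5]),(z4,[z5,z5,z5,z0,z12,y5]),(z2,[z1,y5,y5,y6,y6,z5])],
    .ref k12 k0 [(z1,[y2,z1,y2,z0,y2,z2]),(z2,[y7,y7,y1,z0,y7,z7]),(z2,[z5,z5,z5,z6,z5,y5]),(z2,[z5,z5,z5,z0,z11,y5]),
    (z1,[z1,y2,y2,y3,y2,z2])],.ref k12 k0 [(z5,[y4,z15,z0,z0,z12]),(z5,[y7,z0,z15,z0,z21]),(z1,[z1,z0,z0,z3,y3]),(z1,
    [z1]),(z5,[z2,y15,y15,y15,y21,z15])],.ref k12 k0 [(z1,[y2,y3,y6,y6,y6,z6]),(z2,[y7,y21,y15,y21,y21,z21]),(z2,[z5,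
    z15,z15,z21,z15,y15]),(z2,[z5,z15,z15,z15,z21,y15]),(z1,[z1])],.ref k12 k0 [(z1,[z4,z3]),(z1,[z7,z0,z3]),(z1,[y5,
    z0,z0,z3]),(z1,[y5,z0,z0,z0,z3]),(z1,[y2,y3,y3,y3,y3,z3])]],
    .lp [(nat_lit 928),(nat_lit 994),(nat_lit 994),(nat_lit 952),(nat_lit 886),(nat_lit 1000)] [k36,k36,k3,k3,k3,k3,k24,
    k24,k57,k57,k0,k0] k0 [[k0,k0,k0,k0,k0,k0,k90,k0,k0,k0,k42],[k0,k0,k0,k78,k0,k156],[k78,k0,k0,k0,k0,k0,k42],[k0,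
    k0,k0,k0,k0,k54,k0,k0,k0,k0,k0,k42],[k156,k0,k54],[k0,k0,k0,k0,k0,k0,k0,k60],[k0,k0,k0,k0,k60,k0,k0,k0,k156],[k0,
    k90,k0,k42],[k0,k0,k0,k0,k0,k0,k0,k0,k0,k0,k84],[k0,k0,k0,k0,k0,k0,k0,k156],[k0,k0,k42],[k0,k42,k0,k0,k0,k0,k0,k0,
    k0,k84]] (nat_lit 2880) k5
    [[(k8,(nat_lit 823)),(k0,(nat_lit 886)),(k6,(nat_lit 940)),(k4,(nat_lit 961)),(k10,(nat_lit 964)),(k2,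
    (nat_lit 1003))],[(k9,(nat_lit 817)),(k1,(nat_lit 886)),(k3,(nat_lit 961)),(k11,(nat_lit 964)),(k5,
    (nat_lit 1039)),(k7,(nat_lit 1096))],[(k4,(nat_lit 838)),(k2,(nat_lit 916)),(k8,(nat_lit 940)),(k0,(nat_lit 961)),
    (k10,(nat_lit 1039)),(k6,(nat_lit 1063))],[(k9,(nat_lit 898)),(k3,(nat_lit 916)),(k5,(nat_lit 994)),(k11,
    (nat_lit 997)),(k1,(nat_lit 1003)),(k7,(nat_lit 1027))],[(k4,(nat_lit 940)),(k8,(nat_lit 940)),(k10,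
    (nat_lit 955)),(k2,(nat_lit 994)),(k6,(nat_lit 1015)),(k0,(nat_lit 1039))],[(k3,(nat_lit 838)),(k5,(nat_lit 940)),
    (k1,(nat_lit 961)),(k7,(nat_lit 973)),(k11,(nat_lit 997)),(k9,(nat_lit 1000))],[(k6,(nat_lit 892)),(k8,
    (nat_lit 919)),(k4,(nat_lit 973)),(k10,(nat_lit 976)),(k2,(nat_lit 1027)),(k0,(nat_lit 1096))],[(k11,
    (nat_lit 820)),(k7,(nat_lit 892)),(k9,(nat_lit 919)),(k1,(nat_lit 940)),(k5,(nat_lit 1015)),(k3,(nat_lit 1063))],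
    [(k0,(nat_lit 817)),(k2,(nat_lit 898)),(k6,(nat_lit 919)),(k10,(nat_lit 943)),(k4,(nat_lit 1000)),(k8,
    (nat_lit 1042))],[(k1,(nat_lit 823)),(k7,(nat_lit 919)),(k3,(nat_lit 940)),(k5,(nat_lit 940)),(k11,(nat_lit 943)),
    (k9,(nat_lit 1042))],[(k6,(nat_lit 820)),(k8,(nat_lit 943)),(k0,(nat_lit 964)),(k2,(nat_lit 997)),(k4,
    (nat_lit 997)),(k10,(nat_lit 1084))],[(k9,(nat_lit 943)),(k5,(nat_lit 955)),(k1,(nat_lit 964)),(k7,(nat_lit 976)),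
    (k3,(nat_lit 1039)),(k11,(nat_lit 1084))]]
    [] k0
    [[k3,k0,k0,k0,k0,k0],[k2,k1,k0,k0,k0,k0],[k2,k0,k0,k0,k1,k0],[k2,k0,k0,k0,k0,k1],[k1,k1,k0,k0,k1,k0],[k1,k0,k1,k0,
    k1,k0],[k1,k0,k0,k1,k1,k0],[k1,k0,k0,k0,k2,k0],[k1,k0,k0,k0,k1,k1],[k0,k3,k0,k0,k0,k0],[k0,k2,k1,k0,k0,k0],[k0,k2,
    k0,k0,k1,k0],[k0,k1,k2,k0,k0,k0],[k0,k1,k1,k0,k1,k0],[k0,k1,k1,k0,k0,k1],[k0,k0,k3,k0,k0,k0],[k0,k0,k1,k1,k1,k0],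
    [k0,k0,k1,k1,k0,k1],[k0,k0,k0,k3,k0,k0],[k0,k0,k0,k2,k1,k0],[k0,k0,k0,k2,k0,k1],[k0,k0,k0,k1,k1,k1]]
    [.ref k182 k10 [(z1,[z0,z0,z1,y1]),(z1,[z1]),(z1,[y1,z3,z0,z9]),(z1,[z1,y3,z0,y3])],.ref k20 k1 [(z1,[y3,z1,z3]),
    (z1,[z1,y1,y1]),(z1,[y1,z0,z0,y1,z1]),(z1,[z1,z0,y1,z1])],.ref k183 k1 [(z1,[y3,y1]),(z1,[z1]),(z1,[y2,y1,y1,y1,
    z1]),(z1,[z2,z1,z0,z1])],.ref k167 k3 [(z3,[y2,z1,z3]),(z3,[y2,z1,z0,z3]),(z3,[z2,y1,y3,y3,z3]),(z3,[y1,y1])],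
    .ref k184 k6 [(z1,[z0,z0,y1,z1]),(z1,[y2,y1,y1,y3,z3]),(z1,[z1,y1,y1]),(z1,[y1,z1,z4])],.ref k184 k6 [(z1,[z0,z0,
    y1,z1]),(z1,[y2,y1,y3,y1,z3]),(z1,[z1,y1,z0,y1]),(z1,[y1,z1,z3,z1])],.ref k167 k3 [(z1,[y2,y1,y1,y2,z2]),(z1,[y2,
    y1,y2,y1,z2]),(z1,[z2,z1,z1,z1,y1]),(z1,[y1,y1,y1,y1,z1])],.ref k20 k1 [(z1,[y3,y2]),(z1,[z1]),(z1,[y1,y1,y1,y1,
    z1]),(z1,[z1,z1,z0,z1])],.ref k167 k3 [(z1,[y1,z0,z1]),(z1,[y1,z0,z0,z1]),(z1,[z1,z0,y1,y1,z1]),(z2,[y1,y1])],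
    .ref k160 k3 [(z1,[z1]),(z1,[z1,z0,y3,z3]),(z1,[y1,z0,z0,y3,z3]),(z1,[z1,y3,y3])],.ref k160 k3 [(z1,[z1,z0,z1,
    y1]),(z1,[z1,z0,y2,z2]),(z1,[y1,z0,y1,y2,z3]),(z1,[z1,y3,y2,y1])],.ref k29 k7 [(z1,[y2,y1,z3,y5,z1]),(z1,[z1,z0,
    y2,z2]),(z1,[y1,z0,z2,y1]),(z1,[z2,z1,y4,z5])],.ref k160 k3 [(z1,[z1,z0,z2,y2]),(z1,[z1,z0,y1,z1]),(z1,[y1,z0,y2,
    y1,z3]),(z1,[z1,y3,y1,y2])],.ref k29 k7 [(z1,[y2,y1,z1,y3,z1]),(z1,[z1,z0,y1,z1]),(z1,[y1,z0,z1]),(z1,[z2,z1,y2,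
    z3])],.ref k167 k3 [(z1,[z2,y1,y1,y2]),(z1,[z2,y1,y2,y1]),(z1,[y2,z1,z1,z1,z1]),(z1,[z1,y1,y1,y1])],
    .ref k160 k3 [(z1,[z1,z0,z3,y3]),(z1,[z1]),(z1,[y1,z0,y3,z0,z3]),(z1,[z1,y3,z0,y3])],.ref k167 k3 [(z1,[z2,z1,z3,
    z0,y2]),(z1,[z2,z1,z2,z1,y2]),(z1,[y2,y1,y3,y1,z3]),(z1,[z1,z0,z1,z0,y1])],.ref k184 k6 [(z1,[z0,z0,y1,z1]),(z1,
    [z2,y1,y1,y3,z1]),(z1,[y1,y1,y1,z0,z1]),(z1,[z1,z1,z4,z0,y1])],.ref k184 k6 [(z1,[z0,z0,y1,z1]),(z1,[z1]),(z2,[y1,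
    y3,y3,y3,z3]),(z2,[z1,z3,z9,z3,y3])],.ref k184 k6 [(z1,[z0,z0,y1,z1]),(z1,[z2,z1,z1,z1,y1]),(z1,[y1,y2,y2,y2,z2]),
    (z1,[z1,z2,z5,z2,y2])],.ref k185 k4 [(z1,[z1,z2,z2,z2,y2]),(z1,[z1,z3,z2,z2,y2]),(z1,[y1,y2,y1,y2,z2]),(z1,[y1,y2,
    y2,y1,z2])],.ref k179 k0 [(z1,[y3,y2,y3,y3,z3]),(z1,[z1,z1,z2,z1,y1]),(z1,[z1,z1,z1,z2,y1]),(z1,[z2,z1,z1,z1,
    y1])]],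
    .lp [k174,k150,k144,k160,k170,k160] [k0,k0,k12,k12,k15,k15,k7,k7,k2,k2,k7,k7] k0 [[k0,k0,k12,k0,k0,k0,k0,k0,k28],[k0,
    k0,k0,k0,k0,k2],[k0,k0,k0,k0,k32,k0,k0,k0,k0,k0,k6],[k0,k12],[k2],[k0,k0,k0,k32,k0,k0,k0,k0,k0,k34],[k0,k0,k0,k0,
    k0,k0,k0,k0,k14],[k0,k0,k0,k0,k0,k0,k0,k0,k0,k0,k0,k28],[k0,k0,k0,k0,k34,k0,k0,k0,k0,k0,k14],[k0,k28,k0,k0,k0,k0,
    k0,k14],[k0,k0,k0,k0,k0,k0,k28],[k0,k0,k0,k6,k0,k0,k0,k0,k0,k14]] (nat_lit 480) k5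
    [[(k2,k156),(k8,k158),(k4,k159),(k10,k167),(k0,k174),(k6,k195)],[(k11,k139),(k5,k147),(k3,k162),(k7,k169),(k9,
    k172),(k1,k174)],[(k4,k145),(k6,k155),(k10,k155),(k0,k162),(k2,k162),(k8,k188)],[(k7,k123),(k5,k147),(k11,k155),
    (k1,k156),(k9,k160),(k3,k162)],[(k0,k147),(k2,k147),(k6,k152),(k8,k157),(k10,k158),(k4,k176)],[(k3,k145),(k7,
    k152),(k9,k157),(k1,k159),(k5,k176),(k11,k186)],[(k2,k123),(k8,k131),(k4,k152),(k6,k160),(k10,k160),(k0,k169)],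
    [(k11,k146),(k5,k152),(k3,k155),(k7,k160),(k9,k165),(k1,k195)],[(k10,k137),(k4,k157),(k2,k160),(k6,k165),(k0,
    k172),(k8,k184)],[(k7,k131),(k5,k157),(k1,k158),(k11,k165),(k9,k184),(k3,k188)],[(k0,k139),(k6,k146),(k2,k155),
    (k8,k165),(k10,k174),(k4,k186)],[(k9,k137),(k3,k155),(k5,k158),(k7,k160),(k1,k167),(k11,k174)]]
    [] k0
    [[k1,k1,k1,k0,k0,k0],[k1,k1,k0,k0,k0,k1],[k1,k0,k1,k0,k0,k1],[k1,k0,k1,k0,k1,k0],[k1,k0,k0,k0,k1,k1],[k0,k2,k1,k0,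
    k0,k0],[k0,k2,k0,k1,k0,k0],[k0,k2,k0,k0,k0,k1],[k0,k1,k2,k0,k0,k0],[k0,k1,k1,k1,k0,k0],[k0,k1,k1,k0,k1,k0],[k0,k1,
    k1,k0,k0,k1],[k0,k1,k0,k2,k0,k0],[k0,k1,k0,k1,k1,k0],[k0,k1,k0,k1,k0,k1],[k0,k0,k1,k2,k0,k0],[k0,k0,k1,k1,k1,k0],
    [k0,k0,k1,k1,k0,k1],[k0,k0,k0,k2,k1,k0],[k0,k0,k0,k2,k0,k1],[k0,k0,k0,k1,k1,k1],[k0,k0,k0,k0,k1,k2]]
    [.ref k156 k9 [(z1,[y2,z0,y1,z2]),(z1,[z0,z0,z1]),(z1,[z2,y1])],.ref k157 k4 [(z2,[z2,y1,y1]),(z2,[y2,z3,z1]),(z2,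
    [z2,y1,z1])],.ref k158 k6 [(z1,[z1,y1]),(z2,[z0,z1,z1]),(z2,[y2,y1,y1,z2])],.ref k159 k4 [(z1,[y2,z0,y1,z2]),(z2,
    [z2,z3,z1,y2]),(z1,[y1,z0,z1,z1])],.ref k158 k6 [(z2,[y2,y1,y1,z2]),(z2,[z0,z1,z1]),(z1,[z1,y1])],
    .ref k166 k9 [(z2,[y2,y1,y1,z2]),(z1,[z0,z0,z1]),(z1,[z1])],.ref k157 k4 [(z1,[z1,z0,y1]),(z1,[y1,z1,z1]),(z1,
    [z1])],.ref k157 k4 [(z2,[z1,z0,y1]),(z2,[y1,z2,z1]),(z2,[z1,z0,z1])],.ref k171 k3 [(z1,[z1,z3,z1,y2]),(z2,[z0,y3,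
    y1,z2]),(z2,[y2,y5,y1,z4])],.ref k158 k6 [(z2,[z2,y1,y1]),(z2,[z0,z1,z1]),(z1,[y1,y1,z0,z1])],.ref k173 k0 [(z1,
    [z0,z1]),(z2,[z2,z1,z1,y2]),(z2,[z0,y1,y1,z2])],.ref k174 k3 [(z2,[z2,z1,z1,y2]),(z2,[z0,y3,y1,z2]),(z1,[y1,z0,z0,
    z1])],.ref k173 k0 [(z1,[z0,z1]),(z1,[y1,z0,z1]),(z2,[z0,y1,y1,z2])],.ref k158 k6 [(z1,[y1,y1,z0,z1]),(z2,[z0,z1,
    z1]),(z2,[z2,y1,y1])],.ref k159 k4 [(z1,[z2,z0,y1]),(z2,[y2,z3,z1]),(z1,[z1,z0,z1])],.ref k181 k6 [(z1,[z1,y1,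
    y1]),(z2,[z0,z1,z1]),(z2,[y2,y1,z1,z2])],.ref k157 k4 [(z2,[y2,y1,y1,z2]),(z2,[z2,z3,z1,y2]),(z2,[y2,y1,z1,z2])],
    .ref k186 k6 [(z2,[z2,y3,y1]),(z2,[z0,z1,z1]),(z1,[y1,z0,z0,z1])],.ref k166 k9 [(z1,[z1,z0,y1]),(z1,[z0,z0,z1]),
    (z2,[y2,y1,z1,z2])],.ref k173 k0 [(z1,[z0,z1]),(z2,[y1,z0,z1]),(z2,[z0,y1,y1,z2])],.ref k156 k9 [(z1,[z2,z0,y1]),
    (z1,[z0,z0,z1]),(z1,[y2,y1,z0,z2])],.ref k27 k4 [(z1,[z1]),(z1,[y1,z2]),(z1,[z1,z0,z2])]],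
    .lp [(nat_lit 324),(nat_lit 324),(nat_lit 330),(nat_lit 300),(nat_lit 300),(nat_lit 340)] [k8,k8,k8,k8,k5,k5,k20,k20,
    k20,k20,k0,k0] k0 [[k0,k0,k0,k0,k6,k0,k6],[k0,k0,k0,k4],[k4],[],[k0,k0,k0,k0,k0,k0,k0,k0,k0,k0,k22],[k0,k6,k0,k0,
    k0,k0,k0,k32],[k0,k0,k0,k0,k32,k0,k0,k0,k0,k0,k24],[k0,k6,k0,k0,k0,k0,k0,k0,k0,k2],[k0,k0,k0,k0,k0,k0,k2],[k0,k0,
    k0,k0,k0,k0,k0,k0,k0,k0,k0,k44],[k0,k0,k0,k0,k0,k0,k0,k0,k44],[k0,k0,k0,k0,k0,k22,k0,k24]] (nat_lit 960) k5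
    [[(k6,(nat_lit 288)),(k4,(nat_lit 305)),(k0,(nat_lit 324)),(k2,(nat_lit 324)),(k10,(nat_lit 332)),(k8,
    (nat_lit 356))],[(k7,(nat_lit 306)),(k9,(nat_lit 306)),(k1,(nat_lit 324)),(k3,(nat_lit 324)),(k5,(nat_lit 331)),
    (k11,(nat_lit 332))],[(k8,(nat_lit 312)),(k6,(nat_lit 318)),(k2,(nat_lit 320)),(k0,(nat_lit 324)),(k10,
    (nat_lit 332)),(k4,(nat_lit 333))],[(k7,(nat_lit 312)),(k9,(nat_lit 312)),(k3,(nat_lit 320)),(k1,(nat_lit 324)),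
    (k5,(nat_lit 327)),(k11,(nat_lit 332))],[(k6,(nat_lit 315)),(k8,(nat_lit 315)),(k2,(nat_lit 327)),(k4,
    (nat_lit 330)),(k0,(nat_lit 331)),(k10,(nat_lit 335))],[(k1,(nat_lit 305)),(k7,(nat_lit 315)),(k5,(nat_lit 330)),
    (k3,(nat_lit 333)),(k11,(nat_lit 335)),(k9,(nat_lit 347))],[(k6,(nat_lit 268)),(k8,(nat_lit 300)),(k0,
    (nat_lit 306)),(k2,(nat_lit 312)),(k4,(nat_lit 315)),(k10,(nat_lit 342))],[(k7,(nat_lit 268)),(k1,(nat_lit 288)),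
    (k9,(nat_lit 300)),(k5,(nat_lit 315)),(k3,(nat_lit 318)),(k11,(nat_lit 322))],[(k8,(nat_lit 298)),(k6,
    (nat_lit 300)),(k0,(nat_lit 306)),(k2,(nat_lit 312)),(k10,(nat_lit 344)),(k4,(nat_lit 347))],[(k9,(nat_lit 298)),
    (k7,(nat_lit 300)),(k3,(nat_lit 312)),(k5,(nat_lit 315)),(k11,(nat_lit 320)),(k1,(nat_lit 356))],[(k10,
    (nat_lit 296)),(k8,(nat_lit 320)),(k6,(nat_lit 322)),(k0,(nat_lit 332)),(k2,(nat_lit 332)),(k4,(nat_lit 335))],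
    [(k11,(nat_lit 296)),(k1,(nat_lit 332)),(k3,(nat_lit 332)),(k5,(nat_lit 335)),(k7,(nat_lit 342)),(k9,
    (nat_lit 344))]]
    [] k0
    [[k2,k0,k0,k1,k0,k0],[k1,k1,k0,k1,k0,k0],[k1,k1,k0,k0,k1,k0],[k1,k1,k1,k0,k0,k0],[k1,k0,k1,k1,k0,k0],[k1,k0,k1,k0,
    k1,k0],[k1,k0,k0,k2,k0,k0],[k1,k0,k0,k1,k1,k0],[k1,k0,k0,k0,k1,k1],[k0,k2,k0,k1,k0,k0],[k0,k2,k0,k0,k1,k0],[k0,k1,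
    k0,k2,k0,k0],[k0,k1,k0,k1,k1,k0],[k0,k1,k0,k0,k2,k0],[k0,k0,k1,k2,k0,k0],[k0,k0,k1,k1,k1,k0],[k0,k0,k0,k3,k0,k0],
    [k0,k0,k0,k2,k1,k0],[k0,k0,k0,k2,k0,k1],[k0,k0,k0,k1,k2,k0],[k0,k0,k0,k0,k3,k0],[k0,k0,k0,k0,k0,k3]]
    [.ref k12 k0 [(z1,[z4,y5,z0,z0,y4]),(z2,[y1,z2,z3,z0,z1]),(z2,[z5,y10,z0,z3,y5]),(z1,[y5,z10,z0,z0,z8]),(z2,[y4,
    z2,y3,y3,y2,z6])],.ref k12 k0 [(z1,[y8,z11,z4,z0,z8]),(z1,[z1,y1,z1,z0,y1]),(z2,[y10,z10,z5,z3,z10]),(z1,[z10,y10,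
    y5,z0,y7]),(z2,[z8,y14,y7,y3,y14,z6])],.ref k12 k0 [(z1,[z8,z3,z0,z4,z8,y8]),(z2,[y2,z0,z3,y1,y2,z2]),(z1,[z5,z0,
    z0,z4,z5,y5]),(z1,[y10,z0,z0,y5,y7,z10]),(z2,[y8,y6,y3,y7,y14,z14])],.ref k12 k0 [(z1,[z2,z1,y1,y1]),(z8,[y2,z2,
    z13,z1]),(z8,[z10,y10,y5,z7]),(z4,[y10,z10,z5,z5,z12]),(z1,[y1,y2,y1,y1,y3,z3])],.ref k12 k0 [(z1,[z8,y5,z0,y4,
    y8]),(z2,[y2,z2,z3,z1,z2]),(z1,[z5,y5,z0,y1,y5]),(z1,[y10,z10,z0,z5,z13]),(z2,[y8,z2,y3,z1,z2,z6])],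
    .ref k12 k0 [(z3,[z8,z9,z4,z0,z8,y8]),(z3,[y1,z0,z4,z0,y1,z1]),(z6,[z10,z0,z5,z9,z10,y10]),(z3,[y10,z0,y5,z0,y1,
    z10]),(z6,[y8,y18,y13,y9,y26,z26])],.ref k12 k0 [(z1,[y2,z5,z0,z0,z4]),(z4,[z1,y1,z6,z0,y2]),(z4,[y5,z5,z0,z6,
    z10]),(z2,[z5,y5,z0,z0,y4]),(z2,[z2,y8,y3,y3,y10,z6])],.ref k12 k0 [(z1,[y4,z3,y2,y2,z0,z4]),(z4,[z2,z0,z7,z1,z0,
    y2]),(z4,[y10,z0,y5,z1,z0,z10]),(z2,[z10,z0,z5,z5,z6,y10]),(z2,[z4,y6,y1,y1,y6,z2])],.ref k12 k0 [(z1,[z4,z3,z2,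
    z2,z4,y4]),(z4,[y2,z0,z5,y1,y2,z2]),(z4,[z10,z0,z5,z11,z10,y10]),(z2,[y10,z0,y5,y5,y4,z10]),(z2,[y4,y6,y5,y5,y10,
    z10])],.ref k12 k0 [(z1,[y2,z3,z2,z0,z2]),(z4,[z1,z0,z5,z0,y1]),(z4,[y5,z0,z5,z6,z5]),(z2,[z5,z0,y5,z0,z1]),(z2,
    [z2,y6,y5,y3,y8,z6])],.ref k12 k0 [(z1,[y4,y1,z2,y2,y4,z4]),(z4,[z2,z2,z5,z1,z2,y2]),(z4,[y10,y10,z5,z1,y10,z10]),
    (z2,[z10,z10,y5,z5,z16,y10]),(z2,[z4,y2,y5,y1,y2,z2])],.ref k12 k0 [(z7,[y8,z21,z4,z0,z16]),(z7,[z1,z0,z10,z0,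
    y2]),(z14,[y10,z0,z5,z21,z20]),(z7,[z10,z0,y5,z0,z1]),(z14,[z8,y42,y25,y21,y58,z42])],.ref k12 k0 [(z5,[y8,z7,z0,
    y4,z0,z8]),(z10,[z2,z2,z15,z1,z0,y2]),(z1,[y1,y1,z0,z1,z0,z1]),(z1,[z2,z2,z0,z1,z3,y2]),(z10,[z8,y22,y15,y11,y30,
    z22])],.ref k12 k0 [(z3,[y8,y7,y4,y8,y16,z16]),(z3,[z1,z2,z5,z1,z2,y2]),(z6,[y10,y20,y5,y1,y20,z20]),(z3,[z10,z20,
    z5,z10,z29,y20]),(z6,[z8,y2,y5,y1,y2,z2])],.ref k12 k0 [(z5,[y8,z15,z0,z4,z16]),(z10,[z2,z0,z15,y1,y4]),(z1,[y1,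
    z0,z0,z2,z2]),(z1,[z2,z0,z0,y1,y1]),(z10,[z8,y30,y15,y19,y46,z30])],.ref k12 k0 [(z3,[y8,z1,y4,z0,z0,z8]),(z3,[z1,
    z1,z5,z0,z0,y1]),(z6,[y10,y10,y5,z9,z0,z10]),(z3,[z10,z10,z5,z0,z9,y10]),(z6,[z8,y10,y5,y9,y18,z10])],
    .ref k12 k0 [(z5,[y4,z15,z0,z0,z12]),(z10,[z1,z0,z15,z0,y3]),(z2,[y1,z0,z0,z3,z3]),(z1,[z1]),(z10,[z4,y30,y15,y15,
    y42,z30])],.ref k12 k0 [(z2,[y2,z4,y1,y1,z2,z2]),(z16,[z2,z2,z25,z1,y2,y2]),(z16,[y10,y10,y5,z19,z10,z10]),(z8,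
    [z10,z10,z5,z5,z14,y10]),(z4,[z2,y10,y5,y5,y14,z10])],.ref k12 k0 [(z3,[y4,z9,z0,z0,z8]),(z6,[z1,z0,z9,z0,y2]),
    (z6,[y5,z0,z0,z9,z10]),(z3,[z5,z0,z0,z0,y1]),(z6,[z4,y18,y9,y9,y26,z18])],.ref k12 k0 [(z3,[y4,z1,y4,y4,y4,z8]),
    (z6,[z1,z2,z10,z1,z1,y2]),(z6,[y5,y10,y5,z4,y5,z10]),(z3,[z5,z10,z5,z5,z14,y10]),(z6,[z4,y10,y5,y5,y14,z10])],
    .ref k12 k0 [(z1,[y2,y3,y3,y3,y6,z6]),(z8,[z2,z6,z15,z3,z6,y6]),(z8,[y10,y30,y15,y3,y30,z30]),(z4,[z10,z30,z15,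
    z15,z42,y30]),(z1,[z1])],.ref k12 k0 [(z1,[z4,z3]),(z2,[y1,z0,z3]),(z2,[z5,z0,z0,z3]),(z1,[y5,z0,z0,z0,z3]),(z2,
    [y4,y6,y3,y3,y6,z6])]],
    .leafM k0 [k0,k1,k2,k3,k4,k5] [(z1,[z0,z1,z1,z1])] [],
    .lp [(nat_lit 312),(nat_lit 324),(nat_lit 328),(nat_lit 340),(nat_lit 310),(nat_lit 304)] [k14,k14,k8,k8,k6,k6,k0,k0,
    k15,k15,k18,k18] k0 [[k0,k0,k0,k0,k0,k0,k18,k0,k4],[k0,k0,k0,k0,k0,k4,k0,k0,k0,k0,k0,k8],[k0,k0,k0,k0,k0,k0,k0,k0,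
    k26],[k0,k0,k0,k0,k0,k0,k0,k12],[k4],[k0,k0,k0,k0,k0,k0,k0,k18],[k0,k0,k12,k0,k18],[k0,k18,k0,k0,k0,k0,k0,k0,k0,
    k0,k0,k8],[k0,k0,k0,k0,k0,k0,k0,k0,k0,k0,k62],[k0,k4,k0,k26],[k8,k0,k0,k0,k0,k0,k8],[k0,k0,k0,k0,k0,k0,k0,k0,k0,
    k62]] (nat_lit 960) k5
    [[(k8,(nat_lit 249)),(k10,(nat_lit 308)),(k2,(nat_lit 318)),(k0,(nat_lit 320)),(k4,(nat_lit 320)),(k6,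
    (nat_lit 334))],[(k9,(nat_lit 293)),(k11,(nat_lit 304)),(k3,(nat_lit 318)),(k1,(nat_lit 320)),(k5,(nat_lit 320)),
    (k7,(nat_lit 330))],[(k10,(nat_lit 306)),(k0,(nat_lit 318)),(k8,(nat_lit 321)),(k4,(nat_lit 322)),(k2,
    (nat_lit 324)),(k6,(nat_lit 350))],[(k11,(nat_lit 288)),(k1,(nat_lit 318)),(k3,(nat_lit 324)),(k5,(nat_lit 326)),
    (k9,(nat_lit 329)),(k7,(nat_lit 332))],[(k10,(nat_lit 316)),(k0,(nat_lit 320)),(k6,(nat_lit 322)),(k2,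
    (nat_lit 326)),(k4,(nat_lit 328)),(k8,(nat_lit 345))],[(k11,(nat_lit 316)),(k1,(nat_lit 320)),(k3,(nat_lit 322)),
    (k5,(nat_lit 328)),(k7,(nat_lit 334)),(k9,(nat_lit 337))],[(k6,(nat_lit 322)),(k10,(nat_lit 322)),(k8,
    (nat_lit 325)),(k0,(nat_lit 330)),(k2,(nat_lit 332)),(k4,(nat_lit 334))],[(k5,(nat_lit 322)),(k7,(nat_lit 322)),
    (k11,(nat_lit 322)),(k9,(nat_lit 325)),(k1,(nat_lit 334)),(k3,(nat_lit 350))],[(k0,(nat_lit 293)),(k10,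
    (nat_lit 299)),(k8,(nat_lit 310)),(k6,(nat_lit 325)),(k2,(nat_lit 329)),(k4,(nat_lit 337))],[(k1,(nat_lit 249)),
    (k11,(nat_lit 307)),(k9,(nat_lit 310)),(k3,(nat_lit 321)),(k7,(nat_lit 325)),(k5,(nat_lit 345))],[(k2,
    (nat_lit 288)),(k0,(nat_lit 304)),(k8,(nat_lit 307)),(k4,(nat_lit 316)),(k6,(nat_lit 322)),(k10,(nat_lit 366))],
    [(k9,(nat_lit 299)),(k3,(nat_lit 306)),(k1,(nat_lit 308)),(k5,(nat_lit 316)),(k7,(nat_lit 322)),(k11,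
    (nat_lit 366))]]
    [] k0
    [[k2,k1,k0,k0,k0,k0],[k2,k0,k0,k0,k1,k0],[k2,k0,k0,k0,k0,k1],[k1,k1,k0,k0,k1,k0],[k1,k1,k0,k0,k0,k1],[k1,k0,k1,k0,
    k1,k0],[k1,k0,k1,k0,k0,k1],[k1,k0,k0,k1,k1,k0],[k1,k0,k0,k0,k2,k0],[k1,k0,k0,k0,k1,k1],[k0,k2,k0,k0,k0,k1],[k0,k1,
    k1,k0,k0,k1],[k0,k1,k0,k0,k1,k1],[k0,k0,k0,k1,k1,k1],[k0,k0,k0,k0,k3,k0],[k0,k0,k0,k0,k2,k1]]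
    [.ref k39 k4 [(z1,[y2,z2,z1]),(z2,[z2,y1,y1]),(z1,[y1,z1,z1]),(z1,[z2,y2,y1,z1])],.ref k188 k4 [(z1,[y1,z1]),(z1,
    [z1]),(z1,[y1,z1,z1]),(z1,[z1,y1,z0,z1])],.ref k160 k7 [(z2,[y4,z1,y3,y6,z6]),(z1,[z1,y1]),(z1,[y1,z1,z0,z3]),(z1,
    [z4,y1,z0,y3])],.ref k160 k7 [(z2,[y4,y1,y1,y6,z6]),(z2,[z2,y1,y1]),(z2,[y2,z1,z1,z6]),(z1,[z4,z1,y2,y3])],
    .ref k31 k3 [(z2,[z4,y1,z3]),(z1,[y4,z1,z2,z5]),(z2,[y4,z1,y3,y10,z10]),(z2,[z2,y3,y1])],.ref k189 k4 [(z3,[y2,z1,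
    z0,z2]),(z3,[z1,z1,z0,y1]),(z6,[y2,z1,z3,z2]),(z3,[z2,y1,z0,z1])],.ref k189 k4 [(z1,[y2,z1,z0,z2]),(z1,[z1,z0,z0,
    y1]),(z2,[y2,z1,z1,z2]),(z1,[z2,y1,z0,y1])],.ref k189 k4 [(z1,[y2,z0,y1,y2,z2]),(z2,[z2,z1,z1,z2,y2]),(z1,[y1,z0,
    z0,y1,z1]),(z1,[z2,z0,z1,z3,y2])],.ref k39 k4 [(z1,[y2,z1]),(z1,[z1]),(z2,[y2,z1,z1]),(z1,[z2,y1,z0,z1])],
    .ref k31 k9 [(z1,[z2,y1]),(z2,[y8,y1,y5,y10,z10]),(z1,[y2,z1,z0,z5]),(z2,[z2,y1,z5])],.ref k39 k11 [(z2,[y4,z1,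
    y3]),(z1,[z1]),(z1,[y1,z0,y1]),(z2,[z4,y1,z3,y2,z2])],.ref k189 k4 [(z1,[z2,z0,y1,y2]),(z2,[y2,z1,z1,z2]),(z1,[z1,
    z0,z0,y1]),(z1,[y2,z0,z1,z3])],.ref k160 k3 [(z1,[z1,z0,z1]),(z1,[y2,z0,z1,z3]),(z1,[y1,z0,y1,y3,z3]),(z2,[z2,y3,
    y1])],.ref k189 k4 [(z2,[z2,z1,z1,z2,y2]),(z4,[y2,z1,y1,y2,z2]),(z4,[z2,z1,z3,z2,y2]),(z2,[y2,y1,y1,z0,z2])],
    .ref k160 k7 [(z2,[y4,y3,y3,y6,z6]),(z1,[z1]),(z1,[y1,z0,z0,z3]),(z1,[z4,z3,z0,y3])],.ref k31 k3 [(z2,[z4,z1,z5]),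
    (z1,[y4,y1,z0,z5]),(z2,[y4,y1,y5,y10,z10]),(z1,[z1,y1])]],
    .tor k0 false k2 [(z1,[z0,z0,y1,z1]),(z1,[z0,z1,z1]),(z1,[z0,y1,y1,z1]),(z1,[z0,z0,z1])],
    .lp [k160,k160,k174,k148,k168,k148] [k7,k7,k7,k7,k0,k0,k13,k13,k3,k3,k13,k13] k0 [[k0,k0,k0,k0,k0,k0,k24,k0,k4],[],[],
    [k0,k0,k0,k0,k0,k12,k0,k4],[k0,k0,k12],[k0,k0,k0,k0,k0,k0,k0,k12,k0,k0,k0,k2],[k0,k0,k4,k0,k12],[k0,k24,k0,k0,k0,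
    k0,k0,k0,k0,k4],[k0,k0,k0,k0,k0,k0,k4,k0,k0,k0,k34],[k0,k4],[k0,k0,k0,k0,k2],[k0,k0,k0,k0,k0,k0,k0,k0,k0,
    k34]] (nat_lit 480) k5
    [[(k8,k130),(k6,k154),(k10,k154),(k0,k160),(k2,k160),(k4,k169)],[(k9,k140),(k11,k150),(k7,k154),(k1,k160),(k3,
    k160),(k5,k167)],[(k10,k154),(k0,k160),(k2,k160),(k4,k167),(k8,k168),(k6,k178)],[(k11,k154),(k1,k160),(k3,k160),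
    (k7,k166),(k5,k167),(k9,k168)],[(k6,k157),(k10,k161),(k4,k162),(k0,k167),(k2,k167),(k8,k171)],[(k7,k161),(k11,
    k161),(k5,k162),(k3,k167),(k1,k169),(k9,k183)],[(k6,k136),(k10,k146),(k0,k154),(k8,k158),(k4,k161),(k2,k166)],
    [(k7,k136),(k11,k152),(k1,k154),(k5,k157),(k9,k158),(k3,k178)],[(k0,k140),(k6,k158),(k10,k158),(k8,k164),(k2,
    k168),(k4,k183)],[(k1,k130),(k7,k158),(k11,k158),(k9,k164),(k3,k168),(k5,k171)],[(k0,k150),(k6,k152),(k2,k154),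
    (k8,k158),(k4,k161),(k10,k182)],[(k7,k146),(k1,k154),(k3,k154),(k9,k158),(k5,k161),(k11,k182)]]
    [] k0
    [[k2,k0,k0,k1,k0,k0],[k2,k0,k0,k0,k1,k0],[k2,k0,k0,k0,k0,k1],[k1,k1,k0,k0,k1,k0],[k1,k1,k0,k0,k0,k1],[k1,k0,k0,k2,
    k0,k0],[k1,k0,k0,k1,k1,k0],[k1,k0,k0,k1,k0,k1],[k1,k0,k0,k0,k2,k0],[k1,k0,k0,k0,k1,k1],[k0,k2,k0,k0,k0,k1],[k0,k1,
    k0,k1,k0,k1],[k0,k0,k1,k2,k0,k0],[k0,k0,k1,k1,k0,k1],[k0,k0,k0,k3,k0,k0],[k0,k0,k0,k2,k1,k0],[k0,k0,k0,k2,k0,k1],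
    [k0,k0,k0,k1,k1,k1]]
    [.ref k12 k0 [(z2,[z9,y2,z0,z0,y9]),(z1,[y3,z1,z1,z0,z3]),(z2,[z3,y1,z0,z1,y3]),(z1,[y6,z2,z0,z0,z9]),(z2,[z0,y1,
    y2,y1,y6,z6])],.ref k12 k0 [(z4,[z6,z1,z2,z1,z6,y6]),(z6,[y6,z1,z4,y1,y6,z6]),(z12,[z6,y1,z2,z7,z6,y6]),(z3,[y6,
    z1,y2,y1,z3,z6]),(z2,[z0,y1,y2,y1,y6,z6])],.ref k12 k0 [(z8,[z9,z1]),(z4,[y3,z1,z4]),(z8,[z3,y1,z0,z4]),(z2,[y3,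
    z1,z0,z0,z6]),(z2,[z0,y1,y2,y1,y6,z6])],.ref k12 k0 [(z2,[z18,z1,z0,z3,z18,y18]),(z1,[y6,z0,z1,y1,y6,z6]),(z1,[z3,
    z0,z0,z1,z3,y3]),(z1,[y12,z0,z0,y2,y9,z12]),(z2,[z0,y1,y2,y1,y6,z6])],.ref k12 k0 [(z1,[z3,z0,y1]),(z3,[y6,z1,
    z5]),(z6,[z6,y1,y2,z3]),(z3,[y12,z2,z4,z0,z9]),(z2,[z0,y1,y2,y1,y6,z6])],.ref k12 k0 [(z5,[y9,z4,z0,z0,z18]),(z5,
    [z6,y1,z5,z0,y12]),(z10,[y6,z1,z0,z5,z12]),(z5,[z12,y2,z0,z0,y9]),(z2,[z0,y1,y2,y1,y6,z6])],.ref k12 k0 [(z2,[y18,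
    z1,y6,y3,z0,z18]),(z1,[z6,z0,z3,z1,z0,y6]),(z1,[y3,z0,y1,z0,z0,z3]),(z1,[z12,z0,z4,z2,z3,y12]),(z2,[z0,y1,y2,y1,
    y6,z6])],.ref k12 k0 [(z1,[z9,y1,z0,z0,y9]),(z1,[y6,z1,z1,z0,z6]),(z2,[z6,y1,z0,z1,y6]),(z1,[y12,z2,z0,z0,z15]),
    (z2,[z0,y1,y2,y1,y6,z6])],.ref k12 k0 [(z1,[z3,z1,z2,z1,z6,y6]),(z3,[y6,y1,y1,y2,y12,z12]),(z6,[z6,z1,z4,z5,z12,
    y12]),(z3,[y12,y2,y8,y4,y15,z24]),(z2,[z0,y1,y2,y1,y6,z6])],.ref k12 k0 [(z10,[z18,z5,z6,z3,z18,y18]),(z5,[y6,z0,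
    z3,y1,y6,z6]),(z5,[z3,z0,z1,z3,z3,y3]),(z5,[y12,z0,y4,y2,z3,z12]),(z2,[z0,y1,y2,y1,y6,z6])],.ref k12 k0 [(z2,[y9,
    z1,z6]),(z1,[z3,z0,y1]),(z2,[y3,z0,z2,z1]),(z1,[z6,z0,y4,z0,z3]),(z2,[z0,y1,y2,y1,y6,z6])],.ref k12 k0 [(z4,[y9,
    z2,z3,z0,z9]),(z2,[z3,z0,z1,z0,y3]),(z4,[y3,z0,z1,z2,z3]),(z1,[z3,z0,y1]),(z2,[z0,y1,y2,y1,y6,z6])],
    .ref k12 k0 [(z14,[y18,z7,z0,z3,z36]),(z7,[z6,z0,z7,y1,y12]),(z7,[y3,z0,z0,z4,z6]),(z7,[z12,z0,z0,y2,y3]),(z2,[z0,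
    y1,y2,y1,y6,z6])],.ref k12 k0 [(z2,[y18,z1,z0,z3,z18]),(z1,[z6,z0,z1,y1,y6]),(z1,[y3,z0,z0,z1,z3]),(z1,[z12,z0,z0,
    y2,y9]),(z2,[z0,y1,y2,y1,y6,z6])],.ref k12 k0 [(z4,[y3,z2,z0,z0,z9]),(z2,[z1,z0,z2,z0,y3]),(z4,[y1,z0,z0,z2,z3]),
    (z1,[z1]),(z2,[z0,y1,y2,y1,y6,z6])],.ref k12 k0 [(z16,[y18,z5,y6,y3,z18,z18]),(z8,[z6,z1,z10,z1,y6,y6]),(z16,[y6,
    y1,y2,z7,z6,z6]),(z4,[z6,z1,z2,z1,z6,y6]),(z2,[z0,y1,y2,y1,y6,z6])],.ref k12 k0 [(z2,[y3,z1,z0,z0,z6]),(z1,[z1,z0,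
    z1,z0,y2]),(z2,[y1,z0,z0,z1,z2]),(z1,[z2,z0,z0,z0,y1]),(z2,[z0,y1,y2,y1,y6,z6])],.ref k12 k0 [(z4,[y18,y1,y6,y3,
    z0,z18]),(z2,[z6,z1,z4,z1,z0,y6]),(z4,[y6,y1,y2,z1,z0,z6]),(z1,[z6,z1,z2,z1,z3,y6]),(z2,[z0,y1,y2,y1,y6,z6])]],
    .lp [(nat_lit 296),(nat_lit 328),(nat_lit 340),(nat_lit 320),(nat_lit 302),(nat_lit 332)] [k22,k22,k6,k6,k0,k0,k10,
    k10,k19,k19,k4,k4] k0 [[k0,k0,k8,k0,k0,k0,k0,k0,k0,k0,k14],[k0,k0,k0,k0,k0,k44,k0,k28],[k0,k0,k0,k0,k0,k0,k16],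
    [k0,k8,k0,k0,k0,k0,k0,k0,k0,k16],[k44,k0,k0,k0,k0,k0,k0,k0,k0,k0,k8],[k0,k0,k0,k0,k0,k0,k0,k0,k0,k20],[k28,k0,k0,
    k0,k0,k0,k0,k0,k32],[k0,k0,k0,k16,k0,k0,k0,k0,k0,k0,k0,k18],[k0,k0,k16,k0,k20],[k0,k0,k0,k0,k0,k0,k0,k32],[k0,k0,
    k0,k0,k0,k0,k18],[k0,k14,k0,k0,k0,k8]] (nat_lit 960) k5
    [[(k0,(nat_lit 282)),(k8,(nat_lit 299)),(k4,(nat_lit 310)),(k2,(nat_lit 312)),(k10,(nat_lit 314)),(k6,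
    (nat_lit 326))],[(k1,(nat_lit 282)),(k5,(nat_lit 310)),(k3,(nat_lit 312)),(k11,(nat_lit 314)),(k9,(nat_lit 327)),
    (k7,(nat_lit 352))],[(k4,(nat_lit 290)),(k6,(nat_lit 296)),(k0,(nat_lit 312)),(k8,(nat_lit 315)),(k2,
    (nat_lit 336)),(k10,(nat_lit 344))],[(k9,(nat_lit 299)),(k1,(nat_lit 312)),(k7,(nat_lit 324)),(k5,(nat_lit 334)),
    (k3,(nat_lit 336)),(k11,(nat_lit 346))],[(k8,(nat_lit 305)),(k0,(nat_lit 310)),(k2,(nat_lit 334)),(k10,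
    (nat_lit 336)),(k4,(nat_lit 340)),(k6,(nat_lit 346))],[(k3,(nat_lit 290)),(k1,(nat_lit 310)),(k9,(nat_lit 321)),
    (k7,(nat_lit 330)),(k5,(nat_lit 340)),(k11,(nat_lit 356))],[(k8,(nat_lit 291)),(k6,(nat_lit 320)),(k2,
    (nat_lit 324)),(k4,(nat_lit 330)),(k10,(nat_lit 334)),(k0,(nat_lit 352))],[(k11,(nat_lit 294)),(k3,(nat_lit 296)),
    (k9,(nat_lit 311)),(k7,(nat_lit 320)),(k1,(nat_lit 326)),(k5,(nat_lit 346))],[(k2,(nat_lit 299)),(k10,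
    (nat_lit 299)),(k6,(nat_lit 311)),(k4,(nat_lit 321)),(k0,(nat_lit 327)),(k8,(nat_lit 334))],[(k7,(nat_lit 291)),
    (k1,(nat_lit 299)),(k5,(nat_lit 305)),(k3,(nat_lit 315)),(k11,(nat_lit 317)),(k9,(nat_lit 334))],[(k6,
    (nat_lit 294)),(k0,(nat_lit 314)),(k8,(nat_lit 317)),(k10,(nat_lit 332)),(k2,(nat_lit 346)),(k4,(nat_lit 356))],
    [(k9,(nat_lit 299)),(k1,(nat_lit 314)),(k11,(nat_lit 332)),(k7,(nat_lit 334)),(k5,(nat_lit 336)),(k3,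
    (nat_lit 344))]]
    [] k0
    [[k3,k0,k0,k0,k0,k0],[k2,k1,k0,k0,k0,k0],[k2,k0,k1,k0,k0,k0],[k2,k0,k0,k0,k1,k0],[k2,k0,k0,k0,k0,k1],[k1,k1,k1,k0,
    k0,k0],[k1,k1,k0,k0,k1,k0],[k1,k0,k1,k0,k1,k0],[k1,k0,k0,k1,k1,k0],[k1,k0,k0,k0,k1,k1],[k0,k2,k0,k1,k0,k0],[k0,k2,
    k0,k0,k1,k0],[k0,k1,k1,k0,k1,k0],[k0,k1,k0,k2,k0,k0],[k0,k1,k0,k1,k1,k0],[k0,k1,k0,k0,k2,k0],[k0,k0,k1,k1,k1,k0],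
    [k0,k0,k0,k2,k1,k0],[k0,k0,k0,k2,k0,k1],[k0,k0,k0,k1,k2,k0],[k0,k0,k0,k1,k1,k1],[k0,k0,k0,k0,k2,k1],[k0,k0,k0,k0,
    k1,k2]]
    [.ref k12 k0 [(z1,[z1]),(z1,[z0,z0,z1]),(z1,[z0,z0,z0,z1]),(z1,[y1,z1,z0,z0,z3]),(z2,[y1,y1,y2,y2,y6,z6])],
    .ref k12 k0 [(z2,[z3,z0,y1]),(z1,[z0,z0,z1]),(z1,[z0,z0,z0,z1]),(z2,[y3,z2,z1,z0,z6]),(z4,[y3,y2,y3,y4,y12,z12])],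
    .ref k12 k0 [(z2,[z3,z0,z0,y1]),(z1,[z0,z0,z1]),(z1,[z0,z0,z0,z1]),(z2,[y3,z2,z0,z1,z6]),(z4,[y3,y2,y4,y3,y12,
    z12])],.ref k12 k0 [(z3,[z6,z1,z2,z2,z6,y6]),(z1,[z0,z0,z1]),(z1,[z0,z0,z0,z1]),(z3,[y6,z2,y2,y2,z3,z6]),(z3,[y3,
    y2,y4,y4,y12,z12])],.ref k12 k0 [(z5,[z6,z1]),(z1,[z0,z0,z1]),(z1,[z0,z0,z0,z1]),(z5,[y6,z4,z0,z0,z15]),(z5,[y3,
    y3,y5,y5,y15,z15])],.ref k12 k0 [(z1,[z3,z0,y1,y1]),(z1,[z0,z0,z1]),(z1,[z0,z0,z0,z1]),(z1,[y3,z1,z1,z1,z3]),(z2,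
    [y3,y1,y1,y1,y6,z6])],.ref k12 k0 [(z1,[z6,z1,z0,z2,z6,y6]),(z1,[z0,z0,z1]),(z1,[z0,z0,z0,z1]),(z1,[y6,z0,z0,y2,
    y3,z6]),(z1,[y3,y1,y1,y2,y6,z6])],.ref k12 k0 [(z1,[z6,z1,z2,z0,z6,y6]),(z1,[z0,z0,z1]),(z1,[z0,z0,z0,z1]),(z1,
    [y6,z0,y2,z0,y3,z6]),(z1,[y3,y1,y2,y1,y6,z6])],.ref k12 k0 [(z1,[y6,z1,y2,y2,z0,z6]),(z1,[z0,z0,z1]),(z1,[z0,z0,
    z0,z1]),(z1,[z6,z0,z2,z2,z3,y6]),(z1,[z3,y1,z0,z0,y3])],.ref k12 k0 [(z1,[z3,z1,z1,z1,z3,y3]),(z1,[z0,z0,z1]),(z1,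
    [z0,z0,z0,z1]),(z1,[y3,z0,y1,y1,z0,z3]),(z2,[y3,y2,y3,y3,y9,z9])],.ref k12 k0 [(z1,[y3,z1,z2,z0,z3]),(z1,[z0,z0,
    z1]),(z1,[z0,z0,z0,z1]),(z1,[z3,z0,y2]),(z2,[z3,y2,y4,y2,y9,z6])],.ref k12 k0 [(z1,[y6,y1,z2,y2,y6,z6]),(z1,[z0,
    z0,z1]),(z1,[z0,z0,z0,z1]),(z1,[z6,z2,y2,z2,z9,y6]),(z1,[z3,z0,y2])],.ref k12 k0 [(z1,[y6,y1,z0,z0,y6,z6]),(z1,
    [z0,z0,z1]),(z1,[z0,z0,z0,z1]),(z1,[z6,z2,z0,z0,z9,y6]),(z1,[z3,z0,y1,y1])],.ref k12 k0 [(z2,[y3,z2,z1,z0,z6]),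
    (z1,[z0,z0,z1]),(z1,[z0,z0,z0,z1]),(z2,[z3,z0,y1]),(z4,[z3,y4,y5,y4,y18,z12])],.ref k12 k0 [(z3,[y6,z1,z0,y2,z0,
    z6]),(z1,[z0,z0,z1]),(z1,[z0,z0,z0,z1]),(z3,[z6,z2,z0,z2,z9,y6]),(z3,[z3,y2,y3,y2,y9,z6])],.ref k12 k0 [(z1,[y3,
    y1,y1,y2,y6,z6]),(z1,[z0,z0,z1]),(z1,[z0,z0,z0,z1]),(z1,[z3,z2,z1,z2,z9,y6]),(z2,[z3,z0,y1])],.ref k12 k0 [(z3,
    [y6,z1,y2,z0,z0,z6]),(z1,[z0,z0,z1]),(z1,[z0,z0,z0,z1]),(z3,[z6,z2,z2,z0,z9,y6]),(z3,[z3,y2,y2,y3,y9,z6])],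
    .ref k12 k0 [(z5,[y6,z3,y2,y2,z6,z6]),(z1,[z0,z0,z1]),(z1,[z0,z0,z0,z1]),(z5,[z6,z2,z2,z2,z9,y6]),(z5,[z3,y4,y4,
    y4,y18,z12])],.ref k12 k0 [(z1,[y2,z1,z0,z0,z4]),(z1,[z0,z0,z1]),(z1,[z0,z0,z0,z1]),(z1,[z2,z0,z0,z0,y1]),(z1,[z1,
    y1,y1,y1,y5,z3])],.ref k12 k0 [(z2,[y3,z0,y2,y2,y3,z6]),(z1,[z0,z0,z1]),(z1,[z0,z0,z0,z1]),(z2,[z3,z2,z2,z2,z9,
    y6]),(z4,[z3,y2,y2,y2,y9,z6])],.ref k12 k0 [(z1,[y3,z0,y1,y1,z0,z3]),(z1,[z0,z0,z1]),(z1,[z0,z0,z0,z1]),(z1,[z3,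
    z1,z1,z1,z3,y3]),(z2,[z3,y1,y1,y1,y6,z3])],.ref k12 k0 [(z1,[y6,y3,y4,y4,y12,z12]),(z1,[z0,z0,z1]),(z1,[z0,z0,z0,
    z1]),(z1,[z6,z4,z4,z4,z15,y12]),(z1,[z3,z1,z1,z1,z3,y3])],.ref k12 k0 [(z1,[z6,z3,z2,z2,z6,y6]),(z1,[z0,z0,z1]),
    (z1,[z0,z0,z0,z1]),(z1,[y6,y2,y2,y2,y3,z6]),(z1,[y3,y2,y2,y2,y6,z6])]],
    .leafM k1 [k0,k1,k2,k3,k4,k5] [(z1,[z0,z1,z0,z1]),(z1,[z0,y1,z0,y1,z1])] [],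
    .lp [k160,k164,k148,k140,k170,k176] [k8,k8,k6,k6,k14,k14,k18,k18,k3,k3,k0,k0] k0 [[k0,k0,k0,k0,k0,k0,k26],[k0,k0,k0,
    k0,k0,k4,k0,k0,k0,k12],[k0,k0,k0,k0,k0,k0,k0,k0,k2,k0,k8],[],[k4],[k0,k0,k0,k0,k0,k0,k0,k12,k0,k0,k0,k24],[k0,k0,
    k0,k0,k12],[k0,k26,k0,k0,k0,k0,k0,k0,k0,k0,k0,k16],[k12,k0,k0,k0,k0,k0,k0,k0,k0,k0,k12],[k0,k0,k0,k2],[k0,k0,k0,
    k0,k24,k0,k16],[k0,k0,k0,k8,k0,k0,k0,k0,k0,k12]] (nat_lit 480) k5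
    [[(k8,k153),(k2,k154),(k0,k160),(k6,k166),(k10,k168),(k4,k178)],[(k9,k139),(k5,k154),(k7,k154),(k1,k160),(k3,
    k162),(k11,k180)],[(k4,k152),(k8,k155),(k0,k162),(k2,k164),(k10,k170),(k6,k178)],[(k7,k152),(k1,k154),(k5,k156),
    (k3,k164),(k9,k167),(k11,k168)],[(k6,k144),(k4,k148),(k0,k154),(k2,k156),(k8,k161),(k10,k170)],[(k7,k144),(k5,
    k148),(k3,k152),(k11,k162),(k9,k171),(k1,k178)],[(k6,k128),(k10,k134),(k4,k144),(k2,k152),(k0,k154),(k8,k155)],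
    [(k7,k128),(k5,k144),(k9,k155),(k11,k158),(k1,k166),(k3,k178)],[(k0,k139),(k6,k155),(k10,k157),(k2,k167),(k8,
    k170),(k4,k171)],[(k1,k153),(k3,k155),(k7,k155),(k5,k161),(k9,k170),(k11,k173)],[(k6,k158),(k4,k162),(k2,k168),
    (k8,k173),(k0,k180),(k10,k188)],[(k7,k134),(k9,k157),(k1,k168),(k3,k170),(k5,k170),(k11,k188)]]
    [] k0
    [[k2,k1,k0,k0,k0,k0],[k2,k0,k0,k0,k1,k0],[k1,k1,k1,k0,k0,k0],[k1,k1,k0,k0,k1,k0],[k1,k0,k1,k1,k0,k0],[k1,k0,k1,k0,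
    k1,k0],[k1,k0,k0,k2,k0,k0],[k1,k0,k0,k1,k1,k0],[k1,k0,k0,k0,k2,k0],[k0,k2,k1,k0,k0,k0],[k0,k1,k2,k0,k0,k0],[k0,k1,
    k1,k1,k0,k0],[k0,k1,k0,k2,k0,k0],[k0,k1,k0,k1,k1,k0],[k0,k0,k3,k0,k0,k0],[k0,k0,k2,k1,k0,k0],[k0,k0,k1,k2,k0,k0],
    [k0,k0,k1,k1,k1,k0],[k0,k0,k1,k1,k0,k1],[k0,k0,k0,k3,k0,k0],[k0,k0,k0,k2,k1,k0],[k0,k0,k0,k2,k0,k1],[k0,k0,k0,k1,
    k1,k1]]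
    [.ref k12 k0 [(z2,[z3,z0,y1]),(z1,[z0,z0,z1]),(z4,[y3,z2,z1,z4]),(z2,[y3,z2,z1,z0,z6]),(z4,[z3,y2,y1])],
    .ref k12 k0 [(z5,[z6,z1]),(z1,[z0,z0,z1]),(z5,[y3,z2,z0,z5]),(z5,[y6,z4,z0,z0,z15]),(z5,[z3,y2])],
    .ref k12 k0 [(z1,[z6,y1,y2,y2]),(z1,[z0,z0,z1]),(z1,[y3,z1,z1,z2]),(z1,[y6,z2,z2,z2,z3]),(z1,[z3,y1,y1,y1])],
    .ref k12 k0 [(z3,[z6,z1,y2]),(z1,[z0,z0,z1]),(z3,[y3,z1,z1,z3]),(z3,[y6,z2,z2,z0,z9]),(z3,[z3,y1,y1])],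
    .ref k12 k0 [(z1,[y6,z3,z0,z2,z6]),(z1,[z0,z0,z1]),(z1,[z3,y1,z0,z0,y3]),(z1,[z6,y2,z0,y2,y3]),(z1,[y3,z1,z0,z1,
    z3])],.ref k12 k0 [(z1,[z3,z0,z0,y1]),(z1,[z0,z0,z1]),(z2,[y3,z1,z0,z3]),(z1,[y3,z1,z0,z1,z3]),(z2,[z3,y1,z0,
    y1])],.ref k12 k0 [(z1,[y3,z2,z0,z0,z6]),(z1,[z0,z0,z1]),(z2,[z3,y1,z0,z2,y6]),(z1,[z3,y1,z0,z0,y3]),(z2,[y3,z1,
    z0,z0,z6])],.ref k12 k0 [(z1,[z6,y1,z0,z0,y6]),(z1,[z0,z0,z1]),(z1,[y3,z1,z0,z1,z3]),(z1,[y6,z2,z0,z0,z9]),(z1,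
    [z3,y1,z0,z0,y3])],.ref k12 k0 [(z2,[z3,z1]),(z1,[z0,z0,z1]),(z4,[y3,z1,z0,z4]),(z2,[y3,z1,z0,z0,z6]),(z4,[z3,
    y1])],.ref k12 k0 [(z1,[y6,z1,z4,z2]),(z1,[z0,z0,z1]),(z1,[z3,z0,y2]),(z1,[z6,z0,y4,y2,z3]),(z1,[y3,z0,z2,z1])],
    .ref k12 k0 [(z1,[y3,z1,z1,z2]),(z1,[z0,z0,z1]),(z2,[z3,z0,y1]),(z1,[z3,z0,y1,y2,z3]),(z2,[y3,z0,z1,z2])],
    .ref k12 k0 [(z3,[y6,z3,z2,z2,z6]),(z1,[z0,z0,z1]),(z3,[z3,z0,y1,z2,y3]),(z3,[z6,z0,y2,y2,z3]),(z3,[y3,z0,z1,z1,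
    z3])],.ref k12 k0 [(z2,[y3,z2,z1,z0,z6]),(z1,[z0,z0,z1]),(z4,[z3,z0,y1,z4,y6]),(z2,[z3,z0,y1]),(z4,[y3,z0,z1,z0,
    z6])],.ref k12 k0 [(z1,[y6,z1,z2,z0,z6]),(z1,[z0,z0,z1]),(z1,[z3,z0,y1,z1,y3]),(z1,[z6,z0,y2,z0,y3]),(z1,[y3,z0,
    z1,z0,z3])],.ref k12 k0 [(z1,[y2,z1,z0,z2]),(z1,[z0,z0,z1]),(z1,[z1]),(z1,[z2,z0,z0,y2,z3]),(z1,[y1,z0,z0,z1])],
    .ref k12 k0 [(z2,[y3,z2,z0,z2,z3]),(z1,[z0,z0,z1]),(z4,[z3,z0,z0,z2,y3]),(z2,[z3,z0,z0,y2,z3]),(z4,[y3,z0,z0,z2,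
    z3])],.ref k12 k0 [(z5,[y6,z5,z0,z2,z12]),(z1,[z0,z0,z1]),(z5,[z3,z0,z0,z4,y6]),(z5,[z6,z0,z0,y2,z3]),(z5,[y3,z0,
    z0,z1,z6])],.ref k12 k0 [(z1,[y3,z1,z0,z1,z3]),(z1,[z0,z0,z1]),(z2,[z3,z0,z0,z1,y3]),(z1,[z3,z0,z0,y1]),(z2,[y3,
    z0,z0,z1,z3])],.ref k12 k0 [(z3,[y6,z1,y2,z0,z0,z6]),(z1,[z0,z0,z1]),(z3,[z3,z1,z1,z3,z0,y3]),(z3,[z6,z2,z2,z0,z9,
    y6]),(z3,[y3,y1,y1,z0,z0,z3])],.ref k12 k0 [(z1,[y1,z1,z0,z0,z3]),(z1,[z0,z0,z1]),(z2,[z1,z0,z0,z2,y3]),(z1,[z1]),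
    (z2,[y1,z0,z0,z0,z3])],.ref k12 k0 [(z1,[y2,z1,z0,z0,z4]),(z1,[z0,z0,z1]),(z1,[z1,z0,z0,z1,y2]),(z1,[z2,z0,z0,z0,
    y1]),(z1,[y1,z0,z0,z0,z2])],.ref k12 k0 [(z2,[y3,z1,y1,y1,z3,z3]),(z1,[z0,z0,z1]),(z4,[z3,z1,z1,z5,y3,y3]),(z2,
    [z3,z1,z1,z1,z3,y3]),(z4,[y3,y1,y1,y1,z3,z3])],.ref k12 k0 [(z1,[y6,y1,y2,y2,z0,z6]),(z1,[z0,z0,z1]),(z1,[z3,z1,
    z1,z2,z0,y3]),(z1,[z6,z2,z2,z2,z3,y6]),(z1,[y3,y1,y1,y1,z0,z3])]]]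

noncomputable def cT6_3_n4_2 : List TN :=
  [.lp [(nat_lit 306),(nat_lit 350),(nat_lit 294),(nat_lit 352),(nat_lit 320),(nat_lit 296)] [k23,k23,k1,k1,k29,k29,k0,
    k0,k16,k16,k28,k28] k0 [[k0,k0,k0,k0,k0,k0,k0,k0,k40],[k0,k0,k0,k54,k0,k6],[k54,k0,k0,k0,k28],[k0,k0,k0,k0,k0,k0,
    k0,k2,k0,k0,k0,k8],[k6],[k0,k0,k0,k28,k0,k0,k0,k0,k0,k64],[k0,k0,k2],[k0,k0,k0,k0,k0,k0,k0,k0,k0,k0,k0,k46],[k0,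
    k0,k0,k0,k64,k0,k0,k0,k0,k0,k18],[k0,k40],[k0,k0,k8,k0,k0,k0,k46],[k0,k0,k0,k0,k0,k0,k0,k0,k0,
    k18]] (nat_lit 960) k5
    [[(k8,(nat_lit 295)),(k4,(nat_lit 300)),(k10,(nat_lit 301)),(k0,(nat_lit 306)),(k2,(nat_lit 336)),(k6,
    (nat_lit 375))],[(k11,(nat_lit 261)),(k1,(nat_lit 306)),(k9,(nat_lit 313)),(k3,(nat_lit 328)),(k7,(nat_lit 335)),
    (k5,(nat_lit 354))],[(k2,(nat_lit 296)),(k4,(nat_lit 316)),(k10,(nat_lit 323)),(k0,(nat_lit 328)),(k6,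
    (nat_lit 351)),(k8,(nat_lit 375))],[(k3,(nat_lit 296)),(k5,(nat_lit 322)),(k7,(nat_lit 323)),(k11,(nat_lit 323)),
    (k1,(nat_lit 336)),(k9,(nat_lit 337))],[(k10,(nat_lit 287)),(k8,(nat_lit 307)),(k6,(nat_lit 321)),(k2,
    (nat_lit 322)),(k4,(nat_lit 322)),(k0,(nat_lit 354))],[(k1,(nat_lit 300)),(k9,(nat_lit 307)),(k3,(nat_lit 316)),
    (k5,(nat_lit 322)),(k7,(nat_lit 323)),(k11,(nat_lit 359))],[(k8,(nat_lit 272)),(k2,(nat_lit 323)),(k4,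
    (nat_lit 323)),(k10,(nat_lit 324)),(k0,(nat_lit 335)),(k6,(nat_lit 352))],[(k5,(nat_lit 321)),(k11,(nat_lit 324)),
    (k9,(nat_lit 336)),(k3,(nat_lit 351)),(k7,(nat_lit 352)),(k1,(nat_lit 375))],[(k10,(nat_lit 262)),(k4,
    (nat_lit 307)),(k0,(nat_lit 313)),(k8,(nat_lit 320)),(k6,(nat_lit 336)),(k2,(nat_lit 337))],[(k7,(nat_lit 272)),
    (k1,(nat_lit 295)),(k5,(nat_lit 307)),(k11,(nat_lit 308)),(k9,(nat_lit 320)),(k3,(nat_lit 375))],[(k0,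
    (nat_lit 261)),(k8,(nat_lit 308)),(k10,(nat_lit 314)),(k2,(nat_lit 323)),(k6,(nat_lit 324)),(k4,(nat_lit 359))],
    [(k9,(nat_lit 262)),(k5,(nat_lit 287)),(k1,(nat_lit 301)),(k11,(nat_lit 314)),(k3,(nat_lit 323)),(k7,
    (nat_lit 324))]]
    [] k0
    [[k3,k0,k0,k0,k0,k0],[k2,k0,k0,k0,k1,k0],[k2,k0,k0,k0,k0,k1],[k1,k1,k0,k0,k0,k1],[k1,k1,k1,k0,k0,k0],[k1,k0,k1,k1,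
    k0,k0],[k1,k0,k1,k0,k1,k0],[k1,k0,k1,k0,k0,k1],[k1,k0,k0,k0,k2,k0],[k1,k0,k0,k0,k1,k1],[k1,k0,k0,k0,k0,k2],[k0,k3,
    k0,k0,k0,k0],[k0,k2,k1,k0,k0,k0],[k0,k2,k0,k0,k0,k1],[k0,k1,k1,k0,k0,k1],[k0,k0,k2,k0,k1,k0],[k0,k0,k1,k1,k1,k0],
    [k0,k0,k1,k0,k2,k0],[k0,k0,k1,k0,k1,k1],[k0,k0,k1,k1,k0,k1],[k0,k0,k0,k1,k2,k0],[k0,k0,k0,k1,k1,k1],[k0,k0,k0,k0,
    k2,k1],[k0,k0,k0,k0,k1,k2],[k0,k0,k0,k0,k0,k3]]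
    [.ref k12 k0 [(z1,[z1]),(z3,[y2,z2,z9]),(z3,[z2,y2,z0,z3]),(z3,[y4,z4,z0,z0,z3]),(z1,[z0,y1,y3,y1,y1,z3])],
    .ref k12 k0 [(z2,[z3,z1,z3,z1,z1,y3]),(z3,[y3,z1,z6,y1,y1,z3]),(z3,[z3,y1,z3,z4,z1,y3]),(z3,[y6,z2,y6,y2,z1,z6]),
    (z1,[z0,y1,y3,y1,y1,z3])],.ref k12 k0 [(z7,[z9,z1]),(z7,[y6,z4,z21]),(z7,[z6,y4,z0,z7]),(z7,[y12,z8,z0,z0,z7]),
    (z1,[z0,y1,y3,y1,y1,z3])],.ref k12 k0 [(z2,[z9,y1,y9]),(z1,[y3,z1,z6]),(z1,[z3,y1,y3,z1]),(z1,[y6,z2,z6,z0,z1]),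
    (z1,[z0,y1,y3,y1,y1,z3])],.ref k12 k0 [(z1,[z3,z0,y3,y1]),(z3,[y6,z2,z15,z2]),(z3,[z6,y2,y6,z1]),(z3,[y12,z4,z12,
    z4,z3]),(z1,[z0,y1,y3,y1,y1,z3])],.ref k12 k0 [(z1,[z9,y2,z0,y3,y3]),(z1,[y6,z2,z3,z2,z2]),(z1,[z6,y2,z0,y1,y2]),
    (z1,[y12,z4,z0,z4,z5]),(z1,[z0,y1,y3,y1,y1,z3])],.ref k12 k0 [(z5,[z9,z5,z9,z0,z3,y9]),(z5,[y6,z0,z9,z0,y2,z6]),
    (z5,[z6,z0,z6,z5,z2,y6]),(z5,[y12,z0,y12,z0,z1,z12]),(z1,[z0,y1,y3,y1,y1,z3])],.ref k12 k0 [(z2,[z3,z1,z0,y1]),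
    (z3,[y3,z1,z9,z1]),(z3,[z3,y1,z0,z2]),(z3,[y6,z2,z0,z2,z3]),(z1,[z0,y1,y3,y1,y1,z3])],.ref k12 k0 [(z1,[z3,z2,z6,
    z2,z2,y6]),(z3,[y6,y2,y3,y4,y4,z12]),(z3,[z6,z2,z12,z7,z4,y12]),(z3,[y12,y4,y24,y8,y5,z24]),(z1,[z0,y1,y3,y1,y1,
    z3])],.ref k12 k0 [(z4,[z9,z4,z9,z3,z3,y9]),(z2,[y3,z0,z3,y1,y1,z3]),(z2,[z3,z0,z3,z3,z1,y3]),(z1,[y3,z0,y3,y1,z0,
    z3]),(z1,[z0,y1,y3,y1,y1,z3])],.ref k12 k0 [(z5,[z9,z2]),(z5,[y6,z2,z15]),(z5,[z6,y2,z0,z5]),(z5,[y12,z4,z0,z0,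
    z5]),(z1,[z0,y1,y3,y1,y1,z3])],.ref k12 k0 [(z2,[y3,z2,z9]),(z1,[z1]),(z1,[y1,z0,z3,z1]),(z1,[z2,z0,y6,z0,z1]),
    (z1,[z0,y1,y3,y1,y1,z3])],.ref k12 k0 [(z2,[y9,z2,z18,z3]),(z1,[z3,z0,y3,y1]),(z1,[y3,z0,z6,z2]),(z1,[z6,z0,y12,
    y2,z1]),(z1,[z0,y1,y3,y1,y1,z3])],.ref k12 k0 [(z1,[y3,z1,z6]),(z1,[z2,z0,y1]),(z1,[y2,z0,z4,z1]),(z1,[z4,z0,y8,
    z0,z1]),(z1,[z0,y1,y3,y1,y1,z3])],.ref k12 k0 [(z1,[z9,z1,y9,y3]),(z1,[y6,z0,z9,z2]),(z1,[z6,z0,y6,y1]),(z1,[y12,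
    z0,z12,z4,z1]),(z1,[z0,y1,y3,y1,y1,z3])],.ref k12 k0 [(z4,[z9,z7,z9,y3,z3,y9]),(z2,[y3,y1,z3,z1,y1,z3]),(z2,[z3,
    z1,z3,z1,z1,y3]),(z1,[y3,y1,y3,z1,z0,z3]),(z1,[z0,y1,y3,y1,y1,z3])],.ref k12 k0 [(z2,[y9,y1,y9,z0,z0,z9]),(z1,[z3,
    z1,z6,z0,z0,y3]),(z1,[y3,y1,y3,z1,z0,z3]),(z1,[z6,z2,z6,z0,z1,y6]),(z1,[z0,y1,y3,y1,y1,z3])],.ref k12 k0 [(z2,[z9,
    z8,z18,z3,z6,y18]),(z1,[y3,y2,y3,y1,y2,z6]),(z1,[z3,z2,z6,z2,z2,y6]),(z1,[y6,y4,y12,y2,y3,z12]),(z1,[z0,y1,y3,y1,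
    y1,z3])],.ref k12 k0 [(z1,[z3,z2,z3,z0,z1,y3]),(z3,[y6,y2,z3,z0,y2,z6]),(z3,[z6,z2,z6,z3,z2,y6]),(z3,[y12,y4,y12,
    z0,y1,z12]),(z1,[z0,y1,y3,y1,y1,z3])],.ref k12 k0 [(z1,[y9,z1,z0,z3,z3]),(z1,[z6,z0,z3,y2,y2]),(z1,[y6,z0,z0,z3,
    z2]),(z1,[z12,z0,z0,y4,y3]),(z1,[z0,y1,y3,y1,y1,z3])],.ref k12 k0 [(z4,[y9,y2,y18,y6,y3,z18]),(z2,[z3,z2,z12,z2,
    z1,y6]),(z2,[y3,y2,y6,z0,y1,z6]),(z1,[z3,z2,z6,z2,z2,y6]),(z1,[z0,y1,y3,y1,y1,z3])],.ref k12 k0 [(z1,[y3,z0,y3,y1,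
    z0,z3]),(z3,[z6,z2,z15,z2,z0,y6]),(z3,[y6,y2,y6,z1,z0,z6]),(z3,[z12,z4,z12,z4,z3,y12]),(z1,[z0,y1,y3,y1,y1,z3])],
    .ref k12 k0 [(z1,[z9,z7,z18,z6,z6,y18]),(z1,[y6,y4,y9,y4,y4,z12]),(z1,[z6,z4,z12,z5,z4,y12]),(z1,[y12,y8,y24,y8,
    y7,z24]),(z1,[z0,y1,y3,y1,y1,z3])],.ref k12 k0 [(z2,[z9,z5,z9,z3,z3,y9]),(z1,[y3,y1,z0,y1,y1,z3]),(z1,[z3,z1,z3,
    z2,z1,y3]),(z1,[y6,y2,y6,y2,y1,z6]),(z1,[z0,y1,y3,y1,y1,z3])],.ref k12 k0 [(z1,[z3,z1]),(z1,[y2,z0,z3]),(z1,[z2,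
    z0,z0,z1]),(z1,[y4,z0,z0,z0,z1]),(z1,[z0,y1,y3,y1,y1,z3])]],
    .leafM k0 [k0,k1,k2,k3,k4,k5] [(z1,[z0,z1,z1,z1])] [],
    .lp [k151,k166,k168,k160,k160,k154] [k19,k0,k2,k2,k1,k1,k5,k5,k5,k5,k8,k8] k0 [[k0,k0,k0,k0,k0,k0,k17,k0,k10],[k0,k0,
    k0,k3,k0,k8],[k3],[k0,k0,k0,k0,k0,k16],[k8,k0,k16],[k0,k0,k0,k0,k0,k0,k0,k0,k0,k8,k0,k17],[k0,k0,k0,k0,k0,k0,k0,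
    k0,k16],[k0,k17,k0,k0,k0,k0,k0,k0,k0,k0,k0,k10],[k0,k0,k0,k0,k8,k0,k0,k0,k0,k0,k45],[k0,k10,k0,k0,k0,k0,k0,k16],
    [k0,k0,k0,k0,k17,k0,k10],[k0,k0,k0,k0,k0,k0,k0,k0,k0,k45]] (nat_lit 480) k5
    [[(k8,k120),(k0,k151),(k10,k162),(k2,k168),(k6,k175),(k4,k186)],[(k9,k129),(k11,k133),(k3,k149),(k1,k151),(k5,
    k153),(k7,k154)],[(k0,k149),(k4,k159),(k10,k160),(k2,k163),(k8,k173),(k6,k180)],[(k11,k160),(k3,k163),(k9,k163),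
    (k5,k167),(k1,k168),(k7,k179)],[(k4,k152),(k0,k153),(k10,k161),(k6,k164),(k8,k164),(k2,k167)],[(k5,k152),(k3,
    k159),(k7,k164),(k9,k164),(k11,k169),(k1,k186)],[(k10,k140),(k8,k152),(k0,k154),(k6,k160),(k4,k164),(k2,k179)],
    [(k11,k141),(k7,k160),(k9,k160),(k5,k164),(k1,k175),(k3,k180)],[(k0,k129),(k10,k147),(k6,k160),(k2,k163),(k4,
    k164),(k8,k176)],[(k1,k120),(k7,k152),(k11,k157),(k5,k164),(k3,k173),(k9,k176)],[(k0,k133),(k6,k141),(k8,k157),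
    (k2,k160),(k4,k169),(k10,k199)],[(k7,k140),(k9,k147),(k3,k160),(k5,k161),(k1,k162),(k11,k199)]]
    [] k0
    [[k3,k0,k0,k0,k0,k0],[k2,k1,k0,k0,k0,k0],[k2,k0,k0,k0,k1,k0],[k2,k0,k0,k0,k0,k1],[k1,k1,k0,k0,k1,k0],[k1,k1,k0,k0,
    k0,k1],[k1,k0,k1,k0,k1,k0],[k1,k0,k0,k1,k1,k0],[k1,k0,k0,k1,k0,k1],[k1,k0,k0,k0,k2,k0],[k1,k0,k0,k0,k1,k1],[k0,k1,
    k2,k0,k0,k0],[k0,k0,k3,k0,k0,k0],[k0,k0,k1,k1,k0,k1],[k0,k0,k0,k2,k1,k0],[k0,k0,k0,k2,k0,k1],[k0,k0,k0,k1,k1,k1]]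
    [.ref k192 k6 [(z2,[y2,z3,y9,z12]),(z1,[y1,z0,z0,y3,z3]),(z2,[z2,y3,y3]),(z1,[z0,z0,z1])],.ref k138 k1 [(z1,[y2,
    z0,z1]),(z2,[z2,y1,y1]),(z1,[y1,z0,z0,y1,z1]),(z2,[z6,z1,y3,z4])],.ref k40 k1 [(z1,[y4,y1]),(z1,[z1]),(z2,[y4,y1,
    y1,y2,z2]),(z1,[z3,z1,z0,z1])],.ref k167 k3 [(z2,[y1,z0,z1]),(z4,[y3,z1,z0,z4]),(z2,[z1,z0,y1,y2,z2]),(z4,[y1,
    y1])],.ref k193 k6 [(z2,[y2,z1,y5,z6]),(z2,[y4,y1,y1,y6,z6]),(z2,[z2,y1,y1]),(z1,[z0,z0,z1])],.ref k167 k3 [(z1,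
    [y1,z0,z1]),(z4,[y6,z1,z3,z4]),(z1,[z1,z0,y1,y1,z1]),(z4,[y2,y1,z1])],.ref k194 k4 [(z1,[y2,z1,z0,z2]),(z1,[y1,z1,
    z0,z1]),(z2,[z2,y1,z1,y2]),(z1,[z2,y1,z0,y1])],.ref k167 k3 [(z2,[y4,y1,y1,y4,z4]),(z2,[y6,y1,y3,y4,z6]),(z2,[z4,
    z1,z1,z2,y2]),(z2,[y2,y1,y1,y2,z2])],.ref k195 k0 [(z2,[z2,z3,z1,z2,y2]),(z1,[y1,z0,z1,y1,z1]),(z1,[y2,z0,y1,z1,
    z2]),(z2,[z0,y1,y1,y2,z2])],.ref k138 k1 [(z1,[y2,y1]),(z1,[z1]),(z2,[y2,y1,y1,y2,z2]),(z1,[z3,z2,z0,z2])],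
    .ref k167 k3 [(z6,[y4,y1,z3]),(z1,[y1,z0,z0,z1]),(z6,[z4,z1,y3,y6,z6]),(z3,[y1,y1])],.ref k84 k7 [(z2,[y8,y1,z3,
    y6,z2]),(z1,[z2,z0,y1,z1]),(z1,[y2,z0,z1]),(z2,[z6,z1,y3,z4])],.ref k196 k11 [(z2,[y4,z3,y9,z12]),(z1,[z0,z0,z1]),
    (z1,[y1,z0,y3,z3]),(z2,[z4,y3,z9,y18,z6])],.ref k193 k6 [(z2,[z2,z1,y5,z6,y2]),(z2,[z4,y1,y1,y6,z2]),(z2,[y2,y1,
    y1,z0,z2]),(z1,[z0,z0,z1])],.ref k193 k6 [(z1,[z1,z1,y2,z5,y2]),(z2,[z4,z1,z1,z2,y2]),(z1,[y1,y1,y1,y2,z2]),(z1,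
    [z0,z0,z1])],.ref k194 k4 [(z1,[z1,z1,z1,z2,y2]),(z2,[z1,z2,z1,z2,y2]),(z2,[y1,y1,z0,y2,z2]),(z1,[y1,y1,y1,y1,
    z2])],.ref k197 k6 [(z2,[z2,z1,y3,z4,y2]),(z2,[z4,z1,y3,z2,y2]),(z2,[y2,y1,z1,y2,z2]),(z1,[z0,z0,z1])]],
    .lp [(nat_lit 628),(nat_lit 650),(nat_lit 656),(nat_lit 646),(nat_lit 656),(nat_lit 600)] [k14,k14,k3,k3,k0,k0,k5,k5,
    k0,k0,k28,k28] k0 [[k0,k0,k0,k0,k0,k0,k42,k0,k22],[k0,k0,k0,k0,k0,k6,k0,k0,k0,k0,k0,k12],[k0,k0,k0,k0,k0,k0,k0,k0,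
    k8,k0,k8],[k0,k0,k0,k0,k0,k0,k0,k26],[k6],[k0,k0,k0,k0,k0,k0,k0,k0,k0,k0,k0,k10],[k0,k0,k26],[k0,k42,k0,k0,k0,k0,
    k0,k0,k0,k38],[k0,k0,k0,k0,k0,k0,k38,k0,k0,k0,k114],[k0,k22,k0,k8],[k12,k0,k0,k0,k10],[k0,k0,k0,k8,k0,k0,k0,k0,k0,
    k114]] (nat_lit 1920) k5
    [[(k8,(nat_lit 528)),(k10,(nat_lit 614)),(k2,(nat_lit 631)),(k6,(nat_lit 637)),(k0,(nat_lit 640)),(k4,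
    (nat_lit 652))],[(k11,(nat_lit 592)),(k9,(nat_lit 600)),(k3,(nat_lit 639)),(k1,(nat_lit 640)),(k5,(nat_lit 642)),
    (k7,(nat_lit 643))],[(k10,(nat_lit 613)),(k0,(nat_lit 639)),(k4,(nat_lit 647)),(k2,(nat_lit 650)),(k8,
    (nat_lit 675)),(k6,(nat_lit 690))],[(k11,(nat_lit 617)),(k1,(nat_lit 631)),(k7,(nat_lit 648)),(k3,(nat_lit 650)),
    (k5,(nat_lit 653)),(k9,(nat_lit 679))],[(k6,(nat_lit 625)),(k10,(nat_lit 636)),(k0,(nat_lit 642)),(k2,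
    (nat_lit 653)),(k4,(nat_lit 656)),(k8,(nat_lit 664))],[(k11,(nat_lit 628)),(k3,(nat_lit 647)),(k7,(nat_lit 651)),
    (k1,(nat_lit 652)),(k5,(nat_lit 656)),(k9,(nat_lit 656))],[(k10,(nat_lit 613)),(k0,(nat_lit 643)),(k6,
    (nat_lit 646)),(k2,(nat_lit 648)),(k4,(nat_lit 651)),(k8,(nat_lit 651))],[(k5,(nat_lit 625)),(k1,(nat_lit 637)),
    (k7,(nat_lit 646)),(k9,(nat_lit 651)),(k11,(nat_lit 661)),(k3,(nat_lit 690))],[(k0,(nat_lit 600)),(k8,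
    (nat_lit 618)),(k10,(nat_lit 628)),(k6,(nat_lit 651)),(k4,(nat_lit 656)),(k2,(nat_lit 679))],[(k1,(nat_lit 528)),
    (k9,(nat_lit 618)),(k11,(nat_lit 628)),(k7,(nat_lit 651)),(k5,(nat_lit 664)),(k3,(nat_lit 675))],[(k0,
    (nat_lit 592)),(k2,(nat_lit 617)),(k4,(nat_lit 628)),(k8,(nat_lit 628)),(k6,(nat_lit 661)),(k10,(nat_lit 714))],
    [(k3,(nat_lit 613)),(k7,(nat_lit 613)),(k1,(nat_lit 614)),(k9,(nat_lit 628)),(k5,(nat_lit 636)),(k11,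
    (nat_lit 714))]]
    [] k0
    [[k2,k1,k0,k0,k0,k0],[k2,k0,k0,k0,k1,k0],[k2,k0,k0,k0,k0,k1],[k1,k1,k0,k0,k1,k0],[k1,k1,k0,k0,k0,k1],[k1,k0,k1,k0,
    k1,k0],[k1,k0,k1,k0,k0,k1],[k1,k0,k0,k1,k1,k0],[k1,k0,k0,k1,k0,k1],[k1,k0,k0,k0,k2,k0],[k1,k0,k0,k0,k1,k1],[k0,k2,
    k0,k0,k0,k1],[k0,k1,k1,k0,k0,k1],[k0,k0,k1,k1,k0,k1],[k0,k0,k0,k1,k1,k1],[k0,k0,k0,k0,k3,k0],[k0,k0,k0,k0,k2,k1]]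
    [.ref k122 k0 [(z1,[z2,y1,y2]),(z1,[y1,z2,z4]),(z2,[y1,z2,z1,z6]),(z1,[y1,y1,y2,y3,z3])],.ref k122 k0 [(z3,[z4,
    z1]),(z3,[y2,z4,z9]),(z3,[y1,z2,z0,z9]),(z3,[y2,y5,y9,y9,z9])],.ref k72 k9 [(z1,[z1,y2]),(z1,[y1,y2,y4,y4,z4]),
    (z1,[y1,z2,z0,z8]),(z1,[y1,z2,z4])],.ref k122 k0 [(z1,[z4,y1,y4]),(z1,[y2,z2,z5]),(z1,[y1,z1,z1,z3]),(z1,[y2,y1,
    y1,y3,z3])],.ref k14 k6 [(z1,[y2,z2,z3,z2]),(z1,[z0,y1,y2,y1,z1]),(z1,[z0,z0,z1]),(z1,[z1,y1,y2])],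
    .ref k194 k4 [(z1,[y1,z1,z0,z1]),(z1,[z0,z1]),(z1,[z0,z0,z1]),(z1,[z1,y1])],.ref k122 k0 [(z1,[z4,y1,z0,y4]),(z1,
    [y2,z2,z3,z2]),(z1,[y1,z1,z0,z4]),(z1,[y2,y1,y3,y1,z3])],.ref k122 k0 [(z1,[z4,z3,z4,z4,y4]),(z1,[y2,z0,z1,y2,
    z2]),(z1,[y1,z0,y1,z2,z1]),(z1,[y2,y3,y5,y5,z5])],.ref k14 k6 [(z1,[y2,z0,y1,z0,z2]),(z1,[z0,y1,y2,y1,z1]),(z1,
    [z0,z0,z1]),(z1,[z1,z0,z0,z1,y1])],.ref k122 k0 [(z1,[z2,z1]),(z1,[y1,z1,z3]),(z2,[y1,z1,z0,z6]),(z1,[y1,y2,y3,y3,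
    z3])],.ref k31 k9 [(z1,[z1,y1]),(z1,[y2,y3,y5,y5,z5]),(z1,[y1,z1,z0,z5]),(z1,[y2,z2,z5])],.ref k194 k4 [(z1,[z1,
    z0,y2]),(z1,[z0,z1]),(z1,[z0,z0,z1]),(z1,[y1,z0,z2,z1])],.ref k122 k0 [(z1,[y4,z3,z4,z4]),(z1,[z2,z0,z1,y2]),(z1,
    [z1,z0,y1,z2]),(z1,[z2,y3,y5,y5,z3])],.ref k122 k0 [(z1,[y4,y1,y4,z0,z4]),(z1,[z2,z2,z5,z0,y2]),(z1,[z1,z1,z1,z3,
    y1]),(z1,[z2,y1,y1,y3,z1])],.ref k179 k0 [(z1,[y4,y3,y4,y4,z4]),(z1,[z2,z2,z3,z2,y2]),(z1,[z1,z1,z1,z2,y1]),(z1,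
    [z2,z1,z1,z1,y1])],.ref k122 k0 [(z1,[z4,z3]),(z1,[y2,z0,z3]),(z1,[y1,z0,z0,z3]),(z1,[y2,y3,y3,y3,z3])],
    .ref k14 k6 [(z1,[y2,z0,z1,z2]),(z1,[z0,y1,y2,y1,z1]),(z1,[z0,z0,z1]),(z1,[z1,z0,y1])]],
    .leafM k0 [k1,k2,k3,k4,k5,k0] [(z1,[y1,y1,z0,z1])] [],
    .leafM k0 [k1,k2,k3,k4,k5,k0] [(z1,[y1,y1,z0,z1])] [],
    .leafM k1 [k0,k1,k2,k3,k4,k5] [(z1,[z0,z1]),(z1,[z0,y1,z0,z1])] [],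
    .lp [k168,k170,k154,k164,k140,k162] [k1,k1,k0,k0,k8,k8,k3,k3,k15,k15,k4,k4] k0 [[k0,k0,k0,k0,k0,k0,k0,k0,k4,k0,k8],
    [k0,k0,k0,k0,k0,k0,k0,k8],[k0,k0,k0,k0,k8,k0,k0,k0,k0,k0,k10],[k0,k0,k0,k0,k0,k0,k0,k0,k0,k4],[k0,k0,k0,k0,k0,k0,
    k12],[k0,k0,k0,k8],[k8],[k0,k0,k0,k0,k0,k12],[k0,k0,k4],[k0,k4,k0,k0,k0,k0,k0,k0,k0,k0,k0,k8],[k0,k0,k0,k0,k0,k0,
    k0,k0,k8],[k0,k8,k0,k10]] (nat_lit 480) k5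
    [[(k2,k159),(k0,k160),(k4,k161),(k8,k162),(k10,k165),(k6,k166)],[(k1,k160),(k5,k161),(k11,k161),(k9,k162),(k7,
    k166),(k3,k169)],[(k6,k159),(k8,k159),(k4,k162),(k0,k169),(k2,k170),(k10,k174)],[(k9,k155),(k1,k159),(k7,k159),
    (k5,k162),(k3,k170),(k11,k170)],[(k8,k143),(k6,k159),(k0,k161),(k2,k162),(k4,k162),(k10,k168)],[(k9,k135),(k11,
    k158),(k7,k159),(k1,k161),(k3,k162),(k5,k162)],[(k8,k152),(k2,k159),(k4,k159),(k10,k163),(k0,k166),(k6,k176)],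
    [(k9,k152),(k3,k159),(k5,k159),(k11,k163),(k1,k166),(k7,k176)],[(k4,k135),(k8,k140),(k10,k151),(k6,k152),(k2,
    k155),(k0,k162)],[(k9,k140),(k5,k143),(k11,k151),(k7,k152),(k3,k159),(k1,k162)],[(k8,k151),(k10,k154),(k4,k158),
    (k0,k161),(k6,k163),(k2,k170)],[(k9,k151),(k11,k154),(k7,k163),(k1,k165),(k5,k168),(k3,k174)]]
    [] k0
    [[k1,k0,k1,k0,k1,k0],[k1,k0,k0,k0,k2,k0],[k1,k0,k0,k0,k1,k1],[k0,k1,k1,k0,k1,k0],[k0,k1,k0,k1,k1,k0],[k0,k1,k0,k0,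
    k2,k0],[k0,k0,k2,k0,k1,k0],[k0,k0,k1,k1,k1,k0],[k0,k0,k1,k0,k2,k0],[k0,k0,k1,k0,k1,k1],[k0,k0,k0,k1,k2,k0],[k0,k0,
    k0,k1,k1,k1],[k0,k0,k0,k0,k3,k0],[k0,k0,k0,k0,k2,k1],[k0,k0,k0,k0,k1,k2],[k0,k0,k0,k0,k0,k3]]
    [.ref k12 k0 [(z1,[y10,z3,y10,z0,y10,z10]),(z1,[z2,z0,z5,z0,z2,y2]),(z1,[z5,z0,z5,z3,z5,y5]),(z1,[y4,z0,y4,z0,y1,
    z4]),(z1,[z8,y3,z5,y3,z5,y5])],.ref k12 k0 [(z1,[y5,y2,y10,y10,y10,z10]),(z1,[z1,z1,z5,z2,z2,y2]),(z2,[z5,z5,z10,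
    z16,z10,y10]),(z1,[y2,y2,y4,y4,y1,z4]),(z1,[z4,z1,z5,z5,z5,y5])],.ref k12 k0 [(z1,[z10,z3,z10,z10,z10,y10]),(z1,
    [y2,z0,z1,y2,y2,z2]),(z1,[y5,z0,y5,y2,y5,z5]),(z1,[z4,z0,z4,z4,z7,y4]),(z1,[y8,y3,y11,y11,y11,z11])],
    .ref k12 k0 [(z1,[y2,z1,z0,z0,y2,z2]),(z5,[z2,z2,z15,z0,z2,y2]),(z1,[z1,z1,z0,z3,z1,y1]),(z5,[y4,y4,z0,z0,z11,
    z4]),(z5,[z8,y7,y15,y15,y7,z7])],.ref k12 k0 [(z1,[y5,y2,z0,y5,z0,z5]),(z1,[z1,z1,z3,z1,z0,y1]),(z2,[z5,z5,z0,z11,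
    z0,y5]),(z1,[y2,y2,z0,y2,z3,z2]),(z1,[z4,z1,y3,z1,y3,y1])],.ref k12 k0 [(z3,[y5,y1,y5,y10,y10,z10]),(z3,[z1,z2,
    z10,z2,z2,y2]),(z6,[z5,z10,z5,z28,z10,y10]),(z3,[y2,y4,y2,y4,z5,z4]),(z3,[z4,y1,y5,y1,y1,z1])],.ref k12 k0 [(z3,
    [y5,z4,y5,z5,y5,z5]),(z3,[z1,z1,z10,y1,z1,y1]),(z6,[z5,z5,z5,z13,z5,y5]),(z3,[y2,y2,y2,z2,z7,z2]),(z3,[z4,y5,y5,
    y13,y5,z5])],.ref k12 k0 [(z3,[y10,y1,y10,z0,z0,z10]),(z3,[z2,z2,z11,z0,z0,y2]),(z3,[z5,z5,z5,z9,z0,y5]),(z3,[y4,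
    y4,y4,z0,z9,z4]),(z3,[z8,y1,y1,y9,y9,z1])],.ref k12 k0 [(z7,[y10,z1,y20,y10,y20,z20]),(z7,[z2,z4,z25,z2,z4,y4]),
    (z7,[z5,z10,z10,z26,z10,y10]),(z7,[y4,y8,y8,y4,z13,z8]),(z7,[z8,y5,y5,y13,y5,z5])],.ref k12 k0 [(z2,[y5,z1,y5,z0,
    y5,z5]),(z2,[z1,z1,z7,z0,z1,y1]),(z4,[z5,z5,z5,z12,z5,y5]),(z1,[y1,y1,y1,z0,z2,z1]),(z1,[z2,y1,y1,y3,y1,z1])],
    .ref k12 k0 [(z2,[y5,y4,y10,y10,y5,z10]),(z2,[z1,z2,z8,z2,z1,y2]),(z4,[z5,z10,z10,z22,z5,y10]),(z1,[y1,y2,y2,y2,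
    z2,z2]),(z1,[z2,z1,z1,z1,y1,y1])],.ref k12 k0 [(z1,[y10,y7,y10,y10,z0,z10]),(z1,[z2,z2,z5,z2,z0,y2]),(z1,[z5,z5,
    z5,z8,z0,y5]),(z1,[y4,y4,y4,y4,z3,z4]),(z1,[z8,z5,z5,z5,y3,y5])],.ref k12 k0 [(z4,[y5,y3,y15,y15,y15,z15]),(z4,
    [z1,z3,z15,z3,z3,y3]),(z8,[z5,z15,z15,z39,z15,y15]),(z2,[y1,y3,y3,y3,z3,z3]),(z1,[z1])],.ref k12 k0 [(z1,[y2,y1,
    y4,y4,y4,z4]),(z5,[z2,z4,z19,z4,z4,y4]),(z1,[z1,z2,z2,z5,z2,y2]),(z5,[y4,y8,y8,y8,z7,z8]),(z5,[z8,z1,z1,z1,z1,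
    y1])],.ref k12 k0 [(z1,[y5,y2,y5,y5,y5,z5]),(z1,[z1,z1,z4,z1,z1,y1]),(z2,[z5,z5,z5,z11,z5,y5]),(z1,[y2,y2,y2,y2,
    z1,z2]),(z1,[z4,z1,z1,z1,z1,y1])],.ref k12 k0 [(z1,[z10,z3]),(z1,[y2,z0,z3]),(z1,[y5,z0,z0,z3]),(z1,[z4,z0,z0,z0,
    z3]),(z1,[y8,y3,y3,y3,y3,z3])]],
    .lp [(nat_lit 668),(nat_lit 662),(nat_lit 662),(nat_lit 664),(nat_lit 586),(nat_lit 594)] [k0,k0,k3,k3,k3,k3,k2,k2,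
    k41,k41,k37,k37] k0 [[k0,k0,k0,k0,k0,k0,k0,k0,k76,k0,k28],[k0,k0,k0,k0,k0,k0,k0,k2],[k0,k0,k0,k0,k18,k0,k0,k0,k0,
    k0,k72],[k0,k0,k0,k0,k0,k0,k0,k50,k0,k2],[k0,k0,k0,k0,k0,k0,k6],[k0,k0,k0,k18],[k2,k0,k50],[k0,k0,k0,k0,k0,k6,k0,
    k0,k0,k70],[k0,k0,k2,k0,k0,k0,k70],[k0,k76,k0,k0,k0,k0,k0,k0,k0,k0,k0,k2],[k0,k0,k0,k0,k0,k0,k0,k0,k2],[k0,k28,k0,
    k72]] (nat_lit 1920) k5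
    [[(k2,(nat_lit 593)),(k8,(nat_lit 629)),(k10,(nat_lit 631)),(k0,(nat_lit 640)),(k4,(nat_lit 665)),(k6,
    (nat_lit 666))],[(k11,(nat_lit 555)),(k9,(nat_lit 629)),(k1,(nat_lit 640)),(k3,(nat_lit 665)),(k5,(nat_lit 665)),
    (k7,(nat_lit 666))],[(k10,(nat_lit 656)),(k6,(nat_lit 661)),(k2,(nat_lit 662)),(k4,(nat_lit 662)),(k0,
    (nat_lit 665)),(k8,(nat_lit 700))],[(k1,(nat_lit 593)),(k11,(nat_lit 630)),(k7,(nat_lit 645)),(k3,(nat_lit 662)),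
    (k5,(nat_lit 662)),(k9,(nat_lit 674))],[(k6,(nat_lit 613)),(k8,(nat_lit 622)),(k2,(nat_lit 662)),(k0,
    (nat_lit 665)),(k4,(nat_lit 680)),(k10,(nat_lit 700))],[(k9,(nat_lit 618)),(k11,(nat_lit 628)),(k3,(nat_lit 662)),
    (k7,(nat_lit 663)),(k1,(nat_lit 665)),(k5,(nat_lit 680))],[(k8,(nat_lit 625)),(k10,(nat_lit 629)),(k2,
    (nat_lit 645)),(k4,(nat_lit 663)),(k0,(nat_lit 666)),(k6,(nat_lit 670))],[(k5,(nat_lit 613)),(k9,(nat_lit 625)),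
    (k3,(nat_lit 661)),(k1,(nat_lit 666)),(k7,(nat_lit 670)),(k11,(nat_lit 699))],[(k8,(nat_lit 516)),(k10,
    (nat_lit 590)),(k4,(nat_lit 618)),(k6,(nat_lit 625)),(k0,(nat_lit 629)),(k2,(nat_lit 674))],[(k9,(nat_lit 516)),
    (k11,(nat_lit 590)),(k5,(nat_lit 622)),(k7,(nat_lit 625)),(k1,(nat_lit 629)),(k3,(nat_lit 700))],[(k0,
    (nat_lit 555)),(k8,(nat_lit 590)),(k10,(nat_lit 592)),(k4,(nat_lit 628)),(k2,(nat_lit 630)),(k6,(nat_lit 699))],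
    [(k9,(nat_lit 590)),(k11,(nat_lit 592)),(k7,(nat_lit 629)),(k1,(nat_lit 631)),(k3,(nat_lit 656)),(k5,
    (nat_lit 700))]]
    [] k0
    [[k2,k1,k0,k0,k0,k0],[k2,k0,k0,k0,k1,k0],[k2,k0,k0,k0,k0,k1],[k1,k1,k0,k0,k0,k1],[k1,k0,k1,k0,k1,k0],[k1,k0,k0,k1,
    k0,k1],[k1,k0,k0,k0,k2,k0],[k1,k0,k0,k0,k1,k1],[k1,k0,k0,k0,k0,k2],[k0,k1,k0,k0,k2,k0],[k0,k1,k0,k0,k0,k2],[k0,k0,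
    k1,k1,k1,k0],[k0,k0,k1,k1,k0,k1],[k0,k0,k1,k0,k2,k0],[k0,k0,k1,k0,k1,k1],[k0,k0,k0,k1,k2,k0],[k0,k0,k0,k1,k1,k1],
    [k0,k0,k0,k0,k3,k0],[k0,k0,k0,k0,k2,k1],[k0,k0,k0,k0,k1,k2],[k0,k0,k0,k0,k0,k3]]
    [.ref k12 k0 [(z1,[z2,y1,y2]),(z1,[y1,z2,z4]),(z5,[z4,y8,y4,z15]),(z5,[y2,z4,z2,z0,z15]),(z5,[y8,z1,y7,y15,y15,
    z15])],.ref k12 k0 [(z2,[z5,z1,z5,z5,z5,y5]),(z4,[y5,z5,z7,y5,y5,z5]),(z1,[z1,y1,z1,z4,z1,y1]),(z2,[y1,z1,y1,y1,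
    z5,z1]),(z1,[y2,y1,y5,y5,y5,z5])],.ref k12 k0 [(z7,[z10,z1]),(z7,[y5,z10,z21]),(z7,[z4,y8,z0,z21]),(z7,[y2,z4,z0,
    z0,z21]),(z7,[y8,y5,y21,y21,y21,z21])],.ref k12 k0 [(z1,[z5,y2,y5]),(z2,[y5,z5,z11]),(z1,[z2,y2,y2,z3]),(z1,[y1,
    z1,z1,z0,z3]),(z1,[y4,z1,z1,y3,y3,z3])],.ref k12 k0 [(z1,[z5,z3,z5,z0,z5,y5]),(z2,[y5,z0,z1,z0,y5,z5]),(z1,[z2,z0,
    z2,z3,z2,y2]),(z1,[y1,z0,y1,z0,z2,z1]),(z1,[y4,y3,y7,y3,y7,z7])],.ref k12 k0 [(z3,[z10,y1,z0,z0,y10]),(z3,[y5,z5,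
    z9,z0,z5]),(z3,[z4,y4,z0,z9,y4]),(z3,[y2,z2,z0,z0,z11]),(z3,[y8,y1,y9,y9,y1,z9])],.ref k12 k0 [(z1,[y5,y2,y10,y10,
    y10,z10]),(z2,[z5,z5,z16,z10,z10,y10]),(z1,[y2,y2,y4,y1,y4,z4]),(z1,[z1,z1,z2,z2,z5,y2]),(z1,[z4,z1,z5,z5,z5,
    y5])],.ref k12 k0 [(z1,[z10,z3,z10,z10,z10,y10]),(z1,[y5,z0,y2,y5,y5,z5]),(z1,[z4,z0,z4,z7,z4,y4]),(z1,[y2,z0,y2,
    y2,z1,z2]),(z1,[y8,y3,y11,y11,y11,z11])],.ref k12 k0 [(z2,[z5,z1]),(z4,[y5,z5,z12]),(z1,[z1,y1,z0,z3]),(z2,[y1,z1,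
    z0,z0,z6]),(z1,[y2,y1,y3,y3,y3,z3])],.ref k12 k0 [(z7,[y10,z1,y10,y20,y20,z20]),(z7,[z5,z10,z26,z10,z10,y10]),(z7,
    [y4,y8,y4,z13,y8,z8]),(z7,[z2,z4,z2,z4,z25,y4]),(z7,[z8,y5,y13,y5,y5,z5])],.ref k12 k0 [(z1,[y10,z3,z10]),(z1,[z5,
    z0,y2]),(z1,[y4,z0,z4,z3]),(z1,[z2,z0,y2,z0,z3]),(z1,[z8,y3,y11,y3,y3,z3])],.ref k12 k0 [(z1,[y5,y2,y5,z0,z0,z5]),
    (z2,[z5,z5,z11,z0,z0,y5]),(z1,[y2,y2,y2,z3,z0,z2]),(z1,[z1,z1,z1,z0,z3,y1]),(z1,[z4,z1,z1,y3,y3,y1])],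
    .ref k12 k0 [(z1,[z10,z3,z0,y10,y10]),(z1,[y5,z0,z3,z5,z5]),(z1,[z4,z0,z0,y1,y4]),(z1,[y2,z0,z0,z2,z5]),(z1,[y8,
    y3,y3,z5,z5,z3])],.ref k12 k0 [(z2,[y5,y4,y10,y5,y10,z10]),(z4,[z5,z10,z22,z5,z10,y10]),(z1,[y1,y2,y2,z2,y2,z2]),
    (z2,[z1,z2,z2,z1,z8,y2]),(z1,[z2,z1,z1,y1,z1,y1])],.ref k12 k0 [(z1,[y10,y7,y10,z0,y10,z10]),(z1,[z5,z5,z8,z0,z5,
    y5]),(z1,[y4,y4,y4,z3,y4,z4]),(z1,[z2,z2,z2,z0,z5,y2]),(z1,[z8,z5,z5,y3,z5,y5])],.ref k12 k0 [(z3,[y5,y1,y10,y10,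
    y5,z10]),(z6,[z5,z10,z28,z10,z5,y10]),(z3,[y2,y4,y4,z5,y2,z4]),(z3,[z1,z2,z2,z2,z10,y2]),(z3,[z4,y1,y1,y1,y5,
    z1])],.ref k12 k0 [(z3,[y10,y1,y10,y10,z0,z10]),(z3,[z5,z5,z14,z5,z0,y5]),(z3,[y4,y4,y4,z5,z0,z4]),(z3,[z2,z2,z2,
    z2,z9,y2]),(z3,[z8,y1,y1,y1,y9,z1])],.ref k12 k0 [(z4,[y5,y3,y15,y15,y15,z15]),(z8,[z5,z15,z39,z15,z15,y15]),(z2,
    [y1,y3,y3,z3,y3,z3]),(z4,[z1,z3,z3,z3,z15,y3]),(z1,[z1])],.ref k12 k0 [(z1,[y2,y1,y4,y4,y4,z4]),(z1,[z1,z2,z5,z2,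
    z2,y2]),(z5,[y4,y8,y8,z7,y8,z8]),(z5,[z2,z4,z4,z4,z19,y4]),(z5,[z8,z1,z1,z1,z1,y1])],.ref k12 k0 [(z1,[y5,y2,y5,
    y5,y5,z5]),(z2,[z5,z5,z11,z5,z5,y5]),(z1,[y2,y2,y2,z1,y2,z2]),(z1,[z1,z1,z1,z1,z4,y1]),(z1,[z4,z1,z1,z1,z1,y1])],
    .ref k12 k0 [(z1,[z10,z3]),(z1,[y5,z0,z3]),(z1,[z4,z0,z0,z3]),(z1,[y2,z0,z0,z0,z3]),(z1,[y8,y3,y3,y3,y3,z3])]],
    .lp [(nat_lit 204),(nat_lit 206),(nat_lit 212),(nat_lit 204),k194,(nat_lit 202)] [k4,k4,k3,k3,k0,k0,k4,k4,k9,k9,k5,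
    k5] k0 [[k0,k0,k0,k0,k0,k0,k20,k0,k50],[k0,k0,k0,k12],[k12,k0,k0,k0,k0,k0,k0,k0,k0,k0,k22],[k0,k0,k0,k0,k0,k0,k0,
    k10],[k0,k0,k0,k0,k0,k0,k16],[k0,k0,k0,k0,k0,k0,k0,k0,k0,k6,k0,k2],[k0,k0,k10,k0,k0,k0,k0,k0,k28],[k0,k20,k0,k0,
    k0,k16],[k0,k0,k0,k0,k6,k0,k0,k0,k0,k0,k2],[k0,k50,k0,k0,k0,k0,k0,k28],[k0,k0,k0,k0,k2],[k0,k0,k0,k22,k0,k0,k0,k0,
    k0,k2]] (nat_lit 612) k5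
    [[(k2,k183),(k8,k197),(k10,(nat_lit 203)),(k0,(nat_lit 204)),(k6,(nat_lit 204)),(k4,(nat_lit 210))],[(k11,k153),
    (k9,k179),(k1,(nat_lit 204)),(k7,(nat_lit 204)),(k3,(nat_lit 205)),(k5,(nat_lit 220))],[(k2,k194),(k10,
    (nat_lit 204)),(k0,(nat_lit 205)),(k4,(nat_lit 209)),(k6,(nat_lit 225)),(k8,(nat_lit 250))],[(k1,k183),(k3,k194),
    (k11,(nat_lit 204)),(k7,(nat_lit 205)),(k5,(nat_lit 209)),(k9,(nat_lit 210))],[(k6,k198),(k8,(nat_lit 203)),(k2,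
    (nat_lit 209)),(k4,(nat_lit 212)),(k0,(nat_lit 220)),(k10,(nat_lit 229))],[(k9,k187),(k7,(nat_lit 208)),(k3,
    (nat_lit 209)),(k1,(nat_lit 210)),(k5,(nat_lit 212)),(k11,(nat_lit 213))],[(k8,k193),(k10,(nat_lit 201)),(k0,
    (nat_lit 204)),(k2,(nat_lit 205)),(k4,(nat_lit 208)),(k6,(nat_lit 220))],[(k11,k175),(k5,k198),(k9,k199),(k1,
    (nat_lit 204)),(k7,(nat_lit 220)),(k3,(nat_lit 225))],[(k0,k179),(k4,k187),(k10,k198),(k6,k199),(k2,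
    (nat_lit 210)),(k8,(nat_lit 222))],[(k7,k193),(k1,k197),(k11,k198),(k5,(nat_lit 203)),(k9,(nat_lit 222)),(k3,
    (nat_lit 250))],[(k0,k153),(k6,k175),(k8,k198),(k2,(nat_lit 204)),(k10,(nat_lit 204)),(k4,(nat_lit 213))],[(k9,
    k198),(k7,(nat_lit 201)),(k1,(nat_lit 203)),(k3,(nat_lit 204)),(k11,(nat_lit 204)),(k5,(nat_lit 229))]]
    [] k0
    [[k2,k1,k0,k0,k0,k0],[k2,k0,k0,k0,k1,k0],[k2,k0,k0,k0,k0,k1],[k1,k2,k0,k0,k0,k0],[k1,k1,k0,k0,k0,k1],[k1,k0,k1,k0,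
    k1,k0],[k1,k0,k1,k0,k0,k1],[k1,k0,k0,k1,k1,k0],[k1,k0,k0,k1,k0,k1],[k1,k0,k0,k0,k2,k0],[k1,k0,k0,k0,k1,k1],[k1,k0,
    k0,k0,k0,k2],[k0,k3,k0,k0,k0,k0],[k0,k2,k0,k0,k0,k1],[k0,k1,k0,k1,k0,k1],[k0,k0,k2,k0,k1,k0],[k0,k0,k1,k1,k1,k0],
    [k0,k0,k0,k2,k0,k1],[k0,k0,k0,k1,k1,k1],[k0,k0,k0,k1,k0,k2],[k0,k0,k0,k0,k1,k2]]
    [.ref k12 k0 [(z1,[z3,y1,y3]),(z1,[y3,z2,z6]),(z2,[y3,z2,z3,z2]),(z1,[z0,z0,z0,z0,z1]),(z1,[z0,y1,y3,y1,y1,z3])],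
    .ref k12 k0 [(z2,[z3,z1,z3,z1,z1,y3]),(z2,[y3,z1,z3,y1,y1,z3]),(z4,[y3,z1,y3,z3,y1,z3]),(z1,[z0,z0,z0,z0,z1]),(z1,
    [z0,y1,y3,y1,y1,z3])],.ref k12 k0 [(z5,[z6,z1]),(z5,[y6,z4,z15]),(z5,[y3,z2,z0,z5]),(z1,[z0,z0,z0,z0,z1]),(z1,[z0,
    y1,y3,y1,y1,z3])],.ref k12 k0 [(z1,[y3,z2,z6]),(z1,[z3,y1,y3]),(z2,[z3,y1,y6,z2]),(z1,[z0,z0,z0,z0,z1]),(z1,[z0,
    y1,y3,y1,y1,z3])],.ref k12 k0 [(z1,[z6,y1,y6]),(z1,[y6,z2,z9]),(z1,[y3,z1,z3,z1]),(z1,[z0,z0,z0,z0,z1]),(z1,[z0,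
    y1,y3,y1,y1,z3])],.ref k12 k0 [(z1,[z6,z1,z6,z0,z2,y6]),(z1,[y6,z0,y3,z0,y2,z6]),(z1,[y3,z0,y3,z1,y1,z3]),(z1,[z0,
    z0,z0,z0,z1]),(z1,[z0,y1,y3,y1,y1,z3])],.ref k12 k0 [(z1,[z3,z0,z0,y1]),(z1,[y3,z1,z3,z1]),(z2,[y3,z1,z0,z3]),(z1,
    [z0,z0,z0,z0,z1]),(z1,[z0,y1,y3,y1,y1,z3])],.ref k12 k0 [(z1,[z3,z1,z3,z1,z0,y3]),(z1,[y3,z0,z0,y1,z0,z3]),(z2,
    [y3,z0,y3,z1,z0,z3]),(z1,[z0,z0,z0,z0,z1]),(z1,[z0,y1,y3,y1,y1,z3])],.ref k12 k0 [(z3,[z6,z1,z0,z0,y2]),(z3,[y6,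
    z2,z9,z0,z2]),(z3,[y3,z1,z0,z3,z1]),(z1,[z0,z0,z0,z0,z1]),(z1,[z0,y1,y3,y1,y1,z3])],.ref k12 k0 [(z1,[z3,z2,z6,z2,
    z2,y6]),(z1,[y3,y1,y3,y2,y2,z6]),(z2,[y3,y1,y6,z0,y2,z6]),(z1,[z0,z0,z0,z0,z1]),(z1,[z0,y1,y3,y1,y1,z3])],
    .ref k12 k0 [(z3,[z6,z3,z6,z2,z2,y6]),(z3,[y6,z0,z3,y2,y2,z6]),(z3,[y3,z0,y3,z2,y1,z3]),(z1,[z0,z0,z0,z0,z1]),(z1,
    [z0,y1,y3,y1,y1,z3])],.ref k12 k0 [(z2,[z3,z1]),(z2,[y3,z1,z6]),(z4,[y3,z1,z0,z4]),(z1,[z0,z0,z0,z0,z1]),(z1,[z0,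
    y1,y3,y1,y1,z3])],.ref k12 k0 [(z1,[y1,z1,z3]),(z1,[z1]),(z2,[z1,z0,y3,z2]),(z1,[z0,z0,z0,z0,z1]),(z1,[z0,y1,y3,
    y1,y1,z3])],.ref k12 k0 [(z1,[y2,z1,z4]),(z1,[z2,z0,y1]),(z1,[z1,z0,y2,z1]),(z1,[z0,z0,z0,z0,z1]),(z1,[z0,y1,y3,
    y1,y1,z3])],.ref k12 k0 [(z1,[y6,z1,z6,z0,z2]),(z1,[z6,z0,y3,z0,y2]),(z1,[z3,z0,y3,z1,y1]),(z1,[z0,z0,z0,z0,z1]),
    (z1,[z0,y1,y3,y1,y1,z3])],.ref k12 k0 [(z1,[y3,z0,y3,z1,y1,z3]),(z1,[z3,z1,z6,y1,z1,y3]),(z2,[z3,z1,z3,z1,z1,y3]),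
    (z1,[z0,z0,z0,z0,z1]),(z1,[z0,y1,y3,y1,y1,z3])],.ref k12 k0 [(z1,[y6,y1,y6,z0,z0,z6]),(z1,[z6,z2,z9,z0,z0,y6]),
    (z1,[z3,z1,z3,z1,z0,y3]),(z1,[z0,z0,z0,z0,z1]),(z1,[z0,y1,y3,y1,y1,z3])],.ref k12 k0 [(z1,[z6,z1,z0,z0,y4]),(z1,
    [y6,z0,z3,z0,z4]),(z1,[y3,z0,z0,z1,z2]),(z1,[z0,z0,z0,z0,z1]),(z1,[z0,y1,y3,y1,y1,z3])],.ref k12 k0 [(z1,[z6,z3,
    z6,z2,z0,y6]),(z1,[y6,y2,y3,y2,z0,z6]),(z1,[y3,y1,y3,z0,z0,z3]),(z1,[z0,z0,z0,z0,z1]),(z1,[z0,y1,y3,y1,y1,z3])],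
    .ref k12 k0 [(z1,[z3,z1,z0,z0,y1]),(z1,[y3,z0,z3,z0,z1]),(z2,[y3,z0,z0,z2,z1]),(z1,[z0,z0,z0,z0,z1]),(z1,[z0,y1,
    y3,y1,y1,z3])],.ref k12 k0 [(z1,[z3,z2,z3,z1,z1,y3]),(z1,[y3,y1,z0,y1,y1,z3]),(z2,[y3,y1,y3,z1,y1,z3]),(z1,[z0,z0,
    z0,z0,z1]),(z1,[z0,y1,y3,y1,y1,z3])]],
    .leafM k0 [k2,k3,k4,k5,k0,k1] [(z6,[y2,y3,y1,z0,z6])] [],
    .lp [(nat_lit 628),(nat_lit 650),(nat_lit 656),(nat_lit 646),(nat_lit 656),(nat_lit 600)] [k14,k14,k3,k3,k0,k0,k5,k5,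
    k0,k0,k28,k28] k0 [[k0,k0,k0,k0,k0,k0,k42,k0,k22],[k0,k0,k0,k0,k0,k6,k0,k0,k0,k0,k0,k12],[k0,k0,k0,k0,k0,k0,k0,k0,
    k8,k0,k8],[k0,k0,k0,k0,k0,k0,k0,k26],[k6],[k0,k0,k0,k0,k0,k0,k0,k0,k0,k0,k0,k10],[k0,k0,k26],[k0,k42,k0,k0,k0,k0,
    k0,k0,k0,k38],[k0,k0,k0,k0,k0,k0,k38,k0,k0,k0,k114],[k0,k22,k0,k8],[k12,k0,k0,k0,k10],[k0,k0,k0,k8,k0,k0,k0,k0,k0,
    k114]] (nat_lit 1920) k5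
    [[(k8,(nat_lit 528)),(k10,(nat_lit 614)),(k2,(nat_lit 631)),(k6,(nat_lit 637)),(k0,(nat_lit 640)),(k4,
    (nat_lit 652))],[(k11,(nat_lit 592)),(k9,(nat_lit 600)),(k3,(nat_lit 639)),(k1,(nat_lit 640)),(k5,(nat_lit 642)),
    (k7,(nat_lit 643))],[(k10,(nat_lit 613)),(k0,(nat_lit 639)),(k4,(nat_lit 647)),(k2,(nat_lit 650)),(k8,
    (nat_lit 675)),(k6,(nat_lit 690))],[(k11,(nat_lit 617)),(k1,(nat_lit 631)),(k7,(nat_lit 648)),(k3,(nat_lit 650)),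
    (k5,(nat_lit 653)),(k9,(nat_lit 679))],[(k6,(nat_lit 625)),(k10,(nat_lit 636)),(k0,(nat_lit 642)),(k2,
    (nat_lit 653)),(k4,(nat_lit 656)),(k8,(nat_lit 664))],[(k11,(nat_lit 628)),(k3,(nat_lit 647)),(k7,(nat_lit 651)),
    (k1,(nat_lit 652)),(k5,(nat_lit 656)),(k9,(nat_lit 656))],[(k10,(nat_lit 613)),(k0,(nat_lit 643)),(k6,
    (nat_lit 646)),(k2,(nat_lit 648)),(k4,(nat_lit 651)),(k8,(nat_lit 651))],[(k5,(nat_lit 625)),(k1,(nat_lit 637)),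
    (k7,(nat_lit 646)),(k9,(nat_lit 651)),(k11,(nat_lit 661)),(k3,(nat_lit 690))],[(k0,(nat_lit 600)),(k8,
    (nat_lit 618)),(k10,(nat_lit 628)),(k6,(nat_lit 651)),(k4,(nat_lit 656)),(k2,(nat_lit 679))],[(k1,(nat_lit 528)),
    (k9,(nat_lit 618)),(k11,(nat_lit 628)),(k7,(nat_lit 651)),(k5,(nat_lit 664)),(k3,(nat_lit 675))],[(k0,
    (nat_lit 592)),(k2,(nat_lit 617)),(k4,(nat_lit 628)),(k8,(nat_lit 628)),(k6,(nat_lit 661)),(k10,(nat_lit 714))],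
    [(k3,(nat_lit 613)),(k7,(nat_lit 613)),(k1,(nat_lit 614)),(k9,(nat_lit 628)),(k5,(nat_lit 636)),(k11,
    (nat_lit 714))]]
    [] k0
    [[k2,k1,k0,k0,k0,k0],[k2,k0,k0,k0,k1,k0],[k2,k0,k0,k0,k0,k1],[k1,k1,k0,k0,k1,k0],[k1,k1,k0,k0,k0,k1],[k1,k0,k1,k0,
    k1,k0],[k1,k0,k1,k0,k0,k1],[k1,k0,k0,k1,k1,k0],[k1,k0,k0,k1,k0,k1],[k1,k0,k0,k0,k2,k0],[k1,k0,k0,k0,k1,k1],[k0,k2,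
    k0,k0,k0,k1],[k0,k1,k1,k0,k0,k1],[k0,k0,k1,k1,k0,k1],[k0,k0,k0,k1,k1,k1],[k0,k0,k0,k0,k3,k0],[k0,k0,k0,k0,k2,k1]]
    [.ref k108 k10 [(z1,[z1,y2,z0,y4]),(z1,[z0,z1,z0,z2]),(z2,[y1,z2,z1,z4]),(z2,[z1,y2,y1,y2])],
    .ref (nat_lit 203) k10 [(z1,[z2,y4,z1,y10]),(z1,[z0,z1,z0,z2]),(z1,[y1,z2,z0,z5]),(z1,[z1,y2,z0,y4])],
    .ref (nat_lit 204) k7 [(z1,[z2,y5,y1,y11,z1]),(z1,[y1,z2,z0,z5]),(z1,[z1,y2,z0,y4]),(z1,[z0,z1,z0,z2])],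
    .ref (nat_lit 205) k0 [(z1,[z2,z1,y2]),(z1,[z0,z0,z1]),(z1,[y1,z1,z1,z3]),(z1,[y2,y1,y1,y3,z3])],
    .ref k108 k10 [(z1,[z2,y2,y1,y4]),(z1,[z0,z1,z0,z2]),(z1,[y1,z1,z1,z2]),(z1,[z1,y1,y1,y1])],.ref k108 k10 [(z1,
    [z2,y2,z1,y6]),(z1,[z0,z1,z0,z2]),(z1,[y1,z1,z0,z3]),(z1,[z1,y1,z0,y2])],.ref k10 k7 [(z1,[z2,y3,y1,y7,z1]),(z1,
    [y1,z1,z0,z3]),(z1,[z1,y1,z0,y2]),(z1,[z0,z1,z0,z2])],.ref k10 k7 [(z1,[z2,y1,z1,y3,y1]),(z1,[y1,z0,y1,z1,z1]),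
    (z1,[z1,z0,z1,z0,y1]),(z1,[z0,z1,z0,z2])],.ref k195 k0 [(z1,[z2,z3,z2,z2,y2]),(z1,[y2,z0,z1,y2,z2]),(z1,[y1,z0,y1,
    z2,z1]),(z1,[z0,y1,y1,y1,z1])],.ref k108 k10 [(z1,[z1,y1,z1,y4]),(z1,[z0,z1,z0,z2]),(z2,[y1,z1,z0,z4]),(z2,[z1,y1,
    z0,y2])],.ref (nat_lit 206) k11 [(z1,[z2,z1]),(z1,[z0,z0,z1]),(z1,[z2,y2,y3]),(z1,[y2,y1,z0,y3,z3])],
    .ref k195 k0 [(z1,[y2,z3,z4]),(z1,[z2,z0,y1]),(z1,[z1,z0,y2,z3]),(z1,[z0,y1,y1,y1,z1])],.ref k10 k7 [(z1,[y2,y1,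
    z1,y3,z1]),(z1,[z1,z0,y1,z1]),(z1,[y1,z0,z1]),(z1,[z0,z1,z0,z2])],.ref (nat_lit 205) k0 [(z1,[y2,z1,y2,z0,z2]),
    (z1,[z0,z0,z1]),(z1,[z1,z1,z1,z3,y1]),(z1,[z2,y1,y1,y3,z1])],.ref k179 k0 [(z1,[y2,y1,y2,y2,z2]),(z1,[z0,z0,z1]),
    (z1,[z1,z1,z1,z2,y1]),(z1,[z2,z1,z1,z1,y1])],.ref (nat_lit 205) k0 [(z1,[z2,z3]),(z1,[z0,z0,z1]),(z1,[y1,z0,z0,
    z3]),(z1,[y2,y3,y3,y3,z3])],.ref k108 k10 [(z1,[z2,z0,z1,y4]),(z1,[z0,z1,z0,z2]),(z1,[y1,z0,z0,z2]),(z1,[z1,z0,z0,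
    y1])]]]

noncomputable def cT6_3_n4_3 : List TN :=
  [.leafM k0 [k1,k2,k3,k4,k5,k0] [(z1,[y1,y1,z0,z1])] [],
    .lp [(nat_lit 320),(nat_lit 322),(nat_lit 320),(nat_lit 326),(nat_lit 344),(nat_lit 284)] [k12,k12,k11,k11,k12,k12,k9,
    k9,k0,k0,k30,k30] k0 [[k0,k0,k32],[k0,k0,k0,k0,k0,k62],[k0,k0,k0,k0,k32,k0,k0,k0,k0,k0,k36],[k0,k32,k0,k0,k0,k0,
    k0,k36],[k62,k0,k0,k0,k0,k0,k24],[k0,k0,k0,k32,k0,k0,k0,k0,k0,k68],[k0,k0,k36,k0,k0,k0,k0,k0,k26],[k0,k0,k0,k0,k0,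
    k24,k0,k0,k0,k0,k0,k38],[k0,k0,k0,k0,k68,k0,k0,k0,k0,k0,k92],[k0,k0,k0,k0,k0,k0,k0,k26],[k0,k0,k0,k0,k0,k0,k38],
    [k0,k0,k0,k36,k0,k0,k0,k0,k0,k92]] (nat_lit 960) k5
    [[(k8,(nat_lit 240)),(k2,(nat_lit 285)),(k10,(nat_lit 302)),(k0,(nat_lit 320)),(k4,(nat_lit 320)),(k6,
    (nat_lit 361))],[(k5,(nat_lit 288)),(k11,(nat_lit 302)),(k1,(nat_lit 320)),(k3,(nat_lit 321)),(k9,(nat_lit 332)),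
    (k7,(nat_lit 385))],[(k4,(nat_lit 259)),(k10,(nat_lit 303)),(k0,(nat_lit 321)),(k6,(nat_lit 324)),(k8,
    (nat_lit 333)),(k2,(nat_lit 354))],[(k1,(nat_lit 285)),(k7,(nat_lit 292)),(k11,(nat_lit 303)),(k5,(nat_lit 321)),
    (k3,(nat_lit 354)),(k9,(nat_lit 369))],[(k6,(nat_lit 287)),(k0,(nat_lit 288)),(k2,(nat_lit 321)),(k8,
    (nat_lit 332)),(k10,(nat_lit 338)),(k4,(nat_lit 352))],[(k3,(nat_lit 259)),(k9,(nat_lit 308)),(k1,(nat_lit 320)),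
    (k7,(nat_lit 323)),(k5,(nat_lit 352)),(k11,(nat_lit 370))],[(k8,(nat_lit 267)),(k2,(nat_lit 292)),(k10,
    (nat_lit 305)),(k4,(nat_lit 323)),(k6,(nat_lit 350)),(k0,(nat_lit 385))],[(k11,(nat_lit 279)),(k5,(nat_lit 287)),
    (k3,(nat_lit 324)),(k9,(nat_lit 335)),(k7,(nat_lit 350)),(k1,(nat_lit 361))],[(k10,(nat_lit 276)),(k4,
    (nat_lit 308)),(k0,(nat_lit 332)),(k6,(nat_lit 335)),(k2,(nat_lit 369)),(k8,(nat_lit 370))],[(k1,(nat_lit 240)),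
    (k7,(nat_lit 267)),(k11,(nat_lit 314)),(k5,(nat_lit 332)),(k3,(nat_lit 333)),(k9,(nat_lit 370))],[(k6,
    (nat_lit 279)),(k0,(nat_lit 302)),(k2,(nat_lit 303)),(k8,(nat_lit 314)),(k4,(nat_lit 370)),(k10,(nat_lit 376))],
    [(k9,(nat_lit 276)),(k1,(nat_lit 302)),(k3,(nat_lit 303)),(k7,(nat_lit 305)),(k5,(nat_lit 338)),(k11,
    (nat_lit 376))]]
    [] k0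
    [[k2,k1,k0,k0,k0,k0],[k2,k0,k1,k0,k0,k0],[k2,k0,k0,k0,k1,k0],[k2,k0,k0,k0,k0,k1],[k1,k1,k1,k0,k0,k0],[k1,k1,k0,k0,
    k1,k0],[k1,k1,k0,k0,k0,k1],[k1,k0,k1,k0,k1,k0],[k1,k0,k0,k0,k2,k0],[k1,k0,k0,k0,k1,k1],[k0,k2,k1,k0,k0,k0],[k0,k1,
    k2,k0,k0,k0],[k0,k1,k1,k1,k0,k0],[k0,k1,k1,k0,k0,k1],[k0,k1,k0,k1,k0,k1],[k0,k1,k0,k0,k1,k1],[k0,k0,k1,k1,k1,k0],
    [k0,k0,k1,k1,k0,k1],[k0,k0,k0,k2,k1,k0],[k0,k0,k0,k2,k0,k1],[k0,k0,k0,k1,k1,k1]]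
    [.ref k190 k4 [(z1,[y1,z2,z1]),(z1,[z1,z0,y1]),(z1,[z0,z0,z1])],.ref k191 k4 [(z2,[y1,z1,y1,z1]),(z2,[z1,z1,z1,
    y1]),(z1,[z0,z0,z1])],.ref k198 k4 [(z1,[y1,z2]),(z1,[z1]),(z1,[z0,z0,z1])],.ref k199 k4 [(z1,[y1,z2]),(z1,[z1,
    y1]),(z1,[z0,z0,z1])],.ref (nat_lit 200) k3 [(z1,[z1,z0,z1,y1]),(z1,[z0,z0,y1,z1]),(z1,[z0,y1])],
    .ref k191 k4 [(z1,[y1,z1,z1]),(z1,[z1,z0,y1]),(z1,[z0,z0,z1])],.ref (nat_lit 201) k0 [(z1,[z2,y1,y2]),(z1,[y1,z1,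
    z2]),(z1,[y2,z1,z1,z1])],.ref (nat_lit 202) k0 [(z1,[z0,z1]),(z1,[y1,z0,z0,z1]),(z1,[z0,y1,y1,z1])],
    .ref (nat_lit 207) k4 [(z1,[y1,z1]),(z1,[z1]),(z1,[z0,z0,z1])],.ref (nat_lit 208) k1 [(z1,[z2,y1,y2]),(z1,[y1,z1,
    z2]),(z1,[z1,y1,y1])],.ref (nat_lit 208) k1 [(z1,[y1,z0,y1,z1]),(z2,[z1,z1,z3,y1]),(z2,[y1,y1,y1,z1])],
    .ref k37 k3 [(z1,[z1,z0,z2,y2]),(z1,[z0,z0,y1,z1]),(z1,[z0,y1])],.ref (nat_lit 208) k1 [(z1,[y2,y1,y2,z2]),(z1,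
    [z1,z1,z2,y1]),(z1,[y1,y1,y1,z1])],.ref k186 k4 [(z1,[z1,z1,z0,y1]),(z1,[y1,z0,z0,z1]),(z1,[z0,z0,z1])],
    .ref (nat_lit 202) k0 [(z1,[z0,z1]),(z1,[z1]),(z1,[z0,y1,y1,z1])],.ref k191 k4 [(z1,[z1,z0,y1]),(z1,[y1,z1,z1]),
    (z1,[z0,z0,z1])],.ref (nat_lit 201) k0 [(z1,[y2,y1,y2,z2]),(z1,[z1,z1,z2,y1]),(z1,[z2,z1,z1,y1])],
    .ref k191 k4 [(z1,[z1,z1,z1,y1]),(z1,[y1,z0,y1,z1]),(z1,[z0,z0,z1])],.ref (nat_lit 208) k1 [(z1,[z2,z1,y2]),(z1,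
    [y1,z0,z2]),(z1,[z1,z0,y1])],.ref k140 k7 [(z1,[z0,y1,y1,z1]),(z1,[z0,z1,z3,y1]),(z1,[z1,z1,z1,y1])],
    .ref (nat_lit 200) k3 [(z1,[y1,z0,z1]),(z1,[z0,z0,y1,z1]),(z1,[z0,y1])]],
    .leafM k0 [k0,k1,k2,k3,k4,k5] [(z1,[z0,z1,z1])] [],
    .leafM k0 [k1,k2,k3,k4,k5,k0] [(z1,[y1,y1,z0,z1])] [],
    .leafM k0 [k1,k2,k3,k4,k5,k0] [(z1,[y1,y1,z0,z1])] [],
    .leafM k0 [k1,k2,k3,k4,k5,k0] [(z1,[y1,y1,z0,z0,z1])] [],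
    .lp [k164,k164,k164,k152,k140,k174] [k5,k5,k5,k5,k5,k5,k11,k11,k25,k9,k0,k0] k0 [[k0,k0,k0,k0,k0,k0,k0,k0,k0,k0,k2],
    [k0,k0,k0,k20,k0,k0,k0,k0,k0,k10],[k20],[k0,k0,k0,k0,k0,k0,k0,k0,k0,k0,k0,k22],[k0,k0,k0,k0,k0,k0,k40],[k0,k0,k0,
    k0,k0,k0,k0,k0,k0,k4],[k0,k0,k0,k0,k0,k0,k0,k0,k6,k0,k20],[k0,k0,k0,k0,k0,k40],[k10,k0,k0,k0,k4],[k0,k0,k0,k0,k0,
    k0,k0,k6,k0,k0,k0,k14],[k0,k0,k22,k0,k0,k0,k0,k0,k14],[k0,k2,k0,k0,k0,k0,k0,k20]] (nat_lit 480) k5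
    [[(k6,k138),(k8,k158),(k0,k162),(k4,k164),(k10,k169),(k2,k186)],[(k7,k158),(k9,k160),(k1,k162),(k3,k164),(k11,
    k179),(k5,k184)],[(k8,k134),(k2,k144),(k6,k158),(k0,k164),(k4,k164),(k10,k171)],[(k3,k144),(k7,k158),(k9,k160),
    (k5,k164),(k11,k169),(k1,k186)],[(k8,k144),(k10,k147),(k6,k158),(k2,k164),(k4,k164),(k0,k184)],[(k9,k120),(k7,
    k158),(k1,k164),(k3,k164),(k5,k164),(k11,k173)],[(k8,k134),(k0,k158),(k2,k158),(k4,k158),(k10,k163),(k6,k192)],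
    [(k1,k138),(k9,k154),(k11,k157),(k3,k158),(k5,k158),(k7,k192)],[(k4,k120),(k8,k146),(k6,k154),(k0,k160),(k2,k160),
    (k10,k185)],[(k3,k134),(k7,k134),(k5,k144),(k9,k146),(k11,k149),(k1,k158)],[(k8,k149),(k6,k157),(k10,k160),(k2,
    k169),(k4,k173),(k0,k179)],[(k5,k147),(k11,k160),(k7,k163),(k1,k169),(k3,k171),(k9,k185)]]
    [] k0
    [[k2,k0,k0,k1,k0,k0],[k1,k0,k1,k0,k1,k0],[k1,k1,k0,k1,k0,k0],[k1,k0,k0,k1,k1,k0],[k1,k0,k0,k0,k2,k0],[k1,k0,k0,k0,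
    k1,k1],[k0,k3,k0,k0,k0,k0],[k0,k2,k1,k0,k0,k0],[k0,k2,k0,k1,k0,k0],[k0,k2,k0,k0,k1,k0],[k0,k1,k1,k0,k1,k0],[k0,k1,
    k0,k1,k1,k0],[k0,k1,k0,k0,k2,k0],[k0,k0,k2,k0,k1,k0],[k0,k0,k1,k1,k1,k0],[k0,k0,k1,k0,k2,k0],[k0,k0,k1,k1,k0,k1],
    [k0,k0,k1,k0,k1,k1],[k0,k0,k0,k1,k2,k0],[k0,k0,k0,k1,k1,k1],[k0,k0,k0,k0,k3,k0]]
    [.ref k12 k0 [(z44,[z60,z1,z0,z0,y15]),(z11,[y24,z4,z33,z0,z6]),(z1,[z0,z0,z0,z1]),(z22,[z6,y1,z0,z0,z15]),(z44,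
    [y24,y7,(Int.negSucc (nat_lit 131)),y44,y27,(Int.ofNat (nat_lit 132))])],.ref k12 k0 [(z4,[z20,z1,z20,z0,z5,y20]),
    (z1,[y8,z0,y5,z0,y2,z8]),(z1,[z0,z0,z0,z1]),(z1,[z1,z0,z1,z0,z1,y1]),(z4,[y8,y1,y20,y4,y5,z20])],.ref k12 k0 [(z8,
    [y60,z7,z60,z0,z15]),(z1,[z12,y1,y9,z0,y3]),(z1,[z0,z0,z0,z1]),(z8,[y12,z1,z12,z0,z9]),(z2,[z6,y1,y12,y2,y3,z6])],
    .ref k12 k0 [(z4,[z15,z1,z15,z5,z0,y15]),(z1,[y6,z0,y3,y2,z0,z6]),(z1,[z0,z0,z0,z1]),(z4,[z3,z0,z3,z1,z3,y3]),(z4,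
    [y6,y1,y18,y6,y3,z18])],.ref k12 k0 [(z2,[z30,z3,z60,z20,z15,y60]),(z1,[y24,y2,y45,y16,y12,z48]),(z1,[z0,z0,z0,
    z1]),(z4,[z12,z1,z24,z8,z9,y24]),(z4,[y24,y3,y60,y20,y15,z60])],.ref k12 k0 [(z28,[z60,z7,z60,z20,z15,y60]),(z7,
    [y24,z0,y3,y8,y6,z24]),(z1,[z0,z0,z0,z1]),(z7,[z3,z0,z3,z1,z6,y3]),(z28,[y24,y7,(Int.negSucc (nat_lit 107)),y36,
    y27,(Int.ofNat (nat_lit 108))])],.ref k12 k0 [(z8,[y5,z2,z15]),(z1,[z1]),(z1,[z0,z0,z0,z1]),(z8,[y1,z0,z3,z0,z6]),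
    (z4,[z1,y1,y15,y4,y3,z12])],.ref k12 k0 [(z16,[y15,z4,z30,z5]),(z2,[z3,z0,z0,y1]),(z1,[z0,z0,z0,z1]),(z16,[y3,z0,
    z6,z1,z12]),(z8,[z3,y2,y30,y9,y6,z24])],.ref k12 k0 [(z4,[y4,z1,z8,z0,z1]),(z5,[z8,z0,y1,z0,y2]),(z1,[z0,z0,z0,
    z1]),(z5,[y1,z0,z2,z0,z4]),(z20,[z8,y5,y76,y20,y17,z60])],.ref k12 k0 [(z72,[y60,z13,z60,y20,y15,z60]),(z9,[z12,
    z1,z15,z4,z3,y12]),(z1,[z0,z0,z0,z1]),(z72,[y12,y1,z12,y4,z51,z12]),(z9,[z3,y2,y30,y8,y6,z24])],.ref k12 k0 [(z8,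
    [y12,z1,z0,z0,y3,z12]),(z5,[z12,z1,z15,z0,z3,y12]),(z1,[z0,z0,z0,z1]),(z40,[y12,y1,z0,z0,z27,z12]),(z5,[z3,y1,y15,
    y5,y3,z12])],.ref k12 k0 [(z9,[y15,z1,z0,y5,z0,z15]),(z9,[z24,z2,z27,z8,z0,y24]),(z1,[z0,z0,z0,z1]),(z36,[y12,y1,
    z0,y4,z27,z12]),(z36,[z24,y7,(Int.negSucc (nat_lit 107)),y28,y27,z84])],.ref k12 k0 [(z24,[y30,z1,y30,y20,y15,
    z60]),(z3,[z6,z1,z15,z4,z3,y12]),(z1,[z0,z0,z0,z1]),(z24,[y6,y1,y6,y4,z15,z12]),(z6,[z3,y1,y15,y4,y3,z12])],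
    .ref k12 k0 [(z8,[y60,y3,y60,z20,y15,z60]),(z1,[z12,z1,z15,y4,z3,y12]),(z1,[z0,z0,z0,z1]),(z8,[y12,y1,y12,z4,z3,
    z12]),(z1,[z3,z0,z0,y2])],.ref k12 k0 [(z1,[y15,y1,y15,z0,z0,z15]),(z1,[z24,z2,z27,z0,z0,y24]),(z1,[z0,z0,z0,z1]),
    (z4,[y12,y1,y12,z0,z3,z12]),(z4,[z24,z1,z12,y4,y3,y12])],.ref k12 k0 [(z8,[y30,y3,y60,y10,y15,z60]),(z1,[z6,z1,
    z15,z2,z3,y12]),(z1,[z0,z0,z0,z1]),(z8,[y6,y1,y12,y2,z3,z12]),(z2,[z3,z0,z0,y1])],.ref k12 k0 [(z4,[z12,z1,z0,y4,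
    y3]),(z5,[y24,z0,z15,z8,z6]),(z1,[z0,z0,z0,z1]),(z5,[z3,z0,z0,y1,z3]),(z20,[y24,y5,y60,y12,y9,z60])],
    .ref k12 k0 [(z8,[z60,z7,z60,z0,z15,y60]),(z1,[y12,y1,y9,z0,y3,z12]),(z1,[z0,z0,z0,z1]),(z8,[z12,z1,z12,z0,z9,
    y12]),(z2,[y6,y1,y12,y2,y3,z12])],.ref k12 k0 [(z12,[y60,y7,(Int.negSucc (nat_lit 119)),y40,y15,
    (Int.ofNat (nat_lit 120))]),(z3,[z24,z4,z57,z16,z6,y48]),(z1,[z0,z0,z0,z1]),(z6,[y6,y1,y12,y4,z3,z12]),(z12,[z24,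
    z1,z12,z4,y3,y12])],.ref k12 k0 [(z3,[z15,z2,z15,z5,z0,y15]),(z3,[y24,y2,y15,y8,z0,z24]),(z1,[z0,z0,z0,z1]),(z12,
    [z12,z1,z12,z4,z9,y12]),(z12,[y24,y5,y60,y20,y9,z60])],.ref k12 k0 [(z8,[y20,y3,y60,y20,y15,z60]),(z1,[z4,z1,z15,
    z4,z3,y12]),(z1,[z0,z0,z0,z1]),(z8,[y4,y1,y12,y4,z3,z12]),(z1,[z1])]],
    .lp [k164,k164,k164,k152,k140,k174] [k5,k5,k5,k5,k5,k5,k11,k11,k25,k9,k0,k0] k0 [[k0,k0,k0,k0,k0,k0,k0,k0,k0,k0,k2],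
    [k0,k0,k0,k20,k0,k0,k0,k0,k0,k10],[k20],[k0,k0,k0,k0,k0,k0,k0,k0,k0,k0,k0,k22],[k0,k0,k0,k0,k0,k0,k40],[k0,k0,k0,
    k0,k0,k0,k0,k0,k0,k4],[k0,k0,k0,k0,k0,k0,k0,k0,k6,k0,k20],[k0,k0,k0,k0,k0,k40],[k10,k0,k0,k0,k4],[k0,k0,k0,k0,k0,
    k0,k0,k6,k0,k0,k0,k14],[k0,k0,k22,k0,k0,k0,k0,k0,k14],[k0,k2,k0,k0,k0,k0,k0,k20]] (nat_lit 480) k5
    [[(k6,k138),(k8,k158),(k0,k162),(k4,k164),(k10,k169),(k2,k186)],[(k7,k158),(k9,k160),(k1,k162),(k3,k164),(k11,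
    k179),(k5,k184)],[(k8,k134),(k2,k144),(k6,k158),(k0,k164),(k4,k164),(k10,k171)],[(k3,k144),(k7,k158),(k9,k160),
    (k5,k164),(k11,k169),(k1,k186)],[(k8,k144),(k10,k147),(k6,k158),(k2,k164),(k4,k164),(k0,k184)],[(k9,k120),(k7,
    k158),(k1,k164),(k3,k164),(k5,k164),(k11,k173)],[(k8,k134),(k0,k158),(k2,k158),(k4,k158),(k10,k163),(k6,k192)],
    [(k1,k138),(k9,k154),(k11,k157),(k3,k158),(k5,k158),(k7,k192)],[(k4,k120),(k8,k146),(k6,k154),(k0,k160),(k2,k160),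
    (k10,k185)],[(k3,k134),(k7,k134),(k5,k144),(k9,k146),(k11,k149),(k1,k158)],[(k8,k149),(k6,k157),(k10,k160),(k2,
    k169),(k4,k173),(k0,k179)],[(k5,k147),(k11,k160),(k7,k163),(k1,k169),(k3,k171),(k9,k185)]]
    [] k0
    [[k2,k0,k0,k1,k0,k0],[k1,k0,k1,k0,k1,k0],[k1,k1,k0,k1,k0,k0],[k1,k0,k0,k1,k1,k0],[k1,k0,k0,k0,k2,k0],[k1,k0,k0,k0,
    k1,k1],[k0,k3,k0,k0,k0,k0],[k0,k2,k1,k0,k0,k0],[k0,k2,k0,k1,k0,k0],[k0,k2,k0,k0,k1,k0],[k0,k1,k1,k0,k1,k0],[k0,k1,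
    k0,k1,k1,k0],[k0,k1,k0,k0,k2,k0],[k0,k0,k2,k0,k1,k0],[k0,k0,k1,k1,k1,k0],[k0,k0,k1,k0,k2,k0],[k0,k0,k1,k1,k0,k1],
    [k0,k0,k1,k0,k1,k1],[k0,k0,k0,k1,k2,k0],[k0,k0,k0,k1,k1,k1],[k0,k0,k0,k0,k3,k0]]
    [.ref k12 k0 [(z11,[z16,z1,z0,z0,y4]),(z11,[y8,z16,z33,z0,z2]),(z4,[y4,z8,z0,z3,z1]),(z11,[z1,y2,z0,z0,z8]),(z44,
    [y8,(Int.negSucc (nat_lit 115)),(Int.negSucc (nat_lit 131)),y33,y31,(Int.ofNat (nat_lit 132))])],.ref k12 k0 [(z1,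
    [z16,z3,z16,z0,z4,y16]),(z1,[y8,z0,y5,z0,y2,z8]),(z4,[y44,z0,y44,z3,y11,z44]),(z1,[z1,z0,z1,z0,z1,y1]),(z4,[y8,
    y12,y20,y3,y5,z20])],.ref k12 k0 [(z3,[z16,y7,y16,z0,y4]),(z3,[y8,z8,z17,z0,z2]),(z12,[y44,z44,z44,z9,z11]),(z3,
    [z1,y1,y1,z0,z2]),(z12,[y8,y28,y28,y9,y7,z36])],.ref k12 k0 [(z5,[z16,z15,z16,z4,z0,y16]),(z5,[y8,z0,z7,y2,z0,
    z8]),(z5,[y11,z0,y11,z1,z0,z11]),(z20,[z4,z0,z4,z1,z15,y4]),(z20,[y8,y60,y68,y17,y15,z68])],.ref k12 k0 [(z1,[z4,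
    z7,z8,z2,z2,y8]),(z1,[y2,y2,y1,y1,y1,z4]),(z8,[y22,y22,y44,y5,y11,z44]),(z8,[z2,z2,z4,z1,z7,y4]),(z2,[y1,y7,y8,y2,
    y2,z8])],.ref k12 k0 [(z3,[z8,z9,z8,z2,z2,y8]),(z3,[y4,z0,z5,y1,y1,z4]),(z24,[y44,z0,y44,z7,y11,z44]),(z24,[z4,z0,
    z4,z1,z19,y4]),(z6,[y2,y18,y20,y5,y5,z20])],.ref k12 k0 [(z1,[y2,z3,z6]),(z1,[z1]),(z8,[z11,z0,y33,z6]),(z8,[y1,
    z0,z3,z0,z6]),(z4,[z1,y12,y15,y3,y3,z12])],.ref k12 k0 [(z9,[y16,z27,z32,z4]),(z9,[z8,z0,z11,y2]),(z9,[z11,z0,y22,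
    z4]),(z36,[y4,z0,z8,z1,z27]),(z36,[z8,(Int.negSucc (nat_lit 107)),(Int.negSucc (nat_lit 123)),y29,y27,
    (Int.ofNat (nat_lit 108))])],.ref k12 k0 [(z5,[y16,z15,z32,z0,z4]),(z5,[z8,z0,y1,z0,y2]),(z20,[z44,z0,y88,z15,
    y11]),(z5,[y1,z0,z2,z0,z4]),(z20,[z8,y60,y76,y15,y17,z60])],.ref k12 k0 [(z3,[y8,z1,z8,y2,y2,z8]),(z3,[z4,z4,z5,
    z1,z1,y4]),(z24,[z44,z44,y44,z29,z11,y44]),(z24,[y4,y4,z4,y1,z17,z4]),(z3,[z1,y8,y10,y2,y2,z8])],.ref k12 k0 [(z7,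
    [y16,z5,z0,z0,y4,z16]),(z7,[z8,z8,z21,z0,z2,y8]),(z28,[z44,z44,z0,z21,z11,y44]),(z7,[y1,y1,z0,z0,z5,z1]),(z28,[z8,
    y76,y84,y21,y19,z76])],.ref k12 k0 [(z3,[y16,y7,z0,y4,z0,z16]),(z3,[z8,z8,z9,z2,z0,y8]),(z3,[z11,z11,z0,z5,z0,
    y11]),(z12,[y4,y4,z0,y1,z9,z4]),(z12,[z8,y28,y36,y7,y9,z28])],.ref k12 k0 [(z1,[y4,y5,y4,y2,y2,z8]),(z1,[z2,z4,z5,
    z1,z1,y4]),(z8,[z22,z44,z22,z17,z11,y44]),(z8,[y2,y4,y2,y1,z5,z4]),(z2,[z1,y4,y5,y1,y1,z4])],.ref k12 k0 [(z2,[y4,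
    z2,y4,z1,y1,z4]),(z4,[z4,z4,z16,y1,z1,y4]),(z32,[z44,z44,z44,z13,z11,y44]),(z32,[y4,y4,y4,z1,z23,z4]),(z16,[z4,
    y44,y44,y13,y11,z44])],.ref k12 k0 [(z1,[y4,y1,y4,z0,z0,z4]),(z1,[z2,z2,z5,z0,z0,y2]),(z4,[z11,z11,z11,z3,z0,
    y11]),(z4,[y1,y1,y1,z0,z3,z1]),(z4,[z2,y10,y10,y3,y3,z10])],.ref k12 k0 [(z5,[y16,y17,y32,y4,y8,z32]),(z5,[z8,z16,
    z31,z2,z4,y16]),(z10,[z22,z44,z44,z13,z11,y44]),(z20,[y4,y8,y8,y1,z13,z8]),(z20,[z8,y44,y44,y13,y11,z44])],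
    .ref k12 k0 [(z1,[y8,z3,z0,z2,z2]),(z1,[z4,z0,z3,y1,y1]),(z8,[z44,z0,z0,y5,y11]),(z8,[y4,z0,z0,z1,z7]),(z1,[z1,y3,
    y3,y1,y1,z3])],.ref k12 k0 [(z3,[y16,y7,y16,z0,y4,z16]),(z3,[z8,z8,z17,z0,z2,y8]),(z12,[z44,z44,z44,z9,z11,y44]),
    (z3,[y1,y1,y1,z0,z2,z1]),(z12,[z8,y28,y28,y9,y7,z28])],.ref k12 k0 [(z1,[y16,y29,y32,y8,y4,z32]),(z1,[z8,z16,z19,
    z4,z2,y16]),(z4,[z44,z88,z88,z25,z11,y88]),(z2,[y2,y4,y4,y1,z1,z4]),(z4,[z8,z4,z4,z1,y1,y4])],.ref k12 k0 [(z1,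
    [z16,z19,z16,z4,z0,y16]),(z1,[y8,y8,y5,y2,z0,z8]),(z1,[y11,y11,y11,y2,z0,z11]),(z4,[z4,z4,z4,z1,z3,y4]),(z4,[y8,
    y20,y20,y5,y3,z20])],.ref k12 k0 [(z1,[y8,y21,y24,y6,y6,z24]),(z1,[z4,z12,z15,z3,z3,y12]),(z8,[z44,
    (Int.ofNat (nat_lit 132)),(Int.ofNat (nat_lit 132)),z39,z33,(Int.negSucc (nat_lit 131))]),(z8,[y4,y12,y12,y3,z3,
    z12]),(z1,[z1])]],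
    .lp [k174,k164,k146,k164,k146,k164] [k0,k0,k5,k5,k14,k14,k5,k5,k14,k14,k5,k5] k0 [[k0,k0,k0,k0,k0,k0,k36,k0,k0,k0,
    k14],[k0,k0,k0,k0,k0,k2],[k0,k0,k0,k0,k0,k0,k0,k0,k26],[k0,k0,k0,k0,k0,k8],[k2,k0,k8],[k0,k0,k0,k0,k0,k0,k0,k24,
    k0,k0,k0,k22],[k0,k0,k0,k0,k24,k0,k0,k0,k24],[k0,k36],[k0,k0,k0,k0,k0,k0,k0,k0,k0,k0,k34],[k0,k0,k0,k26,k0,k0,k0,
    k24],[k0,k0,k0,k0,k22],[k0,k14,k0,k0,k0,k0,k0,k0,k0,k34]] (nat_lit 480) k5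
    [[(k8,k126),(k0,k160),(k2,k169),(k6,k169),(k10,k169),(k4,k182)],[(k9,k124),(k1,k160),(k5,k160),(k3,k169),(k11,
    k169),(k7,k171)],[(k4,k153),(k8,k155),(k2,k164),(k0,k169),(k10,k178),(k6,(nat_lit 200))],[(k11,k138),(k5,k155),
    (k9,k155),(k3,k164),(k1,k169),(k7,k172)],[(k4,k138),(k2,k155),(k6,k155),(k10,k155),(k0,k160),(k8,k172)],[(k5,
    k138),(k3,k153),(k7,k155),(k11,k155),(k9,k170),(k1,k182)],[(k6,k140),(k10,k142),(k4,k155),(k8,k155),(k0,k171),(k2,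
    k172)],[(k7,k140),(k11,k140),(k5,k155),(k9,k155),(k1,k169),(k3,(nat_lit 200))],[(k0,k124),(k2,k155),(k6,k155),
    (k10,k155),(k4,k170),(k8,k170)],[(k1,k126),(k3,k155),(k7,k155),(k11,k155),(k9,k170),(k5,k172)],[(k2,k138),(k6,
    k140),(k4,k155),(k8,k155),(k0,k169),(k10,k198)],[(k7,k142),(k5,k155),(k9,k155),(k1,k169),(k3,k178),(k11,k198)]]
    [] k0
    [[k2,k0,k0,k0,k1,k0],[k1,k1,k0,k0,k1,k0],[k1,k0,k1,k0,k1,k0],[k1,k0,k0,k1,k1,k0],[k1,k0,k0,k0,k2,k0],[k1,k0,k0,k0,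
    k1,k1],[k1,k1,k0,k0,k0,k1],[k0,k2,k1,k0,k0,k0],[k0,k2,k0,k0,k1,k0],[k0,k1,k2,k0,k0,k0],[k0,k1,k1,k0,k0,k1],[k0,k1,
    k0,k0,k1,k1],[k0,k0,k3,k0,k0,k0],[k0,k0,k2,k1,k0,k0],[k0,k0,k2,k0,k0,k1],[k0,k0,k1,k2,k0,k0],[k0,k0,k1,k1,k0,k1],
    [k0,k0,k0,k3,k0,k0],[k0,k0,k0,k2,k1,k0],[k0,k0,k0,k2,k0,k1],[k0,k0,k0,k1,k1,k1]]
    [.ref k113 k4 [(z1,[y1,z1]),(z1,[z1]),(z1,[y1,z1,z1]),(z1,[y5,z5,z0,z1])],.ref k58 k4 [(z1,[y4,z2,z1]),(z2,[z4,y1,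
    y1]),(z2,[y2,z1,z1]),(z4,[y20,z10,z5,z1])],.ref k22 k4 [(z1,[z4,y2,z0,y1]),(z2,[y4,z5,z0,z1]),(z4,[z4,y2,z3,y1]),
    (z2,[z10,y5,z0,y1])],.ref k33 k9 [(z2,[z4,z0,z1,z1,y4]),(z4,[z0,y2,y1,y1,z4]),(z1,[y4,z0,y1,z0,z4]),(z1,[z0,z0,
    z1])],.ref k58 k4 [(z1,[y2,z1]),(z1,[z1]),(z4,[y2,z1,z1]),(z4,[y10,z5,z0,z1])],.ref (nat_lit 213) k6 [(z4,[y4,z2,
    y7,z1]),(z4,[z0,y2,z7,y1,z4]),(z2,[z2,y1,z1]),(z1,[z0,z0,y1])],.ref k22 k4 [(z1,[z4,y2,y1]),(z2,[y4,z5,z1]),(z2,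
    [z2,y1,z1]),(z4,[z20,y10,y5,z3])],.ref k16 k7 [(z4,[y16,y2,z7,y1,z4]),(z2,[z10,z0,y5,z1]),(z1,[z2,z0,y1]),(z2,[y2,
    z1,z1])],.ref (nat_lit 213) k6 [(z4,[y4,z0,y5,z1]),(z4,[z0,y2,z7,y1,z4]),(z1,[z1]),(z1,[z0,z0,y1])],
    .ref k152 k7 [(z4,[y32,y2,z7,y1,z4]),(z4,[z20,z0,y5,z1]),(z1,[z4,z0,y1]),(z2,[y4,z1,z1])],.ref k33 k9 [(z2,[y4,z0,
    z1,z1]),(z4,[z0,y2,y1,y1,z4]),(z1,[z4,z0,y1]),(z1,[z0,z0,z1])],.ref k64 k6 [(z4,[y4,z0,y9,z1]),(z4,[z0,y2,z7,y1,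
    z4]),(z1,[z1,z0,z1]),(z1,[z0,z0,y1])],.ref (nat_lit 214) k9 [(z1,[y4,z0,z0,z3]),(z4,[z0,y2,y1,y1,z4]),(z1,[z1]),
    (z1,[z0,z0,z1])],.ref k58 k4 [(z2,[z4,z2,z1,y1,y4]),(z4,[y4,z0,y1,z1,z4]),(z8,[z4,z2,z3,y1,y4]),(z8,[z20,z10,z5,
    y3,y20])],.ref k16 k7 [(z4,[y8,y2,y1,y1,z4]),(z2,[z5,z0,z0,z1]),(z1,[z1]),(z2,[y1,z1])],.ref k48 k6 [(z2,[z2,z2,
    y7,z1,y4]),(z4,[z0,y2,z7,y1,z4]),(z4,[y4,y4,z9,y1,z8]),(z1,[z0,z0,y1])],.ref k58 k4 [(z1,[z4,z2,z1,z0,y4]),(z2,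
    [y4,y1,y1,z0,z4]),(z2,[z2,z1,z1,z0,y2]),(z4,[z20,z10,z5,z1,y20])],.ref k22 k4 [(z8,[y4,y6,y3,y3,z12]),(z16,[z4,
    z30,z3,z3,y12]),(z32,[y4,y6,z21,y3,z12]),(z32,[y20,y30,y15,z9,z60])],.ref (nat_lit 215) k9 [(z2,[z2,z2,z1,z1,y4]),
    (z4,[z0,y2,y1,y1,z4]),(z1,[y4,y4,y2,y1,z8]),(z1,[z0,z0,z1])],.ref k22 k4 [(z2,[y2,y2,y1,y1,z4]),(z4,[z2,z8,z1,z1,
    y4]),(z8,[y2,y2,z5,y1,z4]),(z8,[y10,y10,y5,z1,z20])],.ref k113 k4 [(z4,[y4,y2,y1,y1,z4]),(z4,[z4,z6,z1,z1,y4]),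
    (z4,[y4,y2,z3,y1,z4]),(z4,[y20,y10,y5,y1,z20])]],
    .lp [(nat_lit 332),(nat_lit 332),(nat_lit 286),(nat_lit 344),(nat_lit 284),(nat_lit 338)] [k6,k6,k6,k6,k29,k29,k0,k0,
    k30,k30,k3,k3] k0 [[k0,k0,k0,k0,k0,k0,k0,k0,k0,k0,k12],[k0,k0,k0,k60,k0,k6],[k60,k0,k0,k0,k0,k0,k0,k0,k0,k0,k54],
    [k0,k0,k0,k0,k0,k4,k0,k0,k0,k6],[k6,k0,k4],[],[k0,k0,k0,k0,k0,k0,k0,k0,k60],[],[k0,k0,k6],[k0,k0,k0,k0,k0,k0,k0,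
    k60],[],[k0,k12,k0,k54]] (nat_lit 960) k5
    [[(k2,(nat_lit 278)),(k8,(nat_lit 308)),(k4,(nat_lit 309)),(k0,(nat_lit 320)),(k10,(nat_lit 335)),(k6,
    (nat_lit 338))],[(k9,(nat_lit 308)),(k1,(nat_lit 320)),(k3,(nat_lit 332)),(k11,(nat_lit 335)),(k7,(nat_lit 344)),
    (k5,(nat_lit 369))],[(k2,(nat_lit 272)),(k4,(nat_lit 303)),(k8,(nat_lit 308)),(k0,(nat_lit 332)),(k6,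
    (nat_lit 338)),(k10,(nat_lit 347))],[(k3,(nat_lit 272)),(k1,(nat_lit 278)),(k9,(nat_lit 308)),(k5,(nat_lit 309)),
    (k11,(nat_lit 341)),(k7,(nat_lit 342))],[(k8,(nat_lit 279)),(k4,(nat_lit 282)),(k2,(nat_lit 309)),(k6,
    (nat_lit 315)),(k10,(nat_lit 366)),(k0,(nat_lit 369))],[(k5,(nat_lit 282)),(k9,(nat_lit 285)),(k3,(nat_lit 303)),
    (k1,(nat_lit 309)),(k11,(nat_lit 312)),(k7,(nat_lit 315))],[(k8,(nat_lit 314)),(k4,(nat_lit 315)),(k10,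
    (nat_lit 341)),(k2,(nat_lit 342)),(k0,(nat_lit 344)),(k6,(nat_lit 344))],[(k11,(nat_lit 281)),(k9,(nat_lit 314)),
    (k5,(nat_lit 315)),(k1,(nat_lit 338)),(k3,(nat_lit 338)),(k7,(nat_lit 344))],[(k4,(nat_lit 285)),(k0,
    (nat_lit 308)),(k2,(nat_lit 308)),(k10,(nat_lit 311)),(k6,(nat_lit 314)),(k8,(nat_lit 344))],[(k5,(nat_lit 279)),
    (k1,(nat_lit 308)),(k3,(nat_lit 308)),(k11,(nat_lit 311)),(k7,(nat_lit 314)),(k9,(nat_lit 344))],[(k6,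
    (nat_lit 281)),(k8,(nat_lit 311)),(k4,(nat_lit 312)),(k0,(nat_lit 335)),(k10,(nat_lit 338)),(k2,(nat_lit 341))],
    [(k9,(nat_lit 311)),(k1,(nat_lit 335)),(k11,(nat_lit 338)),(k7,(nat_lit 341)),(k3,(nat_lit 347)),(k5,
    (nat_lit 366))]]
    [] k0
    [[k2,k1,k0,k0,k0,k0],[k2,k0,k0,k0,k1,k0],[k1,k2,k0,k0,k0,k0],[k1,k1,k1,k0,k0,k0],[k1,k1,k0,k0,k1,k0],[k1,k0,k1,k0,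
    k1,k0],[k1,k0,k0,k0,k1,k1],[k0,k3,k0,k0,k0,k0],[k0,k2,k1,k0,k0,k0],[k0,k2,k0,k1,k0,k0],[k0,k2,k0,k0,k1,k0],[k0,k1,
    k2,k0,k0,k0],[k0,k1,k1,k0,k1,k0],[k0,k0,k3,k0,k0,k0],[k0,k0,k2,k1,k0,k0],[k0,k0,k2,k0,k1,k0],[k0,k0,k1,k1,k1,k0],
    [k0,k0,k1,k0,k2,k0],[k0,k0,k1,k0,k1,k1],[k0,k0,k0,k1,k1,k1]]
    [.ref k12 k0 [(z1,[z1,z1,y1]),(z1,[z1,y2,z2]),(z4,[y5,z10,z5,z12]),(z2,[y1,z2,z1,z0,z6]),(z2,[y1,y4,y5,y6,y6,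
    z6])],.ref k12 k0 [(z1,[z2,z1,z2,z2,z2,y2]),(z1,[z2,y2,z5,z2,z2,y2]),(z2,[y5,z5,y5,z1,y5,z5]),(z1,[y1,z1,y1,y1,z2,
    z1]),(z1,[y1,y2,y4,y4,y4,z4])],.ref k12 k0 [(z1,[z1,z2,y2]),(z1,[z1,y1,z1]),(z4,[y5,z5,z10,z12]),(z2,[y1,z1,z2,z0,
    z6]),(z2,[y1,y5,y4,y6,y6,z6])],.ref k12 k0 [(z1,[z4,y1,y4,y4]),(z1,[z4,y4,y1,y4]),(z1,[y5,z5,z5,z8]),(z1,[y2,z2,
    z2,z2,z3]),(z1,[y2,y1,y1,y1,y3,z3])],.ref k12 k0 [(z1,[z2,z3,z0,z2,z2,y2]),(z1,[z2,z0,z3,z2,z2,y2]),(z2,[y5,z0,z0,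
    z1,y5,z5]),(z1,[y1,z0,z0,y1,z2,z1]),(z1,[y1,y3,y3,y4,y4,z4])],.ref k12 k0 [(z1,[y4,z3,y4,z0,y4,z4]),(z1,[y4,z0,y1,
    z0,y4,z4]),(z1,[z5,z0,z5,z3,z5,y5]),(z1,[z2,z0,z2,z0,z5,y2]),(z1,[z2,y3,y1,y3,y1,z1])],.ref k12 k0 [(z1,[z4,z3,z4,
    z4,z4,y4]),(z1,[z4,z0,z7,z4,z4,y4]),(z1,[y5,z0,y5,y2,y5,z5]),(z1,[y2,z0,y2,y2,z1,z2]),(z1,[y2,y3,y5,y5,y5,z5])],
    .ref k12 k0 [(z1,[z1,z3,y3]),(z1,[z1]),(z4,[y5,z0,z15,z12]),(z2,[y1,z0,z3,z0,z6]),(z2,[y1,y6,y3,y6,y6,z6])],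
    .ref k12 k0 [(z1,[z4,z3,y8,y4]),(z1,[z4,z0,y5,y4]),(z1,[y5,z0,z10,z8]),(z1,[y2,z0,z4,z2,z3]),(z1,[y2,y3,z1,y1,y3,
    z3])],.ref k12 k0 [(z1,[z2,z3,y4,z0,y2]),(z1,[z2,z0,y1,z0,y2]),(z2,[y5,z0,z10,z6,z5]),(z1,[y1,z0,z2,z0,z4]),(z1,
    [y1,y3,y1,y3,y2,z3])],.ref k12 k0 [(z1,[z2,z5,y2,z2,z2,y2]),(z1,[z2,z2,z1,z2,z2,y2]),(z2,[y5,y5,z5,z1,y5,z5]),(z1,
    [y1,y1,z1,y1,z2,z1]),(z1,[y1,y4,y2,y4,y4,z4])],.ref k12 k0 [(z1,[y2,z3,z2,z4]),(z1,[y2,z0,z5,z4]),(z2,[z5,z0,y5,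
    y4]),(z1,[z1,z0,y1,y2,z3]),(z1,[z1,y3,y4,y5,y3,z3])],.ref k12 k0 [(z1,[y4,y1,z0,z0,y4,z4]),(z1,[y4,y4,z3,z0,y4,
    z4]),(z1,[z5,z5,z0,z3,z5,y5]),(z1,[z2,z2,z0,z0,z5,y2]),(z1,[z2,y1,y3,y3,y1,z1])],.ref k12 k0 [(z5,[y4,z15,z0,
    z12]),(z5,[y4,z0,z15,z12]),(z1,[z1]),(z5,[z2,z0,z0,y6,z15]),(z5,[z2,y15,y15,y21,y15,z15])],.ref k12 k0 [(z1,[y1,
    z3,z0,z2,z1]),(z1,[y1,z0,z3,z2,z1]),(z4,[z5,z0,z0,z2,y5]),(z2,[z1,z0,z0,y2,z5]),(z2,[z1,y6,y6,y8,y7,z6])],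
    .ref k12 k0 [(z1,[y1,z2,y1,z1,y1,z1]),(z1,[y1,y1,z2,z1,y1,z1]),(z4,[z5,z5,z5,z7,z5,y5]),(z2,[z1,z1,z1,y1,z7,y1]),
    (z2,[z1,y5,y5,y7,y5,z5])],.ref k12 k0 [(z3,[y4,z5,y4,z0,z0,z4]),(z3,[y4,y4,z5,z0,z0,z4]),(z3,[z5,z5,z5,z9,z0,y5]),
    (z3,[z2,z2,z2,z0,z9,y2]),(z3,[z2,y7,y7,y9,y9,z7])],.ref k12 k0 [(z3,[y4,z1,y8,y4,y8,z8]),(z3,[y4,y8,z1,y4,y8,z8]),
    (z3,[z5,z10,z10,z14,z10,y10]),(z3,[z2,z4,z4,z2,z13,y4]),(z3,[z2,y5,y5,y7,y5,z5])],.ref k12 k0 [(z1,[y2,z1,y2,z0,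
    y2,z2]),(z1,[y2,y2,z1,z0,y2,z2]),(z2,[z5,z5,z5,z6,z5,y5]),(z1,[z1,z1,z1,z0,z4,y1]),(z1,[z1,y2,y2,y3,y2,z2])],
    .ref k12 k0 [(z1,[y4,y1,y4,y4,z0,z4]),(z1,[y4,y4,y1,y4,z0,z4]),(z1,[z5,z5,z5,z8,z0,y5]),(z1,[z2,z2,z2,z2,z3,y2]),
    (z1,[z2,y1,y1,y1,y3,z1])]],
    .lp [k160,k170,k170,k146,k164,k148] [k5,k5,k0,k0,k0,k0,k12,k12,k3,k3,k11,k11] k0 [[k0,k0,k0,k0,k0,k0,k12,k0,k2],[k0,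
    k0,k0,k2,k0,k12],[k2,k0,k0,k0,k0,k0,k0,k0,k0,k0,k4],[k0,k0,k0,k0,k0,k6],[k12,k0,k6],[],[k0,k0,k0,k0,k0,k0,k0,k0,
    k18],[k0,k12,k0,k0,k0,k0,k0,k0,k0,k0,k0,k2],[k0,k0,k0,k0,k0,k0,k0,k0,k0,k0,k14],[k0,k2,k0,k0,k0,k0,k0,k18],[k0,k0,
    k0,k0,k0,k0,k2],[k0,k0,k0,k4,k0,k0,k0,k0,k0,k14]] (nat_lit 480) k5
    [[(k8,k148),(k10,k154),(k6,k155),(k0,k160),(k2,k161),(k4,k165)],[(k9,k150),(k11,k152),(k1,k160),(k3,k165),(k7,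
    k165),(k5,k167)],[(k4,k158),(k10,k159),(k0,k165),(k2,k168),(k8,k169),(k6,k170)],[(k11,k159),(k1,k161),(k7,k164),
    (k9,k167),(k3,k168),(k5,k170)],[(k6,k158),(k10,k163),(k4,k164),(k0,k167),(k8,k167),(k2,k170)],[(k3,k158),(k7,
    k158),(k11,k159),(k5,k164),(k1,k165),(k9,k167)],[(k6,k146),(k10,k147),(k8,k155),(k4,k158),(k2,k164),(k0,k165)],
    [(k11,k129),(k7,k146),(k1,k155),(k9,k155),(k5,k158),(k3,k170)],[(k0,k150),(k10,k154),(k6,k155),(k2,k167),(k4,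
    k167),(k8,k182)],[(k1,k148),(k7,k155),(k11,k156),(k5,k167),(k3,k169),(k9,k182)],[(k6,k129),(k0,k152),(k8,k156),
    (k2,k159),(k4,k159),(k10,k162)],[(k7,k147),(k1,k154),(k9,k154),(k3,k159),(k11,k162),(k5,k163)]]
    [] k0
    [[k2,k0,k0,k0,k1,k0],[k2,k0,k0,k0,k0,k1],[k1,k1,k0,k0,k0,k1],[k1,k0,k0,k2,k0,k0],[k1,k0,k0,k1,k1,k0],[k1,k0,k0,k1,
    k0,k1],[k1,k0,k0,k0,k1,k1],[k1,k0,k0,k0,k0,k2],[k0,k1,k0,k1,k0,k1],[k0,k0,k1,k2,k0,k0],[k0,k0,k1,k1,k0,k1],[k0,k0,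
    k0,k3,k0,k0],[k0,k0,k0,k2,k1,k0],[k0,k0,k0,k2,k0,k1],[k0,k0,k0,k1,k1,k1],[k0,k0,k0,k1,k0,k2],[k0,k0,k0,k0,k1,k2]]
    [.ref k12 k0 [(z3,[z6,z3,z2,z6,z1,y6]),(z1,[z0,z0,z1]),(z3,[y12,z12,y4,y3,y2,z12]),(z3,[z3,y3,z1,z3,z2,y3]),(z3,
    [y3,y6,y4,y12,y2,z12])],.ref k12 k0 [(z1,[z1,z1]),(z1,[z0,z0,z1]),(z1,[y2,z4,z0,z3]),(z2,[z1,y2,z0,z0,z1]),(z2,
    [y1,y4,y2,y6,y1,z6])],.ref k12 k0 [(z2,[z3,z3,y1]),(z1,[z0,z0,z1]),(z1,[y3,z3,z1,z3]),(z4,[z3,y3,y1,z0,z2]),(z4,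
    [y3,y9,y3,y12,y2,z12])],.ref k12 k0 [(z2,[z3,z3,z0,z0,y1]),(z1,[z0,z0,z1]),(z1,[y3,z3,z0,z3,z1]),(z4,[z3,y3,z0,z0,
    z1]),(z4,[y3,y9,y4,y12,y1,z12])],.ref k12 k0 [(z1,[z3,z3,z1,z3,z0,y3]),(z1,[z0,z0,z1]),(z1,[y6,z0,y2,y3,z0,z6]),
    (z2,[z3,z0,z1,z3,z1,y3]),(z2,[y3,y6,y3,y9,y1,z9])],.ref k12 k0 [(z5,[z6,z9,z0,z0,y1]),(z1,[z0,z0,z1]),(z5,[y12,
    z12,z0,z15,z2]),(z5,[z3,y3,z0,z0,z2]),(z5,[y3,y12,y5,y15,y2,z15])],.ref k12 k0 [(z3,[z6,z9,z2,z6,z1,y6]),(z1,[z0,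
    z0,z1]),(z3,[y12,z0,y4,y3,y2,z12]),(z3,[z3,z0,z1,z3,z2,y3]),(z3,[y3,y9,y4,y12,y2,z12])],.ref k12 k0 [(z1,[z1,z2]),
    (z1,[z0,z0,z1]),(z1,[y2,z2,z0,z3]),(z2,[z1,y1,z0,z0,z1]),(z2,[y1,y5,y2,y6,y1,z6])],.ref k12 k0 [(z3,[z6,z9,y2,z0,
    y1]),(z1,[z0,z0,z1]),(z3,[y12,z0,z4,z9,z2]),(z3,[z3,z0,y1,z0,z1]),(z3,[y3,y9,y2,y9,y1,z9])],.ref k12 k0 [(z1,[y3,
    z3,z0,z3,z1]),(z1,[z0,z0,z1]),(z1,[z6,z0,z0,y3,y2]),(z2,[y3,z0,z0,z3,z2]),(z2,[z3,y6,y2,y9,y2,z6])],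
    .ref k12 k0 [(z1,[y6,z3,z0,z6,z1]),(z1,[z0,z0,z1]),(z1,[z12,z0,z0,y9,y2]),(z1,[y3,z0,z0,z3,z1]),(z1,[z3,y3,y1,y6,
    y1,z3])],.ref k12 k0 [(z1,[z2,z3,z0,z0,y1]),(z1,[z0,z0,z1]),(z1,[y4,z0,z0,z3,z2]),(z1,[z1]),(z1,[y1,y3,y1,y3,z0,
    z3])],.ref k12 k0 [(z1,[z6,z9,z2,z6,y1,y6]),(z1,[z0,z0,z1]),(z1,[y12,y12,y4,y9,z2,z12]),(z1,[z3,z3,z1,z3,z0,y3]),
    (z1,[y3,y6,y2,y6,z0,z6])],.ref k12 k0 [(z2,[z3,z6,z0,z0,y1]),(z1,[z0,z0,z1]),(z1,[y3,z0,z0,z3,z1]),(z4,[z3,z0,z0,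
    z0,z1]),(z4,[y3,y12,y4,y12,y1,z12])],.ref k12 k0 [(z1,[z3,z6,z1,z3,z0,y3]),(z1,[z0,z0,z1]),(z1,[y6,y6,y2,y3,z0,
    z6]),(z2,[z3,z3,z1,z3,z1,y3]),(z2,[y3,y9,y3,y9,y1,z9])],.ref k12 k0 [(z5,[z6,z15,z0,z0,y1]),(z1,[z0,z0,z1]),(z5,
    [y12,z0,z0,z15,z2]),(z5,[z3,z0,z0,z0,z2]),(z5,[y3,y15,y5,y15,y2,z15])],.ref k12 k0 [(z3,[z6,z15,z2,z6,z1,y6]),(z1,
    [z0,z0,z1]),(z3,[y12,y12,y4,y3,y2,z12]),(z3,[z3,z3,z1,z3,z2,y3]),(z3,[y3,y12,y4,y12,y2,z12])]]]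

/-- the nodes with numbers from 172 -/
noncomputable def cT6_3_n4 : List TN :=
  cT6_3_n4_0 ++ (cT6_3_n4_1 ++ (cT6_3_n4_2 ++ cT6_3_n4_3))

theorem cT6_3_k4 : allI (chkT 6 cT6_3_w tt6 cT6_3_s (blkF [] cT6_3_D)) cT6_3_n4 172 = true := by
  decide +kernel

end Pool.Agent.Lib_MP_fa6e45
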