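import Pool.Agent.Lib_MP_fa6e45.CG6_2d

/-!
MP_fa6e45_co, stage 5: certificates (captain, generated by a program).
-/

namespace Pool.Agent.Lib_MP_fa6e45

noncomputable def cT6_3_n5_0 : List TN :=
  [.lp [(nat_lit 320),(nat_lit 340),(nat_lit 322),(nat_lit 316),(nat_lit 314),(nat_lit 306)] [k10,k10,k0,k0,k9,k9,k12,
    k12,k13,k13,k17,k17] k0 [[k0,k0,k0,k0,k0,k0,k22],[k0,k0,k0,k28,k0,k18],[k28,k0,k0,k0,k0,k0,k0,k0,k0,k0,k6],[k0,k0,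
    k0,k0,k0,k0,k0,k0,k0,k24],[k18,k0,k0,k0,k0,k0,k0,k0,k16],[k0,k0,k0,k0,k0,k0,k0,k34,k0,k0,k0,k6],[k0,k0,k0,k0,k34],
    [k0,k22,k0,k0,k0,k0,k0,k0,k0,k0,k0,k24],[k0,k0,k24,k0,k0,k0,k0,k0,k0,k0,k58],[k0,k0,k0,k0,k0,k16],[k0,k0,k0,k0,k6,
    k0,k24],[k0,k0,k0,k6,k0,k0,k0,k0,k0,k58]] (nat_lit 960) k5
    [[(k8,(nat_lit 259)),(k10,(nat_lit 313)),(k0,(nat_lit 320)),(k2,(nat_lit 324)),(k4,(nat_lit 327)),(k6,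
    (nat_lit 342))],[(k9,(nat_lit 295)),(k11,(nat_lit 313)),(k1,(nat_lit 320)),(k3,(nat_lit 330)),(k7,(nat_lit 336)),
    (k5,(nat_lit 349))],[(k2,(nat_lit 312)),(k4,(nat_lit 313)),(k10,(nat_lit 323)),(k8,(nat_lit 327)),(k0,
    (nat_lit 330)),(k6,(nat_lit 350))],[(k3,(nat_lit 312)),(k1,(nat_lit 324)),(k9,(nat_lit 327)),(k7,(nat_lit 328)),
    (k5,(nat_lit 331)),(k11,(nat_lit 347))],[(k8,(nat_lit 294)),(k6,(nat_lit 319)),(k10,(nat_lit 320)),(k4,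
    (nat_lit 322)),(k2,(nat_lit 331)),(k0,(nat_lit 349))],[(k11,(nat_lit 298)),(k3,(nat_lit 313)),(k7,(nat_lit 319)),
    (k5,(nat_lit 322)),(k1,(nat_lit 327)),(k9,(nat_lit 352))],[(k6,(nat_lit 282)),(k10,(nat_lit 305)),(k4,
    (nat_lit 319)),(k2,(nat_lit 328)),(k8,(nat_lit 331)),(k0,(nat_lit 336))],[(k7,(nat_lit 282)),(k11,(nat_lit 311)),
    (k9,(nat_lit 315)),(k5,(nat_lit 319)),(k1,(nat_lit 342)),(k3,(nat_lit 350))],[(k10,(nat_lit 286)),(k0,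
    (nat_lit 295)),(k8,(nat_lit 314)),(k6,(nat_lit 315)),(k2,(nat_lit 327)),(k4,(nat_lit 352))],[(k1,(nat_lit 259)),
    (k5,(nat_lit 294)),(k11,(nat_lit 310)),(k9,(nat_lit 314)),(k3,(nat_lit 327)),(k7,(nat_lit 331))],[(k4,
    (nat_lit 298)),(k8,(nat_lit 310)),(k6,(nat_lit 311)),(k0,(nat_lit 313)),(k2,(nat_lit 347)),(k10,(nat_lit 364))],
    [(k9,(nat_lit 286)),(k7,(nat_lit 305)),(k1,(nat_lit 313)),(k5,(nat_lit 320)),(k3,(nat_lit 323)),(k11,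
    (nat_lit 364))]]
    [] k0
    [[k2,k0,k0,k0,k1,k0],[k2,k0,k0,k0,k0,k1],[k1,k1,k0,k0,k1,k0],[k1,k0,k1,k0,k1,k0],[k1,k0,k0,k1,k1,k0],[k1,k0,k0,k0,
    k2,k0],[k1,k0,k0,k0,k1,k1],[k0,k3,k0,k0,k0,k0],[k0,k2,k1,k0,k0,k0],[k0,k1,k1,k0,k1,k0],[k0,k1,k1,k0,k0,k1],[k0,k0,
    k2,k0,k0,k1],[k0,k0,k1,k2,k0,k0],[k0,k0,k1,k1,k0,k1],[k0,k0,k1,k1,k1,k0],[k0,k0,k1,k0,k1,k1],[k0,k0,k0,k3,k0,k0],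
    [k0,k0,k0,k2,k1,k0],[k0,k0,k0,k2,k0,k1],[k0,k0,k0,k1,k1,k1],[k0,k0,k0,k0,k3,k0],[k0,k0,k0,k0,k2,k1]]
    [.ref k22 k6 [(z3,[y2,z4,z0,z9]),(z3,[y2,y5,y9,y9,z9]),(z3,[z1,y2]),(z3,[y1,z2,z9])],.ref k170 k3 [(z1,[y4,z1,
    z4]),(z1,[z0,z1,z0,z2]),(z1,[z0,y1,y2,y2,z2]),(z1,[z0,y1])],.ref (nat_lit 217) k4 [(z1,[y1,z1,z1]),(z1,[z0,z1]),
    (z1,[z1,y1]),(z1,[z0,z0,z0,z1])],.ref k22 k6 [(z1,[y2,z2,z0,z5]),(z1,[y2,y1,y3,y1,z3]),(z1,[z1,y1,z0,y1]),(z1,[y1,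
    z1,z3,z1])],.ref k22 k6 [(z1,[y2,z0,y2,z1,z2]),(z1,[y2,y3,y5,y5,z5]),(z1,[z1,z0,z1,z1,y1]),(z1,[y1,z0,z2,y1,z1])],
    .ref k22 k6 [(z1,[y1,z1,z0,z3]),(z1,[y1,y2,y3,y3,z3]),(z2,[z1,y1]),(z2,[y1,z1,z6])],.ref k109 k7 [(z1,[z0,y1,y1,
    y2,z1]),(z1,[z0,z0,z0,z1]),(z1,[z2,y2,z0,y5]),(z1,[z0,z1,z0,z2])],.ref (nat_lit 218) k5 [(z1,[z0,z1,z1,z2,y1]),
    (z1,[z1]),(z1,[z0,y1,y2,y2,z2]),(z1,[y2,z3,z9,z3,y3])],.ref k10 k11 [(z1,[y2,z1,z0,z2]),(z2,[z1,z0,z2,y1]),(z2,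
    [y1,z0,z0,z1]),(z1,[z1,y1,y1,y2,z1])],.ref k10 k11 [(z1,[y4,z1,z0,z4]),(z1,[z1,z0,z1,y1]),(z1,[y1,z0,z0,z1]),(z1,
    [z2,y1,y1,y3,z1])],.ref k22 k6 [(z1,[z2,z0,y2,z1]),(z1,[z2,y3,y5,y5,z3]),(z1,[y1,z0,z1,z1]),(z1,[z1,z0,z2,y1])],
    .ref (nat_lit 217) k4 [(z1,[z1,z0,z0,y2]),(z1,[z0,z1]),(z1,[y1,z0,z1,z2]),(z1,[z0,z0,z0,z1])],.ref k22 k6 [(z1,
    [z1,z2,z2,z4,y2]),(z1,[z1,y1,y1,y2,z1]),(z2,[y1,y2,y2,y1,z2]),(z2,[z1,z2,z8,z1,y2])],.ref (nat_lit 217) k4 [(z1,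
    [z1,z1,z1,z0,y1]),(z1,[z0,z1]),(z1,[y1,y1,z0,z0,z1]),(z1,[z0,z0,z0,z1])],.ref k22 k6 [(z1,[z2,z2,z2,z3,y2]),(z1,
    [z2,y1,y1,y3,z1]),(z1,[y1,y1,y1,z0,z1]),(z1,[z1,z1,z4,z0,y1])],.ref k179 k0 [(z1,[y4,z1,z0,z4]),(z1,[z1,z0,z1,
    y1]),(z1,[z2,z0,z0,y1]),(z1,[z2,y1,y1,y3,z1])],.ref k22 k6 [(z1,[z1,z3,z3,z6,y3]),(z1,[z1]),(z2,[y1,y3,y3,y3,z3]),
    (z2,[z1,z3,z9,z3,y3])],.ref k22 k6 [(z1,[z2,z4,z4,z7,y4]),(z1,[z2,z1,z1,z1,y1]),(z1,[y1,y2,y2,y2,z2]),(z1,[z1,z2,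
    z5,z2,y2])],.ref (nat_lit 217) k4 [(z1,[z1,z2,z2,z2,y2]),(z1,[z0,z1]),(z1,[y1,y2,y1,y2,z2]),(z1,[z0,z0,z0,z1])],
    .ref k179 k0 [(z1,[y4,y3,y4,y4,z4]),(z1,[z1,z1,z2,z1,y1]),(z1,[z2,z2,z2,z3,y2]),(z1,[z2,z1,z1,z1,y1])],
    .ref k22 k6 [(z1,[y2,z0,z0,z3]),(z1,[y2,y3,y3,y3,z3]),(z1,[z1]),(z1,[y1,z0,z3])],.ref k10 k11 [(z1,[z4,z1,y4]),
    (z1,[y1,z0,z2]),(z1,[z1,z0,y1]),(z1,[y2,y1,z1,y1,z1])]],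
    .leafM k0 [k0,k1,k2,k3,k4,k5] [(z1,[z0,z1,z1,z1])] [],
    .lp [k186,k166,k172,k170,k152,k160] [k0,k0,k10,k10,k7,k7,k8,k8,k17,k17,k13,k13] k0 [[k0,k0,k2,k0,k0,k0,k0,k0,k0,k0,
    k40],[k0,k0,k0,k0,k0,k18],[k0,k0,k0,k0,k0,k0,k14],[k0,k2,k0,k0,k0,k0,k0,k0,k0,k24],[k18,k0,k0,k0,k0,k0,k36],[k0,
    k0,k0,k0,k0,k0,k0,k0,k0,k0,k0,k2],[k0,k0,k0,k0,k0,k0,k0,k0,k30,k0,k10],[k0,k0,k0,k14,k0,k36],[k0,k0,k24],[k0,k0,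
    k0,k0,k0,k0,k0,k30,k0,k0,k0,k20],[k0,k0,k0,k0,k2,k0,k0,k0,k20],[k0,k40,k0,k0,k0,k0,k0,k10]] (nat_lit 504) k5
    [[(k0,k146),(k6,k168),(k10,k173),(k2,k176),(k4,k181),(k8,k189)],[(k1,k146),(k9,k169),(k11,k173),(k3,k176),(k5,
    k177),(k7,k196)],[(k4,k151),(k8,k159),(k2,k168),(k6,k168),(k0,k176),(k10,(nat_lit 203))],[(k9,k145),(k3,k168),(k7,
    k168),(k5,k169),(k1,k176),(k11,k187)],[(k8,k138),(k10,k166),(k2,k169),(k4,k172),(k0,k177),(k6,k185)],[(k9,k126),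
    (k3,k151),(k11,k166),(k7,k171),(k5,k172),(k1,k181)],[(k8,k161),(k10,k163),(k2,k168),(k4,k171),(k0,k196),(k6,
    (nat_lit 206))],[(k11,k135),(k9,k161),(k1,k168),(k3,k168),(k5,k185),(k7,(nat_lit 206))],[(k4,k126),(k2,k145),(k6,
    k161),(k10,k166),(k0,k169),(k8,k182)],[(k5,k138),(k11,k156),(k3,k159),(k7,k161),(k9,k182),(k1,k189)],[(k6,k135),
    (k10,k140),(k8,k156),(k4,k166),(k0,k173),(k2,k187)],[(k11,k140),(k7,k163),(k5,k166),(k9,k166),(k1,k173),(k3,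
    (nat_lit 203))]]
    [] k0
    [[k3,k0,k0,k0,k0,k0],[k2,k1,k0,k0,k0,k0],[k2,k0,k0,k0,k0,k1],[k1,k0,k1,k0,k1,k0],[k1,k0,k0,k1,k1,k0],[k1,k0,k0,k0,
    k1,k1],[k1,k0,k0,k0,k0,k2],[k0,k2,k1,k0,k0,k0],[k0,k2,k0,k0,k1,k0],[k0,k1,k2,k0,k0,k0],[k0,k1,k1,k0,k1,k0],[k0,k1,
    k0,k1,k1,k0],[k0,k1,k0,k0,k2,k0],[k0,k0,k2,k0,k1,k0],[k0,k0,k1,k1,k1,k0],[k0,k0,k1,k0,k2,k0],[k0,k0,k1,k0,k1,k1],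
    [k0,k0,k1,k1,k0,k1],[k0,k0,k1,k0,k0,k2],[k0,k0,k0,k1,k1,k1],[k0,k0,k0,k1,k0,k2],[k0,k0,k0,k0,k1,k2],[k0,k0,k0,k0,
    k0,k3]]
    [.ref k110 k10 [(z1,[z0,z1,z1,z1,y1]),(z1,[z1]),(z1,[z0,y2,y1,y2,z2]),(z1,[z1,y3])],.ref k10 k1 [(z1,[y2,z0,z1]),
    (z1,[z1,y1,y1,y1,z1]),(z1,[z0,y1]),(z1,[z0,z2,z0,z1])],.ref (nat_lit 220) k8 [(z2,[y1,z0,y1,y2,z2]),(z1,[z1,y2]),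
    (z1,[z0,z1]),(z2,[y1,z2,z1])],.ref (nat_lit 220) k8 [(z1,[z1,y1,z0,y1]),(z1,[y2,z0,y1,z0,z2]),(z1,[z0,z1]),(z1,
    [z1,z0,z1,z0,y1])],.ref k10 k1 [(z1,[y2,y4,y1,y2,z2]),(z1,[z1,z1]),(z1,[z0,y1]),(z1,[z0,z2,z0,z1])],
    .ref (nat_lit 220) k8 [(z1,[y1,y1,y1,y2,z2]),(z1,[z2,z0,z1,z2,y2]),(z1,[z0,z1]),(z1,[y1,z0,z0,y1,z1])],
    .ref k58 k11 [(z1,[z1,z0,y2]),(z1,[z0,z0,z1]),(z1,[z0,y1,y1,y1,z1]),(z1,[z1,y1,y2])],.ref (nat_lit 220) k8 [(z2,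
    [z1,y2,y2,y3,z2]),(z1,[y1,z0,z1,z1]),(z1,[z0,z1]),(z2,[z1,z0,z0,y1])],.ref k110 k0 [(z1,[z0,z1]),(z1,[z1,z1,z1,z1,
    y1]),(z1,[z0,z0,z0,z1]),(z1,[z1,y2,y2,y2,z2])],.ref k58 k3 [(z1,[z1,y4,z0,y2]),(z1,[z0,z2,z0,z1]),(z1,[z0,y1]),
    (z1,[z1,y5,y1,y3,z1])],.ref (nat_lit 220) k8 [(z2,[z1,y1,y1,y2,z1]),(z1,[y1,y1,z0,z0,z1]),(z1,[z0,z1]),(z2,[z1,z1,
    z1,z0,y1])],.ref k10 k6 [(z1,[y2,y2,y2,y1,z2]),(z1,[z1,z1,z1,z1,y1]),(z1,[z0,y1,y1,y1,z1]),(z1,[z0,z0,z1])],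
    .ref k110 k0 [(z1,[z0,z1]),(z1,[z1,z2,z2,z2,y2]),(z1,[z0,z0,z0,z1]),(z1,[z1,y1,y1,y1,z1])],.ref k58 k3 [(z1,[z1,
    y3,z1,y1,y1]),(z1,[z0,z2,z0,z1]),(z1,[z0,y1]),(z1,[z1,y4,z0,y2])],.ref (nat_lit 220) k8 [(z1,[z1,z0,z0,y1]),(z1,
    [y2,y2,y1,z0,z2]),(z1,[z0,z1]),(z1,[z1,z1,z1,z0,y1])],.ref (nat_lit 220) k8 [(z2,[z1,z0,z0,y1]),(z1,[y1,y2,y1,y1,
    z2]),(z1,[z0,z1]),(z2,[z1,z2,z2,z1,y2])],.ref k10 k1 [(z1,[z2,y2,z1,z0,y2]),(z1,[y1,z0,y1,y1,z2]),(z1,[z0,y1]),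
    (z1,[z0,z2,z0,z1])],.ref k10 k6 [(z1,[z2,z0,y2,y1]),(z1,[y1,z0,z1,z1]),(z1,[z0,y1,y1,y1,z1]),(z1,[z0,z0,z1])],
    .ref k10 k6 [(z1,[z1,z0,y2]),(z2,[y1,z0,z2,z1]),(z1,[z0,y1,y1,y1,z1]),(z1,[z0,z0,z1])],.ref (nat_lit 220) k8 [(z1,
    [y1,y2,y1,y2,z2]),(z1,[z2,z2,z1,z2,y2]),(z1,[z0,z1]),(z1,[y1,y1,z0,y1,z1])],.ref k58 k11 [(z1,[z1,z1,y2]),(z1,[z0,
    z0,z1]),(z1,[z0,y1,y1,y1,z1]),(z1,[z1,z0,y2])],.ref k110 k0 [(z1,[z0,z1]),(z1,[y1,y1,z1,y1,z1]),(z1,[z0,z0,z0,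
    z1]),(z1,[y1,y4,y2,y4,z4])],.ref k110 k0 [(z1,[z0,z1]),(z2,[y1,z0,z3]),(z1,[z0,z0,z0,z1]),(z2,[y1,y6,y3,y6,z6])]],
    .lp [(nat_lit 320),(nat_lit 336),(nat_lit 338),(nat_lit 328),(nat_lit 276),(nat_lit 320)] [k9,k9,k1,k1,k0,k0,k5,k5,
    k31,k31,k9,k9] k0 [[k0,k0,k0,k0,k0,k0,k6,k0,k66],[k0,k0,k0,k0,k0,k2],[k0,k0,k0,k0,k12,k0,k0,k0,k0,k0,k32],[k0,k0,
    k0,k0,k0,k0,k0,k28,k0,k20],[k2,k0,k0,k0,k0,k0,k0,k0,k80],[k0,k0,k0,k12,k0,k0,k0,k16],[k0,k0,k28,k0,k16],[k0,k6,k0,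
    k0,k0,k0,k0,k0,k0,k0,k0,k58],[k0,k0,k20],[k0,k66,k0,k0,k0,k80],[k0,k0,k0,k0,k0,k0,k58],[k0,k0,k0,
    k32]] (nat_lit 960) k5
    [[(k2,(nat_lit 296)),(k8,(nat_lit 298)),(k0,(nat_lit 320)),(k10,(nat_lit 320)),(k4,(nat_lit 329)),(k6,
    (nat_lit 382))],[(k11,(nat_lit 254)),(k9,(nat_lit 292)),(k1,(nat_lit 320)),(k7,(nat_lit 326)),(k3,(nat_lit 328)),
    (k5,(nat_lit 329))],[(k0,(nat_lit 328)),(k10,(nat_lit 328)),(k4,(nat_lit 335)),(k2,(nat_lit 336)),(k6,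
    (nat_lit 338)),(k8,(nat_lit 372))],[(k1,(nat_lit 296)),(k7,(nat_lit 320)),(k9,(nat_lit 334)),(k3,(nat_lit 336)),
    (k5,(nat_lit 337)),(k11,(nat_lit 348))],[(k8,(nat_lit 287)),(k6,(nat_lit 305)),(k0,(nat_lit 329)),(k2,
    (nat_lit 337)),(k4,(nat_lit 350)),(k10,(nat_lit 361))],[(k11,(nat_lit 249)),(k9,(nat_lit 323)),(k1,(nat_lit 329)),
    (k7,(nat_lit 333)),(k3,(nat_lit 335)),(k5,(nat_lit 350))],[(k6,(nat_lit 312)),(k2,(nat_lit 320)),(k10,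
    (nat_lit 324)),(k0,(nat_lit 326)),(k4,(nat_lit 333)),(k8,(nat_lit 382))],[(k9,(nat_lit 302)),(k5,(nat_lit 305)),
    (k7,(nat_lit 312)),(k11,(nat_lit 324)),(k3,(nat_lit 338)),(k1,(nat_lit 382))],[(k10,(nat_lit 240)),(k8,
    (nat_lit 276)),(k0,(nat_lit 292)),(k6,(nat_lit 302)),(k4,(nat_lit 323)),(k2,(nat_lit 334))],[(k9,(nat_lit 276)),
    (k5,(nat_lit 287)),(k1,(nat_lit 298)),(k11,(nat_lit 298)),(k3,(nat_lit 372)),(k7,(nat_lit 382))],[(k4,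
    (nat_lit 249)),(k0,(nat_lit 254)),(k8,(nat_lit 298)),(k10,(nat_lit 320)),(k6,(nat_lit 324)),(k2,(nat_lit 348))],
    [(k9,(nat_lit 240)),(k1,(nat_lit 320)),(k11,(nat_lit 320)),(k7,(nat_lit 324)),(k3,(nat_lit 328)),(k5,
    (nat_lit 361))]]
    [] k0
    [[k2,k1,k0,k0,k0,k0],[k2,k0,k0,k0,k1,k0],[k2,k0,k0,k0,k0,k1],[k1,k1,k0,k0,k0,k1],[k1,k0,k1,k0,k1,k0],[k1,k0,k1,k0,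
    k0,k1],[k1,k0,k0,k1,k1,k0],[k1,k0,k0,k0,k2,k0],[k1,k0,k0,k0,k1,k1],[k1,k0,k0,k0,k0,k2],[k0,k1,k1,k0,k1,k0],[k0,k1,
    k1,k0,k0,k1],[k0,k0,k1,k2,k0,k0],[k0,k0,k1,k1,k0,k1],[k0,k0,k1,k1,k1,k0],[k0,k0,k1,k0,k2,k0],[k0,k0,k1,k0,k1,k1],
    [k0,k0,k1,k0,k0,k2],[k0,k0,k0,k3,k0,k0],[k0,k0,k0,k1,k1,k1],[k0,k0,k0,k0,k3,k0],[k0,k0,k0,k0,k2,k1],[k0,k0,k0,k0,
    k1,k2]]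
    [.ref k12 k0 [(z27,[z36,z1,y4]),(z27,[z9,y2,z8]),(z27,[y18,z4,z2,z9]),(z9,[y18,z4,z2,z0,z27]),(z9,[z9,y2,y1])],
    .ref k12 k0 [(z11,[z12,z1]),(z33,[z9,y2,z11]),(z33,[y18,z4,z0,z11]),(z11,[y18,z4,z0,z0,z33]),(z11,[z9,y2])],
    .ref k12 k0 [(z6,[z9,z1,z1,z1,z9,y9]),(z24,[z9,y1,z9,z1,z9,y9]),(z12,[y9,z1,y1,z3,y9,z9]),(z4,[y9,z1,y1,y1,z3,
    z9]),(z8,[z9,y1,z1,z1,z9,y9])],.ref k12 k0 [(z15,[z36,z5,z0,z4,z36,y36]),(z15,[z9,z0,z5,z1,z9,y9]),(z5,[y6,z0,z0,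
    z1,y6,z6]),(z5,[y18,z0,z0,y2,y3,z18]),(z5,[z9,z0,z0,z1,z9,y9])],.ref k12 k0 [(z15,[z36,z1,z0,y4]),(z15,[z9,y1,z5,
    y1]),(z15,[y18,z2,z0,z7]),(z5,[y18,z2,z0,z2,z15]),(z5,[z9,y1,z0,y1])],.ref k12 k0 [(z3,[z18,z1,z2,z0,z18,y18]),
    (z2,[z3,z0,z1,z0,z3,y3]),(z3,[y9,z0,y1,z1,y9,z9]),(z1,[y9,z0,y1,z0,y6,z9]),(z2,[z9,z0,z1,z0,z9,y9])],
    .ref k12 k0 [(z1,[z12,y1,z0,z0,y12]),(z3,[z9,y1,z1,z0,y9]),(z3,[y18,z2,z0,z1,z18]),(z1,[y18,z2,z0,z0,z21]),(z1,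
    [z9,y1,z0,z0,y9])],.ref k12 k0 [(z5,[z6,z1]),(z30,[z9,y1,z10]),(z15,[y9,z1,z0,z5]),(z5,[y9,z1,z0,z0,z15]),(z10,
    [z9,y1])],.ref k12 k0 [(z21,[z36,z7,z4,z4,z36,y36]),(z21,[z9,z0,z8,z1,z9,y9]),(z21,[y18,z0,y2,z5,y18,z18]),(z7,
    [y18,z0,y2,y2,z3,z18]),(z7,[z9,z0,z1,z1,z9,y9])],.ref k12 k0 [(z3,[z9,z2,z2,z2,z18,y18]),(z12,[z9,z1,z6,z2,z18,
    y18]),(z6,[y9,y1,y2,z0,y18,z18]),(z2,[y9,y1,y2,y2,y12,z18]),(z4,[z9,z1,z2,z2,z18,y18])],.ref k12 k0 [(z3,[z18,z1,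
    y2,y2]),(z6,[z9,z0,z1,y1]),(z3,[y9,z0,z1,z2]),(z1,[y9,z0,z1,z1,z3]),(z2,[z9,z0,y1,y1])],.ref k12 k0 [(z1,[y12,y1,
    z0,z0,y12,z12]),(z3,[y9,y1,z1,z0,y9,z9]),(z3,[z18,z2,z0,z1,z18,y18]),(z1,[z18,z2,z0,z0,z21,y18]),(z1,[y9,y1,z0,z0,
    y9,z9])],.ref k12 k0 [(z21,[y18,z7,z0,z2,z36]),(z42,[y9,z0,z14,z1,z18]),(z7,[z3,z0,z0,z2,y6]),(z7,[z9,z0,z0,y1,
    z3]),(z14,[y9,z0,z0,z1,z18])],.ref k12 k0 [(z6,[y9,z1,y1,z0,z0,z9]),(z24,[y9,y1,z7,z0,z0,z9]),(z12,[z9,z1,z1,z4,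
    z0,y9]),(z4,[z9,z1,z1,z0,z12,y9]),(z8,[y9,y1,y1,z0,z0,z9])],.ref k12 k0 [(z15,[y36,z5,z0,z4,z36]),(z15,[y9,z0,z5,
    z1,z9]),(z5,[z6,z0,z0,z1,y6]),(z5,[z18,z0,z0,y2,y3]),(z5,[y9,z0,z0,z1,z9])],.ref k12 k0 [(z3,[z9,z1,z0,y1]),(z12,
    [z9,z0,z4,y1]),(z2,[y3,z0,z0,z1]),(z2,[y9,z0,z0,z1,z6]),(z4,[z9,z0,z0,y1])],.ref k12 k0 [(z3,[z36,z5,z4,z0,z36,
    y36]),(z3,[z9,z1,z2,z0,z9,y9]),(z3,[y18,y2,y2,z1,y18,z18]),(z1,[y18,y2,y2,z0,y15,z18]),(z1,[z9,z1,z1,z0,z9,y9])],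
    .ref k12 k0 [(z3,[y18,y3,y4,y2,y36,z36]),(z6,[y9,y2,z0,y1,y18,z18]),(z3,[z9,z2,z2,z2,z18,y18]),(z1,[z9,z2,z2,z1,
    z21,y18]),(z2,[y9,y2,y2,y1,y18,z18])],.ref k12 k0 [(z3,[y2,z1,z0,z0,z6]),(z6,[y1,z0,z2,z0,z3]),(z3,[z1,z0,z0,z1,
    y3]),(z1,[z1]),(z2,[y1,z0,z0,z0,z3])],.ref k12 k0 [(z9,[y36,y1,y4,y4,z0,z36]),(z9,[y9,y1,z2,y1,z0,z9]),(z9,[z18,
    z2,z2,z5,z0,y18]),(z3,[z18,z2,z2,z2,z9,y18]),(z3,[y9,y1,y1,y1,z0,z9])],.ref k12 k0 [(z3,[z4,z1]),(z3,[z1,z0,z1]),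
    (z3,[y2,z0,z0,z1]),(z1,[y2,z0,z0,z0,z3]),(z1,[z1])],.ref k12 k0 [(z9,[z18,z5,z2,z2,z18,y18]),(z18,[z9,z1,z7,z1,z9,
    y9]),(z9,[y9,y1,y1,z2,y9,z9]),(z3,[y9,y1,y1,y1,z0,z9]),(z6,[z9,z1,z1,z1,z9,y9])],.ref k12 k0 [(z9,[z36,z11,z8,z8,
    z72,y72]),(z9,[z9,z2,z5,z2,z18,y18]),(z9,[y18,y4,y4,y1,y36,z36]),(z3,[y18,y4,y4,y4,y27,z36]),(z3,[z9,z2,z2,z2,z18,
    y18])]],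
    .lp [k162,k162,k162,k156,k142,k174] [k6,k6,k6,k6,k6,k6,k9,k9,k16,k16,k0,k0] k0 [[k0,k0,k0,k0,k0,k0,k0,k0,k0,k0,k2],
    [k0,k0,k0,k12],[k12],[k0,k0,k0,k0,k0,k0,k0,k0,k0,k0,k0,k14],[k0,k0,k0,k0,k0,k0,k32],[k0,k0,k0,k0,k0,k0,k0,k0,k0,
    k6],[k0,k0,k0,k0,k0,k0,k0,k0,k12,k0,k12],[k0,k0,k0,k0,k0,k32],[k0,k0,k0,k0,k6],[k0,k0,k0,k0,k0,k0,k0,k12,k0,k0,k0,
    k22],[k0,k0,k14,k0,k0,k0,k0,k0,k22],[k0,k2,k0,k0,k0,k0,k0,k12]] (nat_lit 480) k5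
    [[(k6,k147),(k0,k160),(k4,k162),(k10,k168),(k8,k174),(k2,k176)],[(k9,k152),(k7,k159),(k1,k160),(k3,k162),(k11,
    k168),(k5,k174)],[(k2,k150),(k8,k152),(k6,k159),(k0,k162),(k4,k162),(k10,k170)],[(k3,k150),(k9,k152),(k7,k159),
    (k5,k162),(k11,k168),(k1,k176)],[(k8,k152),(k10,k154),(k6,k159),(k2,k162),(k4,k162),(k0,k174)],[(k9,k120),(k7,
    k159),(k1,k162),(k3,k162),(k5,k162),(k11,k174)],[(k8,k143),(k0,k159),(k2,k159),(k4,k159),(k10,k165),(k6,k188)],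
    [(k1,k147),(k9,k149),(k11,k153),(k3,k159),(k5,k159),(k7,k188)],[(k4,k120),(k6,k149),(k0,k152),(k2,k152),(k8,k154),
    (k10,k170)],[(k7,k143),(k3,k152),(k5,k152),(k9,k154),(k11,k158),(k1,k174)],[(k10,k152),(k6,k153),(k8,k158),(k0,
    k168),(k2,k168),(k4,k174)],[(k11,k152),(k5,k154),(k7,k165),(k1,k168),(k3,k170),(k9,k170)]]
    [] k0
    [[k2,k0,k0,k1,k0,k0],[k1,k0,k1,k0,k1,k0],[k1,k1,k0,k1,k0,k0],[k1,k0,k0,k1,k1,k0],[k1,k0,k0,k0,k1,k1],[k0,k3,k0,k0,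
    k0,k0],[k0,k2,k1,k0,k0,k0],[k0,k2,k0,k1,k0,k0],[k0,k2,k0,k0,k1,k0],[k0,k1,k1,k0,k1,k0],[k0,k1,k0,k1,k1,k0],[k0,k1,
    k0,k0,k2,k0],[k0,k0,k2,k0,k1,k0],[k0,k0,k1,k1,k1,k0],[k0,k0,k1,k0,k2,k0],[k0,k0,k1,k1,k0,k1],[k0,k0,k1,k0,k1,k1],
    [k0,k0,k0,k1,k2,k0],[k0,k0,k0,k1,k1,k1],[k0,k0,k0,k1,k0,k2],[k0,k0,k0,k0,k3,k0],[k0,k0,k0,k0,k0,k3]]
    [.ref k12 k0 [(z5,[z6,z3,z0,z0,y2]),(z5,[y6,z12,z5,z0,z2]),(z10,[y3,z6,z0,z10,z1]),(z5,[z3,y6,z0,z0,z4]),(z5,[y3,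
    y9,y5,y5,y4,z15])],.ref k12 k0 [(z1,[z12,z3,z4,z0,z4,y12]),(z1,[y12,z0,y3,z0,y4,z12]),(z1,[y3,z0,y1,z1,y1,z3]),
    (z1,[z6,z0,z2,z0,z3,y6]),(z1,[y6,y3,y3,y1,y3,z9])],.ref k12 k0 [(z1,[z6,y3,y2,z0,y2]),(z1,[y6,z6,z3,z0,z2]),(z2,
    [y3,z3,z1,z2,z1]),(z1,[z3,y3,y1]),(z1,[y3,z0,z0,y1,z0,z3])],.ref k12 k0 [(z1,[z3,z3,z1,z1,z0,y3]),(z1,[y3,z0,z0,
    y1,z0,z3]),(z4,[y3,z0,y1,z3,z0,z3]),(z2,[z3,z0,z1,z1,z2,y3]),(z2,[y3,y6,y3,y3,y2,z9])],.ref k12 k0 [(z3,[z12,z9,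
    z4,z4,z4,y12]),(z3,[y12,z0,y1,y4,y4,z12]),(z3,[y3,z0,y1,z2,y1,z3]),(z3,[z6,z0,z2,z2,z5,y6]),(z3,[y6,y9,y5,y5,y5,
    z15])],.ref k12 k0 [(z1,[y1,z3,z1]),(z1,[z1]),(z4,[z1,z0,y1,z4]),(z2,[y1,z0,z1,z0,z2]),(z2,[z1,y6,y3,y2,y2,z6])],
    .ref k12 k0 [(z9,[y12,z27,z8,z4]),(z9,[z12,z0,z1,y4]),(z9,[z3,z0,y2,z8]),(z9,[y6,z0,z4,z2,z9]),(z9,[z6,y27,y13,
    y11,y9,z27])],.ref k12 k0 [(z3,[y6,z9,z4,z0,z2]),(z3,[z6,z0,y1,z0,y2]),(z6,[z3,z0,y2,z6,y1]),(z3,[y3,z0,z2,z0,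
    z4]),(z3,[z3,y9,y5,y3,y4,z9])],.ref k12 k0 [(z5,[y6,z9,z2,y2,y2,z6]),(z5,[z6,z6,z3,z2,z2,y6]),(z10,[z3,z3,y1,z11,
    z1,y3]),(z5,[y3,y3,z1,y1,z4,z3]),(z5,[z3,y12,y6,y4,y4,z12])],.ref k12 k0 [(z7,[y12,z9,z0,z0,y4,z12]),(z7,[z12,z12,
    z7,z0,z4,y12]),(z7,[z3,z3,z0,z7,z1,y3]),(z7,[y6,y6,z0,z0,z5,z6]),(z7,[z6,y15,y7,y7,y5,z15])],.ref k12 k0 [(z1,[y3,
    z0,z0,y1,z0,z3]),(z1,[z3,z3,z1,z1,z0,y3]),(z4,[z3,z3,z0,z5,z0,y3]),(z2,[y3,y3,z0,y1,z2,z3]),(z2,[z3,y3,y2,y1,y2,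
    z3])],.ref k12 k0 [(z2,[y3,z0,y1,y2,y2,z6]),(z2,[z3,z6,z3,z2,z2,y6]),(z8,[z3,z6,z1,z10,z2,y6]),(z4,[y3,y6,y1,y2,
    z2,z6]),(z4,[z3,y6,y3,y2,y2,z6])],.ref k12 k0 [(z1,[y3,z0,y1,z1,y1,z3]),(z1,[z3,z3,z2,y1,z1,y3]),(z4,[z3,z3,z1,z3,
    z1,y3]),(z2,[y3,y3,y1,z1,z1,z3]),(z2,[z3,y3,y1,y3,y1,z3])],.ref k12 k0 [(z1,[y12,y9,y4,z0,z0,z12]),(z1,[z12,z12,
    z5,z0,z0,y12]),(z1,[z3,z3,z1,z1,z0,y3]),(z1,[y6,y6,y2,z0,z1,z6]),(z1,[z6,z3,z1,y1,y1,y3])],.ref k12 k0 [(z5,[y12,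
    y9,y8,y4,y8,z24]),(z5,[z12,z24,z13,z4,z8,y24]),(z5,[z3,z6,z2,z6,z2,y6]),(z5,[y6,y12,y4,y2,z1,z12]),(z5,[z6,y3,y1,
    y3,y1,z3])],.ref k12 k0 [(z1,[z6,z3,z0,y2,y2]),(z1,[y6,z0,z1,z2,z2]),(z2,[y3,z0,z0,z3,z1]),(z1,[z3,z0,z0,y1]),(z1,
    [y3,y3,y1,z0,z0,z3])],.ref k12 k0 [(z1,[y6,y3,y2,z0,y2,z6]),(z1,[z6,z6,z3,z0,z2,y6]),(z2,[z3,z3,z1,z2,z1,y3]),(z1,
    [y3,y3,y1,z0,z0,z3]),(z1,[z3,z0,z0,y1])],.ref k12 k0 [(z1,[y6,y9,y4,y4,y2,z12]),(z1,[z6,z12,z5,z4,z2,y12]),(z2,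
    [z3,z6,z2,z4,z1,y6]),(z1,[y3,y6,y2,y2,z0,z6]),(z1,[z3,z3,z1,z1,z0,y3])],.ref k12 k0 [(z1,[z12,z15,z4,z4,z0,y12]),
    (z1,[y12,y12,y3,y4,z0,z12]),(z1,[y3,y3,y1,z0,z0,z3]),(z1,[z6,z6,z2,z2,z1,y6]),(z1,[y6,y9,y3,y3,y1,z9])],
    .ref k12 k0 [(z1,[z3,z3,z0,z0,y1]),(z1,[y3,z0,z1,z0,z1]),(z4,[y3,z0,z0,z4,z1]),(z2,[z3,z0,z0,z0,z1]),(z2,[y3,y6,
    y2,y2,y1,z6])],.ref k12 k0 [(z1,[y2,y3,y2,y2,y2,z6]),(z1,[z2,z6,z3,z2,z2,y6]),(z2,[z1,z3,z1,z3,z1,y3]),(z1,[y1,y3,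
    y1,y1,z0,z3]),(z1,[z1])],.ref k12 k0 [(z1,[z4,z3]),(z1,[y4,z0,z1]),(z1,[y1,z0,z0,z1]),(z1,[z2,z0,z0,z0,z1]),(z1,
    [y2,y3,y1,y1,y1,z3])]],
    .lp [k70,k84,k84,k84,k74,k82] [k9,k5,k0,k0,k0,k0,k0,k0,k5,k5,k1,k1] k0 [[k0,k0,k0,k0,k0,k0,k2,k0,k2],[k0,k0,k0,k4,k0,
    k2],[k4],[k0,k0,k0,k0,k0,k2],[k2,k0,k2],[k0,k0,k0,k0,k0,k0,k0,k0,k0,k2,k0,k12],[k0,k0,k0,k0,k0,k0,k0,k0,k10],[k0,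
    k2],[k0,k0,k0,k0,k2,k0,k0,k0,k0,k0,k14],[k0,k2,k0,k0,k0,k0,k0,k10],[k0,k0,k0,k0,k12],[k0,k0,k0,k0,k0,k0,k0,k0,k0,
    k14]] (nat_lit 240) k5
    [[(k8,k60),(k0,k70),(k10,k78),(k2,k79),(k6,k79),(k4,k91)],[(k9,k68),(k1,k70),(k11,k72),(k3,k75),(k7,k77),(k5,
    k79)],[(k0,k75),(k2,k80),(k8,k81),(k4,k82),(k10,k83),(k6,k86)],[(k1,k79),(k9,k79),(k3,k80),(k11,k83),(k5,k84),(k7,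
    k86)],[(k0,k79),(k8,k79),(k4,k82),(k10,k83),(k2,k84),(k6,k84)],[(k9,k79),(k3,k82),(k5,k82),(k7,k84),(k11,k85),(k1,
    k91)],[(k10,k71),(k0,k77),(k8,k77),(k4,k84),(k6,k84),(k2,k86)],[(k11,k73),(k1,k79),(k9,k79),(k5,k84),(k7,k84),(k3,
    k86)],[(k0,k68),(k10,k78),(k2,k79),(k4,k79),(k6,k79),(k8,k84)],[(k1,k60),(k7,k77),(k11,k78),(k5,k79),(k3,k81),(k9,
    k84)],[(k0,k72),(k6,k73),(k8,k78),(k2,k83),(k4,k85),(k10,k96)],[(k7,k71),(k1,k78),(k9,k78),(k3,k83),(k5,k83),(k11,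
    k96)]]
    [] k0
    [[k3,k0,k0,k0,k0,k0],[k2,k1,k0,k0,k0,k0],[k2,k0,k0,k1,k0,k0],[k2,k0,k0,k0,k1,k0],[k2,k0,k0,k0,k0,k1],[k1,k2,k0,k0,
    k0,k0],[k1,k1,k0,k0,k1,k0],[k1,k1,k0,k0,k0,k1],[k1,k0,k1,k0,k1,k0],[k1,k0,k0,k1,k1,k0],[k1,k0,k0,k1,k0,k1],[k1,k0,
    k0,k0,k2,k0],[k1,k0,k0,k0,k1,k1],[k0,k0,k0,k2,k0,k1],[k0,k0,k0,k1,k1,k1]]
    [.ref (nat_lit 222) k3 [(z1,[y4,z6,z9]),(z2,[y2,z3,z0,z9]),(z1,[z2,y3]),(z2,[z0,y1,y2,y1,z2])],.ref k10 k10 [(z1,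
    [z0,z0,z1,y2]),(z2,[z1,z0,y1,z2]),(z2,[z1,y1,y1,y1]),(z2,[y2,z1,z0,z1,z2])],.ref k82 k10 [(z1,[z0,z0,z1,y2]),(z2,
    [z1,z0,z0,y1]),(z2,[z1,y1,z0,y4]),(z2,[y2,z1,y2,z7,z2])],.ref k47 k0 [(z4,[z2,z1,z2,z1,y2]),(z1,[y2,z1,z1,y1,z2]),
    (z4,[y2,z1,y2,z5,z2]),(z2,[z2,y1,z2,z1,y2])],.ref k68 k10 [(z1,[z0,z0,z1,y2]),(z2,[z2,z1,z0,z3]),(z1,[z1,y1,z0,
    y3]),(z2,[y4,z1,y6,z9,z6])],.ref k165 k10 [(z1,[z0,z0,z1,y2]),(z1,[z1,z0,y2,z4]),(z2,[z2,y1,y4,z5]),(z2,[y4,z1,z6,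
    y11,z2])],.ref k10 k10 [(z1,[z0,z0,z1,y2]),(z2,[y2,z1,z0,z1,z2]),(z1,[y1,z0,z0,y1,z1]),(z2,[z4,y1,y2,z3,y2])],
    .ref (nat_lit 213) k0 [(z1,[y3,z2,z3]),(z1,[z4,y2,y3]),(z2,[z2,y1,y2,z1]),(z1,[y2,z1,z2])],.ref k62 k10 [(z1,[z0,
    z0,z1,y2]),(z2,[y2,z1,y2,z5,z2]),(z1,[y1,z0,y1,z1,z1]),(z2,[z4,y1,z2,y5,y2])],.ref k165 k10 [(z1,[z0,z0,z1,y2]),
    (z2,[y2,z1,y2,z7,z2]),(z1,[y1,z0,y1,z2,z1]),(z2,[z4,y1,z2,y9,y2])],.ref k188 k10 [(z1,[z0,z0,z1,y2]),(z2,[z2,z1,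
    z0,z1]),(z2,[z2,y1,z0,y5]),(z1,[y1,z0,y1,z2,z1])],.ref (nat_lit 223) k0 [(z1,[z1,z1,z2,z1,y2]),(z1,[y4,y2,y5,y4,
    z8]),(z2,[y2,y1,y4,z1,z4]),(z1,[z2,z1,z4,z2,y4])],.ref k47 k0 [(z2,[z2,z1,z2,z1,y2]),(z1,[y4,z0,y1,y2,z4]),(z1,
    [y1,z0,y1,z1,z1]),(z1,[z2,z0,z2,z1,y2])],.ref k82 k10 [(z1,[z0,z0,z1,y2]),(z2,[z2,z1,z0,y1]),(z1,[z1,z0,z0,y2]),
    (z2,[y4,y1,y2,z7,z2])],.ref k62 k10 [(z1,[z0,z0,z1,y2]),(z1,[y1,z0,y1,z2,z1]),(z2,[y2,y1,y2,z1,z2]),(z2,[z4,z1,z2,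
    y3,y2])]],
    .leafM k0 [k0,k1,k2,k3,k4,k5] [(z1,[z0,z1,z1,z1])] [],
    .tor k7 false k1 [(z1,[y1,y1,y1,z1,z1]),(z1,[z1,z2]),(z1,[y1,y1,z0,y1,z1]),(z1,[z1,z0,z1])],
    .lp [k160,k160,k168,k162,k156,k152] [k4,k4,k4,k4,k0,k0,k3,k3,k6,k6,k8,k8] k0 [[k0,k0,k0,k0,k0,k0,k16,k0,k10],[],[],
    [k0,k0,k0,k0,k0,k6,k0,k12],[k0,k0,k6],[k0,k0,k0,k0,k0,k0,k0,k0,k0,k0,k0,k10],[k0,k0,k12,k0,k0,k0,k0,k0,k0,k0,k2],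
    [k0,k16],[k0,k0,k0,k0,k0,k0,k0,k0,k0,k0,k26],[k0,k10],[k0,k0,k0,k0,k10],[k0,k0,k0,k0,k0,k0,k0,k2,k0,
    k26]] (nat_lit 480) k5
    [[(k8,k132),(k10,k156),(k6,k159),(k0,k160),(k2,k160),(k4,k174)],[(k9,k142),(k11,k146),(k1,k160),(k3,k160),(k7,
    k161),(k5,k164)],[(k10,k156),(k0,k160),(k2,k160),(k4,k164),(k8,k168),(k6,k177)],[(k11,k156),(k1,k160),(k3,k160),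
    (k5,k164),(k7,k167),(k9,k170)],[(k6,k153),(k10,k160),(k4,k162),(k8,k162),(k0,k164),(k2,k164)],[(k11,k160),(k5,
    k162),(k9,k162),(k3,k164),(k7,k165),(k1,k174)],[(k10,k147),(k8,k159),(k0,k161),(k6,k162),(k4,k165),(k2,k167)],
    [(k5,k153),(k11,k157),(k1,k159),(k9,k159),(k7,k162),(k3,k177)],[(k0,k142),(k8,k156),(k10,k156),(k6,k159),(k4,
    k162),(k2,k170)],[(k1,k132),(k11,k154),(k9,k156),(k7,k159),(k5,k162),(k3,k168)],[(k0,k146),(k8,k154),(k2,k156),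
    (k6,k157),(k4,k160),(k10,k178)],[(k7,k147),(k1,k156),(k3,k156),(k9,k156),(k5,k160),(k11,k178)]]
    [] k0
    [[k2,k0,k0,k0,k1,k0],[k2,k0,k0,k0,k0,k1],[k1,k1,k0,k0,k1,k0],[k1,k1,k0,k0,k0,k1],[k1,k0,k1,k0,k1,k0],[k1,k0,k0,k1,
    k1,k0],[k1,k0,k0,k1,k0,k1],[k1,k0,k0,k0,k2,k0],[k1,k0,k0,k0,k1,k1],[k0,k2,k0,k0,k0,k1],[k0,k0,k1,k1,k1,k0],[k0,k0,
    k1,k1,k0,k1],[k0,k0,k1,k0,k1,k1],[k0,k0,k0,k2,k0,k1],[k0,k0,k0,k1,k2,k0],[k0,k0,k0,k1,k1,k1],[k0,k0,k0,k0,k3,k0],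
    [k0,k0,k0,k0,k2,k1]]
    [.ref k12 k0 [(z6,[z7,z11,z7,z7,z7,y7]),(z3,[y1,z1,z8,y1,y1,z1]),(z3,[y4,z4,y4,z5,y4,z4]),(z3,[y1,z1,y1,y1,z8,
    z1]),(z3,[z2,y11,y7,y7,y7,z7])],.ref k12 k0 [(z5,[z7,z1]),(z5,[y2,z4,z15]),(z5,[y8,z16,z0,z15]),(z5,[y2,z4,z0,z0,
    z15]),(z5,[z4,y23,y15,y15,y15,z15])],.ref k12 k0 [(z3,[z7,z9,z0,z7,z7,y7]),(z3,[y2,z0,z9,y2,y2,z2]),(z3,[y8,z0,z0,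
    z1,y8,z8]),(z3,[y2,z0,z0,y2,z7,z2]),(z3,[z4,y9,y9,y5,y5,z5])],.ref k12 k0 [(z2,[z7,y1,y7]),(z1,[y1,z1,z4]),(z1,
    [y4,z4,z4,z3]),(z1,[y1,z1,z1,z0,z3]),(z1,[z2,y5,y5,y3,y3,z3])],.ref k12 k0 [(z1,[z7,z3,z7,z0,z7,y7]),(z1,[y2,z0,
    z1,z0,y2,z2]),(z1,[y8,z0,y8,z3,y8,z8]),(z1,[y2,z0,y2,z0,z1,z2]),(z1,[z4,y3,z1,y3,z1,y1])],.ref k12 k0 [(z3,[z7,z9,
    z7,z7,z0,y7]),(z3,[y2,z0,z7,y2,z0,z2]),(z3,[y8,z0,y8,z1,z0,z8]),(z3,[y2,z0,y2,y2,z9,z2]),(z3,[z4,y9,y5,y5,y9,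
    z5])],.ref k12 k0 [(z2,[z7,y1,z0,z0,y7]),(z1,[y1,z1,z3,z0,z1]),(z1,[y4,z4,z0,z3,z4]),(z1,[y1,z1,z0,z0,z4]),(z1,
    [z2,y5,y3,y3,y5,z3])],.ref k12 k0 [(z5,[z7,z22,z14,z14,z14,y14]),(z5,[y2,y2,z11,y4,y4,z4]),(z5,[y8,y8,y16,y1,y16,
    z16]),(z5,[y2,y2,y4,y4,z11,z4]),(z5,[z4,y11,y7,y7,y7,z7])],.ref k12 k0 [(z4,[z7,z12,z7,z7,z7,y7]),(z2,[y1,z0,z5,
    y1,y1,z1]),(z1,[y2,z0,y2,z1,y2,z2]),(z2,[y1,z0,y1,y1,z5,z1]),(z1,[z1,y3,y2,y2,y2,z2])],.ref k12 k0 [(z1,[y7,z3,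
    z14]),(z1,[z2,z0,y1]),(z1,[z8,z0,y16,z3]),(z1,[z2,z0,y4,z0,z3]),(z1,[y4,y3,z5,y3,y3,z3])],.ref k12 k0 [(z2,[y7,y1,
    y7,z0,z0,z7]),(z1,[z1,z1,z4,z0,z0,y1]),(z1,[z4,z4,z4,z3,z0,y4]),(z1,[z1,z1,z1,z0,z3,y1]),(z1,[y2,y5,y5,y3,y3,
    z5])],.ref k12 k0 [(z3,[y7,z9,z0,z7,z7]),(z3,[z2,z0,z9,y2,y2]),(z3,[z8,z0,z0,z1,y8]),(z3,[z2,z0,z0,y2,z7]),(z3,
    [y4,y9,y9,y5,y5,z9])],.ref k12 k0 [(z1,[y7,y4,y7,z0,y7,z7]),(z1,[z2,z2,z5,z0,z2,y2]),(z1,[z8,z8,z8,z3,z8,y8]),(z1,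
    [z2,z2,z2,z0,z5,y2]),(z1,[y4,y7,y7,y3,y7,z7])],.ref k12 k0 [(z1,[y7,z3,z0,z0,z14]),(z1,[z2,z0,z3,z0,y4]),(z1,[z8,
    z0,z0,z3,y16]),(z1,[z2,z0,z0,z0,y1]),(z1,[y4,y3,y3,y3,z5,z3])],.ref k12 k0 [(z2,[z7,z20,z14,z14,z7,y14]),(z1,[y1,
    y2,z1,y2,y1,z2]),(z1,[y4,y8,y8,y5,y4,z8]),(z1,[y1,y2,y2,y2,z2,z2]),(z1,[z2,z1,z1,z1,y1,y1])],.ref k12 k0 [(z1,[z7,
    z10,z7,z7,z0,y7]),(z1,[y2,y2,z1,y2,z0,z2]),(z1,[y8,y8,y8,y5,z0,z8]),(z1,[y2,y2,y2,y2,z3,z2]),(z1,[z4,z1,z1,z1,y3,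
    y1])],.ref k12 k0 [(z4,[z7,z33,z21,z21,z21,y21]),(z2,[y1,y3,z3,y3,y3,z3]),(z1,[y2,y6,y6,y3,y6,z6]),(z2,[y1,y3,y3,
    y3,z3,z3]),(z1,[z1])],.ref k12 k0 [(z3,[z7,z23,z14,z14,z14,y14]),(z3,[y2,y4,z5,y4,y4,z4]),(z3,[y8,y16,y16,y7,y16,
    z16]),(z3,[y2,y4,y4,y4,z5,z4]),(z3,[z4,y1,y1,y1,y1,z1])]],
    .lp [(nat_lit 322),(nat_lit 330),(nat_lit 304),(nat_lit 326),(nat_lit 300),(nat_lit 336)] [k7,k7,k3,k3,k16,k16,k5,k5,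
    k18,k18,k0,k0] k0 [[k0,k0,k0,k0,k0,k0,k0,k0,k0,k0,k2],[k0,k0,k0,k0,k0,k14],[k0,k0,k0,k0,k0,k0,k8,k0,k0,k0,k22],
    [k0,k0,k0,k0,k0,k6,k0,k0,k0,k6],[k14,k0,k6],[k0,k0,k0,k0,k0,k0,k0,k64,k0,k0,k0,k36],[k0,k0,k0,k0,k64,k0,k0,k0,
    k38],[k0,k0,k0,k8,k0,k0,k0,k0,k0,k0,k0,k12],[k0,k0,k6],[k0,k0,k0,k0,k0,k0,k0,k38],[k0,k0,k0,k0,k36,k0,k12],[k0,k2,
    k0,k22]] (nat_lit 960) k5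
    [[(k2,(nat_lit 304)),(k8,(nat_lit 311)),(k0,(nat_lit 320)),(k10,(nat_lit 329)),(k6,(nat_lit 336)),(k4,
    (nat_lit 349))],[(k9,(nat_lit 311)),(k5,(nat_lit 313)),(k1,(nat_lit 320)),(k3,(nat_lit 326)),(k11,(nat_lit 329)),
    (k7,(nat_lit 338))],[(k4,(nat_lit 303)),(k8,(nat_lit 315)),(k0,(nat_lit 326)),(k6,(nat_lit 328)),(k2,
    (nat_lit 330)),(k10,(nat_lit 335))],[(k1,(nat_lit 304)),(k9,(nat_lit 307)),(k5,(nat_lit 317)),(k3,(nat_lit 330)),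
    (k7,(nat_lit 334)),(k11,(nat_lit 339))],[(k8,(nat_lit 296)),(k4,(nat_lit 298)),(k0,(nat_lit 313)),(k2,
    (nat_lit 317)),(k6,(nat_lit 323)),(k10,(nat_lit 342))],[(k5,(nat_lit 298)),(k3,(nat_lit 303)),(k7,(nat_lit 315)),
    (k11,(nat_lit 320)),(k1,(nat_lit 349)),(k9,(nat_lit 366))],[(k6,(nat_lit 262)),(k10,(nat_lit 295)),(k8,
    (nat_lit 313)),(k4,(nat_lit 315)),(k2,(nat_lit 334)),(k0,(nat_lit 338))],[(k7,(nat_lit 262)),(k11,(nat_lit 293)),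
    (k9,(nat_lit 313)),(k5,(nat_lit 323)),(k3,(nat_lit 328)),(k1,(nat_lit 336))],[(k10,(nat_lit 306)),(k2,
    (nat_lit 307)),(k0,(nat_lit 311)),(k6,(nat_lit 313)),(k8,(nat_lit 338)),(k4,(nat_lit 366))],[(k5,(nat_lit 296)),
    (k1,(nat_lit 311)),(k7,(nat_lit 313)),(k3,(nat_lit 315)),(k11,(nat_lit 318)),(k9,(nat_lit 338))],[(k6,
    (nat_lit 293)),(k8,(nat_lit 318)),(k4,(nat_lit 320)),(k0,(nat_lit 329)),(k10,(nat_lit 336)),(k2,(nat_lit 339))],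
    [(k7,(nat_lit 295)),(k9,(nat_lit 306)),(k1,(nat_lit 329)),(k3,(nat_lit 335)),(k11,(nat_lit 336)),(k5,
    (nat_lit 342))]]
    [] k0
    [[k2,k1,k0,k0,k0,k0],[k2,k0,k0,k0,k1,k0],[k1,k1,k1,k0,k0,k0],[k1,k1,k0,k0,k1,k0],[k1,k0,k1,k0,k1,k0],[k1,k0,k0,k2,
    k0,k0],[k1,k0,k0,k0,k1,k1],[k0,k2,k1,k0,k0,k0],[k0,k2,k0,k0,k1,k0],[k0,k1,k2,k0,k0,k0],[k0,k1,k1,k0,k1,k0],[k0,k1,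
    k0,k2,k0,k0],[k0,k1,k0,k1,k1,k0],[k0,k0,k3,k0,k0,k0],[k0,k0,k2,k1,k0,k0],[k0,k0,k1,k2,k0,k0],[k0,k0,k1,k1,k0,k1],
    [k0,k0,k1,k1,k1,k0],[k0,k0,k1,k0,k1,k1],[k0,k0,k0,k3,k0,k0],[k0,k0,k0,k2,k1,k0],[k0,k0,k0,k2,k0,k1],[k0,k0,k0,k1,
    k1,k1],[k0,k0,k0,k1,k0,k2]]
    [.ref k12 k0 [(z5,[z6,z3,y1]),(z5,[z3,y6,z2]),(z10,[y6,z12,z1,z15]),(z5,[y12,z24,z2,z0,z15]),(z5,[z6,y12,y1])],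
    .ref k12 k0 [(z1,[z1,z1]),(z2,[z1,y2,z1]),(z2,[y1,z2,z0,z3]),(z1,[y2,z4,z0,z0,z3]),(z1,[z1,y2])],.ref k12 k0 [(z2,
    [z6,z0,y1,y3]),(z4,[z6,y6,z1,y3]),(z4,[y6,z6,z1,z9]),(z1,[y6,z6,z1,z3,z3]),(z2,[z6,y6,y1,y3])],.ref k12 k0 [(z5,
    [z6,z9,y1]),(z5,[z3,y3,z2]),(z10,[y6,z6,z1,z15]),(z5,[y12,z12,z2,z0,z15]),(z5,[z6,y6,y1])],.ref k12 k0 [(z1,[z2,
    z1,z0,y1]),(z2,[z2,y2,z1,y1]),(z1,[y1,z1,z0,z2]),(z1,[y4,z4,z0,z2,z3]),(z1,[z2,y2,z0,y1])],.ref k12 k0 [(z1,[y1,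
    z4,z0,z0,z2]),(z2,[y1,z1,z1,z0,z2]),(z2,[z1,y1,z0,z3,y2]),(z1,[z2,y2,z0,z0,y1]),(z1,[y1,z1,z0,z0,z2])],
    .ref k12 k0 [(z4,[z6,z12,z1,z3,z6,y6]),(z8,[z6,z0,z5,z3,z6,y6]),(z8,[y6,z0,y1,z9,y6,z6]),(z2,[y6,z0,y1,y3,z0,z6]),
    (z4,[z6,z0,z1,z3,z6,y6])],.ref k12 k0 [(z1,[z6,z3,y2,y3]),(z2,[z6,z0,y1,y3]),(z1,[y3,z0,z1,z3]),(z1,[y12,z0,z4,z6,
    z3]),(z1,[z6,z0,y2,y3])],.ref k12 k0 [(z2,[z3,z6,y1]),(z4,[z3,z0,z1]),(z4,[y3,z0,z1,z6]),(z1,[y3,z0,z1,z0,z3]),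
    (z2,[z3,z0,y1])],.ref k12 k0 [(z1,[y6,z3,z1,z6]),(z1,[y3,z0,z1,z3]),(z2,[z6,z0,y1,y3]),(z1,[z12,z0,y2,y12,z3]),
    (z1,[y6,z0,z1,z6])],.ref k12 k0 [(z2,[z6,z6,y1,y3]),(z4,[z6,z0,z1,y3]),(z4,[y6,z0,z1,z9]),(z1,[y6,z0,z1,z3,z3]),
    (z2,[z6,z0,y1,y3])],.ref k12 k0 [(z7,[y6,z21,z1,z0,z12]),(z7,[y3,z0,z4,z0,z6]),(z14,[z6,z0,y1,z21,y12]),(z7,[z12,
    z0,y2,z0,y3]),(z7,[y6,z0,z1,z0,z12])],.ref k12 k0 [(z1,[y6,z3,z1,z0,z6]),(z1,[y3,z0,z1,z0,z3]),(z2,[z6,z0,y1,z3,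
    y6]),(z1,[z12,z0,y2,z0,y9]),(z1,[y6,z0,z1,z0,z6])],.ref k12 k0 [(z1,[y2,z3,z0,z3]),(z2,[y2,z0,z1,z3]),(z1,[z1]),
    (z1,[z4,z0,z0,y6,z3]),(z1,[y2,z0,z0,z3])],.ref k12 k0 [(z1,[y1,z3,z0,z1,z1]),(z2,[y1,z0,z1,z1,z1]),(z2,[z1,z0,z0,
    z2,y1]),(z1,[z2,z0,z0,y2,z1]),(z1,[y1,z0,z0,z1,z1])],.ref k12 k0 [(z3,[y2,z9,z0,z1,z4]),(z6,[y2,z0,z3,z1,z4]),(z3,
    [z1,z0,z0,z4,y2]),(z3,[z4,z0,z0,y2,z1]),(z3,[y2,z0,z0,z1,z4])],.ref k12 k0 [(z5,[y6,z9,y1,z0,z0,z6]),(z5,[y3,y3,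
    z2,z0,z0,z3]),(z10,[z6,z6,z1,z15,z0,y6]),(z5,[z12,z12,z2,z0,z15,y12]),(z5,[y6,y6,y1,z0,z0,z6])],.ref k12 k0 [(z1,
    [y2,z3,z0,z1,z2]),(z2,[y2,z0,z1,z1,z2]),(z1,[z1,z0,z0,z1,y1]),(z1,[z4,z0,z0,y2,y1]),(z1,[y2,z0,z0,z1,z2])],
    .ref k12 k0 [(z1,[z6,z9,z1,z0,z6,y6]),(z1,[z3,z3,z1,z0,z3,y3]),(z2,[y6,y6,y1,z3,y6,z6]),(z1,[y12,y12,y2,z0,y9,
    z12]),(z1,[z6,z6,z1,z0,z6,y6])],.ref k12 k0 [(z2,[y1,z6,z0,z0,z3]),(z4,[y1,z0,z2,z0,z3]),(z4,[z1,z0,z0,z6,y3]),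
    (z1,[z1]),(z2,[y1,z0,z0,z0,z3])],.ref k12 k0 [(z1,[y1,z3,z0,z0,z2]),(z2,[y1,z0,z1,z0,z2]),(z2,[z1,z0,z0,z3,y2]),
    (z1,[z2,z0,z0,z0,y1]),(z1,[y1,z0,z0,z0,z2])],.ref k12 k0 [(z8,[y6,z18,y1,y3,z6,z6]),(z16,[y6,y6,z7,y3,z6,z6]),
    (z16,[z6,z6,z1,z27,y6,y6]),(z4,[z6,z6,z1,z3,z6,y6]),(z8,[y6,y6,y1,y3,z6,z6])],.ref k12 k0 [(z2,[y6,z0,y1,y3,z0,
    z6]),(z4,[y6,y6,z1,y3,z0,z6]),(z4,[z6,z6,z1,z9,z0,y6]),(z1,[z6,z6,z1,z3,z3,y6]),(z2,[y6,y6,y1,y3,z0,z6])],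
    .ref k12 k0 [(z2,[y3,z0,y1,y3,y3,z6]),(z4,[y3,y6,z1,y3,y3,z6]),(z4,[z3,z6,z1,z9,z3,y6]),(z1,[z3,z6,z1,z3,z6,y6]),
    (z2,[y3,y6,y1,y3,y3,z6])]],
    .lp [k88,k84,k84,k72,k80,k70] [k0,k0,k2,k2,k2,k2,k8,k8,k4,k4,k9,k9] k0 [[k0,k0,k0,k0,k0,k0,k0,k0,k0,k0,k8],[k0,k0,k0,
    k0,k0,k0,k0,k0,k0,k2],[k0,k0,k0,k0,k0,k0,k0,k0,k0,k0,k2],[k0,k0,k0,k0,k0,k0,k0,k0,k0,k8],[],[],[k0,k0,k0,k0,k0,k0,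
    k0,k0,k10],[],[k2,k0,k8],[k0,k0,k0,k0,k0,k0,k0,k10],[],[k0,k8,k0,k2]] (nat_lit 240) k5
    [[(k10,k79),(k0,k80),(k6,k80),(k2,k84),(k8,k84),(k4,k86)],[(k1,k80),(k7,k80),(k11,k81),(k9,k84),(k3,k86),(k5,
    k86)],[(k6,k78),(k8,k80),(k2,k84),(k4,k84),(k10,k85),(k0,k86)],[(k7,k78),(k9,k82),(k1,k84),(k3,k84),(k5,k84),(k11,
    k85)],[(k8,k74),(k6,k78),(k10,k79),(k2,k84),(k4,k84),(k0,k86)],[(k11,k77),(k7,k78),(k9,k82),(k3,k84),(k5,k84),(k1,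
    k86)],[(k10,k71),(k6,k72),(k8,k76),(k2,k78),(k4,k78),(k0,k80)],[(k11,k61),(k7,k72),(k9,k76),(k3,k78),(k5,k78),(k1,
    k80)],[(k10,k75),(k6,k76),(k2,k82),(k4,k82),(k0,k84),(k8,k90)],[(k5,k74),(k11,k75),(k7,k76),(k3,k80),(k1,k84),(k9,
    k90)],[(k6,k61),(k10,k70),(k8,k75),(k4,k77),(k0,k81),(k2,k85)],[(k11,k70),(k7,k71),(k9,k75),(k1,k79),(k5,k79),(k3,
    k85)]]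
    [] k0
    [[k1,k0,k0,k2,k0,k0],[k1,k0,k0,k1,k0,k1],[k1,k0,k0,k0,k1,k1],[k1,k0,k0,k0,k0,k2],[k0,k1,k0,k2,k0,k0],[k0,k1,k0,k1,
    k1,k0],[k0,k1,k0,k1,k0,k1],[k0,k0,k1,k2,k0,k0],[k0,k0,k1,k1,k1,k0],[k0,k0,k1,k1,k0,k1],[k0,k0,k1,k0,k1,k1],[k0,k0,
    k1,k0,k0,k2],[k0,k0,k0,k3,k0,k0],[k0,k0,k0,k2,k1,k0],[k0,k0,k0,k2,k0,k1],[k0,k0,k0,k1,k1,k1],[k0,k0,k0,k1,k0,k2],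
    [k0,k0,k0,k0,k1,k2],[k0,k0,k0,k0,k0,k3]]
    [.ref k22 k6 [(z2,[z1,z1,z1,z4,y2]),(z2,[z4,y2,z1,z1,y2]),(z1,[y1,y1,y1,y1,z2]),(z2,[y1,y1,z2,y1,z2])],
    .ref k179 k7 [(z2,[z0,y2,y1,y5,z2]),(z1,[z0,z0,z0,z1]),(z2,[z2,z0,z1,z3,y2]),(z1,[z0,z1,z0,z1])],
    .ref (nat_lit 225) k7 [(z2,[z0,y2,y1,y5,z2]),(z1,[z0,z0,z0,z1]),(z1,[z1,y1,z0,y2]),(z1,[z0,z1,z0,z1])],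
    .ref k10 k7 [(z2,[z0,y2,y1,y5,z2]),(z1,[z0,z0,z0,z1]),(z2,[z1,y1,z0,y1]),(z1,[z0,z1,z0,z1])],.ref k97 k3 [(z1,[z1,
    y2,z1,z1,y2]),(z1,[z0,z1,z0,z1]),(z2,[z0,z2,y1,y1,z2]),(z1,[z0,y1])],.ref k10 k7 [(z2,[z0,y2,y1,y5,z2]),(z1,[z0,
    z0,z0,z1]),(z1,[y1,y1,z0,y1,z1]),(z1,[z0,z1,z0,z1])],.ref k22 k6 [(z1,[z1,z1,z0,z2,y1]),(z2,[z8,z2,y3,z1,y2]),(z1,
    [y2,y2,z0,y1,z2]),(z2,[y2,y2,z3,y1,z2])],.ref k22 k6 [(z3,[z1,z2,z1,z5,y2]),(z6,[z8,y2,y1,y5,z2]),(z3,[y2,y4,y2,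
    y1,z4]),(z6,[y2,y4,z7,y1,z4])],.ref k22 k6 [(z2,[z2,z2,z1,z3,y2]),(z2,[z8,z2,z1,y3,y2]),(z1,[y2,y2,y1,z0,z2]),(z1,
    [y1,y1,z1,z0,z1])],.ref (nat_lit 226) k7 [(z2,[z0,y2,y1,y5,z2]),(z1,[z0,z0,z0,z1]),(z2,[z2,z2,z1,z5,y2]),(z1,[z0,
    z1,z0,z1])],.ref k10 k7 [(z2,[z0,y2,y1,y5,z2]),(z1,[z0,z0,z0,z1]),(z1,[z1,z0,z0,y1]),(z1,[z0,z1,z0,z1])],
    .ref k82 k11 [(z1,[z2,z1,y2,y1]),(z2,[z2,z0,y1,y1]),(z1,[z2,z0,y2,y1]),(z2,[y8,y2,z7,z3,z2])],.ref k22 k6 [(z8,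
    [z2,z6,z3,z15,y6]),(z1,[z1]),(z4,[y2,y6,y3,y3,z6]),(z8,[y2,y6,z9,y3,z6])],.ref k22 k6 [(z2,[z1,z2,z1,z4,y2]),(z2,
    [z4,z2,z1,z1,y2]),(z1,[y1,y2,y1,y1,z2]),(z2,[y1,y2,z2,y1,z2])],.ref (nat_lit 227) k10 [(z2,[y2,y4,y1,y9,z4]),(z1,
    [z0,z1,z0,z1]),(z1,[z1,z2,z1,z5,y2]),(z1,[z0,z0,z0,z1])],.ref k179 k7 [(z2,[z0,y2,y1,y5,z2]),(z1,[z0,z0,z0,z1]),
    (z2,[z2,z2,z1,z3,y2]),(z1,[z0,z1,z0,z1])],.ref k179 k7 [(z2,[z0,y2,y1,y5,z2]),(z1,[z0,z0,z0,z1]),(z4,[z2,z2,z1,z5,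
    y2]),(z1,[z0,z1,z0,z1])],.ref k10 k7 [(z2,[z0,y2,y1,y5,z2]),(z1,[z0,z0,z0,z1]),(z2,[z1,z0,z0,y1]),(z1,[z0,z1,z0,
    z1])],.ref (nat_lit 228) k0 [(z1,[z0,z1]),(z1,[y2,z0,z3]),(z1,[z0,z0,z0,z1]),(z2,[z0,y2,y1,y1,z2])]],
    .lp [(nat_lit 248),(nat_lit 254),(nat_lit 242),(nat_lit 266),k188,(nat_lit 236)] [k9,k9,k6,k6,k12,k12,k0,k0,k39,k39,
    k15,k15] k0 [[k0,k0,k0,k0,k0,k0,k0,k0,k30,k0,k6],[k0,k0,k0,k0,k0,k0,k0,k24],[k0,k0,k0,k0,k6,k0,k0,k0,k0,k0,k24],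
    [k0,k0,k0,k0,k0,k0,k0,k36,k0,k12],[],[k0,k0,k0,k6],[k24,k0,k36],[],[k0,k0,k12],[k0,k30,k0,k0,k0,k0,k0,k0,k0,k0,k0,
    k18],[k0,k0,k0,k0,k0,k0,k0,k0,k18],[k0,k6,k0,k24]] (nat_lit 720) k5
    [[(k2,(nat_lit 227)),(k8,(nat_lit 236)),(k0,(nat_lit 242)),(k10,(nat_lit 242)),(k4,(nat_lit 245)),(k6,
    (nat_lit 257))],[(k11,(nat_lit 212)),(k1,(nat_lit 242)),(k9,(nat_lit 242)),(k5,(nat_lit 245)),(k3,(nat_lit 251)),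
    (k7,(nat_lit 257))],[(k6,(nat_lit 236)),(k4,(nat_lit 248)),(k0,(nat_lit 251)),(k8,(nat_lit 251)),(k10,
    (nat_lit 251)),(k2,(nat_lit 254))],[(k1,(nat_lit 227)),(k5,(nat_lit 248)),(k3,(nat_lit 254)),(k7,(nat_lit 254)),
    (k9,(nat_lit 257)),(k11,(nat_lit 257))],[(k8,(nat_lit 203)),(k6,(nat_lit 218)),(k0,(nat_lit 245)),(k2,
    (nat_lit 248)),(k4,(nat_lit 248)),(k10,(nat_lit 263))],[(k9,(nat_lit 215)),(k11,(nat_lit 239)),(k1,(nat_lit 245)),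
    (k3,(nat_lit 248)),(k5,(nat_lit 248)),(k7,(nat_lit 254))],[(k8,(nat_lit 227)),(k10,(nat_lit 251)),(k2,
    (nat_lit 254)),(k4,(nat_lit 254)),(k0,(nat_lit 257)),(k6,(nat_lit 266))],[(k5,(nat_lit 218)),(k9,(nat_lit 227)),
    (k3,(nat_lit 236)),(k11,(nat_lit 251)),(k1,(nat_lit 257)),(k7,(nat_lit 266))],[(k8,k188),(k10,(nat_lit 212)),(k4,
    (nat_lit 215)),(k6,(nat_lit 227)),(k0,(nat_lit 242)),(k2,(nat_lit 257))],[(k9,k188),(k5,(nat_lit 203)),(k11,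
    (nat_lit 212)),(k7,(nat_lit 227)),(k1,(nat_lit 236)),(k3,(nat_lit 251))],[(k0,(nat_lit 212)),(k8,(nat_lit 212)),
    (k10,(nat_lit 218)),(k4,(nat_lit 239)),(k6,(nat_lit 251)),(k2,(nat_lit 257))],[(k9,(nat_lit 212)),(k11,
    (nat_lit 218)),(k1,(nat_lit 242)),(k3,(nat_lit 251)),(k7,(nat_lit 251)),(k5,(nat_lit 263))]]
    [] k0
    [[k2,k0,k0,k0,k0,k1],[k1,k1,k0,k0,k0,k1],[k1,k0,k1,k0,k1,k0],[k1,k0,k0,k0,k2,k0],[k1,k0,k0,k0,k1,k1],[k1,k0,k0,k0,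
    k0,k2],[k0,k1,k1,k0,k1,k0],[k0,k1,k0,k0,k2,k0],[k0,k0,k2,k0,k1,k0],[k0,k0,k1,k1,k1,k0],[k0,k0,k1,k1,k0,k1],[k0,k0,
    k1,k0,k2,k0],[k0,k0,k1,k0,k1,k1],[k0,k0,k0,k1,k2,k0],[k0,k0,k0,k1,k1,k1],[k0,k0,k0,k0,k3,k0],[k0,k0,k0,k0,k2,k1],
    [k0,k0,k0,k0,k1,k2],[k0,k0,k0,k0,k0,k3]]
    [.ref k12 k0 [(z3,[z4,z1]),(z3,[z10,y20,z9]),(z3,[y5,z10,z0,z9]),(z3,[y2,z4,z0,z0,z9]),(z3,[y8,z7,y9,y9,y9,z9])],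
    .ref k12 k0 [(z5,[z4,z11,y4]),(z1,[z2,y2,z1]),(z1,[y1,z1,z1,z3]),(z5,[y2,z2,z2,z0,z15]),(z5,[y8,y7,y7,y15,y15,
    z15])],.ref k12 k0 [(z3,[y4,z9,y4,z0,y4,z4]),(z3,[y10,z0,y1,z0,y10,z10]),(z3,[z5,z0,z5,z9,z5,y5]),(z3,[z2,z0,z2,
    z0,z11,y2]),(z3,[z8,y9,y1,y9,y1,z1])],.ref k12 k0 [(z1,[y1,z2,y2,y2,y2,z2]),(z2,[y5,y5,y4,y10,y10,z10]),(z4,[z5,
    z5,z10,z22,z10,y10]),(z2,[z1,z1,z2,z2,z8,y2]),(z1,[z2,y1,z1,z1,z1,y1])],.ref k12 k0 [(z1,[y4,z3,y4,y4,y4,z4]),(z1,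
    [y10,z0,y7,y10,y10,z10]),(z1,[z5,z0,z5,z8,z5,y5]),(z1,[z2,z0,z2,z2,z5,y2]),(z1,[z8,y3,z5,z5,z5,y5])],
    .ref k12 k0 [(z1,[z2,z1]),(z1,[z5,y5,z3]),(z2,[y5,z5,z0,z6]),(z1,[y1,z1,z0,z0,z3]),(z1,[y4,z1,y3,y3,y3,z3])],
    .ref k12 k0 [(z1,[y4,y1,z0,z0,y4,z4]),(z1,[y10,y10,z3,z0,y10,z10]),(z1,[z5,z5,z0,z3,z5,y5]),(z1,[z2,z2,z0,z0,z5,
    y2]),(z1,[z8,z5,y3,y3,z5,y5])],.ref k12 k0 [(z1,[y2,y1,y2,y4,y4,z4]),(z1,[y5,y10,y2,y10,y10,z10]),(z2,[z5,z10,z5,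
    z16,z10,y10]),(z1,[z1,z2,z1,z2,z5,y2]),(z1,[z4,z5,z1,z5,z5,y5])],.ref k12 k0 [(z3,[y2,z7,y2,z2,y2,z2]),(z3,[y5,y5,
    z4,z5,y5,z5]),(z6,[z5,z5,z5,z13,z5,y5]),(z3,[z1,z1,z1,y1,z10,y1]),(z3,[z4,y5,y5,y13,y5,z5])],.ref k12 k0 [(z5,[y4,
    z11,y4,z0,z0,z4]),(z1,[y2,y2,z1,z0,z0,z2]),(z1,[z1,z1,z1,z3,z0,y1]),(z5,[z2,z2,z2,z0,z15,y2]),(z5,[z8,y7,y7,y15,
    y15,z7])],.ref k12 k0 [(z1,[y2,z3,z0,z2,z2]),(z1,[y5,z0,z3,z5,z5]),(z2,[z5,z0,z0,z1,y5]),(z1,[z1,z0,z0,y1,z2]),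
    (z1,[z4,y3,y3,y7,y7,z3])],.ref k12 k0 [(z7,[y4,z13,y8,y4,y8,z8]),(z7,[y10,y20,z1,y10,y20,z20]),(z7,[z5,z10,z10,
    z26,z10,y10]),(z7,[z2,z4,z4,z2,z25,y4]),(z7,[z8,y5,y5,y13,y5,z5])],.ref k12 k0 [(z1,[y1,z2,y1,z0,y1,z1]),(z2,[y5,
    y5,z1,z0,y5,z5]),(z4,[z5,z5,z5,z12,z5,y5]),(z2,[z1,z1,z1,z0,z7,y1]),(z1,[z2,y1,y1,y3,y1,z1])],.ref k12 k0 [(z3,
    [y2,z5,y4,y4,y2,z4]),(z3,[y5,y10,y1,y10,y5,z10]),(z6,[z5,z10,z10,z28,z5,y10]),(z3,[z1,z2,z2,z2,z10,y2]),(z3,[z4,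
    y1,y1,y1,y5,z1])],.ref k12 k0 [(z3,[y4,z5,y4,y4,z0,z4]),(z3,[y10,y10,y1,y10,z0,z10]),(z3,[z5,z5,z5,z14,z0,y5]),
    (z3,[z2,z2,z2,z2,z9,y2]),(z3,[z8,y1,y1,y1,y9,z1])],.ref k12 k0 [(z2,[y1,z3,y3,y3,y3,z3]),(z4,[y5,y15,y3,y15,y15,
    z15]),(z8,[z5,z15,z15,z39,z15,y15]),(z4,[z1,z3,z3,z3,z15,y3]),(z1,[z1])],.ref k12 k0 [(z5,[y4,z7,y8,y8,y8,z8]),
    (z1,[y2,y4,y1,y4,y4,z4]),(z1,[z1,z2,z2,z5,z2,y2]),(z5,[z2,z4,z4,z4,z19,y4]),(z5,[z8,z1,z1,z1,z1,y1])],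
    .ref k12 k0 [(z1,[y2,z1,y2,y2,y2,z2]),(z1,[y5,y5,y2,y5,y5,z5]),(z2,[z5,z5,z5,z11,z5,y5]),(z1,[z1,z1,z1,z1,z4,y1]),
    (z1,[z4,z1,z1,z1,z1,y1])],.ref k12 k0 [(z1,[z4,z3]),(z1,[z10,z0,z3]),(z1,[y5,z0,z0,z3]),(z1,[y2,z0,z0,z0,z3]),(z1,
    [y8,y3,y3,y3,y3,z3])]]]

noncomputable def cT6_3_n5_1 : List TN :=
  [.tor k12 false k0 [(z1,[z1]),(z1,[z0,z1]),(z1,[z0,z0,z1]),(z1,[z0,z0,z0,z1]),(z1,[y1,y1,y3,y1,z3])],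
    .leafM k0 [k1,k2,k3,k4,k5,k0] [(z3,[z0,z0,z1,z1])] [],
    .lp [k84,k84,k84,k76,k68,k82] [k0,k0,k0,k0,k0,k0,k4,k4,k14,k2,k1,k1] k0 [[k0,k0,k0,k0,k0,k0,k0,k0,k4,k0,k2],[k0,k0,k0,
    k4],[k4],[k0,k0,k0,k0,k0,k0,k0,k4],[k0,k0,k0,k0,k0,k0,k22],[k0,k0,k0,k0,k0,k0,k0,k0,k0,k2],[k0,k0,k4,k0,k0,k0,k0,
    k0,k0,k0,k8],[k0,k0,k0,k0,k0,k22],[k0,k0,k0,k0,k2],[k0,k4],[],[k0,k2,k0,k0,k0,k0,k0,k8]] (nat_lit 240) k5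
    [[(k8,k70),(k6,k72),(k0,k82),(k10,k83),(k2,k84),(k4,k84)],[(k11,k79),(k7,k80),(k1,k82),(k9,k82),(k3,k84),(k5,
    k88)],[(k8,k74),(k2,k80),(k6,k80),(k0,k84),(k4,k84),(k10,k85)],[(k3,k80),(k7,k80),(k11,k83),(k1,k84),(k5,k84),(k9,
    k86)],[(k8,k70),(k6,k76),(k10,k83),(k2,k84),(k4,k84),(k0,k88)],[(k9,k60),(k7,k80),(k1,k84),(k3,k84),(k5,k84),(k11,
    k85)],[(k8,k64),(k10,k79),(k0,k80),(k2,k80),(k4,k80),(k6,k98)],[(k1,k72),(k5,k76),(k9,k78),(k11,k79),(k3,k80),(k7,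
    k98)],[(k4,k60),(k8,k68),(k6,k78),(k0,k82),(k2,k86),(k10,k89)],[(k7,k64),(k9,k68),(k11,k69),(k1,k70),(k5,k70),(k3,
    k74)],[(k8,k69),(k0,k79),(k6,k79),(k10,k82),(k2,k83),(k4,k85)],[(k7,k79),(k11,k82),(k1,k83),(k5,k83),(k3,k85),(k9,
    k89)]]
    [] k0
    [[k2,k0,k0,k1,k0,k0],[k2,k0,k0,k0,k1,k0],[k1,k0,k1,k0,k1,k0],[k1,k1,k0,k1,k0,k0],[k1,k0,k0,k1,k1,k0],[k1,k0,k0,k1,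
    k0,k1],[k1,k0,k0,k0,k2,k0],[k1,k0,k0,k0,k1,k1],[k0,k1,k0,k1,k1,k0],[k0,k1,k1,k0,k1,k0],[k0,k1,k0,k0,k2,k0],[k0,k0,
    k2,k0,k1,k0],[k0,k0,k1,k1,k1,k0],[k0,k0,k1,k0,k2,k0],[k0,k0,k1,k0,k1,k1],[k0,k0,k0,k1,k2,k0],[k0,k0,k0,k1,k1,k1],
    [k0,k0,k0,k0,k3,k0],[k0,k0,k0,k0,k2,k1]]
    [.ref (nat_lit 230) k7 [(z1,[z1,y2,z0,y4]),(z1,[z2,y5,y1,y11,z1]),(z1,[y1,z2,z0,z5]),(z1,[z0,z1,z0,z2])],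
    .ref k179 k8 [(z1,[y1,z0,y2,y2,z2]),(z2,[z1,y1,z1,z1,y1]),(z1,[z1,z0,z1,z1,y1]),(z1,[z0,z0,z1])],
    .ref k108 k0 [(z1,[z2,z1,z2,z0,y2]),(z1,[y2,z0,y1,z0,z2]),(z1,[y1,z0,y1,z1,z1]),(z1,[z1,z0,z1,z0,y1])],
    .ref k10 k10 [(z1,[z2,y2,y1,y4]),(z1,[z0,z1,z0,z2]),(z1,[z1,y1,y1,y1]),(z1,[y2,z1,z1,z1,z1])],
    .ref (nat_lit 231) k8 [(z1,[z2,y3,y1,y7,z1]),(z1,[y1,z0,y1,z2,z1]),(z1,[z0,z1,z0,z2]),(z1,[y2,z0,z1,y2,z2])],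
    .ref k195 k3 [(z1,[y2,z2,z3]),(z1,[y1,z1,z0,z3]),(z1,[z1,y1]),(z1,[z0,y1,y1,y1,z1])],.ref k108 k0 [(z1,[z1,z2,z2,
    z2,y2]),(z1,[y1,y1,y1,y2,z2]),(z2,[y1,y1,y2,z0,z2]),(z2,[z1,z1,z2,z2,y2])],.ref k179 k8 [(z1,[y2,y1,y3,y3,z3]),
    (z1,[z1,z0,z1,z1,y1]),(z1,[z2,z1,z2,z2,y2]),(z1,[z0,z0,z1])],.ref k10 k10 [(z1,[y2,y2,z1,y6,z2]),(z1,[z0,z1,z0,
    z2]),(z1,[y1,y1,z0,y2,z1]),(z1,[z2,z1,y1,z3,y1])],.ref k195 k3 [(z1,[z2,z2,z3,z0,y2]),(z1,[z1,z1,z0,z3,y1]),(z1,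
    [y1,y1,z0,z0,z1]),(z1,[z0,y1,y1,y1,z1])],.ref k10 k10 [(z1,[y1,y2,z0,y6,z2]),(z1,[z0,z1,z0,z2]),(z2,[y1,y2,y1,y4,
    z2]),(z1,[z1,z1,z0,z3,y1])],.ref k10 k10 [(z1,[y1,y1,z0,y3,z1]),(z1,[z0,z1,z0,z2]),(z2,[y1,y1,y1,y1,z1]),(z1,
    [z1])],.ref (nat_lit 232) k0 [(z1,[y2,z1,y2,z0,z2]),(z1,[z0,z0,z1]),(z1,[z1,z1,z1,z3,y1]),(z1,[z2,y1,y1,y3,z1])],
    .ref k106 k10 [(z1,[y1,y2,z0,y6,z2]),(z1,[z0,z1,z0,z2]),(z1,[y1,y2,y2,y2,z2]),(z1,[z1])],.ref k10 k10 [(z1,[y2,y2,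
    y1,y4,z2]),(z1,[z0,z1,z0,z2]),(z1,[y1,y1,y1,y1,z1]),(z1,[z2,z1,z1,z1,y1])],.ref k64 k0 [(z1,[z2,z5,z4,z4,y4]),(z1,
    [y2,y4,y3,y4,z4]),(z1,[y1,y2,y2,y1,z2]),(z1,[z1,z2,z2,z2,y2])],.ref k108 k0 [(z1,[z2,z3,z2,z2,y2]),(z1,[y2,y2,y1,
    y2,z2]),(z1,[y1,y1,y1,z0,z1]),(z1,[z1,z1,z1,z1,y1])],.ref (nat_lit 232) k0 [(z1,[y1,z0,y3,y3,z3]),(z1,[z0,z0,z1]),
    (z2,[z1,z3,z3,z9,y3]),(z1,[z1])],.ref (nat_lit 232) k0 [(z1,[y2,y1,y4,y4,z4]),(z1,[z0,z0,z1]),(z1,[z1,z2,z2,z5,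
    y2]),(z1,[z2,z1,z1,z1,y1])]],
    .lp [k168,k164,k142,k160,k160,k164] [k0,k0,k2,k2,k13,k13,k4,k4,k4,k4,k2,k2] k0 [[k0,k0,k6,k0,k0,k0,k0,k0,k16],[k0,k0,
    k0,k0,k0,k10,k0,k0,k0,k0,k0,k8],[k0,k0,k0,k0,k36,k0,k0,k0,k0,k0,k22],[k0,k6],[k10],[k0,k0,k0,k36,k0,k0,k0,k0,k0,
    k18],[k0,k0,k0,k0,k0,k0,k0,k0,k20],[k0,k0,k0,k0,k0,k0,k0,k0,k0,k0,k0,k24],[k0,k0,k0,k0,k18,k0,k0,k0,k0,k0,k12],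
    [k0,k16,k0,k0,k0,k0,k0,k20],[k8,k0,k0,k0,k0,k0,k24],[k0,k0,k0,k22,k0,k0,k0,k0,k0,k12]] (nat_lit 480) k5
    [[(k2,k144),(k8,k152),(k4,k155),(k10,k166),(k0,k176),(k6,k188)],[(k5,k149),(k11,k150),(k9,k164),(k3,k166),(k7,
    k174),(k1,k176)],[(k4,k143),(k10,k156),(k6,k162),(k0,k166),(k2,k170),(k8,k178)],[(k7,k126),(k1,k144),(k5,k153),
    (k9,k162),(k11,k164),(k3,k170)],[(k0,k149),(k6,k151),(k8,k151),(k2,k153),(k10,k175),(k4,k178)],[(k3,k143),(k7,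
    k151),(k9,k151),(k1,k155),(k11,k171),(k5,k178)],[(k2,k126),(k8,k142),(k4,k151),(k6,k160),(k10,k162),(k0,k174)],
    [(k11,k142),(k5,k151),(k7,k160),(k9,k160),(k3,k162),(k1,k188)],[(k10,k138),(k4,k151),(k6,k160),(k2,k162),(k0,
    k164),(k8,k180)],[(k7,k142),(k5,k151),(k1,k152),(k11,k162),(k3,k178),(k9,k180)],[(k6,k142),(k0,k150),(k8,k162),
    (k2,k164),(k4,k171),(k10,k176)],[(k9,k138),(k3,k156),(k7,k162),(k1,k166),(k5,k175),(k11,k176)]]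
    [] k0
    [[k1,k1,k1,k0,k0,k0],[k1,k1,k0,k0,k0,k1],[k1,k0,k1,k0,k1,k0],[k1,k0,k0,k0,k1,k1],[k0,k2,k1,k0,k0,k0],[k0,k2,k0,k1,
    k0,k0],[k0,k1,k2,k0,k0,k0],[k0,k1,k1,k1,k0,k0],[k0,k1,k1,k0,k1,k0],[k0,k1,k0,k2,k0,k0],[k0,k1,k0,k1,k1,k0],[k0,k1,
    k0,k1,k0,k1],[k0,k0,k1,k2,k0,k0],[k0,k0,k1,k1,k1,k0],[k0,k0,k1,k0,k1,k1],[k0,k0,k1,k1,k0,k1],[k0,k0,k0,k2,k1,k0],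
    [k0,k0,k0,k2,k0,k1],[k0,k0,k0,k1,k1,k1],[k0,k0,k0,k0,k1,k2]]
    [.ref (nat_lit 210) k6 [(z1,[z2,y1,y1]),(z1,[z1,z0,z1,y1]),(z1,[y2,z0,y1,z2])],.ref (nat_lit 211) k0 [(z1,[y1,z1,
    z1]),(z1,[z2,y1,y1]),(z1,[z0,y1,y2,z2])],.ref (nat_lit 210) k6 [(z1,[y2,y1,y3,z4]),(z1,[y1,z0,z0,z1]),(z1,[z2,z0,
    z1,y2])],.ref (nat_lit 212) k1 [(z1,[z1,z1,z2,y2]),(z1,[z0,y1,y2,z2]),(z1,[y1,y1,y1,z1])],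
    .ref (nat_lit 216) k10 [(z1,[z1]),(z1,[y1,z2,z2]),(z1,[y1,z2,z6,y4])],.ref k115 k6 [(z1,[z2,y1,y3,z2]),(z1,[z1]),
    (z1,[y2,z0,z1])],.ref (nat_lit 210) k6 [(z1,[z1]),(z2,[z1,z1,z3,y2]),(z1,[y1,y1,y2,z2])],
    .ref (nat_lit 212) k1 [(z1,[y1,z1,z2,y1]),(z1,[z0,y1,y2,z2]),(z1,[z1,y1,y1])],.ref (nat_lit 219) k9 [(z1,[z2,y1,
    z0,y2]),(z1,[y1,z0,z0,z1]),(z1,[y1,z0,y1,z2])],.ref (nat_lit 221) k6 [(z2,[z1,y1,y3,z2]),(z1,[z1]),(z1,[y1,z0,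
    z1])],.ref (nat_lit 207) k9 [(z1,[z2,y1,y2]),(z1,[y1,z0,z1]),(z1,[y1,z0,z0,z1])],.ref (nat_lit 210) k6 [(z1,[z2,
    y1,y3,z2]),(z1,[z1]),(z1,[y2,z0,z1])],.ref (nat_lit 224) k1 [(z1,[y1,z0,z2,y2]),(z1,[z0,y1,y2,z2]),(z1,[z1])],
    .ref (nat_lit 211) k0 [(z1,[z1,z1,z1,y1]),(z1,[y2,y1,y1,z2]),(z1,[z0,y1,y2,z2])],.ref (nat_lit 221) k6 [(z1,[y1,
    y1,y2,z2]),(z1,[y2,y1,y1,z2]),(z1,[z2,z1,z2,y2])],.ref (nat_lit 229) k9 [(z1,[y1,y1,y1,z1]),(z1,[z1,z0,z1,y1]),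
    (z1,[z1,z0,y1,z1])],.ref (nat_lit 211) k0 [(z2,[z1,z1]),(z1,[y1,z0,z1]),(z1,[z0,y1,y2,z2])],
    .ref (nat_lit 233) k1 [(z1,[y1,z0,z2,y2]),(z1,[z0,y1,y2,z2]),(z1,[z1,z0,y1,z1])],.ref (nat_lit 210) k6 [(z1,[y2,
    y1,y1,z2]),(z1,[y1,z0,z1]),(z1,[z2,z0,y1])],.ref (nat_lit 221) k6 [(z2,[y1,y1,y2,z2]),(z1,[y1,z0,z1]),(z1,[z1])]],
    .leafM k0 [k1,k2,k3,k4,k5,k0] [(z1,[y1,y1,z1])] [],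
    .leafM k1 [k0,k1,k2,k3,k4,k5] [(z1,[z0,z1,z0,z1]),(z1,[z0,y1,z0,y1,z1])] [],
    .leafM k0 [k0,k1,k2,k3,k4,k5] [(z6,[z0,z3,z2,z1])] [],
    .lp [k140,k170,k166,k166,k138,k178] [k19,k19,k4,k4,k6,k6,k6,k6,k20,k20,k0,k0] k0 [[k0,k0,k0,k0,k0,k0,k10,k0,k4],[k0,
    k0,k0,k0,k0,k0,k0,k0,k0,k0,k0,k34],[k0,k0,k0,k0,k0,k0,k0,k0,k10],[k0,k0,k0,k0,k0,k6,k0,k28],[k0,k0,k6],[k0,k0,k0,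
    k0,k0,k0,k0,k38],[k0,k0,k28,k0,k38],[k0,k10,k0,k0,k0,k0,k0,k0,k0,k8],[k0,k0,k0,k0,k0,k0,k8],[k0,k4,k0,k10],
    [k34]] (nat_lit 480) k5
    [[(k8,k139),(k4,k153),(k6,k153),(k2,k155),(k10,k159),(k0,k174)],[(k9,k129),(k5,k153),(k7,k153),(k3,k155),(k11,
    k155),(k1,k174)],[(k10,k140),(k0,k155),(k8,k158),(k4,k168),(k2,k170),(k6,k178)],[(k1,k155),(k11,k164),(k5,k168),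
    (k3,k170),(k7,k174),(k9,k182)],[(k6,k138),(k0,k153),(k4,k160),(k8,k162),(k2,k168),(k10,k172)],[(k1,k153),(k5,
    k160),(k7,k166),(k3,k168),(k11,k172),(k9,k190)],[(k6,k128),(k8,k152),(k0,k153),(k4,k166),(k10,k172),(k2,k174)],
    [(k7,k128),(k5,k138),(k9,k152),(k1,k153),(k3,k178),(k11,k180)],[(k0,k129),(k8,k130),(k6,k152),(k10,k158),(k2,
    k182),(k4,k190)],[(k9,k130),(k1,k139),(k7,k152),(k3,k158),(k11,k158),(k5,k162)],[(k0,k155),(k8,k158),(k2,k164),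
    (k4,k172),(k10,k178),(k6,k180)],[(k3,k140),(k9,k158),(k1,k159),(k5,k172),(k7,k172),(k11,k178)]]
    [] k0
    [[k2,k0,k0,k0,k1,k0],[k1,k1,k1,k0,k0,k0],[k1,k1,k0,k0,k1,k0],[k1,k1,k0,k0,k0,k1],[k1,k0,k2,k0,k0,k0],[k1,k0,k1,k1,
    k0,k0],[k1,k0,k1,k0,k1,k0],[k1,k0,k0,k2,k0,k0],[k1,k0,k0,k1,k1,k0],[k1,k0,k0,k0,k2,k0],[k1,k0,k0,k0,k1,k1],[k0,k2,
    k0,k0,k0,k1],[k0,k1,k0,k0,k2,k0],[k0,k0,k2,k1,k0,k0],[k0,k0,k1,k2,k0,k0],[k0,k0,k0,k3,k0,k0],[k0,k0,k0,k2,k1,k0],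
    [k0,k0,k0,k1,k2,k0],[k0,k0,k0,k0,k3,k0],[k0,k0,k0,k0,k2,k1]]
    [.ref k128 k4 [(z1,[y1,z2]),(z1,[z1]),(z1,[y1,z2,z2]),(z1,[z0,z0,z0,z1])],.ref k23 k6 [(z1,[z1,y1,y1]),(z1,[z1,y3,
    y1,y3,z2]),(z1,[y1,z1,z1,z1]),(z1,[y1,z1,z0,z1])],.ref k10 k4 [(z1,[y2,z2,z1]),(z1,[z2,y1,y1]),(z1,[y1,z1,z1]),
    (z1,[z0,z0,z0,z1])],.ref k23 k6 [(z1,[y1,z1,z0,z1]),(z1,[y1,y1,z0,y2,z2]),(z1,[z1,y1]),(z1,[z1,y1,y1])],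
    .ref k23 k6 [(z2,[z1,y1,y1]),(z2,[z1,y5,y1,y6,z4]),(z2,[y1,z1,z1,z2]),(z2,[y1,z1,y1,z2])],
    .ref (nat_lit 231) k0 [(z1,[z2,z3,z1,z0,y2]),(z1,[y1,z0,z1,z0,z1]),(z1,[z0,z0,z0,z1]),(z1,[z1,y3,y1,y3,z2])],
    .ref (nat_lit 236) k6 [(z1,[z2,y2,y2,y1]),(z1,[z1,y2,y1,y2,z1]),(z1,[y1,z1,z1,z1]),(z1,[y2,z2,z1,z2])],
    .ref (nat_lit 236) k6 [(z1,[z1,z1,y1,z3,y2]),(z2,[z1,y1,y1]),(z2,[y1,y1,z1,y2,z2]),(z1,[y1,y1,z0,y2,z2])],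
    .ref k193 k4 [(z1,[y2,z0,y1,y2,z2]),(z1,[z2,z3,z1,z2,y2]),(z1,[y1,z0,z1,y1,z1]),(z1,[z0,z0,z0,z1])],
    .ref k10 k4 [(z1,[y1,z1]),(z1,[z1]),(z2,[y1,z1,z1]),(z1,[z0,z0,z0,z1])],.ref (nat_lit 237) k9 [(z1,[z1,y1]),(z1,
    [z0,y2,y1,y2,z2]),(z1,[y2,z2,z0,z3]),(z1,[y2,z2,z3])],.ref (nat_lit 236) k6 [(z1,[y1,z0,y1,z1]),(z2,[y1,y2,y1,y2,
    z2]),(z2,[z1,z0,z1]),(z1,[z1])],.ref k23 k6 [(z1,[y1,z0,z0,z1]),(z1,[y1,y2,z0,y2,z2]),(z1,[z1]),(z1,[z1,z0,y1])],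
    .ref k99 k2 [(z1,[z1,z0,z0,y2]),(z1,[z0,z0,z0,z1]),(z1,[y1,y1,z0,z1,z1]),(z1,[z2,z3,z1,y2,y2])],.ref k23 k6 [(z2,
    [z1,z2,z0,z3,y2]),(z2,[z1,y2,z0,y3,z2]),(z2,[y1,y2,z0,y1,z2]),(z2,[y1,y2,y2,y1,z2])],.ref (nat_lit 231) k0 [(z1,
    [z2,z9,z3,z6,y6]),(z1,[y1,y3,z0,y3,z3]),(z1,[z0,z0,z0,z1]),(z1,[z1])],.ref (nat_lit 236) k6 [(z1,[z2,z4,z0,z5,
    y4]),(z1,[z1,z1,z0,z1,y1]),(z1,[y1,y2,z0,y2,z2]),(z1,[y2,y4,y1,y4,z4])],.ref k10 k4 [(z1,[y2,y2,y1,y2,z2]),(z1,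
    [z2,z3,z1,z2,y2]),(z1,[y1,y1,z0,y1,z1]),(z1,[z0,z0,z0,z1])],.ref (nat_lit 237) k9 [(z1,[z1]),(z1,[z0,y2,y1,y2,
    z2]),(z1,[y2,z0,z0,z3]),(z1,[y2,z0,z3])],.ref k23 k6 [(z2,[y1,z0,y1,z2]),(z2,[y1,y4,y1,y4,z4]),(z2,[z1,z0,z1]),
    (z2,[z1,z0,y1])]],
    .lp [k160,k166,k168,k150,k162,k152] [k4,k4,k1,k1,k0,k0,k9,k9,k3,k3,k8,k8] k0 [[k0,k0,k0,k0,k0,k0,k10],[k0,k0,k0,k4,k0,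
    k10],[k4,k0,k0,k0,k0,k0,k0,k0,k0,k0,k4],[k0,k0,k0,k0,k0,k6],[k10,k0,k6],[k0,k0,k0,k0,k0,k0,k0,k2],[k0,k0,k0,k0,k2,
    k0,k0,k0,k22],[k0,k10],[k0,k0,k0,k0,k0,k0,k0,k0,k0,k0,k16],[k0,k0,k0,k0,k0,k0,k0,k22],[],[k0,k0,k0,k4,k0,k0,k0,k0,
    k0,k16]] (nat_lit 480) k5
    [[(k8,k145),(k6,k155),(k10,k156),(k2,k159),(k0,k160),(k4,k164)],[(k9,k151),(k11,k156),(k1,k160),(k3,k163),(k7,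
    k165),(k5,k168)],[(k4,k157),(k10,k159),(k2,k162),(k0,k163),(k8,k164),(k6,k168)],[(k1,k159),(k11,k159),(k3,k162),
    (k7,k164),(k9,k164),(k5,k167)],[(k6,k159),(k4,k162),(k10,k164),(k8,k165),(k2,k167),(k0,k168)],[(k3,k157),(k7,
    k159),(k11,k160),(k5,k162),(k1,k164),(k9,k167)],[(k6,k148),(k10,k151),(k8,k156),(k4,k159),(k2,k164),(k0,k165)],
    [(k11,k129),(k7,k148),(k1,k155),(k9,k156),(k5,k159),(k3,k168)],[(k0,k151),(k6,k156),(k10,k157),(k2,k164),(k4,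
    k167),(k8,k184)],[(k1,k145),(k7,k156),(k11,k157),(k3,k164),(k5,k165),(k9,k184)],[(k6,k129),(k0,k156),(k8,k157),
    (k2,k159),(k4,k160),(k10,k168)],[(k7,k151),(k1,k156),(k9,k157),(k3,k159),(k5,k164),(k11,k168)]]
    [] k0
    [[k2,k0,k0,k0,k1,k0],[k2,k0,k0,k0,k0,k1],[k1,k1,k0,k0,k1,k0],[k1,k1,k0,k0,k0,k1],[k1,k0,k0,k2,k0,k0],[k1,k0,k0,k1,
    k1,k0],[k1,k0,k0,k1,k0,k1],[k1,k0,k0,k0,k1,k1],[k0,k1,k0,k1,k0,k1],[k0,k0,k1,k2,k0,k0],[k0,k0,k1,k1,k0,k1],[k0,k0,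
    k0,k3,k0,k0],[k0,k0,k0,k2,k1,k0],[k0,k0,k0,k2,k0,k1],[k0,k0,k0,k1,k1,k1],[k0,k0,k0,k1,k0,k2]]
    [.ref k12 k0 [(z1,[z2,z1,z2,z2,z2,y2]),(z1,[z5,y5,z8,z5,z5,y5]),(z2,[y5,z5,y5,z1,y5,z5]),(z1,[y4,z4,y4,y4,y1,z4]),
    (z1,[y1,y2,y4,y4,y4,z4])],.ref k12 k0 [(z3,[z4,z1]),(z3,[z10,y20,z9]),(z3,[y5,z10,z0,z9]),(z3,[y8,z16,z0,z0,z9]),
    (z3,[y2,y5,y9,y9,y9,z9])],.ref k12 k0 [(z1,[z1,z3,z0,z1,z1,y1]),(z2,[z5,z0,z6,z5,z5,y5]),(z4,[y5,z0,z0,z7,y5,z5]),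
    (z1,[y2,z0,z0,y2,z1,z2]),(z2,[y1,y6,y6,y7,y7,z7])],.ref k12 k0 [(z5,[z4,z11,y4]),(z1,[z2,y2,z1]),(z1,[y1,z1,z1,
    z3]),(z5,[y8,z8,z8,z0,z15]),(z5,[y2,y13,y13,y15,y15,z15])],.ref k12 k0 [(z1,[y1,z4,z0,z0,z2]),(z2,[y5,z5,z6,z0,
    z10]),(z4,[z5,y5,z0,z12,y10]),(z1,[z2,y2,z0,z0,y1]),(z2,[z1,y7,y6,y6,y8,z6])],.ref k12 k0 [(z1,[y2,z3,y2,y2,z0,
    z2]),(z1,[y5,z0,y2,y5,z0,z5]),(z2,[z5,z0,z5,z11,z0,y5]),(z1,[z4,z0,z4,z4,z3,y4]),(z1,[z1,y3,y2,y2,y3,z2])],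
    .ref k12 k0 [(z1,[y4,z7,z0,z0,z4]),(z1,[y10,z10,z3,z0,z10]),(z1,[z5,y5,z0,z3,y5]),(z1,[z8,y8,z0,z0,y5]),(z1,[z2,
    y5,y3,y3,y5,z3])],.ref k12 k0 [(z1,[z4,z3,z4,z4,z4,y4]),(z1,[z10,z0,z13,z10,z10,y10]),(z1,[y5,z0,y5,y2,y5,z5]),
    (z1,[y8,z0,y8,y8,y5,z8]),(z1,[y2,y3,y5,y5,y5,z5])],.ref k12 k0 [(z1,[z4,z3,y4,z0,y4]),(z1,[z10,z0,y7,z0,y10]),(z1,
    [y5,z0,z5,z3,z5]),(z1,[y8,z0,z8,z0,z11]),(z1,[y2,y3,y1,y3,y1,z3])],.ref k12 k0 [(z7,[y4,z21,z0,z4,z8]),(z7,[y10,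
    z0,z21,z10,z20]),(z7,[z5,z0,z0,z16,y10]),(z7,[z8,z0,z0,y8,z5]),(z7,[z2,y21,y21,y23,y25,z21])],.ref k12 k0 [(z1,
    [y1,z3,z0,z1,z1]),(z2,[y5,z0,z6,z5,z5]),(z4,[z5,z0,z0,z7,y5]),(z1,[z2,z0,z0,y2,z1]),(z2,[z1,y6,y6,y7,y7,z6])],
    .ref k12 k0 [(z2,[y1,z6,z0,z0,z3]),(z4,[y5,z0,z12,z0,z15]),(z8,[z5,z0,z0,z24,y15]),(z1,[z1]),(z4,[z1,y12,y12,y12,
    y15,z12])],.ref k12 k0 [(z3,[y2,z7,y2,y2,z2,z2]),(z3,[y5,y5,z4,y5,z5,z5]),(z6,[z5,z5,z5,z23,y5,y5]),(z3,[z4,z4,z4,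
    z4,z5,y4]),(z3,[z1,y8,y8,y8,y10,z8])],.ref k12 k0 [(z5,[y4,z15,z0,z0,z8]),(z1,[y2,z0,z3,z0,z4]),(z1,[z1,z0,z0,z3,
    y2]),(z5,[z8,z0,z0,z0,y1]),(z5,[z2,y15,y15,y15,y19,z15])],.ref k12 k0 [(z3,[y4,z5,y4,y4,z0,z4]),(z3,[y10,y10,y1,
    y10,z0,z10]),(z3,[z5,z5,z5,z14,z0,y5]),(z3,[z8,z8,z8,z8,z9,y8]),(z3,[z2,y7,y7,y7,y9,z7])],.ref k12 k0 [(z1,[y2,z3,
    z0,z0,z2]),(z1,[y5,z0,z3,z0,z5]),(z2,[z5,z0,z0,z6,y5]),(z1,[z4,z0,z0,z0,y1]),(z1,[z1,y3,y3,y3,y4,z3])]],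
    .lp [k160,k166,k162,k170,k138,k162] [k5,k5,k2,k2,k4,k4,k0,k0,k16,k16,k4,k4] k0 [[k0,k0,k0,k0,k4,k0,k0,k0,k16],[],[k0,
    k0,k0,k0,k0,k0,k0,k0,k0,k0,k12],[k0,k0,k0,k0,k0,k0,k0,k14,k0,k2],[k0,k0,k0,k0,k0,k0,k2],[k0,k4],[k0,k0,k14,k0,k0,
    k0,k0,k0,k8],[k0,k0,k0,k0,k0,k2,k0,k0,k0,k0,k0,k4],[k0,k0,k2,k0,k0,k0,k0,k0,k0,k0,k22],[k0,k16,k0,k0,k0,k0,k0,k8],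
    [k0,k0,k0,k0,k0,k0,k4],[k0,k0,k0,k12,k0,k0,k0,k0,k0,k22]] (nat_lit 480) k5
    [[(k8,k127),(k2,k151),(k0,k160),(k4,k161),(k10,k161),(k6,k169)],[(k11,k145),(k9,k149),(k1,k160),(k5,k161),(k7,
    k161),(k3,k163)],[(k0,k163),(k10,k164),(k2,k166),(k4,k168),(k6,k168),(k8,k168)],[(k1,k151),(k5,k164),(k3,k166),
    (k9,k166),(k11,k166),(k7,k168)],[(k8,k148),(k6,k152),(k0,k161),(k4,k162),(k2,k164),(k10,k174)],[(k9,k148),(k1,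
    k161),(k5,k162),(k11,k162),(k7,k166),(k3,k168)],[(k8,k154),(k0,k161),(k4,k166),(k10,k166),(k2,k168),(k6,k172)],
    [(k5,k152),(k9,k154),(k11,k158),(k3,k168),(k1,k169),(k7,k172)],[(k8,k146),(k10,k146),(k4,k148),(k0,k149),(k6,
    k154),(k2,k166)],[(k1,k127),(k9,k146),(k5,k148),(k11,k150),(k7,k154),(k3,k168)],[(k0,k145),(k8,k150),(k6,k158),
    (k4,k162),(k2,k166),(k10,k184)],[(k9,k146),(k1,k161),(k3,k164),(k7,k166),(k5,k174),(k11,k184)]]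
    [] k0
    [[k2,k1,k0,k0,k0,k0],[k2,k0,k0,k0,k1,k0],[k2,k0,k0,k0,k0,k1],[k1,k1,k0,k0,k1,k0],[k1,k1,k0,k0,k0,k1],[k1,k0,k1,k1,
    k0,k0],[k1,k0,k1,k0,k1,k0],[k1,k0,k0,k1,k1,k0],[k1,k0,k0,k0,k2,k0],[k1,k0,k0,k0,k1,k1],[k0,k0,k2,k0,k1,k0],[k0,k0,
    k1,k1,k1,k0],[k0,k0,k1,k0,k2,k0],[k0,k0,k1,k0,k1,k1],[k0,k0,k0,k1,k2,k0],[k0,k0,k0,k1,k1,k1],[k0,k0,k0,k0,k3,k0],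
    [k0,k0,k0,k0,k2,k1]]
    [.ref k12 k0 [(z6,[z7,z4,y7]),(z3,[z2,y4,z7]),(z3,[y1,z2,z1,z9]),(z3,[y4,z8,z4,z0,z9]),(z3,[y1,y7,y8,y9,y9,z9])],
    .ref k12 k0 [(z4,[z7,z5,z7,z7,z7,y7]),(z1,[z1,y1,z4,z1,z1,y1]),(z2,[y1,z1,y1,z5,y1,z1]),(z1,[y2,z2,y2,y2,z1,z2]),
    (z2,[y1,y5,y7,y7,y7,z7])],.ref k12 k0 [(z5,[z7,z1]),(z5,[z4,y8,z15]),(z5,[y2,z4,z0,z15]),(z5,[y8,z16,z0,z0,z15]),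
    (z5,[y2,y11,y15,y15,y15,z15])],.ref k12 k0 [(z3,[z7,z9,z0,z7,z7,y7]),(z3,[z4,z0,z9,z4,z4,y4]),(z3,[y2,z0,z0,z7,y2,
    z2]),(z3,[y8,z0,z0,y8,z1,z8]),(z3,[y2,y9,y9,y11,y11,z11])],.ref k12 k0 [(z4,[z7,z5,y7]),(z1,[z1,y1,z2]),(z2,[y1,
    z1,z1,z6]),(z1,[y2,z2,z2,z0,z3]),(z2,[y1,y5,y5,y6,y6,z6])],.ref k12 k0 [(z1,[y7,z10,z0,z7,z7]),(z1,[y4,z4,z3,z4,
    z4]),(z1,[z2,y2,z0,z1,y2]),(z1,[z8,y8,z0,y8,y5]),(z1,[z2,y5,y3,y5,y5,z3])],.ref k12 k0 [(z1,[z7,z3,z7,z0,z7,y7]),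
    (z1,[z4,z0,z7,z0,z4,y4]),(z1,[y2,z0,y2,z3,y2,z2]),(z1,[y8,z0,y8,z0,y5,z8]),(z1,[y2,y3,y5,y3,y5,z5])],
    .ref k12 k0 [(z1,[y7,z3,y7,y7,z0,z7]),(z1,[y4,z0,y1,y4,z0,z4]),(z1,[z2,z0,z2,z5,z0,y2]),(z1,[z8,z0,z8,z8,z3,y8]),
    (z1,[z2,y3,y1,y1,y3,z1])],.ref k12 k0 [(z1,[z7,z10,z14,z14,z14,y14]),(z1,[z4,z4,z11,z8,z8,y8]),(z1,[y2,y2,y4,y1,
    y4,z4]),(z1,[y8,y8,y16,y16,y13,z16]),(z1,[y2,y5,y7,y7,y7,z7])],.ref k12 k0 [(z2,[z7,z6,z7,z7,z7,y7]),(z1,[z2,z0,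
    z5,z2,z2,y2]),(z1,[y1,z0,y1,z2,y1,z1]),(z1,[y4,z0,y4,y4,y1,z4]),(z1,[y1,y3,y4,y4,y4,z4])],.ref k12 k0 [(z2,[y7,y1,
    y7,z7,y7,z7]),(z1,[y2,y2,z1,z2,y2,z2]),(z1,[z1,z1,z1,z2,z1,y1]),(z1,[z4,z4,z4,y4,z7,y4]),(z1,[z1,y2,y2,y4,y2,
    z2])],.ref k12 k0 [(z4,[y7,z5,y7,z0,z0,z7]),(z1,[y1,y1,z2,z0,z0,z1]),(z2,[z1,z1,z1,z6,z0,y1]),(z1,[z2,z2,z2,z0,z3,
    y2]),(z2,[z1,y5,y5,y6,y6,z5])],.ref k12 k0 [(z2,[y7,y8,y14,y7,y14,z14]),(z1,[y2,y4,y1,y2,y4,z4]),(z1,[z1,z2,z2,z4,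
    z2,y2]),(z1,[z4,z8,z8,z4,z11,y8]),(z1,[z1,y1,y1,y2,y1,z1])],.ref k12 k0 [(z1,[y7,y4,y7,z0,y7,z7]),(z1,[y4,y4,y1,
    z0,y4,z4]),(z1,[z2,z2,z2,z3,z2,y2]),(z1,[z8,z8,z8,z0,z11,y8]),(z1,[z2,y1,y1,y3,y1,z1])],.ref k12 k0 [(z4,[y7,y2,
    y14,y14,y7,z14]),(z1,[y1,y2,z1,y2,y1,z2]),(z2,[z1,z2,z2,z8,z1,y2]),(z1,[z2,z4,z4,z4,z5,y4]),(z2,[z1,y4,y4,y4,y5,
    z4])],.ref k12 k0 [(z3,[y7,z2,y7,y7,z0,z7]),(z3,[y4,y4,z5,y4,z0,z4]),(z3,[z2,z2,z2,z11,z0,y2]),(z3,[z8,z8,z8,z8,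
    z9,y8]),(z3,[z2,y7,y7,y7,y9,z7])],.ref k12 k0 [(z2,[y7,y15,y21,y21,y21,z21]),(z1,[y2,y6,y3,y6,y6,z6]),(z1,[z1,z3,
    z3,z6,z3,y3]),(z1,[z4,z12,z12,z12,z15,y12]),(z1,[z1])],.ref k12 k0 [(z1,[y7,y11,y14,y14,y14,z14]),(z1,[y4,y8,y5,
    y8,y8,z8]),(z1,[z2,z4,z4,z7,z4,y4]),(z1,[z8,z16,z16,z16,z19,y16]),(z1,[z2,z1,z1,z1,z1,y1])]],
    .lp [k160,k166,k168,k150,k162,k152] [k4,k4,k1,k1,k0,k0,k9,k9,k3,k3,k8,k8] k0 [[k0,k0,k0,k0,k0,k0,k10],[k0,k0,k0,k4,k0,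
    k10],[k4,k0,k0,k0,k0,k0,k0,k0,k0,k0,k4],[k0,k0,k0,k0,k0,k6],[k10,k0,k6],[k0,k0,k0,k0,k0,k0,k0,k2],[k0,k0,k0,k0,k2,
    k0,k0,k0,k22],[k0,k10],[k0,k0,k0,k0,k0,k0,k0,k0,k0,k0,k16],[k0,k0,k0,k0,k0,k0,k0,k22],[],[k0,k0,k0,k4,k0,k0,k0,k0,
    k0,k16]] (nat_lit 480) k5
    [[(k8,k145),(k6,k155),(k10,k156),(k2,k159),(k0,k160),(k4,k164)],[(k9,k151),(k11,k156),(k1,k160),(k3,k163),(k7,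
    k165),(k5,k168)],[(k4,k157),(k10,k159),(k2,k162),(k0,k163),(k8,k164),(k6,k168)],[(k1,k159),(k11,k159),(k3,k162),
    (k7,k164),(k9,k164),(k5,k167)],[(k6,k159),(k4,k162),(k10,k164),(k8,k165),(k2,k167),(k0,k168)],[(k3,k157),(k7,
    k159),(k11,k160),(k5,k162),(k1,k164),(k9,k167)],[(k6,k148),(k10,k151),(k8,k156),(k4,k159),(k2,k164),(k0,k165)],
    [(k11,k129),(k7,k148),(k1,k155),(k9,k156),(k5,k159),(k3,k168)],[(k0,k151),(k6,k156),(k10,k157),(k2,k164),(k4,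
    k167),(k8,k184)],[(k1,k145),(k7,k156),(k11,k157),(k3,k164),(k5,k165),(k9,k184)],[(k6,k129),(k0,k156),(k8,k157),
    (k2,k159),(k4,k160),(k10,k168)],[(k7,k151),(k1,k156),(k9,k157),(k3,k159),(k5,k164),(k11,k168)]]
    [] k0
    [[k2,k0,k0,k0,k1,k0],[k2,k0,k0,k0,k0,k1],[k1,k1,k0,k0,k1,k0],[k1,k1,k0,k0,k0,k1],[k1,k0,k0,k2,k0,k0],[k1,k0,k0,k1,
    k1,k0],[k1,k0,k0,k1,k0,k1],[k1,k0,k0,k0,k1,k1],[k0,k1,k0,k1,k0,k1],[k0,k0,k1,k2,k0,k0],[k0,k0,k1,k1,k0,k1],[k0,k0,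
    k0,k3,k0,k0],[k0,k0,k0,k2,k1,k0],[k0,k0,k0,k2,k0,k1],[k0,k0,k0,k1,k1,k1],[k0,k0,k0,k1,k0,k2]]
    [.ref k12 k0 [(z3,[z6,z3,z2,z2,z2,y6]),(z1,[z0,z0,z1]),(z1,[z0,z0,z0,z1]),(z2,[y3,z3,y1,y1,z1,z3]),(z3,[y3,y6,y4,
    y4,y4,z12])],.ref k12 k0 [(z3,[z4,z1]),(z1,[z0,z0,z1]),(z1,[z0,z0,z0,z1]),(z1,[y1,z2,z0,z0,z1]),(z3,[y2,y5,y3,y3,
    y3,z9])],.ref k12 k0 [(z1,[z6,z3,z0,z2,z2,y6]),(z1,[z0,z0,z1]),(z1,[z0,z0,z0,z1]),(z2,[y9,z0,z0,y3,y1,z9]),(z1,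
    [y3,y3,y1,y2,y2,z6])],.ref k12 k0 [(z5,[z12,z3,y4]),(z1,[z0,z0,z1]),(z1,[z0,z0,z0,z1]),(z5,[y9,z9,z3,z0,z5]),(z5,
    [y6,y9,y3,y5,y5,z15])],.ref k12 k0 [(z1,[y6,z9,z0,z0,z4]),(z1,[z0,z0,z1]),(z1,[z0,z0,z0,z1]),(z2,[z9,y9,z0,z0,
    y4]),(z1,[z3,y6,y1,y1,y3,z3])],.ref k12 k0 [(z1,[y12,z3,y4,y4,z0,z12]),(z1,[z0,z0,z1]),(z1,[z0,z0,z0,z1]),(z1,[z9,
    z0,z3,z3,z1,y9]),(z1,[z6,y3,z1,z1,y1,y3])],.ref k12 k0 [(z1,[z6,y3,z0,z0,y2]),(z1,[z0,z0,z1]),(z1,[z0,z0,z0,z1]),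
    (z2,[y9,z9,z0,z0,z5]),(z1,[y3,z0,y1,y1,z0,z3])],.ref k12 k0 [(z3,[z12,z9,z4,z4,z4,y12]),(z1,[z0,z0,z1]),(z1,[z0,
    z0,z0,z1]),(z1,[y3,z0,y1,y1,z0,z3]),(z3,[y6,y9,y5,y5,y5,z15])],.ref k12 k0 [(z1,[y6,z3,z2,z0,z2]),(z1,[z0,z0,z1]),
    (z1,[z0,z0,z0,z1]),(z2,[z9,z0,y3,z0,y1]),(z1,[z3,y3,y2,y1,y2,z3])],.ref k12 k0 [(z3,[y6,z9,z0,z2,z4]),(z1,[z0,z0,
    z1]),(z1,[z0,z0,z0,z1]),(z2,[z3,z0,z0,y1]),(z3,[z3,y9,y3,y4,y5,z9])],.ref k12 k0 [(z1,[y6,z3,z0,z2,z2]),(z1,[z0,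
    z0,z1]),(z1,[z0,z0,z0,z1]),(z2,[z9,z0,z0,y3,y1]),(z1,[z3,y3,y1,y2,y2,z3])],.ref k12 k0 [(z3,[y4,z9,z0,z0,z4]),(z1,
    [z0,z0,z1]),(z1,[z0,z0,z0,z1]),(z1,[z1]),(z3,[z2,y9,y3,y3,y5,z9])],.ref k12 k0 [(z2,[y3,z3,y1,y1,z1,z3]),(z1,[z0,
    z0,z1]),(z1,[z0,z0,z0,z1]),(z8,[z9,z9,z3,z3,z5,y9]),(z4,[z3,y9,y3,y3,y5,z9])],.ref k12 k0 [(z5,[y12,z15,z0,z0,
    z8]),(z1,[z0,z0,z1]),(z1,[z0,z0,z0,z1]),(z5,[z9,z0,z0,z0,y1]),(z5,[z6,y15,y5,y5,y9,z15])],.ref k12 k0 [(z1,[y3,z0,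
    y1,y1,z0,z3]),(z1,[z0,z0,z1]),(z1,[z0,z0,z0,z1]),(z4,[z9,z9,z3,z3,z4,y9]),(z2,[z3,y3,y1,y1,y2,z3])],
    .ref k12 k0 [(z1,[y12,z3,z0,z0,z4]),(z1,[z0,z0,z1]),(z1,[z0,z0,z0,z1]),(z1,[z9,z0,z0,z0,y2]),(z1,[z6,y3,y1,y1,y3,
    z3])]],
    .lp [k160,k166,k168,k150,k162,k152] [k4,k4,k1,k1,k0,k0,k9,k9,k3,k3,k8,k8] k0 [[k0,k0,k0,k0,k0,k0,k10],[k0,k0,k0,k4,k0,
    k10],[k4,k0,k0,k0,k0,k0,k0,k0,k0,k0,k4],[k0,k0,k0,k0,k0,k6],[k10,k0,k6],[k0,k0,k0,k0,k0,k0,k0,k2],[k0,k0,k0,k0,k2,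
    k0,k0,k0,k22],[k0,k10],[k0,k0,k0,k0,k0,k0,k0,k0,k0,k0,k16],[k0,k0,k0,k0,k0,k0,k0,k22],[],[k0,k0,k0,k4,k0,k0,k0,k0,
    k0,k16]] (nat_lit 480) k5
    [[(k8,k145),(k6,k155),(k10,k156),(k2,k159),(k0,k160),(k4,k164)],[(k9,k151),(k11,k156),(k1,k160),(k3,k163),(k7,
    k165),(k5,k168)],[(k4,k157),(k10,k159),(k2,k162),(k0,k163),(k8,k164),(k6,k168)],[(k1,k159),(k11,k159),(k3,k162),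
    (k7,k164),(k9,k164),(k5,k167)],[(k6,k159),(k4,k162),(k10,k164),(k8,k165),(k2,k167),(k0,k168)],[(k3,k157),(k7,
    k159),(k11,k160),(k5,k162),(k1,k164),(k9,k167)],[(k6,k148),(k10,k151),(k8,k156),(k4,k159),(k2,k164),(k0,k165)],
    [(k11,k129),(k7,k148),(k1,k155),(k9,k156),(k5,k159),(k3,k168)],[(k0,k151),(k6,k156),(k10,k157),(k2,k164),(k4,
    k167),(k8,k184)],[(k1,k145),(k7,k156),(k11,k157),(k3,k164),(k5,k165),(k9,k184)],[(k6,k129),(k0,k156),(k8,k157),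
    (k2,k159),(k4,k160),(k10,k168)],[(k7,k151),(k1,k156),(k9,k157),(k3,k159),(k5,k164),(k11,k168)]]
    [] k0
    [[k2,k0,k0,k0,k1,k0],[k2,k0,k0,k0,k0,k1],[k1,k1,k0,k0,k1,k0],[k1,k1,k0,k0,k0,k1],[k1,k0,k0,k2,k0,k0],[k1,k0,k0,k1,
    k1,k0],[k1,k0,k0,k1,k0,k1],[k1,k0,k0,k0,k1,k1],[k0,k1,k0,k1,k0,k1],[k0,k0,k1,k2,k0,k0],[k0,k0,k1,k1,k0,k1],[k0,k0,
    k0,k3,k0,k0],[k0,k0,k0,k2,k1,k0],[k0,k0,k0,k2,k0,k1],[k0,k0,k0,k1,k1,k1],[k0,k0,k0,k1,k0,k2]]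
    [.ref k12 k0 [(z3,[z6,z3,z2,z2,z2,y6]),(z3,[z3,y3,z4,z1,z1,y3]),(z6,[y3,z3,y1,z5,y1,z3]),(z3,[y6,z6,y2,y2,z1,z6]),
    (z3,[y3,y6,y4,y4,y4,z12])],.ref k12 k0 [(z3,[z4,z1]),(z3,[z2,y4,z3]),(z3,[y1,z2,z0,z3]),(z3,[y4,z8,z0,z0,z3]),(z3,
    [y2,y5,y3,y3,y3,z9])],.ref k12 k0 [(z1,[z3,z3,z0,z1,z1,y3]),(z2,[z3,z0,z2,z1,z1,y3]),(z4,[y3,z0,z0,z3,y1,z3]),(z1,
    [y3,z0,z0,y1,z0,z3]),(z2,[y3,y6,y2,y3,y3,z9])],.ref k12 k0 [(z7,[z12,z9,y4]),(z7,[z6,y6,z5]),(z7,[y3,z3,z1,z7]),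
    (z7,[y12,z12,z4,z0,z7]),(z7,[y6,y15,y5,y7,y7,z21])],.ref k12 k0 [(z1,[y3,z6,z0,z0,z2]),(z2,[y3,z3,z2,z0,z2]),(z4,
    [z3,y3,z0,z4,y2]),(z1,[z3,y3,z0,z0,y1]),(z2,[z3,y9,y2,y2,y4,z6])],.ref k12 k0 [(z1,[y6,z3,y2,y2,z0,z6]),(z1,[y3,
    z0,z0,y1,z0,z3]),(z2,[z3,z0,z1,z3,z0,y3]),(z1,[z6,z0,z2,z2,z1,y6]),(z1,[z3,y3,z0,z0,y1])],.ref k12 k0 [(z1,[z12,
    y9,z0,z0,y4]),(z1,[z6,y6,z1,z0,y2]),(z1,[y3,z3,z0,z1,z1]),(z1,[y12,z12,z0,z0,z5]),(z1,[y6,z3,y1,y1,z1,z3])],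
    .ref k12 k0 [(z3,[z12,z9,z4,z4,z4,y12]),(z3,[z6,z0,z5,z2,z2,y6]),(z3,[y3,z0,y1,z2,y1,z3]),(z3,[y12,z0,y4,y4,y1,
    z12]),(z3,[y6,y9,y5,y5,y5,z15])],.ref k12 k0 [(z1,[y12,z3,z4,z0,z4]),(z1,[y6,z0,z3,z0,z2]),(z1,[z3,z0,y1,z1,y1]),
    (z1,[z12,z0,y4,z0,y3]),(z1,[z6,y3,y3,y1,y3,z3])],.ref k12 k0 [(z9,[y12,z27,z0,z4,z8]),(z9,[y6,z0,z9,z2,z4]),(z9,
    [z3,z0,z0,z8,y2]),(z9,[z12,z0,z0,y4,z1]),(z9,[z6,y27,y9,y11,y13,z27])],.ref k12 k0 [(z1,[y3,z3,z0,z1,z1]),(z2,[y3,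
    z0,z2,z1,z1]),(z4,[z3,z0,z0,z3,y1]),(z1,[z3,z0,z0,y1]),(z2,[z3,y6,y2,y3,y3,z6])],.ref k12 k0 [(z1,[y1,z3,z0,z0,
    z1]),(z2,[y1,z0,z2,z0,z1]),(z4,[z1,z0,z0,z4,y1]),(z1,[z1]),(z2,[z1,y6,y2,y2,y3,z6])],.ref k12 k0 [(z5,[y6,z9,y2,
    y2,z2,z6]),(z5,[y3,y3,z4,y1,z1,z3]),(z10,[z3,z3,z1,z11,y1,y3]),(z5,[z6,z6,z2,z2,z3,y6]),(z5,[z3,y12,y4,y4,y6,
    z12])],.ref k12 k0 [(z7,[y12,z21,z0,z0,z8]),(z7,[y6,z0,z7,z0,z4]),(z7,[z3,z0,z0,z7,y2]),(z7,[z12,z0,z0,z0,y1]),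
    (z7,[z6,y21,y7,y7,y11,z21])],.ref k12 k0 [(z5,[y12,z3,y4,y4,z0,z12]),(z5,[y6,y6,z3,y2,z0,z6]),(z5,[z3,z3,z1,z6,z0,
    y3]),(z5,[z12,z12,z4,z4,z5,y12]),(z5,[z6,y9,y3,y3,y5,z9])],.ref k12 k0 [(z1,[y6,z3,z0,z0,z2]),(z1,[y3,z0,z1,z0,
    z1]),(z2,[z3,z0,z0,z2,y1]),(z1,[z6,z0,z0,z0,y1]),(z1,[z3,y3,y1,y1,y2,z3])]]]

noncomputable def cT6_3_n5_2 : List TN :=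
  [.lp [k162,k162,k162,k156,k142,k174] [k6,k6,k6,k6,k6,k6,k9,k9,k16,k16,k0,k0] k0 [[k0,k0,k0,k0,k0,k0,k0,k0,k0,k0,k2],
    [k0,k0,k0,k12],[k12],[k0,k0,k0,k0,k0,k0,k0,k0,k0,k0,k0,k14],[k0,k0,k0,k0,k0,k0,k32],[k0,k0,k0,k0,k0,k0,k0,k0,k0,
    k6],[k0,k0,k0,k0,k0,k0,k0,k0,k12,k0,k12],[k0,k0,k0,k0,k0,k32],[k0,k0,k0,k0,k6],[k0,k0,k0,k0,k0,k0,k0,k12,k0,k0,k0,
    k22],[k0,k0,k14,k0,k0,k0,k0,k0,k22],[k0,k2,k0,k0,k0,k0,k0,k12]] (nat_lit 480) k5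
    [[(k6,k147),(k0,k160),(k4,k162),(k10,k168),(k8,k174),(k2,k176)],[(k9,k152),(k7,k159),(k1,k160),(k3,k162),(k11,
    k168),(k5,k174)],[(k2,k150),(k8,k152),(k6,k159),(k0,k162),(k4,k162),(k10,k170)],[(k3,k150),(k9,k152),(k7,k159),
    (k5,k162),(k11,k168),(k1,k176)],[(k8,k152),(k10,k154),(k6,k159),(k2,k162),(k4,k162),(k0,k174)],[(k9,k120),(k7,
    k159),(k1,k162),(k3,k162),(k5,k162),(k11,k174)],[(k8,k143),(k0,k159),(k2,k159),(k4,k159),(k10,k165),(k6,k188)],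
    [(k1,k147),(k9,k149),(k11,k153),(k3,k159),(k5,k159),(k7,k188)],[(k4,k120),(k6,k149),(k0,k152),(k2,k152),(k8,k154),
    (k10,k170)],[(k7,k143),(k3,k152),(k5,k152),(k9,k154),(k11,k158),(k1,k174)],[(k10,k152),(k6,k153),(k8,k158),(k0,
    k168),(k2,k168),(k4,k174)],[(k11,k152),(k5,k154),(k7,k165),(k1,k168),(k3,k170),(k9,k170)]]
    [] k0
    [[k2,k0,k0,k1,k0,k0],[k1,k0,k1,k0,k1,k0],[k1,k1,k0,k1,k0,k0],[k1,k0,k0,k1,k1,k0],[k1,k0,k0,k0,k1,k1],[k0,k3,k0,k0,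
    k0,k0],[k0,k2,k1,k0,k0,k0],[k0,k2,k0,k1,k0,k0],[k0,k2,k0,k0,k1,k0],[k0,k1,k1,k0,k1,k0],[k0,k1,k0,k1,k1,k0],[k0,k1,
    k0,k0,k2,k0],[k0,k0,k2,k0,k1,k0],[k0,k0,k1,k1,k1,k0],[k0,k0,k1,k0,k2,k0],[k0,k0,k1,k1,k0,k1],[k0,k0,k1,k0,k1,k1],
    [k0,k0,k0,k1,k2,k0],[k0,k0,k0,k1,k1,k1],[k0,k0,k0,k1,k0,k2],[k0,k0,k0,k0,k3,k0],[k0,k0,k0,k0,k0,k3]]
    [.ref k12 k0 [(z7,[z16,y11,z0,z0,y4]),(z14,[y4,z8,z21,z0,z1]),(z28,[z4,y8,z0,z21,y1]),(z7,[y11,z22,z0,z0,z8]),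
    (z28,[y32,y20,y42,y21,y13,z84])],.ref k12 k0 [(z3,[z16,z9,z8,z0,z4,y16]),(z6,[y4,z0,z7,z0,y1,z4]),(z12,[z4,z0,z2,
    z9,z1,y4]),(z6,[y22,z0,y11,z0,y1,z22]),(z12,[y32,y36,y34,y9,y17,z68])],.ref k12 k0 [(z1,[z16,y13,y8,z0,y4]),(z2,
    [y4,z4,z5,z0,z1]),(z4,[z4,y4,y2,z3,y1]),(z2,[y22,z22,z11,z0,z7]),(z4,[y32,z20,z10,y3,z5,z12])],.ref k12 k0 [(z1,
    [y16,z3,y8,y4,z0,z16]),(z2,[z4,z0,z5,z1,z0,y4]),(z2,[y2,z0,y1,z1,z0,z2]),(z4,[z44,z0,z22,z11,z3,y44]),(z4,[z32,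
    y12,z10,z5,y3,y20])],.ref k12 k0 [(z1,[z4,z3,z2,z1,z1,y4]),(z8,[y4,z0,z10,y1,y1,z4]),(z16,[z4,z0,z2,z13,z1,y4]),
    (z16,[y44,z0,y22,y11,z1,z44]),(z4,[y8,y12,y10,y5,y5,z20])],.ref k12 k0 [(z1,[y8,z3,z12]),(z1,[z1]),(z4,[y2,z0,z3,
    z3]),(z4,[z22,z0,y33,z0,z3]),(z4,[z16,y12,y30,y3,y3,z12])],.ref k12 k0 [(z1,[y16,z3,z16,z4]),(z2,[z4,z0,y1,y1]),
    (z1,[y1,z0,z1,z1]),(z4,[z44,z0,y44,y11,z3]),(z4,[z32,y12,y38,y11,y3,z12])],.ref k12 k0 [(z5,[y16,z15,z16,z0,z4]),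
    (z10,[z4,z0,z11,z0,y1]),(z20,[y4,z0,z4,z15,z1]),(z5,[z11,z0,y11,z0,z1]),(z20,[z32,y60,y62,y15,y23,z60])],
    .ref k12 k0 [(z1,[y4,y1,z2,y1,y1,z4]),(z8,[z4,z4,z10,z1,z1,y4]),(z16,[y4,y4,z2,z11,y1,z4]),(z16,[z44,z44,y22,z11,
    z23,y44]),(z4,[z8,y4,y10,y1,y1,z4])],.ref k12 k0 [(z3,[y16,y7,z0,z0,y4,z16]),(z6,[z4,z4,z9,z0,z1,y4]),(z12,[y4,y4,
    z0,z9,y1,z4]),(z3,[z11,z11,z0,z0,z5,y11]),(z12,[z32,y4,y18,y9,y1,z4])],.ref k12 k0 [(z7,[y16,z5,z0,y4,z0,z16]),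
    (z14,[z4,z4,z21,z1,z0,y4]),(z7,[y1,y1,z0,z5,z0,z1]),(z28,[z44,z44,z0,z11,z21,y44]),(z28,[z32,y52,y42,y13,y21,
    z52])],.ref k12 k0 [(z3,[y8,y7,y4,y4,y4,z16]),(z6,[z2,z4,z10,z1,z1,y4]),(z12,[y2,y4,y1,z8,y1,z4]),(z12,[z22,z44,
    z11,z11,z20,y44]),(z12,[z16,y4,y10,y1,y1,z4])],.ref k12 k0 [(z1,[y8,y5,y4,z2,y2,z8]),(z4,[z4,z4,z8,y1,z1,y4]),(z8,
    [y4,y4,y2,z7,y1,z4]),(z8,[z44,z44,z22,y11,z17,y44]),(z4,[z16,z4,z2,y7,z1,y4])],.ref k12 k0 [(z3,[y8,z1,y4,z0,z0,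
    z8]),(z3,[z1,z1,z5,z0,z0,y1]),(z12,[y2,y2,y1,z9,z0,z2]),(z12,[z22,z22,z11,z0,z9,y22]),(z12,[z16,y20,y10,y9,y9,
    z20])],.ref k12 k0 [(z5,[y16,y17,y16,y4,y8,z32]),(z10,[z4,z8,z19,z1,z2,y8]),(z10,[y2,y4,y2,z7,y1,z4]),(z20,[z44,
    z88,z44,z11,z37,y88]),(z20,[z32,z4,z2,y7,z1,y4])],.ref k12 k0 [(z1,[y8,z3,z0,z2,z2]),(z4,[z4,z0,z6,y1,y1]),(z8,
    [y4,z0,z0,z7,z1]),(z8,[z44,z0,z0,y11,y5]),(z4,[z16,y12,y6,y7,y7,z12])],.ref k12 k0 [(z1,[y16,y13,y8,z0,y4,z16]),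
    (z2,[z4,z4,z5,z0,z1,y4]),(z4,[y4,y4,y2,z3,y1,z4]),(z2,[z22,z22,z11,z0,z7,y22]),(z4,[z32,z20,z10,y3,z5,y20])],
    .ref k12 k0 [(z9,[y16,y5,y16,y8,y4,z32]),(z18,[z4,z8,z31,z2,z1,y8]),(z36,[y4,y8,y4,z25,y1,z8]),(z18,[z22,z44,z22,
    z11,z19,y44]),(z36,[z32,y44,y22,y11,y19,z44])],.ref k12 k0 [(z5,[y16,y1,y8,y4,z0,z16]),(z10,[z4,z4,z17,z1,z0,y4]),
    (z10,[y2,y2,y1,z7,z0,z2]),(z20,[z44,z44,z22,z11,z15,y44]),(z20,[z32,y28,y14,y7,y15,z28])],.ref k12 k0 [(z1,[y16,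
    z3,z0,z0,z4]),(z2,[z4,z0,z3,z0,y1]),(z4,[y4,z0,z0,z3,z1]),(z1,[z11,z0,z0,z0,y2]),(z4,[z32,y12,y6,y3,y11,z12])],
    .ref k12 k0 [(z2,[y4,y6,y6,y3,y3,z12]),(z16,[z4,z12,z30,z3,z3,y12]),(z32,[y4,y12,y6,z21,y3,z12]),(z32,[z44,
    (Int.ofNat (nat_lit 132)),z66,z33,z57,(Int.negSucc (nat_lit 131))]),(z1,[z1])],.ref k12 k0 [(z1,[z4,z3]),(z2,[y1,
    z0,z3]),(z4,[z1,z0,z0,z3]),(z4,[y11,z0,z0,z0,z3]),(z4,[y8,y12,y6,y3,y3,z12])]],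
    .leafM k0 [k0,k1,k2,k3,k4,k5] [(z1,[z0,z1,z1,z1])] [],
    .lp [k162,k162,k162,k156,k142,k174] [k6,k6,k6,k6,k6,k6,k9,k9,k16,k16,k0,k0] k0 [[k0,k0,k0,k0,k0,k0,k0,k0,k0,k0,k2],
    [k0,k0,k0,k12],[k12],[k0,k0,k0,k0,k0,k0,k0,k0,k0,k0,k0,k14],[k0,k0,k0,k0,k0,k0,k32],[k0,k0,k0,k0,k0,k0,k0,k0,k0,
    k6],[k0,k0,k0,k0,k0,k0,k0,k0,k12,k0,k12],[k0,k0,k0,k0,k0,k32],[k0,k0,k0,k0,k6],[k0,k0,k0,k0,k0,k0,k0,k12,k0,k0,k0,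
    k22],[k0,k0,k14,k0,k0,k0,k0,k0,k22],[k0,k2,k0,k0,k0,k0,k0,k12]] (nat_lit 480) k5
    [[(k6,k147),(k0,k160),(k4,k162),(k10,k168),(k8,k174),(k2,k176)],[(k9,k152),(k7,k159),(k1,k160),(k3,k162),(k11,
    k168),(k5,k174)],[(k2,k150),(k8,k152),(k6,k159),(k0,k162),(k4,k162),(k10,k170)],[(k3,k150),(k9,k152),(k7,k159),
    (k5,k162),(k11,k168),(k1,k176)],[(k8,k152),(k10,k154),(k6,k159),(k2,k162),(k4,k162),(k0,k174)],[(k9,k120),(k7,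
    k159),(k1,k162),(k3,k162),(k5,k162),(k11,k174)],[(k8,k143),(k0,k159),(k2,k159),(k4,k159),(k10,k165),(k6,k188)],
    [(k1,k147),(k9,k149),(k11,k153),(k3,k159),(k5,k159),(k7,k188)],[(k4,k120),(k6,k149),(k0,k152),(k2,k152),(k8,k154),
    (k10,k170)],[(k7,k143),(k3,k152),(k5,k152),(k9,k154),(k11,k158),(k1,k174)],[(k10,k152),(k6,k153),(k8,k158),(k0,
    k168),(k2,k168),(k4,k174)],[(k11,k152),(k5,k154),(k7,k165),(k1,k168),(k3,k170),(k9,k170)]]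
    [] k0
    [[k2,k0,k0,k1,k0,k0],[k1,k0,k1,k0,k1,k0],[k1,k1,k0,k1,k0,k0],[k1,k0,k0,k1,k1,k0],[k1,k0,k0,k0,k1,k1],[k0,k3,k0,k0,
    k0,k0],[k0,k2,k1,k0,k0,k0],[k0,k2,k0,k1,k0,k0],[k0,k2,k0,k0,k1,k0],[k0,k1,k1,k0,k1,k0],[k0,k1,k0,k1,k1,k0],[k0,k1,
    k0,k0,k2,k0],[k0,k0,k2,k0,k1,k0],[k0,k0,k1,k1,k1,k0],[k0,k0,k1,k0,k2,k0],[k0,k0,k1,k1,k0,k1],[k0,k0,k1,k0,k1,k1],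
    [k0,k0,k0,k1,k2,k0],[k0,k0,k0,k1,k1,k1],[k0,k0,k0,k1,k0,k2],[k0,k0,k0,k0,k3,k0],[k0,k0,k0,k0,k0,k3]]
    [.ref k12 k0 [(z2,[z3,z0,z0,z0,y1]),(z4,[y9,z18,z4,z0,z3]),(z8,[z9,y18,z0,z8,y3]),(z1,[z0,z0,z0,z0,z1]),(z4,[y3,
    y6,y4,y4,y3,z12])],.ref k12 k0 [(z5,[z12,z15,z4,z0,z4,y12]),(z5,[y18,z0,y1,z0,y6,z18]),(z5,[z9,z0,z3,z5,z3,y9]),
    (z1,[z0,z0,z0,z0,z1]),(z5,[y6,y15,y7,y5,y7,z21])],.ref k12 k0 [(z1,[y6,z9,z2,z0,z2]),(z1,[z9,y9,y2,z0,y3]),(z2,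
    [y9,z9,z3,z2,z3]),(z1,[z0,z0,z0,z0,z1]),(z1,[z3,y6,y2,y1,y2,z3])],.ref k12 k0 [(z1,[z6,z3,z2,z2,z0,y6]),(z1,[y9,
    z0,y2,y3,z0,z9]),(z2,[z9,z0,z3,z5,z0,y9]),(z1,[z0,z0,z0,z0,z1]),(z1,[y3,y3,y2,y2,y1,z6])],.ref k12 k0 [(z3,[z12,
    z9,z4,z4,z4,y12]),(z1,[y6,z0,y1,y2,y2,z6]),(z1,[z3,z0,z1,z2,z1,y3]),(z1,[z0,z0,z0,z0,z1]),(z3,[y6,y9,y5,y5,y5,
    z15])],.ref k12 k0 [(z3,[y2,z9,z2]),(z1,[z1]),(z2,[y1,z0,z1,z2]),(z1,[z0,z0,z0,z0,z1]),(z3,[z1,y9,y4,y3,y3,z9])],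
    .ref k12 k0 [(z9,[y12,z27,z8,z4]),(z3,[z6,z0,y1,y2]),(z3,[y3,z0,z2,z4]),(z1,[z0,z0,z0,z0,z1]),(z9,[z6,y27,y13,y11,
    y9,z27])],.ref k12 k0 [(z3,[y3,z9,z2,z0,z1]),(z2,[z3,z0,z0,z0,y1]),(z4,[y3,z0,z2,z4,z1]),(z1,[z0,z0,z0,z0,z1]),
    (z6,[z3,y18,y8,y6,y7,z18])],.ref k12 k0 [(z7,[y6,z15,z2,y2,y2,z6]),(z7,[z9,z9,z4,z3,z3,y9]),(z14,[y9,y9,z3,z11,y3,
    z9]),(z1,[z0,z0,z0,z0,z1]),(z7,[z3,y18,y8,y6,y6,z18])],.ref k12 k0 [(z5,[y12,z3,z0,z0,y4,z12]),(z5,[z18,z18,z5,z0,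
    z6,y18]),(z5,[y9,y9,z0,z5,y3,z9]),(z1,[z0,z0,z0,z0,z1]),(z5,[z6,y9,y5,y5,y3,z9])],.ref k12 k0 [(z2,[y3,z3,z0,y1,
    z0,z3]),(z4,[z9,z9,z4,z3,z0,y9]),(z8,[y9,y9,z0,z5,z0,z9]),(z1,[z0,z0,z0,z0,z1]),(z4,[z3,y9,y4,y3,y4,z9])],
    .ref k12 k0 [(z5,[y6,z3,y2,y4,y4,z12]),(z5,[z9,z18,z8,z6,z6,y18]),(z10,[y9,y18,y3,z4,y6,z18]),(z1,[z0,z0,z0,z0,
    z1]),(z5,[z3,y9,y4,y3,y3,z9])],.ref k12 k0 [(z1,[z3,z6,z1,y1,z1,y3]),(z2,[y9,y9,y1,z3,y3,z9]),(z4,[z9,z9,z3,z1,z3,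
    y9]),(z1,[z0,z0,z0,z0,z1]),(z2,[y3,y9,y3,y1,y3,z9])],.ref k12 k0 [(z1,[z12,z15,z4,z0,z0,y12]),(z1,[y18,y18,y5,z0,
    z0,z18]),(z1,[z9,z9,z3,z1,z0,y9]),(z1,[z0,z0,z0,z0,z1]),(z1,[y6,y9,y3,y1,y1,z9])],.ref k12 k0 [(z1,[y12,y21,y8,y4,
    y8,z24]),(z1,[z18,z36,z13,z6,z12,y36]),(z1,[y9,y18,y6,y2,y6,z18]),(z1,[z0,z0,z0,z0,z1]),(z1,[z6,z9,z3,z1,z3,y9])],
    .ref k12 k0 [(z1,[z3,z3,z0,y1,y1]),(z2,[y9,z0,z2,z3,z3]),(z4,[z9,z0,z0,z1,y3]),(z1,[z0,z0,z0,z0,z1]),(z2,[y3,y6,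
    y2,y1,y1,z6])],.ref k12 k0 [(z1,[z6,z9,z2,z0,z2,y6]),(z1,[y9,y9,y2,z0,y3,z9]),(z2,[z9,z9,z3,z2,z3,y9]),(z1,[z0,z0,
    z0,z0,z1]),(z1,[y3,y6,y2,y1,y2,z6])],.ref k12 k0 [(z1,[y3,y3,y2,y2,y1,z6]),(z2,[z9,z18,z8,z6,z3,y18]),(z4,[y9,y18,
    y6,y2,y3,z18]),(z1,[z0,z0,z0,z0,z1]),(z2,[z3,z0,z0,z0,y1])],.ref k12 k0 [(z1,[y12,y9,y4,y4,z0,z12]),(z1,[z18,z18,
    z7,z6,z0,y18]),(z1,[y9,y9,y3,y2,z0,z9]),(z1,[z0,z0,z0,z0,z1]),(z1,[z6,z3,z1,z1,y1,y3])],.ref k12 k0 [(z1,[z6,z3,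
    z0,z0,y2]),(z1,[y9,z0,z1,z0,z3]),(z2,[z9,z0,z0,z2,y3]),(z1,[z0,z0,z0,z0,z1]),(z1,[y3,y3,y1,y1,z0,z3])],
    .ref k12 k0 [(z1,[y2,y3,y2,y2,y2,z6]),(z1,[z3,z9,z4,z3,z3,y9]),(z2,[y3,y9,y3,y1,y3,z9]),(z1,[z0,z0,z0,z0,z1]),(z1,
    [z1])],.ref k12 k0 [(z1,[z4,z3]),(z1,[y6,z0,z1]),(z1,[z3,z0,z0,z1]),(z1,[z0,z0,z0,z0,z1]),(z1,[y2,y3,y1,y1,y1,
    z3])]],
    .lp [k180,k180,k186,k168,k168,k196] [k8,k8,k8,k8,k5,k5,k14,k14,k14,k14,k0,k0] k0 [[k0,k0,k0,k0,k6,k0,k6],[k0,k0,k0,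
    k20],[k20],[k0,k0,k0,k0,k0,k0,k0,k0,k0,k0,k0,k20],[k0,k0,k0,k0,k0,k0,k0,k0,k56,k0,k26],[k0,k6,k0,k0,k0,k0,k0,k20],
    [k0,k0,k0,k0,k20,k0,k0,k0,k0,k0,k12],[k0,k6,k0,k0,k0,k0,k0,k0,k0,k2],[k0,k0,k0,k0,k0,k0,k2],[k0,k0,k0,k0,k0,k56,
    k0,k0,k0,k0,k0,k32],[k0,k0,k20,k0,k0,k0,k0,k0,k32],[k0,k0,k0,k0,k0,k26,k0,k12]] (nat_lit 540) k5
    [[(k4,k157),(k6,k162),(k0,k180),(k10,k188),(k2,(nat_lit 200)),(k8,(nat_lit 206))],[(k7,k168),(k9,k168),(k1,k180),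
    (k3,k180),(k11,k188),(k5,(nat_lit 203))],[(k2,k160),(k8,k174),(k0,k180),(k6,k180),(k10,k188),(k4,k189)],[(k3,
    k160),(k7,k174),(k9,k174),(k5,k183),(k11,k188),(k1,(nat_lit 200))],[(k10,k171),(k6,k177),(k8,k177),(k2,k183),(k4,
    k186),(k0,(nat_lit 203))],[(k11,k135),(k1,k157),(k7,k177),(k5,k186),(k3,k189),(k9,k197)],[(k6,k148),(k0,k168),(k2,
    k174),(k4,k177),(k10,(nat_lit 208)),(k8,(nat_lit 224))],[(k7,k148),(k1,k162),(k9,k168),(k5,k177),(k3,k180),(k11,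
    k184)],[(k8,k166),(k0,k168),(k6,k168),(k2,k174),(k10,k194),(k4,k197)],[(k9,k166),(k3,k174),(k5,k177),(k11,k182),
    (k1,(nat_lit 206)),(k7,(nat_lit 224))],[(k4,k135),(k10,k164),(k8,k182),(k6,k184),(k0,k188),(k2,k188)],[(k11,k164),
    (k5,k171),(k1,k188),(k3,k188),(k9,k194),(k7,(nat_lit 208))]]
    [] k0
    [[k2,k0,k0,k1,k0,k0],[k1,k1,k1,k0,k0,k0],[k1,k0,k1,k1,k0,k0],[k1,k0,k1,k0,k1,k0],[k1,k0,k1,k0,k0,k1],[k1,k1,k0,k1,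
    k0,k0],[k1,k0,k0,k2,k0,k0],[k1,k0,k0,k0,k1,k1],[k0,k3,k0,k0,k0,k0],[k0,k2,k1,k0,k0,k0],[k0,k2,k0,k1,k0,k0],[k0,k2,
    k0,k0,k1,k0],[k0,k2,k0,k0,k0,k1],[k0,k1,k0,k2,k0,k0],[k0,k1,k0,k1,k1,k0],[k0,k1,k0,k0,k2,k0],[k0,k1,k1,k0,k0,k1],
    [k0,k0,k2,k0,k0,k1],[k0,k0,k1,k2,k0,k0],[k0,k0,k1,k1,k0,k1],[k0,k0,k1,k1,k1,k0],[k0,k0,k1,k0,k1,k1],[k0,k0,k1,k0,
    k0,k2],[k0,k0,k0,k3,k0,k0],[k0,k0,k0,k0,k3,k0],[k0,k0,k0,k0,k0,k3]]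
    [.ref (nat_lit 239) k0 [(z1,[z0,z1]),(z1,[y2,z4,z1]),(z1,[z1,y2,z0,z1]),(z1,[z1,y2])],.ref k141 k0 [(z1,[z0,z1]),
    (z1,[z2,y2,y1,y2]),(z1,[y1,z1,z1,z2]),(z1,[y1,z1,z1,z1])],.ref (nat_lit 240) k7 [(z1,[y3,z3,z0,y4]),(z1,[y2,z1,y1,
    y3,z1]),(z1,[z1,y1,z0,z1]),(z1,[z4,y3,z0,z4])],.ref k194 k0 [(z1,[z0,z1]),(z1,[y2,z0,y1,z0,z2]),(z1,[z1,z0,z1,z1,
    y1]),(z1,[z1,z0,z1,z0,y1])],.ref (nat_lit 239) k0 [(z1,[z0,z1]),(z1,[y2,z2,z1,z2]),(z1,[z1,y1]),(z1,[z1,y1,z0,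
    y1])],.ref k10 k0 [(z1,[z0,z1]),(z1,[z2,y2,y1]),(z1,[y1,z1,z1,z1]),(z1,[y1,z1,z1])],.ref k10 k0 [(z1,[z0,z1]),(z1,
    [y1,z1,z1]),(z2,[z1,y1,z0,z2]),(z2,[z1,y1])],.ref k47 k7 [(z1,[y1,z0,y1,y2,z1]),(z1,[y2,y3,y5,y5,z5]),(z1,[z1,z0,
    z1,z1,y1]),(z1,[z4,z3,z4,z4,y4])],.ref (nat_lit 241) k0 [(z1,[z0,z1]),(z1,[z1]),(z2,[y1,z0,z3,z6]),(z2,[y1,z0,
    z3])],.ref (nat_lit 241) k0 [(z1,[z0,z1]),(z1,[z2,z0,y1,y2]),(z1,[y1,z0,z2,z4]),(z1,[y1,z0,z2,z1])],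
    .ref (nat_lit 242) k0 [(z1,[z0,z1]),(z1,[z2,z0,y1]),(z1,[y1,z0,z2,z3]),(z1,[y1,z0,z2])],
    .ref (nat_lit 240) k7 [(z2,[z3,z3,y3,y11,y3]),(z1,[z1,z0,y2,y4]),(z2,[y1,y1,z1,z3,z1]),(z1,[y2,y1,z2,z6,z2])],
    .ref (nat_lit 243) k0 [(z1,[z0,z1]),(z1,[z1]),(z1,[y1,z0,z2,z4]),(z1,[y1,z0,z2])],.ref k47 k7 [(z2,[z1,z0,y1,y2]),
    (z1,[z1,y3,y4,y3,z3]),(z2,[y1,z0,z1]),(z1,[y2,z3,z2])],.ref (nat_lit 239) k0 [(z1,[z0,z1]),(z1,[z2,z2,z1,z2,y2]),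
    (z1,[y1,y1,z0,z0,z1]),(z1,[y1,y1,z0,y1,z1])],.ref k194 k0 [(z1,[z0,z1]),(z1,[z1,z2,z2,z2,y2]),(z2,[y1,y2,y1,z0,
    z2]),(z2,[y1,y2,y1,y2,z2])],.ref k10 k0 [(z1,[z0,z1]),(z1,[z2,z0,y1,y2]),(z1,[y1,z0,z1,z2]),(z1,[y1,z0,z1,z1])],
    .ref (nat_lit 240) k7 [(z1,[y3,z0,z0,y1]),(z1,[y2,y1,y1,y1,z1]),(z1,[z1]),(z1,[z4,z1])],.ref k53 k0 [(z1,[z0,z1]),
    (z1,[y2,z0,z3,z2]),(z1,[z1,z0,z0,z2]),(z1,[z1,z0,z0,y1])],.ref k10 k0 [(z1,[z0,z1]),(z1,[y1,z0,z1,z1]),(z2,[z1,z0,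
    z0,z1]),(z2,[z1,z0,z0,y1])],.ref (nat_lit 244) k8 [(z1,[y2,y3,y3,y1,z3]),(z1,[z1,z1,z1,z0,y1]),(z1,[z4,z5,z4,z0,
    y4]),(z1,[y6,y6,y5,z0,z6])],.ref k10 k0 [(z1,[z0,z1]),(z1,[y2,y2,y1,z0,z2]),(z1,[z1,z1,z1,z1,y1]),(z1,[z1,z1,z1,
    z0,y1])],.ref k194 k0 [(z1,[z0,z1]),(z1,[y2,z0,z1,z2]),(z1,[z1]),(z1,[z1,z0,z0,y1])],.ref (nat_lit 245) k0 [(z1,
    [z0,z1]),(z1,[y2,z0,z3]),(z1,[z1,z0,z0,z3]),(z1,[z1])],.ref k47 k7 [(z2,[z1,z3,z3,z1,y3]),(z1,[z1]),(z2,[y1,y3,y3,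
    y3,z3]),(z1,[y2,y3,y6,y6,z6])],.ref k47 k7 [(z1,[y1,z0,z0,y1]),(z1,[y2,y3,y3,y3,z3]),(z1,[z1]),(z1,[z4,z3])]],
    .leafM k0 [k1,k2,k3,k4,k5,k0] [(z1,[y1,y1,z0,z1])] [],
    .leafM k1 [k0,k1,k2,k3,k4,k5] [(z1,[y1,z0,y1,z1]),(z1,[z1,z0,z1])] [],
    .leafM k0 [k0,k1,k2,k3,k4,k5] [(z4,[z0,z1,z1])] [],
    .lp [(nat_lit 300),(nat_lit 330),(nat_lit 340),(nat_lit 334),(nat_lit 272),(nat_lit 342)] [k21,k21,k6,k6,k1,k1,k4,k4,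
    k35,k35,k0,k0] k0 [[k0,k0,k0,k0,k0,k0,k0,k0,k22],[k0,k0,k0,k0,k0,k0,k0,k0,k0,k0,k0,k20],[k0,k0,k0,k0,k8],[k0,k0,
    k0,k0,k0,k0,k0,k36],[k0,k0,k0,k0,k0,k0,k0,k0,k20],[k0,k0,k0,k8],[k0,k0,k36],[k0,k0,k0,k0,k0,k0,k0,k0,k0,k0,k0,k6],
    [k0,k0,k0,k0,k0,k0,k0,k0,k0,k0,k10],[k0,k22,k0,k0,k0,k20],[k20,k0,k0,k0,k0,k0,k6],[k0,k0,k0,k0,k0,k0,k0,k0,k0,
    k10]] (nat_lit 960) k5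
    [[(k8,(nat_lit 276)),(k2,(nat_lit 315)),(k0,(nat_lit 320)),(k4,(nat_lit 320)),(k10,(nat_lit 321)),(k6,
    (nat_lit 323))],[(k9,(nat_lit 286)),(k11,(nat_lit 299)),(k3,(nat_lit 315)),(k7,(nat_lit 317)),(k1,(nat_lit 320)),
    (k5,(nat_lit 320))],[(k0,(nat_lit 315)),(k10,(nat_lit 316)),(k8,(nat_lit 323)),(k2,(nat_lit 330)),(k6,
    (nat_lit 332)),(k4,(nat_lit 335))],[(k1,(nat_lit 315)),(k7,(nat_lit 324)),(k3,(nat_lit 330)),(k5,(nat_lit 335)),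
    (k11,(nat_lit 336)),(k9,(nat_lit 337))],[(k6,(nat_lit 301)),(k8,(nat_lit 306)),(k0,(nat_lit 320)),(k2,
    (nat_lit 335)),(k10,(nat_lit 341)),(k4,(nat_lit 348))],[(k9,(nat_lit 306)),(k1,(nat_lit 320)),(k11,(nat_lit 321)),
    (k3,(nat_lit 335)),(k7,(nat_lit 337)),(k5,(nat_lit 348))],[(k0,(nat_lit 317)),(k8,(nat_lit 323)),(k2,
    (nat_lit 324)),(k6,(nat_lit 334)),(k4,(nat_lit 337)),(k10,(nat_lit 338))],[(k5,(nat_lit 301)),(k9,(nat_lit 303)),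
    (k1,(nat_lit 323)),(k3,(nat_lit 332)),(k7,(nat_lit 334)),(k11,(nat_lit 338))],[(k8,(nat_lit 272)),(k0,
    (nat_lit 286)),(k10,(nat_lit 301)),(k6,(nat_lit 303)),(k4,(nat_lit 306)),(k2,(nat_lit 337))],[(k9,(nat_lit 272)),
    (k1,(nat_lit 276)),(k5,(nat_lit 306)),(k11,(nat_lit 307)),(k3,(nat_lit 323)),(k7,(nat_lit 323))],[(k0,
    (nat_lit 299)),(k8,(nat_lit 307)),(k4,(nat_lit 321)),(k2,(nat_lit 336)),(k6,(nat_lit 338)),(k10,(nat_lit 352))],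
    [(k9,(nat_lit 301)),(k3,(nat_lit 316)),(k1,(nat_lit 321)),(k7,(nat_lit 338)),(k5,(nat_lit 341)),(k11,
    (nat_lit 352))]]
    [] k0
    [[k2,k1,k0,k0,k0,k0],[k2,k0,k0,k0,k1,k0],[k2,k0,k0,k0,k0,k1],[k1,k1,k0,k0,k1,k0],[k1,k1,k0,k0,k0,k1],[k1,k0,k1,k1,
    k0,k0],[k1,k0,k1,k0,k1,k0],[k1,k0,k0,k1,k1,k0],[k1,k0,k0,k0,k2,k0],[k1,k0,k0,k0,k1,k1],[k0,k1,k0,k1,k1,k0],[k0,k1,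
    k0,k0,k2,k0],[k0,k0,k1,k1,k1,k0],[k0,k0,k1,k0,k2,k0],[k0,k0,k1,k0,k1,k1],[k0,k0,k0,k1,k2,k0],[k0,k0,k0,k1,k1,k1],
    [k0,k0,k0,k0,k3,k0],[k0,k0,k0,k0,k2,k1]]
    [.ref k12 k0 [(z8,[z9,z2,y3]),(z4,[z3,y2,z3]),(z1,[z0,z0,z0,z1]),(z2,[y3,z2,z1,z0,z2]),(z4,[y3,y2,y3,y4,y4,z12])],
    .ref k12 k0 [(z4,[z9,z1,z3,z3,z3,y9]),(z2,[z3,y1,z3,z1,z1,y3]),(z1,[z0,z0,z0,z1]),(z1,[y3,z1,y1,y1,z0,z3]),(z2,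
    [y3,y1,y3,y3,y3,z9])],.ref k12 k0 [(z7,[z9,z1]),(z7,[z6,y4,z7]),(z1,[z0,z0,z0,z1]),(z7,[y12,z8,z0,z0,z7]),(z7,[y6,
    y3,y7,y7,y7,z21])],.ref k12 k0 [(z1,[z3,z1,z0,z1,z1,y3]),(z3,[z6,z0,z3,z2,z2,y6]),(z1,[z0,z0,z0,z1]),(z3,[y12,z0,
    z0,y4,y1,z12]),(z3,[y6,y3,y3,y5,y5,z15])],.ref k12 k0 [(z2,[z3,z1,y1]),(z3,[z3,y1,z2]),(z1,[z0,z0,z0,z1]),(z3,[y6,
    z2,z2,z0,z3]),(z3,[y3,y2,y2,y3,y3,z9])],.ref k12 k0 [(z1,[y9,z4,z0,z3,z3]),(z1,[y6,z2,z1,z2,z2]),(z1,[z0,z0,z0,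
    z1]),(z1,[z12,y4,z0,y4,y3]),(z1,[z6,y3,y1,y3,y3,z3])],.ref k12 k0 [(z1,[z9,z1,z3,z0,z3,y9]),(z1,[z6,z0,z3,z0,z2,
    y6]),(z1,[z0,z0,z0,z1]),(z1,[y12,z0,y4,z0,y3,z12]),(z1,[y6,y1,y3,y1,y3,z9])],.ref k12 k0 [(z1,[y3,z1,y1,y1,z0,
    z3]),(z3,[y6,z0,z1,y2,z0,z6]),(z1,[z0,z0,z0,z1]),(z3,[z12,z0,z4,z4,z3,y12]),(z3,[z6,y3,y1,y1,y3,z3])],
    .ref k12 k0 [(z1,[y9,y2,y6,y6,y6,z18]),(z1,[y6,y2,y3,y4,y4,z12]),(z1,[z0,z0,z0,z1]),(z1,[z12,z4,z8,z8,z9,y24]),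
    (z1,[z6,z1,z3,z3,z3,y9])],.ref k12 k0 [(z2,[z9,z2,z3,z3,z3,y9]),(z1,[z3,z0,z2,z1,z1,y3]),(z1,[z0,z0,z0,z1]),(z1,
    [y6,z0,y2,y2,y1,z6]),(z1,[y3,y1,y2,y2,y2,z6])],.ref k12 k0 [(z4,[y9,z1,z0,y3,z0,z9]),(z2,[y3,y1,z2,y1,z0,z3]),(z1,
    [z0,z0,z0,z1]),(z1,[z3,z1,z0,z1,z1,y3]),(z2,[z3,y1,y2,y1,y2,z3])],.ref k12 k0 [(z2,[y9,y4,y3,y6,y6,z18]),(z1,[y3,
    y2,z0,y2,y2,z6]),(z1,[z0,z0,z0,z1]),(z1,[z6,z4,z2,z4,z5,y12]),(z1,[z3,z1,z0,z1,z1,y3])],.ref k12 k0 [(z2,[y3,z1,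
    y1,z0,z0,z3]),(z3,[y3,y1,z2,z0,z0,z3]),(z1,[z0,z0,z0,z1]),(z3,[z6,z2,z2,z0,z3,y6]),(z3,[z3,y2,y2,y3,y3,z6])],
    .ref k12 k0 [(z4,[y9,y2,y6,y3,y6,z18]),(z2,[y3,y2,z0,y1,y2,z6]),(z1,[z0,z0,z0,z1]),(z1,[z3,z2,z2,z1,z3,y6]),(z2,
    [z3,z0,z0,y1])],.ref k12 k0 [(z1,[y9,y2,y3,z0,y3,z9]),(z1,[y6,y2,y1,z0,y2,z6]),(z1,[z0,z0,z0,z1]),(z1,[z12,z4,z4,
    z0,z5,y12]),(z1,[z6,z1,z1,y1,z1,y3])],.ref k12 k0 [(z8,[y9,z2,y6,y6,y3,z18]),(z4,[y3,y2,z2,y2,y1,z6]),(z1,[z0,z0,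
    z0,z1]),(z2,[z3,z2,z2,z2,z3,y6]),(z4,[z3,y2,y2,y2,y3,z6])],.ref k12 k0 [(z5,[y9,z2,y3,y3,z0,z9]),(z5,[y6,y2,z3,y2,
    z0,z6]),(z1,[z0,z0,z0,z1]),(z5,[z12,z4,z4,z4,z5,y12]),(z5,[z6,y3,y3,y3,y5,z9])],.ref k12 k0 [(z2,[y3,y1,y3,y3,y3,
    z9]),(z1,[y1,y1,z0,y1,y1,z3]),(z1,[z0,z0,z0,z1]),(z1,[z2,z2,z2,z2,z3,y6]),(z1,[z1])],.ref k12 k0 [(z1,[y3,y1,y2,
    y2,y2,z6]),(z3,[y6,y4,y1,y4,y4,z12]),(z1,[z0,z0,z0,z1]),(z3,[z12,z8,z8,z8,z11,y24]),(z3,[z6,z1,z1,z1,z1,y3])]],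
    .lp [k154,k172,k166,k158,k140,k168] [k9,k9,k0,k0,k3,k3,k7,k7,k16,k16,k2,k2] k0 [[k0,k0,k0,k0,k0,k0,k24,k0,k8],[k0,k0,
    k0,k8,k0,k20],[k8],[k0,k0,k0,k0,k0,k4],[k20,k0,k4],[k0,k0,k0,k0,k0,k0,k0,k14,k0,k14],[k0,k0,k0,k0,k14,k0,k0,k0,
    k20],[k0,k24,k0,k0,k0,k0,k0,k0,k0,k0,k0,k8],[k0,k0,k0,k0,k14,k0,k0,k0,k0,k0,k12],[k0,k8,k0,k0,k0,k0,k0,k20],[k0,
    k0,k0,k0,k0,k0,k8],[k0,k0,k0,k0,k0,k0,k0,k0,k0,k12]] (nat_lit 480) k5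
    [[(k8,k135),(k0,k154),(k4,k160),(k10,k161),(k2,k163),(k6,k164)],[(k9,k123),(k11,k153),(k1,k154),(k3,k163),(k5,
    k168),(k7,k176)],[(k4,k149),(k0,k163),(k2,k164),(k8,k164),(k10,k170),(k6,k189)],[(k9,k156),(k1,k163),(k3,k164),
    (k5,k169),(k7,k169),(k11,k170)],[(k8,k153),(k4,k162),(k6,k162),(k10,k167),(k0,k168),(k2,k169)],[(k3,k149),(k1,
    k160),(k5,k162),(k7,k162),(k9,k167),(k11,k181)],[(k8,k135),(k6,k144),(k4,k162),(k10,k163),(k2,k169),(k0,k176)],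
    [(k11,k143),(k7,k144),(k9,k149),(k5,k162),(k1,k164),(k3,k189)],[(k0,k123),(k10,k146),(k6,k149),(k2,k156),(k8,
    k160),(k4,k167)],[(k1,k135),(k7,k135),(k5,k153),(k11,k154),(k9,k160),(k3,k164)],[(k6,k143),(k0,k153),(k8,k154),
    (k2,k170),(k10,k180),(k4,k181)],[(k9,k146),(k1,k161),(k7,k163),(k5,k167),(k3,k170),(k11,k180)]]
    [] k0
    [[k3,k0,k0,k0,k0,k0],[k2,k0,k0,k0,k1,k0],[k2,k0,k0,k0,k0,k1],[k1,k1,k0,k0,k1,k0],[k1,k0,k1,k0,k1,k0],[k1,k0,k0,k1,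
    k1,k0],[k1,k0,k0,k0,k2,k0],[k1,k0,k0,k0,k1,k1],[k0,k1,k1,k0,k1,k0],[k0,k0,k1,k2,k0,k0],[k0,k0,k1,k1,k1,k0],[k0,k0,
    k1,k1,k0,k1],[k0,k0,k0,k3,k0,k0],[k0,k0,k0,k2,k1,k0],[k0,k0,k0,k2,k0,k1],[k0,k0,k0,k1,k2,k0],[k0,k0,k0,k1,k1,k1],
    [k0,k0,k0,k0,k2,k1]]
    [.ref k193 k4 [(z1,[y1,z3]),(z1,[z1]),(z1,[y2,z6,z3]),(z1,[z0,z0,z0,z1])],.ref k20 k4 [(z1,[y1,z2]),(z1,[z1]),(z1,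
    [y1,z2,z1]),(z1,[z0,z0,z0,z1])],.ref (nat_lit 225) k4 [(z1,[y1,z2]),(z1,[z1,y1]),(z1,[y2,z4,z1]),(z1,[z0,z0,z0,
    z1])],.ref k189 k8 [(z1,[z2,y1,y1,z1,y1]),(z1,[z3,y2,y2,z1,y1]),(z1,[z1,z1,z0,z1,y1]),(z1,[y2,z0,z1,y2,z2])],
    .ref k189 k8 [(z1,[y2,z3,z1,z3,y1]),(z1,[y3,z4,z1,z4,y1]),(z1,[y1,z3,z1,z2,y1]),(z1,[z2,y4,y1,y4,z2])],
    .ref k193 k4 [(z1,[y1,z0,y1,y1,z1]),(z1,[z1,z3,z1,z1,y1]),(z1,[y2,z0,z1,y2,z2]),(z1,[z0,z0,z0,z1])],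
    .ref (nat_lit 225) k4 [(z1,[y1,z1]),(z1,[z1]),(z1,[y2,z2,z1]),(z1,[z0,z0,z0,z1])],.ref (nat_lit 206) k8 [(z1,[z1,
    y1]),(z1,[z1,y2,y1,y1,z1]),(z1,[z1,z8,z3,z3,y3]),(z1,[y1,y2,z0,y3,z3])],.ref k20 k4 [(z1,[z1,z0,y1,y1]),(z1,[y1,
    z2,z1,z1]),(z1,[z1,z0,z0,y1]),(z1,[z0,z0,z0,z1])],.ref k189 k8 [(z2,[y1,z0,z0,z1]),(z4,[y3,y2,y2,z1,z2]),(z4,[y1,
    z6,z2,z3,y2]),(z2,[z1,y2,z0,y3,z2])],.ref k189 k8 [(z1,[y1,z0,z0,z1]),(z2,[y3,y1,y1,z2,z1]),(z2,[y1,z3,z1,z2,y1]),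
    (z1,[z1,y1,z0,y2,z1])],.ref k189 k8 [(z1,[y2,y1,y1,z1,z1]),(z1,[y3,y2,y2,z1,z2]),(z1,[y1,z1,z0,z1]),(z1,[z2,z0,z1,
    y2])],.ref (nat_lit 250) k1 [(z1,[y2,y15,y6,y6,z6]),(z1,[y1,y9,y3,y3,z3]),(z1,[z1]),(z1,[z2,z18,z6,z9,y6])],
    .ref (nat_lit 240) k1 [(z1,[y2,y11,y4,y4,z4]),(z1,[y1,y6,y2,y2,z2]),(z1,[z1,z3,z1,z1,y1]),(z1,[z2,z12,z4,z5,y4])],
    .ref k193 k4 [(z1,[y1,y2,y2,y2,z2]),(z1,[z1,z5,z2,z2,y2]),(z1,[y2,y4,y1,y4,z4]),(z1,[z0,z0,z0,z1])],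
    .ref k20 k4 [(z1,[y1,y1,y1,y1,z1]),(z1,[z1,z3,z1,z1,y1]),(z1,[y1,y1,z0,y1,z1]),(z1,[z0,z0,z0,z1])],
    .ref (nat_lit 225) k4 [(z1,[y1,y1,y1,y1,z1]),(z1,[z1,z2,z1,z1,y1]),(z1,[y2,y2,y1,y2,z2]),(z1,[z0,z0,z0,z1])],
    .ref k26 k2 [(z1,[y2,y1,y1,y1,z1]),(z1,[z0,z0,z0,z1]),(z1,[z2,z0,z1]),(z1,[y1,z1])]],
    .leafM k0 [k1,k2,k3,k4,k5,k0] [(z1,[y1,y1,z0,z1])] [],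
    .lp [k160,k174,k162,k162,k136,k164] [k7,k7,k0,k0,k6,k6,k6,k6,k19,k19,k5,k5] k0 [[k0,k0,k0,k0,k0,k0,k0,k0,k12],[k0,k0,
    k0,k0,k0,k8],[k0,k0,k0,k0,k2,k0,k0,k0,k0,k0,k6],[k0,k0,k0,k0,k0,k0,k0,k8],[k8,k0,k0,k0,k0,k0,k20],[k0,k0,k0,k2],
    [k0,k0,k8,k0,k0,k0,k0,k0,k14],[k0,k0,k0,k0,k0,k20,k0,k0,k0,k0,k0,k6],[k0,k0,k0,k0,k0,k0,k0,k0,k0,k0,k22],[k0,k12,
    k0,k0,k0,k0,k0,k14],[k0,k0,k0,k0,k0,k0,k6],[k0,k0,k0,k6,k0,k0,k0,k0,k0,k22]] (nat_lit 480) k5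
    [[(k8,k126),(k0,k160),(k2,k161),(k4,k161),(k10,k162),(k6,k167)],[(k9,k148),(k11,k150),(k1,k160),(k5,k161),(k3,
    k167),(k7,k169)],[(k4,k160),(k0,k167),(k8,k167),(k6,k168),(k10,k169),(k2,k174)],[(k1,k161),(k9,k163),(k7,k166),
    (k5,k168),(k11,k169),(k3,k174)],[(k8,k149),(k6,k154),(k0,k161),(k4,k164),(k2,k168),(k10,k169)],[(k9,k129),(k3,
    k160),(k1,k161),(k7,k162),(k11,k163),(k5,k164)],[(k8,k149),(k4,k162),(k10,k163),(k2,k166),(k0,k169),(k6,k182)],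
    [(k9,k149),(k11,k149),(k5,k154),(k1,k167),(k3,k168),(k7,k182)],[(k4,k129),(k10,k144),(k0,k148),(k6,k149),(k8,
    k150),(k2,k163)],[(k1,k126),(k5,k149),(k7,k149),(k9,k150),(k11,k150),(k3,k167)],[(k6,k149),(k0,k150),(k8,k150),
    (k4,k163),(k2,k169),(k10,k186)],[(k9,k144),(k1,k162),(k7,k163),(k3,k169),(k5,k169),(k11,k186)]]
    [] k0
    [[k2,k0,k0,k0,k1,k0],[k2,k0,k0,k0,k0,k1],[k1,k1,k0,k0,k1,k0],[k1,k0,k1,k0,k1,k0],[k1,k0,k0,k1,k1,k0],[k1,k0,k0,k0,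
    k2,k0],[k1,k0,k0,k0,k1,k1],[k0,k1,k1,k0,k1,k0],[k0,k0,k2,k0,k1,k0],[k0,k0,k1,k1,k1,k0],[k0,k0,k1,k0,k2,k0],[k0,k0,
    k1,k0,k1,k1],[k0,k0,k0,k1,k2,k0],[k0,k0,k0,k1,k1,k1],[k0,k0,k0,k0,k3,k0],[k0,k0,k0,k0,k2,k1]]
    [.ref k12 k0 [(z4,[z7,z5,z7,z7,z7,y7]),(z1,[z1,y1,z4,z1,z1,y1]),(z1,[y2,z2,y2,z1,y2,z2]),(z2,[y1,z1,y1,y1,z5,z1]),
    (z2,[y1,y5,y7,y7,y7,z7])],.ref k12 k0 [(z5,[z7,z1]),(z5,[z4,y8,z15]),(z5,[y8,z16,z0,z15]),(z5,[y2,z4,z0,z0,z15]),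
    (z5,[y2,y11,y15,y15,y15,z15])],.ref k12 k0 [(z3,[z7,z9,z0,z7,z7,y7]),(z3,[z4,z0,z9,z4,z4,y4]),(z3,[y8,z0,z0,z1,y8,
    z8]),(z3,[y2,z0,z0,y2,z7,z2]),(z3,[y2,y9,y9,y11,y11,z11])],.ref k12 k0 [(z1,[y7,z3,y7,z0,y7,z7]),(z1,[y4,z0,y1,z0,
    y4,z4]),(z1,[z8,z0,z8,z3,z8,y8]),(z1,[z2,z0,z2,z0,z5,y2]),(z1,[z2,y3,y1,y3,y1,z1])],.ref k12 k0 [(z1,[z7,z3,z7,z7,
    z0,y7]),(z1,[z4,z0,z7,z4,z0,y4]),(z1,[y8,z0,y8,y5,z0,z8]),(z1,[y2,z0,y2,y2,z3,z2]),(z1,[y2,y3,y5,y5,y3,z5])],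
    .ref k12 k0 [(z1,[z7,z10,z14,z14,z14,y14]),(z1,[z4,z4,z11,z8,z8,y8]),(z1,[y8,y8,y16,y13,y16,z16]),(z1,[y2,y2,y4,
    y4,y1,z4]),(z1,[y2,y5,y7,y7,y7,z7])],.ref k12 k0 [(z2,[z7,z6,z7,z7,z7,y7]),(z1,[z2,z0,z5,z2,z2,y2]),(z1,[y4,z0,y4,
    y1,y4,z4]),(z1,[y1,z0,y1,y1,z2,z1]),(z1,[y1,y3,y4,y4,y4,z4])],.ref k12 k0 [(z2,[y7,y1,z0,z0,y7,z7]),(z1,[y2,y2,z3,
    z0,y2,z2]),(z1,[z4,z4,z0,z3,z4,y4]),(z1,[z1,z1,z0,z0,z4,y1]),(z1,[z1,y2,y3,y3,y2,z2])],.ref k12 k0 [(z6,[y7,z11,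
    y7,z7,y7,z7]),(z3,[y2,y2,z7,z2,y2,z2]),(z3,[z4,z4,z4,z5,z4,y4]),(z3,[z1,z1,z1,y1,z10,y1]),(z3,[z1,y8,y8,y10,y8,
    z8])],.ref k12 k0 [(z4,[y7,z5,y7,z0,z0,z7]),(z1,[y1,y1,z2,z0,z0,z1]),(z1,[z2,z2,z2,z3,z0,y2]),(z2,[z1,z1,z1,z0,z6,
    y1]),(z2,[z1,y5,y5,y6,y6,z5])],.ref k12 k0 [(z4,[y7,y2,y14,y7,y14,z14]),(z1,[y1,y2,z1,y1,y2,z2]),(z1,[z2,z4,z4,z5,
    z4,y4]),(z2,[z1,z2,z2,z1,z8,y2]),(z2,[z1,y4,y4,y5,y4,z4])],.ref k12 k0 [(z3,[y7,z2,y7,z0,y7,z7]),(z3,[y4,y4,z5,z0,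
    y4,z4]),(z3,[z8,z8,z8,z9,z8,y8]),(z3,[z2,z2,z2,z0,z11,y2]),(z3,[z2,y7,y7,y9,y7,z7])],.ref k12 k0 [(z2,[y7,y8,y14,
    y14,y7,z14]),(z1,[y2,y4,y1,y4,y2,z4]),(z1,[z4,z8,z8,z11,z4,y8]),(z1,[z1,z2,z2,z2,z4,y2]),(z1,[z1,y1,y1,y1,y2,
    z1])],.ref k12 k0 [(z1,[y7,y4,y7,y7,z0,z7]),(z1,[y4,y4,y1,y4,z0,z4]),(z1,[z8,z8,z8,z11,z0,y8]),(z1,[z2,z2,z2,z2,
    z3,y2]),(z1,[z2,y1,y1,y1,y3,z1])],.ref k12 k0 [(z2,[y7,y15,y21,y21,y21,z21]),(z1,[y2,y6,y3,y6,y6,z6]),(z1,[z4,z12,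
    z12,z15,z12,y12]),(z1,[z1,z3,z3,z3,z6,y3]),(z1,[z1])],.ref k12 k0 [(z1,[y7,y11,y14,y14,y14,z14]),(z1,[y4,y8,y5,y8,
    y8,z8]),(z1,[z8,z16,z16,z19,z16,y16]),(z1,[z2,z4,z4,z4,z7,y4]),(z1,[z2,z1,z1,z1,z1,y1])]],
    .lp [k154,k166,k168,k166,k144,k160] [k7,k7,k1,k1,k0,k0,k1,k1,k12,k12,k4,k4] k0 [[k0,k0,k0,k0,k0,k0,k0,k0,k22],[k0,k0,
    k0,k0,k0,k0,k0,k0,k0,k0,k0,k6],[k0,k0,k0,k0,k4,k0,k0,k0,k0,k0,k6],[k0,k0,k0,k0,k0,k0,k0,k16,k0,k8],[k0,k0,k0,k0,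
    k0,k0,k0,k0,k26,k0,k2],[k0,k0,k0,k4,k0,k0,k0,k4],[k0,k0,k16,k0,k4],[k0,k0,k0,k0,k0,k0,k0,k0,k0,k0,k0,k20],[k0,k0,
    k8],[k0,k22,k0,k0,k0,k26],[k6,k0,k0,k0,k0,k0,k20],[k0,k0,k0,k6,k0,k2]] (nat_lit 480) k5
    [[(k8,k149),(k2,k154),(k10,k157),(k4,k159),(k0,k160),(k6,k180)],[(k11,k135),(k9,k149),(k1,k160),(k3,k160),(k7,
    k160),(k5,k161)],[(k10,k157),(k0,k160),(k2,k166),(k6,k166),(k4,k167),(k8,k177)],[(k1,k154),(k7,k162),(k3,k166),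
    (k5,k167),(k9,k171),(k11,k171)],[(k8,k148),(k6,k151),(k0,k161),(k2,k167),(k10,k170),(k4,k172)],[(k11,k138),(k1,
    k159),(k9,k160),(k3,k167),(k7,k167),(k5,k172)],[(k0,k160),(k2,k162),(k6,k162),(k10,k165),(k4,k167),(k8,k181)],
    [(k5,k151),(k9,k155),(k7,k162),(k11,k163),(k3,k166),(k1,k180)],[(k10,k132),(k8,k144),(k0,k149),(k6,k155),(k4,
    k160),(k2,k171)],[(k9,k144),(k5,k148),(k1,k149),(k11,k152),(k3,k177),(k7,k181)],[(k0,k135),(k4,k138),(k8,k152),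
    (k10,k160),(k6,k163),(k2,k171)],[(k9,k132),(k1,k157),(k3,k157),(k11,k160),(k7,k165),(k5,k170)]]
    [] k0
    [[k2,k1,k0,k0,k0,k0],[k2,k0,k0,k0,k1,k0],[k2,k0,k0,k0,k0,k1],[k1,k1,k0,k0,k0,k1],[k1,k0,k1,k1,k0,k0],[k1,k0,k1,k0,
    k1,k0],[k1,k0,k1,k0,k0,k1],[k1,k0,k0,k1,k1,k0],[k1,k0,k0,k0,k2,k0],[k1,k0,k0,k0,k1,k1],[k1,k0,k0,k0,k0,k2],[k0,k1,
    k1,k0,k0,k1],[k0,k0,k1,k1,k0,k1],[k0,k0,k1,k1,k1,k0],[k0,k0,k1,k0,k2,k0],[k0,k0,k1,k0,k1,k1],[k0,k0,k1,k0,k0,k2],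
    [k0,k0,k0,k1,k1,k1],[k0,k0,k0,k0,k3,k0],[k0,k0,k0,k0,k2,k1],[k0,k0,k0,k0,k1,k2]]
    [.ref k12 k0 [(z7,[z6,z3,y2]),(z7,[z9,y6,z4]),(z7,[y12,z8,z4,z7]),(z7,[y6,z4,z2,z0,z21]),(z7,[z3,y2,y1])],
    .ref k12 k0 [(z5,[z6,z1]),(z5,[z9,y6,z5]),(z5,[y12,z8,z0,z5]),(z5,[y6,z4,z0,z0,z15]),(z5,[z3,y2])],
    .ref k12 k0 [(z2,[z3,z1,z1,z1,z3,y3]),(z4,[z9,y3,z7,z3,z9,y9]),(z1,[y3,z1,y1,z0,y3,z3]),(z2,[y3,z1,y1,y1,z3,z3]),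
    (z4,[z3,y1,z1,z1,z3,y3])],.ref k12 k0 [(z5,[z6,z5,z0,z2,z6,y6]),(z5,[z9,z0,z5,z3,z9,y9]),(z5,[y12,z0,z0,z1,y12,
    z12]),(z5,[y6,z0,z0,y2,z9,z6]),(z5,[z3,z0,z0,z1,z3,y3])],.ref k12 k0 [(z2,[y3,z3,z0,z1,z3]),(z4,[y9,z3,z4,z3,z9]),
    (z1,[z3,y1,z0,z0,y3]),(z2,[z3,y1,z0,y1,z3]),(z4,[y3,z1,z0,z1,z3])],.ref k12 k0 [(z1,[y6,z3,z0,z2]),(z1,[y9,z3,z1,
    z3]),(z1,[z12,y4,z0,y3]),(z1,[z6,y2,z0,y2,z3]),(z1,[y3,z1,z0,z1])],.ref k12 k0 [(z1,[y3,z1,y1,z0,y3,z3]),(z2,[y9,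
    z0,y1,z0,y9,z9]),(z1,[z6,z0,z2,z1,z6,y6]),(z1,[z3,z0,z1,z0,z6,y3]),(z2,[y3,z0,y1,z0,y3,z3])],.ref k12 k0 [(z1,[z6,
    y1,z0,z0,y6]),(z1,[z9,y3,z1,z0,y9]),(z1,[y12,z4,z0,z1,z12]),(z1,[y6,z2,z0,z0,z9]),(z1,[z3,y1,z0,z0,y3])],
    .ref k12 k0 [(z2,[z3,z1]),(z4,[z9,y3,z4]),(z1,[y3,z1,z0,z1]),(z2,[y3,z1,z0,z0,z6]),(z4,[z3,y1])],.ref k12 k0 [(z3,
    [z6,z3,z2,z2,z6,y6]),(z1,[z3,z0,z2,z1,z3,y3]),(z3,[y12,z0,y4,y1,y12,z12]),(z3,[y6,z0,y2,y2,z3,z6]),(z3,[z3,z0,z1,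
    z1,z3,y3])],.ref k12 k0 [(z1,[z3,z2,z2,z2,z6,y6]),(z2,[z9,z3,z8,z6,z18,y18]),(z1,[y6,y2,y4,y3,y12,z12]),(z1,[y3,
    y1,y2,y2,y3,z6]),(z2,[z3,z1,z2,z2,z6,y6])],.ref k12 k0 [(z1,[y6,y1,z0,z0,y6,z6]),(z1,[y9,y3,z1,z0,y9,z9]),(z1,
    [z12,z4,z0,z1,z12,y12]),(z1,[z6,z2,z0,z0,z9,y6]),(z1,[y3,y1,z0,z0,y3,z3])],.ref k12 k0 [(z3,[y3,z2,y1,z0,z0,z3]),
    (z2,[y3,y1,z1,z0,z0,z3]),(z3,[z6,z2,z2,z3,z0,y6]),(z3,[z3,z1,z1,z0,z9,y3]),(z6,[y3,y1,y1,z0,z0,z3])],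
    .ref k12 k0 [(z5,[y6,z5,z0,z2,z6]),(z5,[y9,z0,z5,z3,z9]),(z5,[z12,z0,z0,z1,y12]),(z5,[z6,z0,z0,y2,z9]),(z5,[y3,z0,
    z0,z1,z3])],.ref k12 k0 [(z1,[y3,z1,z0,z1]),(z2,[y9,z0,z2,z3]),(z1,[z6,z0,z0,y1]),(z1,[z3,z0,z0,y1,z3]),(z2,[y3,
    z0,z0,z1])],.ref k12 k0 [(z3,[y6,z1,y2,z0,y6,z6]),(z1,[y3,y1,z0,z0,y3,z3]),(z3,[z12,z4,z4,z3,z12,y12]),(z3,[z6,z2,
    z2,z0,z15,y6]),(z3,[y3,y1,y1,z0,y3,z3])],.ref k12 k0 [(z2,[y3,z0,y2,y1,y6,z6]),(z4,[y9,y6,y2,y3,y18,z18]),(z1,[z3,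
    z2,z2,z2,z6,y6]),(z2,[z3,z2,z2,z1,z12,y6]),(z4,[y3,y2,y2,y1,y6,z6])],.ref k12 k0 [(z1,[y6,y1,y2,y2,z0,z6]),(z1,
    [y9,y3,y2,y3,z0,z9]),(z1,[z12,z4,z4,z5,z0,y12]),(z1,[z6,z2,z2,z2,z3,y6]),(z1,[y3,y1,y1,y1,z0,z3])],
    .ref k12 k0 [(z1,[z2,z1]),(z1,[z3,z0,z1]),(z1,[y4,z0,z0,z1]),(z1,[y2,z0,z0,z0,z3]),(z1,[z1])],.ref k12 k0 [(z1,
    [z3,z2,z1,z1,z3,y3]),(z2,[z9,z3,z5,z3,z9,y9]),(z1,[y6,y2,y2,y1,y6,z6]),(z1,[y3,y1,y1,y1,z0,z3]),(z2,[z3,z1,z1,z1,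
    z3,y3])],.ref k12 k0 [(z1,[z6,z5,z4,z4,z12,y12]),(z1,[z9,z6,z7,z6,z18,y18]),(z1,[y12,y8,y8,y7,y24,z24]),(z1,[y6,
    y4,y4,y4,y9,z12]),(z1,[z3,z2,z2,z2,z6,y6])]]]

noncomputable def cT6_3_n5_3 : List TN :=
  [.lp [k160,k162,k178,k138,k164,k156] [k9,k9,k8,k8,k0,k0,k20,k20,k7,k7,k11,k11] k0 [[k0,k0,k0,k0,k0,k0,k20,k0,k24],[k0,
    k0,k0,k0,k0,k10],[k0,k0,k0,k0,k0,k0,k0,k0,k0,k0,k10],[k0,k0,k0,k0,k0,k14],[k10,k0,k14],[k0,k0,k0,k0,k0,k0,k0,k8,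
    k0,k8],[k0,k0,k0,k0,k8,k0,k0,k0,k2],[k0,k20,k0,k0,k0,k0,k0,k0,k0,k0,k0,k6],[k0,k0,k0,k0,k8,k0,k0,k0,k0,k0,k6],[k0,
    k24,k0,k0,k0,k0,k0,k2],[k0,k0,k0,k0,k0,k0,k6],[k0,k0,k0,k10,k0,k0,k0,k0,k0,k6]] (nat_lit 480) k5
    [[(k2,k151),(k6,k155),(k8,k156),(k10,k158),(k0,k160),(k4,k169)],[(k11,k134),(k9,k142),(k7,k159),(k1,k160),(k3,
    k161),(k5,k169)],[(k10,k159),(k4,k160),(k0,k161),(k2,k162),(k6,k170),(k8,k187)],[(k1,k151),(k11,k159),(k3,k162),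
    (k9,k163),(k7,k164),(k5,k170)],[(k6,k158),(k4,k164),(k0,k169),(k2,k170),(k8,k171),(k10,k177)],[(k7,k158),(k3,
    k160),(k5,k164),(k1,k169),(k11,k175),(k9,k179)],[(k6,k130),(k8,k143),(k10,k147),(k4,k158),(k0,k159),(k2,k164)],
    [(k7,k130),(k11,k145),(k9,k151),(k1,k155),(k5,k158),(k3,k170)],[(k0,k142),(k6,k151),(k10,k154),(k2,k163),(k8,
    k166),(k4,k179)],[(k7,k143),(k1,k156),(k11,k160),(k9,k166),(k5,k171),(k3,k187)],[(k0,k134),(k6,k145),(k2,k159),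
    (k8,k160),(k10,k162),(k4,k175)],[(k7,k147),(k9,k154),(k1,k158),(k3,k159),(k11,k162),(k5,k177)]]
    [] k0
    [[k2,k1,k0,k0,k0,k0],[k2,k0,k0,k1,k0,k0],[k2,k0,k0,k0,k1,k0],[k2,k0,k0,k0,k0,k1],[k1,k2,k0,k0,k0,k0],[k1,k1,k0,k0,
    k0,k1],[k1,k0,k0,k2,k0,k0],[k1,k0,k0,k1,k1,k0],[k1,k0,k0,k1,k0,k1],[k1,k0,k0,k0,k2,k0],[k1,k0,k0,k0,k1,k1],[k1,k0,
    k0,k0,k0,k2],[k0,k1,k0,k2,k0,k0],[k0,k1,k0,k1,k1,k0],[k0,k1,k0,k1,k0,k1],[k0,k0,k1,k2,k0,k0],[k0,k0,k0,k3,k0,k0],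
    [k0,k0,k0,k2,k1,k0],[k0,k0,k0,k2,k0,k1],[k0,k0,k0,k1,k2,k0],[k0,k0,k0,k1,k1,k1],[k0,k0,k0,k1,k0,k2],[k0,k0,k0,k0,
    k1,k2]]
    [.ref (nat_lit 225) k10 [(z1,[z1,y2,z0,y4]),(z1,[z0,z1,z0,z2]),(z1,[z2,y4,y1,y4]),(z1,[y1,z1,z0,z1,z1])],
    .ref (nat_lit 239) k11 [(z1,[z2,y3,y2]),(z1,[z4,y8,y5]),(z1,[y2,z3,z2,y1,z1]),(z1,[y3,z6,z4])],
    .ref (nat_lit 253) k7 [(z1,[z2,y2,z1,y5,y2]),(z1,[z1,y2,z0,y4]),(z1,[y2,z2,y1,z6,z2]),(z1,[z0,z1,z0,z2])],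
    .ref (nat_lit 225) k10 [(z2,[z1,y2,z1,y8]),(z1,[z0,z1,z0,z2]),(z1,[z1,y2,z0,y4]),(z2,[y1,z0,y1,z2,z2])],
    .ref k189 k6 [(z2,[y1,z1,z0,z2]),(z2,[y3,z3,z2]),(z1,[y1,z0,z0,y1,z1]),(z1,[z2,y2,y1])],
    .ref (nat_lit 232) k0 [(z1,[z4,y1,y2]),(z1,[y1,z1,z1]),(z1,[y2,z2,z1,z3]),(z1,[y1,y2,y1,y3,z3])],
    .ref k189 k6 [(z4,[z1,y1,y2,z4]),(z4,[z3,y3,y2]),(z2,[z1,y3,y2,y2,z2]),(z1,[y1,z1,z1])],.ref k189 k6 [(z3,[z1,z0,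
    y1,z4,y1]),(z1,[z1,z0,z0,z1,y1]),(z3,[z2,y3,y2,y1,z1]),(z3,[y4,z0,z1,y4,z4])],.ref (nat_lit 231) k1 [(z1,[z4,y4,
    y3]),(z1,[y2,y1,z0,y3,z3]),(z1,[y1,z1,z1]),(z1,[y1,z1,z0,z3])],.ref k189 k6 [(z2,[z1,z1,z0,z4,y2]),(z2,[z3,z3,z2,
    z6,y6]),(z1,[z1,z0,z0,z1,y1]),(z1,[y2,y2,y1,y4,z4])],.ref (nat_lit 225) k10 [(z1,[z1,z0,z1,y3,y1]),(z1,[z0,z1,z0,
    z2]),(z1,[z2,z0,z1,y2,y2]),(z1,[y1,y1,y1,z0,z2])],.ref k21 k2 [(z2,[z1,z7,z4,z8,y8]),(z2,[y1,y3,y2,y2,z4]),(z1,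
    [y1,y4,y2,y5,z5]),(z1,[z1,z4,z2,z4,y4])],.ref (nat_lit 232) k0 [(z1,[y4,z3,z2]),(z1,[z1]),(z1,[z2,z0,y1,z3]),(z1,
    [z1,y3,y2,y3,z3])],.ref k21 k2 [(z1,[y1,z3,z2,z3,y3]),(z1,[z1,y1,y1,z0,z1]),(z1,[z2,y3,y2,y3,z3]),(z1,[y2,z3,z2,
    z2,y2])],.ref k189 k6 [(z1,[y1,z0,z0,z1]),(z1,[y3,z0,z1]),(z1,[y2,y1,z0,y1,z1]),(z1,[z4,z0,y1])],.ref k16 k0 [(z1,
    [z2,z1,z0,y2]),(z1,[y4,z0,z1,z4]),(z1,[y1,z0,z0,z2]),(z1,[z1,z0,z0,y1])],.ref (nat_lit 254) k5 [(z1,[y1,z6,z3,z9,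
    y6]),(z1,[y2,z9,z6,z9,y9]),(z1,[z2,y9,y6,y12,z12]),(z1,[z0,y2,y1,y2,z2])],.ref k33 k0 [(z1,[z2,z4,z1,z2,y2]),(z1,
    [y1,y1,z0,y1,z1]),(z1,[y2,y2,y1,z2,z2]),(z1,[z2,z2,z1,z2,y2])],.ref k189 k6 [(z2,[z1,z0,y1,z2]),(z2,[z3,z0,y1]),
    (z1,[z1,y1,y1,y1,z1]),(z1,[y2,z0,z1])],.ref k16 k0 [(z1,[z2,z5,z2,z4,y4]),(z1,[y4,y8,y3,y8,z8]),(z1,[y1,y2,y1,y1,
    z2]),(z1,[z1,z2,z1,z2,y2])],.ref k189 k6 [(z1,[z1,z1,z0,z2,y1]),(z1,[z3,z3,z1,z3,y3]),(z1,[z2,z1,z0,z1,y1]),(z1,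
    [y4,y4,y1,y4,z4])],.ref k21 k2 [(z1,[z1,z4,z2,z4,y4]),(z1,[y1,y2,y1,y1,z2]),(z1,[y2,y5,y2,y5,z5]),(z1,[z2,z5,z2,
    z4,y4])],.ref (nat_lit 232) k0 [(z1,[z4,z7,z2,z4,y4]),(z1,[y1,y1,z0,y1,z1]),(z1,[y2,y2,y1,z1,z2]),(z1,[y1,y4,y2,
    y4,z4])]],
    .lp [k168,k160,k156,k162,k156,k156] [k12,k0,k14,k6,k12,k12,k9,k9,k12,k12,k12,k12] k0 [[k0,k0,k0,k0,k0,k0,k24,k0,k12,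
    k0,k8],[k0,k0,k0,k0,k0,k42],[k0,k0,k0,k0,k26],[k0,k0,k0,k0,k0,k0,k0,k0,k0,k14],[k42],[k0,k0,k0,k26,k0,k0,k0,k0,k0,
    k0,k0,k12],[k0,k0,k0,k0,k0,k0,k0,k0,k30],[k0,k24,k0,k0,k0,k0,k0,k0,k0,k0,k0,k18],[k0,k0,k14,k0,k0,k0,k0,k0,k0,k0,
    k48],[k0,k12,k0,k0,k0,k0,k0,k30],[k0,k0,k0,k0,k12,k0,k18],[k0,k8,k0,k0,k0,k0,k0,k0,k0,k48]] (nat_lit 480) k5
    [[(k8,k120),(k0,k160),(k2,k166),(k10,k168),(k4,k180),(k6,k189)],[(k9,k132),(k11,k144),(k5,k156),(k1,k160),(k3,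
    k162),(k7,(nat_lit 201))],[(k4,k120),(k2,k160),(k0,k162),(k10,k170),(k8,k174),(k6,k189)],[(k7,k131),(k5,k154),(k9,
    k154),(k3,k160),(k1,k166),(k11,k168)],[(k8,k142),(k2,k154),(k0,k156),(k10,k156),(k6,k159),(k4,k182)],[(k3,k120),
    (k9,k156),(k11,k156),(k7,k159),(k1,k180),(k5,k182)],[(k2,k131),(k10,k147),(k4,k159),(k8,k159),(k6,k162),(k0,
    (nat_lit 201))],[(k11,k129),(k5,k159),(k9,k159),(k7,k162),(k1,k189),(k3,k189)],[(k0,k132),(k10,k138),(k2,k154),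
    (k4,k156),(k6,k159),(k8,k186)],[(k1,k120),(k5,k142),(k11,k156),(k7,k159),(k3,k174),(k9,k186)],[(k6,k129),(k0,
    k144),(k4,k156),(k8,k156),(k2,k168),(k10,(nat_lit 204))],[(k9,k138),(k7,k147),(k5,k156),(k1,k168),(k3,k170),(k11,
    (nat_lit 204))]]
    [] k0
    [[k2,k0,k0,k0,k1,k0],[k2,k0,k0,k0,k0,k1],[k1,k1,k1,k0,k0,k0],[k1,k1,k0,k0,k1,k0],[k1,k0,k1,k0,k1,k0],[k1,k0,k0,k0,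
    k2,k0],[k1,k0,k0,k0,k1,k1],[k0,k2,k1,k0,k0,k0],[k0,k1,k2,k0,k0,k0],[k0,k1,k1,k1,k0,k0],[k0,k1,k1,k0,k1,k0],[k0,k1,
    k1,k0,k0,k1],[k0,k1,k0,k1,k1,k0],[k0,k1,k0,k1,k0,k1],[k0,k0,k1,k1,k1,k0],[k0,k0,k1,k1,k0,k1],[k0,k0,k1,k0,k1,k1],
    [k0,k0,k0,k2,k0,k1],[k0,k0,k0,k1,k1,k1]]
    [.ref (nat_lit 238) k6 [(z1,[y2,z1,z0,z1]),(z1,[z2,y2,y1]),(z1,[z1])],.ref (nat_lit 246) k3 [(z1,[y2,z0,z1]),(z1,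
    [z2,z1,y1,z1]),(z1,[y1,y1])],.ref (nat_lit 247) k10 [(z1,[z2,y1,z0,y1]),(z1,[y1,z1,z0,z1]),(z1,[y2,z1,z1,z1])],
    .ref (nat_lit 248) k4 [(z1,[y1,z1,z1]),(z1,[y1,z2,z1]),(z1,[z2,y2,y1])],.ref (nat_lit 248) k4 [(z1,[z1,z0,z1,y1]),
    (z1,[z1,z1,z1,y1]),(z1,[y2,z0,y1,z2])],.ref (nat_lit 247) k10 [(z1,[y2,z1,z0,z1]),(z1,[z1]),(z1,[z2,y1,z1,y1])],
    .ref (nat_lit 249) k7 [(z1,[z0,y1,y1,z1]),(z1,[z2,z1,y1,z1]),(z1,[z2,y1,z1,y1])],.ref (nat_lit 249) k7 [(z1,[z0,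
    y1,y1,z1]),(z1,[y1,z2,z0,z2]),(z1,[y1,z0,z2])],.ref k27 k6 [(z1,[z1]),(z1,[y1,y2,y2,z2]),(z1,[y1,z2,z0,z2])],
    .ref (nat_lit 249) k7 [(z1,[z0,y1,y1,z1]),(z1,[y2,z1,y1,z3]),(z1,[y2,y1,z1,z1])],.ref (nat_lit 238) k6 [(z1,[z2,
    y1,z0,y1]),(z1,[y2,z0,y1,z2]),(z1,[y1,z1,z0,z1])],.ref k27 k6 [(z1,[z2,z0,y1]),(z1,[y2,y2,y1,z2]),(z1,[y2,z2,z1,
    z2])],.ref (nat_lit 251) k2 [(z1,[z1,z0,y1]),(z1,[y2,y1,z1,z1]),(z1,[z0,z0,z1])],.ref (nat_lit 248) k4 [(z1,[y1,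
    z0,z1]),(z1,[y1,z1,z1]),(z1,[z2,z0,y1])],.ref (nat_lit 252) k0 [(z1,[y1,z0,y1,z1]),(z1,[z0,z0,z1]),(z1,[z2,z1,z1,
    y1])],.ref (nat_lit 248) k4 [(z1,[z1,z1,z1,y1]),(z1,[z1,z2,z1,y1]),(z1,[y2,y2,y1,z2])],
    .ref (nat_lit 255) k10 [(z1,[y2,z0,z1]),(z1,[z2,z1,y1,z1]),(z1,[z1])],.ref k27 k6 [(z1,[y2,y2,y1,z2]),(z1,[z2,z0,
    y1]),(z1,[z2,z4,z1])],.ref (nat_lit 247) k10 [(z1,[y2,y1,z0,z1]),(z1,[z1,z1]),(z1,[z2,z1,z1,y1])]],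
    .tor k1 false k0 [(z1,[y1,y1,y1,z1]),(z1,[z0,z2,z1]),(z1,[z0,y1,y1,z1]),(z1,[z1,z0,z1])],
    .leafM k0 [k1,k2,k3,k4,k5,k0] [(z1,[y1,y1,z0,z1])] [],
    .leafM k0 [k2,k3,k4,k5,k0,k1] [(z1,[y1,y1,y1,z1])] [],
    .tor k0 false k1 [(z1,[z0,z1,z1]),(z1,[z0,y1,z0,z1]),(z1,[z0,z1]),(z1,[z0,y1,y1,z1])],
    .lp [(nat_lit 320),(nat_lit 346),(nat_lit 312),(nat_lit 324),(nat_lit 270),(nat_lit 344)] [k33,k15,k22,k0,k18,k38,k22,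
    k22,k49,k49,k12,k12] k0 [[k0,k0,k14,k0,k0,k0,k14],[k0,k0,k0,k0,k0,k110],[k0,k0,k0,k0,k84,k0,k0,k0,k0,k0,k50],[k0,
    k14,k0,k0,k0,k0,k0,k0,k0,k18],[k110,k0,k0,k0,k0,k0,k0,k0,k42],[k0,k0,k0,k84,k0,k0,k0,k0,k0,k0,k0,k22],[k0,k0,k0,
    k0,k0,k0,k0,k0,k94],[k0,k14,k0,k0,k0,k0,k0,k0,k0,k0,k0,k18],[k0,k0,k18,k0,k0,k0,k0,k0,k0,k0,k64],[k0,k0,k0,k0,k0,
    k42,k0,k94],[k0,k0,k0,k0,k22,k0,k18],[k0,k0,k0,k50,k0,k0,k0,k0,k0,k64]] (nat_lit 960) k5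
    [[(k8,(nat_lit 240)),(k2,(nat_lit 281)),(k0,(nat_lit 320)),(k10,(nat_lit 341)),(k6,(nat_lit 349)),(k4,
    (nat_lit 357))],[(k9,(nat_lit 272)),(k5,(nat_lit 283)),(k1,(nat_lit 320)),(k11,(nat_lit 323)),(k3,(nat_lit 335)),
    (k7,(nat_lit 423))],[(k4,(nat_lit 240)),(k8,(nat_lit 319)),(k0,(nat_lit 335)),(k10,(nat_lit 356)),(k2,
    (nat_lit 360)),(k6,(nat_lit 360))],[(k7,(nat_lit 240)),(k1,(nat_lit 281)),(k9,(nat_lit 297)),(k5,(nat_lit 308)),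
    (k11,(nat_lit 352)),(k3,(nat_lit 360))],[(k8,(nat_lit 263)),(k0,(nat_lit 283)),(k2,(nat_lit 308)),(k6,
    (nat_lit 308)),(k10,(nat_lit 368)),(k4,(nat_lit 396))],[(k3,(nat_lit 240)),(k11,(nat_lit 296)),(k9,(nat_lit 301)),
    (k7,(nat_lit 328)),(k1,(nat_lit 357)),(k5,(nat_lit 396))],[(k2,(nat_lit 240)),(k10,(nat_lit 312)),(k6,
    (nat_lit 324)),(k4,(nat_lit 328)),(k8,(nat_lit 339)),(k0,(nat_lit 423))],[(k11,(nat_lit 240)),(k9,(nat_lit 297)),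
    (k5,(nat_lit 308)),(k7,(nat_lit 324)),(k1,(nat_lit 349)),(k3,(nat_lit 360))],[(k0,(nat_lit 272)),(k10,
    (nat_lit 289)),(k2,(nat_lit 297)),(k6,(nat_lit 297)),(k4,(nat_lit 301)),(k8,(nat_lit 364))],[(k1,(nat_lit 240)),
    (k5,(nat_lit 263)),(k11,(nat_lit 307)),(k3,(nat_lit 319)),(k7,(nat_lit 339)),(k9,(nat_lit 364))],[(k6,
    (nat_lit 240)),(k4,(nat_lit 296)),(k8,(nat_lit 307)),(k0,(nat_lit 323)),(k2,(nat_lit 352)),(k10,(nat_lit 408))],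
    [(k9,(nat_lit 289)),(k7,(nat_lit 312)),(k1,(nat_lit 341)),(k3,(nat_lit 356)),(k5,(nat_lit 368)),(k11,
    (nat_lit 408))]]
    [] k0
    [[k2,k1,k0,k0,k0,k0],[k2,k0,k0,k0,k1,k0],[k1,k1,k1,k0,k0,k0],[k1,k1,k0,k0,k1,k0],[k1,k0,k1,k0,k1,k0],[k1,k1,k0,k1,
    k0,k0],[k1,k0,k0,k0,k2,k0],[k1,k0,k0,k0,k1,k1],[k1,k0,k1,k0,k0,k1],[k0,k2,k1,k0,k0,k0],[k0,k1,k2,k0,k0,k0],[k0,k1,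
    k1,k1,k0,k0],[k0,k1,k1,k0,k1,k0],[k0,k1,k0,k2,k0,k0],[k0,k1,k0,k1,k1,k0],[k0,k1,k0,k1,k0,k1],[k0,k0,k1,k1,k1,k0],
    [k0,k0,k1,k1,k0,k1],[k0,k0,k1,k0,k2,k0],[k0,k0,k1,k0,k1,k1],[k0,k0,k0,k2,k0,k1],[k0,k0,k0,k1,k1,k1]]
    [.ref (nat_lit 257) k4 [(z1,[y1,z2,z1]),(z1,[z0,z1]),(z1,[z1,y2])],.ref k173 k7 [(z1,[z0,y1,y1,z1]),(z1,[z1,y1,z1,
    y1]),(z1,[y1,z1,z0,z1])],.ref (nat_lit 258) k3 [(z1,[z1,y1,z1,y1]),(z1,[z0,z1,y1,z1]),(z1,[z0,y1])],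
    .ref k191 k4 [(z1,[y1,z1,z1]),(z1,[z0,z1]),(z1,[z1,y1])],.ref (nat_lit 259) k9 [(z1,[z1,y1,z1,y1]),(z1,[z0,y1]),
    (z1,[z0,z1,y1,z1])],.ref (nat_lit 257) k4 [(z1,[y1,z1,z1]),(z1,[z0,z1]),(z1,[z1,y1])],.ref k27 k7 [(z1,[z0,y1,y1,
    z1]),(z1,[z2,y1,z1,y1]),(z1,[y2,z1,z3,z1])],.ref (nat_lit 258) k3 [(z1,[y1,z0,z1]),(z1,[z0,z1,y1,z1]),(z1,[z0,
    y1])],.ref k191 k4 [(z1,[z1,z0,z1,y1]),(z1,[z0,z1]),(z1,[y1,z0,z0,z1])],.ref (nat_lit 258) k3 [(z2,[z1,y1,z1,y1]),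
    (z1,[z0,z1,y1,z1]),(z1,[z0,y1])],.ref k60 k3 [(z1,[z1,y2,z2,y2]),(z1,[z0,z1,y1,z1]),(z1,[z0,y1])],
    .ref (nat_lit 258) k3 [(z1,[z1,z0,z1,y1]),(z1,[z0,z1,y1,z1]),(z1,[z0,y1])],.ref (nat_lit 260) k0 [(z1,[y1,z1,z0,
    z1]),(z1,[z0,z0,z1]),(z1,[z1,z0,y1])],.ref (nat_lit 257) k4 [(z1,[y1,z0,z1]),(z1,[z0,z1]),(z1,[z1])],
    .ref k191 k4 [(z1,[y1,z0,z1]),(z1,[z0,z1]),(z1,[z1])],.ref (nat_lit 259) k9 [(z1,[y1,y1,z1]),(z1,[z0,y1]),(z1,[z0,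
    z1,y1,z1])],.ref (nat_lit 259) k9 [(z1,[z1,z0,z1,y1]),(z1,[z0,y1]),(z1,[z0,z1,y1,z1])],.ref k191 k4 [(z1,[z1,z1,
    z1,y1]),(z1,[z0,z1]),(z1,[y1,y1,z0,z1])],.ref (nat_lit 259) k9 [(z2,[z1,y1,z1,y1]),(z1,[z0,y1]),(z1,[z0,z1,y1,
    z1])],.ref (nat_lit 257) k4 [(z1,[z1,z1,z1,y1]),(z1,[z0,z1]),(z1,[y1,y1,z0,z1])],.ref (nat_lit 260) k0 [(z1,[z1,
    z2]),(z1,[z0,z0,z1]),(z1,[y1,y1,y1,z1])],.ref (nat_lit 258) k3 [(z1,[y1,y1,z1]),(z1,[z0,z1,y1,z1]),(z1,[z0,y1])]],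
    .leafM k0 [k2,k3,k4,k5,k0,k1] [(z1,[y1,y1,y1,z1])] [],
    .tor k7 false k1 [(z1,[y2,y1,y2,z2]),(z1,[z1,z1]),(z1,[z0,z0,z1]),(z1,[z1,z0,z1])],
    .lp [k140,k168,k162,k162,k160,k166] [k14,k14,k0,k0,k3,k3,k3,k3,k4,k4,k1,k1] k0 [[k0,k0,k16,k0,k0,k0,k18],[k0,k0,k0,k0,
    k0,k12,k0,k0,k0,k0,k0,k14],[k0,k0,k0,k0,k0,k0,k0,k0,k2,k0,k12],[k0,k16],[k12],[k0,k0,k0,k0,k0,k0,k0,k24,k0,k28],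
    [k0,k0,k0,k0,k24],[k0,k18,k0,k0,k0,k0,k0,k0,k0,k0,k0,k12],[k0,k0,k0,k0,k28,k0,k0,k0,k0,k0,k8],[k0,k0,k0,k2],[k14,
    k0,k0,k0,k0,k0,k12],[k0,k0,k0,k12,k0,k0,k0,k0,k0,k8]] (nat_lit 480) k5
    [[(k2,k142),(k8,k142),(k4,k151),(k10,k153),(k0,k154),(k6,k163)],[(k9,k132),(k5,k135),(k11,k153),(k1,k154),(k3,
    k154),(k7,k163)],[(k4,k153),(k10,k153),(k0,k154),(k8,k164),(k6,k183),(k2,k184)],[(k1,k142),(k9,k164),(k5,k165),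
    (k7,k165),(k11,k165),(k3,k184)],[(k0,k135),(k4,k162),(k6,k162),(k8,k163),(k2,k165),(k10,k176)],[(k1,k151),(k3,
    k153),(k5,k162),(k7,k162),(k9,k185),(k11,k192)],[(k8,k133),(k6,k138),(k4,k162),(k0,k163),(k10,k164),(k2,k165)],
    [(k7,k138),(k9,k161),(k5,k162),(k1,k163),(k11,k164),(k3,k183)],[(k0,k132),(k10,k151),(k8,k160),(k6,k161),(k2,
    k164),(k4,k185)],[(k7,k133),(k1,k142),(k9,k160),(k5,k163),(k11,k163),(k3,k164)],[(k0,k153),(k8,k163),(k6,k164),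
    (k2,k165),(k10,k174),(k4,k192)],[(k9,k151),(k1,k153),(k3,k153),(k7,k164),(k11,k174),(k5,k176)]]
    [] k0
    [[k3,k0,k0,k0,k0,k0],[k2,k1,k0,k0,k0,k0],[k2,k0,k1,k0,k0,k0],[k2,k0,k0,k0,k1,k0],[k2,k0,k0,k0,k0,k1],[k1,k1,k1,k0,
    k0,k0],[k1,k1,k0,k0,k1,k0],[k1,k1,k0,k0,k0,k1],[k1,k0,k2,k0,k0,k0],[k1,k0,k1,k1,k0,k0],[k1,k0,k1,k0,k1,k0],[k1,k0,
    k0,k2,k0,k0],[k1,k0,k0,k1,k1,k0],[k1,k0,k0,k0,k2,k0],[k1,k0,k0,k0,k1,k1],[k0,k0,k1,k2,k0,k0],[k0,k0,k0,k3,k0,k0],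
    [k0,k0,k0,k2,k1,k0],[k0,k0,k0,k2,k0,k1],[k0,k0,k0,k1,k2,k0],[k0,k0,k0,k1,k1,k1],[k0,k0,k0,k0,k2,k1]]
    [.ref k12 k0 [(z1,[z1]),(z1,[z0,z0,z1]),(z1,[z0,z0,z0,z1]),(z1,[y2,z6,z0,z0,z3]),(z1,[z0,y3,y1,y1,y3,z3])],
    .ref k12 k0 [(z2,[z3,z0,y1]),(z1,[z0,z0,z1]),(z1,[z0,z0,z0,z1]),(z1,[y3,z6,z1,z0,z3]),(z1,[z0,y3,y1,y1,y3,z3])],
    .ref k12 k0 [(z2,[z3,z0,z0,y1]),(z1,[z0,z0,z1]),(z1,[z0,z0,z0,z1]),(z1,[y3,z6,z0,z1,z3]),(z1,[z0,y3,y1,y1,y3,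
    z3])],.ref k12 k0 [(z2,[z3,z3,z1,z1,z3,y3]),(z1,[z0,z0,z1]),(z1,[z0,z0,z0,z1]),(z1,[y3,z3,y1,y1,z0,z3]),(z1,[z0,
    y3,y1,y1,y3,z3])],.ref k12 k0 [(z1,[z1,z1]),(z1,[z0,z0,z1]),(z1,[z0,z0,z0,z1]),(z1,[y2,z4,z0,z0,z3]),(z1,[z0,y3,
    y1,y1,y3,z3])],.ref k12 k0 [(z1,[z3,z0,y1,y1]),(z1,[z0,z0,z1]),(z1,[z0,z0,z0,z1]),(z1,[y6,z6,z2,z2,z3]),(z1,[z0,
    y3,y1,y1,y3,z3])],.ref k12 k0 [(z1,[z3,z3,z0,z1,z3,y3]),(z1,[z0,z0,z1]),(z1,[z0,z0,z0,z1]),(z1,[y6,z0,z0,y2,y3,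
    z6]),(z1,[z0,y3,y1,y1,y3,z3])],.ref k12 k0 [(z2,[z3,z3,y1]),(z1,[z0,z0,z1]),(z1,[z0,z0,z0,z1]),(z1,[y3,z3,z1,z0,
    z3]),(z1,[z0,y3,y1,y1,y3,z3])],.ref k12 k0 [(z1,[z3,z0,z0,y2]),(z1,[z0,z0,z1]),(z1,[z0,z0,z0,z1]),(z1,[y6,z6,z0,
    z4,z3]),(z1,[z0,y3,y1,y1,y3,z3])],.ref k12 k0 [(z1,[y3,z6,z0,z1,z3]),(z1,[z0,z0,z1]),(z1,[z0,z0,z0,z1]),(z1,[z6,
    y6,z0,y2,y3]),(z1,[z0,y3,y1,y1,y3,z3])],.ref k12 k0 [(z1,[z3,z3,z1,z0,z3,y3]),(z1,[z0,z0,z1]),(z1,[z0,z0,z0,z1]),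
    (z1,[y6,z0,y2,z0,y3,z6]),(z1,[z0,y3,y1,y1,y3,z3])],.ref k12 k0 [(z1,[y1,z4,z0,z0,z2]),(z1,[z0,z0,z1]),(z1,[z0,z0,
    z0,z1]),(z1,[z2,y2,z0,z0,y1]),(z1,[z0,y3,y1,y1,y3,z3])],.ref k12 k0 [(z1,[y3,z3,y1,y1,z0,z3]),(z1,[z0,z0,z1]),(z1,
    [z0,z0,z0,z1]),(z1,[z6,z0,z2,z2,z3,y6]),(z1,[z0,y3,y1,y1,y3,z3])],.ref k12 k0 [(z1,[z3,z6,z2,z2,z6,y6]),(z1,[z0,
    z0,z1]),(z1,[z0,z0,z0,z1]),(z1,[y6,y6,y4,y4,y9,z12]),(z1,[z0,y3,y1,y1,y3,z3])],.ref k12 k0 [(z2,[z3,z6,z1,z1,z3,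
    y3]),(z1,[z0,z0,z1]),(z1,[z0,z0,z0,z1]),(z1,[y3,z0,y1,y1,z0,z3]),(z1,[z0,y3,y1,y1,y3,z3])],.ref k12 k0 [(z4,[y3,
    z12,z0,z1,z6]),(z1,[z0,z0,z1]),(z1,[z0,z0,z0,z1]),(z2,[z3,z0,z0,y1]),(z1,[z0,y3,y1,y1,y3,z3])],.ref k12 k0 [(z2,
    [y1,z6,z0,z0,z3]),(z1,[z0,z0,z1]),(z1,[z0,z0,z0,z1]),(z1,[z1]),(z1,[z0,y3,y1,y1,y3,z3])],.ref k12 k0 [(z4,[y3,z9,
    y1,y1,z3,z3]),(z1,[z0,z0,z1]),(z1,[z0,z0,z0,z1]),(z2,[z3,z3,z1,z1,z3,y3]),(z1,[z0,y3,y1,y1,y3,z3])],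
    .ref k12 k0 [(z1,[y1,z3,z0,z0,z2]),(z1,[z0,z0,z1]),(z1,[z0,z0,z0,z1]),(z1,[z2,z0,z0,z0,y1]),(z1,[z0,y3,y1,y1,y3,
    z3])],.ref k12 k0 [(z2,[y3,z0,y2,y2,y3,z6]),(z1,[z0,z0,z1]),(z1,[z0,z0,z0,z1]),(z1,[z3,z6,z2,z2,z6,y6]),(z1,[z0,
    y3,y1,y1,y3,z3])],.ref k12 k0 [(z1,[y3,z0,y1,y1,z0,z3]),(z1,[z0,z0,z1]),(z1,[z0,z0,z0,z1]),(z1,[z6,z6,z2,z2,z3,
    y6]),(z1,[z0,y3,y1,y1,y3,z3])],.ref k12 k0 [(z1,[z3,z9,z2,z2,z6,y6]),(z1,[z0,z0,z1]),(z1,[z0,z0,z0,z1]),(z1,[y6,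
    y12,y4,y4,y9,z12]),(z1,[z0,y3,y1,y1,y3,z3])]],
    .lp [k162,k166,k164,k160,k144,k162] [k2,k2,k0,k0,k1,k1,k3,k3,k11,k11,k2,k2] k0 [[k0,k0,k0,k0,k0,k0,k0,k0,k18],[k0,k0,
    k0,k0,k0,k2],[k0,k0,k0,k0,k0,k0,k0,k0,k0,k0,k10],[k0,k0,k0,k0,k0,k0,k0,k8,k0,k4],[k2],[k0,k0,k0,k0,k0,k0,k0,k0,k0,
    k28],[k0,k0,k8],[k0,k0,k0,k0,k0,k0,k0,k0,k0,k0,k0,k14],[k0,k0,k4,k0,k28],[k0,k18],[k0,k0,k0,k0,k0,k0,k14],[k0,k0,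
    k0,k10]] (nat_lit 480) k5
    [[(k8,k153),(k2,k154),(k0,k162),(k10,k162),(k4,k163),(k6,k175)],[(k11,k144),(k9,k153),(k1,k162),(k5,k163),(k7,
    k163),(k3,k164)],[(k4,k163),(k6,k163),(k0,k164),(k10,k164),(k2,k166),(k8,k173)],[(k1,k154),(k7,k163),(k9,k163),
    (k5,k165),(k3,k166),(k11,k168)],[(k8,k150),(k6,k154),(k0,k163),(k4,k164),(k2,k165),(k10,k173)],[(k9,k154),(k7,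
    k162),(k1,k163),(k3,k163),(k5,k164),(k11,k191)],[(k8,k124),(k6,k160),(k10,k161),(k4,k162),(k0,k163),(k2,k163)],
    [(k9,k152),(k5,k154),(k7,k160),(k11,k161),(k3,k163),(k1,k175)],[(k10,k139),(k8,k144),(k6,k152),(k0,k153),(k4,
    k154),(k2,k163)],[(k7,k124),(k9,k144),(k5,k150),(k1,k153),(k11,k153),(k3,k173)],[(k0,k144),(k8,k153),(k6,k161),
    (k10,k162),(k2,k168),(k4,k191)],[(k9,k139),(k7,k161),(k1,k162),(k11,k162),(k3,k164),(k5,k173)]]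
    [] k0
    [[k2,k0,k0,k0,k1,k0],[k2,k0,k0,k0,k0,k1],[k1,k1,k0,k0,k0,k1],[k1,k0,k1,k0,k1,k0],[k1,k0,k0,k1,k1,k0],[k1,k0,k0,k0,
    k2,k0],[k1,k0,k0,k0,k1,k1],[k1,k0,k0,k0,k0,k2],[k0,k1,k1,k0,k1,k0],[k0,k1,k0,k1,k1,k0],[k0,k0,k2,k0,k1,k0],[k0,k0,
    k1,k2,k0,k0],[k0,k0,k1,k1,k1,k0],[k0,k0,k1,k0,k2,k0],[k0,k0,k0,k2,k1,k0],[k0,k0,k0,k1,k2,k0],[k0,k0,k0,k1,k1,k1],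
    [k0,k0,k0,k0,k3,k0],[k0,k0,k0,k0,k2,k1],[k0,k0,k0,k0,k1,k2]]
    [.ref k122 k0 [(z1,[z0,z1]),(z1,[z0,z0,z1]),(z1,[y3,z2,z0,z3]),(z1,[z0,y1,y1,y3,z3])],.ref k22 k4 [(z1,[z3,y2]),
    (z1,[z0,z1]),(z1,[z0,z0,z1]),(z1,[y3,z2,z0,z3])],.ref k22 k4 [(z1,[z3,y1,y1]),(z1,[z0,z1]),(z1,[z0,z0,z1]),(z1,
    [y3,z1,z1,z3])],.ref k22 k4 [(z1,[y3,z1,z0,z3]),(z1,[z0,z1]),(z1,[z0,z0,z1]),(z1,[z3,y1])],.ref k122 k0 [(z1,[z0,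
    z1]),(z1,[z0,z0,z1]),(z1,[y3,z0,y1,z0,z3]),(z1,[z0,y1,y1,y3,z3])],.ref k122 k0 [(z1,[z0,z1]),(z1,[z0,z0,z1]),(z2,
    [y3,z1,z0,z6]),(z1,[z0,y1,y1,y3,z3])],.ref k9 k0 [(z1,[z0,z1]),(z1,[z0,z0,z1]),(z1,[y3,z1,z0,z3]),(z1,[z0,y1,y1,
    y3,z3])],.ref k22 k4 [(z2,[z3,y1]),(z1,[z0,z1]),(z1,[z0,z0,z1]),(z2,[y3,z1,z0,z6])],.ref k22 k4 [(z1,[y3,z0,z1,
    z3]),(z1,[z0,z1]),(z1,[z0,z0,z1]),(z1,[z3,z0,y1])],.ref k122 k0 [(z1,[z0,z1]),(z1,[z0,z0,z1]),(z1,[y3,y1,z0,z0,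
    z3]),(z1,[z0,y1,y1,y3,z3])],.ref k110 k6 [(z1,[z1,z0,z0,y1]),(z1,[z0,y1,y1,y3,z3]),(z1,[y1,z0,z0,z2]),(z1,[z0,
    z1])],.ref k9 k0 [(z1,[z0,z1]),(z1,[z0,z0,z1]),(z1,[z3,z2,z2,z6,y6]),(z1,[z0,y1,y1,y3,z3])],.ref k22 k4 [(z1,[y3,
    y1,y1,z0,z3]),(z1,[z0,z1]),(z1,[z0,z0,z1]),(z1,[z3,z1,z1,z3,y3])],.ref (nat_lit 264) k4 [(z1,[y1,z0,z0,z1]),(z1,
    [z0,z1]),(z1,[z0,z0,z1]),(z1,[z1])],.ref k122 k0 [(z1,[z0,z1]),(z1,[z0,z0,z1]),(z1,[y3,y2,y2,y3,z6]),(z1,[z0,y1,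
    y1,y3,z3])],.ref k122 k0 [(z1,[z0,z1]),(z1,[z0,z0,z1]),(z2,[y3,y1,y1,z3,z3]),(z1,[z0,y1,y1,y3,z3])],
    .ref k9 k0 [(z1,[z0,z1]),(z1,[z0,z0,z1]),(z1,[y3,y1,y1,z0,z3]),(z1,[z0,y1,y1,y3,z3])],.ref k122 k0 [(z1,[z0,z1]),
    (z1,[z0,z0,z1]),(z1,[y1,z0,z0,z3]),(z1,[z0,y1,y1,y3,z3])],.ref k149 k5 [(z1,[y1,z0,z0,z1]),(z1,[z0,z0,z1]),(z1,
    [z0,z1]),(z1,[z1])],.ref k110 k6 [(z1,[y1,z0,z0,z1]),(z1,[z0,y1,y1,y3,z3]),(z1,[z1]),(z1,[z0,z1])]],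
    .lp [(nat_lit 322),(nat_lit 340),(nat_lit 296),(nat_lit 338),(nat_lit 320),(nat_lit 300)] [k9,k9,k0,k0,k22,k22,k1,k1,
    k10,k10,k20,k20] k0 [[k0,k0,k20,k0,k0,k0,k0,k0,k4],[k0,k0,k0,k0,k0,k0,k0,k0,k0,k0,k0,k40],[k0,k0,k0,k0,k78,k0,k0,
    k0,k0,k0,k26],[k0,k20,k0,k0,k0,k0,k0,k40],[k0,k0,k0,k0,k0,k0,k30],[k0,k0,k0,k78,k0,k0,k0,k0,k0,k66],[k0,k0,k40],
    [k0,k0,k0,k0,k0,k30,k0,k0,k0,k0,k0,k4],[k0,k0,k0,k0,k66,k0,k0,k0,k0,k0,k44],[k0,k4],[k40,k0,k0,k0,k0,k0,k4],[k0,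
    k0,k0,k26,k0,k0,k0,k0,k0,k44]] (nat_lit 960) k5
    [[(k8,(nat_lit 277)),(k2,(nat_lit 305)),(k4,(nat_lit 309)),(k10,(nat_lit 311)),(k6,(nat_lit 334)),(k0,
    (nat_lit 362))],[(k5,(nat_lit 289)),(k11,(nat_lit 307)),(k9,(nat_lit 321)),(k7,(nat_lit 330)),(k3,(nat_lit 331)),
    (k1,(nat_lit 362))],[(k10,(nat_lit 280)),(k4,(nat_lit 318)),(k0,(nat_lit 331)),(k8,(nat_lit 334)),(k6,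
    (nat_lit 339)),(k2,(nat_lit 360))],[(k7,(nat_lit 261)),(k1,(nat_lit 305)),(k5,(nat_lit 318)),(k11,(nat_lit 320)),
    (k3,(nat_lit 360)),(k9,(nat_lit 370))],[(k6,(nat_lit 277)),(k0,(nat_lit 289)),(k8,(nat_lit 308)),(k2,
    (nat_lit 318)),(k10,(nat_lit 324)),(k4,(nat_lit 374))],[(k9,(nat_lit 278)),(k1,(nat_lit 309)),(k7,(nat_lit 317)),
    (k3,(nat_lit 318)),(k11,(nat_lit 364)),(k5,(nat_lit 374))],[(k2,(nat_lit 261)),(k8,(nat_lit 263)),(k4,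
    (nat_lit 317)),(k10,(nat_lit 319)),(k0,(nat_lit 330)),(k6,(nat_lit 368))],[(k5,(nat_lit 277)),(k11,(nat_lit 319)),
    (k9,(nat_lit 329)),(k1,(nat_lit 334)),(k3,(nat_lit 339)),(k7,(nat_lit 368))],[(k4,(nat_lit 278)),(k10,
    (nat_lit 306)),(k8,(nat_lit 320)),(k0,(nat_lit 321)),(k6,(nat_lit 329)),(k2,(nat_lit 370))],[(k7,(nat_lit 263)),
    (k1,(nat_lit 277)),(k5,(nat_lit 308)),(k11,(nat_lit 310)),(k9,(nat_lit 320)),(k3,(nat_lit 334))],[(k0,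
    (nat_lit 307)),(k8,(nat_lit 310)),(k6,(nat_lit 319)),(k2,(nat_lit 320)),(k10,(nat_lit 344)),(k4,(nat_lit 364))],
    [(k3,(nat_lit 280)),(k9,(nat_lit 306)),(k1,(nat_lit 311)),(k7,(nat_lit 319)),(k5,(nat_lit 324)),(k11,
    (nat_lit 344))]]
    [] k0
    [[k1,k1,k1,k0,k0,k0],[k1,k1,k0,k0,k0,k1],[k1,k0,k1,k1,k0,k0],[k1,k0,k1,k0,k1,k0],[k1,k0,k1,k0,k0,k1],[k1,k1,k0,k1,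
    k0,k0],[k1,k0,k0,k1,k1,k0],[k1,k0,k0,k0,k2,k0],[k1,k0,k0,k0,k1,k1],[k0,k1,k1,k1,k0,k0],[k0,k1,k1,k0,k1,k0],[k0,k1,
    k0,k1,k1,k0],[k0,k1,k0,k1,k0,k1],[k0,k1,k0,k0,k0,k2],[k0,k0,k1,k1,k1,k0],[k0,k0,k1,k0,k2,k0],[k0,k0,k1,k0,k1,k1],
    [k0,k0,k0,k1,k2,k0],[k0,k0,k0,k1,k1,k1],[k0,k0,k0,k0,k2,k1]]
    [.ref k158 k8 [(z1,[y1,z1,z1]),(z1,[z0,y1,y1,z1]),(z1,[y1,z2,z1])],.ref (nat_lit 262) k10 [(z1,[z2,z0,z1,y2]),(z1,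
    [y1,z1,z0,z1]),(z1,[z0,y1,y1,z1])],.ref (nat_lit 262) k10 [(z1,[y2,z2,z1]),(z1,[z1]),(z1,[z0,y1,y1,z1])],
    .ref (nat_lit 248) k9 [(z1,[z0,y1]),(z1,[y1,y2,y1,z1]),(z1,[z1,z1])],.ref k191 k9 [(z1,[z0,y1]),(z1,[y1,y1,y1,
    z1]),(z1,[z1])],.ref k191 k9 [(z1,[z0,y1]),(z1,[z1,y2,y1]),(z1,[y1,z1,z0,z1])],.ref (nat_lit 263) k7 [(z1,[z1,y1,
    y1]),(z1,[z0,z0,z1]),(z1,[y1,z0,z0,z1])],.ref (nat_lit 265) k10 [(z1,[y2,z2,z3]),(z1,[z1,z2]),(z1,[z0,y1,y1,z1])],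
    .ref (nat_lit 208) k5 [(z1,[y1,z0,y1,z1]),(z1,[z0,z0,z1]),(z1,[z0,z1])],.ref (nat_lit 208) k5 [(z1,[z1,z0,y1]),
    (z1,[z0,z0,z1]),(z1,[z0,z1])],.ref k158 k8 [(z1,[y1,z0,z1]),(z1,[z0,y1,y1,z1]),(z1,[y1,z1,z1])],.ref k191 k9 [(z1,
    [z0,y1]),(z1,[z1,y1,y1]),(z1,[y1,z0,z0,z1])],.ref (nat_lit 248) k9 [(z1,[z0,y1]),(z1,[z1,y2,y1]),(z1,[y1,z1,z0,
    z1])],.ref (nat_lit 262) k10 [(z1,[z1,z2,z2,y2]),(z2,[y1,z0,y1,z2]),(z1,[z0,y1,y1,z1])],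
    .ref (nat_lit 262) k10 [(z1,[y2,z0,z1]),(z1,[z1,z1]),(z1,[z0,y1,y1,z1])],.ref (nat_lit 248) k9 [(z1,[z0,y1]),(z1,
    [y1,y3,y1,z1]),(z1,[z1,z2])],.ref k191 k9 [(z1,[z0,y1]),(z1,[y1,y2,y1,z1]),(z1,[z1,z1])],
    .ref (nat_lit 263) k7 [(z1,[z1,z0,y1]),(z1,[z0,z0,z1]),(z1,[y1,y1,z0,z1])],.ref k158 k8 [(z1,[z1,z1,z1,y1]),(z1,
    [z0,y1,y1,z1]),(z1,[z1,z2,z1,y1])],.ref (nat_lit 208) k5 [(z1,[y1,y1,y1,z1]),(z1,[z0,z0,z1]),(z1,[z0,z1])]]]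

noncomputable def cT6_3_n5_4 : List TN :=
  [.leafM k0 [k0,k1,k2,k3,k4,k5] [(z1,[z0,z1,z1])] [],
    .leafM k0 [k2,k3,k4,k5,k0,k1] [(z1,[y1,y1,z0,z1])] [],
    .leafM k1 [k0,k1,k2,k3,k4,k5] [(z1,[z0,z1]),(z1,[z0,y1,z0,z1])] [],
    .lp [k164,k164,k164,k152,k140,k174] [k5,k5,k5,k5,k5,k5,k11,k11,k25,k9,k0,k0] k0 [[k0,k0,k0,k0,k0,k0,k0,k0,k0,k0,k2],
    [k0,k0,k0,k20,k0,k0,k0,k0,k0,k10],[k20],[k0,k0,k0,k0,k0,k0,k0,k0,k0,k0,k0,k22],[k0,k0,k0,k0,k0,k0,k40],[k0,k0,k0,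
    k0,k0,k0,k0,k0,k0,k4],[k0,k0,k0,k0,k0,k0,k0,k0,k6,k0,k20],[k0,k0,k0,k0,k0,k40],[k10,k0,k0,k0,k4],[k0,k0,k0,k0,k0,
    k0,k0,k6,k0,k0,k0,k14],[k0,k0,k22,k0,k0,k0,k0,k0,k14],[k0,k2,k0,k0,k0,k0,k0,k20]] (nat_lit 480) k5
    [[(k6,k138),(k8,k158),(k0,k162),(k4,k164),(k10,k169),(k2,k186)],[(k7,k158),(k9,k160),(k1,k162),(k3,k164),(k11,
    k179),(k5,k184)],[(k8,k134),(k2,k144),(k6,k158),(k0,k164),(k4,k164),(k10,k171)],[(k3,k144),(k7,k158),(k9,k160),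
    (k5,k164),(k11,k169),(k1,k186)],[(k8,k144),(k10,k147),(k6,k158),(k2,k164),(k4,k164),(k0,k184)],[(k9,k120),(k7,
    k158),(k1,k164),(k3,k164),(k5,k164),(k11,k173)],[(k8,k134),(k0,k158),(k2,k158),(k4,k158),(k10,k163),(k6,k192)],
    [(k1,k138),(k9,k154),(k11,k157),(k3,k158),(k5,k158),(k7,k192)],[(k4,k120),(k8,k146),(k6,k154),(k0,k160),(k2,k160),
    (k10,k185)],[(k3,k134),(k7,k134),(k5,k144),(k9,k146),(k11,k149),(k1,k158)],[(k8,k149),(k6,k157),(k10,k160),(k2,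
    k169),(k4,k173),(k0,k179)],[(k5,k147),(k11,k160),(k7,k163),(k1,k169),(k3,k171),(k9,k185)]]
    [] k0
    [[k2,k0,k0,k1,k0,k0],[k1,k0,k1,k0,k1,k0],[k1,k1,k0,k1,k0,k0],[k1,k0,k0,k1,k1,k0],[k1,k0,k0,k0,k2,k0],[k1,k0,k0,k0,
    k1,k1],[k0,k3,k0,k0,k0,k0],[k0,k2,k1,k0,k0,k0],[k0,k2,k0,k1,k0,k0],[k0,k2,k0,k0,k1,k0],[k0,k1,k1,k0,k1,k0],[k0,k1,
    k0,k1,k1,k0],[k0,k1,k0,k0,k2,k0],[k0,k0,k2,k0,k1,k0],[k0,k0,k1,k1,k1,k0],[k0,k0,k1,k0,k2,k0],[k0,k0,k1,k1,k0,k1],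
    [k0,k0,k1,k0,k1,k1],[k0,k0,k0,k1,k2,k0],[k0,k0,k0,k1,k1,k1],[k0,k0,k0,k0,k3,k0]]
    [.ref k12 k0 [(z1,[z2,y1,z0,z0,y2]),(z4,[y13,z26,z6,z0,z13]),(z1,[z2,y4,z0,z3,y2]),(z1,[y1,z2,z0,z0,z4]),(z4,[y1,
    y10,y6,y12,y11,z12])],.ref k12 k0 [(z5,[z8,z15,z4,z0,z8,y8]),(z5,[y13,z0,z1,z0,y13,z13]),(z5,[z8,z0,z4,z15,z8,
    y8]),(z5,[y4,z0,y2,z0,z11,z4]),(z5,[y1,y15,y8,y15,y16,z16])],.ref k12 k0 [(z3,[y8,z17,z4,z0,z8]),(z3,[z13,y13,y2,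
    z0,y13]),(z3,[y8,z8,z4,z9,z8]),(z3,[z4,y4,y2,z0,z5]),(z3,[z1,y10,y5,y9,y10,z9])],.ref k12 k0 [(z1,[z8,z3,z4,z8,z0,
    y8]),(z1,[y13,z0,y5,y13,z0,z13]),(z1,[z8,z0,z4,z11,z0,y8]),(z1,[y4,z0,y2,y4,z3,z4]),(z1,[y1,y3,y2,y4,y3,z4])],
    .ref k12 k0 [(z1,[z4,z7,z4,z8,z8,y8]),(z2,[y13,y13,y10,y26,y26,z26]),(z1,[z4,z4,z4,z11,z8,y8]),(z1,[y2,y2,y2,y4,
    y1,z4]),(z2,[y1,y7,y4,y8,y8,z8])],.ref k12 k0 [(z3,[z8,z9,z4,z8,z8,y8]),(z3,[y13,z0,y2,y13,y13,z13]),(z3,[z8,z0,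
    z4,z17,z8,y8]),(z3,[y4,z0,y2,y4,z5,z4]),(z3,[y1,y9,y5,y10,y10,z10])],.ref k12 k0 [(z13,[y8,z39,z12]),(z1,[z1]),
    (z13,[y8,z0,z12,z39]),(z13,[z4,z0,y6,z0,z39]),(z13,[z1,y39,y21,y39,y39,z39])],.ref k12 k0 [(z3,[y4,z9,z4,z4]),(z6,
    [z13,z0,y4,y13]),(z3,[y4,z0,z4,z13]),(z3,[z2,z0,y2,y2,z9]),(z6,[z1,y18,y10,y19,y18,z18])],.ref k12 k0 [(z5,[y4,
    z15,z4,z0,z4]),(z10,[z13,z0,z2,z0,y13]),(z5,[y4,z0,z4,z15,z4]),(z5,[z2,z0,y2,z0,z13]),(z10,[z1,y30,y16,y30,y31,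
    z30])],.ref k12 k0 [(z9,[y8,z19,z4,y8,y8,z8]),(z9,[z13,z13,z7,z13,z13,y13]),(z9,[y8,y8,z4,z19,y8,z8]),(z9,[z4,z4,
    y2,z4,z31,y4]),(z9,[z1,y26,y14,y26,y26,z26])],.ref k12 k0 [(z1,[y4,y1,z0,z0,y4,z4]),(z2,[z13,z13,z3,z0,z13,y13]),
    (z1,[y4,y4,z0,z3,y4,z4]),(z1,[z2,z2,z0,z0,z5,y2]),(z2,[z1,y5,y3,y6,y5,z5])],.ref k12 k0 [(z3,[y4,z5,z0,y4,z0,z4]),
    (z6,[z13,z13,z9,z13,z0,y13]),(z3,[y4,y4,z0,z5,z0,z4]),(z3,[z2,z2,z0,z2,z9,y2]),(z6,[z1,y17,y9,y17,y18,z17])],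
    .ref k12 k0 [(z5,[y8,y1,y4,y16,y16,z16]),(z5,[z13,z26,z14,z26,z26,y26]),(z5,[y8,y16,y4,y1,y16,z16]),(z5,[z4,z8,z2,
    z8,z23,y8]),(z5,[z1,y13,y7,y13,y13,z13])],.ref k12 k0 [(z5,[z8,z23,z4,y8,z8,y8]),(z5,[y13,y13,z1,z13,y13,z13]),
    (z5,[z8,z8,z4,z7,z8,y8]),(z5,[y4,y4,y2,z4,z11,z4]),(z5,[y1,y16,y8,y14,y16,z16])],.ref k12 k0 [(z1,[z8,z11,z4,z0,
    z0,y8]),(z1,[y13,y13,y5,z0,z0,z13]),(z1,[z8,z8,z4,z3,z0,y8]),(z1,[y4,y4,y2,z0,z3,z4]),(z1,[y1,y4,y2,y3,y3,z4])],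
    .ref k12 k0 [(z1,[z4,z11,z4,z4,z8,y8]),(z2,[y13,y26,y10,y13,y26,z26]),(z1,[z4,z8,z4,z7,z8,y8]),(z1,[y2,y4,y2,y2,
    y1,z4]),(z2,[y1,y8,y4,y7,y8,z8])],.ref k12 k0 [(z1,[z4,z3,z0,y4,y4]),(z2,[y13,z0,z3,z13,z13]),(z1,[z4,z0,z0,y1,
    y4]),(z1,[y2,z0,z0,z2,z5]),(z2,[y1,y6,y3,y5,y5,z6])],.ref k12 k0 [(z3,[z8,z17,z4,z0,z8,y8]),(z3,[y13,y13,y2,z0,
    y13,z13]),(z3,[z8,z8,z4,z9,z8,y8]),(z3,[y4,y4,y2,z0,z5,z4]),(z3,[y1,y10,y5,y9,y10,z10])],.ref k12 k0 [(z1,[y4,y5,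
    y4,y8,y4,z8]),(z2,[z13,z26,z16,z26,z13,y26]),(z1,[y4,y8,y4,y5,y4,z8]),(z1,[z2,z4,z2,z4,z5,y4]),(z2,[z1,y4,y2,y4,
    y5,z4])],.ref k12 k0 [(z1,[y8,y5,y4,y8,z0,z8]),(z1,[z13,z13,z8,z13,z0,y13]),(z1,[y8,y8,y4,y5,z0,z8]),(z1,[z4,z4,
    z2,z4,z3,y4]),(z1,[z1,y2,y1,y2,y3,z2])],.ref k12 k0 [(z1,[y8,y21,y12,y24,y24,z24]),(z1,[z13,z39,z21,z39,z39,y39]),
    (z1,[y8,y24,y12,y21,y24,z24]),(z1,[z4,z12,z6,z12,z15,y12]),(z1,[z1])]],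
    .leafM k1 [k0,k1,k2,k3,k4,k5] [(z1,[z0,z1,z0,z1]),(z1,[z0,y1,z0,y1,z1])] []]

/-- the nodes with numbers from 219 -/
noncomputable def cT6_3_n5 : List TN :=
  cT6_3_n5_0 ++ (cT6_3_n5_1 ++ (cT6_3_n5_2 ++ (cT6_3_n5_3 ++ cT6_3_n5_4)))

theorem cT6_3_k5 : allI (chkT 6 cT6_3_w tt6 cT6_3_s (blkF [] cT6_3_D)) cT6_3_n5 219 = true := by
  decide +kernel

end Pool.Agent.Lib_MP_fa6e45
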