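import Pool.Agent.Lib_MP_fa6e45.CG6_2d

/-!
MP_fa6e45_co, stage 5: certificates (captain, generated by a program).
-/

namespace Pool.Agent.Lib_MP_fa6e45

noncomputable def cT6_3_n6_0 : List TN :=
  [.lp [k174,k162,k140,k178,k130,k174] [k2,k2,k8,k8,k19,k19,k0,k0,k24,k24,k2,k2] k0 [[k0,k0,k0,k0,k0,k0,k0,k0,k0,k0,k14],
    [k0,k0,k0,k26],[k26],[k0,k0,k0,k0,k0,k0,k0,k0,k0,k12,k0,k8],[],[],[k0,k0,k0,k0,k0,k0,k0,k0,k46,k0,k2],[],[k0,k0,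
    k12],[k0,k0,k0,k0,k0,k0,k0,k46],[k0,k0,k8],[k0,k14,k0,k0,k0,k0,k0,k2]] (nat_lit 480) k5
    [[(k8,k152),(k4,k157),(k0,k160),(k6,k174),(k10,k174),(k2,k176)],[(k9,k152),(k1,k160),(k3,k168),(k11,k174),(k7,
    k176),(k5,k183)],[(k2,k136),(k8,k146),(k4,k151),(k0,k168),(k6,k170),(k10,k182)],[(k3,k136),(k9,k146),(k5,k151),
    (k7,k170),(k1,k176),(k11,k180)],[(k8,k123),(k4,k140),(k10,k149),(k2,k151),(k6,k159),(k0,k183)],[(k9,k135),(k5,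
    k140),(k3,k151),(k1,k157),(k11,k157),(k7,k159)],[(k8,k154),(k4,k159),(k2,k170),(k0,k176),(k10,k176),(k6,k178)],
    [(k11,k130),(k9,k154),(k5,k159),(k3,k170),(k1,k174),(k7,k178)],[(k4,k135),(k2,k146),(k0,k152),(k6,k154),(k10,
    k154),(k8,k176)],[(k5,k123),(k3,k146),(k1,k152),(k11,k152),(k7,k154),(k9,k176)],[(k6,k130),(k8,k152),(k4,k157),
    (k0,k174),(k10,k174),(k2,k180)],[(k5,k149),(k9,k154),(k1,k174),(k11,k174),(k7,k176),(k3,k182)]]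
    [] k0
    [[k2,k0,k0,k0,k1,k0],[k1,k1,k0,k0,k1,k0],[k1,k1,k1,k0,k0,k0],[k1,k0,k1,k0,k1,k0],[k1,k0,k0,k0,k1,k1],[k0,k3,k0,k0,
    k0,k0],[k0,k2,k1,k0,k0,k0],[k0,k2,k0,k1,k0,k0],[k0,k2,k0,k0,k1,k0],[k0,k1,k2,k0,k0,k0],[k0,k1,k1,k0,k1,k0],[k0,k1,
    k0,k1,k1,k0],[k0,k1,k0,k0,k2,k0],[k0,k0,k3,k0,k0,k0],[k0,k0,k2,k1,k0,k0],[k0,k0,k2,k0,k1,k0],[k0,k0,k2,k0,k0,k1],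
    [k0,k0,k1,k1,k1,k0],[k0,k0,k1,k0,k2,k0],[k0,k0,k1,k0,k1,k1],[k0,k0,k1,k1,k0,k1],[k0,k0,k0,k1,k1,k1]]
    [.ref k12 k0 [(z1,[z2,z1,z2,z2,z2,y2]),(z1,[y4,z4,y1,y4,y4,z4]),(z2,[z7,y7,z7,z13,z7,y7]),(z1,[y1,z1,y1,y1,z2,
    z1]),(z1,[y1,y2,y4,y4,y4,z4])],.ref k12 k0 [(z1,[y2,z3,z0,y2,y2,z2]),(z1,[z4,z0,z3,z4,z4,y4]),(z2,[y7,z0,z0,y1,y7,
    z7]),(z1,[z1,z0,z0,z1,z4,y1]),(z1,[z1,y3,y3,y2,y2,z2])],.ref k12 k0 [(z1,[z4,y1,y4,y4]),(z1,[y8,z8,z11,z8]),(z1,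
    [z7,y7,y7,y4]),(z1,[y2,z2,z2,z2,z3]),(z1,[y2,y1,y1,y1,y3,z3])],.ref k12 k0 [(z3,[z4,z9,z4,z0,z4,y4]),(z3,[y8,z0,
    z1,z0,y8,z8]),(z3,[z7,z0,z7,z9,z7,y7]),(z3,[y2,z0,y2,z0,z7,z2]),(z3,[y2,y9,y11,y9,y11,z11])],.ref k12 k0 [(z1,[z4,
    z3,z4,z4,z4,y4]),(z1,[y8,z0,y5,y8,y8,z8]),(z1,[z7,z0,z7,z10,z7,y7]),(z1,[y2,z0,y2,y2,z1,z2]),(z1,[y2,y3,y5,y5,y5,
    z5])],.ref k12 k0 [(z2,[y1,z6,z3]),(z1,[z1]),(z8,[y7,z0,z21,z24]),(z4,[z1,z0,y3,z0,z12]),(z4,[z1,y12,y15,y12,y12,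
    z12])],.ref k12 k0 [(z3,[y4,z9,z8,z4]),(z3,[z8,z0,y7,y8]),(z3,[y7,z0,z14,z16]),(z3,[z2,z0,y4,y2,z9]),(z3,[z2,y9,
    y13,y11,y9,z9])],.ref k12 k0 [(z3,[y2,z9,z4,z0,z2]),(z3,[z4,z0,z1,z0,y4]),(z6,[y7,z0,z14,z18,z7]),(z3,[z1,z0,y2,
    z0,z8]),(z3,[z1,y9,y11,y9,y10,z9])],.ref k12 k0 [(z3,[y2,z7,z2,y2,y2,z2]),(z3,[z4,z4,z5,z4,z4,y4]),(z6,[y7,y7,z7,
    z11,y7,z7]),(z3,[z1,z1,y1,z1,z10,y1]),(z3,[z1,y8,y10,y8,y8,z8])],.ref k12 k0 [(z1,[z2,z3,y2,y4]),(z1,[y4,z0,z7,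
    z8]),(z2,[z7,z0,y7,y8]),(z1,[y1,z0,z1,z2,z3]),(z1,[y1,y3,y2,y1,y3,z3])],.ref k12 k0 [(z1,[y4,y1,z0,z0,y4,z4]),(z1,
    [z8,z8,z3,z0,z8,y8]),(z1,[y7,y7,z0,z3,y7,z7]),(z1,[z2,z2,z0,z0,z5,y2]),(z1,[z2,y1,y3,y3,y1,z1])],.ref k12 k0 [(z1,
    [y1,z2,z0,y1,z0,z1]),(z1,[z2,z2,z3,z2,z0,y2]),(z4,[y7,y7,z0,z5,z0,z7]),(z2,[z1,z1,z0,z1,z6,y1]),(z2,[z1,y5,y6,y5,
    y6,z5])],.ref k12 k0 [(z1,[y1,z1,y1,y2,y2,z2]),(z1,[z2,z4,z5,z4,z4,y4]),(z4,[y7,y14,y7,y2,y14,z14]),(z2,[z1,z2,z1,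
    z2,z8,y2]),(z2,[z1,y4,y5,y4,y4,z4])],.ref k12 k0 [(z7,[z4,z21,z0,y12]),(z7,[y8,z0,z21,z24]),(z1,[z1]),(z7,[y2,z0,
    z0,z6,z21]),(z7,[y2,y21,y21,y15,y21,z21])],.ref k12 k0 [(z1,[z1,z3,z0,y2,y1]),(z1,[y2,z0,z3,z4,z2]),(z4,[z7,z0,z0,
    y2,y7]),(z2,[y1,z0,z0,z2,z7]),(z2,[y1,y6,y6,y4,y5,z6])],.ref k12 k0 [(z1,[z1,z4,z1,y1,z1,y1]),(z1,[y2,y2,z1,z2,y2,
    z2]),(z4,[z7,z7,z7,z5,z7,y7]),(z2,[y1,y1,y1,z1,z5,z1]),(z2,[y1,y7,y7,y5,y7,z7])],.ref k12 k0 [(z5,[z4,z15,z0,y8]),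
    (z5,[y8,z0,z15,z16]),(z5,[z7,z0,z0,z1]),(z5,[y2,z0,z0,z4,z15]),(z5,[y2,y15,y15,y11,y15,z15])],.ref k12 k0 [(z1,
    [z4,z7,z4,z0,z0,y4]),(z1,[y8,y8,y5,z0,z0,z8]),(z1,[z7,z7,z7,z3,z0,y7]),(z1,[y2,y2,y2,z0,z3,z2]),(z1,[y2,y5,y5,y3,
    y3,z5])],.ref k12 k0 [(z1,[z4,z11,z8,z4,z8,y8]),(z1,[y8,y16,y13,y8,y16,z16]),(z1,[z7,z14,z14,z10,z14,y14]),(z1,
    [y2,y4,y4,y2,y1,z4]),(z1,[y2,y7,y7,y5,y7,z7])],.ref k12 k0 [(z1,[z2,z5,z2,z0,z2,y2]),(z1,[y4,y4,y1,z0,y4,z4]),(z2,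
    [z7,z7,z7,z6,z7,y7]),(z1,[y1,y1,y1,z0,z2,z1]),(z1,[y1,y4,y4,y3,y4,z4])],.ref k12 k0 [(z1,[z2,z3,z0,y2,y2]),(z1,
    [y4,z0,z3,z4,z4]),(z2,[z7,z0,z0,y1,y7]),(z1,[y1,z0,z0,z1,z4]),(z1,[y1,y3,y3,y2,y2,z3])],.ref k12 k0 [(z1,[y4,y1,
    y4,y4,z0,z4]),(z1,[z8,z8,z11,z8,z0,y8]),(z1,[y7,y7,y7,y4,z0,z7]),(z1,[z2,z2,z2,z2,z3,y2]),(z1,[z2,y1,y1,y1,y3,
    z1])]],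
    .lp [k162,k162,k162,k156,k142,k174] [k6,k6,k6,k6,k6,k6,k9,k9,k16,k16,k0,k0] k0 [[k0,k0,k0,k0,k0,k0,k0,k0,k0,k0,k2],
    [k0,k0,k0,k12],[k12],[k0,k0,k0,k0,k0,k0,k0,k0,k0,k0,k0,k14],[k0,k0,k0,k0,k0,k0,k32],[k0,k0,k0,k0,k0,k0,k0,k0,k0,
    k6],[k0,k0,k0,k0,k0,k0,k0,k0,k12,k0,k12],[k0,k0,k0,k0,k0,k32],[k0,k0,k0,k0,k6],[k0,k0,k0,k0,k0,k0,k0,k12,k0,k0,k0,
    k22],[k0,k0,k14,k0,k0,k0,k0,k0,k22],[k0,k2,k0,k0,k0,k0,k0,k12]] (nat_lit 480) k5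
    [[(k6,k147),(k0,k160),(k4,k162),(k10,k168),(k8,k174),(k2,k176)],[(k9,k152),(k7,k159),(k1,k160),(k3,k162),(k11,
    k168),(k5,k174)],[(k2,k150),(k8,k152),(k6,k159),(k0,k162),(k4,k162),(k10,k170)],[(k3,k150),(k9,k152),(k7,k159),
    (k5,k162),(k11,k168),(k1,k176)],[(k8,k152),(k10,k154),(k6,k159),(k2,k162),(k4,k162),(k0,k174)],[(k9,k120),(k7,
    k159),(k1,k162),(k3,k162),(k5,k162),(k11,k174)],[(k8,k143),(k0,k159),(k2,k159),(k4,k159),(k10,k165),(k6,k188)],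
    [(k1,k147),(k9,k149),(k11,k153),(k3,k159),(k5,k159),(k7,k188)],[(k4,k120),(k6,k149),(k0,k152),(k2,k152),(k8,k154),
    (k10,k170)],[(k7,k143),(k3,k152),(k5,k152),(k9,k154),(k11,k158),(k1,k174)],[(k10,k152),(k6,k153),(k8,k158),(k0,
    k168),(k2,k168),(k4,k174)],[(k11,k152),(k5,k154),(k7,k165),(k1,k168),(k3,k170),(k9,k170)]]
    [] k0
    [[k2,k0,k0,k1,k0,k0],[k1,k0,k1,k0,k1,k0],[k1,k1,k0,k1,k0,k0],[k1,k0,k0,k1,k1,k0],[k1,k0,k0,k0,k1,k1],[k0,k3,k0,k0,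
    k0,k0],[k0,k2,k1,k0,k0,k0],[k0,k2,k0,k1,k0,k0],[k0,k2,k0,k0,k1,k0],[k0,k1,k1,k0,k1,k0],[k0,k1,k0,k1,k1,k0],[k0,k1,
    k0,k0,k2,k0],[k0,k0,k2,k0,k1,k0],[k0,k0,k1,k1,k1,k0],[k0,k0,k1,k0,k2,k0],[k0,k0,k1,k1,k0,k1],[k0,k0,k1,k0,k1,k1],
    [k0,k0,k0,k1,k2,k0],[k0,k0,k0,k1,k1,k1],[k0,k0,k0,k1,k0,k2],[k0,k0,k0,k0,k3,k0],[k0,k0,k0,k0,k0,k3]]
    [.ref k12 k0 [(z13,[z12,z15,z0,z0,y4]),(z13,[y24,z48,z39,z0,z8]),(z1,[z0,z0,z0,z1]),(z13,[z15,y30,z0,z0,z8]),(z13,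
    [y6,y27,y39,y13,y11,z39])],.ref k12 k0 [(z1,[z6,z3,z6,z0,z2,y6]),(z1,[y12,z0,y9,z0,y4,z12]),(z1,[z0,z0,z0,z1]),
    (z2,[z15,z0,z15,z0,z7,y15]),(z1,[y3,y3,y6,y1,y2,z6])],.ref k12 k0 [(z1,[z12,y9,y12,z0,y4]),(z1,[y24,z24,z27,z0,
    z8]),(z1,[z0,z0,z0,z1]),(z1,[z15,y15,y15,z0,y4]),(z1,[y6,z3,z3,y1,z1,z3])],.ref k12 k0 [(z7,[z12,z21,z12,z4,z0,
    y12]),(z7,[y24,z0,y3,y8,z0,z24]),(z1,[z0,z0,z0,z1]),(z7,[z15,z0,z15,z5,z7,y15]),(z7,[y6,y21,y27,y9,y7,z27])],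
    .ref k12 k0 [(z3,[z12,z9,z12,z4,z4,y12]),(z3,[y24,z0,y15,y8,y8,z24]),(z1,[z0,z0,z0,z1]),(z3,[z15,z0,z15,z5,z8,
    y15]),(z3,[y6,y9,y15,y5,y5,z15])],.ref k12 k0 [(z2,[y1,z6,z3]),(z1,[z1]),(z1,[z0,z0,z0,z1]),(z8,[y5,z0,z15,z0,
    z8]),(z4,[z1,y12,y15,y4,y4,z12])],.ref k12 k0 [(z4,[y3,z12,z6,z1]),(z2,[z3,z0,z0,y1]),(z1,[z0,z0,z0,z1]),(z16,
    [y15,z0,z30,z5,z16]),(z8,[z3,y24,y30,y9,y8,z24])],.ref k12 k0 [(z11,[y12,z33,z24,z0,z4]),(z11,[z24,z0,y15,z0,y8]),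
    (z1,[z0,z0,z0,z1]),(z11,[y15,z0,z30,z0,z16]),(z11,[z6,y33,y45,y11,y13,z33])],.ref k12 k0 [(z9,[y6,z21,z6,y2,y2,
    z6]),(z9,[z12,z12,z15,z4,z4,y12]),(z1,[z0,z0,z0,z1]),(z18,[y15,y15,z15,y5,z13,z15]),(z9,[z3,y24,y30,y8,y8,z24])],
    .ref k12 k0 [(z5,[y6,z9,z0,z0,y2,z6]),(z5,[z12,z12,z15,z0,z4,y12]),(z1,[z0,z0,z0,z1]),(z2,[y3,y3,z0,z0,z1,z3]),
    (z5,[z3,y12,y15,y5,y4,z12])],.ref k12 k0 [(z5,[y12,z3,z0,y4,z0,z12]),(z5,[z24,z24,z15,z8,z0,y24]),(z1,[z0,z0,z0,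
    z1]),(z1,[y3,y3,z0,y1,z1,z3]),(z5,[z6,y9,y15,y3,y5,z9])],.ref k12 k0 [(z3,[y3,z3,y3,y2,y2,z6]),(z3,[z6,z12,z15,z4,
    z4,y12]),(z1,[z0,z0,z0,z1]),(z12,[y15,y30,y15,y10,z2,z30]),(z6,[z3,y12,y15,y4,y4,z12])],.ref k12 k0 [(z1,[y6,y3,
    y6,z2,y2,z6]),(z1,[z12,z12,z15,y4,z4,y12]),(z1,[z0,z0,z0,z1]),(z2,[y15,y15,y15,z5,y3,z15]),(z1,[z3,z0,z0,y2])],
    .ref k12 k0 [(z1,[z4,z7,z4,z0,z0,y4]),(z1,[y8,y8,y5,z0,z0,z8]),(z1,[z0,z0,z0,z1]),(z1,[z5,z5,z5,z0,z1,y5]),(z1,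
    [y2,y5,y5,y1,y1,z5])],.ref k12 k0 [(z1,[y3,y3,y6,y1,y2,z6]),(z1,[z6,z12,z15,z2,z4,y12]),(z1,[z0,z0,z0,z1]),(z4,
    [y15,y30,y30,y5,y6,z30]),(z2,[z3,z0,z0,y1])],.ref k12 k0 [(z3,[z6,z9,z0,y2,y2]),(z3,[y12,z0,z9,z4,z4]),(z1,[z0,z0,
    z0,z1]),(z6,[z15,z0,z0,y5,z1]),(z3,[y3,y9,y9,y2,y2,z9])],.ref k12 k0 [(z1,[y12,y9,y12,z0,y4,z12]),(z1,[z24,z24,
    z27,z0,z8,y24]),(z1,[z0,z0,z0,z1]),(z1,[y15,y15,y15,z0,y4,z15]),(z1,[z6,z3,z3,y1,z1,y3])],.ref k12 k0 [(z1,[z12,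
    z27,z24,z8,z4,y24]),(z1,[y24,y48,y45,y16,y8,z48]),(z1,[z0,z0,z0,z1]),(z1,[z15,z30,z30,z10,z6,y30]),(z1,[y6,y15,
    y15,y5,y3,z15])],.ref k12 k0 [(z1,[z3,z6,z3,z1,z0,y3]),(z1,[y6,y6,y3,y2,z0,z6]),(z1,[z0,z0,z0,z1]),(z4,[z15,z15,
    z15,z5,z4,y15]),(z2,[y3,y9,y9,y3,y2,z9])],.ref k12 k0 [(z7,[z12,z21,z0,z0,y4]),(z7,[y24,z0,z21,z0,z8]),(z1,[z0,z0,
    z0,z1]),(z7,[z15,z0,z0,z0,z2]),(z7,[y6,y21,y21,y7,y5,z21])],.ref k12 k0 [(z1,[y2,y3,y6,y2,y2,z6]),(z1,[z4,z12,z15,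
    z4,z4,y12]),(z1,[z0,z0,z0,z1]),(z2,[y5,y15,y15,y5,y3,z15]),(z1,[z1])],.ref k12 k0 [(z1,[z4,z3]),(z1,[y8,z0,z3]),
    (z1,[z0,z0,z0,z1]),(z1,[z5,z0,z0,z0,z1]),(z1,[y2,y3,y3,y1,y1,z3])]],
    .lp [(nat_lit 650),(nat_lit 688),(nat_lit 616),(nat_lit 616),(nat_lit 620),(nat_lit 646)] [k19,k19,k0,k0,k36,k36,k36,
    k36,k34,k34,k21,k21] k0 [[k0,k0,k0,k0,k0,k0,k2],[k0,k0,k0,k48],[k48,k0,k0,k0,k0,k0,k0,k0,k0,k0,k36],[k0,k0,k0,k0,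
    k0,k0,k0,k0,k0,k6],[k0,k0,k0,k0,k0,k0,k110],[k0,k0,k0,k0,k0,k0,k0,k0,k0,k6,k0,k38],[k0,k0,k0,k0,k0,k0,k0,k0,k30,
    k0,k10],[k0,k2,k0,k0,k0,k110],[k0,k0,k6,k0,k6],[k0,k0,k0,k0,k0,k0,k0,k30,k0,k0,k0,k2],[k0,k0,k0,k0,k38,k0,k0,k0,
    k2],[k0,k0,k0,k36,k0,k0,k0,k10]] (nat_lit 1920) k5
    [[(k6,(nat_lit 623)),(k2,(nat_lit 633)),(k8,(nat_lit 637)),(k10,(nat_lit 648)),(k0,(nat_lit 650)),(k4,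
    (nat_lit 671))],[(k7,(nat_lit 633)),(k9,(nat_lit 633)),(k11,(nat_lit 648)),(k1,(nat_lit 650)),(k3,(nat_lit 669)),
    (k5,(nat_lit 681))],[(k2,(nat_lit 640)),(k4,(nat_lit 652)),(k6,(nat_lit 654)),(k8,(nat_lit 654)),(k10,
    (nat_lit 667)),(k0,(nat_lit 669))],[(k1,(nat_lit 633)),(k3,(nat_lit 640)),(k5,(nat_lit 652)),(k7,(nat_lit 652)),
    (k9,(nat_lit 654)),(k11,(nat_lit 673))],[(k8,(nat_lit 612)),(k4,(nat_lit 616)),(k6,(nat_lit 616)),(k2,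
    (nat_lit 652)),(k10,(nat_lit 667)),(k0,(nat_lit 681))],[(k9,(nat_lit 508)),(k5,(nat_lit 616)),(k7,(nat_lit 616)),
    (k11,(nat_lit 637)),(k3,(nat_lit 652)),(k1,(nat_lit 671))],[(k10,(nat_lit 593)),(k8,(nat_lit 612)),(k4,
    (nat_lit 616)),(k0,(nat_lit 633)),(k2,(nat_lit 652)),(k6,(nat_lit 726))],[(k11,(nat_lit 601)),(k5,(nat_lit 616)),
    (k9,(nat_lit 618)),(k1,(nat_lit 623)),(k3,(nat_lit 654)),(k7,(nat_lit 726))],[(k4,(nat_lit 508)),(k6,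
    (nat_lit 618)),(k0,(nat_lit 633)),(k10,(nat_lit 643)),(k8,(nat_lit 650)),(k2,(nat_lit 654))],[(k5,(nat_lit 612)),
    (k7,(nat_lit 612)),(k11,(nat_lit 633)),(k1,(nat_lit 637)),(k9,(nat_lit 650)),(k3,(nat_lit 654))],[(k6,
    (nat_lit 601)),(k8,(nat_lit 633)),(k4,(nat_lit 637)),(k10,(nat_lit 644)),(k0,(nat_lit 648)),(k2,(nat_lit 673))],
    [(k7,(nat_lit 593)),(k9,(nat_lit 643)),(k11,(nat_lit 644)),(k1,(nat_lit 648)),(k3,(nat_lit 667)),(k5,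
    (nat_lit 667))]]
    [] k0
    [[k2,k0,k0,k1,k0,k0],[k1,k0,k1,k0,k1,k0],[k1,k0,k0,k1,k1,k0],[k1,k0,k0,k1,k0,k1],[k1,k0,k0,k0,k1,k1],[k0,k1,k1,k0,
    k1,k0],[k0,k0,k3,k0,k0,k0],[k0,k0,k2,k1,k0,k0],[k0,k0,k2,k0,k1,k0],[k0,k0,k1,k1,k1,k0],[k0,k0,k1,k1,k0,k1],[k0,k0,
    k1,k0,k2,k0],[k0,k0,k1,k0,k1,k1],[k0,k0,k0,k1,k2,k0],[k0,k0,k0,k1,k1,k1],[k0,k0,k0,k1,k0,k2]]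
    [.ref (nat_lit 270) k2 [(z1,[z1,z2,z4,z4,y4]),(z1,[y2,y9,y13,y11,z13]),(z1,[z0,z4,z5,z4,y4]),(z1,[z0,y1,y2,y2,
    z2])],.ref (nat_lit 271) k10 [(z1,[y4,z0,y3,y4,z4]),(z1,[z2,z1,z2,z2,y2]),(z1,[z1,z0,z1,z1,y1]),(z1,[y1,y1,y2,y2,
    z2])],.ref (nat_lit 272) k0 [(z1,[z0,z1]),(z1,[z0,z0,z1]),(z1,[y1,z0,y1,z0,z1]),(z1,[z1,z0,z1,z1,y1])],
    .ref k164 k0 [(z1,[z0,z1]),(z1,[z0,z0,z1]),(z1,[y1,z1,z0,z1]),(z1,[z1,y1])],.ref k9 k8 [(z1,[y2,y3,y5,y5,z5]),(z1,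
    [z1,z0,z1,z1,y1]),(z1,[z4,z3,z4,z4,y4]),(z1,[y8,z0,y5,y8,z8])],.ref k164 k0 [(z1,[z0,z1]),(z1,[z0,z0,z1]),(z1,[z1,
    z1,z0,z1,y1]),(z1,[y1,y1,z0,z0,z1])],.ref (nat_lit 273) k0 [(z1,[z0,z1]),(z1,[z0,z0,z1]),(z1,[z1]),(z1,[y1,z0,z0,
    z3])],.ref k165 k0 [(z1,[z0,z1]),(z1,[z0,z0,z1]),(z1,[z1,z0,z0,y1]),(z1,[y1,z0,z0,z2])],.ref k58 k7 [(z2,[y5,y5,
    y5,y3,z5]),(z1,[z1]),(z2,[y1,y1,y1,y1,z1]),(z1,[y2,y1,y2,y2,z2])],.ref k9 k8 [(z1,[y2,y5,y5,y3,z5]),(z1,[z1,z1,z1,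
    z0,y1]),(z1,[z4,z7,z4,z0,y4]),(z1,[y8,y8,y5,z0,z8])],.ref k9 k8 [(z1,[y1,y3,y3,y2,z3]),(z2,[z1,z0,z0,y1]),(z1,[z2,
    z3,z0,y2]),(z1,[y4,z0,z3,z4])],.ref k141 k0 [(z1,[z0,z1]),(z1,[z0,z0,z1]),(z1,[z1,z2,z2,z2,y2]),(z1,[y1,y2,y2,y1,
    z2])],.ref k58 k7 [(z1,[y5,y5,y5,y4,z5]),(z1,[z2,z1,z1,z1,y1]),(z1,[y1,y1,y1,y1,z1]),(z1,[y4,y3,y4,y4,z4])],
    .ref k58 k7 [(z1,[z5,z10,z10,z6,y10]),(z1,[y2,y5,y5,y3,z5]),(z1,[z1,z2,z2,z1,y2]),(z1,[z4,z9,z8,z4,y8])],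
    .ref k141 k0 [(z1,[z0,z1]),(z1,[z0,z0,z1]),(z1,[y1,y1,y1,z0,z1]),(z1,[z1,z1,z1,z1,y1])],
    .ref (nat_lit 272) k0 [(z1,[z0,z1]),(z1,[z0,z0,z1]),(z1,[y1,z0,z0,z1]),(z1,[z1])]],
    .lp [k160,k170,k174,k152,k126,k176] [k8,k8,k3,k3,k1,k1,k12,k12,k25,k25,k0,k0] k0 [[k0,k0,k0,k0,k0,k0,k14,k0,k26],[k0,
    k0,k0,k20,k0,k2],[k20,k0,k0,k0,k6],[k0,k0,k0,k0,k0,k0,k0,k8],[k2,k0,k0,k0,k0,k0,k0,k0,k50],[k0,k0,k0,k6],[k0,k0,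
    k8],[k0,k14,k0,k0,k0,k0,k0,k0,k0,k0,k0,k18],[k0,k0,k0,k0,k0,k0,k0,k0,k0,k0,k20],[k0,k26,k0,k0,k0,k50],[k0,k0,k0,
    k0,k0,k0,k18],[k0,k0,k0,k0,k0,k0,k0,k0,k0,k20]] (nat_lit 480) k5
    [[(k8,k123),(k0,k160),(k2,k165),(k4,k167),(k10,k168),(k6,k174)],[(k9,k129),(k11,k142),(k7,k158),(k1,k160),(k3,
    k165),(k5,k187)],[(k2,k150),(k0,k165),(k4,k170),(k10,k173),(k8,k174),(k6,k175)],[(k3,k150),(k7,k155),(k9,k156),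
    (k1,k165),(k5,k172),(k11,k173)],[(k8,k150),(k6,k155),(k2,k172),(k10,k175),(k4,k180),(k0,k187)],[(k11,k125),(k9,
    k150),(k7,k163),(k1,k167),(k3,k170),(k5,k180)],[(k6,k152),(k2,k155),(k0,k158),(k4,k163),(k10,k164),(k8,k189)],
    [(k9,k139),(k7,k152),(k5,k155),(k11,k164),(k1,k174),(k3,k175)],[(k8,k126),(k0,k129),(k10,k133),(k6,k139),(k4,
    k150),(k2,k156)],[(k1,k123),(k9,k126),(k5,k150),(k11,k151),(k3,k174),(k7,k189)],[(k4,k125),(k0,k142),(k8,k151),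
    (k6,k164),(k2,k173),(k10,k196)],[(k9,k133),(k7,k164),(k1,k168),(k3,k173),(k5,k175),(k11,k196)]]
    [] k0
    [[k2,k0,k0,k0,k1,k0],[k2,k0,k0,k0,k0,k1],[k1,k1,k0,k0,k1,k0],[k1,k0,k1,k0,k1,k0],[k1,k0,k0,k1,k1,k0],[k1,k0,k0,k0,
    k2,k0],[k1,k0,k0,k0,k1,k1],[k0,k3,k0,k0,k0,k0],[k0,k1,k1,k0,k1,k0],[k0,k1,k0,k1,k1,k0],[k0,k1,k0,k0,k2,k0],[k0,k1,
    k1,k0,k0,k1],[k0,k0,k1,k2,k0,k0],[k0,k0,k1,k1,k0,k1],[k0,k0,k1,k1,k1,k0],[k0,k0,k1,k0,k2,k0],[k0,k0,k1,k0,k1,k1],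
    [k0,k0,k0,k3,k0,k0],[k0,k0,k0,k1,k2,k0],[k0,k0,k0,k1,k1,k1],[k0,k0,k0,k0,k3,k0],[k0,k0,k0,k0,k2,k1]]
    [.ref k12 k0 [(z48,[z8,z17,z2,z4,z1,y8]),(z24,[y8,z1,z16,y4,y1,z8]),(z12,[z8,y1,z2,z22,z1,y8]),(z48,[y88,z11,y22,
    y44,z7,z88]),(z24,[z64,y17,y2,y4,y1,z8])],.ref k12 k0 [(z2,[y1,z1]),(z4,[z4,y1,z3]),(z2,[y4,z1,z0,z3]),(z8,[z44,
    y11,z0,z0,z3]),(z8,[y64,z13,y6,y12,y3,z24])],.ref k12 k0 [(z40,[z8,z15,z0,z4,z1,y8]),(z20,[y8,z0,z15,y4,y1,z8]),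
    (z10,[z8,z0,z0,z19,z1,y8]),(z10,[y22,z0,z0,y11,z1,z22]),(z40,[(Int.ofNat (nat_lit 128)),y15,y30,z4,z1,y8])],
    .ref k12 k0 [(z56,[z8,z21,z2,z0,z1,y8]),(z28,[y8,z0,z19,z0,y1,z8]),(z14,[z8,z0,z2,z21,z1,y8]),(z28,[y44,z0,y11,z0,
    z5,z44]),(z56,[(Int.ofNat (nat_lit 128)),y21,y10,y84,y5,z40])],.ref k12 k0 [(z8,[z4,z3,z1,z2,z0,y4]),(z2,[y2,z0,
    z1,y1,z0,z2]),(z2,[z4,z0,z1,z5,z0,y4]),(z8,[y44,z0,y11,y22,z3,z44]),(z8,[z64,y3,z10,z20,y3,y40])],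
    .ref k12 k0 [(z44,[z4,z17,z2,z4,z1,y8]),(z44,[y8,y1,z29,y8,y2,z16]),(z22,[z8,z1,z4,z41,z2,y16]),(z8,[y8,y1,y4,y8,
    z1,z16]),(z88,[(Int.ofNat (nat_lit 128)),y17,y2,y4,y1,z8])],.ref k12 k0 [(z24,[z8,z9,z2,z4,z1,y8]),(z12,[y8,z0,z7,
    y4,y1,z8]),(z6,[z8,z0,z2,z13,z1,y8]),(z12,[y44,z0,y11,y22,y1,z44]),(z24,[(Int.ofNat (nat_lit 128)),y9,z14,z28,z7,
    y56])],.ref k12 k0 [(z8,[y4,z3,z3]),(z1,[z1]),(z2,[y4,z0,z3,z3]),(z8,[z44,z0,y33,z0,z3]),(z8,[y64,y3,z42,y12,y3,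
    z24])],.ref k12 k0 [(z48,[z8,z19,z0,z0,z1,y8]),(z24,[y8,y1,z18,z0,y1,z8]),(z12,[z8,z1,z0,z18,z1,y8]),(z48,[y88,
    y11,z0,z0,z7,z88]),(z24,[z64,y1,y18,y36,y1,z8])],.ref k12 k0 [(z2,[z2,z1,z0,z1,z0,y2]),(z4,[y8,y1,z3,y4,z0,z8]),
    (z2,[z8,z1,z0,z7,z0,y8]),(z8,[y88,y11,z0,y44,z3,z88]),(z8,[(Int.ofNat (nat_lit 128)),z13,y6,z52,y3,
    (Int.negSucc (nat_lit 103))])],.ref k12 k0 [(z40,[z4,z16,z1,z4,z1,y8]),(z20,[y4,y1,z14,y4,y1,z8]),(z10,[z4,z1,z1,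
    z19,z1,y8]),(z40,[y44,y11,y11,y44,z4,z88]),(z40,[z64,z1,y14,z4,z1,y8])],.ref k12 k0 [(z8,[y4,z3,z1,z2]),(z2,[z2,
    z0,z1,y1]),(z2,[y4,z0,z1,z5]),(z8,[z44,z0,y11,y22,z3]),(z8,[y64,y3,z10,z20,y3,z24])],.ref k12 k0 [(z24,[y4,z9,z0,
    z2,z1]),(z12,[z4,z0,z9,y2,y1]),(z6,[y4,z0,z0,z11,z1]),(z12,[z22,z0,z0,y11,y1]),(z24,[y64,y9,y18,y4,z7,z72])],
    .ref k12 k0 [(z40,[y8,z15,z0,z4,z1]),(z20,[z8,z0,z15,y4,y1]),(z10,[y8,z0,z0,z19,z1]),(z10,[z22,z0,z0,y11,z1]),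
    (z40,[(Int.negSucc (nat_lit 127)),y15,y30,z4,z1,(Int.ofNat (nat_lit 120))])],.ref k12 k0 [(z12,[z4,z5,z1,z0,z0,
    y4]),(z12,[y8,y1,z7,z0,z0,z8]),(z6,[z8,z1,z2,z9,z0,y8]),(z24,[y88,y11,y22,z0,z9,z88]),(z24,
    [(Int.ofNat (nat_lit 128)),z7,z14,y36,y9,y56])],.ref k12 k0 [(z48,[z4,z19,z2,z2,z1,y8]),(z24,[y4,y1,z16,y2,y1,
    z8]),(z12,[z4,z1,z2,z20,z1,y8]),(z48,[y44,y11,y22,y22,z7,z88]),(z24,[z32,y1,y2,y20,y1,z8])],.ref k12 k0 [(z32,[z8,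
    z13,z2,z0,z1,y8]),(z16,[y8,y1,z10,z0,y1,z8]),(z8,[z8,z1,z2,z12,z1,y8]),(z32,[y88,y11,y22,z0,z1,z88]),(z8,[z32,z1,
    z2,y12,z1,y8])],.ref k12 k0 [(z88,[y8,z33,z0,z0,z3]),(z44,[z8,z0,z33,z0,y3]),(z22,[y8,z0,z0,z33,z3]),(z1,[z1]),
    (z88,[(Int.negSucc (nat_lit 127)),y33,y66,(Int.negSucc (nat_lit 131)),z15,(Int.ofNat (nat_lit 264))])],
    .ref k12 k0 [(z56,[z8,z23,z4,z8,z1,y16]),(z28,[y8,y2,z17,y8,y1,z16]),(z14,[z8,z2,z4,z29,z1,y16]),(z28,[y44,y11,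
    y22,y44,z5,z88]),(z56,[(Int.ofNat (nat_lit 128)),z11,z22,z44,y5,y88])],.ref k12 k0 [(z4,[y4,z1,y1,y2,z0,z4]),(z4,
    [z8,z1,z5,z4,z0,y8]),(z2,[y8,y1,y2,y1,z0,z8]),(z8,[z88,z11,z22,z44,z3,y88]),(z8,[(Int.negSucc (nat_lit 127)),y19,
    y38,y76,y3,(Int.ofNat (nat_lit 152))])],.ref k12 k0 [((Int.ofNat (nat_lit 128)),[z8,z51,z6,z12,z3,y24]),(z64,[y8,
    y3,z42,y12,y3,z24]),(z32,[z8,z3,z6,z60,z3,y24]),((Int.ofNat (nat_lit 128)),[y88,y33,y66,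
    (Int.negSucc (nat_lit 131)),z15,(Int.ofNat (nat_lit 264))]),(z1,[z1])],.ref k12 k0 [(z32,[z4,z13,z2,z4,z1,y8]),
    (z16,[y4,y1,z10,y4,y1,z8]),(z8,[z4,z1,z2,z16,z1,y8]),(z32,[y44,y11,y22,y44,z1,z88]),(z8,[z16,z1,z2,z4,z1,y8])]],
    .lp [k164,k164,k164,k152,k140,k174] [k5,k5,k5,k5,k5,k5,k11,k11,k25,k9,k0,k0] k0 [[k0,k0,k0,k0,k0,k0,k0,k0,k0,k0,k2],
    [k0,k0,k0,k20,k0,k0,k0,k0,k0,k10],[k20],[k0,k0,k0,k0,k0,k0,k0,k0,k0,k0,k0,k22],[k0,k0,k0,k0,k0,k0,k40],[k0,k0,k0,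
    k0,k0,k0,k0,k0,k0,k4],[k0,k0,k0,k0,k0,k0,k0,k0,k6,k0,k20],[k0,k0,k0,k0,k0,k40],[k10,k0,k0,k0,k4],[k0,k0,k0,k0,k0,
    k0,k0,k6,k0,k0,k0,k14],[k0,k0,k22,k0,k0,k0,k0,k0,k14],[k0,k2,k0,k0,k0,k0,k0,k20]] (nat_lit 480) k5
    [[(k6,k138),(k8,k158),(k0,k162),(k4,k164),(k10,k169),(k2,k186)],[(k7,k158),(k9,k160),(k1,k162),(k3,k164),(k11,
    k179),(k5,k184)],[(k8,k134),(k2,k144),(k6,k158),(k0,k164),(k4,k164),(k10,k171)],[(k3,k144),(k7,k158),(k9,k160),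
    (k5,k164),(k11,k169),(k1,k186)],[(k8,k144),(k10,k147),(k6,k158),(k2,k164),(k4,k164),(k0,k184)],[(k9,k120),(k7,
    k158),(k1,k164),(k3,k164),(k5,k164),(k11,k173)],[(k8,k134),(k0,k158),(k2,k158),(k4,k158),(k10,k163),(k6,k192)],
    [(k1,k138),(k9,k154),(k11,k157),(k3,k158),(k5,k158),(k7,k192)],[(k4,k120),(k8,k146),(k6,k154),(k0,k160),(k2,k160),
    (k10,k185)],[(k3,k134),(k7,k134),(k5,k144),(k9,k146),(k11,k149),(k1,k158)],[(k8,k149),(k6,k157),(k10,k160),(k2,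
    k169),(k4,k173),(k0,k179)],[(k5,k147),(k11,k160),(k7,k163),(k1,k169),(k3,k171),(k9,k185)]]
    [] k0
    [[k2,k0,k0,k1,k0,k0],[k1,k0,k1,k0,k1,k0],[k1,k1,k0,k1,k0,k0],[k1,k0,k0,k1,k1,k0],[k1,k0,k0,k0,k2,k0],[k1,k0,k0,k0,
    k1,k1],[k0,k3,k0,k0,k0,k0],[k0,k2,k1,k0,k0,k0],[k0,k2,k0,k1,k0,k0],[k0,k2,k0,k0,k1,k0],[k0,k1,k1,k0,k1,k0],[k0,k1,
    k0,k1,k1,k0],[k0,k1,k0,k0,k2,k0],[k0,k0,k2,k0,k1,k0],[k0,k0,k1,k1,k1,k0],[k0,k0,k1,k0,k2,k0],[k0,k0,k1,k1,k0,k1],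
    [k0,k0,k1,k0,k1,k1],[k0,k0,k0,k1,k2,k0],[k0,k0,k0,k1,k1,k1],[k0,k0,k0,k0,k3,k0]]
    [.ref k12 k0 [(z6,[z11,y2,z0,z0,y11]),(z3,[y8,z8,z9,z0,z8]),(z3,[z4,y4,z0,z9,y4]),(z3,[y2,z2,z0,z0,z11]),(z6,[y1,
    y8,y18,y18,y17,z18])],.ref k12 k0 [(z6,[z11,z9,z11,z0,z11,y11]),(z3,[y8,z0,z1,z0,y8,z8]),(z3,[z4,z0,z4,z9,z4,y4]),
    (z3,[y2,z0,y2,z0,z7,z2]),(z6,[y1,y9,y19,y18,y19,z19])],.ref k12 k0 [(z3,[y11,z10,z11,z0,z11]),(z3,[z16,y8,y7,z0,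
    y16]),(z3,[y8,z4,z8,z9,z8]),(z3,[z4,y2,y4,z0,z5]),(z3,[z1,y5,y10,y9,y10,z9])],.ref k12 k0 [(z2,[z11,z3,z11,z11,z0,
    y11]),(z1,[y8,z0,y5,y8,z0,z8]),(z1,[z4,z0,z4,z7,z0,y4]),(z1,[y2,z0,y2,y2,z3,z2]),(z2,[y1,y3,y7,y7,y6,z7])],
    .ref k12 k0 [(z3,[z11,z10,z22,z22,z22,y22]),(z3,[y16,y8,y23,y32,y32,z32]),(z3,[z8,z4,z16,z25,z16,y16]),(z3,[y4,y2,
    y8,y8,z1,z8]),(z3,[y1,y5,y11,y11,y11,z11])],.ref k12 k0 [(z4,[z11,z6,z11,z11,z11,y11]),(z1,[y4,z0,y1,y4,y4,z4]),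
    (z1,[z2,z0,z2,z5,z2,y2]),(z1,[y1,z0,y1,y1,z2,z1]),(z4,[y1,y6,y13,y13,y13,z13])],.ref k12 k0 [(z16,[y11,z24,z33]),
    (z1,[z1]),(z2,[y1,z0,z3,z6]),(z4,[z1,z0,y3,z0,z12]),(z16,[z1,y24,y51,y48,y48,z48])],.ref k12 k0 [(z8,[y11,z12,z22,
    z11]),(z1,[z2,z0,y1,y2]),(z1,[y1,z0,z2,z4]),(z2,[z1,z0,y2,y1,z6]),(z8,[z1,y12,y26,y25,y24,z24])],
    .ref k12 k0 [(z12,[y11,z18,z22,z0,z11]),(z3,[z4,z0,z1,z0,y4]),(z3,[y2,z0,z4,z9,z2]),(z3,[z1,z0,y2,z0,z8]),(z12,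
    [z1,y18,y38,y36,y37,z36])],.ref k12 k0 [(z1,[y1,z1,z1,y1,y1,z1]),(z11,[z16,z8,z17,z16,z16,y16]),(z11,[y8,y4,z8,
    z25,y8,z8]),(z11,[z4,z2,y4,z4,z37,y4]),(z11,[z1,y16,y34,y32,y32,z32])],.ref k12 k0 [(z3,[y11,y1,z0,z0,y11,z11]),
    (z3,[z16,z8,z9,z0,z16,y16]),(z3,[y8,y4,z0,z9,y8,z8]),(z3,[z4,z2,z0,z0,z13,y4]),(z3,[z1,y4,y9,y9,y8,z8])],
    .ref k12 k0 [(z7,[y11,z5,z0,y11,z0,z11]),(z7,[z16,z8,z21,z16,z0,y16]),(z7,[y8,y4,z0,z13,z0,z8]),(z7,[z4,z2,z0,z4,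
    z21,y4]),(z7,[z1,y10,y21,y20,y21,z20])],.ref k12 k0 [(z6,[y11,y2,y11,y22,y22,z22]),(z3,[z8,z8,z17,z16,z16,y16]),
    (z3,[y4,y4,y4,z1,y8,z8]),(z3,[z2,z2,z2,z4,z13,y4]),(z6,[z1,y8,y17,y16,y16,z16])],.ref k12 k0 [(z5,[z11,z13,z11,
    y11,z11,y11]),(z5,[y16,y8,y1,z16,y16,z16]),(z5,[z8,z4,z8,z7,z8,y8]),(z5,[y4,y2,y4,z4,z11,z4]),(z5,[y1,y8,y16,y14,
    y16,z16])],.ref k12 k0 [(z1,[z11,z7,z11,z0,z0,y11]),(z1,[y16,y8,y13,z0,z0,z16]),(z1,[z8,z4,z8,z3,z0,y8]),(z1,[y4,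
    y2,y4,z0,z3,z4]),(z1,[y1,y2,y4,y3,y3,z4])],.ref k12 k0 [(z2,[z11,z14,z22,z11,z22,y22]),(z1,[y8,y8,y13,y8,y16,
    z16]),(z1,[z4,z4,z8,z7,z8,y8]),(z1,[y2,y2,y4,y2,y1,z4]),(z2,[y1,y4,y8,y7,y8,z8])],.ref k12 k0 [(z2,[z11,z3,z0,y11,
    y11]),(z1,[y8,z0,z3,z8,z8]),(z1,[z4,z0,z0,y1,y4]),(z1,[y2,z0,z0,z2,z5]),(z2,[y1,y3,y6,y5,y5,z6])],
    .ref k12 k0 [(z3,[z11,z10,z11,z0,z11,y11]),(z3,[y16,y8,y7,z0,y16,z16]),(z3,[z8,z4,z8,z9,z8,y8]),(z3,[y4,y2,y4,z0,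
    z5,z4]),(z3,[y1,y5,y10,y9,y10,z10])],.ref k12 k0 [(z2,[y11,y8,y22,y22,y11,z22]),(z1,[z8,z8,z19,z16,z8,y16]),(z1,
    [y4,y4,y8,y5,y4,z8]),(z1,[z2,z2,z4,z4,z5,y4]),(z2,[z1,y2,y4,y4,y5,z4])],.ref k12 k0 [(z1,[y11,y4,y11,y11,z0,z11]),
    (z1,[z16,z8,z19,z16,z0,y16]),(z1,[y8,y4,y8,y5,z0,z8]),(z1,[z4,z2,z4,z4,z3,y4]),(z1,[z1,y1,y2,y2,y3,z2])],
    .ref k12 k0 [(z1,[y11,y15,y33,y33,y33,z33]),(z1,[z16,z24,z51,z48,z48,y48]),(z1,[y8,y12,y24,y21,y24,z24]),(z1,[z4,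
    z6,z12,z12,z15,y12]),(z1,[z1])]],
    .leafM k1 [k0,k1,k2,k3,k4,k5] [(z1,[z0,z1,z0,z1]),(z1,[z0,y1,z0,y1,z1])] [],
    .leafM k0 [k2,k3,k4,k5,k0,k1] [(z1,[y1,y1,z0,z0,z1])] [],
    .lp [k156,k156,k170,k154,k160,k162] [k7,k7,k7,k7,k0,k0,k8,k8,k5,k5,k4,k4] k0 [[k0,k0,k0,k0,k30,k0,k0,k0,k8],[k0,k0,k0,
    k20,k0,k0,k0,k0,k0,k0,k0,k14],[k20,k0,k0,k0,k8],[k0,k0,k0,k0,k0,k0,k0,k22],[k0,k0,k0,k0,k0,k0,k10,k0,k28],[k0,k30,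
    k0,k8],[k0,k0,k22,k0,k0,k0,k0,k0,k0,k0,k16],[k0,k0,k0,k0,k0,k10],[k0,k0,k0,k0,k0,k0,k0,k0,k0,k0,k14],[k0,k8,k0,k0,
    k0,k28],[k14],[k0,k0,k0,k0,k0,k0,k0,k16,k0,k14]] (nat_lit 480) k5
    [[(k6,k139),(k8,k144),(k2,k156),(k10,k159),(k4,k163),(k0,k170)],[(k7,k125),(k11,k151),(k3,k156),(k9,k158),(k1,
    k170),(k5,k183)],[(k2,k136),(k10,k145),(k6,k155),(k0,k156),(k8,k166),(k4,k193)],[(k3,k136),(k7,k147),(k1,k156),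
    (k11,k159),(k5,k163),(k9,k180)],[(k6,k140),(k2,k163),(k8,k165),(k10,k166),(k4,k178),(k0,k183)],[(k11,k138),(k9,
    k155),(k7,k162),(k1,k163),(k5,k178),(k3,k193)],[(k0,k125),(k2,k147),(k10,k158),(k4,k162),(k6,k164),(k8,k185)],
    [(k1,k139),(k5,k140),(k3,k155),(k9,k157),(k11,k158),(k7,k164)],[(k4,k155),(k6,k157),(k0,k158),(k8,k160),(k10,
    k177),(k2,k180)],[(k1,k144),(k9,k160),(k11,k161),(k5,k165),(k3,k166),(k7,k185)],[(k4,k138),(k0,k151),(k6,k158),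
    (k2,k159),(k8,k161),(k10,k176)],[(k3,k145),(k7,k158),(k1,k159),(k5,k166),(k11,k176),(k9,k177)]]
    [] k0
    [[k2,k0,k0,k1,k0,k0],[k2,k0,k0,k0,k1,k0],[k1,k2,k0,k0,k0,k0],[k1,k1,k0,k1,k0,k0],[k1,k1,k0,k0,k0,k1],[k1,k0,k1,k1,
    k0,k0],[k1,k0,k0,k2,k0,k0],[k1,k0,k0,k1,k0,k1],[k1,k0,k0,k1,k1,k0],[k1,k0,k0,k0,k2,k0],[k1,k0,k0,k0,k1,k1],[k0,k3,
    k0,k0,k0,k0],[k0,k2,k0,k1,k0,k0],[k0,k2,k0,k0,k0,k1],[k0,k1,k0,k2,k0,k0],[k0,k1,k0,k1,k0,k1],[k0,k1,k0,k1,k1,k0],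
    [k0,k1,k1,k0,k0,k1],[k0,k0,k1,k2,k0,k0],[k0,k0,k1,k1,k0,k1],[k0,k0,k0,k1,k1,k1]]
    [.ref k11 k4 [(z1,[z0,y1,y1,y1,z1]),(z2,[z1,z2,z2,z1,y2]),(z1,[y1,z0,y1,y1,z2]),(z1,[z1,z3,z5,z4,y5])],
    .ref k23 k10 [(z2,[y3,z3,y1,y3,z3]),(z2,[z3,z1,z3,z3,y3]),(z2,[z1,y1,z1,z1,y1]),(z2,[y1,y1,y3,y3,z3])],
    .ref k52 k10 [(z1,[z2,y2,y1]),(z1,[y1,z4,z2]),(z1,[y1,z1,z2]),(z1,[z2,y11,y13,y9,z9])],.ref k58 k7 [(z1,[z4,y4,y4,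
    y3]),(z1,[y2,z1,z1,z1,z1]),(z1,[z1,y1,y1,y1]),(z1,[z3,y2,y3,y3])],.ref k23 k10 [(z1,[z3,y3,y2]),(z1,[y3,z5,z3]),
    (z1,[y1,z1,z1]),(z1,[z1,y2,y2,y1,z1])],.ref k15 k10 [(z1,[y6,z6,z7,z6]),(z1,[z3,z4,z0,y3]),(z1,[z1,y1,z0,y1]),(z1,
    [y2,y5,y7,y5,z7])],.ref (nat_lit 275) k1 [(z1,[z1,z0,z0,y2]),(z1,[y1,y4,y4,y2,z4]),(z1,[z1]),(z1,[y3,y8,z0,z6])],
    .ref k32 k1 [(z1,[z1,z0,z0,y1]),(z1,[y2,y5,y5,y3,z5]),(z1,[z4,z0,z0,z1]),(z1,[y3,y5,z0,z3])],.ref k11 k4 [(z1,[z0,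
    y1,y1,y1,z1]),(z1,[z1,z2,z2,z1,y2]),(z1,[y2,y2,y3,y2,z4]),(z1,[z2,z5,z7,z5,y7])],.ref k58 k7 [(z1,[y4,y4,y8,y7,
    z8]),(z1,[z2,z1,z3,z3,y3]),(z1,[y1,y1,y2,y2,z2]),(z1,[y3,y2,y6,y6,z6])],.ref k23 k10 [(z1,[y3,z0,y2,y3,z3]),(z1,
    [z3,z2,z3,z3,y3]),(z1,[z1,z0,z1,z1,y1]),(z1,[y1,y1,y2,y2,z2])],.ref k52 k10 [(z1,[z1]),(z2,[y1,z6,z3]),(z2,[y1,z0,
    z3]),(z1,[z1,y9,y12,y9,z9])],.ref k23 k10 [(z4,[z3,z0,y2,y3]),(z4,[y3,z8,z6,z3]),(z4,[y1,z0,z2,z1]),(z4,[z1,y4,y6,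
    y5,z4])],.ref (nat_lit 276) k6 [(z1,[y6,z0,z1]),(z1,[z4,z0,z0,z1]),(z1,[y2,y1,y1,y1,z1]),(z1,[z1])],
    .ref k58 k7 [(z1,[z2,z0,y2,y3]),(z1,[y1,y1,z0,z1,z1]),(z2,[z1,z0,y1,y2]),(z2,[z3,z2,y3,y6])],
    .ref (nat_lit 277) k10 [(z1,[z6,z0,y5,y6]),(z1,[y3,z1,z3,z3]),(z1,[y1,z0,z1,z1]),(z1,[z2,y1,y3,y3,z1])],
    .ref k23 k10 [(z2,[z3,z3,z2,z0,y3]),(z2,[y3,z1,z0,z0,z3]),(z2,[y1,y1,z0,z0,z1]),(z2,[z1,y1,y2,y2,z1])],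
    .ref k11 k4 [(z1,[z0,y1,y1,y1,z1]),(z1,[y1,z2,z2,z1,y1]),(z1,[z2,y2,y3,y2,z2]),(z1,[y2,z5,z7,z5,y5])],
    .ref k32 k1 [(z1,[z1,z1,z0,y2]),(z1,[y2,y7,y5,y1,z5]),(z1,[z4,z4,z0,y3]),(z1,[y3,y8,z0,z6])],.ref k11 k4 [(z1,[z0,
    y1,y1,y1,z1]),(z1,[z1,z2,z1,z0,y1]),(z1,[y2,y2,y1,z0,z2]),(z1,[z2,z5,z5,z3,y5])],.ref (nat_lit 278) k0 [(z1,[z1,
    z2,z1,z0,y1]),(z1,[y2,y2,y1,z0,z2]),(z1,[z4,z4,z4,z3,y4]),(z1,[y2,y5,y5,y3,z5])]],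
    .lp [(nat_lit 322),(nat_lit 326),(nat_lit 320),(nat_lit 318),(nat_lit 306),(nat_lit 326)] [k2,k2,k0,k0,k3,k3,k4,k4,
    k10,k10,k0,k0] k0 [[k0,k0,k0,k0,k0,k0,k0,k0,k2,k0,k2],[k0,k0,k0,k0,k0,k2,k0,k4],[k0,k0,k0,k0,k2],[k0,k0,k0,k0,k0,
    k0,k0,k0,k0,k10],[k2,k0,k0,k0,k0,k0,k0,k0,k0,k0,k2],[k0,k0,k0,k2,k0,k0,k0,k38],[k4,k0,k0,k0,k38],[k0,k0,k0,k0,k0,
    k0,k0,k0,k0,k0,k0,k10],[k0,k0,k10],[k0,k2,k0,k0,k0,k0,k0,k0,k0,k0,k0,k12],[k0,k0,k0,k0,k0,k0,k10,k0,k12],[k0,k2,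
    k0,k0,k0,k2]] (nat_lit 960) k5
    [[(k4,(nat_lit 319)),(k0,(nat_lit 320)),(k2,(nat_lit 324)),(k10,(nat_lit 324)),(k8,(nat_lit 326)),(k6,
    (nat_lit 330))],[(k9,(nat_lit 318)),(k1,(nat_lit 320)),(k5,(nat_lit 321)),(k7,(nat_lit 322)),(k11,(nat_lit 322)),
    (k3,(nat_lit 324))],[(k6,(nat_lit 318)),(k8,(nat_lit 318)),(k4,(nat_lit 321)),(k0,(nat_lit 324)),(k2,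
    (nat_lit 326)),(k10,(nat_lit 328))],[(k9,(nat_lit 316)),(k7,(nat_lit 320)),(k5,(nat_lit 323)),(k1,(nat_lit 324)),
    (k3,(nat_lit 326)),(k11,(nat_lit 336))],[(k8,(nat_lit 303)),(k6,(nat_lit 319)),(k0,(nat_lit 321)),(k4,
    (nat_lit 322)),(k2,(nat_lit 323)),(k10,(nat_lit 323))],[(k1,(nat_lit 319)),(k7,(nat_lit 319)),(k3,(nat_lit 321)),
    (k5,(nat_lit 322)),(k11,(nat_lit 323)),(k9,(nat_lit 351))],[(k6,(nat_lit 280)),(k8,(nat_lit 312)),(k4,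
    (nat_lit 319)),(k2,(nat_lit 320)),(k0,(nat_lit 322)),(k10,(nat_lit 324))],[(k7,(nat_lit 280)),(k9,(nat_lit 312)),
    (k3,(nat_lit 318)),(k5,(nat_lit 319)),(k11,(nat_lit 322)),(k1,(nat_lit 330))],[(k8,(nat_lit 306)),(k10,
    (nat_lit 306)),(k6,(nat_lit 312)),(k2,(nat_lit 316)),(k0,(nat_lit 318)),(k4,(nat_lit 351))],[(k5,(nat_lit 303)),
    (k9,(nat_lit 306)),(k7,(nat_lit 312)),(k11,(nat_lit 316)),(k3,(nat_lit 318)),(k1,(nat_lit 326))],[(k10,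
    (nat_lit 314)),(k8,(nat_lit 316)),(k0,(nat_lit 322)),(k6,(nat_lit 322)),(k4,(nat_lit 323)),(k2,(nat_lit 336))],
    [(k9,(nat_lit 306)),(k11,(nat_lit 314)),(k5,(nat_lit 323)),(k1,(nat_lit 324)),(k7,(nat_lit 324)),(k3,
    (nat_lit 328))]]
    [] k0
    [[k1,k0,k1,k0,k1,k0],[k1,k0,k0,k2,k0,k0],[k1,k0,k0,k0,k2,k0],[k1,k0,k0,k0,k1,k1],[k0,k1,k1,k0,k1,k0],[k0,k1,k0,k2,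
    k0,k0],[k0,k1,k0,k1,k1,k0],[k0,k1,k0,k0,k2,k0],[k0,k0,k1,k2,k0,k0],[k0,k0,k1,k1,k1,k0],[k0,k0,k1,k0,k1,k1],[k0,k0,
    k0,k3,k0,k0],[k0,k0,k0,k2,k1,k0],[k0,k0,k0,k2,k0,k1],[k0,k0,k0,k1,k2,k0],[k0,k0,k0,k1,k1,k1],[k0,k0,k0,k0,k3,k0],
    [k0,k0,k0,k0,k2,k1],[k0,k0,k0,k0,k1,k2],[k0,k0,k0,k0,k0,k3]]
    [.ref k12 k0 [(z5,[z12,z15,z12,z0,z4,y12]),(z5,[y6,z0,z9,z0,y2,z6]),(z5,[z6,z0,z6,z5,z2,y6]),(z5,[y12,z0,y12,z0,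
    z1,z12]),(z5,[y3,y15,y18,y5,y6,z18])],.ref k12 k0 [(z1,[y3,z6,z0,z0,z2]),(z2,[z3,y3,z6,z0,y2]),(z2,[y3,z3,z0,z2,
    z2]),(z1,[z3,y3,z0,z0,y1]),(z4,[z3,y15,y12,y4,y6,z12])],.ref k12 k0 [(z1,[z6,z9,z12,z4,z4,y12]),(z1,[y3,y3,y3,y2,
    y2,z6]),(z1,[z3,z3,z6,z3,z2,y6]),(z1,[y6,y6,y12,y4,y3,z12]),(z2,[y3,y9,y12,y4,y4,z12])],.ref k12 k0 [(z1,[z3,z3,
    z3,z1,z1,y3]),(z2,[y3,z0,z3,y1,y1,z3]),(z2,[z3,z0,z3,z3,z1,y3]),(z1,[y3,z0,y3,y1,z0,z3]),(z4,[y3,y12,y15,y5,y5,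
    z15])],.ref k12 k0 [(z1,[y12,y9,z0,z0,y4,z12]),(z1,[z6,z6,z3,z0,z2,y6]),(z1,[y6,y6,z0,z1,y2,z6]),(z1,[z12,z12,z0,
    z0,z5,y12]),(z1,[z3,z0,y3,y1])],.ref k12 k0 [(z5,[y6,z15,z6,z0,z4]),(z5,[z3,z0,z12,z0,y2]),(z5,[y3,z0,z3,z5,z2]),
    (z5,[z6,z0,y6,z0,z1]),(z10,[z3,y30,y33,y10,y12,z30])],.ref k12 k0 [(z7,[y12,z9,z0,y4,z0,z12]),(z7,[z6,z6,z21,z2,
    z0,y6]),(z7,[y6,y6,z0,z5,z0,z6]),(z7,[z12,z12,z0,z4,z7,y12]),(z7,[z3,y18,y21,y6,y7,z18])],.ref k12 k0 [(z1,[y3,y3,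
    y3,y2,y2,z6]),(z2,[z3,z6,z9,z2,z2,y6]),(z2,[y3,y6,y3,z0,y2,z6]),(z1,[z3,z6,z3,z2,z3,y6]),(z4,[z3,y6,y9,y2,y2,
    z6])],.ref k12 k0 [(z3,[y6,z9,z0,z2,z4]),(z3,[z3,z0,z9,y1,y2]),(z3,[y3,z0,z0,z4,z2]),(z3,[z6,z0,z0,y2,y1]),(z6,
    [z3,y18,y18,y7,y8,z18])],.ref k12 k0 [(z1,[y4,y1,y4,z0,z0,z4]),(z1,[z2,z2,z5,z0,z0,y2]),(z1,[y2,y2,y2,z1,z0,z2]),
    (z1,[z4,z4,z4,z0,z1,y4]),(z1,[z1,y2,y2,y1,y1,z2])],.ref k12 k0 [(z1,[z6,z9,z6,z0,z2,y6]),(z1,[y3,y3,z0,z0,y1,z3]),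
    (z1,[z3,z3,z3,z1,z1,y3]),(z1,[y6,y6,y6,z0,y1,z6]),(z2,[y3,y9,y9,y2,y3,z9])],.ref k12 k0 [(z1,[y1,z3,z0,z0,z1]),
    (z2,[z1,z0,z6,z0,y1]),(z2,[y1,z0,z0,z2,z1]),(z1,[z1]),(z4,[z1,y12,y12,y4,y5,z12])],.ref k12 k0 [(z9,[y12,z15,y12,
    y4,z4,z12]),(z9,[z6,z6,z33,z2,y2,y6]),(z9,[y6,y6,y6,z7,z2,z6]),(z9,[z12,z12,z12,z4,z5,y12]),(z9,[z3,y24,y24,y8,
    y10,z24])],.ref k12 k0 [(z7,[y12,z21,z0,z0,z8]),(z7,[z6,z0,z21,z0,y4]),(z7,[y6,z0,z0,z7,z4]),(z7,[z12,z0,z0,z0,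
    y1]),(z7,[z3,y21,y21,y7,y9,z21])],.ref k12 k0 [(z3,[y6,y3,y12,y4,y2,z12]),(z3,[z3,z6,z15,z2,z1,y6]),(z3,[y3,y6,y6,
    z1,y1,z6]),(z3,[z6,z12,z12,z4,z5,y12]),(z6,[z3,y12,y12,y4,y5,z12])],.ref k12 k0 [(z1,[y3,z0,y3,y1,z0,z3]),(z2,[z3,
    z3,z9,z1,z0,y3]),(z2,[y3,y3,y3,z1,z0,z3]),(z1,[z3,z3,z3,z1,z1,y3]),(z4,[z3,y9,y9,y3,y4,z9])],.ref k12 k0 [(z1,[y4,
    y9,y12,y4,y4,z12]),(z1,[z2,z6,z9,z2,z2,y6]),(z1,[y2,y6,y6,y1,y2,z6]),(z1,[z4,z12,z12,z4,z5,y12]),(z1,[z1])],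
    .ref k12 k0 [(z1,[y12,y21,y24,y8,y8,z24]),(z1,[z6,z12,z15,z4,z4,y12]),(z1,[y6,y12,y12,y3,y4,z12]),(z1,[z12,z24,
    z24,z8,z9,y24]),(z1,[z3,z3,z3,z1,z1,y3])],.ref k12 k0 [(z1,[z12,z15,z12,z4,z4,y12]),(z1,[y6,y6,y3,y2,y2,z6]),(z1,
    [z6,z6,z6,z3,z2,y6]),(z1,[y12,y12,y12,y4,y3,z12]),(z1,[y3,y6,y6,y2,y2,z6])],.ref k12 k0 [(z1,[z4,z3]),(z1,[y2,z0,
    z3]),(z1,[z2,z0,z0,z1]),(z1,[y4,z0,z0,z0,z1]),(z1,[y1,y3,y3,y1,y1,z3])]],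
    .lp [k168,k170,k154,k164,k140,k162] [k1,k1,k0,k0,k8,k8,k3,k3,k15,k15,k4,k4] k0 [[k0,k0,k0,k0,k0,k0,k0,k0,k4,k0,k8],
    [k0,k0,k0,k0,k0,k0,k0,k8],[k0,k0,k0,k0,k8,k0,k0,k0,k0,k0,k10],[k0,k0,k0,k0,k0,k0,k0,k0,k0,k4],[k0,k0,k0,k0,k0,k0,
    k12],[k0,k0,k0,k8],[k8],[k0,k0,k0,k0,k0,k12],[k0,k0,k4],[k0,k4,k0,k0,k0,k0,k0,k0,k0,k0,k0,k8],[k0,k0,k0,k0,k0,k0,
    k0,k0,k8],[k0,k8,k0,k10]] (nat_lit 480) k5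
    [[(k2,k159),(k0,k160),(k4,k161),(k8,k162),(k10,k165),(k6,k166)],[(k1,k160),(k5,k161),(k11,k161),(k9,k162),(k7,
    k166),(k3,k169)],[(k6,k159),(k8,k159),(k4,k162),(k0,k169),(k2,k170),(k10,k174)],[(k9,k155),(k1,k159),(k7,k159),
    (k5,k162),(k3,k170),(k11,k170)],[(k8,k143),(k6,k159),(k0,k161),(k2,k162),(k4,k162),(k10,k168)],[(k9,k135),(k11,
    k158),(k7,k159),(k1,k161),(k3,k162),(k5,k162)],[(k8,k152),(k2,k159),(k4,k159),(k10,k163),(k0,k166),(k6,k176)],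
    [(k9,k152),(k3,k159),(k5,k159),(k11,k163),(k1,k166),(k7,k176)],[(k4,k135),(k8,k140),(k10,k151),(k6,k152),(k2,
    k155),(k0,k162)],[(k9,k140),(k5,k143),(k11,k151),(k7,k152),(k3,k159),(k1,k162)],[(k8,k151),(k10,k154),(k4,k158),
    (k0,k161),(k6,k163),(k2,k170)],[(k9,k151),(k11,k154),(k7,k163),(k1,k165),(k5,k168),(k3,k174)]]
    [] k0
    [[k1,k0,k1,k0,k1,k0],[k1,k0,k0,k0,k2,k0],[k1,k0,k0,k0,k1,k1],[k0,k1,k1,k0,k1,k0],[k0,k1,k0,k1,k1,k0],[k0,k1,k0,k0,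
    k2,k0],[k0,k0,k2,k0,k1,k0],[k0,k0,k1,k1,k1,k0],[k0,k0,k1,k0,k2,k0],[k0,k0,k1,k0,k1,k1],[k0,k0,k0,k1,k2,k0],[k0,k0,
    k0,k1,k1,k1],[k0,k0,k0,k0,k3,k0],[k0,k0,k0,k0,k2,k1],[k0,k0,k0,k0,k1,k2],[k0,k0,k0,k0,k0,k3]]
    [.ref k12 k0 [(z5,[y4,z15,y4,z0,y4,z4]),(z5,[z2,z0,z17,z0,z2,y2]),(z5,[z8,z0,z8,z15,z8,y8]),(z5,[y16,z0,y16,z0,y1,
    z16]),(z5,[z11,y15,y4,y15,y4,z4])],.ref k12 k0 [(z3,[y2,z7,y4,y4,y4,z4]),(z3,[z1,z1,z11,z2,z2,y2]),(z3,[z4,z4,z8,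
    z17,z8,y8]),(z3,[y8,y8,y16,y16,y7,z16]),(z6,[z11,y7,z4,z4,z4,y4])],.ref k12 k0 [(z1,[y2,z3,y2,y2,y2,z2]),(z1,[z1,
    z0,z4,z1,z1,y1]),(z1,[z4,z0,z4,z7,z4,y4]),(z1,[y8,z0,y8,y8,y5,z8]),(z2,[z11,y6,z5,z5,z5,y5])],.ref k12 k0 [(z7,
    [y4,z17,z0,z0,y4,z4]),(z7,[z2,z2,z21,z0,z2,y2]),(z7,[z8,z8,z0,z21,z8,y8]),(z7,[y16,y16,z0,z0,z5,z16]),(z7,[z11,
    y10,y21,y21,y10,z10])],.ref k12 k0 [(z1,[z4,z7,z0,z4,z0,y4]),(z1,[y2,y2,z3,y2,z0,z2]),(z1,[y8,y8,z0,y5,z0,z8]),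
    (z1,[z16,z16,z0,z16,z3,y16]),(z1,[y11,y14,y3,y14,y3,z14])],.ref k12 k0 [(z2,[y1,z4,y1,y2,y2,z2]),(z4,[z1,z2,z13,
    z2,z2,y2]),(z1,[z1,z2,z1,z5,z2,y2]),(z1,[y2,y4,y2,y4,y1,z4]),(z8,[z11,y2,y13,y2,y2,z2])],.ref k12 k0 [(z9,[y4,z23,
    y4,z4,y4,z4]),(z9,[z2,z2,z29,y2,z2,y2]),(z9,[z8,z8,z8,z19,z8,y8]),(z9,[y16,y16,y16,z16,z11,z16]),(z9,[z11,y16,y16,
    y38,y16,z16])],.ref k12 k0 [(z1,[y4,y1,y4,z0,z0,z4]),(z1,[z2,z2,z5,z0,z0,y2]),(z1,[z8,z8,z8,z3,z0,y8]),(z1,[y16,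
    y16,y16,z0,z3,z16]),(z1,[z11,z8,z8,y3,y3,y8])],.ref k12 k0 [(z5,[y2,z11,y4,y2,y4,z4]),(z5,[z1,z2,z17,z1,z2,y2]),
    (z5,[z4,z8,z8,z19,z8,y8]),(z5,[y8,y16,y16,y8,y1,z16]),(z10,[z11,y8,y8,y19,y8,z8])],.ref k12 k0 [(z3,[y2,z7,y2,z0,
    y2,z2]),(z3,[z1,z1,z10,z0,z1,y1]),(z3,[z4,z4,z4,z9,z4,y4]),(z3,[y8,y8,y8,z0,z1,z8]),(z6,[z11,y7,y7,y18,y7,z7])],
    .ref k12 k0 [(z1,[y2,y1,y4,y4,y2,z4]),(z1,[z1,z2,z5,z2,z1,y2]),(z1,[z4,z8,z8,z11,z4,y8]),(z1,[y8,y16,y16,y16,y5,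
    z16]),(z2,[z11,z16,z16,z16,z5,y16])],.ref k12 k0 [(z1,[z2,z5,z2,z2,z0,y2]),(z1,[y1,y1,z2,y1,z0,z1]),(z1,[y4,y4,y4,
    y1,z0,z4]),(z1,[z8,z8,z8,z8,z3,y8]),(z2,[y11,y17,y17,y17,y6,z17])],.ref k12 k0 [(z11,[y4,z21,y12,y12,y12,z12]),
    (z11,[z2,z6,z39,z6,z6,y6]),(z11,[z8,z24,z24,z57,z24,y24]),(z11,[y16,y48,y48,y48,y15,z48]),(z1,[z1])],
    .ref k12 k0 [(z7,[y4,z13,y8,y8,y8,z8]),(z7,[z2,z4,z25,z4,z4,y4]),(z7,[z8,z16,z16,z37,z16,y16]),(z7,[y16,y32,y32,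
    y32,y11,z32]),(z7,[z11,z1,z1,z1,z1,y1])],.ref k12 k0 [(z3,[y4,z5,y4,y4,y4,z4]),(z3,[z2,z2,z11,z2,z2,y2]),(z3,[z8,
    z8,z8,z17,z8,y8]),(z3,[y16,y16,y16,y16,y7,z16]),(z3,[z11,z2,z2,z2,z2,y2])],.ref k12 k0 [(z1,[z4,z3]),(z1,[y2,z0,
    z3]),(z1,[y8,z0,z0,z3]),(z1,[z16,z0,z0,z0,z3]),(z1,[y11,y3,y3,y3,y3,z3])]],
    .leafM k0 [k0,k1,k2,k3,k4,k5] [(z1,[z0,z1,z1,z1])] [],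
    .lp [k160,k160,k174,k148,k168,k148] [k7,k7,k7,k7,k0,k0,k13,k13,k3,k3,k13,k13] k0 [[k0,k0,k0,k0,k0,k0,k24,k0,k4],[],[],
    [k0,k0,k0,k0,k0,k12,k0,k4],[k0,k0,k12],[k0,k0,k0,k0,k0,k0,k0,k12,k0,k0,k0,k2],[k0,k0,k4,k0,k12],[k0,k24,k0,k0,k0,
    k0,k0,k0,k0,k4],[k0,k0,k0,k0,k0,k0,k4,k0,k0,k0,k34],[k0,k4],[k0,k0,k0,k0,k2],[k0,k0,k0,k0,k0,k0,k0,k0,k0,
    k34]] (nat_lit 480) k5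
    [[(k8,k130),(k6,k154),(k10,k154),(k0,k160),(k2,k160),(k4,k169)],[(k9,k140),(k11,k150),(k7,k154),(k1,k160),(k3,
    k160),(k5,k167)],[(k10,k154),(k0,k160),(k2,k160),(k4,k167),(k8,k168),(k6,k178)],[(k11,k154),(k1,k160),(k3,k160),
    (k7,k166),(k5,k167),(k9,k168)],[(k6,k157),(k10,k161),(k4,k162),(k0,k167),(k2,k167),(k8,k171)],[(k7,k161),(k11,
    k161),(k5,k162),(k3,k167),(k1,k169),(k9,k183)],[(k6,k136),(k10,k146),(k0,k154),(k8,k158),(k4,k161),(k2,k166)],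
    [(k7,k136),(k11,k152),(k1,k154),(k5,k157),(k9,k158),(k3,k178)],[(k0,k140),(k6,k158),(k10,k158),(k8,k164),(k2,
    k168),(k4,k183)],[(k1,k130),(k7,k158),(k11,k158),(k9,k164),(k3,k168),(k5,k171)],[(k0,k150),(k6,k152),(k2,k154),
    (k8,k158),(k4,k161),(k10,k182)],[(k7,k146),(k1,k154),(k3,k154),(k9,k158),(k5,k161),(k11,k182)]]
    [] k0
    [[k2,k0,k0,k1,k0,k0],[k2,k0,k0,k0,k1,k0],[k2,k0,k0,k0,k0,k1],[k1,k1,k0,k0,k1,k0],[k1,k1,k0,k0,k0,k1],[k1,k0,k0,k2,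
    k0,k0],[k1,k0,k0,k1,k1,k0],[k1,k0,k0,k1,k0,k1],[k1,k0,k0,k0,k2,k0],[k1,k0,k0,k0,k1,k1],[k0,k2,k0,k0,k0,k1],[k0,k1,
    k0,k1,k0,k1],[k0,k0,k1,k2,k0,k0],[k0,k0,k1,k1,k0,k1],[k0,k0,k0,k3,k0,k0],[k0,k0,k0,k2,k1,k0],[k0,k0,k0,k2,k0,k1],
    [k0,k0,k0,k1,k1,k1]]
    [.ref k12 k0 [(z1,[z6,y9,z0,z0,y2]),(z1,[y3,z6,z3,z0,z1]),(z2,[z9,y18,z0,z2,y3]),(z1,[y9,z18,z0,z0,z4]),(z1,[z0,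
    y3,y3,y1,y1,z3])],.ref k12 k0 [(z2,[z3,z3,z3,z1,z1,y3]),(z4,[y3,z3,z9,y1,y1,z3]),(z8,[z9,y9,z9,z11,z3,y9]),(z4,
    [y9,z9,y9,y3,z1,z9]),(z1,[z0,y3,y3,y1,y1,z3])],.ref k12 k0 [(z3,[z4,z1]),(z3,[y2,z4,z9]),(z1,[z1,y2,z0,z1]),(z1,
    [y2,z4,z0,z0,z1]),(z1,[z0,y3,y3,y1,y1,z3])],.ref k12 k0 [(z1,[z6,z3,z0,z2,z2,y6]),(z1,[y3,z0,z3,y1,y1,z3]),(z2,
    [z9,z0,z0,z5,z3,y9]),(z1,[y9,z0,z0,y3,y2,z9]),(z1,[z0,y3,y3,y1,y1,z3])],.ref k12 k0 [(z1,[z4,y1,y4]),(z1,[y2,z2,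
    z5]),(z1,[z3,y3,y3,z1]),(z1,[y6,z6,z6,z0,z1]),(z1,[z0,y3,y3,y1,y1,z3])],.ref k12 k0 [(z2,[y3,z9,z0,z0,z2]),(z4,
    [z3,y3,z12,z0,y2]),(z8,[y9,z9,z0,z8,z6]),(z4,[z9,y9,z0,z0,y2]),(z1,[z0,y3,y3,y1,y1,z3])],.ref k12 k0 [(z1,[y6,z3,
    y6,y2,z0,z6]),(z1,[z3,z0,z6,z1,z0,y3]),(z2,[y9,z0,y9,y1,z0,z9]),(z1,[z9,z0,z9,z3,z1,y9]),(z1,[z0,y3,y3,y1,y1,
    z3])],.ref k12 k0 [(z1,[y12,z15,z0,z0,z4]),(z1,[z6,y6,z3,z0,y2]),(z1,[y9,z9,z0,z1,z3]),(z1,[z18,y18,z0,z0,y5]),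
    (z1,[z0,y3,y3,y1,y1,z3])],.ref k12 k0 [(z1,[z3,z6,z6,z2,z2,y6]),(z2,[y3,y3,z0,y2,y2,z6]),(z4,[z9,z9,z18,z10,z6,
    y18]),(z2,[y9,y9,y18,y6,y4,z18]),(z1,[z0,y3,y3,y1,y1,z3])],.ref k12 k0 [(z5,[z12,z15,z12,z4,z4,y12]),(z5,[y6,z0,
    z9,y2,y2,z6]),(z5,[z9,z0,z9,z8,z3,y9]),(z5,[y18,z0,y18,y6,y1,z18]),(z1,[z0,y3,y3,y1,y1,z3])],.ref k12 k0 [(z1,[y4,
    z3,z8]),(z1,[z2,z0,y1]),(z1,[y3,z0,z6,z1]),(z1,[z6,z0,y12,z0,z1]),(z1,[z0,y3,y3,y1,y1,z3])],.ref k12 k0 [(z7,[y12,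
    z21,z12,z0,z4]),(z7,[z6,z0,z15,z0,y2]),(z7,[y9,z0,z9,z7,z3]),(z7,[z18,z0,y18,z0,z1]),(z1,[z0,y3,y3,y1,y1,z3])],
    .ref k12 k0 [(z9,[y12,z27,z0,z4,z8]),(z9,[z6,z0,z27,y2,y4]),(z3,[y3,z0,z0,z4,z2]),(z3,[z6,z0,z0,y2,y1]),(z1,[z0,
    y3,y3,y1,y1,z3])],.ref k12 k0 [(z1,[y6,z3,z0,z2,z2]),(z1,[z3,z0,z3,y1,y1]),(z2,[y9,z0,z0,z5,z3]),(z1,[z9,z0,z0,y3,
    y2]),(z1,[z0,y3,y3,y1,y1,z3])],.ref k12 k0 [(z3,[y2,z9,z0,z0,z2]),(z3,[z1,z0,z9,z0,y1]),(z2,[y1,z0,z0,z2,z1]),(z1,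
    [z1]),(z1,[z0,y3,y3,y1,y1,z3])],.ref k12 k0 [(z3,[y3,z6,y3,y1,z1,z3]),(z6,[z3,z3,z21,z1,y1,y3]),(z4,[y3,y3,y3,z3,
    z1,z3]),(z2,[z3,z3,z3,z1,z1,y3]),(z1,[z0,y3,y3,y1,y1,z3])],.ref k12 k0 [(z11,[y12,z33,z0,z0,z8]),(z11,[z6,z0,z33,
    z0,y4]),(z11,[y9,z0,z0,z11,z6]),(z11,[z18,z0,z0,z0,y1]),(z1,[z0,y3,y3,y1,y1,z3])],.ref k12 k0 [(z5,[y12,z3,y12,y4,
    z0,z12]),(z5,[z6,z6,z21,z2,z0,y6]),(z5,[y9,y9,y9,z2,z0,z9]),(z5,[z18,z18,z18,z6,z5,y18]),(z1,[z0,y3,y3,y1,y1,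
    z3])]]]

noncomputable def cT6_3_n6_1 : List TN :=
  [.lp [k172,k166,k142,k164,k152,k162] [k0,k0,k3,k3,k15,k15,k4,k4,k10,k10,k5,k5] k0 [[k0,k0,k0,k0,k0,k0,k8,k0,k4],[k0,k0,
    k0,k6],[k6,k0,k0,k0,k0,k0,k0,k0,k0,k0,k6],[k0,k0,k0,k0,k0,k8],[k0,k0,k8,k0,k0,k0,k10],[k0,k0,k0,k0,k0,k0,k0,k0,k0,
    k0,k0,k2],[k0,k0,k0,k0,k0,k0,k0,k0,k14],[k0,k8,k0,k0,k0,k10],[k0,k0,k0,k0,k0,k0,k0,k0,k0,k0,k8],[k0,k4,k0,k0,k0,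
    k0,k0,k14],[k0,k0,k0,k0,k2],[k0,k0,k0,k6,k0,k0,k0,k0,k0,k8]] (nat_lit 480) k5
    [[(k8,k154),(k4,k159),(k2,k163),(k10,k167),(k6,k168),(k0,k172)],[(k9,k154),(k5,k163),(k11,k163),(k7,k168),(k3,
    k169),(k1,k172)],[(k4,k154),(k2,k160),(k8,k163),(k10,k164),(k0,k169),(k6,k173)],[(k5,k154),(k9,k159),(k3,k160),
    (k1,k163),(k11,k164),(k7,k173)],[(k4,k134),(k8,k147),(k6,k153),(k2,k154),(k10,k158),(k0,k163)],[(k5,k134),(k9,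
    k137),(k11,k152),(k7,k153),(k3,k154),(k1,k159)],[(k4,k153),(k8,k158),(k10,k161),(k0,k168),(k2,k173),(k6,k174)],
    [(k11,k149),(k5,k153),(k9,k158),(k1,k168),(k3,k173),(k7,k174)],[(k4,k137),(k0,k154),(k10,k157),(k6,k158),(k2,
    k159),(k8,k166)],[(k5,k147),(k1,k154),(k11,k157),(k7,k158),(k3,k163),(k9,k166)],[(k6,k149),(k4,k152),(k8,k157),
    (k0,k163),(k2,k164),(k10,k170)],[(k9,k157),(k5,k158),(k7,k161),(k3,k164),(k1,k167),(k11,k170)]]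
    [] k0
    [[k1,k0,k2,k0,k0,k0],[k1,k0,k1,k0,k1,k0],[k1,k0,k0,k0,k2,k0],[k1,k0,k0,k0,k1,k1],[k0,k2,k1,k0,k0,k0],[k0,k1,k2,k0,
    k0,k0],[k0,k1,k1,k0,k1,k0],[k0,k1,k1,k0,k0,k1],[k0,k0,k3,k0,k0,k0],[k0,k0,k2,k1,k0,k0],[k0,k0,k2,k0,k1,k0],[k0,k0,
    k2,k0,k0,k1],[k0,k0,k1,k1,k1,k0],[k0,k0,k1,k1,k0,k1],[k0,k0,k1,k0,k2,k0],[k0,k0,k1,k0,k1,k1],[k0,k0,k0,k1,k1,k1]]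
    [.ref (nat_lit 280) k8 [(z2,[z0,y1,y2,y5,z2]),(z1,[z0,z0,z0,z1]),(z1,[z1,z1,z0,y3]),(z1,[y2,z1,z3,z6])],
    .ref (nat_lit 271) k8 [(z2,[z0,y1,y2,y5,z2]),(z1,[z0,z0,z0,z1]),(z1,[z1,z1,z1,z1,y1]),(z1,[y1,z0,z0,y1,z1])],
    .ref (nat_lit 281) k8 [(z2,[z0,y1,y2,y5,z2]),(z1,[z0,z0,z0,z1]),(z1,[z1,z1,z2,z5,y2]),(z1,[y2,y1,y3,y10,z4])],
    .ref (nat_lit 282) k8 [(z2,[z0,y1,y2,y5,z2]),(z1,[z0,z0,z0,z1]),(z2,[z2,z1,z2,z3,y2]),(z1,[y2,z0,y1,y3,z2])],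
    .ref k66 k8 [(z2,[z0,y1,y2,y5,z2]),(z1,[z0,z0,z0,z1]),(z2,[y2,z3,z4,z3]),(z1,[z2,z0,y1,y3])],
    .ref (nat_lit 278) k0 [(z2,[y1,z1,z1]),(z1,[z1]),(z2,[y1,z0,z1,z3]),(z2,[y4,y3,y2,y3,z6])],.ref k10 k8 [(z2,[z0,
    y1,y2,y5,z2]),(z1,[z0,z0,z0,z1]),(z1,[y1,z0,z0,y1,z1]),(z1,[z2,z1,z1,z2,y2])],.ref k99 k8 [(z2,[z0,y1,y2,y5,z2]),
    (z1,[z0,z0,z0,z1]),(z2,[y2,z1,z2,z5]),(z1,[z2,z0,y1,y5])],.ref (nat_lit 283) k8 [(z2,[z0,y1,y2,y5,z2]),(z1,[z0,z0,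
    z0,z1]),(z2,[z2,z3,z0,y9]),(z1,[y2,z0,z3,z9])],.ref k84 k10 [(z1,[y6,z0,z1,z3]),(z2,[z6,z1,z0,y3]),(z1,[y2,z0,z0,
    z1]),(z2,[z8,y1,y2,y5,z2])],.ref k10 k8 [(z2,[z0,y1,y2,y5,z2]),(z1,[z0,z0,z0,z1]),(z4,[z2,z3,z2,y1,y2]),(z2,[y2,
    y1,z0,z1,z2])],.ref k13 k8 [(z2,[z0,y1,y2,y5,z2]),(z1,[z0,z0,z0,z1]),(z2,[z1,z1,z0,y4]),(z1,[y1,z0,z1,z4])],
    .ref (nat_lit 282) k8 [(z2,[z0,y1,y2,y5,z2]),(z1,[z0,z0,z0,z1]),(z1,[z1,z1,z1,z1,y1]),(z1,[y2,y1,y1,y2,z2])],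
    .ref k13 k8 [(z2,[z0,y1,y2,y5,z2]),(z1,[z0,z0,z0,z1]),(z2,[z2,z1,z0,y5]),(z1,[y2,z0,z1,z5])],.ref k99 k8 [(z2,[z0,
    y1,y2,y5,z2]),(z1,[z0,z0,z0,z1]),(z2,[z2,z3,z4,z7,y4]),(z1,[y2,y2,y3,y7,z4])],.ref k10 k8 [(z2,[z0,y1,y2,y5,z2]),
    (z1,[z0,z0,z0,z1]),(z1,[z1,z1,z1,z0,y1]),(z1,[y2,y1,y1,z0,z2])],.ref (nat_lit 278) k0 [(z1,[z1,z1,z1,z0,y1]),(z1,
    [y2,y1,y1,z0,z2]),(z2,[z2,z1,z2,z3,y2]),(z2,[z8,z1,z2,y3,y2])]],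
    .lp [k78,k90,k72,k80,k76,k82] [k7,k7,k2,k0,k10,k10,k6,k6,k8,k8,k5,k5] k0 [[k0,k0,k0,k0,k0,k0,k0,k0,k6],[k0,k0,k0,k0,
    k0,k22,k0,k0,k0,k0,k0,k12],[k0,k0,k0,k0,k20,k0,k0,k0,k0,k0,k18],[k0,k0,k0,k0,k0,k0,k0,k4],[k22],[k0,k0,k0,k20,k0,
    k0,k0,k0,k0,k8],[k0,k0,k4,k0,k0,k0,k0,k0,k20],[k0,k0,k0,k0,k0,k0,k0,k0,k0,k0,k0,k14],[k0,k0,k0,k0,k8,k0,k0,k0,k0,
    k0,k16],[k0,k6,k0,k0,k0,k0,k0,k20],[k12,k0,k0,k0,k0,k0,k14],[k0,k0,k0,k18,k0,k0,k0,k0,k0,k16]] (nat_lit 240) k5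
    [[(k8,k61),(k2,k65),(k4,k75),(k10,k80),(k0,k90),(k6,k93)],[(k11,k74),(k5,k75),(k9,k77),(k3,k85),(k1,k90),(k7,
    k101)],[(k4,k60),(k10,k75),(k0,k85),(k6,k86),(k2,k90),(k8,k90)],[(k7,k64),(k1,k65),(k5,k80),(k11,k85),(k9,k86),
    (k3,k90)],[(k6,k72),(k8,k74),(k0,k75),(k2,k80),(k4,k92),(k10,k95)],[(k3,k60),(k9,k74),(k1,k75),(k7,k76),(k11,k85),
    (k5,k92)],[(k2,k64),(k8,k70),(k4,k76),(k6,k80),(k10,k81),(k0,k101)],[(k11,k61),(k5,k72),(k9,k78),(k7,k80),(k3,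
    k86),(k1,k93)],[(k10,k65),(k4,k74),(k0,k77),(k6,k78),(k2,k86),(k8,k96)],[(k1,k61),(k7,k70),(k5,k74),(k11,k79),(k3,
    k90),(k9,k96)],[(k6,k61),(k0,k74),(k8,k79),(k2,k85),(k4,k85),(k10,k98)],[(k9,k65),(k3,k75),(k1,k80),(k7,k81),(k5,
    k95),(k11,k98)]]
    [] k0
    [[k2,k0,k0,k0,k1,k0],[k1,k1,k1,k0,k0,k0],[k1,k1,k0,k0,k1,k0],[k1,k1,k0,k0,k0,k1],[k1,k0,k1,k0,k1,k0],[k1,k0,k0,k0,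
    k2,k0],[k1,k0,k0,k0,k1,k1],[k0,k2,k1,k0,k0,k0],[k0,k1,k2,k0,k0,k0],[k0,k1,k1,k1,k0,k0],[k0,k1,k1,k0,k1,k0],[k0,k1,
    k0,k2,k0,k0],[k0,k1,k0,k1,k1,k0],[k0,k1,k0,k1,k0,k1],[k0,k0,k1,k2,k0,k0],[k0,k0,k1,k1,k1,k0],[k0,k0,k1,k1,k0,k1],
    [k0,k0,k1,k0,k1,k1],[k0,k0,k0,k2,k1,k0],[k0,k0,k0,k2,k0,k1],[k0,k0,k0,k1,k1,k1]]
    [.ref (nat_lit 267) k0 [(z2,[z1,z1,z1,y1]),(z1,[y1,z1,z0,z1]),(z2,[z1,y1,z1,y1])],.ref (nat_lit 268) k0 [(z1,[y1,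
    z2,z1]),(z1,[z2,y2,y1]),(z1,[y1,z1,z1])],.ref k19 k8 [(z1,[z2,y1,y1,y1]),(z1,[y1,z0,z0,z1]),(z1,[z1,z1,z0,y1])],
    .ref (nat_lit 267) k0 [(z1,[y1,z2,z1]),(z1,[z2,y2,y1]),(z1,[y1,z1,z1])],.ref (nat_lit 269) k6 [(z1,[z2,z0,z1,y2]),
    (z1,[y1,z0,z0,z1]),(z1,[z0,y1,y1,z1])],.ref (nat_lit 274) k0 [(z1,[z1,z2,z2,y2]),(z1,[y2,y2,y3,z4]),(z1,[z1,z1,z2,
    y2])],.ref (nat_lit 267) k0 [(z1,[z1,z1,z1,y1]),(z1,[y2,z0,y1,z2]),(z1,[z1,z0,z1,y1])],.ref (nat_lit 279) k1 [(z1,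
    [z1,y3,y2]),(z1,[y2,z5,z3,z1]),(z1,[z1,y4,y2])],.ref (nat_lit 268) k0 [(z2,[y1,z2,z1]),(z1,[z1]),(z2,[y1,z0,z1])],
    .ref (nat_lit 267) k0 [(z1,[y1,z1,z1]),(z1,[z2,z0,y1]),(z1,[y1,z0,z1])],.ref k166 k6 [(z1,[z1,z1,z1,y1]),(z1,[y2,
    y2,y1,z2]),(z1,[z0,y1,y1,z1])],.ref (nat_lit 221) k6 [(z2,[y1,z0,z1]),(z1,[z1]),(z1,[z0,y1,y1,z1])],
    .ref k166 k2 [(z1,[z1,y2,y1]),(z1,[y2,z1,z1,z1]),(z1,[z0,z2,z1])],.ref (nat_lit 269) k6 [(z1,[y2,z0,z1]),(z1,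
    [z1]),(z1,[z0,y1,y1,z1])],.ref k166 k6 [(z1,[y1,z0,z1]),(z1,[z2,z0,y1]),(z1,[z0,y1,y1,z1])],
    .ref (nat_lit 267) k0 [(z1,[z1,z2,z1,y1]),(z1,[y2,y2,y1,z2]),(z1,[z1,z1,z1,y1])],.ref k19 k8 [(z1,[y2,y1,y1,z1]),
    (z1,[z1]),(z1,[y1,z1])],.ref (nat_lit 221) k6 [(z1,[z1,z1,z1,y1]),(z1,[y2,y2,y1,z2]),(z1,[z0,y1,y1,z1])],
    .ref (nat_lit 268) k0 [(z2,[z1,z3,z1,y1]),(z1,[y1,y1,z0,z1]),(z2,[z1,z1,z1,y1])],.ref (nat_lit 284) k0 [(z1,[z1,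
    z2]),(z1,[y1,z0,z1]),(z1,[z1])],.ref (nat_lit 268) k0 [(z1,[z1,z2,z1,y1]),(z1,[y2,y2,y1,z2]),(z1,[z1,z1,z1,y1])]],
    .lp [k86,k80,k68,k84,k74,k86] [k0,k0,k3,k3,k9,k9,k1,k1,k7,k5,k0,k0] k0 [[k0,k0,k0,k0,k0,k0,k0,k0,k6],[k0,k0,k0,k0,k0,
    k2],[k0,k0,k0,k0,k20,k0,k0,k0,k0,k0,k6],[k0,k0,k0,k0,k0,k0,k0,k0,k0,k4],[k2,k0,k0,k0,k0,k0,k12],[k0,k0,k0,k20,k0,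
    k0,k0,k0,k0,k6],[k0,k0,k0,k0,k0,k0,k0,k0,k16],[k0,k0,k0,k0,k0,k12,k0,k0,k0,k0,k0,k10],[k0,k0,k4,k0,k6],[k0,k6,k0,
    k0,k0,k0,k0,k16],[k0,k0,k0,k0,k0,k0,k10],[k0,k0,k0,k6]] (nat_lit 240) k5
    [[(k2,k77),(k4,k77),(k8,k79),(k0,k86),(k10,k86),(k6,k95)],[(k5,k77),(k11,k80),(k9,k81),(k3,k83),(k1,k86),(k7,
    k87)],[(k4,k72),(k2,k80),(k6,k82),(k8,k82),(k0,k83),(k10,k83)],[(k7,k62),(k5,k74),(k1,k77),(k9,k78),(k3,k80),(k11,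
    k87)],[(k8,k66),(k2,k74),(k6,k76),(k0,k77),(k10,k83),(k4,k88)],[(k9,k60),(k3,k72),(k7,k76),(k1,k77),(k11,k83),(k5,
    k88)],[(k2,k62),(k8,k72),(k4,k76),(k10,k85),(k0,k87),(k6,k96)],[(k11,k69),(k5,k76),(k9,k80),(k3,k82),(k1,k95),(k7,
    k96)],[(k4,k60),(k10,k71),(k2,k78),(k6,k80),(k0,k81),(k8,k90)],[(k5,k66),(k7,k72),(k1,k79),(k11,k79),(k3,k82),(k9,
    k90)],[(k6,k69),(k8,k79),(k0,k80),(k4,k83),(k10,k86),(k2,k87)],[(k9,k71),(k3,k83),(k5,k83),(k7,k85),(k1,k86),(k11,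
    k86)]]
    [] k0
    [[k1,k1,k1,k0,k0,k0],[k1,k0,k1,k0,k1,k0],[k1,k0,k0,k0,k1,k1],[k0,k2,k1,k0,k0,k0],[k0,k2,k0,k1,k0,k0],[k0,k1,k2,k0,
    k0,k0],[k0,k1,k1,k1,k0,k0],[k0,k1,k1,k0,k1,k0],[k0,k1,k0,k1,k1,k0],[k0,k1,k0,k1,k0,k1],[k0,k0,k2,k0,k1,k0],[k0,k0,
    k1,k1,k1,k0],[k0,k0,k1,k0,k2,k0],[k0,k0,k1,k0,k1,k1],[k0,k0,k1,k1,k0,k1],[k0,k0,k0,k1,k1,k1],[k0,k0,k0,k0,k1,k2]]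
    [.ref k2 k0 [(z1,[y1,z1,z1]),(z1,[z2,y1,y1])],.ref k3 k10 [(z1,[y2,z1,z1]),(z1,[z1])],.ref k4 k11 [(z1,[z0,z1,
    z1]),(z1,[z2,y1,y1])],.ref k80 k10 [(z1,[z1]),(z1,[y1,z2,z2])],.ref k155 k2 [(z1,[z1,y2,y2]),(z1,[y1,z1,z2])],
    .ref k2 k0 [(z2,[y1,z1,z1]),(z1,[z1])],.ref k4 k11 [(z1,[z0,z1,z1]),(z1,[y2,y1,z1])],.ref k187 k11 [(z1,[z0,z1,
    z1]),(z1,[y2,y1,z1])],.ref (nat_lit 209) k2 [(z1,[z1,y1,y1]),(z1,[y1,z0,z1])],.ref k3 k10 [(z1,[z2,z1,y1]),(z1,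
    [y1,z0,z1])],.ref (nat_lit 234) k0 [(z1,[z1,z2]),(z1,[y1,y1,z1])],.ref (nat_lit 235) k0 [(z1,[z1,z1]),(z1,[y2,y1,
    z1])],.ref (nat_lit 256) k2 [(z1,[y1,y1]),(z1,[z1])],.ref (nat_lit 261) k2 [(z1,[y1,y1]),(z1,[z1])],
    .ref (nat_lit 266) k0 [(z1,[z1,z1]),(z1,[y2,y1,z1])],.ref k2 k0 [(z1,[z1,z1]),(z1,[y2,y1,z1])],
    .ref (nat_lit 285) k0 [(z1,[z1,z1]),(z1,[y2,y1,z1])]],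
    .leafM k0 [k1,k2,k3,k4,k5,k0] [(z1,[y1,y1,z1])] [],
    .leafM k1 [k0,k1,k2,k3,k4,k5] [(z1,[z0,z1]),(z1,[z0,y1,z1])] [],
    .leafM k0 [k2,k3,k4,k5,k0,k1] [(z1,[y1,y1,z0,z1])] [],
    .lp [k168,k170,k154,k164,k140,k162] [k1,k1,k0,k0,k8,k8,k3,k3,k15,k15,k4,k4] k0 [[k0,k0,k0,k0,k0,k0,k0,k0,k4,k0,k8],
    [k0,k0,k0,k0,k0,k0,k0,k8],[k0,k0,k0,k0,k8,k0,k0,k0,k0,k0,k10],[k0,k0,k0,k0,k0,k0,k0,k0,k0,k4],[k0,k0,k0,k0,k0,k0,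
    k12],[k0,k0,k0,k8],[k8],[k0,k0,k0,k0,k0,k12],[k0,k0,k4],[k0,k4,k0,k0,k0,k0,k0,k0,k0,k0,k0,k8],[k0,k0,k0,k0,k0,k0,
    k0,k0,k8],[k0,k8,k0,k10]] (nat_lit 480) k5
    [[(k2,k159),(k0,k160),(k4,k161),(k8,k162),(k10,k165),(k6,k166)],[(k1,k160),(k5,k161),(k11,k161),(k9,k162),(k7,
    k166),(k3,k169)],[(k6,k159),(k8,k159),(k4,k162),(k0,k169),(k2,k170),(k10,k174)],[(k9,k155),(k1,k159),(k7,k159),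
    (k5,k162),(k3,k170),(k11,k170)],[(k8,k143),(k6,k159),(k0,k161),(k2,k162),(k4,k162),(k10,k168)],[(k9,k135),(k11,
    k158),(k7,k159),(k1,k161),(k3,k162),(k5,k162)],[(k8,k152),(k2,k159),(k4,k159),(k10,k163),(k0,k166),(k6,k176)],
    [(k9,k152),(k3,k159),(k5,k159),(k11,k163),(k1,k166),(k7,k176)],[(k4,k135),(k8,k140),(k10,k151),(k6,k152),(k2,
    k155),(k0,k162)],[(k9,k140),(k5,k143),(k11,k151),(k7,k152),(k3,k159),(k1,k162)],[(k8,k151),(k10,k154),(k4,k158),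
    (k0,k161),(k6,k163),(k2,k170)],[(k9,k151),(k11,k154),(k7,k163),(k1,k165),(k5,k168),(k3,k174)]]
    [] k0
    [[k1,k0,k1,k0,k1,k0],[k1,k0,k0,k0,k2,k0],[k1,k0,k0,k0,k1,k1],[k0,k1,k1,k0,k1,k0],[k0,k1,k0,k1,k1,k0],[k0,k1,k0,k0,
    k2,k0],[k0,k0,k2,k0,k1,k0],[k0,k0,k1,k1,k1,k0],[k0,k0,k1,k0,k2,k0],[k0,k0,k1,k0,k1,k1],[k0,k0,k0,k1,k2,k0],[k0,k0,
    k0,k1,k1,k1],[k0,k0,k0,k0,k3,k0],[k0,k0,k0,k0,k2,k1],[k0,k0,k0,k0,k1,k2],[k0,k0,k0,k0,k0,k3]]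
    [.ref k12 k0 [(z6,[y22,z9,y11,z0,y22,z22]),(z3,[z1,z0,z5,z0,z1,y1]),(z3,[z4,z0,z2,z9,z4,y4]),(z3,[y8,z0,y4,z0,z1,
    z8]),(z6,[z32,y9,z7,y18,z14,y14])],.ref k12 k0 [(z7,[y11,z5,y11,y22,y22,z22]),(z14,[z2,z1,z23,z4,z4,y4]),(z7,[z4,
    z2,z4,z29,z8,y8]),(z7,[y8,y4,y8,y16,z5,z16]),(z14,[z32,y5,z11,z22,z22,y22])],.ref k12 k0 [(z2,[y22,z3,y11,y22,y22,
    z22]),(z1,[z1,z0,z2,z1,z1,y1]),(z1,[z4,z0,z2,z7,z4,y4]),(z1,[y8,z0,y4,y8,y5,z8]),(z2,[z32,y3,z13,z26,z26,y26])],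
    .ref k12 k0 [(z7,[y11,z5,z0,z0,y11,z11]),(z14,[z2,z1,z21,z0,z2,y2]),(z7,[z4,z2,z0,z21,z4,y4]),(z7,[y8,y4,z0,z0,
    z13,z8]),(z14,[z32,y5,y21,y42,y10,z10])],.ref k12 k0 [(z3,[y11,y1,z0,y11,z0,z11]),(z6,[z2,z1,z9,z2,z0,y2]),(z3,
    [z4,z2,z0,z13,z0,y4]),(z3,[y8,y4,z0,y8,z9,z8]),(z6,[z32,z7,y9,z14,y18,y14])],.ref k12 k0 [(z2,[y2,z1,y1,y4,y4,
    z4]),(z11,[z1,z1,z17,z2,z2,y2]),(z11,[z4,z4,z2,z41,z8,y8]),(z11,[y8,y8,y4,y16,z17,z16]),(z22,[z32,y1,y17,y2,y2,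
    z2])],.ref k12 k0 [(z16,[y22,z13,y11,z22,y22,z22]),(z16,[z2,z1,z25,y2,z2,y2]),(z4,[z2,z1,z1,z10,z2,y2]),(z2,[y2,
    y1,y1,z2,z4,z2]),(z2,[z4,y1,y1,y10,y2,z2])],.ref k12 k0 [(z8,[y22,z1,y11,z0,z0,z22]),(z8,[z2,z1,z13,z0,z0,y2]),
    (z2,[z2,z1,z1,z6,z0,y2]),(z1,[y2,y1,y1,z0,z3,z2]),(z2,[z8,z1,z1,y6,y6,y2])],.ref k12 k0 [(z12,[y11,z7,y11,y11,y22,
    z22]),(z12,[z1,z1,z19,z1,z2,y2]),(z3,[z1,z1,z1,z10,z2,y2]),(z3,[y2,y2,y2,y2,z5,z4]),(z6,[z8,y1,y1,y10,y2,z2])],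
    .ref k12 k0 [(z12,[y22,z7,y11,z0,y22,z22]),(z12,[z2,z1,z19,z0,z2,y2]),(z3,[z2,z1,z1,z9,z2,y2]),(z3,[y4,y2,y2,z0,
    z5,z4]),(z6,[z16,y1,y1,y18,y2,z2])],.ref k12 k0 [(z8,[y11,z1,y11,y22,y11,z22]),(z8,[z1,z1,z13,z2,z1,y2]),(z2,[z1,
    z1,z1,z8,z1,y2]),(z1,[y1,y1,y1,y2,z2,z2]),(z2,[z4,z1,z1,z2,y2,y2])],.ref k12 k0 [(z4,[y22,y5,y11,y22,z0,z22]),(z4,
    [z2,z1,z7,z2,z0,y2]),(z1,[z2,z1,z1,z5,z0,y2]),(z1,[y4,y2,y2,y4,z3,z4]),(z2,[z16,z5,z5,z10,y6,y10])],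
    .ref k12 k0 [(z32,[y22,z15,y33,y66,y66,z66]),(z32,[z2,z3,z51,z6,z6,y6]),(z8,[z2,z3,z3,z30,z6,y6]),(z4,[y2,y3,y3,
    y6,z6,z6]),(z1,[z1])],.ref k12 k0 [(z10,[y11,z4,y11,y22,y22,z22]),(z10,[z1,z1,z16,z2,z2,y2]),(z5,[z2,z2,z2,z19,z4,
    y4]),(z5,[y4,y4,y4,y8,z7,z8]),(z10,[z16,z1,z1,z2,z2,y2])],.ref k12 k0 [(z8,[y22,z1,y11,y22,y22,z22]),(z8,[z2,z1,
    z13,z2,z2,y2]),(z2,[z2,z1,z1,z8,z2,y2]),(z1,[y2,y1,y1,y2,z1,z2]),(z2,[z8,z1,z1,z2,z2,y2])],.ref k12 k0 [(z2,[z11,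
    z3]),(z2,[y1,z0,z3]),(z1,[y2,z0,z0,z3]),(z1,[z4,z0,z0,z0,z3]),(z2,[y16,y3,y3,y6,y6,z6])]],
    .lp [(nat_lit 480),(nat_lit 504),(nat_lit 510),(nat_lit 498),(nat_lit 420),(nat_lit 462)] [k15,k15,k3,k3,k0,k0,k6,k6,
    k49,k41,k24,k24] k0 [[k0,k0,k0,k0,k0,k0,k0,k0,k84],[k0,k0,k0,k0,k0,k6],[k0,k0,k0,k0,k12,k0,k0,k0,k0,k0,k48],[k0,
    k0,k0,k0,k0,k0,k0,k54,k0,k54],[k6,k0,k0,k0,k0,k0,k0,k0,k102],[k0,k0,k0,k12],[k0,k0,k54],[k0,k0,k0,k0,k0,k0,k0,k0,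
    k0,k0,k0,k84],[k0,k0,k54,k0,k0,k0,k0,k0,k0,k0,k18],[k0,k84,k0,k0,k0,k102],[k0,k0,k0,k0,k0,k0,k84],[k0,k0,k0,k48,
    k0,k0,k0,k0,k0,k18]] (nat_lit 1440) k5
    [[(k8,(nat_lit 428)),(k2,(nat_lit 444)),(k10,(nat_lit 471)),(k0,(nat_lit 480)),(k4,(nat_lit 495)),(k6,
    (nat_lit 573))],[(k11,(nat_lit 387)),(k9,(nat_lit 454)),(k1,(nat_lit 480)),(k3,(nat_lit 492)),(k5,(nat_lit 495)),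
    (k7,(nat_lit 495))],[(k10,(nat_lit 483)),(k0,(nat_lit 492)),(k4,(nat_lit 501)),(k6,(nat_lit 501)),(k2,
    (nat_lit 504)),(k8,(nat_lit 542))],[(k1,(nat_lit 444)),(k7,(nat_lit 489)),(k3,(nat_lit 504)),(k5,(nat_lit 507)),
    (k9,(nat_lit 520)),(k11,(nat_lit 537))],[(k8,(nat_lit 407)),(k6,(nat_lit 450)),(k0,(nat_lit 495)),(k2,
    (nat_lit 507)),(k4,(nat_lit 522)),(k10,(nat_lit 534))],[(k11,(nat_lit 384)),(k9,(nat_lit 469)),(k1,(nat_lit 495)),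
    (k3,(nat_lit 501)),(k7,(nat_lit 504)),(k5,(nat_lit 522))],[(k10,(nat_lit 480)),(k2,(nat_lit 489)),(k0,
    (nat_lit 495)),(k6,(nat_lit 498)),(k4,(nat_lit 504)),(k8,(nat_lit 557))],[(k5,(nat_lit 450)),(k9,(nat_lit 463)),
    (k11,(nat_lit 480)),(k7,(nat_lit 498)),(k3,(nat_lit 501)),(k1,(nat_lit 573))],[(k10,(nat_lit 361)),(k8,
    (nat_lit 420)),(k0,(nat_lit 454)),(k6,(nat_lit 463)),(k4,(nat_lit 469)),(k2,(nat_lit 520))],[(k5,(nat_lit 407)),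
    (k9,(nat_lit 420)),(k1,(nat_lit 428)),(k11,(nat_lit 437)),(k3,(nat_lit 542)),(k7,(nat_lit 557))],[(k4,
    (nat_lit 384)),(k0,(nat_lit 387)),(k8,(nat_lit 437)),(k6,(nat_lit 480)),(k10,(nat_lit 480)),(k2,(nat_lit 537))],
    [(k9,(nat_lit 361)),(k1,(nat_lit 471)),(k7,(nat_lit 480)),(k11,(nat_lit 480)),(k3,(nat_lit 483)),(k5,
    (nat_lit 534))]]
    [] k0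
    [[k2,k1,k0,k0,k0,k0],[k2,k0,k0,k0,k1,k0],[k2,k0,k0,k0,k0,k1],[k1,k1,k0,k0,k0,k1],[k1,k0,k1,k0,k1,k0],[k1,k0,k1,k0,
    k0,k1],[k1,k0,k0,k1,k1,k0],[k1,k0,k0,k0,k2,k0],[k1,k0,k0,k0,k1,k1],[k1,k0,k0,k0,k0,k2],[k0,k1,k1,k0,k1,k0],[k0,k1,
    k1,k0,k0,k1],[k0,k0,k2,k0,k1,k0],[k0,k0,k1,k1,k0,k1],[k0,k0,k1,k1,k1,k0],[k0,k0,k1,k0,k2,k0],[k0,k0,k1,k0,k1,k1],
    [k0,k0,k1,k0,k0,k2],[k0,k0,k0,k1,k1,k1],[k0,k0,k0,k0,k3,k0],[k0,k0,k0,k0,k2,k1],[k0,k0,k0,k0,k1,k2]]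
    [.ref k12 k0 [(z1,[z2,y1,y2]),(z1,[y1,z2,z4]),(z1,[y2,z4,z2,z1]),(z1,[z1,y2,y1,z0,z1]),(z2,[y1,y4,y5,y2,y2,z6])],
    .ref k12 k0 [(z7,[z12,z9,z12,z4,z4,y12]),(z7,[y6,z6,z15,y2,y2,z6]),(z7,[y12,z12,y12,z3,y4,z12]),(z7,[z6,y6,z6,z2,
    z9,y6]),(z7,[y3,y18,y24,y8,y8,z24])],.ref k12 k0 [(z3,[z4,z1]),(z3,[y2,z4,z9]),(z3,[y4,z8,z0,z3]),(z3,[z2,y4,z0,
    z0,z3]),(z3,[y1,y7,y9,y3,y3,z9])],.ref k12 k0 [(z1,[z4,y1,y4]),(z1,[y2,z2,z5]),(z1,[y4,z4,z4,z1]),(z1,[z2,y2,y2,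
    z0,z1]),(z1,[y1,y2,y2,y1,y1,z3])],.ref k12 k0 [(z1,[y12,z3,y12,z0,y4,z12]),(z1,[z6,z0,z9,z0,z2,y6]),(z1,[z12,z0,
    z12,z1,z4,y12]),(z1,[y6,z0,y6,z0,y1,z6]),(z1,[z3,y3,z0,y1])],.ref k12 k0 [(z1,[z12,y9,z0,y4]),(z1,[y6,z6,z3,z2]),
    (z1,[y12,z12,z0,z5]),(z1,[z6,y6,z0,y2,z1]),(z1,[y3,z0,y3,z0,y1,z3])],.ref k12 k0 [(z5,[z12,z15,z12,z4,z0,y12]),
    (z5,[y6,z0,z9,y2,z0,z6]),(z5,[y12,z0,y12,z1,z0,z12]),(z5,[z6,z0,z6,z2,z5,y6]),(z5,[y3,y15,y18,y6,y5,z18])],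
    .ref k12 k0 [(z1,[z6,z9,z12,z4,z4,y12]),(z1,[y3,y3,y3,y2,y2,z6]),(z1,[y6,y6,y12,y3,y4,z12]),(z1,[z3,z3,z6,z2,z3,
    y6]),(z2,[y3,y9,y12,y4,y4,z12])],.ref k12 k0 [(z1,[z3,z3,z3,z1,z1,y3]),(z2,[y3,z0,z3,y1,y1,z3]),(z1,[y3,z0,y3,z0,
    y1,z3]),(z2,[z3,z0,z3,z1,z3,y3]),(z4,[y3,y12,y15,y5,y5,z15])],.ref k12 k0 [(z1,[z2,z1]),(z1,[y1,z1,z3]),(z1,[y2,
    z2,z0,z1]),(z1,[z1,y1,z0,z0,z1]),(z2,[y1,y5,y6,y2,y2,z6])],.ref k12 k0 [(z7,[y12,z9,z0,z0,y4,z12]),(z7,[z6,z6,z21,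
    z0,z2,y6]),(z7,[z12,z12,z0,z7,z4,y12]),(z7,[y6,y6,z0,z0,z5,z6]),(z7,[z3,y18,y21,y7,y6,z18])],.ref k12 k0 [(z5,
    [y12,z15,z12,z4]),(z5,[z6,z0,z9,y2]),(z5,[z12,z0,y12,z1]),(z5,[y6,z0,z6,z2,z5]),(z5,[z3,y15,y18,y6,y5,z15])],
    .ref k12 k0 [(z9,[y12,z15,y12,z4,y4,z12]),(z9,[z6,z6,z33,y2,z2,y6]),(z9,[z12,z12,z12,z5,z4,y12]),(z9,[y6,y6,y6,z2,
    z7,z6]),(z9,[z3,y24,y24,y10,y8,z24])],.ref k12 k0 [(z1,[y12,z3,z0,z4,z4]),(z1,[z6,z0,z3,y2,y2]),(z1,[z12,z0,z0,y3,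
    y4]),(z1,[y6,z0,z0,z2,z3]),(z1,[z3,y3,y3,y2,y2,z3])],.ref k12 k0 [(z1,[y4,y1,y4,z0,z0,z4]),(z1,[z2,z2,z5,z0,z0,
    y2]),(z1,[z4,z4,z4,z1,z0,y4]),(z1,[y2,y2,y2,z0,z1,z2]),(z1,[z1,y2,y2,y1,y1,z2])],.ref k12 k0 [(z3,[y6,y3,y12,y2,
    y4,z12]),(z3,[z3,z6,z15,z1,z2,y6]),(z3,[z6,z12,z12,z5,z4,y12]),(z3,[y3,y6,y6,y1,z1,z6]),(z6,[z3,y12,y12,y5,y4,
    z12])],.ref k12 k0 [(z1,[y3,z0,y3,z0,y1,z3]),(z2,[z3,z3,z9,z0,z1,y3]),(z1,[z3,z3,z3,z1,z1,y3]),(z2,[y3,y3,y3,z0,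
    z1,z3]),(z4,[z3,y9,y9,y4,y3,z9])],.ref k12 k0 [(z1,[y6,z3,z0,z2]),(z1,[z3,z0,z3,y1]),(z1,[z6,z0,z0,y1]),(z1,[y3,
    z0,z0,z1,z1]),(z2,[z3,y6,y6,y3,y2,z6])],.ref k12 k0 [(z1,[z6,z9,z6,z2,z0,y6]),(z1,[y3,y3,z0,y1,z0,z3]),(z1,[y6,y6,
    y6,y1,z0,z6]),(z1,[z3,z3,z3,z1,z1,y3]),(z2,[y3,y9,y9,y3,y2,z9])],.ref k12 k0 [(z1,[y4,y9,y12,y4,y4,z12]),(z1,[z2,
    z6,z9,z2,z2,y6]),(z1,[z4,z12,z12,z5,z4,y12]),(z1,[y2,y6,y6,y2,y1,z6]),(z1,[z1])],.ref k12 k0 [(z1,[y12,y21,y24,y8,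
    y8,z24]),(z1,[z6,z12,z15,z4,z4,y12]),(z1,[z12,z24,z24,z9,z8,y24]),(z1,[y6,y12,y12,y4,y3,z12]),(z1,[z3,z3,z3,z1,z1,
    y3])],.ref k12 k0 [(z1,[z12,z15,z12,z4,z4,y12]),(z1,[y6,y6,y3,y2,y2,z6]),(z1,[y12,y12,y12,y3,y4,z12]),(z1,[z6,z6,
    z6,z2,z3,y6]),(z1,[y3,y6,y6,y2,y2,z6])]],
    .lp [(nat_lit 478),(nat_lit 482),(nat_lit 498),(nat_lit 498),(nat_lit 454),(nat_lit 464)] [k10,k10,k8,k8,k0,k0,k0,k0,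
    k22,k22,k17,k17] k0 [[k0,k0,k0,k0,k0,k0,k20,k0,k2],[k0,k0,k0,k0,k0,k0,k0,k0,k0,k0,k0,k22],[k0,k0,k0,k0,k0,k0,k0,
    k0,k24,k0,k2],[k0,k0,k0,k0,k0,k18,k0,k20],[k0,k0,k18],[k0,k0,k0,k0,k0,k0,k0,k10],[k0,k0,k20,k0,k10],[k0,k20,k0,k0,
    k0,k0,k0,k0,k0,k0,k0,k2],[k0,k0,k0,k0,k0,k0,k0,k0,k0,k0,k76],[k0,k2,k0,k24],[k22,k0,k0,k0,k0,k0,k2],[k0,k0,k0,k2,
    k0,k0,k0,k0,k0,k76]] (nat_lit 1440) k5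
    [[(k8,(nat_lit 390)),(k10,(nat_lit 471)),(k2,(nat_lit 478)),(k4,(nat_lit 488)),(k6,(nat_lit 490)),(k0,
    (nat_lit 500))],[(k9,(nat_lit 446)),(k11,(nat_lit 469)),(k3,(nat_lit 480)),(k5,(nat_lit 488)),(k7,(nat_lit 488)),
    (k1,(nat_lit 500))],[(k10,(nat_lit 451)),(k8,(nat_lit 470)),(k0,(nat_lit 480)),(k2,(nat_lit 482)),(k4,
    (nat_lit 490)),(k6,(nat_lit 510))],[(k11,(nat_lit 449)),(k1,(nat_lit 478)),(k3,(nat_lit 482)),(k9,(nat_lit 488)),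
    (k5,(nat_lit 490)),(k7,(nat_lit 508))],[(k6,(nat_lit 478)),(k4,(nat_lit 480)),(k10,(nat_lit 483)),(k0,
    (nat_lit 488)),(k2,(nat_lit 490)),(k8,(nat_lit 500))],[(k5,(nat_lit 480)),(k11,(nat_lit 481)),(k9,(nat_lit 486)),
    (k1,(nat_lit 488)),(k3,(nat_lit 490)),(k7,(nat_lit 498))],[(k8,(nat_lit 476)),(k10,(nat_lit 481)),(k0,
    (nat_lit 488)),(k6,(nat_lit 488)),(k4,(nat_lit 498)),(k2,(nat_lit 508))],[(k9,(nat_lit 476)),(k5,(nat_lit 478)),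
    (k11,(nat_lit 481)),(k7,(nat_lit 488)),(k1,(nat_lit 490)),(k3,(nat_lit 510))],[(k0,(nat_lit 446)),(k8,
    (nat_lit 454)),(k10,(nat_lit 457)),(k6,(nat_lit 476)),(k4,(nat_lit 486)),(k2,(nat_lit 488))],[(k1,(nat_lit 390)),
    (k9,(nat_lit 454)),(k11,(nat_lit 459)),(k3,(nat_lit 470)),(k7,(nat_lit 476)),(k5,(nat_lit 500))],[(k2,
    (nat_lit 449)),(k8,(nat_lit 459)),(k0,(nat_lit 469)),(k4,(nat_lit 481)),(k6,(nat_lit 481)),(k10,(nat_lit 540))],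
    [(k3,(nat_lit 451)),(k9,(nat_lit 457)),(k1,(nat_lit 471)),(k7,(nat_lit 481)),(k5,(nat_lit 483)),(k11,
    (nat_lit 540))]]
    [] k0
    [[k2,k0,k0,k0,k1,k0],[k1,k1,k0,k0,k1,k0],[k1,k1,k0,k0,k0,k1],[k1,k0,k1,k0,k1,k0],[k1,k0,k0,k1,k1,k0],[k1,k0,k0,k0,
    k2,k0],[k1,k0,k0,k0,k1,k1],[k0,k2,k0,k0,k0,k1],[k0,k1,k1,k0,k0,k1],[k0,k1,k0,k0,k2,k0],[k0,k1,k0,k0,k1,k1],[k0,k0,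
    k1,k0,k1,k1],[k0,k0,k0,k1,k2,k0],[k0,k0,k0,k1,k1,k1],[k0,k0,k0,k0,k3,k0],[k0,k0,k0,k0,k2,k1]]
    [.ref k8 k7 [(z2,[z3,y5,y1,y7,z4]),(z1,[z0,z0,z0,z1]),(z1,[y1,z1,z0,z1]),(z2,[z1,z0,z0,y1])],.ref k26 k7 [(z1,[z3,
    y2,y1,y4,z1]),(z1,[z0,z0,z0,z1]),(z1,[y4,z2,z1,z4]),(z2,[z4,y1,y1,y4])],.ref k47 k5 [(z1,[z1,z0,z0,z1,y1]),(z2,
    [z2,y1,z1]),(z2,[y4,z5,z1]),(z1,[z4,y2,y1])],.ref k8 k7 [(z2,[z6,y5,y1,y10,z4]),(z1,[z0,z0,z0,z1]),(z1,[y2,z1,z0,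
    z2]),(z1,[z1,z0,z0,y1])],.ref k33 k9 [(z1,[z4,z0,z1,z2,y4]),(z2,[y2,y1,y1,y2,z4]),(z1,[y4,z0,y1,z0,z4]),(z1,[z0,
    z0,z1])],.ref k26 k7 [(z4,[z6,y5,y1,y16,z4]),(z1,[z0,z0,z0,z1]),(z1,[y2,z1,z0,z4]),(z1,[z1,z0,z0,y2])],
    .ref k23 k2 [(z4,[y6,z1,y1,y2,z4]),(z1,[z0,z0,z0,z1]),(z2,[z2,y1,z1]),(z1,[y1,z1])],.ref k47 k5 [(z2,[z1,z1,z0,z2,
    y2]),(z2,[z1,z0,z1]),(z2,[y2,z3,z1]),(z1,[z2,z0,y1])],.ref k33 k9 [(z1,[y4,z0,z1,z2]),(z2,[z2,y1,y1,y2,z2]),(z1,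
    [z4,z0,y1]),(z1,[z0,z0,z1])],.ref (nat_lit 290) k2 [(z1,[y6,y1,z1,y1,z2]),(z1,[z0,z0,z0,z1]),(z1,[z1]),(z2,[y4,z1,
    z1])],.ref k42 k8 [(z1,[z6,z5,z1,z5,y10]),(z1,[y4,y4,y1,y4,z8]),(z2,[z4,z5,z1,z4,y8]),(z1,[y1,y1,z0,y1,z2])],
    .ref k24 k5 [(z1,[z3,z2,z1,z1,y4]),(z2,[z2,z1,z1,z0,y2]),(z2,[y4,y1,y1,z0,z4]),(z1,[z4,z2,z1,z0,y4])],
    .ref (nat_lit 291) k7 [(z1,[z1,z0,z0,y2]),(z1,[z0,z0,z0,z1]),(z1,[y4,y2,y1,z4,z4]),(z2,[z4,z5,z1,y4,y4])],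
    .ref k23 k2 [(z1,[y3,y2,y1,y2,z4]),(z1,[z0,z0,z0,z1]),(z1,[z2,z1,z1,z1,y2]),(z2,[y4,y1,y1,y2,z4])],
    .ref k65 k5 [(z2,[y1,z0,z0,z3]),(z2,[y1,y3,z3,y3,z6]),(z2,[z2,z15,z3,z6,y12]),(z1,[y2,y6,y3,y6,z12])],
    .ref k23 k2 [(z4,[y3,y2,y1,y2,z4]),(z1,[z0,z0,z0,z1]),(z2,[z1,z0,z1]),(z2,[y1,z1])]],
    .lp [k162,k172,k136,k172,k146,k170] [k5,k5,k0,k0,k18,k18,k0,k0,k13,k13,k1,k1] k0 [[k0,k0,k0,k0,k0,k0,k0,k0,k2],[k0,k0,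
    k0,k12],[k12,k0,k0,k0,k0,k0,k0,k0,k0,k0,k2],[],[],[k0,k0,k0,k0,k0,k0,k0,k0,k0,k2,k0,k12],[k0,k0,k0,k0,k0,k0,k0,k0,
    k20],[k0,k0,k0,k0,k0,k0,k0,k0,k0,k0,k0,k2],[k0,k0,k0,k0,k2],[k0,k2,k0,k0,k0,k0,k0,k20],[k0,k0,k0,k0,k12,k0,k2],
    [k0,k0,k0,k2]] (nat_lit 480) k5
    [[(k8,k154),(k4,k161),(k0,k162),(k2,k165),(k10,k166),(k6,k169)],[(k9,k154),(k5,k161),(k1,k162),(k11,k164),(k3,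
    k167),(k7,k167)],[(k4,k154),(k2,k160),(k8,k161),(k0,k167),(k10,k171),(k6,k172)],[(k5,k154),(k9,k159),(k3,k160),
    (k1,k165),(k11,k171),(k7,k172)],[(k4,k136),(k8,k141),(k2,k154),(k6,k154),(k10,k155),(k0,k161)],[(k5,k136),(k9,
    k141),(k3,k154),(k7,k154),(k11,k155),(k1,k161)],[(k4,k154),(k8,k157),(k10,k159),(k0,k167),(k2,k172),(k6,k172)],
    [(k11,k151),(k5,k154),(k9,k159),(k1,k169),(k3,k172),(k7,k172)],[(k4,k141),(k0,k154),(k10,k156),(k2,k159),(k6,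
    k159),(k8,k166)],[(k5,k141),(k1,k154),(k7,k157),(k11,k158),(k3,k161),(k9,k166)],[(k6,k151),(k4,k155),(k8,k158),
    (k0,k164),(k10,k170),(k2,k171)],[(k5,k155),(k9,k156),(k7,k159),(k1,k166),(k11,k170),(k3,k171)]]
    [] k0
    [[k2,k0,k0,k0,k1,k0],[k1,k0,k2,k0,k0,k0],[k1,k0,k1,k0,k1,k0],[k1,k0,k0,k0,k2,k0],[k1,k0,k0,k0,k1,k1],[k0,k2,k1,k0,
    k0,k0],[k0,k1,k2,k0,k0,k0],[k0,k1,k1,k0,k1,k0],[k0,k0,k3,k0,k0,k0],[k0,k0,k2,k1,k0,k0],[k0,k0,k2,k0,k1,k0],[k0,k0,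
    k2,k0,k0,k1],[k0,k0,k1,k1,k1,k0],[k0,k0,k1,k1,k0,k1],[k0,k0,k1,k0,k2,k0],[k0,k0,k1,k0,k1,k1],[k0,k0,k0,k1,k1,k1]]
    [.ref k167 k0 [(z2,[z1,z1,z1,z1,y1]),(z1,[z0,z0,z1]),(z1,[y1,z1,y1,z0,z1]),(z2,[z1,y1,z1,z1,y1])],
    .ref k149 k3 [(z1,[z0,z0,z1]),(z1,[z2,y2,z0,y1]),(z1,[y1,z1,z0,z2]),(z1,[z0,y1,y1,y1,z1])],.ref k108 k6 [(z1,[z2,
    z0,y2,z1,y2]),(z1,[y1,z0,z1,z0,z1]),(z1,[z0,y1,z1,y1,z1]),(z1,[z0,z0,y1])],.ref k24 k11 [(z1,[z1,z2,y2,z2,y2]),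
    (z1,[z0,z0,y1]),(z1,[z0,y1,z1,y1,z1]),(z1,[z1,z1,y2,z2,y2])],.ref k167 k0 [(z1,[z1,z1,z1,z1,y1]),(z1,[z0,z0,z1]),
    (z1,[y2,z0,y2,y1,z2]),(z1,[z1,z0,z1,z1,y1])],.ref k167 k0 [(z2,[y1,z2,z2,z1]),(z1,[z0,z0,z1]),(z1,[z1,z0,y2]),(z2,
    [y1,z0,z2,z1])],.ref k50 k3 [(z1,[z1,y4,z0,y2]),(z1,[z0,z2,z0,z1]),(z1,[z0,y1]),(z1,[y2,z7,z1,z3,z1])],
    .ref k10 k8 [(z1,[z2,z1,y1,y1,y1]),(z1,[y1,y1,z0,z0,z1]),(z1,[z0,z1]),(z1,[y1,y1,z1,z0,z1])],.ref k149 k3 [(z1,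
    [z0,z0,z1]),(z1,[z1]),(z2,[y1,z0,z0,z3]),(z1,[z0,y1,y1,y1,z1])],.ref k149 k3 [(z1,[z0,z0,z1]),(z1,[z2,z0,z0,y1]),
    (z1,[y1,z0,z0,z2]),(z1,[z0,y1,y1,y1,z1])],.ref k10 k8 [(z1,[z1,z0,z0,y2]),(z2,[y1,y1,y1,z1,z1]),(z1,[z0,z1]),(z2,
    [y1,y1,z1,z1,z1])],.ref k50 k3 [(z1,[z1,y4,z1,y2]),(z1,[z0,z2,z0,z1]),(z1,[z0,y1]),(z1,[y2,z7,y1,z3,z1])],
    .ref k108 k6 [(z1,[z2,z2,y2,z1,y2]),(z1,[y1,y1,z1,z0,z1]),(z1,[z0,y1,z1,y1,z1]),(z1,[z0,z0,y1])],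
    .ref k167 k0 [(z1,[y1,z1,z0,z1]),(z1,[z0,z0,z1]),(z1,[z2,z0,z0,y1]),(z1,[y1,z0,z0,z1])],.ref k108 k6 [(z1,[z1,z2,
    y2,z2,y2]),(z2,[y1,y2,z2,y1,z2]),(z1,[z0,y1,z1,y1,z1]),(z1,[z0,z0,y1])],.ref k10 k8 [(z1,[z2,z1,z1,y1,y1]),(z1,
    [y1,y1,y1,z0,z1]),(z1,[z0,z1]),(z1,[y1,y1,z0,z0,z1])],.ref k167 k0 [(z1,[z1,z2,z1,z1,y1]),(z1,[z0,z0,z1]),(z1,[y2,
    y2,y2,y1,z2]),(z1,[z1,z1,z1,z1,y1])]],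
    .lp [k162,k172,k162,k158,k158,k146] [k5,k5,k0,k0,k5,k5,k7,k7,k7,k7,k13,k13] k0 [[k0,k0,k0,k0,k0,k0,k0,k0,k2,k0,k2],
    [k0,k0,k0,k12],[k12,k0,k0,k0,k10],[k0,k0,k0,k0,k0,k0,k0,k2,k0,k6],[k0,k0,k0,k0,k0,k0,k6],[k0,k0,k0,k10,k0,k0,k0,
    k0,k0,k0,k0,k12],[k0,k0,k2,k0,k0,k0,k0,k0,k18],[k0,k0,k0,k0,k0,k6],[k0,k0,k6,k0,k0,k0,k0,k0,k0,k0,k8],[k0,k2,k0,
    k0,k0,k0,k0,k18],[k0,k0,k0,k0,k12],[k0,k2,k0,k0,k0,k0,k0,k0,k0,k8]] (nat_lit 480) k5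
    [[(k8,k152),(k10,k154),(k0,k160),(k6,k160),(k2,k167),(k4,k174)],[(k11,k152),(k1,k160),(k7,k160),(k9,k160),(k3,
    k167),(k5,k174)],[(k2,k160),(k10,k161),(k6,k165),(k0,k167),(k4,k167),(k8,k167)],[(k7,k155),(k3,k160),(k11,k165),
    (k1,k167),(k5,k167),(k9,k167)],[(k8,k154),(k10,k154),(k6,k158),(k2,k167),(k4,k172),(k0,k174)],[(k9,k154),(k11,
    k154),(k7,k160),(k3,k167),(k5,k172),(k1,k174)],[(k10,k140),(k2,k155),(k8,k158),(k0,k160),(k4,k160),(k6,k164)],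
    [(k11,k134),(k5,k158),(k9,k158),(k1,k160),(k7,k164),(k3,k165)],[(k10,k152),(k4,k154),(k6,k158),(k0,k160),(k2,
    k167),(k8,k176)],[(k1,k152),(k11,k152),(k5,k154),(k7,k158),(k3,k167),(k9,k176)],[(k6,k134),(k0,k152),(k8,k152),
    (k4,k154),(k10,k154),(k2,k165)],[(k7,k140),(k9,k152),(k1,k154),(k5,k154),(k11,k154),(k3,k161)]]
    [] k0
    [[k2,k0,k0,k0,k1,k0],[k2,k0,k0,k0,k0,k1],[k1,k0,k0,k1,k1,k0],[k1,k0,k0,k1,k0,k1],[k1,k0,k0,k0,k1,k1],[k1,k0,k0,k0,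
    k0,k2],[k0,k1,k0,k1,k0,k1],[k0,k0,k1,k1,k1,k0],[k0,k0,k1,k1,k0,k1],[k0,k0,k1,k0,k1,k1],[k0,k0,k1,k0,k0,k2],[k0,k0,
    k0,k2,k0,k1],[k0,k0,k0,k1,k1,k1],[k0,k0,k0,k1,k0,k2],[k0,k0,k0,k0,k1,k2],[k0,k0,k0,k0,k0,k3]]
    [.ref k12 k0 [(z3,[z6,z3,z2,z2,z1,y6]),(z1,[z0,z0,z1]),(z1,[y6,z6,y2,y1,y1,z6]),(z1,[z3,y3,z1,z1,z1,y3]),(z3,[y3,
    y6,y4,y4,y2,z12])],.ref k12 k0 [(z1,[z1,z1]),(z1,[z0,z0,z1]),(z1,[y3,z6,z0,z1]),(z2,[z3,y6,z0,z0,z1]),(z2,[y1,y4,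
    y2,y2,y1,z6])],.ref k12 k0 [(z2,[z3,z6,z1,z1,z0,y3]),(z1,[z0,z0,z1]),(z2,[y9,z0,y3,y1,z0,z9]),(z4,[z9,z0,z3,z3,z2,
    y9]),(z4,[y3,y12,y5,y5,y2,z15])],.ref k12 k0 [(z7,[z6,z15,z0,z0,y1]),(z1,[z0,z0,z1]),(z7,[y18,z18,z0,z7,z3]),(z7,
    [z9,y9,z0,z0,z2]),(z7,[y3,y18,y7,y7,y3,z21])],.ref k12 k0 [(z3,[z6,z9,z2,z2,z1,y6]),(z1,[z0,z0,z1]),(z1,[y6,z0,y2,
    y1,y1,z6]),(z1,[z3,z0,z1,z1,z1,y3]),(z3,[y3,y9,y4,y4,y2,z12])],.ref k12 k0 [(z1,[z1,z2]),(z1,[z0,z0,z1]),(z1,[y3,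
    z3,z0,z1]),(z2,[z3,y3,z0,z0,z1]),(z2,[y1,y5,y2,y2,y1,z6])],.ref k12 k0 [(z5,[z6,z15,y2,z0,y1]),(z1,[z0,z0,z1]),
    (z5,[y18,z0,z6,z5,z3]),(z5,[z9,z0,y3,z0,z1]),(z5,[y3,y15,y4,y5,y2,z15])],.ref k12 k0 [(z2,[y3,z3,y1,z0,z0,z3]),
    (z1,[z0,z0,z1]),(z2,[z9,z9,z3,z2,z0,y9]),(z4,[y9,y9,y3,z0,z2,z9]),(z4,[z3,y9,y3,y4,y2,z9])],.ref k12 k0 [(z1,[y6,
    z3,z0,z2,z1]),(z1,[z0,z0,z1]),(z1,[z18,z0,z0,y5,y3]),(z1,[y9,z0,z0,z3,z2]),(z1,[z3,y3,y1,y2,y1,z3])],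
    .ref k12 k0 [(z5,[y6,z9,y2,z0,y1,z6]),(z1,[z0,z0,z1]),(z5,[z18,z18,z6,z5,z3,y18]),(z5,[y9,y9,y3,z0,z1,z9]),(z5,
    [z3,y12,y4,y5,y2,z12])],.ref k12 k0 [(z1,[y3,z3,z0,z1]),(z1,[z0,z0,z1]),(z1,[z9,z0,z0,y2]),(z2,[y9,z0,z0,z3,z1]),
    (z2,[z3,y6,y2,y3,y1,z6])],.ref k12 k0 [(z4,[z3,z12,z0,z0,y1]),(z1,[z0,z0,z1]),(z4,[y9,z0,z0,z4,z3]),(z8,[z9,z0,z0,
    z0,z1]),(z8,[y3,y24,y8,y8,y3,z24])],.ref k12 k0 [(z2,[z3,z9,z1,z1,z0,y3]),(z1,[z0,z0,z1]),(z2,[y9,y9,y3,y1,z0,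
    z9]),(z4,[z9,z9,z3,z3,z2,y9]),(z4,[y3,y15,y5,y5,y2,z15])],.ref k12 k0 [(z7,[z6,z21,z0,z0,y1]),(z1,[z0,z0,z1]),(z7,
    [y18,z0,z0,z7,z3]),(z7,[z9,z0,z0,z0,z2]),(z7,[y3,y21,y7,y7,y3,z21])],.ref k12 k0 [(z3,[z6,z15,z2,z2,z1,y6]),(z1,
    [z0,z0,z1]),(z1,[y6,y6,y2,y1,y1,z6]),(z1,[z3,z3,z1,z1,z1,y3]),(z3,[y3,y12,y4,y4,y2,z12])],.ref k12 k0 [(z1,[z1,
    z3]),(z1,[z0,z0,z1]),(z1,[y3,z0,z0,z1]),(z2,[z3,z0,z0,z0,z1]),(z2,[y1,y6,y2,y2,y1,z6])]],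
    .lp [k168,k170,k154,k164,k140,k162] [k1,k1,k0,k0,k8,k8,k3,k3,k15,k15,k4,k4] k0 [[k0,k0,k0,k0,k0,k0,k0,k0,k4,k0,k8],
    [k0,k0,k0,k0,k0,k0,k0,k8],[k0,k0,k0,k0,k8,k0,k0,k0,k0,k0,k10],[k0,k0,k0,k0,k0,k0,k0,k0,k0,k4],[k0,k0,k0,k0,k0,k0,
    k12],[k0,k0,k0,k8],[k8],[k0,k0,k0,k0,k0,k12],[k0,k0,k4],[k0,k4,k0,k0,k0,k0,k0,k0,k0,k0,k0,k8],[k0,k0,k0,k0,k0,k0,
    k0,k0,k8],[k0,k8,k0,k10]] (nat_lit 480) k5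
    [[(k2,k159),(k0,k160),(k4,k161),(k8,k162),(k10,k165),(k6,k166)],[(k1,k160),(k5,k161),(k11,k161),(k9,k162),(k7,
    k166),(k3,k169)],[(k6,k159),(k8,k159),(k4,k162),(k0,k169),(k2,k170),(k10,k174)],[(k9,k155),(k1,k159),(k7,k159),
    (k5,k162),(k3,k170),(k11,k170)],[(k8,k143),(k6,k159),(k0,k161),(k2,k162),(k4,k162),(k10,k168)],[(k9,k135),(k11,
    k158),(k7,k159),(k1,k161),(k3,k162),(k5,k162)],[(k8,k152),(k2,k159),(k4,k159),(k10,k163),(k0,k166),(k6,k176)],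
    [(k9,k152),(k3,k159),(k5,k159),(k11,k163),(k1,k166),(k7,k176)],[(k4,k135),(k8,k140),(k10,k151),(k6,k152),(k2,
    k155),(k0,k162)],[(k9,k140),(k5,k143),(k11,k151),(k7,k152),(k3,k159),(k1,k162)],[(k8,k151),(k10,k154),(k4,k158),
    (k0,k161),(k6,k163),(k2,k170)],[(k9,k151),(k11,k154),(k7,k163),(k1,k165),(k5,k168),(k3,k174)]]
    [] k0
    [[k1,k0,k1,k0,k1,k0],[k1,k0,k0,k0,k2,k0],[k1,k0,k0,k0,k1,k1],[k0,k1,k1,k0,k1,k0],[k0,k1,k0,k1,k1,k0],[k0,k1,k0,k0,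
    k2,k0],[k0,k0,k2,k0,k1,k0],[k0,k0,k1,k1,k1,k0],[k0,k0,k1,k0,k2,k0],[k0,k0,k1,k0,k1,k1],[k0,k0,k0,k1,k2,k0],[k0,k0,
    k0,k1,k1,k1],[k0,k0,k0,k0,k3,k0],[k0,k0,k0,k0,k2,k1],[k0,k0,k0,k0,k1,k2],[k0,k0,k0,k0,k0,k3]]
    [.ref k12 k0 [(z1,[y1,z3,y1,z0,y1,z1]),(z1,[y1,z0,z2,z0,y1,z1]),(z2,[z1,z0,z1,z6,z1,y1]),(z4,[y7,z0,y7,z0,z5,z7]),
    (z2,[z7,y6,z1,y6,z1,y1])],.ref k12 k0 [(z2,[y1,z5,y2,y2,y2,z2]),(z2,[y1,y1,z4,y2,y2,z2]),(z4,[z1,z1,z2,z14,z2,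
    y2]),(z8,[y7,y7,y14,y14,z10,z14]),(z4,[z7,y5,z2,z2,z2,y2])],.ref k12 k0 [(z3,[y4,z9,y4,y4,y4,z4]),(z3,[y4,z0,z5,
    y4,y4,z4]),(z3,[z2,z0,z2,z11,z2,y2]),(z3,[y7,z0,y7,y7,z2,z7]),(z3,[z14,y9,z5,z5,z5,y5])],.ref k12 k0 [(z1,[y1,z2,
    z0,z0,y1,z1]),(z1,[y1,y1,z3,z0,y1,z1]),(z2,[z1,z1,z0,z6,z1,y1]),(z4,[y7,y7,z0,z0,z5,z7]),(z2,[z7,z1,y6,y6,z1,
    y1])],.ref k12 k0 [(z1,[y4,y1,z0,y4,z0,z4]),(z1,[y4,y4,z3,y4,z0,z4]),(z1,[z2,z2,z0,z5,z0,y2]),(z1,[y7,y7,z0,y7,z3,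
    z7]),(z1,[z14,z11,y3,z11,y3,y11])],.ref k12 k0 [(z2,[y1,z4,y1,y2,y2,z2]),(z2,[y1,y2,z5,y2,y2,z2]),(z4,[z1,z2,z1,
    z14,z2,y2]),(z8,[y7,y14,y7,y14,z10,z14]),(z4,[z7,z2,y5,z2,z2,y2])],.ref k12 k0 [(z3,[y2,z7,y2,z2,y2,z2]),(z3,[y2,
    y2,z7,z2,y2,z2]),(z3,[z1,z1,z1,z8,z1,y1]),(z6,[y7,y7,y7,z7,z11,z7]),(z3,[z7,y2,y2,y16,y2,z2])],.ref k12 k0 [(z3,
    [y4,z5,y4,z0,z0,z4]),(z3,[y4,y4,z5,z0,z0,z4]),(z3,[z2,z2,z2,z9,z0,y2]),(z3,[y7,y7,y7,z0,z9,z7]),(z3,[z14,z5,z5,y9,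
    y9,y5])],.ref k12 k0 [(z5,[y2,z11,y4,y2,y4,z4]),(z5,[y2,y4,z11,y2,y4,z4]),(z5,[z1,z2,z2,z16,z2,y2]),(z10,[y7,y14,
    y14,y7,z16,z14]),(z5,[z7,y1,y1,y8,y1,z1])],.ref k12 k0 [(z5,[y4,z11,y4,z0,y4,z4]),(z5,[y4,y4,z11,z0,y4,z4]),(z5,
    [z2,z2,z2,z15,z2,y2]),(z5,[y7,y7,y7,z0,z8,z7]),(z5,[z14,y1,y1,y15,y1,z1])],.ref k12 k0 [(z7,[y4,z13,y8,y8,y4,z8]),
    (z7,[y4,y8,z13,y8,y4,z8]),(z7,[z2,z4,z4,z25,z2,y4]),(z1,[y1,y2,y2,y2,z2,z2]),(z1,[z2,z1,z1,z1,y1,y1])],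
    .ref k12 k0 [(z1,[y2,z1,y2,y2,z0,z2]),(z1,[y2,y2,z1,y2,z0,z2]),(z1,[z1,z1,z1,z4,z0,y1]),(z2,[y7,y7,y7,y7,z6,z7]),
    (z1,[z7,z4,z4,z4,y3,y4])],.ref k12 k0 [(z7,[y2,z15,y6,y6,y6,z6]),(z7,[y2,y6,z15,y6,y6,z6]),(z7,[z1,z3,z3,z24,z3,
    y3]),(z2,[y1,y3,y3,y3,z3,z3]),(z1,[z1])],.ref k12 k0 [(z9,[y4,z19,y8,y8,y8,z8]),(z9,[y4,y8,z19,y8,y8,z8]),(z9,[z2,
    z4,z4,z31,z4,y4]),(z9,[y7,y14,y14,y14,z13,z14]),(z9,[z14,z1,z1,z1,z1,y1])],.ref k12 k0 [(z1,[y1,z2,y1,y1,y1,z1]),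
    (z1,[y1,y1,z2,y1,y1,z1]),(z2,[z1,z1,z1,z7,z1,y1]),(z4,[y7,y7,y7,y7,z5,z7]),(z2,[z7,z1,z1,z1,z1,y1])],
    .ref k12 k0 [(z1,[z4,z3]),(z1,[z4,z0,z3]),(z1,[y2,z0,z0,z3]),(z1,[z7,z0,z0,z0,z3]),(z1,[y14,y3,y3,y3,y3,z3])]]]

noncomputable def cT6_3_n6_2 : List TN :=
  [.lp [k168,k170,k154,k164,k140,k162] [k1,k1,k0,k0,k8,k8,k3,k3,k15,k15,k4,k4] k0 [[k0,k0,k0,k0,k0,k0,k0,k0,k4,k0,k8],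
    [k0,k0,k0,k0,k0,k0,k0,k8],[k0,k0,k0,k0,k8,k0,k0,k0,k0,k0,k10],[k0,k0,k0,k0,k0,k0,k0,k0,k0,k4],[k0,k0,k0,k0,k0,k0,
    k12],[k0,k0,k0,k8],[k8],[k0,k0,k0,k0,k0,k12],[k0,k0,k4],[k0,k4,k0,k0,k0,k0,k0,k0,k0,k0,k0,k8],[k0,k0,k0,k0,k0,k0,
    k0,k0,k8],[k0,k8,k0,k10]] (nat_lit 480) k5
    [[(k2,k159),(k0,k160),(k4,k161),(k8,k162),(k10,k165),(k6,k166)],[(k1,k160),(k5,k161),(k11,k161),(k9,k162),(k7,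
    k166),(k3,k169)],[(k6,k159),(k8,k159),(k4,k162),(k0,k169),(k2,k170),(k10,k174)],[(k9,k155),(k1,k159),(k7,k159),
    (k5,k162),(k3,k170),(k11,k170)],[(k8,k143),(k6,k159),(k0,k161),(k2,k162),(k4,k162),(k10,k168)],[(k9,k135),(k11,
    k158),(k7,k159),(k1,k161),(k3,k162),(k5,k162)],[(k8,k152),(k2,k159),(k4,k159),(k10,k163),(k0,k166),(k6,k176)],
    [(k9,k152),(k3,k159),(k5,k159),(k11,k163),(k1,k166),(k7,k176)],[(k4,k135),(k8,k140),(k10,k151),(k6,k152),(k2,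
    k155),(k0,k162)],[(k9,k140),(k5,k143),(k11,k151),(k7,k152),(k3,k159),(k1,k162)],[(k8,k151),(k10,k154),(k4,k158),
    (k0,k161),(k6,k163),(k2,k170)],[(k9,k151),(k11,k154),(k7,k163),(k1,k165),(k5,k168),(k3,k174)]]
    [] k0
    [[k1,k0,k1,k0,k1,k0],[k1,k0,k0,k0,k2,k0],[k1,k0,k0,k0,k1,k1],[k0,k1,k1,k0,k1,k0],[k0,k1,k0,k1,k1,k0],[k0,k1,k0,k0,
    k2,k0],[k0,k0,k2,k0,k1,k0],[k0,k0,k1,k1,k1,k0],[k0,k0,k1,k0,k2,k0],[k0,k0,k1,k0,k1,k1],[k0,k0,k0,k1,k2,k0],[k0,k0,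
    k0,k1,k1,k1],[k0,k0,k0,k0,k3,k0],[k0,k0,k0,k0,k2,k1],[k0,k0,k0,k0,k1,k2],[k0,k0,k0,k0,k0,k3]]
    [.ref k12 k0 [(z3,[y2,z9,y2,z0,y1,z2]),(z3,[y2,z0,z7,z0,y1,z2]),(z6,[z2,z0,z2,z9,z1,y2]),(z3,[y5,z0,y5,z0,z2,z5]),
    (z6,[z20,y18,z2,y9,z1,y2])],.ref k12 k0 [(z3,[y1,z8,y2,y1,y1,z2]),(z3,[y1,y1,z7,y1,y1,z2]),(z6,[z1,z1,z2,z10,z1,
    y2]),(z6,[y5,y5,y10,y5,z4,z10]),(z6,[z10,y8,z2,z1,z1,y2])],.ref k12 k0 [(z2,[y2,z6,y2,y1,y1,z2]),(z2,[y2,z0,z4,y1,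
    y1,z2]),(z4,[z2,z0,z2,z7,z1,y2]),(z4,[y10,z0,y10,y5,z1,z10]),(z1,[z5,y3,z2,z1,z1,y2])],.ref k12 k0 [(z3,[y2,z7,z0,
    z0,y1,z2]),(z3,[y2,y2,z9,z0,y1,z2]),(z6,[z2,z2,z0,z9,z1,y2]),(z3,[y5,y5,z0,z0,z2,z5]),(z6,[z20,z2,y18,y9,z1,y2])],
    .ref k12 k0 [(z1,[y2,z1,z0,y1,z0,z2]),(z1,[y2,y2,z3,y1,z0,z2]),(z1,[z1,z1,z0,z2,z0,y1]),(z2,[y10,y10,z0,y5,z3,
    z10]),(z2,[z20,z14,y6,z7,y3,y14])],.ref k12 k0 [(z3,[y1,z7,y1,y1,y1,z2]),(z3,[y1,y2,z8,y1,y1,z2]),(z6,[z1,z2,z1,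
    z10,z1,y2]),(z6,[y5,y10,y5,y5,z4,z10]),(z6,[z10,z2,y8,z1,z1,y2])],.ref k12 k0 [(z4,[y2,z10,y2,z1,y1,z2]),(z4,[y2,
    y2,z10,z1,y1,z2]),(z8,[z2,z2,z2,z11,z1,y2]),(z8,[y10,y10,y10,z5,z7,z10]),(z4,[z10,y2,y2,y11,y1,z2])],
    .ref k12 k0 [(z1,[y1,z2,y1,z0,z0,z1]),(z1,[y1,y1,z2,z0,z0,z1]),(z2,[z1,z1,z1,z3,z0,y1]),(z2,[y5,y5,y5,z0,z3,z5]),
    (z2,[z10,z4,z4,y3,y3,y4])],.ref k12 k0 [(z7,[y2,z17,y4,y1,y2,z4]),(z7,[y2,y4,z17,y1,y2,z4]),(z7,[z1,z2,z2,z11,z1,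
    y2]),(z14,[y10,y20,y20,y5,z11,z20]),(z14,[z20,y2,y2,y11,y1,z2])],.ref k12 k0 [(z3,[y2,z7,y2,z0,y1,z2]),(z3,[y2,y2,
    z7,z0,y1,z2]),(z6,[z2,z2,z2,z9,z1,y2]),(z3,[y5,y5,y5,z0,z2,z5]),(z6,[z20,z2,z2,y9,z1,y2])],.ref k12 k0 [(z5,[y2,
    z11,y4,y2,y1,z4]),(z5,[y2,y4,z11,y2,y1,z4]),(z10,[z2,z4,z4,z17,z1,y4]),(z1,[y1,y2,y2,y1,z1,z2]),(z2,[z4,z2,z2,z1,
    y1,y2])],.ref k12 k0 [(z1,[y2,z1,y2,y1,z0,z2]),(z1,[y2,y2,z1,y1,z0,z2]),(z1,[z1,z1,z1,z2,z0,y1]),(z2,[y10,y10,y10,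
    y5,z3,z10]),(z2,[z20,z14,z14,z7,y3,y14])],.ref k12 k0 [(z10,[y2,z24,y6,y3,y3,z6]),(z10,[y2,y6,z24,y3,y3,z6]),(z20,
    [z2,z6,z6,z33,z3,y6]),(z4,[y2,y6,y6,y3,z3,z6]),(z1,[z1])],.ref k12 k0 [(z3,[y1,z7,y2,y1,y1,z2]),(z3,[y1,y2,z7,y1,
    y1,z2]),(z6,[z1,z2,z2,z10,z1,y2]),(z6,[y5,y10,y10,y5,z4,z10]),(z6,[z10,z2,z2,z1,z1,y2])],.ref k12 k0 [(z2,[y2,z4,
    y2,y1,y1,z2]),(z2,[y2,y2,z4,y1,y1,z2]),(z4,[z2,z2,z2,z7,z1,y2]),(z4,[y10,y10,y10,y5,z1,z10]),(z1,[z5,z2,z2,z1,z1,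
    y2])],.ref k12 k0 [(z1,[z1,z3]),(z1,[z1,z0,z3]),(z2,[y1,z0,z0,z3]),(z2,[z5,z0,z0,z0,z3]),(z2,[y10,y6,y6,y3,y3,
    z6])]],
    .lp [k162,k164,k170,k146,k148,k168] [k4,k4,k3,k3,k0,k0,k12,k12,k11,k11,k1,k1] k0 [[k0,k0,k0,k0,k0,k0,k0,k0,k0,k0,k2],
    [k0,k0,k0,k30],[k30,k0,k0,k0,k0,k0,k2],[k0,k0,k0,k0,k0,k8,k0,k0,k0,k0,k0,k20],[k0,k0,k8,k0,k0,k0,k16],[],[k0,k0,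
    k0,k0,k0,k0,k0,k0,k16],[k0,k0,k0,k2,k0,k16],[k0,k0,k0,k0,k0,k0,k0,k0,k0,k0,k14],[k0,k0,k0,k0,k0,k0,k0,k16],[k0,k0,
    k20],[k0,k2,k0,k0,k0,k0,k0,k0,k0,k14]] (nat_lit 480) k5
    [[(k8,k141),(k6,k154),(k0,k160),(k10,k165),(k4,k166),(k2,k183)],[(k7,k154),(k9,k155),(k1,k160),(k3,k163),(k11,
    k165),(k5,k196)],[(k2,k134),(k6,k155),(k8,k156),(k0,k163),(k4,k167),(k10,k168)],[(k3,k134),(k9,k154),(k7,k163),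
    (k11,k166),(k5,k167),(k1,k183)],[(k10,k149),(k8,k159),(k6,k160),(k4,k162),(k2,k167),(k0,k196)],[(k9,k143),(k7,
    k158),(k5,k162),(k1,k166),(k3,k167),(k11,k169)],[(k8,k147),(k0,k154),(k10,k157),(k4,k158),(k6,k162),(k2,k163)],
    [(k11,k141),(k9,k147),(k1,k154),(k3,k155),(k5,k160),(k7,k162)],[(k4,k143),(k6,k147),(k2,k154),(k0,k155),(k10,
    k158),(k8,k164)],[(k1,k141),(k7,k147),(k3,k156),(k11,k158),(k5,k159),(k9,k164)],[(k6,k141),(k8,k158),(k0,k165),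
    (k2,k166),(k4,k169),(k10,k182)],[(k5,k149),(k7,k157),(k9,k158),(k1,k165),(k3,k168),(k11,k182)]]
    [] k0
    [[k2,k0,k0,k1,k0,k0],[k2,k0,k0,k0,k1,k0],[k1,k0,k0,k2,k0,k0],[k1,k0,k0,k1,k1,k0],[k1,k0,k0,k1,k0,k1],[k1,k1,k0,k0,
    k1,k0],[k1,k0,k0,k0,k2,k0],[k1,k0,k0,k0,k1,k1],[k0,k3,k0,k0,k0,k0],[k0,k2,k1,k0,k0,k0],[k0,k2,k0,k1,k0,k0],[k0,k2,
    k0,k0,k1,k0],[k0,k2,k0,k0,k0,k1],[k0,k1,k0,k1,k1,k0],[k0,k1,k0,k1,k0,k1],[k0,k1,k1,k0,k1,k0],[k0,k1,k0,k0,k2,k0],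
    [k0,k0,k2,k0,k1,k0],[k0,k0,k1,k1,k1,k0],[k0,k0,k1,k0,k2,k0],[k0,k0,k1,k1,k0,k1],[k0,k0,k1,k0,k1,k1],[k0,k0,k0,k2,
    k1,k0],[k0,k0,k0,k2,k0,k1],[k0,k0,k0,k1,k2,k0],[k0,k0,k0,k1,k1,k1]]
    [.ref k12 k0 [(z7,[z9,z1]),(z7,[y6,z4,z21]),(z7,[y6,z4,z0,z21]),(z7,[z3,y2]),(z1,[z0,z0,z0,z0,z1])],
    .ref k12 k0 [(z2,[z3,z0,z0,z0,y1]),(z3,[y3,z2,z9,z0,z1]),(z3,[y3,z2,z0,z9,z1]),(z6,[z3,y2,z0,z0,y1]),(z1,[z0,z0,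
    z0,z0,z1])],.ref k12 k0 [(z5,[z9,z2]),(z5,[y6,z2,z15]),(z5,[y6,z2,z0,z15]),(z5,[z3,y1]),(z1,[z0,z0,z0,z0,z1])],
    .ref k12 k0 [(z4,[z9,z1,z0,z0,y3]),(z2,[y3,z1,z6,z0,z1]),(z2,[y3,z1,z0,z6,z1]),(z4,[z3,y1,z0,z0,y1]),(z1,[z0,z0,
    z0,z0,z1])],.ref k12 k0 [(z4,[z9,z4,z9,z9,z3,y9]),(z2,[y3,z0,z3,y3,y1,z3]),(z2,[y3,z0,y3,z3,y1,z3]),(z4,[z3,z0,z3,
    z3,z1,y3]),(z1,[z0,z0,z0,z0,z1])],.ref k12 k0 [(z1,[z9,y2,y9,z0,y3]),(z1,[y6,z2,z9,z0,z2]),(z1,[y6,z2,z6,z3,z2]),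
    (z1,[z3,y1,y3,z0,y1]),(z1,[z0,z0,z0,z0,z1])],.ref k12 k0 [(z1,[z3,z0,z0,z0,y2]),(z3,[y6,z2,z9,z0,z4]),(z3,[y6,z2,
    z0,z9,z4]),(z3,[z3,y1,z0,z0,y2]),(z1,[z0,z0,z0,z0,z1])],.ref k12 k0 [(z1,[z3,z1,z3,z3,z0,y3]),(z1,[y2,z0,z1,y2,z0,
    z2]),(z1,[y2,z0,y2,z1,z0,z2]),(z1,[z1,z0,z1,z1,z0,y1]),(z1,[z0,z0,z0,z0,z1])],.ref k12 k0 [(z2,[y3,z2,z9]),(z1,
    [z1]),(z1,[z1,z0,y3,z3]),(z2,[y1,z0,z3]),(z1,[z0,z0,z0,z0,z1])],.ref k12 k0 [(z2,[y3,z2,z6,z3]),(z1,[z1,z0,z1,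
    y1]),(z1,[z1,z0,y2,z2]),(z2,[y1,z0,z2,z1]),(z1,[z0,z0,z0,z0,z1])],.ref k12 k0 [(z1,[y3,z1,z6]),(z1,[z2,z0,y1]),
    (z1,[z2,z0,y4,z3]),(z1,[y1,z0,z2]),(z1,[z0,z0,z0,z0,z1])],.ref k12 k0 [(z4,[y9,z4,z18,z0,z3]),(z2,[z3,z0,z0,z0,
    y1]),(z2,[z3,z0,y6,z6,y1]),(z4,[y3,z0,z6,z0,z1]),(z1,[z0,z0,z0,z0,z1])],.ref k12 k0 [(z4,[y9,z1,z9,y9,y3,z9]),(z2,
    [z3,z1,z3,z3,z1,y3]),(z2,[z3,z1,y3,z9,z1,y3]),(z4,[y3,y1,z3,y3,y1,z3]),(z1,[z0,z0,z0,z0,z1])],.ref k12 k0 [(z1,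
    [y9,z1,z9,z0,z3]),(z1,[z6,z0,y3,z0,y2]),(z1,[z6,z0,y6,z3,y2]),(z1,[y3,z0,z3,z0,z1]),(z1,[z0,z0,z0,z0,z1])],
    .ref k12 k0 [(z1,[y9,y2,z0,y9,y3,z9]),(z1,[z6,z2,z3,z6,z2,y6]),(z1,[z6,z2,z0,z9,z2,y6]),(z1,[y3,y1,z0,y3,y1,z3]),
    (z1,[z0,z0,z0,z0,z1])],.ref k12 k0 [(z4,[y9,z4,z9,z9,z3]),(z2,[z3,z0,z3,y3,y1]),(z2,[z3,z0,y3,z3,y1]),(z4,[y3,z0,
    z3,z3,z1]),(z1,[z0,z0,z0,z0,z1])],.ref k12 k0 [(z2,[y9,z2,z9,z0,z6]),(z1,[z3,z0,z0,z0,y2]),(z1,[z3,z0,y3,z3,y2]),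
    (z2,[y3,z0,z3,z0,z2]),(z1,[z0,z0,z0,z0,z1])],.ref k12 k0 [(z4,[y9,z4,z0,z18,z3]),(z2,[z3,z0,z6,y6,y1]),(z2,[z3,z0,
    z0,z0,y1]),(z4,[y3,z0,z0,z6,z1]),(z1,[z0,z0,z0,z0,z1])],.ref k12 k0 [(z1,[y9,z1,z0,z9,z3]),(z1,[z6,z0,z3,y6,y2]),
    (z1,[z6,z0,z0,y3,y2]),(z1,[y3,z0,z0,z3,z1]),(z1,[z0,z0,z0,z0,z1])],.ref k12 k0 [(z2,[y9,z2,z0,z9,z6]),(z1,[z3,z0,
    z3,y3,y2]),(z1,[z3,z0,z0,z0,y2]),(z2,[y3,z0,z0,z3,z2]),(z1,[z0,z0,z0,z0,z1])],.ref k12 k0 [(z1,[y9,y2,y9,z0,y3,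
    z9]),(z1,[z6,z2,z9,z0,z2,y6]),(z1,[z6,z2,z6,z3,z2,y6]),(z1,[y3,y1,y3,z0,y1,z3]),(z1,[z0,z0,z0,z0,z1])],
    .ref k12 k0 [(z2,[y9,y1,y9,z0,z0,z9]),(z1,[z3,z1,z6,z0,z0,y3]),(z1,[z3,z1,z3,z3,z0,y3]),(z2,[y3,y1,y3,z0,z0,z3]),
    (z1,[z0,z0,z0,z0,z1])],.ref k12 k0 [(z2,[z9,z2,z0,z0,y3]),(z1,[y3,z0,z3,z0,z1]),(z1,[y3,z0,z0,z3,z1]),(z2,[z3,z0,
    z0,z0,y1]),(z1,[z0,z0,z0,z0,z1])],.ref k12 k0 [(z2,[z9,z5,z9,z9,z3,y9]),(z1,[y3,y1,z0,y3,y1,z3]),(z1,[y3,y1,y3,z0,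
    y1,z3]),(z2,[z3,z1,z3,z3,z1,y3]),(z1,[z0,z0,z0,z0,z1])],.ref k12 k0 [(z1,[z9,z1,z0,z0,y6]),(z1,[y6,z0,z3,z0,z4]),
    (z1,[y6,z0,z0,z3,z4]),(z1,[z3,z0,z0,z0,y2]),(z1,[z0,z0,z0,z0,z1])],.ref k12 k0 [(z1,[z9,z4,z9,z9,z0,y9]),(z1,[y6,
    y2,y3,y6,z0,z6]),(z1,[y6,y2,y6,y3,z0,z6]),(z1,[z3,z1,z3,z3,z0,y3]),(z1,[z0,z0,z0,z0,z1])]],
    .lp [k168,k150,k176,k172,k134,k182] [k7,k7,k16,k16,k3,k3,k5,k5,k24,k24,k0,k0] k0 [[k0,k0,k0,k0,k0,k0,k28,k0,k0,k0,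
    k26],[k0,k0,k0,k2],[k2,k0,k0,k0,k6],[k0,k0,k0,k0,k0,k0,k0,k0,k0,k0,k0,k26],[k0,k0,k0,k0,k0,k0,k0,k0,k22],[k0,k0,
    k0,k6,k0,k0,k0,k0,k0,k0,k0,k4],[k0,k0,k0,k0,k0,k0,k0,k0,k30,k0,k26],[k0,k28],[],[k0,k0,k0,k0,k0,k22,k0,k30],[k0,
    k0,k26,k0,k4],[k0,k26,k0,k0,k0,k0,k0,k26]] (nat_lit 492) k5
    [[(k0,k142),(k6,k144),(k8,k151),(k10,k175),(k4,k176),(k2,k185)],[(k9,k123),(k1,k142),(k3,k159),(k7,k170),(k5,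
    k174),(k11,k175)],[(k8,k142),(k2,k148),(k0,k159),(k4,k163),(k6,k189),(k10,k192)],[(k9,k142),(k3,k148),(k7,k155),
    (k5,k163),(k11,k166),(k1,k185)],[(k10,k153),(k8,k155),(k2,k163),(k0,k174),(k6,k174),(k4,k182)],[(k9,k155),(k11,
    k157),(k3,k163),(k7,k174),(k1,k176),(k5,k182)],[(k2,k155),(k0,k170),(k6,k172),(k10,k173),(k4,k174),(k8,k175)],
    [(k1,k144),(k11,k147),(k9,k153),(k7,k172),(k5,k174),(k3,k189)],[(k0,k123),(k2,k142),(k6,k153),(k4,k155),(k8,k164),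
    (k10,k184)],[(k3,k142),(k1,k151),(k5,k155),(k11,k158),(k9,k164),(k7,k175)],[(k6,k147),(k4,k157),(k8,k158),(k2,
    k166),(k0,k175),(k10,k182)],[(k5,k153),(k7,k173),(k1,k175),(k11,k182),(k9,k184),(k3,k192)]]
    [] k0
    [[k3,k0,k0,k0,k0,k0],[k2,k1,k0,k0,k0,k0],[k2,k0,k0,k1,k0,k0],[k2,k0,k0,k0,k1,k0],[k1,k1,k0,k0,k1,k0],[k1,k0,k1,k0,
    k1,k0],[k1,k1,k0,k1,k0,k0],[k1,k0,k0,k2,k0,k0],[k1,k0,k0,k1,k1,k0],[k1,k0,k0,k0,k2,k0],[k1,k0,k0,k0,k1,k1],[k0,k3,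
    k0,k0,k0,k0],[k0,k2,k1,k0,k0,k0],[k0,k2,k0,k0,k1,k0],[k0,k1,k1,k0,k1,k0],[k0,k1,k1,k0,k0,k1],[k0,k1,k0,k1,k1,k0],
    [k0,k1,k0,k0,k2,k0],[k0,k0,k1,k1,k1,k0],[k0,k0,k1,k0,k2,k0],[k0,k0,k1,k1,k0,k1],[k0,k0,k1,k0,k1,k1],[k0,k0,k0,k1,
    k1,k1]]
    [.ref (nat_lit 294) k4 [(z2,[z0,z1,z2,z1,y2]),(z1,[z1]),(z2,[y4,y3,y12,y9,z18]),(z2,[z4,z3,z18,z9,y18])],
    .ref (nat_lit 278) k0 [(z2,[z1,z0,y1]),(z1,[z0,z0,z1]),(z2,[z1,y1,y1,z3]),(z2,[y2,y1,y4,y3,z6])],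
    .ref (nat_lit 295) k1 [(z1,[y2,z0,z0,z1]),(z2,[y4,y1,y2,z1,z2]),(z1,[z1]),(z2,[y6,y1,z0,z3])],.ref k10 k3 [(z2,
    [y6,y1,y4,y3,z6]),(z4,[z6,z1,z6,z3,y6]),(z4,[y2,y1,y2,z1,z2]),(z1,[z1])],.ref k23 k9 [(z2,[z0,y1,y2,y1,z2]),(z1,
    [z0,z0,z0,z1]),(z1,[y2,z0,z0,y1,z2]),(z1,[z2,z0,z1,z1,y2])],.ref k8 k11 [(z1,[z6,z1,z1,z3,y6]),(z1,[y2,z0,z0,y1,
    z2]),(z2,[y4,y1,y2,y3,z6]),(z1,[z1,z0,z0,z1,y1])],.ref (nat_lit 272) k5 [(z2,[y2,z1,z2,y3]),(z1,[z2,y1,y1,z3]),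
    (z1,[y1,z1,z1,y3]),(z1,[z0,z0,z0,z1])],.ref (nat_lit 296) k1 [(z1,[y1,z0,z0,z1]),(z2,[y2,y1,y2,z1,z2]),(z1,[z1]),
    (z1,[y3,y1,z0,z3])],.ref k10 k3 [(z1,[y6,y2,y5,z0,z6]),(z1,[z3,z1,z3,z0,y3]),(z2,[y2,y1,y2,z1,z2]),(z2,[z4,z1,z2,
    y1,y2])],.ref k23 k9 [(z2,[z0,y1,y2,y1,z2]),(z1,[z0,z0,z0,z1]),(z1,[z2,z1,z4,z2,y4]),(z1,[y2,y1,y3,y2,z4])],
    .ref k23 k9 [(z2,[z0,y1,y2,y1,z2]),(z1,[z0,z0,z0,z1]),(z1,[z2,z0,z2,z1,y2]),(z1,[y2,z0,y1,y1,z2])],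
    .ref (nat_lit 297) k11 [(z2,[y1,z3,z3,y9]),(z1,[z0,z0,z0,z1]),(z2,[z0,y1,y2,z1,z2]),(z2,[y1,z0,z3])],
    .ref (nat_lit 297) k11 [(z2,[y2,z3,z4,y9]),(z1,[z0,z0,z0,z1]),(z2,[z0,y1,y2,z1,z2]),(z1,[y1,z0,z2])],
    .ref k8 k11 [(z2,[y6,y1,y4,y3,z6]),(z2,[z2,z1,z2,z1,y2]),(z1,[z1]),(z4,[y2,y1,y2,z1,z2])],.ref k10 k3 [(z1,[z6,z1,
    z1,z3,y6]),(z2,[y6,y1,z0,y3,z6]),(z1,[z1,z0,z0,z1,y1]),(z2,[y4,y1,y2,y3,z6])],.ref k10 k3 [(z1,[z6,y2,y5]),(z1,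
    [y3,z1,z3]),(z2,[z2,y1,y2,z1]),(z2,[y4,z1,z2,y1,z2])],.ref k8 k11 [(z1,[y6,y2,y5,z0,z6]),(z1,[z2,z1,z2,z0,y2]),
    (z2,[z4,z1,z2,y1,y2]),(z2,[y2,y1,y2,z1,z2])],.ref k10 k3 [(z1,[z3,z1,z4,z3,y6]),(z2,[y3,y1,y3,y3,z6]),(z2,[z1,z0,
    z1,z2,y2]),(z2,[y2,y1,y4,y3,z6])],.ref k23 k9 [(z2,[z0,y1,y2,y1,z2]),(z1,[z0,z0,z0,z1]),(z1,[z2,z1,z2,z0,y2]),(z1,
    [y2,y1,y1,z0,z2])],.ref (nat_lit 272) k5 [(z1,[z1,z1,z2,y1,y2]),(z1,[y2,y2,y3,z2,z4]),(z2,[z2,z3,z4,y5,y4]),(z1,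
    [z0,z0,z0,z1])],.ref k23 k9 [(z2,[z0,y1,y2,y1,z2]),(z1,[z0,z0,z0,z1]),(z1,[z2,z0,z0,y1]),(z1,[y2,z0,z1,z1])],
    .ref (nat_lit 272) k5 [(z2,[z2,z1,z2,y3,y2]),(z1,[y2,y1,y1,z3,z2]),(z1,[z1,z1,z1,y3,y1]),(z1,[z0,z0,z0,z1])],
    .ref (nat_lit 278) k0 [(z1,[y1,z0,y1,z0,z1]),(z1,[z0,z0,z1]),(z2,[y2,y1,y2,z3,z2]),(z2,[z4,y1,y2,y3,z2])]],
    .lp [k86,k80,k68,k84,k74,k86] [k0,k0,k3,k3,k9,k9,k1,k1,k7,k5,k0,k0] k0 [[k0,k0,k0,k0,k0,k0,k0,k0,k6],[k0,k0,k0,k0,k0,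
    k2],[k0,k0,k0,k0,k20,k0,k0,k0,k0,k0,k6],[k0,k0,k0,k0,k0,k0,k0,k0,k0,k4],[k2,k0,k0,k0,k0,k0,k12],[k0,k0,k0,k20,k0,
    k0,k0,k0,k0,k6],[k0,k0,k0,k0,k0,k0,k0,k0,k16],[k0,k0,k0,k0,k0,k12,k0,k0,k0,k0,k0,k10],[k0,k0,k4,k0,k6],[k0,k6,k0,
    k0,k0,k0,k0,k16],[k0,k0,k0,k0,k0,k0,k10],[k0,k0,k0,k6]] (nat_lit 240) k5
    [[(k2,k77),(k4,k77),(k8,k79),(k0,k86),(k10,k86),(k6,k95)],[(k5,k77),(k11,k80),(k9,k81),(k3,k83),(k1,k86),(k7,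
    k87)],[(k4,k72),(k2,k80),(k6,k82),(k8,k82),(k0,k83),(k10,k83)],[(k7,k62),(k5,k74),(k1,k77),(k9,k78),(k3,k80),(k11,
    k87)],[(k8,k66),(k2,k74),(k6,k76),(k0,k77),(k10,k83),(k4,k88)],[(k9,k60),(k3,k72),(k7,k76),(k1,k77),(k11,k83),(k5,
    k88)],[(k2,k62),(k8,k72),(k4,k76),(k10,k85),(k0,k87),(k6,k96)],[(k11,k69),(k5,k76),(k9,k80),(k3,k82),(k1,k95),(k7,
    k96)],[(k4,k60),(k10,k71),(k2,k78),(k6,k80),(k0,k81),(k8,k90)],[(k5,k66),(k7,k72),(k1,k79),(k11,k79),(k3,k82),(k9,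
    k90)],[(k6,k69),(k8,k79),(k0,k80),(k4,k83),(k10,k86),(k2,k87)],[(k9,k71),(k3,k83),(k5,k83),(k7,k85),(k1,k86),(k11,
    k86)]]
    [] k0
    [[k1,k1,k1,k0,k0,k0],[k1,k0,k1,k0,k1,k0],[k1,k0,k0,k0,k1,k1],[k0,k2,k1,k0,k0,k0],[k0,k2,k0,k1,k0,k0],[k0,k1,k2,k0,
    k0,k0],[k0,k1,k1,k1,k0,k0],[k0,k1,k1,k0,k1,k0],[k0,k1,k0,k1,k1,k0],[k0,k1,k0,k1,k0,k1],[k0,k0,k2,k0,k1,k0],[k0,k0,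
    k1,k1,k1,k0],[k0,k0,k1,k0,k2,k0],[k0,k0,k1,k0,k1,k1],[k0,k0,k1,k1,k0,k1],[k0,k0,k0,k1,k1,k1],[k0,k0,k0,k0,k1,k2]]
    [.ref (nat_lit 289) k5 [(z1,[z1,y2,y1]),(z1,[z0,z2,z1]),(z1,[z0,y1,y1,z1])],.ref k93 k0 [(z1,[z1,z1]),(z1,[y1,z1,
    z1]),(z1,[z1,y1])],.ref (nat_lit 247) k6 [(z1,[y1,z1,z1]),(z1,[z0,y1,y1,z1]),(z1,[z2,y2,y1])],
    .ref (nat_lit 292) k10 [(z1,[z1]),(z1,[y1,z4,z2]),(z1,[z0,y1,y1,z1])],.ref k93 k0 [(z2,[y1,z3,z1,z1]),(z2,[z1,z1,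
    z1,y1]),(z2,[y1,y1,z1,z1])],.ref (nat_lit 289) k5 [(z2,[z1,y2,y1]),(z1,[z0,z2,z1]),(z1,[z0,y1,y1,z1])],
    .ref (nat_lit 247) k6 [(z1,[z1,z1,z1,y1]),(z1,[z0,y1,y1,z1]),(z1,[y2,y2,y1,z2])],.ref k157 k10 [(z1,[z2,z1,z0,
    y1]),(z1,[y2,z1,z1,z1]),(z1,[z0,y1,y1,z1])],.ref (nat_lit 207) k9 [(z1,[z1,y1,z0,y1]),(z1,[z0,y1,y1,z1]),(z1,[y1,
    z0,z0,z1])],.ref k93 k0 [(z1,[y1,z1,z0,z1]),(z1,[z1,z1,z1,y1]),(z1,[y1,y1,z0,z1])],.ref (nat_lit 207) k9 [(z1,[y1,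
    y2]),(z1,[z0,y1,y1,z1]),(z1,[z1,z1])],.ref k157 k10 [(z1,[y2,y1,z0,z1]),(z1,[z2,z3,z1,y1]),(z1,[z0,y1,y1,z1])],
    .ref (nat_lit 247) k6 [(z1,[y1,z0,z1]),(z1,[z0,y1,y1,z1]),(z1,[z2,z0,y1])],.ref k27 k11 [(z1,[z0,z2,z1]),(z1,[z2,
    z0,y1]),(z1,[z2,z0,z1])],.ref (nat_lit 293) k1 [(z1,[y1,y1,y1,z1]),(z1,[y1,y2,y1,z1]),(z1,[z2,z1,z1,y1])],
    .ref (nat_lit 289) k5 [(z1,[y1,y2,y1,z1]),(z1,[z0,z2,z1]),(z1,[z0,y1,y1,z1])],.ref (nat_lit 298) k5 [(z1,[y2,y5,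
    y3,z3]),(z1,[z0,z2,z1]),(z1,[z0,y1,y1,z1])]],
    .leafM k0 [k2,k3,k4,k5,k0,k1] [(z1,[y1,y1,y1,z1])] [],
    .leafM k1 [k0,k1,k2,k3,k4,k5] [(z1,[y1,z0,y1,z1]),(z1,[z1,z0,z1])] [],
    .lp [k160,k168,k176,k156,k134,k164] [k8,k8,k4,k4,k0,k0,k10,k10,k21,k21,k6,k6] k0 [[k0,k0,k0,k0,k0,k0,k0,k0,k10],[k0,
    k0,k0,k8],[k8],[k0,k0,k0,k0,k0,k0,k0,k20,k0,k0,k0,k8],[k0,k0,k0,k0,k0,k0,k6,k0,k28],[k0,k0,k0,k0,k0,k0,k0,k0,k0,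
    k0,k0,k8],[k0,k0,k20,k0,k0,k0,k0,k0,k0,k0,k4],[k0,k0,k0,k0,k0,k6,k0,k0,k0,k6],[k0,k0,k0,k0,k0,k0,k6,k0,k0,k0,k2],
    [k0,k10,k0,k0,k0,k28],[k0,k0,k8,k0,k8],[k0,k0,k0,k0,k0,k0,k0,k4,k0,k2]] (nat_lit 480) k5
    [[(k8,k145),(k6,k154),(k0,k160),(k10,k162),(k2,k172),(k4,k176)],[(k9,k147),(k11,k152),(k7,k158),(k1,k160),(k3,
    k164),(k5,k176)],[(k2,k160),(k8,k161),(k6,k162),(k0,k164),(k10,k166),(k4,k172)],[(k3,k160),(k7,k162),(k11,k166),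
    (k9,k171),(k1,k172),(k5,k172)],[(k6,k146),(k8,k155),(k10,k162),(k2,k172),(k0,k176),(k4,k176)],[(k11,k142),(k9,
    k149),(k7,k166),(k3,k172),(k1,k176),(k5,k176)],[(k10,k152),(k0,k158),(k2,k162),(k6,k162),(k4,k166),(k8,k173)],
    [(k9,k145),(k5,k146),(k1,k154),(k3,k162),(k7,k162),(k11,k166)],[(k8,k128),(k6,k145),(k0,k147),(k4,k149),(k10,
    k153),(k2,k171)],[(k9,k128),(k1,k145),(k11,k149),(k5,k155),(k3,k161),(k7,k173)],[(k4,k142),(k8,k149),(k0,k152),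
    (k2,k166),(k6,k166),(k10,k166)],[(k7,k152),(k9,k153),(k1,k162),(k5,k162),(k3,k166),(k11,k166)]]
    [] k0
    [[k2,k0,k0,k1,k0,k0],[k2,k0,k0,k0,k1,k0],[k2,k0,k0,k0,k0,k1],[k1,k0,k1,k0,k1,k0],[k1,k0,k0,k2,k0,k0],[k1,k0,k0,k1,
    k1,k0],[k1,k0,k0,k1,k0,k1],[k1,k0,k0,k0,k2,k0],[k1,k0,k0,k0,k1,k1],[k0,k1,k0,k1,k1,k0],[k0,k1,k0,k0,k2,k0],[k0,k0,
    k1,k2,k0,k0],[k0,k0,k1,k1,k1,k0],[k0,k0,k1,k1,k0,k1],[k0,k0,k1,k0,k2,k0],[k0,k0,k1,k0,k1,k1],[k0,k0,k1,k0,k0,k2],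
    [k0,k0,k0,k1,k2,k0],[k0,k0,k0,k1,k1,k1],[k0,k0,k0,k0,k3,k0],[k0,k0,k0,k0,k2,k1],[k0,k0,k0,k0,k1,k2]]
    [.ref k12 k0 [(z2,[z3,z0,z0,z0,y1]),(z4,[y3,z6,z6,z0,z1]),(z4,[z9,y18,z0,z2,y3]),(z1,[z0,z0,z0,z0,z1]),(z2,[y9,
    z12,y3,y1,z1,z6])],.ref k12 k0 [(z2,[y6,z12,y3,y1,y2,z6]),(z4,[z6,y6,z9,z1,z2,y6]),(z4,[y18,z18,y9,y1,y6,z18]),
    (z1,[z0,z0,z0,z0,z1]),(z1,[z9,y12,z3,z1,z2,y6])],.ref k12 k0 [(z1,[z1,z1]),(z2,[y1,z2,z3]),(z2,[z3,y6,z0,z1]),(z1,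
    [z0,z0,z0,z0,z1]),(z2,[y6,z6,y3,y1,y2,z6])],.ref k12 k0 [(z1,[y6,z3,y3,z0,y2,z6]),(z1,[z3,z0,z3,z0,z1,y3]),(z2,
    [y18,z0,y9,z1,y6,z18]),(z1,[z0,z0,z0,z0,z1]),(z2,[z36,y6,z15,y1,z10,y30])],.ref k12 k0 [(z1,[z3,z0,z0,z0,y2]),(z2,
    [y3,z3,z3,z0,z2]),(z2,[z9,y9,z0,z1,y6]),(z1,[z0,z0,z0,z0,z1]),(z2,[y18,z12,y3,y1,z10,z6])],.ref k12 k0 [(z4,[y6,
    z12,y3,y1,z0,z6]),(z8,[z6,z0,z15,z1,z0,y6]),(z8,[y18,z0,y9,z1,z0,z18]),(z1,[z0,z0,z0,z0,z1]),(z4,[z18,y12,z3,z1,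
    y4,y6])],.ref k12 k0 [(z2,[z3,z3,z0,z0,y1]),(z4,[y3,z3,z6,z0,z1]),(z4,[z9,y9,z0,z2,y3]),(z1,[z0,z0,z0,z0,z1]),(z2,
    [y9,z3,y3,y1,z1,z6])],.ref k12 k0 [(z5,[y3,z12,y3,y1,y2,z6]),(z10,[z3,z3,z18,z1,z2,y6]),(z10,[y9,y9,y9,z2,y6,
    z18]),(z1,[z0,z0,z0,z0,z1]),(z10,[z18,y12,z3,z1,z2,y6])],.ref k12 k0 [(z2,[y6,z6,y3,y1,y2,z6]),(z4,[z6,z0,z9,z1,
    z2,y6]),(z4,[y18,z0,y9,y1,y6,z18]),(z1,[z0,z0,z0,z0,z1]),(z1,[z9,y3,z3,z1,z2,y6])],.ref k12 k0 [(z7,[y6,z15,z0,y1,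
    z0,z6]),(z14,[z6,z6,z21,z1,z0,y6]),(z7,[y9,y9,z0,z2,z0,z9]),(z1,[z0,z0,z0,z0,z1]),(z14,[z36,y6,y21,y1,y14,z6])],
    .ref k12 k0 [(z13,[y6,z27,y3,y2,y4,z12]),(z13,[z3,z6,z21,z1,z2,y6]),(z26,[y18,y36,y9,z7,y12,z36]),(z1,[z0,z0,z0,
    z0,z1]),(z26,[z36,y6,y21,y1,y2,z6])],.ref k12 k0 [(z3,[z6,z9,z0,y1,y4]),(z6,[y6,z0,z9,z1,z4]),(z1,[z3,z0,z0,z0,
    y2]),(z1,[z0,z0,z0,z0,z1]),(z2,[y12,y6,y3,z1,z6,z6])],.ref k12 k0 [(z1,[y2,z1,y1,z0,z0,z2]),(z1,[z1,z1,z2,z0,z0,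
    y1]),(z2,[y6,y6,y3,z1,z0,z6]),(z1,[z0,z0,z0,z0,z1]),(z2,[z12,z6,z3,y1,y2,y6])],.ref k12 k0 [(z5,[z6,z15,z0,y1,
    y2]),(z10,[y6,z0,z15,z1,z2]),(z5,[z9,z0,z0,z1,y3]),(z1,[z0,z0,z0,z0,z1]),(z10,[y36,y30,y15,z1,z2,z30])],
    .ref k12 k0 [(z9,[y6,z15,y6,y1,y4,z12]),(z18,[z6,z12,z33,z1,z4,y12]),(z3,[y3,y6,y3,z1,y2,z6]),(z1,[z0,z0,z0,z0,
    z1]),(z6,[z12,z6,z3,y1,z2,y6])],.ref k12 k0 [(z1,[y6,y3,y3,z0,y2,z6]),(z1,[z3,z3,z3,z0,z1,y3]),(z2,[y18,y18,y9,z1,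
    y6,z18]),(z1,[z0,z0,z0,z0,z1]),(z2,[z36,z30,z15,y1,z10,y30])],.ref k12 k0 [(z7,[z6,z21,z0,y1]),(z14,[y6,z0,z21,
    z1]),(z7,[z9,z0,z0,z2]),(z1,[z0,z0,z0,z0,z1]),(z14,[y36,y42,y21,y1,y14,z42])],.ref k12 k0 [(z6,[y3,z12,y3,y1,y1,
    z6]),(z12,[z3,z6,z21,z1,z1,y6]),(z4,[y3,y6,y3,z1,y1,z6]),(z1,[z0,z0,z0,z0,z1]),(z2,[z3,z0,z0,z0,y1])],
    .ref k12 k0 [(z4,[y6,z6,y3,y1,z0,z6]),(z8,[z6,z6,z15,z1,z0,y6]),(z8,[y18,y18,y9,z1,z0,z18]),(z1,[z0,z0,z0,z0,z1]),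
    (z4,[z18,z6,z3,z1,y4,y6])],.ref k12 k0 [(z6,[y2,z12,y3,y1,y2,z6]),(z12,[z2,z6,z21,z1,z2,y6]),(z4,[y2,y6,y3,z1,y2,
    z6]),(z1,[z0,z0,z0,z0,z1]),(z1,[z1])],.ref k12 k0 [(z5,[y3,z9,y3,y1,y2,z6]),(z10,[z3,z6,z18,z1,z2,y6]),(z10,[y9,
    y18,y9,z2,y6,z18]),(z1,[z0,z0,z0,z0,z1]),(z10,[z18,z6,z3,z1,z2,y6])],.ref k12 k0 [(z2,[y6,z0,y3,y1,y2,z6]),(z4,
    [z6,z6,z9,z1,z2,y6]),(z4,[y18,y18,y9,y1,y6,z18]),(z1,[z0,z0,z0,z0,z1]),(z1,[z9,z6,z3,z1,z2,y6])]],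
    .lp [k168,k170,k154,k164,k140,k162] [k1,k1,k0,k0,k8,k8,k3,k3,k15,k15,k4,k4] k0 [[k0,k0,k0,k0,k0,k0,k0,k0,k4,k0,k8],
    [k0,k0,k0,k0,k0,k0,k0,k8],[k0,k0,k0,k0,k8,k0,k0,k0,k0,k0,k10],[k0,k0,k0,k0,k0,k0,k0,k0,k0,k4],[k0,k0,k0,k0,k0,k0,
    k12],[k0,k0,k0,k8],[k8],[k0,k0,k0,k0,k0,k12],[k0,k0,k4],[k0,k4,k0,k0,k0,k0,k0,k0,k0,k0,k0,k8],[k0,k0,k0,k0,k0,k0,
    k0,k0,k8],[k0,k8,k0,k10]] (nat_lit 480) k5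
    [[(k2,k159),(k0,k160),(k4,k161),(k8,k162),(k10,k165),(k6,k166)],[(k1,k160),(k5,k161),(k11,k161),(k9,k162),(k7,
    k166),(k3,k169)],[(k6,k159),(k8,k159),(k4,k162),(k0,k169),(k2,k170),(k10,k174)],[(k9,k155),(k1,k159),(k7,k159),
    (k5,k162),(k3,k170),(k11,k170)],[(k8,k143),(k6,k159),(k0,k161),(k2,k162),(k4,k162),(k10,k168)],[(k9,k135),(k11,
    k158),(k7,k159),(k1,k161),(k3,k162),(k5,k162)],[(k8,k152),(k2,k159),(k4,k159),(k10,k163),(k0,k166),(k6,k176)],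
    [(k9,k152),(k3,k159),(k5,k159),(k11,k163),(k1,k166),(k7,k176)],[(k4,k135),(k8,k140),(k10,k151),(k6,k152),(k2,
    k155),(k0,k162)],[(k9,k140),(k5,k143),(k11,k151),(k7,k152),(k3,k159),(k1,k162)],[(k8,k151),(k10,k154),(k4,k158),
    (k0,k161),(k6,k163),(k2,k170)],[(k9,k151),(k11,k154),(k7,k163),(k1,k165),(k5,k168),(k3,k174)]]
    [] k0
    [[k1,k0,k1,k0,k1,k0],[k1,k0,k0,k0,k2,k0],[k1,k0,k0,k0,k1,k1],[k0,k1,k1,k0,k1,k0],[k0,k1,k0,k1,k1,k0],[k0,k1,k0,k0,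
    k2,k0],[k0,k0,k2,k0,k1,k0],[k0,k0,k1,k1,k1,k0],[k0,k0,k1,k0,k2,k0],[k0,k0,k1,k0,k1,k1],[k0,k0,k0,k1,k2,k0],[k0,k0,
    k0,k1,k1,k1],[k0,k0,k0,k0,k3,k0],[k0,k0,k0,k0,k2,k1],[k0,k0,k0,k0,k1,k2],[k0,k0,k0,k0,k0,k3]]
    [.ref k12 k0 [(z1,[y7,z3,y7,z0,y7,z7]),(z1,[z2,z0,z5,z0,z2,y2]),(z1,[y4,z0,y4,z3,y4,z4]),(z1,[y4,z0,y4,z0,y1,z4]),
    (z1,[z14,y3,z11,y3,z11,y11])],.ref k12 k0 [(z1,[y1,z2,y2,y2,y2,z2]),(z7,[z2,z2,z25,z4,z4,y4]),(z7,[y4,y4,y8,z13,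
    y8,z8]),(z7,[y4,y4,y8,y8,z13,z8]),(z1,[z2,y1,z1,z1,z1,y1])],.ref k12 k0 [(z2,[y7,z6,y7,y7,y7,z7]),(z1,[z1,z0,z4,
    z1,z1,y1]),(z1,[y2,z0,y2,z1,y2,z2]),(z1,[y2,z0,y2,y2,z1,z2]),(z1,[z7,y3,z4,z4,z4,y4])],.ref k12 k0 [(z4,[y7,z5,z0,
    z0,y7,z7]),(z2,[z1,z1,z6,z0,z1,y1]),(z1,[y1,y1,z0,z3,y1,z1]),(z1,[y1,y1,z0,z0,z2,z1]),(z2,[z7,z1,y6,y6,z1,y1])],
    .ref k12 k0 [(z4,[y7,z5,z0,y7,z0,z7]),(z2,[z1,z1,z6,z1,z0,y1]),(z1,[y1,y1,z0,z2,z0,z1]),(z1,[y1,y1,z0,y1,z3,z1]),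
    (z2,[z7,z1,y6,z1,y6,y1])],.ref k12 k0 [(z10,[y7,z16,y7,y14,y14,z14]),(z5,[z1,z2,z16,z2,z2,y2]),(z5,[y2,y4,y2,z11,
    y4,z4]),(z5,[y2,y4,y2,y4,z11,z4]),(z5,[z7,y1,y8,y1,y1,z1])],.ref k12 k0 [(z2,[y7,y1,y7,z7,y7,z7]),(z1,[z1,z1,z4,
    y1,z1,y1]),(z1,[y2,y2,y2,z5,y2,z2]),(z1,[y2,y2,y2,z2,z1,z2]),(z1,[z7,z4,z4,y10,z4,y4])],.ref k12 k0 [(z2,[y7,y1,
    y7,z0,z0,z7]),(z1,[z1,z1,z4,z0,z0,y1]),(z1,[y2,y2,y2,z3,z0,z2]),(z1,[y2,y2,y2,z0,z3,z2]),(z1,[z7,z4,z4,y3,y3,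
    y4])],.ref k12 k0 [(z8,[y7,z10,y14,y7,y14,z14]),(z4,[z1,z2,z14,z1,z2,y2]),(z2,[y1,y2,y2,z5,y2,z2]),(z2,[y1,y2,y2,
    y1,z4,z2]),(z4,[z7,z2,z2,y5,z2,y2])],.ref k12 k0 [(z3,[y7,z2,y7,z0,y7,z7]),(z3,[z2,z2,z11,z0,z2,y2]),(z3,[y4,y4,
    y4,z9,y4,z4]),(z3,[y4,y4,y4,z0,z5,z4]),(z3,[z14,z5,z5,y9,z5,y5])],.ref k12 k0 [(z8,[y7,z10,y14,y14,y7,z14]),(z4,
    [z1,z2,z14,z2,z1,y2]),(z2,[y1,y2,y2,z4,y1,z2]),(z2,[y1,y2,y2,y2,z5,z2]),(z4,[z7,z2,z2,z2,y5,y2])],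
    .ref k12 k0 [(z3,[y7,z2,y7,y7,z0,z7]),(z3,[z2,z2,z11,z2,z0,y2]),(z3,[y4,y4,y4,z5,z0,z4]),(z3,[y4,y4,y4,y4,z9,z4]),
    (z3,[z14,z5,z5,z5,y9,y5])],.ref k12 k0 [(z2,[y1,z3,y3,y3,y3,z3]),(z7,[z1,z3,z24,z3,z3,y3]),(z7,[y2,y6,y6,z15,y6,
    z6]),(z7,[y2,y6,y6,y6,z15,z6]),(z1,[z1])],.ref k12 k0 [(z9,[y7,z13,y14,y14,y14,z14]),(z9,[z2,z4,z31,z4,z4,y4]),
    (z9,[y4,y8,y8,z19,y8,z8]),(z9,[y4,y8,y8,y8,z19,z8]),(z9,[z14,z1,z1,z1,z1,y1])],.ref k12 k0 [(z4,[y7,z5,y7,y7,y7,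
    z7]),(z2,[z1,z1,z7,z1,z1,y1]),(z1,[y1,y1,y1,z2,y1,z1]),(z1,[y1,y1,y1,y1,z2,z1]),(z2,[z7,z1,z1,z1,z1,y1])],
    .ref k12 k0 [(z1,[z7,z3]),(z1,[y2,z0,z3]),(z1,[z4,z0,z0,z3]),(z1,[z4,z0,z0,z0,z3]),(z1,[y14,y3,y3,y3,y3,z3])]],
    .lp [(nat_lit 332),(nat_lit 332),(nat_lit 286),(nat_lit 344),(nat_lit 284),(nat_lit 338)] [k6,k6,k6,k6,k29,k29,k0,k0,
    k30,k30,k3,k3] k0 [[k0,k0,k0,k0,k0,k0,k0,k0,k0,k0,k12],[k0,k0,k0,k60,k0,k6],[k60,k0,k0,k0,k0,k0,k0,k0,k0,k0,k54],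
    [k0,k0,k0,k0,k0,k4,k0,k0,k0,k6],[k6,k0,k4],[],[k0,k0,k0,k0,k0,k0,k0,k0,k60],[],[k0,k0,k6],[k0,k0,k0,k0,k0,k0,k0,
    k60],[],[k0,k12,k0,k54]] (nat_lit 960) k5
    [[(k2,(nat_lit 278)),(k8,(nat_lit 308)),(k4,(nat_lit 309)),(k0,(nat_lit 320)),(k10,(nat_lit 335)),(k6,
    (nat_lit 338))],[(k9,(nat_lit 308)),(k1,(nat_lit 320)),(k3,(nat_lit 332)),(k11,(nat_lit 335)),(k7,(nat_lit 344)),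
    (k5,(nat_lit 369))],[(k2,(nat_lit 272)),(k4,(nat_lit 303)),(k8,(nat_lit 308)),(k0,(nat_lit 332)),(k6,
    (nat_lit 338)),(k10,(nat_lit 347))],[(k3,(nat_lit 272)),(k1,(nat_lit 278)),(k9,(nat_lit 308)),(k5,(nat_lit 309)),
    (k11,(nat_lit 341)),(k7,(nat_lit 342))],[(k8,(nat_lit 279)),(k4,(nat_lit 282)),(k2,(nat_lit 309)),(k6,
    (nat_lit 315)),(k10,(nat_lit 366)),(k0,(nat_lit 369))],[(k5,(nat_lit 282)),(k9,(nat_lit 285)),(k3,(nat_lit 303)),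
    (k1,(nat_lit 309)),(k11,(nat_lit 312)),(k7,(nat_lit 315))],[(k8,(nat_lit 314)),(k4,(nat_lit 315)),(k10,
    (nat_lit 341)),(k2,(nat_lit 342)),(k0,(nat_lit 344)),(k6,(nat_lit 344))],[(k11,(nat_lit 281)),(k9,(nat_lit 314)),
    (k5,(nat_lit 315)),(k1,(nat_lit 338)),(k3,(nat_lit 338)),(k7,(nat_lit 344))],[(k4,(nat_lit 285)),(k0,
    (nat_lit 308)),(k2,(nat_lit 308)),(k10,(nat_lit 311)),(k6,(nat_lit 314)),(k8,(nat_lit 344))],[(k5,(nat_lit 279)),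
    (k1,(nat_lit 308)),(k3,(nat_lit 308)),(k11,(nat_lit 311)),(k7,(nat_lit 314)),(k9,(nat_lit 344))],[(k6,
    (nat_lit 281)),(k8,(nat_lit 311)),(k4,(nat_lit 312)),(k0,(nat_lit 335)),(k10,(nat_lit 338)),(k2,(nat_lit 341))],
    [(k9,(nat_lit 311)),(k1,(nat_lit 335)),(k11,(nat_lit 338)),(k7,(nat_lit 341)),(k3,(nat_lit 347)),(k5,
    (nat_lit 366))]]
    [] k0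
    [[k2,k1,k0,k0,k0,k0],[k2,k0,k0,k0,k1,k0],[k1,k2,k0,k0,k0,k0],[k1,k1,k1,k0,k0,k0],[k1,k1,k0,k0,k1,k0],[k1,k0,k1,k0,
    k1,k0],[k1,k0,k0,k0,k1,k1],[k0,k3,k0,k0,k0,k0],[k0,k2,k1,k0,k0,k0],[k0,k2,k0,k1,k0,k0],[k0,k2,k0,k0,k1,k0],[k0,k1,
    k2,k0,k0,k0],[k0,k1,k1,k0,k1,k0],[k0,k0,k3,k0,k0,k0],[k0,k0,k2,k1,k0,k0],[k0,k0,k2,k0,k1,k0],[k0,k0,k1,k1,k1,k0],
    [k0,k0,k1,k0,k2,k0],[k0,k0,k1,k0,k1,k1],[k0,k0,k0,k1,k1,k1]]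
    [.ref k12 k0 [(z5,[z4,z7,y4]),(z5,[z7,y14,z8]),(z5,[y8,z16,z8,z15]),(z5,[y2,z4,z2,z0,z15]),(z5,[y2,y11,y13,y15,
    y15,z15])],.ref k12 k0 [(z1,[z2,z1,z2,z2,z2,y2]),(z2,[z7,y7,z13,z7,z7,y7]),(z1,[y4,z4,y4,y1,y4,z4]),(z1,[y1,z1,y1,
    y1,z2,z1]),(z1,[y1,y2,y4,y4,y4,z4])],.ref k12 k0 [(z3,[z2,z7,y4]),(z6,[z7,y7,z4]),(z3,[y4,z4,z8,z9]),(z3,[y1,z1,
    z2,z0,z9]),(z3,[y1,y8,y7,y9,y9,z9])],.ref k12 k0 [(z1,[z4,y1,y4,y4]),(z1,[z7,y7,y4,y7]),(z1,[y8,z8,z8,z11]),(z1,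
    [y2,z2,z2,z2,z3]),(z1,[y2,y1,y1,y1,y3,z3])],.ref k12 k0 [(z3,[z4,z9,z0,z4,z4,y4]),(z3,[z7,z0,z9,z7,z7,y7]),(z3,
    [y8,z0,z0,z1,y8,z8]),(z3,[y2,z0,z0,y2,z7,z2]),(z3,[y2,y9,y9,y11,y11,z11])],.ref k12 k0 [(z1,[y2,z3,y2,z0,y2,z2]),
    (z2,[y7,z0,y1,z0,y7,z7]),(z1,[z4,z0,z4,z3,z4,y4]),(z1,[z1,z0,z1,z0,z4,y1]),(z1,[z1,y3,y2,y3,y2,z2])],
    .ref k12 k0 [(z1,[z4,z3,z4,z4,z4,y4]),(z1,[z7,z0,z10,z7,z7,y7]),(z1,[y8,z0,y8,y5,y8,z8]),(z1,[y2,z0,y2,y2,z1,z2]),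
    (z1,[y2,y3,y5,y5,y5,z5])],.ref k12 k0 [(z7,[z4,z21,y12]),(z1,[z1]),(z7,[y8,z0,z24,z21]),(z7,[y2,z0,z6,z0,z21]),
    (z7,[y2,y21,y15,y21,y21,z21])],.ref k12 k0 [(z1,[z2,z3,y4,y2]),(z2,[z7,z0,y8,y7]),(z1,[y4,z0,z8,z7]),(z1,[y1,z0,
    z2,z1,z3]),(z1,[y1,y3,y1,y2,y3,z3])],.ref k12 k0 [(z1,[z1,z3,y2,z0,y1]),(z4,[z7,z0,y2,z0,y7]),(z1,[y2,z0,z4,z3,
    z2]),(z2,[y1,z0,z2,z0,z7]),(z2,[y1,y6,y4,y6,y5,z6])],.ref k12 k0 [(z1,[z1,z4,y1,z1,z1,y1]),(z4,[z7,z7,z5,z7,z7,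
    y7]),(z1,[y2,y2,z2,z1,y2,z2]),(z2,[y1,y1,z1,y1,z5,z1]),(z2,[y1,y7,y5,y7,y7,z7])],.ref k12 k0 [(z3,[y4,z9,z4,z8]),
    (z3,[y7,z0,z16,z14]),(z3,[z8,z0,y8,y7]),(z3,[z2,z0,y2,y4,z9]),(z3,[z2,y9,y11,y13,y9,z9])],.ref k12 k0 [(z1,[y4,y1,
    z0,z0,y4,z4]),(z1,[y7,y7,z3,z0,y7,z7]),(z1,[z8,z8,z0,z3,z8,y8]),(z1,[z2,z2,z0,z0,z5,y2]),(z1,[z2,y1,y3,y3,y1,
    z1])],.ref k12 k0 [(z2,[y1,z6,z0,z3]),(z8,[y7,z0,z24,z21]),(z1,[z1]),(z4,[z1,z0,z0,y3,z12]),(z4,[z1,y12,y12,y15,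
    y12,z12])],.ref k12 k0 [(z3,[y2,z9,z0,z4,z2]),(z6,[y7,z0,z18,z14,z7]),(z3,[z4,z0,z0,z1,y4]),(z3,[z1,z0,z0,y2,z8]),
    (z3,[z1,y9,y9,y11,y10,z9])],.ref k12 k0 [(z3,[y2,z7,y2,z2,y2,z2]),(z6,[y7,y7,z11,z7,y7,z7]),(z3,[z4,z4,z4,z5,z4,
    y4]),(z3,[z1,z1,z1,y1,z10,y1]),(z3,[z1,y8,y8,y10,y8,z8])],.ref k12 k0 [(z1,[y1,z2,y1,z0,z0,z1]),(z4,[y7,y7,z5,z0,
    z0,z7]),(z1,[z2,z2,z2,z3,z0,y2]),(z2,[z1,z1,z1,z0,z6,y1]),(z2,[z1,y5,y5,y6,y6,z5])],.ref k12 k0 [(z1,[y1,z1,y2,y1,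
    y2,z2]),(z4,[y7,y14,y2,y7,y14,z14]),(z1,[z2,z4,z4,z5,z4,y4]),(z2,[z1,z2,z2,z1,z8,y2]),(z2,[z1,y4,y4,y5,y4,z4])],
    .ref k12 k0 [(z3,[y4,z5,y4,z0,y4,z4]),(z3,[y7,y7,z2,z0,y7,z7]),(z3,[z8,z8,z8,z9,z8,y8]),(z3,[z2,z2,z2,z0,z11,y2]),
    (z3,[z2,y7,y7,y9,y7,z7])],.ref k12 k0 [(z1,[y4,y1,y4,y4,z0,z4]),(z1,[y7,y7,y4,y7,z0,z7]),(z1,[z8,z8,z8,z11,z0,
    y8]),(z1,[z2,z2,z2,z2,z3,y2]),(z1,[z2,y1,y1,y1,y3,z1])]],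
    .lp [k168,k170,k154,k164,k140,k162] [k1,k1,k0,k0,k8,k8,k3,k3,k15,k15,k4,k4] k0 [[k0,k0,k0,k0,k0,k0,k0,k0,k4,k0,k8],
    [k0,k0,k0,k0,k0,k0,k0,k8],[k0,k0,k0,k0,k8,k0,k0,k0,k0,k0,k10],[k0,k0,k0,k0,k0,k0,k0,k0,k0,k4],[k0,k0,k0,k0,k0,k0,
    k12],[k0,k0,k0,k8],[k8],[k0,k0,k0,k0,k0,k12],[k0,k0,k4],[k0,k4,k0,k0,k0,k0,k0,k0,k0,k0,k0,k8],[k0,k0,k0,k0,k0,k0,
    k0,k0,k8],[k0,k8,k0,k10]] (nat_lit 480) k5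
    [[(k2,k159),(k0,k160),(k4,k161),(k8,k162),(k10,k165),(k6,k166)],[(k1,k160),(k5,k161),(k11,k161),(k9,k162),(k7,
    k166),(k3,k169)],[(k6,k159),(k8,k159),(k4,k162),(k0,k169),(k2,k170),(k10,k174)],[(k9,k155),(k1,k159),(k7,k159),
    (k5,k162),(k3,k170),(k11,k170)],[(k8,k143),(k6,k159),(k0,k161),(k2,k162),(k4,k162),(k10,k168)],[(k9,k135),(k11,
    k158),(k7,k159),(k1,k161),(k3,k162),(k5,k162)],[(k8,k152),(k2,k159),(k4,k159),(k10,k163),(k0,k166),(k6,k176)],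
    [(k9,k152),(k3,k159),(k5,k159),(k11,k163),(k1,k166),(k7,k176)],[(k4,k135),(k8,k140),(k10,k151),(k6,k152),(k2,
    k155),(k0,k162)],[(k9,k140),(k5,k143),(k11,k151),(k7,k152),(k3,k159),(k1,k162)],[(k8,k151),(k10,k154),(k4,k158),
    (k0,k161),(k6,k163),(k2,k170)],[(k9,k151),(k11,k154),(k7,k163),(k1,k165),(k5,k168),(k3,k174)]]
    [] k0
    [[k1,k0,k1,k0,k1,k0],[k1,k0,k0,k0,k2,k0],[k1,k0,k0,k0,k1,k1],[k0,k1,k1,k0,k1,k0],[k0,k1,k0,k1,k1,k0],[k0,k1,k0,k0,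
    k2,k0],[k0,k0,k2,k0,k1,k0],[k0,k0,k1,k1,k1,k0],[k0,k0,k1,k0,k2,k0],[k0,k0,k1,k0,k1,k1],[k0,k0,k0,k1,k2,k0],[k0,k0,
    k0,k1,k1,k1],[k0,k0,k0,k0,k3,k0],[k0,k0,k0,k0,k2,k1],[k0,k0,k0,k0,k1,k2],[k0,k0,k0,k0,k0,k3]]
    [.ref k12 k0 [(z2,[y10,z3,y5,z0,y10,z10]),(z1,[z1,z0,z2,z0,z1,y1]),(z1,[y2,z0,y1,z3,y2,z2]),(z1,[y2,z0,y1,z0,z1,
    z2]),(z2,[z20,y3,z7,y6,z14,y14])],.ref k12 k0 [(z1,[y1,z1,y1,y2,y2,z2]),(z10,[z2,z1,z17,z4,z4,y4]),(z5,[y2,y1,y2,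
    z11,y4,z4]),(z5,[y2,y1,y2,y4,z11,z4]),(z2,[z4,y1,z1,z2,z2,y2])],.ref k12 k0 [(z2,[y10,z3,y5,y10,y10,z10]),(z1,[z1,
    z0,z2,z1,z1,y1]),(z1,[y2,z0,y1,z1,y2,z2]),(z1,[y2,z0,y1,y2,z1,z2]),(z2,[z20,y3,z7,z14,z14,y14])],.ref k12 k0 [(z3,
    [y5,z2,z0,z0,y5,z5]),(z6,[z2,z1,z9,z0,z2,y2]),(z3,[y2,y1,z0,z9,y2,z2]),(z3,[y2,y1,z0,z0,z7,z2]),(z6,[z20,z1,y9,
    y18,z2,y2])],.ref k12 k0 [(z3,[y5,z2,z0,y5,z0,z5]),(z6,[z2,z1,z9,z2,z0,y2]),(z3,[y2,y1,z0,z7,z0,z2]),(z3,[y2,y1,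
    z0,y2,z9,z2]),(z6,[z20,z1,y9,z2,y18,y2])],.ref k12 k0 [(z14,[y10,z11,y5,y20,y20,z20]),(z7,[z1,z1,z11,z2,z2,y2]),
    (z7,[y2,y2,y1,z17,y4,z4]),(z7,[y2,y2,y1,y4,z17,z4]),(z14,[z20,y1,y11,y2,y2,z2])],.ref k12 k0 [(z4,[y10,z1,y5,z10,
    y10,z10]),(z4,[z2,z1,z7,y2,z2,y2]),(z2,[y2,y1,y1,z8,y2,z2]),(z2,[y2,y1,y1,z2,z4,z2]),(z1,[z5,z1,z1,y8,z2,y2])],
    .ref k12 k0 [(z4,[y10,z1,y5,z0,z0,z10]),(z4,[z2,z1,z7,z0,z0,y2]),(z2,[y2,y1,y1,z6,z0,z2]),(z2,[y2,y1,y1,z0,z6,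
    z2]),(z1,[z5,z1,z1,y3,y3,y2])],.ref k12 k0 [(z6,[y5,z4,y5,y5,y10,z10]),(z6,[z1,z1,z10,z1,z2,y2]),(z3,[y1,y1,y1,z8,
    y2,z2]),(z3,[y1,y1,y1,y1,z7,z2]),(z6,[z10,z1,z1,y8,z2,y2])],.ref k12 k0 [(z4,[y10,z1,y5,z0,y10,z10]),(z4,[z2,z1,
    z7,z0,z2,y2]),(z2,[y2,y1,y1,z6,y2,z2]),(z2,[y2,y1,y1,z0,z4,z2]),(z1,[z5,z1,z1,y3,z2,y2])],.ref k12 k0 [(z6,[y5,z4,
    y5,y10,y5,z10]),(z6,[z1,z1,z10,z2,z1,y2]),(z3,[y1,y1,y1,z7,y1,z2]),(z3,[y1,y1,y1,y2,z8,z2]),(z6,[z10,z1,z1,z2,y8,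
    y2])],.ref k12 k0 [(z4,[y10,z1,y5,y10,z0,z10]),(z4,[z2,z1,z7,z2,z0,y2]),(z2,[y2,y1,y1,z4,z0,z2]),(z2,[y2,y1,y1,y2,
    z6,z2]),(z1,[z5,z1,z1,z2,y3,y2])],.ref k12 k0 [(z4,[y2,z3,y3,y6,y6,z6]),(z20,[z2,z3,z33,z6,z6,y6]),(z10,[y2,y3,y3,
    z24,y6,z6]),(z10,[y2,y3,y3,y6,z24,z6]),(z1,[z1])],.ref k12 k0 [(z6,[y5,z4,y5,y10,y10,z10]),(z6,[z1,z1,z10,z2,z2,
    y2]),(z3,[y1,y1,y1,z7,y2,z2]),(z3,[y1,y1,y1,y2,z7,z2]),(z6,[z10,z1,z1,z2,z2,y2])],.ref k12 k0 [(z4,[y10,z1,y5,y10,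
    y10,z10]),(z4,[z2,z1,z7,z2,z2,y2]),(z2,[y2,y1,y1,z4,y2,z2]),(z2,[y2,y1,y1,y2,z4,z2]),(z1,[z5,z1,z1,z2,z2,y2])],
    .ref k12 k0 [(z2,[z5,z3]),(z2,[y1,z0,z3]),(z1,[z1,z0,z0,z3]),(z1,[z1,z0,z0,z0,z3]),(z2,[y10,y3,y3,y6,y6,z6])]],
    .lp [(nat_lit 320),(nat_lit 328),(nat_lit 330),(nat_lit 320),(nat_lit 300),(nat_lit 320)] [k5,k5,k1,k1,k0,k0,k5,k5,
    k15,k15,k5,k5] k0 [[k0,k0,k0,k0,k0,k0,k38,k0,k66],[k0,k0,k0,k0,k0,k2],[k0,k0,k0,k0,k4,k0,k0,k0,k0,k0,k16],[k0,k0,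
    k0,k0,k0,k0,k0,k12,k0,k12],[k2,k0,k0,k0,k0,k0,k0,k0,k40],[k0,k0,k0,k4,k0,k0,k0,k42],[k0,k0,k12,k0,k42],[k0,k38,k0,
    k0,k0,k0,k0,k0,k0,k0,k0,k66],[k0,k0,k12],[k0,k66,k0,k0,k0,k40],[k0,k0,k0,k0,k0,k0,k66],[k0,k0,k0,
    k16]] (nat_lit 960) k5
    [[(k2,(nat_lit 308)),(k8,(nat_lit 310)),(k0,(nat_lit 320)),(k10,(nat_lit 320)),(k4,(nat_lit 325)),(k6,
    (nat_lit 386))],[(k11,(nat_lit 254)),(k9,(nat_lit 272)),(k1,(nat_lit 320)),(k7,(nat_lit 322)),(k3,(nat_lit 324)),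
    (k5,(nat_lit 325))],[(k0,(nat_lit 324)),(k10,(nat_lit 324)),(k4,(nat_lit 327)),(k2,(nat_lit 328)),(k6,
    (nat_lit 362)),(k8,(nat_lit 380))],[(k1,(nat_lit 308)),(k7,(nat_lit 320)),(k9,(nat_lit 326)),(k3,(nat_lit 328)),
    (k5,(nat_lit 329)),(k11,(nat_lit 336))],[(k8,(nat_lit 303)),(k6,(nat_lit 313)),(k0,(nat_lit 325)),(k2,
    (nat_lit 329)),(k4,(nat_lit 334)),(k10,(nat_lit 341))],[(k11,(nat_lit 285)),(k1,(nat_lit 325)),(k7,(nat_lit 325)),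
    (k3,(nat_lit 327)),(k5,(nat_lit 334)),(k9,(nat_lit 357))],[(k6,(nat_lit 278)),(k2,(nat_lit 320)),(k10,
    (nat_lit 320)),(k0,(nat_lit 322)),(k4,(nat_lit 325)),(k8,(nat_lit 350))],[(k7,(nat_lit 278)),(k9,(nat_lit 310)),
    (k5,(nat_lit 313)),(k11,(nat_lit 320)),(k3,(nat_lit 362)),(k1,(nat_lit 386))],[(k10,(nat_lit 244)),(k0,
    (nat_lit 272)),(k8,(nat_lit 300)),(k6,(nat_lit 310)),(k2,(nat_lit 326)),(k4,(nat_lit 357))],[(k9,(nat_lit 300)),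
    (k5,(nat_lit 303)),(k1,(nat_lit 310)),(k11,(nat_lit 310)),(k7,(nat_lit 350)),(k3,(nat_lit 380))],[(k0,
    (nat_lit 254)),(k4,(nat_lit 285)),(k8,(nat_lit 310)),(k6,(nat_lit 320)),(k10,(nat_lit 320)),(k2,(nat_lit 336))],
    [(k9,(nat_lit 244)),(k1,(nat_lit 320)),(k7,(nat_lit 320)),(k11,(nat_lit 320)),(k3,(nat_lit 324)),(k5,
    (nat_lit 341))]]
    [] k0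
    [[k2,k1,k0,k0,k0,k0],[k2,k0,k0,k0,k1,k0],[k2,k0,k0,k0,k0,k1],[k1,k1,k0,k0,k0,k1],[k1,k0,k1,k0,k1,k0],[k1,k0,k1,k0,
    k0,k1],[k1,k0,k0,k1,k1,k0],[k1,k0,k0,k0,k2,k0],[k1,k0,k0,k0,k1,k1],[k1,k0,k0,k0,k0,k2],[k0,k1,k1,k0,k1,k0],[k0,k1,
    k1,k0,k0,k1],[k0,k0,k1,k2,k0,k0],[k0,k0,k1,k1,k0,k1],[k0,k0,k1,k1,k1,k0],[k0,k0,k1,k0,k1,k1],[k0,k0,k1,k0,k0,k2],
    [k0,k0,k0,k3,k0,k0],[k0,k0,k0,k2,k1,k0],[k0,k0,k0,k2,k0,k1],[k0,k0,k0,k1,k1,k1],[k0,k0,k0,k0,k3,k0],[k0,k0,k0,k0,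
    k2,k1],[k0,k0,k0,k0,k1,k2]]
    [.ref k12 k0 [(z2,[z3,z0,y1]),(z1,[z0,z0,z1]),(z3,[y3,z2,z1,z9]),(z3,[y3,z2,z1,z0,z9]),(z6,[z3,y2,y1])],
    .ref k12 k0 [(z7,[z9,z1]),(z1,[z0,z0,z1]),(z7,[y6,z4,z0,z21]),(z7,[y6,z4,z0,z0,z21]),(z7,[z3,y2])],
    .ref k12 k0 [(z2,[z3,z1,z1,z3,z3,y3]),(z1,[z0,z0,z1]),(z3,[y3,z1,y1,z6,y3,z3]),(z3,[y3,z1,y1,y3,z6,z3]),(z6,[z3,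
    y1,z1,z3,z3,y3])],.ref k12 k0 [(z1,[z3,z1,z0,z3,z3,y3]),(z1,[z0,z0,z1]),(z1,[y2,z0,z0,z1,y2,z2]),(z1,[y2,z0,z0,y2,
    z1,z2]),(z1,[z1,z0,z0,z1,z1,y1])],.ref k12 k0 [(z2,[z9,y1,z0,y9]),(z1,[z0,z0,z1]),(z1,[y3,z1,z0,z6]),(z1,[y3,z1,
    z0,z3,z3]),(z2,[z3,y1,z0,y3])],.ref k12 k0 [(z1,[z9,z1,z3,z0,z9,y9]),(z1,[z0,z0,z1]),(z1,[y6,z0,y2,z3,y6,z6]),(z1,
    [y6,z0,y2,z0,y3,z6]),(z1,[z3,z0,z1,z0,z3,y3])],.ref k12 k0 [(z2,[z9,y1,z0,z0,y9]),(z1,[z0,z0,z1]),(z1,[y3,z1,z0,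
    z3,z3]),(z1,[y3,z1,z0,z0,z6]),(z2,[z3,y1,z0,z0,y3])],.ref k12 k0 [(z5,[z9,z2]),(z1,[z0,z0,z1]),(z5,[y6,z2,z0,
    z15]),(z5,[y6,z2,z0,z0,z15]),(z5,[z3,y1])],.ref k12 k0 [(z4,[z9,z4,z3,z9,z9,y9]),(z1,[z0,z0,z1]),(z2,[y3,z0,y1,z3,
    y3,z3]),(z2,[y3,z0,y1,y3,z3,z3]),(z4,[z3,z0,z1,z3,z3,y3])],.ref k12 k0 [(z1,[z3,z2,z2,z6,z6,y6]),(z1,[z0,z0,z1]),
    (z3,[y6,y2,y4,y3,y12,z12]),(z3,[y6,y2,y4,y12,y3,z12]),(z3,[z3,z1,z2,z6,z6,y6])],.ref k12 k0 [(z1,[y9,z1,z3,z9]),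
    (z1,[z0,z0,z1]),(z1,[z6,z0,y2,y3]),(z1,[z6,z0,y2,y6,z3]),(z1,[y3,z0,z1,z3])],.ref k12 k0 [(z2,[y9,y1,z0,z0,y9,
    z9]),(z1,[z0,z0,z1]),(z1,[z3,z1,z0,z3,z3,y3]),(z1,[z3,z1,z0,z0,z6,y3]),(z2,[y3,y1,z0,z0,y3,z3])],.ref k12 k0 [(z2,
    [y3,z2,z0,z3,z6]),(z1,[z0,z0,z1]),(z1,[z1,z0,z0,z2,y2]),(z1,[z1,z0,z0,y1,z1]),(z2,[y1,z0,z0,z1,z2])],
    .ref k12 k0 [(z4,[y9,z1,y3,z0,z0,z9]),(z1,[z0,z0,z1]),(z2,[z3,z1,z1,z6,z0,y3]),(z2,[z3,z1,z1,z0,z6,y3]),(z4,[y3,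
    y1,y1,z0,z0,z3])],.ref k12 k0 [(z1,[y3,z1,z0,z3,z3]),(z1,[z0,z0,z1]),(z1,[z2,z0,z0,z1,y2]),(z1,[z2,z0,z0,y2,z1]),
    (z1,[y1,z0,z0,z1,z1])],.ref k12 k0 [(z1,[y9,y2,y3,z0,y9,z9]),(z1,[z0,z0,z1]),(z1,[z6,z2,z2,z3,z6,y6]),(z1,[z6,z2,
    z2,z0,z9,y6]),(z1,[y3,y1,y1,z0,y3,z3])],.ref k12 k0 [(z2,[y9,y4,y6,y9,y18,z18]),(z1,[z0,z0,z1]),(z1,[z3,z2,z2,z6,
    z6,y6]),(z1,[z3,z2,z2,z3,z9,y6]),(z2,[y3,y2,y2,y3,y6,z6])],.ref k12 k0 [(z2,[y3,z2,z0,z0,z9]),(z1,[z0,z0,z1]),(z1,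
    [z1,z0,z0,z3,y3]),(z1,[z1]),(z2,[y1,z0,z0,z0,z3])],.ref k12 k0 [(z1,[y3,z1,z0,z0,z6]),(z1,[z0,z0,z1]),(z1,[z2,z0,
    z0,z3,y4]),(z1,[z2,z0,z0,z0,y1]),(z1,[y1,z0,z0,z0,z2])],.ref k12 k0 [(z4,[y9,z1,y3,y9,z9,z9]),(z1,[z0,z0,z1]),(z2,
    [z3,z1,z1,z9,y3,y3]),(z2,[z3,z1,z1,z3,z3,y3]),(z4,[y3,y1,y1,y3,z3,z3])],.ref k12 k0 [(z1,[y9,y2,y3,y9,z0,z9]),(z1,
    [z0,z0,z1]),(z1,[z6,z2,z2,z9,z0,y6]),(z1,[z6,z2,z2,z6,z3,y6]),(z1,[y3,y1,y1,y3,z0,z3])],.ref k12 k0 [(z1,[z3,z1]),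
    (z1,[z0,z0,z1]),(z1,[y2,z0,z0,z3]),(z1,[y2,z0,z0,z0,z3]),(z1,[z1])],.ref k12 k0 [(z2,[z9,z5,z3,z9,z9,y9]),(z1,[z0,
    z0,z1]),(z1,[y3,y1,y1,z0,y3,z3]),(z1,[y3,y1,y1,y3,z0,z3]),(z2,[z3,z1,z1,z3,z3,y3])],.ref k12 k0 [(z1,[z9,z7,z6,
    z18,z18,y18]),(z1,[z0,z0,z1]),(z1,[y6,y4,y4,y9,y12,z12]),(z1,[y6,y4,y4,y12,y9,z12]),(z1,[z3,z2,z2,z6,z6,y6])]],
    .lp [(nat_lit 320),(nat_lit 328),(nat_lit 330),(nat_lit 320),(nat_lit 300),(nat_lit 320)] [k5,k5,k1,k1,k0,k0,k5,k5,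
    k15,k15,k5,k5] k0 [[k0,k0,k0,k0,k0,k0,k38,k0,k66],[k0,k0,k0,k0,k0,k2],[k0,k0,k0,k0,k4,k0,k0,k0,k0,k0,k16],[k0,k0,
    k0,k0,k0,k0,k0,k12,k0,k12],[k2,k0,k0,k0,k0,k0,k0,k0,k40],[k0,k0,k0,k4,k0,k0,k0,k42],[k0,k0,k12,k0,k42],[k0,k38,k0,
    k0,k0,k0,k0,k0,k0,k0,k0,k66],[k0,k0,k12],[k0,k66,k0,k0,k0,k40],[k0,k0,k0,k0,k0,k0,k66],[k0,k0,k0,
    k16]] (nat_lit 960) k5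
    [[(k2,(nat_lit 308)),(k8,(nat_lit 310)),(k0,(nat_lit 320)),(k10,(nat_lit 320)),(k4,(nat_lit 325)),(k6,
    (nat_lit 386))],[(k11,(nat_lit 254)),(k9,(nat_lit 272)),(k1,(nat_lit 320)),(k7,(nat_lit 322)),(k3,(nat_lit 324)),
    (k5,(nat_lit 325))],[(k0,(nat_lit 324)),(k10,(nat_lit 324)),(k4,(nat_lit 327)),(k2,(nat_lit 328)),(k6,
    (nat_lit 362)),(k8,(nat_lit 380))],[(k1,(nat_lit 308)),(k7,(nat_lit 320)),(k9,(nat_lit 326)),(k3,(nat_lit 328)),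
    (k5,(nat_lit 329)),(k11,(nat_lit 336))],[(k8,(nat_lit 303)),(k6,(nat_lit 313)),(k0,(nat_lit 325)),(k2,
    (nat_lit 329)),(k4,(nat_lit 334)),(k10,(nat_lit 341))],[(k11,(nat_lit 285)),(k1,(nat_lit 325)),(k7,(nat_lit 325)),
    (k3,(nat_lit 327)),(k5,(nat_lit 334)),(k9,(nat_lit 357))],[(k6,(nat_lit 278)),(k2,(nat_lit 320)),(k10,
    (nat_lit 320)),(k0,(nat_lit 322)),(k4,(nat_lit 325)),(k8,(nat_lit 350))],[(k7,(nat_lit 278)),(k9,(nat_lit 310)),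
    (k5,(nat_lit 313)),(k11,(nat_lit 320)),(k3,(nat_lit 362)),(k1,(nat_lit 386))],[(k10,(nat_lit 244)),(k0,
    (nat_lit 272)),(k8,(nat_lit 300)),(k6,(nat_lit 310)),(k2,(nat_lit 326)),(k4,(nat_lit 357))],[(k9,(nat_lit 300)),
    (k5,(nat_lit 303)),(k1,(nat_lit 310)),(k11,(nat_lit 310)),(k7,(nat_lit 350)),(k3,(nat_lit 380))],[(k0,
    (nat_lit 254)),(k4,(nat_lit 285)),(k8,(nat_lit 310)),(k6,(nat_lit 320)),(k10,(nat_lit 320)),(k2,(nat_lit 336))],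
    [(k9,(nat_lit 244)),(k1,(nat_lit 320)),(k7,(nat_lit 320)),(k11,(nat_lit 320)),(k3,(nat_lit 324)),(k5,
    (nat_lit 341))]]
    [] k0
    [[k2,k1,k0,k0,k0,k0],[k2,k0,k0,k0,k1,k0],[k2,k0,k0,k0,k0,k1],[k1,k1,k0,k0,k0,k1],[k1,k0,k1,k0,k1,k0],[k1,k0,k1,k0,
    k0,k1],[k1,k0,k0,k1,k1,k0],[k1,k0,k0,k0,k2,k0],[k1,k0,k0,k0,k1,k1],[k1,k0,k0,k0,k0,k2],[k0,k1,k1,k0,k1,k0],[k0,k1,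
    k1,k0,k0,k1],[k0,k0,k1,k2,k0,k0],[k0,k0,k1,k1,k0,k1],[k0,k0,k1,k1,k1,k0],[k0,k0,k1,k0,k1,k1],[k0,k0,k1,k0,k0,k2],
    [k0,k0,k0,k3,k0,k0],[k0,k0,k0,k2,k1,k0],[k0,k0,k0,k2,k0,k1],[k0,k0,k0,k1,k1,k1],[k0,k0,k0,k0,k3,k0],[k0,k0,k0,k0,
    k2,k1],[k0,k0,k0,k0,k1,k2]]
    [.ref k12 k0 [(z8,[z13,y2,y13]),(z4,[y1,z2,z13]),(z1,[y1,z2,z1,z3]),(z1,[y1,z2,z1,z0,z3]),(z2,[z1,y8,y7,y6,y6,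
    z6])],.ref k12 k0 [(z10,[z13,z17,z13,z13,z13,y13]),(z5,[y1,z1,z14,y1,y1,z1]),(z5,[y4,z4,y4,z11,y4,z4]),(z5,[y4,z4,
    y4,y4,z11,z4]),(z5,[z2,y17,y13,y13,y13,z13])],.ref k12 k0 [(z9,[z13,z1]),(z9,[y2,z4,z27]),(z9,[y8,z16,z0,z27]),
    (z9,[y8,z16,z0,z0,z27]),(z9,[z4,y35,y27,y27,y27,z27])],.ref k12 k0 [(z4,[z13,y1,y13]),(z2,[y1,z1,z7]),(z1,[y2,z2,
    z2,z3]),(z1,[y2,z2,z2,z0,z3]),(z1,[z1,y4,y4,y3,y3,z3])],.ref k12 k0 [(z3,[z13,z9,z13,z0,z13,y13]),(z3,[y2,z0,z7,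
    z0,y2,z2]),(z3,[y8,z0,y8,z9,y8,z8]),(z3,[y8,z0,y8,z0,z1,z8]),(z3,[z4,y9,y5,y9,y5,z5])],.ref k12 k0 [(z2,[z13,y7,
    z0,y13]),(z1,[y1,z1,z3,z1]),(z1,[y4,z4,z0,z7]),(z1,[y4,z4,z0,z4,z3]),(z1,[z2,y5,y3,y5,y3,z3])],.ref k12 k0 [(z3,
    [z13,z9,z13,z13,z0,y13]),(z3,[y2,z0,z7,y2,z0,z2]),(z3,[y8,z0,y8,z1,z0,z8]),(z3,[y8,z0,y8,y8,z9,z8]),(z3,[z4,y9,y5,
    y5,y9,z5])],.ref k12 k0 [(z7,[z13,z34,z26,z26,z26,y26]),(z7,[y2,y2,z17,y4,y4,z4]),(z7,[y8,y8,y16,z5,y16,z16]),(z7,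
    [y8,y8,y16,y16,z5,z16]),(z7,[z4,y17,y13,y13,y13,z13])],.ref k12 k0 [(z6,[z13,z18,z13,z13,z13,y13]),(z3,[y1,z0,z8,
    y1,y1,z1]),(z3,[y4,z0,y4,z5,y4,z4]),(z3,[y4,z0,y4,y4,z5,z4]),(z3,[z2,y9,y7,y7,y7,z7])],.ref k12 k0 [(z5,[z13,z2]),
    (z5,[y2,z2,z15]),(z5,[y8,z8,z0,z15]),(z5,[y8,z8,z0,z0,z15]),(z5,[z4,y19,y15,y15,y15,z15])],.ref k12 k0 [(z2,[y13,
    y7,z0,z0,y13,z13]),(z1,[z1,z1,z3,z0,z1,y1]),(z1,[z4,z4,z0,z3,z4,y4]),(z1,[z4,z4,z0,z0,z7,y4]),(z1,[y2,y5,y3,y3,y5,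
    z5])],.ref k12 k0 [(z3,[y13,z9,z13,z13]),(z3,[z2,z0,z7,y2]),(z3,[z8,z0,y8,z1]),(z3,[z8,z0,y8,y8,z9]),(z3,[y4,y9,
    y5,y5,y9,z9])],.ref k12 k0 [(z8,[y13,z24,z0,z13,z26]),(z4,[z1,z0,z12,y1,y2]),(z1,[z1,z0,z0,z2,y2]),(z1,[z1,z0,z0,
    y1,z1]),(z2,[y1,y6,y6,y5,y4,z6])],.ref k12 k0 [(z5,[y13,z15,z0,z13,z13]),(z5,[z2,z0,z15,y2,y2]),(z5,[z8,z0,z0,z7,
    y8]),(z5,[z8,z0,z0,y8,z7]),(z5,[y4,y15,y15,y11,y11,z15])],.ref k12 k0 [(z4,[y13,y1,y13,z0,z0,z13]),(z2,[z1,z1,z7,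
    z0,z0,y1]),(z1,[z2,z2,z2,z3,z0,y2]),(z1,[z2,z2,z2,z0,z3,y2]),(z1,[y1,y4,y4,y3,y3,z4])],.ref k12 k0 [(z1,[y13,y10,
    y13,z0,y13,z13]),(z1,[z2,z2,z5,z0,z2,y2]),(z1,[z8,z8,z8,z3,z8,y8]),(z1,[z8,z8,z8,z0,z11,y8]),(z1,[y4,y7,y7,y3,y7,
    z7])],.ref k12 k0 [(z2,[y13,z6,z0,z13]),(z1,[z1,z0,z3,y1]),(z1,[z4,z0,z0,y1]),(z1,[z4,z0,z0,y4,z3]),(z1,[y2,y3,y3,
    y1,y3,z3])],.ref k12 k0 [(z8,[y13,z24,z0,z0,z39]),(z4,[z1,z0,z12,z0,y3]),(z1,[z1,z0,z0,z3,y3]),(z1,[z1]),(z2,[y1,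
    y6,y6,y6,y3,z6])],.ref k12 k0 [(z4,[y13,y1,y13,y13,z13,z13]),(z2,[z1,z1,z7,z1,y1,y1]),(z1,[z2,z2,z2,z5,y2,y2]),
    (z1,[z2,z2,z2,z2,z1,y2]),(z1,[y1,y4,y4,y4,y2,z4])],.ref k12 k0 [(z5,[y13,z15,z0,z0,z26]),(z5,[z2,z0,z15,z0,y4]),
    (z5,[z8,z0,z0,z15,y16]),(z5,[z8,z0,z0,z0,y1]),(z5,[y4,y15,y15,y15,y7,z15])],.ref k12 k0 [(z1,[y13,y10,y13,y13,z0,
    z13]),(z1,[z2,z2,z5,z2,z0,y2]),(z1,[z8,z8,z8,z11,z0,y8]),(z1,[z8,z8,z8,z8,z3,y8]),(z1,[y4,y7,y7,y7,y3,z7])],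
    .ref k12 k0 [(z4,[z13,z51,z39,z39,z39,y39]),(z2,[y1,y3,z3,y3,y3,z3]),(z1,[y2,y6,y6,y3,y6,z6]),(z1,[y2,y6,y6,y6,y3,
    z6]),(z1,[z1])],.ref k12 k0 [(z3,[z13,z35,z26,z26,z26,y26]),(z3,[y2,y4,z5,y4,y4,z4]),(z3,[y8,y16,y16,y7,y16,z16]),
    (z3,[y8,y16,y16,y16,y7,z16]),(z3,[z4,y1,y1,y1,y1,z1])],.ref k12 k0 [(z2,[z13,z19,z13,z13,z13,y13]),(z1,[y1,y1,z2,
    y1,y1,z1]),(z1,[y4,y4,y4,y1,y4,z4]),(z1,[y4,y4,y4,y4,y1,z4]),(z1,[z2,y1,y1,y1,y1,z1])]]]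

noncomputable def cT6_3_n6_3 : List TN :=
  [.lp [k174,k154,k160,k154,k162,k154] [k0,k0,k10,k10,k7,k7,k10,k10,k6,k6,k10,k10] k0 [[k0,k0,k0,k0,k0,k0,k28,k0,k0,k0,
    k22],[k0,k0,k0,k10],[k10,k0,k0,k0,k0,k0,k12],[k0,k0,k0,k0,k0,k0,k0,k0,k0,k10,k0,k8],[k0,k0,k0,k0,k0,k0,k0,k0,k18],
    [k0,k0,k0,k0,k0,k0,k0,k8],[k0,k0,k0,k0,k8,k0,k0,k0,k2],[k0,k28,k0,k12],[k0,k0,k10,k0,k0,k0,k0,k0,k0,k0,k38],[k0,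
    k0,k0,k0,k0,k18,k0,k2],[k0,k0,k8],[k0,k22,k0,k0,k0,k0,k0,k0,k0,k38]] (nat_lit 480) k5
    [[(k8,k130),(k0,k152),(k6,k164),(k10,k164),(k4,k167),(k2,k172)],[(k9,k140),(k1,k152),(k3,k164),(k7,k164),(k11,
    k164),(k5,k177)],[(k2,k144),(k4,k157),(k8,k158),(k0,k164),(k10,k176),(k6,k182)],[(k3,k144),(k9,k146),(k7,k154),
    (k5,k157),(k11,k164),(k1,k172)],[(k10,k149),(k8,k151),(k2,k157),(k4,k160),(k6,k169),(k0,k177)],[(k11,k139),(k3,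
    k157),(k7,k157),(k5,k160),(k1,k167),(k9,k169)],[(k6,k146),(k2,k154),(k10,k154),(k4,k157),(k0,k164),(k8,k176)],
    [(k7,k146),(k11,k152),(k9,k158),(k1,k164),(k5,k169),(k3,k182)],[(k0,k140),(k2,k146),(k6,k158),(k10,k158),(k8,
    k164),(k4,k169)],[(k1,k130),(k5,k151),(k3,k158),(k11,k158),(k9,k164),(k7,k176)],[(k4,k139),(k6,k152),(k8,k158),
    (k0,k164),(k2,k164),(k10,k192)],[(k5,k149),(k7,k154),(k9,k158),(k1,k164),(k3,k176),(k11,k192)]]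
    [] k0
    [[k3,k0,k0,k0,k0,k0],[k2,k0,k0,k0,k1,k0],[k1,k1,k0,k0,k1,k0],[k1,k0,k1,k0,k1,k0],[k1,k0,k0,k2,k0,k0],[k1,k0,k0,k1,
    k1,k0],[k1,k0,k0,k0,k2,k0],[k1,k0,k0,k0,k1,k1],[k0,k3,k0,k0,k0,k0],[k0,k2,k1,k0,k0,k0],[k0,k2,k0,k0,k1,k0],[k0,k1,
    k2,k0,k0,k0],[k0,k1,k1,k0,k1,k0],[k0,k1,k1,k0,k0,k1],[k0,k1,k0,k1,k1,k0],[k0,k1,k0,k0,k2,k0],[k0,k0,k2,k0,k0,k1],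
    [k0,k0,k1,k2,k0,k0],[k0,k0,k1,k1,k0,k1],[k0,k0,k1,k1,k1,k0],[k0,k0,k1,k0,k1,k1],[k0,k0,k0,k3,k0,k0],[k0,k0,k0,k2,
    k0,k1],[k0,k0,k0,k1,k1,k1]]
    [.ref (nat_lit 302) k7 [(z1,[z0,y1,y1,y2,z1]),(z1,[z0,z0,z0,z1]),(z1,[z2,y6,z0,y9]),(z1,[z1])],
    .ref (nat_lit 303) k1 [(z1,[y3,y1]),(z1,[z1]),(z1,[y2,y1,y1,y1,z1]),(z1,[y2,z0,z0,z1])],
    .ref (nat_lit 304) k4 [(z1,[y1,z1,z1]),(z1,[y1,z2,z1]),(z1,[z2,y2,y1]),(z1,[z0,z0,z0,z1])],.ref k108 k3 [(z1,[y6,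
    z2,z1,z6]),(z1,[z2,z0,z0,y1]),(z1,[z2,y1,y1,y3,z1]),(z1,[y1,z0,z0,z1])],.ref k179 k0 [(z1,[y3,y2,y6,y6,z6]),(z1,
    [z0,z0,z1]),(z1,[z2,z2,z4,z5,y4]),(z1,[z2,z1,z3,z3,y3])],.ref k108 k3 [(z1,[y6,y4,y5,y6,z6]),(z1,[z2,z2,z2,z3,
    y2]),(z1,[z2,z1,z1,z1,y1]),(z1,[y1,y1,y1,y1,z1])],.ref (nat_lit 305) k1 [(z1,[y3,y2]),(z1,[z1]),(z1,[y1,y1,y1,y1,
    z1]),(z1,[y1,z0,z0,z1])],.ref k108 k3 [(z1,[y3,y1,z1]),(z1,[z1,z1,z0,z1]),(z1,[z1,z0,y1,y1,z1]),(z2,[y1,y1])],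
    .ref (nat_lit 306) k0 [(z2,[y1,z6,z3]),(z1,[z1]),(z1,[z0,z0,z0,z1]),(z1,[z0,y1,y1,y1,z1])],.ref k20 k11 [(z1,[y3,
    z2,z1,z3]),(z1,[z0,z0,z1]),(z2,[y1,z0,z0,z1]),(z1,[z1,y1,y1,y2,z1])],.ref (nat_lit 307) k0 [(z1,[z3,z1,y6]),(z1,
    [z0,z0,z1]),(z1,[y2,z0,z4,z1]),(z1,[y2,y1,z3,y1,z1])],.ref k108 k3 [(z1,[z3,y4,y2,y6]),(z1,[y1,z2,z1,z3]),(z1,[y1,
    z1,z0,z1,z1]),(z2,[z1,y2,y1,y2])],.ref k20 k11 [(z1,[y6,z2,z1,z6]),(z1,[z0,z0,z1]),(z1,[y1,z0,z0,z1]),(z1,[z2,y1,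
    y1,y3,z1])],.ref k108 k3 [(z1,[z6,y4,y5,y6]),(z1,[y2,z2,z2,z3]),(z1,[y2,z1,z1,z1,z1]),(z1,[z1,y1,y1,y1])],
    .ref k20 k11 [(z1,[y6,y4,y5,y6,z6]),(z1,[z0,z0,z1]),(z1,[y1,y1,y1,y1,z1]),(z1,[z2,z1,z1,z1,y1])],
    .ref k179 k0 [(z2,[z3,z2,y3]),(z1,[z0,z0,z1]),(z1,[y1,z0,z1,z1]),(z1,[y1,y1,z0,y1,z1])],
    .ref (nat_lit 304) k4 [(z1,[z1,z0,z0,y2]),(z1,[z1,z1,z0,y2]),(z1,[y2,z0,z1,z4]),(z1,[z0,z0,z0,z1])],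
    .ref k47 k1 [(z2,[z1,z0,z2,z1,y2]),(z2,[y1,y2,y2,y1,z2]),(z1,[z1,y1,y1,y2,z1]),(z1,[z1,z2,z2,z4,y2])],
    .ref (nat_lit 304) k4 [(z1,[z1,z1,z1,z0,y1]),(z1,[z1,z2,z1,z0,y1]),(z1,[y2,y2,y1,z0,z2]),(z1,[z0,z0,z0,z1])],
    .ref k47 k1 [(z1,[z1,z0,z1,z0,y1]),(z1,[y1,y1,y1,z0,z1]),(z1,[z2,y1,y1,y3,z1]),(z1,[z2,z2,z2,z3,y2])],
    .ref k179 k0 [(z1,[y3,z1,z0,z3]),(z1,[z0,z0,z1]),(z1,[z2,z0,z0,y1]),(z1,[z2,y1,y1,y3,z1])],.ref k47 k1 [(z2,[z1,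
    z1,z3,z3,y3]),(z2,[y1,y3,y3,y3,z3]),(z1,[z1]),(z1,[z1,z3,z3,z6,y3])],.ref (nat_lit 304) k4 [(z1,[z1,z2,z2,z2,y2]),
    (z1,[z1,z3,z2,z2,y2]),(z1,[y2,y4,y3,y4,z4]),(z1,[z0,z0,z0,z1])],.ref k179 k0 [(z1,[y3,y2,y3,y3,z3]),(z1,[z0,z0,
    z1]),(z1,[z2,z2,z2,z3,y2]),(z1,[z2,z1,z1,z1,y1])]],
    .lp [k162,k162,k162,k156,k142,k174] [k6,k6,k6,k6,k6,k6,k9,k9,k16,k16,k0,k0] k0 [[k0,k0,k0,k0,k0,k0,k0,k0,k0,k0,k2],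
    [k0,k0,k0,k12],[k12],[k0,k0,k0,k0,k0,k0,k0,k0,k0,k0,k0,k14],[k0,k0,k0,k0,k0,k0,k32],[k0,k0,k0,k0,k0,k0,k0,k0,k0,
    k6],[k0,k0,k0,k0,k0,k0,k0,k0,k12,k0,k12],[k0,k0,k0,k0,k0,k32],[k0,k0,k0,k0,k6],[k0,k0,k0,k0,k0,k0,k0,k12,k0,k0,k0,
    k22],[k0,k0,k14,k0,k0,k0,k0,k0,k22],[k0,k2,k0,k0,k0,k0,k0,k12]] (nat_lit 480) k5
    [[(k6,k147),(k0,k160),(k4,k162),(k10,k168),(k8,k174),(k2,k176)],[(k9,k152),(k7,k159),(k1,k160),(k3,k162),(k11,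
    k168),(k5,k174)],[(k2,k150),(k8,k152),(k6,k159),(k0,k162),(k4,k162),(k10,k170)],[(k3,k150),(k9,k152),(k7,k159),
    (k5,k162),(k11,k168),(k1,k176)],[(k8,k152),(k10,k154),(k6,k159),(k2,k162),(k4,k162),(k0,k174)],[(k9,k120),(k7,
    k159),(k1,k162),(k3,k162),(k5,k162),(k11,k174)],[(k8,k143),(k0,k159),(k2,k159),(k4,k159),(k10,k165),(k6,k188)],
    [(k1,k147),(k9,k149),(k11,k153),(k3,k159),(k5,k159),(k7,k188)],[(k4,k120),(k6,k149),(k0,k152),(k2,k152),(k8,k154),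
    (k10,k170)],[(k7,k143),(k3,k152),(k5,k152),(k9,k154),(k11,k158),(k1,k174)],[(k10,k152),(k6,k153),(k8,k158),(k0,
    k168),(k2,k168),(k4,k174)],[(k11,k152),(k5,k154),(k7,k165),(k1,k168),(k3,k170),(k9,k170)]]
    [] k0
    [[k2,k0,k0,k1,k0,k0],[k1,k0,k1,k0,k1,k0],[k1,k1,k0,k1,k0,k0],[k1,k0,k0,k1,k1,k0],[k1,k0,k0,k0,k1,k1],[k0,k3,k0,k0,
    k0,k0],[k0,k2,k1,k0,k0,k0],[k0,k2,k0,k1,k0,k0],[k0,k2,k0,k0,k1,k0],[k0,k1,k1,k0,k1,k0],[k0,k1,k0,k1,k1,k0],[k0,k1,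
    k0,k0,k2,k0],[k0,k0,k2,k0,k1,k0],[k0,k0,k1,k1,k1,k0],[k0,k0,k1,k0,k2,k0],[k0,k0,k1,k1,k0,k1],[k0,k0,k1,k0,k1,k1],
    [k0,k0,k0,k1,k2,k0],[k0,k0,k0,k1,k1,k1],[k0,k0,k0,k1,k0,k2],[k0,k0,k0,k0,k3,k0],[k0,k0,k0,k0,k0,k3]]
    [.ref k12 k0 [(z11,[z12,z9,z0,z0,y4]),(z11,[y18,z36,z11,z0,z6]),(z1,[z0,z0,z0,z1]),(z11,[z9,y18,z0,z0,z8]),(z11,
    [y6,y21,y11,y11,y9,z33])],.ref k12 k0 [(z1,[z6,z3,z2,z0,z2,y6]),(z1,[y9,z0,y2,z0,y3,z9]),(z1,[z0,z0,z0,z1]),(z2,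
    [z9,z0,z3,z0,z5,y9]),(z1,[y3,y3,y2,y1,y2,z6])],.ref k12 k0 [(z1,[z12,y9,y4,z0,y4]),(z1,[y18,z18,z7,z0,z6]),(z1,
    [z0,z0,z0,z1]),(z1,[z9,y9,y3,z0,y2]),(z1,[y6,z3,z1,y1,z1,z3])],.ref k12 k0 [(z5,[z12,z15,z4,z4,z0,y12]),(z5,[y18,
    z0,y1,y6,z0,z18]),(z1,[z0,z0,z0,z1]),(z5,[z9,z0,z3,z3,z5,y9]),(z5,[y6,y15,y7,y7,y5,z21])],.ref k12 k0 [(z3,[z12,
    z9,z4,z4,z4,y12]),(z1,[y6,z0,y1,y2,y2,z6]),(z1,[z0,z0,z0,z1]),(z1,[z3,z0,z1,z1,z2,y3]),(z3,[y6,y9,y5,y5,y5,z15])],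
    .ref k12 k0 [(z3,[y2,z9,z2]),(z1,[z1]),(z1,[z0,z0,z0,z1]),(z2,[y1,z0,z1,z0,z2]),(z3,[z1,y9,y4,y3,y3,z9])],
    .ref k12 k0 [(z3,[y3,z9,z2,z1]),(z2,[z3,z0,z0,y1]),(z1,[z0,z0,z0,z1]),(z4,[y3,z0,z2,z1,z4]),(z6,[z3,y18,y8,y7,y6,
    z18])],.ref k12 k0 [(z9,[y12,z27,z8,z0,z4]),(z3,[z6,z0,y1,z0,y2]),(z1,[z0,z0,z0,z1]),(z3,[y3,z0,z2,z0,z4]),(z9,
    [z6,y27,y13,y9,y11,z27])],.ref k12 k0 [(z7,[y6,z15,z2,y2,y2,z6]),(z7,[z9,z9,z4,z3,z3,y9]),(z1,[z0,z0,z0,z1]),(z14,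
    [y9,y9,z3,y3,z11,z9]),(z7,[z3,y18,y8,y6,y6,z18])],.ref k12 k0 [(z2,[y3,z3,z0,z0,y1,z3]),(z4,[z9,z9,z4,z0,z3,y9]),
    (z1,[z0,z0,z0,z1]),(z8,[y9,y9,z0,z0,z5,z9]),(z4,[z3,y9,y4,y4,y3,z9])],.ref k12 k0 [(z5,[y12,z3,z0,y4,z0,z12]),(z5,
    [z18,z18,z5,z6,z0,y18]),(z1,[z0,z0,z0,z1]),(z5,[y9,y9,z0,y3,z5,z9]),(z5,[z6,y9,y5,y3,y5,z9])],.ref k12 k0 [(z5,
    [y6,z3,y2,y4,y4,z12]),(z5,[z9,z18,z8,z6,z6,y18]),(z1,[z0,z0,z0,z1]),(z10,[y9,y18,y3,y6,z4,z18]),(z5,[z3,y9,y4,y3,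
    y3,z9])],.ref k12 k0 [(z1,[y6,y3,y2,z2,y2,z6]),(z1,[z9,z9,z4,y3,z3,y9]),(z1,[z0,z0,z0,z1]),(z2,[y9,y9,y3,z3,y1,
    z9]),(z1,[z3,z0,z0,y2])],.ref k12 k0 [(z1,[z12,z15,z4,z0,z0,y12]),(z1,[y18,y18,y5,z0,z0,z18]),(z1,[z0,z0,z0,z1]),
    (z1,[z9,z9,z3,z0,z1,y9]),(z1,[y6,y9,y3,y1,y1,z9])],.ref k12 k0 [(z1,[y3,y3,y2,y1,y2,z6]),(z2,[z9,z18,z8,z3,z6,
    y18]),(z1,[z0,z0,z0,z1]),(z4,[y9,y18,y6,y3,y2,z18]),(z2,[z3,z0,z0,y1])],.ref k12 k0 [(z1,[z3,z3,z0,y1,y1]),(z2,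
    [y9,z0,z2,z3,z3]),(z1,[z0,z0,z0,z1]),(z4,[z9,z0,z0,y3,z1]),(z2,[y3,y6,y2,y1,y1,z6])],.ref k12 k0 [(z1,[y12,y9,y4,
    z0,y4,z12]),(z1,[z18,z18,z7,z0,z6,y18]),(z1,[z0,z0,z0,z1]),(z1,[y9,y9,y3,z0,y2,z9]),(z1,[z6,z3,z1,y1,z1,y3])],
    .ref k12 k0 [(z1,[y12,y21,y8,y8,y4,z24]),(z1,[z18,z36,z13,z12,z6,y36]),(z1,[z0,z0,z0,z1]),(z1,[y9,y18,y6,y6,y2,
    z18]),(z1,[z6,z9,z3,z3,z1,y9])],.ref k12 k0 [(z1,[z6,z9,z2,z2,z0,y6]),(z1,[y9,y9,y2,y3,z0,z9]),(z1,[z0,z0,z0,z1]),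
    (z2,[z9,z9,z3,z3,z2,y9]),(z1,[y3,y6,y2,y2,y1,z6])],.ref k12 k0 [(z5,[z12,z15,z0,z0,y4]),(z5,[y18,z0,z5,z0,z6]),
    (z1,[z0,z0,z0,z1]),(z5,[z9,z0,z0,z0,z2]),(z5,[y6,y15,y5,y5,y3,z15])],.ref k12 k0 [(z1,[y2,y3,y2,y2,y2,z6]),(z1,
    [z3,z9,z4,z3,z3,y9]),(z1,[z0,z0,z0,z1]),(z2,[y3,y9,y3,y3,y1,z9]),(z1,[z1])],.ref k12 k0 [(z1,[z4,z3]),(z1,[y6,z0,
    z1]),(z1,[z0,z0,z0,z1]),(z1,[z3,z0,z0,z0,z1]),(z1,[y2,y3,y1,y1,y1,z3])]]]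

/-- the nodes with numbers from 272 -/
noncomputable def cT6_3_n6 : List TN :=
  cT6_3_n6_0 ++ (cT6_3_n6_1 ++ (cT6_3_n6_2 ++ cT6_3_n6_3))

theorem cT6_3_k6 : allI (chkT 6 cT6_3_w tt6 cT6_3_s (blkF [] cT6_3_D)) cT6_3_n6 272 = true := by
  decide +kernel

end Pool.Agent.Lib_MP_fa6e45
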