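import Pool.Agent.Lib_MP_fa6e45.CG6_2d

/-!
MP_fa6e45_co, stage 5: certificates (captain, generated by a program).
-/

namespace Pool.Agent.Lib_MP_fa6e45

noncomputable def cT6_3_n7_0 : List TN :=
  [.lp [k160,k166,k166,k148,k148,k170] [k5,k5,k2,k2,k2,k2,k11,k11,k11,k11,k0,k0] k0 [[k0,k0,k0,k0,k0,k0,k0,k0,k20],[k0,
    k0,k0,k34],[k34],[k0,k0,k0,k0,k0,k0,k0,k0,k0,k0,k0,k22],[k0,k0,k0,k0,k0,k0,k18,k0,k0,k0,k40],[k0,k0,k0,k0,k0,k0,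
    k0,k0,k0,k22],[k0,k0,k0,k0,k0,k0,k0,k0,k0,k0,k18],[k0,k0,k0,k0,k0,k18,k0,k0,k0,k2],[k0,k0,k0,k0,k22,k0,k2],[k0,
    k20,k0,k0,k0,k0,k0,k0,k0,k0,k0,k26],[k0,k0,k22,k0,k0,k0,k0,k0,k26],[k0,k0,k0,k0,k0,k40,k0,k18]] (nat_lit 480) k5
    [[(k4,k123),(k6,k136),(k0,k160),(k10,k165),(k8,k180),(k2,k185)],[(k11,k145),(k7,k154),(k9,k154),(k1,k160),(k3,
    k163),(k5,k197)],[(k2,k132),(k6,k157),(k0,k163),(k4,k166),(k10,k168),(k8,k177)],[(k3,k132),(k7,k157),(k9,k157),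
    (k5,k166),(k11,k168),(k1,k185)],[(k10,k146),(k6,k157),(k8,k157),(k2,k166),(k4,k166),(k0,k197)],[(k1,k123),(k9,
    k139),(k7,k157),(k3,k166),(k5,k166),(k11,k190)],[(k8,k126),(k0,k154),(k2,k157),(k4,k157),(k6,k166),(k10,k199)],
    [(k1,k136),(k9,k148),(k3,k157),(k5,k157),(k11,k161),(k7,k166)],[(k4,k139),(k8,k146),(k6,k148),(k0,k154),(k2,k157),
    (k10,k177)],[(k7,k126),(k9,k146),(k5,k157),(k11,k159),(k3,k177),(k1,k180)],[(k10,k144),(k0,k145),(k8,k159),(k6,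
    k161),(k2,k168),(k4,k190)],[(k11,k144),(k5,k146),(k1,k165),(k3,k168),(k9,k177),(k7,k199)]]
    [] k0
    [[k2,k0,k0,k1,k0,k0],[k2,k0,k0,k0,k0,k1],[k1,k1,k1,k0,k0,k0],[k1,k0,k1,k1,k0,k0],[k1,k0,k1,k0,k1,k0],[k1,k0,k1,k0,
    k0,k1],[k1,k1,k0,k1,k0,k0],[k1,k0,k0,k2,k0,k0],[k1,k0,k0,k1,k1,k0],[k1,k0,k0,k0,k1,k1],[k1,k0,k0,k0,k0,k2],[k0,k3,
    k0,k0,k0,k0],[k0,k2,k1,k0,k0,k0],[k0,k2,k0,k1,k0,k0],[k0,k2,k0,k0,k1,k0],[k0,k2,k0,k0,k0,k1],[k0,k1,k0,k1,k1,k0],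
    [k0,k0,k2,k0,k1,k0],[k0,k0,k1,k1,k1,k0],[k0,k0,k1,k0,k2,k0],[k0,k0,k1,k1,k0,k1],[k0,k0,k1,k0,k1,k1],[k0,k0,k0,k2,
    k1,k0],[k0,k0,k0,k1,k2,k0],[k0,k0,k0,k1,k1,k1],[k0,k0,k0,k0,k3,k0],[k0,k0,k0,k0,k0,k3]]
    [.ref k12 k0 [(z1,[z4,y5,z0,z0,y4]),(z1,[z10,y20,z3,z0,y10]),(z1,[y8,z16,z0,z3,z8]),(z1,[y5,z10,z0,z0,z8]),(z1,
    [y2,z1,y3,y3,y1,z3])],.ref k12 k0 [(z3,[z4,z1]),(z3,[z10,y20,z9]),(z3,[y8,z16,z0,z9]),(z3,[y5,z10,z0,z0,z9]),(z3,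
    [y2,y5,y9,y9,y9,z9])],.ref k12 k0 [(z1,[z2,z1,y2,y2]),(z1,[z5,y5,y2,y5]),(z1,[y4,z4,z4,z7]),(z2,[y5,z5,z5,z5,z6]),
    (z1,[y1,y2,y2,y2,y3,z3])],.ref k12 k0 [(z3,[y4,z13,z0,z4,z4]),(z3,[y10,z10,z9,z10,z10]),(z3,[z8,y8,z0,z1,y8]),(z3,
    [z5,y5,z0,y5,z4]),(z3,[z2,y11,y9,y11,y11,z9])],.ref k12 k0 [(z1,[y2,z3,y2,z0,y2,z2]),(z1,[y5,z0,y2,z0,y5,z5]),(z1,
    [z4,z0,z4,z3,z4,y4]),(z2,[z5,z0,z5,z0,z11,y5]),(z1,[z1,y3,y2,y3,y2,z2])],.ref k12 k0 [(z1,[y4,z7,z0,z4]),(z1,[y10,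
    z10,z3,z10]),(z1,[z8,y8,z0,y5]),(z1,[z5,y5,z0,y5,z3]),(z1,[z2,y5,y3,y5,y3,z3])],.ref k12 k0 [(z3,[z4,z5,y4,z0,
    y4]),(z3,[z10,y10,y1,z0,y10]),(z3,[y8,z8,z8,z9,z8]),(z3,[y5,z5,z5,z0,z14]),(z3,[y2,y7,y7,y9,y7,z9])],
    .ref k12 k0 [(z1,[y2,z5,z0,z0,z4]),(z1,[y5,z5,z3,z0,z10]),(z1,[z4,y4,z0,z3,y8]),(z2,[z5,y5,z0,z0,y4]),(z1,[z1,y4,
    y3,y3,y5,z3])],.ref k12 k0 [(z1,[y4,z3,y4,y4,z0,z4]),(z1,[y10,z0,y7,y10,z0,z10]),(z1,[z8,z0,z8,z11,z0,y8]),(z1,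
    [z5,z0,z5,z5,z3,y5]),(z1,[z2,y3,y1,y1,y3,z1])],.ref k12 k0 [(z1,[z4,z3,z4,z4,z4,y4]),(z1,[z10,z0,z13,z10,z10,
    y10]),(z1,[y8,z0,y8,y5,y8,z8]),(z1,[y5,z0,y5,y5,y2,z5]),(z1,[y2,y3,y5,y5,y5,z5])],.ref k12 k0 [(z1,[z2,z1]),(z1,
    [z5,y5,z3]),(z1,[y4,z4,z0,z3]),(z2,[y5,z5,z0,z0,z6]),(z1,[y1,y2,y3,y3,y3,z3])],.ref k12 k0 [(z5,[z2,z15,y6]),(z1,
    [z1]),(z5,[y4,z0,z12,z15]),(z2,[y1,z0,z3,z0,z6]),(z5,[y1,y15,y12,y15,y15,z15])],.ref k12 k0 [(z1,[z1,z3,y2,y1]),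
    (z2,[z5,z0,y4,y5]),(z1,[y2,z0,z4,z5]),(z4,[y5,z0,z10,z5,z12]),(z2,[y1,y6,y4,y5,y6,z6])],.ref k12 k0 [(z5,[z4,z15,
    y8,z0,y4]),(z1,[z2,z0,y1,z0,y2]),(z5,[y8,z0,z16,z15,z8]),(z1,[y1,z0,z2,z0,z4]),(z5,[y2,y15,y11,y15,y13,z15])],
    .ref k12 k0 [(z3,[z2,z11,y2,z2,z2,y2]),(z3,[z5,z5,z4,z5,z5,y5]),(z3,[y4,y4,z4,z5,y4,z4]),(z6,[y5,y5,z5,y5,z13,
    z5]),(z3,[y1,y10,y8,y10,y10,z10])],.ref k12 k0 [(z7,[z4,z21,y8]),(z7,[z10,z0,z1]),(z7,[y8,z0,z16,z21]),(z7,[y5,z0,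
    z10,z0,z21]),(z7,[y2,y21,y17,y21,y21,z21])],.ref k12 k0 [(z1,[z4,z7,z0,z4,z0,y4]),(z1,[z10,z10,z3,z10,z0,y10]),
    (z1,[y8,y8,z0,y5,z0,z8]),(z1,[y5,y5,z0,y5,z3,z5]),(z1,[y2,y5,y3,y5,y3,z5])],.ref k12 k0 [(z3,[y2,z7,y2,z2,y2,z2]),
    (z3,[y5,y5,z4,z5,y5,z5]),(z3,[z4,z4,z4,z5,z4,y4]),(z6,[z5,z5,z5,y5,z23,y5]),(z3,[z1,y8,y8,y10,y8,z8])],
    .ref k12 k0 [(z5,[y4,z11,y4,z0,z0,z4]),(z1,[y2,y2,z1,z0,z0,z2]),(z5,[z8,z8,z8,z15,z0,y8]),(z1,[z1,z1,z1,z0,z3,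
    y1]),(z5,[z2,y13,y13,y15,y15,z13])],.ref k12 k0 [(z1,[y1,z1,y2,y1,y2,z2]),(z2,[y5,y10,y4,y5,y10,z10]),(z1,[z2,z4,
    z4,z5,z4,y4]),(z4,[z5,z10,z10,z5,z22,y10]),(z2,[z1,y4,y4,y5,y4,z4])],.ref k12 k0 [(z1,[y1,z3,z0,z1,z1]),(z2,[y5,
    z0,z6,z5,z5]),(z1,[z2,z0,z0,z1,y2]),(z4,[z5,z0,z0,y5,z7]),(z2,[z1,y6,y6,y7,y7,z6])],.ref k12 k0 [(z3,[y4,z5,y4,z0,
    y4,z4]),(z3,[y10,y10,y1,z0,y10,z10]),(z3,[z8,z8,z8,z9,z8,y8]),(z3,[z5,z5,z5,z0,z14,y5]),(z3,[z2,y7,y7,y9,y7,z7])],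
    .ref k12 k0 [(z1,[y1,z2,y1,y1,z1,z1]),(z2,[y5,y5,z1,y5,z5,z5]),(z1,[z2,z2,z2,z5,y2,y2]),(z4,[z5,z5,z5,z5,z7,y5]),
    (z2,[z1,y5,y5,y5,y7,z5])],.ref k12 k0 [(z3,[y4,z1,y8,y8,y4,z8]),(z3,[y10,y20,y11,y20,y10,z20]),(z3,[z8,z16,z16,
    z25,z8,y16]),(z3,[z5,z10,z10,z10,z14,y10]),(z3,[z2,y5,y5,y5,y7,z5])],.ref k12 k0 [(z1,[y2,z1,y2,y2,z0,z2]),(z1,
    [y5,y5,y2,y5,z0,z5]),(z1,[z4,z4,z4,z7,z0,y4]),(z2,[z5,z5,z5,z5,z6,y5]),(z1,[z1,y2,y2,y2,y3,z2])],.ref k12 k0 [(z1,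
    [y2,y3,y6,y6,y6,z6]),(z1,[y5,y15,y12,y15,y15,z15]),(z1,[z4,z12,z12,z15,z12,y12]),(z2,[z5,z15,z15,z15,z21,y15]),
    (z1,[z1])],.ref k12 k0 [(z1,[z4,z3]),(z1,[z10,z0,z3]),(z1,[y8,z0,z0,z3]),(z1,[y5,z0,z0,z0,z3]),(z1,[y2,y3,y3,y3,
    y3,z3])]],
    .leafM k0 [k2,k3,k4,k5,k0,k1] [(z1,[y1,y1,y1,z0,z1])] [],
    .lp [k160,k166,k168,k150,k162,k152] [k4,k4,k1,k1,k0,k0,k9,k9,k3,k3,k8,k8] k0 [[k0,k0,k0,k0,k0,k0,k10],[k0,k0,k0,k4,k0,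
    k10],[k4,k0,k0,k0,k0,k0,k0,k0,k0,k0,k4],[k0,k0,k0,k0,k0,k6],[k10,k0,k6],[k0,k0,k0,k0,k0,k0,k0,k2],[k0,k0,k0,k0,k2,
    k0,k0,k0,k22],[k0,k10],[k0,k0,k0,k0,k0,k0,k0,k0,k0,k0,k16],[k0,k0,k0,k0,k0,k0,k0,k22],[],[k0,k0,k0,k4,k0,k0,k0,k0,
    k0,k16]] (nat_lit 480) k5
    [[(k8,k145),(k6,k155),(k10,k156),(k2,k159),(k0,k160),(k4,k164)],[(k9,k151),(k11,k156),(k1,k160),(k3,k163),(k7,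
    k165),(k5,k168)],[(k4,k157),(k10,k159),(k2,k162),(k0,k163),(k8,k164),(k6,k168)],[(k1,k159),(k11,k159),(k3,k162),
    (k7,k164),(k9,k164),(k5,k167)],[(k6,k159),(k4,k162),(k10,k164),(k8,k165),(k2,k167),(k0,k168)],[(k3,k157),(k7,
    k159),(k11,k160),(k5,k162),(k1,k164),(k9,k167)],[(k6,k148),(k10,k151),(k8,k156),(k4,k159),(k2,k164),(k0,k165)],
    [(k11,k129),(k7,k148),(k1,k155),(k9,k156),(k5,k159),(k3,k168)],[(k0,k151),(k6,k156),(k10,k157),(k2,k164),(k4,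
    k167),(k8,k184)],[(k1,k145),(k7,k156),(k11,k157),(k3,k164),(k5,k165),(k9,k184)],[(k6,k129),(k0,k156),(k8,k157),
    (k2,k159),(k4,k160),(k10,k168)],[(k7,k151),(k1,k156),(k9,k157),(k3,k159),(k5,k164),(k11,k168)]]
    [] k0
    [[k2,k0,k0,k0,k1,k0],[k2,k0,k0,k0,k0,k1],[k1,k1,k0,k0,k1,k0],[k1,k1,k0,k0,k0,k1],[k1,k0,k0,k2,k0,k0],[k1,k0,k0,k1,
    k1,k0],[k1,k0,k0,k1,k0,k1],[k1,k0,k0,k0,k1,k1],[k0,k1,k0,k1,k0,k1],[k0,k0,k1,k2,k0,k0],[k0,k0,k1,k1,k0,k1],[k0,k0,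
    k0,k3,k0,k0],[k0,k0,k0,k2,k1,k0],[k0,k0,k0,k2,k0,k1],[k0,k0,k0,k1,k1,k1],[k0,k0,k0,k1,k0,k2]]
    [.ref k12 k0 [(z1,[z2,z1,z2,z2,z2,y2]),(z1,[z8,y8,z11,z8,z8,y8]),(z2,[y11,z11,y11,y5,y11,z11]),(z1,[y4,z4,y4,y4,
    y1,z4]),(z1,[y1,y2,y4,y4,y4,z4])],.ref k12 k0 [(z3,[z4,z1]),(z3,[z16,y32,z9]),(z3,[y11,z22,z0,z9]),(z3,[y8,z16,z0,
    z0,z9]),(z3,[y2,y5,y9,y9,y9,z9])],.ref k12 k0 [(z3,[z2,z9,z0,z2,z2,y2]),(z3,[z8,z0,z9,z8,z8,y8]),(z6,[y11,z0,z0,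
    z7,y11,z11]),(z3,[y4,z0,z0,y4,z5,z4]),(z3,[y1,y9,y9,y10,y10,z10])],.ref k12 k0 [(z7,[z4,z17,y4]),(z7,[z16,y16,
    z5]),(z7,[y11,z11,z11,z21]),(z7,[y8,z8,z8,z0,z21]),(z7,[y2,y19,y19,y21,y21,z21])],.ref k12 k0 [(z1,[y1,z4,z0,z0,
    z2]),(z1,[y4,z4,z3,z0,z8]),(z4,[z11,y11,z0,z12,y22]),(z1,[z2,y2,z0,z0,y1]),(z2,[z1,y7,y6,y6,y8,z6])],
    .ref k12 k0 [(z1,[y2,z3,y2,y2,z0,z2]),(z1,[y8,z0,y5,y8,z0,z8]),(z2,[z11,z0,z11,z17,z0,y11]),(z1,[z4,z0,z4,z4,z3,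
    y4]),(z1,[z1,y3,y2,y2,y3,z2])],.ref k12 k0 [(z1,[y4,z7,z0,z0,z4]),(z1,[y16,z16,z3,z0,z16]),(z1,[z11,y11,z0,z3,
    y11]),(z1,[z8,y8,z0,z0,y5]),(z1,[z2,y5,y3,y3,y5,z3])],.ref k12 k0 [(z1,[z4,z3,z4,z4,z4,y4]),(z1,[z16,z0,z19,z16,
    z16,y16]),(z1,[y11,z0,y11,y8,y11,z11]),(z1,[y8,z0,y8,y8,y5,z8]),(z1,[y2,y3,y5,y5,y5,z5])],.ref k12 k0 [(z3,[z4,z9,
    y4,z0,y4]),(z3,[z16,z0,y7,z0,y16]),(z3,[y11,z0,z11,z9,z11]),(z3,[y8,z0,z8,z0,z17]),(z3,[y2,y9,y7,y9,y7,z9])],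
    .ref k12 k0 [(z9,[y4,z27,z0,z4,z8]),(z9,[y16,z0,z27,z16,z32]),(z9,[z11,z0,z0,z16,y22]),(z9,[z8,z0,z0,y8,z11]),(z9,
    [z2,y27,y27,y29,y31,z27])],.ref k12 k0 [(z3,[y2,z9,z0,z2,z2]),(z3,[y8,z0,z9,z8,z8]),(z6,[z11,z0,z0,z7,y11]),(z3,
    [z4,z0,z0,y4,z5]),(z3,[z1,y9,y9,y10,y10,z9])],.ref k12 k0 [(z2,[y1,z6,z0,z0,z3]),(z1,[y2,z0,z3,z0,z6]),(z8,[z11,
    z0,z0,z24,y33]),(z1,[z1]),(z4,[z1,y12,y12,y12,y15,z12])],.ref k12 k0 [(z3,[y2,z7,y2,y2,z2,z2]),(z3,[y8,y8,z1,y8,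
    z8,z8]),(z6,[z11,z11,z11,z29,y11,y11]),(z3,[z4,z4,z4,z4,z5,y4]),(z3,[z1,y8,y8,y8,y10,z8])],.ref k12 k0 [(z5,[y4,
    z15,z0,z0,z8]),(z5,[y16,z0,z15,z0,z32]),(z5,[z11,z0,z0,z15,y22]),(z5,[z8,z0,z0,z0,y1]),(z5,[z2,y15,y15,y15,y19,
    z15])],.ref k12 k0 [(z3,[y4,z5,y4,y4,z0,z4]),(z3,[y16,y16,y7,y16,z0,z16]),(z3,[z11,z11,z11,z20,z0,y11]),(z3,[z8,
    z8,z8,z8,z9,y8]),(z3,[z2,y7,y7,y7,y9,z7])],.ref k12 k0 [(z1,[y2,z3,z0,z0,z2]),(z1,[y8,z0,z3,z0,z8]),(z2,[z11,z0,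
    z0,z6,y11]),(z1,[z4,z0,z0,z0,y1]),(z1,[z1,y3,y3,y3,y4,z3])]],
    .lp [k82,k84,k82,k82,k78,k70] [k12,k0,k5,k5,k6,k6,k6,k6,k8,k8,k12,k12] k0 [[k0,k0,k0,k0,k0,k0,k8,k0,k0,k0,k6],[k0,k0,
    k0,k0,k0,k8,k0,k0,k0,k2],[k0,k0,k0,k0,k0,k0,k0,k0,k4],[],[k8],[],[k0,k0,k0,k0,k0,k0,k0,k0,k2],[k0,k8,k0,k0,k0,k0,
    k0,k0,k0,k0,k0,k4],[k2,k0,k0,k0,k0,k0,k0,k0,k0,k0,k26],[k0,k0,k0,k4,k0,k0,k0,k2],[k0,k0,k0,k0,k0,k0,k4],[k0,k6,k0,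
    k0,k0,k0,k0,k0,k0,k26]] (nat_lit 240) k5
    [[(k8,k60),(k0,k76),(k10,k82),(k4,k88),(k2,k89),(k6,k92)],[(k9,k66),(k11,k72),(k1,k76),(k5,k76),(k3,k77),(k7,
    k84)],[(k4,k75),(k0,k77),(k8,k79),(k10,k83),(k2,k84),(k6,k91)],[(k11,k73),(k9,k81),(k5,k83),(k7,k83),(k3,k84),(k1,
    k89)],[(k0,k76),(k10,k76),(k4,k82),(k6,k82),(k2,k83),(k8,k84)],[(k3,k75),(k11,k76),(k9,k80),(k5,k82),(k7,k82),(k1,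
    k88)],[(k10,k76),(k8,k80),(k4,k82),(k6,k82),(k2,k83),(k0,k84)],[(k11,k74),(k9,k80),(k5,k82),(k7,k82),(k3,k91),(k1,
    k92)],[(k0,k66),(k10,k70),(k4,k80),(k6,k80),(k8,k80),(k2,k81)],[(k1,k60),(k11,k74),(k3,k79),(k7,k80),(k9,k80),(k5,
    k84)],[(k0,k72),(k2,k73),(k6,k74),(k8,k74),(k4,k76),(k10,k96)],[(k9,k70),(k5,k76),(k7,k76),(k1,k82),(k3,k83),(k11,
    k96)]]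
    [] k0
    [[k3,k0,k0,k0,k0,k0],[k2,k0,k0,k0,k1,k0],[k2,k0,k0,k0,k0,k1],[k1,k1,k0,k0,k1,k0],[k1,k0,k1,k0,k1,k0],[k1,k0,k1,k0,
    k0,k1],[k1,k0,k0,k1,k1,k0],[k1,k0,k0,k0,k2,k0],[k1,k0,k0,k0,k1,k1],[k1,k1,k0,k0,k0,k1],[k0,k1,k1,k0,k0,k1],[k0,k1,
    k0,k0,k1,k1],[k0,k0,k2,k0,k0,k1],[k0,k0,k1,k1,k0,k1],[k0,k0,k1,k0,k1,k1],[k0,k0,k0,k2,k0,k1],[k0,k0,k0,k1,k1,k1],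
    [k0,k0,k0,k0,k2,k1]]
    [.ref (nat_lit 309) k5 [(z1,[z0,z2,z4,z5,y4]),(z1,[y2,y6,y15,y18,z18]),(z1,[z1]),(z1,[z1,z3,z9,z9,y9])],
    .ref k58 k1 [(z2,[y3,y1]),(z1,[z1]),(z2,[y1,y1,y2,y2,z2]),(z1,[y2,z0,z0,z1])],.ref (nat_lit 223) k3 [(z1,[y2,z0,
    z1]),(z1,[z4,z2,z0,z3]),(z1,[z1,y1,y3,y3,z3]),(z1,[y2,y1])],.ref (nat_lit 310) k5 [(z1,[z0,z2,z4,z5,y4]),(z1,[z2,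
    z4,z9,z10,y10]),(z1,[y1,y3,y7,y8,z8]),(z1,[y1,y2,y4,y5,z5])],.ref k108 k5 [(z1,[z0,z2,z4,z5,y4]),(z1,[y2,z0,y1,z0,
    z2]),(z1,[z1,y1,y2,y3,z2]),(z1,[z1,z0,z1,z0,y1])],.ref (nat_lit 227) k0 [(z1,[y3,z2,z0,z3]),(z1,[z0,z0,z1]),(z1,
    [z4,y2,z0,y3]),(z1,[z1,y1,y1,y2,z1])],.ref k58 k1 [(z1,[y3,y2,y3,y3,z3]),(z1,[z2,z1,z2,z2,y2]),(z1,[y1,y1,y2,y2,
    z2]),(z1,[y4,y2,y4,y3,z4])],.ref k114 k5 [(z1,[z0,z2,z4,z5,y4]),(z1,[y2,y6,y13,y14,z14]),(z1,[z1,z2,z4,z4,y4]),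
    (z1,[z1,z3,z7,z7,y7])],.ref (nat_lit 311) k3 [(z1,[y6,y2,z1]),(z1,[z4,z2,z0,z1]),(z1,[z1,z0,y1,y1,z1]),(z1,[y2,
    y1])],.ref k47 k1 [(z1,[y1,z0,z1]),(z1,[z2,y1,y2]),(z1,[y1,y1,y2,y3,z3]),(z1,[y4,z2,z4,z3])],.ref k58 k1 [(z1,[z3,
    y2,y3,y3]),(z1,[y2,z1,z2,z2]),(z1,[z1,y1,y2,y2,z1]),(z1,[z4,y2,y4,y3])],.ref (nat_lit 217) k5 [(z1,[z0,z2,z4,z5,
    y4]),(z1,[z2,z2,z3,z4,y4]),(z1,[y1,y2,y4,y5,z5]),(z1,[y1,y1,y1,y2,z2])],.ref (nat_lit 312) k5 [(z1,[z0,z2,z4,z5,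
    y4]),(z1,[y2,z8,z17,z20,y16]),(z1,[z1,y5,y11,y13,z11]),(z1,[z1,y4,y8,y10,z8])],.ref (nat_lit 310) k5 [(z1,[z0,z2,
    z4,z5,y4]),(z1,[y2,z4,z9,z10,y8]),(z1,[z1,y3,y7,y8,z7]),(z1,[z1,y2,y4,y5,z4])],.ref (nat_lit 217) k5 [(z1,[z0,z2,
    z4,z5,y4]),(z1,[y2,z2,z5,z6,y4]),(z1,[z1,y2,y5,y6,z5]),(z1,[z1,y1,y2,y3,z2])],.ref (nat_lit 217) k5 [(z1,[z0,z2,
    z4,z5,y4]),(z1,[y2,z0,z1]),(z1,[z1,y1,y3,y3,z3]),(z1,[z1])],.ref k108 k5 [(z1,[z0,z2,z4,z5,y4]),(z1,[y2,y2,y3,y4,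
    z4]),(z1,[z1,z0,y1,y1,z1]),(z1,[z1,z1,z2,z2,y2])],.ref k58 k1 [(z1,[y3,y2]),(z1,[z2,z1]),(z1,[y1,y1,y1,y1,z1]),
    (z1,[y4,y2,z0,z1])]],
    .lp [k160,k160,k168,k162,k156,k152] [k4,k4,k4,k4,k0,k0,k3,k3,k6,k6,k8,k8] k0 [[k0,k0,k0,k0,k0,k0,k16,k0,k10],[],[],
    [k0,k0,k0,k0,k0,k6,k0,k12],[k0,k0,k6],[k0,k0,k0,k0,k0,k0,k0,k0,k0,k0,k0,k10],[k0,k0,k12,k0,k0,k0,k0,k0,k0,k0,k2],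
    [k0,k16],[k0,k0,k0,k0,k0,k0,k0,k0,k0,k0,k26],[k0,k10],[k0,k0,k0,k0,k10],[k0,k0,k0,k0,k0,k0,k0,k2,k0,
    k26]] (nat_lit 480) k5
    [[(k8,k132),(k10,k156),(k6,k159),(k0,k160),(k2,k160),(k4,k174)],[(k9,k142),(k11,k146),(k1,k160),(k3,k160),(k7,
    k161),(k5,k164)],[(k10,k156),(k0,k160),(k2,k160),(k4,k164),(k8,k168),(k6,k177)],[(k11,k156),(k1,k160),(k3,k160),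
    (k5,k164),(k7,k167),(k9,k170)],[(k6,k153),(k10,k160),(k4,k162),(k8,k162),(k0,k164),(k2,k164)],[(k11,k160),(k5,
    k162),(k9,k162),(k3,k164),(k7,k165),(k1,k174)],[(k10,k147),(k8,k159),(k0,k161),(k6,k162),(k4,k165),(k2,k167)],
    [(k5,k153),(k11,k157),(k1,k159),(k9,k159),(k7,k162),(k3,k177)],[(k0,k142),(k8,k156),(k10,k156),(k6,k159),(k4,
    k162),(k2,k170)],[(k1,k132),(k11,k154),(k9,k156),(k7,k159),(k5,k162),(k3,k168)],[(k0,k146),(k8,k154),(k2,k156),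
    (k6,k157),(k4,k160),(k10,k178)],[(k7,k147),(k1,k156),(k3,k156),(k9,k156),(k5,k160),(k11,k178)]]
    [] k0
    [[k2,k0,k0,k0,k1,k0],[k2,k0,k0,k0,k0,k1],[k1,k1,k0,k0,k1,k0],[k1,k1,k0,k0,k0,k1],[k1,k0,k1,k0,k1,k0],[k1,k0,k0,k1,
    k1,k0],[k1,k0,k0,k1,k0,k1],[k1,k0,k0,k0,k2,k0],[k1,k0,k0,k0,k1,k1],[k0,k2,k0,k0,k0,k1],[k0,k0,k1,k1,k1,k0],[k0,k0,
    k1,k1,k0,k1],[k0,k0,k1,k0,k1,k1],[k0,k0,k0,k2,k0,k1],[k0,k0,k0,k1,k2,k0],[k0,k0,k0,k1,k1,k1],[k0,k0,k0,k0,k3,k0],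
    [k0,k0,k0,k0,k2,k1]]
    [.ref k12 k0 [(z8,[z9,z5,z9,z3,z3,y9]),(z4,[y3,z1,z9,y1,y1,z3]),(z2,[y3,z1,y3,z1,y1,z3]),(z1,[z0,z0,z0,z0,z1]),
    (z4,[z3,y5,y9,y3,y3,z9])],.ref k12 k0 [(z7,[z9,z1]),(z7,[y6,z4,z21]),(z7,[y12,z8,z0,z7]),(z1,[z0,z0,z0,z0,z1]),
    (z7,[z6,y11,y21,y7,y7,z21])],.ref k12 k0 [(z1,[z3,z1,z0,z1,z1,y3]),(z3,[y6,z0,z9,y2,y2,z6]),(z3,[y12,z0,z0,y1,y4,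
    z12]),(z1,[z0,z0,z0,z0,z1]),(z3,[z6,y3,y9,y1,y1,z3])],.ref k12 k0 [(z2,[z9,y1,y9]),(z1,[y3,z1,z6]),(z1,[y6,z2,z6,
    z1]),(z1,[z0,z0,z0,z0,z1]),(z1,[z3,y2,y6,y1,y1,z3])],.ref k12 k0 [(z1,[z9,z1,z9,z0,z3,y9]),(z1,[y6,z0,y3,z0,y2,
    z6]),(z1,[y12,z0,y12,z1,y4,z12]),(z1,[z0,z0,z0,z0,z1]),(z1,[z6,y1,z3,y1,z1,y3])],.ref k12 k0 [(z5,[z9,z5,z9,z3,z0,
    y9]),(z5,[y6,z0,z9,y2,z0,z6]),(z5,[y12,z0,y12,z1,z0,z12]),(z1,[z0,z0,z0,z0,z1]),(z5,[z6,y5,y9,y3,y5,z9])],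
    .ref k12 k0 [(z4,[z9,z1,z0,z0,y3]),(z2,[y3,z1,z6,z0,z1]),(z1,[y3,z1,z0,z1,z1]),(z1,[z0,z0,z0,z0,z1]),(z2,[z3,y3,
    y6,y2,y3,z6])],.ref k12 k0 [(z7,[z9,z10,z18,z6,z6,y18]),(z7,[y6,y2,z9,y4,y4,z12]),(z7,[y12,y4,y24,y1,y8,z24]),(z1,
    [z0,z0,z0,z0,z1]),(z7,[z6,y5,y9,y3,y3,z9])],.ref k12 k0 [(z2,[z3,z2,z3,z1,z1,y3]),(z3,[y3,z0,z6,y1,y1,z3]),(z3,
    [y6,z0,y6,z1,y2,z6]),(z1,[z0,z0,z0,z0,z1]),(z3,[z3,y3,y6,y2,y2,z6])],.ref k12 k0 [(z1,[y3,z1,z6]),(z1,[z2,z0,y1]),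
    (z1,[z4,z0,y8,z1]),(z1,[z0,z0,z0,z0,z1]),(z1,[y2,y1,z1,y1,y1,z3])],.ref k12 k0 [(z2,[y9,y1,y9,z0,z0,z9]),(z1,[z3,
    z1,z6,z0,z0,y3]),(z1,[z6,z2,z6,z1,z0,y6]),(z1,[z0,z0,z0,z0,z1]),(z1,[y3,y2,y6,y1,y1,z6])],.ref k12 k0 [(z1,[y3,z1,
    z0,z1,z1]),(z3,[z6,z0,z9,y2,y2]),(z3,[z12,z0,z0,y1,y4]),(z1,[z0,z0,z0,z0,z1]),(z3,[y6,y3,y9,y1,y1,z9])],
    .ref k12 k0 [(z1,[y9,y2,y9,z0,y3,z9]),(z1,[z6,z2,z9,z0,z2,y6]),(z1,[z12,z4,z12,z1,z4,y12]),(z1,[z0,z0,z0,z0,z1]),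
    (z1,[y6,y3,y9,y1,y3,z9])],.ref k12 k0 [(z1,[z9,z1,z0,z0,y6]),(z1,[y6,z0,z3,z0,z4]),(z1,[y12,z0,z0,z1,z8]),(z1,[z0,
    z0,z0,z0,z1]),(z1,[z6,y1,y3,y1,y5,z3])],.ref k12 k0 [(z4,[z9,z10,z18,z6,z3,y18]),(z2,[y3,y2,z0,y2,y1,z6]),(z1,[y3,
    y2,y6,y1,y1,z6]),(z1,[z0,z0,z0,z0,z1]),(z2,[z3,z0,z0,z0,y1])],.ref k12 k0 [(z1,[z3,z2,z3,z1,z0,y3]),(z3,[y6,y2,z3,
    y2,z0,z6]),(z3,[y12,y4,y12,y1,z0,z12]),(z1,[z0,z0,z0,z0,z1]),(z3,[z6,y1,y3,y1,y3,z3])],.ref k12 k0 [(z2,[z3,z5,z9,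
    z3,z3,y9]),(z1,[y1,y1,z0,y1,y1,z3]),(z1,[y2,y2,y6,y1,y2,z6]),(z1,[z0,z0,z0,z0,z1]),(z1,[z1])],.ref k12 k0 [(z5,
    [z9,z11,z18,z6,z6,y18]),(z5,[y6,y4,z3,y4,y4,z12]),(z5,[y12,y8,y24,y3,y8,z24]),(z1,[z0,z0,z0,z0,z1]),(z5,[z6,y1,y3,
    y1,y1,z3])]],
    .leafM k0 [k2,k3,k4,k5,k0,k1] [(z3,[y1,y1,y3,z0,z3])] [],
    .lp [(nat_lit 1932),(nat_lit 1978),(nat_lit 1564),(nat_lit 2024),(nat_lit 1680),(nat_lit 1840)] [k46,k46,k23,k23,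
    (nat_lit 230),(nat_lit 230),k0,k0,k172,k172,k92,k92] k0 [[k0,k0,k0,k0,k0,k0,k0,k0,k0,k0,k46],[k0,k0,k0,k0,k0,k0,
    k0,k46],[k0,k0,k0,k0,k46,k0,k0,k0,k0,k0,(nat_lit 276)],[k0,k0,k0,k0,k0,k0,k0,k0,k0,k92],[k0,k0,k0,k0,k0,k0,k46],
    [k0,k0,k0,k46,k0,k0,k0,k0,k0,(nat_lit 230)],[k46,k0,k0,k0,k0,k0,k0,k0,k184],[k0,k0,k0,k0,k0,k46,k0,k0,k0,k0,k0,
    k69],[k0,k0,k92,k0,(nat_lit 230)],[k0,k0,k0,k0,k0,k0,k0,k184],[k0,k0,k0,k0,k0,k0,k69],[k0,k46,k0,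
    (nat_lit 276)]] (nat_lit 5520) k5
    [[(k2,(nat_lit 1679)),(k4,(nat_lit 1748)),(k8,(nat_lit 1806)),(k0,(nat_lit 1886)),(k10,(nat_lit 1886)),(k6,
    (nat_lit 2047))],[(k5,(nat_lit 1748)),(k9,(nat_lit 1852)),(k1,(nat_lit 1886)),(k11,(nat_lit 1886)),(k3,
    (nat_lit 1955)),(k7,(nat_lit 1978))],[(k4,(nat_lit 1771)),(k8,(nat_lit 1829)),(k0,(nat_lit 1955)),(k6,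
    (nat_lit 1955)),(k10,(nat_lit 1955)),(k2,(nat_lit 1978))],[(k1,(nat_lit 1679)),(k5,(nat_lit 1771)),(k9,
    (nat_lit 1829)),(k7,(nat_lit 1955)),(k3,(nat_lit 1978)),(k11,(nat_lit 2001))],[(k8,(nat_lit 1530)),(k4,
    (nat_lit 1610)),(k0,(nat_lit 1748)),(k2,(nat_lit 1771)),(k6,(nat_lit 1794)),(k10,(nat_lit 1978))],[(k9,
    (nat_lit 1576)),(k5,(nat_lit 1610)),(k1,(nat_lit 1748)),(k3,(nat_lit 1771)),(k7,(nat_lit 1794)),(k11,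
    (nat_lit 1932))],[(k8,(nat_lit 1622)),(k4,(nat_lit 1794)),(k10,(nat_lit 1932)),(k2,(nat_lit 1955)),(k0,
    (nat_lit 1978)),(k6,(nat_lit 2070))],[(k11,(nat_lit 1748)),(k5,(nat_lit 1794)),(k9,(nat_lit 1852)),(k3,
    (nat_lit 1955)),(k1,(nat_lit 2047)),(k7,(nat_lit 2070))],[(k4,(nat_lit 1576)),(k10,(nat_lit 1691)),(k2,
    (nat_lit 1829)),(k0,(nat_lit 1852)),(k6,(nat_lit 1852)),(k8,(nat_lit 1864))],[(k5,(nat_lit 1530)),(k7,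
    (nat_lit 1622)),(k11,(nat_lit 1760)),(k1,(nat_lit 1806)),(k3,(nat_lit 1829)),(k9,(nat_lit 1864))],[(k6,
    (nat_lit 1748)),(k8,(nat_lit 1760)),(k10,(nat_lit 1840)),(k0,(nat_lit 1886)),(k4,(nat_lit 1932)),(k2,
    (nat_lit 2001))],[(k9,(nat_lit 1691)),(k11,(nat_lit 1840)),(k1,(nat_lit 1886)),(k7,(nat_lit 1932)),(k3,
    (nat_lit 1955)),(k5,(nat_lit 1978))]]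
    [] k0
    [[k2,k0,k1,k0,k0,k0],[k1,k1,k1,k0,k0,k0],[k1,k1,k0,k0,k1,k0],[k1,k0,k2,k0,k0,k0],[k1,k0,k1,k0,k1,k0],[k1,k0,k0,k0,
    k1,k1],[k0,k1,k2,k0,k0,k0],[k0,k1,k1,k0,k1,k0],[k0,k1,k0,k1,k1,k0],[k0,k0,k3,k0,k0,k0],[k0,k0,k2,k1,k0,k0],[k0,k0,
    k2,k0,k1,k0],[k0,k0,k1,k1,k1,k0],[k0,k0,k1,k0,k2,k0],[k0,k0,k1,k0,k1,k1],[k0,k0,k0,k1,k2,k0],[k0,k0,k0,k1,k1,k1],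
    [k0,k0,k0,k0,k2,k1],[k0,k0,k0,k0,k1,k2]]
    [.ref k12 k0 [(z2,[z5,y4,z0,y5]),(z1,[z1,y2,z3,y1]),(z1,[y2,z4,z0,z5]),(z2,[y1,z2,z0,z1,z6]),(z4,[y5,y2,y12,y7,
    y12,z12])],.ref k12 k0 [(z1,[z5,y2,y5,y5]),(z1,[z2,y2,z1,y2]),(z1,[y4,z4,z4,z7]),(z1,[y1,z1,z1,z1,z3]),(z2,[y5,y1,
    y1,y1,y6,z6])],.ref k12 k0 [(z3,[z10,z9,z0,z10,z10,y10]),(z3,[z4,z0,z9,z4,z4,y4]),(z3,[y8,z0,z0,z1,y8,z8]),(z3,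
    [y2,z0,z0,y2,z7,z2]),(z3,[y5,y9,y9,y14,y14,z14])],.ref k12 k0 [(z1,[y5,z8,z0,z10]),(z1,[y2,z2,z3,z4]),(z1,[z4,y4,
    z0,y5]),(z1,[z1,y1,z0,y2,z3]),(z2,[z5,y11,y6,y16,y6,z6])],.ref k12 k0 [(z1,[y10,z3,y10,z0,y10,z10]),(z1,[y4,z0,y1,
    z0,y4,z4]),(z1,[z8,z0,z8,z3,z8,y8]),(z1,[z2,z0,z2,z0,z5,y2]),(z1,[z5,y3,z2,y3,z2,y2])],.ref k12 k0 [(z1,[z5,z3,z5,
    z5,z5,y5]),(z1,[z2,z0,z5,z2,z2,y2]),(z1,[y4,z0,y4,y1,y4,z4]),(z1,[y1,z0,y1,y1,z2,z1]),(z2,[y5,y6,y11,y11,y11,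
    z11])],.ref k12 k0 [(z2,[y5,z6,z5,z10]),(z1,[y1,z0,z4,z2]),(z1,[z2,z0,y2,y1]),(z2,[z1,z0,y1,y2,z6]),(z4,[z5,y12,
    y17,y22,y12,z12])],.ref k12 k0 [(z3,[y10,y1,z0,z0,y10,z10]),(z3,[y4,y4,z9,z0,y4,z4]),(z3,[z8,z8,z0,z9,z8,y8]),(z3,
    [z2,z2,z0,z0,z11,y2]),(z3,[z5,y4,y9,y9,y4,z4])],.ref k12 k0 [(z1,[y10,y7,z0,y10,z0,z10]),(z1,[y4,y4,z3,y4,z0,z4]),
    (z1,[z8,z8,z0,z11,z0,y8]),(z1,[z2,z2,z0,z2,z3,y2]),(z1,[z5,z2,y3,z2,y3,y2])],.ref k12 k0 [(z4,[y5,z12,z0,z15]),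
    (z2,[y1,z0,z6,z3]),(z1,[z1]),(z4,[z1,z0,z0,y3,z12]),(z8,[z5,y24,y24,y39,y24,z24])],.ref k12 k0 [(z3,[y5,z9,z0,z10,
    z5]),(z3,[y2,z0,z9,z4,z2]),(z3,[z4,z0,z0,z1,y4]),(z3,[z1,z0,z0,y2,z8]),(z6,[z5,y18,y18,y28,y23,z18])],
    .ref k12 k0 [(z7,[y10,z11,y10,z10,y10,z10]),(z7,[y4,y4,z17,z4,y4,z4]),(z7,[z8,z8,z8,z13,z8,y8]),(z7,[z2,z2,z2,y2,
    z23,y2]),(z7,[z5,y16,y16,y26,y16,z16])],.ref k12 k0 [(z1,[y2,z1,y2,z0,z0,z2]),(z5,[y4,y4,z11,z0,z0,z4]),(z5,[z8,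
    z8,z8,z15,z0,y8]),(z5,[z2,z2,z2,z0,z15,y2]),(z1,[z1,y2,y2,y3,y3,z2])],.ref k12 k0 [(z3,[y5,y1,y10,y5,y10,z10]),
    (z3,[y2,y4,z5,y2,y4,z4]),(z3,[z4,z8,z8,z13,z8,y8]),(z3,[z1,z2,z2,z1,z11,y2]),(z6,[z5,y8,y8,y13,y8,z8])],
    .ref k12 k0 [(z2,[y5,z1,y5,z0,y5,z5]),(z1,[y1,y1,z2,z0,y1,z1]),(z1,[z2,z2,z2,z3,z2,y2]),(z2,[z1,z1,z1,z0,z7,y1]),
    (z4,[z5,y7,y7,y12,y7,z7])],.ref k12 k0 [(z2,[y5,y4,y10,y10,y5,z10]),(z1,[y1,y2,z1,y2,y1,z2]),(z1,[z2,z4,z4,z7,z2,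
    y4]),(z2,[z1,z2,z2,z2,z7,y2]),(z4,[z5,y2,y2,y2,y7,z2])],.ref k12 k0 [(z1,[y5,y2,y5,y5,z0,z5]),(z1,[y2,y2,z1,y2,z0,
    z2]),(z1,[z4,z4,z4,z7,z0,y4]),(z1,[z1,z1,z1,z1,z3,y1]),(z2,[z5,y1,y1,y1,y6,z1])],.ref k12 k0 [(z3,[y10,y11,y20,
    y20,y20,z20]),(z3,[y4,y8,z1,y8,y8,z8]),(z3,[z8,z16,z16,z25,z16,y16]),(z3,[z2,z4,z4,z4,z13,y4]),(z3,[z5,z1,z1,z1,
    z1,y1])],.ref k12 k0 [(z1,[y10,y7,y10,y10,y10,z10]),(z1,[y4,y4,y1,y4,y4,z4]),(z1,[z8,z8,z8,z11,z8,y8]),(z1,[z2,z2,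
    z2,z2,z5,y2]),(z1,[z5,z2,z2,z2,z2,y2])]],
    .lp [(nat_lit 344),(nat_lit 308),(nat_lit 324),(nat_lit 324),(nat_lit 326),(nat_lit 292)] [k0,k0,k18,k18,k10,k10,k10,
    k10,k9,k9,k26,k26] k0 [[k0,k0,k0,k0,k0,k0,k18,k0,k0,k0,k50],[k0,k0,k0,k0,k0,k16],[k0,k0,k0,k0,k0,k0,k16],[k0,k0,
    k0,k0,k0,k4,k0,k0,k0,k52],[k16,k0,k4],[k0,k0,k0,k0,k0,k0,k0,k42],[k0,k0,k0,k0,k42,k0,k0,k0,k16],[k0,k18,k0,k16],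
    [k0,k0,k52],[k0,k0,k0,k0,k0,k0,k0,k16,k0,k0,k0,k14],[k0,k0,k0,k0,k0,k0,k0,k0,k14],[k0,k50]] (nat_lit 960) k5
    [[(k0,(nat_lit 294)),(k10,(nat_lit 318)),(k2,(nat_lit 326)),(k4,(nat_lit 334)),(k6,(nat_lit 334)),(k8,
    (nat_lit 349))],[(k1,(nat_lit 294)),(k9,(nat_lit 317)),(k11,(nat_lit 318)),(k3,(nat_lit 326)),(k5,(nat_lit 334)),
    (k7,(nat_lit 350))],[(k4,(nat_lit 300)),(k2,(nat_lit 308)),(k8,(nat_lit 317)),(k0,(nat_lit 326)),(k6,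
    (nat_lit 334)),(k10,(nat_lit 350))],[(k9,(nat_lit 301)),(k3,(nat_lit 308)),(k5,(nat_lit 316)),(k7,(nat_lit 320)),
    (k1,(nat_lit 326)),(k11,(nat_lit 352))],[(k8,(nat_lit 273)),(k10,(nat_lit 308)),(k2,(nat_lit 316)),(k4,
    (nat_lit 320)),(k0,(nat_lit 334)),(k6,(nat_lit 340))],[(k3,(nat_lit 300)),(k11,(nat_lit 308)),(k5,(nat_lit 320)),
    (k7,(nat_lit 324)),(k1,(nat_lit 334)),(k9,(nat_lit 367))],[(k6,(nat_lit 282)),(k10,(nat_lit 308)),(k2,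
    (nat_lit 320)),(k4,(nat_lit 324)),(k8,(nat_lit 325)),(k0,(nat_lit 350))],[(k7,(nat_lit 282)),(k11,(nat_lit 292)),
    (k9,(nat_lit 325)),(k1,(nat_lit 334)),(k3,(nat_lit 334)),(k5,(nat_lit 340))],[(k2,(nat_lit 301)),(k10,
    (nat_lit 309)),(k0,(nat_lit 317)),(k6,(nat_lit 325)),(k8,(nat_lit 342)),(k4,(nat_lit 367))],[(k5,(nat_lit 273)),
    (k11,(nat_lit 309)),(k3,(nat_lit 317)),(k7,(nat_lit 325)),(k9,(nat_lit 342)),(k1,(nat_lit 349))],[(k10,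
    (nat_lit 278)),(k6,(nat_lit 292)),(k4,(nat_lit 308)),(k8,(nat_lit 309)),(k0,(nat_lit 318)),(k2,(nat_lit 352))],
    [(k11,(nat_lit 278)),(k5,(nat_lit 308)),(k7,(nat_lit 308)),(k9,(nat_lit 309)),(k1,(nat_lit 318)),(k3,
    (nat_lit 350))]]
    [] k0
    [[k3,k0,k0,k0,k0,k0],[k2,k1,k0,k0,k0,k0],[k2,k0,k0,k0,k0,k1],[k1,k0,k1,k0,k1,k0],[k1,k0,k0,k0,k1,k1],[k1,k0,k0,k0,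
    k0,k2],[k0,k3,k0,k0,k0,k0],[k0,k2,k1,k0,k0,k0],[k0,k2,k0,k0,k1,k0],[k0,k1,k2,k0,k0,k0],[k0,k1,k1,k0,k1,k0],[k0,k1,
    k0,k2,k0,k0],[k0,k0,k2,k0,k0,k1],[k0,k0,k1,k2,k0,k0],[k0,k0,k1,k1,k0,k1],[k0,k0,k1,k1,k1,k0],[k0,k0,k1,k0,k1,k1],
    [k0,k0,k1,k0,k0,k2],[k0,k0,k0,k3,k0,k0],[k0,k0,k0,k2,k1,k0],[k0,k0,k0,k2,k0,k1],[k0,k0,k0,k1,k1,k1],[k0,k0,k0,k1,
    k0,k2],[k0,k0,k0,k0,k1,k2],[k0,k0,k0,k0,k0,k3]]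
    [.ref (nat_lit 314) k2 [(z1,[y2,z3,y3,y3,z3]),(z1,[z0,z0,z0,z1]),(z1,[z2,y6,z3]),(z1,[z1])],.ref k189 k8 [(z2,[z1,
    z0,z1,z2,y2]),(z4,[z1,z2,z3,z4,y4]),(z4,[z3,z2,z1,z4,y4]),(z2,[y1,y2,y1,y4,z4])],.ref (nat_lit 227) k2 [(z1,[y2,
    z3,y1,y1,z1]),(z1,[z0,z0,z0,z1]),(z1,[z2,y4,z1]),(z1,[z1,y1])],.ref k189 k8 [(z1,[z2,y1,z1,y1,y1]),(z1,[z1,z0,z1,
    z0,y1]),(z1,[z3,y1,z1,y2,y1]),(z1,[y2,z0,y1,z0,z2])],.ref (nat_lit 315) k2 [(z1,[y1,y2,y3,y3,z3]),(z1,[y2,z2,z0,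
    z3]),(z1,[z0,z0,z1]),(z1,[z2,z1])],.ref k20 k7 [(z1,[z4,y6,y2,y7,z2]),(z1,[z0,z0,z0,z1]),(z1,[z1,y1,z0,y1]),(z1,
    [y1,z2,z0,z2])],.ref (nat_lit 315) k0 [(z2,[z1,z6,y3]),(z1,[z1]),(z1,[z0,z0,z0,z1]),(z1,[y1,y3,z0,y3,z3])],
    .ref k20 k11 [(z1,[y2,z2,y1,z2]),(z1,[z0,z0,z1]),(z2,[y1,z0,z0,z1]),(z2,[z1,y2,z0,y3,z2])],
    .ref (nat_lit 227) k0 [(z1,[z2,z1,y4]),(z1,[z0,z0,z1]),(z1,[y2,z0,z4,z1]),(z1,[y1,y1,z1,y1,z1])],.ref k20 k7 [(z1,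
    [y2,y2,z0,y3,z2]),(z1,[z0,z0,z0,z1]),(z2,[y1,z0,z1]),(z2,[z1,z2,y1,z2])],.ref k20 k11 [(z1,[y4,z2,y1,z4]),(z1,[z0,
    z0,z1]),(z1,[y1,z0,z0,z1]),(z1,[z1,y1,z0,y2,z1])],.ref k189 k8 [(z1,[y1,y1,z0,y1,z1]),(z2,[y1,z0,z1]),(z2,[y3,y2,
    y1,y4,z4]),(z1,[z1])],.ref (nat_lit 227) k2 [(z1,[z2,y1,y1,y5,z1]),(z1,[z0,z0,z0,z1]),(z1,[y2,z0,z1,z4]),(z1,[y1,
    z1,z0,z2])],.ref k189 k8 [(z2,[y1,z0,z0,z1]),(z4,[y1,z2,z2,z3,y2]),(z4,[y3,z2,y2,z1,z2]),(z2,[z1,y2,z0,y3,z2])],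
    .ref k189 k8 [(z3,[y2,z1,z1,z3,y1]),(z3,[y1,z2,z2,z3,y2]),(z1,[y1,z1,z0,z1]),(z3,[z2,y4,y1,y6,z4])],
    .ref k189 k8 [(z1,[y1,z0,z0,z1]),(z2,[y1,z1,z1,z2,y1]),(z2,[y3,z1,y1,z2,z1]),(z1,[z1,y1,z0,y2,z1])],
    .ref k189 k8 [(z1,[y2,z1,z1,z3,y1]),(z1,[y1,z1,z1,z2,y1]),(z1,[y3,z2,z1,z4,y1]),(z1,[z2,y2,y1,y4,z2])],
    .ref k189 k8 [(z1,[y1,z1,z1,z2,y1]),(z2,[y1,z2,z2,z3,y2]),(z2,[y3,z4,z2,z5,y2]),(z1,[z1,y2,y1,y3,z2])],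
    .ref (nat_lit 314) k0 [(z1,[y2,y3,y6,y6,z6]),(z1,[z0,z0,z1]),(z1,[z2,z6,z6,z9,y6]),(z1,[z1])],
    .ref (nat_lit 227) k0 [(z1,[y2,y3,y4,y4,z4]),(z1,[z0,z0,z1]),(z1,[z2,z4,z4,z5,y4]),(z1,[z1,z1,z1,z1,y1])],
    .ref (nat_lit 316) k5 [(z1,[y4,z2,z2,z3,y2]),(z1,[y2,z0,z1]),(z1,[z3,y1,y2,y2,z2]),(z1,[z1])],
    .ref (nat_lit 315) k0 [(z1,[y1,z2,y1,y1,z1]),(z1,[y2,y2,z1,y2,z2]),(z1,[z0,z0,z0,z1]),(z1,[z2,y1,y1,y1,z1])],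
    .ref (nat_lit 227) k0 [(z1,[y2,y1,y2,y2,z2]),(z1,[z0,z0,z1]),(z1,[z2,z2,z2,z3,y2]),(z1,[z1])],.ref k20 k11 [(z1,
    [z4,z2,y5]),(z1,[z0,z0,z1]),(z1,[z1,z0,y1]),(z1,[y1,y1,z1,y1,z1])],.ref (nat_lit 315) k0 [(z1,[y1,z3]),(z1,[y2,z0,
    z3]),(z1,[z0,z0,z0,z1]),(z1,[z2,y3,y3,y3,z3])]],
    .lp [k158,k172,k164,k160,k152,k152] [k7,k7,k0,k0,k4,k4,k6,k6,k10,k10,k10,k10] k0 [[k0,k0,k0,k0,k0,k0,k18,k0,k16],[k0,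
    k0,k0,k0,k0,k2,k0,k0,k0,k0,k0,k4],[k0,k0,k0,k0,k0,k0,k0,k0,k12,k0,k12],[k0,k0,k0,k0,k0,k0,k0,k8],[k2],[k0,k0,k0,
    k0,k0,k0,k0,k0,k0,k22,k0,k10],[k0,k0,k8],[k0,k18],[k0,k0,k0,k0,k22,k0,k0,k0,k0,k0,k34],[k0,k16,k0,k12],[k4,k0,k0,
    k0,k10],[k0,k0,k0,k12,k0,k0,k0,k0,k0,k34]] (nat_lit 480) k5
    [[(k8,k121),(k2,k153),(k10,k155),(k6,k159),(k0,k162),(k4,k171)],[(k9,k137),(k11,k139),(k5,k161),(k7,k161),(k1,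
    k162),(k3,k165)],[(k10,k158),(k0,k165),(k4,k166),(k2,k172),(k8,k178),(k6,k184)],[(k11,k150),(k1,k153),(k7,k166),
    (k5,k168),(k9,k170),(k3,k172)],[(k6,k154),(k0,k161),(k4,k164),(k2,k168),(k8,k170),(k10,k170)],[(k9,k158),(k7,
    k162),(k5,k164),(k3,k166),(k1,k171),(k11,k180)],[(k8,k134),(k10,k146),(k6,k160),(k0,k161),(k4,k162),(k2,k166)],
    [(k5,k154),(k9,k156),(k11,k156),(k1,k159),(k7,k160),(k3,k184)],[(k0,k137),(k8,k152),(k10,k152),(k6,k156),(k4,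
    k158),(k2,k170)],[(k1,k121),(k7,k134),(k9,k152),(k11,k152),(k5,k170),(k3,k178)],[(k0,k139),(k2,k150),(k8,k152),
    (k6,k156),(k4,k180),(k10,k186)],[(k7,k146),(k9,k152),(k1,k155),(k3,k158),(k5,k170),(k11,k186)]]
    [] k0
    [[k2,k0,k0,k0,k1,k0],[k2,k0,k0,k0,k0,k1],[k1,k1,k0,k0,k1,k0],[k1,k1,k0,k0,k0,k1],[k1,k0,k1,k0,k1,k0],[k1,k0,k0,k1,
    k1,k0],[k1,k0,k0,k1,k0,k1],[k1,k0,k0,k0,k2,k0],[k1,k0,k0,k0,k1,k1],[k0,k0,k1,k2,k0,k0],[k0,k0,k1,k1,k1,k0],[k0,k0,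
    k0,k2,k1,k0],[k0,k0,k0,k2,k0,k1],[k0,k0,k0,k1,k2,k0],[k0,k0,k0,k1,k1,k1],[k0,k0,k0,k0,k3,k0],[k0,k0,k0,k0,k2,k1]]
    [.ref k12 k0 [(z5,[z6,z3,z6,z6,z2,y6]),(z5,[y6,z2,z9,y6,y2,z6]),(z5,[y6,z2,y6,z9,y2,z6]),(z1,[z0,z0,z0,z0,z1]),
    (z5,[z3,y6,y12,y12,y4,z12])],.ref k12 k0 [(z5,[z6,z1]),(z5,[y6,z4,z15]),(z5,[y6,z4,z0,z15]),(z1,[z0,z0,z0,z0,z1]),
    (z5,[z3,y7,y15,y15,y5,z15])],.ref k12 k0 [(z1,[z6,z1,z0,z6,z2,y6]),(z1,[y6,z0,z3,y6,y2,z6]),(z1,[y6,z0,z0,y3,y2,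
    z6]),(z1,[z0,z0,z0,z0,z1]),(z1,[z3,y1,y3])],.ref k12 k0 [(z1,[z6,y1,y6]),(z1,[y6,z2,z9]),(z1,[y6,z2,z6,z3]),(z1,
    [z0,z0,z0,z0,z1]),(z1,[z3,y2,y6,y3,y1,z3])],.ref k12 k0 [(z1,[z6,z1,z6,z0,z2,y6]),(z1,[y6,z0,y3,z0,y2,z6]),(z1,
    [y6,z0,y6,z3,y2,z6]),(z1,[z0,z0,z0,z0,z1]),(z1,[z3,y1,z0,y3])],.ref k12 k0 [(z1,[z2,z1,z2,z2,z0,y2]),(z1,[y2,z0,
    z1,y2,z0,z2]),(z1,[y2,z0,y2,z1,z0,z2]),(z1,[z0,z0,z0,z0,z1]),(z1,[z1,y1,y2,y2,y1,z2])],.ref k12 k0 [(z3,[z6,z1,z0,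
    z0,y2]),(z3,[y6,z2,z9,z0,z2]),(z3,[y6,z2,z0,z9,z2]),(z1,[z0,z0,z0,z0,z1]),(z3,[z3,y4,y9,y9,y4,z9])],
    .ref k12 k0 [(z2,[z3,z3,z6,z6,z2,y6]),(z2,[y3,y1,z0,y6,y2,z6]),(z2,[y3,y1,y6,z0,y2,z6]),(z1,[z0,z0,z0,z0,z1]),(z4,
    [z3,y3,y6,y6,y2,z6])],.ref k12 k0 [(z2,[z3,z2,z3,z3,z1,y3]),(z2,[y3,z0,z3,y3,y1,z3]),(z2,[y3,z0,y3,z3,y1,z3]),(z1,
    [z0,z0,z0,z0,z1]),(z4,[z3,y4,y9,y9,y3,z9])],.ref k12 k0 [(z1,[y3,z1,z0,z3,z2]),(z1,[z3,z0,z3,y3,y2]),(z1,[z3,z0,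
    z0,z0,y2]),(z1,[z0,z0,z0,z0,z1]),(z2,[y3,y2,y6,y3,z0,z6])],.ref k12 k0 [(z1,[y6,y1,y6,z0,z0,z6]),(z1,[z6,z2,z9,z0,
    z0,y6]),(z1,[z6,z2,z6,z3,z0,y6]),(z1,[z0,z0,z0,z0,z1]),(z1,[y3,y2,y6,y3,y1,z6])],.ref k12 k0 [(z1,[z6,z3,z6,z6,y2,
    y6]),(z1,[y6,y2,y3,y6,z2,z6]),(z1,[y6,y2,y6,y3,z2,z6]),(z1,[z0,z0,z0,z0,z1]),(z1,[z3,z0,z0,z0,y2])],
    .ref k12 k0 [(z1,[z6,z1,z0,z0,y4]),(z1,[y6,z0,z3,z0,z4]),(z1,[y6,z0,z0,z3,z4]),(z1,[z0,z0,z0,z0,z1]),(z1,[z3,y1,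
    y3,y3,y3,z3])],.ref k12 k0 [(z1,[z3,z3,z6,z6,z1,y6]),(z1,[y3,y2,y3,y6,y1,z6]),(z1,[y3,y2,y6,y3,y1,z6]),(z1,[z0,z0,
    z0,z0,z1]),(z2,[z3,z0,z0,z0,y1])],.ref k12 k0 [(z1,[z3,z2,z3,z3,z0,y3]),(z1,[y3,y1,z0,y3,z0,z3]),(z1,[y3,y1,y3,z0,
    z0,z3]),(z1,[z0,z0,z0,z0,z1]),(z2,[z3,y1,y3,y3,y2,z3])],.ref k12 k0 [(z1,[z2,z3,z6,z6,z2,y6]),(z1,[y2,y2,y3,y6,y2,
    z6]),(z1,[y2,y2,y6,y3,y2,z6]),(z1,[z0,z0,z0,z0,z1]),(z1,[z1])],.ref k12 k0 [(z3,[z6,z7,z12,z12,z4,y12]),(z3,[y6,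
    y4,y3,y12,y4,z12]),(z3,[y6,y4,y12,y3,y4,z12]),(z1,[z0,z0,z0,z0,z1]),(z3,[z3,y1,y3,y3,y1,z3])]],
    .lp [k72,k82,k86,k82,k70,k86] [k7,k7,k2,k2,k0,k0,k2,k2,k8,k8,k0,k0] k0 [[k0,k0,k0,k0,k0,k0,k10,k0,k10],[k0,k0,k0,k14,
    k0,k0,k0,k0,k0,k0,k0,k8],[k14,k0,k0,k0,k0,k0,k0,k0,k0,k0,k6],[k0,k0,k0,k0,k0,k0,k0,k10,k0,k2],[k0,k0,k0,k0,k0,k0,
    k0,k0,k18],[],[k0,k0,k10],[k0,k10,k0,k0,k0,k0,k0,k0,k0,k0,k0,k10],[k0,k0,k2,k0,k0,k0,k0,k0,k0,k0,k8],[k0,k10,k0,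
    k0,k0,k18],[k8,k0,k0,k0,k0,k0,k10],[k0,k0,k0,k6,k0,k0,k0,k0,k0,k8]] (nat_lit 240) k5
    [[(k8,k63),(k2,k71),(k4,k79),(k10,k79),(k0,k80),(k6,k87)],[(k9,k61),(k11,k69),(k3,k77),(k7,k77),(k1,k80),(k5,
    k93)],[(k2,k68),(k10,k76),(k0,k77),(k4,k84),(k8,k86),(k6,k92)],[(k3,k68),(k1,k71),(k7,k82),(k5,k84),(k9,k86),(k11,
    k86)],[(k6,k74),(k8,k76),(k2,k84),(k4,k86),(k10,k92),(k0,k93)],[(k11,k68),(k9,k78),(k1,k79),(k3,k84),(k7,k84),(k5,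
    k86)],[(k0,k77),(k2,k82),(k6,k82),(k4,k84),(k10,k84),(k8,k94)],[(k5,k74),(k9,k76),(k7,k82),(k11,k84),(k1,k87),(k3,
    k92)],[(k0,k61),(k10,k68),(k8,k70),(k6,k76),(k4,k78),(k2,k86)],[(k1,k63),(k9,k70),(k5,k76),(k11,k78),(k3,k86),(k7,
    k94)],[(k4,k68),(k0,k69),(k8,k78),(k6,k84),(k2,k86),(k10,k94)],[(k9,k68),(k3,k76),(k1,k79),(k7,k84),(k5,k92),(k11,
    k94)]]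
    [] k0
    [[k2,k1,k0,k0,k0,k0],[k2,k0,k0,k0,k1,k0],[k2,k0,k0,k0,k0,k1],[k1,k2,k0,k0,k0,k0],[k1,k1,k0,k0,k1,k0],[k1,k1,k0,k0,
    k0,k1],[k1,k0,k1,k1,k0,k0],[k1,k0,k1,k0,k1,k0],[k1,k0,k0,k1,k1,k0],[k1,k0,k0,k0,k2,k0],[k1,k0,k0,k0,k1,k1],[k0,k3,
    k0,k0,k0,k0],[k0,k2,k1,k0,k0,k0],[k0,k2,k0,k0,k0,k1],[k0,k1,k1,k0,k0,k1],[k0,k0,k1,k1,k0,k1],[k0,k0,k1,k1,k1,k0],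
    [k0,k0,k1,k0,k2,k0],[k0,k0,k1,k0,k1,k1],[k0,k0,k0,k1,k1,k1],[k0,k0,k0,k0,k3,k0],[k0,k0,k0,k0,k2,k1]]
    [.ref k179 k9 [(z1,[y1,z2,z1]),(z1,[z0,y1,y1,y1,z1]),(z1,[z0,z0,z0,z1]),(z1,[z1,y2])],.ref k179 k3 [(z1,[y1,y2,
    z1]),(z1,[z0,z2,z0,z1]),(z1,[z0,z1,y1,y1,z1]),(z1,[z1])],.ref k122 k4 [(z1,[z1,y2]),(z1,[z1,z1]),(z1,[z2,y4,z3]),
    (z1,[y2,z4,z0,z3])],.ref (nat_lit 217) k6 [(z1,[y2,z2,z0,z1]),(z1,[y2,z1,y1,y1,z1]),(z1,[z2,y2,z1]),(z1,[z1,y1])],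
    .ref k122 k4 [(z1,[z1,y1,y1]),(z1,[z1,z2,y1]),(z1,[z2,y2,z1]),(z1,[y2,z2,z2,z3])],.ref k179 k9 [(z1,[y1,z1,z1]),
    (z1,[z0,y1,y1,y1,z1]),(z1,[z0,z0,z0,z1]),(z1,[z1,y1])],.ref k122 k4 [(z1,[y1,z0,y1,z0,z1]),(z1,[y1,z3,y1,z0,z1]),
    (z1,[y2,z0,z1,z0,z2]),(z1,[z2,z0,z2,z3,y2])],.ref k189 k4 [(z1,[y1,z1,z0,z1]),(z1,[y1,z2,z0,z1]),(z1,[y2,z2,z1,
    z2]),(z1,[z2,y2,z0,y1])],.ref k189 k4 [(z1,[y1,z0,y1,y1,z1]),(z1,[y1,z1,y1,y1,z1]),(z1,[y2,z0,y1,y2,z2]),(z1,[z2,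
    z0,z2,z3,y2])],.ref (nat_lit 217) k2 [(z1,[y2,z1,y1,y1,z1]),(z1,[y2,z2,z0,z1]),(z1,[z2,y2,z1]),(z1,[z1])],
    .ref k179 k3 [(z1,[y1,y3,z1]),(z1,[z0,z2,z0,z1]),(z1,[z0,z1,y1,y1,z1]),(z1,[z1,z1])],.ref (nat_lit 318) k9 [(z1,
    [y1,z0,z3]),(z1,[z0,y1,y1,y1,z1]),(z1,[z0,z0,z0,z1]),(z1,[z1])],.ref k189 k4 [(z2,[z1,z0,y2,y1]),(z2,[z1,z2,y2,
    y1]),(z1,[z1,z0,y1,y1]),(z1,[y1,z0,z2,z2])],.ref (nat_lit 217) k6 [(z1,[y2,z0,z0,z1]),(z1,[y2,y1,y1,y1,z1]),(z1,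
    [z2,z0,z1]),(z1,[z1])],.ref k189 k4 [(z1,[z1,z0,y1,y1]),(z1,[z1,z1,y1,y1]),(z1,[z2,z0,y1,y2]),(z1,[y2,z0,z2,z3])],
    .ref k122 k4 [(z1,[y1,y1,y1,z0,z1]),(z1,[y1,z2,y1,z0,z1]),(z1,[y2,y2,z1,z0,z2]),(z1,[z2,z2,z2,z3,y2])],
    .ref k179 k9 [(z1,[z1,z1,z1,z0,y1]),(z1,[z0,y1,y1,y1,z1]),(z1,[z0,z0,z0,z1]),(z1,[y1,y1,z0,z0,z1])],
    .ref k189 k4 [(z2,[y1,z0,z0,z1]),(z2,[y1,z2,z0,z1]),(z1,[y1,z0,z1,z1]),(z1,[z1])],.ref k189 k4 [(z1,[y1,z0,z0,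
    z1]),(z1,[y1,z1,z0,z1]),(z1,[y2,z0,z1,z2]),(z1,[z2,z0,z0,y1])],.ref k189 k4 [(z1,[y1,y1,y1,y1,z1]),(z1,[y1,z0,y1,
    y1,z1]),(z1,[y2,y2,y1,y2,z2]),(z1,[z2,z2,z2,z3,y2])],.ref (nat_lit 318) k3 [(z1,[y1,y6,z3]),(z1,[z0,z2,z0,z1]),
    (z1,[z0,z1,y1,y1,z1]),(z1,[z1])],.ref (nat_lit 217) k2 [(z1,[y2,y1,y1,y1,z1]),(z1,[y2,z0,z0,z1]),(z1,[z2,z0,z1]),
    (z1,[z1,z1])]],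
    .leafM k1 [k0,k1,k2,k3,k4,k5] [(z1,[y1,z0,y1,z0,z1]),(z1,[z1,z0,z1])] [],
    .lp [(nat_lit 320),(nat_lit 336),(nat_lit 340),(nat_lit 334),(nat_lit 282),(nat_lit 306)] [k10,k10,k2,k2,k0,k0,k3,k3,
    k29,k29,k17,k17] k0 [[k0,k0,k0,k0,k0,k0,k0,k0,k12],[k0,k0,k0,k2],[k2],[k0,k0,k0,k0,k0,k0,k0,k50,k0,k0,k0,k10],[k0,
    k0,k0,k0,k0,k0,k2,k0,k8],[k0,k0,k0,k0,k0,k0,k0,k0,k0,k0,k0,k16],[k0,k0,k50,k0,k0,k0,k0,k0,k0,k0,k24],[k0,k0,k0,k0,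
    k0,k2,k0,k0,k0,k2],[k0,k0,k0,k0,k0,k0,k2,k0,k0,k0,k28],[k0,k12,k0,k0,k0,k8],[k0,k0,k10,k0,k16],[k0,k0,k0,k0,k0,k0,
    k0,k24,k0,k28]] (nat_lit 960) k5
    [[(k8,(nat_lit 273)),(k6,(nat_lit 303)),(k10,(nat_lit 313)),(k0,(nat_lit 320)),(k2,(nat_lit 338)),(k4,
    (nat_lit 346))],[(k9,(nat_lit 301)),(k11,(nat_lit 301)),(k1,(nat_lit 320)),(k7,(nat_lit 327)),(k3,(nat_lit 328)),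
    (k5,(nat_lit 332))],[(k8,(nat_lit 321)),(k10,(nat_lit 321)),(k0,(nat_lit 328)),(k2,(nat_lit 334)),(k6,
    (nat_lit 335)),(k4,(nat_lit 338))],[(k11,(nat_lit 321)),(k3,(nat_lit 334)),(k7,(nat_lit 335)),(k1,(nat_lit 338)),
    (k5,(nat_lit 338)),(k9,(nat_lit 359))],[(k6,(nat_lit 287)),(k8,(nat_lit 311)),(k10,(nat_lit 313)),(k0,
    (nat_lit 332)),(k2,(nat_lit 338)),(k4,(nat_lit 340))],[(k9,(nat_lit 309)),(k11,(nat_lit 315)),(k7,(nat_lit 337)),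
    (k3,(nat_lit 338)),(k5,(nat_lit 340)),(k1,(nat_lit 346))],[(k10,(nat_lit 304)),(k8,(nat_lit 316)),(k0,
    (nat_lit 327)),(k2,(nat_lit 335)),(k6,(nat_lit 336)),(k4,(nat_lit 337))],[(k5,(nat_lit 287)),(k1,(nat_lit 303)),
    (k9,(nat_lit 308)),(k11,(nat_lit 322)),(k3,(nat_lit 335)),(k7,(nat_lit 336))],[(k8,(nat_lit 280)),(k0,
    (nat_lit 301)),(k6,(nat_lit 308)),(k4,(nat_lit 309)),(k10,(nat_lit 318)),(k2,(nat_lit 359))],[(k1,(nat_lit 273)),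
    (k9,(nat_lit 280)),(k11,(nat_lit 294)),(k5,(nat_lit 311)),(k7,(nat_lit 316)),(k3,(nat_lit 321))],[(k8,
    (nat_lit 294)),(k0,(nat_lit 301)),(k4,(nat_lit 315)),(k2,(nat_lit 321)),(k6,(nat_lit 322)),(k10,(nat_lit 334))],
    [(k7,(nat_lit 304)),(k1,(nat_lit 313)),(k5,(nat_lit 313)),(k9,(nat_lit 318)),(k3,(nat_lit 321)),(k11,
    (nat_lit 334))]]
    [] k0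
    [[k2,k0,k0,k1,k0,k0],[k2,k0,k0,k0,k1,k0],[k2,k0,k0,k0,k0,k1],[k1,k0,k1,k0,k1,k0],[k1,k0,k0,k1,k1,k0],[k1,k0,k0,k1,
    k0,k1],[k1,k0,k0,k0,k2,k0],[k1,k0,k0,k0,k1,k1],[k1,k0,k0,k0,k0,k2],[k0,k0,k1,k1,k1,k0],[k0,k0,k1,k1,k0,k1],[k0,k0,
    k1,k0,k2,k0],[k0,k0,k1,k0,k1,k1],[k0,k0,k0,k1,k2,k0],[k0,k0,k0,k1,k1,k1],[k0,k0,k0,k0,k3,k0],[k0,k0,k0,k0,k2,k1],
    [k0,k0,k0,k0,k1,k2]]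
    [.ref k12 k0 [(z6,[z11,y2,z0,z0,y11]),(z6,[y1,z1,z9,z0,z1]),(z3,[z4,y4,z0,z9,y4]),(z3,[y2,z2,z0,z0,z11]),(z6,[y16,
    z7,y9,y18,y2,z18])],.ref k12 k0 [(z4,[z22,y5,z11,z22,z22,y22]),(z4,[y2,z1,z5,y2,y2,z2]),(z1,[z4,y2,z2,z7,z4,y4]),
    (z1,[y2,z1,y1,y2,z1,z2]),(z2,[y16,z5,y11,y22,y22,z22])],.ref k12 k0 [(z8,[z11,z1]),(z8,[y1,z1,z12]),(z1,[z1,y1,z0,
    z3]),(z2,[y1,z1,z0,z0,z6]),(z2,[y4,z1,y3,y6,y6,z6])],.ref k12 k0 [(z2,[z22,z3,z11,z0,z22,y22]),(z1,[y1,z0,z1,z0,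
    y1,z1]),(z1,[z8,z0,z4,z3,z8,y8]),(z1,[y4,z0,y2,z0,y1,z4]),(z2,[y32,y3,y19,y6,y38,z38])],.ref k12 k0 [(z6,[y22,z9,
    y11,y22,z0,z22]),(z3,[z1,z0,z5,z1,z0,y1]),(z3,[y8,z0,y4,z1,z0,z8]),(z3,[z4,z0,z2,z4,z9,y4]),(z6,[z32,y9,z7,z14,
    y18,y14])],.ref k12 k0 [(z3,[z11,y1,z0,z0,y11]),(z6,[y2,z1,z9,z0,z2]),(z3,[z8,y4,z0,z9,y8]),(z3,[y4,z2,z0,z0,
    z13]),(z6,[y32,z7,y9,y18,z14,z18])],.ref k12 k0 [(z7,[y11,z5,y11,y22,y22,z22]),(z14,[z2,z1,z23,z4,z4,y4]),(z7,[y8,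
    y4,y8,z5,y16,z16]),(z7,[z4,z2,z4,z8,z29,y8]),(z14,[z32,y5,z11,z22,z22,y22])],.ref k12 k0 [(z2,[y22,z3,y11,y22,y22,
    z22]),(z1,[z1,z0,z2,z1,z1,y1]),(z1,[y8,z0,y4,y5,y8,z8]),(z1,[z4,z0,z2,z4,z7,y4]),(z2,[z32,y3,z13,z26,z26,y26])],
    .ref k12 k0 [(z5,[z11,z2]),(z10,[y2,z1,z15]),(z5,[z8,y4,z0,z15]),(z5,[y4,z2,z0,z0,z15]),(z10,[y32,z1,y15,y30,y30,
    z30])],.ref k12 k0 [(z8,[y22,z1,y11,z0,z0,z22]),(z8,[z2,z1,z13,z0,z0,y2]),(z1,[y2,y1,y1,z3,z0,z2]),(z2,[z2,z1,z1,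
    z0,z6,y2]),(z2,[z8,z1,z1,y6,y6,y2])],.ref k12 k0 [(z2,[z11,z3,z0,y11,y11]),(z2,[y1,z0,z3,z1,z1]),(z1,[z4,z0,z0,y1,
    y4]),(z1,[y2,z0,z0,z2,z5]),(z2,[y16,y3,y3,z10,z10,z6])],.ref k12 k0 [(z8,[y11,z1,y11,y11,y22,z22]),(z8,[z1,z1,z13,
    z1,z2,y2]),(z1,[y1,y1,y1,z2,y2,z2]),(z2,[z1,z1,z1,z1,z8,y2]),(z2,[z4,z1,z1,y2,z2,y2])],.ref k12 k0 [(z4,[y22,y5,
    y11,z0,y22,z22]),(z4,[z2,z1,z7,z0,z2,y2]),(z1,[y4,y2,y2,z3,y4,z4]),(z1,[z2,z1,z1,z0,z5,y2]),(z2,[z16,z5,z5,y6,z10,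
    y10])],.ref k12 k0 [(z12,[y11,z7,y11,y22,y11,z22]),(z12,[z1,z1,z19,z2,z1,y2]),(z3,[y2,y2,y2,z5,y2,z4]),(z3,[z1,z1,
    z1,z2,z10,y2]),(z6,[z8,y1,y1,y2,y10,z2])],.ref k12 k0 [(z12,[y22,z7,y11,y22,z0,z22]),(z12,[z2,z1,z19,z2,z0,y2]),
    (z3,[y4,y2,y2,z5,z0,z4]),(z3,[z2,z1,z1,z2,z9,y2]),(z6,[z16,y1,y1,y2,y18,z2])],.ref k12 k0 [(z32,[y22,z15,y33,y66,
    y66,z66]),(z32,[z2,z3,z51,z6,z6,y6]),(z4,[y2,y3,y3,z6,y6,z6]),(z8,[z2,z3,z3,z6,z30,y6]),(z1,[z1])],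
    .ref k12 k0 [(z10,[y11,z4,y11,y22,y22,z22]),(z10,[z1,z1,z16,z2,z2,y2]),(z5,[y4,y4,y4,z7,y8,z8]),(z5,[z2,z2,z2,z4,
    z19,y4]),(z10,[z16,z1,z1,z2,z2,y2])],.ref k12 k0 [(z8,[y22,z1,y11,y22,y22,z22]),(z8,[z2,z1,z13,z2,z2,y2]),(z1,[y2,
    y1,y1,z1,y2,z2]),(z2,[z2,z1,z1,z2,z8,y2]),(z2,[z8,z1,z1,z2,z2,y2])]]]

noncomputable def cT6_3_n7_1 : List TN :=
  [.leafM k0 [k0,k1,k2,k3,k4,k5] [(z2,[z0,z1,z1,z2])] [],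
    .lp [k160,k160,k174,k148,k168,k148] [k7,k7,k7,k7,k0,k0,k13,k13,k3,k3,k13,k13] k0 [[k0,k0,k0,k0,k0,k0,k24,k0,k4],[],[],
    [k0,k0,k0,k0,k0,k12,k0,k4],[k0,k0,k12],[k0,k0,k0,k0,k0,k0,k0,k12,k0,k0,k0,k2],[k0,k0,k4,k0,k12],[k0,k24,k0,k0,k0,
    k0,k0,k0,k0,k4],[k0,k0,k0,k0,k0,k0,k4,k0,k0,k0,k34],[k0,k4],[k0,k0,k0,k0,k2],[k0,k0,k0,k0,k0,k0,k0,k0,k0,
    k34]] (nat_lit 480) k5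
    [[(k8,k130),(k6,k154),(k10,k154),(k0,k160),(k2,k160),(k4,k169)],[(k9,k140),(k11,k150),(k7,k154),(k1,k160),(k3,
    k160),(k5,k167)],[(k10,k154),(k0,k160),(k2,k160),(k4,k167),(k8,k168),(k6,k178)],[(k11,k154),(k1,k160),(k3,k160),
    (k7,k166),(k5,k167),(k9,k168)],[(k6,k157),(k10,k161),(k4,k162),(k0,k167),(k2,k167),(k8,k171)],[(k7,k161),(k11,
    k161),(k5,k162),(k3,k167),(k1,k169),(k9,k183)],[(k6,k136),(k10,k146),(k0,k154),(k8,k158),(k4,k161),(k2,k166)],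
    [(k7,k136),(k11,k152),(k1,k154),(k5,k157),(k9,k158),(k3,k178)],[(k0,k140),(k6,k158),(k10,k158),(k8,k164),(k2,
    k168),(k4,k183)],[(k1,k130),(k7,k158),(k11,k158),(k9,k164),(k3,k168),(k5,k171)],[(k0,k150),(k6,k152),(k2,k154),
    (k8,k158),(k4,k161),(k10,k182)],[(k7,k146),(k1,k154),(k3,k154),(k9,k158),(k5,k161),(k11,k182)]]
    [] k0
    [[k2,k0,k0,k1,k0,k0],[k2,k0,k0,k0,k1,k0],[k2,k0,k0,k0,k0,k1],[k1,k1,k0,k0,k1,k0],[k1,k1,k0,k0,k0,k1],[k1,k0,k0,k2,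
    k0,k0],[k1,k0,k0,k1,k1,k0],[k1,k0,k0,k1,k0,k1],[k1,k0,k0,k0,k2,k0],[k1,k0,k0,k0,k1,k1],[k0,k2,k0,k0,k0,k1],[k0,k1,
    k0,k1,k0,k1],[k0,k0,k1,k2,k0,k0],[k0,k0,k1,k1,k0,k1],[k0,k0,k0,k3,k0,k0],[k0,k0,k0,k2,k1,k0],[k0,k0,k0,k2,k0,k1],
    [k0,k0,k0,k1,k1,k1]]
    [.ref k12 k0 [(z4,[z9,y2,z0,z0,y9]),(z1,[z3,y2,z3,z0,y3]),(z2,[y9,z6,z0,z2,z9]),(z2,[y3,z2,z0,z0,z9]),(z1,[z0,y1,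
    y3,y1,y3,z3])],.ref k12 k0 [(z2,[z3,z1,z3,z1,z3,y3]),(z3,[z6,y2,z15,z2,z6,y6]),(z1,[y3,z1,y3,z0,y3,z3]),(z3,[y3,
    z1,y3,y1,z6,z3]),(z1,[z0,y1,y3,y1,y3,z3])],.ref k12 k0 [(z7,[z9,z1]),(z7,[z12,y8,z21]),(z7,[y18,z12,z0,z7]),(z7,
    [y6,z4,z0,z0,z21]),(z1,[z0,y1,y3,y1,y3,z3])],.ref k12 k0 [(z7,[z9,z7,z0,z3,z9,y9]),(z7,[z12,z0,z21,z4,z12,y12]),
    (z7,[y18,z0,z0,z1,y18,z18]),(z7,[y6,z0,z0,y2,z15,z6]),(z1,[z0,y1,y3,y1,y3,z3])],.ref k12 k0 [(z8,[z9,z5,y9]),(z2,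
    [z3,y1,z3]),(z4,[y9,z3,z9,z4]),(z4,[y3,z1,z3,z0,z12]),(z1,[z0,y1,y3,y1,y3,z3])],.ref k12 k0 [(z1,[y9,z4,z0,z0,
    z18]),(z1,[y12,z4,z3,z0,z24]),(z1,[z18,y6,z0,z1,y36]),(z1,[z6,y2,z0,z0,y9]),(z1,[z0,y1,y3,y1,y3,z3])],
    .ref k12 k0 [(z1,[z9,z1,z9,z3,z0,y9]),(z1,[z12,z0,z15,z4,z0,y12]),(z1,[y18,z0,y18,y5,z0,z18]),(z1,[y6,z0,y6,y2,z3,
    z6]),(z1,[z0,y1,y3,y1,y3,z3])],.ref k12 k0 [(z2,[z9,y1,z0,z0,y9]),(z1,[z6,y2,z3,z0,y6]),(z1,[y9,z3,z0,z1,z9]),(z1,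
    [y3,z1,z0,z0,z6]),(z1,[z0,y1,y3,y1,y3,z3])],.ref k12 k0 [(z1,[z3,z2,z6,z2,z6,y6]),(z3,[z12,z4,z33,z8,z24,y24]),
    (z1,[y6,y2,y12,y3,y12,z12]),(z3,[y6,y2,y12,y4,y3,z12]),(z1,[z0,y1,y3,y1,y3,z3])],.ref k12 k0 [(z4,[z9,z4,z9,z3,z9,
    y9]),(z1,[z3,z0,z6,z1,z3,y3]),(z2,[y9,z0,y9,y1,y9,z9]),(z2,[y3,z0,y3,y1,z3,z3]),(z1,[z0,y1,y3,y1,y3,z3])],
    .ref k12 k0 [(z1,[z1,z1,y2]),(z3,[z4,z0,z1]),(z1,[y2,z0,z4,z1]),(z3,[y2,z0,z4,z0,z9]),(z1,[z0,y1,y3,y1,y3,z3])],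
    .ref k12 k0 [(z1,[z3,z1,y3,z0,y3]),(z1,[z4,z0,y1,z0,y4]),(z1,[y6,z0,z6,z1,z6]),(z1,[y2,z0,z2,z0,z5]),(z1,[z0,y1,
    y3,y1,y3,z3])],.ref k12 k0 [(z10,[y9,z10,z0,z3,z18]),(z5,[y6,z0,z15,z2,z12]),(z5,[z9,z0,z0,z2,y18]),(z5,[z3,z0,z0,
    y1,z9]),(z1,[z0,y1,y3,y1,y3,z3])],.ref k12 k0 [(z7,[y9,z7,z0,z3,z9]),(z7,[y12,z0,z21,z4,z12]),(z7,[z18,z0,z0,z1,
    y18]),(z7,[z6,z0,z0,y2,z15]),(z1,[z0,y1,y3,y1,y3,z3])],.ref k12 k0 [(z2,[y3,z2,z0,z0,z9]),(z1,[y2,z0,z3,z0,z6]),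
    (z1,[z3,z0,z0,z1,y9]),(z1,[z1]),(z1,[z0,y1,y3,y1,y3,z3])],.ref k12 k0 [(z4,[y9,z1,y9,y3,z9,z9]),(z1,[y3,y1,z0,y1,
    z3,z3]),(z2,[z9,z3,z9,z5,y9,y9]),(z2,[z3,z1,z3,z1,z3,y3]),(z1,[z0,y1,y3,y1,y3,z3])],.ref k12 k0 [(z1,[y3,z1,z0,z0,
    z6]),(z1,[y4,z0,z3,z0,z8]),(z1,[z6,z0,z0,z1,y12]),(z1,[z2,z0,z0,z0,y1]),(z1,[z0,y1,y3,y1,y3,z3])],
    .ref k12 k0 [(z1,[y9,y2,y9,y3,z0,z9]),(z1,[y12,y4,y9,y4,z0,z12]),(z1,[z18,z6,z18,z7,z0,y18]),(z1,[z6,z2,z6,z2,z3,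
    y6]),(z1,[z0,y1,y3,y1,y3,z3])]],
    .lp [k164,k164,k148,k168,k138,k176] [k6,k6,k6,k6,k14,k14,k4,k4,k19,k19,k0,k0] k0 [[k0,k0,k0,k0,k0,k0,k0,k0,k0,k0,k2],
    [k0,k0,k0,k20],[k20],[k0,k0,k0,k0,k0,k0,k0,k0,k0,k0,k0,k8],[k0,k0,k0,k0,k0,k0,k22],[k0,k0,k0,k0,k0,k0,k0,k0,k0,
    k16],[k0,k0,k0,k0,k0,k0,k0,k0,k24,k0,k6],[k0,k0,k0,k0,k0,k22],[k0,k0,k0,k0,k16],[k0,k0,k0,k0,k0,k0,k0,k24,k0,k0,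
    k0,k16],[k0,k0,k8,k0,k0,k0,k0,k0,k16],[k0,k2,k0,k0,k0,k0,k0,k6]] (nat_lit 480) k5
    [[(k4,k156),(k6,k160),(k0,k162),(k8,k167),(k10,k170),(k2,k172)],[(k9,k151),(k1,k162),(k3,k164),(k7,k166),(k11,
    k170),(k5,k176)],[(k2,k144),(k8,k151),(k4,k156),(k0,k164),(k6,k166),(k10,k172)],[(k3,k144),(k9,k151),(k5,k156),
    (k7,k166),(k11,k170),(k1,k172)],[(k8,k143),(k4,k148),(k10,k154),(k2,k156),(k6,k158),(k0,k176)],[(k9,k121),(k5,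
    k148),(k1,k156),(k3,k156),(k7,k158),(k11,k178)],[(k8,k137),(k4,k158),(k0,k166),(k2,k166),(k10,k172),(k6,k190)],
    [(k11,k148),(k9,k153),(k5,k158),(k1,k160),(k3,k166),(k7,k190)],[(k4,k121),(k0,k151),(k2,k151),(k6,k153),(k8,k162),
    (k10,k163)],[(k7,k137),(k5,k143),(k3,k151),(k11,k157),(k9,k162),(k1,k167)],[(k6,k148),(k8,k157),(k10,k160),(k0,
    k170),(k2,k170),(k4,k178)],[(k5,k154),(k11,k160),(k9,k163),(k1,k170),(k3,k172),(k7,k172)]]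
    [] k0
    [[k1,k1,k0,k0,k1,k0],[k1,k1,k1,k0,k0,k0],[k1,k0,k1,k0,k1,k0],[k1,k0,k0,k1,k1,k0],[k1,k0,k0,k0,k1,k1],[k0,k3,k0,k0,
    k0,k0],[k0,k2,k1,k0,k0,k0],[k0,k2,k0,k1,k0,k0],[k0,k2,k0,k0,k1,k0],[k0,k1,k2,k0,k0,k0],[k0,k1,k1,k0,k1,k0],[k0,k1,
    k0,k1,k1,k0],[k0,k1,k0,k0,k2,k0],[k0,k0,k3,k0,k0,k0],[k0,k0,k2,k1,k0,k0],[k0,k0,k2,k0,k1,k0],[k0,k0,k1,k1,k1,k0],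
    [k0,k0,k1,k0,k2,k0],[k0,k0,k1,k1,k0,k1],[k0,k0,k1,k0,k1,k1],[k0,k0,k0,k1,k2,k0],[k0,k0,k0,k1,k1,k1]]
    [.ref k12 k0 [(z5,[z6,z5,z0,z2,z6,y6]),(z5,[z12,z0,z15,z4,z12,y12]),(z5,[y12,z0,z0,z1,y12,z12]),(z5,[y6,z0,z0,y2,
    z9,z6]),(z5,[y3,y5,y15,y6,y18,z18])],.ref k12 k0 [(z1,[z3,z0,y3,y1]),(z1,[z6,y2,y3,y2]),(z1,[y6,z2,z6,z3]),(z1,
    [y3,z1,z3,z1,z3]),(z2,[y3,y1,y3,y1,y6,z6])],.ref k12 k0 [(z1,[y2,z1,y2,z0,y2,z2]),(z1,[y4,z0,y1,z0,y4,z4]),(z1,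
    [z4,z0,z4,z1,z4,y4]),(z1,[z2,z0,z2,z0,z5,y2]),(z1,[z1,y1,y2,y1,y2,z2])],.ref k12 k0 [(z1,[y6,z1,y6,y2,z0,z6]),(z1,
    [y12,z0,y9,y4,z0,z12]),(z1,[z12,z0,z12,z5,z0,y12]),(z1,[z6,z0,z6,z2,z3,y6]),(z1,[z3,y1,z0,z0,y3])],
    .ref k12 k0 [(z1,[z3,z1,z3,z1,z3,y3]),(z1,[z6,z0,z9,z2,z6,y6]),(z1,[y6,z0,y6,y1,y6,z6]),(z1,[y3,z0,y3,y1,z0,z3]),
    (z2,[y3,y2,y9,y3,y9,z9])],.ref k12 k0 [(z2,[z1,z2,y3]),(z1,[z1]),(z1,[y1,z0,z3,z1]),(z2,[y1,z0,z3,z0,z6]),(z4,[y1,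
    y4,y9,y4,y12,z12])],.ref k12 k0 [(z2,[z3,z2,y6,y1]),(z1,[z3,z0,y3,y1]),(z1,[y3,z0,z6,z2]),(z2,[y3,z0,z6,z1,z6]),
    (z4,[y3,y4,y6,y3,y12,z12])],.ref k12 k0 [(z1,[z1,z1,y2,z0,y1]),(z1,[z2,z0,y1,z0,y2]),(z1,[y2,z0,z4,z1,z2]),(z1,
    [y1,z0,z2,z0,z4]),(z2,[y1,y2,y4,y2,y5,z6])],.ref k12 k0 [(z7,[z6,z9,y6,z2,z6,y6]),(z7,[z12,z4,z9,z4,z12,y12]),(z7,
    [y12,y4,z12,z3,y12,z12]),(z7,[y6,y2,z6,y2,z15,z6]),(z7,[y3,y8,y18,y8,y24,z24])],.ref k12 k0 [(z2,[y3,z2,z3,z2]),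
    (z1,[y3,z0,z6,z2]),(z1,[z3,z0,y3,y1]),(z2,[z3,z0,y3,y2,z6]),(z4,[z3,y4,y15,y6,y12,z12])],.ref k12 k0 [(z1,[y6,y1,
    z0,z0,y6,z6]),(z1,[y12,y4,z3,z0,y12,z12]),(z1,[z12,z4,z0,z1,z12,y12]),(z1,[z6,z2,z0,z0,z9,y6]),(z1,[z3,z0,y3,
    y1])],.ref k12 k0 [(z1,[z6,z3,z0,z2,z0,y6]),(z1,[z12,z4,z3,z4,z0,y12]),(z1,[y12,y4,z0,y3,z0,z12]),(z1,[y6,y2,z0,
    y2,z3,z6]),(z1,[y3,y2,y3,y2,y3,z6])],.ref k12 k0 [(z1,[z3,z3,z3,z2,z6,y6]),(z1,[z6,z4,z9,z4,z12,y12]),(z1,[y6,y4,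
    y6,y3,y12,z12]),(z1,[y3,y2,y3,y2,y3,z6]),(z2,[y3,y4,y9,y4,y12,z12])],.ref k12 k0 [(z2,[y1,z2,z0,z1]),(z1,[y1,z0,
    z3,z1]),(z1,[z1]),(z2,[z1,z0,z0,y1,z6]),(z4,[z1,y4,y12,y5,y12,z12])],.ref k12 k0 [(z5,[y3,z5,z0,z2,z3]),(z5,[y6,
    z0,z15,z4,z6]),(z5,[z6,z0,z0,z1,y6]),(z5,[z3,z0,z0,y2,z12]),(z10,[z3,y10,y30,y12,y33,z30])],.ref k12 k0 [(z9,[y6,
    z7,y6,z2,y6,z6]),(z9,[y12,y4,z15,z4,y12,z12]),(z9,[z12,z4,z12,z5,z12,y12]),(z9,[z6,z2,z6,y2,z33,y6]),(z9,[z3,y8,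
    y24,y10,y24,z24])],.ref k12 k0 [(z7,[y6,z5,y6,z0,z0,z6]),(z7,[y12,y4,z9,z0,z0,z12]),(z7,[z12,z4,z12,z7,z0,y12]),
    (z7,[z6,z2,z6,z0,z21,y6]),(z7,[z3,y6,y18,y7,y21,z18])],.ref k12 k0 [(z3,[y3,z1,y6,y1,y6,z6]),(z3,[y6,y4,y3,y2,y12,
    z12]),(z3,[z6,z4,z12,z5,z12,y12]),(z3,[z3,z2,z6,z1,z15,y6]),(z6,[z3,y4,y12,y5,y12,z12])],.ref k12 k0 [(z5,[y6,z5,
    z0,z2,z6]),(z5,[y12,z0,z15,z4,z12]),(z5,[z12,z0,z0,z1,y12]),(z5,[z6,z0,z0,y2,z9]),(z5,[z3,y5,y15,y6,y18,z15])],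
    .ref k12 k0 [(z2,[y3,z1,y3,z0,y3,z3]),(z1,[y3,y1,z0,z0,y3,z3]),(z1,[z3,z1,z3,z1,z3,y3]),(z2,[z3,z1,z3,z0,z9,y3]),
    (z4,[z3,y3,y9,y4,y9,z9])],.ref k12 k0 [(z2,[y3,z0,y6,y2,y3,z6]),(z1,[y3,y2,y3,y2,y3,z6]),(z1,[z3,z2,z6,z3,z3,y6]),
    (z2,[z3,z2,z6,z2,z9,y6]),(z4,[z3,y2,y6,y2,y9,z6])],.ref k12 k0 [(z1,[y3,z0,y3,y1,z0,z3]),(z1,[y6,y2,y3,y2,z0,z6]),
    (z1,[z6,z2,z6,z3,z0,y6]),(z1,[z3,z1,z3,z1,z3,y3]),(z2,[z3,y1,y3,y1,y6,z3])]],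
    .lp [k80,k84,k84,k74,k74,k82] [k2,k2,k0,k0,k0,k0,k5,k5,k5,k5,k1,k1] k0 [[k0,k0,k0,k0,k0,k0,k14,k0,k10],[k0,k0,k0,k0,
    k0,k4],[k0,k0,k0,k0,k0,k0,k0,k0,k8,k0,k4],[k0,k0,k0,k0,k0,k2],[k4,k0,k2],[k0,k0,k0,k0,k0,k0,k0,k8],[k0,k0,k0,k0,
    k8],[k0,k14,k0,k0,k0,k0,k0,k0,k0,k0,k0,k2],[k0,k0,k0,k0,k0,k0,k0,k0,k0,k0,k6],[k0,k10,k0,k8],[k0,k0,k0,k0,k0,k0,
    k2],[k0,k0,k0,k4,k0,k0,k0,k0,k0,k6]] (nat_lit 240) k5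
    [[(k8,k71),(k2,k78),(k6,k79),(k0,k80),(k10,k81),(k4,k82)],[(k9,k63),(k11,k71),(k1,k80),(k7,k81),(k3,k82),(k5,
    k82)],[(k4,k80),(k0,k82),(k10,k83),(k2,k84),(k8,k89),(k6,k93)],[(k11,k75),(k1,k78),(k9,k79),(k7,k81),(k3,k84),(k5,
    k84)],[(k6,k79),(k0,k82),(k4,k82),(k2,k84),(k8,k87),(k10,k87)],[(k7,k79),(k3,k80),(k1,k82),(k5,k82),(k11,k83),(k9,
    k87)],[(k6,k66),(k8,k74),(k10,k78),(k4,k79),(k0,k81),(k2,k81)],[(k7,k66),(k9,k74),(k11,k78),(k1,k79),(k5,k79),(k3,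
    k93)],[(k0,k63),(k6,k74),(k8,k74),(k10,k76),(k2,k79),(k4,k87)],[(k1,k71),(k7,k74),(k9,k74),(k11,k78),(k5,k87),(k3,
    k89)],[(k0,k71),(k2,k75),(k6,k78),(k8,k78),(k4,k83),(k10,k88)],[(k9,k76),(k7,k78),(k1,k81),(k3,k83),(k5,k87),(k11,
    k88)]]
    [] k0
    [[k2,k0,k0,k0,k1,k0],[k2,k0,k0,k0,k0,k1],[k1,k1,k0,k0,k1,k0],[k1,k1,k0,k0,k0,k1],[k1,k0,k1,k0,k1,k0],[k1,k0,k0,k2,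
    k0,k0],[k1,k0,k0,k1,k1,k0],[k1,k0,k0,k1,k0,k1],[k1,k0,k0,k0,k2,k0],[k1,k0,k0,k0,k1,k1],[k0,k0,k1,k2,k0,k0],[k0,k0,
    k0,k3,k0,k0],[k0,k0,k0,k2,k1,k0],[k0,k0,k0,k2,k0,k1],[k0,k0,k0,k1,k2,k0],[k0,k0,k0,k1,k1,k1],[k0,k0,k0,k0,k3,k0],
    [k0,k0,k0,k0,k2,k1]]
    [.ref (nat_lit 320) k4 [(z3,[z1,z1,z3,z3,y3]),(z3,[z4,z1]),(z3,[y2,y2,y3,y6,z6]),(z3,[y2,z4,z0,z9])],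
    .ref (nat_lit 321) k7 [(z1,[z2,y6,y2,y13,z2]),(z1,[z0,z0,z0,z1]),(z1,[z1,y2,z0,y4]),(z1,[z0,z1,z0,z2])],
    .ref (nat_lit 310) k5 [(z1,[z2,z2,z2,z5,y4]),(z1,[z6,z4,z5,z10,y10]),(z1,[y4,y3,y4,y8,z8]),(z1,[y3,y2,y2,y5,z5])],
    .ref k87 k4 [(z1,[y1,z1,z1]),(z1,[z0,z1]),(z1,[z2,y2,y1]),(z1,[z0,z0,z0,z1])],.ref (nat_lit 320) k4 [(z1,[z1,z0,
    z1,z0,y1]),(z1,[z4,y1,z0,y4]),(z1,[y2,z0,y1,z0,z2]),(z1,[y2,z2,z0,z5])],.ref k179 k0 [(z1,[y2,y1,y4,y4,z4]),(z1,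
    [z0,z0,z1]),(z1,[z1,z1,z2,z3,y2]),(z2,[z3,z1,z4,z4,y4])],.ref k20 k7 [(z1,[z2,y2,z0,y5]),(z1,[z0,z0,z0,z1]),(z1,
    [z1,z0,z1,z0,y1]),(z1,[z0,z1,z0,z2])],.ref k138 k11 [(z1,[z4,z1,z0,z4,y4]),(z1,[z0,z0,z1]),(z1,[z1,z0,z0,z1,y1]),
    (z1,[y6,y2,y1,y8,z8])],.ref (nat_lit 320) k4 [(z2,[z1,z1,z2,z2,y2]),(z1,[z2,z1]),(z1,[y1,y1,y1,y2,z2]),(z1,[y1,z1,
    z0,z3])],.ref (nat_lit 322) k7 [(z1,[z1,y2,y1,y5,z1]),(z1,[z0,z0,z0,z1]),(z1,[z2,y2,z0,y5]),(z1,[z0,z1,z0,z2])],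
    .ref k87 k4 [(z2,[z1,z2,z2,z1,y2]),(z1,[z0,z1]),(z1,[y1,y2,y1,y1,z2]),(z1,[z0,z0,z0,z1])],
    .ref (nat_lit 323) k4 [(z1,[z1,z3,z3,z3,y3]),(z1,[z0,z1]),(z1,[y2,y6,y3,y6,z6]),(z1,[z0,z0,z0,z1])],
    .ref (nat_lit 310) k5 [(z1,[y2,z0,z0,z1]),(z1,[y6,y2,y1,y2,z2]),(z1,[z4,z1]),(z1,[z3,z1,z1,z1,y1])],
    .ref (nat_lit 324) k4 [(z1,[z1,z2,z2,z2,y2]),(z1,[z0,z1]),(z1,[y2,y4,y1,y4,z4]),(z1,[z0,z0,z0,z1])],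
    .ref k179 k0 [(z1,[y4,y3,y4,y4,z4]),(z1,[z0,z0,z1]),(z1,[z2,z2,z2,z3,y2]),(z1,[z3,z2,z2,z2,y2])],
    .ref k179 k0 [(z1,[y2,y1,y2,y2,z2]),(z1,[z0,z0,z1]),(z1,[z1,z1,z1,z2,y1]),(z2,[z3,z1,z1,z1,y1])],
    .ref (nat_lit 320) k4 [(z1,[z1,z1,z1,z1,y1]),(z1,[z4,z3]),(z1,[y2,y2,y1,y2,z2]),(z1,[y2,z0,z0,z3])],
    .ref k20 k7 [(z1,[z2,y2,y2,y7,z2]),(z1,[z0,z0,z0,z1]),(z1,[z1,z0,z0,y1]),(z1,[z0,z1,z0,z2])]],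
    .lp [k166,k170,k146,k154,k154,k168] [k2,k2,k0,k0,k12,k12,k8,k8,k10,k6,k1,k1] k0 [[k0,k0,k0,k0,k0,k0,k0,k0,k16],[k0,k0,
    k0,k0,k0,k12],[k0,k0,k0,k0,k14,k0,k0,k0,k0,k0,k8],[k0,k0,k0,k0,k0,k0,k0,k2],[k12,k0,k0,k0,k0,k0,k32],[k0,k0,k0,
    k14,k0,k0,k0,k0,k0,k0,k0,k8],[k0,k0,k2,k0,k0,k0,k0,k0,k20],[k0,k0,k0,k0,k0,k32,k0,k0,k0,k0,k0,k16],[k0,k0,k0,k0,
    k0,k0,k0,k0,k0,k0,k6],[k0,k16,k0,k0,k0,k0,k0,k20],[k0,k0,k0,k0,k8,k0,k16],[k0,k0,k0,k8,k0,k0,k0,k0,k0,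
    k6]] (nat_lit 480) k5
    [[(k8,k152),(k2,k160),(k4,k164),(k0,k166),(k10,k167),(k6,k176)],[(k11,k151),(k5,k156),(k9,k162),(k1,k166),(k3,
    k168),(k7,k172)],[(k4,k146),(k6,k162),(k0,k168),(k10,k169),(k2,k170),(k8,k176)],[(k7,k148),(k5,k158),(k1,k160),
    (k9,k166),(k11,k169),(k3,k170)],[(k6,k148),(k8,k148),(k0,k156),(k2,k158),(k4,k160),(k10,k165)],[(k9,k120),(k3,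
    k146),(k7,k150),(k11,k157),(k5,k160),(k1,k164)],[(k2,k148),(k4,k150),(k8,k152),(k10,k153),(k0,k172),(k6,k186)],
    [(k11,k141),(k5,k148),(k9,k156),(k3,k162),(k1,k176),(k7,k186)],[(k4,k120),(k10,k147),(k6,k156),(k0,k162),(k2,
    k166),(k8,k174)],[(k5,k148),(k1,k152),(k7,k152),(k11,k159),(k9,k174),(k3,k176)],[(k6,k141),(k0,k151),(k4,k157),
    (k8,k159),(k2,k169),(k10,k174)],[(k9,k147),(k7,k153),(k5,k165),(k1,k167),(k3,k169),(k11,k174)]]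
    [] k0
    [[k1,k1,k1,k0,k0,k0],[k1,k0,k1,k0,k1,k0],[k1,k0,k0,k0,k1,k1],[k0,k2,k1,k0,k0,k0],[k0,k1,k2,k0,k0,k0],[k0,k1,k1,k1,
    k0,k0],[k0,k1,k1,k0,k1,k0],[k0,k1,k0,k1,k0,k1],[k0,k0,k2,k1,k0,k0],[k0,k0,k2,k0,k1,k0],[k0,k0,k1,k1,k1,k0],[k0,k0,
    k1,k1,k0,k1],[k0,k0,k1,k0,k2,k0],[k0,k0,k1,k0,k1,k1],[k0,k0,k0,k1,k1,k1],[k0,k0,k0,k1,k0,k2]]
    [.ref (nat_lit 300) k1 [(z1,[y1,y1,y1,z1]),(z1,[z0,z1]),(z1,[z0,z0,z1])],.ref (nat_lit 301) k3 [(z1,[z1,z0,z1,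
    y1]),(z1,[z1,y1]),(z1,[y2,z0,y1,z2])],.ref (nat_lit 252) k6 [(z1,[y1,z0,y1,z1]),(z1,[z0,z0,z1]),(z1,[z0,z1])],
    .ref (nat_lit 308) k1 [(z1,[y1,y1,y1,z1]),(z1,[z0,z1]),(z1,[z0,z0,z1])],.ref (nat_lit 313) k1 [(z1,[y1,y2,y2,z2]),
    (z1,[z0,z1]),(z1,[z0,z0,z1])],.ref (nat_lit 252) k6 [(z1,[z1,z0,y1]),(z1,[z0,z0,z1]),(z1,[z0,z1])],
    .ref (nat_lit 317) k6 [(z1,[z1,y1]),(z1,[z0,z0,z1]),(z1,[z0,z1])],.ref (nat_lit 301) k3 [(z1,[y1,z0,z1]),(z1,[y1,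
    y1,z0,z1]),(z1,[z2,z0,y1])],.ref (nat_lit 252) k6 [(z2,[z1,z0,y1]),(z1,[z0,z0,z1]),(z1,[z0,z1])],
    .ref (nat_lit 301) k3 [(z2,[z1,z1,z2,y2]),(z2,[z1,y1]),(z1,[y1,y1,y1,z2])],.ref (nat_lit 300) k6 [(z1,[z1,y1,y1]),
    (z1,[z0,z0,z1]),(z1,[z0,z1])],.ref (nat_lit 319) k3 [(z1,[y1,y1,z0,z1]),(z1,[y1,y2,y1,z2]),(z1,[z2,z2,z1,y2])],
    .ref (nat_lit 325) k6 [(z1,[z1,y2]),(z1,[z0,z0,z1]),(z1,[z0,z1])],.ref (nat_lit 319) k3 [(z1,[z1,z0,z1,y1]),(z1,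
    [z1,y1]),(z1,[y2,z0,y1,z2])],.ref (nat_lit 300) k1 [(z1,[z1,y1,y1]),(z1,[z0,z1]),(z1,[z0,z0,z1])],
    .ref (nat_lit 301) k3 [(z2,[y1,z0,z1]),(z2,[y1,y2,y1,z2]),(z1,[z1])]],
    .leafM k0 [k2,k3,k4,k5,k0,k1] [(z1,[y1,y1,y1,z1])] [],
    .leafM k1 [k0,k1,k2,k3,k4,k5] [(z1,[y1,z0,y1,z1]),(z1,[z1,z0,z1])] [],
    .tor k0 false k2 [(z1,[z0,z0,y1,z1]),(z1,[z0,z1,z1]),(z1,[z0,y1,y1,z1]),(z1,[z0,z0,z1])],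
    .leafM k0 [k1,k2,k3,k4,k5,k0] [(z3,[y1,y1,z0,z3])] [],
    .lp [k168,k170,k154,k164,k140,k162] [k1,k1,k0,k0,k8,k8,k3,k3,k15,k15,k4,k4] k0 [[k0,k0,k0,k0,k0,k0,k0,k0,k4,k0,k8],
    [k0,k0,k0,k0,k0,k0,k0,k8],[k0,k0,k0,k0,k8,k0,k0,k0,k0,k0,k10],[k0,k0,k0,k0,k0,k0,k0,k0,k0,k4],[k0,k0,k0,k0,k0,k0,
    k12],[k0,k0,k0,k8],[k8],[k0,k0,k0,k0,k0,k12],[k0,k0,k4],[k0,k4,k0,k0,k0,k0,k0,k0,k0,k0,k0,k8],[k0,k0,k0,k0,k0,k0,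
    k0,k0,k8],[k0,k8,k0,k10]] (nat_lit 480) k5
    [[(k2,k159),(k0,k160),(k4,k161),(k8,k162),(k10,k165),(k6,k166)],[(k1,k160),(k5,k161),(k11,k161),(k9,k162),(k7,
    k166),(k3,k169)],[(k6,k159),(k8,k159),(k4,k162),(k0,k169),(k2,k170),(k10,k174)],[(k9,k155),(k1,k159),(k7,k159),
    (k5,k162),(k3,k170),(k11,k170)],[(k8,k143),(k6,k159),(k0,k161),(k2,k162),(k4,k162),(k10,k168)],[(k9,k135),(k11,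
    k158),(k7,k159),(k1,k161),(k3,k162),(k5,k162)],[(k8,k152),(k2,k159),(k4,k159),(k10,k163),(k0,k166),(k6,k176)],
    [(k9,k152),(k3,k159),(k5,k159),(k11,k163),(k1,k166),(k7,k176)],[(k4,k135),(k8,k140),(k10,k151),(k6,k152),(k2,
    k155),(k0,k162)],[(k9,k140),(k5,k143),(k11,k151),(k7,k152),(k3,k159),(k1,k162)],[(k8,k151),(k10,k154),(k4,k158),
    (k0,k161),(k6,k163),(k2,k170)],[(k9,k151),(k11,k154),(k7,k163),(k1,k165),(k5,k168),(k3,k174)]]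
    [] k0
    [[k1,k0,k1,k0,k1,k0],[k1,k0,k0,k0,k2,k0],[k1,k0,k0,k0,k1,k1],[k0,k1,k1,k0,k1,k0],[k0,k1,k0,k1,k1,k0],[k0,k1,k0,k0,
    k2,k0],[k0,k0,k2,k0,k1,k0],[k0,k0,k1,k1,k1,k0],[k0,k0,k1,k0,k2,k0],[k0,k0,k1,k0,k1,k1],[k0,k0,k0,k1,k2,k0],[k0,k0,
    k0,k1,k1,k1],[k0,k0,k0,k0,k3,k0],[k0,k0,k0,k0,k2,k1],[k0,k0,k0,k0,k1,k2],[k0,k0,k0,k0,k0,k3]]
    [.ref k12 k0 [(z1,[y10,z3,y10,z0,y10,z10]),(z1,[y4,z0,y1,z0,y4,z4]),(z1,[z5,z0,z5,z3,z5,y5]),(z1,[z2,z0,z2,z0,z5,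
    y2]),(z1,[z8,y3,z5,y3,z5,y5])],.ref k12 k0 [(z1,[y5,y2,y10,y10,y10,z10]),(z1,[y2,y2,y1,y4,y4,z4]),(z2,[z5,z5,z10,
    z16,z10,y10]),(z1,[z1,z1,z2,z2,z5,y2]),(z1,[z4,z1,z5,z5,z5,y5])],.ref k12 k0 [(z1,[z10,z3,z10,z10,z10,y10]),(z1,
    [z4,z0,z7,z4,z4,y4]),(z1,[y5,z0,y5,y2,y5,z5]),(z1,[y2,z0,y2,y2,z1,z2]),(z1,[y8,y3,y11,y11,y11,z11])],
    .ref k12 k0 [(z3,[y10,y1,z0,z0,y10,z10]),(z3,[y4,y4,z9,z0,y4,z4]),(z3,[z5,z5,z0,z9,z5,y5]),(z3,[z2,z2,z0,z0,z11,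
    y2]),(z3,[z8,y1,y9,y9,y1,z1])],.ref k12 k0 [(z1,[y5,y2,z0,y5,z0,z5]),(z1,[y2,y2,z3,y2,z0,z2]),(z2,[z5,z5,z0,z11,
    z0,y5]),(z1,[z1,z1,z0,z1,z3,y1]),(z1,[z4,z1,y3,z1,y3,y1])],.ref k12 k0 [(z2,[y5,y4,y5,y10,y10,z10]),(z1,[y1,y2,z2,
    y2,y2,z2]),(z4,[z5,z10,z5,z22,z10,y10]),(z2,[z1,z2,z1,z2,z8,y2]),(z1,[z2,z1,y1,z1,z1,y1])],.ref k12 k0 [(z3,[y5,
    z4,y5,z5,y5,z5]),(z3,[y2,y2,z7,z2,y2,z2]),(z6,[z5,z5,z5,z13,z5,y5]),(z3,[z1,z1,z1,y1,z10,y1]),(z3,[z4,y5,y5,y13,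
    y5,z5])],.ref k12 k0 [(z1,[y2,z1,y2,z0,z0,z2]),(z5,[y4,y4,z11,z0,z0,z4]),(z1,[z1,z1,z1,z3,z0,y1]),(z5,[z2,z2,z2,
    z0,z15,y2]),(z5,[z8,y7,y7,y15,y15,z7])],.ref k12 k0 [(z7,[y10,z1,y20,y10,y20,z20]),(z7,[y4,y8,z13,y4,y8,z8]),(z7,
    [z5,z10,z10,z26,z10,y10]),(z7,[z2,z4,z4,z2,z25,y4]),(z7,[z8,y5,y5,y13,y5,z5])],.ref k12 k0 [(z2,[y5,z1,y5,z0,y5,
    z5]),(z1,[y1,y1,z2,z0,y1,z1]),(z4,[z5,z5,z5,z12,z5,y5]),(z2,[z1,z1,z1,z0,z7,y1]),(z1,[z2,y1,y1,y3,y1,z1])],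
    .ref k12 k0 [(z3,[y5,y1,y10,y10,y5,z10]),(z3,[y2,y4,z5,y4,y2,z4]),(z6,[z5,z10,z10,z28,z5,y10]),(z3,[z1,z2,z2,z2,
    z10,y2]),(z3,[z4,y1,y1,y1,y5,z1])],.ref k12 k0 [(z3,[y10,y1,y10,y10,z0,z10]),(z3,[y4,y4,z5,y4,z0,z4]),(z3,[z5,z5,
    z5,z14,z0,y5]),(z3,[z2,z2,z2,z2,z9,y2]),(z3,[z8,y1,y1,y1,y9,z1])],.ref k12 k0 [(z4,[y5,y3,y15,y15,y15,z15]),(z2,
    [y1,y3,z3,y3,y3,z3]),(z8,[z5,z15,z15,z39,z15,y15]),(z4,[z1,z3,z3,z3,z15,y3]),(z1,[z1])],.ref k12 k0 [(z1,[y2,y1,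
    y4,y4,y4,z4]),(z5,[y4,y8,z7,y8,y8,z8]),(z1,[z1,z2,z2,z5,z2,y2]),(z5,[z2,z4,z4,z4,z19,y4]),(z5,[z8,z1,z1,z1,z1,
    y1])],.ref k12 k0 [(z1,[y5,y2,y5,y5,y5,z5]),(z1,[y2,y2,z1,y2,y2,z2]),(z2,[z5,z5,z5,z11,z5,y5]),(z1,[z1,z1,z1,z1,
    z4,y1]),(z1,[z4,z1,z1,z1,z1,y1])],.ref k12 k0 [(z1,[z10,z3]),(z1,[z4,z0,z3]),(z1,[y5,z0,z0,z3]),(z1,[y2,z0,z0,z0,
    z3]),(z1,[y8,y3,y3,y3,y3,z3])]],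
    .tor k0 false k2 [(z3,[z1,z1,z0,z3]),(z3,[z0,z1,z1]),(z3,[z0,y1,y1,z0,z3]),(z3,[y1,y1,z0,y3,z3])],
    .lp [(nat_lit 332),(nat_lit 330),(nat_lit 326),(nat_lit 300),(nat_lit 300),(nat_lit 330)] [k0,k0,k1,k1,k3,k3,k16,k16,
    k16,k16,k1,k1] k0 [[k0,k0,k0,k0,k0,k0,k4,k0,k2],[k0,k0,k0,k2,k0,k2],[k2,k0,k0,k0,k0,k0,k0,k0,k2],[k0,k0,k0,k0,k0,
    k6],[k2,k0,k6],[k0,k0,k0,k0,k0,k0,k0,k36,k0,k4],[k0,k0,k0,k0,k36],[k0,k4,k0,k0,k0,k0,k0,k0,k0,k4],[k0,k0,k0,k0,k4,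
    k0,k4],[k0,k2,k0,k2]] (nat_lit 960) k5
    [[(k6,(nat_lit 316)),(k8,(nat_lit 316)),(k4,(nat_lit 329)),(k2,(nat_lit 331)),(k10,(nat_lit 331)),(k0,
    (nat_lit 332))],[(k9,(nat_lit 312)),(k7,(nat_lit 318)),(k11,(nat_lit 329)),(k3,(nat_lit 331)),(k5,(nat_lit 331)),
    (k1,(nat_lit 332))],[(k8,(nat_lit 317)),(k6,(nat_lit 319)),(k4,(nat_lit 326)),(k2,(nat_lit 328)),(k10,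
    (nat_lit 330)),(k0,(nat_lit 331))],[(k9,(nat_lit 315)),(k7,(nat_lit 321)),(k3,(nat_lit 328)),(k5,(nat_lit 328)),
    (k11,(nat_lit 328)),(k1,(nat_lit 331))],[(k6,(nat_lit 313)),(k8,(nat_lit 315)),(k4,(nat_lit 320)),(k2,
    (nat_lit 328)),(k10,(nat_lit 328)),(k0,(nat_lit 331))],[(k7,(nat_lit 313)),(k5,(nat_lit 320)),(k3,(nat_lit 326)),
    (k1,(nat_lit 329)),(k11,(nat_lit 332)),(k9,(nat_lit 349))],[(k6,(nat_lit 264)),(k8,(nat_lit 296)),(k4,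
    (nat_lit 313)),(k10,(nat_lit 315)),(k0,(nat_lit 318)),(k2,(nat_lit 321))],[(k7,(nat_lit 264)),(k9,(nat_lit 300)),
    (k5,(nat_lit 313)),(k1,(nat_lit 316)),(k3,(nat_lit 319)),(k11,(nat_lit 319))],[(k8,(nat_lit 296)),(k6,
    (nat_lit 300)),(k0,(nat_lit 312)),(k2,(nat_lit 315)),(k10,(nat_lit 315)),(k4,(nat_lit 349))],[(k7,(nat_lit 296)),
    (k9,(nat_lit 296)),(k5,(nat_lit 315)),(k11,(nat_lit 315)),(k1,(nat_lit 316)),(k3,(nat_lit 317))],[(k8,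
    (nat_lit 315)),(k6,(nat_lit 319)),(k2,(nat_lit 328)),(k0,(nat_lit 329)),(k10,(nat_lit 330)),(k4,(nat_lit 332))],
    [(k7,(nat_lit 315)),(k9,(nat_lit 315)),(k5,(nat_lit 328)),(k3,(nat_lit 330)),(k11,(nat_lit 330)),(k1,
    (nat_lit 331))]]
    [] k0
    [[k1,k0,k1,k0,k1,k0],[k1,k0,k0,k2,k0,k0],[k1,k0,k0,k1,k1,k0],[k1,k0,k0,k0,k2,k0],[k1,k0,k0,k0,k1,k1],[k0,k1,k1,k0,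
    k1,k0],[k0,k1,k0,k2,k0,k0],[k0,k1,k0,k1,k1,k0],[k0,k1,k0,k0,k2,k0],[k0,k0,k2,k1,k0,k0],[k0,k0,k1,k2,k0,k0],[k0,k0,
    k1,k1,k1,k0],[k0,k0,k0,k3,k0,k0],[k0,k0,k0,k2,k1,k0],[k0,k0,k0,k2,k0,k1],[k0,k0,k0,k1,k2,k0],[k0,k0,k0,k1,k1,k1],
    [k0,k0,k0,k0,k3,k0],[k0,k0,k0,k0,k2,k1]]
    [.ref k12 k0 [(z6,[z10,z9,z5,z0,z10,y10]),(z3,[y1,z0,z4,z0,y1,z1]),(z3,[z8,z0,z4,z9,z8,y8]),(z3,[y10,z0,y5,z0,y1,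
    z10]),(z6,[y8,y9,y13,y18,y26,z26])],.ref k12 k0 [(z1,[y1,z2,z0,z0,z2]),(z10,[z2,y1,z15,z0,y4]),(z5,[y8,z4,z0,z15,
    z16]),(z1,[z2,y1,z0,z0,y1]),(z10,[z8,y19,y15,y30,y46,z30])],.ref k12 k0 [(z6,[y10,z9,y5,y10,z0,z10]),(z3,[z1,z0,
    z5,z1,z0,y1]),(z3,[y8,z0,y4,z1,z0,z8]),(z3,[z10,z0,z5,z10,z9,y10]),(z6,[z8,y9,y5,y10,y18,z10])],.ref k12 k0 [(z1,
    [y5,y1,y5,y10,y10,z10]),(z2,[z2,z1,z5,z4,z4,y4]),(z1,[y8,y4,y8,y13,y16,z16]),(z1,[z10,z5,z10,z20,z23,y20]),(z2,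
    [z8,z1,z5,z10,z10,y10])],.ref k12 k0 [(z2,[z10,z3,z5,z10,z10,y10]),(z1,[y1,z0,z1,y1,y1,z1]),(z1,[z8,z0,z4,z11,z8,
    y8]),(z1,[y10,z0,y5,y10,y7,z10]),(z2,[y8,y3,y7,y14,y14,z14])],.ref k12 k0 [(z1,[z5,z4,z0,z0,z5,y5]),(z2,[y2,y1,z3,
    z0,y2,z2]),(z1,[z8,z4,z0,z3,z8,y8]),(z1,[y10,y5,z0,z0,y7,z10]),(z2,[y8,y7,y3,y6,y14,z14])],.ref k12 k0 [(z14,[y10,
    z21,z5,z0,z20]),(z7,[z1,z0,z10,z0,y2]),(z7,[y8,z0,z4,z21,z16]),(z7,[z10,z0,y5,z0,z1]),(z14,[z8,y21,y25,y42,y58,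
    z42])],.ref k12 k0 [(z1,[y1,z1,z0,y1,z0,z1]),(z10,[z2,z1,z15,z2,z0,y2]),(z5,[y8,y4,z0,z7,z0,z8]),(z1,[z2,z1,z0,z2,
    z3,y2]),(z10,[z8,y11,y15,y22,y30,z22])],.ref k12 k0 [(z6,[y10,y1,y5,y20,y20,z20]),(z3,[z1,z1,z5,z2,z2,y2]),(z3,
    [y8,y8,y4,y7,y16,z16]),(z3,[z10,z10,z5,z20,z29,y20]),(z6,[z8,y1,y5,y2,y2,z2])],.ref k12 k0 [(z2,[z5,z3,z0,y10,
    y5]),(z2,[y1,z0,z3,z2,z1]),(z1,[z4,z0,z0,y5,y4]),(z1,[y5,z0,z0,z10,z8]),(z2,[y4,y3,y3,z2,y2,z6])],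
    .ref k12 k0 [(z4,[y5,z6,z0,z5,z10]),(z4,[z1,z0,z6,y1,y2]),(z1,[y2,z0,z0,z5,z4]),(z2,[z5,z0,z0,y5,y4]),(z2,[z2,y3,
    y3,y8,y10,z6])],.ref k12 k0 [(z4,[y10,z1,y5,z0,z0,z10]),(z4,[z2,z1,z7,z0,z0,y2]),(z1,[y4,y2,y2,z3,z0,z4]),(z2,
    [z10,z5,z5,z0,z6,y10]),(z2,[z4,y1,y1,y6,y6,z2])],.ref k12 k0 [(z2,[y1,z3,z0,z0,z3]),(z10,[z1,z0,z15,z0,y3]),(z5,
    [y4,z0,z0,z15,z12]),(z1,[z1]),(z10,[z4,y15,y15,y30,y42,z30])],.ref k12 k0 [(z16,[y10,z19,y5,y10,z10,z10]),(z16,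
    [z2,z1,z25,z2,y2,y2]),(z2,[y2,y1,y1,z4,z2,z2]),(z8,[z10,z5,z5,z10,z14,y10]),(z4,[z2,y5,y5,y10,y14,z10])],
    .ref k12 k0 [(z6,[y5,z9,z0,z0,z10]),(z6,[z1,z0,z9,z0,y2]),(z3,[y4,z0,z0,z9,z8]),(z3,[z5,z0,z0,z0,y1]),(z6,[z4,y9,
    y9,y18,y26,z18])],.ref k12 k0 [(z6,[y5,z4,y5,y10,y5,z10]),(z6,[z1,z1,z10,z2,z1,y2]),(z3,[y4,y4,y4,z1,y4,z8]),(z3,
    [z5,z5,z5,z10,z14,y10]),(z6,[z4,y5,y5,y10,y14,z10])],.ref k12 k0 [(z8,[y10,z7,y5,y10,z0,z10]),(z8,[z2,z1,z13,z2,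
    z0,y2]),(z1,[y2,y1,y1,z1,z0,z2]),(z4,[z10,z5,z5,z10,z12,y10]),(z1,[z1,y1,y1,y2,y3,z2])],.ref k12 k0 [(z8,[y10,y3,
    y15,y30,y30,z30]),(z8,[z2,z3,z15,z6,z6,y6]),(z1,[y2,y3,y3,y3,y6,z6]),(z4,[z10,z15,z15,z30,z42,y30]),(z1,[z1])],
    .ref k12 k0 [(z2,[y5,y2,y5,y10,y10,z10]),(z2,[z1,z1,z4,z2,z2,y2]),(z1,[y4,y4,y4,y5,y8,z8]),(z1,[z5,z5,z5,z10,z13,
    y10]),(z2,[z4,z1,z1,z2,z2,y2])]]]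

noncomputable def cT6_3_n7_2 : List TN :=
  [.leafM k0 [k1,k2,k3,k4,k5,k0] [(z3,[z0,z0,z1,z1])] [],
    .lp [(nat_lit 628),(nat_lit 650),(nat_lit 656),(nat_lit 646),(nat_lit 656),(nat_lit 600)] [k14,k14,k3,k3,k0,k0,k5,k5,
    k0,k0,k28,k28] k0 [[k0,k0,k0,k0,k0,k0,k42,k0,k22],[k0,k0,k0,k0,k0,k6,k0,k0,k0,k0,k0,k12],[k0,k0,k0,k0,k0,k0,k0,k0,
    k8,k0,k8],[k0,k0,k0,k0,k0,k0,k0,k26],[k6],[k0,k0,k0,k0,k0,k0,k0,k0,k0,k0,k0,k10],[k0,k0,k26],[k0,k42,k0,k0,k0,k0,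
    k0,k0,k0,k38],[k0,k0,k0,k0,k0,k0,k38,k0,k0,k0,k114],[k0,k22,k0,k8],[k12,k0,k0,k0,k10],[k0,k0,k0,k8,k0,k0,k0,k0,k0,
    k114]] (nat_lit 1920) k5
    [[(k8,(nat_lit 528)),(k10,(nat_lit 614)),(k2,(nat_lit 631)),(k6,(nat_lit 637)),(k0,(nat_lit 640)),(k4,
    (nat_lit 652))],[(k11,(nat_lit 592)),(k9,(nat_lit 600)),(k3,(nat_lit 639)),(k1,(nat_lit 640)),(k5,(nat_lit 642)),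
    (k7,(nat_lit 643))],[(k10,(nat_lit 613)),(k0,(nat_lit 639)),(k4,(nat_lit 647)),(k2,(nat_lit 650)),(k8,
    (nat_lit 675)),(k6,(nat_lit 690))],[(k11,(nat_lit 617)),(k1,(nat_lit 631)),(k7,(nat_lit 648)),(k3,(nat_lit 650)),
    (k5,(nat_lit 653)),(k9,(nat_lit 679))],[(k6,(nat_lit 625)),(k10,(nat_lit 636)),(k0,(nat_lit 642)),(k2,
    (nat_lit 653)),(k4,(nat_lit 656)),(k8,(nat_lit 664))],[(k11,(nat_lit 628)),(k3,(nat_lit 647)),(k7,(nat_lit 651)),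
    (k1,(nat_lit 652)),(k5,(nat_lit 656)),(k9,(nat_lit 656))],[(k10,(nat_lit 613)),(k0,(nat_lit 643)),(k6,
    (nat_lit 646)),(k2,(nat_lit 648)),(k4,(nat_lit 651)),(k8,(nat_lit 651))],[(k5,(nat_lit 625)),(k1,(nat_lit 637)),
    (k7,(nat_lit 646)),(k9,(nat_lit 651)),(k11,(nat_lit 661)),(k3,(nat_lit 690))],[(k0,(nat_lit 600)),(k8,
    (nat_lit 618)),(k10,(nat_lit 628)),(k6,(nat_lit 651)),(k4,(nat_lit 656)),(k2,(nat_lit 679))],[(k1,(nat_lit 528)),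
    (k9,(nat_lit 618)),(k11,(nat_lit 628)),(k7,(nat_lit 651)),(k5,(nat_lit 664)),(k3,(nat_lit 675))],[(k0,
    (nat_lit 592)),(k2,(nat_lit 617)),(k4,(nat_lit 628)),(k8,(nat_lit 628)),(k6,(nat_lit 661)),(k10,(nat_lit 714))],
    [(k3,(nat_lit 613)),(k7,(nat_lit 613)),(k1,(nat_lit 614)),(k9,(nat_lit 628)),(k5,(nat_lit 636)),(k11,
    (nat_lit 714))]]
    [] k0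
    [[k2,k1,k0,k0,k0,k0],[k2,k0,k0,k0,k1,k0],[k2,k0,k0,k0,k0,k1],[k1,k1,k0,k0,k1,k0],[k1,k1,k0,k0,k0,k1],[k1,k0,k1,k0,
    k1,k0],[k1,k0,k1,k0,k0,k1],[k1,k0,k0,k1,k1,k0],[k1,k0,k0,k1,k0,k1],[k1,k0,k0,k0,k2,k0],[k1,k0,k0,k0,k1,k1],[k0,k2,
    k0,k0,k0,k1],[k0,k1,k1,k0,k0,k1],[k0,k0,k1,k1,k0,k1],[k0,k0,k0,k1,k1,k1],[k0,k0,k0,k0,k3,k0],[k0,k0,k0,k0,k2,k1]]
    [.ref k12 k0 [(z2,[z5,y4,y5]),(z1,[y2,z4,z5]),(z4,[y5,z10,z5,z12]),(z2,[y1,z2,z1,z0,z6]),(z1,[z1,y5,y4,y3,y3,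
    z3])],.ref k12 k0 [(z4,[z5,z7,z5,z5,z5,y5]),(z1,[y1,z1,z2,y1,y1,z1]),(z8,[y5,z5,y5,z19,y5,z5]),(z4,[y1,z1,y1,y1,
    z11,z1]),(z2,[z1,y7,y5,y5,y5,z5])],.ref k12 k0 [(z7,[z10,z1]),(z7,[y8,z16,z21]),(z7,[y5,z10,z0,z21]),(z7,[y2,z4,
    z0,z0,z21]),(z7,[z4,y29,y21,y21,y21,z21])],.ref k12 k0 [(z1,[z5,z3,z0,z5,z5,y5]),(z1,[y4,z0,z3,y4,y4,z4]),(z2,[y5,
    z0,z0,z1,y5,z5]),(z1,[y1,z0,z0,y1,z2,z1]),(z1,[z2,y3,y3,y1,y1,z1])],.ref k12 k0 [(z1,[z10,y7,y10]),(z1,[y8,z8,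
    z11]),(z1,[y5,z5,z5,z3]),(z1,[y2,z2,z2,z0,z3]),(z1,[z4,y7,y7,y3,y3,z3])],.ref k12 k0 [(z3,[z10,z9,z10,z0,z10,
    y10]),(z3,[y8,z0,z1,z0,y8,z8]),(z3,[y5,z0,y5,z9,y5,z5]),(z3,[y2,z0,y2,z0,z7,z2]),(z3,[z4,y9,y5,y9,y5,z5])],
    .ref k12 k0 [(z1,[z5,y2,z0,y5]),(z1,[y4,z4,z3,z4]),(z2,[y5,z5,z0,z11]),(z1,[y1,z1,z0,z1,z3]),(z1,[z2,y5,y3,y5,y3,
    z3])],.ref k12 k0 [(z2,[z5,z6,z5,z5,z0,y5]),(z1,[y2,z0,z1,y2,z0,z2]),(z4,[y5,z0,y5,z7,z0,z5]),(z2,[y1,z0,y1,y1,z6,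
    z1]),(z1,[z1,y3,y2,y2,y3,z2])],.ref k12 k0 [(z3,[z10,y1,z0,z0,y10]),(z3,[y8,z8,z9,z0,z8]),(z3,[y5,z5,z0,z9,z5]),
    (z3,[y2,z2,z0,z0,z11]),(z3,[z4,y13,y9,y9,y13,z9])],.ref k12 k0 [(z3,[z5,z14,z10,z10,z10,y10]),(z3,[y4,y4,z1,y8,y8,
    z8]),(z6,[y5,y5,y10,z8,y10,z10]),(z3,[y1,y1,y2,y2,z7,z2]),(z3,[z2,y7,y5,y5,y5,z5])],.ref k12 k0 [(z1,[z2,z3,z2,z2,
    z2,y2]),(z5,[y8,z0,z7,y8,y8,z8]),(z1,[y1,z0,y1,z2,y1,z1]),(z5,[y2,z0,y2,y2,z13,z2]),(z5,[z4,y15,y11,y11,y11,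
    z11])],.ref k12 k0 [(z1,[y2,z3,z4]),(z5,[z8,z0,y1]),(z1,[z1,z0,y2,z3]),(z5,[z2,z0,y4,z0,z15]),(z5,[y4,y15,y7,y15,
    y15,z15])],.ref k12 k0 [(z2,[y5,z6,z5,z5]),(z1,[z2,z0,z1,y2]),(z4,[z5,z0,y5,z7]),(z2,[z1,z0,y1,y1,z6]),(z1,[y1,y3,
    y2,y2,y3,z3])],.ref k12 k0 [(z1,[y5,z3,z0,z5,z5]),(z1,[z4,z0,z3,y4,y4]),(z2,[z5,z0,z0,z1,y5]),(z1,[z1,z0,z0,y1,
    z2]),(z1,[y2,y3,y3,y1,y1,z3])],.ref k12 k0 [(z1,[z10,z13,z10,z10,z0,y10]),(z1,[y8,y8,y5,y8,z0,z8]),(z1,[y5,y5,y5,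
    y2,z0,z5]),(z1,[y2,y2,y2,y2,z3,z2]),(z1,[z4,z1,z1,z1,y3,y1])],.ref k12 k0 [(z2,[z5,z21,z15,z15,z15,y15]),(z1,[y2,
    y6,y3,y6,y6,z6]),(z4,[y5,y15,y15,y3,y15,z15]),(z2,[y1,y3,y3,y3,z3,z3]),(z1,[z1])],.ref k12 k0 [(z3,[z10,z29,z20,
    z20,z20,y20]),(z3,[y8,y16,y7,y16,y16,z16]),(z3,[y5,y10,y10,y1,y10,z10]),(z3,[y2,y4,y4,y4,z5,z4]),(z3,[z4,y1,y1,y1,
    y1,z1])]],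
    .lp [(nat_lit 320),(nat_lit 348),(nat_lit 332),(nat_lit 296),(nat_lit 292),(nat_lit 330)] [k14,k14,k0,k0,k8,k8,k26,
    k26,k28,k28,k9,k9] k0 [[k0,k0,k0,k0,k0,k0,k0,k0,k28],[k0,k0,k0,k0,k0,k16],[k0,k0,k0,k0,k0,k0,k0,k0,k0,k0,k10],[],
    [k16,k0,k0,k0,k0,k0,k0,k0,k0,k0,k4],[k0,k0,k0,k0,k0,k0,k0,k44,k0,k44],[k0,k0,k0,k0,k44],[k0,k0,k0,k0,k0,k0,k0,k0,
    k0,k0,k0,k38],[k0,k0,k0,k0,k44],[k0,k28],[k0,k0,k0,k0,k0,k0,k38],[k0,k0,k0,k10,k0,k4]] (nat_lit 960) k5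
    [[(k8,(nat_lit 306)),(k0,(nat_lit 320)),(k4,(nat_lit 322)),(k2,(nat_lit 324)),(k10,(nat_lit 325)),(k6,
    (nat_lit 346))],[(k11,(nat_lit 297)),(k9,(nat_lit 306)),(k1,(nat_lit 320)),(k7,(nat_lit 324)),(k5,(nat_lit 326)),
    (k3,(nat_lit 334))],[(k6,(nat_lit 322)),(k4,(nat_lit 324)),(k0,(nat_lit 334)),(k10,(nat_lit 339)),(k2,
    (nat_lit 348)),(k8,(nat_lit 348))],[(k9,(nat_lit 320)),(k7,(nat_lit 322)),(k1,(nat_lit 324)),(k11,(nat_lit 339)),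
    (k5,(nat_lit 340)),(k3,(nat_lit 348))],[(k8,(nat_lit 312)),(k6,(nat_lit 314)),(k0,(nat_lit 326)),(k4,
    (nat_lit 332)),(k2,(nat_lit 340)),(k10,(nat_lit 341))],[(k7,(nat_lit 314)),(k1,(nat_lit 322)),(k3,(nat_lit 324)),
    (k5,(nat_lit 332)),(k9,(nat_lit 356)),(k11,(nat_lit 375))],[(k8,(nat_lit 250)),(k6,(nat_lit 252)),(k4,
    (nat_lit 314)),(k10,(nat_lit 317)),(k2,(nat_lit 322)),(k0,(nat_lit 324))],[(k7,(nat_lit 252)),(k9,(nat_lit 294)),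
    (k11,(nat_lit 313)),(k5,(nat_lit 314)),(k3,(nat_lit 322)),(k1,(nat_lit 346))],[(k10,(nat_lit 273)),(k8,
    (nat_lit 292)),(k6,(nat_lit 294)),(k0,(nat_lit 306)),(k2,(nat_lit 320)),(k4,(nat_lit 356))],[(k7,(nat_lit 250)),
    (k9,(nat_lit 292)),(k1,(nat_lit 306)),(k11,(nat_lit 311)),(k5,(nat_lit 312)),(k3,(nat_lit 348))],[(k0,
    (nat_lit 297)),(k8,(nat_lit 311)),(k6,(nat_lit 313)),(k10,(nat_lit 330)),(k2,(nat_lit 339)),(k4,(nat_lit 375))],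
    [(k9,(nat_lit 273)),(k7,(nat_lit 317)),(k1,(nat_lit 325)),(k11,(nat_lit 330)),(k3,(nat_lit 339)),(k5,
    (nat_lit 341))]]
    [] k0
    [[k2,k0,k0,k0,k1,k0],[k2,k0,k0,k0,k0,k1],[k1,k0,k1,k0,k1,k0],[k1,k0,k0,k2,k0,k0],[k1,k0,k0,k1,k1,k0],[k1,k0,k0,k0,
    k2,k0],[k1,k0,k0,k0,k1,k1],[k1,k0,k0,k0,k0,k2],[k0,k1,k1,k0,k1,k0],[k0,k1,k0,k2,k0,k0],[k0,k1,k0,k1,k1,k0],[k0,k0,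
    k1,k2,k0,k0],[k0,k0,k1,k1,k1,k0],[k0,k0,k0,k3,k0,k0],[k0,k0,k0,k2,k1,k0],[k0,k0,k0,k2,k0,k1],[k0,k0,k0,k1,k2,k0],
    [k0,k0,k0,k1,k1,k1],[k0,k0,k0,k0,k3,k0],[k0,k0,k0,k0,k2,k1],[k0,k0,k0,k0,k1,k2]]
    [.ref (nat_lit 331) k7 [(z1,[z2,y5,y1,y11,z1]),(z1,[z1,y2,z0,y4]),(z1,[y1,z2,z0,z5]),(z1,[z0,z1,z0,z2])],
    .ref k133 k10 [(z1,[z2,y4,z1,y10]),(z1,[z0,z1,z0,z2]),(z1,[z1,y2,z0,y4]),(z1,[y1,z2,z0,z5])],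
    .ref (nat_lit 236) k7 [(z1,[z2,y3,y1,y7,z1]),(z1,[z1,y1,z0,y2]),(z1,[y1,z1,z0,z3]),(z1,[z0,z1,z0,z2])],
    .ref k179 k0 [(z1,[z1,z2,z2,z2,y2]),(z1,[y1,y1,y1,y2,z2]),(z2,[y1,y1,y2,z0,z2]),(z1,[z0,y1,y1,y1,z1])],
    .ref (nat_lit 332) k0 [(z1,[z2,z3,z2,z2,y2]),(z1,[y2,z0,z1,y2,z2]),(z1,[y1,z0,y1,z2,z1]),(z1,[z0,y1,y1,y1,z1])],
    .ref (nat_lit 236) k7 [(z1,[z1,y2,y1,y5,z1]),(z2,[z1,y1,z0,y2]),(z2,[y1,z1,z0,z4]),(z1,[z0,z1,z0,z2])],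
    .ref (nat_lit 315) k3 [(z1,[y2,z2,z3]),(z1,[y1,z1,z0,z3]),(z1,[z0,y1,y1,y1,z1]),(z1,[z1,y1])],.ref k10 k10 [(z1,
    [z1,y1,z1,y4]),(z1,[z0,z1,z0,z2]),(z2,[z1,y1,z0,y2]),(z2,[y1,z1,z0,z4])],.ref (nat_lit 236) k7 [(z1,[y2,y1,z1,y3,
    z1]),(z1,[y1,z0,z1]),(z1,[z1,z0,y1,z1]),(z1,[z0,z1,z0,z2])],.ref k10 k10 [(z1,[y1,y2,z0,y6,z2]),(z1,[z0,z1,z0,
    z2]),(z2,[y1,y2,y1,y4,z2]),(z2,[z1,z2,z1,z6,y2])],.ref k10 k10 [(z1,[y2,y2,z1,y6,z2]),(z1,[z0,z1,z0,z2]),(z1,[y1,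
    y1,z0,y2,z1]),(z1,[z1,z1,z0,z3,y1])],.ref (nat_lit 333) k8 [(z1,[y2,z1,z1,z3,y1]),(z1,[z0,y1,y1,y1,z1]),(z1,[y2,
    z1,z0,z2]),(z1,[z2,y1,z0,y3,z1])],.ref (nat_lit 334) k0 [(z1,[y2,z1,y2,z0,z2]),(z1,[z0,z0,z1]),(z1,[z1,z1,z1,z3,
    y1]),(z1,[z2,y1,y1,y3,z1])],.ref (nat_lit 334) k0 [(z1,[y1,z0,y3,y3,z3]),(z1,[z0,z0,z1]),(z2,[z1,z3,z3,z9,y3]),
    (z1,[z1])],.ref (nat_lit 335) k0 [(z1,[z2,z5,z4,z4,y4]),(z1,[y2,y4,y3,y4,z4]),(z1,[y1,y2,y2,y1,z2]),(z1,[z0,y1,y1,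
    y1,z1])],.ref (nat_lit 334) k0 [(z1,[y2,y1,y4,y4,z4]),(z1,[z0,z0,z1]),(z1,[z1,z2,z2,z5,y2]),(z1,[z2,z1,z1,z1,
    y1])],.ref k179 k0 [(z1,[z1,z2,z1,z1,y1]),(z1,[y1,y1,z0,y1,z1]),(z2,[y1,y1,y1,z1,z1]),(z1,[z0,y1,y1,y1,z1])],
    .ref k179 k0 [(z1,[z2,z3,z2,z2,y2]),(z1,[y2,y2,y1,y2,z2]),(z1,[y1,y1,y1,z0,z1]),(z1,[z0,y1,y1,y1,z1])],
    .ref (nat_lit 332) k0 [(z1,[z2,z3]),(z1,[y2,z0,z3]),(z1,[y1,z0,z0,z3]),(z1,[z0,y1,y1,y1,z1])],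
    .ref (nat_lit 236) k7 [(z1,[z2,y1,y1,y5,z1]),(z1,[z1,z0,z0,y1]),(z1,[y1,z0,z0,z2]),(z1,[z0,z1,z0,z2])],
    .ref k10 k10 [(z1,[z2,z0,z1,y4]),(z1,[z0,z1,z0,z2]),(z1,[z1,z0,z0,y1]),(z1,[y1,z0,z0,z2])]],
    .leafM k1 [k0,k1,k2,k3,k4,k5] [(z1,[z0,z1,z0,z1]),(z1,[z0,y1,z0,y1,z1])] [],
    .tor k0 false k2 [(z1,[z1,z1,z0,z1]),(z1,[z0,z1,z1]),(z1,[z0,y1,y1,z0,z1]),(z1,[y1,y1,z0,y1,z1])],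
    .lp [k164,k164,k166,k162,k134,k168] [k2,k2,k2,k2,k1,k1,k3,k3,k17,k17,k0,k0] k0 [[k0,k0,k0,k0,k0,k0,k0,k0,k30,k0,k4],
    [k0,k0,k0,k0,k0,k2],[k0,k0,k0,k0,k0,k0,k0,k0,k0,k0,k12],[k0,k0,k0,k0,k0,k0,k0,k10],[k2],[k0,k0,k0,k0,k0,k0,k0,k0,
    k0,k28],[k0,k0,k10],[k0,k0,k0,k0,k0,k0,k0,k0,k0,k4,k0,k16],[k0,k0,k0,k0,k28,k0,k4],[k0,k30,k0,k0,k0,k0,k0,k0,k0,
    k0,k0,k22],[k0,k0,k0,k0,k0,k0,k16,k0,k22],[k0,k4,k0,k12]] (nat_lit 480) k5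
    [[(k2,k152),(k0,k160),(k4,k165),(k10,k166),(k8,k171),(k6,k179)],[(k11,k136),(k9,k149),(k1,k160),(k3,k164),(k5,
    k165),(k7,k165)],[(k4,k163),(k6,k163),(k0,k164),(k2,k164),(k10,k170),(k8,k179)],[(k1,k152),(k9,k159),(k7,k163),
    (k3,k164),(k5,k165),(k11,k166)],[(k8,k150),(k6,k154),(k0,k165),(k2,k165),(k4,k166),(k10,k179)],[(k9,k150),(k3,
    k163),(k7,k164),(k1,k165),(k5,k166),(k11,k195)],[(k8,k120),(k6,k162),(k2,k163),(k4,k164),(k0,k165),(k10,k165)],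
    [(k9,k148),(k5,k154),(k7,k162),(k3,k163),(k11,k169),(k1,k179)],[(k8,k130),(k10,k135),(k6,k148),(k0,k149),(k4,
    k150),(k2,k159)],[(k7,k120),(k9,k130),(k5,k150),(k11,k151),(k1,k171),(k3,k179)],[(k0,k136),(k10,k146),(k8,k151),
    (k2,k166),(k6,k169),(k4,k195)],[(k9,k135),(k11,k146),(k7,k165),(k1,k166),(k3,k170),(k5,k179)]]
    [] k0
    [[k2,k1,k0,k0,k0,k0],[k2,k0,k0,k0,k0,k1],[k1,k1,k0,k0,k0,k1],[k1,k0,k1,k0,k1,k0],[k1,k0,k0,k1,k1,k0],[k1,k0,k0,k0,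
    k2,k0],[k1,k0,k0,k0,k1,k1],[k1,k0,k0,k0,k0,k2],[k0,k1,k1,k0,k1,k0],[k0,k1,k0,k1,k1,k0],[k0,k1,k0,k0,k2,k0],[k0,k0,
    k2,k0,k1,k0],[k0,k0,k1,k1,k1,k0],[k0,k0,k1,k0,k2,k0],[k0,k0,k0,k2,k1,k0],[k0,k0,k0,k1,k2,k0],[k0,k0,k0,k1,k1,k1],
    [k0,k0,k0,k0,k3,k0],[k0,k0,k0,k0,k2,k1],[k0,k0,k0,k0,k1,k2],[k0,k0,k0,k0,k0,k3]]
    [.ref k12 k0 [(z6,[z10,y1,y5]),(z3,[y1,z1,z5]),(z3,[z8,y8,y4,z9]),(z3,[y4,z4,z2,z0,z9]),(z6,[y20,z11,z1,y18,y18,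
    z18])],.ref k12 k0 [(z4,[z5,z1]),(z4,[y1,z1,z6]),(z1,[z2,y2,z0,z3]),(z1,[y1,z1,z0,z0,z3]),(z2,[y5,z2,y3,y6,y6,
    z6])],.ref k12 k0 [(z4,[z10,z1,y5]),(z4,[y2,z1,z7]),(z1,[z4,y2,y2,z3]),(z1,[y2,z1,z1,z0,z3]),(z1,[y5,z1,z1,y3,y3,
    z3])],.ref k12 k0 [(z2,[z10,z3,z5,z0,z10,y10]),(z1,[y1,z0,z1,z0,y1,z1]),(z1,[z8,z0,z4,z3,z8,y8]),(z1,[y4,z0,y2,z0,
    y1,z4]),(z2,[y20,y3,y13,y6,y26,z26])],.ref k12 k0 [(z6,[y10,z9,y5,y10,z0,z10]),(z3,[z1,z0,z5,z1,z0,y1]),(z3,[y8,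
    z0,y4,z1,z0,z8]),(z3,[z4,z0,z2,z4,z9,y4]),(z6,[z20,y9,z1,z2,y18,y2])],.ref k12 k0 [(z1,[y1,z1,y1,y2,y2,z2]),(z10,
    [z2,z1,z17,z4,z4,y4]),(z5,[y8,y4,y8,y1,y16,z16]),(z5,[z4,z2,z4,z8,z23,y8]),(z2,[z4,y1,z1,z2,z2,y2])],
    .ref k12 k0 [(z2,[y10,z3,y5,y10,y10,z10]),(z1,[z1,z0,z2,z1,z1,y1]),(z1,[y8,z0,y4,y5,y8,z8]),(z1,[z4,z0,z2,z4,z7,
    y4]),(z2,[z20,y3,z7,z14,z14,y14])],.ref k12 k0 [(z3,[z5,z2]),(z6,[y2,z1,z9]),(z3,[z8,y4,z0,z9]),(z3,[y4,z2,z0,z0,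
    z9]),(z6,[y20,z1,y9,y18,y18,z18])],.ref k12 k0 [(z1,[y5,y1,z0,z0,y5,z5]),(z2,[z2,z1,z3,z0,z2,y2]),(z1,[y8,y4,z0,
    z3,y8,z8]),(z1,[z4,z2,z0,z0,z7,y4]),(z2,[z20,z7,y3,y6,z14,y14])],.ref k12 k0 [(z1,[y1,z1,z0,y1,z0,z1]),(z10,[z2,
    z1,z15,z2,z0,y2]),(z5,[y8,y4,z0,z7,z0,z8]),(z5,[z4,z2,z0,z4,z15,y4]),(z2,[z4,y1,y3,y2,y6,z2])],.ref k12 k0 [(z14,
    [y10,z11,y5,y20,y20,z20]),(z7,[z1,z1,z11,z2,z2,y2]),(z7,[y8,y8,y4,z5,y16,z16]),(z7,[z4,z4,z2,z8,z29,y8]),(z14,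
    [z20,y1,y11,y2,y2,z2])],.ref k12 k0 [(z4,[z10,z11,z5,y10,z10,y10]),(z4,[y2,y1,z5,z2,y2,z2]),(z1,[z4,z2,z2,y1,z4,
    y4]),(z1,[y2,y1,y1,z2,z1,z2]),(z1,[y5,y4,y4,z2,y8,z8])],.ref k12 k0 [(z4,[y10,z1,y5,z0,z0,z10]),(z4,[z2,z1,z7,z0,
    z0,y2]),(z1,[y4,y2,y2,z3,z0,z4]),(z1,[z2,z1,z1,z0,z3,y2]),(z1,[z5,z1,z1,y3,y3,y2])],.ref k12 k0 [(z4,[y5,z1,y5,y5,
    y10,z10]),(z4,[z1,z1,z7,z1,z2,y2]),(z1,[y2,y2,y2,z1,y4,z4]),(z1,[z1,z1,z1,z1,z5,y2]),(z2,[z5,z2,z2,y1,z4,y4])],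
    .ref k12 k0 [(z12,[y10,z13,y5,y10,z10,z10]),(z12,[z2,z1,z19,z2,y2,y2]),(z3,[y4,y2,y2,z5,z4,z4]),(z3,[z2,z1,z1,z2,
    z7,y2]),(z3,[z5,y2,y2,y4,y14,z4])],.ref k12 k0 [(z8,[y5,z7,y5,y10,y5,z10]),(z8,[z1,z1,z13,z2,z1,y2]),(z1,[y1,y1,
    y1,z1,y1,z2]),(z2,[z1,z1,z1,z2,z7,y2]),(z4,[z5,y1,y1,y2,y7,z2])],.ref k12 k0 [(z8,[y10,z7,y5,y10,z0,z10]),(z8,[z2,
    z1,z13,z2,z0,y2]),(z1,[y2,y1,y1,z1,z0,z2]),(z2,[z2,z1,z1,z2,z6,y2]),(z4,[z10,y1,y1,y2,y12,z2])],.ref k12 k0 [(z4,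
    [y2,z3,y3,y6,y6,z6]),(z20,[z2,z3,z33,z6,z6,y6]),(z5,[y4,y6,y6,z3,y12,z12]),(z5,[z2,z3,z3,z6,z21,y6]),(z1,[z1])],
    .ref k12 k0 [(z6,[y5,z4,y5,y10,y10,z10]),(z6,[z1,z1,z10,z2,z2,y2]),(z3,[y4,y4,y4,z1,y8,z8]),(z3,[z2,z2,z2,z4,z13,
    y4]),(z6,[z10,z1,z1,z2,z2,y2])],.ref k12 k0 [(z4,[y10,z1,y5,y10,y10,z10]),(z4,[z2,z1,z7,z2,z2,y2]),(z1,[y4,y2,y2,
    y1,y4,z4]),(z1,[z2,z1,z1,z2,z5,y2]),(z1,[z5,z1,z1,z2,z2,y2])],.ref k12 k0 [(z2,[z5,z3]),(z2,[y1,z0,z3]),(z1,[z4,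
    z0,z0,z3]),(z1,[y2,z0,z0,z0,z3]),(z2,[y10,y3,y3,y6,y6,z6])]],
    .lp [(nat_lit 320),(nat_lit 356),(nat_lit 320),(nat_lit 308),(nat_lit 292),(nat_lit 322)] [k18,k18,k0,k0,k18,k18,k24,
    k24,k32,k32,k17,k17] k0 [[k0,k0,k0,k0,k0,k0,k2,k0,k20],[k0,k0,k0,k0,k0,k12],[k0,k0,k0,k0,k12,k0,k0,k0,k0,k0,k18],
    [],[k12,k0,k0,k0,k0,k0,k0,k0,k2],[k0,k0,k0,k12,k0,k0,k0,k56],[k0,k0,k0,k0,k56],[k0,k2,k0,k0,k0,k0,k0,k0,k0,k0,k0,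
    k30],[k0,k0,k0,k0,k0,k0,k0,k0,k0,k0,k8],[k0,k20,k0,k0,k0,k2],[k0,k0,k0,k0,k0,k0,k30],[k0,k0,k0,k18,k0,k0,k0,k0,k0,
    k8]] (nat_lit 960) k5
    [[(k8,(nat_lit 298)),(k0,(nat_lit 320)),(k2,(nat_lit 320)),(k4,(nat_lit 320)),(k10,(nat_lit 321)),(k6,
    (nat_lit 344))],[(k11,(nat_lit 301)),(k9,(nat_lit 304)),(k1,(nat_lit 320)),(k5,(nat_lit 320)),(k7,(nat_lit 326)),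
    (k3,(nat_lit 338))],[(k4,(nat_lit 326)),(k6,(nat_lit 334)),(k0,(nat_lit 338)),(k10,(nat_lit 339)),(k8,
    (nat_lit 344)),(k2,(nat_lit 356))],[(k1,(nat_lit 320)),(k7,(nat_lit 320)),(k9,(nat_lit 324)),(k5,(nat_lit 338)),
    (k11,(nat_lit 339)),(k3,(nat_lit 356))],[(k8,(nat_lit 306)),(k6,(nat_lit 314)),(k0,(nat_lit 320)),(k4,
    (nat_lit 332)),(k2,(nat_lit 338)),(k10,(nat_lit 339))],[(k7,(nat_lit 314)),(k11,(nat_lit 319)),(k1,(nat_lit 320)),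
    (k3,(nat_lit 326)),(k5,(nat_lit 332)),(k9,(nat_lit 362))],[(k6,(nat_lit 252)),(k8,(nat_lit 302)),(k4,
    (nat_lit 314)),(k10,(nat_lit 315)),(k2,(nat_lit 320)),(k0,(nat_lit 326))],[(k7,(nat_lit 252)),(k9,(nat_lit 300)),
    (k5,(nat_lit 314)),(k11,(nat_lit 315)),(k3,(nat_lit 334)),(k1,(nat_lit 344))],[(k10,(nat_lit 277)),(k8,
    (nat_lit 292)),(k6,(nat_lit 300)),(k0,(nat_lit 304)),(k2,(nat_lit 324)),(k4,(nat_lit 362))],[(k9,(nat_lit 292)),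
    (k1,(nat_lit 298)),(k7,(nat_lit 302)),(k5,(nat_lit 306)),(k11,(nat_lit 307)),(k3,(nat_lit 344))],[(k0,
    (nat_lit 301)),(k8,(nat_lit 307)),(k6,(nat_lit 315)),(k4,(nat_lit 319)),(k10,(nat_lit 330)),(k2,(nat_lit 339))],
    [(k9,(nat_lit 277)),(k7,(nat_lit 315)),(k1,(nat_lit 321)),(k11,(nat_lit 330)),(k3,(nat_lit 339)),(k5,
    (nat_lit 339))]]
    [] k0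
    [[k2,k0,k0,k0,k1,k0],[k2,k0,k0,k0,k0,k1],[k1,k0,k1,k0,k1,k0],[k1,k0,k0,k2,k0,k0],[k1,k0,k0,k1,k1,k0],[k1,k0,k0,k0,
    k2,k0],[k1,k0,k0,k0,k1,k1],[k1,k0,k0,k0,k0,k2],[k0,k1,k1,k0,k1,k0],[k0,k1,k0,k2,k0,k0],[k0,k0,k1,k2,k0,k0],[k0,k0,
    k1,k1,k0,k1],[k0,k0,k1,k1,k1,k0],[k0,k0,k1,k0,k1,k1],[k0,k0,k0,k3,k0,k0],[k0,k0,k0,k2,k1,k0],[k0,k0,k0,k2,k0,k1],
    [k0,k0,k0,k1,k2,k0],[k0,k0,k0,k1,k1,k1],[k0,k0,k0,k0,k3,k0],[k0,k0,k0,k0,k2,k1],[k0,k0,k0,k0,k1,k2]]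
    [.ref k12 k0 [(z5,[z6,z1]),(z5,[z12,y8,z15]),(z5,[y6,z4,z0,z15]),(z1,[y3,z2,z0,z0,z3]),(z5,[z3,y2])],
    .ref k12 k0 [(z2,[z3,z1,z3,z3,z3,y3]),(z1,[z3,y1,z6,z3,z3,y3]),(z2,[y3,z1,y3,z3,y3,z3]),(z4,[y15,z5,y15,y15,y3,
    z15]),(z4,[z3,y1,z3,z3,z3,y3])],.ref k12 k0 [(z1,[z6,y1,z0,y6]),(z1,[z12,y4,z3,y12]),(z1,[y6,z2,z0,z9]),(z1,[y15,
    z5,z0,z15,z3]),(z1,[z3,y1,z0,y3])],.ref k12 k0 [(z4,[y3,z5,z0,z0,z6]),(z2,[y3,z1,z6,z0,z6]),(z4,[z3,y1,z0,z12,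
    y6]),(z8,[z15,y5,z0,z0,y6]),(z8,[y3,z1,z0,z0,z6])],.ref k12 k0 [(z1,[y3,z2,z0,z0,z3]),(z1,[y6,z2,z3,z0,z6]),(z1,
    [z3,y1,z0,z3,y3]),(z2,[z15,y5,z0,z0,y9]),(z2,[y3,z1,z0,z0,z3])],.ref k12 k0 [(z2,[z3,z1]),(z1,[z3,y1,z3]),(z2,[y3,
    z1,z0,z6]),(z4,[y15,z5,z0,z0,z12]),(z4,[z3,y1])],.ref k12 k0 [(z1,[z2,z1,z2,z2,z2,y2]),(z1,[z4,z0,z7,z4,z4,y4]),
    (z1,[y2,z0,y2,z1,y2,z2]),(z1,[y5,z0,y5,y5,y2,z5]),(z1,[z1,z0,z1,z1,z1,y1])],.ref k12 k0 [(z1,[z3,z2,z6,z6,z6,y6]),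
    (z1,[z6,z2,z15,z12,z12,y12]),(z1,[y3,y1,y6,y3,y6,z6]),(z2,[y15,y5,y30,y30,y24,z30]),(z2,[z3,z1,z6,z6,z6,y6])],
    .ref k12 k0 [(z1,[z2,z1,y2,y2]),(z1,[z4,z0,y1,y4]),(z1,[y2,z0,z2,z5]),(z1,[y5,z0,z5,z5,z3]),(z1,[z1,z0,y1,y1])],
    .ref k12 k0 [(z1,[y1,z1,z1,z0,z2]),(z1,[y2,z0,z5,z0,z4]),(z1,[z1,z0,y1,z3,y2]),(z2,[z5,z0,y5,z0,y4]),(z2,[y1,z0,
    z1,z0,z2])],.ref k12 k0 [(z2,[y1,z2,z0,z1,z2]),(z1,[y1,z0,z3,z1,z2]),(z2,[z1,z0,z0,z5,y2]),(z4,[z5,z0,z0,y5,z2]),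
    (z4,[y1,z0,z0,z1,z2])],.ref k12 k0 [(z7,[y6,z5,y6,z0,z0,z6]),(z7,[y12,y4,z9,z0,z0,z12]),(z7,[z6,z2,z6,z21,z0,y6]),
    (z7,[z15,z5,z15,z0,z21,y15]),(z7,[y3,y1,y3,z0,z0,z3])],.ref k12 k0 [(z1,[y1,z1,z0,z1,z1]),(z1,[y2,z0,z3,z2,z2]),
    (z1,[z1,z0,z0,z2,y1]),(z2,[z5,z0,z0,y5,z1]),(z2,[y1,z0,z0,z1,z1])],.ref k12 k0 [(z1,[y6,y1,y6,z0,y6,z6]),(z1,[y12,
    y4,y9,z0,y12,z12]),(z1,[z6,z2,z6,z3,z6,y6]),(z1,[z15,z5,z15,z0,z18,y15]),(z1,[y3,y1,y3,z0,y3,z3])],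
    .ref k12 k0 [(z5,[y2,z5,z0,z0,z6]),(z5,[y4,z0,z15,z0,z12]),(z5,[z2,z0,z0,z15,y6]),(z1,[z1]),(z5,[y1,z0,z0,z0,
    z3])],.ref k12 k0 [(z3,[y2,z3,z0,z0,z4]),(z3,[y4,z0,z9,z0,z8]),(z3,[z2,z0,z0,z9,y4]),(z3,[z5,z0,z0,z0,y1]),(z3,
    [y1,z0,z0,z0,z2])],.ref k12 k0 [(z5,[y3,z4,y3,y3,z3,z3]),(z5,[y6,y2,z9,y6,z6,z6]),(z5,[z3,z1,z3,z18,y3,y3]),(z2,
    [z3,z1,z3,z3,z3,y3]),(z10,[y3,y1,y3,y3,z3,z3])],.ref k12 k0 [(z1,[y2,z1,z0,z0,z2]),(z1,[y4,z0,z3,z0,z4]),(z1,[z2,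
    z0,z0,z3,y2]),(z1,[z5,z0,z0,z0,y2]),(z1,[y1,z0,z0,z0,z1])],.ref k12 k0 [(z2,[y3,z1,y3,y3,z0,z3]),(z1,[y3,y1,z0,y3,
    z0,z3]),(z2,[z3,z1,z3,z9,z0,y3]),(z4,[z15,z5,z15,z15,z12,y15]),(z4,[y3,y1,y3,y3,z0,z3])],.ref k12 k0 [(z1,[z2,
    z1]),(z1,[z4,z0,z3]),(z1,[y2,z0,z0,z3]),(z1,[y5,z0,z0,z0,z3]),(z1,[z1])],.ref k12 k0 [(z1,[z3,z2,z3,z3,z3,y3]),
    (z1,[z6,z2,z9,z6,z6,y6]),(z1,[y3,y1,y3,z0,y3,z3]),(z2,[y15,y5,y15,y15,y9,z15]),(z2,[z3,z1,z3,z3,z3,y3])],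
    .ref k12 k0 [(z1,[z6,z5,z12,z12,z12,y12]),(z1,[z12,z8,z27,z24,z24,y24]),(z1,[y6,y4,y12,y9,y12,z12]),(z1,[y15,y10,
    y30,y30,y27,z30]),(z1,[z3,z2,z6,z6,z6,y6])]],
    .lp [k42,k44,k40,k38,k33,k42] [k1,k1,k0,k0,k2,k2,k3,k3,k10,k1,k1,k1] k0 [[k0,k0,k0,k0,k0,k0,k0,k0,k1,k0,k1],[k0,k0,k0,
    k0,k0,k0,k0,k2],[k0,k0,k0,k0,k2],[],[k0,k0,k0,k0,k0,k0,k11],[k0,k0,k0,k2],[k2],[k0,k0,k0,k0,k0,k11],[],[k0,k1,k0,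
    k0,k0,k0,k0,k0,k0,k0,k0,k2],[k0,k0,k0,k0,k0,k0,k0,k0,k2],[k0,k1]] k120 k5
    [[(k8,k35),(k6,k40),(k0,k41),(k4,k41),(k10,k42),(k2,k43)],[(k7,k40),(k1,k41),(k5,k41),(k11,k41),(k3,k43),(k9,
    k44)],[(k8,k35),(k6,k39),(k4,k42),(k0,k43),(k2,k44),(k10,k44)],[(k7,k39),(k5,k42),(k1,k43),(k9,k43),(k11,k43),(k3,
    k44)],[(k8,k32),(k6,k39),(k0,k41),(k10,k41),(k2,k42),(k4,k42)],[(k9,k30),(k7,k39),(k1,k41),(k11,k41),(k3,k42),(k5,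
    k42)],[(k8,k31),(k2,k39),(k4,k39),(k0,k40),(k10,k40),(k6,k49)],[(k3,k39),(k5,k39),(k1,k40),(k9,k40),(k11,k40),(k7,
    k49)],[(k4,k30),(k8,k33),(k6,k40),(k10,k42),(k2,k43),(k0,k44)],[(k7,k31),(k5,k32),(k9,k33),(k11,k33),(k1,k35),(k3,
    k35)],[(k8,k33),(k6,k40),(k10,k40),(k0,k41),(k4,k41),(k2,k43)],[(k7,k40),(k11,k40),(k5,k41),(k1,k42),(k9,k42),(k3,
    k44)]]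
    [] k0
    [[k1,k0,k1,k0,k1,k0],[k1,k0,k0,k1,k1,k0],[k1,k0,k0,k0,k2,k0],[k1,k0,k0,k0,k1,k1],[k0,k1,k1,k0,k1,k0],[k0,k1,k0,k1,
    k1,k0],[k0,k1,k0,k0,k2,k0],[k0,k0,k2,k0,k1,k0],[k0,k0,k1,k1,k1,k0],[k0,k0,k1,k0,k2,k0],[k0,k0,k1,k0,k1,k1],[k0,k0,
    k0,k1,k2,k0],[k0,k0,k0,k1,k1,k1],[k0,k0,k0,k0,k3,k0],[k0,k0,k0,k0,k2,k1],[k0,k0,k0,k0,k1,k2]]
    [.ref k12 k0 [(z1,[z12,y3,z0,y2]),(z1,[y6,z2,z1,z1]),(z1,[y15,z5,z0,z3]),(z2,[z6,y2,z0,y1,z1]),(z1,[z6,y2,z0,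
    y1])],.ref k12 k0 [(z7,[z12,z3,z0,z0,y2]),(z7,[y6,z2,z7,z0,z1]),(z14,[y30,z10,z0,z7,z5]),(z7,[z3,y1,z0,z0,z3]),
    (z7,[z6,y2,z0,z0,y1])],.ref k12 k0 [(z2,[z3,z1]),(z4,[y3,z1,z4]),(z8,[y15,z5,z0,z4]),(z8,[z3,y1,z0,z0,z4]),(z4,
    [z3,y1])],.ref k12 k0 [(z3,[z6,z3,z2,z1,z1,y6]),(z6,[y6,z0,z4,y1,y1,z6]),(z12,[y30,z0,y10,z1,y5,z30]),(z12,[z6,z0,
    z2,z1,z7,y6]),(z6,[z6,z0,z2,z1,z1,y6])],.ref k12 k0 [(z5,[y12,z5,z4,z2]),(z5,[z6,z0,z3,y1]),(z1,[z3,z0,y1]),(z10,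
    [y6,z0,z2,z1,z5]),(z5,[y6,z0,z2,z1])],.ref k12 k0 [(z1,[z12,z1,y4,z0,y2]),(z1,[y6,z0,z3,z0,z1]),(z2,[y30,z0,z10,
    z1,z5]),(z1,[z3,z0,y1]),(z1,[z6,z0,y2,z0,y1])],.ref k12 k0 [(z1,[z6,z1,y2]),(z1,[y3,z0,z2]),(z2,[y15,z0,z5,z1]),
    (z2,[z3,z0,y1,z0,z1]),(z1,[z3,z0,y1])],.ref k12 k0 [(z2,[y3,z2,z0,z1]),(z4,[z3,z0,z4,y1]),(z8,[z15,z0,z0,y1]),(z8,
    [y3,z0,z0,z1,z4]),(z4,[y3,z0,z0,z1])],.ref k12 k0 [(z1,[y6,z1,z0,z1,z1]),(z2,[z6,z0,z2,y1,y1]),(z4,[z30,z0,z0,y3,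
    y5]),(z4,[y6,z0,z0,z1,z3]),(z2,[y6,z0,z0,z1,z1])],.ref k12 k0 [(z1,[y12,z1,z0,z2]),(z1,[z6,z0,z1,y1]),(z1,[z15,z0,
    z0,y2]),(z2,[y6,z0,z0,z1,z1]),(z1,[y6,z0,z0,z1])],.ref k12 k0 [(z3,[y12,y1,y4,z0,y2,z12]),(z3,[z6,z2,z5,z0,z1,
    y6]),(z6,[z30,z10,z10,z3,z5,y30]),(z3,[y3,y1,y1,z0,z1,z3]),(z3,[y6,y2,y2,z0,y1,z6])],.ref k12 k0 [(z5,[z12,z5,z0,
    z0,y2]),(z5,[y6,z0,z5,z0,z1]),(z2,[y6,z0,z0,z1,z1]),(z5,[z3,z0,z0,z0,z2]),(z5,[z6,z0,z0,z0,y1])],.ref k12 k0 [(z3,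
    [z12,z7,z4,z2,z0,y12]),(z3,[y6,y2,z1,y1,z0,z6]),(z3,[y15,y5,y5,y1,z0,z15]),(z6,[z6,z2,z2,z1,z3,y6]),(z3,[z6,z2,z2,
    z1,z0,y6])],.ref k12 k0 [(z1,[z2,z1]),(z1,[y1,z0,z1]),(z2,[y5,z0,z0,z1]),(z2,[z1,z0,z0,z0,z1]),(z1,[z1])],
    .ref k12 k0 [(z2,[z6,z4,z2,z1,z1,y6]),(z4,[y6,y2,z2,y1,y1,z6]),(z8,[y30,y10,y10,y1,y5,z30]),(z8,[z6,z2,z2,z1,z5,
    y6]),(z4,[z6,z2,z2,z1,z1,y6])],.ref k12 k0 [(z1,[z6,z5,z4,z2,z2,y12]),(z1,[y3,y2,y1,y1,y1,z6]),(z2,[y15,y10,y10,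
    y4,y5,z30]),(z2,[z3,z2,z2,z1,z2,y6]),(z1,[z3,z2,z2,z1,z1,y6])]],
    .lp [k168,k170,k154,k164,k140,k162] [k1,k1,k0,k0,k8,k8,k3,k3,k15,k15,k4,k4] k0 [[k0,k0,k0,k0,k0,k0,k0,k0,k4,k0,k8],
    [k0,k0,k0,k0,k0,k0,k0,k8],[k0,k0,k0,k0,k8,k0,k0,k0,k0,k0,k10],[k0,k0,k0,k0,k0,k0,k0,k0,k0,k4],[k0,k0,k0,k0,k0,k0,
    k12],[k0,k0,k0,k8],[k8],[k0,k0,k0,k0,k0,k12],[k0,k0,k4],[k0,k4,k0,k0,k0,k0,k0,k0,k0,k0,k0,k8],[k0,k0,k0,k0,k0,k0,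
    k0,k0,k8],[k0,k8,k0,k10]] (nat_lit 480) k5
    [[(k2,k159),(k0,k160),(k4,k161),(k8,k162),(k10,k165),(k6,k166)],[(k1,k160),(k5,k161),(k11,k161),(k9,k162),(k7,
    k166),(k3,k169)],[(k6,k159),(k8,k159),(k4,k162),(k0,k169),(k2,k170),(k10,k174)],[(k9,k155),(k1,k159),(k7,k159),
    (k5,k162),(k3,k170),(k11,k170)],[(k8,k143),(k6,k159),(k0,k161),(k2,k162),(k4,k162),(k10,k168)],[(k9,k135),(k11,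
    k158),(k7,k159),(k1,k161),(k3,k162),(k5,k162)],[(k8,k152),(k2,k159),(k4,k159),(k10,k163),(k0,k166),(k6,k176)],
    [(k9,k152),(k3,k159),(k5,k159),(k11,k163),(k1,k166),(k7,k176)],[(k4,k135),(k8,k140),(k10,k151),(k6,k152),(k2,
    k155),(k0,k162)],[(k9,k140),(k5,k143),(k11,k151),(k7,k152),(k3,k159),(k1,k162)],[(k8,k151),(k10,k154),(k4,k158),
    (k0,k161),(k6,k163),(k2,k170)],[(k9,k151),(k11,k154),(k7,k163),(k1,k165),(k5,k168),(k3,k174)]]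
    [] k0
    [[k1,k0,k1,k0,k1,k0],[k1,k0,k0,k0,k2,k0],[k1,k0,k0,k0,k1,k1],[k0,k1,k1,k0,k1,k0],[k0,k1,k0,k1,k1,k0],[k0,k1,k0,k0,
    k2,k0],[k0,k0,k2,k0,k1,k0],[k0,k0,k1,k1,k1,k0],[k0,k0,k1,k0,k2,k0],[k0,k0,k1,k0,k1,k1],[k0,k0,k0,k1,k2,k0],[k0,k0,
    k0,k1,k1,k1],[k0,k0,k0,k0,k3,k0],[k0,k0,k0,k0,k2,k1],[k0,k0,k0,k0,k1,k2],[k0,k0,k0,k0,k0,k3]]
    [.ref (nat_lit 337) k0 [(z1,[z4,y3,z0,y2]),(z1,[y2,z2,z1,z1]),(z1,[y5,z5,z0,z3]),(z1,[z1,y2,y1,y1,z1])],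
    .ref k20 k6 [(z1,[z0,z0,y5,z1]),(z1,[z0,y2,y1,y1,z2]),(z2,[z1,y1,y2]),(z2,[y1,z1,z4])],.ref k9 k0 [(z1,[z2,z1]),
    (z1,[y1,z1,z3]),(z2,[y5,z5,z0,z3]),(z2,[z1,y7,y6,y3,z6])],.ref (nat_lit 338) k8 [(z1,[z1,z7,z6,z3,y7]),(z1,[y1,y5,
    y4,y2,z5]),(z1,[z0,z5,z4,z2,y4]),(z1,[z0,y2,y1,y1,z2])],.ref (nat_lit 337) k0 [(z1,[z4,z5,z0,z2,y4]),(z1,[y2,y2,
    z1,y1,z2]),(z1,[y5,y5,z0,y2,z5]),(z1,[z1,z0,y1])],.ref (nat_lit 337) k0 [(z1,[z2,z1,y2]),(z1,[y1,z0,z2]),(z2,[y5,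
    z0,z5,z1]),(z2,[z1,y2,y3,y1,z2])],.ref k42 k8 [(z1,[z1,z10,z10,z4,y10]),(z1,[y1,y8,y8,y3,z8]),(z1,[z0,z5,z4,z2,
    y4]),(z1,[z0,y2,y1,y1,z2])],.ref (nat_lit 225) k8 [(z1,[z1,z5,z5,z2,y5]),(z1,[y1,y3,y3,y1,z3]),(z1,[z0,z5,z4,z2,
    y4]),(z1,[z0,y2,y1,y1,z2])],.ref (nat_lit 339) k8 [(z1,[z1,z5,z5,z2,y5]),(z1,[y1,y1,y1,z0,z1]),(z1,[z0,z5,z4,z2,
    y4]),(z1,[z0,y2,y1,y1,z2])],.ref k9 k0 [(z1,[y4,z3,z0,z2]),(z1,[z2,z0,z3,y1]),(z1,[z5,z0,z0,y1]),(z1,[y1,y3,y3,y1,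
    z3])],.ref k134 k6 [(z1,[z0,z0,y5,z1]),(z1,[z0,y2,y1,y1,z2]),(z1,[z2,z2,z1,z1,y2]),(z1,[y2,y2,z3,y1,z2])],
    .ref k9 k0 [(z1,[z4,z7,z4,z2,y4]),(z1,[y2,y2,z1,y1,z2]),(z1,[y5,y5,y5,y1,z5]),(z1,[z1,y2,y2,y1,z2])],
    .ref (nat_lit 340) k4 [(z1,[y1,z6,z6,z3,y6]),(z1,[z0,z5,z4,z2,y4]),(z1,[z0,y2,y1,y1,z2]),(z1,[z0,y5,y5,y2,z5])],
    .ref k20 k6 [(z1,[z0,z0,y5,z1]),(z1,[z0,y2,y1,y1,z2]),(z1,[z1,z0,y1]),(z1,[y1,z0,z2])],.ref (nat_lit 225) k8 [(z1,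
    [y1,z4,z4,z2,y4]),(z1,[z1,y2,y2,y1,z2]),(z1,[z0,z5,z4,z2,y4]),(z1,[z0,y2,y1,y1,z2])],.ref (nat_lit 341) k0 [(z1,
    [z2,z3]),(z1,[y1,z0,z3]),(z1,[y5,z0,z0,z3]),(z1,[z1,y6,y6,y3,z6])]],
    .tor k0 false k1 [(z1,[y1,z0,z0,y1,z1]),(z1,[z1,z0,z1,z1]),(z1,[y1,z0,y1,y1,z1]),(z1,[z1,z0,z0,z1])],
    .leafM k0 [k2,k3,k4,k5,k0,k1] [(z3,[y3,y1,y1,z0,z3])] [],
    .lp [k162,k142,k166,k178,k160,k150] [k8,k8,k18,k18,k6,k6,k0,k0,k9,k9,k14,k14] k0 [[k0,k0,k0,k0,k0,k0,k0,k0,k4,k0,k32],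
    [k0,k0,k0,k16,k0,k6],[k16],[k0,k0,k0,k0,k0,k0,k0,k0,k0,k30],[k6],[k0,k0,k0,k0,k0,k0,k0,k18,k0,k0,k0,k10],[k0,k0,
    k0,k0,k18,k0,k0,k0,k14],[k0,k0,k0,k0,k0,k0,k0,k0,k0,k0,k0,k4],[k0,k0,k30,k0,k0,k0,k0,k0,k0,k0,k26],[k0,k4,k0,k0,
    k0,k0,k0,k14],[k0,k0,k0,k0,k10,k0,k4],[k0,k32,k0,k0,k0,k0,k0,k0,k0,k26]] (nat_lit 480) k5
    [[(k0,k130),(k8,k135),(k2,k152),(k10,k156),(k4,k174),(k6,k174)],[(k1,k130),(k3,k152),(k11,k152),(k9,k161),(k7,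
    k176),(k5,k180)],[(k2,k126),(k4,k148),(k0,k152),(k8,k155),(k6,k160),(k10,k178)],[(k3,k126),(k9,k151),(k1,k152),
    (k5,k154),(k7,k160),(k11,k176)],[(k8,k133),(k2,k154),(k10,k158),(k4,k166),(k6,k172),(k0,k180)],[(k3,k148),(k11,
    k158),(k5,k166),(k7,k172),(k1,k174),(k9,k181)],[(k10,k154),(k2,k160),(k6,k160),(k8,k169),(k4,k172),(k0,k176)],
    [(k11,k150),(k3,k160),(k7,k160),(k9,k169),(k5,k172),(k1,k174)],[(k2,k151),(k10,k151),(k0,k161),(k6,k169),(k8,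
    k174),(k4,k181)],[(k5,k133),(k1,k135),(k3,k155),(k11,k155),(k7,k169),(k9,k174)],[(k6,k150),(k0,k152),(k8,k155),
    (k4,k158),(k2,k176),(k10,k176)],[(k9,k151),(k7,k154),(k1,k156),(k5,k158),(k11,k176),(k3,k178)]]
    [] k0
    [[k3,k0,k0,k0,k0,k0],[k2,k1,k0,k0,k0,k0],[k2,k0,k0,k0,k1,k0],[k2,k0,k0,k0,k0,k1],[k1,k2,k0,k0,k0,k0],[k1,k1,k0,k0,
    k1,k0],[k1,k0,k1,k0,k1,k0],[k1,k0,k0,k0,k2,k0],[k1,k0,k0,k0,k1,k1],[k0,k3,k0,k0,k0,k0],[k0,k2,k1,k0,k0,k0],[k0,k2,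
    k0,k1,k0,k0],[k0,k2,k0,k0,k1,k0],[k0,k1,k2,k0,k0,k0],[k0,k1,k1,k0,k1,k0],[k0,k0,k1,k1,k1,k0],[k0,k0,k1,k0,k1,k1],
    [k0,k0,k0,k2,k0,k1],[k0,k0,k0,k1,k1,k1]]
    [.ref k193 k4 [(z1,[y1,z3]),(z1,[z1]),(z1,[z1,y3,z3]),(z1,[z0,z0,z0,z1])],.ref k193 k4 [(z1,[y1,z2,z1]),(z1,[z1,
    z1,y1]),(z1,[z1,y2,z2]),(z1,[z0,z0,z0,z1])],.ref (nat_lit 343) k5 [(z1,[z2,z0,z4,z5,y4]),(z1,[z1,y1,z2,z1,y1]),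
    (z1,[z1,z0,z1,z1,y1]),(z1,[y3,z1,y5,y5,z5])],.ref k179 k4 [(z1,[y1,z2]),(z1,[z1,y1]),(z1,[z1,y2,z1]),(z1,[z0,z0,
    z0,z1])],.ref k193 k4 [(z1,[y1,z1,z2]),(z1,[z1,z2,y2]),(z1,[z1,y1,z1]),(z1,[z0,z0,z0,z1])],
    .ref (nat_lit 343) k5 [(z1,[z2,z2,z2,z5,y4]),(z1,[z1,z0,z1,z1,y1]),(z1,[z1,z1,z0,z1,y1]),(z1,[y3,y2,y2,y5,z5])],
    .ref k189 k4 [(z1,[y1,z1,z0,z1]),(z1,[z1,z0,z0,y1]),(z1,[z1,y1,z1,y1]),(z1,[z0,z0,z0,z1])],.ref k179 k4 [(z1,[y1,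
    z1]),(z1,[z1]),(z1,[z1,y1,z1]),(z1,[z0,z0,z0,z1])],.ref (nat_lit 344) k2 [(z1,[y1,z0,y1,y1,z1]),(z1,[y2,z2,z0,
    z3]),(z1,[z2,y2,z3]),(z1,[z2,z1])],.ref k193 k4 [(z1,[y1,z0,z3]),(z1,[z1,z3,y3]),(z1,[z1]),(z1,[z0,z0,z0,z1])],
    .ref k189 k4 [(z2,[y1,z0,z2,z1]),(z2,[z1,z2,y2,y1]),(z2,[z1,z0,z0,y1]),(z1,[z0,z0,z0,z1])],.ref k189 k4 [(z1,[y1,
    y1,z1,y1,z1]),(z1,[z1,z2,y1,z1,y1]),(z1,[z1,z1,z0,z1,y1]),(z1,[z0,z0,z0,z1])],.ref (nat_lit 343) k5 [(z1,[z2,z4,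
    z0,z5,y4]),(z1,[z1,z1,z0,z1,y1]),(z1,[z1,z2,y1,z1,y1]),(z1,[y3,y5,z1,y5,z5])],.ref k20 k7 [(z1,[y2,y2,z0,y3,z2]),
    (z1,[z0,z0,z0,z1]),(z1,[y1,z0,z1,z1]),(z1,[z1,z1,y1])],.ref k189 k4 [(z1,[y1,z0,z1,z1]),(z1,[z1,z1,y1,y1]),(z1,
    [z1,z0,z0,y1]),(z1,[z0,z0,z0,z1])],.ref k179 k4 [(z1,[z1,z1,z1,z0,y1]),(z1,[y1,z0,y1,z0,z1]),(z1,[y1,y1,z0,z0,
    z1]),(z1,[z0,z0,z0,z1])],.ref k189 k4 [(z1,[z1,z0,z0,y1]),(z1,[y1,z1,z0,z1]),(z1,[y1,z0,z1,z1]),(z1,[z0,z0,z0,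
    z1])],.ref k193 k4 [(z1,[z1,z2,z2,z2,y2]),(z1,[y1,z1,y2,y2,z2]),(z1,[y1,y2,z1,y2,z2]),(z1,[z0,z0,z0,z1])],
    .ref k189 k4 [(z2,[z1,z1,z1,z1,y1]),(z2,[y1,z1,y1,y1,z1]),(z2,[y1,y1,z1,y1,z1]),(z1,[z0,z0,z0,z1])]]]

noncomputable def cT6_3_n7_3 : List TN :=
  [.lp [k174,k146,k168,k152,k166,k152] [k0,k0,k14,k14,k3,k3,k11,k11,k4,k4,k11,k11] k0 [[k0,k0,k14,k0,k0,k0,k0,k0,k26],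
    [k0,k0,k0,k0,k0,k24,k0,k2],[k0,k0,k0,k0,k10,k0,k0,k0,k6],[k0,k14,k0,k0,k0,k0,k0,k18],[k24,k0,k0,k0,k0,k0,k26],[k0,
    k0,k0,k10,k0,k0,k0,k0,k0,k0,k0,k12],[k2,k0,k18],[k0,k0,k0,k0,k0,k26],[k0,k0,k0,k0,k0,k0,k0,k0,k0,k0,k36],[k0,k26,
    k0,k6],[k0,k0,k0,k0,k12],[k0,k0,k0,k0,k0,k0,k0,k0,k0,k36]] (nat_lit 480) k5
    [[(k8,k134),(k2,k160),(k6,k163),(k10,k163),(k0,k174),(k4,k183)],[(k11,k137),(k5,k157),(k3,k160),(k9,k172),(k1,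
    k174),(k7,k187)],[(k4,k133),(k6,k147),(k10,k149),(k0,k160),(k2,k160),(k8,k182)],[(k7,k139),(k11,k143),(k5,k157),
    (k1,k160),(k3,k160),(k9,k174)],[(k6,k142),(k0,k157),(k2,k157),(k10,k160),(k8,k173),(k4,k178)],[(k3,k133),(k9,
    k141),(k7,k160),(k11,k160),(k5,k178),(k1,k183)],[(k2,k139),(k10,k140),(k8,k159),(k4,k160),(k6,k178),(k0,k187)],
    [(k5,k142),(k3,k147),(k11,k152),(k9,k159),(k1,k163),(k7,k178)],[(k4,k141),(k6,k159),(k10,k159),(k8,k166),(k0,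
    k172),(k2,k174)],[(k1,k134),(k7,k159),(k11,k159),(k9,k166),(k5,k173),(k3,k182)],[(k0,k137),(k2,k143),(k6,k152),
    (k8,k159),(k4,k160),(k10,k188)],[(k7,k140),(k3,k149),(k9,k159),(k5,k160),(k1,k163),(k11,k188)]]
    [] k0
    [[k2,k0,k0,k0,k0,k1],[k1,k1,k1,k0,k0,k0],[k1,k1,k0,k0,k0,k1],[k1,k1,k0,k1,k0,k0],[k1,k0,k0,k1,k0,k1],[k1,k1,k0,k0,
    k1,k0],[k1,k0,k1,k0,k1,k0],[k1,k0,k0,k0,k2,k0],[k1,k0,k0,k0,k1,k1],[k0,k2,k1,k0,k0,k0],[k0,k2,k0,k1,k0,k0],[k0,k2,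
    k0,k0,k0,k1],[k0,k1,k2,k0,k0,k0],[k0,k1,k1,k1,k0,k0],[k0,k1,k1,k0,k0,k1],[k0,k1,k0,k2,k0,k0],[k0,k1,k0,k1,k0,k1],
    [k0,k0,k1,k1,k1,k0],[k0,k0,k1,k1,k0,k1],[k0,k0,k1,k0,k1,k1],[k0,k0,k0,k2,k0,k1],[k0,k0,k0,k1,k1,k1]]
    [.ref (nat_lit 229) k6 [(z1,[y1,z0,y1,z1]),(z1,[y1,z1,z2]),(z1,[z1,y1])],.ref (nat_lit 327) k0 [(z1,[z0,z1]),(z1,
    [z1,z0,z1,y1]),(z1,[z0,y1,y1,z1])],.ref (nat_lit 201) k0 [(z1,[z0,z1]),(z1,[z1,y1]),(z1,[z0,y1,y1,z1])],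
    .ref (nat_lit 328) k4 [(z1,[y1,z1,z1]),(z1,[z1,z0,y1]),(z1,[z0,z0,z1])],.ref (nat_lit 257) k0 [(z1,[z0,z1]),(z1,
    [y1,z1,z1]),(z1,[z0,y1,y1,z1])],.ref (nat_lit 329) k6 [(z1,[y2,y1,y1,z1]),(z1,[y1,z0,z1]),(z1,[z1])],
    .ref (nat_lit 328) k4 [(z1,[y1,z0,y1,z1]),(z1,[z1,z1,z1,y1]),(z1,[z0,z0,z1])],.ref (nat_lit 229) k6 [(z1,[y1,y1,
    y1,z1]),(z1,[y1,z0,z2]),(z1,[z1])],.ref (nat_lit 330) k6 [(z1,[y2,y1,y3,z3]),(z1,[y1,z1,z3]),(z1,[z1,y1])],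
    .ref (nat_lit 257) k0 [(z1,[z0,z1]),(z2,[z1,z1,z1,y1]),(z1,[z0,y1,y1,z1])],.ref (nat_lit 257) k0 [(z1,[z0,z1]),
    (z1,[z1,z0,y1]),(z1,[z0,y1,y1,z1])],.ref (nat_lit 336) k4 [(z1,[z1,z0,y2]),(z1,[y1,z1,z2]),(z1,[z0,z0,z1])],
    .ref (nat_lit 342) k3 [(z1,[z1,z0,z2,y2]),(z1,[z0,z0,y1,z1]),(z1,[y2,z1,y2,z4])],.ref (nat_lit 330) k6 [(z1,[z2,
    y1,y3,z1]),(z1,[z1,z1,z3,y1]),(z1,[y1,y1,z0,z1])],.ref (nat_lit 345) k0 [(z1,[z0,z1]),(z1,[z1,z1,z1,y1]),(z1,[z0,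
    y1,y1,z1])],.ref (nat_lit 201) k0 [(z1,[z0,z1]),(z1,[y1,z0,z2]),(z1,[z0,y1,y1,z1])],.ref (nat_lit 328) k4 [(z1,
    [z1,z0,y1]),(z1,[y1,z1,z1]),(z1,[z0,z0,z1])],.ref (nat_lit 201) k0 [(z1,[z0,z1]),(z1,[y1,y1,z0,z1]),(z1,[z0,y1,y1,
    z1])],.ref (nat_lit 329) k6 [(z1,[z2,y1,y1,y1]),(z1,[z1,z0,z1,y1]),(z1,[y1,z0,z0,z1])],.ref (nat_lit 328) k4 [(z1,
    [z1,z1,z1,y1]),(z1,[y1,z0,y1,z1]),(z1,[z0,z0,z1])],.ref (nat_lit 238) k0 [(z1,[z0,z1]),(z1,[y1,z0,z2]),(z1,[z0,y1,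
    y1,z1])],.ref (nat_lit 327) k0 [(z1,[z0,z1]),(z1,[y1,z0,z1]),(z1,[z0,y1,y1,z1])]],
    .leafM k0 [k2,k3,k4,k5,k0,k1] [(z1,[y1,y1,y1,z0,z1])] [],
    .lp [(nat_lit 1756973120),(nat_lit 1921689350),(nat_lit 1811878530),(nat_lit 1647162300),(nat_lit 1771737600),
    (nat_lit 1625200136)] [(nat_lit 82358115),(nat_lit 82358115),k0,k0,(nat_lit 54905410),(nat_lit 54905410),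
    (nat_lit 137263525),(nat_lit 137263525),(nat_lit 74975875),(nat_lit 74975875),(nat_lit 148244607),
    (nat_lit 148244607)] k0 [[k0,k0,k0,k0,k0,k0,k0,k0,(nat_lit 142457280)],[k0,k0,k0,(nat_lit 164716230),k0,
    (nat_lit 109810820)],[(nat_lit 164716230),k0,k0,k0,k0,k0,k0,k0,k0,k0,(nat_lit 164716230)],[k0,k0,k0,k0,k0,k0,k0,
    k0,k0,(nat_lit 121170560)],[(nat_lit 109810820),k0,k0,k0,k0,k0,k0,k0,(nat_lit 87848656)],[k0,k0,k0,k0,k0,k0,k0,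
    (nat_lit 197659476),k0,k0,k0,(nat_lit 54905410)],[k0,k0,k0,k0,(nat_lit 197659476)],[k0,k0,k0,k0,k0,k0,k0,k0,k0,k0,
    k0,(nat_lit 307470296)],[k0,k0,(nat_lit 121170560),k0,k0,k0,k0,k0,k0,k0,(nat_lit 429028320)],[k0,
    (nat_lit 142457280),k0,k0,k0,(nat_lit 87848656)],[k0,k0,k0,k0,(nat_lit 54905410),k0,(nat_lit 307470296)],[k0,k0,
    k0,(nat_lit 164716230),k0,k0,k0,k0,k0,(nat_lit 429028320)]] (nat_lit 5270919360) k5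
    [[(k8,(nat_lit 1335327040)),(k2,(nat_lit 1674615005)),(k10,(nat_lit 1691086628)),(k0,(nat_lit 1756973120)),(k4,
    (nat_lit 1839331235)),(k6,(nat_lit 2009538006))],[(k11,(nat_lit 1548629348)),(k1,(nat_lit 1756973120)),(k9,
    (nat_lit 1764355360)),(k7,(nat_lit 1811878530)),(k3,(nat_lit 1839331235)),(k5,(nat_lit 1949142055))],[(k2,
    (nat_lit 1756973120)),(k4,(nat_lit 1756973120)),(k10,(nat_lit 1773444743)),(k6,(nat_lit 1784425825)),(k0,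
    (nat_lit 1839331235)),(k8,(nat_lit 1989170755))],[(k1,(nat_lit 1674615005)),(k3,(nat_lit 1756973120)),(k7,
    (nat_lit 1784425825)),(k9,(nat_lit 1846713475)),(k5,(nat_lit 1866783940)),(k11,(nat_lit 1894615303))],[(k8,
    (nat_lit 1670637505)),(k6,(nat_lit 1729520415)),(k4,(nat_lit 1811878530)),(k2,(nat_lit 1866783940)),(k10,
    (nat_lit 1883255563)),(k0,(nat_lit 1949142055))],[(k11,(nat_lit 1630690677)),(k7,(nat_lit 1729520415)),(k3,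
    (nat_lit 1756973120)),(k5,(nat_lit 1811878530)),(k1,(nat_lit 1839331235)),(k9,(nat_lit 1989467541))],[(k6,
    (nat_lit 1449502824)),(k10,(nat_lit 1581275808)),(k4,(nat_lit 1729520415)),(k2,(nat_lit 1784425825)),(k8,
    (nat_lit 1797298606)),(k0,(nat_lit 1811878530))],[(k7,(nat_lit 1449502824)),(k11,(nat_lit 1636181218)),(k9,
    (nat_lit 1709449950)),(k5,(nat_lit 1729520415)),(k3,(nat_lit 1784425825)),(k1,(nat_lit 2009538006))],[(k10,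
    (nat_lit 1390998572)),(k6,(nat_lit 1709449950)),(k0,(nat_lit 1764355360)),(k8,(nat_lit 1771737600)),(k2,
    (nat_lit 1846713475)),(k4,(nat_lit 1989467541))],[(k1,(nat_lit 1335327040)),(k5,(nat_lit 1670637505)),(k11,
    (nat_lit 1698468868)),(k9,(nat_lit 1771737600)),(k7,(nat_lit 1797298606)),(k3,(nat_lit 1989170755))],[(k0,
    (nat_lit 1548629348)),(k4,(nat_lit 1630690677)),(k6,(nat_lit 1636181218)),(k8,(nat_lit 1698468868)),(k2,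
    (nat_lit 1894615303)),(k10,(nat_lit 2054228456))],[(k9,(nat_lit 1390998572)),(k7,(nat_lit 1581275808)),(k1,
    (nat_lit 1691086628)),(k3,(nat_lit 1773444743)),(k5,(nat_lit 1883255563)),(k11,(nat_lit 2054228456))]]
    [] k0
    [[k2,k0,k0,k0,k1,k0],[k2,k0,k0,k0,k0,k1],[k1,k1,k0,k0,k0,k1],[k1,k0,k0,k1,k0,k1],[k1,k1,k0,k0,k1,k0],[k1,k0,k0,k1,
    k1,k0],[k1,k0,k0,k0,k2,k0],[k1,k0,k0,k0,k1,k1],[k0,k1,k0,k2,k0,k0],[k0,k1,k0,k1,k0,k1],[k0,k0,k1,k2,k0,k0],[k0,k0,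
    k1,k1,k0,k1],[k0,k0,k1,k1,k1,k0],[k0,k0,k1,k0,k1,k1],[k0,k0,k0,k3,k0,k0],[k0,k0,k0,k2,k1,k0],[k0,k0,k0,k2,k0,k1],
    [k0,k0,k0,k1,k1,k1],[k0,k0,k0,k0,k2,k1],[k0,k0,k0,k0,k1,k2]]
    [.ref k12 k0 [(z2,[z3,z3,z1,z3,z3,y3]),(z8,[y3,z3,z7,y3,y3,z3]),(z4,[y3,z3,y1,z9,y3,z3]),(z4,[y3,z3,y1,y3,z9,z3]),
    (z1,[z0,y3,y1,y3,y3,z3])],.ref k12 k0 [(z3,[z4,z1]),(z3,[y1,z2,z3]),(z3,[y2,z4,z0,z9]),(z3,[y2,z4,z0,z0,z9]),(z1,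
    [z0,y3,y1,y3,y3,z3])],.ref k12 k0 [(z1,[z3,z0,y1]),(z4,[y3,z3,z5]),(z2,[y3,z3,z1,z6]),(z2,[y3,z3,z1,z0,z6]),(z1,
    [z0,y3,y1,y3,y3,z3])],.ref k12 k0 [(z1,[z4,y1,z0,z0,y4]),(z1,[y1,z1,z1,z0,z1]),(z1,[y2,z2,z0,z3,z2]),(z1,[y2,z2,
    z0,z0,z5]),(z1,[z0,y3,y1,y3,y3,z3])],.ref k12 k0 [(z1,[z4,z3,z0,z4,z4,y4]),(z1,[y1,z0,z1,y1,y1,z1]),(z1,[y2,z0,z0,
    z1,y2,z2]),(z1,[y2,z0,z0,y2,z1,z2]),(z1,[z0,y3,y1,y3,y3,z3])],.ref k12 k0 [(z1,[z6,z3,z2,z6,z0,y6]),(z2,[y3,z0,z1,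
    y3,z0,z3]),(z1,[y3,z0,y1,z0,z0,z3]),(z1,[y3,z0,y1,y3,z3,z3]),(z1,[z0,y3,y1,y3,y3,z3])],.ref k12 k0 [(z1,[z3,z6,z2,
    z6,z6,y6]),(z4,[y3,y3,z2,y6,y6,z6]),(z2,[y3,y3,y2,z0,y6,z6]),(z2,[y3,y3,y2,y6,z0,z6]),(z1,[z0,y3,y1,y3,y3,z3])],
    .ref k12 k0 [(z5,[z12,z15,z4,z12,z12,y12]),(z5,[y3,z0,z4,y3,y3,z3]),(z5,[y6,z0,y2,z9,y6,z6]),(z5,[y6,z0,y2,y6,z9,
    z6]),(z1,[z0,y3,y1,y3,y3,z3])],.ref k12 k0 [(z5,[y12,z15,z4,z0,z24]),(z5,[z3,z0,z4,z0,y6]),(z5,[z6,z0,y2,z15,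
    y12]),(z5,[z6,z0,y2,z0,z3]),(z1,[z0,y3,y1,y3,y3,z3])],.ref k12 k0 [(z1,[y6,z3,z2,z0,z6]),(z2,[z3,z0,z1,z0,y3]),
    (z1,[z3,z0,y1,z3,y3]),(z1,[z3,z0,y1]),(z1,[z0,y3,y1,y3,y3,z3])],.ref k12 k0 [(z1,[y2,z3,z0,z2,z4]),(z2,[z1,z0,z2,
    y1,y2]),(z1,[z1,z0,z0,z2,y2]),(z1,[z1,z0,z0,y1,z1]),(z1,[z0,y3,y1,y3,y3,z3])],.ref k12 k0 [(z1,[y4,z3,z0,z4,z4]),
    (z1,[z1,z0,z1,y1,y1]),(z1,[z2,z0,z0,z1,y2]),(z1,[z2,z0,z0,y2,z1]),(z1,[z0,y3,y1,y3,y3,z3])],.ref k12 k0 [(z1,[y3,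
    z0,y1,z0,z0,z3]),(z4,[z3,z3,z5,z0,z0,y3]),(z2,[z3,z3,z1,z6,z0,y3]),(z2,[z3,z3,z1,z0,z6,y3]),(z1,[z0,y3,y1,y3,y3,
    z3])],.ref k12 k0 [(z1,[y12,y9,y4,z0,y12,z12]),(z1,[z3,z3,z2,z0,z3,y3]),(z1,[z6,z6,z2,z3,z6,y6]),(z1,[z6,z6,z2,z0,
    z9,y6]),(z1,[z0,y3,y1,y3,y3,z3])],.ref k12 k0 [(z1,[y2,z3,z0,z0,z6]),(z2,[z1,z0,z2,z0,y3]),(z1,[z1,z0,z0,z3,y3]),
    (z1,[z1]),(z1,[z0,y3,y1,y3,y3,z3])],.ref k12 k0 [(z1,[y3,z0,y1,y3,z3,z3]),(z4,[z3,z3,z5,z3,y3,y3]),(z2,[z3,z3,z1,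
    z9,y3,y3]),(z2,[z3,z3,z1,z3,z3,y3]),(z1,[z0,y3,y1,y3,y3,z3])],.ref k12 k0 [(z1,[y4,z3,z0,z0,z8]),(z1,[z1,z0,z1,z0,
    y2]),(z1,[z2,z0,z0,z3,y4]),(z1,[z2,z0,z0,z0,y1]),(z1,[z0,y3,y1,y3,y3,z3])],.ref k12 k0 [(z1,[y12,y9,y4,y12,z0,
    z12]),(z1,[z3,z3,z2,z3,z0,y3]),(z1,[z6,z6,z2,z9,z0,y6]),(z1,[z6,z6,z2,z6,z3,y6]),(z1,[z0,y3,y1,y3,y3,z3])],
    .ref k12 k0 [(z1,[z12,z27,z8,z24,z24,y24]),(z1,[y3,y6,y1,y6,y6,z6]),(z1,[y6,y12,y4,y9,y12,z12]),(z1,[y6,y12,y4,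
    y12,y9,z12]),(z1,[z0,y3,y1,y3,y3,z3])],.ref k12 k0 [(z1,[z6,z9,z2,z6,z6,y6]),(z2,[y3,y3,z1,y3,y3,z3]),(z1,[y3,y3,
    y1,z0,y3,z3]),(z1,[y3,y3,y1,y3,z0,z3]),(z1,[z0,y3,y1,y3,y3,z3])]],
    .lp [k168,k170,k154,k164,k140,k162] [k1,k1,k0,k0,k8,k8,k3,k3,k15,k15,k4,k4] k0 [[k0,k0,k0,k0,k0,k0,k0,k0,k4,k0,k8],
    [k0,k0,k0,k0,k0,k0,k0,k8],[k0,k0,k0,k0,k8,k0,k0,k0,k0,k0,k10],[k0,k0,k0,k0,k0,k0,k0,k0,k0,k4],[k0,k0,k0,k0,k0,k0,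
    k12],[k0,k0,k0,k8],[k8],[k0,k0,k0,k0,k0,k12],[k0,k0,k4],[k0,k4,k0,k0,k0,k0,k0,k0,k0,k0,k0,k8],[k0,k0,k0,k0,k0,k0,
    k0,k0,k8],[k0,k8,k0,k10]] (nat_lit 480) k5
    [[(k2,k159),(k0,k160),(k4,k161),(k8,k162),(k10,k165),(k6,k166)],[(k1,k160),(k5,k161),(k11,k161),(k9,k162),(k7,
    k166),(k3,k169)],[(k6,k159),(k8,k159),(k4,k162),(k0,k169),(k2,k170),(k10,k174)],[(k9,k155),(k1,k159),(k7,k159),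
    (k5,k162),(k3,k170),(k11,k170)],[(k8,k143),(k6,k159),(k0,k161),(k2,k162),(k4,k162),(k10,k168)],[(k9,k135),(k11,
    k158),(k7,k159),(k1,k161),(k3,k162),(k5,k162)],[(k8,k152),(k2,k159),(k4,k159),(k10,k163),(k0,k166),(k6,k176)],
    [(k9,k152),(k3,k159),(k5,k159),(k11,k163),(k1,k166),(k7,k176)],[(k4,k135),(k8,k140),(k10,k151),(k6,k152),(k2,
    k155),(k0,k162)],[(k9,k140),(k5,k143),(k11,k151),(k7,k152),(k3,k159),(k1,k162)],[(k8,k151),(k10,k154),(k4,k158),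
    (k0,k161),(k6,k163),(k2,k170)],[(k9,k151),(k11,k154),(k7,k163),(k1,k165),(k5,k168),(k3,k174)]]
    [] k0
    [[k1,k0,k1,k0,k1,k0],[k1,k0,k0,k0,k2,k0],[k1,k0,k0,k0,k1,k1],[k0,k1,k1,k0,k1,k0],[k0,k1,k0,k1,k1,k0],[k0,k1,k0,k0,
    k2,k0],[k0,k0,k2,k0,k1,k0],[k0,k0,k1,k1,k1,k0],[k0,k0,k1,k0,k2,k0],[k0,k0,k1,k0,k1,k1],[k0,k0,k0,k1,k2,k0],[k0,k0,
    k0,k1,k1,k1],[k0,k0,k0,k0,k3,k0],[k0,k0,k0,k0,k2,k1],[k0,k0,k0,k0,k1,k2],[k0,k0,k0,k0,k0,k3]]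
    [.ref k12 k0 [(z1,[y4,z3,y4,z0,y4,z4]),(z1,[y4,z0,y1,z0,y4,z4]),(z1,[y1,z0,y1,z3,y1,z1]),(z1,[z2,z0,z2,z0,z5,y2]),
    (z1,[z8,y3,z5,y3,z5,y5])],.ref k12 k0 [(z1,[y1,z2,y2,y2,y2,z2]),(z1,[y1,y1,z1,y2,y2,z2]),(z4,[y1,y1,y2,z10,y2,
    z2]),(z2,[z1,z1,z2,z2,z8,y2]),(z1,[z2,y1,z1,z1,z1,y1])],.ref k12 k0 [(z1,[y4,z3,y4,y4,y4,z4]),(z1,[y4,z0,y1,y4,y4,
    z4]),(z1,[y1,z0,y1,z2,y1,z1]),(z1,[z2,z0,z2,z2,z5,y2]),(z1,[z8,y3,z5,z5,z5,y5])],.ref k12 k0 [(z1,[y4,y1,z0,z0,y4,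
    z4]),(z1,[y4,y4,z3,z0,y4,z4]),(z1,[y1,y1,z0,z3,y1,z1]),(z1,[z2,z2,z0,z0,z5,y2]),(z1,[z8,z5,y3,y3,z5,y5])],
    .ref k12 k0 [(z1,[y2,z1,z0,y2,z0,z2]),(z1,[y2,y2,z3,y2,z0,z2]),(z2,[y1,y1,z0,z5,z0,z1]),(z1,[z1,z1,z0,z1,z3,y1]),
    (z1,[z4,z1,y3,z1,y3,y1])],.ref k12 k0 [(z1,[y1,z1,y1,y2,y2,z2]),(z1,[y1,y2,z2,y2,y2,z2]),(z4,[y1,y2,y1,z10,y2,
    z2]),(z2,[z1,z2,z1,z2,z8,y2]),(z1,[z2,z1,y1,z1,z1,y1])],.ref k12 k0 [(z1,[y2,z1,y2,z2,y2,z2]),(z1,[y2,y2,z1,z2,y2,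
    z2]),(z2,[y1,y1,y1,z7,y1,z1]),(z1,[z1,z1,z1,y1,z4,y1]),(z1,[z4,z1,z1,y7,z1,y1])],.ref k12 k0 [(z3,[y4,z5,y4,z0,z0,
    z4]),(z3,[y4,y4,z5,z0,z0,z4]),(z3,[y1,y1,y1,z9,z0,z1]),(z3,[z2,z2,z2,z0,z9,y2]),(z3,[z8,y1,y1,y9,y9,z1])],
    .ref k12 k0 [(z5,[y4,z7,y8,y4,y8,z8]),(z5,[y4,y8,z7,y4,y8,z8]),(z5,[y1,y2,y2,z14,y2,z2]),(z5,[z2,z4,z4,z2,z19,
    y4]),(z5,[z8,z1,z1,y7,z1,y1])],.ref k12 k0 [(z1,[y2,z1,y2,z0,y2,z2]),(z1,[y2,y2,z1,z0,y2,z2]),(z2,[y1,y1,y1,z6,y1,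
    z1]),(z1,[z1,z1,z1,z0,z4,y1]),(z1,[z4,z1,z1,y3,z1,y1])],.ref k12 k0 [(z3,[y2,z5,y4,y4,y2,z4]),(z3,[y2,y4,z5,y4,y2,
    z4]),(z6,[y1,y2,y2,z16,y1,z2]),(z3,[z1,z2,z2,z2,z10,y2]),(z3,[z4,y1,y1,y1,y5,z1])],.ref k12 k0 [(z3,[y4,z5,y4,y4,
    z0,z4]),(z3,[y4,y4,z5,y4,z0,z4]),(z3,[y1,y1,y1,z8,z0,z1]),(z3,[z2,z2,z2,z2,z9,y2]),(z3,[z8,y1,y1,y1,y9,z1])],
    .ref k12 k0 [(z2,[y1,z3,y3,y3,y3,z3]),(z2,[y1,y3,z3,y3,y3,z3]),(z8,[y1,y3,y3,z21,y3,z3]),(z4,[z1,z3,z3,z3,z15,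
    y3]),(z1,[z1])],.ref k12 k0 [(z5,[y4,z7,y8,y8,y8,z8]),(z5,[y4,y8,z7,y8,y8,z8]),(z5,[y1,y2,y2,z13,y2,z2]),(z5,[z2,
    z4,z4,z4,z19,y4]),(z5,[z8,z1,z1,z1,z1,y1])],.ref k12 k0 [(z1,[y2,z1,y2,y2,y2,z2]),(z1,[y2,y2,z1,y2,y2,z2]),(z2,
    [y1,y1,y1,z5,y1,z1]),(z1,[z1,z1,z1,z1,z4,y1]),(z1,[z4,z1,z1,z1,z1,y1])],.ref k12 k0 [(z1,[z4,z3]),(z1,[z4,z0,z3]),
    (z1,[z1,z0,z0,z3]),(z1,[y2,z0,z0,z0,z3]),(z1,[y8,y3,y3,y3,y3,z3])]],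
    .lp [k168,k170,k154,k164,k140,k162] [k1,k1,k0,k0,k8,k8,k3,k3,k15,k15,k4,k4] k0 [[k0,k0,k0,k0,k0,k0,k0,k0,k4,k0,k8],
    [k0,k0,k0,k0,k0,k0,k0,k8],[k0,k0,k0,k0,k8,k0,k0,k0,k0,k0,k10],[k0,k0,k0,k0,k0,k0,k0,k0,k0,k4],[k0,k0,k0,k0,k0,k0,
    k12],[k0,k0,k0,k8],[k8],[k0,k0,k0,k0,k0,k12],[k0,k0,k4],[k0,k4,k0,k0,k0,k0,k0,k0,k0,k0,k0,k8],[k0,k0,k0,k0,k0,k0,
    k0,k0,k8],[k0,k8,k0,k10]] (nat_lit 480) k5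
    [[(k2,k159),(k0,k160),(k4,k161),(k8,k162),(k10,k165),(k6,k166)],[(k1,k160),(k5,k161),(k11,k161),(k9,k162),(k7,
    k166),(k3,k169)],[(k6,k159),(k8,k159),(k4,k162),(k0,k169),(k2,k170),(k10,k174)],[(k9,k155),(k1,k159),(k7,k159),
    (k5,k162),(k3,k170),(k11,k170)],[(k8,k143),(k6,k159),(k0,k161),(k2,k162),(k4,k162),(k10,k168)],[(k9,k135),(k11,
    k158),(k7,k159),(k1,k161),(k3,k162),(k5,k162)],[(k8,k152),(k2,k159),(k4,k159),(k10,k163),(k0,k166),(k6,k176)],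
    [(k9,k152),(k3,k159),(k5,k159),(k11,k163),(k1,k166),(k7,k176)],[(k4,k135),(k8,k140),(k10,k151),(k6,k152),(k2,
    k155),(k0,k162)],[(k9,k140),(k5,k143),(k11,k151),(k7,k152),(k3,k159),(k1,k162)],[(k8,k151),(k10,k154),(k4,k158),
    (k0,k161),(k6,k163),(k2,k170)],[(k9,k151),(k11,k154),(k7,k163),(k1,k165),(k5,k168),(k3,k174)]]
    [] k0
    [[k1,k0,k1,k0,k1,k0],[k1,k0,k0,k0,k2,k0],[k1,k0,k0,k0,k1,k1],[k0,k1,k1,k0,k1,k0],[k0,k1,k0,k1,k1,k0],[k0,k1,k0,k0,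
    k2,k0],[k0,k0,k2,k0,k1,k0],[k0,k0,k1,k1,k1,k0],[k0,k0,k1,k0,k2,k0],[k0,k0,k1,k0,k1,k1],[k0,k0,k0,k1,k2,k0],[k0,k0,
    k0,k1,k1,k1],[k0,k0,k0,k0,k3,k0],[k0,k0,k0,k0,k2,k1],[k0,k0,k0,k0,k1,k2],[k0,k0,k0,k0,k0,k3]]
    [.ref (nat_lit 236) k0 [(z1,[z0,z1]),(z1,[y1,z1,z1,z1]),(z1,[z0,z0,z0,z1]),(z1,[z0,y1,y1,y1,z1])],
    .ref (nat_lit 236) k0 [(z1,[z0,z1]),(z2,[y1,z1,z2]),(z1,[z0,z0,z0,z1]),(z1,[z0,y1,y1,y1,z1])],.ref k197 k0 [(z1,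
    [z0,z1]),(z1,[y1,z1,z1]),(z1,[z0,z0,z0,z1]),(z1,[z0,y1,y1,y1,z1])],.ref k122 k4 [(z1,[y1,z0,z1,z1]),(z1,[y4,z3,z4,
    z4]),(z1,[z1,z0,z2,y1]),(z1,[z2,z0,y2,z1])],.ref k122 k4 [(z1,[y1,y1,z0,y1,z1]),(z1,[y4,y1,z0,y4,z4]),(z1,[z1,z1,
    z3,z1,y1]),(z1,[z2,z2,z0,z5,y2])],.ref k179 k0 [(z1,[z0,z1]),(z1,[y1,z0,z2]),(z1,[z0,z0,z0,z1]),(z1,[z0,y1,y1,y1,
    z1])],.ref (nat_lit 347) k9 [(z1,[z1,z0,z0,y2]),(z1,[z0,y1,y1,y1,z1]),(z1,[z0,z0,z0,z1]),(z1,[y1,z0,z1,z2])],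
    .ref (nat_lit 347) k9 [(z1,[z1,z1,z1,z0,y1]),(z1,[z0,y1,y1,y1,z1]),(z1,[z0,z0,z0,z1]),(z1,[y1,y1,z0,z0,z1])],
    .ref k179 k0 [(z1,[z0,z1]),(z2,[y1,z0,z2,z1]),(z1,[z0,z0,z0,z1]),(z1,[z0,y1,y1,y1,z1])],.ref k179 k0 [(z1,[z0,
    z1]),(z1,[y1,z0,z1,z1]),(z1,[z0,z0,z0,z1]),(z1,[z0,y1,y1,y1,z1])],.ref k179 k0 [(z1,[z0,z1]),(z2,[y1,y1,z1,y1,
    z1]),(z1,[z0,z0,z0,z1]),(z1,[z0,y1,y1,y1,z1])],.ref k179 k0 [(z1,[z0,z1]),(z1,[y1,y1,z0,y1,z1]),(z1,[z0,z0,z0,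
    z1]),(z1,[z0,y1,y1,y1,z1])],.ref (nat_lit 348) k0 [(z1,[z0,z1]),(z1,[y1,z0,z3]),(z1,[z0,z0,z0,z1]),(z1,[z0,y1,y1,
    y1,z1])],.ref (nat_lit 349) k6 [(z1,[z2,z0,y4,z1]),(z1,[z2,y1,y5,y1,z1]),(z1,[z1,z0,y1]),(z1,[y1,z0,z2])],
    .ref (nat_lit 236) k0 [(z1,[z0,z1]),(z1,[y1,z0,z1]),(z1,[z0,z0,z0,z1]),(z1,[z0,y1,y1,y1,z1])],.ref k122 k4 [(z1,
    [z1]),(z1,[z4,z3]),(z1,[y1,z0,z3]),(z1,[y2,z0,z0,z3])]],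
    .leafM k0 [k2,k3,k4,k5,k0,k1] [(z2,[y1,y2,y1,z2])] [],
    .leafM k0 [k1,k2,k3,k4,k5,k0] [(z1,[y1,y1,z0,z1])] [],
    .lp [k166,k170,k170,k160,k126,k166] [k2,k2,k0,k0,k0,k0,k5,k5,k22,k22,k2,k2] k0 [[k0,k0,k0,k0,k12,k0,k0,k0,k18],[k0,k0,
    k0,k0,k0,k0,k0,k2],[k0,k0,k0,k0,k14,k0,k0,k0,k0,k0,k2],[k0,k0,k0,k0,k0,k0,k0,k18],[k0,k0,k0,k0,k0,k0,k0,k0,k0,k0,
    k6],[k0,k12,k0,k14],[k2,k0,k18],[],[],[k0,k18],[],[k0,k0,k0,k2,k0,k6]] (nat_lit 480) k5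
    [[(k8,k146),(k4,k162),(k6,k163),(k0,k166),(k2,k166),(k10,k166)],[(k9,k148),(k11,k148),(k7,k151),(k1,k166),(k3,
    k168),(k5,k168)],[(k6,k163),(k8,k166),(k0,k168),(k10,k168),(k2,k170),(k4,k182)],[(k7,k151),(k1,k166),(k9,k166),
    (k11,k168),(k3,k170),(k5,k170)],[(k6,k147),(k8,k148),(k0,k168),(k2,k170),(k10,k170),(k4,k184)],[(k9,k148),(k1,
    k162),(k7,k165),(k11,k168),(k3,k182),(k5,k184)],[(k8,k143),(k0,k151),(k2,k151),(k6,k160),(k4,k165),(k10,k169)],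
    [(k9,k143),(k5,k147),(k7,k160),(k1,k163),(k3,k163),(k11,k163)],[(k8,k126),(k6,k143),(k10,k146),(k0,k148),(k4,
    k148),(k2,k166)],[(k9,k126),(k7,k143),(k1,k146),(k11,k146),(k5,k148),(k3,k166)],[(k8,k146),(k0,k148),(k6,k163),
    (k10,k166),(k2,k168),(k4,k168)],[(k9,k146),(k1,k166),(k11,k166),(k3,k168),(k7,k169),(k5,k170)]]
    [] k0
    [[k2,k0,k0,k0,k1,k0],[k1,k0,k1,k1,k0,k0],[k1,k0,k1,k0,k1,k0],[k1,k0,k0,k2,k0,k0],[k1,k0,k0,k1,k1,k0],[k1,k0,k0,k0,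
    k2,k0],[k1,k0,k0,k0,k1,k1],[k0,k1,k0,k2,k0,k0],[k0,k1,k0,k1,k1,k0],[k0,k1,k0,k0,k2,k0],[k0,k0,k1,k2,k0,k0],[k0,k0,
    k1,k1,k1,k0],[k0,k0,k1,k0,k2,k0],[k0,k0,k1,k0,k1,k1],[k0,k0,k0,k2,k1,k0],[k0,k0,k0,k1,k2,k0],[k0,k0,k0,k1,k1,k1],
    [k0,k0,k0,k0,k3,k0],[k0,k0,k0,k0,k2,k1],[k0,k0,k0,k0,k1,k2]]
    [.ref k22 k0 [(z1,[z0,z1]),(z1,[y3,z2,z1]),(z1,[z0,z0,z0,z1]),(z1,[z0,y1,y1,y1,z3])],.ref k122 k4 [(z1,[y3,z0,y1,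
    z0,z3]),(z1,[z0,z1]),(z1,[z0,z0,z1]),(z1,[z0,z0,z0,z1])],.ref k22 k0 [(z1,[z0,z1]),(z1,[y3,z1,z1,z1]),(z1,[z0,z0,
    z0,z1]),(z1,[z0,y1,y1,y1,z3])],.ref k122 k4 [(z2,[y3,y1,y2,y2,z6]),(z1,[z0,z1]),(z1,[z0,z0,z1]),(z1,[z0,z0,z0,
    z1])],.ref (nat_lit 344) k10 [(z3,[y3,z1,z1]),(z1,[z0,z1]),(z1,[z0,y1,y1,y1,z3]),(z1,[z3,y1])],.ref k22 k0 [(z1,
    [z0,z1]),(z2,[y3,z1,z2]),(z1,[z0,z0,z0,z1]),(z1,[z0,y1,y1,y1,z3])],.ref (nat_lit 344) k3 [(z3,[y3,z1,z1]),(z1,[z0,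
    z0,z0,z1]),(z1,[z0,y1,y1,y1,z3]),(z1,[z3,y1])],.ref k195 k3 [(z1,[z3,z2,z2,z2,y6]),(z1,[z0,z0,z0,z1]),(z1,[z0,y1,
    y1,y1,z3]),(z3,[y3,y2,y1,y2,z6])],.ref k122 k4 [(z1,[y3,y1,z0,y1,z3]),(z1,[z0,z1]),(z1,[z0,z0,z1]),(z1,[z0,z0,z0,
    z1])],.ref k22 k0 [(z1,[z0,z1]),(z1,[y3,z0,z2]),(z1,[z0,z0,z0,z1]),(z1,[z0,y1,y1,y1,z3])],.ref k122 k4 [(z2,[y3,
    y2,y2,y1,z6]),(z1,[z0,z1]),(z1,[z0,z0,z1]),(z1,[z0,z0,z0,z1])],.ref (nat_lit 344) k10 [(z3,[y3,z0,z1,z1]),(z1,[z0,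
    z1]),(z1,[z0,y1,y1,y1,z3]),(z1,[z3,z0,z0,y1])],.ref k22 k0 [(z1,[z0,z1]),(z2,[y3,z0,z2,z1]),(z1,[z0,z0,z0,z1]),
    (z1,[z0,y1,y1,y1,z3])],.ref (nat_lit 344) k3 [(z3,[y3,z0,z1,z1]),(z1,[z0,z0,z0,z1]),(z1,[z0,y1,y1,y1,z3]),(z1,[z3,
    z0,z0,y1])],.ref k195 k10 [(z1,[y3,z0,z1]),(z1,[z0,z1]),(z1,[z0,y1,y1,y1,z3]),(z1,[z1])],
    .ref (nat_lit 231) k7 [(z1,[z3,z0,y2]),(z1,[z0,z0,z1]),(z3,[y3,y1,z1,y1,z3]),(z1,[z0,z1])],.ref k22 k0 [(z1,[z0,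
    z1]),(z1,[y3,y1,z0,y1,z3]),(z1,[z0,z0,z0,z1]),(z1,[z0,y1,y1,y1,z3])],.ref k22 k0 [(z1,[z0,z1]),(z1,[y1,z0,z1]),
    (z1,[z0,z0,z0,z1]),(z1,[z0,y1,y1,y1,z3])],.ref (nat_lit 231) k1 [(z1,[z3,z0,y2]),(z1,[z0,z0,z1]),(z3,[y3,y1,z1,y1,
    z3]),(z1,[z0,z0,z0,z1])],.ref k195 k3 [(z1,[y3,z0,z1]),(z1,[z0,z0,z0,z1]),(z1,[z0,y1,y1,y1,z3]),(z1,[z1])]],
    .lp [k160,k160,k168,k162,k156,k152] [k4,k4,k4,k4,k0,k0,k3,k3,k6,k6,k8,k8] k0 [[k0,k0,k0,k0,k0,k0,k16,k0,k10],[],[],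
    [k0,k0,k0,k0,k0,k6,k0,k12],[k0,k0,k6],[k0,k0,k0,k0,k0,k0,k0,k0,k0,k0,k0,k10],[k0,k0,k12,k0,k0,k0,k0,k0,k0,k0,k2],
    [k0,k16],[k0,k0,k0,k0,k0,k0,k0,k0,k0,k0,k26],[k0,k10],[k0,k0,k0,k0,k10],[k0,k0,k0,k0,k0,k0,k0,k2,k0,
    k26]] (nat_lit 480) k5
    [[(k8,k132),(k10,k156),(k6,k159),(k0,k160),(k2,k160),(k4,k174)],[(k9,k142),(k11,k146),(k1,k160),(k3,k160),(k7,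
    k161),(k5,k164)],[(k10,k156),(k0,k160),(k2,k160),(k4,k164),(k8,k168),(k6,k177)],[(k11,k156),(k1,k160),(k3,k160),
    (k5,k164),(k7,k167),(k9,k170)],[(k6,k153),(k10,k160),(k4,k162),(k8,k162),(k0,k164),(k2,k164)],[(k11,k160),(k5,
    k162),(k9,k162),(k3,k164),(k7,k165),(k1,k174)],[(k10,k147),(k8,k159),(k0,k161),(k6,k162),(k4,k165),(k2,k167)],
    [(k5,k153),(k11,k157),(k1,k159),(k9,k159),(k7,k162),(k3,k177)],[(k0,k142),(k8,k156),(k10,k156),(k6,k159),(k4,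
    k162),(k2,k170)],[(k1,k132),(k11,k154),(k9,k156),(k7,k159),(k5,k162),(k3,k168)],[(k0,k146),(k8,k154),(k2,k156),
    (k6,k157),(k4,k160),(k10,k178)],[(k7,k147),(k1,k156),(k3,k156),(k9,k156),(k5,k160),(k11,k178)]]
    [] k0
    [[k2,k0,k0,k0,k1,k0],[k2,k0,k0,k0,k0,k1],[k1,k1,k0,k0,k1,k0],[k1,k1,k0,k0,k0,k1],[k1,k0,k1,k0,k1,k0],[k1,k0,k0,k1,
    k1,k0],[k1,k0,k0,k1,k0,k1],[k1,k0,k0,k0,k2,k0],[k1,k0,k0,k0,k1,k1],[k0,k2,k0,k0,k0,k1],[k0,k0,k1,k1,k1,k0],[k0,k0,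
    k1,k1,k0,k1],[k0,k0,k1,k0,k1,k1],[k0,k0,k0,k2,k0,k1],[k0,k0,k0,k1,k2,k0],[k0,k0,k0,k1,k1,k1],[k0,k0,k0,k0,k3,k0],
    [k0,k0,k0,k0,k2,k1]]
    [.ref k12 k0 [(z4,[z5,z7,z5,z5,z5,y5]),(z8,[y5,z5,z19,y5,y5,z5]),(z1,[y1,z1,y1,z2,y1,z1]),(z4,[y1,z1,y1,y1,z11,
    z1]),(z2,[z1,y7,y5,y5,y5,z5])],.ref k12 k0 [(z7,[z10,z1]),(z7,[y5,z10,z21]),(z7,[y8,z16,z0,z21]),(z7,[y2,z4,z0,z0,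
    z21]),(z7,[z4,y29,y21,y21,y21,z21])],.ref k12 k0 [(z3,[z10,z9,z0,z10,z10,y10]),(z3,[y5,z0,z9,y5,y5,z5]),(z3,[y8,
    z0,z0,z1,y8,z8]),(z3,[y2,z0,z0,y2,z7,z2]),(z3,[z4,y9,y9,y5,y5,z5])],.ref k12 k0 [(z1,[z5,y2,y5]),(z2,[y5,z5,z11]),
    (z1,[y4,z4,z4,z3]),(z1,[y1,z1,z1,z0,z3]),(z1,[z2,y5,y5,y3,y3,z3])],.ref k12 k0 [(z1,[z5,z3,z5,z0,z5,y5]),(z2,[y5,
    z0,z1,z0,y5,z5]),(z1,[y4,z0,y4,z3,y4,z4]),(z1,[y1,z0,y1,z0,z2,z1]),(z1,[z2,y3,y1,y3,y1,z1])],.ref k12 k0 [(z2,[z5,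
    z6,z5,z5,z0,y5]),(z4,[y5,z0,z7,y5,z0,z5]),(z1,[y2,z0,y2,z1,z0,z2]),(z2,[y1,z0,y1,y1,z6,z1]),(z1,[z1,y3,y2,y2,y3,
    z2])],.ref k12 k0 [(z3,[z10,y1,z0,z0,y10]),(z3,[y5,z5,z9,z0,z5]),(z3,[y8,z8,z0,z9,z8]),(z3,[y2,z2,z0,z0,z11]),(z3,
    [z4,y13,y9,y9,y13,z9])],.ref k12 k0 [(z3,[z5,z14,z10,z10,z10,y10]),(z6,[y5,y5,z8,y10,y10,z10]),(z3,[y4,y4,y8,z1,
    y8,z8]),(z3,[y1,y1,y2,y2,z7,z2]),(z3,[z2,y7,y5,y5,y5,z5])],.ref k12 k0 [(z1,[z2,z3,z2,z2,z2,y2]),(z1,[y1,z0,z2,y1,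
    y1,z1]),(z5,[y8,z0,y8,z7,y8,z8]),(z5,[y2,z0,y2,y2,z13,z2]),(z5,[z4,y15,y11,y11,y11,z11])],.ref k12 k0 [(z3,[y10,
    z9,z20]),(z3,[z5,z0,y1]),(z3,[z8,z0,y16,z9]),(z3,[z2,z0,y4,z0,z9]),(z3,[y4,y9,y1,y9,y9,z9])],.ref k12 k0 [(z1,[y5,
    y2,y5,z0,z0,z5]),(z2,[z5,z5,z11,z0,z0,y5]),(z1,[z4,z4,z4,z3,z0,y4]),(z1,[z1,z1,z1,z0,z3,y1]),(z1,[y2,y5,y5,y3,y3,
    z5])],.ref k12 k0 [(z3,[y10,z9,z0,z10,z10]),(z3,[z5,z0,z9,y5,y5]),(z3,[z8,z0,z0,z1,y8]),(z3,[z2,z0,z0,y2,z7]),(z3,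
    [y4,y9,y9,y5,y5,z9])],.ref k12 k0 [(z1,[y10,y7,y10,z0,y10,z10]),(z1,[z5,z5,z8,z0,z5,y5]),(z1,[z8,z8,z8,z3,z8,y8]),
    (z1,[z2,z2,z2,z0,z5,y2]),(z1,[y4,y7,y7,y3,y7,z7])],.ref k12 k0 [(z1,[y10,z3,z0,z0,z20]),(z1,[z5,z0,z3,z0,y10]),
    (z1,[z8,z0,z0,z3,y16]),(z1,[z2,z0,z0,z0,y1]),(z1,[y4,y3,y3,y3,z5,z3])],.ref k12 k0 [(z1,[z5,z13,z10,z10,z5,y10]),
    (z2,[y5,y10,y4,y10,y5,z10]),(z1,[y4,y8,y8,y5,y4,z8]),(z1,[y1,y2,y2,y2,z2,z2]),(z1,[z2,z1,z1,z1,y1,y1])],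
    .ref k12 k0 [(z1,[z10,z13,z10,z10,z0,y10]),(z1,[y5,y5,y2,y5,z0,z5]),(z1,[y8,y8,y8,y5,z0,z8]),(z1,[y2,y2,y2,y2,z3,
    z2]),(z1,[z4,z1,z1,z1,y3,y1])],.ref k12 k0 [(z2,[z5,z21,z15,z15,z15,y15]),(z4,[y5,y15,y3,y15,y15,z15]),(z1,[y2,y6,
    y6,y3,y6,z6]),(z2,[y1,y3,y3,y3,z3,z3]),(z1,[z1])],.ref k12 k0 [(z3,[z10,z29,z20,z20,z20,y20]),(z3,[y5,y10,y1,y10,
    y10,z10]),(z3,[y8,y16,y16,y7,y16,z16]),(z3,[y2,y4,y4,y4,z5,z4]),(z3,[z4,y1,y1,y1,y1,z1])]],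
    .lp [(nat_lit 628),(nat_lit 650),(nat_lit 656),(nat_lit 646),(nat_lit 656),(nat_lit 600)] [k14,k14,k3,k3,k0,k0,k5,k5,
    k0,k0,k28,k28] k0 [[k0,k0,k0,k0,k0,k0,k42,k0,k22],[k0,k0,k0,k0,k0,k6,k0,k0,k0,k0,k0,k12],[k0,k0,k0,k0,k0,k0,k0,k0,
    k8,k0,k8],[k0,k0,k0,k0,k0,k0,k0,k26],[k6],[k0,k0,k0,k0,k0,k0,k0,k0,k0,k0,k0,k10],[k0,k0,k26],[k0,k42,k0,k0,k0,k0,
    k0,k0,k0,k38],[k0,k0,k0,k0,k0,k0,k38,k0,k0,k0,k114],[k0,k22,k0,k8],[k12,k0,k0,k0,k10],[k0,k0,k0,k8,k0,k0,k0,k0,k0,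
    k114]] (nat_lit 1920) k5
    [[(k8,(nat_lit 528)),(k10,(nat_lit 614)),(k2,(nat_lit 631)),(k6,(nat_lit 637)),(k0,(nat_lit 640)),(k4,
    (nat_lit 652))],[(k11,(nat_lit 592)),(k9,(nat_lit 600)),(k3,(nat_lit 639)),(k1,(nat_lit 640)),(k5,(nat_lit 642)),
    (k7,(nat_lit 643))],[(k10,(nat_lit 613)),(k0,(nat_lit 639)),(k4,(nat_lit 647)),(k2,(nat_lit 650)),(k8,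
    (nat_lit 675)),(k6,(nat_lit 690))],[(k11,(nat_lit 617)),(k1,(nat_lit 631)),(k7,(nat_lit 648)),(k3,(nat_lit 650)),
    (k5,(nat_lit 653)),(k9,(nat_lit 679))],[(k6,(nat_lit 625)),(k10,(nat_lit 636)),(k0,(nat_lit 642)),(k2,
    (nat_lit 653)),(k4,(nat_lit 656)),(k8,(nat_lit 664))],[(k11,(nat_lit 628)),(k3,(nat_lit 647)),(k7,(nat_lit 651)),
    (k1,(nat_lit 652)),(k5,(nat_lit 656)),(k9,(nat_lit 656))],[(k10,(nat_lit 613)),(k0,(nat_lit 643)),(k6,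
    (nat_lit 646)),(k2,(nat_lit 648)),(k4,(nat_lit 651)),(k8,(nat_lit 651))],[(k5,(nat_lit 625)),(k1,(nat_lit 637)),
    (k7,(nat_lit 646)),(k9,(nat_lit 651)),(k11,(nat_lit 661)),(k3,(nat_lit 690))],[(k0,(nat_lit 600)),(k8,
    (nat_lit 618)),(k10,(nat_lit 628)),(k6,(nat_lit 651)),(k4,(nat_lit 656)),(k2,(nat_lit 679))],[(k1,(nat_lit 528)),
    (k9,(nat_lit 618)),(k11,(nat_lit 628)),(k7,(nat_lit 651)),(k5,(nat_lit 664)),(k3,(nat_lit 675))],[(k0,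
    (nat_lit 592)),(k2,(nat_lit 617)),(k4,(nat_lit 628)),(k8,(nat_lit 628)),(k6,(nat_lit 661)),(k10,(nat_lit 714))],
    [(k3,(nat_lit 613)),(k7,(nat_lit 613)),(k1,(nat_lit 614)),(k9,(nat_lit 628)),(k5,(nat_lit 636)),(k11,
    (nat_lit 714))]]
    [] k0
    [[k2,k1,k0,k0,k0,k0],[k2,k0,k0,k0,k1,k0],[k2,k0,k0,k0,k0,k1],[k1,k1,k0,k0,k1,k0],[k1,k1,k0,k0,k0,k1],[k1,k0,k1,k0,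
    k1,k0],[k1,k0,k1,k0,k0,k1],[k1,k0,k0,k1,k1,k0],[k1,k0,k0,k1,k0,k1],[k1,k0,k0,k0,k2,k0],[k1,k0,k0,k0,k1,k1],[k0,k2,
    k0,k0,k0,k1],[k0,k1,k1,k0,k0,k1],[k0,k0,k1,k1,k0,k1],[k0,k0,k0,k1,k1,k1],[k0,k0,k0,k0,k3,k0],[k0,k0,k0,k0,k2,k1]]
    [.ref k12 k0 [(z3,[z7,y5,y7]),(z3,[y5,z10,z14]),(z3,[y5,z10,z5,z9]),(z3,[y2,z4,z2,z0,z9]),(z3,[z4,y17,y13,y9,y9,
    z9])],.ref k12 k0 [(z6,[z7,z11,z7,z7,z7,y7]),(z6,[y5,z5,z13,y5,y5,z5]),(z6,[y5,z5,y5,z13,y5,z5]),(z3,[y1,z1,y1,y1,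
    z8,z1]),(z3,[z2,y11,y7,y7,y7,z7])],.ref k12 k0 [(z5,[z7,z1]),(z1,[y1,z2,z3]),(z1,[y1,z2,z0,z3]),(z5,[y2,z4,z0,z0,
    z15]),(z5,[z4,y23,y15,y15,y15,z15])],.ref k12 k0 [(z2,[z7,z6,z0,z7,z7,y7]),(z2,[y5,z0,z6,y5,y5,z5]),(z2,[y5,z0,z0,
    z1,y5,z5]),(z1,[y1,z0,z0,y1,z2,z1]),(z1,[z2,y3,y3,y1,y1,z1])],.ref k12 k0 [(z1,[z7,y4,y7]),(z1,[y5,z5,z8]),(z1,
    [y5,z5,z5,z3]),(z1,[y2,z2,z2,z0,z3]),(z1,[z4,y7,y7,y3,y3,z3])],.ref k12 k0 [(z2,[z7,z6,z7,z0,z7,y7]),(z2,[y5,z0,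
    z1,z0,y5,z5]),(z2,[y5,z0,y5,z6,y5,z5]),(z1,[y1,z0,y1,z0,z2,z1]),(z1,[z2,y3,y1,y3,y1,z1])],.ref k12 k0 [(z1,[z7,y4,
    z0,y7]),(z1,[y5,z5,z3,z5]),(z1,[y5,z5,z0,z8]),(z1,[y2,z2,z0,z2,z3]),(z1,[z4,y7,y3,y7,y3,z3])],.ref k12 k0 [(z3,
    [z7,z9,z7,z7,z0,y7]),(z3,[y5,z0,z4,y5,z0,z5]),(z3,[y5,z0,y5,z4,z0,z5]),(z3,[y2,z0,y2,y2,z9,z2]),(z3,[z4,y9,y5,y5,
    y9,z5])],.ref k12 k0 [(z2,[z7,y1,z0,z0,y7]),(z2,[y5,z5,z6,z0,z5]),(z2,[y5,z5,z0,z6,z5]),(z1,[y1,z1,z0,z0,z4]),(z1,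
    [z2,y5,y3,y3,y5,z3])],.ref k12 k0 [(z5,[z7,z22,z14,z14,z14,y14]),(z1,[y1,y1,z1,y2,y2,z2]),(z1,[y1,y1,y2,z1,y2,
    z2]),(z5,[y2,y2,y4,y4,z11,z4]),(z5,[z4,y11,y7,y7,y7,z7])],.ref k12 k0 [(z4,[z7,z12,z7,z7,z7,y7]),(z4,[y5,z0,z7,y5,
    y5,z5]),(z4,[y5,z0,y5,z7,y5,z5]),(z2,[y1,z0,y1,y1,z5,z1]),(z1,[z1,y3,y2,y2,y2,z2])],.ref k12 k0 [(z3,[y7,z9,z14]),
    (z3,[z5,z0,y1]),(z3,[z5,z0,y10,z9]),(z3,[z2,z0,y4,z0,z9]),(z3,[y4,y9,y1,y9,y9,z9])],.ref k12 k0 [(z3,[y7,z9,z7,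
    z7]),(z3,[z5,z0,z4,y5]),(z3,[z5,z0,y5,z4]),(z3,[z2,z0,y2,y2,z9]),(z3,[y4,y9,y5,y5,y9,z9])],.ref k12 k0 [(z2,[y7,
    z6,z0,z7,z7]),(z2,[z5,z0,z6,y5,y5]),(z2,[z5,z0,z0,z1,y5]),(z1,[z1,z0,z0,y1,z2]),(z1,[y2,y3,y3,y1,y1,z3])],
    .ref k12 k0 [(z1,[z7,z10,z7,z7,z0,y7]),(z1,[y5,y5,y2,y5,z0,z5]),(z1,[y5,y5,y5,y2,z0,z5]),(z1,[y2,y2,y2,y2,z3,z2]),
    (z1,[z4,z1,z1,z1,y3,y1])],.ref k12 k0 [(z4,[z7,z33,z21,z21,z21,y21]),(z4,[y5,y15,y3,y15,y15,z15]),(z4,[y5,y15,y15,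
    y3,y15,z15]),(z2,[y1,y3,y3,y3,z3,z3]),(z1,[z1])],.ref k12 k0 [(z3,[z7,z23,z14,z14,z14,y14]),(z3,[y5,y10,y1,y10,
    y10,z10]),(z3,[y5,y10,y10,y1,y10,z10]),(z3,[y2,y4,y4,y4,z5,z4]),(z3,[z4,y1,y1,y1,y1,z1])]],
    .leafM k0 [k0,k1,k2,k3,k4,k5] [(z1,[z0,z1,z1,z1])] [],
    .lp [k160,k166,k168,k150,k146,k168] [k4,k4,k1,k1,k0,k0,k9,k9,k11,k11,k0,k0] k0 [[k0,k0,k0,k0,k0,k0,k18,k0,k2],[k0,k0,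
    k0,k0,k0,k2],[k0,k0,k0,k0,k2,k0,k0,k0,k0,k0,k12],[k0,k0,k0,k0,k0,k0,k0,k0,k0,k6],[k2,k0,k0,k0,k0,k0,k0,k0,k38],
    [k0,k0,k0,k2,k0,k0,k0,k2],[k0,k0,k0,k0,k2],[k0,k18,k0,k0,k0,k0,k0,k0,k0,k0,k0,k8],[k0,k0,k6,k0,k0,k0,k0,k0,k0,k0,
    k6],[k0,k2,k0,k0,k0,k38],[k0,k0,k0,k0,k0,k0,k8],[k0,k0,k0,k12,k0,k0,k0,k0,k0,k6]] (nat_lit 480) k5
    [[(k8,k147),(k2,k151),(k0,k160),(k6,k163),(k4,k164),(k10,k164)],[(k9,k135),(k7,k157),(k1,k160),(k11,k162),(k3,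
    k163),(k5,k164)],[(k8,k158),(k0,k163),(k4,k165),(k2,k166),(k10,k167),(k6,k176)],[(k1,k151),(k7,k156),(k9,k156),
    (k3,k166),(k5,k167),(k11,k173)],[(k8,k151),(k6,k159),(k0,k164),(k2,k167),(k4,k170),(k10,k180)],[(k11,k130),(k7,
    k159),(k9,k159),(k1,k164),(k3,k165),(k5,k170)],[(k6,k148),(k2,k156),(k0,k157),(k4,k159),(k10,k159),(k8,k186)],
    [(k7,k148),(k9,k148),(k5,k159),(k11,k159),(k1,k163),(k3,k176)],[(k0,k135),(k8,k146),(k6,k148),(k10,k149),(k2,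
    k156),(k4,k159)],[(k9,k146),(k1,k147),(k5,k151),(k11,k157),(k3,k158),(k7,k186)],[(k4,k130),(k8,k157),(k6,k159),
    (k0,k162),(k2,k173),(k10,k174)],[(k9,k149),(k7,k159),(k1,k164),(k3,k167),(k11,k174),(k5,k180)]]
    [] k0
    [[k2,k1,k0,k0,k0,k0],[k2,k0,k0,k0,k1,k0],[k1,k1,k0,k0,k1,k0],[k1,k0,k1,k0,k1,k0],[k1,k0,k0,k2,k0,k0],[k1,k0,k0,k1,
    k1,k0],[k1,k0,k0,k0,k2,k0],[k1,k0,k0,k0,k1,k1],[k1,k0,k1,k0,k0,k1],[k0,k1,k1,k0,k1,k0],[k0,k1,k0,k1,k1,k0],[k0,k1,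
    k0,k0,k2,k0],[k0,k1,k1,k0,k0,k1],[k0,k0,k1,k2,k0,k0],[k0,k0,k1,k1,k0,k1],[k0,k0,k1,k1,k1,k0],[k0,k0,k1,k0,k2,k0],
    [k0,k0,k1,k0,k1,k1],[k0,k0,k0,k3,k0,k0],[k0,k0,k0,k2,k0,k1],[k0,k0,k0,k1,k1,k1],[k0,k0,k0,k0,k3,k0],[k0,k0,k0,k0,
    k2,k1]]
    [.ref (nat_lit 354) k10 [(z1,[z1,y1,z0,y5]),(z2,[z0,z1,z0,z5]),(z1,[y1,z1,z1,z4]),(z1,[z0,z0,z0,z1])],
    .ref k22 k6 [(z4,[y1,z1,z0,z6]),(z2,[y2,y1,y6,y3,z6]),(z2,[z1,y1]),(z2,[y1,z1,z6])],.ref (nat_lit 355) k10 [(z2,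
    [z2,y1,z0,y7]),(z2,[z0,z1,z0,z5]),(z2,[y2,z1,z2,z5]),(z1,[z0,z0,z0,z1])],.ref k22 k6 [(z4,[y2,z1,z0,z7]),(z2,[y4,
    y1,y6,y1,z6]),(z2,[z2,y1,z0,y1]),(z2,[y2,z1,z6,z1])],.ref k22 k6 [(z2,[z2,z1,z4,z5,y4]),(z2,[z8,z1,z10,z5,y10]),
    (z1,[y2,y1,y4,y2,z4]),(z1,[z2,z1,z7,z2,y4])],.ref k22 k6 [(z1,[y1,z0,y1,z1,z1]),(z2,[y8,y3,y14,y7,z14]),(z1,[z2,
    z0,z2,z1,y2]),(z1,[y2,z0,z1,y1,z2])],.ref k22 k6 [(z6,[y2,z1,z0,z9]),(z6,[y8,y5,y18,y9,z18]),(z3,[z2,y1]),(z3,[y2,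
    z1,z9])],.ref (nat_lit 356) k7 [(z2,[z0,y1,y2,y5,z2]),(z1,[z0,z0,z0,z1]),(z2,[z2,y1,z0,y7]),(z2,[z0,z1,z0,z5])],
    .ref k137 k7 [(z2,[z0,y1,y2,y5,z2]),(z1,[z0,z0,z0,z1]),(z2,[z2,y1,z0,y5]),(z2,[z0,z1,z0,z5])],.ref k29 k7 [(z2,
    [z0,y1,y2,y5,z2]),(z1,[z0,z0,z0,z1]),(z1,[y1,z0,z1]),(z2,[z0,z1,z0,z5])],.ref k137 k7 [(z2,[z0,y1,y2,y5,z2]),(z1,
    [z0,z0,z0,z1]),(z2,[y2,y1,z0,y5,z2]),(z2,[z0,z1,z0,z5])],.ref (nat_lit 347) k7 [(z2,[z0,y1,y2,y5,z2]),(z1,[z0,z0,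
    z0,z1]),(z1,[y1,z0,z1,z1]),(z2,[z0,z1,z0,z5])],.ref k22 k6 [(z1,[z1,z0,y1,z1]),(z2,[z8,y3,y14,y7,z6]),(z1,[y2,z0,
    z2,z1]),(z1,[z2,z0,z1,y1])],.ref k22 k6 [(z3,[z1,z1,z2,z5,y2]),(z6,[z8,y1,y2,y5,z2]),(z3,[y2,y2,y4,y1,z4]),(z3,
    [z2,z2,z13,z1,y4])],.ref (nat_lit 355) k10 [(z2,[y2,y1,z0,y7,z2]),(z2,[z0,z1,z0,z5]),(z2,[z2,z1,z2,z5,y2]),(z1,
    [z0,z0,z0,z1])],.ref k22 k6 [(z2,[z2,z1,z2,z3,y2]),(z2,[z8,z1,z2,y3,y2]),(z1,[y2,y1,y2,z0,z2]),(z1,[z2,z1,z5,z0,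
    y2])],.ref k22 k6 [(z1,[y1,z0,z0,z2]),(z2,[y8,y3,y6,z1,z6]),(z1,[z2,z0,z0,y1]),(z1,[y2,z0,z3,z1])],
    .ref k29 k7 [(z2,[z0,y1,y2,y5,z2]),(z1,[z0,z0,z0,z1]),(z1,[z1,z0,z0,y1]),(z2,[z0,z1,z0,z5])],.ref k22 k6 [(z8,[z2,
    z3,z6,z15,y6]),(z1,[z1]),(z4,[y2,y3,y6,y3,z6]),(z4,[z2,z3,z18,z3,y6])],.ref (nat_lit 354) k10 [(z1,[y1,y1,y1,y6,
    z2]),(z2,[z0,z1,z0,z5]),(z1,[z1,z1,z2,z5,y2]),(z1,[z0,z0,z0,z1])],.ref (nat_lit 347) k7 [(z2,[z0,y1,y2,y5,z2]),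
    (z1,[z0,z0,z0,z1]),(z2,[z2,z1,z2,z3,y2]),(z2,[z0,z1,z0,z5])],.ref k22 k6 [(z2,[y1,z0,z0,z3]),(z2,[y4,y3,y6,y3,
    z6]),(z1,[z1]),(z1,[y1,z0,z3])],.ref k137 k7 [(z2,[z0,y1,y2,y5,z2]),(z1,[z0,z0,z0,z1]),(z1,[z1,z0,z0,y2]),(z2,[z0,
    z1,z0,z5])]]]

noncomputable def cT6_3_n7_4 : List TN :=
  [.leafM k0 [k0,k1,k2,k3,k4,k5] [(z2,[z0,z1,z1,z2])] []]

/-- the nodes with numbers from 310 -/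
noncomputable def cT6_3_n7 : List TN :=
  cT6_3_n7_0 ++ (cT6_3_n7_1 ++ (cT6_3_n7_2 ++ (cT6_3_n7_3 ++ cT6_3_n7_4)))

theorem cT6_3_k7 : allI (chkT 6 cT6_3_w tt6 cT6_3_s (blkF [] cT6_3_D)) cT6_3_n7 310 = true := by
  decide +kernel

end Pool.Agent.Lib_MP_fa6e45
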