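import Pool.Agent.Lib_MP_fa6e45.CG6_2d

/-!
MP_fa6e45_co, stage 5: certificates (captain, generated by a program).
-/

namespace Pool.Agent.Lib_MP_fa6e45

noncomputable def cT6_3_n8_0 : List TN :=
  [.lp [k168,k170,k154,k164,k140,k162] [k1,k1,k0,k0,k8,k8,k3,k3,k15,k15,k4,k4] k0 [[k0,k0,k0,k0,k0,k0,k0,k0,k4,k0,k8],
    [k0,k0,k0,k0,k0,k0,k0,k8],[k0,k0,k0,k0,k8,k0,k0,k0,k0,k0,k10],[k0,k0,k0,k0,k0,k0,k0,k0,k0,k4],[k0,k0,k0,k0,k0,k0,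
    k12],[k0,k0,k0,k8],[k8],[k0,k0,k0,k0,k0,k12],[k0,k0,k4],[k0,k4,k0,k0,k0,k0,k0,k0,k0,k0,k0,k8],[k0,k0,k0,k0,k0,k0,
    k0,k0,k8],[k0,k8,k0,k10]] (nat_lit 480) k5
    [[(k2,k159),(k0,k160),(k4,k161),(k8,k162),(k10,k165),(k6,k166)],[(k1,k160),(k5,k161),(k11,k161),(k9,k162),(k7,
    k166),(k3,k169)],[(k6,k159),(k8,k159),(k4,k162),(k0,k169),(k2,k170),(k10,k174)],[(k9,k155),(k1,k159),(k7,k159),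
    (k5,k162),(k3,k170),(k11,k170)],[(k8,k143),(k6,k159),(k0,k161),(k2,k162),(k4,k162),(k10,k168)],[(k9,k135),(k11,
    k158),(k7,k159),(k1,k161),(k3,k162),(k5,k162)],[(k8,k152),(k2,k159),(k4,k159),(k10,k163),(k0,k166),(k6,k176)],
    [(k9,k152),(k3,k159),(k5,k159),(k11,k163),(k1,k166),(k7,k176)],[(k4,k135),(k8,k140),(k10,k151),(k6,k152),(k2,
    k155),(k0,k162)],[(k9,k140),(k5,k143),(k11,k151),(k7,k152),(k3,k159),(k1,k162)],[(k8,k151),(k10,k154),(k4,k158),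
    (k0,k161),(k6,k163),(k2,k170)],[(k9,k151),(k11,k154),(k7,k163),(k1,k165),(k5,k168),(k3,k174)]]
    [] k0
    [[k1,k0,k1,k0,k1,k0],[k1,k0,k0,k0,k2,k0],[k1,k0,k0,k0,k1,k1],[k0,k1,k1,k0,k1,k0],[k0,k1,k0,k1,k1,k0],[k0,k1,k0,k0,
    k2,k0],[k0,k0,k2,k0,k1,k0],[k0,k0,k1,k1,k1,k0],[k0,k0,k1,k0,k2,k0],[k0,k0,k1,k0,k1,k1],[k0,k0,k0,k1,k2,k0],[k0,k0,
    k0,k1,k1,k1],[k0,k0,k0,k0,k3,k0],[k0,k0,k0,k0,k2,k1],[k0,k0,k0,k0,k1,k2],[k0,k0,k0,k0,k0,k3]]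
    [.ref k12 k0 [(z1,[y7,z3,y7,z0,y7,z7]),(z1,[y4,z0,y1,z0,y4,z4]),(z1,[z5,z0,z5,z3,z5,y5]),(z1,[z2,z0,z2,z0,z5,y2]),
    (z1,[z5,y3,z2,y3,z2,y2])],.ref k12 k0 [(z1,[y7,y4,y14,y14,y14,z14]),(z1,[y4,y4,y5,y8,y8,z8]),(z1,[z5,z5,z10,z13,
    z10,y10]),(z1,[z2,z2,z4,z4,z7,y4]),(z1,[z5,z2,z7,z7,z7,y7])],.ref k12 k0 [(z1,[z7,z3,z7,z7,z7,y7]),(z1,[z4,z0,z7,
    z4,z4,y4]),(z1,[y5,z0,y5,y2,y5,z5]),(z1,[y2,z0,y2,y2,z1,z2]),(z1,[y5,y3,y8,y8,y8,z8])],.ref k12 k0 [(z2,[y7,y1,z0,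
    z0,y7,z7]),(z1,[y2,y2,z3,z0,y2,z2]),(z2,[z5,z5,z0,z6,z5,y5]),(z1,[z1,z1,z0,z0,z4,y1]),(z2,[z5,y1,y6,y6,y1,z1])],
    .ref k12 k0 [(z1,[y7,y4,z0,y7,z0,z7]),(z1,[y4,y4,z3,y4,z0,z4]),(z1,[z5,z5,z0,z8,z0,y5]),(z1,[z2,z2,z0,z2,z3,y2]),
    (z1,[z5,z2,y3,z2,y3,y2])],.ref k12 k0 [(z2,[y7,y8,y7,y14,y14,z14]),(z1,[y2,y4,z1,y4,y4,z4]),(z2,[z5,z10,z5,z16,
    z10,y10]),(z1,[z1,z2,z1,z2,z5,y2]),(z2,[z5,z4,y1,z4,z4,y4])],.ref k12 k0 [(z5,[y7,z8,y7,z7,y7,z7]),(z5,[y4,y4,z11,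
    z4,y4,z4]),(z1,[z1,z1,z1,z2,z1,y1]),(z5,[z2,z2,z2,y2,z17,y2]),(z1,[z1,y2,y2,y4,y2,z2])],.ref k12 k0 [(z4,[y7,z5,
    y7,z0,z0,z7]),(z1,[y1,y1,z2,z0,z0,z1]),(z4,[z5,z5,z5,z12,z0,y5]),(z2,[z1,z1,z1,z0,z6,y1]),(z4,[z5,y7,y7,y12,y12,
    z7])],.ref k12 k0 [(z5,[y7,z1,y14,y7,y14,z14]),(z5,[y4,y8,z7,y4,y8,z8]),(z1,[z1,z2,z2,z4,z2,y2]),(z5,[z2,z4,z4,z2,
    z19,y4]),(z1,[z1,y1,y1,y2,y1,z1])],.ref k12 k0 [(z3,[y7,z2,y7,z0,y7,z7]),(z3,[y4,y4,z5,z0,y4,z4]),(z3,[z5,z5,z5,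
    z9,z5,y5]),(z3,[z2,z2,z2,z0,z11,y2]),(z3,[z5,y4,y4,y9,y4,z4])],.ref k12 k0 [(z4,[y7,y2,y14,y14,y7,z14]),(z1,[y1,
    y2,z1,y2,y1,z2]),(z4,[z5,z10,z10,z22,z5,y10]),(z2,[z1,z2,z2,z2,z7,y2]),(z4,[z5,y2,y2,y2,y7,z2])],.ref k12 k0 [(z2,
    [y7,y1,y7,y7,z0,z7]),(z1,[y2,y2,z1,y2,z0,z2]),(z2,[z5,z5,z5,z11,z0,y5]),(z1,[z1,z1,z1,z1,z3,y1]),(z2,[z5,y1,y1,y1,
    y6,z1])],.ref k12 k0 [(z5,[y7,y6,y21,y21,y21,z21]),(z5,[y4,y12,z3,y12,y12,z12]),(z1,[z1,z3,z3,z6,z3,y3]),(z5,[z2,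
    z6,z6,z6,z21,y6]),(z1,[z1])],.ref k12 k0 [(z3,[y7,y5,y14,y14,y14,z14]),(z3,[y4,y8,z1,y8,y8,z8]),(z3,[z5,z10,z10,
    z19,z10,y10]),(z3,[z2,z4,z4,z4,z13,y4]),(z3,[z5,z1,z1,z1,z1,y1])],.ref k12 k0 [(z1,[y7,y4,y7,y7,y7,z7]),(z1,[y4,
    y4,y1,y4,y4,z4]),(z1,[z5,z5,z5,z8,z5,y5]),(z1,[z2,z2,z2,z2,z5,y2]),(z1,[z5,z2,z2,z2,z2,y2])],.ref k12 k0 [(z1,[z7,
    z3]),(z1,[z4,z0,z3]),(z1,[y5,z0,z0,z3]),(z1,[y2,z0,z0,z0,z3]),(z1,[y5,y3,y3,y3,y3,z3])]],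
    .lp [(nat_lit 970),(nat_lit 1000),(nat_lit 964),(nat_lit 1012),(nat_lit 856),(nat_lit 952)] [k21,k21,k6,k6,k24,k24,k0,
    k0,k78,k78,k30,k30] k0 [[k0,k0,k0,k0,k0,k0,k0,k0,k60],[k0,k0,k0,k0,k0,k0,k0,k48],[k0,k0,k0,k0,k18,k0,k0,k0,k0,k0,
    k54],[k0,k0,k0,k0,k0,k0,k0,k78,k0,k18],[],[k0,k0,k0,k18],[k48,k0,k78],[k0,k0,k0,k0,k0,k0,k0,k0,k0,k6,k0,k6],[k0,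
    k0,k18,k0,k0,k0,k6],[k0,k60,k0,k0,k0,k0,k0,k0,k0,k0,k0,k42],[k0,k0,k0,k0,k0,k0,k6,k0,k42],[k0,k0,k0,
    k54]] (nat_lit 2880) k5
    [[(k2,(nat_lit 931)),(k8,(nat_lit 955)),(k10,(nat_lit 961)),(k4,(nat_lit 967)),(k0,(nat_lit 970)),(k6,
    (nat_lit 997))],[(k11,(nat_lit 901)),(k9,(nat_lit 961)),(k5,(nat_lit 967)),(k1,(nat_lit 970)),(k3,(nat_lit 985)),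
    (k7,(nat_lit 991))],[(k6,(nat_lit 958)),(k10,(nat_lit 976)),(k4,(nat_lit 982)),(k0,(nat_lit 985)),(k8,
    (nat_lit 988)),(k2,(nat_lit 1000))],[(k1,(nat_lit 931)),(k5,(nat_lit 982)),(k7,(nat_lit 988)),(k11,(nat_lit 994)),
    (k3,(nat_lit 1000)),(k9,(nat_lit 1006))],[(k8,(nat_lit 892)),(k6,(nat_lit 910)),(k0,(nat_lit 967)),(k2,
    (nat_lit 982)),(k4,(nat_lit 982)),(k10,(nat_lit 1012))],[(k9,(nat_lit 910)),(k11,(nat_lit 958)),(k1,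
    (nat_lit 967)),(k3,(nat_lit 982)),(k5,(nat_lit 982)),(k7,(nat_lit 988))],[(k8,(nat_lit 934)),(k10,(nat_lit 982)),
    (k2,(nat_lit 988)),(k4,(nat_lit 988)),(k0,(nat_lit 991)),(k6,(nat_lit 1012))],[(k5,(nat_lit 910)),(k9,
    (nat_lit 934)),(k3,(nat_lit 958)),(k11,(nat_lit 988)),(k1,(nat_lit 997)),(k7,(nat_lit 1012))],[(k8,(nat_lit 850)),
    (k10,(nat_lit 898)),(k4,(nat_lit 910)),(k6,(nat_lit 934)),(k0,(nat_lit 961)),(k2,(nat_lit 1006))],[(k9,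
    (nat_lit 850)),(k5,(nat_lit 892)),(k11,(nat_lit 904)),(k7,(nat_lit 934)),(k1,(nat_lit 955)),(k3,(nat_lit 988))],
    [(k0,(nat_lit 901)),(k8,(nat_lit 904)),(k10,(nat_lit 910)),(k4,(nat_lit 958)),(k6,(nat_lit 988)),(k2,
    (nat_lit 994))],[(k9,(nat_lit 898)),(k11,(nat_lit 910)),(k1,(nat_lit 961)),(k3,(nat_lit 976)),(k7,(nat_lit 982)),
    (k5,(nat_lit 1012))]]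
    [] k0
    [[k2,k0,k0,k0,k0,k1],[k1,k1,k0,k0,k0,k1],[k1,k0,k1,k1,k0,k0],[k1,k0,k1,k0,k1,k0],[k1,k0,k0,k0,k2,k0],[k1,k0,k0,k0,
    k1,k1],[k1,k0,k0,k0,k0,k2],[k0,k1,k0,k0,k2,k0],[k0,k0,k2,k0,k1,k0],[k0,k0,k1,k1,k1,k0],[k0,k0,k1,k1,k0,k1],[k0,k0,
    k1,k0,k2,k0],[k0,k0,k1,k0,k1,k1],[k0,k0,k0,k1,k2,k0],[k0,k0,k0,k1,k1,k1],[k0,k0,k0,k0,k3,k0],[k0,k0,k0,k0,k2,k1],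
    [k0,k0,k0,k0,k1,k2],[k0,k0,k0,k0,k0,k3]]
    [.ref k12 k0 [(z3,[z4,z1]),(z3,[z10,y20,z9]),(z3,[y2,z4,z0,z9]),(z3,[y5,z10,z0,z0,z9]),(z3,[y8,z7,y9,y9,y9,z9])],
    .ref k12 k0 [(z5,[z4,z11,y4]),(z1,[z2,y2,z1]),(z5,[y2,z2,z2,z15]),(z1,[y1,z1,z1,z0,z3]),(z5,[y8,y7,y7,y15,y15,
    z15])],.ref k12 k0 [(z1,[y4,z7,z0,z4,z4]),(z1,[y10,z10,z3,z10,z10]),(z1,[z2,y2,z0,z1,y2]),(z1,[z5,y5,z0,y5,y2]),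
    (z1,[z8,y11,y3,y11,y11,z3])],.ref k12 k0 [(z1,[y2,z3,y2,z0,y2,z2]),(z1,[y5,z0,y2,z0,y5,z5]),(z1,[z1,z0,z1,z3,z1,
    y1]),(z2,[z5,z0,z5,z0,z11,y5]),(z1,[z4,y3,z1,y3,z1,y1])],.ref k12 k0 [(z1,[y1,z2,y2,y2,y2,z2]),(z2,[y5,y5,y4,y10,
    y10,z10]),(z2,[z1,z1,z2,z8,z2,y2]),(z4,[z5,z5,z10,z10,z22,y10]),(z1,[z2,y1,z1,z1,z1,y1])],.ref k12 k0 [(z1,[y4,z3,
    y4,y4,y4,z4]),(z1,[y10,z0,y7,y10,y10,z10]),(z1,[z2,z0,z2,z5,z2,y2]),(z1,[z5,z0,z5,z5,z8,y5]),(z1,[z8,y3,z5,z5,z5,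
    y5])],.ref k12 k0 [(z1,[z2,z1]),(z1,[z5,y5,z3]),(z1,[y1,z1,z0,z3]),(z2,[y5,z5,z0,z0,z6]),(z1,[y4,z1,y3,y3,y3,
    z3])],.ref k12 k0 [(z1,[y2,y1,y2,y4,y4,z4]),(z1,[y5,y10,y2,y10,y10,z10]),(z1,[z1,z2,z1,z5,z2,y2]),(z2,[z5,z10,z5,
    z10,z16,y10]),(z1,[z4,z5,z1,z5,z5,y5])],.ref k12 k0 [(z1,[y1,z2,y1,z1,y1,z1]),(z2,[y5,y5,z1,z5,y5,z5]),(z2,[z1,z1,
    z1,z5,z1,y1]),(z4,[z5,z5,z5,y5,z17,y5]),(z1,[z2,y1,y1,y5,y1,z1])],.ref k12 k0 [(z5,[y4,z11,y4,z0,z0,z4]),(z1,[y2,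
    y2,z1,z0,z0,z2]),(z5,[z2,z2,z2,z15,z0,y2]),(z1,[z1,z1,z1,z0,z3,y1]),(z5,[z8,y7,y7,y15,y15,z7])],.ref k12 k0 [(z1,
    [y2,z3,z0,z2,z2]),(z1,[y5,z0,z3,z5,z5]),(z1,[z1,z0,z0,z2,y1]),(z2,[z5,z0,z0,y5,z1]),(z1,[z4,y3,y3,y7,y7,z3])],
    .ref k12 k0 [(z3,[y2,z5,y4,y2,y4,z4]),(z3,[y5,y10,y1,y5,y10,z10]),(z3,[z1,z2,z2,z10,z2,y2]),(z6,[z5,z10,z10,z5,
    z28,y10]),(z3,[z4,y1,y1,y5,y1,z1])],.ref k12 k0 [(z3,[y4,z5,y4,z0,y4,z4]),(z3,[y10,y10,y1,z0,y10,z10]),(z3,[z2,z2,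
    z2,z9,z2,y2]),(z3,[z5,z5,z5,z0,z14,y5]),(z3,[z8,y1,y1,y9,y1,z1])],.ref k12 k0 [(z7,[y4,z13,y8,y8,y4,z8]),(z7,[y10,
    y20,z1,y20,y10,z20]),(z7,[z2,z4,z4,z25,z2,y4]),(z7,[z5,z10,z10,z10,z26,y10]),(z7,[z8,y5,y5,y5,y13,z5])],
    .ref k12 k0 [(z1,[y1,z2,y1,y1,z0,z1]),(z2,[y5,y5,z1,y5,z0,z5]),(z2,[z1,z1,z1,z7,z0,y1]),(z4,[z5,z5,z5,z5,z12,y5]),
    (z1,[z2,y1,y1,y1,y3,z1])],.ref k12 k0 [(z2,[y1,z3,y3,y3,y3,z3]),(z4,[y5,y15,y3,y15,y15,z15]),(z4,[z1,z3,z3,z15,z3,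
    y3]),(z8,[z5,z15,z15,z15,z39,y15]),(z1,[z1])],.ref k12 k0 [(z5,[y4,z7,y8,y8,y8,z8]),(z1,[y2,y4,y1,y4,y4,z4]),(z5,
    [z2,z4,z4,z19,z4,y4]),(z1,[z1,z2,z2,z2,z5,y2]),(z5,[z8,z1,z1,z1,z1,y1])],.ref k12 k0 [(z1,[y2,z1,y2,y2,y2,z2]),
    (z1,[y5,y5,y2,y5,y5,z5]),(z1,[z1,z1,z1,z4,z1,y1]),(z2,[z5,z5,z5,z5,z11,y5]),(z1,[z4,z1,z1,z1,z1,y1])],
    .ref k12 k0 [(z1,[z4,z3]),(z1,[z10,z0,z3]),(z1,[y2,z0,z0,z3]),(z1,[y5,z0,z0,z0,z3]),(z1,[y8,y3,y3,y3,y3,z3])]],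
    .lp [(nat_lit 650),(nat_lit 652),(nat_lit 624),(nat_lit 644),(nat_lit 620),(nat_lit 648)] [k1,k1,k0,k0,k14,k14,k4,k4,
    k16,k16,k2,k2] k0 [[k0,k0,k0,k0,k0,k0,k0,k0,k8],[k0,k0,k0,k28,k0,k6],[k28,k0,k0,k0,k0,k0,k0,k0,k0,k0,k6],[k0,k0,
    k0,k0,k0,k6,k0,k0,k0,k22],[k6,k0,k6],[k0,k0,k0,k0,k0,k0,k0,k80,k0,k24],[k0,k0,k0,k0,k80,k0,k0,k0,k20],[k0,k0,k0,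
    k0,k0,k0,k0,k0,k0,k0,k0,k30],[k0,k0,k22,k0,k24],[k0,k8,k0,k0,k0,k0,k0,k20],[k0,k0,k0,k0,k0,k0,k30],[k0,k0,k0,
    k6]] (nat_lit 1920) k5
    [[(k8,(nat_lit 635)),(k4,(nat_lit 637)),(k2,(nat_lit 645)),(k10,(nat_lit 649)),(k0,(nat_lit 650)),(k6,
    (nat_lit 677))],[(k9,(nat_lit 635)),(k11,(nat_lit 641)),(k1,(nat_lit 650)),(k3,(nat_lit 651)),(k7,(nat_lit 653)),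
    (k5,(nat_lit 665))],[(k2,(nat_lit 624)),(k4,(nat_lit 632)),(k8,(nat_lit 644)),(k6,(nat_lit 648)),(k10,
    (nat_lit 650)),(k0,(nat_lit 651))],[(k3,(nat_lit 624)),(k9,(nat_lit 636)),(k5,(nat_lit 638)),(k1,(nat_lit 645)),
    (k7,(nat_lit 654)),(k11,(nat_lit 672))],[(k8,(nat_lit 600)),(k4,(nat_lit 618)),(k6,(nat_lit 634)),(k2,
    (nat_lit 638)),(k10,(nat_lit 642)),(k0,(nat_lit 665))],[(k5,(nat_lit 618)),(k3,(nat_lit 632)),(k7,(nat_lit 634)),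
    (k1,(nat_lit 637)),(k11,(nat_lit 660)),(k9,(nat_lit 702))],[(k6,(nat_lit 564)),(k8,(nat_lit 608)),(k4,
    (nat_lit 634)),(k10,(nat_lit 646)),(k0,(nat_lit 653)),(k2,(nat_lit 654))],[(k7,(nat_lit 564)),(k11,(nat_lit 626)),
    (k9,(nat_lit 632)),(k5,(nat_lit 634)),(k3,(nat_lit 648)),(k1,(nat_lit 677))],[(k10,(nat_lit 604)),(k6,
    (nat_lit 632)),(k0,(nat_lit 635)),(k2,(nat_lit 636)),(k8,(nat_lit 640)),(k4,(nat_lit 702))],[(k5,(nat_lit 600)),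
    (k7,(nat_lit 608)),(k11,(nat_lit 634)),(k1,(nat_lit 635)),(k9,(nat_lit 640)),(k3,(nat_lit 644))],[(k6,
    (nat_lit 626)),(k8,(nat_lit 634)),(k0,(nat_lit 641)),(k10,(nat_lit 648)),(k4,(nat_lit 660)),(k2,(nat_lit 672))],
    [(k9,(nat_lit 604)),(k5,(nat_lit 642)),(k7,(nat_lit 646)),(k11,(nat_lit 648)),(k1,(nat_lit 649)),(k3,
    (nat_lit 650))]]
    [] k0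
    [[k1,k0,k1,k0,k1,k0],[k1,k0,k0,k2,k0,k0],[k1,k0,k0,k0,k2,k0],[k1,k0,k0,k0,k1,k1],[k0,k3,k0,k0,k0,k0],[k0,k2,k1,k0,
    k0,k0],[k0,k2,k0,k0,k1,k0],[k0,k1,k2,k0,k0,k0],[k0,k1,k1,k0,k1,k0],[k0,k1,k0,k2,k0,k0],[k0,k1,k0,k1,k1,k0],[k0,k0,
    k3,k0,k0,k0],[k0,k0,k2,k1,k0,k0],[k0,k0,k1,k2,k0,k0],[k0,k0,k1,k1,k1,k0],[k0,k0,k1,k0,k1,k1],[k0,k0,k1,k1,k0,k1],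
    [k0,k0,k0,k3,k0,k0],[k0,k0,k0,k2,k1,k0],[k0,k0,k0,k2,k0,k1],[k0,k0,k0,k1,k2,k0],[k0,k0,k0,k1,k1,k1],[k0,k0,k0,k0,
    k2,k1],[k0,k0,k0,k0,k1,k2]]
    [.ref k12 k0 [(z1,[z4,y1,z0,y4]),(z1,[z2,y2,z1,y2]),(z1,[y2,z2,z0,z5]),(z1,[y5,z5,z0,z5,z3]),(z1,[z1,y1,z0,y1])],
    .ref k12 k0 [(z1,[y2,z5,z0,z0,z4]),(z1,[y1,z1,z1,z0,z2]),(z1,[z1,y1,z0,z3,y2]),(z2,[z5,y5,z0,z0,y4]),(z2,[y1,z1,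
    z0,z0,z2])],.ref k12 k0 [(z1,[z2,z1]),(z1,[z1,y1,z1]),(z1,[y1,z1,z0,z3]),(z2,[y5,z5,z0,z0,z6]),(z2,[z1,y1])],
    .ref k12 k0 [(z5,[z12,z15,z4,z12,z12,y12]),(z5,[z6,z0,z7,z6,z6,y6]),(z5,[y6,z0,y2,z9,y6,z6]),(z1,[y3,z0,y1,y3,z0,
    z3]),(z5,[z3,z0,z1,z3,z3,y3])],.ref k12 k0 [(z1,[z2,z3,y2]),(z1,[z1]),(z1,[y1,z0,z1,z3]),(z2,[y5,z0,z5,z0,z6]),
    (z2,[z1,z0,y1])],.ref k12 k0 [(z1,[z6,z3,y4,y6]),(z1,[z3,z0,y1,y3]),(z1,[y3,z0,z2,z6]),(z2,[y15,z0,z10,z15,z6]),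
    (z2,[z3,z0,y2,y3])],.ref k12 k0 [(z5,[z12,z15,y8]),(z5,[z6,z0,z1]),(z5,[y6,z0,z4,z15]),(z1,[y3,z0,z2,z0,z3]),(z5,
    [z3,z0,y2])],.ref k12 k0 [(z1,[y6,z3,z2,z12]),(z1,[y3,z0,z2,z6]),(z1,[z3,z0,y1,y3]),(z2,[z15,z0,y5,y30,z6]),(z2,
    [y3,z0,z1,z6])],.ref k12 k0 [(z1,[z12,z3,y4,y12]),(z1,[z6,z0,y1,y6]),(z1,[y6,z0,z2,z9]),(z1,[y15,z0,z5,z15,z3]),
    (z1,[z3,z0,y1,y3])],.ref k12 k0 [(z2,[y3,z6,z1,z0,z6]),(z4,[y3,z0,z5,z0,z6]),(z4,[z3,z0,y1,z12,y6]),(z8,[z15,z0,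
    y5,z0,y6]),(z8,[y3,z0,z1,z0,z6])],.ref k12 k0 [(z1,[y6,z3,z2,z0,z6]),(z1,[y3,z0,z2,z0,z3]),(z1,[z3,z0,y1,z3,y3]),
    (z2,[z15,z0,y5,z0,y9]),(z2,[y3,z0,z1,z0,z3])],.ref k12 k0 [(z1,[y2,z3,z0,z6]),(z1,[y1,z0,z1,z3]),(z1,[z1]),(z2,
    [z5,z0,z0,y15,z6]),(z2,[y1,z0,z0,z3])],.ref k12 k0 [(z3,[y4,z9,z0,z8,z4]),(z3,[y2,z0,z3,z4,z2]),(z3,[z2,z0,z0,z5,
    y2]),(z3,[z5,z0,z0,y10,z4]),(z3,[y1,z0,z0,z2,z1])],.ref k12 k0 [(z1,[y1,z3,z0,z1,z2]),(z2,[y1,z0,z2,z1,z2]),(z2,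
    [z1,z0,z0,z5,y2]),(z4,[z5,z0,z0,y5,z2]),(z4,[y1,z0,z0,z1,z2])],.ref k12 k0 [(z1,[y2,z3,z0,z2,z2]),(z1,[y1,z0,z1,
    z1,z1]),(z1,[z1,z0,z0,z2,y1]),(z2,[z5,z0,z0,y5,z1]),(z2,[y1,z0,z0,z1,z1])],.ref k12 k0 [(z1,[y12,y9,y4,z0,y12,
    z12]),(z1,[y6,y6,y1,z0,y6,z6]),(z1,[z6,z6,z2,z3,z6,y6]),(z1,[z15,z15,z5,z0,z18,y15]),(z1,[y3,y3,y1,z0,y3,z3])],
    .ref k12 k0 [(z7,[y12,z9,y4,z0,z0,z12]),(z7,[y6,y6,z5,z0,z0,z6]),(z7,[z6,z6,z2,z21,z0,y6]),(z7,[z15,z15,z5,z0,z21,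
    y15]),(z7,[y3,y3,y1,z0,z0,z3])],.ref k12 k0 [(z5,[y4,z15,z0,z0,z12]),(z5,[y2,z0,z5,z0,z6]),(z5,[z2,z0,z0,z15,y6]),
    (z1,[z1]),(z5,[y1,z0,z0,z0,z3])],.ref k12 k0 [(z3,[y4,z9,z0,z0,z8]),(z3,[y2,z0,z3,z0,z4]),(z3,[z2,z0,z0,z9,y4]),
    (z3,[z5,z0,z0,z0,y1]),(z3,[y1,z0,z0,z0,z2])],.ref k12 k0 [(z5,[y6,z9,y2,y6,z6,z6]),(z5,[y3,y3,z4,y3,z3,z3]),(z5,
    [z3,z3,z1,z18,y3,y3]),(z2,[z3,z3,z1,z3,z3,y3]),(z10,[y3,y3,y1,y3,z3,z3])],.ref k12 k0 [(z1,[y4,z3,z0,z0,z4]),(z1,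
    [y2,z0,z1,z0,z2]),(z1,[z2,z0,z0,z3,y2]),(z1,[z5,z0,z0,z0,y2]),(z1,[y1,z0,z0,z0,z1])],.ref k12 k0 [(z1,[y3,z0,y1,
    y3,z0,z3]),(z2,[y3,y3,z1,y3,z0,z3]),(z2,[z3,z3,z1,z9,z0,y3]),(z4,[z15,z15,z5,z15,z12,y15]),(z4,[y3,y3,y1,y3,z0,
    z3])],.ref k12 k0 [(z1,[z6,z9,z2,z6,z6,y6]),(z1,[z3,z3,z2,z3,z3,y3]),(z1,[y3,y3,y1,z0,y3,z3]),(z2,[y15,y15,y5,y15,
    y9,z15]),(z2,[z3,z3,z1,z3,z3,y3])],.ref k12 k0 [(z1,[z12,z27,z8,z24,z24,y24]),(z1,[z6,z12,z5,z12,z12,y12]),(z1,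
    [y6,y12,y4,y9,y12,z12]),(z1,[y15,y30,y10,y30,y27,z30]),(z1,[z3,z6,z2,z6,z6,y6])]],
    .lp [(nat_lit 336),(nat_lit 328),(nat_lit 322),(nat_lit 310),(nat_lit 310),(nat_lit 312)] [k0,k0,k4,k4,k7,k7,k13,k13,
    k13,k13,k12,k12] k0 [[k0,k0,k0,k0,k0,k0,k0,k0,k0,k0,k16],[k0,k0,k0,k0,k0,k6],[k0,k0,k0,k0,k0,k0,k6,k0,k0,k0,k14],
    [k0,k0,k0,k0,k0,k0,k0,k0,k0,k14],[k6],[k0,k0,k0,k0,k0,k0,k0,k28],[k0,k0,k0,k0,k28,k0,k0,k0,k4],[k0,k0,k0,k6,k0,k0,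
    k0,k0,k0,k0,k0,k4],[k0,k0,k14],[k0,k0,k0,k0,k0,k0,k0,k4],[k0,k0,k0,k0,k0,k0,k4],[k0,k16,k0,k14]] (nat_lit 960) k5
    [[(k2,(nat_lit 318)),(k0,(nat_lit 320)),(k8,(nat_lit 323)),(k10,(nat_lit 324)),(k6,(nat_lit 327)),(k4,
    (nat_lit 329))],[(k1,(nat_lit 320)),(k9,(nat_lit 323)),(k11,(nat_lit 324)),(k5,(nat_lit 329)),(k7,(nat_lit 329)),
    (k3,(nat_lit 332))],[(k4,(nat_lit 319)),(k6,(nat_lit 319)),(k8,(nat_lit 319)),(k2,(nat_lit 328)),(k0,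
    (nat_lit 332)),(k10,(nat_lit 336))],[(k9,(nat_lit 313)),(k1,(nat_lit 318)),(k7,(nat_lit 319)),(k5,(nat_lit 325)),
    (k3,(nat_lit 328)),(k11,(nat_lit 334))],[(k8,(nat_lit 302)),(k4,(nat_lit 322)),(k6,(nat_lit 322)),(k2,
    (nat_lit 325)),(k0,(nat_lit 329)),(k10,(nat_lit 331))],[(k7,(nat_lit 316)),(k11,(nat_lit 317)),(k3,(nat_lit 319)),
    (k5,(nat_lit 322)),(k1,(nat_lit 329)),(k9,(nat_lit 344))],[(k6,(nat_lit 282)),(k8,(nat_lit 310)),(k10,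
    (nat_lit 311)),(k4,(nat_lit 316)),(k2,(nat_lit 319)),(k0,(nat_lit 329))],[(k7,(nat_lit 282)),(k11,(nat_lit 307)),
    (k9,(nat_lit 310)),(k3,(nat_lit 319)),(k5,(nat_lit 322)),(k1,(nat_lit 327))],[(k10,(nat_lit 307)),(k6,
    (nat_lit 310)),(k2,(nat_lit 313)),(k8,(nat_lit 314)),(k0,(nat_lit 323)),(k4,(nat_lit 344))],[(k5,(nat_lit 302)),
    (k7,(nat_lit 310)),(k11,(nat_lit 311)),(k9,(nat_lit 314)),(k3,(nat_lit 319)),(k1,(nat_lit 323))],[(k6,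
    (nat_lit 307)),(k8,(nat_lit 311)),(k10,(nat_lit 312)),(k4,(nat_lit 317)),(k0,(nat_lit 324)),(k2,(nat_lit 334))],
    [(k9,(nat_lit 307)),(k7,(nat_lit 311)),(k11,(nat_lit 312)),(k1,(nat_lit 324)),(k5,(nat_lit 331)),(k3,
    (nat_lit 336))]]
    [] k0
    [[k1,k0,k1,k0,k1,k0],[k1,k0,k0,k2,k0,k0],[k1,k0,k0,k0,k1,k1],[k0,k1,k1,k0,k1,k0],[k0,k1,k0,k2,k0,k0],[k0,k1,k0,k1,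
    k1,k0],[k0,k1,k0,k0,k2,k0],[k0,k0,k1,k2,k0,k0],[k0,k0,k1,k1,k0,k1],[k0,k0,k1,k1,k1,k0],[k0,k0,k1,k0,k1,k1],[k0,k0,
    k0,k3,k0,k0],[k0,k0,k0,k2,k1,k0],[k0,k0,k0,k2,k0,k1],[k0,k0,k0,k1,k2,k0],[k0,k0,k0,k1,k1,k1],[k0,k0,k0,k1,k0,k2],
    [k0,k0,k0,k0,k3,k0],[k0,k0,k0,k0,k2,k1],[k0,k0,k0,k0,k1,k2],[k0,k0,k0,k0,k0,k3]]
    [.ref k22 k6 [(z1,[y2,z2,z0,z5]),(z1,[y5,z2,y3,z2,z3]),(z1,[z1,y1,z0,y1]),(z1,[z2,y2,z3,y2])],.ref k22 k6 [(z1,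
    [z1,z1,z2,z5,y2]),(z2,[z5,y1,z4,z4,y4]),(z2,[y1,y1,y2,y2,z2]),(z1,[y1,y1,z1,y2,z2])],.ref (nat_lit 358) k7 [(z1,
    [z0,y2,y2,y7,z2]),(z1,[z0,z0,z0,z1]),(z1,[z2,y2,z0,y5]),(z1,[z0,z1,z0,z2])],.ref (nat_lit 343) k11 [(z1,[y4,z1,z0,
    z4]),(z1,[y2,z0,z1,z2]),(z1,[y1,z0,z0,z1]),(z1,[z5,y1,y1,y6,z1])],.ref (nat_lit 339) k7 [(z1,[z0,y2,y2,y7,z2]),
    (z1,[z0,z0,z0,z1]),(z1,[y1,y2,y1,y6,z2]),(z1,[z0,z1,z0,z2])],.ref k20 k7 [(z1,[z0,y2,y2,y7,z2]),(z1,[z0,z0,z0,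
    z1]),(z1,[y1,y1,z0,y2,z1]),(z1,[z0,z1,z0,z2])],.ref k197 k4 [(z1,[y1,z0,z1]),(z1,[z0,z1]),(z1,[z1]),(z1,[z0,z0,z0,
    z1])],.ref k22 k6 [(z2,[z1,z2,z2,z7,y2]),(z4,[z5,y2,y2,y7,z2]),(z4,[y1,y2,y2,y1,z2]),(z2,[y1,y2,z4,y1,z2])],
    .ref (nat_lit 359) k4 [(z1,[z1,z1,z1,z0,y1]),(z1,[z0,z1]),(z1,[y1,y1,z0,z0,z1]),(z1,[z0,z0,z0,z1])],
    .ref k22 k6 [(z1,[z1,z1,z1,z3,y1]),(z2,[z5,y1,y1,y6,z1]),(z2,[y1,y1,y1,z0,z1]),(z1,[y1,y1,z2,z0,z1])],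
    .ref (nat_lit 343) k11 [(z1,[z4,z1,y4,y4]),(z1,[z2,z0,y1,y2]),(z1,[z1,z0,y1,y1]),(z1,[y5,y1,z4,z4,z1])],
    .ref k22 k6 [(z5,[z2,z6,z6,z21,y6]),(z1,[z1]),(z5,[y1,y3,y3,y3,z3]),(z5,[y2,y6,z9,y6,z6])],.ref k22 k6 [(z3,[z2,
    z4,z4,z13,y4]),(z3,[z5,z1,z1,z1,y1]),(z3,[y1,y2,y2,y2,z2]),(z3,[y2,y4,z5,y4,z4])],.ref (nat_lit 316) k4 [(z1,[z1,
    z2,z2,z2,y2]),(z1,[z0,z1]),(z1,[y1,y2,y1,y2,z2]),(z1,[z0,z0,z0,z1])],.ref k22 k6 [(z1,[z2,z2,z2,z5,y2]),(z1,[z5,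
    z2,z2,z2,y2]),(z1,[y1,y1,y1,y1,z1]),(z1,[y2,y2,z1,y2,z2])],.ref k197 k4 [(z1,[z1,z1,z1,z1,y1]),(z1,[z0,z1]),(z1,
    [y1,y1,z0,y1,z1]),(z1,[z0,z0,z0,z1])],.ref (nat_lit 360) k6 [(z1,[z2,z2,y2,z3,y2]),(z1,[z5,z4,y6,z4,y4]),(z1,[y1,
    y1,z1,y1,z1]),(z1,[y2,y2,z3,y2,z2])],.ref k22 k6 [(z1,[y2,z0,z0,z3]),(z1,[y5,y3,y3,y3,z3]),(z1,[z1]),(z1,[z2,z0,
    z3])],.ref k20 k7 [(z1,[z0,y2,y2,y7,z2]),(z1,[z0,z0,z0,z1]),(z1,[z1,z0,z0,y1]),(z1,[z0,z1,z0,z2])],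
    .ref k128 k7 [(z1,[z0,y2,y2,y7,z2]),(z1,[z0,z0,z0,z1]),(z1,[z2,z0,z0,y1]),(z1,[z0,z1,z0,z2])],
    .ref (nat_lit 361) k0 [(z1,[z0,z1]),(z1,[y1,z0,z3]),(z1,[z0,z0,z0,z1]),(z1,[z0,y1,y1,y1,z1])]],
    .lp [k164,k172,k146,k162,k160,k154] [k4,k4,k0,k0,k13,k13,k5,k5,k6,k6,k9,k9] k0 [[k0,k0,k0,k0,k0,k0,k0,k0,k2],[k0,k0,
    k0,k0,k0,k0,k0,k0,k0,k0,k0,k6],[k0,k0,k0,k0,k0,k0,k0,k0,k6,k0,k18],[],[],[k0,k0,k0,k0,k0,k0,k0,k22,k0,k18],[k0,k0,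
    k0,k0,k22],[k0,k0,k0,k0,k0,k0,k0,k0,k0,k0,k0,k2],[k0,k0,k0,k0,k18,k0,k0,k0,k0,k0,k14],[k0,k2,k0,k6],[k6,k0,k0,k0,
    k0,k0,k2],[k0,k0,k0,k18,k0,k0,k0,k0,k0,k14]] (nat_lit 480) k5
    [[(k8,k148),(k2,k150),(k4,k155),(k10,k159),(k6,k165),(k0,k170)],[(k5,k155),(k11,k157),(k9,k162),(k7,k163),(k3,
    k168),(k1,k170)],[(k10,k157),(k4,k159),(k6,k167),(k0,k168),(k8,k168),(k2,k172)],[(k1,k150),(k11,k157),(k5,k159),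
    (k9,k166),(k7,k167),(k3,k172)],[(k4,k146),(k6,k154),(k0,k155),(k2,k159),(k8,k159),(k10,k168)],[(k5,k146),(k7,
    k154),(k1,k155),(k3,k159),(k11,k168),(k9,k175)],[(k6,k140),(k8,k143),(k4,k154),(k10,k158),(k0,k163),(k2,k167)],
    [(k7,k140),(k5,k154),(k11,k158),(k9,k161),(k1,k165),(k3,k167)],[(k10,k155),(k8,k160),(k6,k161),(k0,k162),(k2,
    k166),(k4,k175)],[(k7,k143),(k1,k148),(k11,k157),(k5,k159),(k9,k160),(k3,k168)],[(k0,k157),(k2,k157),(k8,k157),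
    (k6,k158),(k4,k168),(k10,k168)],[(k9,k155),(k3,k157),(k7,k158),(k1,k159),(k5,k168),(k11,k168)]]
    [] k0
    [[k1,k1,k1,k0,k0,k0],[k1,k1,k0,k0,k0,k1],[k1,k0,k2,k0,k0,k0],[k1,k0,k1,k1,k0,k0],[k1,k0,k1,k0,k1,k0],[k1,k0,k0,k2,
    k0,k0],[k1,k0,k0,k1,k1,k0],[k1,k0,k0,k0,k2,k0],[k1,k0,k0,k0,k1,k1],[k0,k1,k2,k0,k0,k0],[k0,k1,k0,k2,k0,k0],[k0,k1,
    k0,k1,k1,k0],[k0,k0,k3,k0,k0,k0],[k0,k0,k2,k1,k0,k0],[k0,k0,k1,k2,k0,k0],[k0,k0,k1,k1,k1,k0],[k0,k0,k0,k3,k0,k0],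
    [k0,k0,k0,k2,k1,k0],[k0,k0,k0,k2,k0,k1],[k0,k0,k0,k1,k2,k0],[k0,k0,k0,k1,k1,k1],[k0,k0,k0,k0,k2,k1]]
    [.ref k12 k0 [(z1,[z3,z0,y3,y1]),(z1,[y3,z1,z6,z1]),(z1,[z3,y1,y3]),(z2,[y9,z3,z9,z3,z2]),(z1,[z0,y1,y3,y1,y1,
    z3])],.ref k12 k0 [(z1,[z6,y1,y6]),(z1,[y6,z2,z9]),(z1,[z6,y2,y6,z1]),(z1,[y9,z3,z9,z0,z1]),(z1,[z0,y1,y3,y1,y1,
    z3])],.ref k12 k0 [(z3,[z3,z2,z0,y2]),(z3,[y3,z1,z9,z2]),(z3,[z3,y1,z0,z1]),(z2,[y3,z1,z0,z2,z2]),(z1,[z0,y1,y3,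
    y1,y1,z3])],.ref k12 k0 [(z1,[z6,y1,z0,y2,y2]),(z1,[y6,z2,z3,z2,z2]),(z1,[z6,y2,z0,y1,y2]),(z1,[y9,z3,z0,z3,z4]),
    (z1,[z0,y1,y3,y1,y1,z3])],.ref k12 k0 [(z2,[z3,z2,z3,z0,z1,y3]),(z2,[y3,z0,z3,z0,y1,z3]),(z2,[z3,z0,z3,z2,z1,y3]),
    (z4,[y9,z0,y9,z0,z1,z9]),(z1,[z0,y1,y3,y1,y1,z3])],.ref k12 k0 [(z2,[y3,z3,z0,z0,z2]),(z2,[z3,y1,z6,z0,y2]),(z2,
    [y3,z1,z0,z2,z2]),(z4,[z9,y3,z0,z0,y2]),(z1,[z0,y1,y3,y1,y1,z3])],.ref k12 k0 [(z1,[y6,z1,y6,y2,z0,z6]),(z1,[z6,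
    z0,z9,z2,z0,y6]),(z1,[y6,z0,y6,y1,z0,z6]),(z1,[z9,z0,z9,z3,z1,y9]),(z1,[z0,y1,y3,y1,y1,z3])],.ref k12 k0 [(z1,[z3,
    z2,z6,z2,z2,y6]),(z1,[y3,y1,y3,y2,y2,z6]),(z1,[z3,z1,z6,z3,z2,y6]),(z2,[y9,y3,y18,y6,y4,z18]),(z1,[z0,y1,y3,y1,y1,
    z3])],.ref k12 k0 [(z3,[z6,z3,z6,z2,z2,y6]),(z3,[y6,z0,z3,y2,y2,z6]),(z3,[z6,z0,z6,z5,z2,y6]),(z1,[y3,z0,y3,y1,z0,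
    z3]),(z1,[z0,y1,y3,y1,y1,z3])],.ref k12 k0 [(z1,[z3,z1,y3,y2]),(z1,[y3,z0,z6,z2]),(z1,[z3,z0,y3,y1]),(z2,[y9,z0,
    z9,z6,z2]),(z1,[z0,y1,y3,y1,y1,z3])],.ref k12 k0 [(z4,[y3,z4,z3,z0,z2]),(z4,[z3,z0,z9,z0,y2]),(z4,[y3,z0,z3,z4,
    z2]),(z8,[z9,z0,y9,z0,z2]),(z1,[z0,y1,y3,y1,y1,z3])],.ref k12 k0 [(z5,[y6,z3,z0,y2,z0,z6]),(z5,[z6,z2,z15,z2,z0,
    y6]),(z5,[y6,y2,z0,z3,z0,z6]),(z5,[z9,z3,z0,z3,z5,y9]),(z1,[z0,y1,y3,y1,y1,z3])],.ref k12 k0 [(z1,[z1,z1,z0,y1]),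
    (z1,[y1,z0,z3,z1]),(z1,[z1]),(z2,[y3,z0,z0,z3,z2]),(z1,[z0,y1,y3,y1,y1,z3])],.ref k12 k0 [(z1,[z6,z1,z0,y4,y2]),
    (z1,[y6,z0,z3,z4,z2]),(z1,[z6,z0,z0,y3,y2]),(z1,[y9,z0,z0,z6,z4]),(z1,[z0,y1,y3,y1,y1,z3])],.ref k12 k0 [(z2,[y3,
    z2,z0,z1,z2]),(z2,[z3,z0,z6,y1,y2]),(z2,[y3,z0,z0,z3,z2]),(z4,[z9,z0,z0,y3,y2]),(z1,[z0,y1,y3,y1,y1,z3])],
    .ref k12 k0 [(z1,[y6,y1,y6,z0,z0,z6]),(z1,[z6,z2,z9,z0,z0,y6]),(z1,[y6,y2,y6,z1,z0,z6]),(z1,[z9,z3,z9,z0,z1,y9]),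
    (z1,[z0,y1,y3,y1,y1,z3])],.ref k12 k0 [(z3,[y2,z3,z0,z0,z2]),(z3,[z2,z0,z9,z0,y2]),(z3,[y2,z0,z0,z3,z2]),(z1,
    [z1]),(z1,[z0,y1,y3,y1,y1,z3])],.ref k12 k0 [(z3,[y3,z2,y3,y1,z1,z3]),(z3,[z3,z1,z12,z1,y1,y3]),(z3,[y3,y1,y3,z2,
    z1,z3]),(z2,[z3,z1,z3,z1,z1,y3]),(z1,[z0,y1,y3,y1,y1,z3])],.ref k12 k0 [(z5,[y6,z5,z0,z0,z4]),(z5,[z6,z0,z15,z0,
    y4]),(z5,[y6,z0,z0,z5,z4]),(z5,[z9,z0,z0,z0,y1]),(z1,[z0,y1,y3,y1,y1,z3])],.ref k12 k0 [(z3,[y6,y1,y12,y4,y2,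
    z12]),(z3,[z6,z4,z21,z4,z2,y12]),(z3,[y6,y4,y12,y1,y2,z12]),(z1,[z3,z2,z6,z2,z2,y6]),(z1,[z0,y1,y3,y1,y1,z3])],
    .ref k12 k0 [(z1,[y3,z0,y3,y1,z0,z3]),(z1,[z3,z1,z6,z1,z0,y3]),(z1,[y3,y1,y3,z0,z0,z3]),(z2,[z9,z3,z9,z3,z2,y9]),
    (z1,[z0,y1,y3,y1,y1,z3])],.ref k12 k0 [(z1,[z6,z5,z12,z4,z4,y12]),(z1,[y6,y4,y9,y4,y4,z12]),(z1,[z6,z4,z12,z5,z4,
    y12]),(z1,[y9,y6,y18,y6,y5,z18]),(z1,[z0,y1,y3,y1,y1,z3])]],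
    .lp [k168,k170,k154,k164,k140,k162] [k1,k1,k0,k0,k8,k8,k3,k3,k15,k15,k4,k4] k0 [[k0,k0,k0,k0,k0,k0,k0,k0,k4,k0,k8],
    [k0,k0,k0,k0,k0,k0,k0,k8],[k0,k0,k0,k0,k8,k0,k0,k0,k0,k0,k10],[k0,k0,k0,k0,k0,k0,k0,k0,k0,k4],[k0,k0,k0,k0,k0,k0,
    k12],[k0,k0,k0,k8],[k8],[k0,k0,k0,k0,k0,k12],[k0,k0,k4],[k0,k4,k0,k0,k0,k0,k0,k0,k0,k0,k0,k8],[k0,k0,k0,k0,k0,k0,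
    k0,k0,k8],[k0,k8,k0,k10]] (nat_lit 480) k5
    [[(k2,k159),(k0,k160),(k4,k161),(k8,k162),(k10,k165),(k6,k166)],[(k1,k160),(k5,k161),(k11,k161),(k9,k162),(k7,
    k166),(k3,k169)],[(k6,k159),(k8,k159),(k4,k162),(k0,k169),(k2,k170),(k10,k174)],[(k9,k155),(k1,k159),(k7,k159),
    (k5,k162),(k3,k170),(k11,k170)],[(k8,k143),(k6,k159),(k0,k161),(k2,k162),(k4,k162),(k10,k168)],[(k9,k135),(k11,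
    k158),(k7,k159),(k1,k161),(k3,k162),(k5,k162)],[(k8,k152),(k2,k159),(k4,k159),(k10,k163),(k0,k166),(k6,k176)],
    [(k9,k152),(k3,k159),(k5,k159),(k11,k163),(k1,k166),(k7,k176)],[(k4,k135),(k8,k140),(k10,k151),(k6,k152),(k2,
    k155),(k0,k162)],[(k9,k140),(k5,k143),(k11,k151),(k7,k152),(k3,k159),(k1,k162)],[(k8,k151),(k10,k154),(k4,k158),
    (k0,k161),(k6,k163),(k2,k170)],[(k9,k151),(k11,k154),(k7,k163),(k1,k165),(k5,k168),(k3,k174)]]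
    [] k0
    [[k1,k0,k1,k0,k1,k0],[k1,k0,k0,k0,k2,k0],[k1,k0,k0,k0,k1,k1],[k0,k1,k1,k0,k1,k0],[k0,k1,k0,k1,k1,k0],[k0,k1,k0,k0,
    k2,k0],[k0,k0,k2,k0,k1,k0],[k0,k0,k1,k1,k1,k0],[k0,k0,k1,k0,k2,k0],[k0,k0,k1,k0,k1,k1],[k0,k0,k0,k1,k2,k0],[k0,k0,
    k0,k1,k1,k1],[k0,k0,k0,k0,k3,k0],[k0,k0,k0,k0,k2,k1],[k0,k0,k0,k0,k1,k2],[k0,k0,k0,k0,k0,k3]]
    [.ref k12 k0 [(z1,[z9,z1,z3,z0,z9,y9]),(z1,[z0,z0,z1]),(z1,[y3,z0,y1,z1,y3,z3]),(z1,[y6,z0,y2,z0,y3,z6]),(z1,[y3,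
    y1,y2,y1,y6,z6])],.ref k12 k0 [(z1,[z9,z4,z6,z6,z18,y18]),(z1,[z0,z0,z1]),(z1,[y3,y1,y2,y1,y6,z6]),(z1,[y6,y2,y4,
    y4,y9,z12]),(z1,[y3,y2,y3,y3,y9,z9])],.ref k12 k0 [(z1,[z3,z1,z1,z1,z3,y3]),(z1,[z0,z0,z1]),(z3,[y3,z0,y1,z2,y3,
    z3]),(z3,[y6,z0,y2,y2,z3,z6]),(z3,[y3,y3,y4,y4,y12,z12])],.ref k12 k0 [(z2,[y9,y1,z0,z0,y9,z9]),(z1,[z0,z0,z1]),
    (z2,[z3,z1,z0,z2,z3,y3]),(z1,[z3,z1,z0,z0,z6,y3]),(z2,[z3,y1,y2,y2,y3,z3])],.ref k12 k0 [(z1,[y3,z0,z0,y1,z0,z3]),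
    (z1,[z0,z0,z1]),(z3,[z3,z1,z0,z4,z0,y3]),(z3,[z6,z2,z0,z2,z9,y6]),(z3,[z3,y2,y3,y2,y9,z6])],.ref k12 k0 [(z2,[y9,
    y4,y3,y6,y18,z18]),(z1,[z0,z0,z1]),(z2,[z3,z2,z1,z4,z6,y6]),(z1,[z3,z2,z1,z2,z9,y6]),(z2,[z3,z0,y1])],
    .ref k12 k0 [(z1,[y3,z0,y1,z1,y3,z3]),(z1,[z0,z0,z1]),(z3,[z3,z1,z1,z2,z3,y3]),(z3,[z6,z2,z2,y2,z15,y6]),(z3,[z3,
    y2,y2,y4,y6,z6])],.ref k12 k0 [(z4,[y9,z1,y3,z0,z0,z9]),(z1,[z0,z0,z1]),(z4,[z3,z1,z1,z4,z0,y3]),(z2,[z3,z1,z1,z0,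
    z6,y3]),(z4,[z3,y3,y3,y4,y12,z9])],.ref k12 k0 [(z1,[y3,y1,y2,y1,y6,z6]),(z1,[z0,z0,z1]),(z3,[z3,z2,z2,z4,z6,y6]),
    (z3,[z6,z4,z4,z2,z21,y12]),(z3,[z3,y1,y1,y2,y3,z3])],.ref k12 k0 [(z1,[y9,y2,y3,z0,y9,z9]),(z1,[z0,z0,z1]),(z1,
    [z3,z1,z1,z1,z3,y3]),(z1,[z6,z2,z2,z0,z9,y6]),(z1,[z3,z0,z0,y1])],.ref k12 k0 [(z4,[y9,y2,y6,y6,y9,z18]),(z1,[z0,
    z0,z1]),(z4,[z3,z2,z2,z6,z3,y6]),(z2,[z3,z2,z2,z2,z9,y6]),(z4,[z3,y2,y2,y2,y9,z6])],.ref k12 k0 [(z2,[y9,y1,y3,y3,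
    z0,z9]),(z1,[z0,z0,z1]),(z2,[z3,z1,z1,z3,z0,y3]),(z1,[z3,z1,z1,z1,z3,y3]),(z2,[z3,y1,y1,y1,y6,z3])],
    .ref k12 k0 [(z1,[y3,y2,y3,y3,y9,z9]),(z1,[z0,z0,z1]),(z1,[z1,z1,z1,z2,z3,y3]),(z1,[z2,z2,z2,z2,z9,y6]),(z1,
    [z1])],.ref k12 k0 [(z1,[y9,y5,y6,y6,y18,z18]),(z1,[z0,z0,z1]),(z1,[z3,z2,z2,z3,z6,y6]),(z1,[z6,z4,z4,z4,z15,
    y12]),(z1,[z3,z1,z1,z1,z3,y3])],.ref k12 k0 [(z1,[z9,z4,z3,z3,z9,y9]),(z1,[z0,z0,z1]),(z1,[y3,y1,y1,z0,y3,z3]),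
    (z1,[y6,y2,y2,y2,y3,z6]),(z1,[y3,y2,y2,y2,y6,z6])],.ref k12 k0 [(z1,[z3,z1]),(z1,[z0,z0,z1]),(z1,[y1,z0,z0,z1]),
    (z1,[y2,z0,z0,z0,z3]),(z1,[y1,y1,y1,y1,y3,z3])]],
    .lp [(nat_lit 316),(nat_lit 334),(nat_lit 328),(nat_lit 306),(nat_lit 296),(nat_lit 338)] [k11,k11,k2,k2,k5,k5,k16,
    k16,k21,k21,k0,k0] k0 [[k0,k0,k0,k0,k0,k0,k4,k0,k18],[k0,k0,k0,k0,k0,k0,k0,k0,k0,k0,k0,k8],[k0,k0,k0,k0,k0,k0,k0,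
    k0,k12],[k0,k0,k0,k0,k0,k8,k0,k16],[k0,k0,k8,k0,k0,k0,k0,k0,k0,k0,k4],[k0,k0,k0,k0,k0,k0,k0,k28],[k0,k0,k16,k0,
    k28],[k0,k4,k0,k0,k0,k0,k0,k0,k0,k0,k0,k14],[k0,k0,k0,k0,k0,k0,k0,k0,k0,k0,k2],[k0,k18,k0,k12],[k8,k0,k0,k0,k0,k0,
    k14],[k0,k0,k0,k0,k0,k4,k0,k0,k0,k2]] (nat_lit 960) k5
    [[(k8,(nat_lit 304)),(k4,(nat_lit 318)),(k0,(nat_lit 324)),(k2,(nat_lit 325)),(k6,(nat_lit 325)),(k10,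
    (nat_lit 327))],[(k9,(nat_lit 302)),(k11,(nat_lit 309)),(k7,(nat_lit 311)),(k5,(nat_lit 322)),(k1,(nat_lit 324)),
    (k3,(nat_lit 325))],[(k6,(nat_lit 324)),(k0,(nat_lit 325)),(k10,(nat_lit 328)),(k4,(nat_lit 331)),(k8,
    (nat_lit 333)),(k2,(nat_lit 334))],[(k11,(nat_lit 324)),(k1,(nat_lit 325)),(k7,(nat_lit 328)),(k5,(nat_lit 331)),
    (k9,(nat_lit 331)),(k3,(nat_lit 334))],[(k6,(nat_lit 301)),(k4,(nat_lit 320)),(k0,(nat_lit 322)),(k8,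
    (nat_lit 324)),(k2,(nat_lit 331)),(k10,(nat_lit 333))],[(k7,(nat_lit 317)),(k1,(nat_lit 318)),(k5,(nat_lit 320)),
    (k3,(nat_lit 331)),(k11,(nat_lit 333)),(k9,(nat_lit 340))],[(k6,(nat_lit 278)),(k8,(nat_lit 301)),(k0,
    (nat_lit 311)),(k4,(nat_lit 317)),(k10,(nat_lit 326)),(k2,(nat_lit 328))],[(k7,(nat_lit 278)),(k5,(nat_lit 301)),
    (k9,(nat_lit 301)),(k11,(nat_lit 322)),(k3,(nat_lit 324)),(k1,(nat_lit 325))],[(k8,(nat_lit 296)),(k6,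
    (nat_lit 301)),(k0,(nat_lit 302)),(k10,(nat_lit 303)),(k2,(nat_lit 331)),(k4,(nat_lit 340))],[(k9,(nat_lit 296)),
    (k7,(nat_lit 301)),(k1,(nat_lit 304)),(k11,(nat_lit 317)),(k5,(nat_lit 324)),(k3,(nat_lit 333))],[(k0,
    (nat_lit 309)),(k8,(nat_lit 317)),(k6,(nat_lit 322)),(k2,(nat_lit 324)),(k4,(nat_lit 333)),(k10,(nat_lit 340))],
    [(k9,(nat_lit 303)),(k7,(nat_lit 326)),(k1,(nat_lit 327)),(k3,(nat_lit 328)),(k5,(nat_lit 333)),(k11,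
    (nat_lit 340))]]
    [] k0
    [[k2,k0,k0,k0,k1,k0],[k1,k0,k1,k1,k0,k0],[k1,k0,k1,k0,k1,k0],[k1,k0,k0,k2,k0,k0],[k1,k0,k0,k1,k1,k0],[k1,k0,k0,k0,
    k2,k0],[k1,k0,k0,k0,k1,k1],[k0,k1,k0,k2,k0,k0],[k0,k1,k0,k1,k1,k0],[k0,k0,k2,k1,k0,k0],[k0,k0,k1,k2,k0,k0],[k0,k0,
    k1,k1,k1,k0],[k0,k0,k0,k3,k0,k0],[k0,k0,k0,k2,k1,k0],[k0,k0,k0,k2,k0,k1],[k0,k0,k0,k1,k2,k0],[k0,k0,k0,k1,k1,k1],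
    [k0,k0,k0,k0,k3,k0],[k0,k0,k0,k0,k2,k1]]
    [.ref (nat_lit 359) k7 [(z1,[z1,y3,y1,y8,z1]),(z1,[z1,y2,z0,y4]),(z1,[y1,z2,z0,z5]),(z1,[z0,z1,z0,z2])],
    .ref k167 k6 [(z1,[z1,z0,z0,z1,y1]),(z1,[z2,y1,z0,y1,y1]),(z1,[y1,z0,z1,z0,z1]),(z1,[z0,z0,y1])],
    .ref (nat_lit 236) k7 [(z1,[z1,y2,y1,y6,z1]),(z1,[z1,y1,z0,y2]),(z1,[y1,z1,z0,z3]),(z1,[z0,z1,z0,z2])],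
    .ref k167 k6 [(z2,[z1,z1,z0,z4,y2]),(z1,[z1,z0,z0,z1,y1]),(z2,[y1,y1,z2,y2,z2]),(z1,[z0,z0,y1])],
    .ref (nat_lit 343) k11 [(z1,[z2,z1,y2,z2,y2]),(z1,[z0,z0,y1]),(z1,[z1,z0,z0,z1,y1]),(z1,[y2,y1,z2,y3,z3])],
    .ref (nat_lit 236) k7 [(z2,[z1,y3,y2,y10,z2]),(z2,[z1,y1,z0,y2]),(z2,[y1,z1,z0,z4]),(z1,[z0,z1,z0,z2])],
    .ref (nat_lit 344) k3 [(z1,[z0,z0,z1]),(z1,[y1,z1,z0,z3]),(z1,[y2,y1,y3,y3,z3]),(z1,[z1,y1])],.ref k137 k10 [(z1,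
    [y1,y2,z0,y6,z2]),(z1,[z0,z1,z0,z2]),(z1,[y1,y2,y1,y6,z2]),(z1,[z1,z2,z1,z7,y2])],.ref k167 k6 [(z1,[z1,z1,y1,z2,
    y1]),(z1,[z2,z1,y2,z1,y1]),(z1,[y1,y1,z2,y1,z1]),(z1,[z0,z0,y1])],.ref k137 k10 [(z1,[y1,y1,z0,y3,z1]),(z1,[z0,z1,
    z0,z2]),(z1,[y1,y1,y1,y3,z1]),(z1,[z1,z1,z1,z4,y1])],.ref k125 k8 [(z1,[y3,z1,z1,z4,y1]),(z1,[z2,y1,y1,y3,z1]),
    (z1,[y2,z1,z0,z2]),(z1,[z2,y1,z0,y3,z1])],.ref k167 k6 [(z2,[z1,z1,y1,z2,y1]),(z1,[z1,z0,y1,y1]),(z2,[y1,y1,z3,z0,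
    z1]),(z1,[z0,z0,y1])],.ref (nat_lit 363) k10 [(z1,[y1,y3,z0,y9,z3]),(z1,[z0,z1,z0,z2]),(z1,[y1,y3,y3,y9,z3]),(z1,
    [z1,z3,z3,z12,y3])],.ref k167 k6 [(z3,[z1,z2,y1,z5,y2]),(z3,[z2,z1,y2,z1,y1]),(z3,[y1,y2,z4,y2,z2]),(z1,[z0,z0,
    y1])],.ref k137 k10 [(z1,[y1,y2,y1,y6,z2]),(z1,[z0,z1,z0,z2]),(z1,[y1,y2,y2,y6,z2]),(z1,[z1,z2,z2,z7,y2])],
    .ref k195 k0 [(z1,[y2,z1,y2,y2,z2]),(z1,[y1,y1,z2,y1,z1]),(z1,[z1,z1,z1,z4,y1]),(z1,[z1])],.ref k167 k6 [(z1,[z1,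
    z1,z0,z2,y1]),(z1,[z2,z1,z0,z1,y1]),(z1,[y1,y1,z1,y1,z1]),(z1,[z0,z0,y1])],.ref (nat_lit 364) k7 [(z1,[z1,y3,y3,
    y12,z3]),(z1,[z1]),(z1,[y1,z0,z0,z3]),(z1,[z0,z1,z0,z2])],.ref (nat_lit 236) k7 [(z1,[z1,y1,y1,y5,z1]),(z1,[z1,z0,
    z0,y1]),(z1,[y1,z0,z0,z2]),(z1,[z0,z1,z0,z2])]],
    .lp [(nat_lit 322),(nat_lit 332),(nat_lit 334),(nat_lit 312),(nat_lit 298),(nat_lit 320)] [k6,k6,k1,k1,k0,k0,k11,k11,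
    k18,k18,k7,k7] k0 [[k0,k0,k0,k0,k0,k0,k0,k0,k2,k0,k2],[k0,k0,k0,k22,k0,k0,k0,k6],[k22,k0,k0,k0,k10],[k0,k0,k0,k0,
    k0,k0,k0,k8,k0,k16],[k0,k0,k0,k0,k0,k0,k0,k0,k38],[k0,k0,k0,k10],[k6,k0,k8],[k0,k0,k0,k0,k0,k0,k0,k0,k0,k16,k0,
    k8],[k0,k0,k16,k0,k0,k0,k16],[k0,k2,k0,k0,k0,k38],[k0,k0,k0,k0,k0,k0,k8],[k0,k2]] (nat_lit 960) k5
    [[(k8,(nat_lit 310)),(k0,(nat_lit 320)),(k10,(nat_lit 321)),(k6,(nat_lit 325)),(k2,(nat_lit 327)),(k4,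
    (nat_lit 328))],[(k9,(nat_lit 316)),(k7,(nat_lit 317)),(k11,(nat_lit 319)),(k1,(nat_lit 320)),(k3,(nat_lit 327)),
    (k5,(nat_lit 350))],[(k2,(nat_lit 310)),(k6,(nat_lit 316)),(k8,(nat_lit 317)),(k0,(nat_lit 327)),(k10,
    (nat_lit 328)),(k4,(nat_lit 333))],[(k3,(nat_lit 310)),(k7,(nat_lit 312)),(k9,(nat_lit 323)),(k1,(nat_lit 327)),
    (k5,(nat_lit 333)),(k11,(nat_lit 342))],[(k8,(nat_lit 300)),(k6,(nat_lit 315)),(k10,(nat_lit 327)),(k2,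
    (nat_lit 333)),(k4,(nat_lit 344)),(k0,(nat_lit 350))],[(k11,(nat_lit 289)),(k9,(nat_lit 316)),(k7,(nat_lit 323)),
    (k1,(nat_lit 328)),(k3,(nat_lit 333)),(k5,(nat_lit 344))],[(k2,(nat_lit 312)),(k6,(nat_lit 312)),(k10,
    (nat_lit 316)),(k0,(nat_lit 317)),(k4,(nat_lit 323)),(k8,(nat_lit 343))],[(k9,(nat_lit 305)),(k7,(nat_lit 312)),
    (k5,(nat_lit 315)),(k3,(nat_lit 316)),(k1,(nat_lit 325)),(k11,(nat_lit 332))],[(k8,(nat_lit 282)),(k10,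
    (nat_lit 301)),(k6,(nat_lit 305)),(k0,(nat_lit 316)),(k4,(nat_lit 316)),(k2,(nat_lit 323))],[(k9,(nat_lit 282)),
    (k5,(nat_lit 300)),(k11,(nat_lit 309)),(k1,(nat_lit 310)),(k3,(nat_lit 317)),(k7,(nat_lit 343))],[(k4,
    (nat_lit 289)),(k8,(nat_lit 309)),(k0,(nat_lit 319)),(k10,(nat_lit 320)),(k6,(nat_lit 332)),(k2,(nat_lit 342))],
    [(k9,(nat_lit 301)),(k7,(nat_lit 316)),(k11,(nat_lit 320)),(k1,(nat_lit 321)),(k5,(nat_lit 327)),(k3,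
    (nat_lit 328))]]
    [] k0
    [[k2,k0,k0,k0,k1,k0],[k1,k0,k1,k0,k1,k0],[k1,k0,k0,k2,k0,k0],[k1,k0,k0,k1,k1,k0],[k1,k0,k0,k0,k2,k0],[k1,k0,k0,k0,
    k1,k1],[k0,k3,k0,k0,k0,k0],[k0,k2,k0,k1,k0,k0],[k0,k2,k0,k0,k1,k0],[k0,k1,k1,k0,k1,k0],[k0,k1,k0,k2,k0,k0],[k0,k1,
    k0,k1,k1,k0],[k0,k1,k0,k0,k2,k0],[k0,k1,k1,k0,k0,k1],[k0,k0,k1,k2,k0,k0],[k0,k0,k1,k1,k0,k1],[k0,k0,k1,k1,k1,k0],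
    [k0,k0,k1,k0,k2,k0],[k0,k0,k1,k0,k1,k1],[k0,k0,k1,k0,k0,k2],[k0,k0,k0,k3,k0,k0],[k0,k0,k0,k1,k2,k0],[k0,k0,k0,k1,
    k1,k1],[k0,k0,k0,k0,k3,k0],[k0,k0,k0,k0,k2,k1],[k0,k0,k0,k0,k1,k2]]
    [.ref k12 k0 [(z5,[z6,z1]),(z5,[y3,z2,z5]),(z10,[y3,z2,z0,z15]),(z10,[y9,z6,z0,z0,z5]),(z5,[z3,y2])],
    .ref k12 k0 [(z5,[z12,z1,z0,y6]),(z5,[y6,z2,z5,z3]),(z5,[y3,z1,z0,z9]),(z10,[y18,z6,z0,z9,z5]),(z5,[z6,y2,z0,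
    y3])],.ref k12 k0 [(z1,[y6,z3,z0,z0,z2]),(z1,[z3,y1,z1,z0,y1]),(z2,[z3,y1,z0,z3,y1]),(z2,[z9,y3,z0,z0,y2]),(z1,
    [y3,z1,z0,z0,z1])],.ref k12 k0 [(z3,[z12,y1,z0,z0,y2]),(z3,[y6,z2,z3,z0,z1]),(z6,[y6,z2,z0,z9,z1]),(z1,[y3,z1,z0,
    z0,z1]),(z3,[z6,y2,z0,z0,y1])],.ref k12 k0 [(z2,[z3,z1]),(z4,[y3,z1,z4]),(z8,[y3,z1,z0,z12]),(z8,[y9,z3,z0,z0,
    z4]),(z4,[z3,y1])],.ref k12 k0 [(z3,[z6,z3,z2,z3,z1,y6]),(z6,[y6,z0,z4,y3,y1,z6]),(z12,[y6,z0,y2,z15,y1,z6]),(z4,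
    [y6,z0,y2,y3,z1,z6]),(z6,[z6,z0,z2,z3,z1,y6])],.ref k12 k0 [(z1,[y2,z1,z2]),(z1,[z1]),(z2,[z1,z0,y1,z3]),(z2,[z3,
    z0,y3,z0,z1]),(z1,[y1,z0,z1])],.ref k12 k0 [(z7,[y12,z7,z8,z0,z2]),(z7,[z6,z0,z3,z0,y1]),(z14,[z6,z0,y4,z21,y1]),
    (z7,[z9,z0,y6,z0,z2]),(z7,[y6,z0,z4,z0,z1])],.ref k12 k0 [(z1,[y6,z1,z4]),(z1,[z3,z0,y1]),(z2,[z3,z0,y2,z3]),(z2,
    [z9,z0,y6,z0,z1]),(z1,[y3,z0,z2])],.ref k12 k0 [(z1,[y12,z1,z4,z6]),(z1,[z6,z0,y1,y3]),(z1,[z3,z0,y1]),(z2,[z18,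
    z0,y6,y9,z1]),(z1,[y6,z0,z2,z3])],.ref k12 k0 [(z2,[y3,z2,z1,z0,z1]),(z4,[z3,z0,z3,z0,y1]),(z8,[z3,z0,y1,z12,y1]),
    (z8,[z9,z0,y3,z0,z1]),(z4,[y3,z0,z1,z0,z1])],.ref k12 k0 [(z3,[y12,z3,z4,z0,z2]),(z3,[z6,z0,z1,z0,y1]),(z6,[z6,z0,
    y2,z9,y1]),(z1,[z3,z0,y1]),(z3,[y6,z0,z2,z0,z1])],.ref k12 k0 [(z1,[z6,z1,y2]),(z1,[y3,z0,z2]),(z2,[y3,z0,z1,z3]),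
    (z2,[y9,z0,z3,z0,z1]),(z1,[z3,z0,y1])],.ref k12 k0 [(z3,[y12,y1,z0,z0,y2,z12]),(z3,[z6,z2,z3,z0,z1,y6]),(z6,[z6,
    z2,z0,z9,z1,y6]),(z1,[z3,z1,z0,z0,z1,y3]),(z3,[y6,y2,z0,z0,y1,z6])],.ref k12 k0 [(z7,[y12,z7,z0,z6,z4]),(z7,[z6,
    z0,z7,y3,y2]),(z7,[z3,z0,z0,z9,y1]),(z14,[z18,z0,z0,y9,z1]),(z7,[y6,z0,z0,z3,z2])],.ref k12 k0 [(z1,[y3,z0,y1,z0,
    z0,z3]),(z2,[z3,z1,z3,z0,z0,y3]),(z4,[z3,z1,z1,z6,z0,y3]),(z4,[z9,z3,z3,z0,z2,y9]),(z2,[y3,y1,y1,z0,z0,z3])],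
    .ref k12 k0 [(z1,[y6,z1,z0,z3,z1]),(z2,[z6,z0,z2,y3,y1]),(z4,[z6,z0,z0,z3,y1]),(z4,[z18,z0,z0,y9,y1]),(z2,[y6,z0,
    z0,z3,z1])],.ref k12 k0 [(z1,[z4,z1,z0,y2]),(z1,[y2,z0,z1,z1]),(z1,[y1,z0,z0,z2]),(z2,[y6,z0,z0,z3,z1]),(z1,[z2,
    z0,z0,y1])],.ref k12 k0 [(z1,[z12,z5,z4,z0,z2,y12]),(z1,[y6,y2,y1,z0,y1,z6]),(z2,[y6,y2,y2,z3,y1,z6]),(z1,[y9,y3,
    y3,z0,y1,z9]),(z1,[z6,z2,z2,z0,z1,y6])],.ref k12 k0 [(z1,[y12,y7,y8,y6,y4,z24]),(z1,[z6,z4,z5,z3,z2,y12]),(z1,[z3,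
    z2,z2,z3,z1,y6]),(z2,[z18,z12,z12,z9,z7,y36]),(z1,[y6,y4,y4,y3,y2,z12])],.ref k12 k0 [(z3,[y4,z3,z0,z0,z2]),(z3,
    [z2,z0,z3,z0,y1]),(z6,[z2,z0,z0,z9,y1]),(z1,[z1]),(z3,[y2,z0,z0,z0,z1])],.ref k12 k0 [(z1,[z12,z1,z0,z0,y2]),(z1,
    [y6,z0,z1,z0,z1]),(z2,[y6,z0,z0,z3,z1]),(z1,[y9,z0,z0,z0,z2]),(z1,[z6,z0,z0,z0,y1])],.ref k12 k0 [(z1,[y12,y3,y4,
    y6,z0,z12]),(z1,[z6,z2,z3,z3,z0,y6]),(z1,[z3,z1,z1,z3,z0,y3]),(z2,[z18,z6,z6,z9,z1,y18]),(z1,[y6,y2,y2,y3,z0,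
    z6])],.ref k12 k0 [(z1,[z2,z1]),(z1,[y1,z0,z1]),(z2,[y1,z0,z0,z3]),(z2,[y3,z0,z0,z0,z1]),(z1,[z1])],
    .ref k12 k0 [(z2,[z6,z4,z2,z3,z1,y6]),(z4,[y6,y2,z2,y3,y1,z6]),(z8,[y6,y2,y2,z9,y1,z6]),(z8,[y18,y6,y6,y9,z1,
    z18]),(z4,[z6,z2,z2,z3,z1,y6])],.ref k12 k0 [(z1,[z6,z5,z4,z6,z2,y12]),(z1,[y3,y2,y1,y3,y1,z6]),(z2,[y3,y2,y2,z0,
    y1,z6]),(z2,[y9,y6,y6,y9,y2,z18]),(z1,[z3,z2,z2,z3,z1,y6])]],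
    .lp [k152,k166,k168,k162,k144,k166] [k8,k8,k1,k1,k0,k0,k3,k3,k12,k12,k1,k1] k0 [[k0,k0,k0,k0,k0,k0,k4,k0,k14],[k0,k0,
    k0,k0,k0,k0,k0,k0,k0,k0,k0,k8],[k0,k0,k0,k0,k4,k0,k0,k0,k0,k0,k4],[k0,k0,k0,k0,k0,k0,k0,k12,k0,k4],[k0,k0,k0,k0,
    k0,k0,k0,k0,k30],[k0,k0,k0,k4],[k0,k0,k12],[k0,k4,k0,k0,k0,k0,k0,k0,k0,k0,k0,k14],[k0,k0,k4,k0,k0,k0,k0,k0,k0,k0,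
    k18],[k0,k14,k0,k0,k0,k30],[k8,k0,k0,k0,k0,k0,k14],[k0,k0,k0,k4,k0,k0,k0,k0,k0,k18]] (nat_lit 480) k5
    [[(k8,k130),(k2,k155),(k10,k159),(k0,k160),(k4,k160),(k6,k171)],[(k9,k144),(k11,k145),(k7,k157),(k3,k159),(k1,
    k160),(k5,k160)],[(k10,k158),(k0,k159),(k2,k166),(k4,k167),(k6,k168),(k8,k169)],[(k1,k155),(k7,k160),(k3,k166),
    (k5,k167),(k9,k167),(k11,k170)],[(k8,k152),(k6,k153),(k0,k160),(k2,k167),(k10,k171),(k4,k172)],[(k11,k137),(k9,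
    k156),(k1,k160),(k7,k165),(k3,k167),(k5,k172)],[(k0,k157),(k2,k160),(k6,k162),(k10,k164),(k4,k165),(k8,k183)],
    [(k5,k153),(k9,k153),(k7,k162),(k11,k164),(k3,k168),(k1,k171)],[(k10,k141),(k0,k144),(k8,k144),(k6,k153),(k4,
    k156),(k2,k167)],[(k1,k130),(k9,k144),(k5,k152),(k11,k155),(k3,k169),(k7,k183)],[(k4,k137),(k0,k145),(k8,k155),
    (k6,k164),(k2,k170),(k10,k184)],[(k9,k141),(k3,k158),(k1,k159),(k7,k164),(k5,k171),(k11,k184)]]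
    [] k0
    [[k2,k1,k0,k0,k0,k0],[k2,k0,k0,k0,k1,k0],[k2,k0,k0,k0,k0,k1],[k1,k1,k0,k0,k1,k0],[k1,k1,k0,k0,k0,k1],[k1,k0,k1,k1,
    k0,k0],[k1,k0,k1,k0,k1,k0],[k1,k0,k1,k0,k0,k1],[k1,k0,k0,k1,k1,k0],[k1,k0,k0,k0,k2,k0],[k1,k0,k0,k0,k1,k1],[k0,k1,
    k1,k0,k0,k1],[k0,k0,k1,k1,k0,k1],[k0,k0,k1,k1,k1,k0],[k0,k0,k1,k0,k2,k0],[k0,k0,k1,k0,k1,k1],[k0,k0,k0,k1,k1,k1],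
    [k0,k0,k0,k0,k3,k0],[k0,k0,k0,k0,k2,k1]]
    [.ref k12 k0 [(z4,[z7,y2,y7]),(z2,[y1,z2,z7]),(z2,[y1,z2,z1,z6]),(z1,[y2,z4,z2,z0,z3]),(z1,[z1,y5,y4,y3,y3,z3])],
    .ref k12 k0 [(z6,[z7,z11,z7,z7,z7,y7]),(z3,[y1,z1,z8,y1,y1,z1]),(z3,[y1,z1,y1,z8,y1,z1]),(z3,[y4,z4,y4,y4,z5,z4]),
    (z3,[z2,y11,y7,y7,y7,z7])],.ref k12 k0 [(z5,[z7,z1]),(z5,[y2,z4,z15]),(z5,[y2,z4,z0,z15]),(z5,[y8,z16,z0,z0,z15]),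
    (z5,[z4,y23,y15,y15,y15,z15])],.ref k12 k0 [(z3,[z7,z9,z0,z7,z7,y7]),(z3,[y2,z0,z9,y2,y2,z2]),(z3,[y2,z0,z0,z7,y2,
    z2]),(z3,[y8,z0,z0,y8,z1,z8]),(z3,[z4,y9,y9,y5,y5,z5])],.ref k12 k0 [(z2,[z7,y1,y7]),(z1,[y1,z1,z4]),(z1,[y1,z1,
    z1,z3]),(z1,[y4,z4,z4,z0,z3]),(z1,[z2,y5,y5,y3,y3,z3])],.ref k12 k0 [(z1,[y7,z10,z0,z7,z7]),(z1,[z2,y2,z3,y2,y2]),
    (z1,[z2,y2,z0,z1,y2]),(z1,[z8,y8,z0,y8,y5]),(z1,[y4,z1,y3,z1,z1,z3])],.ref k12 k0 [(z3,[z7,z9,z7,z0,z7,y7]),(z3,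
    [y2,z0,z7,z0,y2,z2]),(z3,[y2,z0,y2,z9,y2,z2]),(z3,[y8,z0,y8,z0,z1,z8]),(z3,[z4,y9,y5,y9,y5,z5])],.ref k12 k0 [(z2,
    [z7,y1,z0,y7]),(z1,[y1,z1,z3,z1]),(z1,[y1,z1,z0,z4]),(z1,[y4,z4,z0,z4,z3]),(z1,[z2,y5,y3,y5,y3,z3])],
    .ref k12 k0 [(z1,[z7,z3,z7,z7,z0,y7]),(z1,[y2,z0,z1,y2,z0,z2]),(z1,[y2,z0,y2,z1,z0,z2]),(z1,[y8,z0,y8,y8,z3,z8]),
    (z1,[z4,y3,z1,z1,y3,y1])],.ref k12 k0 [(z5,[z7,z22,z14,z14,z14,y14]),(z5,[y2,y2,z11,y4,y4,z4]),(z5,[y2,y2,y4,z11,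
    y4,z4]),(z5,[y8,y8,y16,y16,y1,z16]),(z5,[z4,y11,y7,y7,y7,z7])],.ref k12 k0 [(z4,[z7,z12,z7,z7,z7,y7]),(z2,[y1,z0,
    z5,y1,y1,z1]),(z2,[y1,z0,y1,z5,y1,z1]),(z1,[y2,z0,y2,y2,z1,z2]),(z1,[z1,y3,y2,y2,y2,z2])],.ref k12 k0 [(z1,[y7,z3,
    z7,z7]),(z1,[z2,z0,z1,y2]),(z1,[z2,z0,y2,z1]),(z1,[z8,z0,y8,y8,z3]),(z1,[y4,y3,z1,z1,y3,z3])],.ref k12 k0 [(z3,
    [y7,z9,z0,z7,z7]),(z3,[z2,z0,z9,y2,y2]),(z3,[z2,z0,z0,z7,y2]),(z3,[z8,z0,z0,y8,z1]),(z3,[y4,y9,y9,y5,y5,z9])],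
    .ref k12 k0 [(z2,[y7,y1,y7,z0,z0,z7]),(z1,[z1,z1,z4,z0,z0,y1]),(z1,[z1,z1,z1,z3,z0,y1]),(z1,[z4,z4,z4,z0,z3,y4]),
    (z1,[y2,y5,y5,y3,y3,z5])],.ref k12 k0 [(z2,[z7,z20,z14,z7,z14,y14]),(z1,[y1,y2,z1,y1,y2,z2]),(z1,[y1,y2,y2,z2,y2,
    z2]),(z1,[y4,y8,y8,y4,y5,z8]),(z1,[z2,z1,z1,y1,z1,y1])],.ref k12 k0 [(z1,[z7,z10,z7,z0,z7,y7]),(z1,[y2,y2,z1,z0,
    y2,z2]),(z1,[y2,y2,y2,z3,y2,z2]),(z1,[y8,y8,y8,z0,y5,z8]),(z1,[z4,z1,z1,y3,z1,y1])],.ref k12 k0 [(z1,[y7,y4,y7,y7,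
    z0,z7]),(z1,[z2,z2,z5,z2,z0,y2]),(z1,[z2,z2,z2,z5,z0,y2]),(z1,[z8,z8,z8,z8,z3,y8]),(z1,[y4,y7,y7,y7,y3,z7])],
    .ref k12 k0 [(z4,[z7,z33,z21,z21,z21,y21]),(z2,[y1,y3,z3,y3,y3,z3]),(z2,[y1,y3,y3,z3,y3,z3]),(z1,[y2,y6,y6,y6,y3,
    z6]),(z1,[z1])],.ref k12 k0 [(z3,[z7,z23,z14,z14,z14,y14]),(z3,[y2,y4,z5,y4,y4,z4]),(z3,[y2,y4,y4,z5,y4,z4]),(z3,
    [y8,y16,y16,y16,y7,z16]),(z3,[z4,y1,y1,y1,y1,z1])]],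
    .lp [k168,k168,k156,k160,k142,k164] [k0,k0,k0,k0,k6,k6,k4,k4,k13,k13,k2,k2] k0 [[k0,k0,k0,k0,k4,k0,k0,k0,k0,k0,k6],
    [k0,k0,k0,k8],[k8,k0,k0,k0,k8],[k0,k0,k0,k0,k0,k0,k0,k0,k0,k0,k0,k2],[k0,k0,k0,k0,k0,k0,k18],[k0,k4,k0,k8],[k0,k0,
    k0,k0,k0,k0,k0,k0,k0,k0,k12],[k0,k0,k0,k0,k0,k18,k0,k0,k0,k2],[k0,k0,k0,k0,k0,k0,k2],[k0,k0,k0,k0,k0,k0,k0,k0,k0,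
    k0,k0,k2],[k0,k0,k2,k0,k0,k0,k0,k0,k2],[k0,k6,k0,k0,k0,k0,k0,k12]] (nat_lit 480) k5
    [[(k6,k152),(k8,k157),(k0,k162),(k4,k162),(k10,k166),(k2,k170)],[(k9,k155),(k7,k160),(k1,k162),(k11,k166),(k3,
    k168),(k5,k170)],[(k8,k155),(k2,k160),(k6,k164),(k4,k166),(k0,k168),(k10,k172)],[(k9,k155),(k7,k156),(k3,k160),
    (k5,k162),(k11,k166),(k1,k170)],[(k8,k149),(k6,k158),(k10,k158),(k2,k162),(k4,k164),(k0,k170)],[(k9,k131),(k7,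
    k158),(k11,k160),(k1,k162),(k5,k164),(k3,k166)],[(k8,k151),(k2,k156),(k4,k158),(k0,k160),(k10,k162),(k6,k178)],
    [(k9,k151),(k1,k152),(k5,k158),(k3,k164),(k11,k164),(k7,k178)],[(k4,k131),(k8,k140),(k6,k151),(k0,k155),(k2,k155),
    (k10,k165)],[(k9,k140),(k5,k149),(k7,k151),(k11,k153),(k3,k155),(k1,k157)],[(k8,k153),(k4,k160),(k10,k162),(k6,
    k164),(k0,k166),(k2,k166)],[(k5,k158),(k7,k162),(k11,k162),(k9,k165),(k1,k166),(k3,k172)]]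
    [] k0
    [[k2,k0,k0,k1,k0,k0],[k2,k0,k0,k0,k1,k0],[k1,k0,k1,k0,k1,k0],[k1,k1,k0,k1,k0,k0],[k1,k0,k0,k1,k1,k0],[k1,k0,k0,k0,
    k2,k0],[k1,k0,k0,k0,k1,k1],[k0,k2,k0,k0,k1,k0],[k0,k1,k1,k0,k1,k0],[k0,k1,k0,k1,k1,k0],[k0,k1,k0,k0,k2,k0],[k0,k0,
    k2,k0,k1,k0],[k0,k0,k1,k1,k1,k0],[k0,k0,k1,k0,k2,k0],[k0,k0,k1,k0,k1,k1],[k0,k0,k0,k1,k2,k0],[k0,k0,k0,k1,k1,k1],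
    [k0,k0,k0,k0,k3,k0],[k0,k0,k0,k0,k2,k1]]
    [.ref k12 k0 [(z7,[z6,z3,z0,z0,y2]),(z1,[z0,z0,z1]),(z7,[y12,z8,z0,z7,z4]),(z7,[z9,y6,z0,z0,z4]),(z7,[y6,y3,y7,y7,
    y5,z21])],.ref k12 k0 [(z1,[z3,z0,z1,z1,z1,y3]),(z1,[z0,z0,z1]),(z1,[y6,z2,y2,y1,y2,z6]),(z2,[z9,y3,z3,z3,z5,y9]),
    (z1,[y3,z0,y2,y2,y2,z6])],.ref k12 k0 [(z2,[y3,z2,y1,z0,y1,z3]),(z1,[z0,z0,z1]),(z1,[z3,z0,z1,z1,z1,y3]),(z4,[y9,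
    z0,y3,z0,z1,z9]),(z2,[z3,y2,y1,y2,y1,z3])],.ref k12 k0 [(z5,[z6,z3,y2,z0,y2]),(z1,[z0,z0,z1]),(z5,[y12,z4,z4,z5,
    z4]),(z5,[z9,y3,y3,z0,z2]),(z5,[y6,y3,y3,y5,y3,z15])],.ref k12 k0 [(z3,[z6,z3,z2,z2,z0,y6]),(z1,[z0,z0,z1]),(z3,
    [y12,z0,y4,y1,z0,z12]),(z1,[z3,z0,z1,z1,z1,y3]),(z3,[y6,y3,y5,y5,y3,z15])],.ref k12 k0 [(z1,[y3,z0,y2,y2,y2,z6]),
    (z1,[z0,z0,z1]),(z1,[z6,z2,z4,z5,z4,y12]),(z2,[y9,y3,y6,y6,y4,z18]),(z1,[z3,z0,z1,z1,z1,y3])],.ref k12 k0 [(z1,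
    [z6,z1,z2,z2,z2,y6]),(z1,[z0,z0,z1]),(z1,[y12,z0,y4,y3,y4,z12]),(z1,[z9,z0,z3,z3,z4,y9]),(z1,[y6,y1,y3,y3,y3,
    z9])],.ref k12 k0 [(z1,[y3,z0,z1,y1,y1,z3]),(z1,[z0,z0,z1]),(z1,[z6,z2,y2,z3,z2,y6]),(z2,[y9,y3,z3,y3,y1,z9]),(z1,
    [z3,z0,y2])],.ref k12 k0 [(z3,[y3,z2,z0,z0,y1,z3]),(z1,[z0,z0,z1]),(z3,[z6,z2,z0,z3,z2,y6]),(z2,[y3,y1,z0,z0,z1,
    z3]),(z3,[z3,y2,y3,y3,y2,z6])],.ref k12 k0 [(z1,[z6,z3,z0,z2,z0,y6]),(z1,[z0,z0,z1]),(z1,[y12,y4,z0,y3,z0,z12]),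
    (z1,[z9,z3,z0,z3,z1,y9]),(z1,[y6,y3,y1,y3,y1,z9])],.ref k12 k0 [(z2,[y3,z0,y1,y2,y2,z6]),(z1,[z0,z0,z1]),(z1,[z3,
    z2,z1,z3,z2,y6]),(z4,[y9,y6,y3,y6,y2,z18]),(z2,[z3,z0,y1])],.ref k12 k0 [(z5,[y3,z4,y1,z1,y1,z3]),(z1,[z0,z0,z1]),
    (z5,[z6,z2,z2,z3,z2,y6]),(z10,[y9,y3,y3,z3,z7,z9]),(z5,[z3,y4,y4,y6,y4,z12])],.ref k12 k0 [(z3,[y6,z1,y2,z0,z0,
    z6]),(z1,[z0,z0,z1]),(z3,[z12,z4,z4,z3,z0,y12]),(z1,[y3,y1,y1,z0,z1,z3]),(z3,[z6,y1,y1,y3,y3,z3])],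
    .ref k12 k0 [(z4,[y3,z2,y2,y1,y2,z6]),(z1,[z0,z0,z1]),(z2,[z3,z2,z2,z3,z2,y6]),(z8,[y9,y6,y6,y3,z2,z18]),(z4,[z3,
    y2,y2,y3,y2,z6])],.ref k12 k0 [(z5,[y6,z3,y2,z0,y2,z6]),(z1,[z0,z0,z1]),(z5,[z12,z4,z4,z5,z4,y12]),(z5,[y9,y3,y3,
    z0,z2,z9]),(z5,[z6,y3,y3,y5,y3,z9])],.ref k12 k0 [(z1,[y6,y3,y4,y4,y2,z12]),(z1,[z0,z0,z1]),(z1,[z12,z8,z8,z9,z4,
    y24]),(z1,[y9,y6,y6,y6,y2,z18]),(z1,[z6,z3,z3,z3,z1,y9])],.ref k12 k0 [(z1,[z3,z2,z1,z1,z0,y3]),(z1,[z0,z0,z1]),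
    (z1,[y6,y2,y2,y1,z0,z6]),(z2,[z9,z3,z3,z3,z2,y9]),(z1,[y3,y2,y2,y2,y1,z6])],.ref k12 k0 [(z1,[y1,z0,y1,y1,y1,z3]),
    (z1,[z0,z0,z1]),(z1,[z2,z2,z2,z3,z2,y6]),(z2,[y3,y3,y3,y3,y1,z9]),(z1,[z1])],.ref k12 k0 [(z3,[y6,y1,y4,y4,y4,
    z12]),(z1,[z0,z0,z1]),(z3,[z12,z8,z8,z11,z8,y24]),(z1,[y3,y2,y2,y2,y1,z6]),(z3,[z6,z1,z1,z1,z1,y3])]],
    .lp [k160,k162,k166,k152,k140,k178] [k11,k7,k8,k8,k6,k6,k13,k13,k19,k19,k0,k0] k0 [[k0,k0,k0,k0,k24],[k0,k0,k0,k22],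
    [k22,k0,k0,k0,k24],[k0,k0,k0,k0,k0,k0,k0,k0,k0,k16,k0,k18],[k0,k0,k0,k0,k0,k0,k0,k0,k36,k0,k28],[k0,k24,k0,k24],
    [k0,k0,k0,k0,k0,k0,k0,k0,k0,k0,k38],[k0,k0,k0,k0,k0,k0,k0,k0,k0,k14],[k0,k0,k16,k0,k0,k0,k14],[k0,k0,k0,k0,k0,k36,
    k0,k0,k0,k0,k0,k54],[k0,k0,k18,k0,k0,k0,k0,k0,k54],[k0,k0,k0,k0,k0,k28,k0,k38]] (nat_lit 480) k5
    [[(k6,k120),(k4,k137),(k0,k160),(k10,k171),(k2,k181),(k8,(nat_lit 206))],[(k7,k130),(k9,k148),(k3,k159),(k1,k160),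
    (k11,k167),(k5,k183)],[(k2,k140),(k8,k151),(k6,k157),(k0,k159),(k10,k170),(k4,k188)],[(k7,k133),(k3,k140),(k9,
    k151),(k5,k164),(k1,k181),(k11,k186)],[(k8,k137),(k10,k154),(k6,k159),(k2,k164),(k0,k183),(k4,k190)],[(k11,k136),
    (k1,k137),(k9,k153),(k7,k159),(k3,k188),(k5,k190)],[(k0,k130),(k2,k133),(k6,k152),(k4,k159),(k8,k182),(k10,k193)],
    [(k1,k120),(k9,k146),(k7,k152),(k3,k157),(k5,k159),(k11,k179)],[(k8,k126),(k6,k146),(k0,k148),(k2,k151),(k4,k153),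
    (k10,k197)],[(k9,k126),(k5,k137),(k3,k151),(k11,k159),(k7,k182),(k1,(nat_lit 206))],[(k10,k124),(k4,k136),(k8,
    k159),(k0,k167),(k6,k179),(k2,k186)],[(k11,k124),(k5,k154),(k3,k170),(k1,k171),(k7,k193),(k9,k197)]]
    [] k0
    [[k2,k0,k0,k1,k0,k0],[k1,k1,k0,k1,k0,k0],[k1,k1,k1,k0,k0,k0],[k1,k0,k1,k1,k0,k0],[k1,k0,k1,k0,k1,k0],[k1,k0,k1,k0,
    k0,k1],[k1,k0,k0,k2,k0,k0],[k1,k0,k0,k1,k1,k0],[k1,k0,k0,k0,k1,k1],[k1,k0,k0,k0,k0,k2],[k0,k3,k0,k0,k0,k0],[k0,k2,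
    k0,k1,k0,k0],[k0,k2,k0,k0,k1,k0],[k0,k1,k1,k0,k1,k0],[k0,k1,k0,k2,k0,k0],[k0,k1,k0,k1,k1,k0],[k0,k1,k0,k0,k2,k0],
    [k0,k1,k1,k0,k0,k1],[k0,k0,k1,k2,k0,k0],[k0,k0,k1,k1,k1,k0],[k0,k0,k1,k0,k2,k0],[k0,k0,k1,k0,k1,k1],[k0,k0,k1,k0,
    k0,k2],[k0,k0,k0,k3,k0,k0],[k0,k0,k0,k1,k2,k0],[k0,k0,k0,k0,k3,k0],[k0,k0,k0,k0,k0,k3]]
    [.ref k12 k0 [(z5,[z4,z7,z0,z0,y4]),(z5,[y2,z4,z15,z0,z2]),(z5,[y8,z16,z0,z15,z8]),(z5,[z7,y14,z0,z0,z8]),(z5,[y2,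
    y11,y15,y15,y13,z15])],.ref k12 k0 [(z3,[z4,z5,y4,z0,y4]),(z3,[y2,z2,z11,z0,z2]),(z3,[y8,z8,z8,z9,z8]),(z3,[z7,y7,
    y7,z0,z2]),(z3,[y2,y7,y7,y9,y7,z9])],.ref k12 k0 [(z1,[y2,z5,z2,z2]),(z1,[z1,y1,z2,y1]),(z1,[z4,y4,y4,y1]),(z2,
    [y7,z7,z7,z7,z6]),(z1,[z1,y4,y4,y4,y3,z3])],.ref k12 k0 [(z1,[z4,y1,z0,y4,y4]),(z1,[y2,z2,z3,z2,z2]),(z1,[y8,z8,
    z0,z11,z8]),(z1,[z7,y7,z0,y7,y4]),(z1,[y2,y1,y3,y1,y1,z3])],.ref k12 k0 [(z1,[y2,z3,y2,z0,y2,z2]),(z1,[z1,z0,z4,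
    z0,z1,y1]),(z1,[z4,z0,z4,z3,z4,y4]),(z2,[y7,z0,y7,z0,y1,z7]),(z1,[z1,y3,y2,y3,y2,z2])],.ref k12 k0 [(z1,[y4,z7,z0,
    z4]),(z1,[z2,y2,z3,y2]),(z1,[z8,y8,z0,y5]),(z1,[y7,z7,z0,z7,z3]),(z1,[z2,y5,y3,y5,y3,z3])],.ref k12 k0 [(z3,[z2,
    z7,z0,z0,y4]),(z3,[y1,z1,z9,z0,z2]),(z3,[y4,z4,z0,z9,z8]),(z6,[z7,y7,z0,z0,z4]),(z3,[y1,y8,y9,y9,y7,z9])],
    .ref k12 k0 [(z3,[z4,z9,z4,z4,z0,y4]),(z3,[y2,z0,z7,y2,z0,z2]),(z3,[y8,z0,y8,z1,z0,z8]),(z3,[z7,z0,z7,z7,z9,y7]),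
    (z3,[y2,y9,y11,y11,y9,z11])],.ref k12 k0 [(z1,[z4,z3,z4,z4,z4,y4]),(z1,[y2,z0,z1,y2,y2,z2]),(z1,[y8,z0,y8,y5,y8,
    z8]),(z1,[z7,z0,z7,z7,z10,y7]),(z1,[y2,y3,y5,y5,y5,z5])],.ref k12 k0 [(z1,[z2,z1]),(z1,[y1,z1,z3]),(z1,[y4,z4,z0,
    z3]),(z2,[z7,y7,z0,z0,z6]),(z1,[y1,y2,y3,y3,y3,z3])],.ref k12 k0 [(z1,[y2,z3,z6]),(z1,[z1]),(z1,[z4,z0,y12,z3]),
    (z2,[y7,z0,z21,z0,z6]),(z1,[z1,y3,y6,y3,y3,z3])],.ref k12 k0 [(z1,[z4,z3,y8,z0,y4]),(z1,[y2,z0,z7,z0,z2]),(z1,[y8,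
    z0,z16,z3,z8]),(z1,[z7,z0,y14,z0,y4]),(z1,[y2,y3,z1,y3,y1,z3])],.ref k12 k0 [(z1,[y2,z1,z2,y2,y2,z2]),(z1,[z1,z1,
    z2,z1,z1,y1]),(z1,[z4,z4,y4,z7,z4,y4]),(z2,[y7,y7,z7,y7,y1,z7]),(z1,[z1,y2,y4,y2,y2,z2])],.ref k12 k0 [(z1,[y1,z2,
    z0,z0,y1,z1]),(z2,[z1,z1,z6,z0,z1,y1]),(z1,[z2,z2,z0,z3,z2,y2]),(z4,[y7,y7,z0,z0,z5,z7]),(z2,[z1,y5,y6,y6,y5,
    z5])],.ref k12 k0 [(z1,[z1,z3,y1,z0,y2]),(z2,[y1,z0,z7,z0,z2]),(z1,[y2,z0,z2,z3,z4]),(z4,[z7,z0,y7,z0,y2]),(z2,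
    [y1,y6,y5,y6,y4,z6])],.ref k12 k0 [(z1,[z4,z7,z0,z4,z0,y4]),(z1,[y2,y2,z3,y2,z0,z2]),(z1,[y8,y8,z0,y5,z0,z8]),(z1,
    [z7,z7,z0,z7,z3,y7]),(z1,[y2,y5,y3,y5,y3,z5])],.ref k12 k0 [(z1,[y2,y1,y2,y4,y4,z4]),(z1,[z1,z2,z4,z2,z2,y2]),(z1,
    [z4,z8,z4,z11,z8,y8]),(z2,[y7,y14,y7,y14,y8,z14]),(z1,[z1,y1,y2,y1,y1,z1])],.ref k12 k0 [(z3,[y4,z9,z4,z4]),(z3,
    [z2,z0,z7,y2]),(z3,[z8,z0,y8,z1]),(z3,[y7,z0,z7,z7,z9]),(z3,[z2,y9,y11,y11,y9,z9])],.ref k12 k0 [(z1,[z2,z3,z0,y2,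
    y4]),(z1,[y1,z0,z3,z1,z2]),(z1,[y4,z0,z0,z7,z8]),(z2,[z7,z0,z0,y7,y8]),(z1,[y1,y3,y3,y2,y1,z3])],.ref k12 k0 [(z1,
    [y4,y1,y4,z0,z0,z4]),(z1,[z2,z2,z5,z0,z0,y2]),(z1,[z8,z8,z8,z3,z0,y8]),(z1,[y7,y7,y7,z0,z3,z7]),(z1,[z2,y1,y1,y3,
    y3,z1])],.ref k12 k0 [(z1,[y1,z1,y2,y1,y2,z2]),(z2,[z1,z2,z8,z1,z2,y2]),(z1,[z2,z4,z4,z5,z4,y4]),(z4,[y7,y14,y14,
    y7,y2,z14]),(z2,[z1,y4,y4,y5,y4,z4])],.ref k12 k0 [(z3,[y4,z5,y4,z0,y4,z4]),(z3,[z2,z2,z11,z0,z2,y2]),(z3,[z8,z8,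
    z8,z9,z8,y8]),(z3,[y7,y7,y7,z0,z2,z7]),(z3,[z2,y7,y7,y9,y7,z7])],.ref k12 k0 [(z1,[y2,z3,z0,z2]),(z1,[z1,z0,z3,
    y1]),(z1,[z4,z0,z0,y1]),(z2,[y7,z0,z0,z7,z6]),(z1,[z1,y3,y3,y4,y3,z3])],.ref k12 k0 [(z7,[z4,z21,z0,z0,y12]),(z7,
    [y2,z0,z21,z0,z6]),(z7,[y8,z0,z0,z21,z24]),(z1,[z1]),(z7,[y2,y21,y21,y21,y15,z21])],.ref k12 k0 [(z1,[z4,z11,z8,
    z8,z4,y8]),(z1,[y2,y4,y1,y4,y2,z4]),(z1,[y8,y16,y16,y13,y8,z16]),(z1,[z7,z14,z14,z14,z10,y14]),(z1,[y2,y7,y7,y7,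
    y5,z7])],.ref k12 k0 [(z1,[y2,y3,y6,y6,y6,z6]),(z1,[z1,z3,z6,z3,z3,y3]),(z1,[z4,z12,z12,z15,z12,y12]),(z2,[y7,y21,
    y21,y21,y15,z21]),(z1,[z1])],.ref k12 k0 [(z1,[z4,z3]),(z1,[y2,z0,z3]),(z1,[y8,z0,z0,z3]),(z1,[z7,z0,z0,z0,z3]),
    (z1,[y2,y3,y3,y3,y3,z3])]],
    .lp [(nat_lit 944),(nat_lit 944),(nat_lit 932),(nat_lit 1004),(nat_lit 980),(nat_lit 950)] [k30,k30,k30,k30,k36,k36,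
    k0,k0,k12,k12,k27,k27] k0 [[k0,k0,k0,k0,k0,k0,k0,k0,k6,k0,k114],[k0,k0,k0,k72],[k72],[k0,k0,k0,k0,k0,k0,k0,k0,k0,
    k0,k0,k6],[],[k0,k0,k0,k0,k0,k0,k0,k36,k0,k72],[k0,k0,k0,k0,k36,k0,k0,k0,k0,k0,k12],[k0,k0,k0,k0,k0,k0,k0,k0,k0,
    k6],[k0,k0,k0,k0,k72,k0,k6],[k0,k6,k0,k0,k0,k0,k0,k0,k0,k0,k0,k12],[k0,k0,k6,k0,k0,k0,k0,k0,k12],[k0,k114,k0,k0,
    k0,k0,k0,k12]] (nat_lit 2880) k5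
    [[(k0,(nat_lit 830)),(k4,(nat_lit 938)),(k10,(nat_lit 947)),(k2,(nat_lit 950)),(k6,(nat_lit 962)),(k8,
    (nat_lit 974))],[(k1,(nat_lit 830)),(k11,(nat_lit 941)),(k3,(nat_lit 944)),(k9,(nat_lit 962)),(k7,(nat_lit 974)),
    (k5,(nat_lit 1010))],[(k2,(nat_lit 872)),(k4,(nat_lit 938)),(k0,(nat_lit 944)),(k8,(nat_lit 968)),(k6,
    (nat_lit 974)),(k10,(nat_lit 1061))],[(k3,(nat_lit 872)),(k5,(nat_lit 938)),(k11,(nat_lit 947)),(k1,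
    (nat_lit 950)),(k9,(nat_lit 962)),(k7,(nat_lit 974))],[(k4,(nat_lit 932)),(k10,(nat_lit 935)),(k2,(nat_lit 938)),
    (k8,(nat_lit 956)),(k6,(nat_lit 968)),(k0,(nat_lit 1010))],[(k5,(nat_lit 932)),(k1,(nat_lit 938)),(k3,
    (nat_lit 938)),(k7,(nat_lit 968)),(k9,(nat_lit 992)),(k11,(nat_lit 1013))],[(k8,(nat_lit 920)),(k4,(nat_lit 968)),
    (k6,(nat_lit 968)),(k0,(nat_lit 974)),(k2,(nat_lit 974)),(k10,(nat_lit 977))],[(k1,(nat_lit 962)),(k5,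
    (nat_lit 968)),(k7,(nat_lit 968)),(k3,(nat_lit 974)),(k11,(nat_lit 983)),(k9,(nat_lit 992))],[(k0,(nat_lit 962)),
    (k2,(nat_lit 962)),(k8,(nat_lit 974)),(k10,(nat_lit 977)),(k4,(nat_lit 992)),(k6,(nat_lit 992))],[(k7,
    (nat_lit 920)),(k5,(nat_lit 956)),(k11,(nat_lit 965)),(k3,(nat_lit 968)),(k1,(nat_lit 974)),(k9,(nat_lit 974))],
    [(k10,(nat_lit 938)),(k0,(nat_lit 941)),(k2,(nat_lit 947)),(k8,(nat_lit 965)),(k6,(nat_lit 983)),(k4,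
    (nat_lit 1013))],[(k5,(nat_lit 935)),(k11,(nat_lit 938)),(k1,(nat_lit 947)),(k7,(nat_lit 977)),(k9,(nat_lit 977)),
    (k3,(nat_lit 1061))]]
    [] k0
    [[k3,k0,k0,k0,k0,k0],[k2,k1,k0,k0,k0,k0],[k2,k0,k1,k0,k0,k0],[k2,k0,k0,k1,k0,k0],[k2,k0,k0,k0,k1,k0],[k2,k0,k0,k0,
    k0,k1],[k1,k2,k0,k0,k0,k0],[k1,k1,k1,k0,k0,k0],[k1,k0,k1,k0,k1,k0],[k1,k0,k1,k0,k0,k1],[k1,k0,k0,k1,k1,k0],[k1,k1,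
    k0,k0,k0,k1],[k1,k0,k0,k0,k1,k1],[k1,k0,k0,k0,k0,k2],[k0,k3,k0,k0,k0,k0],[k0,k2,k1,k0,k0,k0],[k0,k2,k0,k1,k0,k0],
    [k0,k2,k0,k0,k1,k0],[k0,k1,k2,k0,k0,k0],[k0,k1,k1,k0,k1,k0],[k0,k1,k1,k0,k0,k1],[k0,k1,k0,k1,k1,k0],[k0,k0,k3,k0,
    k0,k0],[k0,k0,k2,k1,k0,k0],[k0,k0,k0,k0,k0,k3]]
    [.ref (nat_lit 366) k1 [(z1,[z2,y3,y6]),(z1,[y1,z0,z0,y3,z3]),(z1,[z0,z0,z1]),(z1,[y4,z6,z9,z6])],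
    .ref k167 k7 [(z1,[z1,y1,y1,y1]),(z2,[z1,y2,y3,y4,z2]),(z1,[y1,z1,z1,z2]),(z2,[z3,y2,y3,y2])],.ref k195 k5 [(z1,
    [y1,z4,z6,z10,y6]),(z1,[y2,z2,z3,z2]),(z1,[z2,y2,y3,y5,z3]),(z1,[z0,y1,y2,y2,z2])],.ref k180 k1 [(z1,[y4,y1]),(z1,
    [z2,z0,y1,y1,z1]),(z1,[z1]),(z1,[z3,z1,z0,z1])],.ref (nat_lit 367) k5 [(z1,[y2,z1,y2,y1,z2]),(z1,[z0,z0,z1]),(z1,
    [z1,z0,z1,z1,y1]),(z1,[z2,y1,z2,z2,y2])],.ref k167 k7 [(z2,[z1,y1,z0,y2]),(z4,[z1,y3,y4,y8,z4]),(z2,[y1,z1,z0,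
    z4]),(z4,[z3,y1,z0,y4])],.ref k20 k6 [(z1,[y4,z2,z3,z2]),(z1,[z0,z0,z1]),(z1,[y1,z0,z0,y1,z1]),(z1,[z2,y1,y2])],
    .ref k167 k7 [(z1,[y2,z1,z2,z1]),(z1,[y1,z0,z0,y1,z1]),(z1,[z2,y1,y2]),(z1,[y3,z2,z3,z2])],.ref k8 k0 [(z1,[z4,z1,
    z4,z0,y4]),(z1,[y2,z0,y1,z0,z2]),(z1,[y1,z0,y1,z1,z1]),(z1,[z1,z0,z1,z0,y1])],.ref k167 k7 [(z1,[z2,y1,z0,y3]),
    (z1,[z1,y1,y1,y3,z1]),(z1,[y2,z1,z0,z4]),(z1,[z3,y1,z0,y4])],.ref k195 k5 [(z1,[y1,z3,z5,z8,y5]),(z1,[y2,z0,z1,y2,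
    z2]),(z1,[z2,z0,y1,y1,z1]),(z1,[z0,y1,y2,y2,z2])],.ref (nat_lit 232) k0 [(z1,[z1,z1,y1]),(z1,[z0,z0,z1]),(z1,[y2,
    z1,z2,z3]),(z1,[y1,y1,y2,y3,z3])],.ref k167 k7 [(z1,[z1,z0,z1,z0,y1]),(z2,[z1,y1,y1,y3,z1]),(z1,[y1,z0,y1,z1,z1]),
    (z2,[z3,z1,z3,z1,y3])],.ref k42 k10 [(z1,[z4,y2,z1,y10]),(z1,[y3,z2,z0,z8]),(z1,[z2,y1,z0,y4]),(z1,[y1,z0,y1,z1,
    z1])],.ref k195 k5 [(z2,[z1,z6,z9,z18,y12]),(z1,[z1]),(z1,[y1,z0,z0,y3,z3]),(z1,[z0,y1,y2,y2,z2])],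
    .ref k180 k1 [(z1,[z4,y5,y8,y4]),(z1,[y2,z2,z3,z1,z1]),(z1,[y1,z1,z2,z1]),(z1,[y3,z4,z6,z4])],.ref k195 k5 [(z1,
    [z1,z3,z4,z9,y6]),(z1,[z2,z0,y1]),(z1,[y2,z0,z1,y3,z3]),(z1,[z0,y1,y2,y2,z2])],.ref (nat_lit 367) k5 [(z1,[z2,z1,
    y2,z3,y2]),(z1,[z0,z0,z1]),(z1,[y1,z0,z1,y1,z1]),(z1,[y2,y1,z2,y2,z2])],.ref k167 k7 [(z2,[y1,z0,z1]),(z4,[y1,y2,
    y3,y6,z4]),(z2,[z1,z0,y1,z2]),(z4,[y3,z2,z3,z2])],.ref k167 k7 [(z3,[y2,y1,z0,y3,z2]),(z3,[y1,y2,y3,y6,z4]),(z3,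
    [z2,z1,z0,z6,y2]),(z1,[y1,z0,z0,y1,z1])],.ref k195 k5 [(z1,[z1,z3,z5,z8,y6]),(z1,[z2,z0,z1,y2]),(z1,[y2,z0,y1,y1,
    z3]),(z1,[z0,y1,y2,y2,z2])],.ref k167 k7 [(z1,[y2,y1,z0,y3,z2]),(z1,[y1,y1,y1,y3,z2]),(z1,[z2,z1,z0,z4,y2]),(z1,
    [y3,y1,z0,y4,z3])],.ref (nat_lit 368) k2 [(z1,[y1,z3,z6,z9,y6]),(z1,[z1]),(z1,[z2,y6,y9,y18,z12]),(z1,[y2,z6,z9,
    z15,y9])],.ref (nat_lit 369) k2 [(z1,[y1,z2,z4,z6,y4]),(z1,[z1,y1,y2,y3,z2]),(z1,[z2,y4,y7,y12,z8]),(z1,[y2,z4,z7,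
    z11,y7])],.ref (nat_lit 232) k0 [(z2,[z1,z3]),(z1,[z0,z0,z1]),(z1,[y1,z0,z0,z3]),(z2,[y1,y3,y6,y6,z6])]]]

noncomputable def cT6_3_n8_1 : List TN :=
  [.lp [k152,k166,k158,k170,k160,k152] [k9,k9,k2,k2,k6,k6,k0,k0,k5,k5,k9,k9] k0 [[k0,k0,k0,k0,k0,k0,k2,k0,k4],[k0,k0,k0,
    k0,k0,k40,k0,k0,k0,k0,k0,k28],[k0,k0,k0,k0,k24,k0,k0,k0,k2],[k0,k0,k0,k0,k0,k0,k0,k30],[k40,k0,k0,k0,k0,k0,k0,k0,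
    k0,k0,k10],[k0,k0,k0,k24,k0,k0,k0,k0,k0,k20],[k0,k0,k30],[k0,k2],[k0,k0,k0,k0,k20,k0,k0,k0,k0,k0,k28],[k0,k4,k0,
    k2],[k28],[k0,k0,k0,k0,k0,k10,k0,k0,k0,k28]] (nat_lit 480) k5
    [[(k8,k128),(k4,k145),(k10,k152),(k2,k159),(k6,k161),(k0,k180)],[(k11,k148),(k9,k154),(k5,k155),(k3,k159),(k1,
    k180),(k7,(nat_lit 201))],[(k4,k122),(k10,k131),(k0,k159),(k2,k166),(k8,k167),(k6,k170)],[(k7,k144),(k11,k157),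
    (k1,k159),(k5,k162),(k3,k166),(k9,k193)],[(k6,k134),(k0,k155),(k10,k155),(k8,k161),(k2,k162),(k4,k182)],[(k3,
    k122),(k1,k145),(k9,k159),(k7,k164),(k11,k175),(k5,k182)],[(k2,k144),(k8,k145),(k4,k164),(k6,k170),(k10,k171),(k0,
    (nat_lit 201))],[(k5,k134),(k1,k161),(k11,k161),(k9,k165),(k3,k170),(k7,k170)],[(k0,k154),(k10,k156),(k4,k159),
    (k8,k160),(k6,k165),(k2,k193)],[(k1,k128),(k7,k145),(k11,k156),(k9,k160),(k5,k161),(k3,k167)],[(k0,k148),(k8,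
    k156),(k2,k157),(k6,k161),(k4,k175),(k10,k180)],[(k3,k131),(k1,k152),(k5,k155),(k9,k156),(k7,k171),(k11,k180)]]
    [] k0
    [[k2,k0,k0,k0,k1,k0],[k1,k1,k1,k0,k0,k0],[k1,k1,k0,k0,k0,k1],[k1,k0,k1,k0,k1,k0],[k1,k0,k1,k0,k0,k1],[k1,k1,k0,k1,
    k0,k0],[k1,k0,k0,k1,k1,k0],[k1,k0,k0,k0,k2,k0],[k1,k0,k0,k0,k1,k1],[k0,k2,k1,k0,k0,k0],[k0,k2,k0,k0,k0,k1],[k0,k1,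
    k2,k0,k0,k0],[k0,k1,k1,k1,k0,k0],[k0,k1,k1,k0,k1,k0],[k0,k1,k1,k0,k0,k1],[k0,k1,k0,k1,k1,k0],[k0,k1,k0,k1,k0,k1],
    [k0,k1,k0,k0,k0,k2],[k0,k0,k1,k2,k0,k0],[k0,k0,k1,k1,k1,k0],[k0,k0,k1,k0,k1,k1],[k0,k0,k0,k1,k2,k0],[k0,k0,k0,k1,
    k1,k1],[k0,k0,k0,k0,k2,k1]]
    [.ref (nat_lit 350) k8 [(z1,[y1,z2]),(z1,[z0,y1,y1,z1]),(z1,[z1,y1])],.ref (nat_lit 351) k1 [(z1,[y2,y2,y3,z2]),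
    (z1,[z0,z1,z1]),(z1,[z0,z0,z1])],.ref (nat_lit 352) k0 [(z1,[z1,z0,y1]),(z1,[z0,z0,z1]),(z1,[z0,y1,y1,z1])],
    .ref (nat_lit 248) k4 [(z1,[y1,z0,y1,z1]),(z1,[z0,z1]),(z1,[z0,z0,z1])],.ref k191 k9 [(z1,[y2,y1,y2,z2]),(z1,[y1,
    y1,y1,z1]),(z1,[z1])],.ref k191 k9 [(z1,[y2,z1,z2]),(z1,[y1,z0,z1]),(z1,[z1,y1,y2,z1])],
    .ref (nat_lit 353) k3 [(z1,[y2,z2,z3]),(z1,[y1,y2,y3,z3]),(z1,[z1,y1])],.ref k140 k2 [(z1,[z1,y1]),(z1,[y1,y1,y2,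
    z2]),(z1,[y1,z1,z1])],.ref k157 k3 [(z1,[y1,z1,z1]),(z1,[y1,y1,y2,z2]),(z1,[z1,y1])],.ref (nat_lit 357) k1 [(z1,
    [y2,y2,y3,z2]),(z1,[z0,z1,z1]),(z1,[z0,z0,z1])],.ref (nat_lit 362) k4 [(z1,[z1,z0,y2]),(z1,[z0,z1]),(z1,[z0,z0,
    z1])],.ref k157 k3 [(z2,[z1,z2,z3,y2]),(z2,[z1,y2,y3,z2]),(z2,[y1,y2,y1,z2])],.ref k157 k3 [(z1,[z1,z1,z1,y1]),
    (z1,[z1,y1,y2,z1]),(z1,[y1,y1,z0,z1])],.ref (nat_lit 365) k3 [(z1,[z2,z0,z1,y2]),(z1,[z1,y1,y1]),(z1,[y1,z0,z0,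
    z1])],.ref (nat_lit 353) k3 [(z1,[z2,z2,z3,y2]),(z1,[z1,y2,y3,z2]),(z1,[y1,y1,z0,z1])],.ref k191 k9 [(z1,[z2,y1,
    y2]),(z1,[z1,y1,y1]),(z1,[y1,z0,z0,z1])],.ref (nat_lit 248) k4 [(z1,[z1,z0,y1]),(z1,[z0,z1]),(z1,[z0,z0,z1])],
    .ref (nat_lit 248) k4 [(z2,[z1,z0,y1]),(z1,[z0,z1]),(z1,[z0,z0,z1])],.ref (nat_lit 248) k4 [(z1,[y1,y1,y1,z1]),
    (z1,[z0,z1]),(z1,[z0,z0,z1])],.ref (nat_lit 352) k0 [(z1,[y1,z0,y1,z1]),(z1,[z0,z0,z1]),(z1,[z0,y1,y1,z1])],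
    .ref k191 k9 [(z1,[z2,z1,z2,y2]),(z1,[z1,z0,z1,y1]),(z1,[y1,y1,y2,z2])],.ref k130 k8 [(z1,[z1]),(z1,[z0,y1,y1,
    z1]),(z1,[y1,z2])],.ref (nat_lit 351) k1 [(z1,[z2,y2,y3]),(z1,[z0,z1,z1]),(z1,[z0,z0,z1])],
    .ref (nat_lit 370) k0 [(z1,[y1,z2]),(z1,[z0,z0,z1]),(z1,[z0,y1,y1,z1])]],
    .leafM k0 [k1,k2,k3,k4,k5,k0] [(z1,[y1,y1,z1])] [],
    .lp [k168,k170,k154,k164,k140,k162] [k1,k1,k0,k0,k8,k8,k3,k3,k15,k15,k4,k4] k0 [[k0,k0,k0,k0,k0,k0,k0,k0,k4,k0,k8],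
    [k0,k0,k0,k0,k0,k0,k0,k8],[k0,k0,k0,k0,k8,k0,k0,k0,k0,k0,k10],[k0,k0,k0,k0,k0,k0,k0,k0,k0,k4],[k0,k0,k0,k0,k0,k0,
    k12],[k0,k0,k0,k8],[k8],[k0,k0,k0,k0,k0,k12],[k0,k0,k4],[k0,k4,k0,k0,k0,k0,k0,k0,k0,k0,k0,k8],[k0,k0,k0,k0,k0,k0,
    k0,k0,k8],[k0,k8,k0,k10]] (nat_lit 480) k5
    [[(k2,k159),(k0,k160),(k4,k161),(k8,k162),(k10,k165),(k6,k166)],[(k1,k160),(k5,k161),(k11,k161),(k9,k162),(k7,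
    k166),(k3,k169)],[(k6,k159),(k8,k159),(k4,k162),(k0,k169),(k2,k170),(k10,k174)],[(k9,k155),(k1,k159),(k7,k159),
    (k5,k162),(k3,k170),(k11,k170)],[(k8,k143),(k6,k159),(k0,k161),(k2,k162),(k4,k162),(k10,k168)],[(k9,k135),(k11,
    k158),(k7,k159),(k1,k161),(k3,k162),(k5,k162)],[(k8,k152),(k2,k159),(k4,k159),(k10,k163),(k0,k166),(k6,k176)],
    [(k9,k152),(k3,k159),(k5,k159),(k11,k163),(k1,k166),(k7,k176)],[(k4,k135),(k8,k140),(k10,k151),(k6,k152),(k2,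
    k155),(k0,k162)],[(k9,k140),(k5,k143),(k11,k151),(k7,k152),(k3,k159),(k1,k162)],[(k8,k151),(k10,k154),(k4,k158),
    (k0,k161),(k6,k163),(k2,k170)],[(k9,k151),(k11,k154),(k7,k163),(k1,k165),(k5,k168),(k3,k174)]]
    [] k0
    [[k1,k0,k1,k0,k1,k0],[k1,k0,k0,k0,k2,k0],[k1,k0,k0,k0,k1,k1],[k0,k1,k1,k0,k1,k0],[k0,k1,k0,k1,k1,k0],[k0,k1,k0,k0,
    k2,k0],[k0,k0,k2,k0,k1,k0],[k0,k0,k1,k1,k1,k0],[k0,k0,k1,k0,k2,k0],[k0,k0,k1,k0,k1,k1],[k0,k0,k0,k1,k2,k0],[k0,k0,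
    k0,k1,k1,k1],[k0,k0,k0,k0,k3,k0],[k0,k0,k0,k0,k2,k1],[k0,k0,k0,k0,k1,k2],[k0,k0,k0,k0,k0,k3]]
    [.ref k12 k0 [(z1,[y13,z3,y13,z0,y13,z13]),(z1,[z2,z0,z5,z0,z2,y2]),(z1,[z8,z0,z8,z3,z8,y8]),(z1,[y4,z0,y4,z0,y1,
    z4]),(z1,[z8,y3,z5,y3,z5,y5])],.ref k12 k0 [(z1,[y13,y10,y26,y26,y26,z26]),(z1,[z2,z2,z7,z4,z4,y4]),(z1,[z8,z8,
    z16,z19,z16,y16]),(z1,[y4,y4,y8,y8,y5,z8]),(z1,[z8,z5,z13,z13,z13,y13])],.ref k12 k0 [(z2,[z13,z6,z13,z13,z13,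
    y13]),(z1,[y1,z0,z2,y1,y1,z1]),(z1,[y4,z0,y4,y1,y4,z4]),(z1,[z2,z0,z2,z2,z5,y2]),(z1,[y4,y3,y7,y7,y7,z7])],
    .ref k12 k0 [(z6,[y13,z5,z0,z0,y13,z13]),(z3,[z1,z1,z9,z0,z1,y1]),(z3,[z4,z4,z0,z9,z4,y4]),(z3,[y2,y2,z0,z0,z7,
    z2]),(z3,[z4,y5,y9,y9,y5,z5])],.ref k12 k0 [(z2,[y13,y7,z0,y13,z0,z13]),(z1,[z1,z1,z3,z1,z0,y1]),(z1,[z4,z4,z0,z7,
    z0,y4]),(z1,[y2,y2,z0,y2,z3,z2]),(z1,[z4,z1,y3,z1,y3,y1])],.ref k12 k0 [(z6,[y13,y8,y13,y26,y26,z26]),(z3,[z1,z2,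
    z10,z2,z2,y2]),(z3,[z4,z8,z4,z17,z8,y8]),(z3,[y2,y4,y2,y4,z5,z4]),(z3,[z4,y1,y5,y1,y1,z1])],.ref k12 k0 [(z8,[y13,
    z11,y13,z13,y13,z13]),(z4,[z1,z1,z13,y1,z1,y1]),(z1,[z1,z1,z1,z2,z1,y1]),(z2,[y1,y1,y1,z1,z5,z1]),(z1,[z1,y2,y2,
    y4,y2,z2])],.ref k12 k0 [(z4,[y13,y1,y13,z0,z0,z13]),(z2,[z1,z1,z7,z0,z0,y1]),(z1,[z2,z2,z2,z3,z0,y2]),(z1,[y1,y1,
    y1,z0,z3,z1]),(z1,[z2,y1,y1,y3,y3,z1])],.ref k12 k0 [(z8,[y13,y2,y26,y13,y26,z26]),(z4,[z1,z2,z14,z1,z2,y2]),(z1,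
    [z1,z2,z2,z4,z2,y2]),(z2,[y1,y2,y2,y1,z4,z2]),(z1,[z1,y1,y1,y2,y1,z1])],.ref k12 k0 [(z5,[y13,z2,y13,z0,y13,z13]),
    (z5,[z2,z2,z17,z0,z2,y2]),(z5,[z8,z8,z8,z15,z8,y8]),(z5,[y4,y4,y4,z0,z11,z4]),(z5,[z8,y7,y7,y15,y7,z7])],
    .ref k12 k0 [(z4,[y13,y14,y26,y26,y13,z26]),(z2,[z1,z2,z8,z2,z1,y2]),(z1,[z2,z4,z4,z7,z2,y4]),(z1,[y1,y2,y2,y2,z2,
    z2]),(z1,[z2,z1,z1,z1,y1,y1])],.ref k12 k0 [(z1,[y13,y10,y13,y13,z0,z13]),(z1,[z2,z2,z5,z2,z0,y2]),(z1,[z8,z8,z8,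
    z11,z0,y8]),(z1,[y4,y4,y4,y4,z3,z4]),(z1,[z8,z5,z5,z5,y3,y5])],.ref k12 k0 [(z8,[y13,y15,y39,y39,y39,z39]),(z4,
    [z1,z3,z15,z3,z3,y3]),(z1,[z1,z3,z3,z6,z3,y3]),(z2,[y1,y3,y3,y3,z3,z3]),(z1,[z1])],.ref k12 k0 [(z5,[y13,y11,y26,
    y26,y26,z26]),(z5,[z2,z4,z19,z4,z4,y4]),(z5,[z8,z16,z16,z31,z16,y16]),(z5,[y4,y8,y8,y8,z7,z8]),(z5,[z8,z1,z1,z1,
    z1,y1])],.ref k12 k0 [(z2,[y13,y7,y13,y13,y13,z13]),(z1,[z1,z1,z4,z1,z1,y1]),(z1,[z4,z4,z4,z7,z4,y4]),(z1,[y2,y2,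
    y2,y2,z1,z2]),(z1,[z4,z1,z1,z1,z1,y1])],.ref k12 k0 [(z1,[z13,z3]),(z1,[y2,z0,z3]),(z1,[y8,z0,z0,z3]),(z1,[z4,z0,
    z0,z0,z3]),(z1,[y8,y3,y3,y3,y3,z3])]],
    .leafM k0 [k2,k3,k4,k5,k0,k1] [(z1,[y1,y1,y1,z0,z1])] [],
    .lp [k160,k162,k166,k152,k140,k178] [k11,k7,k8,k8,k6,k6,k13,k13,k19,k19,k0,k0] k0 [[k0,k0,k0,k0,k24],[k0,k0,k0,k22],
    [k22,k0,k0,k0,k24],[k0,k0,k0,k0,k0,k0,k0,k0,k0,k16,k0,k18],[k0,k0,k0,k0,k0,k0,k0,k0,k36,k0,k28],[k0,k24,k0,k24],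
    [k0,k0,k0,k0,k0,k0,k0,k0,k0,k0,k38],[k0,k0,k0,k0,k0,k0,k0,k0,k0,k14],[k0,k0,k16,k0,k0,k0,k14],[k0,k0,k0,k0,k0,k36,
    k0,k0,k0,k0,k0,k54],[k0,k0,k18,k0,k0,k0,k0,k0,k54],[k0,k0,k0,k0,k0,k28,k0,k38]] (nat_lit 480) k5
    [[(k6,k120),(k4,k137),(k0,k160),(k10,k171),(k2,k181),(k8,(nat_lit 206))],[(k7,k130),(k9,k148),(k3,k159),(k1,k160),
    (k11,k167),(k5,k183)],[(k2,k140),(k8,k151),(k6,k157),(k0,k159),(k10,k170),(k4,k188)],[(k7,k133),(k3,k140),(k9,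
    k151),(k5,k164),(k1,k181),(k11,k186)],[(k8,k137),(k10,k154),(k6,k159),(k2,k164),(k0,k183),(k4,k190)],[(k11,k136),
    (k1,k137),(k9,k153),(k7,k159),(k3,k188),(k5,k190)],[(k0,k130),(k2,k133),(k6,k152),(k4,k159),(k8,k182),(k10,k193)],
    [(k1,k120),(k9,k146),(k7,k152),(k3,k157),(k5,k159),(k11,k179)],[(k8,k126),(k6,k146),(k0,k148),(k2,k151),(k4,k153),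
    (k10,k197)],[(k9,k126),(k5,k137),(k3,k151),(k11,k159),(k7,k182),(k1,(nat_lit 206))],[(k10,k124),(k4,k136),(k8,
    k159),(k0,k167),(k6,k179),(k2,k186)],[(k11,k124),(k5,k154),(k3,k170),(k1,k171),(k7,k193),(k9,k197)]]
    [] k0
    [[k2,k0,k0,k1,k0,k0],[k1,k1,k0,k1,k0,k0],[k1,k1,k1,k0,k0,k0],[k1,k0,k1,k1,k0,k0],[k1,k0,k1,k0,k1,k0],[k1,k0,k1,k0,
    k0,k1],[k1,k0,k0,k2,k0,k0],[k1,k0,k0,k1,k1,k0],[k1,k0,k0,k0,k1,k1],[k1,k0,k0,k0,k0,k2],[k0,k3,k0,k0,k0,k0],[k0,k2,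
    k0,k1,k0,k0],[k0,k2,k0,k0,k1,k0],[k0,k1,k1,k0,k1,k0],[k0,k1,k0,k2,k0,k0],[k0,k1,k0,k1,k1,k0],[k0,k1,k0,k0,k2,k0],
    [k0,k1,k1,k0,k0,k1],[k0,k0,k1,k2,k0,k0],[k0,k0,k1,k1,k1,k0],[k0,k0,k1,k0,k2,k0],[k0,k0,k1,k0,k1,k1],[k0,k0,k1,k0,
    k0,k2],[k0,k0,k0,k3,k0,k0],[k0,k0,k0,k1,k2,k0],[k0,k0,k0,k0,k3,k0],[k0,k0,k0,k0,k0,k3]]
    [.ref k12 k0 [(z5,[z8,y1,z0,z0,y4]),(z5,[y4,z8,z15,z0,z2]),(z10,[y2,z4,z0,z15,z1]),(z5,[y1,z2,z0,z0,z8]),(z10,[y8,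
    y14,y30,y15,y11,z30])],.ref k12 k0 [(z1,[z8,y5,y8,z0,y4]),(z1,[y4,z4,z7,z0,z2]),(z2,[y2,z2,z2,z3,z1]),(z1,[y1,z1,
    z1,z0,z2]),(z2,[y8,z2,z2,y3,z1,z6])],.ref k12 k0 [(z1,[z8,y5,y8,y4]),(z1,[y4,z4,z7,z2]),(z1,[y1,z1,z1,z2]),(z2,
    [y2,z2,z2,z1,z3]),(z2,[y8,z2,z2,z1,y3,z6])],.ref k12 k0 [(z1,[z4,y1,z0,y2,y2]),(z1,[y2,z2,z3,z1,z1]),(z4,[y2,z2,
    z0,z7,z1]),(z4,[y2,z2,z0,z1,z7]),(z2,[y4,y2,y6,y1,y1,z6])],.ref k12 k0 [(z1,[z8,z3,z8,z0,z4,y8]),(z1,[y4,z0,y1,z0,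
    y2,z4]),(z2,[y2,z0,y2,z3,y1,z2]),(z1,[y1,z0,y1,z0,z1,z1]),(z2,[y8,y6,y14,y3,y7,z14])],.ref k12 k0 [(z3,[z8,z1,z0,
    y4]),(z3,[y4,z4,z9,z2]),(z3,[y1,z1,z0,z5]),(z6,[y2,z2,z0,z1,z9]),(z6,[y8,y10,y18,y5,y9,z18])],.ref k12 k0 [(z1,
    [z4,y1,z0,z0,y4]),(z1,[y2,z2,z3,z0,z2]),(z2,[y1,z1,z0,z3,z1]),(z2,[y1,z1,z0,z0,z4]),(z2,[y4,y2,y6,y3,z1,z6])],
    .ref k12 k0 [(z1,[z8,z3,z8,z4,z0,y8]),(z1,[y4,z0,y1,y2,z0,z4]),(z1,[y1,z0,y1,z1,z0,z1]),(z2,[y2,z0,y2,y1,z3,z2]),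
    (z2,[y8,y6,y14,y7,y3,z14])],.ref k12 k0 [(z1,[z4,z3,z4,z2,z2,y4]),(z1,[y2,z0,z1,y1,y1,z2]),(z4,[y2,z0,y2,z5,y1,
    z2]),(z4,[y2,z0,y2,y1,z5,z2]),(z2,[y4,y6,y10,y5,y5,z10])],.ref k12 k0 [(z1,[z2,z1]),(z1,[y1,z1,z3]),(z4,[y1,z1,z0,
    z6]),(z4,[y1,z1,z0,z0,z6]),(z2,[y2,y4,y6,y3,y3,z6])],.ref k12 k0 [(z1,[y2,z3,z6]),(z1,[z1]),(z4,[z1,z0,y3,z6]),
    (z4,[z1,z0,y3,z0,z6]),(z2,[z2,y6,y12,y3,y3,z6])],.ref k12 k0 [(z3,[y8,z9,z16,z0,z4]),(z3,[z4,z0,z1,z0,y2]),(z6,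
    [z2,z0,y4,z9,y1]),(z3,[z1,z0,y2,z0,z4]),(z6,[z8,y18,y34,y9,y13,z18])],.ref k12 k0 [(z1,[y2,z1,z2,y1,y1,z2]),(z2,
    [z2,z2,z4,z1,z1,y2]),(z8,[z2,z2,y2,z13,z1,y2]),(z8,[z2,z2,y2,z1,z13,y2]),(z1,[z1,y2,y4,y1,y1,z2])],
    .ref k12 k0 [(z3,[y8,z1,z0,z0,y4,z8]),(z3,[z4,z4,z9,z0,z2,y4]),(z6,[z2,z2,z0,z9,z1,y2]),(z3,[z1,z1,z0,z0,z5,y1]),
    (z6,[z8,y10,y18,y9,y5,z10])],.ref k12 k0 [(z1,[y4,z3,z4,z0,z4]),(z1,[z2,z0,z1,z0,y2]),(z2,[z1,z0,y1,z3,y1]),(z2,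
    [z1,z0,y1,z0,z2]),(z2,[z4,y6,y10,y3,y7,z6])],.ref k12 k0 [(z3,[y8,z1,z0,y4,z0,z8]),(z3,[z4,z4,z9,z2,z0,y4]),(z3,
    [z1,z1,z0,z5,z0,y1]),(z6,[z2,z2,z0,z1,z9,y2]),(z6,[z8,y10,y18,y5,y9,z10])],.ref k12 k0 [(z1,[y2,y1,y2,y2,y2,z4]),
    (z1,[z1,z2,z4,z1,z1,y2]),(z4,[z1,z2,z1,z7,z1,y2]),(z4,[z1,z2,z1,z1,z7,y2]),(z2,[z2,y2,y4,y1,y1,z2])],
    .ref k12 k0 [(z1,[y8,z3,z8,z4]),(z1,[z4,z0,y1,y2]),(z1,[z1,z0,y1,z1]),(z2,[z2,z0,y2,y1,z3]),(z2,[z8,y6,y14,y7,y3,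
    z6])],.ref k12 k0 [(z1,[y8,z3,z0,z4,z8]),(z1,[z4,z0,z3,y2,y4]),(z1,[z1,z0,z0,z1,y1]),(z2,[z2,z0,z0,y1,z1]),(z2,
    [z8,y6,y6,y7,y11,z6])],.ref k12 k0 [(z1,[y4,y1,y4,z0,z0,z4]),(z1,[z2,z2,z5,z0,z0,y2]),(z2,[z1,z1,z1,z3,z0,y1]),
    (z2,[z1,z1,z1,z0,z3,y1]),(z2,[z4,y2,y2,y3,y3,z2])],.ref k12 k0 [(z3,[y8,y7,y16,y4,y8,z16]),(z3,[z4,z8,z17,z2,z4,
    y8]),(z3,[z1,z2,z2,z5,z1,y2]),(z6,[z2,z4,z4,z1,z11,y4]),(z6,[z8,y2,y2,y5,y1,z2])],.ref k12 k0 [(z1,[y8,y5,y8,z0,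
    y4,z8]),(z1,[z4,z4,z7,z0,z2,y4]),(z2,[z2,z2,z2,z3,z1,y2]),(z1,[z1,z1,z1,z0,z2,y1]),(z2,[z8,z2,z2,y3,z1,y2])],
    .ref k12 k0 [(z1,[z8,z3,z0,y4]),(z1,[y4,z0,z3,z2]),(z1,[y1,z0,z0,z2]),(z2,[y2,z0,z0,z1,z3]),(z2,[y8,y6,y6,z1,y3,
    z6])],.ref k12 k0 [(z1,[y8,z3,z0,z0,z12]),(z1,[z4,z0,z3,z0,y6]),(z2,[z2,z0,z0,z3,y3]),(z1,[z1]),(z2,[z8,y6,y6,y3,
    y15,z6])],.ref k12 k0 [(z3,[y8,y7,y16,y8,y4,z16]),(z3,[z4,z8,z17,z4,z2,y8]),(z6,[z2,z4,z4,z11,z1,y4]),(z3,[z1,z2,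
    z2,z1,z5,y2]),(z6,[z8,y2,y2,y1,y5,z2])],.ref k12 k0 [(z1,[y2,y3,y6,y3,y3,z6]),(z2,[z2,z6,z12,z3,z3,y6]),(z8,[z2,
    z6,z6,z15,z3,y6]),(z8,[z2,z6,z6,z3,z15,y6]),(z1,[z1])],.ref k12 k0 [(z1,[z4,z3]),(z1,[y2,z0,z3]),(z2,[y1,z0,z0,
    z3]),(z2,[y1,z0,z0,z0,z3]),(z2,[y4,y6,y6,y3,y3,z6])]],
    .lp [k160,k160,k174,k148,k168,k148] [k7,k7,k7,k7,k0,k0,k13,k13,k3,k3,k13,k13] k0 [[k0,k0,k0,k0,k0,k0,k24,k0,k4],[],[],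
    [k0,k0,k0,k0,k0,k12,k0,k4],[k0,k0,k12],[k0,k0,k0,k0,k0,k0,k0,k12,k0,k0,k0,k2],[k0,k0,k4,k0,k12],[k0,k24,k0,k0,k0,
    k0,k0,k0,k0,k4],[k0,k0,k0,k0,k0,k0,k4,k0,k0,k0,k34],[k0,k4],[k0,k0,k0,k0,k2],[k0,k0,k0,k0,k0,k0,k0,k0,k0,
    k34]] (nat_lit 480) k5
    [[(k8,k130),(k6,k154),(k10,k154),(k0,k160),(k2,k160),(k4,k169)],[(k9,k140),(k11,k150),(k7,k154),(k1,k160),(k3,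
    k160),(k5,k167)],[(k10,k154),(k0,k160),(k2,k160),(k4,k167),(k8,k168),(k6,k178)],[(k11,k154),(k1,k160),(k3,k160),
    (k7,k166),(k5,k167),(k9,k168)],[(k6,k157),(k10,k161),(k4,k162),(k0,k167),(k2,k167),(k8,k171)],[(k7,k161),(k11,
    k161),(k5,k162),(k3,k167),(k1,k169),(k9,k183)],[(k6,k136),(k10,k146),(k0,k154),(k8,k158),(k4,k161),(k2,k166)],
    [(k7,k136),(k11,k152),(k1,k154),(k5,k157),(k9,k158),(k3,k178)],[(k0,k140),(k6,k158),(k10,k158),(k8,k164),(k2,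
    k168),(k4,k183)],[(k1,k130),(k7,k158),(k11,k158),(k9,k164),(k3,k168),(k5,k171)],[(k0,k150),(k6,k152),(k2,k154),
    (k8,k158),(k4,k161),(k10,k182)],[(k7,k146),(k1,k154),(k3,k154),(k9,k158),(k5,k161),(k11,k182)]]
    [] k0
    [[k2,k0,k0,k1,k0,k0],[k2,k0,k0,k0,k1,k0],[k2,k0,k0,k0,k0,k1],[k1,k1,k0,k0,k1,k0],[k1,k1,k0,k0,k0,k1],[k1,k0,k0,k2,
    k0,k0],[k1,k0,k0,k1,k1,k0],[k1,k0,k0,k1,k0,k1],[k1,k0,k0,k0,k2,k0],[k1,k0,k0,k0,k1,k1],[k0,k2,k0,k0,k0,k1],[k0,k1,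
    k0,k1,k0,k1],[k0,k0,k1,k2,k0,k0],[k0,k0,k1,k1,k0,k1],[k0,k0,k0,k3,k0,k0],[k0,k0,k0,k2,k1,k0],[k0,k0,k0,k2,k0,k1],
    [k0,k0,k0,k1,k1,k1]]
    [.ref k12 k0 [(z8,[z15,y2,z0,z0,y15]),(z2,[z3,y2,z6,z0,y3]),(z1,[y3,z2,z0,z3,z3]),(z4,[y3,z2,z0,z0,z15]),(z1,[z0,
    y1,y3,y3,y3,z3])],.ref k12 k0 [(z2,[z3,z1,z3,z3,z3,y3]),(z5,[z6,y2,z21,z6,z6,y6]),(z5,[y12,z4,y12,z3,y12,z12]),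
    (z5,[y3,z1,y3,y3,z12,z3]),(z1,[z0,y1,y3,y3,y3,z3])],.ref k12 k0 [(z11,[z15,z1]),(z11,[z12,y8,z33]),(z11,[y24,z16,
    z0,z33]),(z11,[y6,z4,z0,z0,z33]),(z1,[z0,y1,y3,y3,y3,z3])],.ref k12 k0 [(z3,[z5,z3,z0,z5,z5,y5]),(z3,[z4,z0,z9,z4,
    z4,y4]),(z3,[y8,z0,z0,z1,y8,z8]),(z3,[y2,z0,z0,y2,z7,z2]),(z1,[z0,y1,y3,y3,y3,z3])],.ref k12 k0 [(z2,[z3,z1,y3]),
    (z5,[z6,y2,z9]),(z5,[y12,z4,z12,z15]),(z5,[y3,z1,z3,z0,z15]),(z1,[z0,y1,y3,y3,y3,z3])],.ref k12 k0 [(z1,[z15,y4,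
    z0,z0,y30]),(z1,[z12,y4,z3,z0,y24]),(z1,[y24,z8,z0,z3,z48]),(z1,[y6,z2,z0,z0,z15]),(z1,[z0,y1,y3,y3,y3,z3])],
    .ref k12 k0 [(z1,[z5,z1,z5,z5,z0,y5]),(z1,[z4,z0,z7,z4,z0,y4]),(z1,[y8,z0,y8,y5,z0,z8]),(z1,[y2,z0,y2,y2,z3,z2]),
    (z1,[z0,y1,y3,y3,y3,z3])],.ref k12 k0 [(z4,[z15,y1,z0,z0,y15]),(z1,[z3,y1,z3,z0,y3]),(z1,[y6,z2,z0,z3,z6]),(z2,
    [y3,z1,z0,z0,z9]),(z1,[z0,y1,y3,y3,y3,z3])],.ref k12 k0 [(z1,[z3,z2,z6,z6,z6,y6]),(z5,[z12,z4,z39,z24,z24,y24]),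
    (z5,[y24,y8,y48,y33,y48,z48]),(z5,[y6,y2,y12,y12,z3,z12]),(z1,[z0,y1,y3,y3,y3,z3])],.ref k12 k0 [(z2,[z5,z2,z5,z5,
    z5,y5]),(z1,[z2,z0,z5,z2,z2,y2]),(z1,[y4,z0,y4,y1,y4,z4]),(z1,[y1,z0,y1,y1,z2,z1]),(z1,[z0,y1,y3,y3,y3,z3])],
    .ref k12 k0 [(z3,[z5,z3,y10]),(z3,[z4,z0,z1]),(z3,[y8,z0,z16,z9]),(z3,[y2,z0,z4,z0,z9]),(z1,[z0,y1,y3,y3,y3,z3])],
    .ref k12 k0 [(z1,[z5,z1,y5,z0,y5]),(z1,[z4,z0,y1,z0,y4]),(z1,[y8,z0,z8,z3,z8]),(z1,[y2,z0,z2,z0,z5]),(z1,[z0,y1,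
    y3,y3,y3,z3])],.ref k12 k0 [(z4,[y5,z4,z0,z5,z10]),(z1,[y1,z0,z3,z1,z2]),(z1,[z2,z0,z0,z1,y4]),(z2,[z1,z0,z0,y1,
    z4]),(z1,[z0,y1,y3,y3,y3,z3])],.ref k12 k0 [(z3,[y5,z3,z0,z5,z5]),(z3,[y4,z0,z9,z4,z4]),(z3,[z8,z0,z0,z1,y8]),(z3,
    [z2,z0,z0,y2,z7]),(z1,[z0,y1,y3,y3,y3,z3])],.ref k12 k0 [(z2,[y5,z2,z0,z0,z15]),(z1,[y2,z0,z3,z0,z6]),(z1,[z4,z0,
    z0,z3,y12]),(z1,[z1]),(z1,[z0,y1,y3,y3,y3,z3])],.ref k12 k0 [(z4,[y15,y1,y15,y15,z15,z15]),(z1,[y3,y1,z0,y3,z3,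
    z3]),(z1,[z6,z2,z6,z9,y6,y6]),(z2,[z3,z1,z3,z3,z3,y3]),(z1,[z0,y1,y3,y3,y3,z3])],.ref k12 k0 [(z1,[y5,z1,z0,z0,
    z10]),(z1,[y4,z0,z3,z0,z8]),(z1,[z8,z0,z0,z3,y16]),(z1,[z2,z0,z0,z0,y1]),(z1,[z0,y1,y3,y3,y3,z3])],
    .ref k12 k0 [(z1,[y15,y4,y15,y15,z0,z15]),(z1,[y12,y4,y9,y12,z0,z12]),(z1,[z24,z8,z24,z27,z0,y24]),(z1,[z6,z2,z6,
    z6,z3,y6]),(z1,[z0,y1,y3,y3,y3,z3])]],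
    .lp [k160,k160,k174,k148,k168,k148] [k7,k7,k7,k7,k0,k0,k13,k13,k3,k3,k13,k13] k0 [[k0,k0,k0,k0,k0,k0,k24,k0,k4],[],[],
    [k0,k0,k0,k0,k0,k12,k0,k4],[k0,k0,k12],[k0,k0,k0,k0,k0,k0,k0,k12,k0,k0,k0,k2],[k0,k0,k4,k0,k12],[k0,k24,k0,k0,k0,
    k0,k0,k0,k0,k4],[k0,k0,k0,k0,k0,k0,k4,k0,k0,k0,k34],[k0,k4],[k0,k0,k0,k0,k2],[k0,k0,k0,k0,k0,k0,k0,k0,k0,
    k34]] (nat_lit 480) k5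
    [[(k8,k130),(k6,k154),(k10,k154),(k0,k160),(k2,k160),(k4,k169)],[(k9,k140),(k11,k150),(k7,k154),(k1,k160),(k3,
    k160),(k5,k167)],[(k10,k154),(k0,k160),(k2,k160),(k4,k167),(k8,k168),(k6,k178)],[(k11,k154),(k1,k160),(k3,k160),
    (k7,k166),(k5,k167),(k9,k168)],[(k6,k157),(k10,k161),(k4,k162),(k0,k167),(k2,k167),(k8,k171)],[(k7,k161),(k11,
    k161),(k5,k162),(k3,k167),(k1,k169),(k9,k183)],[(k6,k136),(k10,k146),(k0,k154),(k8,k158),(k4,k161),(k2,k166)],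
    [(k7,k136),(k11,k152),(k1,k154),(k5,k157),(k9,k158),(k3,k178)],[(k0,k140),(k6,k158),(k10,k158),(k8,k164),(k2,
    k168),(k4,k183)],[(k1,k130),(k7,k158),(k11,k158),(k9,k164),(k3,k168),(k5,k171)],[(k0,k150),(k6,k152),(k2,k154),
    (k8,k158),(k4,k161),(k10,k182)],[(k7,k146),(k1,k154),(k3,k154),(k9,k158),(k5,k161),(k11,k182)]]
    [] k0
    [[k2,k0,k0,k1,k0,k0],[k2,k0,k0,k0,k1,k0],[k2,k0,k0,k0,k0,k1],[k1,k1,k0,k0,k1,k0],[k1,k1,k0,k0,k0,k1],[k1,k0,k0,k2,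
    k0,k0],[k1,k0,k0,k1,k1,k0],[k1,k0,k0,k1,k0,k1],[k1,k0,k0,k0,k2,k0],[k1,k0,k0,k0,k1,k1],[k0,k2,k0,k0,k0,k1],[k0,k1,
    k0,k1,k0,k1],[k0,k0,k1,k2,k0,k0],[k0,k0,k1,k1,k0,k1],[k0,k0,k0,k3,k0,k0],[k0,k0,k0,k2,k1,k0],[k0,k0,k0,k2,k0,k1],
    [k0,k0,k0,k1,k1,k1]]
    [.ref k12 k0 [(z6,[z11,y2,z0,z0,y11]),(z3,[z4,y4,z9,z0,y4]),(z3,[y8,z8,z0,z9,z8]),(z3,[y2,z2,z0,z0,z11]),(z6,[y1,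
    y8,y18,y18,y17,z18])],.ref k12 k0 [(z7,[z11,z5,z11,z11,z11,y11]),(z7,[z8,y4,z29,z8,z8,y8]),(z7,[y16,z8,y16,z5,y16,
    z16]),(z7,[y4,z2,y4,y4,z17,z4]),(z7,[y1,y10,y22,y22,y22,z22])],.ref k12 k0 [(z8,[z11,z1]),(z1,[z1,y1,z3]),(z1,[y2,
    z2,z0,z3]),(z2,[y1,z1,z0,z0,z6]),(z8,[y1,y11,y24,y24,y24,z24])],.ref k12 k0 [(z6,[z11,z9,z0,z11,z11,y11]),(z3,[z4,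
    z0,z9,z4,z4,y4]),(z3,[y8,z0,z0,z1,y8,z8]),(z3,[y2,z0,z0,y2,z7,z2]),(z6,[y1,y9,y18,y19,y19,z19])],.ref k12 k0 [(z7,
    [z11,z5,y11]),(z7,[z8,y4,z13]),(z7,[y16,z8,z16,z21]),(z7,[y4,z2,z4,z0,z21]),(z7,[y1,y10,y20,y21,y21,z21])],
    .ref k12 k0 [(z1,[z11,y4,z0,z0,y22]),(z1,[z8,y4,z3,z0,y16]),(z1,[y16,z8,z0,z3,z32]),(z1,[y4,z2,z0,z0,z11]),(z1,
    [y1,y1,y3,y3,y1,z3])],.ref k12 k0 [(z2,[z11,z3,z11,z11,z0,y11]),(z1,[z4,z0,z7,z4,z0,y4]),(z1,[y8,z0,y8,y5,z0,z8]),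
    (z1,[y2,z0,y2,y2,z3,z2]),(z2,[y1,y3,y7,y7,y6,z7])],.ref k12 k0 [(z3,[z11,y1,z0,z0,y11]),(z3,[z8,y4,z9,z0,y8]),(z3,
    [y16,z8,z0,z9,z16]),(z3,[y4,z2,z0,z0,z13]),(z3,[y1,y4,y9,y9,y8,z9])],.ref k12 k0 [(z3,[z11,z10,z22,z22,z22,y22]),
    (z3,[z8,z4,z25,z16,z16,y16]),(z3,[y16,y8,y32,y23,y32,z32]),(z3,[y4,y2,y8,y8,z1,z8]),(z3,[y1,y5,y11,y11,y11,z11])],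
    .ref k12 k0 [(z4,[z11,z6,z11,z11,z11,y11]),(z1,[z2,z0,z5,z2,z2,y2]),(z1,[y4,z0,y4,y1,y4,z4]),(z1,[y1,z0,y1,y1,z2,
    z1]),(z4,[y1,y6,y13,y13,y13,z13])],.ref k12 k0 [(z6,[z11,z9,y22]),(z3,[z4,z0,z1]),(z3,[y8,z0,z16,z9]),(z3,[y2,z0,
    z4,z0,z9]),(z6,[y1,y9,y16,y18,y18,z18])],.ref k12 k0 [(z2,[z11,z3,y11,z0,y11]),(z1,[z4,z0,y1,z0,y4]),(z1,[y8,z0,
    z8,z3,z8]),(z1,[y2,z0,z2,z0,z5]),(z2,[y1,y3,y5,y6,y5,z6])],.ref k12 k0 [(z8,[y11,z12,z0,z11,z22]),(z1,[y1,z0,z3,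
    z1,z2]),(z1,[z2,z0,z0,z1,y4]),(z2,[z1,z0,z0,y1,z4]),(z8,[z1,y12,y24,y25,y26,z24])],.ref k12 k0 [(z6,[y11,z9,z0,
    z11,z11]),(z3,[y4,z0,z9,z4,z4]),(z3,[z8,z0,z0,z1,y8]),(z3,[z2,z0,z0,y2,z7]),(z6,[z1,y9,y18,y19,y19,z18])],
    .ref k12 k0 [(z4,[y11,z6,z0,z0,z33]),(z1,[y2,z0,z3,z0,z6]),(z1,[z4,z0,z0,z3,y12]),(z1,[z1]),(z4,[z1,y6,y12,y12,
    y15,z12])],.ref k12 k0 [(z3,[y11,y1,y11,y11,z11,z11]),(z3,[y8,y4,z1,y8,z8,z8]),(z3,[z16,z8,z16,z25,y16,y16]),(z3,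
    [z4,z2,z4,z4,z5,y4]),(z3,[z1,y4,y8,y8,y10,z8])],.ref k12 k0 [(z2,[y11,z3,z0,z0,z22]),(z1,[y4,z0,z3,z0,z8]),(z1,
    [z8,z0,z0,z3,y16]),(z1,[z2,z0,z0,z0,y1]),(z2,[z1,y3,y6,y6,y8,z6])],.ref k12 k0 [(z1,[y11,y4,y11,y11,z0,z11]),(z1,
    [y8,y4,y5,y8,z0,z8]),(z1,[z16,z8,z16,z19,z0,y16]),(z1,[z4,z2,z4,z4,z3,y4]),(z1,[z1,y1,y2,y2,y3,z2])]],
    .lp [k82,k82,k82,k76,k72,k84] [k1,k1,k1,k1,k1,k1,k4,k4,k6,k6,k0,k0] k0 [[k0,k0,k0,k0,k0,k0,k10,k0,k0,k0,k2],[k0,k0,k0,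
    k10,k0,k0,k0,k0,k0,k8],[k10],[k0,k0,k0,k0,k0,k0,k0,k0,k0,k0,k0,k4],[k0,k0,k0,k0,k0,k0,k16],[],[k0,k0,k0,k0,k0,k0,
    k0,k0,k2,k0,k10],[k0,k10,k0,k0,k0,k16],[k8],[k0,k0,k0,k0,k0,k0,k0,k2],[k0,k0,k4],[k0,k2,k0,k0,k0,k0,k0,
    k10]] (nat_lit 240) k5
    [[(k6,k69),(k8,k77),(k0,k80),(k4,k82),(k10,k83),(k2,k86)],[(k9,k67),(k7,k79),(k1,k80),(k3,k82),(k11,k91),(k5,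
    k92)],[(k8,k69),(k2,k72),(k0,k82),(k4,k82),(k10,k85),(k6,k89)],[(k3,k72),(k9,k77),(k7,k79),(k5,k82),(k11,k83),(k1,
    k86)],[(k8,k77),(k6,k79),(k10,k79),(k2,k82),(k4,k82),(k0,k92)],[(k9,k61),(k7,k79),(k1,k82),(k3,k82),(k5,k82),(k11,
    k83)],[(k8,k74),(k0,k79),(k2,k79),(k4,k79),(k10,k80),(k6,k92)],[(k1,k69),(k9,k74),(k11,k78),(k5,k79),(k3,k89),(k7,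
    k92)],[(k4,k61),(k0,k67),(k6,k74),(k8,k74),(k2,k77),(k10,k88)],[(k3,k69),(k7,k74),(k9,k74),(k1,k77),(k5,k77),(k11,
    k78)],[(k6,k78),(k8,k78),(k2,k83),(k4,k83),(k10,k84),(k0,k91)],[(k5,k79),(k7,k80),(k1,k83),(k11,k84),(k3,k85),(k9,
    k88)]]
    [] k0
    [[k2,k0,k0,k1,k0,k0],[k2,k0,k0,k0,k1,k0],[k1,k1,k0,k0,k1,k0],[k1,k0,k1,k0,k1,k0],[k1,k1,k0,k1,k0,k0],[k1,k0,k0,k1,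
    k1,k0],[k1,k0,k0,k0,k2,k0],[k1,k0,k0,k0,k1,k1],[k0,k3,k0,k0,k0,k0],[k0,k2,k1,k0,k0,k0],[k0,k2,k0,k0,k1,k0],[k0,k1,
    k1,k0,k1,k0],[k0,k1,k0,k1,k1,k0],[k0,k1,k0,k0,k2,k0],[k0,k0,k2,k0,k1,k0],[k0,k0,k1,k1,k1,k0],[k0,k0,k1,k0,k2,k0],
    [k0,k0,k1,k1,k0,k1],[k0,k0,k1,k0,k1,k1],[k0,k0,k0,k1,k2,k0],[k0,k0,k0,k1,k1,k1],[k0,k0,k0,k0,k3,k0]]
    [.ref k12 k0 [(z10,[z11,z4,z0,z0,y11]),(z5,[y2,z2,z15,z0,z2]),(z5,[y8,z8,z0,z15,z8]),(z5,[z4,y4,z0,z0,z11]),(z10,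
    [y1,y14,y30,y30,y29,z30])],.ref k12 k0 [(z7,[z11,z5,z11,z11,z11,y11]),(z7,[y4,z2,z17,y4,y4,z4]),(z7,[y16,z8,y16,
    z5,y16,z16]),(z7,[z8,y4,z8,z8,z29,y8]),(z7,[y1,y10,y22,y22,y22,z22])],.ref k12 k0 [(z2,[z11,z3,z0,z11,z11,y11]),
    (z1,[y2,z0,z3,y2,y2,z2]),(z1,[y8,z0,z0,y5,y8,z8]),(z1,[z4,z0,z0,z4,z7,y4]),(z2,[y1,y3,y6,y7,y7,z7])],
    .ref k12 k0 [(z2,[y11,z3,y11,z0,y11,z11]),(z1,[z2,z0,z5,z0,z2,y2]),(z1,[z8,z0,z8,z3,z8,y8]),(z1,[y4,z0,y4,z0,y1,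
    z4]),(z2,[z1,y3,y5,y6,y5,z5])],.ref k12 k0 [(z5,[z11,z2,y11,z0,y11]),(z5,[y4,z2,z19,z0,z4]),(z5,[y16,z8,z16,z15,
    z16]),(z5,[z8,y4,y8,z0,z7]),(z5,[y1,y7,y14,y15,y14,z15])],.ref k12 k0 [(z6,[z11,z9,z11,z11,z0,y11]),(z3,[y2,z0,z7,
    y2,z0,z2]),(z3,[y8,z0,y8,z1,z0,z8]),(z3,[z4,z0,z4,z4,z9,y4]),(z6,[y1,y9,y19,y19,y18,z19])],.ref k12 k0 [(z3,[z11,
    z10,z22,z22,z22,y22]),(z3,[y4,y2,z1,y8,y8,z8]),(z3,[y16,y8,y32,y23,y32,z32]),(z3,[z8,z4,z16,z16,z25,y16]),(z3,[y1,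
    y5,y11,y11,y11,z11])],.ref k12 k0 [(z4,[z11,z6,z11,z11,z11,y11]),(z1,[y1,z0,z2,y1,y1,z1]),(z1,[y4,z0,y4,y1,y4,
    z4]),(z1,[z2,z0,z2,z2,z5,y2]),(z4,[y1,y6,y13,y13,y13,z13])],.ref k12 k0 [(z4,[y11,z6,z33]),(z1,[z1]),(z1,[z4,z0,
    y12,z3]),(z1,[y2,z0,z6,z0,z3]),(z4,[z1,y6,y15,y12,y12,z12])],.ref k12 k0 [(z8,[y11,z12,z22,z11]),(z2,[z1,z0,z4,
    y1]),(z1,[z2,z0,y4,z1]),(z1,[y1,z0,z2,z1,z3]),(z8,[z1,y12,y26,y25,y24,z24])],.ref k12 k0 [(z3,[y11,y1,z11,y11,y11,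
    z11]),(z3,[z4,z2,z5,z4,z4,y4]),(z3,[z16,z8,y16,z25,z16,y16]),(z3,[y8,y4,z8,y8,z1,z8]),(z3,[z1,y4,y10,y8,y8,z8])],
    .ref k12 k0 [(z7,[y11,z5,z0,z0,y11,z11]),(z7,[z4,z2,z21,z0,z4,y4]),(z7,[z16,z8,z0,z21,z16,y16]),(z7,[y8,y4,z0,z0,
    z13,z8]),(z7,[z1,y10,y21,y21,y20,z20])],.ref k12 k0 [(z1,[z11,z7,z0,z11,z0,y11]),(z1,[y4,y2,z3,y4,z0,z4]),(z1,
    [y16,y8,z0,y13,z0,z16]),(z1,[z8,z4,z0,z8,z3,y8]),(z1,[y1,y2,y3,y4,y3,z4])],.ref k12 k0 [(z2,[y11,y8,y11,y22,y22,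
    z22]),(z1,[z2,z2,z5,z4,z4,y4]),(z1,[z8,z8,z8,z19,z16,y16]),(z1,[y4,y4,y4,y8,y5,z8]),(z2,[z1,y2,y5,y4,y4,z4])],
    .ref k12 k0 [(z1,[y1,z1,y1,z1,y1,z1]),(z11,[z4,z2,z37,y4,z4,y4]),(z11,[z16,z8,z16,z17,z16,y16]),(z11,[y8,y4,y8,z8,
    z25,z8]),(z11,[z1,y16,y32,y34,y32,z32])],.ref k12 k0 [(z3,[y11,y1,y11,z0,z0,z11]),(z3,[z4,z2,z13,z0,z0,y4]),(z3,
    [z16,z8,z16,z9,z0,y16]),(z3,[y8,y4,y8,z0,z9,z8]),(z3,[z1,y4,y8,y9,y9,z8])],.ref k12 k0 [(z6,[y11,y2,y22,y11,y22,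
    z22]),(z3,[z2,z2,z13,z2,z4,y4]),(z3,[z8,z8,z16,z17,z16,y16]),(z3,[y4,y4,y8,y4,z1,z8]),(z6,[z1,y8,y16,y17,y16,
    z16])],.ref k12 k0 [(z2,[y11,z3,z0,z11,z11]),(z1,[z2,z0,z3,y2,y2]),(z1,[z8,z0,z0,y5,y8]),(z1,[y4,z0,z0,z4,z7]),
    (z2,[z1,y3,y6,y7,y7,z6])],.ref k12 k0 [(z5,[y11,z2,y11,z0,y11,z11]),(z5,[z4,z2,z19,z0,z4,y4]),(z5,[z16,z8,z16,z15,
    z16,y16]),(z5,[y8,y4,y8,z0,z7,z8]),(z5,[z1,y7,y14,y15,y14,z14])],.ref k12 k0 [(z2,[z11,z14,z22,z22,z11,y22]),(z1,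
    [y2,y2,y1,y4,y2,z4]),(z1,[y8,y8,y16,y13,y8,z16]),(z1,[z4,z4,z8,z8,z7,y8]),(z2,[y1,y4,y8,y8,y7,z8])],
    .ref k12 k0 [(z3,[z11,z10,z11,z11,z0,y11]),(z3,[y4,y2,z5,y4,z0,z4]),(z3,[y16,y8,y16,y7,z0,z16]),(z3,[z8,z4,z8,z8,
    z9,y8]),(z3,[y1,y5,y10,y10,y9,z10])],.ref k12 k0 [(z1,[y11,y15,y33,y33,y33,z33]),(z1,[z4,z6,z15,z12,z12,y12]),(z1,
    [z16,z24,z48,z51,z48,y48]),(z1,[y8,y12,y24,y24,y21,z24]),(z1,[z1])]],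
    .lp [k160,k168,k164,k156,k148,k162] [k4,k4,k0,k0,k2,k2,k6,k6,k10,k10,k3,k3] k0 [[k0,k0,k0,k0,k0,k0,k6,k0,k12],[k0,k0,
    k0,k0,k0,k4],[k0,k0,k0,k0,k0,k0,k0,k0,k12,k0,k2],[k0,k0,k0,k0,k0,k0,k0,k4],[k4],[k0,k0,k0,k0,k0,k0,k0,k24,k0,k8],
    [k0,k0,k4,k0,k24],[k0,k6,k0,k0,k0,k0,k0,k0,k0,k0,k0,k14],[k0,k0,k0,k0,k8],[k0,k12,k0,k12],[k0,k0,k0,k0,k0,k0,k14],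
    [k0,k0,k0,k2]] (nat_lit 480) k5
    [[(k8,k154),(k0,k160),(k10,k161),(k2,k162),(k4,k162),(k6,k172)],[(k9,k148),(k11,k149),(k1,k160),(k5,k162),(k7,
    k162),(k3,k164)],[(k4,k162),(k0,k164),(k10,k165),(k2,k168),(k6,k168),(k8,k170)],[(k11,k153),(k1,k162),(k7,k162),
    (k9,k162),(k5,k166),(k3,k168)],[(k6,k156),(k0,k162),(k4,k164),(k10,k165),(k2,k166),(k8,k168)],[(k7,k160),(k1,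
    k162),(k3,k162),(k5,k164),(k11,k171),(k9,k180)],[(k6,k132),(k8,k144),(k10,k159),(k4,k160),(k0,k162),(k2,k162)],
    [(k7,k132),(k9,k152),(k5,k156),(k11,k159),(k3,k168),(k1,k172)],[(k10,k141),(k0,k148),(k8,k148),(k6,k152),(k2,
    k162),(k4,k180)],[(k7,k144),(k9,k148),(k1,k154),(k11,k155),(k5,k168),(k3,k170)],[(k0,k149),(k2,k153),(k8,k155),
    (k6,k159),(k10,k162),(k4,k171)],[(k9,k141),(k7,k159),(k1,k161),(k11,k162),(k3,k165),(k5,k165)]]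
    [] k0
    [[k2,k0,k0,k0,k1,k0],[k2,k0,k0,k0,k0,k1],[k1,k1,k0,k0,k0,k1],[k1,k0,k1,k0,k1,k0],[k1,k0,k1,k0,k0,k1],[k1,k0,k0,k2,
    k0,k0],[k1,k0,k0,k1,k1,k0],[k1,k0,k0,k0,k2,k0],[k1,k0,k0,k0,k1,k1],[k1,k0,k0,k0,k0,k2],[k0,k1,k0,k2,k0,k0],[k0,k1,
    k0,k1,k1,k0],[k0,k1,k0,k0,k1,k1],[k0,k0,k1,k2,k0,k0],[k0,k0,k0,k3,k0,k0],[k0,k0,k0,k2,k1,k0],[k0,k0,k0,k2,k0,k1],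
    [k0,k0,k0,k1,k2,k0],[k0,k0,k0,k1,k1,k1],[k0,k0,k0,k0,k3,k0],[k0,k0,k0,k0,k2,k1],[k0,k0,k0,k0,k1,k2]]
    [.ref k22 k0 [(z3,[z4,z1]),(z3,[y8,z16,z9]),(z3,[y2,z4,z0,z9]),(z3,[z5,y19,y9,y9,z9])],.ref (nat_lit 373) k2 [(z1,
    [y1,z1,y1,y1,z1]),(z1,[z0,z0,z0,z1]),(z1,[z0,z0,z1]),(z1,[z0,z1])],.ref k87 k4 [(z1,[z1,y1,y1]),(z1,[z0,z1]),(z1,
    [z0,z0,z1]),(z1,[z0,z0,z0,z1])],.ref k22 k0 [(z1,[z4,y1,z0,y4]),(z1,[y8,z8,z3,z8]),(z1,[y2,z2,z0,z5]),(z1,[z5,y8,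
    y3,y8,z3])],.ref k26 k2 [(z1,[y1,z0,y1,z0,z1]),(z1,[z0,z0,z0,z1]),(z1,[z0,z0,z1]),(z1,[z0,z1])],
    .ref (nat_lit 253) k4 [(z2,[y1,y1,y2,y2,z2]),(z1,[z0,z1]),(z1,[z0,z0,z1]),(z1,[z0,z0,z0,z1])],
    .ref (nat_lit 316) k4 [(z1,[y1,z0,y1,y1,z1]),(z1,[z0,z1]),(z1,[z0,z0,z1]),(z1,[z0,z0,z0,z1])],.ref k22 k0 [(z1,
    [z2,z1]),(z1,[y4,z4,z3]),(z1,[y1,z1,z0,z3]),(z2,[z5,y11,y6,y6,z6])],.ref (nat_lit 374) k2 [(z1,[y1,z0,y1,y1,z1]),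
    (z1,[z0,z0,z0,z1]),(z1,[z0,z0,z1]),(z1,[z0,z1])],.ref k26 k2 [(z2,[y1,y1,y2,y2,z2]),(z1,[z0,z0,z0,z1]),(z1,[z0,z0,
    z1]),(z1,[z0,z1])],.ref (nat_lit 375) k10 [(z1,[z0,z0,z1,y4]),(z1,[z0,z1,z0,z2]),(z1,[y1,y2,y1,y1,z2]),(z1,[z0,z0,
    z0,z1])],.ref k26 k2 [(z1,[z1,z0,y1]),(z1,[z0,z0,z0,z1]),(z1,[z0,z0,z1]),(z1,[z0,z1])],.ref (nat_lit 253) k4 [(z1,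
    [z1,z0,y1]),(z1,[z0,z1]),(z1,[z0,z0,z1]),(z1,[z0,z0,z0,z1])],.ref k87 k4 [(z2,[y1,y2,y2,y1,z2]),(z1,[z0,z1]),(z1,
    [z0,z0,z1]),(z1,[z0,z0,z0,z1])],.ref (nat_lit 376) k4 [(z1,[y1,y3,y3,y3,z3]),(z1,[z0,z1]),(z1,[z0,z0,z1]),(z1,[z0,
    z0,z0,z1])],.ref (nat_lit 377) k4 [(z1,[y1,y2,y2,y2,z2]),(z1,[z0,z1]),(z1,[z0,z0,z1]),(z1,[z0,z0,z0,z1])],
    .ref (nat_lit 316) k4 [(z1,[y1,y2,y2,y2,z2]),(z1,[z0,z1]),(z1,[z0,z0,z1]),(z1,[z0,z0,z0,z1])],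
    .ref (nat_lit 253) k4 [(z1,[y1,y1,y1,y1,z1]),(z1,[z0,z1]),(z1,[z0,z0,z1]),(z1,[z0,z0,z0,z1])],.ref k22 k0 [(z1,
    [z2,z5,z2,z2,y2]),(z1,[y4,y4,y1,y4,z4]),(z1,[y1,y1,y1,z2,z1]),(z2,[z5,y1,y1,y1,z1])],.ref k22 k0 [(z1,[z4,z3]),
    (z1,[y8,z0,z3]),(z1,[y2,z0,z0,z3]),(z1,[z5,y3,y3,y3,z3])],.ref k26 k2 [(z1,[y1,y1,y1,y1,z1]),(z1,[z0,z0,z0,z1]),
    (z1,[z0,z0,z1]),(z1,[z0,z1])],.ref (nat_lit 378) k2 [(z1,[y1,y2,y2,y2,z2]),(z1,[z0,z0,z0,z1]),(z1,[z0,z0,z1]),(z1,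
    [z0,z1])]],
    .leafM k0 [k2,k3,k4,k5,k0,k1] [(z1,[y1,y1,y1,z1])] [],
    .leafM k1 [k0,k1,k2,k3,k4,k5] [(z1,[z0,z1]),(z1,[z0,y1,z0,z1])] [],
    .leafM k0 [k0,k1,k2,k3,k4,k5] [(z5,[z0,z1,z1])] []]

noncomputable def cT6_3_n8_2 : List TN :=
  [.lp [k166,k170,k168,k146,k158,k150] [k2,k2,k0,k0,k1,k1,k12,k12,k6,k6,k16,k4] k0 [[k0,k0,k0,k0,k0,k0,k14,k0,k2],[k0,k0,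
    k0,k0,k0,k2],[k0,k0,k0,k0,k0,k0,k0,k0,k0,k0,k18],[k0,k0,k0,k0,k0,k0,k0,k2],[k2,k0,k0,k0,k0,k0,k14],[k0,k0,k0,k0,
    k0,k0,k0,k0,k0,k4],[k0,k0,k2,k0,k0,k0,k0,k0,k34],[k0,k14,k0,k0,k0,k14],[k0,k0,k0,k0,k4,k0,k0,k0,k0,k0,k22],[k0,k2,
    k0,k0,k0,k0,k0,k34],[],[k0,k0,k0,k18,k0,k0,k0,k0,k0,k22]] (nat_lit 480) k5
    [[(k8,k140),(k2,k150),(k10,k152),(k6,k156),(k0,k166),(k4,k167)],[(k9,k148),(k7,k158),(k11,k162),(k1,k166),(k5,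
    k167),(k3,k168)],[(k10,k154),(k8,k166),(k4,k167),(k0,k168),(k2,k170),(k6,k172)],[(k1,k150),(k7,k158),(k9,k166),
    (k11,k166),(k5,k169),(k3,k170)],[(k6,k155),(k8,k163),(k0,k167),(k4,k168),(k2,k169),(k10,k171)],[(k9,k149),(k7,
    k157),(k1,k167),(k3,k167),(k5,k168),(k11,k169)],[(k10,k142),(k8,k148),(k4,k157),(k0,k158),(k2,k158),(k6,k160)],
    [(k11,k120),(k9,k152),(k5,k155),(k1,k156),(k7,k160),(k3,k172)],[(k0,k148),(k10,k148),(k4,k149),(k6,k152),(k2,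
    k166),(k8,k192)],[(k1,k140),(k7,k148),(k11,k160),(k5,k163),(k3,k166),(k9,k192)],[(k6,k120),(k8,k160),(k0,k162),
    (k2,k166),(k4,k169),(k10,k172)],[(k7,k142),(k9,k148),(k1,k152),(k3,k154),(k5,k171),(k11,k172)]]
    [] k0
    [[k2,k0,k0,k0,k1,k0],[k1,k1,k0,k0,k1,k0],[k1,k1,k0,k0,k0,k1],[k1,k0,k1,k0,k1,k0],[k1,k0,k0,k2,k0,k0],[k1,k0,k0,k1,
    k1,k0],[k1,k0,k0,k1,k0,k1],[k1,k0,k0,k0,k1,k1],[k0,k1,k0,k1,k1,k0],[k0,k1,k0,k1,k0,k1],[k0,k0,k1,k2,k0,k0],[k0,k0,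
    k1,k1,k1,k0],[k0,k0,k1,k1,k0,k1],[k0,k0,k0,k2,k1,k0],[k0,k0,k0,k2,k0,k1],[k0,k0,k0,k1,k1,k1],[k0,k0,k0,k1,k0,k2]]
    [.ref k12 k0 [(z3,[z6,z3,z2,z6,z2,y6]),(z3,[y6,z6,z1,y6,y2,z6]),(z6,[z3,y3,z1,z21,z1,y3]),(z1,[z0,z0,z0,z0,z1]),
    (z3,[y3,y6,y4,y12,y4,z12])],.ref k12 k0 [(z1,[y6,z3,z0,y6,y2,z6]),(z1,[z6,z0,z1,z6,z2,y6]),(z2,[y3,z0,z0,z3,y1,
    z3]),(z1,[z0,z0,z0,z0,z1]),(z1,[z3,y3,y1])],.ref k12 k0 [(z1,[z12,y9,y4]),(z1,[y12,z12,z5]),(z1,[z3,y3,y1,z3]),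
    (z1,[z0,z0,z0,z0,z1]),(z1,[y6,z3,z1,y3,y1,z3])],.ref k12 k0 [(z3,[z12,z9,z4,z0,z4,y12]),(z3,[y12,z0,y1,z0,y4,
    z12]),(z3,[z3,z0,z1,z9,z1,y3]),(z1,[z0,z0,z0,z0,z1]),(z3,[y6,y9,y5,y9,y5,z15])],.ref k12 k0 [(z1,[z3,z0,z0,z0,
    y2]),(z1,[y3,z3,z1,z0,z2]),(z4,[z3,y3,z0,z12,y2]),(z1,[z0,z0,z0,z0,z1]),(z2,[y3,y3,y2,y6,z0,z6])],
    .ref k12 k0 [(z1,[z6,z3,z2,z6,z0,y6]),(z1,[y6,z0,y1,y6,z0,z6]),(z2,[z3,z0,z1,z9,z0,y3]),(z1,[z0,z0,z0,z0,z1]),(z1,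
    [y3,y3,y2,y6,y1,z6])],.ref k12 k0 [(z5,[z12,z3,z0,z0,y4]),(z5,[y12,z12,z5,z0,z4]),(z5,[z3,y3,z0,z15,y1]),(z1,[z0,
    z0,z0,z0,z1]),(z5,[y6,y9,y5,y15,y3,z15])],.ref k12 k0 [(z3,[z12,z9,z4,z12,z4,y12]),(z3,[y12,z0,y1,y12,y4,z12]),
    (z3,[z3,z0,z1,z12,z1,y3]),(z1,[z0,z0,z0,z0,z1]),(z3,[y6,y9,y5,y15,y5,z15])],.ref k12 k0 [(z1,[y2,z1,z0,y2,z0,z2]),
    (z1,[z2,z2,z1,z2,z0,y2]),(z2,[y1,y1,z0,z5,z0,z1]),(z1,[z0,z0,z0,z0,z1]),(z1,[z1,y2,y1,y2,y1,z2])],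
    .ref k12 k0 [(z3,[y12,z9,z4,z0,z4]),(z3,[z12,z0,y1,z0,y4]),(z3,[y3,z0,z1,z9,z1]),(z1,[z0,z0,z0,z0,z1]),(z3,[z6,y9,
    y5,y9,y5,z9])],.ref k12 k0 [(z1,[z12,z3,z0,y12,y8]),(z1,[y12,z0,z1,z12,z8]),(z1,[z3,z0,z0,z0,y2]),(z1,[z0,z0,z0,
    z0,z1]),(z1,[y6,y3,y1,z3,z3,z3])],.ref k12 k0 [(z1,[y12,y9,y4,z0,z0,z12]),(z1,[z12,z12,z5,z0,z0,y12]),(z1,[y3,y3,
    y1,z3,z0,z3]),(z1,[z0,z0,z0,z0,z1]),(z1,[z6,z3,z1,y3,y1,y3])],.ref k12 k0 [(z1,[z6,z3,z0,y6,y2]),(z1,[y6,z0,z1,z6,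
    z2]),(z2,[z3,z0,z0,z3,y1]),(z1,[z0,z0,z0,z0,z1]),(z1,[y3,y3,y1,z0,z0,z3])],.ref k12 k0 [(z1,[y6,y3,y2,y6,z2,z6]),
    (z1,[z6,z6,z3,z6,y2,y6]),(z2,[y3,y3,y1,z3,z1,z3]),(z1,[z0,z0,z0,z0,z1]),(z1,[z3,z0,z0,z0,y2])],.ref k12 k0 [(z1,
    [z12,z3,z0,z0,y8]),(z1,[y12,z0,z1,z0,z8]),(z1,[z3,z0,z0,z3,y2]),(z1,[z0,z0,z0,z0,z1]),(z1,[y6,y3,y1,y3,z3,z3])],
    .ref k12 k0 [(z1,[y12,y9,y4,y12,z0,z12]),(z1,[z12,z12,z5,z12,z0,y12]),(z1,[y3,y3,y1,z0,z0,z3]),(z1,[z0,z0,z0,z0,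
    z1]),(z1,[z6,z3,z1,z3,y1,y3])],.ref k12 k0 [(z1,[z6,z3,z0,z0,y2]),(z1,[y6,z0,z1,z0,z2]),(z2,[z3,z0,z0,z6,y1]),(z1,
    [z0,z0,z0,z0,z1]),(z1,[y3,y3,y1,y3,z0,z3])]],
    .lp [k166,k170,k160,k150,k148,k164] [k2,k2,k0,k0,k5,k5,k10,k10,k11,k11,k3,k3] k0 [[k0,k0,k0,k0,k0,k0,k0,k0,k14],[],
    [k0,k0,k0,k0,k0,k0,k0,k0,k4,k0,k6],[],[k0,k0,k0,k0,k0,k0,k0,k0,k0,k0,k2],[k0,k0,k0,k0,k0,k0,k0,k20,k0,k16],[k0,k0,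
    k0,k0,k20],[k0,k0,k0,k0,k0,k0,k0,k0,k0,k0,k0,k12],[k0,k0,k0,k0,k16],[k0,k14,k0,k4],[k0,k0,k0,k0,k0,k0,k12],[k0,k0,
    k0,k6,k0,k2]] (nat_lit 480) k5
    [[(k8,k157),(k4,k161),(k2,k162),(k10,k165),(k0,k166),(k6,k170)],[(k11,k151),(k9,k157),(k7,k158),(k5,k163),(k1,
    k166),(k3,k168)],[(k6,k160),(k4,k165),(k10,k167),(k0,k168),(k2,k170),(k8,k173)],[(k9,k159),(k7,k160),(k1,k162),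
    (k11,k163),(k5,k165),(k3,k170)],[(k6,k155),(k8,k158),(k4,k160),(k0,k163),(k2,k165),(k10,k168)],[(k7,k155),(k5,
    k160),(k1,k161),(k3,k165),(k9,k174),(k11,k178)],[(k6,k130),(k8,k133),(k4,k155),(k0,k158),(k10,k159),(k2,k160)],
    [(k7,k130),(k9,k149),(k5,k155),(k11,k157),(k3,k160),(k1,k170)],[(k10,k144),(k8,k148),(k6,k149),(k0,k157),(k2,
    k159),(k4,k174)],[(k7,k133),(k9,k148),(k11,k156),(k1,k157),(k5,k158),(k3,k173)],[(k0,k151),(k8,k156),(k6,k157),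
    (k2,k163),(k10,k164),(k4,k178)],[(k9,k144),(k7,k159),(k11,k164),(k1,k165),(k3,k167),(k5,k168)]]
    [] k0
    [[k1,k0,k1,k1,k0,k0],[k1,k0,k1,k0,k1,k0],[k1,k0,k0,k2,k0,k0],[k1,k0,k0,k1,k1,k0],[k1,k0,k0,k0,k2,k0],[k1,k0,k0,k0,
    k1,k1],[k0,k1,k0,k2,k0,k0],[k0,k1,k0,k1,k1,k0],[k0,k0,k2,k1,k0,k0],[k0,k0,k1,k2,k0,k0],[k0,k0,k1,k1,k1,k0],[k0,k0,
    k0,k3,k0,k0],[k0,k0,k0,k2,k1,k0],[k0,k0,k0,k2,k0,k1],[k0,k0,k0,k1,k2,k0],[k0,k0,k0,k1,k1,k1],[k0,k0,k0,k0,k3,k0],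
    [k0,k0,k0,k0,k2,k1],[k0,k0,k0,k0,k1,k2]]
    [.ref k10 k11 [(z1,[z0,z1,y4]),(z1,[y1,z0,z1,z0,z1]),(z1,[z0,z0,y1]),(z1,[z1,y1,z2,y1])],.ref k22 k0 [(z1,[z4,y1,
    z0,y4]),(z1,[z1,y1,z3,y1]),(z1,[y2,z2,z0,z5]),(z1,[y4,z1,y3,z1,z3])],.ref k10 k11 [(z1,[z0,z1,y4]),(z2,[y1,y1,z2,
    y2,z2]),(z1,[z0,z0,y1]),(z2,[z1,y1,z4])],.ref (nat_lit 343) k11 [(z1,[z0,z1,y4]),(z1,[y1,z0,y2,y1,z1]),(z1,[z0,z0,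
    y1]),(z1,[z1,y1,z5])],.ref k22 k0 [(z1,[z2,z1]),(z2,[z1,y1,z6]),(z1,[y1,z1,z0,z3]),(z1,[y2,y1,y3,y3,z3])],
    .ref k126 k11 [(z1,[z0,z1,y4]),(z1,[z1,y1,z5]),(z1,[z0,z0,y1]),(z1,[y1,z0,y2,y1,z1])],.ref (nat_lit 369) k5 [(z1,
    [y2,z0,z2,z1]),(z1,[z1]),(z1,[z4,z1,y4]),(z1,[y4,y1,z3,y1,z1])],.ref k10 k11 [(z1,[z0,z1,y4]),(z1,[y1,y1,z2,y1,
    z1]),(z1,[z0,z0,y1]),(z1,[z1,z0,z1])],.ref k58 k2 [(z1,[z1,z0,z0,y2]),(z1,[z0,z0,z0,z1]),(z1,[z0,z0,z1]),(z1,[z0,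
    z1])],.ref k126 k11 [(z1,[z0,z1,y4]),(z2,[y1,y2,z8,y1,z2]),(z1,[z0,z0,y1]),(z2,[z1,z0,y2,y1])],.ref k126 k11 [(z1,
    [z0,z1,y4]),(z1,[y1,y1,z4,z0,z1]),(z1,[z0,z0,y1]),(z1,[z1,z0,y1,y1])],.ref (nat_lit 383) k11 [(z1,[z0,z1,y4]),(z1,
    [y1,y3,z9,y3,z3]),(z1,[z0,z0,y1]),(z1,[z1])],.ref (nat_lit 369) k5 [(z1,[y2,z0,z0,z1]),(z1,[z1,z0,z1]),(z1,[z4,
    z1]),(z1,[y4,y1,y1,y1,z1])],.ref k58 k2 [(z1,[z1,z1,z1,z1,y1]),(z1,[z0,z0,z0,z1]),(z1,[z0,z0,z1]),(z1,[z0,z1])],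
    .ref k10 k11 [(z1,[z0,z1,y4]),(z1,[y1,y1,z1,y1,z1]),(z1,[z0,z0,y1]),(z1,[z1,z0,z2])],.ref k22 k0 [(z1,[y4,y1,y4,
    y4,z4]),(z1,[y1,y1,z2,y1,z1]),(z1,[z2,z2,z2,z5,y2]),(z1,[z4,z1,z1,z1,y1])],.ref k22 k0 [(z1,[z4,z3]),(z1,[z1,z0,
    z3]),(z1,[y2,z0,z0,z3]),(z1,[y4,y3,y3,y3,z3])],.ref k10 k11 [(z1,[z0,z1,y4]),(z1,[z1,z0,z2]),(z1,[z0,z0,y1]),(z1,
    [y1,y1,z1,y1,z1])],.ref k138 k11 [(z1,[z0,z1,y4]),(z1,[z1,z0,z1]),(z1,[z0,z0,y1]),(z1,[y1,y2,z5,y2,z2])]],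
    .lp [k166,k164,k164,k152,k148,k164] [k0,k0,k1,k1,k1,k1,k7,k7,k9,k9,k1,k1] k0 [[k0,k0,k0,k0,k0,k0,k0,k0,k4,k0,k4],[],
    [],[],[k0,k0,k0,k0,k0,k0,k0,k0,k0,k0,k2],[k0,k0,k0,k0,k0,k0,k0,k22,k0,k4],[k0,k0,k0,k0,k22],[k0,k0,k0,k0,k0,k0,k0,
    k0,k0,k2],[k0,k0,k0,k0,k4,k0,k2],[k0,k4,k0,k0,k0,k0,k0,k0,k0,k0,k0,k4],[k0,k0,k0,k0,k0,k0,k0,k0,k4],[k0,k4,k0,k0,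
    k0,k2]] (nat_lit 480) k5
    [[(k6,k159),(k8,k161),(k0,k162),(k4,k163),(k2,k165),(k10,k165)],[(k9,k157),(k7,k159),(k11,k161),(k1,k162),(k3,
    k165),(k5,k165)],[(k6,k158),(k8,k160),(k2,k164),(k4,k164),(k0,k165),(k10,k168)],[(k9,k156),(k7,k158),(k3,k164),
    (k5,k164),(k11,k164),(k1,k165)],[(k8,k156),(k6,k158),(k2,k164),(k4,k164),(k10,k164),(k0,k165)],[(k7,k158),(k1,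
    k163),(k3,k164),(k5,k164),(k11,k168),(k9,k178)],[(k6,k130),(k8,k146),(k2,k158),(k4,k158),(k0,k159),(k10,k160)],
    [(k7,k130),(k9,k150),(k3,k158),(k5,k158),(k1,k159),(k11,k160)],[(k8,k146),(k6,k150),(k2,k156),(k10,k156),(k0,
    k157),(k4,k178)],[(k7,k146),(k9,k146),(k5,k156),(k11,k156),(k3,k160),(k1,k161)],[(k8,k156),(k6,k160),(k10,k160),
    (k0,k161),(k2,k164),(k4,k168)],[(k9,k156),(k7,k160),(k11,k160),(k5,k164),(k1,k165),(k3,k168)]]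
    [] k0
    [[k1,k0,k1,k0,k1,k0],[k1,k0,k0,k2,k0,k0],[k1,k0,k0,k1,k1,k0],[k1,k0,k0,k0,k2,k0],[k1,k0,k0,k0,k1,k1],[k0,k1,k1,k0,
    k1,k0],[k0,k1,k0,k2,k0,k0],[k0,k1,k0,k1,k1,k0],[k0,k1,k0,k0,k2,k0],[k0,k0,k1,k2,k0,k0],[k0,k0,k1,k1,k1,k0],[k0,k0,
    k0,k3,k0,k0],[k0,k0,k0,k2,k1,k0],[k0,k0,k0,k2,k0,k1],[k0,k0,k0,k1,k2,k0],[k0,k0,k0,k1,k1,k1],[k0,k0,k0,k0,k3,k0],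
    [k0,k0,k0,k0,k2,k1],[k0,k0,k0,k0,k1,k2]]
    [.ref k12 k0 [(z1,[z4,z3,z4,z0,z4,y4]),(z1,[z4,z0,z7,z0,z4,y4]),(z1,[y2,z0,y2,z3,y2,z2]),(z1,[y8,z0,y8,z0,y5,z8]),
    (z1,[z1,y3,y2,y3,y2,z2])],.ref k12 k0 [(z1,[y1,z4,z0,z0,z2]),(z1,[y1,z1,z3,z0,z2]),(z2,[z1,y1,z0,z6,y2]),(z1,[z2,
    y2,z0,z0,y1]),(z4,[y1,y11,y12,y12,y10,z12])],.ref k12 k0 [(z1,[y4,z3,y4,y4,z0,z4]),(z1,[y4,z0,y1,y4,z0,z4]),(z1,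
    [z2,z0,z2,z5,z0,y2]),(z1,[z8,z0,z8,z8,z3,y8]),(z1,[y1,y3,y4,y4,y3,z4])],.ref k12 k0 [(z1,[z2,z5,z4,z4,z4,y4]),(z1,
    [z2,z2,z7,z4,z4,y4]),(z1,[y1,y1,y2,z1,y2,z2]),(z1,[y4,y4,y8,y8,y5,z8]),(z2,[z1,y5,y4,y4,y4,z4])],.ref k12 k0 [(z1,
    [z2,z3,z2,z2,z2,y2]),(z1,[z2,z0,z5,z2,z2,y2]),(z1,[y1,z0,y1,z2,y1,z1]),(z1,[y4,z0,y4,y4,y1,z4]),(z2,[z1,y6,y5,y5,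
    y5,z5])],.ref k12 k0 [(z1,[z4,z7,z0,z0,z4,y4]),(z1,[z4,z4,z3,z0,z4,y4]),(z1,[y2,y2,z0,z3,y2,z2]),(z1,[y8,y8,z0,z0,
    y5,z8]),(z1,[z1,y2,y3,y3,y2,z2])],.ref k12 k0 [(z1,[y1,z3,z1,z0,z2]),(z1,[y1,z0,z4,z0,z2]),(z2,[z1,z0,y1,z6,y2]),
    (z1,[z2,z0,y2,z0,y1]),(z4,[y1,y12,y11,y12,y10,z12])],.ref k12 k0 [(z1,[y4,y1,z0,y4,z0,z4]),(z1,[y4,y4,z3,y4,z0,
    z4]),(z1,[z2,z2,z0,z5,z0,y2]),(z1,[z8,z8,z0,z8,z3,y8]),(z1,[y1,y4,y3,y4,y3,z4])],.ref k12 k0 [(z1,[z2,z7,z2,z4,z4,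
    y4]),(z1,[z2,z4,z5,z4,z4,y4]),(z1,[y1,y2,y1,z1,y2,z2]),(z1,[y4,y8,y4,y8,y5,z8]),(z2,[z1,y4,y5,y4,y4,z4])],
    .ref k12 k0 [(z3,[y2,z9,z0,z2,z4]),(z3,[y2,z0,z9,z2,z4]),(z3,[z1,z0,z0,z8,y2]),(z3,[z4,z0,z0,y4,z1]),(z6,[y1,y18,
    y18,y17,y16,z18])],.ref k12 k0 [(z3,[y4,z5,y4,z0,z0,z4]),(z3,[y4,y4,z5,z0,z0,z4]),(z3,[z2,z2,z2,z9,z0,y2]),(z3,
    [z8,z8,z8,z0,z9,y8]),(z3,[y1,y10,y10,y9,y9,z10])],.ref k12 k0 [(z2,[y1,z6,z0,z0,z3]),(z2,[y1,z0,z6,z0,z3]),(z4,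
    [z1,z0,z0,z12,y3]),(z1,[z1]),(z8,[y1,y24,y24,y24,y21,z24])],.ref k12 k0 [(z5,[y4,z11,y4,y4,z4,z4]),(z5,[y4,y4,z11,
    y4,z4,z4]),(z5,[z2,z2,z2,z17,y2,y2]),(z5,[z8,z8,z8,z8,z7,y8]),(z5,[y1,y16,y16,y16,y14,z16])],.ref k12 k0 [(z5,[y4,
    z15,z0,z0,z8]),(z5,[y4,z0,z15,z0,z8]),(z5,[z2,z0,z0,z15,y4]),(z5,[z8,z0,z0,z0,y1]),(z5,[y1,y15,y15,y15,y13,z15])],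
    .ref k12 k0 [(z1,[y2,y1,y4,y4,y2,z4]),(z1,[y2,y4,y1,y4,y2,z4]),(z1,[z1,z2,z2,z5,z1,y2]),(z1,[z4,z8,z8,z8,z7,y8]),
    (z2,[y1,y8,y8,y8,y7,z8])],.ref k12 k0 [(z1,[y2,z1,y2,y2,z0,z2]),(z1,[y2,y2,z1,y2,z0,z2]),(z1,[z1,z1,z1,z4,z0,y1]),
    (z1,[z4,z4,z4,z4,z3,y4]),(z2,[y1,y7,y7,y7,y6,z7])],.ref k12 k0 [(z1,[z4,z15,z12,z12,z12,y12]),(z1,[z4,z12,z15,z12,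
    z12,y12]),(z1,[y2,y6,y6,y3,y6,z6]),(z1,[y8,y24,y24,y24,y21,z24]),(z1,[z1])],.ref k12 k0 [(z1,[z4,z11,z8,z8,z8,
    y8]),(z1,[z4,z8,z11,z8,z8,y8]),(z1,[y2,y4,y4,y1,y4,z4]),(z1,[y8,y16,y16,y16,y13,z16]),(z1,[z1,y1,y1,y1,y1,z1])],
    .ref k12 k0 [(z1,[z4,z7,z4,z4,z4,y4]),(z1,[z4,z4,z7,z4,z4,y4]),(z1,[y2,y2,y2,z1,y2,z2]),(z1,[y8,y8,y8,y8,y5,z8]),
    (z1,[z1,y2,y2,y2,y2,z2])]],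
    .lp [k164,k164,k148,k168,k138,k176] [k6,k6,k6,k6,k14,k14,k4,k4,k19,k19,k0,k0] k0 [[k0,k0,k0,k0,k0,k0,k0,k0,k0,k0,k2],
    [k0,k0,k0,k20],[k20],[k0,k0,k0,k0,k0,k0,k0,k0,k0,k0,k0,k8],[k0,k0,k0,k0,k0,k0,k22],[k0,k0,k0,k0,k0,k0,k0,k0,k0,
    k16],[k0,k0,k0,k0,k0,k0,k0,k0,k24,k0,k6],[k0,k0,k0,k0,k0,k22],[k0,k0,k0,k0,k16],[k0,k0,k0,k0,k0,k0,k0,k24,k0,k0,
    k0,k16],[k0,k0,k8,k0,k0,k0,k0,k0,k16],[k0,k2,k0,k0,k0,k0,k0,k6]] (nat_lit 480) k5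
    [[(k4,k156),(k6,k160),(k0,k162),(k8,k167),(k10,k170),(k2,k172)],[(k9,k151),(k1,k162),(k3,k164),(k7,k166),(k11,
    k170),(k5,k176)],[(k2,k144),(k8,k151),(k4,k156),(k0,k164),(k6,k166),(k10,k172)],[(k3,k144),(k9,k151),(k5,k156),
    (k7,k166),(k11,k170),(k1,k172)],[(k8,k143),(k4,k148),(k10,k154),(k2,k156),(k6,k158),(k0,k176)],[(k9,k121),(k5,
    k148),(k1,k156),(k3,k156),(k7,k158),(k11,k178)],[(k8,k137),(k4,k158),(k0,k166),(k2,k166),(k10,k172),(k6,k190)],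
    [(k11,k148),(k9,k153),(k5,k158),(k1,k160),(k3,k166),(k7,k190)],[(k4,k121),(k0,k151),(k2,k151),(k6,k153),(k8,k162),
    (k10,k163)],[(k7,k137),(k5,k143),(k3,k151),(k11,k157),(k9,k162),(k1,k167)],[(k6,k148),(k8,k157),(k10,k160),(k0,
    k170),(k2,k170),(k4,k178)],[(k5,k154),(k11,k160),(k9,k163),(k1,k170),(k3,k172),(k7,k172)]]
    [] k0
    [[k1,k1,k0,k0,k1,k0],[k1,k1,k1,k0,k0,k0],[k1,k0,k1,k0,k1,k0],[k1,k0,k0,k1,k1,k0],[k1,k0,k0,k0,k1,k1],[k0,k3,k0,k0,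
    k0,k0],[k0,k2,k1,k0,k0,k0],[k0,k2,k0,k1,k0,k0],[k0,k2,k0,k0,k1,k0],[k0,k1,k2,k0,k0,k0],[k0,k1,k1,k0,k1,k0],[k0,k1,
    k0,k1,k1,k0],[k0,k1,k0,k0,k2,k0],[k0,k0,k3,k0,k0,k0],[k0,k0,k2,k1,k0,k0],[k0,k0,k2,k0,k1,k0],[k0,k0,k1,k1,k1,k0],
    [k0,k0,k1,k0,k2,k0],[k0,k0,k1,k1,k0,k1],[k0,k0,k1,k0,k1,k1],[k0,k0,k0,k1,k2,k0],[k0,k0,k0,k1,k1,k1]]
    [.ref k12 k0 [(z1,[z0,z1]),(z2,[z6,z0,z3,z1,z6,y6]),(z1,[y9,z0,z0,y1,y9,z9]),(z1,[z12,z0,z0,z2,z15,y12]),(z2,[z0,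
    y2,y3,y1,y6,z6])],.ref k12 k0 [(z1,[z0,z1]),(z4,[y6,z2,z9,z1]),(z4,[z18,y6,y9,y1]),(z1,[y6,z2,z3,z1,z3]),(z2,[z0,
    y2,y3,y1,y6,z6])],.ref k12 k0 [(z1,[z0,z1]),(z1,[y1,z0,z1,z0,y1,z1]),(z2,[z6,z0,z3,z1,z6,y6]),(z1,[y4,z0,y2,z0,y1,
    z4]),(z2,[z0,y2,y3,y1,y6,z6])],.ref k12 k0 [(z1,[z0,z1]),(z8,[z6,z0,z15,z1,z0,y6]),(z8,[y18,z0,y9,z1,z0,z18]),(z2,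
    [z6,z0,z3,z1,z6,y6]),(z2,[z0,y2,y3,y1,y6,z6])],.ref k12 k0 [(z1,[z0,z1]),(z4,[y6,z0,z3,y1,y6,z6]),(z4,[z18,z0,z9,
    z5,z18,y18]),(z1,[y6,z0,y3,y1,y3,z6]),(z2,[z0,y2,y3,y1,y6,z6])],.ref k12 k0 [(z1,[z0,z1]),(z1,[z1]),(z2,[y6,z0,z9,
    z1]),(z1,[z4,z0,y6,z0,z3]),(z2,[z0,y2,y3,y1,y6,z6])],.ref k12 k0 [(z1,[z0,z1]),(z2,[y6,z0,z9,z1]),(z1,[z9,z0,y9,
    y1]),(z1,[y12,z0,z12,z2,z3]),(z2,[z0,y2,y3,y1,y6,z6])],.ref k12 k0 [(z1,[z0,z1]),(z2,[z1,z0,z2,z0,y1]),(z2,[y3,z0,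
    z3,z1,z3]),(z1,[z2,z0,y2,z0,z1]),(z2,[z0,y2,y3,y1,y6,z6])],.ref k12 k0 [(z1,[z0,z1]),(z4,[z6,z2,z3,z1,z6,y6]),(z4,
    [y18,y6,z9,y1,y18,z18]),(z1,[z6,z2,y3,z1,z9,y6]),(z2,[z0,y2,y3,y1,y6,z6])],.ref k12 k0 [(z1,[z0,z1]),(z5,[y3,z0,
    z9,z1]),(z10,[z18,z0,y9,y1]),(z5,[y12,z0,z6,z4,z15]),(z2,[z0,y2,y3,y1,y6,z6])],.ref k12 k0 [(z1,[z0,z1]),(z2,[y3,
    y1,z3,z0,y3,z3]),(z2,[z9,z3,z0,z1,z9,y9]),(z1,[y6,y2,z0,z0,y3,z6]),(z2,[z0,y2,y3,y1,y6,z6])],.ref k12 k0 [(z1,[z0,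
    z1]),(z10,[z6,z2,z15,z1,z0,y6]),(z5,[y9,y3,z0,z1,z0,z9]),(z5,[z12,z4,z0,z2,z15,y12]),(z2,[z0,y2,y3,y1,y6,z6])],
    .ref k12 k0 [(z1,[z0,z1]),(z1,[z3,z2,z3,z1,z6,y6]),(z2,[y18,y12,y9,y5,y36,z36]),(z1,[z12,z8,z6,z4,z27,y24]),(z2,
    [z0,y2,y3,y1,y6,z6])],.ref k12 k0 [(z1,[z0,z1]),(z6,[y2,z0,z9,z1]),(z1,[z1]),(z3,[y4,z0,z0,z2,z9]),(z2,[z0,y2,y3,
    y1,y6,z6])],.ref k12 k0 [(z1,[z0,z1]),(z2,[y3,z0,z3,z1,z3]),(z2,[z9,z0,z0,y2,y9]),(z1,[y6,z0,z0,z2,z9]),(z2,[z0,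
    y2,y3,y1,y6,z6])],.ref k12 k0 [(z1,[z0,z1]),(z12,[y6,y2,z15,z1,y6,z6]),(z4,[z6,z2,z3,z1,z6,y6]),(z3,[y6,y2,y3,z1,
    z3,z6]),(z2,[z0,y2,y3,y1,y6,z6])],.ref k12 k0 [(z1,[z0,z1]),(z1,[z3,z1,z3,z0,z0,y3]),(z2,[y18,y6,y9,z1,z0,z18]),
    (z1,[z12,z4,z6,z0,z3,y12]),(z2,[z0,y2,y3,y1,y6,z6])],.ref k12 k0 [(z1,[z0,z1]),(z6,[y6,y4,z3,y1,y12,z12]),(z1,[z3,
    z2,z3,z1,z6,y6]),(z3,[y12,y8,y12,y2,y15,z24]),(z2,[z0,y2,y3,y1,y6,z6])],.ref k12 k0 [(z1,[z0,z1]),(z2,[y6,z0,z3,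
    z1,z6]),(z1,[z9,z0,z0,y1,y9]),(z1,[y12,z0,z0,z2,z15]),(z2,[z0,y2,y3,y1,y6,z6])],.ref k12 k0 [(z1,[z0,z1]),(z5,[y3,
    y1,z6,z0,y3,z3]),(z10,[z18,z6,z9,z5,z18,y18]),(z5,[y12,y4,y6,z0,z3,z12]),(z2,[z0,y2,y3,y1,y6,z6])],
    .ref k12 k0 [(z1,[z0,z1]),(z4,[z3,z2,z9,z1,z3,y6]),(z4,[y9,y6,y9,y1,y9,z18]),(z1,[z3,z2,z3,z1,z6,y6]),(z2,[z0,y2,
    y3,y1,y6,z6])],.ref k12 k0 [(z1,[z0,z1]),(z4,[z6,z2,z9,z1,z0,y6]),(z4,[y18,y6,y9,y1,z0,z18]),(z1,[z6,z2,z3,z1,z3,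
    y6]),(z2,[z0,y2,y3,y1,y6,z6])]],
    .lp [k164,k164,k148,k168,k138,k176] [k6,k6,k6,k6,k14,k14,k4,k4,k19,k19,k0,k0] k0 [[k0,k0,k0,k0,k0,k0,k0,k0,k0,k0,k2],
    [k0,k0,k0,k20],[k20],[k0,k0,k0,k0,k0,k0,k0,k0,k0,k0,k0,k8],[k0,k0,k0,k0,k0,k0,k22],[k0,k0,k0,k0,k0,k0,k0,k0,k0,
    k16],[k0,k0,k0,k0,k0,k0,k0,k0,k24,k0,k6],[k0,k0,k0,k0,k0,k22],[k0,k0,k0,k0,k16],[k0,k0,k0,k0,k0,k0,k0,k24,k0,k0,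
    k0,k16],[k0,k0,k8,k0,k0,k0,k0,k0,k16],[k0,k2,k0,k0,k0,k0,k0,k6]] (nat_lit 480) k5
    [[(k4,k156),(k6,k160),(k0,k162),(k8,k167),(k10,k170),(k2,k172)],[(k9,k151),(k1,k162),(k3,k164),(k7,k166),(k11,
    k170),(k5,k176)],[(k2,k144),(k8,k151),(k4,k156),(k0,k164),(k6,k166),(k10,k172)],[(k3,k144),(k9,k151),(k5,k156),
    (k7,k166),(k11,k170),(k1,k172)],[(k8,k143),(k4,k148),(k10,k154),(k2,k156),(k6,k158),(k0,k176)],[(k9,k121),(k5,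
    k148),(k1,k156),(k3,k156),(k7,k158),(k11,k178)],[(k8,k137),(k4,k158),(k0,k166),(k2,k166),(k10,k172),(k6,k190)],
    [(k11,k148),(k9,k153),(k5,k158),(k1,k160),(k3,k166),(k7,k190)],[(k4,k121),(k0,k151),(k2,k151),(k6,k153),(k8,k162),
    (k10,k163)],[(k7,k137),(k5,k143),(k3,k151),(k11,k157),(k9,k162),(k1,k167)],[(k6,k148),(k8,k157),(k10,k160),(k0,
    k170),(k2,k170),(k4,k178)],[(k5,k154),(k11,k160),(k9,k163),(k1,k170),(k3,k172),(k7,k172)]]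
    [] k0
    [[k1,k1,k0,k0,k1,k0],[k1,k1,k1,k0,k0,k0],[k1,k0,k1,k0,k1,k0],[k1,k0,k0,k1,k1,k0],[k1,k0,k0,k0,k1,k1],[k0,k3,k0,k0,
    k0,k0],[k0,k2,k1,k0,k0,k0],[k0,k2,k0,k1,k0,k0],[k0,k2,k0,k0,k1,k0],[k0,k1,k2,k0,k0,k0],[k0,k1,k1,k0,k1,k0],[k0,k1,
    k0,k1,k1,k0],[k0,k1,k0,k0,k2,k0],[k0,k0,k3,k0,k0,k0],[k0,k0,k2,k1,k0,k0],[k0,k0,k2,k0,k1,k0],[k0,k0,k1,k1,k1,k0],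
    [k0,k0,k1,k0,k2,k0],[k0,k0,k1,k1,k0,k1],[k0,k0,k1,k0,k1,k1],[k0,k0,k0,k1,k2,k0],[k0,k0,k0,k1,k1,k1]]
    [.ref k12 k0 [(z1,[z7,z3,z0,z7,z7,y7]),(z2,[y1,z0,z3,y1,y1,z1]),(z1,[y2,z0,z0,z1,y2,z2]),(z1,[y2,z0,z0,y2,z1,z2]),
    (z2,[y7,y6,y3,y13,y13,z13])],.ref k12 k0 [(z3,[z14,y5,y7,y14]),(z3,[y1,z1,z5,z1]),(z3,[y4,z4,z2,z13]),(z3,[y4,z4,
    z2,z4,z9]),(z3,[y7,y2,y1,y2,y9,z9])],.ref k12 k0 [(z1,[z14,z3,z7,z0,z14,y14]),(z1,[y1,z0,z1,z0,y1,z1]),(z1,[y4,z0,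
    y2,z3,y4,z4]),(z1,[y4,z0,y2,z0,y1,z4]),(z1,[y7,y3,y5,y3,y10,z10])],.ref k12 k0 [(z1,[z14,z3,z7,z14,z0,y14]),(z1,
    [y1,z0,z1,y1,z0,z1]),(z1,[y4,z0,y2,y1,z0,z4]),(z1,[y4,z0,y2,y4,z3,z4]),(z1,[y7,y3,y5,y10,y3,z10])],
    .ref k12 k0 [(z3,[z14,z9,z7,z14,z14,y14]),(z3,[y1,z0,z4,y1,y1,z1]),(z3,[y4,z0,y2,z5,y4,z4]),(z3,[y4,z0,y2,y4,z5,
    z4]),(z3,[y7,y9,y8,y16,y16,z16])],.ref k12 k0 [(z1,[y14,z3,z21]),(z1,[z1]),(z1,[z4,z0,y6,z3]),(z1,[z4,z0,y6,z0,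
    z3]),(z1,[z7,y3,y12,y3,y3,z3])],.ref k12 k0 [(z1,[y7,z3,z7,z7]),(z2,[z1,z0,z2,y1]),(z1,[z2,z0,y2,z1]),(z1,[z2,z0,
    y2,y2,z3]),(z2,[z7,y6,y10,y13,y6,z6])],.ref k12 k0 [(z1,[y7,z3,z7,z0,z7]),(z2,[z1,z0,z2,z0,y1]),(z1,[z2,z0,y2,z3,
    y2]),(z1,[z2,z0,y2,z0,z1]),(z2,[z7,y6,y10,y6,y13,z6])],.ref k12 k0 [(z3,[y14,y5,z7,y14,y14,z14]),(z3,[z1,z1,z4,z1,
    z1,y1]),(z3,[z4,z4,y2,z13,z4,y4]),(z3,[z4,z4,y2,z4,z13,y4]),(z3,[z7,y2,y8,y2,y2,z2])],.ref k12 k0 [(z3,[y14,z9,z7,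
    z28]),(z3,[z1,z0,z4,y2]),(z3,[z4,z0,y2,z1]),(z3,[z4,z0,y2,y8,z9]),(z3,[z7,y9,y8,y23,y9,z9])],.ref k12 k0 [(z2,[y7,
    y1,z0,z0,y7,z7]),(z4,[z1,z1,z6,z0,z1,y1]),(z1,[z1,z1,z0,z3,z1,y1]),(z1,[z1,z1,z0,z0,z4,y1]),(z4,[z7,y5,y6,y12,y5,
    z5])],.ref k12 k0 [(z2,[y7,y1,z0,y7,z0,z7]),(z4,[z1,z1,z6,z1,z0,y1]),(z1,[z1,z1,z0,z4,z0,y1]),(z1,[z1,z1,z0,z1,z3,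
    y1]),(z4,[z7,y5,y6,y5,y12,z5])],.ref k12 k0 [(z5,[y14,y13,y7,y28,y28,z28]),(z5,[z1,z2,z8,z2,z2,y2]),(z5,[z4,z8,z2,
    z23,z8,y8]),(z5,[z4,z8,z2,z8,z23,y8]),(z5,[z7,y1,y4,y1,y1,z1])],.ref k12 k0 [(z2,[y7,z6,z0,z21]),(z4,[z1,z0,z6,
    y3]),(z1,[z1]),(z1,[z1,z0,z0,y3,z3]),(z4,[z7,y12,y6,y33,y12,z12])],.ref k12 k0 [(z2,[y7,z6,z0,z14,z7]),(z4,[z1,z0,
    z6,y2,y1]),(z1,[z1,z0,z0,z1,y1]),(z1,[z1,z0,z0,y2,z2]),(z4,[z7,y12,y6,y26,y19,z12])],.ref k12 k0 [(z5,[y14,z1,y7,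
    z14,y14,z14]),(z5,[z1,z1,z8,y1,z1,y1]),(z5,[z4,z4,z2,z11,z4,y4]),(z5,[z4,z4,z2,y4,z19,y4]),(z5,[z7,y8,y4,y22,y8,
    z8])],.ref k12 k0 [(z5,[y14,z1,y7,z0,z0,z14]),(z5,[z1,z1,z8,z0,z0,y1]),(z5,[z4,z4,z2,z15,z0,y4]),(z5,[z4,z4,z2,z0,
    z15,y4]),(z5,[z7,y8,y4,y15,y15,z8])],.ref k12 k0 [(z3,[y7,y5,y7,y7,y14,z14]),(z6,[z1,z2,z10,z1,z2,y2]),(z3,[z2,z4,
    z2,z11,z4,y4]),(z3,[z2,z4,z2,z2,z13,y4]),(z6,[z7,y4,y2,y11,y4,z4])],.ref k12 k0 [(z1,[y7,z3,z0,z7,z7]),(z2,[z1,z0,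
    z3,y1,y1]),(z1,[z2,z0,z0,z1,y2]),(z1,[z2,z0,z0,y2,z1]),(z2,[z7,y6,y3,y13,y13,z6])],.ref k12 k0 [(z3,[y14,y5,y7,z0,
    y14,z14]),(z3,[z1,z1,z5,z0,z1,y1]),(z3,[z4,z4,z2,z9,z4,y4]),(z3,[z4,z4,z2,z0,z13,y4]),(z3,[z7,y2,y1,y9,y2,z2])],
    .ref k12 k0 [(z3,[y7,y5,y7,y14,y7,z14]),(z6,[z1,z2,z10,z2,z1,y2]),(z3,[z2,z4,z2,z13,z2,y4]),(z3,[z2,z4,z2,z4,z11,
    y4]),(z6,[z7,y4,y2,y4,y11,z4])],.ref k12 k0 [(z3,[y14,y5,y7,y14,z0,z14]),(z3,[z1,z1,z5,z1,z0,y1]),(z3,[z4,z4,z2,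
    z13,z0,y4]),(z3,[z4,z4,z2,z4,z9,y4]),(z3,[z7,y2,y1,y2,y9,z2])]],
    .lp [k40,k40,k38,k41,k42,k38] [k5,k5,k5,k5,k6,k6,k9,k0,k4,k4,k6,k6] k0 [[k0,k0,k0,k0,k0,k0,k1,k0,k4],[k0,k0,k0,k8,k0,
    k1],[k8,k0,k0,k0,k0,k0,k0,k0,k4],[k0,k0,k0,k0,k0,k2,k0,k0,k0,k0,k0,k8],[k1,k0,k2],[k0,k0,k0,k0,k0,k0,k0,k0,k0,
    k16],[k0,k0,k0,k0,k0,k0,k0,k0,k5],[k0,k1],[k0,k0,k0,k0,k16,k0,k0,k0,k0,k0,k8],[k0,k4,k0,k4,k0,k0,k0,k5],[k0,k0,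
    k8],[k0,k0,k0,k0,k0,k0,k0,k0,k0,k8]] k120 k5
    [[(k8,k33),(k6,k36),(k4,k39),(k10,k39),(k0,k40),(k2,k48)],[(k11,k35),(k1,k40),(k3,k40),(k9,k40),(k7,k46),(k5,
    k47)],[(k2,k32),(k6,k37),(k4,k38),(k10,k39),(k0,k40),(k8,k45)],[(k3,k32),(k11,k35),(k5,k39),(k9,k41),(k7,k47),(k1,
    k48)],[(k10,k30),(k6,k35),(k4,k36),(k2,k39),(k8,k44),(k0,k47)],[(k5,k36),(k3,k38),(k1,k39),(k9,k40),(k7,k44),(k11,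
    k54)],[(k8,k30),(k6,k41),(k4,k44),(k10,k44),(k0,k46),(k2,k47)],[(k11,k30),(k5,k35),(k1,k36),(k3,k37),(k9,k37),(k7,
    k41)],[(k6,k37),(k0,k40),(k4,k40),(k10,k40),(k2,k41),(k8,k47)],[(k7,k30),(k1,k33),(k11,k40),(k5,k44),(k3,k45),(k9,
    k47)],[(k6,k30),(k0,k35),(k2,k35),(k8,k40),(k10,k46),(k4,k54)],[(k5,k30),(k1,k39),(k3,k39),(k9,k40),(k7,k44),(k11,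
    k46)]]
    [] k0
    [[k2,k0,k0,k0,k1,k0],[k2,k0,k0,k0,k0,k1],[k1,k1,k1,k0,k0,k0],[k1,k0,k1,k0,k0,k1],[k1,k0,k0,k1,k1,k0],[k1,k0,k0,k1,
    k0,k1],[k1,k1,k0,k0,k1,k0],[k1,k0,k0,k0,k1,k1],[k1,k1,k0,k0,k0,k1],[k0,k3,k0,k0,k0,k0],[k0,k2,k1,k0,k0,k0],[k0,k2,
    k0,k1,k0,k0],[k0,k2,k0,k0,k1,k0],[k0,k2,k0,k0,k0,k1],[k0,k1,k2,k0,k0,k0],[k0,k1,k1,k0,k0,k1],[k0,k1,k0,k1,k1,k0],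
    [k0,k1,k0,k1,k0,k1],[k0,k0,k3,k0,k0,k0],[k0,k0,k2,k1,k0,k0],[k0,k0,k1,k1,k1,k0],[k0,k0,k1,k1,k0,k1],[k0,k0,k1,k0,
    k1,k1],[k0,k0,k0,k2,k1,k0],[k0,k0,k0,k2,k0,k1],[k0,k0,k0,k1,k2,k0],[k0,k0,k0,k1,k1,k1]]
    [.ref k12 k0 [(z1,[z2,z1,z2,z2,z2,y2]),(z8,[y11,z11,z13,y11,y11,z11]),(z2,[z1,y1,z1,z7,z1,y1]),(z4,[y1,z1,y1,y1,
    z11,z1]),(z1,[y1,y2,y4,y4,y4,z4])],.ref k12 k0 [(z11,[z16,z1]),(z1,[y1,z2,z3]),(z11,[z4,y8,z0,z33]),(z11,[y2,z4,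
    z0,z0,z33]),(z11,[y8,y17,y33,y33,y33,z33])],.ref k12 k0 [(z3,[z16,y7,y16,y16]),(z3,[y11,z11,z20,z11]),(z3,[z4,y4,
    y4,z5]),(z3,[y2,z2,z2,z2,z9]),(z3,[y8,y1,y1,y1,y9,z9])],.ref k12 k0 [(z7,[z16,z5,z0,y16]),(z7,[y11,z11,z21,z11]),
    (z7,[z4,y4,z0,z17]),(z7,[y2,z2,z0,z2,z21]),(z7,[y8,y13,y21,y13,y21,z21])],.ref k12 k0 [(z1,[z8,z3,z8,z8,z0,y8]),
    (z2,[y11,z0,y5,y11,z0,z11]),(z1,[z2,z0,z2,z5,z0,y2]),(z1,[y1,z0,y1,y1,z3,z1]),(z1,[y4,y3,y7,y7,y3,z7])],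
    .ref k12 k0 [(z5,[z16,y1,z0,z0,y16]),(z5,[y11,z11,z15,z0,z11]),(z5,[z4,y4,z0,z15,y4]),(z5,[y2,z2,z0,z0,z17]),(z5,
    [y8,y7,y15,y15,y7,z15])],.ref k12 k0 [(z1,[y16,z3,z0,y16,y16,z16]),(z1,[z11,z0,z3,z11,z11,y11]),(z1,[y4,z0,z0,y1,
    y4,z4]),(z1,[z2,z0,z0,z2,z5,y2]),(z1,[z8,y3,y3,z5,z5,y5])],.ref k12 k0 [(z3,[z16,z9,z16,z16,z16,y16]),(z3,[y11,z0,
    y2,y11,y11,z11]),(z3,[z4,z0,z4,z13,z4,y4]),(z3,[y2,z0,y2,y2,z7,z2]),(z3,[y8,y9,y17,y17,y17,z17])],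
    .ref k12 k0 [(z1,[z8,y5,y8]),(z2,[y11,z11,z17]),(z1,[z2,y2,y2,z3]),(z1,[y1,z1,z1,z0,z3]),(z1,[y4,z1,z1,y3,y3,
    z3])],.ref k12 k0 [(z11,[y16,z33,z48]),(z1,[z1]),(z11,[y4,z0,z12,z33]),(z11,[z2,z0,y6,z0,z33]),(z11,[z8,y33,y57,
    y33,y33,z33])],.ref k12 k0 [(z3,[y8,z9,z16,z8]),(z6,[z11,z0,y4,y11]),(z3,[y2,z0,z4,z11]),(z3,[z1,z0,y2,y1,z9]),
    (z3,[z4,y9,y17,y13,y9,z9])],.ref k12 k0 [(z1,[y2,z3,z4,z0,z2]),(z8,[z11,z0,z2,z0,y11]),(z2,[y1,z0,z2,z6,z1]),(z4,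
    [z1,z0,y2,z0,z11]),(z1,[z1,y3,y5,y3,y4,z3])],.ref k12 k0 [(z5,[y8,z7,z8,y8,y8,z8]),(z10,[z11,z11,z19,z11,z11,
    y11]),(z5,[y2,y2,z2,z13,y2,z2]),(z5,[z1,z1,y1,z1,z16,y1]),(z5,[z4,y11,y19,y11,y11,z11])],.ref k12 k0 [(z7,[y16,
    z21,z32]),(z7,[z11,z0,y1]),(z7,[y4,z0,z8,z21]),(z7,[z2,z0,y4,z0,z21]),(z7,[z8,y21,y37,y21,y21,z21])],
    .ref k12 k0 [(z1,[y16,z3,z16,z32]),(z1,[z11,z0,y8,y22]),(z1,[y4,z0,z4,z11]),(z1,[z2,z0,y2,y4,z3]),(z1,[z8,y3,y11,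
    y19,y3,z3])],.ref k12 k0 [(z1,[y8,z3,z8,z8]),(z2,[z11,z0,y5,y11]),(z1,[y2,z0,z2,z5]),(z1,[z1,z0,y1,y1,z3]),(z1,
    [z4,y3,y7,y7,y3,z3])],.ref k12 k0 [(z7,[y16,z5,z0,y16,z0,z16]),(z7,[z11,z11,z21,z11,z0,y11]),(z7,[y4,y4,z0,z17,z0,
    z4]),(z7,[z2,z2,z0,z2,z21,y2]),(z7,[z8,y13,y21,y13,y21,z13])],.ref k12 k0 [(z1,[y4,z3,z4,z0,z4]),(z4,[z11,z0,z1,
    z0,y11]),(z1,[y1,z0,z1,z3,z1]),(z2,[z1,z0,y1,z0,z5]),(z1,[z2,y3,y5,y3,y5,z3])],.ref k12 k0 [(z1,[z4,z3,z0,y12]),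
    (z4,[y11,z0,z12,z33]),(z1,[z1]),(z2,[y1,z0,z0,z3,z6]),(z1,[y2,y3,y3,z3,y3,z3])],.ref k12 k0 [(z1,[z8,z3,z0,y16,
    y8]),(z2,[y11,z0,z6,z22,z11]),(z1,[z2,z0,z0,y1,y2]),(z1,[y1,z0,z0,z2,z4]),(z1,[y4,y3,y3,z5,z1,z3])],
    .ref k12 k0 [(z1,[y8,y5,y8,z0,z0,z8]),(z2,[z11,z11,z17,z0,z0,y11]),(z1,[y2,y2,y2,z3,z0,z2]),(z1,[z1,z1,z1,z0,z3,
    y1]),(z1,[z4,z1,z1,y3,y3,y1])],.ref k12 k0 [(z1,[z16,z3,z0,y16,y16]),(z1,[y11,z0,z3,z11,z11]),(z1,[z4,z0,z0,y1,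
    y4]),(z1,[y2,z0,z0,z2,z5]),(z1,[y8,y3,y3,z5,z5,z3])],.ref k12 k0 [(z1,[y16,y13,y16,z0,y16,z16]),(z1,[z11,z11,z14,
    z0,z11,y11]),(z1,[y4,y4,y4,z3,y4,z4]),(z1,[z2,z2,z2,z0,z5,y2]),(z1,[z8,z5,z5,y3,z5,y5])],.ref k12 k0 [(z1,[y4,y1,
    y4,y4,z4,z4]),(z4,[z11,z11,z23,z11,y11,y11]),(z1,[y1,y1,y1,z2,z1,z1]),(z2,[z1,z1,z1,z1,z5,y1]),(z1,[z2,y1,y1,y1,
    y5,z1])],.ref k12 k0 [(z1,[y16,z3,z0,z0,z32]),(z1,[z11,z0,z3,z0,y22]),(z1,[y4,z0,z0,z3,z8]),(z1,[z2,z0,z0,z0,y1]),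
    (z1,[z8,y3,y3,y3,y19,z3])],.ref k12 k0 [(z3,[y8,y7,y16,y16,y8,z16]),(z6,[z11,z22,z40,z22,z11,y22]),(z3,[y2,y4,y4,
    z5,y2,z4]),(z3,[z1,z2,z2,z2,z10,y2]),(z3,[z4,y1,y1,y1,y5,z1])],.ref k12 k0 [(z3,[y16,y7,y16,y16,z0,z16]),(z3,[z11,
    z11,z20,z11,z0,y11]),(z3,[y4,y4,y4,z5,z0,z4]),(z3,[z2,z2,z2,z2,z9,y2]),(z3,[z8,y1,y1,y1,y9,z1])]],
    .lp [k168,k170,k154,k164,k140,k162] [k1,k1,k0,k0,k8,k8,k3,k3,k15,k15,k4,k4] k0 [[k0,k0,k0,k0,k0,k0,k0,k0,k4,k0,k8],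
    [k0,k0,k0,k0,k0,k0,k0,k8],[k0,k0,k0,k0,k8,k0,k0,k0,k0,k0,k10],[k0,k0,k0,k0,k0,k0,k0,k0,k0,k4],[k0,k0,k0,k0,k0,k0,
    k12],[k0,k0,k0,k8],[k8],[k0,k0,k0,k0,k0,k12],[k0,k0,k4],[k0,k4,k0,k0,k0,k0,k0,k0,k0,k0,k0,k8],[k0,k0,k0,k0,k0,k0,
    k0,k0,k8],[k0,k8,k0,k10]] (nat_lit 480) k5
    [[(k2,k159),(k0,k160),(k4,k161),(k8,k162),(k10,k165),(k6,k166)],[(k1,k160),(k5,k161),(k11,k161),(k9,k162),(k7,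
    k166),(k3,k169)],[(k6,k159),(k8,k159),(k4,k162),(k0,k169),(k2,k170),(k10,k174)],[(k9,k155),(k1,k159),(k7,k159),
    (k5,k162),(k3,k170),(k11,k170)],[(k8,k143),(k6,k159),(k0,k161),(k2,k162),(k4,k162),(k10,k168)],[(k9,k135),(k11,
    k158),(k7,k159),(k1,k161),(k3,k162),(k5,k162)],[(k8,k152),(k2,k159),(k4,k159),(k10,k163),(k0,k166),(k6,k176)],
    [(k9,k152),(k3,k159),(k5,k159),(k11,k163),(k1,k166),(k7,k176)],[(k4,k135),(k8,k140),(k10,k151),(k6,k152),(k2,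
    k155),(k0,k162)],[(k9,k140),(k5,k143),(k11,k151),(k7,k152),(k3,k159),(k1,k162)],[(k8,k151),(k10,k154),(k4,k158),
    (k0,k161),(k6,k163),(k2,k170)],[(k9,k151),(k11,k154),(k7,k163),(k1,k165),(k5,k168),(k3,k174)]]
    [] k0
    [[k1,k0,k1,k0,k1,k0],[k1,k0,k0,k0,k2,k0],[k1,k0,k0,k0,k1,k1],[k0,k1,k1,k0,k1,k0],[k0,k1,k0,k1,k1,k0],[k0,k1,k0,k0,
    k2,k0],[k0,k0,k2,k0,k1,k0],[k0,k0,k1,k1,k1,k0],[k0,k0,k1,k0,k2,k0],[k0,k0,k1,k0,k1,k1],[k0,k0,k0,k1,k2,k0],[k0,k0,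
    k0,k1,k1,k1],[k0,k0,k0,k0,k3,k0],[k0,k0,k0,k0,k2,k1],[k0,k0,k0,k0,k1,k2],[k0,k0,k0,k0,k0,k3]]
    [.ref k12 k0 [(z1,[y2,z1,y2,z0,y2,z2]),(z1,[z2,z0,z5,z0,z2,y2]),(z1,[z1,z0,z1,z1,z1,y1]),(z1,[y4,z0,y4,z0,y1,z4]),
    (z1,[z4,y1,z1,y1,z1,y1])],.ref k12 k0 [(z3,[y3,z2,y6,y2,y6,z6]),(z3,[z3,z1,z15,z2,z6,y6]),(z6,[z3,z1,z6,z8,z6,
    y6]),(z3,[y6,y2,y12,y4,y3,z12]),(z3,[z6,y1,z3,z1,z3,y3])],.ref k12 k0 [(z1,[y6,z1,y6,y2,y6,z6]),(z1,[z6,z0,z9,z2,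
    z6,y6]),(z1,[z3,z0,z3,z2,z3,y3]),(z1,[y12,z0,y12,y4,y9,z12]),(z1,[z12,y1,z9,z3,z9,y9])],.ref k12 k0 [(z7,[y6,z5,
    z0,z0,y6,z6]),(z7,[z6,z2,z21,z0,z6,y6]),(z7,[z3,z1,z0,z7,z3,y3]),(z7,[y12,y4,z0,z0,z9,z12]),(z7,[z12,y3,y21,y7,y9,
    z9])],.ref k12 k0 [(z1,[y3,z0,z0,y1,z0,z3]),(z1,[z3,z1,z3,z1,z0,y3]),(z2,[z3,z1,z0,z3,z0,y3]),(z1,[y6,y2,z0,y2,z3,
    z6]),(z1,[z6,z1,y3,z1,y3,y3])],.ref k12 k0 [(z5,[y3,z3,y3,y2,y6,z6]),(z5,[z3,z2,z18,z2,z6,y6]),(z10,[z3,z2,z3,z12,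
    z6,y6]),(z5,[y6,y4,y6,y4,z3,z12]),(z5,[z6,y1,y9,y1,y3,z3])],.ref k12 k0 [(z3,[y3,z2,y3,z1,y3,z3]),(z3,[z3,z1,z12,
    y1,z3,y3]),(z6,[z3,z1,z3,z5,z3,y3]),(z3,[y6,y2,y6,z2,z3,z6]),(z3,[z6,y1,y3,y5,y3,z3])],.ref k12 k0 [(z1,[y6,y1,y6,
    z0,z0,z6]),(z1,[z6,z2,z9,z0,z0,y6]),(z1,[z3,z1,z3,z1,z0,y3]),(z1,[y12,y4,y12,z0,z3,z12]),(z1,[z12,z3,z9,y1,y3,
    y9])],.ref k12 k0 [(z9,[y6,z5,y12,y2,y12,z12]),(z9,[z6,z4,z39,z2,z12,y12]),(z9,[z3,z2,z6,z10,z6,y6]),(z9,[y12,y8,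
    y24,y4,z3,z24]),(z9,[z12,y1,y3,y5,y3,z3])],.ref k12 k0 [(z2,[y3,z1,y3,z0,y3,z3]),(z2,[z3,z1,z9,z0,z3,y3]),(z4,[z3,
    z1,z3,z4,z3,y3]),(z1,[y3,y1,y3,z0,z0,z3]),(z1,[z3,z0,z0,y1])],.ref k12 k0 [(z2,[y3,z0,y6,y2,y3,z6]),(z2,[z3,z2,
    z12,z2,z3,y6]),(z4,[z3,z2,z6,z6,z3,y6]),(z1,[y3,y2,y6,y2,z0,z6]),(z1,[z3,z1,z3,z1,z0,y3])],.ref k12 k0 [(z1,[z6,
    z3,z6,z2,z0,y6]),(z1,[y6,y2,y3,y2,z0,z6]),(z1,[y3,y1,y3,z0,z0,z3]),(z1,[z12,z4,z12,z4,z3,y12]),(z1,[y12,y5,y15,y5,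
    y3,z15])],.ref k12 k0 [(z2,[y1,z1,y3,y1,y3,z3]),(z2,[z1,z1,z9,z1,z3,y3]),(z4,[z1,z1,z3,z5,z3,y3]),(z1,[y1,y1,y3,
    y1,z0,z3]),(z1,[z1])],.ref k12 k0 [(z7,[y6,z3,y12,y4,y12,z12]),(z7,[z6,z4,z33,z4,z12,y12]),(z7,[z3,z2,z6,z9,z6,
    y6]),(z7,[y12,y8,y24,y8,y3,z24]),(z7,[z12,z1,z3,z1,z3,y3])],.ref k12 k0 [(z1,[y3,z0,y3,y1,y3,z3]),(z1,[z3,z1,z6,
    z1,z3,y3]),(z2,[z3,z1,z3,z3,z3,y3]),(z1,[y6,y2,y6,y2,y3,z6]),(z1,[z6,z1,z3,z1,z3,y3])],.ref k12 k0 [(z1,[z2,z1]),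
    (z1,[y2,z0,z3]),(z1,[y1,z0,z0,z1]),(z1,[z4,z0,z0,z0,z3]),(z1,[y4,y1,y3,y1,y3,z3])]],
    .lp [k40,k38,k44,k34,k37,k46] [k3,k3,k4,k4,k1,k1,k6,k6,k9,k0,k0,k0] k0 [[k0,k0,k0,k0,k0,k0,k13],[k0,k0,k0,k2,k0,k0,k0,
    k0,k0,k1],[k2,k0,k0,k0,k0,k0,k1],[k0,k0,k0,k0,k0,k3,k0,k0,k0,k0,k0,k6],[k0,k0,k3,k0,k0,k0,k0,k0,k12],[k0,k0,k0,k0,
    k0,k0,k0,k2,k0,k0,k0,k1],[k0,k0,k0,k0,k2],[k0,k13,k0,k1],[k1,k0,k0,k0,k0,k0,k0,k0,k0,k0,k2],[k0,k0,k0,k0,k0,k12],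
    [k0,k0,k6,k0,k1],[k0,k0,k0,k0,k0,k0,k0,k0,k0,k2]] k120 k5
    [[(k8,k32),(k6,k37),(k0,k40),(k4,k43),(k10,k43),(k2,k45)],[(k9,k30),(k7,k37),(k3,k39),(k1,k40),(k5,k44),(k11,
    k44)],[(k8,k32),(k2,k36),(k0,k39),(k4,k41),(k10,k42),(k6,k49)],[(k3,k36),(k7,k39),(k5,k41),(k9,k41),(k11,k42),(k1,
    k45)],[(k8,k36),(k10,k39),(k6,k40),(k2,k41),(k4,k41),(k0,k44)],[(k11,k33),(k7,k39),(k3,k41),(k5,k41),(k1,k43),(k9,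
    k47)],[(k6,k32),(k0,k37),(k2,k39),(k4,k39),(k10,k39),(k8,k43)],[(k7,k32),(k1,k37),(k5,k40),(k9,k40),(k11,k40),(k3,
    k49)],[(k0,k30),(k8,k37),(k6,k40),(k2,k41),(k10,k46),(k4,k47)],[(k1,k32),(k3,k32),(k5,k36),(k9,k37),(k11,k37),(k7,
    k43)],[(k4,k33),(k8,k37),(k6,k40),(k2,k42),(k0,k44),(k10,k48)],[(k5,k39),(k7,k39),(k3,k42),(k1,k43),(k9,k46),(k11,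
    k48)]]
    [] k0
    [[k2,k0,k0,k1,k0,k0],[k2,k0,k0,k0,k1,k0],[k1,k1,k0,k0,k1,k0],[k1,k0,k1,k0,k1,k0],[k1,k1,k0,k1,k0,k0],[k1,k0,k0,k2,
    k0,k0],[k1,k0,k0,k1,k1,k0],[k1,k0,k0,k0,k2,k0],[k1,k0,k0,k0,k1,k1],[k0,k3,k0,k0,k0,k0],[k0,k2,k1,k0,k0,k0],[k0,k2,
    k0,k0,k1,k0],[k0,k1,k1,k0,k1,k0],[k0,k1,k0,k1,k1,k0],[k0,k1,k0,k0,k2,k0],[k0,k1,k1,k0,k0,k1],[k0,k0,k2,k0,k0,k1],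
    [k0,k0,k1,k2,k0,k0],[k0,k0,k1,k1,k0,k1],[k0,k0,k1,k1,k1,k0],[k0,k0,k1,k0,k1,k1],[k0,k0,k0,k3,k0,k0],[k0,k0,k0,k2,
    k1,k0],[k0,k0,k0,k2,k0,k1],[k0,k0,k0,k1,k1,k1],[k0,k0,k0,k0,k3,k0]]
    [.ref (nat_lit 385) k0 [(z1,[z2,y1,z2,z2,y2]),(z2,[z3,y3,z5,z3,y3]),(z1,[y1,z1,y1,z0,z1]),(z1,[y3,z2,y4,y4,z4])],
    .ref (nat_lit 320) k3 [(z3,[z1,y2,z3]),(z3,[y2,z4,z0,z9]),(z3,[y2,z1,y3,y3,z3]),(z3,[z1,y2])],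
    .ref (nat_lit 203) k2 [(z1,[y2,z1,z1,y1,z1]),(z1,[z0,z0,z0,z1]),(z1,[z1,y1]),(z1,[z0,z1])],
    .ref (nat_lit 320) k3 [(z1,[z1,y1,z1,y1]),(z1,[y2,z2,z0,z5]),(z1,[y2,z1,y1,z1,z1]),(z1,[z1,y1,z0,y1])],
    .ref (nat_lit 385) k0 [(z1,[z4,z1,z0,z4,y4]),(z1,[z3,z0,z1,z3,y3]),(z1,[y2,z0,z0,y1,z2]),(z1,[y6,y1,y1,y7,z7])],
    .ref k10 k11 [(z1,[z1,z2,y2,z2,y2]),(z4,[y3,y3,z2,y6,z6]),(z4,[z1,z1,y2,z2,y2]),(z1,[z0,y1,z1,y1,z1])],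
    .ref k128 k7 [(z1,[z2,y2,z0,y5]),(z1,[z0,z0,z0,z1]),(z1,[y2,z0,y2,y3,z2]),(z1,[z0,z1,z0,z2])],
    .ref (nat_lit 320) k3 [(z2,[z1,y1,z2]),(z1,[y1,z1,z0,z3]),(z1,[y1,z0,y1,y1,z1]),(z2,[z1,y1])],
    .ref (nat_lit 282) k2 [(z1,[y2,z1,y1,y1,z1]),(z1,[z0,z0,z0,z1]),(z1,[z1,y1,z1]),(z1,[z0,z1])],
    .ref (nat_lit 386) k7 [(z1,[y2,y3,z3,y3,z3]),(z1,[z0,z0,z0,z1]),(z1,[z2,z0,y6,y9]),(z1,[z0,z1,z0,z2])],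
    .ref k10 k11 [(z1,[y2,z1,z0,z2]),(z2,[z3,z0,y2,y3]),(z2,[y1,z0,z0,z1]),(z1,[z0,y1,z1,y1,z1])],.ref k104 k6 [(z1,
    [y2,z0,z0,z1]),(z1,[z0,y1,z1,y1,z1]),(z1,[z1]),(z1,[y3,z0,y1])],.ref k10 k11 [(z1,[y4,z1,z0,z4]),(z1,[z3,z0,y1,
    y3]),(z1,[y1,z0,z0,z1]),(z1,[z0,y1,z1,y1,z1])],.ref k10 k11 [(z1,[z4,z5,y4,z4,y4]),(z1,[y3,y3,z2,y3,z3]),(z1,[z1,
    z1,y1,z1,y1]),(z1,[z0,y1,z1,y1,z1])],.ref (nat_lit 282) k2 [(z1,[y2,y1,z1,y1,z1]),(z1,[z0,z0,z0,z1]),(z1,[z1]),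
    (z1,[z0,z1])],.ref k128 k7 [(z1,[y2,y2,z0,y5,z2]),(z1,[z0,z0,z0,z1]),(z1,[z2,z0,y2,y3]),(z1,[z0,z1,z0,z2])],
    .ref (nat_lit 387) k7 [(z1,[y2,y1,y1,y4,z1]),(z1,[z0,z0,z0,z1]),(z1,[z1]),(z1,[z0,z1,z0,z2])],.ref k104 k6 [(z1,
    [z1,z2,y2,z2,y2]),(z1,[z0,y1,z1,y1,z1]),(z2,[y1,y2,z2,y1,z2]),(z2,[z3,z6,y8,z3,y6])],.ref (nat_lit 203) k2 [(z1,
    [z2,z1,z1,y1,y1]),(z1,[z0,z0,z0,z1]),(z1,[y1,y1,z0,z0,z1]),(z1,[z0,z1])],.ref k104 k6 [(z1,[z2,z2,y2,z1,y2]),(z1,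
    [z0,y1,z1,y1,z1]),(z1,[y1,y1,z1,z0,z1]),(z1,[z3,z3,y4,z0,y3])],.ref (nat_lit 385) k0 [(z1,[y4,z1,z0,z4]),(z1,[y3,
    z0,z1,z3]),(z1,[z2,z0,z0,y1]),(z1,[z6,y1,y1,y7,z1])],.ref (nat_lit 386) k7 [(z1,[z1]),(z1,[z0,z0,z0,z1]),(z1,[y1,
    y3,y3,y12,z3]),(z1,[z0,z1,z0,z2])],.ref (nat_lit 388) k11 [(z1,[z4,z9,y8,z8,y8]),(z1,[y3,y6,z5,y6,z6]),(z1,[z1,z2,
    y2,z2,y2]),(z1,[z0,y1,z1,y1,z1])],.ref (nat_lit 389) k6 [(z1,[z2,z4,y2,z7,y4]),(z1,[z0,y1,z1,y1,z1]),(z1,[y1,y2,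
    z1,y2,z2]),(z1,[z1,z2,y2,z2,y2])],.ref (nat_lit 282) k2 [(z1,[z2,z1,z1,z1,y1]),(z1,[z0,z0,z0,z1]),(z1,[y1,y1,z0,
    y1,z1]),(z1,[z0,z1])],.ref (nat_lit 320) k3 [(z1,[z1,z0,z1]),(z1,[y2,z0,z0,z3]),(z1,[y2,y1,y1,y1,z1]),(z1,[z1])]],
    .lp [k168,k170,k154,k164,k140,k162] [k1,k1,k0,k0,k8,k8,k3,k3,k15,k15,k4,k4] k0 [[k0,k0,k0,k0,k0,k0,k0,k0,k4,k0,k8],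
    [k0,k0,k0,k0,k0,k0,k0,k8],[k0,k0,k0,k0,k8,k0,k0,k0,k0,k0,k10],[k0,k0,k0,k0,k0,k0,k0,k0,k0,k4],[k0,k0,k0,k0,k0,k0,
    k12],[k0,k0,k0,k8],[k8],[k0,k0,k0,k0,k0,k12],[k0,k0,k4],[k0,k4,k0,k0,k0,k0,k0,k0,k0,k0,k0,k8],[k0,k0,k0,k0,k0,k0,
    k0,k0,k8],[k0,k8,k0,k10]] (nat_lit 480) k5
    [[(k2,k159),(k0,k160),(k4,k161),(k8,k162),(k10,k165),(k6,k166)],[(k1,k160),(k5,k161),(k11,k161),(k9,k162),(k7,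
    k166),(k3,k169)],[(k6,k159),(k8,k159),(k4,k162),(k0,k169),(k2,k170),(k10,k174)],[(k9,k155),(k1,k159),(k7,k159),
    (k5,k162),(k3,k170),(k11,k170)],[(k8,k143),(k6,k159),(k0,k161),(k2,k162),(k4,k162),(k10,k168)],[(k9,k135),(k11,
    k158),(k7,k159),(k1,k161),(k3,k162),(k5,k162)],[(k8,k152),(k2,k159),(k4,k159),(k10,k163),(k0,k166),(k6,k176)],
    [(k9,k152),(k3,k159),(k5,k159),(k11,k163),(k1,k166),(k7,k176)],[(k4,k135),(k8,k140),(k10,k151),(k6,k152),(k2,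
    k155),(k0,k162)],[(k9,k140),(k5,k143),(k11,k151),(k7,k152),(k3,k159),(k1,k162)],[(k8,k151),(k10,k154),(k4,k158),
    (k0,k161),(k6,k163),(k2,k170)],[(k9,k151),(k11,k154),(k7,k163),(k1,k165),(k5,k168),(k3,k174)]]
    [] k0
    [[k1,k0,k1,k0,k1,k0],[k1,k0,k0,k0,k2,k0],[k1,k0,k0,k0,k1,k1],[k0,k1,k1,k0,k1,k0],[k0,k1,k0,k1,k1,k0],[k0,k1,k0,k0,
    k2,k0],[k0,k0,k2,k0,k1,k0],[k0,k0,k1,k1,k1,k0],[k0,k0,k1,k0,k2,k0],[k0,k0,k1,k0,k1,k1],[k0,k0,k0,k1,k2,k0],[k0,k0,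
    k0,k1,k1,k1],[k0,k0,k0,k0,k3,k0],[k0,k0,k0,k0,k2,k1],[k0,k0,k0,k0,k1,k2],[k0,k0,k0,k0,k0,k3]]
    [.ref k12 k0 [(z1,[y2,z3,y2,z0,y2,z2]),(z2,[y7,z0,y1,z0,y7,z7]),(z1,[z1,z0,z1,z3,z1,y1]),(z1,[z1,z0,z1,z0,z4,y1]),
    (z1,[z4,y3,z1,y3,z1,y1])],.ref k12 k0 [(z1,[y1,z2,y2,y2,y2,z2]),(z4,[y7,y7,y2,y14,y14,z14]),(z2,[z1,z1,z2,z8,z2,
    y2]),(z2,[z1,z1,z2,z2,z8,y2]),(z1,[z2,y1,z1,z1,z1,y1])],.ref k12 k0 [(z1,[y4,z3,y4,y4,y4,z4]),(z1,[y7,z0,y4,y7,y7,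
    z7]),(z1,[z2,z0,z2,z5,z2,y2]),(z1,[z2,z0,z2,z2,z5,y2]),(z1,[z8,y3,z5,z5,z5,y5])],.ref k12 k0 [(z1,[y4,y1,z0,z0,y4,
    z4]),(z1,[y7,y7,z3,z0,y7,z7]),(z1,[z2,z2,z0,z3,z2,y2]),(z1,[z2,z2,z0,z0,z5,y2]),(z1,[z8,z5,y3,y3,z5,y5])],
    .ref k12 k0 [(z1,[y4,y1,z0,y4,z0,z4]),(z1,[y7,y7,z3,y7,z0,z7]),(z1,[z2,z2,z0,z5,z0,y2]),(z1,[z2,z2,z0,z2,z3,y2]),
    (z1,[z8,z5,y3,z5,y3,y5])],.ref k12 k0 [(z3,[y4,z1,y4,y8,y8,z8]),(z3,[y7,y14,z2,y14,y14,z14]),(z3,[z2,z4,z2,z13,z4,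
    y4]),(z3,[z2,z4,z2,z4,z13,y4]),(z3,[z8,z7,y1,z7,z7,y7])],.ref k12 k0 [(z1,[y1,z2,y1,z1,y1,z1]),(z4,[y7,y7,z5,z7,
    y7,z7]),(z2,[z1,z1,z1,z5,z1,y1]),(z2,[z1,z1,z1,y1,z7,y1]),(z1,[z2,y1,y1,y5,y1,z1])],.ref k12 k0 [(z1,[y1,z2,y1,z0,
    z0,z1]),(z4,[y7,y7,z5,z0,z0,z7]),(z2,[z1,z1,z1,z6,z0,y1]),(z2,[z1,z1,z1,z0,z6,y1]),(z1,[z2,y1,y1,y3,y3,z1])],
    .ref k12 k0 [(z3,[y2,z5,y4,y2,y4,z4]),(z6,[y7,y14,z4,y7,y14,z14]),(z3,[z1,z2,z2,z10,z2,y2]),(z3,[z1,z2,z2,z1,z11,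
    y2]),(z3,[z4,y1,y1,y5,y1,z1])],.ref k12 k0 [(z3,[y4,z5,y4,z0,y4,z4]),(z3,[y7,y7,z2,z0,y7,z7]),(z3,[z2,z2,z2,z9,z2,
    y2]),(z3,[z2,z2,z2,z0,z11,y2]),(z3,[z8,y1,y1,y9,y1,z1])],.ref k12 k0 [(z3,[y2,z5,y4,y4,y2,z4]),(z6,[y7,y14,z4,y14,
    y7,z14]),(z3,[z1,z2,z2,z11,z1,y2]),(z3,[z1,z2,z2,z2,z10,y2]),(z3,[z4,y1,y1,y1,y5,z1])],.ref k12 k0 [(z3,[y4,z5,y4,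
    y4,z0,z4]),(z3,[y7,y7,z2,y7,z0,z7]),(z3,[z2,z2,z2,z11,z0,y2]),(z3,[z2,z2,z2,z2,z9,y2]),(z3,[z8,y1,y1,y1,y9,z1])],
    .ref k12 k0 [(z2,[y1,z3,y3,y3,y3,z3]),(z8,[y7,y21,z3,y21,y21,z21]),(z4,[z1,z3,z3,z15,z3,y3]),(z4,[z1,z3,z3,z3,z15,
    y3]),(z1,[z1])],.ref k12 k0 [(z5,[y4,z7,y8,y8,y8,z8]),(z5,[y7,y14,z1,y14,y14,z14]),(z5,[z2,z4,z4,z19,z4,y4]),(z5,
    [z2,z4,z4,z4,z19,y4]),(z5,[z8,z1,z1,z1,z1,y1])],.ref k12 k0 [(z1,[y2,z1,y2,y2,y2,z2]),(z2,[y7,y7,y1,y7,y7,z7]),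
    (z1,[z1,z1,z1,z4,z1,y1]),(z1,[z1,z1,z1,z1,z4,y1]),(z1,[z4,z1,z1,z1,z1,y1])],.ref k12 k0 [(z1,[z4,z3]),(z1,[z7,z0,
    z3]),(z1,[y2,z0,z0,z3]),(z1,[y2,z0,z0,z0,z3]),(z1,[y8,y3,y3,y3,y3,z3])]],
    .leafM k0 [k1,k2,k3,k4,k5,k0] [(z1,[y1,y1,z0,z0,z1])] [],
    .lp [k166,k164,k164,k152,k148,k164] [k0,k0,k1,k1,k1,k1,k7,k7,k9,k9,k1,k1] k0 [[k0,k0,k0,k0,k0,k0,k0,k0,k4,k0,k4],[],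
    [],[],[k0,k0,k0,k0,k0,k0,k0,k0,k0,k0,k2],[k0,k0,k0,k0,k0,k0,k0,k22,k0,k4],[k0,k0,k0,k0,k22],[k0,k0,k0,k0,k0,k0,k0,
    k0,k0,k2],[k0,k0,k0,k0,k4,k0,k2],[k0,k4,k0,k0,k0,k0,k0,k0,k0,k0,k0,k4],[k0,k0,k0,k0,k0,k0,k0,k0,k4],[k0,k4,k0,k0,
    k0,k2]] (nat_lit 480) k5
    [[(k6,k159),(k8,k161),(k0,k162),(k4,k163),(k2,k165),(k10,k165)],[(k9,k157),(k7,k159),(k11,k161),(k1,k162),(k3,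
    k165),(k5,k165)],[(k6,k158),(k8,k160),(k2,k164),(k4,k164),(k0,k165),(k10,k168)],[(k9,k156),(k7,k158),(k3,k164),
    (k5,k164),(k11,k164),(k1,k165)],[(k8,k156),(k6,k158),(k2,k164),(k4,k164),(k10,k164),(k0,k165)],[(k7,k158),(k1,
    k163),(k3,k164),(k5,k164),(k11,k168),(k9,k178)],[(k6,k130),(k8,k146),(k2,k158),(k4,k158),(k0,k159),(k10,k160)],
    [(k7,k130),(k9,k150),(k3,k158),(k5,k158),(k1,k159),(k11,k160)],[(k8,k146),(k6,k150),(k2,k156),(k10,k156),(k0,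
    k157),(k4,k178)],[(k7,k146),(k9,k146),(k5,k156),(k11,k156),(k3,k160),(k1,k161)],[(k8,k156),(k6,k160),(k10,k160),
    (k0,k161),(k2,k164),(k4,k168)],[(k9,k156),(k7,k160),(k11,k160),(k5,k164),(k1,k165),(k3,k168)]]
    [] k0
    [[k1,k0,k1,k0,k1,k0],[k1,k0,k0,k2,k0,k0],[k1,k0,k0,k1,k1,k0],[k1,k0,k0,k0,k2,k0],[k1,k0,k0,k0,k1,k1],[k0,k1,k1,k0,
    k1,k0],[k0,k1,k0,k2,k0,k0],[k0,k1,k0,k1,k1,k0],[k0,k1,k0,k0,k2,k0],[k0,k0,k1,k2,k0,k0],[k0,k0,k1,k1,k1,k0],[k0,k0,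
    k0,k3,k0,k0],[k0,k0,k0,k2,k1,k0],[k0,k0,k0,k2,k0,k1],[k0,k0,k0,k1,k2,k0],[k0,k0,k0,k1,k1,k1],[k0,k0,k0,k0,k3,k0],
    [k0,k0,k0,k0,k2,k1],[k0,k0,k0,k0,k1,k2]]
    [.ref k12 k0 [(z1,[z4,y1,z0,y4]),(z1,[z0,z0,z1]),(z1,[y2,z2,z0,z5]),(z1,[y3,z3,z0,z3,z1]),(z1,[z1,y1,z0,y1])],
    .ref k12 k0 [(z1,[y6,z9,z0,z0,z4]),(z1,[z0,z0,z1]),(z1,[z3,y3,z0,z3,y2]),(z2,[z9,y9,z0,z0,y4]),(z2,[y3,z3,z0,z0,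
    z2])],.ref k12 k0 [(z1,[z6,y3,z0,z0,y2]),(z1,[z0,z0,z1]),(z1,[y3,z3,z0,z3,z1]),(z2,[y9,z9,z0,z0,z5]),(z2,[z3,y3,
    z0,z0,y1])],.ref k12 k0 [(z1,[z2,z1]),(z1,[z0,z0,z1]),(z1,[y1,z1,z0,z3]),(z2,[y3,z3,z0,z0,z2]),(z2,[z1,y1])],
    .ref k12 k0 [(z5,[z12,z15,z4,z12,z4,y12]),(z1,[z0,z0,z1]),(z5,[y6,z0,y2,z9,y2,z6]),(z5,[y9,z0,y3,y9,z2,z9]),(z5,
    [z3,z0,z1,z3,z1,y3])],.ref k12 k0 [(z1,[y12,z3,z4,z12]),(z1,[z0,z0,z1]),(z1,[z6,z0,y2,y3]),(z1,[z9,z0,y3,y9,z1]),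
    (z1,[y3,z0,z1,z3])],.ref k12 k0 [(z3,[y6,z9,z2,z0,z4]),(z1,[z0,z0,z1]),(z3,[z3,z0,y1,z9,y2]),(z2,[z3,z0,y1]),(z6,
    [y3,z0,z1,z0,z2])],.ref k12 k0 [(z1,[y6,z3,z2,z0,z2]),(z1,[z0,z0,z1]),(z1,[z3,z0,y1,z3,y1]),(z2,[z9,z0,y3,z0,y1]),
    (z2,[y3,z0,z1,z0,z1])],.ref k12 k0 [(z1,[z6,z3,y2]),(z1,[z0,z0,z1]),(z1,[y3,z0,z1,z3]),(z2,[y9,z0,z3,z0,z2]),(z2,
    [z3,z0,y1])],.ref k12 k0 [(z2,[y3,z6,z0,z3,z2]),(z1,[z0,z0,z1]),(z4,[z3,z0,z0,z9,y2]),(z8,[z9,z0,z0,y9,z2]),(z8,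
    [y3,z0,z0,z3,z2])],.ref k12 k0 [(z1,[y3,z3,z0,z3,z1]),(z1,[z0,z0,z1]),(z2,[z3,z0,z0,z3,y1]),(z4,[z9,z0,z0,y9,z1]),
    (z4,[y3,z0,z0,z3,z1])],.ref k12 k0 [(z3,[y4,z9,z0,z0,z4]),(z1,[z0,z0,z1]),(z3,[z2,z0,z0,z9,y2]),(z1,[z1]),(z3,[y1,
    z0,z0,z0,z1])],.ref k12 k0 [(z5,[y12,z15,z0,z0,z8]),(z1,[z0,z0,z1]),(z5,[z6,z0,z0,z15,y4]),(z5,[z9,z0,z0,z0,y1]),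
    (z5,[y3,z0,z0,z0,z2])],.ref k12 k0 [(z3,[y6,z3,y2,y6,z2,z6]),(z1,[z0,z0,z1]),(z3,[z3,z3,z1,z12,y1,y3]),(z2,[z3,z3,
    z1,z3,z1,y3]),(z6,[y3,y3,y1,y3,z1,z3])],.ref k12 k0 [(z1,[y12,z3,z0,z0,z4]),(z1,[z0,z0,z1]),(z1,[z6,z0,z0,z3,y2]),
    (z1,[z9,z0,z0,z0,y2]),(z1,[y3,z0,z0,z0,z1])],.ref k12 k0 [(z1,[y6,y3,y2,y6,z0,z6]),(z1,[z0,z0,z1]),(z1,[z3,z3,z1,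
    z6,z0,y3]),(z2,[z9,z9,z3,z9,z2,y9]),(z2,[y3,y3,y1,y3,z0,z3])],.ref k12 k0 [(z1,[z4,z3]),(z1,[z0,z0,z1]),(z1,[y2,
    z0,z0,z3]),(z1,[y3,z0,z0,z0,z1]),(z1,[z1])],.ref k12 k0 [(z1,[z6,z9,z2,z6,z2,y6]),(z1,[z0,z0,z1]),(z1,[y3,y3,y1,
    z0,y1,z3]),(z2,[y9,y9,y3,y9,y1,z9]),(z2,[z3,z3,z1,z3,z1,y3])],.ref k12 k0 [(z1,[z12,z27,z8,z24,z8,y24]),(z1,[z0,
    z0,z1]),(z1,[y6,y12,y4,y9,y4,z12]),(z1,[y9,y18,y6,y18,y5,z18]),(z1,[z3,z6,z2,z6,z2,y6])]]]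

/-- the nodes with numbers from 359 -/
noncomputable def cT6_3_n8 : List TN :=
  cT6_3_n8_0 ++ (cT6_3_n8_1 ++ cT6_3_n8_2)

theorem cT6_3_k8 : allI (chkT 6 cT6_3_w tt6 cT6_3_s (blkF [] cT6_3_D)) cT6_3_n8 359 = true := by
  decide +kernel

end Pool.Agent.Lib_MP_fa6e45
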