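import Pool.Agent.Lib_MP_fa6e45.CG6_2d

/-!
MP_fa6e45_co, stage 5: certificates (captain, generated by a program).
-/

namespace Pool.Agent.Lib_MP_fa6e45

noncomputable def cT6_3_n9_0 : List TN :=
  [.lp [(nat_lit 332),(nat_lit 332),(nat_lit 332),(nat_lit 296),(nat_lit 284),(nat_lit 342)] [k5,k5,k5,k5,k5,k5,k23,k23,
    k29,k29,k0,k0] k0 [[k0,k0,k0,k0,k0,k0,k0,k0,k0,k0,k2],[k0,k0,k0,k12],[k12],[k0,k0,k0,k0,k0,k0,k0,k0,k0,k4],[k0,k0,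
    k0,k0,k0,k0,k0,k0,k0,k0,k46],[k0,k0,k0,k0,k0,k0,k0,k16,k0,k8],[k0,k0,k0,k0,k16,k0,k0,k0,k4],[k0,k0,k0,k0,k0,k0,k0,
    k0,k0,k0,k0,k2],[k0,k0,k4,k0,k8],[k0,k0,k0,k0,k0,k0,k0,k4,k0,k0,k0,k56],[k0,k0,k0,k0,k0,k0,k2,k0,k56],[k0,k2,k0,
    k0,k0,k46]] (nat_lit 960) k5
    [[(k4,(nat_lit 286)),(k6,(nat_lit 316)),(k0,(nat_lit 330)),(k2,(nat_lit 332)),(k10,(nat_lit 337)),(k8,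
    (nat_lit 364))],[(k9,(nat_lit 308)),(k7,(nat_lit 314)),(k1,(nat_lit 330)),(k3,(nat_lit 332)),(k11,(nat_lit 337)),
    (k5,(nat_lit 344))],[(k8,(nat_lit 308)),(k6,(nat_lit 314)),(k2,(nat_lit 320)),(k0,(nat_lit 332)),(k4,
    (nat_lit 332)),(k10,(nat_lit 339))],[(k9,(nat_lit 308)),(k7,(nat_lit 314)),(k3,(nat_lit 320)),(k1,(nat_lit 332)),
    (k5,(nat_lit 332)),(k11,(nat_lit 341))],[(k8,(nat_lit 304)),(k6,(nat_lit 314)),(k2,(nat_lit 332)),(k4,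
    (nat_lit 332)),(k10,(nat_lit 337)),(k0,(nat_lit 344))],[(k1,(nat_lit 286)),(k7,(nat_lit 314)),(k9,(nat_lit 324)),
    (k3,(nat_lit 332)),(k5,(nat_lit 332)),(k11,(nat_lit 345))],[(k6,(nat_lit 280)),(k8,(nat_lit 282)),(k0,
    (nat_lit 314)),(k2,(nat_lit 314)),(k4,(nat_lit 314)),(k10,(nat_lit 365))],[(k7,(nat_lit 280)),(k9,(nat_lit 290)),
    (k3,(nat_lit 314)),(k5,(nat_lit 314)),(k11,(nat_lit 315)),(k1,(nat_lit 316))],[(k8,(nat_lit 288)),(k6,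
    (nat_lit 290)),(k0,(nat_lit 308)),(k2,(nat_lit 308)),(k10,(nat_lit 311)),(k4,(nat_lit 324))],[(k7,(nat_lit 282)),
    (k9,(nat_lit 288)),(k5,(nat_lit 304)),(k3,(nat_lit 308)),(k11,(nat_lit 313)),(k1,(nat_lit 364))],[(k10,
    (nat_lit 286)),(k8,(nat_lit 313)),(k6,(nat_lit 315)),(k0,(nat_lit 337)),(k2,(nat_lit 341)),(k4,(nat_lit 345))],
    [(k11,(nat_lit 286)),(k9,(nat_lit 311)),(k1,(nat_lit 337)),(k5,(nat_lit 337)),(k3,(nat_lit 339)),(k7,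
    (nat_lit 365))]]
    [] k0
    [[k1,k1,k0,k0,k1,k0],[k1,k1,k1,k0,k0,k0],[k1,k0,k1,k1,k0,k0],[k1,k0,k1,k0,k1,k0],[k1,k0,k0,k2,k0,k0],[k1,k0,k0,k1,
    k1,k0],[k1,k0,k0,k0,k1,k1],[k0,k2,k0,k1,k0,k0],[k0,k2,k0,k0,k1,k0],[k0,k1,k1,k0,k1,k0],[k0,k1,k0,k2,k0,k0],[k0,k1,
    k0,k1,k1,k0],[k0,k1,k0,k0,k2,k0],[k0,k0,k1,k2,k0,k0],[k0,k0,k1,k1,k1,k0],[k0,k0,k1,k0,k2,k0],[k0,k0,k0,k3,k0,k0],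
    [k0,k0,k0,k2,k1,k0],[k0,k0,k0,k1,k2,k0],[k0,k0,k0,k1,k1,k1],[k0,k0,k0,k0,k3,k0],[k0,k0,k0,k0,k2,k1],[k0,k0,k0,k0,
    k1,k2],[k0,k0,k0,k0,k0,k3]]
    [.ref k12 k0 [(z1,[y6,z1,z0,y1,y3,z6]),(z1,[z6,z0,z3,z1,z3,y6]),(z4,[y6,z0,z0,z1,y3,z6]),(z4,[z6,z0,z0,z1,z9,y6]),
    (z1,[z3,y1,y3])],.ref k12 k0 [(z1,[z12,y3,y12,y2]),(z1,[y12,z4,z15,z2]),(z1,[z3,y1,y3]),(z2,[y6,z2,z6,z1,z3]),(z2,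
    [y12,z2,z6,z1,y3,z6])],.ref k12 k0 [(z2,[z6,z0,z0,y1,y3]),(z2,[y6,z2,z6,z1,z3]),(z8,[z6,y2,z0,z3,y3]),(z8,[y6,z2,
    z0,z1,z15]),(z4,[y6,y2,y12,y1,y3,z12])],.ref k12 k0 [(z1,[z4,z1,z4,z0,z2,y4]),(z1,[y4,z0,y1,z0,y2,z4]),(z2,[z2,z0,
    z2,z1,z1,y2]),(z1,[y1,z0,y1,z0,z1,z1]),(z2,[y4,y2,y10,y1,y5,z10])],.ref k12 k0 [(z1,[z6,y1,z0,z0,y6]),(z1,[y6,z2,
    z3,z0,z6]),(z2,[z3,y1,z0,z1,y3]),(z2,[y3,z1,z0,z0,z6]),(z2,[y6,z0,y6,y1,z3,z6])],.ref k12 k0 [(z1,[z12,z1,z12,z2,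
    z0,y12]),(z1,[y12,z0,y9,y2,z0,z12]),(z1,[z3,z0,z3,z1,z0,y3]),(z2,[y6,z0,y6,y1,z3,z6]),(z2,[y12,y2,y18,y3,y3,
    z18])],.ref k12 k0 [(z2,[z6,z2,z6,z1,z3,y6]),(z2,[y6,z0,z0,y1,y3,z6]),(z8,[z6,z0,z6,z5,z3,y6]),(z8,[y6,z0,y6,y1,
    z9,z6]),(z4,[y6,y4,y18,y3,y9,z18])],.ref k12 k0 [(z3,[y4,z3,z8,z0,z2]),(z3,[z4,z0,z1,z0,y2]),(z6,[y2,z0,z4,z3,
    z1]),(z3,[z1,z0,y2,z0,z4]),(z6,[z4,y6,y26,y3,y11,z18])],.ref k12 k0 [(z5,[y6,z3,z6,y1,y3,z6]),(z5,[z6,z2,z9,z1,z3,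
    y6]),(z20,[y6,y2,z6,z9,y3,z6]),(z20,[z6,z2,y6,z1,z33,y6]),(z5,[z3,y4,y18,y2,y6,z12])],.ref k12 k0 [(z5,[y12,z1,z0,
    z0,y6,z12]),(z5,[z12,z4,z15,z0,z6,y12]),(z10,[y6,y2,z0,z5,y3,z6]),(z5,[z3,z1,z0,z0,z9,y3]),(z10,[z12,y6,y30,y5,y9,
    z18])],.ref k12 k0 [(z1,[y2,z1,z2,z0,z2]),(z1,[z2,z0,z1,z0,y2]),(z2,[y1,z0,z1,z1,z1]),(z2,[z1,z0,y1,z0,z2]),(z2,
    [z2,y2,y8,y1,y5,z6])],.ref k12 k0 [(z7,[y12,z3,z0,y2,z0,z12]),(z7,[z12,z4,z21,z2,z0,y12]),(z7,[y3,y1,z0,z3,z0,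
    z3]),(z14,[z6,z2,z0,z1,z21,y6]),(z14,[z12,y10,y42,y5,y21,z30])],.ref k12 k0 [(z2,[y3,z0,y3,y1,y3,z6]),(z2,[z3,z2,
    z9,z1,z3,y6]),(z8,[y3,y2,y3,z3,y3,z6]),(z8,[z3,z2,z3,z1,z15,y6]),(z4,[z3,y2,y9,y1,y3,z6])],.ref k12 k0 [(z1,[y12,
    z1,z0,z2,z12]),(z1,[z12,z0,z3,y2,y12]),(z1,[y3,z0,z0,z1,z3]),(z2,[z6,z0,z0,y1,y3]),(z2,[z12,y2,y6,y3,y15,z6])],
    .ref k12 k0 [(z1,[y6,y1,y6,z0,z0,z6]),(z1,[z6,z2,z9,z0,z0,y6]),(z2,[y3,y1,y3,z1,z0,z3]),(z2,[z3,z1,z3,z0,z3,y3]),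
    (z2,[z6,z0,z0,y1,y3])],.ref k12 k0 [(z3,[y12,y5,y24,y2,y12,z24]),(z3,[z12,z8,z33,z2,z12,y24]),(z3,[y3,y2,y6,z1,y3,
    z6]),(z6,[z6,z4,z12,z1,z15,y12]),(z6,[z12,z2,z6,y1,z3,y6])],.ref k12 k0 [(z1,[y4,z1,z0,z0,z6]),(z1,[z4,z0,z3,z0,
    y6]),(z2,[y2,z0,z0,z1,z3]),(z1,[z1]),(z2,[z4,y2,y6,y1,y9,z6])],.ref k12 k0 [(z2,[y6,z0,y6,y1,z3,z6]),(z2,[z6,z2,
    z12,z1,y3,y6]),(z8,[y6,y2,y6,z3,z3,z6]),(z8,[z6,z2,z6,z1,z9,y6]),(z4,[z6,y2,y6,y1,y9,z6])],.ref k12 k0 [(z5,[y12,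
    y3,y24,y4,y6,z24]),(z5,[z12,z8,z39,z4,z6,y24]),(z10,[y6,y4,y12,z3,y3,z12]),(z5,[z3,z2,z6,z1,z9,y6]),(z10,[z12,y2,
    y6,y1,y9,z6])],.ref k12 k0 [(z1,[y12,y3,y12,y2,z0,z12]),(z1,[z12,z4,z15,z2,z0,y12]),(z1,[y3,y1,y3,z0,z0,z3]),(z2,
    [z6,z2,z6,z1,z3,y6]),(z2,[z12,z2,z6,z1,y3,y6])],.ref k12 k0 [(z1,[y2,y1,y6,y1,y3,z6]),(z1,[z2,z2,z9,z1,z3,y6]),
    (z4,[y2,y2,y6,z1,y3,z6]),(z4,[z2,z2,z6,z1,z9,y6]),(z1,[z1])],.ref k12 k0 [(z1,[y6,y3,y12,y2,y6,z12]),(z1,[z6,z4,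
    z15,z2,z6,y12]),(z2,[y3,y2,y6,z0,y3,z6]),(z2,[z3,z2,z6,z1,z6,y6]),(z2,[z6,z2,z6,z1,z3,y6])],.ref k12 k0 [(z1,[z6,
    z3,z6,z1,z3,y6]),(z1,[y6,y2,y3,y1,y3,z6]),(z4,[z6,z2,z6,z3,z3,y6]),(z4,[y6,y2,y6,y1,z3,z6]),(z1,[y3,y2,y6,y1,y3,
    z6])],.ref k12 k0 [(z1,[z2,z1]),(z1,[y2,z0,z3]),(z2,[z1,z0,z0,z1]),(z2,[y1,z0,z0,z0,z3]),(z2,[y2,y2,y6,y1,y3,
    z6])]],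
    .lp [k162,k172,k170,k150,k152,k152] [k5,k5,k0,k0,k1,k1,k11,k11,k10,k10,k10,k10] k0 [[k0,k0,k0,k0,k0,k0,k0,k0,k0,k0,
    k2],[k0,k0,k0,k22],[k22,k0,k0,k0,k4],[k0,k0,k0,k0,k0,k0,k0,k8,k0,k4],[k0,k0,k0,k0,k0,k0,k12,k0,k16],[k0,k0,k0,k4,
    k0,k0,k0,k0,k0,k0,k0,k6],[k0,k0,k8,k0,k0,k0,k0,k0,k28],[k0,k0,k0,k0,k0,k12],[k0,k0,k4,k0,k0,k0,k0,k0,k0,k0,k14],
    [k0,k0,k0,k0,k0,k16,k0,k28],[k0,k0,k0,k0,k6],[k0,k2,k0,k0,k0,k0,k0,k0,k0,k14]] (nat_lit 480) k5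
    [[(k8,k143),(k6,k156),(k10,k157),(k0,k160),(k2,k167),(k4,k172)],[(k7,k156),(k9,k157),(k11,k157),(k1,k160),(k3,
    k167),(k5,k188)],[(k2,k150),(k6,k161),(k8,k162),(k10,k164),(k0,k167),(k4,k171)],[(k3,k150),(k7,k157),(k11,k166),
    (k1,k167),(k9,k170),(k5,k171)],[(k6,k152),(k8,k157),(k10,k161),(k2,k171),(k4,k174),(k0,k188)],[(k11,k145),(k9,
    k149),(k7,k160),(k3,k171),(k1,k172),(k5,k174)],[(k10,k145),(k0,k156),(k2,k157),(k4,k160),(k6,k162),(k8,k167)],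
    [(k11,k123),(k9,k151),(k5,k152),(k1,k156),(k3,k161),(k7,k162)],[(k4,k149),(k6,k151),(k10,k152),(k0,k157),(k2,
    k170),(k8,k180)],[(k1,k143),(k11,k152),(k5,k157),(k3,k162),(k7,k167),(k9,k180)],[(k6,k123),(k4,k145),(k8,k152),
    (k0,k157),(k2,k166),(k10,k166)],[(k7,k145),(k9,k152),(k1,k157),(k5,k161),(k3,k164),(k11,k166)]]
    [] k0
    [[k2,k0,k0,k1,k0,k0],[k2,k0,k0,k0,k1,k0],[k2,k0,k0,k0,k0,k1],[k1,k0,k0,k2,k0,k0],[k1,k0,k0,k1,k0,k1],[k1,k0,k0,k1,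
    k1,k0],[k1,k0,k0,k0,k1,k1],[k0,k3,k0,k0,k0,k0],[k0,k2,k0,k1,k0,k0],[k0,k1,k0,k1,k0,k1],[k0,k1,k0,k1,k1,k0],[k0,k0,
    k1,k2,k0,k0],[k0,k0,k1,k1,k1,k0],[k0,k0,k1,k1,k0,k1],[k0,k0,k1,k0,k1,k1],[k0,k0,k1,k0,k0,k2],[k0,k0,k0,k2,k0,k1],
    [k0,k0,k0,k1,k1,k1],[k0,k0,k0,k1,k0,k2],[k0,k0,k0,k0,k1,k2]]
    [.ref k12 k0 [(z2,[z3,z0,z0,z0,y1]),(z4,[y9,z2,z12,z0,z3]),(z24,[z9,y2,z0,z8,y3]),(z1,[z0,z0,z0,z0,z1]),(z12,[y9,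
    y2,y36,y4,y9,z36])],.ref k12 k0 [(z9,[z18,z1,z18,z2,z6,y18]),(z3,[y9,z1,z0,y1,y3,z9]),(z18,[z9,y1,z9,z7,z3,y9]),
    (z1,[z0,z0,z0,z0,z1]),(z9,[y9,y2,y36,y4,y12,z36])],.ref k12 k0 [(z11,[z12,z1]),(z11,[y18,z4,z33]),(z33,[z9,y2,z0,
    z11]),(z1,[z0,z0,z0,z0,z1]),(z33,[y18,y7,y99,y11,y33,z99])],.ref k12 k0 [(z1,[z3,z0,z0,z0,y2]),(z2,[y9,z1,z6,z0,
    z6]),(z12,[z9,y1,z0,z4,y6]),(z1,[z0,z0,z0,z0,z1]),(z6,[y9,y1,y18,y2,z0,z18])],.ref k12 k0 [(z7,[z12,z1,z0,z0,y4]),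
    (z7,[y18,z2,z21,z0,z6]),(z21,[z9,y1,z0,z7,y3]),(z1,[z0,z0,z0,z0,z1]),(z21,[y18,y5,y63,y7,y15,z63])],
    .ref k12 k0 [(z3,[z18,z1,z18,z2,z0,y18]),(z1,[y9,z0,y6,y1,z0,z9]),(z2,[z3,z0,z3,z1,z0,y3]),(z1,[z0,z0,z0,z0,z1]),
    (z3,[y9,y1,y18,y2,y3,z18])],.ref k12 k0 [(z15,[z36,z5,z36,z4,z12,y36]),(z5,[y18,z0,y3,y2,y6,z18]),(z5,[z3,z0,z3,
    z2,z1,y3]),(z1,[z0,z0,z0,z0,z1]),(z15,[y18,y5,y63,y7,y21,z63])],.ref k12 k0 [(z3,[y2,z1,z6]),(z1,[z1]),(z6,[y1,z0,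
    z3,z2]),(z1,[z0,z0,z0,z0,z1]),(z3,[z1,y1,y12,y1,y3,z9])],.ref k12 k0 [(z3,[y3,z1,z6,z0,z1]),(z2,[z3,z0,z0,z0,y1]),
    (z12,[y3,z0,z6,z4,z1]),(z1,[z0,z0,z0,z0,z1]),(z6,[z3,y2,y24,y2,y7,z18])],.ref k12 k0 [(z3,[y12,z1,z12,z0,z4]),(z1,
    [z6,z0,y3,z0,y2]),(z3,[y3,z0,z3,z1,z1]),(z1,[z0,z0,z0,z0,z1]),(z3,[z6,y1,y15,y1,y5,z9])],.ref k12 k0 [(z6,[y9,z1,
    z0,y1,z0,z9]),(z4,[z9,z1,z12,z1,z0,y9]),(z24,[y9,y1,z0,z7,z0,z9]),(z1,[z0,z0,z0,z0,z1]),(z4,[z3,y1,y12,y1,y4,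
    z9])],.ref k12 k0 [(z3,[z36,z1,z0,y4,y24]),(z1,[y18,z0,z3,z2,z12]),(z1,[z3,z0,z0,z0,y2]),(z1,[z0,z0,z0,z0,z1]),
    (z3,[y18,y1,y9,z1,z9,z9])],.ref k12 k0 [(z1,[y12,y1,y12,z0,z0,z12]),(z1,[z18,z2,z21,z0,z0,y18]),(z3,[y9,y1,y9,z1,
    z0,z9]),(z1,[z0,z0,z0,z0,z1]),(z3,[z18,z1,z9,y1,y3,y9])],.ref k12 k0 [(z3,[z9,z1,z0,y1,y3]),(z2,[y9,z0,z6,z1,z3]),
    (z4,[z3,z0,z0,z1,y1]),(z1,[z0,z0,z0,z0,z1]),(z6,[y9,y2,y18,y1,y3,z18])],.ref k12 k0 [(z1,[z6,z1,z6,z0,z2,y6]),(z1,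
    [y9,y1,y6,z0,y3,z9]),(z6,[z9,z1,z9,z2,z3,y9]),(z1,[z0,z0,z0,z0,z1]),(z3,[y9,y2,y18,y1,y6,z18])],.ref k12 k0 [(z21,
    [z36,z7,z0,y4]),(z7,[y18,z0,z21,z2]),(z7,[z3,z0,z0,z2]),(z1,[z0,z0,z0,z0,z1]),(z21,[y18,y7,y63,y5,y21,z63])],
    .ref k12 k0 [(z3,[z12,z1,z0,z0,y8]),(z1,[y6,z0,z3,z0,z4]),(z3,[z3,z0,z0,z1,y2]),(z1,[z0,z0,z0,z0,z1]),(z3,[y6,y1,
    y9,y1,z1,z9])],.ref k12 k0 [(z3,[z36,z5,z36,z4,z0,y36]),(z1,[y18,y2,y15,y2,z0,z18]),(z3,[z9,z1,z9,z2,z0,y9]),(z1,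
    [z0,z0,z0,z0,z1]),(z1,[y6,y1,y9,y1,y1,z9])],.ref k12 k0 [(z3,[z6,z1,z0,z0,y2]),(z1,[y3,z0,z3,z0,z1]),(z6,[z3,z0,
    z0,z2,y1]),(z1,[z0,z0,z0,z0,z1]),(z3,[y3,y1,y9,y1,y2,z9])],.ref k12 k0 [(z3,[z9,z2,z9,z1,z3,y9]),(z2,[y9,y1,y3,y1,
    y3,z9]),(z12,[z9,z1,z9,z5,z3,y9]),(z1,[z0,z0,z0,z0,z1]),(z2,[y3,y1,y9,y1,y3,z9])]],
    .lp [k168,k170,k154,k164,k140,k162] [k1,k1,k0,k0,k8,k8,k3,k3,k15,k15,k4,k4] k0 [[k0,k0,k0,k0,k0,k0,k0,k0,k4,k0,k8],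
    [k0,k0,k0,k0,k0,k0,k0,k8],[k0,k0,k0,k0,k8,k0,k0,k0,k0,k0,k10],[k0,k0,k0,k0,k0,k0,k0,k0,k0,k4],[k0,k0,k0,k0,k0,k0,
    k12],[k0,k0,k0,k8],[k8],[k0,k0,k0,k0,k0,k12],[k0,k0,k4],[k0,k4,k0,k0,k0,k0,k0,k0,k0,k0,k0,k8],[k0,k0,k0,k0,k0,k0,
    k0,k0,k8],[k0,k8,k0,k10]] (nat_lit 480) k5
    [[(k2,k159),(k0,k160),(k4,k161),(k8,k162),(k10,k165),(k6,k166)],[(k1,k160),(k5,k161),(k11,k161),(k9,k162),(k7,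
    k166),(k3,k169)],[(k6,k159),(k8,k159),(k4,k162),(k0,k169),(k2,k170),(k10,k174)],[(k9,k155),(k1,k159),(k7,k159),
    (k5,k162),(k3,k170),(k11,k170)],[(k8,k143),(k6,k159),(k0,k161),(k2,k162),(k4,k162),(k10,k168)],[(k9,k135),(k11,
    k158),(k7,k159),(k1,k161),(k3,k162),(k5,k162)],[(k8,k152),(k2,k159),(k4,k159),(k10,k163),(k0,k166),(k6,k176)],
    [(k9,k152),(k3,k159),(k5,k159),(k11,k163),(k1,k166),(k7,k176)],[(k4,k135),(k8,k140),(k10,k151),(k6,k152),(k2,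
    k155),(k0,k162)],[(k9,k140),(k5,k143),(k11,k151),(k7,k152),(k3,k159),(k1,k162)],[(k8,k151),(k10,k154),(k4,k158),
    (k0,k161),(k6,k163),(k2,k170)],[(k9,k151),(k11,k154),(k7,k163),(k1,k165),(k5,k168),(k3,k174)]]
    [] k0
    [[k1,k0,k1,k0,k1,k0],[k1,k0,k0,k0,k2,k0],[k1,k0,k0,k0,k1,k1],[k0,k1,k1,k0,k1,k0],[k0,k1,k0,k1,k1,k0],[k0,k1,k0,k0,
    k2,k0],[k0,k0,k2,k0,k1,k0],[k0,k0,k1,k1,k1,k0],[k0,k0,k1,k0,k2,k0],[k0,k0,k1,k0,k1,k1],[k0,k0,k0,k1,k2,k0],[k0,k0,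
    k0,k1,k1,k1],[k0,k0,k0,k0,k3,k0],[k0,k0,k0,k0,k2,k1],[k0,k0,k0,k0,k1,k2],[k0,k0,k0,k0,k0,k3]]
    [.ref k12 k0 [(z1,[y2,z1,y2,z0,y2,z2]),(z1,[y4,z0,y1,z0,y4,z4]),(z1,[z1,z0,z1,z1,z1,y1]),(z1,[z2,z0,z2,z0,z5,y2]),
    (z1,[z4,y1,z1,y1,z1,y1])],.ref k12 k0 [(z3,[y3,z2,y6,y2,y6,z6]),(z3,[y6,y2,y3,y4,y12,z12]),(z6,[z3,z1,z6,z8,z6,
    y6]),(z3,[z3,z1,z6,z2,z15,y6]),(z3,[z6,y1,z3,z1,z3,y3])],.ref k12 k0 [(z1,[y6,z1,y6,y2,y6,z6]),(z1,[y12,z0,y9,y4,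
    y12,z12]),(z1,[z3,z0,z3,z2,z3,y3]),(z1,[z6,z0,z6,z2,z9,y6]),(z1,[z12,y1,z9,z3,z9,y9])],.ref k12 k0 [(z1,[y6,y1,z0,
    z0,y6,z6]),(z1,[y12,y4,z3,z0,y12,z12]),(z1,[z3,z1,z0,z1,z3,y3]),(z1,[z6,z2,z0,z0,z9,y6]),(z1,[z12,z3,y3,y1,z9,
    y9])],.ref k12 k0 [(z1,[y3,z0,z0,y1,z0,z3]),(z1,[y6,y2,z3,y2,z0,z6]),(z2,[z3,z1,z0,z3,z0,y3]),(z1,[z3,z1,z0,z1,z3,
    y3]),(z1,[z6,z1,y3,z1,y3,y3])],.ref k12 k0 [(z2,[y3,z0,y3,y2,y6,z6]),(z1,[y3,y2,z0,y2,y6,z6]),(z4,[z3,z2,z3,z6,z6,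
    y6]),(z2,[z3,z2,z3,z2,z12,y6]),(z1,[z3,z1,z0,z1,z3,y3])],.ref k12 k0 [(z3,[y3,z2,y3,z1,y3,z3]),(z3,[y6,y2,z3,z2,
    y6,z6]),(z6,[z3,z1,z3,z5,z3,y3]),(z3,[z3,z1,z3,y1,z12,y3]),(z3,[z6,y1,y3,y5,y3,z3])],.ref k12 k0 [(z7,[y6,z5,y6,
    z0,z0,z6]),(z7,[y12,y4,z9,z0,z0,z12]),(z7,[z3,z1,z3,z7,z0,y3]),(z7,[z6,z2,z6,z0,z21,y6]),(z7,[z12,y3,y9,y7,y21,
    z9])],.ref k12 k0 [(z9,[y6,z5,y12,y2,y12,z12]),(z9,[y12,y8,z3,y4,y24,z24]),(z9,[z3,z2,z6,z10,z6,y6]),(z9,[z6,z4,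
    z12,z2,z39,y12]),(z9,[z12,y1,y3,y5,y3,z3])],.ref k12 k0 [(z2,[y3,z1,y3,z0,y3,z3]),(z1,[y3,y1,z0,z0,y3,z3]),(z4,
    [z3,z1,z3,z4,z3,y3]),(z2,[z3,z1,z3,z0,z9,y3]),(z1,[z3,z0,z0,y1])],.ref k12 k0 [(z5,[y3,z3,y6,y2,y3,z6]),(z5,[y6,
    y4,z3,y4,y6,z12]),(z10,[z3,z2,z6,z12,z3,y6]),(z5,[z3,z2,z6,z2,z18,y6]),(z5,[z6,y1,y3,y1,y9,z3])],.ref k12 k0 [(z5,
    [y6,z3,y6,y2,z0,z6]),(z5,[y12,y4,z3,y4,z0,z12]),(z5,[z3,z1,z3,z6,z0,y3]),(z5,[z6,z2,z6,z2,z15,y6]),(z5,[z12,y1,y3,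
    y1,y15,z3])],.ref k12 k0 [(z2,[y1,z1,y3,y1,y3,z3]),(z1,[y1,y1,z0,y1,y3,z3]),(z4,[z1,z1,z3,z5,z3,y3]),(z2,[z1,z1,
    z3,z1,z9,y3]),(z1,[z1])],.ref k12 k0 [(z7,[y6,z3,y12,y4,y12,z12]),(z7,[y12,y8,y3,y8,y24,z24]),(z7,[z3,z2,z6,z9,z6,
    y6]),(z7,[z6,z4,z12,z4,z33,y12]),(z7,[z12,z1,z3,z1,z3,y3])],.ref k12 k0 [(z1,[y3,z0,y3,y1,y3,z3]),(z1,[y6,y2,y3,
    y2,y6,z6]),(z2,[z3,z1,z3,z3,z3,y3]),(z1,[z3,z1,z3,z1,z6,y3]),(z1,[z6,z1,z3,z1,z3,y3])],.ref k12 k0 [(z1,[z2,z1]),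
    (z1,[z4,z0,z3]),(z1,[y1,z0,z0,z1]),(z1,[y2,z0,z0,z0,z3]),(z1,[y4,y1,y3,y1,y3,z3])]],
    .lp [(nat_lit 336),(nat_lit 328),(nat_lit 322),(nat_lit 310),(nat_lit 310),(nat_lit 312)] [k0,k0,k4,k4,k7,k7,k13,k13,
    k13,k13,k12,k12] k0 [[k0,k0,k0,k0,k0,k0,k0,k0,k0,k0,k16],[k0,k0,k0,k0,k0,k6],[k0,k0,k0,k0,k0,k0,k6,k0,k0,k0,k14],
    [k0,k0,k0,k0,k0,k0,k0,k0,k0,k14],[k6],[k0,k0,k0,k0,k0,k0,k0,k28],[k0,k0,k0,k0,k28,k0,k0,k0,k4],[k0,k0,k0,k6,k0,k0,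
    k0,k0,k0,k0,k0,k4],[k0,k0,k14],[k0,k0,k0,k0,k0,k0,k0,k4],[k0,k0,k0,k0,k0,k0,k4],[k0,k16,k0,k14]] (nat_lit 960) k5
    [[(k2,(nat_lit 318)),(k0,(nat_lit 320)),(k8,(nat_lit 323)),(k10,(nat_lit 324)),(k6,(nat_lit 327)),(k4,
    (nat_lit 329))],[(k1,(nat_lit 320)),(k9,(nat_lit 323)),(k11,(nat_lit 324)),(k5,(nat_lit 329)),(k7,(nat_lit 329)),
    (k3,(nat_lit 332))],[(k4,(nat_lit 319)),(k6,(nat_lit 319)),(k8,(nat_lit 319)),(k2,(nat_lit 328)),(k0,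
    (nat_lit 332)),(k10,(nat_lit 336))],[(k9,(nat_lit 313)),(k1,(nat_lit 318)),(k7,(nat_lit 319)),(k5,(nat_lit 325)),
    (k3,(nat_lit 328)),(k11,(nat_lit 334))],[(k8,(nat_lit 302)),(k4,(nat_lit 322)),(k6,(nat_lit 322)),(k2,
    (nat_lit 325)),(k0,(nat_lit 329)),(k10,(nat_lit 331))],[(k7,(nat_lit 316)),(k11,(nat_lit 317)),(k3,(nat_lit 319)),
    (k5,(nat_lit 322)),(k1,(nat_lit 329)),(k9,(nat_lit 344))],[(k6,(nat_lit 282)),(k8,(nat_lit 310)),(k10,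
    (nat_lit 311)),(k4,(nat_lit 316)),(k2,(nat_lit 319)),(k0,(nat_lit 329))],[(k7,(nat_lit 282)),(k11,(nat_lit 307)),
    (k9,(nat_lit 310)),(k3,(nat_lit 319)),(k5,(nat_lit 322)),(k1,(nat_lit 327))],[(k10,(nat_lit 307)),(k6,
    (nat_lit 310)),(k2,(nat_lit 313)),(k8,(nat_lit 314)),(k0,(nat_lit 323)),(k4,(nat_lit 344))],[(k5,(nat_lit 302)),
    (k7,(nat_lit 310)),(k11,(nat_lit 311)),(k9,(nat_lit 314)),(k3,(nat_lit 319)),(k1,(nat_lit 323))],[(k6,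
    (nat_lit 307)),(k8,(nat_lit 311)),(k10,(nat_lit 312)),(k4,(nat_lit 317)),(k0,(nat_lit 324)),(k2,(nat_lit 334))],
    [(k9,(nat_lit 307)),(k7,(nat_lit 311)),(k11,(nat_lit 312)),(k1,(nat_lit 324)),(k5,(nat_lit 331)),(k3,
    (nat_lit 336))]]
    [] k0
    [[k1,k0,k1,k0,k1,k0],[k1,k0,k0,k2,k0,k0],[k1,k0,k0,k0,k1,k1],[k0,k1,k1,k0,k1,k0],[k0,k1,k0,k2,k0,k0],[k0,k1,k0,k1,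
    k1,k0],[k0,k1,k0,k0,k2,k0],[k0,k0,k1,k2,k0,k0],[k0,k0,k1,k1,k0,k1],[k0,k0,k1,k1,k1,k0],[k0,k0,k1,k0,k1,k1],[k0,k0,
    k0,k3,k0,k0],[k0,k0,k0,k2,k1,k0],[k0,k0,k0,k2,k0,k1],[k0,k0,k0,k1,k2,k0],[k0,k0,k0,k1,k1,k1],[k0,k0,k0,k1,k0,k2],
    [k0,k0,k0,k0,k3,k0],[k0,k0,k0,k0,k2,k1],[k0,k0,k0,k0,k1,k2],[k0,k0,k0,k0,k0,k3]]
    [.ref k12 k0 [(z1,[z4,z3,z4,z0,z4,y4]),(z2,[y1,z0,z5,z0,y1,z1]),(z1,[z1,z0,z1,z3,z1,y1]),(z4,[y11,z0,y11,z0,z1,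
    z11]),(z1,[y2,y3,y5,y3,y5,z5])],.ref k12 k0 [(z1,[y8,z11,z0,z0,z16]),(z1,[z1,y1,z3,z0,y2]),(z1,[y2,z2,z0,z3,z4]),
    (z2,[z11,y11,z0,z0,y16]),(z1,[z4,y7,y3,y3,y11,z3])],.ref k12 k0 [(z3,[z16,z9,z16,z16,z16,y16]),(z3,[y2,z0,z7,y2,
    y2,z2]),(z3,[z4,z0,z4,z13,z4,y4]),(z3,[y11,z0,y11,y11,y2,z11]),(z3,[y8,y9,y17,y17,y17,z17])],.ref k12 k0 [(z1,[y8,
    y5,z0,z0,y8,z8]),(z1,[z1,z1,z3,z0,z1,y1]),(z1,[y2,y2,z0,z3,y2,z2]),(z2,[z11,z11,z0,z0,z17,y11]),(z1,[z4,z1,y3,y3,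
    z1,y1])],.ref k12 k0 [(z1,[y2,z3,z2,z0,z4]),(z4,[z1,z0,z11,z0,y2]),(z2,[y1,z0,z1,z6,z2]),(z8,[z11,z0,y11,z0,z2]),
    (z1,[z1,y3,y4,y3,y5,z3])],.ref k12 k0 [(z7,[y16,z5,z0,y16,z0,z16]),(z7,[z2,z2,z21,z2,z0,y2]),(z7,[y4,y4,z0,z17,z0,
    z4]),(z7,[z11,z11,z0,z11,z21,y11]),(z7,[z8,y13,y21,y13,y21,z13])],.ref k12 k0 [(z3,[y8,y7,y8,y16,y16,z16]),(z3,
    [z1,z2,z10,z2,z2,y2]),(z3,[y2,y4,y2,z5,y4,z4]),(z6,[z11,z22,z11,z22,z40,y22]),(z3,[z4,y1,y5,y1,y1,z1])],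
    .ref k12 k0 [(z3,[y8,z9,z0,z8,z16]),(z3,[z1,z0,z9,y1,y2]),(z3,[y2,z0,z0,z11,z4]),(z6,[z11,z0,z0,y11,y4]),(z3,[z4,
    y9,y9,y13,y17,z9])],.ref k12 k0 [(z1,[y8,z3,z0,z8,z8]),(z1,[z1,z0,z3,y1,y1]),(z1,[y2,z0,z0,z5,z2]),(z2,[z11,z0,z0,
    y11,y5]),(z1,[z4,y3,y3,y7,y7,z3])],.ref k12 k0 [(z5,[y16,y1,y16,z0,z0,z16]),(z5,[z2,z2,z17,z0,z0,y2]),(z5,[y4,y4,
    y4,z15,z0,z4]),(z5,[z11,z11,z11,z0,z15,y11]),(z5,[z8,y7,y7,y15,y15,z7])],.ref k12 k0 [(z1,[y16,y13,y16,z0,y16,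
    z16]),(z1,[z2,z2,z5,z0,z2,y2]),(z1,[y4,y4,y4,z3,y4,z4]),(z1,[z11,z11,z11,z0,z14,y11]),(z1,[z8,z5,z5,y3,z5,y5])],
    .ref k12 k0 [(z11,[y16,z33,z0,z0,z48]),(z11,[z2,z0,z33,z0,y6]),(z11,[y4,z0,z0,z33,z12]),(z1,[z1]),(z11,[z8,y33,
    y33,y33,y57,z33])],.ref k12 k0 [(z5,[y8,z7,y8,y8,z8,z8]),(z5,[z1,z1,z16,z1,y1,y1]),(z5,[y2,y2,y2,z13,z2,z2]),(z10,
    [z11,z11,z11,z11,z19,y11]),(z5,[z4,y11,y11,y11,y19,z11])],.ref k12 k0 [(z7,[y16,z21,z0,z0,z32]),(z7,[z2,z0,z21,z0,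
    y4]),(z7,[y4,z0,z0,z21,z8]),(z7,[z11,z0,z0,z0,y1]),(z7,[z8,y21,y21,y21,y37,z21])],.ref k12 k0 [(z9,[y16,y5,y32,
    y32,y16,z32]),(z9,[z2,z4,z31,z4,z2,y4]),(z9,[y4,y8,y8,z19,y4,z8]),(z9,[z11,z22,z22,z22,z38,y22]),(z9,[z8,y11,y11,
    y11,y19,z11])],.ref k12 k0 [(z3,[y8,z1,y8,y8,z0,z8]),(z3,[z1,z1,z10,z1,z0,y1]),(z3,[y2,y2,y2,z7,z0,z2]),(z6,[z11,
    z11,z11,z11,z18,y11]),(z3,[z4,y5,y5,y5,y9,z5])],.ref k12 k0 [(z3,[y16,z9,z0,z0,z16]),(z3,[z2,z0,z9,z0,y2]),(z3,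
    [y4,z0,z0,z9,z4]),(z3,[z11,z0,z0,z0,y2]),(z3,[z8,y9,y9,y9,y17,z9])],.ref k12 k0 [(z1,[y2,y3,y6,y6,y6,z6]),(z4,[z1,
    z3,z15,z3,z3,y3]),(z2,[y1,y3,y3,z3,y3,z3]),(z8,[z11,z33,z33,z33,z57,y33]),(z1,[z1])],.ref k12 k0 [(z5,[y16,y17,
    y32,y32,y32,z32]),(z5,[z2,z4,z19,z4,z4,y4]),(z5,[y4,y8,y8,z7,y8,z8]),(z5,[z11,z22,z22,z22,z37,y22]),(z5,[z8,z1,z1,
    z1,z1,y1])],.ref k12 k0 [(z1,[y8,y5,y8,y8,y8,z8]),(z1,[z1,z1,z4,z1,z1,y1]),(z1,[y2,y2,y2,z1,y2,z2]),(z2,[z11,z11,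
    z11,z11,z17,y11]),(z1,[z4,z1,z1,z1,z1,y1])],.ref k12 k0 [(z1,[z16,z3]),(z1,[y2,z0,z3]),(z1,[z4,z0,z0,z3]),(z1,
    [y11,z0,z0,z0,z3]),(z1,[y8,y3,y3,y3,y3,z3])]],
    .lp [k168,k168,k162,k134,k154,k172] [k2,k2,k2,k2,k5,k5,k19,k19,k9,k9,k0,k0] k0 [[k0,k0,k0,k0,k0,k0,k26,k0,k0,k0,k8],
    [k0,k0,k0,k16,k0,k6],[k16,k0,k0,k0,k0,k0,k22],[k0,k0,k0,k0,k0,k0,k0,k0,k0,k0,k0,k16],[k6,k0,k0,k0,k0,k0,k0,k0,k0,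
    k0,k6],[k0,k0,k0,k0,k0,k0,k0,k10,k0,k20],[k0,k0,k0,k0,k10],[k0,k26,k0,k22],[k0,k0,k0,k0,k20],[k0,k0,k0,k0,k0,k0,
    k0,k0,k0,k0,k0,k30],[k0,k0,k16,k0,k0,k0,k0,k0,k30],[k0,k8,k0,k0,k0,k6]] (nat_lit 480) k5
    [[(k6,k151),(k4,k159),(k0,k160),(k10,k170),(k2,k184),(k8,k191)],[(k9,k135),(k7,k157),(k1,k160),(k3,k168),(k11,
    k170),(k5,k181)],[(k2,k152),(k4,k159),(k8,k161),(k0,k168),(k6,k177),(k10,k178)],[(k9,k139),(k7,k151),(k3,k152),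
    (k5,k165),(k11,k170),(k1,k184)],[(k10,k151),(k8,k158),(k4,k162),(k2,k165),(k6,k170),(k0,k181)],[(k7,k148),(k1,
    k159),(k3,k159),(k5,k162),(k9,k168),(k11,k187)],[(k6,k124),(k8,k124),(k4,k148),(k2,k151),(k0,k157),(k10,k159)],
    [(k7,k124),(k9,k144),(k1,k151),(k11,k153),(k5,k170),(k3,k177)],[(k0,k135),(k2,k139),(k6,k144),(k8,k154),(k10,
    k163),(k4,k168)],[(k7,k124),(k9,k154),(k5,k158),(k3,k161),(k11,k163),(k1,k191)],[(k10,k142),(k6,k153),(k8,k163),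
    (k0,k170),(k2,k170),(k4,k187)],[(k11,k142),(k5,k151),(k7,k159),(k9,k163),(k1,k170),(k3,k178)]]
    [] k0
    [[k2,k0,k0,k1,k0,k0],[k1,k0,k1,k0,k1,k0],[k1,k1,k0,k1,k0,k0],[k1,k0,k0,k2,k0,k0],[k1,k0,k0,k1,k1,k0],[k1,k0,k0,k0,
    k1,k1],[k0,k3,k0,k0,k0,k0],[k0,k2,k1,k0,k0,k0],[k0,k2,k0,k0,k1,k0],[k0,k1,k1,k0,k1,k0],[k0,k1,k0,k2,k0,k0],[k0,k1,
    k0,k1,k1,k0],[k0,k1,k0,k0,k2,k0],[k0,k0,k1,k2,k0,k0],[k0,k0,k1,k1,k1,k0],[k0,k0,k1,k1,k0,k1],[k0,k0,k0,k3,k0,k0],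
    [k0,k0,k0,k2,k1,k0],[k0,k0,k0,k2,k0,k1],[k0,k0,k0,k1,k2,k0],[k0,k0,k0,k1,k1,k1],[k0,k0,k0,k1,k0,k2],[k0,k0,k0,k0,
    k3,k0],[k0,k0,k0,k0,k1,k2],[k0,k0,k0,k0,k0,k3]]
    [.ref (nat_lit 331) k4 [(z1,[y2,z2,y1,y2,z2]),(z1,[z0,z1]),(z1,[z1,y1,z1,z1,y1]),(z1,[z0,z0,z0,z1])],
    .ref (nat_lit 320) k7 [(z1,[y1,z0,y1,z0,z1]),(z1,[z1,y1,z0,y1]),(z1,[z0,z0,z1]),(z1,[z4,y1,z0,y4])],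
    .ref (nat_lit 391) k6 [(z1,[y2,z0,y2,y1,z2]),(z1,[y3,y1,y4,y4,z4]),(z1,[z1,z0,z1,z1,y1]),(z1,[z0,z0,z1])],
    .ref k10 k11 [(z1,[y2,y1,y4,y4,z4]),(z1,[z0,z0,z1]),(z2,[y1,y1,y2,y2,z2]),(z2,[z3,z1,z4,z4,y4])],
    .ref k197 k4 [(z1,[y2,z0,y1,y2,z2]),(z1,[z0,z1]),(z1,[z1,z0,z1,z1,y1]),(z1,[z0,z0,z0,z1])],
    .ref (nat_lit 392) k5 [(z1,[z2,z2,z2,z5,y4]),(z1,[y3,y2,y2,y5,z5]),(z1,[y4,y3,y4,y8,z8]),(z1,[z6,z4,z5,z10,y10])],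
    .ref (nat_lit 393) k0 [(z1,[z0,z1]),(z1,[z1]),(z1,[z0,z0,z0,z1]),(z1,[z1,y3,y3,y3,z3])],.ref k10 k11 [(z1,[y2,z1,
    z0,z2]),(z1,[z0,z0,z1]),(z2,[y1,z0,z0,z1]),(z2,[z3,y2,y2,y5,z2])],.ref (nat_lit 391) k6 [(z1,[y2,z0,z0,z1]),(z1,
    [y3,y1,y1,y1,z1]),(z1,[z1]),(z1,[z0,z0,z1])],.ref k10 k11 [(z1,[y4,z1,z0,z4]),(z1,[z0,z0,z1]),(z1,[y1,z0,z0,z1]),
    (z1,[z3,y1,y1,y4,z1])],.ref (nat_lit 394) k11 [(z1,[y2,y1,y4,y4,z4]),(z1,[z0,z0,z1]),(z1,[y1,y2,y2,y2,z2]),(z1,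
    [z1])],.ref k10 k11 [(z1,[y2,y1,y2,y2,z2]),(z1,[z0,z0,z1]),(z2,[y1,y1,y1,y1,z1]),(z2,[z3,z1,z1,z1,y1])],
    .ref k197 k4 [(z1,[y2,z0,z1]),(z1,[z0,z1]),(z1,[z1]),(z1,[z0,z0,z0,z1])],.ref k113 k3 [(z2,[z1,z0,z2,z1,y2]),(z1,
    [z0,z1,z0,z2]),(z1,[z2,y1,z0,y2]),(z1,[z0,y1])],.ref k113 k3 [(z1,[z1,z0,z1,z0,y1]),(z1,[z0,z1,z0,z2]),(z1,[z4,y1,
    z0,y4]),(z1,[z0,y1])],.ref (nat_lit 331) k4 [(z1,[z2,z2,z1,z0,y2]),(z1,[z0,z1]),(z1,[y1,y1,z0,z0,z1]),(z1,[z0,z0,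
    z0,z1])],.ref (nat_lit 395) k11 [(z1,[y4,y3,y12,y12,z12]),(z1,[z0,z0,z1]),(z1,[y1,y3,y3,y3,z3]),(z1,[z1])],
    .ref (nat_lit 392) k5 [(z1,[y2,z0,z0,z1]),(z1,[z3,z1,z1,z1,y1]),(z1,[z4,z1]),(z1,[y6,y2,y1,y2,z2])],
    .ref (nat_lit 320) k7 [(z2,[z1,z0,y1]),(z2,[y1,y2,y1,y2,z2]),(z1,[z0,z0,z1]),(z1,[y2,y1,y2,y4,z4])],
    .ref k10 k11 [(z1,[y4,y3,y4,y4,z4]),(z1,[z0,z0,z1]),(z1,[y1,y1,y1,y1,z1]),(z1,[z3,z2,z2,z2,y2])],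
    .ref k197 k4 [(z1,[z2,z2,z1,z2,y2]),(z1,[z0,z1]),(z1,[y1,y1,z0,y1,z1]),(z1,[z0,z0,z0,z1])],
    .ref (nat_lit 396) k4 [(z1,[z2,z2,z1,z2,y2]),(z1,[z0,z1]),(z1,[y1,y1,z1,y1,z1]),(z1,[z0,z0,z0,z1])],
    .ref (nat_lit 320) k7 [(z1,[y1,y1,y1,y1,z1]),(z1,[z1]),(z1,[z0,z0,z1]),(z1,[z4,z3])],.ref (nat_lit 397) k11 [(z1,
    [z4,z1,y8]),(z1,[z0,z0,z1]),(z1,[z1,z0,y2]),(z1,[y3,y1,z5,y1,z1])],.ref (nat_lit 393) k0 [(z1,[z0,z1]),(z2,[y1,z0,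
    z3]),(z1,[z0,z0,z0,z1]),(z2,[y1,y6,y3,y6,z6])]],
    .lp [k160,k170,k174,k152,k126,k176] [k8,k8,k3,k3,k1,k1,k12,k12,k25,k25,k0,k0] k0 [[k0,k0,k0,k0,k0,k0,k14,k0,k26],[k0,
    k0,k0,k20,k0,k2],[k20,k0,k0,k0,k6],[k0,k0,k0,k0,k0,k0,k0,k8],[k2,k0,k0,k0,k0,k0,k0,k0,k50],[k0,k0,k0,k6],[k0,k0,
    k8],[k0,k14,k0,k0,k0,k0,k0,k0,k0,k0,k0,k18],[k0,k0,k0,k0,k0,k0,k0,k0,k0,k0,k20],[k0,k26,k0,k0,k0,k50],[k0,k0,k0,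
    k0,k0,k0,k18],[k0,k0,k0,k0,k0,k0,k0,k0,k0,k20]] (nat_lit 480) k5
    [[(k8,k123),(k0,k160),(k2,k165),(k4,k167),(k10,k168),(k6,k174)],[(k9,k129),(k11,k142),(k7,k158),(k1,k160),(k3,
    k165),(k5,k187)],[(k2,k150),(k0,k165),(k4,k170),(k10,k173),(k8,k174),(k6,k175)],[(k3,k150),(k7,k155),(k9,k156),
    (k1,k165),(k5,k172),(k11,k173)],[(k8,k150),(k6,k155),(k2,k172),(k10,k175),(k4,k180),(k0,k187)],[(k11,k125),(k9,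
    k150),(k7,k163),(k1,k167),(k3,k170),(k5,k180)],[(k6,k152),(k2,k155),(k0,k158),(k4,k163),(k10,k164),(k8,k189)],
    [(k9,k139),(k7,k152),(k5,k155),(k11,k164),(k1,k174),(k3,k175)],[(k8,k126),(k0,k129),(k10,k133),(k6,k139),(k4,
    k150),(k2,k156)],[(k1,k123),(k9,k126),(k5,k150),(k11,k151),(k3,k174),(k7,k189)],[(k4,k125),(k0,k142),(k8,k151),
    (k6,k164),(k2,k173),(k10,k196)],[(k9,k133),(k7,k164),(k1,k168),(k3,k173),(k5,k175),(k11,k196)]]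
    [] k0
    [[k2,k0,k0,k0,k1,k0],[k2,k0,k0,k0,k0,k1],[k1,k1,k0,k0,k1,k0],[k1,k0,k1,k0,k1,k0],[k1,k0,k0,k1,k1,k0],[k1,k0,k0,k0,
    k2,k0],[k1,k0,k0,k0,k1,k1],[k0,k3,k0,k0,k0,k0],[k0,k1,k1,k0,k1,k0],[k0,k1,k0,k1,k1,k0],[k0,k1,k0,k0,k2,k0],[k0,k1,
    k1,k0,k0,k1],[k0,k0,k1,k2,k0,k0],[k0,k0,k1,k1,k0,k1],[k0,k0,k1,k1,k1,k0],[k0,k0,k1,k0,k2,k0],[k0,k0,k1,k0,k1,k1],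
    [k0,k0,k0,k3,k0,k0],[k0,k0,k0,k1,k2,k0],[k0,k0,k0,k1,k1,k1],[k0,k0,k0,k0,k3,k0],[k0,k0,k0,k0,k2,k1]]
    [.ref k12 k0 [(z12,[z22,z7,z11,z22,z22,y22]),(z12,[y2,z1,z17,y2,y2,z2]),(z3,[y2,z1,y1,z7,y2,z2]),(z3,[y2,z1,y1,y2,
    z7,z2]),(z6,[y4,y7,y11,y22,y22,z22])],.ref k12 k0 [(z8,[z11,z1]),(z8,[y1,z1,z12]),(z2,[y1,z1,z0,z6]),(z2,[y1,z1,
    z0,z0,z6]),(z2,[y1,y2,y3,y6,y6,z6])],.ref k12 k0 [(z2,[z11,z3,z0,z11,z11,y11]),(z2,[y1,z0,z3,y1,y1,z1]),(z1,[y2,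
    z0,z0,z1,y2,z2]),(z1,[y2,z0,z0,y2,z1,z2]),(z2,[y4,y3,y3,y10,y10,z10])],.ref k12 k0 [(z2,[z22,z3,z11,z0,z22,y22]),
    (z1,[y1,z0,z1,z0,y1,z1]),(z1,[y4,z0,y2,z3,y4,z4]),(z1,[y4,z0,y2,z0,y1,z4]),(z2,[y8,y3,y7,y6,y14,z14])],
    .ref k12 k0 [(z2,[z22,z3,z11,z22,z0,y22]),(z1,[y1,z0,z1,y1,z0,z1]),(z1,[y4,z0,y2,y1,z0,z4]),(z1,[y4,z0,y2,y4,z3,
    z4]),(z2,[y8,y3,y7,y14,y6,z14])],.ref k12 k0 [(z1,[z11,z7,z11,z22,z22,y22]),(z2,[y2,y1,z1,y4,y4,z4]),(z1,[y4,y2,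
    y4,y5,y8,z8]),(z1,[y4,y2,y4,y8,y5,z8]),(z2,[y8,y7,y11,y22,y22,z22])],.ref k12 k0 [(z6,[z22,z9,z11,z22,z22,y22]),
    (z3,[y1,z0,z4,y1,y1,z1]),(z3,[y4,z0,y2,z5,y4,z4]),(z3,[y4,z0,y2,y4,z5,z4]),(z6,[y8,y9,y13,y26,y26,z26])],
    .ref k12 k0 [(z2,[y22,z3,z33]),(z1,[z1]),(z1,[z4,z0,y6,z3]),(z1,[z4,z0,y6,z0,z3]),(z2,[z8,y3,y15,y6,y6,z6])],
    .ref k12 k0 [(z3,[y11,y1,z0,z0,y11,z11]),(z6,[z2,z1,z9,z0,z2,y2]),(z3,[z4,z2,z0,z9,z4,y4]),(z3,[z4,z2,z0,z0,z13,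
    y4]),(z6,[z8,y5,y9,y18,y10,z10])],.ref k12 k0 [(z3,[y11,y1,z0,y11,z0,z11]),(z6,[z2,z1,z9,z2,z0,y2]),(z3,[z4,z2,z0,
    z13,z0,y4]),(z3,[z4,z2,z0,z4,z9,y4]),(z6,[z8,y5,y9,y10,y18,z10])],.ref k12 k0 [(z6,[y22,y13,y11,y44,y44,z44]),(z3,
    [z1,z1,z5,z2,z2,y2]),(z3,[z4,z4,z2,z17,z8,y8]),(z3,[z4,z4,z2,z8,z17,y8]),(z6,[z8,y1,y5,y2,y2,z2])],
    .ref k12 k0 [(z2,[y22,z3,z11,z22]),(z1,[z1,z0,z1,y1]),(z1,[z4,z0,y2,y1]),(z1,[z4,z0,y2,y4,z3]),(z2,[z8,y3,y7,y14,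
    y6,z6])],.ref k12 k0 [(z4,[y11,z6,z0,z11,z22]),(z4,[z1,z0,z6,y1,y2]),(z1,[z1,z0,z0,z2,y2]),(z1,[z1,z0,z0,y1,z1]),
    (z2,[z2,y3,y3,y8,y10,z6])],.ref k12 k0 [(z2,[y11,z3,z0,z11,z11]),(z2,[z1,z0,z3,y1,y1]),(z1,[z2,z0,z0,z1,y2]),(z1,
    [z2,z0,z0,y2,z1]),(z2,[z4,y3,y3,y10,y10,z6])],.ref k12 k0 [(z8,[y22,z1,y11,z0,z0,z22]),(z8,[z2,z1,z13,z0,z0,y2]),
    (z2,[z2,z1,z1,z6,z0,y2]),(z2,[z2,z1,z1,z0,z6,y2]),(z1,[z1,y1,y1,y3,y3,z2])],.ref k12 k0 [(z4,[y11,y5,y11,y11,y22,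
    z22]),(z4,[z1,z1,z7,z1,z2,y2]),(z1,[z1,z1,z1,z4,z2,y2]),(z1,[z1,z1,z1,z1,z5,y2]),(z2,[z2,y1,y1,y4,y2,z2])],
    .ref k12 k0 [(z4,[y22,y5,y11,z0,y22,z22]),(z4,[z2,z1,z7,z0,z2,y2]),(z1,[z2,z1,z1,z3,z2,y2]),(z1,[z2,z1,z1,z0,z5,
    y2]),(z2,[z4,y1,y1,y6,y2,z2])],.ref k12 k0 [(z4,[y11,z6,z0,z0,z33]),(z4,[z1,z0,z6,z0,y3]),(z1,[z1,z0,z0,z3,y3]),
    (z1,[z1]),(z2,[z2,y3,y3,y6,y12,z6])],.ref k12 k0 [(z4,[y11,y5,y11,y22,y11,z22]),(z4,[z1,z1,z7,z2,z1,y2]),(z1,[z1,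
    z1,z1,z5,z1,y2]),(z1,[z1,z1,z1,z2,z4,y2]),(z2,[z2,y1,y1,y2,y4,z2])],.ref k12 k0 [(z4,[y22,y5,y11,y22,z0,z22]),(z4,
    [z2,z1,z7,z2,z0,y2]),(z1,[z2,z1,z1,z5,z0,y2]),(z1,[z2,z1,z1,z2,z3,y2]),(z2,[z4,y1,y1,y2,y6,z2])],.ref k12 k0 [(z8,
    [y22,y21,y33,y66,y66,z66]),(z8,[z2,z3,z15,z6,z6,y6]),(z2,[z2,z3,z3,z12,z6,y6]),(z2,[z2,z3,z3,z6,z12,y6]),(z1,
    [z1])],.ref k12 k0 [(z2,[y11,y8,y11,y22,y22,z22]),(z2,[z1,z1,z4,z2,z2,y2]),(z1,[z2,z2,z2,z7,z4,y4]),(z1,[z2,z2,z2,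
    z4,z7,y4]),(z2,[z4,z1,z1,z2,z2,y2])]],
    .lp [k168,k170,k154,k164,k140,k162] [k1,k1,k0,k0,k8,k8,k3,k3,k15,k15,k4,k4] k0 [[k0,k0,k0,k0,k0,k0,k0,k0,k4,k0,k8],
    [k0,k0,k0,k0,k0,k0,k0,k8],[k0,k0,k0,k0,k8,k0,k0,k0,k0,k0,k10],[k0,k0,k0,k0,k0,k0,k0,k0,k0,k4],[k0,k0,k0,k0,k0,k0,
    k12],[k0,k0,k0,k8],[k8],[k0,k0,k0,k0,k0,k12],[k0,k0,k4],[k0,k4,k0,k0,k0,k0,k0,k0,k0,k0,k0,k8],[k0,k0,k0,k0,k0,k0,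
    k0,k0,k8],[k0,k8,k0,k10]] (nat_lit 480) k5
    [[(k2,k159),(k0,k160),(k4,k161),(k8,k162),(k10,k165),(k6,k166)],[(k1,k160),(k5,k161),(k11,k161),(k9,k162),(k7,
    k166),(k3,k169)],[(k6,k159),(k8,k159),(k4,k162),(k0,k169),(k2,k170),(k10,k174)],[(k9,k155),(k1,k159),(k7,k159),
    (k5,k162),(k3,k170),(k11,k170)],[(k8,k143),(k6,k159),(k0,k161),(k2,k162),(k4,k162),(k10,k168)],[(k9,k135),(k11,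
    k158),(k7,k159),(k1,k161),(k3,k162),(k5,k162)],[(k8,k152),(k2,k159),(k4,k159),(k10,k163),(k0,k166),(k6,k176)],
    [(k9,k152),(k3,k159),(k5,k159),(k11,k163),(k1,k166),(k7,k176)],[(k4,k135),(k8,k140),(k10,k151),(k6,k152),(k2,
    k155),(k0,k162)],[(k9,k140),(k5,k143),(k11,k151),(k7,k152),(k3,k159),(k1,k162)],[(k8,k151),(k10,k154),(k4,k158),
    (k0,k161),(k6,k163),(k2,k170)],[(k9,k151),(k11,k154),(k7,k163),(k1,k165),(k5,k168),(k3,k174)]]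
    [] k0
    [[k1,k0,k1,k0,k1,k0],[k1,k0,k0,k0,k2,k0],[k1,k0,k0,k0,k1,k1],[k0,k1,k1,k0,k1,k0],[k0,k1,k0,k1,k1,k0],[k0,k1,k0,k0,
    k2,k0],[k0,k0,k2,k0,k1,k0],[k0,k0,k1,k1,k1,k0],[k0,k0,k1,k0,k2,k0],[k0,k0,k1,k0,k1,k1],[k0,k0,k0,k1,k2,k0],[k0,k0,
    k0,k1,k1,k1],[k0,k0,k0,k0,k3,k0],[k0,k0,k0,k0,k2,k1],[k0,k0,k0,k0,k1,k2],[k0,k0,k0,k0,k0,k3]]
    [.ref k12 k0 [(z1,[y4,z3,y2,z0,y1,z4]),(z2,[z4,z0,z5,z0,z1,y4]),(z1,[z0,z0,z0,z1]),(z2,[y2,z0,y1,z0,z1,z2]),(z1,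
    [z7,y3,z2,y1,z1,y4])],.ref k12 k0 [(z5,[y6,z9,y6,y4,y3,z12]),(z10,[z6,z6,z21,z4,z3,y12]),(z1,[z0,z0,z0,z1]),(z10,
    [y3,y3,y3,y2,z6,z6]),(z10,[z21,y9,z6,z4,z3,y12])],.ref k12 k0 [(z1,[z12,z3,z6,z4,z3,y12]),(z2,[y12,z0,y3,y4,y3,
    z12]),(z1,[z0,z0,z0,z1]),(z2,[z6,z0,z3,z2,z3,y6]),(z1,[y21,y3,y12,y8,y6,z24])],.ref k12 k0 [(z3,[y4,z5,z0,z0,y1,
    z4]),(z6,[z4,z4,z9,z0,z1,y4]),(z1,[z0,z0,z0,z1]),(z3,[y1,y1,z0,z0,z2,z1]),(z6,[z14,y4,y9,y6,y1,z4])],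
    .ref k12 k0 [(z2,[y3,z3,z0,y1,z0,z3]),(z4,[z3,z3,z6,z1,z0,y3]),(z1,[z0,z0,z0,z1]),(z8,[y3,y3,z0,y1,z6,z3]),(z8,
    [z21,y3,y12,y1,y6,z3])],.ref k12 k0 [(z8,[y6,z12,y3,y4,y3,z12]),(z16,[z6,z12,z27,z4,z3,y12]),(z1,[z0,z0,z0,z1]),
    (z32,[y6,y12,y3,y4,z21,z12]),(z32,[z42,y12,y27,y4,y3,z12])],.ref k12 k0 [(z7,[y12,z9,y6,z4,y3,z12]),(z14,[z12,z12,
    z27,y4,z3,y12]),(z1,[z0,z0,z0,z1]),(z14,[y6,y6,y3,z2,z9,z6]),(z1,[z3,z0,z0,y2])],.ref k12 k0 [(z1,[y2,z1,y1,z0,z0,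
    z2]),(z1,[z1,z1,z2,z0,z0,y1]),(z1,[z0,z0,z0,z1]),(z4,[y2,y2,y1,z0,z3,z2]),(z4,[z14,z2,z1,y4,y3,y2])],
    .ref k12 k0 [(z7,[y6,z9,y6,y2,y3,z12]),(z14,[z6,z12,z27,z2,z3,y12]),(z1,[z0,z0,z0,z1]),(z14,[y3,y6,y3,y1,z9,z6]),
    (z2,[z3,z0,z0,y1])],.ref k12 k0 [(z1,[y4,y1,y2,z0,y1,z4]),(z2,[z4,z4,z5,z0,z1,y4]),(z1,[z0,z0,z0,z1]),(z2,[y2,y2,
    y1,z0,z1,z2]),(z1,[z7,z4,z2,y1,z1,y4])],.ref k12 k0 [(z13,[y12,z15,y12,y8,y3,z24]),(z26,[z12,z24,z51,z8,z3,y24]),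
    (z1,[z0,z0,z0,z1]),(z13,[y3,y6,y3,y2,z9,z6]),(z26,[z42,z6,z3,z2,y9,y6])],.ref k12 k0 [(z1,[y6,y3,y3,y2,z0,z6]),
    (z1,[z3,z3,z3,z1,z0,y3]),(z1,[z0,z0,z0,z1]),(z4,[y6,y6,y3,y2,z3,z6]),(z4,[z42,z30,z15,z10,y3,y30])],
    .ref k12 k0 [(z7,[y4,z9,y6,y4,y3,z12]),(z14,[z4,z12,z27,z4,z3,y12]),(z1,[z0,z0,z0,z1]),(z14,[y2,y6,y3,y2,z9,z6]),
    (z1,[z1])],.ref k12 k0 [(z5,[y6,z3,y6,y4,y3,z12]),(z10,[z6,z12,z21,z4,z3,y12]),(z1,[z0,z0,z0,z1]),(z10,[y3,y6,y3,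
    y2,z6,z6]),(z10,[z21,z12,z6,z4,z3,y12])],.ref k12 k0 [(z1,[z12,z15,z6,z4,z3,y12]),(z2,[y12,y12,y3,y4,y3,z12]),(z1,
    [z0,z0,z0,z1]),(z2,[z6,z6,z3,z2,z3,y6]),(z1,[y21,y24,y12,y8,y6,z24])],.ref k12 k0 [(z1,[z1,z3]),(z2,[y1,z0,z3]),
    (z1,[z0,z0,z0,z1]),(z4,[z1,z0,z0,z0,z3]),(z4,[y7,y12,y6,y4,y3,z12])]],
    .lp [k162,k162,k162,k156,k142,k174] [k6,k6,k6,k6,k6,k6,k9,k9,k16,k16,k0,k0] k0 [[k0,k0,k0,k0,k0,k0,k0,k0,k0,k0,k2],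
    [k0,k0,k0,k12],[k12],[k0,k0,k0,k0,k0,k0,k0,k0,k0,k0,k0,k14],[k0,k0,k0,k0,k0,k0,k32],[k0,k0,k0,k0,k0,k0,k0,k0,k0,
    k6],[k0,k0,k0,k0,k0,k0,k0,k0,k12,k0,k12],[k0,k0,k0,k0,k0,k32],[k0,k0,k0,k0,k6],[k0,k0,k0,k0,k0,k0,k0,k12,k0,k0,k0,
    k22],[k0,k0,k14,k0,k0,k0,k0,k0,k22],[k0,k2,k0,k0,k0,k0,k0,k12]] (nat_lit 480) k5
    [[(k6,k147),(k0,k160),(k4,k162),(k10,k168),(k8,k174),(k2,k176)],[(k9,k152),(k7,k159),(k1,k160),(k3,k162),(k11,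
    k168),(k5,k174)],[(k2,k150),(k8,k152),(k6,k159),(k0,k162),(k4,k162),(k10,k170)],[(k3,k150),(k9,k152),(k7,k159),
    (k5,k162),(k11,k168),(k1,k176)],[(k8,k152),(k10,k154),(k6,k159),(k2,k162),(k4,k162),(k0,k174)],[(k9,k120),(k7,
    k159),(k1,k162),(k3,k162),(k5,k162),(k11,k174)],[(k8,k143),(k0,k159),(k2,k159),(k4,k159),(k10,k165),(k6,k188)],
    [(k1,k147),(k9,k149),(k11,k153),(k3,k159),(k5,k159),(k7,k188)],[(k4,k120),(k6,k149),(k0,k152),(k2,k152),(k8,k154),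
    (k10,k170)],[(k7,k143),(k3,k152),(k5,k152),(k9,k154),(k11,k158),(k1,k174)],[(k10,k152),(k6,k153),(k8,k158),(k0,
    k168),(k2,k168),(k4,k174)],[(k11,k152),(k5,k154),(k7,k165),(k1,k168),(k3,k170),(k9,k170)]]
    [] k0
    [[k2,k0,k0,k1,k0,k0],[k1,k0,k1,k0,k1,k0],[k1,k1,k0,k1,k0,k0],[k1,k0,k0,k1,k1,k0],[k1,k0,k0,k0,k1,k1],[k0,k3,k0,k0,
    k0,k0],[k0,k2,k1,k0,k0,k0],[k0,k2,k0,k1,k0,k0],[k0,k2,k0,k0,k1,k0],[k0,k1,k1,k0,k1,k0],[k0,k1,k0,k1,k1,k0],[k0,k1,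
    k0,k0,k2,k0],[k0,k0,k2,k0,k1,k0],[k0,k0,k1,k1,k1,k0],[k0,k0,k1,k0,k2,k0],[k0,k0,k1,k1,k0,k1],[k0,k0,k1,k0,k1,k1],
    [k0,k0,k0,k1,k2,k0],[k0,k0,k0,k1,k1,k1],[k0,k0,k0,k1,k0,k2],[k0,k0,k0,k0,k3,k0],[k0,k0,k0,k0,k0,k3]]
    [.ref k12 k0 [(z7,[z4,z13,z0,z0,y4]),(z7,[y8,z16,z21,z0,z8]),(z7,[y8,z16,z0,z21,z8]),(z7,[z13,y26,z0,z0,z8]),(z7,
    [y2,y17,y21,y21,y19,z21])],.ref k12 k0 [(z1,[y2,z3,y2,z0,y2,z2]),(z1,[z4,z0,z7,z0,z4,y4]),(z1,[z4,z0,z4,z3,z4,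
    y4]),(z2,[y13,z0,y13,z0,y7,z13]),(z1,[z1,y3,y2,y3,y2,z2])],.ref k12 k0 [(z3,[z4,z5,y4,z0,y4]),(z3,[y8,z8,z17,z0,
    z8]),(z3,[y8,z8,z8,z9,z8]),(z3,[z13,y13,y13,z0,y4]),(z3,[y2,y7,y7,y9,y7,z9])],.ref k12 k0 [(z5,[z4,z15,z4,z4,z0,
    y4]),(z5,[y8,z0,z7,y8,z0,z8]),(z5,[y8,z0,y8,z7,z0,z8]),(z5,[z13,z0,z13,z13,z15,y13]),(z5,[y2,y15,y17,y17,y15,
    z17])],.ref k12 k0 [(z1,[z4,z3,z4,z4,z4,y4]),(z1,[y8,z0,y5,y8,y8,z8]),(z1,[y8,z0,y8,y5,y8,z8]),(z1,[z13,z0,z13,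
    z13,z16,y13]),(z1,[y2,y3,y5,y5,y5,z5])],.ref k12 k0 [(z2,[y1,z6,z3]),(z1,[z1]),(z1,[z1,z0,y3,z3]),(z8,[y13,z0,z39,
    z0,z24]),(z4,[z1,y12,y15,y12,y12,z12])],.ref k12 k0 [(z2,[y1,z6,z2,z1]),(z1,[z1,z0,z1,y1]),(z1,[z1,z0,y2,z2]),(z8,
    [y13,z0,z26,z13,z24]),(z4,[z1,y12,y14,y13,y12,z12])],.ref k12 k0 [(z1,[y4,z3,z8,z0,z4]),(z1,[z8,z0,y13,z0,y8]),
    (z1,[z8,z0,y16,z3,y8]),(z1,[y13,z0,z26,z0,z16]),(z1,[z2,y3,y7,y3,y5,z3])],.ref k12 k0 [(z3,[y2,z7,z2,y2,y2,z2]),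
    (z3,[z4,z4,z5,z4,z4,y4]),(z3,[z4,z4,y4,z13,z4,y4]),(z6,[y13,y13,z13,y13,z5,z13]),(z3,[z1,y8,y10,y8,y8,z8])],
    .ref k12 k0 [(z3,[y2,z7,z0,z0,y2,z2]),(z3,[z4,z4,z9,z0,z4,y4]),(z3,[z4,z4,z0,z9,z4,y4]),(z6,[y13,y13,z0,z0,z5,
    z13]),(z3,[z1,y8,y9,y9,y8,z8])],.ref k12 k0 [(z1,[z4,z7,z0,z4,z0,y4]),(z1,[y8,y8,z3,y8,z0,z8]),(z1,[y8,y8,z0,y5,
    z0,z8]),(z1,[z13,z13,z0,z13,z3,y13]),(z1,[y2,y5,y3,y5,y3,z5])],.ref k12 k0 [(z1,[y1,z1,y1,y2,y2,z2]),(z1,[z2,z4,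
    z5,z4,z4,y4]),(z1,[z2,z4,z2,z7,z4,y4]),(z4,[y13,y26,y13,y26,y14,z26]),(z2,[z1,y4,y5,y4,y4,z4])],.ref k12 k0 [(z3,
    [y2,z7,y2,z2,y2,z2]),(z3,[z4,z4,z13,y4,z4,y4]),(z3,[z4,z4,z4,z5,z4,y4]),(z6,[y13,y13,y13,z13,z5,z13]),(z3,[z1,y8,
    y8,y10,y8,z8])],.ref k12 k0 [(z1,[z4,z7,z4,z0,z0,y4]),(z1,[y8,y8,y5,z0,z0,z8]),(z1,[y8,y8,y8,z3,z0,z8]),(z1,[z13,
    z13,z13,z0,z3,y13]),(z1,[y2,y5,y5,y3,y3,z5])],.ref k12 k0 [(z1,[y1,z1,y2,y1,y2,z2]),(z1,[z2,z4,z7,z2,z4,y4]),(z1,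
    [z2,z4,z4,z5,z4,y4]),(z4,[y13,y26,y26,y13,y14,z26]),(z2,[z1,y4,y4,y5,y4,z4])],.ref k12 k0 [(z1,[z2,z3,z0,y2,y2]),
    (z1,[y4,z0,z3,z4,z4]),(z1,[y4,z0,z0,z7,z4]),(z2,[z13,z0,z0,y13,y7]),(z1,[y1,y3,y3,y2,y2,z3])],.ref k12 k0 [(z3,
    [y4,z5,y4,z0,y4,z4]),(z3,[z8,z8,z17,z0,z8,y8]),(z3,[z8,z8,z8,z9,z8,y8]),(z3,[y13,y13,y13,z0,y4,z13]),(z3,[z2,y7,
    y7,y9,y7,z7])],.ref k12 k0 [(z3,[z4,z17,z8,z8,z4,y8]),(z3,[y8,y16,y7,y16,y8,z16]),(z3,[y8,y16,y16,y7,y8,z16]),(z3,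
    [z13,z26,z26,z26,z22,y26]),(z3,[y2,y13,y13,y13,y11,z13])],.ref k12 k0 [(z1,[z1,z4,z1,z1,z0,y1]),(z1,[y2,y2,z1,y2,
    z0,z2]),(z1,[y2,y2,y2,z1,z0,z2]),(z4,[z13,z13,z13,z13,z12,y13]),(z2,[y1,y7,y7,y7,y6,z7])],.ref k12 k0 [(z5,[z4,
    z15,z0,z0,y4]),(z5,[y8,z0,z15,z0,z8]),(z5,[y8,z0,z0,z15,z8]),(z5,[z13,z0,z0,z0,z2]),(z5,[y2,y15,y15,y15,y13,
    z15])],.ref k12 k0 [(z1,[y2,y3,y6,y6,y6,z6]),(z1,[z4,z12,z15,z12,z12,y12]),(z1,[z4,z12,z12,z15,z12,y12]),(z2,[y13,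
    y39,y39,y39,y33,z39]),(z1,[z1])],.ref k12 k0 [(z1,[z4,z3]),(z1,[y8,z0,z3]),(z1,[y8,z0,z0,z3]),(z1,[z13,z0,z0,z0,
    z3]),(z1,[y2,y3,y3,y3,y3,z3])]],
    .lp [k168,k170,k154,k164,k140,k162] [k1,k1,k0,k0,k8,k8,k3,k3,k15,k15,k4,k4] k0 [[k0,k0,k0,k0,k0,k0,k0,k0,k4,k0,k8],
    [k0,k0,k0,k0,k0,k0,k0,k8],[k0,k0,k0,k0,k8,k0,k0,k0,k0,k0,k10],[k0,k0,k0,k0,k0,k0,k0,k0,k0,k4],[k0,k0,k0,k0,k0,k0,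
    k12],[k0,k0,k0,k8],[k8],[k0,k0,k0,k0,k0,k12],[k0,k0,k4],[k0,k4,k0,k0,k0,k0,k0,k0,k0,k0,k0,k8],[k0,k0,k0,k0,k0,k0,
    k0,k0,k8],[k0,k8,k0,k10]] (nat_lit 480) k5
    [[(k2,k159),(k0,k160),(k4,k161),(k8,k162),(k10,k165),(k6,k166)],[(k1,k160),(k5,k161),(k11,k161),(k9,k162),(k7,
    k166),(k3,k169)],[(k6,k159),(k8,k159),(k4,k162),(k0,k169),(k2,k170),(k10,k174)],[(k9,k155),(k1,k159),(k7,k159),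
    (k5,k162),(k3,k170),(k11,k170)],[(k8,k143),(k6,k159),(k0,k161),(k2,k162),(k4,k162),(k10,k168)],[(k9,k135),(k11,
    k158),(k7,k159),(k1,k161),(k3,k162),(k5,k162)],[(k8,k152),(k2,k159),(k4,k159),(k10,k163),(k0,k166),(k6,k176)],
    [(k9,k152),(k3,k159),(k5,k159),(k11,k163),(k1,k166),(k7,k176)],[(k4,k135),(k8,k140),(k10,k151),(k6,k152),(k2,
    k155),(k0,k162)],[(k9,k140),(k5,k143),(k11,k151),(k7,k152),(k3,k159),(k1,k162)],[(k8,k151),(k10,k154),(k4,k158),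
    (k0,k161),(k6,k163),(k2,k170)],[(k9,k151),(k11,k154),(k7,k163),(k1,k165),(k5,k168),(k3,k174)]]
    [] k0
    [[k1,k0,k1,k0,k1,k0],[k1,k0,k0,k0,k2,k0],[k1,k0,k0,k0,k1,k1],[k0,k1,k1,k0,k1,k0],[k0,k1,k0,k1,k1,k0],[k0,k1,k0,k0,
    k2,k0],[k0,k0,k2,k0,k1,k0],[k0,k0,k1,k1,k1,k0],[k0,k0,k1,k0,k2,k0],[k0,k0,k1,k0,k1,k1],[k0,k0,k0,k1,k2,k0],[k0,k0,
    k0,k1,k1,k1],[k0,k0,k0,k0,k3,k0],[k0,k0,k0,k0,k2,k1],[k0,k0,k0,k0,k1,k2],[k0,k0,k0,k0,k0,k3]]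
    [.ref k12 k0 [(z1,[y7,z3,y7,z0,y7,z7]),(z1,[y4,z0,y1,z0,y4,z4]),(z1,[y4,z0,y4,z3,y4,z4]),(z1,[z2,z0,z2,z0,z5,y2]),
    (z1,[z14,y3,z11,y3,z11,y11])],.ref k12 k0 [(z1,[y1,z2,y2,y2,y2,z2]),(z7,[y4,y4,z13,y8,y8,z8]),(z7,[y4,y4,y8,z13,
    y8,z8]),(z7,[z2,z2,z4,z4,z25,y4]),(z1,[z2,y1,z1,z1,z1,y1])],.ref k12 k0 [(z2,[y7,z6,y7,y7,y7,z7]),(z1,[y2,z0,z1,
    y2,y2,z2]),(z1,[y2,z0,y2,z1,y2,z2]),(z1,[z1,z0,z1,z1,z4,y1]),(z1,[z7,y3,z4,z4,z4,y4])],.ref k12 k0 [(z2,[y7,y1,z0,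
    z0,y7,z7]),(z1,[y2,y2,z3,z0,y2,z2]),(z1,[y2,y2,z0,z3,y2,z2]),(z1,[z1,z1,z0,z0,z4,y1]),(z1,[z7,z4,y3,y3,z4,y4])],
    .ref k12 k0 [(z4,[y7,z5,z0,y7,z0,z7]),(z1,[y1,y1,z3,y1,z0,z1]),(z1,[y1,y1,z0,z2,z0,z1]),(z2,[z1,z1,z0,z1,z6,y1]),
    (z2,[z7,z1,y6,z1,y6,y1])],.ref k12 k0 [(z8,[y7,z10,y7,y14,y14,z14]),(z2,[y1,y2,z5,y2,y2,z2]),(z2,[y1,y2,y1,z4,y2,
    z2]),(z4,[z1,z2,z1,z2,z14,y2]),(z4,[z7,z2,y5,z2,z2,y2])],.ref k12 k0 [(z2,[y7,y1,y7,z7,y7,z7]),(z1,[y2,y2,z1,z2,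
    y2,z2]),(z1,[y2,y2,y2,z5,y2,z2]),(z1,[z1,z1,z1,y1,z4,y1]),(z1,[z7,z4,z4,y10,z4,y4])],.ref k12 k0 [(z4,[y7,z5,y7,
    z0,z0,z7]),(z1,[y1,y1,z2,z0,z0,z1]),(z1,[y1,y1,y1,z3,z0,z1]),(z2,[z1,z1,z1,z0,z6,y1]),(z2,[z7,z1,z1,y6,y6,y1])],
    .ref k12 k0 [(z8,[y7,z10,y14,y7,y14,z14]),(z2,[y1,y2,z4,y1,y2,z2]),(z2,[y1,y2,y2,z5,y2,z2]),(z4,[z1,z2,z2,z1,z14,
    y2]),(z4,[z7,z2,z2,y5,z2,y2])],.ref k12 k0 [(z3,[y7,z2,y7,z0,y7,z7]),(z3,[y4,y4,z5,z0,y4,z4]),(z3,[y4,y4,y4,z9,y4,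
    z4]),(z3,[z2,z2,z2,z0,z11,y2]),(z3,[z14,z5,z5,y9,z5,y5])],.ref k12 k0 [(z10,[y7,z16,y14,y14,y7,z14]),(z5,[y2,y4,
    z11,y4,y2,z4]),(z5,[y2,y4,y4,z11,y2,z4]),(z5,[z1,z2,z2,z2,z16,y2]),(z5,[z7,y1,y1,y1,y8,z1])],.ref k12 k0 [(z5,[y7,
    z8,y7,y7,z0,z7]),(z5,[y4,y4,z11,y4,z0,z4]),(z5,[y4,y4,y4,z11,z0,z4]),(z5,[z2,z2,z2,z2,z15,y2]),(z5,[z14,y1,y1,y1,
    y15,z1])],.ref k12 k0 [(z2,[y1,z3,y3,y3,y3,z3]),(z7,[y2,y6,z15,y6,y6,z6]),(z7,[y2,y6,y6,z15,y6,z6]),(z7,[z1,z3,z3,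
    z3,z24,y3]),(z1,[z1])],.ref k12 k0 [(z9,[y7,z13,y14,y14,y14,z14]),(z9,[y4,y8,z19,y8,y8,z8]),(z9,[y4,y8,y8,z19,y8,
    z8]),(z9,[z2,z4,z4,z4,z31,y4]),(z9,[z14,z1,z1,z1,z1,y1])],.ref k12 k0 [(z4,[y7,z5,y7,y7,y7,z7]),(z1,[y1,y1,z2,y1,
    y1,z1]),(z1,[y1,y1,y1,z2,y1,z1]),(z2,[z1,z1,z1,z1,z7,y1]),(z2,[z7,z1,z1,z1,z1,y1])],.ref k12 k0 [(z1,[z7,z3]),(z1,
    [z4,z0,z3]),(z1,[z4,z0,z0,z3]),(z1,[y2,z0,z0,z0,z3]),(z1,[y14,y3,y3,y3,y3,z3])]],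
    .lp [k166,k164,k164,k152,k148,k164] [k0,k0,k1,k1,k1,k1,k7,k7,k9,k9,k1,k1] k0 [[k0,k0,k0,k0,k0,k0,k0,k0,k4,k0,k4],[],
    [],[],[k0,k0,k0,k0,k0,k0,k0,k0,k0,k0,k2],[k0,k0,k0,k0,k0,k0,k0,k22,k0,k4],[k0,k0,k0,k0,k22],[k0,k0,k0,k0,k0,k0,k0,
    k0,k0,k2],[k0,k0,k0,k0,k4,k0,k2],[k0,k4,k0,k0,k0,k0,k0,k0,k0,k0,k0,k4],[k0,k0,k0,k0,k0,k0,k0,k0,k4],[k0,k4,k0,k0,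
    k0,k2]] (nat_lit 480) k5
    [[(k6,k159),(k8,k161),(k0,k162),(k4,k163),(k2,k165),(k10,k165)],[(k9,k157),(k7,k159),(k11,k161),(k1,k162),(k3,
    k165),(k5,k165)],[(k6,k158),(k8,k160),(k2,k164),(k4,k164),(k0,k165),(k10,k168)],[(k9,k156),(k7,k158),(k3,k164),
    (k5,k164),(k11,k164),(k1,k165)],[(k8,k156),(k6,k158),(k2,k164),(k4,k164),(k10,k164),(k0,k165)],[(k7,k158),(k1,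
    k163),(k3,k164),(k5,k164),(k11,k168),(k9,k178)],[(k6,k130),(k8,k146),(k2,k158),(k4,k158),(k0,k159),(k10,k160)],
    [(k7,k130),(k9,k150),(k3,k158),(k5,k158),(k1,k159),(k11,k160)],[(k8,k146),(k6,k150),(k2,k156),(k10,k156),(k0,
    k157),(k4,k178)],[(k7,k146),(k9,k146),(k5,k156),(k11,k156),(k3,k160),(k1,k161)],[(k8,k156),(k6,k160),(k10,k160),
    (k0,k161),(k2,k164),(k4,k168)],[(k9,k156),(k7,k160),(k11,k160),(k5,k164),(k1,k165),(k3,k168)]]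
    [] k0
    [[k1,k0,k1,k0,k1,k0],[k1,k0,k0,k2,k0,k0],[k1,k0,k0,k1,k1,k0],[k1,k0,k0,k0,k2,k0],[k1,k0,k0,k0,k1,k1],[k0,k1,k1,k0,
    k1,k0],[k0,k1,k0,k2,k0,k0],[k0,k1,k0,k1,k1,k0],[k0,k1,k0,k0,k2,k0],[k0,k0,k1,k2,k0,k0],[k0,k0,k1,k1,k1,k0],[k0,k0,
    k0,k3,k0,k0],[k0,k0,k0,k2,k1,k0],[k0,k0,k0,k2,k0,k1],[k0,k0,k0,k1,k2,k0],[k0,k0,k0,k1,k1,k1],[k0,k0,k0,k0,k3,k0],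
    [k0,k0,k0,k0,k2,k1],[k0,k0,k0,k0,k1,k2]]
    [.ref k12 k0 [(z1,[z4,y1,z0,y4]),(z1,[z4,y4,z3,y4]),(z1,[y2,z2,z0,z5]),(z1,[y7,z7,z0,z7,z1]),(z1,[z1,y1,z0,y1])],
    .ref k12 k0 [(z5,[y6,z21,z0,z0,z4]),(z5,[y6,z6,z15,z0,z4]),(z5,[z3,y3,z0,z15,y2]),(z10,[z21,y21,z0,z0,y4]),(z10,
    [y3,z3,z0,z0,z2])],.ref k12 k0 [(z1,[y6,z9,z0,z0,z2]),(z1,[y6,z6,z3,z0,z2]),(z1,[z3,y3,z0,z3,y1]),(z2,[z21,y21,z0,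
    z0,y5]),(z2,[y3,z3,z0,z0,z1])],.ref k12 k0 [(z1,[z2,z1]),(z1,[z2,y2,z3]),(z1,[y1,z1,z0,z3]),(z2,[y7,z7,z0,z0,z2]),
    (z2,[z1,y1])],.ref k12 k0 [(z5,[z12,z15,z12,z12,z4,y12]),(z5,[z12,z0,z27,z12,z4,y12]),(z5,[y6,z0,y6,z9,y2,z6]),
    (z5,[y21,z0,y21,y21,y2,z21]),(z5,[z3,z0,z3,z3,z1,y3])],.ref k12 k0 [(z1,[z4,z3,y4,y4]),(z1,[z4,z0,y1,y4]),(z1,[y2,
    z0,z2,z5]),(z1,[y7,z0,z7,z7,z1]),(z1,[z1,z0,y1,y1])],.ref k12 k0 [(z5,[y6,z15,z6,z0,z4]),(z5,[y6,z0,z21,z0,z4]),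
    (z5,[z3,z0,y3,z15,y2]),(z10,[z21,z0,y21,z0,y4]),(z10,[y3,z0,z3,z0,z2])],.ref k12 k0 [(z1,[y6,z3,z6,z0,z2]),(z1,
    [y6,z0,z9,z0,z2]),(z1,[z3,z0,y3,z3,y1]),(z2,[z21,z0,y21,z0,y5]),(z2,[y3,z0,z3,z0,z1])],.ref k12 k0 [(z1,[z2,z3,
    y2]),(z1,[z2,z0,z1]),(z1,[y1,z0,z1,z3]),(z2,[y7,z0,z7,z0,z2]),(z2,[z1,z0,y1])],.ref k12 k0 [(z4,[y3,z12,z0,z3,
    z2]),(z4,[y3,z0,z12,z3,z2]),(z8,[z3,z0,z0,z21,y2]),(z16,[z21,z0,z0,y21,z2]),(z16,[y3,z0,z0,z3,z2])],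
    .ref k12 k0 [(z2,[y3,z6,z0,z3,z1]),(z2,[y3,z0,z6,z3,z1]),(z4,[z3,z0,z0,z9,y1]),(z8,[z21,z0,z0,y21,z1]),(z8,[y3,z0,
    z0,z3,z1])],.ref k12 k0 [(z7,[y4,z21,z0,z0,z4]),(z7,[y4,z0,z21,z0,z4]),(z7,[z2,z0,z0,z21,y2]),(z1,[z1]),(z7,[y1,
    z0,z0,z0,z1])],.ref k12 k0 [(z13,[y12,z39,z0,z0,z8]),(z13,[y12,z0,z39,z0,z8]),(z13,[z6,z0,z0,z39,y4]),(z13,[z21,
    z0,z0,z0,y1]),(z13,[y3,z0,z0,z0,z2])],.ref k12 k0 [(z7,[y6,z15,y6,y6,z2,z6]),(z7,[y6,y6,z15,y6,z2,z6]),(z7,[z3,z3,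
    z3,z24,y1,y3]),(z2,[z3,z3,z3,z3,z1,y3]),(z14,[y3,y3,y3,y3,z1,z3])],.ref k12 k0 [(z5,[y12,z15,z0,z0,z4]),(z5,[y12,
    z0,z15,z0,z4]),(z5,[z6,z0,z0,z15,y2]),(z5,[z21,z0,z0,z0,y2]),(z5,[y3,z0,z0,z0,z1])],.ref k12 k0 [(z1,[y2,z1,y2,y2,
    z0,z2]),(z1,[y2,y2,z1,y2,z0,z2]),(z1,[z1,z1,z1,z4,z0,y1]),(z2,[z7,z7,z7,z7,z2,y7]),(z2,[y1,y1,y1,y1,z0,z1])],
    .ref k12 k0 [(z1,[z4,z3]),(z1,[z4,z0,z3]),(z1,[y2,z0,z0,z3]),(z1,[y7,z0,z0,z0,z1]),(z1,[z1])],.ref k12 k0 [(z1,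
    [z6,z9,z6,z6,z2,y6]),(z1,[z6,z6,z9,z6,z2,y6]),(z1,[y3,y3,y3,z0,y1,z3]),(z2,[y21,y21,y21,y21,y5,z21]),(z2,[z3,z3,
    z3,z3,z1,y3])],.ref k12 k0 [(z1,[z12,z27,z24,z24,z8,y24]),(z1,[z12,z24,z27,z24,z8,y24]),(z1,[y6,y12,y12,y9,y4,
    z12]),(z1,[y21,y42,y42,y42,y13,z42]),(z1,[z3,z6,z6,z6,z2,y6])]],
    .lp [k162,k162,k162,k150,k154,k168] [k3,k3,k3,k3,k3,k3,k9,k9,k7,k7,k0,k0] k0 [[k0,k0,k0,k0,k0,k0,k6,k0,k0,k0,k2],[k0,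
    k0,k0,k14,k0,k0,k0,k0,k0,k6],[k14,k0,k0,k0,k0,k0,k6],[k0,k0,k0,k0,k0,k0,k0,k0,k0,k0,k0,k14],[k0,k0,k0,k0,k0,k0,k0,
    k0,k26],[k0,k0,k0,k0,k0,k0,k0,k10],[k0,k0,k0,k0,k10,k0,k0,k0,k0,k0,k6],[k0,k6,k0,k6],[k6],[k0,k0,k0,k0,k0,k26,k0,
    k0,k0,k0,k0,k16],[k0,k0,k14,k0,k0,k0,k0,k0,k16],[k0,k2,k0,k0,k0,k0,k0,k6]] (nat_lit 480) k5
    [[(k6,k150),(k0,k160),(k4,k162),(k10,k165),(k8,k174),(k2,k176)],[(k9,k152),(k7,k156),(k1,k160),(k3,k162),(k11,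
    k171),(k5,k176)],[(k2,k148),(k8,k152),(k0,k162),(k4,k162),(k6,k162),(k10,k167)],[(k3,k148),(k9,k152),(k7,k156),
    (k5,k162),(k11,k165),(k1,k176)],[(k10,k151),(k8,k158),(k2,k162),(k4,k162),(k6,k162),(k0,k176)],[(k11,k139),(k7,
    k156),(k1,k162),(k3,k162),(k5,k162),(k9,k168)],[(k6,k140),(k0,k156),(k2,k156),(k4,k156),(k10,k159),(k8,k178)],
    [(k7,k140),(k1,k150),(k9,k152),(k11,k159),(k3,k162),(k5,k162)],[(k0,k152),(k2,k152),(k6,k152),(k8,k154),(k10,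
    k167),(k4,k168)],[(k3,k152),(k9,k154),(k5,k158),(k11,k161),(k1,k174),(k7,k178)],[(k4,k139),(k10,k152),(k6,k159),
    (k8,k161),(k2,k165),(k0,k171)],[(k5,k151),(k11,k152),(k7,k159),(k1,k165),(k3,k167),(k9,k167)]]
    [] k0
    [[k2,k0,k0,k1,k0,k0],[k1,k0,k1,k0,k1,k0],[k1,k1,k0,k1,k0,k0],[k1,k0,k0,k2,k0,k0],[k1,k0,k0,k0,k1,k1],[k0,k3,k0,k0,
    k0,k0],[k0,k2,k1,k0,k0,k0],[k0,k2,k0,k1,k0,k0],[k0,k2,k0,k0,k1,k0],[k0,k1,k1,k0,k1,k0],[k0,k1,k1,k0,k0,k1],[k0,k1,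
    k0,k2,k0,k0],[k0,k1,k0,k1,k1,k0],[k0,k1,k0,k0,k2,k0],[k0,k0,k2,k0,k0,k1],[k0,k0,k1,k2,k0,k0],[k0,k0,k1,k1,k0,k1],
    [k0,k0,k1,k1,k1,k0],[k0,k0,k1,k0,k1,k1],[k0,k0,k1,k0,k0,k2],[k0,k0,k0,k3,k0,k0],[k0,k0,k0,k2,k1,k0],[k0,k0,k0,k2,
    k0,k1],[k0,k0,k0,k1,k1,k1],[k0,k0,k0,k1,k0,k2],[k0,k0,k0,k0,k3,k0],[k0,k0,k0,k0,k0,k3]]
    [.ref (nat_lit 385) k0 [(z1,[z4,y3,z4,z4,y4]),(z1,[z4,y4,z5,z4,y4]),(z1,[y2,z2,y2,y1,z2]),(z1,[y7,z6,y8,y8,z8])],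
    .ref k22 k0 [(z1,[z4,y1,z0,y4]),(z1,[z4,y4,z3,y4]),(z1,[y2,z2,z0,z5]),(z1,[y7,z4,y3,z4,z3])],
    .ref (nat_lit 385) k0 [(z1,[z4,z1,z0,z4,y4]),(z1,[z4,z0,z1,z4,y4]),(z1,[y2,z0,z0,y1,z2]),(z1,[y7,y1,y1,y8,z8])],
    .ref k109 k7 [(z2,[z1,y1,z0,y2]),(z1,[z0,z0,z0,z1]),(z1,[y1,y1,y2,y7,z2]),(z1,[z0,z1,z0,z2])],.ref k109 k7 [(z1,
    [y1,z0,y1,y2,z1]),(z1,[z0,z0,z0,z1]),(z1,[z2,y2,z0,y5]),(z1,[z0,z1,z0,z2])],.ref k22 k0 [(z1,[z1,z3,y3]),(z1,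
    [z1]),(z2,[y1,z0,z3,z6]),(z4,[y7,y12,z9,y12,z12])],.ref k22 k0 [(z1,[z2,z3,y4,y2]),(z1,[z2,z0,y1,y2]),(z1,[y1,z0,
    z2,z4]),(z2,[y7,y6,z8,z1,z6])],.ref (nat_lit 385) k0 [(z1,[z4,z5,y4,z4,y4]),(z1,[z4,z4,y3,z4,y4]),(z1,[y2,y2,z2,
    y1,z2]),(z1,[y7,y8,z6,y8,z8])],.ref k22 k0 [(z3,[z4,z9,y8]),(z3,[z4,z0,z1]),(z3,[y2,z0,z4,z9]),(z3,[y7,y9,z5,y9,
    z9])],.ref k22 k0 [(z1,[z4,z3,y4,y4]),(z1,[z4,z0,y1,y4]),(z1,[y2,z0,z2,z5]),(z1,[y7,y3,z4,z4,z3])],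
    .ref k20 k7 [(z1,[y2,y2,z0,y5,z2]),(z1,[z0,z0,z0,z1]),(z1,[z1,z0,y1,y2]),(z1,[z0,z1,z0,z2])],.ref k109 k7 [(z2,
    [z1,z0,y1,y2]),(z1,[z0,z0,z0,z1]),(z1,[y1,y2,y1,y7,z2]),(z1,[z0,z1,z0,z2])],.ref k20 k7 [(z1,[z2,z0,y2,y5]),(z1,
    [z0,z0,z0,z1]),(z1,[y1,y1,z0,y2,z1]),(z1,[z0,z1,z0,z2])],.ref k22 k0 [(z1,[z2,z3,y2]),(z1,[z2,z0,z1]),(z1,[y1,z0,
    z1,z3]),(z2,[y7,y6,z1,y6,z6])],.ref (nat_lit 399) k7 [(z1,[y2,y2,y2,y9,z2]),(z1,[z0,z0,z0,z1]),(z1,[z1]),(z1,[z0,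
    z1,z0,z2])],.ref k113 k3 [(z1,[z0,y1,z1]),(z1,[z0,z1,z0,z2]),(z1,[z2,y1,z0,y2]),(z1,[z0,y1])],.ref k22 k0 [(z3,
    [y4,z5,y4,z0,z4]),(z3,[y4,y4,z5,z0,z4]),(z3,[z2,z2,z2,z9,y2]),(z3,[z7,y2,y2,y9,z2])],.ref k113 k3 [(z1,[z0,y1,
    z1]),(z1,[z0,z1,z0,z2]),(z1,[z4,y1,z0,y4]),(z1,[z0,y1])],.ref (nat_lit 385) k0 [(z1,[y4,z1,z0,z4]),(z1,[y4,z0,z1,
    z4]),(z1,[z2,z0,z0,y1]),(z1,[z7,y1,y1,y8,z1])],.ref (nat_lit 385) k0 [(z1,[y2,z1,z0,z2]),(z1,[y2,z0,z1,z2]),(z1,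
    [z1]),(z2,[z7,y2,y2,y9,z2])],.ref (nat_lit 400) k3 [(z1,[z0,y1,z1]),(z1,[z0,z1,z0,z2]),(z1,[z1]),(z1,[z0,y1])],
    .ref (nat_lit 401) k5 [(z1,[y2,z0,z0,z1]),(z1,[z4,z0,z1]),(z1,[z4,z1]),(z1,[y7,y1,y1,y1,z1])],
    .ref (nat_lit 303) k2 [(z1,[z1,z1,z1,z1,y1]),(z1,[z0,z0,z0,z1]),(z1,[z0,z0,z1]),(z1,[z0,z1])],.ref k22 k0 [(z1,
    [y2,z1,y2,y2,z2]),(z1,[y2,y2,z1,y2,z2]),(z1,[z1,z1,z1,z4,y1]),(z2,[z7,z1,z1,z1,y1])],.ref (nat_lit 402) k4 [(z1,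
    [z1,z1,z1,z1,y1]),(z1,[z0,z1]),(z1,[z0,z0,z1]),(z1,[z0,z0,z0,z1])],.ref k22 k0 [(z1,[z4,z3]),(z1,[z4,z0,z3]),(z1,
    [y2,z0,z0,z3]),(z1,[y7,y3,y3,y3,z3])],.ref (nat_lit 403) k0 [(z1,[z0,z1]),(z1,[z0,z0,z1]),(z1,[z0,z0,z0,z1]),(z1,
    [y1,y3,y3,y3,z3])]],
    .lp [k168,k170,k154,k164,k140,k162] [k1,k1,k0,k0,k8,k8,k3,k3,k15,k15,k4,k4] k0 [[k0,k0,k0,k0,k0,k0,k0,k0,k4,k0,k8],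
    [k0,k0,k0,k0,k0,k0,k0,k8],[k0,k0,k0,k0,k8,k0,k0,k0,k0,k0,k10],[k0,k0,k0,k0,k0,k0,k0,k0,k0,k4],[k0,k0,k0,k0,k0,k0,
    k12],[k0,k0,k0,k8],[k8],[k0,k0,k0,k0,k0,k12],[k0,k0,k4],[k0,k4,k0,k0,k0,k0,k0,k0,k0,k0,k0,k8],[k0,k0,k0,k0,k0,k0,
    k0,k0,k8],[k0,k8,k0,k10]] (nat_lit 480) k5
    [[(k2,k159),(k0,k160),(k4,k161),(k8,k162),(k10,k165),(k6,k166)],[(k1,k160),(k5,k161),(k11,k161),(k9,k162),(k7,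
    k166),(k3,k169)],[(k6,k159),(k8,k159),(k4,k162),(k0,k169),(k2,k170),(k10,k174)],[(k9,k155),(k1,k159),(k7,k159),
    (k5,k162),(k3,k170),(k11,k170)],[(k8,k143),(k6,k159),(k0,k161),(k2,k162),(k4,k162),(k10,k168)],[(k9,k135),(k11,
    k158),(k7,k159),(k1,k161),(k3,k162),(k5,k162)],[(k8,k152),(k2,k159),(k4,k159),(k10,k163),(k0,k166),(k6,k176)],
    [(k9,k152),(k3,k159),(k5,k159),(k11,k163),(k1,k166),(k7,k176)],[(k4,k135),(k8,k140),(k10,k151),(k6,k152),(k2,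
    k155),(k0,k162)],[(k9,k140),(k5,k143),(k11,k151),(k7,k152),(k3,k159),(k1,k162)],[(k8,k151),(k10,k154),(k4,k158),
    (k0,k161),(k6,k163),(k2,k170)],[(k9,k151),(k11,k154),(k7,k163),(k1,k165),(k5,k168),(k3,k174)]]
    [] k0
    [[k1,k0,k1,k0,k1,k0],[k1,k0,k0,k0,k2,k0],[k1,k0,k0,k0,k1,k1],[k0,k1,k1,k0,k1,k0],[k0,k1,k0,k1,k1,k0],[k0,k1,k0,k0,
    k2,k0],[k0,k0,k2,k0,k1,k0],[k0,k0,k1,k1,k1,k0],[k0,k0,k1,k0,k2,k0],[k0,k0,k1,k0,k1,k1],[k0,k0,k0,k1,k2,k0],[k0,k0,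
    k0,k1,k1,k1],[k0,k0,k0,k0,k3,k0],[k0,k0,k0,k0,k2,k1],[k0,k0,k0,k0,k1,k2],[k0,k0,k0,k0,k0,k3]]
    [.ref k12 k0 [(z1,[z8,z3,z4,z0,z8,y8]),(z1,[y1,z0,z1,z0,y1,z1]),(z2,[z22,z0,z11,z3,z22,y22]),(z1,[y4,z0,y2,z0,y1,
    z4]),(z2,[y32,y6,y19,y3,y38,z38])],.ref k12 k0 [(z1,[y1,z2,y1,y1,y2,z2]),(z8,[z1,z1,z13,z1,z2,y2]),(z8,[y11,y11,
    y11,z1,y22,z22]),(z2,[z1,z1,z1,z1,z8,y2]),(z2,[z4,y2,z1,z1,z2,y2])],.ref k12 k0 [(z1,[y4,z3,y2,y2,y4,z4]),(z4,[z2,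
    z0,z7,z1,z2,y2]),(z4,[y22,z0,y11,y5,y22,z22]),(z1,[z2,z0,z1,z1,z5,y2]),(z2,[z16,y6,z5,z5,z10,y10])],
    .ref k12 k0 [(z1,[y4,y1,z0,z0,y4,z4]),(z2,[z1,z1,z3,z0,z1,y1]),(z2,[y11,y11,z0,z3,y11,z11]),(z1,[z2,z2,z0,z0,z5,
    y2]),(z2,[z16,z10,y3,y3,z10,y10])],.ref k12 k0 [(z7,[y8,z13,z0,y4,z0,z8]),(z14,[z2,z2,z21,z1,z0,y2]),(z7,[y11,y11,
    z0,z5,z0,z11]),(z7,[z4,z4,z0,z2,z21,y4]),(z14,[z32,y10,y21,y5,y42,z10])],.ref k12 k0 [(z11,[y8,z17,y4,y8,y16,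
    z16]),(z11,[z1,z2,z17,z1,z2,y2]),(z2,[y2,y4,y1,z1,y4,z4]),(z11,[z4,z8,z2,z4,z41,y8]),(z22,[z32,y2,y17,y1,y2,z2])],
    .ref k12 k0 [(z1,[z4,z7,z2,y2,z4,y4]),(z4,[y2,y2,z5,z1,y2,z2]),(z4,[z22,z22,z11,y5,z22,y22]),(z1,[y2,y2,y1,z1,z1,
    z2]),(z2,[y16,y22,y11,z5,y22,z22])],.ref k12 k0 [(z3,[y8,z1,y4,z0,z0,z8]),(z3,[z1,z1,z5,z0,z0,y1]),(z6,[y22,y22,
    y11,z9,z0,z22]),(z3,[z4,z4,z2,z0,z9,y4]),(z6,[z32,z14,z7,y9,y18,y14])],.ref k12 k0 [(z7,[y8,z5,y8,y4,y16,z16]),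
    (z14,[z2,z4,z23,z1,z4,y4]),(z7,[y11,y22,y11,z5,y22,z22]),(z7,[z4,z8,z4,z2,z29,y8]),(z14,[z32,z22,z11,y5,z22,
    y22])],.ref k12 k0 [(z1,[y8,y5,y4,z0,y8,z8]),(z1,[z1,z1,z2,z0,z1,y1]),(z2,[y22,y22,y11,z3,y22,z22]),(z1,[z4,z4,z2,
    z0,z7,y4]),(z2,[z32,z26,z13,y3,z26,y26])],.ref k12 k0 [(z3,[y2,z5,y2,y2,y2,z4]),(z12,[z1,z2,z19,z1,z1,y2]),(z12,
    [y11,y22,y11,z7,y11,z22]),(z3,[z1,z2,z1,z1,z10,y2]),(z6,[z8,y2,y1,y1,y10,z2])],.ref k12 k0 [(z3,[y4,z5,y2,y2,z0,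
    z4]),(z12,[z2,z2,z19,z1,z0,y2]),(z12,[y22,y22,y11,z7,z0,z22]),(z3,[z2,z2,z1,z1,z9,y2]),(z6,[z16,y2,y1,y1,y18,
    z2])],.ref k12 k0 [(z4,[y2,z6,y3,y3,y6,z6]),(z32,[z2,z6,z51,z3,z6,y6]),(z32,[y22,y66,y33,z15,y66,z66]),(z8,[z2,z6,
    z3,z3,z30,y6]),(z1,[z1])],.ref k12 k0 [(z5,[y4,z7,y4,y4,y8,z8]),(z10,[z1,z2,z16,z1,z2,y2]),(z10,[y11,y22,y11,z4,
    y22,z22]),(z5,[z2,z4,z2,z2,z19,y4]),(z10,[z16,z2,z1,z1,z2,y2])],.ref k12 k0 [(z1,[y2,z1,y1,y1,y2,z2]),(z8,[z2,z2,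
    z13,z1,z2,y2]),(z8,[y22,y22,y11,z1,y22,z22]),(z2,[z2,z2,z1,z1,z8,y2]),(z2,[z8,z2,z1,z1,z2,y2])],.ref k12 k0 [(z1,
    [z4,z3]),(z2,[y1,z0,z3]),(z2,[z11,z0,z0,z3]),(z1,[y2,z0,z0,z0,z3]),(z2,[y16,y6,y3,y3,y6,z6])]]]

noncomputable def cT6_3_n9_1 : List TN :=
  [.lp [k176,k166,k162,k156,k146,k152] [k0,k0,k5,k5,k7,k7,k10,k10,k15,k15,k12,k12] k0 [[k0,k0,k2,k0,k0,k0,k0,k0,k0,k0,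
    k16],[k0,k0,k0,k0,k0,k4,k0,k4],[k0,k0,k0,k0,k0,k0,k0,k0,k0,k0,k12],[k0,k2,k0,k0,k0,k0,k0,k0,k0,k16],[k4,k0,k0,k0,
    k0,k0,k24],[k0,k0,k0,k0,k0,k0,k0,k0,k0,k2],[k4,k0,k0,k0,k0,k0,k0,k0,k8],[k0,k0,k0,k0,k0,k24],[k0,k0,k16,k0,k2],
    [k0,k0,k0,k0,k0,k0,k0,k8],[],[k0,k16,k0,k12]] (nat_lit 480) k5
    [[(k2,k159),(k0,k160),(k8,k161),(k10,k164),(k6,k166),(k4,k169)],[(k1,k160),(k11,k164),(k9,k165),(k5,k167),(k7,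
    k170),(k3,k171)],[(k8,k156),(k6,k157),(k4,k160),(k2,k168),(k0,k171),(k10,k175)],[(k9,k156),(k1,k159),(k7,k161),
    (k5,k164),(k3,k168),(k11,k175)],[(k8,k138),(k6,k159),(k4,k162),(k2,k164),(k0,k167),(k10,k169)],[(k9,k130),(k7,
    k159),(k11,k159),(k3,k160),(k5,k162),(k1,k169)],[(k8,k149),(k10,k154),(k4,k159),(k2,k161),(k0,k170),(k6,k180)],
    [(k11,k146),(k9,k151),(k3,k157),(k5,k159),(k1,k166),(k7,k180)],[(k4,k130),(k10,k149),(k6,k151),(k8,k154),(k2,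
    k156),(k0,k165)],[(k5,k138),(k7,k149),(k11,k149),(k9,k154),(k3,k156),(k1,k161)],[(k6,k146),(k8,k149),(k10,k152),
    (k4,k159),(k0,k164),(k2,k175)],[(k9,k149),(k11,k152),(k7,k154),(k1,k164),(k5,k169),(k3,k175)]]
    [] k0
    [[k1,k0,k1,k0,k1,k0],[k1,k0,k0,k0,k1,k1],[k0,k1,k1,k0,k1,k0],[k0,k1,k0,k1,k1,k0],[k0,k1,k0,k0,k2,k0],[k0,k0,k2,k0,
    k1,k0],[k0,k0,k1,k1,k1,k0],[k0,k0,k1,k1,k0,k1],[k0,k0,k1,k0,k2,k0],[k0,k0,k1,k0,k1,k1],[k0,k0,k0,k1,k2,k0],[k0,k0,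
    k0,k1,k1,k1],[k0,k0,k0,k1,k0,k2],[k0,k0,k0,k0,k3,k0],[k0,k0,k0,k0,k2,k1],[k0,k0,k0,k0,k1,k2],[k0,k0,k0,k0,k0,k3]]
    [.ref k12 k0 [(z1,[z14,z3,z14,z0,z7,y14]),(z1,[y4,z0,y1,z0,y2,z4]),(z1,[y4,z0,y4,z3,y2,z4]),(z1,[y1,z0,y1,z0,z1,
    z1]),(z1,[y7,y3,y10,y3,y5,z10])],.ref k12 k0 [(z3,[z14,z9,z14,z14,z7,y14]),(z3,[y4,z0,z5,y4,y2,z4]),(z3,[y4,z0,y4,
    z5,y2,z4]),(z3,[y1,z0,y1,y1,z4,z1]),(z3,[y7,y9,y16,y16,y8,z16])],.ref k12 k0 [(z5,[y14,z1,z0,z0,y7,z14]),(z5,[z4,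
    z4,z15,z0,z2,y4]),(z5,[z4,z4,z0,z15,z2,y4]),(z5,[z1,z1,z0,z0,z8,y1]),(z5,[z7,y8,y15,y15,y4,z8])],.ref k12 k0 [(z2,
    [y7,y1,z0,y7,z0,z7]),(z1,[z1,z1,z3,z1,z0,y1]),(z1,[z1,z1,z0,z4,z0,y1]),(z4,[z1,z1,z0,z1,z6,y1]),(z4,[z7,y5,y12,y5,
    y6,z5])],.ref k12 k0 [(z3,[y7,y5,y7,y14,y7,z14]),(z3,[z2,z4,z11,z4,z2,y4]),(z3,[z2,z4,z2,z13,z2,y4]),(z6,[z1,z2,
    z1,z2,z10,y2]),(z6,[z7,y4,y11,y4,y2,z4])],.ref k12 k0 [(z5,[y14,z1,y14,z14,y7,z14]),(z5,[z4,z4,z19,y4,z2,y4]),(z5,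
    [z4,z4,z4,z11,z2,y4]),(z5,[z1,z1,z1,y1,z8,y1]),(z5,[z7,y8,y8,y22,y4,z8])],.ref k12 k0 [(z2,[y7,y1,y7,z0,z0,z7]),
    (z1,[z1,z1,z4,z0,z0,y1]),(z1,[z1,z1,z1,z3,z0,y1]),(z4,[z1,z1,z1,z0,z6,y1]),(z4,[z7,y5,y5,y12,y6,z5])],
    .ref k12 k0 [(z1,[y14,z3,z0,z14,z7]),(z1,[z4,z0,z3,y4,y2]),(z1,[z4,z0,z0,y1,y2]),(z1,[z1,z0,z0,y1,z1]),(z1,[z7,y3,
    y3,y10,y5,z3])],.ref k12 k0 [(z3,[y7,y5,y14,y7,y7,z14]),(z3,[z2,z4,z13,z2,z2,y4]),(z3,[z2,z4,z4,z11,z2,y4]),(z6,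
    [z1,z2,z2,z1,z10,y2]),(z6,[z7,y4,y4,y11,y2,z4])],.ref k12 k0 [(z3,[y14,y5,y14,z0,y7,z14]),(z3,[z4,z4,z13,z0,z2,
    y4]),(z3,[z4,z4,z4,z9,z2,y4]),(z3,[z1,z1,z1,z0,z5,y1]),(z3,[z7,y2,y2,y9,y1,z2])],.ref k12 k0 [(z5,[y14,y13,y28,
    y28,y7,z28]),(z5,[z4,z8,z23,z8,z2,y8]),(z5,[z4,z8,z8,z23,z2,y8]),(z5,[z1,z2,z2,z2,z8,y2]),(z5,[z7,y1,y1,y1,y4,
    z1])],.ref k12 k0 [(z1,[y7,y4,y7,y7,z0,z7]),(z1,[z2,z2,z5,z2,z0,y2]),(z1,[z2,z2,z2,z5,z0,y2]),(z2,[z1,z1,z1,z1,z3,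
    y1]),(z2,[z7,z1,z1,z1,y3,y1])],.ref k12 k0 [(z1,[z14,z3,z0,z0,y7]),(z1,[y4,z0,z3,z0,z2]),(z1,[y4,z0,z0,z3,z2]),
    (z1,[y1,z0,z0,z0,z2]),(z1,[y7,y3,y3,y3,z2,z3])],.ref k12 k0 [(z1,[y2,y3,y6,y6,y3,z6]),(z7,[z4,z12,z33,z12,z6,
    y12]),(z7,[z4,z12,z12,z33,z6,y12]),(z7,[z1,z3,z3,z3,z12,y3]),(z1,[z1])],.ref k12 k0 [(z2,[y7,y8,y14,y14,y7,z14]),
    (z1,[z1,z2,z5,z2,z1,y2]),(z1,[z1,z2,z2,z5,z1,y2]),(z4,[z1,z2,z2,z2,z7,y2]),(z4,[z7,z2,z2,z2,z1,y2])],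
    .ref k12 k0 [(z1,[y14,y11,y14,y14,y7,z14]),(z1,[z4,z4,z7,z4,z2,y4]),(z1,[z4,z4,z4,z7,z2,y4]),(z1,[z1,z1,z1,z1,z2,
    y1]),(z1,[z7,z4,z4,z4,z2,y4])],.ref k12 k0 [(z1,[z7,z3]),(z1,[y2,z0,z3]),(z1,[y2,z0,z0,z3]),(z2,[y1,z0,z0,z0,z3]),
    (z2,[y7,y6,y6,y6,y3,z6])]],
    .lp [(nat_lit 320),(nat_lit 322),(nat_lit 322),(nat_lit 330),(nat_lit 318),(nat_lit 306)] [k5,k5,k4,k4,k4,k4,k0,k0,k6,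
    k6,k12,k12] k0 [[k0,k0,k0,k0,k0,k0,k30],[k0,k0,k0,k16],[k16,k0,k0,k0,k0,k0,k0,k0,k4],[k0,k0,k0,k0,k0,k0,k0,k14,k0,
    k0,k0,k12],[k0,k0,k0,k0,k0,k0,k0,k0,k4],[k0,k0,k0,k0,k0,k0,k0,k0,k0,k0,k0,k24],[k0,k0,k14,k0,k0,k0,k0,k0,k0,k0,
    k20],[k0,k30,k0,k0,k0,k0,k0,k0,k0,k2],[k0,k0,k0,k0,k0,k0,k2,k0,k0,k0,k42],[k0,k0,k0,k4,k0,k4],[k0,k0,k12,k0,k24],
    [k0,k0,k0,k0,k0,k0,k0,k20,k0,k42]] (nat_lit 960) k5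
    [[(k8,(nat_lit 277)),(k6,(nat_lit 305)),(k10,(nat_lit 313)),(k0,(nat_lit 320)),(k2,(nat_lit 333)),(k4,
    (nat_lit 345))],[(k9,(nat_lit 289)),(k11,(nat_lit 313)),(k1,(nat_lit 320)),(k3,(nat_lit 321)),(k7,(nat_lit 325)),
    (k5,(nat_lit 337))],[(k2,(nat_lit 306)),(k10,(nat_lit 314)),(k8,(nat_lit 320)),(k0,(nat_lit 321)),(k4,
    (nat_lit 322)),(k6,(nat_lit 356))],[(k3,(nat_lit 306)),(k11,(nat_lit 310)),(k5,(nat_lit 322)),(k7,(nat_lit 326)),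
    (k1,(nat_lit 333)),(k9,(nat_lit 334))],[(k10,(nat_lit 302)),(k6,(nat_lit 312)),(k2,(nat_lit 322)),(k4,
    (nat_lit 322)),(k8,(nat_lit 324)),(k0,(nat_lit 337))],[(k11,(nat_lit 310)),(k9,(nat_lit 320)),(k3,(nat_lit 322)),
    (k5,(nat_lit 322)),(k7,(nat_lit 326)),(k1,(nat_lit 345))],[(k10,(nat_lit 294)),(k0,(nat_lit 325)),(k2,
    (nat_lit 326)),(k4,(nat_lit 326)),(k8,(nat_lit 328)),(k6,(nat_lit 330))],[(k1,(nat_lit 305)),(k5,(nat_lit 312)),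
    (k11,(nat_lit 320)),(k9,(nat_lit 324)),(k7,(nat_lit 330)),(k3,(nat_lit 356))],[(k0,(nat_lit 289)),(k8,
    (nat_lit 316)),(k4,(nat_lit 320)),(k6,(nat_lit 324)),(k10,(nat_lit 332)),(k2,(nat_lit 334))],[(k1,(nat_lit 277)),
    (k11,(nat_lit 312)),(k9,(nat_lit 316)),(k3,(nat_lit 320)),(k5,(nat_lit 324)),(k7,(nat_lit 328))],[(k2,
    (nat_lit 310)),(k4,(nat_lit 310)),(k8,(nat_lit 312)),(k0,(nat_lit 313)),(k6,(nat_lit 320)),(k10,(nat_lit 348))],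
    [(k7,(nat_lit 294)),(k5,(nat_lit 302)),(k1,(nat_lit 313)),(k3,(nat_lit 314)),(k9,(nat_lit 332)),(k11,
    (nat_lit 348))]]
    [] k0
    [[k2,k0,k0,k1,k0,k0],[k2,k0,k0,k0,k1,k0],[k2,k0,k0,k0,k0,k1],[k1,k1,k0,k0,k1,k0],[k1,k0,k1,k0,k1,k0],[k1,k1,k0,k1,
    k0,k0],[k1,k0,k0,k1,k1,k0],[k1,k0,k0,k1,k0,k1],[k1,k0,k0,k0,k2,k0],[k1,k0,k0,k0,k1,k1],[k1,k1,k0,k0,k0,k1],[k0,k3,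
    k0,k0,k0,k0],[k0,k2,k1,k0,k0,k0],[k0,k2,k0,k0,k0,k1],[k0,k1,k1,k0,k0,k1],[k0,k0,k2,k0,k0,k1],[k0,k0,k1,k1,k0,k1],
    [k0,k0,k1,k0,k1,k1],[k0,k0,k0,k2,k0,k1],[k0,k0,k0,k1,k1,k1],[k0,k0,k0,k0,k3,k0]]
    [.ref (nat_lit 405) k7 [(z1,[z1,y2,z0,y4]),(z1,[z0,z0,z0,z1]),(z1,[z2,y2,z2,y9,y2]),(z1,[z0,z1,z0,z2])],
    .ref (nat_lit 320) k4 [(z3,[y1,z5,z3,z3,y3]),(z3,[z4,z1]),(z1,[z0,y2,y1,y2,z2]),(z3,[y2,z4,z0,z9])],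
    .ref (nat_lit 339) k7 [(z1,[z2,y6,y2,y7,z2]),(z1,[z0,z0,z0,z1]),(z1,[z1,y2,z0,y4]),(z1,[z0,z1,z0,z2])],
    .ref k106 k10 [(z1,[z2,y2,z0,y5]),(z1,[z0,z1,z0,z2]),(z1,[y2,z2,z2,y1]),(z1,[z0,z0,z0,z1])],
    .ref (nat_lit 320) k4 [(z1,[y1,z2,z1,z2,y1]),(z1,[z4,y1,z0,y4]),(z1,[z0,y2,y1,y2,z2]),(z1,[y2,z2,z0,z5])],
    .ref (nat_lit 375) k10 [(z1,[z2,z0,z1,y2,y2]),(z1,[z0,z1,z0,z2]),(z1,[y2,z0,z0,y1,z2]),(z1,[z0,z0,z0,z1])],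
    .ref (nat_lit 339) k7 [(z1,[z2,y2,z0,y5]),(z1,[z0,z0,z0,z1]),(z1,[z1,z0,z1,y3,y1]),(z1,[z0,z1,z0,z2])],
    .ref (nat_lit 369) k5 [(z1,[y2,z4,z2,z3,y2]),(z1,[z0,y2,y1,y2,z2]),(z1,[z4,y7,y4,y4,z4]),(z1,[y3,z7,z4,z4,y4])],
    .ref (nat_lit 320) k4 [(z2,[y1,z3,z2,z2,y2]),(z1,[z2,z1]),(z1,[z0,y2,y1,y2,z2]),(z1,[y1,z1,z0,z3])],
    .ref k109 k7 [(z1,[z1,y2,y1,y2,z1]),(z1,[z0,z0,z0,z1]),(z1,[z2,y2,z0,y5]),(z1,[z0,z1,z0,z2])],.ref k23 k6 [(z1,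
    [y2,z2,z1,z1]),(z1,[z0,y2,y1,y2,z2]),(z1,[z2,y2,y1]),(z1,[y3,z3,z2])],.ref (nat_lit 386) k7 [(z2,[y1,y6,y3,y6,
    z6]),(z1,[z0,z0,z0,z1]),(z1,[y1,z0,z3,y9]),(z1,[z0,z1,z0,z2])],.ref (nat_lit 369) k5 [(z1,[z1,z4,z2,z4,y4]),(z1,
    [z0,y2,y1,y2,z2]),(z1,[y2,y7,y4,y6,z8]),(z2,[z3,z14,z8,z11,y14])],.ref (nat_lit 394) k11 [(z1,[y4,z3,z2]),(z1,
    [z1]),(z1,[y2,z0,z1]),(z1,[z0,y2,y1,y2,z2])],.ref (nat_lit 339) k7 [(z1,[y2,y2,z0,y5,z2]),(z1,[z0,z0,z0,z1]),(z1,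
    [y1,z0,z1,y3]),(z1,[z0,z1,z0,z2])],.ref (nat_lit 406) k10 [(z1,[y2,z0,z1,y3]),(z1,[z0,z1,z0,z2]),(z1,[z1]),(z1,
    [z0,z0,z0,z1])],.ref k106 k10 [(z1,[y2,y2,z0,y5,z2]),(z1,[z0,z1,z0,z2]),(z1,[z2,z2,z2,y1,y2]),(z1,[z0,z0,z0,z1])],
    .ref (nat_lit 375) k10 [(z1,[y2,z0,z1,y2]),(z1,[z0,z1,z0,z2]),(z1,[z2,z0,z0,y1]),(z1,[z0,z0,z0,z1])],
    .ref k23 k6 [(z3,[z2,z4,z1,z7,y4]),(z1,[z0,y2,y1,y2,z2]),(z3,[y2,y4,y1,y4,z4]),(z1,[z1,z2,z1,z2,y2])],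
    .ref k23 k6 [(z1,[z1,z1,z0,z2,y1]),(z1,[z0,y2,y1,y2,z2]),(z1,[y1,y1,z0,y1,z1]),(z2,[z3,z3,z1,z3,y3])],
    .ref (nat_lit 320) k4 [(z1,[y1,z1,z1,z1,y1]),(z1,[z4,z3]),(z1,[z0,y2,y1,y2,z2]),(z1,[y2,z0,z0,z3])]],
    .lp [k160,k170,k174,k152,k126,k176] [k8,k8,k3,k3,k1,k1,k12,k12,k25,k25,k0,k0] k0 [[k0,k0,k0,k0,k0,k0,k14,k0,k26],[k0,
    k0,k0,k20,k0,k2],[k20,k0,k0,k0,k6],[k0,k0,k0,k0,k0,k0,k0,k8],[k2,k0,k0,k0,k0,k0,k0,k0,k50],[k0,k0,k0,k6],[k0,k0,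
    k8],[k0,k14,k0,k0,k0,k0,k0,k0,k0,k0,k0,k18],[k0,k0,k0,k0,k0,k0,k0,k0,k0,k0,k20],[k0,k26,k0,k0,k0,k50],[k0,k0,k0,
    k0,k0,k0,k18],[k0,k0,k0,k0,k0,k0,k0,k0,k0,k20]] (nat_lit 480) k5
    [[(k8,k123),(k0,k160),(k2,k165),(k4,k167),(k10,k168),(k6,k174)],[(k9,k129),(k11,k142),(k7,k158),(k1,k160),(k3,
    k165),(k5,k187)],[(k2,k150),(k0,k165),(k4,k170),(k10,k173),(k8,k174),(k6,k175)],[(k3,k150),(k7,k155),(k9,k156),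
    (k1,k165),(k5,k172),(k11,k173)],[(k8,k150),(k6,k155),(k2,k172),(k10,k175),(k4,k180),(k0,k187)],[(k11,k125),(k9,
    k150),(k7,k163),(k1,k167),(k3,k170),(k5,k180)],[(k6,k152),(k2,k155),(k0,k158),(k4,k163),(k10,k164),(k8,k189)],
    [(k9,k139),(k7,k152),(k5,k155),(k11,k164),(k1,k174),(k3,k175)],[(k8,k126),(k0,k129),(k10,k133),(k6,k139),(k4,
    k150),(k2,k156)],[(k1,k123),(k9,k126),(k5,k150),(k11,k151),(k3,k174),(k7,k189)],[(k4,k125),(k0,k142),(k8,k151),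
    (k6,k164),(k2,k173),(k10,k196)],[(k9,k133),(k7,k164),(k1,k168),(k3,k173),(k5,k175),(k11,k196)]]
    [] k0
    [[k2,k0,k0,k0,k1,k0],[k2,k0,k0,k0,k0,k1],[k1,k1,k0,k0,k1,k0],[k1,k0,k1,k0,k1,k0],[k1,k0,k0,k1,k1,k0],[k1,k0,k0,k0,
    k2,k0],[k1,k0,k0,k0,k1,k1],[k0,k3,k0,k0,k0,k0],[k0,k1,k1,k0,k1,k0],[k0,k1,k0,k1,k1,k0],[k0,k1,k0,k0,k2,k0],[k0,k1,
    k1,k0,k0,k1],[k0,k0,k1,k2,k0,k0],[k0,k0,k1,k1,k0,k1],[k0,k0,k1,k1,k1,k0],[k0,k0,k1,k0,k2,k0],[k0,k0,k1,k0,k1,k1],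
    [k0,k0,k0,k3,k0,k0],[k0,k0,k0,k1,k2,k0],[k0,k0,k0,k1,k1,k1],[k0,k0,k0,k0,k3,k0],[k0,k0,k0,k0,k2,k1]]
    [.ref k12 k0 [(z24,[z52,z5,z26,z13,z52,y52]),(z12,[y4,z1,z16,y1,y4,z4]),(z24,[z4,y1,z2,z19,z4,y4]),(z3,[y4,z1,y2,
    y1,z5,z4]),(z12,[y16,y5,y26,y13,y52,z52])],.ref k12 k0 [(z10,[z13,z1]),(z10,[y2,z1,z15]),(z20,[z2,y1,z0,z15]),(z5,
    [y4,z2,z0,z0,z15]),(z20,[y16,y7,y30,y15,y60,z60])],.ref k12 k0 [(z4,[z52,z3,z0,z13,z52,y52]),(z2,[y4,z0,z3,y1,y4,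
    z4]),(z1,[z1,z0,z0,z1,z1,y1]),(z1,[y8,z0,z0,y2,y5,z8]),(z4,[y32,y3,y6,y11,y44,z44])],.ref k12 k0 [(z4,[z26,z3,z13,
    z0,z26,y26]),(z1,[y1,z0,z1,z0,y1,z1]),(z4,[z2,z0,z1,z3,z2,y2]),(z1,[y4,z0,y2,z0,y1,z4]),(z4,[y16,y3,y14,y3,y28,
    z28])],.ref k12 k0 [(z4,[y52,z3,y26,y13,z0,z52]),(z2,[z4,z0,z5,z1,z0,y4]),(z2,[y2,z0,y1,z1,z0,z2]),(z1,[z8,z0,z4,
    z2,z3,y8]),(z4,[z32,y3,z10,z5,y12,y20])],.ref k12 k0 [(z2,[y26,y5,y26,y13,y52,z52]),(z2,[z4,z1,z7,z2,z8,y8]),(z4,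
    [y4,y1,y4,z1,y8,z8]),(z1,[z8,z2,z8,z4,z19,y16]),(z4,[z32,z5,z26,z13,z52,y52])],.ref k12 k0 [(z12,[z52,z9,z26,z13,
    z52,y52]),(z6,[y4,z0,z7,y1,y4,z4]),(z6,[z2,z0,z1,z5,z2,y2]),(z3,[y8,z0,y4,y2,z1,z8]),(z12,[y32,y9,y34,y17,y68,
    z68])],.ref k12 k0 [(z4,[y26,z3,z39]),(z1,[z1]),(z4,[y2,z0,z3,z3]),(z1,[z4,z0,y6,z0,z3]),(z4,[z16,y3,y30,y3,y12,
    z12])],.ref k12 k0 [(z3,[y13,y1,z0,z0,y13,z13]),(z6,[z4,z1,z9,z0,z4,y4]),(z12,[y4,y1,z0,z9,y4,z4]),(z3,[z8,z2,z0,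
    z0,z17,y8]),(z12,[z32,y1,y18,y9,y4,z4])],.ref k12 k0 [(z24,[y52,z5,z0,y13,z0,z52]),(z12,[z4,z1,z18,z1,z0,y4]),
    (z24,[y4,y1,z0,z17,z0,z4]),(z3,[z4,z1,z0,z1,z9,y4]),(z12,[z16,y5,y18,y5,y36,z20])],.ref k12 k0 [(z12,[y26,y4,y13,
    y13,y52,z52]),(z6,[z2,z1,z10,z1,z4,y4]),(z12,[y2,y1,y1,z8,y4,z4]),(z3,[z4,z2,z2,z2,z17,y8]),(z12,[z16,y1,y10,y1,
    y4,z4])],.ref k12 k0 [(z4,[z52,z3,y26,y13]),(z2,[y4,z0,z5,z1]),(z2,[z2,z0,y1,z1]),(z1,[y8,z0,z4,z2,z3]),(z4,[y32,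
    y3,z10,z5,y12,z12])],.ref k12 k0 [(z20,[y52,z15,z0,z13,(Int.ofNat (nat_lit 104))]),(z10,[z4,z0,z15,y1,y8]),(z5,
    [y1,z0,z0,z4,z2]),(z5,[z8,z0,z0,y2,y1]),(z20,[z32,y15,y30,y23,(Int.negSucc (nat_lit 123)),z60])],.ref k12 k0 [(z4,
    [y52,z3,z0,z13,z52]),(z2,[z4,z0,z3,y1,y4]),(z1,[y1,z0,z0,z1,z1]),(z1,[z8,z0,z0,y2,y5]),(z4,[z32,y3,y6,y11,y44,
    z12])],.ref k12 k0 [(z10,[y26,z1,y13,z0,z0,z26]),(z10,[z4,z1,z17,z0,z0,y4]),(z20,[y4,y1,y2,z15,z0,z4]),(z5,[z8,z2,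
    z4,z0,z15,y8]),(z20,[z32,y7,y14,y15,y60,z28])],.ref k12 k0 [(z20,[y52,y11,y52,y13,(Int.negSucc (nat_lit 103)),
    (Int.ofNat (nat_lit 104))]),(z10,[z4,z2,z19,z1,z8,y8]),(z10,[y2,y1,y2,z7,y4,z4]),(z5,[z8,z4,z8,z2,z31,y16]),(z20,
    [z32,z1,z2,y7,z4,y4])],.ref k12 k0 [(z2,[y26,y5,y13,z0,y26,z26]),(z2,[z4,z1,z5,z0,z4,y4]),(z4,[y4,y1,y2,z3,y4,
    z4]),(z1,[z8,z2,z4,z0,z11,y8]),(z4,[z32,z5,z10,y3,z20,y20])],.ref k12 k0 [(z8,[y13,z6,z0,z0,z39]),(z4,[z1,z0,z6,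
    z0,y3]),(z8,[y1,z0,z0,z6,z3]),(z1,[z1]),(z4,[z4,y3,y6,y3,y24,z12])],.ref k12 k0 [(z16,[y26,y1,y26,y13,y26,z52]),
    (z8,[z2,z1,z14,z1,z2,y4]),(z16,[y2,y1,y2,z11,y2,z4]),(z2,[z2,z1,z2,z1,z8,y4]),(z4,[z4,y1,y2,y1,y8,z4])],
    .ref k12 k0 [(z16,[y52,y1,y26,y13,z0,z52]),(z8,[z4,z1,z14,z1,z0,y4]),(z16,[y4,y1,y2,z11,z0,z4]),(z2,[z4,z1,z2,z1,
    z6,y4]),(z4,[z8,y1,y2,y1,y12,z4])],.ref k12 k0 [(z32,[y52,y15,y78,y39,(Int.negSucc (nat_lit 155)),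
    (Int.ofNat (nat_lit 156))]),(z16,[z4,z3,z30,z3,z12,y12]),(z32,[y4,y3,y6,z21,y12,z12]),(z4,[z4,z3,z6,z3,z24,y12]),
    (z1,[z1])],.ref k12 k0 [(z8,[y26,y7,y26,y13,y52,z52]),(z4,[z2,z1,z8,z1,z4,y4]),(z8,[y2,y1,y2,z5,y4,z4]),(z1,[z2,
    z1,z2,z1,z7,y4]),(z4,[z8,z1,z2,z1,z4,y4])]],
    .lp [k160,k162,k166,k152,k162,k156] [k3,k3,k2,k2,k0,k0,k7,k7,k2,k2,k5,k5] k0 [[k0,k0,k0,k0,k0,k0,k4,k0,k4],[k0,k0,k0,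
    k0,k0,k4],[k0,k0,k0,k0,k0,k0,k0,k0,k0,k0,k2],[k0,k0,k0,k0,k0,k4],[k4,k0,k4],[k0,k0,k0,k0,k0,k0,k0,k12],[k0,k0,k0,
    k0,k12,k0,k0,k0,k4],[k0,k4,k0,k0,k0,k0,k0,k0,k0,k0,k0,k4],[k0,k0,k0,k0,k0,k0,k0,k0,k0,k0,k20],[k0,k4,k0,k0,k0,k0,
    k0,k4],[k0,k0,k0,k0,k0,k0,k4],[k0,k0,k0,k2,k0,k0,k0,k0,k0,k20]] (nat_lit 480) k5
    [[(k8,k141),(k10,k158),(k2,k159),(k0,k160),(k6,k160),(k4,k163)],[(k11,k154),(k9,k157),(k1,k160),(k7,k160),(k3,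
    k161),(k5,k163)],[(k10,k159),(k4,k160),(k0,k161),(k6,k161),(k2,k162),(k8,k166)],[(k1,k159),(k11,k159),(k7,k161),
    (k3,k162),(k9,k162),(k5,k164)],[(k6,k159),(k4,k162),(k0,k163),(k10,k163),(k2,k164),(k8,k164)],[(k7,k159),(k3,
    k160),(k11,k161),(k5,k162),(k1,k163),(k9,k176)],[(k6,k140),(k10,k154),(k8,k157),(k4,k159),(k0,k160),(k2,k161)],
    [(k7,k140),(k11,k150),(k9,k157),(k5,k159),(k1,k160),(k3,k161)],[(k10,k155),(k0,k157),(k6,k157),(k2,k162),(k8,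
    k166),(k4,k176)],[(k1,k141),(k7,k157),(k11,k159),(k5,k164),(k3,k166),(k9,k166)],[(k6,k150),(k0,k154),(k2,k159),
    (k8,k159),(k4,k161),(k10,k176)],[(k7,k154),(k9,k155),(k1,k158),(k3,k159),(k5,k163),(k11,k176)]]
    [] k0
    [[k2,k0,k0,k0,k1,k0],[k2,k0,k0,k0,k0,k1],[k1,k1,k0,k0,k0,k1],[k1,k0,k0,k2,k0,k0],[k1,k0,k0,k1,k1,k0],[k1,k0,k0,k1,
    k0,k1],[k1,k1,k0,k0,k1,k0],[k1,k0,k0,k0,k2,k0],[k1,k0,k0,k0,k1,k1],[k0,k1,k0,k2,k0,k0],[k0,k1,k0,k1,k0,k1],[k0,k0,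
    k1,k2,k0,k0],[k0,k0,k1,k1,k0,k1],[k0,k0,k0,k3,k0,k0],[k0,k0,k0,k2,k1,k0],[k0,k0,k0,k2,k0,k1],[k0,k0,k0,k1,k1,k1]]
    [.ref k12 k0 [(z8,[z12,z1,z6,z3,z12,y12]),(z20,[y12,z1,z24,y3,y12,z12]),(z40,[z12,y1,z6,z33,z12,y12]),(z5,[y12,z1,
    y6,y3,z3,z12]),(z4,[z0,y1,y6,y3,y12,z12])],.ref k12 k0 [(z14,[z15,z1]),(z14,[y6,z1,z21]),(z28,[z6,y1,z0,z21]),(z7,
    [y12,z2,z0,z0,z21]),(z4,[z0,y1,y6,y3,y12,z12])],.ref k12 k0 [(z14,[z30,z1,y15]),(z14,[y12,z1,z27]),(z28,[z12,y1,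
    y6,z21]),(z7,[y24,z2,z12,z0,z21]),(z4,[z0,y1,y6,y3,y12,z12])],.ref k12 k0 [(z11,[y15,z4,z0,z0,z30]),(z22,[z12,y1,
    z33,z0,y24]),(z44,[y12,z1,z0,z33,z24]),(z11,[z24,y2,z0,z0,y15]),(z4,[z0,y1,y6,y3,y12,z12])],.ref k12 k0 [(z4,[y20,
    z1,y10,y5,z0,z20]),(z2,[z4,z0,z5,z1,z0,y4]),(z2,[y2,z0,y1,z1,z0,z2]),(z1,[z8,z0,z4,z2,z3,y8]),(z4,[z0,y1,y6,y3,
    y12,z12])],.ref k12 k0 [(z1,[z15,y1,z0,z0,y15]),(z2,[y12,z1,z3,z0,z12]),(z4,[z12,y1,z0,z3,y12]),(z1,[y24,z2,z0,z0,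
    z27]),(z4,[z0,y1,y6,y3,y12,z12])],.ref k12 k0 [(z4,[z20,z1,z0,z5,z20,y20]),(z2,[y4,z0,z3,y1,y4,z4]),(z1,[z1,z0,z0,
    z1,z1,y1]),(z1,[y8,z0,z0,y2,y5,z8]),(z4,[z0,y1,y6,y3,y12,z12])],.ref k12 k0 [(z2,[z6,z1,z6,z3,z12,y12]),(z10,[y12,
    y1,z3,y6,y24,z24]),(z20,[z12,z1,z12,z21,z24,y24]),(z5,[y24,y2,y24,y12,y33,z48]),(z4,[z0,y1,y6,y3,y12,z12])],
    .ref k12 k0 [(z12,[z20,z3,z10,z5,z20,y20]),(z6,[y4,z0,z7,y1,y4,z4]),(z6,[z2,z0,z1,z5,z2,y2]),(z3,[y8,z0,y4,y2,z1,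
    z8]),(z4,[z0,y1,y6,y3,y12,z12])],.ref k12 k0 [(z12,[y10,z3,z5,z0,z20]),(z3,[z1,z0,z4,z0,y2]),(z12,[y2,z0,z1,z9,
    z4]),(z3,[z4,z0,y2,z0,z1]),(z4,[z0,y1,y6,y3,y12,z12])],.ref k12 k0 [(z4,[y10,z1,z5,z0,z10]),(z1,[z1,z0,z1,z0,y1]),
    (z4,[y2,z0,z1,z3,z2]),(z1,[z4,z0,y2,z0,y1]),(z4,[z0,y1,y6,y3,y12,z12])],.ref k12 k0 [(z4,[y4,z1,z0,z1,z8]),(z10,
    [z4,z0,z15,y1,y8]),(z5,[y1,z0,z0,z4,z2]),(z5,[z8,z0,z0,y2,y1]),(z4,[z0,y1,y6,y3,y12,z12])],.ref k12 k0 [(z4,[y20,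
    z1,z0,z5,z20]),(z2,[z4,z0,z3,y1,y4]),(z1,[y1,z0,z0,z1,z1]),(z1,[z8,z0,z0,y2,y5]),(z4,[z0,y1,y6,y3,y12,z12])],
    .ref k12 k0 [(z8,[y5,z2,z0,z0,z15]),(z4,[z1,z0,z6,z0,y3]),(z8,[y1,z0,z0,z6,z3]),(z1,[z1]),(z4,[z0,y1,y6,y3,y12,
    z12])],.ref k12 k0 [(z64,[y60,z11,y30,y15,z60,z60]),(z32,[z12,z1,z54,z3,y12,y12]),(z64,[y12,y1,y6,z45,z12,z12]),
    (z8,[z12,z1,z6,z3,z12,y12]),(z4,[z0,y1,y6,y3,y12,z12])],.ref k12 k0 [(z4,[y5,z1,z0,z0,z10]),(z2,[z1,z0,z3,z0,y2]),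
    (z4,[y1,z0,z0,z3,z2]),(z1,[z2,z0,z0,z0,y1]),(z4,[z0,y1,y6,y3,y12,z12])],.ref k12 k0 [(z16,[y60,y1,y30,y15,z0,
    z60]),(z8,[z12,z1,z18,z3,z0,y12]),(z16,[y12,y1,y6,z9,z0,z12]),(z2,[z12,z1,z6,z3,z6,y12]),(z4,[z0,y1,y6,y3,y12,
    z12])]],
    .lp [k74,k86,k86,k84,k66,k82] [k6,k6,k0,k0,k0,k0,k1,k1,k10,k10,k2,k2] k0 [[k0,k0,k2,k0,k0,k0,k4],[k0,k0,k0,k0,k0,k2,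
    k0,k0,k0,k0,k0,k10],[k0,k0,k0,k0,k0,k0,k0,k0,k6,k0,k2],[k0,k2,k0,k0,k0,k4],[k2,k0,k4],[k0,k0,k0,k0,k0,k0,k0,k4],
    [k0,k0,k0,k0,k4],[k0,k4],[k0,k0,k0,k0,k0,k0,k0,k0,k0,k0,k10],[k0,k0,k0,k6],[k10],[k0,k0,k0,k2,k0,k0,k0,k0,k0,
    k10]] (nat_lit 240) k5
    [[(k8,k60),(k2,k78),(k10,k78),(k6,k79),(k4,k80),(k0,k84)],[(k9,k66),(k5,k78),(k11,k78),(k3,k80),(k7,k81),(k1,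
    k84)],[(k10,k74),(k8,k76),(k0,k80),(k4,k84),(k2,k88),(k6,k89)],[(k9,k76),(k1,k78),(k11,k78),(k5,k86),(k3,k88),(k7,
    k89)],[(k0,k78),(k4,k82),(k8,k82),(k6,k85),(k2,k86),(k10,k86)],[(k1,k80),(k9,k80),(k5,k82),(k3,k84),(k11,k84),(k7,
    k85)],[(k8,k75),(k6,k80),(k0,k81),(k10,k83),(k4,k85),(k2,k89)],[(k9,k75),(k1,k79),(k7,k80),(k11,k83),(k5,k85),(k3,
    k89)],[(k0,k66),(k8,k66),(k10,k74),(k6,k75),(k2,k76),(k4,k80)],[(k1,k60),(k9,k66),(k11,k74),(k7,k75),(k3,k76),(k5,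
    k82)],[(k8,k74),(k0,k78),(k2,k78),(k6,k83),(k4,k84),(k10,k92)],[(k3,k74),(k9,k74),(k1,k78),(k7,k83),(k5,k86),(k11,
    k92)]]
    [] k0
    [[k2,k0,k0,k0,k1,k0],[k1,k1,k0,k0,k1,k0],[k1,k1,k0,k0,k0,k1],[k1,k0,k1,k0,k1,k0],[k1,k0,k0,k1,k1,k0],[k1,k0,k0,k0,
    k2,k0],[k1,k0,k0,k0,k1,k1],[k0,k1,k0,k0,k2,k0],[k0,k1,k0,k0,k1,k1],[k0,k0,k1,k0,k2,k0],[k0,k0,k0,k2,k1,k0],[k0,k0,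
    k0,k1,k2,k0],[k0,k0,k0,k1,k1,k1],[k0,k0,k0,k0,k3,k0],[k0,k0,k0,k0,k2,k1]]
    [.ref k138 k4 [(z1,[y4,z1]),(z1,[z1]),(z4,[y4,z1,z1]),(z4,[z20,y5,z0,z1])],.ref k61 k2 [(z8,[y32,z3,z6,y1,z8]),
    (z8,[y40,z5,z10,z1]),(z4,[z8,y1,y1]),(z4,[y4,z1,z1])],.ref k22 k4 [(z3,[z8,y1,y2]),(z12,[y4,z5,z1]),(z12,[z8,y1,
    z7]),(z24,[y40,z5,z10,z9])],.ref k22 k4 [(z2,[y8,z1,z0,z1]),(z16,[z8,z5,z0,y1]),(z8,[y8,z1,z6,z1]),(z16,[z40,y5,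
    z0,z1])],.ref k128 k5 [(z8,[y16,z5,z6,z5,y24]),(z8,[z0,y1,z2,y1,z8]),(z8,[z0,z5,z2,z1,y8]),(z4,[z0,y1,y2,y1,z8])],
    .ref (nat_lit 397) k4 [(z1,[y8,z1]),(z1,[z1]),(z4,[y8,z1,z1]),(z8,[z40,y5,z0,z1])],.ref k151 k8 [(z8,[z32,z3,z14,
    z7,y56]),(z4,[z0,y1,y2,y1,z8]),(z8,[z0,z5,z2,z1,y8]),(z8,[z0,y1,z2,y1,z8])],.ref k61 k2 [(z8,[y16,y1,z2,y1,z8]),
    (z8,[y20,z0,z5,z1]),(z1,[z1]),(z8,[y4,z1,z1])],.ref k106 k8 [(z8,[z16,z5,z6,z5,y40]),(z4,[z0,y1,y2,y1,z8]),(z8,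
    [z0,z5,z2,z1,y8]),(z8,[z0,y1,z2,y1,z8])],.ref k128 k5 [(z8,[y16,z5,z10,z9,y40]),(z8,[z0,y1,z2,y1,z8]),(z8,[z0,z5,
    z2,z1,y8]),(z4,[z0,y1,y2,y1,z8])],.ref (nat_lit 408) k5 [(z8,[y32,z5,z10,z9,y40]),(z8,[z0,y1,z2,y1,z8]),(z8,[z0,
    z5,z2,z1,y8]),(z4,[z0,y1,y2,y1,z8])],.ref k138 k4 [(z4,[y8,y1,y2,y1,z8]),(z16,[z8,z5,z2,z1,y8]),(z16,[y8,y1,z2,y1,
    z8]),(z16,[z40,z5,z10,z9,y40])],.ref k150 k7 [(z8,[z32,z3,z6,y1,y24]),(z8,[z40,z5,z10,z1,y40]),(z1,[y8,y1,y2,z0,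
    z8]),(z4,[z4,z1,z1,z0,y4])],.ref (nat_lit 409) k5 [(z8,[y32,z15,z30,z27,(Int.negSucc (nat_lit 119))]),(z8,[z0,y1,
    z2,y1,z8]),(z8,[z0,z5,z2,z1,y8]),(z4,[z0,y1,y2,y1,z8])],.ref k150 k7 [(z8,[z16,y1,y2,y5,z8]),(z2,[z5,z0,z0,y1]),
    (z1,[y4,z0,z0,z1]),(z8,[z4,z1,z0,y1])]],
    .lp [k178,k144,k140,k176,k158,k162] [k0,k0,k17,k17,k19,k19,k1,k1,k10,k10,k8,k8] k0 [[k0,k0,k16,k0,k0,k0,k0,k0,k38],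
    [k0,k0,k0,k0,k0,k20],[k0,k0,k0,k0,k40,k0,k0,k0,k0,k0,k38],[k0,k16,k0,k0,k0,k0,k0,k16],[k20,k0,k0,k0,k0,k0,k12],
    [k0,k0,k0,k40,k0,k0,k0,k0,k0,k42],[k0,k0,k16,k0,k0,k0,k0,k0,k36],[k0,k0,k0,k0,k0,k12,k0,k0,k0,k0,k0,k22],[k0,k0,
    k0,k0,k42,k0,k0,k0,k0,k0,k16],[k0,k38,k0,k0,k0,k0,k0,k36],[k0,k0,k0,k0,k0,k0,k22],[k0,k0,k0,k38,k0,k0,k0,k0,k0,
    k16]] (nat_lit 480) k5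
    [[(k2,k123),(k8,k152),(k4,k159),(k10,k170),(k0,k178),(k6,k199)],[(k11,k132),(k5,k143),(k3,k161),(k9,k168),(k1,
    k178),(k7,k197)],[(k4,k122),(k10,k153),(k2,k160),(k6,k160),(k0,k161),(k8,k189)],[(k7,k120),(k1,k123),(k5,k142),
    (k11,k153),(k3,k160),(k9,k167)],[(k2,k142),(k6,k142),(k0,k143),(k8,k149),(k4,k180),(k10,k189)],[(k3,k122),(k9,
    k137),(k7,k158),(k1,k159),(k5,k180),(k11,k193)],[(k2,k120),(k8,k125),(k4,k158),(k10,k169),(k6,k188),(k0,k197)],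
    [(k11,k133),(k5,k142),(k3,k160),(k9,k167),(k7,k188),(k1,k199)],[(k4,k137),(k10,k138),(k2,k167),(k6,k167),(k0,
    k168),(k8,k194)],[(k7,k125),(k5,k149),(k1,k152),(k11,k160),(k3,k189),(k9,k194)],[(k0,k132),(k6,k133),(k2,k153),
    (k8,k160),(k10,k178),(k4,k193)],[(k9,k138),(k3,k153),(k7,k169),(k1,k170),(k11,k178),(k5,k189)]]
    [] k0
    [[k2,k1,k0,k0,k0,k0],[k1,k2,k0,k0,k0,k0],[k1,k1,k1,k0,k0,k0],[k1,k1,k0,k0,k0,k1],[k1,k0,k1,k0,k1,k0],[k1,k0,k0,k0,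
    k1,k1],[k0,k2,k1,k0,k0,k0],[k0,k2,k0,k1,k0,k0],[k0,k2,k0,k0,k0,k1],[k0,k1,k2,k0,k0,k0],[k0,k1,k1,k1,k0,k0],[k0,k1,
    k1,k0,k1,k0],[k0,k1,k1,k0,k0,k1],[k0,k1,k0,k2,k0,k0],[k0,k1,k0,k1,k1,k0],[k0,k1,k0,k1,k0,k1],[k0,k0,k2,k0,k1,k0],
    [k0,k0,k1,k1,k1,k0],[k0,k0,k0,k1,k1,k1],[k0,k0,k0,k0,k1,k2]]
    [.ref (nat_lit 379) k0 [(z1,[z0,z1]),(z1,[z1,y2]),(z1,[z0,y1,y1,z1])],.ref (nat_lit 380) k0 [(z1,[z0,z1]),(z2,[z1,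
    y1]),(z1,[z0,y1,y1,z1])],.ref (nat_lit 380) k0 [(z1,[z0,z1]),(z1,[z1,z0,z1,y1]),(z1,[z0,y1,y1,z1])],
    .ref k92 k0 [(z1,[z0,z1]),(z1,[z1,y1]),(z1,[z0,y1,y1,z1])],.ref (nat_lit 381) k0 [(z1,[z4,z3,z4,y4]),(z1,[y1,z0,
    z0,z1]),(z1,[y2,y3,y5,z5])],.ref (nat_lit 382) k9 [(z1,[z1,y1]),(z1,[y3,z3,z5]),(z1,[y2,y3,y5,z5])],
    .ref (nat_lit 384) k0 [(z1,[z0,z1]),(z2,[z1,z1,z1,y1]),(z1,[z0,y1,y1,z1])],.ref (nat_lit 390) k0 [(z1,[z0,z1]),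
    (z1,[z1,z0,y1]),(z1,[z0,y1,y1,z1])],.ref (nat_lit 398) k0 [(z1,[z0,z1]),(z1,[z1]),(z1,[z0,y1,y1,z1])],
    .ref (nat_lit 404) k0 [(z1,[z0,z1]),(z1,[z1,z2,z2,y2]),(z1,[z0,y1,y1,z1])],.ref (nat_lit 382) k9 [(z1,[y1,y1,z0,
    z1]),(z1,[z3,z3,z5,y3]),(z1,[z2,y3,y5,z3])],.ref (nat_lit 384) k0 [(z1,[z0,z1]),(z1,[z1,z1,z1,y1]),(z1,[z0,y1,y1,
    z1])],.ref (nat_lit 362) k0 [(z1,[z0,z1]),(z1,[z1,z1,z1,y1]),(z1,[z0,y1,y1,z1])],.ref (nat_lit 407) k0 [(z1,[z0,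
    z1]),(z1,[y1,z0,z2]),(z1,[z0,y1,y1,z1])],.ref k27 k1 [(z1,[y2,z1,z2]),(z1,[z0,y1]),(z1,[z4,z1])],
    .ref (nat_lit 381) k0 [(z1,[y4,z3,z4]),(z1,[z1]),(z1,[z2,y3,y5,z3])],.ref (nat_lit 381) k0 [(z1,[y4,y5,y8,z8]),
    (z1,[z1,z2,z3,y2]),(z1,[z2,z1,z1,y1])],.ref k92 k0 [(z1,[z0,z1]),(z1,[y1,y1,z0,z1]),(z1,[z0,y1,y1,z1])],
    .ref (nat_lit 380) k0 [(z1,[z0,z1]),(z1,[y1,z0,z1]),(z1,[z0,y1,y1,z1])],.ref (nat_lit 410) k1 [(z1,[z4,z1]),(z1,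
    [z0,y1]),(z1,[y4,z5,z8])]],
    .leafM k0 [k1,k2,k3,k4,k5,k0] [(z1,[y1,y1,z0,z1])] [],
    .leafM k0 [k2,k3,k4,k5,k0,k1] [(z1,[y1,y1,y1,z1])] [],
    .leafM k0 [k1,k2,k3,k4,k5,k0] [(z1,[y1,y1,z0,z0,z1])] [],
    .lp [k160,k166,k168,k150,k162,k152] [k4,k4,k1,k1,k0,k0,k9,k9,k3,k3,k8,k8] k0 [[k0,k0,k0,k0,k0,k0,k10],[k0,k0,k0,k4,k0,
    k10],[k4,k0,k0,k0,k0,k0,k0,k0,k0,k0,k4],[k0,k0,k0,k0,k0,k6],[k10,k0,k6],[k0,k0,k0,k0,k0,k0,k0,k2],[k0,k0,k0,k0,k2,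
    k0,k0,k0,k22],[k0,k10],[k0,k0,k0,k0,k0,k0,k0,k0,k0,k0,k16],[k0,k0,k0,k0,k0,k0,k0,k22],[],[k0,k0,k0,k4,k0,k0,k0,k0,
    k0,k16]] (nat_lit 480) k5
    [[(k8,k145),(k6,k155),(k10,k156),(k2,k159),(k0,k160),(k4,k164)],[(k9,k151),(k11,k156),(k1,k160),(k3,k163),(k7,
    k165),(k5,k168)],[(k4,k157),(k10,k159),(k2,k162),(k0,k163),(k8,k164),(k6,k168)],[(k1,k159),(k11,k159),(k3,k162),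
    (k7,k164),(k9,k164),(k5,k167)],[(k6,k159),(k4,k162),(k10,k164),(k8,k165),(k2,k167),(k0,k168)],[(k3,k157),(k7,
    k159),(k11,k160),(k5,k162),(k1,k164),(k9,k167)],[(k6,k148),(k10,k151),(k8,k156),(k4,k159),(k2,k164),(k0,k165)],
    [(k11,k129),(k7,k148),(k1,k155),(k9,k156),(k5,k159),(k3,k168)],[(k0,k151),(k6,k156),(k10,k157),(k2,k164),(k4,
    k167),(k8,k184)],[(k1,k145),(k7,k156),(k11,k157),(k3,k164),(k5,k165),(k9,k184)],[(k6,k129),(k0,k156),(k8,k157),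
    (k2,k159),(k4,k160),(k10,k168)],[(k7,k151),(k1,k156),(k9,k157),(k3,k159),(k5,k164),(k11,k168)]]
    [] k0
    [[k2,k0,k0,k0,k1,k0],[k2,k0,k0,k0,k0,k1],[k1,k1,k0,k0,k1,k0],[k1,k1,k0,k0,k0,k1],[k1,k0,k0,k2,k0,k0],[k1,k0,k0,k1,
    k1,k0],[k1,k0,k0,k1,k0,k1],[k1,k0,k0,k0,k1,k1],[k0,k1,k0,k1,k0,k1],[k0,k0,k1,k2,k0,k0],[k0,k0,k1,k1,k0,k1],[k0,k0,
    k0,k3,k0,k0],[k0,k0,k0,k2,k1,k0],[k0,k0,k0,k2,k0,k1],[k0,k0,k0,k1,k1,k1],[k0,k0,k0,k1,k0,k2]]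
    [.ref k12 k0 [(z3,[z6,z3,z2,z6,z2,y6]),(z1,[z0,z0,z1]),(z6,[y15,z15,y5,z3,y5,z15]),(z3,[z3,y3,z1,z3,z4,y3]),(z3,
    [y3,y6,y4,y12,y4,z12])],.ref k12 k0 [(z3,[z4,z1]),(z1,[z0,z0,z1]),(z3,[y5,z10,z0,z9]),(z3,[z2,y4,z0,z0,z3]),(z3,
    [y2,y5,y3,y9,y3,z9])],.ref k12 k0 [(z1,[z6,z3,z0,z6,z2,y6]),(z1,[z0,z0,z1]),(z2,[y15,z0,z0,y9,y5,z15]),(z1,[z3,z0,
    z0,z3,z2,y3]),(z1,[y3,y3,y1,y6,y2,z6])],.ref k12 k0 [(z5,[z12,z3,y4]),(z1,[z0,z0,z1]),(z1,[y3,z3,z1,z3]),(z5,[z6,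
    y6,y2,z0,z5]),(z5,[y6,y9,y3,y15,y5,z15])],.ref k12 k0 [(z2,[z3,z3,z0,z0,y2]),(z1,[z0,z0,z1]),(z8,[y15,z15,z0,z24,
    z10]),(z4,[z3,y3,z0,z0,z2]),(z4,[y3,y9,y4,y12,y2,z12])],.ref k12 k0 [(z1,[z3,z3,z1,z3,z0,y3]),(z1,[z0,z0,z1]),(z4,
    [y15,z0,y5,y3,z0,z15]),(z2,[z3,z0,z1,z3,z2,y3]),(z2,[y3,y6,y3,y9,y2,z9])],.ref k12 k0 [(z7,[z12,z9,z0,z0,y4]),(z1,
    [z0,z0,z1]),(z7,[y15,z15,z0,z21,z5]),(z7,[z6,y6,z0,z0,z5]),(z7,[y6,y15,y7,y21,y5,z21])],.ref k12 k0 [(z3,[z12,z9,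
    z4,z12,z4,y12]),(z1,[z0,z0,z1]),(z3,[y15,z0,y5,y6,y5,z15]),(z3,[z6,z0,z2,z6,z5,y6]),(z3,[y6,y9,y5,y15,y5,z15])],
    .ref k12 k0 [(z3,[z12,z9,y4,z0,y4]),(z1,[z0,z0,z1]),(z3,[y15,z0,z5,z9,z5]),(z3,[z6,z0,y2,z0,z1]),(z3,[y6,y9,y1,y9,
    y1,z9])],.ref k12 k0 [(z1,[y12,z3,z0,z12,z8]),(z1,[z0,z0,z1]),(z1,[z15,z0,z0,y12,y10]),(z1,[y6,z0,z0,z6,z5]),(z1,
    [z6,y3,y1,y9,y5,z3])],.ref k12 k0 [(z1,[y6,z3,z0,z6,z2]),(z1,[z0,z0,z1]),(z2,[z15,z0,z0,y9,y5]),(z1,[y3,z0,z0,z3,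
    z2]),(z1,[z3,y3,y1,y6,y2,z3])],.ref k12 k0 [(z1,[z2,z3,z0,z0,y2]),(z1,[z0,z0,z1]),(z2,[y5,z0,z0,z6,z5]),(z1,[z1]),
    (z1,[y1,y3,y1,y3,z0,z3])],.ref k12 k0 [(z1,[z6,z9,z2,z6,y2,y6]),(z1,[z0,z0,z1]),(z2,[y15,y15,y5,y9,z5,z15]),(z1,
    [z3,z3,z1,z3,z0,y3]),(z1,[y3,y6,y2,y6,z0,z6])],.ref k12 k0 [(z5,[z12,z15,z0,z0,y8]),(z1,[z0,z0,z1]),(z1,[y3,z0,z0,
    z3,z2]),(z5,[z6,z0,z0,z0,z1]),(z5,[y6,y15,y5,y15,y1,z15])],.ref k12 k0 [(z1,[z12,z15,z4,z12,z0,y12]),(z1,[z0,z0,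
    z1]),(z1,[y15,y15,y5,y12,z0,z15]),(z1,[z6,z6,z2,z6,z1,y6]),(z1,[y6,y9,y3,y9,y1,z9])],.ref k12 k0 [(z1,[z3,z3,z0,
    z0,y1]),(z1,[z0,z0,z1]),(z4,[y15,z0,z0,z12,z5]),(z2,[z3,z0,z0,z0,z1]),(z2,[y3,y6,y2,y6,y1,z6])]],
    .lp [k160,k160,k168,k162,k156,k152] [k4,k4,k4,k4,k0,k0,k3,k3,k6,k6,k8,k8] k0 [[k0,k0,k0,k0,k0,k0,k16,k0,k10],[],[],
    [k0,k0,k0,k0,k0,k6,k0,k12],[k0,k0,k6],[k0,k0,k0,k0,k0,k0,k0,k0,k0,k0,k0,k10],[k0,k0,k12,k0,k0,k0,k0,k0,k0,k0,k2],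
    [k0,k16],[k0,k0,k0,k0,k0,k0,k0,k0,k0,k0,k26],[k0,k10],[k0,k0,k0,k0,k10],[k0,k0,k0,k0,k0,k0,k0,k2,k0,
    k26]] (nat_lit 480) k5
    [[(k8,k132),(k10,k156),(k6,k159),(k0,k160),(k2,k160),(k4,k174)],[(k9,k142),(k11,k146),(k1,k160),(k3,k160),(k7,
    k161),(k5,k164)],[(k10,k156),(k0,k160),(k2,k160),(k4,k164),(k8,k168),(k6,k177)],[(k11,k156),(k1,k160),(k3,k160),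
    (k5,k164),(k7,k167),(k9,k170)],[(k6,k153),(k10,k160),(k4,k162),(k8,k162),(k0,k164),(k2,k164)],[(k11,k160),(k5,
    k162),(k9,k162),(k3,k164),(k7,k165),(k1,k174)],[(k10,k147),(k8,k159),(k0,k161),(k6,k162),(k4,k165),(k2,k167)],
    [(k5,k153),(k11,k157),(k1,k159),(k9,k159),(k7,k162),(k3,k177)],[(k0,k142),(k8,k156),(k10,k156),(k6,k159),(k4,
    k162),(k2,k170)],[(k1,k132),(k11,k154),(k9,k156),(k7,k159),(k5,k162),(k3,k168)],[(k0,k146),(k8,k154),(k2,k156),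
    (k6,k157),(k4,k160),(k10,k178)],[(k7,k147),(k1,k156),(k3,k156),(k9,k156),(k5,k160),(k11,k178)]]
    [] k0
    [[k2,k0,k0,k0,k1,k0],[k2,k0,k0,k0,k0,k1],[k1,k1,k0,k0,k1,k0],[k1,k1,k0,k0,k0,k1],[k1,k0,k1,k0,k1,k0],[k1,k0,k0,k1,
    k1,k0],[k1,k0,k0,k1,k0,k1],[k1,k0,k0,k0,k2,k0],[k1,k0,k0,k0,k1,k1],[k0,k2,k0,k0,k0,k1],[k0,k0,k1,k1,k1,k0],[k0,k0,
    k1,k1,k0,k1],[k0,k0,k1,k0,k1,k1],[k0,k0,k0,k2,k0,k1],[k0,k0,k0,k1,k2,k0],[k0,k0,k0,k1,k1,k1],[k0,k0,k0,k0,k3,k0],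
    [k0,k0,k0,k0,k2,k1]]
    [.ref k12 k0 [(z4,[z5,z1]),(z2,[y1,z1,z2]),(z1,[y1,z1,z0,z3]),(z4,[y1,z1,z0,z0,z6]),(z2,[z1,y1])],
    .ref k12 k0 [(z4,[z6,z3,z2,z6,z3,y6]),(z10,[y6,z3,z8,y6,y3,z6]),(z5,[y6,z3,y2,z9,y3,z6]),(z20,[y6,z3,y2,y6,z27,
    z6]),(z10,[z6,y3,z2,z6,z3,y6])],.ref k12 k0 [(z1,[z3,z0,y1]),(z5,[y6,z3,z7]),(z5,[y12,z6,z4,z15]),(z10,[y6,z3,z2,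
    z0,z15]),(z5,[z6,y3,y2])],.ref k12 k0 [(z2,[z10,z3,z0,z10,z5,y10]),(z1,[y2,z0,z1,y2,y1,z2]),(z1,[y4,z0,z0,y1,y2,
    z4]),(z1,[y1,z0,z0,y1,z1,z1]),(z1,[z2,z0,z0,z2,z1,y2])],.ref k12 k0 [(z1,[z5,y1,z0,y5]),(z1,[y2,z1,z1,z2]),(z1,
    [y4,z2,z0,z7]),(z2,[y2,z1,z0,z2,z3]),(z1,[z2,y1,z0,y2])],.ref k12 k0 [(z4,[z10,z1,z0,z0,y5]),(z2,[y2,z1,z2,z0,
    z1]),(z1,[y2,z1,z0,z3,z1]),(z4,[y2,z1,z0,z0,z7]),(z2,[z2,y1,z0,z0,y1])],.ref k12 k0 [(z4,[z15,z6,z5,z15,z0,y15]),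
    (z2,[y3,z0,z1,y3,z0,z3]),(z1,[y3,z0,y1,z0,z0,z3]),(z4,[y3,z0,y1,y3,z6,z3]),(z2,[z3,z0,z1,z3,z0,y3])],
    .ref k12 k0 [(z3,[z5,z2]),(z3,[y2,z1,z3]),(z3,[y4,z2,z0,z9]),(z6,[y2,z1,z0,z0,z9]),(z3,[z2,y1])],
    .ref k12 k0 [(z14,[z30,z21,z10,z30,z15,y30]),(z7,[y6,z0,z5,y6,y3,z6]),(z7,[y12,z0,y4,z9,y6,z12]),(z7,[y3,z0,y1,y3,
    z9,z3]),(z7,[z6,z0,z2,z6,z3,y6])],.ref k12 k0 [(z8,[y30,y3,z10,y30,y15,z30]),(z4,[z6,z3,z2,z6,z3,y6]),(z2,[z6,z3,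
    y2,z12,z3,y6]),(z8,[z6,z3,y2,z6,z15,y6]),(z4,[y6,y3,z2,y6,y3,z6])],.ref k12 k0 [(z2,[y10,z3,z0,z10,z5]),(z1,[z2,
    z0,z1,y2,y1]),(z1,[z4,z0,z0,y1,y2]),(z1,[z1,z0,z0,y1,z1]),(z1,[y2,z0,z0,z2,z1])],.ref k12 k0 [(z1,[y3,z0,y1,z0,z0,
    z3]),(z5,[z6,z3,z7,z0,z0,y6]),(z5,[z12,z6,z4,z15,z0,y12]),(z10,[z6,z3,z2,z0,z15,y6]),(z5,[y6,y3,y2,z0,z0,z6])],
    .ref k12 k0 [(z4,[y30,y9,y10,z0,y15,z30]),(z2,[z6,z3,z4,z0,z3,y6]),(z1,[z6,z3,z2,z3,z3,y6]),(z4,[z6,z3,z2,z0,z9,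
    y6]),(z2,[y6,y3,y2,z0,y3,z6])],.ref k12 k0 [(z4,[y30,y9,y10,y30,z15,z30]),(z2,[z6,z3,z4,z6,y3,y6]),(z1,[z6,z3,z2,
    z9,y3,y6]),(z4,[z6,z3,z2,z6,z3,y6]),(z2,[y6,y3,y2,y6,z3,z6])],.ref k12 k0 [(z2,[z10,z3,z0,z0,y5]),(z1,[y2,z0,z1,
    z0,z1]),(z1,[y4,z0,z0,z3,z2]),(z1,[y1,z0,z0,z0,z2]),(z1,[z2,z0,z0,z0,y1])],.ref k12 k0 [(z1,[z15,z9,z5,z15,z0,
    y15]),(z1,[y6,y3,y1,y6,z0,z6]),(z1,[y12,y6,y4,y9,z0,z12]),(z2,[y6,y3,y2,y6,z3,z6]),(z1,[z6,z3,z2,z6,z0,y6])],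
    .ref k12 k0 [(z2,[z5,z3]),(z1,[y1,z0,z1]),(z1,[y2,z0,z0,z3]),(z2,[y1,z0,z0,z0,z3]),(z1,[z1])],.ref k12 k0 [(z8,
    [z30,z27,z10,z30,z15,y30]),(z4,[y6,y3,z2,y6,y3,z6]),(z2,[y6,y3,y2,z0,y3,z6]),(z8,[y6,y3,y2,y6,z9,z6]),(z4,[z6,z3,
    z2,z6,z3,y6])]],
    .lp [(nat_lit 330),(nat_lit 322),(nat_lit 322),(nat_lit 306),(nat_lit 314),(nat_lit 324)] [k0,k0,k4,k4,k4,k4,k12,k12,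
    k8,k8,k3,k3] k0 [[k0,k0,k0,k0,k0,k0,k36,k0,k0,k0,k10],[k0,k0,k0,k66,k0,k0,k0,k0,k0,k36],[k66,k0,k0,k0,k0,k0,k10],
    [k0,k0,k0,k0,k0,k0,k0,k0,k0,k0,k0,k52],[k0,k0,k0,k0,k0,k0,k0,k0,k82],[k0,k0,k0,k0,k0,k0,k0,k10],[k0,k0,k0,k0,k10,
    k0,k0,k0,k0,k0,k36],[k0,k36,k0,k10],[k36],[k0,k0,k0,k0,k0,k82,k0,k0,k0,k0,k0,k38],[k0,k0,k52,k0,k0,k0,k0,k0,k38],
    [k0,k10,k0,k0,k0,k0,k0,k36]] (nat_lit 960) k5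
    [[(k6,(nat_lit 282)),(k0,(nat_lit 320)),(k4,(nat_lit 326)),(k10,(nat_lit 327)),(k8,(nat_lit 360)),(k2,
    (nat_lit 378))],[(k9,(nat_lit 286)),(k7,(nat_lit 318)),(k1,(nat_lit 320)),(k3,(nat_lit 326)),(k11,(nat_lit 363)),
    (k5,(nat_lit 392))],[(k2,(nat_lit 256)),(k8,(nat_lit 282)),(k4,(nat_lit 322)),(k0,(nat_lit 326)),(k10,
    (nat_lit 333)),(k6,(nat_lit 350))],[(k3,(nat_lit 256)),(k9,(nat_lit 308)),(k7,(nat_lit 314)),(k5,(nat_lit 322)),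
    (k11,(nat_lit 323)),(k1,(nat_lit 378))],[(k10,(nat_lit 271)),(k8,(nat_lit 318)),(k2,(nat_lit 322)),(k4,
    (nat_lit 322)),(k6,(nat_lit 324)),(k0,(nat_lit 392))],[(k11,(nat_lit 241)),(k7,(nat_lit 314)),(k3,(nat_lit 322)),
    (k5,(nat_lit 322)),(k1,(nat_lit 326)),(k9,(nat_lit 328))],[(k6,(nat_lit 296)),(k2,(nat_lit 314)),(k4,
    (nat_lit 314)),(k10,(nat_lit 315)),(k0,(nat_lit 318)),(k8,(nat_lit 392))],[(k1,(nat_lit 282)),(k7,(nat_lit 296)),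
    (k9,(nat_lit 310)),(k11,(nat_lit 315)),(k5,(nat_lit 324)),(k3,(nat_lit 350))],[(k0,(nat_lit 286)),(k2,
    (nat_lit 308)),(k6,(nat_lit 310)),(k8,(nat_lit 314)),(k4,(nat_lit 328)),(k10,(nat_lit 355))],[(k3,(nat_lit 282)),
    (k9,(nat_lit 314)),(k5,(nat_lit 318)),(k11,(nat_lit 319)),(k1,(nat_lit 360)),(k7,(nat_lit 392))],[(k4,
    (nat_lit 241)),(k10,(nat_lit 286)),(k6,(nat_lit 315)),(k8,(nat_lit 319)),(k2,(nat_lit 323)),(k0,(nat_lit 363))],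
    [(k5,(nat_lit 271)),(k11,(nat_lit 286)),(k7,(nat_lit 315)),(k1,(nat_lit 327)),(k3,(nat_lit 333)),(k9,
    (nat_lit 355))]]
    [] k0
    [[k2,k0,k0,k1,k0,k0],[k1,k1,k0,k0,k1,k0],[k1,k0,k1,k0,k1,k0],[k1,k1,k0,k1,k0,k0],[k1,k0,k0,k2,k0,k0],[k1,k0,k0,k0,
    k1,k1],[k0,k3,k0,k0,k0,k0],[k0,k2,k1,k0,k0,k0],[k0,k2,k0,k1,k0,k0],[k0,k2,k0,k0,k1,k0],[k0,k2,k0,k0,k0,k1],[k0,k1,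
    k1,k0,k1,k0],[k0,k1,k1,k0,k0,k1],[k0,k1,k0,k1,k1,k0],[k0,k1,k0,k0,k2,k0],[k0,k1,k0,k0,k0,k2],[k0,k0,k2,k0,k0,k1],
    [k0,k0,k1,k2,k0,k0],[k0,k0,k1,k1,k0,k1],[k0,k0,k1,k1,k1,k0],[k0,k0,k1,k0,k1,k1],[k0,k0,k1,k0,k0,k2],[k0,k0,k0,k3,
    k0,k0],[k0,k0,k0,k2,k0,k1],[k0,k0,k0,k1,k1,k1],[k0,k0,k0,k1,k0,k2],[k0,k0,k0,k0,k3,k0],[k0,k0,k0,k0,k0,k3]]
    [.ref k22 k6 [(z3,[y4,z2,y4,z5,z4]),(z3,[y1,y4,y10,y10,z10]),(z3,[z2,y1,z2,z2,y2]),(z3,[y2,z1,z7,y2,z2])],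
    .ref k185 k5 [(z1,[z0,z2,z4,z5,y4]),(z1,[z1,z3,z7,z7,y7]),(z1,[z0,y2,y5,y5,z5]),(z1,[y1,y2,y4,y5,z5])],
    .ref k22 k6 [(z1,[y4,z2,z0,z7]),(z1,[y1,y1,y3,y2,z3]),(z1,[z2,y1,z0,y2]),(z1,[y2,z1,z3,z2])],
    .ref (nat_lit 217) k5 [(z1,[z0,z2,z4,z5,y4]),(z1,[z1,z2,z5,z5,y5]),(z1,[z0,y2,y5,y5,z5]),(z1,[y1,y1,y2,y3,z3])],
    .ref k22 k6 [(z1,[y4,y2,y8,y5,z8]),(z1,[y1,y2,y5,y5,z5]),(z1,[z2,z1,z4,z4,y4]),(z1,[y2,y1,y1,y4,z4])],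
    .ref (nat_lit 414) k5 [(z1,[z0,z2,z4,z5,y4]),(z1,[y1,y2,y4,y5,z5]),(z1,[z0,y2,y5,y5,z5]),(z1,[z1,z3,z7,z7,y7])],
    .ref (nat_lit 415) k5 [(z1,[z0,z2,z4,z5,y4]),(z1,[z1]),(z1,[z0,y2,y5,y5,z5]),(z1,[y1,z3,z9,z6,y6])],
    .ref k21 k5 [(z1,[z0,z2,z4,z5,y4]),(z2,[z1,y2,y4,y5,z4]),(z1,[z0,y2,y5,y5,z5]),(z2,[y1,z4,z10,z9,y8])],
    .ref (nat_lit 204) k11 [(z1,[y5,y2,y5,y5,z5]),(z1,[z2,z1,z3,z2,y2]),(z1,[y2,y1,y2,y2,z2]),(z1,[z1])],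
    .ref k131 k6 [(z1,[y2,z0,z0,z1]),(z2,[y1,y1,y2,y2,z2]),(z1,[z1]),(z1,[y1,z0,z1])],.ref k21 k5 [(z1,[z0,z2,z4,z5,
    y4]),(z1,[z1,y1,y3,y2,z2]),(z1,[z0,y2,y5,y5,z5]),(z1,[y1,z2,z6,z4,y4])],.ref k21 k5 [(z1,[z0,z2,z4,z5,y4]),(z1,
    [z1,y1,y2,y3,z2]),(z1,[z0,y2,y5,y5,z5]),(z1,[y1,z2,z5,z5,y4])],.ref k22 k6 [(z1,[z2,z0,y2,z1]),(z2,[z1,y3,y7,y7,
    z6]),(z1,[y1,z0,z1,z1]),(z1,[z1,z0,z2,y1])],.ref k131 k6 [(z1,[y4,y2,y4,y3,z4]),(z1,[y1,y1,y2,y2,z2]),(z1,[z2,z1,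
    z2,z2,y2]),(z1,[y2,y1,y1,y2,z2])],.ref (nat_lit 217) k5 [(z1,[z0,z2,z4,z5,y4]),(z1,[z1,z2,z4,z4,y4]),(z1,[z0,y2,
    y5,y5,z5]),(z1,[y1,y1,y1,y2,z2])],.ref (nat_lit 217) k5 [(z1,[z0,z2,z4,z5,y4]),(z1,[y1,z2,z6,z4,y4]),(z1,[z0,y2,
    y5,y5,z5]),(z1,[z1,y1,y3,y2,z2])],.ref (nat_lit 239) k5 [(z1,[z0,z2,z4,z5,y4]),(z1,[y1,z5,z11,z12,y10]),(z1,[z0,
    y2,y5,y5,z5]),(z1,[z1,y4,y8,y10,z8])],.ref k22 k6 [(z1,[z2,z2,z4,z5,y4]),(z2,[z1,y2,y4,y5,z4]),(z1,[y1,y1,y2,y1,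
    z2]),(z1,[z1,z1,z5,z1,y2])],.ref k185 k5 [(z1,[z0,z2,z4,z5,y4]),(z1,[y1,z3,z7,z7,y6]),(z1,[z0,y2,y5,y5,z5]),(z1,
    [z1,y2,y4,y5,z4])],.ref k22 k6 [(z1,[z4,z2,z4,z3,y4]),(z1,[z1,y1,y2,y3,z2]),(z1,[y2,y1,y2,z0,z2]),(z1,[z2,z1,z5,
    z0,y2])],.ref (nat_lit 217) k5 [(z1,[z0,z2,z4,z5,y4]),(z1,[y1,z2,z5,z5,y4]),(z1,[z0,y2,y5,y5,z5]),(z1,[z1,y1,y2,
    y3,z2])],.ref (nat_lit 217) k5 [(z1,[z0,z2,z4,z5,y4]),(z2,[y1,z4,z10,z9,y8]),(z1,[z0,y2,y5,y5,z5]),(z2,[z1,y2,y4,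
    y5,z4])],.ref k22 k6 [(z1,[z4,z6,z12,z15,y12]),(z1,[z1]),(z1,[y2,y3,y6,y6,z6]),(z1,[z2,z3,z9,z6,y6])],
    .ref (nat_lit 217) k5 [(z1,[z0,z2,z4,z5,y4]),(z1,[y1,z1,z3,z2,y2]),(z1,[z0,y2,y5,y5,z5]),(z1,[z1])],
    .ref k131 k6 [(z1,[z4,z2,z0,z5,y4]),(z1,[z1,z0,y1]),(z1,[y2,y1,z0,y2,z2]),(z1,[z2,z1,z1,z2,y2])],
    .ref (nat_lit 354) k0 [(z1,[y5,y2,y5,y5,z5]),(z1,[z2,z1,z3,z2,y2]),(z1,[z4,z2,z4,z5,y4]),(z1,[z1])],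
    .ref k22 k6 [(z1,[y2,z0,z0,z3]),(z2,[y1,y3,y6,y6,z6]),(z1,[z1]),(z1,[y1,z0,z3])],.ref (nat_lit 416) k0 [(z1,[z0,
    z1]),(z1,[y1,z0,z3]),(z1,[z0,z0,z0,z1]),(z1,[z0,y1,y2,y2,z2])]]]

noncomputable def cT6_3_n9_2 : List TN :=
  [.lp [k162,k166,k164,k160,k140,k166] [k2,k2,k0,k0,k1,k1,k3,k3,k13,k13,k0,k0] k0 [[k0,k0,k0,k0,k0,k0,k0,k0,k22],[k0,k0,
    k0,k0,k0,k2],[k0,k0,k0,k0,k0,k0,k0,k0,k0,k0,k10],[k0,k0,k0,k0,k0,k0,k0,k8],[k2],[k0,k0,k0,k0,k0,k0,k0,k0,k0,k24],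
    [k0,k0,k8],[k0,k0,k0,k0,k0,k0,k0,k0,k0,k4,k0,k14],[k0,k0,k0,k0,k24,k0,k4],[k0,k22,k0,k0,k0,k0,k0,k0,k0,k0,k0,k16],
    [k0,k0,k0,k0,k0,k0,k14,k0,k16],[k0,k0,k0,k10]] (nat_lit 480) k5
    [[(k2,k154),(k0,k162),(k4,k163),(k10,k164),(k8,k167),(k6,k175)],[(k11,k142),(k9,k151),(k1,k162),(k5,k163),(k7,
    k163),(k3,k164)],[(k4,k163),(k6,k163),(k0,k164),(k2,k166),(k10,k166),(k8,k175)],[(k1,k154),(k9,k161),(k7,k163),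
    (k5,k165),(k3,k166),(k11,k166)],[(k8,k152),(k6,k154),(k0,k163),(k4,k164),(k2,k165),(k10,k175)],[(k9,k152),(k7,
    k162),(k1,k163),(k3,k163),(k5,k164),(k11,k189)],[(k8,k126),(k6,k160),(k4,k162),(k0,k163),(k2,k163),(k10,k163)],
    [(k9,k150),(k5,k154),(k7,k160),(k3,k163),(k11,k167),(k1,k175)],[(k8,k136),(k10,k139),(k6,k150),(k0,k151),(k4,
    k152),(k2,k161)],[(k7,k126),(k9,k136),(k5,k152),(k11,k153),(k1,k167),(k3,k175)],[(k0,k142),(k10,k150),(k8,k153),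
    (k2,k166),(k6,k167),(k4,k189)],[(k9,k139),(k11,k150),(k7,k163),(k1,k164),(k3,k166),(k5,k175)]]
    [] k0
    [[k2,k0,k0,k0,k0,k1],[k1,k1,k0,k0,k0,k1],[k1,k0,k1,k0,k1,k0],[k1,k0,k0,k1,k1,k0],[k1,k0,k0,k0,k2,k0],[k1,k0,k0,k0,
    k1,k1],[k1,k0,k0,k0,k0,k2],[k0,k1,k1,k0,k1,k0],[k0,k1,k0,k1,k1,k0],[k0,k1,k0,k0,k2,k0],[k0,k0,k2,k0,k1,k0],[k0,k0,
    k1,k2,k0,k0],[k0,k0,k1,k1,k1,k0],[k0,k0,k1,k0,k2,k0],[k0,k0,k0,k2,k1,k0],[k0,k0,k0,k1,k2,k0],[k0,k0,k0,k1,k1,k1],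
    [k0,k0,k0,k0,k3,k0],[k0,k0,k0,k0,k2,k1],[k0,k0,k0,k0,k1,k2],[k0,k0,k0,k0,k0,k3]]
    [.ref k12 k0 [(z5,[z6,z1]),(z5,[y6,z4,z15]),(z5,[z9,y6,z0,z5]),(z1,[z0,z0,z0,z0,z1]),(z5,[y12,z3,y15,y5,y5,z15])],
    .ref k12 k0 [(z1,[z6,y1,y6]),(z1,[y6,z2,z9]),(z1,[z9,y3,y9,z1]),(z1,[z0,z0,z0,z0,z1]),(z1,[y12,z3,z9,y1,y1,z3])],
    .ref k12 k0 [(z1,[z6,z1,z6,z0,z2,y6]),(z1,[y6,z0,y3,z0,y2,z6]),(z1,[z9,z0,z9,z1,z3,y9]),(z1,[z0,z0,z0,z0,z1]),(z1,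
    [y12,y1,y15,y1,y5,z15])],.ref k12 k0 [(z1,[y3,z1,y3,y1,z0,z3]),(z1,[z3,z0,z6,z1,z0,y3]),(z2,[y9,z0,y9,y1,z0,z9]),
    (z1,[z0,z0,z0,z0,z1]),(z1,[z6,y1,z3,z1,y1,y3])],.ref k12 k0 [(z3,[y3,z2,y6,y2,y2,z6]),(z3,[z3,z1,z15,z2,z2,y6]),
    (z2,[y3,y1,y6,z0,y2,z6]),(z1,[z0,z0,z0,z0,z1]),(z3,[z6,y1,z3,z1,z1,y3])],.ref k12 k0 [(z1,[y6,z1,y6,y2,y2,z6]),
    (z1,[z6,z0,z9,z2,z2,y6]),(z1,[y9,z0,y9,y2,y3,z9]),(z1,[z0,z0,z0,z0,z1]),(z1,[z12,y1,z9,z3,z3,y9])],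
    .ref k12 k0 [(z2,[z3,z1]),(z2,[y3,z1,z6]),(z4,[z9,y3,z0,z4]),(z1,[z0,z0,z0,z0,z1]),(z1,[y3,z0,y3,y1,y1,z3])],
    .ref k12 k0 [(z3,[y6,z1,z0,z0,y2,z6]),(z3,[z6,z2,z9,z0,z2,y6]),(z1,[y3,y1,z0,z1,y1,z3]),(z1,[z0,z0,z0,z0,z1]),(z3,
    [z12,z1,y9,y3,z1,y3])],.ref k12 k0 [(z3,[y3,z2,z0,y1,z0,z3]),(z3,[z3,z1,z9,z1,z0,y3]),(z2,[y3,y1,z0,z1,z0,z3]),
    (z1,[z0,z0,z0,z0,z1]),(z3,[z6,y1,y9,y1,y3,z3])],.ref k12 k0 [(z5,[y3,z3,y3,y2,y2,z6]),(z5,[z3,z2,z18,z2,z2,y6]),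
    (z10,[y9,y6,y9,z4,y6,z18]),(z1,[z0,z0,z0,z0,z1]),(z5,[z6,y1,y9,y1,y1,z3])],.ref k12 k0 [(z1,[z3,z2,z3,y1,z1,y3]),
    (z1,[y3,y1,z0,z1,y1,z3]),(z2,[z9,z3,z9,y1,z3,y9]),(z1,[z0,z0,z0,z0,z1]),(z1,[y6,y3,y9,z1,y3,z9])],
    .ref k12 k0 [(z3,[z6,z3,z0,y2,y4]),(z3,[y6,z0,z9,z2,z4]),(z1,[z3,z0,z0,z0,y2]),(z1,[z0,z0,z0,z0,z1]),(z3,[y12,y3,
    y9,z1,z5,z9])],.ref k12 k0 [(z1,[y6,y1,y6,z0,z0,z6]),(z1,[z6,z2,z9,z0,z0,y6]),(z1,[y9,y3,y9,z1,z0,z9]),(z1,[z0,z0,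
    z0,z0,z1]),(z1,[z12,z3,z9,y1,y1,y9])],.ref k12 k0 [(z5,[y6,z1,y12,y2,y4,z12]),(z5,[z6,z4,z27,z2,z4,y12]),(z5,[y9,
    y6,y18,z2,y6,z18]),(z1,[z0,z0,z0,z0,z1]),(z5,[z12,z3,z9,y1,z3,y9])],.ref k12 k0 [(z2,[y3,z1,y3,y1,z1,z3]),(z2,[z3,
    z1,z9,z1,y1,y3]),(z4,[y9,y3,y9,z1,z3,z9]),(z1,[z0,z0,z0,z0,z1]),(z1,[z3,z0,z0,z0,y2])],.ref k12 k0 [(z4,[y3,z2,y6,
    y2,y1,z6]),(z4,[z3,z2,z18,z2,z1,y6]),(z8,[y9,y6,y18,z2,y3,z18]),(z1,[z0,z0,z0,z0,z1]),(z2,[z3,z0,z0,z0,y1])],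
    .ref k12 k0 [(z3,[y6,z1,y6,y2,z0,z6]),(z3,[z6,z2,z15,z2,z0,y6]),(z1,[y3,y1,y3,z0,z0,z3]),(z1,[z0,z0,z0,z0,z1]),
    (z3,[z12,z1,z3,z1,y3,y3])],.ref k12 k0 [(z2,[y1,z1,y3,y1,y1,z3]),(z2,[z1,z1,z9,z1,z1,y3]),(z4,[y3,y3,y9,z1,y3,
    z9]),(z1,[z0,z0,z0,z0,z1]),(z1,[z1])],.ref k12 k0 [(z7,[y6,z3,y12,y4,y4,z12]),(z7,[z6,z4,z33,z4,z4,y12]),(z7,[y9,
    y6,y18,z1,y6,z18]),(z1,[z0,z0,z0,z0,z1]),(z7,[z12,z1,z3,z1,z1,y3])],.ref k12 k0 [(z1,[y3,z0,y3,y1,y1,z3]),(z1,[z3,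
    z1,z6,z1,z1,y3]),(z2,[y9,y3,y9,y1,y3,z9]),(z1,[z0,z0,z0,z0,z1]),(z1,[z6,z1,z3,z1,z1,y3])],.ref k12 k0 [(z1,[z2,
    z1]),(z1,[y2,z0,z3]),(z1,[z3,z0,z0,z1]),(z1,[z0,z0,z0,z0,z1]),(z1,[y4,y1,y3,y1,y1,z3])]],
    .lp [k78,k76,k82,k80,k80,k82] [k2,k2,k3,k3,k0,k0,k1,k1,k1,k1,k0,k0] k0 [[k0,k0,k0,k0,k0,k0,k14,k0,k0,k0,k4],[k0,k0,k0,
    k6,k0,k0,k0,k0,k0,k6],[k6,k0,k0,k0,k0,k0,k2],[k0,k0,k0,k0,k0,k0,k0,k0,k0,k2,k0,k16],[k0,k0,k0,k0,k0,k0,k0,k0,k22],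
    [],[k0,k0,k0,k0,k0,k0,k0,k0,k0,k0,k6],[k0,k14,k0,k2],[k6,k0,k2],[k0,k0,k0,k0,k0,k22,k0,k0,k0,k0,k0,k2],[k0,k0,k16,
    k0,k0,k0,k0,k0,k2],[k0,k4,k0,k0,k0,k0,k0,k6]] (nat_lit 240) k5
    [[(k6,k73),(k0,k74),(k4,k80),(k10,k80),(k8,k81),(k2,k93)],[(k9,k65),(k1,k74),(k3,k77),(k7,k79),(k5,k86),(k11,
    k86)],[(k2,k70),(k8,k72),(k0,k77),(k4,k79),(k10,k83),(k6,k92)],[(k3,k70),(k9,k76),(k7,k78),(k5,k79),(k11,k81),(k1,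
    k93)],[(k10,k66),(k2,k79),(k8,k79),(k4,k82),(k6,k83),(k0,k86)],[(k11,k60),(k3,k79),(k1,k80),(k7,k81),(k9,k81),(k5,
    k82)],[(k2,k78),(k0,k79),(k6,k80),(k4,k81),(k10,k81),(k8,k102)],[(k1,k73),(k7,k80),(k9,k80),(k11,k81),(k5,k83),
    (k3,k92)],[(k0,k65),(k2,k76),(k6,k80),(k8,k80),(k4,k81),(k10,k87)],[(k3,k72),(k5,k79),(k9,k80),(k1,k81),(k11,k81),
    (k7,k102)],[(k4,k60),(k10,k80),(k2,k81),(k6,k81),(k8,k81),(k0,k86)],[(k5,k66),(k1,k80),(k11,k80),(k7,k81),(k3,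
    k83),(k9,k87)]]
    [] k0
    [[k3,k0,k0,k0,k0,k0],[k2,k0,k0,k1,k0,k0],[k2,k0,k0,k0,k1,k0],[k1,k1,k0,k0,k1,k0],[k1,k1,k1,k0,k0,k0],[k1,k0,k1,k0,
    k1,k0],[k1,k0,k1,k0,k0,k1],[k1,k1,k0,k1,k0,k0],[k1,k0,k0,k2,k0,k0],[k1,k0,k0,k0,k2,k0],[k1,k1,k0,k0,k0,k1],[k1,k0,
    k0,k0,k1,k1],[k0,k3,k0,k0,k0,k0],[k0,k2,k1,k0,k0,k0],[k0,k2,k0,k0,k1,k0],[k0,k2,k0,k0,k0,k1],[k0,k1,k1,k0,k1,k0],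
    [k0,k1,k1,k0,k0,k1],[k0,k1,k0,k1,k1,k0],[k0,k1,k0,k0,k2,k0],[k0,k0,k2,k0,k0,k1],[k0,k0,k1,k1,k0,k1],[k0,k0,k1,k0,
    k1,k1],[k0,k0,k1,k0,k0,k2]]
    [.ref (nat_lit 418) k2 [(z1,[y1,z0,y3,y3,z3]),(z1,[z0,z0,z0,z1]),(z1,[y2,z3,z3]),(z1,[z1])],.ref k97 k1 [(z1,[y2,
    y1,y2,y2,z2]),(z1,[z1,z0,z1,z1,y1]),(z1,[z1]),(z1,[y1,z0,y1,z0,z1])],.ref (nat_lit 203) k1 [(z1,[y4,y1]),(z1,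
    [z1]),(z1,[z2,z0,y1,y1,z1]),(z1,[y2,z0,z0,z1])],.ref (nat_lit 217) k4 [(z1,[y2,z1,z2]),(z1,[y1,z1,z1]),(z1,[z2,y1,
    y1]),(z1,[z0,z0,z0,z1])],.ref (nat_lit 220) k8 [(z1,[y1,z1,z2,z2,y1]),(z1,[z0,y1,y2,y2,z2]),(z1,[y2,z2,z3,z3,y1]),
    (z1,[z1,z0,z1,z0,y1])],.ref (nat_lit 220) k8 [(z1,[z1,z0,z1,z0,y1]),(z1,[z0,y1,y2,y2,z2]),(z1,[z2,z0,z1,y1,y1]),
    (z1,[y1,z1,z2,z2,y1])],.ref (nat_lit 231) k0 [(z1,[z1,z1,z0,y1]),(z1,[y2,z1,z3,z2]),(z1,[z0,z0,z0,z1]),(z1,[y1,y1,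
    y3,y2,z3])],.ref (nat_lit 217) k5 [(z1,[y2,z2,z4,z3,y2]),(z1,[y1,z2,z5,z3,y3]),(z1,[z2,y2,y5,y3,z3]),(z1,[z0,y1,
    y2,y2,z2])],.ref (nat_lit 217) k4 [(z1,[y2,y1,y4,y4,z4]),(z1,[y1,z0,y2,y2,z2]),(z1,[z2,z1,z5,z4,y4]),(z1,[z0,z0,
    z0,z1])],.ref k97 k1 [(z1,[y2,y1]),(z1,[z1]),(z1,[z1,z0,y1,y1,z1]),(z1,[y1,z0,z0,z1])],.ref (nat_lit 220) k8 [(z1,
    [z1,z0,z0,z1,y1]),(z1,[z0,y1,y2,y2,z2]),(z1,[z2,z0,y1,z1,y1]),(z1,[y1,z1,z3,z1,y1])],.ref (nat_lit 220) k8 [(z3,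
    [z1,z1,z3,z3,y3]),(z1,[z0,y1,y2,y2,z2]),(z3,[z2,z2,z3,z3,y3]),(z3,[y1,z2,z6,z3,y3])],.ref (nat_lit 418) k8 [(z1,
    [y1,z3,z9,z6,y6]),(z1,[z0,y1,y2,y2,z2]),(z1,[y2,z6,z15,z9,y9]),(z1,[z1])],.ref (nat_lit 220) k8 [(z4,[y1,z2,z6,z5,
    y4]),(z1,[z0,y1,y2,y2,z2]),(z2,[y1,z2,z4,z3,y2]),(z4,[z1,z2,z6,z3,y4])],.ref k97 k6 [(z1,[y2,z0,z0,z1]),(z1,[z1,
    y1,y3,y2,z2]),(z1,[z1]),(z1,[y1,z0,z1])],.ref (nat_lit 220) k8 [(z2,[y1,z1,z4,z2,y2]),(z1,[z0,y1,y2,y2,z2]),(z1,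
    [y1,z1,z3,z1,y1]),(z2,[z1,z1,z2,z2,y2])],.ref (nat_lit 220) k8 [(z2,[y1,z1,z3,z3,y2]),(z1,[z0,y1,y2,y2,z2]),(z1,
    [y1,z1,z2,z2,y1]),(z2,[z1,z1,z3,z1,y2])],.ref (nat_lit 231) k10 [(z1,[z1,z3,z8,z5,y6]),(z1,[y2,z0,y1,y1,z3]),(z1,
    [z0,y1,y2,y2,z2]),(z1,[y1,z0,z1,z1])],.ref (nat_lit 231) k0 [(z1,[y1,z1,z0,y1,z1]),(z1,[z2,z1,z3,z2,y2]),(z1,[z0,
    z0,z0,z1]),(z1,[z1,y1,y3,y2,z2])],.ref (nat_lit 217) k5 [(z1,[y2,z2,z6,z5,y4]),(z1,[y1,z2,z6,z4,y4]),(z1,[z2,y2,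
    y7,y5,z5]),(z1,[z0,y1,y2,y2,z2])],.ref (nat_lit 217) k4 [(z1,[z1,z0,z0,y2]),(z2,[z1,z1,z0,y2]),(z1,[y1,z0,z1,z2]),
    (z1,[z0,z0,z0,z1])],.ref (nat_lit 217) k4 [(z1,[z2,z1,z2,z0,y2]),(z1,[z1,z1,z1,z0,y1]),(z1,[y2,y1,y1,z0,z2]),(z1,
    [z0,z0,z0,z1])],.ref (nat_lit 217) k5 [(z1,[z2,z2,z4,z3,y4]),(z1,[z1,z2,z5,z3,y4]),(z1,[y2,y2,y5,y3,z5]),(z1,[z0,
    y1,y2,y2,z2])],.ref (nat_lit 217) k5 [(z1,[z1,z2,z4,z4,y4]),(z2,[z1,z4,z10,z7,y8]),(z1,[y1,y2,y5,y4,z5]),(z1,[z0,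
    y1,y2,y2,z2])]],
    .lp [k156,k176,k164,k152,k144,k166] [k10,k10,k0,k0,k6,k6,k12,k12,k16,k16,k5,k5] k0 [[k0,k0,k0,k0,k0,k0,k30,k0,k10],
    [k0,k0,k0,k0,k0,k12,k0,k0,k0,k0,k0,k4],[k0,k0,k0,k0,k0,k0,k0,k0,k0,k0,k4],[],[k12],[k0,k0,k0,k0,k0,k0,k0,k22,k0,
    k22],[k0,k0,k0,k0,k22,k0,k0,k0,k6],[k0,k30,k0,k0,k0,k0,k0,k0,k0,k0,k0,k16],[k0,k0,k0,k0,k22,k0,k0,k0,k0,k0,k20],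
    [k0,k10,k0,k0,k0,k0,k0,k6],[k4,k0,k0,k0,k0,k0,k16],[k0,k0,k0,k4,k0,k0,k0,k0,k0,k20]] (nat_lit 480) k5
    [[(k8,k130),(k0,k160),(k4,k160),(k10,k161),(k2,k162),(k6,k170)],[(k9,k120),(k11,k151),(k1,k160),(k5,k160),(k3,
    k166),(k7,k166)],[(k4,k158),(k0,k166),(k10,k167),(k8,k170),(k2,k176),(k6,k194)],[(k9,k160),(k1,k162),(k7,k164),
    (k5,k170),(k11,k171),(k3,k176)],[(k8,k154),(k6,k158),(k0,k160),(k4,k164),(k10,k169),(k2,k170)],[(k3,k158),(k7,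
    k158),(k1,k160),(k5,k164),(k9,k176),(k11,k187)],[(k8,k126),(k6,k130),(k4,k158),(k10,k159),(k2,k164),(k0,k166)],
    [(k7,k130),(k9,k148),(k11,k153),(k5,k158),(k1,k170),(k3,k194)],[(k0,k120),(k10,k139),(k6,k148),(k8,k150),(k2,
    k160),(k4,k176)],[(k7,k126),(k1,k130),(k9,k150),(k5,k154),(k11,k155),(k3,k170)],[(k0,k151),(k6,k153),(k8,k155),
    (k2,k171),(k10,k186),(k4,k187)],[(k9,k139),(k7,k159),(k1,k161),(k3,k167),(k5,k169),(k11,k186)]]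
    [] k0
    [[k2,k0,k0,k0,k1,k0],[k2,k0,k0,k0,k0,k1],[k1,k1,k0,k0,k1,k0],[k1,k0,k1,k0,k1,k0],[k1,k0,k0,k2,k0,k0],[k1,k0,k0,k1,
    k1,k0],[k1,k0,k0,k0,k2,k0],[k1,k0,k0,k0,k1,k1],[k0,k1,k1,k0,k1,k0],[k0,k0,k1,k2,k0,k0],[k0,k0,k1,k1,k1,k0],[k0,k0,
    k0,k3,k0,k0],[k0,k0,k0,k2,k1,k0],[k0,k0,k0,k2,k0,k1],[k0,k0,k0,k1,k2,k0],[k0,k0,k0,k1,k1,k1],[k0,k0,k0,k0,k3,k0],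
    [k0,k0,k0,k0,k2,k1]]
    [.ref k12 k0 [(z8,[z9,z1]),(z4,[y3,z1,z4]),(z2,[y3,z1,z0,z6]),(z8,[z3,y1,z0,z0,z4]),(z4,[z3,y1])],
    .ref k12 k0 [(z4,[z6,z1,z2,z6,z1,y6]),(z6,[y6,z1,z4,y6,y1,z6]),(z3,[y6,z1,y2,z3,y1,z6]),(z12,[z6,y1,z2,z6,z7,y6]),
    (z6,[z6,y1,z2,z6,z1,y6])],.ref k12 k0 [(z1,[z3,z0,y1]),(z3,[y6,z1,z5]),(z3,[y12,z2,z4,z9]),(z6,[z6,y1,y2,z0,z3]),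
    (z3,[z6,y1,y2])],.ref k12 k0 [(z1,[z9,y1,z0,y9]),(z1,[y6,z1,z1,z6]),(z1,[y12,z2,z0,z15]),(z2,[z6,y1,z0,y6,z1]),
    (z1,[z6,y1,z0,y6])],.ref k12 k0 [(z5,[z9,z1,z0,z0,y3]),(z5,[y6,z1,z5,z0,z2]),(z5,[y12,z2,z0,z15,z4]),(z10,[z6,y1,
    z0,z0,z3]),(z5,[z6,y1,z0,z0,y2])],.ref k12 k0 [(z4,[z6,z1,z0,z0,y1]),(z6,[y6,z1,z6,z0,z1]),(z3,[y6,z1,z0,z9,z1]),
    (z12,[z6,y1,z0,z0,z5]),(z6,[z6,y1,z0,z0,y1])],.ref k12 k0 [(z7,[z9,z2]),(z7,[y6,z1,z7]),(z7,[y12,z2,z0,z21]),(z14,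
    [z6,y1,z0,z0,z7]),(z7,[z6,y1])],.ref k12 k0 [(z10,[z18,z5,z6,z18,z3,y18]),(z5,[y6,z0,z3,y6,y1,z6]),(z5,[y12,z0,y4,
    z3,y2,z12]),(z5,[z3,z0,z1,z3,z3,y3]),(z5,[z6,z0,z2,z6,z1,y6])],.ref k12 k0 [(z4,[y9,z2,z3,z9]),(z2,[z3,z0,z1,y3]),
    (z1,[z3,z0,y1]),(z4,[y3,z0,z1,z3,z2]),(z2,[y3,z0,z1,z3])],.ref k12 k0 [(z2,[y9,z1,z0,z9,z3]),(z1,[z3,z0,z1,y3,
    y1]),(z1,[z6,z0,z0,y3,y2]),(z2,[y3,z0,z0,z3,z2]),(z1,[y3,z0,z0,z3,z1])],.ref k12 k0 [(z2,[y18,z1,z0,z18,z3]),(z1,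
    [z6,z0,z1,y6,y1]),(z1,[z12,z0,z0,y9,y2]),(z1,[y3,z0,z0,z3,z1]),(z1,[y6,z0,z0,z6,z1])],.ref k12 k0 [(z2,[z6,z1,z0,
    z0,y3]),(z1,[y2,z0,z1,z0,z1]),(z1,[y4,z0,z0,z3,z2]),(z1,[z1]),(z1,[z2,z0,z0,z0,y1])],.ref k12 k0 [(z4,[z9,z2,z0,
    z0,y3]),(z2,[y3,z0,z2,z0,z1]),(z1,[y3,z0,z0,z3,z1]),(z4,[z3,z0,z0,z0,z1]),(z2,[z3,z0,z0,z0,y1])],.ref k12 k0 [(z4,
    [z18,z5,z6,z18,y3,y18]),(z2,[y6,y1,z0,y6,z1,z6]),(z1,[y6,y1,y2,y3,z1,z6]),(z4,[z6,z1,z2,z6,z1,y6]),(z2,[z6,z1,z2,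
    z6,y1,y6])],.ref k12 k0 [(z10,[z18,z5,z0,z0,y3]),(z5,[y6,z0,z5,z0,z1]),(z5,[y12,z0,z0,z15,z2]),(z5,[z3,z0,z0,z0,
    z2]),(z5,[z6,z0,z0,z0,y1])],.ref k12 k0 [(z1,[z3,z1,z1,z3,z0,y3]),(z3,[y6,y1,z1,y6,z0,z6]),(z3,[y12,y2,y4,y3,z0,
    z12]),(z6,[z6,z1,z2,z6,z3,y6]),(z3,[z6,z1,z2,z6,z0,y6])],.ref k12 k0 [(z2,[z3,z1]),(z1,[y1,z0,z1]),(z1,[y2,z0,z0,
    z3]),(z2,[z1,z0,z0,z0,z1]),(z1,[z1])],.ref k12 k0 [(z8,[z18,z7,z6,z18,z3,y18]),(z4,[y6,y1,z2,y6,y1,z6]),(z2,[y6,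
    y1,y2,z0,y1,z6]),(z8,[z6,z1,z2,z6,z5,y6]),(z4,[z6,z1,z2,z6,z1,y6])]],
    .lp [(nat_lit 322),(nat_lit 332),(nat_lit 322),(nat_lit 320),(nat_lit 304),(nat_lit 318)] [k5,k5,k0,k0,k5,k5,k6,k6,
    k14,k14,k7,k7] k0 [[k0,k0,k0,k0,k0,k0,k0,k0,k8,k0,k2],[k0,k0,k0,k0,k0,k10],[k0,k0,k0,k0,k0,k0,k0,k0,k0,k0,k6],[k0,
    k0,k0,k0,k0,k0,k0,k4,k0,k12],[k10],[k0,k0,k0,k0,k0,k0,k0,k50],[k0,k0,k4,k0,k50],[k0,k0,k0,k0,k0,k0,k0,k0,k0,k8,k0,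
    k14],[k0,k0,k12,k0,k0,k0,k8],[k0,k8,k0,k0,k0,k0,k0,k0,k0,k0,k0,k4],[k0,k0,k0,k0,k0,k0,k14,k0,k4],[k0,k2,k0,
    k6]] (nat_lit 960) k5
    [[(k8,(nat_lit 317)),(k0,(nat_lit 320)),(k10,(nat_lit 320)),(k2,(nat_lit 321)),(k4,(nat_lit 322)),(k6,
    (nat_lit 335))],[(k11,(nat_lit 312)),(k9,(nat_lit 313)),(k1,(nat_lit 320)),(k5,(nat_lit 322)),(k3,(nat_lit 327)),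
    (k7,(nat_lit 331))],[(k4,(nat_lit 317)),(k6,(nat_lit 326)),(k8,(nat_lit 326)),(k0,(nat_lit 327)),(k10,
    (nat_lit 327)),(k2,(nat_lit 332))],[(k1,(nat_lit 321)),(k9,(nat_lit 322)),(k7,(nat_lit 326)),(k5,(nat_lit 327)),
    (k3,(nat_lit 332)),(k11,(nat_lit 337))],[(k8,(nat_lit 301)),(k6,(nat_lit 317)),(k0,(nat_lit 322)),(k4,
    (nat_lit 322)),(k10,(nat_lit 326)),(k2,(nat_lit 327))],[(k3,(nat_lit 317)),(k11,(nat_lit 320)),(k7,(nat_lit 321)),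
    (k1,(nat_lit 322)),(k5,(nat_lit 322)),(k9,(nat_lit 363))],[(k6,(nat_lit 270)),(k8,(nat_lit 312)),(k10,
    (nat_lit 319)),(k4,(nat_lit 321)),(k2,(nat_lit 326)),(k0,(nat_lit 331))],[(k7,(nat_lit 270)),(k9,(nat_lit 312)),
    (k5,(nat_lit 317)),(k3,(nat_lit 326)),(k11,(nat_lit 327)),(k1,(nat_lit 335))],[(k8,(nat_lit 296)),(k10,
    (nat_lit 297)),(k6,(nat_lit 312)),(k0,(nat_lit 313)),(k2,(nat_lit 322)),(k4,(nat_lit 363))],[(k9,(nat_lit 296)),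
    (k5,(nat_lit 301)),(k11,(nat_lit 311)),(k7,(nat_lit 312)),(k1,(nat_lit 317)),(k3,(nat_lit 326))],[(k8,
    (nat_lit 311)),(k0,(nat_lit 312)),(k10,(nat_lit 314)),(k4,(nat_lit 320)),(k6,(nat_lit 327)),(k2,(nat_lit 337))],
    [(k9,(nat_lit 297)),(k11,(nat_lit 314)),(k7,(nat_lit 319)),(k1,(nat_lit 320)),(k5,(nat_lit 326)),(k3,
    (nat_lit 327))]]
    [] k0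
    [[k2,k0,k0,k0,k1,k0],[k2,k0,k0,k0,k0,k1],[k1,k0,k1,k0,k1,k0],[k1,k0,k0,k2,k0,k0],[k1,k0,k0,k0,k2,k0],[k1,k0,k0,k0,
    k1,k1],[k1,k0,k0,k0,k0,k2],[k0,k1,k1,k0,k1,k0],[k0,k1,k0,k2,k0,k0],[k0,k1,k0,k0,k2,k0],[k0,k0,k1,k2,k0,k0],[k0,k0,
    k1,k1,k0,k1],[k0,k0,k1,k1,k1,k0],[k0,k0,k1,k0,k1,k1],[k0,k0,k0,k3,k0,k0],[k0,k0,k0,k2,k1,k0],[k0,k0,k0,k2,k0,k1],
    [k0,k0,k0,k1,k2,k0],[k0,k0,k0,k1,k1,k1],[k0,k0,k0,k0,k3,k0],[k0,k0,k0,k0,k2,k1],[k0,k0,k0,k0,k1,k2],[k0,k0,k0,k0,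
    k0,k3]]
    [.ref k12 k0 [(z8,[z9,z5,z3,z3,z9,y9]),(z1,[z0,z0,z1]),(z2,[y3,z1,y1,z1,y3,z3]),(z4,[y3,z1,y1,y1,z9,z3]),(z4,[z3,
    y5,y3,y3,y9,z9])],.ref k12 k0 [(z7,[z9,z1]),(z1,[z0,z0,z1]),(z7,[y12,z8,z0,z7]),(z7,[y6,z4,z0,z0,z21]),(z7,[z6,
    y11,y7,y7,y21,z21])],.ref k12 k0 [(z1,[z9,z1,z3,z0,z9,y9]),(z1,[z0,z0,z1]),(z1,[y12,z0,y4,z1,y12,z12]),(z1,[y6,z0,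
    y2,z0,y3,z6]),(z1,[z6,y1,z1,y1,z3,y3])],.ref k12 k0 [(z1,[y9,z4,z0,z0,z18]),(z1,[z0,z0,z1]),(z1,[z12,y4,z0,z1,
    y24]),(z1,[z6,y2,z0,z0,y9]),(z1,[y6,z1,y1,y1,z9,z3])],.ref k12 k0 [(z7,[z9,z10,z6,z6,z18,y18]),(z1,[z0,z0,z1]),
    (z7,[y12,y4,y8,y1,y24,z24]),(z7,[y6,y2,y4,y4,z9,z12]),(z7,[z6,y5,y3,y3,y9,z9])],.ref k12 k0 [(z2,[z3,z2,z1,z1,z3,
    y3]),(z1,[z0,z0,z1]),(z3,[y6,z0,y2,z1,y6,z6]),(z3,[y3,z0,y1,y1,z6,z3]),(z3,[z3,y3,y2,y2,y6,z6])],.ref k12 k0 [(z5,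
    [z9,z2]),(z1,[z0,z0,z1]),(z5,[y12,z4,z0,z5]),(z5,[y6,z2,z0,z0,z15]),(z5,[z6,y7,y5,y5,y15,z15])],.ref k12 k0 [(z2,
    [y9,y1,z0,z0,y9,z9]),(z1,[z0,z0,z1]),(z1,[z6,z2,z0,z1,z6,y6]),(z1,[z3,z1,z0,z0,z6,y3]),(z1,[y3,y2,y1,y1,y6,z6])],
    .ref k12 k0 [(z4,[y9,z4,z3,z0,z18]),(z1,[z0,z0,z1]),(z1,[z3,z0,y1,z1,y6]),(z2,[z3,z0,y1]),(z2,[y3,y2,y1,y2,z0,
    z6])],.ref k12 k0 [(z4,[z9,z10,z3,z6,z18,y18]),(z1,[z0,z0,z1]),(z1,[y3,y2,y1,y1,y6,z6]),(z2,[y3,y2,y1,y2,z0,z6]),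
    (z2,[z3,z0,y1])],.ref k12 k0 [(z8,[y9,z8,z0,z3,z18]),(z1,[z0,z0,z1]),(z2,[z3,z0,z0,z1,y6]),(z4,[z3,z0,z0,y1,z6]),
    (z4,[y3,y4,y4,y3,y6,z12])],.ref k12 k0 [(z5,[y9,z5,z0,z3,z9]),(z1,[z0,z0,z1]),(z5,[z12,z0,z0,z1,y12]),(z5,[z6,z0,
    z0,y2,z9]),(z5,[y6,y5,y5,y3,y9,z15])],.ref k12 k0 [(z4,[y9,z1,y3,z0,z0,z9]),(z1,[z0,z0,z1]),(z1,[z3,z1,z1,z1,z0,
    y3]),(z2,[z3,z1,z1,z0,z6,y3]),(z2,[y3,y3,y3,y2,y6,z9])],.ref k12 k0 [(z1,[y9,y2,y3,z0,y9,z9]),(z1,[z0,z0,z1]),(z1,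
    [z12,z4,z4,z1,z12,y12]),(z1,[z6,z2,z2,z0,z9,y6]),(z1,[y6,y3,y3,y1,y9,z9])],.ref k12 k0 [(z2,[y3,z2,z0,z0,z9]),(z1,
    [z0,z0,z1]),(z1,[z2,z0,z0,z1,y6]),(z1,[z1]),(z1,[y1,y1,y1,y1,z0,z3])],.ref k12 k0 [(z2,[y9,y1,y3,y3,z9,z9]),(z1,
    [z0,z0,z1]),(z1,[z6,z2,z2,z3,y6,y6]),(z1,[z3,z1,z1,z1,z0,y3]),(z1,[y3,y2,y2,y2,z0,z6])],.ref k12 k0 [(z1,[y3,z1,
    z0,z0,z6]),(z1,[z0,z0,z1]),(z1,[z4,z0,z0,z1,y8]),(z1,[z2,z0,z0,z0,y1]),(z1,[y2,y1,y1,y1,z1,z3])],.ref k12 k0 [(z2,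
    [z9,z8,z6,z6,z9,y18]),(z1,[z0,z0,z1]),(z1,[y6,y4,y4,y3,y6,z12]),(z1,[y3,y2,y2,y2,z0,z6]),(z1,[z3,z1,z1,z1,z0,
    y3])],.ref k12 k0 [(z1,[z9,z4,z3,z3,z0,y9]),(z1,[z0,z0,z1]),(z1,[y12,y4,y4,y3,z0,z12]),(z1,[y6,y2,y2,y2,z3,z6]),
    (z1,[z6,z1,z1,z1,y3,y3])],.ref k12 k0 [(z2,[z3,z5,z3,z3,z9,y9]),(z1,[z0,z0,z1]),(z1,[y2,y2,y2,y1,y6,z6]),(z1,[y1,
    y1,y1,y1,z0,z3]),(z1,[z1])],.ref k12 k0 [(z5,[z9,z11,z6,z6,z18,y18]),(z1,[z0,z0,z1]),(z5,[y12,y8,y8,y3,y24,z24]),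
    (z5,[y6,y4,y4,y4,z3,z12]),(z5,[z6,y1,y1,y1,y3,z3])],.ref k12 k0 [(z4,[z9,z7,z3,z3,z9,y9]),(z1,[z0,z0,z1]),(z1,[y3,
    y1,y1,z0,y3,z3]),(z2,[y3,y1,y1,y1,z3,z3]),(z2,[z3,y1,y1,y1,y3,z3])],.ref k12 k0 [(z1,[z3,z1]),(z1,[z0,z0,z1]),(z1,
    [y4,z0,z0,z1]),(z1,[y2,z0,z0,z0,z3]),(z1,[z2,y1,y1,y1,y3,z3])]],
    .lp [(nat_lit 316),(nat_lit 336),(nat_lit 320),(nat_lit 328),(nat_lit 298),(nat_lit 320)] [k10,k10,k0,k0,k8,k8,k4,k4,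
    k19,k19,k8,k8] k0 [[k0,k0,k0,k0,k0,k0,k14,k0,k0,k0,k22],[k0,k0,k0,k28,k0,k40],[k28,k0,k0,k0,k0,k0,k16],[k0,k0,k0,
    k0,k0,k0,k0,k0,k0,k24],[k40],[k0,k0,k0,k0,k0,k0,k0,k46,k0,k0,k0,k4],[k0,k0,k0,k0,k46,k0,k0,k0,k44],[k0,k14,k0,
    k16],[k0,k0,k24,k0,k0,k0,k0,k0,k0,k0,k40],[k0,k0,k0,k0,k0,k0,k0,k44],[k0,k0,k0,k0,k4],[k0,k22,k0,k0,k0,k0,k0,k0,
    k0,k40]] (nat_lit 960) k5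
    [[(k8,(nat_lit 267)),(k0,(nat_lit 294)),(k10,(nat_lit 318)),(k4,(nat_lit 322)),(k6,(nat_lit 322)),(k2,
    (nat_lit 326))],[(k9,(nat_lit 293)),(k1,(nat_lit 294)),(k11,(nat_lit 318)),(k3,(nat_lit 326)),(k5,(nat_lit 346)),
    (k7,(nat_lit 362))],[(k4,(nat_lit 288)),(k2,(nat_lit 308)),(k8,(nat_lit 317)),(k0,(nat_lit 326)),(k6,
    (nat_lit 346)),(k10,(nat_lit 350))],[(k9,(nat_lit 301)),(k3,(nat_lit 308)),(k1,(nat_lit 326)),(k5,(nat_lit 328)),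
    (k7,(nat_lit 332)),(k11,(nat_lit 352))],[(k8,(nat_lit 285)),(k4,(nat_lit 320)),(k10,(nat_lit 320)),(k2,
    (nat_lit 328)),(k6,(nat_lit 340)),(k0,(nat_lit 346))],[(k3,(nat_lit 288)),(k5,(nat_lit 320)),(k11,(nat_lit 320)),
    (k1,(nat_lit 322)),(k7,(nat_lit 324)),(k9,(nat_lit 355))],[(k6,(nat_lit 282)),(k8,(nat_lit 313)),(k10,
    (nat_lit 320)),(k4,(nat_lit 324)),(k2,(nat_lit 332)),(k0,(nat_lit 362))],[(k11,(nat_lit 280)),(k7,(nat_lit 282)),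
    (k9,(nat_lit 313)),(k1,(nat_lit 322)),(k5,(nat_lit 340)),(k3,(nat_lit 346))],[(k0,(nat_lit 293)),(k2,
    (nat_lit 301)),(k10,(nat_lit 309)),(k6,(nat_lit 313)),(k8,(nat_lit 342)),(k4,(nat_lit 355))],[(k1,(nat_lit 267)),
    (k5,(nat_lit 285)),(k11,(nat_lit 309)),(k7,(nat_lit 313)),(k3,(nat_lit 317)),(k9,(nat_lit 342))],[(k6,
    (nat_lit 280)),(k8,(nat_lit 309)),(k0,(nat_lit 318)),(k4,(nat_lit 320)),(k2,(nat_lit 352)),(k10,(nat_lit 360))],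
    [(k9,(nat_lit 309)),(k1,(nat_lit 318)),(k5,(nat_lit 320)),(k7,(nat_lit 320)),(k3,(nat_lit 350)),(k11,
    (nat_lit 360))]]
    [] k0
    [[k3,k0,k0,k0,k0,k0],[k2,k1,k0,k0,k0,k0],[k2,k0,k0,k0,k1,k0],[k2,k0,k0,k0,k0,k1],[k1,k1,k0,k0,k1,k0],[k1,k0,k1,k0,
    k1,k0],[k1,k0,k0,k1,k1,k0],[k1,k0,k0,k0,k2,k0],[k1,k0,k0,k0,k1,k1],[k0,k3,k0,k0,k0,k0],[k0,k2,k1,k0,k0,k0],[k0,k2,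
    k0,k0,k1,k0],[k0,k1,k2,k0,k0,k0],[k0,k1,k1,k0,k1,k0],[k0,k0,k1,k2,k0,k0],[k0,k0,k1,k1,k1,k0],[k0,k0,k1,k0,k1,k1],
    [k0,k0,k1,k1,k0,k1],[k0,k0,k0,k3,k0,k0],[k0,k0,k0,k2,k1,k0],[k0,k0,k0,k2,k0,k1],[k0,k0,k0,k1,k1,k1]]
    [.ref (nat_lit 420) k3 [(z1,[y1,z3,z6]),(z1,[y1,z3,z0,z3]),(z1,[z0,y1,y1,y1,z1]),(z1,[z1,y3])],
    .ref (nat_lit 206) k8 [(z1,[z1,y2,y1]),(z1,[z0,y1,y1,y1,z1]),(z1,[z4,z1,y1,z3,y3]),(z1,[y1,y1,z1,y3,z3])],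
    .ref (nat_lit 339) k4 [(z1,[y1,z2]),(z1,[z1]),(z1,[y1,z2,z1]),(z1,[z0,z0,z0,z1])],.ref k97 k7 [(z1,[z2,y5,y1,y5,
    z1]),(z1,[z0,z0,z0,z1]),(z1,[y1,z2,z0,z2]),(z1,[z1,y1,z0,y1])],.ref k21 k2 [(z1,[y2,z1,z1,y1,z1]),(z1,[z0,z0,z0,
    z1]),(z1,[z2,y2,y1]),(z1,[y1,z2,z1])],.ref k189 k4 [(z1,[y1,z1,z0,z1]),(z1,[z1,z0,z0,y1]),(z1,[y2,z2,z1,z2]),(z1,
    [z0,z0,z0,z1])],.ref k189 k4 [(z3,[y1,z0,y1,y1,z1]),(z3,[z1,z3,z1,z1,y1]),(z3,[y2,z0,z1,y2,z2]),(z1,[z0,z0,z0,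
    z1])],.ref k97 k7 [(z1,[z2,y3,y1,y5,z1]),(z1,[z0,z0,z0,z1]),(z1,[y1,z1,z0,z2]),(z1,[z1,z0,z0,y1])],
    .ref (nat_lit 206) k8 [(z1,[z1,y1]),(z1,[z0,y1,y1,y1,z1]),(z1,[z4,z5,z3,z3,y3]),(z1,[y1,y2,z0,y3,z3])],
    .ref (nat_lit 421) k0 [(z1,[y2,z3,z6]),(z1,[z1]),(z1,[z2,z0,y6,z3]),(z1,[z0,y1,y1,y1,z1])],.ref k189 k4 [(z4,[z1,
    z0,y2,y1]),(z4,[y1,z4,z2,z1]),(z2,[z1,z0,z0,y1]),(z1,[z0,z0,z0,z1])],.ref (nat_lit 227) k0 [(z1,[y2,z1,z4]),(z1,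
    [z1,z0,y1]),(z1,[z2,z0,y4,z1]),(z1,[z0,y1,y1,y1,z1])],.ref (nat_lit 339) k4 [(z1,[z1,z0,y1,y2]),(z1,[y1,z2,z1,
    z2]),(z1,[z1,z0,z0,y2]),(z1,[z0,z0,z0,z1])],.ref k189 k4 [(z2,[z1,z0,y1,y1]),(z2,[y1,z2,z1,z1]),(z1,[z1,z0,z0,
    y1]),(z1,[z0,z0,z0,z1])],.ref k109 k8 [(z2,[y1,z0,z0,z1]),(z1,[z0,y1,y1,y1,z1]),(z1,[y2,z3,z1,z3,y1]),(z2,[z1,y2,
    z0,y3,z2])],.ref k109 k8 [(z1,[y1,z0,z0,z1]),(z1,[z0,y1,y1,y1,z1]),(z1,[y4,z3,z1,z5,y1]),(z1,[z1,y1,z0,y2,z1])],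
    .ref k189 k4 [(z1,[z1,z0,z0,y1]),(z1,[y1,z1,z0,z1]),(z1,[z2,z0,z1,y2]),(z1,[z0,z0,z0,z1])],.ref k21 k2 [(z1,[z2,
    z1,z1,y1,y1]),(z1,[z0,z0,z0,z1]),(z1,[y2,y2,y1,z0,z2]),(z1,[z1,z2,z1,z0,y1])],.ref (nat_lit 231) k0 [(z2,[z1,z9,
    z3,z3,y3]),(z1,[y1,y3,z0,y3,z3]),(z1,[z0,z0,z0,z1]),(z1,[z1])],.ref (nat_lit 227) k0 [(z1,[z2,z5,z4,z4,y4]),(z1,
    [y1,y2,y1,y2,z2]),(z1,[y2,y4,y4,y3,z4]),(z1,[z0,y1,y1,y1,z1])],.ref (nat_lit 231) k0 [(z1,[z1,z5,z2,z2,y2]),(z1,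
    [y2,y4,y1,y4,z4]),(z1,[z0,z0,z0,z1]),(z1,[z2,z1,z1,z1,y1])],.ref k189 k4 [(z1,[y1,y1,y1,y1,z1]),(z1,[z1,z2,z1,z1,
    y1]),(z1,[y2,y2,y1,y2,z2]),(z1,[z0,z0,z0,z1])]],
    .lp [k156,k176,k164,k152,k144,k166] [k10,k10,k0,k0,k6,k6,k12,k12,k16,k16,k5,k5] k0 [[k0,k0,k0,k0,k0,k0,k30,k0,k10],
    [k0,k0,k0,k0,k0,k12,k0,k0,k0,k0,k0,k4],[k0,k0,k0,k0,k0,k0,k0,k0,k0,k0,k4],[],[k12],[k0,k0,k0,k0,k0,k0,k0,k22,k0,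
    k22],[k0,k0,k0,k0,k22,k0,k0,k0,k6],[k0,k30,k0,k0,k0,k0,k0,k0,k0,k0,k0,k16],[k0,k0,k0,k0,k22,k0,k0,k0,k0,k0,k20],
    [k0,k10,k0,k0,k0,k0,k0,k6],[k4,k0,k0,k0,k0,k0,k16],[k0,k0,k0,k4,k0,k0,k0,k0,k0,k20]] (nat_lit 480) k5
    [[(k8,k130),(k0,k160),(k4,k160),(k10,k161),(k2,k162),(k6,k170)],[(k9,k120),(k11,k151),(k1,k160),(k5,k160),(k3,
    k166),(k7,k166)],[(k4,k158),(k0,k166),(k10,k167),(k8,k170),(k2,k176),(k6,k194)],[(k9,k160),(k1,k162),(k7,k164),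
    (k5,k170),(k11,k171),(k3,k176)],[(k8,k154),(k6,k158),(k0,k160),(k4,k164),(k10,k169),(k2,k170)],[(k3,k158),(k7,
    k158),(k1,k160),(k5,k164),(k9,k176),(k11,k187)],[(k8,k126),(k6,k130),(k4,k158),(k10,k159),(k2,k164),(k0,k166)],
    [(k7,k130),(k9,k148),(k11,k153),(k5,k158),(k1,k170),(k3,k194)],[(k0,k120),(k10,k139),(k6,k148),(k8,k150),(k2,
    k160),(k4,k176)],[(k7,k126),(k1,k130),(k9,k150),(k5,k154),(k11,k155),(k3,k170)],[(k0,k151),(k6,k153),(k8,k155),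
    (k2,k171),(k10,k186),(k4,k187)],[(k9,k139),(k7,k159),(k1,k161),(k3,k167),(k5,k169),(k11,k186)]]
    [] k0
    [[k2,k0,k0,k0,k1,k0],[k2,k0,k0,k0,k0,k1],[k1,k1,k0,k0,k1,k0],[k1,k0,k1,k0,k1,k0],[k1,k0,k0,k2,k0,k0],[k1,k0,k0,k1,
    k1,k0],[k1,k0,k0,k0,k2,k0],[k1,k0,k0,k0,k1,k1],[k0,k1,k1,k0,k1,k0],[k0,k0,k1,k2,k0,k0],[k0,k0,k1,k1,k1,k0],[k0,k0,
    k0,k3,k0,k0],[k0,k0,k0,k2,k1,k0],[k0,k0,k0,k2,k0,k1],[k0,k0,k0,k1,k2,k0],[k0,k0,k0,k1,k1,k1],[k0,k0,k0,k0,k3,k0],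
    [k0,k0,k0,k0,k2,k1]]
    [.ref k12 k0 [(z3,[z3,z2,z1,z1,z3,y3]),(z1,[z0,z0,z1]),(z2,[y3,z1,y1,z1,y3,z3]),(z3,[y3,z1,y1,y1,z6,z3]),(z3,[z3,
    y4,y2,y2,y6,z6])],.ref k12 k0 [(z5,[z6,z1]),(z1,[z0,z0,z1]),(z5,[y9,z6,z0,z5]),(z5,[y6,z4,z0,z0,z15]),(z5,[z6,y9,
    y5,y5,y15,z15])],.ref k12 k0 [(z2,[z3,z2,z0,z1,z3,y3]),(z1,[z0,z0,z1]),(z4,[y9,z0,z0,z1,y9,z9]),(z2,[y3,z0,z0,y1,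
    z3,z3]),(z2,[z3,y2,y2,y1,y3,z3])],.ref k12 k0 [(z1,[z6,z1,z2,z0,z6,y6]),(z1,[z0,z0,z1]),(z1,[y9,z0,y3,z1,y9,z9]),
    (z1,[y6,z0,y2,z0,y3,z6]),(z1,[z6,y1,z1,y1,z3,y3])],.ref k12 k0 [(z1,[y3,z2,z0,z0,z6]),(z1,[z0,z0,z1]),(z2,[z9,y3,
    z0,z2,y18]),(z1,[z3,y1,z0,z0,y3]),(z1,[y3,z0,y1,y1,z3,z3])],.ref k12 k0 [(z1,[z3,z1,z1,z1,z0,y3]),(z1,[z0,z0,z1]),
    (z2,[y9,z0,y3,y1,z0,z9]),(z1,[y3,z0,y1,y1,z3,z3]),(z1,[z3,y1,z0,z0,y3])],.ref k12 k0 [(z3,[z3,z4,z2,z2,z6,y6]),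
    (z1,[z0,z0,z1]),(z2,[y3,y1,y2,z0,y6,z6]),(z3,[y3,y1,y2,y2,z3,z6]),(z3,[z3,y2,y1,y1,y3,z3])],.ref k12 k0 [(z5,[z6,
    z5,z2,z2,z6,y6]),(z1,[z0,z0,z1]),(z5,[y9,z0,y3,z2,y9,z9]),(z5,[y6,z0,y2,y2,z9,z6]),(z5,[z6,y5,y3,y3,y9,z9])],
    .ref k12 k0 [(z1,[y6,y1,z0,z0,y6,z6]),(z1,[z0,z0,z1]),(z1,[z9,z3,z0,z1,z9,y9]),(z1,[z6,z2,z0,z0,z9,y6]),(z1,[y6,
    y3,y1,y1,y9,z9])],.ref k12 k0 [(z7,[y6,z7,z0,z2,z12]),(z1,[z0,z0,z1]),(z7,[z9,z0,z0,z4,y18]),(z7,[z6,z0,z0,y2,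
    z9]),(z7,[y6,y7,y7,y5,y9,z21])],.ref k12 k0 [(z3,[y6,z1,y2,z0,z0,z6]),(z1,[z0,z0,z1]),(z1,[z3,z1,z1,z1,z0,y3]),
    (z3,[z6,z2,z2,z0,z9,y6]),(z3,[y6,y5,y5,y3,y9,z15])],.ref k12 k0 [(z1,[y1,z1,z0,z0,z3]),(z1,[z0,z0,z1]),(z2,[z3,z0,
    z0,z2,y9]),(z1,[z1]),(z1,[y1,y1,y1,y1,z0,z3])],.ref k12 k0 [(z1,[y3,z0,y1,y1,z3,z3]),(z1,[z0,z0,z1]),(z2,[z9,z3,
    z3,z5,y9,y9]),(z1,[z3,z1,z1,z1,z0,y3]),(z1,[y3,y2,y2,y2,z0,z6])],.ref k12 k0 [(z1,[y2,z1,z0,z0,z4]),(z1,[z0,z0,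
    z1]),(z1,[z3,z0,z0,z1,y6]),(z1,[z2,z0,z0,z0,y1]),(z1,[y2,y1,y1,y1,z1,z3])],.ref k12 k0 [(z1,[z3,z3,z2,z2,z3,y6]),
    (z1,[z0,z0,z1]),(z2,[y9,y6,y6,y4,y9,z18]),(z1,[y3,y2,y2,y2,z0,z6]),(z1,[z3,z1,z1,z1,z0,y3])],.ref k12 k0 [(z1,[z6,
    z3,z2,z2,z0,y6]),(z1,[z0,z0,z1]),(z1,[y9,y3,y3,y2,z0,z9]),(z1,[y6,y2,y2,y2,z3,z6]),(z1,[z6,z1,z1,z1,y3,y3])],
    .ref k12 k0 [(z1,[z1,z2,z1,z1,z3,y3]),(z1,[z0,z0,z1]),(z2,[y3,y3,y3,y1,y9,z9]),(z1,[y1,y1,y1,y1,z0,z3]),(z1,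
    [z1])],.ref k12 k0 [(z5,[z6,z9,z4,z4,z12,y12]),(z1,[z0,z0,z1]),(z5,[y9,y6,y6,y1,y18,z18]),(z5,[y6,y4,y4,y4,z3,
    z12]),(z5,[z6,y1,y1,y1,y3,z3])]],
    .lp [k88,k84,k80,k80,k74,k72] [k0,k0,k2,k2,k4,k4,k4,k4,k7,k7,k8,k8] k0 [[k0,k0,k0,k0,k0,k0,k0,k0,k6,k0,k8],[],[k0,k0,
    k0,k0,k2,k0,k0,k0,k0,k0,k6],[k0,k0,k0,k0,k0,k0,k0,k2,k0,k10],[k0,k0,k0,k0,k0,k0,k8],[k0,k0,k0,k2],[k0,k0,k2],[k0,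
    k0,k0,k0,k0,k8,k0,k0,k0,k0,k0,k6],[k0,k0,k10],[k0,k6,k0,k0,k0,k0,k0,k0,k0,k0,k0,k4],[k0,k0,k0,k0,k0,k0,k6,k0,k4],
    [k0,k8,k0,k6]] (nat_lit 240) k5
    [[(k0,k80),(k2,k80),(k10,k80),(k4,k84),(k8,k85),(k6,k90)],[(k11,k74),(k1,k80),(k9,k81),(k5,k84),(k7,k84),(k3,
    k86)],[(k4,k82),(k6,k82),(k2,k84),(k8,k85),(k0,k86),(k10,k86)],[(k1,k80),(k7,k80),(k9,k81),(k5,k82),(k3,k84),(k11,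
    k88)],[(k8,k67),(k6,k78),(k2,k82),(k4,k82),(k10,k82),(k0,k84)],[(k9,k69),(k11,k76),(k7,k80),(k3,k82),(k5,k82),(k1,
    k84)],[(k10,k76),(k8,k77),(k2,k80),(k4,k80),(k0,k84),(k6,k88)],[(k11,k76),(k9,k77),(k5,k78),(k3,k82),(k7,k88),(k1,
    k90)],[(k10,k67),(k4,k69),(k8,k74),(k6,k77),(k0,k81),(k2,k81)],[(k5,k67),(k11,k73),(k9,k74),(k7,k77),(k1,k85),(k3,
    k85)],[(k10,k68),(k8,k73),(k0,k74),(k4,k76),(k6,k76),(k2,k88)],[(k9,k67),(k11,k68),(k7,k76),(k1,k80),(k5,k82),(k3,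
    k86)]]
    [] k0
    [[k2,k0,k0,k0,k0,k1],[k1,k0,k1,k0,k1,k0],[k1,k0,k0,k0,k1,k1],[k1,k0,k0,k0,k0,k2],[k0,k1,k1,k0,k1,k0],[k0,k0,k2,k0,
    k1,k0],[k0,k0,k1,k1,k1,k0],[k0,k0,k1,k1,k0,k1],[k0,k0,k1,k0,k2,k0],[k0,k0,k1,k0,k1,k1],[k0,k0,k1,k0,k0,k2],[k0,k0,
    k0,k1,k2,k0],[k0,k0,k0,k1,k1,k1],[k0,k0,k0,k1,k0,k2],[k0,k0,k0,k0,k3,k0],[k0,k0,k0,k0,k2,k1],[k0,k0,k0,k0,k1,k2],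
    [k0,k0,k0,k0,k0,k3]]
    [.ref k12 k0 [(z5,[z6,z1]),(z1,[z0,z0,z1]),(z5,[y9,z6,z0,z5]),(z5,[z3,y2,z0,z0,z15]),(z5,[y3,y3,y5,y5,y15,z15])],
    .ref k12 k0 [(z1,[y3,z1,y1,z0,y3,z3]),(z1,[z0,z0,z1]),(z2,[z9,z0,z3,z2,z9,y9]),(z2,[y3,z0,y1,z0,z3,z3]),(z2,[z3,
    y2,y1,y2,y3,z3])],.ref k12 k0 [(z1,[z3,z1,z1,z1,z3,y3]),(z1,[z0,z0,z1]),(z2,[y9,z0,y3,y1,y9,z9]),(z2,[z3,z0,z1,z1,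
    z9,y3]),(z2,[y3,y2,y3,y3,y9,z9])],.ref k12 k0 [(z2,[z3,z1]),(z1,[z0,z0,z1]),(z4,[y9,z3,z0,z4]),(z4,[z3,y1,z0,z0,
    z12]),(z4,[y3,y3,y4,y4,y12,z12])],.ref k12 k0 [(z2,[y3,z1,z0,z0,y3,z3]),(z1,[z0,z0,z1]),(z4,[z9,z3,z0,z4,z9,y9]),
    (z4,[y3,y1,z0,z0,z9,z3]),(z4,[z3,y3,y4,y4,y9,z9])],.ref k12 k0 [(z7,[y6,z5,y2,z2,y6,z6]),(z1,[z0,z0,z1]),(z7,[z9,
    z3,z3,z4,z9,y9]),(z7,[y3,y1,y1,z1,z18,z3]),(z7,[z3,y6,y6,y8,y18,z18])],.ref k12 k0 [(z3,[y6,z1,y2,z0,z0,z6]),(z1,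
    [z0,z0,z1]),(z1,[z3,z1,z1,z1,z0,y3]),(z3,[y3,y1,y1,z0,z9,z3]),(z3,[z3,y2,y2,y3,y9,z6])],.ref k12 k0 [(z1,[y6,z1,
    z0,z2,z6]),(z1,[z0,z0,z1]),(z1,[z9,z0,z0,y2,y9]),(z1,[y3,z0,z0,z1,z6]),(z1,[z3,y1,y1,y2,y6,z3])],.ref k12 k0 [(z5,
    [y6,z1,y4,y2,y12,z12]),(z1,[z0,z0,z1]),(z5,[z9,z6,z6,z8,z18,y18]),(z5,[y3,y2,y2,y1,z9,z6]),(z5,[z3,y3,y3,y4,y9,
    z9])],.ref k12 k0 [(z3,[y6,z1,y2,z0,y6,z6]),(z1,[z0,z0,z1]),(z1,[z3,z1,z1,z1,z3,y3]),(z3,[y3,y1,y1,z0,z6,z3]),(z3,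
    [z3,y2,y2,y3,y6,z6])],.ref k12 k0 [(z1,[y6,z1,z0,z2]),(z1,[z0,z0,z1]),(z1,[z9,z0,z0,y2]),(z1,[y3,z0,z0,z1,z3]),
    (z1,[z3,y1,y1,y2,y3,z3])],.ref k12 k0 [(z1,[y6,y3,y4,y4,y6,z12]),(z1,[z0,z0,z1]),(z1,[z9,z6,z6,z7,z9,y18]),(z1,
    [y3,y2,y2,y2,z0,z6]),(z1,[z3,z1,z1,z1,z0,y3])],.ref k12 k0 [(z1,[z6,z3,z2,z2,z0,y6]),(z1,[z0,z0,z1]),(z1,[y9,y3,
    y3,y2,z0,z9]),(z1,[z3,z1,z1,z1,z3,y3]),(z1,[y3,y2,y2,y2,y3,z6])],.ref k12 k0 [(z1,[z2,z1,z0,z0,y2]),(z1,[z0,z0,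
    z1]),(z1,[y3,z0,z0,z1,z3]),(z1,[z1,z0,z0,z0,z2]),(z1,[y1,y1,y1,y1,y2,z3])],.ref k12 k0 [(z1,[y2,y1,y2,y2,y6,z6]),
    (z1,[z0,z0,z1]),(z1,[z3,z3,z3,z4,z9,y9]),(z1,[y1,y1,y1,y1,z0,z3]),(z1,[z1])],.ref k12 k0 [(z1,[y6,y3,y4,y4,y12,
    z12]),(z1,[z0,z0,z1]),(z1,[z9,z6,z6,z7,z18,y18]),(z1,[y3,y2,y2,y2,y3,z6]),(z1,[z3,z1,z1,z1,z3,y3])],
    .ref k12 k0 [(z1,[z6,z3,z2,z2,z6,y6]),(z1,[z0,z0,z1]),(z1,[y9,y3,y3,y2,y9,z9]),(z1,[z3,z1,z1,z1,z6,y3]),(z1,[y3,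
    y2,y2,y2,y6,z6])],.ref k12 k0 [(z1,[z2,z1]),(z1,[z0,z0,z1]),(z1,[y3,z0,z0,z1]),(z1,[z1,z0,z0,z0,z3]),(z1,[y1,y1,
    y1,y1,y3,z3])]],
    .lp [k148,k172,k168,k158,k144,k168] [k12,k12,k0,k0,k2,k2,k7,k7,k14,k14,k2,k2] k0 [[k0,k0,k0,k0,k4],[k0,k0,k0,k0,k0,k0,
    k0,k18,k0,k0,k0,k22],[k0,k0,k0,k0,k4,k0,k0,k0,k0,k0,k2],[k0,k0,k0,k0,k0,k0,k0,k18],[k0,k0,k0,k0,k0,k0,k2,k0,k0,k0,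
    k6],[k0,k4,k0,k4],[k18,k0,k18],[k0,k0,k0,k0,k0,k2,k0,k0,k0,k10],[k0,k0,k0,k0,k0,k0,k10],[],[k22],[k0,k0,k0,k2,k0,
    k6]] (nat_lit 480) k5
    [[(k8,k146),(k4,k152),(k6,k153),(k2,k158),(k10,k158),(k0,k170)],[(k7,k149),(k5,k158),(k11,k158),(k3,k160),(k9,
    k164),(k1,k170)],[(k6,k147),(k10,k148),(k8,k158),(k0,k160),(k2,k172),(k4,k174)],[(k1,k158),(k7,k161),(k5,k170),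
    (k11,k170),(k3,k172),(k9,k176)],[(k6,k145),(k8,k156),(k0,k158),(k2,k170),(k10,k170),(k4,k172)],[(k1,k152),(k9,
    k154),(k7,k163),(k11,k168),(k5,k172),(k3,k174)],[(k0,k149),(k8,k151),(k6,k160),(k2,k161),(k4,k163),(k10,k169)],
    [(k5,k145),(k3,k147),(k9,k151),(k1,k153),(k7,k160),(k11,k173)],[(k8,k134),(k6,k151),(k4,k154),(k10,k156),(k0,
    k164),(k2,k176)],[(k9,k134),(k1,k146),(k7,k151),(k5,k156),(k11,k156),(k3,k158)],[(k8,k156),(k0,k158),(k4,k168),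
    (k10,k168),(k2,k170),(k6,k173)],[(k3,k148),(k9,k156),(k1,k158),(k11,k168),(k7,k169),(k5,k170)]]
    [] k0
    [[k2,k0,k0,k1,k0,k0],[k1,k1,k0,k1,k0,k0],[k1,k1,k0,k0,k0,k1],[k1,k0,k1,k1,k0,k0],[k1,k0,k1,k0,k1,k0],[k1,k0,k0,k2,
    k0,k0],[k1,k0,k0,k1,k1,k0],[k1,k0,k0,k0,k2,k0],[k1,k0,k0,k0,k1,k1],[k0,k1,k0,k2,k0,k0],[k0,k1,k0,k1,k1,k0],[k0,k1,
    k0,k0,k2,k0],[k0,k0,k1,k2,k0,k0],[k0,k0,k1,k1,k1,k0],[k0,k0,k1,k0,k2,k0],[k0,k0,k0,k2,k1,k0],[k0,k0,k0,k1,k2,k0],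
    [k0,k0,k0,k1,k1,k1],[k0,k0,k0,k0,k3,k0],[k0,k0,k0,k0,k2,k1]]
    [.ref k12 k0 [(z2,[z10,y7,z0,z0,y5]),(z2,[y2,z2,z3,z0,z1]),(z2,[z10,y10,z0,z3,y5]),(z1,[y7,z7,z0,z0,z5]),(z2,[y8,
    z5,y3,y3,z1,z6])],.ref k12 k0 [(z2,[y10,z8,z5,z0,z5]),(z2,[z2,y1,z2,z0,y1]),(z2,[y10,z5,z5,z3,z5]),(z2,[z14,y7,y7,
    z0,y4]),(z2,[z8,y7,y7,y3,y7,z6])],.ref k12 k0 [(z4,[z10,z1,y5]),(z4,[y2,z1,z7]),(z4,[z10,y5,y5,z6]),(z4,[y14,z7,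
    z7,z0,z6]),(z2,[y4,y1,y1,y3,y3,z6])],.ref k12 k0 [(z2,[z10,y2,z0,y5,y5]),(z2,[y2,z1,z3,z1,z1]),(z2,[z10,y5,z0,y2,
    y5]),(z2,[y14,z7,z0,z7,z10]),(z2,[y8,z1,y3,z1,z1,z6])],.ref k12 k0 [(z4,[z10,z6,z5,z0,z5,y10]),(z4,[y2,z0,z5,z0,
    y1,z2]),(z4,[z10,z0,z5,z6,z5,y10]),(z4,[y14,z0,y7,z0,y1,z14]),(z2,[y4,y3,y5,y3,y5,z10])],.ref k12 k0 [(z3,[y5,z7,
    z0,z0,z5]),(z6,[z2,y1,z9,z0,y2]),(z6,[y10,z5,z0,z9,z10]),(z6,[z14,y7,z0,z0,y5]),(z6,[z8,y13,y9,y9,y17,z18])],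
    .ref k12 k0 [(z4,[y10,z6,y5,y5,z0,z10]),(z4,[z2,z0,z7,z1,z0,y2]),(z4,[y10,z0,y5,z1,z0,z10]),(z4,[z14,z0,z7,z7,z6,
    y14]),(z2,[z4,y3,y1,y1,y3,z2])],.ref k12 k0 [(z1,[y5,y1,y5,y5,y5,z10]),(z2,[z2,z1,z5,z2,z2,y4]),(z2,[y10,y5,y10,
    y7,y10,z20]),(z2,[z14,z7,z14,z14,z17,y28]),(z2,[z8,z1,z5,z5,z5,y10])],.ref k12 k0 [(z2,[z10,z3,z5,z5,z5,y10]),(z2,
    [y2,z0,z2,y1,y1,z2]),(z2,[z10,z0,z5,z8,z5,y10]),(z2,[y14,z0,y7,y7,y4,z14]),(z2,[y8,y3,y7,y7,y7,z14])],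
    .ref k12 k0 [(z2,[y2,z3,z1,z0,z2]),(z5,[z1,z0,z7,z0,y1]),(z2,[y2,z0,z1,z3,z2]),(z10,[z14,z0,y7,z0,z1]),(z10,[z8,
    y15,y19,y15,y23,z30])],.ref k12 k0 [(z8,[y10,z7,z0,y5,z0,z10]),(z8,[z2,z1,z12,z1,z0,y2]),(z8,[y10,y5,z0,z7,z0,
    z10]),(z8,[z14,z7,z0,z7,z12,y14]),(z2,[z2,y2,y3,y2,y3,z4])],.ref k12 k0 [(z6,[y10,y1,y5,y10,y10,z20]),(z3,[z1,z1,
    z5,z1,z1,y2]),(z6,[y10,y10,y5,y1,y10,z20]),(z6,[z14,z14,z7,z14,z23,y28]),(z6,[z8,y1,y5,y1,y1,z2])],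
    .ref k12 k0 [(z6,[y10,z9,z0,z5,z10]),(z6,[z2,z0,z9,y1,y2]),(z3,[y5,z0,z0,z7,z5]),(z6,[z14,z0,z0,y7,y5]),(z6,[z8,
    y9,y9,y13,y17,z18])],.ref k12 k0 [(z4,[y10,z1,y5,z0,z0,z10]),(z4,[z2,z1,z7,z0,z0,y2]),(z4,[y10,y5,y5,z6,z0,z10]),
    (z4,[z14,z7,z7,z0,z6,y14]),(z2,[z4,y1,y1,y3,y3,z2])],.ref k12 k0 [(z2,[y10,y7,y10,y5,y10,z20]),(z2,[z2,z2,z5,z1,
    z2,y4]),(z1,[y5,y5,y5,y1,y5,z10]),(z2,[z14,z14,z14,z7,z17,y28]),(z2,[z8,z5,z5,z1,z5,y10])],.ref k12 k0 [(z12,[y10,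
    z13,y5,y5,z5,z10]),(z12,[z2,z1,z19,z1,y1,y2]),(z12,[y10,y5,y5,z13,z5,z10]),(z12,[z14,z7,z7,z7,z11,y14]),(z6,[z4,
    y7,y7,y7,y11,z14])],.ref k12 k0 [(z2,[y2,z1,y2,y2,y1,z4]),(z10,[z2,z2,z17,z2,z1,y4]),(z2,[y2,y2,y2,z1,y1,z4]),(z5,
    [z7,z7,z7,z7,z11,y14]),(z10,[z8,y7,y7,y7,y11,z14])],.ref k12 k0 [(z6,[y10,z4,y5,y5,z0,z10]),(z6,[z2,z1,z10,z1,z0,
    y2]),(z6,[y10,y5,y5,z4,z0,z10]),(z6,[z14,z7,z7,z7,z9,y14]),(z6,[z8,y5,y5,y5,y9,z10])],.ref k12 k0 [(z8,[y10,y3,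
    y15,y15,y15,z30]),(z8,[z2,z3,z15,z3,z3,y6]),(z8,[y10,y15,y15,y3,y15,z30]),(z8,[z14,z21,z21,z21,z33,y42]),(z1,
    [z1])],.ref k12 k0 [(z2,[y5,y2,y5,y5,y5,z10]),(z2,[z1,z1,z4,z1,z1,y2]),(z2,[y5,y5,y5,y2,y5,z10]),(z2,[z7,z7,z7,z7,
    z10,y14]),(z2,[z4,z1,z1,z1,z1,y2])]]]

/-- the nodes with numbers from 394 -/
noncomputable def cT6_3_n9 : List TN :=
  cT6_3_n9_0 ++ (cT6_3_n9_1 ++ cT6_3_n9_2)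

theorem cT6_3_k9 : allI (chkT 6 cT6_3_w tt6 cT6_3_s (blkF [] cT6_3_D)) cT6_3_n9 394 = true := by
  decide +kernel

end Pool.Agent.Lib_MP_fa6e45
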