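import Pool.Agent.Lib_MP_fa6e45.CGA
import Pool.Agent.Lib_MP_fa6e45.CG6_2_0
import Pool.Agent.Lib_MP_fa6e45.CG6_2_1
import Pool.Agent.Lib_MP_fa6e45.CG6_2_2
import Pool.Agent.Lib_MP_fa6e45.CG6_2_3
import Pool.Agent.Lib_MP_fa6e45.CG6_2_4
import Pool.Agent.Lib_MP_fa6e45.CG6_2_5
import Pool.Agent.Lib_MP_fa6e45.CG6_2_6
import Pool.Agent.Lib_MP_fa6e45.CG6_2_7
import Pool.Agent.Lib_MP_fa6e45.CG6_2_8
import Pool.Agent.Lib_MP_fa6e45.CG6_2_9
import Pool.Agent.Lib_MP_fa6e45.CG6_2_10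
import Pool.Agent.Lib_MP_fa6e45.CG6_2_11

/-!
MP_fa6e45_co, stage 5: certificates (captain, generated by a program).
-/

namespace Pool.Agent.Lib_MP_fa6e45

/-- the certificate -/
noncomputable def cT6_3 : CertT :=
  ⟨cT6_3_w, cT6_3_s, cT6_3_D,
    cT6_3_n0 ++ (cT6_3_n1 ++ (cT6_3_n2 ++ (cT6_3_n3 ++ (cT6_3_n4 ++ (cT6_3_n5 ++ (cT6_3_n6 ++ (cT6_3_n7 ++
      (cT6_3_n8 ++ (cT6_3_n9 ++ (cT6_3_n10 ++ cT6_3_n11))))))))))⟩

theorem cT6_3_ok : chkC 6 tt6 cT6_3 = true := by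
  refine chkC_of (by decide +kernel) (by decide +kernel) ?_
  refine allI_app (k := 53) cT6_3_k0 (by decide +kernel) ?_
  refine allI_app (k := 90) cT6_3_k1 (by decide +kernel) ?_
  refine allI_app (k := 134) cT6_3_k2 (by decide +kernel) ?_
  refine allI_app (k := 172) cT6_3_k3 (by decide +kernel) ?_
  refine allI_app (k := 219) cT6_3_k4 (by decide +kernel) ?_
  refine allI_app (k := 272) cT6_3_k5 (by decide +kernel) ?_
  refine allI_app (k := 310) cT6_3_k6 (by decide +kernel) ?_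
  refine allI_app (k := 359) cT6_3_k7 (by decide +kernel) ?_
  refine allI_app (k := 394) cT6_3_k8 (by decide +kernel) ?_
  refine allI_app (k := 426) cT6_3_k9 (by decide +kernel) ?_
  refine allI_app (k := 469) cT6_3_k10 (by decide +kernel) ?_
  exact cT6_3_k11

/-- the certificates of this file -/
noncomputable def lT6_2 : List CertT := [cT6_3]

theorem gT6_2 : allF (chkC 6 tt6) lT6_2 = true := by
  unfold lT6_2
  change (bif chkC 6 tt6 cT6_3 then true else false) = true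
  rw [cT6_3_ok]
  rfl

end Pool.Agent.Lib_MP_fa6e45
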