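import Pool.Agent.Lib_MP_fa6e45.CG6_2d

/-!
MP_fa6e45_co, stage 5: certificates (captain, generated by a program).
-/

namespace Pool.Agent.Lib_MP_fa6e45

noncomputable def cT6_3_n10_0 : List TN :=
  [.lp [(nat_lit 316),(nat_lit 336),(nat_lit 320),(nat_lit 328),(nat_lit 298),(nat_lit 320)] [k10,k10,k0,k0,k8,k8,k4,k4,
    k19,k19,k8,k8] k0 [[k0,k0,k0,k0,k0,k0,k14,k0,k0,k0,k22],[k0,k0,k0,k28,k0,k40],[k28,k0,k0,k0,k0,k0,k16],[k0,k0,k0,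
    k0,k0,k0,k0,k0,k0,k24],[k40],[k0,k0,k0,k0,k0,k0,k0,k46,k0,k0,k0,k4],[k0,k0,k0,k0,k46,k0,k0,k0,k44],[k0,k14,k0,
    k16],[k0,k0,k24,k0,k0,k0,k0,k0,k0,k0,k40],[k0,k0,k0,k0,k0,k0,k0,k44],[k0,k0,k0,k0,k4],[k0,k22,k0,k0,k0,k0,k0,k0,
    k0,k40]] (nat_lit 960) k5
    [[(k8,(nat_lit 267)),(k0,(nat_lit 294)),(k10,(nat_lit 318)),(k4,(nat_lit 322)),(k6,(nat_lit 322)),(k2,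
    (nat_lit 326))],[(k9,(nat_lit 293)),(k1,(nat_lit 294)),(k11,(nat_lit 318)),(k3,(nat_lit 326)),(k5,(nat_lit 346)),
    (k7,(nat_lit 362))],[(k4,(nat_lit 288)),(k2,(nat_lit 308)),(k8,(nat_lit 317)),(k0,(nat_lit 326)),(k6,
    (nat_lit 346)),(k10,(nat_lit 350))],[(k9,(nat_lit 301)),(k3,(nat_lit 308)),(k1,(nat_lit 326)),(k5,(nat_lit 328)),
    (k7,(nat_lit 332)),(k11,(nat_lit 352))],[(k8,(nat_lit 285)),(k4,(nat_lit 320)),(k10,(nat_lit 320)),(k2,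
    (nat_lit 328)),(k6,(nat_lit 340)),(k0,(nat_lit 346))],[(k3,(nat_lit 288)),(k5,(nat_lit 320)),(k11,(nat_lit 320)),
    (k1,(nat_lit 322)),(k7,(nat_lit 324)),(k9,(nat_lit 355))],[(k6,(nat_lit 282)),(k8,(nat_lit 313)),(k10,
    (nat_lit 320)),(k4,(nat_lit 324)),(k2,(nat_lit 332)),(k0,(nat_lit 362))],[(k11,(nat_lit 280)),(k7,(nat_lit 282)),
    (k9,(nat_lit 313)),(k1,(nat_lit 322)),(k5,(nat_lit 340)),(k3,(nat_lit 346))],[(k0,(nat_lit 293)),(k2,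
    (nat_lit 301)),(k10,(nat_lit 309)),(k6,(nat_lit 313)),(k8,(nat_lit 342)),(k4,(nat_lit 355))],[(k1,(nat_lit 267)),
    (k5,(nat_lit 285)),(k11,(nat_lit 309)),(k7,(nat_lit 313)),(k3,(nat_lit 317)),(k9,(nat_lit 342))],[(k6,
    (nat_lit 280)),(k8,(nat_lit 309)),(k0,(nat_lit 318)),(k4,(nat_lit 320)),(k2,(nat_lit 352)),(k10,(nat_lit 360))],
    [(k9,(nat_lit 309)),(k1,(nat_lit 318)),(k5,(nat_lit 320)),(k7,(nat_lit 320)),(k3,(nat_lit 350)),(k11,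
    (nat_lit 360))]]
    [] k0
    [[k3,k0,k0,k0,k0,k0],[k2,k1,k0,k0,k0,k0],[k2,k0,k0,k0,k1,k0],[k2,k0,k0,k0,k0,k1],[k1,k1,k0,k0,k1,k0],[k1,k0,k1,k0,
    k1,k0],[k1,k0,k0,k1,k1,k0],[k1,k0,k0,k0,k2,k0],[k1,k0,k0,k0,k1,k1],[k0,k3,k0,k0,k0,k0],[k0,k2,k1,k0,k0,k0],[k0,k2,
    k0,k0,k1,k0],[k0,k1,k2,k0,k0,k0],[k0,k1,k1,k0,k1,k0],[k0,k0,k1,k2,k0,k0],[k0,k0,k1,k1,k1,k0],[k0,k0,k1,k0,k1,k1],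
    [k0,k0,k1,k1,k0,k1],[k0,k0,k0,k3,k0,k0],[k0,k0,k0,k2,k1,k0],[k0,k0,k0,k2,k0,k1],[k0,k0,k0,k1,k1,k1]]
    [.ref (nat_lit 423) k4 [(z1,[y1,z3]),(z1,[z1]),(z1,[z1,y3,z3]),(z1,[z0,z0,z0,z1])],.ref k189 k8 [(z3,[z1,z1,z2,z3,
    y3]),(z1,[z0,z1,z1,z1,y1]),(z3,[z2,z2,z1,z3,y3]),(z3,[y1,y4,y2,y6,z6])],.ref (nat_lit 359) k3 [(z1,[y3,y1,z1]),
    (z1,[y2,z0,z0,z1]),(z1,[z2,z0,y1,y1,z1]),(z1,[z1])],.ref (nat_lit 226) k4 [(z1,[y1,z2]),(z1,[z1,y1]),(z1,[z1,y2,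
    z1]),(z1,[z0,z0,z0,z1])],.ref k189 k8 [(z2,[z1,z1,z1,z2,y2]),(z1,[z0,z1,z1,z1,y1]),(z1,[z1,z1,z0,z1,y1]),(z2,[y1,
    y3,y1,y4,z4])],.ref k189 k8 [(z1,[z1,z0,z1,z0,y1]),(z1,[z0,z1,z1,z1,y1]),(z1,[z2,z0,z1,y1,y1]),(z1,[y1,y1,y1,y1,
    z2])],.ref (nat_lit 344) k2 [(z1,[z0,y1,y1,y1,z1]),(z1,[y2,z0,y2,z1,z2]),(z1,[y1,z0,z2,y1,z1]),(z1,[z2,z3,z2,z2,
    y2])],.ref (nat_lit 226) k4 [(z1,[y1,z1]),(z1,[z1]),(z1,[z1,y1,z1]),(z1,[z0,z0,z0,z1])],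
    .ref (nat_lit 344) k2 [(z1,[z0,y1,y1,y1,z1]),(z1,[y2,z2,z0,z3]),(z1,[y1,z1,z3]),(z1,[z2,z1])],
    .ref (nat_lit 424) k5 [(z1,[z2,z6,z0,z9,y6]),(z1,[z1]),(z1,[y2,y6,y3,y9,z9]),(z1,[z0,z1,z1,z1,y1])],
    .ref k10 k11 [(z2,[y3,z2,y2,z3]),(z2,[z1,z0,z2,y1]),(z2,[y1,z0,z0,z1]),(z2,[z1,y2,z0,y3,z2])],.ref k131 k6 [(z1,
    [y2,z0,z0,z1]),(z1,[y1,y1,z0,y1,z1]),(z1,[z1]),(z1,[y1,z0,z1])],.ref (nat_lit 425) k7 [(z1,[y2,y2,z0,y3,z2]),(z1,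
    [z0,z0,z0,z1]),(z1,[y2,z0,z2,y1]),(z1,[z2,z2,y2,z3])],.ref k10 k11 [(z1,[y3,z1,y1,z3]),(z1,[z1,z0,z1,y1]),(z1,[y1,
    z0,z0,z1]),(z1,[z1,y1,z0,y2,z1])],.ref k189 k8 [(z2,[y1,z0,z0,z1]),(z1,[z0,z1,z1,z1,y1]),(z1,[y1,z0,y1,z0,z1]),
    (z2,[z1,y2,z0,y3,z2])],.ref k189 k8 [(z1,[y1,z0,z0,z1]),(z1,[z0,z1,z1,z1,y1]),(z1,[y2,z0,y1,z1,z1]),(z1,[z1,y1,z0,
    y2,z1])],.ref k189 k8 [(z1,[y1,z1,z1,z2,y1]),(z1,[z0,z1,z1,z1,y1]),(z1,[y2,z2,z1,z3,y1]),(z1,[z1,y2,y1,y3,z2])],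
    .ref k189 k8 [(z2,[y1,z1,z1,z2,y1]),(z1,[z0,z1,z1,z1,y1]),(z1,[y1,z1,z0,z1]),(z2,[z1,y3,y1,y4,z3])],
    .ref (nat_lit 231) k0 [(z1,[y1,z0,y3,y3,z3]),(z1,[y1,y3,z0,y3,z3]),(z1,[z0,z0,z0,z1]),(z1,[z1])],
    .ref k131 k6 [(z1,[z2,z4,z0,z5,y4]),(z1,[z1,z1,z0,z1,y1]),(z1,[y1,y2,z0,y2,z2]),(z1,[z1,z2,z1,z2,y2])],
    .ref (nat_lit 231) k0 [(z1,[y1,z1,y2,y2,z2]),(z1,[y1,y2,z1,y2,z2]),(z1,[z0,z0,z0,z1]),(z1,[z1,y1,y1,y1,z1])],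
    .ref k131 k6 [(z1,[z2,z2,y2,z3,y2]),(z1,[z1,z0,y1]),(z1,[y1,y1,z1,y1,z1]),(z1,[z1,z1,z0,z1,y1])]],
    .leafM k0 [k1,k2,k3,k4,k5,k0] [(z1,[y1,y1,z0,z0,z1])] [],
    .lp [(nat_lit 326),(nat_lit 330),(nat_lit 298),(nat_lit 340),(nat_lit 288),(nat_lit 336)] [k7,k7,k5,k5,k21,k21,k0,k0,
    k26,k26,k2,k2] k0 [[k0,k0,k0,k0,k0,k0,k0,k0,k4,k0,k6],[k0,k0,k0,k0,k0,k8,k0,k8],[k0,k0,k0,k0,k0,k0,k0,k0,k0,k0,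
    k26],[k0,k0,k0,k0,k0,k0,k0,k0,k0,k2],[k8,k0,k0,k0,k0,k0,k32],[k0,k0,k0,k0,k0,k0,k0,k0,k0,k2,k0,k38],[k8,k0,k0,k0,
    k0,k0,k0,k0,k50],[k0,k0,k0,k0,k0,k32],[k0,k0,k2,k0,k2],[k0,k4,k0,k0,k0,k0,k0,k50],[k0,k0,k0,k0,k38],[k0,k6,k0,
    k26]] (nat_lit 960) k5
    [[(k2,(nat_lit 302)),(k8,(nat_lit 307)),(k0,(nat_lit 320)),(k10,(nat_lit 331)),(k6,(nat_lit 333)),(k4,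
    (nat_lit 350))],[(k5,(nat_lit 312)),(k9,(nat_lit 315)),(k1,(nat_lit 320)),(k11,(nat_lit 327)),(k3,(nat_lit 328)),
    (k7,(nat_lit 341))],[(k4,(nat_lit 306)),(k8,(nat_lit 313)),(k6,(nat_lit 327)),(k0,(nat_lit 328)),(k2,
    (nat_lit 330)),(k10,(nat_lit 339))],[(k1,(nat_lit 302)),(k9,(nat_lit 309)),(k5,(nat_lit 314)),(k3,(nat_lit 330)),
    (k7,(nat_lit 335)),(k11,(nat_lit 335))],[(k8,(nat_lit 291)),(k4,(nat_lit 298)),(k0,(nat_lit 312)),(k2,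
    (nat_lit 314)),(k6,(nat_lit 319)),(k10,(nat_lit 343))],[(k9,(nat_lit 261)),(k5,(nat_lit 298)),(k3,(nat_lit 306)),
    (k7,(nat_lit 319)),(k11,(nat_lit 319)),(k1,(nat_lit 350))],[(k10,(nat_lit 300)),(k8,(nat_lit 312)),(k4,
    (nat_lit 319)),(k2,(nat_lit 335)),(k0,(nat_lit 341)),(k6,(nat_lit 372))],[(k11,(nat_lit 288)),(k9,(nat_lit 314)),
    (k5,(nat_lit 319)),(k3,(nat_lit 327)),(k1,(nat_lit 333)),(k7,(nat_lit 372))],[(k4,(nat_lit 261)),(k2,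
    (nat_lit 309)),(k10,(nat_lit 312)),(k6,(nat_lit 314)),(k0,(nat_lit 315)),(k8,(nat_lit 338))],[(k5,(nat_lit 291)),
    (k1,(nat_lit 307)),(k7,(nat_lit 312)),(k11,(nat_lit 312)),(k3,(nat_lit 313)),(k9,(nat_lit 338))],[(k6,
    (nat_lit 288)),(k8,(nat_lit 312)),(k4,(nat_lit 319)),(k0,(nat_lit 327)),(k2,(nat_lit 335)),(k10,(nat_lit 336))],
    [(k7,(nat_lit 300)),(k9,(nat_lit 312)),(k1,(nat_lit 331)),(k11,(nat_lit 336)),(k3,(nat_lit 339)),(k5,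
    (nat_lit 343))]]
    [] k0
    [[k2,k1,k0,k0,k0,k0],[k2,k0,k0,k0,k1,k0],[k1,k1,k1,k0,k0,k0],[k1,k1,k0,k0,k1,k0],[k1,k0,k1,k0,k1,k0],[k1,k0,k0,k0,
    k1,k1],[k0,k2,k1,k0,k0,k0],[k0,k2,k0,k0,k1,k0],[k0,k1,k2,k0,k0,k0],[k0,k1,k1,k0,k1,k0],[k0,k1,k0,k1,k1,k0],[k0,k0,
    k3,k0,k0,k0],[k0,k0,k2,k1,k0,k0],[k0,k0,k2,k0,k1,k0],[k0,k0,k1,k1,k1,k0],[k0,k0,k1,k1,k0,k1],[k0,k0,k1,k0,k2,k0],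
    [k0,k0,k1,k0,k1,k1],[k0,k0,k0,k1,k1,k1],[k0,k0,k0,k1,k0,k2]]
    [.ref k12 k0 [(z2,[z1,z4,y1]),(z1,[z2,y4,z1]),(z1,[y2,z4,z2,z1]),(z1,[y1,z2,z1,z0,z3]),(z2,[z1,y2,y1])],
    .ref k12 k0 [(z1,[z1,z1]),(z1,[z4,y8,z3]),(z1,[y4,z8,z0,z1]),(z1,[y2,z4,z0,z0,z3]),(z1,[z1,y2])],.ref k12 k0 [(z1,
    [z3,z0,y3,y1]),(z1,[z12,y12,y9,y4]),(z1,[y12,z12,z12,z5]),(z1,[y6,z6,z6,z2,z3]),(z1,[z3,y3,y3,y1])],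
    .ref k12 k0 [(z2,[z1,z5,y1]),(z1,[z2,y2,z1]),(z1,[y2,z2,z2,z1]),(z1,[y1,z1,z1,z0,z3]),(z2,[z1,y1,y1])],
    .ref k12 k0 [(z2,[y3,z9,z0,z1]),(z1,[y6,z6,z3,z2]),(z1,[z6,y6,z0,y1]),(z1,[z3,y3,z0,y1,z3]),(z2,[y3,z3,z0,z1])],
    .ref k12 k0 [(z2,[z3,z6,z3,z1,z3,y3]),(z1,[z6,z0,z9,z2,z6,y6]),(z1,[y6,z0,y6,y1,y6,z6]),(z1,[y3,z0,y3,y1,z0,z3]),
    (z2,[z3,z0,z3,z1,z3,y3])],.ref k12 k0 [(z4,[z3,z12,y6,y1]),(z1,[z3,z0,y3,y1]),(z1,[y3,z0,z6,z2]),(z2,[y3,z0,z6,z1,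
    z6]),(z4,[z3,z0,y6,y1])],.ref k12 k0 [(z3,[z1,z9,y2]),(z3,[z4,z0,z1]),(z3,[y4,z0,z8,z3]),(z3,[y2,z0,z4,z0,z9]),
    (z3,[z1,z0,y2])],.ref k12 k0 [(z4,[y3,z12,z3,z2]),(z1,[y3,z0,z6,z2]),(z1,[z3,z0,y3,y1]),(z2,[z3,z0,y3,y2,z6]),(z4,
    [y3,z0,z3,z2])],.ref k12 k0 [(z1,[z3,z3,y3,y1]),(z1,[z12,z0,y9,y4]),(z1,[y12,z0,z12,z5]),(z1,[y6,z0,z6,z2,z3]),
    (z1,[z3,z0,y3,y1])],.ref k12 k0 [(z1,[z1,z3,y1,z0,y1]),(z1,[z4,z0,y1,z0,y4]),(z1,[y4,z0,z4,z1,z4]),(z1,[y2,z0,z2,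
    z0,z5]),(z1,[z1,z0,y1,z0,y1])],.ref k12 k0 [(z4,[y1,z12,z0,z1]),(z1,[y1,z0,z3,z1]),(z1,[z1]),(z2,[z1,z0,z0,y1,
    z6]),(z4,[y1,z0,z0,z1])],.ref k12 k0 [(z10,[y3,z30,z0,z2,z3]),(z5,[y6,z0,z15,z4,z6]),(z5,[z6,z0,z0,z1,y6]),(z5,
    [z3,z0,z0,y2,z12]),(z10,[y3,z0,z0,z2,z3])],.ref k12 k0 [(z7,[y3,z21,z0,z2]),(z7,[y12,z0,z21,z8]),(z7,[z12,z0,z0,
    y1]),(z7,[z6,z0,z0,y4,z21]),(z7,[y3,z0,z0,z2])],.ref k12 k0 [(z5,[y3,z15,z0,z1,z3]),(z5,[y12,z0,z15,z4,z12]),(z5,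
    [z12,z0,z0,z1,y12]),(z5,[z6,z0,z0,y2,z9]),(z5,[y3,z0,z0,z1,z3])],.ref k12 k0 [(z2,[y1,z5,y1,z0,z0,z1]),(z1,[y2,y2,
    z1,z0,z0,z2]),(z1,[z2,z2,z2,z1,z0,y2]),(z1,[z1,z1,z1,z0,z3,y1]),(z2,[y1,y1,y1,z0,z0,z1])],.ref k12 k0 [(z2,[y3,z6,
    z0,z1]),(z1,[y6,z0,z3,z2]),(z1,[z6,z0,z0,y1]),(z1,[z3,z0,z0,y1,z3]),(z2,[y3,z0,z0,z1])],.ref k12 k0 [(z1,[y1,z2,
    y1,z0,y1,z1]),(z1,[y4,y4,y1,z0,y4,z4]),(z1,[z4,z4,z4,z1,z4,y4]),(z1,[z2,z2,z2,z0,z5,y2]),(z1,[y1,y1,y1,z0,y1,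
    z1])],.ref k12 k0 [(z1,[y3,z0,y3,y1,z0,z3]),(z1,[y12,y12,y9,y4,z0,z12]),(z1,[z12,z12,z12,z5,z0,y12]),(z1,[z6,z6,
    z6,z2,z3,y6]),(z1,[y3,y3,y3,y1,z0,z3])],.ref k12 k0 [(z2,[y3,z0,y6,y2,y3,z6]),(z1,[y6,y12,y9,y4,y6,z12]),(z1,[z6,
    z12,z12,z5,z6,y12]),(z1,[z3,z6,z6,z2,z6,y6]),(z2,[y3,y6,y6,y2,y3,z6])]],
    .lp [k84,k84,k84,k74,k82,k70] [k0,k0,k0,k0,k0,k0,k5,k5,k1,k1,k9,k5] k0 [[k0,k0,k0,k0,k0,k0,k0,k0,k0,k0,k4],[k0,k0,k0,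
    k2],[k2,k0,k0,k0,k0,k0,k0,k0,k0,k0,k2],[k0,k0,k0,k0,k0,k0,k0,k2,k0,k12],[k0,k0,k0,k0,k0,k0,k10],[k0,k0,k0,k0,k0,
    k0,k0,k0,k0,k0,k0,k2],[k0,k0,k2,k0,k0,k0,k0,k0,k14],[k0,k0,k0,k0,k0,k10,k0,k0,k0,k0,k0,k2],[k0,k0,k12],[k0,k0,k0,
    k0,k0,k0,k0,k14],[k0,k0,k0,k0,k2,k0,k2],[k0,k4,k0,k2]] (nat_lit 240) k5
    [[(k10,k75),(k0,k80),(k6,k81),(k2,k82),(k8,k83),(k4,k86)],[(k7,k79),(k11,k79),(k1,k80),(k9,k83),(k3,k84),(k5,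
    k86)],[(k6,k79),(k10,k79),(k2,k82),(k8,k83),(k0,k84),(k4,k84)],[(k7,k79),(k1,k82),(k3,k82),(k5,k84),(k9,k85),(k11,
    k91)],[(k8,k71),(k6,k77),(k10,k77),(k2,k84),(k4,k84),(k0,k86)],[(k9,k73),(k7,k79),(k11,k79),(k3,k84),(k5,k84),(k1,
    k86)],[(k10,k68),(k8,k78),(k0,k79),(k2,k79),(k4,k79),(k6,k84)],[(k11,k60),(k5,k77),(k9,k78),(k3,k79),(k1,k81),(k7,
    k84)],[(k10,k72),(k4,k73),(k6,k78),(k0,k83),(k2,k85),(k8,k96)],[(k5,k71),(k7,k78),(k11,k78),(k1,k83),(k3,k83),(k9,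
    k96)],[(k6,k60),(k10,k70),(k8,k78),(k0,k79),(k4,k79),(k2,k91)],[(k7,k68),(k11,k70),(k9,k72),(k1,k75),(k5,k77),(k3,
    k79)]]
    [] k0
    [[k2,k0,k0,k0,k0,k1],[k1,k0,k0,k1,k0,k1],[k1,k0,k0,k0,k1,k1],[k1,k0,k0,k0,k0,k2],[k0,k1,k0,k1,k0,k1],[k0,k0,k2,k0,
    k1,k0],[k0,k0,k1,k1,k1,k0],[k0,k0,k1,k1,k0,k1],[k0,k0,k1,k0,k1,k1],[k0,k0,k1,k0,k0,k2],[k0,k0,k0,k2,k0,k1],[k0,k0,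
    k0,k1,k1,k1],[k0,k0,k0,k1,k0,k2],[k0,k0,k0,k0,k1,k2],[k0,k0,k0,k0,k0,k3]]
    [.ref k108 k3 [(z1,[z0,y4,z1]),(z1,[y1,z4,z0,z1]),(z1,[z0,z1,y1,y1,z1]),(z1,[z0,y1])],.ref (nat_lit 427) k3 [(z1,
    [z0,y4,z1]),(z1,[y1,z5,y1,z0,z1]),(z1,[z0,z1,y1,y1,z1]),(z1,[z0,y1])],.ref k108 k3 [(z1,[z0,y4,z1]),(z1,[y1,z3,z0,
    z1]),(z1,[z0,z1,y1,y1,z1]),(z1,[z0,y1])],.ref k16 k3 [(z1,[z0,y4,z1]),(z1,[y1,z8,z0,z2]),(z1,[z0,z1,y1,y1,z1]),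
    (z1,[z0,y1])],.ref k108 k3 [(z1,[z0,y4,z1]),(z1,[y1,z1,z0,z0,z1]),(z1,[z0,z1,y1,y1,z1]),(z1,[z0,y1])],
    .ref k97 k3 [(z1,[z0,y4,z1]),(z1,[z1,z1]),(z1,[z0,z1,y1,y1,z1]),(z1,[z0,y1])],.ref k131 k3 [(z1,[z0,y4,z1]),(z1,
    [z1,z0,z1,z1,y1]),(z1,[z0,z1,y1,y1,z1]),(z1,[z0,y1])],.ref k122 k0 [(z2,[y1,z5,y1,z0,z1]),(z1,[y2,y2,z1,z0,z2]),
    (z1,[z2,z2,z2,z3,y2]),(z1,[z1,y2,y2,y3,z2])],.ref k122 k0 [(z1,[y1,z3,z0,z1]),(z1,[y4,z0,z3,z4]),(z1,[z4,z0,z0,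
    y1]),(z1,[z2,y3,y3,y5,z3])],.ref k82 k4 [(z1,[z1,z0,z0,y1]),(z1,[z0,z1]),(z1,[z0,z0,z1]),(z1,[y1,z0,z0,z2])],
    .ref k82 k4 [(z1,[z1,z2,z2,z2,y2]),(z1,[z0,z1]),(z1,[z0,z0,z1]),(z1,[y1,y2,y2,y1,z2])],.ref (nat_lit 427) k3 [(z1,
    [z0,y4,z1]),(z1,[y1,z4,y1,z0,z1]),(z1,[z0,z1,y1,y1,z1]),(z1,[z0,y1])],.ref (nat_lit 427) k3 [(z1,[z0,y4,z1]),(z2,
    [y1,z9,y1,z1,z1]),(z1,[z0,z1,y1,y1,z1]),(z1,[z0,y1])],.ref k16 k3 [(z1,[z0,y4,z1]),(z1,[y1,z7,z0,z2]),(z1,[z0,z1,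
    y1,y1,z1]),(z1,[z0,y1])],.ref (nat_lit 428) k0 [(z1,[z0,z1]),(z1,[z0,z0,z1]),(z1,[y1,z0,z0,z3]),(z1,[z0,y1,y1,y1,
    z1])]],
    .lp [(nat_lit 324),(nat_lit 320),(nat_lit 294),(nat_lit 344),(nat_lit 324),(nat_lit 310)] [k10,k10,k12,k12,k25,k25,k0,
    k0,k10,k10,k17,k17] k0 [[k0,k0,k0,k0,k0,k0,k0,k0,k26],[k0,k0,k0,k0,k0,k38,k0,k0,k0,k0,k0,k28],[k0,k0,k0,k0,k48,k0,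
    k0,k0,k0,k0,k34],[k0,k0,k0,k0,k0,k0,k0,k40],[k38],[k0,k0,k0,k48,k0,k0,k0,k0,k0,k52],[k0,k0,k40,k0,k0,k0,k0,k0,
    k22],[k0,k0,k0,k0,k0,k0,k0,k0,k0,k0,k0,k20],[k0,k0,k0,k0,k52,k0,k0,k0,k0,k0,k48],[k0,k26,k0,k0,k0,k0,k0,k22],[k28,
    k0,k0,k0,k0,k0,k20],[k0,k0,k0,k34,k0,k0,k0,k0,k0,k48]] (nat_lit 960) k5
    [[(k8,(nat_lit 276)),(k2,(nat_lit 288)),(k4,(nat_lit 309)),(k10,(nat_lit 317)),(k0,(nat_lit 352)),(k6,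
    (nat_lit 354))],[(k11,(nat_lit 291)),(k5,(nat_lit 309)),(k3,(nat_lit 322)),(k9,(nat_lit 324)),(k1,(nat_lit 352)),
    (k7,(nat_lit 372))],[(k4,(nat_lit 269)),(k10,(nat_lit 287)),(k2,(nat_lit 320)),(k0,(nat_lit 322)),(k6,
    (nat_lit 332)),(k8,(nat_lit 348))],[(k7,(nat_lit 284)),(k1,(nat_lit 288)),(k5,(nat_lit 307)),(k11,(nat_lit 315)),
    (k3,(nat_lit 320)),(k9,(nat_lit 362))],[(k6,(nat_lit 279)),(k2,(nat_lit 307)),(k0,(nat_lit 309)),(k8,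
    (nat_lit 309)),(k10,(nat_lit 336)),(k4,(nat_lit 342))],[(k3,(nat_lit 269)),(k1,(nat_lit 309)),(k9,(nat_lit 309)),
    (k7,(nat_lit 319)),(k5,(nat_lit 342)),(k11,(nat_lit 354))],[(k8,(nat_lit 282)),(k2,(nat_lit 284)),(k4,
    (nat_lit 319)),(k10,(nat_lit 327)),(k6,(nat_lit 344)),(k0,(nat_lit 372))],[(k5,(nat_lit 279)),(k11,(nat_lit 305)),
    (k3,(nat_lit 332)),(k9,(nat_lit 334)),(k7,(nat_lit 344)),(k1,(nat_lit 354))],[(k10,(nat_lit 297)),(k4,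
    (nat_lit 309)),(k0,(nat_lit 324)),(k6,(nat_lit 334)),(k8,(nat_lit 346)),(k2,(nat_lit 362))],[(k1,(nat_lit 276)),
    (k7,(nat_lit 282)),(k5,(nat_lit 309)),(k11,(nat_lit 317)),(k9,(nat_lit 346)),(k3,(nat_lit 348))],[(k0,
    (nat_lit 291)),(k6,(nat_lit 305)),(k2,(nat_lit 315)),(k8,(nat_lit 317)),(k4,(nat_lit 354)),(k10,(nat_lit 358))],
    [(k3,(nat_lit 287)),(k9,(nat_lit 297)),(k1,(nat_lit 317)),(k7,(nat_lit 327)),(k5,(nat_lit 336)),(k11,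
    (nat_lit 358))]]
    [] k0
    [[k2,k0,k0,k0,k1,k0],[k1,k2,k0,k0,k0,k0],[k1,k1,k1,k0,k0,k0],[k1,k1,k0,k0,k0,k1],[k1,k0,k1,k0,k1,k0],[k1,k0,k1,k0,
    k0,k1],[k1,k0,k0,k0,k2,k0],[k1,k0,k0,k0,k1,k1],[k0,k2,k1,k0,k0,k0],[k0,k2,k0,k1,k0,k0],[k0,k2,k0,k0,k0,k1],[k0,k1,
    k2,k0,k0,k0],[k0,k1,k1,k1,k0,k0],[k0,k1,k1,k0,k1,k0],[k0,k1,k1,k0,k0,k1],[k0,k1,k0,k1,k0,k1],[k0,k0,k2,k1,k0,k0],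
    [k0,k0,k1,k2,k0,k0],[k0,k0,k1,k1,k1,k0],[k0,k0,k0,k1,k1,k1]]
    [.ref (nat_lit 219) k8 [(z1,[z1,z2,z4,y4]),(z1,[z0,y1,y1,z1]),(z1,[z0,y1,y2,z2])],.ref (nat_lit 259) k5 [(z2,[z1,
    y3,y4,z2]),(z1,[z1,y1,y1]),(z1,[y1,z2,z2])],.ref (nat_lit 259) k5 [(z1,[z1,y1,y1]),(z1,[z2,z0,z1,y2]),(z1,[y2,z1,
    z0,z2])],.ref (nat_lit 412) k0 [(z1,[z0,z1]),(z1,[z1,y1]),(z1,[z0,y1,y1,z1])],.ref (nat_lit 259) k5 [(z1,[y1,y1,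
    y2,z2]),(z1,[y2,z0,y1,z2]),(z1,[z2,z1,z2,y2])],.ref (nat_lit 260) k5 [(z1,[y1,y2,y3,z3]),(z1,[y1,z0,z0,z1]),(z1,
    [z1,z1,z1,y1])],.ref (nat_lit 259) k5 [(z2,[y1,y1,y2,z2]),(z1,[y1,z1,z1]),(z1,[z1])],.ref (nat_lit 413) k8 [(z1,
    [z1,z2,z3,y3]),(z1,[z0,y1,y1,z1]),(z1,[z0,y1,y2,z2])],.ref (nat_lit 417) k8 [(z1,[y1,z4,z6,y4]),(z1,[z0,y1,y1,
    z1]),(z1,[z0,y1,y2,z2])],.ref (nat_lit 419) k8 [(z1,[y1,z4,z6,y4]),(z1,[z0,y1,y1,z1]),(z1,[z0,y1,y2,z2])],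
    .ref (nat_lit 422) k7 [(z1,[y1,y1,y1,z1]),(z1,[z0,z2,z3,y2]),(z1,[z1])],.ref (nat_lit 219) k8 [(z1,[y1,z2,z3,y2]),
    (z1,[z0,y1,y1,z1]),(z1,[z0,y1,y2,z2])],.ref (nat_lit 413) k8 [(z1,[y1,z2,z3,y2]),(z1,[z0,y1,y1,z1]),(z1,[z0,y1,y2,
    z2])],.ref (nat_lit 353) k0 [(z1,[y2,z1,z0,z2]),(z1,[z2,z2,z3,y2]),(z1,[z1,y2,y3,z2])],.ref (nat_lit 426) k8 [(z1,
    [y1,z1,z2,y1]),(z1,[z0,y1,y1,z1]),(z1,[z0,y1,y2,z2])],.ref (nat_lit 259) k5 [(z1,[z1,y1,y2,z1]),(z1,[z2,z0,y1]),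
    (z1,[y2,z1,z2])],.ref (nat_lit 260) k5 [(z1,[z1]),(z1,[z1,z2,z3,y2]),(z1,[y1,y1,y2,z2])],
    .ref (nat_lit 429) k4 [(z1,[y1,y1,y1,z1]),(z1,[y2,y1,y2,z2]),(z1,[z2,z2,z3,y2])],.ref (nat_lit 412) k0 [(z1,[z0,
    z1]),(z1,[y1,y1,z0,z1]),(z1,[z0,y1,y1,z1])],.ref (nat_lit 259) k5 [(z1,[y1,y1,y1,z1]),(z1,[y2,z0,z1]),(z1,[z2,
    z1])]],
    .lp [(nat_lit 330),(nat_lit 330),(nat_lit 290),(nat_lit 336),(nat_lit 318),(nat_lit 312)] [k3,k3,k3,k3,k23,k23,k0,k0,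
    k9,k9,k12,k12] k0 [[k0,k0,k0,k0,k0,k0,k6,k0,k12],[k0,k0,k0,k10,k0,k16],[k10,k0,k0,k0,k0,k0,k0,k0,k0,k0,k58],[k0,
    k0,k0,k0,k0,k20],[k16,k0,k20],[k0,k0,k0,k0,k0,k0,k0,k0,k0,k30],[k0,k0,k0,k0,k0,k0,k0,k0,k34],[k0,k6,k0,k0,k0,k0,
    k0,k0,k0,k0,k0,k12],[k0,k0,k0,k0,k30,k0,k0,k0,k0,k0,k34],[k0,k12,k0,k0,k0,k0,k0,k34],[k0,k0,k0,k0,k0,k0,k12],[k0,
    k0,k0,k58,k0,k0,k0,k0,k0,k34]] (nat_lit 960) k5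
    [[(k2,(nat_lit 272)),(k8,(nat_lit 290)),(k4,(nat_lit 310)),(k10,(nat_lit 321)),(k0,(nat_lit 330)),(k6,
    (nat_lit 345))],[(k11,(nat_lit 309)),(k9,(nat_lit 318)),(k5,(nat_lit 320)),(k1,(nat_lit 330)),(k3,(nat_lit 330)),
    (k7,(nat_lit 349))],[(k4,(nat_lit 294)),(k2,(nat_lit 320)),(k10,(nat_lit 321)),(k0,(nat_lit 330)),(k8,
    (nat_lit 336)),(k6,(nat_lit 339))],[(k1,(nat_lit 272)),(k5,(nat_lit 310)),(k3,(nat_lit 320)),(k11,(nat_lit 321)),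
    (k9,(nat_lit 324)),(k7,(nat_lit 353))],[(k4,(nat_lit 270)),(k8,(nat_lit 304)),(k2,(nat_lit 310)),(k6,
    (nat_lit 313)),(k0,(nat_lit 320)),(k10,(nat_lit 359))],[(k5,(nat_lit 270)),(k3,(nat_lit 294)),(k9,(nat_lit 304)),
    (k1,(nat_lit 310)),(k7,(nat_lit 313)),(k11,(nat_lit 331))],[(k8,(nat_lit 297)),(k4,(nat_lit 313)),(k10,
    (nat_lit 324)),(k6,(nat_lit 336)),(k0,(nat_lit 349)),(k2,(nat_lit 353))],[(k11,(nat_lit 290)),(k5,(nat_lit 313)),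
    (k9,(nat_lit 327)),(k7,(nat_lit 336)),(k3,(nat_lit 339)),(k1,(nat_lit 345))],[(k10,(nat_lit 303)),(k4,
    (nat_lit 304)),(k0,(nat_lit 318)),(k2,(nat_lit 324)),(k6,(nat_lit 327)),(k8,(nat_lit 352))],[(k1,(nat_lit 290)),
    (k7,(nat_lit 297)),(k5,(nat_lit 304)),(k11,(nat_lit 315)),(k3,(nat_lit 336)),(k9,(nat_lit 352))],[(k6,
    (nat_lit 290)),(k0,(nat_lit 309)),(k8,(nat_lit 315)),(k2,(nat_lit 321)),(k4,(nat_lit 331)),(k10,(nat_lit 346))],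
    [(k9,(nat_lit 303)),(k1,(nat_lit 321)),(k3,(nat_lit 321)),(k7,(nat_lit 324)),(k11,(nat_lit 346)),(k5,
    (nat_lit 359))]]
    [] k0
    [[k2,k1,k0,k0,k0,k0],[k2,k0,k0,k0,k1,k0],[k1,k2,k0,k0,k0,k0],[k1,k1,k1,k0,k0,k0],[k1,k1,k0,k0,k1,k0],[k1,k1,k0,k0,
    k0,k1],[k1,k0,k2,k0,k0,k0],[k1,k0,k1,k0,k1,k0],[k1,k0,k0,k0,k1,k1],[k0,k2,k1,k0,k0,k0],[k0,k1,k2,k0,k0,k0],[k0,k1,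
    k1,k0,k1,k0],[k0,k0,k3,k0,k0,k0],[k0,k0,k2,k1,k0,k0],[k0,k0,k2,k0,k1,k0],[k0,k0,k1,k1,k1,k0],[k0,k0,k1,k0,k1,k1],
    [k0,k0,k0,k2,k0,k1],[k0,k0,k0,k1,k1,k1]]
    [.ref k12 k0 [(z2,[z3,z0,y1]),(z1,[z0,z0,z1]),(z8,[y3,z6,z1,z8]),(z4,[y3,z6,z1,z0,z12]),(z4,[y3,y6,y3,y4,y12,
    z12])],.ref k12 k0 [(z3,[z6,z3,z2,z2,z6,y6]),(z1,[z0,z0,z1]),(z6,[y3,z3,y1,z5,y3,z3]),(z3,[y3,z3,y1,y1,z6,z3]),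
    (z3,[y3,y6,y4,y4,y12,z12])],.ref k12 k0 [(z1,[z3,z0,y2]),(z1,[z0,z0,z1]),(z4,[y3,z3,z2,z4]),(z2,[y3,z3,z2,z0,z6]),
    (z2,[y3,y3,z0,y2,y6,z6])],.ref k12 k0 [(z3,[z12,y3,y4,y4]),(z1,[z0,z0,z1]),(z3,[y3,z3,z1,z4]),(z3,[y6,z6,z2,z2,
    z9]),(z3,[y6,y3,y1,y1,y9,z9])],.ref k12 k0 [(z1,[z6,z3,z0,z2,z6,y6]),(z1,[z0,z0,z1]),(z2,[y3,z0,z0,z1,y3,z3]),(z1,
    [y3,z0,z0,y1,z0,z3]),(z1,[y3,y3,y1,y2,y6,z6])],.ref k12 k0 [(z5,[z12,z3,y4]),(z1,[z0,z0,z1]),(z5,[y3,z3,z1,z5]),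
    (z5,[y6,z6,z2,z0,z15]),(z5,[y6,y9,y3,y5,y15,z15])],.ref k12 k0 [(z1,[z6,y3,z0,y4]),(z1,[z0,z0,z1]),(z2,[y3,z3,z0,
    z4]),(z1,[y3,z3,z0,z2,z3]),(z1,[y3,z0,y1,z1,y3,z3])],.ref k12 k0 [(z1,[z12,z3,z4,z0,z12,y12]),(z1,[z0,z0,z1]),(z1,
    [y3,z0,y1,z1,y3,z3]),(z1,[y6,z0,y2,z0,y3,z6]),(z1,[y6,y3,y3,y1,y9,z9])],.ref k12 k0 [(z3,[z12,z9,z4,z4,z12,y12]),
    (z1,[z0,z0,z1]),(z3,[y3,z0,y1,z2,y3,z3]),(z3,[y6,z0,y2,y2,z3,z6]),(z3,[y6,y9,y5,y5,y15,z15])],.ref k12 k0 [(z1,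
    [y12,z3,z8,z4]),(z1,[z0,z0,z1]),(z1,[z3,z0,y2]),(z1,[z6,z0,y4,y2,z3]),(z1,[z6,y3,y5,y3,y3,z3])],.ref k12 k0 [(z1,
    [y6,z3,z2,z4]),(z1,[z0,z0,z1]),(z2,[z3,z0,y1]),(z1,[z3,z0,y1,y2,z3]),(z1,[z3,y3,y2,y3,y3,z3])],.ref k12 k0 [(z1,
    [y4,y1,z0,z0,y4,z4]),(z1,[z0,z0,z1]),(z1,[z1,z1,z0,z1,z1,y1]),(z1,[z2,z2,z0,z0,z5,y2]),(z1,[z2,y1,y1,y1,y1,z1])],
    .ref k12 k0 [(z1,[y4,z3,z0,z4]),(z1,[z0,z0,z1]),(z1,[z1]),(z1,[z2,z0,z0,y2,z3]),(z1,[z2,y3,y1,y3,y3,z3])],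
    .ref k12 k0 [(z1,[y3,z3,z0,z2,z3]),(z1,[z0,z0,z1]),(z4,[z3,z0,z0,z2,y3]),(z2,[z3,z0,z0,y2,z3]),(z2,[z3,y6,y2,y4,
    y9,z6])],.ref k12 k0 [(z1,[y3,z0,y1,z1,y3,z3]),(z1,[z0,z0,z1]),(z4,[z3,z3,z1,z3,z3,y3]),(z2,[z3,z3,z1,y1,z9,y3]),
    (z2,[z3,y3,y1,y3,y3,z3])],.ref k12 k0 [(z5,[y12,z3,y4,z0,z0,z12]),(z1,[z0,z0,z1]),(z5,[z3,z3,z1,z5,z0,y3]),(z5,
    [z6,z6,z2,z0,z15,y6]),(z5,[z6,y9,y3,y5,y15,z9])],.ref k12 k0 [(z1,[y6,y3,y2,z0,y6,z6]),(z1,[z0,z0,z1]),(z2,[z3,z3,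
    z1,z2,z3,y3]),(z1,[z3,z3,z1,z0,z6,y3]),(z1,[z3,z0,z0,y1])],.ref k12 k0 [(z1,[y4,z3,z0,z0,z8]),(z1,[z0,z0,z1]),(z1,
    [z1,z0,z0,z1,y2]),(z1,[z2,z0,z0,z0,y1]),(z1,[z2,y3,y1,y1,y7,z3])],.ref k12 k0 [(z3,[y12,y3,y4,y4,z0,z12]),(z1,[z0,
    z0,z1]),(z3,[z3,z3,z1,z4,z0,y3]),(z3,[z6,z6,z2,z2,z9,y6]),(z3,[z6,y3,y1,y1,y9,z3])]],
    .lp [k156,k176,k164,k152,k144,k166] [k10,k10,k0,k0,k6,k6,k12,k12,k16,k16,k5,k5] k0 [[k0,k0,k0,k0,k0,k0,k30,k0,k10],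
    [k0,k0,k0,k0,k0,k12,k0,k0,k0,k0,k0,k4],[k0,k0,k0,k0,k0,k0,k0,k0,k0,k0,k4],[],[k12],[k0,k0,k0,k0,k0,k0,k0,k8,k0,
    k22],[k0,k0,k0,k0,k8,k0,k0,k0,k6],[k0,k30,k0,k0,k0,k0,k0,k0,k0,k0,k0,k16],[k0,k0,k0,k0,k22,k0,k0,k0,k0,k0,k20],
    [k0,k10,k0,k0,k0,k0,k0,k6],[k4,k0,k0,k0,k0,k0,k16],[k0,k0,k0,k4,k0,k0,k0,k0,k0,k20]] (nat_lit 480) k5
    [[(k8,k130),(k0,k160),(k4,k160),(k10,k161),(k2,k162),(k6,k170)],[(k9,k120),(k11,k151),(k1,k160),(k5,k160),(k3,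
    k166),(k7,k166)],[(k4,k158),(k0,k166),(k10,k167),(k8,k170),(k2,k176),(k6,k194)],[(k9,k160),(k1,k162),(k7,k164),
    (k5,k170),(k11,k171),(k3,k176)],[(k8,k154),(k6,k158),(k0,k160),(k4,k164),(k10,k169),(k2,k170)],[(k3,k158),(k7,
    k158),(k1,k160),(k9,k162),(k5,k164),(k11,k187)],[(k8,k126),(k6,k144),(k4,k158),(k10,k159),(k2,k164),(k0,k166)],
    [(k7,k144),(k9,k148),(k11,k153),(k5,k158),(k1,k170),(k3,k194)],[(k0,k120),(k10,k139),(k6,k148),(k8,k150),(k2,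
    k160),(k4,k162)],[(k7,k126),(k1,k130),(k9,k150),(k5,k154),(k11,k155),(k3,k170)],[(k0,k151),(k6,k153),(k8,k155),
    (k2,k171),(k10,k186),(k4,k187)],[(k9,k139),(k7,k159),(k1,k161),(k3,k167),(k5,k169),(k11,k186)]]
    [] k0
    [[k2,k0,k0,k0,k1,k0],[k2,k0,k0,k0,k0,k1],[k1,k1,k0,k0,k1,k0],[k1,k0,k1,k0,k1,k0],[k1,k0,k0,k1,k1,k0],[k1,k0,k0,k0,
    k2,k0],[k1,k0,k0,k0,k1,k1],[k0,k1,k1,k0,k1,k0],[k0,k0,k1,k2,k0,k0],[k0,k0,k1,k1,k1,k0],[k0,k0,k1,k0,k2,k0],[k0,k0,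
    k0,k3,k0,k0],[k0,k0,k0,k2,k1,k0],[k0,k0,k0,k2,k0,k1],[k0,k0,k0,k1,k2,k0],[k0,k0,k0,k1,k1,k1],[k0,k0,k0,k0,k3,k0],
    [k0,k0,k0,k0,k2,k1]]
    [.ref (nat_lit 217) k7 [(z1,[z0,y1,y1,y5,z1]),(z1,[z1,y2,z0,y4]),(z1,[y1,z2,z0,z5]),(z1,[z0,z1,z0,z2])],
    .ref k123 k7 [(z1,[z0,y1,y1,y5,z1]),(z1,[y1,z2,z0,z5]),(z1,[z1,y2,z0,y4]),(z1,[z0,z1,z0,z2])],
    .ref (nat_lit 217) k7 [(z1,[z0,y1,y1,y5,z1]),(z1,[z1,y1,y1,y4]),(z1,[y1,z1,z1,z5]),(z1,[z0,z1,z0,z2])],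
    .ref (nat_lit 236) k7 [(z1,[z0,y1,y1,y5,z1]),(z1,[z1,y1,z0,y2]),(z1,[y1,z1,z0,z3]),(z1,[z0,z1,z0,z2])],
    .ref k10 k7 [(z1,[z0,y1,y1,y5,z1]),(z1,[z1,z0,z1,z3,y1]),(z1,[y1,z0,y1,y2,z1]),(z1,[z0,z1,z0,z2])],
    .ref (nat_lit 236) k7 [(z1,[z0,y1,y1,y5,z1]),(z2,[z1,y1,z0,y2]),(z2,[y1,z1,z0,z4]),(z1,[z0,z1,z0,z2])],
    .ref k9 k0 [(z1,[z2,z1]),(z1,[z2,y2,z3]),(z1,[y1,z1,z0,z3]),(z1,[y4,z1,y3,y3,z3])],.ref (nat_lit 236) k7 [(z1,[z0,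
    y1,y1,y5,z1]),(z1,[z1,z0,y1,y2]),(z1,[y1,z0,z1,z3]),(z1,[z0,z1,z0,z2])],.ref k9 k0 [(z3,[y2,z5,y4,y2,z4]),(z3,[y2,
    y4,z5,y2,z4]),(z3,[z1,z2,z2,z10,y2]),(z3,[z4,y1,y1,y5,z1])],.ref k123 k7 [(z1,[z0,y1,y1,y5,z1]),(z1,[z1,z1,z1,z5,
    y1]),(z1,[y1,y1,y1,y4,z1]),(z1,[z0,z1,z0,z2])],.ref (nat_lit 385) k0 [(z1,[z2,z1,z0,y2]),(z1,[z2,z0,z1,y2]),(z1,
    [y1,z0,z0,z2]),(z1,[y4,y1,y1,z3,z1])],.ref k9 k0 [(z2,[y1,z3,y3,y3,z3]),(z2,[y1,y3,z3,y3,z3]),(z4,[z1,z3,z3,z15,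
    y3]),(z1,[z1])],.ref (nat_lit 272) k7 [(z1,[z0,y1,y1,y5,z1]),(z1,[z1,z2,z2,z10,y2]),(z1,[y1,y2,y2,y9,z2]),(z1,[z0,
    z1,z0,z2])],.ref (nat_lit 304) k7 [(z1,[z0,y1,y1,y5,z1]),(z1,[y1,y2,y2,y9,z2]),(z1,[z1,z2,z2,z10,y2]),(z1,[z0,z1,
    z0,z2])],.ref k10 k7 [(z1,[z0,y1,y1,y5,z1]),(z2,[z1,z1,z1,z5,y1]),(z2,[y1,y1,y1,y3,z1]),(z1,[z0,z1,z0,z2])],
    .ref k9 k0 [(z1,[y2,z1,y2,y2,z2]),(z1,[y2,y2,z1,y2,z2]),(z1,[z1,z1,z1,z4,y1]),(z1,[z4,z1,z1,z1,y1])],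
    .ref (nat_lit 431) k7 [(z1,[z0,y1,y1,y5,z1]),(z1,[z1]),(z1,[y1,z0,z0,z3]),(z1,[z0,z1,z0,z2])],
    .ref (nat_lit 236) k7 [(z1,[z0,y1,y1,y5,z1]),(z1,[z1,z0,z0,y1]),(z1,[y1,z0,z0,z2]),(z1,[z0,z1,z0,z2])]],
    .lp [(nat_lit 320),(nat_lit 348),(nat_lit 328),(nat_lit 300),(nat_lit 292),(nat_lit 330)] [k14,k14,k0,k0,k10,k10,k24,
    k24,k28,k28,k9,k9] k0 [[k0,k0,k0,k0,k0,k0,k0,k0,k28],[k0,k0,k0,k0,k0,k12],[k0,k0,k0,k0,k4,k0,k0,k0,k0,k0,k10],[],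
    [k12,k0,k0,k0,k0,k0,k70],[k0,k0,k0,k4,k0,k0,k0,k0,k0,k2],[],[k0,k0,k0,k0,k0,k70,k0,k0,k0,k0,k0,k38],[k0,k0,k0,k0,
    k2],[k0,k28],[k0,k0,k0,k0,k0,k0,k38],[k0,k0,k0,k10]] (nat_lit 960) k5
    [[(k8,(nat_lit 306)),(k0,(nat_lit 320)),(k2,(nat_lit 324)),(k4,(nat_lit 324)),(k10,(nat_lit 325)),(k6,
    (nat_lit 348))],[(k11,(nat_lit 297)),(k9,(nat_lit 306)),(k1,(nat_lit 320)),(k7,(nat_lit 322)),(k5,(nat_lit 324)),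
    (k3,(nat_lit 334))],[(k6,(nat_lit 324)),(k4,(nat_lit 326)),(k0,(nat_lit 334)),(k10,(nat_lit 339)),(k2,
    (nat_lit 348)),(k8,(nat_lit 348))],[(k7,(nat_lit 320)),(k9,(nat_lit 320)),(k1,(nat_lit 324)),(k5,(nat_lit 338)),
    (k11,(nat_lit 339)),(k3,(nat_lit 348))],[(k8,(nat_lit 310)),(k6,(nat_lit 314)),(k0,(nat_lit 324)),(k4,
    (nat_lit 332)),(k2,(nat_lit 338)),(k10,(nat_lit 339))],[(k9,(nat_lit 240)),(k7,(nat_lit 314)),(k1,(nat_lit 324)),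
    (k3,(nat_lit 326)),(k11,(nat_lit 331)),(k5,(nat_lit 332))],[(k8,(nat_lit 294)),(k4,(nat_lit 314)),(k10,
    (nat_lit 315)),(k2,(nat_lit 320)),(k0,(nat_lit 322)),(k6,(nat_lit 370))],[(k9,(nat_lit 296)),(k5,(nat_lit 314)),
    (k11,(nat_lit 315)),(k3,(nat_lit 324)),(k1,(nat_lit 348)),(k7,(nat_lit 370))],[(k4,(nat_lit 240)),(k10,
    (nat_lit 273)),(k8,(nat_lit 292)),(k6,(nat_lit 296)),(k0,(nat_lit 306)),(k2,(nat_lit 320))],[(k9,(nat_lit 292)),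
    (k7,(nat_lit 294)),(k1,(nat_lit 306)),(k5,(nat_lit 310)),(k11,(nat_lit 311)),(k3,(nat_lit 348))],[(k0,
    (nat_lit 297)),(k8,(nat_lit 311)),(k6,(nat_lit 315)),(k10,(nat_lit 330)),(k4,(nat_lit 331)),(k2,(nat_lit 339))],
    [(k9,(nat_lit 273)),(k7,(nat_lit 315)),(k1,(nat_lit 325)),(k11,(nat_lit 330)),(k3,(nat_lit 339)),(k5,
    (nat_lit 339))]]
    [] k0
    [[k2,k0,k0,k0,k1,k0],[k2,k0,k0,k0,k0,k1],[k1,k0,k1,k0,k1,k0],[k1,k0,k0,k1,k1,k0],[k1,k0,k0,k0,k2,k0],[k1,k0,k0,k0,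
    k1,k1],[k1,k0,k0,k0,k0,k2],[k0,k1,k1,k0,k1,k0],[k0,k1,k0,k1,k1,k0],[k0,k0,k2,k0,k1,k0],[k0,k0,k1,k1,k1,k0],[k0,k0,
    k1,k0,k2,k0],[k0,k0,k1,k0,k1,k1],[k0,k0,k0,k1,k2,k0],[k0,k0,k0,k1,k1,k1],[k0,k0,k0,k0,k3,k0],[k0,k0,k0,k0,k2,k1],
    [k0,k0,k0,k0,k1,k2]]
    [.ref k12 k0 [(z9,[z12,z15,z12,z4,z4,y12]),(z9,[y6,z6,z21,y2,y2,z6]),(z9,[y12,z12,y12,z5,y4,z12]),(z1,[z0,z0,z0,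
    z0,z1]),(z9,[z3,y30,y24,y8,y8,z24])],.ref k12 k0 [(z3,[z4,z1]),(z3,[y2,z4,z9]),(z3,[y4,z8,z0,z3]),(z1,[z0,z0,z0,
    z0,z1]),(z3,[z1,y11,y9,y3,y3,z9])],.ref k12 k0 [(z1,[z12,z3,z12,z0,z4,y12]),(z1,[y6,z0,y3,z0,y2,z6]),(z1,[y12,z0,
    y12,z1,y4,z12]),(z1,[z0,z0,z0,z0,z1]),(z1,[z3,y3,z0,y1])],.ref k12 k0 [(z5,[z12,z15,z12,z4,z0,y12]),(z5,[y6,z0,z9,
    y2,z0,z6]),(z5,[y12,z0,y12,z1,z0,z12]),(z1,[z0,z0,z0,z0,z1]),(z5,[z3,y15,y12,y4,y5,z12])],.ref k12 k0 [(z3,[z6,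
    z15,z12,z4,z4,y12]),(z3,[y3,y3,z3,y2,y2,z6]),(z3,[y6,y6,y12,y1,y4,z12]),(z1,[z0,z0,z0,z0,z1]),(z6,[z3,y15,y12,y4,
    y4,z12])],.ref k12 k0 [(z3,[z6,z9,z6,z2,z2,y6]),(z3,[y3,z0,z6,y1,y1,z3]),(z3,[y6,z0,y6,z1,y2,z6]),(z1,[z0,z0,z0,
    z0,z1]),(z6,[z3,y18,y15,y5,y5,z15])],.ref k12 k0 [(z1,[z2,z1]),(z1,[y1,z1,z3]),(z1,[y2,z2,z0,z1]),(z1,[z0,z0,z0,
    z0,z1]),(z2,[z1,y7,y6,y2,y2,z6])],.ref k12 k0 [(z5,[y12,z3,z0,z0,y4,z12]),(z5,[z6,z6,z15,z0,z2,y6]),(z5,[z12,z12,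
    z0,z5,z4,y12]),(z1,[z0,z0,z0,z0,z1]),(z5,[y3,y18,y15,y5,y6,z18])],.ref k12 k0 [(z1,[y12,y9,z0,y4,z0,z12]),(z1,[z6,
    z6,z3,z2,z0,y6]),(z1,[z12,z12,z0,z5,z0,y12]),(z1,[z0,z0,z0,z0,z1]),(z1,[y3,y6,y3,y2,y1,z6])],.ref k12 k0 [(z7,
    [y12,z9,y12,z4,y4,z12]),(z7,[z6,z6,z27,y2,z2,y6]),(z7,[z12,z12,z12,z3,z4,y12]),(z1,[z0,z0,z0,z0,z1]),(z7,[y3,y24,
    y24,y6,y8,z24])],.ref k12 k0 [(z1,[y4,y1,y4,z0,z0,z4]),(z1,[z2,z2,z5,z0,z0,y2]),(z1,[z4,z4,z4,z1,z0,y4]),(z1,[z0,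
    z0,z0,z0,z1]),(z1,[y1,y4,y4,y1,y1,z4])],.ref k12 k0 [(z1,[y6,y9,y12,y2,y4,z12]),(z1,[z3,z6,z9,z1,z2,y6]),(z1,[z6,
    z12,z12,z3,z4,y12]),(z1,[z0,z0,z0,z0,z1]),(z2,[y3,y12,y12,y3,y4,z12])],.ref k12 k0 [(z1,[y6,y3,y6,z0,y2,z6]),(z1,
    [z3,z3,z6,z0,z1,y3]),(z1,[z6,z6,z6,z1,z2,y6]),(z1,[z0,z0,z0,z0,z1]),(z2,[y3,y9,y9,y2,y3,z9])],.ref k12 k0 [(z1,
    [z6,z15,z12,z4,z2,y12]),(z1,[y3,y6,y3,y2,y1,z6]),(z1,[y6,y12,y12,y3,y2,z12]),(z1,[z0,z0,z0,z0,z1]),(z2,[z3,z0,z0,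
    z0,y1])],.ref k12 k0 [(z1,[z6,z9,z6,z2,z0,y6]),(z1,[y3,y3,z0,y1,z0,z3]),(z1,[y6,y6,y6,y1,z0,z6]),(z1,[z0,z0,z0,z0,
    z1]),(z2,[z3,y3,y3,y1,y2,z3])],.ref k12 k0 [(z1,[z4,z15,z12,z4,z4,y12]),(z1,[y2,y6,y3,y2,y2,z6]),(z1,[y4,y12,y12,
    y3,y4,z12]),(z1,[z0,z0,z0,z0,z1]),(z1,[z1])],.ref k12 k0 [(z3,[z12,z33,z24,z8,z8,y24]),(z3,[y6,y12,y3,y4,y4,z12]),
    (z3,[y12,y24,y24,y5,y8,z24]),(z1,[z0,z0,z0,z0,z1]),(z3,[z3,y3,y3,y1,y1,z3])],.ref k12 k0 [(z3,[z12,z21,z12,z4,z4,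
    y12]),(z3,[y6,y6,z3,y2,y2,z6]),(z3,[y12,y12,y12,y1,y4,z12]),(z1,[z0,z0,z0,z0,z1]),(z3,[z3,y6,y6,y2,y2,z6])]],
    .lp [k154,k166,k168,k166,k144,k160] [k7,k7,k1,k1,k0,k0,k1,k1,k12,k12,k4,k4] k0 [[k0,k0,k0,k0,k0,k0,k0,k0,k22],[k0,k0,
    k0,k0,k0,k0,k0,k0,k0,k0,k0,k6],[k0,k0,k0,k0,k4,k0,k0,k0,k0,k0,k6],[k0,k0,k0,k0,k0,k0,k0,k16,k0,k8],[k0,k0,k0,k0,
    k0,k0,k0,k0,k26,k0,k2],[k0,k0,k0,k4,k0,k0,k0,k4],[k0,k0,k16,k0,k4],[k0,k0,k0,k0,k0,k0,k0,k0,k0,k0,k0,k20],[k0,k0,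
    k8],[k0,k22,k0,k0,k0,k26],[k6,k0,k0,k0,k0,k0,k20],[k0,k0,k0,k6,k0,k2]] (nat_lit 480) k5
    [[(k8,k149),(k2,k154),(k10,k157),(k4,k159),(k0,k160),(k6,k180)],[(k11,k135),(k9,k149),(k1,k160),(k3,k160),(k7,
    k160),(k5,k161)],[(k10,k157),(k0,k160),(k2,k166),(k6,k166),(k4,k167),(k8,k177)],[(k1,k154),(k7,k162),(k3,k166),
    (k5,k167),(k9,k171),(k11,k171)],[(k8,k148),(k6,k151),(k0,k161),(k2,k167),(k10,k170),(k4,k172)],[(k11,k138),(k1,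
    k159),(k9,k160),(k3,k167),(k7,k167),(k5,k172)],[(k0,k160),(k2,k162),(k6,k162),(k10,k165),(k4,k167),(k8,k181)],
    [(k5,k151),(k9,k155),(k7,k162),(k11,k163),(k3,k166),(k1,k180)],[(k10,k132),(k8,k144),(k0,k149),(k6,k155),(k4,
    k160),(k2,k171)],[(k9,k144),(k5,k148),(k1,k149),(k11,k152),(k3,k177),(k7,k181)],[(k0,k135),(k4,k138),(k8,k152),
    (k10,k160),(k6,k163),(k2,k171)],[(k9,k132),(k1,k157),(k3,k157),(k11,k160),(k7,k165),(k5,k170)]]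
    [] k0
    [[k2,k1,k0,k0,k0,k0],[k2,k0,k0,k0,k1,k0],[k2,k0,k0,k0,k0,k1],[k1,k1,k0,k0,k0,k1],[k1,k0,k1,k1,k0,k0],[k1,k0,k1,k0,
    k1,k0],[k1,k0,k1,k0,k0,k1],[k1,k0,k0,k1,k1,k0],[k1,k0,k0,k0,k2,k0],[k1,k0,k0,k0,k1,k1],[k1,k0,k0,k0,k0,k2],[k0,k1,
    k1,k0,k0,k1],[k0,k0,k1,k1,k0,k1],[k0,k0,k1,k1,k1,k0],[k0,k0,k1,k0,k2,k0],[k0,k0,k1,k0,k1,k1],[k0,k0,k1,k0,k0,k2],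
    [k0,k0,k0,k1,k1,k1],[k0,k0,k0,k0,k3,k0],[k0,k0,k0,k0,k2,k1],[k0,k0,k0,k0,k1,k2]]
    [.ref k12 k0 [(z7,[z12,y1,y6]),(z7,[y3,z2,z12]),(z14,[y6,z4,z3,z21]),(z7,[y12,z8,z6,z0,z21]),(z7,[z6,y4,y3])],
    .ref k12 k0 [(z5,[z6,z1]),(z10,[y3,z2,z15]),(z10,[y3,z2,z0,z15]),(z5,[y6,z4,z0,z0,z15]),(z5,[z3,y2])],
    .ref k12 k0 [(z4,[z6,z2,z3,z3,z6,y6]),(z16,[y6,z2,z21,y3,y6,z6]),(z16,[y6,z2,y3,z21,y6,z6]),(z4,[y6,z2,y3,y3,z6,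
    z6]),(z8,[z6,y2,z3,z3,z6,y6])],.ref k12 k0 [(z1,[z4,z1,z0,z2,z4,y4]),(z2,[y2,z0,z3,y1,y2,z2]),(z1,[y1,z0,z0,z1,y1,
    z1]),(z1,[y4,z0,z0,y2,y1,z4]),(z1,[z2,z0,z0,z1,z2,y2])],.ref k12 k0 [(z1,[y12,z5,z0,z6,z12]),(z2,[z6,y2,z3,y3,
    y6]),(z1,[z3,y1,z0,z0,y3]),(z1,[z12,y4,z0,y6,y9]),(z1,[y6,z2,z0,z3,z6])],.ref k12 k0 [(z5,[z12,z1,z0,y6]),(z10,
    [y6,z2,z15,z3]),(z5,[y3,z1,z0,z9]),(z5,[y12,z4,z0,z6,z15]),(z5,[z6,y2,z0,y3])],.ref k12 k0 [(z1,[z4,z1,z2,z0,z4,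
    y4]),(z1,[y1,z0,z1,z0,y1,z1]),(z2,[y2,z0,y1,z3,y2,z2]),(z1,[y4,z0,y2,z0,y1,z4]),(z1,[z2,z0,z1,z0,z2,y2])],
    .ref k12 k0 [(z1,[z6,y1,z0,z0,y6]),(z2,[y3,z1,z3,z0,z3]),(z2,[y3,z1,z0,z3,z3]),(z1,[y6,z2,z0,z0,z9]),(z1,[z3,y1,
    z0,z0,y3])],.ref k12 k0 [(z2,[z3,z1]),(z8,[y3,z1,z12]),(z8,[y3,z1,z0,z12]),(z2,[y3,z1,z0,z0,z6]),(z4,[z3,y1])],
    .ref k12 k0 [(z1,[z2,z1,z1,z1,z2,y2]),(z4,[y2,z0,z5,y1,y2,z2]),(z4,[y2,z0,y1,z5,y2,z2]),(z1,[y2,z0,y1,y1,z1,z2]),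
    (z2,[z2,z0,z1,z1,z2,y2])],.ref k12 k0 [(z1,[z3,z2,z3,z3,z6,y6]),(z4,[y3,y1,z3,y3,y6,z6]),(z4,[y3,y1,y3,z3,y6,z6]),
    (z1,[y3,y1,y3,y3,y3,z6]),(z2,[z3,z1,z3,z3,z6,y6])],.ref k12 k0 [(z1,[y6,y1,z0,z0,y6,z6]),(z2,[z3,z1,z3,z0,z3,y3]),
    (z2,[z3,z1,z0,z3,z3,y3]),(z1,[z6,z2,z0,z0,z9,y6]),(z1,[y3,y1,z0,z0,y3,z3])],.ref k12 k0 [(z5,[y12,z1,y6,z0,z0,
    z12]),(z5,[z3,z1,z9,z0,z0,y3]),(z10,[z6,z2,z3,z15,z0,y6]),(z5,[z12,z4,z6,z0,z15,y12]),(z5,[y6,y2,y3,z0,z0,z6])],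
    .ref k12 k0 [(z1,[y4,z1,z0,z2,z4]),(z2,[z2,z0,z3,y1,y2]),(z1,[z1,z0,z0,z1,y1]),(z1,[z4,z0,z0,y2,y1]),(z1,[y2,z0,
    z0,z1,z2])],.ref k12 k0 [(z1,[z4,z1,z0,y2]),(z2,[y2,z0,z3,z1]),(z1,[y1,z0,z0,z2]),(z1,[y4,z0,z0,z2,z3]),(z1,[z2,
    z0,z0,y1])],.ref k12 k0 [(z1,[z12,z5,z6,z0,z12,y12]),(z1,[y3,y1,z0,z0,y3,z3]),(z2,[y6,y2,y3,z3,y6,z6]),(z1,[y12,
    y4,y6,z0,y9,z12]),(z1,[z6,z2,z3,z0,z6,y6])],.ref k12 k0 [(z1,[y12,y7,y12,y6,y24,z24]),(z2,[z6,z4,z9,z3,z12,y12]),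
    (z1,[z3,z2,z3,z3,z6,y6]),(z1,[z12,z8,z12,z6,z27,y24]),(z1,[y6,y4,y6,y3,y12,z12])],.ref k12 k0 [(z1,[y6,y1,y3,y3,
    z0,z6]),(z4,[z6,z2,z9,z3,z0,y6]),(z4,[z6,z2,z3,z9,z0,y6]),(z1,[z6,z2,z3,z3,z3,y6]),(z2,[y6,y2,y3,y3,z0,z6])],
    .ref k12 k0 [(z1,[z2,z1]),(z2,[y1,z0,z3]),(z2,[y1,z0,z0,z3]),(z1,[y2,z0,z0,z0,z3]),(z1,[z1])],.ref k12 k0 [(z2,
    [z6,z4,z3,z3,z6,y6]),(z8,[y6,y2,z9,y3,y6,z6]),(z8,[y6,y2,y3,z9,y6,z6]),(z2,[y6,y2,y3,y3,z0,z6]),(z4,[z6,z2,z3,z3,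
    z6,y6])],.ref k12 k0 [(z1,[z6,z5,z6,z6,z12,y12]),(z2,[y3,y2,z0,y3,y6,z6]),(z2,[y3,y2,y3,z0,y6,z6]),(z1,[y6,y4,y6,
    y6,y9,z12]),(z1,[z3,z2,z3,z3,z6,y6])]],
    .lp [(nat_lit 460),(nat_lit 490),(nat_lit 490),(nat_lit 490),(nat_lit 490),(nat_lit 454)] [k15,k15,k0,k0,k0,k0,k0,k0,
    k0,k0,k18,k18] k0 [[k0,k0,k0,k0,k0,k0,k0,k0,k0,k0,k36],[],[k0,k0,k0,k0,k18],[k0,k0,k0,k0,k0,k0,k0,k12,k0,k42],[k0,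
    k0,k0,k0,k0,k0,k0,k0,k12],[k0,k0,k0,k18],[k0,k0,k12],[k0,k0,k0,k0,k0,k0,k0,k0,k0,k42,k0,k36],[k0,k0,k42,k0,k0,k0,
    k42],[k0,k0,k0,k0,k0,k12],[k0,k0,k0,k0,k0,k0,k36],[k0,k36]] (nat_lit 1440) k5
    [[(k0,(nat_lit 424)),(k10,(nat_lit 457)),(k2,(nat_lit 475)),(k4,(nat_lit 475)),(k8,(nat_lit 475)),(k6,
    (nat_lit 511))],[(k1,(nat_lit 424)),(k11,(nat_lit 457)),(k3,(nat_lit 475)),(k5,(nat_lit 475)),(k7,(nat_lit 475)),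
    (k9,(nat_lit 475))],[(k0,(nat_lit 475)),(k2,(nat_lit 490)),(k4,(nat_lit 490)),(k6,(nat_lit 490)),(k8,
    (nat_lit 490)),(k10,(nat_lit 508))],[(k7,(nat_lit 472)),(k1,(nat_lit 475)),(k3,(nat_lit 490)),(k5,(nat_lit 490)),
    (k9,(nat_lit 502)),(k11,(nat_lit 514))],[(k8,(nat_lit 448)),(k10,(nat_lit 472)),(k0,(nat_lit 475)),(k6,
    (nat_lit 478)),(k2,(nat_lit 490)),(k4,(nat_lit 508))],[(k11,(nat_lit 460)),(k1,(nat_lit 475)),(k3,(nat_lit 490)),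
    (k7,(nat_lit 490)),(k9,(nat_lit 490)),(k5,(nat_lit 508))],[(k2,(nat_lit 472)),(k10,(nat_lit 472)),(k0,
    (nat_lit 475)),(k4,(nat_lit 490)),(k6,(nat_lit 490)),(k8,(nat_lit 502))],[(k5,(nat_lit 478)),(k3,(nat_lit 490)),
    (k7,(nat_lit 490)),(k9,(nat_lit 490)),(k1,(nat_lit 511)),(k11,(nat_lit 514))],[(k10,(nat_lit 436)),(k8,
    (nat_lit 448)),(k0,(nat_lit 475)),(k4,(nat_lit 490)),(k6,(nat_lit 490)),(k2,(nat_lit 502))],[(k5,(nat_lit 448)),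
    (k9,(nat_lit 448)),(k11,(nat_lit 472)),(k1,(nat_lit 475)),(k3,(nat_lit 490)),(k7,(nat_lit 502))],[(k10,
    (nat_lit 454)),(k0,(nat_lit 457)),(k4,(nat_lit 460)),(k8,(nat_lit 472)),(k2,(nat_lit 514)),(k6,(nat_lit 514))],
    [(k9,(nat_lit 436)),(k11,(nat_lit 454)),(k1,(nat_lit 457)),(k5,(nat_lit 472)),(k7,(nat_lit 472)),(k3,
    (nat_lit 508))]]
    [] k0
    [[k3,k0,k0,k0,k0,k0],[k2,k1,k0,k0,k0,k0],[k2,k0,k1,k0,k0,k0],[k2,k0,k0,k1,k0,k0],[k2,k0,k0,k0,k1,k0],[k2,k0,k0,k0,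
    k0,k1],[k1,k0,k1,k1,k0,k0],[k1,k0,k1,k0,k1,k0],[k1,k0,k1,k0,k0,k1],[k1,k0,k0,k0,k2,k0],[k1,k0,k0,k0,k1,k1],[k1,k0,
    k0,k0,k0,k2],[k0,k0,k1,k1,k0,k1],[k0,k0,k1,k1,k1,k0],[k0,k0,k1,k0,k2,k0],[k0,k0,k1,k0,k1,k1],[k0,k0,k1,k0,k0,k2],
    [k0,k0,k0,k1,k1,k1],[k0,k0,k0,k0,k3,k0],[k0,k0,k0,k0,k2,k1],[k0,k0,k0,k0,k1,k2],[k0,k0,k0,k0,k0,k3]]
    [.ref (nat_lit 433) k7 [(z2,[z0,y2,y1,y5,z2]),(z1,[z0,z0,z0,z1]),(z1,[y1,z3,z0,z6]),(z1,[z1])],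
    .ref (nat_lit 253) k1 [(z1,[y4,z1,z2]),(z1,[y2,z0,z1]),(z2,[z8,y2,y5,y1,z2]),(z2,[z2,z0,y1,z1])],
    .ref (nat_lit 253) k1 [(z1,[y4,z1,z0,z2]),(z1,[y2,z0,z0,z1]),(z2,[z8,y2,y1,y5,z2]),(z1,[z1])],.ref k179 k7 [(z2,
    [z0,y2,y1,y5,z2]),(z1,[z0,z0,z0,z1]),(z4,[y2,z2,y1,z3,z2]),(z4,[z2,z2,z1,z5,y2])],.ref (nat_lit 337) k7 [(z2,[z0,
    y2,y1,y5,z2]),(z1,[z0,z0,z0,z1]),(z2,[y1,z2,z0,z5]),(z2,[z1,z0,z0,y1])],.ref (nat_lit 375) k4 [(z1,[y1,z2]),(z1,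
    [z1,y1]),(z1,[z0,z0,z1]),(z1,[z0,z0,z0,z1])],.ref k29 k7 [(z2,[z0,y2,y1,y5,z2]),(z1,[z0,z0,z0,z1]),(z2,[y2,z0,y1,
    y1,z2]),(z2,[z2,z2,z1,z5,y2])],.ref (nat_lit 337) k7 [(z2,[z0,y2,y1,y5,z2]),(z1,[z0,z0,z0,z1]),(z1,[y1,z1,z0,z3]),
    (z1,[z1,z0,z0,y1])],.ref k9 k3 [(z2,[y2,z2,z3,z1]),(z1,[y1,z1,z0,z2]),(z2,[y8,z2,y3,z1,z6]),(z1,[z2,y2,z0,y1])],
    .ref (nat_lit 375) k4 [(z1,[y1,z1]),(z1,[z1]),(z1,[z0,z0,z1]),(z1,[z0,z0,z0,z1])],.ref k9 k3 [(z2,[y1,z1,z3]),(z2,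
    [y1,z1,z0,z3]),(z2,[y4,y2,y3,y3,z6]),(z1,[z1,y1])],.ref k13 k7 [(z2,[z0,y2,y1,y5,z2]),(z1,[z0,z0,z0,z1]),(z1,[z1,
    y1,z0,y2]),(z1,[y1,z2,z0,z4])],.ref (nat_lit 337) k7 [(z2,[z0,y2,y1,y5,z2]),(z1,[z0,z0,z0,z1]),(z2,[z2,z2,z1,z5,
    y2]),(z2,[y2,z0,y1,y1,z2])],.ref k9 k3 [(z1,[z1,z1,z2,z0,y1]),(z2,[z2,z2,z1,z3,y2]),(z2,[z8,z2,z1,y3,y2]),(z1,[y2,
    y2,y1,z0,z2])],.ref k9 k3 [(z2,[y2,z0,z3,z1]),(z1,[y1,z0,z0,z2]),(z2,[y8,y6,y3,z1,z6]),(z1,[z2,z0,z0,y1])],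
    .ref k29 k7 [(z2,[z0,y2,y1,y5,z2]),(z1,[z0,z0,z0,z1]),(z1,[z1,z0,z0,y1]),(z1,[y1,z1,z0,z3])],
    .ref (nat_lit 367) k0 [(z1,[y4,z1,z0,z2]),(z2,[z2,z0,z1,y1]),(z1,[z1]),(z2,[z8,y2,y1,y5,z2])],.ref k179 k7 [(z2,
    [z0,y2,y1,y5,z2]),(z1,[z0,z0,z0,z1]),(z2,[z2,z2,z1,z3,y2]),(z2,[y2,z0,y1,z1,z2])],.ref k9 k3 [(z2,[y1,z0,z3]),(z2,
    [y1,z0,z0,z3]),(z2,[y4,y6,y3,y3,z6]),(z1,[z1])],.ref k13 k7 [(z2,[z0,y2,y1,y5,z2]),(z1,[z0,z0,z0,z1]),(z1,[z1,z0,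
    z0,y2]),(z1,[y1,z1,z0,z4])],.ref k29 k7 [(z2,[z0,y2,y1,y5,z2]),(z1,[z0,z0,z0,z1]),(z2,[z1,z0,z0,y1]),(z2,[y1,z2,
    z0,z5])],.ref (nat_lit 434) k0 [(z1,[y1,z3]),(z1,[z0,z0,z1]),(z1,[z0,z0,z0,z1]),(z2,[z0,y2,y1,y1,z2])]],
    .lp [k86,k76,k84,k82,k82,k68] [k32,k0,k21,k21,k17,k17,k18,k18,k18,k18,k25,k25] k0 [[k0,k0,k4,k0,k0,k0,k4],[k0,k0,k0,
    k0,k0,k16],[k0,k0,k0,k0,k0,k0,k0,k0,k12,k0,k2],[k0,k4,k0,k0,k0,k0,k0,k2],[k16],[k0,k0,k0,k0,k0,k0,k0,k0,k0,k6],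
    [k0,k0,k2,k0,k0,k0,k0,k0,k12],[k0,k4,k0,k0,k0,k0,k0,k0,k0,k0,k0,k4],[k0,k0,k0,k0,k6,k0,k0,k0,k0,k0,k40],[k0,k0,k0,
    k12,k0,k0,k0,k12],[k0,k0,k0,k0,k0,k0,k4],[k0,k0,k0,k2,k0,k0,k0,k0,k0,k40]] (nat_lit 240) k5
    [[(k8,k60),(k0,k86),(k10,k93),(k2,k95),(k4,k101),(k6,k104)],[(k11,k61),(k9,k64),(k3,k65),(k5,k65),(k7,k84),(k1,
    k86)],[(k4,k64),(k0,k65),(k10,k72),(k8,k79),(k2,k80),(k6,k83)],[(k11,k60),(k7,k79),(k3,k80),(k5,k80),(k9,k81),(k1,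
    k95)],[(k0,k65),(k10,k78),(k2,k80),(k6,k81),(k4,k84),(k8,k95)],[(k3,k64),(k11,k82),(k7,k83),(k9,k83),(k5,k84),(k1,
    k101)],[(k10,k75),(k8,k76),(k2,k79),(k6,k82),(k4,k83),(k0,k84)],[(k11,k63),(k5,k81),(k7,k82),(k9,k82),(k3,k83),
    (k1,k104)],[(k0,k64),(k10,k71),(k2,k81),(k6,k82),(k4,k83),(k8,k94)],[(k1,k60),(k11,k75),(k7,k76),(k3,k79),(k9,
    k94),(k5,k95)],[(k2,k60),(k0,k61),(k6,k63),(k8,k75),(k4,k82),(k10,k108)],[(k9,k71),(k3,k72),(k7,k75),(k5,k78),(k1,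
    k93),(k11,k108)]]
    [] k0
    [[k2,k0,k0,k0,k1,k0],[k1,k1,k1,k0,k0,k0],[k1,k1,k0,k0,k1,k0],[k1,k1,k0,k0,k0,k1],[k1,k0,k1,k0,k1,k0],[k1,k0,k0,k1,
    k1,k0],[k1,k0,k0,k0,k2,k0],[k1,k0,k0,k0,k1,k1],[k0,k2,k1,k0,k0,k0],[k0,k2,k0,k0,k0,k1],[k0,k1,k2,k0,k0,k0],[k0,k1,
    k1,k1,k0,k0],[k0,k1,k1,k0,k0,k1],[k0,k1,k0,k1,k0,k1],[k0,k1,k0,k0,k1,k1],[k0,k0,k1,k1,k0,k1],[k0,k0,k1,k0,k1,k1],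
    [k0,k0,k0,k2,k0,k1],[k0,k0,k0,k1,k1,k1]]
    [.ref k157 k8 [(z1,[z1,y1,z1,y1]),(z1,[z0,y1,y1,z1]),(z1,[z0,z1,y1,z1])],.ref (nat_lit 262) k5 [(z1,[z2,y1,y1,
    y1]),(z1,[z0,z0,z1]),(z1,[y1,z1,z0,z1])],.ref k191 k4 [(z1,[z1,y1,y1]),(z1,[z1,z0,y1]),(z1,[z0,z0,z1])],
    .ref (nat_lit 201) k2 [(z1,[y1,z1,z1]),(z1,[z0,y1,y1,z1]),(z1,[z1,y1])],.ref (nat_lit 328) k4 [(z1,[y1,z0,y1,z1]),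
    (z1,[y1,z1,y1,z1]),(z1,[z0,z0,z1])],.ref (nat_lit 262) k5 [(z1,[y2,z1,y1,z1]),(z1,[z0,z0,z1]),(z1,[z1])],
    .ref (nat_lit 219) k5 [(z1,[y2,z1,y1,z1]),(z1,[z0,z0,z1]),(z1,[z1])],.ref k157 k8 [(z1,[z1,z0,z1,y1]),(z1,[z0,y1,
    y1,z1]),(z1,[z0,z1,y1,z1])],.ref (nat_lit 262) k5 [(z1,[z1,z0,y2]),(z1,[z0,z0,z1]),(z2,[y1,z1,z1,z1])],
    .ref (nat_lit 432) k4 [(z1,[z1,z0,y2]),(z1,[z1,z1,y2]),(z1,[z0,z0,z1])],.ref (nat_lit 435) k8 [(z1,[y1,z0,z1]),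
    (z1,[z0,y1,y1,z1]),(z1,[z0,z1,y1,z1])],.ref k157 k8 [(z1,[y1,z0,z1]),(z1,[z0,y1,y1,z1]),(z1,[z0,z1,y1,z1])],
    .ref (nat_lit 262) k5 [(z1,[z2,z1,y1,y1]),(z1,[z0,z0,z1]),(z1,[y1,z0,z0,z1])],.ref (nat_lit 328) k4 [(z1,[z1,z0,
    y1]),(z1,[z1,z1,y1]),(z1,[z0,z0,z1])],.ref k191 k4 [(z1,[z1,z0,y1]),(z1,[z1,z1,y1]),(z1,[z0,z0,z1])],
    .ref k191 k4 [(z1,[y1,y1,y1,z1]),(z1,[y1,z0,y1,z1]),(z1,[z0,z0,z1])],.ref (nat_lit 328) k4 [(z1,[y1,y1,y1,z1]),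
    (z1,[y1,z0,y1,z1]),(z1,[z0,z0,z1])],.ref (nat_lit 350) k5 [(z1,[y2,y1,y1,z1]),(z1,[z0,z0,z1]),(z1,[z1,z1])],
    .ref (nat_lit 262) k5 [(z1,[y2,y1,y1,z1]),(z1,[z0,z0,z1]),(z1,[z1,z1])]],
    .lp [k86,k80,k68,k84,k74,k86] [k0,k0,k3,k3,k9,k9,k1,k1,k7,k5,k0,k0] k0 [[k0,k0,k0,k0,k0,k0,k0,k0,k6],[k0,k0,k0,k0,k0,
    k2],[k0,k0,k0,k0,k20,k0,k0,k0,k0,k0,k6],[k0,k0,k0,k0,k0,k0,k0,k0,k0,k4],[k2,k0,k0,k0,k0,k0,k12],[k0,k0,k0,k20,k0,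
    k0,k0,k0,k0,k6],[k0,k0,k0,k0,k0,k0,k0,k0,k16],[k0,k0,k0,k0,k0,k12,k0,k0,k0,k0,k0,k10],[k0,k0,k4,k0,k6],[k0,k6,k0,
    k0,k0,k0,k0,k16],[k0,k0,k0,k0,k0,k0,k10],[k0,k0,k0,k6]] (nat_lit 240) k5
    [[(k2,k77),(k4,k77),(k8,k79),(k0,k86),(k10,k86),(k6,k95)],[(k5,k77),(k11,k80),(k9,k81),(k3,k83),(k1,k86),(k7,
    k87)],[(k4,k72),(k2,k80),(k6,k82),(k8,k82),(k0,k83),(k10,k83)],[(k7,k62),(k5,k74),(k1,k77),(k9,k78),(k3,k80),(k11,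
    k87)],[(k8,k66),(k2,k74),(k6,k76),(k0,k77),(k10,k83),(k4,k88)],[(k9,k60),(k3,k72),(k7,k76),(k1,k77),(k11,k83),(k5,
    k88)],[(k2,k62),(k8,k72),(k4,k76),(k10,k85),(k0,k87),(k6,k96)],[(k11,k69),(k5,k76),(k9,k80),(k3,k82),(k1,k95),(k7,
    k96)],[(k4,k60),(k10,k71),(k2,k78),(k6,k80),(k0,k81),(k8,k90)],[(k5,k66),(k7,k72),(k1,k79),(k11,k79),(k3,k82),(k9,
    k90)],[(k6,k69),(k8,k79),(k0,k80),(k4,k83),(k10,k86),(k2,k87)],[(k9,k71),(k3,k83),(k5,k83),(k7,k85),(k1,k86),(k11,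
    k86)]]
    [] k0
    [[k1,k1,k1,k0,k0,k0],[k1,k0,k1,k0,k1,k0],[k1,k0,k0,k0,k1,k1],[k0,k2,k1,k0,k0,k0],[k0,k2,k0,k1,k0,k0],[k0,k1,k2,k0,
    k0,k0],[k0,k1,k1,k1,k0,k0],[k0,k1,k1,k0,k1,k0],[k0,k1,k0,k1,k1,k0],[k0,k1,k0,k1,k0,k1],[k0,k0,k2,k0,k1,k0],[k0,k0,
    k1,k1,k1,k0],[k0,k0,k1,k0,k2,k0],[k0,k0,k1,k0,k1,k1],[k0,k0,k1,k1,k0,k1],[k0,k0,k0,k1,k1,k1],[k0,k0,k0,k0,k1,k2]]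
    [.ref (nat_lit 287) k8 [(z1,[y2,z1]),(z1,[z1,y1,z1])],.ref (nat_lit 288) k6 [(z1,[z1,y1]),(z1,[y1,z0,z1])],
    .ref (nat_lit 235) k1 [(z1,[z1,y1]),(z1,[z0,z1])],.ref (nat_lit 299) k3 [(z1,[z1,z1,y1]),(z1,[y1,y2,z2])],
    .ref (nat_lit 326) k0 [(z1,[z0,z1]),(z1,[z1])],.ref (nat_lit 234) k5 [(z1,[z2,z1,y2]),(z1,[y1,y1,z2])],
    .ref (nat_lit 235) k1 [(z1,[y1,y1,z1]),(z1,[z0,z1])],.ref (nat_lit 346) k6 [(z1,[z1,y1]),(z1,[y1,z0,z1])],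
    .ref (nat_lit 371) k7 [(z1,[z1,y1]),(z1,[z0,z1])],.ref (nat_lit 288) k6 [(z1,[y1,y1,z1]),(z1,[z1])],
    .ref (nat_lit 288) k6 [(z2,[z1,y1]),(z2,[y1,y1,z2])],.ref (nat_lit 372) k7 [(z1,[z1,y1]),(z1,[z0,z1])],
    .ref (nat_lit 411) k6 [(z1,[z1,y2]),(z1,[y1,z1,z1])],.ref (nat_lit 430) k8 [(z1,[z2,z1,y2]),(z1,[y1,y1,z2])],
    .ref (nat_lit 436) k11 [(z1,[z1,z1,y1]),(z1,[z1])],.ref (nat_lit 287) k8 [(z1,[z2,z1,y2]),(z1,[y1,y1,z2])],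
    .ref (nat_lit 235) k1 [(z2,[z1,y1]),(z1,[z0,z1])]]]

noncomputable def cT6_3_n10_1 : List TN :=
  [.leafM k0 [k1,k2,k3,k4,k5,k0] [(z1,[y1,y1,z1])] [],
    .leafM k0 [k2,k3,k4,k5,k0,k1] [(z1,[y1,y1,y1,z1])] [],
    .lp [(nat_lit 308),(nat_lit 342),(nat_lit 326),(nat_lit 326),(nat_lit 320),(nat_lit 296)] [k17,k17,k0,k0,k8,k8,k8,k8,
    k11,k11,k23,k23] k0 [[k0,k0,k0,k0,k0,k0,k0,k0,k4],[k0,k0,k0,k0,k0,k16,k0,k0,k0,k0,k0,k16],[k0,k0,k0,k0,k0,k0,k0,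
    k0,k2,k0,k32],[k0,k0,k0,k0,k0,k0,k0,k18],[k16,k0,k0,k0,k0,k0,k14],[k0,k0,k0,k0,k0,k0,k0,k0,k0,k32,k0,k2],[k0,k0,
    k18],[k0,k0,k0,k0,k0,k14],[k0,k0,k0,k0,k32,k0,k0,k0,k0,k0,k64],[k0,k4,k0,k2],[k16,k0,k0,k0,k2],[k0,k0,k0,k32,k0,
    k0,k0,k0,k0,k64]] (nat_lit 960) k5
    [[(k8,(nat_lit 250)),(k2,(nat_lit 293)),(k10,(nat_lit 302)),(k6,(nat_lit 317)),(k4,(nat_lit 319)),(k0,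
    (nat_lit 324))],[(k11,(nat_lit 298)),(k9,(nat_lit 314)),(k5,(nat_lit 317)),(k1,(nat_lit 324)),(k3,(nat_lit 325)),
    (k7,(nat_lit 333))],[(k10,(nat_lit 303)),(k4,(nat_lit 318)),(k0,(nat_lit 325)),(k6,(nat_lit 334)),(k8,
    (nat_lit 335)),(k2,(nat_lit 342))],[(k1,(nat_lit 293)),(k11,(nat_lit 317)),(k5,(nat_lit 334)),(k7,(nat_lit 334)),
    (k3,(nat_lit 342)),(k9,(nat_lit 349))],[(k6,(nat_lit 308)),(k0,(nat_lit 317)),(k8,(nat_lit 325)),(k4,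
    (nat_lit 326)),(k2,(nat_lit 334)),(k10,(nat_lit 343))],[(k9,(nat_lit 309)),(k3,(nat_lit 318)),(k1,(nat_lit 319)),
    (k5,(nat_lit 326)),(k7,(nat_lit 326)),(k11,(nat_lit 343))],[(k8,(nat_lit 291)),(k10,(nat_lit 309)),(k4,
    (nat_lit 326)),(k0,(nat_lit 333)),(k2,(nat_lit 334)),(k6,(nat_lit 340))],[(k5,(nat_lit 308)),(k11,(nat_lit 311)),
    (k1,(nat_lit 317)),(k9,(nat_lit 323)),(k3,(nat_lit 334)),(k7,(nat_lit 340))],[(k10,(nat_lit 308)),(k4,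
    (nat_lit 309)),(k0,(nat_lit 314)),(k8,(nat_lit 320)),(k6,(nat_lit 323)),(k2,(nat_lit 349))],[(k1,(nat_lit 250)),
    (k7,(nat_lit 291)),(k11,(nat_lit 308)),(k9,(nat_lit 320)),(k5,(nat_lit 325)),(k3,(nat_lit 335))],[(k0,
    (nat_lit 298)),(k8,(nat_lit 308)),(k6,(nat_lit 311)),(k2,(nat_lit 317)),(k4,(nat_lit 343)),(k10,(nat_lit 360))],
    [(k1,(nat_lit 302)),(k3,(nat_lit 303)),(k9,(nat_lit 308)),(k7,(nat_lit 309)),(k5,(nat_lit 343)),(k11,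
    (nat_lit 360))]]
    [] k0
    [[k2,k1,k0,k0,k0,k0],[k2,k0,k0,k0,k1,k0],[k2,k0,k0,k0,k0,k1],[k1,k1,k1,k0,k0,k0],[k1,k1,k0,k0,k1,k0],[k1,k1,k0,k0,
    k0,k1],[k1,k0,k1,k0,k1,k0],[k1,k0,k0,k1,k1,k0],[k1,k0,k0,k1,k0,k1],[k1,k0,k0,k0,k2,k0],[k1,k0,k0,k0,k1,k1],[k0,k1,
    k0,k1,k0,k1],[k0,k0,k1,k1,k1,k0],[k0,k0,k1,k0,k2,k0],[k0,k0,k0,k2,k1,k0],[k0,k0,k0,k1,k2,k0],[k0,k0,k0,k1,k1,k1],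
    [k0,k0,k0,k0,k2,k1]]
    [.ref k191 k9 [(z1,[z0,y1]),(z1,[y1,z1,z1]),(z1,[z0,z0,y1,z1])],.ref (nat_lit 353) k8 [(z1,[z1,y2]),(z1,[y1,y1,y3,
    z3]),(z1,[z1,z1])],.ref k158 k6 [(z1,[y1,z0,y1,z1]),(z1,[z0,z1,z1]),(z1,[z0,y1])],.ref (nat_lit 439) k0 [(z1,[z0,
    z1]),(z1,[z1,z0,z1,y1]),(z1,[z0,y1,y1,z1])],.ref k191 k9 [(z1,[z0,y1]),(z1,[y1,z0,z1]),(z1,[z0,z0,y1,z1])],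
    .ref (nat_lit 439) k4 [(z1,[z1,y1,y1]),(z1,[z0,z1]),(z1,[z0,z0,z1])],.ref (nat_lit 328) k4 [(z1,[y1,z0,y1,z1]),
    (z1,[z0,z1]),(z1,[z0,z0,z1])],.ref k191 k0 [(z1,[z0,z1]),(z1,[y1,z1,z1]),(z1,[z0,y1,y1,z1])],
    .ref (nat_lit 439) k0 [(z1,[z0,z1]),(z1,[y1,z1,z1]),(z1,[z0,y1,y1,z1])],.ref (nat_lit 353) k8 [(z1,[z1,y1]),(z1,
    [y1,y2,y3,z3]),(z1,[z1,z2])],.ref k158 k6 [(z1,[y1,y1,y1,z1]),(z1,[z0,z1,z1]),(z1,[z0,y1])],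
    .ref (nat_lit 328) k4 [(z1,[z1,z0,y1]),(z1,[z0,z1]),(z1,[z0,z0,z1])],.ref (nat_lit 439) k4 [(z1,[y1,y1,y1,z1]),
    (z1,[z0,z1]),(z1,[z0,z0,z1])],.ref (nat_lit 328) k4 [(z1,[y1,y1,y1,z1]),(z1,[z0,z1]),(z1,[z0,z0,z1])],
    .ref (nat_lit 263) k0 [(z1,[z0,z1]),(z1,[y1,z0,z2]),(z1,[z0,y1,y1,z1])],.ref k191 k0 [(z1,[z0,z1]),(z1,[y1,z0,
    z1]),(z1,[z0,y1,y1,z1])],.ref (nat_lit 439) k0 [(z1,[z0,z1]),(z1,[y1,z0,z1]),(z1,[z0,y1,y1,z1])],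
    .ref k158 k6 [(z1,[y1,y2,y1,z1]),(z1,[z0,z1,z1]),(z1,[z0,y1])]],
    .leafM k1 [k0,k1,k2,k3,k4,k5] [(z1,[z0,z1]),(z1,[z0,y1,z1])] [],
    .lp [(nat_lit 314),(nat_lit 358),(nat_lit 272),(nat_lit 332),(nat_lit 320),(nat_lit 320)] [k22,k22,k0,k0,k43,k43,k13,
    k13,k19,k19,k19,k19] k0 [[k0,k0,k0,k0,k0,k0,k0,k0,k12],[k0,k0,k0,k26,k0,k0,k0,k0,k0,k0,k0,k40],[k26,k0,k0,k0,k0,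
    k0,k0,k0,k0,k0,k44],[k0,k0,k0,k0,k0,k0,k0,k2,k0,k2],[k0,k0,k0,k0,k0,k0,k28,k0,k0,k0,k6],[k0,k0,k0,k0,k0,k0,k0,k0,
    k0,k52],[k0,k0,k2,k0,k0,k0,k0,k0,k6],[k0,k0,k0,k0,k0,k28],[k0,k0,k2,k0,k52],[k0,k12,k0,k0,k0,k0,k0,k6],[k40],[k0,
    k0,k0,k44,k0,k6]] (nat_lit 960) k5
    [[(k4,(nat_lit 287)),(k2,(nat_lit 292)),(k8,(nat_lit 317)),(k10,(nat_lit 317)),(k6,(nat_lit 323)),(k0,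
    (nat_lit 354))],[(k11,(nat_lit 305)),(k9,(nat_lit 317)),(k5,(nat_lit 319)),(k7,(nat_lit 323)),(k3,(nat_lit 336)),
    (k1,(nat_lit 354))],[(k10,(nat_lit 299)),(k4,(nat_lit 315)),(k2,(nat_lit 332)),(k0,(nat_lit 336)),(k6,
    (nat_lit 345)),(k8,(nat_lit 351))],[(k1,(nat_lit 292)),(k5,(nat_lit 315)),(k3,(nat_lit 332)),(k9,(nat_lit 341)),
    (k11,(nat_lit 341)),(k7,(nat_lit 345))],[(k4,(nat_lit 272)),(k8,(nat_lit 294)),(k6,(nat_lit 300)),(k2,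
    (nat_lit 315)),(k0,(nat_lit 319)),(k10,(nat_lit 340))],[(k9,(nat_lit 268)),(k5,(nat_lit 272)),(k1,(nat_lit 287)),
    (k7,(nat_lit 302)),(k3,(nat_lit 315)),(k11,(nat_lit 348))],[(k8,(nat_lit 274)),(k4,(nat_lit 302)),(k0,
    (nat_lit 323)),(k10,(nat_lit 332)),(k2,(nat_lit 345)),(k6,(nat_lit 360))],[(k5,(nat_lit 300)),(k11,(nat_lit 320)),
    (k1,(nat_lit 323)),(k9,(nat_lit 326)),(k3,(nat_lit 345)),(k7,(nat_lit 360))],[(k4,(nat_lit 268)),(k0,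
    (nat_lit 317)),(k10,(nat_lit 320)),(k6,(nat_lit 326)),(k8,(nat_lit 326)),(k2,(nat_lit 341))],[(k7,(nat_lit 274)),
    (k5,(nat_lit 294)),(k1,(nat_lit 317)),(k11,(nat_lit 320)),(k9,(nat_lit 326)),(k3,(nat_lit 351))],[(k0,
    (nat_lit 305)),(k6,(nat_lit 320)),(k8,(nat_lit 320)),(k10,(nat_lit 320)),(k2,(nat_lit 341)),(k4,(nat_lit 348))],
    [(k3,(nat_lit 299)),(k1,(nat_lit 317)),(k9,(nat_lit 320)),(k11,(nat_lit 320)),(k7,(nat_lit 332)),(k5,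
    (nat_lit 340))]]
    [] k0
    [[k1,k1,k1,k0,k0,k0],[k1,k1,k0,k0,k0,k1],[k1,k0,k2,k0,k0,k0],[k1,k0,k1,k1,k0,k0],[k1,k0,k1,k0,k1,k0],[k1,k0,k1,k0,
    k0,k1],[k1,k0,k0,k1,k1,k0],[k1,k0,k0,k0,k1,k1],[k1,k0,k0,k0,k0,k2],[k0,k1,k2,k0,k0,k0],[k0,k1,k1,k0,k1,k0],[k0,k0,
    k3,k0,k0,k0],[k0,k0,k2,k1,k0,k0],[k0,k0,k2,k0,k1,k0],[k0,k0,k1,k1,k1,k0],[k0,k0,k1,k0,k2,k0],[k0,k0,k1,k0,k1,k1],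
    [k0,k0,k0,k1,k2,k0],[k0,k0,k0,k1,k1,k1]]
    [.ref k12 k0 [(z3,[z4,z5,y4,y4]),(z3,[y2,z2,z11,z2]),(z3,[z7,y7,y7,z2]),(z3,[y8,z8,z8,z8,z9]),(z3,[y2,y7,y7,y7,y9,
    z9])],.ref k12 k0 [(z1,[z4,y1,y4]),(z1,[y2,z2,z5]),(z1,[z7,y7,y7,z3]),(z1,[y8,z8,z8,z0,z3]),(z1,[y2,y1,y1,y3,y3,
    z3])],.ref k12 k0 [(z3,[z2,z7,z0,y4]),(z3,[y1,z1,z9,z2]),(z6,[z7,y7,z0,z4]),(z3,[y4,z4,z0,z8,z9]),(z3,[y1,y8,y9,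
    y7,y9,z9])],.ref k12 k0 [(z1,[z4,y1,z0,y4,y4]),(z1,[y2,z2,z3,z2,z2]),(z1,[z7,y7,z0,y4,y7]),(z1,[y8,z8,z0,z8,z11]),
    (z1,[y2,y1,y3,y1,y1,z3])],.ref k12 k0 [(z3,[z4,z9,z4,z0,z4,y4]),(z3,[y2,z0,z7,z0,y2,z2]),(z3,[z7,z0,z7,z9,z7,y7]),
    (z3,[y8,z0,y8,z0,z1,z8]),(z3,[y2,y9,y11,y9,y11,z11])],.ref k12 k0 [(z1,[z1,z2,z0,y1]),(z2,[y1,z1,z6,z1]),(z4,[z7,
    y7,z0,z5]),(z1,[y2,z2,z0,z2,z3]),(z2,[y1,y5,y6,y5,y6,z6])],.ref k12 k0 [(z1,[y2,z3,y2,y2,z0,z2]),(z1,[z1,z0,z4,z1,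
    z0,y1]),(z2,[y7,z0,y7,y1,z0,z7]),(z1,[z4,z0,z4,z4,z3,y4]),(z1,[z1,y3,y2,y2,y3,z2])],.ref k12 k0 [(z1,[z4,z3,z4,z4,
    z4,y4]),(z1,[y2,z0,z1,y2,y2,z2]),(z1,[z7,z0,z7,z10,z7,y7]),(z1,[y8,z0,y8,y8,y5,z8]),(z1,[y2,y3,y5,y5,y5,z5])],
    .ref k12 k0 [(z1,[z2,z1]),(z1,[y1,z1,z3]),(z2,[z7,y7,z0,z6]),(z1,[y4,z4,z0,z0,z3]),(z1,[y1,y2,y3,y3,y3,z3])],
    .ref k12 k0 [(z1,[z1,z3,y1,y2]),(z2,[y1,z0,z7,z2]),(z4,[z7,z0,y7,y2]),(z1,[y2,z0,z2,z4,z3]),(z2,[y1,y6,y5,y4,y6,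
    z6])],.ref k12 k0 [(z1,[z4,z7,z0,z0,z4,y4]),(z1,[y2,y2,z3,z0,y2,z2]),(z1,[z7,z7,z0,z3,z7,y7]),(z1,[y8,y8,z0,z0,y5,
    z8]),(z1,[y2,y5,y3,y3,y5,z5])],.ref k12 k0 [(z7,[z4,z21,z0,y12]),(z7,[y2,z0,z21,z6]),(z1,[z1]),(z7,[y8,z0,z0,z24,
    z21]),(z7,[y2,y21,y21,y15,y21,z21])],.ref k12 k0 [(z1,[z2,z3,z0,y4,y2]),(z1,[y1,z0,z3,z2,z1]),(z2,[z7,z0,z0,y8,
    y7]),(z1,[y4,z0,z0,z8,z7]),(z1,[y1,y3,y3,y1,y2,z3])],.ref k12 k0 [(z1,[z1,z4,z1,y1,z1,y1]),(z2,[y1,y1,z5,z1,y1,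
    z1]),(z4,[z7,z7,z7,z5,z7,y7]),(z1,[y2,y2,y2,z2,z1,z2]),(z2,[y1,y7,y7,y5,y7,z7])],.ref k12 k0 [(z1,[y4,y1,y4,z0,z0,
    z4]),(z1,[z2,z2,z5,z0,z0,y2]),(z1,[y7,y7,y7,z3,z0,z7]),(z1,[z8,z8,z8,z0,z3,y8]),(z1,[z2,y1,y1,y3,y3,z1])],
    .ref k12 k0 [(z1,[z4,z11,z8,z4,z8,y8]),(z1,[y2,y4,y1,y2,y4,z4]),(z1,[z7,z14,z14,z10,z14,y14]),(z1,[y8,y16,y16,y8,
    y13,z16]),(z1,[y2,y7,y7,y5,y7,z7])],.ref k12 k0 [(z1,[z2,z5,z2,z0,z2,y2]),(z1,[y1,y1,z2,z0,y1,z1]),(z2,[z7,z7,z7,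
    z6,z7,y7]),(z1,[y4,y4,y4,z0,y1,z4]),(z1,[y1,y4,y4,y3,y4,z4])],.ref k12 k0 [(z1,[y1,z1,y2,y2,y1,z2]),(z2,[z1,z2,z8,
    z2,z1,y2]),(z4,[y7,y14,y14,y2,y7,z14]),(z1,[z2,z4,z4,z4,z5,y4]),(z2,[z1,y4,y4,y4,y5,z4])],.ref k12 k0 [(z3,[y4,z5,
    y4,y4,z0,z4]),(z3,[z2,z2,z11,z2,z0,y2]),(z3,[y7,y7,y7,z2,z0,z7]),(z3,[z8,z8,z8,z8,z9,y8]),(z3,[z2,y7,y7,y7,y9,
    z7])]],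
    .lp [k162,k166,k164,k160,k144,k162] [k2,k2,k0,k0,k1,k1,k3,k3,k11,k11,k2,k2] k0 [[k0,k0,k0,k0,k0,k0,k0,k0,k18],[k0,k0,
    k0,k0,k0,k2],[k0,k0,k0,k0,k0,k0,k0,k0,k0,k0,k10],[k0,k0,k0,k0,k0,k0,k0,k8,k0,k4],[k2],[k0,k0,k0,k0,k0,k0,k0,k0,k0,
    k28],[k0,k0,k8],[k0,k0,k0,k0,k0,k0,k0,k0,k0,k0,k0,k14],[k0,k0,k4,k0,k28],[k0,k18],[k0,k0,k0,k0,k0,k0,k14],[k0,k0,
    k0,k10]] (nat_lit 480) k5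
    [[(k8,k153),(k2,k154),(k0,k162),(k10,k162),(k4,k163),(k6,k175)],[(k11,k144),(k9,k153),(k1,k162),(k5,k163),(k7,
    k163),(k3,k164)],[(k4,k163),(k6,k163),(k0,k164),(k10,k164),(k2,k166),(k8,k173)],[(k1,k154),(k7,k163),(k9,k163),
    (k5,k165),(k3,k166),(k11,k168)],[(k8,k150),(k6,k154),(k0,k163),(k4,k164),(k2,k165),(k10,k173)],[(k9,k154),(k7,
    k162),(k1,k163),(k3,k163),(k5,k164),(k11,k191)],[(k8,k124),(k6,k160),(k10,k161),(k4,k162),(k0,k163),(k2,k163)],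
    [(k9,k152),(k5,k154),(k7,k160),(k11,k161),(k3,k163),(k1,k175)],[(k10,k139),(k8,k144),(k6,k152),(k0,k153),(k4,
    k154),(k2,k163)],[(k7,k124),(k9,k144),(k5,k150),(k1,k153),(k11,k153),(k3,k173)],[(k0,k144),(k8,k153),(k6,k161),
    (k10,k162),(k2,k168),(k4,k191)],[(k9,k139),(k7,k161),(k1,k162),(k11,k162),(k3,k164),(k5,k173)]]
    [] k0
    [[k2,k0,k0,k0,k1,k0],[k2,k0,k0,k0,k0,k1],[k1,k1,k0,k0,k0,k1],[k1,k0,k1,k0,k1,k0],[k1,k0,k0,k1,k1,k0],[k1,k0,k0,k0,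
    k2,k0],[k1,k0,k0,k0,k1,k1],[k1,k0,k0,k0,k0,k2],[k0,k1,k1,k0,k1,k0],[k0,k1,k0,k1,k1,k0],[k0,k0,k2,k0,k1,k0],[k0,k0,
    k1,k2,k0,k0],[k0,k0,k1,k1,k1,k0],[k0,k0,k1,k0,k2,k0],[k0,k0,k0,k2,k1,k0],[k0,k0,k0,k1,k2,k0],[k0,k0,k0,k1,k1,k1],
    [k0,k0,k0,k0,k3,k0],[k0,k0,k0,k0,k2,k1],[k0,k0,k0,k0,k1,k2]]
    [.ref k12 k0 [(z5,[z6,z1]),(z5,[y12,z8,z5]),(z5,[y3,z2,z0,z5]),(z5,[z6,y4,z0,z0,z5]),(z5,[z3,y2])],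
    .ref k12 k0 [(z2,[z3,z1,z1,z1,z1,y3]),(z1,[y3,z1,z0,y1,y1,z3]),(z4,[y3,z1,y1,z3,y1,z3]),(z2,[z3,y1,z1,z1,z3,y3]),
    (z4,[z3,y1,z1,z1,z1,y3])],.ref k12 k0 [(z1,[y3,z1,z0,y1,y1,z3]),(z1,[z6,z0,z1,z2,z2,y6]),(z2,[z3,z0,z0,z3,z1,y3]),
    (z1,[y3,z0,z0,y1,z0,z3]),(z2,[y3,z0,z0,y1,y1,z3])],.ref k12 k0 [(z1,[z3,z0,z0,y1]),(z1,[y6,z2,z1,z2]),(z2,[y3,z1,
    z0,z3]),(z1,[z3,y1,z0,y1,z1]),(z2,[z3,y1,z0,y1])],.ref k12 k0 [(z5,[z6,z3,z0,z0,y2]),(z5,[y12,z4,z5,z0,z4]),(z5,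
    [y3,z1,z0,z5,z1]),(z5,[z6,y2,z0,z0,z3]),(z5,[z3,y1,z0,z0,y1])],.ref k12 k0 [(z2,[z3,z1]),(z1,[y3,z1,z1]),(z4,[y3,
    z1,z0,z4]),(z2,[z3,y1,z0,z0,z2]),(z4,[z3,y1])],.ref k12 k0 [(z3,[z6,z3,z2,z2,z2,y6]),(z3,[y12,z0,y1,y4,y4,z12]),
    (z3,[y3,z0,y1,z2,y1,z3]),(z3,[z6,z0,z2,z2,z5,y6]),(z3,[z3,z0,z1,z1,z1,y3])],.ref k12 k0 [(z1,[z3,z2,z2,z2,z2,y6]),
    (z1,[y6,y2,y3,y4,y4,z12]),(z2,[y3,y1,y2,z0,y2,z6]),(z1,[z3,z1,z2,z2,z3,y6]),(z2,[z3,z1,z2,z2,z2,y6])],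
    .ref k12 k0 [(z2,[y3,z2,z1,z1]),(z1,[z3,z0,z0,y1]),(z4,[z3,z0,y1,z3]),(z2,[y3,z0,z1,z1,z2]),(z4,[y3,z0,z1,z1])],
    .ref k12 k0 [(z1,[y6,z1,z2,z0,z2]),(z1,[z12,z0,y3,z0,y4]),(z1,[z3,z0,y1,z1,y1]),(z1,[y6,z0,z2,z0,z3]),(z1,[y3,z0,
    z1,z0,z1])],.ref k12 k0 [(z1,[y6,z1,z0,z4]),(z1,[z12,z0,z1,y8]),(z1,[z3,z0,z0,y1]),(z1,[y6,z0,z0,z4,z1]),(z1,[y3,
    z0,z0,z2])],.ref k12 k0 [(z3,[z6,z3,z0,y2,y4]),(z3,[y12,z0,z3,z4,z8]),(z3,[y3,z0,z0,z4,z2]),(z3,[z6,z0,z0,y2,y1]),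
    (z3,[z3,z0,z0,y1,y2])],.ref k12 k0 [(z1,[z3,z1,z0,y1,y1]),(z1,[y6,z0,z1,z2,z2]),(z2,[y3,z0,z0,z3,z1]),(z1,[z3,z0,
    z0,y1]),(z2,[z3,z0,z0,y1,y1])],.ref k12 k0 [(z1,[z6,z1,z0,y2]),(z1,[y12,z0,z1,z4]),(z1,[y3,z0,z0,z2]),(z1,[z6,z0,
    z0,y2,z1]),(z1,[z3,z0,z0,y1])],.ref k12 k0 [(z5,[z6,z5,z0,z0,y4]),(z5,[y12,z0,z5,z0,z8]),(z5,[y3,z0,z0,z5,z2]),
    (z5,[z6,z0,z0,z0,z1]),(z5,[z3,z0,z0,z0,y2])],.ref k12 k0 [(z2,[z3,z2,z0,z0,y1]),(z1,[y3,z0,z1,z0,z1]),(z4,[y3,z0,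
    z0,z4,z1]),(z2,[z3,z0,z0,z0,z1]),(z4,[z3,z0,z0,z0,y1])],.ref k12 k0 [(z3,[z6,z5,z2,z2,z0,y6]),(z3,[y12,y4,y1,y4,
    z0,z12]),(z3,[y3,y1,y1,z2,z0,z3]),(z3,[z6,z2,z2,z2,z3,y6]),(z3,[z3,z1,z1,z1,z0,y3])],.ref k12 k0 [(z1,[z2,z1]),
    (z1,[y4,z0,z1]),(z1,[y1,z0,z0,z1]),(z1,[z2,z0,z0,z0,z1]),(z1,[z1])],.ref k12 k0 [(z1,[z3,z2,z1,z1,z1,y3]),(z1,[y6,
    y2,y1,y2,y2,z6]),(z2,[y3,y1,y1,z1,y1,z3]),(z1,[z3,z1,z1,z1,z2,y3]),(z2,[z3,z1,z1,z1,z1,y3])],.ref k12 k0 [(z1,[z6,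
    z5,z4,z4,z4,y12]),(z1,[y12,y8,y7,y8,y8,z24]),(z1,[y3,y2,y2,y1,y2,z6]),(z1,[z6,z4,z4,z4,z5,y12]),(z1,[z3,z2,z2,z2,
    z2,y6])]],
    .lp [k166,k162,k162,k168,k154,k146] [k1,k1,k3,k3,k3,k3,k0,k0,k7,k7,k11,k11] k0 [[k0,k0,k0,k0,k0,k0,k0,k0,k0,k0,k6],
    [k0,k0,k0,k10],[k10],[k0,k0,k0,k0,k0,k0,k0,k12,k0,k24],[k0,k0,k0,k0,k0,k0,k4,k0,k4],[k0,k0,k0,k0,k0,k0,k0,k0,k0,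
    k0,k0,k6],[k0,k0,k12],[k0,k0,k0,k0,k0,k4,k0,k0,k0,k0,k0,k6],[k0,k0,k24,k0,k0,k0,k0,k0,k0,k0,k40],[k0,k0,k0,k0,k0,
    k4],[k0,k0,k0,k0,k6,k0,k6],[k0,k6,k0,k0,k0,k0,k0,k0,k0,k40]] (nat_lit 480) k5
    [[(k8,k120),(k10,k156),(k0,k160),(k2,k164),(k4,k170),(k6,k173)],[(k11,k156),(k1,k160),(k9,k160),(k3,k164),(k7,
    k167),(k5,k174)],[(k2,k152),(k8,k158),(k10,k160),(k4,k162),(k0,k164),(k6,k165)],[(k3,k152),(k5,k162),(k1,k164),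
    (k7,k165),(k9,k170),(k11,k178)],[(k8,k134),(k6,k153),(k10,k154),(k2,k162),(k4,k162),(k0,k174)],[(k11,k150),(k9,
    k154),(k3,k162),(k5,k162),(k7,k165),(k1,k170)],[(k10,k151),(k2,k165),(k4,k165),(k8,k165),(k0,k167),(k6,k172)],
    [(k5,k153),(k11,k157),(k9,k161),(k3,k165),(k7,k172),(k1,k173)],[(k10,k144),(k4,k154),(k8,k154),(k0,k160),(k6,
    k161),(k2,k170)],[(k1,k120),(k5,k134),(k11,k150),(k9,k154),(k3,k158),(k7,k165)],[(k4,k150),(k8,k150),(k0,k156),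
    (k6,k157),(k2,k178),(k10,k186)],[(k9,k144),(k7,k151),(k5,k154),(k1,k156),(k3,k160),(k11,k186)]]
    [] k0
    [[k2,k0,k0,k0,k1,k0],[k2,k0,k0,k0,k0,k1],[k1,k0,k1,k0,k1,k0],[k1,k1,k0,k0,k1,k0],[k1,k0,k0,k1,k1,k0],[k1,k0,k0,k0,
    k2,k0],[k1,k0,k0,k0,k1,k1],[k0,k3,k0,k0,k0,k0],[k0,k2,k1,k0,k0,k0],[k0,k1,k1,k0,k1,k0],[k0,k1,k1,k0,k0,k1],[k0,k0,
    k2,k0,k1,k0],[k0,k0,k2,k0,k0,k1],[k0,k0,k1,k1,k1,k0],[k0,k0,k1,k1,k0,k1],[k0,k0,k1,k0,k2,k0],[k0,k0,k1,k0,k1,k1],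
    [k0,k0,k0,k1,k1,k1],[k0,k0,k0,k0,k3,k0],[k0,k0,k0,k0,k2,k1]]
    [.ref k137 k6 [(z1,[z0,z0,y4,z1]),(z1,[z0,y1,z1,y1,z1]),(z1,[z1,y2,y4]),(z1,[y1,z2,z5])],.ref k21 k6 [(z1,[z0,z0,
    y4,z1]),(z1,[z0,y1,z1,y1,z1]),(z1,[y1,z2,z5]),(z1,[z1,y2,y4])],.ref k108 k6 [(z1,[z0,z0,y4,z1]),(z1,[z0,y1,z1,y1,
    z1]),(z1,[z1,y1,z2,y1]),(z1,[y1,z1,y1,z1])],.ref k10 k6 [(z1,[z0,z0,y4,z1]),(z1,[z0,y1,z1,y1,z1]),(z1,[z1,y1,y2]),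
    (z1,[y1,z1,z3])],.ref k137 k6 [(z1,[z0,z0,y4,z1]),(z1,[z0,y1,z1,y1,z1]),(z1,[z1,z0,y3,z1,y1]),(z1,[y1,z0,z4,y1,
    z1])],.ref k10 k6 [(z1,[z0,z0,y4,z1]),(z1,[z0,y1,z1,y1,z1]),(z2,[z1,y1,y2]),(z2,[y1,z1,z4])],.ref k9 k0 [(z1,[z2,
    z1]),(z1,[y1,z1,z3]),(z1,[y4,z4,z0,z3]),(z1,[z2,y5,y3,y3,z3])],.ref k9 k0 [(z1,[y2,z3,z6]),(z1,[z1]),(z1,[z4,z0,
    y12,z3]),(z1,[y2,y3,z3,y3,z3])],.ref k9 k0 [(z1,[y1,z3,z2,z1]),(z2,[z1,z0,z4,y1]),(z1,[z2,z0,y4,z1]),(z1,[y1,y3,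
    y1,y2,z3])],.ref k21 k6 [(z1,[z0,z0,y4,z1]),(z1,[z0,y1,z1,y1,z1]),(z1,[z1,z0,z4,y1]),(z1,[y1,z0,y3,z1])],
    .ref k137 k6 [(z1,[z0,z0,y4,z1]),(z1,[z0,y1,z1,y1,z1]),(z1,[y1,z0,y3,z1]),(z1,[z1,z0,z4,y1])],
    .ref (nat_lit 369) k6 [(z1,[z0,z0,y4,z1]),(z1,[z0,y1,z1,y1,z1]),(z1,[z1,z0,z8,y2]),(z1,[y1,z0,y7,z2])],
    .ref (nat_lit 442) k6 [(z1,[z0,z0,y4,z1]),(z1,[z0,y1,z1,y1,z1]),(z1,[y1,z0,y7,z2]),(z1,[z1,z0,z8,y2])],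
    .ref k108 k6 [(z1,[z0,z0,y4,z1]),(z1,[z0,y1,z1,y1,z1]),(z1,[z1,z1,z3,z0,y1]),(z1,[y1,y1,y2,z0,z1])],
    .ref k10 k6 [(z1,[z0,z0,y4,z1]),(z1,[z0,y1,z1,y1,z1]),(z1,[y1,y1,y2,z0,z1]),(z1,[z1,z1,z3,z0,y1])],
    .ref k108 k6 [(z1,[z0,z0,y4,z1]),(z1,[z0,y1,z1,y1,z1]),(z2,[z1,z0,z4,y1]),(z2,[y1,z0,y2,z1])],.ref k9 k0 [(z1,[y2,
    z3,z0,z2]),(z1,[z1,z0,z3,y1]),(z1,[z4,z0,z0,y1]),(z1,[y2,y3,y3,y1,z3])],.ref k9 k0 [(z1,[z2,z5,z2,z2,y2]),(z1,[y1,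
    y1,z2,y1,z1]),(z1,[y4,y4,y4,y1,z4]),(z1,[z2,y1,y1,y1,z1])],.ref (nat_lit 443) k2 [(z1,[z2,y3,y3,y3,z3]),(z1,[y4,
    z0,z0,z3]),(z1,[y1,z0,z3]),(z1,[z2,z3])],.ref k10 k6 [(z1,[z0,z0,y4,z1]),(z1,[z0,y1,z1,y1,z1]),(z1,[z1,z0,y1]),
    (z1,[y1,z0,z2])]],
    .leafM k0 [k2,k3,k4,k5,k0,k1] [(z1,[y1,y1,y1,z0,z1])] [],
    .lp [(nat_lit 308),(nat_lit 342),(nat_lit 326),(nat_lit 326),(nat_lit 320),(nat_lit 296)] [k17,k17,k0,k0,k8,k8,k8,k8,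
    k11,k11,k23,k23] k0 [[k0,k0,k0,k0,k0,k0,k0,k0,k4],[k0,k0,k0,k0,k0,k16,k0,k0,k0,k0,k0,k16],[k0,k0,k0,k0,k0,k0,k0,
    k0,k2,k0,k32],[k0,k0,k0,k0,k0,k0,k0,k18],[k16,k0,k0,k0,k0,k0,k14],[k0,k0,k0,k0,k0,k0,k0,k0,k0,k32,k0,k2],[k0,k0,
    k18],[k0,k0,k0,k0,k0,k14],[k0,k0,k0,k0,k32,k0,k0,k0,k0,k0,k64],[k0,k4,k0,k2],[k16,k0,k0,k0,k2],[k0,k0,k0,k32,k0,
    k0,k0,k0,k0,k64]] (nat_lit 960) k5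
    [[(k8,(nat_lit 250)),(k2,(nat_lit 293)),(k10,(nat_lit 302)),(k6,(nat_lit 317)),(k4,(nat_lit 319)),(k0,
    (nat_lit 324))],[(k11,(nat_lit 298)),(k9,(nat_lit 314)),(k5,(nat_lit 317)),(k1,(nat_lit 324)),(k3,(nat_lit 325)),
    (k7,(nat_lit 333))],[(k10,(nat_lit 303)),(k4,(nat_lit 318)),(k0,(nat_lit 325)),(k6,(nat_lit 334)),(k8,
    (nat_lit 335)),(k2,(nat_lit 342))],[(k1,(nat_lit 293)),(k11,(nat_lit 317)),(k5,(nat_lit 334)),(k7,(nat_lit 334)),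
    (k3,(nat_lit 342)),(k9,(nat_lit 349))],[(k6,(nat_lit 308)),(k0,(nat_lit 317)),(k8,(nat_lit 325)),(k4,
    (nat_lit 326)),(k2,(nat_lit 334)),(k10,(nat_lit 343))],[(k9,(nat_lit 309)),(k3,(nat_lit 318)),(k1,(nat_lit 319)),
    (k5,(nat_lit 326)),(k7,(nat_lit 326)),(k11,(nat_lit 343))],[(k8,(nat_lit 291)),(k10,(nat_lit 309)),(k4,
    (nat_lit 326)),(k0,(nat_lit 333)),(k2,(nat_lit 334)),(k6,(nat_lit 340))],[(k5,(nat_lit 308)),(k11,(nat_lit 311)),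
    (k1,(nat_lit 317)),(k9,(nat_lit 323)),(k3,(nat_lit 334)),(k7,(nat_lit 340))],[(k10,(nat_lit 308)),(k4,
    (nat_lit 309)),(k0,(nat_lit 314)),(k8,(nat_lit 320)),(k6,(nat_lit 323)),(k2,(nat_lit 349))],[(k1,(nat_lit 250)),
    (k7,(nat_lit 291)),(k11,(nat_lit 308)),(k9,(nat_lit 320)),(k5,(nat_lit 325)),(k3,(nat_lit 335))],[(k0,
    (nat_lit 298)),(k8,(nat_lit 308)),(k6,(nat_lit 311)),(k2,(nat_lit 317)),(k4,(nat_lit 343)),(k10,(nat_lit 360))],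
    [(k1,(nat_lit 302)),(k3,(nat_lit 303)),(k9,(nat_lit 308)),(k7,(nat_lit 309)),(k5,(nat_lit 343)),(k11,
    (nat_lit 360))]]
    [] k0
    [[k2,k1,k0,k0,k0,k0],[k2,k0,k0,k0,k1,k0],[k2,k0,k0,k0,k0,k1],[k1,k1,k1,k0,k0,k0],[k1,k1,k0,k0,k1,k0],[k1,k1,k0,k0,
    k0,k1],[k1,k0,k1,k0,k1,k0],[k1,k0,k0,k1,k1,k0],[k1,k0,k0,k1,k0,k1],[k1,k0,k0,k0,k2,k0],[k1,k0,k0,k0,k1,k1],[k0,k1,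
    k0,k1,k0,k1],[k0,k0,k1,k1,k1,k0],[k0,k0,k1,k0,k2,k0],[k0,k0,k0,k2,k1,k0],[k0,k0,k0,k1,k2,k0],[k0,k0,k0,k1,k1,k1],
    [k0,k0,k0,k0,k2,k1]]
    [.ref k12 k0 [(z2,[z5,y2,y5]),(z1,[y2,z2,z5]),(z1,[y1,z1,z1,z1]),(z2,[y1,z1,z1,z0,z3]),(z2,[z0,y3,y6,y2,y3,z6])],
    .ref k12 k0 [(z4,[z6,z3,z6,z2,z3,y6]),(z5,[y6,z3,z9,y2,y3,z6]),(z10,[y6,z3,y6,z8,y3,z6]),(z20,[y6,z3,y6,y2,z27,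
    z6]),(z2,[z0,y3,y6,y2,y3,z6])],.ref k12 k0 [(z4,[z5,z1]),(z1,[y1,z1,z3]),(z2,[y1,z1,z0,z2]),(z4,[y1,z1,z0,z0,z6]),
    (z2,[z0,y3,y6,y2,y3,z6])],.ref k12 k0 [(z1,[y15,z9,z15,z5]),(z1,[z12,y6,y9,y4]),(z1,[z6,y3,y6,y1]),(z2,[z6,y3,y6,
    y2,z3]),(z2,[z0,y3,y6,y2,y3,z6])],.ref k12 k0 [(z2,[z30,z3,z0,z10,z15,y30]),(z1,[y12,z0,z3,y4,y6,z12]),(z1,[y6,z0,
    z0,y1,y3,z6]),(z1,[y3,z0,z0,y1,z0,z3]),(z2,[z0,y3,y6,y2,y3,z6])],.ref k12 k0 [(z1,[z5,y1,y5]),(z1,[y4,z2,z7]),(z1,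
    [y2,z1,z2,z1]),(z2,[y2,z1,z2,z0,z3]),(z2,[z0,y3,y6,y2,y3,z6])],.ref k12 k0 [(z2,[z10,z3,z10,z0,z5,y10]),(z1,[y4,
    z0,y1,z0,y2,z4]),(z1,[y2,z0,y2,z1,y1,z2]),(z1,[y1,z0,y1,z0,z1,z1]),(z2,[z0,y3,y6,y2,y3,z6])],.ref k12 k0 [(z4,
    [z15,z6,z15,z5,z0,y15]),(z1,[y3,z0,z0,y1,z0,z3]),(z2,[y3,z0,y3,z1,z0,z3]),(z4,[y3,z0,y3,y1,z6,z3]),(z2,[z0,y3,y6,
    y2,y3,z6])],.ref k12 k0 [(z4,[z10,z1,z0,z0,y5]),(z1,[y2,z1,z3,z0,z1]),(z2,[y2,z1,z0,z2,z1]),(z4,[y2,z1,z0,z0,z7]),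
    (z2,[z0,y3,y6,y2,y3,z6])],.ref k12 k0 [(z1,[z3,z3,z6,z2,z3,y6]),(z5,[y12,y6,y9,y8,y12,z24]),(z5,[y6,y3,y12,z1,y6,
    z12]),(z10,[y6,y3,y12,y4,z9,z12]),(z2,[z0,y3,y6,y2,y3,z6])],.ref k12 k0 [(z14,[z30,z21,z30,z10,z15,y30]),(z7,[y12,
    z0,z9,y4,y6,z12]),(z7,[y6,z0,y6,z5,y3,z6]),(z7,[y3,z0,y3,y1,z9,z3]),(z2,[z0,y3,y6,y2,y3,z6])],.ref k12 k0 [(z2,
    [y10,z3,z10,z0,z5]),(z1,[z4,z0,y1,z0,y2]),(z1,[z2,z0,y2,z1,y1]),(z1,[z1,z0,y1,z0,z1]),(z2,[z0,y3,y6,y2,y3,z6])],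
    .ref k12 k0 [(z1,[y5,y1,y5,z0,z0,z5]),(z1,[z4,z2,z7,z0,z0,y4]),(z1,[z2,z1,z2,z1,z0,y2]),(z2,[z2,z1,z2,z0,z3,y2]),
    (z2,[z0,y3,y6,y2,y3,z6])],.ref k12 k0 [(z2,[y15,y12,y30,y5,y15,z30]),(z1,[z6,z6,z15,z2,z6,y12]),(z1,[z3,z3,z6,z2,
    z3,y6]),(z2,[z3,z3,z6,z1,z6,y6]),(z2,[z0,y3,y6,y2,y3,z6])],.ref k12 k0 [(z4,[y30,y9,y30,y10,z15,z30]),(z1,[z6,z3,
    z9,z2,y3,y6]),(z2,[z6,z3,z6,z4,y3,y6]),(z4,[z6,z3,z6,z2,z3,y6]),(z2,[z0,y3,y6,y2,y3,z6])],.ref k12 k0 [(z2,[y30,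
    y27,y60,y20,y15,z60]),(z1,[z12,z12,z27,z8,z6,y24]),(z1,[z6,z6,z12,z5,z3,y12]),(z1,[z3,z3,z6,z2,z3,y6]),(z2,[z0,y3,
    y6,y2,y3,z6])],.ref k12 k0 [(z1,[z15,z9,z15,z5,z0,y15]),(z1,[y12,y6,y9,y4,z0,z12]),(z1,[y6,y3,y6,y1,z0,z6]),(z2,
    [y6,y3,y6,y2,z3,z6]),(z2,[z0,y3,y6,y2,y3,z6])],.ref k12 k0 [(z2,[z15,z18,z30,z10,z15,y30]),(z1,[y6,y6,y9,y4,y6,
    z12]),(z1,[y3,y3,y6,y1,y3,z6]),(z2,[y3,y3,y6,y2,z0,z6]),(z2,[z0,y3,y6,y2,y3,z6])]],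
    .lp [(nat_lit 328),(nat_lit 328),(nat_lit 328),(nat_lit 304),(nat_lit 306),(nat_lit 322)] [k0,k0,k0,k0,k0,k0,k12,k12,
    k11,k11,k3,k3] k0 [[k0,k0,k0,k0,k0,k0,k0,k0,k8,k0,k4],[],[],[],[k0,k0,k0,k0,k0,k0,k0,k0,k0,k0,k10],[k0,k0,k0,k0,
    k0,k0,k0,k26,k0,k8],[k0,k0,k0,k0,k26],[k0,k0,k0,k0,k0,k0,k0,k0,k0,k6,k0,k4],[k0,k0,k0,k0,k8,k0,k6],[k0,k8,k0,k0,
    k0,k0,k0,k0,k0,k0,k0,k2],[k0,k0,k0,k0,k0,k0,k4,k0,k2],[k0,k4,k0,k0,k0,k10]] (nat_lit 960) k5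
    [[(k4,(nat_lit 318)),(k8,(nat_lit 319)),(k6,(nat_lit 320)),(k0,(nat_lit 324)),(k10,(nat_lit 325)),(k2,
    (nat_lit 328))],[(k7,(nat_lit 316)),(k9,(nat_lit 317)),(k11,(nat_lit 317)),(k1,(nat_lit 324)),(k3,(nat_lit 328)),
    (k5,(nat_lit 328))],[(k6,(nat_lit 316)),(k8,(nat_lit 325)),(k0,(nat_lit 328)),(k2,(nat_lit 328)),(k4,
    (nat_lit 328)),(k10,(nat_lit 329))],[(k7,(nat_lit 316)),(k9,(nat_lit 317)),(k11,(nat_lit 325)),(k1,(nat_lit 328)),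
    (k3,(nat_lit 328)),(k5,(nat_lit 328))],[(k6,(nat_lit 316)),(k8,(nat_lit 317)),(k10,(nat_lit 325)),(k0,
    (nat_lit 328)),(k2,(nat_lit 328)),(k4,(nat_lit 328))],[(k7,(nat_lit 316)),(k1,(nat_lit 318)),(k3,(nat_lit 328)),
    (k5,(nat_lit 328)),(k11,(nat_lit 333)),(k9,(nat_lit 343))],[(k6,(nat_lit 278)),(k8,(nat_lit 297)),(k0,
    (nat_lit 316)),(k2,(nat_lit 316)),(k4,(nat_lit 316)),(k10,(nat_lit 323))],[(k7,(nat_lit 278)),(k9,(nat_lit 305)),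
    (k3,(nat_lit 316)),(k5,(nat_lit 316)),(k11,(nat_lit 319)),(k1,(nat_lit 320))],[(k8,(nat_lit 300)),(k6,
    (nat_lit 305)),(k10,(nat_lit 310)),(k0,(nat_lit 317)),(k2,(nat_lit 317)),(k4,(nat_lit 343))],[(k7,(nat_lit 297)),
    (k9,(nat_lit 300)),(k11,(nat_lit 314)),(k5,(nat_lit 317)),(k1,(nat_lit 319)),(k3,(nat_lit 325))],[(k8,
    (nat_lit 314)),(k0,(nat_lit 317)),(k6,(nat_lit 319)),(k10,(nat_lit 320)),(k2,(nat_lit 325)),(k4,(nat_lit 333))],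
    [(k9,(nat_lit 310)),(k11,(nat_lit 320)),(k7,(nat_lit 323)),(k1,(nat_lit 325)),(k5,(nat_lit 325)),(k3,
    (nat_lit 329))]]
    [] k0
    [[k1,k0,k1,k1,k0,k0],[k1,k0,k1,k0,k1,k0],[k1,k0,k0,k2,k0,k0],[k1,k0,k0,k1,k1,k0],[k1,k0,k0,k0,k2,k0],[k1,k0,k0,k0,
    k1,k1],[k0,k1,k0,k2,k0,k0],[k0,k1,k0,k1,k1,k0],[k0,k1,k0,k0,k2,k0],[k0,k0,k1,k2,k0,k0],[k0,k0,k1,k1,k1,k0],[k0,k0,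
    k0,k3,k0,k0],[k0,k0,k0,k2,k1,k0],[k0,k0,k0,k2,k0,k1],[k0,k0,k0,k1,k2,k0],[k0,k0,k0,k1,k1,k1],[k0,k0,k0,k0,k3,k0],
    [k0,k0,k0,k0,k2,k1],[k0,k0,k0,k0,k1,k2]]
    [.ref (nat_lit 217) k4 [(z1,[y1,z0,y1,z0,z1]),(z1,[z0,z1]),(z1,[z0,z0,z1]),(z1,[z0,z0,z0,z1])],.ref k22 k0 [(z1,
    [z4,y1,z0,y4]),(z1,[y5,z5,z3,z5]),(z1,[y2,z2,z0,z5]),(z1,[z2,y5,y3,y5,z3])],.ref (nat_lit 217) k4 [(z2,[y1,y1,y2,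
    y2,z2]),(z1,[z0,z1]),(z1,[z0,z0,z1]),(z1,[z0,z0,z0,z1])],.ref (nat_lit 359) k4 [(z1,[y1,z0,y1,y1,z1]),(z1,[z0,
    z1]),(z1,[z0,z0,z1]),(z1,[z0,z0,z0,z1])],.ref k22 k0 [(z1,[z2,z1]),(z2,[y5,z5,z6]),(z1,[y1,z1,z0,z3]),(z1,[z1,y4,
    y3,y3,z3])],.ref (nat_lit 445) k2 [(z1,[y1,z0,y1,y1,z1]),(z1,[z0,z0,z0,z1]),(z1,[z0,z0,z1]),(z1,[z0,z1])],
    .ref k106 k10 [(z1,[z0,z0,z2,y5]),(z1,[z0,z1,z0,z2]),(z1,[y2,y4,y2,y5,z4]),(z1,[z0,z0,z0,z1])],.ref k21 k2 [(z1,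
    [z1,z0,y1]),(z1,[z0,z0,z0,z1]),(z1,[z0,z0,z1]),(z1,[z0,z1])],.ref k22 k0 [(z1,[y4,z3,z4]),(z1,[z5,z0,y2]),(z1,[z2,
    z0,y2,z3]),(z1,[y2,y3,y1,y3,z3])],.ref (nat_lit 427) k0 [(z1,[z2,z5,z4,z2,y4]),(z2,[y5,y10,y8,y5,z10]),(z1,[y1,y2,
    y2,z0,z2]),(z1,[z1,z1,z1,z0,y1])],.ref (nat_lit 427) k0 [(z1,[z4,z5,z4,z0,y4]),(z1,[y5,y5,y4,z0,z5]),(z1,[y2,y2,
    y2,z1,z2]),(z1,[z2,z1,z1,y1,y1])],.ref (nat_lit 446) k10 [(z1,[z0,z0,z2,y5]),(z1,[z0,z1,z0,z2]),(z1,[y1,y3,y3,z0,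
    z3]),(z1,[z0,z0,z0,z1])],.ref (nat_lit 310) k5 [(z1,[y2,z0,z0,z1]),(z1,[y5,z0,z1]),(z1,[z4,z1]),(z1,[z2,y1,y1,y1,
    z1])],.ref (nat_lit 217) k4 [(z1,[y1,y2,y2,y2,z2]),(z1,[z0,z1]),(z1,[z0,z0,z1]),(z1,[z0,z0,z0,z1])],
    .ref (nat_lit 217) k4 [(z1,[y1,y1,y1,y1,z1]),(z1,[z0,z1]),(z1,[z0,z0,z1]),(z1,[z0,z0,z0,z1])],.ref k22 k0 [(z1,
    [z4,z7,z4,z4,y4]),(z1,[y5,y5,y2,y5,z5]),(z1,[y2,y2,y2,z1,z2]),(z1,[z2,y1,y1,y1,z1])],.ref k22 k0 [(z1,[z4,z3]),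
    (z1,[y5,z0,z3]),(z1,[y2,z0,z0,z3]),(z1,[z2,y3,y3,y3,z3])],.ref k21 k2 [(z1,[y1,y1,y1,y1,z1]),(z1,[z0,z0,z0,z1]),
    (z1,[z0,z0,z1]),(z1,[z0,z1])],.ref k106 k10 [(z1,[z0,z0,z2,y5]),(z1,[z0,z1,z0,z2]),(z1,[z2,z0,z0,y1]),(z1,[z0,z0,
    z0,z1])]],
    .lp [k162,k170,k166,k148,k160,k152] [k4,k4,k0,k0,k2,k2,k11,k11,k5,k5,k9,k9] k0 [[k0,k0,k0,k0,k0,k0,k10,k0,k12],[k0,k0,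
    k0,k0,k0,k4],[k0,k0,k0,k0,k0,k0,k0,k0,k6,k0,k14],[],[k4],[k0,k0,k0,k0,k0,k0,k0,k20,k0,k14],[k0,k0,k0,k0,k20],[k0,
    k10,k0,k0,k0,k0,k0,k0,k0,k0,k0,k4],[k0,k0,k0,k0,k14,k0,k0,k0,k0,k0,k12],[k0,k12,k0,k6],[k0,k0,k0,k0,k0,k0,k4],[k0,
    k0,k0,k14,k0,k0,k0,k0,k0,k12]] (nat_lit 480) k5
    [[(k8,k149),(k2,k152),(k10,k157),(k6,k159),(k0,k162),(k4,k164)],[(k11,k145),(k9,k151),(k7,k159),(k1,k162),(k5,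
    k164),(k3,k166)],[(k10,k161),(k4,k164),(k0,k166),(k6,k169),(k2,k170),(k8,k177)],[(k1,k152),(k11,k155),(k7,k159),
    (k9,k165),(k5,k168),(k3,k170)],[(k6,k157),(k0,k164),(k4,k166),(k2,k168),(k8,k169),(k10,k173)],[(k7,k157),(k1,
    k164),(k3,k164),(k5,k166),(k11,k173),(k9,k183)],[(k6,k128),(k8,k140),(k10,k150),(k4,k157),(k0,k159),(k2,k159)],
    [(k7,k128),(k11,k150),(k9,k154),(k5,k157),(k1,k159),(k3,k169)],[(k0,k151),(k10,k152),(k6,k154),(k8,k160),(k2,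
    k165),(k4,k183)],[(k7,k140),(k1,k149),(k11,k156),(k9,k160),(k5,k169),(k3,k177)],[(k0,k145),(k6,k150),(k2,k155),
    (k8,k156),(k10,k164),(k4,k173)],[(k7,k150),(k9,k152),(k1,k157),(k3,k161),(k11,k164),(k5,k173)]]
    [] k0
    [[k2,k0,k0,k0,k1,k0],[k2,k0,k0,k0,k0,k1],[k1,k1,k0,k0,k0,k1],[k1,k0,k0,k2,k0,k0],[k1,k0,k0,k1,k1,k0],[k1,k0,k0,k1,
    k0,k1],[k1,k0,k0,k0,k2,k0],[k1,k0,k0,k0,k1,k1],[k1,k0,k0,k0,k0,k2],[k0,k1,k0,k2,k0,k0],[k0,k1,k0,k1,k1,k0],[k0,k1,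
    k0,k1,k0,k1],[k0,k0,k1,k2,k0,k0],[k0,k0,k0,k3,k0,k0],[k0,k0,k0,k2,k1,k0],[k0,k0,k0,k2,k0,k1],[k0,k0,k0,k1,k2,k0],
    [k0,k0,k0,k1,k1,k1],[k0,k0,k0,k1,k0,k2],[k0,k0,k0,k0,k2,k1],[k0,k0,k0,k0,k1,k2]]
    [.ref k12 k0 [(z2,[z3,z1,z3,z3,z3,y3]),(z2,[y3,z1,z3,y3,y3,z3]),(z1,[z3,y1,z3,z6,z3,y3]),(z4,[y15,z5,y15,y15,y3,
    z15]),(z1,[z0,y1,y3,y3,y3,z3])],.ref k12 k0 [(z5,[z6,z1]),(z5,[y6,z4,z15]),(z5,[z12,y8,z0,z15]),(z1,[y3,z2,z0,z0,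
    z3]),(z1,[z0,y1,y3,y3,y3,z3])],.ref k12 k0 [(z1,[z6,y1,y6]),(z1,[y6,z2,z9]),(z1,[z12,y4,y12,z3]),(z1,[y15,z5,z15,
    z0,z3]),(z1,[z0,y1,y3,y3,y3,z3])],.ref k12 k0 [(z4,[y3,z5,z0,z0,z6]),(z4,[z3,y1,z12,z0,y6]),(z2,[y3,z1,z0,z6,z6]),
    (z8,[z15,y5,z0,z0,y6]),(z1,[z0,y1,y3,y3,y3,z3])],.ref k12 k0 [(z1,[y2,z1,y2,y2,z0,z2]),(z1,[z2,z0,z5,z2,z0,y2]),
    (z1,[y4,z0,y4,y1,z0,z4]),(z1,[z5,z0,z5,z5,z3,y5]),(z1,[z0,y1,y3,y3,y3,z3])],.ref k12 k0 [(z1,[y3,z2,z0,z0,z3]),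
    (z1,[z3,y1,z3,z0,y3]),(z1,[y6,z2,z0,z3,z6]),(z2,[z15,y5,z0,z0,y9]),(z1,[z0,y1,y3,y3,y3,z3])],.ref k12 k0 [(z1,[z3,
    z2,z6,z6,z6,y6]),(z1,[y3,y1,y3,y6,y6,z6]),(z1,[z6,z2,z12,z15,z12,y12]),(z2,[y15,y5,y30,y30,y24,z30]),(z1,[z0,y1,
    y3,y3,y3,z3])],.ref k12 k0 [(z1,[z2,z1,z2,z2,z2,y2]),(z1,[y2,z0,z1,y2,y2,z2]),(z1,[z4,z0,z4,z7,z4,y4]),(z1,[y5,z0,
    y5,y5,y2,z5]),(z1,[z0,y1,y3,y3,y3,z3])],.ref k12 k0 [(z2,[z3,z1]),(z2,[y3,z1,z6]),(z1,[z3,y1,z0,z3]),(z4,[y15,z5,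
    z0,z0,z12]),(z1,[z0,y1,y3,y3,y3,z3])],.ref k12 k0 [(z2,[y1,z2,z1,z0,z2]),(z2,[z1,z0,z5,z0,y2]),(z1,[y1,z0,z1,z3,
    z2]),(z4,[z5,z0,y5,z0,z2]),(z1,[z0,y1,y3,y3,y3,z3])],.ref k12 k0 [(z7,[y6,z5,z0,y6,z0,z6]),(z7,[z6,z2,z21,z6,z0,
    y6]),(z7,[y12,y4,z0,z9,z0,z12]),(z7,[z15,z5,z0,z15,z21,y15]),(z1,[z0,y1,y3,y3,y3,z3])],.ref k12 k0 [(z1,[y1,z1,z1,
    z0,z1]),(z1,[z1,z0,z2,z0,y1]),(z1,[y2,z0,z2,z3,z2]),(z2,[z5,z0,y5,z0,z1]),(z1,[z0,y1,y3,y3,y3,z3])],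
    .ref k12 k0 [(z1,[y1,z1,z0,z1,z2]),(z1,[z1,z0,z3,y1,y2]),(z1,[y2,z0,z0,z5,z4]),(z2,[z5,z0,z0,y5,y4]),(z1,[z0,y1,
    y3,y3,y3,z3])],.ref k12 k0 [(z5,[y2,z5,z0,z0,z6]),(z5,[z2,z0,z15,z0,y6]),(z5,[y4,z0,z0,z15,z12]),(z1,[z1]),(z1,
    [z0,y1,y3,y3,y3,z3])],.ref k12 k0 [(z5,[y3,z4,y3,y3,z3,z3]),(z5,[z3,z1,z18,z3,y3,y3]),(z5,[y6,y2,y6,z9,z6,z6]),
    (z2,[z3,z1,z3,z3,z3,y3]),(z1,[z0,y1,y3,y3,y3,z3])],.ref k12 k0 [(z3,[y2,z3,z0,z0,z4]),(z3,[z2,z0,z9,z0,y4]),(z3,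
    [y4,z0,z0,z9,z8]),(z3,[z5,z0,z0,z0,y1]),(z1,[z0,y1,y3,y3,y3,z3])],.ref k12 k0 [(z5,[y6,z1,y12,y12,y6,z12]),(z5,
    [z6,z4,z27,z12,z6,y12]),(z5,[y12,y8,y24,y9,y12,z24]),(z1,[z3,z2,z6,z6,z6,y6]),(z1,[z0,y1,y3,y3,y3,z3])],
    .ref k12 k0 [(z2,[y3,z1,y3,y3,z0,z3]),(z2,[z3,z1,z9,z3,z0,y3]),(z1,[y3,y1,y3,z0,z0,z3]),(z4,[z15,z5,z15,z15,z12,
    y15]),(z1,[z0,y1,y3,y3,y3,z3])],.ref k12 k0 [(z1,[y2,z1,z0,z0,z2]),(z1,[z2,z0,z3,z0,y2]),(z1,[y4,z0,z0,z3,z4]),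
    (z1,[z5,z0,z0,z0,y2]),(z1,[z0,y1,y3,y3,y3,z3])],.ref k12 k0 [(z1,[z6,z5,z12,z12,z12,y12]),(z1,[y6,y4,y9,y12,y12,
    z12]),(z1,[z12,z8,z24,z27,z24,y24]),(z1,[y15,y10,y30,y30,y27,z30]),(z1,[z0,y1,y3,y3,y3,z3])],.ref k12 k0 [(z1,[z3,
    z2,z3,z3,z3,y3]),(z1,[y3,y1,z0,y3,y3,z3]),(z1,[z6,z2,z6,z9,z6,y6]),(z2,[y15,y5,y15,y15,y9,z15]),(z1,[z0,y1,y3,y3,
    y3,z3])]],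
    .lp [k166,k162,k168,k146,k150,k166] [k1,k1,k3,k3,k0,k0,k11,k11,k9,k9,k1,k1] k0 [[k0,k0,k0,k0,k0,k0,k38,k0,k18],[k0,k0,
    k0,k0,k0,k2],[k0,k0,k0,k0,k0,k0,k0,k0,k16,k0,k2],[k0,k0,k0,k0,k0,k8,k0,k2],[k2,k0,k8],[k0,k0,k0,k0,k0,k0,k0,k20,
    k0,k2],[k0,k0,k2,k0,k20],[k0,k38],[k0,k0,k0,k0,k2,k0,k0,k0,k0,k0,k2],[k0,k18,k0,k16],[],[k0,k0,k0,k2,k0,k0,k0,k0,
    k0,k2]] (nat_lit 480) k5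
    [[(k6,k156),(k8,k156),(k2,k162),(k0,k166),(k10,k166),(k4,k167)],[(k9,k120),(k11,k148),(k7,k158),(k3,k164),(k1,
    k166),(k5,k167)],[(k2,k162),(k4,k163),(k0,k164),(k10,k164),(k8,k174),(k6,k192)],[(k11,k148),(k9,k158),(k1,k162),
    (k3,k162),(k7,k162),(k5,k165)],[(k6,k155),(k4,k160),(k2,k165),(k0,k167),(k10,k169),(k8,k175)],[(k7,k157),(k5,
    k160),(k3,k163),(k1,k167),(k11,k169),(k9,k179)],[(k6,k126),(k8,k146),(k10,k156),(k4,k157),(k0,k158),(k2,k162)],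
    [(k7,k126),(k9,k148),(k5,k155),(k1,k156),(k11,k156),(k3,k192)],[(k0,k120),(k6,k148),(k8,k150),(k2,k158),(k10,
    k158),(k4,k179)],[(k7,k146),(k9,k150),(k1,k156),(k11,k158),(k3,k174),(k5,k175)],[(k0,k148),(k2,k148),(k6,k156),
    (k8,k158),(k10,k168),(k4,k169)],[(k7,k156),(k9,k158),(k3,k164),(k1,k166),(k11,k168),(k5,k169)]]
    [] k0
    [[k2,k0,k0,k0,k1,k0],[k1,k1,k0,k0,k1,k0],[k1,k1,k0,k0,k0,k1],[k1,k0,k1,k0,k1,k0],[k1,k0,k0,k2,k0,k0],[k1,k0,k0,k1,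
    k1,k0],[k1,k0,k0,k1,k0,k1],[k1,k0,k0,k0,k2,k0],[k1,k0,k0,k0,k1,k1],[k0,k2,k0,k0,k0,k1],[k0,k0,k2,k1,k0,k0],[k0,k0,
    k1,k2,k0,k0],[k0,k0,k0,k3,k0,k0],[k0,k0,k0,k2,k1,k0],[k0,k0,k0,k2,k0,k1],[k0,k0,k0,k1,k2,k0],[k0,k0,k0,k1,k1,k1],
    [k0,k0,k0,k0,k3,k0],[k0,k0,k0,k0,k2,k1]]
    [.ref k22 k8 [(z3,[z5,y7,y2,y1,z4]),(z3,[y4,z2,y2,y1,z4]),(z6,[z4,z7,z2,z1,y4]),(z6,[y4,z2,z7,y1,z4])],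
    .ref k183 k10 [(z2,[z2,z0,z1,y3,y2]),(z2,[z0,z1,z0,z1]),(z1,[z0,z0,z0,y1]),(z2,[z0,y1,y1,z2,z2])],
    .ref k123 k7 [(z2,[y2,z1,z1,y2]),(z2,[z0,y1,y1,z2,z2]),(z1,[z0,z0,z0,y1]),(z2,[z0,z1,z0,z1])],.ref k22 k8 [(z4,
    [z10,y6,y1,y3,z2]),(z1,[y2,z0,y1,z0,z2]),(z2,[z2,z3,z1,z0,y2]),(z1,[y1,z0,z1,z0,z1])],.ref k71 k5 [(z4,[y2,z1,z0,
    z1]),(z2,[y2,z1,z1]),(z1,[z1]),(z1,[y2,z1])],.ref (nat_lit 338) k7 [(z2,[z2,z0,z1,y3,y2]),(z2,[z0,y1,y1,z2,z2]),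
    (z1,[z0,z0,z0,y1]),(z2,[z0,z1,z0,z1])],.ref k137 k10 [(z2,[y2,z1,z1,y2]),(z2,[z0,z1,z0,z1]),(z1,[z0,z0,z0,y1]),
    (z2,[z0,y1,y1,z2,z2])],.ref k22 k8 [(z8,[z10,y7,y2,y1,z4]),(z2,[y2,y1,y2,y1,z4]),(z4,[z2,z7,z2,z1,y4]),(z4,[y2,y1,
    z4,y1,z4])],.ref k22 k8 [(z2,[z10,y3,z2,z1,y4]),(z1,[y4,z0,y2,y1,z4]),(z2,[z4,z3,z2,z1,y4]),(z2,[y4,z0,z1,y1,
    z4])],.ref k123 k7 [(z2,[y1,z0,z1,y2]),(z2,[z0,y1,y1,z2,z2]),(z1,[z0,z0,z0,y1]),(z2,[z0,z1,z0,z1])],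
    .ref k137 k10 [(z2,[y2,z0,z1,y1]),(z2,[z0,z1,z0,z1]),(z1,[z0,z0,z0,y1]),(z2,[z0,y1,y1,z2,z2])],.ref k176 k8 [(z2,
    [y10,y1,y1,z2,z2]),(z1,[z4,z0,z0,y1]),(z2,[y4,z1,z0,z1]),(z2,[z4,z0,z1,y1])],.ref (nat_lit 448) k10 [(z2,[y2,z0,
    z3,y3]),(z2,[z0,z1,z0,z1]),(z1,[z0,z0,z0,y1]),(z2,[z0,y1,y1,z2,z2])],.ref k164 k11 [(z2,[z4,z3,y2,z1,y4]),(z1,[y4,
    y2,z2,y1,z4]),(z1,[z5,z2,y3,z1,y4]),(z2,[y4,y2,z3,y1,z4])],.ref k137 k10 [(z2,[y1,z0,z1,y2]),(z2,[z0,z1,z0,z1]),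
    (z1,[z0,z0,z0,y1]),(z2,[z0,y1,y1,z2,z2])],.ref (nat_lit 204) k7 [(z1,[z1,z1,z1,y2,y2]),(z2,[z0,y1,y1,z2,z2]),(z1,
    [z0,z0,z0,y1]),(z2,[z0,z1,z0,z1])],.ref k71 k5 [(z2,[y2,y1,y1,z0,z2]),(z2,[y4,y2,y1,y1,z4]),(z2,[z4,z3,z2,z1,y4]),
    (z1,[y4,y2,y2,y1,z4])],.ref k22 k8 [(z1,[z1]),(z5,[y4,y6,y6,y3,z12]),(z10,[z4,z21,z6,z3,y12]),(z10,[y4,y6,z9,y3,
    z12])],.ref k22 k8 [(z2,[z5,z2,z2,z1,y4]),(z1,[y2,y2,y2,y1,z4]),(z2,[z2,z5,z2,z1,y4]),(z2,[y2,y2,z1,y1,z4])]]]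

noncomputable def cT6_3_n10_2 : List TN :=
  [.leafM k0 [k1,k2,k3,k4,k5,k0] [(z1,[y1,y1,z0,z1])] [],
    .lp [k176,k166,k162,k156,k146,k152] [k0,k0,k5,k5,k7,k7,k10,k10,k15,k15,k12,k12] k0 [[k0,k0,k2,k0,k0,k0,k0,k0,k0,k0,
    k16],[k0,k0,k0,k0,k0,k4,k0,k4],[k0,k0,k0,k0,k0,k0,k0,k0,k0,k0,k12],[k0,k2,k0,k0,k0,k0,k0,k0,k0,k16],[k4,k0,k0,k0,
    k0,k0,k24],[k0,k0,k0,k0,k0,k0,k0,k0,k0,k2],[k4,k0,k0,k0,k0,k0,k0,k0,k8],[k0,k0,k0,k0,k0,k24],[k0,k0,k16,k0,k2],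
    [k0,k0,k0,k0,k0,k0,k0,k8],[],[k0,k16,k0,k12]] (nat_lit 480) k5
    [[(k2,k159),(k0,k160),(k8,k161),(k10,k164),(k6,k166),(k4,k169)],[(k1,k160),(k11,k164),(k9,k165),(k5,k167),(k7,
    k170),(k3,k171)],[(k8,k156),(k6,k157),(k4,k160),(k2,k168),(k0,k171),(k10,k175)],[(k9,k156),(k1,k159),(k7,k161),
    (k5,k164),(k3,k168),(k11,k175)],[(k8,k138),(k6,k159),(k4,k162),(k2,k164),(k0,k167),(k10,k169)],[(k9,k130),(k7,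
    k159),(k11,k159),(k3,k160),(k5,k162),(k1,k169)],[(k8,k149),(k10,k154),(k4,k159),(k2,k161),(k0,k170),(k6,k180)],
    [(k11,k146),(k9,k151),(k3,k157),(k5,k159),(k1,k166),(k7,k180)],[(k4,k130),(k10,k149),(k6,k151),(k8,k154),(k2,
    k156),(k0,k165)],[(k5,k138),(k7,k149),(k11,k149),(k9,k154),(k3,k156),(k1,k161)],[(k6,k146),(k8,k149),(k10,k152),
    (k4,k159),(k0,k164),(k2,k175)],[(k9,k149),(k11,k152),(k7,k154),(k1,k164),(k5,k169),(k3,k175)]]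
    [] k0
    [[k1,k0,k1,k0,k1,k0],[k1,k0,k0,k0,k1,k1],[k0,k1,k1,k0,k1,k0],[k0,k1,k0,k1,k1,k0],[k0,k1,k0,k0,k2,k0],[k0,k0,k2,k0,
    k1,k0],[k0,k0,k1,k1,k1,k0],[k0,k0,k1,k1,k0,k1],[k0,k0,k1,k0,k2,k0],[k0,k0,k1,k0,k1,k1],[k0,k0,k0,k1,k2,k0],[k0,k0,
    k0,k1,k1,k1],[k0,k0,k0,k1,k0,k2],[k0,k0,k0,k0,k3,k0],[k0,k0,k0,k0,k2,k1],[k0,k0,k0,k0,k1,k2],[k0,k0,k0,k0,k0,k3]]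
    [.ref k12 k0 [(z1,[z10,z3,z10,z0,z10,y10]),(z1,[z4,z0,z7,z0,z4,y4]),(z1,[y2,z0,y2,z3,y2,z2]),(z1,[y8,z0,y8,z0,y5,
    z8]),(z1,[y5,y3,y8,y3,y8,z8])],.ref k12 k0 [(z1,[z5,z3,z5,z5,z5,y5]),(z1,[z2,z0,z5,z2,z2,y2]),(z1,[y1,z0,y1,z2,y1,
    z1]),(z1,[y4,z0,y4,y4,y1,z4]),(z2,[y5,y6,y11,y11,y11,z11])],.ref k12 k0 [(z1,[y10,y7,z0,z0,y10,z10]),(z1,[y4,y4,
    z3,z0,y4,z4]),(z1,[z2,z2,z0,z3,z2,y2]),(z1,[z8,z8,z0,z0,z11,y8]),(z1,[z5,z2,y3,y3,z2,y2])],.ref k12 k0 [(z3,[y10,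
    y1,z0,y10,z0,z10]),(z3,[y4,y4,z9,y4,z0,z4]),(z3,[z2,z2,z0,z11,z0,y2]),(z3,[z8,z8,z0,z8,z9,y8]),(z3,[z5,y4,y9,y4,
    y9,z4])],.ref k12 k0 [(z1,[y5,y7,y5,y10,y10,z10]),(z1,[y2,y4,z1,y4,y4,z4]),(z1,[z1,z2,z1,z5,z2,y2]),(z1,[z4,z8,z4,
    z8,z11,y8]),(z2,[z5,z4,y1,z4,z4,y4])],.ref k12 k0 [(z3,[y10,y1,y10,z10,y10,z10]),(z3,[y4,y4,z5,z4,y4,z4]),(z3,[z2,
    z2,z2,z7,z2,y2]),(z3,[z8,z8,z8,y8,z17,y8]),(z3,[z5,y4,y4,y14,y4,z4])],.ref k12 k0 [(z1,[y2,z1,y2,z0,z0,z2]),(z5,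
    [y4,y4,z11,z0,z0,z4]),(z5,[z2,z2,z2,z15,z0,y2]),(z5,[z8,z8,z8,z0,z15,y8]),(z1,[z1,y2,y2,y3,y3,z2])],
    .ref k12 k0 [(z3,[y10,z9,z0,z10,z10]),(z3,[y4,z0,z9,z4,z4]),(z3,[z2,z0,z0,z7,y2]),(z3,[z8,z0,z0,y8,z1]),(z3,[z5,
    y9,y9,y14,y14,z9])],.ref k12 k0 [(z2,[y5,y4,y10,y5,y10,z10]),(z1,[y1,y2,z1,y1,y2,z2]),(z2,[z1,z2,z2,z7,z2,y2]),
    (z1,[z2,z4,z4,z2,z7,y4]),(z4,[z5,y2,y2,y7,y2,z2])],.ref k12 k0 [(z1,[y5,y2,y5,z0,y5,z5]),(z1,[y2,y2,z1,z0,y2,z2]),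
    (z1,[z1,z1,z1,z3,z1,y1]),(z1,[z4,z4,z4,z0,z7,y4]),(z2,[z5,y1,y1,y6,y1,z1])],.ref k12 k0 [(z3,[y5,y1,y10,y10,y5,
    z10]),(z3,[y2,y4,z5,y4,y2,z4]),(z3,[z1,z2,z2,z11,z1,y2]),(z3,[z4,z8,z8,z8,z13,y8]),(z6,[z5,y8,y8,y8,y13,z8])],
    .ref k12 k0 [(z2,[y5,z1,y5,y5,z0,z5]),(z1,[y1,y1,z2,y1,z0,z1]),(z2,[z1,z1,z1,z7,z0,y1]),(z1,[z2,z2,z2,z2,z3,y2]),
    (z4,[z5,y7,y7,y7,y12,z7])],.ref k12 k0 [(z1,[y5,z3,z0,z0,z5]),(z1,[y2,z0,z3,z0,z2]),(z1,[z1,z0,z0,z3,y1]),(z1,[z4,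
    z0,z0,z0,y1]),(z2,[z5,y6,y6,y6,y11,z6])],.ref k12 k0 [(z1,[y2,y3,y6,y6,y6,z6]),(z5,[y4,y12,z3,y12,y12,z12]),(z5,
    [z2,z6,z6,z21,z6,y6]),(z5,[z8,z24,z24,z24,z39,y24]),(z1,[z1])],.ref k12 k0 [(z3,[y10,y11,y20,y20,y20,z20]),(z3,
    [y4,y8,z1,y8,y8,z8]),(z3,[z2,z4,z4,z13,z4,y4]),(z3,[z8,z16,z16,z16,z25,y16]),(z3,[z5,z1,z1,z1,z1,y1])],
    .ref k12 k0 [(z1,[y10,y7,y10,y10,y10,z10]),(z1,[y4,y4,y1,y4,y4,z4]),(z1,[z2,z2,z2,z5,z2,y2]),(z1,[z8,z8,z8,z8,z11,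
    y8]),(z1,[z5,z2,z2,z2,z2,y2])],.ref k12 k0 [(z1,[z10,z3]),(z1,[z4,z0,z3]),(z1,[y2,z0,z0,z3]),(z1,[y8,z0,z0,z0,
    z3]),(z1,[y5,y3,y3,y3,y3,z3])]],
    .leafM k0 [k1,k2,k3,k4,k5,k0] [(z1,[y1,y1,z0,z0,z1])] [],
    .lp [(nat_lit 324),(nat_lit 324),(nat_lit 330),(nat_lit 300),(nat_lit 300),(nat_lit 340)] [k8,k8,k8,k8,k5,k5,k20,k20,
    k20,k20,k0,k0] k0 [[k0,k0,k0,k0,k6,k0,k6],[k0,k0,k0,k4],[k4],[],[k0,k0,k0,k0,k0,k0,k0,k0,k0,k0,k22],[k0,k6,k0,k0,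
    k0,k0,k0,k32],[k0,k0,k0,k0,k32,k0,k0,k0,k0,k0,k24],[k0,k6,k0,k0,k0,k0,k0,k0,k0,k2],[k0,k0,k0,k0,k0,k0,k2],[k0,k0,
    k0,k0,k0,k0,k0,k0,k0,k0,k0,k44],[k0,k0,k0,k0,k0,k0,k0,k0,k44],[k0,k0,k0,k0,k0,k22,k0,k24]] (nat_lit 960) k5
    [[(k6,(nat_lit 288)),(k4,(nat_lit 305)),(k0,(nat_lit 324)),(k2,(nat_lit 324)),(k10,(nat_lit 332)),(k8,
    (nat_lit 356))],[(k7,(nat_lit 306)),(k9,(nat_lit 306)),(k1,(nat_lit 324)),(k3,(nat_lit 324)),(k5,(nat_lit 331)),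
    (k11,(nat_lit 332))],[(k8,(nat_lit 312)),(k6,(nat_lit 318)),(k2,(nat_lit 320)),(k0,(nat_lit 324)),(k10,
    (nat_lit 332)),(k4,(nat_lit 333))],[(k7,(nat_lit 312)),(k9,(nat_lit 312)),(k3,(nat_lit 320)),(k1,(nat_lit 324)),
    (k5,(nat_lit 327)),(k11,(nat_lit 332))],[(k6,(nat_lit 315)),(k8,(nat_lit 315)),(k2,(nat_lit 327)),(k4,
    (nat_lit 330)),(k0,(nat_lit 331)),(k10,(nat_lit 335))],[(k1,(nat_lit 305)),(k7,(nat_lit 315)),(k5,(nat_lit 330)),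
    (k3,(nat_lit 333)),(k11,(nat_lit 335)),(k9,(nat_lit 347))],[(k6,(nat_lit 268)),(k8,(nat_lit 300)),(k0,
    (nat_lit 306)),(k2,(nat_lit 312)),(k4,(nat_lit 315)),(k10,(nat_lit 342))],[(k7,(nat_lit 268)),(k1,(nat_lit 288)),
    (k9,(nat_lit 300)),(k5,(nat_lit 315)),(k3,(nat_lit 318)),(k11,(nat_lit 322))],[(k8,(nat_lit 298)),(k6,
    (nat_lit 300)),(k0,(nat_lit 306)),(k2,(nat_lit 312)),(k10,(nat_lit 344)),(k4,(nat_lit 347))],[(k9,(nat_lit 298)),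
    (k7,(nat_lit 300)),(k3,(nat_lit 312)),(k5,(nat_lit 315)),(k11,(nat_lit 320)),(k1,(nat_lit 356))],[(k10,
    (nat_lit 296)),(k8,(nat_lit 320)),(k6,(nat_lit 322)),(k0,(nat_lit 332)),(k2,(nat_lit 332)),(k4,(nat_lit 335))],
    [(k11,(nat_lit 296)),(k1,(nat_lit 332)),(k3,(nat_lit 332)),(k5,(nat_lit 335)),(k7,(nat_lit 342)),(k9,
    (nat_lit 344))]]
    [] k0
    [[k2,k0,k0,k1,k0,k0],[k1,k1,k0,k1,k0,k0],[k1,k1,k0,k0,k1,k0],[k1,k1,k1,k0,k0,k0],[k1,k0,k1,k1,k0,k0],[k1,k0,k1,k0,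
    k1,k0],[k1,k0,k0,k2,k0,k0],[k1,k0,k0,k1,k1,k0],[k1,k0,k0,k0,k1,k1],[k0,k2,k0,k1,k0,k0],[k0,k2,k0,k0,k1,k0],[k0,k1,
    k0,k2,k0,k0],[k0,k1,k0,k1,k1,k0],[k0,k1,k0,k0,k2,k0],[k0,k0,k1,k2,k0,k0],[k0,k0,k1,k1,k1,k0],[k0,k0,k0,k3,k0,k0],
    [k0,k0,k0,k2,k1,k0],[k0,k0,k0,k2,k0,k1],[k0,k0,k0,k1,k2,k0],[k0,k0,k0,k0,k3,k0],[k0,k0,k0,k0,k0,k3]]
    [.ref k12 k0 [(z1,[z4,y5,z0,z0,y4]),(z1,[z2,y4,z1,z0,y2]),(z1,[z0,z0,z0,z1]),(z1,[y5,z10,z0,z0,z8]),(z1,[y2,z1,y1,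
    y1,y1,z3])],.ref k12 k0 [(z1,[z12,y9,y4,z0,y12]),(z1,[z6,y6,y1,z0,y6]),(z1,[z0,z0,z0,z1]),(z1,[y15,z15,z5,z0,
    z18]),(z1,[y6,z3,z1,y1,z3,z3])],.ref k12 k0 [(z1,[z3,z3,z0,z1,z3,y3]),(z2,[z3,z0,z2,z1,z3,y3]),(z1,[z0,z0,z0,z1]),
    (z4,[y15,z0,z0,y5,y3,z15]),(z2,[y3,y6,y2,y3,y9,z9])],.ref k12 k0 [(z3,[z6,z3,y2,y2]),(z3,[z3,y3,z2,y1]),(z1,[z0,
    z0,z0,z1]),(z6,[y15,z15,z5,z5,z18]),(z3,[y3,y6,y2,y2,y9,z9])],.ref k12 k0 [(z1,[y12,z15,z0,z4,z12]),(z1,[y6,z6,z1,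
    z2,z6]),(z1,[z0,z0,z0,z1]),(z1,[z15,y15,z0,y5,y12]),(z1,[z6,y9,y1,y3,y9,z3])],.ref k12 k0 [(z1,[z6,z3,z2,z0,z6,
    y6]),(z1,[z3,z0,z2,z0,z3,y3]),(z1,[z0,z0,z0,z1]),(z2,[y15,z0,y5,z0,y9,z15]),(z1,[y3,y3,y2,y1,y6,z6])],
    .ref k12 k0 [(z1,[y2,z5,z0,z0,z4]),(z1,[y1,z1,z1,z0,z2]),(z1,[z0,z0,z0,z1]),(z2,[z5,y5,z0,z0,y4]),(z1,[z1,y4,y1,
    y1,y5,z3])],.ref k12 k0 [(z3,[y12,z9,y4,y4,z0,z12]),(z3,[y6,z0,z1,y2,z0,z6]),(z1,[z0,z0,z0,z1]),(z3,[z15,z0,z5,z5,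
    z9,y15]),(z3,[z6,y9,y1,y1,y9,z3])],.ref k12 k0 [(z3,[z12,z9,z4,z4,z12,y12]),(z3,[z6,z0,z5,z2,z6,y6]),(z1,[z0,z0,
    z0,z1]),(z3,[y15,z0,y5,y5,y6,z15]),(z3,[y6,y9,y5,y5,y15,z15])],.ref k12 k0 [(z1,[y12,z3,z8,z0,z12]),(z1,[y6,z0,z5,
    z0,z6]),(z1,[z0,z0,z0,z1]),(z1,[z15,z0,y10,z0,y12]),(z1,[z6,y3,y5,y1,y9,z3])],.ref k12 k0 [(z1,[z6,z9,y2,z2,z6,
    y6]),(z1,[z3,z3,z0,z1,z3,y3]),(z1,[z0,z0,z0,z1]),(z2,[y15,y15,z5,y5,y9,z15]),(z1,[y3,y6,z0,y2,y6,z6])],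
    .ref k12 k0 [(z2,[y3,z6,z1,z0,z6]),(z4,[y3,z0,z5,z0,z6]),(z1,[z0,z0,z0,z1]),(z8,[z15,z0,y5,z0,y6]),(z4,[z3,y12,y5,
    y4,y18,z12])],.ref k12 k0 [(z5,[y12,z3,z0,y4,z0,z12]),(z5,[y6,y6,z5,y2,z0,z6]),(z1,[z0,z0,z0,z1]),(z1,[z3,z3,z0,
    z1,z3,y3]),(z5,[z6,y9,y5,y3,y15,z9])],.ref k12 k0 [(z1,[y6,y9,y2,y4,y12,z12]),(z1,[y3,y6,z0,y2,y6,z6]),(z1,[z0,z0,
    z0,z1]),(z2,[z15,z30,z5,z10,z36,y30]),(z1,[z3,z3,z0,z1,z3,y3])],.ref k12 k0 [(z5,[y6,z15,z0,z2,z12]),(z5,[y3,z0,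
    z5,z1,z6]),(z1,[z0,z0,z0,z1]),(z2,[z3,z0,z0,y1]),(z5,[z3,y15,y5,y6,y21,z15])],.ref k12 k0 [(z7,[y12,z9,y4,z0,z0,
    z12]),(z7,[y6,y6,z5,z0,z0,z6]),(z1,[z0,z0,z0,z1]),(z7,[z15,z15,z5,z0,z21,y15]),(z7,[z6,y15,y5,y7,y21,z15])],
    .ref k12 k0 [(z5,[y4,z15,z0,z0,z12]),(z5,[y2,z0,z5,z0,z6]),(z1,[z0,z0,z0,z1]),(z1,[z1]),(z5,[z2,y15,y5,y5,y21,
    z15])],.ref k12 k0 [(z3,[y3,z6,y1,y1,z3,z3]),(z6,[y3,y3,z5,y1,z3,z3]),(z1,[z0,z0,z0,z1]),(z12,[z15,z15,z5,z5,z21,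
    y15]),(z6,[z3,y15,y5,y5,y21,z15])],.ref k12 k0 [(z3,[y4,z9,z0,z0,z8]),(z3,[y2,z0,z3,z0,z4]),(z1,[z0,z0,z0,z1]),
    (z3,[z5,z0,z0,z0,y1]),(z3,[z2,y9,y3,y3,y13,z9])],.ref k12 k0 [(z9,[y12,z3,y8,y8,y12,z24]),(z9,[y6,y12,z5,y4,y6,
    z12]),(z1,[z0,z0,z0,z1]),(z9,[z15,z30,z10,z10,z42,y30]),(z9,[z6,y15,y5,y5,y21,z15])],.ref k12 k0 [(z1,[y2,y3,y2,
    y2,y6,z6]),(z1,[y1,y3,z0,y1,y3,z3]),(z1,[z0,z0,z0,z1]),(z2,[z5,z15,z5,z5,z21,y15]),(z1,[z1])],.ref k12 k0 [(z1,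
    [z4,z3]),(z1,[z2,z0,z1]),(z1,[z0,z0,z0,z1]),(z1,[y5,z0,z0,z0,z3]),(z1,[y2,y3,y1,y1,y3,z3])]],
    .lp [k166,k164,k164,k152,k148,k164] [k0,k0,k1,k1,k1,k1,k7,k7,k9,k9,k1,k1] k0 [[k0,k0,k0,k0,k0,k0,k0,k0,k4,k0,k4],[],
    [],[],[k0,k0,k0,k0,k0,k0,k0,k0,k0,k0,k2],[k0,k0,k0,k0,k0,k0,k0,k22,k0,k4],[k0,k0,k0,k0,k22],[k0,k0,k0,k0,k0,k0,k0,
    k0,k0,k2],[k0,k0,k0,k0,k4,k0,k2],[k0,k4,k0,k0,k0,k0,k0,k0,k0,k0,k0,k4],[k0,k0,k0,k0,k0,k0,k0,k0,k4],[k0,k4,k0,k0,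
    k0,k2]] (nat_lit 480) k5
    [[(k6,k159),(k8,k161),(k0,k162),(k4,k163),(k2,k165),(k10,k165)],[(k9,k157),(k7,k159),(k11,k161),(k1,k162),(k3,
    k165),(k5,k165)],[(k6,k158),(k8,k160),(k2,k164),(k4,k164),(k0,k165),(k10,k168)],[(k9,k156),(k7,k158),(k3,k164),
    (k5,k164),(k11,k164),(k1,k165)],[(k8,k156),(k6,k158),(k2,k164),(k4,k164),(k10,k164),(k0,k165)],[(k7,k158),(k1,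
    k163),(k3,k164),(k5,k164),(k11,k168),(k9,k178)],[(k6,k130),(k8,k146),(k2,k158),(k4,k158),(k0,k159),(k10,k160)],
    [(k7,k130),(k9,k150),(k3,k158),(k5,k158),(k1,k159),(k11,k160)],[(k8,k146),(k6,k150),(k2,k156),(k10,k156),(k0,
    k157),(k4,k178)],[(k7,k146),(k9,k146),(k5,k156),(k11,k156),(k3,k160),(k1,k161)],[(k8,k156),(k6,k160),(k10,k160),
    (k0,k161),(k2,k164),(k4,k168)],[(k9,k156),(k7,k160),(k11,k160),(k5,k164),(k1,k165),(k3,k168)]]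
    [] k0
    [[k1,k0,k1,k0,k1,k0],[k1,k0,k0,k2,k0,k0],[k1,k0,k0,k1,k1,k0],[k1,k0,k0,k0,k2,k0],[k1,k0,k0,k0,k1,k1],[k0,k1,k1,k0,
    k1,k0],[k0,k1,k0,k2,k0,k0],[k0,k1,k0,k1,k1,k0],[k0,k1,k0,k0,k2,k0],[k0,k0,k1,k2,k0,k0],[k0,k0,k1,k1,k1,k0],[k0,k0,
    k0,k3,k0,k0],[k0,k0,k0,k2,k1,k0],[k0,k0,k0,k2,k0,k1],[k0,k0,k0,k1,k2,k0],[k0,k0,k0,k1,k1,k1],[k0,k0,k0,k0,k3,k0],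
    [k0,k0,k0,k0,k2,k1],[k0,k0,k0,k0,k1,k2]]
    [.ref k12 k0 [(z1,[z3,z0,z0,y1]),(z4,[z3,y1,z2,y1]),(z2,[y3,z1,z0,z3]),(z4,[y15,z5,z0,z5,z2]),(z2,[z3,y1,z0,y1])],
    .ref k12 k0 [(z3,[y6,z5,z0,z0,z2]),(z6,[y3,z1,z3,z0,z1]),(z3,[z3,y1,z0,z3,y1]),(z6,[z15,y5,z0,z0,y2]),(z3,[y3,z1,
    z0,z0,z1])],.ref k12 k0 [(z1,[z12,y3,z0,z0,y2]),(z2,[z6,y2,z1,z0,y1]),(z1,[y6,z2,z0,z1,z1]),(z1,[y15,z5,z0,z0,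
    z3]),(z1,[z6,y2,z0,z0,y1])],.ref k12 k0 [(z2,[z3,z1]),(z8,[z3,y1,z4]),(z4,[y3,z1,z0,z4]),(z8,[y15,z5,z0,z0,z4]),
    (z4,[z3,y1])],.ref k12 k0 [(z3,[z6,z3,z1,z2,z1,y6]),(z12,[z6,z0,z7,z2,z1,y6]),(z6,[y6,z0,y1,z4,y1,z6]),(z12,[y30,
    z0,y5,y10,z1,z30]),(z6,[z6,z0,z1,z2,z1,y6])],.ref k12 k0 [(z1,[z12,z1,y2,y4]),(z1,[z3,z0,z0,y1]),(z1,[y6,z0,z1,
    z3]),(z2,[y30,z0,z5,z10,z1]),(z1,[z6,z0,y1,y2])],.ref k12 k0 [(z9,[y12,z9,z2,z0,z4]),(z9,[y3,z0,z5,z0,z1]),(z9,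
    [z6,z0,y1,z9,y2]),(z18,[z30,z0,y5,z0,y1]),(z9,[y6,z0,z1,z0,z2])],.ref k12 k0 [(z1,[y6,z1,z1,z0,z1]),(z4,[y6,z0,z3,
    z0,z1]),(z2,[z6,z0,y1,z2,y1]),(z4,[z30,z0,y5,z0,y3]),(z2,[y6,z0,z1,z0,z1])],.ref k12 k0 [(z5,[z12,z5,y2]),(z5,[z3,
    z0,z2]),(z5,[y6,z0,z1,z5]),(z2,[y6,z0,z1,z0,z1]),(z5,[z6,z0,y1])],.ref k12 k0 [(z3,[y3,z3,z0,z1,z1]),(z12,[y3,z0,
    z6,z1,z1]),(z6,[z3,z0,z0,z5,y1]),(z12,[z15,z0,z0,y5,z1]),(z6,[y3,z0,z0,z1,z1])],.ref k12 k0 [(z5,[y12,z5,z0,z4,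
    z2]),(z10,[y6,z0,z5,z2,z1]),(z5,[z6,z0,z0,z3,y1]),(z1,[z3,z0,z0,y1]),(z5,[y6,z0,z0,z2,z1])],.ref k12 k0 [(z5,[y4,
    z5,z0,z0,z2]),(z10,[y2,z0,z5,z0,z1]),(z5,[z2,z0,z0,z5,y1]),(z1,[z1]),(z5,[y2,z0,z0,z0,z1])],.ref k12 k0 [(z2,[y3,
    z2,z0,z0,z1]),(z8,[y3,z0,z4,z0,z1]),(z4,[z3,z0,z0,z4,y1]),(z8,[z15,z0,z0,z0,y1]),(z4,[y3,z0,z0,z0,z1])],
    .ref k12 k0 [(z5,[y6,z3,y1,y2,z1,z6]),(z20,[y6,y2,z9,y2,z1,z6]),(z10,[z6,z2,z1,z12,y1,y6]),(z4,[z6,z2,z1,z2,z1,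
    y6]),(z10,[y6,y2,y1,y2,z1,z6])],.ref k12 k0 [(z1,[y12,z1,z0,z0,z2]),(z2,[y6,z0,z1,z0,z1]),(z1,[z6,z0,z0,z1,y1]),
    (z1,[z15,z0,z0,z0,y2]),(z1,[y6,z0,z0,z0,z1])],.ref k12 k0 [(z3,[y12,y1,y2,y4,z0,z12]),(z3,[y3,y1,z1,y1,z0,z3]),
    (z3,[z6,z2,z1,z5,z0,y6]),(z6,[z30,z10,z5,z10,z3,y30]),(z3,[y6,y2,y1,y2,z0,z6])],.ref k12 k0 [(z1,[z2,z1]),(z2,[z1,
    z0,z1]),(z1,[y1,z0,z0,z1]),(z2,[y5,z0,z0,z0,z1]),(z1,[z1])],.ref k12 k0 [(z2,[z6,z4,z1,z2,z1,y6]),(z8,[z6,z2,z5,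
    z2,z1,y6]),(z4,[y6,y2,y1,z2,y1,z6]),(z8,[y30,y10,y5,y10,y1,z30]),(z4,[z6,z2,z1,z2,z1,y6])],.ref k12 k0 [(z1,[z6,
    z5,z2,z4,z2,y12]),(z2,[z3,z2,z2,z2,z1,y6]),(z1,[y3,y2,y1,y1,y1,z6]),(z2,[y15,y10,y5,y10,y4,z30]),(z1,[z3,z2,z1,z2,
    z1,y6])]],
    .lp [k162,k166,k164,k156,k144,k166] [k2,k2,k0,k0,k1,k1,k5,k5,k11,k11,k0,k0] k0 [[k0,k0,k0,k0,k0,k0,k4],[k0,k0,k0,k0,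
    k0,k2],[k0,k0,k0,k0,k0,k0,k0,k0,k0,k0,k10],[k0,k0,k0,k0,k0,k0,k0,k4,k0,k14],[k2,k0,k0,k0,k0,k0,k4],[k0,k0,k0,k0,
    k0,k0,k0,k0,k0,k20],[k0,k0,k4,k0,k0,k0,k0,k0,k2],[k0,k4,k0,k0,k0,k4],[k0,k0,k14,k0,k20],[k0,k0,k0,k0,k0,k0,k0,k2,
    k0,k0,k0,k32],[k0,k0,k0,k0,k0,k0,k0,k0,k32],[k0,k0,k0,k10]] (nat_lit 480) k5
    [[(k2,k154),(k6,k159),(k0,k162),(k4,k163),(k10,k164),(k8,k185)],[(k9,k149),(k7,k161),(k1,k162),(k5,k163),(k3,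
    k164),(k11,k164)],[(k8,k155),(k4,k163),(k0,k164),(k6,k165),(k2,k166),(k10,k166)],[(k1,k154),(k9,k159),(k7,k161),
    (k5,k165),(k3,k166),(k11,k180)],[(k8,k140),(k6,k156),(k0,k163),(k4,k164),(k2,k165),(k10,k175)],[(k9,k150),(k7,
    k160),(k1,k163),(k3,k163),(k5,k164),(k11,k185)],[(k8,k130),(k4,k160),(k6,k160),(k0,k161),(k2,k161),(k10,k161)],
    [(k9,k150),(k5,k156),(k1,k159),(k11,k159),(k7,k160),(k3,k165)],[(k8,k146),(k0,k149),(k4,k150),(k6,k150),(k10,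
    k155),(k2,k159)],[(k7,k130),(k5,k140),(k9,k146),(k3,k155),(k11,k155),(k1,k185)],[(k10,k134),(k8,k155),(k6,k159),
    (k0,k164),(k2,k180),(k4,k185)],[(k11,k134),(k9,k155),(k7,k161),(k1,k164),(k3,k166),(k5,k175)]]
    [] k0
    [[k1,k1,k0,k0,k1,k0],[k1,k0,k1,k0,k1,k0],[k1,k0,k0,k1,k1,k0],[k1,k0,k0,k0,k1,k1],[k1,k0,k0,k0,k0,k2],[k0,k1,k1,k0,
    k1,k0],[k0,k1,k0,k1,k1,k0],[k0,k1,k0,k0,k2,k0],[k0,k0,k2,k0,k1,k0],[k0,k0,k1,k2,k0,k0],[k0,k0,k1,k1,k1,k0],[k0,k0,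
    k1,k0,k2,k0],[k0,k0,k0,k2,k1,k0],[k0,k0,k0,k1,k2,k0],[k0,k0,k0,k1,k1,k1],[k0,k0,k0,k1,k0,k2],[k0,k0,k0,k0,k3,k0],
    [k0,k0,k0,k0,k2,k1],[k0,k0,k0,k0,k1,k2],[k0,k0,k0,k0,k0,k3]]
    [.ref k185 k11 [(z1,[z0,z1,y2]),(z1,[y1,z1,y3]),(z1,[z1,y1,z2]),(z1,[z0,y1,z2,y1,z1])],.ref k194 k11 [(z1,[z0,z1,
    y2]),(z1,[y1,z1,y2,z1]),(z1,[z1,y1,z1,y1]),(z1,[z0,y1,z2,y1,z1])],.ref (nat_lit 343) k11 [(z1,[z0,z1,y2]),(z1,[y1,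
    z0,y1,y1,z1]),(z1,[z1,z0,z0,z1,y1]),(z1,[z0,y1,z2,y1,z1])],.ref k9 k0 [(z1,[z2,z1]),(z2,[z1,y1,z3]),(z1,[y1,z1,z0,
    z3]),(z2,[y5,y1,y3,y6,z6])],.ref k137 k11 [(z1,[z0,z1,y2]),(z2,[z1,y1,z2]),(z2,[y1,z1,y4]),(z1,[z0,y1,z2,y1,z1])],
    .ref (nat_lit 343) k11 [(z1,[z0,z1,y2]),(z1,[y1,z0,z0,z1]),(z1,[z1,z0,y1,y1]),(z1,[z0,y1,z2,y1,z1])],
    .ref k137 k11 [(z1,[z0,z1,y2]),(z1,[y1,y1,z1,y1,z1]),(z1,[z1,z1,y2,z1,y1]),(z1,[z0,y1,z2,y1,z1])],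
    .ref (nat_lit 451) k2 [(z1,[y5,y1,z2,y1,z1]),(z1,[y2,z0,z1,z1]),(z1,[z1]),(z1,[z4,z1,y2])],.ref k137 k11 [(z1,[z0,
    z1,y2]),(z1,[y1,z0,z1,z2]),(z1,[z1,z0,y2,y2]),(z1,[z0,y1,z2,y1,z1])],.ref k9 k0 [(z1,[y1,z1,y1,y1,z2]),(z4,[y1,y2,
    z5,y1,z2]),(z2,[z1,z2,z1,z7,y2]),(z4,[z5,y2,y1,y7,z2])],.ref (nat_lit 452) k11 [(z1,[z0,z1,y2]),(z1,[y1,y1,z2,z0,
    z1]),(z1,[z1,z1,y3,z0,y1]),(z1,[z0,y1,z2,y1,z1])],.ref (nat_lit 343) k11 [(z1,[z0,z1,y2]),(z2,[y1,z0,y1,z1]),(z2,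
    [z1,z0,y1,y1]),(z1,[z0,y1,z2,y1,z1])],.ref k164 k11 [(z1,[z0,z1,y2]),(z1,[y1,y2,z3,y2,z2]),(z1,[z1,z2,y4,z2,y2]),
    (z1,[z0,y1,z2,y1,z1])],.ref k188 k11 [(z1,[z0,z1,y2]),(z1,[y1,y1,z0,y1,z1]),(z1,[z1,z1,y2,z1,y1]),(z1,[z0,y1,z2,
    y1,z1])],.ref k9 k0 [(z1,[y4,y1,y2,y4,z4]),(z1,[y1,y1,z1,y1,z1]),(z1,[z2,z2,z1,z5,y2]),(z1,[z5,z2,z1,z2,y2])],
    .ref (nat_lit 451) k2 [(z1,[z5,z4,z2,z4,y4]),(z1,[z2,z2,z1,z3,y2]),(z1,[y1,y1,z0,y1,z1]),(z1,[y4,y3,y2,y4,z4])],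
    .ref (nat_lit 453) k11 [(z1,[z0,z1,y2]),(z1,[y1,z0,y3]),(z1,[z1]),(z1,[z0,y1,z2,y1,z1])],.ref k194 k11 [(z1,[z0,
    z1,y2]),(z1,[y1,z0,y2]),(z1,[z1,z0,z1]),(z1,[z0,y1,z2,y1,z1])],.ref k137 k11 [(z1,[z0,z1,y2]),(z1,[z1,z0,z1]),(z1,
    [y1,z0,y2]),(z1,[z0,y1,z2,y1,z1])],.ref (nat_lit 454) k0 [(z1,[z2,z3]),(z1,[z1,z0,z3]),(z1,[y1,z0,z0,z3]),(z1,[y5,
    y6,y3,y6,z6])]],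
    .lp [k154,k166,k168,k166,k144,k160] [k7,k7,k1,k1,k0,k0,k1,k1,k12,k12,k4,k4] k0 [[k0,k0,k0,k0,k0,k0,k0,k0,k22],[k0,k0,
    k0,k0,k0,k0,k0,k0,k0,k0,k0,k6],[k0,k0,k0,k0,k4,k0,k0,k0,k0,k0,k6],[k0,k0,k0,k0,k0,k0,k0,k16,k0,k8],[k0,k0,k0,k0,
    k0,k0,k0,k0,k26,k0,k2],[k0,k0,k0,k4,k0,k0,k0,k4],[k0,k0,k16,k0,k4],[k0,k0,k0,k0,k0,k0,k0,k0,k0,k0,k0,k20],[k0,k0,
    k8],[k0,k22,k0,k0,k0,k26],[k6,k0,k0,k0,k0,k0,k20],[k0,k0,k0,k6,k0,k2]] (nat_lit 480) k5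
    [[(k8,k149),(k2,k154),(k10,k157),(k4,k159),(k0,k160),(k6,k180)],[(k11,k135),(k9,k149),(k1,k160),(k3,k160),(k7,
    k160),(k5,k161)],[(k10,k157),(k0,k160),(k2,k166),(k6,k166),(k4,k167),(k8,k177)],[(k1,k154),(k7,k162),(k3,k166),
    (k5,k167),(k9,k171),(k11,k171)],[(k8,k148),(k6,k151),(k0,k161),(k2,k167),(k10,k170),(k4,k172)],[(k11,k138),(k1,
    k159),(k9,k160),(k3,k167),(k7,k167),(k5,k172)],[(k0,k160),(k2,k162),(k6,k162),(k10,k165),(k4,k167),(k8,k181)],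
    [(k5,k151),(k9,k155),(k7,k162),(k11,k163),(k3,k166),(k1,k180)],[(k10,k132),(k8,k144),(k0,k149),(k6,k155),(k4,
    k160),(k2,k171)],[(k9,k144),(k5,k148),(k1,k149),(k11,k152),(k3,k177),(k7,k181)],[(k0,k135),(k4,k138),(k8,k152),
    (k10,k160),(k6,k163),(k2,k171)],[(k9,k132),(k1,k157),(k3,k157),(k11,k160),(k7,k165),(k5,k170)]]
    [] k0
    [[k2,k1,k0,k0,k0,k0],[k2,k0,k0,k0,k1,k0],[k2,k0,k0,k0,k0,k1],[k1,k1,k0,k0,k0,k1],[k1,k0,k1,k1,k0,k0],[k1,k0,k1,k0,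
    k1,k0],[k1,k0,k1,k0,k0,k1],[k1,k0,k0,k1,k1,k0],[k1,k0,k0,k0,k2,k0],[k1,k0,k0,k0,k1,k1],[k1,k0,k0,k0,k0,k2],[k0,k1,
    k1,k0,k0,k1],[k0,k0,k1,k1,k0,k1],[k0,k0,k1,k1,k1,k0],[k0,k0,k1,k0,k2,k0],[k0,k0,k1,k0,k1,k1],[k0,k0,k1,k0,k0,k2],
    [k0,k0,k0,k1,k1,k1],[k0,k0,k0,k0,k3,k0],[k0,k0,k0,k0,k2,k1],[k0,k0,k0,k0,k1,k2]]
    [.ref k12 k0 [(z4,[z3,z2,y3]),(z2,[z3,y2,z3]),(z8,[y15,z10,z15,z24]),(z4,[y3,z2,z3,z0,z12]),(z8,[z3,y2,y3])],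
    .ref k12 k0 [(z5,[z6,z1]),(z5,[z12,y8,z15]),(z1,[y3,z2,z0,z3]),(z5,[y6,z4,z0,z0,z15]),(z5,[z3,y2])],
    .ref k12 k0 [(z2,[z3,z1,z3,z3,z3,y3]),(z1,[z3,y1,z6,z3,z3,y3]),(z4,[y15,z5,y15,y3,y15,z15]),(z2,[y3,z1,y3,y3,z3,
    z3]),(z4,[z3,y1,z3,z3,z3,y3])],.ref k12 k0 [(z1,[z1,z1,z0,z1,z1,y1]),(z1,[z2,z0,z3,z2,z2,y2]),(z2,[y5,z0,z0,z1,y5,
    z5]),(z1,[y1,z0,z0,y1,z2,z1]),(z2,[z1,z0,z0,z1,z1,y1])],.ref k12 k0 [(z5,[y6,z7,z0,z6,z6]),(z5,[y12,z4,z15,z12,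
    z12]),(z1,[z3,y1,z0,z0,y3]),(z5,[z6,y2,z0,y6,z9]),(z5,[y3,z1,z0,z3,z3])],.ref k12 k0 [(z1,[y3,z2,z0,z3]),(z1,[y6,
    z2,z3,z6]),(z2,[z15,y5,z0,y9]),(z1,[z3,y1,z0,y3,z3]),(z2,[y3,z1,z0,z3])],.ref k12 k0 [(z1,[y2,z1,y2,z0,y2,z2]),
    (z1,[y4,z0,y1,z0,y4,z4]),(z1,[z5,z0,z5,z3,z5,y5]),(z1,[z2,z0,z2,z0,z5,y2]),(z1,[y1,z0,y1,z0,y1,z1])],
    .ref k12 k0 [(z1,[z6,y1,z0,z0,y6]),(z1,[z12,y4,z3,z0,y12]),(z1,[y15,z5,z0,z3,z15]),(z1,[y6,z2,z0,z0,z9]),(z1,[z3,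
    y1,z0,z0,y3])],.ref k12 k0 [(z2,[z3,z1]),(z1,[z3,y1,z3]),(z4,[y15,z5,z0,z12]),(z2,[y3,z1,z0,z0,z6]),(z4,[z3,y1])],
    .ref k12 k0 [(z1,[z2,z1,z2,z2,z2,y2]),(z1,[z4,z0,z7,z4,z4,y4]),(z1,[y5,z0,y5,y2,y5,z5]),(z1,[y2,z0,y2,y2,z1,z2]),
    (z1,[z1,z0,z1,z1,z1,y1])],.ref k12 k0 [(z1,[z3,z2,z6,z6,z6,y6]),(z1,[z6,z2,z15,z12,z12,y12]),(z2,[y15,y5,y30,y24,
    y30,z30]),(z1,[y3,y1,y6,y6,y3,z6]),(z2,[z3,z1,z6,z6,z6,y6])],.ref k12 k0 [(z1,[y6,y1,z0,z0,y6,z6]),(z1,[y12,y4,z3,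
    z0,y12,z12]),(z1,[z15,z5,z0,z3,z15,y15]),(z1,[z6,z2,z0,z0,z9,y6]),(z1,[y3,y1,z0,z0,y3,z3])],.ref k12 k0 [(z7,[y6,
    z5,y6,z0,z0,z6]),(z7,[y12,y4,z9,z0,z0,z12]),(z7,[z15,z5,z15,z21,z0,y15]),(z7,[z6,z2,z6,z0,z21,y6]),(z7,[y3,y1,y3,
    z0,z0,z3])],.ref k12 k0 [(z1,[y1,z1,z0,z1,z1]),(z1,[y2,z0,z3,z2,z2]),(z2,[z5,z0,z0,z1,y5]),(z1,[z1,z0,z0,y1,z2]),
    (z2,[y1,z0,z0,z1,z1])],.ref k12 k0 [(z1,[y2,z1,z0,z2]),(z1,[y4,z0,z3,z4]),(z1,[z5,z0,z0,y2]),(z1,[z2,z0,z0,y2,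
    z3]),(z1,[y1,z0,z0,z1])],.ref k12 k0 [(z2,[y3,z1,y3,z0,y3,z3]),(z1,[y3,y1,z0,z0,y3,z3]),(z4,[z15,z5,z15,z12,z15,
    y15]),(z2,[z3,z1,z3,z0,z9,y3]),(z4,[y3,y1,y3,z0,y3,z3])],.ref k12 k0 [(z5,[y6,z1,y12,y6,y12,z12]),(z5,[y12,y8,y9,
    y12,y24,z24]),(z1,[z3,z2,z6,z6,z6,y6]),(z5,[z6,z4,z12,z6,z27,y12]),(z5,[y3,y2,y6,y3,y6,z6])],.ref k12 k0 [(z1,[y6,
    y1,y6,y6,z0,z6]),(z1,[y12,y4,y9,y12,z0,z12]),(z1,[z15,z5,z15,z18,z0,y15]),(z1,[z6,z2,z6,z6,z3,y6]),(z1,[y3,y1,y3,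
    y3,z0,z3])],.ref k12 k0 [(z1,[z2,z1]),(z1,[z4,z0,z3]),(z1,[y5,z0,z0,z3]),(z1,[y2,z0,z0,z0,z3]),(z1,[z1])],
    .ref k12 k0 [(z1,[z3,z2,z3,z3,z3,y3]),(z1,[z6,z2,z9,z6,z6,y6]),(z2,[y15,y5,y15,y9,y15,z15]),(z1,[y3,y1,y3,y3,z0,
    z3]),(z2,[z3,z1,z3,z3,z3,y3])],.ref k12 k0 [(z1,[z6,z5,z12,z12,z12,y12]),(z1,[z12,z8,z27,z24,z24,y24]),(z1,[y15,
    y10,y30,y27,y30,z30]),(z1,[y6,y4,y12,y12,y9,z12]),(z1,[z3,z2,z6,z6,z6,y6])]],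
    .lp [k154,k166,k170,k162,k162,k144] [k8,k8,k2,k2,k0,k0,k4,k4,k4,k4,k13,k13] k0 [[k0,k0,k0,k0,k0,k0,k16,k0,k20],[k0,k0,
    k0,k0,k0,k4,k0,k0,k0,k0,k0,k6],[k0,k0,k0,k0,k0,k0,k0,k0,k4,k0,k6],[k0,k0,k0,k0,k0,k0,k0,k14],[k4],[k0,k0,k0,k0,k0,
    k0,k0,k0,k0,k0,k0,k4],[k0,k0,k14],[k0,k16,k0,k0,k0,k0,k0,k0,k0,k18],[k0,k0,k0,k0,k0,k0,k18,k0,k0,k0,k16],[k0,k20,
    k0,k4],[k6,k0,k0,k0,k4],[k0,k0,k0,k6,k0,k0,k0,k0,k0,k16]] (nat_lit 480) k5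
    [[(k8,k142),(k10,k149),(k2,k154),(k6,k158),(k0,k160),(k4,k166)],[(k11,k129),(k9,k142),(k1,k160),(k3,k160),(k5,
    k162),(k7,k162)],[(k10,k149),(k0,k160),(k4,k164),(k2,k166),(k6,k180),(k8,k184)],[(k11,k151),(k1,k154),(k7,k164),
    (k3,k166),(k5,k168),(k9,k178)],[(k6,k152),(k0,k162),(k10,k163),(k2,k168),(k4,k170),(k8,k170)],[(k11,k157),(k3,
    k164),(k1,k166),(k7,k166),(k9,k166),(k5,k170)],[(k10,k149),(k0,k162),(k6,k162),(k8,k162),(k2,k164),(k4,k166)],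
    [(k5,k152),(k1,k158),(k7,k162),(k9,k162),(k11,k171),(k3,k180)],[(k0,k142),(k8,k144),(k10,k153),(k6,k162),(k4,
    k166),(k2,k178)],[(k1,k142),(k9,k144),(k11,k153),(k7,k162),(k5,k170),(k3,k184)],[(k0,k129),(k2,k151),(k8,k153),
    (k4,k157),(k10,k160),(k6,k171)],[(k1,k149),(k3,k149),(k7,k149),(k9,k153),(k11,k160),(k5,k163)]]
    [] k0
    [[k2,k1,k0,k0,k0,k0],[k2,k0,k0,k0,k1,k0],[k2,k0,k0,k0,k0,k1],[k1,k1,k0,k0,k0,k1],[k1,k0,k1,k0,k1,k0],[k1,k0,k1,k0,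
    k0,k1],[k1,k0,k0,k1,k1,k0],[k1,k0,k0,k1,k0,k1],[k1,k0,k0,k0,k2,k0],[k1,k0,k0,k0,k1,k1],[k1,k0,k0,k0,k0,k2],[k0,k2,
    k0,k0,k0,k1],[k0,k1,k1,k0,k0,k1],[k0,k1,k0,k0,k0,k2],[k0,k0,k1,k1,k0,k1],[k0,k0,k0,k1,k2,k0],[k0,k0,k0,k1,k1,k1],
    [k0,k0,k0,k0,k3,k0],[k0,k0,k0,k0,k2,k1],[k0,k0,k0,k0,k1,k2]]
    [.ref k9 k0 [(z1,[z4,y5,y2]),(z1,[y5,z10,z4]),(z1,[y2,z4,z1,z3]),(z1,[z1,y5,y2,y3,z3])],.ref k106 k1 [(z1,[y2,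
    y1]),(z1,[z1]),(z1,[z0,y5,y2,y4,z4]),(z1,[z0,z1,z0,z2])],.ref k176 k8 [(z1,[y1,z12,z5,z10,y10]),(z1,[z1,y10,y4,y8,
    z8]),(z1,[z0,z5,z2,z4,y4]),(z1,[z0,y5,y2,y5,z5])],.ref (nat_lit 427) k0 [(z1,[y4,z5,z2]),(z1,[z5,y5,y2]),(z1,[z2,
    y2,y1,z1]),(z1,[y1,z0,z0,y1,z1])],.ref k8 k10 [(z1,[z0,z0,z1,y5]),(z1,[z0,z1,z0,z2]),(z1,[y1,z1,z0,z3]),(z1,[z1,
    y1,z0,y2])],.ref k137 k8 [(z1,[y1,z5,z2,z5,y4]),(z1,[z1,y3,y1,y3,z2]),(z1,[z0,z5,z2,z4,y4]),(z1,[z0,y5,y2,y5,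
    z5])],.ref k132 k10 [(z1,[z0,z0,z1,y5]),(z1,[z0,z1,z0,z2]),(z1,[y2,z0,y1,z5,z2]),(z1,[z2,z0,z1,y3,y2])],
    .ref k125 k8 [(z1,[y1,z7,z3,z6,y6]),(z1,[z1,y5,y2,y4,z4]),(z1,[z0,z5,z2,z4,y4]),(z1,[z0,y5,y2,y5,z5])],
    .ref k8 k10 [(z1,[z0,z0,z1,y5]),(z1,[z0,z1,z0,z2]),(z2,[y1,z1,z0,z4]),(z2,[z1,y1,z0,y2])],.ref k9 k0 [(z1,[z2,
    z1]),(z2,[y5,z5,z3]),(z1,[y1,z1,z0,z3]),(z2,[z1,y7,y3,y6,z6])],.ref k137 k8 [(z2,[y1,z9,z4,z8,y8]),(z2,[z1,y5,y2,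
    y4,z4]),(z1,[z0,z5,z2,z4,y4]),(z1,[z0,y5,y2,y5,z5])],.ref k106 k1 [(z1,[z2,y5,y2]),(z1,[y1,z2,z1]),(z1,[z0,y5,y2,
    y4,z4]),(z1,[z0,z1,z0,z2])],.ref k132 k10 [(z1,[z0,z0,z1,y5]),(z1,[z0,z1,z0,z2]),(z1,[z2,z0,y1,z5]),(z1,[y2,z0,z1,
    y3])],.ref k33 k10 [(z1,[z0,z0,z1,y5]),(z1,[z0,z1,z0,z2]),(z1,[z2,z0,y1,z5]),(z1,[y2,z0,z1,y1])],
    .ref (nat_lit 427) k0 [(z1,[y4,y3,y2,z0,z4]),(z1,[z5,z5,z3,z0,y5]),(z1,[z2,z2,z1,z1,y2]),(z1,[y1,y2,y1,y1,z2])],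
    .ref k33 k10 [(z1,[z0,z0,z1,y5]),(z1,[z0,z1,z0,z2]),(z1,[y2,y2,y1,z3,z2]),(z1,[z2,z2,z1,z1,y2])],.ref k9 k0 [(z1,
    [z4,z7,z2,z4,y4]),(z1,[y5,y5,y1,y5,z5]),(z1,[y2,y2,y1,z1,z2]),(z1,[z1,y2,y1,y2,z2])],.ref (nat_lit 456) k4 [(z1,
    [y1,z6,z3,z6,y6]),(z1,[z0,z5,z2,z4,y4]),(z1,[z0,y5,y2,y5,z5]),(z1,[z0,y2,y1,y1,z2])],.ref k8 k10 [(z1,[z0,z0,z1,
    y5]),(z1,[z0,z1,z0,z2]),(z1,[y1,z0,z0,z2]),(z1,[z1,z0,z0,y1])],.ref k137 k8 [(z1,[y1,z4,z2,z4,y4]),(z1,[z1,y2,y1,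
    y2,z2]),(z1,[z0,z5,z2,z4,y4]),(z1,[z0,y5,y2,y5,z5])]],
    .lp [k160,k150,k164,k158,k176,k150] [k11,k11,k16,k16,k9,k9,k12,k12,k6,k0,k16,k16] k0 [[k0,k0,k30,k0,k0,k0,k0,k0,k14],
    [k0,k0,k0,k0,k0,k32],[k0,k0,k0,k0,k34,k0,k0,k0,k0,k0,k20],[k0,k30,k0,k0,k0,k0,k0,k28],[k32,k0,k0,k0,k0,k0,k24],
    [k0,k0,k0,k34,k0,k0,k0,k0,k0,k36],[k0,k0,k28,k0,k0,k0,k0,k0,k6],[k0,k0,k0,k0,k0,k24,k0,k0,k0,k0,k0,k46],[k0,k0,k0,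
    k0,k36,k0,k0,k0,k0,k0,k34],[k0,k14,k0,k0,k0,k0,k0,k6],[k0,k0,k0,k0,k0,k0,k46],[k0,k0,k0,k20,k0,k0,k0,k0,k0,
    k34]] (nat_lit 480) k5
    [[(k8,k131),(k2,k135),(k10,k155),(k0,k160),(k4,k162),(k6,(nat_lit 205))],[(k5,k132),(k11,k141),(k3,k155),(k1,
    k160),(k9,k171),(k7,k191)],[(k4,k125),(k10,k150),(k6,k154),(k0,k155),(k8,k174),(k2,k180)],[(k7,k120),(k1,k135),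
    (k11,k150),(k5,k157),(k3,k180),(k9,k194)],[(k0,k132),(k6,k133),(k2,k157),(k8,k167),(k10,k177),(k4,k198)],[(k3,
    k125),(k9,k149),(k7,k161),(k1,k162),(k11,k193),(k5,k198)],[(k2,k120),(k8,k128),(k10,k154),(k4,k161),(k6,k182),(k0,
    k191)],[(k5,k133),(k11,k148),(k3,k154),(k9,k170),(k7,k182),(k1,(nat_lit 205))],[(k10,k120),(k4,k149),(k6,k170),
    (k0,k171),(k8,k182),(k2,k194)],[(k7,k128),(k1,k131),(k11,k160),(k5,k167),(k3,k174),(k9,k182)],[(k0,k141),(k6,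
    k148),(k2,k150),(k8,k160),(k10,k184),(k4,k193)],[(k9,k120),(k3,k150),(k7,k154),(k1,k155),(k5,k177),(k11,k184)]]
    [] k0
    [[k2,k1,k0,k0,k0,k0],[k2,k0,k1,k0,k0,k0],[k2,k0,k0,k0,k1,k0],[k2,k0,k0,k0,k0,k1],[k1,k2,k0,k0,k0,k0],[k1,k1,k1,k0,
    k0,k0],[k1,k1,k0,k0,k0,k1],[k1,k0,k1,k0,k1,k0],[k1,k0,k0,k0,k1,k1],[k0,k2,k1,k0,k0,k0],[k0,k2,k0,k1,k0,k0],[k0,k1,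
    k1,k1,k0,k0],[k0,k1,k1,k0,k0,k1],[k0,k1,k0,k2,k0,k0],[k0,k1,k0,k1,k1,k0],[k0,k1,k0,k1,k0,k1],[k0,k1,k0,k0,k1,k1],
    [k0,k0,k1,k2,k0,k0],[k0,k0,k1,k1,k1,k0],[k0,k0,k0,k1,k1,k1],[k0,k0,k0,k0,k2,k1],[k0,k0,k0,k0,k1,k2]]
    [.ref (nat_lit 444) k2 [(z1,[y1,z2,z1]),(z1,[z0,y1,y1,z1]),(z1,[z1,y2])],.ref (nat_lit 330) k5 [(z1,[y1,y2,y4,
    z4]),(z1,[y2,z2,z1,z2]),(z1,[z2,z1,z2,y2])],.ref (nat_lit 447) k8 [(z1,[z1,z2,z4,y4]),(z1,[y1,y3,y5,z5]),(z1,[z0,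
    y1,y2,z2])],.ref (nat_lit 449) k0 [(z1,[z1]),(z1,[y1,z2,z2]),(z1,[y1,y2,y4,z4])],.ref (nat_lit 262) k0 [(z1,[z0,
    z1]),(z2,[z1,y1]),(z1,[z0,y1,y1,z1])],.ref (nat_lit 262) k0 [(z1,[z0,z1]),(z1,[z1,z0,z1,y1]),(z1,[z0,y1,y1,z1])],
    .ref (nat_lit 450) k0 [(z1,[z0,z1]),(z1,[z1,y1]),(z1,[z0,y1,y1,z1])],.ref (nat_lit 248) k5 [(z1,[y1,y1,y2,z2]),
    (z1,[y2,z0,y1,z2]),(z1,[z2,z1,z2,y2])],.ref (nat_lit 330) k5 [(z1,[y1,y2,y3,z3]),(z1,[y2,z2,z3]),(z1,[z2,z1])],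
    .ref (nat_lit 455) k0 [(z1,[z0,z1]),(z1,[z1,z1,z1,y1]),(z1,[z0,y1,y1,z1])],.ref (nat_lit 432) k0 [(z1,[z0,z1]),
    (z1,[z1,z0,y1]),(z1,[z0,y1,y1,z1])],.ref (nat_lit 330) k5 [(z1,[z1,y2,y3,z2]),(z1,[z2,z2,z3,y2]),(z1,[y2,z1,z0,
    z2])],.ref (nat_lit 329) k0 [(z1,[z0,z1]),(z1,[z1,z1,z1,y1]),(z1,[z0,y1,y1,z1])],.ref (nat_lit 444) k2 [(z1,[z1,
    z0,y1]),(z1,[z0,y1,y1,z1]),(z1,[y1,z0,z2])],.ref k173 k4 [(z1,[y1,z0,z1]),(z1,[y1,z1,z1]),(z1,[z1])],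
    .ref (nat_lit 248) k5 [(z1,[z1,y1,y2,z1]),(z1,[z2,z0,y1]),(z1,[y2,z1,z2])],.ref (nat_lit 262) k0 [(z1,[z0,z1]),
    (z1,[z1]),(z1,[z0,y1,y1,z1])],.ref (nat_lit 457) k0 [(z1,[z0,z1]),(z1,[y1,y1,z1,z1]),(z1,[z0,y1,y1,z1])],
    .ref (nat_lit 450) k0 [(z1,[z0,z1]),(z1,[y1,y1,z0,z1]),(z1,[z0,y1,y1,z1])],.ref (nat_lit 262) k0 [(z1,[z0,z1]),
    (z1,[y1,z0,z1]),(z1,[z0,y1,y1,z1])],.ref (nat_lit 248) k5 [(z1,[y1,y1,y1,z1]),(z1,[y2,z0,z1]),(z1,[z2,z1])],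
    .ref k173 k4 [(z1,[z1]),(z1,[z1,z1]),(z1,[y1,z0,z1])]],
    .leafM k0 [k1,k2,k3,k4,k5,k0] [(z1,[y1,y1,z1])] [],
    .leafM k1 [k0,k1,k2,k3,k4,k5] [(z1,[y1,z0,y1,z1]),(z1,[z1,z0,z1])] [],
    .lp [(nat_lit 8502),(nat_lit 9374),(nat_lit 8938),(nat_lit 8720),(nat_lit 8284),(nat_lit 8284)] [(nat_lit 1091),
    (nat_lit 1091),(nat_lit 655),(nat_lit 655),(nat_lit 873),(nat_lit 873),(nat_lit 982),(nat_lit 982),(nat_lit 1200),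
    (nat_lit 1200),(nat_lit 2400),k0] k0 [[k0,k0,k0,k0,k0,k0,(nat_lit 1090),k0,(nat_lit 3052)],[k0,k0,k0,k0,k0,
    (nat_lit 436),k0,k0,k0,k0,k0,(nat_lit 218)],[k0,k0,k0,k0,k0,k0,k0,k0,k0,k0,(nat_lit 1962)],[k0,k0,k0,k0,k0,k0,k0,
    (nat_lit 436)],[(nat_lit 436),k0,k0,k0,k0,k0,(nat_lit 1090)],[k0,k0,k0,k0,k0,k0,k0,k0,k0,(nat_lit 654)],[k0,k0,
    (nat_lit 436),k0,k0,k0,k0,k0,(nat_lit 1744)],[k0,(nat_lit 1090),k0,k0,k0,(nat_lit 1090)],[k0,k0,k0,k0,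
    (nat_lit 654),k0,k0,k0,k0,k0,(nat_lit 436)],[k0,(nat_lit 3052),k0,k0,k0,k0,k0,(nat_lit 1744)],[(nat_lit 218)],[k0,
    k0,k0,(nat_lit 1962),k0,k0,k0,k0,k0,(nat_lit 436)]] (nat_lit 26160) k5
    [[(k2,(nat_lit 6976)),(k10,(nat_lit 7193)),(k8,(nat_lit 7957)),(k6,(nat_lit 8611)),(k0,(nat_lit 8720)),(k4,
    (nat_lit 8720))],[(k11,(nat_lit 6541)),(k9,(nat_lit 7303)),(k1,(nat_lit 8720)),(k5,(nat_lit 8720)),(k3,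
    (nat_lit 8938)),(k7,(nat_lit 9047))],[(k10,(nat_lit 7411)),(k4,(nat_lit 8720)),(k0,(nat_lit 8938)),(k2,
    (nat_lit 9374)),(k6,(nat_lit 10137)),(k8,(nat_lit 11881))],[(k1,(nat_lit 6976)),(k7,(nat_lit 9047)),(k5,
    (nat_lit 9156)),(k9,(nat_lit 9265)),(k3,(nat_lit 9374)),(k11,(nat_lit 10029))],[(k6,(nat_lit 8393)),(k8,
    (nat_lit 8611)),(k0,(nat_lit 8720)),(k4,(nat_lit 8938)),(k2,(nat_lit 9156)),(k10,(nat_lit 9373))],[(k9,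
    (nat_lit 7521)),(k1,(nat_lit 8720)),(k3,(nat_lit 8720)),(k7,(nat_lit 8829)),(k5,(nat_lit 8938)),(k11,
    (nat_lit 10465))],[(k10,(nat_lit 7302)),(k8,(nat_lit 7848)),(k4,(nat_lit 8829)),(k0,(nat_lit 9047)),(k2,
    (nat_lit 9047)),(k6,(nat_lit 9810))],[(k11,(nat_lit 7958)),(k5,(nat_lit 8393)),(k9,(nat_lit 8502)),(k1,
    (nat_lit 8611)),(k7,(nat_lit 9810)),(k3,(nat_lit 10137))],[(k10,(nat_lit 7084)),(k0,(nat_lit 7303)),(k4,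
    (nat_lit 7521)),(k6,(nat_lit 8502)),(k2,(nat_lit 9265)),(k8,(nat_lit 10028))],[(k7,(nat_lit 7848)),(k1,
    (nat_lit 7957)),(k5,(nat_lit 8611)),(k11,(nat_lit 9484)),(k9,(nat_lit 10028)),(k3,(nat_lit 11881))],[(k0,
    (nat_lit 6541)),(k6,(nat_lit 7958)),(k10,(nat_lit 8720)),(k8,(nat_lit 9484)),(k2,(nat_lit 10029)),(k4,
    (nat_lit 10465))],[(k9,(nat_lit 7084)),(k1,(nat_lit 7193)),(k7,(nat_lit 7302)),(k3,(nat_lit 7411)),(k11,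
    (nat_lit 8720)),(k5,(nat_lit 9373))]]
    [] k0
    [[k2,k1,k0,k0,k0,k0],[k2,k0,k0,k0,k1,k0],[k2,k0,k0,k0,k0,k1],[k1,k2,k0,k0,k0,k0],[k1,k1,k1,k0,k0,k0],[k1,k1,k0,k0,
    k0,k1],[k1,k0,k1,k0,k1,k0],[k1,k0,k1,k0,k0,k1],[k1,k0,k0,k1,k1,k0],[k1,k0,k0,k1,k0,k1],[k1,k0,k0,k0,k2,k0],[k1,k0,
    k0,k0,k1,k1],[k1,k0,k0,k0,k0,k2],[k0,k1,k0,k1,k0,k1],[k0,k0,k2,k0,k1,k0],[k0,k0,k1,k1,k1,k0],[k0,k0,k0,k2,k0,k1],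
    [k0,k0,k0,k1,k1,k1],[k0,k0,k0,k1,k0,k2],[k0,k0,k0,k0,k1,k2]]
    [.ref k12 k0 [(z2,[z3,z0,y1]),(z1,[z0,z0,z1]),(z2,[y9,z18,z3,z2]),(z1,[z3,y6,y1,z0,z1]),(z2,[y3,z0,y1,y2,y2,z6])],
    .ref k12 k0 [(z1,[z3,z0,z1,z1,z1,y3]),(z1,[z0,z0,z1]),(z1,[y9,z9,y3,y2,y3,z9]),(z1,[z6,y6,z2,z2,z3,y6]),(z1,[y3,
    z0,y2,y2,y2,z6])],.ref k12 k0 [(z1,[z1,z1]),(z1,[z0,z0,z1]),(z1,[y3,z6,z0,z1]),(z1,[z2,y4,z0,z0,z1]),(z1,[y1,y1,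
    y1,y1,y1,z3])],.ref k12 k0 [(z1,[z3,z0,y2]),(z1,[z0,z0,z1]),(z1,[y9,z9,z6,z1]),(z1,[z6,y6,y4,z0,z1]),(z1,[y3,z0,
    z1,y1,y1,z3])],.ref k12 k0 [(z2,[y3,z9,z1,z1]),(z1,[z0,z0,z1]),(z2,[z9,y9,y3,y1]),(z1,[y3,z3,z1,z1,z1]),(z2,[z3,
    y9,y3,y3,y2,z6])],.ref k12 k0 [(z2,[z3,z3,y1]),(z1,[z0,z0,z1]),(z2,[y9,z9,z3,z2]),(z1,[z3,y3,y1,z0,z1]),(z2,[y3,
    y3,y1,y2,y2,z6])],.ref k12 k0 [(z3,[y3,z9,y1,z0,y1,z3]),(z1,[z0,z0,z1]),(z1,[z3,z0,z1,z1,z1,y3]),(z3,[y6,z0,y2,z0,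
    z1,z6]),(z3,[z3,y9,y2,y3,y2,z6])],.ref k12 k0 [(z1,[y3,z6,z0,z1]),(z1,[z0,z0,z1]),(z1,[z9,y9,z0,y2]),(z1,[y6,z6,
    z0,z2,z1]),(z1,[z3,y6,y1,y2,y1,z3])],.ref k12 k0 [(z2,[z3,z6,z1,z1,z0,y3]),(z1,[z0,z0,z1]),(z2,[y9,z0,y3,y1,z0,
    z9]),(z1,[z3,z0,z1,z1,z1,y3]),(z2,[y3,y6,y3,y3,y2,z9])],.ref k12 k0 [(z4,[z3,z9,z0,z0,y1]),(z1,[z0,z0,z1]),(z4,
    [y9,z9,z0,z4,z3]),(z2,[z3,y3,z0,z0,z1]),(z4,[y3,y9,y4,y4,y3,z12])],.ref k12 k0 [(z1,[y3,z0,y2,y2,y2,z6]),(z1,[z0,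
    z0,z1]),(z1,[z9,z9,z6,z7,z6,y18]),(z1,[y6,y6,y4,y4,y3,z12]),(z1,[z3,z0,z1,z1,z1,y3])],.ref k12 k0 [(z1,[z3,z3,z1,
    z1,z1,y3]),(z1,[z0,z0,z1]),(z1,[y9,z0,y3,y2,y3,z9]),(z1,[z6,z0,z2,z2,z3,y6]),(z1,[y3,y3,y2,y2,y2,z6])],
    .ref k12 k0 [(z1,[z1,z2]),(z1,[z0,z0,z1]),(z1,[y3,z3,z0,z1]),(z1,[z2,y2,z0,z0,z1]),(z1,[y1,y2,y1,y1,y1,z3])],
    .ref k12 k0 [(z3,[z3,z9,y1,z0,y1]),(z1,[z0,z0,z1]),(z1,[y3,z0,z1,z1,z1]),(z3,[z6,z0,y2,z0,z1]),(z3,[y3,y9,y2,y3,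
    y2,z9])],.ref k12 k0 [(z7,[y3,z18,y1,z1,y1,z3]),(z1,[z0,z0,z1]),(z7,[z9,z9,z3,z4,z3,y9]),(z7,[y6,y6,y2,z2,z5,z6]),
    (z7,[z3,y18,y6,y8,y6,z18])],.ref k12 k0 [(z2,[y3,z3,y1,z0,z0,z3]),(z1,[z0,z0,z1]),(z2,[z9,z9,z3,z2,z0,y9]),(z1,
    [y3,y3,y1,z0,z1,z3]),(z2,[z3,y3,y1,y2,y2,z3])],.ref k12 k0 [(z5,[z3,z15,z0,z0,y2]),(z1,[z0,z0,z1]),(z5,[y9,z0,z0,
    z5,z6]),(z5,[z6,z0,z0,z0,z1]),(z5,[y3,y15,y5,y5,y3,z15])],.ref k12 k0 [(z2,[z3,z9,z1,z1,z0,y3]),(z1,[z0,z0,z1]),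
    (z2,[y9,y9,y3,y1,z0,z9]),(z1,[z3,z3,z1,z1,z1,y3]),(z2,[y3,y9,y3,y3,y2,z9])],.ref k12 k0 [(z4,[z3,z12,z0,z0,y1]),
    (z1,[z0,z0,z1]),(z4,[y9,z0,z0,z4,z3]),(z2,[z3,z0,z0,z0,z1]),(z4,[y3,y12,y4,y4,y3,z12])],.ref k12 k0 [(z1,[z3,z6,
    z1,z1,z1,y3]),(z1,[z0,z0,z1]),(z1,[y9,y9,y3,y2,y3,z9]),(z1,[z6,z6,z2,z2,z3,y6]),(z1,[y3,y6,y2,y2,y2,z6])]]]

noncomputable def cT6_3_n10_3 : List TN :=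
  [.lp [(nat_lit 628),(nat_lit 650),(nat_lit 656),(nat_lit 646),(nat_lit 656),(nat_lit 600)] [k14,k14,k3,k3,k0,k0,k5,k5,
    k0,k0,k28,k28] k0 [[k0,k0,k0,k0,k0,k0,k42,k0,k22],[k0,k0,k0,k0,k0,k6,k0,k0,k0,k0,k0,k12],[k0,k0,k0,k0,k0,k0,k0,k0,
    k8,k0,k8],[k0,k0,k0,k0,k0,k0,k0,k26],[k6],[k0,k0,k0,k0,k0,k0,k0,k0,k0,k0,k0,k10],[k0,k0,k26],[k0,k42,k0,k0,k0,k0,
    k0,k0,k0,k38],[k0,k0,k0,k0,k0,k0,k38,k0,k0,k0,k114],[k0,k22,k0,k8],[k12,k0,k0,k0,k10],[k0,k0,k0,k8,k0,k0,k0,k0,k0,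
    k114]] (nat_lit 1920) k5
    [[(k8,(nat_lit 528)),(k10,(nat_lit 614)),(k2,(nat_lit 631)),(k6,(nat_lit 637)),(k0,(nat_lit 640)),(k4,
    (nat_lit 652))],[(k11,(nat_lit 592)),(k9,(nat_lit 600)),(k3,(nat_lit 639)),(k1,(nat_lit 640)),(k5,(nat_lit 642)),
    (k7,(nat_lit 643))],[(k10,(nat_lit 613)),(k0,(nat_lit 639)),(k4,(nat_lit 647)),(k2,(nat_lit 650)),(k8,
    (nat_lit 675)),(k6,(nat_lit 690))],[(k11,(nat_lit 617)),(k1,(nat_lit 631)),(k7,(nat_lit 648)),(k3,(nat_lit 650)),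
    (k5,(nat_lit 653)),(k9,(nat_lit 679))],[(k6,(nat_lit 625)),(k10,(nat_lit 636)),(k0,(nat_lit 642)),(k2,
    (nat_lit 653)),(k4,(nat_lit 656)),(k8,(nat_lit 664))],[(k11,(nat_lit 628)),(k3,(nat_lit 647)),(k7,(nat_lit 651)),
    (k1,(nat_lit 652)),(k5,(nat_lit 656)),(k9,(nat_lit 656))],[(k10,(nat_lit 613)),(k0,(nat_lit 643)),(k6,
    (nat_lit 646)),(k2,(nat_lit 648)),(k4,(nat_lit 651)),(k8,(nat_lit 651))],[(k5,(nat_lit 625)),(k1,(nat_lit 637)),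
    (k7,(nat_lit 646)),(k9,(nat_lit 651)),(k11,(nat_lit 661)),(k3,(nat_lit 690))],[(k0,(nat_lit 600)),(k8,
    (nat_lit 618)),(k10,(nat_lit 628)),(k6,(nat_lit 651)),(k4,(nat_lit 656)),(k2,(nat_lit 679))],[(k1,(nat_lit 528)),
    (k9,(nat_lit 618)),(k11,(nat_lit 628)),(k7,(nat_lit 651)),(k5,(nat_lit 664)),(k3,(nat_lit 675))],[(k0,
    (nat_lit 592)),(k2,(nat_lit 617)),(k4,(nat_lit 628)),(k8,(nat_lit 628)),(k6,(nat_lit 661)),(k10,(nat_lit 714))],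
    [(k3,(nat_lit 613)),(k7,(nat_lit 613)),(k1,(nat_lit 614)),(k9,(nat_lit 628)),(k5,(nat_lit 636)),(k11,
    (nat_lit 714))]]
    [] k0
    [[k2,k1,k0,k0,k0,k0],[k2,k0,k0,k0,k1,k0],[k2,k0,k0,k0,k0,k1],[k1,k1,k0,k0,k1,k0],[k1,k1,k0,k0,k0,k1],[k1,k0,k1,k0,
    k1,k0],[k1,k0,k1,k0,k0,k1],[k1,k0,k0,k1,k1,k0],[k1,k0,k0,k1,k0,k1],[k1,k0,k0,k0,k2,k0],[k1,k0,k0,k0,k1,k1],[k0,k2,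
    k0,k0,k0,k1],[k0,k1,k1,k0,k0,k1],[k0,k0,k1,k1,k0,k1],[k0,k0,k0,k1,k1,k1],[k0,k0,k0,k0,k3,k0],[k0,k0,k0,k0,k2,k1]]
    [.ref k12 k0 [(z4,[z9,y1,y3]),(z2,[y3,z1,z3]),(z2,[y3,z1,z1,z2]),(z4,[y3,z1,z1,z0,z6]),(z2,[z3,y1,y1])],
    .ref k12 k0 [(z8,[z9,z1]),(z4,[y3,z1,z4]),(z4,[y3,z1,z0,z4]),(z8,[y3,z1,z0,z0,z12]),(z4,[z3,y1])],
    .ref k12 k0 [(z4,[z6,z1,z2,z2,z3,y6]),(z6,[y6,z1,z4,y2,y3,z6]),(z6,[y6,z1,y2,z4,y3,z6]),(z12,[y6,z1,y2,y2,z15,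
    z6]),(z6,[z6,y1,z2,z2,z3,y6])],.ref k12 k0 [(z1,[z3,z0,y1]),(z3,[y6,z1,z5]),(z3,[y6,z1,z2,z3]),(z6,[y6,z1,z2,z0,
    z9]),(z3,[z6,y1,y2])],.ref k12 k0 [(z2,[z18,z1,z0,z6,z9,y18]),(z1,[y6,z0,z1,y2,y3,z6]),(z1,[y6,z0,z0,y1,y3,z6]),
    (z1,[y3,z0,z0,y1,z0,z3]),(z1,[z6,z0,z0,z2,z3,y6])],.ref k12 k0 [(z1,[z3,z0,z0,y1]),(z3,[y6,z1,z3,z2]),(z3,[y6,z1,
    z0,z5]),(z6,[y6,z1,z0,z2,z9]),(z3,[z6,y1,z0,y2])],.ref k12 k0 [(z2,[z18,z1,z6,z0,z9,y18]),(z1,[y6,z0,y1,z0,y3,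
    z6]),(z1,[y6,z0,y2,z1,y3,z6]),(z1,[y3,z0,y1,z0,z0,z3]),(z1,[z6,z0,z2,z0,z3,y6])],.ref k12 k0 [(z8,[z18,z1,z0,z0,
    y9]),(z4,[y6,z1,z4,z0,z3]),(z4,[y6,z1,z0,z4,z3]),(z8,[y6,z1,z0,z0,z15]),(z4,[z6,y1,z0,z0,y3])],.ref k12 k0 [(z2,
    [z9,z1,z3,z3,z0,y9]),(z1,[y3,z0,z0,y1,z0,z3]),(z1,[y3,z0,y1,z0,z0,z3]),(z2,[y3,z0,y1,y1,z3,z3]),(z1,[z3,z0,z1,z1,
    z0,y3])],.ref k12 k0 [(z7,[z9,z2]),(z7,[y6,z1,z7]),(z7,[y6,z1,z0,z7]),(z14,[y6,z1,z0,z0,z21]),(z7,[z6,y1])],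
    .ref k12 k0 [(z10,[z18,z5,z6,z6,z9,y18]),(z5,[y6,z0,z3,y2,y3,z6]),(z5,[y6,z0,y2,z3,y3,z6]),(z5,[y3,z0,y1,y1,z6,
    z3]),(z5,[z6,z0,z2,z2,z3,y6])],.ref k12 k0 [(z8,[y18,z1,z6,y6,y9,z18]),(z4,[z6,z1,z2,z2,z3,y6]),(z4,[z6,z1,y2,z6,
    z3,y6]),(z8,[z6,z1,y2,z2,z15,y6]),(z4,[y6,y1,z2,y2,y3,z6])],.ref k12 k0 [(z8,[y18,z1,z0,z0,y9,z18]),(z4,[z6,z1,z4,
    z0,z3,y6]),(z4,[z6,z1,z0,z4,z3,y6]),(z8,[z6,z1,z0,z0,z15,y6]),(z4,[y6,y1,z0,z0,y3,z6])],.ref k12 k0 [(z1,[y3,z0,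
    y1,z0,z0,z3]),(z3,[z6,z1,z5,z0,z0,y6]),(z3,[z6,z1,z2,z3,z0,y6]),(z6,[z6,z1,z2,z0,z9,y6]),(z3,[y6,y1,y2,z0,z0,
    z6])],.ref k12 k0 [(z1,[z9,z2,z3,z3,z0,y9]),(z1,[y6,y1,y1,y2,z0,z6]),(z1,[y6,y1,y2,y1,z0,z6]),(z2,[y6,y1,y2,y2,z3,
    z6]),(z1,[z6,z1,z2,z2,z0,y6])],.ref k12 k0 [(z2,[z3,z1]),(z1,[y1,z0,z1]),(z1,[y1,z0,z0,z1]),(z2,[y1,z0,z0,z0,z3]),
    (z1,[z1])],.ref k12 k0 [(z8,[z18,z7,z6,z6,z9,y18]),(z4,[y6,y1,z2,y2,y3,z6]),(z4,[y6,y1,y2,z2,y3,z6]),(z8,[y6,y1,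
    y2,y2,z9,z6]),(z4,[z6,z1,z2,z2,z3,y6])]],
    .lp [(nat_lit 454),(nat_lit 522),(nat_lit 482),(nat_lit 482),(nat_lit 500),(nat_lit 434)] [k34,k34,k0,k0,k20,k20,k20,
    k20,k11,k11,k44,k44] k0 [[k0,k0,k0,k0,k0,k0,k12],[k0,k0,k0,k34,k0,k28],[k34,k0,k0,k0,k0,k0,k0,k0,k0,k0,k24],[k0,
    k0,k0,k0,k0,k2,k0,k0,k0,k6],[k28,k0,k2],[k0,k0,k0,k0,k0,k0,k0,k0,k0,k24,k0,k16],[k0,k0,k0,k0,k0,k0,k0,k0,k0,k0,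
    k6],[k0,k12],[k0,k0,k6,k0,k24],[k0,k0,k0,k0,k0,k0,k0,k0,k0,k0,k0,k44],[k0,k0,k0,k0,k16,k0,k0,k0,k44],[k0,k0,k0,
    k24,k0,k0,k0,k6]] (nat_lit 1440) k5
    [[(k10,(nat_lit 444)),(k0,(nat_lit 454)),(k6,(nat_lit 462)),(k2,(nat_lit 464)),(k4,(nat_lit 484)),(k8,
    (nat_lit 521))],[(k11,(nat_lit 444)),(k1,(nat_lit 454)),(k9,(nat_lit 465)),(k3,(nat_lit 488)),(k7,(nat_lit 496)),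
    (k5,(nat_lit 502))],[(k4,(nat_lit 474)),(k10,(nat_lit 478)),(k0,(nat_lit 488)),(k2,(nat_lit 488)),(k8,
    (nat_lit 511)),(k6,(nat_lit 514))],[(k1,(nat_lit 464)),(k11,(nat_lit 484)),(k3,(nat_lit 488)),(k5,(nat_lit 502)),
    (k7,(nat_lit 504)),(k9,(nat_lit 511))],[(k4,(nat_lit 480)),(k6,(nat_lit 482)),(k10,(nat_lit 482)),(k8,
    (nat_lit 485)),(k0,(nat_lit 502)),(k2,(nat_lit 502))],[(k3,(nat_lit 474)),(k5,(nat_lit 480)),(k7,(nat_lit 482)),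
    (k11,(nat_lit 482)),(k1,(nat_lit 484)),(k9,(nat_lit 491))],[(k10,(nat_lit 442)),(k8,(nat_lit 467)),(k4,
    (nat_lit 482)),(k6,(nat_lit 482)),(k0,(nat_lit 496)),(k2,(nat_lit 504))],[(k11,(nat_lit 458)),(k1,(nat_lit 462)),
    (k5,(nat_lit 482)),(k7,(nat_lit 482)),(k9,(nat_lit 491)),(k3,(nat_lit 514))],[(k0,(nat_lit 465)),(k10,
    (nat_lit 473)),(k4,(nat_lit 491)),(k6,(nat_lit 491)),(k8,(nat_lit 500)),(k2,(nat_lit 511))],[(k7,(nat_lit 467)),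
    (k11,(nat_lit 467)),(k5,(nat_lit 485)),(k9,(nat_lit 500)),(k3,(nat_lit 511)),(k1,(nat_lit 521))],[(k10,
    (nat_lit 390)),(k0,(nat_lit 444)),(k6,(nat_lit 458)),(k8,(nat_lit 467)),(k4,(nat_lit 482)),(k2,(nat_lit 484))],
    [(k11,(nat_lit 390)),(k7,(nat_lit 442)),(k1,(nat_lit 444)),(k9,(nat_lit 473)),(k3,(nat_lit 478)),(k5,
    (nat_lit 482))]]
    [] k0
    [[k3,k0,k0,k0,k0,k0],[k2,k1,k0,k0,k0,k0],[k2,k0,k0,k1,k0,k0],[k2,k0,k0,k0,k0,k1],[k1,k1,k0,k0,k0,k1],[k1,k0,k1,k0,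
    k1,k0],[k1,k0,k1,k0,k0,k1],[k1,k0,k0,k1,k1,k0],[k1,k0,k0,k1,k0,k1],[k1,k0,k0,k0,k1,k1],[k1,k0,k0,k0,k0,k2],[k0,k1,
    k0,k0,k0,k2],[k0,k0,k1,k1,k0,k1],[k0,k0,k1,k0,k0,k2],[k0,k0,k0,k2,k0,k1],[k0,k0,k0,k1,k1,k1],[k0,k0,k0,k1,k0,k2],
    [k0,k0,k0,k0,k1,k2],[k0,k0,k0,k0,k0,k3]]
    [.ref (nat_lit 461) k10 [(z1,[z0,z0,z1,y1]),(z1,[z1]),(z1,[y2,z3,z0,z9]),(z1,[z2,y3,z0,y6])],.ref k10 k1 [(z1,[y3,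
    z1,z3]),(z1,[z2,y1,y2]),(z1,[y1,z0,z0,y1,z1]),(z1,[z1,z0,y1,z1])],.ref k71 k3 [(z1,[y1,z0,z0,y1,z1]),(z1,[y1,z0,
    y1,z0,z1]),(z1,[z1]),(z1,[y2,y1,y2,y2,z2])],.ref k163 k3 [(z1,[y1,z1,z3]),(z1,[y1,z1,z0,z3]),(z1,[z1,y1,y3,y3,
    z3]),(z1,[y2,y1])],.ref k167 k6 [(z1,[z0,z0,y1,z1]),(z1,[z1,y1,y3,y1,z1]),(z1,[y2,z1,z4]),(z1,[z2,y1,y3])],
    .ref k184 k6 [(z1,[z0,z0,y1,z1]),(z1,[y1,y1,y3,y2,z3]),(z1,[z2,y1,z0,y2]),(z1,[y2,z1,z3,z2])],.ref k167 k6 [(z1,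
    [z0,z0,y1,z1]),(z1,[z1,y1,y2,y2,z1]),(z1,[y2,z1,z2,z2]),(z1,[z2,y1,y1,y2])],.ref k10 k1 [(z1,[y3,y2,y3,y3,z3]),
    (z1,[z2,z1,z2,z2,y2]),(z1,[y1,y1,y2,y2,z2]),(z1,[z1,z1,z1,z2,y1])],.ref k167 k6 [(z1,[z0,z0,y1,z1]),(z2,[z1,y1,y3,
    y1,z1]),(z1,[y1,z0,z1,y1,z1]),(z1,[z1,z0,z0,z1,y1])],.ref k71 k3 [(z1,[y1,z0,z1]),(z1,[y1,z0,z0,z1]),(z1,[z1,z0,
    y1,y1,z1]),(z1,[y2,y1])],.ref k167 k6 [(z1,[z0,z0,y1,z1]),(z3,[z1,y2,y6,y3,z3]),(z3,[y2,z1,z6]),(z3,[z2,y1,y3])],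
    .ref (nat_lit 217) k5 [(z1,[y1,z2,z5,z5,y4]),(z1,[y1,z2,z6,z4,y4]),(z1,[z1,y2,y6,y5,z5]),(z1,[z1,y1,y3,y2,z2])],
    .ref k184 k6 [(z1,[z0,z0,y1,z1]),(z1,[z1,y1,y2,y3,z2]),(z1,[y2,y1,y2,z0,z2]),(z1,[z2,z1,z5,z0,y2])],
    .ref (nat_lit 217) k5 [(z1,[y1,z2,z4,z6,y4]),(z1,[y1,z2,z5,z5,y4]),(z1,[z1,y2,y5,y6,z5]),(z1,[z1,y1,y2,y3,z2])],
    .ref (nat_lit 217) k5 [(z1,[y1,z1,z2,z3,y2]),(z1,[y1,z1,z3,z2,y2]),(z1,[z1,y1,y3,y3,z3]),(z1,[z1])],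
    .ref k167 k6 [(z1,[z0,z0,y1,z1]),(z1,[z1,z0,y1]),(z1,[y2,y1,z0,y2,z2]),(z1,[z2,z1,z1,z2,y2])],
    .ref (nat_lit 355) k0 [(z1,[y3,y1,y3,y3,z3]),(z1,[z2,z1,z3,z2,y2]),(z1,[z2,z1,z2,z3,y2]),(z1,[z1])],
    .ref k167 k6 [(z1,[z0,z0,y1,z1]),(z2,[z1,y1,y4,y2,z2]),(z1,[y1,z0,z2]),(z1,[z1,z0,y1])],
    .ref (nat_lit 462) k0 [(z1,[z2,z3]),(z1,[y1,z0,z3]),(z1,[y1,z0,z0,z3]),(z1,[z0,y1,y2,y2,z2])]],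
    .lp [k166,k164,k164,k152,k148,k164] [k0,k0,k1,k1,k1,k1,k7,k7,k9,k9,k1,k1] k0 [[k0,k0,k0,k0,k0,k0,k0,k0,k4,k0,k4],[],
    [],[],[k0,k0,k0,k0,k0,k0,k0,k0,k0,k0,k2],[k0,k0,k0,k0,k0,k0,k0,k22,k0,k4],[k0,k0,k0,k0,k22],[k0,k0,k0,k0,k0,k0,k0,
    k0,k0,k2],[k0,k0,k0,k0,k4,k0,k2],[k0,k4,k0,k0,k0,k0,k0,k0,k0,k0,k0,k4],[k0,k0,k0,k0,k0,k0,k0,k0,k4],[k0,k4,k0,k0,
    k0,k2]] (nat_lit 480) k5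
    [[(k6,k159),(k8,k161),(k0,k162),(k4,k163),(k2,k165),(k10,k165)],[(k9,k157),(k7,k159),(k11,k161),(k1,k162),(k3,
    k165),(k5,k165)],[(k6,k158),(k8,k160),(k2,k164),(k4,k164),(k0,k165),(k10,k168)],[(k9,k156),(k7,k158),(k3,k164),
    (k5,k164),(k11,k164),(k1,k165)],[(k8,k156),(k6,k158),(k2,k164),(k4,k164),(k10,k164),(k0,k165)],[(k7,k158),(k1,
    k163),(k3,k164),(k5,k164),(k11,k168),(k9,k178)],[(k6,k130),(k8,k146),(k2,k158),(k4,k158),(k0,k159),(k10,k160)],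
    [(k7,k130),(k9,k150),(k3,k158),(k5,k158),(k1,k159),(k11,k160)],[(k8,k146),(k6,k150),(k2,k156),(k10,k156),(k0,
    k157),(k4,k178)],[(k7,k146),(k9,k146),(k5,k156),(k11,k156),(k3,k160),(k1,k161)],[(k8,k156),(k6,k160),(k10,k160),
    (k0,k161),(k2,k164),(k4,k168)],[(k9,k156),(k7,k160),(k11,k160),(k5,k164),(k1,k165),(k3,k168)]]
    [] k0
    [[k1,k0,k1,k0,k1,k0],[k1,k0,k0,k2,k0,k0],[k1,k0,k0,k1,k1,k0],[k1,k0,k0,k0,k2,k0],[k1,k0,k0,k0,k1,k1],[k0,k1,k1,k0,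
    k1,k0],[k0,k1,k0,k2,k0,k0],[k0,k1,k0,k1,k1,k0],[k0,k1,k0,k0,k2,k0],[k0,k0,k1,k2,k0,k0],[k0,k0,k1,k1,k1,k0],[k0,k0,
    k0,k3,k0,k0],[k0,k0,k0,k2,k1,k0],[k0,k0,k0,k2,k0,k1],[k0,k0,k0,k1,k2,k0],[k0,k0,k0,k1,k1,k1],[k0,k0,k0,k0,k3,k0],
    [k0,k0,k0,k0,k2,k1],[k0,k0,k0,k0,k1,k2]]
    [.ref k189 k6 [(z1,[z1,y1,y1]),(z1,[z2,y3,y2,y3,z1]),(z1,[z2,y2,y1,y2]),(z1,[y3,z3,z2,z3])],.ref k189 k6 [(z2,[z1,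
    z1,z0,z4,y2]),(z1,[z1,z0,z0,z1,y1]),(z1,[z1,z1,z1,z2,y2]),(z2,[y3,y3,y2,y6,z6])],.ref k189 k6 [(z2,[z1,z0,y1,z3,
    y1]),(z1,[z1,y1,y1]),(z1,[z1,z0,z0,z1,y1]),(z2,[y3,z0,z1,y3,z3])],.ref k189 k6 [(z2,[z1,y1,y2,z2]),(z1,[z1,y2,y2,
    y1,z1]),(z1,[z1,y1,y1]),(z2,[y3,z3,z4])],.ref (nat_lit 344) k3 [(z1,[y1,z1,z1]),(z1,[y1,z1,z0,z3]),(z1,[z1,y4,y3,
    y3,z3]),(z1,[z1,y1])],.ref (nat_lit 344) k3 [(z1,[z1,z0,z0,y1]),(z1,[z1,z0,y1,z2]),(z1,[y1,y3,y2,y2,z3]),(z1,[y1,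
    z0,z1,z1])],.ref k10 k10 [(z1,[y1,y2,z0,y6,z2]),(z1,[z0,z1,z0,z2]),(z1,[y1,y2,y1,y3,z2]),(z1,[z1,z2,z1,z4,y2])],
    .ref k10 k10 [(z1,[y1,y1,z1,y5,z1]),(z1,[z0,z1,z0,z2]),(z1,[y1,y1,z0,y2,z1]),(z1,[z1,z1,z0,z3,y1])],
    .ref k10 k10 [(z1,[y1,z0,z2,y4]),(z1,[z0,z1,z0,z2]),(z1,[y1,z0,z1,y1]),(z1,[z1,z0,y1,z2])],
    .ref (nat_lit 427) k0 [(z1,[z2,z5,z4,z2,y4]),(z1,[y3,y6,y5,y3,z6]),(z1,[y1,y2,y2,z0,z2]),(z1,[z1,z1,z1,z0,y1])],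
    .ref (nat_lit 427) k0 [(z1,[z2,z3,z2,z0,y2]),(z1,[y3,y3,y2,z0,z3]),(z1,[y1,y1,y1,z1,z1]),(z1,[z1,z0,z0,y1])],
    .ref (nat_lit 205) k0 [(z1,[z2,z9,z6,z6,y6]),(z1,[y1,y3,y2,y3,z3]),(z1,[y1,y3,y3,z0,z3]),(z1,[z1])],
    .ref (nat_lit 205) k0 [(z1,[z2,z7,z4,z4,y4]),(z1,[y1,y2,y1,y2,z2]),(z1,[y1,y2,y2,z1,z2]),(z1,[z1,y1,y1,y1,z1])],
    .ref k189 k6 [(z1,[z1,z2,z1,z3,y2]),(z1,[z2,z3,z2,z3,y3]),(z1,[z2,z4,z3,z4,y4]),(z1,[y3,y6,y4,y6,z6])],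
    .ref (nat_lit 205) k0 [(z1,[z2,z5,z2,z2,y2]),(z1,[y1,y1,z0,y1,z1]),(z1,[y1,y1,y1,z2,z1]),(z1,[z1,y2,y2,y2,z2])],
    .ref k189 k6 [(z1,[z1,z1,z0,z2,y1]),(z1,[z2,z1,z0,z1,y1]),(z1,[z2,z2,z1,z2,y2]),(z1,[y3,y3,y1,y3,z3])],
    .ref (nat_lit 205) k0 [(z1,[z2,z3]),(z1,[y1,z0,z1]),(z1,[y1,z0,z0,z3]),(z1,[z1,y3,y3,y3,z3])],.ref k189 k6 [(z1,
    [z1,z0,y1,z1]),(z1,[z2,y1,y2,y1,z1]),(z1,[z2,z0,y1]),(z1,[y3,z0,z2])],.ref k10 k10 [(z1,[z1,z0,z1,y4]),(z1,[z0,z1,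
    z0,z2]),(z1,[z1,z0,z0,y1]),(z1,[y1,z0,z0,z2])]],
    .lp [k174,k128,k166,k172,k160,k158] [k0,k0,k23,k23,k4,k4,k1,k1,k7,k7,k8,k8] k0 [[k0,k0,k32,k0,k0,k0,k0,k0,k34],[k0,k0,
    k0,k0,k0,k10,k0,k0,k0,k0,k0,k8],[k0,k0,k0,k0,k30,k0,k0,k0,k0,k0,k16],[k0,k32,k0,k0,k0,k0,k0,k42],[k10,k0,k0,k0,k0,
    k0,k38],[k0,k0,k0,k30,k0,k0,k0,k0,k0,k26],[k0,k0,k42,k0,k0,k0,k0,k0,k32],[k0,k0,k0,k0,k0,k38],[k0,k0,k0,k0,k26,k0,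
    k0,k0,k0,k0,k24],[k0,k34,k0,k0,k0,k0,k0,k32],[k8],[k0,k0,k0,k16,k0,k0,k0,k0,k0,k24]] (nat_lit 480) k5
    [[(k2,k135),(k8,k143),(k10,k166),(k4,k170),(k6,k173),(k0,k182)],[(k11,k132),(k5,k138),(k3,k151),(k9,k167),(k1,
    k182),(k7,k183)],[(k10,k135),(k4,k137),(k6,k150),(k0,k151),(k2,k160),(k8,k178)],[(k7,k120),(k1,k135),(k11,k143),
    (k5,k147),(k3,k160),(k9,k186)],[(k6,k127),(k0,k138),(k2,k147),(k8,k163),(k10,k178),(k4,k196)],[(k9,k125),(k3,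
    k137),(k7,k169),(k1,k170),(k11,k188),(k5,k196)],[(k2,k120),(k8,k140),(k10,k165),(k4,k169),(k0,k183),(k6,
    (nat_lit 210))],[(k5,k127),(k11,k133),(k3,k150),(k9,k166),(k1,k173),(k7,(nat_lit 210))],[(k4,k125),(k10,k159),(k6,
    k166),(k0,k167),(k2,k186),(k8,k192)],[(k7,k140),(k1,k143),(k11,k159),(k5,k163),(k3,k178),(k9,k192)],[(k0,k132),
    (k6,k133),(k2,k143),(k8,k159),(k10,k182),(k4,k188)],[(k3,k135),(k9,k159),(k7,k165),(k1,k166),(k5,k178),(k11,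
    k182)]]
    [] k0
    [[k2,k1,k0,k0,k0,k0],[k1,k2,k0,k0,k0,k0],[k1,k1,k1,k0,k0,k0],[k1,k1,k0,k1,k0,k0],[k1,k1,k0,k0,k0,k1],[k1,k0,k0,k1,
    k0,k1],[k1,k0,k1,k0,k1,k0],[k1,k0,k0,k0,k1,k1],[k0,k2,k1,k0,k0,k0],[k0,k2,k0,k1,k0,k0],[k0,k2,k0,k0,k0,k1],[k0,k1,
    k1,k1,k0,k0],[k0,k1,k1,k0,k0,k1],[k0,k1,k0,k1,k1,k0],[k0,k1,k0,k1,k0,k1],[k0,k1,k1,k0,k1,k0],[k0,k1,k0,k0,k0,k2],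
    [k0,k0,k1,k1,k1,k0],[k0,k0,k1,k0,k1,k1],[k0,k0,k0,k1,k1,k1]]
    [.ref (nat_lit 262) k10 [(z1,[z1,z0,z2,y2]),(z1,[z0,z0,y1,z1]),(z1,[z0,y1,y1,z1])],.ref (nat_lit 257) k7 [(z1,[y1,
    z0,y1,z1]),(z1,[y1,z1,z1]),(z1,[z1,y1])],.ref (nat_lit 439) k7 [(z1,[y1,z0,y1,z1]),(z1,[y1,z1,z1]),(z1,[z1,y1])],
    .ref (nat_lit 460) k0 [(z1,[z0,z1]),(z1,[z0,z0,z1]),(z1,[y1,z0,z0,z1])],.ref (nat_lit 262) k10 [(z1,[z1,z1,z2,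
    y2]),(z1,[z0,z0,y1,z1]),(z1,[z0,y1,y1,z1])],.ref k191 k11 [(z1,[z1,z1,z1,y1]),(z1,[z1,z0,z1,y1]),(z1,[y1,z0,z0,
    z1])],.ref (nat_lit 460) k0 [(z1,[z0,z1]),(z1,[z0,z0,z1]),(z1,[z1,y1])],.ref (nat_lit 262) k8 [(z1,[z1,z1,z2,y2]),
    (z1,[z0,y1,y1,z1]),(z1,[z0,z0,y1,z1])],.ref (nat_lit 463) k8 [(z1,[y1,z2,z4,y2]),(z1,[z0,y1,y1,z1]),(z1,[z0,z0,y1,
    z1])],.ref (nat_lit 464) k2 [(z1,[z1,z0,y2]),(z1,[y1,y1,z1,z1]),(z1,[z0,z0,z1])],.ref (nat_lit 257) k7 [(z1,[y1,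
    y1,y1,z1]),(z1,[y1,z0,z1]),(z1,[z1])],.ref (nat_lit 262) k8 [(z1,[y1,z1,z2,y1]),(z1,[z0,y1,y1,z1]),(z1,[z0,z0,y1,
    z1])],.ref (nat_lit 439) k7 [(z1,[y1,y1,y1,z1]),(z1,[y1,z0,z1]),(z1,[z1])],.ref k191 k4 [(z1,[y1,z0,z1]),(z1,[y1,
    z1,z1]),(z1,[z1])],.ref (nat_lit 460) k0 [(z1,[z0,z1]),(z1,[z0,z0,z1]),(z1,[y1,y1,z0,z1])],.ref k191 k11 [(z1,[y1,
    z1,z1]),(z1,[y1,z0,z1]),(z1,[z1])],.ref (nat_lit 262) k10 [(z1,[z1,z2,z2,y2]),(z1,[z0,z0,y1,z1]),(z1,[z0,y1,y1,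
    z1])],.ref (nat_lit 262) k10 [(z1,[y1,z1,z2,y1]),(z1,[z0,z0,y1,z1]),(z1,[z0,y1,y1,z1])],
    .ref (nat_lit 460) k0 [(z1,[z0,z1]),(z1,[z0,z0,z1]),(z1,[z1])],.ref (nat_lit 439) k7 [(z1,[z1,z0,y1]),(z1,[z1,z1,
    z1,y1]),(z1,[y1,y1,z0,z1])]],
    .tor k0 false k0 [(z1,[y1,y1,z1]),(z1,[z0,z1]),(z1,[z0,y1,z1]),(z1,[z1,z1])],
    .leafM k1 [k0,k1,k2,k3,k4,k5] [(z1,[z0,z1]),(z1,[z0,y1,z0,z1])] [],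
    .leafM k0 [k1,k2,k3,k4,k5,k0] [(z1,[y1,y1,z0,z1])] []]

/-- the nodes with numbers from 426 -/
noncomputable def cT6_3_n10 : List TN :=
  cT6_3_n10_0 ++ (cT6_3_n10_1 ++ (cT6_3_n10_2 ++ cT6_3_n10_3))

theorem cT6_3_k10 : allI (chkT 6 cT6_3_w tt6 cT6_3_s (blkF [] cT6_3_D)) cT6_3_n10 426 = true := by
  decide +kernel

end Pool.Agent.Lib_MP_fa6e45
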