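import Pool.Agent.Lib_MP_fa6e45.CSTT
import Pool.Agent.Lib_MP_fa6e45.HK

/-!
MP_fa6e45_co, stage 5: certificates (captain, generated by a program).
-/

namespace Pool.Agent.Lib_MP_fa6e45

/-- classes `0 0 0 0 0 0`, types `C0 C0 C0 C0 C0 C2` -/
noncomputable def cT6_4 : CertT :=
  ⟨[k4,k4,k4,k4,k4,k6],[(false,k0,[k0,k1,k2,k3,k4,k5]),(true,k5,[k5,k4,k3,k2,k1,k0])],[[[([z1,z0,z0,z0,z1,z1],z2)],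
    [([z1,z0,z0,z0,z1,z1],z2),([z0,z1,z1,z0,y2,z0],z0)],[([z1,z0,z0,z0,z1,z1],z2),([z0,z1,z0,y1,z0,z0],z0)],[([z1,z0,
    z0,z0,y2,z1],z0),([z0,z1,z0,z0,y1,z0],z0),([z0,z0,z1,z0,z2,z0],z2)],[([z2,z0,z0,z0,y1,z2],z2),([z0,z2,z0,z0,z1,
    z0],z2),([z0,z0,z1,z0,y1,z0],z0)],[([z2,z0,z1,z0,y2,z2],z2),([z0,z2,z1,z0,z0,z0],z2)],[([z2,z0,z1,z2,z2,z2],z6)],
    []]],
    [.leafM k0 [k0,k1,k2,k3,k4,k5] [(z1,[y1,z1])] [],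
    .leafM k0 [k0,k1,k2,k3,k4,k5] [(z1,[y1,z0,z1])] [],
    .leafM k0 [k0,k1,k2,k3,k4,k5] [(z1,[y1,z0,z1])] [],
    .tor k1 false k0 [(z1,[y1,y1,y1,z1]),(z1,[z0,z2,z1]),(z1,[z0,y1,y1,z1]),(z1,[z1,z0,z1])],
    .leafM k0 [k1,k2,k3,k4,k5,k0] [(z2,[y1,y1,z0,z2])] [],
    .lp [k34,k48,k34,k42,k42,k38] [k7,k7,k0,k0,k7,k7,k3,k3,k3,k3,k5,k5] k0 [[],[k0,k0,k0,k0,k0,k6],[k0,k0,k0,k0,k10,k0,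
    k12],[],[k6,k0,k0,k0,k0,k0,k0,k0,k0,k0,k0,k6],[k0,k0,k0,k10,k0,k0,k0,k2],[k0,k0,k0,k0,k2],[k0,k0,k0,k12],[],[],
    [k0,k0,k0,k0,k0,k6]] k120 k5
    [[(k5,k34),(k10,k36),(k11,k36),(k9,k38),(k3,k41),(k7,k44)],[(k5,k34),(k10,k36),(k11,k36),(k9,k38),(k3,k41),(k7,
    k44)],[(k4,k35),(k0,k41),(k1,k41),(k6,k45),(k8,k45),(k2,k48)],[(k9,k33),(k7,k35),(k5,k41),(k10,k43),(k11,k43),(k3,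
    k48)],[(k0,k34),(k1,k34),(k8,k38),(k2,k41),(k4,k44),(k6,k50)],[(k10,k30),(k3,k35),(k11,k36),(k7,k38),(k9,k40),(k5,
    k44)],[(k2,k35),(k4,k38),(k6,k40),(k8,k42),(k0,k44),(k1,k44)],[(k7,k40),(k10,k40),(k11,k40),(k9,k42),(k3,k45),(k5,
    k50)],[(k2,k33),(k0,k38),(k1,k38),(k4,k40),(k6,k42),(k8,k42)],[(k5,k38),(k10,k40),(k11,k40),(k7,k42),(k9,k42),(k3,
    k45)],[(k0,k36),(k1,k36),(k4,k36),(k6,k40),(k8,k40),(k2,k43)],[(k4,k30),(k0,k36),(k1,k36),(k6,k40),(k8,k40),(k2,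
    k43)]]
    [] k0
    [[k1,k0,k1,k0,k0,k1],[k1,k0,k0,k0,k1,k1],[k0,k1,k1,k0,k1,k0],[k0,k0,k1,k1,k1,k0]]
    [.ref k3 k0 [(z1,[y1,z1]),(z2,[y2,z1,z1]),(z1,[z2,y1])],.ref k4 k1 [(z2,[z2,z1,y1]),(z2,[z2,y1,z1]),(z1,[y1,z0,y1,
    z1])],.ref k3 k0 [(z2,[y2,z1,z1]),(z1,[y1,z0,z1]),(z1,[z2,z0,y1])],.ref k4 k0 [(z2,[y2,z1,y1,z2]),(z2,[y2,y1,z1,
    z2]),(z2,[z2,z1,z1,y2])]],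
    .lp [k34,k40,k44,k44,k40,k36] [k5,k5,k2,k2,k0,k0,k0,k0,k2,k2,k4,k4] k0 [[k0,k0,k2,k0,k0,k0,k4],[k0,k0,k0,k0,k0,k6,k0,
    k0,k0,k0,k6],[k0,k0,k0,k0,k0,k0,k0,k0,k2,k0,k0,k6],[k0,k2],[k6],[k0,k0,k0,k0,k0,k0,k0,k0,k0,k8],[],[k0,k4,k0,k0,
    k0,k0,k0,k0,k0,k0,k6],[k0,k0,k0,k0,k8,k0,k0,k0,k0,k0,k0,k8],[k0,k0,k0,k2],[k0,k0,k0,k6,k0,k0,k0,k0,k0,k8],[k6,k0,
    k0,k0,k0,k0,k6]] k120 k5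
    [[(k3,k31),(k9,k31),(k10,k35),(k7,k39),(k11,k43),(k5,k45)],[(k9,k33),(k11,k35),(k3,k37),(k5,k37),(k10,k41),(k7,
    k45)],[(k1,k31),(k4,k36),(k0,k37),(k8,k40),(k2,k42),(k6,k46)],[(k10,k32),(k11,k36),(k9,k40),(k3,k42),(k5,k42),(k7,
    k42)],[(k0,k37),(k2,k42),(k4,k44),(k6,k44),(k8,k44),(k1,k45)],[(k3,k36),(k10,k40),(k9,k42),(k5,k44),(k7,k44),(k11,
    k48)],[(k8,k34),(k1,k39),(k2,k42),(k4,k44),(k6,k44),(k0,k45)],[(k11,k40),(k9,k42),(k5,k44),(k7,k44),(k3,k46),(k10,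
    k46)],[(k1,k31),(k0,k33),(k2,k40),(k8,k40),(k4,k42),(k6,k42)],[(k10,k30),(k7,k34),(k11,k38),(k3,k40),(k9,k40),(k5,
    k44)],[(k0,k35),(k2,k36),(k8,k38),(k6,k40),(k1,k43),(k4,k48)],[(k8,k30),(k2,k32),(k1,k35),(k4,k40),(k0,k41),(k6,
    k46)]]
    [] k0
    [[k1,k1,k0,k0,k0,k1],[k1,k0,k0,k0,k1,k1],[k0,k0,k0,k1,k2,k0]]
    [.ref k1 k1 [(z1,[z1]),(z1,[y1,z1,y1])],.ref k2 k0 [(z1,[z1]),(z1,[z1,y1,z1])],.ref k5 k0 [(z1,[y2,z1]),(z1,[z0,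
    y1,z2])]],
    .lp [k34,k40,k44,k44,k40,k36] [k5,k5,k2,k2,k0,k0,k0,k0,k2,k2,k4,k4] k0 [[k0,k0,k2,k0,k0,k0,k4],[k0,k0,k0,k0,k0,k6,k0,
    k0,k0,k0,k6],[k0,k0,k0,k0,k0,k0,k0,k0,k2,k0,k0,k6],[k0,k2],[k6],[k0,k0,k0,k0,k0,k0,k0,k0,k0,k8],[],[k0,k4,k0,k0,
    k0,k0,k0,k0,k0,k0,k6],[k0,k0,k0,k0,k8,k0,k0,k0,k0,k0,k0,k8],[k0,k0,k0,k2],[k0,k0,k0,k6,k0,k0,k0,k0,k0,k8],[k6,k0,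
    k0,k0,k0,k0,k6]] k120 k5
    [[(k3,k31),(k9,k31),(k10,k35),(k7,k39),(k11,k43),(k5,k45)],[(k9,k33),(k11,k35),(k3,k37),(k5,k37),(k10,k41),(k7,
    k45)],[(k1,k31),(k4,k36),(k0,k37),(k8,k40),(k2,k42),(k6,k46)],[(k10,k32),(k11,k36),(k9,k40),(k3,k42),(k5,k42),(k7,
    k42)],[(k0,k37),(k2,k42),(k4,k44),(k6,k44),(k8,k44),(k1,k45)],[(k3,k36),(k10,k40),(k9,k42),(k5,k44),(k7,k44),(k11,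
    k48)],[(k8,k34),(k1,k39),(k2,k42),(k4,k44),(k6,k44),(k0,k45)],[(k11,k40),(k9,k42),(k5,k44),(k7,k44),(k3,k46),(k10,
    k46)],[(k1,k31),(k0,k33),(k2,k40),(k8,k40),(k4,k42),(k6,k42)],[(k10,k30),(k7,k34),(k11,k38),(k3,k40),(k9,k40),(k5,
    k44)],[(k0,k35),(k2,k36),(k8,k38),(k6,k40),(k1,k43),(k4,k48)],[(k8,k30),(k2,k32),(k1,k35),(k4,k40),(k0,k41),(k6,
    k46)]]
    [] k0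
    [[k1,k1,k0,k0,k0,k1],[k1,k0,k0,k0,k1,k1],[k0,k0,k0,k1,k2,k0]]
    [.ref k0 k1 [(z1,[z1])],.ref k0 k0 [(z1,[z1])],.ref k6 k1 [(z1,[y1,z2])]]]⟩

/-- classes `0 0 0 0 0 0`, types `C0 C0 C0 C0 C2 C2` -/
noncomputable def cT6_5 : CertT :=
  ⟨[k4,k4,k4,k4,k6,k6],[(true,k4,[k4,k3,k2,k1,k0,k5]),(false,k0,[k0,k1,k2,k3,k4,k5])],[[[([z1,z0,z0,z1,z1,z0],z2)],
    [([z1,z0,z1,z0,z1,z0],z2)],[([z1,z0,z0,z0,z1,z1],z2)],[]]],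
    [.leafM k3 [k4,k5,k0,k1,k2,k3] [(z1,[y1,z1])] [],
    .leafM k5 [k2,k3,k4,k5,k0,k1] [(z1,[y1,z1]),(z1,[z1])] [],
    .leafM k0 [k0,k1,k2,k3,k4,k5] [(z1,[y1,z1])] [],
    .lp [k190,k140,k160,k160,k130,k160] [k0,k16,k33,k33,k23,k23,k23,k23,k53,k23,k23,k23] k0 [[k0,k0,k60],[],[k0,k0,k0,k0,
    k20],[k0,k60,k0,k0,k0,k0,k0,k0,k0,k0,k20],[k0,k0,k0,k0,k0,k0,k40],[k0,k0,k0,k20],[],[k0,k0,k0,k0,k0,k40],[],[],[],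
    [k0,k0,k20]] (nat_lit 480) k5
    [[(k8,k137),(k5,k147),(k3,k157),(k7,k167),(k9,k167),(k10,k167)],[(k5,k123),(k8,k153),(k3,k173),(k7,k183),(k9,
    k183),(k10,k183)],[(k4,k150),(k6,k150),(k11,k150),(k1,k157),(k0,k173),(k2,(nat_lit 200))],[(k8,k120),(k7,k130),
    (k5,k150),(k9,k150),(k10,k170),(k3,(nat_lit 200))],[(k0,k123),(k1,k147),(k2,k150),(k6,k160),(k11,k160),(k4,k180)],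
    [(k9,k120),(k8,k130),(k3,k150),(k7,k160),(k10,k160),(k5,k180)],[(k2,k130),(k4,k160),(k11,k160),(k1,k167),(k0,
    k183),(k6,(nat_lit 200))],[(k8,k130),(k3,k150),(k5,k160),(k9,k160),(k10,k160),(k7,(nat_lit 200))],[(k4,k120),(k2,
    k150),(k6,k160),(k11,k160),(k1,k167),(k0,k183)],[(k2,k120),(k4,k130),(k6,k130),(k11,k130),(k1,k137),(k0,k153)],
    [(k8,k130),(k3,k150),(k5,k160),(k7,k160),(k9,k160),(k10,k160)],[(k4,k160),(k6,k160),(k11,k160),(k1,k167),(k2,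
    k170),(k0,k183)]]
    [] k0
    [[k1,k1,k0,k0,k1,k0],[k1,k0,k1,k0,k1,k0],[k0,k1,k1,k1,k0,k0],[k0,k1,k1,k0,k0,k1],[k0,k1,k0,k1,k0,k1]]
    [.ref k0 k0 [(z1,[z1])],.ref k1 k1 [(z1,[z1])],.ref k2 k1 [(z1,[y1,z1])],.ref k0 k1 [(z1,[y1,z1])],
    .ref k1 k1 [(z1,[y1,z1])]]]⟩

/-- classes `0 0 0 0 0 0`, types `C0 C0 C0 C2 C0 C2` -/
noncomputable def cT6_6 : CertT :=
  ⟨[k4,k4,k4,k6,k4,k6],[(true,k3,[k3,k2,k1,k0,k5,k4]),(false,k0,[k0,k1,k2,k3,k4,k5])],[[[([z1,z0,z1,z1,z0,z0],z2)],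
    [([z1,z1,z0,z0,z0,z1],z2)],[]]],
    [.leafM k3 [k5,k0,k1,k2,k3,k4] [(z1,[z1])] [],
    .leafM k0 [k1,k2,k3,k4,k5,k0] [(z1,[y1,z1])] [],
    .lp [k18,k18,k18,k10,k20,k10] [k1,k1,k1,k1,k1,k1,k5,k5,k0,k0,k5,k5] k0 [[],[k0,k0,k0,k2],[k2,k0,k0,k0,k0,k0,k0,k0,k0,
    k0,k0,k2],[],[],[],[],[],[],[],[k0,k0,k0,k2]] k48 k5
    [[(k6,k14),(k7,k14),(k10,k14),(k11,k14),(k3,k18),(k5,k20)],[(k6,k14),(k7,k14),(k10,k14),(k11,k14),(k3,k18),(k5,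
    k20)],[(k2,k16),(k0,k18),(k1,k18),(k4,k18),(k8,k19),(k9,k19)],[(k10,k12),(k6,k14),(k7,k14),(k11,k14),(k3,k16),(k5,
    k18)],[(k2,k18),(k4,k18),(k8,k19),(k9,k19),(k0,k20),(k1,k20)],[(k6,k14),(k7,k14),(k10,k14),(k11,k14),(k3,k18),(k5,
    k18)],[(k0,k14),(k1,k14),(k2,k14),(k4,k14),(k8,k15),(k9,k15)],[(k0,k14),(k1,k14),(k2,k14),(k4,k14),(k8,k15),(k9,
    k15)],[(k6,k15),(k7,k15),(k10,k15),(k11,k15),(k3,k19),(k5,k19)],[(k6,k15),(k7,k15),(k10,k15),(k11,k15),(k3,k19),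
    (k5,k19)],[(k0,k14),(k1,k14),(k2,k14),(k4,k14),(k8,k15),(k9,k15)],[(k2,k12),(k0,k14),(k1,k14),(k4,k14),(k8,k15),
    (k9,k15)]]
    [] k0
    [[k1,k1,k0,k1,k0,k0],[k1,k1,k0,k0,k0,k1],[k0,k1,k0,k0,k1,k1]]
    [.ref k0 k0 [(z1,[z1])],.ref k1 k1 [(z1,[z1])],.ref k0 k1 [(z1,[y1,z1])]]]⟩

/-- classes `0 0 0 0 0 0`, types `C0 C0 C0 C2 C2 C2` -/
noncomputable def cT6_7 : CertT :=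
  ⟨[k4,k4,k4,k6,k6,k6],[(true,k3,[k3,k2,k1,k0,k5,k4]),(false,k0,[k0,k1,k2,k3,k4,k5]),(false,k3,[k3,k4,k5,k0,k1,k2]),
    (true,k0,[k0,k5,k4,k3,k2,k1])],[[[([z1,z0,z0,z1,z0,z1],z2)],[]]],
    [.leafM k3 [k2,k3,k4,k5,k0,k1] [(z1,[z1])] [],
    .lp [(nat_lit 4830),(nat_lit 5750),(nat_lit 5750),(nat_lit 5980),(nat_lit 5060),(nat_lit 5060)] [(nat_lit 1152),k0,
    k116,k116,k116,k116,k1,k1,(nat_lit 461),(nat_lit 461),(nat_lit 461),(nat_lit 461)] k0 [[],[],[],[],[],[],[k0,k0,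
    k0,k0,k0,k0,k0,k0,(nat_lit 1380)],[],[k0,k0,k0,k0,k0,k0,k0,k0,k0,k0,(nat_lit 1380)],[k0,k0,k0,k0,k0,k0,k0,
    (nat_lit 1380)],[],[k0,k0,k0,k0,k0,k0,k0,k0,k0,(nat_lit 1380)]] (nat_lit 16560) k5
    [[(k8,(nat_lit 4141)),(k10,(nat_lit 5521)),(k3,(nat_lit 5866)),(k5,(nat_lit 5866)),(k6,(nat_lit 5981)),(k7,
    (nat_lit 5981))],[(k8,(nat_lit 4369)),(k10,(nat_lit 4369)),(k3,(nat_lit 4714)),(k5,(nat_lit 4714)),(k6,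
    (nat_lit 4829)),(k7,(nat_lit 4829))],[(k0,(nat_lit 4714)),(k9,(nat_lit 5405)),(k11,(nat_lit 5405)),(k2,
    (nat_lit 5750)),(k4,(nat_lit 5750)),(k1,(nat_lit 5866))],[(k8,(nat_lit 5405)),(k10,(nat_lit 5405)),(k3,
    (nat_lit 5750)),(k5,(nat_lit 5750)),(k6,(nat_lit 5865)),(k7,(nat_lit 5865))],[(k0,(nat_lit 4714)),(k9,
    (nat_lit 5405)),(k11,(nat_lit 5405)),(k2,(nat_lit 5750)),(k4,(nat_lit 5750)),(k1,(nat_lit 5866))],[(k8,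
    (nat_lit 5405)),(k10,(nat_lit 5405)),(k3,(nat_lit 5750)),(k5,(nat_lit 5750)),(k6,(nat_lit 5865)),(k7,
    (nat_lit 5865))],[(k0,(nat_lit 4829)),(k9,(nat_lit 5520)),(k11,(nat_lit 5520)),(k2,(nat_lit 5865)),(k4,
    (nat_lit 5865)),(k1,(nat_lit 5981))],[(k11,(nat_lit 4140)),(k0,(nat_lit 4829)),(k9,(nat_lit 5520)),(k2,
    (nat_lit 5865)),(k4,(nat_lit 5865)),(k1,(nat_lit 5981))],[(k10,(nat_lit 5060)),(k3,(nat_lit 5405)),(k5,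
    (nat_lit 5405)),(k6,(nat_lit 5520)),(k7,(nat_lit 5520)),(k8,(nat_lit 6440))],[(k1,(nat_lit 4141)),(k0,
    (nat_lit 4369)),(k11,(nat_lit 5060)),(k2,(nat_lit 5405)),(k4,(nat_lit 5405)),(k9,(nat_lit 6440))],[(k6,
    (nat_lit 4140)),(k8,(nat_lit 5060)),(k3,(nat_lit 5405)),(k5,(nat_lit 5405)),(k7,(nat_lit 5520)),(k10,
    (nat_lit 6440))],[(k0,(nat_lit 4369)),(k9,(nat_lit 5060)),(k2,(nat_lit 5405)),(k4,(nat_lit 5405)),(k1,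
    (nat_lit 5521)),(k11,(nat_lit 6440))]]
    [] k0
    [[k1,k0,k0,k1,k1,k0],[k1,k0,k0,k1,k0,k1],[k0,k1,k0,k0,k1,k1],[k0,k0,k1,k0,k1,k1]]
    [.ref k0 k0 [(z1,[z1])],.ref k0 k1 [(z1,[z1])],.ref k0 k2 [(z1,[y1,z1])],.ref k0 k3 [(z1,[y1,z1])]]]⟩

/-- classes `0 0 0 0 0 0`, types `C0 C0 C2 C0 C0 C2` -/
noncomputable def cT6_8 : CertT :=
  ⟨[k4,k4,k6,k4,k4,k6],[(false,k0,[k0,k1,k2,k3,k4,k5]),(true,k2,[k2,k1,k0,k5,k4,k3])],[[[([z1,z1,z1,z0,z0,z0],z2)],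
    [([z1,z0,z0,z0,z1,z1],z2)],[([z1,z0,z1,z0,z1,z0],z2)],[]]],
    [.leafM k0 [k2,k3,k4,k5,k0,k1] [(z1,[y1,z1])] [],
    .leafM k0 [k0,k1,k2,k3,k4,k5] [(z1,[y1,z1])] [],
    .leafM k1 [k0,k1,k2,k3,k4,k5] [(z1,[y1,z1]),(z1,[z1])] [],
    .lp [k8,k8,k4,k10,k10,k6] [k1,k1,k1,k1,k3,k3,k0,k0,k0,k0,k2,k2] k0 [] k24 k5
    [[(k4,k6),(k5,k6),(k10,k7),(k11,k7),(k3,k8),(k9,k9)],[(k4,k6),(k5,k6),(k10,k7),(k11,k7),(k3,k8),(k9,k9)],[(k0,k8),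
    (k1,k8),(k2,k8),(k6,k9),(k7,k9),(k8,k9)],[(k4,k6),(k5,k6),(k10,k7),(k11,k7),(k3,k8),(k9,k9)],[(k0,k6),(k1,k6),(k2,
    k6),(k6,k7),(k7,k7),(k8,k7)],[(k0,k6),(k1,k6),(k2,k6),(k6,k7),(k7,k7),(k8,k7)],[(k4,k7),(k5,k7),(k10,k8),(k11,k8),
    (k3,k9),(k9,k10)],[(k4,k7),(k5,k7),(k10,k8),(k11,k8),(k3,k9),(k9,k10)],[(k0,k9),(k1,k9),(k2,k9),(k6,k10),(k7,k10),
    (k8,k10)],[(k4,k7),(k5,k7),(k10,k8),(k11,k8),(k3,k9),(k9,k10)],[(k0,k7),(k1,k7),(k2,k7),(k6,k8),(k7,k8),(k8,k8)],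
    [(k0,k7),(k1,k7),(k2,k7),(k6,k8),(k7,k8),(k8,k8)]]
    [] k0
    [[k1,k1,k1,k0,k0,k0],[k1,k1,k0,k0,k0,k1],[k1,k0,k1,k0,k1,k0],[k0,k1,k1,k1,k0,k0]]
    [.ref k0 k0 [(z1,[z1])],.ref k1 k1 [(z1,[y1,z1])],.ref k2 k0 [(z1,[z1])],.ref k1 k0 [(z1,[y1,z1])]]]⟩

/-- classes `0 0 0 0 0 0`, types `C0 C0 C2 C0 C2 C2` -/
noncomputable def cT6_9 : CertT :=
  ⟨[k4,k4,k6,k4,k6,k6],[(true,k0,[k0,k5,k4,k3,k2,k1]),(false,k0,[k0,k1,k2,k3,k4,k5])],[[[([z1,z0,z0,z0,z1,z1],z2)],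
    [([z1,z0,z1,z0,z0,z1],z2)],[]]],
    [.leafM k0 [k0,k1,k2,k3,k4,k5] [(z1,[y1,z1])] [],
    .leafM k3 [k0,k1,k2,k3,k4,k5] [(z1,[y1,z1])] [],
    .lp [k4,k4,k2,k4,k4,k4] [k0,k0,k0,k0,k1,k1,k0,k0,k0,k0,k0,k0] k0 [] k12 k5
    [[(k4,k3),(k5,k3),(k3,k4),(k8,k4),(k9,k4),(k10,k4)],[(k4,k3),(k5,k3),(k3,k4),(k8,k4),(k9,k4),(k10,k4)],[(k0,k4),
    (k1,k4),(k2,k4),(k6,k4),(k7,k4),(k11,k4)],[(k4,k3),(k5,k3),(k3,k4),(k8,k4),(k9,k4),(k10,k4)],[(k0,k3),(k1,k3),(k2,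
    k3),(k6,k3),(k7,k3),(k11,k3)],[(k0,k3),(k1,k3),(k2,k3),(k6,k3),(k7,k3),(k11,k3)],[(k4,k3),(k5,k3),(k3,k4),(k8,k4),
    (k9,k4),(k10,k4)],[(k4,k3),(k5,k3),(k3,k4),(k8,k4),(k9,k4),(k10,k4)],[(k0,k4),(k1,k4),(k2,k4),(k6,k4),(k7,k4),
    (k11,k4)],[(k0,k4),(k1,k4),(k2,k4),(k6,k4),(k7,k4),(k11,k4)],[(k4,k3),(k5,k3),(k3,k4),(k8,k4),(k9,k4),(k10,k4)],
    [(k0,k4),(k1,k4),(k2,k4),(k6,k4),(k7,k4),(k11,k4)]]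
    [] k0
    [[k1,k1,k1,k0,k0,k0],[k1,k0,k1,k0,k0,k1],[k0,k1,k1,k1,k0,k0],[k0,k0,k1,k1,k0,k1]]
    [.ref k0 k0 [(z1,[z1])],.ref k1 k1 [(z1,[z1])],.ref k0 k1 [(z1,[y1,z1])],.ref k1 k0 [(z1,[y1,z1])]]]⟩

/-- classes `0 0 0 0 0 0`, types `C0 C2 C0 C2 C0 C2` -/
noncomputable def cT6_10 : CertT :=
  ⟨[k4,k6,k4,k6,k4,k6],[],[[[]]],
    [.lp [k0,k2,k0,k2,k0,k2] [k1,k1,k0,k0,k1,k1,k0,k0,k1,k1,k0,k0] k0 [] k4 k5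
    [[(k2,k1),(k3,k1),(k6,k1),(k7,k1),(k10,k1),(k11,k1)],[(k2,k1),(k3,k1),(k6,k1),(k7,k1),(k10,k1),(k11,k1)],[(k0,k1),
    (k1,k1),(k4,k1),(k5,k1),(k8,k1),(k9,k1)],[(k0,k1),(k1,k1),(k4,k1),(k5,k1),(k8,k1),(k9,k1)],[(k2,k1),(k3,k1),(k6,
    k1),(k7,k1),(k10,k1),(k11,k1)],[(k2,k1),(k3,k1),(k6,k1),(k7,k1),(k10,k1),(k11,k1)],[(k0,k1),(k1,k1),(k4,k1),(k5,
    k1),(k8,k1),(k9,k1)],[(k0,k1),(k1,k1),(k4,k1),(k5,k1),(k8,k1),(k9,k1)],[(k2,k1),(k3,k1),(k6,k1),(k7,k1),(k10,k1),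
    (k11,k1)],[(k2,k1),(k3,k1),(k6,k1),(k7,k1),(k10,k1),(k11,k1)],[(k0,k1),(k1,k1),(k4,k1),(k5,k1),(k8,k1),(k9,k1)],
    [(k0,k1),(k1,k1),(k4,k1),(k5,k1),(k8,k1),(k9,k1)]]
    [] k0
    []
    []]⟩

/-- classes `0 0 0 0 0 0`, types `N0 N0 N0 N1 N1 N1` -/
noncomputable def cT6_11 : CertT :=
  ⟨[k12,k12,k12,k13,k13,k13],[(false,k0,[k0,k1,k2,k3,k4,k5]),(false,k3,[k3,k4,k5,k0,k1,k2])],[[[([z1,z0,z1,z0,z1,z0],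
    z2)],[([z1,z0,z0,y1,z0,z0],z0),([z0,z1,z0,z1,z1,z0],z2)],[([z1,z0,z0,y1,z1,y1],z0),([z0,z1,z0,z1,z0,z1],z2)],
    [([z1,z0,z1,z0,z0,z1],z2)],[]]],
    [.leafM k1 [k0,k1,k2,k3,k4,k5] [(z1,[y1,z1]),(z1,[z1])] [],
    .tor k0 false k0 [(z1,[y1,y1,z1]),(z1,[z0,z1]),(z1,[z0,y1,z1]),(z1,[z1,z1])],
    .leafM k1 [k0,k1,k2,k3,k4,k5] [(z1,[z0,z1]),(z1,[z0,y1,z1])] [],
    .lp [k8,k4,k4,k10,k8,k12] [k2,k2,k4,k4,k4,k4,k1,k1,k2,k2,k0,k0] k0 [[],[],[],[],[k0,k0,k0,k0,k0,k0,k0,k0,k2],[],[],[],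
    [],[k0,k0,k0,k0,k0,k2]] k24 k5
    [[(k2,k6),(k4,k6),(k0,k8)],[(k1,k8),(k9,k8),(k11,k10)],[(k8,k6),(k6,k7),(k10,k8)],[(k1,k6),(k9,k6),(k11,k8)],[(k8,
    k6),(k6,k7),(k10,k8)],[(k1,k6),(k9,k6),(k11,k6)],[(k6,k10),(k8,k11),(k10,k11)],[(k3,k7),(k5,k7),(k7,k10)],[(k2,
    k6),(k4,k6),(k0,k8)],[(k3,k6),(k5,k6),(k7,k11)],[(k4,k6),(k2,k8),(k0,k10)],[(k3,k8),(k5,k8),(k7,k11)]]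
    [] k0
    [[k1,k1,k0,k0,k1,k0],[k1,k0,k1,k0,k1,k0]]
    [.ref k1 k0 [(z1,[z1,z1,y1]),(z1,[z0,y1,z1])],.ref k2 k1 [(z1,[y1,y1,z1]),(z1,[z1])]],
    .lp [k8,k8,k4,k10,k8,k8] [k1,k1,k1,k1,k3,k3,k0,k0,k1,k1,k1,k1] k0 [[],[],[k0,k0,k0,k0,k0,k0,k2],[],[],[],[],[k0,k0,k0,
    k2]] k24 k5
    [[(k4,k6),(k0,k8),(k2,k8)],[(k1,k8),(k9,k8),(k11,k8)],[(k8,k8),(k10,k8),(k6,k9)],[(k9,k6),(k1,k8),(k11,k8)],[(k8,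
    k6),(k10,k6),(k6,k9)],[(k1,k6),(k9,k6),(k11,k6)],[(k8,k9),(k10,k9),(k6,k10)],[(k3,k9),(k5,k9),(k7,k10)],[(k2,k6),
    (k4,k6),(k0,k8)],[(k5,k6),(k3,k8),(k7,k9)],[(k4,k6),(k0,k8),(k2,k8)],[(k5,k6),(k3,k8),(k7,k9)]]
    [] k0
    [[k1,k0,k1,k0,k1,k0],[k1,k0,k1,k0,k0,k1]]
    [.ref k0 k0 [(z1,[z1])],.ref k3 k0 [(z1,[z1])]]]⟩

/-- classes `0 0 0 0 0 0`, types `N0 N0 N0 N1 N1 N2` -/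
noncomputable def cT6_12 : CertT :=
  ⟨[k12,k12,k12,k13,k13,k14],[],[[[]]],
    [.lp [k12,k12,k14,k16,k16,k24] [k6,k6,k6,k6,k5,k5,k4,k4,k4,k4,k0,k0] k0 [[k0,k0,k0,k0,k0,k0,k2],[],[],[],[k0,k0,k0,k0,
    k0,k0,k0,k0,k2],[],[],[k0,k2],[],[k0,k0,k0,k0,k0,k2]] k48 k5
    [[(k3,k12),(k5,k13),(k7,k14)],[(k9,k12),(k10,k18),(k11,k18)],[(k1,k12),(k8,k14),(k6,k16)],[(k9,k14),(k10,k18),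
    (k11,k18)],[(k1,k13),(k6,k15),(k8,k15)],[(k9,k15),(k11,k17),(k10,k19)],[(k1,k14),(k6,k16),(k8,k18)],[(k5,k15),(k3,
    k16),(k7,k16)],[(k0,k12),(k2,k14),(k4,k15)],[(k3,k14),(k5,k15),(k7,k18)],[(k4,k17),(k0,k18),(k2,k18)],[(k0,k18),
    (k2,k18),(k4,k19)]]
    [] k0
    []
    []]⟩

/-- classes `0 0 0 0 0 0`, types `N0 N0 N0 N1 N2 N1` -/
noncomputable def cT6_13 : CertT :=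
  ⟨[k12,k12,k12,k13,k14,k13],[],[[[]]],
    [.lp [k4,k2,k2,k4,k4,k4] [k0,k0,k1,k1,k1,k1,k0,k0,k0,k0,k0,k0] k0 [] k12 k5
    [[(k2,k3),(k4,k3),(k0,k4)],[(k1,k4),(k8,k4),(k9,k4)],[(k6,k3),(k10,k3),(k11,k3)],[(k1,k3),(k8,k3),(k9,k3)],[(k6,
    k3),(k10,k3),(k11,k3)],[(k1,k3),(k8,k3),(k9,k3)],[(k6,k4),(k10,k4),(k11,k4)],[(k3,k3),(k5,k3),(k7,k4)],[(k2,k3),
    (k4,k3),(k0,k4)],[(k2,k3),(k4,k3),(k0,k4)],[(k3,k3),(k5,k3),(k7,k4)],[(k3,k3),(k5,k3),(k7,k4)]]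
    [] k0
    []
    []]⟩

/-- classes `0 0 0 0 0 0`, types `N0 N0 N0 N1 N2 N2` -/
noncomputable def cT6_14 : CertT :=
  ⟨[k12,k12,k12,k13,k14,k14],[(false,k0,[k0,k1,k2,k3,k4,k5])],[[[([z1,z0,z1,z0,z1,z0],z2)],[]]],
    [.leafM k5 [k2,k3,k4,k5,k0,k1] [(z1,[y1,z1]),(z1,[z1])] [],
    .lp [(nat_lit 53856),(nat_lit 43758),(nat_lit 63648),(nat_lit 77792),(nat_lit 126412),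
    (nat_lit 82368)] [(nat_lit 36278),(nat_lit 36278),(nat_lit 41327),(nat_lit 41327),(nat_lit 31382),(nat_lit 31382),
    (nat_lit 24310),(nat_lit 24310),k0,k0,(nat_lit 22022),(nat_lit 22022)] k0 [[k0,k0,k0,k0,k0,k0,k0,k0,k0,k0,k0,
    (nat_lit 9724)],[],[],[],[k0,k0,k0,k0,k0,k0,k0,k0,k0,(nat_lit 9724)],[],[],[],[k0,k0,k0,k0,k0,(nat_lit 9724)],[],
    [k0,(nat_lit 9724)]] (nat_lit 233376) k5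
    [[(k3,(nat_lit 58531)),(k5,(nat_lit 58752)),(k7,(nat_lit 65824))],[(k10,(nat_lit 58388)),(k8,(nat_lit 90134)),(k9,
    (nat_lit 90134))],[(k1,(nat_lit 58531)),(k6,(nat_lit 60775)),(k11,(nat_lit 63063))],[(k10,(nat_lit 63063)),(k8,
    (nat_lit 85085)),(k9,(nat_lit 85085))],[(k1,(nat_lit 58752)),(k6,(nat_lit 70720)),(k11,(nat_lit 73008))],[(k10,
    (nat_lit 73008)),(k8,(nat_lit 85306)),(k9,(nat_lit 95030))],[(k1,(nat_lit 65824)),(k6,(nat_lit 77792)),(k11,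
    (nat_lit 89804))],[(k3,(nat_lit 60775)),(k5,(nat_lit 70720)),(k7,(nat_lit 77792))],[(k2,(nat_lit 85085)),(k0,
    (nat_lit 90134)),(k4,(nat_lit 95030))],[(k2,(nat_lit 85085)),(k4,(nat_lit 85306)),(k0,(nat_lit 90134))],[(k3,
    (nat_lit 63063)),(k5,(nat_lit 73008)),(k7,(nat_lit 89804))],[(k0,(nat_lit 58388)),(k2,(nat_lit 63063)),(k4,
    (nat_lit 73008))]]
    [] k0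
    [[k0,k1,k0,k1,k0,k1]]
    [.ref k0 k0 [(z1,[y1,z1])]]]⟩

/-- classes `0 0 0 0 0 0`, types `N0 N0 N0 N2 N1 N2` -/
noncomputable def cT6_15 : CertT :=
  ⟨[k12,k12,k12,k14,k13,k14],[(false,k0,[k0,k1,k2,k3,k4,k5])],[[[([z1,z1,z0,z0,z0,z1],z2)],[]]],
    [.leafM k6 [k2,k3,k4,k5,k0,k1] [(z1,[z1])] [],
    .lp [k6,k6,k6,k6,k12,k10] [k3,k3,k3,k3,k3,k3,k3,k3,k0,k0,k1,k1] k0 [[],[],[k0,k0,k0,k0,k0,k0,k0,k0,k0,k0,k0,k2],[],[],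
    [],[],[],[],[],[k0,k0,k0,k2]] k24 k5
    [[(k3,k6),(k7,k6),(k5,k8)],[(k6,k6),(k10,k8),(k11,k8)],[(k1,k6),(k8,k9),(k9,k9)],[(k6,k6),(k10,k6),(k11,k8)],[(k1,
    k8),(k8,k9),(k9,k9)],[(k6,k6),(k10,k8),(k11,k8)],[(k1,k6),(k8,k9),(k9,k9)],[(k0,k6),(k2,k6),(k4,k6)],[(k3,k9),(k5,
    k9),(k7,k9)],[(k3,k9),(k5,k9),(k7,k9)],[(k0,k8),(k2,k8),(k4,k8)],[(k2,k6),(k0,k8),(k4,k8)]]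
    [] k0
    [[k1,k1,k0,k0,k0,k1]]
    [.ref k0 k0 [(z1,[z1])]]]⟩

/-- classes `0 0 0 0 0 0`, types `N0 N0 N0 N2 N2 N2` -/
noncomputable def cT6_16 : CertT :=
  ⟨[k12,k12,k12,k14,k14,k14],[],[[[]]],
    [.lp [k2,k2,k2,k2,k2,k2] [k0,k0,k0,k0,k0,k0,k0,k0,k0,k0,k0,k0] k0 [] k8 k5
    [[(k3,k2),(k5,k2),(k7,k2)],[(k6,k2),(k8,k2),(k10,k2)],[(k1,k2),(k9,k2),(k11,k2)],[(k6,k2),(k8,k2),(k10,k2)],[(k1,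
    k2),(k9,k2),(k11,k2)],[(k6,k2),(k8,k2),(k10,k2)],[(k1,k2),(k9,k2),(k11,k2)],[(k0,k2),(k2,k2),(k4,k2)],[(k3,k2),
    (k5,k2),(k7,k2)],[(k0,k2),(k2,k2),(k4,k2)],[(k3,k2),(k5,k2),(k7,k2)],[(k0,k2),(k2,k2),(k4,k2)]]
    [] k0
    []
    []]⟩

/-- classes `0 0 0 0 0 0`, types `N0 N0 N1 N0 N1 N1` -/
noncomputable def cT6_17 : CertT :=
  ⟨[k12,k12,k13,k12,k13,k13],[(false,k0,[k0,k1,k2,k3,k4,k5]),(true,k0,[k0,k5,k4,k3,k2,k1])],[[[([z3,z0,z0,z0,z0,z0],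
    z2),([z0,z3,z0,z0,z0,z3],z4),([z0,z0,z3,z0,z0,z0],z2),([z0,z0,z0,z3,z0,z0],z2)],[([z3,z0,z0,z0,z0,z0],z2),([z0,z1,
    z0,z0,z1,z1],z2),([z0,z0,z3,z0,z0,z0],z2)],[([z3,z0,z0,z0,z0,z0],z2),([z0,z3,z0,z0,y3,z3],z2),([z0,z0,z1,z0,z2,
    z0],z2)],[([z3,z0,z0,z0,z0,z0],z2),([z0,z3,z3,z0,z3,z3],z8)],[([z3,z3,z3,z0,z3,z3],z10)],[([z3,z3,z0,z0,z3,z3],
    z8),([z0,z0,z3,z0,z0,z0],z2)],[([z3,z0,z0,z0,z0,z0],z2),([z0,z1,z0,z1,z0,z1],z2),([z0,z0,z3,z0,z0,z0],z2)],[([z3,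
    z3,z0,z3,z0,z3],z8),([z0,z0,z3,z0,z0,z0],z2)],[([z3,z3,z0,z3,z3,z3],z10)],[]]],
    [.leafM k2 [k1,k2,k3,k4,k5,k0] [(z1,[z0,z0,z1]),(z1,[y1,y1,y1,y1,z3]),(z1,[z1])] [],
    .lp [k40,k28,k42,k40,k32,k56] [k8,k8,k14,k14,k7,k7,k8,k8,k12,k12,k0,k0] k0 [[k0,k0,k0,k0,k0,k0,k0,k0,k4],[],[k0,k0,k0,
    k0,k4],[],[],[k0,k0,k0,k4],[],[],[],[k0,k4]] k120 k5
    [[(k2,k34),(k0,k40),(k6,k40)],[(k1,k40),(k7,k40),(k11,k44)],[(k8,k34),(k4,k35),(k10,k42)],[(k7,k30),(k1,k34),(k11,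
    k42)],[(k8,k37),(k4,k46),(k10,k49)],[(k3,k35),(k9,k37),(k5,k46)],[(k2,k30),(k0,k40),(k6,k40)],[(k1,k40),(k7,k40),
    (k11,k48)],[(k8,k32),(k4,k37),(k10,k44)],[(k9,k32),(k3,k34),(k5,k37)],[(k2,k42),(k0,k44),(k6,k48)],[(k3,k42),(k9,
    k44),(k5,k49)]]
    [] k0
    [[k0,k0,k1,k0,k2,k0],[k0,k0,k0,k0,k3,k0]]
    [.ref k0 k0 [(z1,[z0,z1]),(z2,[y3,z0,z6,z1]),(z1,[z0,z0,z0,z1]),(z1,[z0,y1,y3,y1,z3])],.ref k0 k0 [(z1,[z0,z1]),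
    (z1,[y1,z0,z3]),(z1,[z0,z0,z0,z1]),(z1,[z0,y1,y3,y1,z3])]],
    .lp [k40,k28,k32,k40,k42,k56] [k8,k8,k14,k14,k12,k12,k8,k8,k7,k7,k0,k0] k0 [[],[],[k0,k0,k0,k0,k0,k0,k0,k0,k0,k0,k4],
    [],[],[],[k0,k0,k0,k0,k0,k0,k0,k0,k4],[],[],[k0,k0,k0,k0,k0,k0,k0,k4],[],[k0,k0,k0,k4]] k120 k5
    [[(k2,k30),(k0,k40),(k6,k40)],[(k1,k40),(k7,k40),(k11,k48)],[(k4,k30),(k8,k35),(k10,k42)],[(k1,k30),(k7,k34),(k11,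
    k42)],[(k4,k32),(k8,k37),(k10,k48)],[(k3,k30),(k5,k32),(k9,k37)],[(k2,k34),(k0,k40),(k6,k40)],[(k1,k40),(k7,k40),
    (k11,k44)],[(k4,k37),(k8,k46),(k10,k49)],[(k3,k35),(k5,k37),(k9,k46)],[(k2,k42),(k6,k44),(k0,k48)],[(k3,k42),(k5,
    k48),(k9,k49)]]
    [] k0
    [[k0,k0,k3,k0,k0,k0],[k0,k0,k2,k0,k1,k0]]
    [.ref k0 k0 [(z1,[z0,z1]),(z2,[y1,z0,z2,z3]),(z1,[z1]),(z1,[z0,y1,y1,y3,z3])],.ref k0 k0 [(z1,[z0,z1]),(z1,[y1,z0,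
    z1,z2]),(z1,[z2,z0,z0,y1]),(z1,[z0,y1,y1,y3,z3])]],
    .lp [k40,k28,k32,k40,k42,k56] [k8,k8,k14,k14,k12,k12,k8,k8,k7,k7,k0,k0] k0 [[],[],[k0,k0,k0,k0,k0,k0,k0,k0,k0,k0,k4],
    [],[],[],[k0,k0,k0,k0,k0,k0,k0,k0,k4],[],[],[k0,k0,k0,k0,k0,k0,k0,k4],[],[k0,k0,k0,k4]] k120 k5
    [[(k2,k30),(k0,k40),(k6,k40)],[(k1,k40),(k7,k40),(k11,k48)],[(k4,k30),(k8,k35),(k10,k42)],[(k1,k30),(k7,k34),(k11,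
    k42)],[(k4,k32),(k8,k37),(k10,k48)],[(k3,k30),(k5,k32),(k9,k37)],[(k2,k34),(k0,k40),(k6,k40)],[(k1,k40),(k7,k40),
    (k11,k44)],[(k4,k37),(k8,k46),(k10,k49)],[(k3,k35),(k5,k37),(k9,k46)],[(k2,k42),(k6,k44),(k0,k48)],[(k3,k42),(k5,
    k48),(k9,k49)]]
    [] k0
    [[k0,k0,k3,k0,k0,k0],[k0,k0,k2,k0,k1,k0]]
    [.ref k1 k0 [(z1,[z0,z1]),(z3,[y1,z0,z1]),(z1,[z1])],.ref k2 k1 [(z1,[z0,z1]),(z1,[y3,z0,z1]),(z1,[z1])]],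
    .lp [k64,k72,k70,k80,k86,k104] [k20,k20,k16,k16,k17,k17,k12,k12,k9,k9,k0,k0] k0 [[],[k0,k0,k0,k0,k0,k8],[k0,k0,k0,k0,
    k16],[k0,k0,k0,k0,k0,k0,k0,k0,k0,k2],[k8],[k0,k0,k0,k16],[],[k0,k0,k0,k0,k0,k0,k0,k0,k0,k0,k0,k24],[k0,k0,k2],[],
    [k0,k0,k0,k0,k0,k0,k24]] (nat_lit 240) k5
    [[(k0,k64),(k2,k68),(k6,k96)],[(k1,k64),(k7,k80),(k11,k84)],[(k4,k63),(k8,k79),(k10,k88)],[(k7,k60),(k1,k68),(k11,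
    k90)],[(k8,k76),(k4,k86),(k10,k87)],[(k3,k63),(k9,k78),(k5,k86)],[(k2,k60),(k0,k80),(k6,k80)],[(k7,k80),(k11,k92),
    (k1,k96)],[(k10,k71),(k4,k78),(k8,k86)],[(k5,k76),(k3,k79),(k9,k86)],[(k0,k84),(k2,k90),(k6,k92)],[(k9,k71),(k5,
    k87),(k3,k88)]]
    [] k0
    [[k3,k0,k0,k0,k0,k0]]
    [.ref k3 k0 [(z1,[z1]),(z1,[y1,z1])]],
    .lp [k64,k72,k70,k80,k86,k104] [k20,k20,k16,k16,k17,k17,k12,k12,k9,k9,k0,k0] k0 [[],[k0,k0,k0,k0,k0,k8],[k0,k0,k0,k0,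
    k16],[k0,k0,k0,k0,k0,k0,k0,k0,k0,k2],[k8],[k0,k0,k0,k16],[],[k0,k0,k0,k0,k0,k0,k0,k0,k0,k0,k0,k24],[k0,k0,k2],[],
    [k0,k0,k0,k0,k0,k0,k24]] (nat_lit 240) k5
    [[(k0,k64),(k2,k68),(k6,k96)],[(k1,k64),(k7,k80),(k11,k84)],[(k4,k63),(k8,k79),(k10,k88)],[(k7,k60),(k1,k68),(k11,
    k90)],[(k8,k76),(k4,k86),(k10,k87)],[(k3,k63),(k9,k78),(k5,k86)],[(k2,k60),(k0,k80),(k6,k80)],[(k7,k80),(k11,k92),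
    (k1,k96)],[(k10,k71),(k4,k78),(k8,k86)],[(k5,k76),(k3,k79),(k9,k86)],[(k0,k84),(k2,k90),(k6,k92)],[(k9,k71),(k5,
    k87),(k3,k88)]]
    [] k0
    [[k3,k0,k0,k0,k0,k0]]
    [.ref k1 k0 [(z1,[z1]),(z3,[y1,z1]),(z1,[z0,z0,z1])]],
    .leafM k2 [k1,k2,k3,k4,k5,k0] [(z1,[z0,z0,z1]),(z1,[y1,y3,y1,z3]),(z1,[z1])] [],
    .lp [k64,k72,k70,k80,k86,k104] [k20,k20,k16,k16,k17,k17,k12,k12,k9,k9,k0,k0] k0 [[],[k0,k0,k0,k0,k0,k8],[k0,k0,k0,k0,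
    k16],[k0,k0,k0,k0,k0,k0,k0,k0,k0,k2],[k8],[k0,k0,k0,k16],[],[k0,k0,k0,k0,k0,k0,k0,k0,k0,k0,k0,k24],[k0,k0,k2],[],
    [k0,k0,k0,k0,k0,k0,k24]] (nat_lit 240) k5
    [[(k0,k64),(k2,k68),(k6,k96)],[(k1,k64),(k7,k80),(k11,k84)],[(k4,k63),(k8,k79),(k10,k88)],[(k7,k60),(k1,k68),(k11,
    k90)],[(k8,k76),(k4,k86),(k10,k87)],[(k3,k63),(k9,k78),(k5,k86)],[(k2,k60),(k0,k80),(k6,k80)],[(k7,k80),(k11,k92),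
    (k1,k96)],[(k10,k71),(k4,k78),(k8,k86)],[(k5,k76),(k3,k79),(k9,k86)],[(k0,k84),(k2,k90),(k6,k92)],[(k9,k71),(k5,
    k87),(k3,k88)]]
    [] k0
    [[k3,k0,k0,k0,k0,k0]]
    [.ref k6 k0 [(z1,[z1]),(z3,[y1,z1]),(z1,[z0,z0,z1])]],
    .lp [k80,k64,k80,k74,k78,k102] [k11,k11,k19,k19,k11,k11,k14,k14,k12,k12,k0,k0] k0 [[],[k0,k0,k0,k0,k0,k12],[k0,k0,k0,
    k0,k0,k0,k0,k0,k0,k0,k6],[],[k12],[k0,k0,k0,k0,k0,k0,k0,k4],[k0,k0,k0,k0,k4],[k0,k0,k0,k0,k0,k0,k0,k0,k0,k0,k0,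
    k4],[],[],[k0,k0,k0,k0,k0,k0,k4],[k0,k0,k0,k6]] (nat_lit 240) k5
    [[(k2,k66),(k0,k80),(k6,k81)],[(k1,k80),(k7,k89),(k11,k91)],[(k4,k60),(k8,k71),(k10,k83)],[(k1,k66),(k7,k69),(k11,
    k83)],[(k8,k79),(k4,k80),(k10,k97)],[(k3,k60),(k5,k80),(k9,k83)],[(k2,k69),(k6,k70),(k0,k89)],[(k7,k70),(k1,k81),
    (k11,k88)],[(k8,k78),(k4,k83),(k10,k86)],[(k3,k71),(k9,k78),(k5,k79)],[(k2,k83),(k6,k88),(k0,k91)],[(k3,k83),(k9,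
    k86),(k5,k97)]]
    [] k0
    [[k0,k0,k0,k3,k0,k0],[k0,k0,k0,k0,k3,k0]]
    [.ref k5 k0 [(z1,[y1,z1]),(z1,[z0,y1,z3])],.ref k7 k0 [(z1,[y1,z1]),(z1,[z0,y1,z3])]],
    .lp [k80,k64,k80,k74,k78,k102] [k11,k11,k19,k19,k11,k11,k14,k14,k12,k12,k0,k0] k0 [[],[k0,k0,k0,k0,k0,k12],[k0,k0,k0,
    k0,k0,k0,k0,k0,k0,k0,k6],[],[k12],[k0,k0,k0,k0,k0,k0,k0,k4],[k0,k0,k0,k0,k4],[k0,k0,k0,k0,k0,k0,k0,k0,k0,k0,k0,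
    k4],[],[],[k0,k0,k0,k0,k0,k0,k4],[k0,k0,k0,k6]] (nat_lit 240) k5
    [[(k2,k66),(k0,k80),(k6,k81)],[(k1,k80),(k7,k89),(k11,k91)],[(k4,k60),(k8,k71),(k10,k83)],[(k1,k66),(k7,k69),(k11,
    k83)],[(k8,k79),(k4,k80),(k10,k97)],[(k3,k60),(k5,k80),(k9,k83)],[(k2,k69),(k6,k70),(k0,k89)],[(k7,k70),(k1,k81),
    (k11,k88)],[(k8,k78),(k4,k83),(k10,k86)],[(k3,k71),(k9,k78),(k5,k79)],[(k2,k83),(k6,k88),(k0,k91)],[(k3,k83),(k9,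
    k86),(k5,k97)]]
    [] k0
    [[k0,k0,k0,k3,k0,k0],[k0,k0,k0,k0,k3,k0]]
    [.ref k4 k0 [(z1,[y1,z3])],.ref k8 k1 [(z1,[y1,z3])]]]⟩

/-- classes `0 0 0 0 0 0`, types `N0 N0 N1 N0 N1 N2` -/
noncomputable def cT6_18 : CertT :=
  ⟨[k12,k12,k13,k12,k13,k14],[],[[[]]],
    [.lp [k70,k150,k110,k110,k110,k140] [k41,k41,k1,k1,k21,k21,k21,k21,k21,k21,k12,k0] k0 [[],[],[k0,k0,k0,k0,k40],[],[k0,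
    k0,k0,k0,k0,k0,k10],[k0,k0,k0,k40],[k0,k0,k0,k0,k0,k0,k0,k0,k40],[k0,k0,k0,k0,k0,k10],[],[k0,k0,k0,k0,k0,k0,k0,
    k40]] (nat_lit 360) k5
    [[(k5,k90),(k9,k90),(k3,k110)],[(k7,k90),(k10,k99),(k11,k111)],[(k1,k110),(k4,k130),(k8,k130)],[(k7,k90),(k10,
    k139),(k11,k151)],[(k1,k90),(k8,k110),(k4,k150)],[(k9,k100),(k3,k130),(k5,k150)],[(k0,k90),(k2,k90),(k6,k120)],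
    [(k11,k91),(k10,k119),(k7,k120)],[(k1,k90),(k4,k100),(k8,k150)],[(k5,k110),(k3,k130),(k9,k150)],[(k6,k91),(k0,
    k111),(k2,k151)],[(k0,k99),(k6,k119),(k2,k139)]]
    [] k0
    []
    []]⟩

/-- classes `0 0 0 0 0 0`, types `N0 N0 N1 N0 N2 N1` -/
noncomputable def cT6_19 : CertT :=
  ⟨[k12,k12,k13,k12,k14,k13],[],[[[]]],
    [.lp [k4,k2,k4,k4,k2,k6] [k1,k1,k2,k2,k1,k1,k1,k1,k2,k2,k0,k0] k0 [[],[],[],[k0,k0,k0,k0,k0,k0,k0,k0,k2],[],[],[],[],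
    [],[k0,k0,k2]] k12 k5
    [[(k2,k3),(k0,k4),(k6,k4)],[(k8,k3),(k1,k4),(k7,k4)],[(k4,k3),(k10,k4),(k11,k4)],[(k1,k3),(k7,k3),(k8,k4)],[(k11,
    k3),(k4,k4),(k10,k5)],[(k3,k3),(k9,k3),(k5,k4)],[(k2,k3),(k0,k4),(k6,k4)],[(k8,k3),(k1,k4),(k7,k4)],[(k4,k3),(k10,
    k4),(k11,k4)],[(k0,k3),(k6,k3),(k2,k4)],[(k5,k3),(k3,k4),(k9,k4)],[(k3,k4),(k9,k4),(k5,k5)]]
    [] k0
    []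
    []]⟩

/-- classes `0 0 0 0 0 0`, types `N0 N0 N1 N0 N2 N2` -/
noncomputable def cT6_20 : CertT :=
  ⟨[k12,k12,k13,k12,k14,k14],[],[[[]]],
    [.lp [k10,k14,k16,k20,k18,k14] [k5,k5,k3,k3,k2,k2,k0,k0,k1,k1,k3,k3] k0 [[],[],[k0,k0,k0,k0,k0,k0,k0,k0,k0,k4],[],[],
    [k0,k0,k0,k0,k0,k0,k0,k4],[k0,k0,k0,k0,k4],[],[k0,k0,k0,k4]] k48 k5
    [[(k3,k12),(k5,k13),(k9,k14)],[(k10,k12),(k8,k14),(k7,k15)],[(k1,k12),(k11,k14),(k4,k15)],[(k8,k12),(k10,k14),(k7,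
    k17)],[(k1,k13),(k4,k16),(k11,k19)],[(k3,k15),(k5,k16),(k9,k21)],[(k0,k15),(k6,k16),(k2,k17)],[(k7,k16),(k10,k17),
    (k8,k19)],[(k1,k14),(k11,k16),(k4,k21)],[(k2,k12),(k0,k14),(k6,k19)],[(k3,k14),(k9,k16),(k5,k19)],[(k0,k12),(k2,
    k14),(k6,k17)]]
    [] k0
    []
    []]⟩

/-- classes `0 0 0 0 0 0`, types `N0 N0 N1 N1 N0 N2` -/
noncomputable def cT6_21 : CertT :=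
  ⟨[k12,k12,k13,k13,k12,k14],[],[[[]]],
    [.lp [k18,k14,k16,k14,k20,k10] [k1,k1,k3,k3,k2,k2,k3,k3,k0,k0,k5,k5] k0 [[k0,k0,k0,k0,k4],[k0,k0,k0,k0,k0,k0,k0,k0,k0,
    k0,k4],[],[],[],[k0,k4],[],[],[],[],[],[k4]] k48 k5
    [[(k3,k12),(k11,k14),(k5,k17)],[(k7,k12),(k10,k18),(k9,k19)],[(k1,k12),(k6,k14),(k4,k19)],[(k10,k12),(k7,k14),(k9,
    k17)],[(k6,k15),(k4,k16),(k1,k17)],[(k11,k13),(k5,k16),(k3,k19)],[(k0,k12),(k2,k14),(k8,k17)],[(k11,k12),(k3,k14),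
    (k5,k15)],[(k2,k17),(k0,k19),(k8,k20)],[(k10,k15),(k7,k17),(k9,k20)],[(k6,k12),(k4,k13),(k1,k14)],[(k2,k12),(k8,
    k15),(k0,k18)]]
    [] k0
    []
    []]⟩

/-- classes `0 0 0 0 0 0`, types `N0 N0 N1 N1 N2 N3` -/
noncomputable def cT6_22 : CertT :=
  ⟨[k12,k12,k13,k13,k14,k15],[],[[[]]],
    [.lp [k0,k2,k4,k6,k6,k4] [k3,k3,k2,k2,k1,k1,k0,k0,k0,k0,k1,k1] k0 [] k12 k5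
    [[(k7,k3),(k8,k3),(k9,k3)],[(k7,k3),(k8,k3),(k9,k3)],[(k4,k3),(k11,k3),(k6,k4)],[(k7,k4),(k8,k4),(k9,k4)],[(k4,
    k4),(k11,k4),(k6,k5)],[(k3,k3),(k5,k4),(k10,k4)],[(k0,k3),(k1,k3),(k2,k4)],[(k3,k4),(k5,k5),(k10,k5)],[(k0,k3),
    (k1,k3),(k2,k4)],[(k0,k3),(k1,k3),(k2,k4)],[(k3,k3),(k5,k4),(k10,k4)],[(k4,k4),(k11,k4),(k6,k5)]]
    [] k0
    []
    []]⟩

/-- classes `0 0 0 0 0 0`, types `N0 N0 N1 N1 N3 N2` -/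
noncomputable def cT6_23 : CertT :=
  ⟨[k12,k12,k13,k13,k15,k14],[(false,k0,[k0,k1,k2,k3,k4,k5])],[[[([z1,z0,z1,z0,z1,z0],z2)],[]]],
    [.leafM k5 [k2,k3,k4,k5,k0,k1] [(z1,[y1,z1]),(z1,[z1])] [],
    .lp [k10,k14,k16,k14,k18,k20] [k5,k5,k3,k3,k2,k2,k3,k3,k1,k1,k0,k0] k0 [[],[],[k0,k0,k0,k0,k0,k0,k4],[],[],[],[],[k0,
    k0,k0,k4]] k48 k5
    [[(k3,k12),(k5,k13),(k8,k14)],[(k7,k12),(k9,k14),(k10,k15)],[(k1,k12),(k6,k14),(k4,k15)],[(k9,k12),(k7,k14),(k10,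
    k17)],[(k1,k13),(k4,k16),(k6,k19)],[(k3,k15),(k5,k16),(k8,k17)],[(k0,k12),(k2,k14),(k11,k17)],[(k3,k14),(k8,k16),
    (k5,k19)],[(k2,k12),(k0,k14),(k11,k19)],[(k1,k14),(k6,k16),(k4,k17)],[(k7,k17),(k9,k19),(k10,k20)],[(k0,k15),(k2,
    k17),(k11,k20)]]
    [] k0
    [[k1,k0,k1,k0,k1,k0]]
    [.ref k0 k0 [(z1,[z1])]]]⟩

/-- classes `0 0 0 0 0 0`, types `N0 N0 N1 N2 N0 N2` -/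
noncomputable def cT6_24 : CertT :=
  ⟨[k12,k12,k13,k14,k12,k14],[],[[[]]],
    [.lp [k6,k22,k16,k20,k8,k22] [k8,k8,k0,k0,k3,k3,k1,k1,k7,k7,k0,k0] k0 [[],[],[k0,k0,k0,k0,k0,k0,k0,k0,k0,k0,k0,k2],[],
    [],[k0,k0,k0,k0,k0,k0,k0,k0,k0,k2],[],[],[k0,k0,k0,k0,k2],[],[k0,k0,k0,k2]] k48 k5
    [[(k5,k13),(k3,k14),(k11,k14)],[(k6,k13),(k7,k13),(k10,k14)],[(k1,k14),(k9,k15),(k4,k19)],[(k10,k20),(k6,k21),(k7,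
    k21)],[(k9,k12),(k1,k13),(k4,k16)],[(k5,k16),(k3,k19),(k11,k21)],[(k8,k12),(k0,k13),(k2,k21)],[(k0,k13),(k8,k14),
    (k2,k21)],[(k5,k12),(k3,k15),(k11,k15)],[(k7,k12),(k6,k14),(k10,k15)],[(k1,k14),(k9,k15),(k4,k21)],[(k0,k14),(k8,
    k15),(k2,k20)]]
    [] k0
    []
    []]⟩

/-- classes `0 0 0 0 0 0`, types `N0 N0 N1 N2 N1 N3` -/
noncomputable def cT6_25 : CertT :=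
  ⟨[k12,k12,k13,k14,k13,k15],[],[[[]]],
    [.lp [k0,k6,k6,k12,k6,k12] [k6,k6,k3,k3,k3,k3,k0,k0,k3,k3,k0,k0] k0 [[],[],[k0,k0,k0,k0,k2],[],[],[k0,k0,k0,k2]] k24 k5
    [[(k6,k6),(k7,k6),(k11,k6)],[(k6,k6),(k7,k6),(k11,k6)],[(k4,k6),(k8,k6),(k9,k6)],[(k7,k7),(k6,k9),(k11,k9)],[(k8,
    k6),(k9,k6),(k4,k8)],[(k3,k6),(k5,k8),(k10,k9)],[(k0,k6),(k1,k6),(k2,k7)],[(k0,k6),(k1,k6),(k2,k9)],[(k3,k6),(k5,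
    k6),(k10,k9)],[(k3,k6),(k5,k6),(k10,k9)],[(k0,k6),(k1,k6),(k2,k9)],[(k4,k9),(k8,k9),(k9,k9)]]
    [] k0
    []
    []]⟩

/-- classes `0 0 0 0 0 0`, types `N0 N0 N1 N2 N2 N3` -/
noncomputable def cT6_26 : CertT :=
  ⟨[k12,k12,k13,k14,k14,k15],[],[[[]]],
    [.lp [k0,k2,k4,k6,k6,k4] [k3,k3,k2,k2,k1,k1,k0,k0,k0,k0,k1,k1] k0 [] k12 k5
    [[(k6,k3),(k7,k3),(k8,k3)],[(k6,k3),(k7,k3),(k8,k3)],[(k4,k3),(k11,k3),(k9,k4)],[(k6,k4),(k7,k4),(k8,k4)],[(k4,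
    k4),(k11,k4),(k9,k5)],[(k3,k3),(k5,k4),(k10,k4)],[(k0,k3),(k1,k3),(k2,k4)],[(k0,k3),(k1,k3),(k2,k4)],[(k3,k4),(k5,
    k5),(k10,k5)],[(k0,k3),(k1,k3),(k2,k4)],[(k3,k3),(k5,k4),(k10,k4)],[(k4,k4),(k11,k4),(k9,k5)]]
    [] k0
    []
    []]⟩

/-- classes `0 0 0 0 0 0`, types `N0 N0 N1 N2 N3 N1` -/
noncomputable def cT6_27 : CertT :=
  ⟨[k12,k12,k13,k14,k15,k13],[(false,k0,[k0,k1,k2,k3,k4,k5])],[[[([z3,z0,z0,z0,z0,z0],z2),([z0,z1,z0,z1,z0,z1],z2),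
    ([z0,z0,z3,z0,z0,z0],z2)],[([z3,z0,z0,z0,z0,z0],z2),([z0,z3,z0,z3,z3,z3],z8)],[([z3,z3,z0,z3,z3,z3],z10)],[([z3,
    z0,z0,z0,z0,z0],z2),([z0,z6,z0,z6,z3,z6],z14)],[([z2,z2,z0,z2,z1,z2],z6)],[]]],
    [.leafM k2 [k1,k2,k3,k4,k5,k0] [(z1,[z0,z0,z1]),(z1,[y1,y3,y1,z3]),(z1,[z1])] [],
    .lp [k16,k16,k18,k8,k12,k24] [k4,k4,k4,k4,k3,k3,k8,k8,k6,k6,k0,k0] k0 [] k48 k5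
    [[(k0,k16),(k2,k16),(k11,k20)],[(k6,k12),(k7,k12),(k1,k16)],[(k9,k14),(k4,k17),(k10,k20)],[(k6,k12),(k7,k12),(k1,
    k16)],[(k9,k15),(k4,k18),(k10,k21)],[(k8,k15),(k3,k17),(k5,k18)],[(k0,k12),(k2,k12),(k11,k16)],[(k0,k12),(k2,k12),
    (k11,k16)],[(k8,k12),(k3,k14),(k5,k15)],[(k9,k12),(k4,k15),(k10,k18)],[(k6,k16),(k7,k16),(k1,k20)],[(k8,k18),(k3,
    k20),(k5,k21)]]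
    [] k0
    [[k0,k0,k1,k0,k2,k0],[k0,k0,k0,k0,k3,k0]]
    [.ref k0 k0 [(z1,[z0,z1]),(z6,[y3,y1,z1,z3]),(z1,[z0,y1,y1,z3])],.ref k0 k0 [(z1,[z0,z1]),(z3,[y1,z0,z1]),(z1,[z0,
    y1,y1,z3])]],
    .lp [k6,k6,k8,k6,k8,k12] [k3,k3,k3,k3,k2,k2,k3,k3,k2,k2,k0,k0] k0 [] k24 k5
    [[(k0,k6),(k2,k6),(k11,k9)],[(k1,k6),(k6,k6),(k7,k6)],[(k4,k7),(k9,k7),(k10,k9)],[(k1,k6),(k6,k6),(k7,k6)],[(k4,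
    k8),(k9,k8),(k10,k10)],[(k3,k7),(k5,k8),(k8,k8)],[(k0,k6),(k2,k6),(k11,k9)],[(k0,k6),(k2,k6),(k11,k9)],[(k3,k7),
    (k5,k8),(k8,k8)],[(k4,k8),(k9,k8),(k10,k10)],[(k1,k9),(k6,k9),(k7,k9)],[(k3,k9),(k5,k10),(k8,k10)]]
    [] k0
    [[k3,k0,k0,k0,k0,k0]]
    [.ref k1 k0 [(z1,[z1]),(z1,[y1,z1])]],
    .lp [k16,k16,k18,k8,k12,k24] [k4,k4,k4,k4,k3,k3,k8,k8,k6,k6,k0,k0] k0 [] k48 k5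
    [[(k0,k16),(k2,k16),(k11,k20)],[(k6,k12),(k7,k12),(k1,k16)],[(k9,k14),(k4,k17),(k10,k20)],[(k6,k12),(k7,k12),(k1,
    k16)],[(k9,k15),(k4,k18),(k10,k21)],[(k8,k15),(k3,k17),(k5,k18)],[(k0,k12),(k2,k12),(k11,k16)],[(k0,k12),(k2,k12),
    (k11,k16)],[(k8,k12),(k3,k14),(k5,k15)],[(k9,k12),(k4,k15),(k10,k18)],[(k6,k16),(k7,k16),(k1,k20)],[(k8,k18),(k3,
    k20),(k5,k21)]]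
    [] k0
    [[k0,k0,k1,k0,k2,k0],[k0,k0,k0,k0,k3,k0]]
    [.ref k0 k0 [(z1,[z0,z1]),(z9,[y3,y1,z1,z3]),(z3,[y3,y4,y2,z12])],.ref k0 k0 [(z1,[z0,z1]),(z6,[y1,z0,z1]),(z2,
    [y1,y2,y1,z6])]],
    .lp [k6,k6,k8,k6,k8,k12] [k3,k3,k3,k3,k2,k2,k3,k3,k2,k2,k0,k0] k0 [] k24 k5
    [[(k0,k6),(k2,k6),(k11,k9)],[(k1,k6),(k6,k6),(k7,k6)],[(k4,k7),(k9,k7),(k10,k9)],[(k1,k6),(k6,k6),(k7,k6)],[(k4,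
    k8),(k9,k8),(k10,k10)],[(k3,k7),(k5,k8),(k8,k8)],[(k0,k6),(k2,k6),(k11,k9)],[(k0,k6),(k2,k6),(k11,k9)],[(k3,k7),
    (k5,k8),(k8,k8)],[(k4,k8),(k9,k8),(k10,k10)],[(k1,k9),(k6,k9),(k7,k9)],[(k3,k9),(k5,k10),(k8,k10)]]
    [] k0
    [[k3,k0,k0,k0,k0,k0]]
    [.ref k3 k0 [(z1,[z1]),(z1,[y2,z3])]],
    .lp [k16,k16,k12,k8,k18,k24] [k4,k4,k4,k4,k6,k6,k8,k8,k3,k3,k0,k0] k0 [] k48 k5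
    [[(k0,k16),(k2,k16),(k11,k20)],[(k6,k12),(k7,k12),(k1,k16)],[(k4,k14),(k9,k17),(k10,k20)],[(k6,k12),(k7,k12),(k1,
    k16)],[(k4,k12),(k9,k15),(k10,k18)],[(k5,k12),(k3,k14),(k8,k15)],[(k0,k12),(k2,k12),(k11,k16)],[(k0,k12),(k2,k12),
    (k11,k16)],[(k5,k15),(k3,k17),(k8,k18)],[(k4,k15),(k9,k18),(k10,k21)],[(k6,k16),(k7,k16),(k1,k20)],[(k5,k18),(k3,
    k20),(k8,k21)]]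
    [] k0
    [[k0,k0,k3,k0,k0,k0],[k0,k0,k2,k0,k1,k0]]
    [.ref k2 k0 [(z1,[y1,z3])],.ref k4 k0 [(z1,[y1,z2])]]]⟩

/-- classes `0 0 0 0 0 0`, types `N0 N0 N1 N2 N3 N2` -/
noncomputable def cT6_28 : CertT :=
  ⟨[k12,k12,k13,k14,k15,k14],[],[[[]]],
    [.lp [k14,k10,k12,k10,k12,k8] [k0,k0,k2,k2,k1,k1,k2,k2,k1,k1,k3,k3] k0 [[k0,k0,k0,k0,k0,k0,k0,k0,k0,k0,k0,k2],[],[],[],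
    [],[],[],[],[k0,k0,k0,k0,k0,k0,k0,k0,k0,k0,k4],[],[k0,k2],[k0,k0,k0,k0,k0,k0,k0,k0,k0,k4]] k36 k5
    [[(k8,k9),(k5,k13),(k3,k14)],[(k10,k9),(k6,k12),(k7,k12)],[(k4,k11),(k9,k11),(k1,k14)],[(k10,k9),(k6,k10),(k7,
    k10)],[(k4,k12),(k9,k12),(k1,k13)],[(k3,k11),(k5,k12),(k8,k12)],[(k11,k9),(k2,k10),(k0,k12)],[(k11,k9),(k2,k10),
    (k0,k12)],[(k3,k11),(k5,k12),(k8,k12)],[(k1,k9),(k4,k12),(k9,k12)],[(k6,k9),(k7,k9),(k10,k12)],[(k0,k9),(k2,k9),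
    (k11,k12)]]
    [] k0
    []
    []]⟩

/-- classes `0 0 0 0 0 0`, types `N0 N0 N1 N3 N1 N2` -/
noncomputable def cT6_29 : CertT :=
  ⟨[k12,k12,k13,k15,k13,k14],[(false,k0,[k0,k1,k2,k3,k4,k5])],[[[([z1,z1,z0,z0,z0,z1],z2)],[]]],
    [.leafM k6 [k2,k3,k4,k5,k0,k1] [(z1,[z1])] [],
    .lp [k2,k6,k4,k4,k2,k4] [k2,k2,k0,k0,k1,k1,k1,k1,k2,k2,k1,k1] k0 [[],[k0,k0,k0,k0,k0,k2],[],[],[k2]] k12 k5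
    [[(k5,k3),(k6,k3),(k3,k4)],[(k10,k3),(k11,k3),(k7,k5)],[(k4,k3),(k1,k4),(k8,k4)],[(k7,k5),(k10,k5),(k11,k5)],[(k1,
    k3),(k8,k3),(k4,k4)],[(k3,k3),(k5,k4),(k6,k4)],[(k9,k3),(k0,k5),(k2,k5)],[(k1,k3),(k8,k3),(k4,k4)],[(k7,k3),(k10,
    k3),(k11,k3)],[(k5,k3),(k6,k3),(k3,k4)],[(k0,k3),(k9,k3),(k2,k5)],[(k0,k3),(k9,k3),(k2,k5)]]
    [] k0
    [[k0,k0,k1,k1,k1,k0]]
    [.ref k0 k0 [(z1,[y1,z1])]]]⟩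

/-- classes `0 0 0 0 0 0`, types `N0 N0 N1 N3 N2 N2` -/
noncomputable def cT6_30 : CertT :=
  ⟨[k12,k12,k13,k15,k14,k14],[(false,k0,[k0,k1,k2,k3,k4,k5])],[[[([z1,z0,z0,z1,z1,z0],z2),([z0,z1,z0,z0,z1,z1],z2)],
    [([z1,z0,z0,z1,z1,z0],z2)],[]]],
    [.tor k8 false k0 [(z1,[z0,z1]),(z1,[y1,z0,z1]),(z1,[z1]),(z1,[z0,y1,z1])],
    .lp [k6,k6,k10,k10,k8,k6] [k2,k2,k2,k2,k0,k0,k0,k0,k1,k1,k2,k2] k0 [[k0,k0,k0,k0,k2],[],[],[],[],[k0,k2]] k24 k5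
    [[(k3,k6),(k5,k8),(k6,k8)],[(k7,k6),(k10,k6),(k8,k7)],[(k1,k6),(k11,k6),(k4,k10)],[(k10,k6),(k8,k7),(k7,k8)],[(k1,
    k8),(k11,k8),(k4,k10)],[(k3,k10),(k5,k10),(k6,k10)],[(k0,k6),(k2,k8),(k9,k9)],[(k1,k8),(k11,k8),(k4,k10)],[(k10,
    k7),(k8,k8),(k7,k9)],[(k0,k7),(k2,k7),(k9,k8)],[(k3,k6),(k5,k8),(k6,k8)],[(k0,k6),(k2,k6),(k9,k7)]]
    [] k0
    [[k0,k1,k0,k0,k1,k1]]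
    [.ref k0 k0 [(z1,[z0,z1]),(z1,[z1])]],
    .lp [k6,k6,k8,k10,k10,k6] [k2,k2,k2,k2,k1,k1,k0,k0,k0,k0,k2,k2] k0 [[],[],[],[],[],[],[k0,k0,k0,k0,k0,k0,k0,k0,k0,k0,
    k2],[],[],[],[],[k0,k0,k0,k0,k0,k0,k0,k2]] k24 k5
    [[(k3,k6),(k6,k6),(k5,k7)],[(k10,k6),(k7,k8),(k8,k8)],[(k1,k6),(k11,k6),(k4,k7)],[(k10,k6),(k7,k8),(k8,k8)],[(k1,
    k7),(k11,k7),(k4,k8)],[(k3,k7),(k5,k8),(k6,k9)],[(k0,k8),(k2,k8),(k9,k10)],[(k1,k6),(k11,k8),(k4,k9)],[(k7,k10),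
    (k8,k10),(k10,k10)],[(k0,k8),(k2,k8),(k9,k10)],[(k3,k6),(k5,k7),(k6,k8)],[(k0,k6),(k2,k6),(k9,k10)]]
    [] k0
    [[k0,k1,k1,k0,k0,k1]]
    [.ref k1 k0 [(z1,[y1,z1])]]]⟩

/-- classes `0 0 0 0 0 0`, types `N0 N0 N2 N0 N1 N2` -/
noncomputable def cT6_31 : CertT :=
  ⟨[k12,k12,k14,k12,k13,k14],[(false,k0,[k0,k1,k2,k3,k4,k5])],[[[([z1,z0,z1,z0,z1,z0],z2)],[([z1,z1,z0,z0,z0,z1],z2)],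
    []]],
    [.leafM k5 [k0,k1,k2,k3,k4,k5] [(z1,[y1,z1]),(z1,[z1])] [],
    .leafM k6 [k2,k3,k4,k5,k0,k1] [(z1,[z1])] [],
    .lp [k2,k4,k4,k2,k4,k6] [k2,k2,k1,k1,k1,k1,k2,k2,k1,k1,k0,k0] k0 [] k12 k5
    [[(k3,k3),(k5,k3),(k9,k3)],[(k4,k3),(k10,k4),(k11,k4)],[(k1,k3),(k7,k3),(k8,k4)],[(k4,k4),(k10,k5),(k11,k5)],[(k1,
    k3),(k7,k3),(k8,k4)],[(k0,k3),(k6,k3),(k2,k4)],[(k3,k3),(k5,k3),(k9,k3)],[(k4,k3),(k10,k4),(k11,k4)],[(k1,k3),(k7,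
    k3),(k8,k4)],[(k3,k4),(k5,k4),(k9,k4)],[(k0,k4),(k6,k4),(k2,k5)],[(k0,k4),(k6,k4),(k2,k5)]]
    [] k0
    [[k1,k0,k1,k0,k1,k0],[k0,k0,k1,k1,k1,k0]]
    [.ref k0 k0 [(z1,[z1])],.ref k1 k0 [(z1,[y1,z1])]]]⟩

/-- classes `0 0 0 0 0 0`, types `N0 N0 N2 N0 N2 N2` -/
noncomputable def cT6_32 : CertT :=
  ⟨[k12,k12,k14,k12,k14,k14],[],[[[]]],
    [.lp [k2,k2,k2,k2,k2,k2] [k0,k0,k0,k0,k0,k0,k0,k0,k0,k0,k0,k0] k0 [] k8 k5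
    [[(k3,k2),(k5,k2),(k9,k2)],[(k4,k2),(k8,k2),(k10,k2)],[(k1,k2),(k7,k2),(k11,k2)],[(k4,k2),(k8,k2),(k10,k2)],[(k1,
    k2),(k7,k2),(k11,k2)],[(k0,k2),(k2,k2),(k6,k2)],[(k3,k2),(k5,k2),(k9,k2)],[(k4,k2),(k8,k2),(k10,k2)],[(k1,k2),(k7,
    k2),(k11,k2)],[(k0,k2),(k2,k2),(k6,k2)],[(k3,k2),(k5,k2),(k9,k2)],[(k0,k2),(k2,k2),(k6,k2)]]
    [] k0
    []
    []]⟩

/-- classes `0 0 0 0 0 0`, types `N0 N0 N2 N1 N1 N3` -/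
noncomputable def cT6_33 : CertT :=
  ⟨[k12,k12,k14,k13,k13,k15],[(false,k0,[k0,k1,k2,k3,k4,k5])],[[[([z1,z0,z0,z0,z1,z1],z2)],[([z1,z0,z1,z0,z1,z0],z2)],
    []]],
    [.leafM k6 [k1,k2,k3,k4,k5,k0] [(z1,[z1])] [],
    .leafM k1 [k0,k1,k2,k3,k4,k5] [(z1,[y1,z1]),(z1,[z1])] [],
    .lp [k2,k2,k4,k2,k2,k2] [k1,k1,k1,k1,k0,k0,k1,k1,k1,k1,k1,k1] k0 [] k8 k5
    [[(k9,k2),(k11,k2),(k4,k3)],[(k9,k2),(k11,k2),(k4,k3)],[(k6,k2),(k7,k2),(k8,k2)],[(k9,k2),(k11,k2),(k4,k3)],[(k6,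
    k3),(k7,k3),(k8,k3)],[(k0,k3),(k1,k3),(k2,k3)],[(k3,k2),(k10,k2),(k5,k3)],[(k3,k2),(k10,k2),(k5,k3)],[(k0,k2),(k1,
    k2),(k2,k2)],[(k3,k2),(k10,k2),(k5,k3)],[(k0,k2),(k1,k2),(k2,k2)],[(k6,k2),(k7,k2),(k8,k2)]]
    [] k0
    [[k1,k0,k0,k0,k1,k1],[k0,k1,k0,k1,k0,k1]]
    [.ref k0 k0 [(z1,[z1])],.ref k1 k0 [(z1,[y1,z1])]]]⟩

/-- classes `0 0 0 0 0 0`, types `N0 N0 N2 N1 N2 N3` -/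
noncomputable def cT6_34 : CertT :=
  ⟨[k12,k12,k14,k13,k14,k15],[],[[[]]],
    [.lp [k0,k4,k6,k2,k6,k4] [k3,k3,k1,k1,k0,k0,k2,k2,k0,k0,k1,k1] k0 [] k12 k5
    [[(k4,k3),(k8,k3),(k9,k3)],[(k4,k3),(k8,k3),(k9,k3)],[(k6,k3),(k7,k3),(k11,k4)],[(k4,k5),(k8,k5),(k9,k5)],[(k6,
    k4),(k7,k4),(k11,k5)],[(k0,k3),(k1,k3),(k2,k5)],[(k3,k3),(k10,k3),(k5,k4)],[(k3,k3),(k10,k3),(k5,k4)],[(k0,k3),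
    (k1,k3),(k2,k5)],[(k0,k3),(k1,k3),(k2,k5)],[(k3,k4),(k10,k4),(k5,k5)],[(k6,k3),(k7,k3),(k11,k4)]]
    [] k0
    []
    []]⟩

/-- classes `0 0 0 0 0 0`, types `N0 N0 N2 N1 N3 N2` -/
noncomputable def cT6_35 : CertT :=
  ⟨[k12,k12,k14,k13,k15,k14],[],[[[]]],
    [.lp [k4,k12,k8,k4,k8,k10] [k4,k4,k0,k0,k2,k2,k4,k4,k2,k2,k1,k1] k0 [[],[k0,k0,k0,k0,k0,k0,k0,k0,k0,k0,k2],[],[],[],[],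
    [],[],[],[],[],[k2]] k24 k5
    [[(k3,k6),(k5,k6),(k8,k6)],[(k4,k6),(k9,k6),(k10,k9)],[(k1,k6),(k6,k8),(k7,k8)],[(k4,k10),(k9,k10),(k10,k11)],
    [(k1,k6),(k6,k6),(k7,k6)],[(k0,k6),(k11,k9),(k2,k10)],[(k5,k6),(k8,k6),(k3,k8)],[(k5,k6),(k8,k6),(k3,k8)],[(k0,
    k6),(k11,k9),(k2,k10)],[(k1,k6),(k6,k6),(k7,k6)],[(k4,k9),(k9,k9),(k10,k10)],[(k0,k9),(k11,k10),(k2,k11)]]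
    [] k0
    []
    []]⟩

/-- classes `0 0 0 0 0 0`, types `N0 N0 N2 N2 N1 N3` -/
noncomputable def cT6_36 : CertT :=
  ⟨[k12,k12,k14,k14,k13,k15],[(false,k0,[k0,k1,k2,k3,k4,k5]),(true,k4,[k4,k3,k2,k1,k0,k5])],[[[([z1,z0,z0,z1,z0,z1],
    z2),([z0,z1,z0,z0,z1,z1],z2)],[([z1,z0,z0,z1,z0,z1],z2)],[]]],
    [.tor k2 false k0 [(z1,[z0,z1]),(z1,[y1,z0,z1]),(z1,[z1]),(z1,[z0,y1,z1])],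
    .lp [k4,k4,k12,k10,k8,k8] [k4,k4,k4,k4,k0,k0,k1,k1,k2,k2,k2,k2] k0 [[],[],[],[],[k0,k0,k0,k0,k0,k0,k0,k0,k0,k0,k2],[],
    [],[],[],[],[],[k0,k0,k0,k0,k0,k2]] k24 k5
    [[(k4,k6),(k11,k6),(k6,k7)],[(k11,k6),(k6,k7),(k4,k8)],[(k8,k6),(k9,k6),(k7,k7)],[(k11,k6),(k6,k7),(k4,k8)],[(k8,
    k10),(k9,k10),(k7,k11)],[(k1,k6),(k0,k8),(k2,k8)],[(k3,k7),(k5,k11),(k10,k11)],[(k0,k7),(k1,k7),(k2,k7)],[(k3,k6),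
    (k10,k8),(k5,k10)],[(k3,k6),(k10,k8),(k5,k10)],[(k0,k6),(k1,k6),(k2,k6)],[(k8,k8),(k9,k8),(k7,k11)]]
    [] k0
    [[k0,k1,k0,k0,k1,k1]]
    [.ref k0 k0 [(z1,[z0,z1]),(z1,[z1])]],
    .lp [k4,k4,k12,k10,k8,k8] [k4,k4,k4,k4,k0,k0,k1,k1,k2,k2,k2,k2] k0 [[],[],[],[],[k0,k0,k0,k0,k0,k0,k0,k0,k0,k0,k2],[],
    [],[],[],[],[],[k0,k0,k0,k0,k0,k2]] k24 k5
    [[(k4,k6),(k11,k6),(k6,k7)],[(k11,k6),(k6,k7),(k4,k8)],[(k8,k6),(k9,k6),(k7,k7)],[(k11,k6),(k6,k7),(k4,k8)],[(k8,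
    k10),(k9,k10),(k7,k11)],[(k1,k6),(k0,k8),(k2,k8)],[(k3,k7),(k5,k11),(k10,k11)],[(k0,k7),(k1,k7),(k2,k7)],[(k3,k6),
    (k10,k8),(k5,k10)],[(k3,k6),(k10,k8),(k5,k10)],[(k0,k6),(k1,k6),(k2,k6)],[(k8,k8),(k9,k8),(k7,k11)]]
    [] k0
    [[k0,k1,k0,k0,k1,k1]]
    [.ref k1 k1 [(z1,[z1])]]]⟩

/-- classes `0 0 0 0 0 0`, types `N0 N1 N0 N1 N0 N1` -/
noncomputable def cT6_37 : CertT :=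
  ⟨[k12,k13,k12,k13,k12,k13],[(false,k0,[k0,k1,k2,k3,k4,k5]),(false,k1,[k1,k2,k3,k4,k5,k0]),(false,k3,[k3,k4,k5,k0,k1,
    k2]),(false,k4,[k4,k5,k0,k1,k2,k3]),(true,k1,[k1,k0,k5,k4,k3,k2]),(false,k2,[k2,k3,k4,k5,k0,k1]),(true,k4,[k4,k3,
    k2,k1,k0,k5]),(false,k5,[k5,k0,k1,k2,k3,k4])],[[[([z3,z0,z0,z0,z0,z0],z2),([z0,z1,z0,z1,z0,z1],z2),([z0,z0,z3,z0,
    z0,z0],z2)],[([z1,z0,z0,z0,y4,z0],y2),([z0,z1,z0,z1,z3,z1],z4)],[([z1,z0,z0,z0,y1,z0],z0),([z0,z1,z0,z1,z0,z1],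
    z2)],[([z1,z0,z0,z0,y1,z0],z0),([z0,z1,z0,z0,z0,y1],z0),([z0,z0,z1,z0,z2,z0],z2)],[([z1,z0,z0,z0,y1,z0],z0),([z0,
    z3,z0,z0,z0,z0],z2),([z0,z0,z1,z0,z2,z0],z2),([z0,z0,z0,z3,z0,z0],z2)],[([z3,z0,z0,z0,z0,z0],z2),([z0,z3,z0,z0,z0,
    z0],z2),([z0,z0,z3,z0,z0,z0],z2),([z0,z0,z0,z3,z0,z0],z2),([z0,z0,z0,z0,z3,z0],z2)],[([z3,z0,z0,z0,z0,z0],z2),
    ([z0,z2,z0,z0,z0,z1],z2),([z0,z0,z6,z0,z0,y9],y2),([z0,z0,z0,z1,z0,z2],z2)],[([z1,z0,z0,z0,z0,y1],z0),([z0,z2,z0,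
    z0,z0,z1],z2),([z0,z0,z2,z0,z0,z1],z2),([z0,z0,z0,z1,z0,y1],z0)],[([z3,z0,z0,z0,z0,y6],y2),([z0,z1,z0,z0,z0,z2],
    z2),([z0,z0,z6,z0,z0,y3],z2),([z0,z0,z0,z2,z0,z1],z2)],[([z1,z0,z0,z0,y4,z0],y2),([z0,z1,z0,z0,z6,z2],z6),([z0,z0,
    z1,z0,z2,z0],z2)],[([z1,z0,z0,y2,z2,z2],z2),([z0,z1,z0,z2,z0,z0],z2)],[([z2,z0,z0,z0,z1,z0],z2)]],[[([z1,z0,z1,z0,
    z1,z0],z2)],[]]],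
    [.leafM k1 [k0,k1,k2,k3,k4,k5] [(z1,[z0,z1]),(z1,[z0,y1,z0,z1])] [],
    .lp [k12,k16,k18,k16,k16,k16] [k3,k3,k1,k1,k0,k0,k1,k1,k1,k1,k1,k1] k0 [] k48 k5
    [[(k0,k12),(k8,k14),(k4,k15)],[(k1,k12),(k9,k14),(k5,k15)],[(k2,k16),(k6,k16),(k10,k16)],[(k3,k16),(k7,k16),(k11,
    k16)],[(k0,k15),(k8,k17),(k4,k18)],[(k1,k15),(k9,k17),(k5,k18)],[(k2,k16),(k6,k16),(k10,k16)],[(k3,k16),(k7,k16),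
    (k11,k16)],[(k0,k14),(k8,k16),(k4,k17)],[(k1,k14),(k9,k16),(k5,k17)],[(k2,k16),(k6,k16),(k10,k16)],[(k3,k16),(k7,
    k16),(k11,k16)]]
    [] k0
    [[k3,k0,k0,k0,k0,k0],[k2,k0,k1,k0,k0,k0],[k2,k0,k0,k0,k1,k0],[k1,k0,k1,k0,k1,k0],[k1,k0,k0,k0,k2,k0]]
    [.ref k0 k0 [(z1,[z1]),(z4,[y1,z3,z4]),(z2,[y1,y3,y6,z6])],.ref k0 k0 [(z1,[z2,z1,z2,y2]),(z2,[y1,z1,z1,z1]),(z1,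
    [y1,y2,y4,z4])],.ref k0 k0 [(z3,[z4,z1]),(z3,[y1,z2,z3]),(z3,[y2,y5,y9,z9])],.ref k0 k0 [(z1,[z4,z3,z4,y4]),(z1,
    [y1,z0,z0,z1]),(z1,[y2,y3,y5,z5])],.ref k0 k0 [(z1,[z2,z1]),(z2,[y1,z1,z2]),(z1,[y1,y2,y3,z3])]],
    .leafM k1 [k0,k1,k2,k3,k4,k5] [(z1,[z0,z1]),(z1,[z0,y1,z1])] [],
    .leafM k1 [k0,k1,k2,k3,k4,k5] [(z1,[y1,z0,y1,z1]),(z1,[z1,z0,z1])] [],
    .leafM k1 [k0,k1,k2,k3,k4,k5] [(z1,[y1,z0,y1,z0,z1]),(z1,[z1,z0,z1])] [],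
    .leafM k1 [k0,k1,k2,k3,k4,k5] [(z3,[y1,z0,y1,z0,y1,z3]),(z3,[z1,z0,z1,z0,z1])] [],
    .lp [k40,k36,k38,k40,k40,k44] [k2,k2,k4,k4,k3,k3,k2,k2,k2,k2,k0,k0] k0 [[k0,k0,k8],[],[k0,k0,k0,k0,k0,k0,k0,k0,k4],
    [k0,k8],[k0,k0,k0,k0,k0,k0,k0,k0,k0,k0,k4],[],[],[],[],[k0,k0,k0,k4],[],[k0,k0,k0,k0,k0,k4]] k120 k5
    [[(k4,k35),(k0,k40),(k8,k40)],[(k5,k31),(k1,k40),(k9,k40)],[(k6,k38),(k10,k40),(k2,k44)],[(k11,k36),(k7,k38),(k3,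
    k44)],[(k0,k31),(k4,k38),(k8,k43)],[(k1,k35),(k5,k38),(k9,k39)],[(k2,k38),(k6,k40),(k10,k46)],[(k3,k38),(k7,k40),
    (k11,k42)],[(k4,k39),(k0,k40),(k8,k40)],[(k1,k40),(k9,k40),(k5,k43)],[(k2,k36),(k6,k42),(k10,k44)],[(k3,k40),(k11,
    k44),(k7,k46)]]
    [] k0
    [[k2,k0,k1,k0,k0,k0],[k1,k0,k2,k0,k0,k0],[k1,k0,k1,k0,k1,k0],[k0,k1,k0,k2,k0,k0],[k0,k0,k3,k0,k0,k0]]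
    [.ref k5 k0 [(z1,[z0,z1]),(z6,[y6,z4,z9,z1]),(z1,[z3,y2]),(z3,[y12,z8,z0,z2,z9]),(z2,[z0,y2,y3,y1,y6,z6])],
    .ref k5 k0 [(z1,[z0,z1]),(z6,[y3,z1,z9,z1]),(z2,[z3,y1]),(z3,[y6,z2,z0,z2,z9]),(z2,[z0,y2,y3,y1,y6,z6])],
    .ref k5 k0 [(z1,[z0,z1]),(z1,[y1,z0,z1,z0,y1,z1]),(z2,[z6,z0,z3,z1,z6,y6]),(z1,[y4,z0,y2,z0,y1,z4]),(z2,[z0,y2,y3,
    y1,y6,z6])],.ref k5 k0 [(z1,[z0,z1]),(z3,[z1,z0,z4,z0,y2]),(z2,[y2,z0,z1,z1,z4]),(z3,[z4,z0,y2,z0,z1]),(z2,[z0,y2,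
    y3,y1,y6,z6])],.ref k5 k0 [(z1,[z0,z1]),(z6,[y2,z0,z9,z1]),(z1,[z1]),(z3,[y4,z0,z0,z2,z9]),(z2,[z0,y2,y3,y1,y6,
    z6])]],
    .lp [k76,k80,k82,k82,k80,k76] [k3,k3,k1,k1,k0,k0,k0,k0,k1,k1,k3,k3] k0 [[k0,k0,k0,k0,k0,k0,k0,k0,k0,k0,k2],[],[],[k0,
    k0,k0,k0,k0,k0,k0,k0,k0,k2],[],[],[],[],[k0,k0,k2],[k0,k0,k0,k0,k0,k0,k0,k0,k0,k0,k0,k10],[k0,k0,k0,k0,k0,k0,k0,
    k0,k10],[k0,k2]] (nat_lit 240) k5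
    [[(k0,k74),(k4,k79),(k8,k88)],[(k1,k74),(k9,k78),(k5,k79)],[(k2,k80),(k10,k80),(k6,k81)],[(k3,k80),(k11,k80),(k7,
    k81)],[(k0,k79),(k8,k79),(k4,k82)],[(k1,k79),(k9,k81),(k5,k82)],[(k10,k79),(k2,k81),(k6,k82)],[(k11,k79),(k3,k81),
    (k7,k82)],[(k0,k78),(k8,k80),(k4,k81)],[(k5,k79),(k9,k80),(k1,k88)],[(k10,k66),(k6,k79),(k2,k80)],[(k11,k66),(k7,
    k79),(k3,k80)]]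
    [] k0
    [[k3,k0,k0,k0,k0,k0],[k2,k0,k1,k0,k0,k0],[k1,k0,k1,k0,k1,k0],[k0,k1,k0,k0,k0,k2],[k0,k0,k0,k1,k0,k2],[k0,k0,k0,k0,
    k0,k3]]
    [.ref k5 k0 [(z1,[z1]),(z2,[y1,z3,z3]),(z2,[y1,z3,z0,z3]),(z1,[z1,y3,z0,z0,z3]),(z2,[y4,z6,y3,y3,y6,z6])],
    .ref k5 k0 [(z1,[z2,y1,z0,y1]),(z2,[y2,z4,z3,z1]),(z1,[y1,z2,z0,z2]),(z1,[z2,y4,z0,y1,z3]),(z2,[y8,z10,y3,z1,y6,
    z6])],.ref k5 k0 [(z1,[y2,z3,y1,z0,y2,z2]),(z1,[z1,z0,z2,z0,z1,y1]),(z2,[z2,z0,z1,z3,z2,y2]),(z1,[y2,z0,y1,z0,z1,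
    z2]),(z2,[z8,y6,z1,y3,z2,y2])],.ref k5 k0 [(z1,[z2,z3,y1]),(z1,[y1,z0,z2]),(z2,[y2,z0,z1,z3]),(z1,[z2,z0,y1,z0,
    z3]),(z2,[y8,y6,z1,y3,y6,z6])],.ref k5 k0 [(z1,[z1,z3,z0,z0,y1]),(z2,[y1,z0,z3,z0,z1]),(z2,[y1,z0,z0,z3,z1]),(z1,
    [z1,z0,z0,z0,z2]),(z2,[y4,y6,y3,y3,y2,z6])],.ref k5 k0 [(z1,[z1,z3]),(z2,[y1,z0,z3]),(z2,[y1,z0,z0,z3]),(z1,[z1,
    z0,z0,z0,z3]),(z2,[y4,y6,y3,y3,y6,z6])]],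
    .lp [k72,k80,k74,k80,k84,k88] [k8,k8,k4,k4,k7,k7,k4,k4,k2,k2,k0,k0] k0 [[k0,k0,k8],[k0,k0,k0,k0,k0,k0,k0,k0,k0,k0,k0,
    k8],[k0,k0,k0,k0,k0,k0,k0,k0,k8],[k0,k8],[],[],[],[],[],[k0,k0,k0,k8],[k8]] (nat_lit 240) k5
    [[(k4,k73),(k8,k78),(k0,k80)],[(k5,k65),(k9,k78),(k1,k80)],[(k10,k76),(k6,k80),(k2,k88)],[(k11,k76),(k7,k80),(k3,
    k88)],[(k0,k65),(k4,k74),(k8,k87)],[(k1,k73),(k5,k74),(k9,k79)],[(k2,k80),(k6,k80),(k10,k84)],[(k3,k80),(k7,k80),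
    (k11,k84)],[(k0,k78),(k4,k79),(k8,k84)],[(k1,k78),(k9,k84),(k5,k87)],[(k2,k76),(k6,k84),(k10,k88)],[(k3,k76),(k7,
    k84),(k11,k88)]]
    [] k0
    [[k2,k0,k1,k0,k0,k0],[k2,k0,k0,k0,k1,k0],[k1,k0,k2,k0,k0,k0],[k1,k0,k1,k0,k1,k0],[k0,k0,k3,k0,k0,k0]]
    [.ref k5 k0 [(z9,[z12,z1,z0,y2]),(z9,[y12,z8,z27,z2]),(z9,[z3,y2,z0,z4]),(z18,[y6,z4,z0,z1,z27]),(z18,[y12,y10,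
    y54,y7,y27,z54])],.ref k5 k0 [(z3,[z6,z1,z6,z1,z3,y6]),(z3,[y6,z2,z3,y1,y3,z6]),(z12,[z6,y2,z6,z7,z3,y6]),(z12,
    [y6,z2,y6,y1,z15,z6]),(z3,[y3,y2,y12,y2,y6,z12])],.ref k5 k0 [(z3,[z6,z1,z0,y2]),(z3,[y6,z2,z9,z2]),(z6,[z3,y1,z0,
    z2]),(z6,[y3,z1,z0,z1,z9]),(z6,[y6,y4,y18,y1,y9,z18])],.ref k5 k0 [(z1,[z4,z1,z4,z0,z2,y4]),(z1,[y4,z0,y1,z0,y2,
    z4]),(z2,[z2,z0,z2,z1,z1,y2]),(z1,[y1,z0,y1,z0,z1,z1]),(z2,[y4,y2,y10,y1,y5,z10])],.ref k5 k0 [(z1,[z4,z1,z0,y2]),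
    (z1,[y4,z0,z3,z2]),(z1,[z1]),(z2,[y2,z0,z0,z1,z3]),(z2,[y4,y2,y6,z1,y3,z6])]],
    .lp [k80,k84,k82,k64,k88,k80] [k4,k4,k2,k2,k3,k3,k12,k12,k0,k0,k4,k4] k0 [[k0,k0,k0,k0,k0,k0,k16],[k0,k0,k0,k4],[k4],
    [k0,k0,k0,k0,k0,k12],[k0,k0,k12],[k0,k0,k0,k0,k0,k0,k0,k0,k0,k0,k0,k4],[],[k0,k16],[],[],[k0,k0,k0,k0,
    k4]] (nat_lit 240) k5
    [[(k0,k80),(k8,k84),(k4,k85)],[(k9,k68),(k1,k80),(k5,k85)],[(k2,k80),(k10,k82),(k6,k90)],[(k3,k80),(k11,k82),(k7,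
    k86)],[(k4,k70),(k0,k85),(k8,k85)],[(k5,k70),(k1,k85),(k9,k85)],[(k6,k64),(k10,k68),(k2,k86)],[(k7,k64),(k11,k72),
    (k3,k90)],[(k0,k68),(k4,k85),(k8,k88)],[(k1,k84),(k5,k85),(k9,k88)],[(k6,k72),(k10,k80),(k2,k82)],[(k7,k68),(k11,
    k80),(k3,k82)]]
    [] k0
    [[k2,k0,k0,k0,k1,k0],[k1,k0,k1,k0,k1,k0],[k0,k0,k3,k0,k0,k0],[k0,k0,k0,k3,k0,k0],[k0,k0,k0,k2,k0,k1],[k0,k0,k0,k1,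
    k0,k2]]
    [.ref k4 k1 [(z3,[y1,z5,z3,z3,y3]),(z3,[z4,z1]),(z1,[z0,y2,y1,y2,z2]),(z3,[y2,z4,z0,z9])],.ref k4 k1 [(z1,[y1,z2,
    z1,z2,y1]),(z1,[z4,y1,z0,y4]),(z1,[z0,y2,y1,y2,z2]),(z1,[y2,z2,z0,z5])],.ref k4 k1 [(z2,[z1,z2,z2,y1,y2]),(z1,[y2,
    z3,z0,z6]),(z1,[z0,y2,y1,y2,z2]),(z1,[z1])],.ref k6 k2 [(z1,[z1]),(z1,[z0,z0,z0,z1]),(z1,[z2,z6,z6,y3,y6]),(z1,
    [z0,z1,z0,z2])],.ref k7 k3 [(z3,[z2,z4,z1,z7,y4]),(z1,[z0,y2,y1,y2,z2]),(z3,[y2,y4,y1,y4,z4]),(z1,[z1,z2,z1,z2,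
    y2])],.ref k8 k4 [(z1,[y2,y2,z1,y8,z2]),(z1,[z0,z1,z0,z2]),(z1,[z2,z2,z2,y1,y2]),(z1,[z0,z0,z0,z1])]],
    .lp [k66,k58,k66,k70,k62,k54] [k2,k2,k12,k0,k2,k2,k0,k0,k4,k4,k8,k8] k0 [[k0,k0,k6],[k0,k0,k0,k0,k0,k0,k0,k0,k0,k0,k0,
    k14],[],[k0,k6],[],[],[k0,k0,k0,k0,k0,k0,k0,k0,k2],[],[k0,k0,k0,k0,k0,k0,k0,k0,k0,k0,k16],[k0,k0,k0,k0,k0,k0,k0,
    k2],[k14],[k0,k0,k0,k0,k0,k0,k0,k0,k0,k16]] k192 k5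
    [[(k8,k48),(k4,k66),(k0,k80)],[(k5,k60),(k9,k64),(k1,k80)],[(k10,k48),(k2,k64),(k6,k70)],[(k11,k50),(k7,k58),(k3,
    k64)],[(k0,k60),(k8,k64),(k4,k66)],[(k9,k64),(k1,k66),(k5,k66)],[(k2,k58),(k10,k62),(k6,k70)],[(k11,k60),(k3,k70),
    (k7,k70)],[(k0,k64),(k4,k64),(k8,k64)],[(k1,k48),(k5,k64),(k9,k64)],[(k2,k50),(k6,k60),(k10,k70)],[(k3,k48),(k7,
    k62),(k11,k70)]]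
    [] k0
    [[k1,k0,k1,k0,k1,k0],[k1,k0,k0,k0,k2,k0],[k0,k2,k0,k0,k0,k1],[k0,k1,k0,k1,k0,k1],[k0,k1,k0,k0,k0,k2]]
    [.ref k3 k5 [(z1,[z1,z1,z2,y2]),(z1,[y1,z0,y1,z1]),(z1,[z0,y1,y2,z2])],.ref k3 k5 [(z2,[z1,z1,z2,y2]),(z2,[y1,
    z1]),(z1,[z0,y1,y2,z2])],.ref k9 k1 [(z1,[z1,z0,y2]),(z1,[y2,z1,z4]),(z1,[z0,z0,z1])],.ref k3 k5 [(z1,[y1,z1,z2,
    y1]),(z1,[z1,z0,y1]),(z1,[z0,y1,y2,z2])],.ref k3 k5 [(z2,[y1,z2,z3,y2]),(z2,[z1,z0,y1]),(z1,[z0,y1,y2,z2])]],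
    .lp [(nat_lit 222),(nat_lit 242),(nat_lit 222),(nat_lit 254),(nat_lit 222),(nat_lit 266)] [k22,k22,k12,k12,k22,k22,k6,
    k6,k22,k22,k0,k0] k0 [[],[k0,k0,k0,k0,k0,k0,k0,k0,k0,k0,k0,k54],[k0,k0,k0,k0,k18],[],[],[k0,k0,k0,k18],[k0,k0,k0,
    k0,k0,k0,k0,k0,k54],[],[],[k0,k0,k0,k0,k0,k0,k0,k54],[k54]] (nat_lit 720) k5
    [[(k4,(nat_lit 222)),(k8,(nat_lit 222)),(k0,(nat_lit 276))],[(k5,(nat_lit 222)),(k9,(nat_lit 222)),(k1,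
    (nat_lit 276))],[(k10,(nat_lit 200)),(k2,(nat_lit 242)),(k6,(nat_lit 248))],[(k7,(nat_lit 230)),(k3,
    (nat_lit 242)),(k11,(nat_lit 254))],[(k0,(nat_lit 222)),(k8,(nat_lit 222)),(k4,(nat_lit 240))],[(k1,
    (nat_lit 222)),(k9,(nat_lit 222)),(k5,(nat_lit 240))],[(k2,(nat_lit 230)),(k6,(nat_lit 254)),(k10,(nat_lit 260))],
    [(k11,(nat_lit 206)),(k3,(nat_lit 248)),(k7,(nat_lit 254))],[(k0,(nat_lit 222)),(k4,(nat_lit 222)),(k8,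
    (nat_lit 276))],[(k1,(nat_lit 222)),(k5,(nat_lit 222)),(k9,(nat_lit 276))],[(k6,(nat_lit 206)),(k2,(nat_lit 254)),
    (k10,(nat_lit 266))],[(k3,(nat_lit 200)),(k7,(nat_lit 260)),(k11,(nat_lit 266))]]
    [] k0
    [[k1,k0,k2,k0,k0,k0],[k1,k0,k1,k0,k1,k0],[k0,k2,k0,k0,k0,k1],[k0,k1,k0,k1,k0,k1],[k0,k0,k2,k0,k1,k0]]
    [.ref k1 k5 [(z1,[y2,z1]),(z1,[z1,y1,z1])],.ref k2 k3 [(z1,[z1,y1]),(z1,[y1,z0,z1])],.ref k10 k5 [(z1,[y2,y1,z2]),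
    (z1,[z1])],.ref k2 k3 [(z1,[y1,y1,z1]),(z1,[z1])],.ref k2 k3 [(z2,[z1,y1]),(z2,[y1,y1,z2])]],
    .leafM k1 [k0,k1,k2,k3,k4,k5] [(z1,[y1,z1]),(z1,[z1])] [],
    .lp [k66,k58,k66,k70,k62,k54] [k20,k0,k14,k14,k10,k10,k8,k8,k12,k12,k16,k16] k0 [[k0,k0,k6],[],[],[k0,k6],[],[],[k0,
    k0,k0,k0,k0,k0,k0,k0,k2],[],[k0,k0,k0,k0,k0,k0,k0,k0,k0,k0,k26],[k0,k0,k0,k0,k0,k0,k0,k2],[],[k0,k0,k0,k0,k0,k0,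
    k0,k0,k0,k26]] k192 k5
    [[(k8,k48),(k0,k66),(k4,k76)],[(k5,k50),(k9,k54),(k1,k66)],[(k10,k56),(k2,k64),(k6,k64)],[(k11,k56),(k3,k64),(k7,
    k64)],[(k0,k50),(k8,k64),(k4,k66)],[(k9,k64),(k5,k66),(k1,k76)],[(k10,k62),(k2,k64),(k6,k70)],[(k11,k60),(k3,k64),
    (k7,k70)],[(k0,k54),(k4,k64),(k8,k64)],[(k1,k48),(k5,k64),(k9,k64)],[(k2,k56),(k6,k60),(k10,k80)],[(k3,k56),(k7,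
    k62),(k11,k80)]]
    [] k0
    [[k2,k0,k0,k0,k1,k0],[k1,k0,k1,k0,k1,k0],[k1,k0,k0,k0,k2,k0],[k0,k2,k0,k0,k0,k1],[k0,k1,k0,k1,k0,k1]]
    [.ref k11 k0 [(z1,[z1])],.ref k12 k0 [(z1,[z1])],.ref k11 k6 [(z1,[z1])],.ref k11 k7 [(z1,[z1])],.ref k12 k0 [(z1,
    [y1,z1])]]]⟩

/-- classes `0 0 0 0 0 0`, types `N0 N1 N0 N1 N0 N2` -/
noncomputable def cT6_38 : CertT :=
  ⟨[k12,k13,k12,k13,k12,k14],[(false,k0,[k0,k1,k2,k3,k4,k5]),(true,k5,[k5,k4,k3,k2,k1,k0])],[[[([z1,z0,z0,z0,z1,z1],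
    z2),([z0,z1,z0,z0,y1,z0],z0),([z0,z0,z2,z0,z1,z0],z2)],[([z2,z0,z0,y2,z1,z2],z2),([z0,z1,z0,z2,z0,z0],z2)],[([z1,
    z0,z1,y1,z1,z1],z2)],[]]],
    [.tor k10 false k0 [(z1,[z0,z0,z1]),(z1,[y2,y1,y1,z2]),(z1,[z1]),(z1,[z1,z1])],
    .lp [k16,k14,k16,k16,k16,k16] [k0,k0,k1,k1,k0,k0,k0,k0,k0,k0,k0,k0] k0 [[k0,k0,k4],[],[k0,k0,k0,k0,k0,k0,k0,k0,k2],
    [k0,k4],[k0,k0,k0,k0,k0,k0,k2],[],[],[k0,k0,k0,k0,k0,k2],[k0,k0,k0,k0,k0,k0,k0,k0,k0,k0,k0,k4],[k0,k0,k0,k2],[k0,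
    k0,k0,k0,k0,k0,k0,k0,k0,k4]] k48 k5
    [[(k3,k15),(k7,k16),(k11,k20)],[(k5,k12),(k9,k16),(k10,k16)],[(k1,k15),(k6,k15),(k2,k18)],[(k11,k13),(k7,k15),(k3,
    k18)],[(k0,k12),(k4,k16),(k8,k18)],[(k9,k14),(k5,k16),(k10,k16)],[(k2,k15),(k1,k16),(k6,k18)],[(k3,k15),(k11,k16),
    (k7,k18)],[(k4,k14),(k0,k16),(k8,k16)],[(k10,k12),(k9,k16),(k5,k18)],[(k2,k13),(k6,k16),(k1,k20)],[(k8,k12),(k0,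
    k16),(k4,k16)]]
    [] k0
    [[k1,k1,k0,k0,k0,k1]]
    [.ref k0 k0 [(z1,[y1,z1,z1]),(z1,[z2,y1,y1]),(z1,[z0,y1,y2,z2])]],
    .lp [k32,k30,k28,k34,k30,k34] [k1,k1,k2,k2,k3,k3,k0,k0,k2,k2,k0,k0] k0 [[k0,k0,k6],[k0,k0,k0,k0,k0,k0,k0,k0,k0,k0,k6],
    [k0,k0,k0,k0,k4],[k0,k6],[k0,k0,k0,k0,k0,k0,k2],[k0,k0,k0,k4],[k0,k0,k0,k0,k0,k0,k0,k0,k10],[k0,k0,k0,k0,k0,k2],
    [k0,k0,k0,k0,k0,k0,k0,k0,k0,k0,k0,k8],[k0,k0,k0,k0,k0,k0,k0,k10],[k0,k0,k0,k0,k0,k0,k0,k0,k0,k8],[k6]] k96 k5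
    [[(k3,k25),(k7,k33),(k11,k41)],[(k5,k24),(k9,k31),(k10,k39)],[(k1,k25),(k6,k32),(k2,k36)],[(k7,k28),(k11,k32),(k3,
    k36)],[(k0,k24),(k8,k29),(k4,k32)],[(k9,k27),(k10,k31),(k5,k32)],[(k2,k28),(k1,k33),(k6,k36)],[(k11,k24),(k3,k32),
    (k7,k36)],[(k4,k27),(k0,k31),(k8,k40)],[(k10,k24),(k5,k29),(k9,k40)],[(k6,k24),(k2,k32),(k1,k41)],[(k8,k24),(k4,
    k31),(k0,k39)]]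
    [] k0
    [[k0,k0,k2,k0,k1,k0]]
    [.ref k1 k0 [(z1,[y1,z2]),(z1,[z0,y1,z1])]],
    .lp [k32,k30,k28,k34,k30,k34] [k1,k1,k2,k2,k3,k3,k0,k0,k2,k2,k0,k0] k0 [[k0,k0,k6],[k0,k0,k0,k0,k0,k0,k0,k0,k0,k0,k6],
    [k0,k0,k0,k0,k4],[k0,k6],[k0,k0,k0,k0,k0,k0,k2],[k0,k0,k0,k4],[k0,k0,k0,k0,k0,k0,k0,k0,k10],[k0,k0,k0,k0,k0,k2],
    [k0,k0,k0,k0,k0,k0,k0,k0,k0,k0,k0,k8],[k0,k0,k0,k0,k0,k0,k0,k10],[k0,k0,k0,k0,k0,k0,k0,k0,k0,k8],[k6]] k96 k5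
    [[(k3,k25),(k7,k33),(k11,k41)],[(k5,k24),(k9,k31),(k10,k39)],[(k1,k25),(k6,k32),(k2,k36)],[(k7,k28),(k11,k32),(k3,
    k36)],[(k0,k24),(k8,k29),(k4,k32)],[(k9,k27),(k10,k31),(k5,k32)],[(k2,k28),(k1,k33),(k6,k36)],[(k11,k24),(k3,k32),
    (k7,k36)],[(k4,k27),(k0,k31),(k8,k40)],[(k10,k24),(k5,k29),(k9,k40)],[(k6,k24),(k2,k32),(k1,k41)],[(k8,k24),(k4,
    k31),(k0,k39)]]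
    [] k0
    [[k0,k0,k2,k0,k1,k0]]
    [.ref k2 k1 [(z1,[y1,z1])]]]⟩

/-- classes `0 0 0 0 0 0`, types `N0 N1 N0 N1 N2 N3` -/
noncomputable def cT6_39 : CertT :=
  ⟨[k12,k13,k12,k13,k14,k15],[(false,k0,[k0,k1,k2,k3,k4,k5])],[[[([z1,z0,z1,z0,z1,z0],z2)],[]]],
    [.leafM k5 [k2,k3,k4,k5,k0,k1] [(z1,[y1,z1]),(z1,[z1])] [],
    .lp [k2,k4,k4,k4,k4,k4] [k1,k1,k0,k0,k0,k0,k0,k0,k0,k0,k0,k0] k0 [] k12 k5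
    [[(k5,k3),(k8,k3),(k9,k3)],[(k5,k3),(k8,k3),(k9,k3)],[(k2,k4),(k6,k4),(k11,k4)],[(k3,k4),(k7,k4),(k10,k4)],[(k0,
    k3),(k1,k3),(k4,k4)],[(k5,k4),(k8,k4),(k9,k4)],[(k2,k4),(k6,k4),(k11,k4)],[(k3,k4),(k7,k4),(k10,k4)],[(k0,k3),(k1,
    k3),(k4,k4)],[(k0,k3),(k1,k3),(k4,k4)],[(k3,k4),(k7,k4),(k10,k4)],[(k2,k4),(k6,k4),(k11,k4)]]
    [] k0
    [[k1,k0,k1,k0,k1,k0]]
    [.ref k0 k0 [(z1,[z1])]]]⟩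

/-- classes `0 0 0 0 0 0`, types `N0 N1 N0 N1 N3 N2` -/
noncomputable def cT6_40 : CertT :=
  ⟨[k12,k13,k12,k13,k15,k14],[(false,k0,[k0,k1,k2,k3,k4,k5])],[[[([z3,z0,z0,z0,z3,z0],z4),([z0,z3,z0,z0,z0,z0],z2),
    ([z0,z0,z3,z0,z0,z0],z2),([z0,z0,z0,z3,z0,z0],z2)],[([z1,z0,z0,z0,z1,z1],z2),([z0,z3,z0,z0,z0,z0],z2),([z0,z0,z1,
    z0,z0,y1],z0)],[([z1,z0,z0,z0,z1,z1],z2),([z0,z1,z0,z0,z0,y1],z0),([z0,z0,z1,z0,z0,y1],z0)],[([z1,z0,z0,z0,z1,z1],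
    z2),([z0,z1,z0,z1,z0,z1],z2)],[([z1,z0,z1,z0,z1,z0],z2),([z0,z3,z0,z0,z0,z0],z2),([z0,z0,z0,z3,z0,z0],z2)],[([z1,
    z0,z1,z0,z1,z0],z2),([z0,z3,z0,z0,z0,z0],z2)],[([z1,z0,z1,z0,z1,z0],z2)],[]]],
    [.leafM k2 [k0,k1,k2,k3,k4,k5] [(z1,[z0,z1]),(z1,[z0,z0,z0,z1]),(z1,[y1,y1,y1,y1,z3])] [],
    .lp [k66,k86,k80,k70,k110,k64] [k22,k22,k12,k12,k15,k15,k20,k20,k0,k0,k23,k23] k0 [[],[k0,k0,k0,k0,k0,k0,k0,k2],[k0,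
    k0,k0,k0,k0,k0,k0,k0,k0,k24],[],[k0,k0,k0,k0,k0,k0,k16],[k0,k0,k0,k0,k0,k0,k0,k0,k0,k0,k8],[k2],[k0,k0,k0,k0,k0,
    k16],[k0,k0,k0,k24],[],[],[k0,k0,k0,k0,k8]] (nat_lit 240) k5
    [[(k7,k60),(k3,k76),(k8,k88)],[(k10,k65),(k5,k73),(k9,k90)],[(k1,k76),(k6,k76),(k2,k86)],[(k8,k74),(k7,k78),(k3,
    k86)],[(k0,k73),(k4,k80),(k11,k96)],[(k9,k79),(k5,k80),(k10,k80)],[(k1,k60),(k2,k78),(k6,k86)],[(k3,k76),(k7,k86),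
    (k8,k90)],[(k4,k79),(k11,k87),(k0,k90)],[(k2,k74),(k1,k88),(k6,k90)],[(k10,k64),(k9,k87),(k5,k96)],[(k11,k64),(k0,
    k65),(k4,k80)]]
    [] k0
    [[k0,k0,k0,k0,k0,k3]]
    [.ref k0 k0 [(z1,[y1,z3]),(z1,[z0,z0,z1]),(z1,[z1,z0,z0,z3]),(z1,[y1,y3,y1,y3,z3])]],
    .lp [k66,k86,k80,k70,k110,k64] [k22,k22,k12,k12,k15,k15,k20,k20,k0,k0,k23,k23] k0 [[],[k0,k0,k0,k0,k0,k0,k0,k2],[k0,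
    k0,k0,k0,k0,k0,k0,k0,k0,k24],[],[k0,k0,k0,k0,k0,k0,k16],[k0,k0,k0,k0,k0,k0,k0,k0,k0,k0,k8],[k2],[k0,k0,k0,k0,k0,
    k16],[k0,k0,k0,k24],[],[],[k0,k0,k0,k0,k8]] (nat_lit 240) k5
    [[(k7,k60),(k3,k76),(k8,k88)],[(k10,k65),(k5,k73),(k9,k90)],[(k1,k76),(k6,k76),(k2,k86)],[(k8,k74),(k7,k78),(k3,
    k86)],[(k0,k73),(k4,k80),(k11,k96)],[(k9,k79),(k5,k80),(k10,k80)],[(k1,k60),(k2,k78),(k6,k86)],[(k3,k76),(k7,k86),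
    (k8,k90)],[(k4,k79),(k11,k87),(k0,k90)],[(k2,k74),(k1,k88),(k6,k90)],[(k10,k64),(k9,k87),(k5,k96)],[(k11,k64),(k0,
    k65),(k4,k80)]]
    [] k0
    [[k0,k0,k0,k0,k0,k3]]
    [.ref k0 k0 [(z1,[y1,z3]),(z1,[z1,z0,z3]),(z1,[z1,z0,z0,z3]),(z1,[y2,y3,y3,y3,z3])]],
    .lp [k28,k32,k40,k42,k56,k40] [k14,k14,k12,k12,k8,k8,k7,k7,k0,k0,k8,k8] k0 [[k0,k0,k0,k0,k0,k0,k0,k0,k0,k0,k0,k4],[],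
    [],[],[k0,k0,k0,k0,k0,k0,k4],[],[],[k0,k0,k0,k0,k0,k4],[],[],[k0,k4]] k120 k5
    [[(k3,k34),(k7,k35),(k8,k42)],[(k10,k30),(k5,k34),(k9,k42)],[(k2,k32),(k1,k34),(k6,k37)],[(k3,k32),(k7,k37),(k8,
    k44)],[(k0,k34),(k4,k40),(k11,k40)],[(k5,k40),(k10,k40),(k9,k44)],[(k1,k35),(k2,k37),(k6,k46)],[(k3,k37),(k7,k46),
    (k8,k49)],[(k0,k42),(k4,k44),(k11,k48)],[(k1,k42),(k2,k44),(k6,k49)],[(k5,k40),(k10,k40),(k9,k48)],[(k0,k30),(k4,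
    k40),(k11,k40)]]
    [] k0
    [[k0,k3,k0,k0,k0,k0],[k0,k2,k0,k1,k0,k0]]
    [.ref k1 k0 [(z1,[z0,z1]),(z1,[z1]),(z1,[z0,y1,y1,z1])],.ref k2 k0 [(z1,[z0,z1]),(z1,[z1,z0,y1]),(z1,[z0,y1,y1,
    z1])]],
    .leafM k2 [k0,k1,k2,k3,k4,k5] [(z1,[z0,z1]),(z1,[z0,z0,z1]),(z1,[y3,y1,y1,z3])] [],
    .lp [k66,k86,k80,k70,k110,k64] [k22,k22,k12,k12,k15,k15,k20,k20,k0,k0,k23,k23] k0 [[],[k0,k0,k0,k0,k0,k0,k0,k2],[k0,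
    k0,k0,k0,k0,k0,k0,k0,k0,k24],[],[k0,k0,k0,k0,k0,k0,k16],[k0,k0,k0,k0,k0,k0,k0,k0,k0,k0,k8],[k2],[k0,k0,k0,k0,k0,
    k16],[k0,k0,k0,k24],[],[],[k0,k0,k0,k0,k8]] (nat_lit 240) k5
    [[(k7,k60),(k3,k76),(k8,k88)],[(k10,k65),(k5,k73),(k9,k90)],[(k1,k76),(k6,k76),(k2,k86)],[(k8,k74),(k7,k78),(k3,
    k86)],[(k0,k73),(k4,k80),(k11,k96)],[(k9,k79),(k5,k80),(k10,k80)],[(k1,k60),(k2,k78),(k6,k86)],[(k3,k76),(k7,k86),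
    (k8,k90)],[(k4,k79),(k11,k87),(k0,k90)],[(k2,k74),(k1,k88),(k6,k90)],[(k10,k64),(k9,k87),(k5,k96)],[(k11,k64),(k0,
    k65),(k4,k80)]]
    [] k0
    [[k0,k0,k0,k0,k0,k3]]
    [.ref k4 k0 [(z1,[z0,z1]),(z1,[z0,z0,z1]),(z1,[y1,y3,y1,z3])]],
    .lp [k16,k14,k20,k16,k16,k12] [k2,k2,k3,k3,k0,k0,k2,k2,k2,k2,k4,k4] k0 [[k0,k0,k0,k0,k0,k0,k0,k0,k0,k0,k0,k2],[],[],
    [k0,k0,k0,k0,k0,k4],[k0,k0,k4],[],[],[],[k0,k0,k0,k0,k0,k0,k0,k0,k0,k0,k4],[],[k0,k2],[k0,k0,k0,k0,k0,k0,k0,k0,k0,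
    k4]] k48 k5
    [[(k8,k12),(k7,k16),(k3,k17)],[(k10,k12),(k9,k16),(k5,k18)],[(k2,k14),(k6,k15),(k1,k17)],[(k3,k14),(k8,k15),(k7,
    k19)],[(k4,k16),(k11,k16),(k0,k18)],[(k5,k16),(k10,k16),(k9,k18)],[(k1,k16),(k6,k16),(k2,k19)],[(k3,k15),(k7,k16),
    (k8,k16)],[(k11,k14),(k0,k16),(k4,k18)],[(k1,k12),(k2,k15),(k6,k16)],[(k9,k14),(k5,k16),(k10,k16)],[(k0,k12),(k4,
    k16),(k11,k16)]]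
    [] k0
    [[k1,k0,k0,k0,k1,k1],[k0,k3,k0,k0,k0,k0]]
    [.ref k3 k0 [(z1,[z1]),(z1,[z0,y1,z1])],.ref k5 k0 [(z1,[z0,z1]),(z1,[z1])]],
    .lp [k32,k30,k32,k30,k32,k32] [k0,k0,k1,k1,k0,k0,k1,k1,k0,k0,k0,k0] k0 [[k0,k0,k8],[k0,k0,k0,k0,k0,k0,k0,k2],[],[k0,
    k8],[k0,k0,k0,k0,k0,k0,k8],[],[k2],[k0,k0,k0,k0,k0,k8]] k96 k5
    [[(k3,k31),(k7,k31),(k8,k32)],[(k5,k24),(k10,k32),(k9,k34)],[(k6,k28),(k1,k31),(k2,k38)],[(k7,k30),(k8,k31),(k3,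
    k38)],[(k0,k24),(k4,k32),(k11,k32)],[(k9,k24),(k5,k32),(k10,k32)],[(k2,k30),(k1,k31),(k6,k38)],[(k3,k28),(k8,k31),
    (k7,k38)],[(k4,k24),(k11,k32),(k0,k34)],[(k2,k31),(k6,k31),(k1,k32)],[(k5,k32),(k9,k32),(k10,k32)],[(k0,k32),(k4,
    k32),(k11,k32)]]
    [] k0
    [[k1,k0,k1,k0,k1,k0]]
    [.ref k6 k0 [(z1,[z1])]]]⟩

/-- classes `0 0 0 0 0 0`, types `N0 N1 N0 N2 N0 N2` -/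
noncomputable def cT6_41 : CertT :=
  ⟨[k12,k13,k12,k14,k12,k14],[(false,k0,[k0,k1,k2,k3,k4,k5])],[[[([z1,z1,z0,z0,z0,z1],z2)],[]]],
    [.leafM k6 [k2,k3,k4,k5,k0,k1] [(z1,[z1])] [],
    .lp [k2,k22,k22,k22,k2,k24] [k11,k11,k1,k1,k1,k1,k1,k1,k11,k11,k0,k0] k0 [[],[k0,k0,k0,k2],[k2],[k0,k0,k0,k0,k0,k2],
    [k0,k0,k2]] k48 k5
    [[(k3,k12),(k7,k12),(k11,k13)],[(k6,k12),(k10,k13),(k5,k14)],[(k1,k12),(k9,k12),(k2,k20)],[(k3,k20),(k11,k23),(k7,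
    k24)],[(k8,k12),(k0,k14),(k4,k20)],[(k5,k20),(k6,k22),(k10,k23)],[(k1,k12),(k9,k12),(k2,k24)],[(k0,k12),(k8,k12),
    (k4,k22)],[(k3,k12),(k7,k12),(k11,k13)],[(k5,k12),(k6,k12),(k10,k13)],[(k1,k13),(k9,k13),(k2,k23)],[(k0,k13),(k8,
    k13),(k4,k23)]]
    [] k0
    [[k0,k0,k1,k1,k1,k0]]
    [.ref k0 k0 [(z1,[y1,z1])]]]⟩

/-- classes `0 0 0 0 0 0`, types `N0 N1 N0 N2 N1 N3` -/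
noncomputable def cT6_42 : CertT :=
  ⟨[k12,k13,k12,k14,k13,k15],[],[[[]]],
    [.lp [k2,k4,k4,k4,k2,k4] [k1,k1,k0,k0,k0,k0,k0,k0,k1,k1,k0,k0] k0 [] k12 k5
    [[(k5,k3),(k6,k3),(k11,k3)],[(k5,k3),(k6,k3),(k11,k3)],[(k8,k3),(k9,k3),(k2,k4)],[(k3,k4),(k7,k4),(k10,k4)],[(k0,
    k3),(k1,k3),(k4,k4)],[(k5,k4),(k6,k4),(k11,k4)],[(k8,k3),(k9,k3),(k2,k4)],[(k0,k3),(k1,k3),(k4,k4)],[(k3,k3),(k7,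
    k3),(k10,k3)],[(k3,k3),(k7,k3),(k10,k3)],[(k0,k3),(k1,k3),(k4,k4)],[(k8,k3),(k9,k3),(k2,k4)]]
    [] k0
    []
    []]⟩

/-- classes `0 0 0 0 0 0`, types `N0 N1 N0 N2 N3 N2` -/
noncomputable def cT6_43 : CertT :=
  ⟨[k12,k13,k12,k14,k15,k14],[(false,k0,[k0,k1,k2,k3,k4,k5]),(false,k3,[k3,k4,k5,k0,k1,k2]),(true,k3,[k3,k2,k1,k0,k5,
    k4])],[[[([z3,z0,z0,z3,z0,z0],z4),([z0,z3,z0,z0,z0,z0],z2),([z0,z0,z3,z0,z0,z0],z2),([z0,z0,z0,z0,z3,z0],z2)],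
    [([z2,z0,z0,z2,z0,y1],z2),([z0,z2,z0,z0,z0,z1],z2),([z0,z0,z2,z0,z0,z1],z2)],[([z1,z0,z0,z1,z0,y2],z0),([z0,z1,z0,
    z0,z0,y1],z0),([z0,z0,z1,z0,z0,z2],z2)],[([z1,z0,z0,z1,z0,z1],z2),([z0,z1,z0,z0,z0,y1],z0)],[([z1,z0,z0,z1,y1,y1],
    z0),([z0,z1,z0,z0,z1,z1],z2)],[([z1,z0,z0,z1,z0,z1],z2)],[]]],
    [.tor k9 false k1 [(z3,[z0,z2,z0,z1]),(z3,[z1,z0,z0,z1]),(z3,[z1,z0,z1]),(z3,[y2,y2,y1,y2,z6])],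
    .lp [k12,k14,k16,k22,k14,k16] [k5,k5,k4,k4,k3,k3,k0,k0,k4,k4,k3,k3] k0 [[k0,k0,k2],[],[],[k0,k2],[],[],[k0,k0,k0,k0,
    k0,k0,k0,k0,k6],[],[],[k0,k0,k0,k0,k0,k0,k0,k6]] k48 k5
    [[(k3,k13),(k8,k13),(k7,k17)],[(k5,k12),(k10,k14),(k6,k17)],[(k1,k13),(k9,k14),(k2,k16)],[(k8,k14),(k3,k16),(k7,
    k18)],[(k0,k12),(k4,k16),(k11,k16)],[(k5,k16),(k10,k16),(k6,k19)],[(k1,k17),(k2,k18),(k9,k18)],[(k11,k13),(k0,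
    k17),(k4,k19)],[(k3,k14),(k7,k18),(k8,k20)],[(k1,k13),(k2,k14),(k9,k20)],[(k6,k13),(k5,k16),(k10,k16)],[(k0,k14),
    (k4,k16),(k11,k16)]]
    [] k0
    [[k1,k0,k0,k1,k0,k1],[k0,k2,k0,k0,k1,k0]]
    [.ref k0 k0 [(z1,[z1,z1]),(z2,[y2,z1,z3]),(z2,[y2,z1,z0,z3]),(z2,[y2,y2,y3,y3,z6])],.ref k0 k0 [(z2,[y2,z2,z1,y1,
    z2]),(z2,[z2,z1,z2,z1,y2]),(z2,[z2,z1,y1,z4,y2]),(z1,[z1,y1,y2,y1,z2])]],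
    .tor k9 false k1 [(z1,[y1,z1,y1,z1]),(z1,[z0,y1,y1,z1]),(z1,[z1,z0,z1]),(z1,[z0,z0,z1])],
    .lp [k20,k16,k16,k12,k16,k14] [k0,k0,k2,k2,k2,k2,k4,k4,k2,k2,k3,k3] k0 [[],[],[],[],[k0,k0,k0,k0,k0,k0,k0,k0,k0,k0,k0,
    k2],[],[],[],[k0,k0,k0,k0,k0,k0,k0,k0,k0,k0,k6],[],[k0,k0,k0,k0,k0,k2],[k0,k0,k0,k0,k0,k0,k0,k0,k0,k6]] k48 k5
    [[(k8,k12),(k3,k18),(k7,k18)],[(k6,k16),(k10,k17),(k5,k18)],[(k2,k16),(k9,k16),(k1,k18)],[(k7,k14),(k3,k16),(k8,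
    k16)],[(k11,k15),(k4,k16),(k0,k18)],[(k10,k13),(k6,k14),(k5,k16)],[(k2,k14),(k9,k14),(k1,k18)],[(k11,k13),(k4,
    k14),(k0,k16)],[(k7,k14),(k3,k16),(k8,k16)],[(k1,k12),(k2,k16),(k9,k16)],[(k6,k13),(k5,k15),(k10,k20)],[(k4,k13),
    (k0,k17),(k11,k20)]]
    [] k0
    [[k1,k0,k0,k1,k1,k0],[k0,k0,k2,k0,k0,k1]]
    [.ref k1 k1 [(z1,[z1,z2,z1,y1]),(z1,[z1,y2,y1,z1]),(z1,[y1,z0,y1,z1])],.ref k2 k1 [(z1,[y1,z1]),(z1,[y1,y1,y1,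
    z1]),(z1,[z1])]],
    .lp [k96,k88,k102,k64,k88,k68] [k3,k3,k7,k7,k0,k0,k19,k19,k7,k7,k17,k17] k0 [[k0,k0,k0,k0,k0,k0,k0,k0,k0,k0,k0,k16],
    [],[],[],[],[k0,k0,k0,k0,k0,k0,k2],[],[k0,k0,k0,k0,k2],[k0,k0,k0,k0,k0,k0,k0,k0,k0,k0,k26],[],[k0,k16],[k0,k0,k0,
    k0,k0,k0,k0,k0,k0,k26]] (nat_lit 264) k5
    [[(k8,k66),(k7,k80),(k3,k108)],[(k10,k66),(k6,k80),(k5,k99)],[(k2,k88),(k9,k88),(k1,k108)],[(k7,k76),(k3,k88),(k8,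
    k88)],[(k11,k85),(k0,k99),(k4,k102)],[(k6,k85),(k10,k85),(k5,k102)],[(k9,k74),(k2,k76),(k1,k80)],[(k11,k66),(k0,
    k80),(k4,k85)],[(k7,k74),(k3,k88),(k8,k88)],[(k1,k66),(k2,k88),(k9,k88)],[(k6,k66),(k5,k85),(k10,k94)],[(k0,k66),
    (k4,k85),(k11,k94)]]
    [] k0
    [[k1,k0,k0,k1,k0,k1],[k1,k0,k0,k1,k1,k0]]
    [.ref k1 k2 [(z1,[z1,z1]),(z1,[y1,y1,y2,z2]),(z1,[y1,z1,z2])],.ref k1 k0 [(z1,[z1,z1]),(z1,[y1,z1,z2]),(z1,[y1,y1,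
    y2,z2])]],
    .lp [k8,k16,k18,k16,k16,k18] [k5,k5,k1,k1,k0,k0,k1,k1,k1,k1,k0,k0] k0 [[],[],[],[],[k0,k0,k0,k0,k0,k0,k0,k0,k0,k0,k0,
    k6],[],[],[],[],[],[k0,k0,k0,k0,k0,k6]] k48 k5
    [[(k3,k12),(k8,k12),(k7,k18)],[(k6,k12),(k5,k13),(k10,k13)],[(k1,k12),(k2,k16),(k9,k16)],[(k3,k16),(k7,k16),(k8,
    k16)],[(k0,k13),(k4,k18),(k11,k18)],[(k10,k12),(k6,k17),(k5,k18)],[(k2,k16),(k9,k16),(k1,k18)],[(k0,k12),(k4,k17),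
    (k11,k17)],[(k3,k16),(k7,k16),(k8,k16)],[(k1,k12),(k2,k16),(k9,k16)],[(k6,k17),(k5,k18),(k10,k18)],[(k4,k12),(k0,
    k13),(k11,k18)]]
    [] k0
    [[k1,k1,k0,k1,k0,k0],[k1,k0,k0,k1,k1,k0]]
    [.ref k3 k0 [(z1,[z0,z1]),(z1,[z1,y1])],.ref k4 k1 [(z1,[z1,z1,y1]),(z1,[z0,y1,z1])]],
    .lp [k96,k88,k102,k64,k88,k68] [k3,k3,k7,k7,k0,k0,k19,k19,k7,k7,k17,k17] k0 [[k0,k0,k0,k0,k0,k0,k0,k0,k0,k0,k0,k16],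
    [],[],[],[],[k0,k0,k0,k0,k0,k0,k2],[],[k0,k0,k0,k0,k2],[k0,k0,k0,k0,k0,k0,k0,k0,k0,k0,k26],[],[k0,k16],[k0,k0,k0,
    k0,k0,k0,k0,k0,k0,k26]] (nat_lit 264) k5
    [[(k8,k66),(k7,k80),(k3,k108)],[(k10,k66),(k6,k80),(k5,k99)],[(k2,k88),(k9,k88),(k1,k108)],[(k7,k76),(k3,k88),(k8,
    k88)],[(k11,k85),(k0,k99),(k4,k102)],[(k6,k85),(k10,k85),(k5,k102)],[(k9,k74),(k2,k76),(k1,k80)],[(k11,k66),(k0,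
    k80),(k4,k85)],[(k7,k74),(k3,k88),(k8,k88)],[(k1,k66),(k2,k88),(k9,k88)],[(k6,k66),(k5,k85),(k10,k94)],[(k0,k66),
    (k4,k85),(k11,k94)]]
    [] k0
    [[k1,k0,k0,k1,k0,k1],[k1,k0,k0,k1,k1,k0]]
    [.ref k5 k0 [(z1,[z1])],.ref k5 k2 [(z1,[z1])]]]⟩

/-- classes `0 0 0 0 0 0`, types `N0 N1 N2 N0 N1 N3` -/
noncomputable def cT6_44 : CertT :=
  ⟨[k12,k13,k14,k12,k13,k15],[],[[[]]],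
    [.lp [k0,k4,k6,k2,k4,k6] [k3,k3,k1,k1,k0,k0,k2,k2,k1,k1,k0,k0] k0 [] k12 k5
    [[(k4,k3),(k5,k3),(k11,k3)],[(k4,k3),(k5,k3),(k11,k3)],[(k7,k3),(k2,k4),(k8,k4)],[(k3,k4),(k9,k4),(k10,k5)],[(k0,
    k3),(k1,k3),(k6,k4)],[(k0,k3),(k1,k3),(k6,k4)],[(k3,k3),(k9,k3),(k10,k4)],[(k4,k4),(k5,k4),(k11,k4)],[(k7,k3),(k2,
    k4),(k8,k4)],[(k3,k4),(k9,k4),(k10,k5)],[(k0,k3),(k1,k3),(k6,k4)],[(k7,k4),(k2,k5),(k8,k5)]]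
    [] k0
    []
    []]⟩

/-- classes `0 0 0 0 0 0`, types `N0 N1 N2 N0 N2 N3` -/
noncomputable def cT6_45 : CertT :=
  ⟨[k12,k13,k14,k12,k14,k15],[],[[[]]],
    [.lp [k0,k4,k6,k2,k6,k4] [k3,k3,k1,k1,k0,k0,k2,k2,k0,k0,k1,k1] k0 [] k12 k5
    [[(k4,k3),(k5,k3),(k8,k3)],[(k4,k3),(k5,k3),(k8,k3)],[(k7,k3),(k2,k4),(k11,k4)],[(k3,k4),(k10,k4),(k9,k5)],[(k0,
    k3),(k1,k3),(k6,k4)],[(k0,k3),(k1,k3),(k6,k4)],[(k3,k3),(k10,k3),(k9,k4)],[(k4,k4),(k5,k4),(k8,k4)],[(k7,k4),(k2,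
    k5),(k11,k5)],[(k0,k3),(k1,k3),(k6,k4)],[(k3,k4),(k10,k4),(k9,k5)],[(k7,k3),(k2,k4),(k11,k4)]]
    [] k0
    []
    []]⟩

/-- classes `0 0 0 0 0 0`, types `N0 N1 N2 N0 N3 N2` -/
noncomputable def cT6_46 : CertT :=
  ⟨[k12,k13,k14,k12,k15,k14],[],[[[]]],
    [.lp [k2,k4,k4,k2,k4,k4] [k1,k1,k0,k0,k0,k0,k1,k1,k0,k0,k0,k0] k0 [] k12 k5
    [[(k3,k3),(k8,k3),(k9,k3)],[(k4,k3),(k5,k3),(k10,k3)],[(k1,k3),(k7,k3),(k2,k4)],[(k3,k4),(k8,k4),(k9,k4)],[(k0,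
    k3),(k6,k3),(k11,k4)],[(k0,k3),(k6,k3),(k11,k4)],[(k3,k3),(k8,k3),(k9,k3)],[(k4,k3),(k5,k3),(k10,k3)],[(k1,k3),
    (k7,k3),(k2,k4)],[(k1,k3),(k7,k3),(k2,k4)],[(k4,k4),(k5,k4),(k10,k4)],[(k0,k3),(k6,k3),(k11,k4)]]
    [] k0
    []
    []]⟩

/-- classes `0 0 0 0 0 0`, types `N0 N1 N2 N1 N0 N3` -/
noncomputable def cT6_47 : CertT :=
  ⟨[k12,k13,k14,k13,k12,k15],[(false,k0,[k0,k1,k2,k3,k4,k5])],[[[([z1,z0,z1,z0,z1,z0],z2)],[]]],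
    [.leafM k1 [k0,k1,k2,k3,k4,k5] [(z1,[y1,z1]),(z1,[z1])] [],
    .lp [k0,k4,k6,k2,k6,k4] [k3,k3,k1,k1,k0,k0,k2,k2,k0,k0,k1,k1] k0 [] k12 k5
    [[(k4,k3),(k5,k3),(k9,k3)],[(k4,k3),(k5,k3),(k9,k3)],[(k6,k3),(k7,k3),(k2,k4)],[(k3,k4),(k10,k4),(k11,k4)],[(k0,
    k3),(k1,k3),(k8,k6)],[(k0,k3),(k1,k3),(k8,k6)],[(k3,k3),(k10,k3),(k11,k3)],[(k3,k3),(k10,k3),(k11,k3)],[(k0,k3),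
    (k1,k3),(k8,k6)],[(k4,k6),(k5,k6),(k9,k6)],[(k6,k3),(k7,k3),(k2,k4)],[(k6,k3),(k7,k3),(k2,k4)]]
    [] k0
    [[k0,k1,k0,k1,k0,k1]]
    [.ref k0 k0 [(z1,[y1,z1])]]]⟩

/-- classes `0 0 0 0 0 0`, types `N0 N1 N3 N1 N0 N2` -/
noncomputable def cT6_48 : CertT :=
  ⟨[k12,k13,k15,k13,k12,k14],[(false,k0,[k0,k1,k2,k3,k4,k5]),(true,k2,[k2,k1,k0,k5,k4,k3])],[[[([z1,z0,z1,z0,z1,z0],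
    z2)],[([z1,z0,z0,z0,z1,z1],z2)],[]]],
    [.leafM k1 [k0,k1,k2,k3,k4,k5] [(z1,[y1,z1]),(z1,[z1])] [],
    .leafM k6 [k1,k2,k3,k4,k5,k0] [(z1,[z1])] [],
    .lp [k26,k74,k78,k22,k70,k98] [k36,k36,k12,k12,k10,k10,k38,k38,k14,k14,k0,k0] k0 [[k0,k0,k0,k0,k0,k0,k0,k0,k0,k0,k0,
    k14],[],[],[],[k0,k0,k0,k0,k0,k0,k0,k2],[],[k0,k0,k0,k0,k0,k2],[],[],[],[k0,k14]] k192 k5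
    [[(k4,k52),(k11,k62),(k3,k64)],[(k9,k48),(k10,k48),(k5,k52)],[(k6,k48),(k1,k64),(k2,k74)],[(k3,k74),(k4,k76),(k11,
    k86)],[(k7,k50),(k0,k52),(k8,k74)],[(k6,k48),(k1,k52),(k2,k76)],[(k9,k48),(k5,k50),(k10,k60)],[(k3,k48),(k4,k48),
    (k11,k60)],[(k0,k48),(k7,k48),(k8,k70)],[(k9,k70),(k5,k74),(k10,k84)],[(k6,k60),(k1,k62),(k2,k86)],[(k0,k48),(k7,
    k60),(k8,k84)]]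
    [] k0
    [[k1,k0,k1,k0,k1,k0],[k0,k1,k1,k1,k0,k0],[k0,k0,k1,k1,k1,k0]]
    [.ref k0 k0 [(z1,[z1])],.ref k1 k0 [(z1,[y1,z1])],.ref k1 k1 [(z1,[z1])]]]⟩

/-- classes `0 0 0 0 0 0`, types `N0 N1 N3 N1 N3 N2` -/
noncomputable def cT6_49 : CertT :=
  ⟨[k12,k13,k15,k13,k15,k14],[(false,k0,[k0,k1,k2,k3,k4,k5])],[[[([z1,z0,z0,z0,z1,z1],z2),([z0,z1,z0,z0,z0,y1],z0),
    ([z0,z0,z1,z0,y1,z0],z0)],[([z1,z0,z0,z0,z1,z1],z2),([z0,z1,z0,z1,z1,z0],z2)],[([z1,z0,z0,z0,z1,z1],z2),([z0,z1,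
    z1,z0,y1,y1],z0)],[([z1,z0,z0,z0,z1,z1],z2)],[([z1,z0,z0,y1,z0,z0],z0),([z0,z1,z0,z1,z1,z0],z2)],[([z1,z0,z1,z0,
    z0,z1],z2)],[]]],
    [.tor k2 false k2 [(z1,[y1,y1,z0,z1]),(z1,[z1,z0,z1]),(z1,[y1,z0,y1,z1]),(z1,[z1,z1])],
    .lp [k8,k10,k8,k4,k8,k8] [k1,k1,k0,k0,k1,k1,k3,k3,k1,k1,k1,k1] k0 [[k0,k0,k0,k0,k0,k0,k2],[],[],[],[],[],[],[k0,
    k2]] k24 k5
    [[(k4,k8),(k8,k8),(k3,k9)],[(k9,k6),(k5,k8),(k10,k8)],[(k1,k9),(k6,k9),(k2,k10)],[(k4,k9),(k8,k9),(k3,k10)],[(k7,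
    k6),(k0,k8),(k11,k8)],[(k6,k6),(k1,k8),(k2,k9)],[(k5,k6),(k9,k6),(k10,k6)],[(k4,k6),(k8,k6),(k3,k9)],[(k0,k6),(k7,
    k6),(k11,k8)],[(k6,k6),(k1,k8),(k2,k9)],[(k5,k8),(k9,k8),(k10,k8)],[(k7,k6),(k0,k8),(k11,k8)]]
    [] k0
    [[k0,k0,k1,k1,k0,k1],[k0,k0,k0,k1,k1,k1]]
    [.ref k0 k0 [(z1,[z0,z1]),(z1,[y1,y1,z0,z1]),(z1,[z0,y1,y1,z1])],.ref k0 k0 [(z1,[z0,z1]),(z1,[y1,z0,z1]),(z1,[z0,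
    y1,y1,z1])]],
    .lp [k5,k8,k10,k4,k9,k10] [k2,k3,k1,k1,k0,k0,k3,k3,k1,k0,k0,k0] k0 [[k0,k0,k0,k0,k0,k0,k2],[],[],[k0,k0,k0,k0,k1],[k0,
    k0,k0,k0,k0,k0,k0,k1,k0,k0,k1],[k0,k0,k1],[k0,k0,k0,k0,k0,k1],[k0,k2],[],[],[],[k0,k0,k0,k0,k0,k1]] k24 k5
    [[(k3,k6),(k4,k6),(k8,k6)],[(k9,k6),(k5,k8),(k10,k8)],[(k1,k6),(k2,k8),(k6,k8)],[(k3,k8),(k8,k8),(k4,k10)],[(k7,
    k6),(k0,k8),(k11,k10)],[(k1,k6),(k6,k6),(k2,k10)],[(k5,k6),(k9,k8),(k10,k8)],[(k4,k6),(k8,k6),(k3,k8)],[(k0,k6),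
    (k7,k8),(k11,k10)],[(k1,k6),(k6,k6),(k2,k8)],[(k5,k10),(k9,k10),(k10,k10)],[(k0,k8),(k7,k8),(k11,k10)]]
    [] k0
    [[k1,k1,k0,k0,k1,k0]]
    [.ref k0 k0 [(z1,[z0,z1]),(z1,[z1,y1]),(z1,[y1,z1,z1])]],
    .lp [k12,k52,k60,k8,k56,k50] [k24,k24,k4,k4,k0,k0,k26,k26,k2,k2,k5,k5] k0 [[],[],[],[],[k0,k0,k0,k0,k0,k0,k0,k0,k0,k0,
    k2],[],[k0,k0,k0,k0,k0,k0,k0,k0,k0,k2],[],[k0,k0,k0,k0,k0,k0,k0,k2],[],[],[k0,k0,k0,k0,k0,k2]] k120 k5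
    [[(k3,k32),(k4,k34),(k8,k34)],[(k10,k31),(k9,k34),(k5,k36)],[(k6,k30),(k1,k32),(k2,k52)],[(k3,k52),(k8,k54),(k4,
    k56)],[(k7,k34),(k0,k36),(k11,k55)],[(k1,k34),(k6,k34),(k2,k56)],[(k10,k31),(k9,k32),(k5,k34)],[(k3,k30),(k8,k30),
    (k4,k34)],[(k7,k32),(k0,k34),(k11,k55)],[(k6,k30),(k1,k34),(k2,k54)],[(k10,k50),(k5,k55),(k9,k55)],[(k0,k31),(k7,
    k31),(k11,k50)]]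
    [] k0
    [[k0,k1,k0,k1,k1,k0],[k0,k0,k0,k1,k1,k1]]
    [.ref k1 k0 [(z1,[z0,z1]),(z1,[z1])],.ref k2 k0 [(z1,[z0,z1]),(z1,[y1,y1,z1])]],
    .tor k2 false k2 [(z1,[y1,y1,z1]),(z1,[z0,y1,z1]),(z1,[z0,z1]),(z1,[z1,z1])],
    .lp [k5,k8,k10,k4,k9,k10] [k2,k3,k1,k1,k0,k0,k3,k3,k1,k0,k0,k0] k0 [[k0,k0,k0,k0,k0,k0,k2],[],[],[k0,k0,k0,k0,k1],[k0,
    k0,k0,k0,k0,k0,k0,k1,k0,k0,k1],[k0,k0,k1],[k0,k0,k0,k0,k0,k1],[k0,k2],[],[],[],[k0,k0,k0,k0,k0,k1]] k24 k5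
    [[(k3,k6),(k4,k6),(k8,k6)],[(k9,k6),(k5,k8),(k10,k8)],[(k1,k6),(k2,k8),(k6,k8)],[(k3,k8),(k8,k8),(k4,k10)],[(k7,
    k6),(k0,k8),(k11,k10)],[(k1,k6),(k6,k6),(k2,k10)],[(k5,k6),(k9,k8),(k10,k8)],[(k4,k6),(k8,k6),(k3,k8)],[(k0,k6),
    (k7,k8),(k11,k10)],[(k1,k6),(k6,k6),(k2,k8)],[(k5,k10),(k9,k10),(k10,k10)],[(k0,k8),(k7,k8),(k11,k10)]]
    [] k0
    [[k1,k1,k0,k0,k1,k0]]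
    [.ref k4 k0 [(z1,[z1,z1,y1]),(z1,[z0,y1,z1])]],
    .lp [k6,k8,k8,k4,k8,k12] [k3,k3,k2,k2,k2,k2,k4,k4,k2,k2,k0,k0] k0 [[k0,k0,k0,k0,k0,k0,k0,k0,k0,k0,k0,k2],[],[],[],[],
    [],[],[],[],[],[k0,k2]] k24 k5
    [[(k4,k7),(k8,k7),(k3,k9)],[(k5,k7),(k9,k7),(k10,k7)],[(k6,k6),(k2,k8),(k1,k9)],[(k3,k8),(k4,k8),(k8,k8)],[(k7,
    k6),(k0,k7),(k11,k10)],[(k6,k6),(k1,k7),(k2,k8)],[(k5,k6),(k9,k6),(k10,k8)],[(k3,k6),(k4,k6),(k8,k6)],[(k7,k6),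
    (k0,k7),(k11,k10)],[(k6,k6),(k1,k7),(k2,k8)],[(k5,k10),(k9,k10),(k10,k12)],[(k0,k7),(k7,k8),(k11,k12)]]
    [] k0
    [[k0,k1,k1,k1,k0,k0],[k0,k1,k0,k1,k1,k0]]
    [.ref k3 k0 [(z1,[y1,z1])],.ref k5 k0 [(z1,[y1,z1])]]]⟩

/-- classes `0 0 0 0 0 0`, types `N0 N2 N0 N2 N0 N2` -/
noncomputable def cT6_50 : CertT :=
  ⟨[k12,k14,k12,k14,k12,k14],[],[[[]]],
    [.lp [k0,k2,k0,k2,k0,k2] [k1,k1,k0,k0,k1,k1,k0,k0,k1,k1,k0,k0] k0 [] k4 k5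
    [[(k3,k1),(k7,k1),(k11,k1)],[(k2,k1),(k6,k1),(k10,k1)],[(k1,k1),(k5,k1),(k9,k1)],[(k0,k1),(k4,k1),(k8,k1)],[(k3,
    k1),(k7,k1),(k11,k1)],[(k2,k1),(k6,k1),(k10,k1)],[(k1,k1),(k5,k1),(k9,k1)],[(k0,k1),(k4,k1),(k8,k1)],[(k3,k1),(k7,
    k1),(k11,k1)],[(k2,k1),(k6,k1),(k10,k1)],[(k1,k1),(k5,k1),(k9,k1)],[(k0,k1),(k4,k1),(k8,k1)]]
    [] k0
    []
    []]⟩

/-- classes `0 0 0 0 0 0`, types `N0 N2 N0 N2 N1 N3` -/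
noncomputable def cT6_51 : CertT :=
  ⟨[k12,k14,k12,k14,k13,k15],[],[[[]]],
    [.lp [k0,k2,k0,k2,k0,k2] [k1,k1,k0,k0,k1,k1,k0,k0,k1,k1,k0,k0] k0 [] k4 k5
    [[(k2,k1),(k6,k1),(k11,k1)],[(k2,k1),(k6,k1),(k11,k1)],[(k5,k1),(k8,k1),(k9,k1)],[(k0,k1),(k1,k1),(k4,k1)],[(k3,
    k1),(k7,k1),(k10,k1)],[(k2,k1),(k6,k1),(k11,k1)],[(k5,k1),(k8,k1),(k9,k1)],[(k0,k1),(k1,k1),(k4,k1)],[(k3,k1),(k7,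
    k1),(k10,k1)],[(k3,k1),(k7,k1),(k10,k1)],[(k0,k1),(k1,k1),(k4,k1)],[(k5,k1),(k8,k1),(k9,k1)]]
    [] k0
    []
    []]⟩

/-- classes `0 0 0 0 0 0`, types `N0 N2 N1 N2 N0 N3` -/
noncomputable def cT6_52 : CertT :=
  ⟨[k12,k14,k13,k14,k12,k15],[],[[[]]],
    [.lp [k0,k2,k0,k2,k0,k2] [k1,k1,k0,k0,k1,k1,k0,k0,k1,k1,k0,k0] k0 [] k4 k5
    [[(k2,k1),(k6,k1),(k7,k1)],[(k2,k1),(k6,k1),(k7,k1)],[(k4,k1),(k5,k1),(k9,k1)],[(k0,k1),(k1,k1),(k8,k1)],[(k3,k1),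
    (k10,k1),(k11,k1)],[(k3,k1),(k10,k1),(k11,k1)],[(k0,k1),(k1,k1),(k8,k1)],[(k0,k1),(k1,k1),(k8,k1)],[(k3,k1),(k10,
    k1),(k11,k1)],[(k2,k1),(k6,k1),(k7,k1)],[(k4,k1),(k5,k1),(k9,k1)],[(k4,k1),(k5,k1),(k9,k1)]]
    [] k0
    []
    []]⟩

/-- classes `0 0 0 0 0 1`, types `C0 C0 C0 C0 C0 C0` -/
noncomputable def cT6_53 : CertT :=
  ⟨[k4,k4,k4,k4,k4,k20],[(false,k0,[k0,k1,k2,k3,k4,k5]),(true,k5,[k5,k4,k3,k2,k1,k0])],[[[([z1,z0,z0,z0,z1,z1],z2)],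
    [([z1,z0,z0,z0,z1,z1],z2),([z0,z1,z1,z0,y2,z0],z0)],[([z1,z0,z0,z0,z1,z1],z2),([z0,z1,z0,y1,z0,z0],z0)],[([z1,z0,
    z0,z0,y2,z1],z0),([z0,z1,z0,z0,y1,z0],z0),([z0,z0,z1,z0,z2,z0],z2)],[([z2,z0,z0,z0,y1,z2],z2),([z0,z2,z0,z0,z1,
    z0],z2),([z0,z0,z1,z0,y1,z0],z0)],[([z2,z0,z1,z0,y2,z2],z2),([z0,z2,z1,z0,z0,z0],z2)],[([z2,z0,z1,z2,z2,z2],z6)],
    []]],
    [.leafM k0 [k0,k1,k2,k3,k4,k5] [(z1,[y1,z1])] [],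
    .leafM k0 [k0,k1,k2,k3,k4,k5] [(z1,[y1,z0,z1])] [],
    .leafM k0 [k0,k1,k2,k3,k4,k5] [(z1,[y1,z0,z1])] [],
    .tor k1 false k0 [(z1,[y1,y1,y1,z1]),(z1,[z0,z2,z1]),(z1,[z0,y1,y1,z1]),(z1,[z1,z0,z1])],
    .leafM k0 [k1,k2,k3,k4,k5,k0] [(z2,[y1,y1,z0,z2])] [],
    .lp [k10,k18,k20,k14,k16,k16] [k5,k5,k1,k1,k0,k0,k3,k3,k2,k2,k3,k1] k0 [[],[k0,k0,k0,k2],[k2],[k0,k0,k0,k0,k0,k0,k0,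
    k0,k0,k4],[k0,k0,k0,k0,k0,k0,k4],[],[k0,k0,k0,k0,k0,k0,k0,k0,k4],[k0,k0,k0,k0,k0,k4],[k0,k0,k4],[k0,k0,k0,k0,k0,
    k0,k0,k4]] k48 k5
    [[(k10,k12)],[(k7,k12),(k9,k13),(k3,k14),(k11,k14),(k5,k17)],[(k0,k14),(k2,k16),(k6,k16),(k8,k17),(k4,k19)],[(k3,
    k16),(k7,k16),(k9,k17),(k5,k19),(k11,k22)],[(k8,k14),(k0,k17),(k6,k17),(k2,k19),(k4,k20)],[(k9,k14),(k7,k17),(k3,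
    k19),(k11,k19),(k5,k20)],[(k0,k12),(k8,k15),(k2,k16),(k4,k17),(k6,k18)],[(k11,k12),(k9,k15),(k3,k16),(k5,k17),(k7,
    k18)],[(k0,k13),(k4,k14),(k6,k15),(k2,k17),(k8,k20)],[(k5,k14),(k7,k15),(k3,k17),(k11,k17),(k9,k20)],[(k6,k12),
    (k0,k14),(k8,k17),(k4,k19),(k2,k22)],[(k1,k12)]]
    [] k0
    [[k1,k0,k0,k1,k0,k1],[k1,k0,k0,k0,k1,k1],[k0,k0,k1,k1,k1,k0]]
    [.ref k3 k0 [(z2,[z2,z1,z1,y2]),(z1,[z1,z0,z1,y1]),(z1,[y2,z0,y1,z2])],.ref k4 k1 [(z2,[z2,z1,y1]),(z2,[z2,y1,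
    z1]),(z1,[y1,z0,y1,z1])],.ref k4 k0 [(z2,[y2,z1,y1,z2]),(z2,[y2,y1,z1,z2]),(z2,[z2,z1,z1,y2])]],
    .lp [k46,k42,k44,k44,k40,k22] [k0,k0,k2,k2,k1,k1,k1,k1,k3,k3,k12,k12] k0 [[k0,k0,k0,k0,k0,k0,k2],[k0,k0,k0,k0,k0,k8],
    [k0,k0,k0,k0,k0,k0,k0,k0,k2],[],[k8],[k0,k0,k0,k0,k0,k0,k0,k0,k0,k8],[],[k0,k2],[k0,k0,k0,k0,k8],[k0,k0,k0,
    k2]] k120 k5
    [[(k10,k34)],[(k11,k34),(k9,k41),(k3,k44),(k5,k45),(k7,k53)],[(k4,k35),(k8,k41),(k2,k42),(k0,k44),(k6,k45)],[(k11,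
    k30),(k9,k41),(k3,k42),(k5,k43),(k7,k43)],[(k2,k43),(k4,k44),(k6,k44),(k8,k44),(k0,k45)],[(k3,k35),(k11,k41),(k9,
    k42),(k5,k44),(k7,k44)],[(k8,k34),(k2,k43),(k4,k44),(k6,k44),(k0,k53)],[(k11,k33),(k9,k42),(k5,k44),(k7,k44),(k3,
    k45)],[(k8,k40),(k0,k41),(k2,k41),(k4,k42),(k6,k42)],[(k11,k31),(k7,k34),(k9,k40),(k3,k41),(k5,k44)],[(k2,k30),
    (k8,k31),(k6,k33),(k0,k34),(k4,k41)],[(k1,k34)]]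
    [] k0
    [[k1,k1,k0,k0,k0,k1],[k1,k0,k0,k0,k1,k1],[k0,k0,k0,k1,k2,k0]]
    [.ref k1 k1 [(z1,[z1]),(z1,[y1,z1,y1])],.ref k2 k0 [(z1,[z1]),(z1,[z1,y1,z1])],.ref k5 k0 [(z1,[y2,z1]),(z1,[z0,
    y1,z2])]],
    .lp [k46,k42,k44,k44,k40,k22] [k0,k0,k2,k2,k1,k1,k1,k1,k3,k3,k12,k12] k0 [[k0,k0,k0,k0,k0,k0,k2],[k0,k0,k0,k0,k0,k8],
    [k0,k0,k0,k0,k0,k0,k0,k0,k2],[],[k8],[k0,k0,k0,k0,k0,k0,k0,k0,k0,k8],[],[k0,k2],[k0,k0,k0,k0,k8],[k0,k0,k0,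
    k2]] k120 k5
    [[(k10,k34)],[(k11,k34),(k9,k41),(k3,k44),(k5,k45),(k7,k53)],[(k4,k35),(k8,k41),(k2,k42),(k0,k44),(k6,k45)],[(k11,
    k30),(k9,k41),(k3,k42),(k5,k43),(k7,k43)],[(k2,k43),(k4,k44),(k6,k44),(k8,k44),(k0,k45)],[(k3,k35),(k11,k41),(k9,
    k42),(k5,k44),(k7,k44)],[(k8,k34),(k2,k43),(k4,k44),(k6,k44),(k0,k53)],[(k11,k33),(k9,k42),(k5,k44),(k7,k44),(k3,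
    k45)],[(k8,k40),(k0,k41),(k2,k41),(k4,k42),(k6,k42)],[(k11,k31),(k7,k34),(k9,k40),(k3,k41),(k5,k44)],[(k2,k30),
    (k8,k31),(k6,k33),(k0,k34),(k4,k41)],[(k1,k34)]]
    [] k0
    [[k1,k1,k0,k0,k0,k1],[k1,k0,k0,k0,k1,k1],[k0,k0,k0,k1,k2,k0]]
    [.ref k0 k1 [(z1,[z1])],.ref k0 k0 [(z1,[z1])],.ref k6 k1 [(z1,[y1,z2])]]]⟩

/-- classes `0 0 0 0 0 1`, types `C0 C0 C0 C0 C0 S0` -/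
noncomputable def cT6_54 : CertT :=
  ⟨[k4,k4,k4,k4,k4,k16],[(false,k0,[k0,k1,k2,k3,k4,k5]),(true,k5,[k5,k4,k3,k2,k1,k0])],[[[([z1,z0,z0,z0,z1,z1],z2)],
    [([z1,z0,z0,z0,z1,z1],z2),([z0,z1,z1,z0,y2,z0],z0)],[([z1,z0,z0,z0,y2,z1],z0),([z0,z1,z0,z0,z2,z0],z2),([z0,z0,z1,
    z0,y1,z0],z0)],[([z1,z0,z0,z0,y2,z1],z0),([z0,z1,z0,z0,y1,z0],z0),([z0,z0,z1,z0,z2,z0],z2)],[([z3,z0,z0,z0,z0,z3],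
    z4),([z0,z3,z0,z0,z0,z0],z2),([z0,z0,z3,z0,z0,z0],z2)],[([z1,z0,z0,z0,y2,z1],z0),([z0,z1,z1,z0,z1,z0],z2)],[([z1,
    z0,z0,z0,z1,z1],z2),([z0,z1,z0,y1,z0,z0],z0)],[([z2,z0,z1,z2,z2,z2],z6)],[]]],
    [.leafM k0 [k0,k1,k2,k3,k4,k5] [(z1,[y1,z1])] [],
    .leafM k0 [k0,k1,k2,k3,k4,k5] [(z1,[y1,z0,z1])] [],
    .leafM k0 [k1,k2,k3,k4,k5,k0] [(z1,[y1,y1,z0,z1])] [],
    .tor k1 false k0 [(z1,[y1,y1,y1,z1]),(z1,[z0,z2,z1]),(z1,[z0,y1,y1,z1]),(z1,[z1,z0,z1])],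
    .leafM k0 [k1,k2,k3,k4,k5,k0] [(z3,[y1,y1,z0,z3])] [],
    .lp [k28,k34,k28,k40,k34,k24] [k6,k6,k3,k3,k8,k4,k0,k0,k3,k3,k8,k8] k0 [[k0,k0,k6],[k0,k0,k0,k0,k0,k2,k0,k10],[k0,k0,
    k0,k0,k8,k0,k0,k0,k2],[k0,k6],[k2],[k0,k0,k0,k8],[k10],[k0,k0,k0,k0,k0,k0,k0,k0,k0,k2],[k0,k0,k0,k0,k0,k0,k2],[k0,
    k0,k0,k2]] k96 k5
    [[(k10,k26),(k1,k28)],[(k5,k24),(k11,k26),(k3,k31),(k7,k36),(k9,k41)],[(k4,k27),(k6,k27),(k0,k31),(k8,k34),(k2,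
    k40)],[(k11,k27),(k7,k29),(k5,k33),(k9,k34),(k3,k40)],[(k0,k24),(k2,k33),(k8,k35),(k4,k36),(k6,k36)],[(k11,k24),
    (k3,k27),(k9,k29),(k7,k32),(k5,k36)],[(k2,k29),(k4,k32),(k0,k36),(k8,k37),(k6,k40)],[(k3,k27),(k11,k34),(k5,k36),
    (k9,k37),(k7,k40)],[(k4,k29),(k8,k32),(k2,k34),(k6,k37),(k0,k41)],[(k11,k29),(k9,k32),(k3,k34),(k5,k35),(k7,k37)],
    [(k4,k24),(k0,k26),(k2,k27),(k8,k29),(k6,k34)],[(k10,k24),(k1,k26)]]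
    [] k0
    [[k1,k1,k0,k0,k0,k1],[k1,k0,k1,k0,k0,k1],[k0,k1,k1,k1,k0,k0]]
    [.ref k2 k0 [(z1,[z0,z1]),(z1,[z1,y1]),(z1,[y1,z1,z1])],.ref k3 k0 [(z1,[z0,z1]),(z1,[y1,z1,z1]),(z1,[z1,y1])],
    .ref k4 k1 [(z1,[y2,z1,z0,z2]),(z1,[y1,y1,z0,z1]),(z1,[z2,y1,y3,z1])]],
    .leafM k0 [k0,k1,k2,k3,k4,k5] [(z1,[y1,z0,z1])] [],
    .lp [k28,k34,k28,k40,k34,k24] [k6,k6,k3,k3,k8,k4,k0,k0,k3,k3,k8,k8] k0 [[k0,k0,k6],[k0,k0,k0,k0,k0,k2,k0,k10],[k0,k0,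
    k0,k0,k8,k0,k0,k0,k2],[k0,k6],[k2],[k0,k0,k0,k8],[k10],[k0,k0,k0,k0,k0,k0,k0,k0,k0,k2],[k0,k0,k0,k0,k0,k0,k2],[k0,
    k0,k0,k2]] k96 k5
    [[(k10,k26),(k1,k28)],[(k5,k24),(k11,k26),(k3,k31),(k7,k36),(k9,k41)],[(k4,k27),(k6,k27),(k0,k31),(k8,k34),(k2,
    k40)],[(k11,k27),(k7,k29),(k5,k33),(k9,k34),(k3,k40)],[(k0,k24),(k2,k33),(k8,k35),(k4,k36),(k6,k36)],[(k11,k24),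
    (k3,k27),(k9,k29),(k7,k32),(k5,k36)],[(k2,k29),(k4,k32),(k0,k36),(k8,k37),(k6,k40)],[(k3,k27),(k11,k34),(k5,k36),
    (k9,k37),(k7,k40)],[(k4,k29),(k8,k32),(k2,k34),(k6,k37),(k0,k41)],[(k11,k29),(k9,k32),(k3,k34),(k5,k35),(k7,k37)],
    [(k4,k24),(k0,k26),(k2,k27),(k8,k29),(k6,k34)],[(k10,k24),(k1,k26)]]
    [] k0
    [[k1,k1,k0,k0,k0,k1],[k1,k0,k1,k0,k0,k1],[k0,k1,k1,k1,k0,k0]]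
    [.ref k1 k1 [(z1,[z1]),(z1,[y1,z1,y1])],.ref k5 k1 [(z1,[z1,z1,y2]),(z1,[y1,z0,z1])],.ref k6 k0 [(z1,[y1,z0,z1]),
    (z1,[y1,y1,z2])]],
    .lp [k38,k40,k44,k44,k42,k30] [k3,k3,k2,k2,k0,k0,k0,k0,k1,k1,k7,k7] k0 [[k0,k0,k0,k0,k0,k0,k2],[k0,k0,k0,k0,k0,k8],
    [k0,k0,k0,k0,k0,k0,k0,k0,k2],[],[k8],[k0,k0,k0,k0,k0,k0,k0,k0,k0,k8],[],[k0,k2],[k0,k0,k0,k0,k8],[k0,k0,k0,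
    k2]] k120 k5
    [[(k10,k34),(k1,k38)],[(k11,k34),(k9,k38),(k3,k39),(k5,k41),(k7,k49)],[(k4,k34),(k0,k39),(k2,k40),(k8,k41),(k6,
    k44)],[(k11,k33),(k3,k40),(k9,k41),(k5,k42),(k7,k42)],[(k0,k41),(k2,k42),(k4,k44),(k6,k44),(k8,k45)],[(k3,k34),
    (k9,k43),(k5,k44),(k7,k44),(k11,k45)],[(k8,k35),(k2,k42),(k4,k44),(k6,k44),(k0,k49)],[(k11,k37),(k9,k43),(k3,k44),
    (k5,k44),(k7,k44)],[(k0,k38),(k2,k41),(k8,k42),(k4,k43),(k6,k43)],[(k7,k35),(k11,k36),(k3,k41),(k9,k42),(k5,k45)],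
    [(k2,k33),(k0,k34),(k8,k36),(k6,k37),(k4,k45)],[(k10,k30),(k1,k34)]]
    [] k0
    [[k1,k1,k0,k0,k0,k1],[k1,k0,k0,k0,k1,k1],[k0,k2,k1,k0,k0,k0]]
    [.ref k0 k1 [(z1,[z1])],.ref k0 k0 [(z1,[z1])],.ref k7 k0 [(z1,[y1,z2])]]]⟩

/-- classes `0 0 0 0 0 1`, types `C0 C0 C0 C0 C2 C0` -/
noncomputable def cT6_55 : CertT :=
  ⟨[k4,k4,k4,k4,k6,k20],[(false,k0,[k0,k1,k2,k3,k4,k5])],[[[([z1,z0,z0,z0,z1,z1],z2)],[]]],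
    [.leafM k0 [k0,k1,k2,k3,k4,k5] [(z1,[y1,z1])] [],
    .lp [k6,k8,k8,k8,k6,k6] [k1,k1,k0,k0,k0,k0,k0,k0,k1,k1,k1,k1] k0 [] k24 k5
    [[(k10,k6)],[(k8,k6),(k9,k6),(k3,k7),(k5,k7),(k7,k7)],[(k0,k7),(k11,k7),(k2,k8),(k4,k8),(k6,k8)],[(k8,k7),(k9,k7),
    (k3,k8),(k5,k8),(k7,k8)],[(k0,k7),(k11,k7),(k2,k8),(k4,k8),(k6,k8)],[(k8,k7),(k9,k7),(k3,k8),(k5,k8),(k7,k8)],
    [(k0,k7),(k11,k7),(k2,k8),(k4,k8),(k6,k8)],[(k8,k7),(k9,k7),(k3,k8),(k5,k8),(k7,k8)],[(k0,k6),(k11,k6),(k2,k7),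
    (k4,k7),(k6,k7)],[(k0,k6),(k11,k6),(k2,k7),(k4,k7),(k6,k7)],[(k8,k6),(k9,k6),(k3,k7),(k5,k7),(k7,k7)],[(k1,k6)]]
    [] k0
    [[k1,k0,k0,k0,k1,k1]]
    [.ref k0 k0 [(z1,[z1])]]]⟩

/-- classes `0 0 0 0 0 1`, types `C0 C0 C0 C0 C2 S0` -/
noncomputable def cT6_56 : CertT :=
  ⟨[k4,k4,k4,k4,k6,k16],[(false,k0,[k0,k1,k2,k3,k4,k5])],[[[([z1,z0,z0,z0,z1,z1],z2)],[]]],
    [.leafM k0 [k0,k1,k2,k3,k4,k5] [(z1,[y1,z1])] [],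
    .lp [k100,k120,k120,k120,k140,k90] [k20,k20,k16,k4,k10,k10,k10,k10,k0,k0,k25,k25] k0 [[],[k0,k0,k0,k0,k0,k0,k0,k0,
    k20],[],[],[],[],[k0,k0,k0,k0,k0,k0,k0,k0,k0,k40],[],[k0,k0,k0,k0,k0,k0,k0,k40],[k20]] (nat_lit 360) k5
    [[(k10,k95),(k1,k100)],[(k5,k110),(k7,k110),(k3,k116),(k9,k120),(k8,k140)],[(k11,k91),(k0,k116),(k2,k120),(k4,
    k126),(k6,k126)],[(k5,k114),(k7,k114),(k3,k120),(k8,k124),(k9,k124)],[(k11,k105),(k0,k110),(k2,k114),(k4,k120),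
    (k6,k120)],[(k5,k120),(k7,k120),(k3,k126),(k8,k130),(k9,k130)],[(k11,k105),(k0,k110),(k2,k114),(k4,k120),(k6,
    k120)],[(k8,k90),(k5,k120),(k7,k120),(k3,k126),(k9,k130)],[(k0,k120),(k2,k124),(k4,k130),(k6,k130),(k11,k155)],
    [(k6,k90),(k11,k115),(k2,k124),(k4,k130),(k0,k140)],[(k3,k91),(k5,k105),(k7,k105),(k8,k115),(k9,k155)],[(k10,k90),
    (k1,k95)]]
    [] k0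
    [[k1,k0,k0,k0,k1,k1]]
    [.ref k0 k0 [(z1,[z1])]]]⟩

/-- classes `0 0 0 0 0 1`, types `C0 C0 C0 C2 C0 C0` -/
noncomputable def cT6_57 : CertT :=
  ⟨[k4,k4,k4,k6,k4,k20],[(false,k0,[k0,k1,k2,k3,k4,k5])],[[[([z1,z1,z0,z0,z0,z1],z2)],[]]],
    [.leafM k0 [k1,k2,k3,k4,k5,k0] [(z1,[y1,z1])] [],
    .lp [k22,k18,k18,k12,k18,k6] [k0,k0,k2,k2,k2,k2,k5,k5,k2,k2,k8,k8] k0 [[],[k0,k0,k0,k2],[k2]] k48 k5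
    [[(k10,k14)],[(k11,k14),(k6,k17),(k7,k17),(k3,k20),(k5,k22)],[(k2,k16),(k4,k18),(k8,k18),(k9,k18),(k0,k20)],[(k11,
    k12),(k6,k15),(k7,k15),(k3,k16),(k5,k18)],[(k2,k18),(k4,k18),(k8,k18),(k9,k18),(k0,k22)],[(k11,k12),(k6,k15),(k7,
    k15),(k3,k18),(k5,k18)],[(k2,k15),(k4,k15),(k8,k15),(k9,k15),(k0,k17)],[(k2,k15),(k4,k15),(k8,k15),(k9,k15),(k0,
    k17)],[(k11,k12),(k6,k15),(k7,k15),(k3,k18),(k5,k18)],[(k11,k12),(k6,k15),(k7,k15),(k3,k18),(k5,k18)],[(k2,k12),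
    (k4,k12),(k8,k12),(k9,k12),(k0,k14)],[(k1,k14)]]
    [] k0
    [[k1,k1,k0,k0,k0,k1]]
    [.ref k0 k0 [(z1,[z1])]]]⟩

/-- classes `0 0 0 0 0 1`, types `C0 C0 C0 C2 C0 S0` -/
noncomputable def cT6_58 : CertT :=
  ⟨[k4,k4,k4,k6,k4,k16],[(false,k0,[k0,k1,k2,k3,k4,k5])],[[[([z2,z0,z0,z1,z0,z0],z2),([z0,z1,z0,z1,z0,y2],z0),([z0,z0,
    z2,y1,z0,z2],z2)],[([z3,z0,z0,z0,y2,y1],z0),([z0,z3,z0,z0,z2,z4],z6),([z0,z0,z3,z0,y1,y2],z0)],[([z2,z0,z0,z1,z0,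
    z0],z2),([z0,z1,z0,z1,z2,z2],z4)],[([z1,z0,z0,z2,z2,z1],z4),([z0,z1,z0,y2,y2,z0],y2)],[([z1,z0,y1,z1,z1,z1],z2)],
    [([z1,z1,z0,z0,z0,z1],z2)],[]]],
    [.tor k11 false k0 [(z2,[y1,y2,y1,z2]),(z2,[y1,z0,y1,z2]),(z1,[z0,z1,z1]),(z1,[z1])],
    .leafM k0 [k1,k2,k3,k4,k5,k0] [(z3,[y1,y1,z0,z3])] [],
    .lp [k8,k8,k8,k8,k4,k10] [k1,k1,k1,k1,k1,k1,k1,k1,k3,k3,k0,k0] k0 [] k24 k5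
    [[(k1,k8),(k10,k9)],[(k3,k8),(k5,k8),(k6,k8),(k7,k8),(k11,k9)],[(k8,k6),(k9,k6),(k0,k8),(k2,k8),(k4,k8)],[(k3,k8),
    (k5,k8),(k6,k8),(k7,k8),(k11,k9)],[(k8,k6),(k9,k6),(k0,k8),(k2,k8),(k4,k8)],[(k3,k8),(k5,k8),(k6,k8),(k7,k8),(k11,
    k9)],[(k8,k6),(k9,k6),(k0,k8),(k2,k8),(k4,k8)],[(k8,k6),(k9,k6),(k0,k8),(k2,k8),(k4,k8)],[(k3,k6),(k5,k6),(k6,k6),
    (k7,k6),(k11,k7)],[(k3,k6),(k5,k6),(k6,k6),(k7,k6),(k11,k7)],[(k8,k7),(k9,k7),(k0,k9),(k2,k9),(k4,k9)],[(k1,k9),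
    (k10,k10)]]
    [] k0
    [[k0,k1,k0,k1,k1,k0],[k0,k0,k1,k1,k1,k0]]
    [.ref k0 k0 [(z1,[z0,z1]),(z1,[z2,z0,y1]),(z1,[y2,y1,z0,z2])],.ref k1 k0 [(z1,[y1,z1,y1,z1]),(z1,[y2,y1,z1,z2]),
    (z1,[z1,y1,y2,z2])]],
    .leafM k0 [k1,k2,k3,k4,k5,k0] [(z1,[y1,y1,z1])] [],
    .lp [k6,k10,k8,k6,k8,k8] [k2,k2,k0,k0,k1,k1,k2,k2,k1,k1,k1,k1] k0 [[],[k0,k0,k0,k2],[k2]] k24 k5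
    [[(k1,k6),(k10,k7)],[(k6,k6),(k7,k6),(k11,k7),(k3,k8),(k5,k9)],[(k0,k8),(k2,k8),(k4,k9),(k8,k9),(k9,k9)],[(k3,k8),
    (k6,k8),(k7,k8),(k5,k9),(k11,k9)],[(k4,k8),(k8,k8),(k9,k8),(k0,k9),(k2,k9)],[(k6,k7),(k7,k7),(k5,k8),(k11,k8),(k3,
    k9)],[(k0,k6),(k4,k7),(k8,k7),(k9,k7),(k2,k8)],[(k0,k6),(k4,k7),(k8,k7),(k9,k7),(k2,k8)],[(k6,k7),(k7,k7),(k5,k8),
    (k11,k8),(k3,k9)],[(k6,k7),(k7,k7),(k5,k8),(k11,k8),(k3,k9)],[(k0,k7),(k4,k8),(k8,k8),(k9,k8),(k2,k9)],[(k1,k7),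
    (k10,k8)]]
    [] k0
    [[k2,k0,k0,k1,k0,k0],[k0,k0,k1,k1,k1,k0]]
    [.ref k2 k0 [(z1,[z1]),(z1,[y1,z1,z1])],.ref k3 k0 [(z1,[z1,z1]),(z1,[y2,y1,z1])]],
    .leafM k0 [k1,k2,k3,k4,k5,k0] [(z1,[y1,z1])] [],
    .lp [k12,k20,k16,k18,k8,k20] [k6,k6,k4,k0,k4,k4,k3,k3,k8,k8,k2,k2] k0 [[k0,k0,k0,k0,k0,k0,k0,k2,k2],[k0,k0,k0,k0,k0,
    k8],[],[],[k8],[],[k0,k2],[],[],[k0,k2]] k48 k5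
    [[(k1,k12),(k10,k16)],[(k6,k13),(k5,k14),(k11,k14),(k3,k18),(k7,k23)],[(k4,k12),(k0,k18),(k8,k18),(k9,k18),(k2,
    k20)],[(k5,k16),(k6,k17),(k7,k17),(k11,k18),(k3,k20)],[(k8,k12),(k9,k12),(k0,k14),(k2,k16),(k4,k16)],[(k3,k12),
    (k5,k16),(k6,k17),(k7,k17),(k11,k18)],[(k8,k13),(k9,k13),(k2,k17),(k4,k17),(k0,k23)],[(k0,k13),(k8,k13),(k9,k13),
    (k2,k17),(k4,k17)],[(k5,k12),(k6,k13),(k7,k13),(k11,k14),(k3,k18)],[(k5,k12),(k6,k13),(k7,k13),(k11,k14),(k3,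
    k18)],[(k0,k14),(k8,k14),(k9,k14),(k2,k18),(k4,k18)],[(k1,k16),(k10,k20)]]
    [] k0
    [[k0,k1,k2,k0,k0,k0],[k0,k0,k1,k1,k1,k0]]
    [.ref k4 k0 [(z1,[y1,z1])],.ref k5 k0 [(z1,[y1,z1])]]]⟩

/-- classes `0 0 0 0 0 1`, types `C0 C0 C0 C2 C2 C0` -/
noncomputable def cT6_59 : CertT :=
  ⟨[k4,k4,k4,k6,k6,k20],[(false,k0,[k0,k1,k2,k3,k4,k5])],[[[([z1,z0,z0,z1,z0,z1],z2)],[]]],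
    [.leafM k3 [k2,k3,k4,k5,k0,k1] [(z1,[z1])] [],
    .lp [k6,k8,k8,k6,k8,k6] [k1,k1,k0,k0,k0,k0,k1,k1,k0,k0,k1,k1] k0 [] k24 k5
    [[(k10,k6)],[(k6,k6),(k7,k6),(k3,k7),(k5,k7),(k8,k7)],[(k0,k7),(k11,k7),(k2,k8),(k4,k8),(k9,k8)],[(k6,k7),(k7,k7),
    (k3,k8),(k5,k8),(k8,k8)],[(k0,k7),(k11,k7),(k2,k8),(k4,k8),(k9,k8)],[(k6,k7),(k7,k7),(k3,k8),(k5,k8),(k8,k8)],
    [(k0,k6),(k11,k6),(k2,k7),(k4,k7),(k9,k7)],[(k0,k6),(k11,k6),(k2,k7),(k4,k7),(k9,k7)],[(k6,k7),(k7,k7),(k3,k8),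
    (k5,k8),(k8,k8)],[(k0,k7),(k11,k7),(k2,k8),(k4,k8),(k9,k8)],[(k6,k6),(k7,k6),(k3,k7),(k5,k7),(k8,k7)],[(k1,k6)]]
    [] k0
    [[k1,k0,k0,k1,k0,k1]]
    [.ref k0 k0 [(z1,[z1])]]]⟩

/-- classes `0 0 0 0 0 1`, types `C0 C0 C0 C2 C2 S0` -/
noncomputable def cT6_60 : CertT :=
  ⟨[k4,k4,k4,k6,k6,k16],[(false,k0,[k0,k1,k2,k3,k4,k5])],[[[([z1,z0,z0,z1,z0,z1],z2)],[]]],
    [.leafM k3 [k2,k3,k4,k5,k0,k1] [(z1,[z1])] [],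
    .lp [k12,k20,k12,k20,k16,k14] [k4,k4,k0,k0,k4,k4,k0,k0,k2,k2,k3,k3] k0 [[],[k0,k0,k0,k0,k0,k4],[k0,k0,k0,k0,k8,k0,k0,
    k4],[],[k4],[k0,k0,k0,k8],[k0,k0,k0,k4]] k48 k5
    [[(k1,k12),(k10,k13)],[(k5,k12),(k8,k14),(k3,k16),(k6,k16),(k7,k20)],[(k4,k12),(k0,k16),(k11,k17),(k9,k18),(k2,
    k20)],[(k7,k12),(k5,k16),(k6,k16),(k8,k18),(k3,k20)],[(k0,k12),(k11,k13),(k2,k16),(k9,k18),(k4,k20)],[(k3,k12),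
    (k8,k14),(k6,k16),(k7,k16),(k5,k20)],[(k2,k12),(k4,k16),(k11,k17),(k9,k18),(k0,k20)],[(k0,k16),(k2,k16),(k4,k16),
    (k11,k17),(k9,k18)],[(k8,k16),(k3,k18),(k5,k18),(k6,k18),(k7,k18)],[(k0,k14),(k4,k14),(k11,k15),(k9,k16),(k2,
    k18)],[(k5,k13),(k8,k15),(k3,k17),(k6,k17),(k7,k17)],[(k1,k13),(k10,k14)]]
    [] k0
    [[k1,k0,k0,k1,k0,k1]]
    [.ref k0 k0 [(z1,[z1])]]]⟩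

/-- classes `0 0 0 0 0 1`, types `C0 C0 C2 C0 C0 C0` -/
noncomputable def cT6_61 : CertT :=
  ⟨[k4,k4,k6,k4,k4,k20],[(true,k5,[k5,k4,k3,k2,k1,k0]),(false,k0,[k0,k1,k2,k3,k4,k5])],[[[([z1,z0,z0,z0,z1,z1],z2)],
    []]],
    [.leafM k0 [k0,k1,k2,k3,k4,k5] [(z1,[y1,z1])] [],
    .lp [k4,k4,k2,k6,k4,k2] [k1,k1,k1,k1,k2,k2,k0,k0,k1,k1,k2,k2] k0 [] k12 k5
    [[(k10,k3)],[(k4,k3),(k5,k3),(k11,k3),(k3,k4),(k9,k4)],[(k0,k4),(k2,k4),(k8,k4),(k6,k5),(k7,k5)],[(k4,k3),(k5,k3),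
    (k11,k3),(k3,k4),(k9,k4)],[(k0,k3),(k2,k3),(k8,k3),(k6,k4),(k7,k4)],[(k0,k3),(k2,k3),(k8,k3),(k6,k4),(k7,k4)],
    [(k4,k4),(k5,k4),(k11,k4),(k3,k5),(k9,k5)],[(k4,k4),(k5,k4),(k11,k4),(k3,k5),(k9,k5)],[(k0,k4),(k2,k4),(k8,k4),
    (k6,k5),(k7,k5)],[(k4,k3),(k5,k3),(k11,k3),(k3,k4),(k9,k4)],[(k0,k3),(k2,k3),(k8,k3),(k6,k4),(k7,k4)],[(k1,k3)]]
    [] k0
    [[k1,k1,k0,k0,k0,k1],[k1,k0,k0,k0,k1,k1]]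
    [.ref k0 k0 [(z1,[z1])],.ref k0 k1 [(z1,[z1])]]]⟩

/-- classes `0 0 0 0 0 1`, types `C0 C0 C2 C0 C0 S0` -/
noncomputable def cT6_62 : CertT :=
  ⟨[k4,k4,k6,k4,k4,k16],[(false,k0,[k0,k1,k2,k3,k4,k5]),(true,k5,[k5,k4,k3,k2,k1,k0])],[[[([z1,z0,z0,z0,z1,z1],z2)],
    []]],
    [.leafM k0 [k0,k1,k2,k3,k4,k5] [(z1,[y1,z1])] [],
    .lp [k130,k180,(nat_lit 200),k100,k140,k170] [k45,k45,k20,k20,k0,k20,k60,k60,k40,k40,k33,k17] k0 [[],[k0,k0,k0,k20],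
    [k20],[],[k0,k0,k0,k0,k0,k0,k0,k0,k0,k60],[],[k0,k0,k0,k0,k0,k0,k0,k0,k20],[],[k0,k0,k0,k0,k0,k60],[k0,k0,k0,k0,
    k0,k0,k0,k20]] (nat_lit 480) k5
    [[(k1,k130),(k10,k142)],[(k9,k135),(k3,k155),(k11,k158),(k4,k175),(k5,k175)],[(k6,k140),(k7,k140),(k0,k155),(k2,
    k160),(k8,k160)],[(k3,k160),(k9,k160),(k5,k180),(k11,k183),(k4,(nat_lit 200))],[(k6,k140),(k7,k140),(k8,k160),(k0,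
    k175),(k2,k180)],[(k8,k120),(k6,k160),(k7,k160),(k0,k175),(k2,(nat_lit 200))],[(k9,k120),(k3,k140),(k5,k140),(k4,
    k160),(k11,(nat_lit 203))],[(k9,k120),(k11,k123),(k3,k140),(k5,k140),(k4,k160)],[(k6,k120),(k7,k120),(k0,k135),
    (k2,k160),(k8,k160)],[(k4,k120),(k3,k160),(k5,k160),(k9,k160),(k11,k163)],[(k6,k123),(k0,k158),(k8,k163),(k2,
    k183),(k7,(nat_lit 203))],[(k1,k142),(k10,k154)]]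
    [] k0
    [[k1,k0,k0,k0,k1,k1],[k0,k0,k1,k1,k1,k0]]
    [.ref k0 k0 [(z1,[z1])],.ref k0 k1 [(z1,[y1,z1])]]]⟩

/-- classes `0 0 0 0 0 1`, types `C0 C0 C2 C0 C2 C0` -/
noncomputable def cT6_63 : CertT :=
  ⟨[k4,k4,k6,k4,k6,k20],[(false,k0,[k0,k1,k2,k3,k4,k5])],[[[([z1,z0,z1,z0,z0,z1],z2)],[([z1,z0,z0,z0,z1,z1],z2)],[]]],
    [.leafM k3 [k0,k1,k2,k3,k4,k5] [(z1,[y1,z1])] [],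
    .leafM k0 [k0,k1,k2,k3,k4,k5] [(z1,[y1,z1])] [],
    .lp [k2,k4,k2,k2,k2,k2] [k1,k1,k0,k0,k1,k1,k1,k1,k1,k1,k1,k1] k0 [] k8 k5
    [[(k10,k2)],[(k4,k2),(k5,k2),(k8,k2),(k9,k2),(k3,k3)],[(k0,k3),(k6,k3),(k7,k3),(k11,k3),(k2,k4)],[(k4,k3),(k5,k3),
    (k8,k3),(k9,k3),(k3,k4)],[(k0,k2),(k6,k2),(k7,k2),(k11,k2),(k2,k3)],[(k0,k2),(k6,k2),(k7,k2),(k11,k2),(k2,k3)],
    [(k4,k2),(k5,k2),(k8,k2),(k9,k2),(k3,k3)],[(k4,k2),(k5,k2),(k8,k2),(k9,k2),(k3,k3)],[(k0,k2),(k6,k2),(k7,k2),(k11,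
    k2),(k2,k3)],[(k0,k2),(k6,k2),(k7,k2),(k11,k2),(k2,k3)],[(k4,k2),(k5,k2),(k8,k2),(k9,k2),(k3,k3)],[(k1,k2)]]
    [] k0
    [[k1,k0,k1,k0,k0,k1],[k1,k0,k0,k0,k1,k1]]
    [.ref k0 k0 [(z1,[z1])],.ref k1 k0 [(z1,[z1])]]]⟩

/-- classes `0 0 0 0 0 1`, types `C0 C0 C2 C0 C2 S0` -/
noncomputable def cT6_64 : CertT :=
  ⟨[k4,k4,k6,k4,k6,k16],[(false,k0,[k0,k1,k2,k3,k4,k5])],[[[([z1,z0,z0,z0,z1,z1],z2)],[([z1,z0,z1,z0,z0,z1],z2)],[]]],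
    [.leafM k0 [k0,k1,k2,k3,k4,k5] [(z1,[y1,z1])] [],
    .leafM k3 [k0,k1,k2,k3,k4,k5] [(z1,[y1,z1])] [],
    .lp [k10,k8,k4,k8,k4,k10] [k0,k0,k1,k1,k3,k3,k1,k1,k3,k3,k0,k0] k0 [] k24 k5
    [[(k1,k10),(k10,k10)],[(k4,k7),(k5,k7),(k8,k7),(k9,k7),(k3,k9)],[(k2,k8),(k6,k8),(k7,k8),(k0,k9),(k11,k9)],[(k4,
    k6),(k5,k6),(k8,k6),(k9,k6),(k3,k8)],[(k2,k6),(k6,k6),(k7,k6),(k0,k7),(k11,k7)],[(k2,k6),(k6,k6),(k7,k6),(k0,k7),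
    (k11,k7)],[(k4,k6),(k5,k6),(k8,k6),(k9,k6),(k3,k8)],[(k4,k6),(k5,k6),(k8,k6),(k9,k6),(k3,k8)],[(k2,k6),(k6,k6),
    (k7,k6),(k0,k7),(k11,k7)],[(k2,k6),(k6,k6),(k7,k6),(k0,k7),(k11,k7)],[(k4,k7),(k5,k7),(k8,k7),(k9,k7),(k3,k9)],
    [(k1,k10),(k10,k10)]]
    [] k0
    [[k0,k1,k1,k1,k0,k0],[k0,k1,k0,k1,k1,k0]]
    [.ref k0 k0 [(z1,[y1,z1])],.ref k1 k0 [(z1,[y1,z1])]]]⟩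

/-- classes `0 0 0 0 0 1`, types `C0 C0 C2 C2 C0 C0` -/
noncomputable def cT6_65 : CertT :=
  ⟨[k4,k4,k6,k6,k4,k20],[(false,k0,[k0,k1,k2,k3,k4,k5])],[[[([z1,z1,z0,z0,z0,z1],z2)],[([z1,z0,z0,z1,z0,z1],z2)],[]]],
    [.leafM k0 [k1,k2,k3,k4,k5,k0] [(z1,[y1,z1])] [],
    .leafM k3 [k2,k3,k4,k5,k0,k1] [(z1,[z1])] [],
    .lp [k4,k4,k2,k4,k6,k2] [k1,k1,k1,k1,k2,k2,k1,k1,k0,k0,k2,k2] k0 [] k12 k5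
    [[(k10,k3)],[(k4,k3),(k5,k3),(k11,k3),(k3,k4),(k6,k4)],[(k0,k4),(k2,k4),(k7,k4),(k8,k5),(k9,k5)],[(k4,k3),(k5,k3),
    (k11,k3),(k3,k4),(k6,k4)],[(k0,k3),(k2,k3),(k7,k3),(k8,k4),(k9,k4)],[(k0,k3),(k2,k3),(k7,k3),(k8,k4),(k9,k4)],
    [(k4,k3),(k5,k3),(k11,k3),(k3,k4),(k6,k4)],[(k0,k4),(k2,k4),(k7,k4),(k8,k5),(k9,k5)],[(k4,k4),(k5,k4),(k11,k4),
    (k3,k5),(k6,k5)],[(k4,k4),(k5,k4),(k11,k4),(k3,k5),(k6,k5)],[(k0,k3),(k2,k3),(k7,k3),(k8,k4),(k9,k4)],[(k1,k3)]]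
    [] k0
    [[k1,k1,k0,k0,k0,k1],[k1,k0,k0,k1,k0,k1]]
    [.ref k0 k0 [(z1,[z1])],.ref k1 k0 [(z1,[z1])]]]⟩

/-- classes `0 0 0 0 0 1`, types `C0 C0 C2 C2 C0 S0` -/
noncomputable def cT6_66 : CertT :=
  ⟨[k4,k4,k6,k6,k4,k16],[(false,k0,[k0,k1,k2,k3,k4,k5])],[[[([z1,z0,z0,z1,z0,z1],z2)],[([z1,z1,z0,z0,z0,z1],z2)],[]]],
    [.leafM k3 [k2,k3,k4,k5,k0,k1] [(z1,[z1])] [],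
    .leafM k0 [k1,k2,k3,k4,k5,k0] [(z1,[y1,z1])] [],
    .lp [(nat_lit 42066),(nat_lit 42066),(nat_lit 24928),(nat_lit 32718),(nat_lit 45264),(nat_lit 28044)] [(nat_lit 1599),
    (nat_lit 1599),(nat_lit 1599),(nat_lit 1599),(nat_lit 10168),(nat_lit 10168),(nat_lit 6273),(nat_lit 6273),k0,k0,
    (nat_lit 8610),(nat_lit 8610)] k0 [[k0,k0,k0,k0,k0,k0,k0,k0,(nat_lit 4674)],[k0,k0,k0,(nat_lit 3116)],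
    [(nat_lit 3116)],[],[k0,k0,k0,k0,k0,k0,(nat_lit 4674)],[],[k0,k0,k0,k0,k0,k0,k0,k0,k0,(nat_lit 10944)],[k0,k0,k0,
    k0,k0,(nat_lit 4674)],[k0,k0,k0,k0,k0,k0,k0,(nat_lit 10944)],[k0,(nat_lit 4674)]] (nat_lit 112176) k5
    [[(k10,(nat_lit 35055)),(k1,(nat_lit 42066))],[(k11,(nat_lit 30381)),(k4,(nat_lit 33497)),(k5,(nat_lit 36613)),
    (k6,(nat_lit 37392)),(k3,(nat_lit 42066))],[(k7,(nat_lit 37392)),(k2,(nat_lit 38950)),(k0,(nat_lit 42066)),(k9,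
    (nat_lit 43665)),(k8,(nat_lit 48339))],[(k4,(nat_lit 33497)),(k5,(nat_lit 33497)),(k11,(nat_lit 35055)),(k6,
    (nat_lit 37392)),(k3,(nat_lit 38950))],[(k7,(nat_lit 28823)),(k2,(nat_lit 33497)),(k8,(nat_lit 35096)),(k9,
    (nat_lit 35096)),(k0,(nat_lit 36613))],[(k7,(nat_lit 28823)),(k9,(nat_lit 30422)),(k0,(nat_lit 33497)),(k2,
    (nat_lit 33497)),(k8,(nat_lit 35096))],[(k4,(nat_lit 28823)),(k5,(nat_lit 28823)),(k11,(nat_lit 30381)),(k3,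
    (nat_lit 37392)),(k6,(nat_lit 37392))],[(k8,(nat_lit 28047)),(k0,(nat_lit 37392)),(k2,(nat_lit 37392)),(k7,
    (nat_lit 37392)),(k9,(nat_lit 38991))],[(k4,(nat_lit 30422)),(k5,(nat_lit 35096)),(k6,(nat_lit 38991)),(k3,
    (nat_lit 43665)),(k11,(nat_lit 47598))],[(k6,(nat_lit 28047)),(k4,(nat_lit 35096)),(k5,(nat_lit 35096)),(k11,
    (nat_lit 36654)),(k3,(nat_lit 48339))],[(k0,(nat_lit 30381)),(k7,(nat_lit 30381)),(k2,(nat_lit 35055)),(k8,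
    (nat_lit 36654)),(k9,(nat_lit 47598))],[(k10,(nat_lit 28044)),(k1,(nat_lit 35055))]]
    [] k0
    [[k1,k0,k0,k1,k0,k1],[k0,k0,k1,k1,k1,k0]]
    [.ref k0 k0 [(z1,[z1])],.ref k1 k0 [(z1,[y1,z1])]]]⟩

/-- classes `0 0 0 0 0 1`, types `C0 C2 C0 C0 C2 C0` -/
noncomputable def cT6_67 : CertT :=
  ⟨[k4,k6,k4,k4,k6,k20],[(false,k0,[k0,k1,k2,k3,k4,k5])],[[[([z1,z1,z0,z0,z0,z1],z2)],[([z1,z0,z0,z0,z1,z1],z2)],[]]],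
    [.leafM k0 [k1,k2,k3,k4,k5,k0] [(z1,[y1,z1])] [],
    .leafM k0 [k0,k1,k2,k3,k4,k5] [(z1,[y1,z1])] [],
    .lp [k2,k2,k2,k4,k2,k2] [k1,k1,k1,k1,k1,k1,k0,k0,k1,k1,k1,k1] k0 [] k8 k5
    [[(k10,k2)],[(k2,k2),(k3,k2),(k8,k2),(k9,k2),(k7,k3)],[(k0,k2),(k4,k2),(k5,k2),(k11,k2),(k6,k3)],[(k0,k2),(k4,k2),
    (k5,k2),(k11,k2),(k6,k3)],[(k2,k2),(k3,k2),(k8,k2),(k9,k2),(k7,k3)],[(k2,k2),(k3,k2),(k8,k2),(k9,k2),(k7,k3)],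
    [(k0,k3),(k4,k3),(k5,k3),(k11,k3),(k6,k4)],[(k2,k3),(k3,k3),(k8,k3),(k9,k3),(k7,k4)],[(k0,k2),(k4,k2),(k5,k2),
    (k11,k2),(k6,k3)],[(k0,k2),(k4,k2),(k5,k2),(k11,k2),(k6,k3)],[(k2,k2),(k3,k2),(k8,k2),(k9,k2),(k7,k3)],[(k1,k2)]]
    [] k0
    [[k1,k1,k0,k0,k0,k1],[k1,k0,k0,k0,k1,k1]]
    [.ref k0 k0 [(z1,[z1])],.ref k1 k0 [(z1,[z1])]]]⟩

/-- classes `0 0 0 0 0 1`, types `C0 C2 C0 C0 C2 S0` -/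
noncomputable def cT6_68 : CertT :=
  ⟨[k4,k6,k4,k4,k6,k16],[(false,k0,[k0,k1,k2,k3,k4,k5])],[[[([z1,z1,z0,z0,z0,z1],z2)],[([z1,z0,z0,z0,z1,z1],z2)],[]]],
    [.leafM k0 [k1,k2,k3,k4,k5,k0] [(z1,[y1,z1])] [],
    .leafM k0 [k0,k1,k2,k3,k4,k5] [(z1,[y1,z1])] [],
    .lp [(nat_lit 320),k90,(nat_lit 270),(nat_lit 270),k180,(nat_lit 288)] [k0,k0,k115,k115,k25,k25,k25,k25,k70,k70,k16,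
    k16] k0 [[k0,k0,k0,k0,k0,k0,k0,k0,k0,k60],[],[],[],[],[],[],[],[k0,k60]] (nat_lit 720) k5
    [[(k10,(nat_lit 304)),(k1,(nat_lit 320))],[(k8,k190),(k2,(nat_lit 205)),(k3,(nat_lit 205)),(k9,(nat_lit 250)),(k7,
    (nat_lit 295))],[(k4,k180),(k5,k180),(k6,k180),(k0,(nat_lit 205)),(k11,(nat_lit 249))],[(k4,k180),(k5,k180),(k6,
    k180),(k11,k189),(k0,(nat_lit 205))],[(k2,k180),(k3,k180),(k8,(nat_lit 225)),(k9,(nat_lit 225)),(k7,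
    (nat_lit 270))],[(k2,k180),(k3,k180),(k8,(nat_lit 225)),(k9,(nat_lit 225)),(k7,(nat_lit 270))],[(k4,
    (nat_lit 270)),(k5,(nat_lit 270)),(k6,(nat_lit 270)),(k11,(nat_lit 279)),(k0,(nat_lit 295))],[(k2,k180),(k3,k180),
    (k8,(nat_lit 225)),(k9,(nat_lit 225)),(k7,(nat_lit 270))],[(k4,(nat_lit 225)),(k5,(nat_lit 225)),(k6,
    (nat_lit 225)),(k11,(nat_lit 234)),(k0,(nat_lit 250))],[(k0,k190),(k4,(nat_lit 225)),(k5,(nat_lit 225)),(k6,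
    (nat_lit 225)),(k11,(nat_lit 234))],[(k2,k189),(k8,(nat_lit 234)),(k9,(nat_lit 234)),(k3,(nat_lit 249)),(k7,
    (nat_lit 279))],[(k10,(nat_lit 288)),(k1,(nat_lit 304))]]
    [] k0
    [[k1,k1,k0,k0,k0,k1],[k0,k1,k1,k1,k0,k0]]
    [.ref k0 k0 [(z1,[z1])],.ref k1 k0 [(z1,[y1,z1])]]]⟩

/-- classes `0 0 0 0 0 1`, types `C0 C2 C0 C2 C0 C0` -/
noncomputable def cT6_69 : CertT :=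
  ⟨[k4,k6,k4,k6,k4,k20],[],[[[]]],
    [.lp [k0,k2,k0,k2,k0,k2] [k1,k1,k0,k0,k1,k1,k0,k0,k1,k1,k0,k0] k0 [] k4 k5
    [[(k10,k1)],[(k2,k1),(k3,k1),(k6,k1),(k7,k1),(k11,k1)],[(k0,k1),(k4,k1),(k5,k1),(k8,k1),(k9,k1)],[(k0,k1),(k4,k1),
    (k5,k1),(k8,k1),(k9,k1)],[(k2,k1),(k3,k1),(k6,k1),(k7,k1),(k11,k1)],[(k2,k1),(k3,k1),(k6,k1),(k7,k1),(k11,k1)],
    [(k0,k1),(k4,k1),(k5,k1),(k8,k1),(k9,k1)],[(k0,k1),(k4,k1),(k5,k1),(k8,k1),(k9,k1)],[(k2,k1),(k3,k1),(k6,k1),(k7,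
    k1),(k11,k1)],[(k2,k1),(k3,k1),(k6,k1),(k7,k1),(k11,k1)],[(k0,k1),(k4,k1),(k5,k1),(k8,k1),(k9,k1)],[(k1,k1)]]
    [] k0
    []
    []]⟩

/-- classes `0 0 0 0 0 1`, types `C0 C2 C0 C2 C0 S0` -/
noncomputable def cT6_70 : CertT :=
  ⟨[k4,k6,k4,k6,k4,k16],[],[[[]]],
    [.lp [k2,k4,k0,k4,k0,k4] [k1,k1,k0,k0,k2,k2,k0,k0,k2,k2,k0,k0] k0 [] k8 k5
    [[(k1,k2),(k10,k3)],[(k2,k3),(k3,k3),(k6,k3),(k7,k3),(k11,k3)],[(k4,k2),(k5,k2),(k8,k2),(k9,k2),(k0,k3)],[(k4,k2),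
    (k5,k2),(k8,k2),(k9,k2),(k0,k3)],[(k2,k2),(k3,k2),(k6,k2),(k7,k2),(k11,k2)],[(k2,k2),(k3,k2),(k6,k2),(k7,k2),(k11,
    k2)],[(k4,k2),(k5,k2),(k8,k2),(k9,k2),(k0,k3)],[(k4,k2),(k5,k2),(k8,k2),(k9,k2),(k0,k3)],[(k2,k2),(k3,k2),(k6,k2),
    (k7,k2),(k11,k2)],[(k2,k2),(k3,k2),(k6,k2),(k7,k2),(k11,k2)],[(k4,k2),(k5,k2),(k8,k2),(k9,k2),(k0,k3)],[(k1,k3),
    (k10,k4)]]
    [] k0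
    []
    []]⟩

/-- classes `0 0 0 0 0 1`, types `C0 C2 C2 C2 C0 C0` -/
noncomputable def cT6_71 : CertT :=
  ⟨[k4,k6,k6,k6,k4,k20],[(true,k5,[k5,k4,k3,k2,k1,k0]),(false,k0,[k0,k1,k2,k3,k4,k5])],[[[([z1,z0,z0,z1,z0,z1],z2)],
    []]],
    [.leafM k3 [k2,k3,k4,k5,k0,k1] [(z1,[z1])] [],
    .lp [k2,k6,k4,k4,k2,k4] [k2,k2,k0,k0,k1,k1,k1,k1,k2,k2,k1,k1] k0 [] k12 k5
    [[(k10,k3)],[(k4,k3),(k6,k3),(k11,k3),(k2,k4),(k3,k4)],[(k0,k4),(k8,k4),(k9,k4),(k5,k5),(k7,k5)],[(k0,k4),(k8,k4),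
    (k9,k4),(k5,k5),(k7,k5)],[(k4,k4),(k6,k4),(k11,k4),(k2,k5),(k3,k5)],[(k0,k3),(k8,k3),(k9,k3),(k5,k4),(k7,k4)],
    [(k4,k4),(k6,k4),(k11,k4),(k2,k5),(k3,k5)],[(k0,k3),(k8,k3),(k9,k3),(k5,k4),(k7,k4)],[(k4,k3),(k6,k3),(k11,k3),
    (k2,k4),(k3,k4)],[(k4,k3),(k6,k3),(k11,k3),(k2,k4),(k3,k4)],[(k0,k3),(k8,k3),(k9,k3),(k5,k4),(k7,k4)],[(k1,k3)]]
    [] k0
    [[k1,k0,k1,k0,k0,k1],[k1,k0,k0,k1,k0,k1]]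
    [.ref k0 k0 [(z1,[z1])],.ref k0 k1 [(z1,[z1])]]]⟩

/-- classes `0 0 0 0 0 1`, types `C0 C2 C2 C2 C0 S0` -/
noncomputable def cT6_72 : CertT :=
  ⟨[k4,k6,k6,k6,k4,k16],[(false,k0,[k0,k1,k2,k3,k4,k5]),(true,k5,[k5,k4,k3,k2,k1,k0])],[[[([z1,z0,z0,z1,z0,z1],z2)],
    []]],
    [.leafM k3 [k2,k3,k4,k5,k0,k1] [(z1,[z1])] [],
    .lp [k34,k28,k36,k28,k36,k26] [k1,k1,k4,k4,k0,k0,k4,k4,k0,k0,k5,k5] k0 [[],[],[],[],[k0,k0,k0,k0,k0,k0,k4],[],[k0,k0,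
    k0,k0,k0,k0,k0,k0,k0,k8],[k0,k0,k0,k0,k0,k4],[k0,k0,k0,k0,k0,k0,k0,k8]] k96 k5
    [[(k10,k30),(k1,k34)],[(k11,k30),(k2,k31),(k3,k31),(k6,k31),(k4,k35)],[(k7,k28),(k0,k31),(k5,k32),(k8,k32),(k9,
    k32)],[(k7,k28),(k0,k31),(k5,k32),(k8,k32),(k9,k32)],[(k11,k31),(k2,k32),(k3,k32),(k6,k32),(k4,k36)],[(k7,k32),
    (k9,k32),(k0,k35),(k5,k36),(k8,k36)],[(k11,k27),(k2,k28),(k3,k28),(k4,k32),(k6,k32)],[(k8,k24),(k0,k31),(k5,k32),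
    (k7,k32),(k9,k32)],[(k2,k32),(k3,k32),(k4,k32),(k6,k32),(k11,k39)],[(k6,k24),(k11,k31),(k2,k32),(k3,k32),(k4,
    k36)],[(k7,k27),(k0,k30),(k5,k31),(k8,k31),(k9,k39)],[(k10,k26),(k1,k30)]]
    [] k0
    [[k1,k0,k0,k1,k0,k1],[k0,k1,k0,k1,k1,k0]]
    [.ref k0 k0 [(z1,[z1])],.ref k0 k1 [(z1,[y1,z1])]]]⟩

/-- classes `0 0 0 0 0 1`, types `S0 S0 S0 S0 S0 C0` -/
noncomputable def cT6_73 : CertT :=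
  ⟨[k0,k0,k0,k0,k0,k20],[(true,k5,[k5,k4,k3,k2,k1,k0]),(false,k0,[k0,k1,k2,k3,k4,k5])],[[[([z1,z0,z0,z0,z1,z1],z2)],
    [([z1,z0,z0,z1,z0,z1],z2)],[]]],
    [.leafM k0 [k0,k1,k2,k3,k4,k5] [(z1,[y1,z1])] [],
    .leafM k3 [k2,k3,k4,k5,k0,k1] [(z1,[z1])] [],
    .lp [k16,k21,k22,k22,k22,k16] [k4,k4,k3,k0,k1,k1,k1,k1,k1,k1,k5,k3] k0 [[k0,k1,k0,k0,k0,k0,k0,k1],[k0,k0,k0,k0,k1,k0,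
    k0,k6,k6],[k0,k0,k0,k0,k0,k0,k0,k0,k0,k5],[k0,k0,k3,k0,k0,k2],[k0,k0,k2,k0,k0,k1],[k1,k0,k0,k0,k0,k0,k0,k0,k0,k6],
    [k6,k1],[],[k0,k0,k0,k5,k6],[k6]] k60 k5
    [[(k10,k15)],[(k0,k15),(k2,k17),(k11,k17),(k6,k18),(k5,k19),(k7,k19),(k3,k20),(k4,k20),(k8,k25),(k9,k25)],[(k11,
    k15),(k6,k17),(k0,k20),(k2,k21),(k7,k22),(k4,k23),(k5,k23),(k8,k23),(k9,k24),(k3,k25)],[(k8,k15),(k0,k17),(k11,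
    k18),(k4,k20),(k5,k20),(k6,k20),(k9,k20),(k2,k21),(k3,k21),(k7,k22)],[(k0,k19),(k5,k19),(k2,k20),(k4,k20),(k6,
    k22),(k7,k22),(k8,k22),(k9,k22),(k3,k23),(k11,k25)],[(k0,k20),(k2,k20),(k5,k20),(k4,k21),(k6,k22),(k7,k22),(k8,
    k22),(k9,k22),(k3,k23),(k11,k26)],[(k8,k16),(k0,k19),(k11,k20),(k2,k22),(k3,k22),(k4,k22),(k5,k22),(k6,k22),(k9,
    k22),(k7,k23)],[(k3,k17),(k0,k18),(k2,k20),(k11,k20),(k4,k22),(k5,k22),(k6,k22),(k7,k22),(k8,k22),(k9,k22)],[(k2,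
    k20),(k11,k20),(k4,k22),(k5,k22),(k6,k22),(k7,k22),(k8,k22),(k9,k22),(k3,k24),(k0,k25)],[(k2,k15),(k7,k16),(k11,
    k20),(k4,k22),(k5,k22),(k6,k22),(k8,k22),(k9,k22),(k3,k23),(k0,k25)],[(k3,k15),(k0,k17),(k2,k18),(k11,k18),(k6,
    k20),(k7,k20),(k8,k20),(k9,k20),(k5,k25),(k4,k26)],[(k1,k15)]]
    [] k0
    [[k1,k1,k0,k0,k0,k1],[k1,k0,k0,k1,k0,k1],[k0,k1,k1,k1,k0,k0],[k0,k1,k0,k1,k1,k0]]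
    [.ref k0 k0 [(z1,[z1])],.ref k1 k1 [(z1,[z1])],.ref k0 k1 [(z1,[y1,z1])],.ref k1 k0 [(z1,[y1,z1])]]]⟩

/-- classes `0 0 0 0 1 1`, types `B0 B0 B1 B1 B0 B1` -/
noncomputable def cT6_74 : CertT :=
  ⟨[k8,k8,k9,k9,k24,k25],[(false,k0,[k0,k1,k2,k3,k4,k5])],[[[([z1,z0,z0,z0,z1,z1],z2)],[]]],
    [.leafM k6 [k1,k2,k3,k4,k5,k0] [(z1,[z1])] [],
    .lp [k4,k4,k6,k2,k2,k4] [k1,k1,k1,k1,k0,k0,k2,k2,k2,k2,k1,k1] k0 [] k12 k5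
    [[(k8,k3),(k11,k4)],[(k6,k3),(k7,k3),(k9,k3),(k4,k5)],[(k6,k3),(k7,k3),(k9,k3),(k4,k5)],[(k6,k3),(k7,k3),(k9,k3),
    (k4,k5)],[(k6,k4),(k7,k4),(k9,k4),(k4,k6)],[(k0,k5),(k2,k5),(k3,k5),(k5,k6)],[(k0,k3),(k2,k3),(k3,k3),(k5,k4)],
    [(k0,k3),(k2,k3),(k3,k3),(k5,k4)],[(k0,k3),(k2,k3),(k3,k3),(k5,k4)],[(k1,k3),(k10,k3)],[(k1,k4),(k10,k4)],[(k8,
    k3),(k11,k4)]]
    [] k0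
    [[k1,k0,k0,k0,k1,k1]]
    [.ref k0 k0 [(z1,[z1])]]]⟩

/-- classes `0 0 0 0 1 1`, types `B0 B0 B1 B1 C0 C0` -/
noncomputable def cT6_75 : CertT :=
  ⟨[k8,k8,k9,k9,k20,k20],[(false,k0,[k0,k1,k2,k3,k4,k5])],[[[([z1,z0,z0,z0,z1,z1],z2)],[]]],
    [.leafM k4 [k1,k2,k3,k4,k5,k0] [(z1,[z1])] [],
    .lp [k2,k2,k6,k4,k4,k4] [k2,k2,k2,k2,k0,k0,k1,k1,k1,k1,k1,k1] k0 [] k12 k5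
    [[(k8,k3),(k10,k3)],[(k6,k3),(k7,k3),(k9,k3),(k4,k4)],[(k6,k3),(k7,k3),(k9,k3),(k4,k4)],[(k6,k3),(k7,k3),(k9,k3),
    (k4,k4)],[(k6,k5),(k7,k5),(k9,k5),(k4,k6)],[(k0,k4),(k2,k4),(k3,k4),(k5,k6)],[(k0,k3),(k2,k3),(k3,k3),(k5,k5)],
    [(k0,k3),(k2,k3),(k3,k3),(k5,k5)],[(k0,k3),(k2,k3),(k3,k3),(k5,k5)],[(k1,k3),(k11,k4)],[(k8,k4),(k10,k4)],[(k1,
    k3),(k11,k4)]]
    [] k0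
    [[k1,k0,k0,k0,k1,k1]]
    [.ref k0 k0 [(z1,[z1])]]]⟩

/-- classes `0 0 0 0 1 1`, types `B0 B0 B1 B1 C0 C2` -/
noncomputable def cT6_76 : CertT :=
  ⟨[k8,k8,k9,k9,k20,k22],[(false,k0,[k0,k1,k2,k3,k4,k5])],[[[([z1,z0,z0,z0,z1,z1],z2)],[]]],
    [.leafM k4 [k1,k2,k3,k4,k5,k0] [(z1,[z1])] [],
    .lp [k6,k10,k8,k6,k6,k6] [k2,k2,k0,k0,k1,k1,k2,k2,k2,k2,k2,k2] k0 [] k24 k5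
    [[(k10,k6),(k11,k6)],[(k6,k6),(k7,k6),(k9,k6),(k4,k7)],[(k6,k8),(k7,k8),(k9,k8),(k4,k9)],[(k6,k8),(k7,k8),(k9,k8),
    (k4,k9)],[(k6,k7),(k7,k7),(k9,k7),(k4,k8)],[(k0,k7),(k5,k8),(k2,k9),(k3,k9)],[(k0,k6),(k5,k7),(k2,k8),(k3,k8)],
    [(k0,k6),(k5,k7),(k2,k8),(k3,k8)],[(k0,k6),(k5,k7),(k2,k8),(k3,k8)],[(k10,k6),(k11,k6)],[(k1,k6),(k8,k6)],[(k1,
    k6),(k8,k6)]]
    [] k0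
    [[k1,k0,k0,k0,k1,k1]]
    [.ref k0 k0 [(z1,[z1])]]]⟩

/-- classes `0 0 0 0 1 1`, types `B0 B0 B1 B1 N0 N1` -/
noncomputable def cT6_77 : CertT :=
  ⟨[k8,k8,k9,k9,k28,k29],[],[[[]]],
    [.lp [k0,k0,k6,k6,k6,k4] [k3,k3,k3,k3,k0,k0,k0,k0,k0,k0,k1,k1] k0 [] k12 k5
    [[(k8,k3)],[(k4,k3),(k6,k3),(k7,k3),(k9,k3)],[(k4,k3),(k6,k3),(k7,k3),(k9,k3)],[(k4,k3),(k6,k3),(k7,k3),(k9,k3)],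
    [(k4,k6),(k6,k6),(k7,k6),(k9,k6)],[(k0,k3),(k2,k3),(k3,k3),(k5,k6)],[(k0,k3),(k2,k3),(k3,k3),(k5,k6)],[(k0,k3),
    (k2,k3),(k3,k3),(k5,k6)],[(k0,k3),(k2,k3),(k3,k3),(k5,k6)],[(k1,k3)],[(k10,k4)],[(k11,k4)]]
    [] k0
    []
    []]⟩

/-- classes `0 0 0 0 1 1`, types `B0 B0 B1 B1 N0 N2` -/
noncomputable def cT6_78 : CertT :=
  ⟨[k8,k8,k9,k9,k28,k30],[(false,k0,[k0,k1,k2,k3,k4,k5])],[[[([z1,z0,z0,z0,z1,z1],z2)],[]]],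
    [.leafM k6 [k1,k2,k3,k4,k5,k0] [(z1,[z1])] [],
    .lp [k6,k10,k8,k6,k6,k6] [k2,k2,k0,k0,k1,k1,k2,k2,k2,k2,k2,k2] k0 [] k24 k5
    [[(k11,k6)],[(k6,k6),(k7,k6),(k9,k6),(k4,k7)],[(k6,k8),(k7,k8),(k9,k8),(k4,k9)],[(k6,k8),(k7,k8),(k9,k8),(k4,k9)],
    [(k6,k7),(k7,k7),(k9,k7),(k4,k8)],[(k0,k7),(k5,k8),(k2,k9),(k3,k9)],[(k0,k6),(k5,k7),(k2,k8),(k3,k8)],[(k0,k6),
    (k5,k7),(k2,k8),(k3,k8)],[(k0,k6),(k5,k7),(k2,k8),(k3,k8)],[(k10,k6)],[(k1,k6)],[(k8,k6)]]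
    [] k0
    [[k1,k0,k0,k0,k1,k1]]
    [.ref k0 k0 [(z1,[z1])]]]⟩

/-- classes `0 0 0 0 1 1`, types `B0 B0 B1 B1 S0 S0` -/
noncomputable def cT6_79 : CertT :=
  ⟨[k8,k8,k9,k9,k16,k16],[(false,k0,[k0,k1,k2,k3,k4,k5])],[[[([z1,z0,z0,z0,z1,z1],z2)],[]]],
    [.leafM k4 [k1,k2,k3,k4,k5,k0] [(z1,[z1])] [],
    .lp [k10,k8,k8,k4,k8,k8] [k0,k0,k1,k1,k1,k1,k3,k3,k1,k1,k1,k1] k0 [] k24 k5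
    [[(k8,k9),(k10,k9),(k11,k9),(k1,k10)],[(k6,k7),(k7,k7),(k4,k9),(k9,k9)],[(k6,k6),(k7,k6),(k4,k8),(k9,k8)],[(k6,
    k6),(k7,k6),(k4,k8),(k9,k8)],[(k6,k6),(k7,k6),(k4,k8),(k9,k8)],[(k2,k8),(k3,k8),(k5,k8),(k0,k9)],[(k2,k6),(k3,k6),
    (k5,k6),(k0,k7)],[(k2,k6),(k3,k6),(k5,k6),(k0,k7)],[(k2,k8),(k3,k8),(k5,k8),(k0,k9)],[(k8,k8),(k10,k8),(k11,k8),
    (k1,k9)],[(k8,k8),(k10,k8),(k11,k8),(k1,k9)],[(k8,k8),(k10,k8),(k11,k8),(k1,k9)]]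
    [] k0
    [[k0,k1,k1,k1,k0,k0]]
    [.ref k0 k0 [(z1,[y1,z1])]]]⟩

/-- the certificates of this file -/
noncomputable def lT6_3 : List CertT :=
  [cT6_4, cT6_5, cT6_6, cT6_7, cT6_8, cT6_9, cT6_10, cT6_11, cT6_12, cT6_13, cT6_14, cT6_15, cT6_16, cT6_17,
      cT6_18, cT6_19, cT6_20, cT6_21, cT6_22, cT6_23, cT6_24, cT6_25, cT6_26, cT6_27, cT6_28, cT6_29, cT6_30,
      cT6_31, cT6_32, cT6_33, cT6_34, cT6_35, cT6_36, cT6_37, cT6_38, cT6_39, cT6_40, cT6_41, cT6_42, cT6_43,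
      cT6_44, cT6_45, cT6_46, cT6_47, cT6_48, cT6_49, cT6_50, cT6_51, cT6_52, cT6_53, cT6_54, cT6_55, cT6_56,
      cT6_57, cT6_58, cT6_59, cT6_60, cT6_61, cT6_62, cT6_63, cT6_64, cT6_65, cT6_66, cT6_67, cT6_68, cT6_69,
      cT6_70, cT6_71, cT6_72, cT6_73, cT6_74, cT6_75, cT6_76, cT6_77, cT6_78, cT6_79]

theorem gT6_3 : allF (chkC 6 tt6) lT6_3 = true := by
  decide +kernel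

end Pool.Agent.Lib_MP_fa6e45
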