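import Pool.Agent.Lib_MP_fa6e45.CSTT
import Pool.Agent.Lib_MP_fa6e45.HK

/-!
MP_fa6e45_co, stage 5: certificates (captain, generated by a program).
-/

namespace Pool.Agent.Lib_MP_fa6e45

/-- classes `0 0 0 0 1 1`, types `B0 B1 B0 B1 B0 B1` -/
noncomputable def cT6_80 : CertT :=
  ⟨[k8,k9,k8,k9,k24,k25],[(false,k0,[k0,k1,k2,k3,k4,k5]),(true,k4,[k4,k3,k2,k1,k0,k5])],[[[([z1,z0,z0,z0,z1,z1],z2),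
    ([z0,z1,z0,z0,z0,y1],z0),([z0,z0,z1,z0,z0,z2],z2)],[([z3,z0,z0,z0,z3,z0],z4),([z0,z3,z0,z0,z0,z0],z2),([z0,z0,z3,
    z0,z0,z0],z2),([z0,z0,z0,z3,z0,z0],z2)],[([z3,z0,z0,z0,z3,z0],z4),([z0,z3,z0,z0,z0,z0],z2),([z0,z0,z3,z0,z0,z3],
    z4)],[([z1,z0,z0,z1,z1,z0],z2),([z0,z1,z0,y1,z0,z0],z0)],[([z1,z0,z0,z0,z1,z1],z2),([z0,z1,z0,z0,z0,y1],z0)],
    [([z1,z0,z0,z0,z1,z1],z2),([z0,z1,z0,z0,z0,y1],z0),([z0,z0,z3,z0,z0,z3],z4)],[([z1,z0,z0,z1,z1,z0],z2),([z0,z3,z0,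
    z0,z0,z0],z2),([z0,z0,z3,z0,z0,z0],z2)],[([z1,z0,z0,z1,z1,z0],z2),([z0,z3,z0,z0,z0,z0],z2)],[([z1,z0,z0,z1,z1,z0],
    z2)],[([z1,z0,z0,z0,z1,z1],z2)],[([z1,z0,z0,z0,z1,z1],z2),([z0,z3,z0,z0,z0,z0],z2)],[([z3,z0,z0,z0,z3,z0],z4),
    ([z0,z3,z0,z0,z0,z0],z2),([z0,z0,z3,z3,z0,z0],z4)]],[[([z1,z0,z1,z0,z1,z0],z2),([z0,z3,z0,z0,z0,z0],z2),([z0,z0,
    z0,z3,z0,z0],z2)],[([z3,z0,z3,z3,z3,z0],z8),([z0,z3,z0,z0,z0,z0],z2)],[([z3,z0,z3,z3,z3,z3],z10)],[]]],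
    [.leafM k6 [k1,k2,k3,k4,k5,k0] [(z1,[z1])] [],
    .leafM k2 [k0,k1,k2,k3,k4,k5] [(z1,[z0,z1]),(z1,[z0,z0,z0,z1]),(z1,[y1,y1,y1,y1,z3])] [],
    .lp [k10,k8,k8,k8,k6,k6] [k0,k0,k1,k1,k1,k1,k1,k1,k2,k2,k2,k2] k0 [] k24 k5
    [[(k8,k8),(k11,k8)],[(k9,k8),(k2,k9),(k5,k9),(k6,k9)],[(k9,k7),(k2,k8),(k5,k8),(k6,k8)],[(k3,k8),(k4,k8),(k7,k8),
    (k0,k9)],[(k3,k8),(k4,k8),(k7,k8),(k0,k9)],[(k9,k7),(k2,k8),(k5,k8),(k6,k8)],[(k9,k7),(k2,k8),(k5,k8),(k6,k8)],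
    [(k3,k8),(k4,k8),(k7,k8),(k0,k9)],[(k3,k7),(k4,k7),(k7,k7),(k0,k8)],[(k10,k6),(k1,k8)],[(k10,k6),(k1,k8)],[(k8,
    k6),(k11,k6)]]
    [] k0
    [[k1,k0,k0,k0,k1,k1],[k0,k0,k0,k0,k0,k3]]
    [.ref k1 k0 [(z1,[z0,z1]),(z1,[z0,z0,z1]),(z1,[y3,z1,z0,z1]),(z1,[z0,y1,y1,y1,z3])],.ref k1 k0 [(z1,[z0,z1]),(z1,
    [z0,z0,z1]),(z1,[y1,z0,z0,z1]),(z1,[z0,y1,y1,y1,z3])]],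
    .lp [k58,k38,k40,k40,k22,k40] [k0,k0,k10,k10,k9,k9,k9,k9,k18,k18,k9,k9] k0 [[k0,k0,k0,k0,k0,k0,k8],[k0,k0,k2],[k0,k0,
    k0,k0,k4],[k2],[],[k0,k0,k0,k4],[],[k0,k8]] k120 k5
    [[(k8,k40),(k11,k49)],[(k9,k32),(k5,k49),(k6,k49),(k2,k50)],[(k9,k30),(k5,k37),(k2,k38),(k6,k47)],[(k7,k35),(k3,
    k38),(k4,k39),(k0,k50)],[(k3,k37),(k7,k40),(k4,k44),(k0,k49)],[(k9,k31),(k2,k39),(k6,k40),(k5,k44)],[(k9,k31),(k2,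
    k35),(k5,k40),(k6,k40)],[(k4,k40),(k7,k40),(k3,k47),(k0,k49)],[(k3,k30),(k4,k31),(k7,k31),(k0,k32)],[(k10,k31),
    (k1,k40)],[(k10,k40),(k1,k49)],[(k8,k31),(k11,k40)]]
    [] k0
    [[k1,k0,k0,k0,k1,k1],[k0,k3,k0,k0,k0,k0],[k0,k2,k1,k0,k0,k0],[k0,k1,k1,k1,k0,k0]]
    [.ref k0 k0 [(z1,[z1]),(z1,[y1,z1,z1]),(z1,[z1,y2,y1,z1])],.ref k2 k0 [(z1,[y1,z3,z3]),(z1,[z1]),(z1,[y1,y3,z0,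
    z3])],.ref k0 k0 [(z1,[y1,z0,z1,z1]),(z1,[z1,z1,z0,y1]),(z1,[y1,y2,z0,z2])],.ref k0 k0 [(z1,[y1,z0,z0,z1]),(z1,
    [z1,z1,z1,y1]),(z1,[y1,y2,y1,z2])]],
    .leafM k6 [k1,k2,k3,k4,k5,k0] [(z1,[z1])] [],
    .leafM k6 [k1,k2,k3,k4,k5,k0] [(z1,[z1])] [],
    .lp [k16,k16,k16,k18,k12,k16] [k1,k1,k1,k1,k1,k1,k0,k0,k3,k3,k1,k1] k0 [[],[k0,k0,k0,k0,k0,k0,k2],[],[],[],[k0,k0,k0,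
    k0,k0,k0,k0,k4],[k0,k0,k0,k0,k4],[k2]] k48 k5
    [[(k8,k14),(k11,k16)],[(k9,k14),(k2,k16),(k5,k16),(k6,k19)],[(k9,k12),(k2,k16),(k5,k16),(k6,k17)],[(k0,k16),(k3,
    k16),(k4,k16),(k7,k17)],[(k0,k16),(k3,k16),(k4,k16),(k7,k17)],[(k2,k16),(k5,k16),(k6,k17),(k9,k18)],[(k6,k14),(k9,
    k15),(k2,k17),(k5,k17)],[(k7,k14),(k3,k17),(k4,k17),(k0,k19)],[(k3,k12),(k0,k14),(k7,k15),(k4,k18)],[(k1,k14),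
    (k10,k14)],[(k1,k16),(k10,k16)],[(k8,k14),(k11,k16)]]
    [] k0
    [[k1,k1,k0,k0,k1,k0],[k1,k0,k0,k0,k1,k1],[k0,k0,k0,k3,k0,k0]]
    [.ref k1 k0 [(z1,[z3,z0,y1]),(z1,[z0,z0,z1]),(z1,[z0,z0,z0,z1]),(z1,[y3,z3,z1])],.ref k1 k0 [(z1,[z3,z3,z1,z1,
    y3]),(z1,[z0,z0,z1]),(z1,[z0,z0,z0,z1]),(z1,[y3,z0,y1,y1,z3])],.ref k1 k0 [(z1,[y1,z3]),(z1,[z0,z0,z1]),(z1,[z0,
    z0,z0,z1]),(z1,[z1])]],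
    .lp [k10,k8,k8,k8,k6,k6] [k0,k0,k1,k1,k1,k1,k1,k1,k2,k2,k2,k2] k0 [] k24 k5
    [[(k8,k8),(k11,k8)],[(k9,k8),(k2,k9),(k5,k9),(k6,k9)],[(k9,k7),(k2,k8),(k5,k8),(k6,k8)],[(k3,k8),(k4,k8),(k7,k8),
    (k0,k9)],[(k3,k8),(k4,k8),(k7,k8),(k0,k9)],[(k9,k7),(k2,k8),(k5,k8),(k6,k8)],[(k9,k7),(k2,k8),(k5,k8),(k6,k8)],
    [(k3,k8),(k4,k8),(k7,k8),(k0,k9)],[(k3,k7),(k4,k7),(k7,k7),(k0,k8)],[(k10,k6),(k1,k8)],[(k10,k6),(k1,k8)],[(k8,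
    k6),(k11,k6)]]
    [] k0
    [[k1,k0,k0,k0,k1,k1],[k0,k0,k0,k0,k0,k3]]
    [.ref k5 k1 [(z1,[z1]),(z1,[y1,z1]),(z1,[z0,y3,y1,z3])],.ref k6 k0 [(z1,[z0,z1]),(z1,[z0,z0,z1]),(z1,[y1,y3,y1,
    z3])]],
    .lp [k22,k14,k16,k16,k10,k16] [k0,k0,k4,k4,k3,k3,k3,k3,k6,k6,k3,k3] k0 [[k0,k0,k0,k4,k0,k0,k4],[],[k0,k4],[],[],[],[],
    [k0,k4]] k48 k5
    [[(k8,k16),(k11,k19)],[(k9,k12),(k2,k14),(k5,k19),(k6,k19)],[(k9,k12),(k2,k14),(k5,k19),(k6,k19)],[(k0,k14),(k3,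
    k14),(k4,k15),(k7,k15)],[(k4,k16),(k7,k16),(k0,k19),(k3,k19)],[(k9,k13),(k2,k15),(k5,k16),(k6,k16)],[(k9,k13),(k2,
    k15),(k5,k16),(k6,k16)],[(k4,k16),(k7,k16),(k0,k19),(k3,k19)],[(k0,k12),(k3,k12),(k4,k13),(k7,k13)],[(k10,k13),
    (k1,k16)],[(k10,k16),(k1,k19)],[(k8,k13),(k11,k16)]]
    [] k0
    [[k1,k1,k0,k0,k1,k0],[k1,k0,k0,k0,k1,k1],[k0,k3,k0,k0,k0,k0]]
    [.ref k3 k0 [(z1,[z0,z1]),(z1,[z1,y1])],.ref k4 k1 [(z1,[z1]),(z1,[y1,z1])],.ref k7 k0 [(z1,[z0,z1]),(z1,[z1])]],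
    .leafM k6 [k1,k2,k3,k4,k5,k0] [(z1,[z1])] [],
    .leafM k6 [k1,k2,k3,k4,k5,k0] [(z1,[z1])] [],
    .leafM k6 [k1,k2,k3,k4,k5,k0] [(z3,[z0,y1,y1,z3])] [],
    .leafM k2 [k0,k1,k2,k3,k4,k5] [(z1,[z0,z1]),(z1,[z0,z0,z1]),(z1,[y3,y1,y1,z3])] [],
    .lp [k16,k16,k16,k18,k12,k16] [k1,k1,k1,k1,k1,k1,k0,k0,k3,k3,k1,k1] k0 [[],[k0,k0,k0,k0,k0,k0,k2],[],[],[],[k0,k0,k0,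
    k0,k0,k0,k0,k4],[k0,k0,k0,k0,k4],[k2]] k48 k5
    [[(k8,k14),(k11,k16)],[(k9,k14),(k2,k16),(k5,k16),(k6,k19)],[(k9,k12),(k2,k16),(k5,k16),(k6,k17)],[(k0,k16),(k3,
    k16),(k4,k16),(k7,k17)],[(k0,k16),(k3,k16),(k4,k16),(k7,k17)],[(k2,k16),(k5,k16),(k6,k17),(k9,k18)],[(k6,k14),(k9,
    k15),(k2,k17),(k5,k17)],[(k7,k14),(k3,k17),(k4,k17),(k0,k19)],[(k3,k12),(k0,k14),(k7,k15),(k4,k18)],[(k1,k14),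
    (k10,k14)],[(k1,k16),(k10,k16)],[(k8,k14),(k11,k16)]]
    [] k0
    [[k1,k1,k0,k0,k1,k0],[k1,k0,k0,k0,k1,k1],[k0,k0,k0,k3,k0,k0]]
    [.ref k11 k0 [(z1,[z3,z0,y1]),(z1,[z0,z0,z1]),(z1,[y3,z1,z1])],.ref k11 k0 [(z1,[z3,z1,z1,y3]),(z1,[z0,z0,z1]),
    (z1,[y3,z0,y1,z3])],.ref k12 k0 [(z3,[y1,z1]),(z1,[z0,z0,z1]),(z1,[z1])]],
    .lp [k10,k8,k8,k8,k6,k6] [k0,k0,k1,k1,k1,k1,k1,k1,k2,k2,k2,k2] k0 [] k24 k5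
    [[(k8,k8),(k11,k8)],[(k9,k8),(k2,k9),(k5,k9),(k6,k9)],[(k9,k7),(k2,k8),(k5,k8),(k6,k8)],[(k3,k8),(k4,k8),(k7,k8),
    (k0,k9)],[(k3,k8),(k4,k8),(k7,k8),(k0,k9)],[(k9,k7),(k2,k8),(k5,k8),(k6,k8)],[(k9,k7),(k2,k8),(k5,k8),(k6,k8)],
    [(k3,k8),(k4,k8),(k7,k8),(k0,k9)],[(k3,k7),(k4,k7),(k7,k7),(k0,k8)],[(k10,k6),(k1,k8)],[(k10,k6),(k1,k8)],[(k8,
    k6),(k11,k6)]]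
    [] k0
    [[k1,k0,k0,k0,k1,k1],[k0,k0,k0,k0,k0,k3]]
    [.ref k10 k0 [(z1,[z1]),(z1,[z0,y1,z3])],.ref k13 k0 [(z1,[y1,z1]),(z1,[z0,y1,z3])]],
    .lp [k22,k14,k16,k16,k10,k16] [k0,k0,k4,k4,k3,k3,k3,k3,k6,k6,k3,k3] k0 [[k0,k0,k0,k4,k0,k0,k4],[],[k0,k4],[],[],[],[],
    [k0,k4]] k48 k5
    [[(k8,k16),(k11,k19)],[(k9,k12),(k2,k14),(k5,k19),(k6,k19)],[(k9,k12),(k2,k14),(k5,k19),(k6,k19)],[(k0,k14),(k3,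
    k14),(k4,k15),(k7,k15)],[(k4,k16),(k7,k16),(k0,k19),(k3,k19)],[(k9,k13),(k2,k15),(k5,k16),(k6,k16)],[(k9,k13),(k2,
    k15),(k5,k16),(k6,k16)],[(k4,k16),(k7,k16),(k0,k19),(k3,k19)],[(k0,k12),(k3,k12),(k4,k13),(k7,k13)],[(k10,k13),
    (k1,k16)],[(k10,k16),(k1,k19)],[(k8,k13),(k11,k16)]]
    [] k0
    [[k1,k1,k0,k0,k1,k0],[k1,k0,k0,k0,k1,k1],[k0,k3,k0,k0,k0,k0]]
    [.ref k8 k1 [(z1,[z1])],.ref k9 k0 [(z1,[z1])],.ref k14 k0 [(z1,[y1,z3])]]]⟩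

/-- classes `0 0 0 0 1 1`, types `B0 B1 B0 B1 C0 C0` -/
noncomputable def cT6_81 : CertT :=
  ⟨[k8,k9,k8,k9,k20,k20],[(false,k0,[k0,k1,k2,k3,k4,k5])],[[[([z1,z0,z0,z0,z1,z1],z2)],[([z1,z0,z0,z0,z1,z1],z2),([z0,
    z3,z0,z0,z0,z0],z2)],[([z1,z0,z0,z0,z1,z1],z2),([z0,z3,z0,z0,z0,z0],z2),([z0,z0,z3,z0,z0,z0],z2)],[([z3,z0,z0,z3,
    z3,z3],z8),([z0,z3,z0,z0,z0,z0],z2)],[([z1,z0,z1,z0,z1,z0],z2),([z0,z3,z0,z0,z0,z0],z2),([z0,z0,z0,z3,z0,z0],z2)],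
    [([z3,z0,z3,z0,z3,z3],z8),([z0,z3,z0,z0,z0,z0],z2)],[([z3,z0,z3,z3,z3,z3],z10)],[([z1,z0,z0,z0,z1,z1],z2),([z0,z1,
    z0,y1,z0,z0],z0)],[([z2,z0,z1,z2,z2,z2],z6)],[]]],
    [.leafM k4 [k1,k2,k3,k4,k5,k0] [(z1,[z1])] [],
    .leafM k4 [k1,k2,k3,k4,k5,k0] [(z1,[z1])] [],
    .leafM k4 [k1,k2,k3,k4,k5,k0] [(z1,[z1])] [],
    .lp [k22,k40,k40,k38,k58,k40] [k18,k18,k9,k9,k9,k9,k10,k10,k0,k0,k9,k9] k0 [[k0,k0,k0,k0,k0,k0,k8],[],[k0,k0,k0,k0,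
    k4],[],[k0,k0,k0,k0,k0,k0,k0,k2],[k0,k0,k0,k4],[k0,k0,k0,k0,k0,k2],[k0,k8]] k120 k5
    [[(k10,k31),(k8,k40)],[(k6,k30),(k2,k31),(k5,k31),(k9,k32)],[(k2,k40),(k5,k40),(k6,k47),(k9,k49)],[(k0,k31),(k7,
    k35),(k3,k40),(k4,k40)],[(k0,k31),(k7,k39),(k3,k40),(k4,k44)],[(k6,k37),(k2,k40),(k5,k44),(k9,k49)],[(k2,k35),(k6,
    k38),(k5,k39),(k9,k50)],[(k0,k30),(k4,k37),(k7,k38),(k3,k47)],[(k0,k32),(k3,k49),(k4,k49),(k7,k50)],[(k1,k40),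
    (k11,k49)],[(k10,k40),(k8,k49)],[(k1,k31),(k11,k40)]]
    [] k0
    [[k1,k0,k0,k0,k1,k1],[k0,k1,k1,k1,k0,k0],[k0,k0,k1,k2,k0,k0],[k0,k0,k0,k3,k0,k0]]
    [.ref k2 k0 [(z1,[z1]),(z1,[z0,z0,z1]),(z1,[z0,y1,y1,z3])],.ref k2 k0 [(z1,[y1,z0,z0,z1]),(z1,[z0,z0,z1]),(z1,[z0,
    y1,y1,z3])],.ref k2 k0 [(z6,[y3,z1,y1,z3]),(z1,[z0,z0,z1]),(z1,[z0,y1,y1,z3])],.ref k2 k0 [(z3,[y1,z1]),(z1,[z0,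
    z0,z1]),(z1,[z0,y1,y1,z3])]],
    .leafM k2 [k0,k1,k2,k3,k4,k5] [(z1,[z0,z1]),(z1,[z0,z0,z1]),(z1,[y3,y1,y1,z3])] [],
    .lp [k14,k20,k10,k20,k14,k16] [k3,k3,k0,k0,k5,k5,k0,k0,k3,k3,k2,k2] k0 [[],[k0,k0,k0,k0,k0,k0,k0,k4],[k0,k0,k0,k0,k8],
    [],[],[k0,k0,k0,k8],[k4]] k48 k5
    [[(k8,k14),(k10,k15)],[(k5,k12),(k2,k17),(k6,k17),(k9,k18)],[(k5,k15),(k6,k16),(k9,k17),(k2,k20)],[(k7,k12),(k4,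
    k15),(k0,k17),(k3,k20)],[(k0,k12),(k3,k15),(k7,k15),(k4,k18)],[(k9,k12),(k2,k15),(k6,k15),(k5,k18)],[(k2,k12),(k5,
    k15),(k9,k17),(k6,k20)],[(k4,k15),(k3,k16),(k0,k17),(k7,k20)],[(k4,k12),(k3,k17),(k7,k17),(k0,k18)],[(k1,k14),
    (k11,k15)],[(k8,k15),(k10,k16)],[(k1,k15),(k11,k16)]]
    [] k0
    [[k1,k0,k1,k0,k1,k0],[k0,k1,k1,k1,k0,k0]]
    [.ref k4 k0 [(z1,[z1]),(z1,[z0,z0,z1]),(z1,[z0,y1,y1,z3])],.ref k2 k0 [(z1,[y1,z0,z0,z1]),(z1,[z0,z0,z1]),(z1,[z3,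
    z1,z0,y3])]],
    .lp [k22,k40,k40,k38,k58,k40] [k18,k18,k9,k9,k9,k9,k10,k10,k0,k0,k9,k9] k0 [[k0,k0,k0,k0,k0,k0,k10],[],[k0,k0,k0,k0,
    k6,k6],[],[k0,k0,k0,k6,k0,k0,k0,k2],[k0,k0,k0,k6],[k0,k0,k0,k0,k0,k2],[k0,k10]] k120 k5
    [[(k10,k31),(k8,k40)],[(k6,k30),(k9,k30),(k2,k31),(k5,k31)],[(k2,k40),(k5,k40),(k6,k49),(k9,k49)],[(k0,k31),(k7,
    k33),(k4,k34),(k3,k40)],[(k0,k31),(k3,k40),(k7,k45),(k4,k46)],[(k2,k34),(k6,k37),(k5,k46),(k9,k49)],[(k2,k33),(k6,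
    k38),(k5,k45),(k9,k50)],[(k0,k30),(k4,k37),(k7,k38),(k3,k49)],[(k0,k30),(k3,k49),(k4,k49),(k7,k50)],[(k1,k40),
    (k11,k49)],[(k10,k40),(k8,k49)],[(k1,k31),(k11,k40)]]
    [] k0
    [[k1,k0,k0,k0,k1,k1],[k0,k2,k1,k0,k0,k0],[k0,k1,k1,k1,k0,k0],[k0,k0,k0,k3,k0,k0]]
    [.ref k1 k0 [(z1,[z1]),(z1,[z0,y1,z3])],.ref k3 k0 [(z1,[y3,y1,z6]),(z1,[z0,y1,z3])],.ref k1 k0 [(z1,[y1,z0,z1]),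
    (z1,[z0,y1,z3])],.ref k5 k0 [(z1,[y1,z1]),(z1,[z0,y1,z3])]],
    .leafM k4 [k1,k2,k3,k4,k5,k0] [(z1,[z1])] [],
    .lp [k28,k38,k44,k36,k52,k40] [k12,k12,k7,k7,k4,k4,k8,k8,k0,k0,k6,k6] k0 [[k0,k0,k0,k0,k0,k0,k10,k2],[],[k0,k0,k0,k0,
    k2],[],[k0,k0,k0,k0,k0,k0,k4,k6],[k0,k0,k0,k2],[k0,k2,k0,k0,k0,k6],[k0,k10,k0,k0,k0,k4]] k120 k5
    [[(k10,k34),(k8,k40)],[(k6,k30),(k9,k30),(k2,k33),(k5,k36)],[(k2,k38),(k5,k41),(k6,k47),(k9,k47)],[(k0,k33),(k7,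
    k35),(k3,k38),(k4,k41)],[(k0,k36),(k7,k40),(k3,k41),(k4,k46)],[(k6,k34),(k2,k41),(k9,k44),(k5,k46)],[(k2,k35),(k5,
    k40),(k6,k40),(k9,k50)],[(k0,k30),(k4,k34),(k7,k40),(k3,k47)],[(k0,k30),(k4,k44),(k3,k47),(k7,k50)],[(k1,k40),
    (k11,k46)],[(k10,k40),(k8,k46)],[(k1,k34),(k11,k40)]]
    [] k0
    [[k1,k0,k0,k0,k1,k1],[k0,k3,k0,k0,k0,k0],[k0,k1,k1,k1,k0,k0],[k0,k0,k1,k2,k0,k0]]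
    [.ref k7 k0 [(z1,[z1]),(z1,[z1,y1,z1])],.ref k3 k0 [(z1,[z1,z3,y3]),(z1,[z1])],.ref k7 k0 [(z1,[y1,z0,z1]),(z1,
    [y1,y1,z2])],.ref k7 k0 [(z2,[y1,z1]),(z2,[y1,y1,z2])]],
    .lp [k20,k38,k40,k40,k60,k40] [k20,k20,k11,k11,k10,k10,k10,k10,k0,k0,k10,k10] k0 [[k0,k0,k0,k0,k0,k0,k8],[k0,k0,k2],
    [k0,k0,k0,k0,k4],[k2],[],[k0,k0,k0,k4],[],[k0,k8]] k120 k5
    [[(k10,k30),(k8,k40)],[(k5,k30),(k6,k30),(k2,k31),(k9,k32)],[(k5,k37),(k2,k38),(k6,k47),(k9,k49)],[(k0,k31),(k7,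
    k35),(k3,k38),(k4,k39)],[(k0,k30),(k3,k37),(k7,k40),(k4,k44)],[(k2,k39),(k6,k40),(k5,k44),(k9,k50)],[(k2,k35),(k5,
    k40),(k6,k40),(k9,k50)],[(k0,k30),(k4,k40),(k7,k40),(k3,k47)],[(k0,k32),(k3,k49),(k4,k50),(k7,k50)],[(k1,k40),
    (k11,k50)],[(k10,k40),(k8,k50)],[(k1,k30),(k11,k40)]]
    [] k0
    [[k1,k0,k0,k0,k1,k1],[k0,k3,k0,k0,k0,k0],[k0,k2,k1,k0,k0,k0],[k0,k1,k1,k1,k0,k0]]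
    [.ref k0 k0 [(z1,[z1])],.ref k6 k0 [(z1,[y1,z3])],.ref k8 k0 [(z1,[y1,z2])],.ref k0 k0 [(z1,[y1,z1])]]]⟩

/-- classes `0 0 0 0 1 1`, types `B0 B1 B0 B1 C0 C2` -/
noncomputable def cT6_82 : CertT :=
  ⟨[k8,k9,k8,k9,k20,k22],[(false,k0,[k0,k1,k2,k3,k4,k5])],[[[([z1,z0,z0,z0,z1,z1],z2)],[]]],
    [.leafM k4 [k1,k2,k3,k4,k5,k0] [(z1,[z1])] [],
    .lp [k8,k8,k8,k8,k8,k6] [k0,k0,k0,k0,k0,k0,k0,k0,k0,k0,k1,k1] k0 [[k0,k0,k2],[k0,k0,k0,k0,k0,k0,k0,k2],[],[k0,k2],[k0,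
    k0,k0,k0,k0,k0,k2],[],[k2],[k0,k0,k0,k0,k0,k2]] k24 k5
    [[(k10,k7),(k11,k7)],[(k5,k6),(k2,k8),(k6,k8),(k9,k10)],[(k6,k6),(k5,k8),(k9,k8),(k2,k10)],[(k0,k8),(k4,k8),(k7,
    k8),(k3,k10)],[(k0,k6),(k3,k8),(k4,k8),(k7,k8)],[(k9,k6),(k2,k8),(k5,k8),(k6,k8)],[(k2,k8),(k5,k8),(k9,k8),(k6,
    k10)],[(k3,k6),(k0,k8),(k4,k8),(k7,k10)],[(k4,k6),(k3,k8),(k7,k8),(k0,k10)],[(k10,k7),(k11,k7)],[(k1,k7),(k8,k7)],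
    [(k1,k7),(k8,k7)]]
    [] k0
    [[k0,k1,k1,k1,k0,k0]]
    [.ref k0 k0 [(z1,[y1,z1])]]]⟩

/-- classes `0 0 0 0 1 1`, types `B0 B1 B0 B1 N0 N1` -/
noncomputable def cT6_83 : CertT :=
  ⟨[k8,k9,k8,k9,k28,k29],[(false,k0,[k0,k1,k2,k3,k4,k5]),(true,k4,[k4,k3,k2,k1,k0,k5])],[[[([z1,z0,z1,z0,z1,z0],z2),
    ([z0,z3,z0,z0,z0,z0],z2),([z0,z0,z0,z3,z0,z0],z2)],[([z1,z0,z1,z0,z1,z0],z2),([z0,z3,z0,z0,z0,z0],z2)],[([z3,z0,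
    z0,z0,z3,z0],z4),([z0,z3,z0,z0,z0,z0],z2),([z0,z0,z3,z0,z0,z0],z2),([z0,z0,z0,z3,z0,z0],z2)],[([z3,z0,z0,z0,z3,
    z6],z8),([z0,z3,z0,z0,z0,z0],z2),([z0,z0,z3,z0,z0,y6],y2)],[([z1,z0,z0,z0,z1,z1],z2),([z0,z2,z0,z0,z0,z1],z2),
    ([z0,z0,z1,z0,z0,y1],z0)],[([z1,z0,z0,y2,z1,z0],z0),([z0,z1,z0,z1,z0,z1],z2)],[([z1,z0,z0,z0,z1,z1],z2),([z0,z1,
    z0,z0,z0,y1],z0),([z0,z0,z1,z0,z0,y1],z0)],[([z1,z0,z0,z0,z1,z1],z2),([z0,z3,z0,z0,z0,z0],z2),([z0,z0,z1,z0,z0,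
    y1],z0)],[([z1,z0,z0,z0,z1,z1],z2),([z0,z1,z0,z1,z0,z1],z2)],[([z1,z0,z1,z0,z1,z0],z2)],[([z1,z0,z0,z0,z1,z1],z2),
    ([z0,z1,z0,z0,z0,y1],z0),([z0,z0,z1,z0,z0,z2],z2)],[([z1,z0,z0,z0,z1,z1],z2),([z0,z1,z0,z0,z0,y1],z0)]],[[([z1,z0,
    z0,z0,z1,z1],z2)],[]]],
    [.leafM k2 [k0,k1,k2,k3,k4,k5] [(z1,[z0,z1]),(z1,[z0,z0,z1]),(z1,[y3,y1,y1,z3])] [],
    .lp [k4,k8,k8,k8,k12,k6] [k4,k4,k2,k2,k2,k2,k2,k2,k0,k0,k3,k3] k0 [] k24 k5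
    [[(k8,k8)],[(k2,k6),(k5,k6),(k6,k6),(k9,k8)],[(k2,k8),(k5,k8),(k6,k8),(k9,k10)],[(k0,k6),(k3,k8),(k4,k8),(k7,k8)],
    [(k0,k6),(k3,k8),(k4,k8),(k7,k8)],[(k2,k8),(k5,k8),(k6,k8),(k9,k10)],[(k2,k8),(k5,k8),(k6,k8),(k9,k10)],[(k0,k6),
    (k3,k8),(k4,k8),(k7,k8)],[(k0,k8),(k3,k10),(k4,k10),(k7,k10)],[(k1,k8)],[(k10,k6)],[(k11,k6)]]
    [] k0
    [[k0,k0,k0,k0,k0,k3]]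
    [.ref k0 k0 [(z1,[z0,z1]),(z1,[z0,z0,z1]),(z1,[y1,y3,y1,z3])]],
    .leafM k2 [k0,k1,k2,k3,k4,k5] [(z1,[z0,z1]),(z1,[z0,z0,z0,z1]),(z1,[y1,y1,y1,y1,z3])] [],
    .lp [k4,k8,k8,k8,k12,k6] [k4,k4,k2,k2,k2,k2,k2,k2,k0,k0,k3,k3] k0 [] k24 k5
    [[(k8,k8)],[(k2,k6),(k5,k6),(k6,k6),(k9,k8)],[(k2,k8),(k5,k8),(k6,k8),(k9,k10)],[(k0,k6),(k3,k8),(k4,k8),(k7,k8)],
    [(k0,k6),(k3,k8),(k4,k8),(k7,k8)],[(k2,k8),(k5,k8),(k6,k8),(k9,k10)],[(k2,k8),(k5,k8),(k6,k8),(k9,k10)],[(k0,k6),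
    (k3,k8),(k4,k8),(k7,k8)],[(k0,k8),(k3,k10),(k4,k10),(k7,k10)],[(k1,k8)],[(k10,k6)],[(k11,k6)]]
    [] k0
    [[k0,k0,k0,k0,k0,k3]]
    [.ref k2 k0 [(z1,[y2,z1]),(z1,[z0,z0,z1]),(z1,[z2,z0,z0,z1]),(z1,[y1,y1,y1,y1,z3])]],
    .lp [k12,k18,k16,k16,k16,k16] [k3,k3,k0,k0,k1,k1,k1,k1,k1,k1,k1,k1] k0 [[k0,k0,k0,k0,k0,k0,k0,k2],[k0,k0,k0,k4],[k4],
    [],[],[],[k0,k2]] k48 k5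
    [[(k8,k14)],[(k6,k12),(k9,k14),(k2,k15),(k5,k18)],[(k2,k14),(k5,k17),(k6,k17),(k9,k19)],[(k3,k14),(k0,k15),(k4,
    k17),(k7,k17)],[(k4,k16),(k7,k16),(k3,k17),(k0,k18)],[(k5,k16),(k6,k16),(k9,k16),(k2,k17)],[(k5,k16),(k6,k16),(k9,
    k16),(k2,k17)],[(k0,k12),(k4,k16),(k7,k16),(k3,k17)],[(k0,k14),(k4,k16),(k7,k16),(k3,k19)],[(k1,k14)],[(k10,k16)],
    [(k11,k16)]]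
    [] k0
    [[k1,k0,k0,k1,k1,k0],[k0,k3,k0,k0,k0,k0]]
    [.ref k2 k0 [(z1,[z2,z3,z1,z2,y2]),(z1,[z1,z0,z2,z1,y1]),(z1,[y2,z0,y1,z1,z2]),(z1,[z1,y3,y1,y2,z2])],
    .ref k2 k0 [(z1,[z2,z3,y3]),(z1,[z1]),(z1,[y2,z0,z3,z3]),(z1,[z1,y3,y3,y3,z3])]],
    .lp [k20,k38,k40,k40,k60,k40] [k20,k20,k11,k11,k10,k10,k10,k10,k0,k0,k10,k10] k0 [[k0,k0,k0,k0,k0,k0,k8],[k0,k0,k2],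
    [k0,k0,k0,k0,k4],[k2],[],[k0,k0,k0,k4],[],[k0,k8]] k120 k5
    [[(k8,k40)],[(k5,k30),(k6,k30),(k2,k31),(k9,k32)],[(k5,k37),(k2,k38),(k6,k47),(k9,k49)],[(k0,k31),(k7,k35),(k3,
    k38),(k4,k39)],[(k0,k30),(k3,k37),(k7,k40),(k4,k44)],[(k2,k39),(k6,k40),(k5,k44),(k9,k50)],[(k2,k35),(k5,k40),(k6,
    k40),(k9,k50)],[(k0,k30),(k4,k40),(k7,k40),(k3,k47)],[(k0,k32),(k3,k49),(k4,k50),(k7,k50)],[(k1,k40)],[(k10,k40)],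
    [(k11,k40)]]
    [] k0
    [[k0,k3,k0,k0,k0,k0],[k0,k2,k1,k0,k0,k0],[k0,k1,k1,k1,k0,k0]]
    [.ref k3 k0 [(z1,[y2,z3,z6]),(z1,[z1]),(z1,[z2,y3,y9,z3])],.ref k4 k0 [(z2,[y1,z1,z1,z1]),(z2,[z1,z1,z3,y1]),(z2,
    [z1,y1,y3,z1])],.ref k4 k0 [(z1,[y1,z0,z0,z1]),(z1,[z1,z1,z2,y1]),(z1,[z1,z0,y1])]],
    .lp [k12,k18,k16,k16,k16,k16] [k3,k3,k0,k0,k1,k1,k1,k1,k1,k1,k1,k1] k0 [[k0,k0,k0,k0,k0,k0,k0,k2],[k0,k0,k0,k4],[k4],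
    [],[],[],[k0,k2]] k48 k5
    [[(k8,k14)],[(k6,k12),(k9,k14),(k2,k15),(k5,k18)],[(k2,k14),(k5,k17),(k6,k17),(k9,k19)],[(k3,k14),(k0,k15),(k4,
    k17),(k7,k17)],[(k4,k16),(k7,k16),(k3,k17),(k0,k18)],[(k5,k16),(k6,k16),(k9,k16),(k2,k17)],[(k5,k16),(k6,k16),(k9,
    k16),(k2,k17)],[(k0,k12),(k4,k16),(k7,k16),(k3,k17)],[(k0,k14),(k4,k16),(k7,k16),(k3,k19)],[(k1,k14)],[(k10,k16)],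
    [(k11,k16)]]
    [] k0
    [[k1,k0,k0,k1,k1,k0],[k0,k3,k0,k0,k0,k0]]
    [.ref k2 k0 [(z1,[z1,z3,z1,z1,y1]),(z1,[y1,z0,z2,y1,z1]),(z1,[y1,z0,y1,z2,z1]),(z1,[z2,y3,y1,y1,z1])],
    .ref k2 k0 [(z1,[y1,z3,z3]),(z1,[z1]),(z1,[z1,z0,y3,z3]),(z1,[y2,y3,z3,y3,z3])]],
    .lp [k4,k8,k8,k8,k12,k6] [k4,k4,k2,k2,k2,k2,k2,k2,k0,k0,k3,k3] k0 [] k24 k5
    [[(k8,k8)],[(k2,k6),(k5,k6),(k6,k6),(k9,k8)],[(k2,k8),(k5,k8),(k6,k8),(k9,k10)],[(k0,k6),(k3,k8),(k4,k8),(k7,k8)],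
    [(k0,k6),(k3,k8),(k4,k8),(k7,k8)],[(k2,k8),(k5,k8),(k6,k8),(k9,k10)],[(k2,k8),(k5,k8),(k6,k8),(k9,k10)],[(k0,k6),
    (k3,k8),(k4,k8),(k7,k8)],[(k0,k8),(k3,k10),(k4,k10),(k7,k10)],[(k1,k8)],[(k10,k6)],[(k11,k6)]]
    [] k0
    [[k0,k0,k0,k0,k0,k3]]
    [.ref k2 k0 [(z1,[y1,z3]),(z1,[z0,z0,z1]),(z1,[z1,z0,z0,z3]),(z1,[y1,y3,y1,y3,z3])]],
    .lp [k12,k18,k16,k16,k16,k16] [k3,k3,k0,k0,k1,k1,k1,k1,k1,k1,k1,k1] k0 [[k0,k0,k0,k0,k0,k0,k0,k2],[k0,k0,k0,k4],[k4],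
    [],[],[],[k0,k2]] k48 k5
    [[(k8,k14)],[(k6,k12),(k9,k14),(k2,k15),(k5,k18)],[(k2,k14),(k5,k17),(k6,k17),(k9,k19)],[(k3,k14),(k0,k15),(k4,
    k17),(k7,k17)],[(k4,k16),(k7,k16),(k3,k17),(k0,k18)],[(k5,k16),(k6,k16),(k9,k16),(k2,k17)],[(k5,k16),(k6,k16),(k9,
    k16),(k2,k17)],[(k0,k12),(k4,k16),(k7,k16),(k3,k17)],[(k0,k14),(k4,k16),(k7,k16),(k3,k19)],[(k1,k14)],[(k10,k16)],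
    [(k11,k16)]]
    [] k0
    [[k1,k0,k0,k1,k1,k0],[k0,k3,k0,k0,k0,k0]]
    [.ref k6 k1 [(z1,[z0,z1]),(z1,[z1,y1]),(z1,[z0,y1,y1,z1])],.ref k7 k0 [(z1,[z0,z1]),(z1,[z1]),(z1,[z0,y1,y1,z1])]],
    .lp [k20,k38,k40,k40,k60,k40] [k20,k20,k11,k11,k10,k10,k10,k10,k0,k0,k10,k10] k0 [[k0,k0,k0,k0,k0,k0,k8],[k0,k0,k2],
    [k0,k0,k0,k0,k4],[k2],[],[k0,k0,k0,k4],[],[k0,k8]] k120 k5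
    [[(k8,k40)],[(k5,k30),(k6,k30),(k2,k31),(k9,k32)],[(k5,k37),(k2,k38),(k6,k47),(k9,k49)],[(k0,k31),(k7,k35),(k3,
    k38),(k4,k39)],[(k0,k30),(k3,k37),(k7,k40),(k4,k44)],[(k2,k39),(k6,k40),(k5,k44),(k9,k50)],[(k2,k35),(k5,k40),(k6,
    k40),(k9,k50)],[(k0,k30),(k4,k40),(k7,k40),(k3,k47)],[(k0,k32),(k3,k49),(k4,k50),(k7,k50)],[(k1,k40)],[(k10,k40)],
    [(k11,k40)]]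
    [] k0
    [[k0,k3,k0,k0,k0,k0],[k0,k2,k1,k0,k0,k0],[k0,k1,k1,k1,k0,k0]]
    [.ref k1 k0 [(z1,[z0,z1]),(z1,[z1])],.ref k5 k1 [(z1,[y1,z1]),(z1,[z0,y1,z1])],.ref k8 k0 [(z1,[y1,z0,z1]),(z1,
    [z0,y1,z1])]],
    .lp [k4,k8,k8,k8,k12,k6] [k4,k4,k2,k2,k2,k2,k2,k2,k0,k0,k3,k3] k0 [] k24 k5
    [[(k8,k8)],[(k2,k6),(k5,k6),(k6,k6),(k9,k8)],[(k2,k8),(k5,k8),(k6,k8),(k9,k10)],[(k0,k6),(k3,k8),(k4,k8),(k7,k8)],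
    [(k0,k6),(k3,k8),(k4,k8),(k7,k8)],[(k2,k8),(k5,k8),(k6,k8),(k9,k10)],[(k2,k8),(k5,k8),(k6,k8),(k9,k10)],[(k0,k6),
    (k3,k8),(k4,k8),(k7,k8)],[(k0,k8),(k3,k10),(k4,k10),(k7,k10)],[(k1,k8)],[(k10,k6)],[(k11,k6)]]
    [] k0
    [[k0,k0,k0,k0,k0,k3]]
    [.ref k2 k0 [(z1,[y1,z3]),(z1,[z1,z0,z3]),(z1,[y2,z0,z0,z3]),(z1,[z1,y3,y3,y3,z3])]],
    .lp [k8,k8,k8,k8,k6,k8] [k0,k0,k0,k0,k0,k0,k0,k0,k1,k1,k0,k0] k0 [[k0,k0,k0,k0,k0,k0,k0,k2],[],[],[],[],[],[k0,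
    k2]] k24 k5
    [[(k8,k7)],[(k6,k6),(k9,k7),(k2,k8),(k5,k8)],[(k2,k8),(k5,k8),(k6,k8),(k9,k9)],[(k0,k8),(k3,k8),(k4,k8),(k7,k8)],
    [(k0,k8),(k3,k8),(k4,k8),(k7,k8)],[(k9,k7),(k2,k8),(k5,k8),(k6,k8)],[(k9,k7),(k2,k8),(k5,k8),(k6,k8)],[(k0,k6),
    (k3,k8),(k4,k8),(k7,k8)],[(k0,k7),(k4,k7),(k7,k7),(k3,k9)],[(k1,k7)],[(k10,k8)],[(k11,k8)]]
    [] k0
    [[k1,k0,k1,k0,k1,k0],[k1,k0,k0,k1,k1,k0]]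
    [.ref k6 k0 [(z1,[z0,z1]),(z1,[z0,z0,z1]),(z1,[z1,y1])],.ref k10 k0 [(z1,[z0,z1]),(z1,[z0,z0,z1]),(z1,[y1,z0,y1,
    z1])]],
    .lp [k8,k8,k8,k8,k6,k8] [k0,k0,k0,k0,k0,k0,k0,k0,k1,k1,k0,k0] k0 [[k0,k0,k0,k0,k0,k0,k0,k2],[],[],[],[],[],[k0,
    k2]] k24 k5
    [[(k8,k7)],[(k6,k6),(k9,k7),(k2,k8),(k5,k8)],[(k2,k8),(k5,k8),(k6,k8),(k9,k9)],[(k0,k8),(k3,k8),(k4,k8),(k7,k8)],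
    [(k0,k8),(k3,k8),(k4,k8),(k7,k8)],[(k9,k7),(k2,k8),(k5,k8),(k6,k8)],[(k9,k7),(k2,k8),(k5,k8),(k6,k8)],[(k0,k6),
    (k3,k8),(k4,k8),(k7,k8)],[(k0,k7),(k4,k7),(k7,k7),(k3,k9)],[(k1,k7)],[(k10,k8)],[(k11,k8)]]
    [] k0
    [[k1,k0,k1,k0,k1,k0],[k1,k0,k0,k1,k1,k0]]
    [.ref k8 k0 [(z1,[z0,z1]),(z1,[y1,z0,z1])],.ref k11 k1 [(z1,[z0,z1]),(z1,[z1,y1])]],
    .lp [k12,k18,k12,k18,k18,k16] [k3,k3,k0,k0,k3,k3,k0,k0,k0,k0,k1,k1] k0 [[],[],[k0,k0,k0,k0,k6],[],[],[k0,k0,k0,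
    k6]] k48 k5
    [[(k8,k15)],[(k5,k12),(k2,k15),(k6,k15),(k9,k15)],[(k5,k15),(k2,k18),(k6,k18),(k9,k18)],[(k7,k12),(k0,k15),(k4,
    k15),(k3,k18)],[(k0,k12),(k3,k15),(k7,k15),(k4,k18)],[(k2,k15),(k6,k15),(k9,k15),(k5,k18)],[(k2,k12),(k5,k15),(k6,
    k18),(k9,k18)],[(k0,k15),(k4,k15),(k3,k18),(k7,k18)],[(k0,k15),(k4,k15),(k3,k18),(k7,k18)],[(k1,k15)],[(k10,k16)],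
    [(k11,k16)]]
    [] k0
    [[k1,k0,k1,k0,k1,k0],[k0,k1,k1,k1,k0,k0]]
    [.ref k9 k0 [(z1,[z1])],.ref k12 k0 [(z1,[y1,z1])]]]⟩

/-- classes `0 0 0 0 1 1`, types `B0 B1 B0 B1 N0 N2` -/
noncomputable def cT6_84 : CertT :=
  ⟨[k8,k9,k8,k9,k28,k30],[(false,k0,[k0,k1,k2,k3,k4,k5])],[[[([z1,z0,z0,z0,z1,z1],z2)],[]]],
    [.leafM k6 [k1,k2,k3,k4,k5,k0] [(z1,[z1])] [],
    .lp [k8,k8,k8,k8,k8,k6] [k0,k0,k0,k0,k0,k0,k0,k0,k0,k0,k1,k1] k0 [[k0,k0,k2],[k0,k0,k0,k0,k0,k0,k0,k2],[],[k0,k2],[k0,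
    k0,k0,k0,k0,k0,k2],[],[k2],[k0,k0,k0,k0,k0,k2]] k24 k5
    [[(k11,k7)],[(k5,k6),(k2,k8),(k6,k8),(k9,k10)],[(k6,k6),(k5,k8),(k9,k8),(k2,k10)],[(k0,k8),(k4,k8),(k7,k8),(k3,
    k10)],[(k0,k6),(k3,k8),(k4,k8),(k7,k8)],[(k9,k6),(k2,k8),(k5,k8),(k6,k8)],[(k2,k8),(k5,k8),(k9,k8),(k6,k10)],[(k3,
    k6),(k0,k8),(k4,k8),(k7,k10)],[(k4,k6),(k3,k8),(k7,k8),(k0,k10)],[(k10,k7)],[(k1,k7)],[(k8,k7)]]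
    [] k0
    [[k0,k1,k1,k1,k0,k0]]
    [.ref k0 k0 [(z1,[y1,z1])]]]⟩

/-- classes `0 0 0 0 1 1`, types `B0 B1 B0 B1 S0 S0` -/
noncomputable def cT6_85 : CertT :=
  ⟨[k8,k9,k8,k9,k16,k16],[(false,k0,[k0,k1,k2,k3,k4,k5]),(true,k4,[k4,k3,k2,k1,k0,k5])],[[[([z1,z0,z0,z0,z1,z1],z2)],
    [([z1,z0,z0,z0,z1,z1],z2),([z0,z3,z0,z0,z0,z0],z2)],[([z1,z0,z0,z0,z1,z1],z2),([z0,z3,z0,z0,z0,z0],z2),([z0,z0,z3,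
    z0,z0,z0],z2)],[([z3,z0,z0,y3,z3,z3],z4),([z0,z3,z0,z0,z0,z0],z2)],[([z1,z0,z1,z0,z1,z0],z2),([z0,z3,z0,z0,z0,z0],
    z2),([z0,z0,z0,z3,z0,z0],z2)],[([z3,z0,z3,z0,z3,z3],z8),([z0,z3,z0,z0,z0,z0],z2)],[([z3,z0,z3,z3,z3,z3],z10)],
    [([z1,z0,z0,z0,z1,z1],z2),([z0,z1,z0,y1,z0,z0],z0)],[([z3,z0,z0,z3,z3,z3],z8),([z0,z3,z0,z0,z0,z0],z2)],[([z2,z0,
    z1,z2,z2,z2],z6)],[]]],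
    [.leafM k4 [k1,k2,k3,k4,k5,k0] [(z1,[z1])] [],
    .leafM k4 [k1,k2,k3,k4,k5,k0] [(z1,[z1])] [],
    .leafM k4 [k1,k2,k3,k4,k5,k0] [(z1,[z1])] [],
    .lp [k50,k40,k38,k40,k30,k40] [k0,k0,k5,k5,k6,k6,k5,k5,k10,k10,k5,k5] k0 [[k0,k0,k0,k0,k0,k0,k2],[],[k0,k0,k0,k0,k0,
    k6],[k0,k0,k0,k0,k0,k2],[k0,k0,k2,k6],[k0,k0,k0,k0,k0,k0,k0,k2],[k0,k0,k0,k0,k2],[k0,k2]] k120 k5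
    [[(k8,k40),(k10,k45),(k11,k45),(k1,k50)],[(k9,k38),(k5,k44),(k2,k45),(k6,k45)],[(k9,k35),(k5,k39),(k2,k40),(k6,
    k42)],[(k4,k33),(k3,k40),(k7,k42),(k0,k45)],[(k4,k36),(k3,k39),(k0,k44),(k7,k45)],[(k2,k33),(k5,k36),(k9,k36),(k6,
    k39)],[(k9,k35),(k6,k38),(k2,k42),(k5,k45)],[(k7,k38),(k4,k39),(k3,k42),(k0,k45)],[(k3,k35),(k7,k35),(k4,k36),(k0,
    k38)],[(k8,k30),(k10,k35),(k11,k35),(k1,k40)],[(k8,k35),(k10,k40),(k11,k40),(k1,k45)],[(k8,k35),(k10,k40),(k11,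
    k40),(k1,k45)]]
    [] k0
    [[k1,k0,k0,k0,k1,k1],[k0,k2,k1,k0,k0,k0],[k0,k1,k2,k0,k0,k0],[k0,k0,k3,k0,k0,k0],[k0,k0,k0,k3,k0,k0]]
    [.ref k2 k0 [(z1,[z1]),(z1,[z0,z0,z1]),(z1,[y6,z1,y1,z3])],.ref k2 k0 [(z6,[y3,z1,z1,z3]),(z1,[z0,z0,z1]),(z1,[z3,
    z0,y2])],.ref k2 k0 [(z12,[y3,z2,y1,z6]),(z1,[z0,z0,z1]),(z2,[z3,z0,y1])],.ref k2 k0 [(z6,[y1,z1,y1,z3]),(z1,[z0,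
    z0,z1]),(z1,[z1])],.ref k2 k0 [(z3,[z1,z1]),(z1,[z0,z0,z1]),(z1,[y2,y1,y1,z3])]],
    .leafM k2 [k0,k1,k2,k3,k4,k5] [(z1,[z0,z1]),(z1,[z0,z0,z1]),(z1,[y3,y1,y1,z3])] [],
    .lp [k48,k42,k36,k42,k30,k40] [k0,k0,k3,k3,k6,k6,k3,k3,k9,k9,k4,k4] k0 [[k0,k0,k6],[],[k0,k0,k0,k0,k0,k6],[k0,k6],[k0,
    k0,k0,k6]] k120 k5
    [[(k8,k39),(k10,k44),(k11,k44),(k1,k48)],[(k5,k36),(k9,k39),(k2,k45),(k6,k45)],[(k9,k36),(k5,k39),(k6,k42),(k2,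
    k48)],[(k4,k33),(k7,k42),(k0,k45),(k3,k48)],[(k0,k36),(k4,k36),(k3,k39),(k7,k45)],[(k2,k33),(k9,k33),(k5,k36),(k6,
    k39)],[(k9,k36),(k2,k42),(k6,k42),(k5,k45)],[(k4,k39),(k3,k42),(k7,k42),(k0,k45)],[(k4,k33),(k3,k36),(k7,k36),(k0,
    k39)],[(k8,k30),(k10,k35),(k11,k35),(k1,k39)],[(k8,k35),(k10,k40),(k11,k40),(k1,k44)],[(k8,k35),(k10,k40),(k11,
    k40),(k1,k44)]]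
    [] k0
    [[k1,k0,k1,k0,k1,k0],[k1,k0,k0,k0,k1,k1],[k0,k1,k2,k0,k0,k0],[k0,k0,k3,k0,k0,k0]]
    [.ref k4 k0 [(z1,[z1]),(z1,[z0,z0,z1]),(z1,[z0,y1,y1,z3])],.ref k2 k0 [(z1,[z1]),(z1,[z0,z0,z1]),(z1,[y3,z1])],
    .ref k2 k0 [(z6,[y3,z2,z1]),(z1,[z0,z0,z1]),(z2,[z3,z0,y1])],.ref k2 k0 [(z3,[y1,z1]),(z1,[z0,z0,z1]),(z1,[z1])]],
    .lp [k50,k40,k40,k38,k30,k40] [k0,k0,k5,k5,k5,k5,k6,k6,k10,k10,k5,k5] k0 [[k0,k0,k0,k0,k0,k0,k8],[],[k0,k0,k0,k0,k4],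
    [],[k0,k0,k0,k0,k0,k0,k0,k2],[k0,k0,k0,k4],[k0,k0,k0,k0,k0,k2],[k0,k8]] k120 k5
    [[(k8,k40),(k10,k45),(k11,k45),(k1,k50)],[(k9,k32),(k6,k44),(k2,k45),(k5,k45)],[(k9,k35),(k2,k40),(k5,k40),(k6,
    k47)],[(k7,k35),(k3,k40),(k4,k40),(k0,k45)],[(k7,k39),(k3,k40),(k4,k44),(k0,k45)],[(k9,k35),(k6,k37),(k2,k40),(k5,
    k44)],[(k2,k35),(k9,k36),(k6,k38),(k5,k39)],[(k4,k37),(k7,k38),(k0,k44),(k3,k47)],[(k0,k32),(k3,k35),(k4,k35),(k7,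
    k36)],[(k8,k30),(k10,k35),(k11,k35),(k1,k40)],[(k8,k35),(k10,k40),(k11,k40),(k1,k45)],[(k8,k35),(k10,k40),(k11,
    k40),(k1,k45)]]
    [] k0
    [[k1,k0,k0,k0,k1,k1],[k0,k1,k1,k1,k0,k0],[k0,k0,k1,k2,k0,k0],[k0,k0,k0,k3,k0,k0]]
    [.ref k1 k0 [(z1,[z1]),(z1,[z0,y1,z3])],.ref k1 k0 [(z1,[y1,z0,z1]),(z1,[z0,y1,z3])],.ref k3 k0 [(z1,[y3,z1]),(z1,
    [z0,y1,z3])],.ref k5 k0 [(z1,[y1,z1]),(z1,[z0,y1,z3])]],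
    .leafM k4 [k1,k2,k3,k4,k5,k0] [(z1,[z1])] [],
    .lp [k50,k42,k42,k34,k30,k40] [k0,k0,k4,k4,k4,k4,k8,k8,k10,k10,k5,k5] k0 [[k0,k0,k2],[k0,k0,k0,k0,k0,k0,k2],[k0,k0,k0,
    k0,k0,k6],[k0,k2],[k0,k0,k0,k6,k0,k0,k0,k4],[],[k0,k0,k0,k0,k0,k4],[k2]] k120 k5
    [[(k8,k40),(k10,k45),(k11,k45),(k1,k50)],[(k9,k40),(k5,k44),(k6,k44),(k2,k46)],[(k9,k34),(k6,k38),(k5,k42),(k2,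
    k44)],[(k4,k36),(k7,k38),(k3,k44),(k0,k46)],[(k3,k42),(k4,k42),(k0,k44),(k7,k44)],[(k6,k34),(k2,k36),(k9,k36),(k5,
    k42)],[(k6,k34),(k9,k36),(k2,k38),(k5,k44)],[(k4,k34),(k7,k34),(k3,k38),(k0,k44)],[(k3,k34),(k4,k36),(k7,k36),(k0,
    k40)],[(k8,k30),(k10,k35),(k11,k35),(k1,k40)],[(k8,k35),(k10,k40),(k11,k40),(k1,k45)],[(k8,k35),(k10,k40),(k11,
    k40),(k1,k45)]]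
    [] k0
    [[k0,k1,k1,k1,k0,k0],[k0,k1,k0,k2,k0,k0],[k0,k0,k1,k2,k0,k0],[k0,k0,k0,k3,k0,k0]]
    [.ref k2 k0 [(z1,[y1,z0,z0,z1]),(z1,[z0,z0,z1]),(z1,[z0,y1,y1,z3])],.ref k2 k0 [(z6,[y3,z2,z1]),(z1,[z0,z0,z1]),
    (z1,[z0,y1,y1,z3])],.ref k2 k0 [(z6,[y3,z1,y1,z3]),(z1,[z0,z0,z1]),(z1,[z0,y1,y1,z3])],.ref k2 k0 [(z3,[y1,z1]),
    (z1,[z0,z0,z1]),(z1,[z0,y1,y1,z3])]],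
    .lp [k50,k38,k44,k36,k30,k40] [k0,k0,k6,k6,k3,k3,k7,k7,k10,k10,k5,k5] k0 [[k0,k0,k0,k0,k0,k0,k10,k2],[],[k0,k0,k0,k0,
    k2],[],[k0,k0,k0,k0,k0,k0,k4,k6],[k0,k0,k0,k2],[k0,k2,k0,k0,k0,k6],[k0,k10,k0,k0,k0,k4]] k120 k5
    [[(k8,k40),(k10,k45),(k11,k45),(k1,k50)],[(k9,k30),(k6,k41),(k2,k44),(k5,k47)],[(k9,k36),(k2,k38),(k5,k41),(k6,
    k47)],[(k7,k35),(k3,k38),(k4,k41),(k0,k44)],[(k7,k40),(k3,k41),(k4,k46),(k0,k47)],[(k9,k33),(k6,k34),(k2,k41),(k5,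
    k46)],[(k2,k35),(k9,k39),(k5,k40),(k6,k40)],[(k4,k34),(k7,k40),(k0,k41),(k3,k47)],[(k0,k30),(k4,k33),(k3,k36),(k7,
    k39)],[(k8,k30),(k10,k35),(k11,k35),(k1,k40)],[(k8,k35),(k10,k40),(k11,k40),(k1,k45)],[(k8,k35),(k10,k40),(k11,
    k40),(k1,k45)]]
    [] k0
    [[k1,k0,k0,k0,k1,k1],[k0,k3,k0,k0,k0,k0],[k0,k1,k1,k1,k0,k0],[k0,k0,k1,k2,k0,k0]]
    [.ref k7 k0 [(z1,[z1]),(z1,[z1,y1,z1])],.ref k8 k0 [(z1,[z1,z3,y3]),(z1,[z1])],.ref k7 k0 [(z1,[y1,z0,z1]),(z1,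
    [y1,y1,z2])],.ref k7 k0 [(z2,[y1,z1]),(z2,[y1,y1,z2])]],
    .lp [k50,k38,k44,k36,k30,k40] [k0,k0,k6,k6,k3,k3,k7,k7,k10,k10,k5,k5] k0 [[k0,k0,k0,k0,k0,k0,k10,k2],[],[k0,k0,k0,k0,
    k2],[],[k0,k0,k0,k0,k0,k0,k4,k6],[k0,k0,k0,k2],[k0,k2,k0,k0,k0,k6],[k0,k10,k0,k0,k0,k4]] k120 k5
    [[(k8,k40),(k10,k45),(k11,k45),(k1,k50)],[(k9,k30),(k6,k41),(k2,k44),(k5,k47)],[(k9,k36),(k2,k38),(k5,k41),(k6,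
    k47)],[(k7,k35),(k3,k38),(k4,k41),(k0,k44)],[(k7,k40),(k3,k41),(k4,k46),(k0,k47)],[(k9,k33),(k6,k34),(k2,k41),(k5,
    k46)],[(k2,k35),(k9,k39),(k5,k40),(k6,k40)],[(k4,k34),(k7,k40),(k0,k41),(k3,k47)],[(k0,k30),(k4,k33),(k3,k36),(k7,
    k39)],[(k8,k30),(k10,k35),(k11,k35),(k1,k40)],[(k8,k35),(k10,k40),(k11,k40),(k1,k45)],[(k8,k35),(k10,k40),(k11,
    k40),(k1,k45)]]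
    [] k0
    [[k1,k0,k0,k0,k1,k1],[k0,k3,k0,k0,k0,k0],[k0,k1,k1,k1,k0,k0],[k0,k0,k1,k2,k0,k0]]
    [.ref k0 k0 [(z1,[z1])],.ref k6 k0 [(z1,[y1,z3])],.ref k0 k0 [(z1,[y1,z1])],.ref k9 k1 [(z1,[y1,z2])]]]⟩

/-- classes `0 0 0 0 1 1`, types `B0 B1 B1 B0 B0 B1` -/
noncomputable def cT6_86 : CertT :=
  ⟨[k8,k9,k9,k8,k24,k25],[(false,k0,[k0,k1,k2,k3,k4,k5])],[[[([z1,z0,z1,z0,z1,z0],z2),([z0,z3,z0,z0,z0,z0],z2),([z0,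
    z0,z0,z3,z0,z0],z2)],[([z1,z0,z1,z0,z1,z0],z2),([z0,z3,z0,z0,z0,z0],z2)],[([z1,z0,z1,z0,z1,z0],z2),([z0,z1,z0,z0,
    z0,y1],z0)],[([z1,z0,z1,z0,z1,z0],z2)],[]]],
    [.leafM k2 [k0,k1,k2,k3,k4,k5] [(z1,[z0,z1]),(z1,[z0,z0,z1]),(z1,[y3,y1,y1,z3])] [],
    .lp [k24,k18,k12,k12,k12,k16] [k0,k0,k3,k3,k6,k6,k6,k6,k6,k6,k4,k4] k0 [] k48 k5
    [[(k8,k18),(k11,k20)],[(k4,k18),(k5,k18),(k7,k18),(k2,k21)],[(k4,k15),(k5,k15),(k7,k15),(k2,k18)],[(k6,k15),(k9,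
    k15),(k3,k18),(k0,k21)],[(k6,k12),(k9,k12),(k3,k15),(k0,k18)],[(k6,k12),(k9,k12),(k3,k15),(k0,k18)],[(k6,k12),(k9,
    k12),(k3,k15),(k0,k18)],[(k4,k12),(k5,k12),(k7,k12),(k2,k15)],[(k4,k12),(k5,k12),(k7,k12),(k2,k15)],[(k10,k14),
    (k1,k18)],[(k10,k16),(k1,k20)],[(k8,k14),(k11,k16)]]
    [] k0
    [[k0,k1,k0,k2,k0,k0],[k0,k0,k0,k3,k0,k0]]
    [.ref k0 k0 [(z1,[z0,z1]),(z1,[z0,z0,z1]),(z2,[z3,z0,y1])],.ref k0 k0 [(z1,[z0,z1]),(z1,[z0,z0,z1]),(z1,[z1])]],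
    .lp [k24,k18,k12,k12,k12,k16] [k0,k0,k3,k3,k6,k6,k6,k6,k6,k6,k4,k4] k0 [] k48 k5
    [[(k8,k18),(k11,k20)],[(k4,k18),(k5,k18),(k7,k18),(k2,k21)],[(k4,k15),(k5,k15),(k7,k15),(k2,k18)],[(k6,k15),(k9,
    k15),(k3,k18),(k0,k21)],[(k6,k12),(k9,k12),(k3,k15),(k0,k18)],[(k6,k12),(k9,k12),(k3,k15),(k0,k18)],[(k6,k12),(k9,
    k12),(k3,k15),(k0,k18)],[(k4,k12),(k5,k12),(k7,k12),(k2,k15)],[(k4,k12),(k5,k12),(k7,k12),(k2,k15)],[(k10,k14),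
    (k1,k18)],[(k10,k16),(k1,k20)],[(k8,k14),(k11,k16)]]
    [] k0
    [[k0,k1,k0,k2,k0,k0],[k0,k0,k0,k3,k0,k0]]
    [.ref k0 k0 [(z1,[z0,z1]),(z1,[y1,y2,z2,z2]),(z1,[z2,z1,y1,y1])],.ref k0 k0 [(z1,[z0,z1]),(z2,[y1,y3,z3,z3]),(z1,
    [z1])]],
    .lp [k24,k12,k12,k18,k12,k16] [k0,k0,k6,k6,k6,k6,k3,k3,k6,k6,k4,k4] k0 [] k48 k5
    [[(k8,k18),(k11,k20)],[(k2,k18),(k4,k18),(k5,k18),(k7,k21)],[(k2,k12),(k4,k12),(k5,k12),(k7,k15)],[(k3,k12),(k9,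
    k12),(k6,k15),(k0,k18)],[(k3,k12),(k9,k12),(k6,k15),(k0,k18)],[(k3,k12),(k9,k12),(k6,k15),(k0,k18)],[(k3,k15),(k9,
    k15),(k6,k18),(k0,k21)],[(k2,k15),(k4,k15),(k5,k15),(k7,k18)],[(k2,k12),(k4,k12),(k5,k12),(k7,k15)],[(k10,k14),
    (k1,k18)],[(k10,k16),(k1,k20)],[(k8,k14),(k11,k16)]]
    [] k0
    [[k0,k3,k0,k0,k0,k0],[k0,k2,k0,k1,k0,k0]]
    [.ref k1 k0 [(z1,[z0,z1]),(z1,[z1])],.ref k2 k0 [(z1,[z0,z1]),(z1,[z1,z1,y1])]],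
    .lp [k6,k8,k6,k8,k6,k8] [k1,k1,k0,k0,k1,k1,k0,k0,k1,k1,k0,k0] k0 [] k24 k5
    [[(k8,k6),(k11,k7)],[(k4,k6),(k5,k6),(k2,k7),(k7,k7)],[(k4,k7),(k5,k7),(k2,k8),(k7,k8)],[(k0,k7),(k9,k7),(k3,k8),
    (k6,k8)],[(k0,k6),(k9,k6),(k3,k7),(k6,k7)],[(k0,k6),(k9,k6),(k3,k7),(k6,k7)],[(k0,k7),(k9,k7),(k3,k8),(k6,k8)],
    [(k4,k7),(k5,k7),(k2,k8),(k7,k8)],[(k4,k6),(k5,k6),(k2,k7),(k7,k7)],[(k1,k6),(k10,k7)],[(k1,k7),(k10,k8)],[(k8,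
    k7),(k11,k8)]]
    [] k0
    [[k1,k0,k1,k0,k1,k0]]
    [.ref k3 k0 [(z1,[z1])]]]⟩

/-- classes `0 0 0 0 1 1`, types `B0 B1 B1 B0 C0 C0` -/
noncomputable def cT6_87 : CertT :=
  ⟨[k8,k9,k9,k8,k20,k20],[(false,k0,[k0,k1,k2,k3,k4,k5]),(true,k4,[k4,k3,k2,k1,k0,k5])],[[[([z1,z0,z1,z0,z1,z0],z2),
    ([z0,z3,z0,z0,z0,z0],z2),([z0,z0,z0,z3,z0,z0],z2)],[([z3,z0,z3,z3,z3,z0],z8),([z0,z3,z0,z0,z0,z0],z2)],[([z3,z0,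
    z3,y3,z3,z0],z4),([z0,z1,z0,z2,z0,z0],z2)],[([z3,z3,z3,z3,z3,z0],z10)],[]]],
    [.leafM k2 [k0,k1,k2,k3,k4,k5] [(z1,[z0,z1]),(z1,[z0,z0,z1]),(z1,[y3,y1,y1,z3])] [],
    .lp [k6,k8,k6,k8,k6,k8] [k1,k1,k0,k0,k1,k1,k0,k0,k1,k1,k0,k0] k0 [] k24 k5
    [[(k8,k6),(k10,k7)],[(k4,k6),(k5,k6),(k2,k7),(k7,k7)],[(k4,k7),(k5,k7),(k2,k8),(k7,k8)],[(k0,k7),(k9,k7),(k3,k8),
    (k6,k8)],[(k0,k6),(k9,k6),(k3,k7),(k6,k7)],[(k0,k6),(k9,k6),(k3,k7),(k6,k7)],[(k0,k7),(k9,k7),(k3,k8),(k6,k8)],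
    [(k4,k7),(k5,k7),(k2,k8),(k7,k8)],[(k4,k6),(k5,k6),(k2,k7),(k7,k7)],[(k1,k6),(k11,k7)],[(k8,k7),(k10,k8)],[(k1,
    k7),(k11,k8)]]
    [] k0
    [[k1,k0,k1,k0,k1,k0]]
    [.ref k0 k0 [(z1,[z1]),(z1,[z0,z0,z1]),(z1,[y3,z1])]],
    .lp [k12,k12,k12,k18,k24,k16] [k6,k6,k6,k6,k6,k6,k3,k3,k0,k0,k4,k4] k0 [] k48 k5
    [[(k10,k14),(k8,k18)],[(k2,k12),(k4,k12),(k5,k12),(k7,k15)],[(k2,k12),(k4,k12),(k5,k12),(k7,k15)],[(k0,k12),(k3,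
    k12),(k6,k15),(k9,k18)],[(k0,k12),(k3,k12),(k6,k15),(k9,k18)],[(k0,k12),(k3,k12),(k6,k15),(k9,k18)],[(k0,k15),(k3,
    k15),(k6,k18),(k9,k21)],[(k2,k15),(k4,k15),(k5,k15),(k7,k18)],[(k2,k18),(k4,k18),(k5,k18),(k7,k21)],[(k1,k18),
    (k11,k20)],[(k10,k16),(k8,k20)],[(k1,k14),(k11,k16)]]
    [] k0
    [[k0,k3,k0,k0,k0,k0],[k0,k2,k0,k1,k0,k0]]
    [.ref k0 k0 [(z6,[y1,z2,z3]),(z1,[z1]),(z2,[y1,z0,z3])],.ref k0 k0 [(z3,[y1,z1,z2]),(z1,[z2,z0,y1]),(z1,[y1,z0,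
    z2])]],
    .lp [k12,k12,k12,k18,k24,k16] [k6,k6,k6,k6,k6,k6,k3,k3,k0,k0,k4,k4] k0 [] k48 k5
    [[(k10,k14),(k8,k18)],[(k2,k12),(k4,k12),(k5,k12),(k7,k15)],[(k2,k12),(k4,k12),(k5,k12),(k7,k15)],[(k0,k12),(k3,
    k12),(k6,k15),(k9,k18)],[(k0,k12),(k3,k12),(k6,k15),(k9,k18)],[(k0,k12),(k3,k12),(k6,k15),(k9,k18)],[(k0,k15),(k3,
    k15),(k6,k18),(k9,k21)],[(k2,k15),(k4,k15),(k5,k15),(k7,k18)],[(k2,k18),(k4,k18),(k5,k18),(k7,k21)],[(k1,k18),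
    (k11,k20)],[(k10,k16),(k8,k20)],[(k1,k14),(k11,k16)]]
    [] k0
    [[k0,k3,k0,k0,k0,k0],[k0,k2,k0,k1,k0,k0]]
    [.ref k1 k0 [(z1,[y1,z1]),(z1,[z1])],.ref k2 k1 [(z1,[y3,z1]),(z1,[z1])]],
    .lp [k6,k8,k6,k8,k12,k6] [k3,k3,k2,k2,k3,k3,k2,k2,k0,k0,k3,k3] k0 [] k24 k5
    [[(k10,k6),(k8,k9)],[(k4,k6),(k5,k6),(k2,k7),(k7,k7)],[(k4,k7),(k5,k7),(k2,k8),(k7,k8)],[(k0,k7),(k3,k8),(k6,k8),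
    (k9,k10)],[(k0,k6),(k3,k7),(k6,k7),(k9,k9)],[(k0,k6),(k3,k7),(k6,k7),(k9,k9)],[(k0,k7),(k3,k8),(k6,k8),(k9,k10)],
    [(k4,k7),(k5,k7),(k2,k8),(k7,k8)],[(k4,k9),(k5,k9),(k2,k10),(k7,k10)],[(k1,k9),(k11,k9)],[(k10,k6),(k8,k9)],[(k1,
    k6),(k11,k6)]]
    [] k0
    [[k0,k0,k0,k0,k0,k3]]
    [.ref k3 k0 [(z1,[y1,z3])]]]⟩

/-- classes `0 0 0 0 1 1`, types `B0 B1 B1 B0 C0 C2` -/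
noncomputable def cT6_88 : CertT :=
  ⟨[k8,k9,k9,k8,k20,k22],[],[[[]]],
    [.lp [k2,k4,k4,k4,k2,k4] [k1,k1,k0,k0,k0,k0,k0,k0,k1,k1,k0,k0] k0 [] k12 k5
    [[(k10,k3),(k11,k3)],[(k2,k3),(k4,k3),(k5,k3),(k7,k3)],[(k2,k4),(k4,k4),(k5,k4),(k7,k4)],[(k0,k3),(k9,k3),(k3,k4),
    (k6,k4)],[(k0,k3),(k9,k3),(k3,k4),(k6,k4)],[(k0,k3),(k9,k3),(k3,k4),(k6,k4)],[(k0,k3),(k9,k3),(k3,k4),(k6,k4)],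
    [(k2,k4),(k4,k4),(k5,k4),(k7,k4)],[(k2,k3),(k4,k3),(k5,k3),(k7,k3)],[(k10,k3),(k11,k3)],[(k1,k3),(k8,k3)],[(k1,
    k3),(k8,k3)]]
    [] k0
    []
    []]⟩

/-- classes `0 0 0 0 1 1`, types `B0 B1 B1 B0 N0 N1` -/
noncomputable def cT6_89 : CertT :=
  ⟨[k8,k9,k9,k8,k28,k29],[(false,k0,[k0,k1,k2,k3,k4,k5]),(true,k4,[k4,k3,k2,k1,k0,k5])],[[[([z1,z0,z1,z0,z1,z0],z2),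
    ([z0,z3,z0,z0,z0,z0],z2),([z0,z0,z0,z3,z0,z0],z2)],[([z3,z0,z3,z3,z3,z0],z8),([z0,z3,z0,z0,z0,z0],z2)],[([z3,z0,
    z3,y3,z3,z0],z4),([z0,z1,z0,z2,z0,z0],z2)],[([z3,z3,z3,z3,z3,z0],z10)],[]]],
    [.leafM k2 [k0,k1,k2,k3,k4,k5] [(z1,[z0,z1]),(z1,[z0,z0,z1]),(z1,[y3,y1,y1,z3])] [],
    .lp [k6,k8,k6,k8,k6,k8] [k1,k1,k0,k0,k1,k1,k0,k0,k1,k1,k0,k0] k0 [] k24 k5
    [[(k8,k6)],[(k4,k6),(k5,k6),(k2,k7),(k7,k7)],[(k4,k7),(k5,k7),(k2,k8),(k7,k8)],[(k0,k7),(k9,k7),(k3,k8),(k6,k8)],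
    [(k0,k6),(k9,k6),(k3,k7),(k6,k7)],[(k0,k6),(k9,k6),(k3,k7),(k6,k7)],[(k0,k7),(k9,k7),(k3,k8),(k6,k8)],[(k4,k7),
    (k5,k7),(k2,k8),(k7,k8)],[(k4,k6),(k5,k6),(k2,k7),(k7,k7)],[(k1,k6)],[(k10,k8)],[(k11,k8)]]
    [] k0
    [[k1,k0,k1,k0,k1,k0]]
    [.ref k0 k0 [(z1,[z1]),(z1,[z0,z0,z1]),(z1,[y3,z1])]],
    .lp [k12,k12,k12,k18,k24,k16] [k6,k6,k6,k6,k6,k6,k3,k3,k0,k0,k4,k4] k0 [] k48 k5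
    [[(k8,k18)],[(k2,k12),(k4,k12),(k5,k12),(k7,k15)],[(k2,k12),(k4,k12),(k5,k12),(k7,k15)],[(k0,k12),(k3,k12),(k6,
    k15),(k9,k18)],[(k0,k12),(k3,k12),(k6,k15),(k9,k18)],[(k0,k12),(k3,k12),(k6,k15),(k9,k18)],[(k0,k15),(k3,k15),(k6,
    k18),(k9,k21)],[(k2,k15),(k4,k15),(k5,k15),(k7,k18)],[(k2,k18),(k4,k18),(k5,k18),(k7,k21)],[(k1,k18)],[(k10,k16)],
    [(k11,k16)]]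
    [] k0
    [[k0,k3,k0,k0,k0,k0],[k0,k2,k0,k1,k0,k0]]
    [.ref k0 k0 [(z6,[y1,z2,z3]),(z1,[z1]),(z2,[y1,z0,z3])],.ref k0 k0 [(z3,[y1,z1,z2]),(z1,[z2,z0,y1]),(z1,[y1,z0,
    z2])]],
    .lp [k12,k12,k12,k18,k24,k16] [k6,k6,k6,k6,k6,k6,k3,k3,k0,k0,k4,k4] k0 [] k48 k5
    [[(k8,k18)],[(k2,k12),(k4,k12),(k5,k12),(k7,k15)],[(k2,k12),(k4,k12),(k5,k12),(k7,k15)],[(k0,k12),(k3,k12),(k6,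
    k15),(k9,k18)],[(k0,k12),(k3,k12),(k6,k15),(k9,k18)],[(k0,k12),(k3,k12),(k6,k15),(k9,k18)],[(k0,k15),(k3,k15),(k6,
    k18),(k9,k21)],[(k2,k15),(k4,k15),(k5,k15),(k7,k18)],[(k2,k18),(k4,k18),(k5,k18),(k7,k21)],[(k1,k18)],[(k10,k16)],
    [(k11,k16)]]
    [] k0
    [[k0,k3,k0,k0,k0,k0],[k0,k2,k0,k1,k0,k0]]
    [.ref k1 k0 [(z1,[y1,z1]),(z1,[z1])],.ref k2 k1 [(z1,[y3,z1]),(z1,[z1])]],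
    .lp [k4,k8,k8,k8,k12,k6] [k4,k4,k2,k2,k2,k2,k2,k2,k0,k0,k3,k3] k0 [] k24 k5
    [[(k8,k8)],[(k2,k6),(k4,k6),(k5,k6),(k7,k6)],[(k2,k8),(k4,k8),(k5,k8),(k7,k8)],[(k0,k6),(k3,k8),(k6,k8),(k9,k10)],
    [(k0,k6),(k3,k8),(k6,k8),(k9,k10)],[(k0,k6),(k3,k8),(k6,k8),(k9,k10)],[(k0,k6),(k3,k8),(k6,k8),(k9,k10)],[(k2,k8),
    (k4,k8),(k5,k8),(k7,k8)],[(k2,k10),(k4,k10),(k5,k10),(k7,k10)],[(k1,k8)],[(k10,k6)],[(k11,k6)]]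
    [] k0
    [[k0,k0,k0,k0,k0,k3]]
    [.ref k3 k0 [(z1,[y1,z3])]]]⟩

/-- classes `0 0 0 0 1 1`, types `B0 B1 B1 B0 N0 N2` -/
noncomputable def cT6_90 : CertT :=
  ⟨[k8,k9,k9,k8,k28,k30],[],[[[]]],
    [.lp [k2,k4,k4,k4,k2,k4] [k1,k1,k0,k0,k0,k0,k0,k0,k1,k1,k0,k0] k0 [] k12 k5
    [[(k11,k3)],[(k2,k3),(k4,k3),(k5,k3),(k7,k3)],[(k2,k4),(k4,k4),(k5,k4),(k7,k4)],[(k0,k3),(k9,k3),(k3,k4),(k6,k4)],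
    [(k0,k3),(k9,k3),(k3,k4),(k6,k4)],[(k0,k3),(k9,k3),(k3,k4),(k6,k4)],[(k0,k3),(k9,k3),(k3,k4),(k6,k4)],[(k2,k4),
    (k4,k4),(k5,k4),(k7,k4)],[(k2,k3),(k4,k3),(k5,k3),(k7,k3)],[(k10,k3)],[(k1,k3)],[(k8,k3)]]
    [] k0
    []
    []]⟩

/-- classes `0 0 0 0 1 1`, types `B0 B1 B1 B0 S0 S0` -/
noncomputable def cT6_91 : CertT :=
  ⟨[k8,k9,k9,k8,k16,k16],[(false,k0,[k0,k1,k2,k3,k4,k5]),(true,k4,[k4,k3,k2,k1,k0,k5])],[[[([z1,z0,z1,z0,z1,z0],z2),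
    ([z0,z3,z0,z0,z0,z0],z2),([z0,z0,z0,z3,z0,z0],z2)],[([z3,z0,z3,z0,z3,z3],z8),([z0,z3,z0,z0,z0,z0],z2)],[([z3,z0,
    z3,z3,z3,z3],z10)],[([z1,z0,z1,y1,z1,z1],z2)],[]]],
    [.leafM k2 [k0,k1,k2,k3,k4,k5] [(z1,[z0,z1]),(z1,[z0,z0,z1]),(z1,[y3,y1,y1,z3])] [],
    .lp [k20,k16,k8,k16,k20,k14] [k0,k0,k2,k2,k6,k6,k2,k2,k0,k0,k3,k3] k0 [[],[],[],[],[],[],[],[],[k0,k0,k0,k0,k0,k0,k0,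
    k0,k0,k0,k6],[],[],[k0,k0,k0,k0,k0,k0,k0,k0,k0,k6]] k48 k5
    [[(k8,k14),(k10,k17),(k11,k17),(k1,k20)],[(k4,k14),(k5,k14),(k2,k18),(k7,k18)],[(k4,k12),(k5,k12),(k2,k16),(k7,
    k16)],[(k3,k16),(k6,k16),(k0,k18),(k9,k18)],[(k3,k12),(k6,k12),(k0,k14),(k9,k14)],[(k3,k12),(k6,k12),(k0,k14),(k9,
    k14)],[(k3,k16),(k6,k16),(k0,k18),(k9,k18)],[(k4,k12),(k5,k12),(k2,k16),(k7,k16)],[(k4,k14),(k5,k14),(k2,k18),(k7,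
    k18)],[(k1,k14),(k10,k17),(k11,k17),(k8,k20)],[(k11,k14),(k1,k17),(k8,k17),(k10,k20)],[(k10,k14),(k1,k17),(k8,
    k17),(k11,k20)]]
    [] k0
    [[k1,k0,k1,k0,k1,k0]]
    [.ref k0 k0 [(z1,[z1]),(z1,[z0,z0,z1]),(z1,[z0,y1,y1,z3])]],
    .lp [k18,k18,k12,k12,k18,k16] [k0,k0,k0,k0,k3,k3,k3,k3,k0,k0,k1,k1] k0 [] k48 k5
    [[(k10,k17),(k11,k17),(k1,k18),(k8,k18)],[(k4,k15),(k5,k15),(k7,k15),(k2,k18)],[(k4,k15),(k5,k15),(k7,k15),(k2,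
    k18)],[(k6,k15),(k0,k18),(k3,k18),(k9,k18)],[(k6,k12),(k0,k15),(k3,k15),(k9,k15)],[(k6,k12),(k0,k15),(k3,k15),(k9,
    k15)],[(k6,k12),(k0,k15),(k3,k15),(k9,k15)],[(k4,k12),(k5,k12),(k7,k12),(k2,k15)],[(k4,k15),(k5,k15),(k7,k15),(k2,
    k18)],[(k10,k17),(k11,k17),(k1,k18),(k8,k18)],[(k10,k16),(k11,k16),(k1,k17),(k8,k17)],[(k10,k16),(k11,k16),(k1,
    k17),(k8,k17)]]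
    [] k0
    [[k0,k1,k0,k2,k0,k0],[k0,k0,k0,k3,k0,k0]]
    [.ref k1 k0 [(z2,[y3,z1,z3]),(z1,[z0,y1,z3])],.ref k1 k0 [(z1,[y1,z1]),(z1,[z0,y1,z3])]],
    .lp [k18,k12,k12,k18,k18,k16] [k0,k0,k3,k3,k3,k3,k0,k0,k0,k0,k1,k1] k0 [] k48 k5
    [[(k10,k17),(k11,k17),(k1,k18),(k8,k18)],[(k2,k15),(k4,k15),(k5,k15),(k7,k18)],[(k2,k12),(k4,k12),(k5,k12),(k7,
    k15)],[(k3,k12),(k0,k15),(k6,k15),(k9,k15)],[(k3,k12),(k0,k15),(k6,k15),(k9,k15)],[(k3,k12),(k0,k15),(k6,k15),(k9,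
    k15)],[(k3,k15),(k0,k18),(k6,k18),(k9,k18)],[(k2,k15),(k4,k15),(k5,k15),(k7,k18)],[(k2,k15),(k4,k15),(k5,k15),(k7,
    k18)],[(k10,k17),(k11,k17),(k1,k18),(k8,k18)],[(k10,k16),(k11,k16),(k1,k17),(k8,k17)],[(k10,k16),(k11,k16),(k1,
    k17),(k8,k17)]]
    [] k0
    [[k0,k3,k0,k0,k0,k0],[k0,k2,k0,k1,k0,k0]]
    [.ref k1 k0 [(z2,[y1,z3,z3]),(z1,[z1])],.ref k1 k0 [(z1,[y1,z1,z2]),(z1,[z2,z1,y1])]],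
    .lp [k18,k12,k12,k18,k18,k16] [k0,k0,k3,k3,k3,k3,k0,k0,k0,k0,k1,k1] k0 [] k48 k5
    [[(k10,k17),(k11,k17),(k1,k18),(k8,k18)],[(k2,k15),(k4,k15),(k5,k15),(k7,k18)],[(k2,k12),(k4,k12),(k5,k12),(k7,
    k15)],[(k3,k12),(k0,k15),(k6,k15),(k9,k15)],[(k3,k12),(k0,k15),(k6,k15),(k9,k15)],[(k3,k12),(k0,k15),(k6,k15),(k9,
    k15)],[(k3,k15),(k0,k18),(k6,k18),(k9,k18)],[(k2,k15),(k4,k15),(k5,k15),(k7,k18)],[(k2,k15),(k4,k15),(k5,k15),(k7,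
    k18)],[(k10,k17),(k11,k17),(k1,k18),(k8,k18)],[(k10,k16),(k11,k16),(k1,k17),(k8,k17)],[(k10,k16),(k11,k16),(k1,
    k17),(k8,k17)]]
    [] k0
    [[k0,k3,k0,k0,k0,k0],[k0,k2,k0,k1,k0,k0]]
    [.ref k2 k0 [(z1,[y1,z3])],.ref k3 k1 [(z1,[y1,z1])]]]⟩

/-- classes `0 0 0 0 1 1`, types `C0 C0 C0 C0 B0 B1` -/
noncomputable def cT6_92 : CertT :=
  ⟨[k4,k4,k4,k4,k24,k25],[(false,k0,[k0,k1,k2,k3,k4,k5]),(true,k4,[k4,k3,k2,k1,k0,k5])],[[[([z1,z0,z0,z0,z1,z1],z2),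
    ([z0,z1,z0,z0,z0,y1],z0),([z0,z0,z1,z0,z0,z2],z2)],[([z3,z0,z0,z0,z3,z0],z4),([z0,z3,z0,z0,z0,z0],z2),([z0,z0,z3,
    z0,z0,z0],z2),([z0,z0,z0,z3,z0,z0],z2)],[([z3,z0,z0,z0,z3,z0],z4),([z0,z3,z0,z0,z0,z0],z2),([z0,z0,z3,z0,z0,z3],
    z4)],[([z1,z0,z0,z1,z1,z0],z2),([z0,z1,z0,y1,z0,z0],z0)],[([z1,z0,z0,z0,z1,z1],z2),([z0,z1,z0,z0,z0,y1],z0)],
    [([z3,z0,z0,z0,z3,z0],z4),([z0,z3,z0,z0,z0,z0],z2),([z0,z0,z3,z3,z0,z0],z4)],[([z3,z0,z0,z0,z3,z0],z4),([z0,z3,z0,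
    z0,z0,z0],z2)],[([z1,z0,z0,z1,z1,z0],z2)],[([z1,z0,z0,z0,z1,z1],z2)],[([z1,z0,z0,z0,z1,z1],z2),([z0,z3,z0,z0,z0,
    z0],z2)],[([z1,z0,z1,z0,z1,z0],z2),([z0,z3,z0,z0,z0,z0],z2),([z0,z0,z0,z3,z0,z0],z2)],[([z1,z0,z0,z0,z1,z1],z2),
    ([z0,z3,z0,z0,z0,z0],z2),([z0,z0,z3,z0,z0,z0],z2)]],[[([z3,z0,z3,z0,z3,z3],z8),([z0,z3,z0,z0,z0,z0],z2)],[([z3,z0,
    z3,z3,z3,z3],z10)],[]]],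
    [.leafM k4 [k4,k5,k0,k1,k2,k3] [(z1,[y1,z0,z0,z1])] [],
    .leafM k2 [k0,k1,k2,k3,k4,k5] [(z1,[z0,z1]),(z1,[z0,z0,z0,z1]),(z1,[y1,y1,y1,y1,z3])] [],
    .lp [k14,k20,k10,k20,k14,k16] [k3,k3,k0,k0,k5,k5,k0,k0,k3,k3,k2,k2] k0 [[],[k0,k0,k0,k0,k0,k0,k0,k4],[k0,k0,k0,k0,k8],
    [],[],[k0,k0,k0,k8],[k4]] k48 k5
    [[(k8,k14),(k11,k15)],[(k5,k12),(k3,k17),(k7,k17),(k9,k18)],[(k4,k15),(k6,k16),(k0,k17),(k2,k20)],[(k7,k12),(k5,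
    k15),(k9,k17),(k3,k20)],[(k0,k12),(k2,k15),(k6,k15),(k4,k18)],[(k9,k12),(k3,k15),(k7,k15),(k5,k18)],[(k2,k12),(k4,
    k15),(k0,k17),(k6,k20)],[(k5,k15),(k3,k16),(k9,k17),(k7,k20)],[(k4,k12),(k2,k17),(k6,k17),(k0,k18)],[(k1,k14),
    (k10,k15)],[(k1,k15),(k10,k16)],[(k8,k15),(k11,k16)]]
    [] k0
    [[k1,k0,k1,k0,k1,k0],[k0,k1,k1,k1,k0,k0]]
    [.ref k1 k0 [(z1,[z0,z1]),(z1,[z0,z0,z1]),(z1,[z3,y1]),(z1,[z0,y1,y1,y1,z3])],.ref k1 k0 [(z1,[z0,z1]),(z1,[z0,z0,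
    z1]),(z1,[z3,z1,z0,z1,y3]),(z1,[z0,y1,y1,y1,z3])]],
    .lp [k54,k42,k42,k36,k24,k40] [k0,k0,k6,k6,k6,k6,k9,k9,k15,k15,k7,k7] k0 [[k0,k0,k0,k0,k0,k0,k6],[k0,k0,k0,k0,k0,k6],
    [],[],[k6],[],[],[k0,k6]] k120 k5
    [[(k8,k39),(k11,k47)],[(k9,k33),(k3,k48),(k5,k48),(k7,k51)],[(k4,k36),(k2,k42),(k6,k45),(k0,k48)],[(k9,k33),(k7,
    k39),(k3,k42),(k5,k42)],[(k6,k39),(k2,k42),(k4,k42),(k0,k48)],[(k9,k33),(k3,k36),(k7,k39),(k5,k42)],[(k6,k36),(k2,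
    k39),(k4,k39),(k0,k51)],[(k9,k30),(k7,k36),(k5,k39),(k3,k45)],[(k6,k30),(k0,k33),(k2,k33),(k4,k33)],[(k10,k32),
    (k1,k39)],[(k10,k40),(k1,k47)],[(k8,k32),(k11,k40)]]
    [] k0
    [[k1,k0,k0,k0,k1,k1],[k0,k1,k1,k1,k0,k0],[k0,k0,k1,k2,k0,k0],[k0,k0,k0,k3,k0,k0]]
    [.ref k0 k0 [(z1,[z1]),(z1,[y1,z1,z1]),(z1,[z1,y2,y1,z1])],.ref k0 k0 [(z1,[y1,z0,z0,z1]),(z1,[z1,z1,z1,y1]),(z1,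
    [y1,y2,y1,z2])],.ref k0 k0 [(z1,[y1,z0,y1,z1]),(z1,[z1,z1,z2,y1]),(z1,[y1,y2,y2,z2])],.ref k2 k0 [(z1,[y1,z3]),
    (z1,[z1,z0,z3]),(z1,[y1,y3,y3,z3])]],
    .leafM k4 [k4,k5,k0,k1,k2,k3] [(z1,[y1,z0,z1])] [],
    .leafM k4 [k4,k5,k0,k1,k2,k3] [(z3,[z0,z1,z1])] [],
    .lp [k58,k40,k40,k40,k26,k34] [k0,k0,k9,k9,k9,k9,k9,k9,k16,k16,k12,k12] k0 [[k0,k0,k2],[k0,k0,k0,k0,k0,k0,k0,k2],[],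
    [k0,k2],[k0,k0,k0,k0,k0,k0,k2],[],[k2],[k0,k0,k0,k0,k0,k2]] k120 k5
    [[(k8,k42),(k11,k46)],[(k9,k44),(k5,k47),(k3,k49),(k7,k49)],[(k6,k38),(k4,k40),(k2,k42),(k0,k49)],[(k9,k33),(k5,
    k40),(k7,k40),(k3,k42)],[(k2,k40),(k4,k40),(k6,k40),(k0,k47)],[(k9,k31),(k3,k40),(k5,k40),(k7,k40)],[(k2,k40),(k4,
    k40),(k6,k42),(k0,k49)],[(k9,k33),(k3,k38),(k5,k40),(k7,k42)],[(k4,k31),(k2,k33),(k6,k33),(k0,k44)],[(k10,k30),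
    (k1,k42)],[(k10,k34),(k1,k46)],[(k8,k30),(k11,k34)]]
    [] k0
    [[k0,k1,k1,k1,k0,k0],[k0,k0,k0,k0,k0,k3]]
    [.ref k5 k0 [(z1,[z0,z1]),(z1,[z0,z0,z1]),(z1,[z3,z0,y1])],.ref k5 k0 [(z1,[z0,z1]),(z1,[z0,z0,z1]),(z1,[y1,y1,y1,
    z3])]],
    .lp [(nat_lit 1200),(nat_lit 966),(nat_lit 966),(nat_lit 966),(nat_lit 460),(nat_lit 920)] [k0,k0,k117,k117,k117,k117,
    k117,k117,(nat_lit 370),(nat_lit 370),k140,k140] k0 [[],[k0,k0,k0,k0,k0,k138],[],[],[k138],[k0,k0,k0,k0,k0,k0,k0,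
    k138],[k0,k0,k0,k0,k138]] (nat_lit 2760) k5
    [[(k8,(nat_lit 830)),(k11,(nat_lit 1060))],[(k9,(nat_lit 830)),(k3,(nat_lit 1083)),(k5,(nat_lit 1083)),(k7,
    (nat_lit 1221))],[(k4,(nat_lit 828)),(k2,(nat_lit 966)),(k6,(nat_lit 966)),(k0,(nat_lit 1083))],[(k9,
    (nat_lit 713)),(k3,(nat_lit 966)),(k5,(nat_lit 966)),(k7,(nat_lit 966))],[(k2,(nat_lit 966)),(k4,(nat_lit 966)),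
    (k6,(nat_lit 966)),(k0,(nat_lit 1083))],[(k3,(nat_lit 828)),(k9,(nat_lit 851)),(k5,(nat_lit 966)),(k7,
    (nat_lit 966))],[(k6,(nat_lit 828)),(k2,(nat_lit 966)),(k4,(nat_lit 966)),(k0,(nat_lit 1221))],[(k9,
    (nat_lit 713)),(k7,(nat_lit 828)),(k3,(nat_lit 966)),(k5,(nat_lit 966))],[(k2,(nat_lit 713)),(k6,(nat_lit 713)),
    (k0,(nat_lit 830)),(k4,(nat_lit 851))],[(k10,(nat_lit 690)),(k1,(nat_lit 830))],[(k10,(nat_lit 920)),(k1,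
    (nat_lit 1060))],[(k8,(nat_lit 690)),(k11,(nat_lit 920))]]
    [] k0
    [[k1,k1,k0,k0,k1,k0],[k1,k0,k0,k0,k1,k1],[k0,k0,k0,k3,k0,k0]]
    [.ref k3 k0 [(z1,[z0,z1]),(z1,[z1,y1])],.ref k4 k1 [(z1,[z1]),(z1,[y1,z1])],.ref k6 k1 [(z1,[y1,z3]),(z1,[z1])]],
    .leafM k4 [k4,k5,k0,k1,k2,k3] [(z1,[y1,z1])] [],
    .leafM k4 [k4,k5,k0,k1,k2,k3] [(z1,[y1,z0,z1])] [],
    .leafM k2 [k0,k1,k2,k3,k4,k5] [(z1,[z0,z1]),(z1,[z0,z0,z1]),(z1,[y3,y1,y1,z3])] [],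
    .leafM k4 [k4,k5,k0,k1,k2,k3] [(z1,[y1,z0,z0,z1])] [],
    .lp [k14,k20,k10,k20,k14,k16] [k3,k3,k0,k0,k5,k5,k0,k0,k3,k3,k2,k2] k0 [[],[k0,k0,k0,k0,k0,k0,k0,k4],[k0,k0,k0,k0,k8],
    [],[],[k0,k0,k0,k8],[k4]] k48 k5
    [[(k8,k14),(k11,k15)],[(k5,k12),(k3,k17),(k7,k17),(k9,k18)],[(k4,k15),(k6,k16),(k0,k17),(k2,k20)],[(k7,k12),(k5,
    k15),(k9,k17),(k3,k20)],[(k0,k12),(k2,k15),(k6,k15),(k4,k18)],[(k9,k12),(k3,k15),(k7,k15),(k5,k18)],[(k2,k12),(k4,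
    k15),(k0,k17),(k6,k20)],[(k5,k15),(k3,k16),(k9,k17),(k7,k20)],[(k4,k12),(k2,k17),(k6,k17),(k0,k18)],[(k1,k14),
    (k10,k15)],[(k1,k15),(k10,k16)],[(k8,k15),(k11,k16)]]
    [] k0
    [[k1,k0,k1,k0,k1,k0],[k0,k1,k1,k1,k0,k0]]
    [.ref k10 k0 [(z1,[z1]),(z1,[z0,z0,z1]),(z1,[z0,y1,y1,z3])],.ref k11 k0 [(z1,[y1,z0,z0,z1]),(z1,[z0,z0,z1]),(z1,
    [z3,z1,z0,y3])]],
    .lp [(nat_lit 1200),(nat_lit 966),(nat_lit 966),(nat_lit 966),(nat_lit 460),(nat_lit 920)] [k0,k0,k117,k117,k117,k117,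
    k117,k117,(nat_lit 370),(nat_lit 370),k140,k140] k0 [[],[k0,k0,k0,k0,k0,k138],[],[],[k138],[k0,k0,k0,k0,k0,k0,k0,
    k138],[k0,k0,k0,k0,k138]] (nat_lit 2760) k5
    [[(k8,(nat_lit 830)),(k11,(nat_lit 1060))],[(k9,(nat_lit 830)),(k3,(nat_lit 1083)),(k5,(nat_lit 1083)),(k7,
    (nat_lit 1221))],[(k4,(nat_lit 828)),(k2,(nat_lit 966)),(k6,(nat_lit 966)),(k0,(nat_lit 1083))],[(k9,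
    (nat_lit 713)),(k3,(nat_lit 966)),(k5,(nat_lit 966)),(k7,(nat_lit 966))],[(k2,(nat_lit 966)),(k4,(nat_lit 966)),
    (k6,(nat_lit 966)),(k0,(nat_lit 1083))],[(k3,(nat_lit 828)),(k9,(nat_lit 851)),(k5,(nat_lit 966)),(k7,
    (nat_lit 966))],[(k6,(nat_lit 828)),(k2,(nat_lit 966)),(k4,(nat_lit 966)),(k0,(nat_lit 1221))],[(k9,
    (nat_lit 713)),(k7,(nat_lit 828)),(k3,(nat_lit 966)),(k5,(nat_lit 966))],[(k2,(nat_lit 713)),(k6,(nat_lit 713)),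
    (k0,(nat_lit 830)),(k4,(nat_lit 851))],[(k10,(nat_lit 690)),(k1,(nat_lit 830))],[(k10,(nat_lit 920)),(k1,
    (nat_lit 1060))],[(k8,(nat_lit 690)),(k11,(nat_lit 920))]]
    [] k0
    [[k1,k1,k0,k0,k1,k0],[k1,k0,k0,k0,k1,k1],[k0,k0,k0,k3,k0,k0]]
    [.ref k6 k0 [(z1,[z3,z1,y3]),(z1,[z0,y1,z3])],.ref k9 k0 [(z1,[z1]),(z1,[z0,y1,z3])],.ref k12 k0 [(z1,[y1,z1]),
    (z1,[z0,y1,z3])]],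
    .lp [(nat_lit 1200),(nat_lit 966),(nat_lit 966),(nat_lit 966),(nat_lit 460),(nat_lit 920)] [k0,k0,k117,k117,k117,k117,
    k117,k117,(nat_lit 370),(nat_lit 370),k140,k140] k0 [[],[k0,k0,k0,k0,k0,k138],[],[],[k138],[k0,k0,k0,k0,k0,k0,k0,
    k138],[k0,k0,k0,k0,k138]] (nat_lit 2760) k5
    [[(k8,(nat_lit 830)),(k11,(nat_lit 1060))],[(k9,(nat_lit 830)),(k3,(nat_lit 1083)),(k5,(nat_lit 1083)),(k7,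
    (nat_lit 1221))],[(k4,(nat_lit 828)),(k2,(nat_lit 966)),(k6,(nat_lit 966)),(k0,(nat_lit 1083))],[(k9,
    (nat_lit 713)),(k3,(nat_lit 966)),(k5,(nat_lit 966)),(k7,(nat_lit 966))],[(k2,(nat_lit 966)),(k4,(nat_lit 966)),
    (k6,(nat_lit 966)),(k0,(nat_lit 1083))],[(k3,(nat_lit 828)),(k9,(nat_lit 851)),(k5,(nat_lit 966)),(k7,
    (nat_lit 966))],[(k6,(nat_lit 828)),(k2,(nat_lit 966)),(k4,(nat_lit 966)),(k0,(nat_lit 1221))],[(k9,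
    (nat_lit 713)),(k7,(nat_lit 828)),(k3,(nat_lit 966)),(k5,(nat_lit 966))],[(k2,(nat_lit 713)),(k6,(nat_lit 713)),
    (k0,(nat_lit 830)),(k4,(nat_lit 851))],[(k10,(nat_lit 690)),(k1,(nat_lit 830))],[(k10,(nat_lit 920)),(k1,
    (nat_lit 1060))],[(k8,(nat_lit 690)),(k11,(nat_lit 920))]]
    [] k0
    [[k1,k1,k0,k0,k1,k0],[k1,k0,k0,k0,k1,k1],[k0,k0,k0,k3,k0,k0]]
    [.ref k7 k1 [(z1,[z1])],.ref k8 k0 [(z1,[z1])],.ref k13 k1 [(z1,[y1,z3])]]]⟩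

/-- classes `0 0 0 0 1 1`, types `C0 C0 C0 C0 C0 C0` -/
noncomputable def cT6_93 : CertT :=
  ⟨[k4,k4,k4,k4,k20,k20],[(false,k0,[k0,k1,k2,k3,k4,k5]),(true,k4,[k4,k3,k2,k1,k0,k5])],[[[([z1,z0,z0,z0,z1,z1],z2)],
    [([z1,z0,z0,z0,z1,z1],z2),([z0,z3,z0,z0,z0,z0],z2),([z0,z0,z1,z0,z0,y1],z0)],[([z1,z0,z1,z0,z1,z0],z2),([z0,z3,z0,
    z0,z0,z0],z2),([z0,z0,z0,z3,z0,z0],z2)],[([z1,z0,z1,z0,z1,z0],z2),([z0,z3,z0,z0,z0,z0],z2)],[([z1,z0,z0,z0,z1,z1],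
    z2),([z0,z3,z0,z0,z0,z0],z2)],[([z3,z0,z3,z3,z3,z3],z10)],[([z1,z0,z0,z0,z1,z1],z2),([z0,z2,z0,z0,z0,z1],z2),([z0,
    z0,z1,z0,z0,y1],z0)],[([z3,z0,z0,z0,z3,z0],z4),([z0,z3,z0,z0,z0,z0],z2),([z0,z0,z3,z0,z0,z0],z2),([z0,z0,z0,z3,z0,
    z0],z2)],[([z3,z0,z0,z0,z3,z6],z8),([z0,z3,z0,z0,z0,z0],z2),([z0,z0,z3,z0,z0,y6],y2)],[([z1,z0,z0,y2,z1,z0],z0),
    ([z0,z1,z0,z1,z0,z1],z2)],[([z1,z0,z0,z0,z1,z1],z2),([z0,z1,z0,y1,z0,z0],z0)],[([z2,z0,z1,z2,z2,z2],z6)]],[[]]],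
    [.leafM k0 [k0,k1,k2,k3,k4,k5] [(z1,[y1,z1])] [],
    .leafM k0 [k0,k1,k2,k3,k4,k5] [(z1,[y1,z0,z0,z1])] [],
    .leafM k2 [k0,k1,k2,k3,k4,k5] [(z1,[z0,z1]),(z1,[z0,z0,z1]),(z1,[y3,y1,y1,z3])] [],
    .lp [k58,k40,k40,k40,k30,k30] [k0,k0,k9,k9,k9,k9,k9,k9,k14,k14,k14,k14] k0 [[k0,k0,k2],[k0,k0,k0,k0,k0,k0,k0,k2],[],
    [k0,k2],[k0,k0,k0,k0,k0,k0,k2],[],[k2],[k0,k0,k0,k0,k0,k2]] k120 k5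
    [[(k8,k44),(k10,k44)],[(k9,k46),(k5,k47),(k3,k49),(k7,k49)],[(k6,k38),(k4,k40),(k2,k42),(k0,k49)],[(k9,k35),(k5,
    k40),(k7,k40),(k3,k42)],[(k2,k40),(k4,k40),(k6,k40),(k0,k47)],[(k9,k33),(k3,k40),(k5,k40),(k7,k40)],[(k2,k40),(k4,
    k40),(k6,k42),(k0,k49)],[(k9,k35),(k3,k38),(k5,k40),(k7,k42)],[(k4,k33),(k2,k35),(k6,k35),(k0,k46)],[(k11,k30),
    (k1,k44)],[(k8,k30),(k10,k30)],[(k11,k30),(k1,k44)]]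
    [] k0
    [[k0,k1,k1,k1,k0,k0],[k0,k0,k0,k0,k0,k3]]
    [.ref k1 k0 [(z1,[y1,z0,z0,z1]),(z1,[z0,z0,z1]),(z1,[z1,z1,z0,y1])],.ref k2 k0 [(z1,[z0,z1]),(z1,[z0,z0,z1]),(z1,
    [y1,y3,y1,z3])]],
    .leafM k0 [k0,k1,k2,k3,k4,k5] [(z1,[y1,z0,z1])] [],
    .lp [k14,k20,k10,k20,k14,k16] [k3,k3,k0,k0,k5,k5,k0,k0,k3,k3,k2,k2] k0 [[],[k0,k0,k0,k0,k0,k0,k0,k4],[k0,k0,k0,k0,k8],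
    [],[],[k0,k0,k0,k8],[k4]] k48 k5
    [[(k8,k14),(k10,k15)],[(k5,k12),(k3,k17),(k7,k17),(k9,k18)],[(k4,k15),(k6,k16),(k0,k17),(k2,k20)],[(k7,k12),(k5,
    k15),(k9,k17),(k3,k20)],[(k0,k12),(k2,k15),(k6,k15),(k4,k18)],[(k9,k12),(k3,k15),(k7,k15),(k5,k18)],[(k2,k12),(k4,
    k15),(k0,k17),(k6,k20)],[(k5,k15),(k3,k16),(k9,k17),(k7,k20)],[(k4,k12),(k2,k17),(k6,k17),(k0,k18)],[(k1,k14),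
    (k11,k15)],[(k8,k15),(k10,k16)],[(k1,k15),(k11,k16)]]
    [] k0
    [[k1,k0,k1,k0,k1,k0],[k0,k1,k1,k1,k0,k0]]
    [.ref k3 k0 [(z1,[z1]),(z1,[z0,y1,z3])],.ref k4 k0 [(z1,[y1,z0,z1]),(z1,[z0,y1,z3])]],
    .leafM k0 [k0,k1,k2,k3,k4,k5] [(z1,[y1,z0,z0,z1])] [],
    .leafM k0 [k0,k1,k2,k3,k4,k5] [(z3,[z0,z1,z1,z1])] [],
    .lp [k58,k40,k40,k40,k30,k30] [k0,k0,k9,k9,k9,k9,k9,k9,k14,k14,k14,k14] k0 [[k0,k0,k2],[k0,k0,k0,k0,k0,k0,k0,k2],[],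
    [k0,k2],[k0,k0,k0,k0,k0,k0,k2],[],[k2],[k0,k0,k0,k0,k0,k2]] k120 k5
    [[(k8,k44),(k10,k44)],[(k9,k46),(k5,k47),(k3,k49),(k7,k49)],[(k6,k38),(k4,k40),(k2,k42),(k0,k49)],[(k9,k35),(k5,
    k40),(k7,k40),(k3,k42)],[(k2,k40),(k4,k40),(k6,k40),(k0,k47)],[(k9,k33),(k3,k40),(k5,k40),(k7,k40)],[(k2,k40),(k4,
    k40),(k6,k42),(k0,k49)],[(k9,k35),(k3,k38),(k5,k40),(k7,k42)],[(k4,k33),(k2,k35),(k6,k35),(k0,k46)],[(k11,k30),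
    (k1,k44)],[(k8,k30),(k10,k30)],[(k11,k30),(k1,k44)]]
    [] k0
    [[k0,k1,k1,k1,k0,k0],[k0,k0,k0,k0,k0,k3]]
    [.ref k7 k0 [(z1,[y6,y1,z0,z0,z6]),(z1,[z0,z0,z1]),(z1,[z6,z2,z0,z1,y6]),(z1,[y3,y2,y1,y1,z6])],.ref k7 k0 [(z1,
    [y2,z1]),(z1,[z0,z0,z1]),(z1,[z2,z0,z0,z1]),(z1,[y1,y1,y1,y1,z3])]],
    .lp [k58,k36,k42,k42,k20,k40] [k0,k0,k11,k11,k8,k8,k8,k8,k19,k19,k9,k9] k0 [[k0,k0,k0,k0,k0,k0,k6],[],[],[k0,k0,k0,k0,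
    k0,k0,k0,k6],[],[],[k0,k0,k6],[k0,k6]] k120 k5
    [[(k8,k39),(k10,k49)],[(k9,k33),(k3,k47),(k5,k50),(k7,k50)],[(k2,k36),(k4,k39),(k6,k45),(k0,k47)],[(k9,k34),(k3,
    k36),(k5,k39),(k7,k39)],[(k6,k36),(k2,k39),(k4,k42),(k0,k50)],[(k9,k31),(k3,k39),(k5,k42),(k7,k42)],[(k2,k39),(k4,
    k42),(k6,k42),(k0,k50)],[(k9,k31),(k5,k36),(k7,k42),(k3,k45)],[(k4,k31),(k6,k31),(k0,k33),(k2,k34)],[(k11,k30),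
    (k1,k39)],[(k8,k30),(k10,k40)],[(k11,k40),(k1,k49)]]
    [] k0
    [[k1,k0,k0,k0,k1,k1],[k0,k3,k0,k0,k0,k0],[k0,k2,k1,k0,k0,k0],[k0,k1,k1,k1,k0,k0]]
    [.ref k6 k0 [(z1,[z1]),(z1,[y1,z1,z2]),(z1,[y1,z0,y1,z1])],.ref k8 k0 [(z1,[y2,z3,z6]),(z1,[z1]),(z1,[z2,y3,y9,
    z3])],.ref k6 k0 [(z2,[y1,z1,z1,z1]),(z2,[z1,z1,z3,y1]),(z2,[z1,y1,y3,z1])],.ref k6 k0 [(z1,[y1,z0,z0,z1]),(z1,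
    [z1,z1,z2,y1]),(z1,[z1,z0,y1])]],
    .leafM k0 [k0,k1,k2,k3,k4,k5] [(z1,[y1,z0,z1])] [],
    .lp [k14,k20,k10,k20,k14,k16] [k3,k3,k0,k0,k5,k5,k0,k0,k3,k3,k2,k2] k0 [[],[k0,k0,k0,k0,k0,k0,k0,k4],[k0,k0,k0,k0,k8],
    [],[],[k0,k0,k0,k8],[k4]] k48 k5
    [[(k8,k14),(k10,k15)],[(k5,k12),(k3,k17),(k7,k17),(k9,k18)],[(k4,k15),(k6,k16),(k0,k17),(k2,k20)],[(k7,k12),(k5,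
    k15),(k9,k17),(k3,k20)],[(k0,k12),(k2,k15),(k6,k15),(k4,k18)],[(k9,k12),(k3,k15),(k7,k15),(k5,k18)],[(k2,k12),(k4,
    k15),(k0,k17),(k6,k20)],[(k5,k15),(k3,k16),(k9,k17),(k7,k20)],[(k4,k12),(k2,k17),(k6,k17),(k0,k18)],[(k1,k14),
    (k11,k15)],[(k8,k15),(k10,k16)],[(k1,k15),(k11,k16)]]
    [] k0
    [[k1,k0,k1,k0,k1,k0],[k0,k1,k1,k1,k0,k0]]
    [.ref k9 k1 [(z1,[z1,z1,y2]),(z1,[y1,z0,z1])],.ref k10 k0 [(z1,[y1,z0,z1]),(z1,[y1,y1,z2])]],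
    .lp [k58,k36,k42,k42,k20,k40] [k0,k0,k11,k11,k8,k8,k8,k8,k19,k19,k9,k9] k0 [[k0,k0,k0,k0,k0,k0,k6],[],[],[k0,k0,k0,k0,
    k0,k0,k0,k6],[],[],[k0,k0,k6],[k0,k6]] k120 k5
    [[(k8,k39),(k10,k49)],[(k9,k33),(k3,k47),(k5,k50),(k7,k50)],[(k2,k36),(k4,k39),(k6,k45),(k0,k47)],[(k9,k34),(k3,
    k36),(k5,k39),(k7,k39)],[(k6,k36),(k2,k39),(k4,k42),(k0,k50)],[(k9,k31),(k3,k39),(k5,k42),(k7,k42)],[(k2,k39),(k4,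
    k42),(k6,k42),(k0,k50)],[(k9,k31),(k5,k36),(k7,k42),(k3,k45)],[(k4,k31),(k6,k31),(k0,k33),(k2,k34)],[(k11,k30),
    (k1,k39)],[(k8,k30),(k10,k40)],[(k11,k40),(k1,k49)]]
    [] k0
    [[k1,k0,k0,k0,k1,k1],[k0,k3,k0,k0,k0,k0],[k0,k2,k1,k0,k0,k0],[k0,k1,k1,k1,k0,k0]]
    [.ref k0 k0 [(z1,[z1])],.ref k5 k0 [(z1,[y1,z3])],.ref k11 k0 [(z1,[y1,z2])],.ref k0 k0 [(z1,[y1,z1])]]]⟩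

/-- classes `0 0 0 0 1 1`, types `C0 C0 C0 C0 C0 C2` -/
noncomputable def cT6_94 : CertT :=
  ⟨[k4,k4,k4,k4,k20,k22],[(false,k0,[k0,k1,k2,k3,k4,k5])],[[[([z1,z0,z0,z0,z1,z1],z2)],[]]],
    [.leafM k0 [k0,k1,k2,k3,k4,k5] [(z1,[y1,z1])] [],
    .lp [k10,k8,k8,k8,k10,k2] [k0,k0,k1,k1,k1,k1,k1,k1,k0,k0,k4,k4] k0 [[k0,k0,k2],[k0,k0,k0,k0,k0,k0,k0,k2],[],[k0,k2],
    [k0,k0,k0,k0,k0,k0,k2],[],[k2],[k0,k0,k0,k0,k0,k2]] k24 k5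
    [[(k10,k6),(k11,k6)],[(k5,k7),(k3,k9),(k7,k9),(k9,k12)],[(k6,k6),(k4,k8),(k0,k9),(k2,k10)],[(k5,k8),(k7,k8),(k9,
    k9),(k3,k10)],[(k0,k7),(k2,k8),(k4,k8),(k6,k8)],[(k9,k7),(k3,k8),(k5,k8),(k7,k8)],[(k2,k8),(k4,k8),(k0,k9),(k6,
    k10)],[(k3,k6),(k5,k8),(k9,k9),(k7,k10)],[(k4,k7),(k2,k9),(k6,k9),(k0,k12)],[(k10,k6),(k11,k6)],[(k1,k6),(k8,k6)],
    [(k1,k6),(k8,k6)]]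
    [] k0
    [[k0,k1,k1,k1,k0,k0]]
    [.ref k0 k0 [(z1,[y1,z1])]]]⟩

/-- classes `0 0 0 0 1 1`, types `C0 C0 C0 C0 N0 N1` -/
noncomputable def cT6_95 : CertT :=
  ⟨[k4,k4,k4,k4,k28,k29],[(false,k0,[k0,k1,k2,k3,k4,k5])],[[[([z3,z0,z0,z0,z3,z0],z4),([z0,z3,z0,z0,z0,z0],z2),([z0,
    z0,z3,z0,z0,z0],z2),([z0,z0,z0,z3,z0,z0],z2)],[([z1,z0,z0,z1,z1,z0],z2),([z0,z1,z0,y1,z0,z0],z0),([z0,z0,z3,z3,z0,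
    z0],z4)],[([z1,z0,z0,z1,z1,z0],z2),([z0,z3,z0,z0,z0,z0],z2),([z0,z0,z3,z0,z0,z0],z2)],[([z1,z0,z0,z1,z1,z0],z2),
    ([z0,z3,z3,z0,z0,z0],z4)],[([z3,z0,z0,z0,z3,z0],z4),([z0,z3,z0,z0,z0,z0],z2),([z0,z0,z3,z3,z0,z0],z4)],[([z1,z0,
    z1,z0,z1,z0],z2),([z0,z3,z0,z0,z0,z0],z2),([z0,z0,z0,z3,z0,z0],z2)],[([z3,z0,z3,z3,z3,z0],z8),([z0,z3,z0,z0,z0,
    z0],z2)],[([z3,z3,z3,z3,z3,z0],z10)],[]]],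
    [.leafM k2 [k0,k1,k2,k3,k4,k5] [(z1,[z0,z1]),(z1,[z0,z0,z0,z1]),(z1,[y1,y1,y1,y1,z3])] [],
    .lp [k60,k36,k42,k42,k18,k40] [k0,k0,k12,k12,k9,k9,k9,k9,k21,k21,k10,k10] k0 [[k0,k0,k0,k0,k0,k0,k6],[],[],[k0,k0,k0,
    k0,k0,k0,k0,k6],[],[],[k0,k0,k6],[k0,k6]] k120 k5
    [[(k8,k39)],[(k9,k33),(k3,k48),(k5,k51),(k7,k51)],[(k2,k36),(k4,k39),(k6,k45),(k0,k48)],[(k9,k33),(k3,k36),(k5,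
    k39),(k7,k39)],[(k6,k36),(k2,k39),(k4,k42),(k0,k51)],[(k9,k30),(k3,k39),(k5,k42),(k7,k42)],[(k2,k39),(k4,k42),(k6,
    k42),(k0,k51)],[(k9,k30),(k5,k36),(k7,k42),(k3,k45)],[(k4,k30),(k6,k30),(k0,k33),(k2,k33)],[(k1,k39)],[(k10,k40)],
    [(k11,k40)]]
    [] k0
    [[k0,k3,k0,k0,k0,k0],[k0,k2,k1,k0,k0,k0],[k0,k1,k1,k1,k0,k0]]
    [.ref k0 k0 [(z1,[y1,z3,z3]),(z1,[z1]),(z1,[y1,z0,z3,z1]),(z1,[z1,z0,y3])],.ref k0 k0 [(z1,[y3,z3,z6,z1]),(z1,[z3,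
    z0,y3,y1]),(z1,[y3,z0,z6,z2]),(z1,[z3,z0,y6,y1])],.ref k0 k0 [(z1,[y3,z3,z3,z1]),(z1,[z3,z0,z0,y1]),(z1,[y3,z0,z3,
    z2]),(z1,[z3,z0,y3,y1])]],
    .lp [k54,k42,k42,k42,k18,k40] [k0,k0,k6,k6,k6,k6,k6,k6,k18,k18,k7,k7] k0 [[],[k0,k0,k0,k0,k0,k6],[],[],[k6],[k0,k0,k0,
    k0,k0,k0,k0,k6],[k0,k0,k0,k0,k6]] k120 k5
    [[(k8,k36)],[(k9,k36),(k3,k48),(k5,k48),(k7,k54)],[(k4,k36),(k2,k42),(k6,k42),(k0,k48)],[(k9,k30),(k3,k42),(k5,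
    k42),(k7,k42)],[(k2,k42),(k4,k42),(k6,k42),(k0,k48)],[(k3,k36),(k9,k36),(k5,k42),(k7,k42)],[(k6,k36),(k2,k42),(k4,
    k42),(k0,k54)],[(k9,k30),(k7,k36),(k3,k42),(k5,k42)],[(k2,k30),(k6,k30),(k0,k36),(k4,k36)],[(k1,k36)],[(k10,k40)],
    [(k11,k40)]]
    [] k0
    [[k1,k1,k0,k0,k1,k0],[k0,k0,k0,k3,k0,k0]]
    [.ref k0 k0 [(z1,[z3,z0,y1]),(z1,[z0,z0,z1]),(z1,[z0,z0,z0,z1]),(z1,[y3,z3,z1])],.ref k0 k0 [(z1,[y1,z3]),(z1,[z0,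
    z0,z1]),(z1,[z0,z0,z0,z1]),(z1,[z1])]],
    .lp [k18,k14,k18,k18,k10,k16] [k0,k0,k2,k2,k0,k0,k0,k0,k4,k4,k1,k1] k0 [[k0,k0,k0,k0,k0,k0,k2],[k0,k0,k0,k0,k0,k2],[],
    [],[k2],[k0,k0,k0,k0,k0,k0,k0,k2],[k0,k0,k0,k0,k2],[k0,k2]] k48 k5
    [[(k8,k14)],[(k9,k12),(k3,k16),(k5,k18),(k7,k20)],[(k2,k14),(k4,k14),(k0,k16),(k6,k18)],[(k9,k12),(k3,k14),(k5,
    k16),(k7,k16)],[(k2,k16),(k0,k18),(k4,k18),(k6,k18)],[(k3,k14),(k9,k16),(k5,k18),(k7,k18)],[(k2,k16),(k6,k16),(k4,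
    k18),(k0,k20)],[(k9,k14),(k7,k16),(k3,k18),(k5,k18)],[(k0,k12),(k2,k12),(k6,k14),(k4,k16)],[(k1,k14)],[(k10,k16)],
    [(k11,k16)]]
    [] k0
    [[k1,k1,k0,k0,k1,k0],[k0,k3,k0,k0,k0,k0],[k0,k2,k1,k0,k0,k0]]
    [.ref k1 k0 [(z1,[z0,z1]),(z1,[z1,y1]),(z1,[y3,z3,z1])],.ref k2 k0 [(z1,[z0,z1]),(z1,[z1]),(z1,[y1,z0,z1])],
    .ref k2 k0 [(z1,[z0,z1]),(z1,[z3,z0,y1]),(z1,[y3,z0,z2])]],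
    .lp [k18,k18,k18,k14,k10,k16] [k0,k0,k0,k0,k0,k0,k2,k2,k4,k4,k1,k1] k0 [[k0,k0,k0,k0,k0,k0,k2],[k0,k0,k0,k2],[k2],[k0,
    k0,k0,k0,k0,k0,k0,k2],[],[],[k0,k0,k2],[k0,k2]] k48 k5
    [[(k8,k14)],[(k9,k12),(k7,k16),(k3,k18),(k5,k20)],[(k2,k16),(k0,k18),(k4,k18),(k6,k18)],[(k3,k16),(k7,k16),(k9,
    k16),(k5,k18)],[(k6,k14),(k2,k18),(k4,k18),(k0,k20)],[(k9,k14),(k7,k16),(k3,k18),(k5,k18)],[(k6,k14),(k0,k16),(k2,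
    k16),(k4,k16)],[(k9,k12),(k5,k14),(k7,k14),(k3,k18)],[(k0,k12),(k6,k12),(k4,k14),(k2,k16)],[(k1,k14)],[(k10,k16)],
    [(k11,k16)]]
    [] k0
    [[k1,k0,k0,k1,k1,k0],[k0,k0,k1,k2,k0,k0],[k0,k0,k0,k3,k0,k0]]
    [.ref k0 k0 [(z1,[z0,z1]),(z1,[z0,z0,z1]),(z1,[y3,z1,z0,z1]),(z1,[z3,y1])],.ref k0 k0 [(z1,[z0,z1]),(z1,[z0,z0,
    z1]),(z1,[y3,z0,z0,z2]),(z1,[z3,z0,z0,y1])],.ref k0 k0 [(z1,[z0,z1]),(z1,[z0,z0,z1]),(z1,[y1,z0,z0,z1]),(z1,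
    [z1])]],
    .leafM k2 [k0,k1,k2,k3,k4,k5] [(z1,[z0,z1]),(z1,[z0,z0,z1]),(z1,[y3,y1,y1,z3])] [],
    .lp [k54,k42,k42,k42,k18,k40] [k0,k0,k6,k6,k6,k6,k6,k6,k18,k18,k7,k7] k0 [[],[k0,k0,k0,k0,k0,k6],[],[],[k6],[k0,k0,k0,
    k0,k0,k0,k0,k6],[k0,k0,k0,k0,k6]] k120 k5
    [[(k8,k36)],[(k9,k36),(k3,k48),(k5,k48),(k7,k54)],[(k4,k36),(k2,k42),(k6,k42),(k0,k48)],[(k9,k30),(k3,k42),(k5,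
    k42),(k7,k42)],[(k2,k42),(k4,k42),(k6,k42),(k0,k48)],[(k3,k36),(k9,k36),(k5,k42),(k7,k42)],[(k6,k36),(k2,k42),(k4,
    k42),(k0,k54)],[(k9,k30),(k7,k36),(k3,k42),(k5,k42)],[(k2,k30),(k6,k30),(k0,k36),(k4,k36)],[(k1,k36)],[(k10,k40)],
    [(k11,k40)]]
    [] k0
    [[k1,k1,k0,k0,k1,k0],[k0,k0,k0,k3,k0,k0]]
    [.ref k4 k0 [(z1,[z3,z0,y1]),(z1,[z0,z0,z1]),(z1,[y3,z1,z1])],.ref k5 k0 [(z3,[y1,z1]),(z1,[z0,z0,z1]),(z1,[z1])]],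
    .lp [k54,k42,k42,k42,k18,k40] [k0,k0,k6,k6,k6,k6,k6,k6,k18,k18,k7,k7] k0 [[],[k0,k0,k0,k6],[k6],[k0,k0,k0,k0,k0,k0,k0,
    k6],[],[],[k0,k0,k6]] k120 k5
    [[(k8,k36)],[(k9,k36),(k3,k48),(k7,k48),(k5,k54)],[(k2,k36),(k4,k42),(k6,k42),(k0,k48)],[(k3,k36),(k9,k36),(k5,
    k42),(k7,k42)],[(k6,k36),(k2,k42),(k4,k42),(k0,k54)],[(k9,k30),(k3,k42),(k5,k42),(k7,k42)],[(k2,k42),(k4,k42),(k6,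
    k42),(k0,k48)],[(k9,k30),(k5,k36),(k3,k42),(k7,k42)],[(k4,k30),(k6,k30),(k0,k36),(k2,k36)],[(k1,k36)],[(k10,k40)],
    [(k11,k40)]]
    [] k0
    [[k1,k0,k0,k1,k1,k0],[k0,k3,k0,k0,k0,k0]]
    [.ref k3 k0 [(z1,[z1]),(z1,[y3,z1])],.ref k6 k0 [(z1,[y1,z1]),(z1,[z1])]],
    .lp [k12,k8,k8,k8,k4,k6] [k0,k0,k2,k2,k2,k2,k2,k2,k4,k4,k3,k3] k0 [] k24 k5
    [[(k8,k8)],[(k9,k8),(k3,k10),(k5,k10),(k7,k10)],[(k2,k8),(k4,k8),(k6,k8),(k0,k10)],[(k9,k6),(k3,k8),(k5,k8),(k7,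
    k8)],[(k2,k8),(k4,k8),(k6,k8),(k0,k10)],[(k9,k6),(k3,k8),(k5,k8),(k7,k8)],[(k2,k8),(k4,k8),(k6,k8),(k0,k10)],[(k9,
    k6),(k3,k8),(k5,k8),(k7,k8)],[(k2,k6),(k4,k6),(k6,k6),(k0,k8)],[(k1,k8)],[(k10,k6)],[(k11,k6)]]
    [] k0
    [[k0,k0,k0,k0,k0,k3]]
    [.ref k7 k0 [(z1,[y1,z3])]]]⟩

/-- classes `0 0 0 0 1 1`, types `C0 C0 C0 C0 N0 N2` -/
noncomputable def cT6_96 : CertT :=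
  ⟨[k4,k4,k4,k4,k28,k30],[(false,k0,[k0,k1,k2,k3,k4,k5])],[[[([z1,z0,z0,z0,z1,z1],z2)],[]]],
    [.leafM k4 [k4,k5,k0,k1,k2,k3] [(z1,[y1,z1])] [],
    .lp [k10,k8,k8,k8,k10,k2] [k0,k0,k1,k1,k1,k1,k1,k1,k0,k0,k4,k4] k0 [[k0,k0,k2],[k0,k0,k0,k0,k0,k0,k0,k2],[],[k0,k2],
    [k0,k0,k0,k0,k0,k0,k2],[],[k2],[k0,k0,k0,k0,k0,k2]] k24 k5
    [[(k11,k6)],[(k5,k7),(k3,k9),(k7,k9),(k9,k12)],[(k6,k6),(k4,k8),(k0,k9),(k2,k10)],[(k5,k8),(k7,k8),(k9,k9),(k3,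
    k10)],[(k0,k7),(k2,k8),(k4,k8),(k6,k8)],[(k9,k7),(k3,k8),(k5,k8),(k7,k8)],[(k2,k8),(k4,k8),(k0,k9),(k6,k10)],[(k3,
    k6),(k5,k8),(k9,k9),(k7,k10)],[(k4,k7),(k2,k9),(k6,k9),(k0,k12)],[(k10,k6)],[(k1,k6)],[(k8,k6)]]
    [] k0
    [[k0,k1,k1,k1,k0,k0]]
    [.ref k0 k0 [(z1,[y1,z1])]]]⟩

/-- classes `0 0 0 0 1 1`, types `C0 C0 C0 C0 S0 S0` -/
noncomputable def cT6_97 : CertT :=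
  ⟨[k4,k4,k4,k4,k16,k16],[(false,k0,[k0,k1,k2,k3,k4,k5]),(true,k4,[k4,k3,k2,k1,k0,k5])],[[[([z1,z0,z0,z0,z1,z1],z2),
    ([z0,z1,z0,z0,z0,y1],z0),([z0,z0,z1,z0,z0,z2],z2)],[([z3,z0,z0,z0,z3,z0],z4),([z0,z3,z0,z0,z0,z0],z2),([z0,z0,z3,
    z0,z0,z0],z2),([z0,z0,z0,z3,z0,z0],z2)],[([z3,z0,z0,z0,z3,z0],z4),([z0,z3,z0,z0,z0,z0],z2),([z0,z0,z3,z0,z0,z3],
    z4)],[([z1,z0,z0,z1,z1,z0],z2),([z0,z1,z0,y1,z0,z0],z0)],[([z1,z0,z0,z0,z1,z1],z2),([z0,z1,z0,z0,z0,y1],z0)],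
    [([z3,z0,z0,z0,z3,z0],z4),([z0,z3,z0,z0,z0,z0],z2),([z0,z0,z3,z3,z0,z0],z4)],[([z3,z0,z0,z0,z3,z0],z4),([z0,z3,z0,
    z0,z0,z0],z2)],[([z1,z0,z0,z1,z1,z0],z2)],[([z1,z0,z0,z0,z1,z1],z2)],[([z1,z0,z0,z0,z1,z1],z2),([z0,z3,z0,z0,z0,
    z0],z2)],[([z1,z0,z0,z0,z1,z1],z2),([z0,z3,z0,z0,z0,z0],z2),([z0,z0,z3,z0,z0,z0],z2)],[([z1,z0,z1,z0,z1,z0],z2),
    ([z0,z3,z0,z0,z0,z0],z2),([z0,z0,z0,z3,z0,z0],z2)]],[[([z3,z0,z3,z0,z3,z3],z8),([z0,z3,z0,z0,z0,z0],z2)],[([z3,z0,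
    z3,z3,z3,z3],z10)],[]]],
    [.leafM k0 [k0,k1,k2,k3,k4,k5] [(z1,[y1,z0,z0,z1])] [],
    .leafM k0 [k0,k1,k2,k3,k4,k5] [(z3,[z0,z1,z1,z1])] [],
    .lp [k10,k8,k8,k8,k6,k6] [k0,k0,k1,k1,k1,k1,k1,k1,k2,k2,k2,k2] k0 [] k24 k5
    [[(k8,k8),(k10,k8),(k11,k8),(k1,k10)],[(k9,k8),(k3,k9),(k5,k9),(k7,k9)],[(k2,k8),(k4,k8),(k6,k8),(k0,k9)],[(k9,
    k7),(k3,k8),(k5,k8),(k7,k8)],[(k2,k8),(k4,k8),(k6,k8),(k0,k9)],[(k9,k7),(k3,k8),(k5,k8),(k7,k8)],[(k2,k8),(k4,k8),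
    (k6,k8),(k0,k9)],[(k9,k7),(k3,k8),(k5,k8),(k7,k8)],[(k2,k7),(k4,k7),(k6,k7),(k0,k8)],[(k8,k6),(k10,k6),(k11,k6),
    (k1,k8)],[(k8,k6),(k10,k6),(k11,k6),(k1,k8)],[(k8,k6),(k10,k6),(k11,k6),(k1,k8)]]
    [] k0
    [[k1,k0,k0,k0,k1,k1],[k0,k0,k0,k0,k0,k3]]
    [.ref k1 k0 [(z1,[z0,z1]),(z1,[z0,z0,z1]),(z1,[y3,z1,z0,z1]),(z1,[z0,y1,y1,y1,z3])],.ref k1 k0 [(z1,[z0,z1]),(z1,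
    [z0,z0,z1]),(z1,[y1,z0,z0,z1]),(z1,[z0,y1,y1,y1,z3])]],
    .lp [k48,k42,k42,k36,k30,k40] [k0,k0,k3,k3,k3,k3,k6,k6,k9,k9,k4,k4] k0 [[k0,k0,k0,k0,k0,k0,k6],[k0,k0,k0,k0,k0,k6],[],
    [],[k6],[],[],[k0,k6]] k120 k5
    [[(k8,k39),(k10,k44),(k11,k44),(k1,k48)],[(k9,k33),(k3,k45),(k5,k45),(k7,k48)],[(k4,k36),(k2,k42),(k0,k45),(k6,
    k45)],[(k9,k36),(k7,k39),(k3,k42),(k5,k42)],[(k6,k39),(k2,k42),(k4,k42),(k0,k45)],[(k3,k36),(k9,k36),(k7,k39),(k5,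
    k42)],[(k6,k36),(k2,k39),(k4,k39),(k0,k48)],[(k9,k33),(k7,k36),(k5,k39),(k3,k45)],[(k0,k33),(k6,k33),(k2,k36),(k4,
    k36)],[(k8,k30),(k10,k35),(k11,k35),(k1,k39)],[(k8,k35),(k10,k40),(k11,k40),(k1,k44)],[(k8,k35),(k10,k40),(k11,
    k40),(k1,k44)]]
    [] k0
    [[k1,k0,k0,k0,k1,k1],[k0,k1,k1,k1,k0,k0],[k0,k0,k1,k2,k0,k0],[k0,k0,k0,k3,k0,k0]]
    [.ref k0 k0 [(z1,[z1]),(z1,[y1,z1,z1]),(z1,[z1,y2,y1,z1])],.ref k0 k0 [(z1,[y1,z0,z0,z1]),(z1,[z1,z1,z1,y1]),(z1,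
    [y1,y2,y1,z2])],.ref k0 k0 [(z1,[y1,z0,y1,z1]),(z1,[z1,z1,z2,y1]),(z1,[y1,y2,y2,z2])],.ref k2 k0 [(z1,[y1,z3]),
    (z1,[z1,z0,z3]),(z1,[y1,y3,y3,z3])]],
    .leafM k0 [k0,k1,k2,k3,k4,k5] [(z1,[y1,z0,z1])] [],
    .leafM k0 [k0,k1,k2,k3,k4,k5] [(z3,[z0,z1,z1])] [],
    .lp [k10,k8,k8,k8,k6,k6] [k0,k0,k1,k1,k1,k1,k1,k1,k2,k2,k2,k2] k0 [] k24 k5
    [[(k8,k8),(k10,k8),(k11,k8),(k1,k10)],[(k9,k8),(k3,k9),(k5,k9),(k7,k9)],[(k2,k8),(k4,k8),(k6,k8),(k0,k9)],[(k9,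
    k7),(k3,k8),(k5,k8),(k7,k8)],[(k2,k8),(k4,k8),(k6,k8),(k0,k9)],[(k9,k7),(k3,k8),(k5,k8),(k7,k8)],[(k2,k8),(k4,k8),
    (k6,k8),(k0,k9)],[(k9,k7),(k3,k8),(k5,k8),(k7,k8)],[(k2,k7),(k4,k7),(k6,k7),(k0,k8)],[(k8,k6),(k10,k6),(k11,k6),
    (k1,k8)],[(k8,k6),(k10,k6),(k11,k6),(k1,k8)],[(k8,k6),(k10,k6),(k11,k6),(k1,k8)]]
    [] k0
    [[k1,k0,k0,k0,k1,k1],[k0,k0,k0,k0,k0,k3]]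
    [.ref k5 k0 [(z1,[z0,z1]),(z1,[z0,z0,z1]),(z1,[y3,z0,y1,z3])],.ref k5 k0 [(z1,[z0,z1]),(z1,[z0,z0,z1]),(z1,[y1,y1,
    y1,z3])]],
    .lp [k42,k42,k42,k42,k30,k40] [k0,k0,k0,k0,k0,k0,k0,k0,k6,k6,k1,k1] k0 [[],[k0,k0,k0,k0,k0,k6],[],[],[k6],[k0,k0,k0,
    k0,k0,k0,k0,k6],[k0,k0,k0,k0,k6]] k120 k5
    [[(k8,k36),(k10,k41),(k11,k41),(k1,k42)],[(k9,k36),(k3,k42),(k5,k42),(k7,k48)],[(k4,k36),(k0,k42),(k2,k42),(k6,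
    k42)],[(k9,k36),(k3,k42),(k5,k42),(k7,k42)],[(k0,k42),(k2,k42),(k4,k42),(k6,k42)],[(k3,k36),(k5,k42),(k7,k42),(k9,
    k42)],[(k6,k36),(k2,k42),(k4,k42),(k0,k48)],[(k7,k36),(k9,k36),(k3,k42),(k5,k42)],[(k0,k36),(k2,k36),(k6,k36),(k4,
    k42)],[(k8,k30),(k10,k35),(k11,k35),(k1,k36)],[(k8,k35),(k10,k40),(k11,k40),(k1,k41)],[(k8,k35),(k10,k40),(k11,
    k40),(k1,k41)]]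
    [] k0
    [[k1,k1,k0,k0,k1,k0],[k1,k0,k0,k0,k1,k1],[k0,k0,k0,k3,k0,k0]]
    [.ref k3 k0 [(z1,[z0,z1]),(z1,[z1,y1])],.ref k4 k1 [(z1,[z1]),(z1,[y1,z1])],.ref k6 k1 [(z1,[y1,z3]),(z1,[z1])]],
    .leafM k0 [k0,k1,k2,k3,k4,k5] [(z1,[y1,z1])] [],
    .leafM k0 [k0,k1,k2,k3,k4,k5] [(z1,[y1,z0,z1])] [],
    .leafM k0 [k0,k1,k2,k3,k4,k5] [(z1,[y1,z0,z0,z1])] [],
    .leafM k2 [k0,k1,k2,k3,k4,k5] [(z1,[z0,z1]),(z1,[z0,z0,z1]),(z1,[y3,y1,y1,z3])] [],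
    .lp [k10,k8,k8,k8,k6,k6] [k0,k0,k1,k1,k1,k1,k1,k1,k2,k2,k2,k2] k0 [] k24 k5
    [[(k8,k8),(k10,k8),(k11,k8),(k1,k10)],[(k9,k8),(k3,k9),(k5,k9),(k7,k9)],[(k2,k8),(k4,k8),(k6,k8),(k0,k9)],[(k9,
    k7),(k3,k8),(k5,k8),(k7,k8)],[(k2,k8),(k4,k8),(k6,k8),(k0,k9)],[(k9,k7),(k3,k8),(k5,k8),(k7,k8)],[(k2,k8),(k4,k8),
    (k6,k8),(k0,k9)],[(k9,k7),(k3,k8),(k5,k8),(k7,k8)],[(k2,k7),(k4,k7),(k6,k7),(k0,k8)],[(k8,k6),(k10,k6),(k11,k6),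
    (k1,k8)],[(k8,k6),(k10,k6),(k11,k6),(k1,k8)],[(k8,k6),(k10,k6),(k11,k6),(k1,k8)]]
    [] k0
    [[k1,k0,k0,k0,k1,k1],[k0,k0,k0,k0,k0,k3]]
    [.ref k10 k0 [(z1,[z1]),(z1,[z0,z0,z1]),(z1,[y3,z1])],.ref k11 k0 [(z3,[y1,z1]),(z1,[z0,z0,z1]),(z1,[z0,y1,y1,
    z3])]],
    .lp [k42,k42,k42,k42,k30,k40] [k0,k0,k0,k0,k0,k0,k0,k0,k6,k6,k1,k1] k0 [[],[k0,k0,k0,k0,k0,k6],[],[],[k6],[k0,k0,k0,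
    k0,k0,k0,k0,k6],[k0,k0,k0,k0,k6]] k120 k5
    [[(k8,k36),(k10,k41),(k11,k41),(k1,k42)],[(k9,k36),(k3,k42),(k5,k42),(k7,k48)],[(k4,k36),(k0,k42),(k2,k42),(k6,
    k42)],[(k9,k36),(k3,k42),(k5,k42),(k7,k42)],[(k0,k42),(k2,k42),(k4,k42),(k6,k42)],[(k3,k36),(k5,k42),(k7,k42),(k9,
    k42)],[(k6,k36),(k2,k42),(k4,k42),(k0,k48)],[(k7,k36),(k9,k36),(k3,k42),(k5,k42)],[(k0,k36),(k2,k36),(k6,k36),(k4,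
    k42)],[(k8,k30),(k10,k35),(k11,k35),(k1,k36)],[(k8,k35),(k10,k40),(k11,k40),(k1,k41)],[(k8,k35),(k10,k40),(k11,
    k40),(k1,k41)]]
    [] k0
    [[k1,k1,k0,k0,k1,k0],[k1,k0,k0,k0,k1,k1],[k0,k0,k0,k3,k0,k0]]
    [.ref k6 k0 [(z1,[z3,z1,y3]),(z1,[z0,y1,z3])],.ref k9 k0 [(z1,[z1]),(z1,[z0,y1,z3])],.ref k12 k0 [(z1,[y1,z1]),
    (z1,[z0,y1,z3])]],
    .lp [k42,k42,k42,k42,k30,k40] [k0,k0,k0,k0,k0,k0,k0,k0,k6,k6,k1,k1] k0 [[],[k0,k0,k0,k0,k0,k6],[],[],[k6],[k0,k0,k0,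
    k0,k0,k0,k0,k6],[k0,k0,k0,k0,k6]] k120 k5
    [[(k8,k36),(k10,k41),(k11,k41),(k1,k42)],[(k9,k36),(k3,k42),(k5,k42),(k7,k48)],[(k4,k36),(k0,k42),(k2,k42),(k6,
    k42)],[(k9,k36),(k3,k42),(k5,k42),(k7,k42)],[(k0,k42),(k2,k42),(k4,k42),(k6,k42)],[(k3,k36),(k5,k42),(k7,k42),(k9,
    k42)],[(k6,k36),(k2,k42),(k4,k42),(k0,k48)],[(k7,k36),(k9,k36),(k3,k42),(k5,k42)],[(k0,k36),(k2,k36),(k6,k36),(k4,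
    k42)],[(k8,k30),(k10,k35),(k11,k35),(k1,k36)],[(k8,k35),(k10,k40),(k11,k40),(k1,k41)],[(k8,k35),(k10,k40),(k11,
    k40),(k1,k41)]]
    [] k0
    [[k1,k1,k0,k0,k1,k0],[k1,k0,k0,k0,k1,k1],[k0,k0,k0,k3,k0,k0]]
    [.ref k7 k1 [(z1,[z1])],.ref k8 k0 [(z1,[z1])],.ref k13 k1 [(z1,[y1,z3])]]]⟩

/-- classes `0 0 0 0 1 1`, types `C0 C0 C0 C2 B0 B1` -/
noncomputable def cT6_98 : CertT :=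
  ⟨[k4,k4,k4,k6,k24,k25],[],[[[]]],
    [.lp [k4,k4,k3,k6,k2,k4] [k1,k1,k1,k1,k2,k1,k0,k0,k2,k2,k1,k1] k0 [[k0,k0,k1],[],[k0,k0,k0,k0,k2],[k0,k1],[],[k0,k0,k0,
    k2]] k12 k5
    [[(k8,k3),(k11,k4)],[(k5,k3),(k3,k4),(k6,k5),(k7,k5)],[(k4,k3),(k9,k3),(k0,k4),(k2,k5)],[(k7,k3),(k5,k4),(k3,k5),
    (k6,k5)],[(k0,k3),(k9,k3),(k2,k4),(k4,k5)],[(k3,k3),(k6,k4),(k7,k4),(k5,k5)],[(k2,k3),(k4,k4),(k9,k4),(k0,k5)],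
    [(k4,k4),(k9,k4),(k0,k5),(k2,k5)],[(k3,k3),(k5,k3),(k6,k4),(k7,k4)],[(k1,k3),(k10,k3)],[(k1,k4),(k10,k4)],[(k8,
    k3),(k11,k4)]]
    [] k0
    []
    []]⟩

/-- classes `0 0 0 0 1 1`, types `C0 C0 C0 C2 C0 C0` -/
noncomputable def cT6_99 : CertT :=
  ⟨[k4,k4,k4,k6,k20,k20],[],[[[]]],
    [.lp [k4,k4,k3,k6,k2,k4] [k1,k1,k1,k1,k2,k1,k0,k0,k2,k2,k1,k1] k0 [[k0,k0,k1],[],[k0,k0,k0,k0,k2],[k0,k1],[],[k0,k0,k0,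
    k2]] k12 k5
    [[(k8,k3),(k10,k4)],[(k5,k3),(k3,k4),(k6,k5),(k7,k5)],[(k4,k3),(k9,k3),(k0,k4),(k2,k5)],[(k7,k3),(k5,k4),(k3,k5),
    (k6,k5)],[(k0,k3),(k9,k3),(k2,k4),(k4,k5)],[(k3,k3),(k6,k4),(k7,k4),(k5,k5)],[(k2,k3),(k4,k4),(k9,k4),(k0,k5)],
    [(k4,k4),(k9,k4),(k0,k5),(k2,k5)],[(k3,k3),(k5,k3),(k6,k4),(k7,k4)],[(k1,k3),(k11,k3)],[(k8,k3),(k10,k4)],[(k1,
    k4),(k11,k4)]]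
    [] k0
    []
    []]⟩

/-- classes `0 0 0 0 1 1`, types `C0 C0 C0 C2 C0 C2` -/
noncomputable def cT6_100 : CertT :=
  ⟨[k4,k4,k4,k6,k20,k22],[],[[[]]],
    [.lp [k4,k4,k4,k2,k4,k2] [k0,k0,k0,k0,k0,k0,k1,k1,k0,k0,k1,k1] k0 [] k12 k5
    [[(k10,k3),(k11,k3)],[(k6,k3),(k7,k3),(k3,k4),(k5,k4)],[(k0,k4),(k2,k4),(k4,k4),(k9,k4)],[(k6,k3),(k7,k3),(k3,k4),
    (k5,k4)],[(k0,k4),(k2,k4),(k4,k4),(k9,k4)],[(k6,k3),(k7,k3),(k3,k4),(k5,k4)],[(k0,k3),(k2,k3),(k4,k3),(k9,k3)],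
    [(k0,k3),(k2,k3),(k4,k3),(k9,k3)],[(k6,k3),(k7,k3),(k3,k4),(k5,k4)],[(k10,k3),(k11,k3)],[(k1,k3),(k8,k3)],[(k1,
    k3),(k8,k3)]]
    [] k0
    []
    []]⟩

/-- classes `0 0 0 0 1 1`, types `C0 C0 C0 C2 N0 N1` -/
noncomputable def cT6_101 : CertT :=
  ⟨[k4,k4,k4,k6,k28,k29],[],[[[]]],
    [.lp [k4,k4,k3,k6,k2,k4] [k1,k1,k1,k1,k2,k1,k0,k0,k2,k2,k1,k1] k0 [[k0,k0,k1],[],[k0,k0,k0,k0,k2],[k0,k1],[],[k0,k0,k0,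
    k2]] k12 k5
    [[(k8,k3)],[(k5,k3),(k3,k4),(k6,k5),(k7,k5)],[(k4,k3),(k9,k3),(k0,k4),(k2,k5)],[(k7,k3),(k5,k4),(k3,k5),(k6,k5)],
    [(k0,k3),(k9,k3),(k2,k4),(k4,k5)],[(k3,k3),(k6,k4),(k7,k4),(k5,k5)],[(k2,k3),(k4,k4),(k9,k4),(k0,k5)],[(k4,k4),
    (k9,k4),(k0,k5),(k2,k5)],[(k3,k3),(k5,k3),(k6,k4),(k7,k4)],[(k1,k3)],[(k10,k4)],[(k11,k4)]]
    [] k0
    []
    []]⟩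

/-- classes `0 0 0 0 1 1`, types `C0 C0 C0 C2 N0 N2` -/
noncomputable def cT6_102 : CertT :=
  ⟨[k4,k4,k4,k6,k28,k30],[],[[[]]],
    [.lp [k4,k4,k4,k2,k4,k2] [k0,k0,k0,k0,k0,k0,k1,k1,k0,k0,k1,k1] k0 [] k12 k5
    [[(k11,k3)],[(k6,k3),(k7,k3),(k3,k4),(k5,k4)],[(k0,k4),(k2,k4),(k4,k4),(k9,k4)],[(k6,k3),(k7,k3),(k3,k4),(k5,k4)],
    [(k0,k4),(k2,k4),(k4,k4),(k9,k4)],[(k6,k3),(k7,k3),(k3,k4),(k5,k4)],[(k0,k3),(k2,k3),(k4,k3),(k9,k3)],[(k0,k3),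
    (k2,k3),(k4,k3),(k9,k3)],[(k6,k3),(k7,k3),(k3,k4),(k5,k4)],[(k10,k3)],[(k1,k3)],[(k8,k3)]]
    [] k0
    []
    []]⟩

/-- classes `0 0 0 0 1 1`, types `C0 C0 C0 C2 S0 S0` -/
noncomputable def cT6_103 : CertT :=
  ⟨[k4,k4,k4,k6,k16,k16],[],[[[]]],
    [.lp [k12,k18,k12,k24,k12,k16] [k6,k6,k3,k3,k6,k6,k0,k0,k6,k6,k4,k4] k0 [[],[],[k0,k0,k0,k0,k6],[],[],[k0,k0,k0,
    k6]] k48 k5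
    [[(k1,k12),(k8,k12),(k10,k14),(k11,k14)],[(k5,k12),(k3,k15),(k6,k18),(k7,k18)],[(k0,k15),(k4,k15),(k9,k15),(k2,
    k18)],[(k5,k15),(k7,k15),(k3,k18),(k6,k21)],[(k0,k12),(k9,k12),(k2,k15),(k4,k18)],[(k3,k15),(k5,k18),(k6,k18),(k7,
    k18)],[(k2,k15),(k0,k18),(k4,k18),(k9,k18)],[(k0,k18),(k4,k18),(k9,k18),(k2,k21)],[(k5,k12),(k3,k15),(k6,k18),(k7,
    k18)],[(k1,k12),(k8,k12),(k10,k14),(k11,k14)],[(k1,k14),(k8,k14),(k10,k16),(k11,k16)],[(k1,k14),(k8,k14),(k10,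
    k16),(k11,k16)]]
    [] k0
    []
    []]⟩

/-- classes `0 0 0 0 1 1`, types `C0 C0 C2 C0 B0 B1` -/
noncomputable def cT6_104 : CertT :=
  ⟨[k4,k4,k6,k4,k24,k25],[(false,k0,[k0,k1,k2,k3,k4,k5])],[[[([z1,z0,z0,z0,z1,z1],z2)],[]]],
    [.leafM k4 [k4,k5,k0,k1,k2,k3] [(z1,[y1,z1])] [],
    .lp [k4,k6,k2,k4,k2,k4] [k1,k1,k0,k0,k2,k2,k1,k1,k2,k2,k1,k1] k0 [] k12 k5
    [[(k8,k3),(k11,k4)],[(k4,k3),(k5,k3),(k9,k3),(k3,k5)],[(k0,k5),(k6,k5),(k7,k5),(k2,k6)],[(k4,k4),(k5,k4),(k9,k4),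
    (k3,k6)],[(k0,k3),(k6,k3),(k7,k3),(k2,k4)],[(k0,k3),(k6,k3),(k7,k3),(k2,k4)],[(k4,k3),(k5,k3),(k9,k3),(k3,k5)],
    [(k4,k3),(k5,k3),(k9,k3),(k3,k5)],[(k0,k3),(k6,k3),(k7,k3),(k2,k4)],[(k1,k3),(k10,k3)],[(k1,k4),(k10,k4)],[(k8,
    k3),(k11,k4)]]
    [] k0
    [[k1,k0,k0,k0,k1,k1]]
    [.ref k0 k0 [(z1,[z1])]]]⟩

/-- classes `0 0 0 0 1 1`, types `C0 C0 C2 C0 C0 C0` -/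
noncomputable def cT6_105 : CertT :=
  ⟨[k4,k4,k6,k4,k20,k20],[(false,k0,[k0,k1,k2,k3,k4,k5])],[[[([z1,z0,z0,z0,z1,z1],z2)],[]]],
    [.leafM k0 [k0,k1,k2,k3,k4,k5] [(z1,[y1,z1])] [],
    .lp [k4,k6,k2,k4,k2,k4] [k1,k1,k0,k0,k2,k2,k1,k1,k2,k2,k1,k1] k0 [] k12 k5
    [[(k8,k3),(k10,k4)],[(k4,k3),(k5,k3),(k9,k3),(k3,k5)],[(k0,k5),(k6,k5),(k7,k5),(k2,k6)],[(k4,k4),(k5,k4),(k9,k4),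
    (k3,k6)],[(k0,k3),(k6,k3),(k7,k3),(k2,k4)],[(k0,k3),(k6,k3),(k7,k3),(k2,k4)],[(k4,k3),(k5,k3),(k9,k3),(k3,k5)],
    [(k4,k3),(k5,k3),(k9,k3),(k3,k5)],[(k0,k3),(k6,k3),(k7,k3),(k2,k4)],[(k1,k3),(k11,k3)],[(k8,k3),(k10,k4)],[(k1,
    k4),(k11,k4)]]
    [] k0
    [[k1,k0,k0,k0,k1,k1]]
    [.ref k0 k0 [(z1,[z1])]]]⟩

/-- classes `0 0 0 0 1 1`, types `C0 C0 C2 C0 C0 C2` -/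
noncomputable def cT6_106 : CertT :=
  ⟨[k4,k4,k6,k4,k20,k22],[(false,k0,[k0,k1,k2,k3,k4,k5])],[[[([z1,z0,z0,z0,z1,z1],z2)],[]]],
    [.leafM k0 [k0,k1,k2,k3,k4,k5] [(z1,[y1,z1])] [],
    .lp [k2,k4,k2,k2,k2,k2] [k1,k1,k0,k0,k1,k1,k1,k1,k1,k1,k1,k1] k0 [] k8 k5
    [[(k10,k2),(k11,k2)],[(k4,k2),(k5,k2),(k9,k2),(k3,k3)],[(k0,k3),(k6,k3),(k7,k3),(k2,k4)],[(k4,k3),(k5,k3),(k9,k3),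
    (k3,k4)],[(k0,k2),(k6,k2),(k7,k2),(k2,k3)],[(k0,k2),(k6,k2),(k7,k2),(k2,k3)],[(k4,k2),(k5,k2),(k9,k2),(k3,k3)],
    [(k4,k2),(k5,k2),(k9,k2),(k3,k3)],[(k0,k2),(k6,k2),(k7,k2),(k2,k3)],[(k10,k2),(k11,k2)],[(k1,k2),(k8,k2)],[(k1,
    k2),(k8,k2)]]
    [] k0
    [[k1,k0,k0,k0,k1,k1]]
    [.ref k0 k0 [(z1,[z1])]]]⟩

/-- classes `0 0 0 0 1 1`, types `C0 C0 C2 C0 N0 N1` -/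
noncomputable def cT6_107 : CertT :=
  ⟨[k4,k4,k6,k4,k28,k29],[],[[[]]],
    [.lp [k6,k6,k0,k6,k0,k4] [k0,k0,k0,k0,k3,k3,k0,k0,k3,k3,k1,k1] k0 [] k12 k5
    [[(k8,k3)],[(k4,k3),(k5,k3),(k9,k3),(k3,k6)],[(k0,k6),(k2,k6),(k6,k6),(k7,k6)],[(k4,k3),(k5,k3),(k9,k3),(k3,k6)],
    [(k0,k3),(k2,k3),(k6,k3),(k7,k3)],[(k0,k3),(k2,k3),(k6,k3),(k7,k3)],[(k4,k3),(k5,k3),(k9,k3),(k3,k6)],[(k4,k3),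
    (k5,k3),(k9,k3),(k3,k6)],[(k0,k3),(k2,k3),(k6,k3),(k7,k3)],[(k1,k3)],[(k10,k4)],[(k11,k4)]]
    [] k0
    []
    []]⟩

/-- classes `0 0 0 0 1 1`, types `C0 C0 C2 C0 N0 N2` -/
noncomputable def cT6_108 : CertT :=
  ⟨[k4,k4,k6,k4,k28,k30],[(false,k0,[k0,k1,k2,k3,k4,k5])],[[[([z1,z0,z0,z0,z1,z1],z2)],[]]],
    [.leafM k4 [k4,k5,k0,k1,k2,k3] [(z1,[y1,z1])] [],
    .lp [k2,k4,k2,k2,k2,k2] [k1,k1,k0,k0,k1,k1,k1,k1,k1,k1,k1,k1] k0 [] k8 k5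
    [[(k11,k2)],[(k4,k2),(k5,k2),(k9,k2),(k3,k3)],[(k0,k3),(k6,k3),(k7,k3),(k2,k4)],[(k4,k3),(k5,k3),(k9,k3),(k3,k4)],
    [(k0,k2),(k6,k2),(k7,k2),(k2,k3)],[(k0,k2),(k6,k2),(k7,k2),(k2,k3)],[(k4,k2),(k5,k2),(k9,k2),(k3,k3)],[(k4,k2),
    (k5,k2),(k9,k2),(k3,k3)],[(k0,k2),(k6,k2),(k7,k2),(k2,k3)],[(k10,k2)],[(k1,k2)],[(k8,k2)]]
    [] k0
    [[k1,k0,k0,k0,k1,k1]]
    [.ref k0 k0 [(z1,[z1])]]]⟩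

/-- classes `0 0 0 0 1 1`, types `C0 C0 C2 C0 S0 S0` -/
noncomputable def cT6_109 : CertT :=
  ⟨[k4,k4,k6,k4,k16,k16],[(false,k0,[k0,k1,k2,k3,k4,k5])],[[[([z1,z0,z0,z0,z1,z1],z2)],[]]],
    [.leafM k0 [k0,k1,k2,k3,k4,k5] [(z1,[y1,z1])] [],
    .lp [k10,k8,k4,k8,k8,k8] [k0,k0,k1,k1,k3,k3,k1,k1,k1,k1,k1,k1] k0 [] k24 k5
    [[(k8,k9),(k10,k9),(k11,k9),(k1,k10)],[(k4,k7),(k5,k7),(k3,k9),(k9,k9)],[(k2,k8),(k6,k8),(k7,k8),(k0,k9)],[(k4,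
    k6),(k5,k6),(k3,k8),(k9,k8)],[(k2,k6),(k6,k6),(k7,k6),(k0,k7)],[(k2,k6),(k6,k6),(k7,k6),(k0,k7)],[(k4,k6),(k5,k6),
    (k3,k8),(k9,k8)],[(k4,k6),(k5,k6),(k3,k8),(k9,k8)],[(k2,k8),(k6,k8),(k7,k8),(k0,k9)],[(k8,k8),(k10,k8),(k11,k8),
    (k1,k9)],[(k8,k8),(k10,k8),(k11,k8),(k1,k9)],[(k8,k8),(k10,k8),(k11,k8),(k1,k9)]]
    [] k0
    [[k0,k1,k1,k1,k0,k0]]
    [.ref k0 k0 [(z1,[y1,z1])]]]⟩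

/-- classes `0 0 0 0 1 1`, types `C0 C0 C2 C2 B0 B1` -/
noncomputable def cT6_110 : CertT :=
  ⟨[k4,k4,k6,k6,k24,k25],[(false,k0,[k0,k1,k2,k3,k4,k5]),(true,k4,[k4,k3,k2,k1,k0,k5])],[[[([z1,z0,z1,z0,z1,z0],z2),
    ([z0,z3,z0,z0,z0,z0],z2),([z0,z0,z0,z3,z0,z0],z2)],[([z1,z0,z1,z0,z1,z0],z2),([z0,z1,z0,z0,z0,y1],z0)],[([z1,z0,
    z1,z0,z1,z0],z2),([z0,z3,z0,z0,z0,z0],z2)],[([z1,z0,z1,z0,z1,z0],z2)],[]]],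
    [.leafM k2 [k0,k1,k2,k3,k4,k5] [(z1,[z0,z1]),(z1,[z0,z0,z1]),(z1,[y3,y1,y1,z3])] [],
    .lp [k24,k18,k12,k12,k12,k16] [k0,k0,k3,k3,k6,k6,k6,k6,k6,k6,k4,k4] k0 [] k48 k5
    [[(k8,k18),(k11,k20)],[(k4,k18),(k5,k18),(k6,k18),(k3,k21)],[(k7,k15),(k9,k15),(k2,k18),(k0,k21)],[(k4,k15),(k5,
    k15),(k6,k15),(k3,k18)],[(k7,k12),(k9,k12),(k2,k15),(k0,k18)],[(k7,k12),(k9,k12),(k2,k15),(k0,k18)],[(k4,k12),(k5,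
    k12),(k6,k12),(k3,k15)],[(k7,k12),(k9,k12),(k2,k15),(k0,k18)],[(k4,k12),(k5,k12),(k6,k12),(k3,k15)],[(k10,k14),
    (k1,k18)],[(k10,k16),(k1,k20)],[(k8,k14),(k11,k16)]]
    [] k0
    [[k0,k1,k0,k2,k0,k0],[k0,k0,k0,k3,k0,k0]]
    [.ref k0 k0 [(z1,[z0,z1]),(z1,[y1,y2,z2,z2]),(z1,[z2,z1,y1,y1])],.ref k0 k0 [(z1,[z0,z1]),(z2,[y1,y3,z3,z3]),(z1,
    [z1])]],
    .lp [k24,k18,k12,k12,k12,k16] [k0,k0,k3,k3,k6,k6,k6,k6,k6,k6,k4,k4] k0 [] k48 k5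
    [[(k8,k18),(k11,k20)],[(k4,k18),(k5,k18),(k6,k18),(k3,k21)],[(k7,k15),(k9,k15),(k2,k18),(k0,k21)],[(k4,k15),(k5,
    k15),(k6,k15),(k3,k18)],[(k7,k12),(k9,k12),(k2,k15),(k0,k18)],[(k7,k12),(k9,k12),(k2,k15),(k0,k18)],[(k4,k12),(k5,
    k12),(k6,k12),(k3,k15)],[(k7,k12),(k9,k12),(k2,k15),(k0,k18)],[(k4,k12),(k5,k12),(k6,k12),(k3,k15)],[(k10,k14),
    (k1,k18)],[(k10,k16),(k1,k20)],[(k8,k14),(k11,k16)]]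
    [] k0
    [[k0,k1,k0,k2,k0,k0],[k0,k0,k0,k3,k0,k0]]
    [.ref k0 k0 [(z1,[z0,z1]),(z1,[z0,z0,z1]),(z2,[z3,z0,y1])],.ref k0 k0 [(z1,[z0,z1]),(z1,[z0,z0,z1]),(z1,[z1])]],
    .lp [k24,k18,k12,k12,k12,k16] [k0,k0,k3,k3,k6,k6,k6,k6,k6,k6,k4,k4] k0 [] k48 k5
    [[(k8,k18),(k11,k20)],[(k4,k18),(k5,k18),(k6,k18),(k3,k21)],[(k7,k15),(k9,k15),(k2,k18),(k0,k21)],[(k4,k15),(k5,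
    k15),(k6,k15),(k3,k18)],[(k7,k12),(k9,k12),(k2,k15),(k0,k18)],[(k7,k12),(k9,k12),(k2,k15),(k0,k18)],[(k4,k12),(k5,
    k12),(k6,k12),(k3,k15)],[(k7,k12),(k9,k12),(k2,k15),(k0,k18)],[(k4,k12),(k5,k12),(k6,k12),(k3,k15)],[(k10,k14),
    (k1,k18)],[(k10,k16),(k1,k20)],[(k8,k14),(k11,k16)]]
    [] k0
    [[k0,k1,k0,k2,k0,k0],[k0,k0,k0,k3,k0,k0]]
    [.ref k1 k1 [(z1,[z0,z1]),(z1,[z1,z1,y1])],.ref k2 k1 [(z1,[z0,z1]),(z1,[z1])]],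
    .lp [k6,k8,k6,k8,k6,k8] [k1,k1,k0,k0,k1,k1,k0,k0,k1,k1,k0,k0] k0 [] k24 k5
    [[(k8,k6),(k11,k7)],[(k4,k6),(k5,k6),(k3,k7),(k6,k7)],[(k0,k7),(k9,k7),(k2,k8),(k7,k8)],[(k4,k7),(k5,k7),(k3,k8),
    (k6,k8)],[(k0,k6),(k9,k6),(k2,k7),(k7,k7)],[(k0,k6),(k9,k6),(k2,k7),(k7,k7)],[(k4,k7),(k5,k7),(k3,k8),(k6,k8)],
    [(k0,k7),(k9,k7),(k2,k8),(k7,k8)],[(k4,k6),(k5,k6),(k3,k7),(k6,k7)],[(k1,k6),(k10,k7)],[(k1,k7),(k10,k8)],[(k8,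
    k7),(k11,k8)]]
    [] k0
    [[k1,k0,k1,k0,k1,k0]]
    [.ref k3 k0 [(z1,[z1])]]]⟩

/-- classes `0 0 0 0 1 1`, types `C0 C0 C2 C2 C0 C0` -/
noncomputable def cT6_111 : CertT :=
  ⟨[k4,k4,k6,k6,k20,k20],[(false,k0,[k0,k1,k2,k3,k4,k5]),(true,k4,[k4,k3,k2,k1,k0,k5])],[[[([z1,z0,z1,z0,z1,z0],z2),
    ([z0,z3,z0,z0,z0,z0],z2),([z0,z0,z0,z3,z0,z0],z2)],[([z3,z0,z3,z3,z3,z0],z8),([z0,z3,z0,z0,z0,z0],z2)],[([z3,z0,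
    z3,y3,z3,z0],z4),([z0,z1,z0,z2,z0,z0],z2)],[([z3,z3,z3,z3,z3,z0],z10)],[]]],
    [.leafM k2 [k0,k1,k2,k3,k4,k5] [(z1,[z0,z1]),(z1,[z0,z0,z1]),(z1,[y3,y1,y1,z3])] [],
    .lp [k24,k18,k12,k12,k12,k16] [k0,k0,k3,k3,k6,k6,k6,k6,k6,k6,k4,k4] k0 [] k48 k5
    [[(k8,k18),(k10,k20)],[(k4,k18),(k5,k18),(k6,k18),(k3,k21)],[(k7,k15),(k9,k15),(k2,k18),(k0,k21)],[(k4,k15),(k5,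
    k15),(k6,k15),(k3,k18)],[(k7,k12),(k9,k12),(k2,k15),(k0,k18)],[(k7,k12),(k9,k12),(k2,k15),(k0,k18)],[(k4,k12),(k5,
    k12),(k6,k12),(k3,k15)],[(k7,k12),(k9,k12),(k2,k15),(k0,k18)],[(k4,k12),(k5,k12),(k6,k12),(k3,k15)],[(k11,k14),
    (k1,k18)],[(k8,k14),(k10,k16)],[(k11,k16),(k1,k20)]]
    [] k0
    [[k0,k1,k0,k2,k0,k0],[k0,k0,k0,k3,k0,k0]]
    [.ref k0 k0 [(z6,[y3,z2,z1]),(z1,[z0,z0,z1]),(z2,[z3,z0,y1])],.ref k0 k0 [(z3,[y1,z1]),(z1,[z0,z0,z1]),(z1,[z1])]],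
    .lp [k24,k12,k12,k18,k12,k16] [k0,k0,k6,k6,k6,k6,k3,k3,k6,k6,k4,k4] k0 [] k48 k5
    [[(k8,k18),(k10,k20)],[(k3,k18),(k4,k18),(k5,k18),(k6,k21)],[(k2,k12),(k9,k12),(k7,k15),(k0,k18)],[(k3,k12),(k4,
    k12),(k5,k12),(k6,k15)],[(k2,k12),(k9,k12),(k7,k15),(k0,k18)],[(k2,k12),(k9,k12),(k7,k15),(k0,k18)],[(k3,k15),(k4,
    k15),(k5,k15),(k6,k18)],[(k2,k15),(k9,k15),(k7,k18),(k0,k21)],[(k3,k12),(k4,k12),(k5,k12),(k6,k15)],[(k11,k14),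
    (k1,k18)],[(k8,k14),(k10,k16)],[(k11,k16),(k1,k20)]]
    [] k0
    [[k0,k3,k0,k0,k0,k0],[k0,k2,k0,k1,k0,k0]]
    [.ref k0 k0 [(z6,[y1,z2,z3]),(z1,[z1]),(z2,[y1,z0,z3])],.ref k0 k0 [(z3,[y1,z1,z2]),(z1,[z2,z0,y1]),(z1,[y1,z0,
    z2])]],
    .lp [k24,k12,k12,k18,k12,k16] [k0,k0,k6,k6,k6,k6,k3,k3,k6,k6,k4,k4] k0 [] k48 k5
    [[(k8,k18),(k10,k20)],[(k3,k18),(k4,k18),(k5,k18),(k6,k21)],[(k2,k12),(k9,k12),(k7,k15),(k0,k18)],[(k3,k12),(k4,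
    k12),(k5,k12),(k6,k15)],[(k2,k12),(k9,k12),(k7,k15),(k0,k18)],[(k2,k12),(k9,k12),(k7,k15),(k0,k18)],[(k3,k15),(k4,
    k15),(k5,k15),(k6,k18)],[(k2,k15),(k9,k15),(k7,k18),(k0,k21)],[(k3,k12),(k4,k12),(k5,k12),(k6,k15)],[(k11,k14),
    (k1,k18)],[(k8,k14),(k10,k16)],[(k11,k16),(k1,k20)]]
    [] k0
    [[k0,k3,k0,k0,k0,k0],[k0,k2,k0,k1,k0,k0]]
    [.ref k1 k0 [(z1,[y1,z1]),(z1,[z1])],.ref k2 k1 [(z1,[y3,z1]),(z1,[z1])]],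
    .lp [k12,k8,k4,k8,k8,k6] [k0,k0,k2,k2,k4,k4,k2,k2,k2,k2,k3,k3] k0 [] k24 k5
    [[(k10,k9),(k8,k10)],[(k4,k8),(k5,k8),(k3,k10),(k6,k10)],[(k2,k8),(k7,k8),(k9,k8),(k0,k10)],[(k4,k6),(k5,k6),(k3,
    k8),(k6,k8)],[(k2,k6),(k7,k6),(k9,k6),(k0,k8)],[(k2,k6),(k7,k6),(k9,k6),(k0,k8)],[(k4,k6),(k5,k6),(k3,k8),(k6,
    k8)],[(k2,k8),(k7,k8),(k9,k8),(k0,k10)],[(k4,k6),(k5,k6),(k3,k8),(k6,k8)],[(k11,k7),(k1,k10)],[(k10,k6),(k8,k7)],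
    [(k11,k6),(k1,k9)]]
    [] k0
    [[k0,k0,k0,k0,k0,k3]]
    [.ref k3 k0 [(z1,[y1,z3])]]]⟩

/-- classes `0 0 0 0 1 1`, types `C0 C0 C2 C2 C0 C2` -/
noncomputable def cT6_112 : CertT :=
  ⟨[k4,k4,k6,k6,k20,k22],[],[[[]]],
    [.lp [k4,k4,k2,k4,k4,k2] [k0,k0,k0,k0,k1,k1,k0,k0,k0,k0,k1,k1] k0 [] k12 k5
    [[(k10,k3),(k11,k3)],[(k4,k3),(k5,k3),(k3,k4),(k6,k4)],[(k0,k4),(k2,k4),(k7,k4),(k9,k4)],[(k4,k3),(k5,k3),(k3,k4),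
    (k6,k4)],[(k0,k3),(k2,k3),(k7,k3),(k9,k3)],[(k0,k3),(k2,k3),(k7,k3),(k9,k3)],[(k4,k3),(k5,k3),(k3,k4),(k6,k4)],
    [(k0,k4),(k2,k4),(k7,k4),(k9,k4)],[(k4,k3),(k5,k3),(k3,k4),(k6,k4)],[(k10,k3),(k11,k3)],[(k1,k3),(k8,k3)],[(k1,
    k3),(k8,k3)]]
    [] k0
    []
    []]⟩

/-- classes `0 0 0 0 1 1`, types `C0 C0 C2 C2 N0 N1` -/
noncomputable def cT6_113 : CertT :=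
  ⟨[k4,k4,k6,k6,k28,k29],[(false,k0,[k0,k1,k2,k3,k4,k5]),(true,k4,[k4,k3,k2,k1,k0,k5])],[[[([z1,z0,z1,z0,z1,z0],z2),
    ([z0,z3,z0,z0,z0,z0],z2),([z0,z0,z0,z3,z0,z0],z2)],[([z3,z0,z3,z3,z3,z0],z8),([z0,z3,z0,z0,z0,z0],z2)],[([z3,z0,
    z3,y3,z3,z0],z4),([z0,z1,z0,z2,z0,z0],z2)],[([z3,z3,z3,z3,z3,z0],z10)],[]]],
    [.leafM k2 [k0,k1,k2,k3,k4,k5] [(z1,[z0,z1]),(z1,[z0,z0,z1]),(z1,[y3,y1,y1,z3])] [],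
    .lp [k24,k18,k12,k12,k12,k16] [k0,k0,k3,k3,k6,k6,k6,k6,k6,k6,k4,k4] k0 [] k48 k5
    [[(k8,k18)],[(k4,k18),(k5,k18),(k6,k18),(k3,k21)],[(k7,k15),(k9,k15),(k2,k18),(k0,k21)],[(k4,k15),(k5,k15),(k6,
    k15),(k3,k18)],[(k7,k12),(k9,k12),(k2,k15),(k0,k18)],[(k7,k12),(k9,k12),(k2,k15),(k0,k18)],[(k4,k12),(k5,k12),(k6,
    k12),(k3,k15)],[(k7,k12),(k9,k12),(k2,k15),(k0,k18)],[(k4,k12),(k5,k12),(k6,k12),(k3,k15)],[(k1,k18)],[(k10,k16)],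
    [(k11,k16)]]
    [] k0
    [[k0,k1,k0,k2,k0,k0],[k0,k0,k0,k3,k0,k0]]
    [.ref k0 k0 [(z6,[y3,z2,z1]),(z1,[z0,z0,z1]),(z2,[z3,z0,y1])],.ref k0 k0 [(z3,[y1,z1]),(z1,[z0,z0,z1]),(z1,[z1])]],
    .lp [k24,k12,k12,k18,k12,k16] [k0,k0,k6,k6,k6,k6,k3,k3,k6,k6,k4,k4] k0 [] k48 k5
    [[(k8,k18)],[(k3,k18),(k4,k18),(k5,k18),(k6,k21)],[(k2,k12),(k9,k12),(k7,k15),(k0,k18)],[(k3,k12),(k4,k12),(k5,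
    k12),(k6,k15)],[(k2,k12),(k9,k12),(k7,k15),(k0,k18)],[(k2,k12),(k9,k12),(k7,k15),(k0,k18)],[(k3,k15),(k4,k15),(k5,
    k15),(k6,k18)],[(k2,k15),(k9,k15),(k7,k18),(k0,k21)],[(k3,k12),(k4,k12),(k5,k12),(k6,k15)],[(k1,k18)],[(k10,k16)],
    [(k11,k16)]]
    [] k0
    [[k0,k3,k0,k0,k0,k0],[k0,k2,k0,k1,k0,k0]]
    [.ref k0 k0 [(z6,[y1,z2,z3]),(z1,[z1]),(z2,[y1,z0,z3])],.ref k0 k0 [(z3,[y1,z1,z2]),(z1,[z2,z0,y1]),(z1,[y1,z0,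
    z2])]],
    .lp [k24,k12,k12,k18,k12,k16] [k0,k0,k6,k6,k6,k6,k3,k3,k6,k6,k4,k4] k0 [] k48 k5
    [[(k8,k18)],[(k3,k18),(k4,k18),(k5,k18),(k6,k21)],[(k2,k12),(k9,k12),(k7,k15),(k0,k18)],[(k3,k12),(k4,k12),(k5,
    k12),(k6,k15)],[(k2,k12),(k9,k12),(k7,k15),(k0,k18)],[(k2,k12),(k9,k12),(k7,k15),(k0,k18)],[(k3,k15),(k4,k15),(k5,
    k15),(k6,k18)],[(k2,k15),(k9,k15),(k7,k18),(k0,k21)],[(k3,k12),(k4,k12),(k5,k12),(k6,k15)],[(k1,k18)],[(k10,k16)],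
    [(k11,k16)]]
    [] k0
    [[k0,k3,k0,k0,k0,k0],[k0,k2,k0,k1,k0,k0]]
    [.ref k1 k0 [(z1,[y1,z1]),(z1,[z1])],.ref k2 k1 [(z1,[y3,z1]),(z1,[z1])]],
    .lp [k12,k8,k4,k8,k8,k6] [k0,k0,k2,k2,k4,k4,k2,k2,k2,k2,k3,k3] k0 [] k24 k5
    [[(k8,k10)],[(k4,k8),(k5,k8),(k3,k10),(k6,k10)],[(k2,k8),(k7,k8),(k9,k8),(k0,k10)],[(k4,k6),(k5,k6),(k3,k8),(k6,
    k8)],[(k2,k6),(k7,k6),(k9,k6),(k0,k8)],[(k2,k6),(k7,k6),(k9,k6),(k0,k8)],[(k4,k6),(k5,k6),(k3,k8),(k6,k8)],[(k2,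
    k8),(k7,k8),(k9,k8),(k0,k10)],[(k4,k6),(k5,k6),(k3,k8),(k6,k8)],[(k1,k10)],[(k10,k6)],[(k11,k6)]]
    [] k0
    [[k0,k0,k0,k0,k0,k3]]
    [.ref k3 k0 [(z1,[y1,z3])]]]⟩

/-- classes `0 0 0 0 1 1`, types `C0 C0 C2 C2 N0 N2` -/
noncomputable def cT6_114 : CertT :=
  ⟨[k4,k4,k6,k6,k28,k30],[],[[[]]],
    [.lp [k4,k4,k2,k4,k4,k2] [k0,k0,k0,k0,k1,k1,k0,k0,k0,k0,k1,k1] k0 [] k12 k5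
    [[(k11,k3)],[(k4,k3),(k5,k3),(k3,k4),(k6,k4)],[(k0,k4),(k2,k4),(k7,k4),(k9,k4)],[(k4,k3),(k5,k3),(k3,k4),(k6,k4)],
    [(k0,k3),(k2,k3),(k7,k3),(k9,k3)],[(k0,k3),(k2,k3),(k7,k3),(k9,k3)],[(k4,k3),(k5,k3),(k3,k4),(k6,k4)],[(k0,k4),
    (k2,k4),(k7,k4),(k9,k4)],[(k4,k3),(k5,k3),(k3,k4),(k6,k4)],[(k10,k3)],[(k1,k3)],[(k8,k3)]]
    [] k0
    []
    []]⟩

/-- classes `0 0 0 0 1 1`, types `C0 C0 C2 C2 S0 S0` -/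
noncomputable def cT6_115 : CertT :=
  ⟨[k4,k4,k6,k6,k16,k16],[(false,k0,[k0,k1,k2,k3,k4,k5]),(true,k4,[k4,k3,k2,k1,k0,k5])],[[[([z1,z0,z1,z0,z1,z0],z2),
    ([z0,z3,z0,z0,z0,z0],z2),([z0,z0,z0,z3,z0,z0],z2)],[([z3,z0,z3,z0,z3,z3],z8),([z0,z3,z0,z0,z0,z0],z2)],[([z1,z0,
    z1,y1,z1,z1],z2)],[([z3,z0,z3,z3,z3,z3],z10)],[]]],
    [.leafM k2 [k0,k1,k2,k3,k4,k5] [(z1,[z0,z1]),(z1,[z0,z0,z1]),(z1,[y3,y1,y1,z3])] [],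
    .lp [k20,k16,k8,k16,k20,k14] [k0,k0,k2,k2,k6,k6,k2,k2,k0,k0,k3,k3] k0 [[],[],[],[],[],[],[],[],[k0,k0,k0,k0,k0,k0,k0,
    k0,k0,k0,k6],[],[],[k0,k0,k0,k0,k0,k0,k0,k0,k0,k6]] k48 k5
    [[(k8,k14),(k10,k17),(k11,k17),(k1,k20)],[(k4,k14),(k5,k14),(k3,k18),(k6,k18)],[(k2,k16),(k7,k16),(k0,k18),(k9,
    k18)],[(k4,k12),(k5,k12),(k3,k16),(k6,k16)],[(k2,k12),(k7,k12),(k0,k14),(k9,k14)],[(k2,k12),(k7,k12),(k0,k14),(k9,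
    k14)],[(k4,k12),(k5,k12),(k3,k16),(k6,k16)],[(k2,k16),(k7,k16),(k0,k18),(k9,k18)],[(k4,k14),(k5,k14),(k3,k18),(k6,
    k18)],[(k1,k14),(k10,k17),(k11,k17),(k8,k20)],[(k11,k14),(k1,k17),(k8,k17),(k10,k20)],[(k10,k14),(k1,k17),(k8,
    k17),(k11,k20)]]
    [] k0
    [[k1,k0,k1,k0,k1,k0]]
    [.ref k0 k0 [(z1,[z1]),(z1,[z0,z0,z1]),(z1,[z0,y1,y1,z3])]],
    .lp [k18,k12,k12,k18,k18,k16] [k0,k0,k3,k3,k3,k3,k0,k0,k0,k0,k1,k1] k0 [] k48 k5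
    [[(k10,k17),(k11,k17),(k1,k18),(k8,k18)],[(k3,k15),(k4,k15),(k5,k15),(k6,k18)],[(k2,k12),(k0,k15),(k7,k15),(k9,
    k15)],[(k3,k12),(k4,k12),(k5,k12),(k6,k15)],[(k2,k12),(k0,k15),(k7,k15),(k9,k15)],[(k2,k12),(k0,k15),(k7,k15),(k9,
    k15)],[(k3,k15),(k4,k15),(k5,k15),(k6,k18)],[(k2,k15),(k0,k18),(k7,k18),(k9,k18)],[(k3,k15),(k4,k15),(k5,k15),(k6,
    k18)],[(k10,k17),(k11,k17),(k1,k18),(k8,k18)],[(k10,k16),(k11,k16),(k1,k17),(k8,k17)],[(k10,k16),(k11,k16),(k1,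
    k17),(k8,k17)]]
    [] k0
    [[k0,k3,k0,k0,k0,k0],[k0,k2,k0,k1,k0,k0]]
    [.ref k1 k0 [(z2,[y1,z3,z3]),(z1,[z1])],.ref k1 k0 [(z1,[y1,z1,z2]),(z1,[z2,z1,y1])]],
    .lp [k18,k18,k12,k12,k18,k16] [k0,k0,k0,k0,k3,k3,k3,k3,k0,k0,k1,k1] k0 [] k48 k5
    [[(k10,k17),(k11,k17),(k1,k18),(k8,k18)],[(k4,k15),(k5,k15),(k6,k15),(k3,k18)],[(k7,k15),(k0,k18),(k2,k18),(k9,
    k18)],[(k4,k15),(k5,k15),(k6,k15),(k3,k18)],[(k7,k12),(k0,k15),(k2,k15),(k9,k15)],[(k7,k12),(k0,k15),(k2,k15),(k9,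
    k15)],[(k4,k12),(k5,k12),(k6,k12),(k3,k15)],[(k7,k12),(k0,k15),(k2,k15),(k9,k15)],[(k4,k15),(k5,k15),(k6,k15),(k3,
    k18)],[(k10,k17),(k11,k17),(k1,k18),(k8,k18)],[(k10,k16),(k11,k16),(k1,k17),(k8,k17)],[(k10,k16),(k11,k16),(k1,
    k17),(k8,k17)]]
    [] k0
    [[k0,k1,k0,k2,k0,k0],[k0,k0,k0,k3,k0,k0]]
    [.ref k1 k0 [(z2,[y3,z1,z3]),(z1,[z0,y1,z3])],.ref k1 k0 [(z1,[y1,z1]),(z1,[z0,y1,z3])]],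
    .lp [k18,k18,k12,k12,k18,k16] [k0,k0,k0,k0,k3,k3,k3,k3,k0,k0,k1,k1] k0 [] k48 k5
    [[(k10,k17),(k11,k17),(k1,k18),(k8,k18)],[(k4,k15),(k5,k15),(k6,k15),(k3,k18)],[(k7,k15),(k0,k18),(k2,k18),(k9,
    k18)],[(k4,k15),(k5,k15),(k6,k15),(k3,k18)],[(k7,k12),(k0,k15),(k2,k15),(k9,k15)],[(k7,k12),(k0,k15),(k2,k15),(k9,
    k15)],[(k4,k12),(k5,k12),(k6,k12),(k3,k15)],[(k7,k12),(k0,k15),(k2,k15),(k9,k15)],[(k4,k15),(k5,k15),(k6,k15),(k3,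
    k18)],[(k10,k17),(k11,k17),(k1,k18),(k8,k18)],[(k10,k16),(k11,k16),(k1,k17),(k8,k17)],[(k10,k16),(k11,k16),(k1,
    k17),(k8,k17)]]
    [] k0
    [[k0,k1,k0,k2,k0,k0],[k0,k0,k0,k3,k0,k0]]
    [.ref k2 k0 [(z1,[y1,z1])],.ref k3 k1 [(z1,[y1,z3])]]]⟩

/-- classes `0 0 0 0 1 1`, types `C0 C2 C0 C2 B0 B1` -/
noncomputable def cT6_116 : CertT :=
  ⟨[k4,k6,k4,k6,k24,k25],[],[[[]]],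
    [.lp [k6,k4,k2,k4,k2,k4] [k0,k0,k1,k1,k2,k2,k1,k1,k2,k2,k1,k1] k0 [] k12 k5
    [[(k8,k4),(k11,k5)],[(k2,k5),(k3,k5),(k6,k5),(k7,k5)],[(k4,k3),(k5,k3),(k9,k3),(k0,k5)],[(k4,k3),(k5,k3),(k9,k3),
    (k0,k5)],[(k2,k3),(k3,k3),(k6,k3),(k7,k3)],[(k2,k3),(k3,k3),(k6,k3),(k7,k3)],[(k4,k3),(k5,k3),(k9,k3),(k0,k5)],
    [(k4,k3),(k5,k3),(k9,k3),(k0,k5)],[(k2,k3),(k3,k3),(k6,k3),(k7,k3)],[(k10,k3),(k1,k4)],[(k10,k4),(k1,k5)],[(k8,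
    k3),(k11,k4)]]
    [] k0
    []
    []]⟩

/-- classes `0 0 0 0 1 1`, types `C0 C2 C0 C2 C0 C0` -/
noncomputable def cT6_117 : CertT :=
  ⟨[k4,k6,k4,k6,k20,k20],[],[[[]]],
    [.lp [k4,k6,k0,k6,k2,k4] [k1,k1,k0,k0,k3,k3,k0,k0,k2,k2,k1,k1] k0 [] k12 k5
    [[(k8,k3),(k10,k4)],[(k2,k5),(k3,k5),(k6,k5),(k7,k5)],[(k4,k3),(k5,k3),(k9,k4),(k0,k5)],[(k4,k3),(k5,k3),(k9,k4),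
    (k0,k5)],[(k2,k3),(k3,k3),(k6,k3),(k7,k3)],[(k2,k3),(k3,k3),(k6,k3),(k7,k3)],[(k4,k3),(k5,k3),(k9,k4),(k0,k5)],
    [(k4,k3),(k5,k3),(k9,k4),(k0,k5)],[(k2,k4),(k3,k4),(k6,k4),(k7,k4)],[(k1,k3),(k11,k3)],[(k8,k3),(k10,k4)],[(k1,
    k4),(k11,k4)]]
    [] k0
    []
    []]⟩

/-- classes `0 0 0 0 1 1`, types `C0 C2 C0 C2 C0 C2` -/
noncomputable def cT6_118 : CertT :=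
  ⟨[k4,k6,k4,k6,k20,k22],[],[[[]]],
    [.lp [k0,k2,k0,k2,k0,k2] [k1,k1,k0,k0,k1,k1,k0,k0,k1,k1,k0,k0] k0 [] k4 k5
    [[(k10,k1),(k11,k1)],[(k2,k1),(k3,k1),(k6,k1),(k7,k1)],[(k0,k1),(k4,k1),(k5,k1),(k9,k1)],[(k0,k1),(k4,k1),(k5,k1),
    (k9,k1)],[(k2,k1),(k3,k1),(k6,k1),(k7,k1)],[(k2,k1),(k3,k1),(k6,k1),(k7,k1)],[(k0,k1),(k4,k1),(k5,k1),(k9,k1)],
    [(k0,k1),(k4,k1),(k5,k1),(k9,k1)],[(k2,k1),(k3,k1),(k6,k1),(k7,k1)],[(k10,k1),(k11,k1)],[(k1,k1),(k8,k1)],[(k1,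
    k1),(k8,k1)]]
    [] k0
    []
    []]⟩

/-- classes `0 0 0 0 1 1`, types `C0 C2 C0 C2 N0 N1` -/
noncomputable def cT6_119 : CertT :=
  ⟨[k4,k6,k4,k6,k28,k29],[],[[[]]],
    [.lp [k6,k6,k0,k6,k0,k4] [k0,k0,k0,k0,k3,k3,k0,k0,k3,k3,k1,k1] k0 [] k12 k5
    [[(k8,k3)],[(k2,k6),(k3,k6),(k6,k6),(k7,k6)],[(k4,k3),(k5,k3),(k9,k3),(k0,k6)],[(k4,k3),(k5,k3),(k9,k3),(k0,k6)],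
    [(k2,k3),(k3,k3),(k6,k3),(k7,k3)],[(k2,k3),(k3,k3),(k6,k3),(k7,k3)],[(k4,k3),(k5,k3),(k9,k3),(k0,k6)],[(k4,k3),
    (k5,k3),(k9,k3),(k0,k6)],[(k2,k3),(k3,k3),(k6,k3),(k7,k3)],[(k1,k3)],[(k10,k4)],[(k11,k4)]]
    [] k0
    []
    []]⟩

/-- classes `0 0 0 0 1 1`, types `C0 C2 C0 C2 N0 N2` -/
noncomputable def cT6_120 : CertT :=
  ⟨[k4,k6,k4,k6,k28,k30],[],[[[]]],
    [.lp [k0,k2,k0,k2,k0,k2] [k1,k1,k0,k0,k1,k1,k0,k0,k1,k1,k0,k0] k0 [] k4 k5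
    [[(k11,k1)],[(k2,k1),(k3,k1),(k6,k1),(k7,k1)],[(k0,k1),(k4,k1),(k5,k1),(k9,k1)],[(k0,k1),(k4,k1),(k5,k1),(k9,k1)],
    [(k2,k1),(k3,k1),(k6,k1),(k7,k1)],[(k2,k1),(k3,k1),(k6,k1),(k7,k1)],[(k0,k1),(k4,k1),(k5,k1),(k9,k1)],[(k0,k1),
    (k4,k1),(k5,k1),(k9,k1)],[(k2,k1),(k3,k1),(k6,k1),(k7,k1)],[(k10,k1)],[(k1,k1)],[(k8,k1)]]
    [] k0
    []
    []]⟩

/-- classes `0 0 0 0 1 1`, types `C0 C2 C0 C2 S0 S0` -/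
noncomputable def cT6_121 : CertT :=
  ⟨[k4,k6,k4,k6,k16,k16],[],[[[]]],
    [.lp [k6,k12,k0,k12,k6,k8] [k3,k3,k0,k0,k6,k6,k0,k0,k3,k3,k2,k2] k0 [] k24 k5
    [[(k1,k6),(k8,k6),(k10,k7),(k11,k7)],[(k2,k9),(k3,k9),(k6,k9),(k7,k9)],[(k4,k6),(k5,k6),(k0,k9),(k9,k9)],[(k4,k6),
    (k5,k6),(k0,k9),(k9,k9)],[(k2,k6),(k3,k6),(k6,k6),(k7,k6)],[(k2,k6),(k3,k6),(k6,k6),(k7,k6)],[(k4,k6),(k5,k6),(k0,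
    k9),(k9,k9)],[(k4,k6),(k5,k6),(k0,k9),(k9,k9)],[(k2,k9),(k3,k9),(k6,k9),(k7,k9)],[(k1,k6),(k8,k6),(k10,k7),(k11,
    k7)],[(k1,k7),(k8,k7),(k10,k8),(k11,k8)],[(k1,k7),(k8,k7),(k10,k8),(k11,k8)]]
    [] k0
    []
    []]⟩

/-- classes `0 0 0 0 1 1`, types `C0 C2 C2 C0 B0 B1` -/
noncomputable def cT6_122 : CertT :=
  ⟨[k4,k6,k6,k4,k24,k25],[(false,k0,[k0,k1,k2,k3,k4,k5])],[[[([z1,z0,z0,z0,z1,z1],z2)],[]]],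
    [.leafM k4 [k4,k5,k0,k1,k2,k3] [(z1,[y1,z1])] [],
    .lp [k4,k2,k6,k4,k2,k4] [k1,k1,k2,k2,k0,k0,k1,k1,k2,k2,k1,k1] k0 [] k12 k5
    [[(k8,k3),(k11,k4)],[(k2,k3),(k3,k3),(k9,k3),(k4,k5)],[(k0,k3),(k6,k3),(k7,k3),(k5,k4)],[(k0,k3),(k6,k3),(k7,k3),
    (k5,k4)],[(k2,k4),(k3,k4),(k9,k4),(k4,k6)],[(k0,k5),(k6,k5),(k7,k5),(k5,k6)],[(k2,k3),(k3,k3),(k9,k3),(k4,k5)],
    [(k2,k3),(k3,k3),(k9,k3),(k4,k5)],[(k0,k3),(k6,k3),(k7,k3),(k5,k4)],[(k1,k3),(k10,k3)],[(k1,k4),(k10,k4)],[(k8,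
    k3),(k11,k4)]]
    [] k0
    [[k1,k0,k0,k0,k1,k1]]
    [.ref k0 k0 [(z1,[z1])]]]⟩

/-- classes `0 0 0 0 1 1`, types `C0 C2 C2 C0 C0 C0` -/
noncomputable def cT6_123 : CertT :=
  ⟨[k4,k6,k6,k4,k20,k20],[(false,k0,[k0,k1,k2,k3,k4,k5])],[[[([z1,z0,z0,z0,z1,z1],z2)],[]]],
    [.leafM k0 [k0,k1,k2,k3,k4,k5] [(z1,[y1,z1])] [],
    .lp [k4,k2,k6,k4,k2,k4] [k1,k1,k2,k2,k0,k0,k1,k1,k2,k2,k1,k1] k0 [] k12 k5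
    [[(k8,k3),(k10,k4)],[(k2,k3),(k3,k3),(k9,k3),(k4,k5)],[(k0,k3),(k6,k3),(k7,k3),(k5,k4)],[(k0,k3),(k6,k3),(k7,k3),
    (k5,k4)],[(k2,k4),(k3,k4),(k9,k4),(k4,k6)],[(k0,k5),(k6,k5),(k7,k5),(k5,k6)],[(k2,k3),(k3,k3),(k9,k3),(k4,k5)],
    [(k2,k3),(k3,k3),(k9,k3),(k4,k5)],[(k0,k3),(k6,k3),(k7,k3),(k5,k4)],[(k1,k3),(k11,k3)],[(k8,k3),(k10,k4)],[(k1,
    k4),(k11,k4)]]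
    [] k0
    [[k1,k0,k0,k0,k1,k1]]
    [.ref k0 k0 [(z1,[z1])]]]⟩

/-- classes `0 0 0 0 1 1`, types `C0 C2 C2 C0 C0 C2` -/
noncomputable def cT6_124 : CertT :=
  ⟨[k4,k6,k6,k4,k20,k22],[(false,k0,[k0,k1,k2,k3,k4,k5])],[[[([z1,z0,z0,z0,z1,z1],z2)],[]]],
    [.leafM k0 [k0,k1,k2,k3,k4,k5] [(z1,[y1,z1])] [],
    .lp [k6,k10,k8,k6,k6,k6] [k2,k2,k0,k0,k1,k1,k2,k2,k2,k2,k2,k2] k0 [] k24 k5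
    [[(k10,k6),(k11,k6)],[(k9,k6),(k4,k7),(k2,k8),(k3,k8)],[(k0,k8),(k6,k8),(k7,k8),(k5,k9)],[(k0,k8),(k6,k8),(k7,k8),
    (k5,k9)],[(k9,k7),(k4,k8),(k2,k9),(k3,k9)],[(k0,k7),(k6,k7),(k7,k7),(k5,k8)],[(k9,k6),(k4,k7),(k2,k8),(k3,k8)],
    [(k9,k6),(k4,k7),(k2,k8),(k3,k8)],[(k0,k6),(k6,k6),(k7,k6),(k5,k7)],[(k10,k6),(k11,k6)],[(k1,k6),(k8,k6)],[(k1,
    k6),(k8,k6)]]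
    [] k0
    [[k1,k0,k0,k0,k1,k1]]
    [.ref k0 k0 [(z1,[z1])]]]⟩

/-- classes `0 0 0 0 1 1`, types `C0 C2 C2 C0 N0 N1` -/
noncomputable def cT6_125 : CertT :=
  ⟨[k4,k6,k6,k4,k28,k29],[],[[[]]],
    [.lp [k6,k0,k6,k6,k0,k4] [k0,k0,k3,k3,k0,k0,k0,k0,k3,k3,k1,k1] k0 [] k12 k5
    [[(k8,k3)],[(k2,k3),(k3,k3),(k9,k3),(k4,k6)],[(k0,k3),(k5,k3),(k6,k3),(k7,k3)],[(k0,k3),(k5,k3),(k6,k3),(k7,k3)],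
    [(k2,k3),(k3,k3),(k9,k3),(k4,k6)],[(k0,k6),(k5,k6),(k6,k6),(k7,k6)],[(k2,k3),(k3,k3),(k9,k3),(k4,k6)],[(k2,k3),
    (k3,k3),(k9,k3),(k4,k6)],[(k0,k3),(k5,k3),(k6,k3),(k7,k3)],[(k1,k3)],[(k10,k4)],[(k11,k4)]]
    [] k0
    []
    []]⟩

/-- classes `0 0 0 0 1 1`, types `C0 C2 C2 C0 N0 N2` -/
noncomputable def cT6_126 : CertT :=
  ⟨[k4,k6,k6,k4,k28,k30],[(false,k0,[k0,k1,k2,k3,k4,k5])],[[[([z1,z0,z0,z0,z1,z1],z2)],[]]],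
    [.leafM k4 [k4,k5,k0,k1,k2,k3] [(z1,[y1,z1])] [],
    .lp [k6,k10,k8,k6,k6,k6] [k2,k2,k0,k0,k1,k1,k2,k2,k2,k2,k2,k2] k0 [] k24 k5
    [[(k11,k6)],[(k9,k6),(k4,k7),(k2,k8),(k3,k8)],[(k0,k8),(k6,k8),(k7,k8),(k5,k9)],[(k0,k8),(k6,k8),(k7,k8),(k5,k9)],
    [(k9,k7),(k4,k8),(k2,k9),(k3,k9)],[(k0,k7),(k6,k7),(k7,k7),(k5,k8)],[(k9,k6),(k4,k7),(k2,k8),(k3,k8)],[(k9,k6),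
    (k4,k7),(k2,k8),(k3,k8)],[(k0,k6),(k6,k6),(k7,k6),(k5,k7)],[(k10,k6)],[(k1,k6)],[(k8,k6)]]
    [] k0
    [[k1,k0,k0,k0,k1,k1]]
    [.ref k0 k0 [(z1,[z1])]]]⟩

/-- classes `0 0 0 0 1 1`, types `C0 C2 C2 C0 S0 S0` -/
noncomputable def cT6_127 : CertT :=
  ⟨[k4,k6,k6,k4,k16,k16],[(false,k0,[k0,k1,k2,k3,k4,k5])],[[[([z1,z0,z0,z0,z1,z1],z2)],[]]],
    [.leafM k0 [k0,k1,k2,k3,k4,k5] [(z1,[y1,z1])] [],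
    .lp [k10,k4,k8,k8,k8,k8] [k0,k0,k3,k3,k1,k1,k1,k1,k1,k1,k1,k1] k0 [] k24 k5
    [[(k8,k9),(k10,k9),(k11,k9),(k1,k10)],[(k2,k7),(k3,k7),(k4,k9),(k9,k9)],[(k5,k6),(k6,k6),(k7,k6),(k0,k7)],[(k5,
    k6),(k6,k6),(k7,k6),(k0,k7)],[(k2,k6),(k3,k6),(k4,k8),(k9,k8)],[(k5,k8),(k6,k8),(k7,k8),(k0,k9)],[(k2,k6),(k3,k6),
    (k4,k8),(k9,k8)],[(k2,k6),(k3,k6),(k4,k8),(k9,k8)],[(k5,k8),(k6,k8),(k7,k8),(k0,k9)],[(k8,k8),(k10,k8),(k11,k8),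
    (k1,k9)],[(k8,k8),(k10,k8),(k11,k8),(k1,k9)],[(k8,k8),(k10,k8),(k11,k8),(k1,k9)]]
    [] k0
    [[k0,k1,k1,k1,k0,k0]]
    [.ref k0 k0 [(z1,[y1,z1])]]]⟩

/-- classes `0 0 0 0 1 1`, types `N0 N0 N1 N1 B0 B1` -/
noncomputable def cT6_128 : CertT :=
  ⟨[k12,k12,k13,k13,k24,k25],[],[[[]]],
    [.lp [k12,k14,k8,k0,k2,k10] [k1,k1,k0,k0,k3,k3,k7,k7,k6,k6,k2,k2] k0 [[],[],[k0,k0,k0,k0,k0,k0,k2],[],[],[],[],[k0,k0,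
    k0,k2]] k24 k5
    [[(k8,k7),(k11,k11)],[(k7,k6),(k9,k7)],[(k6,k7),(k4,k11)],[(k9,k6),(k7,k7)],[(k6,k6),(k4,k8)],[(k5,k8),(k3,k11)],
    [(k0,k6),(k2,k7)],[(k5,k6),(k3,k7)],[(k2,k6),(k0,k7)],[(k10,k6),(k1,k7)],[(k10,k10),(k1,k11)],[(k8,k6),(k11,k10)]]
    [] k0
    []
    []]⟩

/-- classes `0 0 0 0 1 1`, types `N0 N0 N1 N1 C0 C0` -/
noncomputable def cT6_129 : CertT :=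
  ⟨[k12,k12,k13,k13,k20,k20],[],[[[]]],
    [.lp [k12,k14,k8,k0,k2,k10] [k1,k1,k0,k0,k3,k3,k7,k7,k6,k6,k2,k2] k0 [[],[],[k0,k0,k0,k0,k0,k0,k2],[],[],[],[],[k0,k0,
    k0,k2]] k24 k5
    [[(k8,k7),(k10,k11)],[(k7,k6),(k9,k7)],[(k6,k7),(k4,k11)],[(k9,k6),(k7,k7)],[(k6,k6),(k4,k8)],[(k5,k8),(k3,k11)],
    [(k0,k6),(k2,k7)],[(k5,k6),(k3,k7)],[(k2,k6),(k0,k7)],[(k11,k6),(k1,k7)],[(k8,k6),(k10,k10)],[(k11,k10),(k1,k11)]]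
    [] k0
    []
    []]⟩

/-- classes `0 0 0 0 1 1`, types `N0 N0 N1 N1 C0 C2` -/
noncomputable def cT6_130 : CertT :=
  ⟨[k12,k12,k13,k13,k20,k22],[],[[[]]],
    [.lp [k12,k14,k8,k0,k2,k10] [k1,k1,k0,k0,k3,k3,k7,k7,k6,k6,k2,k2] k0 [[],[],[k0,k0,k0,k0,k0,k0,k2],[],[],[],[],[k0,k0,
    k0,k2]] k24 k5
    [[(k10,k11),(k11,k11)],[(k7,k6),(k9,k7)],[(k6,k7),(k4,k11)],[(k9,k6),(k7,k7)],[(k6,k6),(k4,k8)],[(k5,k8),(k3,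
    k11)],[(k0,k6),(k2,k7)],[(k5,k6),(k3,k7)],[(k2,k6),(k0,k7)],[(k10,k6),(k11,k6)],[(k8,k6),(k1,k11)],[(k8,k6),(k1,
    k11)]]
    [] k0
    []
    []]⟩

/-- classes `0 0 0 0 1 1`, types `N0 N0 N1 N1 N0 N1` -/
noncomputable def cT6_131 : CertT :=
  ⟨[k12,k12,k13,k13,k28,k29],[],[[[]]],
    [.lp [k6,k6,k6,k0,k0,k4] [k0,k0,k0,k0,k0,k0,k3,k3,k3,k3,k1,k1] k0 [] k12 k5
    [[(k8,k3)],[(k7,k3),(k9,k3)],[(k6,k3),(k4,k6)],[(k7,k3),(k9,k3)],[(k6,k3),(k4,k6)],[(k3,k6),(k5,k6)],[(k0,k3),(k2,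
    k3)],[(k3,k3),(k5,k3)],[(k0,k3),(k2,k3)],[(k1,k3)],[(k10,k4)],[(k11,k4)]]
    [] k0
    []
    []]⟩

/-- classes `0 0 0 0 1 1`, types `N0 N0 N1 N1 N0 N2` -/
noncomputable def cT6_132 : CertT :=
  ⟨[k12,k12,k13,k13,k28,k30],[],[[[]]],
    [.lp [k12,k14,k8,k0,k2,k10] [k1,k1,k0,k0,k3,k3,k7,k7,k6,k6,k2,k2] k0 [[],[],[k0,k0,k0,k0,k0,k0,k2],[],[],[],[],[k0,k0,
    k0,k2]] k24 k5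
    [[(k11,k11)],[(k7,k6),(k9,k7)],[(k6,k7),(k4,k11)],[(k9,k6),(k7,k7)],[(k6,k6),(k4,k8)],[(k5,k8),(k3,k11)],[(k0,k6),
    (k2,k7)],[(k5,k6),(k3,k7)],[(k2,k6),(k0,k7)],[(k10,k6)],[(k1,k11)],[(k8,k6)]]
    [] k0
    []
    []]⟩

/-- classes `0 0 0 0 1 1`, types `N0 N0 N1 N1 S0 S0` -/
noncomputable def cT6_133 : CertT :=
  ⟨[k12,k12,k13,k13,k16,k16],[],[[[]]],
    [.lp [k6,k4,k8,k10,k8,k10] [k2,k2,k3,k3,k1,k1,k0,k0,k1,k1,k0,k0] k0 [[k0,k0,k0,k0,k2],[],[],[],[],[k0,k2]] k24 k5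
    [[(k1,k6),(k8,k7),(k10,k8),(k11,k8)],[(k7,k6),(k9,k7)],[(k6,k7),(k4,k8)],[(k9,k6),(k7,k7)],[(k4,k8),(k6,k9)],[(k3,
    k8),(k5,k8)],[(k0,k6),(k2,k7)],[(k3,k7),(k5,k9)],[(k2,k6),(k0,k7)],[(k1,k7),(k8,k8),(k10,k9),(k11,k9)],[(k1,k8),
    (k8,k9),(k10,k10),(k11,k10)],[(k1,k8),(k8,k9),(k10,k10),(k11,k10)]]
    [] k0
    []
    []]⟩

/-- classes `0 0 0 0 1 1`, types `N0 N0 N1 N2 B0 B1` -/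
noncomputable def cT6_134 : CertT :=
  ⟨[k12,k12,k13,k14,k24,k25],[],[[[]]],
    [.lp [k4,k4,k4,k2,k2,k4] [k0,k0,k0,k0,k0,k0,k1,k1,k1,k1,k0,k0] k0 [] k12 k5
    [[(k8,k3),(k11,k4)],[(k6,k3),(k7,k3)],[(k9,k3),(k4,k4)],[(k6,k3),(k7,k3)],[(k9,k3),(k4,k4)],[(k3,k4),(k5,k4)],
    [(k0,k3),(k2,k3)],[(k0,k3),(k2,k3)],[(k3,k3),(k5,k3)],[(k1,k3),(k10,k3)],[(k1,k4),(k10,k4)],[(k8,k3),(k11,k4)]]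
    [] k0
    []
    []]⟩

/-- classes `0 0 0 0 1 1`, types `N0 N0 N1 N2 C0 C0` -/
noncomputable def cT6_135 : CertT :=
  ⟨[k12,k12,k13,k14,k20,k20],[],[[[]]],
    [.lp [k4,k4,k4,k2,k2,k4] [k0,k0,k0,k0,k0,k0,k1,k1,k1,k1,k0,k0] k0 [] k12 k5
    [[(k8,k3),(k10,k4)],[(k6,k3),(k7,k3)],[(k9,k3),(k4,k4)],[(k6,k3),(k7,k3)],[(k9,k3),(k4,k4)],[(k3,k4),(k5,k4)],
    [(k0,k3),(k2,k3)],[(k0,k3),(k2,k3)],[(k3,k3),(k5,k3)],[(k1,k3),(k11,k3)],[(k8,k3),(k10,k4)],[(k1,k4),(k11,k4)]]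
    [] k0
    []
    []]⟩

/-- classes `0 0 0 0 1 1`, types `N0 N0 N1 N2 C0 C2` -/
noncomputable def cT6_136 : CertT :=
  ⟨[k12,k12,k13,k14,k20,k22],[],[[[]]],
    [.lp [k6,k6,k8,k6,k6,k6] [k1,k1,k1,k1,k0,k0,k1,k1,k1,k1,k1,k1] k0 [] k24 k5
    [[(k10,k6),(k11,k6)],[(k6,k6),(k7,k6)],[(k9,k6),(k4,k7)],[(k6,k6),(k7,k6)],[(k9,k7),(k4,k8)],[(k3,k7),(k5,k8)],
    [(k0,k6),(k2,k6)],[(k0,k6),(k2,k6)],[(k3,k6),(k5,k7)],[(k10,k6),(k11,k6)],[(k1,k6),(k8,k6)],[(k1,k6),(k8,k6)]]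
    [] k0
    []
    []]⟩

/-- classes `0 0 0 0 1 1`, types `N0 N0 N1 N2 N0 N1` -/
noncomputable def cT6_137 : CertT :=
  ⟨[k12,k12,k13,k14,k28,k29],[],[[[]]],
    [.lp [k4,k4,k4,k2,k2,k4] [k0,k0,k0,k0,k0,k0,k1,k1,k1,k1,k0,k0] k0 [] k12 k5
    [[(k8,k3)],[(k6,k3),(k7,k3)],[(k9,k3),(k4,k4)],[(k6,k3),(k7,k3)],[(k9,k3),(k4,k4)],[(k3,k4),(k5,k4)],[(k0,k3),(k2,
    k3)],[(k0,k3),(k2,k3)],[(k3,k3),(k5,k3)],[(k1,k3)],[(k10,k4)],[(k11,k4)]]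
    [] k0
    []
    []]⟩

/-- classes `0 0 0 0 1 1`, types `N0 N0 N1 N2 N0 N2` -/
noncomputable def cT6_138 : CertT :=
  ⟨[k12,k12,k13,k14,k28,k30],[],[[[]]],
    [.lp [k6,k6,k8,k6,k6,k6] [k1,k1,k1,k1,k0,k0,k1,k1,k1,k1,k1,k1] k0 [] k24 k5
    [[(k11,k6)],[(k6,k6),(k7,k6)],[(k9,k6),(k4,k7)],[(k6,k6),(k7,k6)],[(k9,k7),(k4,k8)],[(k3,k7),(k5,k8)],[(k0,k6),
    (k2,k6)],[(k0,k6),(k2,k6)],[(k3,k6),(k5,k7)],[(k10,k6)],[(k1,k6)],[(k8,k6)]]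
    [] k0
    []
    []]⟩

/-- classes `0 0 0 0 1 1`, types `N0 N0 N1 N2 S0 S0` -/
noncomputable def cT6_139 : CertT :=
  ⟨[k12,k12,k13,k14,k16,k16],[],[[[]]],
    [.lp [k18,k8,k16,k16,k10,k16] [k0,k0,k5,k5,k1,k1,k1,k1,k3,k5,k1,k1] k0 [[k0,k0,k0,k0,k0,k0,k0,k4],[],[],[],[],[],[k0,
    k4]] k48 k5
    [[(k8,k15),(k10,k17),(k11,k17),(k1,k18)],[(k6,k13),(k7,k17)],[(k4,k12),(k9,k12)],[(k6,k12),(k7,k12)],[(k9,k12),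
    (k4,k16)],[(k3,k12),(k5,k16)],[(k2,k12),(k0,k17)],[(k2,k12),(k0,k13)],[(k3,k12),(k5,k12)],[(k8,k12),(k10,k14),
    (k11,k14),(k1,k15)],[(k8,k14),(k10,k16),(k11,k16),(k1,k17)],[(k8,k14),(k10,k16),(k11,k16),(k1,k17)]]
    [] k0
    []
    []]⟩

/-- classes `0 0 0 0 1 1`, types `N0 N0 N2 N1 B0 B1` -/
noncomputable def cT6_140 : CertT :=
  ⟨[k12,k12,k14,k13,k24,k25],[(false,k0,[k0,k1,k2,k3,k4,k5])],[[[([z1,z0,z0,z0,z1,z1],z2)],[]]],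
    [.leafM k6 [k1,k2,k3,k4,k5,k0] [(z1,[z1])] [],
    .lp [k10,k6,k6,k6,k6,k8] [k0,k0,k2,k2,k2,k2,k2,k2,k2,k2,k1,k1] k0 [] k24 k5
    [[(k8,k8),(k11,k9)],[(k4,k8),(k9,k8)],[(k6,k6),(k7,k6)],[(k4,k6),(k9,k6)],[(k6,k6),(k7,k6)],[(k2,k6),(k0,k8)],
    [(k3,k6),(k5,k6)],[(k3,k6),(k5,k6)],[(k2,k6),(k0,k8)],[(k10,k7),(k1,k8)],[(k10,k8),(k1,k9)],[(k8,k7),(k11,k8)]]
    [] k0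
    [[k0,k1,k1,k1,k0,k0]]
    [.ref k0 k0 [(z1,[y1,z1])]]]⟩

/-- classes `0 0 0 0 1 1`, types `N0 N0 N2 N1 C0 C0` -/
noncomputable def cT6_141 : CertT :=
  ⟨[k12,k12,k14,k13,k20,k20],[(false,k0,[k0,k1,k2,k3,k4,k5])],[[[([z1,z0,z0,z0,z1,z1],z2)],[]]],
    [.leafM k4 [k1,k2,k3,k4,k5,k0] [(z1,[z1])] [],
    .lp [k4,k6,k6,k0,k2,k4] [k1,k1,k0,k0,k0,k0,k3,k3,k2,k2,k1,k1] k0 [] k12 k5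
    [[(k8,k3),(k10,k4)],[(k9,k3),(k4,k5)],[(k6,k3),(k7,k3)],[(k9,k4),(k4,k6)],[(k6,k3),(k7,k3)],[(k0,k5),(k2,k6)],
    [(k3,k3),(k5,k3)],[(k3,k3),(k5,k3)],[(k0,k3),(k2,k4)],[(k1,k3),(k11,k3)],[(k8,k3),(k10,k4)],[(k1,k4),(k11,k4)]]
    [] k0
    [[k1,k0,k0,k0,k1,k1]]
    [.ref k0 k0 [(z1,[z1])]]]⟩

/-- classes `0 0 0 0 1 1`, types `N0 N0 N2 N1 C0 C2` -/
noncomputable def cT6_142 : CertT :=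
  ⟨[k12,k12,k14,k13,k20,k22],[(false,k0,[k0,k1,k2,k3,k4,k5])],[[[([z1,z0,z0,z0,z1,z1],z2)],[]]],
    [.leafM k4 [k1,k2,k3,k4,k5,k0] [(z1,[z1])] [],
    .lp [k2,k4,k4,k0,k2,k2] [k1,k1,k0,k0,k0,k0,k2,k2,k1,k1,k1,k1] k0 [] k8 k5
    [[(k10,k2),(k11,k2)],[(k9,k2),(k4,k3)],[(k6,k2),(k7,k2)],[(k9,k3),(k4,k4)],[(k6,k2),(k7,k2)],[(k0,k3),(k2,k4)],
    [(k3,k2),(k5,k2)],[(k3,k2),(k5,k2)],[(k0,k2),(k2,k3)],[(k10,k2),(k11,k2)],[(k1,k2),(k8,k2)],[(k1,k2),(k8,k2)]]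
    [] k0
    [[k1,k0,k0,k0,k1,k1]]
    [.ref k0 k0 [(z1,[z1])]]]⟩

/-- classes `0 0 0 0 1 1`, types `N0 N0 N2 N1 N0 N1` -/
noncomputable def cT6_143 : CertT :=
  ⟨[k12,k12,k14,k13,k28,k29],[],[[[]]],
    [.lp [k6,k6,k6,k0,k0,k4] [k0,k0,k0,k0,k0,k0,k3,k3,k3,k3,k1,k1] k0 [] k12 k5
    [[(k8,k3)],[(k9,k3),(k4,k6)],[(k6,k3),(k7,k3)],[(k9,k3),(k4,k6)],[(k6,k3),(k7,k3)],[(k0,k6),(k2,k6)],[(k3,k3),(k5,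
    k3)],[(k3,k3),(k5,k3)],[(k0,k3),(k2,k3)],[(k1,k3)],[(k10,k4)],[(k11,k4)]]
    [] k0
    []
    []]⟩

/-- classes `0 0 0 0 1 1`, types `N0 N0 N2 N1 N0 N2` -/
noncomputable def cT6_144 : CertT :=
  ⟨[k12,k12,k14,k13,k28,k30],[(false,k0,[k0,k1,k2,k3,k4,k5])],[[[([z1,z0,z0,z0,z1,z1],z2)],[]]],
    [.leafM k6 [k1,k2,k3,k4,k5,k0] [(z1,[z1])] [],
    .lp [k2,k4,k4,k0,k2,k2] [k1,k1,k0,k0,k0,k0,k2,k2,k1,k1,k1,k1] k0 [] k8 k5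
    [[(k11,k2)],[(k9,k2),(k4,k3)],[(k6,k2),(k7,k2)],[(k9,k3),(k4,k4)],[(k6,k2),(k7,k2)],[(k0,k3),(k2,k4)],[(k3,k2),
    (k5,k2)],[(k3,k2),(k5,k2)],[(k0,k2),(k2,k3)],[(k10,k2)],[(k1,k2)],[(k8,k2)]]
    [] k0
    [[k1,k0,k0,k0,k1,k1]]
    [.ref k0 k0 [(z1,[z1])]]]⟩

/-- classes `0 0 0 0 1 1`, types `N0 N0 N2 N1 S0 S0` -/
noncomputable def cT6_145 : CertT :=
  ⟨[k12,k12,k14,k13,k16,k16],[(false,k0,[k0,k1,k2,k3,k4,k5])],[[[([z1,z0,z0,z0,z1,z1],z2)],[]]],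
    [.leafM k4 [k1,k2,k3,k4,k5,k0] [(z1,[z1])] [],
    .lp [k2,k2,k2,k2,k2,k4] [k1,k1,k1,k1,k1,k1,k1,k1,k1,k1,k0,k0] k0 [] k8 k5
    [[(k1,k2),(k8,k2),(k10,k3),(k11,k3)],[(k4,k2),(k9,k2)],[(k6,k2),(k7,k2)],[(k4,k2),(k9,k2)],[(k6,k2),(k7,k2)],[(k0,
    k2),(k2,k2)],[(k3,k2),(k5,k2)],[(k3,k2),(k5,k2)],[(k0,k2),(k2,k2)],[(k1,k2),(k8,k2),(k10,k3),(k11,k3)],[(k1,k3),
    (k8,k3),(k10,k4),(k11,k4)],[(k1,k3),(k8,k3),(k10,k4),(k11,k4)]]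
    [] k0
    [[k0,k1,k1,k1,k0,k0]]
    [.ref k0 k0 [(z1,[y1,z1])]]]⟩

/-- classes `0 0 0 0 1 1`, types `N0 N0 N2 N2 B0 B1` -/
noncomputable def cT6_146 : CertT :=
  ⟨[k12,k12,k14,k14,k24,k25],[],[[[]]],
    [.lp [k10,k10,k10,k2,k4,k8] [k0,k0,k0,k0,k0,k0,k4,k4,k3,k3,k1,k1] k0 [] k24 k5
    [[(k8,k7),(k11,k9)],[(k6,k6),(k4,k10)],[(k7,k6),(k9,k7)],[(k6,k6),(k4,k10)],[(k7,k6),(k9,k7)],[(k0,k10),(k2,k10)],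
    [(k3,k6),(k5,k6)],[(k0,k6),(k2,k6)],[(k3,k7),(k5,k7)],[(k10,k6),(k1,k7)],[(k10,k8),(k1,k9)],[(k8,k6),(k11,k8)]]
    [] k0
    []
    []]⟩

/-- classes `0 0 0 0 1 1`, types `N0 N0 N2 N2 C0 C0` -/
noncomputable def cT6_147 : CertT :=
  ⟨[k12,k12,k14,k14,k20,k20],[],[[[]]],
    [.lp [k10,k10,k10,k2,k4,k8] [k0,k0,k0,k0,k0,k0,k4,k4,k3,k3,k1,k1] k0 [] k24 k5
    [[(k8,k7),(k10,k9)],[(k6,k6),(k4,k10)],[(k7,k6),(k9,k7)],[(k6,k6),(k4,k10)],[(k7,k6),(k9,k7)],[(k0,k10),(k2,k10)],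
    [(k3,k6),(k5,k6)],[(k0,k6),(k2,k6)],[(k3,k7),(k5,k7)],[(k11,k6),(k1,k7)],[(k8,k6),(k10,k8)],[(k11,k8),(k1,k9)]]
    [] k0
    []
    []]⟩

/-- classes `0 0 0 0 1 1`, types `N0 N0 N2 N2 C0 C2` -/
noncomputable def cT6_148 : CertT :=
  ⟨[k12,k12,k14,k14,k20,k22],[],[[[]]],
    [.lp [k2,k2,k2,k2,k2,k2] [k0,k0,k0,k0,k0,k0,k0,k0,k0,k0,k0,k0] k0 [] k8 k5
    [[(k10,k2),(k11,k2)],[(k4,k2),(k6,k2)],[(k7,k2),(k9,k2)],[(k4,k2),(k6,k2)],[(k7,k2),(k9,k2)],[(k0,k2),(k2,k2)],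
    [(k3,k2),(k5,k2)],[(k0,k2),(k2,k2)],[(k3,k2),(k5,k2)],[(k10,k2),(k11,k2)],[(k1,k2),(k8,k2)],[(k1,k2),(k8,k2)]]
    [] k0
    []
    []]⟩

/-- classes `0 0 0 0 1 1`, types `N0 N0 N2 N2 N0 N1` -/
noncomputable def cT6_149 : CertT :=
  ⟨[k12,k12,k14,k14,k28,k29],[],[[[]]],
    [.lp [k6,k6,k6,k0,k0,k4] [k0,k0,k0,k0,k0,k0,k3,k3,k3,k3,k1,k1] k0 [] k12 k5
    [[(k8,k3)],[(k6,k3),(k4,k6)],[(k7,k3),(k9,k3)],[(k6,k3),(k4,k6)],[(k7,k3),(k9,k3)],[(k0,k6),(k2,k6)],[(k3,k3),(k5,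
    k3)],[(k0,k3),(k2,k3)],[(k3,k3),(k5,k3)],[(k1,k3)],[(k10,k4)],[(k11,k4)]]
    [] k0
    []
    []]⟩

/-- classes `0 0 0 0 1 1`, types `N0 N0 N2 N2 N0 N2` -/
noncomputable def cT6_150 : CertT :=
  ⟨[k12,k12,k14,k14,k28,k30],[],[[[]]],
    [.lp [k2,k2,k2,k2,k2,k2] [k0,k0,k0,k0,k0,k0,k0,k0,k0,k0,k0,k0] k0 [] k8 k5
    [[(k11,k2)],[(k4,k2),(k6,k2)],[(k7,k2),(k9,k2)],[(k4,k2),(k6,k2)],[(k7,k2),(k9,k2)],[(k0,k2),(k2,k2)],[(k3,k2),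
    (k5,k2)],[(k0,k2),(k2,k2)],[(k3,k2),(k5,k2)],[(k10,k2)],[(k1,k2)],[(k8,k2)]]
    [] k0
    []
    []]⟩

/-- classes `0 0 0 0 1 1`, types `N0 N0 N2 N2 S0 S0` -/
noncomputable def cT6_151 : CertT :=
  ⟨[k12,k12,k14,k14,k16,k16],[],[[[]]],
    [.lp [k12,k6,k6,k6,k6,k8] [k0,k0,k3,k3,k3,k3,k3,k3,k3,k3,k2,k2] k0 [] k24 k5
    [[(k8,k9),(k10,k10),(k11,k10),(k1,k12)],[(k4,k9),(k6,k9)],[(k7,k6),(k9,k6)],[(k4,k6),(k6,k6)],[(k7,k6),(k9,k6)],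
    [(k2,k6),(k0,k9)],[(k3,k6),(k5,k6)],[(k2,k6),(k0,k9)],[(k3,k6),(k5,k6)],[(k8,k6),(k10,k7),(k11,k7),(k1,k9)],[(k8,
    k7),(k10,k8),(k11,k8),(k1,k10)],[(k8,k7),(k10,k8),(k11,k8),(k1,k10)]]
    [] k0
    []
    []]⟩

/-- classes `0 0 0 0 1 1`, types `N0 N1 N0 N1 B0 B1` -/
noncomputable def cT6_152 : CertT :=
  ⟨[k12,k13,k12,k13,k24,k25],[(false,k0,[k0,k1,k2,k3,k4,k5])],[[[([z1,z0,z1,z0,z1,z0],z2),([z0,z3,z0,z0,z0,z0],z2),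
    ([z0,z0,z0,z3,z0,z0],z2)],[([z1,z0,z1,z0,z1,z0],z2),([z0,z3,z0,z3,z0,z0],z4)],[([z1,z0,z1,z0,z1,z0],z2)],[]]],
    [.leafM k2 [k0,k1,k2,k3,k4,k5] [(z1,[z0,z1]),(z1,[z0,z0,z1]),(z1,[y3,y1,y1,z3])] [],
    .lp [k24,k18,k16,k12,k8,k16] [k0,k0,k3,k3,k4,k4,k6,k6,k8,k8,k4,k4] k0 [] k48 k5
    [[(k8,k16),(k11,k20)],[(k9,k16),(k5,k20)],[(k6,k15),(k2,k18)],[(k7,k15),(k3,k18)],[(k4,k16),(k0,k20)],[(k9,k12),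
    (k5,k16)],[(k6,k12),(k2,k15)],[(k7,k12),(k3,k15)],[(k4,k12),(k0,k16)],[(k10,k12),(k1,k16)],[(k10,k16),(k1,k20)],
    [(k8,k12),(k11,k16)]]
    [] k0
    [[k0,k1,k0,k2,k0,k0],[k0,k0,k0,k3,k0,k0]]
    [.ref k0 k0 [(z1,[z0,z1]),(z1,[y3,z0,z2]),(z1,[z3,z0,y1])],.ref k0 k0 [(z1,[z0,z1]),(z1,[y1,z0,z1]),(z1,[z1])]],
    .lp [(nat_lit 3588),(nat_lit 2496),(nat_lit 2392),(nat_lit 2208),(nat_lit 1794),(nat_lit 1794)] [k0,k0,(nat_lit 546),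
    (nat_lit 546),(nat_lit 598),(nat_lit 598),(nat_lit 690),(nat_lit 690),(nat_lit 897),(nat_lit 897),(nat_lit 897),
    (nat_lit 897)] k0 [[],[],[],[],[k0,k0,k0,k0,k0,k0,(nat_lit 299)],[],[],[k0,k0,k0,k0,k0,
    (nat_lit 299)]] (nat_lit 7176) k5
    [[(k8,(nat_lit 2691)),(k11,(nat_lit 2691))],[(k9,(nat_lit 2691)),(k5,(nat_lit 2990))],[(k6,(nat_lit 2352)),(k2,
    (nat_lit 2496))],[(k7,(nat_lit 2352)),(k3,(nat_lit 2496))],[(k4,(nat_lit 2392)),(k0,(nat_lit 2990))],[(k9,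
    (nat_lit 1794)),(k5,(nat_lit 2392))],[(k2,(nat_lit 2352)),(k6,(nat_lit 2507))],[(k3,(nat_lit 2352)),(k7,
    (nat_lit 2507))],[(k4,(nat_lit 1794)),(k0,(nat_lit 2691))],[(k10,(nat_lit 1794)),(k1,(nat_lit 2691))],[(k10,
    (nat_lit 1794)),(k1,(nat_lit 2691))],[(k8,(nat_lit 1794)),(k11,(nat_lit 1794))]]
    [] k0
    [[k0,k0,k0,k0,k0,k3]]
    [.ref k1 k0 [(z1,[z0,z1]),(z1,[y1,y3,z3])]],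
    .lp [k24,k12,k16,k18,k8,k16] [k0,k0,k6,k6,k4,k4,k3,k3,k8,k8,k4,k4] k0 [[k0,k0,k6],[],[],[k0,k6]] k48 k5
    [[(k8,k16),(k11,k20)],[(k5,k14),(k9,k16)],[(k6,k15),(k2,k18)],[(k7,k15),(k3,k18)],[(k0,k14),(k4,k16)],[(k9,k12),
    (k5,k16)],[(k2,k15),(k6,k18)],[(k3,k15),(k7,k18)],[(k4,k12),(k0,k16)],[(k10,k12),(k1,k16)],[(k10,k16),(k1,k20)],
    [(k8,k12),(k11,k16)]]
    [] k0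
    [[k1,k0,k1,k0,k1,k0]]
    [.ref k2 k0 [(z1,[z1])]]]⟩

/-- the certificates of this file -/
noncomputable def lT6_4 : List CertT :=
  [cT6_80, cT6_81, cT6_82, cT6_83, cT6_84, cT6_85, cT6_86, cT6_87, cT6_88, cT6_89, cT6_90, cT6_91, cT6_92,
      cT6_93, cT6_94, cT6_95, cT6_96, cT6_97, cT6_98, cT6_99, cT6_100, cT6_101, cT6_102, cT6_103, cT6_104,
      cT6_105, cT6_106, cT6_107, cT6_108, cT6_109, cT6_110, cT6_111, cT6_112, cT6_113, cT6_114, cT6_115,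
      cT6_116, cT6_117, cT6_118, cT6_119, cT6_120, cT6_121, cT6_122, cT6_123, cT6_124, cT6_125, cT6_126,
      cT6_127, cT6_128, cT6_129, cT6_130, cT6_131, cT6_132, cT6_133, cT6_134, cT6_135, cT6_136, cT6_137,
      cT6_138, cT6_139, cT6_140, cT6_141, cT6_142, cT6_143, cT6_144, cT6_145, cT6_146, cT6_147, cT6_148,
      cT6_149, cT6_150, cT6_151, cT6_152]

theorem gT6_4 : allF (chkC 6 tt6) lT6_4 = true := by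
  decide +kernel

end Pool.Agent.Lib_MP_fa6e45
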