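import Pool.Agent.Lib_MP_fa6e45.CSTT
import Pool.Agent.Lib_MP_fa6e45.HK

/-!
MP_fa6e45_co, stage 5: certificates (captain, generated by a program).
-/

namespace Pool.Agent.Lib_MP_fa6e45

/-- classes `0 0 0 0 1 1`, types `N0 N1 N0 N1 C0 C0` -/
noncomputable def cT6_153 : CertT :=
  ⟨[k12,k13,k12,k13,k20,k20],[(false,k0,[k0,k1,k2,k3,k4,k5])],[[[([z1,z0,z1,z0,z1,z0],z2),([z0,z3,z0,z0,z0,z0],z2),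
    ([z0,z0,z0,z3,z0,z0],z2)],[([z1,z0,z1,z0,z1,z0],z2),([z0,z3,z0,z3,z0,z0],z4)],[([z1,z0,z1,z0,z1,z0],z2)],[]]],
    [.leafM k2 [k0,k1,k2,k3,k4,k5] [(z1,[z0,z1]),(z1,[z0,z0,z1]),(z1,[y3,y1,y1,z3])] [],
    .lp [k24,k18,k16,k12,k8,k16] [k0,k0,k3,k3,k4,k4,k6,k6,k8,k8,k4,k4] k0 [] k48 k5
    [[(k8,k16),(k10,k20)],[(k9,k16),(k5,k20)],[(k6,k15),(k2,k18)],[(k7,k15),(k3,k18)],[(k4,k16),(k0,k20)],[(k9,k12),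
    (k5,k16)],[(k6,k12),(k2,k15)],[(k7,k12),(k3,k15)],[(k4,k12),(k0,k16)],[(k11,k12),(k1,k16)],[(k8,k12),(k10,k16)],
    [(k11,k16),(k1,k20)]]
    [] k0
    [[k0,k1,k0,k2,k0,k0],[k0,k0,k0,k3,k0,k0]]
    [.ref k0 k0 [(z1,[z0,z1]),(z1,[y3,z0,z2]),(z1,[z3,z0,y1])],.ref k0 k0 [(z1,[z0,z1]),(z1,[y1,z0,z1]),(z1,[z1])]],
    .lp [k120,k78,k80,k78,k52,k68] [k0,k0,k21,k21,k20,k20,k21,k21,k34,k34,k26,k26] k0 [[k0,k0,k6],[],[],[k0,k6],[k0,k0,k0,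
    k0,k0,k0,k6],[],[],[k0,k0,k0,k0,k0,k6]] (nat_lit 240) k5
    [[(k8,k86),(k10,k94)],[(k9,k86),(k5,k94)],[(k6,k78),(k2,k84)],[(k7,k78),(k3,k84)],[(k4,k80),(k0,k94)],[(k9,k60),
    (k5,k80)],[(k2,k78),(k6,k84)],[(k3,k78),(k7,k84)],[(k4,k60),(k0,k86)],[(k11,k60),(k1,k86)],[(k8,k60),(k10,k68)],
    [(k11,k68),(k1,k94)]]
    [] k0
    [[k0,k0,k0,k0,k0,k3]]
    [.ref k1 k0 [(z1,[z0,z1]),(z1,[y1,y3,z3])]],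
    .lp [k20,k12,k16,k18,k8,k20] [k0,k0,k4,k4,k2,k2,k1,k1,k6,k6,k0,k0] k0 [[k0,k0,k6],[],[],[k0,k6]] k48 k5
    [[(k8,k14),(k10,k20)],[(k5,k12),(k9,k14)],[(k6,k15),(k2,k18)],[(k7,k15),(k3,k18)],[(k0,k12),(k4,k16)],[(k9,k12),
    (k5,k16)],[(k2,k15),(k6,k18)],[(k3,k15),(k7,k18)],[(k4,k12),(k0,k14)],[(k1,k14),(k11,k14)],[(k8,k14),(k10,k20)],
    [(k1,k20),(k11,k20)]]
    [] k0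
    [[k1,k0,k1,k0,k1,k0]]
    [.ref k2 k0 [(z1,[z1])]]]⟩

/-- classes `0 0 0 0 1 1`, types `N0 N1 N0 N1 C0 C2` -/
noncomputable def cT6_154 : CertT :=
  ⟨[k12,k13,k12,k13,k20,k22],[],[[[]]],
    [.lp [k12,k6,k8,k8,k8,k4] [k0,k0,k3,k3,k2,k2,k2,k2,k2,k2,k4,k4] k0 [[k0,k0,k4],[],[],[k0,k4],[k0,k0,k0,k0,k0,k0,k2],[],
    [],[k0,k0,k0,k0,k0,k2]] k24 k5
    [[(k10,k8),(k11,k8)],[(k5,k6),(k9,k10)],[(k6,k7),(k2,k10)],[(k7,k7),(k3,k10)],[(k0,k6),(k4,k8)],[(k9,k6),(k5,k8)],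
    [(k2,k7),(k6,k10)],[(k3,k7),(k7,k10)],[(k4,k6),(k0,k10)],[(k10,k6),(k11,k6)],[(k8,k6),(k1,k8)],[(k8,k6),(k1,k8)]]
    [] k0
    []
    []]⟩

/-- classes `0 0 0 0 1 1`, types `N0 N1 N0 N1 N0 N1` -/
noncomputable def cT6_155 : CertT :=
  ⟨[k12,k13,k12,k13,k28,k29],[(false,k0,[k0,k1,k2,k3,k4,k5]),(true,k4,[k4,k3,k2,k1,k0,k5])],[[[([z1,z0,z1,z0,z1,z0],
    z2),([z0,z3,z0,z0,z0,z0],z2),([z0,z0,z0,z3,z0,z0],z2)],[([z3,z0,z3,z0,z3,z3],z8),([z0,z3,z0,z0,z0,z0],z2)],[([z3,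
    z0,z3,z3,z3,z3],z10)],[]]],
    [.leafM k2 [k0,k1,k2,k3,k4,k5] [(z1,[z0,z1]),(z1,[z0,z0,z1]),(z1,[y3,y1,y1,z3])] [],
    .lp [k12,k8,k12,k8,k0,k6] [k0,k0,k2,k2,k0,k0,k2,k2,k6,k6,k3,k3] k0 [] k24 k5
    [[(k8,k6)],[(k9,k6),(k5,k12)],[(k2,k8),(k6,k8)],[(k3,k8),(k7,k8)],[(k0,k12),(k4,k12)],[(k9,k6),(k5,k12)],[(k2,k8),
    (k6,k8)],[(k3,k8),(k7,k8)],[(k0,k6),(k4,k6)],[(k1,k6)],[(k10,k6)],[(k11,k6)]]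
    [] k0
    [[k0,k0,k0,k0,k0,k3]]
    [.ref k0 k0 [(z3,[y1,z1]),(z1,[z0,z0,z1]),(z1,[z0,y1,y1,z3])]],
    .lp [k24,k16,k16,k14,k8,k16] [k0,k0,k4,k4,k4,k4,k5,k5,k8,k8,k4,k4] k0 [[k0,k0,k0,k0,k0,k0,k4],[],[],[],[],[],[],[k0,
    k4]] k48 k5
    [[(k8,k16)],[(k9,k12),(k5,k20)],[(k2,k16),(k6,k19)],[(k7,k15),(k3,k16)],[(k4,k16),(k0,k20)],[(k9,k12),(k5,k16)],
    [(k6,k14),(k2,k15)],[(k7,k14),(k3,k19)],[(k0,k12),(k4,k12)],[(k1,k16)],[(k10,k16)],[(k11,k16)]]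
    [] k0
    [[k0,k0,k0,k3,k0,k0]]
    [.ref k1 k0 [(z1,[y1,z1]),(z1,[z0,y1,z3])]],
    .lp [k24,k16,k16,k14,k8,k16] [k0,k0,k4,k4,k4,k4,k5,k5,k8,k8,k4,k4] k0 [[k0,k0,k0,k0,k0,k0,k4],[],[],[],[],[],[],[k0,
    k4]] k48 k5
    [[(k8,k16)],[(k9,k12),(k5,k20)],[(k2,k16),(k6,k19)],[(k7,k15),(k3,k16)],[(k4,k16),(k0,k20)],[(k9,k12),(k5,k16)],
    [(k6,k14),(k2,k15)],[(k7,k14),(k3,k19)],[(k0,k12),(k4,k12)],[(k1,k16)],[(k10,k16)],[(k11,k16)]]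
    [] k0
    [[k0,k0,k0,k3,k0,k0]]
    [.ref k2 k1 [(z1,[y1,z3])]]]⟩

/-- classes `0 0 0 0 1 1`, types `N0 N1 N0 N1 N0 N2` -/
noncomputable def cT6_156 : CertT :=
  ⟨[k12,k13,k12,k13,k28,k30],[],[[[]]],
    [.lp [k12,k6,k8,k8,k8,k4] [k0,k0,k3,k3,k2,k2,k2,k2,k2,k2,k4,k4] k0 [[k0,k0,k4],[],[],[k0,k4],[k0,k0,k0,k0,k0,k0,k2],[],
    [],[k0,k0,k0,k0,k0,k2]] k24 k5
    [[(k11,k8)],[(k5,k6),(k9,k10)],[(k6,k7),(k2,k10)],[(k7,k7),(k3,k10)],[(k0,k6),(k4,k8)],[(k9,k6),(k5,k8)],[(k2,k7),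
    (k6,k10)],[(k3,k7),(k7,k10)],[(k4,k6),(k0,k10)],[(k10,k6)],[(k1,k8)],[(k8,k6)]]
    [] k0
    []
    []]⟩

/-- classes `0 0 0 0 1 1`, types `N0 N1 N0 N1 S0 S0` -/
noncomputable def cT6_157 : CertT :=
  ⟨[k12,k13,k12,k13,k16,k16],[(false,k0,[k0,k1,k2,k3,k4,k5]),(true,k4,[k4,k3,k2,k1,k0,k5])],[[[([z1,z0,z1,z0,z1,z0],
    z2),([z0,z3,z0,z0,z0,z0],z2),([z0,z0,z0,z3,z0,z0],z2)],[([z1,z0,z1,z0,z1,z0],z2),([z0,z1,z0,z0,z0,y1],z0)],[([z1,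
    z0,z1,z0,z1,z0],z2),([z0,z3,z0,z0,z0,z0],z2)],[([z1,z0,z1,z0,z1,z0],z2)],[]]],
    [.leafM k2 [k0,k1,k2,k3,k4,k5] [(z1,[z0,z1]),(z1,[z0,z0,z1]),(z1,[y3,y1,y1,z3])] [],
    .lp [k20,k18,k16,k12,k12,k16] [k0,k0,k1,k1,k2,k2,k4,k4,k4,k4,k2,k2] k0 [] k48 k5
    [[(k8,k16),(k10,k18),(k11,k18),(k1,k20)],[(k9,k16),(k5,k18)],[(k6,k15),(k2,k18)],[(k7,k15),(k3,k18)],[(k4,k16),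
    (k0,k18)],[(k9,k14),(k5,k16)],[(k6,k12),(k2,k15)],[(k7,k12),(k3,k15)],[(k4,k14),(k0,k16)],[(k8,k12),(k10,k14),
    (k11,k14),(k1,k16)],[(k8,k14),(k10,k16),(k11,k16),(k1,k18)],[(k8,k14),(k10,k16),(k11,k16),(k1,k18)]]
    [] k0
    [[k0,k1,k0,k2,k0,k0],[k0,k0,k0,k3,k0,k0]]
    [.ref k0 k0 [(z1,[z0,z1]),(z1,[y1,y2,z2,z2]),(z1,[z2,z1,y1,y1])],.ref k0 k0 [(z1,[z0,z1]),(z2,[y1,y3,z3,z3]),(z1,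
    [z1])]],
    .lp [k20,k18,k16,k12,k12,k16] [k0,k0,k1,k1,k2,k2,k4,k4,k4,k4,k2,k2] k0 [] k48 k5
    [[(k8,k16),(k10,k18),(k11,k18),(k1,k20)],[(k9,k16),(k5,k18)],[(k6,k15),(k2,k18)],[(k7,k15),(k3,k18)],[(k4,k16),
    (k0,k18)],[(k9,k14),(k5,k16)],[(k6,k12),(k2,k15)],[(k7,k12),(k3,k15)],[(k4,k14),(k0,k16)],[(k8,k12),(k10,k14),
    (k11,k14),(k1,k16)],[(k8,k14),(k10,k16),(k11,k16),(k1,k18)],[(k8,k14),(k10,k16),(k11,k16),(k1,k18)]]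
    [] k0
    [[k0,k1,k0,k2,k0,k0],[k0,k0,k0,k3,k0,k0]]
    [.ref k0 k0 [(z1,[z0,z1]),(z1,[z0,z0,z1]),(z2,[z3,z0,y1])],.ref k0 k0 [(z1,[z0,z1]),(z1,[z0,z0,z1]),(z1,[z1])]],
    .lp [k20,k18,k16,k12,k12,k16] [k0,k0,k1,k1,k2,k2,k4,k4,k4,k4,k2,k2] k0 [] k48 k5
    [[(k8,k16),(k10,k18),(k11,k18),(k1,k20)],[(k9,k16),(k5,k18)],[(k6,k15),(k2,k18)],[(k7,k15),(k3,k18)],[(k4,k16),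
    (k0,k18)],[(k9,k14),(k5,k16)],[(k6,k12),(k2,k15)],[(k7,k12),(k3,k15)],[(k4,k14),(k0,k16)],[(k8,k12),(k10,k14),
    (k11,k14),(k1,k16)],[(k8,k14),(k10,k16),(k11,k16),(k1,k18)],[(k8,k14),(k10,k16),(k11,k16),(k1,k18)]]
    [] k0
    [[k0,k1,k0,k2,k0,k0],[k0,k0,k0,k3,k0,k0]]
    [.ref k1 k1 [(z1,[z0,z1]),(z1,[z1,z1,y1])],.ref k2 k1 [(z1,[z0,z1]),(z1,[z1])]],
    .lp [k16,k14,k16,k16,k12,k20] [k2,k2,k3,k3,k2,k2,k2,k2,k4,k4,k0,k0] k0 [[k0,k0,k4],[],[],[k0,k4],[k0,k0,k0,k0,k0,k0,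
    k2],[],[],[k0,k0,k0,k0,k0,k2]] k48 k5
    [[(k8,k14),(k1,k16),(k10,k18),(k11,k18)],[(k5,k12),(k9,k14)],[(k6,k15),(k2,k18)],[(k7,k15),(k3,k18)],[(k0,k12),
    (k4,k16)],[(k9,k12),(k5,k16)],[(k2,k15),(k6,k18)],[(k3,k15),(k7,k18)],[(k4,k12),(k0,k14)],[(k8,k12),(k1,k14),(k10,
    k16),(k11,k16)],[(k8,k16),(k1,k18),(k10,k20),(k11,k20)],[(k8,k16),(k1,k18),(k10,k20),(k11,k20)]]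
    [] k0
    [[k1,k0,k1,k0,k1,k0]]
    [.ref k3 k0 [(z1,[z1])]]]⟩

/-- classes `0 0 0 0 1 1`, types `N0 N1 N0 N2 B0 B1` -/
noncomputable def cT6_158 : CertT :=
  ⟨[k12,k13,k12,k14,k24,k25],[],[[[]]],
    [.lp [k14,k12,k8,k14,k6,k12] [k0,k0,k1,k1,k3,k3,k0,k0,k4,k4,k1,k1] k0 [[],[],[k0,k0,k0,k0,k4],[],[k0,k0,k0,k0,k0,k0,k0,
    k2],[k0,k0,k0,k4],[k0,k0,k0,k0,k0,k2]] k36 k5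
    [[(k8,k10),(k11,k13)],[(k5,k11),(k6,k14)],[(k9,k9),(k2,k12)],[(k7,k9),(k3,k12)],[(k0,k11),(k4,k12)],[(k6,k9),(k5,
    k12)],[(k2,k9),(k9,k12)],[(k4,k9),(k0,k14)],[(k3,k9),(k7,k12)],[(k10,k9),(k1,k10)],[(k10,k12),(k1,k13)],[(k8,k9),
    (k11,k12)]]
    [] k0
    []
    []]⟩

/-- classes `0 0 0 0 1 1`, types `N0 N1 N0 N2 C0 C0` -/
noncomputable def cT6_159 : CertT :=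
  ⟨[k12,k13,k12,k14,k20,k20],[],[[[]]],
    [.lp [k10,k10,k12,k14,k8,k12] [k2,k2,k2,k2,k1,k1,k0,k0,k3,k3,k1,k1] k0 [[k0,k0,k2],[],[],[k0,k2],[k0,k0,k0,k0,k0,k0,k0,
    k4],[],[k0,k0,k0,k0,k0,k4]] k36 k5
    [[(k8,k9),(k10,k11)],[(k5,k9),(k6,k12)],[(k9,k9),(k2,k12)],[(k3,k12),(k7,k12)],[(k0,k9),(k4,k12)],[(k6,k9),(k5,
    k12)],[(k2,k12),(k9,k15)],[(k4,k9),(k0,k12)],[(k3,k9),(k7,k15)],[(k1,k9),(k11,k10)],[(k8,k10),(k10,k12)],[(k1,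
    k11),(k11,k12)]]
    [] k0
    []
    []]⟩

/-- classes `0 0 0 0 1 1`, types `N0 N1 N0 N2 C0 C2` -/
noncomputable def cT6_160 : CertT :=
  ⟨[k12,k13,k12,k14,k20,k22],[],[[[]]],
    [.lp [k2,k4,k4,k4,k2,k4] [k1,k1,k0,k0,k0,k0,k0,k0,k1,k1,k0,k0] k0 [] k12 k5
    [[(k10,k3),(k11,k3)],[(k5,k3),(k6,k3)],[(k9,k3),(k2,k4)],[(k3,k4),(k7,k4)],[(k0,k3),(k4,k4)],[(k5,k4),(k6,k4)],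
    [(k9,k3),(k2,k4)],[(k0,k3),(k4,k4)],[(k3,k3),(k7,k3)],[(k10,k3),(k11,k3)],[(k1,k3),(k8,k3)],[(k1,k3),(k8,k3)]]
    [] k0
    []
    []]⟩

/-- classes `0 0 0 0 1 1`, types `N0 N1 N0 N2 N0 N1` -/
noncomputable def cT6_161 : CertT :=
  ⟨[k12,k13,k12,k14,k28,k29],[],[[[]]],
    [.lp [k10,k10,k12,k14,k8,k12] [k2,k2,k2,k2,k1,k1,k0,k0,k3,k3,k1,k1] k0 [[k0,k0,k2],[],[],[k0,k2],[k0,k0,k0,k0,k0,k0,k0,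
    k4],[],[k0,k0,k0,k0,k0,k4]] k36 k5
    [[(k8,k9)],[(k5,k9),(k6,k12)],[(k9,k9),(k2,k12)],[(k3,k12),(k7,k12)],[(k0,k9),(k4,k12)],[(k6,k9),(k5,k12)],[(k2,
    k12),(k9,k15)],[(k4,k9),(k0,k12)],[(k3,k9),(k7,k15)],[(k1,k9)],[(k10,k12)],[(k11,k12)]]
    [] k0
    []
    []]⟩

/-- classes `0 0 0 0 1 1`, types `N0 N1 N0 N2 N0 N2` -/
noncomputable def cT6_162 : CertT :=
  ⟨[k12,k13,k12,k14,k28,k30],[],[[[]]],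
    [.lp [k2,k4,k4,k4,k2,k4] [k1,k1,k0,k0,k0,k0,k0,k0,k1,k1,k0,k0] k0 [] k12 k5
    [[(k11,k3)],[(k5,k3),(k6,k3)],[(k9,k3),(k2,k4)],[(k3,k4),(k7,k4)],[(k0,k3),(k4,k4)],[(k5,k4),(k6,k4)],[(k9,k3),
    (k2,k4)],[(k0,k3),(k4,k4)],[(k3,k3),(k7,k3)],[(k10,k3)],[(k1,k3)],[(k8,k3)]]
    [] k0
    []
    []]⟩

/-- classes `0 0 0 0 1 1`, types `N0 N1 N0 N2 S0 S0` -/
noncomputable def cT6_163 : CertT :=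
  ⟨[k12,k13,k12,k14,k16,k16],[],[[[]]],
    [.lp [k14,k8,k12,k10,k10,k12] [k0,k0,k3,k3,k1,k1,k2,k2,k2,k2,k1,k1] k0 [[k0,k0,k4],[],[],[k0,k4],[k0,k0,k0,k0,k0,k0,k0,
    k2],[],[k0,k0,k0,k0,k0,k2]] k36 k5
    [[(k8,k12),(k10,k13),(k11,k13),(k1,k14)],[(k5,k9),(k6,k12)],[(k9,k9),(k2,k12)],[(k7,k9),(k3,k12)],[(k0,k9),(k4,
    k12)],[(k6,k9),(k5,k12)],[(k2,k9),(k9,k12)],[(k4,k9),(k0,k12)],[(k3,k9),(k7,k12)],[(k8,k10),(k10,k11),(k11,k11),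
    (k1,k12)],[(k8,k11),(k10,k12),(k11,k12),(k1,k13)],[(k8,k11),(k10,k12),(k11,k12),(k1,k13)]]
    [] k0
    []
    []]⟩

/-- classes `0 0 0 0 1 1`, types `N0 N1 N1 N0 B0 B1` -/
noncomputable def cT6_164 : CertT :=
  ⟨[k12,k13,k13,k12,k24,k25],[(false,k0,[k0,k1,k2,k3,k4,k5]),(true,k4,[k4,k3,k2,k1,k0,k5])],[[[([z1,z0,z1,z0,z1,z0],
    z2),([z0,z3,z0,z0,z0,z0],z2),([z0,z0,z0,z3,z0,z0],z2)],[([z3,z0,z3,z0,z3,z3],z8),([z0,z3,z0,z0,z0,z0],z2)],[([z3,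
    z0,z3,z3,z3,z3],z10)],[]]],
    [.leafM k2 [k0,k1,k2,k3,k4,k5] [(z1,[z0,z1]),(z1,[z0,z0,z1]),(z1,[y3,y1,y1,z3])] [],
    .lp [k12,k8,k4,k8,k8,k6] [k0,k0,k2,k2,k4,k4,k2,k2,k2,k2,k3,k3] k0 [] k24 k5
    [[(k11,k9),(k8,k10)],[(k5,k8),(k7,k10)],[(k4,k6),(k2,k8)],[(k3,k8),(k9,k8)],[(k6,k6),(k0,k8)],[(k3,k6),(k9,k6)],
    [(k6,k8),(k0,k10)],[(k5,k6),(k7,k8)],[(k4,k6),(k2,k8)],[(k10,k7),(k1,k10)],[(k10,k6),(k1,k9)],[(k11,k6),(k8,k7)]]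
    [] k0
    [[k0,k0,k0,k0,k0,k3]]
    [.ref k0 k0 [(z3,[y1,z1]),(z1,[z0,z0,z1]),(z1,[z0,y1,y1,z3])]],
    .lp [k12,k8,k6,k6,k6,k8] [k0,k0,k2,k2,k3,k3,k3,k3,k3,k3,k2,k2] k0 [] k24 k5
    [[(k8,k9),(k11,k10)],[(k5,k9),(k7,k9)],[(k4,k7),(k2,k8)],[(k9,k7),(k3,k8)],[(k6,k6),(k0,k9)],[(k9,k6),(k3,k7)],
    [(k6,k6),(k0,k9)],[(k5,k6),(k7,k6)],[(k4,k6),(k2,k7)],[(k10,k7),(k1,k9)],[(k10,k8),(k1,k10)],[(k8,k7),(k11,k8)]]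
    [] k0
    [[k0,k0,k0,k3,k0,k0]]
    [.ref k1 k0 [(z1,[y1,z1]),(z1,[z0,y1,z3])]],
    .lp [k12,k8,k6,k6,k6,k8] [k0,k0,k2,k2,k3,k3,k3,k3,k3,k3,k2,k2] k0 [] k24 k5
    [[(k8,k9),(k11,k10)],[(k5,k9),(k7,k9)],[(k4,k7),(k2,k8)],[(k9,k7),(k3,k8)],[(k6,k6),(k0,k9)],[(k9,k6),(k3,k7)],
    [(k6,k6),(k0,k9)],[(k5,k6),(k7,k6)],[(k4,k6),(k2,k7)],[(k10,k7),(k1,k9)],[(k10,k8),(k1,k10)],[(k8,k7),(k11,k8)]]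
    [] k0
    [[k0,k0,k0,k3,k0,k0]]
    [.ref k2 k1 [(z1,[y1,z3])]]]⟩

/-- classes `0 0 0 0 1 1`, types `N0 N1 N1 N0 C0 C0` -/
noncomputable def cT6_165 : CertT :=
  ⟨[k12,k13,k13,k12,k20,k20],[(false,k0,[k0,k1,k2,k3,k4,k5]),(true,k4,[k4,k3,k2,k1,k0,k5])],[[[([z1,z0,z1,z0,z1,z0],
    z2),([z0,z3,z0,z0,z0,z0],z2),([z0,z0,z0,z3,z0,z0],z2)],[([z3,z0,z3,z0,z3,z3],z8),([z0,z3,z0,z0,z0,z0],z2)],[([z3,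
    z0,z3,z3,z3,z3],z10)],[]]],
    [.leafM k2 [k0,k1,k2,k3,k4,k5] [(z1,[z0,z1]),(z1,[z0,z0,z1]),(z1,[y3,y1,y1,z3])] [],
    .lp [k6,k8,k6,k8,k6,k8] [k1,k1,k0,k0,k1,k1,k0,k0,k1,k1,k0,k0] k0 [] k24 k5
    [[(k8,k6),(k10,k7)],[(k5,k6),(k7,k7)],[(k4,k7),(k2,k8)],[(k9,k7),(k3,k8)],[(k0,k6),(k6,k7)],[(k9,k6),(k3,k7)],
    [(k0,k7),(k6,k8)],[(k5,k7),(k7,k8)],[(k4,k6),(k2,k7)],[(k1,k6),(k11,k7)],[(k8,k7),(k10,k8)],[(k1,k7),(k11,k8)]]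
    [] k0
    [[k1,k0,k1,k0,k1,k0]]
    [.ref k0 k0 [(z1,[z1]),(z1,[z0,z0,z1]),(z1,[z0,y1,y1,z3])]],
    .lp [k8,k8,k12,k6,k4,k8] [k2,k2,k2,k2,k0,k0,k3,k3,k4,k4,k2,k2] k0 [] k24 k5
    [[(k8,k6),(k10,k8)],[(k7,k7),(k5,k10)],[(k2,k8),(k4,k10)],[(k9,k6),(k3,k8)],[(k6,k9),(k0,k10)],[(k9,k8),(k3,k10)],
    [(k6,k6),(k0,k7)],[(k7,k6),(k5,k9)],[(k2,k6),(k4,k8)],[(k1,k6),(k11,k6)],[(k8,k6),(k10,k8)],[(k1,k8),(k11,k8)]]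
    [] k0
    [[k0,k0,k0,k3,k0,k0]]
    [.ref k1 k0 [(z1,[y1,z1]),(z1,[z0,y1,z3])]],
    .lp [k8,k8,k12,k6,k4,k8] [k2,k2,k2,k2,k0,k0,k3,k3,k4,k4,k2,k2] k0 [] k24 k5
    [[(k8,k6),(k10,k8)],[(k7,k7),(k5,k10)],[(k2,k8),(k4,k10)],[(k9,k6),(k3,k8)],[(k6,k9),(k0,k10)],[(k9,k8),(k3,k10)],
    [(k6,k6),(k0,k7)],[(k7,k6),(k5,k9)],[(k2,k6),(k4,k8)],[(k1,k6),(k11,k6)],[(k8,k6),(k10,k8)],[(k1,k8),(k11,k8)]]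
    [] k0
    [[k0,k0,k0,k3,k0,k0]]
    [.ref k2 k1 [(z1,[y1,z3])]]]⟩

/-- classes `0 0 0 0 1 1`, types `N0 N1 N1 N0 C0 C2` -/
noncomputable def cT6_166 : CertT :=
  ⟨[k12,k13,k13,k12,k20,k22],[],[[[]]],
    [.lp [k2,k4,k4,k4,k2,k4] [k1,k1,k0,k0,k0,k0,k0,k0,k1,k1,k0,k0] k0 [] k12 k5
    [[(k10,k3),(k11,k3)],[(k5,k3),(k7,k3)],[(k2,k4),(k4,k4)],[(k9,k3),(k3,k4)],[(k0,k3),(k6,k4)],[(k9,k3),(k3,k4)],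
    [(k0,k3),(k6,k4)],[(k5,k4),(k7,k4)],[(k2,k3),(k4,k3)],[(k10,k3),(k11,k3)],[(k1,k3),(k8,k3)],[(k1,k3),(k8,k3)]]
    [] k0
    []
    []]⟩

/-- classes `0 0 0 0 1 1`, types `N0 N1 N1 N0 N0 N1` -/
noncomputable def cT6_167 : CertT :=
  ⟨[k12,k13,k13,k12,k28,k29],[(false,k0,[k0,k1,k2,k3,k4,k5]),(true,k4,[k4,k3,k2,k1,k0,k5])],[[[([z1,z0,z1,z0,z1,z0],
    z2),([z0,z3,z0,z0,z0,z0],z2),([z0,z0,z0,z3,z0,z0],z2)],[([z3,z0,z3,z0,z3,z3],z8),([z0,z3,z0,z0,z0,z0],z2)],[([z3,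
    z0,z3,z3,z3,z3],z10)],[]]],
    [.leafM k2 [k0,k1,k2,k3,k4,k5] [(z1,[z0,z1]),(z1,[z0,z0,z1]),(z1,[y3,y1,y1,z3])] [],
    .lp [k6,k8,k6,k8,k6,k8] [k1,k1,k0,k0,k1,k1,k0,k0,k1,k1,k0,k0] k0 [] k24 k5
    [[(k8,k6)],[(k5,k6),(k7,k7)],[(k4,k7),(k2,k8)],[(k9,k7),(k3,k8)],[(k0,k6),(k6,k7)],[(k9,k6),(k3,k7)],[(k0,k7),(k6,
    k8)],[(k5,k7),(k7,k8)],[(k4,k6),(k2,k7)],[(k1,k6)],[(k10,k8)],[(k11,k8)]]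
    [] k0
    [[k1,k0,k1,k0,k1,k0]]
    [.ref k0 k0 [(z1,[z1]),(z1,[z0,z0,z1]),(z1,[z0,y1,y1,z3])]],
    .lp [k8,k8,k12,k6,k4,k8] [k2,k2,k2,k2,k0,k0,k3,k3,k4,k4,k2,k2] k0 [] k24 k5
    [[(k8,k6)],[(k7,k7),(k5,k10)],[(k2,k8),(k4,k10)],[(k9,k6),(k3,k8)],[(k6,k9),(k0,k10)],[(k9,k8),(k3,k10)],[(k6,k6),
    (k0,k7)],[(k7,k6),(k5,k9)],[(k2,k6),(k4,k8)],[(k1,k6)],[(k10,k8)],[(k11,k8)]]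
    [] k0
    [[k0,k0,k0,k3,k0,k0]]
    [.ref k1 k0 [(z1,[y1,z1]),(z1,[z0,y1,z3])]],
    .lp [k8,k8,k12,k6,k4,k8] [k2,k2,k2,k2,k0,k0,k3,k3,k4,k4,k2,k2] k0 [] k24 k5
    [[(k8,k6)],[(k7,k7),(k5,k10)],[(k2,k8),(k4,k10)],[(k9,k6),(k3,k8)],[(k6,k9),(k0,k10)],[(k9,k8),(k3,k10)],[(k6,k6),
    (k0,k7)],[(k7,k6),(k5,k9)],[(k2,k6),(k4,k8)],[(k1,k6)],[(k10,k8)],[(k11,k8)]]
    [] k0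
    [[k0,k0,k0,k3,k0,k0]]
    [.ref k2 k1 [(z1,[y1,z3])]]]⟩

/-- classes `0 0 0 0 1 1`, types `N0 N1 N1 N0 N0 N2` -/
noncomputable def cT6_168 : CertT :=
  ⟨[k12,k13,k13,k12,k28,k30],[],[[[]]],
    [.lp [k2,k4,k4,k4,k2,k4] [k1,k1,k0,k0,k0,k0,k0,k0,k1,k1,k0,k0] k0 [] k12 k5
    [[(k11,k3)],[(k5,k3),(k7,k3)],[(k2,k4),(k4,k4)],[(k9,k3),(k3,k4)],[(k0,k3),(k6,k4)],[(k9,k3),(k3,k4)],[(k0,k3),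
    (k6,k4)],[(k5,k4),(k7,k4)],[(k2,k3),(k4,k3)],[(k10,k3)],[(k1,k3)],[(k8,k3)]]
    [] k0
    []
    []]⟩

/-- classes `0 0 0 0 1 1`, types `N0 N1 N1 N0 S0 S0` -/
noncomputable def cT6_169 : CertT :=
  ⟨[k12,k13,k13,k12,k16,k16],[(false,k0,[k0,k1,k2,k3,k4,k5])],[[[([z1,z0,z1,z0,z1,z0],z2),([z0,z3,z0,z0,z0,z0],z2),
    ([z0,z0,z0,z3,z0,z0],z2)],[([z1,z0,z1,z0,z1,z0],z2),([z0,z3,z0,z0,z0,z0],z2)],[([z3,z0,z3,z3,z3,z3],z10)],[]]],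
    [.leafM k2 [k0,k1,k2,k3,k4,k5] [(z1,[z0,z1]),(z1,[z0,z0,z1]),(z1,[y3,y1,y1,z3])] [],
    .lp [k12,k8,k4,k8,k8,k6] [k0,k0,k2,k2,k4,k4,k2,k2,k2,k2,k3,k3] k0 [] k24 k5
    [[(k10,k9),(k11,k9),(k8,k10),(k1,k12)],[(k5,k8),(k7,k10)],[(k4,k6),(k2,k8)],[(k3,k8),(k9,k8)],[(k6,k6),(k0,k8)],
    [(k3,k6),(k9,k6)],[(k6,k8),(k0,k10)],[(k5,k6),(k7,k8)],[(k4,k6),(k2,k8)],[(k10,k7),(k11,k7),(k8,k8),(k1,k10)],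
    [(k10,k6),(k11,k6),(k8,k7),(k1,k9)],[(k10,k6),(k11,k6),(k8,k7),(k1,k9)]]
    [] k0
    [[k0,k0,k0,k0,k0,k3]]
    [.ref k0 k0 [(z1,[z0,z1]),(z1,[z0,z0,z1]),(z1,[y1,y3,y1,z3])]],
    .lp [k6,k8,k6,k8,k6,k8] [k1,k1,k0,k0,k1,k1,k0,k0,k1,k1,k0,k0] k0 [] k24 k5
    [[(k1,k6),(k8,k6),(k10,k7),(k11,k7)],[(k5,k6),(k7,k7)],[(k4,k7),(k2,k8)],[(k9,k7),(k3,k8)],[(k0,k6),(k6,k7)],[(k9,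
    k6),(k3,k7)],[(k0,k7),(k6,k8)],[(k5,k7),(k7,k8)],[(k4,k6),(k2,k7)],[(k1,k6),(k8,k6),(k10,k7),(k11,k7)],[(k1,k7),
    (k8,k7),(k10,k8),(k11,k8)],[(k1,k7),(k8,k7),(k10,k8),(k11,k8)]]
    [] k0
    [[k1,k0,k1,k0,k1,k0]]
    [.ref k1 k0 [(z1,[z1]),(z1,[z0,y1,z3])]],
    .lp [k12,k6,k6,k8,k6,k8] [k0,k0,k3,k3,k3,k3,k2,k2,k3,k3,k2,k2] k0 [] k24 k5
    [[(k8,k9),(k10,k10),(k11,k10),(k1,k12)],[(k5,k9),(k7,k10)],[(k2,k6),(k4,k6)],[(k3,k6),(k9,k6)],[(k6,k7),(k0,k9)],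
    [(k3,k6),(k9,k6)],[(k6,k8),(k0,k10)],[(k5,k7),(k7,k8)],[(k2,k6),(k4,k6)],[(k8,k6),(k10,k7),(k11,k7),(k1,k9)],[(k8,
    k7),(k10,k8),(k11,k8),(k1,k10)],[(k8,k7),(k10,k8),(k11,k8),(k1,k10)]]
    [] k0
    [[k0,k3,k0,k0,k0,k0]]
    [.ref k2 k0 [(z1,[y1,z3])]]]⟩

/-- classes `0 0 0 0 1 1`, types `N0 N1 N1 N3 B0 B1` -/
noncomputable def cT6_170 : CertT :=
  ⟨[k12,k13,k13,k15,k24,k25],[],[[[]]],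
    [.lp [k6,k8,k6,k6,k6,k8] [k1,k1,k0,k0,k1,k1,k1,k1,k1,k1,k0,k0] k0 [] k24 k5
    [[(k8,k6),(k11,k7)],[(k5,k6),(k7,k6)],[(k4,k7),(k2,k8)],[(k6,k7),(k3,k8)],[(k0,k6),(k9,k6)],[(k6,k6),(k3,k7)],
    [(k0,k6),(k9,k6)],[(k4,k6),(k2,k7)],[(k5,k6),(k7,k6)],[(k1,k6),(k10,k7)],[(k1,k7),(k10,k8)],[(k8,k7),(k11,k8)]]
    [] k0
    []
    []]⟩

/-- classes `0 0 0 0 1 1`, types `N0 N1 N1 N3 C0 C0` -/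
noncomputable def cT6_171 : CertT :=
  ⟨[k12,k13,k13,k15,k20,k20],[],[[[]]],
    [.lp [k6,k8,k6,k6,k6,k8] [k1,k1,k0,k0,k1,k1,k1,k1,k1,k1,k0,k0] k0 [] k24 k5
    [[(k8,k6),(k10,k7)],[(k5,k6),(k7,k6)],[(k4,k7),(k2,k8)],[(k6,k7),(k3,k8)],[(k0,k6),(k9,k6)],[(k6,k6),(k3,k7)],
    [(k0,k6),(k9,k6)],[(k4,k6),(k2,k7)],[(k5,k6),(k7,k6)],[(k1,k6),(k11,k7)],[(k8,k7),(k10,k8)],[(k1,k7),(k11,k8)]]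
    [] k0
    []
    []]⟩

/-- classes `0 0 0 0 1 1`, types `N0 N1 N1 N3 C0 C2` -/
noncomputable def cT6_172 : CertT :=
  ⟨[k12,k13,k13,k15,k20,k22],[],[[[]]],
    [.lp [k6,k8,k6,k6,k6,k6] [k1,k1,k0,k0,k1,k1,k1,k1,k1,k1,k1,k1] k0 [] k24 k5
    [[(k10,k6),(k11,k6)],[(k5,k6),(k7,k6)],[(k4,k7),(k2,k8)],[(k6,k7),(k3,k8)],[(k0,k6),(k9,k6)],[(k6,k6),(k3,k7)],
    [(k0,k6),(k9,k6)],[(k4,k6),(k2,k7)],[(k5,k6),(k7,k6)],[(k10,k6),(k11,k6)],[(k1,k6),(k8,k6)],[(k1,k6),(k8,k6)]]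
    [] k0
    []
    []]⟩

/-- classes `0 0 0 0 1 1`, types `N0 N1 N1 N3 N0 N1` -/
noncomputable def cT6_173 : CertT :=
  ⟨[k12,k13,k13,k15,k28,k29],[],[[[]]],
    [.lp [k6,k8,k6,k6,k6,k8] [k1,k1,k0,k0,k1,k1,k1,k1,k1,k1,k0,k0] k0 [] k24 k5
    [[(k8,k6)],[(k5,k6),(k7,k6)],[(k4,k7),(k2,k8)],[(k6,k7),(k3,k8)],[(k0,k6),(k9,k6)],[(k6,k6),(k3,k7)],[(k0,k6),(k9,
    k6)],[(k4,k6),(k2,k7)],[(k5,k6),(k7,k6)],[(k1,k6)],[(k10,k8)],[(k11,k8)]]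
    [] k0
    []
    []]⟩

/-- classes `0 0 0 0 1 1`, types `N0 N1 N1 N3 N0 N2` -/
noncomputable def cT6_174 : CertT :=
  ⟨[k12,k13,k13,k15,k28,k30],[],[[[]]],
    [.lp [k6,k8,k6,k6,k6,k6] [k1,k1,k0,k0,k1,k1,k1,k1,k1,k1,k1,k1] k0 [] k24 k5
    [[(k11,k6)],[(k5,k6),(k7,k6)],[(k4,k7),(k2,k8)],[(k6,k7),(k3,k8)],[(k0,k6),(k9,k6)],[(k6,k6),(k3,k7)],[(k0,k6),
    (k9,k6)],[(k4,k6),(k2,k7)],[(k5,k6),(k7,k6)],[(k10,k6)],[(k1,k6)],[(k8,k6)]]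
    [] k0
    []
    []]⟩

/-- classes `0 0 0 0 1 1`, types `N0 N1 N1 N3 S0 S0` -/
noncomputable def cT6_175 : CertT :=
  ⟨[k12,k13,k13,k15,k16,k16],[],[[[]]],
    [.lp [k6,k8,k6,k6,k6,k8] [k1,k1,k0,k0,k1,k1,k1,k1,k1,k1,k0,k0] k0 [] k24 k5
    [[(k1,k6),(k8,k6),(k10,k7),(k11,k7)],[(k5,k6),(k7,k6)],[(k4,k7),(k2,k8)],[(k6,k7),(k3,k8)],[(k0,k6),(k9,k6)],[(k6,
    k6),(k3,k7)],[(k0,k6),(k9,k6)],[(k4,k6),(k2,k7)],[(k5,k6),(k7,k6)],[(k1,k6),(k8,k6),(k10,k7),(k11,k7)],[(k1,k7),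
    (k8,k7),(k10,k8),(k11,k8)],[(k1,k7),(k8,k7),(k10,k8),(k11,k8)]]
    [] k0
    []
    []]⟩

/-- classes `0 0 0 0 1 1`, types `N0 N1 N2 N0 B0 B1` -/
noncomputable def cT6_176 : CertT :=
  ⟨[k12,k13,k14,k12,k24,k25],[],[[[]]],
    [.lp [k4,k4,k2,k4,k2,k4] [k0,k0,k0,k0,k1,k1,k0,k0,k1,k1,k0,k0] k0 [] k12 k5
    [[(k8,k3),(k11,k4)],[(k4,k3),(k5,k3)],[(k2,k4),(k7,k4)],[(k9,k3),(k3,k4)],[(k0,k3),(k6,k3)],[(k0,k3),(k6,k3)],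
    [(k9,k3),(k3,k4)],[(k4,k3),(k5,k3)],[(k2,k3),(k7,k3)],[(k1,k3),(k10,k3)],[(k1,k4),(k10,k4)],[(k8,k3),(k11,k4)]]
    [] k0
    []
    []]⟩

/-- classes `0 0 0 0 1 1`, types `N0 N1 N2 N0 C0 C0` -/
noncomputable def cT6_177 : CertT :=
  ⟨[k12,k13,k14,k12,k20,k20],[],[[[]]],
    [.lp [k4,k4,k2,k4,k2,k4] [k0,k0,k0,k0,k1,k1,k0,k0,k1,k1,k0,k0] k0 [] k12 k5
    [[(k8,k3),(k10,k4)],[(k4,k3),(k5,k3)],[(k2,k4),(k7,k4)],[(k9,k3),(k3,k4)],[(k0,k3),(k6,k3)],[(k0,k3),(k6,k3)],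
    [(k9,k3),(k3,k4)],[(k4,k3),(k5,k3)],[(k2,k3),(k7,k3)],[(k1,k3),(k11,k3)],[(k8,k3),(k10,k4)],[(k1,k4),(k11,k4)]]
    [] k0
    []
    []]⟩

/-- classes `0 0 0 0 1 1`, types `N0 N1 N2 N0 C0 C2` -/
noncomputable def cT6_178 : CertT :=
  ⟨[k12,k13,k14,k12,k20,k22],[],[[[]]],
    [.lp [k6,k8,k6,k6,k6,k6] [k1,k1,k0,k0,k1,k1,k1,k1,k1,k1,k1,k1] k0 [] k24 k5
    [[(k10,k6),(k11,k6)],[(k4,k6),(k5,k6)],[(k7,k7),(k2,k8)],[(k9,k7),(k3,k8)],[(k0,k6),(k6,k6)],[(k0,k6),(k6,k6)],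
    [(k9,k6),(k3,k7)],[(k4,k6),(k5,k6)],[(k7,k6),(k2,k7)],[(k10,k6),(k11,k6)],[(k1,k6),(k8,k6)],[(k1,k6),(k8,k6)]]
    [] k0
    []
    []]⟩

/-- classes `0 0 0 0 1 1`, types `N0 N1 N2 N0 N0 N1` -/
noncomputable def cT6_179 : CertT :=
  ⟨[k12,k13,k14,k12,k28,k29],[],[[[]]],
    [.lp [k4,k4,k2,k4,k2,k4] [k0,k0,k0,k0,k1,k1,k0,k0,k1,k1,k0,k0] k0 [] k12 k5
    [[(k8,k3)],[(k4,k3),(k5,k3)],[(k2,k4),(k7,k4)],[(k9,k3),(k3,k4)],[(k0,k3),(k6,k3)],[(k0,k3),(k6,k3)],[(k9,k3),(k3,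
    k4)],[(k4,k3),(k5,k3)],[(k2,k3),(k7,k3)],[(k1,k3)],[(k10,k4)],[(k11,k4)]]
    [] k0
    []
    []]⟩

/-- classes `0 0 0 0 1 1`, types `N0 N1 N2 N0 N0 N2` -/
noncomputable def cT6_180 : CertT :=
  ⟨[k12,k13,k14,k12,k28,k30],[],[[[]]],
    [.lp [k6,k8,k6,k6,k6,k6] [k1,k1,k0,k0,k1,k1,k1,k1,k1,k1,k1,k1] k0 [] k24 k5
    [[(k11,k6)],[(k4,k6),(k5,k6)],[(k7,k7),(k2,k8)],[(k9,k7),(k3,k8)],[(k0,k6),(k6,k6)],[(k0,k6),(k6,k6)],[(k9,k6),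
    (k3,k7)],[(k4,k6),(k5,k6)],[(k7,k6),(k2,k7)],[(k10,k6)],[(k1,k6)],[(k8,k6)]]
    [] k0
    []
    []]⟩

/-- classes `0 0 0 0 1 1`, types `N0 N1 N2 N0 S0 S0` -/
noncomputable def cT6_181 : CertT :=
  ⟨[k12,k13,k14,k12,k16,k16],[],[[[]]],
    [.lp [k10,k6,k6,k6,k6,k8] [k0,k0,k2,k2,k2,k2,k2,k2,k2,k2,k1,k1] k0 [[k0,k0,k2],[],[],[k0,k2]] k24 k5
    [[(k8,k8),(k10,k9),(k11,k9),(k1,k10)],[(k5,k6),(k4,k8)],[(k7,k6),(k2,k8)],[(k9,k6),(k3,k8)],[(k0,k6),(k6,k6)],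
    [(k6,k6),(k0,k8)],[(k3,k6),(k9,k6)],[(k4,k6),(k5,k6)],[(k2,k6),(k7,k6)],[(k8,k6),(k10,k7),(k11,k7),(k1,k8)],[(k8,
    k7),(k10,k8),(k11,k8),(k1,k9)],[(k8,k7),(k10,k8),(k11,k8),(k1,k9)]]
    [] k0
    []
    []]⟩

/-- classes `0 0 0 0 1 1`, types `N0 N1 N2 N3 B0 B1` -/
noncomputable def cT6_182 : CertT :=
  ⟨[k12,k13,k14,k15,k24,k25],[(false,k0,[k0,k1,k2,k3,k4,k5]),(true,k4,[k4,k3,k2,k1,k0,k5])],[[[([z1,z0,z1,z0,z1,z0],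
    z2),([z0,z3,z0,z0,z0,z0],z2),([z0,z0,z0,z3,z0,z0],z2)],[([z1,z0,z1,z0,z1,z0],z2),([z0,z1,z0,z0,z0,y1],z0)],[([z1,
    z0,z1,y1,z1,z1],z2)],[([z3,z0,z3,z0,z3,z3],z8),([z0,z3,z0,z0,z0,z0],z2)],[([z3,z0,z3,z3,z3,z3],z10)],[]]],
    [.leafM k2 [k0,k1,k2,k3,k4,k5] [(z1,[z0,z1]),(z1,[z0,z0,z1]),(z1,[y3,y1,y1,z3])] [],
    .lp [k24,k18,k0,k12,k24,k16] [k0,k0,k3,k3,k12,k12,k6,k6,k0,k0,k4,k4] k0 [] k48 k5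
    [[(k11,k20),(k8,k24)],[(k4,k12),(k5,k12)],[(k7,k15),(k2,k18)],[(k6,k15),(k3,k18)],[(k0,k12),(k9,k12)],[(k0,k12),
    (k9,k12)],[(k6,k12),(k3,k15)],[(k7,k12),(k2,k15)],[(k4,k12),(k5,k12)],[(k10,k20),(k1,k24)],[(k10,k16),(k1,k20)],
    [(k11,k16),(k8,k20)]]
    [] k0
    [[k0,k1,k0,k2,k0,k0],[k0,k0,k0,k3,k0,k0]]
    [.ref k0 k0 [(z1,[z0,z1]),(z1,[y1,y2,z2,z2]),(z1,[z2,z1,y1,y1])],.ref k0 k0 [(z1,[z0,z1]),(z2,[y1,y3,z3,z3]),(z1,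
    [z1])]],
    .lp [k6,k8,k6,k8,k6,k8] [k1,k1,k0,k0,k1,k1,k0,k0,k1,k1,k0,k0] k0 [] k24 k5
    [[(k8,k6),(k11,k7)],[(k4,k6),(k5,k6)],[(k2,k8),(k7,k8)],[(k3,k8),(k6,k8)],[(k0,k6),(k9,k6)],[(k0,k6),(k9,k6)],
    [(k3,k8),(k6,k8)],[(k2,k8),(k7,k8)],[(k4,k6),(k5,k6)],[(k1,k6),(k10,k7)],[(k1,k7),(k10,k8)],[(k8,k7),(k11,k8)]]
    [] k0
    [[k1,k0,k1,k0,k1,k0]]
    [.ref k1 k1 [(z1,[z1]),(z1,[z1,y1])]],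
    .lp [k6,k8,k6,k8,k6,k8] [k1,k1,k0,k0,k1,k1,k0,k0,k1,k1,k0,k0] k0 [] k24 k5
    [[(k8,k6),(k11,k7)],[(k4,k6),(k5,k6)],[(k2,k8),(k7,k8)],[(k3,k8),(k6,k8)],[(k0,k6),(k9,k6)],[(k0,k6),(k9,k6)],
    [(k3,k8),(k6,k8)],[(k2,k8),(k7,k8)],[(k4,k6),(k5,k6)],[(k1,k6),(k10,k7)],[(k1,k7),(k10,k8)],[(k8,k7),(k11,k8)]]
    [] k0
    [[k1,k0,k1,k0,k1,k0]]
    [.ref k0 k0 [(z1,[z1]),(z1,[z0,z0,z1]),(z1,[z0,y1,y1,z3])]],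
    .lp [k24,k18,k0,k12,k24,k16] [k0,k0,k3,k3,k12,k12,k6,k6,k0,k0,k4,k4] k0 [] k48 k5
    [[(k11,k20),(k8,k24)],[(k4,k12),(k5,k12)],[(k7,k15),(k2,k18)],[(k6,k15),(k3,k18)],[(k0,k12),(k9,k12)],[(k0,k12),
    (k9,k12)],[(k6,k12),(k3,k15)],[(k7,k12),(k2,k15)],[(k4,k12),(k5,k12)],[(k10,k20),(k1,k24)],[(k10,k16),(k1,k20)],
    [(k11,k16),(k8,k20)]]
    [] k0
    [[k0,k1,k0,k2,k0,k0],[k0,k0,k0,k3,k0,k0]]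
    [.ref k3 k0 [(z2,[y3,z1,z3]),(z1,[z0,y1,z3])],.ref k3 k0 [(z1,[y1,z1]),(z1,[z0,y1,z3])]],
    .lp [k24,k18,k0,k12,k24,k16] [k0,k0,k3,k3,k12,k12,k6,k6,k0,k0,k4,k4] k0 [] k48 k5
    [[(k11,k20),(k8,k24)],[(k4,k12),(k5,k12)],[(k7,k15),(k2,k18)],[(k6,k15),(k3,k18)],[(k0,k12),(k9,k12)],[(k0,k12),
    (k9,k12)],[(k6,k12),(k3,k15)],[(k7,k12),(k2,k15)],[(k4,k12),(k5,k12)],[(k10,k20),(k1,k24)],[(k10,k16),(k1,k20)],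
    [(k11,k16),(k8,k20)]]
    [] k0
    [[k0,k1,k0,k2,k0,k0],[k0,k0,k0,k3,k0,k0]]
    [.ref k2 k0 [(z1,[y1,z1])],.ref k4 k1 [(z1,[y1,z3])]]]⟩

/-- classes `0 0 0 0 1 1`, types `N0 N1 N2 N3 C0 C0` -/
noncomputable def cT6_183 : CertT :=
  ⟨[k12,k13,k14,k15,k20,k20],[(false,k0,[k0,k1,k2,k3,k4,k5]),(true,k4,[k4,k3,k2,k1,k0,k5])],[[[([z1,z0,z1,z0,z1,z0],
    z2),([z0,z3,z0,z0,z0,z0],z2),([z0,z0,z0,z3,z0,z0],z2)],[([z1,z0,z1,z0,z1,z0],z2),([z0,z1,z0,z0,z0,y1],z0)],[([z1,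
    z0,z1,z0,z1,z0],z2),([z0,z3,z0,z0,z0,z0],z2)],[([z1,z0,z1,z0,z1,z0],z2)],[]]],
    [.leafM k2 [k0,k1,k2,k3,k4,k5] [(z1,[z0,z1]),(z1,[z0,z0,z1]),(z1,[y3,y1,y1,z3])] [],
    .lp [k16,k18,k24,k12,k8,k16] [k4,k4,k3,k3,k0,k0,k6,k6,k8,k8,k4,k4] k0 [] k48 k5
    [[(k8,k12),(k10,k16)],[(k4,k20),(k5,k20)],[(k7,k15),(k2,k18)],[(k6,k15),(k3,k18)],[(k9,k16),(k0,k20)],[(k9,k16),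
    (k0,k20)],[(k6,k12),(k3,k15)],[(k7,k12),(k2,k15)],[(k4,k16),(k5,k16)],[(k1,k12),(k11,k12)],[(k8,k12),(k10,k16)],
    [(k1,k16),(k11,k16)]]
    [] k0
    [[k0,k1,k0,k2,k0,k0],[k0,k0,k0,k3,k0,k0]]
    [.ref k0 k0 [(z1,[z0,z1]),(z1,[y1,y2,z2,z2]),(z1,[z2,z1,y1,y1])],.ref k0 k0 [(z1,[z0,z1]),(z2,[y1,y3,z3,z3]),(z1,
    [z1])]],
    .lp [k16,k18,k24,k12,k8,k16] [k4,k4,k3,k3,k0,k0,k6,k6,k8,k8,k4,k4] k0 [] k48 k5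
    [[(k8,k12),(k10,k16)],[(k4,k20),(k5,k20)],[(k7,k15),(k2,k18)],[(k6,k15),(k3,k18)],[(k9,k16),(k0,k20)],[(k9,k16),
    (k0,k20)],[(k6,k12),(k3,k15)],[(k7,k12),(k2,k15)],[(k4,k16),(k5,k16)],[(k1,k12),(k11,k12)],[(k8,k12),(k10,k16)],
    [(k1,k16),(k11,k16)]]
    [] k0
    [[k0,k1,k0,k2,k0,k0],[k0,k0,k0,k3,k0,k0]]
    [.ref k0 k0 [(z1,[z0,z1]),(z1,[z0,z0,z1]),(z2,[z3,z0,y1])],.ref k0 k0 [(z1,[z0,z1]),(z1,[z0,z0,z1]),(z1,[z1])]],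
    .lp [k16,k18,k24,k12,k8,k16] [k4,k4,k3,k3,k0,k0,k6,k6,k8,k8,k4,k4] k0 [] k48 k5
    [[(k8,k12),(k10,k16)],[(k4,k20),(k5,k20)],[(k7,k15),(k2,k18)],[(k6,k15),(k3,k18)],[(k9,k16),(k0,k20)],[(k9,k16),
    (k0,k20)],[(k6,k12),(k3,k15)],[(k7,k12),(k2,k15)],[(k4,k16),(k5,k16)],[(k1,k12),(k11,k12)],[(k8,k12),(k10,k16)],
    [(k1,k16),(k11,k16)]]
    [] k0
    [[k0,k1,k0,k2,k0,k0],[k0,k0,k0,k3,k0,k0]]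
    [.ref k1 k1 [(z1,[z0,z1]),(z1,[z1,z1,y1])],.ref k2 k1 [(z1,[z0,z1]),(z1,[z1])]],
    .lp [k6,k8,k6,k8,k6,k8] [k1,k1,k0,k0,k1,k1,k0,k0,k1,k1,k0,k0] k0 [] k24 k5
    [[(k8,k6),(k10,k7)],[(k4,k6),(k5,k6)],[(k2,k8),(k7,k8)],[(k3,k8),(k6,k8)],[(k0,k6),(k9,k6)],[(k0,k6),(k9,k6)],
    [(k3,k8),(k6,k8)],[(k2,k8),(k7,k8)],[(k4,k6),(k5,k6)],[(k1,k6),(k11,k7)],[(k8,k7),(k10,k8)],[(k1,k7),(k11,k8)]]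
    [] k0
    [[k1,k0,k1,k0,k1,k0]]
    [.ref k3 k0 [(z1,[z1])]]]⟩

/-- classes `0 0 0 0 1 1`, types `N0 N1 N2 N3 C0 C2` -/
noncomputable def cT6_184 : CertT :=
  ⟨[k12,k13,k14,k15,k20,k22],[],[[[]]],
    [.lp [k0,k4,k6,k4,k0,k6] [k3,k3,k1,k1,k0,k0,k1,k1,k3,k3,k0,k0] k0 [] k12 k5
    [[(k10,k3),(k11,k3)],[(k4,k3),(k5,k3)],[(k2,k4),(k7,k4)],[(k3,k4),(k6,k4)],[(k0,k3),(k9,k3)],[(k0,k3),(k9,k3)],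
    [(k3,k4),(k6,k4)],[(k2,k4),(k7,k4)],[(k4,k3),(k5,k3)],[(k10,k3),(k11,k3)],[(k1,k3),(k8,k3)],[(k1,k3),(k8,k3)]]
    [] k0
    []
    []]⟩

/-- classes `0 0 0 0 1 1`, types `N0 N1 N2 N3 N0 N1` -/
noncomputable def cT6_185 : CertT :=
  ⟨[k12,k13,k14,k15,k28,k29],[(false,k0,[k0,k1,k2,k3,k4,k5]),(true,k4,[k4,k3,k2,k1,k0,k5])],[[[([z1,z0,z1,z0,z1,z0],
    z2),([z0,z3,z0,z0,z0,z0],z2),([z0,z0,z0,z3,z0,z0],z2)],[([z1,z0,z1,z0,z1,z0],z2),([z0,z1,z0,z0,z0,y1],z0)],[([z1,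
    z0,z1,z0,z1,z0],z2),([z0,z3,z0,z0,z0,z0],z2)],[([z1,z0,z1,z0,z1,z0],z2)],[]]],
    [.leafM k2 [k0,k1,k2,k3,k4,k5] [(z1,[z0,z1]),(z1,[z0,z0,z1]),(z1,[y3,y1,y1,z3])] [],
    .lp [k24,k18,k24,k12,k0,k16] [k0,k0,k3,k3,k0,k0,k6,k6,k12,k12,k4,k4] k0 [] k48 k5
    [[(k8,k12)],[(k4,k24),(k5,k24)],[(k7,k15),(k2,k18)],[(k6,k15),(k3,k18)],[(k9,k12),(k0,k24)],[(k9,k12),(k0,k24)],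
    [(k6,k12),(k3,k15)],[(k7,k12),(k2,k15)],[(k4,k12),(k5,k12)],[(k1,k12)],[(k10,k16)],[(k11,k16)]]
    [] k0
    [[k0,k1,k0,k2,k0,k0],[k0,k0,k0,k3,k0,k0]]
    [.ref k0 k0 [(z1,[z0,z1]),(z1,[y1,y2,z2,z2]),(z1,[z2,z1,y1,y1])],.ref k0 k0 [(z1,[z0,z1]),(z2,[y1,y3,z3,z3]),(z1,
    [z1])]],
    .lp [k24,k18,k24,k12,k0,k16] [k0,k0,k3,k3,k0,k0,k6,k6,k12,k12,k4,k4] k0 [] k48 k5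
    [[(k8,k12)],[(k4,k24),(k5,k24)],[(k7,k15),(k2,k18)],[(k6,k15),(k3,k18)],[(k9,k12),(k0,k24)],[(k9,k12),(k0,k24)],
    [(k6,k12),(k3,k15)],[(k7,k12),(k2,k15)],[(k4,k12),(k5,k12)],[(k1,k12)],[(k10,k16)],[(k11,k16)]]
    [] k0
    [[k0,k1,k0,k2,k0,k0],[k0,k0,k0,k3,k0,k0]]
    [.ref k0 k0 [(z1,[z0,z1]),(z1,[z0,z0,z1]),(z2,[z3,z0,y1])],.ref k0 k0 [(z1,[z0,z1]),(z1,[z0,z0,z1]),(z1,[z1])]],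
    .lp [k24,k18,k24,k12,k0,k16] [k0,k0,k3,k3,k0,k0,k6,k6,k12,k12,k4,k4] k0 [] k48 k5
    [[(k8,k12)],[(k4,k24),(k5,k24)],[(k7,k15),(k2,k18)],[(k6,k15),(k3,k18)],[(k9,k12),(k0,k24)],[(k9,k12),(k0,k24)],
    [(k6,k12),(k3,k15)],[(k7,k12),(k2,k15)],[(k4,k12),(k5,k12)],[(k1,k12)],[(k10,k16)],[(k11,k16)]]
    [] k0
    [[k0,k1,k0,k2,k0,k0],[k0,k0,k0,k3,k0,k0]]
    [.ref k1 k1 [(z1,[z0,z1]),(z1,[z1,z1,y1])],.ref k2 k1 [(z1,[z0,z1]),(z1,[z1])]],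
    .lp [k6,k8,k6,k8,k6,k8] [k1,k1,k0,k0,k1,k1,k0,k0,k1,k1,k0,k0] k0 [] k24 k5
    [[(k8,k6)],[(k4,k6),(k5,k6)],[(k2,k8),(k7,k8)],[(k3,k8),(k6,k8)],[(k0,k6),(k9,k6)],[(k0,k6),(k9,k6)],[(k3,k8),(k6,
    k8)],[(k2,k8),(k7,k8)],[(k4,k6),(k5,k6)],[(k1,k6)],[(k10,k8)],[(k11,k8)]]
    [] k0
    [[k1,k0,k1,k0,k1,k0]]
    [.ref k3 k0 [(z1,[z1])]]]⟩

/-- classes `0 0 0 0 1 1`, types `N0 N1 N2 N3 N0 N2` -/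
noncomputable def cT6_186 : CertT :=
  ⟨[k12,k13,k14,k15,k28,k30],[],[[[]]],
    [.lp [k0,k4,k6,k4,k0,k6] [k3,k3,k1,k1,k0,k0,k1,k1,k3,k3,k0,k0] k0 [] k12 k5
    [[(k11,k3)],[(k4,k3),(k5,k3)],[(k2,k4),(k7,k4)],[(k3,k4),(k6,k4)],[(k0,k3),(k9,k3)],[(k0,k3),(k9,k3)],[(k3,k4),
    (k6,k4)],[(k2,k4),(k7,k4)],[(k4,k3),(k5,k3)],[(k10,k3)],[(k1,k3)],[(k8,k3)]]
    [] k0
    []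
    []]⟩

/-- classes `0 0 0 0 1 1`, types `N0 N1 N2 N3 S0 S0` -/
noncomputable def cT6_187 : CertT :=
  ⟨[k12,k13,k14,k15,k16,k16],[(false,k0,[k0,k1,k2,k3,k4,k5]),(true,k4,[k4,k3,k2,k1,k0,k5])],[[[([z1,z0,z1,z0,z1,z0],
    z2),([z0,z3,z0,z0,z0,z0],z2),([z0,z0,z0,z3,z0,z0],z2)],[([z3,z0,z3,y3,z3,z0],z4),([z0,z1,z0,z2,z0,z0],z2)],[([z1,
    z0,z1,y1,z1,z1],z2)],[([z3,z0,z3,z0,z3,z3],z8),([z0,z3,z0,z0,z0,z0],z2)],[([z3,z0,z3,z3,z3,z3],z10)],[]]],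
    [.leafM k2 [k0,k1,k2,k3,k4,k5] [(z1,[z0,z1]),(z1,[z0,z0,z1]),(z1,[y3,y1,y1,z3])] [],
    .lp [k24,k12,k0,k18,k24,k16] [k0,k0,k6,k6,k12,k12,k3,k3,k0,k0,k4,k4] k0 [] k48 k5
    [[(k10,k20),(k11,k20),(k1,k24),(k8,k24)],[(k4,k12),(k5,k12)],[(k2,k12),(k7,k15)],[(k3,k12),(k6,k15)],[(k0,k12),
    (k9,k12)],[(k0,k12),(k9,k12)],[(k3,k15),(k6,k18)],[(k2,k15),(k7,k18)],[(k4,k12),(k5,k12)],[(k10,k20),(k11,k20),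
    (k1,k24),(k8,k24)],[(k10,k16),(k11,k16),(k1,k20),(k8,k20)],[(k10,k16),(k11,k16),(k1,k20),(k8,k20)]]
    [] k0
    [[k0,k3,k0,k0,k0,k0],[k0,k2,k0,k1,k0,k0]]
    [.ref k0 k0 [(z6,[y1,z2,z3]),(z1,[z1]),(z2,[y1,z0,z3])],.ref k0 k0 [(z3,[y1,z1,z2]),(z1,[z2,z0,y1]),(z1,[y1,z0,
    z2])]],
    .lp [k12,k8,k0,k8,k12,k6] [k0,k0,k2,k2,k6,k6,k2,k2,k0,k0,k3,k3] k0 [] k24 k5
    [[(k10,k9),(k11,k9),(k1,k12),(k8,k12)],[(k4,k6),(k5,k6)],[(k2,k8),(k7,k8)],[(k3,k8),(k6,k8)],[(k0,k6),(k9,k6)],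
    [(k0,k6),(k9,k6)],[(k3,k8),(k6,k8)],[(k2,k8),(k7,k8)],[(k4,k6),(k5,k6)],[(k10,k9),(k11,k9),(k1,k12),(k8,k12)],
    [(k10,k6),(k11,k6),(k1,k9),(k8,k9)],[(k10,k6),(k11,k6),(k1,k9),(k8,k9)]]
    [] k0
    [[k0,k0,k0,k0,k0,k3]]
    [.ref k1 k0 [(z1,[y1,z3]),(z1,[z0,y1,z1])]],
    .lp [k12,k8,k0,k8,k12,k6] [k0,k0,k2,k2,k6,k6,k2,k2,k0,k0,k3,k3] k0 [] k24 k5
    [[(k10,k9),(k11,k9),(k1,k12),(k8,k12)],[(k4,k6),(k5,k6)],[(k2,k8),(k7,k8)],[(k3,k8),(k6,k8)],[(k0,k6),(k9,k6)],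
    [(k0,k6),(k9,k6)],[(k3,k8),(k6,k8)],[(k2,k8),(k7,k8)],[(k4,k6),(k5,k6)],[(k10,k9),(k11,k9),(k1,k12),(k8,k12)],
    [(k10,k6),(k11,k6),(k1,k9),(k8,k9)],[(k10,k6),(k11,k6),(k1,k9),(k8,k9)]]
    [] k0
    [[k0,k0,k0,k0,k0,k3]]
    [.ref k0 k0 [(z3,[y1,z1]),(z1,[z0,z0,z1]),(z1,[z0,y1,y1,z3])]],
    .lp [k24,k18,k0,k12,k24,k16] [k0,k0,k3,k3,k12,k12,k6,k6,k0,k0,k4,k4] k0 [] k48 k5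
    [[(k10,k20),(k11,k20),(k1,k24),(k8,k24)],[(k4,k12),(k5,k12)],[(k7,k15),(k2,k18)],[(k6,k15),(k3,k18)],[(k0,k12),
    (k9,k12)],[(k0,k12),(k9,k12)],[(k6,k12),(k3,k15)],[(k7,k12),(k2,k15)],[(k4,k12),(k5,k12)],[(k10,k20),(k11,k20),
    (k1,k24),(k8,k24)],[(k10,k16),(k11,k16),(k1,k20),(k8,k20)],[(k10,k16),(k11,k16),(k1,k20),(k8,k20)]]
    [] k0
    [[k0,k1,k0,k2,k0,k0],[k0,k0,k0,k3,k0,k0]]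
    [.ref k3 k0 [(z2,[y3,z1,z3]),(z1,[z0,y1,z3])],.ref k3 k0 [(z1,[y1,z1]),(z1,[z0,y1,z3])]],
    .lp [k24,k18,k0,k12,k24,k16] [k0,k0,k3,k3,k12,k12,k6,k6,k0,k0,k4,k4] k0 [] k48 k5
    [[(k10,k20),(k11,k20),(k1,k24),(k8,k24)],[(k4,k12),(k5,k12)],[(k7,k15),(k2,k18)],[(k6,k15),(k3,k18)],[(k0,k12),
    (k9,k12)],[(k0,k12),(k9,k12)],[(k6,k12),(k3,k15)],[(k7,k12),(k2,k15)],[(k4,k12),(k5,k12)],[(k10,k20),(k11,k20),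
    (k1,k24),(k8,k24)],[(k10,k16),(k11,k16),(k1,k20),(k8,k20)],[(k10,k16),(k11,k16),(k1,k20),(k8,k20)]]
    [] k0
    [[k0,k1,k0,k2,k0,k0],[k0,k0,k0,k3,k0,k0]]
    [.ref k2 k0 [(z1,[y1,z1])],.ref k4 k1 [(z1,[y1,z3])]]]⟩

/-- classes `0 0 0 0 1 1`, types `N0 N1 N3 N1 B0 B1` -/
noncomputable def cT6_188 : CertT :=
  ⟨[k12,k13,k15,k13,k24,k25],[(false,k0,[k0,k1,k2,k3,k4,k5])],[[[([z1,z0,z0,z0,z1,z1],z2)],[]]],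
    [.leafM k6 [k1,k2,k3,k4,k5,k0] [(z1,[z1])] [],
    .lp [k6,k4,k2,k4,k2,k4] [k0,k0,k1,k1,k2,k2,k1,k1,k2,k2,k1,k1] k0 [] k12 k5
    [[(k8,k4),(k11,k5)],[(k5,k4),(k9,k4)],[(k2,k4),(k6,k4)],[(k4,k3),(k3,k4)],[(k7,k3),(k0,k4)],[(k2,k3),(k6,k3)],
    [(k5,k3),(k9,k3)],[(k4,k3),(k3,k4)],[(k7,k3),(k0,k4)],[(k10,k3),(k1,k4)],[(k10,k4),(k1,k5)],[(k8,k3),(k11,k4)]]
    [] k0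
    [[k0,k1,k1,k1,k0,k0]]
    [.ref k0 k0 [(z1,[y1,z1])]]]⟩

/-- classes `0 0 0 0 1 1`, types `N0 N1 N3 N1 C0 C0` -/
noncomputable def cT6_189 : CertT :=
  ⟨[k12,k13,k15,k13,k20,k20],[(false,k0,[k0,k1,k2,k3,k4,k5])],[[[([z1,z0,z0,z0,z1,z1],z2)],[]]],
    [.leafM k4 [k1,k2,k3,k4,k5,k0] [(z1,[z1])] [],
    .lp [k4,k6,k2,k4,k2,k4] [k1,k1,k0,k0,k2,k2,k1,k1,k2,k2,k1,k1] k0 [] k12 k5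
    [[(k8,k3),(k10,k4)],[(k5,k3),(k9,k3)],[(k6,k5),(k2,k6)],[(k4,k4),(k3,k6)],[(k0,k3),(k7,k3)],[(k6,k3),(k2,k4)],
    [(k5,k3),(k9,k3)],[(k4,k3),(k3,k5)],[(k0,k3),(k7,k3)],[(k1,k3),(k11,k3)],[(k8,k3),(k10,k4)],[(k1,k4),(k11,k4)]]
    [] k0
    [[k1,k0,k0,k0,k1,k1]]
    [.ref k0 k0 [(z1,[z1])]]]⟩

/-- classes `0 0 0 0 1 1`, types `N0 N1 N3 N1 C0 C2` -/
noncomputable def cT6_190 : CertT :=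
  ⟨[k12,k13,k15,k13,k20,k22],[(false,k0,[k0,k1,k2,k3,k4,k5])],[[[([z1,z0,z0,z0,z1,z1],z2)],[]]],
    [.leafM k4 [k1,k2,k3,k4,k5,k0] [(z1,[z1])] [],
    .lp [k2,k4,k2,k2,k2,k2] [k1,k1,k0,k0,k1,k1,k1,k1,k1,k1,k1,k1] k0 [] k8 k5
    [[(k10,k2),(k11,k2)],[(k5,k2),(k9,k2)],[(k6,k3),(k2,k4)],[(k4,k3),(k3,k4)],[(k0,k2),(k7,k2)],[(k6,k2),(k2,k3)],
    [(k5,k2),(k9,k2)],[(k4,k2),(k3,k3)],[(k0,k2),(k7,k2)],[(k10,k2),(k11,k2)],[(k1,k2),(k8,k2)],[(k1,k2),(k8,k2)]]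
    [] k0
    [[k1,k0,k0,k0,k1,k1]]
    [.ref k0 k0 [(z1,[z1])]]]⟩

/-- classes `0 0 0 0 1 1`, types `N0 N1 N3 N1 N0 N1` -/
noncomputable def cT6_191 : CertT :=
  ⟨[k12,k13,k15,k13,k28,k29],[],[[[]]],
    [.lp [k6,k6,k0,k6,k0,k4] [k0,k0,k0,k0,k3,k3,k0,k0,k3,k3,k1,k1] k0 [] k12 k5
    [[(k8,k3)],[(k5,k3),(k9,k3)],[(k2,k6),(k6,k6)],[(k4,k3),(k3,k6)],[(k0,k3),(k7,k3)],[(k2,k3),(k6,k3)],[(k5,k3),(k9,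
    k3)],[(k4,k3),(k3,k6)],[(k0,k3),(k7,k3)],[(k1,k3)],[(k10,k4)],[(k11,k4)]]
    [] k0
    []
    []]⟩

/-- classes `0 0 0 0 1 1`, types `N0 N1 N3 N1 N0 N2` -/
noncomputable def cT6_192 : CertT :=
  ⟨[k12,k13,k15,k13,k28,k30],[(false,k0,[k0,k1,k2,k3,k4,k5])],[[[([z1,z0,z0,z0,z1,z1],z2)],[]]],
    [.leafM k6 [k1,k2,k3,k4,k5,k0] [(z1,[z1])] [],
    .lp [k2,k4,k2,k2,k2,k2] [k1,k1,k0,k0,k1,k1,k1,k1,k1,k1,k1,k1] k0 [] k8 k5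
    [[(k11,k2)],[(k5,k2),(k9,k2)],[(k6,k3),(k2,k4)],[(k4,k3),(k3,k4)],[(k0,k2),(k7,k2)],[(k6,k2),(k2,k3)],[(k5,k2),
    (k9,k2)],[(k4,k2),(k3,k3)],[(k0,k2),(k7,k2)],[(k10,k2)],[(k1,k2)],[(k8,k2)]]
    [] k0
    [[k1,k0,k0,k0,k1,k1]]
    [.ref k0 k0 [(z1,[z1])]]]⟩

/-- classes `0 0 0 0 1 1`, types `N0 N1 N3 N1 S0 S0` -/
noncomputable def cT6_193 : CertT :=
  ⟨[k12,k13,k15,k13,k16,k16],[(false,k0,[k0,k1,k2,k3,k4,k5])],[[[([z1,z0,z0,z0,z1,z1],z2)],[]]],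
    [.leafM k4 [k1,k2,k3,k4,k5,k0] [(z1,[z1])] [],
    .lp [k6,k8,k6,k10,k6,k8] [k2,k2,k1,k1,k2,k2,k0,k0,k2,k2,k1,k1] k0 [] k24 k5
    [[(k1,k6),(k8,k6),(k10,k7),(k11,k7)],[(k5,k6),(k9,k6)],[(k2,k8),(k6,k9)],[(k4,k7),(k3,k8)],[(k0,k6),(k7,k8)],[(k2,
    k7),(k6,k8)],[(k5,k8),(k9,k8)],[(k4,k8),(k3,k9)],[(k0,k6),(k7,k8)],[(k1,k6),(k8,k6),(k10,k7),(k11,k7)],[(k1,k7),
    (k8,k7),(k10,k8),(k11,k8)],[(k1,k7),(k8,k7),(k10,k8),(k11,k8)]]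
    [] k0
    [[k1,k0,k0,k0,k1,k1]]
    [.ref k0 k0 [(z1,[z1])]]]⟩

/-- classes `0 0 0 0 1 1`, types `N0 N1 N3 N2 B0 B1` -/
noncomputable def cT6_194 : CertT :=
  ⟨[k12,k13,k15,k14,k24,k25],[(false,k0,[k0,k1,k2,k3,k4,k5]),(true,k4,[k4,k3,k2,k1,k0,k5])],[[[([z1,z0,z1,z0,z1,z0],
    z2),([z0,z3,z0,z0,z0,z0],z2),([z0,z0,z0,z3,z0,z0],z2)],[([z3,z0,z3,z3,z3,z0],z8),([z0,z3,z0,z0,z0,z0],z2)],[([z3,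
    z3,z3,z3,z3,z0],z10)],[]]],
    [.leafM k2 [k0,k1,k2,k3,k4,k5] [(z1,[z0,z1]),(z1,[z0,z0,z1]),(z1,[y3,y1,y1,z3])] [],
    .lp [k12,k8,k6,k6,k6,k8] [k0,k0,k2,k2,k3,k3,k3,k3,k3,k3,k2,k2] k0 [] k24 k5
    [[(k8,k9),(k11,k10)],[(k5,k9),(k6,k9)],[(k9,k7),(k2,k8)],[(k4,k7),(k3,k8)],[(k7,k6),(k0,k9)],[(k9,k6),(k2,k7)],
    [(k5,k6),(k6,k6)],[(k7,k6),(k0,k9)],[(k4,k6),(k3,k7)],[(k10,k7),(k1,k9)],[(k10,k8),(k1,k10)],[(k8,k7),(k11,k8)]]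
    [] k0
    [[k0,k0,k0,k3,k0,k0]]
    [.ref k0 k0 [(z3,[y1,z1]),(z1,[z0,z0,z1]),(z1,[z1])]],
    .lp [k12,k8,k6,k6,k6,k8] [k0,k0,k2,k2,k3,k3,k3,k3,k3,k3,k2,k2] k0 [] k24 k5
    [[(k8,k9),(k11,k10)],[(k5,k9),(k6,k9)],[(k9,k7),(k2,k8)],[(k4,k7),(k3,k8)],[(k7,k6),(k0,k9)],[(k9,k6),(k2,k7)],
    [(k5,k6),(k6,k6)],[(k7,k6),(k0,k9)],[(k4,k6),(k3,k7)],[(k10,k7),(k1,k9)],[(k10,k8),(k1,k10)],[(k8,k7),(k11,k8)]]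
    [] k0
    [[k0,k0,k0,k3,k0,k0]]
    [.ref k1 k1 [(z1,[y1,z1]),(z1,[z1])]],
    .lp [k12,k8,k4,k8,k8,k6] [k0,k0,k2,k2,k4,k4,k2,k2,k2,k2,k3,k3] k0 [] k24 k5
    [[(k11,k9),(k8,k10)],[(k5,k8),(k6,k10)],[(k2,k8),(k9,k8)],[(k4,k6),(k3,k8)],[(k7,k6),(k0,k8)],[(k2,k6),(k9,k6)],
    [(k5,k6),(k6,k8)],[(k7,k8),(k0,k10)],[(k4,k6),(k3,k8)],[(k10,k7),(k1,k10)],[(k10,k6),(k1,k9)],[(k11,k6),(k8,k7)]]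
    [] k0
    [[k0,k0,k0,k0,k0,k3]]
    [.ref k2 k0 [(z1,[y1,z3])]]]⟩

/-- classes `0 0 0 0 1 1`, types `N0 N1 N3 N2 C0 C0` -/
noncomputable def cT6_195 : CertT :=
  ⟨[k12,k13,k15,k14,k20,k20],[(false,k0,[k0,k1,k2,k3,k4,k5])],[[[([z1,z0,z1,z0,z1,z0],z2),([z0,z3,z0,z0,z0,z0],z2),
    ([z0,z0,z0,z3,z0,z0],z2)],[([z1,z0,z1,z0,z1,z0],z2),([z0,z3,z0,z0,z0,z0],z2)],[([z1,z0,z1,z0,z1,z0],z2)],[]]],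
    [.leafM k2 [k0,k1,k2,k3,k4,k5] [(z1,[z0,z1]),(z1,[z0,z0,z1]),(z1,[y3,y1,y1,z3])] [],
    .lp [k8,k8,k12,k6,k4,k8] [k2,k2,k2,k2,k0,k0,k3,k3,k4,k4,k2,k2] k0 [] k24 k5
    [[(k8,k6),(k10,k8)],[(k6,k7),(k5,k10)],[(k9,k6),(k2,k8)],[(k3,k8),(k4,k10)],[(k7,k9),(k0,k10)],[(k9,k8),(k2,k10)],
    [(k6,k6),(k5,k9)],[(k7,k6),(k0,k7)],[(k3,k6),(k4,k8)],[(k1,k6),(k11,k6)],[(k8,k6),(k10,k8)],[(k1,k8),(k11,k8)]]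
    [] k0
    [[k0,k0,k0,k3,k0,k0]]
    [.ref k0 k0 [(z1,[z0,z1]),(z1,[z0,z0,z1]),(z1,[z1])]],
    .lp [k6,k6,k12,k8,k6,k8] [k3,k3,k3,k3,k0,k0,k2,k2,k3,k3,k2,k2] k0 [] k24 k5
    [[(k8,k6),(k10,k7)],[(k6,k7),(k5,k9)],[(k2,k6),(k9,k6)],[(k3,k6),(k4,k9)],[(k0,k9),(k7,k10)],[(k2,k9),(k9,k9)],
    [(k6,k8),(k5,k10)],[(k0,k7),(k7,k8)],[(k3,k6),(k4,k9)],[(k1,k6),(k11,k7)],[(k8,k7),(k10,k8)],[(k1,k7),(k11,k8)]]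
    [] k0
    [[k0,k3,k0,k0,k0,k0]]
    [.ref k1 k0 [(z1,[z0,z1]),(z1,[z1])]],
    .lp [k6,k8,k6,k8,k6,k8] [k1,k1,k0,k0,k1,k1,k0,k0,k1,k1,k0,k0] k0 [] k24 k5
    [[(k8,k6),(k10,k7)],[(k5,k6),(k6,k7)],[(k9,k7),(k2,k8)],[(k4,k7),(k3,k8)],[(k0,k6),(k7,k7)],[(k9,k6),(k2,k7)],
    [(k5,k7),(k6,k8)],[(k0,k7),(k7,k8)],[(k4,k6),(k3,k7)],[(k1,k6),(k11,k7)],[(k8,k7),(k10,k8)],[(k1,k7),(k11,k8)]]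
    [] k0
    [[k1,k0,k1,k0,k1,k0]]
    [.ref k2 k0 [(z1,[z1])]]]⟩

/-- classes `0 0 0 0 1 1`, types `N0 N1 N3 N2 C0 C2` -/
noncomputable def cT6_196 : CertT :=
  ⟨[k12,k13,k15,k14,k20,k22],[],[[[]]],
    [.lp [k2,k4,k4,k4,k2,k4] [k1,k1,k0,k0,k0,k0,k0,k0,k1,k1,k0,k0] k0 [] k12 k5
    [[(k10,k3),(k11,k3)],[(k5,k3),(k6,k3)],[(k9,k3),(k2,k4)],[(k3,k4),(k4,k4)],[(k0,k3),(k7,k4)],[(k9,k3),(k2,k4)],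
    [(k5,k4),(k6,k4)],[(k0,k3),(k7,k4)],[(k3,k3),(k4,k3)],[(k10,k3),(k11,k3)],[(k1,k3),(k8,k3)],[(k1,k3),(k8,k3)]]
    [] k0
    []
    []]⟩

/-- classes `0 0 0 0 1 1`, types `N0 N1 N3 N2 N0 N1` -/
noncomputable def cT6_197 : CertT :=
  ⟨[k12,k13,k15,k14,k28,k29],[(false,k0,[k0,k1,k2,k3,k4,k5])],[[[([z1,z0,z1,z0,z1,z0],z2),([z0,z3,z0,z0,z0,z0],z2),
    ([z0,z0,z0,z3,z0,z0],z2)],[([z1,z0,z1,z0,z1,z0],z2),([z0,z3,z0,z0,z0,z0],z2)],[([z1,z0,z1,z0,z1,z0],z2)],[]]],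
    [.leafM k2 [k0,k1,k2,k3,k4,k5] [(z1,[z0,z1]),(z1,[z0,z0,z1]),(z1,[y3,y1,y1,z3])] [],
    .lp [k8,k8,k12,k6,k4,k8] [k2,k2,k2,k2,k0,k0,k3,k3,k4,k4,k2,k2] k0 [] k24 k5
    [[(k8,k6)],[(k6,k7),(k5,k10)],[(k9,k6),(k2,k8)],[(k3,k8),(k4,k10)],[(k7,k9),(k0,k10)],[(k9,k8),(k2,k10)],[(k6,k6),
    (k5,k9)],[(k7,k6),(k0,k7)],[(k3,k6),(k4,k8)],[(k1,k6)],[(k10,k8)],[(k11,k8)]]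
    [] k0
    [[k0,k0,k0,k3,k0,k0]]
    [.ref k0 k0 [(z1,[z0,z1]),(z1,[z0,z0,z1]),(z1,[z1])]],
    .lp [k6,k6,k12,k8,k6,k8] [k3,k3,k3,k3,k0,k0,k2,k2,k3,k3,k2,k2] k0 [] k24 k5
    [[(k8,k6)],[(k6,k7),(k5,k9)],[(k2,k6),(k9,k6)],[(k3,k6),(k4,k9)],[(k0,k9),(k7,k10)],[(k2,k9),(k9,k9)],[(k6,k8),
    (k5,k10)],[(k0,k7),(k7,k8)],[(k3,k6),(k4,k9)],[(k1,k6)],[(k10,k8)],[(k11,k8)]]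
    [] k0
    [[k0,k3,k0,k0,k0,k0]]
    [.ref k1 k0 [(z1,[z0,z1]),(z1,[z1])]],
    .lp [k6,k8,k6,k8,k6,k8] [k1,k1,k0,k0,k1,k1,k0,k0,k1,k1,k0,k0] k0 [] k24 k5
    [[(k8,k6)],[(k5,k6),(k6,k7)],[(k9,k7),(k2,k8)],[(k4,k7),(k3,k8)],[(k0,k6),(k7,k7)],[(k9,k6),(k2,k7)],[(k5,k7),(k6,
    k8)],[(k0,k7),(k7,k8)],[(k4,k6),(k3,k7)],[(k1,k6)],[(k10,k8)],[(k11,k8)]]
    [] k0
    [[k1,k0,k1,k0,k1,k0]]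
    [.ref k2 k0 [(z1,[z1])]]]⟩

/-- classes `0 0 0 0 1 1`, types `N0 N1 N3 N2 N0 N2` -/
noncomputable def cT6_198 : CertT :=
  ⟨[k12,k13,k15,k14,k28,k30],[],[[[]]],
    [.lp [k2,k4,k4,k4,k2,k4] [k1,k1,k0,k0,k0,k0,k0,k0,k1,k1,k0,k0] k0 [] k12 k5
    [[(k11,k3)],[(k5,k3),(k6,k3)],[(k9,k3),(k2,k4)],[(k3,k4),(k4,k4)],[(k0,k3),(k7,k4)],[(k9,k3),(k2,k4)],[(k5,k4),
    (k6,k4)],[(k0,k3),(k7,k4)],[(k3,k3),(k4,k3)],[(k10,k3)],[(k1,k3)],[(k8,k3)]]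
    [] k0
    []
    []]⟩

/-- classes `0 0 0 0 1 1`, types `N0 N1 N3 N2 S0 S0` -/
noncomputable def cT6_199 : CertT :=
  ⟨[k12,k13,k15,k14,k16,k16],[(false,k0,[k0,k1,k2,k3,k4,k5])],[[[([z1,z0,z1,z0,z1,z0],z2),([z0,z3,z0,z0,z0,z0],z2),
    ([z0,z0,z0,z3,z0,z0],z2)],[([z1,z0,z1,z0,z1,z0],z2),([z0,z3,z0,z0,z0,z0],z2)],[([z3,z0,z3,z3,z3,z3],z10)],[]]],
    [.leafM k2 [k0,k1,k2,k3,k4,k5] [(z1,[z0,z1]),(z1,[z0,z0,z1]),(z1,[y3,y1,y1,z3])] [],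
    .lp [k12,k8,k6,k6,k6,k8] [k0,k0,k2,k2,k3,k3,k3,k3,k3,k3,k2,k2] k0 [] k24 k5
    [[(k8,k9),(k10,k10),(k11,k10),(k1,k12)],[(k5,k9),(k6,k9)],[(k9,k7),(k2,k8)],[(k4,k7),(k3,k8)],[(k7,k6),(k0,k9)],
    [(k9,k6),(k2,k7)],[(k5,k6),(k6,k6)],[(k7,k6),(k0,k9)],[(k4,k6),(k3,k7)],[(k8,k6),(k10,k7),(k11,k7),(k1,k9)],[(k8,
    k7),(k10,k8),(k11,k8),(k1,k10)],[(k8,k7),(k10,k8),(k11,k8),(k1,k10)]]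
    [] k0
    [[k0,k0,k0,k3,k0,k0]]
    [.ref k0 k0 [(z1,[z0,z1]),(z1,[z0,z0,z1]),(z1,[z1])]],
    .lp [k6,k8,k6,k8,k6,k8] [k1,k1,k0,k0,k1,k1,k0,k0,k1,k1,k0,k0] k0 [] k24 k5
    [[(k1,k6),(k8,k6),(k10,k7),(k11,k7)],[(k5,k6),(k6,k7)],[(k9,k7),(k2,k8)],[(k4,k7),(k3,k8)],[(k0,k6),(k7,k7)],[(k9,
    k6),(k2,k7)],[(k5,k7),(k6,k8)],[(k0,k7),(k7,k8)],[(k4,k6),(k3,k7)],[(k1,k6),(k8,k6),(k10,k7),(k11,k7)],[(k1,k7),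
    (k8,k7),(k10,k8),(k11,k8)],[(k1,k7),(k8,k7),(k10,k8),(k11,k8)]]
    [] k0
    [[k1,k0,k1,k0,k1,k0]]
    [.ref k1 k0 [(z1,[z1]),(z1,[z0,y1,z3])]],
    .lp [k12,k6,k6,k8,k6,k8] [k0,k0,k3,k3,k3,k3,k2,k2,k3,k3,k2,k2] k0 [] k24 k5
    [[(k8,k9),(k10,k10),(k11,k10),(k1,k12)],[(k5,k9),(k6,k10)],[(k2,k6),(k9,k6)],[(k3,k6),(k4,k6)],[(k7,k7),(k0,k9)],
    [(k2,k6),(k9,k6)],[(k5,k7),(k6,k8)],[(k7,k8),(k0,k10)],[(k3,k6),(k4,k6)],[(k8,k6),(k10,k7),(k11,k7),(k1,k9)],[(k8,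
    k7),(k10,k8),(k11,k8),(k1,k10)],[(k8,k7),(k10,k8),(k11,k8),(k1,k10)]]
    [] k0
    [[k0,k3,k0,k0,k0,k0]]
    [.ref k2 k0 [(z1,[y1,z3])]]]⟩

/-- classes `0 0 0 0 1 1`, types `N0 N2 N0 N2 B0 B1` -/
noncomputable def cT6_200 : CertT :=
  ⟨[k12,k14,k12,k14,k24,k25],[],[[[]]],
    [.lp [k6,k4,k2,k4,k2,k4] [k0,k0,k1,k1,k2,k2,k1,k1,k2,k2,k1,k1] k0 [] k12 k5
    [[(k8,k4),(k11,k5)],[(k2,k5),(k6,k5)],[(k5,k3),(k9,k3)],[(k4,k3),(k0,k5)],[(k3,k3),(k7,k3)],[(k2,k3),(k6,k3)],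
    [(k5,k3),(k9,k3)],[(k4,k3),(k0,k5)],[(k3,k3),(k7,k3)],[(k10,k3),(k1,k4)],[(k10,k4),(k1,k5)],[(k8,k3),(k11,k4)]]
    [] k0
    []
    []]⟩

/-- classes `0 0 0 0 1 1`, types `N0 N2 N0 N2 C0 C0` -/
noncomputable def cT6_201 : CertT :=
  ⟨[k12,k14,k12,k14,k20,k20],[],[[[]]],
    [.lp [k4,k6,k0,k6,k2,k4] [k1,k1,k0,k0,k3,k3,k0,k0,k2,k2,k1,k1] k0 [] k12 k5
    [[(k8,k3),(k10,k4)],[(k2,k5),(k6,k5)],[(k5,k3),(k9,k4)],[(k4,k3),(k0,k5)],[(k3,k3),(k7,k3)],[(k2,k3),(k6,k3)],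
    [(k5,k3),(k9,k4)],[(k4,k3),(k0,k5)],[(k3,k4),(k7,k4)],[(k1,k3),(k11,k3)],[(k8,k3),(k10,k4)],[(k1,k4),(k11,k4)]]
    [] k0
    []
    []]⟩

/-- classes `0 0 0 0 1 1`, types `N0 N2 N0 N2 C0 C2` -/
noncomputable def cT6_202 : CertT :=
  ⟨[k12,k14,k12,k14,k20,k22],[],[[[]]],
    [.lp [k0,k2,k0,k2,k0,k2] [k1,k1,k0,k0,k1,k1,k0,k0,k1,k1,k0,k0] k0 [] k4 k5
    [[(k10,k1),(k11,k1)],[(k2,k1),(k6,k1)],[(k5,k1),(k9,k1)],[(k0,k1),(k4,k1)],[(k3,k1),(k7,k1)],[(k2,k1),(k6,k1)],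
    [(k5,k1),(k9,k1)],[(k0,k1),(k4,k1)],[(k3,k1),(k7,k1)],[(k10,k1),(k11,k1)],[(k1,k1),(k8,k1)],[(k1,k1),(k8,k1)]]
    [] k0
    []
    []]⟩

/-- classes `0 0 0 0 1 1`, types `N0 N2 N0 N2 N0 N1` -/
noncomputable def cT6_203 : CertT :=
  ⟨[k12,k14,k12,k14,k28,k29],[],[[[]]],
    [.lp [k6,k6,k0,k6,k0,k4] [k0,k0,k0,k0,k3,k3,k0,k0,k3,k3,k1,k1] k0 [] k12 k5
    [[(k8,k3)],[(k2,k6),(k6,k6)],[(k5,k3),(k9,k3)],[(k4,k3),(k0,k6)],[(k3,k3),(k7,k3)],[(k2,k3),(k6,k3)],[(k5,k3),(k9,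
    k3)],[(k4,k3),(k0,k6)],[(k3,k3),(k7,k3)],[(k1,k3)],[(k10,k4)],[(k11,k4)]]
    [] k0
    []
    []]⟩

/-- classes `0 0 0 0 1 1`, types `N0 N2 N0 N2 N0 N2` -/
noncomputable def cT6_204 : CertT :=
  ⟨[k12,k14,k12,k14,k28,k30],[],[[[]]],
    [.lp [k0,k2,k0,k2,k0,k2] [k1,k1,k0,k0,k1,k1,k0,k0,k1,k1,k0,k0] k0 [] k4 k5
    [[(k11,k1)],[(k2,k1),(k6,k1)],[(k5,k1),(k9,k1)],[(k0,k1),(k4,k1)],[(k3,k1),(k7,k1)],[(k2,k1),(k6,k1)],[(k5,k1),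
    (k9,k1)],[(k0,k1),(k4,k1)],[(k3,k1),(k7,k1)],[(k10,k1)],[(k1,k1)],[(k8,k1)]]
    [] k0
    []
    []]⟩

/-- classes `0 0 0 0 1 1`, types `N0 N2 N0 N2 S0 S0` -/
noncomputable def cT6_205 : CertT :=
  ⟨[k12,k14,k12,k14,k16,k16],[],[[[]]],
    [.lp [k12,k6,k6,k6,k6,k8] [k0,k0,k3,k3,k3,k3,k3,k3,k3,k3,k2,k2] k0 [] k24 k5
    [[(k8,k9),(k10,k10),(k11,k10),(k1,k12)],[(k2,k9),(k6,k9)],[(k5,k6),(k9,k6)],[(k4,k6),(k0,k9)],[(k3,k6),(k7,k6)],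
    [(k2,k6),(k6,k6)],[(k5,k6),(k9,k6)],[(k4,k6),(k0,k9)],[(k3,k6),(k7,k6)],[(k8,k6),(k10,k7),(k11,k7),(k1,k9)],[(k8,
    k7),(k10,k8),(k11,k8),(k1,k10)],[(k8,k7),(k10,k8),(k11,k8),(k1,k10)]]
    [] k0
    []
    []]⟩

/-- classes `0 0 0 0 1 1`, types `N0 N2 N1 N3 B0 B1` -/
noncomputable def cT6_206 : CertT :=
  ⟨[k12,k14,k13,k15,k24,k25],[],[[[]]],
    [.lp [k6,k6,k6,k6,k6,k8] [k1,k1,k1,k1,k1,k1,k1,k1,k1,k1,k0,k0] k0 [] k24 k5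
    [[(k8,k6),(k11,k7)],[(k2,k6),(k7,k6)],[(k4,k6),(k5,k6)],[(k0,k6),(k9,k6)],[(k3,k6),(k6,k6)],[(k3,k6),(k6,k6)],
    [(k0,k6),(k9,k6)],[(k4,k6),(k5,k6)],[(k2,k6),(k7,k6)],[(k1,k6),(k10,k7)],[(k1,k7),(k10,k8)],[(k8,k7),(k11,k8)]]
    [] k0
    []
    []]⟩

/-- classes `0 0 0 0 1 1`, types `N0 N2 N1 N3 C0 C0` -/
noncomputable def cT6_207 : CertT :=
  ⟨[k12,k14,k13,k15,k20,k20],[],[[[]]],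
    [.lp [k6,k6,k6,k6,k6,k8] [k1,k1,k1,k1,k1,k1,k1,k1,k1,k1,k0,k0] k0 [] k24 k5
    [[(k8,k6),(k10,k7)],[(k2,k6),(k7,k6)],[(k4,k6),(k5,k6)],[(k0,k6),(k9,k6)],[(k3,k6),(k6,k6)],[(k3,k6),(k6,k6)],
    [(k0,k6),(k9,k6)],[(k4,k6),(k5,k6)],[(k2,k6),(k7,k6)],[(k1,k6),(k11,k7)],[(k8,k7),(k10,k8)],[(k1,k7),(k11,k8)]]
    [] k0
    []
    []]⟩

/-- classes `0 0 0 0 1 1`, types `N0 N2 N1 N3 C0 C2` -/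
noncomputable def cT6_208 : CertT :=
  ⟨[k12,k14,k13,k15,k20,k22],[],[[[]]],
    [.lp [k0,k2,k0,k2,k0,k2] [k1,k1,k0,k0,k1,k1,k0,k0,k1,k1,k0,k0] k0 [] k4 k5
    [[(k10,k1),(k11,k1)],[(k2,k1),(k7,k1)],[(k4,k1),(k5,k1)],[(k0,k1),(k9,k1)],[(k3,k1),(k6,k1)],[(k3,k1),(k6,k1)],
    [(k0,k1),(k9,k1)],[(k4,k1),(k5,k1)],[(k2,k1),(k7,k1)],[(k10,k1),(k11,k1)],[(k1,k1),(k8,k1)],[(k1,k1),(k8,k1)]]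
    [] k0
    []
    []]⟩

/-- classes `0 0 0 0 1 1`, types `N0 N2 N1 N3 N0 N1` -/
noncomputable def cT6_209 : CertT :=
  ⟨[k12,k14,k13,k15,k28,k29],[],[[[]]],
    [.lp [k6,k6,k6,k6,k6,k8] [k1,k1,k1,k1,k1,k1,k1,k1,k1,k1,k0,k0] k0 [] k24 k5
    [[(k8,k6)],[(k2,k6),(k7,k6)],[(k4,k6),(k5,k6)],[(k0,k6),(k9,k6)],[(k3,k6),(k6,k6)],[(k3,k6),(k6,k6)],[(k0,k6),(k9,
    k6)],[(k4,k6),(k5,k6)],[(k2,k6),(k7,k6)],[(k1,k6)],[(k10,k8)],[(k11,k8)]]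
    [] k0
    []
    []]⟩

/-- classes `0 0 0 0 1 1`, types `N0 N2 N1 N3 N0 N2` -/
noncomputable def cT6_210 : CertT :=
  ⟨[k12,k14,k13,k15,k28,k30],[],[[[]]],
    [.lp [k0,k2,k0,k2,k0,k2] [k1,k1,k0,k0,k1,k1,k0,k0,k1,k1,k0,k0] k0 [] k4 k5
    [[(k11,k1)],[(k2,k1),(k7,k1)],[(k4,k1),(k5,k1)],[(k0,k1),(k9,k1)],[(k3,k1),(k6,k1)],[(k3,k1),(k6,k1)],[(k0,k1),
    (k9,k1)],[(k4,k1),(k5,k1)],[(k2,k1),(k7,k1)],[(k10,k1)],[(k1,k1)],[(k8,k1)]]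
    [] k0
    []
    []]⟩

/-- classes `0 0 0 0 1 1`, types `N0 N2 N1 N3 S0 S0` -/
noncomputable def cT6_211 : CertT :=
  ⟨[k12,k14,k13,k15,k16,k16],[],[[[]]],
    [.lp [k6,k6,k6,k6,k6,k8] [k1,k1,k1,k1,k1,k1,k1,k1,k1,k1,k0,k0] k0 [] k24 k5
    [[(k1,k6),(k8,k6),(k10,k7),(k11,k7)],[(k2,k6),(k7,k6)],[(k4,k6),(k5,k6)],[(k0,k6),(k9,k6)],[(k3,k6),(k6,k6)],[(k3,
    k6),(k6,k6)],[(k0,k6),(k9,k6)],[(k4,k6),(k5,k6)],[(k2,k6),(k7,k6)],[(k1,k6),(k8,k6),(k10,k7),(k11,k7)],[(k1,k7),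
    (k8,k7),(k10,k8),(k11,k8)],[(k1,k7),(k8,k7),(k10,k8),(k11,k8)]]
    [] k0
    []
    []]⟩

/-- classes `0 0 0 0 1 1`, types `N0 N2 N2 N0 B0 B1` -/
noncomputable def cT6_212 : CertT :=
  ⟨[k12,k14,k14,k12,k24,k25],[],[[[]]],
    [.lp [k12,k6,k6,k6,k6,k8] [k0,k0,k3,k3,k3,k3,k3,k3,k3,k3,k2,k2] k0 [] k24 k5
    [[(k8,k9),(k11,k10)],[(k2,k9),(k4,k9)],[(k5,k6),(k7,k6)],[(k6,k6),(k0,k9)],[(k3,k6),(k9,k6)],[(k6,k6),(k0,k9)],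
    [(k3,k6),(k9,k6)],[(k2,k6),(k4,k6)],[(k5,k6),(k7,k6)],[(k10,k7),(k1,k9)],[(k10,k8),(k1,k10)],[(k8,k7),(k11,k8)]]
    [] k0
    []
    []]⟩

/-- classes `0 0 0 0 1 1`, types `N0 N2 N2 N0 C0 C0` -/
noncomputable def cT6_213 : CertT :=
  ⟨[k12,k14,k14,k12,k20,k20],[],[[[]]],
    [.lp [k4,k10,k10,k2,k10,k8] [k3,k3,k0,k0,k0,k0,k4,k4,k0,k0,k1,k1] k0 [] k24 k5
    [[(k10,k6),(k8,k7)],[(k2,k7),(k4,k7)],[(k7,k6),(k5,k10)],[(k6,k6),(k0,k7)],[(k3,k10),(k9,k10)],[(k6,k6),(k0,k7)],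
    [(k3,k6),(k9,k6)],[(k2,k6),(k4,k6)],[(k7,k6),(k5,k10)],[(k1,k7),(k11,k9)],[(k10,k8),(k8,k9)],[(k1,k6),(k11,k8)]]
    [] k0
    []
    []]⟩

/-- classes `0 0 0 0 1 1`, types `N0 N2 N2 N0 C0 C2` -/
noncomputable def cT6_214 : CertT :=
  ⟨[k12,k14,k14,k12,k20,k22],[],[[[]]],
    [.lp [k2,k2,k2,k2,k2,k2] [k0,k0,k0,k0,k0,k0,k0,k0,k0,k0,k0,k0] k0 [] k8 k5
    [[(k10,k2),(k11,k2)],[(k2,k2),(k4,k2)],[(k5,k2),(k7,k2)],[(k0,k2),(k6,k2)],[(k3,k2),(k9,k2)],[(k0,k2),(k6,k2)],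
    [(k3,k2),(k9,k2)],[(k2,k2),(k4,k2)],[(k5,k2),(k7,k2)],[(k10,k2),(k11,k2)],[(k1,k2),(k8,k2)],[(k1,k2),(k8,k2)]]
    [] k0
    []
    []]⟩

/-- classes `0 0 0 0 1 1`, types `N0 N2 N2 N0 N0 N1` -/
noncomputable def cT6_215 : CertT :=
  ⟨[k12,k14,k14,k12,k28,k29],[],[[[]]],
    [.lp [k0,k6,k6,k0,k6,k4] [k3,k3,k0,k0,k0,k0,k3,k3,k0,k0,k1,k1] k0 [] k12 k5
    [[(k8,k3)],[(k2,k3),(k4,k3)],[(k7,k3),(k5,k6)],[(k0,k3),(k6,k3)],[(k3,k6),(k9,k6)],[(k0,k3),(k6,k3)],[(k3,k3),(k9,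
    k3)],[(k2,k3),(k4,k3)],[(k7,k3),(k5,k6)],[(k1,k3)],[(k10,k4)],[(k11,k4)]]
    [] k0
    []
    []]⟩

/-- classes `0 0 0 0 1 1`, types `N0 N2 N2 N0 N0 N2` -/
noncomputable def cT6_216 : CertT :=
  ⟨[k12,k14,k14,k12,k28,k30],[],[[[]]],
    [.lp [k2,k2,k2,k2,k2,k2] [k0,k0,k0,k0,k0,k0,k0,k0,k0,k0,k0,k0] k0 [] k8 k5
    [[(k11,k2)],[(k2,k2),(k4,k2)],[(k5,k2),(k7,k2)],[(k0,k2),(k6,k2)],[(k3,k2),(k9,k2)],[(k0,k2),(k6,k2)],[(k3,k2),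
    (k9,k2)],[(k2,k2),(k4,k2)],[(k5,k2),(k7,k2)],[(k10,k2)],[(k1,k2)],[(k8,k2)]]
    [] k0
    []
    []]⟩

/-- classes `0 0 0 0 1 1`, types `N0 N2 N2 N0 S0 S0` -/
noncomputable def cT6_217 : CertT :=
  ⟨[k12,k14,k14,k12,k16,k16],[],[[[]]],
    [.lp [k18,k6,k18,k18,k12,k16] [k0,k0,k6,k6,k0,k0,k0,k0,k3,k3,k1,k1] k0 [] k48 k5
    [[(k8,k15),(k10,k17),(k11,k17),(k1,k18)],[(k2,k12),(k4,k18)],[(k5,k12),(k7,k12)],[(k0,k12),(k6,k12)],[(k3,k12),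
    (k9,k15)],[(k0,k18),(k6,k18)],[(k3,k12),(k9,k15)],[(k2,k12),(k4,k18)],[(k5,k15),(k7,k15)],[(k8,k12),(k10,k14),
    (k11,k14),(k1,k15)],[(k8,k14),(k10,k16),(k11,k16),(k1,k17)],[(k8,k14),(k10,k16),(k11,k16),(k1,k17)]]
    [] k0
    []
    []]⟩

/-- classes `0 0 0 0 1 1`, types `N0 N2 N3 N1 B0 B1` -/
noncomputable def cT6_218 : CertT :=
  ⟨[k12,k14,k15,k13,k24,k25],[],[[[]]],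
    [.lp [k8,k10,k8,k4,k8,k8] [k1,k1,k0,k0,k1,k1,k3,k3,k1,k1,k1,k1] k0 [[k0,k0,k0,k2],[],[k0,k2]] k24 k5
    [[(k8,k8),(k11,k8)],[(k2,k7),(k9,k8)],[(k6,k7),(k5,k11)],[(k0,k7),(k7,k7)],[(k4,k8),(k3,k11)],[(k6,k6),(k5,k8)],
    [(k9,k6),(k2,k7)],[(k4,k6),(k3,k7)],[(k7,k6),(k0,k8)],[(k1,k8),(k10,k8)],[(k1,k8),(k10,k8)],[(k8,k8),(k11,k8)]]
    [] k0
    []
    []]⟩

/-- classes `0 0 0 0 1 1`, types `N0 N2 N3 N1 C0 C0` -/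
noncomputable def cT6_219 : CertT :=
  ⟨[k12,k14,k15,k13,k20,k20],[],[[[]]],
    [.lp [k6,k10,k8,k4,k8,k10] [k2,k2,k0,k0,k1,k1,k3,k3,k1,k1,k0,k0] k0 [[k0,k0,k0,k2],[],[k0,k2]] k24 k5
    [[(k8,k7),(k10,k8)],[(k2,k6),(k9,k7)],[(k6,k7),(k5,k11)],[(k0,k6),(k7,k7)],[(k4,k8),(k3,k11)],[(k6,k6),(k5,k8)],
    [(k9,k6),(k2,k7)],[(k4,k6),(k3,k7)],[(k7,k6),(k0,k7)],[(k1,k7),(k11,k9)],[(k8,k9),(k10,k10)],[(k1,k8),(k11,k10)]]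
    [] k0
    []
    []]⟩

/-- classes `0 0 0 0 1 1`, types `N0 N2 N3 N1 C0 C2` -/
noncomputable def cT6_220 : CertT :=
  ⟨[k12,k14,k15,k13,k20,k22],[],[[[]]],
    [.lp [k6,k10,k8,k4,k8,k10] [k2,k2,k0,k0,k1,k1,k3,k3,k1,k1,k0,k0] k0 [[k0,k0,k0,k2],[],[k0,k2]] k24 k5
    [[(k10,k8),(k11,k8)],[(k2,k6),(k9,k7)],[(k6,k7),(k5,k11)],[(k0,k6),(k7,k7)],[(k4,k8),(k3,k11)],[(k6,k6),(k5,k8)],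
    [(k9,k6),(k2,k7)],[(k4,k6),(k3,k7)],[(k7,k6),(k0,k7)],[(k10,k9),(k11,k9)],[(k1,k8),(k8,k9)],[(k1,k8),(k8,k9)]]
    [] k0
    []
    []]⟩

/-- classes `0 0 0 0 1 1`, types `N0 N2 N3 N1 N0 N1` -/
noncomputable def cT6_221 : CertT :=
  ⟨[k12,k14,k15,k13,k28,k29],[],[[[]]],
    [.lp [k2,k6,k4,k2,k4,k4] [k2,k2,k0,k0,k1,k1,k2,k2,k1,k1,k1,k1] k0 [] k12 k5
    [[(k8,k3)],[(k9,k3),(k2,k4)],[(k6,k4),(k5,k5)],[(k0,k4),(k7,k4)],[(k4,k4),(k3,k5)],[(k6,k3),(k5,k4)],[(k9,k3),(k2,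
    k4)],[(k4,k3),(k3,k4)],[(k0,k3),(k7,k3)],[(k1,k3)],[(k10,k4)],[(k11,k4)]]
    [] k0
    []
    []]⟩

/-- classes `0 0 0 0 1 1`, types `N0 N2 N3 N1 N0 N2` -/
noncomputable def cT6_222 : CertT :=
  ⟨[k12,k14,k15,k13,k28,k30],[],[[[]]],
    [.lp [k6,k10,k8,k4,k8,k10] [k2,k2,k0,k0,k1,k1,k3,k3,k1,k1,k0,k0] k0 [[k0,k0,k0,k2],[],[k0,k2]] k24 k5
    [[(k11,k8)],[(k2,k6),(k9,k7)],[(k6,k7),(k5,k11)],[(k0,k6),(k7,k7)],[(k4,k8),(k3,k11)],[(k6,k6),(k5,k8)],[(k9,k6),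
    (k2,k7)],[(k4,k6),(k3,k7)],[(k7,k6),(k0,k7)],[(k10,k9)],[(k1,k8)],[(k8,k9)]]
    [] k0
    []
    []]⟩

/-- classes `0 0 0 0 1 1`, types `N0 N2 N3 N1 S0 S0` -/
noncomputable def cT6_223 : CertT :=
  ⟨[k12,k14,k15,k13,k16,k16],[],[[[]]],
    [.lp [k10,k6,k8,k8,k6,k8] [k0,k0,k2,k2,k1,k1,k1,k1,k2,k2,k1,k1] k0 [[k0,k0,k0,k2],[],[k0,k2]] k24 k5
    [[(k8,k8),(k10,k9),(k11,k9),(k1,k10)],[(k2,k6),(k9,k8)],[(k6,k7),(k5,k9)],[(k0,k6),(k7,k7)],[(k4,k8),(k3,k9)],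
    [(k5,k8),(k6,k8)],[(k2,k7),(k9,k7)],[(k3,k7),(k4,k8)],[(k7,k7),(k0,k8)],[(k8,k6),(k10,k7),(k11,k7),(k1,k8)],[(k8,
    k7),(k10,k8),(k11,k8),(k1,k9)],[(k8,k7),(k10,k8),(k11,k8),(k1,k9)]]
    [] k0
    []
    []]⟩

/-- classes `0 0 0 0 1 1`, types `N0 N3 N1 N2 B0 B1` -/
noncomputable def cT6_224 : CertT :=
  ⟨[k12,k15,k13,k14,k24,k25],[],[[[]]],
    [.lp [k6,k6,k6,k6,k6,k8] [k1,k1,k1,k1,k1,k1,k1,k1,k1,k1,k0,k0] k0 [] k24 k5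
    [[(k8,k6),(k11,k7)],[(k6,k6),(k7,k6)],[(k4,k6),(k9,k6)],[(k4,k6),(k9,k6)],[(k6,k6),(k7,k6)],[(k2,k6),(k3,k6)],
    [(k0,k6),(k5,k6)],[(k0,k6),(k5,k6)],[(k2,k6),(k3,k6)],[(k1,k6),(k10,k7)],[(k1,k7),(k10,k8)],[(k8,k7),(k11,k8)]]
    [] k0
    []
    []]⟩

/-- classes `0 0 0 0 1 1`, types `N0 N3 N1 N2 C0 C0` -/
noncomputable def cT6_225 : CertT :=
  ⟨[k12,k15,k13,k14,k20,k20],[],[[[]]],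
    [.lp [k6,k6,k6,k6,k6,k8] [k1,k1,k1,k1,k1,k1,k1,k1,k1,k1,k0,k0] k0 [] k24 k5
    [[(k8,k6),(k10,k7)],[(k6,k6),(k7,k6)],[(k4,k6),(k9,k6)],[(k4,k6),(k9,k6)],[(k6,k6),(k7,k6)],[(k2,k6),(k3,k6)],
    [(k0,k6),(k5,k6)],[(k0,k6),(k5,k6)],[(k2,k6),(k3,k6)],[(k1,k6),(k11,k7)],[(k8,k7),(k10,k8)],[(k1,k7),(k11,k8)]]
    [] k0
    []
    []]⟩

/-- classes `0 0 0 0 1 1`, types `N0 N3 N1 N2 C0 C2` -/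
noncomputable def cT6_226 : CertT :=
  ⟨[k12,k15,k13,k14,k20,k22],[],[[[]]],
    [.lp [k0,k2,k0,k2,k0,k2] [k1,k1,k0,k0,k1,k1,k0,k0,k1,k1,k0,k0] k0 [] k4 k5
    [[(k10,k1),(k11,k1)],[(k6,k1),(k7,k1)],[(k4,k1),(k9,k1)],[(k4,k1),(k9,k1)],[(k6,k1),(k7,k1)],[(k2,k1),(k3,k1)],
    [(k0,k1),(k5,k1)],[(k0,k1),(k5,k1)],[(k2,k1),(k3,k1)],[(k10,k1),(k11,k1)],[(k1,k1),(k8,k1)],[(k1,k1),(k8,k1)]]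
    [] k0
    []
    []]⟩

/-- classes `0 0 0 0 1 1`, types `N0 N3 N1 N2 N0 N1` -/
noncomputable def cT6_227 : CertT :=
  ⟨[k12,k15,k13,k14,k28,k29],[],[[[]]],
    [.lp [k6,k6,k6,k6,k6,k8] [k1,k1,k1,k1,k1,k1,k1,k1,k1,k1,k0,k0] k0 [] k24 k5
    [[(k8,k6)],[(k6,k6),(k7,k6)],[(k4,k6),(k9,k6)],[(k4,k6),(k9,k6)],[(k6,k6),(k7,k6)],[(k2,k6),(k3,k6)],[(k0,k6),(k5,
    k6)],[(k0,k6),(k5,k6)],[(k2,k6),(k3,k6)],[(k1,k6)],[(k10,k8)],[(k11,k8)]]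
    [] k0
    []
    []]⟩

/-- classes `0 0 0 0 1 1`, types `N0 N3 N1 N2 N0 N2` -/
noncomputable def cT6_228 : CertT :=
  ⟨[k12,k15,k13,k14,k28,k30],[],[[[]]],
    [.lp [k0,k2,k0,k2,k0,k2] [k1,k1,k0,k0,k1,k1,k0,k0,k1,k1,k0,k0] k0 [] k4 k5
    [[(k11,k1)],[(k6,k1),(k7,k1)],[(k4,k1),(k9,k1)],[(k4,k1),(k9,k1)],[(k6,k1),(k7,k1)],[(k2,k1),(k3,k1)],[(k0,k1),
    (k5,k1)],[(k0,k1),(k5,k1)],[(k2,k1),(k3,k1)],[(k10,k1)],[(k1,k1)],[(k8,k1)]]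
    [] k0
    []
    []]⟩

/-- classes `0 0 0 0 1 1`, types `N0 N3 N1 N2 S0 S0` -/
noncomputable def cT6_229 : CertT :=
  ⟨[k12,k15,k13,k14,k16,k16],[],[[[]]],
    [.lp [k6,k12,k0,k12,k6,k8] [k3,k3,k0,k0,k6,k6,k0,k0,k3,k3,k2,k2] k0 [] k24 k5
    [[(k1,k6),(k8,k6),(k10,k7),(k11,k7)],[(k6,k9),(k7,k9)],[(k4,k6),(k9,k9)],[(k4,k6),(k9,k9)],[(k6,k6),(k7,k6)],[(k2,
    k6),(k3,k6)],[(k5,k6),(k0,k9)],[(k5,k6),(k0,k9)],[(k2,k9),(k3,k9)],[(k1,k6),(k8,k6),(k10,k7),(k11,k7)],[(k1,k7),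
    (k8,k7),(k10,k8),(k11,k8)],[(k1,k7),(k8,k7),(k10,k8),(k11,k8)]]
    [] k0
    []
    []]⟩

/-- classes `0 0 0 0 1 1`, types `N0 N3 N2 N1 B0 B1` -/
noncomputable def cT6_230 : CertT :=
  ⟨[k12,k15,k14,k13,k24,k25],[],[[[]]],
    [.lp [k6,k6,k4,k0,k2,k4] [k0,k0,k0,k0,k1,k1,k3,k3,k2,k2,k1,k1] k0 [] k12 k5
    [[(k8,k4),(k11,k5)],[(k9,k4),(k4,k5)],[(k6,k3),(k7,k3)],[(k6,k3),(k7,k3)],[(k9,k3),(k4,k4)],[(k5,k4),(k0,k5)],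
    [(k2,k3),(k3,k3)],[(k2,k3),(k3,k3)],[(k5,k3),(k0,k4)],[(k10,k3),(k1,k4)],[(k10,k4),(k1,k5)],[(k8,k3),(k11,k4)]]
    [] k0
    []
    []]⟩

/-- classes `0 0 0 0 1 1`, types `N0 N3 N2 N1 C0 C0` -/
noncomputable def cT6_231 : CertT :=
  ⟨[k12,k15,k14,k13,k20,k20],[],[[[]]],
    [.lp [k6,k6,k4,k0,k2,k4] [k0,k0,k0,k0,k1,k1,k3,k3,k2,k2,k1,k1] k0 [] k12 k5
    [[(k8,k4),(k10,k5)],[(k9,k4),(k4,k5)],[(k6,k3),(k7,k3)],[(k6,k3),(k7,k3)],[(k9,k3),(k4,k4)],[(k5,k4),(k0,k5)],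
    [(k2,k3),(k3,k3)],[(k2,k3),(k3,k3)],[(k5,k3),(k0,k4)],[(k11,k3),(k1,k4)],[(k8,k3),(k10,k4)],[(k11,k4),(k1,k5)]]
    [] k0
    []
    []]⟩

/-- classes `0 0 0 0 1 1`, types `N0 N3 N2 N1 C0 C2` -/
noncomputable def cT6_232 : CertT :=
  ⟨[k12,k15,k14,k13,k20,k22],[],[[[]]],
    [.lp [k4,k6,k4,k0,k2,k6] [k1,k1,k0,k0,k1,k1,k3,k3,k2,k2,k0,k0] k0 [] k12 k5
    [[(k10,k5),(k11,k5)],[(k9,k3),(k4,k4)],[(k6,k3),(k7,k3)],[(k6,k3),(k7,k3)],[(k9,k3),(k4,k4)],[(k0,k4),(k5,k4)],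
    [(k2,k3),(k3,k3)],[(k2,k3),(k3,k3)],[(k0,k3),(k5,k3)],[(k10,k4),(k11,k4)],[(k8,k4),(k1,k5)],[(k8,k4),(k1,k5)]]
    [] k0
    []
    []]⟩

/-- classes `0 0 0 0 1 1`, types `N0 N3 N2 N1 N0 N1` -/
noncomputable def cT6_233 : CertT :=
  ⟨[k12,k15,k14,k13,k28,k29],[],[[[]]],
    [.lp [k6,k6,k6,k0,k0,k4] [k0,k0,k0,k0,k0,k0,k3,k3,k3,k3,k1,k1] k0 [] k12 k5
    [[(k8,k3)],[(k9,k3),(k4,k6)],[(k6,k3),(k7,k3)],[(k6,k3),(k7,k3)],[(k9,k3),(k4,k6)],[(k0,k6),(k5,k6)],[(k2,k3),(k3,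
    k3)],[(k2,k3),(k3,k3)],[(k0,k3),(k5,k3)],[(k1,k3)],[(k10,k4)],[(k11,k4)]]
    [] k0
    []
    []]⟩

/-- classes `0 0 0 0 1 1`, types `N0 N3 N2 N1 N0 N2` -/
noncomputable def cT6_234 : CertT :=
  ⟨[k12,k15,k14,k13,k28,k30],[],[[[]]],
    [.lp [k4,k6,k4,k0,k2,k6] [k1,k1,k0,k0,k1,k1,k3,k3,k2,k2,k0,k0] k0 [] k12 k5
    [[(k11,k5)],[(k9,k3),(k4,k4)],[(k6,k3),(k7,k3)],[(k6,k3),(k7,k3)],[(k9,k3),(k4,k4)],[(k0,k4),(k5,k4)],[(k2,k3),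
    (k3,k3)],[(k2,k3),(k3,k3)],[(k0,k3),(k5,k3)],[(k10,k4)],[(k1,k5)],[(k8,k4)]]
    [] k0
    []
    []]⟩

/-- classes `0 0 0 0 1 1`, types `N0 N3 N2 N1 S0 S0` -/
noncomputable def cT6_235 : CertT :=
  ⟨[k12,k15,k14,k13,k16,k16],[],[[[]]],
    [.lp [k10,k0,k8,k12,k6,k8] [k1,k1,k6,k6,k2,k2,k0,k0,k3,k3,k2,k2] k0 [] k24 k5
    [[(k8,k8),(k10,k9),(k11,k9),(k1,k10)],[(k9,k8),(k4,k9)],[(k6,k6),(k7,k6)],[(k6,k6),(k7,k6)],[(k9,k7),(k4,k8)],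
    [(k5,k8),(k0,k9)],[(k2,k6),(k3,k6)],[(k2,k6),(k3,k6)],[(k5,k7),(k0,k8)],[(k8,k6),(k10,k7),(k11,k7),(k1,k8)],[(k8,
    k7),(k10,k8),(k11,k8),(k1,k9)],[(k8,k7),(k10,k8),(k11,k8),(k1,k9)]]
    [] k0
    []
    []]⟩

/-- classes `0 0 0 0 1 1`, types `S0 S0 S0 S0 B0 B1` -/
noncomputable def cT6_236 : CertT :=
  ⟨[k0,k0,k0,k0,k24,k25],[(false,k0,[k0,k1,k2,k3,k4,k5]),(true,k4,[k4,k3,k2,k1,k0,k5])],[[[([z1,z0,z0,z0,z1,z1],z2),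
    ([z0,z1,z0,z1,z0,z1],z2)],[([z3,z0,z0,z0,z3,z0],z4),([z0,z3,z0,z0,z0,z0],z2),([z0,z0,z3,z0,z0,z0],z2),([z0,z0,z0,
    z3,z0,z0],z2)],[([z3,z0,z0,y3,z3,z0],z2),([z0,z3,z0,z3,z0,z0],z4),([z0,z0,z3,z3,z0,z0],z4)],[([z3,z0,z0,z0,z3,z0],
    z4),([z0,z3,z0,z3,z0,z0],z4),([z0,z0,z3,z0,z0,z0],z2)],[([z1,z0,z1,z0,z1,z0],z2),([z0,z3,z0,z0,z0,z0],z2),([z0,z0,
    z0,z3,z0,z0],z2)],[([z1,z0,z1,z0,z1,z0],z2),([z0,z3,z0,z3,z0,z0],z4)],[([z1,z0,z1,z0,z1,z0],z2)],[([z1,z0,z0,z0,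
    z1,z1],z2),([z0,z1,z0,z0,z0,y1],z0)],[([z1,z0,z0,z1,z1,z0],z2),([z0,z3,z0,z0,z0,z0],z2),([z0,z0,z3,z0,z0,z0],z2)],
    [([z3,z0,z0,z0,z3,z0],z4),([z0,z3,z0,z0,z0,z0],z2),([z0,z0,z3,z3,z0,z0],z4)],[([z1,z0,z0,z1,z1,z0],z2),([z0,z3,z3,
    z0,z0,z0],z4)],[([z1,z0,z0,z1,z1,z0],z2)]],[[([z1,z0,z0,z0,z1,z1],z2)],[]]],
    [.leafM k4 [k4,k5,k0,k1,k2,k3] [(z1,[y1,z0,z1])] [],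
    .leafM k2 [k0,k1,k2,k3,k4,k5] [(z1,[z0,z1]),(z1,[z0,z0,z0,z1]),(z1,[y1,y1,y1,y1,z3])] [],
    .lp [k90,k84,k84,k78,k60,k80] [k0,k0,k3,k3,k3,k3,k6,k6,k15,k15,k5,k5] k0 [[k0,k0,k0,k0,k0,k0,k6,k6],[k0,k0,k0,k12],
    [k12,k0,k0,k0,k0,k0,k0,k6],[k0,k0,k0,k0,k0,k0,k0,k6],[k0,k0,k0,k0,k0,k0,k6],[k0,k0,k0,k0,k0,k0,k6],[k0,k6,k6,k6],
    [k0,k6,k0,k0,k6,k6]] (nat_lit 240) k5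
    [[(k8,k75),(k11,k85)],[(k9,k69),(k6,k78),(k7,k84),(k2,k87),(k3,k87),(k4,k87),(k0,k90),(k5,k99)],[(k2,k72),(k9,
    k78),(k7,k81),(k3,k84),(k4,k84),(k5,k84),(k0,k87),(k6,k87)],[(k3,k72),(k6,k75),(k9,k78),(k7,k81),(k2,k84),(k4,
    k84),(k5,k84),(k0,k87)],[(k6,k75),(k9,k78),(k7,k81),(k2,k84),(k3,k84),(k4,k84),(k5,k84),(k0,k99)],[(k9,k66),(k7,
    k81),(k2,k84),(k3,k84),(k4,k84),(k5,k84),(k0,k87),(k6,k87)],[(k9,k63),(k7,k78),(k2,k81),(k3,k81),(k4,k81),(k5,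
    k81),(k0,k84),(k6,k84)],[(k9,k69),(k2,k75),(k5,k75),(k0,k78),(k6,k78),(k7,k84),(k3,k87),(k4,k87)],[(k9,k60),(k7,
    k63),(k4,k66),(k0,k69),(k6,k69),(k2,k78),(k3,k78),(k5,k78)],[(k10,k70),(k1,k75)],[(k10,k80),(k1,k85)],[(k8,k70),
    (k11,k80)]]
    [] k0
    [[k1,k0,k0,k1,k1,k0],[k1,k0,k0,k0,k1,k1],[k0,k3,k0,k0,k0,k0],[k0,k2,k0,k1,k0,k0]]
    [.ref k1 k0 [(z2,[z3,z1]),(z2,[y3,z1,z2]),(z2,[y3,z1,z0,z2]),(z2,[z3,y1])],.ref k1 k0 [(z1,[z3,z1,z1,z1,y3]),(z1,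
    [y3,z0,z0,y1,z3]),(z1,[y3,z0,y1,z0,z3]),(z1,[z3,z0,z1,z1,y3])],.ref k1 k0 [(z1,[y1,z1,z1]),(z1,[z1]),(z1,[z1,z0,
    y1,z1]),(z1,[y1,z0,z1])],.ref k1 k0 [(z1,[y3,z1,z2]),(z1,[z3,z0,y1]),(z1,[z3,z0,y2,z1]),(z1,[y3,z0,z2])]],
    .leafM k4 [k4,k5,k0,k1,k2,k3] [(z3,[z0,z1,z1])] [],
    .leafM k2 [k0,k1,k2,k3,k4,k5] [(z1,[z0,z1]),(z1,[z0,z0,z1]),(z1,[y3,y1,y1,z3])] [],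
    .lp [k90,k84,k84,k78,k60,k80] [k0,k0,k3,k3,k3,k3,k6,k6,k15,k15,k5,k5] k0 [[k0,k0,k0,k0,k0,k0,k6,k6],[k0,k0,k0,k12],
    [k12,k0,k0,k0,k0,k0,k0,k6],[k0,k0,k0,k0,k0,k0,k0,k6],[k0,k0,k0,k0,k0,k0,k6],[k0,k0,k0,k0,k0,k0,k6],[k0,k6,k6,k6],
    [k0,k6,k0,k0,k6,k6]] (nat_lit 240) k5
    [[(k8,k75),(k11,k85)],[(k9,k69),(k6,k78),(k7,k84),(k2,k87),(k3,k87),(k4,k87),(k0,k90),(k5,k99)],[(k2,k72),(k9,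
    k78),(k7,k81),(k3,k84),(k4,k84),(k5,k84),(k0,k87),(k6,k87)],[(k3,k72),(k6,k75),(k9,k78),(k7,k81),(k2,k84),(k4,
    k84),(k5,k84),(k0,k87)],[(k6,k75),(k9,k78),(k7,k81),(k2,k84),(k3,k84),(k4,k84),(k5,k84),(k0,k99)],[(k9,k66),(k7,
    k81),(k2,k84),(k3,k84),(k4,k84),(k5,k84),(k0,k87),(k6,k87)],[(k9,k63),(k7,k78),(k2,k81),(k3,k81),(k4,k81),(k5,
    k81),(k0,k84),(k6,k84)],[(k9,k69),(k2,k75),(k5,k75),(k0,k78),(k6,k78),(k7,k84),(k3,k87),(k4,k87)],[(k9,k60),(k7,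
    k63),(k4,k66),(k0,k69),(k6,k69),(k2,k78),(k3,k78),(k5,k78)],[(k10,k70),(k1,k75)],[(k10,k80),(k1,k85)],[(k8,k70),
    (k11,k80)]]
    [] k0
    [[k1,k0,k0,k1,k1,k0],[k1,k0,k0,k0,k1,k1],[k0,k3,k0,k0,k0,k0],[k0,k2,k0,k1,k0,k0]]
    [.ref k2 k1 [(z1,[z3,z0,y1]),(z1,[z0,z0,z1]),(z1,[y3,z3,z1])],.ref k3 k0 [(z1,[z3,z3,z1,y3]),(z1,[z0,z0,z1]),(z1,
    [y3,z0,y1,z3])],.ref k4 k0 [(z1,[z0,z1]),(z1,[z1]),(z1,[y1,z0,z1])],.ref k4 k0 [(z1,[z0,z1]),(z1,[z3,z0,y1]),(z1,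
    [y3,z0,z2])]],
    .lp [k10,k8,k8,k8,k6,k6] [k0,k0,k1,k1,k1,k1,k1,k1,k2,k2,k2,k2] k0 [] k24 k5
    [[(k8,k8),(k11,k8)],[(k9,k8),(k2,k9),(k3,k9),(k4,k9),(k5,k9),(k6,k9),(k7,k9),(k0,k10)],[(k9,k7),(k2,k8),(k3,k8),
    (k4,k8),(k5,k8),(k6,k8),(k7,k8),(k0,k9)],[(k9,k7),(k2,k8),(k3,k8),(k4,k8),(k5,k8),(k6,k8),(k7,k8),(k0,k9)],[(k9,
    k7),(k2,k8),(k3,k8),(k4,k8),(k5,k8),(k6,k8),(k7,k8),(k0,k9)],[(k9,k7),(k2,k8),(k3,k8),(k4,k8),(k5,k8),(k6,k8),(k7,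
    k8),(k0,k9)],[(k9,k7),(k2,k8),(k3,k8),(k4,k8),(k5,k8),(k6,k8),(k7,k8),(k0,k9)],[(k9,k7),(k2,k8),(k3,k8),(k4,k8),
    (k5,k8),(k6,k8),(k7,k8),(k0,k9)],[(k9,k6),(k2,k7),(k3,k7),(k4,k7),(k5,k7),(k6,k7),(k7,k7),(k0,k8)],[(k10,k6),(k1,
    k8)],[(k10,k6),(k1,k8)],[(k8,k6),(k11,k6)]]
    [] k0
    [[k1,k0,k0,k0,k1,k1],[k0,k0,k0,k0,k0,k3]]
    [.ref k0 k0 [(z1,[z1]),(z1,[z0,y1,z1])],.ref k5 k0 [(z1,[z0,z1]),(z1,[y1,y3,z3])]],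
    .leafM k4 [k4,k5,k0,k1,k2,k3] [(z1,[y1,z0,z1])] [],
    .lp [k46,k44,k38,k40,k30,k40] [k0,k0,k1,k1,k4,k4,k3,k3,k8,k8,k3,k3] k0 [[],[k0,k0,k0,k0,k0,k4,k0,k4],[k0,k0,k0,k2,k4],
    [k0,k0,k0,k0,k2],[k4,k0,k0,k0,k0,k0,k4,k4],[k0,k0,k2,k4],[k4,k0,k0,k0,k0,k4],[k0,k0,k0,k0,k0,k4]] k120 k5
    [[(k8,k38),(k11,k43)],[(k4,k42),(k5,k42),(k9,k42),(k6,k43),(k2,k45),(k3,k45),(k0,k46),(k7,k47)],[(k4,k37),(k9,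
    k37),(k6,k38),(k5,k41),(k7,k42),(k2,k44),(k3,k44),(k0,k45)],[(k9,k37),(k7,k38),(k5,k41),(k2,k42),(k6,k42),(k4,
    k43),(k3,k44),(k0,k45)],[(k9,k34),(k7,k37),(k6,k39),(k5,k40),(k2,k41),(k3,k41),(k0,k42),(k4,k42)],[(k9,k30),(k6,
    k35),(k3,k37),(k4,k38),(k7,k39),(k0,k42),(k5,k42),(k2,k43)],[(k5,k37),(k2,k38),(k4,k39),(k9,k39),(k7,k40),(k3,
    k42),(k6,k44),(k0,k47)],[(k4,k35),(k9,k35),(k3,k38),(k5,k39),(k6,k40),(k2,k42),(k0,k43),(k7,k44)],[(k4,k30),(k9,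
    k30),(k5,k34),(k6,k35),(k2,k37),(k3,k37),(k7,k39),(k0,k42)],[(k10,k35),(k1,k38)],[(k10,k40),(k1,k43)],[(k8,k35),
    (k11,k40)]]
    [] k0
    [[k1,k0,k1,k0,k1,k0],[k0,k1,k1,k1,k0,k0],[k0,k0,k2,k1,k0,k0],[k0,k0,k1,k2,k0,k0]]
    [.ref k1 k0 [(z1,[z3,z0,z0,y1]),(z1,[z0,z0,z1]),(z1,[z0,z0,z0,z1]),(z1,[y3,z3,z0,z1])],.ref k1 k0 [(z1,[y3,z3,z1,
    z1]),(z1,[z0,z0,z1]),(z1,[z0,z0,z0,z1]),(z1,[z3,z0,y1,y1])],.ref k1 k0 [(z1,[y3,z3,z0,z2]),(z1,[z0,z0,z1]),(z1,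
    [z0,z0,z0,z1]),(z1,[z3,z0,z0,y2])],.ref k1 k0 [(z2,[y3,z6,z0,z1]),(z1,[z0,z0,z1]),(z1,[z0,z0,z0,z1]),(z2,[z3,z0,
    z0,y1])]],
    .leafM k4 [k4,k5,k0,k1,k2,k3] [(z3,[z0,z1,z1])] [],
    .lp [k46,k40,k38,k44,k30,k40] [k0,k0,k3,k3,k4,k4,k1,k1,k8,k8,k3,k3] k0 [[k0,k0,k4],[k0,k0,k4,k0,k0,k0,k0,k4],[k0,k0,
    k0,k0,k4,k2],[k4,k4,k0,k0,k0,k0,k0,k4],[k0,k0,k0,k2],[k0,k0,k0,k4,k2],[k4,k0,k4]] k120 k5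
    [[(k8,k38),(k11,k43)],[(k5,k38),(k4,k42),(k9,k42),(k3,k43),(k6,k45),(k7,k45),(k0,k46),(k2,k47)],[(k5,k35),(k9,
    k35),(k6,k38),(k4,k39),(k3,k40),(k7,k42),(k0,k43),(k2,k44)],[(k4,k37),(k7,k38),(k5,k39),(k9,k39),(k2,k40),(k6,
    k42),(k3,k44),(k0,k47)],[(k9,k34),(k3,k35),(k6,k37),(k0,k38),(k5,k38),(k2,k39),(k4,k42),(k7,k43)],[(k9,k34),(k2,
    k37),(k3,k39),(k4,k40),(k6,k41),(k7,k41),(k0,k42),(k5,k42)],[(k9,k37),(k2,k38),(k4,k41),(k3,k42),(k7,k42),(k5,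
    k43),(k6,k44),(k0,k45)],[(k5,k37),(k9,k37),(k3,k38),(k4,k41),(k2,k42),(k6,k44),(k7,k44),(k0,k45)],[(k9,k30),(k4,
    k34),(k5,k34),(k3,k35),(k6,k37),(k7,k37),(k2,k39),(k0,k42)],[(k10,k35),(k1,k38)],[(k10,k40),(k1,k43)],[(k8,k35),
    (k11,k40)]]
    [] k0
    [[k1,k0,k1,k0,k1,k0],[k0,k2,k1,k0,k0,k0],[k0,k1,k2,k0,k0,k0],[k0,k1,k1,k1,k0,k0]]
    [.ref k2 k1 [(z1,[z3,z0,y1]),(z1,[y3,z3,z1]),(z1,[z0,z0,z1])],.ref k8 k0 [(z1,[z0,z1]),(z1,[z3,z0,y1]),(z1,[y3,z0,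
    z2])],.ref k8 k0 [(z1,[z0,z1]),(z1,[y3,z0,z2]),(z1,[z3,z0,y1])],.ref k9 k1 [(z1,[y3,z3,z1]),(z1,[z3,z0,y1]),(z1,
    [z0,z0,z1])]],
    .lp [k10,k8,k8,k8,k6,k6] [k0,k0,k1,k1,k1,k1,k1,k1,k2,k2,k2,k2] k0 [] k24 k5
    [[(k8,k8),(k11,k8)],[(k9,k8),(k2,k9),(k3,k9),(k4,k9),(k5,k9),(k6,k9),(k7,k9),(k0,k10)],[(k9,k7),(k2,k8),(k3,k8),
    (k4,k8),(k5,k8),(k6,k8),(k7,k8),(k0,k9)],[(k9,k7),(k2,k8),(k3,k8),(k4,k8),(k5,k8),(k6,k8),(k7,k8),(k0,k9)],[(k9,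
    k7),(k2,k8),(k3,k8),(k4,k8),(k5,k8),(k6,k8),(k7,k8),(k0,k9)],[(k9,k7),(k2,k8),(k3,k8),(k4,k8),(k5,k8),(k6,k8),(k7,
    k8),(k0,k9)],[(k9,k7),(k2,k8),(k3,k8),(k4,k8),(k5,k8),(k6,k8),(k7,k8),(k0,k9)],[(k9,k7),(k2,k8),(k3,k8),(k4,k8),
    (k5,k8),(k6,k8),(k7,k8),(k0,k9)],[(k9,k6),(k2,k7),(k3,k7),(k4,k7),(k5,k7),(k6,k7),(k7,k7),(k0,k8)],[(k10,k6),(k1,
    k8)],[(k10,k6),(k1,k8)],[(k8,k6),(k11,k6)]]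
    [] k0
    [[k1,k0,k0,k0,k1,k1],[k0,k0,k0,k0,k0,k3]]
    [.ref k7 k1 [(z1,[z1]),(z1,[y1,z1])],.ref k10 k0 [(z1,[z0,z1]),(z1,[y1,y3,z3])]],
    .leafM k4 [k4,k5,k0,k1,k2,k3] [(z1,[y1,z1])] [],
    .lp [k54,k84,k60,k66,k48,k64] [k15,k15,k0,k0,k12,k12,k9,k9,k18,k18,k10,k10] k0 [[k0,k0,k0,k0,k0,k0,k0,k6],[],[k0,k0,
    k0,k0,k12,k12],[k0,k0,k0,k0,k0,k0,k0,k6],[k0,k0,k0,k12,k0,k0,k6],[k0,k0,k0,k12,k0,k0,k6],[k0,k6,k6],[k0,k0,k0,k0,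
    k6,k6]] k192 k5
    [[(k8,k51),(k11,k59)],[(k9,k51),(k0,k54),(k6,k54),(k4,k57),(k5,k57),(k7,k60),(k2,k69),(k3,k69)],[(k0,k69),(k4,
    k72),(k5,k72),(k9,k72),(k6,k75),(k7,k75),(k2,k84),(k3,k84)],[(k4,k60),(k7,k63),(k0,k69),(k5,k72),(k9,k72),(k6,
    k75),(k2,k84),(k3,k84)],[(k9,k54),(k0,k57),(k6,k57),(k5,k60),(k2,k72),(k3,k72),(k4,k72),(k7,k75)],[(k9,k48),(k0,
    k57),(k2,k60),(k4,k60),(k7,k63),(k6,k69),(k3,k72),(k5,k72)],[(k9,k51),(k0,k60),(k2,k63),(k4,k63),(k7,k66),(k6,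
    k72),(k3,k75),(k5,k75)],[(k0,k54),(k5,k57),(k9,k57),(k6,k66),(k4,k69),(k7,k72),(k2,k75),(k3,k75)],[(k4,k48),(k9,
    k48),(k0,k51),(k7,k51),(k5,k54),(k6,k57),(k2,k72),(k3,k72)],[(k1,k51),(k10,k56)],[(k1,k59),(k10,k64)],[(k8,k56),
    (k11,k64)]]
    [] k0
    [[k1,k0,k1,k0,k1,k0],[k1,k0,k0,k1,k1,k0],[k1,k0,k0,k0,k1,k1]]
    [.ref k6 k0 [(z1,[z1])],.ref k11 k0 [(z1,[z1])],.ref k12 k0 [(z1,[z1])]]]⟩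

/-- classes `0 0 0 0 1 1`, types `S0 S0 S0 S0 C0 C0` -/
noncomputable def cT6_237 : CertT :=
  ⟨[k0,k0,k0,k0,k20,k20],[(false,k0,[k0,k1,k2,k3,k4,k5]),(true,k4,[k4,k3,k2,k1,k0,k5])],[[[([z1,z0,z0,z0,z1,z1],z2)],
    [([z3,z0,z0,z0,z3,z0],z4),([z0,z3,z0,z0,z0,z0],z2),([z0,z0,z3,z0,z0,z0],z2),([z0,z0,z0,z3,z0,z0],z2)],[([z3,z0,z0,
    y3,z3,z0],z2),([z0,z3,z0,z3,z0,z0],z4),([z0,z0,z3,z3,z0,z0],z4)],[([z3,z0,z0,z0,z3,z0],z4),([z0,z3,z0,z3,z0,z0],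
    z4),([z0,z0,z3,z0,z0,z0],z2)],[([z1,z0,z1,z0,z1,z0],z2),([z0,z3,z0,z0,z0,z0],z2),([z0,z0,z0,z3,z0,z0],z2)],[([z1,
    z0,z1,z0,z1,z0],z2),([z0,z3,z0,z3,z0,z0],z4)],[([z1,z0,z0,z1,z1,z0],z2),([z0,z1,z0,y1,z0,z0],z0),([z0,z0,z3,z3,z0,
    z0],z4)],[([z3,z0,z0,z0,z3,z0],z4),([z0,z3,z0,z0,z0,z0],z2),([z0,z0,z3,z3,z0,z0],z4)],[([z1,z0,z0,z1,z1,z0],z2),
    ([z0,z3,z3,z0,z0,z0],z4)],[([z3,z0,z0,z0,z3,z0],z4),([z0,z1,z1,z1,z0,z0],z2)],[([z3,z3,z3,z3,z3,z0],z10)],[]]],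
    [.leafM k0 [k0,k1,k2,k3,k4,k5] [(z1,[y1,z1])] [],
    .leafM k0 [k0,k1,k2,k3,k4,k5] [(z3,[z0,z1,z1,z1])] [],
    .lp [k18,k18,k18,k12,k12,k16] [k0,k0,k0,k0,k0,k0,k3,k3,k3,k3,k1,k1] k0 [] k48 k5
    [[(k8,k15),(k10,k17)],[(k6,k15),(k7,k15),(k9,k15),(k0,k18),(k2,k18),(k3,k18),(k4,k18),(k5,k18)],[(k6,k15),(k7,
    k15),(k9,k15),(k0,k18),(k2,k18),(k3,k18),(k4,k18),(k5,k18)],[(k6,k15),(k7,k15),(k9,k15),(k0,k18),(k2,k18),(k3,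
    k18),(k4,k18),(k5,k18)],[(k6,k15),(k7,k15),(k9,k15),(k0,k18),(k2,k18),(k3,k18),(k4,k18),(k5,k18)],[(k6,k15),(k7,
    k15),(k9,k15),(k0,k18),(k2,k18),(k3,k18),(k4,k18),(k5,k18)],[(k6,k12),(k7,k12),(k9,k12),(k0,k15),(k2,k15),(k3,
    k15),(k4,k15),(k5,k15)],[(k6,k12),(k7,k12),(k9,k12),(k0,k15),(k2,k15),(k3,k15),(k4,k15),(k5,k15)],[(k6,k12),(k7,
    k12),(k9,k12),(k0,k15),(k2,k15),(k3,k15),(k4,k15),(k5,k15)],[(k11,k14),(k1,k15)],[(k8,k14),(k10,k16)],[(k11,k16),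
    (k1,k17)]]
    [] k0
    [[k1,k0,k0,k1,k1,k0],[k1,k0,k0,k0,k1,k1],[k0,k1,k0,k2,k0,k0],[k0,k0,k1,k2,k0,k0],[k0,k0,k0,k3,k0,k0]]
    [.ref k1 k0 [(z2,[z3,z1]),(z2,[y3,z1,z2]),(z2,[y3,z1,z0,z2]),(z2,[z3,y1])],.ref k1 k0 [(z1,[z3,z1,z1,z1,y3]),(z1,
    [y3,z0,z0,y1,z3]),(z1,[y3,z0,y1,z0,z3]),(z1,[z3,z0,z1,z1,y3])],.ref k1 k0 [(z1,[z3,z1,y1]),(z1,[y3,z0,z2]),(z1,
    [y3,z0,z1,z1]),(z1,[z3,z0,y1])],.ref k1 k0 [(z1,[z3,z1,z0,y1]),(z1,[y3,z0,z1,z1]),(z1,[y3,z0,z0,z2]),(z1,[z3,z0,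
    z0,y1])],.ref k1 k0 [(z1,[z1,z1]),(z1,[y1,z0,z1]),(z1,[y1,z0,z0,z1]),(z1,[z1])]],
    .leafM k0 [k0,k1,k2,k3,k4,k5] [(z3,[z0,z1,z1])] [],
    .leafM k2 [k0,k1,k2,k3,k4,k5] [(z1,[z0,z1]),(z1,[z0,z0,z1]),(z1,[y3,y1,y1,z3])] [],
    .lp [k90,k84,k84,k78,k60,k80] [k0,k0,k3,k3,k3,k3,k6,k6,k15,k15,k5,k5] k0 [[k0,k0,k0,k0,k0,k0,k6,k6],[k0,k0,k0,k12],
    [k12,k0,k0,k0,k0,k0,k0,k6],[k0,k0,k0,k0,k0,k0,k0,k6],[k0,k0,k0,k0,k0,k0,k6],[k0,k0,k0,k0,k0,k0,k6],[k0,k6,k6,k6],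
    [k0,k6,k0,k0,k6,k6]] (nat_lit 240) k5
    [[(k8,k75),(k10,k85)],[(k9,k69),(k6,k78),(k7,k84),(k2,k87),(k3,k87),(k4,k87),(k0,k90),(k5,k99)],[(k2,k72),(k9,
    k78),(k7,k81),(k3,k84),(k4,k84),(k5,k84),(k0,k87),(k6,k87)],[(k3,k72),(k6,k75),(k9,k78),(k7,k81),(k2,k84),(k4,
    k84),(k5,k84),(k0,k87)],[(k6,k75),(k9,k78),(k7,k81),(k2,k84),(k3,k84),(k4,k84),(k5,k84),(k0,k99)],[(k9,k66),(k7,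
    k81),(k2,k84),(k3,k84),(k4,k84),(k5,k84),(k0,k87),(k6,k87)],[(k9,k63),(k7,k78),(k2,k81),(k3,k81),(k4,k81),(k5,
    k81),(k0,k84),(k6,k84)],[(k9,k69),(k2,k75),(k5,k75),(k0,k78),(k6,k78),(k7,k84),(k3,k87),(k4,k87)],[(k9,k60),(k7,
    k63),(k4,k66),(k0,k69),(k6,k69),(k2,k78),(k3,k78),(k5,k78)],[(k11,k70),(k1,k75)],[(k8,k70),(k10,k80)],[(k11,k80),
    (k1,k85)]]
    [] k0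
    [[k1,k0,k0,k1,k1,k0],[k1,k0,k0,k0,k1,k1],[k0,k3,k0,k0,k0,k0],[k0,k2,k0,k1,k0,k0]]
    [.ref k2 k1 [(z1,[z3,z0,y1]),(z1,[z0,z0,z1]),(z1,[y3,z3,z1])],.ref k3 k0 [(z1,[z3,z3,z1,y3]),(z1,[z0,z0,z1]),(z1,
    [y3,z0,y1,z3])],.ref k4 k0 [(z1,[z0,z1]),(z1,[z1]),(z1,[y1,z0,z1])],.ref k4 k0 [(z1,[z0,z1]),(z1,[z3,z0,y1]),(z1,
    [y3,z0,z2])]],
    .lp [k18,k18,k12,k18,k12,k16] [k0,k0,k0,k0,k3,k3,k0,k0,k3,k3,k1,k1] k0 [] k48 k5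
    [[(k8,k15),(k10,k17)],[(k4,k15),(k5,k15),(k9,k15),(k0,k18),(k2,k18),(k3,k18),(k6,k18),(k7,k18)],[(k4,k15),(k5,
    k15),(k9,k15),(k0,k18),(k2,k18),(k3,k18),(k6,k18),(k7,k18)],[(k4,k15),(k5,k15),(k9,k15),(k0,k18),(k2,k18),(k3,
    k18),(k6,k18),(k7,k18)],[(k4,k12),(k5,k12),(k9,k12),(k0,k15),(k2,k15),(k3,k15),(k6,k15),(k7,k15)],[(k4,k12),(k5,
    k12),(k9,k12),(k0,k15),(k2,k15),(k3,k15),(k6,k15),(k7,k15)],[(k4,k15),(k5,k15),(k9,k15),(k0,k18),(k2,k18),(k3,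
    k18),(k6,k18),(k7,k18)],[(k4,k15),(k5,k15),(k9,k15),(k0,k18),(k2,k18),(k3,k18),(k6,k18),(k7,k18)],[(k4,k12),(k5,
    k12),(k9,k12),(k0,k15),(k2,k15),(k3,k15),(k6,k15),(k7,k15)],[(k11,k14),(k1,k15)],[(k8,k14),(k10,k16)],[(k11,k16),
    (k1,k17)]]
    [] k0
    [[k1,k0,k1,k0,k1,k0],[k1,k0,k0,k0,k1,k1],[k0,k1,k2,k0,k0,k0],[k0,k0,k3,k0,k0,k0],[k0,k0,k2,k1,k0,k0]]
    [.ref k1 k0 [(z2,[z3,z3,z0,y1]),(z2,[y3,z3,z6,z1]),(z2,[z3,y3,z0,z1]),(z2,[y3,z3,z0,z1])],.ref k1 k0 [(z1,[z3,z3,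
    z3,z1,y3]),(z1,[y3,z0,z0,y1,z3]),(z1,[z3,z0,z3,z2,y3]),(z1,[y3,z0,y3,y1,z3])],.ref k1 k0 [(z1,[z3,z3,y3,y2]),(z1,
    [y3,z0,z6,z2]),(z1,[z3,z0,y3,y1]),(z1,[y3,z0,z3,z2])],.ref k1 k0 [(z1,[z1,z3,z0,y1]),(z1,[y1,z0,z3,z1]),(z1,[z1]),
    (z1,[y1,z0,z0,z1])],.ref k1 k0 [(z1,[z3,z3,z0,y2]),(z1,[y3,z0,z3,z2]),(z1,[z3,z0,z0,y1]),(z1,[y3,z0,z0,z2])]],
    .leafM k0 [k0,k1,k2,k3,k4,k5] [(z3,[z0,z1,z1])] [],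
    .lp [k30,k30,k30,k42,k24,k32] [k6,k6,k6,k6,k6,k6,k0,k0,k9,k9,k5,k5] k0 [[k0,k0,k6,k6],[],[k0,k6,k0,k0,k6],[k0,k6,k0,
    k0,k6],[],[k0,k0,k6,k6]] k96 k5
    [[(k8,k27),(k10,k31)],[(k2,k24),(k5,k24),(k9,k27),(k0,k30),(k3,k30),(k4,k30),(k6,k36),(k7,k36)],[(k9,k27),(k0,
    k30),(k3,k30),(k4,k30),(k2,k36),(k5,k36),(k6,k36),(k7,k36)],[(k0,k24),(k9,k27),(k2,k30),(k5,k30),(k7,k30),(k3,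
    k36),(k4,k36),(k6,k36)],[(k0,k24),(k9,k27),(k2,k30),(k5,k30),(k7,k30),(k3,k36),(k4,k36),(k6,k36)],[(k9,k27),(k0,
    k30),(k3,k30),(k4,k30),(k2,k36),(k5,k36),(k6,k36),(k7,k36)],[(k2,k30),(k5,k30),(k9,k33),(k0,k36),(k3,k36),(k4,
    k36),(k6,k42),(k7,k42)],[(k9,k33),(k0,k36),(k2,k36),(k3,k36),(k4,k36),(k5,k36),(k6,k42),(k7,k42)],[(k9,k24),(k0,
    k27),(k2,k27),(k3,k27),(k4,k27),(k5,k27),(k6,k33),(k7,k33)],[(k1,k27),(k11,k28)],[(k8,k28),(k10,k32)],[(k1,k31),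
    (k11,k32)]]
    [] k0
    [[k1,k1,k0,k0,k1,k0],[k1,k0,k1,k0,k1,k0],[k1,k0,k0,k0,k1,k1]]
    [.ref k6 k0 [(z1,[z0,z1]),(z1,[z1,y1]),(z1,[y3,z3,z1])],.ref k2 k1 [(z1,[z3,z0,y1]),(z1,[y3,z3,z1]),(z1,[z0,z0,
    z1])],.ref k7 k1 [(z1,[z3,z3,z1,y3]),(z1,[y3,z0,y1,z3]),(z1,[z0,z0,z1])]],
    .leafM k0 [k0,k1,k2,k3,k4,k5] [(z1,[z0,z1])] [],
    .lp [k54,k84,k60,k66,k48,k64] [k15,k15,k0,k0,k12,k12,k9,k9,k18,k18,k10,k10] k0 [[k0,k0,k0,k0,k0,k0,k0,k6],[],[k0,k0,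
    k0,k0,k12,k12],[k0,k0,k0,k0,k0,k0,k0,k6],[k0,k0,k0,k12,k0,k0,k6],[k0,k0,k0,k12,k0,k0,k6],[k0,k6,k6],[k0,k0,k0,k0,
    k6,k6]] k192 k5
    [[(k8,k51),(k10,k59)],[(k9,k51),(k0,k54),(k6,k54),(k4,k57),(k5,k57),(k7,k60),(k2,k69),(k3,k69)],[(k0,k69),(k4,
    k72),(k5,k72),(k9,k72),(k6,k75),(k7,k75),(k2,k84),(k3,k84)],[(k4,k60),(k7,k63),(k0,k69),(k5,k72),(k9,k72),(k6,
    k75),(k2,k84),(k3,k84)],[(k9,k54),(k0,k57),(k6,k57),(k5,k60),(k2,k72),(k3,k72),(k4,k72),(k7,k75)],[(k9,k48),(k0,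
    k57),(k2,k60),(k4,k60),(k7,k63),(k6,k69),(k3,k72),(k5,k72)],[(k9,k51),(k0,k60),(k2,k63),(k4,k63),(k7,k66),(k6,
    k72),(k3,k75),(k5,k75)],[(k0,k54),(k5,k57),(k9,k57),(k6,k66),(k4,k69),(k7,k72),(k2,k75),(k3,k75)],[(k4,k48),(k9,
    k48),(k0,k51),(k7,k51),(k5,k54),(k6,k57),(k2,k72),(k3,k72)],[(k1,k51),(k11,k56)],[(k8,k56),(k10,k64)],[(k1,k59),
    (k11,k64)]]
    [] k0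
    [[k1,k0,k1,k0,k1,k0],[k1,k0,k0,k1,k1,k0],[k1,k0,k0,k0,k1,k1]]
    [.ref k5 k0 [(z1,[z1]),(z1,[y3,z1])],.ref k8 k0 [(z1,[z1]),(z1,[y3,z1])],.ref k9 k0 [(z1,[z3,z1,y3]),(z1,[y1,z0,
    z1])]],
    .lp [k10,k8,k8,k8,k6,k6] [k0,k0,k1,k1,k1,k1,k1,k1,k2,k2,k2,k2] k0 [] k24 k5
    [[(k8,k8),(k10,k8)],[(k9,k8),(k2,k9),(k3,k9),(k4,k9),(k5,k9),(k6,k9),(k7,k9),(k0,k10)],[(k9,k7),(k2,k8),(k3,k8),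
    (k4,k8),(k5,k8),(k6,k8),(k7,k8),(k0,k9)],[(k9,k7),(k2,k8),(k3,k8),(k4,k8),(k5,k8),(k6,k8),(k7,k8),(k0,k9)],[(k9,
    k7),(k2,k8),(k3,k8),(k4,k8),(k5,k8),(k6,k8),(k7,k8),(k0,k9)],[(k9,k7),(k2,k8),(k3,k8),(k4,k8),(k5,k8),(k6,k8),(k7,
    k8),(k0,k9)],[(k9,k7),(k2,k8),(k3,k8),(k4,k8),(k5,k8),(k6,k8),(k7,k8),(k0,k9)],[(k9,k7),(k2,k8),(k3,k8),(k4,k8),
    (k5,k8),(k6,k8),(k7,k8),(k0,k9)],[(k9,k6),(k2,k7),(k3,k7),(k4,k7),(k5,k7),(k6,k7),(k7,k7),(k0,k8)],[(k11,k6),(k1,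
    k8)],[(k8,k6),(k10,k6)],[(k11,k6),(k1,k8)]]
    [] k0
    [[k1,k0,k0,k0,k1,k1],[k0,k0,k0,k0,k0,k3]]
    [.ref k0 k0 [(z1,[z1])],.ref k10 k0 [(z1,[y1,z3])]]]⟩

/-- classes `0 0 0 0 1 1`, types `S0 S0 S0 S0 C0 C2` -/
noncomputable def cT6_238 : CertT :=
  ⟨[k0,k0,k0,k0,k20,k22],[(false,k0,[k0,k1,k2,k3,k4,k5])],[[[([z2,z0,z0,z0,z0,z1],z2),([z0,z1,z1,z1,z0,z0],z2)],[([z2,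
    z0,z0,z0,z0,z1],z2)],[([z1,z0,z0,z0,z1,z1],z2)],[]]],
    [.leafM k0 [k0,k1,k2,k3,k4,k5] [(z1,[z0,z1])] [],
    .lp [k18,k16,k16,k16,k12,k12] [k0,k0,k1,k1,k1,k1,k1,k1,k3,k3,k3,k3] k0 [] k48 k5
    [[(k10,k15),(k11,k15)],[(k9,k15),(k2,k17),(k3,k17),(k4,k17),(k5,k17),(k6,k17),(k7,k17),(k0,k18)],[(k9,k14),(k2,
    k16),(k3,k16),(k4,k16),(k5,k16),(k6,k16),(k7,k16),(k0,k17)],[(k9,k14),(k2,k16),(k3,k16),(k4,k16),(k5,k16),(k6,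
    k16),(k7,k16),(k0,k17)],[(k9,k14),(k2,k16),(k3,k16),(k4,k16),(k5,k16),(k6,k16),(k7,k16),(k0,k17)],[(k9,k14),(k2,
    k16),(k3,k16),(k4,k16),(k5,k16),(k6,k16),(k7,k16),(k0,k17)],[(k9,k14),(k2,k16),(k3,k16),(k4,k16),(k5,k16),(k6,
    k16),(k7,k16),(k0,k17)],[(k9,k14),(k2,k16),(k3,k16),(k4,k16),(k5,k16),(k6,k16),(k7,k16),(k0,k17)],[(k9,k12),(k2,
    k14),(k3,k14),(k4,k14),(k5,k14),(k6,k14),(k7,k14),(k0,k15)],[(k10,k12),(k11,k12)],[(k8,k12),(k1,k15)],[(k8,k12),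
    (k1,k15)]]
    [] k0
    [[k1,k0,k0,k0,k1,k1],[k0,k0,k0,k0,k2,k1]]
    [.ref k0 k0 [(z1,[z0,z1]),(z1,[y1,z0,z1])],.ref k0 k0 [(z1,[z0,z1]),(z2,[y1,y1,z2])]],
    .leafM k0 [k0,k1,k2,k3,k4,k5] [(z1,[y1,z1])] [],
    .lp [k12,k16,k16,k16,k18,k12] [k3,k3,k1,k1,k1,k1,k1,k1,k0,k0,k3,k3] k0 [] k48 k5
    [[(k10,k12),(k11,k12)],[(k0,k12),(k2,k14),(k3,k14),(k4,k14),(k5,k14),(k6,k14),(k7,k14),(k9,k15)],[(k0,k14),(k2,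
    k16),(k3,k16),(k4,k16),(k5,k16),(k6,k16),(k7,k16),(k9,k17)],[(k0,k14),(k2,k16),(k3,k16),(k4,k16),(k5,k16),(k6,
    k16),(k7,k16),(k9,k17)],[(k0,k14),(k2,k16),(k3,k16),(k4,k16),(k5,k16),(k6,k16),(k7,k16),(k9,k17)],[(k0,k14),(k2,
    k16),(k3,k16),(k4,k16),(k5,k16),(k6,k16),(k7,k16),(k9,k17)],[(k0,k14),(k2,k16),(k3,k16),(k4,k16),(k5,k16),(k6,
    k16),(k7,k16),(k9,k17)],[(k0,k14),(k2,k16),(k3,k16),(k4,k16),(k5,k16),(k6,k16),(k7,k16),(k9,k17)],[(k0,k15),(k2,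
    k17),(k3,k17),(k4,k17),(k5,k17),(k6,k17),(k7,k17),(k9,k18)],[(k10,k15),(k11,k15)],[(k1,k12),(k8,k15)],[(k1,k12),
    (k8,k15)]]
    [] k0
    [[k2,k0,k0,k0,k0,k1],[k1,k0,k0,k0,k1,k1]]
    [.ref k1 k0 [(z1,[z1])],.ref k2 k0 [(z1,[z1])]]]⟩

/-- classes `0 0 0 0 1 1`, types `S0 S0 S0 S0 N0 N1` -/
noncomputable def cT6_239 : CertT :=
  ⟨[k0,k0,k0,k0,k28,k29],[(false,k0,[k0,k1,k2,k3,k4,k5]),(true,k4,[k4,k3,k2,k1,k0,k5])],[[[([z3,z0,z0,z0,z3,z0],z4),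
    ([z0,z3,z0,z0,z0,z0],z2),([z0,z0,z3,z0,z0,z0],z2),([z0,z0,z0,z3,z0,z0],z2)],[([z3,z0,z0,y3,z3,z0],z2),([z0,z3,z0,
    z3,z0,z0],z4),([z0,z0,z3,z3,z0,z0],z4)],[([z1,z0,z1,z0,z1,z0],z2),([z0,z3,z0,z0,z0,z0],z2),([z0,z0,z0,z3,z0,z0],
    z2)],[([z1,z0,z1,z0,z1,z0],z2),([z0,z3,z0,z3,z0,z0],z4)],[([z1,z0,z0,z1,z1,z0],z2),([z0,z1,z0,y1,z0,z0],z0),([z0,
    z0,z3,z3,z0,z0],z4)],[([z1,z0,z0,z1,z1,z0],z2),([z0,z3,z3,z0,z0,z0],z4)],[([z3,z3,z3,z3,z3,z0],z10)],[]]],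
    [.leafM k2 [k0,k1,k2,k3,k4,k5] [(z1,[z0,z1]),(z1,[z0,z0,z0,z1]),(z1,[y1,y1,y1,y1,z3])] [],
    .lp [k18,k18,k18,k12,k12,k16] [k0,k0,k0,k0,k0,k0,k3,k3,k3,k3,k1,k1] k0 [] k48 k5
    [[(k8,k15)],[(k6,k15),(k7,k15),(k9,k15),(k0,k18),(k2,k18),(k3,k18),(k4,k18),(k5,k18)],[(k6,k15),(k7,k15),(k9,k15),
    (k0,k18),(k2,k18),(k3,k18),(k4,k18),(k5,k18)],[(k6,k15),(k7,k15),(k9,k15),(k0,k18),(k2,k18),(k3,k18),(k4,k18),(k5,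
    k18)],[(k6,k15),(k7,k15),(k9,k15),(k0,k18),(k2,k18),(k3,k18),(k4,k18),(k5,k18)],[(k6,k15),(k7,k15),(k9,k15),(k0,
    k18),(k2,k18),(k3,k18),(k4,k18),(k5,k18)],[(k6,k12),(k7,k12),(k9,k12),(k0,k15),(k2,k15),(k3,k15),(k4,k15),(k5,
    k15)],[(k6,k12),(k7,k12),(k9,k12),(k0,k15),(k2,k15),(k3,k15),(k4,k15),(k5,k15)],[(k6,k12),(k7,k12),(k9,k12),(k0,
    k15),(k2,k15),(k3,k15),(k4,k15),(k5,k15)],[(k1,k15)],[(k10,k16)],[(k11,k16)]]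
    [] k0
    [[k1,k0,k0,k1,k1,k0],[k0,k1,k0,k2,k0,k0],[k0,k0,k1,k2,k0,k0],[k0,k0,k0,k3,k0,k0]]
    [.ref k0 k0 [(z2,[z3,z1]),(z2,[y3,z1,z2]),(z2,[y3,z1,z0,z2]),(z2,[z3,y1])],.ref k0 k0 [(z1,[z3,z1,y1]),(z1,[y3,z0,
    z2]),(z1,[y3,z0,z1,z1]),(z1,[z3,z0,y1])],.ref k0 k0 [(z1,[z3,z1,z0,y1]),(z1,[y3,z0,z1,z1]),(z1,[y3,z0,z0,z2]),(z1,
    [z3,z0,z0,y1])],.ref k0 k0 [(z1,[z1,z1]),(z1,[y1,z0,z1]),(z1,[y1,z0,z0,z1]),(z1,[z1])]],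
    .leafM k2 [k0,k1,k2,k3,k4,k5] [(z1,[z0,z1]),(z1,[z0,z0,z1]),(z1,[y3,y1,y1,z3])] [],
    .lp [k90,k84,k84,k78,k60,k80] [k0,k0,k3,k3,k3,k3,k6,k6,k15,k15,k5,k5] k0 [[k0,k0,k0,k0,k0,k0,k6,k6],[k0,k0,k0,k12],
    [k12,k0,k0,k0,k0,k0,k0,k6],[k0,k0,k0,k0,k0,k0,k0,k6],[k0,k0,k0,k0,k0,k0,k6],[k0,k0,k0,k0,k0,k0,k6],[k0,k6,k6,k6],
    [k0,k6,k0,k0,k6,k6]] (nat_lit 240) k5
    [[(k8,k75)],[(k9,k69),(k6,k78),(k7,k84),(k2,k87),(k3,k87),(k4,k87),(k0,k90),(k5,k99)],[(k2,k72),(k9,k78),(k7,k81),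
    (k3,k84),(k4,k84),(k5,k84),(k0,k87),(k6,k87)],[(k3,k72),(k6,k75),(k9,k78),(k7,k81),(k2,k84),(k4,k84),(k5,k84),(k0,
    k87)],[(k6,k75),(k9,k78),(k7,k81),(k2,k84),(k3,k84),(k4,k84),(k5,k84),(k0,k99)],[(k9,k66),(k7,k81),(k2,k84),(k3,
    k84),(k4,k84),(k5,k84),(k0,k87),(k6,k87)],[(k9,k63),(k7,k78),(k2,k81),(k3,k81),(k4,k81),(k5,k81),(k0,k84),(k6,
    k84)],[(k9,k69),(k2,k75),(k5,k75),(k0,k78),(k6,k78),(k7,k84),(k3,k87),(k4,k87)],[(k9,k60),(k7,k63),(k4,k66),(k0,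
    k69),(k6,k69),(k2,k78),(k3,k78),(k5,k78)],[(k1,k75)],[(k10,k80)],[(k11,k80)]]
    [] k0
    [[k1,k0,k0,k1,k1,k0],[k0,k3,k0,k0,k0,k0],[k0,k2,k0,k1,k0,k0]]
    [.ref k1 k1 [(z1,[z3,z0,y1]),(z1,[z0,z0,z1]),(z1,[y3,z3,z1])],.ref k2 k0 [(z1,[z0,z1]),(z1,[z1]),(z1,[y1,z0,z1])],
    .ref k2 k0 [(z1,[z0,z1]),(z1,[z3,z0,y1]),(z1,[y3,z0,z2])]],
    .lp [k18,k18,k12,k18,k12,k16] [k0,k0,k0,k0,k3,k3,k0,k0,k3,k3,k1,k1] k0 [] k48 k5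
    [[(k8,k15)],[(k4,k15),(k5,k15),(k9,k15),(k0,k18),(k2,k18),(k3,k18),(k6,k18),(k7,k18)],[(k4,k15),(k5,k15),(k9,k15),
    (k0,k18),(k2,k18),(k3,k18),(k6,k18),(k7,k18)],[(k4,k15),(k5,k15),(k9,k15),(k0,k18),(k2,k18),(k3,k18),(k6,k18),(k7,
    k18)],[(k4,k12),(k5,k12),(k9,k12),(k0,k15),(k2,k15),(k3,k15),(k6,k15),(k7,k15)],[(k4,k12),(k5,k12),(k9,k12),(k0,
    k15),(k2,k15),(k3,k15),(k6,k15),(k7,k15)],[(k4,k15),(k5,k15),(k9,k15),(k0,k18),(k2,k18),(k3,k18),(k6,k18),(k7,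
    k18)],[(k4,k15),(k5,k15),(k9,k15),(k0,k18),(k2,k18),(k3,k18),(k6,k18),(k7,k18)],[(k4,k12),(k5,k12),(k9,k12),(k0,
    k15),(k2,k15),(k3,k15),(k6,k15),(k7,k15)],[(k1,k15)],[(k10,k16)],[(k11,k16)]]
    [] k0
    [[k1,k0,k1,k0,k1,k0],[k0,k1,k2,k0,k0,k0],[k0,k0,k3,k0,k0,k0],[k0,k0,k2,k1,k0,k0]]
    [.ref k0 k0 [(z2,[z3,z3,z0,y1]),(z2,[y3,z3,z6,z1]),(z2,[z3,y3,z0,z1]),(z2,[y3,z3,z0,z1])],.ref k0 k0 [(z1,[z3,z3,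
    y3,y2]),(z1,[y3,z0,z6,z2]),(z1,[z3,z0,y3,y1]),(z1,[y3,z0,z3,z2])],.ref k0 k0 [(z1,[z1,z3,z0,y1]),(z1,[y1,z0,z3,
    z1]),(z1,[z1]),(z1,[y1,z0,z0,z1])],.ref k0 k0 [(z1,[z3,z3,z0,y2]),(z1,[y3,z0,z3,z2]),(z1,[z3,z0,z0,y1]),(z1,[y3,
    z0,z0,z2])]],
    .lp [k30,k30,k30,k42,k24,k32] [k6,k6,k6,k6,k6,k6,k0,k0,k9,k9,k5,k5] k0 [[k0,k0,k6,k6],[],[k0,k6,k0,k0,k6],[k0,k6,k0,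
    k0,k6],[],[k0,k0,k6,k6]] k96 k5
    [[(k8,k27)],[(k2,k24),(k5,k24),(k9,k27),(k0,k30),(k3,k30),(k4,k30),(k6,k36),(k7,k36)],[(k9,k27),(k0,k30),(k3,k30),
    (k4,k30),(k2,k36),(k5,k36),(k6,k36),(k7,k36)],[(k0,k24),(k9,k27),(k2,k30),(k5,k30),(k7,k30),(k3,k36),(k4,k36),(k6,
    k36)],[(k0,k24),(k9,k27),(k2,k30),(k5,k30),(k7,k30),(k3,k36),(k4,k36),(k6,k36)],[(k9,k27),(k0,k30),(k3,k30),(k4,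
    k30),(k2,k36),(k5,k36),(k6,k36),(k7,k36)],[(k2,k30),(k5,k30),(k9,k33),(k0,k36),(k3,k36),(k4,k36),(k6,k42),(k7,
    k42)],[(k9,k33),(k0,k36),(k2,k36),(k3,k36),(k4,k36),(k5,k36),(k6,k42),(k7,k42)],[(k9,k24),(k0,k27),(k2,k27),(k3,
    k27),(k4,k27),(k5,k27),(k6,k33),(k7,k33)],[(k1,k27)],[(k10,k32)],[(k11,k32)]]
    [] k0
    [[k1,k1,k0,k0,k1,k0],[k1,k0,k1,k0,k1,k0]]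
    [.ref k4 k0 [(z1,[z0,z1]),(z1,[z1,y1]),(z1,[y3,z3,z1])],.ref k1 k1 [(z1,[z3,z0,y1]),(z1,[y3,z3,z1]),(z1,[z0,z0,
    z1])]],
    .lp [k54,k84,k60,k66,k48,k64] [k15,k15,k0,k0,k12,k12,k9,k9,k18,k18,k10,k10] k0 [[k0,k0,k0,k0,k0,k0,k0,k6],[],[k0,k0,
    k0,k0,k12,k12],[k0,k0,k0,k0,k0,k0,k0,k6],[k0,k0,k0,k12,k0,k0,k6],[k0,k0,k0,k12,k0,k0,k6],[k0,k6,k6],[k0,k0,k0,k0,
    k6,k6]] k192 k5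
    [[(k8,k51)],[(k9,k51),(k0,k54),(k6,k54),(k4,k57),(k5,k57),(k7,k60),(k2,k69),(k3,k69)],[(k0,k69),(k4,k72),(k5,k72),
    (k9,k72),(k6,k75),(k7,k75),(k2,k84),(k3,k84)],[(k4,k60),(k7,k63),(k0,k69),(k5,k72),(k9,k72),(k6,k75),(k2,k84),(k3,
    k84)],[(k9,k54),(k0,k57),(k6,k57),(k5,k60),(k2,k72),(k3,k72),(k4,k72),(k7,k75)],[(k9,k48),(k0,k57),(k2,k60),(k4,
    k60),(k7,k63),(k6,k69),(k3,k72),(k5,k72)],[(k9,k51),(k0,k60),(k2,k63),(k4,k63),(k7,k66),(k6,k72),(k3,k75),(k5,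
    k75)],[(k0,k54),(k5,k57),(k9,k57),(k6,k66),(k4,k69),(k7,k72),(k2,k75),(k3,k75)],[(k4,k48),(k9,k48),(k0,k51),(k7,
    k51),(k5,k54),(k6,k57),(k2,k72),(k3,k72)],[(k1,k51)],[(k10,k64)],[(k11,k64)]]
    [] k0
    [[k1,k0,k1,k0,k1,k0],[k1,k0,k0,k1,k1,k0]]
    [.ref k3 k0 [(z1,[z1]),(z1,[y3,z1])],.ref k5 k0 [(z1,[z1]),(z1,[y3,z1])]],
    .lp [k10,k8,k8,k8,k6,k6] [k0,k0,k1,k1,k1,k1,k1,k1,k2,k2,k2,k2] k0 [] k24 k5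
    [[(k8,k8)],[(k9,k8),(k2,k9),(k3,k9),(k4,k9),(k5,k9),(k6,k9),(k7,k9),(k0,k10)],[(k9,k7),(k2,k8),(k3,k8),(k4,k8),
    (k5,k8),(k6,k8),(k7,k8),(k0,k9)],[(k9,k7),(k2,k8),(k3,k8),(k4,k8),(k5,k8),(k6,k8),(k7,k8),(k0,k9)],[(k9,k7),(k2,
    k8),(k3,k8),(k4,k8),(k5,k8),(k6,k8),(k7,k8),(k0,k9)],[(k9,k7),(k2,k8),(k3,k8),(k4,k8),(k5,k8),(k6,k8),(k7,k8),(k0,
    k9)],[(k9,k7),(k2,k8),(k3,k8),(k4,k8),(k5,k8),(k6,k8),(k7,k8),(k0,k9)],[(k9,k7),(k2,k8),(k3,k8),(k4,k8),(k5,k8),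
    (k6,k8),(k7,k8),(k0,k9)],[(k9,k6),(k2,k7),(k3,k7),(k4,k7),(k5,k7),(k6,k7),(k7,k7),(k0,k8)],[(k1,k8)],[(k10,k6)],
    [(k11,k6)]]
    [] k0
    [[k0,k0,k0,k0,k0,k3]]
    [.ref k6 k0 [(z1,[y1,z3])]]]⟩

/-- classes `0 0 0 0 1 1`, types `S0 S0 S0 S0 N0 N2` -/
noncomputable def cT6_240 : CertT :=
  ⟨[k0,k0,k0,k0,k28,k30],[(false,k0,[k0,k1,k2,k3,k4,k5])],[[[([z1,z0,z0,z0,z1,z1],z2)],[]]],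
    [.leafM k4 [k4,k5,k0,k1,k2,k3] [(z1,[y1,z1])] [],
    .lp [k6,k8,k8,k8,k6,k6] [k1,k1,k0,k0,k0,k0,k0,k0,k1,k1,k1,k1] k0 [] k24 k5
    [[(k11,k6)],[(k0,k6),(k9,k6),(k2,k7),(k3,k7),(k4,k7),(k5,k7),(k6,k7),(k7,k7)],[(k0,k7),(k9,k7),(k2,k8),(k3,k8),
    (k4,k8),(k5,k8),(k6,k8),(k7,k8)],[(k0,k7),(k9,k7),(k2,k8),(k3,k8),(k4,k8),(k5,k8),(k6,k8),(k7,k8)],[(k0,k7),(k9,
    k7),(k2,k8),(k3,k8),(k4,k8),(k5,k8),(k6,k8),(k7,k8)],[(k0,k7),(k9,k7),(k2,k8),(k3,k8),(k4,k8),(k5,k8),(k6,k8),(k7,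
    k8)],[(k0,k7),(k9,k7),(k2,k8),(k3,k8),(k4,k8),(k5,k8),(k6,k8),(k7,k8)],[(k0,k7),(k9,k7),(k2,k8),(k3,k8),(k4,k8),
    (k5,k8),(k6,k8),(k7,k8)],[(k0,k6),(k9,k6),(k2,k7),(k3,k7),(k4,k7),(k5,k7),(k6,k7),(k7,k7)],[(k10,k6)],[(k1,k6)],
    [(k8,k6)]]
    [] k0
    [[k1,k0,k0,k0,k1,k1]]
    [.ref k0 k0 [(z1,[z1])]]]⟩

/-- classes `0 0 0 0 1 2`, types `B0 B0 B1 B1 C0 C0` -/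
noncomputable def cT6_241 : CertT :=
  ⟨[k8,k8,k9,k9,k20,k36],[(false,k0,[k0,k1,k2,k3,k4,k5])],[[[([z1,z0,z0,z0,z1,z1],z2)],[]]],
    [.leafM k4 [k1,k2,k3,k4,k5,k0] [(z1,[z1])] [],
    .lp [k6,k6,k8,k10,k6,k6] [k2,k2,k2,k2,k1,k1,k0,k0,k2,k2,k2,k2] k0 [] k24 k5
    [[(k10,k6)],[(k9,k6),(k4,k7),(k6,k8),(k7,k8)],[(k9,k6),(k4,k7),(k6,k8),(k7,k8)],[(k9,k6),(k4,k7),(k6,k8),(k7,k8)],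
    [(k9,k7),(k4,k8),(k6,k9),(k7,k9)],[(k0,k7),(k2,k7),(k3,k7),(k5,k8)],[(k0,k8),(k2,k8),(k3,k8),(k5,k9)],[(k0,k8),
    (k2,k8),(k3,k8),(k5,k9)],[(k0,k6),(k2,k6),(k3,k6),(k5,k7)],[(k11,k6)],[(k8,k6)],[(k1,k6)]]
    [] k0
    [[k1,k0,k0,k0,k1,k1]]
    [.ref k0 k0 [(z1,[z1])]]]⟩

/-- classes `0 0 0 0 1 2`, types `B0 B0 B1 B1 C0 S0` -/
noncomputable def cT6_242 : CertT :=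
  ⟨[k8,k8,k9,k9,k20,k32],[(false,k0,[k0,k1,k2,k3,k4,k5])],[[[([z1,z0,z0,z0,z1,z1],z2)],[]]],
    [.leafM k4 [k1,k2,k3,k4,k5,k0] [(z1,[z1])] [],
    .lp [k14,k12,k16,k20,k12,k12] [k3,k3,k4,k4,k2,k2,k0,k0,k4,k4,k4,k4] k0 [] k48 k5
    [[(k10,k13),(k1,k14)],[(k9,k13),(k4,k15),(k6,k17),(k7,k17)],[(k9,k12),(k4,k14),(k6,k16),(k7,k16)],[(k9,k12),(k4,
    k14),(k6,k16),(k7,k16)],[(k9,k14),(k4,k16),(k6,k18),(k7,k18)],[(k2,k14),(k3,k14),(k0,k15),(k5,k16)],[(k2,k16),(k3,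
    k16),(k0,k17),(k5,k18)],[(k2,k16),(k3,k16),(k0,k17),(k5,k18)],[(k2,k12),(k3,k12),(k0,k13),(k5,k14)],[(k11,k12)],
    [(k8,k12)],[(k10,k12),(k1,k13)]]
    [] k0
    [[k1,k0,k0,k0,k1,k1]]
    [.ref k0 k0 [(z1,[z1])]]]⟩

/-- classes `0 0 0 0 1 2`, types `B0 B0 B1 B1 S0 S0` -/
noncomputable def cT6_243 : CertT :=
  ⟨[k8,k8,k9,k9,k16,k32],[(false,k0,[k0,k1,k2,k3,k4,k5])],[[[([z1,z0,z0,z0,z1,z1],z2)],[]]],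
    [.leafM k4 [k1,k2,k3,k4,k5,k0] [(z1,[z1])] [],
    .lp [k10,k12,k8,k4,k6,k6] [k1,k1,k0,k0,k2,k2,k4,k4,k3,k3,k3,k3] k0 [] k24 k5
    [[(k10,k8),(k1,k10)],[(k6,k7),(k7,k7),(k9,k8),(k4,k9)],[(k6,k8),(k7,k8),(k9,k9),(k4,k10)],[(k6,k8),(k7,k8),(k9,
    k9),(k4,k10)],[(k6,k6),(k7,k6),(k9,k7),(k4,k8)],[(k5,k8),(k0,k9),(k2,k10),(k3,k10)],[(k5,k6),(k0,k7),(k2,k8),(k3,
    k8)],[(k5,k6),(k0,k7),(k2,k8),(k3,k8)],[(k5,k7),(k0,k8),(k2,k9),(k3,k9)],[(k8,k6),(k11,k6)],[(k8,k6),(k11,k6)],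
    [(k10,k6),(k1,k8)]]
    [] k0
    [[k1,k0,k0,k0,k1,k1]]
    [.ref k0 k0 [(z1,[z1])]]]⟩

/-- classes `0 0 0 0 1 2`, types `B0 B1 B0 B1 C0 C0` -/
noncomputable def cT6_244 : CertT :=
  ⟨[k8,k9,k8,k9,k20,k36],[(false,k0,[k0,k1,k2,k3,k4,k5])],[[[([z1,z0,z0,z0,z1,z1],z2)],[]]],
    [.leafM k4 [k1,k2,k3,k4,k5,k0] [(z1,[z1])] [],
    .lp [k6,k8,k8,k8,k6,k6] [k1,k1,k0,k0,k0,k0,k0,k0,k1,k1,k1,k1] k0 [] k24 k5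
    [[(k10,k6)],[(k9,k6),(k2,k7),(k5,k7),(k6,k7)],[(k9,k7),(k2,k8),(k5,k8),(k6,k8)],[(k0,k7),(k3,k8),(k4,k8),(k7,k8)],
    [(k0,k7),(k3,k8),(k4,k8),(k7,k8)],[(k9,k7),(k2,k8),(k5,k8),(k6,k8)],[(k9,k7),(k2,k8),(k5,k8),(k6,k8)],[(k0,k7),
    (k3,k8),(k4,k8),(k7,k8)],[(k0,k6),(k3,k7),(k4,k7),(k7,k7)],[(k11,k6)],[(k8,k6)],[(k1,k6)]]
    [] k0
    [[k1,k0,k0,k0,k1,k1]]
    [.ref k0 k0 [(z1,[z1])]]]⟩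

/-- classes `0 0 0 0 1 2`, types `B0 B1 B0 B1 C0 S0` -/
noncomputable def cT6_245 : CertT :=
  ⟨[k8,k9,k8,k9,k20,k32],[(false,k0,[k0,k1,k2,k3,k4,k5])],[[[([z1,z0,z0,z0,z1,z1],z2)],[]]],
    [.leafM k4 [k1,k2,k3,k4,k5,k0] [(z1,[z1])] [],
    .lp [k8,k8,k8,k8,k8,k6] [k0,k0,k0,k0,k0,k0,k0,k0,k0,k0,k1,k1] k0 [[k0,k0,k2],[k0,k0,k0,k0,k0,k0,k0,k2],[],[k0,k2],[k0,
    k0,k0,k0,k0,k0,k2],[],[k2],[k0,k0,k0,k0,k0,k2]] k24 k5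
    [[(k10,k7),(k1,k8)],[(k5,k6),(k2,k8),(k6,k8),(k9,k10)],[(k6,k6),(k5,k8),(k9,k8),(k2,k10)],[(k0,k8),(k4,k8),(k7,
    k8),(k3,k10)],[(k0,k6),(k3,k8),(k4,k8),(k7,k8)],[(k9,k6),(k2,k8),(k5,k8),(k6,k8)],[(k2,k8),(k5,k8),(k9,k8),(k6,
    k10)],[(k3,k6),(k0,k8),(k4,k8),(k7,k10)],[(k4,k6),(k3,k8),(k7,k8),(k0,k10)],[(k11,k7)],[(k8,k7)],[(k10,k6),(k1,
    k7)]]
    [] k0
    [[k0,k1,k1,k1,k0,k0]]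
    [.ref k0 k0 [(z1,[y1,z1])]]]⟩

/-- classes `0 0 0 0 1 2`, types `B0 B1 B0 B1 S0 S0` -/
noncomputable def cT6_246 : CertT :=
  ⟨[k8,k9,k8,k9,k16,k32],[(false,k0,[k0,k1,k2,k3,k4,k5])],[[[([z1,z0,z0,z0,z1,z1],z2)],[]]],
    [.leafM k4 [k1,k2,k3,k4,k5,k0] [(z1,[z1])] [],
    .lp [k8,k8,k8,k8,k8,k6] [k0,k0,k0,k0,k0,k0,k0,k0,k0,k0,k1,k1] k0 [[k0,k0,k2],[k0,k0,k0,k0,k0,k0,k0,k2],[],[k0,k2],[k0,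
    k0,k0,k0,k0,k0,k2],[],[k2],[k0,k0,k0,k0,k0,k2]] k24 k5
    [[(k10,k7),(k1,k8)],[(k5,k6),(k2,k8),(k6,k8),(k9,k10)],[(k6,k6),(k5,k8),(k9,k8),(k2,k10)],[(k0,k8),(k4,k8),(k7,
    k8),(k3,k10)],[(k0,k6),(k3,k8),(k4,k8),(k7,k8)],[(k9,k6),(k2,k8),(k5,k8),(k6,k8)],[(k2,k8),(k5,k8),(k9,k8),(k6,
    k10)],[(k3,k6),(k0,k8),(k4,k8),(k7,k10)],[(k4,k6),(k3,k8),(k7,k8),(k0,k10)],[(k11,k7),(k8,k8)],[(k11,k6),(k8,k7)],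
    [(k10,k6),(k1,k7)]]
    [] k0
    [[k0,k1,k1,k1,k0,k0]]
    [.ref k0 k0 [(z1,[y1,z1])]]]⟩

/-- classes `0 0 0 0 1 2`, types `B0 B1 B1 B0 C0 C0` -/
noncomputable def cT6_247 : CertT :=
  ⟨[k8,k9,k9,k8,k20,k36],[],[[[]]],
    [.lp [k2,k4,k4,k4,k2,k4] [k1,k1,k0,k0,k0,k0,k0,k0,k1,k1,k0,k0] k0 [] k12 k5
    [[(k10,k3)],[(k2,k3),(k4,k3),(k5,k3),(k7,k3)],[(k2,k4),(k4,k4),(k5,k4),(k7,k4)],[(k0,k3),(k9,k3),(k3,k4),(k6,k4)],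
    [(k0,k3),(k9,k3),(k3,k4),(k6,k4)],[(k0,k3),(k9,k3),(k3,k4),(k6,k4)],[(k0,k3),(k9,k3),(k3,k4),(k6,k4)],[(k2,k4),
    (k4,k4),(k5,k4),(k7,k4)],[(k2,k3),(k4,k3),(k5,k3),(k7,k3)],[(k11,k3)],[(k8,k3)],[(k1,k3)]]
    [] k0
    []
    []]⟩

/-- classes `0 0 0 0 1 2`, types `B0 B1 B1 B0 C0 S0` -/
noncomputable def cT6_248 : CertT :=
  ⟨[k8,k9,k9,k8,k20,k32],[],[[[]]],
    [.lp [k18,k16,k12,k16,k12,k12] [k0,k0,k1,k1,k3,k3,k1,k1,k3,k3,k3,k3] k0 [] k48 k5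
    [[(k10,k15),(k1,k18)],[(k4,k15),(k5,k15),(k2,k17),(k7,k17)],[(k4,k14),(k5,k14),(k2,k16),(k7,k16)],[(k9,k14),(k3,
    k16),(k6,k16),(k0,k17)],[(k9,k12),(k3,k14),(k6,k14),(k0,k15)],[(k9,k12),(k3,k14),(k6,k14),(k0,k15)],[(k9,k14),(k3,
    k16),(k6,k16),(k0,k17)],[(k4,k14),(k5,k14),(k2,k16),(k7,k16)],[(k4,k12),(k5,k12),(k2,k14),(k7,k14)],[(k11,k12)],
    [(k8,k12)],[(k10,k12),(k1,k15)]]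
    [] k0
    []
    []]⟩

/-- classes `0 0 0 0 1 2`, types `B0 B1 B1 B0 S0 S0` -/
noncomputable def cT6_249 : CertT :=
  ⟨[k8,k9,k9,k8,k16,k32],[],[[[]]],
    [.lp [k10,k8,k4,k8,k10,k6] [k0,k0,k1,k1,k3,k3,k1,k1,k0,k0,k2,k2] k0 [] k24 k5
    [[(k10,k8),(k1,k10)],[(k4,k7),(k5,k7),(k2,k9),(k7,k9)],[(k4,k6),(k5,k6),(k2,k8),(k7,k8)],[(k3,k8),(k6,k8),(k0,k9),
    (k9,k9)],[(k3,k6),(k6,k6),(k0,k7),(k9,k7)],[(k3,k6),(k6,k6),(k0,k7),(k9,k7)],[(k3,k8),(k6,k8),(k0,k9),(k9,k9)],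
    [(k4,k6),(k5,k6),(k2,k8),(k7,k8)],[(k4,k7),(k5,k7),(k2,k9),(k7,k9)],[(k11,k8),(k8,k10)],[(k11,k6),(k8,k8)],[(k10,
    k6),(k1,k8)]]
    [] k0
    []
    []]⟩

/-- classes `0 0 0 0 1 2`, types `C0 C0 C0 C0 C0 C0` -/
noncomputable def cT6_250 : CertT :=
  ⟨[k4,k4,k4,k4,k20,k36],[(false,k0,[k0,k1,k2,k3,k4,k5])],[[[([z1,z0,z0,z0,z1,z1],z2)],[]]],
    [.leafM k0 [k0,k1,k2,k3,k4,k5] [(z1,[y1,z1])] [],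
    .lp [k6,k8,k8,k8,k6,k6] [k1,k1,k0,k0,k0,k0,k0,k0,k1,k1,k1,k1] k0 [] k24 k5
    [[(k10,k6)],[(k9,k6),(k3,k7),(k5,k7),(k7,k7)],[(k0,k7),(k2,k8),(k4,k8),(k6,k8)],[(k9,k7),(k3,k8),(k5,k8),(k7,k8)],
    [(k0,k7),(k2,k8),(k4,k8),(k6,k8)],[(k9,k7),(k3,k8),(k5,k8),(k7,k8)],[(k0,k7),(k2,k8),(k4,k8),(k6,k8)],[(k9,k7),
    (k3,k8),(k5,k8),(k7,k8)],[(k0,k6),(k2,k7),(k4,k7),(k6,k7)],[(k11,k6)],[(k8,k6)],[(k1,k6)]]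
    [] k0
    [[k1,k0,k0,k0,k1,k1]]
    [.ref k0 k0 [(z1,[z1])]]]⟩

/-- classes `0 0 0 0 1 2`, types `C0 C0 C0 C0 C0 S0` -/
noncomputable def cT6_251 : CertT :=
  ⟨[k4,k4,k4,k4,k20,k32],[(false,k0,[k0,k1,k2,k3,k4,k5])],[[[([z1,z0,z0,z0,z1,z1],z2)],[]]],
    [.leafM k0 [k0,k1,k2,k3,k4,k5] [(z1,[y1,z1])] [],
    .lp [k8,k8,k8,k8,k8,k6] [k0,k0,k0,k0,k0,k0,k0,k0,k0,k0,k1,k1] k0 [[k0,k0,k2],[k0,k0,k0,k0,k0,k0,k0,k2],[],[k0,k2],[k0,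
    k0,k0,k0,k0,k0,k2],[],[k2],[k0,k0,k0,k0,k0,k2]] k24 k5
    [[(k10,k7),(k1,k8)],[(k5,k6),(k3,k8),(k7,k8),(k9,k10)],[(k6,k6),(k0,k8),(k4,k8),(k2,k10)],[(k5,k8),(k7,k8),(k9,
    k8),(k3,k10)],[(k0,k6),(k2,k8),(k4,k8),(k6,k8)],[(k9,k6),(k3,k8),(k5,k8),(k7,k8)],[(k0,k8),(k2,k8),(k4,k8),(k6,
    k10)],[(k3,k6),(k5,k8),(k9,k8),(k7,k10)],[(k4,k6),(k2,k8),(k6,k8),(k0,k10)],[(k11,k7)],[(k8,k7)],[(k10,k6),(k1,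
    k7)]]
    [] k0
    [[k0,k1,k1,k1,k0,k0]]
    [.ref k0 k0 [(z1,[y1,z1])]]]⟩

/-- classes `0 0 0 0 1 2`, types `C0 C0 C0 C0 S0 S0` -/
noncomputable def cT6_252 : CertT :=
  ⟨[k4,k4,k4,k4,k16,k32],[(false,k0,[k0,k1,k2,k3,k4,k5])],[[[([z1,z0,z0,z0,z1,z1],z2)],[]]],
    [.leafM k0 [k0,k1,k2,k3,k4,k5] [(z1,[y1,z1])] [],
    .lp [k6,k8,k8,k8,k6,k6] [k1,k1,k0,k0,k0,k0,k0,k0,k1,k1,k1,k1] k0 [] k24 k5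
    [[(k1,k6),(k10,k6)],[(k9,k6),(k3,k7),(k5,k7),(k7,k7)],[(k0,k7),(k2,k8),(k4,k8),(k6,k8)],[(k9,k7),(k3,k8),(k5,k8),
    (k7,k8)],[(k0,k7),(k2,k8),(k4,k8),(k6,k8)],[(k9,k7),(k3,k8),(k5,k8),(k7,k8)],[(k0,k7),(k2,k8),(k4,k8),(k6,k8)],
    [(k9,k7),(k3,k8),(k5,k8),(k7,k8)],[(k0,k6),(k2,k7),(k4,k7),(k6,k7)],[(k8,k6),(k11,k6)],[(k8,k6),(k11,k6)],[(k1,
    k6),(k10,k6)]]
    [] k0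
    [[k1,k0,k0,k0,k1,k1]]
    [.ref k0 k0 [(z1,[z1])]]]⟩

/-- classes `0 0 0 0 1 2`, types `C0 C0 C0 C2 C0 C0` -/
noncomputable def cT6_253 : CertT :=
  ⟨[k4,k4,k4,k6,k20,k36],[],[[[]]],
    [.lp [k4,k4,k4,k2,k4,k2] [k0,k0,k0,k0,k0,k0,k1,k1,k0,k0,k1,k1] k0 [] k12 k5
    [[(k10,k3)],[(k6,k3),(k7,k3),(k3,k4),(k5,k4)],[(k0,k4),(k2,k4),(k4,k4),(k9,k4)],[(k6,k3),(k7,k3),(k3,k4),(k5,k4)],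
    [(k0,k4),(k2,k4),(k4,k4),(k9,k4)],[(k6,k3),(k7,k3),(k3,k4),(k5,k4)],[(k0,k3),(k2,k3),(k4,k3),(k9,k3)],[(k0,k3),
    (k2,k3),(k4,k3),(k9,k3)],[(k6,k3),(k7,k3),(k3,k4),(k5,k4)],[(k11,k3)],[(k8,k3)],[(k1,k3)]]
    [] k0
    []
    []]⟩

/-- classes `0 0 0 0 1 2`, types `C0 C0 C0 C2 C0 S0` -/
noncomputable def cT6_254 : CertT :=
  ⟨[k4,k4,k4,k6,k20,k32],[],[[[]]],
    [.lp [k18,k16,k16,k12,k12,k12] [k0,k0,k1,k1,k1,k1,k3,k3,k3,k3,k3,k3] k0 [] k48 k5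
    [[(k10,k15),(k1,k18)],[(k6,k15),(k7,k15),(k3,k17),(k5,k17)],[(k9,k14),(k2,k16),(k4,k16),(k0,k17)],[(k6,k14),(k7,
    k14),(k3,k16),(k5,k16)],[(k9,k14),(k2,k16),(k4,k16),(k0,k17)],[(k6,k14),(k7,k14),(k3,k16),(k5,k16)],[(k9,k12),(k2,
    k14),(k4,k14),(k0,k15)],[(k9,k12),(k2,k14),(k4,k14),(k0,k15)],[(k6,k12),(k7,k12),(k3,k14),(k5,k14)],[(k11,k12)],
    [(k8,k12)],[(k10,k12),(k1,k15)]]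
    [] k0
    []
    []]⟩

/-- classes `0 0 0 0 1 2`, types `C0 C0 C0 C2 S0 C0` -/
noncomputable def cT6_255 : CertT :=
  ⟨[k4,k4,k4,k6,k16,k36],[],[[[]]],
    [.lp [k12,k16,k16,k12,k18,k12] [k3,k3,k1,k1,k1,k1,k3,k3,k0,k0,k3,k3] k0 [] k48 k5
    [[(k10,k12)],[(k6,k12),(k7,k12),(k3,k14),(k5,k14)],[(k0,k14),(k2,k16),(k4,k16),(k9,k17)],[(k6,k14),(k7,k14),(k3,
    k16),(k5,k16)],[(k0,k14),(k2,k16),(k4,k16),(k9,k17)],[(k6,k14),(k7,k14),(k3,k16),(k5,k16)],[(k0,k12),(k2,k14),(k4,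
    k14),(k9,k15)],[(k0,k12),(k2,k14),(k4,k14),(k9,k15)],[(k6,k15),(k7,k15),(k3,k17),(k5,k17)],[(k11,k15),(k8,k18)],
    [(k11,k12),(k8,k15)],[(k1,k12)]]
    [] k0
    []
    []]⟩

/-- classes `0 0 0 0 1 2`, types `C0 C0 C0 C2 S0 S0` -/
noncomputable def cT6_256 : CertT :=
  ⟨[k4,k4,k4,k6,k16,k32],[],[[[]]],
    [.lp [(nat_lit 7920),(nat_lit 9630),(nat_lit 8988),(nat_lit 11128),(nat_lit 7062),(nat_lit 7062)] [(nat_lit 1604),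
    (nat_lit 1604),(nat_lit 749),(nat_lit 749),(nat_lit 1070),(nat_lit 1070),k0,k0,(nat_lit 2033),(nat_lit 2033),
    (nat_lit 2033),(nat_lit 2033)] k0 [[],[k0,k0,k0,k0,k0,k0,(nat_lit 1284)],[k0,k0,k0,k0,(nat_lit 642)],[],[k0,k0,k0,
    k0,k0,k0,k0,(nat_lit 2996)],[k0,k0,k0,(nat_lit 642)],[k0,k0,k0,k0,k0,(nat_lit 2996)],
    [(nat_lit 1284)]] (nat_lit 28248) k5
    [[(k10,(nat_lit 7491)),(k1,(nat_lit 7920))],[(k5,(nat_lit 8454)),(k3,(nat_lit 8775)),(k7,(nat_lit 9524)),(k6,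
    (nat_lit 10808))],[(k9,(nat_lit 7062)),(k0,(nat_lit 8775)),(k4,(nat_lit 9309)),(k2,(nat_lit 9630))],[(k5,
    (nat_lit 9309)),(k3,(nat_lit 9630)),(k7,(nat_lit 9737)),(k6,(nat_lit 10379))],[(k9,(nat_lit 8025)),(k0,
    (nat_lit 8454)),(k2,(nat_lit 9309)),(k4,(nat_lit 9630))],[(k6,(nat_lit 7062)),(k3,(nat_lit 9309)),(k5,
    (nat_lit 9630)),(k7,(nat_lit 10058))],[(k0,(nat_lit 9524)),(k2,(nat_lit 9737)),(k4,(nat_lit 10058)),(k9,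
    (nat_lit 12091))],[(k4,(nat_lit 7062)),(k9,(nat_lit 9095)),(k2,(nat_lit 10379)),(k0,(nat_lit 10808))],[(k3,
    (nat_lit 7062)),(k5,(nat_lit 8025)),(k6,(nat_lit 9095)),(k7,(nat_lit 12091))],[(k8,(nat_lit 7062)),(k11,
    (nat_lit 7062))],[(k8,(nat_lit 7062)),(k11,(nat_lit 7062))],[(k10,(nat_lit 7062)),(k1,(nat_lit 7491))]]
    [] k0
    []
    []]⟩

/-- classes `0 0 0 0 1 2`, types `C0 C0 C2 C0 C0 C0` -/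
noncomputable def cT6_257 : CertT :=
  ⟨[k4,k4,k6,k4,k20,k36],[(false,k0,[k0,k1,k2,k3,k4,k5])],[[[([z1,z0,z0,z0,z1,z1],z2)],[]]],
    [.leafM k0 [k0,k1,k2,k3,k4,k5] [(z1,[y1,z1])] [],
    .lp [k6,k4,k2,k4,k2,k4] [k0,k0,k1,k1,k2,k2,k1,k1,k2,k2,k1,k1] k0 [] k12 k5
    [[(k10,k5)],[(k4,k4),(k5,k4),(k9,k4),(k3,k5)],[(k2,k4),(k6,k4),(k7,k4),(k0,k5)],[(k4,k3),(k5,k3),(k9,k3),(k3,k4)],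
    [(k2,k3),(k6,k3),(k7,k3),(k0,k4)],[(k2,k3),(k6,k3),(k7,k3),(k0,k4)],[(k4,k3),(k5,k3),(k9,k3),(k3,k4)],[(k4,k3),
    (k5,k3),(k9,k3),(k3,k4)],[(k2,k3),(k6,k3),(k7,k3),(k0,k4)],[(k11,k3)],[(k8,k3)],[(k1,k5)]]
    [] k0
    [[k0,k1,k1,k1,k0,k0]]
    [.ref k0 k0 [(z1,[y1,z1])]]]⟩

/-- classes `0 0 0 0 1 2`, types `C0 C0 C2 C0 C0 S0` -/
noncomputable def cT6_258 : CertT :=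
  ⟨[k4,k4,k6,k4,k20,k32],[(false,k0,[k0,k1,k2,k3,k4,k5])],[[[([z1,z0,z0,z0,z1,z1],z2)],[]]],
    [.leafM k0 [k0,k1,k2,k3,k4,k5] [(z1,[y1,z1])] [],
    .lp [k14,k16,k20,k12,k12,k12] [k3,k3,k2,k2,k0,k0,k4,k4,k4,k4,k4,k4] k0 [] k48 k5
    [[(k10,k13),(k1,k14)],[(k9,k13),(k3,k15),(k4,k17),(k5,k17)],[(k6,k14),(k7,k14),(k0,k15),(k2,k16)],[(k9,k14),(k3,
    k16),(k4,k18),(k5,k18)],[(k6,k16),(k7,k16),(k0,k17),(k2,k18)],[(k6,k16),(k7,k16),(k0,k17),(k2,k18)],[(k9,k12),(k3,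
    k14),(k4,k16),(k5,k16)],[(k9,k12),(k3,k14),(k4,k16),(k5,k16)],[(k6,k12),(k7,k12),(k0,k13),(k2,k14)],[(k11,k12)],
    [(k8,k12)],[(k10,k12),(k1,k13)]]
    [] k0
    [[k1,k0,k0,k0,k1,k1]]
    [.ref k0 k0 [(z1,[z1])]]]⟩

/-- classes `0 0 0 0 1 2`, types `C0 C0 C2 C0 S0 C0` -/
noncomputable def cT6_259 : CertT :=
  ⟨[k4,k4,k6,k4,k16,k36],[(false,k0,[k0,k1,k2,k3,k4,k5])],[[[([z1,z0,z0,z0,z1,z1],z2)],[]]],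
    [.leafM k0 [k0,k1,k2,k3,k4,k5] [(z1,[y1,z1])] [],
    .lp [k12,k16,k12,k20,k14,k12] [k4,k4,k2,k2,k4,k4,k0,k0,k3,k3,k4,k4] k0 [] k48 k5
    [[(k10,k12)],[(k4,k12),(k5,k12),(k9,k13),(k3,k14)],[(k0,k14),(k2,k16),(k6,k18),(k7,k18)],[(k4,k14),(k5,k14),(k9,
    k15),(k3,k16)],[(k0,k12),(k2,k14),(k6,k16),(k7,k16)],[(k0,k12),(k2,k14),(k6,k16),(k7,k16)],[(k4,k16),(k5,k16),(k9,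
    k17),(k3,k18)],[(k4,k16),(k5,k16),(k9,k17),(k3,k18)],[(k0,k13),(k2,k15),(k6,k17),(k7,k17)],[(k11,k13),(k8,k14)],
    [(k11,k12),(k8,k13)],[(k1,k12)]]
    [] k0
    [[k1,k0,k0,k0,k1,k1]]
    [.ref k0 k0 [(z1,[z1])]]]⟩

/-- classes `0 0 0 0 1 2`, types `C0 C0 C2 C0 S0 S0` -/
noncomputable def cT6_260 : CertT :=
  ⟨[k4,k4,k6,k4,k16,k32],[(false,k0,[k0,k1,k2,k3,k4,k5])],[[[([z1,z0,z0,z0,z1,z1],z2)],[]]],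
    [.leafM k0 [k0,k1,k2,k3,k4,k5] [(z1,[y1,z1])] [],
    .lp [k10,k8,k4,k8,k8,k6] [k0,k0,k1,k1,k3,k3,k1,k1,k1,k1,k2,k2] k0 [] k24 k5
    [[(k10,k8),(k1,k10)],[(k4,k7),(k5,k7),(k3,k9),(k9,k9)],[(k2,k8),(k6,k8),(k7,k8),(k0,k9)],[(k4,k6),(k5,k6),(k3,k8),
    (k9,k8)],[(k2,k6),(k6,k6),(k7,k6),(k0,k7)],[(k2,k6),(k6,k6),(k7,k6),(k0,k7)],[(k4,k6),(k5,k6),(k3,k8),(k9,k8)],
    [(k4,k6),(k5,k6),(k3,k8),(k9,k8)],[(k2,k8),(k6,k8),(k7,k8),(k0,k9)],[(k11,k7),(k8,k8)],[(k11,k6),(k8,k7)],[(k10,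
    k6),(k1,k8)]]
    [] k0
    [[k0,k1,k1,k1,k0,k0]]
    [.ref k0 k0 [(z1,[y1,z1])]]]⟩

/-- classes `0 0 0 0 1 2`, types `C0 C0 C2 C2 C0 C0` -/
noncomputable def cT6_261 : CertT :=
  ⟨[k4,k4,k6,k6,k20,k36],[],[[[]]],
    [.lp [k4,k4,k2,k4,k4,k2] [k0,k0,k0,k0,k1,k1,k0,k0,k0,k0,k1,k1] k0 [] k12 k5
    [[(k10,k3)],[(k4,k3),(k5,k3),(k3,k4),(k6,k4)],[(k0,k4),(k2,k4),(k7,k4),(k9,k4)],[(k4,k3),(k5,k3),(k3,k4),(k6,k4)],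
    [(k0,k3),(k2,k3),(k7,k3),(k9,k3)],[(k0,k3),(k2,k3),(k7,k3),(k9,k3)],[(k4,k3),(k5,k3),(k3,k4),(k6,k4)],[(k0,k4),
    (k2,k4),(k7,k4),(k9,k4)],[(k4,k3),(k5,k3),(k3,k4),(k6,k4)],[(k11,k3)],[(k8,k3)],[(k1,k3)]]
    [] k0
    []
    []]⟩

/-- classes `0 0 0 0 1 2`, types `C0 C0 C2 C2 C0 S0` -/
noncomputable def cT6_262 : CertT :=
  ⟨[k4,k4,k6,k6,k20,k32],[],[[[]]],
    [.lp [k18,k16,k12,k16,k12,k12] [k0,k0,k1,k1,k3,k3,k1,k1,k3,k3,k3,k3] k0 [] k48 k5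
    [[(k10,k15),(k1,k18)],[(k4,k15),(k5,k15),(k3,k17),(k6,k17)],[(k9,k14),(k2,k16),(k7,k16),(k0,k17)],[(k4,k14),(k5,
    k14),(k3,k16),(k6,k16)],[(k9,k12),(k2,k14),(k7,k14),(k0,k15)],[(k9,k12),(k2,k14),(k7,k14),(k0,k15)],[(k4,k14),(k5,
    k14),(k3,k16),(k6,k16)],[(k9,k14),(k2,k16),(k7,k16),(k0,k17)],[(k4,k12),(k5,k12),(k3,k14),(k6,k14)],[(k11,k12)],
    [(k8,k12)],[(k10,k12),(k1,k15)]]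
    [] k0
    []
    []]⟩

/-- classes `0 0 0 0 1 2`, types `C0 C0 C2 C2 S0 S0` -/
noncomputable def cT6_263 : CertT :=
  ⟨[k4,k4,k6,k6,k16,k32],[],[[[]]],
    [.lp [k10,k8,k4,k8,k10,k6] [k0,k0,k1,k1,k3,k3,k1,k1,k0,k0,k2,k2] k0 [] k24 k5
    [[(k10,k8),(k1,k10)],[(k4,k7),(k5,k7),(k3,k9),(k6,k9)],[(k2,k8),(k7,k8),(k0,k9),(k9,k9)],[(k4,k6),(k5,k6),(k3,k8),
    (k6,k8)],[(k2,k6),(k7,k6),(k0,k7),(k9,k7)],[(k2,k6),(k7,k6),(k0,k7),(k9,k7)],[(k4,k6),(k5,k6),(k3,k8),(k6,k8)],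
    [(k2,k8),(k7,k8),(k0,k9),(k9,k9)],[(k4,k7),(k5,k7),(k3,k9),(k6,k9)],[(k11,k8),(k8,k10)],[(k11,k6),(k8,k8)],[(k10,
    k6),(k1,k8)]]
    [] k0
    []
    []]⟩

/-- classes `0 0 0 0 1 2`, types `C0 C2 C0 C2 C0 C0` -/
noncomputable def cT6_264 : CertT :=
  ⟨[k4,k6,k4,k6,k20,k36],[],[[[]]],
    [.lp [k0,k2,k0,k2,k0,k2] [k1,k1,k0,k0,k1,k1,k0,k0,k1,k1,k0,k0] k0 [] k4 k5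
    [[(k10,k1)],[(k2,k1),(k3,k1),(k6,k1),(k7,k1)],[(k0,k1),(k4,k1),(k5,k1),(k9,k1)],[(k0,k1),(k4,k1),(k5,k1),(k9,k1)],
    [(k2,k1),(k3,k1),(k6,k1),(k7,k1)],[(k2,k1),(k3,k1),(k6,k1),(k7,k1)],[(k0,k1),(k4,k1),(k5,k1),(k9,k1)],[(k0,k1),
    (k4,k1),(k5,k1),(k9,k1)],[(k2,k1),(k3,k1),(k6,k1),(k7,k1)],[(k11,k1)],[(k8,k1)],[(k1,k1)]]
    [] k0
    []
    []]⟩

/-- classes `0 0 0 0 1 2`, types `C0 C2 C0 C2 C0 S0` -/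
noncomputable def cT6_265 : CertT :=
  ⟨[k4,k6,k4,k6,k20,k32],[],[[[]]],
    [.lp [k6,k4,k4,k4,k4,k4] [k0,k0,k1,k1,k1,k1,k1,k1,k1,k1,k1,k1] k0 [] k16 k5
    [[(k10,k5),(k1,k6)],[(k2,k5),(k3,k5),(k6,k5),(k7,k5)],[(k4,k4),(k5,k4),(k9,k4),(k0,k5)],[(k4,k4),(k5,k4),(k9,k4),
    (k0,k5)],[(k2,k4),(k3,k4),(k6,k4),(k7,k4)],[(k2,k4),(k3,k4),(k6,k4),(k7,k4)],[(k4,k4),(k5,k4),(k9,k4),(k0,k5)],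
    [(k4,k4),(k5,k4),(k9,k4),(k0,k5)],[(k2,k4),(k3,k4),(k6,k4),(k7,k4)],[(k11,k4)],[(k8,k4)],[(k10,k4),(k1,k5)]]
    [] k0
    []
    []]⟩

/-- classes `0 0 0 0 1 2`, types `C0 C2 C0 C2 S0 S0` -/
noncomputable def cT6_266 : CertT :=
  ⟨[k4,k6,k4,k6,k16,k32],[],[[[]]],
    [.lp [k2,k4,k0,k4,k2,k2] [k1,k1,k0,k0,k2,k2,k0,k0,k1,k1,k1,k1] k0 [] k8 k5
    [[(k1,k2),(k10,k2)],[(k2,k3),(k3,k3),(k6,k3),(k7,k3)],[(k4,k2),(k5,k2),(k0,k3),(k9,k3)],[(k4,k2),(k5,k2),(k0,k3),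
    (k9,k3)],[(k2,k2),(k3,k2),(k6,k2),(k7,k2)],[(k2,k2),(k3,k2),(k6,k2),(k7,k2)],[(k4,k2),(k5,k2),(k0,k3),(k9,k3)],
    [(k4,k2),(k5,k2),(k0,k3),(k9,k3)],[(k2,k3),(k3,k3),(k6,k3),(k7,k3)],[(k8,k2),(k11,k2)],[(k8,k2),(k11,k2)],[(k1,
    k2),(k10,k2)]]
    [] k0
    []
    []]⟩

/-- classes `0 0 0 0 1 2`, types `C0 C2 C2 C0 C0 C0` -/
noncomputable def cT6_267 : CertT :=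
  ⟨[k4,k6,k6,k4,k20,k36],[(false,k0,[k0,k1,k2,k3,k4,k5])],[[[([z1,z0,z0,z0,z1,z1],z2)],[]]],
    [.leafM k0 [k0,k1,k2,k3,k4,k5] [(z1,[y1,z1])] [],
    .lp [k6,k4,k4,k2,k4,k2] [k0,k0,k1,k1,k1,k1,k2,k2,k1,k1,k2,k2] k0 [] k12 k5
    [[(k10,k4)],[(k2,k5),(k3,k5),(k4,k5),(k9,k5)],[(k6,k3),(k7,k3),(k5,k4),(k0,k5)],[(k6,k3),(k7,k3),(k5,k4),(k0,k5)],
    [(k2,k4),(k3,k4),(k4,k4),(k9,k4)],[(k6,k3),(k7,k3),(k5,k4),(k0,k5)],[(k2,k3),(k3,k3),(k4,k3),(k9,k3)],[(k2,k3),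
    (k3,k3),(k4,k3),(k9,k3)],[(k6,k3),(k7,k3),(k5,k4),(k0,k5)],[(k11,k3)],[(k8,k3)],[(k1,k4)]]
    [] k0
    [[k0,k1,k1,k1,k0,k0]]
    [.ref k0 k0 [(z1,[y1,z1])]]]⟩

/-- classes `0 0 0 0 1 2`, types `C0 C2 C2 C0 C0 S0` -/
noncomputable def cT6_268 : CertT :=
  ⟨[k4,k6,k6,k4,k20,k32],[(false,k0,[k0,k1,k2,k3,k4,k5])],[[[([z1,z0,z0,z0,z1,z1],z2)],[]]],
    [.leafM k0 [k0,k1,k2,k3,k4,k5] [(z1,[y1,z1])] [],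
    .lp [k14,k20,k16,k12,k12,k12] [k3,k3,k0,k0,k2,k2,k4,k4,k4,k4,k4,k4] k0 [] k48 k5
    [[(k10,k13),(k1,k14)],[(k9,k13),(k4,k15),(k2,k17),(k3,k17)],[(k6,k16),(k7,k16),(k0,k17),(k5,k18)],[(k6,k16),(k7,
    k16),(k0,k17),(k5,k18)],[(k9,k14),(k4,k16),(k2,k18),(k3,k18)],[(k6,k14),(k7,k14),(k0,k15),(k5,k16)],[(k9,k12),(k4,
    k14),(k2,k16),(k3,k16)],[(k9,k12),(k4,k14),(k2,k16),(k3,k16)],[(k6,k12),(k7,k12),(k0,k13),(k5,k14)],[(k11,k12)],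
    [(k8,k12)],[(k10,k12),(k1,k13)]]
    [] k0
    [[k1,k0,k0,k0,k1,k1]]
    [.ref k0 k0 [(z1,[z1])]]]⟩

/-- classes `0 0 0 0 1 2`, types `C0 C2 C2 C0 S0 S0` -/
noncomputable def cT6_269 : CertT :=
  ⟨[k4,k6,k6,k4,k16,k32],[(false,k0,[k0,k1,k2,k3,k4,k5])],[[[([z1,z0,z0,z0,z1,z1],z2)],[]]],
    [.leafM k0 [k0,k1,k2,k3,k4,k5] [(z1,[y1,z1])] [],
    .lp [k10,k4,k8,k12,k6,k6] [k1,k1,k4,k4,k2,k2,k0,k0,k3,k3,k3,k3] k0 [] k24 k5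
    [[(k10,k8),(k1,k10)],[(k2,k7),(k3,k7),(k9,k8),(k4,k9)],[(k5,k6),(k0,k7),(k6,k8),(k7,k8)],[(k5,k6),(k0,k7),(k6,k8),
    (k7,k8)],[(k2,k6),(k3,k6),(k9,k7),(k4,k8)],[(k5,k8),(k0,k9),(k6,k10),(k7,k10)],[(k2,k8),(k3,k8),(k9,k9),(k4,k10)],
    [(k2,k8),(k3,k8),(k9,k9),(k4,k10)],[(k5,k7),(k0,k8),(k6,k9),(k7,k9)],[(k8,k6),(k11,k6)],[(k8,k6),(k11,k6)],[(k10,
    k6),(k1,k8)]]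
    [] k0
    [[k1,k0,k0,k0,k1,k1]]
    [.ref k0 k0 [(z1,[z1])]]]⟩

/-- classes `0 0 0 0 1 2`, types `N0 N0 N1 N1 C0 C0` -/
noncomputable def cT6_270 : CertT :=
  ⟨[k12,k12,k13,k13,k20,k36],[],[[[]]],
    [.lp [k12,k0,k8,k14,k12,k0] [k1,k1,k7,k7,k3,k3,k0,k0,k1,k1,k7,k7] k0 [[k0,k0,k0,k0,k2],[],[],[],[],[k0,k2]] k24 k5
    [[(k10,k6)],[(k7,k11),(k9,k12)],[(k4,k6),(k6,k7)],[(k9,k6),(k7,k7)],[(k4,k8),(k6,k11)],[(k3,k6),(k5,k8)],[(k2,k7),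
    (k0,k11)],[(k3,k7),(k5,k11)],[(k2,k6),(k0,k12)],[(k11,k6)],[(k8,k6)],[(k1,k6)]]
    [] k0
    []
    []]⟩

/-- classes `0 0 0 0 1 2`, types `N0 N0 N1 N1 C0 S0` -/
noncomputable def cT6_271 : CertT :=
  ⟨[k12,k12,k13,k13,k20,k32],[],[[[]]],
    [.lp [k12,k14,k8,k0,k2,k10] [k1,k1,k0,k0,k3,k3,k7,k7,k6,k6,k2,k2] k0 [[],[],[k0,k0,k0,k0,k0,k0,k2],[],[],[],[],[k0,k0,
    k0,k2]] k24 k5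
    [[(k10,k11),(k1,k12)],[(k7,k6),(k9,k7)],[(k6,k7),(k4,k11)],[(k9,k6),(k7,k7)],[(k6,k6),(k4,k8)],[(k5,k8),(k3,k11)],
    [(k0,k6),(k2,k7)],[(k5,k6),(k3,k7)],[(k2,k6),(k0,k7)],[(k11,k6)],[(k8,k6)],[(k10,k10),(k1,k11)]]
    [] k0
    []
    []]⟩

/-- classes `0 0 0 0 1 2`, types `N0 N0 N1 N1 S0 S0` -/
noncomputable def cT6_272 : CertT :=
  ⟨[k12,k12,k13,k13,k16,k32],[],[[[]]],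
    [.lp [k12,k14,k8,k0,k6,k6] [k1,k1,k0,k0,k3,k3,k7,k7,k4,k4,k4,k4] k0 [[],[],[k0,k0,k0,k0,k0,k0,k2],[],[],[],[],[k0,k0,
    k0,k2]] k24 k5
    [[(k10,k9),(k1,k12)],[(k7,k6),(k9,k9)],[(k6,k7),(k4,k11)],[(k7,k7),(k9,k8)],[(k6,k6),(k4,k8)],[(k5,k8),(k3,k11)],
    [(k0,k6),(k2,k7)],[(k5,k6),(k3,k7)],[(k2,k8),(k0,k9)],[(k8,k6),(k11,k6)],[(k8,k6),(k11,k6)],[(k10,k6),(k1,k9)]]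
    [] k0
    []
    []]⟩

/-- classes `0 0 0 0 1 2`, types `N0 N0 N1 N2 C0 C0` -/
noncomputable def cT6_273 : CertT :=
  ⟨[k12,k12,k13,k14,k20,k36],[],[[[]]],
    [.lp [k6,k6,k8,k6,k6,k6] [k1,k1,k1,k1,k0,k0,k1,k1,k1,k1,k1,k1] k0 [] k24 k5
    [[(k10,k6)],[(k6,k6),(k7,k6)],[(k9,k6),(k4,k7)],[(k6,k6),(k7,k6)],[(k9,k7),(k4,k8)],[(k3,k7),(k5,k8)],[(k0,k6),
    (k2,k6)],[(k0,k6),(k2,k6)],[(k3,k6),(k5,k7)],[(k11,k6)],[(k8,k6)],[(k1,k6)]]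
    [] k0
    []
    []]⟩

/-- classes `0 0 0 0 1 2`, types `N0 N0 N1 N2 C0 S0` -/
noncomputable def cT6_274 : CertT :=
  ⟨[k12,k12,k13,k14,k20,k32],[],[[[]]],
    [.lp [k18,k12,k16,k12,k12,k12] [k0,k0,k3,k3,k1,k1,k3,k3,k3,k3,k3,k3] k0 [] k48 k5
    [[(k10,k15),(k1,k18)],[(k6,k15),(k7,k15)],[(k9,k12),(k4,k14)],[(k6,k12),(k7,k12)],[(k9,k14),(k4,k16)],[(k3,k14),
    (k5,k16)],[(k2,k12),(k0,k15)],[(k2,k12),(k0,k15)],[(k3,k12),(k5,k14)],[(k11,k12)],[(k8,k12)],[(k10,k12),(k1,k15)]]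
    [] k0
    []
    []]⟩

/-- classes `0 0 0 0 1 2`, types `N0 N0 N1 N2 S0 C0` -/
noncomputable def cT6_275 : CertT :=
  ⟨[k12,k12,k13,k14,k16,k36],[],[[[]]],
    [.lp [k6,k6,k8,k6,k6,k6] [k1,k1,k1,k1,k0,k0,k1,k1,k1,k1,k1,k1] k0 [] k24 k5
    [[(k10,k6)],[(k6,k6),(k7,k6)],[(k9,k6),(k4,k7)],[(k6,k6),(k7,k6)],[(k9,k7),(k4,k8)],[(k3,k7),(k5,k8)],[(k0,k6),
    (k2,k6)],[(k0,k6),(k2,k6)],[(k3,k6),(k5,k7)],[(k8,k6),(k11,k6)],[(k8,k6),(k11,k6)],[(k1,k6)]]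
    [] k0
    []
    []]⟩

/-- classes `0 0 0 0 1 2`, types `N0 N0 N1 N2 S0 S0` -/
noncomputable def cT6_276 : CertT :=
  ⟨[k12,k12,k13,k14,k16,k32],[],[[[]]],
    [.lp [k18,k12,k16,k12,k12,k12] [k0,k0,k3,k3,k1,k1,k3,k3,k3,k3,k3,k3] k0 [] k48 k5
    [[(k10,k15),(k1,k18)],[(k6,k15),(k7,k15)],[(k9,k12),(k4,k14)],[(k6,k12),(k7,k12)],[(k9,k14),(k4,k16)],[(k3,k14),
    (k5,k16)],[(k2,k12),(k0,k15)],[(k2,k12),(k0,k15)],[(k3,k12),(k5,k14)],[(k8,k12),(k11,k12)],[(k8,k12),(k11,k12)],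
    [(k10,k12),(k1,k15)]]
    [] k0
    []
    []]⟩

/-- classes `0 0 0 0 1 2`, types `N0 N0 N2 N1 C0 C0` -/
noncomputable def cT6_277 : CertT :=
  ⟨[k12,k12,k14,k13,k20,k36],[(false,k0,[k0,k1,k2,k3,k4,k5])],[[[([z1,z0,z0,z0,z1,z1],z2)],[]]],
    [.leafM k4 [k1,k2,k3,k4,k5,k0] [(z1,[z1])] [],
    .lp [k2,k2,k2,k4,k2,k2] [k1,k1,k1,k1,k1,k1,k0,k0,k1,k1,k1,k1] k0 [] k8 k5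
    [[(k10,k2)],[(k4,k2),(k9,k2)],[(k6,k3),(k7,k3)],[(k4,k2),(k9,k2)],[(k6,k3),(k7,k3)],[(k0,k2),(k2,k2)],[(k3,k3),
    (k5,k3)],[(k3,k3),(k5,k3)],[(k0,k2),(k2,k2)],[(k11,k2)],[(k8,k2)],[(k1,k2)]]
    [] k0
    [[k1,k0,k0,k0,k1,k1]]
    [.ref k0 k0 [(z1,[z1])]]]⟩

/-- classes `0 0 0 0 1 2`, types `N0 N0 N2 N1 C0 S0` -/
noncomputable def cT6_278 : CertT :=
  ⟨[k12,k12,k14,k13,k20,k32],[(false,k0,[k0,k1,k2,k3,k4,k5])],[[[([z1,z0,z0,z0,z1,z1],z2)],[]]],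
    [.leafM k4 [k1,k2,k3,k4,k5,k0] [(z1,[z1])] [],
    .lp [k2,k4,k4,k0,k2,k2] [k1,k1,k0,k0,k0,k0,k2,k2,k1,k1,k1,k1] k0 [] k8 k5
    [[(k1,k2),(k10,k2)],[(k9,k2),(k4,k3)],[(k6,k2),(k7,k2)],[(k9,k3),(k4,k4)],[(k6,k2),(k7,k2)],[(k0,k3),(k2,k4)],
    [(k3,k2),(k5,k2)],[(k3,k2),(k5,k2)],[(k0,k2),(k2,k3)],[(k11,k2)],[(k8,k2)],[(k1,k2),(k10,k2)]]
    [] k0
    [[k1,k0,k0,k0,k1,k1]]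
    [.ref k0 k0 [(z1,[z1])]]]⟩

/-- classes `0 0 0 0 1 2`, types `N0 N0 N2 N1 S0 C0` -/
noncomputable def cT6_279 : CertT :=
  ⟨[k12,k12,k14,k13,k16,k36],[(false,k0,[k0,k1,k2,k3,k4,k5])],[[[([z1,z0,z0,z0,z1,z1],z2)],[]]],
    [.leafM k4 [k1,k2,k3,k4,k5,k0] [(z1,[z1])] [],
    .lp [k2,k4,k4,k0,k2,k2] [k1,k1,k0,k0,k0,k0,k2,k2,k1,k1,k1,k1] k0 [] k8 k5
    [[(k10,k2)],[(k9,k2),(k4,k3)],[(k6,k2),(k7,k2)],[(k9,k3),(k4,k4)],[(k6,k2),(k7,k2)],[(k0,k3),(k2,k4)],[(k3,k2),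
    (k5,k2)],[(k3,k2),(k5,k2)],[(k0,k2),(k2,k3)],[(k8,k2),(k11,k2)],[(k8,k2),(k11,k2)],[(k1,k2)]]
    [] k0
    [[k1,k0,k0,k0,k1,k1]]
    [.ref k0 k0 [(z1,[z1])]]]⟩

/-- classes `0 0 0 0 1 2`, types `N0 N0 N2 N1 S0 S0` -/
noncomputable def cT6_280 : CertT :=
  ⟨[k12,k12,k14,k13,k16,k32],[(false,k0,[k0,k1,k2,k3,k4,k5])],[[[([z1,z0,z0,z0,z1,z1],z2)],[]]],
    [.leafM k4 [k1,k2,k3,k4,k5,k0] [(z1,[z1])] [],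
    .lp [k4,k2,k2,k2,k2,k2] [k0,k0,k1,k1,k1,k1,k1,k1,k1,k1,k1,k1] k0 [] k8 k5
    [[(k10,k3),(k1,k4)],[(k4,k3),(k9,k3)],[(k6,k2),(k7,k2)],[(k4,k2),(k9,k2)],[(k6,k2),(k7,k2)],[(k2,k2),(k0,k3)],
    [(k3,k2),(k5,k2)],[(k3,k2),(k5,k2)],[(k2,k2),(k0,k3)],[(k8,k2),(k11,k2)],[(k8,k2),(k11,k2)],[(k10,k2),(k1,k3)]]
    [] k0
    [[k0,k1,k1,k1,k0,k0]]
    [.ref k0 k0 [(z1,[y1,z1])]]]⟩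

/-- classes `0 0 0 0 1 2`, types `N0 N0 N2 N2 C0 C0` -/
noncomputable def cT6_281 : CertT :=
  ⟨[k12,k12,k14,k14,k20,k36],[],[[[]]],
    [.lp [k2,k2,k2,k2,k2,k2] [k0,k0,k0,k0,k0,k0,k0,k0,k0,k0,k0,k0] k0 [] k8 k5
    [[(k10,k2)],[(k4,k2),(k6,k2)],[(k7,k2),(k9,k2)],[(k4,k2),(k6,k2)],[(k7,k2),(k9,k2)],[(k0,k2),(k2,k2)],[(k3,k2),
    (k5,k2)],[(k0,k2),(k2,k2)],[(k3,k2),(k5,k2)],[(k11,k2)],[(k8,k2)],[(k1,k2)]]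
    [] k0
    []
    []]⟩

/-- the certificates of this file -/
noncomputable def lT6_5 : List CertT :=
  [cT6_153, cT6_154, cT6_155, cT6_156, cT6_157, cT6_158, cT6_159, cT6_160, cT6_161, cT6_162, cT6_163, cT6_164,
      cT6_165, cT6_166, cT6_167, cT6_168, cT6_169, cT6_170, cT6_171, cT6_172, cT6_173, cT6_174, cT6_175,
      cT6_176, cT6_177, cT6_178, cT6_179, cT6_180, cT6_181, cT6_182, cT6_183, cT6_184, cT6_185, cT6_186,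
      cT6_187, cT6_188, cT6_189, cT6_190, cT6_191, cT6_192, cT6_193, cT6_194, cT6_195, cT6_196, cT6_197,
      cT6_198, cT6_199, cT6_200, cT6_201, cT6_202, cT6_203, cT6_204, cT6_205, cT6_206, cT6_207, cT6_208,
      cT6_209, cT6_210, cT6_211, cT6_212, cT6_213, cT6_214, cT6_215, cT6_216, cT6_217, cT6_218, cT6_219,
      cT6_220, cT6_221, cT6_222, cT6_223, cT6_224, cT6_225, cT6_226, cT6_227, cT6_228, cT6_229, cT6_230,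
      cT6_231, cT6_232, cT6_233, cT6_234, cT6_235, cT6_236, cT6_237, cT6_238, cT6_239, cT6_240, cT6_241,
      cT6_242, cT6_243, cT6_244, cT6_245, cT6_246, cT6_247, cT6_248, cT6_249, cT6_250, cT6_251, cT6_252,
      cT6_253, cT6_254, cT6_255, cT6_256, cT6_257, cT6_258, cT6_259, cT6_260, cT6_261, cT6_262, cT6_263,
      cT6_264, cT6_265, cT6_266, cT6_267, cT6_268, cT6_269, cT6_270, cT6_271, cT6_272, cT6_273, cT6_274,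
      cT6_275, cT6_276, cT6_277, cT6_278, cT6_279, cT6_280, cT6_281]

theorem gT6_5 : allF (chkC 6 tt6) lT6_5 = true := by
  decide +kernel

end Pool.Agent.Lib_MP_fa6e45
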