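import Pool.Agent.Lib_MP_fa6e45.CSTT
import Pool.Agent.Lib_MP_fa6e45.HK

/-!
MP_fa6e45_co, stage 5: certificates (captain, generated by a program).
-/

namespace Pool.Agent.Lib_MP_fa6e45

/-- classes `0 0 0 0 1 2`, types `N0 N0 N2 N2 C0 S0` -/
noncomputable def cT6_282 : CertT :=
  ⟨[k12,k12,k14,k14,k20,k32],[],[[[]]],
    [.lp [k2,k2,k2,k2,k2,k2] [k0,k0,k0,k0,k0,k0,k0,k0,k0,k0,k0,k0] k0 [] k8 k5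
    [[(k1,k2),(k10,k2)],[(k4,k2),(k6,k2)],[(k7,k2),(k9,k2)],[(k4,k2),(k6,k2)],[(k7,k2),(k9,k2)],[(k0,k2),(k2,k2)],
    [(k3,k2),(k5,k2)],[(k0,k2),(k2,k2)],[(k3,k2),(k5,k2)],[(k11,k2)],[(k8,k2)],[(k1,k2),(k10,k2)]]
    [] k0
    []
    []]⟩

/-- classes `0 0 0 0 1 2`, types `N0 N0 N2 N2 S0 S0` -/
noncomputable def cT6_283 : CertT :=
  ⟨[k12,k12,k14,k14,k16,k32],[],[[[]]],
    [.lp [k2,k2,k2,k2,k2,k2] [k0,k0,k0,k0,k0,k0,k0,k0,k0,k0,k0,k0] k0 [] k8 k5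
    [[(k1,k2),(k10,k2)],[(k4,k2),(k6,k2)],[(k7,k2),(k9,k2)],[(k4,k2),(k6,k2)],[(k7,k2),(k9,k2)],[(k0,k2),(k2,k2)],
    [(k3,k2),(k5,k2)],[(k0,k2),(k2,k2)],[(k3,k2),(k5,k2)],[(k8,k2),(k11,k2)],[(k8,k2),(k11,k2)],[(k1,k2),(k10,k2)]]
    [] k0
    []
    []]⟩

/-- classes `0 0 0 0 1 2`, types `N0 N1 N0 N1 C0 C0` -/
noncomputable def cT6_284 : CertT :=
  ⟨[k12,k13,k12,k13,k20,k36],[],[[[]]],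
    [.lp [k12,k6,k8,k8,k12,k0] [k0,k0,k3,k3,k2,k2,k2,k2,k0,k0,k6,k6] k0 [[k0,k0,k4],[],[],[k0,k4],[k0,k0,k0,k0,k0,k0,k2],
    [],[],[k0,k0,k0,k0,k0,k2]] k24 k5
    [[(k10,k6)],[(k5,k6),(k9,k12)],[(k6,k7),(k2,k10)],[(k7,k7),(k3,k10)],[(k0,k6),(k4,k8)],[(k5,k8),(k9,k8)],[(k2,k7),
    (k6,k10)],[(k3,k7),(k7,k10)],[(k4,k8),(k0,k12)],[(k11,k6)],[(k8,k6)],[(k1,k6)]]
    [] k0
    []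
    []]⟩

/-- classes `0 0 0 0 1 2`, types `N0 N1 N0 N1 C0 S0` -/
noncomputable def cT6_285 : CertT :=
  ⟨[k12,k13,k12,k13,k20,k32],[],[[[]]],
    [.lp [k20,k14,k16,k18,k12,k12] [k0,k0,k3,k3,k2,k2,k1,k1,k4,k4,k4,k4] k0 [[k0,k0,k6],[k0,k0,k0,k0,k0,k0,k0,k4],[],[k0,
    k6],[k0,k0,k0,k0,k0,k0,k2],[],[k4],[k0,k0,k0,k0,k0,k2]] k48 k5
    [[(k10,k16),(k1,k20)],[(k5,k12),(k9,k20)],[(k6,k12),(k2,k20)],[(k7,k16),(k3,k20)],[(k0,k12),(k4,k16)],[(k9,k12),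
    (k5,k16)],[(k2,k16),(k6,k20)],[(k3,k12),(k7,k20)],[(k4,k12),(k0,k20)],[(k11,k12)],[(k8,k12)],[(k10,k12),(k1,k16)]]
    [] k0
    []
    []]⟩

/-- classes `0 0 0 0 1 2`, types `N0 N1 N0 N1 S0 S0` -/
noncomputable def cT6_286 : CertT :=
  ⟨[k12,k13,k12,k13,k16,k32],[],[[[]]],
    [.lp [k20,k14,k16,k18,k12,k12] [k0,k0,k3,k3,k2,k2,k1,k1,k4,k4,k4,k4] k0 [[k0,k0,k6],[k0,k0,k0,k0,k0,k0,k0,k4],[],[k0,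
    k6],[k0,k0,k0,k0,k0,k0,k2],[],[k4],[k0,k0,k0,k0,k0,k2]] k48 k5
    [[(k10,k16),(k1,k20)],[(k5,k12),(k9,k20)],[(k6,k12),(k2,k20)],[(k7,k16),(k3,k20)],[(k0,k12),(k4,k16)],[(k9,k12),
    (k5,k16)],[(k2,k16),(k6,k20)],[(k3,k12),(k7,k20)],[(k4,k12),(k0,k20)],[(k8,k12),(k11,k12)],[(k8,k12),(k11,k12)],
    [(k10,k12),(k1,k16)]]
    [] k0
    []
    []]⟩

/-- classes `0 0 0 0 1 2`, types `N0 N1 N0 N2 C0 C0` -/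
noncomputable def cT6_287 : CertT :=
  ⟨[k12,k13,k12,k14,k20,k36],[],[[[]]],
    [.lp [k2,k4,k4,k4,k2,k4] [k1,k1,k0,k0,k0,k0,k0,k0,k1,k1,k0,k0] k0 [] k12 k5
    [[(k10,k3)],[(k5,k3),(k6,k3)],[(k9,k3),(k2,k4)],[(k3,k4),(k7,k4)],[(k0,k3),(k4,k4)],[(k5,k4),(k6,k4)],[(k9,k3),
    (k2,k4)],[(k0,k3),(k4,k4)],[(k3,k3),(k7,k3)],[(k11,k3)],[(k8,k3)],[(k1,k3)]]
    [] k0
    []
    []]⟩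

/-- classes `0 0 0 0 1 2`, types `N0 N1 N0 N2 C0 S0` -/
noncomputable def cT6_288 : CertT :=
  ⟨[k12,k13,k12,k14,k20,k32],[],[[[]]],
    [.lp [k6,k8,k8,k6,k6,k6] [k1,k1,k0,k0,k0,k0,k1,k1,k1,k1,k1,k1] k0 [] k24 k5
    [[(k1,k6),(k10,k6)],[(k6,k6),(k5,k7)],[(k9,k7),(k2,k8)],[(k7,k7),(k3,k8)],[(k0,k7),(k4,k8)],[(k6,k7),(k5,k8)],
    [(k9,k6),(k2,k7)],[(k0,k6),(k4,k7)],[(k7,k6),(k3,k7)],[(k11,k6)],[(k8,k6)],[(k1,k6),(k10,k6)]]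
    [] k0
    []
    []]⟩

/-- classes `0 0 0 0 1 2`, types `N0 N1 N0 N2 S0 C0` -/
noncomputable def cT6_289 : CertT :=
  ⟨[k12,k13,k12,k14,k16,k36],[],[[[]]],
    [.lp [k6,k8,k8,k6,k6,k6] [k1,k1,k0,k0,k0,k0,k1,k1,k1,k1,k1,k1] k0 [] k24 k5
    [[(k10,k6)],[(k6,k6),(k5,k7)],[(k9,k7),(k2,k8)],[(k7,k7),(k3,k8)],[(k0,k7),(k4,k8)],[(k6,k7),(k5,k8)],[(k9,k6),
    (k2,k7)],[(k0,k6),(k4,k7)],[(k7,k6),(k3,k7)],[(k8,k6),(k11,k6)],[(k8,k6),(k11,k6)],[(k1,k6)]]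
    [] k0
    []
    []]⟩

/-- classes `0 0 0 0 1 2`, types `N0 N1 N0 N2 S0 S0` -/
noncomputable def cT6_290 : CertT :=
  ⟨[k12,k13,k12,k14,k16,k32],[],[[[]]],
    [.lp [k6,k8,k8,k6,k6,k6] [k1,k1,k0,k0,k0,k0,k1,k1,k1,k1,k1,k1] k0 [] k24 k5
    [[(k1,k6),(k10,k6)],[(k6,k6),(k5,k7)],[(k9,k7),(k2,k8)],[(k7,k7),(k3,k8)],[(k0,k7),(k4,k8)],[(k6,k7),(k5,k8)],
    [(k9,k6),(k2,k7)],[(k0,k6),(k4,k7)],[(k7,k6),(k3,k7)],[(k8,k6),(k11,k6)],[(k8,k6),(k11,k6)],[(k1,k6),(k10,k6)]]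
    [] k0
    []
    []]⟩

/-- classes `0 0 0 0 1 2`, types `N0 N1 N1 N0 C0 C0` -/
noncomputable def cT6_291 : CertT :=
  ⟨[k12,k13,k13,k12,k20,k36],[],[[[]]],
    [.lp [k2,k4,k4,k4,k2,k4] [k1,k1,k0,k0,k0,k0,k0,k0,k1,k1,k0,k0] k0 [] k12 k5
    [[(k10,k3)],[(k5,k3),(k7,k3)],[(k2,k4),(k4,k4)],[(k9,k3),(k3,k4)],[(k0,k3),(k6,k4)],[(k9,k3),(k3,k4)],[(k0,k3),
    (k6,k4)],[(k5,k4),(k7,k4)],[(k2,k3),(k4,k3)],[(k11,k3)],[(k8,k3)],[(k1,k3)]]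
    [] k0
    []
    []]⟩

/-- classes `0 0 0 0 1 2`, types `N0 N1 N1 N0 C0 S0` -/
noncomputable def cT6_292 : CertT :=
  ⟨[k12,k13,k13,k12,k20,k32],[],[[[]]],
    [.lp [k6,k8,k6,k8,k6,k6] [k1,k1,k0,k0,k1,k1,k0,k0,k1,k1,k1,k1] k0 [] k24 k5
    [[(k1,k6),(k10,k6)],[(k5,k6),(k7,k7)],[(k4,k7),(k2,k8)],[(k9,k7),(k3,k8)],[(k0,k6),(k6,k7)],[(k9,k6),(k3,k7)],
    [(k0,k7),(k6,k8)],[(k5,k7),(k7,k8)],[(k4,k6),(k2,k7)],[(k11,k6)],[(k8,k6)],[(k1,k6),(k10,k6)]]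
    [] k0
    []
    []]⟩

/-- classes `0 0 0 0 1 2`, types `N0 N1 N1 N0 S0 S0` -/
noncomputable def cT6_293 : CertT :=
  ⟨[k12,k13,k13,k12,k16,k32],[],[[[]]],
    [.lp [k6,k8,k6,k8,k6,k6] [k1,k1,k0,k0,k1,k1,k0,k0,k1,k1,k1,k1] k0 [] k24 k5
    [[(k1,k6),(k10,k6)],[(k5,k6),(k7,k7)],[(k4,k7),(k2,k8)],[(k9,k7),(k3,k8)],[(k0,k6),(k6,k7)],[(k9,k6),(k3,k7)],
    [(k0,k7),(k6,k8)],[(k5,k7),(k7,k8)],[(k4,k6),(k2,k7)],[(k8,k6),(k11,k6)],[(k8,k6),(k11,k6)],[(k1,k6),(k10,k6)]]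
    [] k0
    []
    []]⟩

/-- classes `0 0 0 0 1 2`, types `N0 N1 N1 N3 C0 C0` -/
noncomputable def cT6_294 : CertT :=
  ⟨[k12,k13,k13,k15,k20,k36],[],[[[]]],
    [.lp [k6,k8,k6,k6,k6,k6] [k1,k1,k0,k0,k1,k1,k1,k1,k1,k1,k1,k1] k0 [] k24 k5
    [[(k10,k6)],[(k5,k6),(k7,k6)],[(k4,k7),(k2,k8)],[(k6,k7),(k3,k8)],[(k0,k6),(k9,k6)],[(k6,k6),(k3,k7)],[(k0,k6),
    (k9,k6)],[(k4,k6),(k2,k7)],[(k5,k6),(k7,k6)],[(k11,k6)],[(k8,k6)],[(k1,k6)]]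
    [] k0
    []
    []]⟩

/-- classes `0 0 0 0 1 2`, types `N0 N1 N1 N3 C0 S0` -/
noncomputable def cT6_295 : CertT :=
  ⟨[k12,k13,k13,k15,k20,k32],[],[[[]]],
    [.lp [k6,k8,k6,k6,k6,k6] [k1,k1,k0,k0,k1,k1,k1,k1,k1,k1,k1,k1] k0 [] k24 k5
    [[(k1,k6),(k10,k6)],[(k5,k6),(k7,k6)],[(k4,k7),(k2,k8)],[(k6,k7),(k3,k8)],[(k0,k6),(k9,k6)],[(k6,k6),(k3,k7)],
    [(k0,k6),(k9,k6)],[(k4,k6),(k2,k7)],[(k5,k6),(k7,k6)],[(k11,k6)],[(k8,k6)],[(k1,k6),(k10,k6)]]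
    [] k0
    []
    []]⟩

/-- classes `0 0 0 0 1 2`, types `N0 N1 N1 N3 S0 C0` -/
noncomputable def cT6_296 : CertT :=
  ⟨[k12,k13,k13,k15,k16,k36],[],[[[]]],
    [.lp [k6,k8,k6,k6,k6,k6] [k1,k1,k0,k0,k1,k1,k1,k1,k1,k1,k1,k1] k0 [] k24 k5
    [[(k10,k6)],[(k5,k6),(k7,k6)],[(k4,k7),(k2,k8)],[(k6,k7),(k3,k8)],[(k0,k6),(k9,k6)],[(k6,k6),(k3,k7)],[(k0,k6),
    (k9,k6)],[(k4,k6),(k2,k7)],[(k5,k6),(k7,k6)],[(k8,k6),(k11,k6)],[(k8,k6),(k11,k6)],[(k1,k6)]]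
    [] k0
    []
    []]⟩

/-- classes `0 0 0 0 1 2`, types `N0 N1 N1 N3 S0 S0` -/
noncomputable def cT6_297 : CertT :=
  ⟨[k12,k13,k13,k15,k16,k32],[],[[[]]],
    [.lp [k6,k8,k6,k6,k6,k6] [k1,k1,k0,k0,k1,k1,k1,k1,k1,k1,k1,k1] k0 [] k24 k5
    [[(k1,k6),(k10,k6)],[(k5,k6),(k7,k6)],[(k4,k7),(k2,k8)],[(k6,k7),(k3,k8)],[(k0,k6),(k9,k6)],[(k6,k6),(k3,k7)],
    [(k0,k6),(k9,k6)],[(k4,k6),(k2,k7)],[(k5,k6),(k7,k6)],[(k8,k6),(k11,k6)],[(k8,k6),(k11,k6)],[(k1,k6),(k10,k6)]]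
    [] k0
    []
    []]⟩

/-- classes `0 0 0 0 1 2`, types `N0 N1 N2 N0 C0 C0` -/
noncomputable def cT6_298 : CertT :=
  ⟨[k12,k13,k14,k12,k20,k36],[],[[[]]],
    [.lp [k6,k8,k6,k6,k6,k6] [k1,k1,k0,k0,k1,k1,k1,k1,k1,k1,k1,k1] k0 [] k24 k5
    [[(k10,k6)],[(k4,k6),(k5,k6)],[(k7,k7),(k2,k8)],[(k9,k7),(k3,k8)],[(k0,k6),(k6,k6)],[(k0,k6),(k6,k6)],[(k9,k6),
    (k3,k7)],[(k4,k6),(k5,k6)],[(k7,k6),(k2,k7)],[(k11,k6)],[(k8,k6)],[(k1,k6)]]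
    [] k0
    []
    []]⟩

/-- classes `0 0 0 0 1 2`, types `N0 N1 N2 N0 C0 S0` -/
noncomputable def cT6_299 : CertT :=
  ⟨[k12,k13,k14,k12,k20,k32],[],[[[]]],
    [.lp [k18,k16,k12,k12,k12,k12] [k0,k0,k1,k1,k3,k3,k3,k3,k3,k3,k3,k3] k0 [] k48 k5
    [[(k10,k15),(k1,k18)],[(k4,k15),(k5,k15)],[(k7,k14),(k2,k16)],[(k9,k14),(k3,k16)],[(k6,k12),(k0,k15)],[(k6,k12),
    (k0,k15)],[(k9,k12),(k3,k14)],[(k4,k12),(k5,k12)],[(k7,k12),(k2,k14)],[(k11,k12)],[(k8,k12)],[(k10,k12),(k1,k15)]]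
    [] k0
    []
    []]⟩

/-- classes `0 0 0 0 1 2`, types `N0 N1 N2 N0 S0 C0` -/
noncomputable def cT6_300 : CertT :=
  ⟨[k12,k13,k14,k12,k16,k36],[],[[[]]],
    [.lp [k6,k8,k6,k6,k6,k6] [k1,k1,k0,k0,k1,k1,k1,k1,k1,k1,k1,k1] k0 [] k24 k5
    [[(k10,k6)],[(k4,k6),(k5,k6)],[(k7,k7),(k2,k8)],[(k9,k7),(k3,k8)],[(k0,k6),(k6,k6)],[(k0,k6),(k6,k6)],[(k9,k6),
    (k3,k7)],[(k4,k6),(k5,k6)],[(k7,k6),(k2,k7)],[(k8,k6),(k11,k6)],[(k8,k6),(k11,k6)],[(k1,k6)]]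
    [] k0
    []
    []]⟩

/-- classes `0 0 0 0 1 2`, types `N0 N1 N2 N0 S0 S0` -/
noncomputable def cT6_301 : CertT :=
  ⟨[k12,k13,k14,k12,k16,k32],[],[[[]]],
    [.lp [k18,k16,k12,k12,k12,k12] [k0,k0,k1,k1,k3,k3,k3,k3,k3,k3,k3,k3] k0 [] k48 k5
    [[(k10,k15),(k1,k18)],[(k4,k15),(k5,k15)],[(k7,k14),(k2,k16)],[(k9,k14),(k3,k16)],[(k6,k12),(k0,k15)],[(k6,k12),
    (k0,k15)],[(k9,k12),(k3,k14)],[(k4,k12),(k5,k12)],[(k7,k12),(k2,k14)],[(k8,k12),(k11,k12)],[(k8,k12),(k11,k12)],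
    [(k10,k12),(k1,k15)]]
    [] k0
    []
    []]⟩

/-- classes `0 0 0 0 1 2`, types `N0 N1 N2 N3 C0 C0` -/
noncomputable def cT6_302 : CertT :=
  ⟨[k12,k13,k14,k15,k20,k36],[],[[[]]],
    [.lp [k0,k4,k6,k4,k0,k6] [k3,k3,k1,k1,k0,k0,k1,k1,k3,k3,k0,k0] k0 [] k12 k5
    [[(k10,k3)],[(k4,k3),(k5,k3)],[(k2,k4),(k7,k4)],[(k3,k4),(k6,k4)],[(k0,k3),(k9,k3)],[(k0,k3),(k9,k3)],[(k3,k4),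
    (k6,k4)],[(k2,k4),(k7,k4)],[(k4,k3),(k5,k3)],[(k11,k3)],[(k8,k3)],[(k1,k3)]]
    [] k0
    []
    []]⟩

/-- classes `0 0 0 0 1 2`, types `N0 N1 N2 N3 C0 S0` -/
noncomputable def cT6_303 : CertT :=
  ⟨[k12,k13,k14,k15,k20,k32],[],[[[]]],
    [.lp [k18,k16,k12,k16,k12,k12] [k0,k0,k1,k1,k3,k3,k1,k1,k3,k3,k3,k3] k0 [] k48 k5
    [[(k10,k15),(k1,k18)],[(k4,k15),(k5,k15)],[(k2,k16),(k7,k16)],[(k3,k16),(k6,k16)],[(k9,k12),(k0,k15)],[(k9,k12),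
    (k0,k15)],[(k3,k16),(k6,k16)],[(k2,k16),(k7,k16)],[(k4,k12),(k5,k12)],[(k11,k12)],[(k8,k12)],[(k10,k12),(k1,k15)]]
    [] k0
    []
    []]⟩

/-- classes `0 0 0 0 1 2`, types `N0 N1 N2 N3 S0 S0` -/
noncomputable def cT6_304 : CertT :=
  ⟨[k12,k13,k14,k15,k16,k32],[],[[[]]],
    [.lp [k12,k8,k0,k8,k12,k6] [k0,k0,k2,k2,k6,k6,k2,k2,k0,k0,k3,k3] k0 [] k24 k5
    [[(k10,k9),(k1,k12)],[(k4,k6),(k5,k6)],[(k2,k8),(k7,k8)],[(k3,k8),(k6,k8)],[(k0,k6),(k9,k6)],[(k0,k6),(k9,k6)],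
    [(k3,k8),(k6,k8)],[(k2,k8),(k7,k8)],[(k4,k6),(k5,k6)],[(k11,k9),(k8,k12)],[(k11,k6),(k8,k9)],[(k10,k6),(k1,k9)]]
    [] k0
    []
    []]⟩

/-- classes `0 0 0 0 1 2`, types `N0 N1 N3 N1 C0 C0` -/
noncomputable def cT6_305 : CertT :=
  ⟨[k12,k13,k15,k13,k20,k36],[(false,k0,[k0,k1,k2,k3,k4,k5])],[[[([z1,z0,z0,z0,z1,z1],z2)],[]]],
    [.leafM k4 [k1,k2,k3,k4,k5,k0] [(z1,[z1])] [],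
    .lp [k6,k8,k6,k10,k6,k6] [k2,k2,k1,k1,k2,k2,k0,k0,k2,k2,k2,k2] k0 [] k24 k5
    [[(k10,k6)],[(k5,k6),(k9,k6)],[(k2,k8),(k6,k9)],[(k4,k7),(k3,k8)],[(k0,k6),(k7,k8)],[(k2,k7),(k6,k8)],[(k5,k8),
    (k9,k8)],[(k4,k8),(k3,k9)],[(k0,k6),(k7,k8)],[(k11,k6)],[(k8,k6)],[(k1,k6)]]
    [] k0
    [[k1,k0,k0,k0,k1,k1]]
    [.ref k0 k0 [(z1,[z1])]]]⟩

/-- classes `0 0 0 0 1 2`, types `N0 N1 N3 N1 C0 S0` -/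
noncomputable def cT6_306 : CertT :=
  ⟨[k12,k13,k15,k13,k20,k32],[(false,k0,[k0,k1,k2,k3,k4,k5])],[[[([z1,z0,z0,z0,z1,z1],z2)],[]]],
    [.leafM k4 [k1,k2,k3,k4,k5,k0] [(z1,[z1])] [],
    .lp [k2,k4,k2,k2,k2,k2] [k1,k1,k0,k0,k1,k1,k1,k1,k1,k1,k1,k1] k0 [] k8 k5
    [[(k1,k2),(k10,k2)],[(k5,k2),(k9,k2)],[(k6,k3),(k2,k4)],[(k4,k3),(k3,k4)],[(k0,k2),(k7,k2)],[(k6,k2),(k2,k3)],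
    [(k5,k2),(k9,k2)],[(k4,k2),(k3,k3)],[(k0,k2),(k7,k2)],[(k11,k2)],[(k8,k2)],[(k1,k2),(k10,k2)]]
    [] k0
    [[k1,k0,k0,k0,k1,k1]]
    [.ref k0 k0 [(z1,[z1])]]]⟩

/-- classes `0 0 0 0 1 2`, types `N0 N1 N3 N1 S0 C0` -/
noncomputable def cT6_307 : CertT :=
  ⟨[k12,k13,k15,k13,k16,k36],[(false,k0,[k0,k1,k2,k3,k4,k5])],[[[([z1,z0,z0,z0,z1,z1],z2)],[]]],
    [.leafM k4 [k1,k2,k3,k4,k5,k0] [(z1,[z1])] [],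
    .lp [k2,k4,k2,k2,k2,k2] [k1,k1,k0,k0,k1,k1,k1,k1,k1,k1,k1,k1] k0 [] k8 k5
    [[(k10,k2)],[(k5,k2),(k9,k2)],[(k6,k3),(k2,k4)],[(k4,k3),(k3,k4)],[(k0,k2),(k7,k2)],[(k6,k2),(k2,k3)],[(k5,k2),
    (k9,k2)],[(k4,k2),(k3,k3)],[(k0,k2),(k7,k2)],[(k8,k2),(k11,k2)],[(k8,k2),(k11,k2)],[(k1,k2)]]
    [] k0
    [[k1,k0,k0,k0,k1,k1]]
    [.ref k0 k0 [(z1,[z1])]]]⟩

/-- classes `0 0 0 0 1 2`, types `N0 N1 N3 N1 S0 S0` -/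
noncomputable def cT6_308 : CertT :=
  ⟨[k12,k13,k15,k13,k16,k32],[(false,k0,[k0,k1,k2,k3,k4,k5])],[[[([z1,z0,z0,z0,z1,z1],z2)],[]]],
    [.leafM k4 [k1,k2,k3,k4,k5,k0] [(z1,[z1])] [],
    .lp [k12,k8,k6,k6,k6,k6] [k0,k0,k2,k2,k3,k3,k3,k3,k3,k3,k3,k3] k0 [] k24 k5
    [[(k10,k9),(k1,k12)],[(k5,k9),(k9,k9)],[(k6,k7),(k2,k8)],[(k4,k7),(k3,k8)],[(k7,k6),(k0,k9)],[(k6,k6),(k2,k7)],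
    [(k5,k6),(k9,k6)],[(k4,k6),(k3,k7)],[(k7,k6),(k0,k9)],[(k8,k6),(k11,k6)],[(k8,k6),(k11,k6)],[(k10,k6),(k1,k9)]]
    [] k0
    [[k0,k1,k1,k1,k0,k0]]
    [.ref k0 k0 [(z1,[y1,z1])]]]⟩

/-- classes `0 0 0 0 1 2`, types `N0 N1 N3 N2 C0 C0` -/
noncomputable def cT6_309 : CertT :=
  ⟨[k12,k13,k15,k14,k20,k36],[],[[[]]],
    [.lp [k2,k4,k4,k4,k2,k4] [k1,k1,k0,k0,k0,k0,k0,k0,k1,k1,k0,k0] k0 [] k12 k5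
    [[(k10,k3)],[(k5,k3),(k6,k3)],[(k9,k3),(k2,k4)],[(k3,k4),(k4,k4)],[(k0,k3),(k7,k4)],[(k9,k3),(k2,k4)],[(k5,k4),
    (k6,k4)],[(k0,k3),(k7,k4)],[(k3,k3),(k4,k3)],[(k11,k3)],[(k8,k3)],[(k1,k3)]]
    [] k0
    []
    []]⟩

/-- classes `0 0 0 0 1 2`, types `N0 N1 N3 N2 C0 S0` -/
noncomputable def cT6_310 : CertT :=
  ⟨[k12,k13,k15,k14,k20,k32],[],[[[]]],
    [.lp [k6,k8,k6,k8,k6,k6] [k1,k1,k0,k0,k1,k1,k0,k0,k1,k1,k1,k1] k0 [] k24 k5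
    [[(k1,k6),(k10,k6)],[(k5,k6),(k6,k7)],[(k9,k7),(k2,k8)],[(k4,k7),(k3,k8)],[(k0,k6),(k7,k7)],[(k9,k6),(k2,k7)],
    [(k5,k7),(k6,k8)],[(k0,k7),(k7,k8)],[(k4,k6),(k3,k7)],[(k11,k6)],[(k8,k6)],[(k1,k6),(k10,k6)]]
    [] k0
    []
    []]⟩

/-- classes `0 0 0 0 1 2`, types `N0 N1 N3 N2 S0 S0` -/
noncomputable def cT6_311 : CertT :=
  ⟨[k12,k13,k15,k14,k16,k32],[],[[[]]],
    [.lp [k6,k8,k6,k8,k6,k6] [k1,k1,k0,k0,k1,k1,k0,k0,k1,k1,k1,k1] k0 [] k24 k5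
    [[(k1,k6),(k10,k6)],[(k5,k6),(k6,k7)],[(k9,k7),(k2,k8)],[(k4,k7),(k3,k8)],[(k0,k6),(k7,k7)],[(k9,k6),(k2,k7)],
    [(k5,k7),(k6,k8)],[(k0,k7),(k7,k8)],[(k4,k6),(k3,k7)],[(k8,k6),(k11,k6)],[(k8,k6),(k11,k6)],[(k1,k6),(k10,k6)]]
    [] k0
    []
    []]⟩

/-- classes `0 0 0 0 1 2`, types `N0 N2 N0 N2 C0 C0` -/
noncomputable def cT6_312 : CertT :=
  ⟨[k12,k14,k12,k14,k20,k36],[],[[[]]],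
    [.lp [k0,k2,k0,k2,k0,k2] [k1,k1,k0,k0,k1,k1,k0,k0,k1,k1,k0,k0] k0 [] k4 k5
    [[(k10,k1)],[(k2,k1),(k6,k1)],[(k5,k1),(k9,k1)],[(k0,k1),(k4,k1)],[(k3,k1),(k7,k1)],[(k2,k1),(k6,k1)],[(k5,k1),
    (k9,k1)],[(k0,k1),(k4,k1)],[(k3,k1),(k7,k1)],[(k11,k1)],[(k8,k1)],[(k1,k1)]]
    [] k0
    []
    []]⟩

/-- classes `0 0 0 0 1 2`, types `N0 N2 N0 N2 C0 S0` -/
noncomputable def cT6_313 : CertT :=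
  ⟨[k12,k14,k12,k14,k20,k32],[],[[[]]],
    [.lp [k2,k2,k2,k2,k2,k2] [k0,k0,k0,k0,k0,k0,k0,k0,k0,k0,k0,k0] k0 [] k8 k5
    [[(k1,k2),(k10,k2)],[(k2,k2),(k6,k2)],[(k5,k2),(k9,k2)],[(k0,k2),(k4,k2)],[(k3,k2),(k7,k2)],[(k2,k2),(k6,k2)],
    [(k5,k2),(k9,k2)],[(k0,k2),(k4,k2)],[(k3,k2),(k7,k2)],[(k11,k2)],[(k8,k2)],[(k1,k2),(k10,k2)]]
    [] k0
    []
    []]⟩

/-- classes `0 0 0 0 1 2`, types `N0 N2 N0 N2 S0 S0` -/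
noncomputable def cT6_314 : CertT :=
  ⟨[k12,k14,k12,k14,k16,k32],[],[[[]]],
    [.lp [k2,k2,k2,k2,k2,k2] [k0,k0,k0,k0,k0,k0,k0,k0,k0,k0,k0,k0] k0 [] k8 k5
    [[(k1,k2),(k10,k2)],[(k2,k2),(k6,k2)],[(k5,k2),(k9,k2)],[(k0,k2),(k4,k2)],[(k3,k2),(k7,k2)],[(k2,k2),(k6,k2)],
    [(k5,k2),(k9,k2)],[(k0,k2),(k4,k2)],[(k3,k2),(k7,k2)],[(k8,k2),(k11,k2)],[(k8,k2),(k11,k2)],[(k1,k2),(k10,k2)]]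
    [] k0
    []
    []]⟩

/-- classes `0 0 0 0 1 2`, types `N0 N2 N1 N3 C0 C0` -/
noncomputable def cT6_315 : CertT :=
  ⟨[k12,k14,k13,k15,k20,k36],[],[[[]]],
    [.lp [k0,k2,k0,k2,k0,k2] [k1,k1,k0,k0,k1,k1,k0,k0,k1,k1,k0,k0] k0 [] k4 k5
    [[(k10,k1)],[(k2,k1),(k7,k1)],[(k4,k1),(k5,k1)],[(k0,k1),(k9,k1)],[(k3,k1),(k6,k1)],[(k3,k1),(k6,k1)],[(k0,k1),
    (k9,k1)],[(k4,k1),(k5,k1)],[(k2,k1),(k7,k1)],[(k11,k1)],[(k8,k1)],[(k1,k1)]]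
    [] k0
    []
    []]⟩

/-- classes `0 0 0 0 1 2`, types `N0 N2 N1 N3 C0 S0` -/
noncomputable def cT6_316 : CertT :=
  ⟨[k12,k14,k13,k15,k20,k32],[],[[[]]],
    [.lp [k2,k2,k2,k2,k2,k2] [k0,k0,k0,k0,k0,k0,k0,k0,k0,k0,k0,k0] k0 [] k8 k5
    [[(k1,k2),(k10,k2)],[(k2,k2),(k7,k2)],[(k4,k2),(k5,k2)],[(k0,k2),(k9,k2)],[(k3,k2),(k6,k2)],[(k3,k2),(k6,k2)],
    [(k0,k2),(k9,k2)],[(k4,k2),(k5,k2)],[(k2,k2),(k7,k2)],[(k11,k2)],[(k8,k2)],[(k1,k2),(k10,k2)]]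
    [] k0
    []
    []]⟩

/-- classes `0 0 0 0 1 2`, types `N0 N2 N1 N3 S0 S0` -/
noncomputable def cT6_317 : CertT :=
  ⟨[k12,k14,k13,k15,k16,k32],[],[[[]]],
    [.lp [k2,k2,k2,k2,k2,k2] [k0,k0,k0,k0,k0,k0,k0,k0,k0,k0,k0,k0] k0 [] k8 k5
    [[(k1,k2),(k10,k2)],[(k2,k2),(k7,k2)],[(k4,k2),(k5,k2)],[(k0,k2),(k9,k2)],[(k3,k2),(k6,k2)],[(k3,k2),(k6,k2)],
    [(k0,k2),(k9,k2)],[(k4,k2),(k5,k2)],[(k2,k2),(k7,k2)],[(k8,k2),(k11,k2)],[(k8,k2),(k11,k2)],[(k1,k2),(k10,k2)]]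
    [] k0
    []
    []]⟩

/-- classes `0 0 0 0 1 2`, types `N0 N2 N2 N0 C0 C0` -/
noncomputable def cT6_318 : CertT :=
  ⟨[k12,k14,k14,k12,k20,k36],[],[[[]]],
    [.lp [k2,k2,k2,k2,k2,k2] [k0,k0,k0,k0,k0,k0,k0,k0,k0,k0,k0,k0] k0 [] k8 k5
    [[(k10,k2)],[(k2,k2),(k4,k2)],[(k5,k2),(k7,k2)],[(k0,k2),(k6,k2)],[(k3,k2),(k9,k2)],[(k0,k2),(k6,k2)],[(k3,k2),
    (k9,k2)],[(k2,k2),(k4,k2)],[(k5,k2),(k7,k2)],[(k11,k2)],[(k8,k2)],[(k1,k2)]]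
    [] k0
    []
    []]⟩

/-- classes `0 0 0 0 1 2`, types `N0 N2 N2 N0 C0 S0` -/
noncomputable def cT6_319 : CertT :=
  ⟨[k12,k14,k14,k12,k20,k32],[],[[[]]],
    [.lp [k2,k2,k2,k2,k2,k2] [k0,k0,k0,k0,k0,k0,k0,k0,k0,k0,k0,k0] k0 [] k8 k5
    [[(k1,k2),(k10,k2)],[(k2,k2),(k4,k2)],[(k5,k2),(k7,k2)],[(k0,k2),(k6,k2)],[(k3,k2),(k9,k2)],[(k0,k2),(k6,k2)],
    [(k3,k2),(k9,k2)],[(k2,k2),(k4,k2)],[(k5,k2),(k7,k2)],[(k11,k2)],[(k8,k2)],[(k1,k2),(k10,k2)]]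
    [] k0
    []
    []]⟩

/-- classes `0 0 0 0 1 2`, types `N0 N2 N2 N0 S0 S0` -/
noncomputable def cT6_320 : CertT :=
  ⟨[k12,k14,k14,k12,k16,k32],[],[[[]]],
    [.lp [k2,k2,k2,k2,k2,k2] [k0,k0,k0,k0,k0,k0,k0,k0,k0,k0,k0,k0] k0 [] k8 k5
    [[(k1,k2),(k10,k2)],[(k2,k2),(k4,k2)],[(k5,k2),(k7,k2)],[(k0,k2),(k6,k2)],[(k3,k2),(k9,k2)],[(k0,k2),(k6,k2)],
    [(k3,k2),(k9,k2)],[(k2,k2),(k4,k2)],[(k5,k2),(k7,k2)],[(k8,k2),(k11,k2)],[(k8,k2),(k11,k2)],[(k1,k2),(k10,k2)]]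
    [] k0
    []
    []]⟩

/-- classes `0 0 0 0 1 2`, types `N0 N2 N3 N1 C0 C0` -/
noncomputable def cT6_321 : CertT :=
  ⟨[k12,k14,k15,k13,k20,k36],[],[[[]]],
    [.lp [k12,k4,k8,k10,k12,k0] [k0,k0,k4,k4,k2,k2,k1,k1,k0,k0,k6,k6] k0 [[k0,k0,k0,k2],[],[k0,k2]] k24 k5
    [[(k10,k6)],[(k2,k6),(k9,k12)],[(k6,k7),(k5,k8)],[(k0,k6),(k7,k7)],[(k3,k8),(k4,k8)],[(k5,k8),(k6,k9)],[(k2,k7),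
    (k9,k11)],[(k3,k7),(k4,k9)],[(k7,k11),(k0,k12)],[(k11,k6)],[(k8,k6)],[(k1,k6)]]
    [] k0
    []
    []]⟩

/-- classes `0 0 0 0 1 2`, types `N0 N2 N3 N1 C0 S0` -/
noncomputable def cT6_322 : CertT :=
  ⟨[k12,k14,k15,k13,k20,k32],[],[[[]]],
    [.lp [k6,k10,k8,k4,k8,k10] [k2,k2,k0,k0,k1,k1,k3,k3,k1,k1,k0,k0] k0 [[k0,k0,k0,k2],[],[k0,k2]] k24 k5
    [[(k1,k6),(k10,k8)],[(k2,k6),(k9,k7)],[(k6,k7),(k5,k11)],[(k0,k6),(k7,k7)],[(k4,k8),(k3,k11)],[(k6,k6),(k5,k8)],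
    [(k9,k6),(k2,k7)],[(k4,k6),(k3,k7)],[(k7,k6),(k0,k7)],[(k11,k9)],[(k8,k9)],[(k1,k8),(k10,k10)]]
    [] k0
    []
    []]⟩

/-- classes `0 0 0 0 1 2`, types `N0 N2 N3 N1 S0 S0` -/
noncomputable def cT6_323 : CertT :=
  ⟨[k12,k14,k15,k13,k16,k32],[],[[[]]],
    [.lp [k10,k10,k8,k4,k8,k6] [k0,k0,k0,k0,k1,k1,k3,k3,k1,k1,k2,k2] k0 [[k0,k0,k0,k2],[],[k0,k2]] k24 k5
    [[(k10,k8),(k1,k10)],[(k2,k8),(k9,k9)],[(k6,k7),(k5,k11)],[(k7,k7),(k0,k8)],[(k4,k8),(k3,k11)],[(k6,k6),(k5,k8)],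
    [(k9,k6),(k2,k7)],[(k4,k6),(k3,k7)],[(k7,k6),(k0,k9)],[(k11,k7),(k8,k8)],[(k11,k6),(k8,k7)],[(k10,k6),(k1,k8)]]
    [] k0
    []
    []]⟩

/-- classes `0 0 0 0 1 2`, types `N0 N3 N1 N2 C0 C0` -/
noncomputable def cT6_324 : CertT :=
  ⟨[k12,k15,k13,k14,k20,k36],[],[[[]]],
    [.lp [k0,k2,k0,k2,k0,k2] [k1,k1,k0,k0,k1,k1,k0,k0,k1,k1,k0,k0] k0 [] k4 k5
    [[(k10,k1)],[(k6,k1),(k7,k1)],[(k4,k1),(k9,k1)],[(k4,k1),(k9,k1)],[(k6,k1),(k7,k1)],[(k2,k1),(k3,k1)],[(k0,k1),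
    (k5,k1)],[(k0,k1),(k5,k1)],[(k2,k1),(k3,k1)],[(k11,k1)],[(k8,k1)],[(k1,k1)]]
    [] k0
    []
    []]⟩

/-- classes `0 0 0 0 1 2`, types `N0 N3 N1 N2 C0 S0` -/
noncomputable def cT6_325 : CertT :=
  ⟨[k12,k15,k13,k14,k20,k32],[],[[[]]],
    [.lp [k6,k4,k4,k4,k4,k4] [k0,k0,k1,k1,k1,k1,k1,k1,k1,k1,k1,k1] k0 [] k16 k5
    [[(k10,k5),(k1,k6)],[(k6,k5),(k7,k5)],[(k4,k4),(k9,k4)],[(k4,k4),(k9,k4)],[(k6,k4),(k7,k4)],[(k2,k4),(k3,k4)],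
    [(k5,k4),(k0,k5)],[(k5,k4),(k0,k5)],[(k2,k4),(k3,k4)],[(k11,k4)],[(k8,k4)],[(k10,k4),(k1,k5)]]
    [] k0
    []
    []]⟩

/-- classes `0 0 0 0 1 2`, types `N0 N3 N1 N2 S0 S0` -/
noncomputable def cT6_326 : CertT :=
  ⟨[k12,k15,k13,k14,k16,k32],[],[[[]]],
    [.lp [k2,k4,k0,k4,k2,k2] [k1,k1,k0,k0,k2,k2,k0,k0,k1,k1,k1,k1] k0 [] k8 k5
    [[(k1,k2),(k10,k2)],[(k6,k3),(k7,k3)],[(k4,k2),(k9,k3)],[(k4,k2),(k9,k3)],[(k6,k2),(k7,k2)],[(k2,k2),(k3,k2)],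
    [(k5,k2),(k0,k3)],[(k5,k2),(k0,k3)],[(k2,k3),(k3,k3)],[(k8,k2),(k11,k2)],[(k8,k2),(k11,k2)],[(k1,k2),(k10,k2)]]
    [] k0
    []
    []]⟩

/-- classes `0 0 0 0 1 2`, types `N0 N3 N2 N1 C0 C0` -/
noncomputable def cT6_327 : CertT :=
  ⟨[k12,k15,k14,k13,k20,k36],[],[[[]]],
    [.lp [k6,k0,k4,k6,k6,k0] [k0,k0,k3,k3,k1,k1,k0,k0,k0,k0,k3,k3] k0 [] k12 k5
    [[(k10,k3)],[(k4,k5),(k9,k6)],[(k6,k3),(k7,k3)],[(k6,k3),(k7,k3)],[(k4,k4),(k9,k5)],[(k5,k4),(k0,k5)],[(k2,k3),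
    (k3,k3)],[(k2,k3),(k3,k3)],[(k5,k5),(k0,k6)],[(k11,k3)],[(k8,k3)],[(k1,k3)]]
    [] k0
    []
    []]⟩

/-- classes `0 0 0 0 1 2`, types `N0 N3 N2 N1 C0 S0` -/
noncomputable def cT6_328 : CertT :=
  ⟨[k12,k15,k14,k13,k20,k32],[],[[[]]],
    [.lp [k4,k6,k4,k0,k2,k6] [k1,k1,k0,k0,k1,k1,k3,k3,k2,k2,k0,k0] k0 [] k12 k5
    [[(k1,k4),(k10,k5)],[(k9,k3),(k4,k4)],[(k6,k3),(k7,k3)],[(k6,k3),(k7,k3)],[(k9,k3),(k4,k4)],[(k0,k4),(k5,k4)],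
    [(k2,k3),(k3,k3)],[(k2,k3),(k3,k3)],[(k0,k3),(k5,k3)],[(k11,k4)],[(k8,k4)],[(k1,k5),(k10,k6)]]
    [] k0
    []
    []]⟩

/-- classes `0 0 0 0 1 2`, types `N0 N3 N2 N1 S0 S0` -/
noncomputable def cT6_329 : CertT :=
  ⟨[k12,k15,k14,k13,k16,k32],[],[[[]]],
    [.lp [k12,k12,k8,k0,k6,k6] [k0,k0,k0,k0,k2,k2,k6,k6,k3,k3,k3,k3] k0 [] k24 k5
    [[(k10,k9),(k1,k12)],[(k9,k9),(k4,k10)],[(k6,k6),(k7,k6)],[(k6,k6),(k7,k6)],[(k9,k7),(k4,k8)],[(k5,k8),(k0,k10)],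
    [(k2,k6),(k3,k6)],[(k2,k6),(k3,k6)],[(k5,k7),(k0,k9)],[(k8,k6),(k11,k6)],[(k8,k6),(k11,k6)],[(k10,k6),(k1,k9)]]
    [] k0
    []
    []]⟩

/-- classes `0 0 0 0 1 2`, types `S0 S0 S0 S0 C0 C0` -/
noncomputable def cT6_330 : CertT :=
  ⟨[k0,k0,k0,k0,k20,k36],[(false,k0,[k0,k1,k2,k3,k4,k5])],[[[([z1,z0,z0,z0,z1,z1],z2)],[]]],
    [.leafM k0 [k0,k1,k2,k3,k4,k5] [(z1,[y1,z1])] [],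
    .lp [k6,k8,k8,k8,k6,k6] [k1,k1,k0,k0,k0,k0,k0,k0,k1,k1,k1,k1] k0 [] k24 k5
    [[(k10,k6)],[(k0,k6),(k9,k6),(k2,k7),(k3,k7),(k4,k7),(k5,k7),(k6,k7),(k7,k7)],[(k0,k7),(k9,k7),(k2,k8),(k3,k8),
    (k4,k8),(k5,k8),(k6,k8),(k7,k8)],[(k0,k7),(k9,k7),(k2,k8),(k3,k8),(k4,k8),(k5,k8),(k6,k8),(k7,k8)],[(k0,k7),(k9,
    k7),(k2,k8),(k3,k8),(k4,k8),(k5,k8),(k6,k8),(k7,k8)],[(k0,k7),(k9,k7),(k2,k8),(k3,k8),(k4,k8),(k5,k8),(k6,k8),(k7,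
    k8)],[(k0,k7),(k9,k7),(k2,k8),(k3,k8),(k4,k8),(k5,k8),(k6,k8),(k7,k8)],[(k0,k7),(k9,k7),(k2,k8),(k3,k8),(k4,k8),
    (k5,k8),(k6,k8),(k7,k8)],[(k0,k6),(k9,k6),(k2,k7),(k3,k7),(k4,k7),(k5,k7),(k6,k7),(k7,k7)],[(k11,k6)],[(k8,k6)],
    [(k1,k6)]]
    [] k0
    [[k1,k0,k0,k0,k1,k1]]
    [.ref k0 k0 [(z1,[z1])]]]⟩

/-- classes `0 0 0 0 1 2`, types `S0 S0 S0 S0 C0 S0` -/
noncomputable def cT6_331 : CertT :=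
  ⟨[k0,k0,k0,k0,k20,k32],[(false,k0,[k0,k1,k2,k3,k4,k5])],[[[([z1,z0,z0,z0,z1,z1],z2)],[]]],
    [.leafM k0 [k0,k1,k2,k3,k4,k5] [(z1,[y1,z1])] [],
    .lp [k8,k8,k8,k8,k6,k6] [k0,k0,k0,k0,k0,k0,k0,k0,k1,k1,k1,k1] k0 [] k24 k5
    [[(k10,k7),(k1,k8)],[(k9,k7),(k0,k8),(k2,k8),(k3,k8),(k4,k8),(k5,k8),(k6,k8),(k7,k8)],[(k9,k7),(k0,k8),(k2,k8),
    (k3,k8),(k4,k8),(k5,k8),(k6,k8),(k7,k8)],[(k9,k7),(k0,k8),(k2,k8),(k3,k8),(k4,k8),(k5,k8),(k6,k8),(k7,k8)],[(k9,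
    k7),(k0,k8),(k2,k8),(k3,k8),(k4,k8),(k5,k8),(k6,k8),(k7,k8)],[(k9,k7),(k0,k8),(k2,k8),(k3,k8),(k4,k8),(k5,k8),(k6,
    k8),(k7,k8)],[(k9,k7),(k0,k8),(k2,k8),(k3,k8),(k4,k8),(k5,k8),(k6,k8),(k7,k8)],[(k9,k7),(k0,k8),(k2,k8),(k3,k8),
    (k4,k8),(k5,k8),(k6,k8),(k7,k8)],[(k9,k6),(k0,k7),(k2,k7),(k3,k7),(k4,k7),(k5,k7),(k6,k7),(k7,k7)],[(k11,k6)],
    [(k8,k6)],[(k10,k6),(k1,k7)]]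
    [] k0
    [[k1,k0,k0,k0,k1,k1]]
    [.ref k0 k0 [(z1,[z1])]]]⟩

/-- classes `0 0 0 1 0 1`, types `B0 B0 B1 B0 B1 B1` -/
noncomputable def cT6_332 : CertT :=
  ⟨[k8,k8,k9,k24,k9,k25],[(false,k0,[k0,k1,k2,k3,k4,k5])],[[[([z1,z0,z1,z0,z1,z0],z2)],[]]],
    [.leafM k5 [k0,k1,k2,k3,k4,k5] [(z1,[y1,z1]),(z1,[z1])] [],
    .lp [k14,k24,k16,k14,k14,k10] [k5,k5,k0,k0,k4,k4,k5,k5,k5,k5,k7,k7] k0 [[],[],[k0,k0,k0,k0,k0,k4],[],[k0,k0,k0,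
    k4]] k48 k5
    [[(k6,k14),(k9,k14)],[(k11,k12),(k7,k14),(k8,k14),(k4,k15)],[(k11,k17),(k7,k19),(k8,k19),(k4,k20)],[(k4,k16),(k11,
    k17),(k7,k19),(k8,k19)],[(k11,k13),(k8,k15),(k4,k16),(k7,k19)],[(k0,k15),(k2,k16),(k5,k16),(k3,k20)],[(k0,k14),
    (k2,k19),(k3,k19),(k5,k19)],[(k10,k12),(k1,k14)],[(k10,k12),(k1,k14)],[(k0,k14),(k5,k15),(k2,k19),(k3,k19)],[(k0,
    k12),(k5,k13),(k2,k17),(k3,k17)],[(k6,k12),(k9,k12)]]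
    [] k0
    [[k1,k0,k1,k0,k1,k0]]
    [.ref k0 k0 [(z1,[z1])]]]⟩

/-- classes `0 0 0 1 0 1`, types `B0 B0 B1 C0 B1 C0` -/
noncomputable def cT6_333 : CertT :=
  ⟨[k8,k8,k9,k20,k9,k20],[(false,k0,[k0,k1,k2,k3,k4,k5])],[[[([z1,z0,z1,z0,z0,z1],z2)],[]]],
    [.leafM k3 [k0,k1,k2,k3,k4,k5] [(z1,[y1,z1])] [],
    .lp [k6,k12,k20,k18,k18,k18] [k7,k7,k4,k4,k0,k0,k1,k1,k1,k1,k1,k1] k0 [[],[],[k0,k0,k0,k0,k0,k4],[],[k0,k0,k0,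
    k4]] k48 k5
    [[(k6,k12),(k10,k12)],[(k7,k12),(k8,k12),(k11,k12),(k4,k13)],[(k7,k15),(k8,k15),(k11,k15),(k4,k16)],[(k4,k12),(k7,
    k15),(k8,k15),(k11,k15)],[(k8,k19),(k11,k19),(k4,k20),(k7,k23)],[(k2,k12),(k0,k13),(k3,k16),(k5,k20)],[(k0,k12),
    (k2,k15),(k3,k15),(k5,k23)],[(k1,k12),(k9,k18)],[(k6,k18),(k10,k18)],[(k0,k12),(k2,k15),(k3,k15),(k5,k19)],[(k0,
    k12),(k2,k15),(k3,k15),(k5,k19)],[(k1,k12),(k9,k18)]]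
    [] k0
    [[k1,k0,k1,k0,k0,k1]]
    [.ref k0 k0 [(z1,[z1])]]]⟩

/-- classes `0 0 0 1 0 1`, types `B0 B0 B1 C0 B1 C2` -/
noncomputable def cT6_334 : CertT :=
  ⟨[k8,k8,k9,k20,k9,k22],[(false,k0,[k0,k1,k2,k3,k4,k5])],[[[([z1,z0,z1,z0,z1,z0],z2)],[([z1,z0,z1,z0,z0,z1],z2)],
    []]],
    [.leafM k5 [k0,k1,k2,k3,k4,k5] [(z1,[y1,z1]),(z1,[z1])] [],
    .leafM k3 [k0,k1,k2,k3,k4,k5] [(z1,[y1,z1])] [],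
    .lp [k2,k4,k4,k4,k4,k4] [k1,k1,k0,k0,k0,k0,k0,k0,k0,k0,k0,k0] k0 [] k12 k5
    [[(k9,k3),(k10,k3)],[(k4,k3),(k7,k3),(k8,k3),(k11,k3)],[(k4,k4),(k7,k4),(k8,k4),(k11,k4)],[(k4,k4),(k7,k4),(k8,
    k4),(k11,k4)],[(k4,k4),(k7,k4),(k8,k4),(k11,k4)],[(k0,k3),(k2,k4),(k3,k4),(k5,k4)],[(k0,k3),(k2,k4),(k3,k4),(k5,
    k4)],[(k9,k4),(k10,k4)],[(k1,k3),(k6,k4)],[(k0,k3),(k2,k4),(k3,k4),(k5,k4)],[(k0,k3),(k2,k4),(k3,k4),(k5,k4)],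
    [(k1,k3),(k6,k4)]]
    [] k0
    [[k1,k0,k1,k0,k1,k0],[k1,k0,k1,k0,k0,k1]]
    [.ref k0 k0 [(z1,[z1])],.ref k1 k0 [(z1,[z1])]]]⟩

/-- classes `0 0 0 1 0 1`, types `B0 B0 B1 N0 B1 N1` -/
noncomputable def cT6_335 : CertT :=
  ⟨[k8,k8,k9,k28,k9,k29],[],[[[]]],
    [.lp [k6,k12,k8,k6,k6,k6] [k3,k3,k0,k0,k2,k2,k3,k3,k3,k3,k3,k3] k0 [[],[],[k0,k0,k0,k0,k0,k4],[],[k0,k0,k0,k4]] k24 k5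
    [[(k6,k6)],[(k7,k6),(k8,k6),(k11,k6),(k4,k7)],[(k7,k9),(k8,k9),(k11,k9),(k4,k10)],[(k4,k6),(k7,k9),(k8,k9),(k11,
    k9)],[(k8,k7),(k11,k7),(k4,k8),(k7,k11)],[(k2,k6),(k0,k7),(k5,k8),(k3,k10)],[(k0,k6),(k2,k9),(k3,k9),(k5,k11)],
    [(k1,k6)],[(k10,k6)],[(k0,k6),(k5,k7),(k2,k9),(k3,k9)],[(k0,k6),(k5,k7),(k2,k9),(k3,k9)],[(k9,k6)]]
    [] k0
    []
    []]⟩

/-- classes `0 0 0 1 0 1`, types `B0 B0 B1 N0 B1 N2` -/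
noncomputable def cT6_336 : CertT :=
  ⟨[k8,k8,k9,k28,k9,k30],[(false,k0,[k0,k1,k2,k3,k4,k5])],[[[([z1,z0,z1,z0,z1,z0],z2)],[]]],
    [.leafM k5 [k0,k1,k2,k3,k4,k5] [(z1,[y1,z1]),(z1,[z1])] [],
    .lp [k2,k2,k4,k4,k4,k6] [k2,k2,k2,k2,k1,k1,k1,k1,k1,k1,k0,k0] k0 [] k12 k5
    [[(k9,k3)],[(k4,k3),(k7,k3),(k8,k3),(k11,k4)],[(k4,k3),(k7,k3),(k8,k3),(k11,k4)],[(k4,k3),(k7,k3),(k8,k3),(k11,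
    k4)],[(k4,k4),(k7,k4),(k8,k4),(k11,k5)],[(k0,k3),(k2,k3),(k3,k3),(k5,k4)],[(k0,k3),(k2,k3),(k3,k3),(k5,k4)],[(k10,
    k5)],[(k1,k3)],[(k0,k3),(k2,k3),(k3,k3),(k5,k4)],[(k0,k4),(k2,k4),(k3,k4),(k5,k5)],[(k6,k5)]]
    [] k0
    [[k1,k0,k1,k0,k1,k0]]
    [.ref k0 k0 [(z1,[z1])]]]⟩

/-- classes `0 0 0 1 0 1`, types `B0 B0 B1 S0 B1 S0` -/
noncomputable def cT6_337 : CertT :=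
  ⟨[k8,k8,k9,k16,k9,k16],[(false,k0,[k0,k1,k2,k3,k4,k5])],[[[([z1,z0,z1,z0,z1,z0],z2)],[([z1,z0,z1,z0,z0,z1],z2)],
    []]],
    [.leafM k5 [k0,k1,k2,k3,k4,k5] [(z1,[y1,z1]),(z1,[z1])] [],
    .leafM k3 [k0,k1,k2,k3,k4,k5] [(z1,[y1,z1])] [],
    .lp [k8,k12,k8,k6,k6,k6] [k2,k2,k0,k0,k2,k2,k3,k3,k3,k3,k3,k3] k0 [[],[],[k0,k0,k0,k0,k0,k2],[],[k0,k0,k0,k2]] k24 k5
    [[(k6,k7),(k9,k7),(k10,k7),(k1,k8)],[(k7,k7),(k8,k7),(k11,k7),(k4,k8)],[(k7,k9),(k8,k9),(k11,k9),(k4,k10)],[(k4,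
    k8),(k7,k9),(k8,k9),(k11,k9)],[(k8,k7),(k11,k7),(k4,k8),(k7,k9)],[(k0,k8),(k2,k8),(k5,k8),(k3,k10)],[(k0,k7),(k2,
    k9),(k3,k9),(k5,k9)],[(k6,k6),(k9,k6),(k10,k6),(k1,k7)],[(k6,k6),(k9,k6),(k10,k6),(k1,k7)],[(k0,k7),(k5,k7),(k2,
    k9),(k3,k9)],[(k0,k7),(k5,k7),(k2,k9),(k3,k9)],[(k6,k6),(k9,k6),(k10,k6),(k1,k7)]]
    [] k0
    [[k1,k0,k1,k0,k1,k0],[k1,k0,k1,k0,k0,k1]]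
    [.ref k0 k0 [(z1,[z1])],.ref k1 k0 [(z1,[z1])]]]⟩

/-- classes `0 0 0 1 0 1`, types `B0 B1 B0 B0 B1 B1` -/
noncomputable def cT6_338 : CertT :=
  ⟨[k8,k9,k8,k24,k9,k25],[],[[[]]],
    [.lp [k40,k42,k44,k44,k36,k24] [k2,k2,k1,k1,k0,k0,k0,k0,k4,k4,k10,k10] k0 [[k0,k0,k0,k0,k0,k0,k0,k0,k2,k8],[],[k0,k0,
    k0,k0,k0,k8],[k0,k0,k0,k0,k0,k2],[k0,k0,k2,k8],[],[],[],[k0,k8],[k0,k2]] k120 k5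
    [[(k9,k38),(k6,k42)],[(k8,k30),(k11,k30),(k2,k41),(k5,k42)],[(k8,k41),(k11,k41),(k2,k42),(k5,k43)],[(k4,k35),(k0,
    k41),(k3,k42),(k7,k45)],[(k0,k42),(k4,k42),(k3,k43),(k7,k52)],[(k11,k34),(k2,k35),(k8,k40),(k5,k42)],[(k11,k34),
    (k8,k40),(k2,k45),(k5,k52)],[(k10,k34),(k1,k42)],[(k10,k30),(k1,k38)],[(k0,k30),(k4,k40),(k7,k40),(k3,k41)],[(k0,
    k30),(k4,k34),(k7,k34),(k3,k41)],[(k9,k30),(k6,k34)]]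
    [] k0
    []
    []]⟩

/-- classes `0 0 0 1 0 1`, types `B0 B1 B0 C0 B1 C0` -/
noncomputable def cT6_339 : CertT :=
  ⟨[k8,k9,k8,k20,k9,k20],[],[[[]]],
    [.lp [k54,k88,k88,k66,k66,k98] [k22,k22,k5,k5,k5,k5,k16,k16,k16,k16,k0,k0] k0 [[k0,k0,k0,k0,k0,k0,k0,k0,k16],[],[k0,k0,
    k0,k0,k0,k20],[k0,k0,k0,k0,k0,k4],[k0,k0,k4,k20],[],[],[],[],[k0,k16]] (nat_lit 240) k5
    [[(k6,k60),(k10,k76)],[(k8,k60),(k11,k60),(k2,k71),(k5,k71)],[(k2,k88),(k5,k88),(k8,k93),(k11,k93)],[(k4,k68),(k0,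
    k71),(k7,k81),(k3,k88)],[(k0,k71),(k4,k84),(k3,k88),(k7,k97)],[(k2,k68),(k8,k77),(k5,k84),(k11,k93)],[(k8,k66),
    (k2,k81),(k11,k82),(k5,k97)],[(k1,k60),(k9,k66)],[(k6,k66),(k10,k82)],[(k0,k60),(k7,k66),(k4,k77),(k3,k93)],[(k0,
    k60),(k7,k82),(k3,k93),(k4,k93)],[(k1,k76),(k9,k82)]]
    [] k0
    []
    []]⟩

/-- classes `0 0 0 1 0 1`, types `B0 B1 B0 C0 B1 C2` -/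
noncomputable def cT6_340 : CertT :=
  ⟨[k8,k9,k8,k20,k9,k22],[],[[[]]],
    [.lp [k132,(nat_lit 264),(nat_lit 308),k108,(nat_lit 352),(nat_lit 352)] [k110,k110,k44,k44,k22,k22,k122,k122,k0,k0,k0,
    k0] k0 [[k0,k0,k0,k0,k0,k0,k0,k0,k44,k44],[],[k0,k0,k0,k0,k0,k33],[k0,k0,k0,k0,k0,k33],[k0,k0,k33,k33],[],[],[],
    [k0,k44],[k0,k44]] (nat_lit 792) k5
    [[(k9,(nat_lit 242)),(k10,(nat_lit 242))],[(k2,k198),(k8,k198),(k11,k198),(k5,(nat_lit 220))],[(k2,(nat_lit 264)),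
    (k5,(nat_lit 286)),(k8,(nat_lit 352)),(k11,(nat_lit 352))],[(k0,k198),(k7,(nat_lit 219)),(k4,(nat_lit 253)),(k3,
    (nat_lit 264))],[(k0,(nat_lit 220)),(k7,(nat_lit 241)),(k4,(nat_lit 275)),(k3,(nat_lit 286))],[(k2,(nat_lit 253)),
    (k5,(nat_lit 275)),(k8,(nat_lit 330)),(k11,(nat_lit 330))],[(k2,(nat_lit 219)),(k8,(nat_lit 230)),(k11,
    (nat_lit 230)),(k5,(nat_lit 241))],[(k9,(nat_lit 230)),(k10,(nat_lit 230))],[(k6,(nat_lit 230)),(k1,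
    (nat_lit 242))],[(k0,k198),(k7,(nat_lit 230)),(k4,(nat_lit 330)),(k3,(nat_lit 352))],[(k0,k198),(k7,
    (nat_lit 230)),(k4,(nat_lit 330)),(k3,(nat_lit 352))],[(k6,(nat_lit 230)),(k1,(nat_lit 242))]]
    [] k0
    []
    []]⟩

/-- classes `0 0 0 1 0 1`, types `B0 B1 B0 N0 B1 N1` -/
noncomputable def cT6_341 : CertT :=
  ⟨[k8,k9,k8,k28,k9,k29],[],[[[]]],
    [.lp [k6,k8,k8,k6,k6,k6] [k1,k1,k0,k0,k0,k0,k1,k1,k1,k1,k1,k1] k0 [] k24 k5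
    [[(k6,k6)],[(k8,k6),(k11,k6),(k2,k7),(k5,k7)],[(k8,k7),(k11,k7),(k2,k8),(k5,k8)],[(k0,k7),(k7,k7),(k3,k8),(k4,
    k8)],[(k0,k7),(k7,k7),(k3,k8),(k4,k8)],[(k8,k7),(k11,k7),(k2,k8),(k5,k8)],[(k8,k6),(k11,k6),(k2,k7),(k5,k7)],[(k1,
    k6)],[(k10,k6)],[(k0,k6),(k7,k6),(k3,k7),(k4,k7)],[(k0,k6),(k7,k6),(k3,k7),(k4,k7)],[(k9,k6)]]
    [] k0
    []
    []]⟩

/-- classes `0 0 0 1 0 1`, types `B0 B1 B0 N0 B1 N2` -/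
noncomputable def cT6_342 : CertT :=
  ⟨[k8,k9,k8,k28,k9,k30],[],[[[]]],
    [.lp [k16,k44,k44,k12,k60,k54] [k22,k22,k8,k8,k8,k8,k24,k24,k0,k0,k3,k3] k0 [[k0,k0,k0,k0,k0,k0,k0,k0,k0,k8],[],[k0,k0,
    k0,k0,k0,k10],[k0,k0,k0,k0,k0,k2],[k0,k0,k2,k10],[],[],[],[k0,k8]] k120 k5
    [[(k9,k38)],[(k2,k30),(k5,k30),(k8,k30),(k11,k35)],[(k2,k44),(k5,k44),(k8,k52),(k11,k57)],[(k0,k30),(k7,k30),(k4,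
    k34),(k3,k44)],[(k0,k30),(k7,k38),(k4,k42),(k3,k44)],[(k2,k34),(k5,k42),(k11,k49),(k8,k52)],[(k2,k30),(k11,k33),
    (k8,k36),(k5,k38)],[(k10,k33)],[(k1,k38)],[(k0,k30),(k7,k36),(k3,k52),(k4,k52)],[(k7,k33),(k0,k35),(k4,k49),(k3,
    k57)],[(k6,k33)]]
    [] k0
    []
    []]⟩

/-- classes `0 0 0 1 0 1`, types `B0 B1 B0 S0 B1 S0` -/
noncomputable def cT6_343 : CertT :=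
  ⟨[k8,k9,k8,k16,k9,k16],[],[[[]]],
    [.lp [(nat_lit 288),(nat_lit 264),(nat_lit 308),(nat_lit 264),k198,k198] [k10,k10,k22,k22,k0,k0,k22,k22,k55,k55,k55,
    k55] k0 [[k0,k0,k0,k0,k0,k0,k0,k0,k44,k44],[],[k0,k0,k0,k0,k0,k33],[k0,k0,k0,k0,k0,k33],[k0,k0,k33,k33],[],[],[],
    [k0,k44],[k0,k44]] (nat_lit 792) k5
    [[(k9,(nat_lit 243)),(k10,(nat_lit 243)),(k6,(nat_lit 276)),(k1,(nat_lit 288))],[(k8,k199),(k11,k199),(k2,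
    (nat_lit 276)),(k5,(nat_lit 298))],[(k2,(nat_lit 264)),(k8,(nat_lit 275)),(k11,(nat_lit 275)),(k5,(nat_lit 286))],
    [(k4,(nat_lit 253)),(k3,(nat_lit 264)),(k0,(nat_lit 276)),(k7,(nat_lit 297))],[(k4,(nat_lit 275)),(k3,
    (nat_lit 286)),(k0,(nat_lit 298)),(k7,(nat_lit 319))],[(k2,(nat_lit 253)),(k8,(nat_lit 253)),(k11,(nat_lit 253)),
    (k5,(nat_lit 275))],[(k8,(nat_lit 231)),(k11,(nat_lit 231)),(k2,(nat_lit 297)),(k5,(nat_lit 319))],[(k9,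
    (nat_lit 231)),(k10,(nat_lit 231)),(k6,(nat_lit 264)),(k1,(nat_lit 276))],[(k9,k198),(k10,k198),(k6,
    (nat_lit 231)),(k1,(nat_lit 243))],[(k0,k199),(k7,(nat_lit 231)),(k4,(nat_lit 253)),(k3,(nat_lit 275))],[(k0,
    k199),(k7,(nat_lit 231)),(k4,(nat_lit 253)),(k3,(nat_lit 275))],[(k9,k198),(k10,k198),(k6,(nat_lit 231)),(k1,
    (nat_lit 243))]]
    [] k0
    []
    []]⟩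

/-- classes `0 0 0 1 0 1`, types `C0 C0 C0 B0 C0 B1` -/
noncomputable def cT6_344 : CertT :=
  ⟨[k4,k4,k4,k24,k4,k25],[],[[[]]],
    [.lp [k14,k16,k20,k14,k10,k18] [k3,k3,k2,k2,k0,k0,k3,k3,k5,k5,k1,k1] k0 [[k0,k0,k0,k0,k0,k0,k0,k0,k4],[],[],[k0,k0,k0,
    k0,k0,k4],[k0,k0,k4],[],[],[],[],[k0,k4]] k48 k5
    [[(k9,k12),(k6,k14)],[(k11,k12),(k7,k14),(k3,k15),(k5,k17)],[(k0,k15),(k2,k16),(k8,k17),(k4,k18)],[(k3,k16),(k11,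
    k17),(k5,k18),(k7,k19)],[(k8,k15),(k4,k16),(k0,k17),(k2,k18)],[(k5,k16),(k7,k17),(k3,k18),(k11,k19)],[(k8,k12),
    (k0,k14),(k4,k17),(k2,k19)],[(k1,k14),(k10,k16)],[(k1,k12),(k10,k14)],[(k7,k12),(k11,k14),(k5,k15),(k3,k17)],[(k0,
    k12),(k8,k14),(k2,k17),(k4,k19)],[(k9,k14),(k6,k16)]]
    [] k0
    []
    []]⟩

/-- classes `0 0 0 1 0 1`, types `C0 C0 C0 B0 C2 B1` -/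
noncomputable def cT6_345 : CertT :=
  ⟨[k4,k4,k4,k24,k6,k25],[(false,k0,[k0,k1,k2,k3,k4,k5])],[[[([z1,z1,z0,z0,z1,z0],z2)],[]]],
    [.leafM k3 [k3,k4,k5,k0,k1,k2] [(z1,[z1])] [],
    .lp [k24,k16,k16,k8,k8,k22] [k0,k0,k4,k4,k4,k4,k8,k8,k8,k8,k1,k1] k0 [[k0,k0,k0,k0,k0,k0,k0,k0,k0,k2],[],[],[],[],[k0,
    k0,k0,k0,k0,k0,k0,k0,k2],[],[],[k0,k2],[k0,k0,k0,k0,k2]] k48 k5
    [[(k6,k16),(k9,k16)],[(k8,k14),(k7,k16),(k3,k20),(k5,k20)],[(k2,k16),(k4,k16),(k0,k20),(k11,k21)],[(k7,k12),(k8,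
    k12),(k3,k16),(k5,k16)],[(k2,k16),(k4,k16),(k11,k19),(k0,k20)],[(k7,k12),(k8,k14),(k3,k16),(k5,k16)],[(k2,k12),
    (k4,k12),(k11,k13),(k0,k16)],[(k10,k15),(k1,k16)],[(k10,k15),(k1,k16)],[(k2,k12),(k0,k14),(k4,k14),(k11,k15)],
    [(k7,k13),(k8,k15),(k5,k19),(k3,k21)],[(k6,k15),(k9,k15)]]
    [] k0
    [[k0,k0,k1,k1,k0,k1]]
    [.ref k0 k0 [(z1,[y1,z1])]]]⟩

/-- classes `0 0 0 1 0 1`, types `C0 C0 C0 C0 C0 C0` -/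
noncomputable def cT6_346 : CertT :=
  ⟨[k4,k4,k4,k20,k4,k20],[(false,k0,[k0,k1,k2,k3,k4,k5])],[[[([z1,z1,z0,z0,z0,z1],z2)],[]]],
    [.leafM k0 [k1,k2,k3,k4,k5,k0] [(z1,[y1,z1])] [],
    .lp [k24,k16,k16,k8,k22,k8] [k0,k0,k4,k4,k4,k4,k8,k8,k1,k1,k8,k8] k0 [[k0,k0,k0,k0,k0,k0,k0,k0,k2],[],[],[],[],[k0,k0,
    k0,k0,k0,k0,k0,k0,k0,k2],[],[],[k0,k0,k0,k0,k2],[k0,k2]] k48 k5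
    [[(k6,k16),(k10,k16)],[(k11,k14),(k7,k16),(k3,k20),(k5,k20)],[(k2,k16),(k4,k16),(k0,k20),(k8,k21)],[(k7,k12),(k11,
    k12),(k3,k16),(k5,k16)],[(k2,k16),(k4,k16),(k8,k19),(k0,k20)],[(k7,k12),(k11,k14),(k3,k16),(k5,k16)],[(k2,k12),
    (k4,k12),(k8,k13),(k0,k16)],[(k9,k15),(k1,k16)],[(k6,k15),(k10,k15)],[(k7,k13),(k11,k15),(k5,k19),(k3,k21)],[(k2,
    k12),(k0,k14),(k4,k14),(k8,k15)],[(k9,k15),(k1,k16)]]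
    [] k0
    [[k0,k0,k1,k1,k1,k0]]
    [.ref k0 k0 [(z1,[y1,z1])]]]⟩

/-- classes `0 0 0 1 0 1`, types `C0 C0 C0 C0 C0 C2` -/
noncomputable def cT6_347 : CertT :=
  ⟨[k4,k4,k4,k20,k4,k22],[(false,k0,[k0,k1,k2,k3,k4,k5])],[[[([z1,z1,z0,z0,z0,z1],z2)],[]]],
    [.leafM k0 [k1,k2,k3,k4,k5,k0] [(z1,[y1,z1])] [],
    .lp [k22,k16,k16,k14,k14,k10] [k0,k0,k3,k3,k3,k3,k4,k4,k4,k4,k6,k6] k0 [[k0,k0,k0,k0,k0,k0,k0,k0,k4],[],[],[],[],[],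
    [],[],[],[k0,k4]] k48 k5
    [[(k10,k16),(k9,k18)],[(k11,k12),(k7,k18),(k3,k19),(k5,k19)],[(k2,k16),(k4,k16),(k0,k19),(k8,k19)],[(k11,k13),(k7,
    k15),(k3,k16),(k5,k16)],[(k8,k15),(k2,k16),(k4,k16),(k0,k19)],[(k11,k13),(k7,k15),(k3,k16),(k5,k16)],[(k8,k14),
    (k2,k15),(k4,k15),(k0,k18)],[(k10,k12),(k9,k14)],[(k6,k14),(k1,k18)],[(k11,k12),(k7,k14),(k5,k15),(k3,k19)],[(k0,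
    k12),(k8,k12),(k2,k13),(k4,k13)],[(k6,k12),(k1,k16)]]
    [] k0
    [[k0,k0,k1,k1,k1,k0]]
    [.ref k0 k0 [(z1,[y1,z1])]]]⟩

/-- classes `0 0 0 1 0 1`, types `C0 C0 C0 C0 C2 C0` -/
noncomputable def cT6_348 : CertT :=
  ⟨[k4,k4,k4,k20,k6,k20],[],[[[]]],
    [.lp [k18,k16,k20,k10,k14,k14] [k1,k1,k2,k2,k0,k0,k5,k5,k3,k3,k3,k3] k0 [[k0,k0,k0,k0,k0,k0,k0,k0,k0,k4],[],[],[k0,k0,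
    k0,k0,k0,k4],[k0,k0,k4],[],[],[],[k0,k4]] k48 k5
    [[(k6,k14),(k10,k16)],[(k8,k12),(k7,k14),(k3,k17),(k5,k19)],[(k2,k16),(k0,k17),(k4,k18),(k11,k19)],[(k8,k15),(k3,
    k16),(k7,k17),(k5,k18)],[(k4,k16),(k11,k17),(k2,k18),(k0,k19)],[(k7,k15),(k5,k16),(k8,k17),(k3,k18)],[(k11,k12),
    (k0,k14),(k4,k15),(k2,k17)],[(k9,k12),(k1,k14)],[(k6,k12),(k10,k14)],[(k0,k12),(k11,k14),(k2,k15),(k4,k17)],[(k7,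
    k12),(k8,k14),(k5,k17),(k3,k19)],[(k9,k14),(k1,k16)]]
    [] k0
    []
    []]⟩

/-- classes `0 0 0 1 0 1`, types `C0 C0 C0 C0 C2 C2` -/
noncomputable def cT6_349 : CertT :=
  ⟨[k4,k4,k4,k20,k6,k22],[(false,k0,[k0,k1,k2,k3,k4,k5])],[[[([z1,z1,z0,z0,z1,z0],z2)],[]]],
    [.leafM k3 [k3,k4,k5,k0,k1,k2] [(z1,[z1])] [],
    .lp [k192,k160,k180,k150,k90,k150] [k0,k0,k16,k16,k6,k6,k21,k21,k51,k51,k21,k21] k0 [[k0,k0,k0,k0,k0,k0,k0,k0,k0,k20],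
    [],[],[],[],[k0,k0,k0,k0,k0,k0,k0,k0,k20],[],[],[k0,k20],[k0,k0,k0,k0,k20]] (nat_lit 480) k5
    [[(k9,k141),(k10,k171)],[(k8,k121),(k7,k171),(k3,k176),(k5,k186)],[(k2,k160),(k4,k170),(k11,k175),(k0,k176)],[(k8,
    k125),(k7,k155),(k3,k160),(k5,k170)],[(k11,k165),(k2,k170),(k4,k180),(k0,k186)],[(k8,k155),(k7,k165),(k3,k170),
    (k5,k180)],[(k11,k130),(k2,k155),(k4,k165),(k0,k171)],[(k9,k120),(k10,k150)],[(k6,k120),(k1,k141)],[(k11,k120),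
    (k0,k121),(k2,k125),(k4,k155)],[(k8,k120),(k7,k130),(k5,k165),(k3,k175)],[(k6,k150),(k1,k171)]]
    [] k0
    [[k1,k1,k0,k0,k1,k0]]
    [.ref k0 k0 [(z1,[z1])]]]⟩

/-- classes `0 0 0 1 0 1`, types `C0 C0 C0 N0 C0 N1` -/
noncomputable def cT6_350 : CertT :=
  ⟨[k4,k4,k4,k28,k4,k29],[],[[[]]],
    [.lp [k12,k8,k10,k2,k10,k4] [k0,k0,k2,k2,k1,k1,k5,k5,k1,k1,k4,k4] k0 [[k0,k0,k0,k0,k0,k0,k0,k0,k2],[],[],[k0,k0,k0,k0,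
    k0,k2],[k0,k0,k2],[],[],[],[],[k0,k2]] k24 k5
    [[(k6,k7)],[(k11,k6),(k7,k7),(k3,k10),(k5,k11)],[(k2,k8),(k4,k9),(k0,k10),(k8,k11)],[(k11,k6),(k7,k7),(k3,k8),(k5,
    k9)],[(k4,k8),(k2,k9),(k8,k10),(k0,k11)],[(k7,k6),(k11,k7),(k5,k8),(k3,k9)],[(k4,k6),(k8,k6),(k0,k7),(k2,k7)],
    [(k1,k7)],[(k10,k7)],[(k7,k6),(k11,k7),(k5,k10),(k3,k11)],[(k0,k6),(k2,k6),(k4,k7),(k8,k7)],[(k9,k7)]]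
    [] k0
    []
    []]⟩

/-- classes `0 0 0 1 0 1`, types `C0 C0 C0 N0 C0 N2` -/
noncomputable def cT6_351 : CertT :=
  ⟨[k4,k4,k4,k28,k4,k30],[],[[[]]],
    [.lp [k6,k8,k8,k6,k6,k6] [k1,k1,k0,k0,k0,k0,k1,k1,k1,k1,k1,k1] k0 [] k24 k5
    [[(k9,k6)],[(k7,k6),(k11,k6),(k3,k7),(k5,k7)],[(k0,k7),(k8,k7),(k2,k8),(k4,k8)],[(k7,k7),(k11,k7),(k3,k8),(k5,
    k8)],[(k0,k7),(k8,k7),(k2,k8),(k4,k8)],[(k7,k7),(k11,k7),(k3,k8),(k5,k8)],[(k0,k6),(k8,k6),(k2,k7),(k4,k7)],[(k10,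
    k6)],[(k1,k6)],[(k7,k6),(k11,k6),(k3,k7),(k5,k7)],[(k0,k6),(k8,k6),(k2,k7),(k4,k7)],[(k6,k6)]]
    [] k0
    []
    []]⟩

/-- classes `0 0 0 1 0 1`, types `C0 C0 C0 N0 C2 N1` -/
noncomputable def cT6_352 : CertT :=
  ⟨[k4,k4,k4,k28,k6,k29],[],[[[]]],
    [.lp [k12,k8,k10,k2,k4,k10] [k0,k0,k2,k2,k1,k1,k5,k5,k4,k4,k1,k1] k0 [[k0,k0,k0,k0,k0,k0,k0,k0,k0,k2],[],[],[k0,k0,k0,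
    k0,k0,k2],[k0,k0,k2],[],[],[],[k0,k2]] k24 k5
    [[(k6,k7)],[(k8,k6),(k7,k7),(k3,k10),(k5,k11)],[(k2,k8),(k4,k9),(k0,k10),(k11,k11)],[(k8,k6),(k7,k7),(k3,k8),(k5,
    k9)],[(k4,k8),(k2,k9),(k11,k10),(k0,k11)],[(k7,k6),(k8,k7),(k5,k8),(k3,k9)],[(k4,k6),(k11,k6),(k0,k7),(k2,k7)],
    [(k1,k7)],[(k10,k7)],[(k0,k6),(k2,k6),(k4,k7),(k11,k7)],[(k7,k6),(k8,k7),(k5,k10),(k3,k11)],[(k9,k7)]]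
    [] k0
    []
    []]⟩

/-- classes `0 0 0 1 0 1`, types `C0 C0 C0 N0 C2 N2` -/
noncomputable def cT6_353 : CertT :=
  ⟨[k4,k4,k4,k28,k6,k30],[(false,k0,[k0,k1,k2,k3,k4,k5])],[[[([z1,z1,z0,z0,z1,z0],z2)],[]]],
    [.leafM k3 [k3,k4,k5,k0,k1,k2] [(z1,[z1])] [],
    .lp [k20,k16,k18,k8,k8,k22] [k1,k1,k3,k3,k2,k2,k7,k7,k7,k7,k0,k0] k0 [[k0,k0,k0,k0,k0,k0,k0,k0,k0,k2],[],[],[],[],[k0,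
    k0,k0,k0,k0,k0,k0,k0,k2],[],[],[k0,k2],[k0,k0,k0,k0,k2]] k48 k5
    [[(k9,k14)],[(k8,k12),(k7,k14),(k3,k18),(k5,k19)],[(k2,k16),(k4,k17),(k0,k18),(k11,k21)],[(k7,k12),(k8,k12),(k3,
    k16),(k5,k17)],[(k2,k17),(k4,k18),(k0,k19),(k11,k20)],[(k7,k13),(k8,k15),(k3,k17),(k5,k18)],[(k2,k12),(k4,k13),
    (k11,k13),(k0,k14)],[(k10,k15)],[(k1,k14)],[(k0,k12),(k2,k12),(k4,k15),(k11,k15)],[(k7,k13),(k8,k15),(k5,k20),(k3,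
    k21)],[(k6,k15)]]
    [] k0
    [[k1,k1,k0,k0,k1,k0]]
    [.ref k0 k0 [(z1,[z1])]]]⟩

/-- classes `0 0 0 1 0 1`, types `C0 C0 C0 S0 C0 S0` -/
noncomputable def cT6_354 : CertT :=
  ⟨[k4,k4,k4,k16,k4,k16],[(false,k0,[k0,k1,k2,k3,k4,k5])],[[[([z1,z1,z0,z0,z0,z1],z2)],[]]],
    [.leafM k0 [k1,k2,k3,k4,k5,k0] [(z1,[y1,z1])] [],
    .lp [k18,k16,k16,k14,k18,k12] [k0,k0,k1,k1,k1,k1,k2,k2,k0,k0,k3,k3] k0 [[k0,k0,k0,k0,k0,k0,k0,k0,k2],[],[],[],[],[k0,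
    k0,k0,k0,k0,k0,k0,k0,k0,k2],[],[],[k0,k0,k0,k0,k2],[k0,k2]] k48 k5
    [[(k10,k15),(k6,k16),(k1,k18),(k9,k18)],[(k11,k13),(k7,k16),(k3,k17),(k5,k17)],[(k2,k16),(k4,k16),(k0,k17),(k8,
    k19)],[(k11,k14),(k7,k15),(k3,k16),(k5,k16)],[(k2,k16),(k4,k16),(k0,k17),(k8,k17)],[(k7,k15),(k3,k16),(k5,k16),
    (k11,k16)],[(k8,k14),(k2,k15),(k4,k15),(k0,k16)],[(k10,k13),(k6,k14),(k1,k16),(k9,k16)],[(k10,k15),(k6,k16),(k1,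
    k18),(k9,k18)],[(k7,k14),(k11,k15),(k5,k17),(k3,k19)],[(k0,k13),(k2,k14),(k8,k15),(k4,k16)],[(k10,k12),(k6,k13),
    (k1,k15),(k9,k15)]]
    [] k0
    [[k1,k1,k0,k0,k0,k1]]
    [.ref k0 k0 [(z1,[z1])]]]⟩

/-- classes `0 0 0 1 0 1`, types `C0 C0 C0 S0 C2 S0` -/
noncomputable def cT6_355 : CertT :=
  ⟨[k4,k4,k4,k16,k6,k16],[(false,k0,[k0,k1,k2,k3,k4,k5])],[[[([z1,z1,z0,z0,z1,z0],z2)],[]]],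
    [.leafM k3 [k3,k4,k5,k0,k1,k2] [(z1,[z1])] [],
    .lp [k12,k16,k16,k20,k18,k12] [k4,k4,k2,k2,k2,k2,k0,k0,k1,k1,k4,k4] k0 [[k0,k0,k0,k0,k0,k0,k0,k0,k0,k2],[],[],[],[],
    [k0,k0,k0,k0,k0,k0,k0,k0,k2],[],[],[k0,k2],[k0,k0,k0,k0,k2]] k48 k5
    [[(k1,k12),(k10,k12),(k9,k15),(k6,k16)],[(k8,k13),(k3,k14),(k5,k14),(k7,k16)],[(k0,k14),(k2,k16),(k4,k16),(k11,
    k16)],[(k3,k16),(k5,k16),(k8,k17),(k7,k18)],[(k0,k14),(k11,k14),(k2,k16),(k4,k16)],[(k3,k16),(k5,k16),(k7,k18),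
    (k8,k19)],[(k11,k14),(k0,k16),(k2,k18),(k4,k18)],[(k1,k16),(k10,k16),(k9,k19),(k6,k20)],[(k1,k15),(k10,k15),(k9,
    k18),(k6,k19)],[(k0,k13),(k11,k15),(k2,k17),(k4,k19)],[(k5,k14),(k7,k14),(k8,k15),(k3,k16)],[(k1,k12),(k10,k12),
    (k9,k15),(k6,k16)]]
    [] k0
    [[k1,k1,k0,k0,k1,k0]]
    [.ref k0 k0 [(z1,[z1])]]]⟩

/-- classes `0 0 0 1 0 1`, types `C0 C0 C2 B0 C0 B1` -/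
noncomputable def cT6_356 : CertT :=
  ⟨[k4,k4,k6,k24,k4,k25],[(false,k0,[k0,k1,k2,k3,k4,k5])],[[[([z1,z0,z1,z0,z1,z0],z2)],[]]],
    [.leafM k5 [k0,k1,k2,k3,k4,k5] [(z1,[y1,z1]),(z1,[z1])] [],
    .lp [k12,k8,k8,k4,k4,k10] [k0,k0,k2,k2,k2,k2,k4,k4,k4,k4,k1,k1] k0 [[k0,k0,k0,k0,k0,k0,k0,k0,k2],[],[],[],[],[],[],[],
    [],[k0,k2]] k24 k5
    [[(k6,k8),(k9,k8)],[(k11,k9),(k3,k10),(k4,k10),(k5,k10)],[(k7,k6),(k2,k8),(k8,k8),(k0,k10)],[(k3,k8),(k4,k8),(k5,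
    k8),(k11,k9)],[(k7,k6),(k8,k6),(k2,k8),(k0,k10)],[(k7,k6),(k8,k6),(k2,k8),(k0,k10)],[(k3,k6),(k4,k6),(k5,k6),(k11,
    k7)],[(k10,k7),(k1,k8)],[(k10,k7),(k1,k8)],[(k4,k6),(k5,k6),(k11,k7),(k3,k8)],[(k7,k7),(k8,k7),(k0,k9),(k2,k9)],
    [(k6,k7),(k9,k7)]]
    [] k0
    [[k0,k1,k0,k1,k0,k1]]
    [.ref k0 k0 [(z1,[y1,z1])]]]⟩

/-- classes `0 0 0 1 0 1`, types `C0 C0 C2 B0 C2 B1` -/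
noncomputable def cT6_357 : CertT :=
  ⟨[k4,k4,k6,k24,k6,k25],[(false,k0,[k0,k1,k2,k3,k4,k5])],[[[([z1,z1,z0,z0,z1,z0],z2)],[]]],
    [.leafM k3 [k3,k4,k5,k0,k1,k2] [(z1,[z1])] [],
    .lp [k22,k18,k6,k20,k6,k22] [k0,k0,k2,k2,k8,k8,k1,k1,k8,k8,k0,k0] k0 [[k0,k0,k0,k0,k0,k0,k0,k0,k0,k2],[],[],[],[],[],
    [],[],[k0,k2]] k48 k5
    [[(k9,k14),(k6,k21)],[(k8,k12),(k4,k14),(k5,k14),(k3,k20)],[(k2,k18),(k7,k19),(k0,k20),(k11,k22)],[(k4,k12),(k5,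
    k12),(k8,k12),(k3,k18)],[(k2,k12),(k7,k13),(k0,k14),(k11,k14)],[(k2,k12),(k7,k13),(k0,k14),(k11,k14)],[(k4,k13),
    (k5,k13),(k8,k13),(k3,k19)],[(k1,k21),(k10,k21)],[(k1,k14),(k10,k14)],[(k0,k12),(k2,k12),(k7,k13),(k11,k14)],[(k4,
    k14),(k5,k14),(k8,k14),(k3,k22)],[(k9,k14),(k6,k21)]]
    [] k0
    [[k1,k1,k0,k0,k1,k0]]
    [.ref k0 k0 [(z1,[z1])]]]⟩

/-- classes `0 0 0 1 0 1`, types `C0 C0 C2 C0 C0 C0` -/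
noncomputable def cT6_358 : CertT :=
  ⟨[k4,k4,k6,k20,k4,k20],[(false,k0,[k0,k1,k2,k3,k4,k5])],[[[([z1,z1,z0,z0,z0,z1],z2)],[]]],
    [.leafM k0 [k1,k2,k3,k4,k5,k0] [(z1,[y1,z1])] [],
    .lp [k24,k18,k6,k18,k18,k8] [k0,k0,k3,k3,k9,k9,k3,k3,k3,k3,k8,k8] k0 [[k0,k0,k0,k0,k0,k0,k0,k0,k4],[],[],[],[],[],[],
    [],[],[k0,k4]] k48 k5
    [[(k10,k16),(k6,k21)],[(k11,k12),(k4,k15),(k5,k15),(k3,k21)],[(k2,k18),(k7,k18),(k0,k21),(k8,k22)],[(k4,k12),(k5,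
    k12),(k11,k13),(k3,k18)],[(k2,k12),(k7,k12),(k8,k12),(k0,k15)],[(k2,k12),(k7,k12),(k8,k12),(k0,k15)],[(k4,k12),
    (k5,k12),(k11,k13),(k3,k18)],[(k9,k18),(k1,k21)],[(k10,k13),(k6,k18)],[(k4,k12),(k5,k12),(k11,k13),(k3,k22)],[(k0,
    k12),(k2,k13),(k7,k13),(k8,k13)],[(k9,k13),(k1,k16)]]
    [] k0
    [[k0,k0,k1,k1,k1,k0]]
    [.ref k0 k0 [(z1,[y1,z1])]]]⟩

/-- classes `0 0 0 1 0 1`, types `C0 C0 C2 C0 C0 C2` -/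
noncomputable def cT6_359 : CertT :=
  ⟨[k4,k4,k6,k20,k4,k22],[(false,k0,[k0,k1,k2,k3,k4,k5])],[[[([z1,z0,z1,z0,z1,z0],z2)],[([z1,z1,z0,z0,z0,z1],z2)],
    []]],
    [.leafM k5 [k0,k1,k2,k3,k4,k5] [(z1,[y1,z1]),(z1,[z1])] [],
    .leafM k0 [k1,k2,k3,k4,k5,k0] [(z1,[y1,z1])] [],
    .lp [k6,k4,k2,k4,k4,k2] [k0,k0,k1,k1,k2,k2,k1,k1,k1,k1,k2,k2] k0 [] k12 k5
    [[(k10,k4),(k9,k5)],[(k4,k4),(k5,k4),(k11,k4),(k3,k5)],[(k2,k4),(k7,k4),(k8,k4),(k0,k5)],[(k4,k3),(k5,k3),(k11,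
    k3),(k3,k4)],[(k2,k3),(k7,k3),(k8,k3),(k0,k4)],[(k2,k3),(k7,k3),(k8,k3),(k0,k4)],[(k4,k3),(k5,k3),(k11,k3),(k3,
    k4)],[(k10,k3),(k9,k4)],[(k6,k4),(k1,k5)],[(k4,k3),(k5,k3),(k11,k3),(k3,k4)],[(k2,k3),(k7,k3),(k8,k3),(k0,k4)],
    [(k6,k3),(k1,k4)]]
    [] k0
    [[k0,k1,k0,k1,k0,k1],[k0,k0,k1,k1,k1,k0]]
    [.ref k0 k0 [(z1,[y1,z1])],.ref k1 k0 [(z1,[y1,z1])]]]⟩

/-- classes `0 0 0 1 0 1`, types `C0 C0 C2 C0 C2 C0` -/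
noncomputable def cT6_360 : CertT :=
  ⟨[k4,k4,k6,k20,k6,k20],[(false,k0,[k0,k1,k2,k3,k4,k5])],[[[([z1,z0,z1,z0,z0,z1],z2)],[]]],
    [.leafM k3 [k0,k1,k2,k3,k4,k5] [(z1,[y1,z1])] [],
    .lp [k24,k18,k6,k18,k8,k18] [k0,k0,k3,k3,k9,k9,k3,k3,k8,k8,k3,k3] k0 [[k0,k0,k0,k0,k0,k0,k0,k0,k0,k4],[],[],[],[],[],
    [],[],[k0,k4]] k48 k5
    [[(k6,k21),(k10,k21)],[(k8,k12),(k4,k15),(k5,k15),(k3,k21)],[(k2,k18),(k7,k18),(k0,k21),(k11,k22)],[(k4,k12),(k5,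
    k12),(k8,k13),(k3,k18)],[(k2,k12),(k7,k12),(k11,k12),(k0,k15)],[(k2,k12),(k7,k12),(k11,k12),(k0,k15)],[(k4,k12),
    (k5,k12),(k8,k13),(k3,k18)],[(k9,k13),(k1,k21)],[(k6,k13),(k10,k13)],[(k0,k12),(k2,k13),(k7,k13),(k11,k13)],[(k4,
    k12),(k5,k12),(k8,k13),(k3,k22)],[(k9,k13),(k1,k21)]]
    [] k0
    [[k0,k1,k0,k1,k1,k0]]
    [.ref k0 k0 [(z1,[y1,z1])]]]⟩

/-- classes `0 0 0 1 0 1`, types `C0 C0 C2 C0 C2 C2` -/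
noncomputable def cT6_361 : CertT :=
  ⟨[k4,k4,k6,k20,k6,k22],[(false,k0,[k0,k1,k2,k3,k4,k5])],[[[([z1,z0,z1,z0,z0,z1],z2)],[([z1,z1,z0,z0,z1,z0],z2)],
    []]],
    [.leafM k3 [k0,k1,k2,k3,k4,k5] [(z1,[y1,z1])] [],
    .leafM k3 [k3,k4,k5,k0,k1,k2] [(z1,[z1])] [],
    .lp [k6,k4,k2,k4,k2,k4] [k0,k0,k1,k1,k2,k2,k1,k1,k2,k2,k1,k1] k0 [] k12 k5
    [[(k9,k4),(k10,k5)],[(k4,k4),(k5,k4),(k8,k4),(k3,k5)],[(k2,k4),(k7,k4),(k11,k4),(k0,k5)],[(k4,k3),(k5,k3),(k8,k3),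
    (k3,k4)],[(k2,k3),(k7,k3),(k11,k3),(k0,k4)],[(k2,k3),(k7,k3),(k11,k3),(k0,k4)],[(k4,k3),(k5,k3),(k8,k3),(k3,k4)],
    [(k9,k3),(k10,k4)],[(k6,k3),(k1,k4)],[(k2,k3),(k7,k3),(k11,k3),(k0,k4)],[(k4,k3),(k5,k3),(k8,k3),(k3,k4)],[(k6,
    k4),(k1,k5)]]
    [] k0
    [[k0,k1,k0,k1,k1,k0],[k0,k0,k1,k1,k0,k1]]
    [.ref k0 k0 [(z1,[y1,z1])],.ref k1 k0 [(z1,[y1,z1])]]]⟩

/-- classes `0 0 0 1 0 1`, types `C0 C0 C2 N0 C0 N1` -/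
noncomputable def cT6_362 : CertT :=
  ⟨[k4,k4,k6,k28,k4,k29],[],[[[]]],
    [.lp [k24,k18,k6,k18,k18,k8] [k0,k0,k3,k3,k9,k9,k3,k3,k3,k3,k8,k8] k0 [[k0,k0,k0,k0,k0,k0,k0,k0,k4],[],[],[],[],[],[],
    [],[],[k0,k4]] k48 k5
    [[(k6,k21)],[(k11,k12),(k4,k15),(k5,k15),(k3,k21)],[(k2,k18),(k7,k18),(k0,k21),(k8,k22)],[(k4,k12),(k5,k12),(k11,
    k13),(k3,k18)],[(k2,k12),(k7,k12),(k8,k12),(k0,k15)],[(k2,k12),(k7,k12),(k8,k12),(k0,k15)],[(k4,k12),(k5,k12),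
    (k11,k13),(k3,k18)],[(k1,k21)],[(k10,k13)],[(k4,k12),(k5,k12),(k11,k13),(k3,k22)],[(k0,k12),(k2,k13),(k7,k13),(k8,
    k13)],[(k9,k13)]]
    [] k0
    []
    []]⟩

/-- classes `0 0 0 1 0 1`, types `C0 C0 C2 N0 C0 N2` -/
noncomputable def cT6_363 : CertT :=
  ⟨[k4,k4,k6,k28,k4,k30],[(false,k0,[k0,k1,k2,k3,k4,k5])],[[[([z1,z0,z1,z0,z1,z0],z2)],[]]],
    [.leafM k5 [k0,k1,k2,k3,k4,k5] [(z1,[y1,z1]),(z1,[z1])] [],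
    .lp [k6,k4,k2,k4,k4,k2] [k0,k0,k1,k1,k2,k2,k1,k1,k1,k1,k2,k2] k0 [] k12 k5
    [[(k9,k5)],[(k4,k4),(k5,k4),(k11,k4),(k3,k5)],[(k2,k4),(k7,k4),(k8,k4),(k0,k5)],[(k4,k3),(k5,k3),(k11,k3),(k3,
    k4)],[(k2,k3),(k7,k3),(k8,k3),(k0,k4)],[(k2,k3),(k7,k3),(k8,k3),(k0,k4)],[(k4,k3),(k5,k3),(k11,k3),(k3,k4)],[(k10,
    k3)],[(k1,k5)],[(k4,k3),(k5,k3),(k11,k3),(k3,k4)],[(k2,k3),(k7,k3),(k8,k3),(k0,k4)],[(k6,k3)]]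
    [] k0
    [[k0,k1,k0,k1,k0,k1]]
    [.ref k0 k0 [(z1,[y1,z1])]]]⟩

/-- classes `0 0 0 1 0 1`, types `C0 C0 C2 N0 C2 N1` -/
noncomputable def cT6_364 : CertT :=
  ⟨[k4,k4,k6,k28,k6,k29],[],[[[]]],
    [.lp [k24,k18,k6,k18,k8,k18] [k0,k0,k3,k3,k9,k9,k3,k3,k8,k8,k3,k3] k0 [[k0,k0,k0,k0,k0,k0,k0,k0,k0,k4],[],[],[],[],[],
    [],[],[k0,k4]] k48 k5
    [[(k6,k21)],[(k8,k12),(k4,k15),(k5,k15),(k3,k21)],[(k2,k18),(k7,k18),(k0,k21),(k11,k22)],[(k4,k12),(k5,k12),(k8,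
    k13),(k3,k18)],[(k2,k12),(k7,k12),(k11,k12),(k0,k15)],[(k2,k12),(k7,k12),(k11,k12),(k0,k15)],[(k4,k12),(k5,k12),
    (k8,k13),(k3,k18)],[(k1,k21)],[(k10,k13)],[(k0,k12),(k2,k13),(k7,k13),(k11,k13)],[(k4,k12),(k5,k12),(k8,k13),(k3,
    k22)],[(k9,k13)]]
    [] k0
    []
    []]⟩

/-- classes `0 0 0 1 0 1`, types `C0 C0 C2 N0 C2 N2` -/
noncomputable def cT6_365 : CertT :=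
  ⟨[k4,k4,k6,k28,k6,k30],[(false,k0,[k0,k1,k2,k3,k4,k5])],[[[([z1,z1,z0,z0,z1,z0],z2)],[]]],
    [.leafM k3 [k3,k4,k5,k0,k1,k2] [(z1,[z1])] [],
    .lp [k4,k4,k2,k4,k2,k6] [k1,k1,k1,k1,k2,k2,k1,k1,k2,k2,k0,k0] k0 [] k12 k5
    [[(k9,k3)],[(k4,k3),(k5,k3),(k8,k3),(k3,k4)],[(k0,k4),(k2,k4),(k7,k4),(k11,k5)],[(k4,k3),(k5,k3),(k8,k3),(k3,k4)],
    [(k0,k3),(k2,k3),(k7,k3),(k11,k4)],[(k0,k3),(k2,k3),(k7,k3),(k11,k4)],[(k4,k3),(k5,k3),(k8,k3),(k3,k4)],[(k10,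
    k5)],[(k1,k3)],[(k0,k3),(k2,k3),(k7,k3),(k11,k4)],[(k4,k4),(k5,k4),(k8,k4),(k3,k5)],[(k6,k5)]]
    [] k0
    [[k1,k1,k0,k0,k1,k0]]
    [.ref k0 k0 [(z1,[z1])]]]⟩

/-- classes `0 0 0 1 0 1`, types `C0 C0 C2 S0 C0 S0` -/
noncomputable def cT6_366 : CertT :=
  ⟨[k4,k4,k6,k16,k4,k16],[(false,k0,[k0,k1,k2,k3,k4,k5])],[[[([z1,z1,z0,z0,z0,z1],z2)],[([z1,z0,z1,z0,z1,z0],z2)],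
    []]],
    [.leafM k0 [k1,k2,k3,k4,k5,k0] [(z1,[y1,z1])] [],
    .leafM k5 [k0,k1,k2,k3,k4,k5] [(z1,[y1,z1]),(z1,[z1])] [],
    .lp [k18,k16,k12,k18,k18,k12] [k0,k0,k1,k1,k3,k3,k0,k0,k0,k0,k3,k3] k0 [[k0,k0,k0,k0,k0,k0,k0,k0,k2],[],[],[],[],[],
    [],[],[],[k0,k2]] k48 k5
    [[(k10,k15),(k1,k18),(k6,k18),(k9,k18)],[(k11,k13),(k4,k15),(k5,k15),(k3,k17)],[(k2,k16),(k0,k17),(k7,k17),(k8,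
    k19)],[(k4,k14),(k5,k14),(k11,k14),(k3,k16)],[(k2,k14),(k0,k15),(k7,k15),(k8,k15)],[(k2,k14),(k0,k15),(k7,k15),
    (k8,k15)],[(k4,k15),(k5,k15),(k11,k15),(k3,k17)],[(k10,k15),(k1,k18),(k6,k18),(k9,k18)],[(k10,k15),(k1,k18),(k6,
    k18),(k9,k18)],[(k4,k15),(k5,k15),(k11,k15),(k3,k19)],[(k0,k13),(k2,k14),(k7,k15),(k8,k15)],[(k10,k12),(k1,k15),
    (k6,k15),(k9,k15)]]
    [] k0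
    [[k1,k1,k0,k0,k0,k1],[k0,k1,k0,k1,k0,k1]]
    [.ref k0 k0 [(z1,[z1])],.ref k1 k0 [(z1,[y1,z1])]]]⟩

/-- classes `0 0 0 1 0 1`, types `C0 C0 C2 S0 C2 S0` -/
noncomputable def cT6_367 : CertT :=
  ⟨[k4,k4,k6,k16,k6,k16],[(false,k0,[k0,k1,k2,k3,k4,k5])],[[[([z1,z1,z0,z0,z1,z0],z2)],[([z1,z0,z1,z0,z0,z1],z2)],
    []]],
    [.leafM k3 [k3,k4,k5,k0,k1,k2] [(z1,[z1])] [],
    .leafM k3 [k0,k1,k2,k3,k4,k5] [(z1,[y1,z1])] [],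
    .lp [k18,k16,k12,k18,k12,k18] [k0,k0,k1,k1,k3,k3,k0,k0,k3,k3,k0,k0] k0 [[k0,k0,k0,k0,k0,k0,k0,k0,k0,k2],[],[],[],[],
    [],[],[],[k0,k2]] k48 k5
    [[(k9,k15),(k1,k18),(k6,k18),(k10,k18)],[(k8,k13),(k4,k15),(k5,k15),(k3,k17)],[(k2,k16),(k0,k17),(k7,k17),(k11,
    k19)],[(k4,k14),(k5,k14),(k8,k14),(k3,k16)],[(k2,k14),(k0,k15),(k7,k15),(k11,k15)],[(k2,k14),(k0,k15),(k7,k15),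
    (k11,k15)],[(k4,k15),(k5,k15),(k8,k15),(k3,k17)],[(k9,k15),(k1,k18),(k6,k18),(k10,k18)],[(k9,k12),(k1,k15),(k6,
    k15),(k10,k15)],[(k0,k13),(k2,k14),(k7,k15),(k11,k15)],[(k4,k15),(k5,k15),(k8,k15),(k3,k19)],[(k9,k15),(k1,k18),
    (k6,k18),(k10,k18)]]
    [] k0
    [[k1,k1,k0,k0,k1,k0],[k0,k1,k0,k1,k1,k0]]
    [.ref k0 k0 [(z1,[z1])],.ref k1 k0 [(z1,[y1,z1])]]]⟩

/-- classes `0 0 0 1 0 1`, types `C0 C2 C0 B0 C0 B1` -/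
noncomputable def cT6_368 : CertT :=
  ⟨[k4,k6,k4,k24,k4,k25],[(false,k0,[k0,k1,k2,k3,k4,k5])],[[[([z1,z1,z0,z0,z1,z0],z2)],[]]],
    [.leafM k3 [k3,k4,k5,k0,k1,k2] [(z1,[z1])] [],
    .lp [k4,k2,k2,k2,k2,k2] [k0,k0,k1,k1,k1,k1,k1,k1,k1,k1,k1,k1] k0 [] k8 k5
    [[(k6,k3),(k9,k3)],[(k2,k3),(k3,k3),(k7,k3),(k11,k3)],[(k4,k2),(k5,k2),(k8,k2),(k0,k3)],[(k4,k2),(k5,k2),(k8,k2),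
    (k0,k3)],[(k2,k2),(k3,k2),(k7,k2),(k11,k2)],[(k2,k2),(k3,k2),(k7,k2),(k11,k2)],[(k4,k2),(k5,k2),(k8,k2),(k0,k3)],
    [(k10,k2),(k1,k3)],[(k10,k2),(k1,k3)],[(k2,k2),(k3,k2),(k7,k2),(k11,k2)],[(k4,k2),(k5,k2),(k8,k2),(k0,k3)],[(k6,
    k2),(k9,k2)]]
    [] k0
    [[k0,k0,k1,k1,k0,k1]]
    [.ref k0 k0 [(z1,[y1,z1])]]]⟩

/-- classes `0 0 0 1 0 1`, types `C0 C2 C0 B0 C2 B1` -/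
noncomputable def cT6_369 : CertT :=
  ⟨[k4,k6,k4,k24,k6,k25],[],[[[]]],
    [.lp [k2,k0,k2,k0,k0,k2] [k0,k0,k1,k1,k0,k0,k1,k1,k1,k1,k0,k0] k0 [] k4 k5
    [[(k6,k1),(k9,k1)],[(k2,k1),(k3,k1),(k7,k1),(k8,k1)],[(k0,k1),(k4,k1),(k5,k1),(k11,k1)],[(k0,k1),(k4,k1),(k5,k1),
    (k11,k1)],[(k2,k1),(k3,k1),(k7,k1),(k8,k1)],[(k2,k1),(k3,k1),(k7,k1),(k8,k1)],[(k0,k1),(k4,k1),(k5,k1),(k11,k1)],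
    [(k1,k1),(k10,k1)],[(k1,k1),(k10,k1)],[(k0,k1),(k4,k1),(k5,k1),(k11,k1)],[(k2,k1),(k3,k1),(k7,k1),(k8,k1)],[(k6,
    k1),(k9,k1)]]
    [] k0
    []
    []]⟩

/-- classes `0 0 0 1 0 1`, types `C0 C2 C0 C0 C0 C0` -/
noncomputable def cT6_370 : CertT :=
  ⟨[k4,k6,k4,k20,k4,k20],[],[[[]]],
    [.lp [k0,k2,k0,k2,k0,k2] [k1,k1,k0,k0,k1,k1,k0,k0,k1,k1,k0,k0] k0 [] k4 k5
    [[(k6,k1),(k10,k1)],[(k2,k1),(k3,k1),(k7,k1),(k11,k1)],[(k0,k1),(k4,k1),(k5,k1),(k8,k1)],[(k0,k1),(k4,k1),(k5,k1),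
    (k8,k1)],[(k2,k1),(k3,k1),(k7,k1),(k11,k1)],[(k2,k1),(k3,k1),(k7,k1),(k11,k1)],[(k0,k1),(k4,k1),(k5,k1),(k8,k1)],
    [(k1,k1),(k9,k1)],[(k6,k1),(k10,k1)],[(k2,k1),(k3,k1),(k7,k1),(k11,k1)],[(k0,k1),(k4,k1),(k5,k1),(k8,k1)],[(k1,
    k1),(k9,k1)]]
    [] k0
    []
    []]⟩

/-- classes `0 0 0 1 0 1`, types `C0 C2 C0 C0 C0 C2` -/
noncomputable def cT6_371 : CertT :=
  ⟨[k4,k6,k4,k20,k4,k22],[(false,k0,[k0,k1,k2,k3,k4,k5])],[[[([z1,z1,z0,z0,z1,z0],z2)],[]]],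
    [.leafM k3 [k3,k4,k5,k0,k1,k2] [(z1,[z1])] [],
    .lp [k4,k2,k2,k2,k2,k2] [k0,k0,k1,k1,k1,k1,k1,k1,k1,k1,k1,k1] k0 [] k8 k5
    [[(k9,k3),(k10,k3)],[(k2,k3),(k3,k3),(k7,k3),(k11,k3)],[(k4,k2),(k5,k2),(k8,k2),(k0,k3)],[(k4,k2),(k5,k2),(k8,k2),
    (k0,k3)],[(k2,k2),(k3,k2),(k7,k2),(k11,k2)],[(k2,k2),(k3,k2),(k7,k2),(k11,k2)],[(k4,k2),(k5,k2),(k8,k2),(k0,k3)],
    [(k9,k2),(k10,k2)],[(k6,k2),(k1,k3)],[(k2,k2),(k3,k2),(k7,k2),(k11,k2)],[(k4,k2),(k5,k2),(k8,k2),(k0,k3)],[(k6,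
    k2),(k1,k3)]]
    [] k0
    [[k0,k0,k1,k1,k0,k1]]
    [.ref k0 k0 [(z1,[y1,z1])]]]⟩

/-- classes `0 0 0 1 0 1`, types `C0 C2 C0 C0 C2 C0` -/
noncomputable def cT6_372 : CertT :=
  ⟨[k4,k6,k4,k20,k6,k20],[(false,k0,[k0,k1,k2,k3,k4,k5])],[[[([z1,z1,z0,z0,z0,z1],z2)],[]]],
    [.leafM k0 [k1,k2,k3,k4,k5,k0] [(z1,[y1,z1])] [],
    .lp [k4,k2,k2,k2,k2,k2] [k0,k0,k1,k1,k1,k1,k1,k1,k1,k1,k1,k1] k0 [] k8 k5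
    [[(k6,k3),(k10,k3)],[(k2,k3),(k3,k3),(k7,k3),(k8,k3)],[(k4,k2),(k5,k2),(k11,k2),(k0,k3)],[(k4,k2),(k5,k2),(k11,
    k2),(k0,k3)],[(k2,k2),(k3,k2),(k7,k2),(k8,k2)],[(k2,k2),(k3,k2),(k7,k2),(k8,k2)],[(k4,k2),(k5,k2),(k11,k2),(k0,
    k3)],[(k9,k2),(k1,k3)],[(k6,k2),(k10,k2)],[(k4,k2),(k5,k2),(k11,k2),(k0,k3)],[(k2,k2),(k3,k2),(k7,k2),(k8,k2)],
    [(k9,k2),(k1,k3)]]
    [] k0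
    [[k0,k0,k1,k1,k1,k0]]
    [.ref k0 k0 [(z1,[y1,z1])]]]⟩

/-- classes `0 0 0 1 0 1`, types `C0 C2 C0 C0 C2 C2` -/
noncomputable def cT6_373 : CertT :=
  ⟨[k4,k6,k4,k20,k6,k22],[(false,k0,[k0,k1,k2,k3,k4,k5])],[[[([z1,z1,z0,z0,z0,z1],z2)],[]]],
    [.leafM k0 [k1,k2,k3,k4,k5,k0] [(z1,[y1,z1])] [],
    .lp [k4,k2,k2,k2,k2,k2] [k0,k0,k1,k1,k1,k1,k1,k1,k1,k1,k1,k1] k0 [] k8 k5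
    [[(k9,k3),(k10,k3)],[(k2,k3),(k3,k3),(k7,k3),(k8,k3)],[(k4,k2),(k5,k2),(k11,k2),(k0,k3)],[(k4,k2),(k5,k2),(k11,
    k2),(k0,k3)],[(k2,k2),(k3,k2),(k7,k2),(k8,k2)],[(k2,k2),(k3,k2),(k7,k2),(k8,k2)],[(k4,k2),(k5,k2),(k11,k2),(k0,
    k3)],[(k9,k2),(k10,k2)],[(k6,k2),(k1,k3)],[(k4,k2),(k5,k2),(k11,k2),(k0,k3)],[(k2,k2),(k3,k2),(k7,k2),(k8,k2)],
    [(k6,k2),(k1,k3)]]
    [] k0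
    [[k0,k0,k1,k1,k1,k0]]
    [.ref k0 k0 [(z1,[y1,z1])]]]⟩

/-- classes `0 0 0 1 0 1`, types `C0 C2 C0 N0 C0 N1` -/
noncomputable def cT6_374 : CertT :=
  ⟨[k4,k6,k4,k28,k4,k29],[],[[[]]],
    [.lp [k0,k2,k0,k2,k0,k2] [k1,k1,k0,k0,k1,k1,k0,k0,k1,k1,k0,k0] k0 [] k4 k5
    [[(k6,k1)],[(k2,k1),(k3,k1),(k7,k1),(k11,k1)],[(k0,k1),(k4,k1),(k5,k1),(k8,k1)],[(k0,k1),(k4,k1),(k5,k1),(k8,k1)],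
    [(k2,k1),(k3,k1),(k7,k1),(k11,k1)],[(k2,k1),(k3,k1),(k7,k1),(k11,k1)],[(k0,k1),(k4,k1),(k5,k1),(k8,k1)],[(k1,k1)],
    [(k10,k1)],[(k2,k1),(k3,k1),(k7,k1),(k11,k1)],[(k0,k1),(k4,k1),(k5,k1),(k8,k1)],[(k9,k1)]]
    [] k0
    []
    []]⟩

/-- classes `0 0 0 1 0 1`, types `C0 C2 C0 N0 C0 N2` -/
noncomputable def cT6_375 : CertT :=
  ⟨[k4,k6,k4,k28,k4,k30],[(false,k0,[k0,k1,k2,k3,k4,k5])],[[[([z1,z1,z0,z0,z1,z0],z2)],[]]],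
    [.leafM k3 [k3,k4,k5,k0,k1,k2] [(z1,[z1])] [],
    .lp [k4,k2,k2,k2,k2,k2] [k0,k0,k1,k1,k1,k1,k1,k1,k1,k1,k1,k1] k0 [] k8 k5
    [[(k9,k3)],[(k2,k3),(k3,k3),(k7,k3),(k11,k3)],[(k4,k2),(k5,k2),(k8,k2),(k0,k3)],[(k4,k2),(k5,k2),(k8,k2),(k0,k3)],
    [(k2,k2),(k3,k2),(k7,k2),(k11,k2)],[(k2,k2),(k3,k2),(k7,k2),(k11,k2)],[(k4,k2),(k5,k2),(k8,k2),(k0,k3)],[(k10,
    k2)],[(k1,k3)],[(k2,k2),(k3,k2),(k7,k2),(k11,k2)],[(k4,k2),(k5,k2),(k8,k2),(k0,k3)],[(k6,k2)]]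
    [] k0
    [[k0,k0,k1,k1,k0,k1]]
    [.ref k0 k0 [(z1,[y1,z1])]]]⟩

/-- classes `0 0 0 1 0 1`, types `C0 C2 C0 N0 C2 N1` -/
noncomputable def cT6_376 : CertT :=
  ⟨[k4,k6,k4,k28,k6,k29],[],[[[]]],
    [.lp [k0,k2,k0,k2,k2,k0] [k1,k1,k0,k0,k1,k1,k0,k0,k0,k0,k1,k1] k0 [] k4 k5
    [[(k6,k1)],[(k2,k1),(k3,k1),(k7,k1),(k8,k1)],[(k0,k1),(k4,k1),(k5,k1),(k11,k1)],[(k0,k1),(k4,k1),(k5,k1),(k11,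
    k1)],[(k2,k1),(k3,k1),(k7,k1),(k8,k1)],[(k2,k1),(k3,k1),(k7,k1),(k8,k1)],[(k0,k1),(k4,k1),(k5,k1),(k11,k1)],[(k1,
    k1)],[(k10,k1)],[(k0,k1),(k4,k1),(k5,k1),(k11,k1)],[(k2,k1),(k3,k1),(k7,k1),(k8,k1)],[(k9,k1)]]
    [] k0
    []
    []]⟩

/-- classes `0 0 0 1 0 1`, types `C0 C2 C0 N0 C2 N2` -/
noncomputable def cT6_377 : CertT :=
  ⟨[k4,k6,k4,k28,k6,k30],[],[[[]]],
    [.lp [k0,k2,k0,k2,k2,k0] [k1,k1,k0,k0,k1,k1,k0,k0,k0,k0,k1,k1] k0 [] k4 k5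
    [[(k9,k1)],[(k2,k1),(k3,k1),(k7,k1),(k8,k1)],[(k0,k1),(k4,k1),(k5,k1),(k11,k1)],[(k0,k1),(k4,k1),(k5,k1),(k11,
    k1)],[(k2,k1),(k3,k1),(k7,k1),(k8,k1)],[(k2,k1),(k3,k1),(k7,k1),(k8,k1)],[(k0,k1),(k4,k1),(k5,k1),(k11,k1)],[(k10,
    k1)],[(k1,k1)],[(k0,k1),(k4,k1),(k5,k1),(k11,k1)],[(k2,k1),(k3,k1),(k7,k1),(k8,k1)],[(k6,k1)]]
    [] k0
    []
    []]⟩

/-- classes `0 0 0 1 0 1`, types `C0 C2 C0 S0 C0 S0` -/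
noncomputable def cT6_378 : CertT :=
  ⟨[k4,k6,k4,k16,k4,k16],[(false,k0,[k0,k1,k2,k3,k4,k5])],[[[([z1,z1,z0,z0,z1,z0],z2)],[]]],
    [.leafM k3 [k3,k4,k5,k0,k1,k2] [(z1,[z1])] [],
    .lp [k6,k8,k12,k6,k8,k6] [k3,k3,k2,k2,k0,k0,k3,k3,k2,k2,k3,k3] k0 [[],[k0,k0,k4],[],[k4]] k24 k5
    [[(k1,k6),(k6,k6),(k10,k6),(k9,k7)],[(k7,k6),(k11,k6),(k3,k7),(k2,k11)],[(k5,k6),(k0,k7),(k8,k8),(k4,k10)],[(k8,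
    k8),(k4,k10),(k5,k10),(k0,k11)],[(k3,k6),(k7,k9),(k11,k9),(k2,k10)],[(k7,k9),(k11,k9),(k2,k10),(k3,k10)],[(k0,k6),
    (k8,k7),(k4,k9),(k5,k9)],[(k1,k6),(k6,k6),(k10,k6),(k9,k7)],[(k1,k7),(k6,k7),(k10,k7),(k9,k8)],[(k7,k7),(k11,k7),
    (k2,k8),(k3,k8)],[(k0,k6),(k8,k7),(k4,k9),(k5,k9)],[(k1,k6),(k6,k6),(k10,k6),(k9,k7)]]
    [] k0
    [[k1,k1,k0,k0,k1,k0]]
    [.ref k0 k0 [(z1,[z1])]]]⟩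

/-- classes `0 0 0 1 0 1`, types `C0 C2 C0 S0 C2 S0` -/
noncomputable def cT6_379 : CertT :=
  ⟨[k4,k6,k4,k16,k6,k16],[(false,k0,[k0,k1,k2,k3,k4,k5])],[[[([z1,z1,z0,z0,z0,z1],z2)],[]]],
    [.leafM k0 [k1,k2,k3,k4,k5,k0] [(z1,[y1,z1])] [],
    .lp [k6,k8,k12,k6,k6,k8] [k3,k3,k2,k2,k0,k0,k3,k3,k3,k3,k2,k2] k0 [[],[k0,k0,k4],[],[k4]] k24 k5
    [[(k1,k6),(k6,k6),(k9,k6),(k10,k7)],[(k7,k6),(k8,k6),(k3,k7),(k2,k11)],[(k5,k6),(k0,k7),(k11,k8),(k4,k10)],[(k11,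
    k8),(k4,k10),(k5,k10),(k0,k11)],[(k3,k6),(k7,k9),(k8,k9),(k2,k10)],[(k7,k9),(k8,k9),(k2,k10),(k3,k10)],[(k0,k6),
    (k11,k7),(k4,k9),(k5,k9)],[(k1,k6),(k6,k6),(k9,k6),(k10,k7)],[(k1,k6),(k6,k6),(k9,k6),(k10,k7)],[(k0,k6),(k11,k7),
    (k4,k9),(k5,k9)],[(k7,k7),(k8,k7),(k2,k8),(k3,k8)],[(k1,k7),(k6,k7),(k9,k7),(k10,k8)]]
    [] k0
    [[k1,k1,k0,k0,k0,k1]]
    [.ref k0 k0 [(z1,[z1])]]]⟩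

/-- classes `0 0 0 1 0 1`, types `N0 N0 N1 B0 N1 B1` -/
noncomputable def cT6_380 : CertT :=
  ⟨[k12,k12,k13,k24,k13,k25],[],[[[]]],
    [.lp [k18,k18,k16,k6,k8,k18] [k0,k0,k0,k0,k1,k1,k6,k6,k5,k5,k0,k0] k0 [[k0,k0,k0,k0,k0,k0,k0,k0,k4],[],[],[],[],[],[],
    [],[],[k0,k4]] k48 k5
    [[(k6,k12),(k9,k13)],[(k7,k12),(k11,k14)],[(k4,k17),(k8,k17)],[(k7,k12),(k11,k18)],[(k8,k12),(k4,k16)],[(k5,k16),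
    (k3,k17)],[(k0,k12),(k2,k12)],[(k1,k12),(k10,k12)],[(k1,k13),(k10,k13)],[(k5,k12),(k3,k17)],[(k0,k14),(k2,k18)],
    [(k6,k12),(k9,k13)]]
    [] k0
    []
    []]⟩

/-- classes `0 0 0 1 0 1`, types `N0 N0 N1 B0 N2 B1` -/
noncomputable def cT6_381 : CertT :=
  ⟨[k12,k12,k13,k24,k14,k25],[],[[[]]],
    [.lp [k6,k6,k4,k0,k0,k6] [k0,k0,k0,k0,k1,k1,k3,k3,k3,k3,k0,k0] k0 [] k12 k5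
    [[(k6,k3),(k9,k3)],[(k7,k3),(k8,k3)],[(k4,k5),(k11,k6)],[(k7,k3),(k8,k3)],[(k4,k4),(k11,k5)],[(k5,k4),(k3,k5)],
    [(k0,k3),(k2,k3)],[(k1,k3),(k10,k3)],[(k1,k3),(k10,k3)],[(k0,k3),(k2,k3)],[(k5,k5),(k3,k6)],[(k6,k3),(k9,k3)]]
    [] k0
    []
    []]⟩

/-- classes `0 0 0 1 0 1`, types `N0 N0 N1 C0 N1 C0` -/
noncomputable def cT6_382 : CertT :=
  ⟨[k12,k12,k13,k20,k13,k20],[],[[[]]],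
    [.lp [k2,k6,k4,k4,k2,k4] [k2,k2,k0,k0,k1,k1,k1,k1,k2,k2,k1,k1] k0 [] k12 k5
    [[(k6,k3),(k10,k3)],[(k7,k3),(k11,k3)],[(k8,k4),(k4,k5)],[(k7,k5),(k11,k5)],[(k8,k3),(k4,k4)],[(k5,k4),(k3,k5)],
    [(k0,k3),(k2,k5)],[(k1,k3),(k9,k3)],[(k6,k3),(k10,k3)],[(k5,k3),(k3,k4)],[(k0,k3),(k2,k5)],[(k1,k3),(k9,k3)]]
    [] k0
    []
    []]⟩

/-- classes `0 0 0 1 0 1`, types `N0 N0 N1 C0 N1 C2` -/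
noncomputable def cT6_383 : CertT :=
  ⟨[k12,k12,k13,k20,k13,k22],[],[[[]]],
    [.lp [k4,k6,k4,k4,k2,k2] [k1,k1,k0,k0,k1,k1,k1,k1,k2,k2,k2,k2] k0 [] k12 k5
    [[(k9,k3),(k10,k3)],[(k11,k3),(k7,k4)],[(k8,k4),(k4,k5)],[(k11,k4),(k7,k5)],[(k8,k3),(k4,k4)],[(k5,k4),(k3,k5)],
    [(k0,k4),(k2,k5)],[(k9,k3),(k10,k3)],[(k1,k3),(k6,k3)],[(k5,k3),(k3,k4)],[(k0,k3),(k2,k4)],[(k1,k3),(k6,k3)]]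
    [] k0
    []
    []]⟩

/-- classes `0 0 0 1 0 1`, types `N0 N0 N1 C0 N2 C0` -/
noncomputable def cT6_384 : CertT :=
  ⟨[k12,k12,k13,k20,k14,k20],[],[[[]]],
    [.lp [k6,k12,k6,k6,k6,k6] [k3,k3,k0,k0,k3,k3,k3,k3,k3,k3,k3,k3] k0 [[],[],[k0,k0,k0,k0,k2],[],[],[k0,k0,k0,k2]] k24 k5
    [[(k6,k6),(k10,k6)],[(k7,k6),(k8,k6)],[(k4,k9),(k11,k9)],[(k7,k7),(k8,k9)],[(k11,k6),(k4,k8)],[(k5,k8),(k3,k9)],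
    [(k0,k6),(k2,k7)],[(k1,k6),(k9,k6)],[(k6,k6),(k10,k6)],[(k0,k6),(k2,k9)],[(k5,k6),(k3,k9)],[(k1,k6),(k9,k6)]]
    [] k0
    []
    []]⟩

/-- classes `0 0 0 1 0 1`, types `N0 N0 N1 C0 N2 C2` -/
noncomputable def cT6_385 : CertT :=
  ⟨[k12,k12,k13,k20,k14,k22],[],[[[]]],
    [.lp [k4,k6,k4,k4,k2,k2] [k1,k1,k0,k0,k1,k1,k1,k1,k2,k2,k2,k2] k0 [] k12 k5
    [[(k9,k3),(k10,k3)],[(k8,k3),(k7,k4)],[(k11,k4),(k4,k5)],[(k8,k4),(k7,k5)],[(k11,k3),(k4,k4)],[(k5,k4),(k3,k5)],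
    [(k0,k4),(k2,k5)],[(k9,k3),(k10,k3)],[(k1,k3),(k6,k3)],[(k0,k3),(k2,k4)],[(k5,k3),(k3,k4)],[(k1,k3),(k6,k3)]]
    [] k0
    []
    []]⟩

/-- classes `0 0 0 1 0 1`, types `N0 N0 N1 N0 N1 N1` -/
noncomputable def cT6_386 : CertT :=
  ⟨[k12,k12,k13,k28,k13,k29],[],[[[]]],
    [.lp [k6,k12,k6,k6,k6,k6] [k3,k3,k0,k0,k3,k3,k3,k3,k3,k3,k3,k3] k0 [[],[],[k0,k0,k0,k0,k2],[],[],[k0,k0,k0,k2]] k24 k5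
    [[(k6,k6)],[(k7,k6),(k11,k6)],[(k4,k9),(k8,k9)],[(k7,k7),(k11,k9)],[(k8,k6),(k4,k8)],[(k5,k8),(k3,k9)],[(k0,k6),
    (k2,k7)],[(k1,k6)],[(k10,k6)],[(k5,k6),(k3,k9)],[(k0,k6),(k2,k9)],[(k9,k6)]]
    [] k0
    []
    []]⟩

/-- classes `0 0 0 1 0 1`, types `N0 N0 N1 N0 N1 N2` -/
noncomputable def cT6_387 : CertT :=
  ⟨[k12,k12,k13,k28,k13,k30],[],[[[]]],
    [.lp [k6,k6,k8,k6,k6,k6] [k1,k1,k1,k1,k0,k0,k1,k1,k1,k1,k1,k1] k0 [] k24 k5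
    [[(k9,k6)],[(k7,k6),(k11,k6)],[(k8,k6),(k4,k7)],[(k7,k6),(k11,k6)],[(k8,k7),(k4,k8)],[(k3,k7),(k5,k8)],[(k0,k6),
    (k2,k6)],[(k10,k6)],[(k1,k6)],[(k3,k6),(k5,k7)],[(k0,k6),(k2,k6)],[(k6,k6)]]
    [] k0
    []
    []]⟩

/-- classes `0 0 0 1 0 1`, types `N0 N0 N1 N0 N2 N1` -/
noncomputable def cT6_388 : CertT :=
  ⟨[k12,k12,k13,k28,k14,k29],[],[[[]]],
    [.lp [k8,k12,k6,k4,k4,k8] [k2,k2,k0,k0,k3,k3,k4,k4,k4,k4,k2,k2] k0 [[],[],[k0,k0,k0,k0,k2],[],[],[k0,k0,k0,k2]] k24 k5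
    [[(k6,k6)],[(k7,k6),(k8,k6)],[(k4,k9),(k11,k10)],[(k7,k6),(k8,k8)],[(k11,k7),(k4,k8)],[(k5,k8),(k3,k9)],[(k0,k6),
    (k2,k6)],[(k1,k6)],[(k10,k6)],[(k0,k6),(k2,k8)],[(k5,k7),(k3,k10)],[(k9,k6)]]
    [] k0
    []
    []]⟩

/-- classes `0 0 0 1 0 1`, types `N0 N0 N1 N0 N2 N2` -/
noncomputable def cT6_389 : CertT :=
  ⟨[k12,k12,k13,k28,k14,k30],[],[[[]]],
    [.lp [k6,k6,k4,k0,k0,k6] [k0,k0,k0,k0,k1,k1,k3,k3,k3,k3,k0,k0] k0 [] k12 k5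
    [[(k9,k3)],[(k7,k3),(k8,k3)],[(k4,k5),(k11,k6)],[(k7,k3),(k8,k3)],[(k4,k4),(k11,k5)],[(k5,k4),(k3,k5)],[(k0,k3),
    (k2,k3)],[(k10,k3)],[(k1,k3)],[(k0,k3),(k2,k3)],[(k5,k5),(k3,k6)],[(k6,k3)]]
    [] k0
    []
    []]⟩

/-- classes `0 0 0 1 0 1`, types `N0 N0 N1 S0 N1 S0` -/
noncomputable def cT6_390 : CertT :=
  ⟨[k12,k12,k13,k16,k13,k16],[],[[[]]],
    [.lp [k6,k6,k8,k6,k12,k6] [k3,k3,k3,k3,k2,k2,k3,k3,k0,k0,k3,k3] k0 [] k24 k5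
    [[(k1,k6),(k6,k6),(k10,k6),(k9,k9)],[(k7,k6),(k11,k6)],[(k4,k7),(k8,k9)],[(k7,k6),(k11,k6)],[(k4,k8),(k8,k10)],
    [(k3,k7),(k5,k8)],[(k0,k6),(k2,k6)],[(k1,k6),(k6,k6),(k10,k6),(k9,k9)],[(k1,k9),(k6,k9),(k10,k9),(k9,k12)],[(k3,
    k9),(k5,k10)],[(k0,k6),(k2,k6)],[(k1,k6),(k6,k6),(k10,k6),(k9,k9)]]
    [] k0
    []
    []]⟩

/-- classes `0 0 0 1 0 1`, types `N0 N0 N1 S0 N2 S0` -/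
noncomputable def cT6_391 : CertT :=
  ⟨[k12,k12,k13,k16,k14,k16],[],[[[]]],
    [.lp [k6,k6,k8,k6,k6,k12] [k3,k3,k3,k3,k2,k2,k3,k3,k3,k3,k0,k0] k0 [] k24 k5
    [[(k1,k6),(k6,k6),(k9,k6),(k10,k9)],[(k7,k6),(k8,k6)],[(k4,k7),(k11,k9)],[(k7,k6),(k8,k6)],[(k4,k8),(k11,k10)],
    [(k3,k7),(k5,k8)],[(k0,k6),(k2,k6)],[(k1,k6),(k6,k6),(k9,k6),(k10,k9)],[(k1,k6),(k6,k6),(k9,k6),(k10,k9)],[(k0,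
    k6),(k2,k6)],[(k3,k9),(k5,k10)],[(k1,k9),(k6,k9),(k9,k9),(k10,k12)]]
    [] k0
    []
    []]⟩

/-- classes `0 0 0 1 0 1`, types `N0 N0 N2 B0 N1 B1` -/
noncomputable def cT6_392 : CertT :=
  ⟨[k12,k12,k14,k24,k13,k25],[(false,k0,[k0,k1,k2,k3,k4,k5])],[[[([z1,z0,z1,z0,z1,z0],z2)],[]]],
    [.leafM k5 [k0,k1,k2,k3,k4,k5] [(z1,[y1,z1]),(z1,[z1])] [],
    .lp [k6,k4,k4,k2,k2,k4] [k0,k0,k1,k1,k1,k1,k2,k2,k2,k2,k1,k1] k0 [[k0,k0,k0,k0,k0,k0,k0,k0,k2],[],[],[],[],[],[],[],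
    [],[k0,k2]] k12 k5
    [[(k6,k4),(k9,k4)],[(k11,k3),(k4,k5)],[(k7,k3),(k8,k5)],[(k4,k4),(k11,k4)],[(k7,k3),(k8,k3)],[(k2,k4),(k0,k5)],
    [(k3,k3),(k5,k3)],[(k10,k3),(k1,k4)],[(k10,k3),(k1,k4)],[(k5,k3),(k3,k5)],[(k0,k3),(k2,k4)],[(k6,k3),(k9,k3)]]
    [] k0
    [[k0,k1,k0,k1,k0,k1]]
    [.ref k0 k0 [(z1,[y1,z1])]]]⟩

/-- classes `0 0 0 1 0 1`, types `N0 N0 N2 B0 N2 B1` -/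
noncomputable def cT6_393 : CertT :=
  ⟨[k12,k12,k14,k24,k14,k25],[],[[[]]],
    [.lp [k6,k6,k4,k0,k0,k6] [k0,k0,k0,k0,k1,k1,k3,k3,k3,k3,k0,k0] k0 [[],[],[k0,k0,k0,k0,k0,k2],[],[k0,k0,k0,k2]] k12 k5
    [[(k6,k3),(k9,k3)],[(k8,k3),(k4,k5)],[(k7,k3),(k11,k6)],[(k4,k3),(k8,k3)],[(k7,k4),(k11,k5)],[(k2,k3),(k0,k5)],
    [(k3,k3),(k5,k4)],[(k1,k3),(k10,k3)],[(k1,k3),(k10,k3)],[(k0,k3),(k2,k3)],[(k5,k5),(k3,k6)],[(k6,k3),(k9,k3)]]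
    [] k0
    []
    []]⟩

/-- classes `0 0 0 1 0 1`, types `N0 N0 N2 C0 N1 C0` -/
noncomputable def cT6_394 : CertT :=
  ⟨[k12,k12,k14,k20,k13,k20],[],[[[]]],
    [.lp [k2,k6,k4,k4,k2,k4] [k2,k2,k0,k0,k1,k1,k1,k1,k2,k2,k1,k1] k0 [[],[],[k0,k0,k0,k0,k0,k2],[],[k0,k0,k0,k2]] k12 k5
    [[(k6,k3),(k10,k3)],[(k4,k3),(k11,k3)],[(k8,k4),(k7,k5)],[(k4,k3),(k11,k5)],[(k8,k3),(k7,k6)],[(k0,k3),(k2,k3)],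
    [(k3,k5),(k5,k6)],[(k1,k3),(k9,k3)],[(k6,k3),(k10,k3)],[(k5,k3),(k3,k4)],[(k0,k3),(k2,k5)],[(k1,k3),(k9,k3)]]
    [] k0
    []
    []]⟩

/-- classes `0 0 0 1 0 1`, types `N0 N0 N2 C0 N1 C2` -/
noncomputable def cT6_395 : CertT :=
  ⟨[k12,k12,k14,k20,k13,k22],[(false,k0,[k0,k1,k2,k3,k4,k5])],[[[([z1,z0,z1,z0,z1,z0],z2)],[]]],
    [.leafM k5 [k0,k1,k2,k3,k4,k5] [(z1,[y1,z1]),(z1,[z1])] [],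
    .lp [k2,k2,k4,k2,k2,k2] [k1,k1,k1,k1,k0,k0,k1,k1,k1,k1,k1,k1] k0 [] k8 k5
    [[(k9,k2),(k10,k2)],[(k11,k2),(k4,k3)],[(k7,k2),(k8,k2)],[(k11,k2),(k4,k3)],[(k7,k3),(k8,k3)],[(k0,k3),(k2,k3)],
    [(k3,k2),(k5,k3)],[(k9,k2),(k10,k2)],[(k1,k2),(k6,k2)],[(k3,k2),(k5,k3)],[(k0,k2),(k2,k2)],[(k1,k2),(k6,k2)]]
    [] k0
    [[k0,k1,k0,k1,k0,k1]]
    [.ref k0 k0 [(z1,[y1,z1])]]]⟩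

/-- classes `0 0 0 1 0 1`, types `N0 N0 N2 C0 N2 C0` -/
noncomputable def cT6_396 : CertT :=
  ⟨[k12,k12,k14,k20,k14,k20],[(false,k0,[k0,k1,k2,k3,k4,k5])],[[[([z1,z0,z1,z0,z0,z1],z2)],[]]],
    [.leafM k3 [k0,k1,k2,k3,k4,k5] [(z1,[y1,z1])] [],
    .lp [k6,k12,k8,k6,k6,k6] [k3,k3,k0,k0,k2,k2,k3,k3,k3,k3,k3,k3] k0 [[],[],[k0,k0,k0,k0,k0,k4],[],[k0,k0,k0,k4]] k24 k5
    [[(k6,k6),(k10,k6)],[(k8,k6),(k4,k7)],[(k7,k9),(k11,k9)],[(k4,k6),(k8,k9)],[(k11,k7),(k7,k11)],[(k2,k6),(k0,k7)],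
    [(k3,k9),(k5,k11)],[(k1,k6),(k9,k6)],[(k6,k6),(k10,k6)],[(k0,k6),(k2,k9)],[(k5,k7),(k3,k9)],[(k1,k6),(k9,k6)]]
    [] k0
    [[k1,k0,k1,k0,k0,k1]]
    [.ref k0 k0 [(z1,[z1])]]]⟩

/-- classes `0 0 0 1 0 1`, types `N0 N0 N2 C0 N2 C2` -/
noncomputable def cT6_397 : CertT :=
  ⟨[k12,k12,k14,k20,k14,k22],[(false,k0,[k0,k1,k2,k3,k4,k5])],[[[([z1,z0,z1,z0,z0,z1],z2)],[]]],
    [.leafM k3 [k0,k1,k2,k3,k4,k5] [(z1,[y1,z1])] [],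
    .lp [k2,k4,k2,k2,k2,k2] [k1,k1,k0,k0,k1,k1,k1,k1,k1,k1,k1,k1] k0 [] k8 k5
    [[(k9,k2),(k10,k2)],[(k4,k2),(k8,k2)],[(k7,k3),(k11,k3)],[(k4,k3),(k8,k3)],[(k7,k2),(k11,k2)],[(k0,k2),(k2,k3)],
    [(k5,k2),(k3,k3)],[(k9,k2),(k10,k2)],[(k1,k2),(k6,k2)],[(k0,k2),(k2,k3)],[(k5,k2),(k3,k3)],[(k1,k2),(k6,k2)]]
    [] k0
    [[k1,k0,k1,k0,k0,k1]]
    [.ref k0 k0 [(z1,[z1])]]]⟩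

/-- classes `0 0 0 1 0 1`, types `N0 N0 N2 N0 N1 N1` -/
noncomputable def cT6_398 : CertT :=
  ⟨[k12,k12,k14,k28,k13,k29],[],[[[]]],
    [.lp [k4,k4,k6,k2,k0,k6] [k1,k1,k1,k1,k0,k0,k2,k2,k3,k3,k0,k0] k0 [[k0,k0,k0,k0,k0,k0,k0,k0,k2],[],[],[],[],[],[],[],
    [],[k0,k2]] k12 k5
    [[(k6,k3)],[(k11,k3),(k4,k5)],[(k7,k3),(k8,k4)],[(k4,k5),(k11,k5)],[(k8,k3),(k7,k4)],[(k0,k5),(k2,k5)],[(k3,k3),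
    (k5,k4)],[(k1,k3)],[(k10,k3)],[(k5,k3),(k3,k4)],[(k0,k3),(k2,k5)],[(k9,k3)]]
    [] k0
    []
    []]⟩

/-- classes `0 0 0 1 0 1`, types `N0 N0 N2 N0 N1 N2` -/
noncomputable def cT6_399 : CertT :=
  ⟨[k12,k12,k14,k28,k13,k30],[(false,k0,[k0,k1,k2,k3,k4,k5])],[[[([z1,z0,z1,z0,z1,z0],z2)],[]]],
    [.leafM k5 [k0,k1,k2,k3,k4,k5] [(z1,[y1,z1]),(z1,[z1])] [],
    .lp [k2,k2,k4,k2,k2,k2] [k1,k1,k1,k1,k0,k0,k1,k1,k1,k1,k1,k1] k0 [] k8 k5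
    [[(k9,k2)],[(k11,k2),(k4,k3)],[(k7,k2),(k8,k2)],[(k11,k2),(k4,k3)],[(k7,k3),(k8,k3)],[(k0,k3),(k2,k3)],[(k3,k2),
    (k5,k3)],[(k10,k2)],[(k1,k2)],[(k3,k2),(k5,k3)],[(k0,k2),(k2,k2)],[(k6,k2)]]
    [] k0
    [[k0,k1,k0,k1,k0,k1]]
    [.ref k0 k0 [(z1,[y1,z1])]]]⟩

/-- classes `0 0 0 1 0 1`, types `N0 N0 N2 N0 N2 N1` -/
noncomputable def cT6_400 : CertT :=
  ⟨[k12,k12,k14,k28,k14,k29],[],[[[]]],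
    [.lp [k6,k6,k4,k0,k0,k6] [k0,k0,k0,k0,k1,k1,k3,k3,k3,k3,k0,k0] k0 [[],[],[k0,k0,k0,k0,k0,k2],[],[k0,k0,k0,k2]] k12 k5
    [[(k6,k3)],[(k8,k3),(k4,k5)],[(k7,k3),(k11,k6)],[(k4,k3),(k8,k3)],[(k7,k4),(k11,k5)],[(k2,k3),(k0,k5)],[(k3,k3),
    (k5,k4)],[(k1,k3)],[(k10,k3)],[(k0,k3),(k2,k3)],[(k5,k5),(k3,k6)],[(k9,k3)]]
    [] k0
    []
    []]⟩

/-- classes `0 0 0 1 0 1`, types `N0 N0 N2 N0 N2 N2` -/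
noncomputable def cT6_401 : CertT :=
  ⟨[k12,k12,k14,k28,k14,k30],[],[[[]]],
    [.lp [k2,k2,k2,k2,k2,k2] [k0,k0,k0,k0,k0,k0,k0,k0,k0,k0,k0,k0] k0 [] k8 k5
    [[(k9,k2)],[(k4,k2),(k8,k2)],[(k7,k2),(k11,k2)],[(k4,k2),(k8,k2)],[(k7,k2),(k11,k2)],[(k0,k2),(k2,k2)],[(k3,k2),
    (k5,k2)],[(k10,k2)],[(k1,k2)],[(k0,k2),(k2,k2)],[(k3,k2),(k5,k2)],[(k6,k2)]]
    [] k0
    []
    []]⟩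

/-- classes `0 0 0 1 0 1`, types `N0 N0 N2 S0 N1 S0` -/
noncomputable def cT6_402 : CertT :=
  ⟨[k12,k12,k14,k16,k13,k16],[(false,k0,[k0,k1,k2,k3,k4,k5])],[[[([z1,z0,z1,z0,z1,z0],z2)],[]]],
    [.leafM k5 [k0,k1,k2,k3,k4,k5] [(z1,[y1,z1]),(z1,[z1])] [],
    .lp [k12,k6,k6,k6,k6,k8] [k0,k0,k3,k3,k3,k3,k3,k3,k3,k3,k2,k2] k0 [[k0,k0,k0,k0,k0,k0,k0,k0,k4],[],[],[],[],[],[],[],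
    [],[k0,k4]] k24 k5
    [[(k6,k9),(k9,k9),(k10,k10),(k1,k12)],[(k11,k6),(k4,k9)],[(k7,k6),(k8,k10)],[(k4,k6),(k11,k7)],[(k7,k6),(k8,k6)],
    [(k2,k6),(k0,k9)],[(k3,k6),(k5,k6)],[(k6,k6),(k9,k6),(k10,k7),(k1,k9)],[(k6,k6),(k9,k6),(k10,k7),(k1,k9)],[(k5,
    k6),(k3,k10)],[(k0,k6),(k2,k7)],[(k6,k7),(k9,k7),(k10,k8),(k1,k10)]]
    [] k0
    [[k0,k1,k0,k1,k0,k1]]
    [.ref k0 k0 [(z1,[y1,z1])]]]⟩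

/-- classes `0 0 0 1 0 1`, types `N0 N0 N2 S0 N2 S0` -/
noncomputable def cT6_403 : CertT :=
  ⟨[k12,k12,k14,k16,k14,k16],[(false,k0,[k0,k1,k2,k3,k4,k5])],[[[([z1,z0,z1,z0,z0,z1],z2)],[]]],
    [.leafM k3 [k0,k1,k2,k3,k4,k5] [(z1,[y1,z1])] [],
    .lp [k6,k12,k8,k6,k6,k6] [k3,k3,k0,k0,k2,k2,k3,k3,k3,k3,k3,k3] k0 [[],[],[k0,k0,k0,k0,k0,k4],[],[k0,k0,k0,k4]] k24 k5
    [[(k1,k6),(k6,k6),(k9,k6),(k10,k6)],[(k8,k6),(k4,k7)],[(k7,k9),(k11,k9)],[(k4,k6),(k8,k9)],[(k11,k7),(k7,k11)],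
    [(k2,k6),(k0,k7)],[(k3,k9),(k5,k11)],[(k1,k6),(k6,k6),(k9,k6),(k10,k6)],[(k1,k6),(k6,k6),(k9,k6),(k10,k6)],[(k0,
    k6),(k2,k9)],[(k5,k7),(k3,k9)],[(k1,k6),(k6,k6),(k9,k6),(k10,k6)]]
    [] k0
    [[k1,k0,k1,k0,k0,k1]]
    [.ref k0 k0 [(z1,[z1])]]]⟩

/-- classes `0 0 0 1 0 1`, types `N0 N1 N0 B0 N1 B1` -/
noncomputable def cT6_404 : CertT :=
  ⟨[k12,k13,k12,k24,k13,k25],[],[[[]]],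
    [.lp [k6,k8,k8,k6,k6,k6] [k1,k1,k0,k0,k0,k0,k1,k1,k1,k1,k1,k1] k0 [] k24 k5
    [[(k6,k6),(k9,k6)],[(k11,k6),(k5,k7)],[(k8,k7),(k2,k8)],[(k7,k7),(k3,k8)],[(k0,k7),(k4,k8)],[(k11,k7),(k5,k8)],
    [(k8,k6),(k2,k7)],[(k1,k6),(k10,k6)],[(k1,k6),(k10,k6)],[(k7,k6),(k3,k7)],[(k0,k6),(k4,k7)],[(k6,k6),(k9,k6)]]
    [] k0
    []
    []]⟩

/-- classes `0 0 0 1 0 1`, types `N0 N1 N0 B0 N2 B1` -/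
noncomputable def cT6_405 : CertT :=
  ⟨[k12,k13,k12,k24,k14,k25],[],[[[]]],
    [.lp [k12,k10,k8,k2,k4,k10] [k0,k0,k1,k1,k2,k2,k5,k5,k4,k4,k1,k1] k0 [[k0,k0,k0,k0,k0,k0,k0,k0,k0,k2],[],[],[],[],[],
    [],[],[k0,k2]] k24 k5
    [[(k6,k7),(k9,k8)],[(k8,k6),(k5,k10)],[(k2,k10),(k11,k12)],[(k7,k6),(k3,k10)],[(k4,k8),(k0,k10)],[(k8,k6),(k5,
    k8)],[(k2,k6),(k11,k6)],[(k10,k6),(k1,k7)],[(k10,k7),(k1,k8)],[(k0,k6),(k4,k6)],[(k7,k6),(k3,k12)],[(k6,k6),(k9,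
    k7)]]
    [] k0
    []
    []]⟩

/-- classes `0 0 0 1 0 1`, types `N0 N1 N0 C0 N1 C0` -/
noncomputable def cT6_406 : CertT :=
  ⟨[k12,k13,k12,k20,k13,k20],[],[[[]]],
    [.lp [k4,k10,k8,k12,k0,k12] [k4,k4,k1,k1,k2,k2,k0,k0,k6,k6,k0,k0] k0 [[k0,k0,k0,k0,k0,k0,k0,k0,k2],[],[],[],[],[],[],
    [],[],[k0,k2]] k24 k5
    [[(k6,k8),(k10,k8)],[(k5,k6),(k11,k6)],[(k8,k7),(k2,k10)],[(k3,k10),(k7,k11)],[(k0,k6),(k4,k8)],[(k5,k8),(k11,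
    k10)],[(k8,k6),(k2,k11)],[(k9,k6),(k1,k8)],[(k6,k6),(k10,k6)],[(k7,k6),(k3,k7)],[(k0,k6),(k4,k10)],[(k9,k6),(k1,
    k8)]]
    [] k0
    []
    []]⟩

/-- classes `0 0 0 1 0 1`, types `N0 N1 N0 C0 N1 C2` -/
noncomputable def cT6_407 : CertT :=
  ⟨[k12,k13,k12,k20,k13,k22],[],[[[]]],
    [.lp [k12,k10,k8,k12,k0,k4] [k0,k0,k1,k1,k2,k2,k0,k0,k6,k6,k4,k4] k0 [[k0,k0,k0,k0,k0,k0,k0,k0,k2],[],[],[],[],[],[],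
    [],[],[k0,k2]] k24 k5
    [[(k9,k6),(k10,k8)],[(k11,k6),(k5,k10)],[(k8,k7),(k2,k10)],[(k3,k10),(k7,k11)],[(k4,k8),(k0,k10)],[(k11,k6),(k5,
    k8)],[(k8,k6),(k2,k11)],[(k9,k6),(k10,k8)],[(k1,k6),(k6,k6)],[(k7,k6),(k3,k7)],[(k0,k6),(k4,k6)],[(k1,k8),(k6,
    k8)]]
    [] k0
    []
    []]⟩

/-- classes `0 0 0 1 0 1`, types `N0 N1 N0 C0 N2 C0` -/
noncomputable def cT6_408 : CertT :=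
  ⟨[k12,k13,k12,k20,k14,k20],[],[[[]]],
    [.lp [k6,k8,k8,k6,k6,k6] [k1,k1,k0,k0,k0,k0,k1,k1,k1,k1,k1,k1] k0 [] k24 k5
    [[(k6,k6),(k10,k6)],[(k8,k6),(k5,k7)],[(k11,k7),(k2,k8)],[(k7,k7),(k3,k8)],[(k0,k7),(k4,k8)],[(k8,k7),(k5,k8)],
    [(k11,k6),(k2,k7)],[(k1,k6),(k9,k6)],[(k6,k6),(k10,k6)],[(k0,k6),(k4,k7)],[(k7,k6),(k3,k7)],[(k1,k6),(k9,k6)]]
    [] k0
    []
    []]⟩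

/-- classes `0 0 0 1 0 1`, types `N0 N1 N0 C0 N2 C2` -/
noncomputable def cT6_409 : CertT :=
  ⟨[k12,k13,k12,k20,k14,k22],[],[[[]]],
    [.lp [k12,k10,k8,k8,k4,k4] [k0,k0,k1,k1,k2,k2,k2,k2,k4,k4,k4,k4] k0 [[k0,k0,k0,k0,k0,k0,k0,k0,k0,k2],[],[],[],[],[],[],
    [],[k0,k2]] k24 k5
    [[(k9,k8),(k10,k8)],[(k8,k6),(k5,k10)],[(k11,k9),(k2,k10)],[(k7,k9),(k3,k10)],[(k4,k8),(k0,k10)],[(k8,k6),(k5,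
    k8)],[(k11,k6),(k2,k9)],[(k9,k6),(k10,k6)],[(k6,k6),(k1,k8)],[(k0,k6),(k4,k6)],[(k7,k6),(k3,k9)],[(k6,k6),(k1,
    k8)]]
    [] k0
    []
    []]⟩

/-- classes `0 0 0 1 0 1`, types `N0 N1 N0 N0 N1 N1` -/
noncomputable def cT6_410 : CertT :=
  ⟨[k12,k13,k12,k28,k13,k29],[],[[[]]],
    [.lp [k2,k4,k4,k4,k2,k4] [k1,k1,k0,k0,k0,k0,k0,k0,k1,k1,k0,k0] k0 [] k12 k5
    [[(k6,k3)],[(k5,k3),(k11,k3)],[(k8,k3),(k2,k4)],[(k3,k4),(k7,k4)],[(k0,k3),(k4,k4)],[(k5,k4),(k11,k4)],[(k8,k3),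
    (k2,k4)],[(k1,k3)],[(k10,k3)],[(k3,k3),(k7,k3)],[(k0,k3),(k4,k4)],[(k9,k3)]]
    [] k0
    []
    []]⟩

/-- classes `0 0 0 1 0 1`, types `N0 N1 N0 N0 N1 N2` -/
noncomputable def cT6_411 : CertT :=
  ⟨[k12,k13,k12,k28,k13,k30],[],[[[]]],
    [.lp [k4,k4,k4,k4,k2,k2] [k0,k0,k0,k0,k0,k0,k0,k0,k1,k1,k1,k1] k0 [] k12 k5
    [[(k9,k3)],[(k11,k3),(k5,k4)],[(k8,k3),(k2,k4)],[(k3,k4),(k7,k4)],[(k0,k4),(k4,k4)],[(k11,k3),(k5,k4)],[(k8,k3),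
    (k2,k4)],[(k10,k3)],[(k1,k3)],[(k3,k3),(k7,k3)],[(k0,k3),(k4,k3)],[(k6,k3)]]
    [] k0
    []
    []]⟩

/-- classes `0 0 0 1 0 1`, types `N0 N1 N0 N0 N2 N1` -/
noncomputable def cT6_412 : CertT :=
  ⟨[k12,k13,k12,k28,k14,k29],[],[[[]]],
    [.lp [k4,k4,k4,k2,k2,k4] [k0,k0,k0,k0,k0,k0,k1,k1,k1,k1,k0,k0] k0 [] k12 k5
    [[(k6,k3)],[(k8,k3),(k5,k4)],[(k2,k4),(k11,k4)],[(k7,k3),(k3,k4)],[(k0,k4),(k4,k4)],[(k8,k3),(k5,k4)],[(k2,k3),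
    (k11,k3)],[(k1,k3)],[(k10,k3)],[(k0,k3),(k4,k3)],[(k7,k3),(k3,k4)],[(k9,k3)]]
    [] k0
    []
    []]⟩

/-- classes `0 0 0 1 0 1`, types `N0 N1 N0 N0 N2 N2` -/
noncomputable def cT6_413 : CertT :=
  ⟨[k12,k13,k12,k28,k14,k30],[],[[[]]],
    [.lp [k12,k10,k8,k2,k4,k10] [k0,k0,k1,k1,k2,k2,k5,k5,k4,k4,k1,k1] k0 [[k0,k0,k0,k0,k0,k0,k0,k0,k0,k2],[],[],[],[],[],
    [],[],[k0,k2]] k24 k5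
    [[(k9,k8)],[(k8,k6),(k5,k10)],[(k2,k10),(k11,k12)],[(k7,k6),(k3,k10)],[(k4,k8),(k0,k10)],[(k8,k6),(k5,k8)],[(k2,
    k6),(k11,k6)],[(k10,k6)],[(k1,k8)],[(k0,k6),(k4,k6)],[(k7,k6),(k3,k12)],[(k6,k6)]]
    [] k0
    []
    []]⟩

/-- classes `0 0 0 1 0 1`, types `N0 N1 N0 S0 N1 S0` -/
noncomputable def cT6_414 : CertT :=
  ⟨[k12,k13,k12,k16,k13,k16],[],[[[]]],
    [.lp [k6,k8,k8,k8,k6,k10] [k2,k2,k1,k1,k1,k1,k1,k1,k2,k2,k0,k0] k0 [[k0,k0,k0,k0,k0,k0,k0,k0,k2],[],[],[],[],[],[],[],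
    [],[k0,k2]] k24 k5
    [[(k1,k6),(k9,k6),(k6,k7),(k10,k8)],[(k11,k6),(k5,k7)],[(k2,k8),(k8,k9)],[(k3,k8),(k7,k8)],[(k0,k7),(k4,k8)],[(k5,
    k8),(k11,k9)],[(k8,k7),(k2,k8)],[(k1,k7),(k9,k7),(k6,k8),(k10,k9)],[(k1,k6),(k9,k6),(k6,k7),(k10,k8)],[(k7,k7),
    (k3,k9)],[(k0,k6),(k4,k9)],[(k1,k8),(k9,k8),(k6,k9),(k10,k10)]]
    [] k0
    []
    []]⟩

/-- classes `0 0 0 1 0 1`, types `N0 N1 N0 S0 N2 S0` -/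
noncomputable def cT6_415 : CertT :=
  ⟨[k12,k13,k12,k16,k14,k16],[],[[[]]],
    [.lp [k10,k8,k8,k6,k6,k8] [k0,k0,k1,k1,k1,k1,k2,k2,k2,k2,k1,k1] k0 [[k0,k0,k0,k0,k0,k0,k0,k0,k0,k2],[],[],[],[],[],[],
    [],[k0,k2]] k24 k5
    [[(k6,k8),(k9,k8),(k10,k9),(k1,k10)],[(k8,k6),(k5,k9)],[(k2,k8),(k11,k10)],[(k7,k7),(k3,k8)],[(k4,k8),(k0,k9)],
    [(k8,k7),(k5,k8)],[(k2,k7),(k11,k7)],[(k6,k6),(k9,k6),(k10,k7),(k1,k8)],[(k6,k6),(k9,k6),(k10,k7),(k1,k8)],[(k0,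
    k6),(k4,k7)],[(k7,k7),(k3,k10)],[(k6,k7),(k9,k7),(k10,k8),(k1,k9)]]
    [] k0
    []
    []]⟩

/-- classes `0 0 0 1 0 1`, types `N0 N1 N2 B0 N0 B1` -/
noncomputable def cT6_416 : CertT :=
  ⟨[k12,k13,k14,k24,k12,k25],[(false,k0,[k0,k1,k2,k3,k4,k5])],[[[([z1,z0,z1,z0,z1,z0],z2)],[]]],
    [.leafM k5 [k0,k1,k2,k3,k4,k5] [(z1,[y1,z1]),(z1,[z1])] [],
    .lp [k6,k4,k0,k2,k6,k4] [k0,k0,k1,k1,k3,k3,k2,k2,k0,k0,k1,k1] k0 [] k12 k5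
    [[(k6,k4),(k9,k6)],[(k4,k3),(k5,k3)],[(k7,k3),(k2,k4)],[(k3,k4),(k11,k4)],[(k0,k3),(k8,k3)],[(k0,k3),(k8,k3)],
    [(k3,k3),(k11,k3)],[(k10,k3),(k1,k4)],[(k10,k5),(k1,k6)],[(k4,k3),(k5,k3)],[(k7,k3),(k2,k4)],[(k6,k3),(k9,k5)]]
    [] k0
    [[k0,k1,k0,k1,k0,k1]]
    [.ref k0 k0 [(z1,[y1,z1])]]]⟩

/-- classes `0 0 0 1 0 1`, types `N0 N1 N2 B0 N3 B1` -/
noncomputable def cT6_417 : CertT :=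
  ⟨[k12,k13,k14,k24,k15,k25],[],[[[]]],
    [.lp [k6,k8,k6,k6,k6,k6] [k1,k1,k0,k0,k1,k1,k1,k1,k1,k1,k1,k1] k0 [] k24 k5
    [[(k6,k6),(k9,k6)],[(k4,k6),(k5,k6)],[(k7,k7),(k2,k8)],[(k8,k7),(k3,k8)],[(k0,k6),(k11,k6)],[(k0,k6),(k11,k6)],
    [(k8,k6),(k3,k7)],[(k1,k6),(k10,k6)],[(k1,k6),(k10,k6)],[(k7,k6),(k2,k7)],[(k4,k6),(k5,k6)],[(k6,k6),(k9,k6)]]
    [] k0
    []
    []]⟩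

/-- classes `0 0 0 1 0 1`, types `N0 N1 N2 C0 N0 C0` -/
noncomputable def cT6_418 : CertT :=
  ⟨[k12,k13,k14,k20,k12,k20],[],[[[]]],
    [.lp [k6,k8,k6,k6,k6,k6] [k1,k1,k0,k0,k1,k1,k1,k1,k1,k1,k1,k1] k0 [] k24 k5
    [[(k6,k6),(k10,k6)],[(k4,k6),(k5,k6)],[(k7,k7),(k2,k8)],[(k11,k7),(k3,k8)],[(k0,k6),(k8,k6)],[(k0,k6),(k8,k6)],
    [(k11,k6),(k3,k7)],[(k1,k6),(k9,k6)],[(k6,k6),(k10,k6)],[(k4,k6),(k5,k6)],[(k7,k6),(k2,k7)],[(k1,k6),(k9,k6)]]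
    [] k0
    []
    []]⟩

/-- classes `0 0 0 1 0 1`, types `N0 N1 N2 C0 N0 C2` -/
noncomputable def cT6_419 : CertT :=
  ⟨[k12,k13,k14,k20,k12,k22],[(false,k0,[k0,k1,k2,k3,k4,k5])],[[[([z1,z0,z1,z0,z1,z0],z2)],[]]],
    [.leafM k5 [k0,k1,k2,k3,k4,k5] [(z1,[y1,z1]),(z1,[z1])] [],
    .lp [k4,k4,k6,k4,k2,k2] [k1,k1,k1,k1,k0,k0,k1,k1,k2,k2,k2,k2] k0 [] k12 k5
    [[(k9,k3),(k10,k3)],[(k4,k5),(k5,k5)],[(k2,k4),(k7,k4)],[(k11,k3),(k3,k4)],[(k8,k4),(k0,k5)],[(k8,k4),(k0,k5)],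
    [(k11,k3),(k3,k4)],[(k9,k3),(k10,k3)],[(k1,k3),(k6,k3)],[(k4,k4),(k5,k4)],[(k2,k3),(k7,k3)],[(k1,k3),(k6,k3)]]
    [] k0
    [[k0,k1,k0,k1,k0,k1]]
    [.ref k0 k0 [(z1,[y1,z1])]]]⟩

/-- classes `0 0 0 1 0 1`, types `N0 N1 N2 C0 N3 C0` -/
noncomputable def cT6_420 : CertT :=
  ⟨[k12,k13,k14,k20,k15,k20],[(false,k0,[k0,k1,k2,k3,k4,k5])],[[[([z1,z0,z1,z0,z0,z1],z2)],[]]],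
    [.leafM k3 [k0,k1,k2,k3,k4,k5] [(z1,[y1,z1])] [],
    .lp [k2,k4,k2,k2,k2,k2] [k1,k1,k0,k0,k1,k1,k1,k1,k1,k1,k1,k1] k0 [] k8 k5
    [[(k6,k2),(k10,k2)],[(k4,k2),(k5,k2)],[(k7,k3),(k2,k4)],[(k8,k3),(k3,k4)],[(k0,k2),(k11,k2)],[(k0,k2),(k11,k2)],
    [(k8,k2),(k3,k3)],[(k1,k2),(k9,k2)],[(k6,k2),(k10,k2)],[(k7,k2),(k2,k3)],[(k4,k2),(k5,k2)],[(k1,k2),(k9,k2)]]
    [] k0
    [[k1,k0,k1,k0,k0,k1]]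
    [.ref k0 k0 [(z1,[z1])]]]⟩

/-- classes `0 0 0 1 0 1`, types `N0 N1 N2 C0 N3 C2` -/
noncomputable def cT6_421 : CertT :=
  ⟨[k12,k13,k14,k20,k15,k22],[(false,k0,[k0,k1,k2,k3,k4,k5])],[[[([z1,z0,z1,z0,z0,z1],z2)],[]]],
    [.leafM k3 [k0,k1,k2,k3,k4,k5] [(z1,[y1,z1])] [],
    .lp [k4,k4,k2,k4,k2,k6] [k1,k1,k1,k1,k2,k2,k1,k1,k2,k2,k0,k0] k0 [] k12 k5
    [[(k9,k3),(k10,k5)],[(k4,k3),(k5,k3)],[(k2,k4),(k7,k4)],[(k8,k3),(k3,k4)],[(k0,k3),(k11,k4)],[(k0,k3),(k11,k4)],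
    [(k8,k3),(k3,k4)],[(k9,k3),(k10,k5)],[(k1,k3),(k6,k3)],[(k2,k3),(k7,k3)],[(k4,k4),(k5,k4)],[(k1,k5),(k6,k5)]]
    [] k0
    [[k0,k1,k0,k1,k1,k0]]
    [.ref k0 k0 [(z1,[y1,z1])]]]⟩

/-- classes `0 0 0 1 0 1`, types `N0 N1 N2 N0 N0 N1` -/
noncomputable def cT6_422 : CertT :=
  ⟨[k12,k13,k14,k28,k12,k29],[],[[[]]],
    [.lp [k6,k8,k6,k6,k6,k6] [k1,k1,k0,k0,k1,k1,k1,k1,k1,k1,k1,k1] k0 [] k24 k5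
    [[(k6,k6)],[(k4,k6),(k5,k6)],[(k7,k7),(k2,k8)],[(k11,k7),(k3,k8)],[(k0,k6),(k8,k6)],[(k0,k6),(k8,k6)],[(k11,k6),
    (k3,k7)],[(k1,k6)],[(k10,k6)],[(k4,k6),(k5,k6)],[(k7,k6),(k2,k7)],[(k9,k6)]]
    [] k0
    []
    []]⟩

/-- classes `0 0 0 1 0 1`, types `N0 N1 N2 N0 N0 N2` -/
noncomputable def cT6_423 : CertT :=
  ⟨[k12,k13,k14,k28,k12,k30],[(false,k0,[k0,k1,k2,k3,k4,k5])],[[[([z1,z0,z1,z0,z1,z0],z2)],[]]],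
    [.leafM k5 [k0,k1,k2,k3,k4,k5] [(z1,[y1,z1]),(z1,[z1])] [],
    .lp [k6,k4,k6,k2,k0,k4] [k0,k0,k1,k1,k0,k0,k2,k2,k3,k3,k1,k1] k0 [] k12 k5
    [[(k9,k3)],[(k4,k6),(k5,k6)],[(k7,k3),(k2,k4)],[(k3,k4),(k11,k4)],[(k8,k3),(k0,k6)],[(k8,k3),(k0,k6)],[(k3,k3),
    (k11,k3)],[(k10,k3)],[(k1,k3)],[(k4,k3),(k5,k3)],[(k7,k3),(k2,k4)],[(k6,k3)]]
    [] k0
    [[k0,k1,k0,k1,k0,k1]]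
    [.ref k0 k0 [(z1,[y1,z1])]]]⟩

/-- classes `0 0 0 1 0 1`, types `N0 N1 N2 N0 N3 N1` -/
noncomputable def cT6_424 : CertT :=
  ⟨[k12,k13,k14,k28,k15,k29],[],[[[]]],
    [.lp [k6,k8,k6,k6,k6,k6] [k1,k1,k0,k0,k1,k1,k1,k1,k1,k1,k1,k1] k0 [] k24 k5
    [[(k6,k6)],[(k4,k6),(k5,k6)],[(k7,k7),(k2,k8)],[(k8,k7),(k3,k8)],[(k0,k6),(k11,k6)],[(k0,k6),(k11,k6)],[(k8,k6),
    (k3,k7)],[(k1,k6)],[(k10,k6)],[(k7,k6),(k2,k7)],[(k4,k6),(k5,k6)],[(k9,k6)]]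
    [] k0
    []
    []]⟩

/-- classes `0 0 0 1 0 1`, types `N0 N1 N2 N0 N3 N2` -/
noncomputable def cT6_425 : CertT :=
  ⟨[k12,k13,k14,k28,k15,k30],[],[[[]]],
    [.lp [k6,k8,k6,k6,k6,k6] [k1,k1,k0,k0,k1,k1,k1,k1,k1,k1,k1,k1] k0 [] k24 k5
    [[(k9,k6)],[(k4,k6),(k5,k6)],[(k7,k7),(k2,k8)],[(k8,k7),(k3,k8)],[(k0,k6),(k11,k6)],[(k0,k6),(k11,k6)],[(k8,k6),
    (k3,k7)],[(k10,k6)],[(k1,k6)],[(k7,k6),(k2,k7)],[(k4,k6),(k5,k6)],[(k6,k6)]]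
    [] k0
    []
    []]⟩

/-- classes `0 0 0 1 0 1`, types `N0 N1 N2 S0 N0 S0` -/
noncomputable def cT6_426 : CertT :=
  ⟨[k12,k13,k14,k16,k12,k16],[(false,k0,[k0,k1,k2,k3,k4,k5])],[[[([z1,z0,z1,z0,z1,z0],z2)],[]]],
    [.leafM k5 [k0,k1,k2,k3,k4,k5] [(z1,[y1,z1]),(z1,[z1])] [],
    .lp [k12,k8,k0,k6,k12,k6] [k0,k0,k2,k2,k6,k6,k3,k3,k0,k0,k3,k3] k0 [] k24 k5
    [[(k6,k9),(k10,k9),(k1,k12),(k9,k12)],[(k4,k6),(k5,k6)],[(k7,k7),(k2,k8)],[(k11,k7),(k3,k8)],[(k0,k6),(k8,k6)],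
    [(k0,k6),(k8,k6)],[(k11,k6),(k3,k7)],[(k6,k6),(k10,k6),(k1,k9),(k9,k9)],[(k6,k9),(k10,k9),(k1,k12),(k9,k12)],[(k4,
    k6),(k5,k6)],[(k7,k6),(k2,k7)],[(k6,k6),(k10,k6),(k1,k9),(k9,k9)]]
    [] k0
    [[k0,k1,k0,k1,k0,k1]]
    [.ref k0 k0 [(z1,[y1,z1])]]]⟩

/-- classes `0 0 0 1 0 1`, types `N0 N1 N2 S0 N3 S0` -/
noncomputable def cT6_427 : CertT :=
  ⟨[k12,k13,k14,k16,k15,k16],[(false,k0,[k0,k1,k2,k3,k4,k5])],[[[([z1,z0,z1,z0,z0,z1],z2)],[]]],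
    [.leafM k3 [k0,k1,k2,k3,k4,k5] [(z1,[y1,z1])] [],
    .lp [k20,k16,k12,k16,k12,k18] [k0,k0,k2,k2,k4,k4,k2,k2,k4,k4,k1,k1] k0 [[k0,k0,k0,k0,k0,k4],[],[],[],[k0,k4]] k48 k5
    [[(k9,k16),(k6,k18),(k10,k19),(k1,k20)],[(k4,k12),(k5,k16)],[(k2,k16),(k7,k20)],[(k8,k14),(k3,k16)],[(k11,k15),
    (k0,k16)],[(k0,k12),(k11,k15)],[(k8,k14),(k3,k20)],[(k9,k14),(k6,k16),(k10,k17),(k1,k18)],[(k9,k12),(k6,k14),(k10,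
    k15),(k1,k16)],[(k2,k14),(k7,k14)],[(k4,k15),(k5,k15)],[(k9,k15),(k6,k17),(k10,k18),(k1,k19)]]
    [] k0
    [[k1,k0,k1,k0,k0,k1]]
    [.ref k0 k0 [(z1,[z1])]]]⟩

/-- classes `0 0 0 1 0 1`, types `N0 N1 N3 B0 N1 B1` -/
noncomputable def cT6_428 : CertT :=
  ⟨[k12,k13,k15,k24,k13,k25],[],[[[]]],
    [.lp [k6,k4,k4,k2,k2,k4] [k0,k0,k1,k1,k1,k1,k2,k2,k2,k2,k1,k1] k0 [] k12 k5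
    [[(k6,k4),(k9,k4)],[(k5,k5),(k11,k5)],[(k8,k3),(k2,k4)],[(k3,k4),(k4,k4)],[(k7,k3),(k0,k5)],[(k8,k3),(k2,k4)],
    [(k5,k3),(k11,k3)],[(k10,k3),(k1,k4)],[(k10,k3),(k1,k4)],[(k3,k3),(k4,k3)],[(k7,k3),(k0,k5)],[(k6,k3),(k9,k3)]]
    [] k0
    []
    []]⟩

/-- classes `0 0 0 1 0 1`, types `N0 N1 N3 B0 N2 B1` -/
noncomputable def cT6_429 : CertT :=
  ⟨[k12,k13,k15,k24,k14,k25],[],[[[]]],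
    [.lp [k34,k26,k26,k34,k14,k34] [k0,k0,k4,k4,k4,k4,k0,k0,k10,k10,k0,k0] k0 [[k0,k0,k6],[],[k0,k0,k0,k0,k0,k2],[k0,k6],
    [k0,k0,k0,k2]] k96 k5
    [[(k9,k24),(k6,k34)],[(k5,k24),(k8,k24)],[(k11,k30),(k2,k32)],[(k4,k24),(k3,k32)],[(k0,k24),(k7,k32)],[(k2,k24),
    (k11,k30)],[(k8,k24),(k5,k32)],[(k1,k34),(k10,k34)],[(k1,k24),(k10,k24)],[(k0,k24),(k7,k24)],[(k3,k30),(k4,k30)],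
    [(k9,k24),(k6,k34)]]
    [] k0
    []
    []]⟩

/-- classes `0 0 0 1 0 1`, types `N0 N1 N3 C0 N1 C0` -/
noncomputable def cT6_430 : CertT :=
  ⟨[k12,k13,k15,k20,k13,k20],[],[[[]]],
    [.lp [k6,k16,k18,k18,k8,k18] [k6,k6,k1,k1,k0,k0,k0,k0,k5,k5,k0,k0] k0 [[],[],[k0,k0,k0,k0,k0,k4],[],[k0,k0,k0,
    k4]] k48 k5
    [[(k6,k12),(k10,k12)],[(k5,k12),(k11,k12)],[(k8,k12),(k2,k16)],[(k4,k13),(k3,k16)],[(k0,k12),(k7,k22)],[(k2,k13),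
    (k8,k13)],[(k11,k18),(k5,k22)],[(k1,k12),(k9,k13)],[(k6,k13),(k10,k13)],[(k3,k12),(k4,k13)],[(k0,k12),(k7,k18)],
    [(k1,k12),(k9,k13)]]
    [] k0
    []
    []]⟩

/-- classes `0 0 0 1 0 1`, types `N0 N1 N3 C0 N1 C2` -/
noncomputable def cT6_431 : CertT :=
  ⟨[k12,k13,k15,k20,k13,k22],[],[[[]]],
    [.lp [k4,k4,k6,k4,k2,k2] [k1,k1,k1,k1,k0,k0,k1,k1,k2,k2,k2,k2] k0 [] k12 k5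
    [[(k9,k3),(k10,k3)],[(k11,k3),(k5,k5)],[(k8,k3),(k2,k4)],[(k3,k4),(k4,k5)],[(k0,k5),(k7,k5)],[(k8,k4),(k2,k5)],
    [(k11,k3),(k5,k5)],[(k9,k3),(k10,k3)],[(k1,k3),(k6,k3)],[(k3,k3),(k4,k4)],[(k0,k3),(k7,k3)],[(k1,k3),(k6,k3)]]
    [] k0
    []
    []]⟩

/-- classes `0 0 0 1 0 1`, types `N0 N1 N3 C0 N2 C0` -/
noncomputable def cT6_432 : CertT :=
  ⟨[k12,k13,k15,k20,k14,k20],[],[[[]]],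
    [.lp [k10,k8,k4,k10,k2,k10] [k0,k0,k1,k1,k3,k3,k0,k0,k4,k4,k0,k0] k0 [] k24 k5
    [[(k6,k10),(k10,k10)],[(k8,k6),(k5,k7)],[(k2,k8),(k11,k9)],[(k4,k6),(k3,k8)],[(k0,k7),(k7,k7)],[(k2,k6),(k11,k7)],
    [(k8,k6),(k5,k7)],[(k9,k6),(k1,k10)],[(k6,k6),(k10,k6)],[(k0,k6),(k7,k6)],[(k4,k7),(k3,k9)],[(k9,k6),(k1,k10)]]
    [] k0
    []
    []]⟩

/-- classes `0 0 0 1 0 1`, types `N0 N1 N3 C0 N2 C2` -/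
noncomputable def cT6_433 : CertT :=
  ⟨[k12,k13,k15,k20,k14,k22],[],[[[]]],
    [.lp [k6,k4,k2,k6,k0,k4] [k0,k0,k1,k1,k2,k2,k0,k0,k3,k3,k1,k1] k0 [] k12 k5
    [[(k9,k3),(k10,k5)],[(k8,k3),(k5,k4)],[(k2,k4),(k11,k4)],[(k4,k3),(k3,k4)],[(k0,k4),(k7,k4)],[(k2,k3),(k11,k3)],
    [(k8,k3),(k5,k4)],[(k9,k3),(k10,k5)],[(k1,k3),(k6,k3)],[(k0,k3),(k7,k3)],[(k4,k3),(k3,k4)],[(k1,k5),(k6,k5)]]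
    [] k0
    []
    []]⟩

/-- classes `0 0 0 1 0 1`, types `N0 N1 N3 N0 N1 N1` -/
noncomputable def cT6_434 : CertT :=
  ⟨[k12,k13,k15,k28,k13,k29],[],[[[]]],
    [.lp [k6,k8,k6,k6,k6,k6] [k1,k1,k0,k0,k1,k1,k1,k1,k1,k1,k1,k1] k0 [] k24 k5
    [[(k6,k6)],[(k5,k6),(k11,k6)],[(k8,k7),(k2,k8)],[(k4,k7),(k3,k8)],[(k0,k6),(k7,k6)],[(k8,k6),(k2,k7)],[(k5,k6),
    (k11,k6)],[(k1,k6)],[(k10,k6)],[(k4,k6),(k3,k7)],[(k0,k6),(k7,k6)],[(k9,k6)]]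
    [] k0
    []
    []]⟩

/-- classes `0 0 0 1 0 1`, types `N0 N1 N3 N0 N1 N2` -/
noncomputable def cT6_435 : CertT :=
  ⟨[k12,k13,k15,k28,k13,k30],[],[[[]]],
    [.lp [k4,k4,k6,k0,k2,k6] [k1,k1,k1,k1,k0,k0,k3,k3,k2,k2,k0,k0] k0 [] k12 k5
    [[(k9,k3)],[(k5,k5),(k11,k5)],[(k8,k3),(k2,k4)],[(k3,k4),(k4,k5)],[(k7,k3),(k0,k5)],[(k8,k4),(k2,k5)],[(k5,k3),
    (k11,k3)],[(k10,k3)],[(k1,k3)],[(k3,k3),(k4,k4)],[(k7,k3),(k0,k5)],[(k6,k3)]]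
    [] k0
    []
    []]⟩

/-- classes `0 0 0 1 0 1`, types `N0 N1 N3 N0 N2 N1` -/
noncomputable def cT6_436 : CertT :=
  ⟨[k12,k13,k15,k28,k14,k29],[],[[[]]],
    [.lp [k6,k8,k6,k6,k6,k6] [k1,k1,k0,k0,k1,k1,k1,k1,k1,k1,k1,k1] k0 [] k24 k5
    [[(k6,k6)],[(k5,k6),(k8,k6)],[(k11,k7),(k2,k8)],[(k4,k7),(k3,k8)],[(k0,k6),(k7,k6)],[(k11,k6),(k2,k7)],[(k5,k6),
    (k8,k6)],[(k1,k6)],[(k10,k6)],[(k0,k6),(k7,k6)],[(k4,k6),(k3,k7)],[(k9,k6)]]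
    [] k0
    []
    []]⟩

/-- classes `0 0 0 1 0 1`, types `N0 N1 N3 N0 N2 N2` -/
noncomputable def cT6_437 : CertT :=
  ⟨[k12,k13,k15,k28,k14,k30],[],[[[]]],
    [.lp [k10,k8,k8,k10,k2,k4] [k0,k0,k1,k1,k1,k1,k0,k0,k4,k4,k3,k3] k0 [[],[],[k0,k0,k0,k0,k0,k2],[],[k0,k0,k0,k2]] k24 k5
    [[(k9,k6)],[(k8,k6),(k5,k9)],[(k11,k6),(k2,k8)],[(k4,k6),(k3,k8)],[(k0,k9),(k7,k11)],[(k2,k6),(k11,k6)],[(k8,k6),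
    (k5,k11)],[(k10,k7)],[(k1,k6)],[(k0,k6),(k7,k6)],[(k3,k6),(k4,k6)],[(k6,k7)]]
    [] k0
    []
    []]⟩

/-- classes `0 0 0 1 0 1`, types `N0 N1 N3 S0 N1 S0` -/
noncomputable def cT6_438 : CertT :=
  ⟨[k12,k13,k15,k16,k13,k16],[],[[[]]],
    [.lp [k6,k8,k6,k6,k12,k6] [k3,k3,k2,k2,k3,k3,k3,k3,k0,k0,k3,k3] k0 [] k24 k5
    [[(k1,k6),(k6,k6),(k10,k6),(k9,k9)],[(k5,k6),(k11,k6)],[(k2,k8),(k8,k10)],[(k4,k7),(k3,k8)],[(k0,k6),(k7,k6)],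
    [(k2,k7),(k8,k9)],[(k5,k6),(k11,k6)],[(k1,k6),(k6,k6),(k10,k6),(k9,k9)],[(k1,k9),(k6,k9),(k10,k9),(k9,k12)],[(k4,
    k9),(k3,k10)],[(k0,k6),(k7,k6)],[(k1,k6),(k6,k6),(k10,k6),(k9,k9)]]
    [] k0
    []
    []]⟩

/-- classes `0 0 0 1 0 1`, types `N0 N1 N3 S0 N2 S0` -/
noncomputable def cT6_439 : CertT :=
  ⟨[k12,k13,k15,k16,k14,k16],[],[[[]]],
    [.lp [k6,k8,k6,k6,k6,k12] [k3,k3,k2,k2,k3,k3,k3,k3,k3,k3,k0,k0] k0 [] k24 k5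
    [[(k1,k6),(k6,k6),(k9,k6),(k10,k9)],[(k5,k6),(k8,k6)],[(k2,k8),(k11,k10)],[(k4,k7),(k3,k8)],[(k0,k6),(k7,k6)],
    [(k2,k7),(k11,k9)],[(k5,k6),(k8,k6)],[(k1,k6),(k6,k6),(k9,k6),(k10,k9)],[(k1,k6),(k6,k6),(k9,k6),(k10,k9)],[(k0,
    k6),(k7,k6)],[(k4,k9),(k3,k10)],[(k1,k9),(k6,k9),(k9,k9),(k10,k12)]]
    [] k0
    []
    []]⟩

/-- classes `0 0 0 1 0 1`, types `N0 N2 N0 B0 N1 B1` -/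
noncomputable def cT6_440 : CertT :=
  ⟨[k12,k14,k12,k24,k13,k25],[],[[[]]],
    [.lp [k4,k4,k2,k4,k2,k6] [k1,k1,k1,k1,k2,k2,k1,k1,k2,k2,k0,k0] k0 [[k0,k0,k0,k0,k0,k0,k0,k0,k2],[],[],[],[],[],[],[],
    [],[k0,k2]] k12 k5
    [[(k9,k3),(k6,k4)],[(k11,k3),(k2,k4)],[(k5,k3),(k8,k5)],[(k4,k3),(k0,k4)],[(k3,k3),(k7,k3)],[(k2,k3),(k11,k4)],
    [(k5,k3),(k8,k3)],[(k1,k4),(k10,k5)],[(k1,k3),(k10,k4)],[(k7,k3),(k3,k5)],[(k0,k3),(k4,k4)],[(k9,k4),(k6,k5)]]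
    [] k0
    []
    []]⟩

/-- classes `0 0 0 1 0 1`, types `N0 N2 N0 B0 N2 B1` -/
noncomputable def cT6_441 : CertT :=
  ⟨[k12,k14,k12,k24,k14,k25],[],[[[]]],
    [.lp [k2,k0,k2,k0,k0,k2] [k0,k0,k1,k1,k0,k0,k1,k1,k1,k1,k0,k0] k0 [] k4 k5
    [[(k6,k1),(k9,k1)],[(k2,k1),(k8,k1)],[(k5,k1),(k11,k1)],[(k0,k1),(k4,k1)],[(k3,k1),(k7,k1)],[(k2,k1),(k8,k1)],
    [(k5,k1),(k11,k1)],[(k1,k1),(k10,k1)],[(k1,k1),(k10,k1)],[(k0,k1),(k4,k1)],[(k3,k1),(k7,k1)],[(k6,k1),(k9,k1)]]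
    [] k0
    []
    []]⟩

/-- classes `0 0 0 1 0 1`, types `N0 N2 N0 C0 N1 C0` -/
noncomputable def cT6_442 : CertT :=
  ⟨[k12,k14,k12,k20,k13,k20],[],[[[]]],
    [.lp [k0,k2,k0,k2,k0,k2] [k1,k1,k0,k0,k1,k1,k0,k0,k1,k1,k0,k0] k0 [] k4 k5
    [[(k6,k1),(k10,k1)],[(k2,k1),(k11,k1)],[(k5,k1),(k8,k1)],[(k0,k1),(k4,k1)],[(k3,k1),(k7,k1)],[(k2,k1),(k11,k1)],
    [(k5,k1),(k8,k1)],[(k1,k1),(k9,k1)],[(k6,k1),(k10,k1)],[(k3,k1),(k7,k1)],[(k0,k1),(k4,k1)],[(k1,k1),(k9,k1)]]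
    [] k0
    []
    []]⟩

/-- classes `0 0 0 1 0 1`, types `N0 N2 N0 C0 N1 C2` -/
noncomputable def cT6_443 : CertT :=
  ⟨[k12,k14,k12,k20,k13,k22],[],[[[]]],
    [.lp [k4,k6,k4,k4,k2,k2] [k1,k1,k0,k0,k1,k1,k1,k1,k2,k2,k2,k2] k0 [[],[],[k0,k0,k0,k0,k0,k2],[],[k0,k0,k0,k2]] k12 k5
    [[(k9,k3),(k10,k3)],[(k11,k3),(k2,k5)],[(k8,k4),(k5,k5)],[(k4,k3),(k0,k5)],[(k3,k5),(k7,k6)],[(k2,k3),(k11,k3)],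
    [(k8,k3),(k5,k6)],[(k9,k3),(k10,k3)],[(k1,k3),(k6,k3)],[(k7,k3),(k3,k4)],[(k0,k3),(k4,k3)],[(k1,k3),(k6,k3)]]
    [] k0
    []
    []]⟩

/-- classes `0 0 0 1 0 1`, types `N0 N2 N0 C0 N2 C0` -/
noncomputable def cT6_444 : CertT :=
  ⟨[k12,k14,k12,k20,k14,k20],[],[[[]]],
    [.lp [k6,k12,k8,k6,k6,k6] [k3,k3,k0,k0,k2,k2,k3,k3,k3,k3,k3,k3] k0 [[],[],[k0,k0,k0,k0,k0,k4],[],[k0,k0,k0,k4]] k24 k5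
    [[(k6,k6),(k10,k6)],[(k8,k6),(k2,k9)],[(k11,k9),(k5,k10)],[(k4,k6),(k0,k9)],[(k3,k10),(k7,k11)],[(k2,k6),(k8,k7)],
    [(k11,k6),(k5,k11)],[(k1,k6),(k9,k6)],[(k6,k6),(k10,k6)],[(k0,k6),(k4,k7)],[(k7,k6),(k3,k9)],[(k1,k6),(k9,k6)]]
    [] k0
    []
    []]⟩

/-- classes `0 0 0 1 0 1`, types `N0 N2 N0 C0 N2 C2` -/
noncomputable def cT6_445 : CertT :=
  ⟨[k12,k14,k12,k20,k14,k22],[],[[[]]],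
    [.lp [k4,k6,k4,k4,k2,k2] [k1,k1,k0,k0,k1,k1,k1,k1,k2,k2,k2,k2] k0 [[],[],[k0,k0,k0,k0,k0,k2],[],[k0,k0,k0,k2]] k12 k5
    [[(k9,k3),(k10,k3)],[(k8,k3),(k2,k5)],[(k11,k4),(k5,k5)],[(k4,k3),(k0,k5)],[(k3,k5),(k7,k6)],[(k2,k3),(k8,k3)],
    [(k11,k3),(k5,k6)],[(k9,k3),(k10,k3)],[(k1,k3),(k6,k3)],[(k0,k3),(k4,k3)],[(k7,k3),(k3,k4)],[(k1,k3),(k6,k3)]]
    [] k0
    []
    []]⟩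

/-- classes `0 0 0 1 0 1`, types `N0 N2 N0 N0 N1 N1` -/
noncomputable def cT6_446 : CertT :=
  ⟨[k12,k14,k12,k28,k13,k29],[],[[[]]],
    [.lp [k0,k2,k0,k2,k0,k2] [k1,k1,k0,k0,k1,k1,k0,k0,k1,k1,k0,k0] k0 [] k4 k5
    [[(k6,k1)],[(k2,k1),(k11,k1)],[(k5,k1),(k8,k1)],[(k0,k1),(k4,k1)],[(k3,k1),(k7,k1)],[(k2,k1),(k11,k1)],[(k5,k1),
    (k8,k1)],[(k1,k1)],[(k10,k1)],[(k3,k1),(k7,k1)],[(k0,k1),(k4,k1)],[(k9,k1)]]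
    [] k0
    []
    []]⟩

/-- classes `0 0 0 1 0 1`, types `N0 N2 N0 N0 N1 N2` -/
noncomputable def cT6_447 : CertT :=
  ⟨[k12,k14,k12,k28,k13,k30],[],[[[]]],
    [.lp [k4,k6,k4,k4,k2,k2] [k1,k1,k0,k0,k1,k1,k1,k1,k2,k2,k2,k2] k0 [[],[],[k0,k0,k0,k0,k0,k2],[],[k0,k0,k0,k2]] k12 k5
    [[(k9,k3)],[(k11,k3),(k2,k5)],[(k8,k4),(k5,k5)],[(k4,k3),(k0,k5)],[(k3,k5),(k7,k6)],[(k2,k3),(k11,k3)],[(k8,k3),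
    (k5,k6)],[(k10,k3)],[(k1,k3)],[(k7,k3),(k3,k4)],[(k0,k3),(k4,k3)],[(k6,k3)]]
    [] k0
    []
    []]⟩

/-- classes `0 0 0 1 0 1`, types `N0 N2 N0 N0 N2 N1` -/
noncomputable def cT6_448 : CertT :=
  ⟨[k12,k14,k12,k28,k14,k29],[],[[[]]],
    [.lp [k2,k0,k2,k0,k0,k2] [k0,k0,k1,k1,k0,k0,k1,k1,k1,k1,k0,k0] k0 [] k4 k5
    [[(k6,k1)],[(k2,k1),(k8,k1)],[(k5,k1),(k11,k1)],[(k0,k1),(k4,k1)],[(k3,k1),(k7,k1)],[(k2,k1),(k8,k1)],[(k5,k1),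
    (k11,k1)],[(k1,k1)],[(k10,k1)],[(k0,k1),(k4,k1)],[(k3,k1),(k7,k1)],[(k9,k1)]]
    [] k0
    []
    []]⟩

/-- classes `0 0 0 1 0 1`, types `N0 N2 N0 N0 N2 N2` -/
noncomputable def cT6_449 : CertT :=
  ⟨[k12,k14,k12,k28,k14,k30],[],[[[]]],
    [.lp [k2,k0,k2,k0,k0,k2] [k0,k0,k1,k1,k0,k0,k1,k1,k1,k1,k0,k0] k0 [] k4 k5
    [[(k9,k1)],[(k2,k1),(k8,k1)],[(k5,k1),(k11,k1)],[(k0,k1),(k4,k1)],[(k3,k1),(k7,k1)],[(k2,k1),(k8,k1)],[(k5,k1),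
    (k11,k1)],[(k10,k1)],[(k1,k1)],[(k0,k1),(k4,k1)],[(k3,k1),(k7,k1)],[(k6,k1)]]
    [] k0
    []
    []]⟩

/-- classes `0 0 0 1 0 1`, types `N0 N2 N0 S0 N1 S0` -/
noncomputable def cT6_450 : CertT :=
  ⟨[k12,k14,k12,k16,k13,k16],[],[[[]]],
    [.lp [k8,k6,k6,k6,k6,k12] [k2,k2,k3,k3,k3,k3,k3,k3,k3,k3,k0,k0] k0 [[k0,k0,k0,k0,k0,k0,k0,k0,k4],[],[],[],[],[],[],[],
    [],[k0,k4]] k24 k5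
    [[(k6,k7),(k9,k7),(k1,k8),(k10,k10)],[(k11,k6),(k2,k7)],[(k5,k6),(k8,k10)],[(k4,k6),(k0,k7)],[(k3,k6),(k7,k6)],
    [(k2,k6),(k11,k9)],[(k5,k6),(k8,k6)],[(k6,k6),(k9,k6),(k1,k7),(k10,k9)],[(k6,k6),(k9,k6),(k1,k7),(k10,k9)],[(k7,
    k6),(k3,k10)],[(k0,k6),(k4,k9)],[(k6,k9),(k9,k9),(k1,k10),(k10,k12)]]
    [] k0
    []
    []]⟩

/-- classes `0 0 0 1 0 1`, types `N0 N2 N0 S0 N2 S0` -/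
noncomputable def cT6_451 : CertT :=
  ⟨[k12,k14,k12,k16,k14,k16],[],[[[]]],
    [.lp [k6,k12,k8,k6,k6,k6] [k3,k3,k0,k0,k2,k2,k3,k3,k3,k3,k3,k3] k0 [[],[],[k0,k0,k0,k0,k0,k4],[],[k0,k0,k0,k4]] k24 k5
    [[(k1,k6),(k6,k6),(k9,k6),(k10,k6)],[(k8,k6),(k2,k9)],[(k11,k9),(k5,k10)],[(k4,k6),(k0,k9)],[(k3,k10),(k7,k11)],
    [(k2,k6),(k8,k7)],[(k11,k6),(k5,k11)],[(k1,k6),(k6,k6),(k9,k6),(k10,k6)],[(k1,k6),(k6,k6),(k9,k6),(k10,k6)],[(k0,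
    k6),(k4,k7)],[(k7,k6),(k3,k9)],[(k1,k6),(k6,k6),(k9,k6),(k10,k6)]]
    [] k0
    []
    []]⟩

/-- classes `0 0 0 1 0 1`, types `N0 N2 N1 B0 N0 B1` -/
noncomputable def cT6_452 : CertT :=
  ⟨[k12,k14,k13,k24,k12,k25],[],[[[]]],
    [.lp [k2,k2,k2,k2,k2,k2] [k0,k0,k0,k0,k0,k0,k0,k0,k0,k0,k0,k0] k0 [] k8 k5
    [[(k6,k2),(k9,k2)],[(k2,k2),(k7,k2)],[(k4,k2),(k5,k2)],[(k0,k2),(k8,k2)],[(k3,k2),(k11,k2)],[(k3,k2),(k11,k2)],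
    [(k0,k2),(k8,k2)],[(k1,k2),(k10,k2)],[(k1,k2),(k10,k2)],[(k2,k2),(k7,k2)],[(k4,k2),(k5,k2)],[(k6,k2),(k9,k2)]]
    [] k0
    []
    []]⟩

/-- classes `0 0 0 1 0 1`, types `N0 N2 N1 B0 N3 B1` -/
noncomputable def cT6_453 : CertT :=
  ⟨[k12,k14,k13,k24,k15,k25],[],[[[]]],
    [.lp [k2,k0,k2,k0,k0,k2] [k0,k0,k1,k1,k0,k0,k1,k1,k1,k1,k0,k0] k0 [] k4 k5
    [[(k6,k1),(k9,k1)],[(k2,k1),(k7,k1)],[(k4,k1),(k5,k1)],[(k0,k1),(k11,k1)],[(k3,k1),(k8,k1)],[(k3,k1),(k8,k1)],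
    [(k0,k1),(k11,k1)],[(k1,k1),(k10,k1)],[(k1,k1),(k10,k1)],[(k4,k1),(k5,k1)],[(k2,k1),(k7,k1)],[(k6,k1),(k9,k1)]]
    [] k0
    []
    []]⟩

/-- classes `0 0 0 1 0 1`, types `N0 N2 N1 C0 N0 C0` -/
noncomputable def cT6_454 : CertT :=
  ⟨[k12,k14,k13,k20,k12,k20],[],[[[]]],
    [.lp [k0,k2,k0,k2,k0,k2] [k1,k1,k0,k0,k1,k1,k0,k0,k1,k1,k0,k0] k0 [] k4 k5
    [[(k6,k1),(k10,k1)],[(k2,k1),(k7,k1)],[(k4,k1),(k5,k1)],[(k0,k1),(k8,k1)],[(k3,k1),(k11,k1)],[(k3,k1),(k11,k1)],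
    [(k0,k1),(k8,k1)],[(k1,k1),(k9,k1)],[(k6,k1),(k10,k1)],[(k2,k1),(k7,k1)],[(k4,k1),(k5,k1)],[(k1,k1),(k9,k1)]]
    [] k0
    []
    []]⟩

/-- classes `0 0 0 1 0 1`, types `N0 N2 N1 C0 N0 C2` -/
noncomputable def cT6_455 : CertT :=
  ⟨[k12,k14,k13,k20,k12,k22],[],[[[]]],
    [.lp [k2,k2,k2,k2,k2,k2] [k0,k0,k0,k0,k0,k0,k0,k0,k0,k0,k0,k0] k0 [] k8 k5
    [[(k9,k2),(k10,k2)],[(k2,k2),(k7,k2)],[(k4,k2),(k5,k2)],[(k0,k2),(k8,k2)],[(k3,k2),(k11,k2)],[(k3,k2),(k11,k2)],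
    [(k0,k2),(k8,k2)],[(k9,k2),(k10,k2)],[(k1,k2),(k6,k2)],[(k2,k2),(k7,k2)],[(k4,k2),(k5,k2)],[(k1,k2),(k6,k2)]]
    [] k0
    []
    []]⟩

/-- classes `0 0 0 1 0 1`, types `N0 N2 N1 C0 N3 C0` -/
noncomputable def cT6_456 : CertT :=
  ⟨[k12,k14,k13,k20,k15,k20],[],[[[]]],
    [.lp [k2,k2,k2,k2,k2,k2] [k0,k0,k0,k0,k0,k0,k0,k0,k0,k0,k0,k0] k0 [] k8 k5
    [[(k6,k2),(k10,k2)],[(k2,k2),(k7,k2)],[(k4,k2),(k5,k2)],[(k0,k2),(k11,k2)],[(k3,k2),(k8,k2)],[(k3,k2),(k8,k2)],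
    [(k0,k2),(k11,k2)],[(k1,k2),(k9,k2)],[(k6,k2),(k10,k2)],[(k4,k2),(k5,k2)],[(k2,k2),(k7,k2)],[(k1,k2),(k9,k2)]]
    [] k0
    []
    []]⟩

/-- classes `0 0 0 1 0 1`, types `N0 N2 N1 C0 N3 C2` -/
noncomputable def cT6_457 : CertT :=
  ⟨[k12,k14,k13,k20,k15,k22],[],[[[]]],
    [.lp [k2,k2,k2,k2,k2,k2] [k0,k0,k0,k0,k0,k0,k0,k0,k0,k0,k0,k0] k0 [] k8 k5
    [[(k9,k2),(k10,k2)],[(k2,k2),(k7,k2)],[(k4,k2),(k5,k2)],[(k0,k2),(k11,k2)],[(k3,k2),(k8,k2)],[(k3,k2),(k8,k2)],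
    [(k0,k2),(k11,k2)],[(k9,k2),(k10,k2)],[(k1,k2),(k6,k2)],[(k4,k2),(k5,k2)],[(k2,k2),(k7,k2)],[(k1,k2),(k6,k2)]]
    [] k0
    []
    []]⟩

/-- classes `0 0 0 1 0 1`, types `N0 N2 N1 N0 N0 N1` -/
noncomputable def cT6_458 : CertT :=
  ⟨[k12,k14,k13,k28,k12,k29],[],[[[]]],
    [.lp [k0,k2,k0,k2,k0,k2] [k1,k1,k0,k0,k1,k1,k0,k0,k1,k1,k0,k0] k0 [] k4 k5
    [[(k6,k1)],[(k2,k1),(k7,k1)],[(k4,k1),(k5,k1)],[(k0,k1),(k8,k1)],[(k3,k1),(k11,k1)],[(k3,k1),(k11,k1)],[(k0,k1),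
    (k8,k1)],[(k1,k1)],[(k10,k1)],[(k2,k1),(k7,k1)],[(k4,k1),(k5,k1)],[(k9,k1)]]
    [] k0
    []
    []]⟩

/-- classes `0 0 0 1 0 1`, types `N0 N2 N1 N0 N0 N2` -/
noncomputable def cT6_459 : CertT :=
  ⟨[k12,k14,k13,k28,k12,k30],[],[[[]]],
    [.lp [k2,k2,k2,k2,k2,k2] [k0,k0,k0,k0,k0,k0,k0,k0,k0,k0,k0,k0] k0 [] k8 k5
    [[(k9,k2)],[(k2,k2),(k7,k2)],[(k4,k2),(k5,k2)],[(k0,k2),(k8,k2)],[(k3,k2),(k11,k2)],[(k3,k2),(k11,k2)],[(k0,k2),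
    (k8,k2)],[(k10,k2)],[(k1,k2)],[(k2,k2),(k7,k2)],[(k4,k2),(k5,k2)],[(k6,k2)]]
    [] k0
    []
    []]⟩

/-- classes `0 0 0 1 0 1`, types `N0 N2 N1 N0 N3 N1` -/
noncomputable def cT6_460 : CertT :=
  ⟨[k12,k14,k13,k28,k15,k29],[],[[[]]],
    [.lp [k2,k0,k2,k0,k0,k2] [k0,k0,k1,k1,k0,k0,k1,k1,k1,k1,k0,k0] k0 [] k4 k5
    [[(k6,k1)],[(k2,k1),(k7,k1)],[(k4,k1),(k5,k1)],[(k0,k1),(k11,k1)],[(k3,k1),(k8,k1)],[(k3,k1),(k8,k1)],[(k0,k1),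
    (k11,k1)],[(k1,k1)],[(k10,k1)],[(k4,k1),(k5,k1)],[(k2,k1),(k7,k1)],[(k9,k1)]]
    [] k0
    []
    []]⟩

/-- classes `0 0 0 1 0 1`, types `N0 N2 N1 N0 N3 N2` -/
noncomputable def cT6_461 : CertT :=
  ⟨[k12,k14,k13,k28,k15,k30],[],[[[]]],
    [.lp [k2,k0,k2,k0,k0,k2] [k0,k0,k1,k1,k0,k0,k1,k1,k1,k1,k0,k0] k0 [] k4 k5
    [[(k9,k1)],[(k2,k1),(k7,k1)],[(k4,k1),(k5,k1)],[(k0,k1),(k11,k1)],[(k3,k1),(k8,k1)],[(k3,k1),(k8,k1)],[(k0,k1),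
    (k11,k1)],[(k10,k1)],[(k1,k1)],[(k4,k1),(k5,k1)],[(k2,k1),(k7,k1)],[(k6,k1)]]
    [] k0
    []
    []]⟩

/-- classes `0 0 0 1 0 1`, types `N0 N2 N1 S0 N0 S0` -/
noncomputable def cT6_462 : CertT :=
  ⟨[k12,k14,k13,k16,k12,k16],[],[[[]]],
    [.lp [k4,k4,k4,k4,k4,k6] [k1,k1,k1,k1,k1,k1,k1,k1,k1,k1,k0,k0] k0 [] k16 k5
    [[(k1,k4),(k6,k4),(k9,k4),(k10,k5)],[(k2,k4),(k7,k4)],[(k4,k4),(k5,k4)],[(k0,k4),(k8,k4)],[(k3,k4),(k11,k5)],[(k3,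
    k4),(k11,k5)],[(k0,k4),(k8,k4)],[(k1,k4),(k6,k4),(k9,k4),(k10,k5)],[(k1,k4),(k6,k4),(k9,k4),(k10,k5)],[(k2,k4),
    (k7,k4)],[(k4,k5),(k5,k5)],[(k1,k5),(k6,k5),(k9,k5),(k10,k6)]]
    [] k0
    []
    []]⟩

/-- classes `0 0 0 1 0 1`, types `N0 N2 N1 S0 N3 S0` -/
noncomputable def cT6_463 : CertT :=
  ⟨[k12,k14,k13,k16,k15,k16],[],[[[]]],
    [.lp [k4,k4,k4,k4,k6,k4] [k1,k1,k1,k1,k1,k1,k1,k1,k0,k0,k1,k1] k0 [] k16 k5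
    [[(k1,k4),(k6,k4),(k10,k4),(k9,k5)],[(k2,k4),(k7,k4)],[(k4,k4),(k5,k4)],[(k0,k4),(k11,k4)],[(k3,k4),(k8,k5)],[(k3,
    k4),(k8,k5)],[(k0,k4),(k11,k4)],[(k1,k4),(k6,k4),(k10,k4),(k9,k5)],[(k1,k5),(k6,k5),(k10,k5),(k9,k6)],[(k4,k5),
    (k5,k5)],[(k2,k4),(k7,k4)],[(k1,k4),(k6,k4),(k10,k4),(k9,k5)]]
    [] k0
    []
    []]⟩

/-- classes `0 0 0 1 0 1`, types `S0 S0 S0 B0 S0 B1` -/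
noncomputable def cT6_464 : CertT :=
  ⟨[k0,k0,k0,k24,k0,k25],[(false,k0,[k0,k1,k2,k3,k4,k5])],[[[([z1,z0,z1,z0,z1,z0],z2)],[([z1,z1,z0,z0,z1,z0],z2)],
    []]],
    [.leafM k5 [k0,k1,k2,k3,k4,k5] [(z1,[y1,z1]),(z1,[z1])] [],
    .leafM k3 [k3,k4,k5,k0,k1,k2] [(z1,[z1])] [],
    .lp [k12,k18,k16,k18,k18,k12] [k3,k3,k0,k0,k1,k1,k0,k0,k0,k0,k3,k3] k0 [[],[k0,k0,k0,k2],[k2,k0,k0,k0,k0,k2],[],[k0,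
    k0,k0,k2],[k0,k0,k0,k0,k0,k0,k0,k0,k2,k2],[],[],[k0,k0,k0,k0,k2],[k0,k0,k0,k0,k2]] k48 k5
    [[(k6,k15),(k9,k15)],[(k0,k12),(k11,k12),(k4,k14),(k2,k15),(k3,k15),(k7,k15),(k8,k15),(k5,k16)],[(k0,k15),(k11,
    k15),(k2,k16),(k4,k17),(k5,k17),(k3,k18),(k7,k18),(k8,k18)],[(k0,k15),(k4,k15),(k11,k15),(k3,k16),(k5,k17),(k2,
    k18),(k7,k18),(k8,k18)],[(k11,k14),(k0,k16),(k4,k16),(k5,k16),(k2,k17),(k3,k17),(k8,k17),(k7,k19)],[(k0,k14),(k2,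
    k15),(k4,k16),(k5,k16),(k11,k16),(k3,k17),(k7,k17),(k8,k19)],[(k11,k13),(k0,k15),(k8,k16),(k4,k17),(k2,k18),(k3,
    k18),(k7,k18),(k5,k19)],[(k1,k15),(k10,k15)],[(k1,k15),(k10,k15)],[(k0,k15),(k11,k15),(k7,k16),(k5,k17),(k2,k18),
    (k3,k18),(k8,k18),(k4,k19)],[(k0,k12),(k11,k12),(k7,k13),(k5,k14),(k2,k15),(k3,k15),(k8,k15),(k4,k16)],[(k6,k15),
    (k9,k15)]]
    [] k0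
    [[k1,k0,k1,k0,k1,k0],[k0,k0,k1,k1,k0,k1]]
    [.ref k0 k0 [(z1,[z1])],.ref k1 k0 [(z1,[y1,z1])]]]⟩

/-- classes `0 0 0 1 0 1`, types `S0 S0 S0 C0 S0 C0` -/
noncomputable def cT6_465 : CertT :=
  ⟨[k0,k0,k0,k20,k0,k20],[(false,k0,[k0,k1,k2,k3,k4,k5])],[[[([z1,z1,z0,z0,z0,z1],z2)],[([z1,z0,z1,z0,z0,z1],z2)],
    []]],
    [.leafM k0 [k1,k2,k3,k4,k5,k0] [(z1,[y1,z1])] [],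
    .leafM k3 [k0,k1,k2,k3,k4,k5] [(z1,[y1,z1])] [],
    .lp [k16,k16,k18,k14,k18,k12] [k1,k1,k1,k1,k0,k0,k2,k2,k0,k0,k3,k3] k0 [[k0,k0,k0,k0,k0,k0,k0,k0,k2,k2],[k0,k0,k2],[],
    [k2,k0,k0,k0,k0,k2],[k0,k0,k2],[],[],[],[k0,k2],[k0,k2]] k48 k5
    [[(k10,k14),(k6,k15)],[(k11,k12),(k7,k15),(k8,k15),(k0,k16),(k3,k16),(k4,k17),(k5,k17),(k2,k18)],[(k5,k15),(k7,
    k15),(k0,k16),(k2,k16),(k3,k16),(k11,k16),(k4,k17),(k8,k19)],[(k11,k14),(k2,k16),(k3,k16),(k4,k17),(k5,k17),(k7,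
    k17),(k8,k17),(k0,k18)],[(k3,k15),(k11,k15),(k4,k16),(k7,k16),(k0,k17),(k2,k17),(k5,k18),(k8,k18)],[(k11,k15),(k5,
    k16),(k7,k16),(k0,k17),(k2,k17),(k3,k17),(k4,k18),(k8,k18)],[(k11,k13),(k7,k14),(k0,k15),(k3,k15),(k4,k16),(k5,
    k16),(k8,k16),(k2,k17)],[(k1,k15),(k9,k16)],[(k10,k15),(k6,k16)],[(k0,k15),(k11,k15),(k7,k16),(k2,k17),(k4,k18),
    (k5,k18),(k8,k18),(k3,k19)],[(k0,k12),(k11,k12),(k7,k13),(k2,k14),(k4,k15),(k5,k15),(k8,k15),(k3,k16)],[(k1,k14),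
    (k9,k15)]]
    [] k0
    [[k1,k1,k0,k0,k0,k1],[k1,k0,k1,k0,k0,k1]]
    [.ref k0 k0 [(z1,[z1])],.ref k1 k0 [(z1,[z1])]]]⟩

/-- classes `0 0 0 1 0 1`, types `S0 S0 S0 C0 S0 C2` -/
noncomputable def cT6_466 : CertT :=
  ⟨[k0,k0,k0,k20,k0,k22],[(false,k0,[k0,k1,k2,k3,k4,k5])],[[[([z1,z0,z1,z0,z0,z1],z2)],[([z1,z0,z1,z0,z1,z0],z2)],
    [([z1,z1,z0,z0,z0,z1],z2)],[([z1,z1,z0,z0,z1,z0],z2)],[]]],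
    [.leafM k3 [k0,k1,k2,k3,k4,k5] [(z1,[y1,z1])] [],
    .leafM k5 [k0,k1,k2,k3,k4,k5] [(z1,[y1,z1]),(z1,[z1])] [],
    .leafM k0 [k1,k2,k3,k4,k5,k0] [(z1,[y1,z1])] [],
    .leafM k3 [k3,k4,k5,k0,k1,k2] [(z1,[z1])] [],
    .lp [k8,k10,k8,k6,k8,k6] [k1,k1,k0,k0,k1,k1,k2,k2,k1,k1,k2,k2] k0 [] k24 k5
    [[(k10,k7),(k9,k8)],[(k7,k7),(k11,k7),(k0,k8),(k4,k8),(k5,k8),(k8,k8),(k2,k9),(k3,k9)],[(k7,k8),(k11,k8),(k0,k9),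
    (k4,k9),(k5,k9),(k8,k9),(k2,k10),(k3,k10)],[(k7,k8),(k11,k8),(k0,k9),(k4,k9),(k5,k9),(k8,k9),(k2,k10),(k3,k10)],
    [(k7,k7),(k11,k7),(k0,k8),(k4,k8),(k5,k8),(k8,k8),(k2,k9),(k3,k9)],[(k7,k7),(k11,k7),(k0,k8),(k4,k8),(k5,k8),(k8,
    k8),(k2,k9),(k3,k9)],[(k7,k6),(k11,k6),(k0,k7),(k4,k7),(k5,k7),(k8,k7),(k2,k8),(k3,k8)],[(k10,k6),(k9,k7)],[(k6,
    k7),(k1,k8)],[(k7,k7),(k11,k7),(k0,k8),(k4,k8),(k5,k8),(k8,k8),(k2,k9),(k3,k9)],[(k7,k6),(k11,k6),(k0,k7),(k4,k7),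
    (k5,k7),(k8,k7),(k2,k8),(k3,k8)],[(k6,k6),(k1,k7)]]
    [] k0
    [[k1,k0,k1,k0,k0,k1],[k0,k1,k0,k1,k0,k1],[k0,k0,k1,k1,k1,k0],[k0,k0,k1,k1,k0,k1]]
    [.ref k0 k0 [(z1,[z1])],.ref k1 k0 [(z1,[y1,z1])],.ref k2 k0 [(z1,[y1,z1])],.ref k3 k0 [(z1,[y1,z1])]]]⟩

/-- classes `0 0 0 1 0 1`, types `S0 S0 S0 N0 S0 N1` -/
noncomputable def cT6_467 : CertT :=
  ⟨[k0,k0,k0,k28,k0,k29],[],[[[]]],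
    [.lp [k32,k34,k38,k24,k28,k28] [k3,k3,k2,k2,k0,k0,k7,k7,k5,k5,k5,k5] k0 [[k0,k0,k0,k0,k0,k0,k0,k0,k6,k6],[k0,k0,k6,k2],
    [k2,k0,k0,k0,k0,k2],[k6,k0,k0,k0,k0,k6],[k0,k0,k6,k2],[k0,k0,k0,k0,k0,k0,k0,k0,k2,k2],[],[],[k0,k6,k0,k0,k2],[k0,
    k6,k0,k0,k2]] k96 k5
    [[(k6,k28)],[(k8,k24),(k11,k24),(k7,k28),(k0,k32),(k3,k33),(k4,k35),(k5,k37),(k2,k39)],[(k7,k29),(k5,k30),(k2,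
    k32),(k0,k33),(k3,k34),(k4,k36),(k8,k37),(k11,k37)],[(k8,k31),(k11,k31),(k3,k32),(k2,k34),(k4,k34),(k7,k35),(k5,
    k36),(k0,k39)],[(k3,k30),(k4,k32),(k7,k33),(k8,k33),(k11,k33),(k2,k36),(k0,k37),(k5,k38)],[(k7,k31),(k5,k32),(k2,
    k34),(k0,k35),(k8,k35),(k11,k35),(k3,k36),(k4,k38)],[(k7,k24),(k8,k24),(k11,k24),(k0,k28),(k3,k29),(k4,k31),(k5,
    k33),(k2,k35)],[(k1,k28)],[(k10,k28)],[(k0,k24),(k7,k24),(k8,k28),(k11,k28),(k2,k31),(k5,k33),(k4,k35),(k3,k37)],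
    [(k0,k24),(k7,k24),(k8,k28),(k11,k28),(k2,k31),(k5,k33),(k4,k35),(k3,k37)],[(k9,k28)]]
    [] k0
    []
    []]⟩

/-- classes `0 0 0 1 0 1`, types `S0 S0 S0 N0 S0 N2` -/
noncomputable def cT6_468 : CertT :=
  ⟨[k0,k0,k0,k28,k0,k30],[(false,k0,[k0,k1,k2,k3,k4,k5])],[[[([z1,z1,z0,z0,z1,z0],z2)],[([z1,z0,z1,z0,z1,z0],z2)],
    []]],
    [.leafM k3 [k3,k4,k5,k0,k1,k2] [(z1,[z1])] [],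
    .leafM k5 [k0,k1,k2,k3,k4,k5] [(z1,[y1,z1]),(z1,[z1])] [],
    .lp [k6,k8,k12,k6,k6,k6] [k3,k3,k2,k2,k0,k0,k3,k3,k3,k3,k3,k3] k0 [] k24 k5
    [[(k9,k6)],[(k0,k6),(k7,k6),(k8,k6),(k11,k6),(k2,k7),(k3,k7),(k4,k9),(k5,k9)],[(k0,k7),(k7,k7),(k8,k7),(k11,k7),
    (k2,k8),(k3,k8),(k4,k10),(k5,k10)],[(k0,k7),(k7,k7),(k8,k7),(k11,k7),(k2,k8),(k3,k8),(k4,k10),(k5,k10)],[(k0,k9),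
    (k7,k9),(k8,k9),(k11,k9),(k2,k10),(k3,k10),(k4,k12),(k5,k12)],[(k0,k9),(k7,k9),(k8,k9),(k11,k9),(k2,k10),(k3,k10),
    (k4,k12),(k5,k12)],[(k0,k6),(k7,k6),(k8,k6),(k11,k6),(k2,k7),(k3,k7),(k4,k9),(k5,k9)],[(k10,k6)],[(k1,k6)],[(k0,
    k6),(k7,k6),(k8,k6),(k11,k6),(k2,k7),(k3,k7),(k4,k9),(k5,k9)],[(k0,k6),(k7,k6),(k8,k6),(k11,k6),(k2,k7),(k3,k7),
    (k4,k9),(k5,k9)],[(k6,k6)]]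
    [] k0
    [[k1,k1,k0,k0,k1,k0],[k0,k1,k0,k1,k0,k1]]
    [.ref k0 k0 [(z1,[z1])],.ref k1 k0 [(z1,[y1,z1])]]]⟩

/-- classes `0 0 0 1 0 2`, types `B0 B0 B1 C0 B1 C0` -/
noncomputable def cT6_469 : CertT :=
  ⟨[k8,k8,k9,k20,k9,k36],[(false,k0,[k0,k1,k2,k3,k4,k5])],[[[([z1,z0,z1,z0,z0,z1],z2)],[]]],
    [.leafM k3 [k0,k1,k2,k3,k4,k5] [(z1,[y1,z1])] [],
    .lp [k6,k6,k8,k6,k6,k10] [k2,k2,k2,k2,k1,k1,k2,k2,k2,k2,k0,k0] k0 [] k24 k5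
    [[(k10,k8)],[(k7,k6),(k8,k6),(k4,k7),(k11,k8)],[(k7,k6),(k8,k6),(k4,k7),(k11,k8)],[(k7,k6),(k8,k6),(k4,k7),(k11,
    k8)],[(k7,k7),(k8,k7),(k4,k8),(k11,k9)],[(k0,k7),(k2,k7),(k3,k7),(k5,k8)],[(k0,k6),(k2,k6),(k3,k6),(k5,k7)],[(k9,
    k6)],[(k6,k6)],[(k0,k6),(k2,k6),(k3,k6),(k5,k7)],[(k0,k8),(k2,k8),(k3,k8),(k5,k9)],[(k1,k8)]]
    [] k0
    [[k0,k1,k0,k1,k1,k0]]
    [.ref k0 k0 [(z1,[y1,z1])]]]⟩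

/-- classes `0 0 0 1 0 2`, types `B0 B0 B1 C0 B1 S0` -/
noncomputable def cT6_470 : CertT :=
  ⟨[k8,k8,k9,k20,k9,k32],[(false,k0,[k0,k1,k2,k3,k4,k5])],[[[([z1,z0,z1,z0,z0,z1],z2)],[]]],
    [.leafM k3 [k0,k1,k2,k3,k4,k5] [(z1,[y1,z1])] [],
    .lp [k6,k12,k8,k6,k6,k6] [k3,k3,k0,k0,k2,k2,k3,k3,k3,k3,k3,k3] k0 [] k24 k5
    [[(k1,k6),(k10,k6)],[(k7,k6),(k8,k6),(k11,k6),(k4,k7)],[(k7,k9),(k8,k9),(k11,k9),(k4,k10)],[(k7,k9),(k8,k9),(k11,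
    k9),(k4,k10)],[(k7,k7),(k8,k7),(k11,k7),(k4,k8)],[(k0,k7),(k5,k8),(k2,k10),(k3,k10)],[(k0,k6),(k5,k7),(k2,k9),(k3,
    k9)],[(k9,k6)],[(k6,k6)],[(k0,k6),(k5,k7),(k2,k9),(k3,k9)],[(k0,k6),(k5,k7),(k2,k9),(k3,k9)],[(k1,k6),(k10,k6)]]
    [] k0
    [[k1,k0,k1,k0,k0,k1]]
    [.ref k0 k0 [(z1,[z1])]]]⟩

/-- classes `0 0 0 1 0 2`, types `B0 B0 B1 S0 B1 C0` -/
noncomputable def cT6_471 : CertT :=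
  ⟨[k8,k8,k9,k16,k9,k36],[(false,k0,[k0,k1,k2,k3,k4,k5])],[[[([z1,z0,z1,z0,z0,z1],z2)],[]]],
    [.leafM k3 [k0,k1,k2,k3,k4,k5] [(z1,[y1,z1])] [],
    .lp [k2,k4,k4,k4,k4,k4] [k1,k1,k0,k0,k0,k0,k0,k0,k0,k0,k0,k0] k0 [] k12 k5
    [[(k10,k3)],[(k4,k3),(k7,k3),(k8,k3),(k11,k3)],[(k4,k4),(k7,k4),(k8,k4),(k11,k4)],[(k4,k4),(k7,k4),(k8,k4),(k11,
    k4)],[(k4,k4),(k7,k4),(k8,k4),(k11,k4)],[(k0,k3),(k2,k4),(k3,k4),(k5,k4)],[(k0,k3),(k2,k4),(k3,k4),(k5,k4)],[(k6,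
    k4),(k9,k4)],[(k6,k4),(k9,k4)],[(k0,k3),(k2,k4),(k3,k4),(k5,k4)],[(k0,k3),(k2,k4),(k3,k4),(k5,k4)],[(k1,k3)]]
    [] k0
    [[k1,k0,k1,k0,k0,k1]]
    [.ref k0 k0 [(z1,[z1])]]]⟩

/-- classes `0 0 0 1 0 2`, types `B0 B0 B1 S0 B1 S0` -/
noncomputable def cT6_472 : CertT :=
  ⟨[k8,k8,k9,k16,k9,k32],[(false,k0,[k0,k1,k2,k3,k4,k5])],[[[([z1,z0,z1,z0,z0,z1],z2)],[]]],
    [.leafM k3 [k0,k1,k2,k3,k4,k5] [(z1,[y1,z1])] [],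
    .lp [k18,k24,k16,k12,k12,k12] [k3,k3,k0,k0,k4,k4,k6,k6,k6,k6,k6,k6] k0 [[k0,k0,k0,k0,k0,k0,k0,k0,k2],[],[k0,k0,k0,k0,
    k0,k0,k0,k0,k0,k2],[],[],[],[],[],[k0,k0,k0,k2],[k0,k2]] k48 k5
    [[(k10,k15),(k1,k18)],[(k11,k13),(k7,k15),(k8,k15),(k4,k17)],[(k7,k18),(k11,k18),(k4,k20),(k8,k20)],[(k8,k16),(k7,
    k18),(k11,k18),(k4,k20)],[(k7,k14),(k8,k14),(k4,k16),(k11,k16)],[(k5,k16),(k0,k17),(k2,k20),(k3,k20)],[(k5,k14),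
    (k0,k15),(k2,k18),(k3,k18)],[(k6,k12),(k9,k12)],[(k6,k12),(k9,k12)],[(k5,k14),(k0,k15),(k2,k16),(k3,k20)],[(k0,
    k13),(k5,k16),(k2,k18),(k3,k18)],[(k10,k12),(k1,k15)]]
    [] k0
    [[k0,k1,k0,k1,k1,k0]]
    [.ref k0 k0 [(z1,[y1,z1])]]]⟩

/-- classes `0 0 0 1 0 2`, types `B0 B1 B0 C0 B1 C0` -/
noncomputable def cT6_473 : CertT :=
  ⟨[k8,k9,k8,k20,k9,k36],[],[[[]]],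
    [.lp [k8,k16,k18,k8,k20,k22] [k7,k7,k3,k3,k2,k2,k7,k7,k1,k1,k0,k0] k0 [[k0,k0,k0,k0,k0,k0,k0,k0,k3,k2],[],[k0,k0,k0,k0,
    k0,k2],[k0,k0,k0,k0,k0,k1],[k0,k0,k1,k2],[],[],[],[k0,k2],[k0,k3]] k48 k5
    [[(k10,k15)],[(k2,k12),(k8,k12),(k11,k12),(k5,k13)],[(k2,k16),(k5,k17),(k8,k21),(k11,k21)],[(k0,k12),(k7,k13),(k4,
    k15),(k3,k16)],[(k0,k13),(k7,k15),(k3,k17),(k4,k17)],[(k2,k15),(k5,k17),(k8,k19),(k11,k20)],[(k2,k13),(k8,k14),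
    (k5,k15),(k11,k15)],[(k9,k14)],[(k6,k14)],[(k0,k12),(k7,k14),(k4,k19),(k3,k21)],[(k0,k12),(k7,k15),(k4,k20),(k3,
    k21)],[(k1,k15)]]
    [] k0
    []
    []]⟩

/-- classes `0 0 0 1 0 2`, types `B0 B1 B0 C0 B1 S0` -/
noncomputable def cT6_474 : CertT :=
  ⟨[k8,k9,k8,k20,k9,k32],[],[[[]]],
    [.lp [k12,k16,k18,k6,k22,k18] [k5,k5,k3,k3,k2,k2,k8,k8,k0,k0,k2,k2] k0 [[k0,k0,k0,k0,k0,k0,k0,k0,k3,k2],[],[k0,k0,k0,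
    k0,k0,k2],[k0,k0,k0,k0,k0,k2],[k0,k0,k2,k2],[],[],[],[k0,k2],[k0,k3]] k48 k5
    [[(k1,k12),(k10,k15)],[(k11,k12),(k2,k14),(k5,k15),(k8,k15)],[(k2,k16),(k5,k17),(k11,k19),(k8,k22)],[(k7,k13),(k0,
    k14),(k4,k15),(k3,k16)],[(k7,k14),(k0,k15),(k4,k16),(k3,k17)],[(k2,k15),(k5,k16),(k11,k18),(k8,k20)],[(k11,k12),
    (k2,k13),(k5,k14),(k8,k14)],[(k9,k14)],[(k6,k14)],[(k7,k14),(k0,k15),(k4,k20),(k3,k22)],[(k0,k12),(k7,k12),(k4,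
    k18),(k3,k19)],[(k1,k15),(k10,k18)]]
    [] k0
    []
    []]⟩

/-- classes `0 0 0 1 0 2`, types `B0 B1 B0 S0 B1 S0` -/
noncomputable def cT6_475 : CertT :=
  ⟨[k8,k9,k8,k16,k9,k32],[],[[[]]],
    [.lp [k46,k42,k44,k38,k30,k30] [k0,k0,k2,k2,k1,k1,k4,k4,k8,k8,k8,k8] k0 [[k0,k0,k0,k0,k0,k0,k0,k0,k8,k2],[],[k0,k0,k0,
    k0,k0,k8],[k0,k0,k0,k0,k0,k2],[k0,k0,k2,k8],[],[],[],[k0,k2],[k0,k8]] k120 k5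
    [[(k10,k38),(k1,k46)],[(k11,k30),(k8,k36),(k2,k44),(k5,k45)],[(k11,k38),(k2,k42),(k5,k43),(k8,k44)],[(k4,k35),(k3,
    k42),(k7,k42),(k0,k44)],[(k4,k42),(k3,k43),(k0,k45),(k7,k49)],[(k2,k35),(k8,k37),(k11,k37),(k5,k42)],[(k8,k34),
    (k11,k34),(k2,k42),(k5,k49)],[(k9,k34),(k6,k38)],[(k9,k30),(k6,k34)],[(k7,k34),(k0,k36),(k4,k37),(k3,k44)],[(k0,
    k30),(k7,k34),(k4,k37),(k3,k38)],[(k10,k30),(k1,k38)]]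
    [] k0
    []
    []]⟩

/-- the certificates of this file -/
noncomputable def lT6_6 : List CertT :=
  [cT6_282, cT6_283, cT6_284, cT6_285, cT6_286, cT6_287, cT6_288, cT6_289, cT6_290, cT6_291, cT6_292, cT6_293,
      cT6_294, cT6_295, cT6_296, cT6_297, cT6_298, cT6_299, cT6_300, cT6_301, cT6_302, cT6_303, cT6_304,
      cT6_305, cT6_306, cT6_307, cT6_308, cT6_309, cT6_310, cT6_311, cT6_312, cT6_313, cT6_314, cT6_315,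
      cT6_316, cT6_317, cT6_318, cT6_319, cT6_320, cT6_321, cT6_322, cT6_323, cT6_324, cT6_325, cT6_326,
      cT6_327, cT6_328, cT6_329, cT6_330, cT6_331, cT6_332, cT6_333, cT6_334, cT6_335, cT6_336, cT6_337,
      cT6_338, cT6_339, cT6_340, cT6_341, cT6_342, cT6_343, cT6_344, cT6_345, cT6_346, cT6_347, cT6_348,
      cT6_349, cT6_350, cT6_351, cT6_352, cT6_353, cT6_354, cT6_355, cT6_356, cT6_357, cT6_358, cT6_359,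
      cT6_360, cT6_361, cT6_362, cT6_363, cT6_364, cT6_365, cT6_366, cT6_367, cT6_368, cT6_369, cT6_370,
      cT6_371, cT6_372, cT6_373, cT6_374, cT6_375, cT6_376, cT6_377, cT6_378, cT6_379, cT6_380, cT6_381,
      cT6_382, cT6_383, cT6_384, cT6_385, cT6_386, cT6_387, cT6_388, cT6_389, cT6_390, cT6_391, cT6_392,
      cT6_393, cT6_394, cT6_395, cT6_396, cT6_397, cT6_398, cT6_399, cT6_400, cT6_401, cT6_402, cT6_403,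
      cT6_404, cT6_405, cT6_406, cT6_407, cT6_408, cT6_409, cT6_410, cT6_411, cT6_412, cT6_413, cT6_414,
      cT6_415, cT6_416, cT6_417, cT6_418, cT6_419, cT6_420, cT6_421, cT6_422, cT6_423, cT6_424, cT6_425,
      cT6_426, cT6_427, cT6_428, cT6_429, cT6_430, cT6_431, cT6_432, cT6_433, cT6_434, cT6_435, cT6_436,
      cT6_437, cT6_438, cT6_439, cT6_440, cT6_441, cT6_442, cT6_443, cT6_444, cT6_445, cT6_446, cT6_447,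
      cT6_448, cT6_449, cT6_450, cT6_451, cT6_452, cT6_453, cT6_454, cT6_455, cT6_456, cT6_457, cT6_458,
      cT6_459, cT6_460, cT6_461, cT6_462, cT6_463, cT6_464, cT6_465, cT6_466, cT6_467, cT6_468, cT6_469,
      cT6_470, cT6_471, cT6_472, cT6_473, cT6_474, cT6_475]

theorem gT6_6 : allF (chkC 6 tt6) lT6_6 = true := by
  decide +kernel

end Pool.Agent.Lib_MP_fa6e45
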