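import Pool.Agent.Lib_MP_fa6e45.CSTT
import Pool.Agent.Lib_MP_fa6e45.HK

/-!
MP_fa6e45_co, stage 5: certificates (captain, generated by a program).
-/

namespace Pool.Agent.Lib_MP_fa6e45

/-- classes `0 0 0 1 0 2`, types `C0 C0 C0 C0 C0 C0` -/
noncomputable def cT6_476 : CertT :=
  ⟨[k4,k4,k4,k20,k4,k36],[(false,k0,[k0,k1,k2,k3,k4,k5])],[[[([z1,z1,z0,z0,z0,z1],z2)],[]]],
    [.leafM k0 [k1,k2,k3,k4,k5,k0] [(z1,[y1,z1])] [],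
    .lp [k10,k8,k10,k2,k12,k4] [k1,k1,k2,k2,k1,k1,k5,k5,k0,k0,k4,k4] k0 [[k0,k0,k0,k0,k0,k0,k0,k0,k1],[],[],[k0,k0,k0,k0,
    k0,k1],[k0,k0,k1],[],[],[],[],[k0,k1]] k24 k5
    [[(k10,k7)],[(k7,k6),(k11,k6),(k3,k9),(k5,k10)],[(k2,k8),(k0,k9),(k4,k9),(k8,k11)],[(k7,k6),(k11,k6),(k3,k8),(k5,
    k9)],[(k2,k9),(k4,k9),(k0,k10),(k8,k11)],[(k7,k6),(k11,k7),(k3,k9),(k5,k9)],[(k0,k6),(k2,k6),(k4,k6),(k8,k7)],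
    [(k9,k7)],[(k6,k7)],[(k7,k7),(k11,k8),(k3,k11),(k5,k11)],[(k0,k6),(k2,k6),(k4,k7),(k8,k8)],[(k1,k7)]]
    [] k0
    [[k1,k1,k0,k0,k0,k1]]
    [.ref k0 k0 [(z1,[z1])]]]⟩

/-- classes `0 0 0 1 0 2`, types `C0 C0 C0 C0 C0 S0` -/
noncomputable def cT6_477 : CertT :=
  ⟨[k4,k4,k4,k20,k4,k32],[(false,k0,[k0,k1,k2,k3,k4,k5])],[[[([z1,z1,z0,z0,z0,z1],z2)],[]]],
    [.leafM k0 [k1,k2,k3,k4,k5,k0] [(z1,[y1,z1])] [],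
    .lp [k10,k8,k8,k4,k10,k6] [k0,k0,k1,k1,k1,k1,k3,k3,k0,k0,k2,k2] k0 [[k0,k0,k0,k0,k0,k0,k0,k0,k2],[],[],[],[],[],[],[],
    [],[k0,k2]] k24 k5
    [[(k10,k8),(k1,k10)],[(k11,k6),(k7,k7),(k3,k9),(k5,k9)],[(k2,k8),(k4,k8),(k0,k9),(k8,k11)],[(k7,k6),(k11,k7),(k3,
    k8),(k5,k8)],[(k2,k8),(k4,k8),(k0,k9),(k8,k9)],[(k7,k6),(k11,k7),(k3,k8),(k5,k8)],[(k2,k6),(k4,k6),(k0,k7),(k8,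
    k7)],[(k9,k7)],[(k6,k7)],[(k7,k7),(k11,k8),(k5,k9),(k3,k11)],[(k0,k6),(k2,k7),(k4,k7),(k8,k8)],[(k10,k6),(k1,k8)]]
    [] k0
    [[k0,k0,k1,k1,k1,k0]]
    [.ref k0 k0 [(z1,[y1,z1])]]]⟩

/-- classes `0 0 0 1 0 2`, types `C0 C0 C0 C0 C2 C0` -/
noncomputable def cT6_478 : CertT :=
  ⟨[k4,k4,k4,k20,k6,k36],[],[[[]]],
    [.lp [k6,k8,k8,k6,k6,k6] [k1,k1,k0,k0,k0,k0,k1,k1,k1,k1,k1,k1] k0 [] k24 k5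
    [[(k10,k6)],[(k7,k6),(k8,k6),(k3,k7),(k5,k7)],[(k0,k7),(k11,k7),(k2,k8),(k4,k8)],[(k7,k7),(k8,k7),(k3,k8),(k5,
    k8)],[(k0,k7),(k11,k7),(k2,k8),(k4,k8)],[(k7,k7),(k8,k7),(k3,k8),(k5,k8)],[(k0,k6),(k11,k6),(k2,k7),(k4,k7)],[(k9,
    k6)],[(k6,k6)],[(k0,k6),(k11,k6),(k2,k7),(k4,k7)],[(k7,k6),(k8,k6),(k3,k7),(k5,k7)],[(k1,k6)]]
    [] k0
    []
    []]⟩

/-- classes `0 0 0 1 0 2`, types `C0 C0 C0 C0 C2 S0` -/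
noncomputable def cT6_479 : CertT :=
  ⟨[k4,k4,k4,k20,k6,k32],[],[[[]]],
    [.lp [k6,k8,k8,k6,k6,k6] [k1,k1,k0,k0,k0,k0,k1,k1,k1,k1,k1,k1] k0 [] k24 k5
    [[(k1,k6),(k10,k6)],[(k7,k6),(k8,k6),(k3,k7),(k5,k7)],[(k0,k7),(k11,k7),(k2,k8),(k4,k8)],[(k7,k7),(k8,k7),(k3,k8),
    (k5,k8)],[(k0,k7),(k11,k7),(k2,k8),(k4,k8)],[(k7,k7),(k8,k7),(k3,k8),(k5,k8)],[(k0,k6),(k11,k6),(k2,k7),(k4,k7)],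
    [(k9,k6)],[(k6,k6)],[(k0,k6),(k11,k6),(k2,k7),(k4,k7)],[(k7,k6),(k8,k6),(k3,k7),(k5,k7)],[(k1,k6),(k10,k6)]]
    [] k0
    []
    []]⟩

/-- classes `0 0 0 1 0 2`, types `C0 C0 C0 S0 C0 S0` -/
noncomputable def cT6_480 : CertT :=
  ⟨[k4,k4,k4,k16,k4,k32],[(false,k0,[k0,k1,k2,k3,k4,k5])],[[[([z1,z1,z0,z0,z0,z1],z2)],[]]],
    [.leafM k0 [k1,k2,k3,k4,k5,k0] [(z1,[y1,z1])] [],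
    .lp [k12,k16,k18,k18,k12,k16] [k3,k3,k1,k1,k0,k0,k0,k0,k3,k3,k1,k1] k0 [[k0,k0,k0,k0,k0,k0,k0,k0,k2],[],[],[],[],[k0,
    k0,k0,k0,k0,k0,k0,k0,k0,k2],[],[],[k0,k0,k0,k0,k2],[k0,k2]] k48 k5
    [[(k1,k12),(k10,k14)],[(k11,k12),(k3,k14),(k5,k15),(k7,k15)],[(k0,k14),(k2,k16),(k8,k16),(k4,k17)],[(k3,k16),(k11,
    k16),(k5,k17),(k7,k17)],[(k0,k15),(k8,k15),(k2,k17),(k4,k18)],[(k3,k17),(k5,k18),(k7,k18),(k11,k19)],[(k8,k13),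
    (k0,k15),(k2,k17),(k4,k18)],[(k9,k15),(k6,k18)],[(k9,k12),(k6,k15)],[(k7,k13),(k11,k14),(k5,k15),(k3,k16)],[(k0,
    k12),(k8,k14),(k2,k16),(k4,k19)],[(k1,k14),(k10,k16)]]
    [] k0
    [[k1,k1,k0,k0,k0,k1]]
    [.ref k0 k0 [(z1,[z1])]]]⟩

/-- classes `0 0 0 1 0 2`, types `C0 C0 C0 S0 C2 S0` -/
noncomputable def cT6_481 : CertT :=
  ⟨[k4,k4,k4,k16,k6,k32],[],[[[]]],
    [.lp [k6,k8,k8,k6,k6,k6] [k1,k1,k0,k0,k0,k0,k1,k1,k1,k1,k1,k1] k0 [] k24 k5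
    [[(k1,k6),(k10,k6)],[(k7,k6),(k8,k6),(k3,k7),(k5,k7)],[(k0,k7),(k11,k7),(k2,k8),(k4,k8)],[(k7,k7),(k8,k7),(k3,k8),
    (k5,k8)],[(k0,k7),(k11,k7),(k2,k8),(k4,k8)],[(k7,k7),(k8,k7),(k3,k8),(k5,k8)],[(k0,k6),(k11,k6),(k2,k7),(k4,k7)],
    [(k6,k6),(k9,k6)],[(k6,k6),(k9,k6)],[(k0,k6),(k11,k6),(k2,k7),(k4,k7)],[(k7,k6),(k8,k6),(k3,k7),(k5,k7)],[(k1,k6),
    (k10,k6)]]
    [] k0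
    []
    []]⟩

/-- classes `0 0 0 1 0 2`, types `C0 C0 C2 C0 C0 C0` -/
noncomputable def cT6_482 : CertT :=
  ⟨[k4,k4,k6,k20,k4,k36],[(false,k0,[k0,k1,k2,k3,k4,k5])],[[[([z1,z1,z0,z0,z0,z1],z2)],[]]],
    [.leafM k0 [k1,k2,k3,k4,k5,k0] [(z1,[y1,z1])] [],
    .lp [k4,k4,k2,k4,k6,k2] [k1,k1,k1,k1,k2,k2,k1,k1,k0,k0,k2,k2] k0 [] k12 k5
    [[(k10,k3)],[(k4,k3),(k5,k3),(k11,k3),(k3,k4)],[(k0,k4),(k2,k4),(k7,k4),(k8,k5)],[(k4,k3),(k5,k3),(k11,k3),(k3,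
    k4)],[(k0,k3),(k2,k3),(k7,k3),(k8,k4)],[(k0,k3),(k2,k3),(k7,k3),(k8,k4)],[(k4,k3),(k5,k3),(k11,k3),(k3,k4)],[(k9,
    k5)],[(k6,k5)],[(k4,k4),(k5,k4),(k11,k4),(k3,k5)],[(k0,k3),(k2,k3),(k7,k3),(k8,k4)],[(k1,k3)]]
    [] k0
    [[k1,k1,k0,k0,k0,k1]]
    [.ref k0 k0 [(z1,[z1])]]]⟩

/-- classes `0 0 0 1 0 2`, types `C0 C0 C2 C0 C0 S0` -/
noncomputable def cT6_483 : CertT :=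
  ⟨[k4,k4,k6,k20,k4,k32],[(false,k0,[k0,k1,k2,k3,k4,k5])],[[[([z1,z1,z0,z0,z0,z1],z2)],[]]],
    [.leafM k0 [k1,k2,k3,k4,k5,k0] [(z1,[y1,z1])] [],
    .lp [k10,k8,k6,k6,k6,k6] [k0,k0,k1,k1,k2,k2,k2,k2,k2,k2,k2,k2] k0 [] k24 k5
    [[(k10,k8),(k1,k10)],[(k4,k8),(k5,k8),(k11,k8),(k3,k9)],[(k7,k7),(k8,k7),(k2,k8),(k0,k9)],[(k4,k7),(k5,k7),(k11,
    k7),(k3,k8)],[(k7,k6),(k8,k6),(k2,k7),(k0,k8)],[(k7,k6),(k8,k6),(k2,k7),(k0,k8)],[(k4,k6),(k5,k6),(k11,k6),(k3,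
    k7)],[(k9,k6)],[(k6,k6)],[(k4,k6),(k5,k6),(k11,k6),(k3,k7)],[(k7,k6),(k8,k6),(k2,k7),(k0,k8)],[(k10,k6),(k1,k8)]]
    [] k0
    [[k0,k0,k1,k1,k1,k0]]
    [.ref k0 k0 [(z1,[y1,z1])]]]⟩

/-- classes `0 0 0 1 0 2`, types `C0 C0 C2 C0 C2 C0` -/
noncomputable def cT6_484 : CertT :=
  ⟨[k4,k4,k6,k20,k6,k36],[(false,k0,[k0,k1,k2,k3,k4,k5])],[[[([z1,z0,z1,z0,z0,z1],z2)],[]]],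
    [.leafM k3 [k0,k1,k2,k3,k4,k5] [(z1,[y1,z1])] [],
    .lp [k6,k4,k2,k4,k2,k4] [k0,k0,k1,k1,k2,k2,k1,k1,k2,k2,k1,k1] k0 [] k12 k5
    [[(k10,k5)],[(k4,k4),(k5,k4),(k8,k4),(k3,k5)],[(k2,k4),(k7,k4),(k11,k4),(k0,k5)],[(k4,k3),(k5,k3),(k8,k3),(k3,
    k4)],[(k2,k3),(k7,k3),(k11,k3),(k0,k4)],[(k2,k3),(k7,k3),(k11,k3),(k0,k4)],[(k4,k3),(k5,k3),(k8,k3),(k3,k4)],[(k9,
    k3)],[(k6,k3)],[(k2,k3),(k7,k3),(k11,k3),(k0,k4)],[(k4,k3),(k5,k3),(k8,k3),(k3,k4)],[(k1,k5)]]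
    [] k0
    [[k0,k1,k0,k1,k1,k0]]
    [.ref k0 k0 [(z1,[y1,z1])]]]⟩

/-- classes `0 0 0 1 0 2`, types `C0 C0 C2 C0 C2 S0` -/
noncomputable def cT6_485 : CertT :=
  ⟨[k4,k4,k6,k20,k6,k32],[(false,k0,[k0,k1,k2,k3,k4,k5])],[[[([z1,z0,z1,z0,z0,z1],z2)],[]]],
    [.leafM k3 [k0,k1,k2,k3,k4,k5] [(z1,[y1,z1])] [],
    .lp [k10,k8,k4,k8,k4,k10] [k0,k0,k1,k1,k3,k3,k1,k1,k3,k3,k0,k0] k0 [] k24 k5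
    [[(k1,k10),(k10,k10)],[(k4,k7),(k5,k7),(k8,k7),(k3,k9)],[(k2,k8),(k7,k8),(k0,k9),(k11,k9)],[(k4,k6),(k5,k6),(k8,
    k6),(k3,k8)],[(k2,k6),(k7,k6),(k0,k7),(k11,k7)],[(k2,k6),(k7,k6),(k0,k7),(k11,k7)],[(k4,k6),(k5,k6),(k8,k6),(k3,
    k8)],[(k9,k6)],[(k6,k6)],[(k2,k6),(k7,k6),(k0,k7),(k11,k7)],[(k4,k7),(k5,k7),(k8,k7),(k3,k9)],[(k1,k10),(k10,
    k10)]]
    [] k0
    [[k0,k1,k0,k1,k1,k0]]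
    [.ref k0 k0 [(z1,[y1,z1])]]]⟩

/-- classes `0 0 0 1 0 2`, types `C0 C0 C2 S0 C0 C0` -/
noncomputable def cT6_486 : CertT :=
  ⟨[k4,k4,k6,k16,k4,k36],[(false,k0,[k0,k1,k2,k3,k4,k5])],[[[([z1,z1,z0,z0,z0,z1],z2)],[]]],
    [.leafM k0 [k1,k2,k3,k4,k5,k0] [(z1,[y1,z1])] [],
    .lp [k6,k12,k8,k6,k8,k6] [k3,k3,k0,k0,k2,k2,k3,k3,k2,k2,k3,k3] k0 [[],[],[k0,k0,k0,k0,k0,k4],[],[k0,k0,k0,k4]] k24 k5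
    [[(k10,k6)],[(k11,k6),(k4,k7),(k5,k7),(k3,k9)],[(k0,k9),(k7,k9),(k8,k10),(k2,k12)],[(k4,k6),(k11,k9),(k5,k10),(k3,
    k12)],[(k0,k7),(k8,k8),(k2,k10),(k7,k11)],[(k2,k6),(k0,k7),(k7,k7),(k8,k8)],[(k11,k6),(k4,k7),(k3,k9),(k5,k11)],
    [(k6,k6),(k9,k7)],[(k6,k7),(k9,k8)],[(k11,k7),(k4,k8),(k5,k8),(k3,k10)],[(k0,k6),(k7,k6),(k8,k7),(k2,k9)],[(k1,
    k6)]]
    [] k0
    [[k0,k0,k1,k1,k1,k0]]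
    [.ref k0 k0 [(z1,[y1,z1])]]]⟩

/-- classes `0 0 0 1 0 2`, types `C0 C0 C2 S0 C0 S0` -/
noncomputable def cT6_487 : CertT :=
  ⟨[k4,k4,k6,k16,k4,k32],[(false,k0,[k0,k1,k2,k3,k4,k5])],[[[([z1,z1,z0,z0,z0,z1],z2)],[]]],
    [.leafM k0 [k1,k2,k3,k4,k5,k0] [(z1,[y1,z1])] [],
    .lp [k6,k8,k12,k6,k6,k6] [k3,k3,k2,k2,k0,k0,k3,k3,k3,k3,k3,k3] k0 [] k24 k5
    [[(k1,k6),(k10,k6)],[(k11,k6),(k3,k7),(k4,k9),(k5,k9)],[(k0,k7),(k7,k7),(k8,k7),(k2,k8)],[(k11,k7),(k3,k8),(k4,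
    k10),(k5,k10)],[(k0,k9),(k7,k9),(k8,k9),(k2,k10)],[(k0,k9),(k7,k9),(k8,k9),(k2,k10)],[(k11,k6),(k3,k7),(k4,k9),
    (k5,k9)],[(k6,k6),(k9,k6)],[(k6,k6),(k9,k6)],[(k11,k6),(k3,k7),(k4,k9),(k5,k9)],[(k0,k6),(k7,k6),(k8,k6),(k2,k7)],
    [(k1,k6),(k10,k6)]]
    [] k0
    [[k1,k1,k0,k0,k0,k1]]
    [.ref k0 k0 [(z1,[z1])]]]⟩

/-- classes `0 0 0 1 0 2`, types `C0 C0 C2 S0 C2 C0` -/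
noncomputable def cT6_488 : CertT :=
  ⟨[k4,k4,k6,k16,k6,k36],[(false,k0,[k0,k1,k2,k3,k4,k5])],[[[([z1,z0,z1,z0,z0,z1],z2)],[]]],
    [.leafM k3 [k0,k1,k2,k3,k4,k5] [(z1,[y1,z1])] [],
    .lp [k6,k8,k12,k6,k6,k6] [k3,k3,k2,k2,k0,k0,k3,k3,k3,k3,k3,k3] k0 [] k24 k5
    [[(k10,k6)],[(k8,k6),(k3,k7),(k4,k9),(k5,k9)],[(k0,k7),(k7,k7),(k11,k7),(k2,k8)],[(k8,k7),(k3,k8),(k4,k10),(k5,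
    k10)],[(k0,k9),(k7,k9),(k11,k9),(k2,k10)],[(k0,k9),(k7,k9),(k11,k9),(k2,k10)],[(k8,k6),(k3,k7),(k4,k9),(k5,k9)],
    [(k6,k6),(k9,k6)],[(k6,k6),(k9,k6)],[(k0,k6),(k7,k6),(k11,k6),(k2,k7)],[(k8,k6),(k3,k7),(k4,k9),(k5,k9)],[(k1,
    k6)]]
    [] k0
    [[k0,k1,k0,k1,k1,k0]]
    [.ref k0 k0 [(z1,[y1,z1])]]]⟩

/-- classes `0 0 0 1 0 2`, types `C0 C0 C2 S0 C2 S0` -/
noncomputable def cT6_489 : CertT :=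
  ⟨[k4,k4,k6,k16,k6,k32],[(false,k0,[k0,k1,k2,k3,k4,k5])],[[[([z1,z0,z1,z0,z0,z1],z2)],[]]],
    [.leafM k3 [k0,k1,k2,k3,k4,k5] [(z1,[y1,z1])] [],
    .lp [k18,k16,k16,k16,k12,k16] [k0,k0,k1,k1,k1,k1,k1,k1,k3,k3,k1,k1] k0 [[k0,k0,k0,k0,k0,k4],[],[],[],[k0,k4]] k48 k5
    [[(k10,k17),(k1,k18)],[(k4,k13),(k8,k15),(k3,k17),(k5,k17)],[(k2,k16),(k11,k16),(k0,k17),(k7,k20)],[(k8,k14),(k3,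
    k16),(k4,k16),(k5,k16)],[(k2,k16),(k7,k16),(k11,k16),(k0,k17)],[(k0,k13),(k2,k16),(k7,k16),(k11,k16)],[(k8,k14),
    (k4,k16),(k5,k16),(k3,k20)],[(k9,k14),(k6,k16)],[(k9,k12),(k6,k14)],[(k2,k14),(k7,k14),(k11,k14),(k0,k15)],[(k8,
    k14),(k3,k16),(k4,k16),(k5,k16)],[(k10,k16),(k1,k17)]]
    [] k0
    [[k1,k0,k1,k0,k0,k1]]
    [.ref k0 k0 [(z1,[z1])]]]⟩

/-- classes `0 0 0 1 0 2`, types `C0 C2 C0 C0 C0 C0` -/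
noncomputable def cT6_490 : CertT :=
  ⟨[k4,k6,k4,k20,k4,k36],[],[[[]]],
    [.lp [k0,k2,k0,k2,k0,k2] [k1,k1,k0,k0,k1,k1,k0,k0,k1,k1,k0,k0] k0 [] k4 k5
    [[(k10,k1)],[(k2,k1),(k3,k1),(k7,k1),(k11,k1)],[(k0,k1),(k4,k1),(k5,k1),(k8,k1)],[(k0,k1),(k4,k1),(k5,k1),(k8,
    k1)],[(k2,k1),(k3,k1),(k7,k1),(k11,k1)],[(k2,k1),(k3,k1),(k7,k1),(k11,k1)],[(k0,k1),(k4,k1),(k5,k1),(k8,k1)],[(k9,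
    k1)],[(k6,k1)],[(k2,k1),(k3,k1),(k7,k1),(k11,k1)],[(k0,k1),(k4,k1),(k5,k1),(k8,k1)],[(k1,k1)]]
    [] k0
    []
    []]⟩

/-- classes `0 0 0 1 0 2`, types `C0 C2 C0 C0 C0 S0` -/
noncomputable def cT6_491 : CertT :=
  ⟨[k4,k6,k4,k20,k4,k32],[],[[[]]],
    [.lp [k2,k4,k0,k4,k0,k4] [k1,k1,k0,k0,k2,k2,k0,k0,k2,k2,k0,k0] k0 [] k8 k5
    [[(k1,k2),(k10,k3)],[(k2,k3),(k3,k3),(k7,k3),(k11,k3)],[(k4,k2),(k5,k2),(k8,k2),(k0,k3)],[(k4,k2),(k5,k2),(k8,k2),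
    (k0,k3)],[(k2,k2),(k3,k2),(k7,k2),(k11,k2)],[(k2,k2),(k3,k2),(k7,k2),(k11,k2)],[(k4,k2),(k5,k2),(k8,k2),(k0,k3)],
    [(k9,k2)],[(k6,k2)],[(k2,k2),(k3,k2),(k7,k2),(k11,k2)],[(k4,k2),(k5,k2),(k8,k2),(k0,k3)],[(k1,k3),(k10,k4)]]
    [] k0
    []
    []]⟩

/-- classes `0 0 0 1 0 2`, types `C0 C2 C0 C0 C2 C0` -/
noncomputable def cT6_492 : CertT :=
  ⟨[k4,k6,k4,k20,k6,k36],[(false,k0,[k0,k1,k2,k3,k4,k5])],[[[([z1,z1,z0,z0,z0,z1],z2)],[]]],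
    [.leafM k0 [k1,k2,k3,k4,k5,k0] [(z1,[y1,z1])] [],
    .lp [k4,k2,k2,k2,k2,k2] [k0,k0,k1,k1,k1,k1,k1,k1,k1,k1,k1,k1] k0 [] k8 k5
    [[(k10,k3)],[(k2,k3),(k3,k3),(k7,k3),(k8,k3)],[(k4,k2),(k5,k2),(k11,k2),(k0,k3)],[(k4,k2),(k5,k2),(k11,k2),(k0,
    k3)],[(k2,k2),(k3,k2),(k7,k2),(k8,k2)],[(k2,k2),(k3,k2),(k7,k2),(k8,k2)],[(k4,k2),(k5,k2),(k11,k2),(k0,k3)],[(k9,
    k2)],[(k6,k2)],[(k4,k2),(k5,k2),(k11,k2),(k0,k3)],[(k2,k2),(k3,k2),(k7,k2),(k8,k2)],[(k1,k3)]]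
    [] k0
    [[k0,k0,k1,k1,k1,k0]]
    [.ref k0 k0 [(z1,[y1,z1])]]]⟩

/-- classes `0 0 0 1 0 2`, types `C0 C2 C0 C0 C2 S0` -/
noncomputable def cT6_493 : CertT :=
  ⟨[k4,k6,k4,k20,k6,k32],[(false,k0,[k0,k1,k2,k3,k4,k5])],[[[([z1,z1,z0,z0,z0,z1],z2)],[]]],
    [.leafM k0 [k1,k2,k3,k4,k5,k0] [(z1,[y1,z1])] [],
    .lp [k6,k4,k4,k4,k4,k6] [k0,k0,k1,k1,k1,k1,k1,k1,k1,k1,k0,k0] k0 [] k16 k5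
    [[(k1,k6),(k10,k6)],[(k2,k5),(k3,k5),(k7,k5),(k8,k5)],[(k4,k4),(k5,k4),(k0,k5),(k11,k5)],[(k4,k4),(k5,k4),(k0,k5),
    (k11,k5)],[(k2,k4),(k3,k4),(k7,k4),(k8,k4)],[(k2,k4),(k3,k4),(k7,k4),(k8,k4)],[(k4,k4),(k5,k4),(k0,k5),(k11,k5)],
    [(k9,k4)],[(k6,k4)],[(k4,k4),(k5,k4),(k0,k5),(k11,k5)],[(k2,k5),(k3,k5),(k7,k5),(k8,k5)],[(k1,k6),(k10,k6)]]
    [] k0
    [[k0,k0,k1,k1,k1,k0]]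
    [.ref k0 k0 [(z1,[y1,z1])]]]⟩

/-- classes `0 0 0 1 0 2`, types `C0 C2 C0 S0 C0 S0` -/
noncomputable def cT6_494 : CertT :=
  ⟨[k4,k6,k4,k16,k4,k32],[],[[[]]],
    [.lp [k14,k20,k12,k16,k12,k18] [k3,k3,k0,k0,k4,k4,k2,k2,k4,k4,k1,k1] k0 [[k0,k0,k0,k0,k0,k0,k0,k0,k4],[],[k0,k0,k0,k0,
    k0,k4],[],[k0,k0,k0,k4],[],[],[],[],[k0,k4]] k48 k5
    [[(k1,k14),(k10,k16)],[(k11,k12),(k7,k15),(k2,k17),(k3,k17)],[(k4,k16),(k5,k16),(k0,k17),(k8,k20)],[(k4,k12),(k5,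
    k16),(k8,k16),(k0,k17)],[(k11,k15),(k2,k16),(k3,k16),(k7,k18)],[(k2,k12),(k7,k14),(k11,k15),(k3,k16)],[(k4,k14),
    (k8,k14),(k0,k15),(k5,k18)],[(k9,k14),(k6,k16)],[(k9,k12),(k6,k14)],[(k7,k14),(k11,k15),(k2,k16),(k3,k20)],[(k0,
    k12),(k4,k15),(k5,k15),(k8,k15)],[(k1,k16),(k10,k18)]]
    [] k0
    []
    []]⟩

/-- classes `0 0 0 1 0 2`, types `C0 C2 C0 S0 C2 S0` -/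
noncomputable def cT6_495 : CertT :=
  ⟨[k4,k6,k4,k16,k6,k32],[(false,k0,[k0,k1,k2,k3,k4,k5])],[[[([z1,z1,z0,z0,z0,z1],z2)],[]]],
    [.leafM k0 [k1,k2,k3,k4,k5,k0] [(z1,[y1,z1])] [],
    .lp [k6,k8,k12,k6,k6,k8] [k3,k3,k2,k2,k0,k0,k3,k3,k3,k3,k2,k2] k0 [[],[k0,k0,k4],[],[k4]] k24 k5
    [[(k1,k6),(k10,k7)],[(k7,k6),(k8,k6),(k3,k7),(k2,k11)],[(k5,k6),(k0,k7),(k11,k8),(k4,k10)],[(k11,k8),(k4,k10),(k5,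
    k10),(k0,k11)],[(k3,k6),(k7,k9),(k8,k9),(k2,k10)],[(k7,k9),(k8,k9),(k2,k10),(k3,k10)],[(k0,k6),(k11,k7),(k4,k9),
    (k5,k9)],[(k6,k6),(k9,k6)],[(k6,k6),(k9,k6)],[(k0,k6),(k11,k7),(k4,k9),(k5,k9)],[(k7,k7),(k8,k7),(k2,k8),(k3,k8)],
    [(k1,k7),(k10,k8)]]
    [] k0
    [[k1,k1,k0,k0,k0,k1]]
    [.ref k0 k0 [(z1,[z1])]]]⟩

/-- classes `0 0 0 1 0 2`, types `N0 N0 N1 C0 N1 C0` -/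
noncomputable def cT6_496 : CertT :=
  ⟨[k12,k12,k13,k20,k13,k36],[],[[[]]],
    [.lp [k4,k4,k4,k6,k2,k2] [k1,k1,k1,k1,k1,k1,k0,k0,k2,k2,k2,k2] k0 [] k12 k5
    [[(k10,k3)],[(k11,k3),(k7,k5)],[(k8,k3),(k4,k4)],[(k11,k3),(k7,k5)],[(k8,k3),(k4,k4)],[(k3,k4),(k5,k4)],[(k0,k5),
    (k2,k5)],[(k9,k4)],[(k6,k4)],[(k3,k3),(k5,k3)],[(k0,k3),(k2,k3)],[(k1,k3)]]
    [] k0
    []
    []]⟩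

/-- classes `0 0 0 1 0 2`, types `N0 N0 N1 C0 N1 S0` -/
noncomputable def cT6_497 : CertT :=
  ⟨[k12,k12,k13,k20,k13,k32],[],[[[]]],
    [.lp [k6,k12,k8,k8,k4,k6] [k3,k3,k0,k0,k2,k2,k2,k2,k4,k4,k3,k3] k0 [] k24 k5
    [[(k1,k6),(k10,k6)],[(k11,k6),(k7,k7)],[(k8,k8),(k4,k10)],[(k11,k9),(k7,k10)],[(k8,k6),(k4,k8)],[(k5,k8),(k3,
    k10)],[(k0,k7),(k2,k10)],[(k9,k6)],[(k6,k6)],[(k5,k6),(k3,k8)],[(k0,k6),(k2,k9)],[(k1,k6),(k10,k6)]]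
    [] k0
    []
    []]⟩

/-- classes `0 0 0 1 0 2`, types `N0 N0 N1 C0 N2 C0` -/
noncomputable def cT6_498 : CertT :=
  ⟨[k12,k12,k13,k20,k14,k36],[],[[[]]],
    [.lp [k6,k6,k8,k6,k6,k6] [k1,k1,k1,k1,k0,k0,k1,k1,k1,k1,k1,k1] k0 [] k24 k5
    [[(k10,k6)],[(k7,k6),(k8,k6)],[(k11,k6),(k4,k7)],[(k7,k6),(k8,k6)],[(k11,k7),(k4,k8)],[(k3,k7),(k5,k8)],[(k0,k6),
    (k2,k6)],[(k9,k6)],[(k6,k6)],[(k0,k6),(k2,k6)],[(k3,k6),(k5,k7)],[(k1,k6)]]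
    [] k0
    []
    []]⟩

/-- classes `0 0 0 1 0 2`, types `N0 N0 N1 C0 N2 S0` -/
noncomputable def cT6_499 : CertT :=
  ⟨[k12,k12,k13,k20,k14,k32],[],[[[]]],
    [.lp [k6,k6,k8,k6,k6,k6] [k1,k1,k1,k1,k0,k0,k1,k1,k1,k1,k1,k1] k0 [] k24 k5
    [[(k1,k6),(k10,k6)],[(k7,k6),(k8,k6)],[(k11,k6),(k4,k7)],[(k7,k6),(k8,k6)],[(k11,k7),(k4,k8)],[(k3,k7),(k5,k8)],
    [(k0,k6),(k2,k6)],[(k9,k6)],[(k6,k6)],[(k0,k6),(k2,k6)],[(k3,k6),(k5,k7)],[(k1,k6),(k10,k6)]]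
    [] k0
    []
    []]⟩

/-- classes `0 0 0 1 0 2`, types `N0 N0 N1 S0 N1 C0` -/
noncomputable def cT6_500 : CertT :=
  ⟨[k12,k12,k13,k16,k13,k36],[],[[[]]],
    [.lp [k6,k12,k8,k6,k6,k6] [k3,k3,k0,k0,k2,k2,k3,k3,k3,k3,k3,k3] k0 [] k24 k5
    [[(k10,k6)],[(k7,k6),(k11,k6)],[(k8,k9),(k4,k10)],[(k7,k9),(k11,k9)],[(k8,k7),(k4,k8)],[(k5,k8),(k3,k10)],[(k0,
    k6),(k2,k9)],[(k6,k6),(k9,k6)],[(k6,k6),(k9,k6)],[(k5,k7),(k3,k9)],[(k0,k6),(k2,k9)],[(k1,k6)]]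
    [] k0
    []
    []]⟩

/-- classes `0 0 0 1 0 2`, types `N0 N0 N1 S0 N1 S0` -/
noncomputable def cT6_501 : CertT :=
  ⟨[k12,k12,k13,k16,k13,k32],[],[[[]]],
    [.lp [k6,k12,k8,k6,k6,k6] [k3,k3,k0,k0,k2,k2,k3,k3,k3,k3,k3,k3] k0 [] k24 k5
    [[(k1,k6),(k10,k6)],[(k7,k6),(k11,k6)],[(k8,k9),(k4,k10)],[(k7,k9),(k11,k9)],[(k8,k7),(k4,k8)],[(k5,k8),(k3,k10)],
    [(k0,k6),(k2,k9)],[(k6,k6),(k9,k6)],[(k6,k6),(k9,k6)],[(k5,k7),(k3,k9)],[(k0,k6),(k2,k9)],[(k1,k6),(k10,k6)]]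
    [] k0
    []
    []]⟩

/-- classes `0 0 0 1 0 2`, types `N0 N0 N1 S0 N2 C0` -/
noncomputable def cT6_502 : CertT :=
  ⟨[k12,k12,k13,k16,k14,k36],[],[[[]]],
    [.lp [k6,k6,k8,k6,k6,k6] [k1,k1,k1,k1,k0,k0,k1,k1,k1,k1,k1,k1] k0 [] k24 k5
    [[(k10,k6)],[(k7,k6),(k8,k6)],[(k11,k6),(k4,k7)],[(k7,k6),(k8,k6)],[(k11,k7),(k4,k8)],[(k3,k7),(k5,k8)],[(k0,k6),
    (k2,k6)],[(k6,k6),(k9,k6)],[(k6,k6),(k9,k6)],[(k0,k6),(k2,k6)],[(k3,k6),(k5,k7)],[(k1,k6)]]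
    [] k0
    []
    []]⟩

/-- classes `0 0 0 1 0 2`, types `N0 N0 N1 S0 N2 S0` -/
noncomputable def cT6_503 : CertT :=
  ⟨[k12,k12,k13,k16,k14,k32],[],[[[]]],
    [.lp [k6,k6,k8,k6,k6,k6] [k1,k1,k1,k1,k0,k0,k1,k1,k1,k1,k1,k1] k0 [] k24 k5
    [[(k1,k6),(k10,k6)],[(k7,k6),(k8,k6)],[(k11,k6),(k4,k7)],[(k7,k6),(k8,k6)],[(k11,k7),(k4,k8)],[(k3,k7),(k5,k8)],
    [(k0,k6),(k2,k6)],[(k6,k6),(k9,k6)],[(k6,k6),(k9,k6)],[(k0,k6),(k2,k6)],[(k3,k6),(k5,k7)],[(k1,k6),(k10,k6)]]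
    [] k0
    []
    []]⟩

/-- classes `0 0 0 1 0 2`, types `N0 N0 N2 C0 N1 C0` -/
noncomputable def cT6_504 : CertT :=
  ⟨[k12,k12,k14,k20,k13,k36],[],[[[]]],
    [.lp [k2,k2,k2,k2,k2,k2] [k0,k0,k0,k0,k0,k0,k0,k0,k0,k0,k0,k0] k0 [] k8 k5
    [[(k10,k2)],[(k4,k2),(k11,k2)],[(k7,k2),(k8,k2)],[(k4,k2),(k11,k2)],[(k7,k2),(k8,k2)],[(k0,k2),(k2,k2)],[(k3,k2),
    (k5,k2)],[(k9,k2)],[(k6,k2)],[(k3,k2),(k5,k2)],[(k0,k2),(k2,k2)],[(k1,k2)]]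
    [] k0
    []
    []]⟩

/-- classes `0 0 0 1 0 2`, types `N0 N0 N2 C0 N1 S0` -/
noncomputable def cT6_505 : CertT :=
  ⟨[k12,k12,k14,k20,k13,k32],[],[[[]]],
    [.lp [k2,k2,k2,k2,k2,k2] [k0,k0,k0,k0,k0,k0,k0,k0,k0,k0,k0,k0] k0 [] k8 k5
    [[(k1,k2),(k10,k2)],[(k4,k2),(k11,k2)],[(k7,k2),(k8,k2)],[(k4,k2),(k11,k2)],[(k7,k2),(k8,k2)],[(k0,k2),(k2,k2)],
    [(k3,k2),(k5,k2)],[(k9,k2)],[(k6,k2)],[(k3,k2),(k5,k2)],[(k0,k2),(k2,k2)],[(k1,k2),(k10,k2)]]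
    [] k0
    []
    []]⟩

/-- classes `0 0 0 1 0 2`, types `N0 N0 N2 C0 N2 C0` -/
noncomputable def cT6_506 : CertT :=
  ⟨[k12,k12,k14,k20,k14,k36],[(false,k0,[k0,k1,k2,k3,k4,k5])],[[[([z1,z0,z1,z0,z0,z1],z2)],[]]],
    [.leafM k3 [k0,k1,k2,k3,k4,k5] [(z1,[y1,z1])] [],
    .lp [k2,k2,k2,k4,k2,k2] [k1,k1,k1,k1,k1,k1,k0,k0,k1,k1,k1,k1] k0 [] k8 k5
    [[(k10,k2)],[(k4,k2),(k8,k2)],[(k11,k2),(k7,k3)],[(k4,k2),(k8,k2)],[(k11,k2),(k7,k3)],[(k0,k2),(k2,k2)],[(k3,k3),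
    (k5,k3)],[(k9,k3)],[(k6,k3)],[(k0,k2),(k2,k2)],[(k3,k2),(k5,k2)],[(k1,k2)]]
    [] k0
    [[k1,k0,k1,k0,k0,k1]]
    [.ref k0 k0 [(z1,[z1])]]]⟩

/-- classes `0 0 0 1 0 2`, types `N0 N0 N2 C0 N2 S0` -/
noncomputable def cT6_507 : CertT :=
  ⟨[k12,k12,k14,k20,k14,k32],[(false,k0,[k0,k1,k2,k3,k4,k5])],[[[([z1,z0,z1,z0,z0,z1],z2)],[]]],
    [.leafM k3 [k0,k1,k2,k3,k4,k5] [(z1,[y1,z1])] [],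
    .lp [k2,k4,k2,k2,k2,k2] [k1,k1,k0,k0,k1,k1,k1,k1,k1,k1,k1,k1] k0 [] k8 k5
    [[(k1,k2),(k10,k2)],[(k4,k2),(k8,k2)],[(k7,k3),(k11,k3)],[(k4,k3),(k8,k3)],[(k7,k2),(k11,k2)],[(k0,k2),(k2,k3)],
    [(k5,k2),(k3,k3)],[(k9,k2)],[(k6,k2)],[(k0,k2),(k2,k3)],[(k5,k2),(k3,k3)],[(k1,k2),(k10,k2)]]
    [] k0
    [[k1,k0,k1,k0,k0,k1]]
    [.ref k0 k0 [(z1,[z1])]]]⟩

/-- classes `0 0 0 1 0 2`, types `N0 N0 N2 S0 N1 C0` -/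
noncomputable def cT6_508 : CertT :=
  ⟨[k12,k12,k14,k16,k13,k36],[],[[[]]],
    [.lp [k2,k2,k2,k2,k2,k2] [k0,k0,k0,k0,k0,k0,k0,k0,k0,k0,k0,k0] k0 [] k8 k5
    [[(k10,k2)],[(k4,k2),(k11,k2)],[(k7,k2),(k8,k2)],[(k4,k2),(k11,k2)],[(k7,k2),(k8,k2)],[(k0,k2),(k2,k2)],[(k3,k2),
    (k5,k2)],[(k6,k2),(k9,k2)],[(k6,k2),(k9,k2)],[(k3,k2),(k5,k2)],[(k0,k2),(k2,k2)],[(k1,k2)]]
    [] k0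
    []
    []]⟩

/-- classes `0 0 0 1 0 2`, types `N0 N0 N2 S0 N1 S0` -/
noncomputable def cT6_509 : CertT :=
  ⟨[k12,k12,k14,k16,k13,k32],[],[[[]]],
    [.lp [k2,k2,k2,k2,k2,k2] [k0,k0,k0,k0,k0,k0,k0,k0,k0,k0,k0,k0] k0 [] k8 k5
    [[(k1,k2),(k10,k2)],[(k4,k2),(k11,k2)],[(k7,k2),(k8,k2)],[(k4,k2),(k11,k2)],[(k7,k2),(k8,k2)],[(k0,k2),(k2,k2)],
    [(k3,k2),(k5,k2)],[(k6,k2),(k9,k2)],[(k6,k2),(k9,k2)],[(k3,k2),(k5,k2)],[(k0,k2),(k2,k2)],[(k1,k2),(k10,k2)]]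
    [] k0
    []
    []]⟩

/-- classes `0 0 0 1 0 2`, types `N0 N0 N2 S0 N2 C0` -/
noncomputable def cT6_510 : CertT :=
  ⟨[k12,k12,k14,k16,k14,k36],[(false,k0,[k0,k1,k2,k3,k4,k5])],[[[([z1,z0,z1,z0,z0,z1],z2)],[]]],
    [.leafM k3 [k0,k1,k2,k3,k4,k5] [(z1,[y1,z1])] [],
    .lp [k2,k4,k2,k2,k2,k2] [k1,k1,k0,k0,k1,k1,k1,k1,k1,k1,k1,k1] k0 [] k8 k5
    [[(k10,k2)],[(k4,k2),(k8,k2)],[(k7,k3),(k11,k3)],[(k4,k3),(k8,k3)],[(k7,k2),(k11,k2)],[(k0,k2),(k2,k3)],[(k5,k2),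
    (k3,k3)],[(k6,k2),(k9,k2)],[(k6,k2),(k9,k2)],[(k0,k2),(k2,k3)],[(k5,k2),(k3,k3)],[(k1,k2)]]
    [] k0
    [[k1,k0,k1,k0,k0,k1]]
    [.ref k0 k0 [(z1,[z1])]]]⟩

/-- classes `0 0 0 1 0 2`, types `N0 N0 N2 S0 N2 S0` -/
noncomputable def cT6_511 : CertT :=
  ⟨[k12,k12,k14,k16,k14,k32],[(false,k0,[k0,k1,k2,k3,k4,k5])],[[[([z1,z0,z1,z0,z0,z1],z2)],[]]],
    [.leafM k3 [k0,k1,k2,k3,k4,k5] [(z1,[y1,z1])] [],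
    .lp [k4,k2,k2,k2,k2,k2] [k0,k0,k1,k1,k1,k1,k1,k1,k1,k1,k1,k1] k0 [] k8 k5
    [[(k10,k3),(k1,k4)],[(k4,k3),(k8,k3)],[(k7,k2),(k11,k2)],[(k4,k2),(k8,k2)],[(k7,k2),(k11,k2)],[(k2,k2),(k0,k3)],
    [(k3,k2),(k5,k2)],[(k6,k2),(k9,k2)],[(k6,k2),(k9,k2)],[(k2,k2),(k0,k3)],[(k3,k2),(k5,k2)],[(k10,k2),(k1,k3)]]
    [] k0
    [[k0,k1,k0,k1,k1,k0]]
    [.ref k0 k0 [(z1,[y1,z1])]]]⟩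

/-- classes `0 0 0 1 0 2`, types `N0 N1 N0 C0 N1 C0` -/
noncomputable def cT6_512 : CertT :=
  ⟨[k12,k13,k12,k20,k13,k36],[],[[[]]],
    [.lp [k12,k8,k8,k14,k0,k4] [k1,k1,k3,k3,k3,k3,k0,k0,k7,k7,k5,k5] k0 [[k0,k0,k0,k0,k0,k0,k0,k0,k2],[],[],[],[],[],[],[],
    [],[k0,k2]] k24 k5
    [[(k10,k8)],[(k11,k6),(k5,k10)],[(k8,k6),(k2,k8)],[(k3,k8),(k7,k11)],[(k4,k8),(k0,k10)],[(k11,k6),(k5,k8)],[(k8,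
    k7),(k2,k11)],[(k9,k7)],[(k6,k7)],[(k3,k6),(k7,k7)],[(k0,k6),(k4,k6)],[(k1,k8)]]
    [] k0
    []
    []]⟩

/-- classes `0 0 0 1 0 2`, types `N0 N1 N0 C0 N1 S0` -/
noncomputable def cT6_513 : CertT :=
  ⟨[k12,k13,k12,k20,k13,k32],[],[[[]]],
    [.lp [k6,k10,k8,k12,k0,k10] [k3,k3,k1,k1,k2,k2,k0,k0,k6,k6,k1,k1] k0 [[k0,k0,k0,k0,k0,k0,k0,k0,k2],[],[],[],[],[],[],
    [],[],[k0,k2]] k24 k5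
    [[(k1,k6),(k10,k8)],[(k11,k6),(k5,k7)],[(k8,k7),(k2,k10)],[(k3,k10),(k7,k11)],[(k0,k7),(k4,k8)],[(k5,k8),(k11,
    k9)],[(k8,k6),(k2,k11)],[(k9,k6)],[(k6,k6)],[(k7,k6),(k3,k7)],[(k0,k6),(k4,k9)],[(k1,k8),(k10,k10)]]
    [] k0
    []
    []]⟩

/-- classes `0 0 0 1 0 2`, types `N0 N1 N0 C0 N2 C0` -/
noncomputable def cT6_514 : CertT :=
  ⟨[k12,k13,k12,k20,k14,k36],[],[[[]]],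
    [.lp [k4,k4,k4,k4,k2,k2] [k0,k0,k0,k0,k0,k0,k0,k0,k1,k1,k1,k1] k0 [] k12 k5
    [[(k10,k3)],[(k8,k3),(k5,k4)],[(k11,k3),(k2,k4)],[(k3,k4),(k7,k4)],[(k0,k4),(k4,k4)],[(k8,k3),(k5,k4)],[(k11,k3),
    (k2,k4)],[(k9,k3)],[(k6,k3)],[(k0,k3),(k4,k3)],[(k3,k3),(k7,k3)],[(k1,k3)]]
    [] k0
    []
    []]⟩

/-- classes `0 0 0 1 0 2`, types `N0 N1 N0 C0 N2 S0` -/
noncomputable def cT6_515 : CertT :=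
  ⟨[k12,k13,k12,k20,k14,k32],[],[[[]]],
    [.lp [k6,k8,k8,k6,k6,k6] [k1,k1,k0,k0,k0,k0,k1,k1,k1,k1,k1,k1] k0 [] k24 k5
    [[(k1,k6),(k10,k6)],[(k8,k6),(k5,k7)],[(k11,k7),(k2,k8)],[(k7,k7),(k3,k8)],[(k0,k7),(k4,k8)],[(k8,k7),(k5,k8)],
    [(k11,k6),(k2,k7)],[(k9,k6)],[(k6,k6)],[(k0,k6),(k4,k7)],[(k7,k6),(k3,k7)],[(k1,k6),(k10,k6)]]
    [] k0
    []
    []]⟩

/-- classes `0 0 0 1 0 2`, types `N0 N1 N0 S0 N1 S0` -/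
noncomputable def cT6_516 : CertT :=
  ⟨[k12,k13,k12,k16,k13,k32],[],[[[]]],
    [.lp [k10,k10,k8,k6,k6,k6] [k0,k0,k0,k0,k1,k1,k2,k2,k2,k2,k2,k2] k0 [[k0,k0,k0,k0,k0,k0,k0,k0,k2],[],[],[],[],[],[],[],
    [],[k0,k2]] k24 k5
    [[(k10,k8),(k1,k10)],[(k11,k6),(k5,k9)],[(k2,k10),(k8,k10)],[(k7,k8),(k3,k10)],[(k4,k8),(k0,k9)],[(k11,k7),(k5,
    k8)],[(k8,k6),(k2,k8)],[(k6,k6),(k9,k6)],[(k6,k6),(k9,k6)],[(k7,k6),(k3,k10)],[(k0,k6),(k4,k7)],[(k10,k6),(k1,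
    k8)]]
    [] k0
    []
    []]⟩

/-- classes `0 0 0 1 0 2`, types `N0 N1 N0 S0 N2 S0` -/
noncomputable def cT6_517 : CertT :=
  ⟨[k12,k13,k12,k16,k14,k32],[],[[[]]],
    [.lp [k6,k8,k8,k6,k6,k6] [k1,k1,k0,k0,k0,k0,k1,k1,k1,k1,k1,k1] k0 [] k24 k5
    [[(k1,k6),(k10,k6)],[(k8,k6),(k5,k7)],[(k11,k7),(k2,k8)],[(k7,k7),(k3,k8)],[(k0,k7),(k4,k8)],[(k8,k7),(k5,k8)],
    [(k11,k6),(k2,k7)],[(k6,k6),(k9,k6)],[(k6,k6),(k9,k6)],[(k0,k6),(k4,k7)],[(k7,k6),(k3,k7)],[(k1,k6),(k10,k6)]]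
    [] k0
    []
    []]⟩

/-- classes `0 0 0 1 0 2`, types `N0 N1 N2 C0 N0 C0` -/
noncomputable def cT6_518 : CertT :=
  ⟨[k12,k13,k14,k20,k12,k36],[],[[[]]],
    [.lp [k6,k8,k6,k6,k6,k6] [k1,k1,k0,k0,k1,k1,k1,k1,k1,k1,k1,k1] k0 [] k24 k5
    [[(k10,k6)],[(k4,k6),(k5,k6)],[(k7,k7),(k2,k8)],[(k11,k7),(k3,k8)],[(k0,k6),(k8,k6)],[(k0,k6),(k8,k6)],[(k11,k6),
    (k3,k7)],[(k9,k6)],[(k6,k6)],[(k4,k6),(k5,k6)],[(k7,k6),(k2,k7)],[(k1,k6)]]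
    [] k0
    []
    []]⟩

/-- classes `0 0 0 1 0 2`, types `N0 N1 N2 C0 N0 S0` -/
noncomputable def cT6_519 : CertT :=
  ⟨[k12,k13,k14,k20,k12,k32],[],[[[]]],
    [.lp [k18,k16,k12,k12,k12,k12] [k0,k0,k1,k1,k3,k3,k3,k3,k3,k3,k3,k3] k0 [] k48 k5
    [[(k10,k15),(k1,k18)],[(k4,k15),(k5,k15)],[(k7,k14),(k2,k16)],[(k11,k14),(k3,k16)],[(k8,k12),(k0,k15)],[(k8,k12),
    (k0,k15)],[(k11,k12),(k3,k14)],[(k9,k12)],[(k6,k12)],[(k4,k12),(k5,k12)],[(k7,k12),(k2,k14)],[(k10,k12),(k1,k15)]]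
    [] k0
    []
    []]⟩

/-- classes `0 0 0 1 0 2`, types `N0 N1 N2 C0 N3 C0` -/
noncomputable def cT6_520 : CertT :=
  ⟨[k12,k13,k14,k20,k15,k36],[(false,k0,[k0,k1,k2,k3,k4,k5])],[[[([z1,z0,z1,z0,z0,z1],z2)],[]]],
    [.leafM k3 [k0,k1,k2,k3,k4,k5] [(z1,[y1,z1])] [],
    .lp [k6,k4,k6,k4,k2,k0] [k0,k0,k1,k1,k0,k0,k1,k1,k2,k2,k3,k3] k0 [] k12 k5
    [[(k10,k3)],[(k4,k6),(k5,k6)],[(k2,k4),(k7,k4)],[(k8,k3),(k3,k4)],[(k11,k3),(k0,k6)],[(k11,k3),(k0,k6)],[(k8,k3),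
    (k3,k4)],[(k9,k3)],[(k6,k3)],[(k2,k3),(k7,k3)],[(k4,k3),(k5,k3)],[(k1,k3)]]
    [] k0
    [[k0,k1,k0,k1,k1,k0]]
    [.ref k0 k0 [(z1,[y1,z1])]]]⟩

/-- classes `0 0 0 1 0 2`, types `N0 N1 N2 C0 N3 S0` -/
noncomputable def cT6_521 : CertT :=
  ⟨[k12,k13,k14,k20,k15,k32],[(false,k0,[k0,k1,k2,k3,k4,k5])],[[[([z1,z0,z1,z0,z0,z1],z2)],[]]],
    [.leafM k3 [k0,k1,k2,k3,k4,k5] [(z1,[y1,z1])] [],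
    .lp [k14,k20,k24,k20,k4,k12] [k5,k5,k2,k2,k0,k0,k2,k2,k10,k10,k6,k6] k0 [[k0,k0,k0,k0,k0,k4],[],[],[],[k0,k4]] k48 k5
    [[(k10,k13),(k1,k14)],[(k4,k15),(k5,k19)],[(k2,k20),(k7,k24)],[(k8,k12),(k3,k20)],[(k11,k18),(k0,k19)],[(k0,k15),
    (k11,k18)],[(k8,k12),(k3,k24)],[(k9,k12)],[(k6,k12)],[(k2,k12),(k7,k12)],[(k4,k18),(k5,k18)],[(k10,k12),(k1,k13)]]
    [] k0
    [[k1,k0,k1,k0,k0,k1]]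
    [.ref k0 k0 [(z1,[z1])]]]⟩

/-- classes `0 0 0 1 0 2`, types `N0 N1 N2 S0 N0 C0` -/
noncomputable def cT6_522 : CertT :=
  ⟨[k12,k13,k14,k16,k12,k36],[],[[[]]],
    [.lp [k12,k16,k12,k12,k18,k12] [k3,k3,k1,k1,k3,k3,k3,k3,k0,k0,k3,k3] k0 [] k48 k5
    [[(k10,k12)],[(k4,k12),(k5,k12)],[(k7,k14),(k2,k16)],[(k11,k14),(k3,k16)],[(k0,k12),(k8,k15)],[(k0,k12),(k8,k15)],
    [(k11,k12),(k3,k14)],[(k6,k12),(k9,k15)],[(k6,k15),(k9,k18)],[(k4,k15),(k5,k15)],[(k7,k12),(k2,k14)],[(k1,k12)]]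
    [] k0
    []
    []]⟩

/-- classes `0 0 0 1 0 2`, types `N0 N1 N2 S0 N0 S0` -/
noncomputable def cT6_523 : CertT :=
  ⟨[k12,k13,k14,k16,k12,k32],[],[[[]]],
    [.lp [k12,k8,k0,k6,k12,k6] [k0,k0,k2,k2,k6,k6,k3,k3,k0,k0,k3,k3] k0 [] k24 k5
    [[(k10,k9),(k1,k12)],[(k4,k6),(k5,k6)],[(k7,k7),(k2,k8)],[(k11,k7),(k3,k8)],[(k0,k6),(k8,k6)],[(k0,k6),(k8,k6)],
    [(k11,k6),(k3,k7)],[(k6,k6),(k9,k9)],[(k6,k9),(k9,k12)],[(k4,k6),(k5,k6)],[(k7,k6),(k2,k7)],[(k10,k6),(k1,k9)]]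
    [] k0
    []
    []]⟩

/-- classes `0 0 0 1 0 2`, types `N0 N1 N2 S0 N3 C0` -/
noncomputable def cT6_524 : CertT :=
  ⟨[k12,k13,k14,k16,k15,k36],[(false,k0,[k0,k1,k2,k3,k4,k5])],[[[([z1,z0,z1,z0,z0,z1],z2)],[]]],
    [.leafM k3 [k0,k1,k2,k3,k4,k5] [(z1,[y1,z1])] [],
    .lp [k0,k8,k12,k6,k6,k12] [k6,k6,k2,k2,k0,k0,k3,k3,k3,k3,k0,k0] k0 [] k24 k5
    [[(k10,k6)],[(k4,k6),(k5,k6)],[(k7,k7),(k2,k8)],[(k8,k7),(k3,k8)],[(k0,k6),(k11,k12)],[(k0,k6),(k11,k12)],[(k8,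
    k6),(k3,k7)],[(k6,k6),(k9,k6)],[(k6,k6),(k9,k6)],[(k7,k6),(k2,k7)],[(k4,k12),(k5,k12)],[(k1,k6)]]
    [] k0
    [[k0,k1,k0,k1,k1,k0]]
    [.ref k0 k0 [(z1,[y1,z1])]]]⟩

/-- classes `0 0 0 1 0 2`, types `N0 N1 N2 S0 N3 S0` -/
noncomputable def cT6_525 : CertT :=
  ⟨[k12,k13,k14,k16,k15,k32],[(false,k0,[k0,k1,k2,k3,k4,k5])],[[[([z1,z0,z1,z0,z0,z1],z2)],[]]],
    [.leafM k3 [k0,k1,k2,k3,k4,k5] [(z1,[y1,z1])] [],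
    .lp [k12,k8,k0,k6,k6,k12] [k0,k0,k2,k2,k6,k6,k3,k3,k3,k3,k0,k0] k0 [] k24 k5
    [[(k1,k12),(k10,k12)],[(k4,k6),(k5,k6)],[(k7,k7),(k2,k8)],[(k8,k7),(k3,k8)],[(k0,k6),(k11,k6)],[(k0,k6),(k11,k6)],
    [(k8,k6),(k3,k7)],[(k6,k6),(k9,k6)],[(k6,k6),(k9,k6)],[(k7,k6),(k2,k7)],[(k4,k6),(k5,k6)],[(k1,k12),(k10,k12)]]
    [] k0
    [[k0,k1,k0,k1,k1,k0]]
    [.ref k0 k0 [(z1,[y1,z1])]]]⟩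

/-- classes `0 0 0 1 0 2`, types `N0 N1 N3 C0 N1 C0` -/
noncomputable def cT6_526 : CertT :=
  ⟨[k12,k13,k15,k20,k13,k36],[],[[[]]],
    [.lp [k12,k6,k6,k12,k6,k0] [k0,k0,k3,k3,k3,k3,k0,k0,k3,k3,k6,k6] k0 [[k0,k0,k2],[],[],[k0,k2]] k24 k5
    [[(k10,k6)],[(k11,k6),(k5,k7)],[(k8,k6),(k2,k8)],[(k4,k6),(k3,k8)],[(k0,k7),(k7,k9)],[(k2,k6),(k8,k6)],[(k11,k6),
    (k5,k9)],[(k9,k9)],[(k6,k9)],[(k3,k6),(k4,k6)],[(k0,k6),(k7,k6)],[(k1,k6)]]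
    [] k0
    []
    []]⟩

/-- classes `0 0 0 1 0 2`, types `N0 N1 N3 C0 N1 S0` -/
noncomputable def cT6_527 : CertT :=
  ⟨[k12,k13,k15,k20,k13,k32],[],[[[]]],
    [.lp [k6,k8,k10,k8,k4,k6] [k2,k2,k1,k1,k0,k0,k1,k1,k3,k3,k2,k2] k0 [[],[],[k0,k0,k0,k0,k0,k2],[],[k0,k0,k0,k2]] k24 k5
    [[(k1,k6),(k10,k6)],[(k11,k6),(k5,k8)],[(k8,k6),(k2,k8)],[(k4,k7),(k3,k8)],[(k0,k8),(k7,k11)],[(k2,k7),(k8,k7)],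
    [(k11,k7),(k5,k11)],[(k9,k6)],[(k6,k6)],[(k3,k6),(k4,k7)],[(k0,k6),(k7,k7)],[(k1,k6),(k10,k6)]]
    [] k0
    []
    []]⟩

/-- classes `0 0 0 1 0 2`, types `N0 N1 N3 C0 N2 C0` -/
noncomputable def cT6_528 : CertT :=
  ⟨[k12,k13,k15,k20,k14,k36],[],[[[]]],
    [.lp [k6,k4,k4,k6,k0,k2] [k0,k0,k1,k1,k1,k1,k0,k0,k3,k3,k2,k2] k0 [] k12 k5
    [[(k10,k4)],[(k8,k3),(k5,k5)],[(k11,k3),(k2,k4)],[(k3,k4),(k4,k4)],[(k0,k5),(k7,k5)],[(k11,k3),(k2,k4)],[(k8,k3),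
    (k5,k5)],[(k9,k3)],[(k6,k3)],[(k0,k3),(k7,k3)],[(k3,k3),(k4,k3)],[(k1,k4)]]
    [] k0
    []
    []]⟩

/-- classes `0 0 0 1 0 2`, types `N0 N1 N3 C0 N2 S0` -/
noncomputable def cT6_529 : CertT :=
  ⟨[k12,k13,k15,k20,k14,k32],[],[[[]]],
    [.lp [k6,k4,k2,k6,k0,k4] [k0,k0,k1,k1,k2,k2,k0,k0,k3,k3,k1,k1] k0 [] k12 k5
    [[(k10,k5),(k1,k6)],[(k8,k3),(k5,k4)],[(k2,k4),(k11,k4)],[(k4,k3),(k3,k4)],[(k0,k4),(k7,k4)],[(k2,k3),(k11,k3)],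
    [(k8,k3),(k5,k4)],[(k9,k3)],[(k6,k3)],[(k0,k3),(k7,k3)],[(k4,k3),(k3,k4)],[(k10,k4),(k1,k5)]]
    [] k0
    []
    []]⟩

/-- classes `0 0 0 1 0 2`, types `N0 N1 N3 S0 N1 C0` -/
noncomputable def cT6_530 : CertT :=
  ⟨[k12,k13,k15,k16,k13,k36],[],[[[]]],
    [.lp [k2,k8,k10,k6,k6,k10] [k4,k4,k1,k1,k0,k0,k2,k2,k2,k2,k0,k0] k0 [[],[],[k0,k0,k0,k0,k0,k2],[],[k0,k0,k0,k2]] k24 k5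
    [[(k10,k6)],[(k5,k6),(k11,k6)],[(k8,k7),(k2,k8)],[(k4,k7),(k3,k8)],[(k0,k6),(k7,k10)],[(k2,k7),(k8,k8)],[(k11,k8),
    (k5,k10)],[(k6,k6),(k9,k6)],[(k6,k6),(k9,k6)],[(k3,k7),(k4,k8)],[(k0,k6),(k7,k8)],[(k1,k6)]]
    [] k0
    []
    []]⟩

/-- classes `0 0 0 1 0 2`, types `N0 N1 N3 S0 N1 S0` -/
noncomputable def cT6_531 : CertT :=
  ⟨[k12,k13,k15,k16,k13,k32],[],[[[]]],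
    [.lp [k18,k22,k22,k18,k28,k18] [k5,k5,k3,k3,k3,k3,k5,k5,k0,k0,k5,k5] k0 [[k0,k0,k2],[],[k0,k0,k0,k0,k0,k4],[k0,k2],[k0,
    k0,k0,k4]] k72 k5
    [[(k1,k18),(k10,k18)],[(k5,k18),(k11,k18)],[(k2,k24),(k8,k25)],[(k4,k18),(k3,k24)],[(k0,k18),(k7,k24)],[(k2,k18),
    (k8,k25)],[(k11,k18),(k5,k24)],[(k6,k18),(k9,k23)],[(k6,k23),(k9,k28)],[(k3,k25),(k4,k25)],[(k0,k18),(k7,k18)],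
    [(k1,k18),(k10,k18)]]
    [] k0
    []
    []]⟩

/-- classes `0 0 0 1 0 2`, types `N0 N1 N3 S0 N2 C0` -/
noncomputable def cT6_532 : CertT :=
  ⟨[k12,k13,k15,k16,k14,k36],[],[[[]]],
    [.lp [k6,k8,k6,k6,k6,k12] [k3,k3,k2,k2,k3,k3,k3,k3,k3,k3,k0,k0] k0 [] k24 k5
    [[(k10,k9)],[(k5,k6),(k8,k6)],[(k2,k8),(k11,k10)],[(k4,k7),(k3,k8)],[(k0,k6),(k7,k6)],[(k2,k7),(k11,k9)],[(k5,k6),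
    (k8,k6)],[(k6,k6),(k9,k6)],[(k6,k6),(k9,k6)],[(k0,k6),(k7,k6)],[(k4,k9),(k3,k10)],[(k1,k9)]]
    [] k0
    []
    []]⟩

/-- classes `0 0 0 1 0 2`, types `N0 N1 N3 S0 N2 S0` -/
noncomputable def cT6_533 : CertT :=
  ⟨[k12,k13,k15,k16,k14,k32],[],[[[]]],
    [.lp [k12,k8,k6,k6,k6,k6] [k0,k0,k2,k2,k3,k3,k3,k3,k3,k3,k3,k3] k0 [] k24 k5
    [[(k10,k9),(k1,k12)],[(k5,k9),(k8,k9)],[(k11,k7),(k2,k8)],[(k4,k7),(k3,k8)],[(k7,k6),(k0,k9)],[(k11,k6),(k2,k7)],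
    [(k5,k6),(k8,k6)],[(k6,k6),(k9,k6)],[(k6,k6),(k9,k6)],[(k7,k6),(k0,k9)],[(k4,k6),(k3,k7)],[(k10,k6),(k1,k9)]]
    [] k0
    []
    []]⟩

/-- classes `0 0 0 1 0 2`, types `N0 N2 N0 C0 N1 C0` -/
noncomputable def cT6_534 : CertT :=
  ⟨[k12,k14,k12,k20,k13,k36],[],[[[]]],
    [.lp [k0,k2,k0,k2,k0,k2] [k1,k1,k0,k0,k1,k1,k0,k0,k1,k1,k0,k0] k0 [] k4 k5
    [[(k10,k1)],[(k2,k1),(k11,k1)],[(k5,k1),(k8,k1)],[(k0,k1),(k4,k1)],[(k3,k1),(k7,k1)],[(k2,k1),(k11,k1)],[(k5,k1),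
    (k8,k1)],[(k9,k1)],[(k6,k1)],[(k3,k1),(k7,k1)],[(k0,k1),(k4,k1)],[(k1,k1)]]
    [] k0
    []
    []]⟩

/-- classes `0 0 0 1 0 2`, types `N0 N2 N0 C0 N1 S0` -/
noncomputable def cT6_535 : CertT :=
  ⟨[k12,k14,k12,k20,k13,k32],[],[[[]]],
    [.lp [k2,k2,k2,k2,k2,k2] [k0,k0,k0,k0,k0,k0,k0,k0,k0,k0,k0,k0] k0 [] k8 k5
    [[(k1,k2),(k10,k2)],[(k2,k2),(k11,k2)],[(k5,k2),(k8,k2)],[(k0,k2),(k4,k2)],[(k3,k2),(k7,k2)],[(k2,k2),(k11,k2)],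
    [(k5,k2),(k8,k2)],[(k9,k2)],[(k6,k2)],[(k3,k2),(k7,k2)],[(k0,k2),(k4,k2)],[(k1,k2),(k10,k2)]]
    [] k0
    []
    []]⟩

/-- classes `0 0 0 1 0 2`, types `N0 N2 N0 C0 N2 C0` -/
noncomputable def cT6_536 : CertT :=
  ⟨[k12,k14,k12,k20,k14,k36],[],[[[]]],
    [.lp [k8,k2,k4,k6,k2,k0] [k0,k0,k3,k3,k2,k2,k1,k1,k3,k3,k4,k4] k0 [[k0,k0,k0,k0,k0,k0,k0,k0,k0,k2],[],[],[],[],[],[],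
    [],[k0,k2]] k12 k5
    [[(k10,k4)],[(k8,k3),(k2,k5)],[(k5,k3),(k11,k3)],[(k4,k3),(k0,k5)],[(k3,k3),(k7,k5)],[(k2,k3),(k8,k3)],[(k11,k3),
    (k5,k5)],[(k9,k4)],[(k6,k4)],[(k0,k3),(k4,k3)],[(k3,k3),(k7,k3)],[(k1,k4)]]
    [] k0
    []
    []]⟩

/-- classes `0 0 0 1 0 2`, types `N0 N2 N0 C0 N2 S0` -/
noncomputable def cT6_537 : CertT :=
  ⟨[k12,k14,k12,k20,k14,k32],[],[[[]]],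
    [.lp [k6,k12,k8,k6,k6,k6] [k3,k3,k0,k0,k2,k2,k3,k3,k3,k3,k3,k3] k0 [[],[],[k0,k0,k0,k0,k0,k4],[],[k0,k0,k0,k4]] k24 k5
    [[(k1,k6),(k10,k6)],[(k8,k6),(k2,k9)],[(k11,k9),(k5,k10)],[(k4,k6),(k0,k9)],[(k3,k10),(k7,k11)],[(k2,k6),(k8,k7)],
    [(k11,k6),(k5,k11)],[(k9,k6)],[(k6,k6)],[(k0,k6),(k4,k7)],[(k7,k6),(k3,k9)],[(k1,k6),(k10,k6)]]
    [] k0
    []
    []]⟩

/-- classes `0 0 0 1 0 2`, types `N0 N2 N0 S0 N1 S0` -/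
noncomputable def cT6_538 : CertT :=
  ⟨[k12,k14,k12,k16,k13,k32],[],[[[]]],
    [.lp [k2,k2,k2,k2,k2,k2] [k0,k0,k0,k0,k0,k0,k0,k0,k0,k0,k0,k0] k0 [] k8 k5
    [[(k1,k2),(k10,k2)],[(k2,k2),(k11,k2)],[(k5,k2),(k8,k2)],[(k0,k2),(k4,k2)],[(k3,k2),(k7,k2)],[(k2,k2),(k11,k2)],
    [(k5,k2),(k8,k2)],[(k6,k2),(k9,k2)],[(k6,k2),(k9,k2)],[(k3,k2),(k7,k2)],[(k0,k2),(k4,k2)],[(k1,k2),(k10,k2)]]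
    [] k0
    []
    []]⟩

/-- classes `0 0 0 1 0 2`, types `N0 N2 N0 S0 N2 S0` -/
noncomputable def cT6_539 : CertT :=
  ⟨[k12,k14,k12,k16,k14,k32],[],[[[]]],
    [.lp [k6,k12,k8,k6,k6,k6] [k3,k3,k0,k0,k2,k2,k3,k3,k3,k3,k3,k3] k0 [[],[],[k0,k0,k0,k0,k0,k4],[],[k0,k0,k0,k4]] k24 k5
    [[(k1,k6),(k10,k6)],[(k8,k6),(k2,k9)],[(k11,k9),(k5,k10)],[(k4,k6),(k0,k9)],[(k3,k10),(k7,k11)],[(k2,k6),(k8,k7)],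
    [(k11,k6),(k5,k11)],[(k6,k6),(k9,k6)],[(k6,k6),(k9,k6)],[(k0,k6),(k4,k7)],[(k7,k6),(k3,k9)],[(k1,k6),(k10,k6)]]
    [] k0
    []
    []]⟩

/-- classes `0 0 0 1 0 2`, types `N0 N2 N1 C0 N0 C0` -/
noncomputable def cT6_540 : CertT :=
  ⟨[k12,k14,k13,k20,k12,k36],[],[[[]]],
    [.lp [k0,k2,k0,k2,k0,k2] [k1,k1,k0,k0,k1,k1,k0,k0,k1,k1,k0,k0] k0 [] k4 k5
    [[(k10,k1)],[(k2,k1),(k7,k1)],[(k4,k1),(k5,k1)],[(k0,k1),(k8,k1)],[(k3,k1),(k11,k1)],[(k3,k1),(k11,k1)],[(k0,k1),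
    (k8,k1)],[(k9,k1)],[(k6,k1)],[(k2,k1),(k7,k1)],[(k4,k1),(k5,k1)],[(k1,k1)]]
    [] k0
    []
    []]⟩

/-- classes `0 0 0 1 0 2`, types `N0 N2 N1 C0 N0 S0` -/
noncomputable def cT6_541 : CertT :=
  ⟨[k12,k14,k13,k20,k12,k32],[],[[[]]],
    [.lp [k4,k4,k4,k4,k4,k6] [k1,k1,k1,k1,k1,k1,k1,k1,k1,k1,k0,k0] k0 [] k16 k5
    [[(k1,k4),(k10,k5)],[(k2,k4),(k7,k4)],[(k4,k4),(k5,k4)],[(k0,k4),(k8,k4)],[(k3,k4),(k11,k5)],[(k3,k4),(k11,k5)],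
    [(k0,k4),(k8,k4)],[(k9,k4)],[(k6,k4)],[(k2,k4),(k7,k4)],[(k4,k5),(k5,k5)],[(k1,k5),(k10,k6)]]
    [] k0
    []
    []]⟩

/-- classes `0 0 0 1 0 2`, types `N0 N2 N1 C0 N3 C0` -/
noncomputable def cT6_542 : CertT :=
  ⟨[k12,k14,k13,k20,k15,k36],[],[[[]]],
    [.lp [k2,k2,k2,k2,k2,k2] [k0,k0,k0,k0,k0,k0,k0,k0,k0,k0,k0,k0] k0 [] k8 k5
    [[(k10,k2)],[(k2,k2),(k7,k2)],[(k4,k2),(k5,k2)],[(k0,k2),(k11,k2)],[(k3,k2),(k8,k2)],[(k3,k2),(k8,k2)],[(k0,k2),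
    (k11,k2)],[(k9,k2)],[(k6,k2)],[(k4,k2),(k5,k2)],[(k2,k2),(k7,k2)],[(k1,k2)]]
    [] k0
    []
    []]⟩

/-- classes `0 0 0 1 0 2`, types `N0 N2 N1 C0 N3 S0` -/
noncomputable def cT6_543 : CertT :=
  ⟨[k12,k14,k13,k20,k15,k32],[],[[[]]],
    [.lp [k2,k2,k2,k2,k2,k2] [k0,k0,k0,k0,k0,k0,k0,k0,k0,k0,k0,k0] k0 [] k8 k5
    [[(k1,k2),(k10,k2)],[(k2,k2),(k7,k2)],[(k4,k2),(k5,k2)],[(k0,k2),(k11,k2)],[(k3,k2),(k8,k2)],[(k3,k2),(k8,k2)],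
    [(k0,k2),(k11,k2)],[(k9,k2)],[(k6,k2)],[(k4,k2),(k5,k2)],[(k2,k2),(k7,k2)],[(k1,k2),(k10,k2)]]
    [] k0
    []
    []]⟩

/-- classes `0 0 0 1 0 2`, types `N0 N2 N1 S0 N0 C0` -/
noncomputable def cT6_544 : CertT :=
  ⟨[k12,k14,k13,k16,k12,k36],[],[[[]]],
    [.lp [k2,k2,k2,k2,k2,k2] [k0,k0,k0,k0,k0,k0,k0,k0,k0,k0,k0,k0] k0 [] k8 k5
    [[(k10,k2)],[(k2,k2),(k7,k2)],[(k4,k2),(k5,k2)],[(k0,k2),(k8,k2)],[(k3,k2),(k11,k2)],[(k3,k2),(k11,k2)],[(k0,k2),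
    (k8,k2)],[(k6,k2),(k9,k2)],[(k6,k2),(k9,k2)],[(k2,k2),(k7,k2)],[(k4,k2),(k5,k2)],[(k1,k2)]]
    [] k0
    []
    []]⟩

/-- classes `0 0 0 1 0 2`, types `N0 N2 N1 S0 N0 S0` -/
noncomputable def cT6_545 : CertT :=
  ⟨[k12,k14,k13,k16,k12,k32],[],[[[]]],
    [.lp [k4,k4,k4,k4,k4,k6] [k1,k1,k1,k1,k1,k1,k1,k1,k1,k1,k0,k0] k0 [] k16 k5
    [[(k1,k4),(k10,k5)],[(k2,k4),(k7,k4)],[(k4,k4),(k5,k4)],[(k0,k4),(k8,k4)],[(k3,k4),(k11,k5)],[(k3,k4),(k11,k5)],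
    [(k0,k4),(k8,k4)],[(k6,k4),(k9,k4)],[(k6,k4),(k9,k4)],[(k2,k4),(k7,k4)],[(k4,k5),(k5,k5)],[(k1,k5),(k10,k6)]]
    [] k0
    []
    []]⟩

/-- classes `0 0 0 1 0 2`, types `N0 N2 N1 S0 N3 C0` -/
noncomputable def cT6_546 : CertT :=
  ⟨[k12,k14,k13,k16,k15,k36],[],[[[]]],
    [.lp [k4,k4,k4,k4,k6,k4] [k1,k1,k1,k1,k1,k1,k1,k1,k0,k0,k1,k1] k0 [] k16 k5
    [[(k10,k4)],[(k2,k4),(k7,k4)],[(k4,k4),(k5,k4)],[(k0,k4),(k11,k4)],[(k3,k4),(k8,k5)],[(k3,k4),(k8,k5)],[(k0,k4),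
    (k11,k4)],[(k6,k4),(k9,k5)],[(k6,k5),(k9,k6)],[(k4,k5),(k5,k5)],[(k2,k4),(k7,k4)],[(k1,k4)]]
    [] k0
    []
    []]⟩

/-- classes `0 0 0 1 0 2`, types `N0 N2 N1 S0 N3 S0` -/
noncomputable def cT6_547 : CertT :=
  ⟨[k12,k14,k13,k16,k15,k32],[],[[[]]],
    [.lp [k4,k4,k4,k4,k6,k4] [k1,k1,k1,k1,k1,k1,k1,k1,k0,k0,k1,k1] k0 [] k16 k5
    [[(k1,k4),(k10,k4)],[(k2,k4),(k7,k4)],[(k4,k4),(k5,k4)],[(k0,k4),(k11,k4)],[(k3,k4),(k8,k5)],[(k3,k4),(k8,k5)],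
    [(k0,k4),(k11,k4)],[(k6,k4),(k9,k5)],[(k6,k5),(k9,k6)],[(k4,k5),(k5,k5)],[(k2,k4),(k7,k4)],[(k1,k4),(k10,k4)]]
    [] k0
    []
    []]⟩

/-- classes `0 0 0 1 0 2`, types `S0 S0 S0 C0 S0 C0` -/
noncomputable def cT6_548 : CertT :=
  ⟨[k0,k0,k0,k20,k0,k36],[(false,k0,[k0,k1,k2,k3,k4,k5])],[[[([z1,z1,z0,z0,z0,z1],z2)],[([z1,z0,z1,z0,z0,z1],z2)],
    []]],
    [.leafM k0 [k1,k2,k3,k4,k5,k0] [(z1,[y1,z1])] [],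
    .leafM k3 [k0,k1,k2,k3,k4,k5] [(z1,[y1,z1])] [],
    .lp [k6,k8,k8,k10,k6,k6] [k2,k2,k1,k1,k1,k1,k0,k0,k2,k2,k2,k2] k0 [] k24 k5
    [[(k10,k6)],[(k0,k6),(k8,k6),(k11,k6),(k2,k7),(k3,k7),(k4,k7),(k5,k7),(k7,k8)],[(k0,k7),(k8,k7),(k11,k7),(k2,k8),
    (k3,k8),(k4,k8),(k5,k8),(k7,k9)],[(k0,k7),(k8,k7),(k11,k7),(k2,k8),(k3,k8),(k4,k8),(k5,k8),(k7,k9)],[(k0,k7),(k8,
    k7),(k11,k7),(k2,k8),(k3,k8),(k4,k8),(k5,k8),(k7,k9)],[(k0,k7),(k8,k7),(k11,k7),(k2,k8),(k3,k8),(k4,k8),(k5,k8),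
    (k7,k9)],[(k0,k8),(k8,k8),(k11,k8),(k2,k9),(k3,k9),(k4,k9),(k5,k9),(k7,k10)],[(k9,k8)],[(k6,k8)],[(k0,k6),(k8,k6),
    (k11,k6),(k2,k7),(k3,k7),(k4,k7),(k5,k7),(k7,k8)],[(k0,k6),(k8,k6),(k11,k6),(k2,k7),(k3,k7),(k4,k7),(k5,k7),(k7,
    k8)],[(k1,k6)]]
    [] k0
    [[k1,k1,k0,k0,k0,k1],[k1,k0,k1,k0,k0,k1]]
    [.ref k0 k0 [(z1,[z1])],.ref k1 k0 [(z1,[z1])]]]⟩

/-- classes `0 0 0 1 0 2`, types `S0 S0 S0 C0 S0 S0` -/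
noncomputable def cT6_549 : CertT :=
  ⟨[k0,k0,k0,k20,k0,k32],[(false,k0,[k0,k1,k2,k3,k4,k5])],[[[([z1,z0,z1,z0,z0,z1],z2)],[([z1,z1,z0,z0,z0,z1],z2)],
    []]],
    [.leafM k3 [k0,k1,k2,k3,k4,k5] [(z1,[y1,z1])] [],
    .leafM k0 [k1,k2,k3,k4,k5,k0] [(z1,[y1,z1])] [],
    .lp [k8,k8,k8,k6,k6,k8] [k0,k0,k0,k0,k0,k0,k1,k1,k1,k1,k0,k0] k0 [] k24 k5
    [[(k1,k8),(k10,k8)],[(k7,k7),(k8,k7),(k0,k8),(k2,k8),(k3,k8),(k4,k8),(k5,k8),(k11,k8)],[(k7,k7),(k8,k7),(k0,k8),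
    (k2,k8),(k3,k8),(k4,k8),(k5,k8),(k11,k8)],[(k7,k7),(k8,k7),(k0,k8),(k2,k8),(k3,k8),(k4,k8),(k5,k8),(k11,k8)],[(k7,
    k7),(k8,k7),(k0,k8),(k2,k8),(k3,k8),(k4,k8),(k5,k8),(k11,k8)],[(k7,k7),(k8,k7),(k0,k8),(k2,k8),(k3,k8),(k4,k8),
    (k5,k8),(k11,k8)],[(k7,k6),(k8,k6),(k0,k7),(k2,k7),(k3,k7),(k4,k7),(k5,k7),(k11,k7)],[(k9,k6)],[(k6,k6)],[(k7,k6),
    (k8,k6),(k0,k7),(k2,k7),(k3,k7),(k4,k7),(k5,k7),(k11,k7)],[(k7,k7),(k8,k7),(k0,k8),(k2,k8),(k3,k8),(k4,k8),(k5,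
    k8),(k11,k8)],[(k1,k8),(k10,k8)]]
    [] k0
    [[k0,k1,k0,k1,k1,k0],[k0,k0,k1,k1,k1,k0]]
    [.ref k0 k0 [(z1,[y1,z1])],.ref k1 k0 [(z1,[y1,z1])]]]⟩

/-- classes `0 0 0 1 1 1`, types `C0 C0 C0 C0 C0 C0` -/
noncomputable def cT6_550 : CertT :=
  ⟨[k4,k4,k4,k20,k20,k20],[(false,k0,[k0,k1,k2,k3,k4,k5]),(true,k0,[k0,k5,k4,k3,k2,k1]),(false,k3,[k3,k4,k5,k0,k1,
    k2]),(true,k3,[k3,k2,k1,k0,k5,k4])],[[[([z1,z0,z0,z1,z0,y2],z0),([z0,z1,z0,z0,z0,z2],z2),([z0,z0,z1,z0,z0,y1],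
    z0)],[([z3,z0,z0,z3,z0,z0],z4),([z0,z3,z0,z0,z0,z0],z2),([z0,z0,z3,z0,z0,z0],z2),([z0,z0,z0,z0,z3,z0],z2)],[([z2,
    z0,z0,z2,z0,y1],z2),([z0,z2,z0,z0,z0,z1],z2),([z0,z0,z2,z0,z0,z1],z2)],[([z1,z0,z0,z1,z0,z1],z2),([z0,z1,z0,z0,z1,
    z1],z2)],[([z1,z0,z0,z1,z0,y2],z0),([z0,z1,z0,z0,z0,y1],z0),([z0,z0,z1,z0,z0,z2],z2)],[([z1,z0,z0,z1,z0,z1],z2),
    ([z0,z1,z0,z0,z2,z0],z2)],[([z1,z0,z0,z1,z0,z1],z2)],[([z2,z0,z0,z2,z0,y1],z2),([z0,z2,z0,z0,z0,z1],z2),([z0,z0,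
    z1,z0,z0,y1],z0)],[([z2,z0,y2,z2,z0,z1],z2),([z0,z1,z2,z0,z0,z0],z2)],[([z3,z0,y3,z3,z0,z0],z2),([z0,z1,z2,z0,z0,
    z0],z2),([z0,z0,z0,z0,z3,z0],z2)],[([z1,z0,y1,z1,z0,y1],z0),([z0,z1,z2,z0,z0,z0],z2)],[([z1,z0,y1,z1,z1,z1],z2)]],
    [[]]],
    [.tor k6 false k0 [(z1,[y1,y1,y1,z1]),(z1,[z0,z1,z2]),(z1,[z0,y1,y1,z1]),(z1,[z1,z1])],
    .tor k6 false k0 [(z3,[y2,y2,y2,y1,z6]),(z3,[z0,z1,z2]),(z3,[z1,z0,z0,z1]),(z3,[z1,z1])],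
    .lp [k24,k12,k16,k12,k18,k12] [k0,k0,k6,k6,k4,k4,k6,k6,k3,k3,k6,k6] k0 [[k0,k0,k4],[],[],[k0,k4],[],[],[],[],[k0,k0,
    k0,k0,k0,k0,k0,k0,k0,k0,k6],[],[],[k0,k0,k0,k0,k0,k0,k0,k0,k0,k6]] k48 k5
    [[(k8,k15),(k6,k18),(k10,k18)],[(k5,k16),(k3,k18),(k7,k18)],[(k4,k14),(k2,k16),(k0,k18)],[(k7,k12),(k5,k14),(k3,
    k16)],[(k2,k14),(k0,k16),(k4,k16)],[(k3,k14),(k7,k14),(k5,k16)],[(k2,k12),(k4,k14),(k0,k18)],[(k11,k12),(k9,k15),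
    (k1,k18)],[(k6,k15),(k10,k15),(k8,k18)],[(k1,k15),(k11,k15),(k9,k18)],[(k6,k12),(k8,k15),(k10,k18)],[(k9,k15),(k1,
    k18),(k11,k18)]]
    [] k0
    [[k0,k2,k1,k0,k0,k0],[k0,k1,k2,k0,k0,k0]]
    [.ref k1 k0 [(z2,[y2,z3,z2,z1]),(z2,[z2,z0,z1,y1]),(z1,[z1,z0,y1,z1]),(z2,[z2,y3,y5,y4,z6])],.ref k1 k0 [(z2,[y2,
    z3,z1,z2]),(z1,[z1,z0,z1,y1]),(z2,[z2,z0,y1,z1]),(z2,[z2,y3,y4,y5,z6])]],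
    .lp [k24,k12,k16,k12,k18,k12] [k0,k0,k6,k6,k4,k4,k6,k6,k3,k3,k6,k6] k0 [[k0,k0,k4],[],[],[k0,k4],[],[],[],[],[k0,k0,
    k0,k0,k0,k0,k0,k0,k0,k0,k6],[],[],[k0,k0,k0,k0,k0,k0,k0,k0,k0,k6]] k48 k5
    [[(k8,k15),(k6,k18),(k10,k18)],[(k5,k16),(k3,k18),(k7,k18)],[(k4,k14),(k2,k16),(k0,k18)],[(k7,k12),(k5,k14),(k3,
    k16)],[(k2,k14),(k0,k16),(k4,k16)],[(k3,k14),(k7,k14),(k5,k16)],[(k2,k12),(k4,k14),(k0,k18)],[(k11,k12),(k9,k15),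
    (k1,k18)],[(k6,k15),(k10,k15),(k8,k18)],[(k1,k15),(k11,k15),(k9,k18)],[(k6,k12),(k8,k15),(k10,k18)],[(k9,k15),(k1,
    k18),(k11,k18)]]
    [] k0
    [[k0,k2,k1,k0,k0,k0],[k0,k1,k2,k0,k0,k0]]
    [.ref k0 k1 [(z1,[y1,z0,y1,z1]),(z1,[z1,z1,z1,y1]),(z1,[y1,y1,z0,z1])],.ref k2 k1 [(z1,[y1,z0,y2,z2]),(z1,[z1,z2,
    z2,y2]),(z1,[y1,y2,z0,z2])]],
    .tor k7 false k3 [(z1,[z0,z2,z1]),(z1,[y1,y1,y1,z1]),(z1,[z1,z0,z1]),(z1,[z0,y1,y1,z1])],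
    .lp [k20,k12,k18,k12,k16,k16] [k0,k0,k4,k4,k1,k1,k4,k4,k2,k2,k2,k2] k0 [[k0,k0,k6],[],[],[k0,k6]] k48 k5
    [[(k6,k16),(k8,k18),(k10,k18)],[(k5,k13),(k3,k16),(k7,k16)],[(k4,k15),(k0,k16),(k2,k18)],[(k7,k12),(k5,k15),(k3,
    k18)],[(k0,k13),(k2,k15),(k4,k18)],[(k3,k15),(k7,k15),(k5,k18)],[(k2,k12),(k4,k15),(k0,k16)],[(k9,k14),(k11,k14),
    (k1,k16)],[(k6,k14),(k8,k16),(k10,k16)],[(k9,k16),(k11,k16),(k1,k18)],[(k6,k14),(k8,k16),(k10,k16)],[(k9,k16),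
    (k11,k16),(k1,k18)]]
    [] k0
    [[k1,k1,k0,k1,k0,k0],[k1,k0,k1,k1,k0,k0]]
    [.ref k4 k2 [(z1,[z1,z2,z1,y2]),(z1,[z0,z1,z1,y1]),(z1,[y1,y1,y1,z2])],.ref k2 k1 [(z1,[z2,z2,z1,y2]),(z1,[y2,z0,
    y1,z2]),(z1,[z0,z0,z1])]],
    .lp [k24,k12,k16,k12,k18,k12] [k0,k0,k6,k6,k4,k4,k6,k6,k3,k3,k6,k6] k0 [[k0,k0,k8],[],[],[k0,k8],[],[],[],[],[k0,k0,
    k0,k0,k0,k0,k0,k0,k0,k0,k6],[],[],[k0,k0,k0,k0,k0,k0,k0,k0,k0,k6]] k48 k5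
    [[(k8,k15),(k6,k18),(k10,k18)],[(k5,k12),(k3,k18),(k7,k18)],[(k4,k14),(k0,k18),(k2,k20)],[(k7,k12),(k5,k14),(k3,
    k20)],[(k0,k12),(k2,k14),(k4,k16)],[(k3,k14),(k7,k14),(k5,k16)],[(k2,k12),(k4,k14),(k0,k18)],[(k11,k12),(k9,k15),
    (k1,k18)],[(k6,k15),(k10,k15),(k8,k18)],[(k1,k15),(k11,k15),(k9,k18)],[(k6,k12),(k8,k15),(k10,k18)],[(k9,k15),(k1,
    k18),(k11,k18)]]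
    [] k0
    [[k1,k0,k1,k1,k0,k0],[k0,k1,k2,k0,k0,k0]]
    [.ref k3 k0 [(z1,[z0,z1]),(z1,[y1,z0,z1])],.ref k5 k0 [(z1,[z0,z1]),(z1,[y1,y2,z2])]],
    .lp [k24,k12,k16,k12,k18,k12] [k0,k0,k6,k6,k4,k4,k6,k6,k3,k3,k6,k6] k0 [[k0,k0,k8],[],[],[k0,k8],[],[],[],[],[k0,k0,
    k0,k0,k0,k0,k0,k0,k0,k0,k6],[],[],[k0,k0,k0,k0,k0,k0,k0,k0,k0,k6]] k48 k5
    [[(k8,k15),(k6,k18),(k10,k18)],[(k5,k12),(k3,k18),(k7,k18)],[(k4,k14),(k0,k18),(k2,k20)],[(k7,k12),(k5,k14),(k3,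
    k20)],[(k0,k12),(k2,k14),(k4,k16)],[(k3,k14),(k7,k14),(k5,k16)],[(k2,k12),(k4,k14),(k0,k18)],[(k11,k12),(k9,k15),
    (k1,k18)],[(k6,k15),(k10,k15),(k8,k18)],[(k1,k15),(k11,k15),(k9,k18)],[(k6,k12),(k8,k15),(k10,k18)],[(k9,k15),(k1,
    k18),(k11,k18)]]
    [] k0
    [[k1,k0,k1,k1,k0,k0],[k0,k1,k2,k0,k0,k0]]
    [.ref k1 k0 [(z1,[z1,z1,z0,y1]),(z2,[y2,z1,z3,z2]),(z1,[z2,y1,z0,z1]),(z2,[y8,z1,y3,z2,z6])],.ref k1 k0 [(z2,[z2,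
    z3,y1,y4]),(z1,[y1,z0,z2,z2]),(z1,[z2,z0,y1,y1]),(z2,[y8,y3,z1,z10,z6])]],
    .lp [k20,k12,k18,k12,k16,k16] [k0,k0,k4,k4,k1,k1,k4,k4,k2,k2,k2,k2] k0 [[k0,k0,k6],[],[],[k0,k6]] k48 k5
    [[(k6,k16),(k8,k18),(k10,k18)],[(k5,k13),(k3,k16),(k7,k16)],[(k4,k15),(k0,k16),(k2,k18)],[(k7,k12),(k5,k15),(k3,
    k18)],[(k0,k13),(k2,k15),(k4,k18)],[(k3,k15),(k7,k15),(k5,k18)],[(k2,k12),(k4,k15),(k0,k16)],[(k9,k14),(k11,k14),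
    (k1,k16)],[(k6,k14),(k8,k16),(k10,k16)],[(k9,k16),(k11,k16),(k1,k18)],[(k6,k14),(k8,k16),(k10,k16)],[(k9,k16),
    (k11,k16),(k1,k18)]]
    [] k0
    [[k1,k1,k0,k1,k0,k0],[k1,k0,k1,k1,k0,k0]]
    [.ref k4 k2 [(z1,[z1,z0,y1]),(z1,[z1,y1,y2,z1]),(z1,[y2,z1,z2])],.ref k7 k3 [(z1,[z1,z1,z1,y1]),(z1,[z1,y1,y1,
    z1]),(z1,[y1,z1,z2,y1])]],
    .lp [k20,k12,k18,k12,k16,k16] [k0,k0,k4,k4,k1,k1,k4,k4,k2,k2,k2,k2] k0 [[k0,k0,k6],[],[],[k0,k6]] k48 k5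
    [[(k6,k16),(k8,k18),(k10,k18)],[(k5,k13),(k3,k16),(k7,k16)],[(k4,k15),(k0,k16),(k2,k18)],[(k7,k12),(k5,k15),(k3,
    k18)],[(k0,k13),(k2,k15),(k4,k18)],[(k3,k15),(k7,k15),(k5,k18)],[(k2,k12),(k4,k15),(k0,k16)],[(k9,k14),(k11,k14),
    (k1,k16)],[(k6,k14),(k8,k16),(k10,k16)],[(k9,k16),(k11,k16),(k1,k18)],[(k6,k14),(k8,k16),(k10,k16)],[(k9,k16),
    (k11,k16),(k1,k18)]]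
    [] k0
    [[k1,k1,k0,k1,k0,k0],[k1,k0,k1,k1,k0,k0]]
    [.ref k1 k0 [(z1,[y3,z2,z3]),(z1,[z6,y2,y3]),(z1,[y3,z1,z3]),(z1,[z0,z0,z0,z1])],.ref k1 k0 [(z2,[z3,z1]),(z1,[y3,
    z1,z3]),(z2,[z3,y1]),(z1,[z0,z0,z0,z1])]],
    .lp [k24,k12,k18,k12,k16,k12] [k0,k0,k6,k6,k3,k3,k6,k6,k4,k4,k6,k6] k0 [[k0,k0,k6],[],[],[k0,k6],[],[],[],[],[k0,k0,
    k0,k0,k0,k0,k0,k0,k0,k0,k8],[],[],[k0,k0,k0,k0,k0,k0,k0,k0,k0,k8]] k48 k5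
    [[(k8,k12),(k6,k18),(k10,k18)],[(k5,k15),(k3,k18),(k7,k18)],[(k4,k15),(k0,k18),(k2,k18)],[(k7,k12),(k5,k15),(k3,
    k18)],[(k0,k15),(k2,k15),(k4,k18)],[(k3,k15),(k7,k15),(k5,k18)],[(k2,k12),(k4,k15),(k0,k18)],[(k11,k12),(k9,k14),
    (k1,k18)],[(k6,k14),(k10,k14),(k8,k16)],[(k1,k12),(k11,k14),(k9,k16)],[(k6,k12),(k8,k14),(k10,k20)],[(k9,k14),(k1,
    k18),(k11,k20)]]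
    [] k0
    [[k1,k0,k0,k1,k1,k0],[k0,k0,k0,k0,k2,k1]]
    [.ref k0 k0 [(z1,[z1,z1,z1,y1]),(z1,[y2,z0,y1,z2]),(z1,[z1,z0,z1,y1])],.ref k9 k0 [(z1,[y1,z1,y2,z2]),(z1,[z0,z0,
    z1]),(z1,[z2,z1,z1,y1])]],
    .lp [k24,k12,k18,k12,k16,k12] [k0,k0,k6,k6,k3,k3,k6,k6,k4,k4,k6,k6] k0 [[k0,k0,k6],[],[],[k0,k6],[],[],[],[],[k0,k0,
    k0,k0,k0,k0,k0,k0,k0,k0,k4],[],[],[k0,k0,k0,k0,k0,k0,k0,k0,k0,k4]] k48 k5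
    [[(k8,k16),(k6,k18),(k10,k18)],[(k5,k15),(k3,k18),(k7,k18)],[(k4,k15),(k0,k18),(k2,k18)],[(k7,k12),(k5,k15),(k3,
    k18)],[(k0,k15),(k2,k15),(k4,k18)],[(k3,k15),(k7,k15),(k5,k18)],[(k2,k12),(k4,k15),(k0,k18)],[(k11,k12),(k9,k14),
    (k1,k18)],[(k6,k14),(k10,k14),(k8,k16)],[(k11,k14),(k1,k16),(k9,k16)],[(k6,k12),(k8,k14),(k10,k16)],[(k9,k14),
    (k11,k16),(k1,k18)]]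
    [] k0
    [[k0,k0,k0,k0,k2,k1],[k0,k0,k0,k0,k1,k2]]
    [.ref k8 k0 [(z1,[y1,z2]),(z1,[z0,y1,z1])],.ref k10 k0 [(z1,[y1,z1]),(z1,[z0,y1,z1])]],
    .lp [k24,k12,k16,k12,k18,k12] [k0,k0,k6,k6,k4,k4,k6,k6,k3,k3,k6,k6] k0 [[k0,k0,k8],[],[],[k0,k8],[],[],[],[],[k0,k0,
    k0,k0,k0,k0,k0,k0,k0,k0,k6],[],[],[k0,k0,k0,k0,k0,k0,k0,k0,k0,k6]] k48 k5
    [[(k8,k15),(k6,k18),(k10,k18)],[(k5,k12),(k3,k18),(k7,k18)],[(k4,k14),(k0,k18),(k2,k20)],[(k7,k12),(k5,k14),(k3,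
    k20)],[(k0,k12),(k2,k14),(k4,k16)],[(k3,k14),(k7,k14),(k5,k16)],[(k2,k12),(k4,k14),(k0,k18)],[(k11,k12),(k9,k15),
    (k1,k18)],[(k6,k15),(k10,k15),(k8,k18)],[(k1,k15),(k11,k15),(k9,k18)],[(k6,k12),(k8,k15),(k10,k18)],[(k9,k15),(k1,
    k18),(k11,k18)]]
    [] k0
    [[k1,k0,k1,k1,k0,k0],[k0,k1,k2,k0,k0,k0]]
    [.ref k6 k2 [(z1,[z1])],.ref k11 k0 [(z1,[y1,z1])]]]⟩

/-- classes `0 0 0 1 1 1`, types `C0 C0 C0 C0 C0 C2` -/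
noncomputable def cT6_551 : CertT :=
  ⟨[k4,k4,k4,k20,k20,k22],[],[[[]]],
    [.lp [k22,k12,k18,k16,k16,k8] [k0,k0,k5,k5,k2,k2,k3,k3,k3,k3,k7,k7] k0 [[k0,k0,k8],[k0,k0,k0,k0,k0,k2],[k0,k0,k0,k0,
    k2],[k0,k8],[k2],[k0,k0,k0,k2]] k48 k5
    [[(k10,k15),(k11,k15),(k9,k19)],[(k5,k12),(k3,k17),(k7,k21)],[(k4,k13),(k0,k17),(k2,k20)],[(k7,k12),(k5,k15),(k3,
    k20)],[(k0,k12),(k2,k15),(k4,k20)],[(k3,k13),(k7,k17),(k5,k20)],[(k2,k12),(k4,k17),(k0,k21)],[(k10,k12),(k11,k12),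
    (k9,k16)],[(k6,k16),(k8,k16),(k1,k19)],[(k10,k12),(k11,k12),(k9,k16)],[(k6,k12),(k8,k12),(k1,k15)],[(k6,k12),(k8,
    k12),(k1,k15)]]
    [] k0
    []
    []]⟩

/-- classes `0 0 0 1 1 1`, types `C0 C0 C0 C0 C2 C0` -/
noncomputable def cT6_552 : CertT :=
  ⟨[k4,k4,k4,k20,k22,k20],[],[[[]]],
    [.lp [k6,k4,k4,k2,k4,k2] [k0,k0,k1,k1,k1,k1,k2,k2,k1,k1,k2,k2] k0 [] k12 k5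
    [[(k6,k4),(k10,k4),(k11,k4)],[(k7,k4),(k3,k5),(k5,k5)],[(k2,k4),(k4,k4),(k0,k5)],[(k7,k3),(k3,k4),(k5,k4)],[(k2,
    k4),(k4,k4),(k0,k5)],[(k7,k3),(k3,k4),(k5,k4)],[(k2,k3),(k4,k3),(k0,k4)],[(k8,k3),(k9,k3),(k1,k4)],[(k6,k3),(k10,
    k3),(k11,k3)],[(k6,k3),(k10,k3),(k11,k3)],[(k8,k3),(k9,k3),(k1,k4)],[(k8,k3),(k9,k3),(k1,k4)]]
    [] k0
    []
    []]⟩

/-- classes `0 0 0 1 1 1`, types `C0 C0 C0 S0 S0 S0` -/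
noncomputable def cT6_553 : CertT :=
  ⟨[k4,k4,k4,k16,k16,k16],[(false,k0,[k0,k1,k2,k3,k4,k5]),(true,k3,[k3,k2,k1,k0,k5,k4])],[[[([z3,z0,z0,z3,z0,z0],z4),
    ([z0,z3,z0,z0,z0,z0],z2),([z0,z0,z3,z0,z0,z0],z2),([z0,z0,z0,z0,z3,z0],z2)],[([z3,z0,z0,z3,z0,z0],z4),([z0,z3,z0,
    z0,z0,z0],z2),([z0,z0,z3,z0,z0,z0],z2)],[([z1,z0,z0,z1,y1,y1],z0),([z0,z1,z0,z0,z1,z1],z2)],[([z1,z0,z0,z1,z0,y2],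
    z0),([z0,z1,z0,z0,z0,y1],z0),([z0,z0,z1,z0,z0,z2],z2)],[([z1,z0,z0,z1,z0,y2],z0),([z0,z1,z0,z0,z0,z2],z2),([z0,z0,
    z1,z0,z0,y1],z0)],[([z1,z0,z0,z1,z2,z2],z4),([z0,z1,z0,z0,y2,y2],y2)],[([z1,z0,z1,z1,z0,z0],z2)],[]]],
    [.tor k6 false k0 [(z3,[y2,y2,y2,y1,z6]),(z3,[z0,z1,z2]),(z3,[z1,z0,z0,z1]),(z3,[z1,z1])],
    .lp [k30,k28,k34,k24,k40,k32] [k9,k9,k10,k10,k7,k7,k12,k12,k8,k0,k8,k8] k0 [[k0,k0,k8],[k0,k0,k0,k0,k0,k2],[k0,k0,k0,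
    k0,k2],[k0,k8],[k2],[k0,k0,k0,k2],[],[k0,k0,k0,k0,k0,k0,k0,k0,k0,k0,k0,k16],[],[],[k0,k0,k0,k0,k0,k0,k16]] k96 k5
    [[(k1,k30),(k8,k31),(k10,k31),(k11,k31),(k9,k39),(k6,k43)],[(k5,k24),(k3,k29),(k7,k29)],[(k0,k29),(k4,k29),(k2,
    k36)],[(k7,k24),(k5,k31),(k3,k36)],[(k0,k24),(k2,k31),(k4,k36)],[(k3,k29),(k7,k29),(k5,k36)],[(k2,k24),(k0,k29),
    (k4,k29)],[(k6,k24),(k8,k28),(k10,k28),(k11,k28),(k9,k36),(k1,k43)],[(k10,k24),(k6,k36),(k1,k39),(k8,k40),(k11,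
    k40),(k9,k48)],[(k6,k28),(k1,k31),(k8,k32),(k10,k32),(k11,k32),(k9,k40)],[(k6,k28),(k1,k31),(k8,k32),(k10,k32),
    (k11,k32),(k9,k40)],[(k9,k24),(k6,k28),(k1,k31),(k8,k32),(k10,k32),(k11,k32)]]
    [] k0
    [[k1,k0,k0,k1,k0,k1],[k0,k0,k0,k0,k1,k2]]
    [.ref k0 k0 [(z1,[z0,z1]),(z1,[z0,z0,z1]),(z1,[z0,z0,z0,z1]),(z1,[y3,z0,y1,y1,z3])],.ref k0 k0 [(z1,[z0,z1]),(z1,
    [z0,z0,z1]),(z1,[z0,z0,z0,z1]),(z1,[y3,y2,y2,y2,z6])]],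
    .lp [k18,k12,k16,k12,k18,k18] [k0,k0,k3,k3,k1,k1,k3,k3,k0,k0,k0,k0] k0 [[k0,k0,k4],[],[],[k0,k4],[],[],[],[k0,k0,k0,
    k0,k0,k0,k0,k0,k0,k0,k0,k6],[],[],[k0,k0,k0,k0,k0,k0,k6]] k48 k5
    [[(k1,k18),(k8,k18),(k9,k18),(k10,k18),(k11,k18),(k6,k21)],[(k5,k13),(k3,k15),(k7,k15)],[(k4,k14),(k0,k15),(k2,
    k16)],[(k7,k12),(k5,k14),(k3,k16)],[(k0,k13),(k2,k14),(k4,k16)],[(k3,k14),(k7,k14),(k5,k16)],[(k2,k12),(k4,k14),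
    (k0,k15)],[(k6,k12),(k8,k15),(k9,k15),(k10,k15),(k11,k15),(k1,k21)],[(k10,k12),(k6,k15),(k1,k18),(k8,k18),(k9,
    k18),(k11,k18)],[(k6,k15),(k1,k18),(k8,k18),(k9,k18),(k10,k18),(k11,k18)],[(k6,k15),(k1,k18),(k8,k18),(k9,k18),
    (k10,k18),(k11,k18)],[(k9,k12),(k6,k15),(k1,k18),(k8,k18),(k10,k18),(k11,k18)]]
    [] k0
    [[k0,k2,k1,k0,k0,k0],[k0,k1,k2,k0,k0,k0]]
    [.ref k1 k0 [(z1,[y1,z2,z1,z1]),(z1,[z1,z1,z2,y1]),(z1,[z1,y2,y4,z2])],.ref k1 k0 [(z1,[y1,z1,y1,z2]),(z1,[z1,z2,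
    z4,y2]),(z1,[z1,y1,y2,z1])]],
    .tor k7 false k3 [(z1,[z0,z2,z1]),(z1,[y1,y1,y1,z1]),(z1,[z1,z0,z1]),(z1,[z0,y1,y1,z1])],
    .tor k6 false k0 [(z1,[y1,y1,y1,z1]),(z1,[z0,z1,z2]),(z1,[z0,y1,y1,z1]),(z1,[z1,z1])],
    .lp [k30,k28,k34,k24,k40,k32] [k9,k9,k10,k10,k7,k7,k12,k12,k8,k0,k8,k8] k0 [[k0,k0,k8],[k0,k0,k0,k0,k0,k2],[k0,k0,k0,
    k0,k2],[k0,k8],[k2],[k0,k0,k0,k2],[],[k0,k0,k0,k0,k0,k0,k0,k0,k0,k0,k0,k16],[],[],[k0,k0,k0,k0,k0,k0,k16]] k96 k5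
    [[(k1,k30),(k8,k31),(k10,k31),(k11,k31),(k9,k39),(k6,k43)],[(k5,k24),(k3,k29),(k7,k29)],[(k0,k29),(k4,k29),(k2,
    k36)],[(k7,k24),(k5,k31),(k3,k36)],[(k0,k24),(k2,k31),(k4,k36)],[(k3,k29),(k7,k29),(k5,k36)],[(k2,k24),(k0,k29),
    (k4,k29)],[(k6,k24),(k8,k28),(k10,k28),(k11,k28),(k9,k36),(k1,k43)],[(k10,k24),(k6,k36),(k1,k39),(k8,k40),(k11,
    k40),(k9,k48)],[(k6,k28),(k1,k31),(k8,k32),(k10,k32),(k11,k32),(k9,k40)],[(k6,k28),(k1,k31),(k8,k32),(k10,k32),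
    (k11,k32),(k9,k40)],[(k9,k24),(k6,k28),(k1,k31),(k8,k32),(k10,k32),(k11,k32)]]
    [] k0
    [[k1,k0,k0,k1,k0,k1],[k0,k0,k0,k0,k1,k2]]
    [.ref k3 k1 [(z1,[z2,y1]),(z1,[z1,y2,y1,z1]),(z1,[y2,z2,z1])],.ref k4 k0 [(z1,[y2,z1]),(z1,[z2,z0,z1]),(z1,[y1,y1,
    y1,z1])]],
    .lp [k28,k22,k40,k26,k36,k36] [k6,k6,k9,k9,k0,k0,k7,k7,k2,k2,k2,k2] k0 [[k0,k0,k10],[k0,k0,k0,k0,k0,k6],[],[k0,k10],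
    [k6],[],[],[k0,k0,k0,k0,k0,k0,k0,k0,k0,k0,k0,k12],[],[],[k0,k0,k0,k0,k0,k0,k12]] k96 k5
    [[(k1,k28),(k8,k32),(k9,k32),(k10,k32),(k11,k32),(k6,k39)],[(k5,k24),(k3,k25),(k7,k33)],[(k0,k25),(k4,k25),(k2,
    k32)],[(k7,k24),(k5,k31),(k3,k32)],[(k0,k24),(k2,k31),(k4,k40)],[(k3,k25),(k7,k33),(k5,k40)],[(k2,k24),(k0,k33),
    (k4,k33)],[(k6,k26),(k8,k31),(k9,k31),(k10,k31),(k11,k31),(k1,k39)],[(k10,k24),(k6,k31),(k1,k32),(k8,k36),(k9,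
    k36),(k11,k36)],[(k6,k31),(k1,k32),(k8,k36),(k9,k36),(k10,k36),(k11,k36)],[(k6,k31),(k1,k32),(k8,k36),(k9,k36),
    (k10,k36),(k11,k36)],[(k9,k24),(k6,k31),(k1,k32),(k8,k36),(k10,k36),(k11,k36)]]
    [] k0
    [[k1,k1,k0,k1,k0,k0],[k0,k2,k1,k0,k0,k0]]
    [.ref k2 k0 [(z1,[z1,z1,y1]),(z1,[z0,y1,z1])],.ref k5 k1 [(z1,[y1,y1,z2]),(z1,[z1,z2,y2])]],
    .lp [k20,k12,k18,k12,k16,k16] [k0,k0,k4,k4,k1,k1,k4,k4,k2,k2,k2,k2] k0 [[k0,k0,k6],[],[],[k0,k6]] k48 k5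
    [[(k6,k16),(k8,k18),(k9,k18),(k10,k18),(k11,k18),(k1,k20)],[(k5,k13),(k3,k16),(k7,k16)],[(k4,k15),(k0,k16),(k2,
    k18)],[(k7,k12),(k5,k15),(k3,k18)],[(k0,k13),(k2,k15),(k4,k18)],[(k3,k15),(k7,k15),(k5,k18)],[(k2,k12),(k4,k15),
    (k0,k16)],[(k6,k12),(k8,k14),(k9,k14),(k10,k14),(k11,k14),(k1,k16)],[(k6,k14),(k8,k16),(k9,k16),(k10,k16),(k11,
    k16),(k1,k18)],[(k6,k14),(k8,k16),(k9,k16),(k10,k16),(k11,k16),(k1,k18)],[(k6,k14),(k8,k16),(k9,k16),(k10,k16),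
    (k11,k16),(k1,k18)],[(k6,k14),(k8,k16),(k9,k16),(k10,k16),(k11,k16),(k1,k18)]]
    [] k0
    [[k1,k1,k0,k1,k0,k0],[k1,k0,k1,k1,k0,k0]]
    [.ref k6 k1 [(z1,[z1])],.ref k6 k0 [(z1,[z1])]]]⟩

/-- classes `0 0 0 1 1 1`, types `C0 C0 C2 C0 C0 C2` -/
noncomputable def cT6_554 : CertT :=
  ⟨[k4,k4,k6,k20,k20,k22],[],[[[]]],
    [.lp [k4,k4,k2,k4,k4,k2] [k0,k0,k0,k0,k1,k1,k0,k0,k0,k0,k1,k1] k0 [] k12 k5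
    [[(k10,k3),(k11,k3),(k9,k4)],[(k4,k3),(k5,k3),(k3,k4)],[(k0,k4),(k2,k4),(k7,k4)],[(k4,k3),(k5,k3),(k3,k4)],[(k0,
    k3),(k2,k3),(k7,k3)],[(k0,k3),(k2,k3),(k7,k3)],[(k4,k3),(k5,k3),(k3,k4)],[(k10,k3),(k11,k3),(k9,k4)],[(k1,k4),(k6,
    k4),(k8,k4)],[(k10,k3),(k11,k3),(k9,k4)],[(k1,k3),(k6,k3),(k8,k3)],[(k1,k3),(k6,k3),(k8,k3)]]
    [] k0
    []
    []]⟩

/-- classes `0 0 0 1 1 1`, types `C0 C0 C2 C0 C2 C0` -/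
noncomputable def cT6_555 : CertT :=
  ⟨[k4,k4,k6,k20,k22,k20],[],[[[]]],
    [.lp [k6,k4,k2,k4,k2,k4] [k0,k0,k1,k1,k2,k2,k1,k1,k2,k2,k1,k1] k0 [] k12 k5
    [[(k6,k5),(k10,k5),(k11,k5)],[(k4,k4),(k5,k4),(k3,k5)],[(k2,k4),(k7,k4),(k0,k5)],[(k4,k3),(k5,k3),(k3,k4)],[(k2,
    k3),(k7,k3),(k0,k4)],[(k2,k3),(k7,k3),(k0,k4)],[(k4,k3),(k5,k3),(k3,k4)],[(k8,k3),(k9,k3),(k1,k5)],[(k6,k3),(k10,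
    k3),(k11,k3)],[(k6,k3),(k10,k3),(k11,k3)],[(k8,k3),(k9,k3),(k1,k5)],[(k8,k3),(k9,k3),(k1,k5)]]
    [] k0
    []
    []]⟩

/-- classes `0 0 0 1 1 1`, types `C0 C0 C2 C0 C2 C2` -/
noncomputable def cT6_556 : CertT :=
  ⟨[k4,k4,k6,k20,k22,k22],[],[[[]]],
    [.lp [k4,k4,k2,k4,k2,k4] [k0,k0,k0,k0,k1,k1,k0,k0,k1,k1,k0,k0] k0 [] k12 k5
    [[(k8,k3),(k9,k3),(k10,k4)],[(k4,k3),(k5,k3),(k3,k4)],[(k0,k4),(k2,k4),(k7,k4)],[(k4,k3),(k5,k3),(k3,k4)],[(k0,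
    k3),(k2,k3),(k7,k3)],[(k0,k3),(k2,k3),(k7,k3)],[(k4,k3),(k5,k3),(k3,k4)],[(k8,k3),(k9,k3),(k10,k4)],[(k1,k3),(k6,
    k3),(k11,k3)],[(k1,k3),(k6,k3),(k11,k3)],[(k8,k3),(k9,k3),(k10,k4)],[(k1,k4),(k6,k4),(k11,k4)]]
    [] k0
    []
    []]⟩

/-- classes `0 0 0 1 1 1`, types `C0 C0 C2 S0 S0 S0` -/
noncomputable def cT6_557 : CertT :=
  ⟨[k4,k4,k6,k16,k16,k16],[],[[[]]],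
    [.lp [(nat_lit 3648),(nat_lit 2660),(nat_lit 1900),(nat_lit 3648),(nat_lit 2850),(nat_lit 2850)] [k0,k0,(nat_lit 494),
    (nat_lit 494),(nat_lit 874),(nat_lit 874),k0,k0,(nat_lit 399),(nat_lit 399),(nat_lit 399),(nat_lit 399)] k0 [[k0,
    k0,(nat_lit 380)],[],[],[k0,(nat_lit 380)],[],[],[k0,k0,k0,k0,k0,k0,k0,k0,(nat_lit 960),(nat_lit 960)],[k0,k0,k0,
    k0,k0,k0,k0,k0,k0,k0,k0,(nat_lit 380)],[k0,k0,k0,k0,k0,k0,k0,(nat_lit 960),k0,k0,(nat_lit 960)],[k0,k0,k0,k0,k0,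
    k0,k0,(nat_lit 960),k0,k0,(nat_lit 960)],[k0,k0,k0,k0,k0,k0,(nat_lit 380),k0,k0,k0,k0,(nat_lit 380)],[k0,k0,k0,k0,
    k0,k0,k0,k0,(nat_lit 960),(nat_lit 960)]] (nat_lit 9120) k5
    [[(k8,(nat_lit 2289)),(k11,(nat_lit 2289)),(k9,(nat_lit 3249)),(k10,(nat_lit 3249)),(k1,(nat_lit 4028)),(k6,
    (nat_lit 4028))],[(k5,(nat_lit 2394)),(k4,(nat_lit 2774)),(k3,(nat_lit 3154))],[(k2,(nat_lit 3040)),(k0,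
    (nat_lit 3154)),(k7,(nat_lit 3154))],[(k4,(nat_lit 2280)),(k5,(nat_lit 2280)),(k3,(nat_lit 3040))],[(k2,
    (nat_lit 2280)),(k0,(nat_lit 2394)),(k7,(nat_lit 2774))],[(k2,(nat_lit 2280)),(k0,(nat_lit 2774)),(k7,
    (nat_lit 2774))],[(k4,(nat_lit 2774)),(k5,(nat_lit 2774)),(k3,(nat_lit 3154))],[(k8,(nat_lit 2289)),(k11,
    (nat_lit 2289)),(k9,(nat_lit 3249)),(k10,(nat_lit 3249)),(k6,(nat_lit 3648)),(k1,(nat_lit 4028))],[(k10,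
    (nat_lit 2470)),(k9,(nat_lit 2850)),(k1,(nat_lit 3249)),(k6,(nat_lit 3249)),(k8,(nat_lit 3810)),(k11,
    (nat_lit 3810))],[(k1,(nat_lit 2289)),(k6,(nat_lit 2289)),(k8,(nat_lit 2850)),(k11,(nat_lit 2850)),(k9,
    (nat_lit 3810)),(k10,(nat_lit 3810))],[(k1,(nat_lit 2289)),(k6,(nat_lit 2289)),(k8,(nat_lit 2850)),(k11,
    (nat_lit 2850)),(k9,(nat_lit 3810)),(k10,(nat_lit 3810))],[(k9,(nat_lit 2470)),(k10,(nat_lit 2470)),(k1,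
    (nat_lit 3249)),(k6,(nat_lit 3249)),(k8,(nat_lit 3810)),(k11,(nat_lit 3810))]]
    [] k0
    []
    []]⟩

/-- classes `0 0 0 1 1 1`, types `C0 C2 C0 C0 C2 C0` -/
noncomputable def cT6_558 : CertT :=
  ⟨[k4,k6,k4,k20,k22,k20],[],[[[]]],
    [.lp [k0,k2,k0,k2,k0,k2] [k1,k1,k0,k0,k1,k1,k0,k0,k1,k1,k0,k0] k0 [] k4 k5
    [[(k6,k1),(k10,k1),(k11,k1)],[(k2,k1),(k3,k1),(k7,k1)],[(k0,k1),(k4,k1),(k5,k1)],[(k0,k1),(k4,k1),(k5,k1)],[(k2,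
    k1),(k3,k1),(k7,k1)],[(k2,k1),(k3,k1),(k7,k1)],[(k0,k1),(k4,k1),(k5,k1)],[(k1,k1),(k8,k1),(k9,k1)],[(k6,k1),(k10,
    k1),(k11,k1)],[(k6,k1),(k10,k1),(k11,k1)],[(k1,k1),(k8,k1),(k9,k1)],[(k1,k1),(k8,k1),(k9,k1)]]
    [] k0
    []
    []]⟩

/-- classes `0 0 0 1 1 1`, types `C0 C2 C0 S0 S0 S0` -/
noncomputable def cT6_559 : CertT :=
  ⟨[k4,k6,k4,k16,k16,k16],[],[[[]]],
    [.lp [k6,k12,k0,k12,k8,k8] [k3,k3,k0,k0,k6,k6,k0,k0,k2,k2,k2,k2] k0 [] k24 k5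
    [[(k1,k6),(k8,k7),(k9,k7),(k10,k7),(k11,k7),(k6,k9)],[(k2,k9),(k3,k9),(k7,k9)],[(k4,k6),(k5,k6),(k0,k9)],[(k4,k6),
    (k5,k6),(k0,k9)],[(k2,k6),(k3,k6),(k7,k6)],[(k2,k6),(k3,k6),(k7,k6)],[(k4,k6),(k5,k6),(k0,k9)],[(k1,k9),(k8,k10),
    (k9,k10),(k10,k10),(k11,k10),(k6,k12)],[(k1,k7),(k8,k8),(k9,k8),(k10,k8),(k11,k8),(k6,k10)],[(k1,k7),(k8,k8),(k9,
    k8),(k10,k8),(k11,k8),(k6,k10)],[(k1,k7),(k8,k8),(k9,k8),(k10,k8),(k11,k8),(k6,k10)],[(k1,k7),(k8,k8),(k9,k8),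
    (k10,k8),(k11,k8),(k6,k10)]]
    [] k0
    []
    []]⟩

/-- classes `0 0 0 1 1 2`, types `C0 C0 C0 B0 B1 C0` -/
noncomputable def cT6_560 : CertT :=
  ⟨[k4,k4,k4,k24,k25,k36],[],[[[]]],
    [.lp [k22,k12,k18,k16,k16,k8] [k0,k0,k5,k5,k2,k2,k3,k3,k3,k3,k7,k7] k0 [[k0,k0,k8],[k0,k0,k0,k0,k0,k2],[k0,k0,k0,k0,
    k2],[k0,k8],[k2],[k0,k0,k0,k2]] k48 k5
    [[(k10,k15)],[(k5,k12),(k3,k17),(k7,k21)],[(k4,k13),(k0,k17),(k2,k20)],[(k7,k12),(k5,k15),(k3,k20)],[(k0,k12),(k2,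
    k15),(k4,k20)],[(k3,k13),(k7,k17),(k5,k20)],[(k2,k12),(k4,k17),(k0,k21)],[(k11,k12),(k8,k16)],[(k11,k12),(k8,
    k16)],[(k6,k16),(k9,k16)],[(k6,k12),(k9,k12)],[(k1,k15)]]
    [] k0
    []
    []]⟩

/-- classes `0 0 0 1 1 2`, types `C0 C0 C0 B0 B1 S0` -/
noncomputable def cT6_561 : CertT :=
  ⟨[k4,k4,k4,k24,k25,k32],[],[[[]]],
    [.lp [k10,k6,k10,k6,k8,k6] [k0,k0,k2,k2,k0,k0,k2,k2,k1,k1,k2,k2] k0 [[k0,k0,k4],[k0,k0,k0,k0,k0,k2],[],[k0,k4],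
    [k2]] k24 k5
    [[(k10,k8),(k1,k10)],[(k5,k6),(k3,k8),(k7,k10)],[(k4,k6),(k0,k8),(k2,k10)],[(k7,k6),(k5,k8),(k3,k10)],[(k0,k6),
    (k2,k8),(k4,k10)],[(k3,k6),(k7,k8),(k5,k10)],[(k2,k6),(k4,k8),(k0,k10)],[(k11,k6),(k8,k7)],[(k11,k7),(k8,k8)],
    [(k6,k7),(k9,k8)],[(k6,k6),(k9,k7)],[(k10,k6),(k1,k8)]]
    [] k0
    []
    []]⟩

/-- classes `0 0 0 1 1 2`, types `C0 C0 C0 C0 C0 C0` -/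
noncomputable def cT6_562 : CertT :=
  ⟨[k4,k4,k4,k20,k20,k36],[],[[[]]],
    [.lp [k22,k12,k18,k16,k16,k8] [k0,k0,k5,k5,k2,k2,k3,k3,k3,k3,k7,k7] k0 [[k0,k0,k8],[k0,k0,k0,k0,k0,k2],[k0,k0,k0,k0,
    k2],[k0,k8],[k2],[k0,k0,k0,k2]] k48 k5
    [[(k10,k15)],[(k5,k12),(k3,k17),(k7,k21)],[(k4,k13),(k0,k17),(k2,k20)],[(k7,k12),(k5,k15),(k3,k20)],[(k0,k12),(k2,
    k15),(k4,k20)],[(k3,k13),(k7,k17),(k5,k20)],[(k2,k12),(k4,k17),(k0,k21)],[(k11,k12),(k9,k16)],[(k6,k16),(k8,k16)],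
    [(k11,k12),(k9,k16)],[(k6,k12),(k8,k12)],[(k1,k15)]]
    [] k0
    []
    []]⟩

/-- classes `0 0 0 1 1 2`, types `C0 C0 C0 C0 C0 S0` -/
noncomputable def cT6_563 : CertT :=
  ⟨[k4,k4,k4,k20,k20,k32],[],[[[]]],
    [.lp [k10,k6,k10,k6,k8,k6] [k0,k0,k2,k2,k0,k0,k2,k2,k1,k1,k2,k2] k0 [[k0,k0,k4],[k0,k0,k0,k0,k0,k2],[],[k0,k4],
    [k2]] k24 k5
    [[(k10,k8),(k1,k10)],[(k5,k6),(k3,k8),(k7,k10)],[(k4,k6),(k0,k8),(k2,k10)],[(k7,k6),(k5,k8),(k3,k10)],[(k0,k6),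
    (k2,k8),(k4,k10)],[(k3,k6),(k7,k8),(k5,k10)],[(k2,k6),(k4,k8),(k0,k10)],[(k11,k6),(k9,k7)],[(k6,k7),(k8,k8)],
    [(k11,k7),(k9,k8)],[(k6,k6),(k8,k7)],[(k10,k6),(k1,k8)]]
    [] k0
    []
    []]⟩

/-- classes `0 0 0 1 1 2`, types `C0 C0 C0 C0 C2 C0` -/
noncomputable def cT6_564 : CertT :=
  ⟨[k4,k4,k4,k20,k22,k36],[],[[[]]],
    [.lp [k2,k4,k4,k4,k2,k4] [k1,k1,k0,k0,k0,k0,k0,k0,k1,k1,k0,k0] k0 [] k12 k5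
    [[(k10,k3)],[(k3,k3),(k5,k3),(k7,k3)],[(k0,k3),(k2,k4),(k4,k4)],[(k3,k4),(k5,k4),(k7,k4)],[(k0,k3),(k2,k4),(k4,
    k4)],[(k3,k4),(k5,k4),(k7,k4)],[(k0,k3),(k2,k4),(k4,k4)],[(k8,k3),(k9,k3)],[(k6,k3),(k11,k3)],[(k6,k3),(k11,k3)],
    [(k8,k3),(k9,k3)],[(k1,k3)]]
    [] k0
    []
    []]⟩

/-- classes `0 0 0 1 1 2`, types `C0 C0 C0 C0 C2 S0` -/
noncomputable def cT6_565 : CertT :=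
  ⟨[k4,k4,k4,k20,k22,k32],[],[[[]]],
    [.lp [k12,k16,k16,k12,k12,k18] [k3,k3,k1,k1,k1,k1,k3,k3,k3,k3,k0,k0] k0 [] k48 k5
    [[(k1,k12),(k10,k15)],[(k7,k12),(k3,k14),(k5,k14)],[(k0,k14),(k2,k16),(k4,k16)],[(k7,k14),(k3,k16),(k5,k16)],[(k0,
    k14),(k2,k16),(k4,k16)],[(k7,k14),(k3,k16),(k5,k16)],[(k0,k12),(k2,k14),(k4,k14)],[(k8,k12),(k9,k12)],[(k6,k12),
    (k11,k15)],[(k6,k12),(k11,k15)],[(k8,k15),(k9,k15)],[(k1,k15),(k10,k18)]]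
    [] k0
    []
    []]⟩

/-- classes `0 0 0 1 1 2`, types `C0 C0 C0 N0 N1 C0` -/
noncomputable def cT6_566 : CertT :=
  ⟨[k4,k4,k4,k28,k29,k36],[],[[[]]],
    [.lp [k12,k6,k8,k12,k8,k0] [k0,k0,k3,k3,k2,k2,k0,k0,k2,k2,k6,k6] k0 [[k0,k0,k4],[],[k0,k0,k0,k0,k2],[k0,k4],[],[k0,k0,
    k0,k2]] k24 k5
    [[(k10,k6)],[(k5,k6),(k3,k9),(k7,k12)],[(k4,k7),(k0,k9),(k2,k10)],[(k5,k7),(k7,k7),(k3,k10)],[(k0,k6),(k2,k7),(k4,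
    k10)],[(k3,k7),(k5,k10),(k7,k10)],[(k2,k7),(k4,k10),(k0,k12)],[(k11,k6)],[(k8,k8)],[(k9,k8)],[(k6,k6)],[(k1,k6)]]
    [] k0
    []
    []]⟩

/-- classes `0 0 0 1 1 2`, types `C0 C0 C0 N0 N1 S0` -/
noncomputable def cT6_567 : CertT :=
  ⟨[k4,k4,k4,k28,k29,k32],[],[[[]]],
    [.lp [k10,k6,k10,k6,k8,k6] [k0,k0,k2,k2,k0,k0,k2,k2,k1,k1,k2,k2] k0 [[k0,k0,k4],[k0,k0,k0,k0,k0,k2],[],[k0,k4],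
    [k2]] k24 k5
    [[(k10,k8),(k1,k10)],[(k5,k6),(k3,k8),(k7,k10)],[(k4,k6),(k0,k8),(k2,k10)],[(k7,k6),(k5,k8),(k3,k10)],[(k0,k6),
    (k2,k8),(k4,k10)],[(k3,k6),(k7,k8),(k5,k10)],[(k2,k6),(k4,k8),(k0,k10)],[(k11,k6)],[(k8,k8)],[(k9,k8)],[(k6,k6)],
    [(k10,k6),(k1,k8)]]
    [] k0
    []
    []]⟩

/-- classes `0 0 0 1 1 2`, types `C0 C0 C0 N0 N2 C0` -/
noncomputable def cT6_568 : CertT :=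
  ⟨[k4,k4,k4,k28,k30,k36],[],[[[]]],
    [.lp [k2,k4,k4,k4,k2,k4] [k1,k1,k0,k0,k0,k0,k0,k0,k1,k1,k0,k0] k0 [] k12 k5
    [[(k10,k3)],[(k3,k3),(k5,k3),(k7,k3)],[(k0,k3),(k2,k4),(k4,k4)],[(k3,k4),(k5,k4),(k7,k4)],[(k0,k3),(k2,k4),(k4,
    k4)],[(k3,k4),(k5,k4),(k7,k4)],[(k0,k3),(k2,k4),(k4,k4)],[(k8,k3)],[(k11,k3)],[(k6,k3)],[(k9,k3)],[(k1,k3)]]
    [] k0
    []
    []]⟩

/-- classes `0 0 0 1 1 2`, types `C0 C0 C0 N0 N2 S0` -/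
noncomputable def cT6_569 : CertT :=
  ⟨[k4,k4,k4,k28,k30,k32],[],[[[]]],
    [.lp [k6,k8,k8,k6,k6,k6] [k1,k1,k0,k0,k0,k0,k1,k1,k1,k1,k1,k1] k0 [] k24 k5
    [[(k1,k6),(k10,k6)],[(k7,k6),(k3,k7),(k5,k7)],[(k0,k7),(k2,k8),(k4,k8)],[(k7,k7),(k3,k8),(k5,k8)],[(k0,k7),(k2,
    k8),(k4,k8)],[(k7,k7),(k3,k8),(k5,k8)],[(k0,k6),(k2,k7),(k4,k7)],[(k8,k6)],[(k11,k6)],[(k6,k6)],[(k9,k6)],[(k1,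
    k6),(k10,k6)]]
    [] k0
    []
    []]⟩

/-- classes `0 0 0 1 1 2`, types `C0 C0 C0 S0 S0 C0` -/
noncomputable def cT6_570 : CertT :=
  ⟨[k4,k4,k4,k16,k16,k36],[],[[[]]],
    [.lp [k10,k6,k10,k6,k8,k6] [k0,k0,k2,k2,k0,k0,k2,k2,k1,k1,k2,k2] k0 [[k0,k0,k4],[k0,k0,k0,k0,k0,k2],[],[k0,k4],
    [k2]] k24 k5
    [[(k10,k8)],[(k5,k6),(k3,k8),(k7,k10)],[(k4,k6),(k0,k8),(k2,k10)],[(k7,k6),(k5,k8),(k3,k10)],[(k0,k6),(k2,k8),(k4,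
    k10)],[(k3,k6),(k7,k8),(k5,k10)],[(k2,k6),(k4,k8),(k0,k10)],[(k6,k6),(k11,k6),(k8,k7),(k9,k7)],[(k6,k7),(k11,k7),
    (k8,k8),(k9,k8)],[(k6,k7),(k11,k7),(k8,k8),(k9,k8)],[(k6,k6),(k11,k6),(k8,k7),(k9,k7)],[(k1,k8)]]
    [] k0
    []
    []]⟩

/-- classes `0 0 0 1 1 2`, types `C0 C0 C0 S0 S0 S0` -/
noncomputable def cT6_571 : CertT :=
  ⟨[k4,k4,k4,k16,k16,k32],[],[[[]]],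
    [.lp [k8,k6,k10,k6,k8,k8] [k0,k2,k2,k2,k0,k0,k2,k2,k1,k1,k1,k1] k0 [[k0,k0,k4],[k0,k0,k0,k0,k0,k2],[],[k0,k4],
    [k2]] k24 k5
    [[(k1,k6),(k10,k7)],[(k5,k6),(k3,k8),(k7,k10)],[(k4,k6),(k0,k8),(k2,k10)],[(k7,k6),(k5,k8),(k3,k10)],[(k0,k6),(k2,
    k8),(k4,k10)],[(k3,k6),(k7,k8),(k5,k10)],[(k2,k6),(k4,k8),(k0,k10)],[(k6,k6),(k8,k7),(k9,k7),(k11,k7)],[(k6,k7),
    (k8,k8),(k9,k8),(k11,k8)],[(k6,k7),(k8,k8),(k9,k8),(k11,k8)],[(k6,k7),(k8,k8),(k9,k8),(k11,k8)],[(k1,k7),(k10,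
    k8)]]
    [] k0
    []
    []]⟩

/-- classes `0 0 0 1 1 2`, types `C0 C0 C2 B0 B1 C0` -/
noncomputable def cT6_572 : CertT :=
  ⟨[k4,k4,k6,k24,k25,k36],[],[[[]]],
    [.lp [k2,k4,k4,k2,k4,k4] [k1,k1,k0,k0,k0,k0,k1,k1,k0,k0,k0,k0] k0 [] k12 k5
    [[(k10,k3)],[(k3,k3),(k4,k3),(k5,k3)],[(k0,k3),(k7,k3),(k2,k4)],[(k3,k4),(k4,k4),(k5,k4)],[(k0,k3),(k7,k3),(k2,
    k4)],[(k0,k3),(k7,k3),(k2,k4)],[(k3,k3),(k4,k3),(k5,k3)],[(k8,k3),(k11,k3)],[(k8,k4),(k11,k4)],[(k6,k3),(k9,k4)],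
    [(k6,k3),(k9,k4)],[(k1,k3)]]
    [] k0
    []
    []]⟩

/-- classes `0 0 0 1 1 2`, types `C0 C0 C2 B0 B1 S0` -/
noncomputable def cT6_573 : CertT :=
  ⟨[k4,k4,k6,k24,k25,k32],[],[[[]]],
    [.lp [k18,k16,k12,k12,k16,k12] [k0,k0,k1,k1,k3,k3,k3,k3,k1,k1,k3,k3] k0 [] k48 k5
    [[(k10,k15),(k1,k18)],[(k4,k15),(k5,k15),(k3,k17)],[(k7,k14),(k2,k16),(k0,k17)],[(k4,k14),(k5,k14),(k3,k16)],[(k7,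
    k12),(k2,k14),(k0,k15)],[(k7,k12),(k2,k14),(k0,k15)],[(k4,k12),(k5,k12),(k3,k14)],[(k11,k12),(k8,k14)],[(k11,k14),
    (k8,k16)],[(k6,k14),(k9,k16)],[(k6,k12),(k9,k14)],[(k10,k12),(k1,k15)]]
    [] k0
    []
    []]⟩

/-- classes `0 0 0 1 1 2`, types `C0 C0 C2 C0 C0 C0` -/
noncomputable def cT6_574 : CertT :=
  ⟨[k4,k4,k6,k20,k20,k36],[],[[[]]],
    [.lp [k4,k4,k2,k4,k4,k2] [k0,k0,k0,k0,k1,k1,k0,k0,k0,k0,k1,k1] k0 [] k12 k5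
    [[(k10,k3)],[(k4,k3),(k5,k3),(k3,k4)],[(k0,k4),(k2,k4),(k7,k4)],[(k4,k3),(k5,k3),(k3,k4)],[(k0,k3),(k2,k3),(k7,
    k3)],[(k0,k3),(k2,k3),(k7,k3)],[(k4,k3),(k5,k3),(k3,k4)],[(k11,k3),(k9,k4)],[(k6,k4),(k8,k4)],[(k11,k3),(k9,k4)],
    [(k6,k3),(k8,k3)],[(k1,k3)]]
    [] k0
    []
    []]⟩

/-- classes `0 0 0 1 1 2`, types `C0 C0 C2 C0 C0 S0` -/
noncomputable def cT6_575 : CertT :=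
  ⟨[k4,k4,k6,k20,k20,k32],[],[[[]]],
    [.lp [k18,k16,k12,k12,k16,k12] [k0,k0,k1,k1,k3,k3,k3,k3,k1,k1,k3,k3] k0 [] k48 k5
    [[(k10,k15),(k1,k18)],[(k4,k15),(k5,k15),(k3,k17)],[(k7,k14),(k2,k16),(k0,k17)],[(k4,k14),(k5,k14),(k3,k16)],[(k7,
    k12),(k2,k14),(k0,k15)],[(k7,k12),(k2,k14),(k0,k15)],[(k4,k12),(k5,k12),(k3,k14)],[(k11,k12),(k9,k14)],[(k6,k14),
    (k8,k16)],[(k11,k14),(k9,k16)],[(k6,k12),(k8,k14)],[(k10,k12),(k1,k15)]]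
    [] k0
    []
    []]⟩

/-- classes `0 0 0 1 1 2`, types `C0 C0 C2 C0 C2 C0` -/
noncomputable def cT6_576 : CertT :=
  ⟨[k4,k4,k6,k20,k22,k36],[],[[[]]],
    [.lp [k6,k8,k6,k6,k6,k6] [k1,k1,k0,k0,k1,k1,k1,k1,k1,k1,k1,k1] k0 [] k24 k5
    [[(k10,k6)],[(k4,k6),(k5,k6),(k3,k7)],[(k0,k7),(k7,k7),(k2,k8)],[(k4,k7),(k5,k7),(k3,k8)],[(k0,k6),(k7,k6),(k2,
    k7)],[(k0,k6),(k7,k6),(k2,k7)],[(k4,k6),(k5,k6),(k3,k7)],[(k8,k6),(k9,k6)],[(k6,k6),(k11,k6)],[(k6,k6),(k11,k6)],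
    [(k8,k6),(k9,k6)],[(k1,k6)]]
    [] k0
    []
    []]⟩

/-- classes `0 0 0 1 1 2`, types `C0 C0 C2 C0 C2 S0` -/
noncomputable def cT6_577 : CertT :=
  ⟨[k4,k4,k6,k20,k22,k32],[],[[[]]],
    [.lp [k10,k8,k4,k8,k4,k10] [k0,k0,k1,k1,k3,k3,k1,k1,k3,k3,k0,k0] k0 [] k24 k5
    [[(k1,k10),(k10,k10)],[(k4,k7),(k5,k7),(k3,k9)],[(k2,k8),(k7,k8),(k0,k9)],[(k4,k6),(k5,k6),(k3,k8)],[(k2,k6),(k7,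
    k6),(k0,k7)],[(k2,k6),(k7,k6),(k0,k7)],[(k4,k6),(k5,k6),(k3,k8)],[(k8,k6),(k9,k6)],[(k6,k6),(k11,k7)],[(k6,k6),
    (k11,k7)],[(k8,k7),(k9,k7)],[(k1,k10),(k10,k10)]]
    [] k0
    []
    []]⟩

/-- classes `0 0 0 1 1 2`, types `C0 C0 C2 N0 N1 C0` -/
noncomputable def cT6_578 : CertT :=
  ⟨[k4,k4,k6,k28,k29,k36],[],[[[]]],
    [.lp [k4,k4,k2,k4,k4,k2] [k0,k0,k0,k0,k1,k1,k0,k0,k0,k0,k1,k1] k0 [] k12 k5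
    [[(k10,k3)],[(k4,k3),(k5,k3),(k3,k4)],[(k0,k4),(k2,k4),(k7,k4)],[(k4,k3),(k5,k3),(k3,k4)],[(k0,k3),(k2,k3),(k7,
    k3)],[(k0,k3),(k2,k3),(k7,k3)],[(k4,k3),(k5,k3),(k3,k4)],[(k11,k3)],[(k8,k4)],[(k9,k4)],[(k6,k3)],[(k1,k3)]]
    [] k0
    []
    []]⟩

/-- classes `0 0 0 1 1 2`, types `C0 C0 C2 N0 N1 S0` -/
noncomputable def cT6_579 : CertT :=
  ⟨[k4,k4,k6,k28,k29,k32],[],[[[]]],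
    [.lp [k18,k16,k12,k12,k16,k12] [k0,k0,k1,k1,k3,k3,k3,k3,k1,k1,k3,k3] k0 [] k48 k5
    [[(k10,k15),(k1,k18)],[(k4,k15),(k5,k15),(k3,k17)],[(k7,k14),(k2,k16),(k0,k17)],[(k4,k14),(k5,k14),(k3,k16)],[(k7,
    k12),(k2,k14),(k0,k15)],[(k7,k12),(k2,k14),(k0,k15)],[(k4,k12),(k5,k12),(k3,k14)],[(k11,k12)],[(k8,k16)],[(k9,
    k16)],[(k6,k12)],[(k10,k12),(k1,k15)]]
    [] k0
    []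
    []]⟩

/-- classes `0 0 0 1 1 2`, types `C0 C0 C2 N0 N2 C0` -/
noncomputable def cT6_580 : CertT :=
  ⟨[k4,k4,k6,k28,k30,k36],[],[[[]]],
    [.lp [k6,k8,k6,k6,k6,k6] [k1,k1,k0,k0,k1,k1,k1,k1,k1,k1,k1,k1] k0 [] k24 k5
    [[(k10,k6)],[(k4,k6),(k5,k6),(k3,k7)],[(k0,k7),(k7,k7),(k2,k8)],[(k4,k7),(k5,k7),(k3,k8)],[(k0,k6),(k7,k6),(k2,
    k7)],[(k0,k6),(k7,k6),(k2,k7)],[(k4,k6),(k5,k6),(k3,k7)],[(k8,k6)],[(k11,k6)],[(k6,k6)],[(k9,k6)],[(k1,k6)]]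
    [] k0
    []
    []]⟩

/-- classes `0 0 0 1 1 2`, types `C0 C0 C2 N0 N2 S0` -/
noncomputable def cT6_581 : CertT :=
  ⟨[k4,k4,k6,k28,k30,k32],[],[[[]]],
    [.lp [k18,k16,k12,k12,k12,k12] [k0,k0,k1,k1,k3,k3,k3,k3,k3,k3,k3,k3] k0 [] k48 k5
    [[(k10,k15),(k1,k18)],[(k4,k15),(k5,k15),(k3,k17)],[(k7,k14),(k2,k16),(k0,k17)],[(k4,k14),(k5,k14),(k3,k16)],[(k7,
    k12),(k2,k14),(k0,k15)],[(k7,k12),(k2,k14),(k0,k15)],[(k4,k12),(k5,k12),(k3,k14)],[(k8,k12)],[(k11,k12)],[(k6,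
    k12)],[(k9,k12)],[(k10,k12),(k1,k15)]]
    [] k0
    []
    []]⟩

/-- classes `0 0 0 1 1 2`, types `C0 C0 C2 S0 S0 C0` -/
noncomputable def cT6_582 : CertT :=
  ⟨[k4,k4,k6,k16,k16,k36],[],[[[]]],
    [.lp [k34,k48,k40,k48,k46,k36] [k8,k6,k0,k0,k4,k4,k0,k0,k1,k1,k6,k6] k0 [[],[],[k0,k0,k0,k0,k0,k8],[],[k0,k0,k0,k8],[],
    [k0,k0,k0,k0,k0,k0,k0,k0,k6],[],[],[k0,k0,k0,k0,k0,k0,k0,k6]] k144 k5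
    [[(k10,k36)],[(k4,k36),(k5,k36),(k3,k40)],[(k0,k40),(k2,k48),(k7,k48)],[(k4,k36),(k5,k44),(k3,k48)],[(k0,k36),(k2,
    k44),(k7,k52)],[(k0,k36),(k2,k36),(k7,k44)],[(k4,k44),(k3,k48),(k5,k52)],[(k11,k36),(k8,k47),(k9,k47),(k6,k48)],
    [(k11,k41),(k9,k46),(k6,k47),(k8,k52)],[(k11,k41),(k8,k46),(k6,k47),(k9,k52)],[(k6,k36),(k11,k36),(k8,k41),(k9,
    k41)],[(k1,k36)]]
    [] k0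
    []
    []]⟩

/-- classes `0 0 0 1 1 2`, types `C0 C0 C2 S0 S0 S0` -/
noncomputable def cT6_583 : CertT :=
  ⟨[k4,k4,k6,k16,k16,k32],[],[[[]]],
    [.lp [k20,k12,k12,k18,k16,k14] [k0,k0,k4,k4,k4,k4,k1,k1,k2,k2,k3,k3] k0 [[k0,k0,k4],[],[],[k0,k4],[],[],[k0,k0,k0,k0,
    k0,k0,k0,k0,k0,k4],[],[k0,k0,k0,k0,k0,k0,k0,k4]] k48 k5
    [[(k10,k17),(k1,k20)],[(k5,k12),(k3,k16),(k4,k16)],[(k7,k15),(k0,k16),(k2,k16)],[(k4,k12),(k5,k12),(k3,k16)],[(k0,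
    k12),(k2,k12),(k7,k15)],[(k2,k12),(k7,k15),(k0,k16)],[(k3,k15),(k4,k15),(k5,k15)],[(k8,k13),(k11,k16),(k9,k17),
    (k6,k18)],[(k8,k16),(k9,k16),(k6,k17),(k11,k19)],[(k6,k13),(k11,k15),(k8,k16),(k9,k16)],[(k11,k14),(k8,k15),(k6,
    k16),(k9,k19)],[(k10,k14),(k1,k17)]]
    [] k0
    []
    []]⟩

/-- classes `0 0 0 1 1 2`, types `C0 C2 C0 B0 B1 C0` -/
noncomputable def cT6_584 : CertT :=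
  ⟨[k4,k6,k4,k24,k25,k36],[],[[[]]],
    [.lp [k0,k6,k0,k6,k4,k6] [k3,k3,k0,k0,k3,k3,k0,k0,k1,k1,k0,k0] k0 [] k12 k5
    [[(k10,k3)],[(k2,k3),(k3,k3),(k7,k3)],[(k0,k3),(k4,k3),(k5,k3)],[(k0,k3),(k4,k3),(k5,k3)],[(k2,k3),(k3,k3),(k7,
    k3)],[(k2,k3),(k3,k3),(k7,k3)],[(k0,k3),(k4,k3),(k5,k3)],[(k8,k5),(k11,k6)],[(k8,k4),(k11,k5)],[(k9,k4),(k6,k5)],
    [(k9,k5),(k6,k6)],[(k1,k3)]]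
    [] k0
    []
    []]⟩

/-- classes `0 0 0 1 1 2`, types `C0 C2 C0 B0 B1 S0` -/
noncomputable def cT6_585 : CertT :=
  ⟨[k4,k6,k4,k24,k25,k32],[],[[[]]],
    [.lp [k12,k6,k6,k6,k8,k6] [k0,k0,k3,k3,k3,k3,k3,k3,k2,k2,k3,k3] k0 [] k24 k5
    [[(k10,k9),(k1,k12)],[(k2,k9),(k3,k9),(k7,k9)],[(k4,k6),(k5,k6),(k0,k9)],[(k4,k6),(k5,k6),(k0,k9)],[(k2,k6),(k3,
    k6),(k7,k6)],[(k2,k6),(k3,k6),(k7,k6)],[(k4,k6),(k5,k6),(k0,k9)],[(k11,k6),(k8,k7)],[(k11,k7),(k8,k8)],[(k6,k7),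
    (k9,k8)],[(k6,k6),(k9,k7)],[(k10,k6),(k1,k9)]]
    [] k0
    []
    []]⟩

/-- classes `0 0 0 1 1 2`, types `C0 C2 C0 C0 C0 C0` -/
noncomputable def cT6_586 : CertT :=
  ⟨[k4,k6,k4,k20,k20,k36],[],[[[]]],
    [.lp [k4,k2,k4,k6,k4,k2] [k1,k1,k2,k2,k1,k1,k0,k0,k1,k1,k2,k2] k0 [] k12 k5
    [[(k10,k3)],[(k2,k3),(k3,k3),(k7,k5)],[(k0,k3),(k4,k3),(k5,k3)],[(k0,k3),(k4,k3),(k5,k3)],[(k2,k3),(k3,k3),(k7,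
    k5)],[(k2,k3),(k3,k3),(k7,k5)],[(k0,k5),(k4,k5),(k5,k5)],[(k11,k4),(k9,k5)],[(k8,k4),(k6,k5)],[(k11,k3),(k9,k4)],
    [(k8,k3),(k6,k4)],[(k1,k3)]]
    [] k0
    []
    []]⟩

/-- classes `0 0 0 1 1 2`, types `C0 C2 C0 C0 C0 S0` -/
noncomputable def cT6_587 : CertT :=
  ⟨[k4,k6,k4,k20,k20,k32],[],[[[]]],
    [.lp [k6,k12,k0,k12,k8,k6] [k3,k3,k0,k0,k6,k6,k0,k0,k2,k2,k3,k3] k0 [] k24 k5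
    [[(k1,k6),(k10,k6)],[(k2,k9),(k3,k9),(k7,k9)],[(k4,k6),(k5,k6),(k0,k9)],[(k4,k6),(k5,k6),(k0,k9)],[(k2,k6),(k3,
    k6),(k7,k6)],[(k2,k6),(k3,k6),(k7,k6)],[(k4,k6),(k5,k6),(k0,k9)],[(k11,k9),(k9,k10)],[(k8,k8),(k6,k10)],[(k11,k7),
    (k9,k8)],[(k8,k7),(k6,k9)],[(k1,k6),(k10,k6)]]
    [] k0
    []
    []]⟩

/-- classes `0 0 0 1 1 2`, types `C0 C2 C0 C0 C2 C0` -/
noncomputable def cT6_588 : CertT :=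
  ⟨[k4,k6,k4,k20,k22,k36],[],[[[]]],
    [.lp [k0,k2,k0,k2,k0,k2] [k1,k1,k0,k0,k1,k1,k0,k0,k1,k1,k0,k0] k0 [] k4 k5
    [[(k10,k1)],[(k2,k1),(k3,k1),(k7,k1)],[(k0,k1),(k4,k1),(k5,k1)],[(k0,k1),(k4,k1),(k5,k1)],[(k2,k1),(k3,k1),(k7,
    k1)],[(k2,k1),(k3,k1),(k7,k1)],[(k0,k1),(k4,k1),(k5,k1)],[(k8,k1),(k9,k1)],[(k6,k1),(k11,k1)],[(k6,k1),(k11,k1)],
    [(k8,k1),(k9,k1)],[(k1,k1)]]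
    [] k0
    []
    []]⟩

/-- classes `0 0 0 1 1 2`, types `C0 C2 C0 C0 C2 S0` -/
noncomputable def cT6_589 : CertT :=
  ⟨[k4,k6,k4,k20,k22,k32],[],[[[]]],
    [.lp [k2,k4,k0,k4,k0,k4] [k1,k1,k0,k0,k2,k2,k0,k0,k2,k2,k0,k0] k0 [] k8 k5
    [[(k1,k2),(k10,k3)],[(k2,k3),(k3,k3),(k7,k3)],[(k4,k2),(k5,k2),(k0,k3)],[(k4,k2),(k5,k2),(k0,k3)],[(k2,k2),(k3,
    k2),(k7,k2)],[(k2,k2),(k3,k2),(k7,k2)],[(k4,k2),(k5,k2),(k0,k3)],[(k8,k2),(k9,k2)],[(k6,k2),(k11,k2)],[(k6,k2),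
    (k11,k2)],[(k8,k2),(k9,k2)],[(k1,k3),(k10,k4)]]
    [] k0
    []
    []]⟩

/-- classes `0 0 0 1 1 2`, types `C0 C2 C0 N0 N1 C0` -/
noncomputable def cT6_590 : CertT :=
  ⟨[k4,k6,k4,k28,k29,k36],[],[[[]]],
    [.lp [k6,k0,k6,k6,k4,k0] [k0,k0,k3,k3,k0,k0,k0,k0,k1,k1,k3,k3] k0 [] k12 k5
    [[(k10,k3)],[(k2,k3),(k3,k3),(k7,k6)],[(k0,k3),(k4,k3),(k5,k3)],[(k0,k3),(k4,k3),(k5,k3)],[(k2,k3),(k3,k3),(k7,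
    k6)],[(k2,k3),(k3,k3),(k7,k6)],[(k0,k6),(k4,k6),(k5,k6)],[(k11,k3)],[(k8,k4)],[(k9,k4)],[(k6,k3)],[(k1,k3)]]
    [] k0
    []
    []]⟩

/-- classes `0 0 0 1 1 2`, types `C0 C2 C0 N0 N1 S0` -/
noncomputable def cT6_591 : CertT :=
  ⟨[k4,k6,k4,k28,k29,k32],[],[[[]]],
    [.lp [k6,k12,k0,k12,k8,k6] [k3,k3,k0,k0,k6,k6,k0,k0,k2,k2,k3,k3] k0 [] k24 k5
    [[(k1,k6),(k10,k6)],[(k2,k9),(k3,k9),(k7,k9)],[(k4,k6),(k5,k6),(k0,k9)],[(k4,k6),(k5,k6),(k0,k9)],[(k2,k6),(k3,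
    k6),(k7,k6)],[(k2,k6),(k3,k6),(k7,k6)],[(k4,k6),(k5,k6),(k0,k9)],[(k11,k9)],[(k8,k8)],[(k9,k8)],[(k6,k9)],[(k1,
    k6),(k10,k6)]]
    [] k0
    []
    []]⟩

/-- classes `0 0 0 1 1 2`, types `C0 C2 C0 N0 N2 C0` -/
noncomputable def cT6_592 : CertT :=
  ⟨[k4,k6,k4,k28,k30,k36],[],[[[]]],
    [.lp [k0,k2,k0,k2,k0,k2] [k1,k1,k0,k0,k1,k1,k0,k0,k1,k1,k0,k0] k0 [] k4 k5
    [[(k10,k1)],[(k2,k1),(k3,k1),(k7,k1)],[(k0,k1),(k4,k1),(k5,k1)],[(k0,k1),(k4,k1),(k5,k1)],[(k2,k1),(k3,k1),(k7,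
    k1)],[(k2,k1),(k3,k1),(k7,k1)],[(k0,k1),(k4,k1),(k5,k1)],[(k8,k1)],[(k11,k1)],[(k6,k1)],[(k9,k1)],[(k1,k1)]]
    [] k0
    []
    []]⟩

/-- classes `0 0 0 1 1 2`, types `C0 C2 C0 N0 N2 S0` -/
noncomputable def cT6_593 : CertT :=
  ⟨[k4,k6,k4,k28,k30,k32],[],[[[]]],
    [.lp [k6,k4,k4,k4,k4,k4] [k0,k0,k1,k1,k1,k1,k1,k1,k1,k1,k1,k1] k0 [] k16 k5
    [[(k10,k5),(k1,k6)],[(k2,k5),(k3,k5),(k7,k5)],[(k4,k4),(k5,k4),(k0,k5)],[(k4,k4),(k5,k4),(k0,k5)],[(k2,k4),(k3,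
    k4),(k7,k4)],[(k2,k4),(k3,k4),(k7,k4)],[(k4,k4),(k5,k4),(k0,k5)],[(k8,k4)],[(k11,k4)],[(k6,k4)],[(k9,k4)],[(k10,
    k4),(k1,k5)]]
    [] k0
    []
    []]⟩

/-- classes `0 0 0 1 1 2`, types `C0 C2 C0 S0 S0 C0` -/
noncomputable def cT6_594 : CertT :=
  ⟨[k4,k6,k4,k16,k16,k36],[],[[[]]],
    [.lp [k6,k12,k0,k12,k8,k6] [k3,k3,k0,k0,k6,k6,k0,k0,k2,k2,k3,k3] k0 [] k24 k5
    [[(k10,k6)],[(k2,k9),(k3,k9),(k7,k9)],[(k4,k6),(k5,k6),(k0,k9)],[(k4,k6),(k5,k6),(k0,k9)],[(k2,k6),(k3,k6),(k7,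
    k6)],[(k2,k6),(k3,k6),(k7,k6)],[(k4,k6),(k5,k6),(k0,k9)],[(k11,k9),(k8,k10),(k9,k10),(k6,k12)],[(k11,k7),(k8,k8),
    (k9,k8),(k6,k10)],[(k11,k7),(k8,k8),(k9,k8),(k6,k10)],[(k11,k6),(k8,k7),(k9,k7),(k6,k9)],[(k1,k6)]]
    [] k0
    []
    []]⟩

/-- classes `0 0 0 1 1 2`, types `C0 C2 C0 S0 S0 S0` -/
noncomputable def cT6_595 : CertT :=
  ⟨[k4,k6,k4,k16,k16,k32],[],[[[]]],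
    [.lp [k12,k0,k12,k6,k8,k8] [k0,k0,k6,k6,k0,k0,k3,k3,k2,k2,k2,k2] k0 [] k24 k5
    [[(k10,k10),(k1,k12)],[(k2,k6),(k3,k6),(k7,k9)],[(k0,k6),(k4,k6),(k5,k6)],[(k0,k6),(k4,k6),(k5,k6)],[(k2,k6),(k3,
    k6),(k7,k9)],[(k2,k6),(k3,k6),(k7,k9)],[(k0,k9),(k4,k9),(k5,k9)],[(k6,k6),(k8,k7),(k9,k7),(k11,k7)],[(k6,k7),(k8,
    k8),(k9,k8),(k11,k8)],[(k6,k7),(k8,k8),(k9,k8),(k11,k8)],[(k6,k7),(k8,k8),(k9,k8),(k11,k8)],[(k10,k8),(k1,k10)]]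
    [] k0
    []
    []]⟩

/-- classes `0 0 0 1 1 2`, types `C0 C2 C2 B0 B1 C0` -/
noncomputable def cT6_596 : CertT :=
  ⟨[k4,k6,k6,k24,k25,k36],[],[[[]]],
    [.lp [k2,k4,k4,k2,k4,k4] [k1,k1,k0,k0,k0,k0,k1,k1,k0,k0,k0,k0] k0 [] k12 k5
    [[(k10,k3)],[(k2,k3),(k3,k3),(k4,k3)],[(k0,k3),(k7,k3),(k5,k4)],[(k0,k3),(k7,k3),(k5,k4)],[(k2,k4),(k3,k4),(k4,
    k4)],[(k0,k3),(k7,k3),(k5,k4)],[(k2,k3),(k3,k3),(k4,k3)],[(k8,k3),(k11,k3)],[(k8,k4),(k11,k4)],[(k6,k3),(k9,k4)],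
    [(k6,k3),(k9,k4)],[(k1,k3)]]
    [] k0
    []
    []]⟩

/-- classes `0 0 0 1 1 2`, types `C0 C2 C2 B0 B1 S0` -/
noncomputable def cT6_597 : CertT :=
  ⟨[k4,k6,k6,k24,k25,k32],[],[[[]]],
    [.lp [k18,k12,k16,k12,k16,k12] [k0,k0,k3,k3,k1,k1,k3,k3,k1,k1,k3,k3] k0 [] k48 k5
    [[(k10,k15),(k1,k18)],[(k2,k15),(k3,k15),(k4,k17)],[(k7,k12),(k5,k14),(k0,k15)],[(k7,k12),(k5,k14),(k0,k15)],[(k2,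
    k14),(k3,k14),(k4,k16)],[(k7,k14),(k5,k16),(k0,k17)],[(k2,k12),(k3,k12),(k4,k14)],[(k11,k12),(k8,k14)],[(k11,k14),
    (k8,k16)],[(k6,k14),(k9,k16)],[(k6,k12),(k9,k14)],[(k10,k12),(k1,k15)]]
    [] k0
    []
    []]⟩

/-- classes `0 0 0 1 1 2`, types `C0 C2 C2 C0 C0 C0` -/
noncomputable def cT6_598 : CertT :=
  ⟨[k4,k6,k6,k20,k20,k36],[],[[[]]],
    [.lp [k4,k2,k4,k4,k4,k2] [k0,k0,k1,k1,k0,k0,k0,k0,k0,k0,k1,k1] k0 [] k12 k5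
    [[(k10,k3)],[(k2,k3),(k3,k3),(k4,k4)],[(k0,k3),(k5,k3),(k7,k3)],[(k0,k3),(k5,k3),(k7,k3)],[(k2,k3),(k3,k3),(k4,
    k4)],[(k0,k4),(k5,k4),(k7,k4)],[(k2,k3),(k3,k3),(k4,k4)],[(k11,k3),(k9,k4)],[(k6,k4),(k8,k4)],[(k11,k3),(k9,k4)],
    [(k6,k3),(k8,k3)],[(k1,k3)]]
    [] k0
    []
    []]⟩

/-- classes `0 0 0 1 1 2`, types `C0 C2 C2 C0 C0 S0` -/
noncomputable def cT6_599 : CertT :=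
  ⟨[k4,k6,k6,k20,k20,k32],[],[[[]]],
    [.lp [k18,k12,k16,k12,k16,k12] [k0,k0,k3,k3,k1,k1,k3,k3,k1,k1,k3,k3] k0 [] k48 k5
    [[(k10,k15),(k1,k18)],[(k2,k15),(k3,k15),(k4,k17)],[(k7,k12),(k5,k14),(k0,k15)],[(k7,k12),(k5,k14),(k0,k15)],[(k2,
    k14),(k3,k14),(k4,k16)],[(k7,k14),(k5,k16),(k0,k17)],[(k2,k12),(k3,k12),(k4,k14)],[(k11,k12),(k9,k14)],[(k6,k14),
    (k8,k16)],[(k11,k14),(k9,k16)],[(k6,k12),(k8,k14)],[(k10,k12),(k1,k15)]]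
    [] k0
    []
    []]⟩

/-- classes `0 0 0 1 1 2`, types `C0 C2 C2 C0 C2 C0` -/
noncomputable def cT6_600 : CertT :=
  ⟨[k4,k6,k6,k20,k22,k36],[],[[[]]],
    [.lp [k6,k6,k8,k6,k6,k6] [k1,k1,k1,k1,k0,k0,k1,k1,k1,k1,k1,k1] k0 [] k24 k5
    [[(k10,k6)],[(k2,k6),(k3,k6),(k4,k7)],[(k0,k6),(k7,k6),(k5,k7)],[(k0,k6),(k7,k6),(k5,k7)],[(k2,k7),(k3,k7),(k4,
    k8)],[(k0,k7),(k7,k7),(k5,k8)],[(k2,k6),(k3,k6),(k4,k7)],[(k8,k6),(k9,k6)],[(k6,k6),(k11,k6)],[(k6,k6),(k11,k6)],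
    [(k8,k6),(k9,k6)],[(k1,k6)]]
    [] k0
    []
    []]⟩

/-- classes `0 0 0 1 1 2`, types `C0 C2 C2 C0 C2 S0` -/
noncomputable def cT6_601 : CertT :=
  ⟨[k4,k6,k6,k20,k22,k32],[],[[[]]],
    [.lp [k4,k4,k4,k2,k4,k4] [k0,k0,k0,k0,k0,k0,k1,k1,k0,k0,k0,k0] k0 [] k12 k5
    [[(k1,k4),(k10,k4)],[(k2,k4),(k3,k4),(k4,k4)],[(k7,k3),(k0,k4),(k5,k4)],[(k7,k3),(k0,k4),(k5,k4)],[(k2,k4),(k3,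
    k4),(k4,k4)],[(k7,k3),(k0,k4),(k5,k4)],[(k2,k3),(k3,k3),(k4,k3)],[(k8,k3),(k9,k3)],[(k6,k3),(k11,k4)],[(k6,k3),
    (k11,k4)],[(k8,k4),(k9,k4)],[(k1,k4),(k10,k4)]]
    [] k0
    []
    []]⟩

/-- classes `0 0 0 1 1 2`, types `C0 C2 C2 N0 N1 C0` -/
noncomputable def cT6_602 : CertT :=
  ⟨[k4,k6,k6,k28,k29,k36],[],[[[]]],
    [.lp [k4,k2,k4,k4,k4,k2] [k0,k0,k1,k1,k0,k0,k0,k0,k0,k0,k1,k1] k0 [] k12 k5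
    [[(k10,k3)],[(k2,k3),(k3,k3),(k4,k4)],[(k0,k3),(k5,k3),(k7,k3)],[(k0,k3),(k5,k3),(k7,k3)],[(k2,k3),(k3,k3),(k4,
    k4)],[(k0,k4),(k5,k4),(k7,k4)],[(k2,k3),(k3,k3),(k4,k4)],[(k11,k3)],[(k8,k4)],[(k9,k4)],[(k6,k3)],[(k1,k3)]]
    [] k0
    []
    []]⟩

/-- classes `0 0 0 1 1 2`, types `C0 C2 C2 N0 N1 S0` -/
noncomputable def cT6_603 : CertT :=
  ⟨[k4,k6,k6,k28,k29,k32],[],[[[]]],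
    [.lp [k18,k12,k16,k12,k16,k12] [k0,k0,k3,k3,k1,k1,k3,k3,k1,k1,k3,k3] k0 [] k48 k5
    [[(k10,k15),(k1,k18)],[(k2,k15),(k3,k15),(k4,k17)],[(k7,k12),(k5,k14),(k0,k15)],[(k7,k12),(k5,k14),(k0,k15)],[(k2,
    k14),(k3,k14),(k4,k16)],[(k7,k14),(k5,k16),(k0,k17)],[(k2,k12),(k3,k12),(k4,k14)],[(k11,k12)],[(k8,k16)],[(k9,
    k16)],[(k6,k12)],[(k10,k12),(k1,k15)]]
    [] k0
    []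
    []]⟩

/-- classes `0 0 0 1 1 2`, types `C0 C2 C2 N0 N2 C0` -/
noncomputable def cT6_604 : CertT :=
  ⟨[k4,k6,k6,k28,k30,k36],[],[[[]]],
    [.lp [k6,k6,k8,k6,k6,k6] [k1,k1,k1,k1,k0,k0,k1,k1,k1,k1,k1,k1] k0 [] k24 k5
    [[(k10,k6)],[(k2,k6),(k3,k6),(k4,k7)],[(k0,k6),(k7,k6),(k5,k7)],[(k0,k6),(k7,k6),(k5,k7)],[(k2,k7),(k3,k7),(k4,
    k8)],[(k0,k7),(k7,k7),(k5,k8)],[(k2,k6),(k3,k6),(k4,k7)],[(k8,k6)],[(k11,k6)],[(k6,k6)],[(k9,k6)],[(k1,k6)]]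
    [] k0
    []
    []]⟩

/-- classes `0 0 0 1 1 2`, types `C0 C2 C2 N0 N2 S0` -/
noncomputable def cT6_605 : CertT :=
  ⟨[k4,k6,k6,k28,k30,k32],[],[[[]]],
    [.lp [k18,k12,k16,k12,k12,k12] [k0,k0,k3,k3,k1,k1,k3,k3,k3,k3,k3,k3] k0 [] k48 k5
    [[(k10,k15),(k1,k18)],[(k2,k15),(k3,k15),(k4,k17)],[(k7,k12),(k5,k14),(k0,k15)],[(k7,k12),(k5,k14),(k0,k15)],[(k2,
    k14),(k3,k14),(k4,k16)],[(k7,k14),(k5,k16),(k0,k17)],[(k2,k12),(k3,k12),(k4,k14)],[(k8,k12)],[(k11,k12)],[(k6,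
    k12)],[(k9,k12)],[(k10,k12),(k1,k15)]]
    [] k0
    []
    []]⟩

/-- classes `0 0 0 1 1 2`, types `C0 C2 C2 S0 S0 C0` -/
noncomputable def cT6_606 : CertT :=
  ⟨[k4,k6,k6,k16,k16,k36],[],[[[]]],
    [.lp [k6,k6,k6,k10,k8,k6] [k2,k2,k2,k2,k2,k2,k0,k0,k1,k1,k2,k2] k0 [[],[],[k0,k0,k0,k0,k2],[],[],[k0,k0,k0,k2]] k24 k5
    [[(k10,k6)],[(k2,k6),(k3,k6),(k4,k6)],[(k0,k6),(k5,k6),(k7,k8)],[(k0,k6),(k5,k6),(k7,k6)],[(k2,k6),(k3,k6),(k4,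
    k8)],[(k0,k6),(k5,k8),(k7,k8)],[(k2,k6),(k3,k8),(k4,k8)],[(k11,k8),(k8,k9),(k9,k9),(k6,k10)],[(k11,k7),(k8,k8),
    (k9,k8),(k6,k9)],[(k11,k7),(k8,k8),(k9,k8),(k6,k9)],[(k11,k6),(k8,k7),(k9,k7),(k6,k8)],[(k1,k6)]]
    [] k0
    []
    []]⟩

/-- classes `0 0 0 1 1 2`, types `C0 C2 C2 S0 S0 S0` -/
noncomputable def cT6_607 : CertT :=
  ⟨[k4,k6,k6,k16,k16,k32],[],[[[]]],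
    [.lp [(nat_lit 550),(nat_lit 220),(nat_lit 440),(nat_lit 480),(nat_lit 440),(nat_lit 396)] [k0,k0,k165,k165,k55,k55,
    k35,k35,k55,k55,k77,k77] k0 [[k0,k0,k0,k0,k0,k165],[],[],[],[k0,k165],[],[k0,k0,k0,k0,k0,k0,k0,k0,k0,k110],[],[k0,
    k0,k0,k0,k0,k0,k0,k110]] (nat_lit 1320) k5
    [[(k10,(nat_lit 473)),(k1,(nat_lit 550))],[(k4,(nat_lit 330)),(k2,(nat_lit 385)),(k3,(nat_lit 385))],[(k5,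
    (nat_lit 330)),(k0,(nat_lit 385)),(k7,(nat_lit 515))],[(k5,(nat_lit 330)),(k7,(nat_lit 350)),(k0,(nat_lit 385))],
    [(k2,(nat_lit 330)),(k3,(nat_lit 330)),(k4,(nat_lit 440))],[(k0,(nat_lit 330)),(k5,(nat_lit 440)),(k7,
    (nat_lit 460))],[(k2,(nat_lit 350)),(k4,(nat_lit 460)),(k3,(nat_lit 515))],[(k8,(nat_lit 350)),(k11,
    (nat_lit 438)),(k9,(nat_lit 460)),(k6,(nat_lit 480))],[(k8,(nat_lit 440)),(k9,(nat_lit 440)),(k6,(nat_lit 460)),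
    (k11,(nat_lit 528))],[(k6,(nat_lit 350)),(k11,(nat_lit 418)),(k8,(nat_lit 440)),(k9,(nat_lit 440))],[(k11,
    (nat_lit 396)),(k8,(nat_lit 418)),(k6,(nat_lit 438)),(k9,(nat_lit 528))],[(k10,(nat_lit 396)),(k1,(nat_lit 473))]]
    [] k0
    []
    []]⟩

/-- classes `0 0 0 1 1 2`, types `S0 S0 S0 B0 B1 C0` -/
noncomputable def cT6_608 : CertT :=
  ⟨[k0,k0,k0,k24,k25,k36],[],[[[]]],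
    [.lp [k6,k10,k10,k6,k8,k6] [k4,k4,k4,k0,k2,k2,k4,k4,k3,k3,k4,k4] k0 [[],[k0,k0,k0,k0,k0,k6],[],[],[k6]] k24 k5
    [[(k10,k6)],[(k0,k6),(k2,k6),(k4,k8),(k5,k8),(k3,k10),(k7,k12)],[(k4,k6),(k0,k10),(k2,k10),(k7,k10),(k5,k12),(k3,
    k14)],[(k0,k6),(k2,k6),(k7,k6),(k4,k8),(k5,k8),(k3,k10)],[(k0,k8),(k2,k8),(k7,k8),(k4,k10),(k5,k10),(k3,k12)],
    [(k3,k6),(k0,k8),(k2,k8),(k7,k8),(k4,k10),(k5,k10)],[(k2,k6),(k7,k6),(k4,k8),(k5,k8),(k3,k10),(k0,k12)],[(k11,k6),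
    (k8,k7)],[(k11,k7),(k8,k8)],[(k6,k7),(k9,k8)],[(k6,k6),(k9,k7)],[(k1,k6)]]
    [] k0
    []
    []]⟩

/-- classes `0 0 0 1 1 2`, types `S0 S0 S0 B0 B1 S0` -/
noncomputable def cT6_609 : CertT :=
  ⟨[k0,k0,k0,k24,k25,k32],[],[[[]]],
    [.lp [k18,k18,k18,k12,k16,k12] [k0,k0,k0,k0,k0,k0,k3,k3,k1,k1,k3,k3] k0 [[],[k0,k0,k0,k0,k0,k6],[],[],[k6]] k48 k5
    [[(k10,k15),(k1,k18)],[(k0,k18),(k2,k18),(k3,k18),(k4,k18),(k5,k18),(k7,k21)],[(k4,k12),(k7,k15),(k0,k18),(k2,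
    k18),(k3,k18),(k5,k18)],[(k7,k15),(k0,k18),(k2,k18),(k3,k18),(k4,k18),(k5,k18)],[(k7,k15),(k0,k18),(k2,k18),(k3,
    k18),(k4,k18),(k5,k18)],[(k3,k12),(k7,k15),(k0,k18),(k2,k18),(k4,k18),(k5,k18)],[(k7,k12),(k2,k15),(k3,k15),(k4,
    k15),(k5,k15),(k0,k21)],[(k11,k12),(k8,k14)],[(k11,k14),(k8,k16)],[(k6,k14),(k9,k16)],[(k6,k12),(k9,k14)],[(k10,
    k12),(k1,k15)]]
    [] k0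
    []
    []]⟩

/-- classes `0 0 0 1 1 2`, types `S0 S0 S0 C0 C0 C0` -/
noncomputable def cT6_610 : CertT :=
  ⟨[k0,k0,k0,k20,k20,k36],[],[[[]]],
    [.lp [k6,k10,k10,k6,k8,k6] [k4,k4,k4,k0,k2,k2,k4,k4,k3,k3,k4,k4] k0 [[],[k0,k0,k0,k0,k0,k6],[],[],[k6]] k24 k5
    [[(k10,k6)],[(k0,k6),(k2,k6),(k4,k8),(k5,k8),(k3,k10),(k7,k12)],[(k4,k6),(k0,k10),(k2,k10),(k7,k10),(k5,k12),(k3,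
    k14)],[(k0,k6),(k2,k6),(k7,k6),(k4,k8),(k5,k8),(k3,k10)],[(k0,k8),(k2,k8),(k7,k8),(k4,k10),(k5,k10),(k3,k12)],
    [(k3,k6),(k0,k8),(k2,k8),(k7,k8),(k4,k10),(k5,k10)],[(k2,k6),(k7,k6),(k4,k8),(k5,k8),(k3,k10),(k0,k12)],[(k11,k6),
    (k9,k7)],[(k6,k7),(k8,k8)],[(k11,k7),(k9,k8)],[(k6,k6),(k8,k7)],[(k1,k6)]]
    [] k0
    []
    []]⟩

/-- classes `0 0 0 1 1 2`, types `S0 S0 S0 C0 C0 S0` -/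
noncomputable def cT6_611 : CertT :=
  ⟨[k0,k0,k0,k20,k20,k32],[],[[[]]],
    [.lp [k18,k18,k18,k12,k16,k12] [k0,k0,k0,k0,k0,k0,k3,k3,k1,k1,k3,k3] k0 [[],[k0,k0,k0,k0,k0,k6],[],[],[k6]] k48 k5
    [[(k10,k15),(k1,k18)],[(k0,k18),(k2,k18),(k3,k18),(k4,k18),(k5,k18),(k7,k21)],[(k4,k12),(k7,k15),(k0,k18),(k2,
    k18),(k3,k18),(k5,k18)],[(k7,k15),(k0,k18),(k2,k18),(k3,k18),(k4,k18),(k5,k18)],[(k7,k15),(k0,k18),(k2,k18),(k3,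
    k18),(k4,k18),(k5,k18)],[(k3,k12),(k7,k15),(k0,k18),(k2,k18),(k4,k18),(k5,k18)],[(k7,k12),(k2,k15),(k3,k15),(k4,
    k15),(k5,k15),(k0,k21)],[(k11,k12),(k9,k14)],[(k6,k14),(k8,k16)],[(k11,k14),(k9,k16)],[(k6,k12),(k8,k14)],[(k10,
    k12),(k1,k15)]]
    [] k0
    []
    []]⟩

/-- classes `0 0 0 1 1 2`, types `S0 S0 S0 C0 C2 C0` -/
noncomputable def cT6_612 : CertT :=
  ⟨[k0,k0,k0,k20,k22,k36],[],[[[]]],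
    [.lp [k12,k16,k16,k18,k12,k12] [k3,k3,k1,k1,k1,k1,k0,k0,k3,k3,k3,k3] k0 [] k48 k5
    [[(k10,k12)],[(k0,k12),(k2,k14),(k3,k14),(k4,k14),(k5,k14),(k7,k15)],[(k0,k14),(k2,k16),(k3,k16),(k4,k16),(k5,
    k16),(k7,k17)],[(k0,k14),(k2,k16),(k3,k16),(k4,k16),(k5,k16),(k7,k17)],[(k0,k14),(k2,k16),(k3,k16),(k4,k16),(k5,
    k16),(k7,k17)],[(k0,k14),(k2,k16),(k3,k16),(k4,k16),(k5,k16),(k7,k17)],[(k0,k15),(k2,k17),(k3,k17),(k4,k17),(k5,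
    k17),(k7,k18)],[(k8,k15),(k9,k15)],[(k11,k12),(k6,k15)],[(k11,k12),(k6,k15)],[(k8,k12),(k9,k12)],[(k1,k12)]]
    [] k0
    []
    []]⟩

/-- classes `0 0 0 1 1 2`, types `S0 S0 S0 C0 C2 S0` -/
noncomputable def cT6_613 : CertT :=
  ⟨[k0,k0,k0,k20,k22,k32],[(false,k0,[k0,k1,k2,k3,k4,k5])],[[[([z1,z0,y1,z0,z0,z0],z0),([z0,z1,z2,z0,z0,z0],z2),([z0,
    z0,z0,z1,z0,y1],z0)],[([z1,z0,y1,y1,z0,z1],z0),([z0,z1,z2,z2,z0,y2],z2)],[([z1,z0,y1,y1,y1,y1],y2)],[]]],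
    [.tor k5 false k0 [(z1,[y1,y1,y1,z1]),(z1,[y1,y1,z1,z1]),(z1,[z0,z1]),(z1,[z2,z1])],
    .lp [k16,k16,k16,k12,k12,k18] [k1,k1,k1,k1,k1,k1,k3,k3,k3,k3,k0,k0] k0 [] k48 k5
    [[(k1,k16),(k10,k17)],[(k7,k14),(k0,k16),(k2,k16),(k3,k16),(k4,k16),(k5,k16)],[(k7,k14),(k0,k16),(k2,k16),(k3,
    k16),(k4,k16),(k5,k16)],[(k7,k14),(k0,k16),(k2,k16),(k3,k16),(k4,k16),(k5,k16)],[(k7,k14),(k0,k16),(k2,k16),(k3,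
    k16),(k4,k16),(k5,k16)],[(k7,k14),(k0,k16),(k2,k16),(k3,k16),(k4,k16),(k5,k16)],[(k7,k12),(k0,k14),(k2,k14),(k3,
    k14),(k4,k14),(k5,k14)],[(k8,k12),(k9,k12)],[(k6,k12),(k11,k15)],[(k6,k12),(k11,k15)],[(k8,k15),(k9,k15)],[(k1,
    k17),(k10,k18)]]
    [] k0
    [[k0,k0,k0,k2,k1,k0]]
    [.ref k0 k0 [(z2,[z1,z3,z1,y1]),(z1,[y1,y1,z0,z1]),(z2,[z1,z1,z1,y1])]],
    .lp [k16,k16,k16,k18,k12,k12] [k1,k1,k1,k1,k1,k1,k0,k0,k3,k3,k3,k3] k0 [] k48 k5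
    [[(k10,k14),(k1,k16)],[(k0,k16),(k2,k16),(k3,k16),(k4,k16),(k5,k16),(k7,k17)],[(k0,k16),(k2,k16),(k3,k16),(k4,
    k16),(k5,k16),(k7,k17)],[(k0,k16),(k2,k16),(k3,k16),(k4,k16),(k5,k16),(k7,k17)],[(k0,k16),(k2,k16),(k3,k16),(k4,
    k16),(k5,k16),(k7,k17)],[(k0,k16),(k2,k16),(k3,k16),(k4,k16),(k5,k16),(k7,k17)],[(k0,k17),(k2,k17),(k3,k17),(k4,
    k17),(k5,k17),(k7,k18)],[(k8,k15),(k9,k15)],[(k11,k12),(k6,k15)],[(k11,k12),(k6,k15)],[(k8,k12),(k9,k12)],[(k10,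
    k12),(k1,k14)]]
    [] k0
    [[k0,k0,k0,k0,k1,k2]]
    [.ref k1 k0 [(z1,[z1,z1]),(z1,[y2,y1,z1])]],
    .lp [k6,k8,k8,k12,k0,k12] [k3,k3,k2,k2,k2,k2,k0,k0,k6,k6,k0,k0] k0 [[],[k0,k0,k0,k0,k4],[],[],[],[k4]] k24 k5
    [[(k1,k6),(k10,k9)],[(k0,k6),(k2,k7),(k3,k7),(k5,k7),(k7,k9),(k4,k11)],[(k7,k6),(k0,k7),(k2,k8),(k3,k8),(k4,k8),
    (k5,k8)],[(k0,k7),(k2,k8),(k3,k8),(k4,k8),(k5,k8),(k7,k10)],[(k0,k7),(k2,k8),(k3,k8),(k4,k8),(k5,k8),(k7,k10)],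
    [(k2,k8),(k3,k8),(k4,k8),(k5,k8),(k7,k10),(k0,k11)],[(k3,k6),(k0,k9),(k2,k10),(k4,k10),(k5,k10),(k7,k12)],[(k8,
    k6),(k9,k6)],[(k6,k6),(k11,k6)],[(k6,k6),(k11,k6)],[(k8,k6),(k9,k6)],[(k1,k9),(k10,k12)]]
    [] k0
    [[k2,k1,k0,k0,k0,k0]]
    [.ref k2 k0 [(z1,[z1,y1])]]]⟩

/-- classes `0 0 0 1 1 2`, types `S0 S0 S0 N0 N1 C0` -/
noncomputable def cT6_614 : CertT :=
  ⟨[k0,k0,k0,k28,k29,k36],[],[[[]]],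
    [.lp [k6,k10,k10,k6,k8,k6] [k4,k4,k4,k0,k2,k2,k4,k4,k3,k3,k4,k4] k0 [[],[k0,k0,k0,k0,k0,k6],[],[],[k6]] k24 k5
    [[(k10,k6)],[(k0,k6),(k2,k6),(k4,k8),(k5,k8),(k3,k10),(k7,k12)],[(k4,k6),(k0,k10),(k2,k10),(k7,k10),(k5,k12),(k3,
    k14)],[(k0,k6),(k2,k6),(k7,k6),(k4,k8),(k5,k8),(k3,k10)],[(k0,k8),(k2,k8),(k7,k8),(k4,k10),(k5,k10),(k3,k12)],
    [(k3,k6),(k0,k8),(k2,k8),(k7,k8),(k4,k10),(k5,k10)],[(k2,k6),(k7,k6),(k4,k8),(k5,k8),(k3,k10),(k0,k12)],[(k11,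
    k6)],[(k8,k8)],[(k9,k8)],[(k6,k6)],[(k1,k6)]]
    [] k0
    []
    []]⟩

/-- classes `0 0 0 1 1 2`, types `S0 S0 S0 N0 N1 S0` -/
noncomputable def cT6_615 : CertT :=
  ⟨[k0,k0,k0,k28,k29,k32],[],[[[]]],
    [.lp [k18,k18,k18,k12,k16,k12] [k0,k0,k0,k0,k0,k0,k3,k3,k1,k1,k3,k3] k0 [[],[k0,k0,k0,k0,k0,k6],[],[],[k6]] k48 k5
    [[(k10,k15),(k1,k18)],[(k0,k18),(k2,k18),(k3,k18),(k4,k18),(k5,k18),(k7,k21)],[(k4,k12),(k7,k15),(k0,k18),(k2,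
    k18),(k3,k18),(k5,k18)],[(k7,k15),(k0,k18),(k2,k18),(k3,k18),(k4,k18),(k5,k18)],[(k7,k15),(k0,k18),(k2,k18),(k3,
    k18),(k4,k18),(k5,k18)],[(k3,k12),(k7,k15),(k0,k18),(k2,k18),(k4,k18),(k5,k18)],[(k7,k12),(k2,k15),(k3,k15),(k4,
    k15),(k5,k15),(k0,k21)],[(k11,k12)],[(k8,k16)],[(k9,k16)],[(k6,k12)],[(k10,k12),(k1,k15)]]
    [] k0
    []
    []]⟩

/-- classes `0 0 0 1 1 2`, types `S0 S0 S0 N0 N2 C0` -/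
noncomputable def cT6_616 : CertT :=
  ⟨[k0,k0,k0,k28,k30,k36],[],[[[]]],
    [.lp [k6,k8,k8,k6,k6,k6] [k1,k1,k0,k0,k0,k0,k1,k1,k1,k1,k1,k1] k0 [] k24 k5
    [[(k10,k6)],[(k0,k6),(k7,k6),(k2,k7),(k3,k7),(k4,k7),(k5,k7)],[(k0,k7),(k7,k7),(k2,k8),(k3,k8),(k4,k8),(k5,k8)],
    [(k0,k7),(k7,k7),(k2,k8),(k3,k8),(k4,k8),(k5,k8)],[(k0,k7),(k7,k7),(k2,k8),(k3,k8),(k4,k8),(k5,k8)],[(k0,k7),(k7,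
    k7),(k2,k8),(k3,k8),(k4,k8),(k5,k8)],[(k0,k6),(k7,k6),(k2,k7),(k3,k7),(k4,k7),(k5,k7)],[(k8,k6)],[(k11,k6)],[(k6,
    k6)],[(k9,k6)],[(k1,k6)]]
    [] k0
    []
    []]⟩

/-- classes `0 0 0 1 1 2`, types `S0 S0 S0 N0 N2 S0` -/
noncomputable def cT6_617 : CertT :=
  ⟨[k0,k0,k0,k28,k30,k32],[],[[[]]],
    [.lp [k8,k8,k8,k6,k6,k6] [k0,k0,k0,k0,k0,k0,k1,k1,k1,k1,k1,k1] k0 [] k24 k5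
    [[(k10,k7),(k1,k8)],[(k7,k7),(k0,k8),(k2,k8),(k3,k8),(k4,k8),(k5,k8)],[(k7,k7),(k0,k8),(k2,k8),(k3,k8),(k4,k8),
    (k5,k8)],[(k7,k7),(k0,k8),(k2,k8),(k3,k8),(k4,k8),(k5,k8)],[(k7,k7),(k0,k8),(k2,k8),(k3,k8),(k4,k8),(k5,k8)],[(k7,
    k7),(k0,k8),(k2,k8),(k3,k8),(k4,k8),(k5,k8)],[(k7,k6),(k0,k7),(k2,k7),(k3,k7),(k4,k7),(k5,k7)],[(k8,k6)],[(k11,
    k6)],[(k6,k6)],[(k9,k6)],[(k10,k6),(k1,k7)]]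
    [] k0
    []
    []]⟩

/-- classes `0 0 0 1 1 2`, types `S0 S0 S0 S0 S0 C0` -/
noncomputable def cT6_618 : CertT :=
  ⟨[k0,k0,k0,k16,k16,k36],[],[[[]]],
    [.lp [k14,k18,k18,k16,k16,k12] [k2,k2,k0,k0,k0,k0,k1,k1,k1,k1,k3,k3] k0 [[],[k0,k0,k0,k0,k0,k6],[],[],[k6]] k48 k5
    [[(k10,k13)],[(k0,k14),(k2,k16),(k3,k16),(k4,k16),(k5,k16),(k7,k21)],[(k4,k12),(k0,k16),(k7,k17),(k2,k18),(k3,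
    k18),(k5,k18)],[(k0,k16),(k7,k17),(k2,k18),(k3,k18),(k4,k18),(k5,k18)],[(k0,k16),(k7,k17),(k2,k18),(k3,k18),(k4,
    k18),(k5,k18)],[(k3,k12),(k0,k16),(k7,k17),(k2,k18),(k4,k18),(k5,k18)],[(k7,k16),(k2,k17),(k3,k17),(k4,k17),(k5,
    k17),(k0,k21)],[(k11,k14),(k6,k16),(k8,k16),(k9,k16)],[(k11,k14),(k6,k16),(k8,k16),(k9,k16)],[(k11,k14),(k6,k16),
    (k8,k16),(k9,k16)],[(k11,k12),(k6,k14),(k8,k14),(k9,k14)],[(k1,k13)]]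
    [] k0
    []
    []]⟩

/-- classes `0 0 0 1 2 1`, types `C0 C0 C0 B0 C0 B1` -/
noncomputable def cT6_619 : CertT :=
  ⟨[k4,k4,k4,k24,k36,k25],[],[[[]]],
    [.lp [k6,k4,k4,k2,k0,k6] [k0,k0,k1,k1,k1,k1,k2,k2,k3,k3,k0,k0] k0 [] k12 k5
    [[(k9,k3),(k6,k4)],[(k7,k4),(k3,k5),(k5,k5)],[(k2,k4),(k4,k4),(k0,k5)],[(k7,k3),(k3,k4),(k5,k4)],[(k2,k4),(k4,k4),
    (k0,k5)],[(k7,k3),(k3,k4),(k5,k4)],[(k2,k3),(k4,k3),(k0,k4)],[(k1,k4),(k10,k4)],[(k1,k3),(k10,k3)],[(k11,k3)],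
    [(k8,k3)],[(k9,k3),(k6,k4)]]
    [] k0
    []
    []]⟩

/-- classes `0 0 0 1 2 1`, types `C0 C0 C0 B0 S0 B1` -/
noncomputable def cT6_620 : CertT :=
  ⟨[k4,k4,k4,k24,k32,k25],[],[[[]]],
    [.lp [k10,k8,k8,k6,k6,k6] [k0,k0,k1,k1,k1,k1,k2,k2,k2,k2,k2,k2] k0 [] k24 k5
    [[(k6,k8),(k9,k8)],[(k7,k8),(k3,k9),(k5,k9)],[(k2,k8),(k4,k8),(k0,k9)],[(k7,k7),(k3,k8),(k5,k8)],[(k2,k8),(k4,k8),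
    (k0,k9)],[(k7,k7),(k3,k8),(k5,k8)],[(k2,k7),(k4,k7),(k0,k8)],[(k10,k6),(k1,k8)],[(k10,k6),(k1,k8)],[(k8,k6),(k11,
    k6)],[(k8,k6),(k11,k6)],[(k6,k6),(k9,k6)]]
    [] k0
    []
    []]⟩

/-- classes `0 0 0 1 2 1`, types `C0 C0 C0 C0 C0 C0` -/
noncomputable def cT6_621 : CertT :=
  ⟨[k4,k4,k4,k20,k36,k20],[],[[[]]],
    [.lp [k2,k4,k4,k6,k2,k4] [k2,k2,k1,k1,k1,k1,k0,k0,k2,k2,k1,k1] k0 [] k12 k5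
    [[(k10,k3),(k6,k4)],[(k3,k3),(k5,k3),(k7,k4)],[(k0,k3),(k2,k4),(k4,k4)],[(k3,k4),(k5,k4),(k7,k5)],[(k0,k3),(k2,
    k4),(k4,k4)],[(k3,k4),(k5,k4),(k7,k5)],[(k0,k4),(k2,k5),(k4,k5)],[(k1,k4),(k9,k4)],[(k10,k3),(k6,k4)],[(k11,k3)],
    [(k8,k3)],[(k1,k3),(k9,k3)]]
    [] k0
    []
    []]⟩

/-- classes `0 0 0 1 2 1`, types `C0 C0 C0 C0 C0 C2` -/
noncomputable def cT6_622 : CertT :=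
  ⟨[k4,k4,k4,k20,k36,k22],[],[[[]]],
    [.lp [k6,k8,k8,k6,k6,k6] [k1,k1,k0,k0,k0,k0,k1,k1,k1,k1,k1,k1] k0 [] k24 k5
    [[(k9,k6),(k10,k6)],[(k7,k6),(k3,k7),(k5,k7)],[(k0,k7),(k2,k8),(k4,k8)],[(k7,k7),(k3,k8),(k5,k8)],[(k0,k7),(k2,
    k8),(k4,k8)],[(k7,k7),(k3,k8),(k5,k8)],[(k0,k6),(k2,k7),(k4,k7)],[(k9,k6),(k10,k6)],[(k1,k6),(k6,k6)],[(k11,k6)],
    [(k8,k6)],[(k1,k6),(k6,k6)]]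
    [] k0
    []
    []]⟩

/-- classes `0 0 0 1 2 1`, types `C0 C0 C0 C0 S0 C0` -/
noncomputable def cT6_623 : CertT :=
  ⟨[k4,k4,k4,k20,k32,k20],[],[[[]]],
    [.lp [k6,k8,k8,k10,k6,k6] [k2,k2,k1,k1,k1,k1,k0,k0,k2,k2,k2,k2] k0 [] k24 k5
    [[(k10,k6),(k6,k8)],[(k3,k7),(k5,k7),(k7,k8)],[(k0,k7),(k2,k8),(k4,k8)],[(k3,k8),(k5,k8),(k7,k9)],[(k0,k7),(k2,
    k8),(k4,k8)],[(k3,k8),(k5,k8),(k7,k9)],[(k0,k8),(k2,k9),(k4,k9)],[(k1,k8),(k9,k8)],[(k10,k6),(k6,k8)],[(k8,k6),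
    (k11,k6)],[(k8,k6),(k11,k6)],[(k1,k6),(k9,k6)]]
    [] k0
    []
    []]⟩

/-- classes `0 0 0 1 2 1`, types `C0 C0 C0 C0 S0 C2` -/
noncomputable def cT6_624 : CertT :=
  ⟨[k4,k4,k4,k20,k32,k22],[],[[[]]],
    [.lp [k6,k8,k8,k6,k6,k6] [k1,k1,k0,k0,k0,k0,k1,k1,k1,k1,k1,k1] k0 [] k24 k5
    [[(k9,k6),(k10,k6)],[(k7,k6),(k3,k7),(k5,k7)],[(k0,k7),(k2,k8),(k4,k8)],[(k7,k7),(k3,k8),(k5,k8)],[(k0,k7),(k2,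
    k8),(k4,k8)],[(k7,k7),(k3,k8),(k5,k8)],[(k0,k6),(k2,k7),(k4,k7)],[(k9,k6),(k10,k6)],[(k1,k6),(k6,k6)],[(k8,k6),
    (k11,k6)],[(k8,k6),(k11,k6)],[(k1,k6),(k6,k6)]]
    [] k0
    []
    []]⟩

/-- classes `0 0 0 1 2 1`, types `C0 C0 C0 N0 C0 N1` -/
noncomputable def cT6_625 : CertT :=
  ⟨[k4,k4,k4,k28,k36,k29],[],[[[]]],
    [.lp [k2,k4,k4,k6,k6,k0] [k2,k2,k1,k1,k1,k1,k0,k0,k0,k0,k3,k3] k0 [] k12 k5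
    [[(k6,k4)],[(k3,k3),(k5,k3),(k7,k4)],[(k0,k3),(k2,k4),(k4,k4)],[(k3,k4),(k5,k4),(k7,k5)],[(k0,k3),(k2,k4),(k4,
    k4)],[(k3,k4),(k5,k4),(k7,k5)],[(k0,k4),(k2,k5),(k4,k5)],[(k1,k4)],[(k10,k3)],[(k11,k3)],[(k8,k3)],[(k9,k3)]]
    [] k0
    []
    []]⟩

/-- classes `0 0 0 1 2 1`, types `C0 C0 C0 N0 C0 N2` -/
noncomputable def cT6_626 : CertT :=
  ⟨[k4,k4,k4,k28,k36,k30],[],[[[]]],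
    [.lp [k2,k4,k4,k4,k4,k2] [k1,k1,k0,k0,k0,k0,k0,k0,k0,k0,k1,k1] k0 [] k12 k5
    [[(k9,k3)],[(k3,k3),(k5,k3),(k7,k3)],[(k0,k3),(k2,k4),(k4,k4)],[(k3,k4),(k5,k4),(k7,k4)],[(k0,k3),(k2,k4),(k4,
    k4)],[(k3,k4),(k5,k4),(k7,k4)],[(k0,k3),(k2,k4),(k4,k4)],[(k10,k3)],[(k1,k3)],[(k11,k3)],[(k8,k3)],[(k6,k3)]]
    [] k0
    []
    []]⟩

/-- classes `0 0 0 1 2 1`, types `C0 C0 C0 N0 S0 N1` -/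
noncomputable def cT6_627 : CertT :=
  ⟨[k4,k4,k4,k28,k32,k29],[],[[[]]],
    [.lp [k4,k8,k8,k12,k6,k6] [k4,k4,k2,k2,k2,k2,k0,k0,k3,k3,k3,k3] k0 [] k24 k5
    [[(k6,k8)],[(k3,k6),(k5,k6),(k7,k8)],[(k0,k6),(k2,k8),(k4,k8)],[(k3,k8),(k5,k8),(k7,k10)],[(k0,k6),(k2,k8),(k4,
    k8)],[(k3,k8),(k5,k8),(k7,k10)],[(k0,k8),(k2,k10),(k4,k10)],[(k1,k8)],[(k10,k6)],[(k8,k6),(k11,k6)],[(k8,k6),(k11,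
    k6)],[(k9,k6)]]
    [] k0
    []
    []]⟩

/-- classes `0 0 0 1 2 1`, types `C0 C0 C0 N0 S0 N2` -/
noncomputable def cT6_628 : CertT :=
  ⟨[k4,k4,k4,k28,k32,k30],[],[[[]]],
    [.lp [k6,k8,k8,k6,k6,k6] [k1,k1,k0,k0,k0,k0,k1,k1,k1,k1,k1,k1] k0 [] k24 k5
    [[(k9,k6)],[(k7,k6),(k3,k7),(k5,k7)],[(k0,k7),(k2,k8),(k4,k8)],[(k7,k7),(k3,k8),(k5,k8)],[(k0,k7),(k2,k8),(k4,
    k8)],[(k7,k7),(k3,k8),(k5,k8)],[(k0,k6),(k2,k7),(k4,k7)],[(k10,k6)],[(k1,k6)],[(k8,k6),(k11,k6)],[(k8,k6),(k11,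
    k6)],[(k6,k6)]]
    [] k0
    []
    []]⟩

/-- classes `0 0 0 1 2 1`, types `C0 C0 C0 S0 C0 S0` -/
noncomputable def cT6_629 : CertT :=
  ⟨[k4,k4,k4,k16,k36,k16],[],[[[]]],
    [.lp [k10,k8,k8,k6,k6,k6] [k0,k0,k1,k1,k1,k1,k2,k2,k2,k2,k2,k2] k0 [] k24 k5
    [[(k6,k8),(k9,k8),(k10,k8),(k1,k10)],[(k7,k8),(k3,k9),(k5,k9)],[(k2,k8),(k4,k8),(k0,k9)],[(k7,k7),(k3,k8),(k5,
    k8)],[(k2,k8),(k4,k8),(k0,k9)],[(k7,k7),(k3,k8),(k5,k8)],[(k2,k7),(k4,k7),(k0,k8)],[(k6,k6),(k9,k6),(k10,k6),(k1,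
    k8)],[(k6,k6),(k9,k6),(k10,k6),(k1,k8)],[(k11,k6)],[(k8,k6)],[(k6,k6),(k9,k6),(k10,k6),(k1,k8)]]
    [] k0
    []
    []]⟩

/-- classes `0 0 0 1 2 1`, types `C0 C0 C0 S0 S0 S0` -/
noncomputable def cT6_630 : CertT :=
  ⟨[k4,k4,k4,k16,k32,k16],[],[[[]]],
    [.lp [k10,k8,k8,k6,k6,k6] [k0,k0,k1,k1,k1,k1,k2,k2,k2,k2,k2,k2] k0 [] k24 k5
    [[(k6,k8),(k9,k8),(k10,k8),(k1,k10)],[(k7,k8),(k3,k9),(k5,k9)],[(k2,k8),(k4,k8),(k0,k9)],[(k7,k7),(k3,k8),(k5,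
    k8)],[(k2,k8),(k4,k8),(k0,k9)],[(k7,k7),(k3,k8),(k5,k8)],[(k2,k7),(k4,k7),(k0,k8)],[(k6,k6),(k9,k6),(k10,k6),(k1,
    k8)],[(k6,k6),(k9,k6),(k10,k6),(k1,k8)],[(k8,k6),(k11,k6)],[(k8,k6),(k11,k6)],[(k6,k6),(k9,k6),(k10,k6),(k1,k8)]]
    [] k0
    []
    []]⟩

/-- classes `0 0 0 1 2 1`, types `C0 C0 C2 B0 C0 B1` -/
noncomputable def cT6_631 : CertT :=
  ⟨[k4,k4,k6,k24,k36,k25],[],[[[]]],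
    [.lp [k6,k4,k4,k2,k0,k6] [k0,k0,k1,k1,k1,k1,k2,k2,k3,k3,k0,k0] k0 [] k12 k5
    [[(k9,k3),(k6,k4)],[(k3,k5),(k4,k5),(k5,k5)],[(k7,k3),(k2,k4),(k0,k5)],[(k3,k4),(k4,k4),(k5,k4)],[(k7,k3),(k2,k4),
    (k0,k5)],[(k7,k3),(k2,k4),(k0,k5)],[(k3,k3),(k4,k3),(k5,k3)],[(k1,k4),(k10,k4)],[(k1,k3),(k10,k3)],[(k11,k3)],
    [(k8,k3)],[(k9,k3),(k6,k4)]]
    [] k0
    []
    []]⟩

/-- classes `0 0 0 1 2 1`, types `C0 C0 C2 B0 S0 B1` -/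
noncomputable def cT6_632 : CertT :=
  ⟨[k4,k4,k6,k24,k32,k25],[],[[[]]],
    [.lp [k12,k8,k6,k6,k6,k6] [k0,k0,k2,k2,k3,k3,k3,k3,k3,k3,k3,k3] k0 [] k24 k5
    [[(k6,k9),(k9,k9)],[(k4,k9),(k5,k9),(k3,k10)],[(k7,k7),(k2,k8),(k0,k10)],[(k4,k7),(k5,k7),(k3,k8)],[(k7,k6),(k2,
    k7),(k0,k9)],[(k7,k6),(k2,k7),(k0,k9)],[(k4,k6),(k5,k6),(k3,k7)],[(k10,k6),(k1,k9)],[(k10,k6),(k1,k9)],[(k8,k6),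
    (k11,k6)],[(k8,k6),(k11,k6)],[(k6,k6),(k9,k6)]]
    [] k0
    []
    []]⟩

/-- classes `0 0 0 1 2 1`, types `C0 C0 C2 C0 C0 C0` -/
noncomputable def cT6_633 : CertT :=
  ⟨[k4,k4,k6,k20,k36,k20],[],[[[]]],
    [.lp [k2,k4,k4,k6,k2,k4] [k2,k2,k1,k1,k1,k1,k0,k0,k2,k2,k1,k1] k0 [] k12 k5
    [[(k10,k3),(k6,k4)],[(k3,k3),(k4,k3),(k5,k3)],[(k0,k3),(k2,k4),(k7,k5)],[(k3,k4),(k4,k4),(k5,k4)],[(k0,k3),(k2,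
    k4),(k7,k5)],[(k0,k3),(k2,k4),(k7,k5)],[(k3,k5),(k4,k5),(k5,k5)],[(k1,k4),(k9,k4)],[(k10,k3),(k6,k4)],[(k11,k3)],
    [(k8,k3)],[(k1,k3),(k9,k3)]]
    [] k0
    []
    []]⟩

/-- classes `0 0 0 1 2 1`, types `C0 C0 C2 C0 C0 C2` -/
noncomputable def cT6_634 : CertT :=
  ⟨[k4,k4,k6,k20,k36,k22],[],[[[]]],
    [.lp [k6,k8,k6,k6,k6,k6] [k1,k1,k0,k0,k1,k1,k1,k1,k1,k1,k1,k1] k0 [] k24 k5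
    [[(k9,k6),(k10,k6)],[(k4,k6),(k5,k6),(k3,k7)],[(k0,k7),(k7,k7),(k2,k8)],[(k4,k7),(k5,k7),(k3,k8)],[(k0,k6),(k7,
    k6),(k2,k7)],[(k0,k6),(k7,k6),(k2,k7)],[(k4,k6),(k5,k6),(k3,k7)],[(k9,k6),(k10,k6)],[(k1,k6),(k6,k6)],[(k11,k6)],
    [(k8,k6)],[(k1,k6),(k6,k6)]]
    [] k0
    []
    []]⟩

/-- classes `0 0 0 1 2 1`, types `C0 C0 C2 C0 S0 C0` -/
noncomputable def cT6_635 : CertT :=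
  ⟨[k4,k4,k6,k20,k32,k20],[],[[[]]],
    [.lp [k6,k8,k12,k6,k6,k6] [k3,k3,k2,k2,k0,k0,k3,k3,k3,k3,k3,k3] k0 [] k24 k5
    [[(k6,k6),(k10,k6)],[(k3,k7),(k4,k9),(k5,k9)],[(k0,k7),(k7,k7),(k2,k8)],[(k3,k8),(k4,k10),(k5,k10)],[(k0,k9),(k7,
    k9),(k2,k10)],[(k0,k9),(k7,k9),(k2,k10)],[(k3,k7),(k4,k9),(k5,k9)],[(k1,k6),(k9,k6)],[(k6,k6),(k10,k6)],[(k8,k6),
    (k11,k6)],[(k8,k6),(k11,k6)],[(k1,k6),(k9,k6)]]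
    [] k0
    []
    []]⟩

/-- classes `0 0 0 1 2 1`, types `C0 C0 C2 C0 S0 C2` -/
noncomputable def cT6_636 : CertT :=
  ⟨[k4,k4,k6,k20,k32,k22],[],[[[]]],
    [.lp [k6,k8,k6,k6,k6,k6] [k1,k1,k0,k0,k1,k1,k1,k1,k1,k1,k1,k1] k0 [] k24 k5
    [[(k9,k6),(k10,k6)],[(k4,k6),(k5,k6),(k3,k7)],[(k0,k7),(k7,k7),(k2,k8)],[(k4,k7),(k5,k7),(k3,k8)],[(k0,k6),(k7,
    k6),(k2,k7)],[(k0,k6),(k7,k6),(k2,k7)],[(k4,k6),(k5,k6),(k3,k7)],[(k9,k6),(k10,k6)],[(k1,k6),(k6,k6)],[(k8,k6),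
    (k11,k6)],[(k8,k6),(k11,k6)],[(k1,k6),(k6,k6)]]
    [] k0
    []
    []]⟩

/-- classes `0 0 0 1 2 1`, types `C0 C0 C2 N0 C0 N1` -/
noncomputable def cT6_637 : CertT :=
  ⟨[k4,k4,k6,k28,k36,k29],[],[[[]]],
    [.lp [k2,k4,k4,k6,k6,k0] [k2,k2,k1,k1,k1,k1,k0,k0,k0,k0,k3,k3] k0 [] k12 k5
    [[(k6,k4)],[(k3,k3),(k4,k3),(k5,k3)],[(k0,k3),(k2,k4),(k7,k5)],[(k3,k4),(k4,k4),(k5,k4)],[(k0,k3),(k2,k4),(k7,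
    k5)],[(k0,k3),(k2,k4),(k7,k5)],[(k3,k5),(k4,k5),(k5,k5)],[(k1,k4)],[(k10,k3)],[(k11,k3)],[(k8,k3)],[(k9,k3)]]
    [] k0
    []
    []]⟩

/-- classes `0 0 0 1 2 1`, types `C0 C0 C2 N0 C0 N2` -/
noncomputable def cT6_638 : CertT :=
  ⟨[k4,k4,k6,k28,k36,k30],[],[[[]]],
    [.lp [k6,k8,k6,k6,k6,k6] [k1,k1,k0,k0,k1,k1,k1,k1,k1,k1,k1,k1] k0 [] k24 k5
    [[(k9,k6)],[(k4,k6),(k5,k6),(k3,k7)],[(k0,k7),(k7,k7),(k2,k8)],[(k4,k7),(k5,k7),(k3,k8)],[(k0,k6),(k7,k6),(k2,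
    k7)],[(k0,k6),(k7,k6),(k2,k7)],[(k4,k6),(k5,k6),(k3,k7)],[(k10,k6)],[(k1,k6)],[(k11,k6)],[(k8,k6)],[(k6,k6)]]
    [] k0
    []
    []]⟩

/-- classes `0 0 0 1 2 1`, types `C0 C0 C2 N0 S0 N1` -/
noncomputable def cT6_639 : CertT :=
  ⟨[k4,k4,k6,k28,k32,k29],[],[[[]]],
    [.lp [k4,k8,k12,k8,k6,k6] [k4,k4,k2,k2,k0,k0,k2,k2,k3,k3,k3,k3] k0 [] k24 k5
    [[(k6,k6)],[(k3,k6),(k4,k8),(k5,k8)],[(k0,k6),(k2,k8),(k7,k8)],[(k3,k8),(k4,k10),(k5,k10)],[(k0,k8),(k2,k10),(k7,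
    k10)],[(k0,k8),(k2,k10),(k7,k10)],[(k3,k8),(k4,k10),(k5,k10)],[(k1,k6)],[(k10,k6)],[(k8,k6),(k11,k6)],[(k8,k6),
    (k11,k6)],[(k9,k6)]]
    [] k0
    []
    []]⟩

/-- classes `0 0 0 1 2 1`, types `C0 C0 C2 N0 S0 N2` -/
noncomputable def cT6_640 : CertT :=
  ⟨[k4,k4,k6,k28,k32,k30],[],[[[]]],
    [.lp [k6,k8,k6,k6,k6,k6] [k1,k1,k0,k0,k1,k1,k1,k1,k1,k1,k1,k1] k0 [] k24 k5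
    [[(k9,k6)],[(k4,k6),(k5,k6),(k3,k7)],[(k0,k7),(k7,k7),(k2,k8)],[(k4,k7),(k5,k7),(k3,k8)],[(k0,k6),(k7,k6),(k2,
    k7)],[(k0,k6),(k7,k6),(k2,k7)],[(k4,k6),(k5,k6),(k3,k7)],[(k10,k6)],[(k1,k6)],[(k8,k6),(k11,k6)],[(k8,k6),(k11,
    k6)],[(k6,k6)]]
    [] k0
    []
    []]⟩

/-- classes `0 0 0 1 2 1`, types `C0 C0 C2 S0 C0 S0` -/
noncomputable def cT6_641 : CertT :=
  ⟨[k4,k4,k6,k16,k36,k16],[],[[[]]],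
    [.lp [k10,k8,k4,k10,k6,k6] [k0,k0,k1,k1,k3,k3,k0,k0,k2,k2,k2,k2] k0 [] k24 k5
    [[(k9,k8),(k10,k8),(k1,k10),(k6,k10)],[(k4,k7),(k5,k7),(k3,k9)],[(k2,k8),(k0,k9),(k7,k9)],[(k4,k6),(k5,k6),(k3,
    k8)],[(k2,k6),(k0,k7),(k7,k7)],[(k2,k6),(k0,k7),(k7,k7)],[(k4,k7),(k5,k7),(k3,k9)],[(k9,k8),(k10,k8),(k1,k10),(k6,
    k10)],[(k9,k6),(k10,k6),(k1,k8),(k6,k8)],[(k11,k6)],[(k8,k6)],[(k9,k6),(k10,k6),(k1,k8),(k6,k8)]]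
    [] k0
    []
    []]⟩

/-- classes `0 0 0 1 2 1`, types `C0 C0 C2 S0 S0 S0` -/
noncomputable def cT6_642 : CertT :=
  ⟨[k4,k4,k6,k16,k32,k16],[],[[[]]],
    [.lp [k10,k8,k4,k10,k6,k6] [k0,k0,k1,k1,k3,k3,k0,k0,k2,k2,k2,k2] k0 [] k24 k5
    [[(k9,k8),(k10,k8),(k1,k10),(k6,k10)],[(k4,k7),(k5,k7),(k3,k9)],[(k2,k8),(k0,k9),(k7,k9)],[(k4,k6),(k5,k6),(k3,
    k8)],[(k2,k6),(k0,k7),(k7,k7)],[(k2,k6),(k0,k7),(k7,k7)],[(k4,k7),(k5,k7),(k3,k9)],[(k9,k8),(k10,k8),(k1,k10),(k6,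
    k10)],[(k9,k6),(k10,k6),(k1,k8),(k6,k8)],[(k8,k6),(k11,k6)],[(k8,k6),(k11,k6)],[(k9,k6),(k10,k6),(k1,k8),(k6,k8)]]
    [] k0
    []
    []]⟩

/-- classes `0 0 0 1 2 1`, types `C0 C2 C0 B0 C0 B1` -/
noncomputable def cT6_643 : CertT :=
  ⟨[k4,k6,k4,k24,k36,k25],[],[[[]]],
    [.lp [k2,k0,k2,k0,k0,k2] [k0,k0,k1,k1,k0,k0,k1,k1,k1,k1,k0,k0] k0 [] k4 k5
    [[(k6,k1),(k9,k1)],[(k2,k1),(k3,k1),(k7,k1)],[(k0,k1),(k4,k1),(k5,k1)],[(k0,k1),(k4,k1),(k5,k1)],[(k2,k1),(k3,k1),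
    (k7,k1)],[(k2,k1),(k3,k1),(k7,k1)],[(k0,k1),(k4,k1),(k5,k1)],[(k1,k1),(k10,k1)],[(k1,k1),(k10,k1)],[(k11,k1)],
    [(k8,k1)],[(k6,k1),(k9,k1)]]
    [] k0
    []
    []]⟩

/-- classes `0 0 0 1 2 1`, types `C0 C2 C0 B0 S0 B1` -/
noncomputable def cT6_644 : CertT :=
  ⟨[k4,k6,k4,k24,k32,k25],[],[[[]]],
    [.lp [k2,k2,k2,k2,k2,k2] [k0,k0,k0,k0,k0,k0,k0,k0,k0,k0,k0,k0] k0 [] k8 k5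
    [[(k6,k2),(k9,k2)],[(k2,k2),(k3,k2),(k7,k2)],[(k0,k2),(k4,k2),(k5,k2)],[(k0,k2),(k4,k2),(k5,k2)],[(k2,k2),(k3,k2),
    (k7,k2)],[(k2,k2),(k3,k2),(k7,k2)],[(k0,k2),(k4,k2),(k5,k2)],[(k1,k2),(k10,k2)],[(k1,k2),(k10,k2)],[(k8,k2),(k11,
    k2)],[(k8,k2),(k11,k2)],[(k6,k2),(k9,k2)]]
    [] k0
    []
    []]⟩

/-- classes `0 0 0 1 2 1`, types `C0 C2 C0 C0 C0 C0` -/
noncomputable def cT6_645 : CertT :=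
  ⟨[k4,k6,k4,k20,k36,k20],[],[[[]]],
    [.lp [k0,k2,k0,k2,k0,k2] [k1,k1,k0,k0,k1,k1,k0,k0,k1,k1,k0,k0] k0 [] k4 k5
    [[(k6,k1),(k10,k1)],[(k2,k1),(k3,k1),(k7,k1)],[(k0,k1),(k4,k1),(k5,k1)],[(k0,k1),(k4,k1),(k5,k1)],[(k2,k1),(k3,
    k1),(k7,k1)],[(k2,k1),(k3,k1),(k7,k1)],[(k0,k1),(k4,k1),(k5,k1)],[(k1,k1),(k9,k1)],[(k6,k1),(k10,k1)],[(k11,k1)],
    [(k8,k1)],[(k1,k1),(k9,k1)]]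
    [] k0
    []
    []]⟩

/-- classes `0 0 0 1 2 1`, types `C0 C2 C0 C0 C0 C2` -/
noncomputable def cT6_646 : CertT :=
  ⟨[k4,k6,k4,k20,k36,k22],[],[[[]]],
    [.lp [k2,k2,k2,k2,k2,k2] [k0,k0,k0,k0,k0,k0,k0,k0,k0,k0,k0,k0] k0 [] k8 k5
    [[(k9,k2),(k10,k2)],[(k2,k2),(k3,k2),(k7,k2)],[(k0,k2),(k4,k2),(k5,k2)],[(k0,k2),(k4,k2),(k5,k2)],[(k2,k2),(k3,
    k2),(k7,k2)],[(k2,k2),(k3,k2),(k7,k2)],[(k0,k2),(k4,k2),(k5,k2)],[(k9,k2),(k10,k2)],[(k1,k2),(k6,k2)],[(k11,k2)],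
    [(k8,k2)],[(k1,k2),(k6,k2)]]
    [] k0
    []
    []]⟩

/-- classes `0 0 0 1 2 1`, types `C0 C2 C0 C0 S0 C0` -/
noncomputable def cT6_647 : CertT :=
  ⟨[k4,k6,k4,k20,k32,k20],[],[[[]]],
    [.lp [k2,k2,k2,k2,k2,k2] [k0,k0,k0,k0,k0,k0,k0,k0,k0,k0,k0,k0] k0 [] k8 k5
    [[(k6,k2),(k10,k2)],[(k2,k2),(k3,k2),(k7,k2)],[(k0,k2),(k4,k2),(k5,k2)],[(k0,k2),(k4,k2),(k5,k2)],[(k2,k2),(k3,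
    k2),(k7,k2)],[(k2,k2),(k3,k2),(k7,k2)],[(k0,k2),(k4,k2),(k5,k2)],[(k1,k2),(k9,k2)],[(k6,k2),(k10,k2)],[(k8,k2),
    (k11,k2)],[(k8,k2),(k11,k2)],[(k1,k2),(k9,k2)]]
    [] k0
    []
    []]⟩

/-- classes `0 0 0 1 2 1`, types `C0 C2 C0 C0 S0 C2` -/
noncomputable def cT6_648 : CertT :=
  ⟨[k4,k6,k4,k20,k32,k22],[],[[[]]],
    [.lp [k2,k2,k2,k2,k2,k2] [k0,k0,k0,k0,k0,k0,k0,k0,k0,k0,k0,k0] k0 [] k8 k5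
    [[(k9,k2),(k10,k2)],[(k2,k2),(k3,k2),(k7,k2)],[(k0,k2),(k4,k2),(k5,k2)],[(k0,k2),(k4,k2),(k5,k2)],[(k2,k2),(k3,
    k2),(k7,k2)],[(k2,k2),(k3,k2),(k7,k2)],[(k0,k2),(k4,k2),(k5,k2)],[(k9,k2),(k10,k2)],[(k1,k2),(k6,k2)],[(k8,k2),
    (k11,k2)],[(k8,k2),(k11,k2)],[(k1,k2),(k6,k2)]]
    [] k0
    []
    []]⟩

/-- classes `0 0 0 1 2 1`, types `C0 C2 C0 N0 C0 N1` -/
noncomputable def cT6_649 : CertT :=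
  ⟨[k4,k6,k4,k28,k36,k29],[],[[[]]],
    [.lp [k0,k2,k0,k2,k2,k0] [k1,k1,k0,k0,k1,k1,k0,k0,k0,k0,k1,k1] k0 [] k4 k5
    [[(k6,k1)],[(k2,k1),(k3,k1),(k7,k1)],[(k0,k1),(k4,k1),(k5,k1)],[(k0,k1),(k4,k1),(k5,k1)],[(k2,k1),(k3,k1),(k7,
    k1)],[(k2,k1),(k3,k1),(k7,k1)],[(k0,k1),(k4,k1),(k5,k1)],[(k1,k1)],[(k10,k1)],[(k11,k1)],[(k8,k1)],[(k9,k1)]]
    [] k0
    []
    []]⟩

/-- classes `0 0 0 1 2 1`, types `C0 C2 C0 N0 C0 N2` -/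
noncomputable def cT6_650 : CertT :=
  ⟨[k4,k6,k4,k28,k36,k30],[],[[[]]],
    [.lp [k0,k2,k0,k2,k2,k0] [k1,k1,k0,k0,k1,k1,k0,k0,k0,k0,k1,k1] k0 [] k4 k5
    [[(k9,k1)],[(k2,k1),(k3,k1),(k7,k1)],[(k0,k1),(k4,k1),(k5,k1)],[(k0,k1),(k4,k1),(k5,k1)],[(k2,k1),(k3,k1),(k7,
    k1)],[(k2,k1),(k3,k1),(k7,k1)],[(k0,k1),(k4,k1),(k5,k1)],[(k10,k1)],[(k1,k1)],[(k11,k1)],[(k8,k1)],[(k6,k1)]]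
    [] k0
    []
    []]⟩

/-- classes `0 0 0 1 2 1`, types `C0 C2 C0 N0 S0 N1` -/
noncomputable def cT6_651 : CertT :=
  ⟨[k4,k6,k4,k28,k32,k29],[],[[[]]],
    [.lp [k0,k4,k0,k4,k2,k2] [k2,k2,k0,k0,k2,k2,k0,k0,k1,k1,k1,k1] k0 [] k8 k5
    [[(k6,k2)],[(k2,k2),(k3,k2),(k7,k2)],[(k0,k2),(k4,k2),(k5,k2)],[(k0,k2),(k4,k2),(k5,k2)],[(k2,k2),(k3,k2),(k7,
    k2)],[(k2,k2),(k3,k2),(k7,k2)],[(k0,k2),(k4,k2),(k5,k2)],[(k1,k2)],[(k10,k2)],[(k8,k2),(k11,k2)],[(k8,k2),(k11,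
    k2)],[(k9,k2)]]
    [] k0
    []
    []]⟩

/-- classes `0 0 0 1 2 1`, types `C0 C2 C0 N0 S0 N2` -/
noncomputable def cT6_652 : CertT :=
  ⟨[k4,k6,k4,k28,k32,k30],[],[[[]]],
    [.lp [k2,k2,k2,k2,k2,k2] [k0,k0,k0,k0,k0,k0,k0,k0,k0,k0,k0,k0] k0 [] k8 k5
    [[(k9,k2)],[(k2,k2),(k3,k2),(k7,k2)],[(k0,k2),(k4,k2),(k5,k2)],[(k0,k2),(k4,k2),(k5,k2)],[(k2,k2),(k3,k2),(k7,
    k2)],[(k2,k2),(k3,k2),(k7,k2)],[(k0,k2),(k4,k2),(k5,k2)],[(k10,k2)],[(k1,k2)],[(k8,k2),(k11,k2)],[(k8,k2),(k11,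
    k2)],[(k6,k2)]]
    [] k0
    []
    []]⟩

/-- classes `0 0 0 1 2 1`, types `C0 C2 C0 S0 C0 S0` -/
noncomputable def cT6_653 : CertT :=
  ⟨[k4,k6,k4,k16,k36,k16],[],[[[]]],
    [.lp [k2,k4,k0,k4,k2,k2] [k1,k1,k0,k0,k2,k2,k0,k0,k1,k1,k1,k1] k0 [] k8 k5
    [[(k1,k2),(k9,k2),(k10,k2),(k6,k3)],[(k2,k3),(k3,k3),(k7,k3)],[(k4,k2),(k5,k2),(k0,k3)],[(k4,k2),(k5,k2),(k0,k3)],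
    [(k2,k2),(k3,k2),(k7,k2)],[(k2,k2),(k3,k2),(k7,k2)],[(k4,k2),(k5,k2),(k0,k3)],[(k1,k3),(k9,k3),(k10,k3),(k6,k4)],
    [(k1,k2),(k9,k2),(k10,k2),(k6,k3)],[(k11,k2)],[(k8,k2)],[(k1,k2),(k9,k2),(k10,k2),(k6,k3)]]
    [] k0
    []
    []]⟩

/-- classes `0 0 0 1 2 1`, types `C0 C2 C0 S0 S0 S0` -/
noncomputable def cT6_654 : CertT :=
  ⟨[k4,k6,k4,k16,k32,k16],[],[[[]]],
    [.lp [k4,k0,k4,k2,k2,k2] [k0,k0,k2,k2,k0,k0,k1,k1,k1,k1,k1,k1] k0 [] k8 k5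
    [[(k6,k3),(k9,k3),(k10,k3),(k1,k4)],[(k2,k2),(k3,k2),(k7,k3)],[(k0,k2),(k4,k2),(k5,k2)],[(k0,k2),(k4,k2),(k5,k2)],
    [(k2,k2),(k3,k2),(k7,k3)],[(k2,k2),(k3,k2),(k7,k3)],[(k0,k3),(k4,k3),(k5,k3)],[(k6,k2),(k9,k2),(k10,k2),(k1,k3)],
    [(k6,k2),(k9,k2),(k10,k2),(k1,k3)],[(k8,k2),(k11,k2)],[(k8,k2),(k11,k2)],[(k6,k2),(k9,k2),(k10,k2),(k1,k3)]]
    [] k0
    []
    []]⟩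

/-- classes `0 0 0 1 2 1`, types `S0 S0 S0 B0 C0 B1` -/
noncomputable def cT6_655 : CertT :=
  ⟨[k0,k0,k0,k24,k36,k25],[],[[[]]],
    [.lp [k10,k8,k8,k6,k2,k10] [k0,k0,k1,k1,k1,k1,k2,k2,k4,k4,k0,k0] k0 [] k24 k5
    [[(k9,k6),(k6,k8)],[(k7,k8),(k2,k9),(k3,k9),(k4,k9),(k5,k9),(k0,k10)],[(k7,k7),(k2,k8),(k3,k8),(k4,k8),(k5,k8),
    (k0,k9)],[(k7,k7),(k2,k8),(k3,k8),(k4,k8),(k5,k8),(k0,k9)],[(k7,k7),(k2,k8),(k3,k8),(k4,k8),(k5,k8),(k0,k9)],[(k7,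
    k7),(k2,k8),(k3,k8),(k4,k8),(k5,k8),(k0,k9)],[(k7,k6),(k2,k7),(k3,k7),(k4,k7),(k5,k7),(k0,k8)],[(k1,k8),(k10,k8)],
    [(k1,k6),(k10,k6)],[(k11,k6)],[(k8,k6)],[(k9,k6),(k6,k8)]]
    [] k0
    []
    []]⟩

/-- classes `0 0 0 1 2 1`, types `S0 S0 S0 B0 S0 B1` -/
noncomputable def cT6_656 : CertT :=
  ⟨[k0,k0,k0,k24,k32,k25],[],[[[]]],
    [.lp [k10,k8,k8,k6,k6,k6] [k0,k0,k1,k1,k1,k1,k2,k2,k2,k2,k2,k2] k0 [] k24 k5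
    [[(k6,k8),(k9,k8)],[(k7,k8),(k2,k9),(k3,k9),(k4,k9),(k5,k9),(k0,k10)],[(k7,k7),(k2,k8),(k3,k8),(k4,k8),(k5,k8),
    (k0,k9)],[(k7,k7),(k2,k8),(k3,k8),(k4,k8),(k5,k8),(k0,k9)],[(k7,k7),(k2,k8),(k3,k8),(k4,k8),(k5,k8),(k0,k9)],[(k7,
    k7),(k2,k8),(k3,k8),(k4,k8),(k5,k8),(k0,k9)],[(k7,k6),(k2,k7),(k3,k7),(k4,k7),(k5,k7),(k0,k8)],[(k10,k6),(k1,k8)],
    [(k10,k6),(k1,k8)],[(k8,k6),(k11,k6)],[(k8,k6),(k11,k6)],[(k6,k6),(k9,k6)]]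
    [] k0
    []
    []]⟩

/-- classes `0 0 0 1 2 1`, types `S0 S0 S0 C0 C0 C0` -/
noncomputable def cT6_657 : CertT :=
  ⟨[k0,k0,k0,k20,k36,k20],[],[[[]]],
    [.lp [k10,k8,k8,k6,k10,k2] [k0,k0,k1,k1,k1,k1,k2,k2,k0,k0,k4,k4] k0 [] k24 k5
    [[(k10,k6),(k6,k8)],[(k7,k8),(k2,k9),(k3,k9),(k4,k9),(k5,k9),(k0,k10)],[(k7,k7),(k2,k8),(k3,k8),(k4,k8),(k5,k8),
    (k0,k9)],[(k7,k7),(k2,k8),(k3,k8),(k4,k8),(k5,k8),(k0,k9)],[(k7,k7),(k2,k8),(k3,k8),(k4,k8),(k5,k8),(k0,k9)],[(k7,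
    k7),(k2,k8),(k3,k8),(k4,k8),(k5,k8),(k0,k9)],[(k7,k6),(k2,k7),(k3,k7),(k4,k7),(k5,k7),(k0,k8)],[(k1,k8),(k9,k8)],
    [(k10,k6),(k6,k8)],[(k11,k6)],[(k8,k6)],[(k1,k6),(k9,k6)]]
    [] k0
    []
    []]⟩

/-- the certificates of this file -/
noncomputable def lT6_7 : List CertT :=
  [cT6_476, cT6_477, cT6_478, cT6_479, cT6_480, cT6_481, cT6_482, cT6_483, cT6_484, cT6_485, cT6_486, cT6_487,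
      cT6_488, cT6_489, cT6_490, cT6_491, cT6_492, cT6_493, cT6_494, cT6_495, cT6_496, cT6_497, cT6_498,
      cT6_499, cT6_500, cT6_501, cT6_502, cT6_503, cT6_504, cT6_505, cT6_506, cT6_507, cT6_508, cT6_509,
      cT6_510, cT6_511, cT6_512, cT6_513, cT6_514, cT6_515, cT6_516, cT6_517, cT6_518, cT6_519, cT6_520,
      cT6_521, cT6_522, cT6_523, cT6_524, cT6_525, cT6_526, cT6_527, cT6_528, cT6_529, cT6_530, cT6_531,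
      cT6_532, cT6_533, cT6_534, cT6_535, cT6_536, cT6_537, cT6_538, cT6_539, cT6_540, cT6_541, cT6_542,
      cT6_543, cT6_544, cT6_545, cT6_546, cT6_547, cT6_548, cT6_549, cT6_550, cT6_551, cT6_552, cT6_553,
      cT6_554, cT6_555, cT6_556, cT6_557, cT6_558, cT6_559, cT6_560, cT6_561, cT6_562, cT6_563, cT6_564,
      cT6_565, cT6_566, cT6_567, cT6_568, cT6_569, cT6_570, cT6_571, cT6_572, cT6_573, cT6_574, cT6_575,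
      cT6_576, cT6_577, cT6_578, cT6_579, cT6_580, cT6_581, cT6_582, cT6_583, cT6_584, cT6_585, cT6_586,
      cT6_587, cT6_588, cT6_589, cT6_590, cT6_591, cT6_592, cT6_593, cT6_594, cT6_595, cT6_596, cT6_597,
      cT6_598, cT6_599, cT6_600, cT6_601, cT6_602, cT6_603, cT6_604, cT6_605, cT6_606, cT6_607, cT6_608,
      cT6_609, cT6_610, cT6_611, cT6_612, cT6_613, cT6_614, cT6_615, cT6_616, cT6_617, cT6_618, cT6_619,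
      cT6_620, cT6_621, cT6_622, cT6_623, cT6_624, cT6_625, cT6_626, cT6_627, cT6_628, cT6_629, cT6_630,
      cT6_631, cT6_632, cT6_633, cT6_634, cT6_635, cT6_636, cT6_637, cT6_638, cT6_639, cT6_640, cT6_641,
      cT6_642, cT6_643, cT6_644, cT6_645, cT6_646, cT6_647, cT6_648, cT6_649, cT6_650, cT6_651, cT6_652,
      cT6_653, cT6_654, cT6_655, cT6_656, cT6_657]

theorem gT6_7 : allF (chkC 6 tt6) lT6_7 = true := by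
  decide +kernel

end Pool.Agent.Lib_MP_fa6e45
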