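import Pool.Agent.Lib_MP_fa6e45.CSTT
import Pool.Agent.Lib_MP_fa6e45.HK

/-!
MP_fa6e45_co, stage 5: certificates (captain, generated by a program).
-/

namespace Pool.Agent.Lib_MP_fa6e45

/-- classes `0 0 0 1 2 1`, types `S0 S0 S0 C0 C0 C2` -/
noncomputable def cT6_658 : CertT :=
  ⟨[k0,k0,k0,k20,k36,k22],[],[[[]]],
    [.lp [k6,k8,k8,k6,k6,k6] [k1,k1,k0,k0,k0,k0,k1,k1,k1,k1,k1,k1] k0 [] k24 k5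
    [[(k9,k6),(k10,k6)],[(k0,k6),(k7,k6),(k2,k7),(k3,k7),(k4,k7),(k5,k7)],[(k0,k7),(k7,k7),(k2,k8),(k3,k8),(k4,k8),
    (k5,k8)],[(k0,k7),(k7,k7),(k2,k8),(k3,k8),(k4,k8),(k5,k8)],[(k0,k7),(k7,k7),(k2,k8),(k3,k8),(k4,k8),(k5,k8)],[(k0,
    k7),(k7,k7),(k2,k8),(k3,k8),(k4,k8),(k5,k8)],[(k0,k6),(k7,k6),(k2,k7),(k3,k7),(k4,k7),(k5,k7)],[(k9,k6),(k10,k6)],
    [(k1,k6),(k6,k6)],[(k11,k6)],[(k8,k6)],[(k1,k6),(k6,k6)]]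
    [] k0
    []
    []]⟩

/-- classes `0 0 0 1 2 1`, types `S0 S0 S0 C0 S0 C0` -/
noncomputable def cT6_659 : CertT :=
  ⟨[k0,k0,k0,k20,k32,k20],[],[[[]]],
    [.lp [k10,k8,k8,k6,k6,k6] [k0,k0,k1,k1,k1,k1,k2,k2,k2,k2,k2,k2] k0 [] k24 k5
    [[(k6,k8),(k10,k8)],[(k7,k8),(k2,k9),(k3,k9),(k4,k9),(k5,k9),(k0,k10)],[(k7,k7),(k2,k8),(k3,k8),(k4,k8),(k5,k8),
    (k0,k9)],[(k7,k7),(k2,k8),(k3,k8),(k4,k8),(k5,k8),(k0,k9)],[(k7,k7),(k2,k8),(k3,k8),(k4,k8),(k5,k8),(k0,k9)],[(k7,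
    k7),(k2,k8),(k3,k8),(k4,k8),(k5,k8),(k0,k9)],[(k7,k6),(k2,k7),(k3,k7),(k4,k7),(k5,k7),(k0,k8)],[(k9,k6),(k1,k8)],
    [(k6,k6),(k10,k6)],[(k8,k6),(k11,k6)],[(k8,k6),(k11,k6)],[(k9,k6),(k1,k8)]]
    [] k0
    []
    []]⟩

/-- classes `0 0 0 1 2 1`, types `S0 S0 S0 C0 S0 C2` -/
noncomputable def cT6_660 : CertT :=
  ⟨[k0,k0,k0,k20,k32,k22],[],[[[]]],
    [.lp [k6,k8,k8,k6,k6,k6] [k1,k1,k0,k0,k0,k0,k1,k1,k1,k1,k1,k1] k0 [] k24 k5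
    [[(k9,k6),(k10,k6)],[(k0,k6),(k7,k6),(k2,k7),(k3,k7),(k4,k7),(k5,k7)],[(k0,k7),(k7,k7),(k2,k8),(k3,k8),(k4,k8),
    (k5,k8)],[(k0,k7),(k7,k7),(k2,k8),(k3,k8),(k4,k8),(k5,k8)],[(k0,k7),(k7,k7),(k2,k8),(k3,k8),(k4,k8),(k5,k8)],[(k0,
    k7),(k7,k7),(k2,k8),(k3,k8),(k4,k8),(k5,k8)],[(k0,k6),(k7,k6),(k2,k7),(k3,k7),(k4,k7),(k5,k7)],[(k9,k6),(k10,k6)],
    [(k1,k6),(k6,k6)],[(k8,k6),(k11,k6)],[(k8,k6),(k11,k6)],[(k1,k6),(k6,k6)]]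
    [] k0
    []
    []]⟩

/-- classes `0 0 0 1 2 1`, types `S0 S0 S0 N0 C0 N1` -/
noncomputable def cT6_661 : CertT :=
  ⟨[k0,k0,k0,k28,k36,k29],[],[[[]]],
    [.lp [k6,k8,k8,k10,k12,k0] [k3,k3,k2,k2,k2,k2,k1,k1,k0,k0,k6,k6] k0 [] k24 k5
    [[(k6,k8)],[(k0,k6),(k2,k7),(k3,k7),(k4,k7),(k5,k7),(k7,k8)],[(k0,k7),(k2,k8),(k3,k8),(k4,k8),(k5,k8),(k7,k9)],
    [(k0,k7),(k2,k8),(k3,k8),(k4,k8),(k5,k8),(k7,k9)],[(k0,k7),(k2,k8),(k3,k8),(k4,k8),(k5,k8),(k7,k9)],[(k0,k7),(k2,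
    k8),(k3,k8),(k4,k8),(k5,k8),(k7,k9)],[(k0,k8),(k2,k9),(k3,k9),(k4,k9),(k5,k9),(k7,k10)],[(k1,k8)],[(k10,k6)],
    [(k11,k6)],[(k8,k6)],[(k9,k6)]]
    [] k0
    []
    []]⟩

/-- classes `0 0 0 1 2 1`, types `S0 S0 S0 N0 C0 N2` -/
noncomputable def cT6_662 : CertT :=
  ⟨[k0,k0,k0,k28,k36,k30],[],[[[]]],
    [.lp [k6,k8,k8,k6,k6,k6] [k1,k1,k0,k0,k0,k0,k1,k1,k1,k1,k1,k1] k0 [] k24 k5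
    [[(k9,k6)],[(k0,k6),(k7,k6),(k2,k7),(k3,k7),(k4,k7),(k5,k7)],[(k0,k7),(k7,k7),(k2,k8),(k3,k8),(k4,k8),(k5,k8)],
    [(k0,k7),(k7,k7),(k2,k8),(k3,k8),(k4,k8),(k5,k8)],[(k0,k7),(k7,k7),(k2,k8),(k3,k8),(k4,k8),(k5,k8)],[(k0,k7),(k7,
    k7),(k2,k8),(k3,k8),(k4,k8),(k5,k8)],[(k0,k6),(k7,k6),(k2,k7),(k3,k7),(k4,k7),(k5,k7)],[(k10,k6)],[(k1,k6)],[(k11,
    k6)],[(k8,k6)],[(k6,k6)]]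
    [] k0
    []
    []]⟩

/-- classes `0 0 0 1 2 1`, types `S0 S0 S0 N0 S0 N1` -/
noncomputable def cT6_663 : CertT :=
  ⟨[k0,k0,k0,k28,k32,k29],[],[[[]]],
    [.lp [k10,k8,k8,k6,k6,k6] [k0,k0,k1,k1,k1,k1,k2,k2,k2,k2,k2,k2] k0 [] k24 k5
    [[(k6,k8)],[(k7,k8),(k2,k9),(k3,k9),(k4,k9),(k5,k9),(k0,k10)],[(k7,k7),(k2,k8),(k3,k8),(k4,k8),(k5,k8),(k0,k9)],
    [(k7,k7),(k2,k8),(k3,k8),(k4,k8),(k5,k8),(k0,k9)],[(k7,k7),(k2,k8),(k3,k8),(k4,k8),(k5,k8),(k0,k9)],[(k7,k7),(k2,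
    k8),(k3,k8),(k4,k8),(k5,k8),(k0,k9)],[(k7,k6),(k2,k7),(k3,k7),(k4,k7),(k5,k7),(k0,k8)],[(k1,k8)],[(k10,k6)],[(k8,
    k6),(k11,k6)],[(k8,k6),(k11,k6)],[(k9,k6)]]
    [] k0
    []
    []]⟩

/-- classes `0 0 0 1 2 1`, types `S0 S0 S0 N0 S0 N2` -/
noncomputable def cT6_664 : CertT :=
  ⟨[k0,k0,k0,k28,k32,k30],[],[[[]]],
    [.lp [k6,k8,k8,k6,k6,k6] [k1,k1,k0,k0,k0,k0,k1,k1,k1,k1,k1,k1] k0 [] k24 k5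
    [[(k9,k6)],[(k0,k6),(k7,k6),(k2,k7),(k3,k7),(k4,k7),(k5,k7)],[(k0,k7),(k7,k7),(k2,k8),(k3,k8),(k4,k8),(k5,k8)],
    [(k0,k7),(k7,k7),(k2,k8),(k3,k8),(k4,k8),(k5,k8)],[(k0,k7),(k7,k7),(k2,k8),(k3,k8),(k4,k8),(k5,k8)],[(k0,k7),(k7,
    k7),(k2,k8),(k3,k8),(k4,k8),(k5,k8)],[(k0,k6),(k7,k6),(k2,k7),(k3,k7),(k4,k7),(k5,k7)],[(k10,k6)],[(k1,k6)],[(k8,
    k6),(k11,k6)],[(k8,k6),(k11,k6)],[(k6,k6)]]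
    [] k0
    []
    []]⟩

/-- classes `0 0 0 1 2 1`, types `S0 S0 S0 S0 C0 S0` -/
noncomputable def cT6_665 : CertT :=
  ⟨[k0,k0,k0,k16,k36,k16],[],[[[]]],
    [.lp [k8,k8,k8,k8,k6,k6] [k0,k0,k0,k0,k0,k0,k0,k0,k1,k1,k1,k1] k0 [] k24 k5
    [[(k9,k7),(k10,k7),(k1,k8),(k6,k8)],[(k0,k8),(k2,k8),(k3,k8),(k4,k8),(k5,k8),(k7,k8)],[(k0,k8),(k2,k8),(k3,k8),
    (k4,k8),(k5,k8),(k7,k8)],[(k0,k8),(k2,k8),(k3,k8),(k4,k8),(k5,k8),(k7,k8)],[(k0,k8),(k2,k8),(k3,k8),(k4,k8),(k5,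
    k8),(k7,k8)],[(k0,k8),(k2,k8),(k3,k8),(k4,k8),(k5,k8),(k7,k8)],[(k0,k8),(k2,k8),(k3,k8),(k4,k8),(k5,k8),(k7,k8)],
    [(k9,k7),(k10,k7),(k1,k8),(k6,k8)],[(k9,k6),(k10,k6),(k1,k7),(k6,k7)],[(k11,k6)],[(k8,k6)],[(k9,k6),(k10,k6),(k1,
    k7),(k6,k7)]]
    [] k0
    []
    []]⟩

/-- classes `0 0 0 1 2 3`, types `C0 C0 C0 C0 C0 C0` -/
noncomputable def cT6_666 : CertT :=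
  ⟨[k4,k4,k4,k20,k36,k52],[],[[[]]],
    [.lp [k4,k4,k4,k2,k4,k2] [k0,k0,k0,k0,k0,k0,k1,k1,k0,k0,k1,k1] k0 [] k12 k5
    [[(k10,k3)],[(k7,k3),(k3,k4),(k5,k4)],[(k0,k4),(k2,k4),(k4,k4)],[(k7,k3),(k3,k4),(k5,k4)],[(k0,k4),(k2,k4),(k4,
    k4)],[(k7,k3),(k3,k4),(k5,k4)],[(k0,k3),(k2,k3),(k4,k3)],[(k9,k3)],[(k6,k3)],[(k11,k3)],[(k8,k3)],[(k1,k3)]]
    [] k0
    []
    []]⟩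

/-- classes `0 0 0 1 2 3`, types `C0 C0 C0 C0 C0 S0` -/
noncomputable def cT6_667 : CertT :=
  ⟨[k4,k4,k4,k20,k36,k48],[],[[[]]],
    [.lp [k6,k8,k8,k6,k6,k6] [k1,k1,k0,k0,k0,k0,k1,k1,k1,k1,k1,k1] k0 [] k24 k5
    [[(k1,k6),(k10,k6)],[(k7,k6),(k3,k7),(k5,k7)],[(k0,k7),(k2,k8),(k4,k8)],[(k7,k7),(k3,k8),(k5,k8)],[(k0,k7),(k2,
    k8),(k4,k8)],[(k7,k7),(k3,k8),(k5,k8)],[(k0,k6),(k2,k7),(k4,k7)],[(k9,k6)],[(k6,k6)],[(k11,k6)],[(k8,k6)],[(k1,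
    k6),(k10,k6)]]
    [] k0
    []
    []]⟩

/-- classes `0 0 0 1 2 3`, types `C0 C0 C0 C0 S0 C0` -/
noncomputable def cT6_668 : CertT :=
  ⟨[k4,k4,k4,k20,k32,k52],[],[[[]]],
    [.lp [k6,k8,k8,k6,k6,k6] [k1,k1,k0,k0,k0,k0,k1,k1,k1,k1,k1,k1] k0 [] k24 k5
    [[(k10,k6)],[(k7,k6),(k3,k7),(k5,k7)],[(k0,k7),(k2,k8),(k4,k8)],[(k7,k7),(k3,k8),(k5,k8)],[(k0,k7),(k2,k8),(k4,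
    k8)],[(k7,k7),(k3,k8),(k5,k8)],[(k0,k6),(k2,k7),(k4,k7)],[(k9,k6)],[(k6,k6)],[(k8,k6),(k11,k6)],[(k8,k6),(k11,
    k6)],[(k1,k6)]]
    [] k0
    []
    []]⟩

/-- classes `0 0 0 1 2 3`, types `C0 C0 C0 C0 S0 S0` -/
noncomputable def cT6_669 : CertT :=
  ⟨[k4,k4,k4,k20,k32,k48],[],[[[]]],
    [.lp [k6,k8,k8,k6,k6,k6] [k1,k1,k0,k0,k0,k0,k1,k1,k1,k1,k1,k1] k0 [] k24 k5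
    [[(k1,k6),(k10,k6)],[(k7,k6),(k3,k7),(k5,k7)],[(k0,k7),(k2,k8),(k4,k8)],[(k7,k7),(k3,k8),(k5,k8)],[(k0,k7),(k2,
    k8),(k4,k8)],[(k7,k7),(k3,k8),(k5,k8)],[(k0,k6),(k2,k7),(k4,k7)],[(k9,k6)],[(k6,k6)],[(k8,k6),(k11,k6)],[(k8,k6),
    (k11,k6)],[(k1,k6),(k10,k6)]]
    [] k0
    []
    []]⟩

/-- classes `0 0 0 1 2 3`, types `C0 C0 C0 S0 C0 S0` -/
noncomputable def cT6_670 : CertT :=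
  ⟨[k4,k4,k4,k16,k36,k48],[],[[[]]],
    [.lp [k6,k8,k8,k6,k6,k6] [k1,k1,k0,k0,k0,k0,k1,k1,k1,k1,k1,k1] k0 [] k24 k5
    [[(k1,k6),(k10,k6)],[(k7,k6),(k3,k7),(k5,k7)],[(k0,k7),(k2,k8),(k4,k8)],[(k7,k7),(k3,k8),(k5,k8)],[(k0,k7),(k2,
    k8),(k4,k8)],[(k7,k7),(k3,k8),(k5,k8)],[(k0,k6),(k2,k7),(k4,k7)],[(k6,k6),(k9,k6)],[(k6,k6),(k9,k6)],[(k11,k6)],
    [(k8,k6)],[(k1,k6),(k10,k6)]]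
    [] k0
    []
    []]⟩

/-- classes `0 0 0 1 2 3`, types `C0 C0 C0 S0 S0 S0` -/
noncomputable def cT6_671 : CertT :=
  ⟨[k4,k4,k4,k16,k32,k48],[],[[[]]],
    [.lp [k6,k8,k8,k6,k6,k6] [k1,k1,k0,k0,k0,k0,k1,k1,k1,k1,k1,k1] k0 [] k24 k5
    [[(k1,k6),(k10,k6)],[(k7,k6),(k3,k7),(k5,k7)],[(k0,k7),(k2,k8),(k4,k8)],[(k7,k7),(k3,k8),(k5,k8)],[(k0,k7),(k2,
    k8),(k4,k8)],[(k7,k7),(k3,k8),(k5,k8)],[(k0,k6),(k2,k7),(k4,k7)],[(k6,k6),(k9,k6)],[(k6,k6),(k9,k6)],[(k8,k6),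
    (k11,k6)],[(k8,k6),(k11,k6)],[(k1,k6),(k10,k6)]]
    [] k0
    []
    []]⟩

/-- classes `0 0 0 1 2 3`, types `C0 C0 C2 C0 C0 C0` -/
noncomputable def cT6_672 : CertT :=
  ⟨[k4,k4,k6,k20,k36,k52],[],[[[]]],
    [.lp [k6,k8,k6,k6,k6,k6] [k1,k1,k0,k0,k1,k1,k1,k1,k1,k1,k1,k1] k0 [] k24 k5
    [[(k10,k6)],[(k4,k6),(k5,k6),(k3,k7)],[(k0,k7),(k7,k7),(k2,k8)],[(k4,k7),(k5,k7),(k3,k8)],[(k0,k6),(k7,k6),(k2,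
    k7)],[(k0,k6),(k7,k6),(k2,k7)],[(k4,k6),(k5,k6),(k3,k7)],[(k9,k6)],[(k6,k6)],[(k11,k6)],[(k8,k6)],[(k1,k6)]]
    [] k0
    []
    []]⟩

/-- classes `0 0 0 1 2 3`, types `C0 C0 C2 C0 C0 S0` -/
noncomputable def cT6_673 : CertT :=
  ⟨[k4,k4,k6,k20,k36,k48],[],[[[]]],
    [.lp [k18,k16,k12,k12,k12,k12] [k0,k0,k1,k1,k3,k3,k3,k3,k3,k3,k3,k3] k0 [] k48 k5
    [[(k10,k15),(k1,k18)],[(k4,k15),(k5,k15),(k3,k17)],[(k7,k14),(k2,k16),(k0,k17)],[(k4,k14),(k5,k14),(k3,k16)],[(k7,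
    k12),(k2,k14),(k0,k15)],[(k7,k12),(k2,k14),(k0,k15)],[(k4,k12),(k5,k12),(k3,k14)],[(k9,k12)],[(k6,k12)],[(k11,
    k12)],[(k8,k12)],[(k10,k12),(k1,k15)]]
    [] k0
    []
    []]⟩

/-- classes `0 0 0 1 2 3`, types `C0 C0 C2 C0 S0 C0` -/
noncomputable def cT6_674 : CertT :=
  ⟨[k4,k4,k6,k20,k32,k52],[],[[[]]],
    [.lp [k6,k8,k6,k6,k6,k6] [k1,k1,k0,k0,k1,k1,k1,k1,k1,k1,k1,k1] k0 [] k24 k5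
    [[(k10,k6)],[(k4,k6),(k5,k6),(k3,k7)],[(k0,k7),(k7,k7),(k2,k8)],[(k4,k7),(k5,k7),(k3,k8)],[(k0,k6),(k7,k6),(k2,
    k7)],[(k0,k6),(k7,k6),(k2,k7)],[(k4,k6),(k5,k6),(k3,k7)],[(k9,k6)],[(k6,k6)],[(k8,k6),(k11,k6)],[(k8,k6),(k11,
    k6)],[(k1,k6)]]
    [] k0
    []
    []]⟩

/-- classes `0 0 0 1 2 3`, types `C0 C0 C2 C0 S0 S0` -/
noncomputable def cT6_675 : CertT :=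
  ⟨[k4,k4,k6,k20,k32,k48],[],[[[]]],
    [.lp [k18,k16,k12,k12,k12,k12] [k0,k0,k1,k1,k3,k3,k3,k3,k3,k3,k3,k3] k0 [] k48 k5
    [[(k10,k15),(k1,k18)],[(k4,k15),(k5,k15),(k3,k17)],[(k7,k14),(k2,k16),(k0,k17)],[(k4,k14),(k5,k14),(k3,k16)],[(k7,
    k12),(k2,k14),(k0,k15)],[(k7,k12),(k2,k14),(k0,k15)],[(k4,k12),(k5,k12),(k3,k14)],[(k9,k12)],[(k6,k12)],[(k8,k12),
    (k11,k12)],[(k8,k12),(k11,k12)],[(k10,k12),(k1,k15)]]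
    [] k0
    []
    []]⟩

/-- classes `0 0 0 1 2 3`, types `C0 C0 C2 S0 C0 C0` -/
noncomputable def cT6_676 : CertT :=
  ⟨[k4,k4,k6,k16,k36,k52],[],[[[]]],
    [.lp [k12,k16,k12,k18,k12,k12] [k3,k3,k1,k1,k3,k3,k0,k0,k3,k3,k3,k3] k0 [] k48 k5
    [[(k10,k12)],[(k4,k12),(k5,k12),(k3,k14)],[(k0,k14),(k2,k16),(k7,k17)],[(k4,k14),(k5,k14),(k3,k16)],[(k0,k12),(k2,
    k14),(k7,k15)],[(k0,k12),(k2,k14),(k7,k15)],[(k4,k15),(k5,k15),(k3,k17)],[(k9,k15),(k6,k18)],[(k9,k12),(k6,k15)],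
    [(k11,k12)],[(k8,k12)],[(k1,k12)]]
    [] k0
    []
    []]⟩

/-- classes `0 0 0 1 2 3`, types `C0 C0 C2 S0 C0 S0` -/
noncomputable def cT6_677 : CertT :=
  ⟨[k4,k4,k6,k16,k36,k48],[],[[[]]],
    [.lp [k6,k8,k12,k6,k6,k6] [k3,k3,k2,k2,k0,k0,k3,k3,k3,k3,k3,k3] k0 [] k24 k5
    [[(k1,k6),(k10,k6)],[(k3,k7),(k4,k9),(k5,k9)],[(k0,k7),(k7,k7),(k2,k8)],[(k3,k8),(k4,k10),(k5,k10)],[(k0,k9),(k7,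
    k9),(k2,k10)],[(k0,k9),(k7,k9),(k2,k10)],[(k3,k7),(k4,k9),(k5,k9)],[(k6,k6),(k9,k6)],[(k6,k6),(k9,k6)],[(k11,k6)],
    [(k8,k6)],[(k1,k6),(k10,k6)]]
    [] k0
    []
    []]⟩

/-- classes `0 0 0 1 2 3`, types `C0 C0 C2 S0 S0 C0` -/
noncomputable def cT6_678 : CertT :=
  ⟨[k4,k4,k6,k16,k32,k52],[],[[[]]],
    [.lp [k12,k16,k12,k18,k12,k12] [k3,k3,k1,k1,k3,k3,k0,k0,k3,k3,k3,k3] k0 [] k48 k5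
    [[(k10,k12)],[(k4,k12),(k5,k12),(k3,k14)],[(k0,k14),(k2,k16),(k7,k17)],[(k4,k14),(k5,k14),(k3,k16)],[(k0,k12),(k2,
    k14),(k7,k15)],[(k0,k12),(k2,k14),(k7,k15)],[(k4,k15),(k5,k15),(k3,k17)],[(k9,k15),(k6,k18)],[(k9,k12),(k6,k15)],
    [(k8,k12),(k11,k12)],[(k8,k12),(k11,k12)],[(k1,k12)]]
    [] k0
    []
    []]⟩

/-- classes `0 0 0 1 2 3`, types `C0 C0 C2 S0 S0 S0` -/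
noncomputable def cT6_679 : CertT :=
  ⟨[k4,k4,k6,k16,k32,k48],[],[[[]]],
    [.lp [k10,k8,k4,k10,k6,k6] [k0,k0,k1,k1,k3,k3,k0,k0,k2,k2,k2,k2] k0 [] k24 k5
    [[(k10,k8),(k1,k10)],[(k4,k7),(k5,k7),(k3,k9)],[(k2,k8),(k0,k9),(k7,k9)],[(k4,k6),(k5,k6),(k3,k8)],[(k2,k6),(k0,
    k7),(k7,k7)],[(k2,k6),(k0,k7),(k7,k7)],[(k4,k7),(k5,k7),(k3,k9)],[(k9,k8),(k6,k10)],[(k9,k6),(k6,k8)],[(k8,k6),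
    (k11,k6)],[(k8,k6),(k11,k6)],[(k10,k6),(k1,k8)]]
    [] k0
    []
    []]⟩

/-- classes `0 0 0 1 2 3`, types `C0 C2 C0 C0 C0 C0` -/
noncomputable def cT6_680 : CertT :=
  ⟨[k4,k6,k4,k20,k36,k52],[],[[[]]],
    [.lp [k2,k0,k2,k0,k2,k0] [k0,k0,k1,k1,k0,k0,k1,k1,k0,k0,k1,k1] k0 [] k4 k5
    [[(k10,k1)],[(k2,k1),(k3,k1),(k7,k1)],[(k0,k1),(k4,k1),(k5,k1)],[(k0,k1),(k4,k1),(k5,k1)],[(k2,k1),(k3,k1),(k7,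
    k1)],[(k2,k1),(k3,k1),(k7,k1)],[(k0,k1),(k4,k1),(k5,k1)],[(k9,k1)],[(k6,k1)],[(k11,k1)],[(k8,k1)],[(k1,k1)]]
    [] k0
    []
    []]⟩

/-- classes `0 0 0 1 2 3`, types `C0 C2 C0 C0 C0 S0` -/
noncomputable def cT6_681 : CertT :=
  ⟨[k4,k6,k4,k20,k36,k48],[],[[[]]],
    [.lp [k6,k4,k4,k4,k4,k4] [k0,k0,k1,k1,k1,k1,k1,k1,k1,k1,k1,k1] k0 [] k16 k5
    [[(k10,k5),(k1,k6)],[(k2,k5),(k3,k5),(k7,k5)],[(k4,k4),(k5,k4),(k0,k5)],[(k4,k4),(k5,k4),(k0,k5)],[(k2,k4),(k3,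
    k4),(k7,k4)],[(k2,k4),(k3,k4),(k7,k4)],[(k4,k4),(k5,k4),(k0,k5)],[(k9,k4)],[(k6,k4)],[(k11,k4)],[(k8,k4)],[(k10,
    k4),(k1,k5)]]
    [] k0
    []
    []]⟩

/-- classes `0 0 0 1 2 3`, types `C0 C2 C0 C0 S0 C0` -/
noncomputable def cT6_682 : CertT :=
  ⟨[k4,k6,k4,k20,k32,k52],[],[[[]]],
    [.lp [k2,k2,k2,k2,k2,k2] [k0,k0,k0,k0,k0,k0,k0,k0,k0,k0,k0,k0] k0 [] k8 k5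
    [[(k10,k2)],[(k2,k2),(k3,k2),(k7,k2)],[(k0,k2),(k4,k2),(k5,k2)],[(k0,k2),(k4,k2),(k5,k2)],[(k2,k2),(k3,k2),(k7,
    k2)],[(k2,k2),(k3,k2),(k7,k2)],[(k0,k2),(k4,k2),(k5,k2)],[(k9,k2)],[(k6,k2)],[(k8,k2),(k11,k2)],[(k8,k2),(k11,
    k2)],[(k1,k2)]]
    [] k0
    []
    []]⟩

/-- classes `0 0 0 1 2 3`, types `C0 C2 C0 C0 S0 S0` -/
noncomputable def cT6_683 : CertT :=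
  ⟨[k4,k6,k4,k20,k32,k48],[],[[[]]],
    [.lp [k6,k4,k4,k4,k4,k4] [k0,k0,k1,k1,k1,k1,k1,k1,k1,k1,k1,k1] k0 [] k16 k5
    [[(k10,k5),(k1,k6)],[(k2,k5),(k3,k5),(k7,k5)],[(k4,k4),(k5,k4),(k0,k5)],[(k4,k4),(k5,k4),(k0,k5)],[(k2,k4),(k3,
    k4),(k7,k4)],[(k2,k4),(k3,k4),(k7,k4)],[(k4,k4),(k5,k4),(k0,k5)],[(k9,k4)],[(k6,k4)],[(k8,k4),(k11,k4)],[(k8,k4),
    (k11,k4)],[(k10,k4),(k1,k5)]]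
    [] k0
    []
    []]⟩

/-- classes `0 0 0 1 2 3`, types `C0 C2 C0 S0 C0 S0` -/
noncomputable def cT6_684 : CertT :=
  ⟨[k4,k6,k4,k16,k36,k48],[],[[[]]],
    [.lp [k2,k4,k0,k4,k2,k2] [k1,k1,k0,k0,k2,k2,k0,k0,k1,k1,k1,k1] k0 [] k8 k5
    [[(k1,k2),(k10,k2)],[(k2,k3),(k3,k3),(k7,k3)],[(k4,k2),(k5,k2),(k0,k3)],[(k4,k2),(k5,k2),(k0,k3)],[(k2,k2),(k3,
    k2),(k7,k2)],[(k2,k2),(k3,k2),(k7,k2)],[(k4,k2),(k5,k2),(k0,k3)],[(k9,k3),(k6,k4)],[(k9,k2),(k6,k3)],[(k11,k2)],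
    [(k8,k2)],[(k1,k2),(k10,k2)]]
    [] k0
    []
    []]⟩

/-- classes `0 0 0 1 2 3`, types `C0 C2 C0 S0 S0 S0` -/
noncomputable def cT6_685 : CertT :=
  ⟨[k4,k6,k4,k16,k32,k48],[],[[[]]],
    [.lp [k2,k4,k0,k4,k2,k2] [k1,k1,k0,k0,k2,k2,k0,k0,k1,k1,k1,k1] k0 [] k8 k5
    [[(k1,k2),(k10,k2)],[(k2,k3),(k3,k3),(k7,k3)],[(k4,k2),(k5,k2),(k0,k3)],[(k4,k2),(k5,k2),(k0,k3)],[(k2,k2),(k3,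
    k2),(k7,k2)],[(k2,k2),(k3,k2),(k7,k2)],[(k4,k2),(k5,k2),(k0,k3)],[(k9,k3),(k6,k4)],[(k9,k2),(k6,k3)],[(k8,k2),
    (k11,k2)],[(k8,k2),(k11,k2)],[(k1,k2),(k10,k2)]]
    [] k0
    []
    []]⟩

/-- classes `0 0 0 1 2 3`, types `S0 S0 S0 C0 C0 C0` -/
noncomputable def cT6_686 : CertT :=
  ⟨[k0,k0,k0,k20,k36,k52],[],[[[]]],
    [.lp [k6,k8,k8,k6,k6,k6] [k1,k1,k0,k0,k0,k0,k1,k1,k1,k1,k1,k1] k0 [] k24 k5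
    [[(k10,k6)],[(k0,k6),(k7,k6),(k2,k7),(k3,k7),(k4,k7),(k5,k7)],[(k0,k7),(k7,k7),(k2,k8),(k3,k8),(k4,k8),(k5,k8)],
    [(k0,k7),(k7,k7),(k2,k8),(k3,k8),(k4,k8),(k5,k8)],[(k0,k7),(k7,k7),(k2,k8),(k3,k8),(k4,k8),(k5,k8)],[(k0,k7),(k7,
    k7),(k2,k8),(k3,k8),(k4,k8),(k5,k8)],[(k0,k6),(k7,k6),(k2,k7),(k3,k7),(k4,k7),(k5,k7)],[(k9,k6)],[(k6,k6)],[(k11,
    k6)],[(k8,k6)],[(k1,k6)]]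
    [] k0
    []
    []]⟩

/-- classes `0 0 0 1 2 3`, types `S0 S0 S0 C0 C0 S0` -/
noncomputable def cT6_687 : CertT :=
  ⟨[k0,k0,k0,k20,k36,k48],[],[[[]]],
    [.lp [k8,k8,k8,k6,k6,k6] [k0,k0,k0,k0,k0,k0,k1,k1,k1,k1,k1,k1] k0 [] k24 k5
    [[(k10,k7),(k1,k8)],[(k7,k7),(k0,k8),(k2,k8),(k3,k8),(k4,k8),(k5,k8)],[(k7,k7),(k0,k8),(k2,k8),(k3,k8),(k4,k8),
    (k5,k8)],[(k7,k7),(k0,k8),(k2,k8),(k3,k8),(k4,k8),(k5,k8)],[(k7,k7),(k0,k8),(k2,k8),(k3,k8),(k4,k8),(k5,k8)],[(k7,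
    k7),(k0,k8),(k2,k8),(k3,k8),(k4,k8),(k5,k8)],[(k7,k6),(k0,k7),(k2,k7),(k3,k7),(k4,k7),(k5,k7)],[(k9,k6)],[(k6,
    k6)],[(k11,k6)],[(k8,k6)],[(k10,k6),(k1,k7)]]
    [] k0
    []
    []]⟩

/-- classes `0 0 0 1 2 3`, types `S0 S0 S0 C0 S0 C0` -/
noncomputable def cT6_688 : CertT :=
  ⟨[k0,k0,k0,k20,k32,k52],[],[[[]]],
    [.lp [k6,k8,k8,k6,k6,k6] [k1,k1,k0,k0,k0,k0,k1,k1,k1,k1,k1,k1] k0 [] k24 k5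
    [[(k10,k6)],[(k0,k6),(k7,k6),(k2,k7),(k3,k7),(k4,k7),(k5,k7)],[(k0,k7),(k7,k7),(k2,k8),(k3,k8),(k4,k8),(k5,k8)],
    [(k0,k7),(k7,k7),(k2,k8),(k3,k8),(k4,k8),(k5,k8)],[(k0,k7),(k7,k7),(k2,k8),(k3,k8),(k4,k8),(k5,k8)],[(k0,k7),(k7,
    k7),(k2,k8),(k3,k8),(k4,k8),(k5,k8)],[(k0,k6),(k7,k6),(k2,k7),(k3,k7),(k4,k7),(k5,k7)],[(k9,k6)],[(k6,k6)],[(k8,
    k6),(k11,k6)],[(k8,k6),(k11,k6)],[(k1,k6)]]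
    [] k0
    []
    []]⟩

/-- classes `0 0 0 1 2 3`, types `S0 S0 S0 C0 S0 S0` -/
noncomputable def cT6_689 : CertT :=
  ⟨[k0,k0,k0,k20,k32,k48],[],[[[]]],
    [.lp [k8,k8,k8,k6,k6,k6] [k0,k0,k0,k0,k0,k0,k1,k1,k1,k1,k1,k1] k0 [] k24 k5
    [[(k10,k7),(k1,k8)],[(k7,k7),(k0,k8),(k2,k8),(k3,k8),(k4,k8),(k5,k8)],[(k7,k7),(k0,k8),(k2,k8),(k3,k8),(k4,k8),
    (k5,k8)],[(k7,k7),(k0,k8),(k2,k8),(k3,k8),(k4,k8),(k5,k8)],[(k7,k7),(k0,k8),(k2,k8),(k3,k8),(k4,k8),(k5,k8)],[(k7,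
    k7),(k0,k8),(k2,k8),(k3,k8),(k4,k8),(k5,k8)],[(k7,k6),(k0,k7),(k2,k7),(k3,k7),(k4,k7),(k5,k7)],[(k9,k6)],[(k6,
    k6)],[(k8,k6),(k11,k6)],[(k8,k6),(k11,k6)],[(k10,k6),(k1,k7)]]
    [] k0
    []
    []]⟩

/-- classes `0 0 0 1 2 3`, types `S0 S0 S0 S0 C0 S0` -/
noncomputable def cT6_690 : CertT :=
  ⟨[k0,k0,k0,k16,k36,k48],[],[[[]]],
    [.lp [k8,k8,k8,k8,k6,k6] [k0,k0,k0,k0,k0,k0,k0,k0,k1,k1,k1,k1] k0 [] k24 k5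
    [[(k10,k7),(k1,k8)],[(k0,k8),(k2,k8),(k3,k8),(k4,k8),(k5,k8),(k7,k8)],[(k0,k8),(k2,k8),(k3,k8),(k4,k8),(k5,k8),
    (k7,k8)],[(k0,k8),(k2,k8),(k3,k8),(k4,k8),(k5,k8),(k7,k8)],[(k0,k8),(k2,k8),(k3,k8),(k4,k8),(k5,k8),(k7,k8)],[(k0,
    k8),(k2,k8),(k3,k8),(k4,k8),(k5,k8),(k7,k8)],[(k0,k8),(k2,k8),(k3,k8),(k4,k8),(k5,k8),(k7,k8)],[(k9,k7),(k6,k8)],
    [(k9,k6),(k6,k7)],[(k11,k6)],[(k8,k6)],[(k10,k6),(k1,k7)]]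
    [] k0
    []
    []]⟩

/-- classes `0 0 1 0 0 1`, types `B0 B0 B0 B1 B1 B1` -/
noncomputable def cT6_691 : CertT :=
  ⟨[k8,k8,k24,k9,k9,k25],[(false,k0,[k0,k1,k2,k3,k4,k5])],[[[([z1,z0,z1,z0,z1,z0],z2)],[]]],
    [.leafM k1 [k0,k1,k2,k3,k4,k5] [(z1,[y1,z1]),(z1,[z1])] [],
    .lp [k2,k4,k2,k2,k2,k2] [k1,k1,k0,k0,k1,k1,k1,k1,k1,k1,k1,k1] k0 [] k8 k5
    [[(k4,k2),(k7,k2)],[(k6,k2),(k8,k2),(k9,k2),(k11,k2)],[(k6,k3),(k8,k3),(k9,k3),(k11,k3)],[(k6,k3),(k8,k3),(k9,k3),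
    (k11,k3)],[(k6,k2),(k8,k2),(k9,k2),(k11,k2)],[(k1,k2),(k10,k2)],[(k1,k2),(k10,k2)],[(k0,k2),(k5,k2),(k2,k3),(k3,
    k3)],[(k0,k2),(k5,k2),(k2,k3),(k3,k3)],[(k0,k2),(k5,k2),(k2,k3),(k3,k3)],[(k0,k2),(k5,k2),(k2,k3),(k3,k3)],[(k4,
    k2),(k7,k2)]]
    [] k0
    [[k1,k0,k1,k0,k1,k0]]
    [.ref k0 k0 [(z1,[z1])]]]⟩

/-- classes `0 0 1 0 0 1`, types `B0 B0 C0 B1 B1 C0` -/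
noncomputable def cT6_692 : CertT :=
  ⟨[k8,k8,k20,k9,k9,k20],[(false,k0,[k0,k1,k2,k3,k4,k5])],[[[([z1,z0,z1,z0,z1,z0],z2)],[]]],
    [.leafM k1 [k0,k1,k2,k3,k4,k5] [(z1,[y1,z1]),(z1,[z1])] [],
    .lp [k2,k2,k2,k2,k4,k2] [k1,k1,k1,k1,k1,k1,k1,k1,k0,k0,k1,k1] k0 [] k8 k5
    [[(k4,k2),(k10,k2)],[(k6,k2),(k11,k2),(k8,k3),(k9,k3)],[(k6,k2),(k11,k2),(k8,k3),(k9,k3)],[(k6,k2),(k11,k2),(k8,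
    k3),(k9,k3)],[(k6,k2),(k11,k2),(k8,k3),(k9,k3)],[(k1,k2),(k7,k2)],[(k4,k2),(k10,k2)],[(k0,k2),(k2,k2),(k3,k2),(k5,
    k2)],[(k0,k3),(k2,k3),(k3,k3),(k5,k3)],[(k0,k3),(k2,k3),(k3,k3),(k5,k3)],[(k0,k2),(k2,k2),(k3,k2),(k5,k2)],[(k1,
    k2),(k7,k2)]]
    [] k0
    [[k0,k1,k0,k1,k0,k1]]
    [.ref k0 k0 [(z1,[y1,z1])]]]⟩

/-- classes `0 0 1 0 0 1`, types `B0 B0 C0 B1 B1 C2` -/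
noncomputable def cT6_693 : CertT :=
  ⟨[k8,k8,k20,k9,k9,k22],[],[[[]]],
    [.lp [k0,k0,k0,k2,k2,k2] [k1,k1,k1,k1,k1,k1,k0,k0,k0,k0,k0,k0] k0 [] k4 k5
    [[(k7,k1),(k10,k1)],[(k6,k1),(k8,k1),(k9,k1),(k11,k1)],[(k6,k1),(k8,k1),(k9,k1),(k11,k1)],[(k6,k1),(k8,k1),(k9,
    k1),(k11,k1)],[(k6,k1),(k8,k1),(k9,k1),(k11,k1)],[(k7,k1),(k10,k1)],[(k1,k1),(k4,k1)],[(k0,k1),(k2,k1),(k3,k1),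
    (k5,k1)],[(k0,k1),(k2,k1),(k3,k1),(k5,k1)],[(k0,k1),(k2,k1),(k3,k1),(k5,k1)],[(k0,k1),(k2,k1),(k3,k1),(k5,k1)],
    [(k1,k1),(k4,k1)]]
    [] k0
    []
    []]⟩

/-- classes `0 0 1 0 0 1`, types `B0 B0 N0 B1 B1 N1` -/
noncomputable def cT6_694 : CertT :=
  ⟨[k8,k8,k28,k9,k9,k29],[(false,k0,[k0,k1,k2,k3,k4,k5])],[[[([z1,z0,z1,z0,z1,z0],z2)],[]]],
    [.leafM k1 [k0,k1,k2,k3,k4,k5] [(z1,[y1,z1]),(z1,[z1])] [],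
    .lp [k2,k2,k2,k2,k4,k2] [k1,k1,k1,k1,k1,k1,k1,k1,k0,k0,k1,k1] k0 [] k8 k5
    [[(k4,k2)],[(k6,k2),(k11,k2),(k8,k3),(k9,k3)],[(k6,k2),(k11,k2),(k8,k3),(k9,k3)],[(k6,k2),(k11,k2),(k8,k3),(k9,
    k3)],[(k6,k2),(k11,k2),(k8,k3),(k9,k3)],[(k1,k2)],[(k10,k2)],[(k0,k2),(k2,k2),(k3,k2),(k5,k2)],[(k0,k3),(k2,k3),
    (k3,k3),(k5,k3)],[(k0,k3),(k2,k3),(k3,k3),(k5,k3)],[(k0,k2),(k2,k2),(k3,k2),(k5,k2)],[(k7,k2)]]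
    [] k0
    [[k0,k1,k0,k1,k0,k1]]
    [.ref k0 k0 [(z1,[y1,z1])]]]⟩

/-- classes `0 0 1 0 0 1`, types `B0 B0 N0 B1 B1 N2` -/
noncomputable def cT6_695 : CertT :=
  ⟨[k8,k8,k28,k9,k9,k30],[],[[[]]],
    [.lp [k0,k0,k0,k2,k2,k2] [k1,k1,k1,k1,k1,k1,k0,k0,k0,k0,k0,k0] k0 [] k4 k5
    [[(k7,k1)],[(k6,k1),(k8,k1),(k9,k1),(k11,k1)],[(k6,k1),(k8,k1),(k9,k1),(k11,k1)],[(k6,k1),(k8,k1),(k9,k1),(k11,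
    k1)],[(k6,k1),(k8,k1),(k9,k1),(k11,k1)],[(k10,k1)],[(k1,k1)],[(k0,k1),(k2,k1),(k3,k1),(k5,k1)],[(k0,k1),(k2,k1),
    (k3,k1),(k5,k1)],[(k0,k1),(k2,k1),(k3,k1),(k5,k1)],[(k0,k1),(k2,k1),(k3,k1),(k5,k1)],[(k4,k1)]]
    [] k0
    []
    []]⟩

/-- classes `0 0 1 0 0 1`, types `B0 B0 S0 B1 B1 S0` -/
noncomputable def cT6_696 : CertT :=
  ⟨[k8,k8,k16,k9,k9,k16],[(false,k0,[k0,k1,k2,k3,k4,k5]),(false,k3,[k3,k4,k5,k0,k1,k2])],[[[([z1,z0,z1,z0,z1,z0],z2)],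
    [([z2,z0,z0,z0,z1,z0],z2),([z0,z1,z0,z1,z0,z1],z2)],[([z2,z0,z0,z0,z1,z0],z2)],[]]],
    [.leafM k1 [k0,k1,k2,k3,k4,k5] [(z1,[y1,z1]),(z1,[z1])] [],
    .leafM k1 [k0,k1,k2,k3,k4,k5] [(z1,[z0,z1]),(z1,[z0,y1,z1])] [],
    .lp [k6,k8,k4,k4,k4,k4] [k1,k1,k0,k0,k2,k2,k2,k2,k2,k2,k2,k2] k0 [] k16 k5
    [[(k4,k5),(k7,k5),(k10,k5),(k1,k6)],[(k6,k5),(k8,k5),(k9,k5),(k11,k5)],[(k6,k6),(k8,k6),(k9,k6),(k11,k6)],[(k6,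
    k6),(k8,k6),(k9,k6),(k11,k6)],[(k6,k4),(k8,k4),(k9,k4),(k11,k4)],[(k4,k4),(k7,k4),(k10,k4),(k1,k5)],[(k4,k4),(k7,
    k4),(k10,k4),(k1,k5)],[(k5,k4),(k0,k5),(k2,k6),(k3,k6)],[(k5,k4),(k0,k5),(k2,k6),(k3,k6)],[(k5,k4),(k0,k5),(k2,
    k6),(k3,k6)],[(k5,k4),(k0,k5),(k2,k6),(k3,k6)],[(k4,k4),(k7,k4),(k10,k4),(k1,k5)]]
    [] k0
    [[k1,k0,k1,k0,k1,k0],[k0,k0,k2,k0,k1,k0]]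
    [.ref k1 k0 [(z1,[z0,z1]),(z1,[y1,z0,z1])],.ref k1 k0 [(z1,[z0,z1]),(z2,[y1,y1,z2])]],
    .lp [k10,k8,k10,k6,k4,k8] [k0,k0,k1,k1,k0,k0,k2,k2,k3,k3,k1,k1] k0 [[],[],[],[],[k0,k0,k0,k0,k0,k0,k0,k0,k0,k0,k2],[],
    [],[],[],[],[],[k0,k0,k0,k0,k0,k2]] k24 k5
    [[(k4,k8),(k7,k8),(k10,k9),(k1,k10)],[(k8,k7),(k9,k7),(k6,k8),(k11,k9)],[(k8,k6),(k9,k6),(k6,k7),(k11,k8)],[(k8,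
    k6),(k9,k6),(k6,k7),(k11,k8)],[(k8,k7),(k9,k7),(k6,k8),(k11,k9)],[(k1,k8),(k7,k8),(k10,k9),(k4,k10)],[(k7,k6),(k1,
    k8),(k4,k8),(k10,k9)],[(k2,k7),(k3,k7),(k0,k8),(k5,k8)],[(k2,k6),(k3,k6),(k0,k7),(k5,k7)],[(k2,k6),(k3,k6),(k0,
    k7),(k5,k7)],[(k2,k8),(k3,k8),(k0,k9),(k5,k9)],[(k10,k8),(k1,k9),(k4,k9),(k7,k9)]]
    [] k0
    [[k1,k0,k1,k0,k1,k0],[k0,k1,k0,k2,k0,k0]]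
    [.ref k0 k0 [(z1,[z1])],.ref k2 k1 [(z1,[z1])]]]⟩

/-- classes `0 0 1 0 0 1`, types `B0 B1 B0 B0 B1 B1` -/
noncomputable def cT6_697 : CertT :=
  ⟨[k8,k9,k24,k8,k9,k25],[(false,k0,[k0,k1,k2,k3,k4,k5])],[[[([z1,z1,z1,z0,z0,z0],z2)],[([z1,z0,z1,z0,z1,z0],z2)],
    []]],
    [.leafM k6 [k0,k1,k2,k3,k4,k5] [(z1,[y1,z1])] [],
    .leafM k5 [k1,k2,k3,k4,k5,k0] [(z1,[z1]),(z1,[y1,z1])] [],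
    .lp [k4,k4,k2,k4,k4,k4] [k0,k0,k0,k0,k1,k1,k0,k0,k0,k0,k0,k0] k0 [] k12 k5
    [[(k4,k3),(k7,k4)],[(k5,k3),(k2,k4),(k8,k4),(k11,k4)],[(k5,k3),(k2,k4),(k8,k4),(k11,k4)],[(k0,k4),(k3,k4),(k6,k4),
    (k9,k4)],[(k0,k3),(k3,k3),(k6,k3),(k9,k3)],[(k1,k3),(k10,k3)],[(k1,k4),(k10,k4)],[(k5,k3),(k2,k4),(k8,k4),(k11,
    k4)],[(k5,k3),(k2,k4),(k8,k4),(k11,k4)],[(k0,k4),(k3,k4),(k6,k4),(k9,k4)],[(k0,k4),(k3,k4),(k6,k4),(k9,k4)],[(k4,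
    k3),(k7,k4)]]
    [] k0
    [[k1,k1,k1,k0,k0,k0],[k1,k0,k1,k0,k1,k0]]
    [.ref k0 k0 [(z1,[z1])],.ref k1 k0 [(z1,[z1])]]]⟩

/-- classes `0 0 1 0 0 1`, types `B0 B1 B0 B1 B0 B1` -/
noncomputable def cT6_698 : CertT :=
  ⟨[k8,k9,k24,k9,k8,k25],[(false,k0,[k0,k1,k2,k3,k4,k5]),(false,k3,[k3,k4,k5,k0,k1,k2])],[[[([z1,z0,z1,z0,z1,z0],z2)],
    [([z1,z0,z0,z0,z0,y1],z0),([z0,z1,z1,z0,z0,z1],z2)],[([z1,z0,z0,z1,z1,z0],z2),([z0,z1,z0,z0,y1,z0],z0)],[([z1,z0,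
    z0,z0,z0,y1],z0),([z0,z1,z0,z1,z0,z1],z2)],[([z1,z0,z0,z1,z1,z0],z2)],[([z1,z1,z1,z0,z0,z0],z2)],[]]],
    [.leafM k1 [k0,k1,k2,k3,k4,k5] [(z1,[y1,z1]),(z1,[z1])] [],
    .leafM k6 [k0,k1,k2,k3,k4,k5] [(z1,[y1,y1,z1])] [],
    .tor k2 false k1 [(z1,[z1]),(z1,[z1,z1]),(z1,[y1,y1,z1]),(z1,[y1,z0,z1])],
    .leafM k1 [k0,k1,k2,k3,k4,k5] [(z1,[z0,z1]),(z1,[z0,y1,z1])] [],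
    .lp [k10,k10,k2,k2,k12,k10] [k1,k1,k1,k1,k5,k5,k5,k5,k0,k0,k1,k1] k0 [[k0,k0,k0,k2],[],[k0,k2]] k24 k5
    [[(k4,k6),(k7,k6)],[(k5,k6),(k6,k6),(k2,k8),(k9,k11)],[(k6,k6),(k5,k8),(k2,k10),(k9,k11)],[(k0,k8),(k3,k10),(k11,
    k10),(k8,k11)],[(k0,k6),(k11,k6),(k8,k7),(k3,k8)],[(k1,k6),(k10,k6)],[(k1,k6),(k10,k6)],[(k0,k6),(k3,k6),(k11,k6),
    (k8,k7)],[(k0,k11),(k3,k11),(k11,k11),(k8,k12)],[(k5,k7),(k6,k7),(k2,k11),(k9,k12)],[(k5,k6),(k6,k6),(k2,k10),(k9,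
    k11)],[(k4,k6),(k7,k6)]]
    [] k0
    [[k1,k1,k1,k0,k0,k0],[k1,k1,k0,k1,k0,k0],[k0,k1,k0,k1,k0,k1]]
    [.ref k1 k0 [(z1,[z1,z1,y1]),(z1,[z0,y1,z1])],.ref k2 k0 [(z1,[z0,z1]),(z1,[z1,y1])],.ref k3 k1 [(z1,[z1,z1,y1]),
    (z1,[y1,z0,z1])]],
    .leafM k6 [k0,k1,k2,k3,k4,k5] [(z1,[y1,z1])] [],
    .lp [k24,k22,k4,k4,k20,k20] [k0,k0,k1,k1,k10,k10,k10,k10,k2,k2,k2,k2] k0 [[k0,k0,k0,k2],[],[k0,k2]] k48 k5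
    [[(k4,k14),(k7,k14)],[(k5,k14),(k6,k14),(k2,k21),(k9,k22)],[(k6,k13),(k5,k15),(k9,k21),(k2,k22)],[(k0,k21),(k8,
    k21),(k11,k21),(k3,k22)],[(k8,k12),(k11,k12),(k0,k14),(k3,k15)],[(k10,k12),(k1,k14)],[(k10,k12),(k1,k14)],[(k8,
    k12),(k11,k12),(k3,k13),(k0,k14)],[(k8,k20),(k11,k20),(k3,k21),(k0,k22)],[(k5,k12),(k6,k12),(k9,k20),(k2,k21)],
    [(k5,k12),(k6,k12),(k9,k20),(k2,k21)],[(k4,k12),(k7,k12)]]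
    [] k0
    [[k0,k1,k0,k1,k0,k1],[k0,k0,k1,k0,k1,k1],[k0,k0,k0,k1,k1,k1]]
    [.ref k0 k0 [(z1,[y1,z1])],.ref k4 k1 [(z1,[y1,z1])],.ref k5 k0 [(z1,[y1,z1])]]]⟩

/-- classes `0 0 1 0 0 1`, types `B0 B1 C0 B0 B1 C0` -/
noncomputable def cT6_699 : CertT :=
  ⟨[k8,k9,k20,k8,k9,k20],[(true,k2,[k2,k1,k0,k5,k4,k3]),(false,k0,[k0,k1,k2,k3,k4,k5])],[[[([z1,z0,z1,z0,z1,z0],z2)],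
    [([z1,z0,z0,y1,z0,z0],z0),([z0,z1,z0,z1,z0,z1],z2)],[([z1,z0,z0,z0,z1,z1],z2),([z0,z1,z0,z0,y1,z0],z0)],[([z1,z0,
    z0,z0,z1,z1],z2),([z0,z1,z1,z0,y1,y1],z0)],[([z1,z0,z0,z0,z1,z1],z2)],[([z1,z1,z1,z0,z0,z0],z2)],[]]],
    [.leafM k5 [k1,k2,k3,k4,k5,k0] [(z1,[z1]),(z1,[y1,z1])] [],
    .leafM k5 [k1,k2,k3,k4,k5,k0] [(z1,[z0,y1,z1]),(z1,[z0,z1])] [],
    .tor k3 false k0 [(z1,[y1,y1,z1]),(z1,[y1,z0,z1]),(z1,[z1]),(z1,[z1,z1])],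
    .leafM k6 [k0,k1,k2,k3,k4,k5] [(z1,[y1,y1,z1])] [],
    .lp [k8,k22,k20,k4,k20,k20] [k7,k7,k0,k0,k1,k1,k9,k9,k1,k1,k1,k1] k0 [[k0,k0,k0,k2],[],[k0,k2]] k48 k5
    [[(k4,k14),(k10,k14)],[(k2,k13),(k5,k14),(k8,k14),(k11,k14)],[(k8,k21),(k11,k21),(k2,k22),(k5,k23)],[(k0,k13),(k6,
    k13),(k9,k21),(k3,k22)],[(k6,k12),(k0,k14),(k9,k20),(k3,k23)],[(k7,k12),(k1,k14)],[(k4,k12),(k10,k12)],[(k5,k12),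
    (k8,k12),(k11,k12),(k2,k13)],[(k5,k20),(k8,k20),(k11,k20),(k2,k21)],[(k6,k12),(k0,k14),(k9,k20),(k3,k21)],[(k6,
    k12),(k0,k14),(k9,k20),(k3,k21)],[(k7,k12),(k1,k14)]]
    [] k0
    [[k0,k1,k0,k1,k0,k1],[k0,k0,k1,k1,k1,k0],[k0,k0,k0,k1,k1,k1]]
    [.ref k1 k0 [(z1,[y1,y1,z1]),(z1,[z1])],.ref k2 k1 [(z1,[z0,z1]),(z1,[y1,y1,z1])],.ref k3 k1 [(z1,[z0,z1]),(z1,
    [y1,y1,z1])]],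
    .leafM k6 [k0,k1,k2,k3,k4,k5] [(z1,[y1,z1])] [],
    .lp [k8,k22,k20,k4,k20,k20] [k7,k7,k0,k0,k1,k1,k9,k9,k1,k1,k1,k1] k0 [[k0,k0,k0,k2],[],[k0,k2]] k48 k5
    [[(k4,k14),(k10,k14)],[(k2,k13),(k5,k14),(k8,k14),(k11,k14)],[(k8,k21),(k11,k21),(k2,k22),(k5,k23)],[(k0,k13),(k6,
    k13),(k9,k21),(k3,k22)],[(k6,k12),(k0,k14),(k9,k20),(k3,k23)],[(k7,k12),(k1,k14)],[(k4,k12),(k10,k12)],[(k5,k12),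
    (k8,k12),(k11,k12),(k2,k13)],[(k5,k20),(k8,k20),(k11,k20),(k2,k21)],[(k6,k12),(k0,k14),(k9,k20),(k3,k21)],[(k6,
    k12),(k0,k14),(k9,k20),(k3,k21)],[(k7,k12),(k1,k14)]]
    [] k0
    [[k0,k1,k0,k1,k0,k1],[k0,k0,k1,k1,k1,k0],[k0,k0,k0,k1,k1,k1]]
    [.ref k0 k1 [(z1,[y1,z1])],.ref k4 k0 [(z1,[z1])],.ref k5 k1 [(z1,[y1,z1])]]]⟩

/-- classes `0 0 1 0 0 1`, types `B0 B1 C0 B0 B1 C2` -/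
noncomputable def cT6_700 : CertT :=
  ⟨[k8,k9,k20,k8,k9,k22],[(false,k0,[k0,k1,k2,k3,k4,k5]),(true,k2,[k2,k1,k0,k5,k4,k3])],[[[([z1,z0,z0,z0,z1,z1],z2),
    ([z0,z1,z0,z0,y1,z0],z0)],[([z1,z0,z0,z0,z1,z1],z2)],[]]],
    [.tor k3 false k0 [(z1,[y1,y1,z1]),(z1,[y1,z0,z1]),(z1,[z1]),(z1,[z1,z1])],
    .lp [k6,k10,k6,k6,k12,k6] [k3,k3,k1,k1,k3,k3,k3,k3,k0,k0,k3,k3] k0 [[k0,k0,k0,k2],[],[k0,k2]] k24 k5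
    [[(k7,k6),(k10,k6)],[(k2,k6),(k5,k6),(k11,k6),(k8,k9)],[(k11,k8),(k2,k10),(k5,k10),(k8,k11)],[(k0,k6),(k6,k8),(k3,
    k10),(k9,k11)],[(k0,k6),(k6,k6),(k9,k9),(k3,k10)],[(k7,k6),(k10,k6)],[(k1,k6),(k4,k6)],[(k5,k6),(k11,k6),(k2,k8),
    (k8,k9)],[(k5,k9),(k11,k9),(k2,k11),(k8,k12)],[(k0,k9),(k6,k9),(k3,k11),(k9,k12)],[(k0,k6),(k6,k6),(k3,k8),(k9,
    k9)],[(k1,k6),(k4,k6)]]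
    [] k0
    [[k1,k1,k0,k0,k0,k1]]
    [.ref k0 k0 [(z1,[z0,z1]),(z1,[z1,y1])]],
    .lp [k6,k10,k6,k6,k12,k6] [k3,k3,k1,k1,k3,k3,k3,k3,k0,k0,k3,k3] k0 [[k0,k0,k0,k2],[],[k0,k2]] k24 k5
    [[(k7,k6),(k10,k6)],[(k2,k6),(k5,k6),(k11,k6),(k8,k9)],[(k11,k8),(k2,k10),(k5,k10),(k8,k11)],[(k0,k6),(k6,k8),(k3,
    k10),(k9,k11)],[(k0,k6),(k6,k6),(k9,k9),(k3,k10)],[(k7,k6),(k10,k6)],[(k1,k6),(k4,k6)],[(k5,k6),(k11,k6),(k2,k8),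
    (k8,k9)],[(k5,k9),(k11,k9),(k2,k11),(k8,k12)],[(k0,k9),(k6,k9),(k3,k11),(k9,k12)],[(k0,k6),(k6,k6),(k3,k8),(k9,
    k9)],[(k1,k6),(k4,k6)]]
    [] k0
    [[k1,k1,k0,k0,k0,k1]]
    [.ref k1 k1 [(z1,[y1,z1])]]]⟩

/-- classes `0 0 1 0 0 1`, types `B0 B1 C0 B1 B0 C0` -/
noncomputable def cT6_701 : CertT :=
  ⟨[k8,k9,k20,k9,k8,k20],[(false,k0,[k0,k1,k2,k3,k4,k5])],[[[([z1,z0,z1,z0,z1,z0],z2)],[([z1,z1,z1,z0,z0,z0],z2)],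
    []]],
    [.leafM k1 [k0,k1,k2,k3,k4,k5] [(z1,[y1,z1]),(z1,[z1])] [],
    .leafM k6 [k0,k1,k2,k3,k4,k5] [(z1,[y1,z1])] [],
    .lp [k6,k12,k6,k6,k8,k6] [k3,k3,k0,k0,k3,k3,k3,k3,k2,k2,k3,k3] k0 [] k24 k5
    [[(k4,k6),(k10,k6)],[(k5,k6),(k6,k6),(k9,k7),(k2,k9)],[(k5,k9),(k6,k9),(k9,k10),(k2,k12)],[(k0,k9),(k11,k9),(k8,
    k10),(k3,k12)],[(k0,k6),(k11,k6),(k8,k7),(k3,k9)],[(k1,k6),(k7,k6)],[(k4,k6),(k10,k6)],[(k0,k6),(k11,k6),(k8,k7),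
    (k3,k9)],[(k0,k7),(k11,k7),(k8,k8),(k3,k10)],[(k5,k7),(k6,k7),(k9,k8),(k2,k10)],[(k5,k6),(k6,k6),(k9,k7),(k2,k9)],
    [(k1,k6),(k7,k6)]]
    [] k0
    [[k1,k0,k1,k0,k1,k0],[k0,k0,k0,k1,k1,k1]]
    [.ref k0 k0 [(z1,[z1])],.ref k1 k0 [(z1,[y1,z1])]]]⟩

/-- classes `0 0 1 0 0 1`, types `B0 B1 C0 B1 B0 C2` -/
noncomputable def cT6_702 : CertT :=
  ⟨[k8,k9,k20,k9,k8,k22],[(false,k0,[k0,k1,k2,k3,k4,k5]),(false,k3,[k3,k4,k5,k0,k1,k2])],[[[([z1,z0,z0,z1,z1,z0],z2),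
    ([z0,z1,z0,z0,y1,z0],z0)],[([z1,z0,z0,z1,z1,z0],z2)],[]]],
    [.tor k2 false k1 [(z1,[z1]),(z1,[z1,z1]),(z1,[y1,y1,z1]),(z1,[y1,z0,z1])],
    .lp [k6,k10,k6,k6,k12,k6] [k3,k3,k1,k1,k3,k3,k3,k3,k0,k0,k3,k3] k0 [[k0,k0,k0,k2],[],[k0,k2]] k24 k5
    [[(k7,k6),(k10,k6)],[(k2,k6),(k5,k6),(k6,k6),(k9,k9)],[(k6,k8),(k2,k10),(k5,k10),(k9,k11)],[(k0,k6),(k11,k8),(k3,
    k10),(k8,k11)],[(k0,k6),(k11,k6),(k8,k9),(k3,k10)],[(k7,k6),(k10,k6)],[(k1,k6),(k4,k6)],[(k0,k6),(k11,k6),(k3,k8),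
    (k8,k9)],[(k0,k9),(k11,k9),(k3,k11),(k8,k12)],[(k5,k9),(k6,k9),(k2,k11),(k9,k12)],[(k5,k6),(k6,k6),(k2,k8),(k9,
    k9)],[(k1,k6),(k4,k6)]]
    [] k0
    [[k1,k1,k0,k1,k0,k0]]
    [.ref k0 k0 [(z1,[z0,z1]),(z1,[z1,y1])]],
    .lp [k6,k10,k6,k6,k12,k6] [k3,k3,k1,k1,k3,k3,k3,k3,k0,k0,k3,k3] k0 [[k0,k0,k0,k2],[],[k0,k2]] k24 k5
    [[(k7,k6),(k10,k6)],[(k2,k6),(k5,k6),(k6,k6),(k9,k9)],[(k6,k8),(k2,k10),(k5,k10),(k9,k11)],[(k0,k6),(k11,k8),(k3,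
    k10),(k8,k11)],[(k0,k6),(k11,k6),(k8,k9),(k3,k10)],[(k7,k6),(k10,k6)],[(k1,k6),(k4,k6)],[(k0,k6),(k11,k6),(k3,k8),
    (k8,k9)],[(k0,k9),(k11,k9),(k3,k11),(k8,k12)],[(k5,k9),(k6,k9),(k2,k11),(k9,k12)],[(k5,k6),(k6,k6),(k2,k8),(k9,
    k9)],[(k1,k6),(k4,k6)]]
    [] k0
    [[k1,k1,k0,k1,k0,k0]]
    [.ref k1 k1 [(z1,[z1])]]]⟩

/-- classes `0 0 1 0 0 1`, types `B0 B1 N0 B0 B1 N1` -/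
noncomputable def cT6_703 : CertT :=
  ⟨[k8,k9,k28,k8,k9,k29],[(false,k0,[k0,k1,k2,k3,k4,k5])],[[[([z1,z0,z1,z0,z1,z0],z2)],[([z1,z1,z1,z0,z0,z0],z2)],
    []]],
    [.leafM k5 [k1,k2,k3,k4,k5,k0] [(z1,[z1]),(z1,[y1,z1])] [],
    .leafM k6 [k0,k1,k2,k3,k4,k5] [(z1,[y1,z1])] [],
    .lp [k2,k4,k6,k2,k4,k4] [k2,k2,k1,k1,k0,k0,k2,k2,k1,k1,k1,k1] k0 [] k12 k5
    [[(k4,k4)],[(k2,k3),(k8,k3),(k11,k3),(k5,k4)],[(k2,k4),(k8,k4),(k11,k4),(k5,k5)],[(k0,k3),(k6,k3),(k3,k4),(k9,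
    k4)],[(k0,k4),(k6,k4),(k3,k5),(k9,k5)],[(k1,k4)],[(k10,k3)],[(k2,k3),(k8,k3),(k11,k3),(k5,k4)],[(k2,k4),(k8,k4),
    (k11,k4),(k5,k5)],[(k0,k3),(k6,k3),(k3,k4),(k9,k4)],[(k0,k3),(k6,k3),(k3,k4),(k9,k4)],[(k7,k3)]]
    [] k0
    [[k0,k1,k0,k1,k0,k1],[k0,k0,k0,k1,k1,k1]]
    [.ref k0 k0 [(z1,[y1,z1])],.ref k1 k0 [(z1,[y1,z1])]]]⟩

/-- classes `0 0 1 0 0 1`, types `B0 B1 N0 B0 B1 N2` -/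
noncomputable def cT6_704 : CertT :=
  ⟨[k8,k9,k28,k8,k9,k30],[],[[[]]],
    [.lp [k6,k8,k6,k6,k8,k6] [k1,k1,k0,k0,k1,k1,k1,k1,k0,k0,k1,k1] k0 [] k24 k5
    [[(k7,k6)],[(k5,k6),(k11,k6),(k2,k7),(k8,k7)],[(k5,k7),(k11,k7),(k2,k8),(k8,k8)],[(k0,k7),(k6,k7),(k3,k8),(k9,
    k8)],[(k0,k6),(k6,k6),(k3,k7),(k9,k7)],[(k10,k6)],[(k1,k6)],[(k5,k6),(k11,k6),(k2,k7),(k8,k7)],[(k5,k7),(k11,k7),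
    (k2,k8),(k8,k8)],[(k0,k7),(k6,k7),(k3,k8),(k9,k8)],[(k0,k6),(k6,k6),(k3,k7),(k9,k7)],[(k4,k6)]]
    [] k0
    []
    []]⟩

/-- classes `0 0 1 0 0 1`, types `B0 B1 N0 B1 B0 N1` -/
noncomputable def cT6_705 : CertT :=
  ⟨[k8,k9,k28,k9,k8,k29],[(false,k0,[k0,k1,k2,k3,k4,k5])],[[[([z1,z0,z1,z0,z1,z0],z2)],[([z1,z1,z1,z0,z0,z0],z2)],
    []]],
    [.leafM k1 [k0,k1,k2,k3,k4,k5] [(z1,[y1,z1]),(z1,[z1])] [],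
    .leafM k6 [k0,k1,k2,k3,k4,k5] [(z1,[y1,z1])] [],
    .lp [k4,k6,k2,k2,k4,k4] [k1,k1,k0,k0,k2,k2,k2,k2,k1,k1,k1,k1] k0 [] k12 k5
    [[(k4,k3)],[(k5,k3),(k6,k3),(k9,k4),(k2,k5)],[(k5,k4),(k6,k4),(k9,k5),(k2,k6)],[(k0,k5),(k8,k5),(k11,k5),(k3,k6)],
    [(k0,k3),(k8,k3),(k11,k3),(k3,k4)],[(k1,k3)],[(k10,k3)],[(k0,k3),(k8,k3),(k11,k3),(k3,k4)],[(k0,k4),(k8,k4),(k11,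
    k4),(k3,k5)],[(k5,k3),(k6,k3),(k9,k4),(k2,k5)],[(k5,k3),(k6,k3),(k9,k4),(k2,k5)],[(k7,k3)]]
    [] k0
    [[k1,k0,k1,k0,k1,k0],[k0,k0,k0,k1,k1,k1]]
    [.ref k0 k0 [(z1,[z1])],.ref k1 k0 [(z1,[y1,z1])]]]⟩

/-- classes `0 0 1 0 0 1`, types `B0 B1 N0 B1 B0 N2` -/
noncomputable def cT6_706 : CertT :=
  ⟨[k8,k9,k28,k9,k8,k30],[(false,k0,[k0,k1,k2,k3,k4,k5]),(false,k3,[k3,k4,k5,k0,k1,k2])],[[[([z1,z0,z0,z1,z1,z0],z2),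
    ([z0,z1,z0,z0,y1,z0],z0)],[([z1,z0,z0,z1,z1,z0],z2)],[]]],
    [.tor k2 false k1 [(z1,[z1]),(z1,[z1,z1]),(z1,[y1,y1,z1]),(z1,[y1,z0,z1])],
    .lp [k10,k10,k2,k2,k12,k10] [k1,k1,k1,k1,k5,k5,k5,k5,k0,k0,k1,k1] k0 [[k0,k0,k0,k2],[],[k0,k2]] k24 k5
    [[(k7,k6)],[(k5,k6),(k6,k6),(k2,k8),(k9,k11)],[(k6,k6),(k5,k8),(k2,k10),(k9,k11)],[(k0,k8),(k3,k10),(k11,k10),(k8,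
    k11)],[(k0,k6),(k11,k6),(k8,k7),(k3,k8)],[(k10,k6)],[(k1,k6)],[(k0,k6),(k3,k6),(k11,k6),(k8,k7)],[(k0,k11),(k3,
    k11),(k11,k11),(k8,k12)],[(k5,k7),(k6,k7),(k2,k11),(k9,k12)],[(k5,k6),(k6,k6),(k2,k10),(k9,k11)],[(k4,k6)]]
    [] k0
    [[k1,k1,k0,k1,k0,k0]]
    [.ref k0 k0 [(z1,[z0,z1]),(z1,[z1,y1])]],
    .lp [k10,k10,k2,k2,k12,k10] [k1,k1,k1,k1,k5,k5,k5,k5,k0,k0,k1,k1] k0 [[k0,k0,k0,k2],[],[k0,k2]] k24 k5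
    [[(k7,k6)],[(k5,k6),(k6,k6),(k2,k8),(k9,k11)],[(k6,k6),(k5,k8),(k2,k10),(k9,k11)],[(k0,k8),(k3,k10),(k11,k10),(k8,
    k11)],[(k0,k6),(k11,k6),(k8,k7),(k3,k8)],[(k10,k6)],[(k1,k6)],[(k0,k6),(k3,k6),(k11,k6),(k8,k7)],[(k0,k11),(k3,
    k11),(k11,k11),(k8,k12)],[(k5,k7),(k6,k7),(k2,k11),(k9,k12)],[(k5,k6),(k6,k6),(k2,k10),(k9,k11)],[(k4,k6)]]
    [] k0
    [[k1,k1,k0,k1,k0,k0]]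
    [.ref k1 k1 [(z1,[z1])]]]⟩

/-- classes `0 0 1 0 0 1`, types `B0 B1 S0 B0 B1 S0` -/
noncomputable def cT6_707 : CertT :=
  ⟨[k8,k9,k16,k8,k9,k16],[(false,k0,[k0,k1,k2,k3,k4,k5]),(true,k2,[k2,k1,k0,k5,k4,k3])],[[[([z1,z1,z1,z0,z0,z0],z2)],
    [([z1,z0,z1,z0,z1,z0],z2)],[([z1,z0,z0,z0,z1,z1],z2),([z0,z1,z1,z0,y1,y1],z0)],[([z1,z0,z0,y1,z0,z0],z0),([z0,z1,
    z0,z1,z0,z1],z2)],[([z1,z0,z0,z0,z1,z1],z2),([z0,z1,z0,z0,y1,z0],z0)],[([z1,z0,z0,z0,z1,z1],z2)],[]]],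
    [.leafM k6 [k0,k1,k2,k3,k4,k5] [(z1,[y1,z1])] [],
    .leafM k5 [k1,k2,k3,k4,k5,k0] [(z1,[z1]),(z1,[y1,z1])] [],
    .leafM k6 [k0,k1,k2,k3,k4,k5] [(z1,[y1,y1,z1])] [],
    .leafM k5 [k1,k2,k3,k4,k5,k0] [(z1,[z0,y1,z1]),(z1,[z0,z1])] [],
    .tor k3 false k0 [(z1,[y1,y1,z1]),(z1,[y1,z0,z1]),(z1,[z1]),(z1,[z1,z1])],
    .lp [k6,k10,k6,k6,k8,k10] [k2,k2,k0,k0,k2,k2,k2,k2,k1,k1,k0,k0] k0 [[k0,k0,k0,k2],[],[k0,k2]] k24 k5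
    [[(k1,k6),(k4,k6),(k7,k6),(k10,k8)],[(k2,k6),(k5,k6),(k8,k7),(k11,k8)],[(k8,k9),(k2,k10),(k5,k10),(k11,k10)],[(k0,
    k6),(k6,k8),(k9,k9),(k3,k10)],[(k0,k6),(k6,k6),(k9,k7),(k3,k10)],[(k1,k6),(k4,k6),(k7,k6),(k10,k8)],[(k1,k6),(k4,
    k6),(k7,k6),(k10,k8)],[(k5,k6),(k8,k7),(k2,k8),(k11,k8)],[(k5,k7),(k8,k8),(k2,k9),(k11,k9)],[(k0,k7),(k6,k7),(k9,
    k8),(k3,k9)],[(k0,k8),(k6,k8),(k9,k9),(k3,k10)],[(k1,k8),(k4,k8),(k7,k8),(k10,k10)]]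
    [] k0
    [[k1,k1,k1,k0,k0,k0],[k1,k0,k1,k0,k1,k0],[k0,k0,k1,k1,k1,k0]]
    [.ref k2 k0 [(z1,[z0,z1]),(z1,[z1,y1])],.ref k3 k1 [(z1,[z1,y1]),(z1,[y1,z0,z1])],.ref k4 k0 [(z1,[z0,z1]),(z1,
    [y1,y1,z1])]],
    .lp [k12,k20,k12,k18,k16,k14] [k4,k4,k0,k0,k4,k4,k1,k1,k2,k2,k3,k3] k0 [[k0,k0,k0,k0,k0,k0,k0,k0,k0,k2],[],[k0,k0,k0,
    k0,k0,k0,k0,k2],[],[],[],[k0,k0,k0,k2],[],[k0,k2]] k48 k5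
    [[(k1,k12),(k4,k12),(k10,k13),(k7,k15)],[(k5,k12),(k8,k12),(k11,k13),(k2,k16)],[(k5,k16),(k8,k18),(k11,k19),(k2,
    k20)],[(k0,k16),(k6,k17),(k9,k18),(k3,k20)],[(k0,k12),(k6,k15),(k3,k16),(k9,k16)],[(k1,k12),(k4,k12),(k10,k13),
    (k7,k15)],[(k1,k15),(k4,k15),(k10,k16),(k7,k18)],[(k5,k15),(k11,k16),(k2,k17),(k8,k17)],[(k11,k15),(k5,k16),(k8,
    k16),(k2,k18)],[(k0,k12),(k9,k16),(k6,k17),(k3,k18)],[(k0,k13),(k9,k15),(k6,k16),(k3,k19)],[(k1,k13),(k4,k13),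
    (k10,k14),(k7,k16)]]
    [] k0
    [[k1,k1,k1,k0,k0,k0],[k1,k0,k1,k0,k1,k0],[k1,k0,k0,k0,k1,k1]]
    [.ref k0 k0 [(z1,[z1])],.ref k1 k0 [(z1,[z1])],.ref k5 k0 [(z1,[z1])]]]⟩

/-- classes `0 0 1 0 0 1`, types `B0 B1 S0 B1 B0 S0` -/
noncomputable def cT6_708 : CertT :=
  ⟨[k8,k9,k16,k9,k8,k16],[(false,k0,[k0,k1,k2,k3,k4,k5]),(false,k3,[k3,k4,k5,k0,k1,k2])],[[[([z1,z1,z1,z0,z0,z0],z2)],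
    [([z1,z0,z0,z0,z0,y1],z0),([z0,z1,z1,z0,z0,z1],z2)],[([z1,z0,z0,z1,z1,z0],z2),([z0,z1,z0,z0,y1,z0],z0)],[([z1,z0,
    z0,z0,z0,y1],z0),([z0,z1,z0,z1,z0,z1],z2)],[([z1,z0,z0,z1,z1,z0],z2)],[([z1,z0,z1,z0,z1,z0],z2)],[]]],
    [.leafM k6 [k0,k1,k2,k3,k4,k5] [(z1,[y1,z1])] [],
    .leafM k6 [k0,k1,k2,k3,k4,k5] [(z1,[y1,y1,z1])] [],
    .tor k2 false k1 [(z1,[z1]),(z1,[z1,z1]),(z1,[y1,y1,z1]),(z1,[y1,z0,z1])],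
    .leafM k1 [k0,k1,k2,k3,k4,k5] [(z1,[z0,z1]),(z1,[z0,y1,z1])] [],
    .lp [k8,k8,k6,k6,k10,k8] [k1,k1,k1,k1,k2,k2,k2,k2,k0,k0,k1,k1] k0 [[k0,k0,k0,k2],[],[k0,k2]] k24 k5
    [[(k4,k7),(k7,k7),(k1,k8),(k10,k8)],[(k2,k6),(k5,k7),(k6,k7),(k9,k9)],[(k6,k7),(k2,k8),(k5,k9),(k9,k9)],[(k0,k6),
    (k3,k8),(k11,k8),(k8,k9)],[(k0,k7),(k11,k7),(k8,k8),(k3,k9)],[(k4,k6),(k7,k6),(k1,k7),(k10,k7)],[(k4,k6),(k7,k6),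
    (k1,k7),(k10,k7)],[(k0,k7),(k3,k7),(k11,k7),(k8,k8)],[(k0,k9),(k3,k9),(k11,k9),(k8,k10)],[(k5,k8),(k6,k8),(k2,k9),
    (k9,k10)],[(k5,k7),(k6,k7),(k2,k8),(k9,k9)],[(k4,k7),(k7,k7),(k1,k8),(k10,k8)]]
    [] k0
    [[k1,k1,k1,k0,k0,k0],[k1,k1,k0,k1,k0,k0],[k0,k1,k0,k1,k0,k1]]
    [.ref k1 k0 [(z1,[z1,z1,y1]),(z1,[z0,y1,z1])],.ref k2 k0 [(z1,[z0,z1]),(z1,[z1,y1])],.ref k3 k1 [(z1,[z1,z1,y1]),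
    (z1,[y1,z0,z1])]],
    .leafM k1 [k0,k1,k2,k3,k4,k5] [(z1,[y1,z1]),(z1,[z1])] [],
    .lp [k8,k8,k6,k8,k10,k6] [k1,k1,k1,k1,k2,k2,k1,k1,k0,k0,k2,k2] k0 [[],[],[],[],[],[],[k0,k0,k0,k0,k0,k0,k0,k0,k0,k2],
    [],[k0,k0,k0,k0,k0,k0,k0,k2]] k24 k5
    [[(k4,k7),(k10,k7),(k1,k8),(k7,k8)],[(k5,k7),(k2,k8),(k6,k8),(k9,k9)],[(k5,k7),(k2,k8),(k6,k8),(k9,k9)],[(k11,k7),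
    (k0,k8),(k3,k8),(k8,k9)],[(k11,k6),(k0,k7),(k3,k7),(k8,k8)],[(k4,k6),(k10,k6),(k1,k7),(k7,k7)],[(k4,k7),(k10,k7),
    (k1,k8),(k7,k8)],[(k8,k7),(k11,k7),(k0,k8),(k3,k8)],[(k0,k9),(k3,k9),(k8,k10),(k11,k10)],[(k6,k7),(k5,k8),(k2,k9),
    (k9,k10)],[(k5,k6),(k2,k7),(k6,k7),(k9,k10)],[(k4,k6),(k10,k6),(k1,k7),(k7,k7)]]
    [] k0
    [[k1,k1,k1,k0,k0,k0],[k0,k1,k1,k0,k0,k1],[k0,k1,k0,k1,k0,k1]]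
    [.ref k0 k0 [(z1,[z1])],.ref k4 k0 [(z1,[y1,z1])],.ref k5 k0 [(z1,[y1,z1])]]]⟩

/-- classes `0 0 1 0 0 1`, types `C0 C0 B0 C0 C0 B1` -/
noncomputable def cT6_709 : CertT :=
  ⟨[k4,k4,k24,k4,k4,k25],[(false,k0,[k0,k1,k2,k3,k4,k5])],[[[([z1,z1,z1,z0,z0,z0],z2)],[([z1,z0,z1,z0,z1,z0],z2)],
    []]],
    [.leafM k0 [k2,k3,k4,k5,k0,k1] [(z1,[y1,z1])] [],
    .leafM k1 [k0,k1,k2,k3,k4,k5] [(z1,[y1,z1]),(z1,[z1])] [],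
    .lp [k4,k4,k2,k4,k4,k4] [k0,k0,k0,k0,k1,k1,k0,k0,k0,k0,k0,k0] k0 [] k12 k5
    [[(k4,k3),(k7,k4)],[(k5,k3),(k3,k4),(k9,k4),(k11,k4)],[(k0,k4),(k2,k4),(k6,k4),(k8,k4)],[(k5,k3),(k3,k4),(k9,k4),
    (k11,k4)],[(k0,k3),(k2,k3),(k6,k3),(k8,k3)],[(k1,k3),(k10,k3)],[(k1,k4),(k10,k4)],[(k5,k3),(k3,k4),(k9,k4),(k11,
    k4)],[(k0,k4),(k2,k4),(k6,k4),(k8,k4)],[(k5,k3),(k3,k4),(k9,k4),(k11,k4)],[(k0,k4),(k2,k4),(k6,k4),(k8,k4)],[(k4,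
    k3),(k7,k4)]]
    [] k0
    [[k1,k1,k1,k0,k0,k0],[k1,k0,k1,k0,k1,k0]]
    [.ref k0 k0 [(z1,[z1])],.ref k1 k0 [(z1,[z1])]]]⟩

/-- classes `0 0 1 0 0 1`, types `C0 C0 B0 C0 C2 B1` -/
noncomputable def cT6_710 : CertT :=
  ⟨[k4,k4,k24,k4,k6,k25],[(false,k0,[k0,k1,k2,k3,k4,k5])],[[[([z1,z1,z1,z0,z0,z0],z2)],[([z1,z0,z0,z1,z1,z0],z2)],
    []]],
    [.leafM k0 [k2,k3,k4,k5,k0,k1] [(z1,[y1,z1])] [],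
    .leafM k3 [k4,k5,k0,k1,k2,k3] [(z1,[y1,z1])] [],
    .lp [k4,k4,k2,k6,k2,k4] [k1,k1,k1,k1,k2,k2,k0,k0,k2,k2,k1,k1] k0 [] k12 k5
    [[(k4,k3),(k7,k5)],[(k5,k3),(k8,k3),(k9,k3),(k3,k4)],[(k0,k4),(k2,k4),(k11,k4),(k6,k5)],[(k5,k3),(k8,k3),(k9,k3),
    (k3,k4)],[(k0,k3),(k2,k3),(k11,k3),(k6,k4)],[(k1,k3),(k10,k3)],[(k1,k5),(k10,k5)],[(k5,k4),(k8,k4),(k9,k4),(k3,
    k5)],[(k0,k3),(k2,k3),(k11,k3),(k6,k4)],[(k0,k3),(k2,k3),(k11,k3),(k6,k4)],[(k5,k3),(k8,k3),(k9,k3),(k3,k4)],[(k4,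
    k3),(k7,k5)]]
    [] k0
    [[k1,k1,k1,k0,k0,k0],[k0,k1,k1,k0,k0,k1]]
    [.ref k0 k0 [(z1,[z1])],.ref k1 k0 [(z1,[y1,z1])]]]⟩

/-- classes `0 0 1 0 0 1`, types `C0 C0 B0 C2 C2 B1` -/
noncomputable def cT6_711 : CertT :=
  ⟨[k4,k4,k24,k6,k6,k25],[(false,k0,[k0,k1,k2,k3,k4,k5]),(false,k3,[k3,k4,k5,k0,k1,k2])],[[[([z1,z1,z1,z0,z0,z0],z2)],
    [([z1,z0,z1,z0,z1,z0],z2)],[([z1,z0,z0,z1,z1,z0],z2)],[]]],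
    [.leafM k0 [k2,k3,k4,k5,k0,k1] [(z1,[y1,z1])] [],
    .leafM k5 [k1,k2,k3,k4,k5,k0] [(z1,[z1]),(z1,[y1,z1])] [],
    .leafM k3 [k4,k5,k0,k1,k2,k3] [(z1,[y1,z1])] [],
    .lp [k4,k4,k2,k4,k4,k4] [k0,k0,k0,k0,k1,k1,k0,k0,k0,k0,k0,k0] k0 [] k12 k5
    [[(k4,k3),(k7,k4)],[(k5,k3),(k3,k4),(k6,k4),(k8,k4)],[(k0,k4),(k2,k4),(k9,k4),(k11,k4)],[(k5,k3),(k3,k4),(k6,k4),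
    (k8,k4)],[(k0,k3),(k2,k3),(k9,k3),(k11,k3)],[(k1,k3),(k10,k3)],[(k1,k4),(k10,k4)],[(k0,k4),(k2,k4),(k9,k4),(k11,
    k4)],[(k5,k3),(k3,k4),(k6,k4),(k8,k4)],[(k0,k4),(k2,k4),(k9,k4),(k11,k4)],[(k5,k3),(k3,k4),(k6,k4),(k8,k4)],[(k4,
    k3),(k7,k4)]]
    [] k0
    [[k1,k1,k1,k0,k0,k0],[k1,k0,k1,k0,k1,k0],[k0,k1,k1,k0,k0,k1],[k0,k0,k1,k0,k1,k1]]
    [.ref k0 k0 [(z1,[z1])],.ref k1 k0 [(z1,[z1])],.ref k2 k0 [(z1,[y1,z1])],.ref k2 k1 [(z1,[y1,z1])]]]⟩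

/-- classes `0 0 1 0 0 1`, types `C0 C0 C0 C0 C0 C0` -/
noncomputable def cT6_712 : CertT :=
  ⟨[k4,k4,k20,k4,k4,k20],[(false,k0,[k0,k1,k2,k3,k4,k5]),(true,k2,[k2,k1,k0,k5,k4,k3])],[[[([z1,z1,z1,z0,z0,z0],z2)],
    [([z1,z0,z1,z0,z1,z0],z2)],[([z1,z0,z0,z0,z1,z1],z2)],[]]],
    [.leafM k0 [k2,k3,k4,k5,k0,k1] [(z1,[y1,z1])] [],
    .leafM k1 [k0,k1,k2,k3,k4,k5] [(z1,[y1,z1]),(z1,[z1])] [],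
    .leafM k0 [k0,k1,k2,k3,k4,k5] [(z1,[y1,z1])] [],
    .lp [k8,k10,k4,k10,k8,k6] [k1,k1,k0,k0,k3,k3,k0,k0,k1,k1,k2,k2] k0 [] k24 k5
    [[(k4,k6),(k10,k7)],[(k5,k6),(k11,k7),(k9,k8),(k3,k9)],[(k0,k9),(k8,k9),(k2,k10),(k6,k10)],[(k5,k7),(k11,k8),(k9,
    k9),(k3,k10)],[(k0,k6),(k8,k6),(k2,k7),(k6,k7)],[(k1,k6),(k7,k7)],[(k4,k7),(k10,k8)],[(k5,k7),(k11,k8),(k9,k9),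
    (k3,k10)],[(k0,k8),(k8,k8),(k2,k9),(k6,k9)],[(k5,k6),(k11,k7),(k9,k8),(k3,k9)],[(k0,k7),(k8,k7),(k2,k8),(k6,k8)],
    [(k1,k7),(k7,k8)]]
    [] k0
    [[k1,k1,k1,k0,k0,k0],[k1,k0,k1,k0,k1,k0],[k1,k0,k0,k0,k1,k1],[k0,k0,k1,k1,k1,k0]]
    [.ref k0 k0 [(z1,[z1])],.ref k1 k0 [(z1,[z1])],.ref k2 k0 [(z1,[z1])],.ref k2 k1 [(z1,[z1])]]]⟩

/-- classes `0 0 1 0 0 1`, types `C0 C0 C0 C0 C0 C2` -/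
noncomputable def cT6_713 : CertT :=
  ⟨[k4,k4,k20,k4,k4,k22],[(false,k0,[k0,k1,k2,k3,k4,k5]),(true,k2,[k2,k1,k0,k5,k4,k3])],[[[([z1,z0,z0,z0,z1,z1],z2)],
    []]],
    [.leafM k0 [k0,k1,k2,k3,k4,k5] [(z1,[y1,z1])] [],
    .lp [k6,k12,k6,k6,k8,k6] [k3,k3,k0,k0,k3,k3,k3,k3,k2,k2,k3,k3] k0 [] k24 k5
    [[(k7,k6),(k10,k6)],[(k5,k6),(k11,k6),(k9,k7),(k3,k9)],[(k0,k9),(k6,k9),(k8,k10),(k2,k12)],[(k5,k9),(k11,k9),(k9,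
    k10),(k3,k12)],[(k0,k6),(k6,k6),(k8,k7),(k2,k9)],[(k7,k6),(k10,k6)],[(k1,k6),(k4,k6)],[(k5,k6),(k11,k6),(k9,k7),
    (k3,k9)],[(k0,k7),(k6,k7),(k8,k8),(k2,k10)],[(k5,k7),(k11,k7),(k9,k8),(k3,k10)],[(k0,k6),(k6,k6),(k8,k7),(k2,k9)],
    [(k1,k6),(k4,k6)]]
    [] k0
    [[k1,k0,k0,k0,k1,k1],[k0,k0,k1,k1,k1,k0]]
    [.ref k0 k0 [(z1,[z1])],.ref k0 k1 [(z1,[z1])]]]⟩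

/-- classes `0 0 1 0 0 1`, types `C0 C0 C0 C0 C2 C0` -/
noncomputable def cT6_714 : CertT :=
  ⟨[k4,k4,k20,k4,k6,k20],[(false,k0,[k0,k1,k2,k3,k4,k5])],[[[([z1,z0,z0,z0,z1,z1],z2)],[([z1,z1,z1,z0,z0,z0],z2)],
    []]],
    [.leafM k0 [k0,k1,k2,k3,k4,k5] [(z1,[y1,z1])] [],
    .leafM k0 [k2,k3,k4,k5,k0,k1] [(z1,[y1,z1])] [],
    .lp [k6,k4,k2,k4,k2,k4] [k0,k0,k1,k1,k2,k2,k1,k1,k2,k2,k1,k1] k0 [] k12 k5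
    [[(k4,k4),(k10,k5)],[(k5,k4),(k8,k4),(k9,k4),(k3,k5)],[(k2,k4),(k6,k4),(k11,k4),(k0,k5)],[(k5,k3),(k8,k3),(k9,k3),
    (k3,k4)],[(k2,k3),(k6,k3),(k11,k3),(k0,k4)],[(k7,k3),(k1,k4)],[(k4,k3),(k10,k4)],[(k5,k3),(k8,k3),(k9,k3),(k3,
    k4)],[(k2,k3),(k6,k3),(k11,k3),(k0,k4)],[(k2,k3),(k6,k3),(k11,k3),(k0,k4)],[(k5,k3),(k8,k3),(k9,k3),(k3,k4)],[(k7,
    k4),(k1,k5)]]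
    [] k0
    [[k0,k1,k1,k1,k0,k0],[k0,k0,k0,k1,k1,k1]]
    [.ref k0 k0 [(z1,[y1,z1])],.ref k1 k0 [(z1,[y1,z1])]]]⟩

/-- classes `0 0 1 0 0 1`, types `C0 C0 C0 C0 C2 C2` -/
noncomputable def cT6_715 : CertT :=
  ⟨[k4,k4,k20,k4,k6,k22],[(false,k0,[k0,k1,k2,k3,k4,k5])],[[[([z1,z0,z0,z0,z1,z1],z2)],[([z1,z0,z0,z1,z1,z0],z2)],
    []]],
    [.leafM k0 [k0,k1,k2,k3,k4,k5] [(z1,[y1,z1])] [],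
    .leafM k3 [k4,k5,k0,k1,k2,k3] [(z1,[y1,z1])] [],
    .lp [k6,k4,k2,k4,k2,k4] [k0,k0,k1,k1,k2,k2,k1,k1,k2,k2,k1,k1] k0 [] k12 k5
    [[(k7,k5),(k10,k5)],[(k5,k4),(k8,k4),(k9,k4),(k3,k5)],[(k2,k4),(k6,k4),(k11,k4),(k0,k5)],[(k5,k3),(k8,k3),(k9,k3),
    (k3,k4)],[(k2,k3),(k6,k3),(k11,k3),(k0,k4)],[(k7,k3),(k10,k3)],[(k4,k3),(k1,k5)],[(k5,k3),(k8,k3),(k9,k3),(k3,
    k4)],[(k2,k3),(k6,k3),(k11,k3),(k0,k4)],[(k2,k3),(k6,k3),(k11,k3),(k0,k4)],[(k5,k3),(k8,k3),(k9,k3),(k3,k4)],[(k4,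
    k3),(k1,k5)]]
    [] k0
    [[k0,k1,k1,k1,k0,k0],[k0,k1,k1,k0,k0,k1]]
    [.ref k0 k0 [(z1,[y1,z1])],.ref k1 k0 [(z1,[y1,z1])]]]⟩

/-- classes `0 0 1 0 0 1`, types `C0 C0 C0 C2 C2 C0` -/
noncomputable def cT6_716 : CertT :=
  ⟨[k4,k4,k20,k6,k6,k20],[(false,k0,[k0,k1,k2,k3,k4,k5])],[[[([z1,z0,z1,z0,z1,z0],z2)],[([z1,z1,z1,z0,z0,z0],z2)],
    []]],
    [.leafM k5 [k1,k2,k3,k4,k5,k0] [(z1,[z1]),(z1,[y1,z1])] [],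
    .leafM k0 [k2,k3,k4,k5,k0,k1] [(z1,[y1,z1])] [],
    .lp [k6,k12,k6,k6,k8,k6] [k3,k3,k0,k0,k3,k3,k3,k3,k2,k2,k3,k3] k0 [] k24 k5
    [[(k4,k6),(k10,k6)],[(k5,k6),(k6,k6),(k8,k7),(k3,k9)],[(k0,k9),(k11,k9),(k9,k10),(k2,k12)],[(k5,k9),(k6,k9),(k8,
    k10),(k3,k12)],[(k0,k6),(k11,k6),(k9,k7),(k2,k9)],[(k1,k6),(k7,k6)],[(k4,k6),(k10,k6)],[(k0,k6),(k11,k6),(k9,k7),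
    (k2,k9)],[(k5,k7),(k6,k7),(k8,k8),(k3,k10)],[(k0,k7),(k11,k7),(k9,k8),(k2,k10)],[(k5,k6),(k6,k6),(k8,k7),(k3,k9)],
    [(k1,k6),(k7,k6)]]
    [] k0
    [[k1,k0,k1,k0,k1,k0],[k0,k0,k0,k1,k1,k1]]
    [.ref k0 k0 [(z1,[z1])],.ref k1 k0 [(z1,[y1,z1])]]]⟩

/-- classes `0 0 1 0 0 1`, types `C0 C0 C0 C2 C2 C2` -/
noncomputable def cT6_717 : CertT :=
  ⟨[k4,k4,k20,k6,k6,k22],[(false,k0,[k0,k1,k2,k3,k4,k5]),(false,k3,[k3,k4,k5,k0,k1,k2])],[[[([z1,z0,z0,z1,z1,z0],z2)],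
    []]],
    [.leafM k3 [k4,k5,k0,k1,k2,k3] [(z1,[y1,z1])] [],
    .lp [k4,k4,k2,k4,k4,k4] [k0,k0,k0,k0,k1,k1,k0,k0,k0,k0,k0,k0] k0 [] k12 k5
    [[(k7,k4),(k10,k4)],[(k5,k3),(k3,k4),(k6,k4),(k8,k4)],[(k0,k4),(k2,k4),(k9,k4),(k11,k4)],[(k5,k3),(k3,k4),(k6,k4),
    (k8,k4)],[(k0,k3),(k2,k3),(k9,k3),(k11,k3)],[(k7,k3),(k10,k3)],[(k4,k3),(k1,k4)],[(k0,k4),(k2,k4),(k9,k4),(k11,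
    k4)],[(k5,k3),(k3,k4),(k6,k4),(k8,k4)],[(k0,k4),(k2,k4),(k9,k4),(k11,k4)],[(k5,k3),(k3,k4),(k6,k4),(k8,k4)],[(k4,
    k3),(k1,k4)]]
    [] k0
    [[k0,k1,k1,k0,k0,k1],[k0,k0,k1,k0,k1,k1]]
    [.ref k0 k0 [(z1,[y1,z1])],.ref k0 k1 [(z1,[y1,z1])]]]⟩

/-- classes `0 0 1 0 0 1`, types `C0 C0 N0 C0 C0 N1` -/
noncomputable def cT6_718 : CertT :=
  ⟨[k4,k4,k28,k4,k4,k29],[(false,k0,[k0,k1,k2,k3,k4,k5])],[[[([z1,z1,z1,z0,z0,z0],z2)],[([z1,z0,z1,z0,z1,z0],z2)],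
    []]],
    [.leafM k0 [k2,k3,k4,k5,k0,k1] [(z1,[y1,z1])] [],
    .leafM k1 [k0,k1,k2,k3,k4,k5] [(z1,[y1,z1]),(z1,[z1])] [],
    .lp [k4,k4,k2,k4,k4,k4] [k0,k0,k0,k0,k1,k1,k0,k0,k0,k0,k0,k0] k0 [] k12 k5
    [[(k4,k3)],[(k5,k3),(k3,k4),(k9,k4),(k11,k4)],[(k0,k4),(k2,k4),(k6,k4),(k8,k4)],[(k5,k3),(k3,k4),(k9,k4),(k11,
    k4)],[(k0,k3),(k2,k3),(k6,k3),(k8,k3)],[(k1,k3)],[(k10,k4)],[(k5,k3),(k3,k4),(k9,k4),(k11,k4)],[(k0,k4),(k2,k4),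
    (k6,k4),(k8,k4)],[(k5,k3),(k3,k4),(k9,k4),(k11,k4)],[(k0,k4),(k2,k4),(k6,k4),(k8,k4)],[(k7,k4)]]
    [] k0
    [[k1,k1,k1,k0,k0,k0],[k1,k0,k1,k0,k1,k0]]
    [.ref k0 k0 [(z1,[z1])],.ref k1 k0 [(z1,[z1])]]]⟩

/-- classes `0 0 1 0 0 1`, types `C0 C0 N0 C0 C0 N2` -/
noncomputable def cT6_719 : CertT :=
  ⟨[k4,k4,k28,k4,k4,k30],[],[[[]]],
    [.lp [k6,k8,k6,k6,k8,k6] [k1,k1,k0,k0,k1,k1,k1,k1,k0,k0,k1,k1] k0 [] k24 k5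
    [[(k7,k6)],[(k5,k6),(k11,k6),(k3,k7),(k9,k7)],[(k0,k7),(k6,k7),(k2,k8),(k8,k8)],[(k5,k7),(k11,k7),(k3,k8),(k9,
    k8)],[(k0,k6),(k6,k6),(k2,k7),(k8,k7)],[(k10,k6)],[(k1,k6)],[(k5,k6),(k11,k6),(k3,k7),(k9,k7)],[(k0,k7),(k6,k7),
    (k2,k8),(k8,k8)],[(k5,k7),(k11,k7),(k3,k8),(k9,k8)],[(k0,k6),(k6,k6),(k2,k7),(k8,k7)],[(k4,k6)]]
    [] k0
    []
    []]⟩

/-- classes `0 0 1 0 0 1`, types `C0 C0 N0 C0 C2 N1` -/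
noncomputable def cT6_720 : CertT :=
  ⟨[k4,k4,k28,k4,k6,k29],[(false,k0,[k0,k1,k2,k3,k4,k5])],[[[([z1,z1,z1,z0,z0,z0],z2)],[]]],
    [.leafM k0 [k2,k3,k4,k5,k0,k1] [(z1,[y1,z1])] [],
    .lp [k4,k4,k2,k4,k4,k4] [k0,k0,k0,k0,k1,k1,k0,k0,k0,k0,k0,k0] k0 [] k12 k5
    [[(k4,k3)],[(k5,k3),(k3,k4),(k8,k4),(k9,k4)],[(k0,k4),(k2,k4),(k6,k4),(k11,k4)],[(k5,k3),(k3,k4),(k8,k4),(k9,k4)],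
    [(k0,k3),(k2,k3),(k6,k3),(k11,k3)],[(k1,k3)],[(k10,k4)],[(k5,k3),(k3,k4),(k8,k4),(k9,k4)],[(k0,k4),(k2,k4),(k6,
    k4),(k11,k4)],[(k0,k4),(k2,k4),(k6,k4),(k11,k4)],[(k5,k3),(k3,k4),(k8,k4),(k9,k4)],[(k7,k4)]]
    [] k0
    [[k1,k1,k1,k0,k0,k0]]
    [.ref k0 k0 [(z1,[z1])]]]⟩

/-- classes `0 0 1 0 0 1`, types `C0 C0 N0 C0 C2 N2` -/
noncomputable def cT6_721 : CertT :=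
  ⟨[k4,k4,k28,k4,k6,k30],[(false,k0,[k0,k1,k2,k3,k4,k5])],[[[([z1,z0,z0,z1,z1,z0],z2)],[]]],
    [.leafM k3 [k4,k5,k0,k1,k2,k3] [(z1,[y1,z1])] [],
    .lp [k6,k4,k2,k4,k2,k4] [k0,k0,k1,k1,k2,k2,k1,k1,k2,k2,k1,k1] k0 [] k12 k5
    [[(k7,k5)],[(k5,k4),(k8,k4),(k9,k4),(k3,k5)],[(k2,k4),(k6,k4),(k11,k4),(k0,k5)],[(k5,k3),(k8,k3),(k9,k3),(k3,k4)],
    [(k2,k3),(k6,k3),(k11,k3),(k0,k4)],[(k10,k3)],[(k1,k5)],[(k5,k3),(k8,k3),(k9,k3),(k3,k4)],[(k2,k3),(k6,k3),(k11,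
    k3),(k0,k4)],[(k2,k3),(k6,k3),(k11,k3),(k0,k4)],[(k5,k3),(k8,k3),(k9,k3),(k3,k4)],[(k4,k3)]]
    [] k0
    [[k0,k1,k1,k0,k0,k1]]
    [.ref k0 k0 [(z1,[y1,z1])]]]⟩

/-- classes `0 0 1 0 0 1`, types `C0 C0 N0 C2 C2 N1` -/
noncomputable def cT6_722 : CertT :=
  ⟨[k4,k4,k28,k6,k6,k29],[(false,k0,[k0,k1,k2,k3,k4,k5])],[[[([z1,z0,z1,z0,z1,z0],z2)],[([z1,z1,z1,z0,z0,z0],z2)],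
    []]],
    [.leafM k5 [k1,k2,k3,k4,k5,k0] [(z1,[z1]),(z1,[y1,z1])] [],
    .leafM k0 [k2,k3,k4,k5,k0,k1] [(z1,[y1,z1])] [],
    .lp [k4,k6,k2,k2,k4,k4] [k1,k1,k0,k0,k2,k2,k2,k2,k1,k1,k1,k1] k0 [] k12 k5
    [[(k4,k3)],[(k5,k3),(k6,k3),(k8,k4),(k3,k5)],[(k0,k5),(k9,k5),(k11,k5),(k2,k6)],[(k5,k4),(k6,k4),(k8,k5),(k3,k6)],
    [(k0,k3),(k9,k3),(k11,k3),(k2,k4)],[(k1,k3)],[(k10,k3)],[(k0,k3),(k9,k3),(k11,k3),(k2,k4)],[(k5,k3),(k6,k3),(k8,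
    k4),(k3,k5)],[(k0,k4),(k9,k4),(k11,k4),(k2,k5)],[(k5,k3),(k6,k3),(k8,k4),(k3,k5)],[(k7,k3)]]
    [] k0
    [[k1,k0,k1,k0,k1,k0],[k0,k0,k0,k1,k1,k1]]
    [.ref k0 k0 [(z1,[z1])],.ref k1 k0 [(z1,[y1,z1])]]]⟩

/-- classes `0 0 1 0 0 1`, types `C0 C0 N0 C2 C2 N2` -/
noncomputable def cT6_723 : CertT :=
  ⟨[k4,k4,k28,k6,k6,k30],[(false,k0,[k0,k1,k2,k3,k4,k5]),(false,k3,[k3,k4,k5,k0,k1,k2])],[[[([z1,z0,z0,z1,z1,z0],z2)],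
    []]],
    [.leafM k3 [k4,k5,k0,k1,k2,k3] [(z1,[y1,z1])] [],
    .lp [k6,k4,k2,k2,k4,k4] [k0,k0,k1,k1,k2,k2,k2,k2,k1,k1,k1,k1] k0 [] k12 k5
    [[(k7,k4)],[(k5,k4),(k6,k4),(k3,k5),(k8,k5)],[(k2,k4),(k9,k4),(k11,k4),(k0,k5)],[(k5,k3),(k6,k3),(k3,k4),(k8,k4)],
    [(k2,k3),(k9,k3),(k11,k3),(k0,k4)],[(k10,k3)],[(k1,k4)],[(k2,k3),(k9,k3),(k11,k3),(k0,k4)],[(k5,k3),(k6,k3),(k3,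
    k4),(k8,k4)],[(k2,k4),(k9,k4),(k11,k4),(k0,k5)],[(k5,k3),(k6,k3),(k3,k4),(k8,k4)],[(k4,k3)]]
    [] k0
    [[k0,k1,k1,k0,k0,k1],[k0,k0,k1,k0,k1,k1]]
    [.ref k0 k0 [(z1,[y1,z1])],.ref k0 k1 [(z1,[y1,z1])]]]⟩

/-- classes `0 0 1 0 0 1`, types `C0 C0 S0 C0 C0 S0` -/
noncomputable def cT6_724 : CertT :=
  ⟨[k4,k4,k16,k4,k4,k16],[(false,k0,[k0,k1,k2,k3,k4,k5]),(true,k2,[k2,k1,k0,k5,k4,k3])],[[[([z1,z1,z1,z0,z0,z0],z2)],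
    [([z1,z0,z0,z0,z1,z1],z2)],[([z1,z0,z1,z0,z1,z0],z2)],[]]],
    [.leafM k0 [k2,k3,k4,k5,k0,k1] [(z1,[y1,z1])] [],
    .leafM k0 [k0,k1,k2,k3,k4,k5] [(z1,[y1,z1])] [],
    .leafM k1 [k0,k1,k2,k3,k4,k5] [(z1,[y1,z1]),(z1,[z1])] [],
    .lp [k6,k8,k8,k8,k10,k6] [k2,k2,k1,k1,k1,k1,k1,k1,k0,k0,k2,k2] k0 [] k24 k5
    [[(k1,k6),(k10,k6),(k4,k7),(k7,k7)],[(k11,k6),(k3,k7),(k5,k7),(k9,k8)],[(k0,k7),(k2,k8),(k6,k8),(k8,k9)],[(k11,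
    k7),(k3,k8),(k5,k8),(k9,k9)],[(k0,k7),(k2,k8),(k6,k8),(k8,k9)],[(k1,k7),(k10,k7),(k4,k8),(k7,k8)],[(k1,k7),(k10,
    k7),(k4,k8),(k7,k8)],[(k11,k7),(k3,k8),(k5,k8),(k9,k9)],[(k0,k8),(k2,k9),(k6,k9),(k8,k10)],[(k11,k8),(k3,k9),(k5,
    k9),(k9,k10)],[(k0,k6),(k2,k7),(k6,k7),(k8,k8)],[(k1,k6),(k10,k6),(k4,k7),(k7,k7)]]
    [] k0
    [[k1,k1,k1,k0,k0,k0],[k1,k1,k0,k0,k0,k1],[k1,k0,k0,k0,k1,k1],[k0,k1,k0,k1,k0,k1]]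
    [.ref k0 k0 [(z1,[z1])],.ref k1 k1 [(z1,[y1,z1])],.ref k1 k0 [(z1,[z1])],.ref k2 k0 [(z1,[y1,z1])]]]⟩

/-- classes `0 0 1 0 0 1`, types `C0 C0 S0 C0 C2 S0` -/
noncomputable def cT6_725 : CertT :=
  ⟨[k4,k4,k16,k4,k6,k16],[(false,k0,[k0,k1,k2,k3,k4,k5])],[[[([z1,z1,z1,z0,z0,z0],z2)],[([z1,z0,z0,z0,z1,z1],z2)],
    [([z1,z0,z0,z1,z1,z0],z2)],[]]],
    [.leafM k0 [k2,k3,k4,k5,k0,k1] [(z1,[y1,z1])] [],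
    .leafM k0 [k0,k1,k2,k3,k4,k5] [(z1,[y1,z1])] [],
    .leafM k3 [k4,k5,k0,k1,k2,k3] [(z1,[y1,z1])] [],
    .lp [k6,k8,k6,k6,k12,k6] [k3,k3,k2,k2,k3,k3,k3,k3,k0,k0,k3,k3] k0 [] k24 k5
    [[(k1,k6),(k4,k6),(k7,k6),(k10,k6)],[(k5,k6),(k3,k7),(k8,k9),(k9,k9)],[(k0,k7),(k6,k7),(k11,k7),(k2,k8)],[(k5,k7),
    (k3,k8),(k8,k10),(k9,k10)],[(k0,k6),(k6,k6),(k11,k6),(k2,k7)],[(k1,k6),(k4,k6),(k7,k6),(k10,k6)],[(k1,k6),(k4,k6),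
    (k7,k6),(k10,k6)],[(k5,k6),(k3,k7),(k8,k9),(k9,k9)],[(k0,k9),(k6,k9),(k11,k9),(k2,k10)],[(k0,k9),(k6,k9),(k11,k9),
    (k2,k10)],[(k5,k6),(k3,k7),(k8,k9),(k9,k9)],[(k1,k6),(k4,k6),(k7,k6),(k10,k6)]]
    [] k0
    [[k1,k1,k1,k0,k0,k0],[k0,k1,k1,k1,k0,k0],[k0,k1,k1,k0,k0,k1]]
    [.ref k0 k0 [(z1,[z1])],.ref k1 k0 [(z1,[y1,z1])],.ref k2 k0 [(z1,[y1,z1])]]]⟩

/-- classes `0 0 1 0 0 1`, types `C0 C0 S0 C2 C2 S0` -/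
noncomputable def cT6_726 : CertT :=
  ⟨[k4,k4,k16,k6,k6,k16],[(false,k3,[k3,k4,k5,k0,k1,k2]),(false,k0,[k0,k1,k2,k3,k4,k5])],[[[([z1,z0,z0,z1,z1,z0],z2)],
    [([z1,z0,z1,z0,z1,z0],z2)],[([z1,z1,z1,z0,z0,z0],z2)],[]]],
    [.leafM k3 [k4,k5,k0,k1,k2,k3] [(z1,[y1,z1])] [],
    .leafM k5 [k1,k2,k3,k4,k5,k0] [(z1,[z1]),(z1,[y1,z1])] [],
    .leafM k0 [k2,k3,k4,k5,k0,k1] [(z1,[y1,z1])] [],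
    .lp [k8,k8,k8,k6,k10,k6] [k1,k1,k1,k1,k1,k1,k2,k2,k0,k0,k2,k2] k0 [] k24 k5
    [[(k7,k7),(k10,k7),(k1,k8),(k4,k8)],[(k6,k7),(k3,k8),(k5,k8),(k8,k9)],[(k11,k7),(k0,k8),(k2,k8),(k9,k9)],[(k6,k7),
    (k3,k8),(k5,k8),(k8,k9)],[(k11,k7),(k0,k8),(k2,k8),(k9,k9)],[(k7,k7),(k10,k7),(k1,k8),(k4,k8)],[(k7,k6),(k10,k6),
    (k1,k7),(k4,k7)],[(k11,k6),(k0,k7),(k2,k7),(k9,k8)],[(k6,k8),(k3,k9),(k5,k9),(k8,k10)],[(k11,k8),(k0,k9),(k2,k9),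
    (k9,k10)],[(k6,k6),(k3,k7),(k5,k7),(k8,k8)],[(k7,k6),(k10,k6),(k1,k7),(k4,k7)]]
    [] k0
    [[k1,k1,k0,k1,k0,k0],[k0,k1,k1,k0,k0,k1],[k0,k1,k0,k1,k0,k1],[k0,k0,k0,k1,k1,k1]]
    [.ref k0 k0 [(z1,[z1])],.ref k0 k1 [(z1,[y1,z1])],.ref k1 k1 [(z1,[y1,z1])],.ref k2 k1 [(z1,[y1,z1])]]]⟩

/-- classes `0 0 1 0 0 1`, types `C0 C2 B0 C0 C2 B1` -/
noncomputable def cT6_727 : CertT :=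
  ⟨[k4,k6,k24,k4,k6,k25],[(false,k3,[k3,k4,k5,k0,k1,k2]),(false,k0,[k0,k1,k2,k3,k4,k5])],[[[([z1,z0,z0,z1,z1,z0],z2)],
    [([z1,z0,z1,z0,z1,z0],z2)],[([z1,z1,z1,z0,z0,z0],z2)],[]]],
    [.leafM k3 [k4,k5,k0,k1,k2,k3] [(z1,[y1,z1])] [],
    .leafM k1 [k0,k1,k2,k3,k4,k5] [(z1,[y1,z1]),(z1,[z1])] [],
    .leafM k0 [k2,k3,k4,k5,k0,k1] [(z1,[y1,z1])] [],
    .lp [k2,k2,k4,k2,k2,k2] [k1,k1,k1,k1,k0,k0,k1,k1,k1,k1,k1,k1] k0 [] k8 k5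
    [[(k7,k2),(k4,k3)],[(k2,k2),(k3,k2),(k8,k2),(k9,k2)],[(k0,k2),(k6,k2),(k11,k2),(k5,k3)],[(k0,k2),(k6,k2),(k11,k2),
    (k5,k3)],[(k2,k3),(k3,k3),(k8,k3),(k9,k3)],[(k1,k3),(k10,k3)],[(k1,k2),(k10,k2)],[(k2,k2),(k3,k2),(k8,k2),(k9,
    k2)],[(k0,k2),(k6,k2),(k11,k2),(k5,k3)],[(k0,k2),(k6,k2),(k11,k2),(k5,k3)],[(k2,k2),(k3,k2),(k8,k2),(k9,k2)],[(k7,
    k2),(k4,k3)]]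
    [] k0
    [[k1,k1,k0,k1,k0,k0],[k1,k0,k0,k1,k1,k0],[k0,k1,k0,k1,k0,k1],[k0,k0,k0,k1,k1,k1]]
    [.ref k0 k0 [(z1,[z1])],.ref k0 k1 [(z1,[z1])],.ref k1 k1 [(z1,[y1,z1])],.ref k2 k1 [(z1,[y1,z1])]]]⟩

/-- classes `0 0 1 0 0 1`, types `C0 C2 B0 C2 C0 B1` -/
noncomputable def cT6_728 : CertT :=
  ⟨[k4,k6,k24,k6,k4,k25],[(false,k0,[k0,k1,k2,k3,k4,k5])],[[[([z1,z1,z1,z0,z0,z0],z2)],[]]],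
    [.leafM k0 [k2,k3,k4,k5,k0,k1] [(z1,[y1,z1])] [],
    .lp [k4,k2,k2,k2,k2,k2] [k0,k0,k1,k1,k1,k1,k1,k1,k1,k1,k1,k1] k0 [] k8 k5
    [[(k4,k3),(k7,k3)],[(k2,k3),(k3,k3),(k6,k3),(k11,k3)],[(k5,k2),(k8,k2),(k9,k2),(k0,k3)],[(k5,k2),(k8,k2),(k9,k2),
    (k0,k3)],[(k2,k2),(k3,k2),(k6,k2),(k11,k2)],[(k10,k2),(k1,k3)],[(k10,k2),(k1,k3)],[(k5,k2),(k8,k2),(k9,k2),(k0,
    k3)],[(k2,k2),(k3,k2),(k6,k2),(k11,k2)],[(k2,k2),(k3,k2),(k6,k2),(k11,k2)],[(k5,k2),(k8,k2),(k9,k2),(k0,k3)],[(k4,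
    k2),(k7,k2)]]
    [] k0
    [[k0,k0,k0,k1,k1,k1]]
    [.ref k0 k0 [(z1,[y1,z1])]]]⟩

/-- classes `0 0 1 0 0 1`, types `C0 C2 C0 C0 C2 C0` -/
noncomputable def cT6_729 : CertT :=
  ⟨[k4,k6,k20,k4,k6,k20],[(false,k0,[k0,k1,k2,k3,k4,k5]),(true,k2,[k2,k1,k0,k5,k4,k3])],[[[([z1,z1,z1,z0,z0,z0],z2)],
    [([z1,z0,z1,z0,z1,z0],z2)],[([z1,z0,z0,z0,z1,z1],z2)],[]]],
    [.leafM k0 [k2,k3,k4,k5,k0,k1] [(z1,[y1,z1])] [],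
    .leafM k1 [k0,k1,k2,k3,k4,k5] [(z1,[y1,z1]),(z1,[z1])] [],
    .leafM k0 [k0,k1,k2,k3,k4,k5] [(z1,[y1,z1])] [],
    .lp [k2,k2,k2,k4,k2,k2] [k1,k1,k1,k1,k1,k1,k0,k0,k1,k1,k1,k1] k0 [] k8 k5
    [[(k4,k2),(k10,k2)],[(k2,k2),(k3,k2),(k8,k2),(k9,k2)],[(k0,k2),(k5,k2),(k11,k2),(k6,k3)],[(k0,k2),(k5,k2),(k11,
    k2),(k6,k3)],[(k2,k2),(k3,k2),(k8,k2),(k9,k2)],[(k1,k2),(k7,k3)],[(k4,k3),(k10,k3)],[(k2,k3),(k3,k3),(k8,k3),(k9,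
    k3)],[(k0,k2),(k5,k2),(k11,k2),(k6,k3)],[(k0,k2),(k5,k2),(k11,k2),(k6,k3)],[(k2,k2),(k3,k2),(k8,k2),(k9,k2)],[(k1,
    k2),(k7,k3)]]
    [] k0
    [[k1,k1,k1,k0,k0,k0],[k1,k0,k1,k0,k1,k0],[k1,k1,k0,k0,k0,k1],[k1,k0,k0,k0,k1,k1]]
    [.ref k0 k0 [(z1,[z1])],.ref k1 k0 [(z1,[z1])],.ref k2 k1 [(z1,[y1,z1])],.ref k2 k0 [(z1,[z1])]]]⟩

/-- classes `0 0 1 0 0 1`, types `C0 C2 C0 C0 C2 C2` -/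
noncomputable def cT6_730 : CertT :=
  ⟨[k4,k6,k20,k4,k6,k22],[(true,k2,[k2,k1,k0,k5,k4,k3]),(false,k0,[k0,k1,k2,k3,k4,k5]),(false,k3,[k3,k4,k5,k0,k1,
    k2])],[[[([z1,z0,z0,z0,z1,z1],z2)],[([z1,z0,z0,z1,z1,z0],z2)],[]]],
    [.leafM k0 [k0,k1,k2,k3,k4,k5] [(z1,[y1,z1])] [],
    .leafM k3 [k4,k5,k0,k1,k2,k3] [(z1,[y1,z1])] [],
    .lp [k6,k4,k4,k6,k6,k4] [k0,k0,k1,k1,k1,k1,k0,k0,k0,k0,k1,k1] k0 [] k16 k5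
    [[(k10,k5),(k7,k6)],[(k2,k5),(k3,k5),(k8,k6),(k9,k6)],[(k5,k4),(k11,k4),(k0,k5),(k6,k5)],[(k5,k4),(k11,k4),(k0,
    k5),(k6,k5)],[(k2,k4),(k3,k4),(k8,k5),(k9,k5)],[(k10,k4),(k7,k5)],[(k4,k5),(k1,k6)],[(k2,k5),(k3,k5),(k8,k6),(k9,
    k6)],[(k5,k5),(k11,k5),(k0,k6),(k6,k6)],[(k5,k5),(k11,k5),(k0,k6),(k6,k6)],[(k2,k4),(k3,k4),(k8,k5),(k9,k5)],[(k4,
    k4),(k1,k5)]]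
    [] k0
    [[k1,k1,k0,k0,k0,k1],[k0,k1,k1,k1,k0,k0],[k0,k1,k1,k0,k0,k1],[k0,k0,k1,k0,k1,k1]]
    [.ref k0 k0 [(z1,[y1,z1])],.ref k0 k1 [(z1,[y1,z1])],.ref k1 k1 [(z1,[y1,z1])],.ref k1 k2 [(z1,[y1,z1])]]]⟩

/-- classes `0 0 1 0 0 1`, types `C0 C2 C0 C2 C0 C0` -/
noncomputable def cT6_731 : CertT :=
  ⟨[k4,k6,k20,k6,k4,k20],[(false,k0,[k0,k1,k2,k3,k4,k5])],[[[([z1,z1,z1,z0,z0,z0],z2)],[]]],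
    [.leafM k0 [k2,k3,k4,k5,k0,k1] [(z1,[y1,z1])] [],
    .lp [k4,k2,k2,k2,k2,k2] [k0,k0,k1,k1,k1,k1,k1,k1,k1,k1,k1,k1] k0 [] k8 k5
    [[(k4,k3),(k10,k3)],[(k2,k3),(k3,k3),(k6,k3),(k11,k3)],[(k5,k2),(k8,k2),(k9,k2),(k0,k3)],[(k5,k2),(k8,k2),(k9,k2),
    (k0,k3)],[(k2,k2),(k3,k2),(k6,k2),(k11,k2)],[(k7,k2),(k1,k3)],[(k4,k2),(k10,k2)],[(k5,k2),(k8,k2),(k9,k2),(k0,
    k3)],[(k2,k2),(k3,k2),(k6,k2),(k11,k2)],[(k2,k2),(k3,k2),(k6,k2),(k11,k2)],[(k5,k2),(k8,k2),(k9,k2),(k0,k3)],[(k7,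
    k2),(k1,k3)]]
    [] k0
    [[k0,k0,k0,k1,k1,k1]]
    [.ref k0 k0 [(z1,[y1,z1])]]]⟩

/-- classes `0 0 1 0 0 1`, types `C0 C2 C0 C2 C0 C2` -/
noncomputable def cT6_732 : CertT :=
  ⟨[k4,k6,k20,k6,k4,k22],[],[[[]]],
    [.lp [k0,k2,k0,k2,k0,k2] [k1,k1,k0,k0,k1,k1,k0,k0,k1,k1,k0,k0] k0 [] k4 k5
    [[(k7,k1),(k10,k1)],[(k2,k1),(k3,k1),(k6,k1),(k11,k1)],[(k0,k1),(k5,k1),(k8,k1),(k9,k1)],[(k0,k1),(k5,k1),(k8,k1),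
    (k9,k1)],[(k2,k1),(k3,k1),(k6,k1),(k11,k1)],[(k7,k1),(k10,k1)],[(k1,k1),(k4,k1)],[(k0,k1),(k5,k1),(k8,k1),(k9,
    k1)],[(k2,k1),(k3,k1),(k6,k1),(k11,k1)],[(k2,k1),(k3,k1),(k6,k1),(k11,k1)],[(k0,k1),(k5,k1),(k8,k1),(k9,k1)],[(k1,
    k1),(k4,k1)]]
    [] k0
    []
    []]⟩

/-- classes `0 0 1 0 0 1`, types `C0 C2 N0 C0 C2 N1` -/
noncomputable def cT6_733 : CertT :=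
  ⟨[k4,k6,k28,k4,k6,k29],[(false,k0,[k0,k1,k2,k3,k4,k5])],[[[([z1,z1,z1,z0,z0,z0],z2)],[([z1,z0,z1,z0,z1,z0],z2)],
    []]],
    [.leafM k0 [k2,k3,k4,k5,k0,k1] [(z1,[y1,z1])] [],
    .leafM k1 [k0,k1,k2,k3,k4,k5] [(z1,[y1,z1]),(z1,[z1])] [],
    .lp [k2,k2,k2,k2,k2,k4] [k1,k1,k1,k1,k1,k1,k1,k1,k1,k1,k0,k0] k0 [] k8 k5
    [[(k4,k2)],[(k2,k2),(k3,k2),(k8,k2),(k9,k2)],[(k0,k2),(k5,k2),(k6,k2),(k11,k3)],[(k0,k2),(k5,k2),(k6,k2),(k11,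
    k3)],[(k2,k2),(k3,k2),(k8,k2),(k9,k2)],[(k1,k2)],[(k10,k3)],[(k2,k2),(k3,k2),(k8,k2),(k9,k2)],[(k0,k2),(k5,k2),
    (k6,k2),(k11,k3)],[(k0,k2),(k5,k2),(k6,k2),(k11,k3)],[(k2,k3),(k3,k3),(k8,k3),(k9,k3)],[(k7,k3)]]
    [] k0
    [[k1,k1,k1,k0,k0,k0],[k1,k0,k1,k0,k1,k0]]
    [.ref k0 k0 [(z1,[z1])],.ref k1 k0 [(z1,[z1])]]]⟩

/-- classes `0 0 1 0 0 1`, types `C0 C2 N0 C0 C2 N2` -/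
noncomputable def cT6_734 : CertT :=
  ⟨[k4,k6,k28,k4,k6,k30],[(false,k0,[k0,k1,k2,k3,k4,k5]),(false,k3,[k3,k4,k5,k0,k1,k2])],[[[([z1,z0,z0,z1,z1,z0],z2)],
    []]],
    [.leafM k3 [k4,k5,k0,k1,k2,k3] [(z1,[y1,z1])] [],
    .lp [k4,k2,k2,k2,k2,k2] [k0,k0,k1,k1,k1,k1,k1,k1,k1,k1,k1,k1] k0 [] k8 k5
    [[(k7,k3)],[(k2,k3),(k3,k3),(k8,k3),(k9,k3)],[(k5,k2),(k6,k2),(k11,k2),(k0,k3)],[(k5,k2),(k6,k2),(k11,k2),(k0,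
    k3)],[(k2,k2),(k3,k2),(k8,k2),(k9,k2)],[(k10,k2)],[(k1,k3)],[(k2,k2),(k3,k2),(k8,k2),(k9,k2)],[(k5,k2),(k6,k2),
    (k11,k2),(k0,k3)],[(k5,k2),(k6,k2),(k11,k2),(k0,k3)],[(k2,k2),(k3,k2),(k8,k2),(k9,k2)],[(k4,k2)]]
    [] k0
    [[k0,k1,k1,k0,k0,k1],[k0,k0,k1,k0,k1,k1]]
    [.ref k0 k0 [(z1,[y1,z1])],.ref k0 k1 [(z1,[y1,z1])]]]⟩

/-- classes `0 0 1 0 0 1`, types `C0 C2 N0 C2 C0 N1` -/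
noncomputable def cT6_735 : CertT :=
  ⟨[k4,k6,k28,k6,k4,k29],[(false,k0,[k0,k1,k2,k3,k4,k5])],[[[([z1,z1,z1,z0,z0,z0],z2)],[]]],
    [.leafM k0 [k2,k3,k4,k5,k0,k1] [(z1,[y1,z1])] [],
    .lp [k4,k2,k2,k2,k2,k2] [k0,k0,k1,k1,k1,k1,k1,k1,k1,k1,k1,k1] k0 [] k8 k5
    [[(k4,k3)],[(k2,k3),(k3,k3),(k6,k3),(k11,k3)],[(k5,k2),(k8,k2),(k9,k2),(k0,k3)],[(k5,k2),(k8,k2),(k9,k2),(k0,k3)],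
    [(k2,k2),(k3,k2),(k6,k2),(k11,k2)],[(k1,k3)],[(k10,k2)],[(k5,k2),(k8,k2),(k9,k2),(k0,k3)],[(k2,k2),(k3,k2),(k6,
    k2),(k11,k2)],[(k2,k2),(k3,k2),(k6,k2),(k11,k2)],[(k5,k2),(k8,k2),(k9,k2),(k0,k3)],[(k7,k2)]]
    [] k0
    [[k0,k0,k0,k1,k1,k1]]
    [.ref k0 k0 [(z1,[y1,z1])]]]⟩

/-- classes `0 0 1 0 0 1`, types `C0 C2 N0 C2 C0 N2` -/
noncomputable def cT6_736 : CertT :=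
  ⟨[k4,k6,k28,k6,k4,k30],[],[[[]]],
    [.lp [k0,k2,k0,k2,k0,k2] [k1,k1,k0,k0,k1,k1,k0,k0,k1,k1,k0,k0] k0 [] k4 k5
    [[(k7,k1)],[(k2,k1),(k3,k1),(k6,k1),(k11,k1)],[(k0,k1),(k5,k1),(k8,k1),(k9,k1)],[(k0,k1),(k5,k1),(k8,k1),(k9,k1)],
    [(k2,k1),(k3,k1),(k6,k1),(k11,k1)],[(k10,k1)],[(k1,k1)],[(k0,k1),(k5,k1),(k8,k1),(k9,k1)],[(k2,k1),(k3,k1),(k6,
    k1),(k11,k1)],[(k2,k1),(k3,k1),(k6,k1),(k11,k1)],[(k0,k1),(k5,k1),(k8,k1),(k9,k1)],[(k4,k1)]]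
    [] k0
    []
    []]⟩

/-- classes `0 0 1 0 0 1`, types `C0 C2 S0 C0 C2 S0` -/
noncomputable def cT6_737 : CertT :=
  ⟨[k4,k6,k16,k4,k6,k16],[(false,k0,[k0,k1,k2,k3,k4,k5]),(false,k3,[k3,k4,k5,k0,k1,k2]),(true,k5,[k5,k4,k3,k2,k1,k0]),
    (true,k2,[k2,k1,k0,k5,k4,k3])],[[[([z1,z1,z1,z0,z0,z0],z2)],[([z1,z0,z1,z0,z1,z0],z2)],[([z1,z0,z0,z1,z1,z0],z2)],
    [([z1,z0,z0,z0,z1,z1],z2)],[([z2,z0,z0,z0,z1,z0],z2),([z0,z2,z2,z0,y1,z0],z2)],[([z2,z0,z0,z0,z1,z0],z2),([z0,z1,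
    z0,z1,z0,z1],z2)],[([z2,z0,z0,z0,z1,z0],z2),([z0,z2,z0,z2,y1,z0],z2)],[([z1,z0,z0,y1,z0,z0],z0),([z0,z1,z0,z2,z0,
    z0],z2)],[([z1,z0,z0,z0,z0,y1],z0),([z0,z1,z0,z0,z0,z2],z2)],[([z1,z0,z0,y2,z0,z1],z0),([z0,z1,z0,z2,z0,z0],z2)],
    [([z2,z0,z0,z0,z1,z0],z2)],[([z1,z0,y1,z0,z0,z0],z0),([z0,z1,z2,z0,z0,z0],z2)]],[[([z1,z0,z0,z1,z0,y2],z0),([z0,
    z1,z1,z0,z0,z1],z2)],[([z1,z0,z0,z0,z1,z1],z2),([z0,z1,z0,z0,y2,y2],y2)],[([z2,z0,z0,y1,z0,y1],z0),([z0,z1,z0,z1,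
    z0,z1],z2)],[([z1,z0,y1,y1,y1,y1],y2)],[]]],
    [.leafM k0 [k2,k3,k4,k5,k0,k1] [(z1,[y1,z1])] [],
    .leafM k1 [k0,k1,k2,k3,k4,k5] [(z1,[y1,z1]),(z1,[z1])] [],
    .leafM k3 [k4,k5,k0,k1,k2,k3] [(z1,[y1,z1])] [],
    .leafM k0 [k0,k1,k2,k3,k4,k5] [(z1,[y1,z1])] [],
    .leafM k0 [k2,k3,k4,k5,k0,k1] [(z2,[y1,y1,z2])] [],
    .leafM k1 [k0,k1,k2,k3,k4,k5] [(z1,[z0,z1]),(z1,[z0,y1,z1])] [],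
    .leafM k3 [k1,k2,k3,k4,k5,k0] [(z2,[y1,y1,z2])] [],
    .leafM k3 [k1,k2,k3,k4,k5,k0] [(z1,[y1,y1,z1])] [],
    .leafM k0 [k1,k2,k3,k4,k5,k0] [(z1,[y1,y1,z1])] [],
    .leafM k0 [k1,k2,k3,k4,k5,k0] [(z1,[y1,y1,z1])] [],
    .lp [k12,k20,k14,k14,k16,k18] [k4,k4,k0,k0,k3,k3,k3,k3,k2,k2,k1,k1] k0 [[],[k0,k0,k0,k0,k0,k0,k0,k0,k2],[],[],[],[],
    [k0,k0,k0,k0,k0,k0,k0,k0,k0,k2],[],[k0,k0,k0,k0,k0,k0,k0,k2],[k2],[k0,k0,k0,k0,k0,k0,k0,k0,k0,k0,k0,k6]] k48 k5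
    [[(k4,k13),(k7,k13),(k10,k15),(k1,k18)],[(k9,k14),(k2,k16),(k3,k16),(k8,k16)],[(k0,k16),(k5,k17),(k6,k17),(k11,
    k17)],[(k0,k16),(k5,k17),(k6,k17),(k11,k19)],[(k8,k15),(k9,k15),(k2,k17),(k3,k17)],[(k1,k13),(k4,k14),(k7,k14),
    (k10,k16)],[(k1,k13),(k4,k14),(k7,k14),(k10,k16)],[(k8,k13),(k9,k15),(k2,k17),(k3,k17)],[(k0,k14),(k5,k15),(k6,
    k15),(k11,k19)],[(k6,k13),(k5,k15),(k0,k16),(k11,k17)],[(k3,k17),(k8,k17),(k2,k19),(k9,k19)],[(k10,k12),(k1,k15),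
    (k4,k16),(k7,k16)]]
    [] k0
    [[k1,k1,k1,k0,k0,k0],[k1,k0,k1,k0,k1,k0],[k1,k1,k0,k1,k0,k0],[k1,k0,k0,k1,k1,k0],[k1,k0,k0,k0,k1,k1],[k0,k0,k2,k0,
    k1,k0],[k0,k0,k1,k1,k1,k0],[k0,k0,k0,k2,k1,k0]]
    [.ref k4 k0 [(z1,[z0,z1]),(z1,[z2,y1])],.ref k5 k0 [(z1,[z0,z1]),(z1,[y1,z0,z1])],.ref k6 k0 [(z1,[z0,z1]),(z1,
    [z2,y1])],.ref k7 k1 [(z1,[z1,y1]),(z1,[z0,z1])],.ref k8 k2 [(z1,[z1,y1]),(z1,[z0,z1])],.ref k5 k0 [(z1,[z0,z1]),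
    (z2,[y1,y1,z2])],.ref k9 k1 [(z1,[z1,y1]),(z1,[z0,z1])],.ref k7 k1 [(z2,[z1,y1]),(z1,[z0,z1])]],
    .leafM k0 [k2,k3,k4,k5,k0,k1] [(z1,[y1,y1,z1])] [],
    .leafM k3 [k4,k5,k0,k1,k2,k3] [(z1,[z0,z1])] [],
    .leafM k0 [k0,k1,k2,k3,k4,k5] [(z1,[y1,z0,z1])] [],
    .leafM k1 [k0,k1,k2,k3,k4,k5] [(z1,[z0,z1]),(z1,[z0,y1,z1])] [],
    .lp [k16,k16,k14,k18,k18,k12] [k6,k0,k3,k3,k4,k4,k2,k2,k2,k2,k5,k5] k0 [[],[],[k0,k0,k0,k0,k0,k0,k0,k0,k2],[],[],[k0,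
    k0,k0,k0,k0,k0,k0,k0,k0,k0,k8],[k0,k0,k0,k0,k0,k0,k0,k0,k0,k6],[],[k0,k0,k0,k0,k0,k0,k0,k6],[k0,k0,k0,k2],[],[k0,
    k0,k0,k0,k8]] k48 k5
    [[(k7,k12),(k10,k17),(k4,k18),(k1,k22)],[(k2,k13),(k3,k13),(k8,k14),(k9,k14)],[(k0,k13),(k11,k14),(k5,k15),(k6,
    k17)],[(k11,k12),(k0,k13),(k5,k15),(k6,k17)],[(k2,k15),(k3,k15),(k9,k16),(k8,k18)],[(k4,k14),(k7,k16),(k1,k18),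
    (k10,k21)],[(k1,k12),(k10,k15),(k4,k16),(k7,k18)],[(k8,k12),(k2,k17),(k3,k17),(k9,k18)],[(k0,k14),(k5,k16),(k6,
    k18),(k11,k21)],[(k6,k12),(k0,k14),(k11,k15),(k5,k18)],[(k2,k12),(k3,k14),(k8,k15),(k9,k21)],[(k10,k12),(k7,k15),
    (k1,k17),(k4,k21)]]
    [] k0
    [[k1,k1,k1,k0,k0,k0],[k1,k1,k0,k1,k0,k0],[k1,k0,k0,k1,k1,k0],[k1,k1,k0,k0,k0,k1],[k1,k0,k0,k0,k1,k1],[k0,k1,k2,k0,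
    k0,k0],[k0,k1,k0,k1,k0,k1],[k0,k1,k0,k0,k0,k2],[k0,k0,k1,k1,k1,k0]]
    [.ref k11 k0 [(z1,[y1,z1,z1]),(z1,[z2,y1,y1])],.ref k7 k0 [(z1,[y1,z1,z1]),(z1,[z2,y1,y1])],.ref k12 k2 [(z1,[y1,
    y1]),(z1,[z1])],.ref k8 k0 [(z1,[y1,z1,z1]),(z1,[z2,y1,y1])],.ref k13 k0 [(z1,[z1]),(z1,[y2,z1,z1])],
    .ref k11 k0 [(z2,[y1,z1,z1]),(z1,[z1])],.ref k14 k0 [(z1,[y1,z1,z1]),(z1,[z1])],.ref k8 k0 [(z2,[y1,z1,z1]),(z1,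
    [z1])],.ref k8 k0 [(z1,[z1,z1]),(z1,[y2,y1,z1])]],
    .lp [k12,k20,k14,k14,k16,k18] [k4,k4,k0,k0,k3,k3,k3,k3,k2,k2,k1,k1] k0 [[],[k0,k0,k0,k0,k0,k0,k0,k0,k2],[],[],[],[],
    [k0,k0,k0,k0,k0,k0,k0,k0,k0,k2],[],[k0,k0,k0,k0,k0,k0,k0,k2],[k2],[k0,k0,k0,k0,k0,k0,k0,k0,k0,k0,k0,k6]] k48 k5
    [[(k4,k13),(k7,k13),(k10,k15),(k1,k18)],[(k9,k14),(k2,k16),(k3,k16),(k8,k16)],[(k0,k16),(k5,k17),(k6,k17),(k11,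
    k17)],[(k0,k16),(k5,k17),(k6,k17),(k11,k19)],[(k8,k15),(k9,k15),(k2,k17),(k3,k17)],[(k1,k13),(k4,k14),(k7,k14),
    (k10,k16)],[(k1,k13),(k4,k14),(k7,k14),(k10,k16)],[(k8,k13),(k9,k15),(k2,k17),(k3,k17)],[(k0,k14),(k5,k15),(k6,
    k15),(k11,k19)],[(k6,k13),(k5,k15),(k0,k16),(k11,k17)],[(k3,k17),(k8,k17),(k2,k19),(k9,k19)],[(k10,k12),(k1,k15),
    (k4,k16),(k7,k16)]]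
    [] k0
    [[k1,k1,k1,k0,k0,k0],[k1,k0,k1,k0,k1,k0],[k1,k1,k0,k1,k0,k0],[k1,k0,k0,k1,k1,k0],[k1,k0,k0,k0,k1,k1],[k0,k0,k2,k0,
    k1,k0],[k0,k0,k1,k1,k1,k0],[k0,k0,k0,k2,k1,k0]]
    [.ref k0 k0 [(z1,[z1])],.ref k1 k0 [(z1,[z1])],.ref k2 k1 [(z1,[z1])],.ref k2 k0 [(z1,[z1])],.ref k3 k0 [(z1,
    [z1])],.ref k10 k3 [(z1,[z1])],.ref k3 k3 [(z1,[z1])],.ref k15 k1 [(z1,[z1,y1])]]]⟩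

/-- classes `0 0 1 0 0 1`, types `C0 C2 S0 C2 C0 S0` -/
noncomputable def cT6_738 : CertT :=
  ⟨[k4,k6,k16,k6,k4,k16],[(false,k0,[k0,k1,k2,k3,k4,k5]),(true,k5,[k5,k4,k3,k2,k1,k0])],[[[([z1,z1,z1,z0,z0,z0],z2)],
    [([z1,z0,y1,z0,z0,z0],z0),([z0,z1,z2,z0,z0,z0],z2)],[([z1,z0,y1,y1,y1,y1],y2)],[]]],
    [.leafM k0 [k2,k3,k4,k5,k0,k1] [(z1,[y1,z1])] [],
    .leafM k0 [k2,k3,k4,k5,k0,k1] [(z1,[y1,y1,z1])] [],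
    .lp [k6,k4,k4,k6,k4,k6] [k0,k0,k1,k1,k1,k1,k0,k0,k1,k1,k0,k0] k0 [] k16 k5
    [[(k4,k5),(k1,k6),(k7,k6),(k10,k6)],[(k2,k5),(k3,k5),(k6,k6),(k11,k6)],[(k5,k4),(k8,k4),(k9,k4),(k0,k5)],[(k5,k4),
    (k8,k4),(k9,k4),(k0,k5)],[(k2,k4),(k3,k4),(k6,k5),(k11,k5)],[(k4,k4),(k1,k5),(k7,k5),(k10,k5)],[(k4,k5),(k1,k6),
    (k7,k6),(k10,k6)],[(k5,k5),(k8,k5),(k9,k5),(k0,k6)],[(k2,k4),(k3,k4),(k6,k5),(k11,k5)],[(k2,k4),(k3,k4),(k6,k5),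
    (k11,k5)],[(k5,k5),(k8,k5),(k9,k5),(k0,k6)],[(k4,k5),(k1,k6),(k7,k6),(k10,k6)]]
    [] k0
    [[k1,k1,k1,k0,k0,k0],[k0,k1,k2,k0,k0,k0]]
    [.ref k1 k0 [(z1,[y1,z1,z1]),(z1,[z2,y1,y1])],.ref k1 k0 [(z2,[y1,z1,z1]),(z1,[z1])]],
    .lp [k8,k8,k8,k10,k6,k6] [k1,k1,k1,k1,k1,k1,k0,k0,k2,k2,k2,k2] k0 [[],[],[],[],[k0,k0,k0,k0,k0,k0,k0,k0,k0,k0,k2],[],
    [],[],[],[],[],[k0,k0,k0,k0,k0,k2]] k24 k5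
    [[(k4,k6),(k10,k7),(k1,k8),(k7,k9)],[(k11,k7),(k2,k8),(k3,k8),(k6,k9)],[(k8,k7),(k9,k7),(k0,k8),(k5,k8)],[(k8,k7),
    (k9,k7),(k0,k8),(k5,k8)],[(k11,k7),(k2,k8),(k3,k8),(k6,k9)],[(k1,k6),(k10,k7),(k4,k8),(k7,k9)],[(k1,k9),(k4,k9),
    (k7,k10),(k10,k10)],[(k8,k8),(k9,k8),(k0,k9),(k5,k9)],[(k11,k6),(k2,k7),(k3,k7),(k6,k8)],[(k11,k6),(k2,k7),(k3,
    k7),(k6,k8)],[(k8,k6),(k9,k6),(k0,k7),(k5,k7)],[(k10,k6),(k1,k7),(k4,k7),(k7,k10)]]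
    [] k0
    [[k1,k1,k1,k0,k0,k0],[k0,k0,k0,k0,k1,k2]]
    [.ref k0 k0 [(z1,[z1])],.ref k2 k1 [(z1,[z1,y1])]]]⟩

/-- classes `0 0 1 0 0 1`, types `N0 N0 B0 N1 N1 B1` -/
noncomputable def cT6_739 : CertT :=
  ⟨[k12,k12,k24,k13,k13,k25],[(false,k0,[k0,k1,k2,k3,k4,k5])],[[[([z1,z0,z1,z0,z1,z0],z2)],[]]],
    [.leafM k1 [k0,k1,k2,k3,k4,k5] [(z1,[y1,z1]),(z1,[z1])] [],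
    .lp [k4,k2,k2,k2,k2,k2] [k0,k0,k1,k1,k1,k1,k1,k1,k1,k1,k1,k1] k0 [] k8 k5
    [[(k4,k3),(k7,k3)],[(k9,k3),(k11,k3)],[(k6,k2),(k8,k2)],[(k9,k2),(k11,k2)],[(k6,k2),(k8,k2)],[(k10,k2),(k1,k3)],
    [(k10,k2),(k1,k3)],[(k3,k2),(k5,k2)],[(k2,k2),(k0,k3)],[(k3,k2),(k5,k2)],[(k2,k2),(k0,k3)],[(k4,k2),(k7,k2)]]
    [] k0
    [[k0,k1,k0,k1,k0,k1]]
    [.ref k0 k0 [(z1,[y1,z1])]]]⟩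

/-- classes `0 0 1 0 0 1`, types `N0 N0 B0 N1 N2 B1` -/
noncomputable def cT6_740 : CertT :=
  ⟨[k12,k12,k24,k13,k14,k25],[],[[[]]],
    [.lp [k2,k2,k2,k2,k2,k2] [k0,k0,k0,k0,k0,k0,k0,k0,k0,k0,k0,k0] k0 [] k8 k5
    [[(k4,k2),(k7,k2)],[(k8,k2),(k9,k2)],[(k6,k2),(k11,k2)],[(k8,k2),(k9,k2)],[(k6,k2),(k11,k2)],[(k1,k2),(k10,k2)],
    [(k1,k2),(k10,k2)],[(k3,k2),(k5,k2)],[(k0,k2),(k2,k2)],[(k0,k2),(k2,k2)],[(k3,k2),(k5,k2)],[(k4,k2),(k7,k2)]]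
    [] k0
    []
    []]⟩

/-- classes `0 0 1 0 0 1`, types `N0 N0 B0 N2 N2 B1` -/
noncomputable def cT6_741 : CertT :=
  ⟨[k12,k12,k24,k14,k14,k25],[(false,k0,[k0,k1,k2,k3,k4,k5])],[[[([z1,z0,z1,z0,z1,z0],z2)],[]]],
    [.leafM k5 [k1,k2,k3,k4,k5,k0] [(z1,[z1]),(z1,[y1,z1])] [],
    .lp [k4,k2,k2,k2,k2,k2] [k0,k0,k1,k1,k1,k1,k1,k1,k1,k1,k1,k1] k0 [] k8 k5
    [[(k4,k3),(k7,k3)],[(k6,k3),(k8,k3)],[(k9,k2),(k11,k2)],[(k6,k2),(k8,k2)],[(k9,k2),(k11,k2)],[(k10,k2),(k1,k3)],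
    [(k10,k2),(k1,k3)],[(k2,k2),(k0,k3)],[(k3,k2),(k5,k2)],[(k2,k2),(k0,k3)],[(k3,k2),(k5,k2)],[(k4,k2),(k7,k2)]]
    [] k0
    [[k0,k1,k0,k1,k0,k1]]
    [.ref k0 k0 [(z1,[y1,z1])]]]⟩

/-- classes `0 0 1 0 0 1`, types `N0 N0 C0 N1 N1 C0` -/
noncomputable def cT6_742 : CertT :=
  ⟨[k12,k12,k20,k13,k13,k20],[(false,k0,[k0,k1,k2,k3,k4,k5])],[[[([z1,z0,z1,z0,z1,z0],z2)],[]]],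
    [.leafM k1 [k0,k1,k2,k3,k4,k5] [(z1,[y1,z1]),(z1,[z1])] [],
    .lp [k2,k2,k4,k2,k2,k2] [k1,k1,k1,k1,k0,k0,k1,k1,k1,k1,k1,k1] k0 [] k8 k5
    [[(k10,k2),(k4,k3)],[(k9,k2),(k11,k2)],[(k6,k2),(k8,k2)],[(k9,k2),(k11,k2)],[(k6,k3),(k8,k3)],[(k1,k3),(k7,k3)],
    [(k10,k2),(k4,k3)],[(k3,k2),(k5,k3)],[(k0,k2),(k2,k2)],[(k3,k2),(k5,k3)],[(k0,k2),(k2,k2)],[(k1,k2),(k7,k2)]]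
    [] k0
    [[k0,k1,k0,k1,k0,k1]]
    [.ref k0 k0 [(z1,[y1,z1])]]]⟩

/-- classes `0 0 1 0 0 1`, types `N0 N0 C0 N1 N1 C2` -/
noncomputable def cT6_743 : CertT :=
  ⟨[k12,k12,k20,k13,k13,k22],[],[[[]]],
    [.lp [k2,k2,k2,k0,k0,k0] [k0,k0,k0,k0,k0,k0,k1,k1,k1,k1,k1,k1] k0 [] k4 k5
    [[(k7,k1),(k10,k1)],[(k9,k1),(k11,k1)],[(k6,k1),(k8,k1)],[(k9,k1),(k11,k1)],[(k6,k1),(k8,k1)],[(k7,k1),(k10,k1)],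
    [(k1,k1),(k4,k1)],[(k3,k1),(k5,k1)],[(k0,k1),(k2,k1)],[(k3,k1),(k5,k1)],[(k0,k1),(k2,k1)],[(k1,k1),(k4,k1)]]
    [] k0
    []
    []]⟩

/-- classes `0 0 1 0 0 1`, types `N0 N0 C0 N1 N2 C0` -/
noncomputable def cT6_744 : CertT :=
  ⟨[k12,k12,k20,k13,k14,k20],[],[[[]]],
    [.lp [k2,k2,k2,k2,k2,k2] [k0,k0,k0,k0,k0,k0,k0,k0,k0,k0,k0,k0] k0 [] k8 k5
    [[(k4,k2),(k10,k2)],[(k8,k2),(k9,k2)],[(k6,k2),(k11,k2)],[(k8,k2),(k9,k2)],[(k6,k2),(k11,k2)],[(k1,k2),(k7,k2)],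
    [(k4,k2),(k10,k2)],[(k3,k2),(k5,k2)],[(k0,k2),(k2,k2)],[(k0,k2),(k2,k2)],[(k3,k2),(k5,k2)],[(k1,k2),(k7,k2)]]
    [] k0
    []
    []]⟩

/-- classes `0 0 1 0 0 1`, types `N0 N0 C0 N1 N2 C2` -/
noncomputable def cT6_745 : CertT :=
  ⟨[k12,k12,k20,k13,k14,k22],[],[[[]]],
    [.lp [k2,k2,k2,k0,k0,k0] [k0,k0,k0,k0,k0,k0,k1,k1,k1,k1,k1,k1] k0 [] k4 k5
    [[(k7,k1),(k10,k1)],[(k8,k1),(k9,k1)],[(k6,k1),(k11,k1)],[(k8,k1),(k9,k1)],[(k6,k1),(k11,k1)],[(k7,k1),(k10,k1)],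
    [(k1,k1),(k4,k1)],[(k3,k1),(k5,k1)],[(k0,k1),(k2,k1)],[(k0,k1),(k2,k1)],[(k3,k1),(k5,k1)],[(k1,k1),(k4,k1)]]
    [] k0
    []
    []]⟩

/-- classes `0 0 1 0 0 1`, types `N0 N0 C0 N2 N2 C0` -/
noncomputable def cT6_746 : CertT :=
  ⟨[k12,k12,k20,k14,k14,k20],[(false,k0,[k0,k1,k2,k3,k4,k5])],[[[([z1,z0,z1,z0,z1,z0],z2)],[]]],
    [.leafM k5 [k1,k2,k3,k4,k5,k0] [(z1,[z1]),(z1,[y1,z1])] [],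
    .lp [k2,k4,k2,k2,k2,k2] [k1,k1,k0,k0,k1,k1,k1,k1,k1,k1,k1,k1] k0 [] k8 k5
    [[(k4,k2),(k10,k2)],[(k6,k2),(k8,k2)],[(k9,k3),(k11,k3)],[(k6,k3),(k8,k3)],[(k9,k2),(k11,k2)],[(k1,k2),(k7,k2)],
    [(k4,k2),(k10,k2)],[(k0,k2),(k2,k3)],[(k5,k2),(k3,k3)],[(k0,k2),(k2,k3)],[(k5,k2),(k3,k3)],[(k1,k2),(k7,k2)]]
    [] k0
    [[k1,k0,k1,k0,k1,k0]]
    [.ref k0 k0 [(z1,[z1])]]]⟩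

/-- classes `0 0 1 0 0 1`, types `N0 N0 C0 N2 N2 C2` -/
noncomputable def cT6_747 : CertT :=
  ⟨[k12,k12,k20,k14,k14,k22],[],[[[]]],
    [.lp [k2,k2,k2,k0,k0,k0] [k0,k0,k0,k0,k0,k0,k1,k1,k1,k1,k1,k1] k0 [] k4 k5
    [[(k7,k1),(k10,k1)],[(k6,k1),(k8,k1)],[(k9,k1),(k11,k1)],[(k6,k1),(k8,k1)],[(k9,k1),(k11,k1)],[(k7,k1),(k10,k1)],
    [(k1,k1),(k4,k1)],[(k0,k1),(k2,k1)],[(k3,k1),(k5,k1)],[(k0,k1),(k2,k1)],[(k3,k1),(k5,k1)],[(k1,k1),(k4,k1)]]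
    [] k0
    []
    []]⟩

/-- classes `0 0 1 0 0 1`, types `N0 N0 N0 N1 N1 N1` -/
noncomputable def cT6_748 : CertT :=
  ⟨[k12,k12,k28,k13,k13,k29],[(false,k0,[k0,k1,k2,k3,k4,k5])],[[[([z1,z0,z1,z0,z1,z0],z2)],[]]],
    [.leafM k1 [k0,k1,k2,k3,k4,k5] [(z1,[y1,z1]),(z1,[z1])] [],
    .lp [k2,k2,k4,k2,k2,k2] [k1,k1,k1,k1,k0,k0,k1,k1,k1,k1,k1,k1] k0 [] k8 k5
    [[(k4,k3)],[(k9,k2),(k11,k2)],[(k6,k2),(k8,k2)],[(k9,k2),(k11,k2)],[(k6,k3),(k8,k3)],[(k1,k3)],[(k10,k2)],[(k3,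
    k2),(k5,k3)],[(k0,k2),(k2,k2)],[(k3,k2),(k5,k3)],[(k0,k2),(k2,k2)],[(k7,k2)]]
    [] k0
    [[k0,k1,k0,k1,k0,k1]]
    [.ref k0 k0 [(z1,[y1,z1])]]]⟩

/-- classes `0 0 1 0 0 1`, types `N0 N0 N0 N1 N1 N2` -/
noncomputable def cT6_749 : CertT :=
  ⟨[k12,k12,k28,k13,k13,k30],[],[[[]]],
    [.lp [k2,k2,k2,k0,k0,k0] [k0,k0,k0,k0,k0,k0,k1,k1,k1,k1,k1,k1] k0 [] k4 k5
    [[(k7,k1)],[(k9,k1),(k11,k1)],[(k6,k1),(k8,k1)],[(k9,k1),(k11,k1)],[(k6,k1),(k8,k1)],[(k10,k1)],[(k1,k1)],[(k3,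
    k1),(k5,k1)],[(k0,k1),(k2,k1)],[(k3,k1),(k5,k1)],[(k0,k1),(k2,k1)],[(k4,k1)]]
    [] k0
    []
    []]⟩

/-- classes `0 0 1 0 0 1`, types `N0 N0 N0 N1 N2 N1` -/
noncomputable def cT6_750 : CertT :=
  ⟨[k12,k12,k28,k13,k14,k29],[],[[[]]],
    [.lp [k2,k2,k2,k2,k2,k2] [k0,k0,k0,k0,k0,k0,k0,k0,k0,k0,k0,k0] k0 [] k8 k5
    [[(k4,k2)],[(k8,k2),(k9,k2)],[(k6,k2),(k11,k2)],[(k8,k2),(k9,k2)],[(k6,k2),(k11,k2)],[(k1,k2)],[(k10,k2)],[(k3,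
    k2),(k5,k2)],[(k0,k2),(k2,k2)],[(k0,k2),(k2,k2)],[(k3,k2),(k5,k2)],[(k7,k2)]]
    [] k0
    []
    []]⟩

/-- classes `0 0 1 0 0 1`, types `N0 N0 N0 N1 N2 N2` -/
noncomputable def cT6_751 : CertT :=
  ⟨[k12,k12,k28,k13,k14,k30],[],[[[]]],
    [.lp [k2,k2,k2,k0,k0,k0] [k0,k0,k0,k0,k0,k0,k1,k1,k1,k1,k1,k1] k0 [] k4 k5
    [[(k7,k1)],[(k8,k1),(k9,k1)],[(k6,k1),(k11,k1)],[(k8,k1),(k9,k1)],[(k6,k1),(k11,k1)],[(k10,k1)],[(k1,k1)],[(k3,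
    k1),(k5,k1)],[(k0,k1),(k2,k1)],[(k0,k1),(k2,k1)],[(k3,k1),(k5,k1)],[(k4,k1)]]
    [] k0
    []
    []]⟩

/-- classes `0 0 1 0 0 1`, types `N0 N0 N0 N2 N2 N1` -/
noncomputable def cT6_752 : CertT :=
  ⟨[k12,k12,k28,k14,k14,k29],[(false,k0,[k0,k1,k2,k3,k4,k5])],[[[([z1,z0,z1,z0,z1,z0],z2)],[]]],
    [.leafM k5 [k1,k2,k3,k4,k5,k0] [(z1,[z1]),(z1,[y1,z1])] [],
    .lp [k2,k4,k2,k2,k2,k2] [k1,k1,k0,k0,k1,k1,k1,k1,k1,k1,k1,k1] k0 [] k8 k5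
    [[(k4,k2)],[(k6,k2),(k8,k2)],[(k9,k3),(k11,k3)],[(k6,k3),(k8,k3)],[(k9,k2),(k11,k2)],[(k1,k2)],[(k10,k2)],[(k0,
    k2),(k2,k3)],[(k5,k2),(k3,k3)],[(k0,k2),(k2,k3)],[(k5,k2),(k3,k3)],[(k7,k2)]]
    [] k0
    [[k1,k0,k1,k0,k1,k0]]
    [.ref k0 k0 [(z1,[z1])]]]⟩

/-- classes `0 0 1 0 0 1`, types `N0 N0 N0 N2 N2 N2` -/
noncomputable def cT6_753 : CertT :=
  ⟨[k12,k12,k28,k14,k14,k30],[],[[[]]],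
    [.lp [k2,k2,k2,k0,k0,k0] [k0,k0,k0,k0,k0,k0,k1,k1,k1,k1,k1,k1] k0 [] k4 k5
    [[(k7,k1)],[(k6,k1),(k8,k1)],[(k9,k1),(k11,k1)],[(k6,k1),(k8,k1)],[(k9,k1),(k11,k1)],[(k10,k1)],[(k1,k1)],[(k0,
    k1),(k2,k1)],[(k3,k1),(k5,k1)],[(k0,k1),(k2,k1)],[(k3,k1),(k5,k1)],[(k4,k1)]]
    [] k0
    []
    []]⟩

/-- classes `0 0 1 0 0 1`, types `N0 N0 S0 N1 N1 S0` -/
noncomputable def cT6_754 : CertT :=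
  ⟨[k12,k12,k16,k13,k13,k16],[(false,k0,[k0,k1,k2,k3,k4,k5])],[[[([z1,z0,z1,z0,z1,z0],z2)],[]]],
    [.leafM k1 [k0,k1,k2,k3,k4,k5] [(z1,[y1,z1]),(z1,[z1])] [],
    .lp [k2,k2,k2,k2,k2,k4] [k1,k1,k1,k1,k1,k1,k1,k1,k1,k1,k0,k0] k0 [] k8 k5
    [[(k1,k2),(k4,k2),(k7,k2),(k10,k3)],[(k9,k2),(k11,k3)],[(k6,k2),(k8,k2)],[(k9,k2),(k11,k3)],[(k6,k2),(k8,k2)],
    [(k1,k2),(k4,k2),(k7,k2),(k10,k3)],[(k1,k2),(k4,k2),(k7,k2),(k10,k3)],[(k3,k2),(k5,k2)],[(k0,k2),(k2,k2)],[(k3,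
    k2),(k5,k2)],[(k0,k3),(k2,k3)],[(k1,k3),(k4,k3),(k7,k3),(k10,k4)]]
    [] k0
    [[k1,k0,k1,k0,k1,k0]]
    [.ref k0 k0 [(z1,[z1])]]]⟩

/-- classes `0 0 1 0 0 1`, types `N0 N0 S0 N1 N2 S0` -/
noncomputable def cT6_755 : CertT :=
  ⟨[k12,k12,k16,k13,k14,k16],[],[[[]]],
    [.lp [k6,k4,k4,k4,k4,k4] [k0,k0,k1,k1,k1,k1,k1,k1,k1,k1,k1,k1] k0 [] k16 k5
    [[(k4,k5),(k7,k5),(k10,k5),(k1,k6)],[(k8,k5),(k9,k5)],[(k6,k4),(k11,k4)],[(k8,k4),(k9,k4)],[(k6,k4),(k11,k4)],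
    [(k4,k4),(k7,k4),(k10,k4),(k1,k5)],[(k4,k4),(k7,k4),(k10,k4),(k1,k5)],[(k3,k4),(k5,k4)],[(k2,k4),(k0,k5)],[(k2,
    k4),(k0,k5)],[(k3,k4),(k5,k4)],[(k4,k4),(k7,k4),(k10,k4),(k1,k5)]]
    [] k0
    []
    []]⟩

/-- classes `0 0 1 0 0 1`, types `N0 N0 S0 N2 N2 S0` -/
noncomputable def cT6_756 : CertT :=
  ⟨[k12,k12,k16,k14,k14,k16],[(false,k0,[k0,k1,k2,k3,k4,k5])],[[[([z1,z0,z1,z0,z1,z0],z2)],[]]],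
    [.leafM k5 [k1,k2,k3,k4,k5,k0] [(z1,[z1]),(z1,[y1,z1])] [],
    .lp [k2,k2,k2,k2,k2,k4] [k1,k1,k1,k1,k1,k1,k1,k1,k1,k1,k0,k0] k0 [] k8 k5
    [[(k1,k2),(k4,k2),(k7,k2),(k10,k3)],[(k6,k2),(k8,k2)],[(k9,k2),(k11,k3)],[(k6,k2),(k8,k2)],[(k9,k2),(k11,k3)],
    [(k1,k2),(k4,k2),(k7,k2),(k10,k3)],[(k1,k2),(k4,k2),(k7,k2),(k10,k3)],[(k0,k2),(k2,k2)],[(k3,k2),(k5,k2)],[(k0,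
    k2),(k2,k2)],[(k3,k3),(k5,k3)],[(k1,k3),(k4,k3),(k7,k3),(k10,k4)]]
    [] k0
    [[k1,k0,k1,k0,k1,k0]]
    [.ref k0 k0 [(z1,[z1])]]]⟩

/-- classes `0 0 1 0 0 1`, types `N0 N1 B0 N0 N1 B1` -/
noncomputable def cT6_757 : CertT :=
  ⟨[k12,k13,k24,k12,k13,k25],[],[[[]]],
    [.lp [k6,k8,k6,k6,k8,k6] [k1,k1,k0,k0,k1,k1,k1,k1,k0,k0,k1,k1] k0 [] k24 k5
    [[(k4,k6),(k7,k6)],[(k5,k6),(k11,k6)],[(k2,k8),(k8,k8)],[(k3,k8),(k9,k8)],[(k0,k6),(k6,k6)],[(k1,k6),(k10,k6)],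
    [(k1,k6),(k10,k6)],[(k5,k6),(k11,k6)],[(k2,k8),(k8,k8)],[(k3,k8),(k9,k8)],[(k0,k6),(k6,k6)],[(k4,k6),(k7,k6)]]
    [] k0
    []
    []]⟩

/-- classes `0 0 1 0 0 1`, types `N0 N1 B0 N0 N2 B1` -/
noncomputable def cT6_758 : CertT :=
  ⟨[k12,k13,k24,k12,k14,k25],[],[[[]]],
    [.lp [k10,k8,k2,k10,k4,k10] [k0,k0,k1,k1,k4,k4,k0,k0,k3,k3,k0,k0] k0 [] k24 k5
    [[(k4,k6),(k7,k10)],[(k5,k6),(k8,k7)],[(k2,k8),(k11,k9)],[(k9,k6),(k3,k8)],[(k0,k6),(k6,k6)],[(k1,k6),(k10,k6)],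
    [(k1,k10),(k10,k10)],[(k5,k6),(k8,k7)],[(k2,k6),(k11,k7)],[(k0,k7),(k6,k7)],[(k9,k7),(k3,k9)],[(k4,k6),(k7,k10)]]
    [] k0
    []
    []]⟩

/-- classes `0 0 1 0 0 1`, types `N0 N1 B0 N1 N0 B1` -/
noncomputable def cT6_759 : CertT :=
  ⟨[k12,k13,k24,k13,k12,k25],[(false,k0,[k0,k1,k2,k3,k4,k5])],[[[([z1,z0,z1,z0,z1,z0],z2)],[]]],
    [.leafM k1 [k0,k1,k2,k3,k4,k5] [(z1,[y1,z1]),(z1,[z1])] [],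
    .lp [k4,k6,k2,k2,k4,k4] [k1,k1,k0,k0,k2,k2,k2,k2,k1,k1,k1,k1] k0 [] k12 k5
    [[(k4,k3),(k7,k3)],[(k5,k3),(k9,k4)],[(k6,k4),(k2,k6)],[(k11,k5),(k3,k6)],[(k0,k3),(k8,k3)],[(k1,k3),(k10,k3)],
    [(k1,k3),(k10,k3)],[(k11,k3),(k3,k4)],[(k0,k4),(k8,k4)],[(k5,k3),(k9,k4)],[(k6,k3),(k2,k5)],[(k4,k3),(k7,k3)]]
    [] k0
    [[k1,k0,k1,k0,k1,k0]]
    [.ref k0 k0 [(z1,[z1])]]]⟩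

/-- classes `0 0 1 0 0 1`, types `N0 N1 B0 N1 N3 B1` -/
noncomputable def cT6_760 : CertT :=
  ⟨[k12,k13,k24,k13,k15,k25],[],[[[]]],
    [.lp [k6,k4,k0,k2,k4,k6] [k0,k0,k1,k1,k3,k3,k2,k2,k1,k1,k0,k0] k0 [] k12 k5
    [[(k4,k3),(k7,k4)],[(k5,k3),(k9,k5)],[(k6,k3),(k2,k4)],[(k3,k4),(k8,k4)],[(k0,k3),(k11,k3)],[(k1,k3),(k10,k3)],
    [(k1,k4),(k10,k4)],[(k3,k3),(k8,k3)],[(k0,k5),(k11,k5)],[(k6,k3),(k2,k4)],[(k5,k3),(k9,k5)],[(k4,k3),(k7,k4)]]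
    [] k0
    []
    []]⟩

/-- classes `0 0 1 0 0 1`, types `N0 N1 B0 N2 N3 B1` -/
noncomputable def cT6_761 : CertT :=
  ⟨[k12,k13,k24,k14,k15,k25],[],[[[]]],
    [.lp [k6,k4,k0,k0,k4,k6] [k0,k0,k1,k1,k3,k3,k3,k3,k1,k1,k0,k0] k0 [] k12 k5
    [[(k4,k3),(k7,k3)],[(k5,k3),(k6,k3)],[(k2,k4),(k9,k4)],[(k3,k4),(k8,k4)],[(k0,k3),(k11,k3)],[(k1,k3),(k10,k3)],
    [(k1,k3),(k10,k3)],[(k0,k3),(k11,k3)],[(k3,k4),(k8,k4)],[(k2,k4),(k9,k4)],[(k5,k3),(k6,k3)],[(k4,k3),(k7,k3)]]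
    [] k0
    []
    []]⟩

/-- classes `0 0 1 0 0 1`, types `N0 N1 B0 N3 N2 B1` -/
noncomputable def cT6_762 : CertT :=
  ⟨[k12,k13,k24,k15,k14,k25],[(false,k0,[k0,k1,k2,k3,k4,k5])],[[[([z1,z0,z1,z0,z1,z0],z2)],[]]],
    [.leafM k5 [k1,k2,k3,k4,k5,k0] [(z1,[z1]),(z1,[y1,z1])] [],
    .lp [k4,k6,k2,k2,k4,k4] [k1,k1,k0,k0,k2,k2,k2,k2,k1,k1,k1,k1] k0 [] k12 k5
    [[(k4,k3),(k7,k3)],[(k5,k3),(k8,k4)],[(k11,k5),(k2,k6)],[(k6,k4),(k3,k6)],[(k0,k3),(k9,k3)],[(k1,k3),(k10,k3)],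
    [(k1,k3),(k10,k3)],[(k11,k3),(k2,k4)],[(k5,k3),(k8,k4)],[(k0,k4),(k9,k4)],[(k6,k3),(k3,k5)],[(k4,k3),(k7,k3)]]
    [] k0
    [[k1,k0,k1,k0,k1,k0]]
    [.ref k0 k0 [(z1,[z1])]]]⟩

/-- classes `0 0 1 0 0 1`, types `N0 N1 C0 N0 N1 C0` -/
noncomputable def cT6_763 : CertT :=
  ⟨[k12,k13,k20,k12,k13,k20],[],[[[]]],
    [.lp [k0,k4,k6,k0,k4,k6] [k3,k3,k1,k1,k0,k0,k3,k3,k1,k1,k0,k0] k0 [] k12 k5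
    [[(k4,k3),(k10,k3)],[(k5,k3),(k11,k3)],[(k2,k4),(k8,k4)],[(k3,k4),(k9,k4)],[(k0,k3),(k6,k3)],[(k1,k3),(k7,k3)],
    [(k4,k3),(k10,k3)],[(k5,k3),(k11,k3)],[(k2,k4),(k8,k4)],[(k3,k4),(k9,k4)],[(k0,k3),(k6,k3)],[(k1,k3),(k7,k3)]]
    [] k0
    []
    []]⟩

/-- classes `0 0 1 0 0 1`, types `N0 N1 C0 N0 N1 C2` -/
noncomputable def cT6_764 : CertT :=
  ⟨[k12,k13,k20,k12,k13,k22],[],[[[]]],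
    [.lp [k6,k8,k6,k6,k8,k6] [k1,k1,k0,k0,k1,k1,k1,k1,k0,k0,k1,k1] k0 [] k24 k5
    [[(k7,k6),(k10,k6)],[(k5,k6),(k11,k6)],[(k2,k8),(k8,k8)],[(k3,k8),(k9,k8)],[(k0,k6),(k6,k6)],[(k7,k6),(k10,k6)],
    [(k1,k6),(k4,k6)],[(k5,k6),(k11,k6)],[(k2,k8),(k8,k8)],[(k3,k8),(k9,k8)],[(k0,k6),(k6,k6)],[(k1,k6),(k4,k6)]]
    [] k0
    []
    []]⟩

/-- classes `0 0 1 0 0 1`, types `N0 N1 C0 N0 N2 C0` -/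
noncomputable def cT6_765 : CertT :=
  ⟨[k12,k13,k20,k12,k14,k20],[],[[[]]],
    [.lp [k4,k4,k2,k4,k2,k6] [k1,k1,k1,k1,k2,k2,k1,k1,k2,k2,k0,k0] k0 [] k12 k5
    [[(k4,k3),(k10,k5)],[(k5,k3),(k8,k3)],[(k2,k4),(k11,k5)],[(k9,k3),(k3,k4)],[(k0,k3),(k6,k3)],[(k1,k3),(k7,k3)],
    [(k4,k3),(k10,k5)],[(k5,k3),(k8,k3)],[(k2,k3),(k11,k4)],[(k0,k3),(k6,k3)],[(k9,k4),(k3,k5)],[(k1,k5),(k7,k5)]]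
    [] k0
    []
    []]⟩

/-- classes `0 0 1 0 0 1`, types `N0 N1 C0 N0 N2 C2` -/
noncomputable def cT6_766 : CertT :=
  ⟨[k12,k13,k20,k12,k14,k22],[],[[[]]],
    [.lp [k10,k6,k6,k6,k6,k8] [k0,k0,k2,k2,k2,k2,k2,k2,k2,k2,k1,k1] k0 [[k0,k0,k2],[],[],[k0,k2]] k24 k5
    [[(k7,k8),(k10,k9)],[(k5,k6),(k8,k8)],[(k11,k7),(k2,k8)],[(k9,k6),(k3,k8)],[(k0,k6),(k6,k6)],[(k7,k6),(k10,k7)],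
    [(k4,k6),(k1,k8)],[(k5,k6),(k8,k6)],[(k2,k6),(k11,k7)],[(k6,k6),(k0,k8)],[(k3,k7),(k9,k7)],[(k4,k7),(k1,k9)]]
    [] k0
    []
    []]⟩

/-- classes `0 0 1 0 0 1`, types `N0 N1 C0 N1 N0 C0` -/
noncomputable def cT6_767 : CertT :=
  ⟨[k12,k13,k20,k13,k12,k20],[(false,k0,[k0,k1,k2,k3,k4,k5])],[[[([z1,z0,z1,z0,z1,z0],z2)],[]]],
    [.leafM k1 [k0,k1,k2,k3,k4,k5] [(z1,[y1,z1]),(z1,[z1])] [],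
    .lp [k2,k6,k4,k2,k4,k4] [k2,k2,k0,k0,k1,k1,k2,k2,k1,k1,k1,k1] k0 [] k12 k5
    [[(k4,k3),(k10,k3)],[(k5,k3),(k9,k3)],[(k6,k4),(k2,k6)],[(k11,k5),(k3,k6)],[(k0,k3),(k8,k4)],[(k1,k3),(k7,k3)],
    [(k4,k3),(k10,k3)],[(k11,k3),(k3,k4)],[(k0,k3),(k8,k4)],[(k5,k4),(k9,k4)],[(k6,k3),(k2,k5)],[(k1,k3),(k7,k3)]]
    [] k0
    [[k1,k0,k1,k0,k1,k0]]
    [.ref k0 k0 [(z1,[z1])]]]⟩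

/-- classes `0 0 1 0 0 1`, types `N0 N1 C0 N1 N0 C2` -/
noncomputable def cT6_768 : CertT :=
  ⟨[k12,k13,k20,k13,k12,k22],[],[[[]]],
    [.lp [k6,k8,k6,k6,k8,k6] [k1,k1,k0,k0,k1,k1,k1,k1,k0,k0,k1,k1] k0 [] k24 k5
    [[(k7,k6),(k10,k6)],[(k5,k6),(k9,k7)],[(k6,k7),(k2,k8)],[(k11,k7),(k3,k8)],[(k0,k6),(k8,k7)],[(k7,k6),(k10,k6)],
    [(k1,k6),(k4,k6)],[(k11,k6),(k3,k7)],[(k0,k7),(k8,k8)],[(k5,k7),(k9,k8)],[(k6,k6),(k2,k7)],[(k1,k6),(k4,k6)]]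
    [] k0
    []
    []]⟩

/-- classes `0 0 1 0 0 1`, types `N0 N1 C0 N1 N3 C0` -/
noncomputable def cT6_769 : CertT :=
  ⟨[k12,k13,k20,k13,k15,k20],[],[[[]]],
    [.lp [k4,k4,k2,k4,k2,k6] [k1,k1,k1,k1,k2,k2,k1,k1,k2,k2,k0,k0] k0 [] k12 k5
    [[(k4,k3),(k10,k5)],[(k5,k3),(k9,k3)],[(k2,k4),(k6,k4)],[(k8,k3),(k3,k4)],[(k0,k3),(k11,k4)],[(k1,k3),(k7,k3)],
    [(k4,k3),(k10,k5)],[(k8,k3),(k3,k4)],[(k0,k3),(k11,k4)],[(k2,k3),(k6,k3)],[(k5,k4),(k9,k4)],[(k1,k5),(k7,k5)]]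
    [] k0
    []
    []]⟩

/-- classes `0 0 1 0 0 1`, types `N0 N1 C0 N1 N3 C2` -/
noncomputable def cT6_770 : CertT :=
  ⟨[k12,k13,k20,k13,k15,k22],[],[[[]]],
    [.lp [k22,k12,k10,k14,k12,k14] [k0,k0,k5,k5,k6,k6,k4,k4,k5,k5,k4,k4] k0 [[k0,k0,k4],[],[],[k0,k4]] k48 k5
    [[(k7,k18),(k10,k18)],[(k5,k12),(k9,k17)],[(k6,k13),(k2,k16)],[(k8,k12),(k3,k16)],[(k0,k12),(k11,k12)],[(k7,k12),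
    (k10,k12)],[(k4,k12),(k1,k18)],[(k3,k13),(k8,k13)],[(k11,k13),(k0,k17)],[(k2,k12),(k6,k13)],[(k5,k12),(k9,k13)],
    [(k4,k12),(k1,k18)]]
    [] k0
    []
    []]⟩

/-- classes `0 0 1 0 0 1`, types `N0 N1 C0 N2 N3 C0` -/
noncomputable def cT6_771 : CertT :=
  ⟨[k12,k13,k20,k14,k15,k20],[],[[[]]],
    [.lp [k6,k8,k6,k6,k8,k6] [k1,k1,k0,k0,k1,k1,k1,k1,k0,k0,k1,k1] k0 [] k24 k5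
    [[(k4,k6),(k10,k6)],[(k5,k6),(k6,k6)],[(k2,k8),(k9,k8)],[(k3,k8),(k8,k8)],[(k0,k6),(k11,k6)],[(k1,k6),(k7,k6)],
    [(k4,k6),(k10,k6)],[(k0,k6),(k11,k6)],[(k3,k8),(k8,k8)],[(k2,k8),(k9,k8)],[(k5,k6),(k6,k6)],[(k1,k6),(k7,k6)]]
    [] k0
    []
    []]⟩

/-- classes `0 0 1 0 0 1`, types `N0 N1 C0 N2 N3 C2` -/
noncomputable def cT6_772 : CertT :=
  ⟨[k12,k13,k20,k14,k15,k22],[],[[[]]],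
    [.lp [k6,k8,k6,k6,k8,k6] [k1,k1,k0,k0,k1,k1,k1,k1,k0,k0,k1,k1] k0 [] k24 k5
    [[(k7,k6),(k10,k6)],[(k5,k6),(k6,k6)],[(k2,k8),(k9,k8)],[(k3,k8),(k8,k8)],[(k0,k6),(k11,k6)],[(k7,k6),(k10,k6)],
    [(k1,k6),(k4,k6)],[(k0,k6),(k11,k6)],[(k3,k8),(k8,k8)],[(k2,k8),(k9,k8)],[(k5,k6),(k6,k6)],[(k1,k6),(k4,k6)]]
    [] k0
    []
    []]⟩

/-- classes `0 0 1 0 0 1`, types `N0 N1 C0 N3 N2 C0` -/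
noncomputable def cT6_773 : CertT :=
  ⟨[k12,k13,k20,k15,k14,k20],[(false,k0,[k0,k1,k2,k3,k4,k5])],[[[([z1,z0,z1,z0,z1,z0],z2)],[]]],
    [.leafM k5 [k1,k2,k3,k4,k5,k0] [(z1,[z1]),(z1,[y1,z1])] [],
    .lp [k2,k4,k6,k2,k4,k4] [k2,k2,k1,k1,k0,k0,k2,k2,k1,k1,k1,k1] k0 [] k12 k5
    [[(k10,k3),(k4,k4)],[(k8,k3),(k5,k4)],[(k2,k4),(k11,k4)],[(k6,k3),(k3,k4)],[(k0,k4),(k9,k5)],[(k1,k4),(k7,k4)],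
    [(k10,k3),(k4,k4)],[(k2,k3),(k11,k3)],[(k8,k4),(k5,k5)],[(k0,k3),(k9,k4)],[(k6,k3),(k3,k4)],[(k1,k3),(k7,k3)]]
    [] k0
    [[k0,k1,k0,k1,k0,k1]]
    [.ref k0 k0 [(z1,[y1,z1])]]]⟩

/-- classes `0 0 1 0 0 1`, types `N0 N1 C0 N3 N2 C2` -/
noncomputable def cT6_774 : CertT :=
  ⟨[k12,k13,k20,k15,k14,k22],[],[[[]]],
    [.lp [k6,k8,k6,k6,k8,k6] [k1,k1,k0,k0,k1,k1,k1,k1,k0,k0,k1,k1] k0 [] k24 k5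
    [[(k7,k6),(k10,k6)],[(k5,k6),(k8,k7)],[(k11,k7),(k2,k8)],[(k6,k7),(k3,k8)],[(k0,k6),(k9,k7)],[(k7,k6),(k10,k6)],
    [(k1,k6),(k4,k6)],[(k11,k6),(k2,k7)],[(k5,k7),(k8,k8)],[(k0,k7),(k9,k8)],[(k6,k6),(k3,k7)],[(k1,k6),(k4,k6)]]
    [] k0
    []
    []]⟩

/-- classes `0 0 1 0 0 1`, types `N0 N1 N0 N0 N1 N1` -/
noncomputable def cT6_775 : CertT :=
  ⟨[k12,k13,k28,k12,k13,k29],[],[[[]]],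
    [.lp [k0,k4,k6,k0,k4,k6] [k3,k3,k1,k1,k0,k0,k3,k3,k1,k1,k0,k0] k0 [] k12 k5
    [[(k4,k3)],[(k5,k3),(k11,k3)],[(k2,k4),(k8,k4)],[(k3,k4),(k9,k4)],[(k0,k3),(k6,k3)],[(k1,k3)],[(k10,k3)],[(k5,k3),
    (k11,k3)],[(k2,k4),(k8,k4)],[(k3,k4),(k9,k4)],[(k0,k3),(k6,k3)],[(k7,k3)]]
    [] k0
    []
    []]⟩

/-- classes `0 0 1 0 0 1`, types `N0 N1 N0 N0 N1 N2` -/
noncomputable def cT6_776 : CertT :=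
  ⟨[k12,k13,k28,k12,k13,k30],[],[[[]]],
    [.lp [k6,k8,k6,k6,k8,k6] [k1,k1,k0,k0,k1,k1,k1,k1,k0,k0,k1,k1] k0 [] k24 k5
    [[(k7,k6)],[(k5,k6),(k11,k6)],[(k2,k8),(k8,k8)],[(k3,k8),(k9,k8)],[(k0,k6),(k6,k6)],[(k10,k6)],[(k1,k6)],[(k5,k6),
    (k11,k6)],[(k2,k8),(k8,k8)],[(k3,k8),(k9,k8)],[(k0,k6),(k6,k6)],[(k4,k6)]]
    [] k0
    []
    []]⟩

/-- classes `0 0 1 0 0 1`, types `N0 N1 N0 N0 N2 N1` -/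
noncomputable def cT6_777 : CertT :=
  ⟨[k12,k13,k28,k12,k14,k29],[],[[[]]],
    [.lp [k4,k4,k2,k4,k2,k6] [k1,k1,k1,k1,k2,k2,k1,k1,k2,k2,k0,k0] k0 [] k12 k5
    [[(k4,k3)],[(k5,k3),(k8,k3)],[(k2,k4),(k11,k5)],[(k9,k3),(k3,k4)],[(k0,k3),(k6,k3)],[(k1,k3)],[(k10,k5)],[(k5,k3),
    (k8,k3)],[(k2,k3),(k11,k4)],[(k0,k3),(k6,k3)],[(k9,k4),(k3,k5)],[(k7,k5)]]
    [] k0
    []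
    []]⟩

/-- classes `0 0 1 0 0 1`, types `N0 N1 N0 N0 N2 N2` -/
noncomputable def cT6_778 : CertT :=
  ⟨[k12,k13,k28,k12,k14,k30],[],[[[]]],
    [.lp [k6,k8,k6,k6,k6,k6] [k1,k1,k0,k0,k1,k1,k1,k1,k1,k1,k1,k1] k0 [] k24 k5
    [[(k7,k6)],[(k5,k6),(k8,k6)],[(k11,k7),(k2,k8)],[(k9,k7),(k3,k8)],[(k0,k6),(k6,k6)],[(k10,k6)],[(k1,k6)],[(k5,k6),
    (k8,k6)],[(k11,k6),(k2,k7)],[(k0,k6),(k6,k6)],[(k9,k6),(k3,k7)],[(k4,k6)]]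
    [] k0
    []
    []]⟩

/-- classes `0 0 1 0 0 1`, types `N0 N1 N0 N1 N0 N1` -/
noncomputable def cT6_779 : CertT :=
  ⟨[k12,k13,k28,k13,k12,k29],[(false,k0,[k0,k1,k2,k3,k4,k5])],[[[([z1,z0,z1,z0,z1,z0],z2)],[]]],
    [.leafM k1 [k0,k1,k2,k3,k4,k5] [(z1,[y1,z1]),(z1,[z1])] [],
    .lp [k2,k6,k4,k0,k4,k6] [k2,k2,k0,k0,k1,k1,k3,k3,k1,k1,k0,k0] k0 [] k12 k5
    [[(k4,k3)],[(k5,k3),(k9,k3)],[(k6,k3),(k2,k6)],[(k3,k6),(k11,k6)],[(k0,k3),(k8,k4)],[(k1,k3)],[(k10,k3)],[(k3,k3),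
    (k11,k3)],[(k0,k3),(k8,k4)],[(k5,k4),(k9,k4)],[(k6,k3),(k2,k6)],[(k7,k3)]]
    [] k0
    [[k1,k0,k1,k0,k1,k0]]
    [.ref k0 k0 [(z1,[z1])]]]⟩

/-- classes `0 0 1 0 0 1`, types `N0 N1 N0 N1 N0 N2` -/
noncomputable def cT6_780 : CertT :=
  ⟨[k12,k13,k28,k13,k12,k30],[],[[[]]],
    [.lp [k4,k4,k2,k2,k4,k4] [k0,k0,k0,k0,k1,k1,k1,k1,k0,k0,k0,k0] k0 [] k12 k5
    [[(k7,k3)],[(k5,k3),(k9,k4)],[(k6,k3),(k2,k4)],[(k3,k4),(k11,k4)],[(k0,k3),(k8,k3)],[(k10,k3)],[(k1,k3)],[(k3,k3),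
    (k11,k3)],[(k0,k4),(k8,k4)],[(k5,k3),(k9,k4)],[(k6,k3),(k2,k4)],[(k4,k3)]]
    [] k0
    []
    []]⟩

/-- classes `0 0 1 0 0 1`, types `N0 N1 N0 N1 N3 N1` -/
noncomputable def cT6_781 : CertT :=
  ⟨[k12,k13,k28,k13,k15,k29],[],[[[]]],
    [.lp [k4,k4,k2,k4,k2,k6] [k1,k1,k1,k1,k2,k2,k1,k1,k2,k2,k0,k0] k0 [] k12 k5
    [[(k4,k3)],[(k5,k3),(k9,k3)],[(k2,k4),(k6,k4)],[(k8,k3),(k3,k4)],[(k0,k3),(k11,k4)],[(k1,k3)],[(k10,k5)],[(k8,k3),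
    (k3,k4)],[(k0,k3),(k11,k4)],[(k2,k3),(k6,k3)],[(k5,k4),(k9,k4)],[(k7,k5)]]
    [] k0
    []
    []]⟩

/-- classes `0 0 1 0 0 1`, types `N0 N1 N0 N1 N3 N2` -/
noncomputable def cT6_782 : CertT :=
  ⟨[k12,k13,k28,k13,k15,k30],[],[[[]]],
    [.lp [k12,k6,k4,k6,k6,k8] [k0,k0,k3,k3,k4,k4,k3,k3,k3,k3,k2,k2] k0 [[k0,k0,k2],[],[],[k0,k2]] k24 k5
    [[(k7,k9)],[(k5,k6),(k9,k9)],[(k6,k6),(k2,k8)],[(k8,k6),(k3,k8)],[(k0,k6),(k11,k6)],[(k10,k6)],[(k1,k9)],[(k3,k6),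
    (k8,k6)],[(k11,k7),(k0,k9)],[(k2,k6),(k6,k6)],[(k5,k6),(k9,k7)],[(k4,k6)]]
    [] k0
    []
    []]⟩

/-- classes `0 0 1 0 0 1`, types `N0 N1 N0 N2 N3 N1` -/
noncomputable def cT6_783 : CertT :=
  ⟨[k12,k13,k28,k14,k15,k29],[],[[[]]],
    [.lp [k6,k4,k0,k0,k4,k6] [k0,k0,k1,k1,k3,k3,k3,k3,k1,k1,k0,k0] k0 [] k12 k5
    [[(k4,k3)],[(k5,k3),(k6,k3)],[(k2,k4),(k9,k4)],[(k3,k4),(k8,k4)],[(k0,k3),(k11,k3)],[(k1,k3)],[(k10,k3)],[(k0,k3),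
    (k11,k3)],[(k3,k4),(k8,k4)],[(k2,k4),(k9,k4)],[(k5,k3),(k6,k3)],[(k7,k3)]]
    [] k0
    []
    []]⟩

/-- classes `0 0 1 0 0 1`, types `N0 N1 N0 N2 N3 N2` -/
noncomputable def cT6_784 : CertT :=
  ⟨[k12,k13,k28,k14,k15,k30],[],[[[]]],
    [.lp [k6,k4,k0,k0,k4,k6] [k0,k0,k1,k1,k3,k3,k3,k3,k1,k1,k0,k0] k0 [] k12 k5
    [[(k7,k3)],[(k5,k3),(k6,k3)],[(k2,k4),(k9,k4)],[(k3,k4),(k8,k4)],[(k0,k3),(k11,k3)],[(k10,k3)],[(k1,k3)],[(k0,k3),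
    (k11,k3)],[(k3,k4),(k8,k4)],[(k2,k4),(k9,k4)],[(k5,k3),(k6,k3)],[(k4,k3)]]
    [] k0
    []
    []]⟩

/-- classes `0 0 1 0 0 1`, types `N0 N1 N0 N3 N2 N1` -/
noncomputable def cT6_785 : CertT :=
  ⟨[k12,k13,k28,k15,k14,k29],[(false,k0,[k0,k1,k2,k3,k4,k5])],[[[([z1,z0,z1,z0,z1,z0],z2)],[]]],
    [.leafM k5 [k1,k2,k3,k4,k5,k0] [(z1,[z1]),(z1,[y1,z1])] [],
    .lp [k2,k4,k6,k2,k4,k4] [k2,k2,k1,k1,k0,k0,k2,k2,k1,k1,k1,k1] k0 [] k12 k5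
    [[(k4,k4)],[(k8,k3),(k5,k4)],[(k2,k4),(k11,k4)],[(k6,k3),(k3,k4)],[(k0,k4),(k9,k5)],[(k1,k4)],[(k10,k3)],[(k2,k3),
    (k11,k3)],[(k8,k4),(k5,k5)],[(k0,k3),(k9,k4)],[(k6,k3),(k3,k4)],[(k7,k3)]]
    [] k0
    [[k0,k1,k0,k1,k0,k1]]
    [.ref k0 k0 [(z1,[y1,z1])]]]⟩

/-- classes `0 0 1 0 0 1`, types `N0 N1 N0 N3 N2 N2` -/
noncomputable def cT6_786 : CertT :=
  ⟨[k12,k13,k28,k15,k14,k30],[],[[[]]],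
    [.lp [k4,k4,k2,k2,k4,k4] [k0,k0,k0,k0,k1,k1,k1,k1,k0,k0,k0,k0] k0 [] k12 k5
    [[(k7,k3)],[(k5,k3),(k8,k4)],[(k2,k4),(k11,k4)],[(k6,k3),(k3,k4)],[(k0,k3),(k9,k3)],[(k10,k3)],[(k1,k3)],[(k2,k3),
    (k11,k3)],[(k5,k3),(k8,k4)],[(k0,k4),(k9,k4)],[(k6,k3),(k3,k4)],[(k4,k3)]]
    [] k0
    []
    []]⟩

/-- classes `0 0 1 0 0 1`, types `N0 N1 S0 N0 N1 S0` -/
noncomputable def cT6_787 : CertT :=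
  ⟨[k12,k13,k16,k12,k13,k16],[],[[[]]],
    [.lp [k6,k8,k6,k6,k8,k6] [k1,k1,k0,k0,k1,k1,k1,k1,k0,k0,k1,k1] k0 [] k24 k5
    [[(k1,k6),(k4,k6),(k7,k6),(k10,k6)],[(k5,k6),(k11,k6)],[(k2,k8),(k8,k8)],[(k3,k8),(k9,k8)],[(k0,k6),(k6,k6)],[(k1,
    k6),(k4,k6),(k7,k6),(k10,k6)],[(k1,k6),(k4,k6),(k7,k6),(k10,k6)],[(k5,k6),(k11,k6)],[(k2,k8),(k8,k8)],[(k3,k8),
    (k9,k8)],[(k0,k6),(k6,k6)],[(k1,k6),(k4,k6),(k7,k6),(k10,k6)]]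
    [] k0
    []
    []]⟩

/-- classes `0 0 1 0 0 1`, types `N0 N1 S0 N0 N2 S0` -/
noncomputable def cT6_788 : CertT :=
  ⟨[k12,k13,k16,k12,k14,k16],[],[[[]]],
    [.lp [k6,k8,k6,k6,k6,k12] [k3,k3,k2,k2,k3,k3,k3,k3,k3,k3,k0,k0] k0 [] k24 k5
    [[(k1,k6),(k4,k6),(k7,k6),(k10,k9)],[(k5,k6),(k8,k6)],[(k2,k8),(k11,k10)],[(k9,k7),(k3,k8)],[(k0,k6),(k6,k6)],
    [(k1,k6),(k4,k6),(k7,k6),(k10,k9)],[(k1,k6),(k4,k6),(k7,k6),(k10,k9)],[(k5,k6),(k8,k6)],[(k2,k7),(k11,k9)],[(k0,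
    k6),(k6,k6)],[(k9,k9),(k3,k10)],[(k1,k9),(k4,k9),(k7,k9),(k10,k12)]]
    [] k0
    []
    []]⟩

/-- classes `0 0 1 0 0 1`, types `N0 N1 S0 N1 N0 S0` -/
noncomputable def cT6_789 : CertT :=
  ⟨[k12,k13,k16,k13,k12,k16],[(false,k0,[k0,k1,k2,k3,k4,k5])],[[[([z1,z0,z1,z0,z1,z0],z2)],[]]],
    [.leafM k1 [k0,k1,k2,k3,k4,k5] [(z1,[y1,z1]),(z1,[z1])] [],
    .lp [k10,k8,k6,k6,k8,k6] [k0,k0,k1,k1,k2,k2,k2,k2,k1,k1,k2,k2] k0 [] k24 k5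
    [[(k4,k8),(k7,k8),(k10,k8),(k1,k10)],[(k5,k8),(k9,k9)],[(k6,k7),(k2,k8)],[(k11,k7),(k3,k8)],[(k8,k7),(k0,k8)],
    [(k4,k6),(k7,k6),(k10,k6),(k1,k8)],[(k4,k6),(k7,k6),(k10,k6),(k1,k8)],[(k11,k6),(k3,k7)],[(k8,k8),(k0,k9)],[(k5,
    k7),(k9,k8)],[(k6,k6),(k2,k7)],[(k4,k6),(k7,k6),(k10,k6),(k1,k8)]]
    [] k0
    [[k0,k1,k0,k1,k0,k1]]
    [.ref k0 k0 [(z1,[y1,z1])]]]⟩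

/-- classes `0 0 1 0 0 1`, types `N0 N1 S0 N1 N3 S0` -/
noncomputable def cT6_790 : CertT :=
  ⟨[k12,k13,k16,k13,k15,k16],[],[[[]]],
    [.lp [k6,k8,k6,k12,k6,k6] [k3,k3,k2,k2,k3,k3,k0,k0,k3,k3,k3,k3] k0 [] k24 k5
    [[(k1,k6),(k4,k6),(k10,k6),(k7,k9)],[(k5,k6),(k9,k6)],[(k2,k8),(k6,k10)],[(k8,k7),(k3,k8)],[(k0,k6),(k11,k6)],
    [(k1,k6),(k4,k6),(k10,k6),(k7,k9)],[(k1,k9),(k4,k9),(k10,k9),(k7,k12)],[(k8,k9),(k3,k10)],[(k0,k6),(k11,k6)],[(k2,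
    k7),(k6,k9)],[(k5,k6),(k9,k6)],[(k1,k6),(k4,k6),(k10,k6),(k7,k9)]]
    [] k0
    []
    []]⟩

/-- classes `0 0 1 0 0 1`, types `N0 N1 S0 N2 N3 S0` -/
noncomputable def cT6_791 : CertT :=
  ⟨[k12,k13,k16,k14,k15,k16],[],[[[]]],
    [.lp [k6,k8,k6,k6,k8,k6] [k1,k1,k0,k0,k1,k1,k1,k1,k0,k0,k1,k1] k0 [] k24 k5
    [[(k1,k6),(k4,k6),(k7,k6),(k10,k6)],[(k5,k6),(k6,k6)],[(k2,k8),(k9,k8)],[(k3,k8),(k8,k8)],[(k0,k6),(k11,k6)],[(k1,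
    k6),(k4,k6),(k7,k6),(k10,k6)],[(k1,k6),(k4,k6),(k7,k6),(k10,k6)],[(k0,k6),(k11,k6)],[(k3,k8),(k8,k8)],[(k2,k8),
    (k9,k8)],[(k5,k6),(k6,k6)],[(k1,k6),(k4,k6),(k7,k6),(k10,k6)]]
    [] k0
    []
    []]⟩

/-- classes `0 0 1 0 0 1`, types `N0 N1 S0 N3 N2 S0` -/
noncomputable def cT6_792 : CertT :=
  ⟨[k12,k13,k16,k15,k14,k16],[(false,k0,[k0,k1,k2,k3,k4,k5])],[[[([z1,z0,z1,z0,z1,z0],z2)],[]]],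
    [.leafM k5 [k1,k2,k3,k4,k5,k0] [(z1,[z1]),(z1,[y1,z1])] [],
    .lp [k10,k8,k6,k6,k8,k6] [k0,k0,k1,k1,k2,k2,k2,k2,k1,k1,k2,k2] k0 [] k24 k5
    [[(k4,k8),(k7,k8),(k10,k8),(k1,k10)],[(k5,k8),(k8,k9)],[(k11,k7),(k2,k8)],[(k6,k7),(k3,k8)],[(k9,k7),(k0,k8)],
    [(k4,k6),(k7,k6),(k10,k6),(k1,k8)],[(k4,k6),(k7,k6),(k10,k6),(k1,k8)],[(k11,k6),(k2,k7)],[(k5,k7),(k8,k8)],[(k9,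
    k8),(k0,k9)],[(k6,k6),(k3,k7)],[(k4,k6),(k7,k6),(k10,k6),(k1,k8)]]
    [] k0
    [[k0,k1,k0,k1,k0,k1]]
    [.ref k0 k0 [(z1,[y1,z1])]]]⟩

/-- classes `0 0 1 0 0 1`, types `N0 N2 B0 N0 N2 B1` -/
noncomputable def cT6_793 : CertT :=
  ⟨[k12,k14,k24,k12,k14,k25],[(false,k0,[k0,k1,k2,k3,k4,k5])],[[[([z1,z0,z1,z0,z1,z0],z2)],[([z1,z1,z1,z0,z0,z0],z2)],
    []]],
    [.leafM k5 [k1,k2,k3,k4,k5,k0] [(z1,[z1]),(z1,[y1,z1])] [],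
    .leafM k6 [k0,k1,k2,k3,k4,k5] [(z1,[y1,z1])] [],
    .lp [k4,k2,k2,k2,k2,k2] [k0,k0,k1,k1,k1,k1,k1,k1,k1,k1,k1,k1] k0 [] k8 k5
    [[(k4,k3),(k7,k3)],[(k2,k3),(k8,k3)],[(k5,k2),(k11,k2)],[(k6,k2),(k0,k3)],[(k3,k2),(k9,k2)],[(k10,k2),(k1,k3)],
    [(k10,k2),(k1,k3)],[(k2,k2),(k8,k2)],[(k5,k2),(k11,k2)],[(k6,k2),(k0,k3)],[(k3,k2),(k9,k2)],[(k4,k2),(k7,k2)]]
    [] k0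
    [[k0,k1,k0,k1,k0,k1],[k0,k0,k0,k1,k1,k1]]
    [.ref k0 k0 [(z1,[y1,z1])],.ref k1 k0 [(z1,[y1,z1])]]]⟩

/-- classes `0 0 1 0 0 1`, types `N0 N2 B0 N1 N3 B1` -/
noncomputable def cT6_794 : CertT :=
  ⟨[k12,k14,k24,k13,k15,k25],[(false,k0,[k0,k1,k2,k3,k4,k5]),(false,k3,[k3,k4,k5,k0,k1,k2])],[[[([z1,z1,z1,z0,z0,z0],
    z2)],[([z1,z0,z1,z0,z1,z0],z2)],[([z1,z0,z0,z0,z0,y1],z0),([z0,z1,z1,z0,z0,z1],z2)],[([z1,z0,z0,z0,z0,y1],z0),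
    ([z0,z1,z0,z1,z0,z1],z2)],[([z1,z0,z0,z1,z1,z0],z2),([z0,z1,z0,z0,y1,z0],z0)],[([z1,z0,z0,z1,z1,z0],z2)],[]]],
    [.leafM k6 [k0,k1,k2,k3,k4,k5] [(z1,[y1,z1])] [],
    .leafM k1 [k0,k1,k2,k3,k4,k5] [(z1,[y1,z1]),(z1,[z1])] [],
    .leafM k6 [k0,k1,k2,k3,k4,k5] [(z1,[y1,y1,z1])] [],
    .leafM k1 [k0,k1,k2,k3,k4,k5] [(z1,[z0,z1]),(z1,[z0,y1,z1])] [],
    .tor k2 false k1 [(z1,[z1]),(z1,[z1,z1]),(z1,[y1,y1,z1]),(z1,[y1,z0,z1])],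
    .lp [k10,k8,k2,k4,k10,k12] [k1,k1,k2,k2,k5,k5,k4,k4,k1,k1,k0,k0] k0 [[k0,k0,k0,k2],[],[k0,k2]] k24 k5
    [[(k4,k6),(k7,k7)],[(k2,k7),(k9,k10)],[(k6,k6),(k5,k7)],[(k0,k7),(k11,k10)],[(k8,k6),(k3,k7)],[(k1,k6),(k10,k7)],
    [(k1,k7),(k10,k8)],[(k3,k6),(k8,k7)],[(k0,k10),(k11,k11)],[(k5,k6),(k6,k7)],[(k2,k10),(k9,k11)],[(k4,k7),(k7,k8)]]
    [] k0
    [[k1,k1,k1,k0,k0,k0],[k1,k0,k1,k0,k1,k0],[k1,k1,k0,k1,k0,k0]]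
    [.ref k2 k0 [(z1,[z1,z1,y1]),(z1,[z0,y1,z1])],.ref k3 k1 [(z1,[y1,z1]),(z1,[z1])],.ref k4 k0 [(z1,[z0,z1]),(z1,
    [z1,y1])]],
    .lp [k10,k8,k2,k4,k10,k12] [k1,k1,k2,k2,k5,k5,k4,k4,k1,k1,k0,k0] k0 [[k0,k0,k0,k2],[],[k0,k2]] k24 k5
    [[(k4,k6),(k7,k7)],[(k2,k7),(k9,k10)],[(k6,k6),(k5,k7)],[(k0,k7),(k11,k10)],[(k8,k6),(k3,k7)],[(k1,k6),(k10,k7)],
    [(k1,k7),(k10,k8)],[(k3,k6),(k8,k7)],[(k0,k10),(k11,k11)],[(k5,k6),(k6,k7)],[(k2,k10),(k9,k11)],[(k4,k7),(k7,k8)]]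
    [] k0
    [[k1,k1,k1,k0,k0,k0],[k1,k0,k1,k0,k1,k0],[k1,k1,k0,k1,k0,k0]]
    [.ref k0 k0 [(z1,[z1])],.ref k1 k0 [(z1,[z1])],.ref k5 k1 [(z1,[z1])]]]⟩

/-- classes `0 0 1 0 0 1`, types `N0 N2 B0 N2 N0 B1` -/
noncomputable def cT6_795 : CertT :=
  ⟨[k12,k14,k24,k14,k12,k25],[(false,k0,[k0,k1,k2,k3,k4,k5])],[[[([z1,z1,z1,z0,z0,z0],z2)],[]]],
    [.leafM k6 [k0,k1,k2,k3,k4,k5] [(z1,[y1,z1])] [],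
    .lp [k4,k2,k2,k2,k2,k2] [k0,k0,k1,k1,k1,k1,k1,k1,k1,k1,k1,k1] k0 [] k8 k5
    [[(k4,k3),(k7,k3)],[(k2,k3),(k6,k3)],[(k5,k2),(k9,k2)],[(k8,k2),(k0,k3)],[(k3,k2),(k11,k2)],[(k10,k2),(k1,k3)],
    [(k10,k2),(k1,k3)],[(k8,k2),(k0,k3)],[(k3,k2),(k11,k2)],[(k2,k2),(k6,k2)],[(k5,k2),(k9,k2)],[(k4,k2),(k7,k2)]]
    [] k0
    [[k0,k0,k0,k1,k1,k1]]
    [.ref k0 k0 [(z1,[y1,z1])]]]⟩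

/-- classes `0 0 1 0 0 1`, types `N0 N2 B0 N3 N1 B1` -/
noncomputable def cT6_796 : CertT :=
  ⟨[k12,k14,k24,k15,k13,k25],[(false,k0,[k0,k1,k2,k3,k4,k5])],[[[([z1,z1,z1,z0,z0,z0],z2)],[]]],
    [.leafM k6 [k0,k1,k2,k3,k4,k5] [(z1,[y1,z1])] [],
    .lp [k2,k2,k2,k2,k2,k4] [k1,k1,k1,k1,k1,k1,k1,k1,k1,k1,k0,k0] k0 [] k8 k5
    [[(k4,k2),(k7,k2)],[(k2,k2),(k11,k3)],[(k5,k2),(k8,k2)],[(k0,k2),(k9,k2)],[(k3,k2),(k6,k2)],[(k1,k2),(k10,k3)],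
    [(k1,k2),(k10,k3)],[(k5,k2),(k8,k2)],[(k2,k2),(k11,k3)],[(k3,k2),(k6,k2)],[(k0,k3),(k9,k3)],[(k4,k3),(k7,k3)]]
    [] k0
    [[k1,k1,k1,k0,k0,k0]]
    [.ref k0 k0 [(z1,[z1])]]]⟩

/-- classes `0 0 1 0 0 1`, types `N0 N2 C0 N0 N2 C0` -/
noncomputable def cT6_797 : CertT :=
  ⟨[k12,k14,k20,k12,k14,k20],[(false,k0,[k0,k1,k2,k3,k4,k5]),(true,k2,[k2,k1,k0,k5,k4,k3])],[[[([z1,z1,z1,z0,z0,z0],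
    z2)],[([z1,z0,z1,z0,z1,z0],z2)],[([z1,z0,z0,z0,z1,z1],z2),([z0,z1,z1,z0,y1,y1],z0)],[([z1,z0,z0,y1,z0,z0],z0),
    ([z0,z1,z0,z1,z0,z1],z2)],[([z1,z0,z0,z0,z1,z1],z2),([z0,z1,z0,z0,y1,z0],z0)],[([z1,z0,z0,z0,z1,z1],z2)],[]]],
    [.leafM k6 [k0,k1,k2,k3,k4,k5] [(z1,[y1,z1])] [],
    .leafM k5 [k1,k2,k3,k4,k5,k0] [(z1,[z1]),(z1,[y1,z1])] [],
    .leafM k6 [k0,k1,k2,k3,k4,k5] [(z1,[y1,y1,z1])] [],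
    .leafM k5 [k1,k2,k3,k4,k5,k0] [(z1,[z0,y1,z1]),(z1,[z0,z1])] [],
    .tor k3 false k0 [(z1,[y1,y1,z1]),(z1,[y1,z0,z1]),(z1,[z1]),(z1,[z1,z1])],
    .lp [k6,k10,k6,k6,k6,k12] [k3,k3,k1,k1,k3,k3,k3,k3,k3,k3,k0,k0] k0 [[k0,k0,k0,k2],[],[k0,k2]] k24 k5
    [[(k4,k6),(k10,k9)],[(k2,k6),(k8,k6)],[(k5,k10),(k11,k11)],[(k0,k6),(k6,k8)],[(k9,k6),(k3,k10)],[(k1,k6),(k7,k6)],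
    [(k4,k6),(k10,k9)],[(k8,k6),(k2,k8)],[(k5,k6),(k11,k9)],[(k0,k6),(k6,k6)],[(k9,k9),(k3,k11)],[(k1,k9),(k7,k9)]]
    [] k0
    [[k1,k1,k1,k0,k0,k0],[k1,k0,k1,k0,k1,k0],[k0,k0,k1,k1,k1,k0]]
    [.ref k2 k0 [(z1,[z0,z1]),(z1,[z1,y1])],.ref k3 k1 [(z1,[z1,y1]),(z1,[y1,z0,z1])],.ref k4 k0 [(z1,[z0,z1]),(z1,
    [y1,y1,z1])]],
    .lp [k6,k10,k6,k6,k6,k12] [k3,k3,k1,k1,k3,k3,k3,k3,k3,k3,k0,k0] k0 [[k0,k0,k0,k2],[],[k0,k2]] k24 k5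
    [[(k4,k6),(k10,k9)],[(k2,k6),(k8,k6)],[(k5,k10),(k11,k11)],[(k0,k6),(k6,k8)],[(k9,k6),(k3,k10)],[(k1,k6),(k7,k6)],
    [(k4,k6),(k10,k9)],[(k8,k6),(k2,k8)],[(k5,k6),(k11,k9)],[(k0,k6),(k6,k6)],[(k9,k9),(k3,k11)],[(k1,k9),(k7,k9)]]
    [] k0
    [[k1,k1,k1,k0,k0,k0],[k1,k0,k1,k0,k1,k0],[k0,k0,k1,k1,k1,k0]]
    [.ref k0 k0 [(z1,[z1])],.ref k1 k0 [(z1,[z1])],.ref k5 k1 [(z1,[z1])]]]⟩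

/-- classes `0 0 1 0 0 1`, types `N0 N2 C0 N0 N2 C2` -/
noncomputable def cT6_798 : CertT :=
  ⟨[k12,k14,k20,k12,k14,k22],[(false,k0,[k0,k1,k2,k3,k4,k5]),(true,k2,[k2,k1,k0,k5,k4,k3])],[[[([z1,z0,z0,z0,z1,z1],
    z2),([z0,z1,z0,z0,y1,z0],z0)],[([z1,z0,z0,z0,z1,z1],z2)],[]]],
    [.tor k3 false k0 [(z1,[y1,y1,z1]),(z1,[y1,z0,z1]),(z1,[z1]),(z1,[z1,z1])],
    .lp [k6,k10,k6,k6,k6,k12] [k3,k3,k1,k1,k3,k3,k3,k3,k3,k3,k0,k0] k0 [[k0,k0,k0,k2],[],[k0,k2]] k24 k5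
    [[(k7,k6),(k10,k9)],[(k2,k6),(k8,k6)],[(k5,k10),(k11,k11)],[(k0,k6),(k6,k8)],[(k9,k6),(k3,k10)],[(k7,k6),(k10,
    k9)],[(k1,k6),(k4,k6)],[(k8,k6),(k2,k8)],[(k5,k6),(k11,k9)],[(k0,k6),(k6,k6)],[(k9,k9),(k3,k11)],[(k1,k9),(k4,
    k9)]]
    [] k0
    [[k0,k0,k1,k1,k1,k0]]
    [.ref k0 k0 [(z1,[z0,z1]),(z1,[y1,y1,z1])]],
    .lp [k6,k10,k6,k6,k6,k12] [k3,k3,k1,k1,k3,k3,k3,k3,k3,k3,k0,k0] k0 [[k0,k0,k0,k2],[],[k0,k2]] k24 k5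
    [[(k7,k6),(k10,k9)],[(k2,k6),(k8,k6)],[(k5,k10),(k11,k11)],[(k0,k6),(k6,k8)],[(k9,k6),(k3,k10)],[(k7,k6),(k10,
    k9)],[(k1,k6),(k4,k6)],[(k8,k6),(k2,k8)],[(k5,k6),(k11,k9)],[(k0,k6),(k6,k6)],[(k9,k9),(k3,k11)],[(k1,k9),(k4,
    k9)]]
    [] k0
    [[k0,k0,k1,k1,k1,k0]]
    [.ref k1 k1 [(z1,[z1])]]]⟩

/-- classes `0 0 1 0 0 1`, types `N0 N2 C0 N1 N3 C0` -/
noncomputable def cT6_799 : CertT :=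
  ⟨[k12,k14,k20,k13,k15,k20],[(false,k0,[k0,k1,k2,k3,k4,k5])],[[[([z1,z1,z1,z0,z0,z0],z2)],[([z1,z0,z1,z0,z1,z0],z2)],
    []]],
    [.leafM k6 [k0,k1,k2,k3,k4,k5] [(z1,[y1,z1])] [],
    .leafM k1 [k0,k1,k2,k3,k4,k5] [(z1,[y1,z1]),(z1,[z1])] [],
    .lp [k2,k2,k2,k2,k2,k4] [k1,k1,k1,k1,k1,k1,k1,k1,k1,k1,k0,k0] k0 [] k8 k5
    [[(k4,k2),(k10,k3)],[(k2,k2),(k9,k2)],[(k5,k2),(k6,k2)],[(k0,k2),(k11,k3)],[(k3,k2),(k8,k2)],[(k1,k2),(k7,k2)],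
    [(k4,k2),(k10,k3)],[(k3,k2),(k8,k2)],[(k0,k2),(k11,k3)],[(k5,k2),(k6,k2)],[(k2,k3),(k9,k3)],[(k1,k3),(k7,k3)]]
    [] k0
    [[k1,k1,k1,k0,k0,k0],[k1,k0,k1,k0,k1,k0]]
    [.ref k0 k0 [(z1,[z1])],.ref k1 k0 [(z1,[z1])]]]⟩

/-- classes `0 0 1 0 0 1`, types `N0 N2 C0 N1 N3 C2` -/
noncomputable def cT6_800 : CertT :=
  ⟨[k12,k14,k20,k13,k15,k22],[(false,k0,[k0,k1,k2,k3,k4,k5])],[[[([z1,z0,z0,z1,z1,z0],z2),([z0,z1,z0,z0,y1,z0],z0)],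
    [([z1,z0,z0,z1,z1,z0],z2)],[]]],
    [.tor k2 false k1 [(z1,[z1]),(z1,[z1,z1]),(z1,[y1,y1,z1]),(z1,[y1,z0,z1])],
    .lp [k6,k10,k6,k12,k6,k6] [k3,k3,k1,k1,k3,k3,k0,k0,k3,k3,k3,k3] k0 [[k0,k0,k0,k2],[],[k0,k2]] k24 k5
    [[(k10,k6),(k7,k9)],[(k2,k6),(k9,k6)],[(k5,k10),(k6,k11)],[(k0,k6),(k11,k8)],[(k8,k6),(k3,k10)],[(k10,k6),(k7,
    k9)],[(k1,k9),(k4,k9)],[(k8,k9),(k3,k11)],[(k0,k6),(k11,k6)],[(k5,k6),(k6,k9)],[(k9,k6),(k2,k8)],[(k1,k6),(k4,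
    k6)]]
    [] k0
    [[k0,k0,k1,k0,k1,k1]]
    [.ref k0 k0 [(z1,[z0,z1]),(z1,[y1,y1,z1])]],
    .lp [k6,k12,k6,k6,k6,k10] [k3,k3,k0,k0,k3,k3,k3,k3,k3,k3,k1,k1] k0 [[],[],[k0,k0,k0,k0,k0,k0,k0,k0,k2],[],[],[],[],[],
    [],[k0,k0,k0,k2]] k24 k5
    [[(k7,k6),(k10,k8)],[(k9,k6),(k2,k9)],[(k5,k9),(k6,k9)],[(k0,k9),(k11,k9)],[(k8,k8),(k3,k9)],[(k7,k6),(k10,k8)],
    [(k1,k6),(k4,k6)],[(k8,k6),(k3,k9)],[(k0,k6),(k11,k8)],[(k6,k6),(k5,k8)],[(k9,k8),(k2,k9)],[(k1,k8),(k4,k8)]]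
    [] k0
    [[k1,k0,k0,k1,k1,k0]]
    [.ref k1 k0 [(z1,[z1])]]]⟩

/-- classes `0 0 1 0 0 1`, types `N0 N2 C0 N2 N0 C0` -/
noncomputable def cT6_801 : CertT :=
  ⟨[k12,k14,k20,k14,k12,k20],[(false,k0,[k0,k1,k2,k3,k4,k5])],[[[([z1,z1,z1,z0,z0,z0],z2)],[]]],
    [.leafM k6 [k0,k1,k2,k3,k4,k5] [(z1,[y1,z1])] [],
    .lp [k2,k2,k2,k2,k2,k4] [k1,k1,k1,k1,k1,k1,k1,k1,k1,k1,k0,k0] k0 [] k8 k5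
    [[(k4,k2),(k10,k3)],[(k2,k2),(k6,k2)],[(k5,k2),(k9,k2)],[(k0,k2),(k8,k2)],[(k3,k2),(k11,k3)],[(k1,k2),(k7,k2)],
    [(k4,k2),(k10,k3)],[(k0,k2),(k8,k2)],[(k3,k2),(k11,k3)],[(k2,k2),(k6,k2)],[(k5,k3),(k9,k3)],[(k1,k3),(k7,k3)]]
    [] k0
    [[k1,k1,k1,k0,k0,k0]]
    [.ref k0 k0 [(z1,[z1])]]]⟩

/-- classes `0 0 1 0 0 1`, types `N0 N2 C0 N2 N0 C2` -/
noncomputable def cT6_802 : CertT :=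
  ⟨[k12,k14,k20,k14,k12,k22],[],[[[]]],
    [.lp [k0,k2,k0,k2,k0,k2] [k1,k1,k0,k0,k1,k1,k0,k0,k1,k1,k0,k0] k0 [] k4 k5
    [[(k7,k1),(k10,k1)],[(k2,k1),(k6,k1)],[(k5,k1),(k9,k1)],[(k0,k1),(k8,k1)],[(k3,k1),(k11,k1)],[(k7,k1),(k10,k1)],
    [(k1,k1),(k4,k1)],[(k0,k1),(k8,k1)],[(k3,k1),(k11,k1)],[(k2,k1),(k6,k1)],[(k5,k1),(k9,k1)],[(k1,k1),(k4,k1)]]
    [] k0
    []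
    []]⟩

/-- classes `0 0 1 0 0 1`, types `N0 N2 C0 N3 N1 C0` -/
noncomputable def cT6_803 : CertT :=
  ⟨[k12,k14,k20,k15,k13,k20],[(false,k0,[k0,k1,k2,k3,k4,k5])],[[[([z1,z1,z1,z0,z0,z0],z2)],[]]],
    [.leafM k6 [k0,k1,k2,k3,k4,k5] [(z1,[y1,z1])] [],
    .lp [k2,k2,k2,k2,k2,k4] [k1,k1,k1,k1,k1,k1,k1,k1,k1,k1,k0,k0] k0 [] k8 k5
    [[(k4,k2),(k10,k3)],[(k2,k2),(k11,k3)],[(k5,k2),(k8,k2)],[(k0,k2),(k9,k2)],[(k3,k2),(k6,k2)],[(k1,k2),(k7,k2)],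
    [(k4,k2),(k10,k3)],[(k5,k2),(k8,k2)],[(k2,k2),(k11,k3)],[(k3,k2),(k6,k2)],[(k0,k3),(k9,k3)],[(k1,k3),(k7,k3)]]
    [] k0
    [[k1,k1,k1,k0,k0,k0]]
    [.ref k0 k0 [(z1,[z1])]]]⟩

/-- classes `0 0 1 0 0 1`, types `N0 N2 C0 N3 N1 C2` -/
noncomputable def cT6_804 : CertT :=
  ⟨[k12,k14,k20,k15,k13,k22],[],[[[]]],
    [.lp [k0,k2,k0,k2,k0,k2] [k1,k1,k0,k0,k1,k1,k0,k0,k1,k1,k0,k0] k0 [] k4 k5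
    [[(k7,k1),(k10,k1)],[(k2,k1),(k11,k1)],[(k5,k1),(k8,k1)],[(k0,k1),(k9,k1)],[(k3,k1),(k6,k1)],[(k7,k1),(k10,k1)],
    [(k1,k1),(k4,k1)],[(k5,k1),(k8,k1)],[(k2,k1),(k11,k1)],[(k3,k1),(k6,k1)],[(k0,k1),(k9,k1)],[(k1,k1),(k4,k1)]]
    [] k0
    []
    []]⟩

/-- classes `0 0 1 0 0 1`, types `N0 N2 N0 N0 N2 N1` -/
noncomputable def cT6_805 : CertT :=
  ⟨[k12,k14,k28,k12,k14,k29],[(false,k0,[k0,k1,k2,k3,k4,k5])],[[[([z1,z1,z1,z0,z0,z0],z2)],[([z1,z0,z1,z0,z1,z0],z2)],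
    []]],
    [.leafM k6 [k0,k1,k2,k3,k4,k5] [(z1,[y1,z1])] [],
    .leafM k5 [k1,k2,k3,k4,k5,k0] [(z1,[z1]),(z1,[y1,z1])] [],
    .lp [k2,k2,k2,k2,k2,k4] [k1,k1,k1,k1,k1,k1,k1,k1,k1,k1,k0,k0] k0 [] k8 k5
    [[(k4,k2)],[(k2,k2),(k8,k2)],[(k5,k2),(k11,k3)],[(k0,k2),(k6,k2)],[(k3,k2),(k9,k2)],[(k1,k2)],[(k10,k3)],[(k2,k2),
    (k8,k2)],[(k5,k2),(k11,k3)],[(k0,k2),(k6,k2)],[(k3,k3),(k9,k3)],[(k7,k3)]]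
    [] k0
    [[k1,k1,k1,k0,k0,k0],[k1,k0,k1,k0,k1,k0]]
    [.ref k0 k0 [(z1,[z1])],.ref k1 k0 [(z1,[z1])]]]⟩

/-- classes `0 0 1 0 0 1`, types `N0 N2 N0 N0 N2 N2` -/
noncomputable def cT6_806 : CertT :=
  ⟨[k12,k14,k28,k12,k14,k30],[],[[[]]],
    [.lp [k2,k2,k2,k2,k2,k2] [k0,k0,k0,k0,k0,k0,k0,k0,k0,k0,k0,k0] k0 [] k8 k5
    [[(k7,k2)],[(k2,k2),(k8,k2)],[(k5,k2),(k11,k2)],[(k0,k2),(k6,k2)],[(k3,k2),(k9,k2)],[(k10,k2)],[(k1,k2)],[(k2,k2),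
    (k8,k2)],[(k5,k2),(k11,k2)],[(k0,k2),(k6,k2)],[(k3,k2),(k9,k2)],[(k4,k2)]]
    [] k0
    []
    []]⟩

/-- classes `0 0 1 0 0 1`, types `N0 N2 N0 N1 N3 N1` -/
noncomputable def cT6_807 : CertT :=
  ⟨[k12,k14,k28,k13,k15,k29],[(false,k0,[k0,k1,k2,k3,k4,k5])],[[[([z1,z1,z1,z0,z0,z0],z2)],[([z1,z0,z1,z0,z1,z0],z2)],
    []]],
    [.leafM k6 [k0,k1,k2,k3,k4,k5] [(z1,[y1,z1])] [],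
    .leafM k1 [k0,k1,k2,k3,k4,k5] [(z1,[y1,z1]),(z1,[z1])] [],
    .lp [k2,k2,k2,k2,k2,k4] [k1,k1,k1,k1,k1,k1,k1,k1,k1,k1,k0,k0] k0 [] k8 k5
    [[(k4,k2)],[(k2,k2),(k9,k2)],[(k5,k2),(k6,k2)],[(k0,k2),(k11,k3)],[(k3,k2),(k8,k2)],[(k1,k2)],[(k10,k3)],[(k3,k2),
    (k8,k2)],[(k0,k2),(k11,k3)],[(k5,k2),(k6,k2)],[(k2,k3),(k9,k3)],[(k7,k3)]]
    [] k0
    [[k1,k1,k1,k0,k0,k0],[k1,k0,k1,k0,k1,k0]]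
    [.ref k0 k0 [(z1,[z1])],.ref k1 k0 [(z1,[z1])]]]⟩

/-- classes `0 0 1 0 0 1`, types `N0 N2 N0 N1 N3 N2` -/
noncomputable def cT6_808 : CertT :=
  ⟨[k12,k14,k28,k13,k15,k30],[(false,k0,[k0,k1,k2,k3,k4,k5])],[[[([z1,z0,z0,z1,z1,z0],z2),([z0,z1,z0,z0,y1,z0],z0)],
    [([z1,z0,z0,z1,z1,z0],z2)],[]]],
    [.tor k2 false k1 [(z1,[z1]),(z1,[z1,z1]),(z1,[y1,y1,z1]),(z1,[y1,z0,z1])],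
    .lp [k6,k10,k6,k12,k6,k6] [k3,k3,k1,k1,k3,k3,k0,k0,k3,k3,k3,k3] k0 [[k0,k0,k0,k2],[],[k0,k2]] k24 k5
    [[(k7,k9)],[(k2,k6),(k9,k6)],[(k5,k10),(k6,k11)],[(k0,k6),(k11,k8)],[(k8,k6),(k3,k10)],[(k10,k6)],[(k1,k9)],[(k8,
    k9),(k3,k11)],[(k0,k6),(k11,k6)],[(k5,k6),(k6,k9)],[(k9,k6),(k2,k8)],[(k4,k6)]]
    [] k0
    [[k0,k0,k1,k0,k1,k1]]
    [.ref k0 k0 [(z1,[z0,z1]),(z1,[y1,y1,z1])]],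
    .lp [k6,k12,k2,k6,k6,k14] [k4,k4,k1,k1,k6,k6,k4,k4,k4,k4,k0,k0] k0 [[],[],[k0,k0,k0,k0,k0,k0,k0,k0,k2],[],[],[],[],[],
    [],[k0,k0,k0,k2]] k24 k5
    [[(k7,k6)],[(k9,k6),(k2,k9)],[(k5,k7),(k6,k9)],[(k0,k9),(k11,k11)],[(k8,k6),(k3,k7)],[(k10,k8)],[(k1,k6)],[(k8,
    k6),(k3,k9)],[(k0,k6),(k11,k10)],[(k5,k6),(k6,k6)],[(k9,k10),(k2,k11)],[(k4,k8)]]
    [] k0
    [[k1,k0,k0,k1,k1,k0]]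
    [.ref k1 k0 [(z1,[z1])]]]⟩

/-- classes `0 0 1 0 0 1`, types `N0 N2 N0 N2 N0 N1` -/
noncomputable def cT6_809 : CertT :=
  ⟨[k12,k14,k28,k14,k12,k29],[(false,k0,[k0,k1,k2,k3,k4,k5])],[[[([z1,z1,z1,z0,z0,z0],z2)],[]]],
    [.leafM k6 [k0,k1,k2,k3,k4,k5] [(z1,[y1,z1])] [],
    .lp [k2,k2,k2,k2,k2,k4] [k1,k1,k1,k1,k1,k1,k1,k1,k1,k1,k0,k0] k0 [] k8 k5
    [[(k4,k2)],[(k2,k2),(k6,k2)],[(k5,k2),(k9,k2)],[(k0,k2),(k8,k2)],[(k3,k2),(k11,k3)],[(k1,k2)],[(k10,k3)],[(k0,k2),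
    (k8,k2)],[(k3,k2),(k11,k3)],[(k2,k2),(k6,k2)],[(k5,k3),(k9,k3)],[(k7,k3)]]
    [] k0
    [[k1,k1,k1,k0,k0,k0]]
    [.ref k0 k0 [(z1,[z1])]]]⟩

/-- classes `0 0 1 0 0 1`, types `N0 N2 N0 N2 N0 N2` -/
noncomputable def cT6_810 : CertT :=
  ⟨[k12,k14,k28,k14,k12,k30],[],[[[]]],
    [.lp [k0,k2,k0,k2,k0,k2] [k1,k1,k0,k0,k1,k1,k0,k0,k1,k1,k0,k0] k0 [] k4 k5
    [[(k7,k1)],[(k2,k1),(k6,k1)],[(k5,k1),(k9,k1)],[(k0,k1),(k8,k1)],[(k3,k1),(k11,k1)],[(k10,k1)],[(k1,k1)],[(k0,k1),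
    (k8,k1)],[(k3,k1),(k11,k1)],[(k2,k1),(k6,k1)],[(k5,k1),(k9,k1)],[(k4,k1)]]
    [] k0
    []
    []]⟩

/-- classes `0 0 1 0 0 1`, types `N0 N2 N0 N3 N1 N1` -/
noncomputable def cT6_811 : CertT :=
  ⟨[k12,k14,k28,k15,k13,k29],[(false,k0,[k0,k1,k2,k3,k4,k5])],[[[([z1,z1,z1,z0,z0,z0],z2)],[]]],
    [.leafM k6 [k0,k1,k2,k3,k4,k5] [(z1,[y1,z1])] [],
    .lp [k2,k2,k2,k2,k2,k4] [k1,k1,k1,k1,k1,k1,k1,k1,k1,k1,k0,k0] k0 [] k8 k5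
    [[(k4,k2)],[(k2,k2),(k11,k3)],[(k5,k2),(k8,k2)],[(k0,k2),(k9,k2)],[(k3,k2),(k6,k2)],[(k1,k2)],[(k10,k3)],[(k5,k2),
    (k8,k2)],[(k2,k2),(k11,k3)],[(k3,k2),(k6,k2)],[(k0,k3),(k9,k3)],[(k7,k3)]]
    [] k0
    [[k1,k1,k1,k0,k0,k0]]
    [.ref k0 k0 [(z1,[z1])]]]⟩

/-- classes `0 0 1 0 0 1`, types `N0 N2 N0 N3 N1 N2` -/
noncomputable def cT6_812 : CertT :=
  ⟨[k12,k14,k28,k15,k13,k30],[],[[[]]],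
    [.lp [k0,k2,k0,k2,k0,k2] [k1,k1,k0,k0,k1,k1,k0,k0,k1,k1,k0,k0] k0 [] k4 k5
    [[(k7,k1)],[(k2,k1),(k11,k1)],[(k5,k1),(k8,k1)],[(k0,k1),(k9,k1)],[(k3,k1),(k6,k1)],[(k10,k1)],[(k1,k1)],[(k5,k1),
    (k8,k1)],[(k2,k1),(k11,k1)],[(k3,k1),(k6,k1)],[(k0,k1),(k9,k1)],[(k4,k1)]]
    [] k0
    []
    []]⟩

/-- classes `0 0 1 0 0 1`, types `N0 N2 S0 N0 N2 S0` -/
noncomputable def cT6_813 : CertT :=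
  ⟨[k12,k14,k16,k12,k14,k16],[(true,k2,[k2,k1,k0,k5,k4,k3]),(false,k0,[k0,k1,k2,k3,k4,k5])],[[[([z1,z0,z0,y1,z0,z0],
    z0),([z0,z1,z0,z1,z0,z1],z2)],[([z1,z0,z0,z0,z1,z1],z2),([z0,z1,z0,z0,y1,z0],z0)],[([z1,z0,z0,z0,z1,z1],z2),([z0,
    z1,z1,z0,y1,y1],z0)],[([z1,z0,z0,z0,z1,z1],z2)],[([z1,z0,z1,z0,z1,z0],z2)],[([z1,z1,z1,z0,z0,z0],z2)],[]]],
    [.leafM k5 [k1,k2,k3,k4,k5,k0] [(z1,[z0,y1,z1]),(z1,[z0,z1])] [],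
    .tor k3 false k0 [(z1,[y1,y1,z1]),(z1,[y1,z0,z1]),(z1,[z1]),(z1,[z1,z1])],
    .leafM k6 [k0,k1,k2,k3,k4,k5] [(z1,[y1,y1,z1])] [],
    .lp [k12,k6,k8,k8,k4,k8] [k0,k0,k3,k3,k2,k2,k2,k2,k4,k4,k2,k2] k0 [[k0,k0,k0,k2],[],[k0,k2]] k24 k5
    [[(k4,k10),(k7,k10),(k10,k10),(k1,k12)],[(k2,k7),(k8,k8)],[(k11,k7),(k5,k9)],[(k0,k7),(k6,k7)],[(k9,k6),(k3,k9)],
    [(k4,k8),(k7,k8),(k10,k8),(k1,k10)],[(k4,k8),(k7,k8),(k10,k8),(k1,k10)],[(k8,k6),(k2,k7)],[(k5,k6),(k11,k6)],[(k6,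
    k6),(k0,k8)],[(k9,k6),(k3,k7)],[(k4,k8),(k7,k8),(k10,k8),(k1,k10)]]
    [] k0
    [[k0,k1,k0,k1,k0,k1],[k0,k0,k1,k1,k1,k0],[k0,k0,k0,k1,k1,k1]]
    [.ref k0 k0 [(z1,[y1,y1,z1]),(z1,[z1])],.ref k1 k1 [(z1,[z0,z1]),(z1,[y1,y1,z1])],.ref k2 k1 [(z1,[z0,z1]),(z1,
    [y1,y1,z1])]],
    .leafM k5 [k1,k2,k3,k4,k5,k0] [(z1,[z1]),(z1,[y1,z1])] [],
    .leafM k6 [k0,k1,k2,k3,k4,k5] [(z1,[y1,z1])] [],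
    .lp [k8,k8,k10,k8,k4,k8] [k1,k1,k1,k1,k0,k0,k1,k1,k3,k3,k1,k1] k0 [[],[],[k0,k0,k0,k0,k0,k0,k0,k2],[],[],[],[k0,k0,k0,
    k2]] k24 k5
    [[(k1,k8),(k7,k8),(k10,k8),(k4,k9)],[(k8,k6),(k2,k8)],[(k11,k8),(k5,k9)],[(k6,k6),(k0,k8)],[(k3,k9),(k9,k9)],[(k1,
    k9),(k7,k9),(k10,k9),(k4,k10)],[(k1,k8),(k7,k8),(k10,k8),(k4,k9)],[(k2,k6),(k8,k6)],[(k11,k6),(k5,k9)],[(k0,k6),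
    (k6,k6)],[(k9,k6),(k3,k8)],[(k1,k8),(k7,k8),(k10,k8),(k4,k9)]]
    [] k0
    [[k1,k0,k0,k0,k1,k1],[k0,k1,k0,k1,k0,k1],[k0,k0,k0,k1,k1,k1]]
    [.ref k3 k1 [(z1,[z1])],.ref k4 k1 [(z1,[y1,z1])],.ref k5 k1 [(z1,[y1,z1])]]]⟩

/-- the certificates of this file -/
noncomputable def lT6_8 : List CertT :=
  [cT6_658, cT6_659, cT6_660, cT6_661, cT6_662, cT6_663, cT6_664, cT6_665, cT6_666, cT6_667, cT6_668, cT6_669,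
      cT6_670, cT6_671, cT6_672, cT6_673, cT6_674, cT6_675, cT6_676, cT6_677, cT6_678, cT6_679, cT6_680,
      cT6_681, cT6_682, cT6_683, cT6_684, cT6_685, cT6_686, cT6_687, cT6_688, cT6_689, cT6_690, cT6_691,
      cT6_692, cT6_693, cT6_694, cT6_695, cT6_696, cT6_697, cT6_698, cT6_699, cT6_700, cT6_701, cT6_702,
      cT6_703, cT6_704, cT6_705, cT6_706, cT6_707, cT6_708, cT6_709, cT6_710, cT6_711, cT6_712, cT6_713,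
      cT6_714, cT6_715, cT6_716, cT6_717, cT6_718, cT6_719, cT6_720, cT6_721, cT6_722, cT6_723, cT6_724,
      cT6_725, cT6_726, cT6_727, cT6_728, cT6_729, cT6_730, cT6_731, cT6_732, cT6_733, cT6_734, cT6_735,
      cT6_736, cT6_737, cT6_738, cT6_739, cT6_740, cT6_741, cT6_742, cT6_743, cT6_744, cT6_745, cT6_746,
      cT6_747, cT6_748, cT6_749, cT6_750, cT6_751, cT6_752, cT6_753, cT6_754, cT6_755, cT6_756, cT6_757,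
      cT6_758, cT6_759, cT6_760, cT6_761, cT6_762, cT6_763, cT6_764, cT6_765, cT6_766, cT6_767, cT6_768,
      cT6_769, cT6_770, cT6_771, cT6_772, cT6_773, cT6_774, cT6_775, cT6_776, cT6_777, cT6_778, cT6_779,
      cT6_780, cT6_781, cT6_782, cT6_783, cT6_784, cT6_785, cT6_786, cT6_787, cT6_788, cT6_789, cT6_790,
      cT6_791, cT6_792, cT6_793, cT6_794, cT6_795, cT6_796, cT6_797, cT6_798, cT6_799, cT6_800, cT6_801,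
      cT6_802, cT6_803, cT6_804, cT6_805, cT6_806, cT6_807, cT6_808, cT6_809, cT6_810, cT6_811, cT6_812,
      cT6_813]

theorem gT6_8 : allF (chkC 6 tt6) lT6_8 = true := by
  decide +kernel

end Pool.Agent.Lib_MP_fa6e45
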