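import Pool.Agent.Lib_MP_fa6e45.CSTT
import Pool.Agent.Lib_MP_fa6e45.HK

/-!
MP_fa6e45_co, stage 5: certificates (captain, generated by a program).
-/

namespace Pool.Agent.Lib_MP_fa6e45

/-- classes `0 0 1 0 0 1`, types `N0 N2 S0 N1 N3 S0` -/
noncomputable def cT6_814 : CertT :=
  ⟨[k12,k14,k16,k13,k15,k16],[(false,k3,[k3,k4,k5,k0,k1,k2]),(false,k0,[k0,k1,k2,k3,k4,k5])],[[[([z1,z0,z0,z0,z0,y1],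
    z0),([z0,z1,z0,z1,z0,z1],z2)],[([z1,z0,z0,z1,z1,z0],z2),([z0,z1,z0,z0,y1,z0],z0)],[([z1,z0,z0,z0,z0,y1],z0),([z0,
    z1,z1,z0,z0,z1],z2)],[([z1,z0,z0,z1,z1,z0],z2)],[([z1,z0,z1,z0,z1,z0],z2)],[([z1,z1,z1,z0,z0,z0],z2)],[]]],
    [.leafM k1 [k0,k1,k2,k3,k4,k5] [(z1,[z0,z1]),(z1,[z0,y1,z1])] [],
    .tor k2 false k1 [(z1,[z1]),(z1,[z1,z1]),(z1,[y1,y1,z1]),(z1,[y1,z0,z1])],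
    .leafM k6 [k0,k1,k2,k3,k4,k5] [(z1,[y1,y1,z1])] [],
    .lp [k12,k6,k8,k8,k4,k8] [k0,k0,k3,k3,k2,k2,k2,k2,k4,k4,k2,k2] k0 [[k0,k0,k0,k2],[],[k0,k2]] k24 k5
    [[(k4,k10),(k7,k10),(k10,k10),(k1,k12)],[(k2,k7),(k9,k8)],[(k6,k7),(k5,k9)],[(k0,k7),(k11,k7)],[(k8,k6),(k3,k9)],
    [(k4,k8),(k7,k8),(k10,k8),(k1,k10)],[(k4,k8),(k7,k8),(k10,k8),(k1,k10)],[(k8,k6),(k3,k7)],[(k11,k6),(k0,k8)],[(k5,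
    k6),(k6,k6)],[(k9,k6),(k2,k7)],[(k4,k8),(k7,k8),(k10,k8),(k1,k10)]]
    [] k0
    [[k0,k1,k0,k1,k0,k1],[k0,k0,k1,k0,k1,k1],[k0,k0,k0,k1,k1,k1]]
    [.ref k0 k0 [(z1,[z1,z1,y1]),(z1,[y1,z0,z1])],.ref k1 k1 [(z1,[z0,z1]),(z1,[y1,y1,z1])],.ref k2 k1 [(z1,[y1,z1]),
    (z1,[z0,y1,z1])]],
    .leafM k1 [k0,k1,k2,k3,k4,k5] [(z1,[y1,z1]),(z1,[z1])] [],
    .leafM k6 [k0,k1,k2,k3,k4,k5] [(z1,[y1,z1])] [],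
    .lp [k12,k4,k8,k6,k8,k8] [k0,k0,k4,k4,k2,k2,k3,k3,k2,k2,k2,k2] k0 [[k0,k0,k0,k0,k0,k0,k2],[],[],[],[],[],[],[k0,
    k2]] k24 k5
    [[(k7,k9),(k4,k10),(k10,k10),(k1,k12)],[(k2,k8),(k9,k8)],[(k5,k6),(k6,k7)],[(k11,k6),(k0,k8)],[(k3,k6),(k8,k8)],
    [(k7,k7),(k4,k8),(k10,k8),(k1,k10)],[(k7,k6),(k4,k7),(k10,k7),(k1,k9)],[(k3,k7),(k8,k7)],[(k0,k8),(k11,k8)],[(k6,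
    k7),(k5,k8)],[(k2,k6),(k9,k8)],[(k7,k7),(k4,k8),(k10,k8),(k1,k10)]]
    [] k0
    [[k0,k1,k1,k0,k0,k1],[k0,k1,k0,k1,k0,k1],[k0,k0,k0,k1,k1,k1]]
    [.ref k3 k1 [(z1,[y1,z1])],.ref k4 k1 [(z1,[y1,z1])],.ref k5 k1 [(z1,[y1,z1])]]]⟩

/-- classes `0 0 1 0 0 1`, types `N0 N2 S0 N2 N0 S0` -/
noncomputable def cT6_815 : CertT :=
  ⟨[k12,k14,k16,k14,k12,k16],[(false,k0,[k0,k1,k2,k3,k4,k5])],[[[([z1,z1,z1,z0,z0,z0],z2)],[]]],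
    [.leafM k6 [k0,k1,k2,k3,k4,k5] [(z1,[y1,z1])] [],
    .lp [k2,k2,k2,k2,k2,k4] [k1,k1,k1,k1,k1,k1,k1,k1,k1,k1,k0,k0] k0 [] k8 k5
    [[(k1,k2),(k4,k2),(k7,k2),(k10,k3)],[(k2,k2),(k6,k2)],[(k5,k2),(k9,k2)],[(k0,k2),(k8,k2)],[(k3,k2),(k11,k3)],[(k1,
    k2),(k4,k2),(k7,k2),(k10,k3)],[(k1,k2),(k4,k2),(k7,k2),(k10,k3)],[(k0,k2),(k8,k2)],[(k3,k2),(k11,k3)],[(k2,k2),
    (k6,k2)],[(k5,k3),(k9,k3)],[(k1,k3),(k4,k3),(k7,k3),(k10,k4)]]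
    [] k0
    [[k1,k1,k1,k0,k0,k0]]
    [.ref k0 k0 [(z1,[z1])]]]⟩

/-- classes `0 0 1 0 0 1`, types `N0 N2 S0 N3 N1 S0` -/
noncomputable def cT6_816 : CertT :=
  ⟨[k12,k14,k16,k15,k13,k16],[(false,k0,[k0,k1,k2,k3,k4,k5])],[[[([z1,z1,z1,z0,z0,z0],z2)],[]]],
    [.leafM k6 [k0,k1,k2,k3,k4,k5] [(z1,[y1,z1])] [],
    .lp [k4,k2,k2,k2,k2,k2] [k0,k0,k1,k1,k1,k1,k1,k1,k1,k1,k1,k1] k0 [] k8 k5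
    [[(k4,k3),(k7,k3),(k10,k3),(k1,k4)],[(k2,k3),(k11,k3)],[(k5,k2),(k8,k2)],[(k9,k2),(k0,k3)],[(k3,k2),(k6,k2)],[(k4,
    k2),(k7,k2),(k10,k2),(k1,k3)],[(k4,k2),(k7,k2),(k10,k2),(k1,k3)],[(k5,k2),(k8,k2)],[(k2,k2),(k11,k2)],[(k3,k2),
    (k6,k2)],[(k9,k2),(k0,k3)],[(k4,k2),(k7,k2),(k10,k2),(k1,k3)]]
    [] k0
    [[k0,k0,k0,k1,k1,k1]]
    [.ref k0 k0 [(z1,[y1,z1])]]]⟩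

/-- classes `0 0 1 0 0 1`, types `N0 N3 B0 N1 N2 B1` -/
noncomputable def cT6_817 : CertT :=
  ⟨[k12,k15,k24,k13,k14,k25],[(false,k0,[k0,k1,k2,k3,k4,k5])],[[[([z1,z0,z1,z0,z1,z0],z2)],[]]],
    [.leafM k1 [k0,k1,k2,k3,k4,k5] [(z1,[y1,z1]),(z1,[z1])] [],
    .lp [k2,k4,k2,k2,k2,k2] [k1,k1,k0,k0,k1,k1,k1,k1,k1,k1,k1,k1] k0 [] k8 k5
    [[(k4,k2),(k7,k2)],[(k8,k2),(k9,k2)],[(k6,k3),(k11,k3)],[(k6,k3),(k11,k3)],[(k8,k2),(k9,k2)],[(k1,k2),(k10,k2)],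
    [(k1,k2),(k10,k2)],[(k2,k3),(k3,k3)],[(k0,k2),(k5,k2)],[(k0,k2),(k5,k2)],[(k2,k3),(k3,k3)],[(k4,k2),(k7,k2)]]
    [] k0
    [[k1,k0,k1,k0,k1,k0]]
    [.ref k0 k0 [(z1,[z1])]]]⟩

/-- classes `0 0 1 0 0 1`, types `N0 N3 B0 N2 N1 B1` -/
noncomputable def cT6_818 : CertT :=
  ⟨[k12,k15,k24,k14,k13,k25],[],[[[]]],
    [.lp [k2,k4,k2,k2,k0,k2] [k1,k1,k0,k0,k1,k1,k1,k1,k2,k2,k1,k1] k0 [] k8 k5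
    [[(k4,k2),(k7,k2)],[(k6,k2),(k11,k2)],[(k8,k2),(k9,k2)],[(k8,k2),(k9,k2)],[(k6,k2),(k11,k2)],[(k1,k2),(k10,k2)],
    [(k1,k2),(k10,k2)],[(k0,k2),(k5,k2)],[(k2,k2),(k3,k2)],[(k2,k2),(k3,k2)],[(k0,k2),(k5,k2)],[(k4,k2),(k7,k2)]]
    [] k0
    []
    []]⟩

/-- classes `0 0 1 0 0 1`, types `N0 N3 C0 N1 N2 C0` -/
noncomputable def cT6_819 : CertT :=
  ⟨[k12,k15,k20,k13,k14,k20],[(false,k0,[k0,k1,k2,k3,k4,k5])],[[[([z1,z0,z1,z0,z1,z0],z2)],[]]],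
    [.leafM k1 [k0,k1,k2,k3,k4,k5] [(z1,[y1,z1]),(z1,[z1])] [],
    .lp [k2,k4,k2,k2,k2,k2] [k1,k1,k0,k0,k1,k1,k1,k1,k1,k1,k1,k1] k0 [] k8 k5
    [[(k4,k2),(k10,k2)],[(k8,k2),(k9,k2)],[(k6,k3),(k11,k3)],[(k6,k3),(k11,k3)],[(k8,k2),(k9,k2)],[(k1,k2),(k7,k2)],
    [(k4,k2),(k10,k2)],[(k2,k3),(k3,k3)],[(k0,k2),(k5,k2)],[(k0,k2),(k5,k2)],[(k2,k3),(k3,k3)],[(k1,k2),(k7,k2)]]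
    [] k0
    [[k1,k0,k1,k0,k1,k0]]
    [.ref k0 k0 [(z1,[z1])]]]⟩

/-- classes `0 0 1 0 0 1`, types `N0 N3 C0 N1 N2 C2` -/
noncomputable def cT6_820 : CertT :=
  ⟨[k12,k15,k20,k13,k14,k22],[],[[[]]],
    [.lp [k2,k2,k2,k0,k0,k0] [k0,k0,k0,k0,k0,k0,k1,k1,k1,k1,k1,k1] k0 [] k4 k5
    [[(k7,k1),(k10,k1)],[(k8,k1),(k9,k1)],[(k6,k1),(k11,k1)],[(k6,k1),(k11,k1)],[(k8,k1),(k9,k1)],[(k7,k1),(k10,k1)],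
    [(k1,k1),(k4,k1)],[(k2,k1),(k3,k1)],[(k0,k1),(k5,k1)],[(k0,k1),(k5,k1)],[(k2,k1),(k3,k1)],[(k1,k1),(k4,k1)]]
    [] k0
    []
    []]⟩

/-- classes `0 0 1 0 0 1`, types `N0 N3 C0 N2 N1 C0` -/
noncomputable def cT6_821 : CertT :=
  ⟨[k12,k15,k20,k14,k13,k20],[],[[[]]],
    [.lp [k2,k4,k2,k2,k0,k2] [k1,k1,k0,k0,k1,k1,k1,k1,k2,k2,k1,k1] k0 [] k8 k5
    [[(k4,k2),(k10,k2)],[(k6,k2),(k11,k2)],[(k8,k2),(k9,k2)],[(k8,k2),(k9,k2)],[(k6,k2),(k11,k2)],[(k1,k2),(k7,k2)],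
    [(k4,k2),(k10,k2)],[(k0,k2),(k5,k2)],[(k2,k2),(k3,k2)],[(k2,k2),(k3,k2)],[(k0,k2),(k5,k2)],[(k1,k2),(k7,k2)]]
    [] k0
    []
    []]⟩

/-- classes `0 0 1 0 0 1`, types `N0 N3 C0 N2 N1 C2` -/
noncomputable def cT6_822 : CertT :=
  ⟨[k12,k15,k20,k14,k13,k22],[],[[[]]],
    [.lp [k0,k2,k0,k2,k0,k2] [k1,k1,k0,k0,k1,k1,k0,k0,k1,k1,k0,k0] k0 [] k4 k5
    [[(k7,k1),(k10,k1)],[(k6,k1),(k11,k1)],[(k8,k1),(k9,k1)],[(k8,k1),(k9,k1)],[(k6,k1),(k11,k1)],[(k7,k1),(k10,k1)],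
    [(k1,k1),(k4,k1)],[(k0,k1),(k5,k1)],[(k2,k1),(k3,k1)],[(k2,k1),(k3,k1)],[(k0,k1),(k5,k1)],[(k1,k1),(k4,k1)]]
    [] k0
    []
    []]⟩

/-- classes `0 0 1 0 0 1`, types `N0 N3 N0 N1 N2 N1` -/
noncomputable def cT6_823 : CertT :=
  ⟨[k12,k15,k28,k13,k14,k29],[(false,k0,[k0,k1,k2,k3,k4,k5])],[[[([z1,z0,z1,z0,z1,z0],z2)],[]]],
    [.leafM k1 [k0,k1,k2,k3,k4,k5] [(z1,[y1,z1]),(z1,[z1])] [],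
    .lp [k2,k4,k2,k0,k2,k4] [k1,k1,k0,k0,k1,k1,k2,k2,k1,k1,k0,k0] k0 [] k8 k5
    [[(k4,k2)],[(k8,k2),(k9,k2)],[(k6,k2),(k11,k4)],[(k6,k2),(k11,k4)],[(k8,k2),(k9,k2)],[(k1,k2)],[(k10,k2)],[(k2,
    k2),(k3,k2)],[(k0,k2),(k5,k2)],[(k0,k2),(k5,k2)],[(k2,k4),(k3,k4)],[(k7,k2)]]
    [] k0
    [[k1,k0,k1,k0,k1,k0]]
    [.ref k0 k0 [(z1,[z1])]]]⟩

/-- classes `0 0 1 0 0 1`, types `N0 N3 N0 N1 N2 N2` -/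
noncomputable def cT6_824 : CertT :=
  ⟨[k12,k15,k28,k13,k14,k30],[],[[[]]],
    [.lp [k2,k2,k2,k0,k0,k0] [k0,k0,k0,k0,k0,k0,k1,k1,k1,k1,k1,k1] k0 [] k4 k5
    [[(k7,k1)],[(k8,k1),(k9,k1)],[(k6,k1),(k11,k1)],[(k6,k1),(k11,k1)],[(k8,k1),(k9,k1)],[(k10,k1)],[(k1,k1)],[(k2,
    k1),(k3,k1)],[(k0,k1),(k5,k1)],[(k0,k1),(k5,k1)],[(k2,k1),(k3,k1)],[(k4,k1)]]
    [] k0
    []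
    []]⟩

/-- classes `0 0 1 0 0 1`, types `N0 N3 N0 N2 N1 N1` -/
noncomputable def cT6_825 : CertT :=
  ⟨[k12,k15,k28,k14,k13,k29],[],[[[]]],
    [.lp [k2,k4,k2,k2,k0,k2] [k1,k1,k0,k0,k1,k1,k1,k1,k2,k2,k1,k1] k0 [] k8 k5
    [[(k4,k2)],[(k6,k2),(k11,k2)],[(k8,k2),(k9,k2)],[(k8,k2),(k9,k2)],[(k6,k2),(k11,k2)],[(k1,k2)],[(k10,k2)],[(k0,
    k2),(k5,k2)],[(k2,k2),(k3,k2)],[(k2,k2),(k3,k2)],[(k0,k2),(k5,k2)],[(k7,k2)]]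
    [] k0
    []
    []]⟩

/-- classes `0 0 1 0 0 1`, types `N0 N3 N0 N2 N1 N2` -/
noncomputable def cT6_826 : CertT :=
  ⟨[k12,k15,k28,k14,k13,k30],[],[[[]]],
    [.lp [k0,k2,k0,k2,k0,k2] [k1,k1,k0,k0,k1,k1,k0,k0,k1,k1,k0,k0] k0 [] k4 k5
    [[(k7,k1)],[(k6,k1),(k11,k1)],[(k8,k1),(k9,k1)],[(k8,k1),(k9,k1)],[(k6,k1),(k11,k1)],[(k10,k1)],[(k1,k1)],[(k0,
    k1),(k5,k1)],[(k2,k1),(k3,k1)],[(k2,k1),(k3,k1)],[(k0,k1),(k5,k1)],[(k4,k1)]]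
    [] k0
    []
    []]⟩

/-- classes `0 0 1 0 0 1`, types `N0 N3 S0 N1 N2 S0` -/
noncomputable def cT6_827 : CertT :=
  ⟨[k12,k15,k16,k13,k14,k16],[(false,k0,[k0,k1,k2,k3,k4,k5]),(true,k5,[k5,k4,k3,k2,k1,k0])],[[[([z1,z0,z1,z0,z1,z0],
    z2)],[([z2,z0,z0,z0,z1,z0],z2),([z0,z1,z0,z1,z0,z1],z2)],[([z2,z0,z0,z0,z1,z0],z2)],[]]],
    [.leafM k1 [k0,k1,k2,k3,k4,k5] [(z1,[y1,z1]),(z1,[z1])] [],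
    .leafM k1 [k0,k1,k2,k3,k4,k5] [(z1,[z0,z1]),(z1,[z0,y1,z1])] [],
    .lp [k10,k0,k6,k12,k6,k12] [k1,k1,k6,k6,k3,k3,k0,k0,k3,k3,k0,k0] k0 [[],[],[],[],[],[k0,k0,k0,k0,k0,k0,k0,k0,k0,k0,k0,
    k2],[],[],[],[],[k0,k0,k0,k0,k2]] k24 k5
    [[(k1,k10),(k4,k10),(k7,k11),(k10,k11)],[(k8,k8),(k9,k8)],[(k6,k6),(k11,k6)],[(k6,k6),(k11,k6)],[(k8,k6),(k9,k6)],
    [(k4,k6),(k7,k9),(k10,k9),(k1,k10)],[(k4,k9),(k10,k10),(k1,k11),(k7,k12)],[(k2,k6),(k3,k6)],[(k5,k6),(k0,k8)],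
    [(k5,k6),(k0,k8)],[(k2,k6),(k3,k6)],[(k4,k9),(k7,k10),(k1,k11),(k10,k12)]]
    [] k0
    [[k0,k1,k0,k1,k0,k1],[k0,k0,k2,k0,k1,k0]]
    [.ref k1 k0 [(z1,[z0,z1]),(z1,[z1])],.ref k1 k0 [(z1,[z0,z1]),(z2,[y1,y1,z2])]],
    .lp [k8,k4,k8,k6,k0,k4] [k0,k0,k2,k2,k0,k0,k1,k1,k4,k4,k2,k2] k0 [] k16 k5
    [[(k10,k6),(k7,k7),(k1,k8),(k4,k8)],[(k8,k4),(k9,k4)],[(k11,k4),(k6,k5)],[(k11,k4),(k6,k5)],[(k8,k4),(k9,k4)],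
    [(k10,k6),(k7,k7),(k1,k8),(k4,k8)],[(k10,k5),(k7,k6),(k1,k7),(k4,k7)],[(k2,k5),(k3,k5)],[(k0,k4),(k5,k4)],[(k0,
    k4),(k5,k4)],[(k2,k4),(k3,k4)],[(k10,k4),(k7,k5),(k1,k6),(k4,k6)]]
    [] k0
    [[k0,k1,k0,k1,k0,k1],[k0,k1,k0,k0,k0,k2]]
    [.ref k0 k0 [(z1,[y1,z1])],.ref k2 k1 [(z1,[z1])]]]⟩

/-- classes `0 0 1 0 0 1`, types `N0 N3 S0 N2 N1 S0` -/
noncomputable def cT6_828 : CertT :=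
  ⟨[k12,k15,k16,k14,k13,k16],[],[[[]]],
    [.lp [k2,k0,k2,k2,k4,k2] [k1,k1,k2,k2,k1,k1,k1,k1,k0,k0,k1,k1] k0 [] k8 k5
    [[(k1,k2),(k4,k2),(k7,k2),(k10,k2)],[(k6,k2),(k11,k2)],[(k8,k2),(k9,k2)],[(k8,k2),(k9,k2)],[(k6,k2),(k11,k2)],
    [(k1,k2),(k4,k2),(k7,k2),(k10,k2)],[(k1,k2),(k4,k2),(k7,k2),(k10,k2)],[(k0,k2),(k5,k2)],[(k2,k2),(k3,k2)],[(k2,
    k2),(k3,k2)],[(k0,k2),(k5,k2)],[(k1,k2),(k4,k2),(k7,k2),(k10,k2)]]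
    [] k0
    []
    []]⟩

/-- classes `0 0 1 0 0 1`, types `S0 S0 B0 S0 S0 B1` -/
noncomputable def cT6_829 : CertT :=
  ⟨[k0,k0,k24,k0,k0,k25],[(false,k0,[k0,k1,k2,k3,k4,k5]),(false,k3,[k3,k4,k5,k0,k1,k2])],[[[([z1,z1,z1,z0,z0,z0],z2)],
    [([z1,z0,z1,z0,z1,z0],z2)],[([z1,z0,z0,z1,z1,z0],z2)],[]]],
    [.leafM k0 [k2,k3,k4,k5,k0,k1] [(z1,[y1,z1])] [],
    .leafM k1 [k0,k1,k2,k3,k4,k5] [(z1,[y1,z1]),(z1,[z1])] [],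
    .leafM k3 [k4,k5,k0,k1,k2,k3] [(z1,[y1,z1])] [],
    .lp [k6,k10,k6,k8,k8,k8] [k2,k2,k0,k0,k2,k2,k1,k1,k1,k1,k1,k1] k0 [] k24 k5
    [[(k4,k6),(k7,k7)],[(k0,k6),(k5,k6),(k6,k7),(k8,k7),(k9,k7),(k11,k7),(k2,k8),(k3,k8)],[(k0,k8),(k5,k8),(k6,k9),
    (k8,k9),(k9,k9),(k11,k9),(k2,k10),(k3,k10)],[(k0,k8),(k5,k8),(k6,k9),(k8,k9),(k9,k9),(k11,k9),(k2,k10),(k3,k10)],
    [(k0,k6),(k5,k6),(k6,k7),(k8,k7),(k9,k7),(k11,k7),(k2,k8),(k3,k8)],[(k1,k6),(k10,k7)],[(k1,k7),(k10,k8)],[(k0,k7),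
    (k5,k7),(k6,k8),(k8,k8),(k9,k8),(k11,k8),(k2,k9),(k3,k9)],[(k0,k7),(k5,k7),(k6,k8),(k8,k8),(k9,k8),(k11,k8),(k2,
    k9),(k3,k9)],[(k0,k7),(k5,k7),(k6,k8),(k8,k8),(k9,k8),(k11,k8),(k2,k9),(k3,k9)],[(k0,k7),(k5,k7),(k6,k8),(k8,k8),
    (k9,k8),(k11,k8),(k2,k9),(k3,k9)],[(k4,k7),(k7,k8)]]
    [] k0
    [[k1,k1,k1,k0,k0,k0],[k1,k0,k1,k0,k1,k0],[k1,k0,k0,k1,k1,k0],[k0,k0,k1,k0,k1,k1]]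
    [.ref k0 k0 [(z1,[z1])],.ref k1 k0 [(z1,[z1])],.ref k2 k0 [(z1,[z1])],.ref k2 k1 [(z1,[y1,z1])]]]⟩

/-- classes `0 0 1 0 0 1`, types `S0 S0 C0 S0 S0 C0` -/
noncomputable def cT6_830 : CertT :=
  ⟨[k0,k0,k20,k0,k0,k20],[(false,k0,[k0,k1,k2,k3,k4,k5]),(true,k2,[k2,k1,k0,k5,k4,k3])],[[[([z1,z1,z1,z0,z0,z0],z2)],
    [([z1,z0,z1,z0,z1,z0],z2)],[([z1,z0,z0,z0,z1,z1],z2)],[]]],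
    [.leafM k0 [k2,k3,k4,k5,k0,k1] [(z1,[y1,z1])] [],
    .leafM k1 [k0,k1,k2,k3,k4,k5] [(z1,[y1,z1]),(z1,[z1])] [],
    .leafM k0 [k0,k1,k2,k3,k4,k5] [(z1,[y1,z1])] [],
    .lp [k6,k8,k6,k10,k8,k6] [k2,k2,k1,k1,k2,k2,k0,k0,k1,k1,k2,k2] k0 [] k24 k5
    [[(k4,k6),(k10,k6)],[(k0,k6),(k5,k6),(k11,k6),(k2,k7),(k3,k7),(k8,k7),(k9,k7),(k6,k8)],[(k0,k7),(k5,k7),(k11,k7),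
    (k2,k8),(k3,k8),(k8,k8),(k9,k8),(k6,k9)],[(k0,k7),(k5,k7),(k11,k7),(k2,k8),(k3,k8),(k8,k8),(k9,k8),(k6,k9)],[(k0,
    k6),(k5,k6),(k11,k6),(k2,k7),(k3,k7),(k8,k7),(k9,k7),(k6,k8)],[(k1,k6),(k7,k8)],[(k4,k8),(k10,k8)],[(k0,k8),(k5,
    k8),(k11,k8),(k2,k9),(k3,k9),(k8,k9),(k9,k9),(k6,k10)],[(k0,k7),(k5,k7),(k11,k7),(k2,k8),(k3,k8),(k8,k8),(k9,k8),
    (k6,k9)],[(k0,k7),(k5,k7),(k11,k7),(k2,k8),(k3,k8),(k8,k8),(k9,k8),(k6,k9)],[(k0,k6),(k5,k6),(k11,k6),(k2,k7),(k3,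
    k7),(k8,k7),(k9,k7),(k6,k8)],[(k1,k6),(k7,k8)]]
    [] k0
    [[k1,k1,k1,k0,k0,k0],[k1,k0,k1,k0,k1,k0],[k1,k1,k0,k0,k0,k1],[k1,k0,k0,k0,k1,k1]]
    [.ref k0 k0 [(z1,[z1])],.ref k1 k0 [(z1,[z1])],.ref k2 k1 [(z1,[y1,z1])],.ref k2 k0 [(z1,[z1])]]]⟩

/-- classes `0 0 1 0 0 1`, types `S0 S0 C0 S0 S0 C2` -/
noncomputable def cT6_831 : CertT :=
  ⟨[k0,k0,k20,k0,k0,k22],[(false,k3,[k3,k4,k5,k0,k1,k2]),(false,k0,[k0,k1,k2,k3,k4,k5]),(true,k2,[k2,k1,k0,k5,k4,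
    k3])],[[[([z1,z0,z0,z1,z1,z0],z2)],[([z1,z0,z0,z0,z1,z1],z2)],[]]],
    [.leafM k3 [k4,k5,k0,k1,k2,k3] [(z1,[y1,z1])] [],
    .leafM k0 [k0,k1,k2,k3,k4,k5] [(z1,[y1,z1])] [],
    .lp [k6,k8,k6,k6,k8,k10] [k2,k2,k1,k1,k2,k2,k2,k2,k1,k1,k0,k0] k0 [] k24 k5
    [[(k7,k6),(k10,k8)],[(k0,k6),(k5,k6),(k6,k6),(k2,k7),(k3,k7),(k8,k7),(k9,k7),(k11,k8)],[(k0,k7),(k5,k7),(k6,k7),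
    (k2,k8),(k3,k8),(k8,k8),(k9,k8),(k11,k9)],[(k0,k7),(k5,k7),(k6,k7),(k2,k8),(k3,k8),(k8,k8),(k9,k8),(k11,k9)],[(k0,
    k6),(k5,k6),(k6,k6),(k2,k7),(k3,k7),(k8,k7),(k9,k7),(k11,k8)],[(k7,k6),(k10,k8)],[(k1,k6),(k4,k6)],[(k0,k6),(k5,
    k6),(k6,k6),(k2,k7),(k3,k7),(k8,k7),(k9,k7),(k11,k8)],[(k0,k7),(k5,k7),(k6,k7),(k2,k8),(k3,k8),(k8,k8),(k9,k8),
    (k11,k9)],[(k0,k7),(k5,k7),(k6,k7),(k2,k8),(k3,k8),(k8,k8),(k9,k8),(k11,k9)],[(k0,k8),(k5,k8),(k6,k8),(k2,k9),(k3,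
    k9),(k8,k9),(k9,k9),(k11,k10)],[(k1,k8),(k4,k8)]]
    [] k0
    [[k1,k1,k0,k1,k0,k0],[k1,k0,k0,k1,k1,k0],[k0,k1,k1,k1,k0,k0],[k0,k0,k1,k1,k1,k0]]
    [.ref k0 k0 [(z1,[z1])],.ref k0 k1 [(z1,[z1])],.ref k1 k1 [(z1,[y1,z1])],.ref k1 k2 [(z1,[z1])]]]⟩

/-- classes `0 0 1 0 0 1`, types `S0 S0 N0 S0 S0 N1` -/
noncomputable def cT6_832 : CertT :=
  ⟨[k0,k0,k28,k0,k0,k29],[(false,k0,[k0,k1,k2,k3,k4,k5])],[[[([z1,z1,z1,z0,z0,z0],z2)],[([z1,z0,z1,z0,z1,z0],z2)],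
    []]],
    [.leafM k0 [k2,k3,k4,k5,k0,k1] [(z1,[y1,z1])] [],
    .leafM k1 [k0,k1,k2,k3,k4,k5] [(z1,[y1,z1]),(z1,[z1])] [],
    .lp [k6,k8,k6,k6,k8,k10] [k2,k2,k1,k1,k2,k2,k2,k2,k1,k1,k0,k0] k0 [] k24 k5
    [[(k4,k6)],[(k0,k6),(k5,k6),(k6,k6),(k2,k7),(k3,k7),(k8,k7),(k9,k7),(k11,k8)],[(k0,k7),(k5,k7),(k6,k7),(k2,k8),
    (k3,k8),(k8,k8),(k9,k8),(k11,k9)],[(k0,k7),(k5,k7),(k6,k7),(k2,k8),(k3,k8),(k8,k8),(k9,k8),(k11,k9)],[(k0,k6),(k5,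
    k6),(k6,k6),(k2,k7),(k3,k7),(k8,k7),(k9,k7),(k11,k8)],[(k1,k6)],[(k10,k8)],[(k0,k6),(k5,k6),(k6,k6),(k2,k7),(k3,
    k7),(k8,k7),(k9,k7),(k11,k8)],[(k0,k7),(k5,k7),(k6,k7),(k2,k8),(k3,k8),(k8,k8),(k9,k8),(k11,k9)],[(k0,k7),(k5,k7),
    (k6,k7),(k2,k8),(k3,k8),(k8,k8),(k9,k8),(k11,k9)],[(k0,k8),(k5,k8),(k6,k8),(k2,k9),(k3,k9),(k8,k9),(k9,k9),(k11,
    k10)],[(k7,k8)]]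
    [] k0
    [[k1,k1,k1,k0,k0,k0],[k1,k0,k1,k0,k1,k0]]
    [.ref k0 k0 [(z1,[z1])],.ref k1 k0 [(z1,[z1])]]]⟩

/-- classes `0 0 1 0 0 1`, types `S0 S0 N0 S0 S0 N2` -/
noncomputable def cT6_833 : CertT :=
  ⟨[k0,k0,k28,k0,k0,k30],[(false,k3,[k3,k4,k5,k0,k1,k2]),(false,k0,[k0,k1,k2,k3,k4,k5])],[[[([z1,z0,z0,z1,z1,z0],z2)],
    []]],
    [.leafM k3 [k4,k5,k0,k1,k2,k3] [(z1,[y1,z1])] [],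
    .lp [k6,k8,k6,k6,k8,k10] [k2,k2,k1,k1,k2,k2,k2,k2,k1,k1,k0,k0] k0 [] k24 k5
    [[(k7,k6)],[(k0,k6),(k5,k6),(k6,k6),(k2,k7),(k3,k7),(k8,k7),(k9,k7),(k11,k8)],[(k0,k7),(k5,k7),(k6,k7),(k2,k8),
    (k3,k8),(k8,k8),(k9,k8),(k11,k9)],[(k0,k7),(k5,k7),(k6,k7),(k2,k8),(k3,k8),(k8,k8),(k9,k8),(k11,k9)],[(k0,k6),(k5,
    k6),(k6,k6),(k2,k7),(k3,k7),(k8,k7),(k9,k7),(k11,k8)],[(k10,k8)],[(k1,k6)],[(k0,k6),(k5,k6),(k6,k6),(k2,k7),(k3,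
    k7),(k8,k7),(k9,k7),(k11,k8)],[(k0,k7),(k5,k7),(k6,k7),(k2,k8),(k3,k8),(k8,k8),(k9,k8),(k11,k9)],[(k0,k7),(k5,k7),
    (k6,k7),(k2,k8),(k3,k8),(k8,k8),(k9,k8),(k11,k9)],[(k0,k8),(k5,k8),(k6,k8),(k2,k9),(k3,k9),(k8,k9),(k9,k9),(k11,
    k10)],[(k4,k8)]]
    [] k0
    [[k1,k1,k0,k1,k0,k0],[k1,k0,k0,k1,k1,k0]]
    [.ref k0 k0 [(z1,[z1])],.ref k0 k1 [(z1,[z1])]]]⟩

/-- classes `0 0 1 0 0 2`, types `B0 B0 C0 B1 B1 C0` -/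
noncomputable def cT6_834 : CertT :=
  ⟨[k8,k8,k20,k9,k9,k36],[],[[[]]],
    [.lp [k0,k0,k0,k2,k2,k2] [k1,k1,k1,k1,k1,k1,k0,k0,k0,k0,k0,k0] k0 [] k4 k5
    [[(k10,k1)],[(k6,k1),(k8,k1),(k9,k1),(k11,k1)],[(k6,k1),(k8,k1),(k9,k1),(k11,k1)],[(k6,k1),(k8,k1),(k9,k1),(k11,
    k1)],[(k6,k1),(k8,k1),(k9,k1),(k11,k1)],[(k7,k1)],[(k4,k1)],[(k0,k1),(k2,k1),(k3,k1),(k5,k1)],[(k0,k1),(k2,k1),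
    (k3,k1),(k5,k1)],[(k0,k1),(k2,k1),(k3,k1),(k5,k1)],[(k0,k1),(k2,k1),(k3,k1),(k5,k1)],[(k1,k1)]]
    [] k0
    []
    []]⟩

/-- classes `0 0 1 0 0 2`, types `B0 B0 C0 B1 B1 S0` -/
noncomputable def cT6_835 : CertT :=
  ⟨[k8,k8,k20,k9,k9,k32],[],[[[]]],
    [.lp [k2,k0,k0,k4,k4,k4] [k1,k1,k2,k2,k2,k2,k0,k0,k0,k0,k0,k0] k0 [] k8 k5
    [[(k1,k2),(k10,k3)],[(k6,k3),(k8,k3),(k9,k3),(k11,k3)],[(k6,k2),(k8,k2),(k9,k2),(k11,k2)],[(k6,k2),(k8,k2),(k9,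
    k2),(k11,k2)],[(k6,k2),(k8,k2),(k9,k2),(k11,k2)],[(k7,k2)],[(k4,k2)],[(k2,k2),(k3,k2),(k5,k2),(k0,k3)],[(k2,k2),
    (k3,k2),(k5,k2),(k0,k3)],[(k2,k2),(k3,k2),(k5,k2),(k0,k3)],[(k2,k2),(k3,k2),(k5,k2),(k0,k3)],[(k1,k3),(k10,k4)]]
    [] k0
    []
    []]⟩

/-- classes `0 0 1 0 0 2`, types `B0 B0 S0 B1 B1 S0` -/
noncomputable def cT6_836 : CertT :=
  ⟨[k8,k8,k16,k9,k9,k32],[(false,k0,[k0,k1,k2,k3,k4,k5]),(false,k3,[k3,k4,k5,k0,k1,k2])],[[[([z2,z0,z0,z0,z1,z0],z2),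
    ([z0,z1,z0,z0,z0,z2],z2),([z0,z0,z2,z0,z1,z0],z2)],[([z2,z0,z0,z0,z1,z0],z2),([z0,z1,z0,z2,z0,z0],z2)],[([z2,z0,
    z0,z0,z1,z0],z2)],[]]],
    [.tor k4 false k0 [(z1,[z0,z0,z1]),(z1,[z0,z1]),(z1,[y1,y1,y1,z2]),(z1,[z1])],
    .lp [k6,k8,k4,k4,k4,k4] [k1,k1,k0,k0,k2,k2,k2,k2,k2,k2,k2,k2] k0 [] k16 k5
    [[(k10,k5),(k1,k6)],[(k6,k5),(k8,k5),(k9,k5),(k11,k5)],[(k6,k6),(k8,k6),(k9,k6),(k11,k6)],[(k6,k6),(k8,k6),(k9,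
    k6),(k11,k6)],[(k6,k4),(k8,k4),(k9,k4),(k11,k4)],[(k4,k4),(k7,k4)],[(k4,k4),(k7,k4)],[(k5,k4),(k0,k5),(k2,k6),(k3,
    k6)],[(k5,k4),(k0,k5),(k2,k6),(k3,k6)],[(k5,k4),(k0,k5),(k2,k6),(k3,k6)],[(k5,k4),(k0,k5),(k2,k6),(k3,k6)],[(k10,
    k4),(k1,k5)]]
    [] k0
    [[k0,k0,k2,k0,k1,k0]]
    [.ref k0 k0 [(z1,[z0,z1]),(z1,[y1,y1,y1,z2]),(z1,[z1])]],
    .lp [k4,k4,k4,k4,k8,k6] [k2,k2,k2,k2,k2,k2,k2,k2,k0,k0,k1,k1] k0 [] k16 k5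
    [[(k1,k4),(k10,k5)],[(k6,k4),(k11,k5),(k8,k6),(k9,k6)],[(k6,k4),(k11,k5),(k8,k6),(k9,k6)],[(k6,k4),(k11,k5),(k8,
    k6),(k9,k6)],[(k6,k4),(k11,k5),(k8,k6),(k9,k6)],[(k4,k4),(k7,k4)],[(k4,k4),(k7,k4)],[(k0,k4),(k2,k4),(k3,k4),(k5,
    k4)],[(k0,k6),(k2,k6),(k3,k6),(k5,k6)],[(k0,k6),(k2,k6),(k3,k6),(k5,k6)],[(k0,k5),(k2,k5),(k3,k5),(k5,k5)],[(k1,
    k5),(k10,k6)]]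
    [] k0
    [[k0,k1,k0,k2,k0,k0]]
    [.ref k1 k0 [(z1,[z0,z1]),(z1,[z1])]],
    .lp [k4,k4,k4,k4,k8,k6] [k2,k2,k2,k2,k2,k2,k2,k2,k0,k0,k1,k1] k0 [] k16 k5
    [[(k1,k4),(k10,k5)],[(k6,k4),(k11,k5),(k8,k6),(k9,k6)],[(k6,k4),(k11,k5),(k8,k6),(k9,k6)],[(k6,k4),(k11,k5),(k8,
    k6),(k9,k6)],[(k6,k4),(k11,k5),(k8,k6),(k9,k6)],[(k4,k4),(k7,k4)],[(k4,k4),(k7,k4)],[(k0,k4),(k2,k4),(k3,k4),(k5,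
    k4)],[(k0,k6),(k2,k6),(k3,k6),(k5,k6)],[(k0,k6),(k2,k6),(k3,k6),(k5,k6)],[(k0,k5),(k2,k5),(k3,k5),(k5,k5)],[(k1,
    k5),(k10,k6)]]
    [] k0
    [[k0,k1,k0,k2,k0,k0]]
    [.ref k2 k1 [(z1,[z1])]]]⟩

/-- classes `0 0 1 0 0 2`, types `B0 B1 C0 B0 B1 C0` -/
noncomputable def cT6_837 : CertT :=
  ⟨[k8,k9,k20,k8,k9,k36],[(false,k0,[k0,k1,k2,k3,k4,k5]),(true,k2,[k2,k1,k0,k5,k4,k3])],[[[([z1,z0,z0,z0,z1,z1],z2),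
    ([z0,z1,z0,z0,y1,z0],z0)],[([z1,z0,z0,z0,z1,z1],z2)],[]]],
    [.tor k3 false k0 [(z1,[y1,y1,z1]),(z1,[y1,z0,z1]),(z1,[z1]),(z1,[z1,z1])],
    .lp [k8,k10,k4,k8,k8,k8] [k1,k1,k0,k0,k3,k3,k1,k1,k1,k1,k1,k1] k0 [[k0,k0,k0,k2],[],[k0,k2]] k24 k5
    [[(k10,k8)],[(k5,k6),(k2,k7),(k8,k8),(k11,k8)],[(k5,k9),(k8,k9),(k11,k9),(k2,k10)],[(k0,k7),(k6,k9),(k9,k9),(k3,
    k10)],[(k0,k6),(k6,k6),(k9,k6),(k3,k9)],[(k7,k6)],[(k4,k6)],[(k5,k6),(k8,k8),(k11,k8),(k2,k9)],[(k5,k6),(k8,k8),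
    (k11,k8),(k2,k9)],[(k0,k8),(k6,k8),(k9,k8),(k3,k9)],[(k0,k8),(k6,k8),(k9,k8),(k3,k9)],[(k1,k8)]]
    [] k0
    [[k0,k0,k1,k1,k1,k0]]
    [.ref k0 k0 [(z1,[z0,z1]),(z1,[y1,y1,z1])]],
    .lp [k8,k10,k4,k8,k8,k8] [k1,k1,k0,k0,k3,k3,k1,k1,k1,k1,k1,k1] k0 [[k0,k0,k0,k2],[],[k0,k2]] k24 k5
    [[(k10,k8)],[(k5,k6),(k2,k7),(k8,k8),(k11,k8)],[(k5,k9),(k8,k9),(k11,k9),(k2,k10)],[(k0,k7),(k6,k9),(k9,k9),(k3,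
    k10)],[(k0,k6),(k6,k6),(k9,k6),(k3,k9)],[(k7,k6)],[(k4,k6)],[(k5,k6),(k8,k8),(k11,k8),(k2,k9)],[(k5,k6),(k8,k8),
    (k11,k8),(k2,k9)],[(k0,k8),(k6,k8),(k9,k8),(k3,k9)],[(k0,k8),(k6,k8),(k9,k8),(k3,k9)],[(k1,k8)]]
    [] k0
    [[k0,k0,k1,k1,k1,k0]]
    [.ref k1 k1 [(z1,[z1])]]]⟩

/-- classes `0 0 1 0 0 2`, types `B0 B1 C0 B0 B1 S0` -/
noncomputable def cT6_838 : CertT :=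
  ⟨[k8,k9,k20,k8,k9,k32],[(false,k0,[k0,k1,k2,k3,k4,k5]),(true,k5,[k5,k4,k3,k2,k1,k0])],[[[([z1,z0,z0,z0,z1,z1],z2),
    ([z0,z1,z0,z0,y1,z0],z0)],[([z1,z0,z0,z0,z1,z1],z2)],[]]],
    [.tor k3 false k0 [(z1,[y1,y1,z1]),(z1,[y1,z0,z1]),(z1,[z1]),(z1,[z1,z1])],
    .lp [k6,k10,k6,k6,k12,k6] [k3,k3,k1,k1,k3,k3,k3,k3,k0,k0,k3,k3] k0 [[k0,k0,k0,k2],[],[k0,k2]] k24 k5
    [[(k1,k6),(k10,k6)],[(k2,k6),(k5,k6),(k11,k6),(k8,k9)],[(k11,k8),(k2,k10),(k5,k10),(k8,k11)],[(k0,k6),(k6,k8),(k3,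
    k10),(k9,k11)],[(k0,k6),(k6,k6),(k9,k9),(k3,k10)],[(k7,k6)],[(k4,k6)],[(k5,k6),(k11,k6),(k2,k8),(k8,k9)],[(k5,k9),
    (k11,k9),(k2,k11),(k8,k12)],[(k0,k9),(k6,k9),(k3,k11),(k9,k12)],[(k0,k6),(k6,k6),(k3,k8),(k9,k9)],[(k1,k6),(k10,
    k6)]]
    [] k0
    [[k1,k1,k0,k0,k0,k1]]
    [.ref k0 k0 [(z1,[z0,z1]),(z1,[z1,y1])]],
    .lp [k6,k10,k6,k6,k12,k6] [k3,k3,k1,k1,k3,k3,k3,k3,k0,k0,k3,k3] k0 [[k0,k0,k0,k2],[],[k0,k2]] k24 k5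
    [[(k1,k6),(k10,k6)],[(k2,k6),(k5,k6),(k11,k6),(k8,k9)],[(k11,k8),(k2,k10),(k5,k10),(k8,k11)],[(k0,k6),(k6,k8),(k3,
    k10),(k9,k11)],[(k0,k6),(k6,k6),(k9,k9),(k3,k10)],[(k7,k6)],[(k4,k6)],[(k5,k6),(k11,k6),(k2,k8),(k8,k9)],[(k5,k9),
    (k11,k9),(k2,k11),(k8,k12)],[(k0,k9),(k6,k9),(k3,k11),(k9,k12)],[(k0,k6),(k6,k6),(k3,k8),(k9,k9)],[(k1,k6),(k10,
    k6)]]
    [] k0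
    [[k1,k1,k0,k0,k0,k1]]
    [.ref k1 k1 [(z1,[z1])]]]⟩

/-- classes `0 0 1 0 0 2`, types `B0 B1 C0 B1 B0 C0` -/
noncomputable def cT6_839 : CertT :=
  ⟨[k8,k9,k20,k9,k8,k36],[],[[[]]],
    [.lp [k6,k8,k6,k6,k8,k6] [k1,k1,k0,k0,k1,k1,k1,k1,k0,k0,k1,k1] k0 [] k24 k5
    [[(k10,k6)],[(k5,k6),(k6,k6),(k2,k7),(k9,k7)],[(k5,k7),(k6,k7),(k2,k8),(k9,k8)],[(k0,k7),(k11,k7),(k3,k8),(k8,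
    k8)],[(k0,k6),(k11,k6),(k3,k7),(k8,k7)],[(k7,k6)],[(k4,k6)],[(k0,k6),(k11,k6),(k3,k7),(k8,k7)],[(k0,k7),(k11,k7),
    (k3,k8),(k8,k8)],[(k5,k7),(k6,k7),(k2,k8),(k9,k8)],[(k5,k6),(k6,k6),(k2,k7),(k9,k7)],[(k1,k6)]]
    [] k0
    []
    []]⟩

/-- classes `0 0 1 0 0 2`, types `B0 B1 C0 B1 B0 S0` -/
noncomputable def cT6_840 : CertT :=
  ⟨[k8,k9,k20,k9,k8,k32],[],[[[]]],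
    [.lp [k6,k8,k6,k6,k8,k6] [k1,k1,k0,k0,k1,k1,k1,k1,k0,k0,k1,k1] k0 [] k24 k5
    [[(k1,k6),(k10,k6)],[(k5,k6),(k6,k6),(k2,k7),(k9,k7)],[(k5,k7),(k6,k7),(k2,k8),(k9,k8)],[(k0,k7),(k11,k7),(k3,k8),
    (k8,k8)],[(k0,k6),(k11,k6),(k3,k7),(k8,k7)],[(k7,k6)],[(k4,k6)],[(k0,k6),(k11,k6),(k3,k7),(k8,k7)],[(k0,k7),(k11,
    k7),(k3,k8),(k8,k8)],[(k5,k7),(k6,k7),(k2,k8),(k9,k8)],[(k5,k6),(k6,k6),(k2,k7),(k9,k7)],[(k1,k6),(k10,k6)]]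
    [] k0
    []
    []]⟩

/-- classes `0 0 1 0 0 2`, types `B0 B1 S0 B0 B1 S0` -/
noncomputable def cT6_841 : CertT :=
  ⟨[k8,k9,k16,k8,k9,k32],[(false,k0,[k0,k1,k2,k3,k4,k5])],[[[([z1,z0,z0,z0,z1,z1],z2),([z0,z1,z0,z0,y1,z0],z0)],[([z1,
    z0,z0,z0,z1,z1],z2)],[]]],
    [.tor k3 false k0 [(z1,[y1,y1,z1]),(z1,[y1,z0,z1]),(z1,[z1]),(z1,[z1,z1])],
    .lp [k6,k8,k6,k10,k10,k6] [k2,k2,k1,k1,k2,k2,k0,k0,k0,k0,k2,k2] k0 [[],[],[],[],[],[],[k0,k0,k0,k0,k0,k0,k0,k0,k0,k2],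
    [],[k0,k0,k0,k0,k0,k0,k0,k2]] k24 k5
    [[(k1,k6),(k10,k6)],[(k5,k6),(k11,k6),(k2,k7),(k8,k8)],[(k5,k7),(k11,k7),(k2,k8),(k8,k9)],[(k0,k7),(k3,k8),(k6,
    k9),(k9,k9)],[(k0,k6),(k3,k7),(k6,k8),(k9,k8)],[(k4,k6),(k7,k8)],[(k4,k8),(k7,k10)],[(k5,k8),(k8,k8),(k11,k8),(k2,
    k9)],[(k5,k8),(k2,k9),(k8,k10),(k11,k10)],[(k0,k8),(k6,k8),(k3,k9),(k9,k10)],[(k0,k6),(k3,k7),(k6,k8),(k9,k10)],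
    [(k1,k6),(k10,k6)]]
    [] k0
    [[k1,k1,k0,k0,k0,k1]]
    [.ref k0 k0 [(z1,[z0,z1]),(z1,[z1,y1])]],
    .lp [k8,k8,k6,k6,k12,k6] [k2,k2,k2,k2,k3,k3,k3,k3,k0,k0,k3,k3] k0 [[k0,k0,k0,k0,k0,k0,k0,k0,k0,k2],[],[],[],[],[],[],
    [],[k0,k2]] k24 k5
    [[(k10,k7),(k1,k8)],[(k5,k7),(k11,k7),(k2,k8),(k8,k8)],[(k5,k7),(k2,k8),(k11,k9),(k8,k10)],[(k6,k7),(k0,k8),(k3,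
    k8),(k9,k10)],[(k6,k6),(k0,k7),(k3,k7),(k9,k9)],[(k4,k6),(k7,k6)],[(k4,k6),(k7,k6)],[(k5,k6),(k11,k6),(k2,k7),(k8,
    k9)],[(k5,k9),(k11,k9),(k2,k10),(k8,k12)],[(k0,k8),(k6,k9),(k3,k10),(k9,k12)],[(k6,k6),(k0,k7),(k3,k9),(k9,k9)],
    [(k10,k6),(k1,k7)]]
    [] k0
    [[k0,k1,k1,k1,k0,k0]]
    [.ref k1 k0 [(z1,[y1,z1])]]]⟩

/-- classes `0 0 1 0 0 2`, types `B0 B1 S0 B1 B0 S0` -/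
noncomputable def cT6_842 : CertT :=
  ⟨[k8,k9,k16,k9,k8,k32],[],[[[]]],
    [.lp [k6,k8,k6,k6,k8,k6] [k1,k1,k0,k0,k1,k1,k1,k1,k0,k0,k1,k1] k0 [] k24 k5
    [[(k1,k6),(k10,k6)],[(k5,k6),(k6,k6),(k2,k7),(k9,k7)],[(k5,k7),(k6,k7),(k2,k8),(k9,k8)],[(k0,k7),(k11,k7),(k3,k8),
    (k8,k8)],[(k0,k6),(k11,k6),(k3,k7),(k8,k7)],[(k4,k6),(k7,k6)],[(k4,k6),(k7,k6)],[(k0,k6),(k11,k6),(k3,k7),(k8,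
    k7)],[(k0,k7),(k11,k7),(k3,k8),(k8,k8)],[(k5,k7),(k6,k7),(k2,k8),(k9,k8)],[(k5,k6),(k6,k6),(k2,k7),(k9,k7)],[(k1,
    k6),(k10,k6)]]
    [] k0
    []
    []]⟩

/-- classes `0 0 1 0 0 2`, types `C0 C0 C0 C0 C0 C0` -/
noncomputable def cT6_843 : CertT :=
  ⟨[k4,k4,k20,k4,k4,k36],[(true,k2,[k2,k1,k0,k5,k4,k3]),(false,k0,[k0,k1,k2,k3,k4,k5])],[[[([z1,z0,z0,z0,z1,z1],z2)],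
    []]],
    [.leafM k0 [k0,k1,k2,k3,k4,k5] [(z1,[y1,z1])] [],
    .lp [k4,k4,k2,k4,k6,k2] [k1,k1,k1,k1,k2,k2,k1,k1,k0,k0,k2,k2] k0 [] k12 k5
    [[(k10,k3)],[(k5,k3),(k11,k3),(k3,k4),(k9,k5)],[(k0,k4),(k2,k4),(k6,k4),(k8,k5)],[(k5,k3),(k11,k3),(k3,k4),(k9,
    k5)],[(k0,k3),(k2,k3),(k6,k3),(k8,k4)],[(k7,k3)],[(k4,k3)],[(k5,k3),(k11,k3),(k3,k4),(k9,k5)],[(k0,k5),(k2,k5),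
    (k6,k5),(k8,k6)],[(k5,k4),(k11,k4),(k3,k5),(k9,k6)],[(k0,k3),(k2,k3),(k6,k3),(k8,k4)],[(k1,k3)]]
    [] k0
    [[k1,k1,k0,k0,k0,k1],[k0,k1,k1,k1,k0,k0]]
    [.ref k0 k0 [(z1,[y1,z1])],.ref k0 k1 [(z1,[y1,z1])]]]⟩

/-- classes `0 0 1 0 0 2`, types `C0 C0 C0 C0 C0 S0` -/
noncomputable def cT6_844 : CertT :=
  ⟨[k4,k4,k20,k4,k4,k32],[(false,k0,[k0,k1,k2,k3,k4,k5]),(true,k5,[k5,k4,k3,k2,k1,k0])],[[[([z1,z0,z0,z0,z1,z1],z2)],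
    []]],
    [.leafM k0 [k0,k1,k2,k3,k4,k5] [(z1,[y1,z1])] [],
    .lp [k6,k12,k6,k6,k8,k6] [k3,k3,k0,k0,k3,k3,k3,k3,k2,k2,k3,k3] k0 [] k24 k5
    [[(k1,k6),(k10,k6)],[(k5,k6),(k11,k6),(k9,k7),(k3,k9)],[(k0,k9),(k6,k9),(k8,k10),(k2,k12)],[(k5,k9),(k11,k9),(k9,
    k10),(k3,k12)],[(k0,k6),(k6,k6),(k8,k7),(k2,k9)],[(k7,k6)],[(k4,k6)],[(k5,k6),(k11,k6),(k9,k7),(k3,k9)],[(k0,k7),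
    (k6,k7),(k8,k8),(k2,k10)],[(k5,k7),(k11,k7),(k9,k8),(k3,k10)],[(k0,k6),(k6,k6),(k8,k7),(k2,k9)],[(k1,k6),(k10,
    k6)]]
    [] k0
    [[k1,k0,k0,k0,k1,k1],[k0,k0,k1,k1,k1,k0]]
    [.ref k0 k0 [(z1,[z1])],.ref k0 k1 [(z1,[y1,z1])]]]⟩

/-- classes `0 0 1 0 0 2`, types `C0 C0 C0 C0 C2 C0` -/
noncomputable def cT6_845 : CertT :=
  ⟨[k4,k4,k20,k4,k6,k36],[(false,k0,[k0,k1,k2,k3,k4,k5])],[[[([z1,z0,z0,z0,z1,z1],z2)],[]]],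
    [.leafM k0 [k0,k1,k2,k3,k4,k5] [(z1,[y1,z1])] [],
    .lp [k6,k4,k2,k4,k2,k4] [k0,k0,k1,k1,k2,k2,k1,k1,k2,k2,k1,k1] k0 [] k12 k5
    [[(k10,k5)],[(k5,k4),(k8,k4),(k9,k4),(k3,k5)],[(k2,k4),(k6,k4),(k11,k4),(k0,k5)],[(k5,k3),(k8,k3),(k9,k3),(k3,
    k4)],[(k2,k3),(k6,k3),(k11,k3),(k0,k4)],[(k7,k3)],[(k4,k3)],[(k5,k3),(k8,k3),(k9,k3),(k3,k4)],[(k2,k3),(k6,k3),
    (k11,k3),(k0,k4)],[(k2,k3),(k6,k3),(k11,k3),(k0,k4)],[(k5,k3),(k8,k3),(k9,k3),(k3,k4)],[(k1,k5)]]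
    [] k0
    [[k0,k1,k1,k1,k0,k0]]
    [.ref k0 k0 [(z1,[y1,z1])]]]⟩

/-- classes `0 0 1 0 0 2`, types `C0 C0 C0 C0 C2 S0` -/
noncomputable def cT6_846 : CertT :=
  ⟨[k4,k4,k20,k4,k6,k32],[(false,k0,[k0,k1,k2,k3,k4,k5])],[[[([z1,z0,z0,z0,z1,z1],z2)],[]]],
    [.leafM k0 [k0,k1,k2,k3,k4,k5] [(z1,[y1,z1])] [],
    .lp [k10,k8,k4,k10,k6,k8] [k0,k0,k1,k1,k3,k3,k0,k0,k2,k2,k1,k1] k0 [[k0,k0,k0,k0,k0,k0,k2],[],[],[],[],[],[k0,k0,k0,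
    k0,k0,k0,k0,k0,k0,k2],[k0,k2],[k0,k0,k0,k0,k0,k0,k0,k2]] k24 k5
    [[(k10,k9),(k1,k10)],[(k9,k6),(k5,k7),(k8,k8),(k3,k9)],[(k2,k8),(k11,k8),(k0,k9),(k6,k11)],[(k5,k6),(k8,k7),(k9,
    k7),(k3,k8)],[(k2,k6),(k11,k6),(k0,k7),(k6,k7)],[(k7,k7)],[(k4,k7)],[(k8,k6),(k5,k7),(k9,k8),(k3,k11)],[(k0,k6),
    (k2,k7),(k6,k8),(k11,k9)],[(k6,k6),(k2,k7),(k11,k7),(k0,k8)],[(k5,k6),(k8,k7),(k3,k8),(k9,k9)],[(k10,k8),(k1,k9)]]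
    [] k0
    [[k1,k0,k0,k0,k1,k1]]
    [.ref k0 k0 [(z1,[z1])]]]⟩

/-- classes `0 0 1 0 0 2`, types `C0 C0 C0 C2 C0 S0` -/
noncomputable def cT6_847 : CertT :=
  ⟨[k4,k4,k20,k6,k4,k32],[(false,k0,[k0,k1,k2,k3,k4,k5])],[[[([z1,z1,z0,z0,z0,z1],z2)],[]]],
    [.leafM k0 [k1,k2,k3,k4,k5,k0] [(z1,[y1,z1])] [],
    .lp [k14,k16,k12,k12,k12,k18] [k2,k2,k1,k1,k3,k3,k3,k3,k3,k3,k0,k0] k0 [] k48 k5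
    [[(k1,k14),(k10,k16)],[(k5,k13),(k6,k13),(k3,k15),(k11,k16)],[(k8,k14),(k9,k14),(k0,k15),(k2,k16)],[(k5,k14),(k6,
    k14),(k3,k16),(k11,k17)],[(k8,k12),(k9,k12),(k0,k13),(k2,k14)],[(k7,k12)],[(k4,k12)],[(k8,k12),(k9,k12),(k0,k13),
    (k2,k14)],[(k5,k12),(k6,k12),(k3,k14),(k11,k15)],[(k5,k12),(k6,k12),(k3,k14),(k11,k15)],[(k8,k15),(k9,k15),(k0,
    k16),(k2,k17)],[(k1,k16),(k10,k18)]]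
    [] k0
    [[k0,k0,k1,k1,k1,k0]]
    [.ref k0 k0 [(z1,[y1,z1])]]]⟩

/-- classes `0 0 1 0 0 2`, types `C0 C0 C0 C2 C2 C0` -/
noncomputable def cT6_848 : CertT :=
  ⟨[k4,k4,k20,k6,k6,k36],[],[[[]]],
    [.lp [k6,k8,k6,k6,k8,k6] [k1,k1,k0,k0,k1,k1,k1,k1,k0,k0,k1,k1] k0 [] k24 k5
    [[(k10,k6)],[(k5,k6),(k6,k6),(k3,k7),(k8,k7)],[(k0,k7),(k11,k7),(k2,k8),(k9,k8)],[(k5,k7),(k6,k7),(k3,k8),(k8,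
    k8)],[(k0,k6),(k11,k6),(k2,k7),(k9,k7)],[(k7,k6)],[(k4,k6)],[(k0,k6),(k11,k6),(k2,k7),(k9,k7)],[(k5,k7),(k6,k7),
    (k3,k8),(k8,k8)],[(k0,k7),(k11,k7),(k2,k8),(k9,k8)],[(k5,k6),(k6,k6),(k3,k7),(k8,k7)],[(k1,k6)]]
    [] k0
    []
    []]⟩

/-- classes `0 0 1 0 0 2`, types `C0 C0 C0 C2 C2 S0` -/
noncomputable def cT6_849 : CertT :=
  ⟨[k4,k4,k20,k6,k6,k32],[],[[[]]],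
    [.lp [k6,k8,k6,k6,k8,k6] [k1,k1,k0,k0,k1,k1,k1,k1,k0,k0,k1,k1] k0 [] k24 k5
    [[(k1,k6),(k10,k6)],[(k5,k6),(k6,k6),(k3,k7),(k8,k7)],[(k0,k7),(k11,k7),(k2,k8),(k9,k8)],[(k5,k7),(k6,k7),(k3,k8),
    (k8,k8)],[(k0,k6),(k11,k6),(k2,k7),(k9,k7)],[(k7,k6)],[(k4,k6)],[(k0,k6),(k11,k6),(k2,k7),(k9,k7)],[(k5,k7),(k6,
    k7),(k3,k8),(k8,k8)],[(k0,k7),(k11,k7),(k2,k8),(k9,k8)],[(k5,k6),(k6,k6),(k3,k7),(k8,k7)],[(k1,k6),(k10,k6)]]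
    [] k0
    []
    []]⟩

/-- classes `0 0 1 0 0 2`, types `C0 C0 S0 C0 C0 S0` -/
noncomputable def cT6_850 : CertT :=
  ⟨[k4,k4,k16,k4,k4,k32],[(true,k2,[k2,k1,k0,k5,k4,k3]),(false,k0,[k0,k1,k2,k3,k4,k5])],[[[([z1,z0,z0,z0,z1,z1],z2)],
    []]],
    [.leafM k0 [k0,k1,k2,k3,k4,k5] [(z1,[y1,z1])] [],
    .lp [k6,k8,k6,k6,k12,k6] [k3,k3,k2,k2,k3,k3,k3,k3,k0,k0,k3,k3] k0 [] k24 k5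
    [[(k1,k6),(k10,k6)],[(k5,k6),(k11,k6),(k3,k7),(k9,k9)],[(k0,k7),(k6,k7),(k2,k8),(k8,k10)],[(k5,k7),(k11,k7),(k3,
    k8),(k9,k10)],[(k0,k6),(k6,k6),(k2,k7),(k8,k9)],[(k4,k6),(k7,k6)],[(k4,k6),(k7,k6)],[(k5,k6),(k11,k6),(k3,k7),(k9,
    k9)],[(k0,k9),(k6,k9),(k2,k10),(k8,k12)],[(k5,k9),(k11,k9),(k3,k10),(k9,k12)],[(k0,k6),(k6,k6),(k2,k7),(k8,k9)],
    [(k1,k6),(k10,k6)]]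
    [] k0
    [[k1,k1,k0,k0,k0,k1],[k0,k1,k1,k1,k0,k0]]
    [.ref k0 k0 [(z1,[y1,z1])],.ref k0 k1 [(z1,[y1,z1])]]]⟩

/-- classes `0 0 1 0 0 2`, types `C0 C0 S0 C0 C2 S0` -/
noncomputable def cT6_851 : CertT :=
  ⟨[k4,k4,k16,k4,k6,k32],[(false,k0,[k0,k1,k2,k3,k4,k5])],[[[([z1,z0,z0,z0,z1,z1],z2)],[]]],
    [.leafM k0 [k0,k1,k2,k3,k4,k5] [(z1,[y1,z1])] [],
    .lp [k6,k8,k6,k6,k12,k6] [k3,k3,k2,k2,k3,k3,k3,k3,k0,k0,k3,k3] k0 [] k24 k5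
    [[(k1,k6),(k10,k6)],[(k5,k6),(k3,k7),(k8,k9),(k9,k9)],[(k0,k7),(k6,k7),(k11,k7),(k2,k8)],[(k5,k7),(k3,k8),(k8,
    k10),(k9,k10)],[(k0,k6),(k6,k6),(k11,k6),(k2,k7)],[(k4,k6),(k7,k6)],[(k4,k6),(k7,k6)],[(k5,k6),(k3,k7),(k8,k9),
    (k9,k9)],[(k0,k9),(k6,k9),(k11,k9),(k2,k10)],[(k0,k9),(k6,k9),(k11,k9),(k2,k10)],[(k5,k6),(k3,k7),(k8,k9),(k9,
    k9)],[(k1,k6),(k10,k6)]]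
    [] k0
    [[k0,k1,k1,k1,k0,k0]]
    [.ref k0 k0 [(z1,[y1,z1])]]]⟩

/-- classes `0 0 1 0 0 2`, types `C0 C0 S0 C2 C2 S0` -/
noncomputable def cT6_852 : CertT :=
  ⟨[k4,k4,k16,k6,k6,k32],[],[[[]]],
    [.lp [k6,k8,k6,k6,k8,k6] [k1,k1,k0,k0,k1,k1,k1,k1,k0,k0,k1,k1] k0 [] k24 k5
    [[(k1,k6),(k10,k6)],[(k5,k6),(k6,k6),(k3,k7),(k8,k7)],[(k0,k7),(k11,k7),(k2,k8),(k9,k8)],[(k5,k7),(k6,k7),(k3,k8),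
    (k8,k8)],[(k0,k6),(k11,k6),(k2,k7),(k9,k7)],[(k4,k6),(k7,k6)],[(k4,k6),(k7,k6)],[(k0,k6),(k11,k6),(k2,k7),(k9,
    k7)],[(k5,k7),(k6,k7),(k3,k8),(k8,k8)],[(k0,k7),(k11,k7),(k2,k8),(k9,k8)],[(k5,k6),(k6,k6),(k3,k7),(k8,k7)],[(k1,
    k6),(k10,k6)]]
    [] k0
    []
    []]⟩

/-- classes `0 0 1 0 0 2`, types `C0 C2 C0 C0 C2 C0` -/
noncomputable def cT6_853 : CertT :=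
  ⟨[k4,k6,k20,k4,k6,k36],[(false,k0,[k0,k1,k2,k3,k4,k5]),(true,k2,[k2,k1,k0,k5,k4,k3])],[[[([z1,z0,z0,z0,z1,z1],z2)],
    []]],
    [.leafM k0 [k0,k1,k2,k3,k4,k5] [(z1,[y1,z1])] [],
    .lp [k4,k2,k2,k2,k2,k2] [k0,k0,k1,k1,k1,k1,k1,k1,k1,k1,k1,k1] k0 [] k8 k5
    [[(k10,k3)],[(k2,k3),(k3,k3),(k8,k3),(k9,k3)],[(k5,k2),(k6,k2),(k11,k2),(k0,k3)],[(k5,k2),(k6,k2),(k11,k2),(k0,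
    k3)],[(k2,k2),(k3,k2),(k8,k2),(k9,k2)],[(k7,k2)],[(k4,k2)],[(k2,k2),(k3,k2),(k8,k2),(k9,k2)],[(k5,k2),(k6,k2),
    (k11,k2),(k0,k3)],[(k5,k2),(k6,k2),(k11,k2),(k0,k3)],[(k2,k2),(k3,k2),(k8,k2),(k9,k2)],[(k1,k3)]]
    [] k0
    [[k0,k1,k1,k1,k0,k0],[k0,k0,k1,k1,k1,k0]]
    [.ref k0 k0 [(z1,[y1,z1])],.ref k0 k1 [(z1,[z1])]]]⟩

/-- classes `0 0 1 0 0 2`, types `C0 C2 C0 C0 C2 S0` -/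
noncomputable def cT6_854 : CertT :=
  ⟨[k4,k6,k20,k4,k6,k32],[(false,k0,[k0,k1,k2,k3,k4,k5]),(true,k5,[k5,k4,k3,k2,k1,k0])],[[[([z1,z0,z0,z0,z1,z1],z2)],
    []]],
    [.leafM k0 [k0,k1,k2,k3,k4,k5] [(z1,[y1,z1])] [],
    .lp [k14,k24,k4,k20,k20,k12] [k5,k5,k0,k0,k10,k10,k2,k2,k2,k2,k6,k6] k0 [[],[],[],[],[],[],[k0,k0,k0,k0,k0,k0,k0,k0,
    k0,k4],[],[k0,k0,k0,k0,k0,k0,k0,k4]] k48 k5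
    [[(k10,k13),(k1,k14)],[(k8,k17),(k9,k17),(k2,k19),(k3,k19)],[(k5,k14),(k11,k18),(k0,k19),(k6,k22)],[(k5,k14),(k11,
    k18),(k0,k19),(k6,k22)],[(k8,k12),(k9,k12),(k2,k14),(k3,k14)],[(k7,k12)],[(k4,k12)],[(k8,k16),(k9,k20),(k2,k22),
    (k3,k22)],[(k5,k12),(k0,k17),(k6,k20),(k11,k20)],[(k5,k12),(k6,k16),(k11,k16),(k0,k17)],[(k8,k16),(k2,k18),(k3,
    k18),(k9,k20)],[(k10,k12),(k1,k13)]]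
    [] k0
    [[k1,k0,k0,k0,k1,k1],[k0,k0,k1,k1,k1,k0]]
    [.ref k0 k0 [(z1,[z1])],.ref k0 k1 [(z1,[y1,z1])]]]⟩

/-- classes `0 0 1 0 0 2`, types `C0 C2 C0 C2 C0 C0` -/
noncomputable def cT6_855 : CertT :=
  ⟨[k4,k6,k20,k6,k4,k36],[],[[[]]],
    [.lp [k0,k2,k0,k2,k0,k2] [k1,k1,k0,k0,k1,k1,k0,k0,k1,k1,k0,k0] k0 [] k4 k5
    [[(k10,k1)],[(k2,k1),(k3,k1),(k6,k1),(k11,k1)],[(k0,k1),(k5,k1),(k8,k1),(k9,k1)],[(k0,k1),(k5,k1),(k8,k1),(k9,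
    k1)],[(k2,k1),(k3,k1),(k6,k1),(k11,k1)],[(k7,k1)],[(k4,k1)],[(k0,k1),(k5,k1),(k8,k1),(k9,k1)],[(k2,k1),(k3,k1),
    (k6,k1),(k11,k1)],[(k2,k1),(k3,k1),(k6,k1),(k11,k1)],[(k0,k1),(k5,k1),(k8,k1),(k9,k1)],[(k1,k1)]]
    [] k0
    []
    []]⟩

/-- classes `0 0 1 0 0 2`, types `C0 C2 C0 C2 C0 S0` -/
noncomputable def cT6_856 : CertT :=
  ⟨[k4,k6,k20,k6,k4,k32],[],[[[]]],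
    [.lp [k2,k4,k0,k4,k0,k4] [k1,k1,k0,k0,k2,k2,k0,k0,k2,k2,k0,k0] k0 [] k8 k5
    [[(k1,k2),(k10,k3)],[(k2,k3),(k3,k3),(k6,k3),(k11,k3)],[(k5,k2),(k8,k2),(k9,k2),(k0,k3)],[(k5,k2),(k8,k2),(k9,k2),
    (k0,k3)],[(k2,k2),(k3,k2),(k6,k2),(k11,k2)],[(k7,k2)],[(k4,k2)],[(k5,k2),(k8,k2),(k9,k2),(k0,k3)],[(k2,k2),(k3,
    k2),(k6,k2),(k11,k2)],[(k2,k2),(k3,k2),(k6,k2),(k11,k2)],[(k5,k2),(k8,k2),(k9,k2),(k0,k3)],[(k1,k3),(k10,k4)]]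
    [] k0
    []
    []]⟩

/-- classes `0 0 1 0 0 2`, types `C0 C2 S0 C0 C2 S0` -/
noncomputable def cT6_857 : CertT :=
  ⟨[k4,k6,k16,k4,k6,k32],[(true,k2,[k2,k1,k0,k5,k4,k3]),(false,k0,[k0,k1,k2,k3,k4,k5]),(false,k3,[k3,k4,k5,k0,k1,k2]),
    (true,k5,[k5,k4,k3,k2,k1,k0])],[[[([z1,z0,z0,z0,z1,z1],z2)],[([z1,z0,z0,z0,z0,y1],z0),([z0,z1,z0,z0,z0,z2],z2)],
    [([z1,z0,z0,z0,z1,z1],z2),([z0,z1,z0,z0,y2,y2],y2)],[([z1,z0,z0,z0,z0,y1],z0),([z0,z1,z0,z0,z0,z2],z2),([z0,z0,z1,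
    z0,z0,y1],z0)],[([z1,z0,y1,z0,z0,z0],z0),([z0,z1,z2,z0,z0,z0],z2),([z0,z0,z0,z1,z0,y1],z0)],[([z1,z0,y1,z0,z0,z0],
    z0),([z0,z1,z2,z0,z0,z0],z2)],[([z1,z0,y1,y1,y1,y1],y2)],[([z1,z0,z0,z0,z0,y1],z0),([z0,z1,z0,z0,z0,z2],z2),([z0,
    z0,z1,z1,z0,y2],z0)],[([z2,z0,z0,z0,z1,z0],z2),([z0,z1,z0,z0,z0,z2],z2),([z0,z0,z2,z0,z1,z0],z2)],[([z2,z0,z0,y2,
    z1,z2],z2),([z0,z1,z0,z2,z0,z0],z2)],[([z1,z0,z0,y2,z0,z1],z0),([z0,z1,z0,z2,z0,z0],z2)],[([z2,z0,z0,z0,z1,z0],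
    z2)]],[[]]],
    [.leafM k0 [k0,k1,k2,k3,k4,k5] [(z1,[y1,z1])] [],
    .leafM k0 [k1,k2,k3,k4,k5,k0] [(z1,[y1,y1,z1])] [],
    .leafM k0 [k0,k1,k2,k3,k4,k5] [(z1,[y1,z0,z1])] [],
    .leafM k0 [k1,k2,k3,k4,k5,k0] [(z1,[y1,y1,z0,z1])] [],
    .tor k5 false k0 [(z1,[y1,y1,y1,z1]),(z1,[y1,y1,z1,z1]),(z1,[z0,z1]),(z1,[z2,z1])],
    .lp [k18,k18,k16,k18,k12,k12] [k0,k0,k0,k0,k1,k1,k0,k0,k3,k3,k3,k3] k0 [[],[],[k0,k0,k0,k0,k0,k0,k0,k4],[],[],[],[k0,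
    k0,k0,k4]] k48 k5
    [[(k10,k15),(k1,k18)],[(k8,k15),(k9,k15),(k2,k18),(k3,k18)],[(k11,k15),(k5,k17),(k0,k18),(k6,k18)],[(k6,k14),(k11,
    k15),(k5,k17),(k0,k18)],[(k8,k14),(k2,k17),(k3,k17),(k9,k18)],[(k4,k16),(k7,k17)],[(k4,k17),(k7,k18)],[(k2,k14),
    (k8,k15),(k9,k15),(k3,k18)],[(k11,k12),(k0,k15),(k6,k15),(k5,k18)],[(k11,k12),(k5,k14),(k0,k15),(k6,k15)],[(k8,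
    k12),(k9,k12),(k2,k15),(k3,k15)],[(k10,k12),(k1,k15)]]
    [] k0
    [[k1,k0,k0,k0,k1,k1],[k0,k1,k0,k0,k0,k2],[k0,k0,k1,k1,k1,k0],[k0,k0,k0,k0,k1,k2]]
    [.ref k3 k0 [(z1,[z1,z0,z1,y1]),(z1,[y2,z0,y1,z2]),(z1,[z1,z1,z1,y1])],.ref k3 k1 [(z2,[y1,z2,z1]),(z1,[z1]),(z2,
    [y1,z0,z1])],.ref k3 k1 [(z1,[z1,z2,z1,y1]),(z1,[y2,y2,y1,z2]),(z1,[z1,z1,z1,y1])],.ref k4 k1 [(z1,[z0,z1]),(z1,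
    [z0,z0,z1]),(z1,[y1,y1,y1,z1])]],
    .lp [k16,k16,k14,k18,k18,k12] [k1,k1,k1,k1,k2,k2,k0,k0,k0,k0,k3,k3] k0 [[],[],[k0,k0,k0,k0,k0,k0,k0,k0,k2],[],[],[],
    [k0,k0,k0,k0,k0,k0,k0,k0,k0,k6],[],[k0,k0,k0,k0,k0,k0,k0,k6],[k0,k0,k0,k2]] k48 k5
    [[(k10,k14),(k1,k16)],[(k2,k16),(k3,k16),(k8,k17),(k9,k17)],[(k11,k14),(k5,k15),(k0,k16),(k6,k17)],[(k11,k12),(k5,
    k15),(k0,k16),(k6,k17)],[(k2,k15),(k3,k15),(k9,k16),(k8,k18)],[(k4,k14),(k7,k16)],[(k4,k16),(k7,k18)],[(k8,k12),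
    (k2,k17),(k3,k17),(k9,k18)],[(k5,k16),(k0,k17),(k6,k18),(k11,k21)],[(k6,k12),(k11,k15),(k0,k17),(k5,k18)],[(k2,
    k12),(k3,k14),(k8,k15),(k9,k21)],[(k10,k12),(k1,k14)]]
    [] k0
    [[k1,k1,k0,k0,k0,k1],[k1,k0,k0,k0,k1,k1],[k0,k1,k2,k0,k0,k0],[k0,k1,k0,k0,k0,k2],[k0,k0,k1,k1,k1,k0]]
    [.ref k1 k1 [(z1,[y1,z1,z1]),(z1,[z2,y1,y1])],.ref k2 k1 [(z1,[z1]),(z1,[y2,z1,z1])],.ref k5 k1 [(z2,[y1,z1,z1]),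
    (z1,[z1])],.ref k1 k1 [(z2,[y1,z1,z1]),(z1,[z1])],.ref k1 k1 [(z1,[z1,z1]),(z1,[y2,y1,z1])]],
    .leafM k0 [k0,k1,k2,k3,k4,k5] [(z1,[z0,z1,z1])] [],
    .tor k4 false k0 [(z1,[z0,z0,z1]),(z1,[z0,z1]),(z1,[y1,y1,y1,z2]),(z1,[z1])],
    .lp [k16,k16,k14,k18,k18,k12] [k1,k1,k1,k1,k2,k2,k0,k0,k0,k0,k3,k3] k0 [[],[],[k0,k0,k0,k0,k0,k0,k0,k0,k2],[],[],[],
    [k0,k0,k0,k0,k0,k0,k0,k0,k0,k6],[],[k0,k0,k0,k0,k0,k0,k0,k6],[k0,k0,k0,k2]] k48 k5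
    [[(k10,k14),(k1,k16)],[(k2,k16),(k3,k16),(k8,k17),(k9,k17)],[(k11,k14),(k5,k15),(k0,k16),(k6,k17)],[(k11,k12),(k5,
    k15),(k0,k16),(k6,k17)],[(k2,k15),(k3,k15),(k9,k16),(k8,k18)],[(k4,k14),(k7,k16)],[(k4,k16),(k7,k18)],[(k8,k12),
    (k2,k17),(k3,k17),(k9,k18)],[(k5,k16),(k0,k17),(k6,k18),(k11,k21)],[(k6,k12),(k11,k15),(k0,k17),(k5,k18)],[(k2,
    k12),(k3,k14),(k8,k15),(k9,k21)],[(k10,k12),(k1,k14)]]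
    [] k0
    [[k1,k1,k0,k0,k0,k1],[k1,k0,k0,k0,k1,k1],[k0,k1,k2,k0,k0,k0],[k0,k1,k0,k0,k0,k2],[k0,k0,k1,k1,k1,k0]]
    [.ref k7 k2 [(z1,[y1,z1,z2,y1]),(z1,[z0,y1,y2,z2]),(z1,[y1,z2,z3,y2])],.ref k7 k2 [(z1,[z1,z0,z1,y1]),(z1,[z0,y1,
    y2,z2]),(z1,[z1,z1,z2,y2])],.ref k7 k2 [(z2,[y1,z0,z1]),(z1,[z0,y1,y2,z2]),(z2,[y1,z2,z3,y2])],.ref k8 k1 [(z1,
    [y1,z1,z1]),(z1,[z1]),(z1,[z0,y1,y2,z2])],.ref k7 k2 [(z1,[z1,z1,z2,y2]),(z1,[z0,y1,y2,z2]),(z1,[z1,z2,z3,y3])]],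
    .leafM k0 [k1,k2,k3,k4,k5,k0] [(z1,[y1,y1,z1])] [],
    .lp [k18,k18,k16,k18,k12,k12] [k0,k0,k0,k0,k1,k1,k0,k0,k3,k3,k3,k3] k0 [[],[],[k0,k0,k0,k0,k0,k0,k0,k4],[],[],[],[k0,
    k0,k0,k4]] k48 k5
    [[(k10,k15),(k1,k18)],[(k8,k15),(k9,k15),(k2,k18),(k3,k18)],[(k11,k15),(k5,k17),(k0,k18),(k6,k18)],[(k6,k14),(k11,
    k15),(k5,k17),(k0,k18)],[(k8,k14),(k2,k17),(k3,k17),(k9,k18)],[(k4,k16),(k7,k17)],[(k4,k17),(k7,k18)],[(k2,k14),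
    (k8,k15),(k9,k15),(k3,k18)],[(k11,k12),(k0,k15),(k6,k15),(k5,k18)],[(k11,k12),(k5,k14),(k0,k15),(k6,k15)],[(k8,
    k12),(k9,k12),(k2,k15),(k3,k15)],[(k10,k12),(k1,k15)]]
    [] k0
    [[k1,k0,k0,k0,k1,k1],[k0,k1,k0,k0,k0,k2],[k0,k0,k1,k1,k1,k0],[k0,k0,k0,k0,k1,k2]]
    [.ref k1 k3 [(z1,[z1,y1]),(z1,[z0,z1])],.ref k9 k2 [(z1,[y1,y2,z2]),(z1,[z0,z1])],.ref k10 k2 [(z1,[z1,y1]),(z1,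
    [z0,z1])],.ref k1 k3 [(z2,[z1,y1]),(z1,[z0,z1])]],
    .lp [k16,k16,k14,k18,k18,k12] [k1,k1,k1,k1,k2,k2,k0,k0,k0,k0,k3,k3] k0 [[],[],[k0,k0,k0,k0,k0,k0,k0,k0,k2],[],[],[],
    [k0,k0,k0,k0,k0,k0,k0,k0,k0,k6],[],[k0,k0,k0,k0,k0,k0,k0,k6],[k0,k0,k0,k2]] k48 k5
    [[(k10,k14),(k1,k16)],[(k2,k16),(k3,k16),(k8,k17),(k9,k17)],[(k11,k14),(k5,k15),(k0,k16),(k6,k17)],[(k11,k12),(k5,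
    k15),(k0,k16),(k6,k17)],[(k2,k15),(k3,k15),(k9,k16),(k8,k18)],[(k4,k14),(k7,k16)],[(k4,k16),(k7,k18)],[(k8,k12),
    (k2,k17),(k3,k17),(k9,k18)],[(k5,k16),(k0,k17),(k6,k18),(k11,k21)],[(k6,k12),(k11,k15),(k0,k17),(k5,k18)],[(k2,
    k12),(k3,k14),(k8,k15),(k9,k21)],[(k10,k12),(k1,k14)]]
    [] k0
    [[k1,k1,k0,k0,k0,k1],[k1,k0,k0,k0,k1,k1],[k0,k1,k2,k0,k0,k0],[k0,k1,k0,k0,k0,k2],[k0,k0,k1,k1,k1,k0]]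
    [.ref k0 k0 [(z1,[y1,z1])],.ref k0 k1 [(z1,[z1])],.ref k6 k0 [(z1,[z1,y1])],.ref k11 k3 [(z1,[z1])],
    .ref k0 k0 [(z1,[z1])]]]⟩

/-- classes `0 0 1 0 0 2`, types `C0 C2 S0 C2 C0 S0` -/
noncomputable def cT6_858 : CertT :=
  ⟨[k4,k6,k16,k6,k4,k32],[(false,k0,[k0,k1,k2,k3,k4,k5]),(true,k2,[k2,k1,k0,k5,k4,k3])],[[[([z1,z0,y1,z0,z0,z0],z0),
    ([z0,z1,z2,z0,z0,z0],z2),([z0,z0,z0,z1,z0,y1],z0)],[([z1,z0,y1,z0,z0,z0],z0),([z0,z1,z2,z0,z0,z0],z2)],[([z1,z0,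
    y1,y1,y1,y1],y2)],[]]],
    [.tor k5 false k0 [(z1,[y1,y1,y1,z1]),(z1,[y1,y1,z1,z1]),(z1,[z0,z1]),(z1,[z2,z1])],
    .lp [k6,k4,k6,k6,k4,k4] [k0,k0,k1,k1,k0,k0,k0,k0,k1,k1,k1,k1] k0 [] k16 k5
    [[(k10,k5),(k1,k6)],[(k2,k5),(k3,k5),(k11,k5),(k6,k6)],[(k8,k4),(k9,k4),(k0,k5),(k5,k5)],[(k8,k4),(k9,k4),(k0,k5),
    (k5,k5)],[(k2,k5),(k3,k5),(k11,k5),(k6,k6)],[(k4,k6),(k7,k6)],[(k4,k6),(k7,k6)],[(k8,k5),(k9,k5),(k0,k6),(k5,k6)],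
    [(k2,k4),(k3,k4),(k11,k4),(k6,k5)],[(k2,k4),(k3,k4),(k11,k4),(k6,k5)],[(k8,k4),(k9,k4),(k0,k5),(k5,k5)],[(k10,k4),
    (k1,k5)]]
    [] k0
    [[k0,k0,k0,k0,k1,k2]]
    [.ref k0 k0 [(z1,[z0,z1]),(z1,[z0,z0,z1]),(z1,[y1,y1,y1,z1])]],
    .lp [k6,k4,k4,k6,k4,k6] [k0,k0,k1,k1,k1,k1,k0,k0,k1,k1,k0,k0] k0 [] k16 k5
    [[(k1,k6),(k10,k6)],[(k2,k5),(k3,k5),(k6,k6),(k11,k6)],[(k5,k4),(k8,k4),(k9,k4),(k0,k5)],[(k5,k4),(k8,k4),(k9,k4),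
    (k0,k5)],[(k2,k4),(k3,k4),(k6,k5),(k11,k5)],[(k4,k4),(k7,k5)],[(k4,k5),(k7,k6)],[(k5,k5),(k8,k5),(k9,k5),(k0,k6)],
    [(k2,k4),(k3,k4),(k6,k5),(k11,k5)],[(k2,k4),(k3,k4),(k6,k5),(k11,k5)],[(k5,k5),(k8,k5),(k9,k5),(k0,k6)],[(k1,k6),
    (k10,k6)]]
    [] k0
    [[k0,k1,k2,k0,k0,k0]]
    [.ref k1 k0 [(z2,[y1,z1,z1]),(z1,[z1])]],
    .lp [k6,k4,k4,k6,k4,k6] [k0,k0,k1,k1,k1,k1,k0,k0,k1,k1,k0,k0] k0 [] k16 k5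
    [[(k1,k6),(k10,k6)],[(k2,k5),(k3,k5),(k6,k6),(k11,k6)],[(k5,k4),(k8,k4),(k9,k4),(k0,k5)],[(k5,k4),(k8,k4),(k9,k4),
    (k0,k5)],[(k2,k4),(k3,k4),(k6,k5),(k11,k5)],[(k4,k4),(k7,k5)],[(k4,k5),(k7,k6)],[(k5,k5),(k8,k5),(k9,k5),(k0,k6)],
    [(k2,k4),(k3,k4),(k6,k5),(k11,k5)],[(k2,k4),(k3,k4),(k6,k5),(k11,k5)],[(k5,k5),(k8,k5),(k9,k5),(k0,k6)],[(k1,k6),
    (k10,k6)]]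
    [] k0
    [[k0,k1,k2,k0,k0,k0]]
    [.ref k2 k1 [(z1,[z1,y1])]]]⟩

/-- classes `0 0 1 0 0 2`, types `N0 N0 C0 N1 N1 C0` -/
noncomputable def cT6_859 : CertT :=
  ⟨[k12,k12,k20,k13,k13,k36],[],[[[]]],
    [.lp [k0,k0,k0,k2,k2,k2] [k1,k1,k1,k1,k1,k1,k0,k0,k0,k0,k0,k0] k0 [] k4 k5
    [[(k10,k1)],[(k9,k1),(k11,k1)],[(k6,k1),(k8,k1)],[(k9,k1),(k11,k1)],[(k6,k1),(k8,k1)],[(k7,k1)],[(k4,k1)],[(k3,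
    k1),(k5,k1)],[(k0,k1),(k2,k1)],[(k3,k1),(k5,k1)],[(k0,k1),(k2,k1)],[(k1,k1)]]
    [] k0
    []
    []]⟩

/-- classes `0 0 1 0 0 2`, types `N0 N0 C0 N1 N1 S0` -/
noncomputable def cT6_860 : CertT :=
  ⟨[k12,k12,k20,k13,k13,k32],[],[[[]]],
    [.lp [k2,k2,k2,k2,k2,k2] [k0,k0,k0,k0,k0,k0,k0,k0,k0,k0,k0,k0] k0 [] k8 k5
    [[(k1,k2),(k10,k2)],[(k9,k2),(k11,k2)],[(k6,k2),(k8,k2)],[(k9,k2),(k11,k2)],[(k6,k2),(k8,k2)],[(k7,k2)],[(k4,k2)],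
    [(k3,k2),(k5,k2)],[(k0,k2),(k2,k2)],[(k3,k2),(k5,k2)],[(k0,k2),(k2,k2)],[(k1,k2),(k10,k2)]]
    [] k0
    []
    []]⟩

/-- classes `0 0 1 0 0 2`, types `N0 N0 C0 N1 N2 C0` -/
noncomputable def cT6_861 : CertT :=
  ⟨[k12,k12,k20,k13,k14,k36],[],[[[]]],
    [.lp [k0,k0,k0,k2,k2,k2] [k1,k1,k1,k1,k1,k1,k0,k0,k0,k0,k0,k0] k0 [] k4 k5
    [[(k10,k1)],[(k8,k1),(k9,k1)],[(k6,k1),(k11,k1)],[(k8,k1),(k9,k1)],[(k6,k1),(k11,k1)],[(k7,k1)],[(k4,k1)],[(k3,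
    k1),(k5,k1)],[(k0,k1),(k2,k1)],[(k0,k1),(k2,k1)],[(k3,k1),(k5,k1)],[(k1,k1)]]
    [] k0
    []
    []]⟩

/-- classes `0 0 1 0 0 2`, types `N0 N0 C0 N1 N2 S0` -/
noncomputable def cT6_862 : CertT :=
  ⟨[k12,k12,k20,k13,k14,k32],[],[[[]]],
    [.lp [k6,k4,k4,k4,k4,k4] [k0,k0,k1,k1,k1,k1,k1,k1,k1,k1,k1,k1] k0 [] k16 k5
    [[(k10,k5),(k1,k6)],[(k8,k5),(k9,k5)],[(k6,k4),(k11,k4)],[(k8,k4),(k9,k4)],[(k6,k4),(k11,k4)],[(k7,k4)],[(k4,k4)],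
    [(k3,k4),(k5,k4)],[(k2,k4),(k0,k5)],[(k2,k4),(k0,k5)],[(k3,k4),(k5,k4)],[(k10,k4),(k1,k5)]]
    [] k0
    []
    []]⟩

/-- classes `0 0 1 0 0 2`, types `N0 N0 C0 N2 N1 S0` -/
noncomputable def cT6_863 : CertT :=
  ⟨[k12,k12,k20,k14,k13,k32],[],[[[]]],
    [.lp [k2,k2,k2,k2,k2,k2] [k0,k0,k0,k0,k0,k0,k0,k0,k0,k0,k0,k0] k0 [] k8 k5
    [[(k1,k2),(k10,k2)],[(k6,k2),(k11,k2)],[(k8,k2),(k9,k2)],[(k6,k2),(k11,k2)],[(k8,k2),(k9,k2)],[(k7,k2)],[(k4,k2)],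
    [(k0,k2),(k2,k2)],[(k3,k2),(k5,k2)],[(k3,k2),(k5,k2)],[(k0,k2),(k2,k2)],[(k1,k2),(k10,k2)]]
    [] k0
    []
    []]⟩

/-- classes `0 0 1 0 0 2`, types `N0 N0 C0 N2 N2 C0` -/
noncomputable def cT6_864 : CertT :=
  ⟨[k12,k12,k20,k14,k14,k36],[],[[[]]],
    [.lp [k0,k0,k0,k2,k2,k2] [k1,k1,k1,k1,k1,k1,k0,k0,k0,k0,k0,k0] k0 [] k4 k5
    [[(k10,k1)],[(k6,k1),(k8,k1)],[(k9,k1),(k11,k1)],[(k6,k1),(k8,k1)],[(k9,k1),(k11,k1)],[(k7,k1)],[(k4,k1)],[(k0,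
    k1),(k2,k1)],[(k3,k1),(k5,k1)],[(k0,k1),(k2,k1)],[(k3,k1),(k5,k1)],[(k1,k1)]]
    [] k0
    []
    []]⟩

/-- classes `0 0 1 0 0 2`, types `N0 N0 C0 N2 N2 S0` -/
noncomputable def cT6_865 : CertT :=
  ⟨[k12,k12,k20,k14,k14,k32],[],[[[]]],
    [.lp [k2,k2,k2,k2,k2,k2] [k0,k0,k0,k0,k0,k0,k0,k0,k0,k0,k0,k0] k0 [] k8 k5
    [[(k1,k2),(k10,k2)],[(k6,k2),(k8,k2)],[(k9,k2),(k11,k2)],[(k6,k2),(k8,k2)],[(k9,k2),(k11,k2)],[(k7,k2)],[(k4,k2)],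
    [(k0,k2),(k2,k2)],[(k3,k2),(k5,k2)],[(k0,k2),(k2,k2)],[(k3,k2),(k5,k2)],[(k1,k2),(k10,k2)]]
    [] k0
    []
    []]⟩

/-- classes `0 0 1 0 0 2`, types `N0 N0 S0 N1 N1 S0` -/
noncomputable def cT6_866 : CertT :=
  ⟨[k12,k12,k16,k13,k13,k32],[],[[[]]],
    [.lp [k2,k2,k2,k2,k2,k2] [k0,k0,k0,k0,k0,k0,k0,k0,k0,k0,k0,k0] k0 [] k8 k5
    [[(k1,k2),(k10,k2)],[(k9,k2),(k11,k2)],[(k6,k2),(k8,k2)],[(k9,k2),(k11,k2)],[(k6,k2),(k8,k2)],[(k4,k2),(k7,k2)],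
    [(k4,k2),(k7,k2)],[(k3,k2),(k5,k2)],[(k0,k2),(k2,k2)],[(k3,k2),(k5,k2)],[(k0,k2),(k2,k2)],[(k1,k2),(k10,k2)]]
    [] k0
    []
    []]⟩

/-- classes `0 0 1 0 0 2`, types `N0 N0 S0 N1 N2 S0` -/
noncomputable def cT6_867 : CertT :=
  ⟨[k12,k12,k16,k13,k14,k32],[],[[[]]],
    [.lp [k6,k4,k4,k4,k4,k4] [k0,k0,k1,k1,k1,k1,k1,k1,k1,k1,k1,k1] k0 [] k16 k5
    [[(k10,k5),(k1,k6)],[(k8,k5),(k9,k5)],[(k6,k4),(k11,k4)],[(k8,k4),(k9,k4)],[(k6,k4),(k11,k4)],[(k4,k4),(k7,k4)],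
    [(k4,k4),(k7,k4)],[(k3,k4),(k5,k4)],[(k2,k4),(k0,k5)],[(k2,k4),(k0,k5)],[(k3,k4),(k5,k4)],[(k10,k4),(k1,k5)]]
    [] k0
    []
    []]⟩

/-- classes `0 0 1 0 0 2`, types `N0 N0 S0 N2 N2 S0` -/
noncomputable def cT6_868 : CertT :=
  ⟨[k12,k12,k16,k14,k14,k32],[],[[[]]],
    [.lp [k2,k2,k2,k2,k2,k2] [k0,k0,k0,k0,k0,k0,k0,k0,k0,k0,k0,k0] k0 [] k8 k5
    [[(k1,k2),(k10,k2)],[(k6,k2),(k8,k2)],[(k9,k2),(k11,k2)],[(k6,k2),(k8,k2)],[(k9,k2),(k11,k2)],[(k4,k2),(k7,k2)],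
    [(k4,k2),(k7,k2)],[(k0,k2),(k2,k2)],[(k3,k2),(k5,k2)],[(k0,k2),(k2,k2)],[(k3,k2),(k5,k2)],[(k1,k2),(k10,k2)]]
    [] k0
    []
    []]⟩

/-- classes `0 0 1 0 0 2`, types `N0 N1 C0 N0 N1 C0` -/
noncomputable def cT6_869 : CertT :=
  ⟨[k12,k13,k20,k12,k13,k36],[],[[[]]],
    [.lp [k6,k4,k0,k6,k4,k0] [k0,k0,k1,k1,k3,k3,k0,k0,k1,k1,k3,k3] k0 [] k12 k5
    [[(k10,k3)],[(k5,k3),(k11,k3)],[(k2,k4),(k8,k4)],[(k3,k4),(k9,k4)],[(k0,k3),(k6,k3)],[(k7,k3)],[(k4,k3)],[(k5,k3),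
    (k11,k3)],[(k2,k4),(k8,k4)],[(k3,k4),(k9,k4)],[(k0,k3),(k6,k3)],[(k1,k3)]]
    [] k0
    []
    []]⟩

/-- classes `0 0 1 0 0 2`, types `N0 N1 C0 N0 N1 S0` -/
noncomputable def cT6_870 : CertT :=
  ⟨[k12,k13,k20,k12,k13,k32],[],[[[]]],
    [.lp [k6,k8,k6,k6,k8,k6] [k1,k1,k0,k0,k1,k1,k1,k1,k0,k0,k1,k1] k0 [] k24 k5
    [[(k1,k6),(k10,k6)],[(k5,k6),(k11,k6)],[(k2,k8),(k8,k8)],[(k3,k8),(k9,k8)],[(k0,k6),(k6,k6)],[(k7,k6)],[(k4,k6)],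
    [(k5,k6),(k11,k6)],[(k2,k8),(k8,k8)],[(k3,k8),(k9,k8)],[(k0,k6),(k6,k6)],[(k1,k6),(k10,k6)]]
    [] k0
    []
    []]⟩

/-- classes `0 0 1 0 0 2`, types `N0 N1 C0 N0 N2 C0` -/
noncomputable def cT6_871 : CertT :=
  ⟨[k12,k13,k20,k12,k14,k36],[],[[[]]],
    [.lp [k12,k8,k0,k12,k6,k4] [k0,k0,k2,k2,k6,k6,k0,k0,k3,k3,k4,k4] k0 [[],[],[],[],[],[],[k0,k0,k0,k0,k0,k0,k0,k0,k0,k2],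
    [],[k0,k0,k0,k0,k0,k0,k0,k2]] k24 k5
    [[(k10,k8)],[(k5,k6),(k8,k9)],[(k11,k6),(k2,k8)],[(k9,k7),(k3,k8)],[(k0,k6),(k6,k6)],[(k7,k6)],[(k4,k6)],[(k5,k6),
    (k8,k7)],[(k2,k7),(k11,k7)],[(k6,k7),(k0,k9)],[(k3,k6),(k9,k7)],[(k1,k8)]]
    [] k0
    []
    []]⟩

/-- classes `0 0 1 0 0 2`, types `N0 N1 C0 N0 N2 S0` -/
noncomputable def cT6_872 : CertT :=
  ⟨[k12,k13,k20,k12,k14,k32],[],[[[]]],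
    [.lp [k12,k8,k0,k12,k4,k6] [k0,k0,k2,k2,k6,k6,k0,k0,k4,k4,k3,k3] k0 [[],[],[],[],[],[],[k0,k0,k0,k0,k0,k0,k0,k0,k0,k2],
    [],[k0,k0,k0,k0,k0,k0,k0,k2]] k24 k5
    [[(k10,k9),(k1,k12)],[(k5,k6),(k8,k8)],[(k11,k7),(k2,k8)],[(k9,k6),(k3,k8)],[(k0,k6),(k6,k6)],[(k7,k6)],[(k4,k6)],
    [(k5,k6),(k8,k6)],[(k2,k6),(k11,k7)],[(k6,k6),(k0,k8)],[(k3,k7),(k9,k7)],[(k10,k6),(k1,k9)]]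
    [] k0
    []
    []]⟩

/-- classes `0 0 1 0 0 2`, types `N0 N1 C0 N1 N0 C0` -/
noncomputable def cT6_873 : CertT :=
  ⟨[k12,k13,k20,k13,k12,k36],[],[[[]]],
    [.lp [k4,k4,k2,k4,k4,k2] [k0,k0,k0,k0,k1,k1,k0,k0,k0,k0,k1,k1] k0 [] k12 k5
    [[(k10,k3)],[(k5,k3),(k9,k4)],[(k2,k4),(k6,k4)],[(k11,k3),(k3,k4)],[(k0,k3),(k8,k3)],[(k7,k3)],[(k4,k3)],[(k11,
    k3),(k3,k4)],[(k0,k4),(k8,k4)],[(k5,k3),(k9,k4)],[(k2,k3),(k6,k3)],[(k1,k3)]]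
    [] k0
    []
    []]⟩

/-- classes `0 0 1 0 0 2`, types `N0 N1 C0 N1 N0 S0` -/
noncomputable def cT6_874 : CertT :=
  ⟨[k12,k13,k20,k13,k12,k32],[],[[[]]],
    [.lp [k6,k8,k6,k6,k8,k6] [k1,k1,k0,k0,k1,k1,k1,k1,k0,k0,k1,k1] k0 [] k24 k5
    [[(k1,k6),(k10,k6)],[(k5,k6),(k9,k7)],[(k6,k7),(k2,k8)],[(k11,k7),(k3,k8)],[(k0,k6),(k8,k7)],[(k7,k6)],[(k4,k6)],
    [(k11,k6),(k3,k7)],[(k0,k7),(k8,k8)],[(k5,k7),(k9,k8)],[(k6,k6),(k2,k7)],[(k1,k6),(k10,k6)]]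
    [] k0
    []
    []]⟩

/-- classes `0 0 1 0 0 2`, types `N0 N1 C0 N1 N3 C0` -/
noncomputable def cT6_875 : CertT :=
  ⟨[k12,k13,k20,k13,k15,k36],[],[[[]]],
    [.lp [k6,k8,k6,k6,k6,k6] [k1,k1,k0,k0,k1,k1,k1,k1,k1,k1,k1,k1] k0 [] k24 k5
    [[(k10,k6)],[(k5,k6),(k9,k6)],[(k6,k7),(k2,k8)],[(k8,k7),(k3,k8)],[(k0,k6),(k11,k6)],[(k7,k6)],[(k4,k6)],[(k8,k6),
    (k3,k7)],[(k0,k6),(k11,k6)],[(k6,k6),(k2,k7)],[(k5,k6),(k9,k6)],[(k1,k6)]]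
    [] k0
    []
    []]⟩

/-- classes `0 0 1 0 0 2`, types `N0 N1 C0 N1 N3 S0` -/
noncomputable def cT6_876 : CertT :=
  ⟨[k12,k13,k20,k13,k15,k32],[],[[[]]],
    [.lp [k6,k8,k6,k6,k6,k6] [k1,k1,k0,k0,k1,k1,k1,k1,k1,k1,k1,k1] k0 [] k24 k5
    [[(k1,k6),(k10,k6)],[(k5,k6),(k9,k6)],[(k6,k7),(k2,k8)],[(k8,k7),(k3,k8)],[(k0,k6),(k11,k6)],[(k7,k6)],[(k4,k6)],
    [(k8,k6),(k3,k7)],[(k0,k6),(k11,k6)],[(k6,k6),(k2,k7)],[(k5,k6),(k9,k6)],[(k1,k6),(k10,k6)]]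
    [] k0
    []
    []]⟩

/-- classes `0 0 1 0 0 2`, types `N0 N1 C0 N2 N0 S0` -/
noncomputable def cT6_877 : CertT :=
  ⟨[k12,k13,k20,k14,k12,k32],[],[[[]]],
    [.lp [k6,k8,k6,k6,k6,k6] [k1,k1,k0,k0,k1,k1,k1,k1,k1,k1,k1,k1] k0 [] k24 k5
    [[(k1,k6),(k10,k6)],[(k5,k6),(k6,k6)],[(k9,k7),(k2,k8)],[(k11,k7),(k3,k8)],[(k0,k6),(k8,k6)],[(k7,k6)],[(k4,k6)],
    [(k0,k6),(k8,k6)],[(k11,k6),(k3,k7)],[(k5,k6),(k6,k6)],[(k9,k6),(k2,k7)],[(k1,k6),(k10,k6)]]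
    [] k0
    []
    []]⟩

/-- classes `0 0 1 0 0 2`, types `N0 N1 C0 N2 N3 C0` -/
noncomputable def cT6_878 : CertT :=
  ⟨[k12,k13,k20,k14,k15,k36],[],[[[]]],
    [.lp [k6,k8,k6,k6,k8,k6] [k1,k1,k0,k0,k1,k1,k1,k1,k0,k0,k1,k1] k0 [] k24 k5
    [[(k10,k6)],[(k5,k6),(k6,k6)],[(k2,k8),(k9,k8)],[(k3,k8),(k8,k8)],[(k0,k6),(k11,k6)],[(k7,k6)],[(k4,k6)],[(k0,k6),
    (k11,k6)],[(k3,k8),(k8,k8)],[(k2,k8),(k9,k8)],[(k5,k6),(k6,k6)],[(k1,k6)]]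
    [] k0
    []
    []]⟩

/-- classes `0 0 1 0 0 2`, types `N0 N1 C0 N2 N3 S0` -/
noncomputable def cT6_879 : CertT :=
  ⟨[k12,k13,k20,k14,k15,k32],[],[[[]]],
    [.lp [k6,k8,k6,k6,k8,k6] [k1,k1,k0,k0,k1,k1,k1,k1,k0,k0,k1,k1] k0 [] k24 k5
    [[(k1,k6),(k10,k6)],[(k5,k6),(k6,k6)],[(k2,k8),(k9,k8)],[(k3,k8),(k8,k8)],[(k0,k6),(k11,k6)],[(k7,k6)],[(k4,k6)],
    [(k0,k6),(k11,k6)],[(k3,k8),(k8,k8)],[(k2,k8),(k9,k8)],[(k5,k6),(k6,k6)],[(k1,k6),(k10,k6)]]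
    [] k0
    []
    []]⟩

/-- classes `0 0 1 0 0 2`, types `N0 N1 C0 N3 N1 S0` -/
noncomputable def cT6_880 : CertT :=
  ⟨[k12,k13,k20,k15,k13,k32],[],[[[]]],
    [.lp [k6,k6,k12,k6,k6,k6] [k3,k3,k3,k3,k0,k0,k3,k3,k3,k3,k3,k3] k0 [[k0,k0,k2],[],[],[k0,k2]] k24 k5
    [[(k1,k6),(k10,k6)],[(k11,k6),(k5,k7)],[(k8,k6),(k2,k8)],[(k6,k6),(k3,k8)],[(k0,k7),(k9,k9)],[(k7,k9)],[(k4,k9)],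
    [(k2,k6),(k8,k6)],[(k11,k6),(k5,k9)],[(k3,k6),(k6,k6)],[(k0,k6),(k9,k6)],[(k1,k6),(k10,k6)]]
    [] k0
    []
    []]⟩

/-- classes `0 0 1 0 0 2`, types `N0 N1 C0 N3 N2 C0` -/
noncomputable def cT6_881 : CertT :=
  ⟨[k12,k13,k20,k15,k14,k36],[],[[[]]],
    [.lp [k4,k4,k2,k4,k4,k2] [k0,k0,k0,k0,k1,k1,k0,k0,k0,k0,k1,k1] k0 [] k12 k5
    [[(k10,k3)],[(k5,k3),(k8,k4)],[(k11,k3),(k2,k4)],[(k3,k4),(k6,k4)],[(k0,k3),(k9,k3)],[(k7,k3)],[(k4,k3)],[(k11,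
    k3),(k2,k4)],[(k5,k3),(k8,k4)],[(k0,k4),(k9,k4)],[(k3,k3),(k6,k3)],[(k1,k3)]]
    [] k0
    []
    []]⟩

/-- classes `0 0 1 0 0 2`, types `N0 N1 C0 N3 N2 S0` -/
noncomputable def cT6_882 : CertT :=
  ⟨[k12,k13,k20,k15,k14,k32],[],[[[]]],
    [.lp [k6,k8,k6,k6,k8,k6] [k1,k1,k0,k0,k1,k1,k1,k1,k0,k0,k1,k1] k0 [] k24 k5
    [[(k1,k6),(k10,k6)],[(k5,k6),(k8,k7)],[(k11,k7),(k2,k8)],[(k6,k7),(k3,k8)],[(k0,k6),(k9,k7)],[(k7,k6)],[(k4,k6)],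
    [(k11,k6),(k2,k7)],[(k5,k7),(k8,k8)],[(k0,k7),(k9,k8)],[(k6,k6),(k3,k7)],[(k1,k6),(k10,k6)]]
    [] k0
    []
    []]⟩

/-- classes `0 0 1 0 0 2`, types `N0 N1 S0 N0 N1 S0` -/
noncomputable def cT6_883 : CertT :=
  ⟨[k12,k13,k16,k12,k13,k32],[],[[[]]],
    [.lp [k6,k8,k6,k6,k8,k6] [k1,k1,k0,k0,k1,k1,k1,k1,k0,k0,k1,k1] k0 [] k24 k5
    [[(k1,k6),(k10,k6)],[(k5,k6),(k11,k6)],[(k2,k8),(k8,k8)],[(k3,k8),(k9,k8)],[(k0,k6),(k6,k6)],[(k4,k6),(k7,k6)],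
    [(k4,k6),(k7,k6)],[(k5,k6),(k11,k6)],[(k2,k8),(k8,k8)],[(k3,k8),(k9,k8)],[(k0,k6),(k6,k6)],[(k1,k6),(k10,k6)]]
    [] k0
    []
    []]⟩

/-- classes `0 0 1 0 0 2`, types `N0 N1 S0 N0 N2 S0` -/
noncomputable def cT6_884 : CertT :=
  ⟨[k12,k13,k16,k12,k14,k32],[],[[[]]],
    [.lp [k12,k6,k6,k6,k6,k6] [k0,k0,k3,k3,k3,k3,k3,k3,k3,k3,k3,k3] k0 [[k0,k0,k2],[],[],[k0,k2]] k24 k5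
    [[(k10,k9),(k1,k12)],[(k5,k7),(k8,k9)],[(k11,k6),(k2,k8)],[(k9,k6),(k3,k8)],[(k6,k6),(k0,k7)],[(k4,k6),(k7,k6)],
    [(k4,k6),(k7,k6)],[(k5,k6),(k8,k6)],[(k2,k6),(k11,k6)],[(k6,k6),(k0,k9)],[(k3,k6),(k9,k6)],[(k10,k6),(k1,k9)]]
    [] k0
    []
    []]⟩

/-- classes `0 0 1 0 0 2`, types `N0 N1 S0 N1 N0 S0` -/
noncomputable def cT6_885 : CertT :=
  ⟨[k12,k13,k16,k13,k12,k32],[],[[[]]],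
    [.lp [k6,k8,k6,k6,k8,k6] [k1,k1,k0,k0,k1,k1,k1,k1,k0,k0,k1,k1] k0 [] k24 k5
    [[(k1,k6),(k10,k6)],[(k5,k6),(k9,k7)],[(k6,k7),(k2,k8)],[(k11,k7),(k3,k8)],[(k0,k6),(k8,k7)],[(k4,k6),(k7,k6)],
    [(k4,k6),(k7,k6)],[(k11,k6),(k3,k7)],[(k0,k7),(k8,k8)],[(k5,k7),(k9,k8)],[(k6,k6),(k2,k7)],[(k1,k6),(k10,k6)]]
    [] k0
    []
    []]⟩

/-- classes `0 0 1 0 0 2`, types `N0 N1 S0 N1 N3 S0` -/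
noncomputable def cT6_886 : CertT :=
  ⟨[k12,k13,k16,k13,k15,k32],[],[[[]]],
    [.lp [k6,k8,k6,k6,k6,k6] [k1,k1,k0,k0,k1,k1,k1,k1,k1,k1,k1,k1] k0 [] k24 k5
    [[(k1,k6),(k10,k6)],[(k5,k6),(k9,k6)],[(k6,k7),(k2,k8)],[(k8,k7),(k3,k8)],[(k0,k6),(k11,k6)],[(k4,k6),(k7,k6)],
    [(k4,k6),(k7,k6)],[(k8,k6),(k3,k7)],[(k0,k6),(k11,k6)],[(k6,k6),(k2,k7)],[(k5,k6),(k9,k6)],[(k1,k6),(k10,k6)]]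
    [] k0
    []
    []]⟩

/-- classes `0 0 1 0 0 2`, types `N0 N1 S0 N2 N3 S0` -/
noncomputable def cT6_887 : CertT :=
  ⟨[k12,k13,k16,k14,k15,k32],[],[[[]]],
    [.lp [k6,k8,k6,k6,k8,k6] [k1,k1,k0,k0,k1,k1,k1,k1,k0,k0,k1,k1] k0 [] k24 k5
    [[(k1,k6),(k10,k6)],[(k5,k6),(k6,k6)],[(k2,k8),(k9,k8)],[(k3,k8),(k8,k8)],[(k0,k6),(k11,k6)],[(k4,k6),(k7,k6)],
    [(k4,k6),(k7,k6)],[(k0,k6),(k11,k6)],[(k3,k8),(k8,k8)],[(k2,k8),(k9,k8)],[(k5,k6),(k6,k6)],[(k1,k6),(k10,k6)]]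
    [] k0
    []
    []]⟩

/-- classes `0 0 1 0 0 2`, types `N0 N1 S0 N3 N2 S0` -/
noncomputable def cT6_888 : CertT :=
  ⟨[k12,k13,k16,k15,k14,k32],[],[[[]]],
    [.lp [k6,k8,k6,k6,k8,k6] [k1,k1,k0,k0,k1,k1,k1,k1,k0,k0,k1,k1] k0 [] k24 k5
    [[(k1,k6),(k10,k6)],[(k5,k6),(k8,k7)],[(k11,k7),(k2,k8)],[(k6,k7),(k3,k8)],[(k0,k6),(k9,k7)],[(k4,k6),(k7,k6)],
    [(k4,k6),(k7,k6)],[(k11,k6),(k2,k7)],[(k5,k7),(k8,k8)],[(k0,k7),(k9,k8)],[(k6,k6),(k3,k7)],[(k1,k6),(k10,k6)]]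
    [] k0
    []
    []]⟩

/-- classes `0 0 1 0 0 2`, types `N0 N2 C0 N0 N2 C0` -/
noncomputable def cT6_889 : CertT :=
  ⟨[k12,k14,k20,k12,k14,k36],[(false,k0,[k0,k1,k2,k3,k4,k5])],[[[([z1,z0,z0,z0,z1,z1],z2),([z0,z1,z0,z0,y1,z0],z0)],
    [([z1,z0,z0,z0,z1,z1],z2)],[]]],
    [.tor k3 false k0 [(z1,[y1,y1,z1]),(z1,[y1,z0,z1]),(z1,[z1]),(z1,[z1,z1])],
    .lp [k12,k8,k6,k10,k6,k4] [k0,k0,k2,k2,k3,k3,k1,k1,k3,k3,k4,k4] k0 [[],[],[],[],[],[],[k0,k0,k0,k0,k0,k0,k0,k0,k0,k2],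
    [],[k0,k0,k0,k0,k0,k0,k0,k2]] k24 k5
    [[(k10,k8)],[(k8,k9),(k2,k10)],[(k11,k6),(k5,k7)],[(k6,k9),(k0,k10)],[(k9,k6),(k3,k7)],[(k7,k8)],[(k4,k8)],[(k8,
    k6),(k2,k9)],[(k5,k6),(k11,k7)],[(k6,k6),(k0,k9)],[(k3,k6),(k9,k7)],[(k1,k8)]]
    [] k0
    [[k0,k0,k1,k1,k1,k0]]
    [.ref k0 k0 [(z1,[z0,z1]),(z1,[y1,y1,z1])]],
    .lp [k14,k4,k8,k8,k8,k4] [k0,k0,k5,k5,k3,k3,k3,k3,k3,k3,k5,k5] k0 [[k0,k0,k0,k0,k0,k0,k0,k0,k0,k2],[],[],[],[],[],[],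
    [],[k0,k2]] k24 k5
    [[(k10,k9)],[(k2,k9),(k8,k9)],[(k5,k6),(k11,k6)],[(k6,k6),(k0,k9)],[(k3,k6),(k9,k8)],[(k7,k8)],[(k4,k8)],[(k2,k6),
    (k8,k8)],[(k11,k6),(k5,k8)],[(k6,k8),(k0,k9)],[(k3,k6),(k9,k6)],[(k1,k9)]]
    [] k0
    [[k0,k1,k1,k1,k0,k0]]
    [.ref k1 k0 [(z1,[y1,z1])]]]⟩

/-- classes `0 0 1 0 0 2`, types `N0 N2 C0 N0 N2 S0` -/
noncomputable def cT6_890 : CertT :=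
  ⟨[k12,k14,k20,k12,k14,k32],[(false,k0,[k0,k1,k2,k3,k4,k5]),(true,k5,[k5,k4,k3,k2,k1,k0])],[[[([z1,z0,z0,z0,z1,z1],
    z2),([z0,z1,z0,z0,y1,z0],z0)],[([z1,z0,z0,z0,z1,z1],z2)],[]]],
    [.tor k3 false k0 [(z1,[y1,y1,z1]),(z1,[y1,z0,z1]),(z1,[z1]),(z1,[z1,z1])],
    .lp [k6,k10,k6,k6,k6,k12] [k3,k3,k1,k1,k3,k3,k3,k3,k3,k3,k0,k0] k0 [[k0,k0,k0,k2],[],[k0,k2]] k24 k5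
    [[(k1,k6),(k10,k9)],[(k2,k6),(k8,k6)],[(k5,k10),(k11,k11)],[(k0,k6),(k6,k8)],[(k9,k6),(k3,k10)],[(k7,k6)],[(k4,
    k6)],[(k8,k6),(k2,k8)],[(k5,k6),(k11,k9)],[(k0,k6),(k6,k6)],[(k9,k9),(k3,k11)],[(k1,k9),(k10,k12)]]
    [] k0
    [[k0,k0,k1,k1,k1,k0]]
    [.ref k0 k0 [(z1,[z0,z1]),(z1,[y1,y1,z1])]],
    .lp [k6,k10,k6,k6,k6,k12] [k3,k3,k1,k1,k3,k3,k3,k3,k3,k3,k0,k0] k0 [[k0,k0,k0,k2],[],[k0,k2]] k24 k5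
    [[(k1,k6),(k10,k9)],[(k2,k6),(k8,k6)],[(k5,k10),(k11,k11)],[(k0,k6),(k6,k8)],[(k9,k6),(k3,k10)],[(k7,k6)],[(k4,
    k6)],[(k8,k6),(k2,k8)],[(k5,k6),(k11,k9)],[(k0,k6),(k6,k6)],[(k9,k9),(k3,k11)],[(k1,k9),(k10,k12)]]
    [] k0
    [[k0,k0,k1,k1,k1,k0]]
    [.ref k1 k1 [(z1,[y1,z1])]]]⟩

/-- classes `0 0 1 0 0 2`, types `N0 N2 C0 N1 N3 C0` -/
noncomputable def cT6_891 : CertT :=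
  ⟨[k12,k14,k20,k13,k15,k36],[],[[[]]],
    [.lp [k2,k2,k2,k2,k2,k2] [k0,k0,k0,k0,k0,k0,k0,k0,k0,k0,k0,k0] k0 [] k8 k5
    [[(k10,k2)],[(k2,k2),(k9,k2)],[(k5,k2),(k6,k2)],[(k0,k2),(k11,k2)],[(k3,k2),(k8,k2)],[(k7,k2)],[(k4,k2)],[(k3,k2),
    (k8,k2)],[(k0,k2),(k11,k2)],[(k5,k2),(k6,k2)],[(k2,k2),(k9,k2)],[(k1,k2)]]
    [] k0
    []
    []]⟩

/-- classes `0 0 1 0 0 2`, types `N0 N2 C0 N1 N3 S0` -/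
noncomputable def cT6_892 : CertT :=
  ⟨[k12,k14,k20,k13,k15,k32],[],[[[]]],
    [.lp [k2,k2,k2,k2,k2,k2] [k0,k0,k0,k0,k0,k0,k0,k0,k0,k0,k0,k0] k0 [] k8 k5
    [[(k1,k2),(k10,k2)],[(k2,k2),(k9,k2)],[(k5,k2),(k6,k2)],[(k0,k2),(k11,k2)],[(k3,k2),(k8,k2)],[(k7,k2)],[(k4,k2)],
    [(k3,k2),(k8,k2)],[(k0,k2),(k11,k2)],[(k5,k2),(k6,k2)],[(k2,k2),(k9,k2)],[(k1,k2),(k10,k2)]]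
    [] k0
    []
    []]⟩

/-- classes `0 0 1 0 0 2`, types `N0 N2 C0 N2 N0 C0` -/
noncomputable def cT6_893 : CertT :=
  ⟨[k12,k14,k20,k14,k12,k36],[],[[[]]],
    [.lp [k0,k2,k0,k2,k0,k2] [k1,k1,k0,k0,k1,k1,k0,k0,k1,k1,k0,k0] k0 [] k4 k5
    [[(k10,k1)],[(k2,k1),(k6,k1)],[(k5,k1),(k9,k1)],[(k0,k1),(k8,k1)],[(k3,k1),(k11,k1)],[(k7,k1)],[(k4,k1)],[(k0,k1),
    (k8,k1)],[(k3,k1),(k11,k1)],[(k2,k1),(k6,k1)],[(k5,k1),(k9,k1)],[(k1,k1)]]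
    [] k0
    []
    []]⟩

/-- classes `0 0 1 0 0 2`, types `N0 N2 C0 N2 N0 S0` -/
noncomputable def cT6_894 : CertT :=
  ⟨[k12,k14,k20,k14,k12,k32],[],[[[]]],
    [.lp [k2,k2,k2,k2,k2,k2] [k0,k0,k0,k0,k0,k0,k0,k0,k0,k0,k0,k0] k0 [] k8 k5
    [[(k1,k2),(k10,k2)],[(k2,k2),(k6,k2)],[(k5,k2),(k9,k2)],[(k0,k2),(k8,k2)],[(k3,k2),(k11,k2)],[(k7,k2)],[(k4,k2)],
    [(k0,k2),(k8,k2)],[(k3,k2),(k11,k2)],[(k2,k2),(k6,k2)],[(k5,k2),(k9,k2)],[(k1,k2),(k10,k2)]]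
    [] k0
    []
    []]⟩

/-- classes `0 0 1 0 0 2`, types `N0 N2 C0 N3 N1 C0` -/
noncomputable def cT6_895 : CertT :=
  ⟨[k12,k14,k20,k15,k13,k36],[],[[[]]],
    [.lp [k0,k2,k0,k2,k0,k2] [k1,k1,k0,k0,k1,k1,k0,k0,k1,k1,k0,k0] k0 [] k4 k5
    [[(k10,k1)],[(k2,k1),(k11,k1)],[(k5,k1),(k8,k1)],[(k0,k1),(k9,k1)],[(k3,k1),(k6,k1)],[(k7,k1)],[(k4,k1)],[(k5,k1),
    (k8,k1)],[(k2,k1),(k11,k1)],[(k3,k1),(k6,k1)],[(k0,k1),(k9,k1)],[(k1,k1)]]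
    [] k0
    []
    []]⟩

/-- classes `0 0 1 0 0 2`, types `N0 N2 C0 N3 N1 S0` -/
noncomputable def cT6_896 : CertT :=
  ⟨[k12,k14,k20,k15,k13,k32],[],[[[]]],
    [.lp [k2,k2,k2,k2,k2,k2] [k0,k0,k0,k0,k0,k0,k0,k0,k0,k0,k0,k0] k0 [] k8 k5
    [[(k1,k2),(k10,k2)],[(k2,k2),(k11,k2)],[(k5,k2),(k8,k2)],[(k0,k2),(k9,k2)],[(k3,k2),(k6,k2)],[(k7,k2)],[(k4,k2)],
    [(k5,k2),(k8,k2)],[(k2,k2),(k11,k2)],[(k3,k2),(k6,k2)],[(k0,k2),(k9,k2)],[(k1,k2),(k10,k2)]]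
    [] k0
    []
    []]⟩

/-- classes `0 0 1 0 0 2`, types `N0 N2 S0 N0 N2 S0` -/
noncomputable def cT6_897 : CertT :=
  ⟨[k12,k14,k16,k12,k14,k32],[(false,k0,[k0,k1,k2,k3,k4,k5]),(true,k2,[k2,k1,k0,k5,k4,k3])],[[[([z1,z0,z0,z0,z1,z1],
    z2),([z0,z1,z0,z0,y1,z0],z0)],[([z1,z0,z0,z0,z1,z1],z2)],[]]],
    [.tor k3 false k0 [(z1,[y1,y1,z1]),(z1,[y1,z0,z1]),(z1,[z1]),(z1,[z1,z1])],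
    .lp [k6,k10,k6,k6,k12,k6] [k3,k3,k1,k1,k3,k3,k3,k3,k0,k0,k3,k3] k0 [[k0,k0,k0,k2],[],[k0,k2]] k24 k5
    [[(k1,k6),(k10,k6)],[(k2,k6),(k8,k9)],[(k11,k8),(k5,k10)],[(k0,k6),(k6,k8)],[(k9,k9),(k3,k10)],[(k4,k6),(k7,k6)],
    [(k4,k6),(k7,k6)],[(k2,k8),(k8,k9)],[(k5,k9),(k11,k9)],[(k0,k9),(k6,k9)],[(k3,k8),(k9,k9)],[(k1,k6),(k10,k6)]]
    [] k0
    [[k1,k1,k0,k0,k0,k1]]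
    [.ref k0 k0 [(z1,[z0,z1]),(z1,[z1,y1])]],
    .lp [k6,k10,k6,k6,k12,k6] [k3,k3,k1,k1,k3,k3,k3,k3,k0,k0,k3,k3] k0 [[k0,k0,k0,k2],[],[k0,k2]] k24 k5
    [[(k1,k6),(k10,k6)],[(k2,k6),(k8,k9)],[(k11,k8),(k5,k10)],[(k0,k6),(k6,k8)],[(k9,k9),(k3,k10)],[(k4,k6),(k7,k6)],
    [(k4,k6),(k7,k6)],[(k2,k8),(k8,k9)],[(k5,k9),(k11,k9)],[(k0,k9),(k6,k9)],[(k3,k8),(k9,k9)],[(k1,k6),(k10,k6)]]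
    [] k0
    [[k1,k1,k0,k0,k0,k1]]
    [.ref k1 k1 [(z1,[y1,z1])]]]⟩

/-- classes `0 0 1 0 0 2`, types `N0 N2 S0 N1 N3 S0` -/
noncomputable def cT6_898 : CertT :=
  ⟨[k12,k14,k16,k13,k15,k32],[],[[[]]],
    [.lp [k2,k2,k2,k2,k2,k2] [k0,k0,k0,k0,k0,k0,k0,k0,k0,k0,k0,k0] k0 [] k8 k5
    [[(k1,k2),(k10,k2)],[(k2,k2),(k9,k2)],[(k5,k2),(k6,k2)],[(k0,k2),(k11,k2)],[(k3,k2),(k8,k2)],[(k4,k2),(k7,k2)],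
    [(k4,k2),(k7,k2)],[(k3,k2),(k8,k2)],[(k0,k2),(k11,k2)],[(k5,k2),(k6,k2)],[(k2,k2),(k9,k2)],[(k1,k2),(k10,k2)]]
    [] k0
    []
    []]⟩

/-- classes `0 0 1 0 0 2`, types `N0 N2 S0 N2 N0 S0` -/
noncomputable def cT6_899 : CertT :=
  ⟨[k12,k14,k16,k14,k12,k32],[],[[[]]],
    [.lp [k2,k2,k2,k2,k2,k2] [k0,k0,k0,k0,k0,k0,k0,k0,k0,k0,k0,k0] k0 [] k8 k5
    [[(k1,k2),(k10,k2)],[(k2,k2),(k6,k2)],[(k5,k2),(k9,k2)],[(k0,k2),(k8,k2)],[(k3,k2),(k11,k2)],[(k4,k2),(k7,k2)],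
    [(k4,k2),(k7,k2)],[(k0,k2),(k8,k2)],[(k3,k2),(k11,k2)],[(k2,k2),(k6,k2)],[(k5,k2),(k9,k2)],[(k1,k2),(k10,k2)]]
    [] k0
    []
    []]⟩

/-- classes `0 0 1 0 0 2`, types `N0 N2 S0 N3 N1 S0` -/
noncomputable def cT6_900 : CertT :=
  ⟨[k12,k14,k16,k15,k13,k32],[],[[[]]],
    [.lp [k2,k2,k2,k2,k2,k2] [k0,k0,k0,k0,k0,k0,k0,k0,k0,k0,k0,k0] k0 [] k8 k5
    [[(k1,k2),(k10,k2)],[(k2,k2),(k11,k2)],[(k5,k2),(k8,k2)],[(k0,k2),(k9,k2)],[(k3,k2),(k6,k2)],[(k4,k2),(k7,k2)],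
    [(k4,k2),(k7,k2)],[(k5,k2),(k8,k2)],[(k2,k2),(k11,k2)],[(k3,k2),(k6,k2)],[(k0,k2),(k9,k2)],[(k1,k2),(k10,k2)]]
    [] k0
    []
    []]⟩

/-- classes `0 0 1 0 0 2`, types `N0 N3 C0 N1 N2 C0` -/
noncomputable def cT6_901 : CertT :=
  ⟨[k12,k15,k20,k13,k14,k36],[],[[[]]],
    [.lp [k0,k0,k0,k2,k2,k2] [k1,k1,k1,k1,k1,k1,k0,k0,k0,k0,k0,k0] k0 [] k4 k5
    [[(k10,k1)],[(k8,k1),(k9,k1)],[(k6,k1),(k11,k1)],[(k6,k1),(k11,k1)],[(k8,k1),(k9,k1)],[(k7,k1)],[(k4,k1)],[(k2,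
    k1),(k3,k1)],[(k0,k1),(k5,k1)],[(k0,k1),(k5,k1)],[(k2,k1),(k3,k1)],[(k1,k1)]]
    [] k0
    []
    []]⟩

/-- classes `0 0 1 0 0 2`, types `N0 N3 C0 N1 N2 S0` -/
noncomputable def cT6_902 : CertT :=
  ⟨[k12,k15,k20,k13,k14,k32],[],[[[]]],
    [.lp [k4,k4,k4,k0,k0,k2] [k0,k0,k0,k0,k0,k0,k2,k2,k2,k2,k1,k1] k0 [] k8 k5
    [[(k10,k3),(k1,k4)],[(k8,k2),(k9,k2)],[(k6,k2),(k11,k3)],[(k6,k2),(k11,k3)],[(k8,k2),(k9,k2)],[(k7,k2)],[(k4,k2)],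
    [(k2,k2),(k3,k2)],[(k0,k2),(k5,k2)],[(k0,k2),(k5,k2)],[(k2,k3),(k3,k3)],[(k10,k2),(k1,k3)]]
    [] k0
    []
    []]⟩

/-- classes `0 0 1 0 0 2`, types `N0 N3 C0 N2 N1 C0` -/
noncomputable def cT6_903 : CertT :=
  ⟨[k12,k15,k20,k14,k13,k36],[],[[[]]],
    [.lp [k0,k0,k0,k2,k2,k2] [k1,k1,k1,k1,k1,k1,k0,k0,k0,k0,k0,k0] k0 [] k4 k5
    [[(k10,k1)],[(k6,k1),(k11,k1)],[(k8,k1),(k9,k1)],[(k8,k1),(k9,k1)],[(k6,k1),(k11,k1)],[(k7,k1)],[(k4,k1)],[(k0,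
    k1),(k5,k1)],[(k2,k1),(k3,k1)],[(k2,k1),(k3,k1)],[(k0,k1),(k5,k1)],[(k1,k1)]]
    [] k0
    []
    []]⟩

/-- classes `0 0 1 0 0 2`, types `N0 N3 C0 N2 N1 S0` -/
noncomputable def cT6_904 : CertT :=
  ⟨[k12,k15,k20,k14,k13,k32],[],[[[]]],
    [.lp [k2,k4,k2,k2,k0,k2] [k1,k1,k0,k0,k1,k1,k1,k1,k2,k2,k1,k1] k0 [] k8 k5
    [[(k1,k2),(k10,k2)],[(k6,k2),(k11,k2)],[(k8,k2),(k9,k2)],[(k8,k2),(k9,k2)],[(k6,k2),(k11,k2)],[(k7,k2)],[(k4,k2)],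
    [(k0,k2),(k5,k2)],[(k2,k2),(k3,k2)],[(k2,k2),(k3,k2)],[(k0,k2),(k5,k2)],[(k1,k2),(k10,k2)]]
    [] k0
    []
    []]⟩

/-- classes `0 0 1 0 0 2`, types `N0 N3 S0 N1 N2 S0` -/
noncomputable def cT6_905 : CertT :=
  ⟨[k12,k15,k16,k13,k14,k32],[(false,k0,[k0,k1,k2,k3,k4,k5]),(false,k3,[k3,k4,k5,k0,k1,k2]),(true,k5,[k5,k4,k3,k2,k1,
    k0])],[[[([z2,z0,z0,z0,z1,z0],z2),([z0,z1,z0,z0,z0,z2],z2),([z0,z0,z2,z0,z1,z0],z2)],[([z2,z0,z0,y2,z1,z2],z2),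
    ([z0,z1,z0,z2,z0,z0],z2)],[([z2,z0,z0,z0,z1,z0],z2)],[]]],
    [.tor k4 false k0 [(z1,[z0,z0,z1]),(z1,[z0,z1]),(z1,[y1,y1,y1,z2]),(z1,[z1])],
    .lp [k8,k4,k8,k6,k0,k4] [k0,k0,k2,k2,k0,k0,k1,k1,k4,k4,k2,k2] k0 [] k16 k5
    [[(k10,k6),(k1,k8)],[(k8,k4),(k9,k4)],[(k11,k4),(k6,k5)],[(k11,k4),(k6,k5)],[(k8,k4),(k9,k4)],[(k7,k7),(k4,k8)],
    [(k7,k6),(k4,k7)],[(k2,k5),(k3,k5)],[(k0,k4),(k5,k4)],[(k0,k4),(k5,k4)],[(k2,k4),(k3,k4)],[(k10,k4),(k1,k6)]]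
    [] k0
    [[k0,k1,k0,k0,k0,k2]]
    [.ref k0 k0 [(z1,[y1,z1,z1]),(z1,[z1]),(z1,[z0,y1,y2,z2])]],
    .lp [k8,k4,k8,k6,k0,k4] [k0,k0,k2,k2,k0,k0,k1,k1,k4,k4,k2,k2] k0 [] k16 k5
    [[(k10,k6),(k1,k8)],[(k8,k4),(k9,k4)],[(k11,k4),(k6,k5)],[(k11,k4),(k6,k5)],[(k8,k4),(k9,k4)],[(k7,k7),(k4,k8)],
    [(k7,k6),(k4,k7)],[(k2,k5),(k3,k5)],[(k0,k4),(k5,k4)],[(k0,k4),(k5,k4)],[(k2,k4),(k3,k4)],[(k10,k4),(k1,k6)]]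
    [] k0
    [[k0,k1,k0,k0,k0,k2]]
    [.ref k1 k1 [(z1,[y1,y2,z2]),(z1,[z0,z1])]],
    .lp [k8,k4,k8,k6,k0,k4] [k0,k0,k2,k2,k0,k0,k1,k1,k4,k4,k2,k2] k0 [] k16 k5
    [[(k10,k6),(k1,k8)],[(k8,k4),(k9,k4)],[(k11,k4),(k6,k5)],[(k11,k4),(k6,k5)],[(k8,k4),(k9,k4)],[(k7,k7),(k4,k8)],
    [(k7,k6),(k4,k7)],[(k2,k5),(k3,k5)],[(k0,k4),(k5,k4)],[(k0,k4),(k5,k4)],[(k2,k4),(k3,k4)],[(k10,k4),(k1,k6)]]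
    [] k0
    [[k0,k1,k0,k0,k0,k2]]
    [.ref k2 k2 [(z1,[z1])]]]⟩

/-- classes `0 0 1 0 0 2`, types `N0 N3 S0 N2 N1 S0` -/
noncomputable def cT6_906 : CertT :=
  ⟨[k12,k15,k16,k14,k13,k32],[],[[[]]],
    [.lp [k2,k4,k2,k2,k0,k2] [k1,k1,k0,k0,k1,k1,k1,k1,k2,k2,k1,k1] k0 [] k8 k5
    [[(k1,k2),(k10,k2)],[(k6,k2),(k11,k2)],[(k8,k2),(k9,k2)],[(k8,k2),(k9,k2)],[(k6,k2),(k11,k2)],[(k4,k2),(k7,k2)],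
    [(k4,k2),(k7,k2)],[(k0,k2),(k5,k2)],[(k2,k2),(k3,k2)],[(k2,k2),(k3,k2)],[(k0,k2),(k5,k2)],[(k1,k2),(k10,k2)]]
    [] k0
    []
    []]⟩

/-- classes `0 0 1 0 0 2`, types `S0 S0 C0 S0 S0 C0` -/
noncomputable def cT6_907 : CertT :=
  ⟨[k0,k0,k20,k0,k0,k36],[(true,k2,[k2,k1,k0,k5,k4,k3]),(false,k0,[k0,k1,k2,k3,k4,k5])],[[[([z1,z0,z0,z0,z1,z1],z2)],
    []]],
    [.leafM k0 [k0,k1,k2,k3,k4,k5] [(z1,[y1,z1])] [],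
    .lp [k6,k8,k6,k10,k8,k6] [k2,k2,k1,k1,k2,k2,k0,k0,k1,k1,k2,k2] k0 [] k24 k5
    [[(k10,k6)],[(k0,k6),(k5,k6),(k11,k6),(k2,k7),(k3,k7),(k8,k7),(k9,k7),(k6,k8)],[(k0,k7),(k5,k7),(k11,k7),(k2,k8),
    (k3,k8),(k8,k8),(k9,k8),(k6,k9)],[(k0,k7),(k5,k7),(k11,k7),(k2,k8),(k3,k8),(k8,k8),(k9,k8),(k6,k9)],[(k0,k6),(k5,
    k6),(k11,k6),(k2,k7),(k3,k7),(k8,k7),(k9,k7),(k6,k8)],[(k7,k8)],[(k4,k8)],[(k0,k8),(k5,k8),(k11,k8),(k2,k9),(k3,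
    k9),(k8,k9),(k9,k9),(k6,k10)],[(k0,k7),(k5,k7),(k11,k7),(k2,k8),(k3,k8),(k8,k8),(k9,k8),(k6,k9)],[(k0,k7),(k5,k7),
    (k11,k7),(k2,k8),(k3,k8),(k8,k8),(k9,k8),(k6,k9)],[(k0,k6),(k5,k6),(k11,k6),(k2,k7),(k3,k7),(k8,k7),(k9,k7),(k6,
    k8)],[(k1,k6)]]
    [] k0
    [[k1,k1,k0,k0,k0,k1],[k1,k0,k0,k0,k1,k1]]
    [.ref k0 k0 [(z1,[y1,z1])],.ref k0 k1 [(z1,[z1])]]]⟩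

/-- classes `0 0 1 0 0 2`, types `S0 S0 C0 S0 S0 S0` -/
noncomputable def cT6_908 : CertT :=
  ⟨[k0,k0,k20,k0,k0,k32],[(false,k0,[k0,k1,k2,k3,k4,k5]),(true,k5,[k5,k4,k3,k2,k1,k0])],[[[([z1,z0,z0,z0,z1,z1],z2)],
    []]],
    [.leafM k0 [k0,k1,k2,k3,k4,k5] [(z1,[y1,z1])] [],
    .lp [k14,k24,k12,k12,k20,k12] [k5,k5,k0,k0,k6,k6,k6,k6,k2,k2,k6,k6] k0 [[],[],[],[],[],[],[k0,k0,k0,k0,k0,k0,k0,k0,k0,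
    k4],[],[k0,k0,k0,k0,k0,k0,k0,k4]] k48 k5
    [[(k10,k13),(k1,k14)],[(k5,k13),(k6,k13),(k11,k13),(k0,k14),(k8,k17),(k9,k17),(k2,k19),(k3,k19)],[(k5,k18),(k6,
    k18),(k11,k18),(k0,k19),(k8,k22),(k9,k22),(k2,k24),(k3,k24)],[(k5,k18),(k6,k18),(k11,k18),(k0,k19),(k8,k22),(k9,
    k22),(k2,k24),(k3,k24)],[(k5,k12),(k6,k12),(k11,k12),(k0,k13),(k8,k16),(k9,k16),(k2,k18),(k3,k18)],[(k7,k12)],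
    [(k4,k12)],[(k5,k12),(k6,k12),(k8,k12),(k11,k12),(k0,k13),(k9,k16),(k2,k18),(k3,k18)],[(k5,k16),(k6,k16),(k0,k17),
    (k8,k20),(k9,k20),(k11,k20),(k2,k22),(k3,k22)],[(k6,k12),(k5,k16),(k11,k16),(k0,k17),(k8,k20),(k9,k20),(k2,k22),
    (k3,k22)],[(k5,k12),(k6,k12),(k11,k12),(k0,k13),(k8,k16),(k2,k18),(k3,k18),(k9,k20)],[(k10,k12),(k1,k13)]]
    [] k0
    [[k1,k0,k0,k0,k1,k1],[k0,k0,k1,k1,k1,k0]]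
    [.ref k0 k0 [(z1,[z1])],.ref k0 k1 [(z1,[y1,z1])]]]⟩

/-- classes `0 0 1 0 1 1`, types `C0 C0 C0 C0 C0 C0` -/
noncomputable def cT6_909 : CertT :=
  ⟨[k4,k4,k20,k4,k20,k20],[(true,k0,[k0,k5,k4,k3,k2,k1]),(false,k0,[k0,k1,k2,k3,k4,k5])],[[[([z1,z0,z0,z0,z1,z1],z2)],
    []]],
    [.leafM k0 [k0,k1,k2,k3,k4,k5] [(z1,[y1,z1])] [],
    .lp [k22,k18,k6,k20,k8,k20] [k0,k0,k2,k2,k8,k8,k1,k1,k7,k7,k1,k1] k0 [[k0,k0,k0,k0,k0,k0,k2],[],[],[],[k0,k0,k0,k0,k0,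
    k0,k0,k0,k0,k0,k2],[],[],[k0,k2],[],[],[],[k0,k0,k0,k0,k0,k2]] k48 k5
    [[(k4,k12),(k8,k15),(k10,k21)],[(k9,k13),(k5,k14),(k3,k20)],[(k2,k18),(k0,k20),(k6,k21)],[(k5,k12),(k9,k13),(k3,
    k18)],[(k2,k12),(k6,k13),(k0,k14)],[(k1,k12),(k7,k13),(k11,k13)],[(k4,k13),(k8,k14),(k10,k22)],[(k5,k13),(k9,k14),
    (k3,k21)],[(k0,k13),(k2,k13),(k6,k14)],[(k7,k14),(k11,k14),(k1,k15)],[(k4,k13),(k8,k14),(k10,k20)],[(k11,k20),(k1,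
    k21),(k7,k22)]]
    [] k0
    [[k1,k1,k1,k0,k0,k0],[k0,k1,k1,k1,k0,k0]]
    [.ref k0 k0 [(z1,[z1])],.ref k0 k1 [(z1,[y1,z1])]]]⟩

/-- classes `0 0 1 0 1 1`, types `C0 C0 C0 C0 C0 C2` -/
noncomputable def cT6_910 : CertT :=
  ⟨[k4,k4,k20,k4,k20,k22],[(false,k0,[k0,k1,k2,k3,k4,k5])],[[[([z1,z0,z0,z0,z1,z1],z2)],[]]],
    [.leafM k0 [k0,k1,k2,k3,k4,k5] [(z1,[y1,z1])] [],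
    .lp [k24,k20,k4,k20,k6,k20] [k0,k0,k2,k2,k10,k10,k2,k2,k9,k9,k2,k2] k0 [[k0,k0,k0,k0,k0,k0,k2],[],[],[],[],[],[],[k0,
    k2]] k48 k5
    [[(k7,k22),(k10,k22),(k11,k22)],[(k9,k13),(k5,k14),(k3,k22)],[(k2,k20),(k0,k22),(k6,k22)],[(k5,k12),(k9,k13),(k3,
    k20)],[(k2,k12),(k6,k12),(k0,k14)],[(k7,k12),(k10,k12),(k11,k12)],[(k4,k12),(k8,k13),(k1,k22)],[(k5,k12),(k9,k13),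
    (k3,k22)],[(k0,k13),(k2,k13),(k6,k13)],[(k7,k13),(k10,k13),(k11,k13)],[(k4,k12),(k8,k13),(k1,k22)],[(k4,k12),(k8,
    k13),(k1,k22)]]
    [] k0
    [[k0,k1,k1,k1,k0,k0]]
    [.ref k0 k0 [(z1,[y1,z1])]]]⟩

/-- classes `0 0 1 0 1 1`, types `C0 C0 C0 C0 C2 C0` -/
noncomputable def cT6_911 : CertT :=
  ⟨[k4,k4,k20,k4,k22,k20],[(false,k0,[k0,k1,k2,k3,k4,k5])],[[[([z1,z1,z1,z0,z0,z0],z2)],[([z1,z0,z0,z0,z1,z1],z2)],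
    []]],
    [.leafM k0 [k2,k3,k4,k5,k0,k1] [(z1,[y1,z1])] [],
    .leafM k0 [k0,k1,k2,k3,k4,k5] [(z1,[y1,z1])] [],
    .lp [k6,k8,k6,k6,k6,k12] [k3,k3,k2,k2,k3,k3,k3,k3,k3,k3,k0,k0] k0 [] k24 k5
    [[(k4,k6),(k10,k9),(k11,k9)],[(k5,k6),(k9,k6),(k3,k7)],[(k0,k7),(k6,k7),(k2,k8)],[(k5,k7),(k9,k7),(k3,k8)],[(k0,
    k6),(k6,k6),(k2,k7)],[(k1,k6),(k7,k6),(k8,k6)],[(k4,k6),(k10,k9),(k11,k9)],[(k5,k6),(k9,k6),(k3,k7)],[(k0,k6),(k6,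
    k6),(k2,k7)],[(k4,k6),(k10,k9),(k11,k9)],[(k1,k9),(k7,k9),(k8,k9)],[(k1,k9),(k7,k9),(k8,k9)]]
    [] k0
    [[k1,k1,k1,k0,k0,k0],[k0,k1,k1,k1,k0,k0]]
    [.ref k0 k0 [(z1,[z1])],.ref k1 k0 [(z1,[y1,z1])]]]⟩

/-- classes `0 0 1 0 1 1`, types `C0 C0 C0 C0 C2 C2` -/
noncomputable def cT6_912 : CertT :=
  ⟨[k4,k4,k20,k4,k22,k22],[(false,k0,[k0,k1,k2,k3,k4,k5])],[[[([z1,z0,z0,z0,z1,z1],z2)],[]]],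
    [.leafM k0 [k0,k1,k2,k3,k4,k5] [(z1,[y1,z1])] [],
    .lp [k8,k8,k8,k4,k8,k10] [k1,k1,k1,k1,k1,k1,k3,k3,k1,k1,k0,k0] k0 [[],[],[],[],[k0,k0,k0,k0,k0,k0,k0,k0,k0,k2],[],[],
    [],[k0,k0,k0,k0,k0,k2]] k24 k5
    [[(k7,k6),(k8,k8),(k10,k9)],[(k3,k8),(k5,k8),(k9,k8)],[(k6,k6),(k0,k8),(k2,k8)],[(k3,k8),(k5,k8),(k9,k8)],[(k6,
    k6),(k0,k8),(k2,k8)],[(k7,k6),(k8,k6),(k10,k9)],[(k1,k6),(k4,k6),(k11,k9)],[(k3,k6),(k5,k6),(k9,k6)],[(k6,k6),(k0,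
    k8),(k2,k8)],[(k4,k6),(k1,k8),(k11,k9)],[(k7,k9),(k8,k9),(k10,k10)],[(k1,k9),(k4,k9),(k11,k10)]]
    [] k0
    [[k0,k1,k1,k1,k0,k0]]
    [.ref k0 k0 [(z1,[y1,z1])]]]⟩

/-- classes `0 0 1 0 1 1`, types `C0 C0 C0 C2 C0 C2` -/
noncomputable def cT6_913 : CertT :=
  ⟨[k4,k4,k20,k6,k20,k22],[(false,k0,[k0,k1,k2,k3,k4,k5])],[[[([z1,z1,z0,z1,z0,z0],z2)],[]]],
    [.leafM k3 [k1,k2,k3,k4,k5,k0] [(z1,[y1,z1])] [],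
    .lp [k22,k18,k18,k6,k22,k8] [k0,k0,k2,k2,k2,k2,k8,k8,k0,k0,k7,k7] k0 [[k0,k0,k0,k0,k0,k0,k0,k2],[],[],[],[],[],[k0,
    k2]] k48 k5
    [[(k7,k14),(k10,k15),(k11,k15)],[(k6,k12),(k3,k20),(k5,k20)],[(k2,k18),(k0,k20),(k9,k22)],[(k6,k12),(k3,k18),(k5,
    k18)],[(k2,k18),(k0,k20),(k9,k20)],[(k7,k12),(k10,k13),(k11,k13)],[(k4,k12),(k1,k14),(k8,k14)],[(k0,k12),(k2,k12),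
    (k9,k14)],[(k6,k14),(k5,k20),(k3,k22)],[(k7,k14),(k10,k15),(k11,k15)],[(k4,k13),(k1,k15),(k8,k15)],[(k4,k13),(k1,
    k15),(k8,k15)]]
    [] k0
    [[k1,k1,k0,k1,k0,k0]]
    [.ref k0 k0 [(z1,[z1])]]]⟩

/-- classes `0 0 1 0 1 1`, types `C0 C0 C0 C2 C2 C0` -/
noncomputable def cT6_914 : CertT :=
  ⟨[k4,k4,k20,k6,k22,k20],[(false,k0,[k0,k1,k2,k3,k4,k5])],[[[([z1,z1,z1,z0,z0,z0],z2)],[([z1,z0,z0,z1,z0,z1],z2)],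
    []]],
    [.leafM k0 [k2,k3,k4,k5,k0,k1] [(z1,[y1,z1])] [],
    .leafM k3 [k2,k3,k4,k5,k0,k1] [(z1,[z1])] [],
    .lp [k6,k8,k6,k6,k6,k12] [k3,k3,k2,k2,k3,k3,k3,k3,k3,k3,k0,k0] k0 [] k24 k5
    [[(k4,k6),(k10,k9),(k11,k9)],[(k5,k6),(k6,k6),(k3,k7)],[(k0,k7),(k9,k7),(k2,k8)],[(k5,k7),(k6,k7),(k3,k8)],[(k0,
    k6),(k9,k6),(k2,k7)],[(k1,k6),(k7,k6),(k8,k6)],[(k4,k6),(k10,k9),(k11,k9)],[(k0,k6),(k9,k6),(k2,k7)],[(k5,k6),(k6,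
    k6),(k3,k7)],[(k4,k6),(k10,k9),(k11,k9)],[(k1,k9),(k7,k9),(k8,k9)],[(k1,k9),(k7,k9),(k8,k9)]]
    [] k0
    [[k1,k1,k1,k0,k0,k0],[k0,k1,k1,k0,k1,k0]]
    [.ref k0 k0 [(z1,[z1])],.ref k1 k0 [(z1,[y1,z1])]]]⟩

/-- classes `0 0 1 0 1 1`, types `C0 C0 C0 C2 C2 C2` -/
noncomputable def cT6_915 : CertT :=
  ⟨[k4,k4,k20,k6,k22,k22],[(true,k0,[k0,k5,k4,k3,k2,k1]),(false,k0,[k0,k1,k2,k3,k4,k5])],[[[([z1,z0,z0,z1,z0,z1],z2)],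
    []]],
    [.leafM k3 [k2,k3,k4,k5,k0,k1] [(z1,[z1])] [],
    .lp [k4,k4,k4,k2,k4,k4] [k0,k0,k0,k0,k0,k0,k1,k1,k0,k0,k0,k0] k0 [] k12 k5
    [[(k7,k3),(k8,k4),(k10,k4)],[(k6,k3),(k3,k4),(k5,k4)],[(k0,k4),(k2,k4),(k9,k4)],[(k6,k3),(k3,k4),(k5,k4)],[(k0,
    k4),(k2,k4),(k9,k4)],[(k7,k3),(k8,k4),(k10,k4)],[(k1,k3),(k4,k3),(k11,k3)],[(k0,k3),(k2,k3),(k9,k3)],[(k6,k3),(k3,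
    k4),(k5,k4)],[(k1,k4),(k4,k4),(k11,k4)],[(k7,k3),(k8,k4),(k10,k4)],[(k1,k4),(k4,k4),(k11,k4)]]
    [] k0
    [[k1,k1,k0,k1,k0,k0],[k1,k0,k0,k1,k0,k1]]
    [.ref k0 k0 [(z1,[z1])],.ref k0 k1 [(z1,[z1])]]]⟩

/-- classes `0 0 1 0 1 1`, types `C0 C0 S0 C0 S0 S0` -/
noncomputable def cT6_916 : CertT :=
  ⟨[k4,k4,k16,k4,k16,k16],[(false,k0,[k0,k1,k2,k3,k4,k5])],[[[([z1,z1,z1,z0,z0,z0],z2)],[([z1,z0,z0,z0,z1,z1],z2)],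
    []]],
    [.leafM k0 [k2,k3,k4,k5,k0,k1] [(z1,[y1,z1])] [],
    .leafM k0 [k0,k1,k2,k3,k4,k5] [(z1,[y1,z1])] [],
    .lp [k6,k10,k6,k8,k6,k10] [k2,k2,k0,k0,k2,k2,k1,k1,k2,k2,k0,k0] k0 [[],[k0,k0,k0,k2],[k2],[],[],[],[],[],[],[k0,k0,k0,
    k0,k0,k0,k0,k0,k0,k0,k0,k2],[k0,k0,k0,k0,k0,k0,k0,k0,k2]] k24 k5
    [[(k1,k6),(k4,k6),(k7,k7),(k8,k8),(k10,k8),(k11,k8)],[(k9,k6),(k3,k8),(k5,k8)],[(k0,k8),(k2,k8),(k6,k9)],[(k3,k8),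
    (k5,k8),(k9,k8)],[(k6,k7),(k0,k8),(k2,k8)],[(k1,k6),(k4,k6),(k8,k6),(k7,k7),(k10,k8),(k11,k8)],[(k1,k7),(k4,k7),
    (k8,k7),(k7,k8),(k10,k9),(k11,k9)],[(k5,k7),(k9,k7),(k3,k9)],[(k0,k6),(k6,k7),(k2,k8)],[(k4,k6),(k8,k6),(k7,k7),
    (k1,k8),(k10,k8),(k11,k8)],[(k1,k8),(k4,k8),(k8,k8),(k10,k8),(k7,k9),(k11,k10)],[(k1,k8),(k4,k8),(k8,k8),(k11,k8),
    (k7,k9),(k10,k10)]]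
    [] k0
    [[k1,k1,k1,k0,k0,k0],[k1,k0,k0,k0,k1,k1]]
    [.ref k0 k0 [(z1,[z1])],.ref k1 k0 [(z1,[z1])]]]⟩

/-- classes `0 0 1 0 1 1`, types `C0 C0 S0 C2 S0 S0` -/
noncomputable def cT6_917 : CertT :=
  ⟨[k4,k4,k16,k6,k16,k16],[(false,k0,[k0,k1,k2,k3,k4,k5])],[[[([z1,z0,z0,z1,z0,z1],z2)],[([z1,z1,z0,z1,z0,z0],z2)],
    [([z1,z1,z1,z0,z0,z0],z2)],[]]],
    [.leafM k3 [k2,k3,k4,k5,k0,k1] [(z1,[z1])] [],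
    .leafM k3 [k1,k2,k3,k4,k5,k0] [(z1,[y1,z1])] [],
    .leafM k0 [k2,k3,k4,k5,k0,k1] [(z1,[y1,z1])] [],
    .lp [k20,k20,k12,k14,k12,k16] [k0,k0,k0,k0,k4,k4,k3,k3,k4,k4,k2,k2] k0 [[k0,k0,k0,k0,k0,k0,k0,k2],[],[],[],[],[],[k0,
    k2]] k48 k5
    [[(k4,k16),(k8,k16),(k7,k17),(k10,k18),(k11,k18),(k1,k20)],[(k6,k15),(k5,k16),(k3,k20)],[(k9,k18),(k0,k20),(k2,
    k20)],[(k5,k16),(k6,k17),(k3,k20)],[(k9,k12),(k0,k16),(k2,k16)],[(k4,k12),(k8,k12),(k7,k13),(k10,k14),(k11,k14),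
    (k1,k16)],[(k4,k13),(k8,k13),(k7,k14),(k10,k15),(k11,k15),(k1,k17)],[(k9,k13),(k0,k15),(k2,k17)],[(k5,k12),(k6,
    k13),(k3,k18)],[(k4,k12),(k8,k12),(k7,k13),(k10,k14),(k11,k14),(k1,k16)],[(k4,k14),(k8,k14),(k7,k15),(k10,k16),
    (k11,k16),(k1,k18)],[(k4,k14),(k8,k14),(k7,k15),(k10,k16),(k11,k16),(k1,k18)]]
    [] k0
    [[k0,k1,k1,k0,k1,k0],[k0,k0,k1,k0,k1,k1],[k0,k0,k0,k1,k1,k1]]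
    [.ref k0 k0 [(z1,[y1,z1])],.ref k1 k0 [(z1,[y1,z1])],.ref k2 k0 [(z1,[y1,z1])]]]⟩

/-- classes `0 0 1 0 1 1`, types `C0 C2 C0 C0 C0 C2` -/
noncomputable def cT6_918 : CertT :=
  ⟨[k4,k6,k20,k4,k20,k22],[(false,k0,[k0,k1,k2,k3,k4,k5])],[[[([z1,z1,z0,z1,z0,z0],z2)],[([z1,z0,z0,z0,z1,z1],z2)],
    []]],
    [.leafM k3 [k1,k2,k3,k4,k5,k0] [(z1,[y1,z1])] [],
    .leafM k0 [k0,k1,k2,k3,k4,k5] [(z1,[y1,z1])] [],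
    .lp [k2,k2,k2,k2,k2,k4] [k1,k1,k1,k1,k1,k1,k1,k1,k1,k1,k0,k0] k0 [] k8 k5
    [[(k7,k2),(k10,k3),(k11,k3)],[(k2,k2),(k3,k2),(k9,k2)],[(k0,k2),(k5,k2),(k6,k2)],[(k0,k2),(k5,k2),(k6,k2)],[(k2,
    k2),(k3,k2),(k9,k2)],[(k7,k2),(k10,k3),(k11,k3)],[(k1,k2),(k4,k2),(k8,k2)],[(k2,k2),(k3,k2),(k9,k2)],[(k0,k2),(k5,
    k2),(k6,k2)],[(k7,k2),(k10,k3),(k11,k3)],[(k1,k3),(k4,k3),(k8,k3)],[(k1,k3),(k4,k3),(k8,k3)]]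
    [] k0
    [[k1,k1,k0,k1,k0,k0],[k0,k1,k1,k1,k0,k0]]
    [.ref k0 k0 [(z1,[z1])],.ref k1 k0 [(z1,[y1,z1])]]]⟩

/-- classes `0 0 1 0 1 1`, types `C0 C2 C0 C0 C2 C0` -/
noncomputable def cT6_919 : CertT :=
  ⟨[k4,k6,k20,k4,k22,k20],[(true,k0,[k0,k5,k4,k3,k2,k1]),(false,k0,[k0,k1,k2,k3,k4,k5])],[[[([z1,z0,z0,z0,z1,z1],z2)],
    []]],
    [.leafM k0 [k0,k1,k2,k3,k4,k5] [(z1,[y1,z1])] [],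
    .lp [k2,k2,k2,k2,k2,k4] [k1,k1,k1,k1,k1,k1,k1,k1,k1,k1,k0,k0] k0 [] k8 k5
    [[(k4,k2),(k10,k3),(k11,k3)],[(k2,k2),(k3,k2),(k9,k2)],[(k0,k2),(k5,k2),(k6,k2)],[(k0,k2),(k5,k2),(k6,k2)],[(k2,
    k2),(k3,k2),(k9,k2)],[(k1,k2),(k7,k2),(k8,k2)],[(k4,k2),(k10,k3),(k11,k3)],[(k2,k2),(k3,k2),(k9,k2)],[(k0,k2),(k5,
    k2),(k6,k2)],[(k4,k2),(k10,k3),(k11,k3)],[(k1,k3),(k7,k3),(k8,k3)],[(k1,k3),(k7,k3),(k8,k3)]]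
    [] k0
    [[k1,k1,k1,k0,k0,k0],[k0,k1,k1,k1,k0,k0]]
    [.ref k0 k0 [(z1,[z1])],.ref k0 k1 [(z1,[y1,z1])]]]⟩

/-- classes `0 0 1 0 1 1`, types `C0 C2 C0 C2 C0 C2` -/
noncomputable def cT6_920 : CertT :=
  ⟨[k4,k6,k20,k6,k20,k22],[],[[[]]],
    [.lp [k0,k2,k0,k2,k0,k2] [k1,k1,k0,k0,k1,k1,k0,k0,k1,k1,k0,k0] k0 [] k4 k5
    [[(k7,k1),(k10,k1),(k11,k1)],[(k2,k1),(k3,k1),(k6,k1)],[(k0,k1),(k5,k1),(k9,k1)],[(k0,k1),(k5,k1),(k9,k1)],[(k2,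
    k1),(k3,k1),(k6,k1)],[(k7,k1),(k10,k1),(k11,k1)],[(k1,k1),(k4,k1),(k8,k1)],[(k0,k1),(k5,k1),(k9,k1)],[(k2,k1),(k3,
    k1),(k6,k1)],[(k7,k1),(k10,k1),(k11,k1)],[(k1,k1),(k4,k1),(k8,k1)],[(k1,k1),(k4,k1),(k8,k1)]]
    [] k0
    []
    []]⟩

/-- classes `0 0 1 0 1 1`, types `C0 C2 S0 C0 S0 S0` -/
noncomputable def cT6_921 : CertT :=
  ⟨[k4,k6,k16,k4,k16,k16],[(false,k0,[k0,k1,k2,k3,k4,k5])],[[[([z1,z0,z0,z0,z1,z1],z2)],[([z1,z1,z0,z1,z0,z0],z2)],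
    [([z1,z1,z1,z0,z0,z0],z2)],[]]],
    [.leafM k0 [k0,k1,k2,k3,k4,k5] [(z1,[y1,z1])] [],
    .leafM k3 [k1,k2,k3,k4,k5,k0] [(z1,[y1,z1])] [],
    .leafM k0 [k2,k3,k4,k5,k0,k1] [(z1,[y1,z1])] [],
    .lp [k6,k12,k6,k6,k6,k8] [k3,k3,k0,k0,k3,k3,k3,k3,k3,k3,k2,k2] k0 [] k24 k5
    [[(k1,k6),(k4,k6),(k7,k6),(k8,k6),(k10,k7),(k11,k7)],[(k9,k6),(k2,k9),(k3,k9)],[(k0,k9),(k5,k9),(k6,k9)],[(k0,k9),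
    (k5,k9),(k6,k9)],[(k9,k6),(k2,k9),(k3,k9)],[(k1,k6),(k4,k6),(k7,k6),(k8,k6),(k10,k7),(k11,k7)],[(k1,k6),(k4,k6),
    (k7,k6),(k8,k6),(k10,k7),(k11,k7)],[(k9,k6),(k2,k9),(k3,k9)],[(k0,k6),(k5,k6),(k6,k6)],[(k1,k6),(k4,k6),(k7,k6),
    (k8,k6),(k10,k7),(k11,k7)],[(k1,k7),(k4,k7),(k7,k7),(k8,k7),(k10,k8),(k11,k8)],[(k1,k7),(k4,k7),(k7,k7),(k8,k7),
    (k10,k8),(k11,k8)]]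
    [] k0
    [[k1,k0,k0,k0,k1,k1],[k0,k0,k1,k0,k1,k1],[k0,k0,k0,k1,k1,k1]]
    [.ref k0 k0 [(z1,[z1])],.ref k1 k0 [(z1,[y1,z1])],.ref k2 k0 [(z1,[y1,z1])]]]⟩

/-- classes `0 0 1 0 1 1`, types `C0 C2 S0 C2 S0 S0` -/
noncomputable def cT6_922 : CertT :=
  ⟨[k4,k6,k16,k6,k16,k16],[(false,k0,[k0,k1,k2,k3,k4,k5])],[[[([z1,z1,z1,z0,z0,z0],z2)],[([z1,z0,z0,z1,z0,z1],z2)],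
    []]],
    [.leafM k0 [k2,k3,k4,k5,k0,k1] [(z1,[y1,z1])] [],
    .leafM k3 [k2,k3,k4,k5,k0,k1] [(z1,[z1])] [],
    .lp [k8,k8,k8,k6,k8,k8] [k0,k0,k0,k0,k0,k0,k1,k1,k0,k0,k0,k0] k0 [[],[],[],[],[k0,k0,k0,k0,k0,k0,k0,k0,k0,k2,k2],[],
    [],[],[k0,k0,k0,k0,k0,k2],[],[],[k0,k0,k0,k0,k0,k2]] k24 k5
    [[(k4,k6),(k7,k7),(k1,k8),(k8,k8),(k10,k8),(k11,k8)],[(k6,k7),(k2,k8),(k3,k8)],[(k0,k8),(k5,k8),(k9,k8)],[(k0,k8),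
    (k5,k8),(k9,k8)],[(k6,k7),(k2,k8),(k3,k8)],[(k1,k6),(k8,k6),(k7,k7),(k4,k8),(k10,k8),(k11,k8)],[(k7,k6),(k1,k7),
    (k4,k7),(k8,k7),(k10,k9),(k11,k9)],[(k0,k7),(k5,k7),(k9,k7)],[(k6,k7),(k2,k8),(k3,k8)],[(k4,k6),(k7,k7),(k1,k8),
    (k8,k8),(k10,k8),(k11,k8)],[(k1,k8),(k4,k8),(k8,k8),(k10,k8),(k11,k8),(k7,k9)],[(k1,k8),(k4,k8),(k8,k8),(k10,k8),
    (k11,k8),(k7,k9)]]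
    [] k0
    [[k1,k1,k1,k0,k0,k0],[k0,k1,k1,k0,k1,k0]]
    [.ref k0 k0 [(z1,[z1])],.ref k1 k0 [(z1,[y1,z1])]]]⟩

/-- classes `0 0 1 0 1 2`, types `C0 C0 B0 C0 B1 C0` -/
noncomputable def cT6_923 : CertT :=
  ⟨[k4,k4,k24,k4,k25,k36],[],[[[]]],
    [.lp [k12,k10,k8,k8,k4,k4] [k0,k0,k1,k1,k2,k2,k2,k2,k4,k4,k4,k4] k0 [[k0,k0,k0,k0,k0,k0,k2],[],[],[],[],[],[],[k0,
    k2]] k24 k5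
    [[(k10,k8)],[(k9,k6),(k5,k10),(k3,k11)],[(k2,k10),(k0,k11),(k6,k11)],[(k9,k7),(k5,k9),(k3,k10)],[(k6,k8),(k2,k9),
    (k0,k10)],[(k8,k6),(k11,k6)],[(k8,k6),(k11,k6)],[(k9,k6),(k5,k8),(k3,k11)],[(k0,k6),(k6,k6),(k2,k7)],[(k4,k6),(k7,
    k6)],[(k4,k6),(k7,k6)],[(k1,k8)]]
    [] k0
    []
    []]⟩

/-- classes `0 0 1 0 1 2`, types `C0 C0 B0 C0 B1 S0` -/
noncomputable def cT6_924 : CertT :=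
  ⟨[k4,k4,k24,k4,k25,k32],[],[[[]]],
    [.lp [k12,k10,k6,k6,k6,k6] [k0,k0,k1,k1,k3,k3,k3,k3,k3,k3,k3,k3] k0 [[k0,k0,k0,k0,k0,k0,k2],[],[],[],[],[],[],[k0,
    k2]] k24 k5
    [[(k10,k9),(k1,k12)],[(k9,k7),(k5,k9),(k3,k11)],[(k2,k10),(k6,k10),(k0,k11)],[(k5,k8),(k9,k8),(k3,k10)],[(k6,k6),
    (k2,k8),(k0,k9)],[(k8,k6),(k11,k6)],[(k8,k6),(k11,k6)],[(k5,k6),(k9,k6),(k3,k10)],[(k6,k6),(k0,k7),(k2,k8)],[(k4,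
    k6),(k7,k6)],[(k4,k6),(k7,k6)],[(k10,k6),(k1,k9)]]
    [] k0
    []
    []]⟩

/-- classes `0 0 1 0 1 2`, types `C0 C0 B0 C2 B1 C0` -/
noncomputable def cT6_925 : CertT :=
  ⟨[k4,k4,k24,k6,k25,k36],[(false,k0,[k0,k1,k2,k3,k4,k5])],[[[([z1,z0,z0,z1,z0,z1],z2)],[]]],
    [.leafM k3 [k2,k3,k4,k5,k0,k1] [(z1,[z1])] [],
    .lp [k4,k20,k24,k26,k0,k20] [k11,k11,k3,k3,k1,k1,k0,k0,k13,k13,k3,k3] k0 [[k0,k0,k0,k0,k0,k0,k0,k2],[],[],[],[],[],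
    [k0,k2]] k48 k5
    [[(k10,k12)],[(k3,k12),(k6,k13),(k5,k14)],[(k0,k12),(k9,k12),(k2,k20)],[(k3,k20),(k5,k22),(k6,k23)],[(k9,k12),(k0,
    k14),(k2,k22)],[(k8,k12),(k11,k22)],[(k8,k13),(k11,k23)],[(k0,k13),(k9,k13),(k2,k23)],[(k3,k12),(k5,k12),(k6,
    k13)],[(k4,k12),(k7,k13)],[(k4,k22),(k7,k23)],[(k1,k12)]]
    [] k0
    [[k0,k1,k1,k0,k1,k0]]
    [.ref k0 k0 [(z1,[y1,z1])]]]⟩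

/-- classes `0 0 1 0 1 2`, types `C0 C0 B0 C2 B1 S0` -/
noncomputable def cT6_926 : CertT :=
  ⟨[k4,k4,k24,k6,k25,k32],[(false,k0,[k0,k1,k2,k3,k4,k5])],[[[([z1,z0,z0,z1,z0,z1],z2)],[]]],
    [.leafM k3 [k2,k3,k4,k5,k0,k1] [(z1,[z1])] [],
    .lp [k12,k10,k4,k4,k8,k8] [k0,k0,k1,k1,k4,k4,k4,k4,k2,k2,k2,k2] k0 [[k0,k0,k0,k0,k0,k0,k0,k2],[],[],[],[],[],[k0,
    k2]] k24 k5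
    [[(k10,k10),(k1,k12)],[(k6,k6),(k5,k8),(k3,k11)],[(k2,k10),(k0,k11),(k9,k11)],[(k5,k7),(k6,k7),(k3,k10)],[(k9,k6),
    (k2,k7),(k0,k8)],[(k8,k6),(k11,k6)],[(k8,k6),(k11,k6)],[(k0,k6),(k9,k6),(k2,k7)],[(k5,k6),(k6,k6),(k3,k11)],[(k4,
    k6),(k7,k6)],[(k4,k6),(k7,k6)],[(k10,k8),(k1,k10)]]
    [] k0
    [[k1,k0,k0,k1,k0,k1]]
    [.ref k0 k0 [(z1,[z1])]]]⟩

/-- classes `0 0 1 0 1 2`, types `C0 C0 C0 C0 C0 C0` -/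
noncomputable def cT6_927 : CertT :=
  ⟨[k4,k4,k20,k4,k20,k36],[(false,k0,[k0,k1,k2,k3,k4,k5])],[[[([z1,z0,z0,z0,z1,z1],z2)],[]]],
    [.leafM k0 [k0,k1,k2,k3,k4,k5] [(z1,[y1,z1])] [],
    .lp [k8,k8,k12,k6,k8,k4] [k2,k2,k2,k2,k0,k0,k3,k3,k2,k2,k4,k4] k0 [[k0,k0,k0,k0,k0,k0,k2],[],[],[],[],[],[],[k0,
    k2]] k24 k5
    [[(k10,k6)],[(k9,k6),(k3,k8),(k5,k10)],[(k0,k8),(k2,k8),(k6,k9)],[(k3,k8),(k9,k8),(k5,k10)],[(k6,k9),(k0,k10),(k2,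
    k10)],[(k11,k8),(k7,k9)],[(k8,k7),(k4,k9)],[(k9,k7),(k3,k9),(k5,k9)],[(k0,k6),(k6,k7),(k2,k8)],[(k11,k6),(k7,k7)],
    [(k8,k6),(k4,k8)],[(k1,k6)]]
    [] k0
    [[k1,k0,k0,k0,k1,k1]]
    [.ref k0 k0 [(z1,[z1])]]]⟩

/-- classes `0 0 1 0 1 2`, types `C0 C0 C0 C0 C0 S0` -/
noncomputable def cT6_928 : CertT :=
  ⟨[k4,k4,k20,k4,k20,k32],[(false,k0,[k0,k1,k2,k3,k4,k5])],[[[([z1,z0,z0,z0,z1,z1],z2)],[]]],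
    [.leafM k0 [k0,k1,k2,k3,k4,k5] [(z1,[y1,z1])] [],
    .lp [k22,k20,k4,k20,k6,k22] [k0,k0,k1,k1,k9,k9,k1,k1,k8,k8,k0,k0] k0 [[k0,k0,k0,k0,k0,k0,k2],[],[],[],[],[],[],[k0,
    k2]] k48 k5
    [[(k1,k22),(k10,k22)],[(k9,k12),(k5,k13),(k3,k21)],[(k2,k20),(k0,k21),(k6,k22)],[(k5,k12),(k9,k13),(k3,k20)],[(k2,
    k12),(k6,k12),(k0,k13)],[(k7,k12),(k11,k13)],[(k4,k12),(k8,k13)],[(k5,k12),(k9,k13),(k3,k22)],[(k0,k12),(k2,k13),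
    (k6,k13)],[(k7,k13),(k11,k14)],[(k4,k13),(k8,k14)],[(k1,k22),(k10,k22)]]
    [] k0
    [[k0,k1,k1,k1,k0,k0]]
    [.ref k0 k0 [(z1,[y1,z1])]]]⟩

/-- classes `0 0 1 0 1 2`, types `C0 C0 C0 C0 C2 C0` -/
noncomputable def cT6_929 : CertT :=
  ⟨[k4,k4,k20,k4,k22,k36],[(false,k0,[k0,k1,k2,k3,k4,k5])],[[[([z1,z0,z0,z0,z1,z1],z2)],[]]],
    [.leafM k0 [k0,k1,k2,k3,k4,k5] [(z1,[y1,z1])] [],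
    .lp [k6,k8,k6,k10,k6,k6] [k2,k2,k1,k1,k2,k2,k0,k0,k2,k2,k2,k2] k0 [] k24 k5
    [[(k10,k6)],[(k5,k6),(k9,k6),(k3,k7)],[(k0,k7),(k2,k8),(k6,k9)],[(k5,k7),(k9,k7),(k3,k8)],[(k0,k6),(k2,k7),(k6,
    k8)],[(k8,k6),(k7,k8)],[(k4,k8),(k11,k8)],[(k5,k8),(k9,k8),(k3,k9)],[(k0,k6),(k2,k7),(k6,k8)],[(k4,k6),(k11,k6)],
    [(k8,k6),(k7,k8)],[(k1,k6)]]
    [] k0
    [[k1,k0,k0,k0,k1,k1]]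
    [.ref k0 k0 [(z1,[z1])]]]⟩

/-- classes `0 0 1 0 1 2`, types `C0 C0 C0 C0 C2 S0` -/
noncomputable def cT6_930 : CertT :=
  ⟨[k4,k4,k20,k4,k22,k32],[(false,k0,[k0,k1,k2,k3,k4,k5])],[[[([z1,z0,z0,z0,z1,z1],z2)],[]]],
    [.leafM k0 [k0,k1,k2,k3,k4,k5] [(z1,[y1,z1])] [],
    .lp [k2,k4,k2,k2,k2,k2] [k1,k1,k0,k0,k1,k1,k1,k1,k1,k1,k1,k1] k0 [] k8 k5
    [[(k1,k2),(k10,k2)],[(k5,k2),(k9,k2),(k3,k3)],[(k0,k3),(k6,k3),(k2,k4)],[(k5,k3),(k9,k3),(k3,k4)],[(k0,k2),(k6,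
    k2),(k2,k3)],[(k7,k2),(k8,k2)],[(k4,k2),(k11,k2)],[(k5,k2),(k9,k2),(k3,k3)],[(k0,k2),(k6,k2),(k2,k3)],[(k4,k2),
    (k11,k2)],[(k7,k2),(k8,k2)],[(k1,k2),(k10,k2)]]
    [] k0
    [[k1,k0,k0,k0,k1,k1]]
    [.ref k0 k0 [(z1,[z1])]]]⟩

/-- classes `0 0 1 0 1 2`, types `C0 C0 C0 C2 C0 C0` -/
noncomputable def cT6_931 : CertT :=
  ⟨[k4,k4,k20,k6,k20,k36],[],[[[]]],
    [.lp [k4,k8,k10,k12,k2,k10] [k4,k4,k2,k2,k1,k1,k0,k0,k5,k5,k1,k1] k0 [[k0,k0,k0,k0,k0,k0,k0,k2],[],[],[],[],[],[k0,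
    k2]] k24 k5
    [[(k10,k7)],[(k3,k6),(k6,k6),(k5,k7)],[(k0,k6),(k9,k7),(k2,k8)],[(k3,k8),(k5,k9),(k6,k10)],[(k9,k6),(k0,k7),(k2,
    k9)],[(k11,k10),(k7,k11)],[(k8,k7),(k4,k11)],[(k0,k6),(k9,k7),(k2,k10)],[(k5,k6),(k3,k7),(k6,k7)],[(k11,k6),(k7,
    k7)],[(k8,k6),(k4,k10)],[(k1,k7)]]
    [] k0
    []
    []]⟩

/-- classes `0 0 1 0 1 2`, types `C0 C0 C0 C2 C0 S0` -/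
noncomputable def cT6_932 : CertT :=
  ⟨[k4,k4,k20,k6,k20,k32],[],[[[]]],
    [.lp [k12,k18,k18,k20,k6,k18] [k4,k4,k1,k1,k1,k1,k0,k0,k7,k7,k1,k1] k0 [[k0,k0,k0,k0,k0,k0,k0,k4],[],[],[],[],[],[k0,
    k4]] k48 k5
    [[(k1,k12),(k10,k15)],[(k6,k12),(k3,k15),(k5,k15)],[(k0,k15),(k9,k16),(k2,k18)],[(k3,k18),(k5,k18),(k6,k19)],[(k9,
    k12),(k0,k15),(k2,k18)],[(k11,k18),(k7,k19)],[(k8,k13),(k4,k19)],[(k0,k12),(k9,k13),(k2,k19)],[(k5,k12),(k6,k13),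
    (k3,k16)],[(k11,k12),(k7,k13)],[(k8,k12),(k4,k18)],[(k1,k15),(k10,k18)]]
    [] k0
    []
    []]⟩

/-- classes `0 0 1 0 1 2`, types `C0 C0 C0 C2 C2 C0` -/
noncomputable def cT6_933 : CertT :=
  ⟨[k4,k4,k20,k6,k22,k36],[(false,k0,[k0,k1,k2,k3,k4,k5])],[[[([z1,z0,z0,z1,z0,z1],z2)],[]]],
    [.leafM k3 [k2,k3,k4,k5,k0,k1] [(z1,[z1])] [],
    .lp [k6,k8,k10,k6,k6,k6] [k2,k2,k1,k1,k0,k0,k2,k2,k2,k2,k2,k2] k0 [] k24 k5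
    [[(k10,k6)],[(k6,k6),(k3,k7),(k5,k8)],[(k0,k7),(k9,k7),(k2,k8)],[(k6,k7),(k3,k8),(k5,k9)],[(k0,k8),(k9,k8),(k2,
    k9)],[(k7,k8),(k8,k8)],[(k11,k6),(k4,k8)],[(k0,k6),(k9,k6),(k2,k7)],[(k6,k6),(k3,k7),(k5,k8)],[(k11,k6),(k4,k8)],
    [(k7,k6),(k8,k6)],[(k1,k6)]]
    [] k0
    [[k1,k0,k0,k1,k0,k1]]
    [.ref k0 k0 [(z1,[z1])]]]⟩

/-- classes `0 0 1 0 1 2`, types `C0 C0 C0 C2 C2 S0` -/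
noncomputable def cT6_934 : CertT :=
  ⟨[k4,k4,k20,k6,k22,k32],[(false,k0,[k0,k1,k2,k3,k4,k5])],[[[([z1,z0,z0,z1,z0,z1],z2)],[]]],
    [.leafM k3 [k2,k3,k4,k5,k0,k1] [(z1,[z1])] [],
    .lp [k2,k4,k2,k2,k2,k2] [k1,k1,k0,k0,k1,k1,k1,k1,k1,k1,k1,k1] k0 [] k8 k5
    [[(k1,k2),(k10,k2)],[(k5,k2),(k6,k2),(k3,k3)],[(k0,k3),(k9,k3),(k2,k4)],[(k5,k3),(k6,k3),(k3,k4)],[(k0,k2),(k9,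
    k2),(k2,k3)],[(k7,k2),(k8,k2)],[(k4,k2),(k11,k2)],[(k0,k2),(k9,k2),(k2,k3)],[(k5,k2),(k6,k2),(k3,k3)],[(k4,k2),
    (k11,k2)],[(k7,k2),(k8,k2)],[(k1,k2),(k10,k2)]]
    [] k0
    [[k1,k0,k0,k1,k0,k1]]
    [.ref k0 k0 [(z1,[z1])]]]⟩

/-- classes `0 0 1 0 1 2`, types `C0 C0 N0 C0 N1 C0` -/
noncomputable def cT6_935 : CertT :=
  ⟨[k4,k4,k28,k4,k29,k36],[],[[[]]],
    [.lp [k12,k8,k12,k10,k4,k0] [k0,k0,k2,k2,k0,k0,k1,k1,k4,k4,k6,k6] k0 [[k0,k0,k0,k0,k0,k0,k2],[],[],[],[],[],[],[k0,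
    k2]] k24 k5
    [[(k10,k6)],[(k9,k6),(k3,k10),(k5,k12)],[(k2,k8),(k0,k10),(k6,k11)],[(k9,k6),(k3,k8),(k5,k10)],[(k2,k10),(k6,k11),
    (k0,k12)],[(k11,k6)],[(k8,k7)],[(k9,k7),(k3,k11),(k5,k11)],[(k0,k6),(k2,k6),(k6,k7)],[(k7,k7)],[(k4,k6)],[(k1,
    k6)]]
    [] k0
    []
    []]⟩

/-- classes `0 0 1 0 1 2`, types `C0 C0 N0 C0 N1 S0` -/
noncomputable def cT6_936 : CertT :=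
  ⟨[k4,k4,k28,k4,k29,k32],[],[[[]]],
    [.lp [k12,k10,k4,k8,k4,k8] [k0,k0,k1,k1,k4,k4,k2,k2,k4,k4,k2,k2] k0 [[k0,k0,k0,k0,k0,k0,k2],[],[],[],[],[],[],[k0,
    k2]] k24 k5
    [[(k10,k10),(k1,k12)],[(k9,k6),(k5,k8),(k3,k11)],[(k2,k10),(k0,k11),(k6,k11)],[(k5,k7),(k9,k7),(k3,k10)],[(k6,k6),
    (k2,k7),(k0,k8)],[(k11,k6)],[(k8,k6)],[(k5,k6),(k9,k6),(k3,k11)],[(k0,k6),(k6,k6),(k2,k7)],[(k7,k6)],[(k4,k6)],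
    [(k10,k8),(k1,k10)]]
    [] k0
    []
    []]⟩

/-- classes `0 0 1 0 1 2`, types `C0 C0 N0 C0 N2 C0` -/
noncomputable def cT6_937 : CertT :=
  ⟨[k4,k4,k28,k4,k30,k36],[],[[[]]],
    [.lp [k6,k8,k6,k6,k6,k6] [k1,k1,k0,k0,k1,k1,k1,k1,k1,k1,k1,k1] k0 [] k24 k5
    [[(k10,k6)],[(k5,k6),(k9,k6),(k3,k7)],[(k0,k7),(k6,k7),(k2,k8)],[(k5,k7),(k9,k7),(k3,k8)],[(k0,k6),(k6,k6),(k2,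
    k7)],[(k8,k6)],[(k11,k6)],[(k5,k6),(k9,k6),(k3,k7)],[(k0,k6),(k6,k6),(k2,k7)],[(k4,k6)],[(k7,k6)],[(k1,k6)]]
    [] k0
    []
    []]⟩

/-- classes `0 0 1 0 1 2`, types `C0 C0 N0 C0 N2 S0` -/
noncomputable def cT6_938 : CertT :=
  ⟨[k4,k4,k28,k4,k30,k32],[],[[[]]],
    [.lp [k6,k8,k6,k6,k6,k6] [k1,k1,k0,k0,k1,k1,k1,k1,k1,k1,k1,k1] k0 [] k24 k5
    [[(k1,k6),(k10,k6)],[(k5,k6),(k9,k6),(k3,k7)],[(k0,k7),(k6,k7),(k2,k8)],[(k5,k7),(k9,k7),(k3,k8)],[(k0,k6),(k6,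
    k6),(k2,k7)],[(k8,k6)],[(k11,k6)],[(k5,k6),(k9,k6),(k3,k7)],[(k0,k6),(k6,k6),(k2,k7)],[(k4,k6)],[(k7,k6)],[(k1,
    k6),(k10,k6)]]
    [] k0
    []
    []]⟩

/-- classes `0 0 1 0 1 2`, types `C0 C0 N0 C2 N1 C0` -/
noncomputable def cT6_939 : CertT :=
  ⟨[k4,k4,k28,k6,k29,k36],[],[[[]]],
    [.lp [k12,k8,k12,k14,k0,k0] [k1,k1,k3,k3,k1,k1,k0,k0,k7,k7,k7,k7] k0 [[k0,k0,k0,k0,k0,k0,k0,k2],[],[],[],[],[],[k0,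
    k2]] k24 k5
    [[(k10,k6)],[(k3,k10),(k6,k11),(k5,k12)],[(k9,k6),(k2,k8),(k0,k10)],[(k3,k8),(k5,k10),(k6,k11)],[(k9,k6),(k2,k10),
    (k0,k12)],[(k11,k6)],[(k8,k7)],[(k9,k7),(k0,k11),(k2,k11)],[(k3,k6),(k5,k6),(k6,k7)],[(k7,k7)],[(k4,k6)],[(k1,
    k6)]]
    [] k0
    []
    []]⟩

/-- classes `0 0 1 0 1 2`, types `C0 C0 N0 C2 N1 S0` -/
noncomputable def cT6_940 : CertT :=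
  ⟨[k4,k4,k28,k6,k29,k32],[],[[[]]],
    [.lp [k6,k10,k12,k12,k0,k6] [k3,k3,k1,k1,k0,k0,k0,k0,k6,k6,k3,k3] k0 [[k0,k0,k0,k0,k0,k0,k0,k2],[],[],[],[],[],[k0,
    k2]] k24 k5
    [[(k1,k6),(k10,k6)],[(k6,k7),(k3,k8),(k5,k9)],[(k9,k7),(k0,k8),(k2,k10)],[(k3,k10),(k5,k11),(k6,k11)],[(k9,k6),
    (k0,k9),(k2,k11)],[(k11,k9)],[(k8,k6)],[(k9,k6),(k0,k7),(k2,k11)],[(k5,k6),(k6,k6),(k3,k7)],[(k7,k6)],[(k4,k9)],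
    [(k1,k6),(k10,k6)]]
    [] k0
    []
    []]⟩

/-- classes `0 0 1 0 1 2`, types `C0 C0 N0 C2 N2 C0` -/
noncomputable def cT6_941 : CertT :=
  ⟨[k4,k4,k28,k6,k30,k36],[(false,k0,[k0,k1,k2,k3,k4,k5])],[[[([z1,z0,z0,z1,z0,z1],z2)],[]]],
    [.leafM k3 [k2,k3,k4,k5,k0,k1] [(z1,[z1])] [],
    .lp [k6,k8,k10,k6,k6,k6] [k2,k2,k1,k1,k0,k0,k2,k2,k2,k2,k2,k2] k0 [] k24 k5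
    [[(k10,k6)],[(k6,k6),(k3,k7),(k5,k8)],[(k0,k7),(k9,k7),(k2,k8)],[(k6,k7),(k3,k8),(k5,k9)],[(k0,k8),(k9,k8),(k2,
    k9)],[(k8,k8)],[(k11,k6)],[(k0,k6),(k9,k6),(k2,k7)],[(k6,k6),(k3,k7),(k5,k8)],[(k4,k8)],[(k7,k6)],[(k1,k6)]]
    [] k0
    [[k1,k0,k0,k1,k0,k1]]
    [.ref k0 k0 [(z1,[z1])]]]⟩

/-- classes `0 0 1 0 1 2`, types `C0 C0 N0 C2 N2 S0` -/
noncomputable def cT6_942 : CertT :=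
  ⟨[k4,k4,k28,k6,k30,k32],[(false,k0,[k0,k1,k2,k3,k4,k5])],[[[([z1,z0,z0,z1,z0,z1],z2)],[]]],
    [.leafM k3 [k2,k3,k4,k5,k0,k1] [(z1,[z1])] [],
    .lp [k2,k4,k2,k2,k2,k2] [k1,k1,k0,k0,k1,k1,k1,k1,k1,k1,k1,k1] k0 [] k8 k5
    [[(k1,k2),(k10,k2)],[(k5,k2),(k6,k2),(k3,k3)],[(k0,k3),(k9,k3),(k2,k4)],[(k5,k3),(k6,k3),(k3,k4)],[(k0,k2),(k9,
    k2),(k2,k3)],[(k8,k2)],[(k11,k2)],[(k0,k2),(k9,k2),(k2,k3)],[(k5,k2),(k6,k2),(k3,k3)],[(k4,k2)],[(k7,k2)],[(k1,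
    k2),(k10,k2)]]
    [] k0
    [[k1,k0,k0,k1,k0,k1]]
    [.ref k0 k0 [(z1,[z1])]]]⟩

/-- classes `0 0 1 0 1 2`, types `C0 C0 S0 C0 S0 C0` -/
noncomputable def cT6_943 : CertT :=
  ⟨[k4,k4,k16,k4,k16,k36],[(false,k0,[k0,k1,k2,k3,k4,k5])],[[[([z1,z0,z0,z0,z1,z1],z2)],[]]],
    [.leafM k0 [k0,k1,k2,k3,k4,k5] [(z1,[y1,z1])] [],
    .lp [k12,k10,k6,k6,k6,k6] [k0,k0,k1,k1,k3,k3,k3,k3,k3,k3,k3,k3] k0 [[k0,k0,k0,k0,k0,k0,k2],[],[],[],[],[],[],[k0,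
    k2]] k24 k5
    [[(k10,k9)],[(k9,k7),(k5,k9),(k3,k11)],[(k2,k10),(k6,k10),(k0,k11)],[(k5,k8),(k9,k8),(k3,k10)],[(k6,k6),(k2,k8),
    (k0,k9)],[(k4,k6),(k7,k6),(k8,k6),(k11,k6)],[(k4,k6),(k7,k6),(k8,k6),(k11,k6)],[(k5,k6),(k9,k6),(k3,k10)],[(k6,
    k6),(k0,k7),(k2,k8)],[(k4,k6),(k7,k6),(k8,k6),(k11,k6)],[(k4,k6),(k7,k6),(k8,k6),(k11,k6)],[(k1,k9)]]
    [] k0
    [[k1,k0,k0,k0,k1,k1]]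
    [.ref k0 k0 [(z1,[z1])]]]⟩

/-- classes `0 0 1 0 1 2`, types `C0 C0 S0 C0 S0 S0` -/
noncomputable def cT6_944 : CertT :=
  ⟨[k4,k4,k16,k4,k16,k32],[(false,k0,[k0,k1,k2,k3,k4,k5])],[[[([z1,z0,z0,z0,z1,z1],z2)],[]]],
    [.leafM k0 [k0,k1,k2,k3,k4,k5] [(z1,[y1,z1])] [],
    .lp [k10,k8,k6,k8,k6,k8] [k0,k0,k1,k1,k2,k2,k1,k1,k2,k2,k1,k1] k0 [[k0,k0,k0,k0,k0,k0,k2],[],[],[],[],[],[],[k0,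
    k2]] k24 k5
    [[(k10,k9),(k1,k10)],[(k9,k6),(k5,k8),(k3,k9)],[(k2,k8),(k0,k9),(k6,k10)],[(k5,k7),(k9,k7),(k3,k8)],[(k2,k7),(k6,
    k7),(k0,k8)],[(k4,k6),(k8,k6),(k7,k7),(k11,k7)],[(k4,k7),(k8,k7),(k7,k8),(k11,k8)],[(k5,k7),(k9,k7),(k3,k10)],
    [(k0,k6),(k2,k7),(k6,k7)],[(k4,k6),(k8,k6),(k7,k7),(k11,k7)],[(k4,k7),(k8,k7),(k7,k8),(k11,k8)],[(k10,k8),(k1,
    k9)]]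
    [] k0
    [[k1,k0,k0,k0,k1,k1]]
    [.ref k0 k0 [(z1,[z1])]]]⟩

/-- classes `0 0 1 0 1 2`, types `C0 C0 S0 C2 S0 C0` -/
noncomputable def cT6_945 : CertT :=
  ⟨[k4,k4,k16,k6,k16,k36],[(false,k0,[k0,k1,k2,k3,k4,k5])],[[[([z1,z0,z0,z1,z0,z1],z2)],[]]],
    [.leafM k3 [k2,k3,k4,k5,k0,k1] [(z1,[z1])] [],
    .lp [k12,k8,k6,k6,k8,k6] [k0,k0,k2,k2,k3,k3,k3,k3,k2,k2,k3,k3] k0 [[k0,k0,k0,k0,k0,k0,k0,k2],[],[],[],[],[],[k0,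
    k2]] k24 k5
    [[(k10,k9)],[(k6,k7),(k5,k9),(k3,k10)],[(k2,k8),(k0,k10),(k9,k10)],[(k5,k7),(k6,k7),(k3,k8)],[(k2,k7),(k9,k7),(k0,
    k9)],[(k4,k6),(k7,k6),(k11,k6),(k8,k7)],[(k4,k6),(k7,k6),(k11,k6),(k8,k7)],[(k0,k7),(k2,k7),(k9,k7)],[(k5,k7),(k6,
    k7),(k3,k10)],[(k4,k7),(k7,k7),(k11,k7),(k8,k8)],[(k4,k6),(k7,k6),(k11,k6),(k8,k7)],[(k1,k9)]]
    [] k0
    [[k1,k0,k0,k1,k0,k1]]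
    [.ref k0 k0 [(z1,[z1])]]]⟩

/-- classes `0 0 1 0 1 2`, types `C0 C0 S0 C2 S0 S0` -/
noncomputable def cT6_946 : CertT :=
  ⟨[k4,k4,k16,k6,k16,k32],[(false,k0,[k0,k1,k2,k3,k4,k5])],[[[([z1,z0,z0,z1,z0,z1],z2)],[]]],
    [.leafM k3 [k2,k3,k4,k5,k0,k1] [(z1,[z1])] [],
    .lp [k10,k8,k6,k6,k8,k8] [k0,k0,k1,k1,k2,k2,k2,k2,k1,k1,k1,k1] k0 [[k0,k0,k0,k0,k0,k0,k0,k2],[],[],[],[],[],[k0,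
    k2]] k24 k5
    [[(k10,k9),(k1,k10)],[(k6,k6),(k5,k8),(k3,k9)],[(k2,k8),(k0,k9),(k9,k10)],[(k5,k7),(k6,k7),(k3,k8)],[(k2,k7),(k9,
    k7),(k0,k8)],[(k4,k6),(k7,k6),(k8,k7),(k11,k7)],[(k4,k6),(k7,k6),(k8,k7),(k11,k7)],[(k0,k6),(k2,k7),(k9,k7)],[(k5,
    k7),(k6,k7),(k3,k10)],[(k4,k7),(k7,k7),(k8,k8),(k11,k8)],[(k4,k7),(k7,k7),(k8,k8),(k11,k8)],[(k10,k8),(k1,k9)]]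
    [] k0
    [[k1,k0,k0,k1,k0,k1]]
    [.ref k0 k0 [(z1,[z1])]]]⟩

/-- classes `0 0 1 0 1 2`, types `C0 C2 B0 C0 B1 C0` -/
noncomputable def cT6_947 : CertT :=
  ⟨[k4,k6,k24,k4,k25,k36],[],[[[]]],
    [.lp [k0,k2,k0,k0,k2,k2] [k1,k1,k0,k0,k1,k1,k1,k1,k0,k0,k0,k0] k0 [] k4 k5
    [[(k10,k1)],[(k2,k1),(k3,k1),(k9,k1)],[(k0,k1),(k5,k1),(k6,k1)],[(k0,k1),(k5,k1),(k6,k1)],[(k2,k1),(k3,k1),(k9,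
    k1)],[(k8,k1),(k11,k1)],[(k8,k1),(k11,k1)],[(k2,k1),(k3,k1),(k9,k1)],[(k0,k1),(k5,k1),(k6,k1)],[(k4,k1),(k7,k1)],
    [(k4,k1),(k7,k1)],[(k1,k1)]]
    [] k0
    []
    []]⟩

/-- classes `0 0 1 0 1 2`, types `C0 C2 B0 C0 B1 S0` -/
noncomputable def cT6_948 : CertT :=
  ⟨[k4,k6,k24,k4,k25,k32],[],[[[]]],
    [.lp [k6,k4,k4,k4,k4,k4] [k0,k0,k1,k1,k1,k1,k1,k1,k1,k1,k1,k1] k0 [] k16 k5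
    [[(k10,k5),(k1,k6)],[(k2,k5),(k3,k5),(k9,k5)],[(k5,k4),(k6,k4),(k0,k5)],[(k5,k4),(k6,k4),(k0,k5)],[(k2,k4),(k3,
    k4),(k9,k4)],[(k8,k4),(k11,k4)],[(k8,k4),(k11,k4)],[(k2,k4),(k3,k4),(k9,k4)],[(k5,k4),(k6,k4),(k0,k5)],[(k4,k4),
    (k7,k4)],[(k4,k4),(k7,k4)],[(k10,k4),(k1,k5)]]
    [] k0
    []
    []]⟩

/-- classes `0 0 1 0 1 2`, types `C0 C2 B0 C2 B1 C0` -/
noncomputable def cT6_949 : CertT :=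
  ⟨[k4,k6,k24,k6,k25,k36],[(false,k0,[k0,k1,k2,k3,k4,k5])],[[[([z1,z0,z0,z1,z0,z1],z2)],[]]],
    [.leafM k3 [k2,k3,k4,k5,k0,k1] [(z1,[z1])] [],
    .lp [k2,k2,k2,k2,k2,k4] [k1,k1,k1,k1,k1,k1,k1,k1,k1,k1,k0,k0] k0 [] k8 k5
    [[(k10,k3)],[(k2,k2),(k3,k2),(k6,k2)],[(k0,k2),(k5,k2),(k9,k2)],[(k0,k2),(k5,k2),(k9,k2)],[(k2,k2),(k3,k2),(k6,
    k2)],[(k8,k2),(k11,k3)],[(k8,k2),(k11,k3)],[(k0,k2),(k5,k2),(k9,k2)],[(k2,k2),(k3,k2),(k6,k2)],[(k4,k2),(k7,k2)],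
    [(k4,k3),(k7,k3)],[(k1,k3)]]
    [] k0
    [[k0,k1,k1,k0,k1,k0]]
    [.ref k0 k0 [(z1,[y1,z1])]]]⟩

/-- classes `0 0 1 0 1 2`, types `C0 C2 B0 C2 B1 S0` -/
noncomputable def cT6_950 : CertT :=
  ⟨[k4,k6,k24,k6,k25,k32],[(false,k0,[k0,k1,k2,k3,k4,k5])],[[[([z1,z0,z0,z1,z0,z1],z2)],[]]],
    [.leafM k3 [k2,k3,k4,k5,k0,k1] [(z1,[z1])] [],
    .lp [k4,k2,k2,k2,k2,k2] [k0,k0,k1,k1,k1,k1,k1,k1,k1,k1,k1,k1] k0 [] k8 k5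
    [[(k10,k3),(k1,k4)],[(k2,k3),(k3,k3),(k6,k3)],[(k5,k2),(k9,k2),(k0,k3)],[(k5,k2),(k9,k2),(k0,k3)],[(k2,k2),(k3,
    k2),(k6,k2)],[(k8,k2),(k11,k2)],[(k8,k2),(k11,k2)],[(k5,k2),(k9,k2),(k0,k3)],[(k2,k2),(k3,k2),(k6,k2)],[(k4,k2),
    (k7,k2)],[(k4,k2),(k7,k2)],[(k10,k2),(k1,k3)]]
    [] k0
    [[k0,k1,k1,k0,k1,k0]]
    [.ref k0 k0 [(z1,[y1,z1])]]]⟩

/-- classes `0 0 1 0 1 2`, types `C0 C2 C0 C0 C0 C0` -/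
noncomputable def cT6_951 : CertT :=
  ⟨[k4,k6,k20,k4,k20,k36],[(false,k0,[k0,k1,k2,k3,k4,k5])],[[[([z1,z0,z0,z0,z1,z1],z2)],[]]],
    [.leafM k0 [k0,k1,k2,k3,k4,k5] [(z1,[y1,z1])] [],
    .lp [k2,k2,k2,k4,k2,k2] [k1,k1,k1,k1,k1,k1,k0,k0,k1,k1,k1,k1] k0 [] k8 k5
    [[(k10,k2)],[(k2,k2),(k3,k2),(k9,k2)],[(k0,k2),(k5,k2),(k6,k3)],[(k0,k2),(k5,k2),(k6,k3)],[(k2,k2),(k3,k2),(k9,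
    k2)],[(k11,k2),(k7,k3)],[(k4,k3),(k8,k3)],[(k2,k3),(k3,k3),(k9,k3)],[(k0,k2),(k5,k2),(k6,k3)],[(k11,k2),(k7,k3)],
    [(k4,k2),(k8,k2)],[(k1,k2)]]
    [] k0
    [[k1,k0,k0,k0,k1,k1]]
    [.ref k0 k0 [(z1,[z1])]]]⟩

/-- classes `0 0 1 0 1 2`, types `C0 C2 C0 C0 C0 S0` -/
noncomputable def cT6_952 : CertT :=
  ⟨[k4,k6,k20,k4,k20,k32],[(false,k0,[k0,k1,k2,k3,k4,k5])],[[[([z1,z0,z0,z0,z1,z1],z2)],[]]],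
    [.leafM k0 [k0,k1,k2,k3,k4,k5] [(z1,[y1,z1])] [],
    .lp [k2,k4,k2,k2,k2,k2] [k1,k1,k0,k0,k1,k1,k1,k1,k1,k1,k1,k1] k0 [] k8 k5
    [[(k1,k2),(k10,k2)],[(k9,k2),(k2,k3),(k3,k3)],[(k0,k3),(k5,k3),(k6,k3)],[(k0,k3),(k5,k3),(k6,k3)],[(k9,k2),(k2,
    k3),(k3,k3)],[(k7,k2),(k11,k2)],[(k4,k2),(k8,k2)],[(k9,k2),(k2,k3),(k3,k3)],[(k0,k2),(k5,k2),(k6,k2)],[(k7,k2),
    (k11,k2)],[(k4,k2),(k8,k2)],[(k1,k2),(k10,k2)]]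
    [] k0
    [[k1,k0,k0,k0,k1,k1]]
    [.ref k0 k0 [(z1,[z1])]]]⟩

/-- classes `0 0 1 0 1 2`, types `C0 C2 C0 C0 C2 C0` -/
noncomputable def cT6_953 : CertT :=
  ⟨[k4,k6,k20,k4,k22,k36],[(false,k0,[k0,k1,k2,k3,k4,k5])],[[[([z1,z0,z0,z0,z1,z1],z2)],[]]],
    [.leafM k0 [k0,k1,k2,k3,k4,k5] [(z1,[y1,z1])] [],
    .lp [k2,k2,k2,k4,k2,k2] [k1,k1,k1,k1,k1,k1,k0,k0,k1,k1,k1,k1] k0 [] k8 k5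
    [[(k10,k2)],[(k2,k2),(k3,k2),(k9,k2)],[(k0,k2),(k5,k2),(k6,k3)],[(k0,k2),(k5,k2),(k6,k3)],[(k2,k2),(k3,k2),(k9,
    k2)],[(k8,k2),(k7,k3)],[(k4,k3),(k11,k3)],[(k2,k3),(k3,k3),(k9,k3)],[(k0,k2),(k5,k2),(k6,k3)],[(k4,k2),(k11,k2)],
    [(k8,k2),(k7,k3)],[(k1,k2)]]
    [] k0
    [[k1,k0,k0,k0,k1,k1]]
    [.ref k0 k0 [(z1,[z1])]]]⟩

/-- classes `0 0 1 0 1 2`, types `C0 C2 C0 C0 C2 S0` -/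
noncomputable def cT6_954 : CertT :=
  ⟨[k4,k6,k20,k4,k22,k32],[(false,k0,[k0,k1,k2,k3,k4,k5])],[[[([z1,z0,z0,z0,z1,z1],z2)],[]]],
    [.leafM k0 [k0,k1,k2,k3,k4,k5] [(z1,[y1,z1])] [],
    .lp [k2,k4,k2,k2,k2,k2] [k1,k1,k0,k0,k1,k1,k1,k1,k1,k1,k1,k1] k0 [] k8 k5
    [[(k1,k2),(k10,k2)],[(k9,k2),(k2,k3),(k3,k3)],[(k0,k3),(k5,k3),(k6,k3)],[(k0,k3),(k5,k3),(k6,k3)],[(k9,k2),(k2,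
    k3),(k3,k3)],[(k7,k2),(k8,k2)],[(k4,k2),(k11,k2)],[(k9,k2),(k2,k3),(k3,k3)],[(k0,k2),(k5,k2),(k6,k2)],[(k4,k2),
    (k11,k2)],[(k7,k2),(k8,k2)],[(k1,k2),(k10,k2)]]
    [] k0
    [[k1,k0,k0,k0,k1,k1]]
    [.ref k0 k0 [(z1,[z1])]]]⟩

/-- classes `0 0 1 0 1 2`, types `C0 C2 C0 C2 C0 C0` -/
noncomputable def cT6_955 : CertT :=
  ⟨[k4,k6,k20,k6,k20,k36],[],[[[]]],
    [.lp [k0,k2,k0,k2,k0,k2] [k1,k1,k0,k0,k1,k1,k0,k0,k1,k1,k0,k0] k0 [] k4 k5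
    [[(k10,k1)],[(k2,k1),(k3,k1),(k6,k1)],[(k0,k1),(k5,k1),(k9,k1)],[(k0,k1),(k5,k1),(k9,k1)],[(k2,k1),(k3,k1),(k6,
    k1)],[(k7,k1),(k11,k1)],[(k4,k1),(k8,k1)],[(k0,k1),(k5,k1),(k9,k1)],[(k2,k1),(k3,k1),(k6,k1)],[(k7,k1),(k11,k1)],
    [(k4,k1),(k8,k1)],[(k1,k1)]]
    [] k0
    []
    []]⟩

/-- classes `0 0 1 0 1 2`, types `C0 C2 C0 C2 C0 S0` -/
noncomputable def cT6_956 : CertT :=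
  ⟨[k4,k6,k20,k6,k20,k32],[],[[[]]],
    [.lp [k6,k4,k4,k4,k4,k4] [k0,k0,k1,k1,k1,k1,k1,k1,k1,k1,k1,k1] k0 [] k16 k5
    [[(k10,k5),(k1,k6)],[(k2,k5),(k3,k5),(k6,k5)],[(k5,k4),(k9,k4),(k0,k5)],[(k5,k4),(k9,k4),(k0,k5)],[(k2,k4),(k3,
    k4),(k6,k4)],[(k7,k4),(k11,k4)],[(k4,k4),(k8,k4)],[(k5,k4),(k9,k4),(k0,k5)],[(k2,k4),(k3,k4),(k6,k4)],[(k7,k4),
    (k11,k4)],[(k4,k4),(k8,k4)],[(k10,k4),(k1,k5)]]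
    [] k0
    []
    []]⟩

/-- classes `0 0 1 0 1 2`, types `C0 C2 C0 C2 C2 C0` -/
noncomputable def cT6_957 : CertT :=
  ⟨[k4,k6,k20,k6,k22,k36],[(false,k0,[k0,k1,k2,k3,k4,k5])],[[[([z1,z0,z0,z1,z0,z1],z2)],[]]],
    [.leafM k3 [k2,k3,k4,k5,k0,k1] [(z1,[z1])] [],
    .lp [k2,k2,k4,k2,k2,k2] [k1,k1,k1,k1,k0,k0,k1,k1,k1,k1,k1,k1] k0 [] k8 k5
    [[(k10,k2)],[(k2,k2),(k3,k2),(k6,k2)],[(k0,k2),(k9,k2),(k5,k3)],[(k0,k2),(k9,k2),(k5,k3)],[(k2,k3),(k3,k3),(k6,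
    k3)],[(k7,k3),(k8,k3)],[(k11,k2),(k4,k3)],[(k0,k2),(k9,k2),(k5,k3)],[(k2,k2),(k3,k2),(k6,k2)],[(k11,k2),(k4,k3)],
    [(k7,k2),(k8,k2)],[(k1,k2)]]
    [] k0
    [[k1,k0,k0,k1,k0,k1]]
    [.ref k0 k0 [(z1,[z1])]]]⟩

/-- classes `0 0 1 0 1 2`, types `C0 C2 C0 C2 C2 S0` -/
noncomputable def cT6_958 : CertT :=
  ⟨[k4,k6,k20,k6,k22,k32],[(false,k0,[k0,k1,k2,k3,k4,k5])],[[[([z1,z0,z0,z1,z0,z1],z2)],[]]],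
    [.leafM k3 [k2,k3,k4,k5,k0,k1] [(z1,[z1])] [],
    .lp [k6,k4,k4,k4,k4,k6] [k0,k0,k1,k1,k1,k1,k1,k1,k1,k1,k0,k0] k0 [] k16 k5
    [[(k1,k6),(k10,k6)],[(k2,k5),(k3,k5),(k6,k5)],[(k5,k4),(k9,k4),(k0,k5)],[(k5,k4),(k9,k4),(k0,k5)],[(k2,k4),(k3,
    k4),(k6,k4)],[(k7,k4),(k8,k4)],[(k4,k4),(k11,k5)],[(k5,k4),(k9,k4),(k0,k5)],[(k2,k4),(k3,k4),(k6,k4)],[(k4,k4),
    (k11,k5)],[(k7,k5),(k8,k5)],[(k1,k6),(k10,k6)]]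
    [] k0
    [[k0,k1,k1,k0,k1,k0]]
    [.ref k0 k0 [(z1,[y1,z1])]]]⟩

/-- classes `0 0 1 0 1 2`, types `C0 C2 N0 C0 N1 C0` -/
noncomputable def cT6_959 : CertT :=
  ⟨[k4,k6,k28,k4,k29,k36],[],[[[]]],
    [.lp [k2,k0,k2,k2,k0,k0] [k0,k0,k1,k1,k0,k0,k0,k0,k1,k1,k1,k1] k0 [] k4 k5
    [[(k10,k1)],[(k2,k1),(k3,k1),(k9,k1)],[(k0,k1),(k5,k1),(k6,k1)],[(k0,k1),(k5,k1),(k6,k1)],[(k2,k1),(k3,k1),(k9,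
    k1)],[(k11,k1)],[(k8,k1)],[(k2,k1),(k3,k1),(k9,k1)],[(k0,k1),(k5,k1),(k6,k1)],[(k7,k1)],[(k4,k1)],[(k1,k1)]]
    [] k0
    []
    []]⟩

/-- classes `0 0 1 0 1 2`, types `C0 C2 N0 C0 N1 S0` -/
noncomputable def cT6_960 : CertT :=
  ⟨[k4,k6,k28,k4,k29,k32],[],[[[]]],
    [.lp [k6,k4,k4,k4,k4,k4] [k0,k0,k1,k1,k1,k1,k1,k1,k1,k1,k1,k1] k0 [] k16 k5
    [[(k10,k5),(k1,k6)],[(k2,k5),(k3,k5),(k9,k5)],[(k5,k4),(k6,k4),(k0,k5)],[(k5,k4),(k6,k4),(k0,k5)],[(k2,k4),(k3,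
    k4),(k9,k4)],[(k11,k4)],[(k8,k4)],[(k2,k4),(k3,k4),(k9,k4)],[(k5,k4),(k6,k4),(k0,k5)],[(k7,k4)],[(k4,k4)],[(k10,
    k4),(k1,k5)]]
    [] k0
    []
    []]⟩

/-- classes `0 0 1 0 1 2`, types `C0 C2 N0 C0 N2 C0` -/
noncomputable def cT6_961 : CertT :=
  ⟨[k4,k6,k28,k4,k30,k36],[],[[[]]],
    [.lp [k2,k0,k2,k2,k0,k0] [k0,k0,k1,k1,k0,k0,k0,k0,k1,k1,k1,k1] k0 [] k4 k5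
    [[(k10,k1)],[(k2,k1),(k3,k1),(k9,k1)],[(k0,k1),(k5,k1),(k6,k1)],[(k0,k1),(k5,k1),(k6,k1)],[(k2,k1),(k3,k1),(k9,
    k1)],[(k8,k1)],[(k11,k1)],[(k2,k1),(k3,k1),(k9,k1)],[(k0,k1),(k5,k1),(k6,k1)],[(k4,k1)],[(k7,k1)],[(k1,k1)]]
    [] k0
    []
    []]⟩

/-- classes `0 0 1 0 1 2`, types `C0 C2 N0 C0 N2 S0` -/
noncomputable def cT6_962 : CertT :=
  ⟨[k4,k6,k28,k4,k30,k32],[],[[[]]],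
    [.lp [k6,k4,k4,k4,k4,k4] [k0,k0,k1,k1,k1,k1,k1,k1,k1,k1,k1,k1] k0 [] k16 k5
    [[(k10,k5),(k1,k6)],[(k2,k5),(k3,k5),(k9,k5)],[(k5,k4),(k6,k4),(k0,k5)],[(k5,k4),(k6,k4),(k0,k5)],[(k2,k4),(k3,
    k4),(k9,k4)],[(k8,k4)],[(k11,k4)],[(k2,k4),(k3,k4),(k9,k4)],[(k5,k4),(k6,k4),(k0,k5)],[(k4,k4)],[(k7,k4)],[(k10,
    k4),(k1,k5)]]
    [] k0
    []
    []]⟩

/-- classes `0 0 1 0 1 2`, types `C0 C2 N0 C2 N1 C0` -/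
noncomputable def cT6_963 : CertT :=
  ⟨[k4,k6,k28,k6,k29,k36],[],[[[]]],
    [.lp [k0,k2,k0,k2,k0,k2] [k1,k1,k0,k0,k1,k1,k0,k0,k1,k1,k0,k0] k0 [] k4 k5
    [[(k10,k1)],[(k2,k1),(k3,k1),(k6,k1)],[(k0,k1),(k5,k1),(k9,k1)],[(k0,k1),(k5,k1),(k9,k1)],[(k2,k1),(k3,k1),(k6,
    k1)],[(k11,k1)],[(k8,k1)],[(k0,k1),(k5,k1),(k9,k1)],[(k2,k1),(k3,k1),(k6,k1)],[(k7,k1)],[(k4,k1)],[(k1,k1)]]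
    [] k0
    []
    []]⟩

/-- classes `0 0 1 0 1 2`, types `C0 C2 N0 C2 N1 S0` -/
noncomputable def cT6_964 : CertT :=
  ⟨[k4,k6,k28,k6,k29,k32],[],[[[]]],
    [.lp [k6,k4,k4,k4,k4,k4] [k0,k0,k1,k1,k1,k1,k1,k1,k1,k1,k1,k1] k0 [] k16 k5
    [[(k10,k5),(k1,k6)],[(k2,k5),(k3,k5),(k6,k5)],[(k5,k4),(k9,k4),(k0,k5)],[(k5,k4),(k9,k4),(k0,k5)],[(k2,k4),(k3,
    k4),(k6,k4)],[(k11,k4)],[(k8,k4)],[(k5,k4),(k9,k4),(k0,k5)],[(k2,k4),(k3,k4),(k6,k4)],[(k7,k4)],[(k4,k4)],[(k10,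
    k4),(k1,k5)]]
    [] k0
    []
    []]⟩

/-- classes `0 0 1 0 1 2`, types `C0 C2 N0 C2 N2 C0` -/
noncomputable def cT6_965 : CertT :=
  ⟨[k4,k6,k28,k6,k30,k36],[(false,k0,[k0,k1,k2,k3,k4,k5])],[[[([z1,z0,z0,z1,z0,z1],z2)],[]]],
    [.leafM k3 [k2,k3,k4,k5,k0,k1] [(z1,[z1])] [],
    .lp [k2,k2,k4,k2,k2,k2] [k1,k1,k1,k1,k0,k0,k1,k1,k1,k1,k1,k1] k0 [] k8 k5
    [[(k10,k2)],[(k2,k2),(k3,k2),(k6,k2)],[(k0,k2),(k9,k2),(k5,k3)],[(k0,k2),(k9,k2),(k5,k3)],[(k2,k3),(k3,k3),(k6,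
    k3)],[(k8,k3)],[(k11,k2)],[(k0,k2),(k9,k2),(k5,k3)],[(k2,k2),(k3,k2),(k6,k2)],[(k4,k3)],[(k7,k2)],[(k1,k2)]]
    [] k0
    [[k1,k0,k0,k1,k0,k1]]
    [.ref k0 k0 [(z1,[z1])]]]⟩

/-- classes `0 0 1 0 1 2`, types `C0 C2 N0 C2 N2 S0` -/
noncomputable def cT6_966 : CertT :=
  ⟨[k4,k6,k28,k6,k30,k32],[(false,k0,[k0,k1,k2,k3,k4,k5])],[[[([z1,z0,z0,z1,z0,z1],z2)],[]]],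
    [.leafM k3 [k2,k3,k4,k5,k0,k1] [(z1,[z1])] [],
    .lp [k6,k4,k4,k4,k4,k6] [k0,k0,k1,k1,k1,k1,k1,k1,k1,k1,k0,k0] k0 [] k16 k5
    [[(k1,k6),(k10,k6)],[(k2,k5),(k3,k5),(k6,k5)],[(k5,k4),(k9,k4),(k0,k5)],[(k5,k4),(k9,k4),(k0,k5)],[(k2,k4),(k3,
    k4),(k6,k4)],[(k8,k4)],[(k11,k5)],[(k5,k4),(k9,k4),(k0,k5)],[(k2,k4),(k3,k4),(k6,k4)],[(k4,k4)],[(k7,k5)],[(k1,
    k6),(k10,k6)]]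
    [] k0
    [[k0,k1,k1,k0,k1,k0]]
    [.ref k0 k0 [(z1,[y1,z1])]]]⟩

/-- classes `0 0 1 0 1 2`, types `C0 C2 S0 C0 S0 C0` -/
noncomputable def cT6_967 : CertT :=
  ⟨[k4,k6,k16,k4,k16,k36],[(false,k0,[k0,k1,k2,k3,k4,k5])],[[[([z1,z0,z0,z0,z1,z1],z2)],[]]],
    [.leafM k0 [k0,k1,k2,k3,k4,k5] [(z1,[y1,z1])] [],
    .lp [k2,k4,k2,k2,k2,k2] [k1,k1,k0,k0,k1,k1,k1,k1,k1,k1,k1,k1] k0 [] k8 k5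
    [[(k10,k2)],[(k9,k2),(k2,k3),(k3,k3)],[(k0,k3),(k5,k3),(k6,k3)],[(k0,k3),(k5,k3),(k6,k3)],[(k9,k2),(k2,k3),(k3,
    k3)],[(k4,k2),(k7,k2),(k8,k2),(k11,k2)],[(k4,k2),(k7,k2),(k8,k2),(k11,k2)],[(k9,k2),(k2,k3),(k3,k3)],[(k0,k2),(k5,
    k2),(k6,k2)],[(k4,k2),(k7,k2),(k8,k2),(k11,k2)],[(k4,k2),(k7,k2),(k8,k2),(k11,k2)],[(k1,k2)]]
    [] k0
    [[k1,k0,k0,k0,k1,k1]]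
    [.ref k0 k0 [(z1,[z1])]]]⟩

/-- classes `0 0 1 0 1 2`, types `C0 C2 S0 C0 S0 S0` -/
noncomputable def cT6_968 : CertT :=
  ⟨[k4,k6,k16,k4,k16,k32],[(false,k0,[k0,k1,k2,k3,k4,k5])],[[[([z1,z0,z0,z0,z1,z1],z2)],[]]],
    [.leafM k0 [k0,k1,k2,k3,k4,k5] [(z1,[y1,z1])] [],
    .lp [k12,k8,k6,k8,k6,k6] [k0,k0,k2,k2,k3,k3,k2,k2,k3,k3,k3,k3] k0 [[k0,k0,k0,k4],[],[k0,k4]] k24 k5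
    [[(k10,k9),(k1,k12)],[(k2,k6),(k9,k9),(k3,k10)],[(k6,k8),(k0,k10),(k5,k11)],[(k0,k6),(k5,k7),(k6,k8)],[(k9,k6),
    (k2,k7),(k3,k11)],[(k4,k6),(k8,k6),(k11,k6),(k7,k7)],[(k4,k7),(k8,k7),(k11,k7),(k7,k8)],[(k9,k7),(k2,k8),(k3,k8)],
    [(k5,k6),(k6,k7),(k0,k9)],[(k4,k6),(k8,k6),(k11,k6),(k7,k7)],[(k4,k6),(k8,k6),(k11,k6),(k7,k7)],[(k10,k6),(k1,
    k9)]]
    [] k0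
    [[k0,k1,k1,k1,k0,k0]]
    [.ref k0 k0 [(z1,[y1,z1])]]]⟩

/-- classes `0 0 1 0 1 2`, types `C0 C2 S0 C2 S0 C0` -/
noncomputable def cT6_969 : CertT :=
  ⟨[k4,k6,k16,k6,k16,k36],[(false,k0,[k0,k1,k2,k3,k4,k5])],[[[([z1,z0,z0,z1,z0,z1],z2)],[]]],
    [.leafM k3 [k2,k3,k4,k5,k0,k1] [(z1,[z1])] [],
    .lp [k8,k4,k10,k6,k10,k6] [k1,k1,k3,k3,k0,k0,k2,k2,k0,k0,k2,k2] k0 [[],[],[],[],[k0,k0,k0,k0,k0,k0,k0,k0,k0,k4],[],[],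
    [],[k0,k0,k0,k0,k0,k4]] k24 k5
    [[(k10,k7)],[(k2,k6),(k3,k6),(k6,k7)],[(k0,k6),(k5,k7),(k9,k7)],[(k0,k6),(k5,k7),(k9,k7)],[(k2,k7),(k3,k7),(k6,
    k8)],[(k8,k6),(k7,k8),(k11,k8),(k4,k10)],[(k7,k6),(k4,k8),(k8,k8),(k11,k10)],[(k0,k7),(k5,k8),(k9,k8)],[(k2,k7),
    (k3,k7),(k6,k8)],[(k4,k6),(k7,k8),(k11,k8),(k8,k10)],[(k11,k6),(k4,k8),(k8,k8),(k7,k10)],[(k1,k7)]]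
    [] k0
    [[k0,k1,k1,k0,k1,k0]]
    [.ref k0 k0 [(z1,[y1,z1])]]]⟩

/-- classes `0 0 1 0 1 2`, types `C0 C2 S0 C2 S0 S0` -/
noncomputable def cT6_970 : CertT :=
  ⟨[k4,k6,k16,k6,k16,k32],[(false,k0,[k0,k1,k2,k3,k4,k5])],[[[([z1,z0,z0,z1,z0,z1],z2)],[]]],
    [.leafM k3 [k2,k3,k4,k5,k0,k1] [(z1,[z1])] [],
    .lp [k8,k8,k8,k6,k8,k8] [k0,k0,k0,k0,k0,k0,k1,k1,k0,k0,k0,k0] k0 [[],[],[],[],[k0,k0,k0,k0,k0,k0,k0,k0,k0,k2],[],[],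
    [],[k0,k0,k0,k0,k0,k2]] k24 k5
    [[(k1,k8),(k10,k8)],[(k6,k7),(k2,k8),(k3,k8)],[(k0,k8),(k5,k8),(k9,k8)],[(k0,k8),(k5,k8),(k9,k8)],[(k6,k7),(k2,
    k8),(k3,k8)],[(k8,k6),(k7,k7),(k4,k8),(k11,k8)],[(k7,k6),(k4,k7),(k8,k7),(k11,k9)],[(k0,k7),(k5,k7),(k9,k7)],[(k6,
    k7),(k2,k8),(k3,k8)],[(k4,k6),(k7,k7),(k8,k8),(k11,k8)],[(k4,k8),(k8,k8),(k11,k8),(k7,k9)],[(k1,k8),(k10,k8)]]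
    [] k0
    [[k0,k1,k1,k0,k1,k0]]
    [.ref k0 k0 [(z1,[y1,z1])]]]⟩

/-- classes `0 0 1 0 1 2`, types `S0 S0 B0 S0 B1 C0` -/
noncomputable def cT6_971 : CertT :=
  ⟨[k0,k0,k24,k0,k25,k36],[(false,k0,[k0,k1,k2,k3,k4,k5])],[[[([z1,z0,z0,z1,z0,z1],z2)],[]]],
    [.leafM k3 [k2,k3,k4,k5,k0,k1] [(z1,[z1])] [],
    .lp [k10,k10,k8,k8,k6,k4] [k0,k0,k0,k0,k1,k1,k1,k1,k2,k2,k3,k3] k0 [[],[k0,k0,k0,k2],[k2]] k24 k5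
    [[(k10,k7)],[(k9,k8),(k6,k9),(k0,k10),(k2,k10),(k3,k10),(k5,k11)],[(k2,k8),(k9,k8),(k5,k9),(k6,k9),(k0,k10),(k3,
    k10)],[(k3,k8),(k9,k8),(k5,k9),(k6,k9),(k0,k10),(k2,k10)],[(k9,k7),(k5,k8),(k6,k8),(k2,k9),(k3,k9),(k0,k11)],
    [(k11,k6),(k8,k7)],[(k11,k6),(k8,k7)],[(k9,k7),(k5,k8),(k6,k8),(k0,k9),(k2,k9),(k3,k9)],[(k9,k6),(k5,k7),(k6,k7),
    (k0,k8),(k2,k8),(k3,k8)],[(k4,k7),(k7,k7)],[(k4,k6),(k7,k6)],[(k1,k7)]]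
    [] k0
    [[k1,k0,k0,k1,k0,k1]]
    [.ref k0 k0 [(z1,[z1])]]]⟩

/-- classes `0 0 1 0 1 2`, types `S0 S0 B0 S0 B1 S0` -/
noncomputable def cT6_972 : CertT :=
  ⟨[k0,k0,k24,k0,k25,k32],[(false,k0,[k0,k1,k2,k3,k4,k5])],[[[([z1,z0,z0,z1,z0,z1],z2)],[]]],
    [.leafM k3 [k2,k3,k4,k5,k0,k1] [(z1,[z1])] [],
    .lp [k22,k22,k12,k14,k12,k12] [k0,k0,k0,k0,k5,k5,k4,k4,k5,k5,k5,k5] k0 [[],[k0,k0,k0,k2],[k2]] k48 k5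
    [[(k10,k17),(k1,k22)],[(k9,k17),(k6,k18),(k5,k19),(k0,k22),(k2,k22),(k3,k22)],[(k5,k17),(k9,k17),(k6,k18),(k2,
    k20),(k0,k22),(k3,k22)],[(k5,k17),(k9,k17),(k6,k18),(k3,k20),(k0,k22),(k2,k22)],[(k5,k12),(k9,k12),(k6,k13),(k2,
    k17),(k3,k17),(k0,k19)],[(k8,k12),(k11,k12)],[(k8,k13),(k11,k13)],[(k5,k13),(k9,k13),(k6,k14),(k0,k18),(k2,k18),
    (k3,k18)],[(k5,k12),(k9,k12),(k6,k13),(k0,k17),(k2,k17),(k3,k17)],[(k4,k12),(k7,k13)],[(k4,k12),(k7,k13)],[(k10,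
    k12),(k1,k17)]]
    [] k0
    [[k0,k1,k1,k0,k1,k0]]
    [.ref k0 k0 [(z1,[y1,z1])]]]⟩

/-- classes `0 0 1 0 1 2`, types `S0 S0 C0 S0 C0 C0` -/
noncomputable def cT6_973 : CertT :=
  ⟨[k0,k0,k20,k0,k20,k36],[(false,k0,[k0,k1,k2,k3,k4,k5])],[[[([z1,z0,z0,z0,z1,z1],z2)],[]]],
    [.leafM k0 [k0,k1,k2,k3,k4,k5] [(z1,[y1,z1])] [],
    .lp [k10,k12,k6,k6,k6,k6] [k1,k1,k0,k0,k3,k3,k3,k3,k3,k3,k3,k3] k0 [[],[k0,k0,k0,k2],[k2]] k24 k5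
    [[(k10,k8)],[(k6,k8),(k9,k8),(k0,k10),(k5,k10),(k2,k11),(k3,k11)],[(k5,k9),(k6,k9),(k9,k9),(k2,k10),(k0,k11),(k3,
    k12)],[(k5,k9),(k6,k9),(k9,k9),(k3,k10),(k0,k11),(k2,k12)],[(k5,k6),(k6,k6),(k9,k6),(k2,k9),(k3,k9),(k0,k10)],
    [(k7,k6),(k11,k6)],[(k4,k6),(k8,k6)],[(k5,k6),(k6,k6),(k9,k6),(k0,k8),(k2,k9),(k3,k9)],[(k5,k6),(k6,k6),(k9,k6),
    (k0,k8),(k2,k9),(k3,k9)],[(k7,k6),(k11,k6)],[(k4,k6),(k8,k6)],[(k1,k8)]]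
    [] k0
    [[k1,k0,k0,k0,k1,k1]]
    [.ref k0 k0 [(z1,[z1])]]]⟩

/-- classes `0 0 1 0 1 2`, types `S0 S0 C0 S0 C0 S0` -/
noncomputable def cT6_974 : CertT :=
  ⟨[k0,k0,k20,k0,k20,k32],[(false,k0,[k0,k1,k2,k3,k4,k5])],[[[([z1,z0,z0,z0,z1,z1],z2)],[]]],
    [.leafM k0 [k0,k1,k2,k3,k4,k5] [(z1,[y1,z1])] [],
    .lp [k22,k22,k12,k12,k14,k12] [k0,k0,k0,k0,k5,k5,k5,k5,k4,k4,k5,k5] k0 [[],[k0,k0,k0,k2],[k2]] k48 k5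
    [[(k10,k17),(k1,k22)],[(k6,k17),(k9,k18),(k5,k19),(k0,k22),(k2,k22),(k3,k22)],[(k5,k17),(k6,k17),(k9,k18),(k2,
    k20),(k0,k22),(k3,k22)],[(k5,k17),(k6,k17),(k9,k18),(k3,k20),(k0,k22),(k2,k22)],[(k5,k12),(k6,k12),(k9,k13),(k2,
    k17),(k3,k17),(k0,k19)],[(k7,k12),(k11,k12)],[(k4,k12),(k8,k13)],[(k5,k12),(k6,k12),(k9,k13),(k0,k17),(k2,k17),
    (k3,k17)],[(k5,k13),(k6,k13),(k9,k14),(k0,k18),(k2,k18),(k3,k18)],[(k7,k13),(k11,k13)],[(k4,k12),(k8,k13)],[(k10,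
    k12),(k1,k17)]]
    [] k0
    [[k0,k1,k1,k1,k0,k0]]
    [.ref k0 k0 [(z1,[y1,z1])]]]⟩

/-- classes `0 0 1 0 1 2`, types `S0 S0 C0 S0 C2 C0` -/
noncomputable def cT6_975 : CertT :=
  ⟨[k0,k0,k20,k0,k22,k36],[(false,k0,[k0,k1,k2,k3,k4,k5])],[[[([z1,z0,z0,z1,z0,z1],z2)],[([z1,z0,z0,z0,z1,z1],z2)],
    []]],
    [.leafM k3 [k2,k3,k4,k5,k0,k1] [(z1,[z1])] [],
    .leafM k0 [k0,k1,k2,k3,k4,k5] [(z1,[y1,z1])] [],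
    .lp [k2,k4,k2,k2,k2,k2] [k1,k1,k0,k0,k1,k1,k1,k1,k1,k1,k1,k1] k0 [] k8 k5
    [[(k10,k2)],[(k0,k2),(k5,k2),(k6,k2),(k9,k2),(k2,k3),(k3,k3)],[(k0,k3),(k5,k3),(k6,k3),(k9,k3),(k2,k4),(k3,k4)],
    [(k0,k3),(k5,k3),(k6,k3),(k9,k3),(k2,k4),(k3,k4)],[(k0,k2),(k5,k2),(k6,k2),(k9,k2),(k2,k3),(k3,k3)],[(k7,k2),(k8,
    k2)],[(k4,k2),(k11,k2)],[(k0,k2),(k5,k2),(k6,k2),(k9,k2),(k2,k3),(k3,k3)],[(k0,k2),(k5,k2),(k6,k2),(k9,k2),(k2,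
    k3),(k3,k3)],[(k4,k2),(k11,k2)],[(k7,k2),(k8,k2)],[(k1,k2)]]
    [] k0
    [[k1,k0,k0,k1,k0,k1],[k1,k0,k0,k0,k1,k1]]
    [.ref k0 k0 [(z1,[z1])],.ref k1 k0 [(z1,[z1])]]]⟩

/-- the certificates of this file -/
noncomputable def lT6_9 : List CertT :=
  [cT6_814, cT6_815, cT6_816, cT6_817, cT6_818, cT6_819, cT6_820, cT6_821, cT6_822, cT6_823, cT6_824, cT6_825,
      cT6_826, cT6_827, cT6_828, cT6_829, cT6_830, cT6_831, cT6_832, cT6_833, cT6_834, cT6_835, cT6_836,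
      cT6_837, cT6_838, cT6_839, cT6_840, cT6_841, cT6_842, cT6_843, cT6_844, cT6_845, cT6_846, cT6_847,
      cT6_848, cT6_849, cT6_850, cT6_851, cT6_852, cT6_853, cT6_854, cT6_855, cT6_856, cT6_857, cT6_858,
      cT6_859, cT6_860, cT6_861, cT6_862, cT6_863, cT6_864, cT6_865, cT6_866, cT6_867, cT6_868, cT6_869,
      cT6_870, cT6_871, cT6_872, cT6_873, cT6_874, cT6_875, cT6_876, cT6_877, cT6_878, cT6_879, cT6_880,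
      cT6_881, cT6_882, cT6_883, cT6_884, cT6_885, cT6_886, cT6_887, cT6_888, cT6_889, cT6_890, cT6_891,
      cT6_892, cT6_893, cT6_894, cT6_895, cT6_896, cT6_897, cT6_898, cT6_899, cT6_900, cT6_901, cT6_902,
      cT6_903, cT6_904, cT6_905, cT6_906, cT6_907, cT6_908, cT6_909, cT6_910, cT6_911, cT6_912, cT6_913,
      cT6_914, cT6_915, cT6_916, cT6_917, cT6_918, cT6_919, cT6_920, cT6_921, cT6_922, cT6_923, cT6_924,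
      cT6_925, cT6_926, cT6_927, cT6_928, cT6_929, cT6_930, cT6_931, cT6_932, cT6_933, cT6_934, cT6_935,
      cT6_936, cT6_937, cT6_938, cT6_939, cT6_940, cT6_941, cT6_942, cT6_943, cT6_944, cT6_945, cT6_946,
      cT6_947, cT6_948, cT6_949, cT6_950, cT6_951, cT6_952, cT6_953, cT6_954, cT6_955, cT6_956, cT6_957,
      cT6_958, cT6_959, cT6_960, cT6_961, cT6_962, cT6_963, cT6_964, cT6_965, cT6_966, cT6_967, cT6_968,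
      cT6_969, cT6_970, cT6_971, cT6_972, cT6_973, cT6_974, cT6_975]

theorem gT6_9 : allF (chkC 6 tt6) lT6_9 = true := by
  decide +kernel

end Pool.Agent.Lib_MP_fa6e45
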