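import Pool.Agent.Lib_MP_fa6e45.CSTT

/-!
MP_fa6e45_co, stage 5: the check of a large certificate in parts (captain).
-/

namespace Pool.Agent.Lib_MP_fa6e45

theorem allI_app {α : Type} {g : ℕ → α → Bool} {l l' : List α} {i k : ℕ}
    (h : allI g l i = true) (hl : l.length + i = k) (h' : allI g l' k = true) :
    allI g (l ++ l') i = true := by
  induction l generalizing i with
  | nil =>
    simp only [List.length_nil, zero_add] at hl
    rw [List.nil_append, hl]
    exact h'
  | cons x l ih =>
    have h1 : (bif g i x then allI g l (i + 1) else false) = true := h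
    change (bif g i x then allI g (l ++ l') (i + 1) else false) = true
    cases hg : g i x
    · rw [hg] at h1
      exact absurd h1 (by simp)
    · rw [hg] at h1
      rw [cond_true]
      refine ih h1 ?_
      rw [List.length_cons] at hl
      omega

theorem chkC_of {m : ℕ} [NeZero m] {tt : List TorT} {w : List ℕ} {sy : List (Bool × ℕ × List ℕ)}
    {D : List (List (List Eqn))} {Ns : List TN}
    (h1 : ((w == decW m (encW w)) && sy.all (symT m w)) = true)
    (h2 : (decide (0 < Ns.length) && (blkF [] D (Ns.length - 1)).isEmpty) = true)
    (h3 : allI (chkT m w tt sy (blkF [] D)) Ns 0 = true) : chkC m tt ⟨w, sy, D, Ns⟩ = true := by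
  unfold chkC
  rw [Bool.and_eq_true] at h1 h2
  simp only [h1.1, h1.2, h2.1, h2.2, h3, Bool.and_self]

end Pool.Agent.Lib_MP_fa6e45
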