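import Pool.Agent.Lib_MP_fa6e45.CT5

/-!
MP_fa6e45_co, stage 5: tables of tori for m = 4 (found by computer) and the proof that they give periodic tilings.
-/

namespace Pool.Agent.Lib_MP_fa6e45

/-- the torus -/
def tt4_0 : TT where
  k := 2
  rf := [false, false]
  tau := [5, 6, 7, 4, 3, 0, 1, 2]
  par := [0, 0]
  stars := [[0, 4, 2, 6], [1, 5, 3, 7]]
  word := [[], [3, 0], [0], [2], [3], [], [1, 2], [1]]
  rank := [0, 1, 0, 0, 0, 0, 1, 0]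
  just := [0, 1, 0, 0, 0, 0, 1, 0]
  gA := 2
  gB := 3
  fin := 0
  sid := [0, 1, 0, 1, 0, 1, 0, 1]
  off := [(0, 0), (0, 0), (1, -1), (0, 1), (0, -1), (0, 0), (0, 0), (-1, 1)]

/-- glued arcs and equations -/
def tor4_0 : TorT :=
  ⟨[(0, 1, true), (0, 3, true), (1, 2, true), (2, 3, true)],
    [([0, 2, 0, 2], 2), ([2, 0, 2, 0], 2)]⟩

theorem tor4_0_ok : tor4_0.OK 4 := TT.leaf_ok (T := tt4_0) (by decide +kernel)

/-- the torus -/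
def tt4_1 : TT where
  k := 4
  rf := [false, false, true, true]
  tau := [5, 6, 11, 10, 15, 0, 1, 12, 13, 14, 3, 2, 7, 8, 9, 4]
  par := [0, 0, 2, 4]
  stars := [[0, 11, 2, 6], [1, 5, 12, 7], [3, 8, 14, 10], [4, 13, 9, 15]]
  word := [[], [1, 2], [], [0, 3], [], [], [3, 0], [3, 0], [0], [2], [2, 1], [], [1, 2], [1], [3], []]
  rank := [0, 2, 0, 1, 0, 0, 2, 1, 0, 0, 1, 0, 1, 0, 0, 0]
  just := [0, 1, 0, 2, 0, 0, 1, 3, 0, 0, 2, 0, 3, 0, 0, 0]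
  gA := 8
  gB := 9
  fin := 0
  sid := [0, 1, 0, 2, 3, 1, 0, 1, 2, 3, 2, 0, 1, 3, 2, 3]
  off := [(0, 0), (0, 0), (-1, 1), (0, 0), (0, 0), (0, 0), (0, 0), (1, -1), (0, 0), (0, 1), (-1, 1), (-1, 1), (0, 0),
    (-1, 1), (-1, 0), (0, 0)]

/-- glued arcs and equations -/
def tor4_1 : TorT :=
  ⟨[(0, 1, true), (0, 3, false), (1, 2, true), (2, 3, false)],
    [([1, 0, 2, 1], 2), ([1, 2, 0, 1], 2)]⟩

theorem tor4_1_ok : tor4_1.OK 4 := TT.leaf_ok (T := tt4_1) (by decide +kernel)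

/-- the torus -/
def tt4_2 : TT where
  k := 5
  rf := [false, false, false, false, false]
  tau := [5, 8, 7, 12, 19, 0, 13, 2, 1, 18, 15, 16, 3, 6, 17, 10, 11, 14, 9, 4]
  par := [0, 0, 1, 3, 4]
  stars := [[0, 12, 10, 18, 14, 6], [1, 5, 19, 9], [2, 8, 16, 4], [3, 7, 13], [11, 15, 17]]
  word := [[], [], [0], [], [], [], [1], [1], [], [], [0, 3], [0], [], [0], [2], [2, 1], [1], [3], [], []]
  rank := [0, 0, 1, 0, 0, 0, 2, 1, 0, 1, 1, 0, 0, 2, 0, 1, 0, 0, 1, 0]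
  just := [0, 0, 2, 0, 0, 0, 3, 2, 0, 1, 4, 0, 0, 3, 0, 4, 0, 0, 1, 0]
  gA := 11
  gB := 14
  fin := 0
  sid := [0, 1, 2, 3, 2, 1, 0, 3, 2, 1, 0, 4, 0, 3, 0, 4, 2, 4, 0, 1]
  off := [(0, 0), (0, 0), (0, 0), (0, 0), (-1, 0), (0, 0), (0, 0), (-1, 0), (0, 0), (0, 0), (1, -1), (0, 0), (0, 0),
    (0, 0), (1, 0), (-1, 1), (-1, 0), (-1, 0), (1, -1), (0, 0)]

/-- glued arcs and equations -/
def tor4_2 : TorT :=
  ⟨[(0, 1, true), (0, 3, true), (1, 2, true), (2, 3, true)],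
    [([0, 1, 0, 2], 2), ([0, 3, 0, 1], 2), ([2, 0, 4, 0], 2), ([3, 0, 1, 0], 2)]⟩

theorem tor4_2_ok : tor4_2.OK 4 := TT.leaf_ok (T := tt4_2) (by decide +kernel)

/-- the torus -/
def tt4_3 : TT where
  k := 12
  rf := [false, false, false, true, true, true, true, true, true, false, false, false]
  tau := [5, 8, 15, 16, 9, 0, 23, 24, 1, 4, 31, 32, 39, 26, 33, 2, 3, 22, 29, 38, 43, 34, 17, 6, 7, 30, 13, 42, 47,
    18, 25, 10, 11, 14, 21, 46, 41, 44, 19, 12, 45, 36, 27, 20, 37, 40, 35, 28]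
  par := [0, 0, 1, 2, 3, 6, 7, 10, 11, 12, 20, 28]
  stars := [[0, 17, 23, 6], [1, 5, 9], [2, 8, 33, 15], [3, 12, 39, 16], [4, 25, 31, 10], [7, 20, 43, 24], [11, 28,
    47, 32], [13, 27, 42, 36], [14, 34, 22, 18, 30, 26], [19, 38, 44, 29], [21, 35, 46, 40], [37, 41, 45]]
  word := [[], [], [], [], [], [], [], [], [], [], [], [], [], [0, 3], [], [], [], [0, 2, 1, 3], [0], [], [], [2],
    [2, 0, 3, 1], [], [], [], [2, 1], [], [], [1], [], [], [], [], [3], [], [0, 3], [0], [], [], [2], [2, 1], [], [],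
    [1], [3], [], []]
  rank := [0, 0, 0, 0, 1, 0, 0, 0, 0, 1, 0, 0, 0, 2, 1, 0, 0, 3, 2, 1, 0, 2, 3, 0, 0, 2, 2, 1, 0, 2, 2, 0, 0, 1, 2,
    1, 1, 0, 1, 0, 0, 1, 1, 0, 0, 0, 1, 0]
  just := [0, 0, 0, 0, 1, 0, 0, 0, 0, 1, 0, 0, 0, 7, 2, 0, 0, 8, 9, 3, 0, 10, 8, 0, 0, 4, 7, 5, 0, 9, 4, 0, 0, 2, 10,
    6, 11, 0, 3, 0, 0, 11, 5, 0, 0, 0, 6, 0]
  gA := 37
  gB := 40
  fin := 0
  sid := [0, 1, 2, 3, 4, 1, 0, 5, 2, 1, 4, 6, 3, 7, 8, 2, 3, 0, 8, 9, 5, 10, 8, 0, 5, 4, 8, 7, 6, 9, 8, 4, 6, 2, 8,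
    10, 7, 11, 9, 3, 10, 11, 7, 5, 9, 11, 10, 6]
  off := [(0, 0), (0, 0), (0, 0), (0, 0), (0, 0), (0, 0), (0, 0), (0, 0), (0, 0), (0, 0), (0, 0), (0, 0), (0, 0), (0,
    0), (0, 0), (0, 0), (0, 0), (0, 0), (0, 1), (0, 0), (0, 0), (0, 0), (0, 1), (0, 0), (0, 0), (0, 0), (-1, 1), (-1,
    1), (0, 0), (-1, 0), (-1, 1), (0, 0), (0, 0), (0, 0), (0, 0), (0, -1), (0, 0), (0, 0), (0, 0), (0, 0), (0, 0),
    (-1, 1), (-1, 1), (0, 0), (-1, 0), (-1, 0), (0, -1), (0, 0)]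

/-- glued arcs and equations -/
def tor4_3 : TorT :=
  ⟨[(0, 1, true), (0, 3, false), (1, 2, true), (2, 3, false)],
    [([0, 0, 6, 0], 2), ([0, 3, 0, 0], 2), ([1, 1, 1, 1], 2), ([2, 0, 0, 2], 2)]⟩

theorem tor4_3_ok : tor4_3.OK 4 := TT.leaf_ok (T := tt4_3) (by decide +kernel)

end Pool.Agent.Lib_MP_fa6e45
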