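import Pool.Agent.Lib_MP_fa6e45.CT5

/-!
MP_fa6e45_co, stage 5: tables of tori for m = 5 (found by computer) and the proof that they give periodic tilings.
-/

namespace Pool.Agent.Lib_MP_fa6e45

/-- the torus -/
def tt5_0 : TT where
  k := 2
  rf := [false, false]
  tau := [6, 3, 8, 1, 5, 4, 0, 9, 2, 7]
  par := [0, 0]
  stars := [[0, 5, 7], [1, 6, 4], [2, 3, 8, 9]]
  word := [[], [0], [2], [1], [1], [0], [], [3, 1, 2], [3], [3, 0, 2]]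
  rank := [0, 0, 0, 0, 1, 1, 0, 1, 0, 1]
  just := [0, 0, 0, 0, 1, 1, 0, 2, 0, 2]
  gA := 1
  gB := 2
  fin := 0
  sid := [0, 1, 2, 2, 1, 0, 1, 0, 2, 2]
  off := [(0, 0), (0, 0), (0, 0), (-1, 0), (-1, 0), (1, 0), (0, 0), (0, 0), (-1, -1), (0, -1)]

/-- glued arcs and equations -/
def tor5_0 : TorT :=
  ⟨[(0, 1, true), (0, 4, true), (1, 3, true), (2, 3, true), (2, 4, true)],
    [([0, 0, 1, 2, 1], 2), ([0, 2, 0, 0, 1], 2), ([2, 0, 1, 0, 0], 2)]⟩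

theorem tor5_0_ok : tor5_0.OK 5 := TT.leaf_ok (T := tt5_0) (by decide +kernel)

/-- the torus -/
def tt5_1 : TT where
  k := 4
  rf := [false, false, false, false]
  tau := [6, 11, 15, 13, 18, 12, 0, 17, 14, 19, 16, 1, 5, 3, 8, 2, 10, 7, 4, 9]
  par := [0, 0, 1, 2]
  stars := [[0, 18, 7], [1, 6, 12], [2, 11, 16], [3, 15, 9, 14], [4, 13, 5, 19], [8, 17, 10]]
  word := [[], [], [], [3, 0], [3, 0, 2], [], [], [0], [0], [2], [], [], [], [1, 2], [1], [], [], [1], [3, 1, 2], [3]]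
  rank := [0, 0, 0, 1, 2, 1, 0, 2, 0, 0, 1, 0, 1, 1, 0, 0, 1, 2, 2, 0]
  just := [0, 0, 0, 3, 4, 1, 0, 5, 0, 0, 2, 0, 1, 3, 0, 0, 2, 5, 4, 0]
  gA := 8
  gB := 9
  fin := 0
  sid := [0, 1, 2, 3, 4, 4, 1, 0, 5, 3, 5, 2, 1, 4, 3, 3, 2, 5, 0, 4]
  off := [(0, 0), (0, 0), (0, 0), (0, 0), (0, 0), (-1, 1), (0, 0), (0, 0), (0, 0), (0, 1), (-1, 0), (0, 0), (0, 0),
    (-1, 1), (-1, 1), (0, 0), (0, 0), (-1, 0), (-1, 0), (-1, 0)]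

/-- glued arcs and equations -/
def tor5_1 : TorT :=
  ⟨[(0, 1, true), (0, 2, true), (1, 1, true), (2, 2, true), (3, 3, true), (3, 4, true), (4, 4, true)],
    [([0, 2, 1, 0, 0], 2), ([1, 0, 0, 1, 2], 2), ([1, 0, 1, 1, 0], 2)]⟩

theorem tor5_1_ok : tor5_1.OK 5 := TT.leaf_ok (T := tt5_1) (by decide +kernel)

/-- the torus -/
def tt5_2 : TT where
  k := 4
  rf := [false, false, false, false]
  tau := [6, 11, 15, 17, 14, 12, 0, 13, 18, 19, 16, 1, 5, 7, 4, 2, 10, 3, 8, 9]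
  par := [0, 0, 1, 2]
  stars := [[0, 14, 7], [1, 6, 12], [2, 11, 16], [3, 15, 9, 18], [4, 17, 10], [5, 19, 8, 13]]
  word := [[], [], [], [3, 0], [3, 0], [], [], [0, 3], [0], [2], [], [], [], [2, 1], [1, 2], [], [], [1, 2], [1], [3]]
  rank := [0, 0, 0, 1, 2, 1, 0, 2, 0, 0, 1, 0, 1, 2, 2, 0, 1, 1, 0, 0]
  just := [0, 0, 0, 3, 4, 1, 0, 5, 0, 0, 2, 0, 1, 5, 4, 0, 2, 3, 0, 0]
  gA := 8
  gB := 9
  fin := 0
  sid := [0, 1, 2, 3, 4, 5, 1, 0, 5, 3, 4, 2, 1, 5, 0, 3, 2, 4, 3, 5]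
  off := [(0, 0), (0, 0), (0, 0), (0, 0), (0, 0), (0, 0), (0, 0), (0, 0), (1, -1), (0, 1), (-1, 1), (0, 0), (0, 0),
    (0, 0), (-1, 1), (0, 0), (0, 0), (-1, 1), (-1, 1), (0, -1)]

/-- glued arcs and equations -/
def tor5_2 : TorT :=
  ⟨[(0, 1, true), (0, 2, true), (1, 1, true), (2, 3, true), (3, 3, true), (4, 4, true)],
    [([0, 2, 1, 0, 0], 2), ([1, 0, 0, 2, 1], 2), ([1, 0, 1, 0, 1], 2)]⟩

theorem tor5_2_ok : tor5_2.OK 5 := TT.leaf_ok (T := tt5_2) (by decide +kernel)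

/-- the torus -/
def tt5_3 : TT where
  k := 4
  rf := [false, false, true, true]
  tau := [5, 10, 7, 12, 19, 0, 15, 2, 17, 14, 1, 16, 3, 18, 9, 6, 11, 8, 13, 4]
  par := [0, 0, 1, 4]
  stars := [[0, 15, 6], [1, 5, 10], [2, 11, 17, 8], [3, 7, 16, 12], [4, 13, 19], [9, 18, 14]]
  word := [[], [], [0, 3], [3], [], [], [2, 1, 3, 0], [2, 1], [2], [], [], [0], [2], [2], [], [1, 2, 0, 3], [1], [3],
    [3], []]
  rank := [0, 0, 3, 1, 0, 0, 4, 3, 2, 1, 0, 0, 1, 0, 1, 4, 0, 2, 0, 0]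
  just := [0, 0, 2, 4, 0, 0, 3, 2, 5, 1, 0, 0, 4, 0, 1, 3, 0, 5, 0, 0]
  gA := 11
  gB := 13
  fin := 0
  sid := [0, 1, 2, 3, 4, 1, 0, 3, 2, 5, 1, 2, 3, 4, 5, 0, 3, 2, 5, 4]
  off := [(0, 0), (0, 0), (0, 0), (0, 0), (0, 0), (0, 0), (0, 0), (-1, 1), (-1, 1), (0, 0), (0, 0), (0, 0), (0, 1),
    (0, 1), (0, 0), (0, 0), (-1, 1), (-1, 0), (0, -1), (0, 0)]

/-- glued arcs and equations -/
def tor5_3 : TorT :=
  ⟨[(0, 0, true), (0, 1, false), (1, 1, true), (2, 2, true), (2, 3, false), (3, 3, true), (4, 4, false)],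
    [([0, 0, 0, 1, 2], 2), ([0, 1, 2, 1, 0], 2), ([2, 1, 0, 0, 0], 2)]⟩

theorem tor5_3_ok : tor5_3.OK 5 := TT.leaf_ok (T := tt5_3) (by decide +kernel)

/-- the torus -/
def tt5_4 : TT where
  k := 2
  rf := [false, true]
  tau := [2, 7, 0, 5, 9, 3, 8, 1, 6, 4]
  par := [0, 1]
  stars := [[0, 5, 3], [1, 2, 8, 7], [4, 6, 9]]
  word := [[2], [], [3], [0, 3], [0], [2, 1], [2], [], [3], [1]]
  rank := [1, 0, 1, 1, 0, 1, 0, 0, 0, 0]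
  just := [1, 0, 1, 2, 0, 2, 0, 0, 0, 0]
  gA := 4
  gB := 6
  fin := 0
  sid := [0, 1, 1, 0, 2, 0, 2, 1, 1, 2]
  off := [(0, 0), (0, 0), (0, -1), (0, -1), (0, 0), (-1, 0), (-1, 1), (0, 0), (0, -1), (-1, 0)]

/-- glued arcs and equations -/
def tor5_4 : TorT :=
  ⟨[(0, 2, true), (0, 3, false), (1, 2, false), (1, 3, true), (4, 4, false)],
    [([0, 1, 0, 0, 2], 2), ([0, 1, 2, 1, 0], 2), ([2, 0, 0, 1, 0], 2)]⟩

theorem tor5_4_ok : tor5_4.OK 5 := TT.leaf_ok (T := tt5_4) (by decide +kernel)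

/-- the torus -/
def tt5_5 : TT where
  k := 8
  rf := [false, false, false, false, false, false, false, false]
  tau := [5, 12, 18, 21, 28, 0, 27, 23, 16, 13, 25, 34, 1, 9, 35, 36, 8, 22, 2, 33, 31, 3, 17, 7, 38, 10, 39, 6, 4,
    30, 29, 20, 37, 19, 11, 14, 15, 32, 24, 26]
  par := [0, 0, 1, 2, 3, 4, 11, 14]
  stars := [[0, 28, 6], [1, 5, 13], [2, 12, 34, 19], [3, 18, 22], [4, 21, 31, 29], [7, 27, 39, 24], [8, 23, 17], [9,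
    16, 36, 14], [10, 35, 26], [11, 25, 30], [15, 33, 37], [20, 38, 32]]
  word := [[], [], [], [], [], [], [1, 2, 0, 3], [1], [1], [], [3], [], [], [], [], [0], [0], [], [], [], [2], [],
    [], [0], [2, 0], [2], [2], [2, 1, 3, 0], [], [2], [3], [3], [0], [], [], [], [1], [1], [1, 3], [3]]
  rank := [0, 0, 0, 0, 0, 0, 4, 3, 2, 1, 1, 0, 0, 1, 0, 0, 2, 1, 0, 1, 1, 0, 1, 3, 3, 1, 2, 4, 0, 0, 0, 1, 2, 1, 0,
    0, 0, 2, 3, 2]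
  just := [0, 0, 0, 0, 0, 0, 5, 6, 7, 1, 9, 0, 0, 1, 0, 0, 7, 3, 0, 2, 4, 0, 3, 6, 11, 9, 8, 5, 0, 0, 0, 4, 10, 2, 0,
    0, 0, 10, 11, 8]
  gA := 15
  gB := 29
  fin := 0
  sid := [0, 1, 2, 3, 4, 1, 0, 5, 6, 7, 8, 9, 2, 1, 7, 10, 7, 6, 3, 2, 11, 4, 3, 6, 5, 9, 8, 5, 0, 4, 9, 4, 11, 10,
    2, 8, 7, 10, 11, 5]
  off := [(0, 0), (0, 0), (0, 0), (0, 0), (0, 0), (0, 0), (0, 0), (0, 0), (0, 0), (0, 0), (0, 0), (0, 0), (0, 0), (0,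
    0), (0, 0), (0, 0), (1, 0), (1, 0), (0, 0), (0, 0), (0, 0), (0, 0), (0, 0), (1, 0), (1, 0), (0, 1), (0, 1), (0,
    0), (0, 0), (0, 0), (0, 0), (0, -1), (0, -1), (0, 0), (0, 0), (0, 0), (0, 0), (-1, 0), (-1, -1), (0, -1)]

/-- glued arcs and equations -/
def tor5_5 : TorT :=
  ⟨[(0, 0, true), (0, 1, true), (0, 4, true), (1, 2, true), (1, 3, true), (1, 4, true), (2, 2, true), (2, 3, true),
    (3, 4, true)],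
    [([0, 0, 1, 2, 0], 2), ([0, 0, 2, 0, 2], 2), ([0, 2, 0, 0, 2], 2), ([1, 0, 1, 1, 0], 2), ([1, 1, 0, 1, 0], 2),
    ([2, 1, 0, 0, 0], 2)]⟩

theorem tor5_5_ok : tor5_5.OK 5 := TT.leaf_ok (T := tt5_5) (by decide +kernel)

/-- the torus -/
def tt5_6 : TT where
  k := 8
  rf := [false, false, false, false, false, false, false, false]
  tau := [5, 14, 16, 22, 25, 0, 29, 31, 37, 10, 9, 33, 27, 17, 1, 39, 2, 13, 26, 21, 35, 19, 3, 38, 30, 4, 18, 12,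
    32, 6, 24, 7, 28, 11, 36, 20, 34, 8, 23, 15]
  par := [0, 0, 1, 2, 3, 4, 7, 8]
  stars := [[0, 25, 6], [1, 5, 10], [2, 14, 17], [3, 16, 39, 23], [4, 22, 19, 26], [7, 29, 32], [8, 31, 24, 38], [9,
    37, 34, 11], [12, 33, 28], [13, 27, 18], [15, 21, 35], [20, 30, 36]]
  word := [[], [], [], [], [], [], [3, 1, 2, 0], [], [], [], [], [3, 0, 2], [0], [], [], [2], [], [], [0], [0], [1,
    2], [1], [], [2], [2], [], [1], [1], [1, 3, 0, 2], [1, 3, 0, 2], [3], [], [3, 1, 2, 0], [3, 1, 2], [3, 1, 2], [3,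
    0], [3, 0, 2], [], [3], [3]]
  rank := [0, 0, 0, 0, 0, 0, 6, 0, 0, 1, 1, 4, 2, 1, 0, 1, 0, 1, 1, 0, 2, 0, 0, 0, 1, 0, 1, 2, 5, 6, 1, 0, 5, 4, 3,
    2, 3, 0, 0, 1]
  just := [0, 0, 0, 0, 0, 0, 5, 0, 0, 1, 1, 7, 9, 2, 0, 3, 0, 2, 4, 0, 10, 0, 0, 0, 6, 0, 4, 9, 8, 5, 6, 0, 8, 7, 11,
    10, 11, 0, 0, 3]
  gA := 19
  gB := 23
  fin := 0
  sid := [0, 1, 2, 3, 4, 1, 0, 5, 6, 7, 1, 7, 8, 9, 2, 10, 3, 2, 9, 4, 11, 10, 4, 3, 6, 0, 4, 9, 8, 5, 11, 6, 5, 8,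
    7, 10, 11, 7, 6, 3]
  off := [(0, 0), (0, 0), (0, 0), (0, 0), (0, 0), (0, 0), (0, 0), (0, 0), (0, 0), (0, 0), (0, 0), (0, 0), (0, 0), (0,
    0), (0, 0), (0, 0), (0, 0), (0, 0), (0, 0), (1, 0), (0, 0), (-1, 0), (0, 0), (0, 0), (0, 1), (0, 0), (0, 0), (-1,
    0), (-1, 0), (0, 0), (0, -1), (0, 0), (0, 0), (-1, 0), (-1, 0), (0, -1), (1, -1), (0, 0), (0, 0), (0, -1)]

/-- glued arcs and equations -/
def tor5_6 : TorT :=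
  ⟨[(0, 0, true), (0, 4, true), (1, 2, true), (1, 3, true), (1, 4, true), (2, 2, true), (2, 3, true), (3, 3, true)],
    [([0, 0, 1, 2, 0], 2), ([0, 0, 2, 0, 1], 2), ([0, 1, 0, 2, 1], 2), ([0, 1, 1, 0, 2], 2), ([2, 1, 0, 0, 0], 2)]⟩

theorem tor5_6_ok : tor5_6.OK 5 := TT.leaf_ok (T := tt5_6) (by decide +kernel)

/-- the torus -/
def tt5_7 : TT where
  k := 4
  rf := [false, false, true, true]
  tau := [6, 13, 18, 17, 14, 12, 0, 10, 16, 19, 7, 15, 5, 1, 4, 11, 8, 3, 2, 9]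
  par := [0, 0, 1, 2]
  stars := [[0, 10, 7], [1, 6, 13], [2, 14, 4, 18], [3, 19, 9, 17], [5, 15, 12], [8, 11, 16]]
  word := [[], [], [], [3, 0], [3, 0], [], [], [0, 3], [0], [2], [2, 1], [2], [], [], [1, 2], [3], [1], [1, 2], [],
    [3]]
  rank := [0, 0, 0, 1, 2, 1, 0, 3, 0, 0, 3, 2, 1, 0, 2, 2, 0, 1, 0, 0]
  just := [0, 0, 0, 3, 2, 1, 0, 5, 0, 0, 5, 4, 1, 0, 2, 4, 0, 3, 0, 0]
  gA := 8
  gB := 9
  fin := 0
  sid := [0, 1, 2, 3, 2, 4, 1, 0, 5, 3, 0, 5, 4, 1, 2, 4, 5, 3, 2, 3]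
  off := [(0, 0), (0, 0), (0, 0), (0, 0), (1, -1), (0, 0), (0, 0), (0, 0), (0, 0), (0, 1), (-1, 1), (-1, 1), (0, 0),
    (0, 0), (0, 0), (0, -1), (-1, 0), (-1, 1), (0, 0), (0, 0)]

/-- glued arcs and equations -/
def tor5_7 : TorT :=
  ⟨[(0, 1, true), (0, 2, false), (1, 3, false), (2, 3, false), (4, 4, false)],
    [([0, 0, 1, 1, 2], 2), ([0, 2, 0, 1, 0], 2), ([2, 0, 1, 0, 0], 2)]⟩

theorem tor5_7_ok : tor5_7.OK 5 := TT.leaf_ok (T := tt5_7) (by decide +kernel)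

/-- the torus -/
def tt5_8 : TT where
  k := 8
  rf := [false, false, false, false, true, true, true, true]
  tau := [7, 11, 16, 13, 24, 23, 12, 0, 20, 29, 17, 1, 6, 3, 34, 33, 2, 10, 30, 39, 8, 37, 25, 5, 4, 22, 36, 31, 38,
    9, 18, 27, 35, 15, 14, 32, 26, 21, 28, 19]
  par := [0, 0, 1, 2, 4, 9, 14, 19]
  stars := [[0, 20, 8], [1, 7, 12], [2, 11, 17], [3, 16, 34, 14], [4, 13, 6, 24], [5, 25, 23], [9, 21, 38, 29], [10,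
    30, 18], [15, 35, 33], [19, 31, 28, 39], [22, 26, 37], [27, 32, 36]]
  word := [[], [], [], [0], [], [1], [], [], [2, 0, 3, 1], [], [], [], [], [1], [], [0], [], [], [], [], [0, 2, 1,
    3], [0, 2, 1], [0], [0], [], [1], [2, 1], [2], [2], [], [], [3], [1], [1], [], [0], [0, 3], [0, 3, 1], [3], []]
  rank := [0, 0, 0, 1, 0, 2, 1, 0, 5, 0, 1, 0, 1, 1, 0, 0, 0, 1, 2, 0, 5, 4, 3, 2, 0, 3, 2, 0, 3, 0, 2, 0, 1, 0, 0,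
    1, 2, 4, 3, 0]
  just := [0, 0, 0, 3, 0, 4, 1, 0, 6, 0, 2, 0, 1, 3, 0, 0, 0, 2, 7, 0, 6, 10, 5, 4, 0, 5, 11, 0, 9, 0, 7, 0, 8, 0, 0,
    8, 11, 10, 9, 0]
  gA := 15
  gB := 27
  fin := 0
  sid := [0, 1, 2, 3, 4, 5, 4, 1, 0, 6, 7, 2, 1, 4, 3, 8, 3, 2, 7, 9, 0, 6, 10, 5, 4, 5, 10, 11, 9, 6, 7, 9, 11, 8,
    3, 8, 11, 10, 6, 9]
  off := [(0, 0), (0, 0), (0, 0), (0, 0), (0, 0), (0, 0), (-1, 0), (0, 0), (0, 0), (0, 0), (0, 0), (0, 0), (0, 0),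
    (-1, 0), (-1, 0), (0, 0), (0, 0), (0, 0), (0, 0), (0, 0), (0, 0), (0, 0), (0, 0), (1, 0), (0, 0), (0, 0), (-1,
    0), (0, 0), (0, 1), (0, 0), (0, 0), (0, 0), (0, -1), (-1, 0), (-1, 0), (0, 0), (1, -1), (0, -1), (0, -1), (0, 0)]

/-- glued arcs and equations -/
def tor5_8 : TorT :=
  ⟨[(0, 2, true), (0, 3, false), (1, 1, true), (1, 2, true), (3, 3, true), (4, 4, false)],
    [([0, 1, 0, 1, 2], 2), ([0, 1, 2, 0, 0], 2), ([2, 0, 0, 1, 0], 2)]⟩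

theorem tor5_8_ok : tor5_8.OK 5 := TT.leaf_ok (T := tt5_8) (by decide +kernel)

/-- the torus -/
def tt5_9 : TT where
  k := 8
  rf := [false, false, false, false, true, true, true, true]
  tau := [6, 11, 15, 22, 29, 12, 0, 33, 18, 39, 16, 1, 5, 27, 24, 2, 10, 38, 8, 34, 37, 30, 3, 28, 14, 32, 35, 13,
    23, 4, 21, 36, 25, 7, 19, 26, 31, 20, 17, 9]
  par := [0, 0, 1, 2, 3, 4, 7, 9]
  stars := [[0, 25, 33, 7], [1, 6, 12], [2, 11, 16], [3, 15, 30, 22], [4, 23, 29], [5, 35, 27, 13], [8, 34, 19], [9,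
    18, 39], [10, 20, 38, 17], [14, 28, 24], [21, 31, 37], [26, 36, 32]]
  word := [[], [], [], [], [], [], [], [], [0], [], [], [], [], [2], [2], [], [], [1], [1], [1], [3, 1], [1], [], [],
    [3], [3, 0, 2, 1], [3], [3], [], [], [0], [0, 3, 1], [0, 3, 1, 2], [], [0], [2], [0, 2, 1], [0, 2], [0], []]
  rank := [0, 0, 0, 0, 0, 1, 0, 0, 0, 0, 1, 0, 1, 2, 0, 0, 1, 1, 0, 1, 2, 2, 0, 1, 0, 4, 3, 2, 1, 0, 2, 3, 4, 0, 1,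
    3, 3, 2, 1, 0]
  just := [0, 0, 0, 0, 0, 1, 0, 0, 0, 0, 2, 0, 1, 9, 0, 0, 2, 7, 0, 6, 8, 3, 0, 4, 0, 11, 5, 9, 4, 0, 3, 10, 11, 0,
    6, 5, 10, 8, 7, 0]
  gA := 8
  gB := 14
  fin := 0
  sid := [0, 1, 2, 3, 4, 5, 1, 0, 6, 7, 8, 2, 1, 5, 9, 3, 2, 8, 7, 6, 8, 10, 3, 4, 9, 0, 11, 5, 9, 4, 3, 10, 11, 0,
    6, 5, 11, 10, 8, 7]
  off := [(0, 0), (0, 0), (0, 0), (0, 0), (0, 0), (0, 0), (0, 0), (0, 0), (0, 0), (0, 0), (0, 0), (0, 0), (0, 0), (0,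
    0), (0, 0), (0, 0), (0, 0), (0, 0), (-1, 0), (-1, 0), (0, -1), (0, 0), (0, 0), (0, 0), (0, -1), (0, 0), (0, 0),
    (0, -1), (0, -1), (0, 0), (1, 0), (1, 0), (0, 0), (0, 0), (0, 0), (0, 0), (0, 1), (1, 1), (1, 0), (0, 0)]

/-- glued arcs and equations -/
def tor5_9 : TorT :=
  ⟨[(0, 1, true), (0, 2, true), (1, 1, true), (2, 3, false), (3, 3, true), (4, 4, false)],
    [([0, 0, 0, 1, 2], 2), ([0, 2, 1, 0, 0], 2), ([2, 0, 1, 1, 0], 2)]⟩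

theorem tor5_9_ok : tor5_9.OK 5 := TT.leaf_ok (T := tt5_9) (by decide +kernel)

/-- the torus -/
def tt5_10 : TT where
  k := 8
  rf := [false, false, true, false, true, false, true, true]
  tau := [6, 13, 17, 18, 14, 12, 0, 10, 21, 24, 7, 20, 5, 1, 4, 26, 33, 2, 3, 34, 11, 8, 37, 38, 9, 32, 15, 30, 36,
    39, 27, 35, 25, 16, 19, 31, 28, 22, 23, 29]
  par := [0, 0, 1, 2, 8, 15, 16, 22]
  stars := [[0, 10, 7], [1, 6, 13], [2, 14, 4, 18], [3, 17, 34, 19], [5, 20, 12], [8, 11, 21], [9, 22, 38, 24], [15,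
    30, 27], [16, 26, 33], [23, 39, 29, 37], [25, 35, 32], [28, 31, 36]]
  word := [[], [], [], [2, 1], [2, 1], [], [], [1, 2], [], [3, 0], [3, 0], [3, 0], [], [], [0, 3], [], [], [], [0,
    3], [0, 3], [1, 2], [], [], [1, 2], [1, 2], [], [], [0, 3], [0], [2], [2, 1], [2], [], [], [2, 1], [3], [1], [],
    [3, 0], [3]]
  rank := [0, 0, 0, 5, 6, 1, 0, 4, 0, 2, 4, 3, 1, 0, 6, 0, 0, 0, 5, 4, 3, 0, 0, 1, 2, 1, 0, 3, 0, 0, 3, 2, 1, 0, 4,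
    2, 0, 0, 1, 0]
  just := [0, 0, 0, 3, 2, 1, 0, 5, 0, 6, 5, 4, 1, 0, 2, 0, 0, 0, 3, 7, 4, 0, 0, 9, 6, 8, 0, 11, 0, 0, 11, 10, 8, 0,
    7, 10, 0, 0, 9, 0]
  gA := 28
  gB := 29
  fin := 0
  sid := [0, 1, 2, 3, 2, 4, 1, 0, 5, 6, 0, 5, 4, 1, 2, 7, 8, 3, 2, 3, 4, 5, 6, 9, 6, 10, 8, 7, 11, 9, 7, 11, 10, 8,
    3, 10, 11, 9, 6, 9]
  off := [(0, 0), (0, 0), (0, 0), (0, 0), (-1, 1), (0, 0), (0, 0), (0, 0), (0, 0), (0, 0), (1, -1), (1, -1), (0, 0),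
    (0, 0), (0, 0), (0, 0), (0, 0), (0, 0), (0, 0), (1, -1), (-1, 1), (0, 0), (0, 0), (0, 0), (-1, 1), (0, 0), (0,
    0), (0, 0), (0, 0), (1, 0), (-1, 1), (-1, 1), (0, 0), (0, 0), (0, 0), (0, -1), (-1, 0), (0, 0), (0, 0), (1, -1)]

/-- glued arcs and equations -/
def tor5_10 : TorT :=
  ⟨[(0, 1, true), (0, 2, false), (1, 3, false), (2, 2, true), (3, 3, true), (4, 4, false)],
    [([0, 0, 1, 1, 2], 2), ([0, 2, 0, 1, 0], 2), ([2, 0, 1, 0, 0], 2)]⟩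

theorem tor5_10_ok : tor5_10.OK 5 := TT.leaf_ok (T := tt5_10) (by decide +kernel)

/-- the torus -/
def tt5_11 : TT where
  k := 8
  rf := [false, false, false, false, true, true, true, true]
  tau := [6, 11, 15, 24, 18, 12, 0, 17, 14, 28, 16, 1, 5, 34, 8, 2, 10, 7, 4, 38, 37, 25, 32, 39, 3, 21, 36, 30, 9,
    33, 27, 35, 22, 29, 13, 31, 26, 20, 19, 23]
  par := [0, 0, 1, 2, 3, 9, 13, 19]
  stars := [[0, 18, 7], [1, 6, 12], [2, 11, 16], [3, 15, 39, 24], [4, 20, 38, 19], [5, 29, 34, 13], [8, 17, 10], [9,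
    14, 30, 28], [21, 26, 37], [22, 33, 25], [23, 35, 32], [27, 31, 36]]
  word := [[], [], [], [], [3, 0, 2], [], [], [0], [0], [], [], [], [], [], [1], [], [], [1], [3, 1, 2], [], [3, 0,
    2], [3], [3], [], [], [2], [0, 2], [0], [], [], [1], [2], [2], [], [], [3], [3, 1], [3, 1, 2], [], []]
  rank := [0, 0, 0, 0, 5, 1, 0, 2, 1, 0, 1, 0, 1, 0, 1, 0, 1, 2, 5, 0, 4, 3, 2, 1, 0, 3, 1, 0, 0, 2, 0, 0, 2, 2, 0,
    0, 1, 4, 0, 1]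
  just := [0, 0, 0, 0, 4, 1, 0, 6, 7, 0, 2, 0, 1, 0, 7, 0, 2, 6, 4, 0, 8, 9, 10, 3, 0, 9, 11, 0, 0, 5, 0, 0, 10, 5,
    0, 0, 11, 8, 0, 3]
  gA := 27
  gB := 31
  fin := 0
  sid := [0, 1, 2, 3, 4, 5, 1, 0, 6, 7, 6, 2, 1, 5, 7, 3, 2, 6, 0, 4, 4, 8, 9, 10, 3, 9, 8, 11, 7, 5, 7, 11, 10, 9,
    5, 10, 11, 8, 4, 3]
  off := [(0, 0), (0, 0), (0, 0), (0, 0), (0, 0), (0, 0), (0, 0), (0, 0), (0, 0), (0, 0), (-1, 0), (0, 0), (0, 0),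
    (0, 0), (-1, 0), (0, 0), (0, 0), (-1, 0), (-1, 0), (-1, 0), (0, 0), (0, 0), (0, 0), (0, 0), (0, 0), (0, 1), (0,
    1), (0, 0), (0, 0), (0, 0), (-1, 0), (-1, 0), (0, 1), (0, 1), (0, 0), (0, 0), (-1, -1), (-1, 0), (-1, 0), (0, 0)]

/-- glued arcs and equations -/
def tor5_11 : TorT :=
  ⟨[(0, 1, true), (0, 2, true), (1, 1, true), (2, 2, true), (3, 4, false), (3, 4, true)],
    [([0, 2, 1, 0, 0], 2), ([1, 0, 0, 1, 2], 2), ([1, 0, 1, 1, 0], 2)]⟩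

theorem tor5_11_ok : tor5_11.OK 5 := TT.leaf_ok (T := tt5_11) (by decide +kernel)

/-- the torus -/
def tt5_12 : TT where
  k := 8
  rf := [false, true, false, true, false, true, true, false]
  tau := [6, 12, 8, 15, 24, 23, 0, 26, 2, 19, 33, 25, 1, 27, 39, 3, 20, 31, 22, 9, 16, 37, 18, 5, 4, 11, 7, 13, 35,
    34, 36, 17, 38, 10, 29, 28, 30, 21, 32, 14]
  par := [0, 0, 1, 3, 4, 7, 10, 14]
  stars := [[0, 24, 6], [1, 7, 27, 13], [2, 12, 26, 8], [3, 9, 15], [4, 16, 20], [5, 23, 19], [10, 39, 33], [11, 34,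
    25], [14, 28, 35], [17, 32, 38, 21], [18, 22, 37, 31], [29, 30, 36]]
  word := [[], [], [3], [], [], [2, 0, 3, 1], [], [], [2], [2], [], [3], [], [], [], [], [], [0], [0, 3, 1], [3], [],
    [0], [0, 2, 1], [0, 2, 1, 3], [], [2], [], [], [], [2], [3], [1], [], [], [3], [], [2], [1], [], []]
  rank := [0, 0, 2, 0, 0, 5, 0, 0, 2, 3, 0, 1, 0, 1, 0, 0, 1, 2, 4, 3, 1, 0, 4, 5, 0, 1, 0, 1, 2, 0, 3, 2, 1, 0, 0,
    2, 3, 0, 1, 0]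
  just := [0, 0, 2, 0, 0, 5, 0, 0, 2, 3, 0, 7, 0, 1, 0, 0, 4, 9, 10, 3, 4, 0, 10, 5, 0, 7, 0, 1, 8, 0, 11, 9, 6, 0,
    0, 8, 11, 0, 6, 0]
  gA := 21
  gB := 29
  fin := 0
  sid := [0, 1, 2, 3, 4, 5, 0, 1, 2, 3, 6, 7, 2, 1, 8, 3, 4, 9, 10, 5, 4, 9, 10, 5, 0, 7, 2, 1, 8, 11, 11, 10, 9, 6,
    7, 8, 11, 10, 9, 6]
  off := [(0, 0), (0, 0), (0, 0), (0, 0), (0, 0), (0, 0), (0, 0), (0, 0), (0, 1), (0, 1), (0, 0), (0, 0), (0, 0), (0,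
    0), (0, 0), (0, 0), (0, 0), (0, 0), (0, 0), (0, -1), (0, 0), (0, 0), (0, 1), (0, 0), (0, 0), (0, 1), (0, 1), (0,
    0), (0, 0), (0, 0), (0, -1), (-1, 0), (-1, 0), (0, 0), (0, 0), (0, 0), (0, 0), (-1, 1), (-1, 0), (0, 0)]

/-- glued arcs and equations -/
def tor5_12 : TorT :=
  ⟨[(0, 1, false), (0, 3, false), (1, 2, true), (2, 3, false), (4, 4, true)],
    [([0, 1, 2, 1, 0], 2), ([1, 0, 0, 1, 1], 2), ([1, 1, 0, 0, 1], 2)]⟩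

theorem tor5_12_ok : tor5_12.OK 5 := TT.leaf_ok (T := tt5_12) (by decide +kernel)

/-- the torus -/
def tt5_13 : TT where
  k := 8
  rf := [false, true, true, true, false, false, false, true]
  tau := [6, 12, 8, 15, 24, 23, 0, 26, 2, 19, 33, 25, 1, 27, 39, 3, 20, 31, 22, 9, 16, 37, 18, 5, 4, 11, 7, 13, 35,
    34, 36, 17, 38, 10, 29, 28, 30, 21, 32, 14]
  par := [0, 0, 1, 3, 4, 7, 10, 14]
  stars := [[0, 24, 6], [1, 7, 26, 12], [2, 13, 27, 8], [3, 9, 15], [4, 16, 20], [5, 23, 19], [10, 33, 39], [11, 25,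
    34], [14, 35, 28], [17, 31, 37, 21], [18, 22, 38, 32], [29, 36, 30]]
  word := [[], [], [3], [], [], [2, 0, 3, 1], [], [], [2], [2], [], [], [], [3], [], [], [], [0, 3], [0, 3, 1], [3],
    [], [0], [0, 2, 1], [0, 2, 1, 3], [], [], [], [2], [2], [], [2], [2, 1], [], [], [], [3], [3], [1], [], []]
  rank := [0, 0, 2, 0, 0, 6, 0, 0, 2, 3, 0, 1, 0, 1, 0, 0, 1, 4, 5, 3, 1, 0, 5, 6, 0, 1, 0, 1, 0, 2, 3, 4, 1, 0, 2,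
    0, 3, 0, 1, 0]
  just := [0, 0, 2, 0, 0, 5, 0, 0, 2, 3, 0, 1, 0, 8, 0, 0, 4, 9, 10, 3, 4, 0, 10, 5, 0, 1, 0, 8, 0, 7, 11, 9, 6, 0,
    7, 0, 11, 0, 6, 0]
  gA := 21
  gB := 28
  fin := 0
  sid := [0, 1, 2, 3, 4, 5, 0, 1, 2, 3, 6, 7, 1, 2, 8, 3, 4, 9, 10, 5, 4, 9, 10, 5, 0, 7, 1, 2, 8, 11, 11, 9, 10, 6,
    7, 8, 11, 9, 10, 6]
  off := [(0, 0), (0, 0), (0, 0), (0, 0), (0, 0), (0, 0), (0, 0), (0, 0), (0, 1), (0, 1), (0, 0), (0, 0), (0, 0), (0,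
    0), (0, 0), (0, 0), (0, 0), (0, 0), (0, 0), (0, -1), (0, 0), (0, 0), (0, 1), (0, 0), (0, 0), (0, 0), (0, 0), (0,
    1), (0, 1), (0, 0), (0, 0), (-1, 1), (-1, 1), (0, 0), (0, 0), (0, 0), (0, -1), (-1, 0), (-1, 1), (0, 0)]

/-- glued arcs and equations -/
def tor5_13 : TorT :=
  ⟨[(0, 1, false), (0, 3, false), (1, 2, false), (2, 3, false), (4, 4, true)],
    [([0, 0, 2, 2, 0], 2), ([0, 2, 2, 0, 0], 2), ([1, 0, 0, 1, 1], 2), ([1, 1, 0, 0, 1], 2)]⟩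

theorem tor5_13_ok : tor5_13.OK 5 := TT.leaf_ok (T := tt5_13) (by decide +kernel)

/-- the torus -/
def tt5_14 : TT where
  k := 8
  rf := [false, false, false, true, true, true, true, false]
  tau := [6, 11, 18, 13, 24, 22, 0, 20, 27, 34, 36, 1, 23, 3, 19, 37, 25, 35, 2, 14, 7, 30, 5, 12, 4, 16, 31, 8, 33,
    39, 21, 26, 38, 28, 9, 17, 10, 15, 32, 29]
  par := [0, 0, 1, 2, 4, 8, 9, 10]
  stars := [[0, 20, 7], [1, 6, 23, 12], [2, 11, 36, 18], [3, 19, 14], [4, 13, 24], [5, 30, 22], [8, 21, 31, 27], [9,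
    28, 34], [10, 15, 37], [16, 26, 32, 38], [17, 35, 25], [29, 39, 33]]
  word := [[], [], [], [0], [], [1], [], [2, 0, 3, 1], [], [], [], [], [1], [1], [1], [0], [3], [], [], [0], [0, 2,
    1, 3], [0], [0], [0], [], [2], [2, 0, 3], [], [], [2], [1], [2, 1, 3], [2], [], [], [], [], [1], [3], [3]]
  rank := [0, 0, 0, 0, 0, 2, 0, 4, 0, 0, 0, 0, 1, 0, 1, 2, 2, 1, 0, 1, 4, 3, 2, 1, 0, 2, 3, 0, 1, 0, 3, 3, 2, 1, 0,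
    1, 0, 2, 2, 0]
  just := [0, 0, 0, 0, 0, 1, 0, 6, 0, 0, 0, 0, 4, 0, 3, 8, 10, 2, 0, 3, 6, 5, 1, 4, 0, 10, 9, 0, 7, 0, 5, 9, 11, 7,
    0, 2, 0, 8, 11, 0]
  gA := 3
  gB := 29
  fin := 0
  sid := [0, 1, 2, 3, 4, 5, 1, 0, 6, 7, 8, 2, 1, 4, 3, 8, 9, 10, 2, 3, 0, 6, 5, 1, 4, 10, 9, 6, 7, 11, 5, 6, 9, 11,
    7, 10, 2, 8, 9, 11]
  off := [(0, 0), (0, 0), (0, 0), (0, 0), (0, 0), (0, 0), (0, 0), (0, 0), (0, 0), (0, 0), (0, 0), (0, 0), (0, 0),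
    (-1, 0), (-1, 0), (1, 0), (0, 0), (0, 0), (0, 0), (0, 0), (0, 0), (0, 0), (1, 0), (1, 0), (0, 0), (0, 1), (0, 1),
    (0, 0), (0, 0), (0, 0), (0, 0), (-1, 0), (-1, 1), (0, 0), (0, 0), (0, 0), (0, 0), (0, 0), (-1, 0), (0, -1)]

/-- glued arcs and equations -/
def tor5_14 : TorT :=
  ⟨[(0, 1, true), (0, 2, false), (1, 1, true), (2, 3, false), (3, 3, true), (4, 4, false)],
    [([0, 0, 0, 1, 2], 2), ([0, 2, 1, 1, 0], 2), ([2, 0, 1, 0, 0], 2)]⟩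

theorem tor5_14_ok : tor5_14.OK 5 := TT.leaf_ok (T := tt5_14) (by decide +kernel)

/-- the torus -/
def tt5_15 : TT where
  k := 12
  rf := [false, false, false, false, false, false, false, false, false, false, false, false]
  tau := [5, 10, 19, 20, 26, 0, 25, 34, 35, 11, 1, 9, 23, 41, 47, 46, 54, 43, 21, 2, 3, 18, 42, 12, 39, 6, 4, 38, 56,
    52, 51, 49, 58, 36, 7, 8, 33, 57, 27, 24, 48, 13, 22, 17, 59, 50, 15, 14, 40, 31, 45, 30, 29, 55, 16, 53, 28, 37,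
    32, 44]
  par := [0, 0, 1, 2, 3, 4, 7, 8, 13, 14, 16, 28]
  stars := [[0, 26, 6], [1, 5, 11], [2, 10, 47, 15], [3, 19, 21], [4, 20, 39, 27], [7, 25, 52, 30], [8, 34, 36], [9,
    35, 24, 12], [13, 23, 42], [14, 41, 48], [16, 46, 50], [17, 54, 55, 44], [18, 43, 22], [28, 38, 57], [29, 56,
    53], [31, 51, 45], [32, 49, 40, 59], [33, 58, 37]]
  word := [[], [], [], [], [], [], [1, 3, 0, 2], [], [], [], [], [], [1], [], [], [], [], [0], [], [], [], [], [0],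
    [0], [0], [3, 1, 2, 0], [], [0], [], [3, 1], [1, 3], [1, 3], [1], [], [], [], [], [1], [1], [1], [], [], [1],
    [1], [2], [], [], [], [], [2, 0], [], [2, 0], [0, 2], [0, 2], [], [3, 1], [], [0], [0], [3]]
  rank := [0, 0, 0, 0, 0, 0, 7, 0, 0, 1, 0, 1, 2, 0, 0, 1, 0, 4, 1, 0, 0, 1, 3, 2, 0, 7, 0, 1, 0, 6, 5, 4, 3, 1, 0,
    0, 1, 2, 1, 0, 1, 0, 3, 4, 0, 2, 1, 0, 1, 4, 2, 5, 6, 5, 0, 5, 0, 2, 3, 0]
  just := [0, 0, 0, 0, 0, 0, 5, 0, 0, 1, 0, 1, 7, 0, 0, 2, 0, 12, 3, 0, 0, 3, 8, 7, 0, 5, 0, 4, 0, 14, 15, 16, 17, 6,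
    0, 0, 6, 13, 4, 0, 9, 0, 8, 12, 0, 10, 2, 0, 9, 16, 10, 15, 14, 11, 0, 11, 0, 13, 17, 0]
  gA := 24
  gB := 44
  fin := 0
  sid := [0, 1, 2, 3, 4, 1, 0, 5, 6, 7, 2, 1, 7, 8, 9, 2, 10, 11, 12, 3, 4, 3, 12, 8, 7, 5, 0, 4, 13, 14, 5, 15, 16,
    17, 6, 7, 6, 17, 13, 4, 16, 9, 8, 12, 11, 15, 10, 2, 9, 16, 10, 15, 5, 14, 11, 11, 14, 13, 17, 16]
  off := [(0, 0), (0, 0), (0, 0), (0, 0), (0, 0), (0, 0), (0, 0), (0, 0), (0, 0), (0, 0), (0, 0), (0, 0), (0, 0), (0,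
    0), (0, 0), (0, 0), (0, 0), (0, 0), (0, 0), (0, 0), (0, 0), (0, 0), (0, 0), (1, 0), (1, 0), (0, 0), (0, 0), (0,
    0), (0, 0), (0, 0), (0, 0), (0, 0), (0, 0), (0, 0), (0, 0), (0, 0), (0, 0), (0, 0), (-1, 0), (-1, 0), (1, 1), (0,
    0), (0, 0), (-1, 0), (-1, 0), (1, 1), (0, 0), (0, 0), (0, 0), (1, 1), (0, 0), (1, 1), (1, 1), (1, 1), (0, 0),
    (-1, -1), (0, 0), (0, 0), (1, 0), (1, 0)]

/-- glued arcs and equations -/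
def tor5_15 : TorT :=
  ⟨[(0, 0, true), (0, 1, true), (0, 3, true), (1, 3, true), (1, 4, true), (2, 2, true), (2, 3, true), (2, 4, true),
    (4, 4, true)],
    [([0, 0, 1, 2, 0], 2), ([0, 1, 0, 1, 1], 2), ([1, 0, 1, 0, 2], 2), ([1, 2, 0, 0, 0], 2), ([2, 0, 2, 0, 0], 2)]⟩

theorem tor5_15_ok : tor5_15.OK 5 := TT.leaf_ok (T := tt5_15) (by decide +kernel)

end Pool.Agent.Lib_MP_fa6e45
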