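import Pool.Agent.Lib_MP_fa6e45.CT5

/-!
MP_fa6e45_co, stage 5: tables of tori for m = 6 (found by computer) and the proof that they give periodic tilings.
-/

namespace Pool.Agent.Lib_MP_fa6e45

/-- the torus -/
def tt6_0 : TT where
  k := 2
  rf := [false, false]
  tau := [3, 9, 10, 0, 6, 7, 4, 5, 11, 1, 2, 8]
  par := [0, 1]
  stars := [[0, 7, 4], [1, 3, 10], [2, 9, 11], [5, 6, 8]]
  word := [[3], [], [2], [2], [0, 2], [0], [3, 1], [1], [2], [], [3], [3]]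
  rank := [2, 0, 1, 2, 1, 0, 1, 0, 0, 0, 1, 0]
  just := [1, 0, 2, 1, 3, 0, 3, 0, 0, 0, 2, 0]
  gA := 5
  gB := 8
  fin := 0
  sid := [0, 1, 2, 1, 0, 3, 3, 0, 3, 2, 1, 2]
  off := [(0, 0), (0, 0), (0, 0), (0, 1), (0, 1), (0, 0), (-1, -1), (-1, 0), (-1, 0), (0, 0), (0, 0), (0, -1)]

/-- glued arcs and equations -/
def tor6_0 : TorT :=
  ⟨[(0, 3, true), (0, 4, true), (1, 3, true), (1, 5, true), (2, 4, true), (2, 5, true)],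
    [([0, 0, 1, 1, 0, 1], 2), ([0, 1, 0, 1, 1, 0], 2), ([1, 0, 1, 0, 0, 1], 2), ([1, 1, 0, 0, 1, 0], 2)]⟩

theorem tor6_0_ok : tor6_0.OK 6 := TT.leaf_ok (T := tt6_0) (by decide +kernel)

/-- the torus -/
def tt6_1 : TT where
  k := 4
  rf := [false, false, false, false]
  tau := [7, 13, 18, 10, 20, 17, 14, 0, 16, 21, 3, 23, 19, 1, 6, 22, 8, 5, 2, 12, 4, 9, 15, 11]
  par := [0, 0, 1, 2]
  stars := [[0, 17, 8], [1, 7, 14], [2, 13, 19], [3, 18, 11], [4, 10, 21], [5, 20, 12], [6, 23, 15], [9, 16, 22]]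
  word := [[], [], [], [3], [3, 0], [3, 0], [], [], [0, 3], [0], [2], [2], [], [], [], [2], [2, 1], [1, 2], [], [],
    [1, 2], [1], [3], [3]]
  rank := [0, 0, 0, 1, 2, 3, 1, 0, 3, 0, 1, 0, 1, 0, 1, 2, 3, 3, 0, 1, 2, 0, 2, 0]
  just := [0, 0, 0, 3, 4, 5, 1, 0, 7, 0, 3, 0, 2, 0, 1, 6, 7, 5, 0, 2, 4, 0, 6, 0]
  gA := 9
  gB := 11
  fin := 0
  sid := [0, 1, 2, 3, 4, 5, 6, 1, 0, 7, 4, 3, 5, 2, 1, 6, 7, 0, 3, 2, 5, 4, 7, 6]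
  off := [(0, 0), (0, 0), (0, 0), (0, 0), (0, 0), (0, 0), (0, 0), (0, 0), (0, 0), (0, 0), (0, 1), (0, 1), (-1, 1),
    (0, 0), (0, 0), (0, 0), (-1, 1), (-1, 1), (0, 0), (0, 0), (-1, 1), (-1, 1), (-1, 0), (0, -1)]

/-- glued arcs and equations -/
def tor6_1 : TorT :=
  ⟨[(0, 1, true), (0, 2, true), (1, 1, true), (2, 4, true), (3, 3, true), (3, 4, true), (5, 5, true)],
    [([0, 0, 0, 1, 2, 0], 2), ([0, 2, 1, 0, 0, 0], 2), ([1, 0, 0, 1, 0, 1], 2), ([1, 0, 1, 0, 0, 1], 2)]⟩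

theorem tor6_1_ok : tor6_1.OK 6 := TT.leaf_ok (T := tt6_1) (by decide +kernel)

/-- the torus -/
def tt6_2 : TT where
  k := 2
  rf := [false, true]
  tau := [9, 4, 7, 6, 1, 10, 3, 2, 11, 0, 5, 8]
  par := [0, 0]
  stars := [[0, 11, 9], [1, 10, 5], [2, 4, 7], [3, 8, 6]]
  word := [[], [0, 3], [0], [2], [2, 1], [2, 1], [3], [1], [1, 2], [], [0, 3], [3, 0]]
  rank := [0, 1, 0, 0, 1, 2, 0, 0, 1, 0, 2, 1]
  just := [0, 2, 0, 0, 2, 1, 0, 0, 3, 0, 1, 3]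
  gA := 2
  gB := 3
  fin := 0
  sid := [0, 1, 2, 3, 2, 1, 3, 2, 3, 0, 1, 0]
  off := [(0, 0), (0, 0), (0, 0), (0, 0), (-1, 1), (-1, 1), (0, -1), (-1, 0), (-1, 0), (0, 0), (0, 0), (1, -1)]

/-- glued arcs and equations -/
def tor6_2 : TorT :=
  ⟨[(0, 3, false), (1, 2, false), (1, 4, true), (2, 5, true), (4, 5, false)],
    [([0, 1, 0, 0, 1, 1], 2), ([0, 1, 1, 0, 1, 0], 2), ([1, 0, 0, 1, 0, 1], 2), ([1, 0, 1, 1, 0, 0], 2)]⟩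

theorem tor6_2_ok : tor6_2.OK 6 := TT.leaf_ok (T := tt6_2) (by decide +kernel)

/-- the torus -/
def tt6_3 : TT where
  k := 4
  rf := [false, true, true, false]
  tau := [7, 15, 20, 10, 12, 23, 22, 0, 14, 19, 3, 17, 4, 18, 8, 1, 21, 11, 13, 9, 2, 16, 6, 5]
  par := [0, 0, 1, 2]
  stars := [[0, 23, 7], [1, 8, 15], [2, 16, 21], [3, 20, 10], [4, 11, 12], [5, 13, 18], [6, 22, 17], [9, 19, 14]]
  word := [[], [], [], [1], [1, 2], [1, 2, 0], [2], [], [], [0], [0], [2], [3, 0], [0], [], [], [], [3], [1], [1],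
    [], [], [3], [1, 3, 0]]
  rank := [0, 0, 0, 1, 2, 3, 2, 0, 1, 0, 1, 0, 2, 2, 1, 0, 1, 0, 2, 0, 0, 1, 2, 3]
  just := [0, 0, 0, 3, 4, 5, 6, 0, 1, 0, 3, 0, 4, 7, 1, 0, 2, 0, 7, 0, 0, 2, 6, 5]
  gA := 9
  gB := 11
  fin := 0
  sid := [0, 1, 2, 3, 4, 5, 6, 0, 1, 7, 3, 4, 4, 5, 7, 1, 2, 6, 5, 7, 3, 2, 6, 0]
  off := [(0, 0), (0, 0), (0, 0), (0, 0), (0, 0), (0, 0), (0, 0), (0, 0), (0, 0), (0, 0), (1, 0), (1, 0), (1, -1),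
    (1, -1), (0, 0), (0, 0), (0, 0), (0, -1), (0, -1), (-1, 0), (0, 0), (0, 0), (0, -1), (0, -1)]

/-- glued arcs and equations -/
def tor6_3 : TorT :=
  ⟨[(0, 1, false), (0, 4, false), (1, 3, false), (2, 2, true), (3, 4, false), (5, 5, true)],
    [([0, 0, 1, 1, 1, 0], 2), ([0, 1, 1, 1, 0, 0], 2), ([1, 0, 0, 0, 1, 1], 2), ([1, 1, 0, 0, 0, 1], 2)]⟩

theorem tor6_3_ok : tor6_3.OK 6 := TT.leaf_ok (T := tt6_3) (by decide +kernel)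

/-- the torus -/
def tt6_4 : TT where
  k := 2
  rf := [false, true]
  tau := [3, 9, 8, 0, 6, 11, 4, 10, 2, 1, 7, 5]
  par := [0, 1]
  stars := [[0, 6, 4], [1, 3, 9], [2, 10, 8], [5, 7, 11]]
  word := [[2], [], [3], [3], [0, 3], [0], [2, 1], [2], [2], [], [3], [1]]
  rank := [2, 0, 1, 2, 1, 0, 1, 0, 1, 0, 0, 0]
  just := [1, 0, 2, 1, 3, 0, 3, 0, 2, 0, 0, 0]
  gA := 5
  gB := 7
  fin := 0
  sid := [0, 1, 2, 1, 0, 3, 0, 3, 2, 1, 2, 3]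
  off := [(0, 0), (0, 0), (0, 0), (0, -1), (0, -1), (0, 0), (-1, 0), (-1, 1), (0, 1), (0, 0), (0, 0), (-1, 0)]

/-- glued arcs and equations -/
def tor6_4 : TorT :=
  ⟨[(0, 3, true), (0, 4, false), (1, 3, false), (1, 4, true), (2, 2, false), (5, 5, false)],
    [([0, 0, 2, 0, 1, 0], 2), ([0, 1, 0, 0, 0, 2], 2), ([0, 1, 0, 2, 0, 0], 2), ([2, 0, 0, 0, 1, 0], 2)]⟩

theorem tor6_4_ok : tor6_4.OK 6 := TT.leaf_ok (T := tt6_4) (by decide +kernel)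

/-- the torus -/
def tt6_5 : TT where
  k := 4
  rf := [false, false, true, true]
  tau := [6, 12, 20, 9, 15, 23, 0, 18, 14, 3, 21, 17, 1, 19, 8, 4, 22, 11, 7, 13, 2, 10, 16, 5]
  par := [0, 0, 1, 2]
  stars := [[0, 18, 7], [1, 6, 12], [2, 13, 20], [3, 21, 10], [4, 9, 15], [5, 16, 23], [8, 19, 14], [11, 22, 17]]
  word := [[], [], [], [3], [3, 0], [3, 0, 2], [], [0], [0], [2], [2], [], [], [], [1], [1, 2], [2], [], [1], [], [],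
    [3], [3], [3, 1, 2]]
  rank := [0, 0, 0, 1, 2, 3, 0, 2, 0, 1, 0, 1, 0, 1, 0, 2, 2, 1, 2, 1, 0, 0, 2, 3]
  just := [0, 0, 0, 3, 4, 5, 0, 6, 0, 3, 0, 1, 0, 2, 0, 4, 7, 1, 6, 2, 0, 0, 7, 5]
  gA := 8
  gB := 10
  fin := 0
  sid := [0, 1, 2, 3, 4, 5, 1, 0, 6, 4, 3, 7, 1, 2, 6, 4, 5, 7, 0, 6, 2, 3, 7, 5]
  off := [(0, 0), (0, 0), (0, 0), (0, 0), (0, 0), (0, 0), (0, 0), (0, 0), (0, 0), (0, 1), (0, 1), (0, 0), (0, 0), (0,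
    0), (-1, 0), (-1, 1), (-1, 1), (0, 0), (-1, 0), (-1, 0), (0, 0), (0, 0), (0, -1), (-1, 0)]

/-- glued arcs and equations -/
def tor6_5 : TorT :=
  ⟨[(0, 0, true), (0, 1, false), (1, 1, true), (2, 2, false), (3, 3, true), (3, 4, false), (4, 4, true), (5, 5,
    false)],
    [([0, 0, 0, 0, 1, 2], 2), ([0, 0, 0, 2, 1, 0], 2), ([0, 1, 2, 0, 0, 0], 2), ([2, 1, 0, 0, 0, 0], 2)]⟩

theorem tor6_5_ok : tor6_5.OK 6 := TT.leaf_ok (T := tt6_5) (by decide +kernel)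

/-- the torus -/
def tt6_6 : TT where
  k := 4
  rf := [false, false, false, false]
  tau := [6, 14, 18, 9, 17, 21, 0, 20, 12, 3, 23, 15, 8, 19, 1, 11, 22, 4, 2, 13, 7, 5, 16, 10]
  par := [0, 0, 1, 2]
  stars := [[0, 21, 7], [1, 6, 15], [2, 14, 19], [3, 18, 10], [4, 9, 12], [5, 17, 22], [8, 20, 13], [11, 23, 16]]
  word := [[], [], [], [3], [3, 0], [3, 0, 2], [], [0], [0], [2], [2], [], [1], [], [], [], [2], [1, 2], [], [], [1],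
    [3, 1, 2], [3], [3]]
  rank := [0, 0, 0, 1, 2, 3, 0, 2, 0, 1, 0, 1, 0, 1, 0, 1, 2, 2, 0, 1, 2, 3, 2, 0]
  just := [0, 0, 0, 3, 4, 5, 0, 6, 0, 3, 0, 1, 0, 2, 0, 1, 7, 4, 0, 2, 6, 5, 7, 0]
  gA := 8
  gB := 10
  fin := 0
  sid := [0, 1, 2, 3, 4, 5, 1, 0, 6, 4, 3, 7, 4, 6, 2, 1, 7, 5, 3, 2, 6, 0, 5, 7]
  off := [(0, 0), (0, 0), (0, 0), (0, 0), (0, 0), (0, 0), (0, 0), (0, 0), (0, 0), (0, 1), (0, 1), (0, 0), (-1, 1),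
    (-1, 0), (0, 0), (0, 0), (0, 0), (-1, 1), (0, 0), (0, 0), (-1, 0), (-1, 0), (-1, 0), (0, -1)]

/-- glued arcs and equations -/
def tor6_6 : TorT :=
  ⟨[(0, 0, true), (0, 2, true), (1, 1, true), (1, 2, true), (3, 3, true), (3, 5, true), (4, 4, true), (4, 5, true)],
    [([0, 0, 0, 0, 1, 2], 2), ([0, 1, 2, 0, 0, 0], 2), ([1, 0, 0, 1, 1, 0], 2), ([1, 1, 0, 1, 0, 0], 2)]⟩

theorem tor6_6_ok : tor6_6.OK 6 := TT.leaf_ok (T := tt6_6) (by decide +kernel)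

/-- the torus -/
def tt6_7 : TT where
  k := 4
  rf := [false, false, false, false]
  tau := [6, 14, 18, 16, 10, 21, 0, 20, 12, 22, 4, 15, 8, 19, 1, 11, 3, 23, 2, 13, 7, 5, 9, 17]
  par := [0, 0, 1, 2]
  stars := [[0, 21, 7], [1, 6, 15], [2, 14, 19], [3, 18, 17], [4, 16, 11], [5, 10, 22], [8, 20, 13], [9, 12, 23]]
  word := [[], [], [], [3], [3], [3, 0, 2], [], [0], [0], [0, 2], [2], [], [1], [], [], [], [2], [2], [], [], [1],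
    [3, 1, 2], [3, 1], [3]]
  rank := [0, 0, 0, 1, 2, 3, 0, 2, 0, 1, 2, 1, 0, 1, 0, 1, 1, 0, 0, 1, 2, 3, 1, 0]
  just := [0, 0, 0, 3, 4, 5, 0, 6, 0, 7, 4, 1, 0, 2, 0, 1, 3, 0, 0, 2, 6, 5, 7, 0]
  gA := 8
  gB := 17
  fin := 0
  sid := [0, 1, 2, 3, 4, 5, 1, 0, 6, 7, 5, 4, 7, 6, 2, 1, 4, 3, 3, 2, 6, 0, 5, 7]
  off := [(0, 0), (0, 0), (0, 0), (0, 0), (0, 0), (0, 0), (0, 0), (0, 0), (0, 0), (0, 0), (0, 1), (0, 1), (-1, 0),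
    (-1, 0), (0, 0), (0, 0), (0, 1), (0, 1), (0, 0), (0, 0), (-1, 0), (-1, 0), (-1, 0), (-1, -1)]

/-- glued arcs and equations -/
def tor6_7 : TorT :=
  ⟨[(0, 0, true), (0, 2, true), (1, 1, true), (1, 2, true), (3, 4, true), (3, 5, true), (4, 4, true), (5, 5, true)],
    [([0, 0, 0, 0, 2, 1], 2), ([0, 1, 2, 0, 0, 0], 2), ([1, 0, 0, 1, 0, 1], 2), ([1, 1, 0, 1, 0, 0], 2)]⟩

theorem tor6_7_ok : tor6_7.OK 6 := TT.leaf_ok (T := tt6_7) (by decide +kernel)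

/-- the torus -/
def tt6_8 : TT where
  k := 4
  rf := [false, false, true, true]
  tau := [8, 17, 21, 11, 19, 13, 22, 16, 0, 14, 18, 3, 20, 5, 9, 23, 7, 1, 10, 4, 12, 2, 6, 15]
  par := [0, 0, 1, 2]
  stars := [[0, 14, 9], [1, 8, 17], [2, 12, 21], [3, 22, 6], [4, 11, 19], [5, 20, 13], [7, 23, 16], [10, 15, 18]]
  word := [[], [], [], [1], [1, 2], [1, 2], [0], [], [], [2, 1], [2], [0], [], [3, 0], [0, 3], [0], [], [], [3], [3,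
    0], [], [], [1], [1]]
  rank := [0, 0, 0, 1, 2, 3, 0, 1, 0, 3, 0, 1, 1, 3, 3, 2, 1, 0, 0, 2, 1, 0, 0, 2]
  just := [0, 0, 0, 3, 4, 5, 0, 1, 0, 7, 0, 3, 2, 5, 7, 6, 1, 0, 0, 4, 2, 0, 0, 6]
  gA := 6
  gB := 10
  fin := 0
  sid := [0, 1, 2, 3, 4, 5, 3, 6, 1, 0, 7, 4, 2, 5, 0, 7, 6, 1, 7, 4, 5, 2, 3, 6]
  off := [(0, 0), (0, 0), (0, 0), (0, 0), (0, 0), (0, 0), (1, 0), (0, 0), (0, 0), (0, 0), (0, 0), (1, 0), (0, 0), (1,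
    -1), (1, -1), (1, -1), (0, 0), (0, 0), (0, -1), (1, -1), (1, -1), (0, 0), (0, 0), (-1, 0)]

/-- glued arcs and equations -/
def tor6_8 : TorT :=
  ⟨[(0, 2, true), (0, 4, false), (1, 4, false), (1, 5, false), (2, 3, false), (3, 5, true)],
    [([0, 1, 0, 0, 1, 1], 2), ([0, 1, 1, 0, 0, 1], 2), ([1, 0, 0, 1, 1, 0], 2), ([1, 0, 1, 1, 0, 0], 2)]⟩

theorem tor6_8_ok : tor6_8.OK 6 := TT.leaf_ok (T := tt6_8) (by decide +kernel)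

/-- the torus -/
def tt6_9 : TT where
  k := 4
  rf := [false, false, true, true]
  tau := [11, 16, 7, 22, 13, 20, 21, 2, 17, 18, 15, 0, 23, 4, 19, 10, 1, 8, 9, 14, 5, 6, 3, 12]
  par := [0, 0, 1, 3]
  stars := [[0, 21, 6], [1, 11, 16], [2, 17, 8], [3, 7, 22], [4, 23, 13], [5, 14, 20], [9, 12, 18], [10, 19, 15]]
  word := [[], [], [1], [], [3, 0], [3, 0, 2], [0], [0], [0], [2], [], [], [1, 2], [1, 2], [2], [], [], [1], [3],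
    [3], [3, 1, 2], [1], [], [3, 0]]
  rank := [0, 0, 1, 0, 2, 3, 2, 1, 0, 0, 1, 0, 1, 2, 2, 1, 0, 0, 0, 2, 3, 2, 0, 1]
  just := [0, 0, 2, 0, 4, 5, 3, 2, 0, 0, 1, 0, 6, 4, 7, 1, 0, 0, 0, 7, 5, 3, 0, 6]
  gA := 8
  gB := 9
  fin := 0
  sid := [0, 1, 2, 3, 4, 5, 0, 3, 2, 6, 7, 1, 6, 4, 5, 7, 1, 2, 6, 7, 5, 0, 3, 4]
  off := [(0, 0), (0, 0), (0, 0), (0, 0), (0, 0), (0, 0), (0, 0), (1, 0), (1, 0), (0, 0), (0, 0), (0, 0), (-1, 0),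
    (-1, 1), (-1, 1), (0, 0), (0, 0), (0, 0), (0, -1), (0, -1), (-1, 0), (-1, 0), (0, 0), (0, 0)]

/-- glued arcs and equations -/
def tor6_9 : TorT :=
  ⟨[(0, 3, false), (0, 5, true), (1, 2, true), (1, 4, false), (2, 5, false), (3, 4, false)],
    [([0, 0, 2, 0, 0, 1], 2), ([0, 1, 0, 0, 1, 1], 2), ([0, 1, 0, 1, 1, 0], 2), ([2, 0, 0, 1, 0, 0], 2)]⟩

theorem tor6_9_ok : tor6_9.OK 6 := TT.leaf_ok (T := tt6_9) (by decide +kernel)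

/-- the torus -/
def tt6_10 : TT where
  k := 4
  rf := [false, false, true, true]
  tau := [3, 8, 9, 0, 17, 16, 23, 10, 1, 2, 7, 18, 15, 20, 21, 12, 5, 4, 11, 22, 13, 14, 19, 6]
  par := [0, 1, 4, 6]
  stars := [[0, 17, 4], [1, 3, 9], [2, 8, 10], [5, 12, 16], [6, 19, 23], [7, 18, 11], [13, 21, 15], [14, 22, 20]]
  word := [[3], [], [2], [2], [], [0, 3, 1], [], [2], [], [3], [3], [3], [0, 3, 1], [0, 3], [0], [0, 2, 1], [0, 2,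
    1], [], [2], [2], [2, 1], [1], [3], []]
  rank := [4, 0, 3, 4, 0, 3, 0, 2, 0, 3, 2, 1, 2, 1, 0, 2, 3, 0, 1, 0, 1, 0, 0, 0]
  just := [1, 0, 2, 1, 0, 3, 0, 5, 0, 2, 5, 4, 6, 7, 0, 6, 3, 0, 4, 0, 7, 0, 0, 0]
  gA := 14
  gB := 19
  fin := 0
  sid := [0, 1, 2, 1, 0, 3, 4, 5, 2, 1, 2, 5, 3, 6, 7, 6, 3, 0, 5, 4, 7, 6, 7, 4]
  off := [(0, 0), (0, 0), (0, 0), (0, 1), (0, 1), (0, 0), (0, 0), (0, 0), (0, 0), (0, 0), (0, -1), (0, -1), (0, 0),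
    (0, 0), (0, 0), (0, 1), (0, 1), (0, 1), (0, 0), (0, 1), (-1, 1), (-1, 1), (-1, 0), (0, 0)]

/-- glued arcs and equations -/
def tor6_10 : TorT :=
  ⟨[(0, 3, true), (0, 5, false), (1, 2, true), (1, 4, true), (2, 3, true), (4, 5, false)],
    [([0, 0, 2, 0, 1, 0], 2), ([0, 1, 0, 2, 0, 0], 2), ([1, 0, 0, 0, 1, 1], 2), ([1, 1, 0, 0, 0, 1], 2)]⟩

theorem tor6_10_ok : tor6_10.OK 6 := TT.leaf_ok (T := tt6_10) (by decide +kernel)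

/-- the torus -/
def tt6_11 : TT where
  k := 8
  rf := [false, false, false, false, true, true, true, true]
  tau := [8, 13, 19, 28, 16, 35, 33, 14, 0, 30, 39, 47, 20, 1, 7, 34, 4, 29, 27, 2, 12, 24, 45, 41, 21, 44, 36, 18,
    3, 17, 9, 38, 42, 6, 15, 5, 26, 43, 31, 10, 46, 23, 32, 37, 25, 22, 40, 11]
  par := [0, 0, 1, 2, 3, 5, 10, 11]
  stars := [[0, 30, 9], [1, 8, 14], [2, 13, 20], [3, 19, 28], [4, 29, 17], [5, 16, 35], [6, 42, 33], [7, 34, 15],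
    [10, 31, 39], [11, 40, 47], [12, 24, 21], [18, 36, 27], [22, 25, 45], [23, 46, 41], [26, 37, 44], [32, 43, 38]]
  word := [[], [], [], [], [1], [], [0], [], [], [3, 1, 2, 0], [], [], [], [], [], [0], [0], [0], [], [], [], [0],
    [2], [2], [1], [1, 2], [2], [], [], [1], [1, 3, 0, 2], [1, 3, 0, 2], [1], [1], [1], [], [3], [3, 1, 2], [3, 1, 2,
    0], [], [], [3], [0], [3, 0, 2], [3, 0], [3], [], []]
  rank := [0, 0, 0, 0, 1, 0, 3, 1, 0, 6, 0, 0, 1, 0, 1, 2, 1, 0, 1, 0, 1, 2, 2, 0, 2, 3, 2, 1, 0, 0, 6, 5, 4, 3, 2,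
    0, 2, 4, 5, 0, 1, 0, 4, 4, 3, 2, 1, 0]
  just := [0, 0, 0, 0, 4, 0, 7, 1, 0, 8, 0, 0, 2, 0, 1, 5, 4, 0, 3, 0, 2, 10, 13, 0, 10, 12, 11, 3, 0, 0, 8, 15, 6,
    7, 5, 0, 11, 14, 15, 0, 9, 0, 6, 14, 12, 13, 9, 0]
  gA := 17
  gB := 23
  fin := 0
  sid := [0, 1, 2, 3, 4, 5, 6, 7, 1, 0, 8, 9, 10, 2, 1, 7, 5, 4, 11, 3, 2, 10, 12, 13, 10, 12, 14, 11, 3, 4, 0, 8,
    15, 6, 7, 5, 11, 14, 15, 8, 9, 13, 6, 15, 14, 12, 13, 9]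
  off := [(0, 0), (0, 0), (0, 0), (0, 0), (0, 0), (0, 0), (0, 0), (0, 0), (0, 0), (0, 0), (0, 0), (0, 0), (0, 0), (0,
    0), (0, 0), (0, 0), (1, 0), (1, 0), (0, 0), (0, 0), (0, 0), (0, 0), (0, 0), (0, 0), (-1, 0), (-1, 0), (0, 0), (0,
    0), (0, 0), (0, 0), (0, 0), (0, 0), (0, 0), (-1, 0), (-1, 0), (0, 0), (0, -1), (0, -1), (0, 0), (0, 0), (0, 0),
    (0, -1), (0, 0), (1, 0), (1, -1), (0, -1), (0, -1), (0, 0)]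

/-- glued arcs and equations -/
def tor6_11 : TorT :=
  ⟨[(0, 2, true), (0, 3, false), (1, 1, true), (1, 2, true), (3, 4, false), (4, 4, true), (5, 5, false)],
    [([0, 0, 0, 0, 1, 2], 2), ([0, 1, 0, 1, 1, 0], 2), ([0, 1, 2, 0, 0, 0], 2), ([2, 0, 0, 1, 0, 0], 2)]⟩

theorem tor6_11_ok : tor6_11.OK 6 := TT.leaf_ok (T := tt6_11) (by decide +kernel)

end Pool.Agent.Lib_MP_fa6e45
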