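import Pool.Agent.Lib_MP_fa6e45.CS0
import Pool.Agent.Lib_MP_fa6e45.CT4

/-!
MP_fa6e45_co, stage 5: leaves with several copies of the tile, from the torus theorem: `TT.leaf` is the check that the
table `T` proves `Q.OK`.
-/

open Set MeasureTheory Complex
open scoped Topology

namespace Pool.Agent.Lib_MP_fa6e45

/-- the equation of a star: the sum of the angles is `2` -/
def starEq (m : ℕ) (s : List ℕ) : Eqn :=
  ((List.range m).map fun i => ((s.countP fun c => c % m == i : ℕ) : ℤ), (2 : ℤ))

/-- the table `T` proves the leaf `Q` -/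
def TT.leaf (T : TT) (m : ℕ) (Q : TorT) : Bool :=
  T.chk m &&
  ((List.range (T.k * m)).all fun x =>
    Q.glue.contains (x % m, T.ta x % m, T.rfc m x == T.rfc m (T.ta x)) ||
    Q.glue.contains (T.ta x % m, x % m, T.rfc m x == T.rfc m (T.ta x))) &&
  (T.stars.all fun s => Q.eqs.contains (starEq m s))

variable {m : ℕ} [NeZero m]

theorem starEq_holds {b : ZMod m → ℝ} (s : List ℕ) (h : Eqn.Holds (starEq m s) b) :
    (s.map fun c => b ((c : ℕ) : ZMod m)).sum = 2 := by
  have hm : 0 < m := Nat.pos_of_ne_zero (NeZero.ne m)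
  have key : ∀ s : List ℕ, (s.map fun c => b ((c : ℕ) : ZMod m)).sum =
      ∑ i : ZMod m, ((s.countP fun c => c % m == i.val : ℕ) : ℝ) * b i := by
    intro s
    induction s with
    | nil => simp
    | cons c s ih =>
      rw [List.map_cons, List.sum_cons, ih]
      have h1 : ∀ i : ZMod m, (((c :: s).countP fun c => c % m == i.val : ℕ) : ℝ) * b i =
          (if i = (c : ZMod m) then b i else 0) +
            ((s.countP fun c => c % m == i.val : ℕ) : ℝ) * b i := by
        intro i
        rw [List.countP_cons]
        by_cases hi : i = (c : ZMod m)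
        · subst hi
          rw [ZMod.val_natCast]
          simp
          ring
        · have h2 : ¬ (c % m = i.val) := fun h2 => hi (by
            rw [← ZMod.natCast_zmod_val i, ← h2, ZMod.natCast_mod])
          simp [hi, h2]
      rw [Finset.sum_congr rfl fun i _ => h1 i, Finset.sum_add_distrib]
      simp
  rw [key s]
  unfold Eqn.Holds starEq at h
  simp only at h
  have h3 : ∀ i : ZMod m, ((((List.range m).map fun i =>
      ((s.countP fun c => c % m == i : ℕ) : ℤ)).getD i.val 0 : ℤ) : ℝ) =
      ((s.countP fun c => c % m == i.val : ℕ) : ℝ) := by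
    intro i
    have hi := ZMod.val_lt i
    rw [List.getD_eq_getElem _ _ (by simpa using hi)]
    simp
  simp only [h3] at h
  rw [h]
  norm_num

theorem TT.leaf_ok {T : TT} {Q : TorT} (h : T.leaf m Q = true) : Q.OK m := by
  intro n P S b hc hb hg hE
  simp only [leaf, Bool.and_eq_true, List.all_eq_true, List.mem_range, Bool.or_eq_true,
    List.contains_iff_mem] at h
  obtain ⟨⟨h1, h2⟩, h3⟩ := h
  refine T.torus S h1 hc hb ?_ fun s hs => starEq_holds s (hE _ (h3 s hs))
  intro x hx
  rcases h2 x hx with h4 | h4
  · have h5 := hg _ h4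
    simpa only [ZMod.natCast_mod] using h5
  · have h5 := hg _ h4
    simp only [ZMod.natCast_mod] at h5
    exact S.rel_symm h5

end Pool.Agent.Lib_MP_fa6e45
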