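import Pool.Agent.Lib_MP_fa6e45.CA9
import Pool.Agent.Lib_MP_fa6e45.CT5
import Pool.Agent.Lib_MP_fa6e45.Y5

/-!
MP_fa6e45_co, stage 5 (constant status of the corners): the leaf `F_c` for six arcs which fit pairwise as direct
neighbours.
-/

open Set MeasureTheory Complex
open scoped Topology

namespace Pool.Agent.Lib_MP_fa6e45

/-- the flat `F_c` -/
def torFc : TorT where
  glue := [(0, 0, true), (0, 1, true), (0, 2, true), (0, 3, true), (0, 4, true), (0, 5, true), (1, 1,
    true), (1, 2, true), (1, 3, true), (1, 4, true), (1, 5, true), (2, 2, true), (2, 3, true),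
    (2, 4, true), (2, 5, true), (3, 3, true), (3, 4, true), (3, 5, true), (4, 4, true), (4, 5,
    true), (5, 5, true)]
  eqs := [([3, 0, 0, 0, -6, 0], -2), ([0, 3, 0, 0, 3, 0], 4), ([0, 0, 1, 0, 2, 0], 2),
    ([0, 0, 0, 3, 0, 0], 2), ([0, 0, 0, 0, 0, 3], 2)]

theorem torFc_ok : torFc.OK 6 := by
  intro n P S b hc hb hg hE
  have hmem : ∀ j k : Fin 6, j.val ≤ k.val → (j.val, k.val, true) ∈ torFc.glue := by decide
  have hp0 : ∀ j k : ZMod 6, j.val ≤ k.val → S.Rel j k true := by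
    intro j k hjk
    have h := hg (j.val, k.val, true) (hmem j k hjk)
    simp only [ZMod.natCast_zmod_val] at h
    exact h
  have hp : ∀ j k, S.Plus j k := by
    intro j k
    rcases le_total j.val k.val with h | h
    · exact hp0 j k h
    · exact S.rel_symm (hp0 k j h)
  have sum6 : ∀ f : ZMod 6 → ℝ, ∑ i, f i = f 0 + f 1 + f 2 + f 3 + f 4 + f 5 :=
    fun f => Fin.sum_univ_six f
  have h1 := hE ([3, 0, 0, 0, -6, 0], -2) (by simp [torFc])
  have h2 := hE ([0, 3, 0, 0, 3, 0], 4) (by simp [torFc])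
  have h3 := hE ([0, 0, 1, 0, 2, 0], 2) (by simp [torFc])
  have h4 := hE ([0, 0, 0, 3, 0, 0], 2) (by simp [torFc])
  have h5 := hE ([0, 0, 0, 0, 0, 3], 2) (by simp [torFc])
  have v0 : (0 : ZMod 6).val = 0 := rfl
  have v1 : (1 : ZMod 6).val = 1 := rfl
  have v2 : (2 : ZMod 6).val = 2 := rfl
  have v3 : (3 : ZMod 6).val = 3 := rfl
  have v4 : (4 : ZMod 6).val = 4 := rfl
  have v5 : (5 : ZMod 6).val = 5 := rfl
  unfold Eqn.Holds at h1 h2 h3 h4 h5
  simp only [sum6, v0, v1, v2, v3, v4, v5] at h1 h2 h3 h4 h5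
  simp [List.getD] at h1 h2 h3 h4 h5
  exact fc_periodic P S b hc hb hp (by linarith) (by linarith) (by linarith) (by linarith)
    (by linarith)

end Pool.Agent.Lib_MP_fa6e45
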