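import Pool.Agent.Lib_MP_fa6e45.CSTT
import Pool.Agent.Lib_MP_fa6e45.CS9a
import Pool.Agent.Lib_MP_fa6e45.CS9b
import Pool.Agent.Lib_MP_fa6e45.CS9c
import Pool.Agent.Lib_MP_fa6e45.CS9f

/-!
MP_fa6e45_co, stage 5: the leaves with several copies of the tile in a lattice cell are all right (tables of `CSTT`).
-/

namespace Pool.Agent.Lib_MP_fa6e45

theorem tt3_ok : ∀ T ∈ tt3, T.OK 3 := by simp [tt3]

theorem tt4_eq : tt4 = [tor4_0, tor4_1, tor4_2, tor4_3] := rfl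

theorem tt4_ok : ∀ T ∈ tt4, T.OK 4 := by
  intro T hT
  rw [tt4_eq] at hT
  simp only [List.mem_cons, List.not_mem_nil, or_false] at hT
  rcases hT with rfl | rfl | rfl | rfl
  · exact tor4_0_ok
  · exact tor4_1_ok
  · exact tor4_2_ok
  · exact tor4_3_ok

theorem tt5_eq : tt5 = [tor5_0, tor5_1, tor5_2, tor5_3, tor5_4, tor5_5, tor5_6, tor5_7, tor5_8, tor5_9, tor5_10,
    tor5_11, tor5_12, tor5_13, tor5_14, tor5_15] := rfl

theorem tt5_ok : ∀ T ∈ tt5, T.OK 5 := by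
  intro T hT
  rw [tt5_eq] at hT
  simp only [List.mem_cons, List.not_mem_nil, or_false] at hT
  rcases hT with rfl | rfl | rfl | rfl | rfl | rfl | rfl | rfl | rfl | rfl | rfl | rfl | rfl | rfl | rfl | rfl
  · exact tor5_0_ok
  · exact tor5_1_ok
  · exact tor5_2_ok
  · exact tor5_3_ok
  · exact tor5_4_ok
  · exact tor5_5_ok
  · exact tor5_6_ok
  · exact tor5_7_ok
  · exact tor5_8_ok
  · exact tor5_9_ok
  · exact tor5_10_ok
  · exact tor5_11_ok
  · exact tor5_12_ok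
  · exact tor5_13_ok
  · exact tor5_14_ok
  · exact tor5_15_ok

theorem tt6_eq : tt6 = [tor6_0, tor6_1, tor6_2, tor6_3, tor6_4, tor6_5, tor6_6, tor6_7, tor6_8, tor6_9, tor6_10,
    tor6_11, torFc] := rfl

theorem tt6_ok : ∀ T ∈ tt6, T.OK 6 := by
  intro T hT
  rw [tt6_eq] at hT
  simp only [List.mem_cons, List.not_mem_nil, or_false] at hT
  rcases hT with rfl | rfl | rfl | rfl | rfl | rfl | rfl | rfl | rfl | rfl | rfl | rfl | rfl
  · exact tor6_0_ok
  · exact tor6_1_ok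
  · exact tor6_2_ok
  · exact tor6_3_ok
  · exact tor6_4_ok
  · exact tor6_5_ok
  · exact tor6_6_ok
  · exact tor6_7_ok
  · exact tor6_8_ok
  · exact tor6_9_ok
  · exact tor6_10_ok
  · exact tor6_11_ok
  · exact torFc_ok

end Pool.Agent.Lib_MP_fa6e45
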