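import Pool.Agent.Lib_MP_fa6e45.CG3_0
import Pool.Agent.Lib_MP_fa6e45.CG4_0
import Pool.Agent.Lib_MP_fa6e45.CG5_0
import Pool.Agent.Lib_MP_fa6e45.CG5_1
import Pool.Agent.Lib_MP_fa6e45.CG5_2
import Pool.Agent.Lib_MP_fa6e45.CG5_3
import Pool.Agent.Lib_MP_fa6e45.CG6_0
import Pool.Agent.Lib_MP_fa6e45.CG6_1
import Pool.Agent.Lib_MP_fa6e45.CG6_2
import Pool.Agent.Lib_MP_fa6e45.CG6_3
import Pool.Agent.Lib_MP_fa6e45.CG6_4
import Pool.Agent.Lib_MP_fa6e45.CG6_5
import Pool.Agent.Lib_MP_fa6e45.CG6_6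
import Pool.Agent.Lib_MP_fa6e45.CG6_7
import Pool.Agent.Lib_MP_fa6e45.CG6_8
import Pool.Agent.Lib_MP_fa6e45.CG6_9
import Pool.Agent.Lib_MP_fa6e45.CG6_10
import Pool.Agent.Lib_MP_fa6e45.CG6_11
import Pool.Agent.Lib_MP_fa6e45.CG6_12
import Pool.Agent.Lib_MP_fa6e45.CG6_13
import Pool.Agent.Lib_MP_fa6e45.CG6_14
import Pool.Agent.Lib_MP_fa6e45.CG6_15
import Pool.Agent.Lib_MP_fa6e45.CG6_16
import Pool.Agent.Lib_MP_fa6e45.CG6_17
import Pool.Agent.Lib_MP_fa6e45.CSTab
import Pool.Agent.Lib_MP_fa6e45.CS7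
import Pool.Agent.Lib_MP_fa6e45.CS9

/-!
MP_fa6e45_co, stage 5: all patterns of the tables are solved (captain).
-/

namespace Pool.Agent.Lib_MP_fa6e45

/-- the certificates solve their patterns -/
theorem cg_sound {m : ℕ} [NeZero m] (hm : 3 ≤ m) (hm' : m ≤ 6) {tt : List TorT}
    (htt : ∀ T ∈ tt, T.OK m) {L : List CertT} {tab : List ℕ}
    (hL : ∀ C ∈ L, chkC m tt C = true) (ht : tab = L.map fun C => encW C.w) :
    ∀ x ∈ tab, NodeT m (decW m x) [] := by
  intro x hx
  rw [ht] at hx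
  obtain ⟨C, hC, rfl⟩ := List.mem_map.1 hx
  have h := chkC_sound hm hm' htt (hL C hC)
  rw [← h.1]
  intro n P S b M h1 h2
  exact h.2 P S b M h1 h2

theorem cg_all {m : ℕ} [NeZero m] {tt : List TorT} {L : List CertT}
    (h : allF (chkC m tt) L = true) : ∀ C ∈ L, chkC m tt C = true := by
  rw [allF_eq] at h
  exact List.all_eq_true.1 h

/-- all certificates for `3` arcs -/
noncomputable def lT3 : List CertT :=
  lT3_0

theorem lT3_ok : ∀ C ∈ lT3, chkC 3 tt3 C = true := by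
  unfold lT3
  exact cg_all gT3_0

theorem tabT3_eq : tabT3 = lT3.map fun C => encW C.w := by
  decide +kernel

/-- all patterns with `3` arcs are solved -/
theorem certT3 : ∀ x ∈ tabT3, NodeT 3 (decW 3 x) [] :=
  cg_sound (by norm_num) (by norm_num) tt3_ok lT3_ok tabT3_eq

/-- all certificates for `4` arcs -/
noncomputable def lT4 : List CertT :=
  lT4_0

theorem lT4_ok : ∀ C ∈ lT4, chkC 4 tt4 C = true := by
  unfold lT4
  exact cg_all gT4_0

theorem tabT4_eq : tabT4 = lT4.map fun C => encW C.w := by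
  decide +kernel

/-- all patterns with `4` arcs are solved -/
theorem certT4 : ∀ x ∈ tabT4, NodeT 4 (decW 4 x) [] :=
  cg_sound (by norm_num) (by norm_num) tt4_ok lT4_ok tabT4_eq

/-- all certificates for `5` arcs -/
noncomputable def lT5 : List CertT :=
  lT5_0 ++ (lT5_1 ++ (lT5_2 ++ lT5_3))

theorem lT5_ok : ∀ C ∈ lT5, chkC 5 tt5 C = true := by
  unfold lT5
  intro C hC
  rcases List.mem_append.1 hC with hC | hC
  · exact cg_all gT5_0 C hC
  rcases List.mem_append.1 hC with hC | hC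
  · exact cg_all gT5_1 C hC
  rcases List.mem_append.1 hC with hC | hC
  · exact cg_all gT5_2 C hC
  exact cg_all gT5_3 C hC

theorem tabT5_eq : tabT5 = lT5.map fun C => encW C.w := by
  decide +kernel

/-- all patterns with `5` arcs are solved -/
theorem certT5 : ∀ x ∈ tabT5, NodeT 5 (decW 5 x) [] :=
  cg_sound (by norm_num) (by norm_num) tt5_ok lT5_ok tabT5_eq

/-- all certificates for `6` arcs -/
noncomputable def lT6 : List CertT :=
  lT6_0 ++ (lT6_1 ++ (lT6_2 ++ (lT6_3 ++ (lT6_4 ++ (lT6_5 ++ (lT6_6 ++ (lT6_7 ++ (lT6_8 ++ (lT6_9 ++ (lT6_10 ++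
    (lT6_11 ++ (lT6_12 ++ (lT6_13 ++ (lT6_14 ++ (lT6_15 ++ (lT6_16 ++ lT6_17))))))))))))))))

theorem lT6_ok : ∀ C ∈ lT6, chkC 6 tt6 C = true := by
  unfold lT6
  intro C hC
  rcases List.mem_append.1 hC with hC | hC
  · exact cg_all gT6_0 C hC
  rcases List.mem_append.1 hC with hC | hC
  · exact cg_all gT6_1 C hC
  rcases List.mem_append.1 hC with hC | hC
  · exact cg_all gT6_2 C hC
  rcases List.mem_append.1 hC with hC | hC
  · exact cg_all gT6_3 C hC
  rcases List.mem_append.1 hC with hC | hC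
  · exact cg_all gT6_4 C hC
  rcases List.mem_append.1 hC with hC | hC
  · exact cg_all gT6_5 C hC
  rcases List.mem_append.1 hC with hC | hC
  · exact cg_all gT6_6 C hC
  rcases List.mem_append.1 hC with hC | hC
  · exact cg_all gT6_7 C hC
  rcases List.mem_append.1 hC with hC | hC
  · exact cg_all gT6_8 C hC
  rcases List.mem_append.1 hC with hC | hC
  · exact cg_all gT6_9 C hC
  rcases List.mem_append.1 hC with hC | hC
  · exact cg_all gT6_10 C hC
  rcases List.mem_append.1 hC with hC | hC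
  · exact cg_all gT6_11 C hC
  rcases List.mem_append.1 hC with hC | hC
  · exact cg_all gT6_12 C hC
  rcases List.mem_append.1 hC with hC | hC
  · exact cg_all gT6_13 C hC
  rcases List.mem_append.1 hC with hC | hC
  · exact cg_all gT6_14 C hC
  rcases List.mem_append.1 hC with hC | hC
  · exact cg_all gT6_15 C hC
  rcases List.mem_append.1 hC with hC | hC
  · exact cg_all gT6_16 C hC
  exact cg_all gT6_17 C hC

theorem tabT6_eq : tabT6 = lT6.map fun C => encW C.w := by
  decide +kernel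

/-- all patterns with `6` arcs are solved -/
theorem certT6 : ∀ x ∈ tabT6, NodeT 6 (decW 6 x) [] :=
  cg_sound (by norm_num) (by norm_num) tt6_ok lT6_ok tabT6_eq

end Pool.Agent.Lib_MP_fa6e45
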