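import Pool.Agent.Lib_MP_fa6e45.G20

/-!
MP_fa6e45_co, stage 9: linear programming nodes with a table of the accepted numbers of corners.

The accepted numbers `cv` of corners are the digits in base `2 ^ 32` of a number, at the places `cv mod p`.
-/

namespace Pool.Agent.Lib_MP_fa6e45

/-- `K` of the number with the digits `cv` at the places `cv mod p` (the places are different) -/
noncomputable def tabH (p : ℕ) (K : ℕ → Bool) (l : List ℕ) : ℕ → Bool :=
  List.rec (motive := fun _ => ℕ → Bool) (fun S => K S)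
    (fun cv _ ih S => bif Nat.beq (dg 32 S (Nat.mod cv p)) 0 then
      (bif Nat.blt cv 4294967296 then
        fQ (Nat.add S (Nat.mul cv (Nat.pow 2 (Nat.mul 32 (Nat.mod cv p))))) ih else false) else false) l

/-- accepted closed walks: one corner, or numbers of corners in the table -/
noncomputable def accH (p S cnt len : ℕ) : Bool :=
  bif Nat.ble len 1 then true else Nat.beq (dg 32 S (Nat.mod cnt p)) cnt

/-- search for closed walks from `c` -/
noncomputable def srH (u n L fuel W Hs : ℕ) (acc : ℕ → ℕ → Bool) (c : ℕ) : Bool :=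
  fQ n fun n => fQ Hs fun Hs => fQ (dg u Hs c) fun h0 => fQ (Nat.sub Hs (Nat.mul h0 (Nat.pow 2 (Nat.mul u c)))) fun Hc =>
  fQ (Nat.pow 2 (Nat.mul u n)) fun K => fQ (onQ u n) fun on => fQ (Nat.pow 2 (Nat.sub u 1)) fun U =>
  fQ (Nat.mul U on) fun G => fQ (Nat.pow 2 u) fun V => fQ (ixQ u n) fun ix =>
    bif hbQ u n W Hs Hc on G K c then
      dfsQ n W Hc h0 on G ix V U K c acc fuel c L (Nat.pow 16 (Nat.div c 2)) 1 else false

/-- the linear programming node is correct -/
noncomputable def lpH (m : ℕ) (st : List (ℕ × ℕ × ℕ × ℕ × ℕ × ℕ)) (u L fuel al be W H p : ℕ)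
    (cvg : List (List ℕ)) : Bool :=
  Nat.ble 4 u && Nat.blt L (Nat.pow 2 (Nat.sub u 2)) && Nat.ble fuel 15 &&
  smQ u (Nat.mul (Nat.mul 2 m) (Nat.mul 2 m)) W && smQ u (Nat.mul (Nat.mul 2 m) (Nat.mul 2 m)) H &&
  wtQ m L al be && allF (pairQ u W al be) st &&
  allN (fun j => tabH p (fun S =>
    bif srH u (Nat.mul 2 m) L fuel W (rwQ H (Nat.pow 2 (Nat.mul u (Nat.mul 2 m))) (Nat.mul 2 j)) (accH p S)
      (Nat.mul 2 j) then
      srH u (Nat.mul 2 m) L fuel W (rwQ H (Nat.pow 2 (Nat.mul u (Nat.mul 2 m))) (Nat.succ (Nat.mul 2 j)))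
        (accH p S) (Nat.succ (Nat.mul 2 j)) else false) (nthF [] cvg j) 0) m

/-- nodes: linear programming nodes with tables, or other nodes -/
inductive QI (α : Type)
  | l (u L fuel al be W H q p : ℕ) (cvg : List (List ℕ)) (ch : List HQ)
  | h (N : QH α)

/-- check of node `i` -/
noncomputable def chkI {α : Type} (ck : (ℕ → List Eqn) → ℕ → α → Bool) (m : ℕ) (w : List ℕ) (C : ℕ)
    (sy : List (Bool × ℕ × List ℕ)) (st : List (ℕ × ℕ × ℕ × ℕ × ℕ × ℕ)) (D : ℕ → List (ℕ × ℕ)) (i : ℕ)
    (N : QI α) : Bool :=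
  match N with
    | QI.l u L fuel al be W H q p cvg ch =>
        lpH m st u L fuel al be W H p cvg && Nat.ble q 20 && Nat.blt (D i).length 13 &&
          chQ m q sy D i (eq0Q m :: D i) cvg.flatten ch
    | QI.h N => chkH ck m w C sy st D i N

end Pool.Agent.Lib_MP_fa6e45
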