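import Pool.Agent.Lib_MP_fa6e45.CS6

/-!
MP_fa6e45_co, stage 9: the closing relation (compare `dr_c6`, `sum_c6`, `close_c6` in CS6, which are private there).
-/

open Set MeasureTheory Complex
open scoped Topology

namespace Pool.Agent.Lib_MP_fa6e45

variable {n : ℕ} {P : Polygon n} {m : ℕ} [NeZero m]

/-- sum of the outer angles at the corners `1, .., j` (angles `a` in units of `π`) -/
noncomputable def phQ (a : ZMod m → ℝ) (j : ℕ) : ℝ :=
  ∑ s ∈ Finset.range j, (Real.pi * (1 - a ((s + 1 : ℕ) : ZMod m)))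

private theorem dr_gq2 (S : Arcs P m) (hm : 2 ≤ m) {a : ZMod m → ℝ} (hch : S.ChordAng a) (j : ℕ) :
    S.ch (j : ZMod m) / (‖S.ch (j : ZMod m)‖ : ℂ) =
      S.ch 0 / (‖S.ch 0‖ : ℂ) * gz (phQ a j) := by
  induction j with
  | zero =>
    unfold phQ
    rw [Finset.range_zero, Finset.sum_empty, gz_zero, mul_one, Nat.cast_zero]
  | succ j ih =>
    have h1 : phQ a (j + 1) = phQ a j + Real.pi * (1 - a ((j + 1 : ℕ) : ZMod m)) := by
      unfold phQ
      rw [Finset.sum_range_succ]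
    rw [h1, gz_add, ← mul_assoc, ← ih]
    have h2 := hch.dir hm (j : ZMod m)
    have h3 : ((j + 1 : ℕ) : ZMod m) = (j : ZMod m) + 1 := by push_cast; rfl
    rw [h3]
    exact h2

private theorem sum_gq2 (S : Arcs P m) : ∑ j ∈ Finset.range m, S.ch (j : ZMod m) = 0 := by
  have h1 : ∑ j : ZMod m, S.ch j = 0 := by
    unfold Arcs.ch
    rw [Finset.sum_sub_distrib]
    have h := Equiv.sum_comp (Equiv.addRight (1 : ZMod m)) S.V
    simp only [Equiv.coe_addRight] at h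
    rw [h, sub_self]
  have h2 : ∑ j : ZMod m, S.ch j = ∑ j ∈ Finset.range m, S.ch (j : ZMod m) := by
    refine Finset.sum_bij (fun j _ => j.val) ?_ ?_ ?_ ?_
    · intro j _
      exact Finset.mem_range.2 (ZMod.val_lt j)
    · intro j _ k _ h
      exact ZMod.val_injective m h
    · intro q hq
      refine ⟨(q : ZMod m), Finset.mem_univ _, ?_⟩
      exact ZMod.val_natCast_of_lt (Finset.mem_range.1 hq)
    · intro j _
      rw [ZMod.natCast_zmod_val]
  rw [← h2, h1]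

/-- HINT: as `close_c6`: `∑ j ∈ range m, S.ch j = 0`, `S.ch j = (S.ch 0 / ‖S.ch 0‖) * ‖S.ch j‖ * gz (phQ a j)`; multiply by
`gz ω`, take real parts. -/
theorem closeQ (S : Arcs P m) (hm : 2 ≤ m) {a : ZMod m → ℝ} (hch : S.ChordAng a) (ω : ℝ) :
    ∑ j ∈ Finset.range m, ‖S.ch (j : ZMod m)‖ * Real.cos (phQ a j + ω) = 0 := by
  have h0 : S.ch 0 ≠ 0 := S.ch_ne hm 0
  have hn : ∀ j : ZMod m, (‖S.ch j‖ : ℂ) ≠ 0 := by
    intro j
    have := norm_pos_iff.2 (S.ch_ne hm j)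
    exact_mod_cast this.ne'
  have hu : S.ch 0 / (‖S.ch 0‖ : ℂ) ≠ 0 := div_ne_zero h0 (hn 0)
  have hj : ∀ j : ℕ, S.ch (j : ZMod m) =
      S.ch 0 / (‖S.ch 0‖ : ℂ) * ((‖S.ch (j : ZMod m)‖ : ℂ) * gz (phQ a j)) := by
    intro j
    have h1 := dr_gq2 S hm hch j
    exact ((div_eq_iff (hn (j : ZMod m))).1 h1).trans (by ring)
  have hs : ∑ j ∈ Finset.range m, ((‖S.ch (j : ZMod m)‖ : ℂ) * gz (phQ a j)) = 0 := by
    have h1 := sum_gq2 S
    rw [Finset.sum_congr rfl (fun j _ => hj j), ← Finset.mul_sum, mul_eq_zero] at h1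
    exact h1.resolve_left hu
  have hr : (∑ j ∈ Finset.range m, ((‖S.ch (j : ZMod m)‖ : ℂ) * gz (phQ a j + ω))) = 0 := by
    rw [← mul_eq_zero_of_left hs (gz ω), Finset.sum_mul]
    refine Finset.sum_congr rfl fun j _ => ?_
    rw [gz_add, mul_assoc]
  have h2 := congrArg Complex.re hr
  rw [Complex.re_sum, Complex.zero_re] at h2
  rw [← h2]
  refine Finset.sum_congr rfl fun j _ => ?_
  rw [Complex.re_ofReal_mul]
  unfold gz
  rw [Complex.exp_ofReal_mul_I_re]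

end Pool.Agent.Lib_MP_fa6e45
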