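import Pool.Agent.Lib_MP_fa6e45.G3

/-!
MP_fa6e45_co, stage 3.

PIECE G4a (about 150 lines): the remaining small soundness lemmas of the second checker (`G0`).
`glueM_sound`: `fact_B M.toMdlB hty` gives the gluings; the inner corners are active pairs (`hact`; the value of the cast of
`x` is `x % m`), so `M.two_sum` applies. `derM_sound`: as `der_sound` of `Z3`, with `lc_holds`; the coefficient of the
combination at `i : ZMod m` is `c.1 * ∑ j, if nu.getD j 0 = i.val then E.1.getD j 0 else 0`; exchange the sums (for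
`j < nu.length` there is exactly one `i : ZMod m` with value `nu.getD j 0 < m`, namely `nuA m nu j 0`).
`ty0_sound`: `M.straight` (with `M.two_symm`) or type `U`. `eqs0_sound`: `hs`: the sum; the pairs by `h2` (the coefficients
`pairE m i j` give `f i + f j`, also if `i = j`).
-/

open scoped Topology

namespace Pool.Agent.Lib_MP_fa6e45

variable {m : ℕ} [NeZero m] {cls : ZMod m → ℕ} {two : ZMod m → ZMod m → Prop} {a b : ZMod m → ℝ}
  {G : ZMod m → ZMod m → Bool → Prop}

omit [NeZero m] in
private theorem G4a_nu_val (nu : List ℕ) (j t : ℕ) :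
    (nuA m nu j t).val = (nu.getD j 0 + t) % m := by
  unfold nuA
  rw [ZMod.val_natCast]

theorem glueM_sound (M : MdlF cls two a b G) {act : List (ℕ × ℕ)}
    (hact : ∀ i j : ZMod m, two i j ↔ actB act i.val j.val = true) {ty : ZMod m → Ty}
    (hty : ∀ j, IsTy G cls j (ty j)) {nu : List ℕ} {g : ℕ × ℕ × Bool}
    (h : glueMB cls ty act nu g = true) : GlueM a G nu g := by
  unfold glueMB at h
  rw [Bool.and_eq_true, Bool.and_eq_true, List.all_eq_true, List.all_eq_true, beq_iff_eq] at h
  obtain ⟨⟨h1, h2⟩, h3⟩ := h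
  refine ⟨h1, fun t ht => ?_, fun t h0 ht => ?_⟩
  · exact fact_B M.toMdlB hty (h2 t (List.mem_range.2 ht))
  · have h4 := h3 t (List.mem_range.2 ht)
    rw [Bool.or_eq_true, beq_iff_eq] at h4
    have h5 := h4.resolve_left (by omega)
    rw [← G4a_nu_val nu g.1 t, ← G4a_nu_val nu g.2.1 _] at h5
    exact (M.two_sum _ _ ((hact _ _).2 h5)).1

private theorem G4a_sum_list (f : ℕ → ℤ) (n : ℕ) :
    ((List.range n).map f).sum = ∑ i ∈ Finset.range n, f i := by
  induction n with
  | zero => simp
  | succ n ih =>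
    rw [List.range_succ, List.map_append, List.sum_append, Finset.sum_range_succ, ih]
    simp

private theorem G4a_single (f : ZMod m → ℝ) {x : ℕ} (hx : x < m) (e : ℝ) :
    ∑ i : ZMod m, (if x = i.val then e else 0) * f i = e * f ((x : ℕ) : ZMod m) := by
  rw [Finset.sum_eq_single ((x : ℕ) : ZMod m)]
  · rw [ZMod.val_natCast_of_lt hx, if_pos rfl]
  · intro i _ hi
    rw [if_neg, zero_mul]
    intro h
    apply hi
    rw [h, ZMod.natCast_zmod_val]
  · intro h
    exact absurd (Finset.mem_univ _) h

theorem derM_sound {f : ZMod m → ℝ} {eqs : List Eqn} (h : ∀ E ∈ eqs, Eqn.Holds E f) {nu : List ℕ}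
    (hnu : ∀ x ∈ nu, x < m) {Es : List Eqn} {cs : List (ℤ × List ℤ)}
    (hd : derMB m eqs nu Es cs = true) :
    ∀ E ∈ Es, ∑ j ∈ Finset.range nu.length, ((E.1.getD j 0 : ℤ) : ℝ) * f (nuA m nu j 0) =
      (E.2 : ℝ) := by
  induction Es generalizing cs with
  | nil =>
    intro E hE
    exact absurd hE List.not_mem_nil
  | cons E0 Es ih =>
    cases cs with
    | nil =>
      unfold derMB at hd
      exact absurd hd (by simp)
    | cons c cs =>
      unfold derMB at hd
      rw [Bool.and_eq_true, Bool.and_eq_true, Bool.and_eq_true, List.all_eq_true, bne_iff_ne,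
        beq_iff_eq] at hd
      obtain ⟨⟨⟨h1, h2⟩, h3⟩, h4⟩ := hd
      intro E hE
      rcases List.mem_cons.1 hE with rfl | hE
      · have hlc := lc_holds h c.2
        have h5 : ∀ i : ZMod m, ((lcCo c.2 eqs i.val : ℤ) : ℝ) * f i =
            (c.1 : ℝ) * ∑ j ∈ Finset.range nu.length,
              (if nu.getD j 0 = i.val then ((E.1.getD j 0 : ℤ) : ℝ) else 0) * f i := by
          intro i
          have h6 := h2 i.val (List.mem_range.2 (ZMod.val_lt i))
          rw [beq_iff_eq, G4a_sum_list] at h6
          rw [h6, ← Finset.sum_mul]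
          push_cast
          ring
        rw [Finset.sum_congr rfl (fun i _ => h5 i), ← Finset.mul_sum, Finset.sum_comm, h3] at hlc
        push_cast at hlc
        have h7 : (c.1 : ℝ) ≠ 0 := by exact_mod_cast h1
        have h8 := mul_left_cancel₀ h7 hlc
        rw [← h8]
        refine Finset.sum_congr rfl fun j hj => ?_
        have hj' := Finset.mem_range.1 hj
        have h9 : nu.getD j 0 < m := by
          rw [List.getD_eq_getElem _ _ hj']
          exact hnu _ (List.getElem_mem hj')
        rw [G4a_single f h9]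
        rfl
      · exact ih h4 E hE

omit [NeZero m] in
private theorem G4a_act {act : List (ℕ × ℕ)}
    (hact : ∀ i j : ZMod m, two i j ↔ actB act i.val j.val = true)
    (hlt : ∀ p ∈ act, p.1 < m ∧ p.2 < m) {p : ℕ × ℕ} (hp : p ∈ act) :
    two (p.1 : ZMod m) (p.2 : ZMod m) := by
  rw [hact, ZMod.val_natCast_of_lt (hlt p hp).1, ZMod.val_natCast_of_lt (hlt p hp).2]
  unfold actB
  rw [Bool.or_eq_true]
  left
  rw [List.contains_iff_mem]
  exact hp

theorem ty0_sound (M : MdlF cls two a b G) {act : List (ℕ × ℕ)}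
    (hact : ∀ i j : ZMod m, two i j ↔ actB act i.val j.val = true)
    (hlt : ∀ p ∈ act, p.1 < m ∧ p.2 < m) : ∀ j, IsTy G cls j (ty0 cls act j) := by
  intro s
  unfold ty0
  split_ifs with h
  · rw [List.any_eq_true] at h
    obtain ⟨p, hp, h1⟩ := h
    have h2 := G4a_act hact hlt hp
    have h3 := M.two_symm _ _ h2
    simp only [Bool.or_eq_true, beq_iff_eq] at h1
    rcases h1 with ((h1 | h1) | h1) | h1
    · exact M.straight _ _ s h2 (Or.inl h1)
    · exact M.straight _ _ s h2 (Or.inr h1)
    · exact M.straight _ _ s h3 (Or.inl h1)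
    · exact M.straight _ _ s h3 (Or.inr h1)
  · trivial

theorem eqs0_sound {act : List (ℕ × ℕ)} {f : ZMod m → ℝ} (hs : ∑ i, f i = (m : ℝ) - 2)
    (h2 : ∀ p ∈ act, f (p.1 : ZMod m) + f (p.2 : ZMod m) = 2) (hlt : ∀ p ∈ act, p.1 < m ∧ p.2 < m) :
    ∀ E ∈ eqs0 m act, Eqn.Holds E f := by
  intro E hE
  unfold eqs0 at hE
  rw [List.mem_append, List.mem_map, List.mem_singleton] at hE
  unfold Eqn.Holds
  rcases hE with ⟨p, hp, rfl⟩ | rfl
  · have h3 : ∀ i : ZMod m, (((pairE m p.1 p.2).getD i.val 0 : ℤ) : ℝ) * f i =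
        (if p.1 = i.val then (1 : ℝ) else 0) * f i + (if p.2 = i.val then (1 : ℝ) else 0) * f i := by
      intro i
      unfold pairE
      have h4 : i.val < ((List.range m).map fun x =>
          (if x = p.1 then (1 : ℤ) else 0) + if x = p.2 then (1 : ℤ) else 0).length := by
        rw [List.length_map, List.length_range]
        exact ZMod.val_lt i
      rw [List.getD_eq_getElem _ _ h4, List.getElem_map, List.getElem_range]
      simp only [eq_comm (a := p.1), eq_comm (a := p.2)]
      push_cast
      ring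
    simp only
    rw [Finset.sum_congr rfl (fun i _ => h3 i), Finset.sum_add_distrib,
      G4a_single f (hlt p hp).1, G4a_single f (hlt p hp).2, one_mul, one_mul, h2 p hp]
    norm_num
  · simp only
    have h3 : ∀ i : ZMod m, (((List.replicate m (1 : ℤ)).getD i.val 0 : ℤ) : ℝ) * f i = f i := by
      intro i
      have h4 : i.val < (List.replicate m (1 : ℤ)).length := by
        rw [List.length_replicate]
        exact ZMod.val_lt i
      rw [List.getD_eq_getElem _ _ h4, List.getElem_replicate]
      push_cast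
      ring
    rw [Finset.sum_congr rfl (fun i _ => h3 i), hs]
    push_cast
    ring

end Pool.Agent.Lib_MP_fa6e45
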