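import Pool.Agent.Lib_MP_fa6e45.H5a

/-!
PIECE H5: coarse leaves without `NoThreeEqual` (see H5a for the chord angles). Copies of G6 (`appA3` ... `appA6`) and G7
(`appM`) with `chord_anglesL` for the glue list of the scheme instead of `chord_angles`.
-/

open Set MeasureTheory Complex
open scoped Topology

namespace Pool.Agent.Lib_MP_fa6e45

open Pool.Agent.Lib_PL (cr InSector Poly)

variable {n : ℕ} {P : Polygon n}

private theorem H5_lt (M k : ℕ) : ∀ g ∈ (schM M k).glue, g.1 < M ∧ g.2.1 < M := by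
  unfold schM
  split
  · rcases k with _ | _ | _ | _ | _ | k
    all_goals simp [sch3]
  · rcases k with _ | _ | _ | _ | _ | _ | _ | _ | _ | _ | _ | _ | _ | _ | k
    all_goals simp [sch4]
  · rcases k with _ | _ | _ | _ | _ | _ | _ | _ | k
    all_goals simp [sch5]
  · rcases k with _ | _ | _ | _ | _ | _ | _ | _ | k
    all_goals simp [sch6]
  · simp

private theorem H5_sym (M k : ℕ) : ∀ g ∈ (schM M k).glue, (g.2.1, g.1, g.2.2) ∈ (schM M k).glue := by
  unfold schM
  split
  · rcases k with _ | _ | _ | _ | _ | k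
    all_goals simp [sch3]
  · rcases k with _ | _ | _ | _ | _ | _ | _ | _ | _ | _ | _ | _ | _ | _ | k
    all_goals simp [sch4]
  · rcases k with _ | _ | _ | _ | _ | _ | _ | _ | k
    all_goals simp [sch5]
  · rcases k with _ | _ | _ | _ | _ | _ | _ | _ | k
    all_goals simp [sch6]
  · simp

private theorem H5_uni (M k : ℕ) : ∀ g ∈ (schM M k).glue, ∀ g' ∈ (schM M k).glue,
    g.1 = g'.1 → g = g' := by
  unfold schM
  split
  · rcases k with _ | _ | _ | _ | _ | k
    all_goals simp [sch3]
  · rcases k with _ | _ | _ | _ | _ | _ | _ | _ | _ | _ | _ | _ | _ | _ | k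
    all_goals simp [sch4]
  · rcases k with _ | _ | _ | _ | _ | _ | _ | _ | k
    all_goals simp [sch5]
  · rcases k with _ | _ | _ | _ | _ | _ | _ | _ | k
    all_goals simp [sch6]
  · simp


private theorem H5_h3 {x y z r : ℤ} {f : ZMod 3 → ℝ}
    (h : (x : ℝ) * f 0 + y * f 1 + z * f 2 = r) :
    Eqn.Holds ([x, y, z], r) f := by
  change (∑ i : Fin 3, ((([x, y, z] : List ℤ).getD i.val 0 : ℤ) : ℝ) * f i) = (r : ℝ)
  rw [Fin.sum_univ_three]
  exact h

private theorem H5_h4 {x y z t r : ℤ} {f : ZMod 4 → ℝ}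
    (h : (x : ℝ) * f 0 + y * f 1 + z * f 2 + t * f 3 = r) :
    Eqn.Holds ([x, y, z, t], r) f := by
  change (∑ i : Fin 4, ((([x, y, z, t] : List ℤ).getD i.val 0 : ℤ) : ℝ) * f i) = (r : ℝ)
  rw [Fin.sum_univ_four]
  exact h

private theorem H5_h5 {x y z t u r : ℤ} {f : ZMod 5 → ℝ}
    (h : (x : ℝ) * f 0 + y * f 1 + z * f 2 + t * f 3 + u * f 4 = r) :
    Eqn.Holds ([x, y, z, t, u], r) f := by
  change (∑ i : Fin 5, ((([x, y, z, t, u] : List ℤ).getD i.val 0 : ℤ) : ℝ) * f i) = (r : ℝ)
  rw [Fin.sum_univ_five]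
  exact h

private theorem H5_h6 {x y z t u v r : ℤ} {f : ZMod 6 → ℝ}
    (h : (x : ℝ) * f 0 + y * f 1 + z * f 2 + t * f 3 + u * f 4 + v * f 5 = r) :
    Eqn.Holds ([x, y, z, t, u, v], r) f := by
  change (∑ i : Fin 6, ((([x, y, z, t, u, v] : List ℤ).getD i.val 0 : ℤ) : ℝ) * f i) = (r : ℝ)
  rw [Fin.sum_univ_six]
  exact h

private theorem appH3 (hc : P.CCW) (S : Arcs P 3) (k : ℕ)
    (hg : ∀ g ∈ (schM 3 k).glue, S.Rel g.1 g.2.1 g.2.2)
    (he : ∀ E ∈ (schM 3 k).eqs, Eqn.Holds E fun j => P.ang (S.κ j) / Real.pi) : HasPeriodic P := by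
  obtain ⟨σ, ε, hp, hm, hb⟩ := S.chord_anglesL (by norm_num) (schM 3 k).glue hg (H5_lt 3 k)
    (H5_sym 3 k) (H5_uni 3 k)
  have hpm : ∀ g ∈ (schM 3 k).glue, if g.2.2 = true then
      σ (g.1 : ZMod 3) = ε (g.2.1 : ZMod 3) ∧ ε (g.1 : ZMod 3) = σ (g.2.1 : ZMod 3) else
      σ (g.1 : ZMod 3) = -σ (g.2.1 : ZMod 3) ∧ ε (g.1 : ZMod 3) = -ε (g.2.1 : ZMod 3) := by
    intro g hgm
    split_ifs with h
    · exact hp g hgm h
    · exact hm g hgm (Bool.eq_false_iff.2 h)
  have q0 : (0 - 1 : ZMod 3) = 2 := by decide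
  have q1 : (1 - 1 : ZMod 3) = 0 := by decide
  have q2 : (2 - 1 : ZMod 3) = 1 := by decide
  rcases k with _ | _ | _ | _ | _ | k
  · refine app3 hc S _ hb ⟨0, 0, ?_, ?_⟩
    · intro g h
      have h1 := hg g h
      rw [Nat.cast_zero, add_zero, add_zero]
      exact h1
    · change ∀ g ∈ (sch3 0).glue, _ at hg
      change ∀ g ∈ (sch3 0).glue, _ at hpm
      change ∀ E ∈ (sch3 0).eqs, _ at he
      simp only [sch3, List.getD_cons_zero, List.getD_cons_succ, List.forall_mem_cons,
        List.not_mem_nil, IsEmpty.forall_iff, implies_true, and_true, Nat.cast_zero, Nat.cast_one,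
        Nat.cast_ofNat, add_zero, if_true, if_false, Bool.false_eq_true] at hg he hpm ⊢
  · refine app3 hc S _ hb ⟨1, 0, ?_, ?_⟩
    · intro g h
      have h1 := hg g h
      rw [Nat.cast_zero, add_zero, add_zero]
      exact h1
    · change ∀ g ∈ (sch3 1).glue, _ at hg
      change ∀ g ∈ (sch3 1).glue, _ at hpm
      change ∀ E ∈ (sch3 1).eqs, _ at he
      simp only [sch3, List.getD_cons_zero, List.getD_cons_succ, List.forall_mem_cons,
        List.not_mem_nil, IsEmpty.forall_iff, implies_true, and_true, Nat.cast_zero, Nat.cast_one,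
        Nat.cast_ofNat, add_zero, if_true, if_false, Bool.false_eq_true] at hg he hpm ⊢
  · refine app3 hc S _ hb ⟨2, 0, ?_, ?_⟩
    · intro g h
      have h1 := hg g h
      rw [Nat.cast_zero, add_zero, add_zero]
      exact h1
    · change ∀ g ∈ (sch3 2).glue, _ at hg
      change ∀ g ∈ (sch3 2).glue, _ at hpm
      change ∀ E ∈ (sch3 2).eqs, _ at he
      simp only [sch3, List.getD_cons_zero, List.getD_cons_succ, List.forall_mem_cons,
        List.not_mem_nil, IsEmpty.forall_iff, implies_true, and_true, Nat.cast_zero, Nat.cast_one,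
        Nat.cast_ofNat, add_zero, if_true, if_false, Bool.false_eq_true] at hg he hpm ⊢
      have g0 := hpm.1
      have g1 := hpm.2.1
      have g2 := hpm.2.2
      have e0 := holds3 he.1
      have e1 := holds3 he.2
      refine ⟨?_, ?_⟩
      · apply H5_h3
        simp only [q0, q1, q2]
        norm_num at e0 ⊢
        linarith [g0.1, g0.2, g1.1, g1.2, g2.1, g2.2]
      · apply H5_h3
        simp only [q0, q1, q2]
        norm_num at e1 ⊢
        linarith [g0.1, g0.2, g1.1, g1.2, g2.1, g2.2]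
  · refine app3 hc S _ hb ⟨3, 0, ?_, ?_⟩
    · intro g h
      have h1 := hg g h
      rw [Nat.cast_zero, add_zero, add_zero]
      exact h1
    · change ∀ g ∈ (sch3 3).glue, _ at hg
      change ∀ g ∈ (sch3 3).glue, _ at hpm
      change ∀ E ∈ (sch3 3).eqs, _ at he
      simp only [sch3, List.getD_cons_zero, List.getD_cons_succ, List.forall_mem_cons,
        List.not_mem_nil, IsEmpty.forall_iff, implies_true, and_true, Nat.cast_zero, Nat.cast_one,
        Nat.cast_ofNat, add_zero, if_true, if_false, Bool.false_eq_true] at hg he hpm ⊢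
      have g0 := hpm.1
      have g1 := hpm.2.1
      have g2 := hpm.2.2
      have e0 := holds3 he.1
      have e1 := holds3 he.2
      refine ⟨?_, ?_⟩
      · apply H5_h3
        simp only [q0, q1, q2]
        norm_num at e0 ⊢
        linarith [g0.1, g0.2, g1.1, g1.2, g2.1, g2.2]
      · apply H5_h3
        simp only [q0, q1, q2]
        norm_num at e1 ⊢
        linarith [g0.1, g0.2, g1.1, g1.2, g2.1, g2.2]
  · refine app3 hc S _ hb ⟨4, 0, ?_, ?_⟩
    · intro g h
      have h1 := hg g h
      rw [Nat.cast_zero, add_zero, add_zero]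
      exact h1
    · change ∀ g ∈ (sch3 4).glue, _ at hg
      change ∀ g ∈ (sch3 4).glue, _ at hpm
      change ∀ E ∈ (sch3 4).eqs, _ at he
      simp only [sch3, List.getD_cons_zero, List.getD_cons_succ, List.forall_mem_cons,
        List.not_mem_nil, IsEmpty.forall_iff, implies_true, and_true, Nat.cast_zero, Nat.cast_one,
        Nat.cast_ofNat, add_zero, if_true, if_false, Bool.false_eq_true] at hg he hpm ⊢
      have g0 := hpm.1
      have g1 := hpm.2.1
      have g2 := hpm.2.2
      have e0 := holds3 he.1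
      have e1 := holds3 he.2
      refine ⟨?_, ?_⟩
      · apply H5_h3
        simp only [q0, q1, q2]
        norm_num at e0 ⊢
        linarith [g0.1, g0.2, g1.1, g1.2, g2.1, g2.2]
      · apply H5_h3
        simp only [q0, q1, q2]
        norm_num at e1 ⊢
        linarith [g0.1, g0.2, g1.1, g1.2, g2.1, g2.2]
  · exact (holds_nil (he _ (List.mem_singleton.2 rfl))).elim

private theorem appH4 (hc : P.CCW) (S : Arcs P 4) (k : ℕ)
    (hg : ∀ g ∈ (schM 4 k).glue, S.Rel g.1 g.2.1 g.2.2)
    (he : ∀ E ∈ (schM 4 k).eqs, Eqn.Holds E fun j => P.ang (S.κ j) / Real.pi) : HasPeriodic P := by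
  obtain ⟨σ, ε, hp, hm, hb⟩ := S.chord_anglesL (by norm_num) (schM 4 k).glue hg (H5_lt 4 k)
    (H5_sym 4 k) (H5_uni 4 k)
  have hpm : ∀ g ∈ (schM 4 k).glue, if g.2.2 = true then
      σ (g.1 : ZMod 4) = ε (g.2.1 : ZMod 4) ∧ ε (g.1 : ZMod 4) = σ (g.2.1 : ZMod 4) else
      σ (g.1 : ZMod 4) = -σ (g.2.1 : ZMod 4) ∧ ε (g.1 : ZMod 4) = -ε (g.2.1 : ZMod 4) := by
    intro g hgm
    split_ifs with h
    · exact hp g hgm h
    · exact hm g hgm (Bool.eq_false_iff.2 h)
  have q0 : (0 - 1 : ZMod 4) = 3 := by decide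
  have q1 : (1 - 1 : ZMod 4) = 0 := by decide
  have q2 : (2 - 1 : ZMod 4) = 1 := by decide
  have q3 : (3 - 1 : ZMod 4) = 2 := by decide
  rcases k with _ | _ | _ | _ | _ | _ | _ | _ | _ | _ | _ | _ | _ | _ | k
  · refine app4 hc S _ hb ⟨0, 0, ?_, ?_⟩
    · intro g h
      have h1 := hg g h
      rw [Nat.cast_zero, add_zero, add_zero]
      exact h1
    · change ∀ g ∈ (sch4 0).glue, _ at hg
      change ∀ g ∈ (sch4 0).glue, _ at hpm
      change ∀ E ∈ (sch4 0).eqs, _ at he
      simp only [sch4, List.getD_cons_zero, List.getD_cons_succ, List.forall_mem_cons,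
        List.not_mem_nil, IsEmpty.forall_iff, implies_true, and_true, Nat.cast_zero, Nat.cast_one,
        Nat.cast_ofNat, add_zero, if_true, if_false, Bool.false_eq_true] at hg he hpm ⊢
  · refine app4 hc S _ hb ⟨1, 0, ?_, ?_⟩
    · intro g h
      have h1 := hg g h
      rw [Nat.cast_zero, add_zero, add_zero]
      exact h1
    · change ∀ g ∈ (sch4 1).glue, _ at hg
      change ∀ g ∈ (sch4 1).glue, _ at hpm
      change ∀ E ∈ (sch4 1).eqs, _ at he
      simp only [sch4, List.getD_cons_zero, List.getD_cons_succ, List.forall_mem_cons,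
        List.not_mem_nil, IsEmpty.forall_iff, implies_true, and_true, Nat.cast_zero, Nat.cast_one,
        Nat.cast_ofNat, add_zero, if_true, if_false, Bool.false_eq_true] at hg he hpm ⊢
  · refine app4 hc S _ hb ⟨2, 0, ?_, ?_⟩
    · intro g h
      have h1 := hg g h
      rw [Nat.cast_zero, add_zero, add_zero]
      exact h1
    · change ∀ g ∈ (sch4 2).glue, _ at hg
      change ∀ g ∈ (sch4 2).glue, _ at hpm
      change ∀ E ∈ (sch4 2).eqs, _ at he
      simp only [sch4, List.getD_cons_zero, List.getD_cons_succ, List.forall_mem_cons,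
        List.not_mem_nil, IsEmpty.forall_iff, implies_true, and_true, Nat.cast_zero, Nat.cast_one,
        Nat.cast_ofNat, add_zero, if_true, if_false, Bool.false_eq_true] at hg he hpm ⊢
  · refine app4 hc S _ hb ⟨3, 0, ?_, ?_⟩
    · intro g h
      have h1 := hg g h
      rw [Nat.cast_zero, add_zero, add_zero]
      exact h1
    · change ∀ g ∈ (sch4 3).glue, _ at hg
      change ∀ g ∈ (sch4 3).glue, _ at hpm
      change ∀ E ∈ (sch4 3).eqs, _ at he
      simp only [sch4, List.getD_cons_zero, List.getD_cons_succ, List.forall_mem_cons,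
        List.not_mem_nil, IsEmpty.forall_iff, implies_true, and_true, Nat.cast_zero, Nat.cast_one,
        Nat.cast_ofNat, add_zero, if_true, if_false, Bool.false_eq_true] at hg he hpm ⊢
  · refine app4 hc S _ hb ⟨4, 0, ?_, ?_⟩
    · intro g h
      have h1 := hg g h
      rw [Nat.cast_zero, add_zero, add_zero]
      exact h1
    · change ∀ g ∈ (sch4 4).glue, _ at hg
      change ∀ g ∈ (sch4 4).glue, _ at hpm
      change ∀ E ∈ (sch4 4).eqs, _ at he
      simp only [sch4, List.getD_cons_zero, List.getD_cons_succ, List.forall_mem_cons,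
        List.not_mem_nil, IsEmpty.forall_iff, implies_true, and_true, Nat.cast_zero, Nat.cast_one,
        Nat.cast_ofNat, add_zero, if_true, if_false, Bool.false_eq_true] at hg he hpm ⊢
      have g0 := hpm.1
      have g1 := hpm.2.1
      have g2 := hpm.2.2.1
      have g3 := hpm.2.2.2
      have e0 := holds4 he
      apply H5_h4
      simp only [q0, q1, q2, q3]
      norm_num at e0 ⊢
      linarith [g0.1, g0.2, g1.1, g1.2, g2.1, g2.2, g3.1, g3.2]
  · refine app4 hc S _ hb ⟨5, 0, ?_, ?_⟩
    · intro g h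
      have h1 := hg g h
      rw [Nat.cast_zero, add_zero, add_zero]
      exact h1
    · change ∀ g ∈ (sch4 5).glue, _ at hg
      change ∀ g ∈ (sch4 5).glue, _ at hpm
      change ∀ E ∈ (sch4 5).eqs, _ at he
      simp only [sch4, List.getD_cons_zero, List.getD_cons_succ, List.forall_mem_cons,
        List.not_mem_nil, IsEmpty.forall_iff, implies_true, and_true, Nat.cast_zero, Nat.cast_one,
        Nat.cast_ofNat, add_zero, if_true, if_false, Bool.false_eq_true] at hg he hpm ⊢
  · refine app4 hc S _ hb ⟨6, 0, ?_, ?_⟩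
    · intro g h
      have h1 := hg g h
      rw [Nat.cast_zero, add_zero, add_zero]
      exact h1
    · change ∀ g ∈ (sch4 6).glue, _ at hg
      change ∀ g ∈ (sch4 6).glue, _ at hpm
      change ∀ E ∈ (sch4 6).eqs, _ at he
      simp only [sch4, List.getD_cons_zero, List.getD_cons_succ, List.forall_mem_cons,
        List.not_mem_nil, IsEmpty.forall_iff, implies_true, and_true, Nat.cast_zero, Nat.cast_one,
        Nat.cast_ofNat, add_zero, if_true, if_false, Bool.false_eq_true] at hg he hpm ⊢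
  · refine app4 hc S _ hb ⟨7, 0, ?_, ?_⟩
    · intro g h
      have h1 := hg g h
      rw [Nat.cast_zero, add_zero, add_zero]
      exact h1
    · change ∀ g ∈ (sch4 7).glue, _ at hg
      change ∀ g ∈ (sch4 7).glue, _ at hpm
      change ∀ E ∈ (sch4 7).eqs, _ at he
      simp only [sch4, List.getD_cons_zero, List.getD_cons_succ, List.forall_mem_cons,
        List.not_mem_nil, IsEmpty.forall_iff, implies_true, and_true, Nat.cast_zero, Nat.cast_one,
        Nat.cast_ofNat, add_zero, if_true, if_false, Bool.false_eq_true] at hg he hpm ⊢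
      have g0 := hpm.1
      have g1 := hpm.2.1
      have g2 := hpm.2.2.1
      have g3 := hpm.2.2.2
      have e0 := holds4 he
      apply H5_h4
      simp only [q0, q1, q2, q3]
      norm_num at e0 ⊢
      linarith [g0.1, g0.2, g1.1, g1.2, g2.1, g2.2, g3.1, g3.2]
  · refine app4 hc S _ hb ⟨8, 0, ?_, ?_⟩
    · intro g h
      have h1 := hg g h
      rw [Nat.cast_zero, add_zero, add_zero]
      exact h1
    · change ∀ g ∈ (sch4 8).glue, _ at hg
      change ∀ g ∈ (sch4 8).glue, _ at hpm
      change ∀ E ∈ (sch4 8).eqs, _ at he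
      simp only [sch4, List.getD_cons_zero, List.getD_cons_succ, List.forall_mem_cons,
        List.not_mem_nil, IsEmpty.forall_iff, implies_true, and_true, Nat.cast_zero, Nat.cast_one,
        Nat.cast_ofNat, add_zero, if_true, if_false, Bool.false_eq_true] at hg he hpm ⊢
      have g0 := hpm.1
      have g1 := hpm.2.1
      have g2 := hpm.2.2.1
      have g3 := hpm.2.2.2
      have e0 := holds4 he.1
      have e1 := holds4 he.2.1
      have e2 := holds4 he.2.2
      refine ⟨?_, ?_, ?_⟩
      · apply H5_h4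
        simp only [q0, q1, q2, q3]
        norm_num at e0 ⊢
        linarith [g0.1, g0.2, g1.1, g1.2, g2.1, g2.2, g3.1, g3.2]
      · apply H5_h4
        simp only [q0, q1, q2, q3]
        norm_num at e1 ⊢
        linarith [g0.1, g0.2, g1.1, g1.2, g2.1, g2.2, g3.1, g3.2]
      · apply H5_h4
        simp only [q0, q1, q2, q3]
        norm_num at e2 ⊢
        linarith [g0.1, g0.2, g1.1, g1.2, g2.1, g2.2, g3.1, g3.2]
  · refine app4 hc S _ hb ⟨9, 0, ?_, ?_⟩
    · intro g h
      have h1 := hg g h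
      rw [Nat.cast_zero, add_zero, add_zero]
      exact h1
    · change ∀ g ∈ (sch4 9).glue, _ at hg
      change ∀ g ∈ (sch4 9).glue, _ at hpm
      change ∀ E ∈ (sch4 9).eqs, _ at he
      simp only [sch4, List.getD_cons_zero, List.getD_cons_succ, List.forall_mem_cons,
        List.not_mem_nil, IsEmpty.forall_iff, implies_true, and_true, Nat.cast_zero, Nat.cast_one,
        Nat.cast_ofNat, add_zero, if_true, if_false, Bool.false_eq_true] at hg he hpm ⊢
      have g0 := hpm.1
      have g1 := hpm.2.1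
      have g2 := hpm.2.2.1
      have g3 := hpm.2.2.2
      have e0 := holds4 he.1
      have e1 := holds4 he.2.1
      have e2 := holds4 he.2.2
      refine ⟨?_, ?_, ?_⟩
      · apply H5_h4
        simp only [q0, q1, q2, q3]
        norm_num at e0 ⊢
        linarith [g0.1, g0.2, g1.1, g1.2, g2.1, g2.2, g3.1, g3.2]
      · apply H5_h4
        simp only [q0, q1, q2, q3]
        norm_num at e1 ⊢
        linarith [g0.1, g0.2, g1.1, g1.2, g2.1, g2.2, g3.1, g3.2]
      · apply H5_h4
        simp only [q0, q1, q2, q3]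
        norm_num at e2 ⊢
        linarith [g0.1, g0.2, g1.1, g1.2, g2.1, g2.2, g3.1, g3.2]
  · refine app4 hc S _ hb ⟨10, 0, ?_, ?_⟩
    · intro g h
      have h1 := hg g h
      rw [Nat.cast_zero, add_zero, add_zero]
      exact h1
    · change ∀ g ∈ (sch4 10).glue, _ at hg
      change ∀ g ∈ (sch4 10).glue, _ at hpm
      change ∀ E ∈ (sch4 10).eqs, _ at he
      simp only [sch4, List.getD_cons_zero, List.getD_cons_succ, List.forall_mem_cons,
        List.not_mem_nil, IsEmpty.forall_iff, implies_true, and_true, Nat.cast_zero, Nat.cast_one,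
        Nat.cast_ofNat, add_zero, if_true, if_false, Bool.false_eq_true] at hg he hpm ⊢
      have g0 := hpm.1
      have g1 := hpm.2.1
      have g2 := hpm.2.2.1
      have g3 := hpm.2.2.2
      have e0 := holds4 he.1
      have e1 := holds4 he.2.1
      have e2 := holds4 he.2.2
      refine ⟨?_, ?_, ?_⟩
      · apply H5_h4
        simp only [q0, q1, q2, q3]
        norm_num at e0 ⊢
        linarith [g0.1, g0.2, g1.1, g1.2, g2.1, g2.2, g3.1, g3.2]
      · apply H5_h4
        simp only [q0, q1, q2, q3]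
        norm_num at e1 ⊢
        linarith [g0.1, g0.2, g1.1, g1.2, g2.1, g2.2, g3.1, g3.2]
      · apply H5_h4
        simp only [q0, q1, q2, q3]
        norm_num at e2 ⊢
        linarith [g0.1, g0.2, g1.1, g1.2, g2.1, g2.2, g3.1, g3.2]
  · refine app4 hc S _ hb ⟨11, 0, ?_, ?_⟩
    · intro g h
      have h1 := hg g h
      rw [Nat.cast_zero, add_zero, add_zero]
      exact h1
    · change ∀ g ∈ (sch4 11).glue, _ at hg
      change ∀ g ∈ (sch4 11).glue, _ at hpm
      change ∀ E ∈ (sch4 11).eqs, _ at he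
      simp only [sch4, List.getD_cons_zero, List.getD_cons_succ, List.forall_mem_cons,
        List.not_mem_nil, IsEmpty.forall_iff, implies_true, and_true, Nat.cast_zero, Nat.cast_one,
        Nat.cast_ofNat, add_zero, if_true, if_false, Bool.false_eq_true] at hg he hpm ⊢
      have g0 := hpm.1
      have g1 := hpm.2.1
      have g2 := hpm.2.2.1
      have g3 := hpm.2.2.2
      have e0 := holds4 he.1
      have e1 := holds4 he.2.1
      have e2 := holds4 he.2.2
      refine ⟨?_, ?_, ?_⟩
      · apply H5_h4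
        simp only [q0, q1, q2, q3]
        norm_num at e0 ⊢
        linarith [g0.1, g0.2, g1.1, g1.2, g2.1, g2.2, g3.1, g3.2]
      · apply H5_h4
        simp only [q0, q1, q2, q3]
        norm_num at e1 ⊢
        linarith [g0.1, g0.2, g1.1, g1.2, g2.1, g2.2, g3.1, g3.2]
      · apply H5_h4
        simp only [q0, q1, q2, q3]
        norm_num at e2 ⊢
        linarith [g0.1, g0.2, g1.1, g1.2, g2.1, g2.2, g3.1, g3.2]
  · refine app4 hc S _ hb ⟨12, 0, ?_, ?_⟩
    · intro g h
      have h1 := hg g h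
      rw [Nat.cast_zero, add_zero, add_zero]
      exact h1
    · change ∀ g ∈ (sch4 12).glue, _ at hg
      change ∀ g ∈ (sch4 12).glue, _ at hpm
      change ∀ E ∈ (sch4 12).eqs, _ at he
      simp only [sch4, List.getD_cons_zero, List.getD_cons_succ, List.forall_mem_cons,
        List.not_mem_nil, IsEmpty.forall_iff, implies_true, and_true, Nat.cast_zero, Nat.cast_one,
        Nat.cast_ofNat, add_zero, if_true, if_false, Bool.false_eq_true] at hg he hpm ⊢
      have g0 := hpm.1
      have g1 := hpm.2.1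
      have g2 := hpm.2.2.1
      have g3 := hpm.2.2.2
      have e0 := holds4 he.1
      have e1 := holds4 he.2.1
      have e2 := holds4 he.2.2
      refine ⟨?_, ?_, ?_⟩
      · apply H5_h4
        simp only [q0, q1, q2, q3]
        norm_num at e0 ⊢
        linarith [g0.1, g0.2, g1.1, g1.2, g2.1, g2.2, g3.1, g3.2]
      · apply H5_h4
        simp only [q0, q1, q2, q3]
        norm_num at e1 ⊢
        linarith [g0.1, g0.2, g1.1, g1.2, g2.1, g2.2, g3.1, g3.2]
      · apply H5_h4
        simp only [q0, q1, q2, q3]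
        norm_num at e2 ⊢
        linarith [g0.1, g0.2, g1.1, g1.2, g2.1, g2.2, g3.1, g3.2]
  · refine app4 hc S _ hb ⟨13, 0, ?_, ?_⟩
    · intro g h
      have h1 := hg g h
      rw [Nat.cast_zero, add_zero, add_zero]
      exact h1
    · change ∀ g ∈ (sch4 13).glue, _ at hg
      change ∀ g ∈ (sch4 13).glue, _ at hpm
      change ∀ E ∈ (sch4 13).eqs, _ at he
      simp only [sch4, List.getD_cons_zero, List.getD_cons_succ, List.forall_mem_cons,
        List.not_mem_nil, IsEmpty.forall_iff, implies_true, and_true, Nat.cast_zero, Nat.cast_one,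
        Nat.cast_ofNat, add_zero, if_true, if_false, Bool.false_eq_true] at hg he hpm ⊢
      have g0 := hpm.1
      have g1 := hpm.2.1
      have g2 := hpm.2.2.1
      have g3 := hpm.2.2.2
      have e0 := holds4 he.1
      have e1 := holds4 he.2.1
      have e2 := holds4 he.2.2
      refine ⟨?_, ?_, ?_⟩
      · apply H5_h4
        simp only [q0, q1, q2, q3]
        norm_num at e0 ⊢
        linarith [g0.1, g0.2, g1.1, g1.2, g2.1, g2.2, g3.1, g3.2]
      · apply H5_h4
        simp only [q0, q1, q2, q3]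
        norm_num at e1 ⊢
        linarith [g0.1, g0.2, g1.1, g1.2, g2.1, g2.2, g3.1, g3.2]
      · apply H5_h4
        simp only [q0, q1, q2, q3]
        norm_num at e2 ⊢
        linarith [g0.1, g0.2, g1.1, g1.2, g2.1, g2.2, g3.1, g3.2]
  · exact (holds_nil (he _ (List.mem_singleton.2 rfl))).elim

private theorem appH5 (hc : P.CCW) (S : Arcs P 5) (k : ℕ)
    (hg : ∀ g ∈ (schM 5 k).glue, S.Rel g.1 g.2.1 g.2.2)
    (he : ∀ E ∈ (schM 5 k).eqs, Eqn.Holds E fun j => P.ang (S.κ j) / Real.pi) : HasPeriodic P := by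
  obtain ⟨σ, ε, hp, hm, hb⟩ := S.chord_anglesL (by norm_num) (schM 5 k).glue hg (H5_lt 5 k)
    (H5_sym 5 k) (H5_uni 5 k)
  have hpm : ∀ g ∈ (schM 5 k).glue, if g.2.2 = true then
      σ (g.1 : ZMod 5) = ε (g.2.1 : ZMod 5) ∧ ε (g.1 : ZMod 5) = σ (g.2.1 : ZMod 5) else
      σ (g.1 : ZMod 5) = -σ (g.2.1 : ZMod 5) ∧ ε (g.1 : ZMod 5) = -ε (g.2.1 : ZMod 5) := by
    intro g hgm
    split_ifs with h
    · exact hp g hgm h
    · exact hm g hgm (Bool.eq_false_iff.2 h)
  have q0 : (0 - 1 : ZMod 5) = 4 := by decide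
  have q1 : (1 - 1 : ZMod 5) = 0 := by decide
  have q2 : (2 - 1 : ZMod 5) = 1 := by decide
  have q3 : (3 - 1 : ZMod 5) = 2 := by decide
  have q4 : (4 - 1 : ZMod 5) = 3 := by decide
  rcases k with _ | _ | _ | _ | _ | _ | _ | _ | k
  · refine app5 hc S _ hb ⟨0, 0, ?_, ?_⟩
    · intro g h
      have h1 := hg g h
      rw [Nat.cast_zero, add_zero, add_zero]
      exact h1
    · change ∀ g ∈ (sch5 0).glue, _ at hg
      change ∀ g ∈ (sch5 0).glue, _ at hpm
      change ∀ E ∈ (sch5 0).eqs, _ at he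
      simp only [sch5, List.getD_cons_zero, List.getD_cons_succ, List.forall_mem_cons,
        List.not_mem_nil, IsEmpty.forall_iff, implies_true, and_true, Nat.cast_zero, Nat.cast_one,
        Nat.cast_ofNat, add_zero, if_true, if_false, Bool.false_eq_true] at hg he hpm ⊢
      have g0 := hpm.1
      have g1 := hpm.2.1
      have g2 := hpm.2.2.1
      have g3 := hpm.2.2.2.1
      have g4 := hpm.2.2.2.2
      have e0 := holds5 he
      apply H5_h5
      simp only [q0, q1, q2, q3, q4]
      norm_num at e0 ⊢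
      linarith [g0.1, g0.2, g1.1, g1.2, g2.1, g2.2, g3.1, g3.2, g4.1, g4.2]
  · refine app5 hc S _ hb ⟨1, 0, ?_, ?_⟩
    · intro g h
      have h1 := hg g h
      rw [Nat.cast_zero, add_zero, add_zero]
      exact h1
    · change ∀ g ∈ (sch5 1).glue, _ at hg
      change ∀ g ∈ (sch5 1).glue, _ at hpm
      change ∀ E ∈ (sch5 1).eqs, _ at he
      simp only [sch5, List.getD_cons_zero, List.getD_cons_succ, List.forall_mem_cons,
        List.not_mem_nil, IsEmpty.forall_iff, implies_true, and_true, Nat.cast_zero, Nat.cast_one,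
        Nat.cast_ofNat, add_zero, if_true, if_false, Bool.false_eq_true] at hg he hpm ⊢
      have g0 := hpm.1
      have g1 := hpm.2.1
      have g2 := hpm.2.2.1
      have g3 := hpm.2.2.2.1
      have g4 := hpm.2.2.2.2
      have e0 := holds5 he
      apply H5_h5
      simp only [q0, q1, q2, q3, q4]
      norm_num at e0 ⊢
      linarith [g0.1, g0.2, g1.1, g1.2, g2.1, g2.2, g3.1, g3.2, g4.1, g4.2]
  · refine app5 hc S _ hb ⟨2, 0, ?_, ?_⟩
    · intro g h
      have h1 := hg g h
      rw [Nat.cast_zero, add_zero, add_zero]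
      exact h1
    · change ∀ g ∈ (sch5 2).glue, _ at hg
      change ∀ g ∈ (sch5 2).glue, _ at hpm
      change ∀ E ∈ (sch5 2).eqs, _ at he
      simp only [sch5, List.getD_cons_zero, List.getD_cons_succ, List.forall_mem_cons,
        List.not_mem_nil, IsEmpty.forall_iff, implies_true, and_true, Nat.cast_zero, Nat.cast_one,
        Nat.cast_ofNat, add_zero, if_true, if_false, Bool.false_eq_true] at hg he hpm ⊢
      have g0 := hpm.1
      have g1 := hpm.2.1
      have g2 := hpm.2.2.1
      have g3 := hpm.2.2.2.1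
      have g4 := hpm.2.2.2.2
      have e0 := holds5 he
      apply H5_h5
      simp only [q0, q1, q2, q3, q4]
      norm_num at e0 ⊢
      linarith [g0.1, g0.2, g1.1, g1.2, g2.1, g2.2, g3.1, g3.2, g4.1, g4.2]
  · refine app5 hc S _ hb ⟨3, 0, ?_, ?_⟩
    · intro g h
      have h1 := hg g h
      rw [Nat.cast_zero, add_zero, add_zero]
      exact h1
    · change ∀ g ∈ (sch5 3).glue, _ at hg
      change ∀ g ∈ (sch5 3).glue, _ at hpm
      change ∀ E ∈ (sch5 3).eqs, _ at he
      simp only [sch5, List.getD_cons_zero, List.getD_cons_succ, List.forall_mem_cons,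
        List.not_mem_nil, IsEmpty.forall_iff, implies_true, and_true, Nat.cast_zero, Nat.cast_one,
        Nat.cast_ofNat, add_zero, if_true, if_false, Bool.false_eq_true] at hg he hpm ⊢
      have g0 := hpm.1
      have g1 := hpm.2.1
      have g2 := hpm.2.2.1
      have g3 := hpm.2.2.2.1
      have g4 := hpm.2.2.2.2
      have e0 := holds5 he
      apply H5_h5
      simp only [q0, q1, q2, q3, q4]
      norm_num at e0 ⊢
      linarith [g0.1, g0.2, g1.1, g1.2, g2.1, g2.2, g3.1, g3.2, g4.1, g4.2]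
  · refine app5 hc S _ hb ⟨4, 0, ?_, ?_⟩
    · intro g h
      have h1 := hg g h
      rw [Nat.cast_zero, add_zero, add_zero]
      exact h1
    · change ∀ g ∈ (sch5 4).glue, _ at hg
      change ∀ g ∈ (sch5 4).glue, _ at hpm
      change ∀ E ∈ (sch5 4).eqs, _ at he
      simp only [sch5, List.getD_cons_zero, List.getD_cons_succ, List.forall_mem_cons,
        List.not_mem_nil, IsEmpty.forall_iff, implies_true, and_true, Nat.cast_zero, Nat.cast_one,
        Nat.cast_ofNat, add_zero, if_true, if_false, Bool.false_eq_true] at hg he hpm ⊢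
      have g0 := hpm.1
      have g1 := hpm.2.1
      have g2 := hpm.2.2.1
      have g3 := hpm.2.2.2.1
      have g4 := hpm.2.2.2.2
      have e0 := holds5 he.1
      have e1 := holds5 he.2
      refine ⟨?_, ?_⟩
      · apply H5_h5
        simp only [q0, q1, q2, q3, q4]
        norm_num at e0 ⊢
        linarith [g0.1, g0.2, g1.1, g1.2, g2.1, g2.2, g3.1, g3.2, g4.1, g4.2]
      · apply H5_h5
        simp only [q0, q1, q2, q3, q4]
        norm_num at e1 ⊢
        linarith [g0.1, g0.2, g1.1, g1.2, g2.1, g2.2, g3.1, g3.2, g4.1, g4.2]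
  · refine app5 hc S _ hb ⟨5, 0, ?_, ?_⟩
    · intro g h
      have h1 := hg g h
      rw [Nat.cast_zero, add_zero, add_zero]
      exact h1
    · change ∀ g ∈ (sch5 5).glue, _ at hg
      change ∀ g ∈ (sch5 5).glue, _ at hpm
      change ∀ E ∈ (sch5 5).eqs, _ at he
      simp only [sch5, List.getD_cons_zero, List.getD_cons_succ, List.forall_mem_cons,
        List.not_mem_nil, IsEmpty.forall_iff, implies_true, and_true, Nat.cast_zero, Nat.cast_one,
        Nat.cast_ofNat, add_zero, if_true, if_false, Bool.false_eq_true] at hg he hpm ⊢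
      have g0 := hpm.1
      have g1 := hpm.2.1
      have g2 := hpm.2.2.1
      have g3 := hpm.2.2.2.1
      have g4 := hpm.2.2.2.2
      have e0 := holds5 he.1
      have e1 := holds5 he.2
      refine ⟨?_, ?_⟩
      · apply H5_h5
        simp only [q0, q1, q2, q3, q4]
        norm_num at e0 ⊢
        linarith [g0.1, g0.2, g1.1, g1.2, g2.1, g2.2, g3.1, g3.2, g4.1, g4.2]
      · apply H5_h5
        simp only [q0, q1, q2, q3, q4]
        norm_num at e1 ⊢
        linarith [g0.1, g0.2, g1.1, g1.2, g2.1, g2.2, g3.1, g3.2, g4.1, g4.2]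
  · refine app5 hc S _ hb ⟨6, 0, ?_, ?_⟩
    · intro g h
      have h1 := hg g h
      rw [Nat.cast_zero, add_zero, add_zero]
      exact h1
    · change ∀ g ∈ (sch5 6).glue, _ at hg
      change ∀ g ∈ (sch5 6).glue, _ at hpm
      change ∀ E ∈ (sch5 6).eqs, _ at he
      simp only [sch5, List.getD_cons_zero, List.getD_cons_succ, List.forall_mem_cons,
        List.not_mem_nil, IsEmpty.forall_iff, implies_true, and_true, Nat.cast_zero, Nat.cast_one,
        Nat.cast_ofNat, add_zero, if_true, if_false, Bool.false_eq_true] at hg he hpm ⊢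
      have g0 := hpm.1
      have g1 := hpm.2.1
      have g2 := hpm.2.2.1
      have g3 := hpm.2.2.2.1
      have g4 := hpm.2.2.2.2
      have e0 := holds5 he.1
      have e1 := holds5 he.2
      refine ⟨?_, ?_⟩
      · apply H5_h5
        simp only [q0, q1, q2, q3, q4]
        norm_num at e0 ⊢
        linarith [g0.1, g0.2, g1.1, g1.2, g2.1, g2.2, g3.1, g3.2, g4.1, g4.2]
      · apply H5_h5
        simp only [q0, q1, q2, q3, q4]
        norm_num at e1 ⊢
        linarith [g0.1, g0.2, g1.1, g1.2, g2.1, g2.2, g3.1, g3.2, g4.1, g4.2]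
  · exact (holds_nil (he _ (List.mem_singleton.2 rfl))).elim
  · exact (holds_nil (he _ (List.mem_singleton.2 rfl))).elim

private theorem appH6 (hc : P.CCW) (S : Arcs P 6) (k : ℕ)
    (hg : ∀ g ∈ (schM 6 k).glue, S.Rel g.1 g.2.1 g.2.2)
    (he : ∀ E ∈ (schM 6 k).eqs, Eqn.Holds E fun j => P.ang (S.κ j) / Real.pi) : HasPeriodic P := by
  obtain ⟨σ, ε, hp, hm, hb⟩ := S.chord_anglesL (by norm_num) (schM 6 k).glue hg (H5_lt 6 k)
    (H5_sym 6 k) (H5_uni 6 k)
  have hpm : ∀ g ∈ (schM 6 k).glue, if g.2.2 = true then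
      σ (g.1 : ZMod 6) = ε (g.2.1 : ZMod 6) ∧ ε (g.1 : ZMod 6) = σ (g.2.1 : ZMod 6) else
      σ (g.1 : ZMod 6) = -σ (g.2.1 : ZMod 6) ∧ ε (g.1 : ZMod 6) = -ε (g.2.1 : ZMod 6) := by
    intro g hgm
    split_ifs with h
    · exact hp g hgm h
    · exact hm g hgm (Bool.eq_false_iff.2 h)
  have q0 : (0 - 1 : ZMod 6) = 5 := by decide
  have q1 : (1 - 1 : ZMod 6) = 0 := by decide
  have q2 : (2 - 1 : ZMod 6) = 1 := by decide
  have q3 : (3 - 1 : ZMod 6) = 2 := by decide
  have q4 : (4 - 1 : ZMod 6) = 3 := by decide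
  have q5 : (5 - 1 : ZMod 6) = 4 := by decide
  rcases k with _ | _ | _ | _ | _ | _ | _ | _ | k
  · refine app6 hc S _ hb ⟨0, 0, ?_, ?_⟩
    · intro g h
      have h1 := hg g h
      rw [Nat.cast_zero, add_zero, add_zero]
      exact h1
    · change ∀ g ∈ (sch6 0).glue, _ at hg
      change ∀ g ∈ (sch6 0).glue, _ at hpm
      change ∀ E ∈ (sch6 0).eqs, _ at he
      simp only [sch6, List.getD_cons_zero, List.getD_cons_succ, List.forall_mem_cons,
        List.not_mem_nil, IsEmpty.forall_iff, implies_true, and_true, Nat.cast_zero, Nat.cast_one,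
        Nat.cast_ofNat, add_zero, if_true, if_false, Bool.false_eq_true] at hg he hpm ⊢
      have g0 := hpm.1
      have g1 := hpm.2.1
      have g2 := hpm.2.2.1
      have g3 := hpm.2.2.2.1
      have g4 := hpm.2.2.2.2.1
      have g5 := hpm.2.2.2.2.2
      have e0 := holds6 he
      apply H5_h6
      simp only [q0, q1, q2, q3, q4, q5]
      norm_num at e0 ⊢
      linarith [g0.1, g0.2, g1.1, g1.2, g2.1, g2.2, g3.1, g3.2, g4.1, g4.2, g5.1, g5.2]
  · refine app6 hc S _ hb ⟨1, 0, ?_, ?_⟩
    · intro g h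
      have h1 := hg g h
      rw [Nat.cast_zero, add_zero, add_zero]
      exact h1
    · change ∀ g ∈ (sch6 1).glue, _ at hg
      change ∀ g ∈ (sch6 1).glue, _ at hpm
      change ∀ E ∈ (sch6 1).eqs, _ at he
      simp only [sch6, List.getD_cons_zero, List.getD_cons_succ, List.forall_mem_cons,
        List.not_mem_nil, IsEmpty.forall_iff, implies_true, and_true, Nat.cast_zero, Nat.cast_one,
        Nat.cast_ofNat, add_zero, if_true, if_false, Bool.false_eq_true] at hg he hpm ⊢
      have g0 := hpm.1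
      have g1 := hpm.2.1
      have g2 := hpm.2.2.1
      have g3 := hpm.2.2.2.1
      have g4 := hpm.2.2.2.2.1
      have g5 := hpm.2.2.2.2.2
      have e0 := holds6 he.1
      have e1 := holds6 he.2
      refine ⟨?_, ?_⟩
      · apply H5_h6
        simp only [q0, q1, q2, q3, q4, q5]
        norm_num at e0 ⊢
        linarith [g0.1, g0.2, g1.1, g1.2, g2.1, g2.2, g3.1, g3.2, g4.1, g4.2, g5.1, g5.2]
      · apply H5_h6
        simp only [q0, q1, q2, q3, q4, q5]
        norm_num at e1 ⊢
        linarith [g0.1, g0.2, g1.1, g1.2, g2.1, g2.2, g3.1, g3.2, g4.1, g4.2, g5.1, g5.2]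
  · refine app6 hc S _ hb ⟨2, 0, ?_, ?_⟩
    · intro g h
      have h1 := hg g h
      rw [Nat.cast_zero, add_zero, add_zero]
      exact h1
    · change ∀ g ∈ (sch6 2).glue, _ at hg
      change ∀ g ∈ (sch6 2).glue, _ at hpm
      change ∀ E ∈ (sch6 2).eqs, _ at he
      simp only [sch6, List.getD_cons_zero, List.getD_cons_succ, List.forall_mem_cons,
        List.not_mem_nil, IsEmpty.forall_iff, implies_true, and_true, Nat.cast_zero, Nat.cast_one,
        Nat.cast_ofNat, add_zero, if_true, if_false, Bool.false_eq_true] at hg he hpm ⊢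
      have g0 := hpm.1
      have g1 := hpm.2.1
      have g2 := hpm.2.2.1
      have g3 := hpm.2.2.2.1
      have g4 := hpm.2.2.2.2.1
      have g5 := hpm.2.2.2.2.2
      have e0 := holds6 he.1
      have e1 := holds6 he.2.1
      have e2 := holds6 he.2.2
      refine ⟨?_, ?_, ?_⟩
      · apply H5_h6
        simp only [q0, q1, q2, q3, q4, q5]
        norm_num at e0 ⊢
        linarith [g0.1, g0.2, g1.1, g1.2, g2.1, g2.2, g3.1, g3.2, g4.1, g4.2, g5.1, g5.2]
      · apply H5_h6
        simp only [q0, q1, q2, q3, q4, q5]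
        norm_num at e1 ⊢
        linarith [g0.1, g0.2, g1.1, g1.2, g2.1, g2.2, g3.1, g3.2, g4.1, g4.2, g5.1, g5.2]
      · apply H5_h6
        simp only [q0, q1, q2, q3, q4, q5]
        norm_num at e2 ⊢
        linarith [g0.1, g0.2, g1.1, g1.2, g2.1, g2.2, g3.1, g3.2, g4.1, g4.2, g5.1, g5.2]
  · refine app6 hc S _ hb ⟨3, 0, ?_, ?_⟩
    · intro g h
      have h1 := hg g h
      rw [Nat.cast_zero, add_zero, add_zero]
      exact h1
    · change ∀ g ∈ (sch6 3).glue, _ at hg
      change ∀ g ∈ (sch6 3).glue, _ at hpm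
      change ∀ E ∈ (sch6 3).eqs, _ at he
      simp only [sch6, List.getD_cons_zero, List.getD_cons_succ, List.forall_mem_cons,
        List.not_mem_nil, IsEmpty.forall_iff, implies_true, and_true, Nat.cast_zero, Nat.cast_one,
        Nat.cast_ofNat, add_zero, if_true, if_false, Bool.false_eq_true] at hg he hpm ⊢
      have g0 := hpm.1
      have g1 := hpm.2.1
      have g2 := hpm.2.2.1
      have g3 := hpm.2.2.2.1
      have g4 := hpm.2.2.2.2.1
      have g5 := hpm.2.2.2.2.2
      have e0 := holds6 he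
      apply H5_h6
      simp only [q0, q1, q2, q3, q4, q5]
      norm_num at e0 ⊢
      linarith [g0.1, g0.2, g1.1, g1.2, g2.1, g2.2, g3.1, g3.2, g4.1, g4.2, g5.1, g5.2]
  · refine app6 hc S _ hb ⟨4, 0, ?_, ?_⟩
    · intro g h
      have h1 := hg g h
      rw [Nat.cast_zero, add_zero, add_zero]
      exact h1
    · change ∀ g ∈ (sch6 4).glue, _ at hg
      change ∀ g ∈ (sch6 4).glue, _ at hpm
      change ∀ E ∈ (sch6 4).eqs, _ at he
      simp only [sch6, List.getD_cons_zero, List.getD_cons_succ, List.forall_mem_cons,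
        List.not_mem_nil, IsEmpty.forall_iff, implies_true, and_true, Nat.cast_zero, Nat.cast_one,
        Nat.cast_ofNat, add_zero, if_true, if_false, Bool.false_eq_true] at hg he hpm ⊢
      have g0 := hpm.1
      have g1 := hpm.2.1
      have g2 := hpm.2.2.1
      have g3 := hpm.2.2.2.1
      have g4 := hpm.2.2.2.2.1
      have g5 := hpm.2.2.2.2.2
      have e0 := holds6 he
      apply H5_h6
      simp only [q0, q1, q2, q3, q4, q5]
      norm_num at e0 ⊢
      linarith [g0.1, g0.2, g1.1, g1.2, g2.1, g2.2, g3.1, g3.2, g4.1, g4.2, g5.1, g5.2]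
  · refine app6 hc S _ hb ⟨5, 0, ?_, ?_⟩
    · intro g h
      have h1 := hg g h
      rw [Nat.cast_zero, add_zero, add_zero]
      exact h1
    · change ∀ g ∈ (sch6 5).glue, _ at hg
      change ∀ g ∈ (sch6 5).glue, _ at hpm
      change ∀ E ∈ (sch6 5).eqs, _ at he
      simp only [sch6, List.getD_cons_zero, List.getD_cons_succ, List.forall_mem_cons,
        List.not_mem_nil, IsEmpty.forall_iff, implies_true, and_true, Nat.cast_zero, Nat.cast_one,
        Nat.cast_ofNat, add_zero, if_true, if_false, Bool.false_eq_true] at hg he hpm ⊢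
      have g0 := hpm.1
      have g1 := hpm.2.1
      have g2 := hpm.2.2.1
      have g3 := hpm.2.2.2.1
      have g4 := hpm.2.2.2.2.1
      have g5 := hpm.2.2.2.2.2
      have e0 := holds6 he.1
      have e1 := holds6 he.2
      refine ⟨?_, ?_⟩
      · apply H5_h6
        simp only [q0, q1, q2, q3, q4, q5]
        norm_num at e0 ⊢
        linarith [g0.1, g0.2, g1.1, g1.2, g2.1, g2.2, g3.1, g3.2, g4.1, g4.2, g5.1, g5.2]
      · apply H5_h6
        simp only [q0, q1, q2, q3, q4, q5]
        norm_num at e1 ⊢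
        linarith [g0.1, g0.2, g1.1, g1.2, g2.1, g2.2, g3.1, g3.2, g4.1, g4.2, g5.1, g5.2]
  · refine app6 hc S _ hb ⟨6, 0, ?_, ?_⟩
    · intro g h
      have h1 := hg g h
      rw [Nat.cast_zero, add_zero, add_zero]
      exact h1
    · change ∀ g ∈ (sch6 6).glue, _ at hg
      change ∀ g ∈ (sch6 6).glue, _ at hpm
      change ∀ E ∈ (sch6 6).eqs, _ at he
      simp only [sch6, List.getD_cons_zero, List.getD_cons_succ, List.forall_mem_cons,
        List.not_mem_nil, IsEmpty.forall_iff, implies_true, and_true, Nat.cast_zero, Nat.cast_one,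
        Nat.cast_ofNat, add_zero, if_true, if_false, Bool.false_eq_true] at hg he hpm ⊢
      have g0 := hpm.1
      have g1 := hpm.2.1
      have g2 := hpm.2.2.1
      have g3 := hpm.2.2.2.1
      have g4 := hpm.2.2.2.2.1
      have g5 := hpm.2.2.2.2.2
      have e0 := holds6 he
      apply H5_h6
      simp only [q0, q1, q2, q3, q4, q5]
      norm_num at e0 ⊢
      linarith [g0.1, g0.2, g1.1, g1.2, g2.1, g2.2, g3.1, g3.2, g4.1, g4.2, g5.1, g5.2]
  · exact (holds_nil (he _ (List.mem_singleton.2 rfl))).elim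
  · exact (holds_nil (he _ (List.mem_singleton.2 rfl))).elim

variable {m : ℕ} [NeZero m]

private theorem H5_eq (S : Arcs P m) {nu : List ℕ} (h : nuOK m nu = true) {M : ℕ} [NeZero M]
    (hM : nu.length = M) {E : Eqn}
    (hE : ∑ j ∈ Finset.range nu.length, ((E.1.getD j 0 : ℤ) : ℝ) *
      (P.ang (S.κ (nuA m nu j 0)) / Real.pi) = (E.2 : ℝ)) :
    Eqn.Holds E fun j => P.ang ((S.coarse h hM).κ j) / Real.pi := by
  unfold Eqn.Holds
  rw [hM] at hE
  rw [← hE]
  exact sum_zmod_range (M := M) (fun j => ((E.1.getD j 0 : ℤ) : ℝ) *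
      (P.ang (S.κ (nuA m nu j 0)) / Real.pi))

theorem appH (hc : P.CCW) (S : Arcs P m)
    (h : AppliesM (fun j => P.ang (S.κ j) / Real.pi) S.Rel) : HasPeriodic P := by
  obtain ⟨k, nu, hok, hg, he⟩ := h
  have key : ∀ (M : ℕ) [NeZero M] (hM : nu.length = M),
      (∀ g ∈ (schM M k).glue, (S.coarse hok hM).Rel g.1 g.2.1 g.2.2) ∧
      (∀ E ∈ (schM M k).eqs, Eqn.Holds E fun j => P.ang ((S.coarse hok hM).κ j) / Real.pi) := by
    intro M _ hM
    rw [hM] at hg he
    refine ⟨fun g hgm => ?_, fun E hE => ?_⟩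
    · have h1 := H5_lt M k g hgm
      exact coarse_rel S hok hM h1.1 h1.2 (hg g hgm)
    · refine H5_eq S hok hM ?_
      rw [hM]
      exact he E hE
  by_cases h3 : nu.length = 3
  · exact appH3 hc _ k (key 3 h3).1 (key 3 h3).2
  by_cases h4 : nu.length = 4
  · exact appH4 hc _ k (key 4 h4).1 (key 4 h4).2
  by_cases h5 : nu.length = 5
  · exact appH5 hc _ k (key 5 h5).1 (key 5 h5).2
  by_cases h6 : nu.length = 6
  · exact appH6 hc _ k (key 6 h6).1 (key 6 h6).2
  exfalso
  have h7 : (schM nu.length k) = ⟨[], [([], 1)]⟩ := by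
    unfold schM
    split <;> first | rfl | omega
  have h8 := he ([], 1) (by rw [h7]; exact List.mem_singleton.2 rfl)
  simp at h8


end Pool.Agent.Lib_MP_fa6e45
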