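import Pool.Agent.Lib_MP_fa6e45.X1a
import Pool.Agent.Lib_MP_fa6e45.A3b

/-!
PIECE X1c (about 150 lines): the area by the chords. `Polygon.area_eq` and the bijection `(j, t) ↦ κ j + t`
(`t < w j`) give `2 area = ∑ j, ∑ t < w j, cr (vertex (κ j + t)) (vertex (κ j + t + 1))`. Put
`D j = (∑ t < w j, cr (X t) (X (t + 1))) - cr (V j) (V (j + 1))` (twice the area between arc and chord;
invariant under translations). It is `0` for `w j = 1`, and `D j = - D k` if `Plus j k` or `Minus j k`: take the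
motion of `lift_plus` (`a = ch j / (- ch k)`) or `lift_minus` (`a = ch j / conj (ch k)`; norms by `norm_plus`,
`norm_minus`). Sum over `j` with the involution `τ`.
-/

open Set MeasureTheory Complex
open scoped Topology

namespace Pool.Agent.Lib_MP_fa6e45

open Pool.Agent.Lib_PL (cr InSector Poly)
variable {n : ℕ} {P : Polygon n} {m : ℕ} [NeZero m] (S : Arcs P m)

/-! ## sums over the corners -/

private theorem X1c_sum_range {N : ℕ} [NeZero N] {M : Type*} [AddCommMonoid M] (f : ZMod N → M) :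
    ∑ i ∈ Finset.range N, f ((i : ℕ) : ZMod N) = ∑ i : ZMod N, f i := by
  refine Finset.sum_bij' (fun i _ => ((i : ℕ) : ZMod N)) (fun k _ => ZMod.val k) ?_ ?_ ?_ ?_ ?_
  · intro i _
    exact Finset.mem_univ _
  · intro k _
    exact Finset.mem_range.2 (ZMod.val_lt k)
  · intro i hi
    exact ZMod.val_cast_of_lt (Finset.mem_range.1 hi)
  · intro k _
    exact ZMod.natCast_zmod_val k
  · intro i _
    rfl

/-- the number of sides of the arcs `0, ..., r - 1` -/
private def X1c_K (w : ZMod m → ℕ) (r : ℕ) : ℕ := ∑ i ∈ Finset.range r, w ((i : ℕ) : ZMod m)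

private theorem X1c_κ (r : ℕ) :
    S.κ ((r : ℕ) : ZMod m) = S.κ 0 + ((X1c_K S.w r : ℕ) : ZMod n) := by
  induction r with
  | zero => simp [X1c_K]
  | succ r ih =>
    have h1 := S.step ((r : ℕ) : ZMod m)
    have h2 : (((r + 1 : ℕ)) : ZMod m) = ((r : ℕ) : ZMod m) + 1 := by push_cast; rfl
    have h3 : X1c_K S.w (r + 1) = X1c_K S.w r + S.w ((r : ℕ) : ZMod m) := by
      unfold X1c_K
      rw [Finset.sum_range_succ]
    rw [h2, h1, ih, h3]
    push_cast
    ring

private theorem X1c_total : X1c_K S.w m = n := by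
  unfold X1c_K
  rw [X1c_sum_range (fun j => S.w j)]
  exact S.total

private theorem X1c_sum_K (w : ZMod m → ℕ) (g : ℕ → ℝ) (r : ℕ) :
    ∑ i ∈ Finset.range r, ∑ t ∈ Finset.range (w ((i : ℕ) : ZMod m)), g (X1c_K w i + t)
      = ∑ s ∈ Finset.range (X1c_K w r), g s := by
  induction r with
  | zero => simp [X1c_K]
  | succ r ih =>
    have h3 : X1c_K w (r + 1) = X1c_K w r + w ((r : ℕ) : ZMod m) := by
      unfold X1c_K
      rw [Finset.sum_range_succ]
    rw [Finset.sum_range_succ, ih, h3, Finset.sum_range_add]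

private theorem X1c_sum [NeZero n] (f : ZMod n → ℝ) :
    ∑ i : ZMod n, f i = ∑ j : ZMod m, ∑ t ∈ Finset.range (S.w j), f (S.κ j + ((t : ℕ) : ZMod n)) := by
  have h1 : ∑ i : ZMod n, f i = ∑ i : ZMod n, f (S.κ 0 + i) :=
    (Equiv.sum_comp (Equiv.addLeft (S.κ 0)) f).symm
  rw [h1, ← X1c_sum_range (fun i : ZMod n => f (S.κ 0 + i)),
    ← X1c_sum_range (fun j : ZMod m => ∑ t ∈ Finset.range (S.w j), f (S.κ j + ((t : ℕ) : ZMod n)))]
  have h2 := X1c_sum_K S.w (fun s : ℕ => f (S.κ 0 + ((s : ℕ) : ZMod n))) m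
  rw [X1c_total S] at h2
  rw [← h2]
  refine Finset.sum_congr rfl fun i _ => Finset.sum_congr rfl fun t _ => ?_
  rw [X1c_κ S i]
  push_cast
  rw [add_assoc]

/-! ## twice the area between a polyline and its chord -/

private noncomputable def X1c_D (X : ℕ → ℂ) (w : ℕ) : ℝ :=
  (∑ t ∈ Finset.range w, cr (X t) (X (t + 1))) - cr (X 0) (X w)

private theorem X1c_cr_mul (a u v : ℂ) (ha : ‖a‖ = 1) : cr (a * u) (a * v) = cr u v := by
  have h1 : a.re * a.re + a.im * a.im = 1 := by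
    rw [← Complex.normSq_apply, Complex.normSq_eq_norm_sq, ha]
    norm_num
  have h2 : cr (a * u) (a * v) = (a.re * a.re + a.im * a.im) * cr u v := by
    simp only [cr, Complex.mul_re, Complex.mul_im]
    ring
  rw [h2, h1, one_mul]

private theorem X1c_cr_motion (a b u v : ℂ) (ha : ‖a‖ = 1) :
    cr (a * u + b) (a * v + b) = cr u v + (cr b (a * v) - cr b (a * u)) := by
  have h1 : cr (a * u + b) (a * v + b) = cr (a * u) (a * v) + (cr b (a * v) - cr b (a * u)) := by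
    simp only [cr, Complex.add_re, Complex.add_im]
    ring
  rw [h1, X1c_cr_mul a u v ha]

private theorem X1c_D_motion (X Y : ℕ → ℂ) (w : ℕ) (a b : ℂ) (ha : ‖a‖ = 1)
    (h : ∀ t, t ≤ w → Y t = a * X t + b) : X1c_D Y w = X1c_D X w := by
  unfold X1c_D
  have h1 : ∑ t ∈ Finset.range w, cr (Y t) (Y (t + 1))
      = ∑ t ∈ Finset.range w, cr (X t) (X (t + 1)) + (cr b (a * X w) - cr b (a * X 0)) := by
    rw [← Finset.sum_range_sub (fun t => cr b (a * X t)) w, ← Finset.sum_add_distrib]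
    refine Finset.sum_congr rfl fun t ht => ?_
    have ht' := Finset.mem_range.1 ht
    rw [h t (by omega), h (t + 1) (by omega), X1c_cr_motion a b _ _ ha]
  rw [h1, h 0 (by omega), h w le_rfl, X1c_cr_motion a b _ _ ha]
  ring

private theorem X1c_D_reverse (X Y : ℕ → ℂ) (w : ℕ)
    (h : ∀ t s : ℕ, t + s = w → Y t = X s) : X1c_D Y w = -X1c_D X w := by
  unfold X1c_D
  have h1 : ∑ t ∈ Finset.range w, cr (Y t) (Y (t + 1))
      = -∑ t ∈ Finset.range w, cr (X t) (X (t + 1)) := by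
    rw [← Finset.sum_range_reflect (fun t => cr (X t) (X (t + 1))) w, ← Finset.sum_neg_distrib]
    refine Finset.sum_congr rfl fun t ht => ?_
    have ht' := Finset.mem_range.1 ht
    rw [h t (w - 1 - t + 1) (by omega), h (t + 1) (w - 1 - t) (by omega),
      Pool.Agent.Lib_PL.cr_swap]
  rw [h1, h 0 w (by omega), h w 0 (by omega), Pool.Agent.Lib_PL.cr_swap (X w) (X 0)]
  ring

private theorem X1c_D_conj (X Y : ℕ → ℂ) (w : ℕ)
    (h : ∀ t : ℕ, t ≤ w → Y t = (starRingEnd ℂ) (X t)) : X1c_D Y w = -X1c_D X w := by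
  unfold X1c_D
  have h1 : ∑ t ∈ Finset.range w, cr (Y t) (Y (t + 1))
      = -∑ t ∈ Finset.range w, cr (X t) (X (t + 1)) := by
    rw [← Finset.sum_neg_distrib]
    refine Finset.sum_congr rfl fun t ht => ?_
    have ht' := Finset.mem_range.1 ht
    rw [h t (by omega), h (t + 1) (by omega), Pool.Agent.Lib_PL.cr_conj]
  rw [h1, h 0 (by omega), h w le_rfl, Pool.Agent.Lib_PL.cr_conj]
  ring

/-- the polyline of arc `j` -/
private def X1c_X (j : ZMod m) (t : ℕ) : ℂ := P.vertex (S.κ j + ((t : ℕ) : ZMod n))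

private theorem X1c_X_zero (j : ZMod m) : X1c_X S j 0 = S.V j := by
  unfold X1c_X Arcs.V
  rw [Nat.cast_zero, add_zero]

private theorem X1c_X_w (j : ZMod m) : X1c_X S j (S.w j) = S.V (j + 1) := by
  unfold X1c_X Arcs.V
  rw [S.step]

private theorem X1c_plus (hm : 2 ≤ m) {j k : ZMod m} (h : S.Plus j k) :
    X1c_D (X1c_X S j) (S.w j) = -X1c_D (X1c_X S k) (S.w k) := by
  have hj := S.ch_ne hm j
  have hk := S.ch_ne hm k
  have hn := S.norm_plus h
  have hw := h.1
  obtain ⟨a, ha0⟩ : ∃ a : ℂ, a = S.ch j / (-S.ch k) := ⟨_, rfl⟩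
  obtain ⟨b, hb0⟩ : ∃ b : ℂ, b = S.V j - a * S.V (k + 1) := ⟨_, rfl⟩
  have ha : ‖a‖ = 1 := by
    rw [ha0, norm_div, norm_neg, hn, div_self (norm_ne_zero_iff.2 hk)]
  have hac : a * S.ch k = -S.ch j := by
    rw [ha0]
    field_simp
  have h1 : a * S.V (k + 1) + b = S.V j := by rw [hb0]; ring
  have h2 : a * S.V k + b = S.V (j + 1) := by
    unfold Arcs.ch at hac
    rw [hb0]
    linear_combination -hac
  have h3 := S.lift_plus hm h ha h1 h2
  have e1 : X1c_D (X1c_X S j) (S.w j)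
      = X1c_D (fun t => X1c_X S k (S.w j - t)) (S.w j) := by
    refine X1c_D_motion _ _ _ a b ha fun t ht => ?_
    exact (h3 t (S.w j - t) (by omega)).symm
  have e2 : X1c_D (fun t => X1c_X S k (S.w j - t)) (S.w j) = -X1c_D (X1c_X S k) (S.w j) := by
    refine X1c_D_reverse _ _ _ fun t s hts => ?_
    change X1c_X S k (S.w j - t) = X1c_X S k s
    have : S.w j - t = s := by omega
    rw [this]
  rw [e1, e2, hw]

private theorem X1c_minus (hm : 2 ≤ m) {j k : ZMod m} (h : S.Minus j k) :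
    X1c_D (X1c_X S j) (S.w j) = -X1c_D (X1c_X S k) (S.w k) := by
  have hj := S.ch_ne hm j
  have hk := S.ch_ne hm k
  have hn := S.norm_minus h
  have hw := h.1
  have hk' : (starRingEnd ℂ) (S.ch k) ≠ 0 := by
    rw [Ne, map_eq_zero]
    exact hk
  obtain ⟨a, ha0⟩ : ∃ a : ℂ, a = S.ch j / (starRingEnd ℂ) (S.ch k) := ⟨_, rfl⟩
  obtain ⟨b, hb0⟩ : ∃ b : ℂ, b = S.V j - a * (starRingEnd ℂ) (S.V k) := ⟨_, rfl⟩
  have ha : ‖a‖ = 1 := by
    rw [ha0, norm_div, RCLike.norm_conj, hn, div_self (norm_ne_zero_iff.2 hk)]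
  have hac : a * (starRingEnd ℂ) (S.ch k) = S.ch j := by
    rw [ha0, div_mul_cancel₀ _ hk']
  have h1 : a * (starRingEnd ℂ) (S.V k) + b = S.V j := by rw [hb0]; ring
  have h2 : a * (starRingEnd ℂ) (S.V (k + 1)) + b = S.V (j + 1) := by
    unfold Arcs.ch at hac
    rw [map_sub] at hac
    rw [hb0]
    linear_combination hac
  have h3 := S.lift_minus hm h ha h1 h2
  have e1 : X1c_D (X1c_X S j) (S.w j)
      = X1c_D (fun t => (starRingEnd ℂ) (X1c_X S k t)) (S.w j) := by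
    refine X1c_D_motion _ _ _ a b ha fun t ht => ?_
    exact (h3 t ht).symm
  have e2 : X1c_D (fun t => (starRingEnd ℂ) (X1c_X S k t)) (S.w j)
      = -X1c_D (X1c_X S k) (S.w j) :=
    X1c_D_conj _ _ _ fun t _ => rfl
  rw [e1, e2, hw]

private theorem X1c_one {j : ZMod m} (h : S.w j = 1) : X1c_D (X1c_X S j) (S.w j) = 0 := by
  unfold X1c_D
  rw [h]
  simp

theorem Arcs.area (hc : P.CCW) (hm : 2 ≤ m) (τ : ZMod m → ZMod m) (hτ : ∀ j, τ (τ j) = j)
    (h : ∀ j, (S.w j = 1 ∧ S.w (τ j) = 1) ∨ ∃ b, S.Rel j (τ j) b) :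
    2 * (volume P.region).toReal = ∑ j, cr (S.V j) (S.V (j + 1)) := by
  have hn : n ≠ 0 := by
    have h1 := S.total
    have h2 : 0 < ∑ j, S.w j :=
      Finset.sum_pos (fun j _ => S.w_pos j) ⟨0, Finset.mem_univ _⟩
    omega
  have : NeZero n := ⟨hn⟩
  have h1 : 2 * (volume P.region).toReal = ∑ i : ZMod n, cr (P.vertex i) (P.vertex (i + 1)) := by
    rw [P.area_eq hc]
    ring
  have h2 : ∀ j, ∑ t ∈ Finset.range (S.w j), cr (P.vertex (S.κ j + ((t : ℕ) : ZMod n)))
      (P.vertex (S.κ j + ((t : ℕ) : ZMod n) + 1))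
      = X1c_D (X1c_X S j) (S.w j) + cr (S.V j) (S.V (j + 1)) := by
    intro j
    unfold X1c_D
    rw [X1c_X_zero, X1c_X_w, sub_add_cancel]
    refine Finset.sum_congr rfl fun t _ => ?_
    unfold X1c_X
    push_cast
    rw [add_assoc]
  have h3 : ∀ j, X1c_D (X1c_X S (τ j)) (S.w (τ j)) = -X1c_D (X1c_X S j) (S.w j) := by
    intro j
    rcases h j with ⟨h4, h5⟩ | ⟨b, hb⟩
    · rw [X1c_one S h4, X1c_one S h5, neg_zero]
    · have h6 : X1c_D (X1c_X S j) (S.w j) = -X1c_D (X1c_X S (τ j)) (S.w (τ j)) := by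
        cases b with
        | true => exact X1c_plus S hm (by simpa [Arcs.Rel] using hb)
        | false => exact X1c_minus S hm (by simpa [Arcs.Rel] using hb)
      rw [h6, neg_neg]
  have h4 : ∑ j, X1c_D (X1c_X S j) (S.w j) = 0 := by
    have h5 : ∑ j, X1c_D (X1c_X S (τ j)) (S.w (τ j)) = ∑ j, X1c_D (X1c_X S j) (S.w j) :=
      Equiv.sum_comp (Function.Involutive.toPerm τ hτ)
        (fun j => X1c_D (X1c_X S j) (S.w j))
    have h6 : ∑ j, X1c_D (X1c_X S (τ j)) (S.w (τ j)) = -∑ j, X1c_D (X1c_X S j) (S.w j) := by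
      rw [← Finset.sum_neg_distrib]
      exact Finset.sum_congr rfl fun j _ => h3 j
    linarith
  rw [h1, X1c_sum S]
  simp only [h2]
  rw [Finset.sum_add_distrib, h4, zero_add]

end Pool.Agent.Lib_MP_fa6e45
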