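import Pool.Agent.Lib_MP_fa6e45.X1b
import Pool.Agent.Lib_MP_fa6e45.X1c

/-!
PIECE X1g (about 150 lines): the criterion with arcs for the group pgg (compare `pgg_criterion`, V8b), from
`AData.criterion` (`k = 4`) and `Arcs.area`.
-/

open Set MeasureTheory Complex
open scoped Topology

namespace Pool.Agent.Lib_MP_fa6e45

open Pool.Agent.Lib_PL (cr InSector Poly)
variable {n : ℕ} {P : Polygon n} {m : ℕ} [NeZero m] (S : Arcs P m)

/-- the product in the Klein four group -/
private def X1g_kl (j κ : Fin 4) : Fin 4 :=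
  ![![0, 1, 2, 3] κ, ![1, 0, 3, 2] κ, ![2, 3, 0, 1] κ, ![3, 2, 1, 0] κ] j

/-- the lattice vector of `g j (T(x) g κ)` -/
private def X1g_nn (j κ : Fin 4) (x : ℤ × ℤ) : ℤ × ℤ :=
  ![(x.1, x.2),
    (-x.1, -x.2 + ![0, 0, -1, -1] κ),
    (x.1 + ![0, 1, 1, 0] κ, -x.2),
    (-x.1 + ![0, -1, -1, 0] κ, x.2 + ![0, 0, 1, 1] κ)] j

/-- the motions as elements of `Mo` -/
private noncomputable def X1g_mo (A s t : ℂ) (hA1 : ‖A‖ = 1) (j : Fin 4) : Mo where
  a := ![1, -1, A, -A] j
  b := ![0, s + A * (starRingEnd ℂ) t, s, t] j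
  rf := ![false, false, true, true] j
  ha := by fin_cases j <;> simp [hA1]

private theorem X1g_app (A s t : ℂ) (hA1 : ‖A‖ = 1) (j : Fin 4) (z : ℂ) :
    (X1g_mo A s t hA1 j).app z = pgg A s t j z := by
  fin_cases j <;> simp [X1g_mo, Mo.app, Mo.lin, pgg]

private theorem X1g_rf (A s t : ℂ) (hA1 : ‖A‖ = 1) (j : Fin 4) :
    (X1g_mo A s t hA1 j).rf = ![false, false, true, true] j := rfl

private theorem X1g_kl_invol (j κ : Fin 4) : X1g_kl (X1g_kl j κ) κ = j := by
  revert j κ
  decide

private theorem X1g_kl_zero (κ : Fin 4) : X1g_kl 0 κ = κ := by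
  revert κ
  decide

private theorem X1g_conj {A : ℂ} (hA1 : ‖A‖ = 1) : A * (starRingEnd ℂ) A = 1 := by
  rw [Complex.mul_conj, Complex.normSq_eq_norm_sq, hA1]
  simp

/-- the products of the motions -/
private theorem X1g_mul (A s t : ℂ) (hA1 : ‖A‖ = 1) (j κ : Fin 4) (x : ℤ × ℤ) (z : ℂ) :
    pgg A s t j (pgg A s t κ z + lv (s + A * (starRingEnd ℂ) s) (t - A * (starRingEnd ℂ) t) x) =
      pgg A s t (X1g_kl j κ) z +
        lv (s + A * (starRingEnd ℂ) s) (t - A * (starRingEnd ℂ) t) (X1g_nn j κ x) := by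
  have h := X1g_conj hA1
  fin_cases j <;> fin_cases κ <;>
    simp [pgg, X1g_kl, X1g_nn, lv, map_add, map_sub, map_mul, map_neg] <;>
    first
      | ring1
      | linear_combination ((x.1 : ℂ) * s - x.2 * t) * h
      | linear_combination ((x.1 : ℂ) * s - x.2 * t + t) * h
      | linear_combination ((x.1 : ℂ) * s - x.2 * t + z) * h
      | linear_combination ((x.1 : ℂ) * s - x.2 * t - z) * h
      | linear_combination -((x.1 : ℂ) * s - x.2 * t) * h
      | linear_combination -((x.1 : ℂ) * s - x.2 * t + t) * h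
      | linear_combination -((x.1 : ℂ) * s - x.2 * t + z) * h
      | linear_combination -((x.1 : ℂ) * s - x.2 * t - z) * h

private theorem X1g_inv (j κ : Fin 4) (x : ℤ × ℤ) :
    X1g_nn (X1g_kl j κ) κ (pinv κ x) = -X1g_nn j κ x := by
  fin_cases j <;> fin_cases κ <;>
    simp [X1g_kl, X1g_nn, pinv, Prod.ext_iff] <;> omega

theorem pgg_arc (hc : P.CCW) (hm : 2 ≤ m) (A s t : ℂ) (hA1 : ‖A‖ = 1)
    (η : ZMod m → ZMod m) (hη : ∀ j, η (η j) = j) (κ : ZMod m → Fin 4)
    (hκ : ∀ j, κ (η j) = κ j) (c : ZMod m → ℤ × ℤ) (hcη : ∀ j, c (η j) = pinv (κ j) (c j))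
    (rel : ∀ j, if (κ j).val ≤ 1 then S.Plus j (η j) else S.Minus j (η j))
    (h : ∀ j, if (κ j).val ≤ 1 then
        pgg A s t (κ j) (S.V (η j)) + lv (s + A * (starRingEnd ℂ) s) (t - A * (starRingEnd ℂ) t) (c j)
          = S.V (j + 1) ∧
        pgg A s t (κ j) (S.V (η j + 1)) +
          lv (s + A * (starRingEnd ℂ) s) (t - A * (starRingEnd ℂ) t) (c j) = S.V j
      else
        pgg A s t (κ j) (S.V (η j)) + lv (s + A * (starRingEnd ℂ) s) (t - A * (starRingEnd ℂ) t) (c j)
          = S.V j ∧
        pgg A s t (κ j) (S.V (η j + 1)) +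
          lv (s + A * (starRingEnd ℂ) s) (t - A * (starRingEnd ℂ) t) (c j) = S.V (j + 1))
    (hA : 2 * |∑ j, cr (S.V j) (S.V (j + 1))| =
      |cr (s + A * (starRingEnd ℂ) s) (t - A * (starRingEnd ℂ) t)|) : HasPeriodic P := by
  set u := s + A * (starRingEnd ℂ) s with hu
  set w := t - A * (starRingEnd ℂ) t with hw
  have hrel : ∀ j, ∀ b : Bool, (b = true ↔ (κ j).val ≤ 1) → S.Rel j (η j) b := by
    intro j b hb
    have hj := rel j
    unfold Arcs.Rel
    by_cases hk : (κ j).val ≤ 1
    · rw [if_pos hk] at hj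
      rw [if_pos (hb.2 hk)]
      exact hj
    · rw [if_neg hk] at hj
      rw [if_neg (fun h1 => hk (hb.1 h1))]
      exact hj
  let D : AData P S 4 :=
    { g := X1g_mo A s t hA1
      u := u
      w := w
      τ := fun x => (X1g_kl x.1 (κ x.2), η x.2)
      ττ := by
        rintro ⟨j, y⟩
        simp only [hκ, hη, X1g_kl_invol]
      c := fun x => X1g_nn x.1 (κ x.2) (c x.2)
      cτ := by
        rintro ⟨j, y⟩
        simp only [hcη, hκ]
        exact X1g_inv j (κ y) (c y)
      rel := by
        rintro ⟨j, y⟩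
        apply hrel
        simp only [X1g_rf]
        generalize κ y = k
        revert j k
        decide }
  have hsrc : ∀ j y, D.src (j, y) = pgg A s t j
      (if (![false, false, true, true] j : Bool) then S.V (y + 1) else S.V y) :=
    fun j y => X1g_app A s t hA1 j _
  have htgt : ∀ j y, D.tgt (j, y) = pgg A s t j
      (if (![false, false, true, true] j : Bool) then S.V y else S.V (y + 1)) :=
    fun j y => X1g_app A s t hA1 j _
  have hτ : ∀ j y, D.τ (j, y) = (X1g_kl j (κ y), η y) := fun j y => rfl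
  have hcc : ∀ j y, D.c (j, y) = X1g_nn j (κ y) (c y) := fun j y => rfl
  have huu : D.u = u := rfl
  have hww : D.w = w := rfl
  refine D.criterion hc hm (by norm_num) ?_ ?_
  · rintro ⟨j, y⟩
    have hm := X1g_mul A s t hA1 j (κ y) (c y)
    have hy := h y
    rw [huu, hww, hτ, hcc]
    simp only [hsrc, htgt]
    rw [← hu, ← hw] at hm
    rw [← hm, ← hm]
    generalize κ y = k at hy ⊢
    have hy1 : (k.val ≤ 1 → pgg A s t k (S.V (η y)) + lv u w (c y) = S.V (y + 1) ∧
        pgg A s t k (S.V (η y + 1)) + lv u w (c y) = S.V y) ∧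
        (¬ k.val ≤ 1 → pgg A s t k (S.V (η y)) + lv u w (c y) = S.V y ∧
          pgg A s t k (S.V (η y + 1)) + lv u w (c y) = S.V (y + 1)) := by
      constructor
      · intro h1
        rwa [if_pos h1] at hy
      · intro h1
        rwa [if_neg h1] at hy
    clear hy hm
    obtain ⟨h1, h2⟩ := hy1
    by_cases hk : k.val ≤ 1
    · obtain ⟨h3, h4⟩ := h1 hk
      clear h1 h2
      have e : (![false, false, true, true] (X1g_kl j k) : Bool) =
          (![false, false, true, true] j : Bool) := by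
        clear h3 h4
        revert j k
        decide
      rw [e]
      cases (![false, false, true, true] j : Bool)
      · simp only [Bool.false_eq_true, if_false, h3, h4, and_self]
      · simp only [if_true, h3, h4, and_self]
    · obtain ⟨h3, h4⟩ := h2 hk
      clear h1 h2
      have e : (![false, false, true, true] (X1g_kl j k) : Bool) =
          !(![false, false, true, true] j : Bool) := by
        clear h3 h4
        revert j k
        decide
      rw [e]
      cases (![false, false, true, true] j : Bool)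
      · simp only [Bool.not_false, Bool.false_eq_true, if_false, if_true, h3, h4, and_self]
      · simp only [Bool.not_true, Bool.false_eq_true, if_false, if_true, h3, h4, and_self]
  · rw [huu, hww, ← hA, ← S.area hc hm η hη fun j => Or.inr
      ⟨decide ((κ j).val ≤ 1), hrel j _ (by simp)⟩, abs_of_nonneg (by positivity)]
    push_cast
    ring

end Pool.Agent.Lib_MP_fa6e45
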