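import Pool.Agent.Lib_MP_fa6e45.X1d
import Pool.Agent.Lib_MP_fa6e45.X1g
import Pool.Agent.Lib_MP_fa6e45.X2a

/-!
PIECE X3a (about 120 lines): triangles with arcs, no condition on the angles.
`x3_0` (three half turns, p2): `s = V0 + V1`, `u = ch 0`, `w = V2 - V0` as in `tri` (L3a).
`x3_1` (half turn on arc 0, glide between arcs 1 and 2, pgg): `α z = A conj z + s` maps arc 2 to arc 1:
`α V2 = V1`, `α V0 = V2` (`A = ch 1 / conj (ch 2)`), half turn `H z = - z + V0 + V1` on arc 0; choose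
`t` with `s + A conj t = V0 + V1` (then `κ = 1`, `c = 0` on arc 0; `κ = 2` on arcs 1, 2), `pgg_arc`.
-/

open Set MeasureTheory Complex
open scoped Topology

namespace Pool.Agent.Lib_MP_fa6e45

open Pool.Agent.Lib_PL (cr InSector Poly)

variable {n : ℕ} {P : Polygon n}

private theorem X3a_sum (V : ZMod 3 → ℂ) : ∑ j : ZMod 3, cr (V j) (V (j + 1)) =
    cr (V 0) (V 1) + cr (V 1) (V 2) + cr (V 2) (V 0) :=
  Fin.sum_univ_three (fun j : ZMod 3 => cr (V j) (V (j + 1)))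

private theorem X3a_all {p : ZMod 3 → Prop} (h0 : p 0) (h1 : p 1) (h2 : p 2) : ∀ j, p j := by
  intro j
  fin_cases j
  · exact h0
  · exact h1
  · exact h2

theorem x3_0 (hc : P.CCW) (S : Arcs P 3) (h0 : S.Plus 0 0) (h1 : S.Plus 1 1) (h2 : S.Plus 2 2) :
    HasPeriodic P := by
  refine p2_arc S hc (by norm_num) (S.V 0 + S.V 1) (S.V 1 - S.V 0) (S.V 2 - S.V 0)
    id (fun _ => rfl) (fun _ => true) (fun _ => rfl)
    ![(0, 0), (0, 1), (-1, 1)] (fun _ => rfl) (X3a_all h0 h1 h2) (X3a_all ?_ ?_ ?_)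
    (fun y h => absurd h (by simp)) ?_
  · show true = true →
      S.V 0 + S.V 1 + lv (S.V 1 - S.V 0) (S.V 2 - S.V 0) (0, 0) - S.V 0 = S.V 1 ∧
      S.V 0 + S.V 1 + lv (S.V 1 - S.V 0) (S.V 2 - S.V 0) (0, 0) - S.V 1 = S.V 0
    intro _
    simp [lv]
  · show true = true →
      S.V 0 + S.V 1 + lv (S.V 1 - S.V 0) (S.V 2 - S.V 0) (0, 1) - S.V 1 = S.V 2 ∧
      S.V 0 + S.V 1 + lv (S.V 1 - S.V 0) (S.V 2 - S.V 0) (0, 1) - S.V 2 = S.V 1
    intro _
    simp [lv]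
    constructor <;> ring
  · show true = true →
      S.V 0 + S.V 1 + lv (S.V 1 - S.V 0) (S.V 2 - S.V 0) (-1, 1) - S.V 2 = S.V 0 ∧
      S.V 0 + S.V 1 + lv (S.V 1 - S.V 0) (S.V 2 - S.V 0) (-1, 1) - S.V 0 = S.V 2
    intro _
    simp [lv]
  · rw [X3a_sum]
    congr 1
    unfold cr
    simp only [sub_re, sub_im]
    ring

theorem x3_1 (hc : P.CCW) (S : Arcs P 3) (h0 : S.Plus 0 0) (h1 : S.Minus 1 2) (h2 : S.Minus 2 1) :
    HasPeriodic P := by
  have hc1 : S.ch 1 = S.V 2 - S.V 1 := rfl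
  have hc2 : S.ch 2 = S.V 0 - S.V 2 := rfl
  have hne : (starRingEnd ℂ) (S.ch 2) ≠ 0 := by
    rw [Ne, map_eq_zero]
    exact S.ch_ne (by norm_num) 2
  obtain ⟨A, hAdef⟩ : ∃ A, A = S.ch 1 / (starRingEnd ℂ) (S.ch 2) := ⟨_, rfl⟩
  have hAc : A * (starRingEnd ℂ) (S.ch 2) = S.ch 1 := by
    rw [hAdef, div_mul_cancel₀ _ hne]
  have hA1 : ‖A‖ = 1 := by
    rw [hAdef, norm_div, RCLike.norm_conj, S.norm_minus h1, div_self]
    exact norm_ne_zero_iff.mpr (S.ch_ne (by norm_num) 2)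
  have hAA : A * (starRingEnd ℂ) A = 1 := by
    rw [Complex.mul_conj, Complex.normSq_eq_norm_sq, hA1]
    simp
  rw [hc1, hc2, map_sub] at hAc
  obtain ⟨s, hs⟩ : ∃ s, s = S.V 1 - A * (starRingEnd ℂ) (S.V 2) := ⟨_, rfl⟩
  -- conjugates
  have e2 : A * (starRingEnd ℂ) (S.V 2) = S.V 1 - s := by rw [hs]; ring
  have e0 : A * (starRingEnd ℂ) (S.V 0) = S.V 2 - s := by linear_combination hAc + e2
  have f2 : (starRingEnd ℂ) A * S.V 2 = (starRingEnd ℂ) (S.V 1) - (starRingEnd ℂ) s := by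
    have := congrArg (starRingEnd ℂ) e2
    simpa only [map_mul, map_sub, conj_conj] using this
  have f0 : (starRingEnd ℂ) A * S.V 0 = (starRingEnd ℂ) (S.V 2) - (starRingEnd ℂ) s := by
    have := congrArg (starRingEnd ℂ) e0
    simpa only [map_mul, map_sub, conj_conj] using this
  have es : A * (starRingEnd ℂ) s = S.V 1 - S.V 0 - s := by
    linear_combination A * f0 - S.V 0 * hAA + e2
  have e1 : A * (starRingEnd ℂ) (S.V 1) = S.V 2 + S.V 1 - S.V 0 - s := by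
    linear_combination -(A * f2) + S.V 2 * hAA + es
  have eu : s + A * (starRingEnd ℂ) s = S.V 1 - S.V 0 := by rw [es]; ring
  obtain ⟨t, ht⟩ : ∃ t, t = 2 * S.V 2 - s := ⟨_, rfl⟩
  have et : A * (starRingEnd ℂ) t = S.V 0 + S.V 1 - s := by
    have h2 : (starRingEnd ℂ) (2 : ℂ) = 2 := Complex.conj_ofNat 2
    rw [ht, map_sub, map_mul, h2]
    linear_combination 2 * e2 - es
  have hlv : ∀ x : ℤ × ℤ, lv (s + A * (starRingEnd ℂ) s) (t - A * (starRingEnd ℂ) t) x =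
      (x.1 : ℂ) * (S.V 1 - S.V 0) + (x.2 : ℂ) * (t - A * (starRingEnd ℂ) t) := by
    intro x
    rw [eu, lv]
  refine pgg_arc S hc (by norm_num) A s t hA1 ![0, 2, 1] (by decide) ![1, 2, 2] (by decide)
    ![(0, 0), (0, 0), (-1, 0)] (by decide) (X3a_all h0 h1 h2) (X3a_all ?_ ?_ ?_) ?_
  · show (-S.V 0 + (s + A * (starRingEnd ℂ) t)) +
        lv (s + A * (starRingEnd ℂ) s) (t - A * (starRingEnd ℂ) t) (0, 0) = S.V 1 ∧
      (-S.V 1 + (s + A * (starRingEnd ℂ) t)) +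
        lv (s + A * (starRingEnd ℂ) s) (t - A * (starRingEnd ℂ) t) (0, 0) = S.V 0
    rw [hlv, et]
    push_cast
    constructor <;> ring
  · show (A * (starRingEnd ℂ) (S.V 2) + s) +
        lv (s + A * (starRingEnd ℂ) s) (t - A * (starRingEnd ℂ) t) (0, 0) = S.V 1 ∧
      (A * (starRingEnd ℂ) (S.V 0) + s) +
        lv (s + A * (starRingEnd ℂ) s) (t - A * (starRingEnd ℂ) t) (0, 0) = S.V 2
    rw [hlv, e2, e0]
    push_cast
    constructor <;> ring
  · show (A * (starRingEnd ℂ) (S.V 1) + s) +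
        lv (s + A * (starRingEnd ℂ) s) (t - A * (starRingEnd ℂ) t) (-1, 0) = S.V 2 ∧
      (A * (starRingEnd ℂ) (S.V 2) + s) +
        lv (s + A * (starRingEnd ℂ) s) (t - A * (starRingEnd ℂ) t) (-1, 0) = S.V 0
    rw [hlv, e1, e2]
    push_cast
    constructor <;> ring
  · rw [X3a_sum, eu, et, ht, ← abs_two (α := ℝ), ← abs_mul]
    congr 1
    unfold cr
    simp only [sub_re, sub_im, add_re, add_im, mul_re, mul_im, re_ofNat, im_ofNat]
    ring

end Pool.Agent.Lib_MP_fa6e45
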