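import Pool.Agent.Lib_MP_fa6e45.X1f
import Pool.Agent.Lib_MP_fa6e45.X2a

/-!
PIECE X3b (about 200 lines): triangles with arcs: arcs 0, 1 congruent by a rotation around corner `V1`
(angle `2 π / k`, `k = 3, 4, 6`), half turn on arc 2. `rot_arc` with the rotation of the largest order:
`k = 3`: the two other corners together have the angle `π / 3` (order 6 at `V0 ~ V2`); `k = 4`: order 4 at `V1`;
`k = 6`: order 6 at `V1`. For `k = 4, 6`: `o = V1`, `ζ = exp (2 π i / k)`, `ζ (V0 - V1)` resp. `V2 - V1` related by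
`ChordAng.rot`; arc 2: `- z + V2 + V0 = ζ ^ (k / 2) (z - o) + o + λ` with `λ = V0 + V2 - 2 V1`; lattice `u = λ`.
For `k = 3`: the group is p6 with the rotation of order 6 around a suitable point `o` (e.g. `o = V2`: the composition
of the half turn on arc 2 and the rotation around `V1` is a rotation of order 6 around `V2` or `V0`).
-/

open Set MeasureTheory Complex
open scoped Topology

namespace Pool.Agent.Lib_MP_fa6e45

open Pool.Agent.Lib_PL (cr InSector Poly)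

set_option linter.unusedSimpArgs false

variable {n : ℕ} {P : Polygon n}

private theorem X3b_sum (S : Arcs P 3) : ∑ j, cr (S.V j) (S.V (j + 1)) =
    cr (S.V 0) (S.V 1) + cr (S.V 1) (S.V 2) + cr (S.V 2) (S.V 0) :=
  Fin.sum_univ_three (fun j : ZMod 3 => cr (S.V j) (S.V (j + 1)))

private theorem X3b_e (t : ℝ) : exp ((t : ℂ) * Complex.I) = ⟨Real.cos t, Real.sin t⟩ := by
  apply Complex.ext
  · exact Complex.exp_ofReal_mul_I_re t
  · exact Complex.exp_ofReal_mul_I_im t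

private theorem X3b_h0 (S : Arcs P 3) (b : ZMod 3 → ℝ) (hb : S.ChordAng b) (h0 : S.Plus 0 1)
    (t : ℝ) (ht : Real.pi * b 1 = t) :
    S.V 0 = S.V 1 + (⟨Real.cos t, Real.sin t⟩ : ℂ) * (S.V 2 - S.V 1) := by
  have hl : ‖S.ch ((1 : ZMod 3) - 1)‖ = ‖S.ch 1‖ := S.norm_plus h0
  have h := hb.rot (by norm_num) 1 hl
  rw [ht, X3b_e] at h
  have e1 : ((1 : ZMod 3) - 1) = 0 := rfl
  have e2 : ((1 : ZMod 3) + 1) = 2 := rfl
  rw [e1, e2] at h
  rw [← h]
  ring

private theorem X3b_six {ζ : ℂ} {s : ℝ} (hss : s * s = 3 / 4) (hz : ζ = ⟨1 / 2, s⟩) :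
    ζ ^ 2 = ζ - 1 ∧ ζ ^ 3 = -1 ∧ ζ ^ 6 = 1 ∧ ‖ζ‖ = 1 := by
  have h2 : ζ ^ 2 = ζ - 1 := by
    rw [hz]
    apply Complex.ext
    · simp [pow_two]
      linarith
    · simp [pow_two]
      ring
  have h3 : ζ ^ 3 = -1 := by
    linear_combination (ζ + 1) * h2
  have h6 : ζ ^ 6 = 1 := by
    linear_combination (ζ ^ 3 - 1) * h3
  have h1 : ‖ζ‖ ^ 6 = 1 := by
    rw [← norm_pow, h6, norm_one]
  exact ⟨h2, h3, h6, (pow_eq_one_iff_of_nonneg (norm_nonneg _) (by norm_num)).1 h1⟩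

private theorem X3b_s3 : Real.sqrt 3 / 2 * (Real.sqrt 3 / 2) = 3 / 4 := by
  have h := Real.mul_self_sqrt (show (0 : ℝ) ≤ 3 by norm_num)
  linarith

theorem x3_2 (hc : P.CCW) (S : Arcs P 3) (b : ZMod 3 → ℝ) (hb : S.ChordAng b) (h0 : S.Plus 0 1)
    (h1 : S.Plus 1 0) (h2 : S.Plus 2 2) (e1 : 3 * b 1 = 2) (e2 : 3 * b 0 + 3 * b 2 = 1) :
    HasPeriodic P := by
  have hv := X3b_h0 S b hb h0 (Real.pi - Real.pi / 3) (by
    have : b 1 = 2 / 3 := by linarith
    rw [this]; ring)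
  rw [Real.cos_pi_sub, Real.sin_pi_sub, Real.cos_pi_div_three, Real.sin_pi_div_three] at hv
  obtain ⟨s, hs⟩ : ∃ s : ℝ, s = Real.sqrt 3 / 2 := ⟨_, rfl⟩
  have hss : s * s = 3 / 4 := by rw [hs]; exact X3b_s3
  have hs0 : 0 ≤ s := by rw [hs]; positivity
  rw [← hs] at hv
  obtain ⟨ζ, hz⟩ : ∃ ζ : ℂ, ζ = ⟨1 / 2, s⟩ := ⟨_, rfl⟩
  obtain ⟨hζ2, hζ3, hζ6, hζ1⟩ := X3b_six hss hz
  have hζ2' : ζ ^ 2 = ((-1 : ℤ) : ℂ) + ((1 : ℤ) : ℂ) * ζ := by
    rw [hζ2]
    push_cast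
    ring
  have hw : (⟨-(1 / 2), s⟩ : ℂ) = ζ - 1 := by
    rw [hz]
    apply Complex.ext
    · simp
      norm_num
    · simp
  rw [hw] at hv
  obtain ⟨p, hp⟩ : ∃ p, p = S.V 1 := ⟨_, rfl⟩
  obtain ⟨d, hd⟩ : ∃ d, d = S.V 2 - S.V 1 := ⟨_, rfl⟩
  have hV1 : S.V 1 = p := hp.symm
  have hV2 : S.V 2 = p + d := by rw [hd, hp]; ring
  have hV0 : S.V 0 = p + (ζ - 1) * d := by rw [hv, hd, hp]
  refine rot_arc S hc (by norm_num) 6 (by norm_num) ζ ((ζ - 2) * d) (p + d) hζ1 hζ6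
    (-1) 1 hζ2' ?_ ![1, 0, 2] (by decide) ![2, 4, 3] (by decide)
    ![(1, 0), (0, 1), (1, 0)] (by decide) ?_ ?_ ?_
  · rintro ⟨a, b⟩
    simp only [Function.iterate_succ, Function.iterate_zero, Function.comp, id, rmul]
    ext <;> simp
  · intro j
    fin_cases j
    · exact h0
    · exact h1
    · exact h2
  · intro j
    fin_cases j
    · show ζ ^ 2 * (S.V 1 - (p + d)) + (p + d) + lv _ _ (1, 0) = S.V 1 ∧
        ζ ^ 2 * (S.V 2 - (p + d)) + (p + d) + lv _ _ (1, 0) = S.V 0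
      simp only [lv]
      push_cast
      rw [hV0, hV1, hV2]
      constructor
      · linear_combination (-d) * hζ2
      · ring
    · show ζ ^ 4 * (S.V 0 - (p + d)) + (p + d) + lv _ _ (0, 1) = S.V 2 ∧
        ζ ^ 4 * (S.V 1 - (p + d)) + (p + d) + lv _ _ (0, 1) = S.V 1
      simp only [lv]
      push_cast
      rw [hV0, hV1, hV2]
      constructor
      · linear_combination (ζ * (ζ - 2) * d) * hζ3
      · linear_combination (-ζ * d) * hζ3 + d * hζ2
    · show ζ ^ 3 * (S.V 2 - (p + d)) + (p + d) + lv _ _ (1, 0) = S.V 0 ∧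
        ζ ^ 3 * (S.V 0 - (p + d)) + (p + d) + lv _ _ (1, 0) = S.V 2
      simp only [lv]
      push_cast
      rw [hV0, hV2]
      constructor
      · ring
      · linear_combination ((ζ - 2) * d) * hζ3
  · rw [X3b_sum, hV0, hV1, hV2, hz]
    have h5 : cr (((⟨1 / 2, s⟩ : ℂ) - 2) * d) ((⟨1 / 2, s⟩ : ℂ) * (((⟨1 / 2, s⟩ : ℂ) - 2) * d)) =
        3 * (s * (d.re * d.re + d.im * d.im)) := by
      simp only [cr, mul_re, mul_im, add_re, add_im, sub_re, sub_im, neg_re, neg_im, re_ofNat,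
        im_ofNat, zero_re, zero_im]
      linear_combination (s * (d.re * d.re + d.im * d.im)) * hss
    have h6 : cr (p + ((⟨1 / 2, s⟩ : ℂ) - 1) * d) p + cr p (p + d) +
        cr (p + d) (p + ((⟨1 / 2, s⟩ : ℂ) - 1) * d) = s * (d.re * d.re + d.im * d.im) := by
      simp only [cr, mul_re, mul_im, add_re, add_im, sub_re, sub_im, neg_re, neg_im, re_ofNat,
        im_ofNat, zero_re, zero_im, one_re, one_im]
      ring
    rw [h5, h6]
    have h7 : 0 ≤ s * (d.re * d.re + d.im * d.im) :=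
      mul_nonneg hs0 (add_nonneg (mul_self_nonneg _) (mul_self_nonneg _))
    rw [abs_of_nonneg h7, abs_of_nonneg (by linarith)]
    push_cast
    ring

theorem x3_3 (hc : P.CCW) (S : Arcs P 3) (b : ZMod 3 → ℝ) (hb : S.ChordAng b) (h0 : S.Plus 0 1)
    (h1 : S.Plus 1 0) (h2 : S.Plus 2 2) (e1 : 2 * b 1 = 1) (e2 : 2 * b 0 + 2 * b 2 = 1) :
    HasPeriodic P := by
  have hv := X3b_h0 S b hb h0 (Real.pi / 2) (by
    have : b 1 = 1 / 2 := by linarith
    rw [this]; ring)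
  rw [Real.cos_pi_div_two, Real.sin_pi_div_two] at hv
  have hw : (⟨0, 1⟩ : ℂ) = Complex.I := rfl
  rw [hw] at hv
  have hI2 : Complex.I ^ 2 = -1 := Complex.I_sq
  have hI4 : Complex.I ^ 4 = 1 := by
    linear_combination (Complex.I ^ 2 - 1) * hI2
  have hI2' : Complex.I ^ 2 = ((-1 : ℤ) : ℂ) + ((0 : ℤ) : ℂ) * Complex.I := by
    rw [hI2]
    push_cast
    ring
  obtain ⟨p, hp⟩ : ∃ p, p = S.V 1 := ⟨_, rfl⟩
  obtain ⟨d, hd⟩ : ∃ d, d = S.V 2 - S.V 1 := ⟨_, rfl⟩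
  have hV1 : S.V 1 = p := hp.symm
  have hV2 : S.V 2 = p + d := by rw [hd, hp]; ring
  have hV0 : S.V 0 = p + Complex.I * d := by rw [hv, hd, hp]
  refine rot_arc S hc (by norm_num) 4 (by norm_num) Complex.I ((Complex.I + 1) * d) p
    Complex.norm_I hI4
    (-1) 0 hI2' ?_ ![1, 0, 2] (by decide) ![1, 3, 2] (by decide)
    ![(0, 0), (0, 0), (1, 0)] (by decide) ?_ ?_ ?_
  · rintro ⟨a, b⟩
    simp only [Function.iterate_succ, Function.iterate_zero, Function.comp, id, rmul]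
    ext <;> simp
  · intro j
    fin_cases j
    · exact h0
    · exact h1
    · exact h2
  · intro j
    fin_cases j
    · show Complex.I ^ 1 * (S.V 1 - p) + p + lv _ _ (0, 0) = S.V 1 ∧
        Complex.I ^ 1 * (S.V 2 - p) + p + lv _ _ (0, 0) = S.V 0
      simp only [lv]
      push_cast
      rw [hV0, hV1, hV2]
      constructor <;> ring
    · show Complex.I ^ 3 * (S.V 0 - p) + p + lv _ _ (0, 0) = S.V 2 ∧
        Complex.I ^ 3 * (S.V 1 - p) + p + lv _ _ (0, 0) = S.V 1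
      simp only [lv]
      push_cast
      rw [hV0, hV1, hV2]
      constructor
      · linear_combination d * hI4
      · ring
    · show Complex.I ^ 2 * (S.V 2 - p) + p + lv _ _ (1, 0) = S.V 0 ∧
        Complex.I ^ 2 * (S.V 0 - p) + p + lv _ _ (1, 0) = S.V 2
      simp only [lv]
      push_cast
      rw [hV0, hV2]
      constructor
      · linear_combination d * hI2
      · linear_combination (Complex.I * d) * hI2
  · rw [X3b_sum, hV0, hV1, hV2]
    have h5 : cr ((Complex.I + 1) * d) (Complex.I * ((Complex.I + 1) * d)) =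
        2 * (d.re * d.re + d.im * d.im) := by
      simp only [cr, mul_re, mul_im, add_re, add_im, I_re, I_im, one_re, one_im]
      ring
    have h6 : cr (p + Complex.I * d) p + cr p (p + d) +
        cr (p + d) (p + Complex.I * d) = d.re * d.re + d.im * d.im := by
      simp only [cr, mul_re, mul_im, add_re, add_im, I_re, I_im]
      ring
    rw [h5, h6]
    have h7 : 0 ≤ d.re * d.re + d.im * d.im :=
      add_nonneg (mul_self_nonneg _) (mul_self_nonneg _)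
    rw [abs_of_nonneg h7, abs_of_nonneg (by linarith)]
    push_cast
    ring

theorem x3_4 (hc : P.CCW) (S : Arcs P 3) (b : ZMod 3 → ℝ) (hb : S.ChordAng b) (h0 : S.Plus 0 1)
    (h1 : S.Plus 1 0) (h2 : S.Plus 2 2) (e1 : 3 * b 1 = 1) (e2 : 3 * b 0 + 3 * b 2 = 2) :
    HasPeriodic P := by
  have hv := X3b_h0 S b hb h0 (Real.pi / 3) (by
    have : b 1 = 1 / 3 := by linarith
    rw [this]; ring)
  rw [Real.cos_pi_div_three, Real.sin_pi_div_three] at hv
  obtain ⟨s, hs⟩ : ∃ s : ℝ, s = Real.sqrt 3 / 2 := ⟨_, rfl⟩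
  have hss : s * s = 3 / 4 := by rw [hs]; exact X3b_s3
  have hs0 : 0 ≤ s := by rw [hs]; positivity
  rw [← hs] at hv
  obtain ⟨ζ, hz⟩ : ∃ ζ : ℂ, ζ = ⟨1 / 2, s⟩ := ⟨_, rfl⟩
  obtain ⟨hζ2, hζ3, hζ6, hζ1⟩ := X3b_six hss hz
  have hζ2' : ζ ^ 2 = ((-1 : ℤ) : ℂ) + ((1 : ℤ) : ℂ) * ζ := by
    rw [hζ2]
    push_cast
    ring
  rw [← hz] at hv
  obtain ⟨p, hp⟩ : ∃ p, p = S.V 1 := ⟨_, rfl⟩
  obtain ⟨d, hd⟩ : ∃ d, d = S.V 2 - S.V 1 := ⟨_, rfl⟩
  have hV1 : S.V 1 = p := hp.symm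
  have hV2 : S.V 2 = p + d := by rw [hd, hp]; ring
  have hV0 : S.V 0 = p + ζ * d := by rw [hv, hd, hp]
  refine rot_arc S hc (by norm_num) 6 (by norm_num) ζ ((ζ + 1) * d) p hζ1 hζ6
    (-1) 1 hζ2' ?_ ![1, 0, 2] (by decide) ![1, 5, 3] (by decide)
    ![(0, 0), (0, 0), (1, 0)] (by decide) ?_ ?_ ?_
  · rintro ⟨a, b⟩
    simp only [Function.iterate_succ, Function.iterate_zero, Function.comp, id, rmul]
    ext <;> simp
  · intro j
    fin_cases j
    · exact h0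
    · exact h1
    · exact h2
  · intro j
    fin_cases j
    · show ζ ^ 1 * (S.V 1 - p) + p + lv _ _ (0, 0) = S.V 1 ∧
        ζ ^ 1 * (S.V 2 - p) + p + lv _ _ (0, 0) = S.V 0
      simp only [lv]
      push_cast
      rw [hV0, hV1, hV2]
      constructor <;> ring
    · show ζ ^ 5 * (S.V 0 - p) + p + lv _ _ (0, 0) = S.V 2 ∧
        ζ ^ 5 * (S.V 1 - p) + p + lv _ _ (0, 0) = S.V 1
      simp only [lv]
      push_cast
      rw [hV0, hV1, hV2]
      constructor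
      · linear_combination d * hζ6
      · ring
    · show ζ ^ 3 * (S.V 2 - p) + p + lv _ _ (1, 0) = S.V 0 ∧
        ζ ^ 3 * (S.V 0 - p) + p + lv _ _ (1, 0) = S.V 2
      simp only [lv]
      push_cast
      rw [hV0, hV2]
      constructor
      · linear_combination d * hζ3
      · linear_combination (ζ * d) * hζ3
  · rw [X3b_sum, hV0, hV1, hV2, hz]
    have h5 : cr (((⟨1 / 2, s⟩ : ℂ) + 1) * d) ((⟨1 / 2, s⟩ : ℂ) * (((⟨1 / 2, s⟩ : ℂ) + 1) * d)) =
        3 * (s * (d.re * d.re + d.im * d.im)) := by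
      simp only [cr, mul_re, mul_im, add_re, add_im, sub_re, sub_im, neg_re, neg_im, re_ofNat,
        im_ofNat, zero_re, zero_im, one_re, one_im]
      linear_combination (s * (d.re * d.re + d.im * d.im)) * hss
    have h6 : cr (p + (⟨1 / 2, s⟩ : ℂ) * d) p + cr p (p + d) +
        cr (p + d) (p + (⟨1 / 2, s⟩ : ℂ) * d) = s * (d.re * d.re + d.im * d.im) := by
      simp only [cr, mul_re, mul_im, add_re, add_im, sub_re, sub_im, neg_re, neg_im, re_ofNat,
        im_ofNat, zero_re, zero_im, one_re, one_im]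
      ring
    rw [h5, h6]
    have h7 : 0 ≤ s * (d.re * d.re + d.im * d.im) :=
      mul_nonneg hs0 (add_nonneg (mul_self_nonneg _) (mul_self_nonneg _))
    rw [abs_of_nonneg h7, abs_of_nonneg (by linarith)]
    push_cast
    ring

end Pool.Agent.Lib_MP_fa6e45
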