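import Pool.Agent.Lib_MP_fa6e45.X1d
import Pool.Agent.Lib_MP_fa6e45.X2a

/-!
PIECE X4a (about 200 lines): quadrilaterals with arcs, groups p2, p1. `x4_0`: four half turns (`quad`, L3a).
`x4_4`: arcs 0, 2 by a translation (`ch 2 = - ch 0` by `par2`), half turns on 1, 3. `x4_5`: both pairs by translations:
`‖ch 0‖ = ‖ch 2‖`, `‖ch 1‖ = ‖ch 3‖`, `∑ ch = 0`: either `ch 2 = - ch 0` (then `ch 3 = - ch 1`), or the shoelace sum is 0
(antiparallelogram; with `d = V2 - V0` the triangles `V0 V1 V2` and `V2 V3 V0` are congruent: `V3` is the point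
`V0 + V2 - V1` or the mirror image), excluded by `Arcs.area` and the positive area. `par4` states this
alternative; it is used in X4c, too.
-/

open Set MeasureTheory Complex
open scoped Topology

namespace Pool.Agent.Lib_MP_fa6e45

open Pool.Agent.Lib_PL (cr InSector Poly)

variable {n : ℕ} {P : Polygon n}

private theorem X4a_vol_pos (P : Polygon n) : 0 < (volume P.region).toReal := by
  apply ENNReal.toReal_pos
  · intro h
    have h1 : volume P.inner = 0 := by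
      apply measure_mono_null _ h
      rw [P.region_union]
      exact subset_union_right
    exact (P.inner_open.measure_pos volume P.inner_nonempty).ne' h1
  · exact (P.region_bounded.measure_lt_top).ne

private theorem X4a_sq {a b : ℂ} (h : ‖a‖ = ‖b‖) :
    a.re * a.re + a.im * a.im = b.re * b.re + b.im * b.im := by
  rw [← Complex.normSq_apply, ← Complex.normSq_apply, Complex.normSq_eq_norm_sq,
    Complex.normSq_eq_norm_sq, h]

private theorem X4a_cr {x y z : ℂ} (hz : z ≠ 0) (h1 : x.re * z.re + x.im * z.im = 0)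
    (h2 : y.re * z.re + y.im * z.im = 0) : cr x y = 0 := by
  have e1 : cr x y * z.re = 0 := by
    unfold cr
    linear_combination y.im * h1 - x.im * h2
  have e2 : cr x y * z.im = 0 := by
    unfold cr
    linear_combination x.re * h2 - y.re * h1
  rcases mul_eq_zero.1 e1 with h | h
  · exact h
  · rcases mul_eq_zero.1 e2 with h' | h'
    · exact h'
    · exact absurd (Complex.ext h h') hz

private theorem X4a_par {V0 V1 V2 V3 : ℂ} (h0 : ‖V1 - V0‖ = ‖V3 - V2‖) (h1 : ‖V2 - V1‖ = ‖V0 - V3‖)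
    (hA : cr V0 V1 + cr V1 V2 + cr V2 V3 + cr V3 V0 ≠ 0) : V3 - V2 = -(V1 - V0) := by
  by_contra hne
  have hz : V1 - V0 + (V3 - V2) ≠ 0 := fun h => hne (by linear_combination h)
  have q0 := X4a_sq h0
  have q1 := X4a_sq h1
  simp only [sub_re, sub_im] at q0 q1
  have e := X4a_cr (x := V2 - V0) (y := V1 - V0 - (V3 - V2)) hz
    (by simp only [sub_re, sub_im, add_re, add_im]; linear_combination (1 / 2 : ℝ) * q0 - (1 / 2 : ℝ) * q1)
    (by simp only [sub_re, sub_im, add_re, add_im]; linear_combination q0)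
  apply hA
  unfold cr at e ⊢
  simp only [sub_re, sub_im] at e
  linear_combination -e

private theorem X4a_sum (S : Arcs P 4) : ∑ j, cr (S.V j) (S.V (j + 1)) =
    cr (S.V 0) (S.V 1) + cr (S.V 1) (S.V 2) + cr (S.V 2) (S.V 3) + cr (S.V 3) (S.V 0) :=
  Fin.sum_univ_four (fun j : ZMod 4 => cr (S.V j) (S.V (j + 1)))

private theorem X4a_all {Q : ZMod 4 → Prop} (h0 : Q 0) (h1 : Q 1) (h2 : Q 2) (h3 : Q 3) :
    ∀ j, Q j := by
  intro j
  fin_cases j
  · exact h0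
  · exact h1
  · exact h2
  · exact h3

private theorem X4a_lv (u w : ℂ) (a b : ℤ) : lv u w (a, b) = (a : ℂ) * u + (b : ℂ) * w := rfl

private theorem X4a_ch0 (S : Arcs P 4) : S.ch 0 = S.V 1 - S.V 0 := rfl

private theorem X4a_ch1 (S : Arcs P 4) : S.ch 1 = S.V 2 - S.V 1 := rfl

private theorem X4a_ch2 (S : Arcs P 4) : S.ch 2 = S.V 3 - S.V 2 := rfl

private theorem X4a_ch3 (S : Arcs P 4) : S.ch 3 = S.V 0 - S.V 3 := rfl

theorem par4 (hc : P.CCW) (S : Arcs P 4) (h0 : ‖S.ch 0‖ = ‖S.ch 2‖) (h1 : ‖S.ch 1‖ = ‖S.ch 3‖)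
    (hA : ∑ j, cr (S.V j) (S.V (j + 1)) ≠ 0) : S.ch 2 = -S.ch 0 ∧ S.ch 3 = -S.ch 1 := by
  rw [X4a_sum] at hA
  rw [X4a_ch0, X4a_ch2] at h0
  rw [X4a_ch1, X4a_ch3] at h1
  have h := X4a_par h0 h1 hA
  rw [X4a_ch0, X4a_ch1, X4a_ch2, X4a_ch3]
  exact ⟨h, by linear_combination -h⟩

theorem x4_0 (hc : P.CCW) (S : Arcs P 4) (h0 : S.Plus 0 0) (h1 : S.Plus 1 1) (h2 : S.Plus 2 2)
    (h3 : S.Plus 3 3) : HasPeriodic P := by
  refine p2_arc S hc (by norm_num) (S.V 0 + S.V 1) (S.V 2 - S.V 0) (S.V 3 - S.V 1) id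
    (fun _ => rfl) (fun _ => true) (fun _ => rfl) ![(0, 0), (1, 0), (1, 1), (0, 1)]
    (fun _ => rfl) (X4a_all h0 h1 h2 h3) (X4a_all (fun _ => ?_) (fun _ => ?_) (fun _ => ?_)
      fun _ => ?_) (fun y h => absurd h (by simp)) ?_
  · change S.V 0 + S.V 1 + lv _ _ (0, 0) - S.V 0 = S.V 1 ∧
      S.V 0 + S.V 1 + lv _ _ (0, 0) - S.V 1 = S.V 0
    rw [X4a_lv]
    push_cast
    constructor <;> ring
  · change S.V 0 + S.V 1 + lv _ _ (1, 0) - S.V 1 = S.V 2 ∧
      S.V 0 + S.V 1 + lv _ _ (1, 0) - S.V 2 = S.V 1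
    rw [X4a_lv]
    push_cast
    constructor <;> ring
  · change S.V 0 + S.V 1 + lv _ _ (1, 1) - S.V 2 = S.V 3 ∧
      S.V 0 + S.V 1 + lv _ _ (1, 1) - S.V 3 = S.V 2
    rw [X4a_lv]
    push_cast
    constructor <;> ring
  · change S.V 0 + S.V 1 + lv _ _ (0, 1) - S.V 3 = S.V 0 ∧
      S.V 0 + S.V 1 + lv _ _ (0, 1) - S.V 0 = S.V 3
    rw [X4a_lv]
    push_cast
    constructor <;> ring
  · rw [X4a_sum]
    congr 1
    unfold cr
    simp only [sub_re, sub_im]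
    ring

theorem x4_4 (hc : P.CCW) (S : Arcs P 4) (b : ZMod 4 → ℝ) (hb : S.ChordAng b) (h0 : S.Plus 0 2)
    (h2 : S.Plus 2 0) (h1 : S.Plus 1 1) (h3 : S.Plus 3 3) (e1 : b 1 + b 2 = 1) : HasPeriodic P := by
  have hp : S.ch 2 = -S.ch 0 := hb.par2 (by norm_num) 0 (S.norm_plus h0) e1
  rw [X4a_ch0, X4a_ch2] at hp
  have hV : S.V 3 = S.V 2 - S.V 1 + S.V 0 := by linear_combination hp
  refine p2_arc S hc (by norm_num) (S.V 1 + S.V 2) (S.V 2 - S.V 1)
    (S.V 3 + S.V 0 - S.V 1 - S.V 2) ![2, 1, 0, 3] (by decide) ![false, true, false, true]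
    (by decide) ![(-1, 0), (0, 0), (1, 0), (0, 1)] (by decide) (X4a_all h0 h1 h2 h3)
    (X4a_all (fun h => absurd h (by decide)) (fun _ => ?_) (fun h => absurd h (by decide))
      fun _ => ?_)
    (X4a_all (fun _ => ?_) (fun h => absurd h (by decide)) (fun _ => ?_)
      fun h => absurd h (by decide)) ?_
  · change S.V 1 + S.V 2 + lv _ _ (0, 0) - S.V 1 = S.V 2 ∧
      S.V 1 + S.V 2 + lv _ _ (0, 0) - S.V 2 = S.V 1
    rw [X4a_lv]
    push_cast
    constructor <;> ring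
  · change S.V 1 + S.V 2 + lv _ _ (0, 1) - S.V 3 = S.V 0 ∧
      S.V 1 + S.V 2 + lv _ _ (0, 1) - S.V 0 = S.V 3
    rw [X4a_lv]
    push_cast
    constructor <;> ring
  · change S.V 2 + lv _ _ (-1, 0) = S.V 1 ∧ S.V 3 + lv _ _ (-1, 0) = S.V 0
    rw [X4a_lv, hV]
    push_cast
    constructor <;> ring
  · change S.V 0 + lv _ _ (1, 0) = S.V 3 ∧ S.V 1 + lv _ _ (1, 0) = S.V 2
    rw [X4a_lv, hV]
    push_cast
    constructor <;> ring
  · rw [X4a_sum, hV]
    congr 1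
    unfold cr
    simp only [sub_re, sub_im, add_re, add_im]
    ring

theorem x4_5 (hc : P.CCW) (S : Arcs P 4) (h0 : S.Plus 0 2) (h2 : S.Plus 2 0) (h1 : S.Plus 1 3)
    (h3 : S.Plus 3 1) : HasPeriodic P := by
  have rel : ∀ j : ZMod 4, S.Plus j ((![2, 3, 0, 1] : ZMod 4 → ZMod 4) j) :=
    X4a_all h0 h1 h2 h3
  have hA := S.area hc (by norm_num) ![2, 3, 0, 1] (by decide) fun j => Or.inr ⟨true, by
    rw [Arcs.Rel, if_pos rfl]
    exact rel j⟩
  have hA0 : ∑ j, cr (S.V j) (S.V (j + 1)) ≠ 0 := by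
    rw [← hA]
    have := X4a_vol_pos P
    positivity
  obtain ⟨hp, -⟩ := par4 hc S (S.norm_plus h0) (S.norm_plus h1) hA0
  rw [X4a_ch0, X4a_ch2] at hp
  have hV : S.V 3 = S.V 2 - S.V 1 + S.V 0 := by linear_combination hp
  refine p1_arc S hc (by norm_num) (S.V 2 - S.V 1) (S.V 2 - S.V 3) ![2, 3, 0, 1] (by decide)
    ![(-1, 0), (0, 1), (1, 0), (0, -1)] (by decide) rel (X4a_all ?_ ?_ ?_ ?_) ?_
  · change S.V 2 + lv _ _ (-1, 0) = S.V 1 ∧ S.V 3 + lv _ _ (-1, 0) = S.V 0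
    rw [X4a_lv, hV]
    push_cast
    constructor <;> ring
  · change S.V 3 + lv _ _ (0, 1) = S.V 2 ∧ S.V 0 + lv _ _ (0, 1) = S.V 1
    rw [X4a_lv, hV]
    push_cast
    constructor <;> ring
  · change S.V 0 + lv _ _ (1, 0) = S.V 3 ∧ S.V 1 + lv _ _ (1, 0) = S.V 2
    rw [X4a_lv, hV]
    push_cast
    constructor <;> ring
  · change S.V 1 + lv _ _ (0, -1) = S.V 0 ∧ S.V 2 + lv _ _ (0, -1) = S.V 3
    rw [X4a_lv, hV]
    push_cast
    constructor <;> ring
  · rw [X4a_sum, hV, ← abs_two (α := ℝ), ← abs_mul, ← abs_neg]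
    congr 1
    unfold cr
    simp only [sub_re, sub_im, add_re, add_im]
    ring

end Pool.Agent.Lib_MP_fa6e45
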