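import Pool.Agent.Lib_MP_fa6e45.X1g
import Pool.Agent.Lib_MP_fa6e45.X2a

/-!
PIECE X4b (about 200 lines): quadrilaterals with arcs, group pgg, no condition on the angles.
`x4_1` (C C G G): half turns on arcs 0, 1, glide between the adjacent arcs 2, 3. `x4_2` (C G C G): half turns on arcs 0, 2,
glide between arcs 1, 3. `pgg_arc`: `α z = A conj z + s` = the glide from arc 3 to arc 2 (resp. 3 to 1),
`A = ch 2 / conj (ch 3)`; `H z = - z + V0 + V1` (half turn on arc 0), `t` from `s + A conj t = V0 + V1`; the second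
half turn is `H` followed by a lattice translation.
-/

open Set MeasureTheory Complex
open scoped Topology

namespace Pool.Agent.Lib_MP_fa6e45

open Pool.Agent.Lib_PL (cr InSector Poly)

variable {n : ℕ} {P : Polygon n}

private theorem X4b_norm (A : ℂ) (hA : ‖A‖ = 1) :
    A * (starRingEnd ℂ) A = 1 ∧ A.re ^ 2 + A.im ^ 2 = 1 := by
  constructor
  · rw [Complex.mul_conj, Complex.normSq_eq_norm_sq, hA]
    simp
  · have h1 := Complex.sq_norm A
    rw [hA, Complex.normSq_apply] at h1
    nlinarith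

/-- a reflection changes the sign of `cr` -/
private theorem X4b_refl (A x y : ℂ) (hN : A.re ^ 2 + A.im ^ 2 = 1) :
    cr (A * (starRingEnd ℂ) x) (A * (starRingEnd ℂ) y) = -cr x y := by
  unfold cr
  simp only [mul_re, mul_im, conj_re, conj_im]
  linear_combination (-(x.re * y.im - x.im * y.re)) * hN

private theorem X4b_add_left (x y z : ℂ) : cr (x + y) z = cr x z + cr y z := by
  unfold cr
  simp only [add_re, add_im]
  ring

private theorem X4b_sub_left (x y z : ℂ) : cr (x - y) z = cr x z - cr y z := by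
  unfold cr
  simp only [sub_re, sub_im]
  ring

private theorem X4b_add_right (x y z : ℂ) : cr x (y + z) = cr x y + cr x z := by
  unfold cr
  simp only [add_re, add_im]
  ring

private theorem X4b_sub_right (x y z : ℂ) : cr x (y - z) = cr x y - cr x z := by
  unfold cr
  simp only [sub_re, sub_im]
  ring

private theorem X4b_self (x : ℂ) : cr x x = 0 := by
  unfold cr
  ring

private theorem X4b_neg_right (x y : ℂ) : cr x (-y) = -cr x y := by
  unfold cr
  simp only [neg_re, neg_im]
  ring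

/-- the area of a quadrilateral by the diagonals -/
private theorem X4b_quad (a b c d : ℂ) :
    cr a b + cr b c + cr c d + cr d a = cr (c - a) (d - b) := by
  unfold cr
  simp only [sub_re, sub_im]
  ring

private theorem X4b_sum4 (f : ZMod 4 → ℝ) : ∑ i, f i = f 0 + f 1 + f 2 + f 3 :=
  Fin.sum_univ_four f

/-- the linear part of the glide from arc `k` to arc `j` -/
private theorem X4b_A (S : Arcs P 4) {j k : ZMod 4} (h : S.Minus j k) :
    ∃ A : ℂ, ‖A‖ = 1 ∧ A * (starRingEnd ℂ) (S.ch k) = S.ch j := by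
  have hk := S.ch_ne (by norm_num) k
  have hk' : (starRingEnd ℂ) (S.ch k) ≠ 0 := by
    rw [ne_eq, map_eq_zero]
    exact hk
  refine ⟨S.ch j / (starRingEnd ℂ) (S.ch k), ?_, div_mul_cancel₀ _ hk'⟩
  rw [norm_div, RCLike.norm_conj, S.norm_minus h, div_self]
  rwa [ne_eq, norm_eq_zero]

theorem x4_1 (hc : P.CCW) (S : Arcs P 4) (h0 : S.Plus 0 0) (h1 : S.Plus 1 1) (h2 : S.Minus 2 3)
    (h3 : S.Minus 3 2) : HasPeriodic P := by
  obtain ⟨A, hA, hg⟩ := X4b_A S h2
  obtain ⟨hAA, hN⟩ := X4b_norm A hA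
  have e1 : (0 : ZMod 4) + 1 = 1 := rfl
  have e2 : (1 : ZMod 4) + 1 = 2 := rfl
  have e3 : (2 : ZMod 4) + 1 = 3 := rfl
  have e4 : (3 : ZMod 4) + 1 = 0 := rfl
  unfold Arcs.ch at hg
  rw [e3, e4, map_sub] at hg
  set a := S.V 0 with ha
  set b := S.V 1 with hb
  set c := S.V 2 with hcc
  set d := S.V 3 with hd
  -- `s = c - A conj d`, `t = A conj (a + b - s)`
  have hs : ∃ s : ℂ, s = c - A * (starRingEnd ℂ) d := ⟨_, rfl⟩
  obtain ⟨s, hs⟩ := hs
  have ht : ∃ t : ℂ, t = A * (starRingEnd ℂ) (a + b - s) := ⟨_, rfl⟩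
  obtain ⟨t, ht⟩ := ht
  -- `α a = d`, `α d = c`
  have hαa : A * (starRingEnd ℂ) a + s = d := by linear_combination hs + hg
  have hαd : A * (starRingEnd ℂ) d + s = c := by linear_combination hs
  have hrr : ∀ z : ℂ, A * (starRingEnd ℂ) (A * (starRingEnd ℂ) z) = z := by
    intro z
    rw [map_mul, Complex.conj_conj]
    linear_combination z * hAA
  have hAt : A * (starRingEnd ℂ) t = a + b - s := by rw [ht, hrr]
  have hu : s + A * (starRingEnd ℂ) s = c - a := by
    have h5 : A * (starRingEnd ℂ) d = a + A * (starRingEnd ℂ) s := by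
      rw [← hαa, map_add, mul_add, hrr]
    linear_combination hαd - h5
  have hru : A * (starRingEnd ℂ) (c - a) = c - a := by
    rw [← hu, map_add, mul_add, hrr]
    ring
  have hcu : ∀ x : ℂ, cr (c - a) (A * (starRingEnd ℂ) x) = -cr (c - a) x := by
    intro x
    have h5 := X4b_refl A (c - a) x hN
    rwa [hru] at h5
  have hw : t - A * (starRingEnd ℂ) t =
      A * (starRingEnd ℂ) (a + b - s) - (a + b - s) := by
    rw [hAt, ht]
  have harea : 2 * (cr a b + cr b c + cr c d + cr d a) =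
      cr (s + A * (starRingEnd ℂ) s) (t - A * (starRingEnd ℂ) t) := by
    have h5 : cr (c - a) (A * (starRingEnd ℂ) a) = -cr (c - a) a := hcu a
    have h6 : d - b = A * (starRingEnd ℂ) a + a - (a + b - s) := by linear_combination -hαa
    have h7 : cr (c - a) (A * (starRingEnd ℂ) (a + b - s)) = -cr (c - a) (a + b - s) := hcu _
    rw [hu, hw, X4b_quad, h6, X4b_sub_right (c - a) (A * (starRingEnd ℂ) (a + b - s)), h7,
      X4b_sub_right (c - a) (A * (starRingEnd ℂ) a + a), X4b_add_right (c - a) (A * (starRingEnd ℂ) a) a, h5]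
    ring
  refine pgg_arc S hc (by norm_num) A s t hA ![0, 1, 3, 2] (by decide) ![1, 1, 2, 2] (by decide)
    ![(0, 0), (1, 0), (0, 0), (-1, 0)] (by decide) ?_ ?_ ?_
  · intro j
    fin_cases j
    · exact h0
    · exact h1
    · exact h2
    · exact h3
  · intro j
    fin_cases j
    · show pgg A s t 1 (S.V 0) + lv _ _ (0, 0) = S.V (0 + 1) ∧
        pgg A s t 1 (S.V (0 + 1)) + lv _ _ (0, 0) = S.V 0
      rw [e1, ← ha, ← hb]
      simp only [pgg, lv, Matrix.cons_val_one, Matrix.cons_val_zero, Int.cast_zero, zero_mul,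
        add_zero]
      constructor
      · linear_combination hAt
      · linear_combination hAt
    · show pgg A s t 1 (S.V 1) + lv _ _ (1, 0) = S.V (1 + 1) ∧
        pgg A s t 1 (S.V (1 + 1)) + lv _ _ (1, 0) = S.V 1
      rw [e2, ← hcc, ← hb]
      simp only [pgg, lv, Matrix.cons_val_one, Matrix.cons_val_zero, Int.cast_zero, Int.cast_one,
        one_mul, zero_mul, add_zero]
      constructor
      · linear_combination hAt + hu
      · linear_combination hAt + hu
    · show pgg A s t 2 (S.V 3) + lv _ _ (0, 0) = S.V 2 ∧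
        pgg A s t 2 (S.V (3 + 1)) + lv _ _ (0, 0) = S.V (2 + 1)
      rw [e4, e3, ← ha, ← hcc, ← hd]
      simp only [pgg, lv, Matrix.cons_val, Int.cast_zero, zero_mul, add_zero]
      exact ⟨hαd, hαa⟩
    · show pgg A s t 2 (S.V 2) + lv _ _ (-1, 0) = S.V 3 ∧
        pgg A s t 2 (S.V (2 + 1)) + lv _ _ (-1, 0) = S.V (3 + 1)
      rw [e4, e3, ← ha, ← hcc, ← hd]
      simp only [pgg, lv, Matrix.cons_val, Int.cast_zero, Int.cast_neg, Int.cast_one, zero_mul,
        add_zero]
      constructor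
      · have h5 : A * (starRingEnd ℂ) c = d + A * (starRingEnd ℂ) s := by
          rw [← hαd, map_add, mul_add, hrr]
        linear_combination h5
      · linear_combination hαd - hu
  · rw [X4b_sum4, e1, e2, e3, e4, ← ha, ← hb, ← hcc, ← hd, ← harea, abs_mul]
    norm_num

theorem x4_2 (hc : P.CCW) (S : Arcs P 4) (h0 : S.Plus 0 0) (h2 : S.Plus 2 2) (h1 : S.Minus 1 3)
    (h3 : S.Minus 3 1) : HasPeriodic P := by
  obtain ⟨A, hA, hg⟩ := X4b_A S h1
  obtain ⟨hAA, hN⟩ := X4b_norm A hA
  have e1 : (0 : ZMod 4) + 1 = 1 := rfl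
  have e2 : (1 : ZMod 4) + 1 = 2 := rfl
  have e3 : (2 : ZMod 4) + 1 = 3 := rfl
  have e4 : (3 : ZMod 4) + 1 = 0 := rfl
  unfold Arcs.ch at hg
  rw [e2, e4, map_sub] at hg
  set a := S.V 0 with ha
  set b := S.V 1 with hb
  set c := S.V 2 with hcc
  set d := S.V 3 with hd
  have hs : ∃ s : ℂ, s = b - A * (starRingEnd ℂ) d := ⟨_, rfl⟩
  obtain ⟨s, hs⟩ := hs
  have ht : ∃ t : ℂ, t = A * (starRingEnd ℂ) a + d := ⟨_, rfl⟩
  obtain ⟨t, ht⟩ := ht
  -- `α a = c`, `α d = b`
  have hαa : A * (starRingEnd ℂ) a + s = c := by linear_combination hs + hg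
  have hαd : A * (starRingEnd ℂ) d + s = b := by linear_combination hs
  have hrr : ∀ z : ℂ, A * (starRingEnd ℂ) (A * (starRingEnd ℂ) z) = z := by
    intro z
    rw [map_mul, Complex.conj_conj]
    linear_combination z * hAA
  have hAt : A * (starRingEnd ℂ) t = a + b - s := by
    rw [ht, map_add, mul_add, hrr]
    linear_combination hαd
  have hw : t - A * (starRingEnd ℂ) t = (d - A * (starRingEnd ℂ) d) - (a - A * (starRingEnd ℂ) a) := by
    rw [hAt, ht]
    linear_combination hαd
  have hanti : ∀ z : ℂ, A * (starRingEnd ℂ) (z - A * (starRingEnd ℂ) z) =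
      -(z - A * (starRingEnd ℂ) z) := by
    intro z
    rw [map_sub, mul_sub, hrr]
    ring
  have hpar : cr (a - A * (starRingEnd ℂ) a) (d - A * (starRingEnd ℂ) d) = 0 := by
    have h5 := X4b_refl A (a - A * (starRingEnd ℂ) a) (d - A * (starRingEnd ℂ) d) hN
    rw [hanti, hanti] at h5
    have h6 : cr (-(a - A * (starRingEnd ℂ) a)) (-(d - A * (starRingEnd ℂ) d)) =
        cr (a - A * (starRingEnd ℂ) a) (d - A * (starRingEnd ℂ) d) := by
      unfold cr
      simp only [neg_re, neg_im]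
      ring
    rw [h6] at h5
    linarith
  have hcs : ∀ z : ℂ, cr (A * (starRingEnd ℂ) s) (z - A * (starRingEnd ℂ) z) =
      cr s (z - A * (starRingEnd ℂ) z) := by
    intro z
    have h5 := X4b_refl A s (z - A * (starRingEnd ℂ) z) hN
    rw [hanti, X4b_neg_right] at h5
    linarith
  have harea : 2 * (cr a b + cr b c + cr c d + cr d a) =
      cr (s + A * (starRingEnd ℂ) s) (t - A * (starRingEnd ℂ) t) := by
    have h6 : c - a = s - (a - A * (starRingEnd ℂ) a) := by linear_combination -hαa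
    have h7 : d - b = (d - A * (starRingEnd ℂ) d) - s := by linear_combination hαd
    have h8 := hcs a
    have h9 := hcs d
    obtain ⟨p, hp⟩ : ∃ p : ℂ, p = a - A * (starRingEnd ℂ) a := ⟨_, rfl⟩
    obtain ⟨q, hq⟩ : ∃ q : ℂ, q = d - A * (starRingEnd ℂ) d := ⟨_, rfl⟩
    obtain ⟨r, hr⟩ : ∃ r : ℂ, r = A * (starRingEnd ℂ) s := ⟨_, rfl⟩
    rw [X4b_quad, hw, h6, h7]
    rw [← hp, ← hq] at hpar ⊢
    rw [← hp, ← hr] at h8
    rw [← hq, ← hr] at h9
    rw [← hr]
    unfold cr at hpar h8 h9 ⊢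
    simp only [sub_re, sub_im, add_re, add_im] at *
    linarith
  refine pgg_arc S hc (by norm_num) A s t hA ![0, 3, 2, 1] (by decide) ![1, 2, 1, 2] (by decide)
    ![(0, 0), (0, 0), (0, 1), (-1, 0)] (by decide) ?_ ?_ ?_
  · intro j
    fin_cases j
    · exact h0
    · exact h1
    · exact h2
    · exact h3
  · intro j
    fin_cases j
    · show pgg A s t 1 (S.V 0) + lv _ _ (0, 0) = S.V (0 + 1) ∧
        pgg A s t 1 (S.V (0 + 1)) + lv _ _ (0, 0) = S.V 0
      rw [e1, ← ha, ← hb]
      simp only [pgg, lv, Matrix.cons_val_one, Matrix.cons_val_zero, Int.cast_zero, zero_mul,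
        add_zero]
      constructor
      · linear_combination hAt
      · linear_combination hAt
    · show pgg A s t 2 (S.V 3) + lv _ _ (0, 0) = S.V 1 ∧
        pgg A s t 2 (S.V (3 + 1)) + lv _ _ (0, 0) = S.V (1 + 1)
      rw [e4, e2, ← ha, ← hb, ← hcc, ← hd]
      simp only [pgg, lv, Matrix.cons_val, Int.cast_zero, zero_mul, add_zero]
      exact ⟨hαd, hαa⟩
    · show pgg A s t 1 (S.V 2) + lv _ _ (0, 1) = S.V (2 + 1) ∧
        pgg A s t 1 (S.V (2 + 1)) + lv _ _ (0, 1) = S.V 2
      rw [e3, ← hcc, ← hd]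
      simp only [pgg, lv, Matrix.cons_val_one, Matrix.cons_val_zero, Int.cast_zero, Int.cast_one,
        one_mul, zero_mul, zero_add]
      constructor
      · linear_combination hAt + hw + hαa - hαd
      · linear_combination hAt + hw + hαa - hαd
    · show pgg A s t 2 (S.V 1) + lv _ _ (-1, 0) = S.V 3 ∧
        pgg A s t 2 (S.V (1 + 1)) + lv _ _ (-1, 0) = S.V (3 + 1)
      rw [e4, e2, ← ha, ← hb, ← hcc, ← hd]
      simp only [pgg, lv, Matrix.cons_val, Int.cast_zero, Int.cast_neg, Int.cast_one, zero_mul,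
        add_zero]
      constructor
      · have h5 : A * (starRingEnd ℂ) b = d + A * (starRingEnd ℂ) s := by
          rw [← hαd, map_add, mul_add, hrr]
        linear_combination h5
      · have h5 : A * (starRingEnd ℂ) c = a + A * (starRingEnd ℂ) s := by
          rw [← hαa, map_add, mul_add, hrr]
        linear_combination h5
  · rw [X4b_sum4, e1, e2, e3, e4, ← ha, ← hb, ← hcc, ← hd, ← harea, abs_mul]
    norm_num

end Pool.Agent.Lib_MP_fa6e45
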