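import Pool.Agent.Lib_MP_fa6e45.X1e
import Pool.Agent.Lib_MP_fa6e45.X4a

/-!
PIECE X4c (about 200 lines): quadrilaterals with arcs, group pg. `x4_3` (G1 G1 G2 G2, no condition): glides
`g` from arc 1 to arc 0 and `g'` from arc 3 to arc 2; their axes are parallel (`V1 = g V1` ... compute the linear parts
`A = ch 0 / conj (ch 1)`, `A' = ch 2 / conj (ch 3)`; closing of the chords gives `A' = A`: with `x = ch 0 + ch 1`,
`A conj x = x` and `A' conj (ch 2 + ch 3) = ch 2 + ch 3 = - x`; if `x = 0` the area is 0). `x4_6` (T G T G): arcs 0, 2 by a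
translation, 1, 3 by a glide: `par4` (X4a).
-/

open Set MeasureTheory Complex
open scoped Topology

namespace Pool.Agent.Lib_MP_fa6e45

open Pool.Agent.Lib_PL (cr InSector Poly)

variable {n : ℕ} {P : Polygon n}

private theorem X4c_vol_pos (P : Polygon n) : 0 < (volume P.region).toReal := by
  apply ENNReal.toReal_pos
  · intro h
    have h1 : volume P.inner = 0 := by
      apply measure_mono_null _ h
      rw [P.region_union]
      exact subset_union_right
    exact (P.inner_open.measure_pos volume P.inner_nonempty).ne' h1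
  · exact (P.region_bounded.measure_lt_top).ne

private theorem X4c_unit {z w : ℂ} (hw : w ≠ 0) (h : ‖z‖ = ‖w‖) :
    ‖z / (starRingEnd ℂ) w‖ = 1 := by
  rw [norm_div, RCLike.norm_conj, h]
  exact div_self (by simpa using hw)

private theorem X4c_mulc {z w : ℂ} (hw : w ≠ 0) : z / (starRingEnd ℂ) w * (starRingEnd ℂ) w = z :=
  div_mul_cancel₀ z (by simpa using hw)

private theorem X4c_conj {A : ℂ} (hA1 : ‖A‖ = 1) : A * (starRingEnd ℂ) A = 1 := by
  rw [Complex.mul_conj, Complex.normSq_eq_norm_sq, hA1]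
  simp

/-- the inverse relation: `z = A conj w` gives `w = A conj z` -/
private theorem X4c_symm {A z w : ℂ} (hA1 : ‖A‖ = 1) (h : z = A * (starRingEnd ℂ) w) :
    A * (starRingEnd ℂ) z = w := by
  have h1 := X4c_conj hA1
  rw [h, map_mul, conj_conj]
  linear_combination w * h1

private theorem X4c_cr {A z w : ℂ} (hA1 : ‖A‖ = 1) :
    cr (A * (starRingEnd ℂ) z) (A * (starRingEnd ℂ) w) = -cr z w := by
  have h : A.re * A.re + A.im * A.im = 1 := by
    have h1 := Complex.sq_norm A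
    rw [hA1, Complex.normSq_apply] at h1
    linarith
  unfold cr
  simp only [mul_re, mul_im, conj_re, conj_im]
  linear_combination (-(z.re * w.im - z.im * w.re)) * h

private theorem X4c_sum (S : Arcs P 4) :
    ∑ j, cr (S.V j) (S.V (j + 1)) = cr (S.V 2 - S.V 0) (S.V 3 - S.V 1) := by
  have h1 : ∑ j : ZMod 4, cr (S.V j) (S.V (j + 1)) =
      cr (S.V 0) (S.V (0 + 1)) + cr (S.V 1) (S.V (1 + 1)) +
        cr (S.V 2) (S.V (2 + 1)) + cr (S.V 3) (S.V (3 + 1)) :=
    Fin.sum_univ_four (fun j : ZMod 4 => cr (S.V j) (S.V (j + 1)))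
  have q1 : (0 : ZMod 4) + 1 = 1 := rfl
  have q2 : (1 : ZMod 4) + 1 = 2 := rfl
  have q3 : (2 : ZMod 4) + 1 = 3 := rfl
  have q4 : (3 : ZMod 4) + 1 = 0 := rfl
  rw [h1, q1, q2, q3, q4]
  unfold cr
  simp only [sub_re, sub_im]
  ring

private theorem X4c_ch (S : Arcs P 4) : S.ch 0 = S.V 1 - S.V 0 ∧ S.ch 1 = S.V 2 - S.V 1 ∧
    S.ch 2 = S.V 3 - S.V 2 ∧ S.ch 3 = S.V 0 - S.V 3 := ⟨rfl, rfl, rfl, rfl⟩

theorem x4_3 (hc : P.CCW) (S : Arcs P 4) (h0 : S.Minus 0 1) (h1 : S.Minus 1 0) (h2 : S.Minus 2 3)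
    (h3 : S.Minus 3 2) : HasPeriodic P := by
  have hm : 2 ≤ 4 := by norm_num
  obtain ⟨c0, c1, c2, c3⟩ := X4c_ch S
  have hrel : ∀ j : ZMod 4, S.Rel j ((![1, 0, 3, 2] : ZMod 4 → ZMod 4) j) false := by
    intro j
    fin_cases j
    · exact h0
    · exact h1
    · exact h2
    · exact h3
  have hη : ∀ j : ZMod 4, (![1, 0, 3, 2] : ZMod 4 → ZMod 4) ((![1, 0, 3, 2] : ZMod 4 → ZMod 4) j) = j := by
    decide
  have harea := S.area hc hm ![1, 0, 3, 2] hη fun j => Or.inr ⟨false, hrel j⟩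
  have hpos := X4c_vol_pos P
  have n1 := S.norm_minus h0
  have n2 := S.norm_minus h2
  have z1 := S.ch_ne hm 1
  have z3 := S.ch_ne hm 3
  have hne : S.V 2 - S.V 0 ≠ 0 := by
    intro h
    rw [X4c_sum, h] at harea
    have : cr 0 (S.V 3 - S.V 1) = 0 := by
      unfold cr
      simp
    rw [this] at harea
    linarith
  set A := S.ch 0 / (starRingEnd ℂ) (S.ch 1) with hA
  have hA1 : ‖A‖ = 1 := X4c_unit z1 n1
  have e1 : A * (starRingEnd ℂ) (S.ch 1) = S.ch 0 := X4c_mulc z1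
  have e0 : A * (starRingEnd ℂ) (S.ch 0) = S.ch 1 := X4c_symm hA1 e1.symm
  have hA1' : ‖S.ch 2 / (starRingEnd ℂ) (S.ch 3)‖ = 1 := X4c_unit z3 n2
  have e3' : S.ch 2 / (starRingEnd ℂ) (S.ch 3) * (starRingEnd ℂ) (S.ch 3) = S.ch 2 := X4c_mulc z3
  have e2' := X4c_symm hA1' e3'.symm
  have hAA : S.ch 2 / (starRingEnd ℂ) (S.ch 3) = A := by
    have hx : (starRingEnd ℂ) (S.V 2 - S.V 0) ≠ 0 := by
      rw [Ne, map_eq_zero]
      exact hne
    refine mul_right_cancel₀ hx ?_
    rw [c2, c3] at e3' e2' ⊢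
    rw [c0, c1] at e1 e0
    simp only [map_sub] at e3' e2' e1 e0 ⊢
    linear_combination -(e3' + e2') - (e1 + e0)
  rw [hAA] at e3' e2'
  rw [c0, c1] at e1 e0
  rw [c2, c3] at e3' e2'
  have hAc := X4c_conj hA1
  simp only [map_sub] at e3' e2' e1 e0
  have hu : S.V 0 - A * (starRingEnd ℂ) (S.V 1) +
      A * (starRingEnd ℂ) (S.V 0 - A * (starRingEnd ℂ) (S.V 1)) = -(S.V 2 - S.V 0) := by
    simp only [map_sub, map_mul, conj_conj]
    linear_combination -S.V 1 * hAc - e0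
  have hw : A * (starRingEnd ℂ) (S.V 3 - S.V 1) = -(S.V 3 - S.V 1) := by
    simp only [map_sub]
    linear_combination e1 + e2'
  refine pg_arc S hc hm A (S.V 0 - A * (starRingEnd ℂ) (S.V 1)) (S.V 3 - S.V 1) hA1 hw
    ![1, 0, 3, 2] hη (fun _ => true) (fun _ => rfl)
    ![(0, 0), (-1, 0), (-1, 1), (0, 1)] (by decide) (fun j => hrel j)
    (fun j h => absurd h (by simp)) ?_ ?_
  · intro j _
    rw [hu]
    simp only [map_sub] at hw
    have key : ∀ (p q r t : ℂ) (a b : ℤ),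
        A * (starRingEnd ℂ) p + (S.V 0 - A * (starRingEnd ℂ) (S.V 1)) +
          ((a : ℂ) * (-(S.V 2 - S.V 0)) + (b : ℂ) * (S.V 3 - S.V 1)) = r →
        A * (starRingEnd ℂ) q + (S.V 0 - A * (starRingEnd ℂ) (S.V 1)) +
          ((a : ℂ) * (-(S.V 2 - S.V 0)) + (b : ℂ) * (S.V 3 - S.V 1)) = t →
        A * (starRingEnd ℂ) p + (S.V 0 - A * (starRingEnd ℂ) (S.V 1)) +
          lv (-(S.V 2 - S.V 0)) (S.V 3 - S.V 1) (a, b) = r ∧
        A * (starRingEnd ℂ) q + (S.V 0 - A * (starRingEnd ℂ) (S.V 1)) +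
          lv (-(S.V 2 - S.V 0)) (S.V 3 - S.V 1) (a, b) = t := fun p q r t a b x y => ⟨x, y⟩
    fin_cases j
    · refine key (S.V 1) (S.V 2) (S.V 0) (S.V 1) 0 0 ?_ ?_
      · push_cast
        ring
      · push_cast
        linear_combination e1
    · refine key (S.V 0) (S.V 1) (S.V 1) (S.V 2) (-1) 0 ?_ ?_
      · push_cast
        linear_combination -e0
      · push_cast
        ring
    · refine key (S.V 3) (S.V 0) (S.V 2) (S.V 3) (-1) 1 ?_ ?_
      · push_cast
        linear_combination hw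
      · push_cast
        linear_combination -e0
    · refine key (S.V 2) (S.V 3) (S.V 3) (S.V 0) 0 1 ?_ ?_
      · push_cast
        linear_combination e1
      · push_cast
        linear_combination hw
  · rw [X4c_sum, hu]
    have : cr (-(S.V 2 - S.V 0)) (S.V 3 - S.V 1) = -cr (S.V 2 - S.V 0) (S.V 3 - S.V 1) := by
      unfold cr
      simp only [neg_re, neg_im]
      ring
    rw [this, abs_neg]

theorem x4_6 (hc : P.CCW) (S : Arcs P 4) (h0 : S.Plus 0 2) (h2 : S.Plus 2 0) (h1 : S.Minus 1 3)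
    (h3 : S.Minus 3 1) : HasPeriodic P := by
  have hm : 2 ≤ 4 := by norm_num
  obtain ⟨c0, c1, c2, c3⟩ := X4c_ch S
  have hrel : ∀ j : ZMod 4, S.Rel j ((![2, 3, 0, 1] : ZMod 4 → ZMod 4) j)
      (!(![false, true, false, true] : ZMod 4 → Bool) j) := by
    intro j
    fin_cases j
    · exact h0
    · exact h1
    · exact h2
    · exact h3
  have hη : ∀ j : ZMod 4,
      (![2, 3, 0, 1] : ZMod 4 → ZMod 4) ((![2, 3, 0, 1] : ZMod 4 → ZMod 4) j) = j := by
    decide
  have harea := S.area hc hm ![2, 3, 0, 1] hη fun j => Or.inr ⟨_, hrel j⟩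
  have hpos := X4c_vol_pos P
  have z3 := S.ch_ne hm 3
  obtain ⟨p2, p3⟩ := par4 hc S (S.norm_plus h0) (S.norm_minus h1) (by
    rw [← harea]
    exact (mul_pos two_pos hpos).ne')
  set A := S.ch 1 / (starRingEnd ℂ) (S.ch 3) with hA
  have hA1 : ‖A‖ = 1 := X4c_unit z3 (S.norm_minus h1)
  have e1 : A * (starRingEnd ℂ) (S.ch 3) = S.ch 1 := X4c_mulc z3
  have hw : A * (starRingEnd ℂ) (S.ch 1) = -S.ch 1 := by
    have : S.ch 1 = -S.ch 3 := by rw [p3, neg_neg]
    nth_rewrite 1 [this]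
    rw [map_neg, mul_neg, e1]
  have hAc := X4c_conj hA1
  have hu : S.V 1 - A * (starRingEnd ℂ) (S.V 3) +
      A * (starRingEnd ℂ) (S.V 1 - A * (starRingEnd ℂ) (S.V 3)) =
        S.ch 0 + A * (starRingEnd ℂ) (S.ch 0) := by
    rw [c1] at hw
    rw [c2, c0] at p2
    have hV : S.V 3 = S.V 2 - (S.V 1 - S.V 0) := by linear_combination p2
    rw [c0]
    simp only [map_sub, map_mul, conj_conj] at hw ⊢
    rw [hV]
    simp only [map_sub]
    linear_combination -(S.V 2 - (S.V 1 - S.V 0)) * hAc - hw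
  refine pg_arc S hc hm A (S.V 1 - A * (starRingEnd ℂ) (S.V 3)) (S.ch 1) hA1 hw
    ![2, 3, 0, 1] hη ![false, true, false, true] (fun j => by fin_cases j <;> rfl)
    ![(0, -1), (0, 0), (0, 1), (-1, 0)] (fun j => by fin_cases j <;> rfl) hrel ?_ ?_ ?_
  · intro j hj
    rw [hu]
    rw [c2, c0] at p2
    rw [c3, c1] at p3
    rw [c0, c1]
    fin_cases j
    · refine ⟨?_, ?_⟩
      · show S.V 2 + (((0 : ℤ) : ℂ) * _ + ((-1 : ℤ) : ℂ) * _) = S.V 1
        push_cast
        ring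
      · show S.V 3 + (((0 : ℤ) : ℂ) * _ + ((-1 : ℤ) : ℂ) * _) = S.V 0
        push_cast
        linear_combination p2
    · exact absurd hj (by decide)
    · refine ⟨?_, ?_⟩
      · show S.V 0 + (((0 : ℤ) : ℂ) * _ + ((1 : ℤ) : ℂ) * _) = S.V 3
        push_cast
        linear_combination -p2
      · show S.V 1 + (((0 : ℤ) : ℂ) * _ + ((1 : ℤ) : ℂ) * _) = S.V 2
        push_cast
        ring
    · exact absurd hj (by decide)
  · intro j hj
    rw [hu]
    rw [c2, c0] at p2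
    have hV : S.V 3 = S.V 2 - (S.V 1 - S.V 0) := by linear_combination p2
    rw [c3, c1] at e1
    rw [c1] at hw
    rw [c0, c1]
    simp only [map_sub] at e1 hw ⊢
    fin_cases j
    · exact absurd hj (by decide)
    · refine ⟨?_, ?_⟩
      · show A * (starRingEnd ℂ) (S.V 3) + _ + (((0 : ℤ) : ℂ) * _ + ((0 : ℤ) : ℂ) * _) = S.V 1
        push_cast
        ring
      · show A * (starRingEnd ℂ) (S.V 0) + _ + (((0 : ℤ) : ℂ) * _ + ((0 : ℤ) : ℂ) * _) = S.V 2
        push_cast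
        linear_combination e1
    · exact absurd hj (by decide)
    · refine ⟨?_, ?_⟩
      · show A * (starRingEnd ℂ) (S.V 1) + _ + (((-1 : ℤ) : ℂ) * _ + ((0 : ℤ) : ℂ) * _) = S.V 3
        push_cast
        rw [hV]
        simp only [map_sub]
        linear_combination -hw
      · show A * (starRingEnd ℂ) (S.V 2) + _ + (((-1 : ℤ) : ℂ) * _ + ((0 : ℤ) : ℂ) * _) = S.V 0
        push_cast
        rw [hV]
        simp only [map_sub]
        ring
  · rw [X4c_sum, hu]
    have g1 : cr (A * (starRingEnd ℂ) (S.ch 0)) (S.ch 1) = cr (S.ch 0) (S.ch 1) := by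
      have g2 := X4c_cr (z := S.ch 0) (w := S.ch 1) hA1
      rw [hw] at g2
      unfold cr at g2 ⊢
      simp only [neg_re, neg_im] at g2
      linarith
    have g3 : S.V 2 - S.V 0 = S.ch 0 + S.ch 1 := by
      rw [c0, c1]
      ring
    have g4 : S.V 3 - S.V 1 = S.ch 1 - S.ch 0 := by
      rw [c2, c0] at p2
      rw [c0, c1]
      linear_combination p2
    rw [g3, g4]
    congr 1
    unfold cr at g1 ⊢
    simp only [add_re, add_im, sub_re, sub_im]
    linarith

end Pool.Agent.Lib_MP_fa6e45
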