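import Pool.Agent.Lib_MP_fa6e45.X1g
import Pool.Agent.Lib_MP_fa6e45.X2a

/-!
PIECE X4d (about 150 lines): quadrilateral with arcs, G1 G2 G1 G2, group pgg: `ChordAng.glide` with `j = 0`,
`k = 2` (`b 1 + b 3 = 1`) gives one `A` with `ch 0 = A conj (ch 2)`, `ch 1 = - A conj (ch 3)`; `pgg_arc` with
`α z = A conj z + s` (arc 2 to arc 0), `β z = - A conj z + t` (arc 3 to arc 1).
-/

open Set MeasureTheory Complex
open scoped Topology

namespace Pool.Agent.Lib_MP_fa6e45

open Pool.Agent.Lib_PL (cr InSector Poly)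

variable {n : ℕ} {P : Polygon n}

private theorem x4d_norm (A : ℂ) (hA : ‖A‖ = 1) : A * (starRingEnd ℂ) A = 1 := by
  rw [Complex.mul_conj, Complex.normSq_eq_norm_sq, hA]
  simp

private theorem x4d_sum4 (f : ZMod 4 → ℝ) : ∑ i, f i = f 0 + f 1 + f 2 + f 3 :=
  Fin.sum_univ_four f

/-- the area identity for `V0 = a`, `V1 = b`, `V2 = c`, `V3 = d` -/
private theorem x4d_area (A a b c d : ℂ) (hAA : A * (starRingEnd ℂ) A = 1)
    (hb : b - a = A * (starRingEnd ℂ) (d - c)) (hc : c - b = -(A * (starRingEnd ℂ) (a - d))) :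
    2 * (cr a b + cr b c + cr c d + cr d a) =
    cr ((a - A * (starRingEnd ℂ) c) + A * (starRingEnd ℂ) (a - A * (starRingEnd ℂ) c))
      ((b + A * (starRingEnd ℂ) d) - A * (starRingEnd ℂ) (b + A * (starRingEnd ℂ) d)) := by
  have c0 := congrArg (fun z => A * (starRingEnd ℂ) z) hb
  have c1 := congrArg (fun z => A * (starRingEnd ℂ) z) hc
  simp only [map_sub, map_mul, map_neg, Complex.conj_conj] at c0 c1
  have hb' := hb
  have hc' := hc
  simp only [map_sub] at hb' hc'
  have key : b - d = A * (starRingEnd ℂ) (a - c) := by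
    simp only [map_sub]
    linear_combination (1 / 2) * hb' - (1 / 2) * hc' + (1 / 2) * c0 + (1 / 2) * c1 +
      ((1 / 2) * (d - c) - (1 / 2) * (a - d)) * hAA
  have key' := key
  simp only [map_sub] at key'
  have c2 := congrArg (fun z => A * (starRingEnd ℂ) z) key
  simp only [map_sub, map_mul, Complex.conj_conj] at c2
  have hu : (a - A * (starRingEnd ℂ) c) + A * (starRingEnd ℂ) (a - A * (starRingEnd ℂ) c) =
      (a - c) + (b - d) := by
    simp only [map_sub, map_mul, Complex.conj_conj]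
    linear_combination -c * hAA - key'
  have hw : (b + A * (starRingEnd ℂ) d) - A * (starRingEnd ℂ) (b + A * (starRingEnd ℂ) d) =
      (b - d) - (a - c) := by
    simp only [map_add, map_mul, Complex.conj_conj]
    linear_combination -d * hAA - c2 - (a - c) * hAA
  rw [hu, hw]
  unfold cr
  simp only [add_re, add_im, sub_re, sub_im]
  ring

theorem x4_7 (hc : P.CCW) (S : Arcs P 4) (b : ZMod 4 → ℝ) (hb : S.ChordAng b) (h0 : S.Minus 0 2)
    (h2 : S.Minus 2 0) (h1 : S.Minus 1 3) (h3 : S.Minus 3 1) (e1 : b 1 + b 3 = 1) :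
    HasPeriodic P := by
  obtain ⟨A, hA, g0, g1⟩ := hb.glide (by norm_num) 0 2 (Arcs.norm_minus S h0)
    (by
      have := Arcs.norm_minus S h1
      exact this) e1
  have hAA := x4d_norm A hA
  have k1 : (0 : ZMod 4) + 1 = 1 := rfl
  have k2 : (1 : ZMod 4) + 1 = 2 := rfl
  have k3 : (2 : ZMod 4) + 1 = 3 := rfl
  have k4 : (3 : ZMod 4) + 1 = 0 := rfl
  unfold Arcs.ch at g0 g1
  rw [k1, k3] at g0 g1
  rw [k2, k4] at g1
  have harea := x4d_area A (S.V 0) (S.V 1) (S.V 2) (S.V 3) hAA g0 g1
  refine pgg_arc S hc (by norm_num) A (S.V 0 - A * (starRingEnd ℂ) (S.V 2))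
    (S.V 1 + A * (starRingEnd ℂ) (S.V 3)) hA ![2, 3, 0, 1] (by decide)
    ![2, 3, 2, 3] (by decide) ![(0, 0), (0, 0), (-1, 0), (0, -1)] (by decide) ?_ ?_ ?_
  · intro j
    fin_cases j
    · exact h0
    · exact h1
    · exact h2
    · exact h3
  · have q0 := g0
    have q1 := g1
    simp only [map_sub] at q0 q1
    have c0 := congrArg (fun z => A * (starRingEnd ℂ) z) g0
    have c1 := congrArg (fun z => A * (starRingEnd ℂ) z) g1
    simp only [map_sub, map_mul, map_neg, Complex.conj_conj] at c0 c1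
    intro j
    fin_cases j
    · simp [lv, pgg, k3]
      refine ⟨rfl, ?_⟩
      change _ = S.V 1
      linear_combination -q0
    · simp [lv, pgg, k4]
      refine ⟨rfl, ?_⟩
      change _ = S.V 2
      linear_combination -q1
    · simp [lv, pgg, k1]
      constructor
      · linear_combination (S.V 2) * hAA
      · change _ = S.V 3
        linear_combination c0 + (S.V 3) * hAA
    · simp [lv, pgg, k2]
      constructor
      · linear_combination (S.V 3) * hAA
      · change _ = S.V 0
        linear_combination -c1 + (S.V 0) * hAA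
  · rw [x4d_sum4, k1, k2, k3, k4, ← harea, abs_mul, abs_two]

end Pool.Agent.Lib_MP_fa6e45
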