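import Pool.Agent.Lib_MP_fa6e45.L1
import Pool.Agent.Lib_MP_fa6e45.L2a

/-!
PIECE L2b (about 120 lines): Conway's criterion with two tiles `P` and `s - P`, from
`LData.criterion` with `k = 2`, `g 0 = (1, 0)`, `g 1 = (-1, s)` (direct motions), `τ (j, y) = (if hf y then 1 - j
else j, η y)`, `c (0, y) = c y`, `c (1, y) = - c y`. For every directed segment `y` of the chain, `η y` is its
partner; if `hf y` then `s + λ - P` (`λ = lv u w (c y)`) has the segment `η y` against `y`; otherwise `P + λ` has
the segment `η y` against `y`. `cr u w ≠ 0` as the area is positive.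
-/

open Set MeasureTheory Complex
open scoped Topology

namespace Pool.Agent.Lib_MP_fa6e45

open Pool.Agent.Lib_PL (cr InSector Poly)

variable {n : ℕ}

private theorem lv_neg (u w : ℂ) (a : ℤ × ℤ) : lv u w (-a) = -lv u w a := by
  unfold lv
  simp only [Prod.fst_neg, Prod.snd_neg, Int.cast_neg]
  ring

private theorem L2b_vol_pos (P : Polygon n) : 0 < (volume P.region).toReal := by
  apply ENNReal.toReal_pos
  · intro h
    have h1 : volume P.inner = 0 := by
      apply measure_mono_null _ h
      rw [P.region_union]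
      exact subset_union_right
    exact (P.inner_open.measure_pos volume P.inner_nonempty).ne' h1
  · exact (P.region_bounded.measure_lt_top).ne

/-- the motions `z ↦ z` and `z ↦ s - z` -/
private def L2b_mo (s : ℂ) (j : Fin 2) : Mo where
  a := if j = 0 then 1 else -1
  b := if j = 0 then 0 else s
  rf := false
  ha := by split_ifs <;> simp

private theorem L2b_mo_zero (s z : ℂ) : (L2b_mo s 0).app z = z := by
  simp [L2b_mo, Mo.app, Mo.lin]

private theorem L2b_mo_one (s z : ℂ) : (L2b_mo s 1).app z = s - z := by
  simp [L2b_mo, Mo.app, Mo.lin]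
  ring

private theorem L2b_mo_rf (s : ℂ) (j : Fin 2) : (L2b_mo s j).rf = false := rfl

/-- Conway's criterion, two tiles `P` and `s - P` (a chain `K` for the boundary). -/
theorem conway {P : Polygon n} (hc : P.CCW) {Y : Type} [Fintype Y] (K : Chain P Y) (s u w : ℂ)
    (η : Y → Y) (hη : ∀ y, η (η y) = y) (hf : Y → Bool) (hfη : ∀ y, hf (η y) = hf y)
    (c : Y → ℤ × ℤ) (hcη : ∀ y, c (η y) = if hf y then c y else -c y)
    (h1 : ∀ y, hf y = true → s + lv u w (c y) - K.p (η y) = K.q y ∧
      s + lv u w (c y) - K.q (η y) = K.p y)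
    (h2 : ∀ y, hf y = false → K.p (η y) + lv u w (c y) = K.q y ∧
      K.q (η y) + lv u w (c y) = K.p y)
    (hA : 2 * (volume P.region).toReal = |cr u w|) : HasPeriodic P := by
  have hne : cr u w ≠ 0 := by
    intro h
    have h3 := L2b_vol_pos P
    rw [h, abs_zero] at hA
    linarith
  let D : LData P Y 2 :=
    { K := K
      g := L2b_mo s
      u := u
      w := w
      ne := hne
      τ := fun x => (if hf x.2 then 1 - x.1 else x.1, η x.2)
      ττ := by
        rintro ⟨j, y⟩
        simp only [hfη, hη]
        cases hf y <;> fin_cases j <;> simp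
      c := fun x => if x.1 = 0 then c x.2 else -c x.2
      cτ := by
        rintro ⟨j, y⟩
        simp only [hcη]
        cases hf y <;> fin_cases j <;> simp }
  have hτ : ∀ x, D.τ x = (if hf x.2 then 1 - x.1 else x.1, η x.2) := fun x => rfl
  have hcc : ∀ x, D.c x = if x.1 = 0 then c x.2 else -c x.2 := fun x => rfl
  have hs0 : ∀ y, D.src (0, y) = K.p y := fun y => L2b_mo_zero s (K.p y)
  have hs1 : ∀ y, D.src (1, y) = s - K.p y := fun y => L2b_mo_one s (K.p y)
  have ht0 : ∀ y, D.tgt (0, y) = K.q y := fun y => L2b_mo_zero s (K.q y)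
  have ht1 : ∀ y, D.tgt (1, y) = s - K.q y := fun y => L2b_mo_one s (K.q y)
  have hu : D.u = u := rfl
  have hw : D.w = w := rfl
  refine D.criterion ?_ ?_
  · rintro ⟨j, y⟩
    rw [hu, hw, hτ, hcc]
    rcases Bool.eq_false_or_eq_true (hf y) with hy | hy
    · obtain ⟨h3, h4⟩ := h1 y hy
      fin_cases j
      · have e : (1 : Fin 2) - 0 = 1 := rfl
        simp only [hy, if_true, Fin.zero_eta, e, hs1, ht1, hs0, ht0]
        exact ⟨by linear_combination h3, by linear_combination h4⟩
      · have e : (1 : Fin 2) - 1 = 0 := rfl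
        simp only [hy, if_true, Fin.mk_one, e, hs1, ht1, hs0, ht0, one_ne_zero, if_false, lv_neg]
        exact ⟨by linear_combination -h3, by linear_combination -h4⟩
    · obtain ⟨h3, h4⟩ := h2 y hy
      fin_cases j
      · simp only [hy, Bool.false_eq_true, if_false, Fin.zero_eta, if_true, hs0, ht0]
        exact ⟨by linear_combination h3, by linear_combination h4⟩
      · simp only [hy, Bool.false_eq_true, if_false, Fin.mk_one, one_ne_zero, hs1, ht1, lv_neg]
        exact ⟨by linear_combination -h3, by linear_combination -h4⟩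
  · rw [hu, hw]
    exact_mod_cast hA

end Pool.Agent.Lib_MP_fa6e45
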