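import Pool.Agent.Lib_MP_fa6e45.L1
import Pool.Agent.Lib_MP_fa6e45.L2a

/-!
PIECE V8a (about 200 lines): the criterion for groups generated by a rotation of order `k` around the origin
and a lattice `L = ℤ u + ℤ ζ u` (`ζ` = primitive `k`-th root of unity, `ζ ^ 2 = α + β ζ` with integers
`α, β`: `k = 3`: (-1, -1), `k = 4`: (-1, 0), `k = 6`: (-1, 1), so `ζ L = L`). The tiles are `ζ ^ j P + λ`,
`j : Fin k`. Every directed segment `y` of the chain has a partner `η y`; the neighbour of `P` at `y` is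
`ζ ^ (r y) P + λ y`, whose segment `η y` is reversed against `y`. Build `LData` with `g j = (ζ ^ j, 0)` (direct),
`τ (j, y) = (j + r y mod k, η y)`, `c (j, y) = M ^ j (c y)` with the integer matrix `M` of the multiplication by
`ζ` on `L` (`lv u (ζ u) (M x) = ζ lv u (ζ u) x`); apply `LData.criterion`. Involution: the hypotheses for
`η y` give `ζ ^ (r y + r (η y)) = 1` and `λ (η y) = - ζ ^ (r (η y)) λ y` (assume this as `hr`, `hcη`).
-/

open Set MeasureTheory Complex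
open scoped Topology

namespace Pool.Agent.Lib_MP_fa6e45

open Pool.Agent.Lib_PL (cr InSector Poly)

variable {n : ℕ}

/-- multiplication by `ζ` on the lattice `ℤ u + ℤ ζ u`, if `ζ ^ 2 = α + β ζ` -/
def rmul (α β : ℤ) (x : ℤ × ℤ) : ℤ × ℤ := (α * x.2, x.1 + β * x.2)

private theorem V8a_vol_pos (P : Polygon n) : 0 < (volume P.region).toReal := by
  apply ENNReal.toReal_pos
  · intro h
    have h1 : volume P.inner = 0 := by
      apply measure_mono_null _ h
      rw [P.region_union]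
      exact subset_union_right
    exact (P.inner_open.measure_pos volume P.inner_nonempty).ne' h1
  · exact (P.region_bounded.measure_lt_top).ne

private theorem V8a_neg (α β : ℤ) (x : ℤ × ℤ) : rmul α β (-x) = -rmul α β x := by
  unfold rmul
  ext
  · simp
  · simp
    ring

private theorem V8a_iter_neg (α β : ℤ) (m : ℕ) (x : ℤ × ℤ) :
    (rmul α β)^[m] (-x) = -((rmul α β)^[m] x) := by
  induction m with
  | zero => rfl
  | succ m ih => rw [Function.iterate_succ_apply', Function.iterate_succ_apply', ih, V8a_neg]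

private theorem V8a_lv (ζ u : ℂ) (α β : ℤ) (hζ2 : ζ ^ 2 = (α : ℂ) + (β : ℂ) * ζ) (x : ℤ × ℤ) :
    lv u (ζ * u) (rmul α β x) = ζ * lv u (ζ * u) x := by
  unfold lv rmul
  push_cast
  linear_combination -((x.2 : ℂ) * u) * hζ2

private theorem V8a_lv_iter (ζ u : ℂ) (α β : ℤ) (hζ2 : ζ ^ 2 = (α : ℂ) + (β : ℂ) * ζ) (m : ℕ)
    (x : ℤ × ℤ) : lv u (ζ * u) ((rmul α β)^[m] x) = ζ ^ m * lv u (ζ * u) x := by
  induction m with
  | zero => simp
  | succ m ih =>
    rw [Function.iterate_succ_apply', V8a_lv ζ u α β hζ2, ih, pow_succ]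
    ring

private theorem V8a_mod (α β : ℤ) {k : ℕ} (hM : ∀ x : ℤ × ℤ, (rmul α β)^[k] x = x) (m : ℕ)
    (x : ℤ × ℤ) : (rmul α β)^[m % k] x = (rmul α β)^[m] x :=
  Function.IsPeriodicPt.iterate_mod_apply (hM x) m

/-- the rotation `z ↦ ζ ^ j z` -/
private noncomputable def V8a_mo (ζ : ℂ) (hζ1 : ‖ζ‖ = 1) (j : ℕ) : Mo where
  a := ζ ^ j
  b := 0
  rf := false
  ha := by rw [norm_pow, hζ1, one_pow]

private theorem V8a_mo_app (ζ : ℂ) (hζ1 : ‖ζ‖ = 1) (j : ℕ) (z : ℂ) :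
    (V8a_mo ζ hζ1 j).app z = ζ ^ j * z := by
  simp [V8a_mo, Mo.app, Mo.lin]

theorem rot_criterion {P : Polygon n} (hc : P.CCW) {Y : Type} [Fintype Y] (K : Chain P Y)
    (k : ℕ) (hk : 0 < k) (ζ u : ℂ) (hζ1 : ‖ζ‖ = 1) (hζk : ζ ^ k = 1) (α β : ℤ)
    (hζ2 : ζ ^ 2 = (α : ℂ) + (β : ℂ) * ζ) (hM : ∀ x : ℤ × ℤ, (rmul α β)^[k] x = x)
    (η : Y → Y) (hη : ∀ y, η (η y) = y) (r : Y → ℕ) (hr : ∀ y, k ∣ r y + r (η y))
    (c : Y → ℤ × ℤ) (hcη : ∀ y, c (η y) = -((rmul α β)^[r (η y)] (c y)))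
    (h : ∀ y, ζ ^ r y * K.p (η y) + lv u (ζ * u) (c y) = K.q y ∧
      ζ ^ r y * K.q (η y) + lv u (ζ * u) (c y) = K.p y)
    (hA : (k : ℝ) * (volume P.region).toReal = |cr u (ζ * u)|) : HasPeriodic P := by
  have hne : cr u (ζ * u) ≠ 0 := by
    intro h3
    have h4 := V8a_vol_pos P
    have hk' : (0 : ℝ) < (k : ℝ) := by exact_mod_cast hk
    rw [h3, abs_zero] at hA
    exact (mul_pos hk' h4).ne' hA
  let D : LData P Y k :=
    { K := K
      g := fun j => V8a_mo ζ hζ1 (j : ℕ)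
      u := u
      w := ζ * u
      ne := hne
      τ := fun x => (⟨((x.1 : ℕ) + r x.2) % k, Nat.mod_lt _ hk⟩, η x.2)
      ττ := by
        rintro ⟨j, y⟩
        refine Prod.ext (Fin.ext ?_) (hη y)
        have e : (((j : ℕ) + r y) % k + r (η y)) % k = (j : ℕ) := by
          rw [Nat.mod_add_mod, add_assoc]
          obtain ⟨m, hm⟩ := hr y
          rw [hm, Nat.add_mul_mod_self_left, Nat.mod_eq_of_lt j.2]
        exact e
      c := fun x => (rmul α β)^[(x.1 : ℕ)] (c x.2)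
      cτ := by
        rintro ⟨j, y⟩
        show (rmul α β)^[((j : ℕ) + r y) % k] (c (η y)) = -((rmul α β)^[(j : ℕ)] (c y))
        rw [V8a_mod α β hM, hcη, V8a_iter_neg, ← Function.iterate_add_apply]
        obtain ⟨m, hm⟩ := hr y
        have e : (rmul α β)^[(j : ℕ) + r y + r (η y)] (c y) = (rmul α β)^[(j : ℕ)] (c y) := by
          rw [add_assoc, hm, ← V8a_mod α β hM, Nat.add_mul_mod_self_left, V8a_mod α β hM]
        rw [e] }
  have hs : ∀ (j : Fin k) (y : Y), D.src (j, y) = ζ ^ (j : ℕ) * K.p y :=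
    fun j y => V8a_mo_app ζ hζ1 (j : ℕ) (K.p y)
  have ht : ∀ (j : Fin k) (y : Y), D.tgt (j, y) = ζ ^ (j : ℕ) * K.q y :=
    fun j y => V8a_mo_app ζ hζ1 (j : ℕ) (K.q y)
  have hpow : ∀ m : ℕ, ζ ^ (m % k) = ζ ^ m := fun m => (pow_eq_pow_mod m hζk).symm
  refine D.criterion ?_ ?_
  · rintro ⟨j, y⟩
    obtain ⟨h1, h2⟩ := h y
    have hu : D.u = u := rfl
    have hw : D.w = ζ * u := rfl
    have hτ : D.τ (j, y) = (⟨((j : ℕ) + r y) % k, Nat.mod_lt _ hk⟩, η y) := rfl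
    have hcc : D.c (j, y) = (rmul α β)^[(j : ℕ)] (c y) := rfl
    rw [hu, hw, hτ, hcc, hs, ht, hs, ht, V8a_lv_iter ζ u α β hζ2]
    simp only [hpow, pow_add]
    exact ⟨by linear_combination (ζ ^ (j : ℕ)) * h1, by linear_combination (ζ ^ (j : ℕ)) * h2⟩
  · exact hA

end Pool.Agent.Lib_MP_fa6e45
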