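import Pool.Agent.Lib_MP_fa6e45.X1b
import Pool.Agent.Lib_MP_fa6e45.X1c
import Pool.Agent.Lib_MP_fa6e45.L2b
import Pool.Agent.Lib_MP_fa6e45.V8a

/-!
PIECE X1h (about 300 lines): criteria with arcs and one division point `X` on a straight arc `e`.
Chain: `sideChain` with `Chain.ins` (L2a) at the side `κ e`. Both theorems from `LData.criterion` (compare
`conway` L2b and `rot_criterion` V8a): the partner of a side `κ j + t` of an arc `j ≠ e` with `E.Rel` by arcs is the
side `κ k + s` (`Arcs.lift_plus`), the segments are matched by their end points. Area by `Arcs.area`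
(non-straight arcs are glued with non-straight arcs; take `τ j = j` for the straight ones). It may be convenient
to prove one general version with `LData` for `Fin k × Option (ZMod m)` first.
-/

open Set MeasureTheory Complex
open scoped Topology

namespace Pool.Agent.Lib_MP_fa6e45

open Pool.Agent.Lib_PL (cr InSector Poly)
variable {n : ℕ} {P : Polygon n} {m : ℕ} [NeZero m] (S : Arcs P m)

/-! ### The sides as a chain -/

/-- the sides, indexed by the arcs -/
private abbrev X1h_Y (S : Arcs P m) : Type := {x : ZMod m × ℕ // x.2 < S.w x.1}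

private def X1h_φ (S : Arcs P m) (y : X1h_Y S) : ZMod n := S.κ y.1.1 + (y.1.2 : ZMod n)

private theorem X1h_φ_bij (S : Arcs P m) : Function.Bijective (X1h_φ S) := by
  constructor
  · rintro ⟨y, hy⟩ ⟨z, hz⟩ h
    exact Subtype.ext ((S.index (X1h_φ S ⟨y, hy⟩)).unique ⟨hy, rfl⟩ ⟨hz, h.symm⟩)
  · intro i
    obtain ⟨y, ⟨h1, h2⟩, -⟩ := S.index i
    exact ⟨⟨y, h1⟩, h2⟩

private noncomputable instance X1h_fin [NeZero n] (S : Arcs P m) : Fintype (X1h_Y S) :=
  Fintype.ofEquiv (ZMod n) (Equiv.ofBijective _ (X1h_φ_bij S)).symm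

private noncomputable def X1h_K0 [NeZero n] (S : Arcs P m) (hc : P.CCW) : Chain P (X1h_Y S) where
  p := fun y => P.vertex (X1h_φ S y)
  q := fun y => P.vertex (X1h_φ S y + 1)
  sub := by
    intro y
    rw [P.bdry_eq]
    exact Set.subset_iUnion (fun i : ZMod n => segment ℝ (P.vertex i) (P.vertex (i + 1))) _
  sum_in := by
    intro z hz
    rw [(X1h_φ_bij S).sum_comp (fun i : ZMod n => th (P.vertex i) (P.vertex (i + 1)) z)]
    exact (P.sum_th hc).1 z hz
  sum_out := by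
    intro z hz
    rw [(X1h_φ_bij S).sum_comp (fun i : ZMod n => th (P.vertex i) (P.vertex (i + 1)) z)]
    exact (P.sum_th hc).2 z hz

variable {S} in
private def X1h_ye (E : DivArcs P S) : X1h_Y S := ⟨(E.e, 0), by
  have h := E.he
  simp only
  omega⟩

variable {S} in
private theorem X1h_e1 (E : DivArcs P S) : S.V (E.e + 1) = P.vertex (S.κ E.e + 1) := by
  unfold Arcs.V
  rw [S.step, E.he, Nat.cast_one]

variable {S} in
private theorem X1h_mem [NeZero n] (E : DivArcs P S) (hc : P.CCW) :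
    E.X ∈ segment ℝ ((X1h_K0 S hc).p (X1h_ye E)) ((X1h_K0 S hc).q (X1h_ye E)) := by
  have h := openSegment_subset_segment ℝ _ _ E.hX
  rw [X1h_e1] at h
  have e1 : X1h_φ S (X1h_ye E) = S.κ E.e := by
    simp [X1h_φ, X1h_ye]
  change E.X ∈ segment ℝ (P.vertex (X1h_φ S (X1h_ye E))) (P.vertex (X1h_φ S (X1h_ye E) + 1))
  rw [e1]
  exact h

variable {S} in
private noncomputable def X1h_K [NeZero n] (E : DivArcs P S) (hc : P.CCW) :
    Chain P (Option (X1h_Y S)) :=
  (X1h_K0 S hc).ins (X1h_ye E) E.X (X1h_mem E hc)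

/-! ### Pieces -/

private def X1h_pi (x : Option (X1h_Y S)) : Option (ZMod m) := x.map fun y => y.1.1

private def X1h_pos (x : Option (X1h_Y S)) : ℕ := x.elim 0 fun y => y.1.2

private def X1h_W (y : Option (ZMod m)) : ℕ := y.elim 1 S.w

private def X1h_mk : (y : Option (ZMod m)) → (t : ℕ) → t < X1h_W S y → Option (X1h_Y S)
  | none, _, _ => none
  | some j, t, h => some ⟨(j, t), h⟩

private theorem X1h_pos_lt (x : Option (X1h_Y S)) : X1h_pos S x < X1h_W S (X1h_pi S x) := by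
  rcases x with _ | ⟨x, hx⟩
  · exact one_pos
  · exact hx

private theorem X1h_pi_mk (y : Option (ZMod m)) (t : ℕ) (h : t < X1h_W S y) :
    X1h_pi S (X1h_mk S y t h) = y := by
  rcases y with _ | j
  · rfl
  · rfl

private theorem X1h_pos_mk (y : Option (ZMod m)) (t : ℕ) (h : t < X1h_W S y) :
    X1h_pos S (X1h_mk S y t h) = t := by
  rcases y with _ | j
  · have h1 : t < 1 := h
    have h2 : t = 0 := by omega
    subst h2
    rfl
  · rfl

private theorem X1h_ext {x x' : Option (X1h_Y S)} (h1 : X1h_pi S x = X1h_pi S x')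
    (h2 : X1h_pos S x = X1h_pos S x') : x = x' := by
  rcases x with _ | ⟨⟨j, t⟩, hx⟩
  · rcases x' with _ | ⟨⟨j', t'⟩, hx'⟩
    · rfl
    · simp [X1h_pi] at h1
  · rcases x' with _ | ⟨⟨j', t'⟩, hx'⟩
    · simp [X1h_pi] at h1
    · have h3 : j = j' := by simpa [X1h_pi] using h1
      have h4 : t = t' := by simpa [X1h_pos] using h2
      subst h3
      subst h4
      rfl

variable {S}
variable (E : DivArcs P S)

/-- the vertices of a piece -/
private noncomputable def X1h_pt : Option (ZMod m) → ℕ → ℂ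
  | none, t => if t = 0 then E.X else S.V (E.e + 1)
  | some j, t => if j = E.e then (if t = 0 then S.V E.e else E.X) else P.vertex (S.κ j + (t : ZMod n))

private theorem X1h_Kp [NeZero n] (hc : P.CCW) (x : Option (X1h_Y S)) :
    (X1h_K E hc).p x = X1h_pt E (X1h_pi S x) (X1h_pos S x) := by
  rcases x with _ | ⟨⟨j, t⟩, hx⟩
  · rfl
  · simp only at hx
    change P.vertex (S.κ j + (t : ZMod n)) = if j = E.e then (if t = 0 then S.V E.e else E.X)
      else P.vertex (S.κ j + (t : ZMod n))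
    by_cases hj : j = E.e
    · subst hj
      have h := E.he
      have ht : t = 0 := by omega
      subst ht
      rw [if_pos rfl, if_pos rfl, Nat.cast_zero, add_zero]
      rfl
    · rw [if_neg hj]

private theorem X1h_Kq [NeZero n] (hc : P.CCW) (x : Option (X1h_Y S)) :
    (X1h_K E hc).q x = X1h_pt E (X1h_pi S x) (X1h_pos S x + 1) := by
  rcases x with _ | ⟨⟨j, t⟩, hx⟩
  · change P.vertex (S.κ E.e + ((0 : ℕ) : ZMod n) + 1) = if 0 + 1 = 0 then E.X else S.V (E.e + 1)
    rw [if_neg (by omega), X1h_e1, Nat.cast_zero, add_zero]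
  · simp only at hx
    change (if (⟨(j, t), hx⟩ : X1h_Y S) = X1h_ye E then E.X else
      P.vertex (S.κ j + (t : ZMod n) + 1)) =
      if j = E.e then (if t + 1 = 0 then S.V E.e else E.X)
      else P.vertex (S.κ j + ((t + 1 : ℕ) : ZMod n))
    by_cases hj : j = E.e
    · subst hj
      have h := E.he
      have ht : t = 0 := by omega
      subst ht
      have e1 : (⟨(E.e, 0), hx⟩ : X1h_Y S) = X1h_ye E := rfl
      have e2 : ¬ (0 + 1 = 0) := by omega
      rw [if_pos e1, if_pos rfl, if_neg e2]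
    · rw [if_neg hj, if_neg]
      · push_cast
        rw [add_assoc]
      · intro h
        exact hj (congrArg (fun z : X1h_Y S => z.1.1) h)

private theorem X1h_Ep (y : Option (ZMod m)) : E.p y = X1h_pt E y 0 := by
  rcases y with _ | j
  · rfl
  · change S.V j = if j = E.e then (if 0 = 0 then S.V E.e else E.X)
      else P.vertex (S.κ j + ((0 : ℕ) : ZMod n))
    by_cases hj : j = E.e
    · rw [if_pos hj, if_pos rfl, hj]
    · rw [if_neg hj, Nat.cast_zero, add_zero]
      rfl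

private theorem X1h_Eq (y : Option (ZMod m)) : E.q y = X1h_pt E y (X1h_W S y) := by
  rcases y with _ | j
  · change S.V (E.e + 1) = if 1 = 0 then E.X else S.V (E.e + 1)
    rw [if_neg (by omega)]
  · change (if j = E.e then E.X else S.V (j + 1)) =
      if j = E.e then (if S.w j = 0 then S.V E.e else E.X)
      else P.vertex (S.κ j + ((S.w j : ℕ) : ZMod n))
    by_cases hj : j = E.e
    · have h := S.w_pos j
      rw [if_pos hj, if_pos hj, if_neg (by omega)]
    · rw [if_neg hj, if_neg hj, ← S.step]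
      rfl

private theorem X1h_strW {y : Option (ZMod m)} (h : S.StrO y) : X1h_W S y = 1 := by
  rcases y with _ | j
  · rfl
  · exact h

private theorem X1h_W_rel {y z : Option (ZMod m)} (h : E.Rel y z true) :
    X1h_W S z = X1h_W S y := by
  rcases h with ⟨h1, h2⟩ | ⟨j, k, rfl, rfl, hj, hk, h3⟩
  · rw [X1h_strW h1, X1h_strW h2]
  · have h4 : S.Plus j k := h3
    exact h4.1.symm

private theorem X1h_lift (hm : 2 ≤ m) {y z : Option (ZMod m)} (h : E.Rel y z true) {a b : ℂ}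
    (ha : ‖a‖ = 1) (h1 : a * E.q z + b = E.p y) (h2 : a * E.p z + b = E.q y) (t s : ℕ)
    (hts : t + s = X1h_W S y) : a * X1h_pt E z s + b = X1h_pt E y t := by
  have hW := X1h_W_rel E h
  rcases h with ⟨h3, h4⟩ | ⟨j, k, rfl, rfl, hj, hk, h3⟩
  · have e1 := X1h_strW h3
    have e2 := X1h_strW h4
    rw [X1h_Eq, X1h_Ep, e2] at h1
    rw [X1h_Ep, X1h_Eq, e1] at h2
    rw [e1] at hts
    rcases Nat.eq_zero_or_pos t with ht | ht
    · have hs : s = 1 := by omega
      rw [ht, hs]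
      exact h1
    · have hs : s = 0 := by omega
      have ht1 : t = 1 := by omega
      rw [ht1, hs]
      exact h2
  · have h4 : S.Plus j k := h3
    have e1 : E.q (some k) = S.V (k + 1) := if_neg hk
    have e2 : E.q (some j) = S.V (j + 1) := if_neg hj
    rw [e1] at h1
    rw [e2] at h2
    have h5 := S.lift_plus hm h4 ha h1 h2 t s hts
    have e3 : X1h_pt E (some k) s = P.vertex (S.κ k + (s : ZMod n)) := if_neg hk
    have e4 : X1h_pt E (some j) t = P.vertex (S.κ j + (t : ZMod n)) := if_neg hj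
    rw [e3, e4]
    exact h5

/-! ### The involution -/

variable (η : Option (ZMod m) → Option (ZMod m)) (hη : ∀ y, η (η y) = y)
  (rel : ∀ y, E.Rel y (η y) true)

private def X1h_η (rel : ∀ y, E.Rel y (η y) true) (x : Option (X1h_Y S)) : Option (X1h_Y S) :=
  X1h_mk S (η (X1h_pi S x)) (X1h_W S (X1h_pi S x) - 1 - X1h_pos S x) (by
    have h1 := X1h_pos_lt S x
    have h2 := X1h_W_rel E (rel (X1h_pi S x))
    omega)

private theorem X1h_η_pi (x : Option (X1h_Y S)) :
    X1h_pi S (X1h_η E η rel x) = η (X1h_pi S x) := X1h_pi_mk S _ _ _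

private theorem X1h_η_pos (x : Option (X1h_Y S)) :
    X1h_pos S (X1h_η E η rel x) = X1h_W S (X1h_pi S x) - 1 - X1h_pos S x := X1h_pos_mk S _ _ _

include hη in
private theorem X1h_ηη (x : Option (X1h_Y S)) : X1h_η E η rel (X1h_η E η rel x) = x := by
  have h1 := X1h_pos_lt S x
  have h2 := X1h_W_rel E (rel (X1h_pi S x))
  refine X1h_ext S ?_ ?_
  · rw [X1h_η_pi, X1h_η_pi, hη]
  · rw [X1h_η_pos, X1h_η_pi, X1h_η_pos, h2]
    omega

private theorem X1h_pts [NeZero n] (hc : P.CCW) (hm : 2 ≤ m) (x : Option (X1h_Y S)) {a b : ℂ}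
    (ha : ‖a‖ = 1) (h1 : a * E.q (η (X1h_pi S x)) + b = E.p (X1h_pi S x))
    (h2 : a * E.p (η (X1h_pi S x)) + b = E.q (X1h_pi S x)) :
    a * (X1h_K E hc).p (X1h_η E η rel x) + b = (X1h_K E hc).q x ∧
      a * (X1h_K E hc).q (X1h_η E η rel x) + b = (X1h_K E hc).p x := by
  have h3 := X1h_pos_lt S x
  rw [X1h_Kp, X1h_Kq, X1h_Kp, X1h_Kq, X1h_η_pi, X1h_η_pos]
  exact ⟨X1h_lift E hm (rel _) ha h1 h2 _ _ (by omega),
    X1h_lift E hm (rel _) ha h1 h2 _ _ (by omega)⟩

/-! ### The area -/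

include hη rel in
private theorem X1h_area (hc : P.CCW) (hm : 2 ≤ m) :
    2 * (volume P.region).toReal = ∑ j, cr (S.V j) (S.V (j + 1)) := by
  classical
  have key : ∀ j, S.w j ≠ 1 → ∃ k, η (some j) = some k ∧ S.Plus j k := by
    intro j hj
    rcases rel (some j) with ⟨h1, -⟩ | ⟨j', k, h1, h2, -, -, h3⟩
    · exact absurd h1 hj
    · have h4 : j = j' := by simpa using h1
      subst h4
      exact ⟨k, h2, h3⟩
  refine S.area hc hm (fun j => if S.w j = 1 then j else (η (some j)).getD j) ?_ ?_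
  · intro j
    by_cases hj : S.w j = 1
    · simp only [hj, if_true]
    · obtain ⟨k, h1, h2⟩ := key j hj
      have hk : S.w k ≠ 1 := by
        rw [← h2.1]
        exact hj
      have h3 : η (some k) = some j := by rw [← h1, hη]
      simp only [hj, if_false, h1, Option.getD_some, hk, h3]
  · intro j
    by_cases hj : S.w j = 1
    · left
      simp only [hj, if_true, and_self]
    · right
      obtain ⟨k, h1, h2⟩ := key j hj
      refine ⟨true, ?_⟩
      simp only [hj, if_false, h1, Option.getD_some]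
      exact h2

private theorem X1h_nezero (P : Polygon n) : NeZero n := ⟨by have := P.three_le; omega⟩

variable (S)

theorem p2_div (hc : P.CCW) (hm : 2 ≤ m) (E : DivArcs P S) (s u w : ℂ)
    (η : Option (ZMod m) → Option (ZMod m)) (hη : ∀ y, η (η y) = y)
    (hf : Option (ZMod m) → Bool) (hfη : ∀ y, hf (η y) = hf y)
    (c : Option (ZMod m) → ℤ × ℤ) (hcη : ∀ y, c (η y) = if hf y then c y else -c y)
    (rel : ∀ y, E.Rel y (η y) true)
    (h1 : ∀ y, hf y = true → s + lv u w (c y) - E.p (η y) = E.q y ∧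
      s + lv u w (c y) - E.q (η y) = E.p y)
    (h2 : ∀ y, hf y = false → E.p (η y) + lv u w (c y) = E.q y ∧
      E.q (η y) + lv u w (c y) = E.p y)
    (hA : |∑ j, cr (S.V j) (S.V (j + 1))| = |cr u w|) : HasPeriodic P := by
  have := X1h_nezero P
  have hV := P.volume_pos
  refine conway hc (X1h_K E hc) s u w (X1h_η E η rel) (X1h_ηη E η hη rel)
    (fun x => hf (X1h_pi S x)) ?_ (fun x => c (X1h_pi S x)) ?_ ?_ ?_ ?_
  · intro x
    rw [X1h_η_pi, hfη]
  · intro x
    rw [X1h_η_pi, hcη]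
  · intro x hx
    obtain ⟨h3, h4⟩ := h1 _ hx
    obtain ⟨h5, h6⟩ := X1h_pts E η rel hc hm x (a := -1) (b := s + lv u w (c (X1h_pi S x)))
      (by simp) (by rw [← h4]; ring) (by rw [← h3]; ring)
    exact ⟨by rw [← h5]; ring, by rw [← h6]; ring⟩
  · intro x hx
    obtain ⟨h3, h4⟩ := h2 _ hx
    obtain ⟨h5, h6⟩ := X1h_pts E η rel hc hm x (a := 1) (b := lv u w (c (X1h_pi S x)))
      (by simp) (by rw [← h4]; ring) (by rw [← h3]; ring)
    exact ⟨by rw [← h5]; ring, by rw [← h6]; ring⟩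
  · rw [← hA, ← X1h_area E η hη rel hc hm, abs_of_pos (by positivity)]

/-! ### Rotations around a point `o` -/

private theorem X1h_neg (α β : ℤ) (x : ℤ × ℤ) : rmul α β (-x) = -rmul α β x := by
  unfold rmul
  ext
  · simp
  · simp
    ring

private theorem X1h_iter_neg (α β : ℤ) (m : ℕ) (x : ℤ × ℤ) :
    (rmul α β)^[m] (-x) = -((rmul α β)^[m] x) := by
  induction m with
  | zero => rfl
  | succ m ih => rw [Function.iterate_succ_apply', Function.iterate_succ_apply', ih, X1h_neg]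

private theorem X1h_lv (ζ u : ℂ) (α β : ℤ) (hζ2 : ζ ^ 2 = (α : ℂ) + (β : ℂ) * ζ) (x : ℤ × ℤ) :
    lv u (ζ * u) (rmul α β x) = ζ * lv u (ζ * u) x := by
  unfold lv rmul
  push_cast
  linear_combination -((x.2 : ℂ) * u) * hζ2

private theorem X1h_lv_iter (ζ u : ℂ) (α β : ℤ) (hζ2 : ζ ^ 2 = (α : ℂ) + (β : ℂ) * ζ) (m : ℕ)
    (x : ℤ × ℤ) : lv u (ζ * u) ((rmul α β)^[m] x) = ζ ^ m * lv u (ζ * u) x := by
  induction m with
  | zero => simp
  | succ m ih =>
    rw [Function.iterate_succ_apply', X1h_lv ζ u α β hζ2, ih, pow_succ]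
    ring

private theorem X1h_mod (α β : ℤ) {k : ℕ} (hM : ∀ x : ℤ × ℤ, (rmul α β)^[k] x = x) (m : ℕ)
    (x : ℤ × ℤ) : (rmul α β)^[m % k] x = (rmul α β)^[m] x :=
  Function.IsPeriodicPt.iterate_mod_apply (hM x) m

/-- the rotation `z ↦ ζ ^ j (z - o) + o` -/
private noncomputable def X1h_mo (ζ o : ℂ) (hζ1 : ‖ζ‖ = 1) (j : ℕ) : Mo where
  a := ζ ^ j
  b := o - ζ ^ j * o
  rf := false
  ha := by rw [norm_pow, hζ1, one_pow]

private theorem X1h_mo_app (ζ o : ℂ) (hζ1 : ‖ζ‖ = 1) (j : ℕ) (z : ℂ) :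
    (X1h_mo ζ o hζ1 j).app z = ζ ^ j * (z - o) + o := by
  simp only [X1h_mo, Mo.app, Mo.lin, Bool.false_eq_true, if_false]
  ring

private theorem X1h_rot {P : Polygon n} {Y : Type} [Fintype Y] (K : Chain P Y)
    (k : ℕ) (hk : 0 < k) (ζ u o : ℂ) (hζ1 : ‖ζ‖ = 1) (hζk : ζ ^ k = 1) (α β : ℤ)
    (hζ2 : ζ ^ 2 = (α : ℂ) + (β : ℂ) * ζ) (hM : ∀ x : ℤ × ℤ, (rmul α β)^[k] x = x)
    (η : Y → Y) (hη : ∀ y, η (η y) = y) (r : Y → ℕ) (hr : ∀ y, k ∣ r y + r (η y))
    (c : Y → ℤ × ℤ) (hcη : ∀ y, c (η y) = -((rmul α β)^[r (η y)] (c y)))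
    (h : ∀ y, ζ ^ r y * (K.p (η y) - o) + o + lv u (ζ * u) (c y) = K.q y ∧
      ζ ^ r y * (K.q (η y) - o) + o + lv u (ζ * u) (c y) = K.p y)
    (hA : (k : ℝ) * (volume P.region).toReal = |cr u (ζ * u)|) : HasPeriodic P := by
  have hne : cr u (ζ * u) ≠ 0 := by
    intro h3
    have h4 := P.volume_pos
    have hk' : (0 : ℝ) < (k : ℝ) := by exact_mod_cast hk
    rw [h3, abs_zero] at hA
    exact (mul_pos hk' h4).ne' hA
  let D : LData P Y k :=
    { K := K
      g := fun j => X1h_mo ζ o hζ1 (j : ℕ)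
      u := u
      w := ζ * u
      ne := hne
      τ := fun x => (⟨((x.1 : ℕ) + r x.2) % k, Nat.mod_lt _ hk⟩, η x.2)
      ττ := by
        rintro ⟨j, y⟩
        refine Prod.ext (Fin.ext ?_) (hη y)
        have e : (((j : ℕ) + r y) % k + r (η y)) % k = (j : ℕ) := by
          rw [Nat.mod_add_mod, add_assoc]
          obtain ⟨m, hm⟩ := hr y
          rw [hm, Nat.add_mul_mod_self_left, Nat.mod_eq_of_lt j.2]
        exact e
      c := fun x => (rmul α β)^[(x.1 : ℕ)] (c x.2)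
      cτ := by
        rintro ⟨j, y⟩
        show (rmul α β)^[((j : ℕ) + r y) % k] (c (η y)) = -((rmul α β)^[(j : ℕ)] (c y))
        rw [X1h_mod α β hM, hcη, X1h_iter_neg, ← Function.iterate_add_apply]
        obtain ⟨m, hm⟩ := hr y
        have e : (rmul α β)^[(j : ℕ) + r y + r (η y)] (c y) = (rmul α β)^[(j : ℕ)] (c y) := by
          rw [add_assoc, hm, ← X1h_mod α β hM, Nat.add_mul_mod_self_left, X1h_mod α β hM]
        rw [e] }
  have hs : ∀ (j : Fin k) (y : Y), D.src (j, y) = ζ ^ (j : ℕ) * (K.p y - o) + o :=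
    fun j y => X1h_mo_app ζ o hζ1 (j : ℕ) (K.p y)
  have ht : ∀ (j : Fin k) (y : Y), D.tgt (j, y) = ζ ^ (j : ℕ) * (K.q y - o) + o :=
    fun j y => X1h_mo_app ζ o hζ1 (j : ℕ) (K.q y)
  have hpow : ∀ m : ℕ, ζ ^ (m % k) = ζ ^ m := fun m => (pow_eq_pow_mod m hζk).symm
  refine D.criterion ?_ ?_
  · rintro ⟨j, y⟩
    obtain ⟨h1, h2⟩ := h y
    have hu : D.u = u := rfl
    have hw : D.w = ζ * u := rfl
    have hτ : D.τ (j, y) = (⟨((j : ℕ) + r y) % k, Nat.mod_lt _ hk⟩, η y) := rfl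
    have hcc : D.c (j, y) = (rmul α β)^[(j : ℕ)] (c y) := rfl
    rw [hu, hw, hτ, hcc, hs, ht, hs, ht, X1h_lv_iter ζ u α β hζ2]
    simp only [hpow, pow_add]
    exact ⟨by linear_combination (ζ ^ (j : ℕ)) * h1, by linear_combination (ζ ^ (j : ℕ)) * h2⟩
  · exact hA

theorem rot_div (hc : P.CCW) (hm : 2 ≤ m) (E : DivArcs P S) (k : ℕ) (hk : 0 < k) (ζ u o : ℂ)
    (hζ1 : ‖ζ‖ = 1) (hζk : ζ ^ k = 1) (α β : ℤ) (hζ2 : ζ ^ 2 = (α : ℂ) + (β : ℂ) * ζ)
    (hM : ∀ x : ℤ × ℤ, (rmul α β)^[k] x = x)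
    (η : Option (ZMod m) → Option (ZMod m)) (hη : ∀ y, η (η y) = y)
    (r : Option (ZMod m) → ℕ) (hr : ∀ y, k ∣ r y + r (η y))
    (c : Option (ZMod m) → ℤ × ℤ) (hcη : ∀ y, c (η y) = -((rmul α β)^[r (η y)] (c y)))
    (rel : ∀ y, E.Rel y (η y) true)
    (h : ∀ y, ζ ^ r y * (E.p (η y) - o) + o + lv u (ζ * u) (c y) = E.q y ∧
      ζ ^ r y * (E.q (η y) - o) + o + lv u (ζ * u) (c y) = E.p y)
    (hA : (k : ℝ) * |∑ j, cr (S.V j) (S.V (j + 1))| = 2 * |cr u (ζ * u)|) : HasPeriodic P := by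
  have := X1h_nezero P
  have hV := P.volume_pos
  refine X1h_rot (X1h_K E hc) k hk ζ u o hζ1 hζk α β hζ2 hM (X1h_η E η rel)
    (X1h_ηη E η hη rel) (fun x => r (X1h_pi S x)) ?_ (fun x => c (X1h_pi S x)) ?_ ?_ ?_
  · intro x
    rw [X1h_η_pi]
    exact hr _
  · intro x
    rw [X1h_η_pi]
    exact hcη _
  · intro x
    obtain ⟨h3, h4⟩ := h (X1h_pi S x)
    obtain ⟨h5, h6⟩ := X1h_pts E η rel hc hm x (a := ζ ^ r (X1h_pi S x))
      (b := o - ζ ^ r (X1h_pi S x) * o + lv u (ζ * u) (c (X1h_pi S x)))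
      (by rw [norm_pow, hζ1, one_pow]) (by rw [← h4]; ring) (by rw [← h3]; ring)
    exact ⟨by rw [← h5]; ring, by rw [← h6]; ring⟩
  · rw [← X1h_area E η hη rel hc hm, abs_of_pos (by positivity)] at hA
    linarith

end Pool.Agent.Lib_MP_fa6e45
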