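import Pool.Agent.Lib_MP_fa6e45.X1f
import Pool.Agent.Lib_MP_fa6e45.X1h
import Pool.Agent.Lib_MP_fa6e45.X2a

/-!
PIECE X4e (about 250 lines): quadrilaterals with arcs: arcs 0, 1 congruent by a rotation around `V1` by `2 π / 3` or
`π / 2`, sides 2, 3 straight; three (four) copies around `V1` form an equilateral triangle (a square) with corners
`V3`, and `V0 ~ V2` is flat (`b 0 + b 2 = 1`). If `‖ch 2‖ = ‖ch 3‖`: `rot_arc` (arcs 2, 3 by the rotation around `V3` of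
order 6 (4)). If `‖ch 2‖ < ‖ch 3‖`: divide arc 3 at `X` with `|V3 X| = ‖ch 2‖`; arc 2 and `V3 X` by the rotation around
`V3`, half turn on `X V0`: `rot_div`. If `‖ch 2‖ > ‖ch 3‖`: divide arc 2 at `X` with `|X V3| = ‖ch 3‖`. Take `o = V3`,
`ζ = exp (π i / 3)` resp. `exp (π i / 2)`.
-/

open Set MeasureTheory Complex
open scoped Topology

namespace Pool.Agent.Lib_MP_fa6e45

open Pool.Agent.Lib_PL (cr InSector Poly)

variable {n : ℕ} {P : Polygon n}

private theorem X4e_all {Q : ZMod 4 → Prop} (h0 : Q 0) (h1 : Q 1) (h2 : Q 2) (h3 : Q 3)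
    (j : ZMod 4) : Q j := by
  fin_cases j
  · exact h0
  · exact h1
  · exact h2
  · exact h3

private theorem X4e_opt {Q : Option (ZMod 4) → Prop} (h : Q none) (h0 : Q (some 0))
    (h1 : Q (some 1)) (h2 : Q (some 2)) (h3 : Q (some 3)) (y : Option (ZMod 4)) : Q y := by
  rcases y with _ | j
  · exact h
  · exact X4e_all (Q := fun j => Q (some j)) h0 h1 h2 h3 j

private theorem X4e_len (S : Arcs P 4) (j : ZMod 4) (hj : S.w j = 1) :
    P.len (S.κ j) = ‖S.ch j‖ := by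
  unfold Polygon.len Arcs.ch Arcs.V
  rw [S.step j, hj, Nat.cast_one, dist_eq_norm, norm_sub_rev]

private theorem X4e_plus (S : Arcs P 4) (j k : ZMod 4) (hj : S.w j = 1) (hk : S.w k = 1)
    (h : ‖S.ch j‖ = ‖S.ch k‖) : S.Plus j k := by
  refine ⟨by rw [hj, hk], fun t s hts => ?_, fun t s ht hs hts => by omega⟩
  have ht : t = 0 := by omega
  have hs : s = 0 := by omega
  rw [ht, hs, Nat.cast_zero, add_zero, add_zero, X4e_len S j hj, X4e_len S k hk, h]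

/-- the numerical data of the two cases -/
private structure X4e_Num where
  k : ℕ
  r0 : ℕ
  r1 : ℕ
  r3 : ℕ
  h : ℕ
  q : ℕ
  α : ℤ
  β : ℤ
  ζ : ℂ
  hk : 0 < k
  hq : 0 < q
  hkq : k = 2 * q
  hζ1 : ‖ζ‖ = 1
  hζk : ζ ^ k = 1
  hζ2 : ζ ^ 2 = (α : ℂ) + (β : ℂ) * ζ
  hM : ∀ x : ℤ × ℤ, (rmul α β)^[k] x = x
  hr01 : k ∣ r0 + r1
  hr3 : k ∣ 1 + r3
  hhh : k ∣ h + h
  z0 : ζ ^ r0 * ζ = -1
  z1 : ζ ^ r1 = -ζ
  z3 : ζ ^ r3 * ζ = 1
  zh : ζ ^ h = -1
  zq : (1 - ζ ^ r0) * (1 + ζ) = (q : ℂ)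
  c1 : ((0, 1) : ℤ × ℤ) = -((rmul α β)^[r1] (1, 0))
  c0 : ((1, 0) : ℤ × ℤ) = -((rmul α β)^[r0] (0, 1))
  ch0 : ((1, 0) : ℤ × ℤ) = -((rmul α β)^[h] (1, 0))
  ch1 : ((0, 1) : ℤ × ℤ) = -((rmul α β)^[h] (0, 1))
  cz3 : ((0, 0) : ℤ × ℤ) = -((rmul α β)^[r3] (0, 0))
  cz1 : ((0, 0) : ℤ × ℤ) = -((rmul α β)^[1] (0, 0))

private theorem X4e_area (o D W ζ : ℂ) (t q : ℝ) (hW : (q : ℂ) * W = (1 + ζ) * ((1 + (t : ℂ)) * D)) :
    q * (cr (o + D) (o + W) + cr (o + W) (o + (t : ℂ) * (ζ * D)) + cr (o + (t : ℂ) * (ζ * D)) o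
      + cr o (o + D)) = cr ((1 + (t : ℂ)) * D) (ζ * ((1 + (t : ℂ)) * D)) := by
  have h1 : cr (o + D) (o + W) + cr (o + W) (o + (t : ℂ) * (ζ * D)) + cr (o + (t : ℂ) * (ζ * D)) o
      + cr o (o + D) = cr D W + cr W ((t : ℂ) * (ζ * D)) := by
    unfold Pool.Agent.Lib_PL.cr
    simp only [Complex.add_re, Complex.add_im]
    ring
  have h2 : q * cr D W = cr D ((q : ℂ) * W) := (Pool.Agent.Lib_PL.cr_mul_right q D W).symm
  have h3 : q * cr W ((t : ℂ) * (ζ * D)) = cr ((q : ℂ) * W) ((t : ℂ) * (ζ * D)) :=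
    (Pool.Agent.Lib_PL.cr_mul_left q W _).symm
  rw [h1, mul_add, h2, h3, hW]
  have e1 : (1 + ζ) * ((1 + (t : ℂ)) * D) = (((1 + t : ℝ) : ℂ)) * (D + ζ * D) := by
    push_cast
    ring
  have e2 : ζ * ((1 + (t : ℂ)) * D) = (((1 + t : ℝ) : ℂ)) * (ζ * D) := by
    push_cast
    ring
  have e3 : (1 + (t : ℂ)) * D = (((1 + t : ℝ) : ℂ)) * D := by
    push_cast
    ring
  rw [e1, e2, e3, Pool.Agent.Lib_PL.cr_mul_right, Pool.Agent.Lib_PL.cr_mul_left,
    Pool.Agent.Lib_PL.cr_mul_right, Pool.Agent.Lib_PL.cr_mul_right,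
    Pool.Agent.Lib_PL.cr_mul_left, Pool.Agent.Lib_PL.cr_add_right,
    Pool.Agent.Lib_PL.cr_add_left, Pool.Agent.Lib_PL.cr_self, Pool.Agent.Lib_PL.cr_self]
  ring

private theorem X4e_main (hc : P.CCW) (S : Arcs P 4) (h0 : S.Plus 0 1) (h1 : S.Plus 1 0)
    (h2 : S.w 2 = 1) (h3 : S.w 3 = 1) (N : X4e_Num) (t : ℝ) (ht : 0 < t)
    (htt : ‖S.ch 2‖ = t * ‖S.ch 3‖)
    (g1 : S.V 0 - S.V 1 = N.ζ ^ N.r0 * (S.V 2 - S.V 1))
    (g3 : S.V 2 - S.V 3 = (t : ℂ) * (N.ζ * (S.V 0 - S.V 3))) : HasPeriodic P := by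
  have s01 : (0 : ZMod 4) + 1 = 1 := by decide
  have s12 : (1 : ZMod 4) + 1 = 2 := by decide
  have s23 : (2 : ZMod 4) + 1 = 3 := by decide
  have s30 : (3 : ZMod 4) + 1 = 0 := by decide
  obtain ⟨D, hD⟩ : ∃ D, D = S.V 0 - S.V 3 := ⟨_, rfl⟩
  obtain ⟨W, hW⟩ : ∃ W, W = S.V 1 - S.V 3 := ⟨_, rfl⟩
  obtain ⟨o, ho⟩ : ∃ o, o = S.V 3 := ⟨_, rfl⟩
  obtain ⟨u, hu⟩ : ∃ u, u = (1 + (t : ℂ)) * D := ⟨_, rfl⟩
  have v0 : S.V 0 = o + D := by rw [hD, ho]; ring
  have v1 : S.V 1 = o + W := by rw [hW, ho]; ring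
  have v2 : S.V 2 = o + (t : ℂ) * (N.ζ * D) := by
    rw [hD, ← g3, ho]; ring
  have v3 : S.V 3 = o := ho.symm
  have F0 : W - N.ζ ^ N.r0 * W = u := by
    have e := g1
    rw [v0, v1, v2] at e
    rw [hu]
    linear_combination (-1 : ℂ) * e - (t : ℂ) * D * N.z0
  have lv10 : lv u (N.ζ * u) (1, 0) = u := by simp [lv]
  have lv01 : lv u (N.ζ * u) (0, 1) = N.ζ * u := by simp [lv]
  have lv00 : lv u (N.ζ * u) (0, 0) = 0 := by simp [lv]
  -- arcs 0 and 1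
  have A0 : N.ζ ^ N.r0 * (S.V 1 - o) + o + lv u (N.ζ * u) (1, 0) = S.V 1 ∧
      N.ζ ^ N.r0 * (S.V 2 - o) + o + lv u (N.ζ * u) (1, 0) = S.V 0 := by
    rw [lv10, v1, v2, v0]
    refine ⟨?_, ?_⟩
    · linear_combination (-1 : ℂ) * F0
    · rw [hu]
      linear_combination (t : ℂ) * D * N.z0
  have A1 : N.ζ ^ N.r1 * (S.V 0 - o) + o + lv u (N.ζ * u) (0, 1) = S.V 2 ∧
      N.ζ ^ N.r1 * (S.V 1 - o) + o + lv u (N.ζ * u) (0, 1) = S.V 1 := by
    rw [lv01, v1, v2, v0, N.z1]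
    refine ⟨?_, ?_⟩
    · rw [hu]
      ring
    · linear_combination (-N.ζ) * F0 - W * N.z0
  -- the area
  have hq0 : (0 : ℝ) < (N.q : ℝ) := by exact_mod_cast N.hq
  have hqW : ((N.q : ℝ) : ℂ) * W = (1 + N.ζ) * ((1 + (t : ℂ)) * D) := by
    rw [← hu, ← F0]
    have := N.zq
    push_cast
    linear_combination (-W) * this
  have hsum : ∑ j : ZMod 4, cr (S.V j) (S.V (j + 1)) =
      cr (S.V 0) (S.V 1) + cr (S.V 1) (S.V 2) + cr (S.V 2) (S.V 3) + cr (S.V 3) (S.V 0) :=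
    Fin.sum_univ_four (fun j : ZMod 4 => cr (S.V j) (S.V (j + 1)))
  have hA : (N.k : ℝ) * |∑ j, cr (S.V j) (S.V (j + 1))| = 2 * |cr u (N.ζ * u)| := by
    have e := X4e_area o D W N.ζ t N.q hqW
    rw [← v0, ← v1, ← v2, ← hu] at e
    rw [hsum, v3, ← e, abs_mul, abs_of_pos hq0, N.hkq]
    push_cast
    ring
  have hD0 : D ≠ 0 := by
    have := S.ch_ne (by norm_num) 3
    unfold Arcs.ch at this
    rw [s30] at this
    rw [hD]
    exact this
  rcases lt_trichotomy t 1 with hlt | heq | hgt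
  · -- `X` on arc 3
    have hX : o + (t : ℂ) * D ∈ openSegment ℝ (S.V 3) (S.V (3 + 1)) := by
      rw [s30, v3, v0]
      refine ⟨1 - t, t, by linarith, ht, by ring, ?_⟩
      rw [Complex.real_smul, Complex.real_smul]
      push_cast
      ring
    let E : DivArcs P S := ⟨3, h3, o + (t : ℂ) * D, hX⟩
    have pn : E.p none = o + (t : ℂ) * D := rfl
    have p0 : E.p (some 0) = S.V 0 := rfl
    have p1 : E.p (some 1) = S.V 1 := rfl
    have p2 : E.p (some 2) = S.V 2 := rfl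
    have p3 : E.p (some 3) = S.V 3 := rfl
    have qn : E.q none = S.V 0 := congrArg S.V s30
    have q0 : E.q (some 0) = S.V 1 := by
      change (if (0 : ZMod 4) = 3 then o + (t : ℂ) * D else S.V (0 + 1)) = _
      rw [if_neg (by decide), s01]
    have q1 : E.q (some 1) = S.V 2 := by
      change (if (1 : ZMod 4) = 3 then o + (t : ℂ) * D else S.V (1 + 1)) = _
      rw [if_neg (by decide), s12]
    have q2 : E.q (some 2) = S.V 3 := by
      change (if (2 : ZMod 4) = 3 then o + (t : ℂ) * D else S.V (2 + 1)) = _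
      rw [if_neg (by decide), s23]
    have q3 : E.q (some 3) = o + (t : ℂ) * D := by
      change (if (3 : ZMod 4) = 3 then o + (t : ℂ) * D else S.V (3 + 1)) = _
      rw [if_pos rfl]
    refine rot_div S hc (by norm_num) E N.k N.hk N.ζ u o N.hζ1 N.hζk N.α N.β N.hζ2 N.hM
      (fun y => y.elim none (![some 1, some 0, some 3, some 2] : ZMod 4 → Option (ZMod 4))) ?_
      (fun y => y.elim N.h (![N.r0, N.r1, 1, N.r3] : ZMod 4 → ℕ)) ?_
      (fun y => y.elim (1, 0) (![(1, 0), (0, 1), (0, 0), (0, 0)] : ZMod 4 → ℤ × ℤ)) ?_ ?_ ?_ hA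
    · exact X4e_opt rfl rfl rfl rfl rfl
    · refine X4e_opt ?_ ?_ ?_ ?_ ?_
      · exact N.hhh
      · exact N.hr01
      · change N.k ∣ N.r1 + N.r0
        rw [add_comm]
        exact N.hr01
      · exact N.hr3
      · change N.k ∣ N.r3 + 1
        rw [add_comm]
        exact N.hr3
    · refine X4e_opt ?_ ?_ ?_ ?_ ?_
      · exact N.ch0
      · exact N.c1
      · exact N.c0
      · exact N.cz3
      · exact N.cz1
    · refine X4e_opt ?_ ?_ ?_ ?_ ?_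
      · exact Or.inl ⟨trivial, trivial⟩
      · exact Or.inr ⟨0, 1, rfl, rfl, (by decide : (0 : ZMod 4) ≠ 3), (by decide : (1 : ZMod 4) ≠ 3), h0⟩
      · exact Or.inr ⟨1, 0, rfl, rfl, (by decide : (1 : ZMod 4) ≠ 3), (by decide : (0 : ZMod 4) ≠ 3), h1⟩
      · exact Or.inl ⟨h2, h3⟩
      · exact Or.inl ⟨h3, h2⟩
    · refine X4e_opt ?_ ?_ ?_ ?_ ?_
      · change N.ζ ^ N.h * (E.p none - o) + o + lv u (N.ζ * u) (1, 0) = E.q none ∧
          N.ζ ^ N.h * (E.q none - o) + o + lv u (N.ζ * u) (1, 0) = E.p none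
        rw [pn, qn, v0, lv10, N.zh, hu]
        exact ⟨by ring, by ring⟩
      · change N.ζ ^ N.r0 * (E.p (some 1) - o) + o + lv u (N.ζ * u) (1, 0) = E.q (some 0) ∧
          N.ζ ^ N.r0 * (E.q (some 1) - o) + o + lv u (N.ζ * u) (1, 0) = E.p (some 0)
        rw [p1, q0, q1, p0]
        exact A0
      · change N.ζ ^ N.r1 * (E.p (some 0) - o) + o + lv u (N.ζ * u) (0, 1) = E.q (some 1) ∧
          N.ζ ^ N.r1 * (E.q (some 0) - o) + o + lv u (N.ζ * u) (0, 1) = E.p (some 1)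
        rw [p1, q0, q1, p0]
        exact A1
      · change N.ζ ^ 1 * (E.p (some 3) - o) + o + lv u (N.ζ * u) (0, 0) = E.q (some 2) ∧
          N.ζ ^ 1 * (E.q (some 3) - o) + o + lv u (N.ζ * u) (0, 0) = E.p (some 2)
        rw [p3, q3, q2, p2, lv00, v3, v2]
        exact ⟨by ring, by ring⟩
      · change N.ζ ^ N.r3 * (E.p (some 2) - o) + o + lv u (N.ζ * u) (0, 0) = E.q (some 3) ∧
          N.ζ ^ N.r3 * (E.q (some 2) - o) + o + lv u (N.ζ * u) (0, 0) = E.p (some 3)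
        rw [p3, q3, q2, p2, lv00, v3, v2]
        exact ⟨by linear_combination (t : ℂ) * D * N.z3, by ring⟩
  · -- equal lengths
    have hl : ‖S.ch 2‖ = ‖S.ch 3‖ := by rw [htt, heq, one_mul]
    have p23 : S.Plus 2 3 := X4e_plus S 2 3 h2 h3 hl
    have p32 : S.Plus 3 2 := X4e_plus S 3 2 h3 h2 hl.symm
    have v2' : S.V 2 = o + N.ζ * D := by
      rw [v2, heq]
      push_cast
      ring
    refine rot_arc S hc (by norm_num) N.k N.hk N.ζ u o N.hζ1 N.hζk N.α N.β N.hζ2 N.hM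
      (![1, 0, 3, 2] : ZMod 4 → ZMod 4) ?_ (![N.r0, N.r1, 1, N.r3] : ZMod 4 → ℕ) ?_
      (![(1, 0), (0, 1), (0, 0), (0, 0)] : ZMod 4 → ℤ × ℤ) ?_ ?_ ?_ hA
    · exact X4e_all rfl rfl rfl rfl
    · refine X4e_all ?_ ?_ ?_ ?_
      · exact N.hr01
      · change N.k ∣ N.r1 + N.r0
        rw [add_comm]
        exact N.hr01
      · exact N.hr3
      · change N.k ∣ N.r3 + 1
        rw [add_comm]
        exact N.hr3
    · exact X4e_all N.c1 N.c0 N.cz3 N.cz1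
    · exact X4e_all h0 h1 p23 p32
    · refine X4e_all ?_ ?_ ?_ ?_
      · change N.ζ ^ N.r0 * (S.V 1 - o) + o + lv u (N.ζ * u) (1, 0) = S.V (0 + 1) ∧
          N.ζ ^ N.r0 * (S.V (1 + 1) - o) + o + lv u (N.ζ * u) (1, 0) = S.V 0
        rw [s01, s12]
        exact A0
      · change N.ζ ^ N.r1 * (S.V 0 - o) + o + lv u (N.ζ * u) (0, 1) = S.V (1 + 1) ∧
          N.ζ ^ N.r1 * (S.V (0 + 1) - o) + o + lv u (N.ζ * u) (0, 1) = S.V 1
        rw [s01, s12]
        exact A1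
      · change N.ζ ^ 1 * (S.V 3 - o) + o + lv u (N.ζ * u) (0, 0) = S.V (2 + 1) ∧
          N.ζ ^ 1 * (S.V (3 + 1) - o) + o + lv u (N.ζ * u) (0, 0) = S.V 2
        rw [s23, s30, lv00, v3, v0, v2']
        exact ⟨by ring, by ring⟩
      · change N.ζ ^ N.r3 * (S.V 2 - o) + o + lv u (N.ζ * u) (0, 0) = S.V (3 + 1) ∧
          N.ζ ^ N.r3 * (S.V (2 + 1) - o) + o + lv u (N.ζ * u) (0, 0) = S.V 3
        rw [s23, s30, lv00, v3, v0, v2']
        exact ⟨by linear_combination D * N.z3, by ring⟩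
  · -- `X` on arc 2
    have hX : o + N.ζ * D ∈ openSegment ℝ (S.V 2) (S.V (2 + 1)) := by
      rw [s23, v3, v2]
      refine ⟨1 / t, 1 - 1 / t, by positivity, ?_, by ring, ?_⟩
      · rw [sub_pos, div_lt_one ht]
        exact hgt
      · rw [Complex.real_smul, Complex.real_smul]
        push_cast
        have ht' : (t : ℂ) ≠ 0 := by exact_mod_cast ht.ne'
        field_simp
        ring
    let E : DivArcs P S := ⟨2, h2, o + N.ζ * D, hX⟩
    have pn : E.p none = o + N.ζ * D := rfl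
    have p0 : E.p (some 0) = S.V 0 := rfl
    have p1 : E.p (some 1) = S.V 1 := rfl
    have p2 : E.p (some 2) = S.V 2 := rfl
    have p3 : E.p (some 3) = S.V 3 := rfl
    have qn : E.q none = S.V 3 := congrArg S.V s23
    have q0 : E.q (some 0) = S.V 1 := by
      change (if (0 : ZMod 4) = 2 then o + N.ζ * D else S.V (0 + 1)) = _
      rw [if_neg (by decide), s01]
    have q1 : E.q (some 1) = S.V 2 := by
      change (if (1 : ZMod 4) = 2 then o + N.ζ * D else S.V (1 + 1)) = _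
      rw [if_neg (by decide), s12]
    have q2 : E.q (some 2) = o + N.ζ * D := by
      change (if (2 : ZMod 4) = 2 then o + N.ζ * D else S.V (2 + 1)) = _
      rw [if_pos rfl]
    have q3 : E.q (some 3) = S.V 0 := by
      change (if (3 : ZMod 4) = 2 then o + N.ζ * D else S.V (3 + 1)) = _
      rw [if_neg (by decide), s30]
    refine rot_div S hc (by norm_num) E N.k N.hk N.ζ u o N.hζ1 N.hζk N.α N.β N.hζ2 N.hM
      (fun y => y.elim (some 3) (![some 1, some 0, some 2, none] : ZMod 4 → Option (ZMod 4))) ?_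
      (fun y => y.elim 1 (![N.r0, N.r1, N.h, N.r3] : ZMod 4 → ℕ)) ?_
      (fun y => y.elim (0, 0) (![(1, 0), (0, 1), (0, 1), (0, 0)] : ZMod 4 → ℤ × ℤ)) ?_ ?_ ?_ hA
    · exact X4e_opt rfl rfl rfl rfl rfl
    · refine X4e_opt ?_ ?_ ?_ ?_ ?_
      · exact N.hr3
      · exact N.hr01
      · change N.k ∣ N.r1 + N.r0
        rw [add_comm]
        exact N.hr01
      · exact N.hhh
      · change N.k ∣ N.r3 + 1
        rw [add_comm]
        exact N.hr3
    · refine X4e_opt ?_ ?_ ?_ ?_ ?_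
      · exact N.cz3
      · exact N.c1
      · exact N.c0
      · exact N.ch1
      · exact N.cz1
    · refine X4e_opt ?_ ?_ ?_ ?_ ?_
      · exact Or.inl ⟨trivial, h3⟩
      · exact Or.inr ⟨0, 1, rfl, rfl, (by decide : (0 : ZMod 4) ≠ 2), (by decide : (1 : ZMod 4) ≠ 2), h0⟩
      · exact Or.inr ⟨1, 0, rfl, rfl, (by decide : (1 : ZMod 4) ≠ 2), (by decide : (0 : ZMod 4) ≠ 2), h1⟩
      · exact Or.inl ⟨h2, h2⟩
      · exact Or.inl ⟨h3, trivial⟩
    · refine X4e_opt ?_ ?_ ?_ ?_ ?_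
      · change N.ζ ^ 1 * (E.p (some 3) - o) + o + lv u (N.ζ * u) (0, 0) = E.q none ∧
          N.ζ ^ 1 * (E.q (some 3) - o) + o + lv u (N.ζ * u) (0, 0) = E.p none
        rw [p3, q3, qn, pn, lv00, v3, v0]
        exact ⟨by ring, by ring⟩
      · change N.ζ ^ N.r0 * (E.p (some 1) - o) + o + lv u (N.ζ * u) (1, 0) = E.q (some 0) ∧
          N.ζ ^ N.r0 * (E.q (some 1) - o) + o + lv u (N.ζ * u) (1, 0) = E.p (some 0)
        rw [p1, q0, q1, p0]
        exact A0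
      · change N.ζ ^ N.r1 * (E.p (some 0) - o) + o + lv u (N.ζ * u) (0, 1) = E.q (some 1) ∧
          N.ζ ^ N.r1 * (E.q (some 0) - o) + o + lv u (N.ζ * u) (0, 1) = E.p (some 1)
        rw [p1, q0, q1, p0]
        exact A1
      · change N.ζ ^ N.h * (E.p (some 2) - o) + o + lv u (N.ζ * u) (0, 1) = E.q (some 2) ∧
          N.ζ ^ N.h * (E.q (some 2) - o) + o + lv u (N.ζ * u) (0, 1) = E.p (some 2)
        rw [p2, q2, v2, lv01, N.zh, hu]
        exact ⟨by ring, by ring⟩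
      · change N.ζ ^ N.r3 * (E.p none - o) + o + lv u (N.ζ * u) (0, 0) = E.q (some 3) ∧
          N.ζ ^ N.r3 * (E.q none - o) + o + lv u (N.ζ * u) (0, 0) = E.p (some 3)
        rw [pn, qn, q3, p3, lv00, v3, v0]
        exact ⟨by linear_combination D * N.z3, by ring⟩

/-- the geometry from the chord angles -/
private theorem X4e_geo (S : Arcs P 4) (b : ZMod 4 → ℝ) (hb : S.ChordAng b) (h0 : S.Plus 0 1)
    (hc : P.CCW) (h1 : S.Plus 1 0) (h2 : S.w 2 = 1) (h3 : S.w 3 = 1) (N : X4e_Num)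
    (e1 : exp (((Real.pi * b 1 : ℝ) : ℂ) * Complex.I) = N.ζ ^ N.r0)
    (e3 : exp (((Real.pi * b 3 : ℝ) : ℂ) * Complex.I) = N.ζ) : HasPeriodic P := by
  have n2 : ‖S.ch 2‖ ≠ 0 := norm_ne_zero_iff.2 (S.ch_ne (by norm_num) 2)
  have n3 : ‖S.ch 3‖ ≠ 0 := norm_ne_zero_iff.2 (S.ch_ne (by norm_num) 3)
  have s10 : (1 : ZMod 4) - 1 = 0 := by decide
  have s12 : (1 : ZMod 4) + 1 = 2 := by decide
  have s32 : (3 : ZMod 4) - 1 = 2 := by decide
  have s23 : (2 : ZMod 4) + 1 = 3 := by decide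
  have s30 : (3 : ZMod 4) + 1 = 0 := by decide
  refine X4e_main hc S h0 h1 h2 h3 N (‖S.ch 2‖ / ‖S.ch 3‖) ?_ ?_ ?_ ?_
  · positivity
  · rw [div_mul_cancel₀ _ n3]
  · have h := hb.rot (by norm_num) 1 (by rw [s10]; exact S.norm_plus h0)
    rw [s10, s12, e1] at h
    exact h
  · have h := hb 3
    rw [s32] at h
    have e : S.V 2 - S.V 3 = -S.ch 2 := by
      unfold Arcs.ch
      rw [s23]
      ring
    have e' : S.V 0 - S.V 3 = S.ch 3 := by
      unfold Arcs.ch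
      rw [s30]
    rw [e, e']
    have e4 : exp (((Real.pi * (1 - b 3) : ℝ) : ℂ) * Complex.I) * N.ζ = -1 := by
      rw [← e3, ← Complex.exp_add, ← Complex.exp_pi_mul_I]
      congr 1
      push_cast
      ring
    have hn2 : ((‖S.ch 2‖ : ℝ) : ℂ) ≠ 0 := Complex.ofReal_ne_zero.2 n2
    have hn3 : ((‖S.ch 3‖ : ℝ) : ℂ) ≠ 0 := Complex.ofReal_ne_zero.2 n3
    have e5 : ((‖S.ch 2‖ / ‖S.ch 3‖ : ℝ) : ℂ) * ((‖S.ch 3‖ / ‖S.ch 2‖ : ℝ) : ℂ) = 1 := by
      push_cast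
      field_simp
    linear_combination (-(((‖S.ch 2‖ / ‖S.ch 3‖ : ℝ) : ℂ) * N.ζ)) * h -
      S.ch 2 * (exp (((Real.pi * (1 - b 3) : ℝ) : ℂ) * Complex.I) * N.ζ) * e5 - S.ch 2 * e4

private theorem X4e_z6 : exp (((Real.pi * (1 / 3) : ℝ) : ℂ) * Complex.I) ^ 2 =
    exp (((Real.pi * (1 / 3) : ℝ) : ℂ) * Complex.I) - 1 := by
  rw [Complex.exp_mul_I, ← Complex.ofReal_cos, ← Complex.ofReal_sin]
  have e : Real.pi * (1 / 3) = Real.pi / 3 := by ring
  rw [e, Real.cos_pi_div_three, Real.sin_pi_div_three]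
  have h3 : ((Real.sqrt 3 : ℝ) : ℂ) ^ 2 = 3 := by
    rw [← Complex.ofReal_pow, Real.sq_sqrt (by norm_num)]
    norm_num
  push_cast
  linear_combination (1 / 4 : ℂ) * Complex.I ^ 2 * h3 + (3 / 4 : ℂ) * Complex.I_sq

private noncomputable def X4e_N6 : X4e_Num where
  k := 6
  r0 := 2
  r1 := 4
  r3 := 5
  h := 3
  q := 3
  α := -1
  β := 1
  ζ := exp (((Real.pi * (1 / 3) : ℝ) : ℂ) * Complex.I)
  hk := by norm_num
  hq := by norm_num
  hkq := by norm_num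
  hζ1 := Complex.norm_exp_ofReal_mul_I _
  hζk := by
    have h := X4e_z6
    generalize exp (((Real.pi * (1 / 3) : ℝ) : ℂ) * Complex.I) = z at h
    linear_combination (z ^ 4 + z ^ 3 - z - 1) * h
  hζ2 := by
    rw [X4e_z6]
    push_cast
    ring
  hM := by
    rintro ⟨a, b⟩
    simp only [Function.iterate_succ, Function.iterate_zero, Function.comp, rmul, id]
    ext <;> simp
  hr01 := by norm_num
  hr3 := by norm_num
  hhh := by norm_num
  z0 := by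
    have h := X4e_z6
    generalize exp (((Real.pi * (1 / 3) : ℝ) : ℂ) * Complex.I) = z at h
    linear_combination (z + 1) * h
  z1 := by
    have h := X4e_z6
    generalize exp (((Real.pi * (1 / 3) : ℝ) : ℂ) * Complex.I) = z at h
    linear_combination (z ^ 2 + z) * h
  z3 := by
    have h := X4e_z6
    generalize exp (((Real.pi * (1 / 3) : ℝ) : ℂ) * Complex.I) = z at h
    linear_combination (z ^ 4 + z ^ 3 - z - 1) * h
  zh := by
    have h := X4e_z6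
    generalize exp (((Real.pi * (1 / 3) : ℝ) : ℂ) * Complex.I) = z at h
    linear_combination (z + 1) * h
  zq := by
    have h := X4e_z6
    generalize exp (((Real.pi * (1 / 3) : ℝ) : ℂ) * Complex.I) = z at h
    push_cast
    linear_combination (-z - 2) * h
  c1 := by decide
  c0 := by decide
  ch0 := by decide
  ch1 := by decide
  cz3 := by decide
  cz1 := by decide

private theorem X4e_z4 : exp (((Real.pi * (1 / 2) : ℝ) : ℂ) * Complex.I) = Complex.I := by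
  rw [Complex.exp_mul_I, ← Complex.ofReal_cos, ← Complex.ofReal_sin]
  have e : Real.pi * (1 / 2) = Real.pi / 2 := by ring
  rw [e, Real.cos_pi_div_two, Real.sin_pi_div_two]
  simp

private noncomputable def X4e_N4 : X4e_Num where
  k := 4
  r0 := 1
  r1 := 3
  r3 := 3
  h := 2
  q := 2
  α := -1
  β := 0
  ζ := Complex.I
  hk := by norm_num
  hq := by norm_num
  hkq := by norm_num
  hζ1 := Complex.norm_I
  hζk := Complex.I_pow_four
  hζ2 := by
    rw [Complex.I_sq]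
    push_cast
    ring
  hM := by
    rintro ⟨a, b⟩
    simp only [Function.iterate_succ, Function.iterate_zero, Function.comp, rmul, id]
    ext <;> simp
  hr01 := by norm_num
  hr3 := by norm_num
  hhh := by norm_num
  z0 := by
    rw [pow_one, Complex.I_mul_I]
  z1 := by
    rw [Complex.I_pow_three]
  z3 := by
    rw [Complex.I_pow_three, neg_mul, Complex.I_mul_I, neg_neg]
  zh := Complex.I_sq
  zq := by
    push_cast
    linear_combination (-1 : ℂ) * Complex.I_sq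
  c1 := by decide
  c0 := by decide
  ch0 := by decide
  ch1 := by decide
  cz3 := by decide
  cz1 := by decide

theorem x4_8 (hc : P.CCW) (S : Arcs P 4) (b : ZMod 4 → ℝ) (hb : S.ChordAng b) (h0 : S.Plus 0 1)
    (h1 : S.Plus 1 0) (h2 : S.w 2 = 1) (h3 : S.w 3 = 1) (e1 : 3 * b 1 = 2) (e3 : 3 * b 3 = 1)
    (e0 : b 0 + b 2 = 1) : HasPeriodic P := by
  refine X4e_geo S b hb h0 hc h1 h2 h3 X4e_N6 ?_ ?_
  · change _ = exp (((Real.pi * (1 / 3) : ℝ) : ℂ) * Complex.I) ^ 2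
    have e : b 1 = 2 / 3 := by linarith
    rw [e, ← Complex.exp_nat_mul]
    congr 1
    push_cast
    ring
  · change _ = exp (((Real.pi * (1 / 3) : ℝ) : ℂ) * Complex.I)
    have e : b 3 = 1 / 3 := by linarith
    rw [e]

theorem x4_9 (hc : P.CCW) (S : Arcs P 4) (b : ZMod 4 → ℝ) (hb : S.ChordAng b) (h0 : S.Plus 0 1)
    (h1 : S.Plus 1 0) (h2 : S.w 2 = 1) (h3 : S.w 3 = 1) (e1 : 2 * b 1 = 1) (e3 : 2 * b 3 = 1)
    (e0 : b 0 + b 2 = 1) : HasPeriodic P := by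
  refine X4e_geo S b hb h0 hc h1 h2 h3 X4e_N4 ?_ ?_
  · change _ = Complex.I ^ 1
    have e : b 1 = 1 / 2 := by linarith
    rw [e, pow_one, X4e_z4]
  · change _ = Complex.I
    have e : b 3 = 1 / 2 := by linarith
    rw [e, X4e_z4]

end Pool.Agent.Lib_MP_fa6e45
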