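import Pool.Agent.Lib_MP_fa6e45.X1f
import Pool.Agent.Lib_MP_fa6e45.X2a

/-!
PIECE X4f (about 250 lines): quadrilaterals with arcs: rotations around `V1` (arcs 0, 1) and around `V3`
(arcs 2, 3) by `(2/3, 2/3)`, `(2/3, 1/3)`, `(1/2, 1/2)`, `(1/3, 2/3)` times `π`: groups p3, p6, p4, p6. `rot_arc` with
`o` = the centre of the rotation of the largest order, compare `crit36`, `crit44`, `crit63` (V7b). For (2/3, 2/3)
take `k = 3`, `o = V1`.
-/

open Set MeasureTheory Complex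
open scoped Topology

set_option linter.unusedVariables false

namespace Pool.Agent.Lib_MP_fa6e45

open Pool.Agent.Lib_PL (cr InSector Poly)

variable {n : ℕ} {P : Polygon n}

private theorem x4f_s : Real.sqrt 3 / 2 * (Real.sqrt 3 / 2) = 3 / 4 := by
  have h : Real.sqrt 3 * Real.sqrt 3 = 3 := Real.mul_self_sqrt (by norm_num)
  linarith

private theorem x4f_e13 {x : ℝ} (h : 3 * x = 1) :
    exp (((Real.pi * x : ℝ) : ℂ) * Complex.I) = ⟨1 / 2, Real.sqrt 3 / 2⟩ := by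
  have h1 : Real.pi * x = Real.pi / 3 := by
    linear_combination (Real.pi / 3) * h
  rw [h1]
  apply Complex.ext
  · rw [Complex.exp_ofReal_mul_I_re, Real.cos_pi_div_three]
  · rw [Complex.exp_ofReal_mul_I_im, Real.sin_pi_div_three]

private theorem x4f_e23 {x : ℝ} (h : 3 * x = 2) :
    exp (((Real.pi * x : ℝ) : ℂ) * Complex.I) = ⟨-(1 / 2), Real.sqrt 3 / 2⟩ := by
  have h1 : Real.pi * x = Real.pi - Real.pi / 3 := by
    linear_combination (Real.pi / 3) * h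
  rw [h1]
  apply Complex.ext
  · rw [Complex.exp_ofReal_mul_I_re, Real.cos_pi_sub, Real.cos_pi_div_three]
  · rw [Complex.exp_ofReal_mul_I_im, Real.sin_pi_sub, Real.sin_pi_div_three]

private theorem x4f_e12 {x : ℝ} (h : 2 * x = 1) :
    exp (((Real.pi * x : ℝ) : ℂ) * Complex.I) = Complex.I := by
  have h1 : Real.pi * x = Real.pi / 2 := by
    linear_combination (Real.pi / 2) * h
  rw [h1]
  apply Complex.ext
  · rw [Complex.exp_ofReal_mul_I_re, Real.cos_pi_div_two, I_re]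
  · rw [Complex.exp_ofReal_mul_I_im, Real.sin_pi_div_two, I_im]

private theorem x4f_six {ζ : ℂ} {s : ℝ} (hss : s * s = 3 / 4) (hz : ζ = ⟨1 / 2, s⟩) :
    ζ ^ 2 = ζ - 1 ∧ ζ ^ 3 = -1 ∧ ζ ^ 6 = 1 ∧ ‖ζ‖ = 1 := by
  have h2 : ζ ^ 2 = ζ - 1 := by
    rw [hz]
    apply Complex.ext
    · simp [pow_two]
      linarith
    · simp [pow_two]
      ring
  have h3 : ζ ^ 3 = -1 := by
    linear_combination (ζ + 1) * h2
  have h6 : ζ ^ 6 = 1 := by
    linear_combination (ζ ^ 3 - 1) * h3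
  have h1 : ‖ζ‖ ^ 6 = 1 := by
    rw [← norm_pow, h6, norm_one]
  exact ⟨h2, h3, h6, (pow_eq_one_iff_of_nonneg (norm_nonneg _) (by norm_num)).1 h1⟩

private theorem x4f_sum (S : Arcs P 4) : ∑ j : ZMod 4, cr (S.V j) (S.V (j + 1)) =
    cr (S.V 0) (S.V 1) + cr (S.V 1) (S.V 2) + cr (S.V 2) (S.V 3) + cr (S.V 3) (S.V 0) :=
  Fin.sum_univ_four (fun j : ZMod 4 => cr (S.V j) (S.V (j + 1)))

private theorem x4f_rel (S : Arcs P 4) (h0 : S.Plus 0 1)
    (h1 : S.Plus 1 0) (h2 : S.Plus 2 3) (h3 : S.Plus 3 2) (j : ZMod 4) :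
    S.Plus j ((![1, 0, 3, 2] : Fin 4 → ZMod 4) j) := by
  fin_cases j
  · exact h0
  · exact h1
  · exact h2
  · exact h3

private theorem x4f_rot1 (S : Arcs P 4) (b : ZMod 4 → ℝ) (hb : S.ChordAng b) (h0 : S.Plus 0 1) :
    S.V 0 - S.V 1 = exp (((Real.pi * b 1 : ℝ) : ℂ) * Complex.I) * (S.V 2 - S.V 1) :=
  hb.rot (by norm_num) 1 (S.norm_plus h0)

private theorem x4f_rot3 (S : Arcs P 4) (b : ZMod 4 → ℝ) (hb : S.ChordAng b) (h2 : S.Plus 2 3) :
    S.V 2 - S.V 3 = exp (((Real.pi * b 3 : ℝ) : ℂ) * Complex.I) * (S.V 0 - S.V 3) :=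
  hb.rot (by norm_num) 3 (S.norm_plus h2)

theorem x4_10 (hc : P.CCW) (S : Arcs P 4) (b : ZMod 4 → ℝ) (hb : S.ChordAng b) (h0 : S.Plus 0 1)
    (h1 : S.Plus 1 0) (h2 : S.Plus 2 3) (h3 : S.Plus 3 2) (e1 : 3 * b 1 = 2) (e3 : 3 * b 3 = 2)
    (e0 : 3 * b 0 + 3 * b 2 = 2) : HasPeriodic P := by
  have hr1 := x4f_rot1 S b hb h0
  have hr3 := x4f_rot3 S b hb h2
  rw [x4f_e23 e1] at hr1
  rw [x4f_e23 e3] at hr3
  obtain ⟨s, hs⟩ : ∃ s : ℝ, s = Real.sqrt 3 / 2 := ⟨_, rfl⟩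
  rw [← hs] at hr1 hr3
  have hss : s * s = 3 / 4 := by rw [hs]; exact x4f_s
  obtain ⟨ω, hz⟩ : ∃ ω : ℂ, ω = ⟨-(1 / 2), s⟩ := ⟨_, rfl⟩
  rw [← hz] at hr1 hr3
  have hω2 : ω ^ 2 = -1 - ω := by
    rw [hz]
    apply Complex.ext
    · simp [pow_two]
      linarith
    · simp [pow_two]
      ring
  have hω3 : ω ^ 3 = 1 := by
    linear_combination (ω - 1) * hω2
  have hω1 : ‖ω‖ = 1 := by
    have h1 : ‖ω‖ ^ 3 = 1 := by
      rw [← norm_pow, hω3, norm_one]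
    exact (pow_eq_one_iff_of_nonneg (norm_nonneg _) (by norm_num)).1 h1
  have hω2' : ω ^ 2 = ((-1 : ℤ) : ℂ) + ((-1 : ℤ) : ℂ) * ω := by
    rw [hω2]
    push_cast
    ring
  have hne : 1 - ω ≠ 0 := by
    intro h
    have h6 := congrArg Complex.re h
    rw [hz] at h6
    simp at h6
    norm_num at h6
  obtain ⟨v, hv⟩ : ∃ v : ℂ, v = S.V 1 := ⟨_, rfl⟩
  obtain ⟨a, ha⟩ : ∃ a : ℂ, a = S.V 2 - S.V 1 := ⟨_, rfl⟩
  have E1 : S.V 1 = v := hv.symm
  have E2 : S.V 2 = v + a := by rw [ha, hv]; ring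
  have E0 : S.V 0 = v + ω * a := by
    rw [ha, hv]
    linear_combination hr1
  have E3 : S.V 3 = v + (1 + ω) * a := by
    apply mul_left_cancel₀ hne
    rw [E2, E0] at hr3
    linear_combination -hr3
  refine rot_arc S hc (by norm_num) 3 (by norm_num) ω ((1 - ω) * ((1 + ω) * a)) v hω1 hω3
    (-1) (-1) hω2' ?_ (![1, 0, 3, 2] : Fin 4 → ZMod 4) (by decide) (![1, 2, 1, 2] : Fin 4 → ℕ)
    (by decide) (![(0, 0), (0, 0), (1, 0), (1, 1)] : Fin 4 → ℤ × ℤ) (by decide)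
    (x4f_rel S h0 h1 h2 h3) ?_ ?_
  · rintro ⟨a, b⟩
    simp only [Function.iterate_succ, Function.iterate_zero, Function.comp, id, rmul]
    ext <;> simp
  · intro j
    fin_cases j
    · show ω ^ 1 * (S.V 1 - v) + v + lv _ _ (0, 0) = S.V 1 ∧
        ω ^ 1 * (S.V 2 - v) + v + lv _ _ (0, 0) = S.V 0
      simp only [lv]
      push_cast
      rw [E0, E1, E2]
      constructor <;> ring
    · show ω ^ 2 * (S.V 0 - v) + v + lv _ _ (0, 0) = S.V 2 ∧
        ω ^ 2 * (S.V 1 - v) + v + lv _ _ (0, 0) = S.V 1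
      simp only [lv]
      push_cast
      rw [E0, E1, E2]
      constructor
      · linear_combination a * hω3
      · ring
    · show ω ^ 1 * (S.V 3 - v) + v + lv _ _ (1, 0) = S.V 3 ∧
        ω ^ 1 * (S.V 0 - v) + v + lv _ _ (1, 0) = S.V 2
      simp only [lv]
      push_cast
      rw [E0, E2, E3]
      constructor <;> ring
    · show ω ^ 2 * (S.V 2 - v) + v + lv _ _ (1, 1) = S.V 0 ∧
        ω ^ 2 * (S.V 3 - v) + v + lv _ _ (1, 1) = S.V 3
      simp only [lv]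
      push_cast
      rw [E0, E2, E3]
      constructor
      · linear_combination (-a) * hω3
      · ring
  · rw [x4f_sum, E0, E1, E2, E3, hz]
    have h5 : (3 : ℝ) * (cr (v + ⟨-(1 / 2), s⟩ * a) v + cr v (v + a) +
        cr (v + a) (v + (1 + ⟨-(1 / 2), s⟩) * a) +
        cr (v + (1 + ⟨-(1 / 2), s⟩) * a) (v + ⟨-(1 / 2), s⟩ * a)) =
        2 * cr ((1 - ⟨-(1 / 2), s⟩) * ((1 + ⟨-(1 / 2), s⟩) * a))
          (⟨-(1 / 2), s⟩ * ((1 - ⟨-(1 / 2), s⟩) * ((1 + ⟨-(1 / 2), s⟩) * a))) := by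
      simp only [cr, mul_re, mul_im, add_re, add_im, sub_re, sub_im, one_re, one_im]
      linear_combination (-2 * s * (a.re * a.re + a.im * a.im) * (s * s + 13 / 4)) * hss
    have h6 := congrArg abs h5
    rw [abs_mul, abs_mul] at h6
    rw [abs_of_pos (by norm_num : (0 : ℝ) < 3), abs_of_pos (by norm_num : (0 : ℝ) < 2)] at h6
    push_cast
    exact h6

theorem x4_11 (hc : P.CCW) (S : Arcs P 4) (b : ZMod 4 → ℝ) (hb : S.ChordAng b) (h0 : S.Plus 0 1)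
    (h1 : S.Plus 1 0) (h2 : S.Plus 2 3) (h3 : S.Plus 3 2) (e1 : 3 * b 1 = 2) (e3 : 3 * b 3 = 1)
    (e0 : b 0 + b 2 = 1) : HasPeriodic P := by
  have hr1 := x4f_rot1 S b hb h0
  have hr3 := x4f_rot3 S b hb h2
  rw [x4f_e23 e1] at hr1
  rw [x4f_e13 e3] at hr3
  obtain ⟨s, hs⟩ : ∃ s : ℝ, s = Real.sqrt 3 / 2 := ⟨_, rfl⟩
  rw [← hs] at hr1 hr3
  have hss : s * s = 3 / 4 := by rw [hs]; exact x4f_s
  obtain ⟨ζ, hz⟩ : ∃ ζ : ℂ, ζ = ⟨1 / 2, s⟩ := ⟨_, rfl⟩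
  have hωζ : (⟨-(1 / 2), s⟩ : ℂ) = ζ - 1 := by
    rw [hz]
    apply Complex.ext
    · simp
      norm_num
    · simp
  rw [← hz] at hr3
  rw [hωζ] at hr1
  obtain ⟨hζ2, hζ3, hζ6, hζ1⟩ := x4f_six hss hz
  have hζ2' : ζ ^ 2 = ((-1 : ℤ) : ℂ) + ((1 : ℤ) : ℂ) * ζ := by
    rw [hζ2]
    push_cast
    ring
  have hne : 2 - ζ ≠ 0 := by
    intro h
    have h6 := congrArg Complex.re h
    rw [hz] at h6
    simp at h6
    norm_num at h6
  obtain ⟨v, hv⟩ : ∃ v : ℂ, v = S.V 3 := ⟨_, rfl⟩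
  obtain ⟨a, ha⟩ : ∃ a : ℂ, a = S.V 0 - S.V 3 := ⟨_, rfl⟩
  have E3 : S.V 3 = v := hv.symm
  have E0 : S.V 0 = v + a := by rw [ha, hv]; ring
  have E2 : S.V 2 = v + ζ * a := by
    rw [ha, hv]
    linear_combination hr3
  have E1 : S.V 1 = v + 2 / 3 * (1 + ζ) * a := by
    apply mul_left_cancel₀ hne
    rw [E2, E0] at hr1
    linear_combination -hr1 - (1 / 3) * a * hζ2
  refine rot_arc S hc (by norm_num) 6 (by norm_num) ζ (2 * a) v hζ1 hζ6
    (-1) 1 hζ2' ?_ (![1, 0, 3, 2] : Fin 4 → ZMod 4) (by decide) (![2, 4, 1, 5] : Fin 4 → ℕ)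
    (by decide) (![(1, 0), (0, 1), (0, 0), (0, 0)] : Fin 4 → ℤ × ℤ) (by decide)
    (x4f_rel S h0 h1 h2 h3) ?_ ?_
  · rintro ⟨a, b⟩
    simp only [Function.iterate_succ, Function.iterate_zero, Function.comp, id, rmul]
    ext <;> simp
  · intro j
    fin_cases j
    · show ζ ^ 2 * (S.V 1 - v) + v + lv _ _ (1, 0) = S.V 1 ∧
        ζ ^ 2 * (S.V 2 - v) + v + lv _ _ (1, 0) = S.V 0
      simp only [lv]
      push_cast
      rw [E0, E1, E2]
      constructor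
      · linear_combination (2 / 3) * a * hζ3 + (2 / 3) * a * hζ2
      · linear_combination a * hζ3
    · show ζ ^ 4 * (S.V 0 - v) + v + lv _ _ (0, 1) = S.V 2 ∧
        ζ ^ 4 * (S.V 1 - v) + v + lv _ _ (0, 1) = S.V 1
      simp only [lv]
      push_cast
      rw [E0, E1, E2]
      constructor
      · linear_combination a * ζ * hζ3
      · linear_combination (2 / 3) * a * (ζ + ζ ^ 2) * hζ3 - (2 / 3) * a * hζ2
    · show ζ ^ 1 * (S.V 3 - v) + v + lv _ _ (0, 0) = S.V 3 ∧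
        ζ ^ 1 * (S.V 0 - v) + v + lv _ _ (0, 0) = S.V 2
      simp only [lv]
      push_cast
      rw [E0, E2, E3]
      constructor <;> ring
    · show ζ ^ 5 * (S.V 2 - v) + v + lv _ _ (0, 0) = S.V 0 ∧
        ζ ^ 5 * (S.V 3 - v) + v + lv _ _ (0, 0) = S.V 3
      simp only [lv]
      push_cast
      rw [E0, E2, E3]
      constructor
      · linear_combination a * hζ6
      · ring
  · rw [x4f_sum, E0, E1, E2, E3, hz]
    have hre : ((2 : ℂ) / 3).re = 2 / 3 := by norm_num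
    have him : ((2 : ℂ) / 3).im = 0 := by norm_num
    have h5 : (6 : ℝ) * (cr (v + a) (v + 2 / 3 * (1 + ⟨1 / 2, s⟩) * a) +
        cr (v + 2 / 3 * (1 + ⟨1 / 2, s⟩) * a) (v + ⟨1 / 2, s⟩ * a) +
        cr (v + ⟨1 / 2, s⟩ * a) v + cr v (v + a)) =
        2 * cr (2 * a) (⟨1 / 2, s⟩ * (2 * a)) := by
      simp only [cr, mul_re, mul_im, add_re, add_im, one_re, one_im, re_ofNat, im_ofNat, hre, him]
      ring
    have h6 := congrArg abs h5
    rw [abs_mul, abs_mul] at h6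
    rw [abs_of_pos (by norm_num : (0 : ℝ) < 6), abs_of_pos (by norm_num : (0 : ℝ) < 2)] at h6
    push_cast
    exact h6

theorem x4_12 (hc : P.CCW) (S : Arcs P 4) (b : ZMod 4 → ℝ) (hb : S.ChordAng b) (h0 : S.Plus 0 1)
    (h1 : S.Plus 1 0) (h2 : S.Plus 2 3) (h3 : S.Plus 3 2) (e1 : 2 * b 1 = 1) (e3 : 2 * b 3 = 1)
    (e0 : b 0 + b 2 = 1) : HasPeriodic P := by
  have hr1 := x4f_rot1 S b hb h0
  have hr3 := x4f_rot3 S b hb h2
  rw [x4f_e12 e1] at hr1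
  rw [x4f_e12 e3] at hr3
  have hI2 : Complex.I ^ 2 = -1 := Complex.I_sq
  have hI4 : Complex.I ^ 4 = 1 := by
    linear_combination (Complex.I ^ 2 - 1) * hI2
  have hI2' : Complex.I ^ 2 = ((-1 : ℤ) : ℂ) + ((0 : ℤ) : ℂ) * Complex.I := by
    rw [hI2]
    push_cast
    ring
  have hne : 1 - Complex.I ≠ 0 := by
    intro h
    have h6 := congrArg Complex.re h
    simp at h6
  obtain ⟨v, hv⟩ : ∃ v : ℂ, v = S.V 3 := ⟨_, rfl⟩
  obtain ⟨a, ha⟩ : ∃ a : ℂ, a = S.V 0 - S.V 3 := ⟨_, rfl⟩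
  have E3 : S.V 3 = v := hv.symm
  have E0 : S.V 0 = v + a := by rw [ha, hv]; ring
  have E2 : S.V 2 = v + Complex.I * a := by
    rw [ha, hv]
    linear_combination hr3
  have E1 : S.V 1 = v + (1 + Complex.I) * a := by
    apply mul_left_cancel₀ hne
    rw [E2, E0] at hr1
    linear_combination -hr1
  refine rot_arc S hc (by norm_num) 4 (by norm_num) Complex.I (2 * a) v Complex.norm_I hI4
    (-1) 0 hI2' ?_ (![1, 0, 3, 2] : Fin 4 → ZMod 4) (by decide) (![1, 3, 1, 3] : Fin 4 → ℕ)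
    (by decide) (![(1, 0), (0, 1), (0, 0), (0, 0)] : Fin 4 → ℤ × ℤ) (by decide)
    (x4f_rel S h0 h1 h2 h3) ?_ ?_
  · rintro ⟨a, b⟩
    simp only [Function.iterate_succ, Function.iterate_zero, Function.comp, id, rmul]
    ext <;> simp
  · intro j
    fin_cases j
    · show Complex.I ^ 1 * (S.V 1 - v) + v + lv _ _ (1, 0) = S.V 1 ∧
        Complex.I ^ 1 * (S.V 2 - v) + v + lv _ _ (1, 0) = S.V 0
      simp only [lv]
      push_cast
      rw [E0, E1, E2]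
      constructor
      · linear_combination a * hI2
      · linear_combination a * hI2
    · show Complex.I ^ 3 * (S.V 0 - v) + v + lv _ _ (0, 1) = S.V 2 ∧
        Complex.I ^ 3 * (S.V 1 - v) + v + lv _ _ (0, 1) = S.V 1
      simp only [lv]
      push_cast
      rw [E0, E1, E2]
      constructor
      · linear_combination a * Complex.I * hI2
      · linear_combination a * (Complex.I + Complex.I ^ 2 - 1) * hI2
    · show Complex.I ^ 1 * (S.V 3 - v) + v + lv _ _ (0, 0) = S.V 3 ∧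
        Complex.I ^ 1 * (S.V 0 - v) + v + lv _ _ (0, 0) = S.V 2
      simp only [lv]
      push_cast
      rw [E0, E2, E3]
      constructor <;> ring
    · show Complex.I ^ 3 * (S.V 2 - v) + v + lv _ _ (0, 0) = S.V 0 ∧
        Complex.I ^ 3 * (S.V 3 - v) + v + lv _ _ (0, 0) = S.V 3
      simp only [lv]
      push_cast
      rw [E0, E2, E3]
      constructor
      · linear_combination a * hI4
      · ring
  · rw [x4f_sum, E0, E1, E2, E3]
    have h5 : (4 : ℝ) * (cr (v + a) (v + (1 + Complex.I) * a) +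
        cr (v + (1 + Complex.I) * a) (v + Complex.I * a) +
        cr (v + Complex.I * a) v + cr v (v + a)) =
        2 * cr (2 * a) (Complex.I * (2 * a)) := by
      simp only [cr, mul_re, mul_im, add_re, add_im, one_re, one_im, re_ofNat, im_ofNat, I_re,
        I_im]
      ring
    have h6 := congrArg abs h5
    rw [abs_mul, abs_mul] at h6
    rw [abs_of_pos (by norm_num : (0 : ℝ) < 4), abs_of_pos (by norm_num : (0 : ℝ) < 2)] at h6
    push_cast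
    exact h6

theorem x4_13 (hc : P.CCW) (S : Arcs P 4) (b : ZMod 4 → ℝ) (hb : S.ChordAng b) (h0 : S.Plus 0 1)
    (h1 : S.Plus 1 0) (h2 : S.Plus 2 3) (h3 : S.Plus 3 2) (e1 : 3 * b 1 = 1) (e3 : 3 * b 3 = 2)
    (e0 : b 0 + b 2 = 1) : HasPeriodic P := by
  have hr1 := x4f_rot1 S b hb h0
  have hr3 := x4f_rot3 S b hb h2
  rw [x4f_e13 e1] at hr1
  rw [x4f_e23 e3] at hr3
  obtain ⟨s, hs⟩ : ∃ s : ℝ, s = Real.sqrt 3 / 2 := ⟨_, rfl⟩
  rw [← hs] at hr1 hr3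
  have hss : s * s = 3 / 4 := by rw [hs]; exact x4f_s
  obtain ⟨ζ, hz⟩ : ∃ ζ : ℂ, ζ = ⟨1 / 2, s⟩ := ⟨_, rfl⟩
  have hωζ : (⟨-(1 / 2), s⟩ : ℂ) = ζ - 1 := by
    rw [hz]
    apply Complex.ext
    · simp
      norm_num
    · simp
  rw [← hz] at hr1
  rw [hωζ] at hr3
  obtain ⟨hζ2, hζ3, hζ6, hζ1⟩ := x4f_six hss hz
  have hζ2' : ζ ^ 2 = ((-1 : ℤ) : ℂ) + ((1 : ℤ) : ℂ) * ζ := by
    rw [hζ2]
    push_cast
    ring
  have hne : 2 - ζ ≠ 0 := by
    intro h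
    have h6 := congrArg Complex.re h
    rw [hz] at h6
    simp at h6
    norm_num at h6
  obtain ⟨v, hv⟩ : ∃ v : ℂ, v = S.V 1 := ⟨_, rfl⟩
  obtain ⟨a, ha⟩ : ∃ a : ℂ, a = S.V 2 - S.V 1 := ⟨_, rfl⟩
  have E1 : S.V 1 = v := hv.symm
  have E2 : S.V 2 = v + a := by rw [ha, hv]; ring
  have E0 : S.V 0 = v + ζ * a := by
    rw [ha, hv]
    linear_combination hr1
  have E3 : S.V 3 = v + 2 / 3 * (1 + ζ) * a := by
    apply mul_left_cancel₀ hne
    rw [E2, E0] at hr3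
    linear_combination -hr3 - (1 / 3) * a * hζ2
  refine rot_arc S hc (by norm_num) 6 (by norm_num) ζ (2 * (ζ * a)) v hζ1 hζ6
    (-1) 1 hζ2' ?_ (![1, 0, 3, 2] : Fin 4 → ZMod 4) (by decide) (![1, 5, 2, 4] : Fin 4 → ℕ)
    (by decide) (![(0, 0), (0, 0), (1, -1), (1, 0)] : Fin 4 → ℤ × ℤ) (by decide)
    (x4f_rel S h0 h1 h2 h3) ?_ ?_
  · rintro ⟨a, b⟩
    simp only [Function.iterate_succ, Function.iterate_zero, Function.comp, id, rmul]
    ext <;> simp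
  · intro j
    fin_cases j
    · show ζ ^ 1 * (S.V 1 - v) + v + lv _ _ (0, 0) = S.V 1 ∧
        ζ ^ 1 * (S.V 2 - v) + v + lv _ _ (0, 0) = S.V 0
      simp only [lv]
      push_cast
      rw [E0, E1, E2]
      constructor <;> ring
    · show ζ ^ 5 * (S.V 0 - v) + v + lv _ _ (0, 0) = S.V 2 ∧
        ζ ^ 5 * (S.V 1 - v) + v + lv _ _ (0, 0) = S.V 1
      simp only [lv]
      push_cast
      rw [E0, E1, E2]
      constructor
      · linear_combination a * hζ6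
      · ring
    · show ζ ^ 2 * (S.V 3 - v) + v + lv _ _ (1, -1) = S.V 3 ∧
        ζ ^ 2 * (S.V 0 - v) + v + lv _ _ (1, -1) = S.V 2
      simp only [lv]
      push_cast
      rw [E0, E2, E3]
      constructor
      · linear_combination (2 / 3) * a * hζ3 - (4 / 3) * a * hζ2
      · linear_combination a * hζ3 - 2 * a * hζ2
    · show ζ ^ 4 * (S.V 2 - v) + v + lv _ _ (1, 0) = S.V 0 ∧
        ζ ^ 4 * (S.V 3 - v) + v + lv _ _ (1, 0) = S.V 3
      simp only [lv]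
      push_cast
      rw [E0, E2, E3]
      constructor
      · linear_combination a * ζ * hζ3
      · linear_combination (2 / 3) * a * (ζ + ζ ^ 2) * hζ3 - (2 / 3) * a * hζ2
  · rw [x4f_sum, E0, E1, E2, E3, hz]
    have hre : ((2 : ℂ) / 3).re = 2 / 3 := by norm_num
    have him : ((2 : ℂ) / 3).im = 0 := by norm_num
    have h5 : (6 : ℝ) * (cr (v + ⟨1 / 2, s⟩ * a) v + cr v (v + a) +
        cr (v + a) (v + 2 / 3 * (1 + ⟨1 / 2, s⟩) * a) +
        cr (v + 2 / 3 * (1 + ⟨1 / 2, s⟩) * a) (v + ⟨1 / 2, s⟩ * a)) =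
        2 * cr (2 * (⟨1 / 2, s⟩ * a)) (⟨1 / 2, s⟩ * (2 * (⟨1 / 2, s⟩ * a))) := by
      simp only [cr, mul_re, mul_im, add_re, add_im, one_re, one_im, re_ofNat, im_ofNat, hre, him]
      linear_combination (-8 * s * (a.re * a.re + a.im * a.im)) * hss
    have h6 := congrArg abs h5
    rw [abs_mul, abs_mul] at h6
    rw [abs_of_pos (by norm_num : (0 : ℝ) < 6), abs_of_pos (by norm_num : (0 : ℝ) < 2)] at h6
    push_cast
    exact h6

end Pool.Agent.Lib_MP_fa6e45
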