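import Pool.Agent.Lib_MP_fa6e45.X1d
import Pool.Agent.Lib_MP_fa6e45.X1h
import Pool.Agent.Lib_MP_fa6e45.X2a

/-!
PIECE X5a (about 250 lines): pentagon (house) with arcs: `b 0 + b 1 = 1`, sides 4 and 1 straight, so
`ch 1 = - r ch 4` with `r > 0`; half turns on arcs 0, 2, 3. If `r = 1`: `p2_arc` (1, 4 by a translation). If `r < 1`: divide
arc 4 at `X = V4 - ch 1`; the segment `V4 X` and arc 1 by a translation, half turn on `X V0`: `p2_div`. If `r > 1`: divide
arc 1 at `X = V2 + ch 4`; `X V2` and arc 4 by a translation, half turn on `V1 X`. Compare `house` (L3c).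
-/

open Set MeasureTheory Complex
open scoped Topology

namespace Pool.Agent.Lib_MP_fa6e45

open Pool.Agent.Lib_PL (cr InSector Poly)

variable {n : ℕ} {P : Polygon n}

private theorem x5_all {Q : ZMod 5 → Prop} (h0 : Q 0) (h1 : Q 1) (h2 : Q 2) (h3 : Q 3)
    (h4 : Q 4) : ∀ j, Q j := by
  intro j
  have h : j = 0 ∨ j = 1 ∨ j = 2 ∨ j = 3 ∨ j = 4 := by
    revert j
    decide
  rcases h with rfl | rfl | rfl | rfl | rfl
  · exact h0
  · exact h1
  · exact h2
  · exact h3
  · exact h4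

private theorem x5_allo {Q : Option (ZMod 5) → Prop} (hn : Q none) (h0 : Q (some 0))
    (h1 : Q (some 1)) (h2 : Q (some 2)) (h3 : Q (some 3)) (h4 : Q (some 4)) : ∀ j, Q j := by
  intro j
  rcases j with _ | j
  · exact hn
  · exact x5_all (Q := fun j => Q (some j)) h0 h1 h2 h3 h4 j

/-! ### The combinatorial data -/

private def e0 (j : ZMod 5) : ZMod 5 := if j = 1 then 4 else if j = 4 then 1 else j

private def f0 (j : ZMod 5) : Bool := if j = 1 then false else if j = 4 then false else true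

private def c0 (j : ZMod 5) : ℤ × ℤ :=
  if j = 0 then (0, 0) else if j = 1 then (1, 0) else if j = 2 then (1, 1)
    else if j = 3 then (0, 1) else (-1, 0)

/-- division point on arc 4 -/
private def e1 (y : Option (ZMod 5)) : Option (ZMod 5) :=
  y.elim none fun j => some (e0 j)

private def f1 (y : Option (ZMod 5)) : Bool := y.elim true f0

private def c1 (y : Option (ZMod 5)) : ℤ × ℤ := y.elim (-1, 0) c0

/-- division point on arc 1 -/
private def e2 (y : Option (ZMod 5)) : Option (ZMod 5) :=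
  y.elim (some 4) fun j => if j = 4 then none else some j

private def f2 (y : Option (ZMod 5)) : Bool := y.elim false fun j => if j = 4 then false else true

private def c2 (y : Option (ZMod 5)) : ℤ × ℤ := y.elim (1, 0) c0

private theorem q41 : (4 : ZMod 5) + 1 = 0 := by decide
private theorem q31 : (3 : ZMod 5) + 1 = 4 := by decide
private theorem q21 : (2 : ZMod 5) + 1 = 3 := by decide
private theorem q11 : (1 : ZMod 5) + 1 = 2 := by decide
private theorem q01 : (0 : ZMod 5) + 1 = 1 := by decide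

/-- the area in terms of the lattice vectors -/
private theorem x5_area (S : Arcs P 5) (r : ℝ)
    (h : S.V 2 - S.V 1 = -((r : ℂ) * (S.V 0 - S.V 4))) :
    |∑ j, cr (S.V j) (S.V (j + 1))| =
      |cr (S.V 2 - S.V 4) (S.V 3 + S.V 4 - (S.V 0 + S.V 1))| := by
  have h1 := congrArg Complex.re h
  have h2 := congrArg Complex.im h
  simp only [sub_re, sub_im, neg_re, neg_im, mul_re, mul_im, ofReal_re, ofReal_im, zero_mul,
    sub_zero, add_zero] at h1 h2
  have h3 : ∑ j, cr (S.V j) (S.V (j + 1)) = cr (S.V 0) (S.V 1) + cr (S.V 1) (S.V 2) +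
      cr (S.V 2) (S.V 3) + cr (S.V 3) (S.V 4) + cr (S.V 4) (S.V 0) := by
    have h4 : ∑ j : ZMod 5, cr (S.V j) (S.V (j + 1)) =
        cr (S.V 0) (S.V (0 + 1)) + cr (S.V 1) (S.V (1 + 1)) + cr (S.V 2) (S.V (2 + 1)) +
        cr (S.V 3) (S.V (3 + 1)) + cr (S.V 4) (S.V (4 + 1)) :=
      Fin.sum_univ_five (fun j : ZMod 5 => cr (S.V j) (S.V (j + 1)))
    rw [h4, q01, q11, q21, q31, q41]
  rw [h3]
  congr 1
  simp only [cr, sub_re, sub_im, add_re, add_im]
  linear_combination ((S.V 0).im - (S.V 4).im) * h1 - ((S.V 0).re - (S.V 4).re) * h2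

/-- the chords 4 and 1 are parallel -/
private theorem x5_par (S : Arcs P 5) (b : ZMod 5 → ℝ) (hb : S.ChordAng b)
    (e1 : b 0 + b 1 = 1) :
    ∃ r : ℝ, 0 < r ∧ r = ‖S.ch 1‖ / ‖S.ch 4‖ ∧
      S.V 2 - S.V 1 = -((r : ℂ) * (S.V 0 - S.V 4)) := by
  have hn1 := S.ch_ne (by norm_num) 1
  have hn4 := S.ch_ne (by norm_num) 4
  have hn0 := S.ch_ne (by norm_num) 0
  have p1 : 0 < ‖S.ch 1‖ := norm_pos_iff.2 hn1
  have p4 : 0 < ‖S.ch 4‖ := norm_pos_iff.2 hn4
  have p0 : 0 < ‖S.ch 0‖ := norm_pos_iff.2 hn0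
  refine ⟨‖S.ch 1‖ / ‖S.ch 4‖, by positivity, rfl, ?_⟩
  have h0 := hb 0
  have h1 := hb 1
  have z0 : (0 : ZMod 5) - 1 = 4 := by decide
  have z1 : (1 : ZMod 5) - 1 = 0 := by decide
  rw [z0] at h0
  rw [z1] at h1
  have hch1 : S.V 2 - S.V 1 = S.ch 1 := by
    show _ = S.V (1 + 1) - S.V 1
    rw [q11]
  have hch4 : S.V 0 - S.V 4 = S.ch 4 := by
    show _ = S.V (4 + 1) - S.V 4
    rw [q41]
  rw [hch1, hch4]
  have hexp : exp (((Real.pi * (1 - b 0) : ℝ) : ℂ) * Complex.I) *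
      exp (((Real.pi * (1 - b 1) : ℝ) : ℂ) * Complex.I) = -1 := by
    rw [← Complex.exp_add]
    have h : ((Real.pi * (1 - b 0) : ℝ) : ℂ) * Complex.I +
        ((Real.pi * (1 - b 1) : ℝ) : ℂ) * Complex.I = (Real.pi : ℂ) * Complex.I := by
      have h2 : Real.pi * (1 - b 0) + Real.pi * (1 - b 1) = Real.pi := by
        linear_combination (-Real.pi) * e1
      rw [← add_mul, ← Complex.ofReal_add, h2]
    rw [h, Complex.exp_pi_mul_I]
  have hq : ((‖S.ch 0‖ / ‖S.ch 4‖ : ℝ) : ℂ) * ((‖S.ch 1‖ / ‖S.ch 0‖ : ℝ) : ℂ) =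
      ((‖S.ch 1‖ / ‖S.ch 4‖ : ℝ) : ℂ) := by
    rw [← Complex.ofReal_mul]
    congr 1
    field_simp
  calc S.ch 1 = S.ch 0 * ((‖S.ch 1‖ / ‖S.ch 0‖ : ℝ) : ℂ) *
        exp (((Real.pi * (1 - b 1) : ℝ) : ℂ) * Complex.I) := h1
    _ = (S.ch 4 * ((‖S.ch 0‖ / ‖S.ch 4‖ : ℝ) : ℂ) *
        exp (((Real.pi * (1 - b 0) : ℝ) : ℂ) * Complex.I)) * ((‖S.ch 1‖ / ‖S.ch 0‖ : ℝ) : ℂ) *
        exp (((Real.pi * (1 - b 1) : ℝ) : ℂ) * Complex.I) := by rw [← h0]
    _ = S.ch 4 * (((‖S.ch 0‖ / ‖S.ch 4‖ : ℝ) : ℂ) * ((‖S.ch 1‖ / ‖S.ch 0‖ : ℝ) : ℂ)) *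
        (exp (((Real.pi * (1 - b 0) : ℝ) : ℂ) * Complex.I) *
        exp (((Real.pi * (1 - b 1) : ℝ) : ℂ) * Complex.I)) := by ring
    _ = -(((‖S.ch 1‖ / ‖S.ch 4‖ : ℝ) : ℂ) * S.ch 4) := by
        rw [hexp, hq]
        ring

/-- a straight arc is a side -/
private theorem x5_len (S : Arcs P 5) (j : ZMod 5) (h : S.w j = 1) :
    P.len (S.κ j) = ‖S.ch j‖ := by
  have h1 : S.κ (j + 1) = S.κ j + 1 := by
    rw [S.step j, h, Nat.cast_one]
  show dist (P.vertex (S.κ j)) (P.vertex (S.κ j + 1)) = ‖P.vertex (S.κ (j + 1)) - P.vertex (S.κ j)‖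
  rw [h1, dist_comm, dist_eq_norm]

private theorem x5_plus (S : Arcs P 5) (j k : ZMod 5) (hj : S.w j = 1) (hk : S.w k = 1)
    (h : ‖S.ch j‖ = ‖S.ch k‖) : S.Plus j k := by
  refine ⟨by rw [hj, hk], ?_, ?_⟩
  · intro t s hts
    rw [hj] at hts
    have ht : t = 0 := by omega
    have hs : s = 0 := by omega
    rw [ht, hs, Nat.cast_zero, add_zero, add_zero, x5_len S j hj, x5_len S k hk, h]
  · intro t s ht hs hts
    rw [hj] at hts
    omega

private theorem x5_eq (hc : P.CCW) (S : Arcs P 5) (h4 : S.w 4 = 1)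
    (h1 : S.w 1 = 1) (h0 : S.Plus 0 0) (h2 : S.Plus 2 2) (h3 : S.Plus 3 3)
    (hr : ‖S.ch 1‖ = ‖S.ch 4‖)
    (h : S.V 2 - S.V 1 = -(((1 : ℝ) : ℂ) * (S.V 0 - S.V 4))) : HasPeriodic P := by
  rw [Complex.ofReal_one] at h
  refine p2_arc S hc (by norm_num) (S.V 0 + S.V 1) (S.V 2 - S.V 4)
    (S.V 3 + S.V 4 - (S.V 0 + S.V 1)) e0 (by decide) f0 (by decide) c0 (by decide) ?_ ?_ ?_
    (x5_area S 1 (by rw [Complex.ofReal_one]; exact h))
  · refine x5_all ?_ ?_ ?_ ?_ ?_
    · exact h0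
    · exact x5_plus S 1 4 h1 h4 hr
    · exact h2
    · exact h3
    · exact x5_plus S 4 1 h4 h1 hr.symm
  · refine x5_all ?_ ?_ ?_ ?_ ?_
    · intro _
      show _ + lv _ _ (0, 0) - S.V 0 = S.V (0 + 1) ∧ _ + lv _ _ (0, 0) - S.V (0 + 1) = S.V 0
      rw [q01]
      simp only [lv]
      push_cast
      constructor <;> ring
    · intro hy
      exact absurd hy (by decide)
    · intro _
      show _ + lv _ _ (1, 1) - S.V 2 = S.V (2 + 1) ∧ _ + lv _ _ (1, 1) - S.V (2 + 1) = S.V 2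
      rw [q21]
      simp only [lv]
      push_cast
      constructor <;> ring
    · intro _
      show _ + lv _ _ (0, 1) - S.V 3 = S.V (3 + 1) ∧ _ + lv _ _ (0, 1) - S.V (3 + 1) = S.V 3
      rw [q31]
      simp only [lv]
      push_cast
      constructor <;> ring
    · intro hy
      exact absurd hy (by decide)
  · refine x5_all ?_ ?_ ?_ ?_ ?_
    · intro hy
      exact absurd hy (by decide)
    · intro _
      show S.V 4 + lv _ _ (1, 0) = S.V (1 + 1) ∧ S.V (4 + 1) + lv _ _ (1, 0) = S.V 1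
      rw [q11, q41]
      simp only [lv]
      push_cast
      constructor
      · ring
      · linear_combination h
    · intro hy
      exact absurd hy (by decide)
    · intro hy
      exact absurd hy (by decide)
    · intro _
      show S.V 1 + lv _ _ (-1, 0) = S.V (4 + 1) ∧ S.V (1 + 1) + lv _ _ (-1, 0) = S.V 4
      rw [q11, q41]
      simp only [lv]
      push_cast
      constructor
      · linear_combination (-1 : ℂ) * h
      · ring

private theorem x5_lt (hc : P.CCW) (S : Arcs P 5) (h4 : S.w 4 = 1)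
    (h1 : S.w 1 = 1) (h0 : S.Plus 0 0) (h2 : S.Plus 2 2) (h3 : S.Plus 3 3)
    (r : ℝ) (hr0 : 0 < r) (hr1 : r < 1)
    (h : S.V 2 - S.V 1 = -((r : ℂ) * (S.V 0 - S.V 4))) : HasPeriodic P := by
  have hX : S.V 4 - (S.V 2 - S.V 1) ∈ openSegment ℝ (S.V 4) (S.V (4 + 1)) := by
    rw [q41, openSegment_eq_image']
    refine ⟨r, ⟨hr0, hr1⟩, ?_⟩
    simp only [Complex.real_smul]
    linear_combination h
  obtain ⟨E, hE⟩ : ∃ E : DivArcs P S, E = ⟨4, h4, S.V 4 - (S.V 2 - S.V 1), hX⟩ := ⟨_, rfl⟩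
  have hEe : E.e = 4 := by rw [hE]
  have hEX : E.X = S.V 4 - (S.V 2 - S.V 1) := by rw [hE]
  have hq : ∀ j, E.q (some j) = if j = E.e then E.X else S.V (j + 1) := fun _ => rfl
  have pn : E.p none = S.V 4 - (S.V 2 - S.V 1) := by rw [hE]; rfl
  have qn : E.q none = S.V 0 := by
    rw [hE]
    show S.V (4 + 1) = S.V 0
    rw [q41]
  have p0 : E.p (some 0) = S.V 0 := rfl
  have p1 : E.p (some 1) = S.V 1 := rfl
  have p2 : E.p (some 2) = S.V 2 := rfl
  have p3 : E.p (some 3) = S.V 3 := rfl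
  have p4 : E.p (some 4) = S.V 4 := rfl
  have q0 : E.q (some 0) = S.V 1 := by
    rw [hq, hEe, if_neg (by decide), q01]
  have q1 : E.q (some 1) = S.V 2 := by
    rw [hq, hEe, if_neg (by decide), q11]
  have q2 : E.q (some 2) = S.V 3 := by
    rw [hq, hEe, if_neg (by decide), q21]
  have q3 : E.q (some 3) = S.V 4 := by
    rw [hq, hEe, if_neg (by decide), q31]
  have q4 : E.q (some 4) = S.V 4 - (S.V 2 - S.V 1) := by
    rw [hq, hEe, if_pos rfl, hEX]
  refine p2_div S hc (by norm_num) E (S.V 0 + S.V 1) (S.V 2 - S.V 4)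
    (S.V 3 + S.V 4 - (S.V 0 + S.V 1)) e1 (by decide) f1 (by decide) c1 (by decide) ?_ ?_ ?_
    (x5_area S r h)
  · refine x5_allo ?_ ?_ ?_ ?_ ?_ ?_
    · exact Or.inl ⟨trivial, trivial⟩
    · exact Or.inr ⟨0, 0, rfl, rfl, by rw [hEe]; decide, by rw [hEe]; decide, h0⟩
    · exact Or.inl ⟨h1, h4⟩
    · exact Or.inr ⟨2, 2, rfl, rfl, by rw [hEe]; decide, by rw [hEe]; decide, h2⟩
    · exact Or.inr ⟨3, 3, rfl, rfl, by rw [hEe]; decide, by rw [hEe]; decide, h3⟩
    · exact Or.inl ⟨h4, h1⟩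
  · refine x5_allo ?_ ?_ ?_ ?_ ?_ ?_
    · intro _
      show _ + lv _ _ (-1, 0) - E.p none = E.q none ∧ _ + lv _ _ (-1, 0) - E.q none = E.p none
      rw [pn, qn]
      simp only [lv]
      push_cast
      constructor <;> ring
    · intro _
      show _ + lv _ _ (0, 0) - E.p (some 0) = E.q (some 0) ∧
        _ + lv _ _ (0, 0) - E.q (some 0) = E.p (some 0)
      rw [p0, q0]
      simp only [lv]
      push_cast
      constructor <;> ring
    · intro hy
      exact absurd hy (by decide)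
    · intro _
      show _ + lv _ _ (1, 1) - E.p (some 2) = E.q (some 2) ∧
        _ + lv _ _ (1, 1) - E.q (some 2) = E.p (some 2)
      rw [p2, q2]
      simp only [lv]
      push_cast
      constructor <;> ring
    · intro _
      show _ + lv _ _ (0, 1) - E.p (some 3) = E.q (some 3) ∧
        _ + lv _ _ (0, 1) - E.q (some 3) = E.p (some 3)
      rw [p3, q3]
      simp only [lv]
      push_cast
      constructor <;> ring
    · intro hy
      exact absurd hy (by decide)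
  · refine x5_allo ?_ ?_ ?_ ?_ ?_ ?_
    · intro hy
      exact absurd hy (by decide)
    · intro hy
      exact absurd hy (by decide)
    · intro _
      show E.p (some 4) + lv _ _ (1, 0) = E.q (some 1) ∧
        E.q (some 4) + lv _ _ (1, 0) = E.p (some 1)
      rw [p4, q4, p1, q1]
      simp only [lv]
      push_cast
      constructor <;> ring
    · intro hy
      exact absurd hy (by decide)
    · intro hy
      exact absurd hy (by decide)
    · intro _
      show E.p (some 1) + lv _ _ (-1, 0) = E.q (some 4) ∧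
        E.q (some 1) + lv _ _ (-1, 0) = E.p (some 4)
      rw [p4, q4, p1, q1]
      simp only [lv]
      push_cast
      constructor <;> ring

private theorem x5_gt (hc : P.CCW) (S : Arcs P 5) (h4 : S.w 4 = 1)
    (h1 : S.w 1 = 1) (h0 : S.Plus 0 0) (h2 : S.Plus 2 2) (h3 : S.Plus 3 3)
    (r : ℝ) (hr1 : 1 < r)
    (h : S.V 2 - S.V 1 = -((r : ℂ) * (S.V 0 - S.V 4))) : HasPeriodic P := by
  have hX : S.V 2 + (S.V 0 - S.V 4) ∈ openSegment ℝ (S.V 1) (S.V (1 + 1)) := by
    rw [q11, openSegment_eq_image']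
    have hr0 : (r : ℂ) ≠ 0 := by
      have : r ≠ 0 := by linarith
      exact_mod_cast this
    have hpos : 0 < 1 / r := by
      have : 0 < r := by linarith
      positivity
    refine ⟨1 - 1 / r, ⟨?_, ?_⟩, ?_⟩
    · rw [sub_pos, div_lt_one (by linarith)]
      exact hr1
    · linarith
    · simp only [Complex.real_smul]
      push_cast
      field_simp
      linear_combination (-1 : ℂ) * h
  obtain ⟨E, hE⟩ : ∃ E : DivArcs P S, E = ⟨1, h1, S.V 2 + (S.V 0 - S.V 4), hX⟩ := ⟨_, rfl⟩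
  have hEe : E.e = 1 := by rw [hE]
  have hEX : E.X = S.V 2 + (S.V 0 - S.V 4) := by rw [hE]
  have hq : ∀ j, E.q (some j) = if j = E.e then E.X else S.V (j + 1) := fun _ => rfl
  have pn : E.p none = S.V 2 + (S.V 0 - S.V 4) := by rw [hE]; rfl
  have qn : E.q none = S.V 2 := by
    rw [hE]
    show S.V (1 + 1) = S.V 2
    rw [q11]
  have p0 : E.p (some 0) = S.V 0 := rfl
  have p1 : E.p (some 1) = S.V 1 := rfl
  have p2 : E.p (some 2) = S.V 2 := rfl
  have p3 : E.p (some 3) = S.V 3 := rfl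
  have p4 : E.p (some 4) = S.V 4 := rfl
  have q0 : E.q (some 0) = S.V 1 := by
    rw [hq, hEe, if_neg (by decide), q01]
  have q1 : E.q (some 1) = S.V 2 + (S.V 0 - S.V 4) := by
    rw [hq, hEe, if_pos rfl, hEX]
  have q2 : E.q (some 2) = S.V 3 := by
    rw [hq, hEe, if_neg (by decide), q21]
  have q3 : E.q (some 3) = S.V 4 := by
    rw [hq, hEe, if_neg (by decide), q31]
  have q4 : E.q (some 4) = S.V 0 := by
    rw [hq, hEe, if_neg (by decide), q41]
  refine p2_div S hc (by norm_num) E (S.V 0 + S.V 1) (S.V 2 - S.V 4)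
    (S.V 3 + S.V 4 - (S.V 0 + S.V 1)) e2 (by decide) f2 (by decide) c2 (by decide) ?_ ?_ ?_
    (x5_area S r h)
  · refine x5_allo ?_ ?_ ?_ ?_ ?_ ?_
    · exact Or.inl ⟨trivial, h4⟩
    · exact Or.inr ⟨0, 0, rfl, rfl, by rw [hEe]; decide, by rw [hEe]; decide, h0⟩
    · exact Or.inl ⟨h1, h1⟩
    · exact Or.inr ⟨2, 2, rfl, rfl, by rw [hEe]; decide, by rw [hEe]; decide, h2⟩
    · exact Or.inr ⟨3, 3, rfl, rfl, by rw [hEe]; decide, by rw [hEe]; decide, h3⟩
    · exact Or.inl ⟨h4, trivial⟩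
  · refine x5_allo ?_ ?_ ?_ ?_ ?_ ?_
    · intro hy
      exact absurd hy (by decide)
    · intro _
      show _ + lv _ _ (0, 0) - E.p (some 0) = E.q (some 0) ∧
        _ + lv _ _ (0, 0) - E.q (some 0) = E.p (some 0)
      rw [p0, q0]
      simp only [lv]
      push_cast
      constructor <;> ring
    · intro _
      show _ + lv _ _ (1, 0) - E.p (some 1) = E.q (some 1) ∧
        _ + lv _ _ (1, 0) - E.q (some 1) = E.p (some 1)
      rw [p1, q1]
      simp only [lv]
      push_cast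
      constructor <;> ring
    · intro _
      show _ + lv _ _ (1, 1) - E.p (some 2) = E.q (some 2) ∧
        _ + lv _ _ (1, 1) - E.q (some 2) = E.p (some 2)
      rw [p2, q2]
      simp only [lv]
      push_cast
      constructor <;> ring
    · intro _
      show _ + lv _ _ (0, 1) - E.p (some 3) = E.q (some 3) ∧
        _ + lv _ _ (0, 1) - E.q (some 3) = E.p (some 3)
      rw [p3, q3]
      simp only [lv]
      push_cast
      constructor <;> ring
    · intro hy
      exact absurd hy (by decide)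
  · refine x5_allo ?_ ?_ ?_ ?_ ?_ ?_
    · intro _
      show E.p (some 4) + lv _ _ (1, 0) = E.q none ∧
        E.q (some 4) + lv _ _ (1, 0) = E.p none
      rw [p4, q4, pn, qn]
      simp only [lv]
      push_cast
      constructor <;> ring
    · intro hy
      exact absurd hy (by decide)
    · intro hy
      exact absurd hy (by decide)
    · intro hy
      exact absurd hy (by decide)
    · intro hy
      exact absurd hy (by decide)
    · intro _
      show E.p none + lv _ _ (-1, 0) = E.q (some 4) ∧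
        E.q none + lv _ _ (-1, 0) = E.p (some 4)
      rw [p4, q4, pn, qn]
      simp only [lv]
      push_cast
      constructor <;> ring

theorem x5_0 (hc : P.CCW) (S : Arcs P 5) (b : ZMod 5 → ℝ) (hb : S.ChordAng b) (h4 : S.w 4 = 1)
    (h1 : S.w 1 = 1) (h0 : S.Plus 0 0) (h2 : S.Plus 2 2) (h3 : S.Plus 3 3) (e1 : b 0 + b 1 = 1) :
    HasPeriodic P := by
  obtain ⟨r, hr0, hr, h⟩ := x5_par S b hb e1
  rcases lt_trichotomy r 1 with hr1 | hr1 | hr1
  · exact x5_lt hc S h4 h1 h0 h2 h3 r hr0 hr1 h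
  · refine x5_eq hc S h4 h1 h0 h2 h3 ?_ (by rw [hr1] at h; exact h)
    have hn4 := S.ch_ne (by norm_num) 4
    have p4 : 0 < ‖S.ch 4‖ := norm_pos_iff.2 hn4
    rw [hr1, eq_div_iff p4.ne', one_mul] at hr
    exact hr.symm
  · exact x5_gt hc S h4 h1 h0 h2 h3 r hr1 h

end Pool.Agent.Lib_MP_fa6e45
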