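import Pool.Agent.Lib_MP_fa6e45.X1d
import Pool.Agent.Lib_MP_fa6e45.X1g
import Pool.Agent.Lib_MP_fa6e45.X2a

/-!
PIECE X5b (about 200 lines): pentagons with arcs. `x5_1` (T C T C C): `ch 2 = - ch 0` (`par2`), `p2_arc`.
`x5_3` (G G T C T): `ch 4 = - ch 2` (`par2`), glide between the adjacent arcs 0, 1, half turn on arc 3: `pgg_arc`
(`κ = 0` on arcs 2, 4).
-/

open Set MeasureTheory Complex
open scoped Topology

namespace Pool.Agent.Lib_MP_fa6e45

open Pool.Agent.Lib_PL (cr InSector Poly)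

variable {n : ℕ} {P : Polygon n}

private theorem X5b_sum5 (f : ZMod 5 → ℝ) : ∑ i, f i = f 0 + f 1 + f 2 + f 3 + f 4 :=
  Fin.sum_univ_five f

private theorem X5b_all {p : ZMod 5 → Prop} (h0 : p 0) (h1 : p 1) (h2 : p 2) (h3 : p 3)
    (h4 : p 4) : ∀ j, p j := by
  intro j
  fin_cases j
  · exact h0
  · exact h1
  · exact h2
  · exact h3
  · exact h4

private theorem X5b_lv (u w : ℂ) (a b : ℤ) : lv u w (a, b) = (a : ℂ) * u + (b : ℂ) * w := rfl

private theorem X5b_conj (A x y : ℂ) (hAA : A * (starRingEnd ℂ) A = 1)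
    (h : x = A * (starRingEnd ℂ) y) : y = A * (starRingEnd ℂ) x := by
  rw [h, map_mul, Complex.conj_conj]
  linear_combination (-y) * hAA

private theorem X5b_norm (A : ℂ) (hA : ‖A‖ = 1) :
    A * (starRingEnd ℂ) A = 1 ∧ A.re ^ 2 + A.im ^ 2 = 1 := by
  constructor
  · rw [Complex.mul_conj, Complex.normSq_eq_norm_sq, hA]
    simp
  · have h1 := Complex.sq_norm A
    rw [hA, Complex.normSq_apply] at h1
    nlinarith

theorem x5_1 (hc : P.CCW) (S : Arcs P 5) (b : ZMod 5 → ℝ) (hb : S.ChordAng b) (h0 : S.Plus 0 2)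
    (h2 : S.Plus 2 0) (h1 : S.Plus 1 1) (h3 : S.Plus 3 3) (h4 : S.Plus 4 4) (e1 : b 1 + b 2 = 1) :
    HasPeriodic P := by
  have hp : S.ch 2 = -S.ch 0 :=
    hb.par2 (by norm_num) 0 (S.norm_plus h0) e1
  have h5 : S.V 3 = S.V 2 - S.V 1 + S.V 0 := by
    have h6 : S.V 3 - S.V 2 = -(S.V 1 - S.V 0) := hp
    linear_combination h6
  obtain ⟨u, hu⟩ : ∃ u, u = S.V 1 - S.V 2 := ⟨_, rfl⟩
  obtain ⟨w, hw⟩ : ∃ w, w = S.V 3 + S.V 4 - S.V 1 - S.V 2 := ⟨_, rfl⟩
  refine p2_arc S hc (by norm_num) (S.V 1 + S.V 2) u w ![2, 1, 0, 3, 4] (by decide)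
    ![false, true, false, true, true] (by decide) ![(1, 0), (0, 0), (-1, 0), (0, 1), (1, 1)]
    (by decide) (X5b_all h0 h1 h2 h3 h4) ?_ ?_ ?_
  · refine X5b_all (fun h => absurd h (by decide)) (fun _ => ?_) (fun h => absurd h (by decide))
      (fun _ => ?_) (fun _ => ?_)
    · show S.V 1 + S.V 2 + lv u w (0, 0) - S.V 1 = S.V 2 ∧
        S.V 1 + S.V 2 + lv u w (0, 0) - S.V 2 = S.V 1
      rw [X5b_lv]
      constructor <;> push_cast <;> ring
    · show S.V 1 + S.V 2 + lv u w (0, 1) - S.V 3 = S.V 4 ∧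
        S.V 1 + S.V 2 + lv u w (0, 1) - S.V 4 = S.V 3
      rw [X5b_lv, hw]
      constructor <;> push_cast <;> ring
    · show S.V 1 + S.V 2 + lv u w (1, 1) - S.V 4 = S.V 0 ∧
        S.V 1 + S.V 2 + lv u w (1, 1) - S.V 0 = S.V 4
      rw [X5b_lv, hw, hu, h5]
      constructor <;> push_cast <;> ring
  · refine X5b_all (fun _ => ?_) (fun h => absurd h (by decide)) (fun _ => ?_)
      (fun h => absurd h (by decide)) (fun h => absurd h (by decide))
    · show S.V 2 + lv u w (1, 0) = S.V 1 ∧ S.V 3 + lv u w (1, 0) = S.V 0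
      rw [X5b_lv, hu, h5]
      constructor <;> push_cast <;> ring
    · show S.V 0 + lv u w (-1, 0) = S.V 3 ∧ S.V 1 + lv u w (-1, 0) = S.V 2
      rw [X5b_lv, hu, h5]
      constructor <;> push_cast <;> ring
  · rw [X5b_sum5]
    show |cr (S.V 0) (S.V 1) + cr (S.V 1) (S.V 2) + cr (S.V 2) (S.V 3) + cr (S.V 3) (S.V 4) +
      cr (S.V 4) (S.V 0)| = |cr u w|
    rw [hu, hw, h5, ← abs_neg (cr (S.V 1 - S.V 2) _)]
    congr 1
    unfold cr
    simp only [sub_re, sub_im, add_re, add_im]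
    ring

private theorem X5b_area (A a b c d : ℂ) (hAA : A * (starRingEnd ℂ) A = 1)
    (hN : A.re ^ 2 + A.im ^ 2 = 1) (k : b - a = A * (starRingEnd ℂ) (c - b))
    (k' : c - b = A * (starRingEnd ℂ) (b - a)) :
    2 * (cr a b + cr b c + cr c d + cr d (d - c + a) + cr (d - c + a) a) =
      cr (a - A * (starRingEnd ℂ) b + A * (starRingEnd ℂ) (a - A * (starRingEnd ℂ) b))
        (A * (starRingEnd ℂ) (d + (d - c + a) - (a - A * (starRingEnd ℂ) b)) -
          A * (starRingEnd ℂ) (A * (starRingEnd ℂ) (d + (d - c + a) - (a - A * (starRingEnd ℂ) b))))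
      := by
  have hcr : ∀ x y : ℂ, cr (A * (starRingEnd ℂ) x) (A * (starRingEnd ℂ) y) = -cr x y := by
    intro x y
    unfold cr
    simp only [mul_re, mul_im, conj_re, conj_im]
    linear_combination (x.im * y.re - x.re * y.im) * hN
  have hLL : ∀ x : ℂ, A * (starRingEnd ℂ) (A * (starRingEnd ℂ) x) = x := by
    intro x
    rw [map_mul, Complex.conj_conj]
    linear_combination x * hAA
  have hu : a - A * (starRingEnd ℂ) b + A * (starRingEnd ℂ) (a - A * (starRingEnd ℂ) b) =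
      a - c := by
    rw [map_sub, mul_sub, hLL]
    rw [map_sub] at k'
    linear_combination k'
  have hLu : A * (starRingEnd ℂ) (a - c) = a - c := by
    rw [map_sub] at k k' ⊢
    linear_combination k + k'
  obtain ⟨X, hX⟩ : ∃ X, X = d + (d - c + a) - (a - A * (starRingEnd ℂ) b) := ⟨_, rfl⟩
  rw [hu, ← hX, hLL]
  have h1 : cr (a - c) (A * (starRingEnd ℂ) X) = -cr (a - c) X := by
    rw [← hcr, hLu]
  have h2 : cr (a - c) (A * (starRingEnd ℂ) b) = -cr (a - c) b := by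
    rw [← hcr, hLu]
  have h3 : cr (a - c) X = cr (a - c) (d + d - c) + cr (a - c) (A * (starRingEnd ℂ) b) := by
    rw [hX]
    generalize A * (starRingEnd ℂ) b = Y
    unfold cr
    simp only [sub_re, sub_im, add_re, add_im]
    ring
  have h4 : cr (a - c) (A * (starRingEnd ℂ) X - X) =
      cr (a - c) (A * (starRingEnd ℂ) X) - cr (a - c) X := by
    generalize A * (starRingEnd ℂ) X = Y
    unfold cr
    simp only [sub_re, sub_im]
    ring
  rw [h4, h1, h3, h2]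
  unfold cr
  simp only [sub_re, sub_im, add_re, add_im]
  ring

theorem x5_3 (hc : P.CCW) (S : Arcs P 5) (b : ZMod 5 → ℝ) (hb : S.ChordAng b) (h0 : S.Minus 0 1)
    (h1 : S.Minus 1 0) (h2 : S.Plus 2 4) (h4 : S.Plus 4 2) (h3 : S.Plus 3 3) (e1 : b 3 + b 4 = 1) :
    HasPeriodic P := by
  have hp : S.ch 4 = -S.ch 2 :=
    hb.par2 (by norm_num) 2 (S.norm_plus h2) e1
  have h5 : S.V 4 = S.V 3 - S.V 2 + S.V 0 := by
    have h6 : S.V 0 - S.V 4 = -(S.V 3 - S.V 2) := hp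
    linear_combination -h6
  have hne : S.ch 1 ≠ 0 := S.ch_ne (by norm_num) 1
  have hne' : (starRingEnd ℂ) (S.ch 1) ≠ 0 := by
    rwa [Ne, map_eq_zero]
  obtain ⟨A, hA⟩ : ∃ A, A = S.ch 0 / (starRingEnd ℂ) (S.ch 1) := ⟨_, rfl⟩
  have hA1 : ‖A‖ = 1 := by
    rw [hA, norm_div, RCLike.norm_conj, S.norm_minus h0, div_self]
    rwa [Ne, norm_eq_zero]
  obtain ⟨hAA, hN⟩ := X5b_norm A hA1
  have k0 : S.V 1 - S.V 0 = A * (starRingEnd ℂ) (S.V 2 - S.V 1) := by
    show S.ch 0 = A * (starRingEnd ℂ) (S.ch 1)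
    rw [hA, div_mul_cancel₀ _ hne']
  have k1 : S.V 2 - S.V 1 = A * (starRingEnd ℂ) (S.V 1 - S.V 0) := X5b_conj A _ _ hAA k0
  have hAr := X5b_area A (S.V 0) (S.V 1) (S.V 2) (S.V 3) hAA hN k0 k1
  obtain ⟨s, hs⟩ : ∃ s, s = S.V 0 - A * (starRingEnd ℂ) (S.V 1) := ⟨_, rfl⟩
  obtain ⟨t, ht⟩ : ∃ t, t = A * (starRingEnd ℂ) (S.V 3 + S.V 4 - s) := ⟨_, rfl⟩
  obtain ⟨u, hu⟩ : ∃ u, u = s + A * (starRingEnd ℂ) s := ⟨_, rfl⟩
  obtain ⟨w, hw⟩ : ∃ w, w = t - A * (starRingEnd ℂ) t := ⟨_, rfl⟩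
  -- `α V 1 = V 0`, `α V 2 = V 1`, `α α = translation by u`
  have a1 : A * (starRingEnd ℂ) (S.V 1) + s = S.V 0 := by
    rw [hs]
    ring
  have a2 : A * (starRingEnd ℂ) (S.V 2) + s = S.V 1 := by
    rw [map_sub] at k0
    linear_combination a1 - k0
  have a3 : A * (starRingEnd ℂ) (S.V 0) + s = S.V 1 + u := by
    rw [← a1, map_add, map_mul, Complex.conj_conj, hu]
    linear_combination S.V 1 * hAA
  have a4 : S.V 0 = S.V 2 + u := by
    rw [map_sub] at k1
    linear_combination -k1 - a1 + a3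
  have a5 : s + A * (starRingEnd ℂ) t = S.V 3 + S.V 4 := by
    rw [ht, map_mul, Complex.conj_conj]
    linear_combination (S.V 3 + S.V 4 - s) * hAA
  refine pgg_arc S hc (by norm_num) A s t hA1
    ![1, 0, 4, 3, 2] (by decide) ![2, 2, 0, 1, 0] (by decide)
    ![(0, 0), (-1, 0), (-1, 0), (0, 0), (1, 0)] (by decide) (X5b_all h0 h1 h2 h3 h4) ?_ ?_
  · rw [← hu, ← hw]
    refine X5b_all ?_ ?_ ?_ ?_ ?_
    · show A * (starRingEnd ℂ) (S.V 1) + s + lv u w (0, 0) = S.V 0 ∧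
        A * (starRingEnd ℂ) (S.V 2) + s + lv u w (0, 0) = S.V 1
      rw [X5b_lv, a1, a2]
      constructor <;> push_cast <;> ring
    · show A * (starRingEnd ℂ) (S.V 0) + s + lv u w (-1, 0) = S.V 1 ∧
        A * (starRingEnd ℂ) (S.V 1) + s + lv u w (-1, 0) = S.V 2
      rw [X5b_lv, a1, a3]
      constructor
      · push_cast
        ring
      · push_cast
        linear_combination a4
    · show S.V 4 + lv u w (-1, 0) = S.V 3 ∧ S.V 0 + lv u w (-1, 0) = S.V 2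
      rw [X5b_lv]
      constructor
      · push_cast
        linear_combination h5 + a4
      · push_cast
        linear_combination a4
    · show -(S.V 3) + (s + A * (starRingEnd ℂ) t) + lv u w (0, 0) = S.V 4 ∧
        -(S.V 4) + (s + A * (starRingEnd ℂ) t) + lv u w (0, 0) = S.V 3
      rw [X5b_lv, a5]
      constructor <;> push_cast <;> ring
    · show S.V 2 + lv u w (1, 0) = S.V 0 ∧ S.V 3 + lv u w (1, 0) = S.V 4
      rw [X5b_lv]
      constructor
      · push_cast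
        linear_combination -a4
      · push_cast
        linear_combination -h5 - a4
  · rw [X5b_sum5]
    show 2 * |cr (S.V 0) (S.V 1) + cr (S.V 1) (S.V 2) + cr (S.V 2) (S.V 3) + cr (S.V 3) (S.V 4) +
      cr (S.V 4) (S.V 0)| = |cr (s + A * (starRingEnd ℂ) s) (t - A * (starRingEnd ℂ) t)|
    rw [← h5, ← hs, ← ht] at hAr
    rw [← hAr, abs_mul, abs_two]

end Pool.Agent.Lib_MP_fa6e45
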