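import Pool.Agent.Lib_MP_fa6e45.X1g
import Pool.Agent.Lib_MP_fa6e45.X2a

/-!
PIECE X5c (about 120 lines): pentagon with arcs, C G1 G2 G1 G2: `ChordAng.glide` (`b 1 + b 3 = 1`) and `pgg_arc`
as in `critA` (V7a).
-/

open Set MeasureTheory Complex
open scoped Topology

namespace Pool.Agent.Lib_MP_fa6e45

open Pool.Agent.Lib_PL (cr InSector Poly)

variable {n : ℕ} {P : Polygon n}

private theorem X5c_conj (A x y : ℂ) (hAA : A * (starRingEnd ℂ) A = 1)
    (h : x = A * (starRingEnd ℂ) y) : y = A * (starRingEnd ℂ) x := by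
  rw [h, map_mul, Complex.conj_conj]
  linear_combination (-y) * hAA

private theorem X5c_area5 (A a b c : ℂ) (hN : A.re ^ 2 + A.im ^ 2 = 1) :
    2 * (cr a b + cr b c + cr c (c + A * (starRingEnd ℂ) (b - a)) +
      cr (c + A * (starRingEnd ℂ) (b - a))
        (c + A * (starRingEnd ℂ) (b - a) - A * (starRingEnd ℂ) (c - b)) +
      cr (c + A * (starRingEnd ℂ) (b - a) - A * (starRingEnd ℂ) (c - b)) a) =
    cr ((a - A * (starRingEnd ℂ) c) + A * (starRingEnd ℂ) (a - A * (starRingEnd ℂ) c))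
      ((b + A * (starRingEnd ℂ) (c + A * (starRingEnd ℂ) (b - a))) -
        A * (starRingEnd ℂ) (b + A * (starRingEnd ℂ) (c + A * (starRingEnd ℂ) (b - a)))) := by
  unfold cr
  simp only [add_re, add_im, sub_re, sub_im, mul_re, mul_im, conj_re, conj_im]
  linear_combination (4 * a.im * a.re * A.re - 2 * a.im * b.im * A.im + a.im * b.re - 2 * a.im * b.re * A.re +
      a.im * b.re * A.re ^ 2 + a.im * b.re * A.im ^ 2 - a.im * c.im * A.re ^ 2 * A.im - a.im *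
      c.im * A.im - a.im * c.im * A.im ^ 3 - 2 * a.im * c.re - a.im * c.re * A.re - a.im * c.re
      * A.re * A.im ^ 2 - 2 * a.im * c.re * A.re ^ 2 - a.im * c.re * A.re ^ 3 - 2 * a.im * c.re
      * A.im ^ 2 + 2 * a.im ^ 2 * A.im - a.re * b.im - 2 * a.re * b.im * A.re - a.re * b.im *
      A.re ^ 2 - a.re * b.im * A.im ^ 2 + 2 * a.re * b.re * A.im + 2 * a.re * c.im - a.re * c.im
      * A.re - a.re * c.im * A.re * A.im ^ 2 + 2 * a.re * c.im * A.re ^ 2 - a.re * c.im * A.re ^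
      3 + 2 * a.re * c.im * A.im ^ 2 + a.re * c.re * A.re ^ 2 * A.im + a.re * c.re * A.im + a.re
      * c.re * A.im ^ 3 - 2 * a.re ^ 2 * A.im + b.im * c.im * A.re ^ 2 * A.im + 3 * b.im * c.im
      * A.im + b.im * c.im * A.im ^ 3 + 2 * b.im * c.re + 3 * b.im * c.re * A.re + b.im * c.re *
      A.re * A.im ^ 2 + 2 * b.im * c.re * A.re ^ 2 + b.im * c.re * A.re ^ 3 + 2 * b.im * c.re *
      A.im ^ 2 - 2 * b.re * c.im + 3 * b.re * c.im * A.re + b.re * c.im * A.re * A.im ^ 2 - 2 *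
      b.re * c.im * A.re ^ 2 + b.re * c.im * A.re ^ 3 - 2 * b.re * c.im * A.im ^ 2 - b.re * c.re
      * A.re ^ 2 * A.im - 3 * b.re * c.re * A.im - b.re * c.re * A.im ^ 3 - 4 * c.im * c.re *
      A.re - 2 * c.im ^ 2 * A.im + 2 * c.re ^ 2 * A.im) * hN

private theorem X5c_sum5 (f : ZMod 5 → ℝ) : ∑ i, f i = f 0 + f 1 + f 2 + f 3 + f 4 :=
  Fin.sum_univ_five f

private theorem X5c_norm (A : ℂ) (hA : ‖A‖ = 1) :
    A * (starRingEnd ℂ) A = 1 ∧ A.re ^ 2 + A.im ^ 2 = 1 := by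
  constructor
  · rw [Complex.mul_conj, Complex.normSq_eq_norm_sq, hA]
    simp
  · have h1 := Complex.sq_norm A
    rw [hA, Complex.normSq_apply] at h1
    nlinarith

theorem x5_2 (hc : P.CCW) (S : Arcs P 5) (b : ZMod 5 → ℝ) (hb : S.ChordAng b) (h0 : S.Minus 0 2)
    (h2 : S.Minus 2 0) (h1 : S.Minus 1 3) (h3 : S.Minus 3 1) (h4 : S.Plus 4 4)
    (e1 : b 1 + b 3 = 1) : HasPeriodic P := by
  have hm : (2 : ℕ) ≤ 5 := by norm_num
  have d1 : (0 : ZMod 5) + 1 = 1 := rfl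
  have d2 : (1 : ZMod 5) + 1 = 2 := rfl
  have d3 : (2 : ZMod 5) + 1 = 3 := rfl
  have d4 : (3 : ZMod 5) + 1 = 4 := rfl
  have d5 : (4 : ZMod 5) + 1 = 0 := rfl
  obtain ⟨A, hA, g0, g1⟩ := hb.glide hm 0 2 (S.norm_minus h0)
    (by rw [d1, d3]; exact S.norm_minus h1) (by rw [d1, d3]; exact e1)
  rw [d1, d3] at g1
  obtain ⟨hAA, hN⟩ := X5c_norm A hA
  unfold Arcs.ch at g0 g1
  rw [d1, d3] at g0
  rw [d2, d4] at g1
  have k3' : S.V 3 = S.V 2 + A * (starRingEnd ℂ) (S.V 1 - S.V 0) := by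
    have := X5c_conj A _ _ hAA g0
    linear_combination this
  have k4' : S.V 4 = S.V 3 - A * (starRingEnd ℂ) (S.V 2 - S.V 1) := by
    have := X5c_conj A (S.V 2 - S.V 1) (-(S.V 4 - S.V 3)) hAA (by
      rw [g1, map_neg]
      ring)
    linear_combination -this
  have hAr : 2 * (volume P.region).toReal = ∑ j, cr (S.V j) (S.V (j + 1)) := by
    refine S.area hc hm ![2, 3, 0, 1, 4] (by decide) ?_
    intro j
    right
    fin_cases j
    · exact ⟨false, h0⟩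
    · exact ⟨false, h1⟩
    · exact ⟨false, h2⟩
    · exact ⟨false, h3⟩
    · exact ⟨true, h4⟩
  have hpos : 0 ≤ ∑ j, cr (S.V j) (S.V (j + 1)) := by
    rw [← hAr]
    positivity
  have hA2 : 2 * |∑ j, cr (S.V j) (S.V (j + 1))| =
      |cr ((S.V 0 - A * (starRingEnd ℂ) (S.V 2)) +
          A * (starRingEnd ℂ) (S.V 0 - A * (starRingEnd ℂ) (S.V 2)))
        ((S.V 1 + A * (starRingEnd ℂ) (S.V 3)) -
          A * (starRingEnd ℂ) (S.V 1 + A * (starRingEnd ℂ) (S.V 3)))| := by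
    have hcr : 2 * ∑ j, cr (S.V j) (S.V (j + 1)) =
        cr ((S.V 0 - A * (starRingEnd ℂ) (S.V 2)) +
            A * (starRingEnd ℂ) (S.V 0 - A * (starRingEnd ℂ) (S.V 2)))
          ((S.V 1 + A * (starRingEnd ℂ) (S.V 3)) -
            A * (starRingEnd ℂ) (S.V 1 + A * (starRingEnd ℂ) (S.V 3))) := by
      rw [X5c_sum5, d1, d2, d3, d4, d5, k4', k3', ← X5c_area5 A _ _ _ hN]
    rw [abs_of_nonneg hpos, ← hcr, abs_of_nonneg (by positivity)]
  have hind : ∀ (q : ZMod 5 → Prop), q 0 → q 1 → q 2 → q 3 → q 4 → ∀ j, q j := by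
    intro q q0 q1 q2 q3 q4 j
    fin_cases j
    · exact q0
    · exact q1
    · exact q2
    · exact q3
    · exact q4
  refine pgg_arc S hc hm A (S.V 0 - A * (starRingEnd ℂ) (S.V 2))
    (S.V 1 + A * (starRingEnd ℂ) (S.V 3)) hA ![2, 3, 0, 1, 4] (by decide)
    ![2, 3, 2, 3, 1] (fun j => by fin_cases j <;> rfl) ![(0, 0), (0, 0), (-1, 0), (0, -1), (0, 0)]
    (fun j => by fin_cases j <;> rfl) ?_ ?_ hA2
  · exact hind _ h0 h1 h2 h3 h4
  have k0 := g0
  have k1 := g1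
  have k3 := k3'
  have k4 := k4'
  simp only [map_sub] at k0 k1 k3 k4
  refine hind _ ?_ ?_ ?_ ?_ ?_
  · change A * (starRingEnd ℂ) (S.V 2) + (S.V 0 - A * (starRingEnd ℂ) (S.V 2)) + lv _ _ (0, 0) = S.V 0 ∧
      A * (starRingEnd ℂ) (S.V 3) + (S.V 0 - A * (starRingEnd ℂ) (S.V 2)) + lv _ _ (0, 0) = S.V 1
    simp only [lv, Int.cast_zero, zero_mul, add_zero]
    constructor
    · ring
    · linear_combination -k0
  · change -(A * (starRingEnd ℂ) (S.V 3)) + (S.V 1 + A * (starRingEnd ℂ) (S.V 3)) + lv _ _ (0, 0) =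
        S.V 1 ∧
      -(A * (starRingEnd ℂ) (S.V 4)) + (S.V 1 + A * (starRingEnd ℂ) (S.V 3)) + lv _ _ (0, 0) = S.V 2
    simp only [lv, Int.cast_zero, zero_mul, add_zero]
    constructor
    · ring
    · linear_combination -k1
  · change A * (starRingEnd ℂ) (S.V 0) + (S.V 0 - A * (starRingEnd ℂ) (S.V 2)) +
        lv _ _ (-1, 0) = S.V 2 ∧
      A * (starRingEnd ℂ) (S.V 1) + (S.V 0 - A * (starRingEnd ℂ) (S.V 2)) + lv _ _ (-1, 0) = S.V 3
    simp only [lv, Int.cast_zero, zero_mul, add_zero, Int.cast_neg, Int.cast_one, map_sub, map_mul,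
      Complex.conj_conj]
    constructor
    · linear_combination S.V 2 * hAA
    · linear_combination S.V 2 * hAA - k3
  · change -(A * (starRingEnd ℂ) (S.V 1)) + (S.V 1 + A * (starRingEnd ℂ) (S.V 3)) +
        lv _ _ (0, -1) = S.V 3 ∧
      -(A * (starRingEnd ℂ) (S.V 2)) + (S.V 1 + A * (starRingEnd ℂ) (S.V 3)) + lv _ _ (0, -1) = S.V 4
    simp only [lv, Int.cast_zero, zero_mul, zero_add, Int.cast_neg, Int.cast_one, map_add, map_mul,
      Complex.conj_conj]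
    constructor
    · linear_combination S.V 3 * hAA
    · linear_combination S.V 3 * hAA - k4
  · change -(S.V 4) + ((S.V 0 - A * (starRingEnd ℂ) (S.V 2)) +
          A * (starRingEnd ℂ) (S.V 1 + A * (starRingEnd ℂ) (S.V 3))) + lv _ _ (0, 0) = S.V 0 ∧
      -(S.V 0) + ((S.V 0 - A * (starRingEnd ℂ) (S.V 2)) +
          A * (starRingEnd ℂ) (S.V 1 + A * (starRingEnd ℂ) (S.V 3))) + lv _ _ (0, 0) = S.V 4
    simp only [lv, Int.cast_zero, zero_mul, add_zero, map_add, map_mul, Complex.conj_conj]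
    constructor <;> linear_combination S.V 3 * hAA - k4

end Pool.Agent.Lib_MP_fa6e45
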