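import Pool.Agent.Lib_MP_fa6e45.X1f
import Pool.Agent.Lib_MP_fa6e45.X2a

/-!
PIECE X5d (about 300 lines): pentagons with arcs as in `crit36`, `crit44`, `crit63` (V7b): `ChordAng.rot` and
`rot_arc` (with the centre `o`, no translation of the polygon needed).
-/

open Set MeasureTheory Complex
open scoped Topology

namespace Pool.Agent.Lib_MP_fa6e45

open Pool.Agent.Lib_PL (cr InSector Poly)

variable {n : ℕ} {P : Polygon n}

private theorem X5d_w {θ : ℝ} : exp ((θ : ℂ) * Complex.I) = ⟨Real.cos θ, Real.sin θ⟩ := by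
  apply Complex.ext
  · rw [Complex.exp_ofReal_mul_I_re]
  · rw [Complex.exp_ofReal_mul_I_im]

private theorem X5d_s3 : Real.sin (2 * Real.pi / 3) = Real.sqrt 3 / 2 := by
  have : 2 * Real.pi / 3 = Real.pi - Real.pi / 3 := by ring
  rw [this, Real.sin_pi_sub, Real.sin_pi_div_three]

private theorem X5d_c3 : Real.cos (2 * Real.pi / 3) = -(1 / 2) := by
  have : 2 * Real.pi / 3 = Real.pi - Real.pi / 3 := by ring
  rw [this, Real.cos_pi_sub, Real.cos_pi_div_three]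

/-- the primitive sixth root of unity -/
private theorem X5d_zeta : ∃ s : ℝ, 0 < s ∧ s * s = 3 / 4 ∧
    exp (((Real.pi / 3 : ℝ) : ℂ) * Complex.I) = ⟨1 / 2, s⟩ ∧
    exp (((2 * Real.pi / 3 : ℝ) : ℂ) * Complex.I) = ⟨-(1 / 2), s⟩ := by
  refine ⟨Real.sqrt 3 / 2, by positivity, ?_, ?_, ?_⟩
  · have := Real.mul_self_sqrt (show (0 : ℝ) ≤ 3 by norm_num)
    linarith
  · rw [X5d_w, Real.cos_pi_div_three, Real.sin_pi_div_three]
  · rw [X5d_w, X5d_c3, X5d_s3]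

private theorem X5d_i : exp (((Real.pi / 2 : ℝ) : ℂ) * Complex.I) = Complex.I := by
  rw [X5d_w, Real.cos_pi_div_two, Real.sin_pi_div_two]
  rfl

private theorem X5d_six {ζ : ℂ} {s : ℝ} (hss : s * s = 3 / 4) (hz : ζ = ⟨1 / 2, s⟩) :
    ζ ^ 2 = ζ - 1 ∧ ζ ^ 3 = -1 ∧ ζ ^ 6 = 1 ∧ ‖ζ‖ = 1 := by
  have h2 : ζ ^ 2 = ζ - 1 := by
    rw [hz]
    apply Complex.ext
    · simp [pow_two]
      linarith
    · simp [pow_two]
      ring
  have h3 : ζ ^ 3 = -1 := by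
    linear_combination (ζ + 1) * h2
  have h6 : ζ ^ 6 = 1 := by
    linear_combination (ζ ^ 3 - 1) * h3
  have h1 : ‖ζ‖ ^ 6 = 1 := by
    rw [← norm_pow, h6, norm_one]
  exact ⟨h2, h3, h6, (pow_eq_one_iff_of_nonneg (norm_nonneg _) (by norm_num)).1 h1⟩

/-- the shoelace sum does not depend on the origin -/
private theorem X5d_shoe (S : Arcs P 5) (o a0 a1 a2 a3 a4 : ℂ) (h0 : S.V 0 = a0 + o)
    (h1 : S.V 1 = a1 + o) (h2 : S.V 2 = a2 + o) (h3 : S.V 3 = a3 + o) (h4 : S.V 4 = a4 + o) :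
    ∑ j, cr (S.V j) (S.V (j + 1)) = cr a0 a1 + cr a1 a2 + cr a2 a3 + cr a3 a4 + cr a4 a0 := by
  have h := Fin.sum_univ_five (fun i : ZMod 5 => cr (S.V i) (S.V (i + 1)))
  have h2' : ∑ i : ZMod 5, cr (S.V i) (S.V (i + 1)) = cr (S.V 0) (S.V 1) +
      cr (S.V 1) (S.V 2) + cr (S.V 2) (S.V 3) + cr (S.V 3) (S.V 4) + cr (S.V 4) (S.V 0) := h
  rw [h2', h0, h1, h2, h3, h4]
  simp only [cr, add_re, add_im]
  ring

private theorem X5d_rel (S : Arcs P 5) (h0 : S.Plus 0 1)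
    (h1 : S.Plus 1 0) (h2 : S.Plus 2 3) (h3 : S.Plus 3 2) (h4 : S.Plus 4 4) (j : ZMod 5) :
    S.Plus j ((![1, 0, 3, 2, 4] : Fin 5 → ZMod 5) j) := by
  fin_cases j
  · exact h0
  · exact h1
  · exact h2
  · exact h3
  · exact h4

private theorem X5d_core36 (hc : P.CCW) (S : Arcs P 5) (h0' : S.Plus 0 1)
    (h1' : S.Plus 1 0) (h2' : S.Plus 2 3) (h3' : S.Plus 3 2) (h4' : S.Plus 4 4) (ζ : ℂ) (s : ℝ)
    (hss : s * s = 3 / 4) (hz : ζ = ⟨1 / 2, s⟩) (o a0 a1 a2 a3 a4 : ℂ) (v0 : S.V 0 = a0 + o)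
    (v1 : S.V 1 = a1 + o) (v2 : S.V 2 = a2 + o) (v3 : S.V 3 = a3 + o) (v4 : S.V 4 = a4 + o)
    (h3 : a3 = 0) (h2 : a2 = ζ * a4)
    (h0 : a0 = -a4 + (2 - ζ) * a1) : HasPeriodic P := by
  obtain ⟨hζ2, hζ3, hζ6, hζ1⟩ := X5d_six hss hz
  have hζ2' : ζ ^ 2 = ((-1 : ℤ) : ℂ) + ((1 : ℤ) : ℂ) * ζ := by
    rw [hζ2]
    push_cast
    ring
  refine rot_arc S hc (by norm_num) 6 (by norm_num) ζ ((2 - ζ) * a1) o hζ1 hζ6
    (-1) 1 hζ2' ?_ ![1, 0, 3, 2, 4] (by decide) ![2, 4, 1, 5, 3] (by decide)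
    ![(1, 0), (0, 1), (0, 0), (0, 0), (1, 0)] (by decide) (X5d_rel S h0' h1' h2' h3' h4') ?_ ?_
  · rintro ⟨a, b⟩
    simp only [Function.iterate_succ, Function.iterate_zero, Function.comp, id, rmul]
    ext <;> simp
  · intro y
    fin_cases y
    · show ζ ^ 2 * (S.V 1 - o) + o + lv _ _ (1, 0) = S.V 1 ∧
        ζ ^ 2 * (S.V 2 - o) + o + lv _ _ (1, 0) = S.V 0
      simp only [lv]
      push_cast
      rw [v0, v1, v2, h0, h2]
      constructor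
      · linear_combination a1 * hζ2
      · linear_combination a4 * hζ3
    · show ζ ^ 4 * (S.V 0 - o) + o + lv _ _ (0, 1) = S.V 2 ∧
        ζ ^ 4 * (S.V 1 - o) + o + lv _ _ (0, 1) = S.V 1
      simp only [lv]
      push_cast
      rw [v0, v1, v2, h0, h2]
      constructor
      · linear_combination (ζ * (-a4 + (2 - ζ) * a1)) * hζ3
      · linear_combination ζ * a1 * hζ3 - a1 * hζ2
    · show ζ ^ 1 * (S.V 3 - o) + o + lv _ _ (0, 0) = S.V 3 ∧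
        ζ ^ 1 * (S.V 4 - o) + o + lv _ _ (0, 0) = S.V 2
      simp only [lv]
      push_cast
      rw [v3, v4, v2, h3, h2]
      constructor <;> ring
    · show ζ ^ 5 * (S.V 2 - o) + o + lv _ _ (0, 0) = S.V 4 ∧
        ζ ^ 5 * (S.V 3 - o) + o + lv _ _ (0, 0) = S.V 3
      simp only [lv]
      push_cast
      rw [v3, v4, v2, h3, h2]
      constructor
      · linear_combination a4 * hζ6
      · ring
    · show ζ ^ 3 * (S.V 4 - o) + o + lv _ _ (1, 0) = S.V 0 ∧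
        ζ ^ 3 * (S.V 0 - o) + o + lv _ _ (1, 0) = S.V 4
      simp only [lv]
      push_cast
      rw [v0, v4, h0]
      constructor
      · linear_combination a4 * hζ3
      · linear_combination (-a4 + (2 - ζ) * a1) * hζ3
  · rw [X5d_shoe S o a0 a1 a2 a3 a4 v0 v1 v2 v3 v4, h0, h2, h3, hz]
    have h5 : 2 * cr ((2 - (⟨1 / 2, s⟩ : ℂ)) * a1)
        ((⟨1 / 2, s⟩ : ℂ) * ((2 - (⟨1 / 2, s⟩ : ℂ)) * a1)) =
        6 * (cr (-a4 + (2 - (⟨1 / 2, s⟩ : ℂ)) * a1) a1 + cr a1 ((⟨1 / 2, s⟩ : ℂ) * a4) +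
          cr ((⟨1 / 2, s⟩ : ℂ) * a4) 0 + cr 0 a4 + cr a4 (-a4 + (2 - (⟨1 / 2, s⟩ : ℂ)) * a1)) := by
      simp only [cr, mul_re, mul_im, add_re, add_im, sub_re, sub_im, neg_re, neg_im, re_ofNat,
        im_ofNat, zero_re, zero_im]
      linear_combination (2 * (s * a1.im * a1.im + s * a1.re * a1.re)) * hss
    have h6 : (2 : ℝ) * |cr ((2 - (⟨1 / 2, s⟩ : ℂ)) * a1)
        ((⟨1 / 2, s⟩ : ℂ) * ((2 - (⟨1 / 2, s⟩ : ℂ)) * a1))| =
        |2 * cr ((2 - (⟨1 / 2, s⟩ : ℂ)) * a1)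
        ((⟨1 / 2, s⟩ : ℂ) * ((2 - (⟨1 / 2, s⟩ : ℂ)) * a1))| := by
      rw [abs_mul, abs_two]
    rw [h6, h5, abs_mul, abs_of_pos (by norm_num : (0 : ℝ) < 6)]
    norm_num

private theorem X5d_core63 (hc : P.CCW) (S : Arcs P 5) (h0' : S.Plus 0 1)
    (h1' : S.Plus 1 0) (h2' : S.Plus 2 3) (h3' : S.Plus 3 2) (h4' : S.Plus 4 4) (ζ : ℂ) (s : ℝ)
    (hss : s * s = 3 / 4) (hz : ζ = ⟨1 / 2, s⟩) (o a0 a1 a2 a3 a4 : ℂ) (v0 : S.V 0 = a0 + o)
    (v1 : S.V 1 = a1 + o) (v2 : S.V 2 = a2 + o) (v3 : S.V 3 = a3 + o) (v4 : S.V 4 = a4 + o)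
    (h1 : a1 = 0) (h0 : a0 = ζ * a2)
    (h2 : a2 = (ζ - 1) * a4 + (2 - ζ) * a3) : HasPeriodic P := by
  obtain ⟨hζ2, hζ3, hζ6, hζ1⟩ := X5d_six hss hz
  have hζ2' : ζ ^ 2 = ((-1 : ℤ) : ℂ) + ((1 : ℤ) : ℂ) * ζ := by
    rw [hζ2]
    push_cast
    ring
  have h0'' : a0 = -a4 + (1 + ζ) * a3 := by
    rw [h0, h2]
    linear_combination (a4 - a3) * hζ2
  refine rot_arc S hc (by norm_num) 6 (by norm_num) ζ ((1 + ζ) * a3) o hζ1 hζ6
    (-1) 1 hζ2' ?_ ![1, 0, 3, 2, 4] (by decide) ![1, 5, 2, 4, 3] (by decide)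
    ![(0, 0), (0, 0), (1, -1), (1, 0), (1, 0)] (by decide) (X5d_rel S h0' h1' h2' h3' h4') ?_ ?_
  · rintro ⟨a, b⟩
    simp only [Function.iterate_succ, Function.iterate_zero, Function.comp, id, rmul]
    ext <;> simp
  · intro y
    fin_cases y
    · show ζ ^ 1 * (S.V 1 - o) + o + lv _ _ (0, 0) = S.V 1 ∧
        ζ ^ 1 * (S.V 2 - o) + o + lv _ _ (0, 0) = S.V 0
      simp only [lv]
      push_cast
      rw [v0, v1, v2, h0, h1]
      constructor <;> ring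
    · show ζ ^ 5 * (S.V 0 - o) + o + lv _ _ (0, 0) = S.V 2 ∧
        ζ ^ 5 * (S.V 1 - o) + o + lv _ _ (0, 0) = S.V 1
      simp only [lv]
      push_cast
      rw [v0, v1, v2, h0, h1]
      constructor
      · linear_combination a2 * hζ6
      · ring
    · show ζ ^ 2 * (S.V 3 - o) + o + lv _ _ (1, -1) = S.V 3 ∧
        ζ ^ 2 * (S.V 4 - o) + o + lv _ _ (1, -1) = S.V 2
      simp only [lv]
      push_cast
      rw [v2, v3, v4, h2]
      constructor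
      · ring
      · linear_combination (a4 - a3) * hζ2
    · show ζ ^ 4 * (S.V 2 - o) + o + lv _ _ (1, 0) = S.V 4 ∧
        ζ ^ 4 * (S.V 3 - o) + o + lv _ _ (1, 0) = S.V 3
      simp only [lv]
      push_cast
      rw [v2, v3, v4, h2]
      constructor
      · linear_combination (ζ * ((ζ - 1) * a4 + (2 - ζ) * a3)) * hζ3 +
          (a3 - a4) * hζ2
      · linear_combination ζ * a3 * hζ3
    · show ζ ^ 3 * (S.V 4 - o) + o + lv _ _ (1, 0) = S.V 0 ∧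
        ζ ^ 3 * (S.V 0 - o) + o + lv _ _ (1, 0) = S.V 4
      simp only [lv]
      push_cast
      rw [v0, v4, h0'']
      constructor
      · linear_combination a4 * hζ3
      · linear_combination (-a4 + (1 + ζ) * a3) * hζ3
  · have h2'' : a2 = ⟨-(1 / 2), s⟩ * a4 + (1 - ⟨-(1 / 2), s⟩) * a3 := by
      rw [h2, hz]
      have e1 : (⟨1 / 2, s⟩ : ℂ) = ⟨-(1 / 2), s⟩ + 1 := by
        apply Complex.ext
        · simp
          norm_num
        · simp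
      rw [e1]
      ring
    rw [X5d_shoe S o a0 a1 a2 a3 a4 v0 v1 v2 v3 v4, h0'', h2'', h1, hz]
    have h5 : 2 * cr ((1 + (⟨1 / 2, s⟩ : ℂ)) * a3)
        ((⟨1 / 2, s⟩ : ℂ) * ((1 + (⟨1 / 2, s⟩ : ℂ)) * a3)) =
        6 * (cr (-a4 + (1 + (⟨1 / 2, s⟩ : ℂ)) * a3) 0 +
          cr 0 ((⟨-(1 / 2), s⟩ : ℂ) * a4 + (1 - (⟨-(1 / 2), s⟩ : ℂ)) * a3) +
          cr ((⟨-(1 / 2), s⟩ : ℂ) * a4 + (1 - (⟨-(1 / 2), s⟩ : ℂ)) * a3) a3 + cr a3 a4 +
          cr a4 (-a4 + (1 + (⟨1 / 2, s⟩ : ℂ)) * a3)) := by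
      simp only [cr, mul_re, mul_im, add_re, add_im, sub_re, sub_im, neg_re, neg_im,
        zero_re, zero_im, one_re, one_im]
      linear_combination (2 * (s * a3.im * a3.im + s * a3.re * a3.re)) * hss
    have h6 : (2 : ℝ) * |cr ((1 + (⟨1 / 2, s⟩ : ℂ)) * a3)
        ((⟨1 / 2, s⟩ : ℂ) * ((1 + (⟨1 / 2, s⟩ : ℂ)) * a3))| =
        |2 * cr ((1 + (⟨1 / 2, s⟩ : ℂ)) * a3)
        ((⟨1 / 2, s⟩ : ℂ) * ((1 + (⟨1 / 2, s⟩ : ℂ)) * a3))| := by
      rw [abs_mul, abs_two]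
    rw [h6, h5, abs_mul, abs_of_pos (by norm_num : (0 : ℝ) < 6)]
    norm_num

private theorem X5d_core44 (hc : P.CCW) (S : Arcs P 5) (h0' : S.Plus 0 1)
    (h1' : S.Plus 1 0) (h2' : S.Plus 2 3) (h3' : S.Plus 3 2) (h4' : S.Plus 4 4)
    (o a0 a1 a2 a3 a4 : ℂ) (v0 : S.V 0 = a0 + o)
    (v1 : S.V 1 = a1 + o) (v2 : S.V 2 = a2 + o) (v3 : S.V 3 = a3 + o) (v4 : S.V 4 = a4 + o)
    (h3 : a3 = 0) (h2 : a2 = Complex.I * a4)
    (h0 : a0 = -a4 + (1 - Complex.I) * a1) : HasPeriodic P := by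
  have hI2 : Complex.I ^ 2 = -1 := Complex.I_sq
  have hI4 : Complex.I ^ 4 = 1 := by
    linear_combination (Complex.I ^ 2 - 1) * hI2
  have hI2' : Complex.I ^ 2 = ((-1 : ℤ) : ℂ) + ((0 : ℤ) : ℂ) * Complex.I := by
    rw [hI2]
    push_cast
    ring
  refine rot_arc S hc (by norm_num) 4 (by norm_num) Complex.I
    ((1 - Complex.I) * a1) o Complex.norm_I hI4
    (-1) 0 hI2' ?_ ![1, 0, 3, 2, 4] (by decide) ![1, 3, 1, 3, 2] (by decide)
    ![(1, 0), (0, 1), (0, 0), (0, 0), (1, 0)] (by decide) (X5d_rel S h0' h1' h2' h3' h4') ?_ ?_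
  · rintro ⟨a, b⟩
    simp only [Function.iterate_succ, Function.iterate_zero, Function.comp, id, rmul]
    ext <;> simp
  · intro y
    fin_cases y
    · show Complex.I ^ 1 * (S.V 1 - o) + o + lv _ _ (1, 0) = S.V 1 ∧
        Complex.I ^ 1 * (S.V 2 - o) + o + lv _ _ (1, 0) = S.V 0
      simp only [lv]
      push_cast
      rw [v0, v1, v2, h0, h2]
      constructor
      · ring
      · linear_combination a4 * hI2
    · show Complex.I ^ 3 * (S.V 0 - o) + o + lv _ _ (0, 1) = S.V 2 ∧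
        Complex.I ^ 3 * (S.V 1 - o) + o + lv _ _ (0, 1) = S.V 1
      simp only [lv]
      push_cast
      rw [v0, v1, v2, h0, h2]
      constructor
      · linear_combination (Complex.I * (-a4 + (1 - Complex.I) * a1)) * hI2
      · linear_combination (Complex.I * a1 - a1) * hI2
    · show Complex.I ^ 1 * (S.V 3 - o) + o + lv _ _ (0, 0) = S.V 3 ∧
        Complex.I ^ 1 * (S.V 4 - o) + o + lv _ _ (0, 0) = S.V 2
      simp only [lv]
      push_cast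
      rw [v2, v3, v4, h3, h2]
      constructor <;> ring
    · show Complex.I ^ 3 * (S.V 2 - o) + o + lv _ _ (0, 0) = S.V 4 ∧
        Complex.I ^ 3 * (S.V 3 - o) + o + lv _ _ (0, 0) = S.V 3
      simp only [lv]
      push_cast
      rw [v2, v3, v4, h3, h2]
      constructor
      · linear_combination a4 * hI4
      · ring
    · show Complex.I ^ 2 * (S.V 4 - o) + o + lv _ _ (1, 0) = S.V 0 ∧
        Complex.I ^ 2 * (S.V 0 - o) + o + lv _ _ (1, 0) = S.V 4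
      simp only [lv]
      push_cast
      rw [v0, v4, h0]
      constructor
      · linear_combination a4 * hI2
      · linear_combination (-a4 + (1 - Complex.I) * a1) * hI2
  · rw [X5d_shoe S o a0 a1 a2 a3 a4 v0 v1 v2 v3 v4, h0, h2, h3]
    have h5 : 2 * cr ((1 - Complex.I) * a1) (Complex.I * ((1 - Complex.I) * a1)) =
        4 * (cr (-a4 + (1 - Complex.I) * a1) a1 + cr a1 (Complex.I * a4) +
          cr (Complex.I * a4) 0 + cr 0 a4 + cr a4 (-a4 + (1 - Complex.I) * a1)) := by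
      simp only [cr, mul_re, mul_im, add_re, add_im, sub_re, sub_im, neg_re, neg_im,
        zero_re, zero_im, one_re, one_im, I_re, I_im]
      ring
    have h6 : (2 : ℝ) * |cr ((1 - Complex.I) * a1) (Complex.I * ((1 - Complex.I) * a1))| =
        |2 * cr ((1 - Complex.I) * a1) (Complex.I * ((1 - Complex.I) * a1))| := by
      rw [abs_mul, abs_two]
    rw [h6, h5, abs_mul, abs_of_pos (by norm_num : (0 : ℝ) < 4)]
    norm_num

theorem x5_4 (hc : P.CCW) (S : Arcs P 5) (b : ZMod 5 → ℝ) (hb : S.ChordAng b) (h0 : S.Plus 0 1)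
    (h1 : S.Plus 1 0) (h2 : S.Plus 2 3) (h3 : S.Plus 3 2) (h4 : S.Plus 4 4) (e1 : 3 * b 1 = 2)
    (e3 : 3 * b 3 = 1) : HasPeriodic P := by
  obtain ⟨s, _, hss, hζ, hω⟩ := X5d_zeta
  obtain ⟨hζ2, hζ3, hζ6, hζ1⟩ := X5d_six hss hζ
  have r1 : S.V 0 - S.V 1 = exp (((Real.pi * b 1 : ℝ) : ℂ) * Complex.I) * (S.V 2 - S.V 1) :=
    hb.rot (by norm_num) 1 (S.norm_plus h0)
  have r3 : S.V 2 - S.V 3 = exp (((Real.pi * b 3 : ℝ) : ℂ) * Complex.I) * (S.V 4 - S.V 3) :=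
    hb.rot (by norm_num) 3 (S.norm_plus h2)
  have t1 : Real.pi * b 1 = 2 * Real.pi / 3 := by linear_combination (Real.pi / 3) * e1
  have t3 : Real.pi * b 3 = Real.pi / 3 := by linear_combination (Real.pi / 3) * e3
  have hωζ : exp (((2 * Real.pi / 3 : ℝ) : ℂ) * Complex.I) =
      exp (((Real.pi / 3 : ℝ) : ℂ) * Complex.I) - 1 := by
    rw [hω, hζ]
    apply Complex.ext
    · simp
      norm_num
    · simp
  rw [t1, hωζ] at r1
  rw [t3] at r3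
  refine X5d_core36 hc S h0 h1 h2 h3 h4 _ s hss hζ (S.V 3) (S.V 0 - S.V 3) (S.V 1 - S.V 3)
    (S.V 2 - S.V 3) (S.V 3 - S.V 3) (S.V 4 - S.V 3) (by ring) (by ring) (by ring) (by ring)
    (by ring) (by ring) r3 ?_
  linear_combination r1 + (exp (((Real.pi / 3 : ℝ) : ℂ) * Complex.I) - 1) * r3 +
    (S.V 4 - S.V 3) * hζ2

theorem x5_5 (hc : P.CCW) (S : Arcs P 5) (b : ZMod 5 → ℝ) (hb : S.ChordAng b) (h0 : S.Plus 0 1)
    (h1 : S.Plus 1 0) (h2 : S.Plus 2 3) (h3 : S.Plus 3 2) (h4 : S.Plus 4 4) (e1 : 2 * b 1 = 1)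
    (e3 : 2 * b 3 = 1) : HasPeriodic P := by
  have r1 : S.V 0 - S.V 1 = exp (((Real.pi * b 1 : ℝ) : ℂ) * Complex.I) * (S.V 2 - S.V 1) :=
    hb.rot (by norm_num) 1 (S.norm_plus h0)
  have r3 : S.V 2 - S.V 3 = exp (((Real.pi * b 3 : ℝ) : ℂ) * Complex.I) * (S.V 4 - S.V 3) :=
    hb.rot (by norm_num) 3 (S.norm_plus h2)
  have t1 : Real.pi * b 1 = Real.pi / 2 := by linear_combination (Real.pi / 2) * e1
  have t3 : Real.pi * b 3 = Real.pi / 2 := by linear_combination (Real.pi / 2) * e3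
  rw [t1, X5d_i] at r1
  rw [t3, X5d_i] at r3
  have hI2 : Complex.I ^ 2 = -1 := Complex.I_sq
  refine X5d_core44 hc S h0 h1 h2 h3 h4 (S.V 3) (S.V 0 - S.V 3) (S.V 1 - S.V 3)
    (S.V 2 - S.V 3) (S.V 3 - S.V 3) (S.V 4 - S.V 3) (by ring) (by ring) (by ring) (by ring)
    (by ring) (by ring) r3 ?_
  linear_combination r1 + Complex.I * r3 + (S.V 4 - S.V 3) * hI2

theorem x5_6 (hc : P.CCW) (S : Arcs P 5) (b : ZMod 5 → ℝ) (hb : S.ChordAng b) (h0 : S.Plus 0 1)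
    (h1 : S.Plus 1 0) (h2 : S.Plus 2 3) (h3 : S.Plus 3 2) (h4 : S.Plus 4 4) (e1 : 3 * b 1 = 1)
    (e3 : 3 * b 3 = 2) : HasPeriodic P := by
  obtain ⟨s, _, hss, hζ, hω⟩ := X5d_zeta
  have r1 : S.V 0 - S.V 1 = exp (((Real.pi * b 1 : ℝ) : ℂ) * Complex.I) * (S.V 2 - S.V 1) :=
    hb.rot (by norm_num) 1 (S.norm_plus h0)
  have r3 : S.V 2 - S.V 3 = exp (((Real.pi * b 3 : ℝ) : ℂ) * Complex.I) * (S.V 4 - S.V 3) :=
    hb.rot (by norm_num) 3 (S.norm_plus h2)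
  have t1 : Real.pi * b 1 = Real.pi / 3 := by linear_combination (Real.pi / 3) * e1
  have t3 : Real.pi * b 3 = 2 * Real.pi / 3 := by linear_combination (Real.pi / 3) * e3
  have hωζ : exp (((2 * Real.pi / 3 : ℝ) : ℂ) * Complex.I) =
      exp (((Real.pi / 3 : ℝ) : ℂ) * Complex.I) - 1 := by
    rw [hω, hζ]
    apply Complex.ext
    · simp
      norm_num
    · simp
  rw [t1] at r1
  rw [t3, hωζ] at r3
  refine X5d_core63 hc S h0 h1 h2 h3 h4 _ s hss hζ (S.V 1) (S.V 0 - S.V 1) (S.V 1 - S.V 1)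
    (S.V 2 - S.V 1) (S.V 3 - S.V 1) (S.V 4 - S.V 1) (by ring) (by ring) (by ring) (by ring)
    (by ring) (by ring) r1 ?_
  linear_combination r3

end Pool.Agent.Lib_MP_fa6e45
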