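import Pool.Agent.Lib_MP_fa6e45.X1d
import Pool.Agent.Lib_MP_fa6e45.X2a

/-!
PIECE X6a (about 250 lines): hexagons with arcs. `x6_0` (T C C T C C): `ch 3 = - ch 0` (`par3`), `p2_arc` (`hex`, L3a).
`x6_1` (T T T T T T): `opp_par` (V4b) for chords, applied to all three pairs: `ch 3 = - ch 0`, `ch 4 = - ch 1`, `ch 5 = - ch 2`
(its proof uses the norms, the angle condition, closing and the shoelace sum `≠ 0`; `Arcs.area`), then `p1_arc`.
-/

open Set MeasureTheory Complex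
open scoped Topology

namespace Pool.Agent.Lib_MP_fa6e45

open Pool.Agent.Lib_PL (cr InSector Poly)

variable {n : ℕ} {P : Polygon n}

/-- the shoelace sum written out -/
private theorem X6a_sum (S : Arcs P 6) : ∑ j : ZMod 6, cr (S.V j) (S.V (j + 1)) =
    cr (S.V 0) (S.V 1) + cr (S.V 1) (S.V 2) + cr (S.V 2) (S.V 3) + cr (S.V 3) (S.V 4) +
      cr (S.V 4) (S.V 5) + cr (S.V 5) (S.V 0) :=
  Fin.sum_univ_six (fun j : ZMod 6 => cr (S.V j) (S.V (j + 1)))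

theorem x6_0 (hc : P.CCW) (S : Arcs P 6) (b : ZMod 6 → ℝ) (hb : S.ChordAng b) (h0 : S.Plus 0 3)
    (h3 : S.Plus 3 0) (h1 : S.Plus 1 1) (h2 : S.Plus 2 2) (h4 : S.Plus 4 4) (h5 : S.Plus 5 5)
    (e1 : b 1 + b 2 + b 3 = 2) : HasPeriodic P := by
  have q0 : (0 : ZMod 6) + 1 = 1 := rfl
  have q1 : (1 : ZMod 6) + 1 = 2 := rfl
  have q2 : (2 : ZMod 6) + 1 = 3 := rfl
  have q3 : (3 : ZMod 6) + 1 = 4 := rfl
  have q4 : (4 : ZMod 6) + 1 = 5 := rfl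
  have q5 : (5 : ZMod 6) + 1 = 0 := rfl
  have hp : S.ch 3 = -S.ch 0 := by
    have h := hb.par3 (by norm_num) 0 (S.norm_plus h0)
      (by simpa using e1)
    simpa using h
  have e4 : S.V 4 = S.V 3 - S.V 1 + S.V 0 := by
    have h : S.V (3 + 1) - S.V 3 = -(S.V (0 + 1) - S.V 0) := hp
    rw [q3, q0] at h
    linear_combination h
  refine p2_arc S hc (by norm_num) (S.V 1 + S.V 2) (S.V 3 - S.V 1)
    (S.V 4 + S.V 5 - S.V 1 - S.V 2) ![3, 1, 2, 0, 4, 5] (by decide)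
    ![false, true, true, false, true, true] (by decide)
    ![(-1, 0), (0, 0), (1, 0), (1, 0), (0, 1), (-1, 1)] (by decide) ?_ ?_ ?_ ?_
  · intro j
    fin_cases j
    · exact h0
    · exact h1
    · exact h2
    · exact h3
    · exact h4
    · exact h5
  · intro y hy
    fin_cases y
    · exact absurd hy (by decide)
    · change S.V 1 + S.V 2 + lv (S.V 3 - S.V 1) (S.V 4 + S.V 5 - S.V 1 - S.V 2) (0, 0) - S.V 1 = S.V 2 ∧
        S.V 1 + S.V 2 + lv (S.V 3 - S.V 1) (S.V 4 + S.V 5 - S.V 1 - S.V 2) (0, 0) - S.V 2 = S.V 1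
      unfold lv
      rw [e4]
      push_cast
      constructor <;> ring
    · change S.V 1 + S.V 2 + lv (S.V 3 - S.V 1) (S.V 4 + S.V 5 - S.V 1 - S.V 2) (1, 0) - S.V 2 = S.V 3 ∧
        S.V 1 + S.V 2 + lv (S.V 3 - S.V 1) (S.V 4 + S.V 5 - S.V 1 - S.V 2) (1, 0) - S.V 3 = S.V 2
      unfold lv
      rw [e4]
      push_cast
      constructor <;> ring
    · exact absurd hy (by decide)
    · change S.V 1 + S.V 2 + lv (S.V 3 - S.V 1) (S.V 4 + S.V 5 - S.V 1 - S.V 2) (0, 1) - S.V 4 = S.V 5 ∧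
        S.V 1 + S.V 2 + lv (S.V 3 - S.V 1) (S.V 4 + S.V 5 - S.V 1 - S.V 2) (0, 1) - S.V 5 = S.V 4
      unfold lv
      rw [e4]
      push_cast
      constructor <;> ring
    · change S.V 1 + S.V 2 + lv (S.V 3 - S.V 1) (S.V 4 + S.V 5 - S.V 1 - S.V 2) (-1, 1) - S.V 5 = S.V 0 ∧
        S.V 1 + S.V 2 + lv (S.V 3 - S.V 1) (S.V 4 + S.V 5 - S.V 1 - S.V 2) (-1, 1) - S.V 0 = S.V 5
      unfold lv
      rw [e4]
      push_cast
      constructor <;> ring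
  · intro y hy
    fin_cases y
    · change S.V 3 + lv (S.V 3 - S.V 1) (S.V 4 + S.V 5 - S.V 1 - S.V 2) (-1, 0) = S.V 1 ∧
        S.V 4 + lv (S.V 3 - S.V 1) (S.V 4 + S.V 5 - S.V 1 - S.V 2) (-1, 0) = S.V 0
      unfold lv
      rw [e4]
      push_cast
      constructor <;> ring
    · exact absurd hy (by decide)
    · exact absurd hy (by decide)
    · change S.V 0 + lv (S.V 3 - S.V 1) (S.V 4 + S.V 5 - S.V 1 - S.V 2) (1, 0) = S.V 4 ∧
        S.V 1 + lv (S.V 3 - S.V 1) (S.V 4 + S.V 5 - S.V 1 - S.V 2) (1, 0) = S.V 3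
      unfold lv
      rw [e4]
      push_cast
      constructor <;> ring
    · exact absurd hy (by decide)
    · exact absurd hy (by decide)
  · rw [X6a_sum, e4]
    congr 1
    unfold cr
    simp only [sub_re, sub_im, add_re, add_im]
    ring

/-- rotations preserve the cross product -/
private theorem X6a_cr {ρ : ℂ} (h : ‖ρ‖ = 1) (u v : ℂ) : cr (ρ * u) (ρ * v) = cr u v := by
  have h1 : ρ.re * ρ.re + ρ.im * ρ.im = 1 := by
    have h2 := Complex.sq_norm ρ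
    rw [h, Complex.normSq_apply] at h2
    linarith
  unfold cr
  simp only [mul_re, mul_im]
  linear_combination (u.re * v.im - u.im * v.re) * h1

/-- one pair of opposite sides contributes 0 to the shoelace sum about `c` -/
private theorem X6a_pair {ρ c p q r s : ℂ} (h : ‖ρ‖ = 1) (h1 : q - c = ρ * (r - c))
    (h2 : p - c = ρ * (s - c)) : cr (p - c) (q - c) + cr (r - c) (s - c) = 0 := by
  rw [h1, h2, X6a_cr h, Pool.Agent.Lib_PL.cr_swap (s - c) (r - c)]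
  ring

/-- the common fixed point -/
private theorem X6a_fix {V0 V1 V2 V3 V4 V5 ρ0 ρ1 ρ2 : ℂ} (h0 : V0 - V1 = ρ0 * (V4 - V3))
    (h1 : V1 - V2 = ρ1 * (V5 - V4)) (h2 : V2 - V3 = ρ2 * (V0 - V5)) (hρ : ρ1 = ρ0 * ρ2)
    (hne : ρ0 ≠ 1) :
    ∃ c, V1 - c = ρ0 * (V3 - c) ∧ V0 - c = ρ0 * (V4 - c) ∧ V2 - c = ρ1 * (V4 - c) ∧
      V1 - c = ρ1 * (V5 - c) ∧ V3 - c = ρ2 * (V5 - c) ∧ V2 - c = ρ2 * (V0 - c) := by
  have hd : (1 : ℂ) - ρ0 ≠ 0 := fun h => hne (sub_eq_zero.1 h).symm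
  obtain ⟨c, hc⟩ : ∃ c : ℂ, c * (1 - ρ0) = V1 - ρ0 * V3 :=
    ⟨(V1 - ρ0 * V3) / (1 - ρ0), div_mul_cancel₀ _ hd⟩
  have a1 : V1 - c = ρ0 * (V3 - c) := by linear_combination -hc
  have a2 : V0 - c = ρ0 * (V4 - c) := by linear_combination h0 + a1
  have a3 : V3 - c = ρ2 * (V5 - c) := by
    have e : (V3 + ρ2 * (c - V5) - c) * (1 - ρ0) = 0 := by
      subst hρ
      linear_combination (ρ2 - 1) * hc - h1 - h2 - ρ2 * h0
    have e2 := (mul_eq_zero.1 e).resolve_right hd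
    linear_combination e2
  have a4 : V2 - c = ρ2 * (V0 - c) := by linear_combination h2 + a3
  have a5 : V1 - c = ρ1 * (V5 - c) := by
    rw [hρ]
    linear_combination a1 + ρ0 * a3
  have a6 : V2 - c = ρ1 * (V4 - c) := by linear_combination a5 - h1
  exact ⟨c, a1, a2, a6, a5, a3, a4⟩

/-- the shoelace sum does not depend on the origin -/
private theorem X6a_shoe (V0 V1 V2 V3 V4 V5 c : ℂ) :
    cr V0 V1 + cr V1 V2 + cr V2 V3 + cr V3 V4 + cr V4 V5 + cr V5 V0 =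
      (cr (V0 - c) (V1 - c) + cr (V3 - c) (V4 - c)) + (cr (V1 - c) (V2 - c) +
        cr (V4 - c) (V5 - c)) + (cr (V2 - c) (V3 - c) + cr (V5 - c) (V0 - c)) := by
  unfold cr
  simp only [sub_re, sub_im]
  ring

/-- the algebraic core -/
private theorem X6a_core {V0 V1 V2 V3 V4 V5 : ℂ} (n0 : ‖V1 - V0‖ = ‖V4 - V3‖)
    (n1 : ‖V2 - V1‖ = ‖V5 - V4‖) (n2 : ‖V3 - V2‖ = ‖V0 - V5‖) (z3 : V4 - V3 ≠ 0)
    (z4 : V5 - V4 ≠ 0) (z5 : V0 - V5 ≠ 0)
    (hp : (V2 - V1) * (V4 - V3) * (V0 - V5) = -((V1 - V0) * (V3 - V2) * (V5 - V4)))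
    (hA : cr V0 V1 + cr V1 V2 + cr V2 V3 + cr V3 V4 + cr V4 V5 + cr V5 V0 ≠ 0) :
    V4 - V3 = -(V1 - V0) := by
  by_contra hcon
  have h0 : V0 - V1 = (V0 - V1) / (V4 - V3) * (V4 - V3) := by field_simp
  have h1 : V1 - V2 = (V1 - V2) / (V5 - V4) * (V5 - V4) := by field_simp
  have h2 : V2 - V3 = (V2 - V3) / (V0 - V5) * (V0 - V5) := by field_simp
  have hρ : (V1 - V2) / (V5 - V4) = (V0 - V1) / (V4 - V3) * ((V2 - V3) / (V0 - V5)) := by
    field_simp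
    linear_combination -hp
  have hne : (V0 - V1) / (V4 - V3) ≠ 1 := by
    intro h
    rw [div_eq_one_iff_eq z3] at h
    apply hcon
    linear_combination -h
  have m0 : ‖(V0 - V1) / (V4 - V3)‖ = 1 := by
    rw [norm_div, norm_sub_rev, n0, div_self (norm_ne_zero_iff.2 z3)]
  have m1 : ‖(V1 - V2) / (V5 - V4)‖ = 1 := by
    rw [norm_div, norm_sub_rev, n1, div_self (norm_ne_zero_iff.2 z4)]
  have m2 : ‖(V2 - V3) / (V0 - V5)‖ = 1 := by
    rw [norm_div, norm_sub_rev, n2, div_self (norm_ne_zero_iff.2 z5)]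
  obtain ⟨c, a1, a2, a3, a4, a5, a6⟩ := X6a_fix h0 h1 h2 hρ hne
  apply hA
  rw [X6a_shoe V0 V1 V2 V3 V4 V5 c, X6a_pair m0 a1 a2, X6a_pair m1 a3 a4, X6a_pair m2 a5 a6]
  ring

/-- a direction condition from the chord angles -/
private theorem X6a_prod {c0 c1 c2 c3 c4 c5 : ℂ} {b1 b3 b5 : ℝ} (z0 : c0 ≠ 0) (z1 : c1 ≠ 0)
    (z2 : c2 ≠ 0) (n0 : ‖c0‖ = ‖c3‖) (n1 : ‖c1‖ = ‖c4‖) (n2 : ‖c2‖ = ‖c5‖)
    (h1 : c1 = c0 * ((‖c1‖ / ‖c0‖ : ℝ) : ℂ) * exp (((Real.pi * (1 - b1) : ℝ) : ℂ) * Complex.I))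
    (h3 : c3 = c2 * ((‖c3‖ / ‖c2‖ : ℝ) : ℂ) * exp (((Real.pi * (1 - b3) : ℝ) : ℂ) * Complex.I))
    (h5 : c5 = c4 * ((‖c5‖ / ‖c4‖ : ℝ) : ℂ) * exp (((Real.pi * (1 - b5) : ℝ) : ℂ) * Complex.I))
    (e : b1 + b3 + b5 = 2) : c1 * c3 * c5 = -(c0 * c2 * c4) := by
  have he : exp (((Real.pi * (1 - b1) : ℝ) : ℂ) * Complex.I) *
      exp (((Real.pi * (1 - b3) : ℝ) : ℂ) * Complex.I) *
      exp (((Real.pi * (1 - b5) : ℝ) : ℂ) * Complex.I) = -1 := by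
    rw [← Complex.exp_add, ← Complex.exp_add, ← Complex.exp_pi_mul_I]
    congr 1
    have : b5 = 2 - b1 - b3 := by linarith
    subst this
    push_cast
    ring
  have hr : ((‖c1‖ / ‖c0‖ : ℝ) : ℂ) * ((‖c3‖ / ‖c2‖ : ℝ) : ℂ) * ((‖c5‖ / ‖c4‖ : ℝ) : ℂ) = 1 := by
    have m0 := norm_ne_zero_iff.2 z0
    have m1 := norm_ne_zero_iff.2 z1
    have m2 := norm_ne_zero_iff.2 z2
    rw [← n0, ← n1, ← n2, ← Complex.ofReal_mul, ← Complex.ofReal_mul]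
    norm_cast
    field_simp
  calc c1 * c3 * c5 = (c0 * c2 * c4) * (((‖c1‖ / ‖c0‖ : ℝ) : ℂ) * ((‖c3‖ / ‖c2‖ : ℝ) : ℂ) *
        ((‖c5‖ / ‖c4‖ : ℝ) : ℂ)) * (exp (((Real.pi * (1 - b1) : ℝ) : ℂ) * Complex.I) *
      exp (((Real.pi * (1 - b3) : ℝ) : ℂ) * Complex.I) *
      exp (((Real.pi * (1 - b5) : ℝ) : ℂ) * Complex.I)) := by
        conv_lhs => rw [h1, h3, h5]
        ring
    _ = -(c0 * c2 * c4) := by rw [he, hr]; ring

theorem x6_1 (hc : P.CCW) (S : Arcs P 6) (b : ZMod 6 → ℝ) (hb : S.ChordAng b)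
    (h : ∀ j, S.Plus j (j + 3)) (e1 : b 1 + b 3 + b 5 = 2) (e2 : b 0 + b 2 + b 4 = 2) :
    HasPeriodic P := by
  have _ := e2
  have q0 : (0 : ZMod 6) + 1 = 1 := rfl
  have q1 : (1 : ZMod 6) + 1 = 2 := rfl
  have q2 : (2 : ZMod 6) + 1 = 3 := rfl
  have q3 : (3 : ZMod 6) + 1 = 4 := rfl
  have q4 : (4 : ZMod 6) + 1 = 5 := rfl
  have q5 : (5 : ZMod 6) + 1 = 0 := rfl
  have hne : ∀ j, S.ch j ≠ 0 := S.ch_ne (by norm_num)
  have c0 : S.ch 0 = S.V 1 - S.V 0 := rfl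
  have c1 : S.ch 1 = S.V 2 - S.V 1 := rfl
  have c2 : S.ch 2 = S.V 3 - S.V 2 := rfl
  have c3 : S.ch 3 = S.V 4 - S.V 3 := rfl
  have c4 : S.ch 4 = S.V 5 - S.V 4 := rfl
  have c5 : S.ch 5 = S.V 0 - S.V 5 := rfl
  have n0 : ‖S.ch 0‖ = ‖S.ch 3‖ := S.norm_plus (h 0)
  have n1 : ‖S.ch 1‖ = ‖S.ch 4‖ := S.norm_plus (h 1)
  have n2 : ‖S.ch 2‖ = ‖S.ch 5‖ := S.norm_plus (h 2)
  have hp : S.ch 1 * S.ch 3 * S.ch 5 = -(S.ch 0 * S.ch 2 * S.ch 4) :=
    X6a_prod (hne 0) (hne 1) (hne 2) n0 n1 n2 (hb 1) (hb 3) (hb 5) e1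
  have hA : cr (S.V 0) (S.V 1) + cr (S.V 1) (S.V 2) + cr (S.V 2) (S.V 3) +
      cr (S.V 3) (S.V 4) + cr (S.V 4) (S.V 5) + cr (S.V 5) (S.V 0) ≠ 0 := by
    have g1 : (0 : ENNReal) < volume P.region := by
      have g2 : (0 : ENNReal) < volume P.inner :=
        P.inner_open.measure_pos volume P.inner_nonempty
      refine lt_of_lt_of_le g2 (measure_mono ?_)
      rw [P.region_union]
      exact subset_union_right
    have g3 : volume P.region ≠ ⊤ := P.region_bounded.measure_lt_top.ne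
    have g4 : 0 < (volume P.region).toReal := ENNReal.toReal_pos g1.ne' g3
    have g5 := S.area hc (by norm_num) (fun j => j + 3) (by decide)
      (fun j => Or.inr ⟨true, h j⟩)
    rw [X6a_sum] at g5
    intro g6
    rw [g6] at g5
    linarith
  have p0 : S.V 4 - S.V 3 = -(S.V 1 - S.V 0) := by
    rw [c0, c3] at n0
    rw [c1, c4] at n1
    rw [c2, c5] at n2
    rw [c0, c1, c2, c3, c4, c5] at hp
    exact X6a_core n0 n1 n2 (hne 3) (hne 4) (hne 5) hp hA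
  have p1 : S.V 5 - S.V 4 = -(S.V 2 - S.V 1) := by
    rw [c0, c3] at n0
    rw [c1, c4] at n1
    rw [c2, c5] at n2
    rw [c0, c1, c2, c3, c4, c5] at hp
    refine X6a_core n1 n2 n0.symm (hne 4) (hne 5) (hne 0) ?_ ?_
    · linear_combination hp
    · intro g
      apply hA
      linear_combination g
  have p2 : S.V 0 - S.V 5 = -(S.V 3 - S.V 2) := by linear_combination -p0 - p1
  have e4 : S.V 4 = S.V 3 - S.V 1 + S.V 0 := by linear_combination p0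
  have e5 : S.V 5 = S.V 3 - S.V 2 + S.V 0 := by linear_combination -p2
  refine p1_arc S hc (by norm_num) (S.V 3 - S.V 1) (S.V 4 - S.V 2) (fun j => j + 3) (by decide)
    ![(-1, 0), (0, -1), (1, -1), (1, 0), (0, 1), (-1, 1)] (by decide) h ?_ ?_
  · intro j
    fin_cases j
    · change S.V 3 + lv (S.V 3 - S.V 1) (S.V 4 - S.V 2) (-1, 0) = S.V 1 ∧
        S.V 4 + lv (S.V 3 - S.V 1) (S.V 4 - S.V 2) (-1, 0) = S.V 0
      unfold lv
      rw [e4]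
      push_cast
      constructor <;> ring
    · change S.V 4 + lv (S.V 3 - S.V 1) (S.V 4 - S.V 2) (0, -1) = S.V 2 ∧
        S.V 5 + lv (S.V 3 - S.V 1) (S.V 4 - S.V 2) (0, -1) = S.V 1
      unfold lv
      rw [e4, e5]
      push_cast
      constructor <;> ring
    · change S.V 5 + lv (S.V 3 - S.V 1) (S.V 4 - S.V 2) (1, -1) = S.V 3 ∧
        S.V 0 + lv (S.V 3 - S.V 1) (S.V 4 - S.V 2) (1, -1) = S.V 2
      unfold lv
      rw [e4, e5]
      push_cast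
      constructor <;> ring
    · change S.V 0 + lv (S.V 3 - S.V 1) (S.V 4 - S.V 2) (1, 0) = S.V 4 ∧
        S.V 1 + lv (S.V 3 - S.V 1) (S.V 4 - S.V 2) (1, 0) = S.V 3
      unfold lv
      rw [e4]
      push_cast
      constructor <;> ring
    · change S.V 1 + lv (S.V 3 - S.V 1) (S.V 4 - S.V 2) (0, 1) = S.V 5 ∧
        S.V 2 + lv (S.V 3 - S.V 1) (S.V 4 - S.V 2) (0, 1) = S.V 4
      unfold lv
      rw [e4, e5]
      push_cast
      constructor <;> ring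
    · change S.V 2 + lv (S.V 3 - S.V 1) (S.V 4 - S.V 2) (-1, 1) = S.V 0 ∧
        S.V 3 + lv (S.V 3 - S.V 1) (S.V 4 - S.V 2) (-1, 1) = S.V 5
      unfold lv
      rw [e4, e5]
      push_cast
      constructor <;> ring
  · rw [X6a_sum, e4, e5]
    have : cr (S.V 0) (S.V 1) + cr (S.V 1) (S.V 2) + cr (S.V 2) (S.V 3) +
        cr (S.V 3) (S.V 3 - S.V 1 + S.V 0) +
        cr (S.V 3 - S.V 1 + S.V 0) (S.V 3 - S.V 2 + S.V 0) +
        cr (S.V 3 - S.V 2 + S.V 0) (S.V 0) =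
        2 * cr (S.V 3 - S.V 1) (S.V 3 - S.V 1 + S.V 0 - S.V 2) := by
      unfold cr
      simp only [sub_re, sub_im, add_re, add_im]
      ring
    rw [this, abs_mul, abs_of_pos (by norm_num : (0 : ℝ) < 2)]

end Pool.Agent.Lib_MP_fa6e45
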