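import Pool.Agent.Lib_MP_fa6e45.X1f
import Pool.Agent.Lib_MP_fa6e45.X2a

/-!
PIECE X6b (about 150 lines): hexagon with arcs, C3^6, as in `critD` (V7b): `ChordAng.rot` and `rot_arc`
(`k = 3`, `o = V1`).
-/

open Set MeasureTheory Complex
open scoped Topology

namespace Pool.Agent.Lib_MP_fa6e45

open Pool.Agent.Lib_PL (cr InSector Poly)

variable {n : ℕ} {P : Polygon n}

private theorem X6b_omega : ∃ s : ℝ, s * s = 3 / 4 ∧
    exp (((Real.pi * (2 / 3) : ℝ) : ℂ) * Complex.I) = ⟨-(1 / 2), s⟩ := by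
  have e : Real.pi * (2 / 3) = Real.pi - Real.pi / 3 := by ring
  refine ⟨Real.sqrt 3 / 2, ?_, ?_⟩
  · have := Real.mul_self_sqrt (show (0 : ℝ) ≤ 3 by norm_num)
    linarith
  · apply Complex.ext
    · rw [Complex.exp_ofReal_mul_I_re, e, Real.cos_pi_sub, Real.cos_pi_div_three]
    · rw [Complex.exp_ofReal_mul_I_im, e, Real.sin_pi_sub, Real.sin_pi_div_three]

theorem x6_2 (hc : P.CCW) (S : Arcs P 6) (b : ZMod 6 → ℝ) (hb : S.ChordAng b) (h0 : S.Plus 0 1)
    (h1 : S.Plus 1 0) (h2 : S.Plus 2 3) (h3 : S.Plus 3 2) (h4 : S.Plus 4 5) (h5 : S.Plus 5 4)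
    (e1 : 3 * b 1 = 2) (e3 : 3 * b 3 = 2) (e5 : 3 * b 5 = 2) : HasPeriodic P := by
  obtain ⟨s, hss, hω⟩ := X6b_omega
  have b1 : b 1 = 2 / 3 := by linarith
  have b3 : b 3 = 2 / 3 := by linarith
  have b5 : b 5 = 2 / 3 := by linarith
  have r1 := hb.rot (by norm_num) 1 (S.norm_plus h0)
  have r3 := hb.rot (by norm_num) 3 (S.norm_plus h2)
  have r5 := hb.rot (by norm_num) 5 (S.norm_plus h4)
  rw [b1, hω] at r1
  rw [b3, hω] at r3
  rw [b5, hω] at r5
  have q1 : S.V 0 - S.V 1 = (⟨-(1 / 2), s⟩ : ℂ) * (S.V 2 - S.V 1) := r1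
  have q3 : S.V 2 - S.V 3 = (⟨-(1 / 2), s⟩ : ℂ) * (S.V 4 - S.V 3) := r3
  have q5 : S.V 4 - S.V 5 = (⟨-(1 / 2), s⟩ : ℂ) * (S.V 0 - S.V 5) := r5
  clear r1 r3 r5 hω
  obtain ⟨ω, hz⟩ : ∃ ω : ℂ, ω = ⟨-(1 / 2), s⟩ := ⟨_, rfl⟩
  rw [← hz] at q1 q3 q5
  have hω2 : ω ^ 2 = -1 - ω := by
    rw [hz]
    apply Complex.ext
    · simp [pow_two]
      linarith
    · simp [pow_two]
      ring
  have hω3 : ω ^ 3 = 1 := by linear_combination (ω - 1) * hω2
  have hω1 : ‖ω‖ = 1 := by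
    have h1 : ‖ω‖ ^ 3 = 1 := by
      rw [← norm_pow, hω3, norm_one]
    exact (pow_eq_one_iff_of_nonneg (norm_nonneg _) (by norm_num)).1 h1
  have hω2' : ω ^ 2 = ((-1 : ℤ) : ℂ) + ((-1 : ℤ) : ℂ) * ω := by
    rw [hω2]
    push_cast
    ring
  have hne : 1 - ω ≠ 0 := by
    intro h
    have h6 := congrArg Complex.re h
    rw [hz] at h6
    simp at h6
    norm_num at h6
  obtain ⟨o, a, c, E1, E2, E3⟩ : ∃ o a c : ℂ, S.V 1 = o ∧ S.V 2 = o + a ∧ S.V 3 = o + c :=
    ⟨S.V 1, S.V 2 - S.V 1, S.V 3 - S.V 1, rfl, by ring, by ring⟩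
  have E0 : S.V 0 = o + ω * a := by
    rw [E1, E2] at q1
    linear_combination q1
  have E4 : S.V 4 = o + ((-1 - ω) * a + (2 + ω) * c) := by
    rw [E2, E3] at q3
    linear_combination (-ω ^ 2) * q3 - (S.V 4 - o) * hω3 + a * hω2 + c * hω3 - c * hω2
  have E5 : S.V 5 = o + (1 + ω) * c := by
    rw [E0, E4] at q5
    apply mul_left_cancel₀ hne
    linear_combination -q5 - a * hω2 + c * hω2
  refine rot_arc S hc (by norm_num) 3 (by norm_num) ω ((1 - ω) * c) o hω1 hω3 (-1) (-1) hω2' ?_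
    (![1, 0, 3, 2, 5, 4] : Fin 6 → ZMod 6) (by decide) (![1, 2, 1, 2, 1, 2] : Fin 6 → ℕ) (by decide)
    (![(0, 0), (0, 0), (1, 0), (1, 1), (1, 1), (0, 1)] : Fin 6 → ℤ × ℤ) (by decide) ?_ ?_ ?_
  · rintro ⟨a, b⟩
    simp only [Function.iterate_succ, Function.iterate_zero, Function.comp, id, rmul]
    ext <;> simp
  · intro j
    fin_cases j
    · exact h0
    · exact h1
    · exact h2
    · exact h3
    · exact h4
    · exact h5
  · intro y
    fin_cases y
    · show ω ^ 1 * (S.V 1 - o) + o + lv _ _ (0, 0) = S.V 1 ∧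
        ω ^ 1 * (S.V 2 - o) + o + lv _ _ (0, 0) = S.V 0
      simp only [lv]
      push_cast
      rw [E0, E1, E2]
      constructor <;> ring
    · show ω ^ 2 * (S.V 0 - o) + o + lv _ _ (0, 0) = S.V 2 ∧
        ω ^ 2 * (S.V 1 - o) + o + lv _ _ (0, 0) = S.V 1
      simp only [lv]
      push_cast
      rw [E0, E1, E2]
      constructor
      · linear_combination a * hω3
      · ring
    · show ω ^ 1 * (S.V 3 - o) + o + lv _ _ (1, 0) = S.V 3 ∧
        ω ^ 1 * (S.V 4 - o) + o + lv _ _ (1, 0) = S.V 2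
      simp only [lv]
      push_cast
      rw [E3, E4, E2]
      constructor
      · ring
      · linear_combination (c - a) * hω2
    · show ω ^ 2 * (S.V 2 - o) + o + lv _ _ (1, 1) = S.V 4 ∧
        ω ^ 2 * (S.V 3 - o) + o + lv _ _ (1, 1) = S.V 3
      simp only [lv]
      push_cast
      rw [E3, E4, E2]
      constructor
      · linear_combination (a - c) * hω2
      · ring
    · show ω ^ 1 * (S.V 5 - o) + o + lv _ _ (1, 1) = S.V 5 ∧
        ω ^ 1 * (S.V 0 - o) + o + lv _ _ (1, 1) = S.V 4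
      simp only [lv]
      push_cast
      rw [E0, E4, E5]
      constructor
      · ring
      · linear_combination (a - c) * hω2
    · show ω ^ 2 * (S.V 4 - o) + o + lv _ _ (0, 1) = S.V 0 ∧
        ω ^ 2 * (S.V 5 - o) + o + lv _ _ (0, 1) = S.V 5
      simp only [lv]
      push_cast
      rw [E0, E4, E5]
      constructor
      · linear_combination (ω * c - ω * a) * hω2
      · linear_combination c * hω3
  · have hsum : ∑ j : ZMod 6, cr (S.V j) (S.V (j + 1)) = cr (S.V 0) (S.V 1) + cr (S.V 1) (S.V 2) +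
        cr (S.V 2) (S.V 3) + cr (S.V 3) (S.V 4) + cr (S.V 4) (S.V 5) + cr (S.V 5) (S.V 0) :=
      Fin.sum_univ_six (fun i : ZMod 6 => cr (S.V i) (S.V (i + 1)))
    rw [hsum, E0, E1, E2, E3, E4, E5]
    have key : 2 * cr ((1 - ω) * c) (ω * ((1 - ω) * c)) =
        3 * (cr (o + ω * a) o + cr o (o + a) + cr (o + a) (o + c) +
          cr (o + c) (o + ((-1 - ω) * a + (2 + ω) * c)) +
          cr (o + ((-1 - ω) * a + (2 + ω) * c)) (o + (1 + ω) * c) +
          cr (o + (1 + ω) * c) (o + ω * a)) := by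
      rw [hz]
      simp only [cr, mul_re, mul_im, add_re, add_im, sub_re, sub_im, neg_re, neg_im, re_ofNat,
        im_ofNat, one_re, one_im]
      linear_combination (2 * (-3 * a.im * c.re + 3 * a.re * c.im + s * c.im * c.im +
        s * c.re * c.re)) * hss
    have k2 := congrArg abs key
    rw [abs_mul, abs_mul] at k2
    norm_num at k2
    push_cast
    linarith

end Pool.Agent.Lib_MP_fa6e45
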