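import Pool.Agent.Lib_MP_fa6e45.X1g
import Pool.Agent.Lib_MP_fa6e45.X2a

/-!
PIECE X6c (about 250 lines): hexagons with arcs, group pgg. `x6_3` (C G1 C G2 G1 G2): `vecC` (V4d) for chords,
`ch 0 = A conj (ch 2)`, `ch 1 = - A conj (ch 4)`, and `pgg_arc` as in `critC` (V7a). `x6_4` (G G T C C T): `ch 5 = - ch 2`
(`par3`), glide between arcs 0, 1, half turns on arcs 3, 4 (`A = ch 0 / conj (ch 1)`, `κ = 0` on arcs 2, 5;
`β` from the half turn on arc 3).
-/

open Set MeasureTheory Complex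
open scoped Topology

namespace Pool.Agent.Lib_MP_fa6e45

open Pool.Agent.Lib_PL (cr InSector Poly)

variable {n : ℕ} {P : Polygon n}

private noncomputable def X6cE (x : ℝ) : ℂ := exp ((x : ℂ) * Complex.I)

private theorem X6cE_add (x y : ℝ) : X6cE (x + y) = X6cE x * X6cE y := by
  unfold X6cE
  rw [← Complex.exp_add]
  congr 1
  push_cast
  ring

private theorem X6cE_pi : X6cE Real.pi = -1 := by
  unfold X6cE
  exact Complex.exp_pi_mul_I

private theorem X6cE_conj (x : ℝ) : (starRingEnd ℂ) (X6cE x) = X6cE (-x) := by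
  unfold X6cE
  rw [← Complex.exp_conj]
  congr 1
  simp

private theorem X6c_turn {S : Arcs P 6} {b : ZMod 6 → ℝ} (hb : S.ChordAng b) (i j : ZMod 6)
    (h : j - 1 = i) :
    S.ch j = S.ch i * ((‖S.ch j‖ / ‖S.ch i‖ : ℝ) : ℂ) * X6cE (Real.pi * (1 - b j)) := by
  have h1 := hb j
  rw [h] at h1
  exact h1

private theorem X6c_conj (A x y : ℂ) (hAA : A * (starRingEnd ℂ) A = 1)
    (h : x = A * (starRingEnd ℂ) y) : y = A * (starRingEnd ℂ) x := by
  rw [h, map_mul, Complex.conj_conj]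
  linear_combination (-y) * hAA

private theorem X6c_norm (A : ℂ) (hA : ‖A‖ = 1) :
    A * (starRingEnd ℂ) A = 1 ∧ A.re ^ 2 + A.im ^ 2 = 1 := by
  constructor
  · rw [Complex.mul_conj, Complex.normSq_eq_norm_sq, hA]
    simp
  · have h1 := Complex.sq_norm A
    rw [hA, Complex.normSq_apply] at h1
    nlinarith

private theorem X6c_sum6 (f : ZMod 6 → ℝ) : ∑ i, f i = f 0 + f 1 + f 2 + f 3 + f 4 + f 5 :=
  Fin.sum_univ_six f

private theorem X6c_area3 (A a b c e : ℂ) (hN : A.re ^ 2 + A.im ^ 2 = 1) :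
    2 * (cr a b + cr b c + cr c (c + A * (starRingEnd ℂ) (b - a)) +
      cr (c + A * (starRingEnd ℂ) (b - a)) e + cr e (e - A * (starRingEnd ℂ) (c - b)) +
      cr (e - A * (starRingEnd ℂ) (c - b)) a) =
    cr ((a - A * (starRingEnd ℂ) c) + A * (starRingEnd ℂ) (a - A * (starRingEnd ℂ) c))
      ((b + A * (starRingEnd ℂ) e) - A * (starRingEnd ℂ) (b + A * (starRingEnd ℂ) e)) := by
  unfold cr
  simp only [add_re, add_im, sub_re, sub_im, mul_re, mul_im, conj_re, conj_im]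
  linear_combination (a.im * b.re + a.im * e.im * A.im - 2 * a.im * e.re + a.im * e.re * A.re - a.re * b.im + 2
      * a.re * e.im + a.re * e.im * A.re - a.re * e.re * A.im + b.im * c.im * A.im + 2 * b.im *
      c.re + b.im * c.re * A.re - 2 * b.re * c.im + b.re * c.im * A.re - b.re * c.re * A.im - 2
      * c.im * e.im * A.im + 2 * c.im * e.re - 2 * c.im * e.re * A.re + c.im * e.re * A.re ^ 2 +
      c.im * e.re * A.im ^ 2 - 2 * c.re * e.im - 2 * c.re * e.im * A.re - c.re * e.im * A.re ^ 2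
      - c.re * e.im * A.im ^ 2 + 2 * c.re * e.re * A.im) * hN

private theorem X6c_area4 (A a b d e : ℂ) (hN : A.re ^ 2 + A.im ^ 2 = 1) :
    2 * (cr a b + cr b (b + A * (starRingEnd ℂ) (b - a)) +
      cr (b + A * (starRingEnd ℂ) (b - a)) d + cr d e +
      cr e (d + a - (b + A * (starRingEnd ℂ) (b - a))) +
      cr (d + a - (b + A * (starRingEnd ℂ) (b - a))) a) =
    cr ((a - A * (starRingEnd ℂ) b) + A * (starRingEnd ℂ) (a - A * (starRingEnd ℂ) b))
      (A * (starRingEnd ℂ) (d + e - (a - A * (starRingEnd ℂ) b)) -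
        A * (starRingEnd ℂ) (A * (starRingEnd ℂ) (d + e - (a - A * (starRingEnd ℂ) b)))) := by
  unfold cr
  simp only [add_re, add_im, sub_re, sub_im, mul_re, mul_im, conj_re, conj_im]
  linear_combination (A.im*A.re^2*b.im^2 - A.im*A.re^2*b.re^2 + A.im*a.im*d.im + A.im*a.im*e.im
    - A.im*a.im^2 - A.im*a.re*d.re - A.im*a.re*e.re + A.im*a.re^2 + (-2)*A.im*b.im*d.im
    + (-2)*A.im*b.im*e.im + (2)*A.im*b.im^2 + (2)*A.im*b.re*d.re + (2)*A.im*b.re*e.re
    + (-2)*A.im*b.re^2 + (2)*A.im^2*A.re*b.im*b.re + (2)*A.im^2*a.im*b.re + (-2)*A.im^2*a.re*b.im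
    + A.im^2*b.im*d.re + A.im^2*b.im*e.re - A.im^2*b.re*d.im - A.im^2*b.re*e.im + A.im^3*b.im^2
    - A.im^3*b.re^2 + (-2)*A.re*a.im*a.re + A.re*a.im*d.re + A.re*a.im*e.re + A.re*a.re*d.im
    + A.re*a.re*e.im + (4)*A.re*b.im*b.re + (-2)*A.re*b.im*d.re + (-2)*A.re*b.im*e.re
    + (-2)*A.re*b.re*d.im + (-2)*A.re*b.re*e.im + (2)*A.re^2*a.im*b.re + (-2)*A.re^2*a.re*b.im
    + A.re^2*b.im*d.re + A.re^2*b.im*e.re - A.re^2*b.re*d.im - A.re^2*b.re*e.im
    + (2)*A.re^3*b.im*b.re + (4)*a.im*b.re + (-2)*a.im*d.re + (-2)*a.im*e.re + (-4)*a.re*b.im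
    + (2)*a.re*d.im + (2)*a.re*e.im + (2)*b.im*d.re + (2)*b.im*e.re + (-2)*b.re*d.im
    + (-2)*b.re*e.im) * hN

private theorem X6c_all (p : ZMod 6 → Prop) (h0 : p 0) (h1 : p 1) (h2 : p 2) (h3 : p 3)
    (h4 : p 4) (h5 : p 5) : ∀ y, p y := by
  intro y
  fin_cases y
  · exact h0
  · exact h1
  · exact h2
  · exact h3
  · exact h4
  · exact h5

/-- the chord vectors of a hexagon `C G1 C G2 G1 G2` -/
private theorem X6c_vec (S : Arcs P 6) (b : ZMod 6 → ℝ) (hb : S.ChordAng b)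
    (h02 : ‖S.ch 0‖ = ‖S.ch 2‖) (h14 : ‖S.ch 1‖ = ‖S.ch 4‖) (e1 : b 1 + b 3 + b 4 = 2) :
    ∃ A : ℂ, ‖A‖ = 1 ∧ S.ch 0 = A * (starRingEnd ℂ) (S.ch 2) ∧
      S.ch 1 = -(A * (starRingEnd ℂ) (S.ch 4)) := by
  have c0 := S.ch_ne (by norm_num) 0
  have c2 := S.ch_ne (by norm_num) 2
  have c3 := S.ch_ne (by norm_num) 3
  have n0 : (‖S.ch 0‖ : ℂ) ≠ 0 := by exact_mod_cast (norm_pos_iff.2 c0).ne'
  have n2 : (‖S.ch 2‖ : ℂ) ≠ 0 := by exact_mod_cast (norm_pos_iff.2 c2).ne'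
  have n3 : (‖S.ch 3‖ : ℂ) ≠ 0 := by exact_mod_cast (norm_pos_iff.2 c3).ne'
  have hne : (starRingEnd ℂ) (S.ch 2) ≠ 0 := by
    rw [Ne, map_eq_zero]
    exact c2
  have t1 := X6c_turn hb 0 1 (by decide)
  have t3 := X6c_turn hb 2 3 (by decide)
  have t4 := X6c_turn hb 3 4 (by decide)
  refine ⟨S.ch 0 / (starRingEnd ℂ) (S.ch 2), ?_, ?_, ?_⟩
  · rw [norm_div, RCLike.norm_conj, h02]
    exact div_self (norm_pos_iff.2 c2).ne'
  · rw [div_mul_cancel₀ _ hne]
  · have e2 : X6cE (Real.pi * (1 - b 1)) =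
        -(X6cE (-(Real.pi * (1 - b 3))) * X6cE (-(Real.pi * (1 - b 4)))) := by
      have : Real.pi * (1 - b 1) =
          (-(Real.pi * (1 - b 3)) + -(Real.pi * (1 - b 4))) + Real.pi := by
        linear_combination (-Real.pi) * e1
      rw [this, X6cE_add, X6cE_add, X6cE_pi]
      ring
    have k4 : (starRingEnd ℂ) (S.ch 4) = (starRingEnd ℂ) (S.ch 2) *
        ((‖S.ch 4‖ : ℂ) / (‖S.ch 2‖ : ℂ)) *
        (X6cE (-(Real.pi * (1 - b 3))) * X6cE (-(Real.pi * (1 - b 4)))) := by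
      have q4 := congrArg (starRingEnd ℂ) t4
      have q3 := congrArg (starRingEnd ℂ) t3
      simp only [map_mul, X6cE_conj, Complex.conj_ofReal] at q4 q3
      rw [q4, q3]
      push_cast
      field_simp
    rw [t1, k4, e2, h14, h02]
    push_cast
    field_simp

theorem x6_3 (hc : P.CCW) (S : Arcs P 6) (b : ZMod 6 → ℝ) (hb : S.ChordAng b) (h0 : S.Minus 0 2)
    (h2 : S.Minus 2 0) (h1 : S.Minus 1 4) (h4 : S.Minus 4 1) (h3 : S.Plus 3 3) (h5 : S.Plus 5 5)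
    (e1 : b 1 + b 3 + b 4 = 2) : HasPeriodic P := by
  obtain ⟨A, hA, k0, k1⟩ := X6c_vec S b hb (S.norm_minus h0) (S.norm_minus h1) e1
  obtain ⟨hAA, hN⟩ := X6c_norm A hA
  have f1 : (0 : ZMod 6) + 1 = 1 := rfl
  have f2 : (1 : ZMod 6) + 1 = 2 := rfl
  have f3 : (2 : ZMod 6) + 1 = 3 := rfl
  have f4 : (3 : ZMod 6) + 1 = 4 := rfl
  have f5 : (4 : ZMod 6) + 1 = 5 := rfl
  have f6 : (5 : ZMod 6) + 1 = 0 := rfl
  simp only [Arcs.ch, f1, f2, f3, f5] at k0 k1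
  have k3 : S.V 3 = S.V 2 + A * (starRingEnd ℂ) (S.V 1 - S.V 0) := by
    have := X6c_conj A _ _ hAA k0
    linear_combination this
  have k5 : S.V 5 = S.V 4 - A * (starRingEnd ℂ) (S.V 2 - S.V 1) := by
    have := X6c_conj A (S.V 2 - S.V 1) (-(S.V 5 - S.V 4)) hAA (by
      rw [k1, map_neg]
      ring)
    linear_combination -this
  have hcr : 2 * (∑ j, cr (S.V j) (S.V (j + 1))) =
      cr ((S.V 0 - A * (starRingEnd ℂ) (S.V 2)) +
          A * (starRingEnd ℂ) (S.V 0 - A * (starRingEnd ℂ) (S.V 2)))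
        ((S.V 1 + A * (starRingEnd ℂ) (S.V 4)) -
          A * (starRingEnd ℂ) (S.V 1 + A * (starRingEnd ℂ) (S.V 4))) := by
    rw [X6c_sum6, f1, f2, f3, f4, f5, f6, ← X6c_area3 A _ _ _ _ hN, k3, k5]
  refine pgg_arc S hc (by norm_num) A (S.V 0 - A * (starRingEnd ℂ) (S.V 2))
    (S.V 1 + A * (starRingEnd ℂ) (S.V 4)) hA ![2, 4, 0, 3, 1, 5] (by decide)
    ![2, 3, 2, 1, 3, 1] (by decide) ![(0, 0), (0, 0), (-1, 0), (-1, 0), (0, -1), (0, 0)]
    (by decide) ?_ ?_ ?_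
  · intro j
    fin_cases j
    · exact h0
    · exact h1
    · exact h2
    · exact h3
    · exact h4
    · exact h5
  · simp only [map_sub] at k0 k1 k3 k5
    refine X6c_all _ ?_ ?_ ?_ ?_ ?_ ?_
    · simp [lv, pgg, f3]
      linear_combination -k0
    · simp [lv, pgg, f2, f5]
      linear_combination -k1
    · simp [lv, pgg, f3]
      constructor
      · linear_combination S.V 2 * hAA
      · linear_combination S.V 2 * hAA - k3
    · simp [lv, pgg, f4]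
      constructor <;> linear_combination (S.V 4 + S.V 2) * hAA - k3
    · simp [lv, pgg, f5, f2]
      constructor
      · linear_combination S.V 4 * hAA
      · linear_combination S.V 4 * hAA - k5
    · simp [lv, pgg, f6]
      constructor <;> linear_combination S.V 4 * hAA - k5
  · rw [← hcr, abs_mul, abs_of_pos (by norm_num : (0 : ℝ) < 2)]

theorem x6_4 (hc : P.CCW) (S : Arcs P 6) (b : ZMod 6 → ℝ) (hb : S.ChordAng b) (h0 : S.Minus 0 1)
    (h1 : S.Minus 1 0) (h2 : S.Plus 2 5) (h5 : S.Plus 5 2) (h3 : S.Plus 3 3) (h4 : S.Plus 4 4)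
    (e1 : b 3 + b 4 + b 5 = 2) : HasPeriodic P := by
  have f1 : (0 : ZMod 6) + 1 = 1 := rfl
  have f2 : (1 : ZMod 6) + 1 = 2 := rfl
  have f3 : (2 : ZMod 6) + 1 = 3 := rfl
  have f4 : (3 : ZMod 6) + 1 = 4 := rfl
  have f5 : (4 : ZMod 6) + 1 = 5 := rfl
  have f6 : (5 : ZMod 6) + 1 = 0 := rfl
  have c1 := S.ch_ne (by norm_num) 1
  have hne : (starRingEnd ℂ) (S.ch 1) ≠ 0 := by
    rw [Ne, map_eq_zero]
    exact c1
  have kp : S.ch 5 = -S.ch 2 := hb.par3 (by norm_num) 2 (S.norm_plus h2) e1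
  obtain ⟨A, hA, k0⟩ : ∃ A : ℂ, ‖A‖ = 1 ∧ S.ch 0 = A * (starRingEnd ℂ) (S.ch 1) := by
    refine ⟨S.ch 0 / (starRingEnd ℂ) (S.ch 1), ?_, ?_⟩
    · rw [norm_div, RCLike.norm_conj, S.norm_minus h0]
      exact div_self (norm_pos_iff.2 c1).ne'
    · rw [div_mul_cancel₀ _ hne]
  obtain ⟨hAA, hN⟩ := X6c_norm A hA
  simp only [Arcs.ch, f1, f2, f3, f6] at k0 kp
  have k2 : S.V 2 = S.V 1 + A * (starRingEnd ℂ) (S.V 1 - S.V 0) := by
    have := X6c_conj A _ _ hAA k0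
    linear_combination this
  have k5 : S.V 5 = S.V 3 + S.V 0 - S.V 2 := by
    linear_combination -kp
  have hcr : 2 * (∑ j, cr (S.V j) (S.V (j + 1))) =
      cr ((S.V 0 - A * (starRingEnd ℂ) (S.V 1)) +
          A * (starRingEnd ℂ) (S.V 0 - A * (starRingEnd ℂ) (S.V 1)))
        (A * (starRingEnd ℂ) (S.V 3 + S.V 4 - (S.V 0 - A * (starRingEnd ℂ) (S.V 1))) -
          A * (starRingEnd ℂ)
            (A * (starRingEnd ℂ) (S.V 3 + S.V 4 - (S.V 0 - A * (starRingEnd ℂ) (S.V 1))))) := by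
    rw [X6c_sum6, f1, f2, f3, f4, f5, f6, ← X6c_area4 A _ _ _ _ hN, k5, k2]
  refine pgg_arc S hc (by norm_num) A (S.V 0 - A * (starRingEnd ℂ) (S.V 1))
    (A * (starRingEnd ℂ) (S.V 3 + S.V 4 - (S.V 0 - A * (starRingEnd ℂ) (S.V 1)))) hA
    ![1, 0, 5, 3, 4, 2] (by decide)
    ![2, 2, 0, 1, 1, 0] (by decide) ![(0, 0), (-1, 0), (-1, 0), (0, 0), (1, 0), (1, 0)]
    (by decide) ?_ ?_ ?_
  · intro j
    fin_cases j
    · exact h0
    · exact h1
    · exact h2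
    · exact h3
    · exact h4
    · exact h5
  · simp only [map_sub] at k0 k2
    refine X6c_all _ ?_ ?_ ?_ ?_ ?_ ?_
    · simp [lv, pgg, f2]
      linear_combination -k0
    · simp [lv, pgg, f2]
      constructor
      · linear_combination S.V 1 * hAA
      · linear_combination S.V 1 * hAA - k2
    · simp [lv, pgg, f3, f6]
      constructor
      · linear_combination k5 - k2 + S.V 1 * hAA
      · linear_combination -k2 + S.V 1 * hAA
    · simp [lv, pgg, f4]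
      constructor <;>
        linear_combination (S.V 3 + S.V 4 - S.V 0 + A * (starRingEnd ℂ) (S.V 1)) * hAA
    · simp [lv, pgg, f5]
      constructor <;>
        linear_combination (S.V 3 + S.V 4 - S.V 0 + A * (starRingEnd ℂ) (S.V 1) - S.V 1) * hAA
          - k5 + k2
    · simp [lv, pgg, f6, f3]
      constructor
      · linear_combination k2 - S.V 1 * hAA
      · linear_combination k2 - k5 - S.V 1 * hAA
  · rw [← hcr, abs_mul, abs_of_pos (by norm_num : (0 : ℝ) < 2)]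

end Pool.Agent.Lib_MP_fa6e45
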