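import Pool.Agent.Lib_MP_fa6e45.X1e
import Pool.Agent.Lib_MP_fa6e45.X2a
import Pool.Agent.Lib_MP_fa6e45.T1a

/-!
PIECE X6d (about 300 lines): hexagons with arcs, group pg. `x6_5` (T G1 G2 T G2 G1 rotated: glides 0-2, 3-5,
translation 1, 4): `mid_par` (V4c) for chords: `ch 4 = - ch 1` (its proof uses the norms, the angle condition, closing
and the shoelace sum `≠ 0`), then the glides from arc 2 to arc 0 and from arc 5 to arc 3 have parallel axes:
`pg_arc`. `x6_6` (G1 G1 T G2 G2 T): `ch 5 = - ch 2` (`par3`), glides 0-1 and 3-4 with parallel axes (closing: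
`ch 0 + ch 1 = - (ch 3 + ch 4)`), `pg_arc`.
-/

open Set MeasureTheory Complex
open scoped Topology

namespace Pool.Agent.Lib_MP_fa6e45

open Pool.Agent.Lib_PL (cr InSector Poly)

variable {n : ℕ} {P : Polygon n}

private theorem X6d_cr_conj {A : ℂ} (hA : A * (starRingEnd ℂ) A = 1) (u v : ℂ) :
    cr (A * (starRingEnd ℂ) u) (A * (starRingEnd ℂ) v) = -cr u v := by
  have h : A.re * A.re + A.im * A.im = 1 := by
    have h1 := congrArg Complex.re hA
    simp only [mul_re, conj_re, conj_im, one_re] at h1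
    linarith
  unfold cr
  simp only [mul_re, mul_im, conj_re, conj_im]
  linear_combination (-(u.re * v.im - u.im * v.re)) * h

private theorem X6d_cr_rot {A : ℂ} (hA : A * (starRingEnd ℂ) A = 1) (u v : ℂ) :
    cr (A * u) (A * v) = cr u v := by
  have h : A.re * A.re + A.im * A.im = 1 := by
    have h1 := congrArg Complex.re hA
    simp only [mul_re, conj_re, conj_im, one_re] at h1
    linarith
  unfold cr
  simp only [mul_re, mul_im]
  linear_combination (u.re * v.im - u.im * v.re) * h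

private theorem X6d_cr_sum (v0 v1 v2 v3 v4 v5 c : ℂ) :
    cr v0 v1 + cr v1 v2 + cr v2 v3 + cr v3 v4 + cr v4 v5 + cr v5 v0 =
      cr (v0 - c) (v1 - c) + cr (v1 - c) (v2 - c) + cr (v2 - c) (v3 - c) + cr (v3 - c) (v4 - c) +
        cr (v4 - c) (v5 - c) + cr (v5 - c) (v0 - c) := by
  unfold cr
  simp only [sub_re, sub_im]
  ring

private theorem X6d_fix {A B s t : ℂ} (hA : A * (starRingEnd ℂ) A = 1)
    (hB : B * (starRingEnd ℂ) B = 1) (hne : A ≠ B) (hs : s + A * (starRingEnd ℂ) s = 0)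
    (ht : t + B * (starRingEnd ℂ) t = 0) :
    ∃ c : ℂ, A * (starRingEnd ℂ) c + s = c ∧ B * (starRingEnd ℂ) c + t = c := by
  have hA0 : A ≠ 0 := by
    rintro rfl
    simp at hA
  have hB0 : B ≠ 0 := by
    rintro rfl
    simp at hB
  have hAB : A - B ≠ 0 := sub_ne_zero.2 hne
  have hcA : (starRingEnd ℂ) A = A⁻¹ := eq_inv_of_mul_eq_one_right hA
  have hcB : (starRingEnd ℂ) B = B⁻¹ := eq_inv_of_mul_eq_one_right hB
  have hcs : (starRingEnd ℂ) s = -(s / A) := by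
    field_simp
    linear_combination hs
  have hct : (starRingEnd ℂ) t = -(t / B) := by
    field_simp
    linear_combination ht
  have hBA : B - A ≠ 0 := sub_ne_zero.2 hne.symm
  have hc : (starRingEnd ℂ) ((A * t - B * s) / (A - B)) = (t - s) / (A - B) := by
    simp only [map_div₀, map_sub, map_mul, hcA, hcB, hcs, hct]
    have h1 : A⁻¹ - B⁻¹ = (B - A) / (A * B) := by field_simp
    rw [h1]
    field_simp
    ring
  refine ⟨(A * t - B * s) / (A - B), ?_, ?_⟩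
  · rw [hc]
    field_simp
    ring
  · rw [hc]
    field_simp
    ring

private theorem X6d_alg {v0 v1 v2 v3 v4 v5 A B : ℂ} (hA : A * (starRingEnd ℂ) A = 1)
    (hB : B * (starRingEnd ℂ) B = 1) (h0 : v1 - v0 = A * (starRingEnd ℂ) (v3 - v2))
    (h3 : v4 - v3 = B * (starRingEnd ℂ) (v0 - v5))
    (h1 : v2 - v1 = -(A * (starRingEnd ℂ) B * (v5 - v4))) (hne : A ≠ B) :
    cr v0 v1 + cr v1 v2 + cr v2 v3 + cr v3 v4 + cr v4 v5 + cr v5 v0 = 0 := by
  obtain ⟨s, hs⟩ : ∃ s : ℂ, A * (starRingEnd ℂ) v2 + s = v0 := ⟨v0 - A * (starRingEnd ℂ) v2, by ring⟩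
  obtain ⟨t, ht⟩ : ∃ t : ℂ, B * (starRingEnd ℂ) v5 + t = v3 := ⟨v3 - B * (starRingEnd ℂ) v5, by ring⟩
  rw [map_sub] at h0 h3
  have hs3 : A * (starRingEnd ℂ) v3 + s = v1 := by linear_combination hs - h0
  have ht0 : B * (starRingEnd ℂ) v0 + t = v4 := by linear_combination ht - h3
  have hst5 : A * (starRingEnd ℂ) (B * (starRingEnd ℂ) v5 + t) + s = v1 := by rw [ht, hs3]
  have hst4 : A * (starRingEnd ℂ) (B * (starRingEnd ℂ) v4 + t) + s = v2 := by
    simp only [map_add, map_mul, conj_conj] at hst5 ⊢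
    linear_combination hst5 - h1
  have hw : (t + B * (starRingEnd ℂ) t) + (s + A * (starRingEnd ℂ) s) = 0 := by
    have e1 := congrArg (starRingEnd ℂ) hst4
    have e2 := congrArg (starRingEnd ℂ) ht0
    simp only [map_add, map_mul, conj_conj] at e1 e2
    linear_combination A * e1 - (B * (starRingEnd ℂ) v4 + t) * hA + hs + B * e2 - v0 * hB
  have hcA : A * (starRingEnd ℂ) (s + A * (starRingEnd ℂ) s) = s + A * (starRingEnd ℂ) s := by
    simp only [map_add, map_mul, conj_conj]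
    linear_combination s * hA
  have hcB : B * (starRingEnd ℂ) (t + B * (starRingEnd ℂ) t) = t + B * (starRingEnd ℂ) t := by
    simp only [map_add, map_mul, conj_conj]
    linear_combination t * hB
  have hs0 : s + A * (starRingEnd ℂ) s = 0 := by
    have h2 : (A - B) * (starRingEnd ℂ) (s + A * (starRingEnd ℂ) s) = 0 := by
      have h3 : t + B * (starRingEnd ℂ) t = -(s + A * (starRingEnd ℂ) s) := by
        linear_combination hw
      rw [h3, map_neg] at hcB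
      linear_combination hcA + hcB
    rcases mul_eq_zero.1 h2 with h | h
    · exact absurd (sub_eq_zero.1 h) hne
    · exact (map_eq_zero (starRingEnd ℂ)).1 h
  have ht0' : t + B * (starRingEnd ℂ) t = 0 := by
    rw [hs0, add_zero] at hw
    exact hw
  obtain ⟨c, hc1, hc2⟩ := X6d_fix hA hB hne hs0 ht0'
  have k0 : v0 - c = A * (starRingEnd ℂ) (v2 - c) := by
    rw [map_sub]
    linear_combination hc1 - hs
  have k1 : v1 - c = A * (starRingEnd ℂ) (v3 - c) := by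
    rw [map_sub]
    linear_combination hc1 - hs3
  have k3 : v3 - c = B * (starRingEnd ℂ) (v5 - c) := by
    rw [map_sub]
    linear_combination hc2 - ht
  have k4 : v4 - c = B * (starRingEnd ℂ) (v0 - c) := by
    rw [map_sub]
    linear_combination hc2 - ht0
  have k1' : v1 - c = A * (starRingEnd ℂ) B * (v5 - c) := by
    rw [k1, k3, map_mul, conj_conj]
    ring
  have k2 : v2 - c = A * (starRingEnd ℂ) B * (v4 - c) := by
    linear_combination h1 + k1'
  have hAB : A * (starRingEnd ℂ) B * (starRingEnd ℂ) (A * (starRingEnd ℂ) B) = 1 := by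
    rw [map_mul, conj_conj]
    linear_combination (starRingEnd ℂ) B * B * hA + hB
  have r1 : cr (v0 - c) (v1 - c) = -cr (v2 - c) (v3 - c) := by
    rw [k0, k1]
    exact X6d_cr_conj hA _ _
  have r2 : cr (v3 - c) (v4 - c) = -cr (v5 - c) (v0 - c) := by
    rw [k3, k4]
    exact X6d_cr_conj hB _ _
  have r3 : cr (v1 - c) (v2 - c) = cr (v5 - c) (v4 - c) := by
    rw [k1', k2]
    exact X6d_cr_rot hAB _ _
  rw [X6d_cr_sum v0 v1 v2 v3 v4 v5 c, r1, r2, r3, Pool.Agent.Lib_PL.cr_swap (v5 - c) (v4 - c)]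
  ring

private theorem X6d_unit {x y : ℂ} (hy : y ≠ 0) (h : ‖x‖ = ‖y‖) :
    ∃ A : ℂ, A * (starRingEnd ℂ) A = 1 ∧ x = A * (starRingEnd ℂ) y := by
  have hy' : (starRingEnd ℂ) y ≠ 0 := by simpa using hy
  refine ⟨x / (starRingEnd ℂ) y, ?_, by field_simp⟩
  rw [map_div₀, conj_conj, div_mul_div_comm, Complex.mul_conj, mul_comm ((starRingEnd ℂ) y) y,
    Complex.mul_conj, Complex.normSq_eq_norm_sq, Complex.normSq_eq_norm_sq, h]
  have : ‖y‖ ≠ 0 := norm_ne_zero_iff.2 hy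
  have h2 : ((‖y‖ ^ 2 : ℝ) : ℂ) ≠ 0 := by exact_mod_cast pow_ne_zero 2 this
  exact div_self h2

private theorem X6d_norm {A : ℂ} (hA : A * (starRingEnd ℂ) A = 1) : ‖A‖ = 1 := by
  rw [Complex.mul_conj, Complex.normSq_eq_norm_sq] at hA
  have h : ‖A‖ ^ 2 = 1 := by exact_mod_cast hA
  exact (pow_eq_one_iff_of_nonneg (norm_nonneg A) two_ne_zero).1 h

private theorem X6d_sum6 (f : ZMod 6 → ℝ) : ∑ i, f i = f 0 + f 1 + f 2 + f 3 + f 4 + f 5 :=
  Fin.sum_univ_six f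

private theorem X6d_all {p : ZMod 6 → Prop} (h0 : p 0) (h1 : p 1) (h2 : p 2) (h3 : p 3)
    (h4 : p 4) (h5 : p 5) : ∀ j, p j := by
  intro j
  fin_cases j
  · exact h0
  · exact h1
  · exact h2
  · exact h3
  · exact h4
  · exact h5

private theorem X6d_e : (0 : ZMod 6) + 1 = 1 ∧ (1 : ZMod 6) + 1 = 2 ∧ (2 : ZMod 6) + 1 = 3 ∧
    (3 : ZMod 6) + 1 = 4 ∧ (4 : ZMod 6) + 1 = 5 ∧ (5 : ZMod 6) + 1 = 0 := by decide

private theorem X6d_crA {A w : ℂ} (hA : A * (starRingEnd ℂ) A = 1)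
    (hw : A * (starRingEnd ℂ) w = -w) (x : ℂ) : cr (A * (starRingEnd ℂ) x) w = cr x w := by
  have h := X6d_cr_conj hA x w
  rw [hw, Pool.Agent.Lib_PL.cr_neg_right] at h
  linarith

/-- the three products of turns -/
private theorem X6d_prod {c0 c1 c2 c3 c4 c5 : ℂ} {b1 b3 b5 : ℝ}
    (n0 : c0 ≠ 0) (n2 : c2 ≠ 0) (n4 : c4 ≠ 0) (h02 : ‖c0‖ = ‖c2‖)
    (h14 : ‖c1‖ = ‖c4‖) (h35 : ‖c3‖ = ‖c5‖)
    (t1 : c1 = c0 * ((‖c1‖ / ‖c0‖ : ℝ) : ℂ) * exp (((Real.pi * (1 - b1) : ℝ) : ℂ) * Complex.I))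
    (t3 : c3 = c2 * ((‖c3‖ / ‖c2‖ : ℝ) : ℂ) * exp (((Real.pi * (1 - b3) : ℝ) : ℂ) * Complex.I))
    (t5 : c5 = c4 * ((‖c5‖ / ‖c4‖ : ℝ) : ℂ) * exp (((Real.pi * (1 - b5) : ℝ) : ℂ) * Complex.I))
    (e1 : b1 + b3 + b5 = 2) :
    c1 * c3 * c5 * (c2 * (starRingEnd ℂ) c2) = -(c0 * c2 * c4 * (c5 * (starRingEnd ℂ) c5)) := by
  have p0 : ‖c0‖ ≠ 0 := norm_ne_zero_iff.2 n0
  have p2 : ‖c2‖ ≠ 0 := norm_ne_zero_iff.2 n2
  have p4 : ‖c4‖ ≠ 0 := norm_ne_zero_iff.2 n4
  have hE : exp (((Real.pi * (1 - b1) : ℝ) : ℂ) * Complex.I) *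
      exp (((Real.pi * (1 - b3) : ℝ) : ℂ) * Complex.I) *
      exp (((Real.pi * (1 - b5) : ℝ) : ℂ) * Complex.I) = -1 := by
    rw [← Complex.exp_add, ← Complex.exp_add, ← Complex.exp_pi_mul_I]
    congr 1
    have h1 : b1 = 2 - b3 - b5 := by linarith
    rw [h1]
    push_cast
    ring
  have hk : ((‖c1‖ / ‖c0‖ : ℝ) : ℂ) * ((‖c3‖ / ‖c2‖ : ℝ) : ℂ) * ((‖c5‖ / ‖c4‖ : ℝ) : ℂ) =
      ((‖c3‖ ^ 2 / ‖c2‖ ^ 2 : ℝ) : ℂ) := by
    rw [← Complex.ofReal_mul, ← Complex.ofReal_mul]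
    congr 1
    rw [h02, h14, ← h35]
    field_simp
  have k2 : c2 * (starRingEnd ℂ) c2 = ((‖c2‖ ^ 2 : ℝ) : ℂ) := by
    rw [Complex.mul_conj, Complex.normSq_eq_norm_sq]
  have k5 : c5 * (starRingEnd ℂ) c5 = ((‖c3‖ ^ 2 : ℝ) : ℂ) := by
    rw [Complex.mul_conj, Complex.normSq_eq_norm_sq, h35]
  have hprod : c1 * c3 * c5 = -(c0 * c2 * c4 * ((‖c3‖ ^ 2 / ‖c2‖ ^ 2 : ℝ) : ℂ)) := by
    rw [← hk]
    calc c1 * c3 * c5 = (c0 * ((‖c1‖ / ‖c0‖ : ℝ) : ℂ) *
          exp (((Real.pi * (1 - b1) : ℝ) : ℂ) * Complex.I)) *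
          (c2 * ((‖c3‖ / ‖c2‖ : ℝ) : ℂ) * exp (((Real.pi * (1 - b3) : ℝ) : ℂ) * Complex.I)) *
          (c4 * ((‖c5‖ / ‖c4‖ : ℝ) : ℂ) * exp (((Real.pi * (1 - b5) : ℝ) : ℂ) * Complex.I)) := by
            rw [← t1, ← t3, ← t5]
      _ = _ := by
            linear_combination (c0 * c2 * c4 * (((‖c1‖ / ‖c0‖ : ℝ) : ℂ) *
              ((‖c3‖ / ‖c2‖ : ℝ) : ℂ) * ((‖c5‖ / ‖c4‖ : ℝ) : ℂ))) * hE
  have p2' : ((‖c2‖ : ℝ) : ℂ) ≠ 0 := by exact_mod_cast p2
  rw [k2, k5, hprod]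
  push_cast
  field_simp

/-- the common glide -/
private theorem X6d_mid {v0 v1 v2 v3 v4 v5 : ℂ} (n1 : v2 - v1 ≠ 0) (n2 : v3 - v2 ≠ 0)
    (n5 : v0 - v5 ≠ 0) (h02 : ‖v1 - v0‖ = ‖v3 - v2‖) (h35 : ‖v4 - v3‖ = ‖v0 - v5‖)
    (hp : (v2 - v1) * (v4 - v3) * (v0 - v5) * ((v3 - v2) * (starRingEnd ℂ) (v3 - v2)) =
      -((v1 - v0) * (v3 - v2) * (v5 - v4) * ((v0 - v5) * (starRingEnd ℂ) (v0 - v5))))
    (hS : cr v0 v1 + cr v1 v2 + cr v2 v3 + cr v3 v4 + cr v4 v5 + cr v5 v0 ≠ 0) :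
    ∃ A : ℂ, A * (starRingEnd ℂ) A = 1 ∧ v1 - v0 = A * (starRingEnd ℂ) (v3 - v2) ∧
      v4 - v3 = A * (starRingEnd ℂ) (v0 - v5) ∧ v5 - v4 = -(v2 - v1) := by
  obtain ⟨A, hA, hA2⟩ := X6d_unit n2 h02
  obtain ⟨B, hB, hB2⟩ := X6d_unit n5 h35
  set e0 := v1 - v0 with he0
  set e1 := v2 - v1 with he1
  set e2 := v3 - v2 with he2
  set e3 := v4 - v3 with he3
  set e4 := v5 - v4 with he4
  set e5 := v0 - v5 with he5
  have he1' : e1 = -(A * (starRingEnd ℂ) B * e4) := by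
    have c2' : (starRingEnd ℂ) e2 ≠ 0 := by simpa using n2
    have c5' : (starRingEnd ℂ) e5 ≠ 0 := by simpa using n5
    have h2 : (e5 * e2 * (starRingEnd ℂ) e2 * (starRingEnd ℂ) e5) * (e1 * B) =
        (e5 * e2 * (starRingEnd ℂ) e2 * (starRingEnd ℂ) e5) * (-(A * e4)) := by
      rw [hA2, hB2] at hp
      linear_combination hp
    have h3 : e1 * B = -(A * e4) := by
      refine mul_left_cancel₀ ?_ h2
      exact mul_ne_zero (mul_ne_zero (mul_ne_zero n5 n2) c2') c5'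
    linear_combination (starRingEnd ℂ) B * h3 - e1 * hB
  by_cases hne : A = B
  · subst hne
    refine ⟨A, hA, hA2, hB2, ?_⟩
    rw [he1', hA]
    ring
  · exfalso
    exact hS (X6d_alg hA hB hA2 hB2 he1' hne)

private theorem X6d_pos (hc : P.CCW) (S : Arcs P 6) (τ : ZMod 6 → ZMod 6)
    (hτ : ∀ j, τ (τ j) = j) (h : ∀ j, ∃ b, S.Rel j (τ j) b) :
    cr (S.V 0) (S.V 1) + cr (S.V 1) (S.V 2) + cr (S.V 2) (S.V 3) + cr (S.V 3) (S.V 4) +
      cr (S.V 4) (S.V 5) + cr (S.V 5) (S.V 0) ≠ 0 := by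
  obtain ⟨i01, i12, i23, i34, i45, i50⟩ := X6d_e
  have h1 := S.area hc (by norm_num) τ hτ fun j => Or.inr (h j)
  rw [X6d_sum6, i01, i12, i23, i34, i45, i50] at h1
  have h2 := P.volume_pos
  intro h3
  rw [h3] at h1
  linarith

theorem x6_5 (hc : P.CCW) (S : Arcs P 6) (b : ZMod 6 → ℝ) (hb : S.ChordAng b) (h0 : S.Minus 0 2)
    (h2 : S.Minus 2 0) (h1 : S.Plus 1 4) (h4 : S.Plus 4 1) (h3 : S.Minus 3 5) (h5 : S.Minus 5 3)
    (e1 : b 1 + b 3 + b 5 = 2) (e2 : b 0 + b 2 + b 4 = 2) : HasPeriodic P := by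
  obtain ⟨i01, i12, i23, i34, i45, i50⟩ := X6d_e
  have rel : ∀ j : ZMod 6, S.Rel j ((![2, 4, 0, 5, 1, 3] : ZMod 6 → ZMod 6) j)
      (!((![true, false, true, true, false, true] : ZMod 6 → Bool) j)) := by
    intro j
    fin_cases j
    · exact h0
    · exact h1
    · exact h2
    · exact h3
    · exact h4
    · exact h5
  have hτ : ∀ j : ZMod 6, (![2, 4, 0, 5, 1, 3] : ZMod 6 → ZMod 6)
      ((![2, 4, 0, 5, 1, 3] : ZMod 6 → ZMod 6) j) = j := by decide
  have hS := X6d_pos hc S ![2, 4, 0, 5, 1, 3] hτ fun j => ⟨_, rel j⟩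
  have m0 := S.ch_ne (by norm_num) 0
  have m1 := S.ch_ne (by norm_num) 1
  have m2 := S.ch_ne (by norm_num) 2
  have m4 := S.ch_ne (by norm_num) 4
  have m5 := S.ch_ne (by norm_num) 5
  have l02 := S.norm_minus h0
  have l14 := S.norm_plus h1
  have l35 := S.norm_minus h3
  have t1 := hb 1
  have t3 := hb 3
  have t5 := hb 5
  have j1 : (1 : ZMod 6) - 1 = 0 := by decide
  have j3 : (3 : ZMod 6) - 1 = 2 := by decide
  have j5 : (5 : ZMod 6) - 1 = 4 := by decide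
  rw [j1] at t1
  rw [j3] at t3
  rw [j5] at t5
  have hp := X6d_prod m0 m2 m4 l02 l14 l35 t1 t3 t5 e1
  simp only [Arcs.ch, i01, i12, i23, i34, i45, i50] at hp m1 m2 m5 l02 l35
  obtain ⟨A, hA, k0, k3, k4⟩ := X6d_mid m1 m2 m5 l02 l35 hp hS
  clear hp m0 m1 m2 m4 m5 l02 l14 l35 t1 t3 t5 hτ
  have hA1 := X6d_norm hA
  have k0c := congrArg (starRingEnd ℂ) k0
  have k3c := congrArg (starRingEnd ℂ) k3
  simp only [map_sub, map_mul, conj_conj] at k0c k3c k0 k3
  -- `w = V 4 - V 2`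
  have hw : A * (starRingEnd ℂ) (S.V 4 - S.V 2) = -(S.V 4 - S.V 2) := by
    rw [map_sub]
    linear_combination A * k3c + (S.V 0 - S.V 5) * hA - k0 - k4
  refine pg_arc S hc (by norm_num) A (S.V 0 - A * (starRingEnd ℂ) (S.V 2)) (S.V 4 - S.V 2) hA1 hw
    ![2, 4, 0, 5, 1, 3] (by decide) ![true, false, true, true, false, true] (by decide)
    ![(0, 0), (0, -1), (-1, 0), (-1, 1), (0, 1), (0, 1)] (by decide) rel ?_ ?_ ?_
  · refine X6d_all ?_ ?_ ?_ ?_ ?_ ?_
    · exact fun h => absurd h (by decide)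
    · intro _
      show S.V 4 + lv _ _ (0, -1) = S.V (1 + 1) ∧ S.V (4 + 1) + lv _ _ (0, -1) = S.V 1
      rw [i12, i45]
      simp only [lv]
      push_cast
      exact ⟨by ring, by linear_combination k4⟩
    · exact fun h => absurd h (by decide)
    · exact fun h => absurd h (by decide)
    · intro _
      show S.V 1 + lv _ _ (0, 1) = S.V (4 + 1) ∧ S.V (1 + 1) + lv _ _ (0, 1) = S.V 4
      rw [i12, i45]
      simp only [lv]
      push_cast
      exact ⟨by linear_combination -k4, by ring⟩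
    · exact fun h => absurd h (by decide)
  · refine X6d_all ?_ ?_ ?_ ?_ ?_ ?_
    · intro _
      show A * (starRingEnd ℂ) (S.V 2) + _ + lv _ _ (0, 0) = S.V 0 ∧
        A * (starRingEnd ℂ) (S.V (2 + 1)) + _ + lv _ _ (0, 0) = S.V (0 + 1)
      rw [i23, i01]
      simp only [lv]
      push_cast
      exact ⟨by ring, by linear_combination -k0⟩
    · exact fun h => absurd h (by decide)
    · intro _
      show A * (starRingEnd ℂ) (S.V 0) + _ + lv _ _ (-1, 0) = S.V 2 ∧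
        A * (starRingEnd ℂ) (S.V (0 + 1)) + _ + lv _ _ (-1, 0) = S.V (2 + 1)
      rw [i23, i01]
      simp only [lv, map_sub, map_mul, conj_conj]
      push_cast
      exact ⟨by linear_combination S.V 2 * hA, by linear_combination S.V 3 * hA + A * k0c⟩
    · intro _
      show A * (starRingEnd ℂ) (S.V 5) + _ + lv _ _ (-1, 1) = S.V 3 ∧
        A * (starRingEnd ℂ) (S.V (5 + 1)) + _ + lv _ _ (-1, 1) = S.V (3 + 1)
      rw [i34, i50]
      simp only [lv, map_sub, map_mul, conj_conj]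
      push_cast
      exact ⟨by linear_combination S.V 2 * hA + k3, by linear_combination S.V 2 * hA⟩
    · exact fun h => absurd h (by decide)
    · intro _
      show A * (starRingEnd ℂ) (S.V 3) + _ + lv _ _ (0, 1) = S.V 5 ∧
        A * (starRingEnd ℂ) (S.V (3 + 1)) + _ + lv _ _ (0, 1) = S.V (5 + 1)
      rw [i34, i50]
      simp only [lv, map_sub, map_mul, conj_conj]
      push_cast
      exact ⟨by linear_combination -k0 - k4,
        by linear_combination A * k3c + (S.V 0 - S.V 5) * hA - k0 - k4⟩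
  · rw [X6d_sum6, i01, i12, i23, i34, i45, i50]
    have hcr : cr (S.V 0) (S.V 1) + cr (S.V 1) (S.V 2) + cr (S.V 2) (S.V 3) + cr (S.V 3) (S.V 4) +
        cr (S.V 4) (S.V 5) + cr (S.V 5) (S.V 0) =
        -cr ((S.V 0 - A * (starRingEnd ℂ) (S.V 2)) +
          A * (starRingEnd ℂ) (S.V 0 - A * (starRingEnd ℂ) (S.V 2))) (S.V 4 - S.V 2) := by
      have g5 : S.V 5 = S.V 1 + (S.V 4 - S.V 2) := by linear_combination k4
      have g4 : S.V 4 = S.V 2 + (S.V 4 - S.V 2) := by ring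
      have g1 : S.V 1 = S.V 0 + (A * (starRingEnd ℂ) (S.V 3) - A * (starRingEnd ℂ) (S.V 2)) := by
        linear_combination k0
      have q0 := X6d_crA hA hw (S.V 0)
      have q2 := X6d_crA hA hw (S.V 2)
      have q3 := X6d_crA hA hw (S.V 3)
      have hu : (S.V 0 - A * (starRingEnd ℂ) (S.V 2)) +
          A * (starRingEnd ℂ) (S.V 0 - A * (starRingEnd ℂ) (S.V 2)) =
          S.V 0 - A * (starRingEnd ℂ) (S.V 2) + A * (starRingEnd ℂ) (S.V 0) - S.V 2 := by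
        simp only [map_sub, map_mul, conj_conj]
        linear_combination -(S.V 2) * hA
      have h7 : cr (S.V 1) (S.V 4 - S.V 2) = cr (S.V 0) (S.V 4 - S.V 2) +
          cr (S.V 3) (S.V 4 - S.V 2) - cr (S.V 2) (S.V 4 - S.V 2) := by
        conv_lhs => rw [g1]
        rw [Pool.Agent.Lib_PL.cr_add_left, Pool.Agent.Lib_PL.cr_sub_left, q3, q2]
        ring
      rw [hu, Pool.Agent.Lib_PL.cr_sub_left, Pool.Agent.Lib_PL.cr_add_left,
        Pool.Agent.Lib_PL.cr_sub_left, q2, q0]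
      rw [g5]
      generalize S.V 4 - S.V 2 = w at g4 h7 ⊢
      rw [g4]
      unfold cr at h7 ⊢
      simp only [add_re, add_im]
      linarith
    rw [hcr, abs_neg]

private theorem X6d_crB {A u : ℂ} (hA : A * (starRingEnd ℂ) A = 1)
    (hu : A * (starRingEnd ℂ) u = u) (x : ℂ) : cr u (A * (starRingEnd ℂ) x) = -cr u x := by
  have h := X6d_cr_conj hA u x
  rwa [hu] at h

theorem x6_6 (hc : P.CCW) (S : Arcs P 6) (b : ZMod 6 → ℝ) (hb : S.ChordAng b) (h0 : S.Minus 0 1)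
    (h1 : S.Minus 1 0) (h2 : S.Plus 2 5) (h5 : S.Plus 5 2) (h3 : S.Minus 3 4) (h4 : S.Minus 4 3)
    (e1 : b 3 + b 4 + b 5 = 2) : HasPeriodic P := by
  obtain ⟨i01, i12, i23, i34, i45, i50⟩ := X6d_e
  have rel : ∀ j : ZMod 6, S.Rel j ((![1, 0, 5, 4, 3, 2] : ZMod 6 → ZMod 6) j)
      (!((![true, true, false, true, true, false] : ZMod 6 → Bool) j)) :=
    X6d_all h0 h1 h2 h3 h4 h5
  have hτ : ∀ j : ZMod 6, (![1, 0, 5, 4, 3, 2] : ZMod 6 → ZMod 6)
      ((![1, 0, 5, 4, 3, 2] : ZMod 6 → ZMod 6) j) = j := by decide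
  have hS := X6d_pos hc S ![1, 0, 5, 4, 3, 2] hτ fun j => ⟨_, rel j⟩
  have m1 := S.ch_ne (by norm_num) 1
  have m4 := S.ch_ne (by norm_num) 4
  have l01 := S.norm_minus h0
  have l34 := S.norm_minus h3
  have k5 := hb.par3 (by norm_num) 2 (S.norm_plus h2) e1
  have j5 : (2 : ZMod 6) + 3 = 5 := by decide
  rw [j5] at k5
  obtain ⟨A, hA, k0⟩ := X6d_unit m1 l01
  obtain ⟨B, hB, k3⟩ := X6d_unit m4 l34
  have k0c := congrArg (starRingEnd ℂ) k0
  have k3c := congrArg (starRingEnd ℂ) k3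
  simp only [Arcs.ch, i01, i12, i23, i34, i45, i50, map_sub, map_mul, conj_conj] at k0 k3 k0c k3c k5
  have kk0 : A * (starRingEnd ℂ) (S.V 1) - A * (starRingEnd ℂ) (S.V 0) = S.V 2 - S.V 1 := by
    linear_combination A * k0c + (S.V 2 - S.V 1) * hA
  have kk3 : B * (starRingEnd ℂ) (S.V 4) - B * (starRingEnd ℂ) (S.V 3) = S.V 5 - S.V 4 := by
    linear_combination B * k3c + (S.V 5 - S.V 4) * hB
  have hAB : A = B := by
    by_contra hne
    have k5c := congrArg (starRingEnd ℂ) k5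
    simp only [map_sub, map_neg] at k5c
    have g : (A - B) * (starRingEnd ℂ) (S.V 0 - S.V 2) = 0 := by
      rw [map_sub]
      linear_combination -kk0 + k0 - B * k5c - kk3 + k3 + k5
    rcases mul_eq_zero.1 g with h | h
    · exact hne (sub_eq_zero.1 h)
    · have g2 : S.V 0 - S.V 2 = 0 := (map_eq_zero (starRingEnd ℂ)).1 h
      have g3 : S.V 2 = S.V 0 := by linear_combination -g2
      have g4 : S.V 5 = S.V 3 := by linear_combination -k5 + g2
      apply hS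
      rw [g3, g4]
      unfold cr
      ring
  subst hAB
  have hA1 := X6d_norm hA
  have hw : A * (starRingEnd ℂ)
      (S.V 4 - A * (starRingEnd ℂ) (S.V 3) - S.V 0 + A * (starRingEnd ℂ) (S.V 1)) =
      -(S.V 4 - A * (starRingEnd ℂ) (S.V 3) - S.V 0 + A * (starRingEnd ℂ) (S.V 1)) := by
    simp only [map_sub, map_add, map_mul, conj_conj]
    linear_combination (S.V 1 - S.V 3) * hA + kk3 + kk0 - k5
  have hu : (S.V 0 - A * (starRingEnd ℂ) (S.V 1)) +
      A * (starRingEnd ℂ) (S.V 0 - A * (starRingEnd ℂ) (S.V 1)) = S.V 0 - S.V 2 := by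
    simp only [map_sub, map_mul, conj_conj]
    linear_combination -kk0 - S.V 1 * hA
  have huu : A * (starRingEnd ℂ) (S.V 0 - S.V 2) = S.V 0 - S.V 2 := by
    rw [map_sub]
    linear_combination -kk0 + k0
  refine pg_arc S hc (by norm_num) A (S.V 0 - A * (starRingEnd ℂ) (S.V 1))
    (S.V 4 - A * (starRingEnd ℂ) (S.V 3) - S.V 0 + A * (starRingEnd ℂ) (S.V 1)) hA1 hw
    ![1, 0, 5, 4, 3, 2] (by decide) ![true, true, false, true, true, false] (by decide)
    ![(0, 0), (-1, 0), (-1, 0), (-1, 1), (0, 1), (1, 0)] (by decide) rel ?_ ?_ ?_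
  · rw [hu]
    refine X6d_all ?_ ?_ ?_ ?_ ?_ ?_
    · exact fun h => absurd h (by decide)
    · exact fun h => absurd h (by decide)
    · intro _
      show S.V 5 + lv _ _ (-1, 0) = S.V (2 + 1) ∧ S.V (5 + 1) + lv _ _ (-1, 0) = S.V 2
      rw [i23, i50]
      simp only [lv]
      push_cast
      exact ⟨by linear_combination -k5, by ring⟩
    · exact fun h => absurd h (by decide)
    · exact fun h => absurd h (by decide)
    · intro _
      show S.V 2 + lv _ _ (1, 0) = S.V (5 + 1) ∧ S.V (2 + 1) + lv _ _ (1, 0) = S.V 5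
      rw [i23, i50]
      simp only [lv]
      push_cast
      exact ⟨by ring, by linear_combination k5⟩
  · rw [hu]
    refine X6d_all ?_ ?_ ?_ ?_ ?_ ?_
    · intro _
      show A * (starRingEnd ℂ) (S.V 1) + _ + lv _ _ (0, 0) = S.V 0 ∧
        A * (starRingEnd ℂ) (S.V (1 + 1)) + _ + lv _ _ (0, 0) = S.V (0 + 1)
      rw [i12, i01]
      simp only [lv]
      push_cast
      exact ⟨by ring, by linear_combination -k0⟩
    · intro _
      show A * (starRingEnd ℂ) (S.V 0) + _ + lv _ _ (-1, 0) = S.V 1 ∧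
        A * (starRingEnd ℂ) (S.V (0 + 1)) + _ + lv _ _ (-1, 0) = S.V (1 + 1)
      rw [i12, i01]
      simp only [lv]
      push_cast
      exact ⟨by linear_combination -kk0, by ring⟩
    · exact fun h => absurd h (by decide)
    · intro _
      show A * (starRingEnd ℂ) (S.V 4) + _ + lv _ _ (-1, 1) = S.V 3 ∧
        A * (starRingEnd ℂ) (S.V (4 + 1)) + _ + lv _ _ (-1, 1) = S.V (3 + 1)
      rw [i34, i45]
      simp only [lv]
      push_cast
      exact ⟨by linear_combination kk3 - k5, by linear_combination kk3 - k5 - k3⟩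
    · intro _
      show A * (starRingEnd ℂ) (S.V 3) + _ + lv _ _ (0, 1) = S.V 4 ∧
        A * (starRingEnd ℂ) (S.V (3 + 1)) + _ + lv _ _ (0, 1) = S.V (4 + 1)
      rw [i34, i45]
      simp only [lv]
      push_cast
      exact ⟨by ring, by linear_combination kk3⟩
    · exact fun h => absurd h (by decide)
  · rw [hu, X6d_sum6, i01, i12, i23, i34, i45, i50]
    have hcr : cr (S.V 0) (S.V 1) + cr (S.V 1) (S.V 2) + cr (S.V 2) (S.V 3) + cr (S.V 3) (S.V 4) +
        cr (S.V 4) (S.V 5) + cr (S.V 5) (S.V 0) =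
        -cr (S.V 0 - S.V 2)
          (S.V 4 - A * (starRingEnd ℂ) (S.V 3) - S.V 0 + A * (starRingEnd ℂ) (S.V 1)) := by
      have q3 := X6d_crB hA huu (S.V 3)
      have q1 := X6d_crB hA huu (S.V 1)
      rw [Pool.Agent.Lib_PL.cr_add_right, Pool.Agent.Lib_PL.cr_sub_right,
        Pool.Agent.Lib_PL.cr_sub_right, q3, q1]
      have g5 : S.V 5 = S.V 3 + (S.V 0 - S.V 2) := by linear_combination -k5
      rw [g5]
      unfold cr
      simp only [add_re, add_im, sub_re, sub_im]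
      ring
    rw [hcr, abs_neg]

end Pool.Agent.Lib_MP_fa6e45
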