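import Pool.Agent.Lib_MP_fa6e45.ZS
import Pool.Agent.Lib_MP_fa6e45.Y5
import Pool.Agent.Lib_MP_fa6e45.X3a
import Pool.Agent.Lib_MP_fa6e45.X3b
import Pool.Agent.Lib_MP_fa6e45.X4a
import Pool.Agent.Lib_MP_fa6e45.X4b
import Pool.Agent.Lib_MP_fa6e45.X4c
import Pool.Agent.Lib_MP_fa6e45.X4d
import Pool.Agent.Lib_MP_fa6e45.X4e
import Pool.Agent.Lib_MP_fa6e45.X4f
import Pool.Agent.Lib_MP_fa6e45.X5a
import Pool.Agent.Lib_MP_fa6e45.X5b
import Pool.Agent.Lib_MP_fa6e45.X5c
import Pool.Agent.Lib_MP_fa6e45.X5d
import Pool.Agent.Lib_MP_fa6e45.X5e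
import Pool.Agent.Lib_MP_fa6e45.X6a
import Pool.Agent.Lib_MP_fa6e45.X6b
import Pool.Agent.Lib_MP_fa6e45.X6c
import Pool.Agent.Lib_MP_fa6e45.X6d

/-!
MP_fa6e45_co, stage 2b: if a scheme applies then there is a periodic tiling (captain).
-/

open Set MeasureTheory Complex
open scoped Topology

namespace Pool.Agent.Lib_MP_fa6e45

open Pool.Agent.Lib_PL (cr InSector Poly)

variable {n : ℕ} {P : Polygon n}

theorem holds3 {x y z r : ℤ} {f : ZMod 3 → ℝ} (h : Eqn.Holds ([x, y, z], r) f) :
    (x : ℝ) * f 0 + y * f 1 + z * f 2 = r := by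
  have h1 : (∑ i : Fin 3, ((([x, y, z] : List ℤ).getD i.val 0 : ℤ) : ℝ) * f i) = (r : ℝ) := h
  rw [Fin.sum_univ_three] at h1
  exact h1

theorem holds4 {x y z t r : ℤ} {f : ZMod 4 → ℝ} (h : Eqn.Holds ([x, y, z, t], r) f) :
    (x : ℝ) * f 0 + y * f 1 + z * f 2 + t * f 3 = r := by
  have h1 : (∑ i : Fin 4, ((([x, y, z, t] : List ℤ).getD i.val 0 : ℤ) : ℝ) * f i) = (r : ℝ) := h
  rw [Fin.sum_univ_four] at h1
  exact h1

theorem holds5 {x y z t u r : ℤ} {f : ZMod 5 → ℝ} (h : Eqn.Holds ([x, y, z, t, u], r) f) :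
    (x : ℝ) * f 0 + y * f 1 + z * f 2 + t * f 3 + u * f 4 = r := by
  have h1 : (∑ i : Fin 5, ((([x, y, z, t, u] : List ℤ).getD i.val 0 : ℤ) : ℝ) * f i) = (r : ℝ) := h
  rw [Fin.sum_univ_five] at h1
  exact h1

theorem holds6 {x y z t u v r : ℤ} {f : ZMod 6 → ℝ} (h : Eqn.Holds ([x, y, z, t, u, v], r) f) :
    (x : ℝ) * f 0 + y * f 1 + z * f 2 + t * f 3 + u * f 4 + v * f 5 = r := by
  have h1 : (∑ i : Fin 6, ((([x, y, z, t, u, v] : List ℤ).getD i.val 0 : ℤ) : ℝ) * f i) =
      (r : ℝ) := h
  rw [Fin.sum_univ_six] at h1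
  exact h1

theorem holds_nil {m : ℕ} [NeZero m] {f : ZMod m → ℝ} (h : Eqn.Holds ([], 1) f) : False := by
  have h1 : (∑ i : ZMod m, ((([] : List ℤ).getD i.val 0 : ℤ) : ℝ) * f i) = ((1 : ℤ) : ℝ) := h
  simp at h1

theorem Arcs.shift_chord {m : ℕ} [NeZero m] {S : Arcs P m} {b : ZMod m → ℝ} (hb : S.ChordAng b)
    (p : ZMod m) : (S.shift p).ChordAng fun i => b (i + p) := by
  intro j
  have e : ∀ j, (S.shift p).ch j = S.ch (j + p) := by
    intro j
    change S.V (j + 1 + p) - S.V (j + p) = S.V (j + p + 1) - S.V (j + p)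
    rw [add_right_comm]
  rw [e, e, show j - 1 + p = j + p - 1 by ring]
  exact hb (j + p)

/-- the scheme applies to the arcs numbered from another arc on -/
theorem applies_shift {m : ℕ} [NeZero m] {S : Arcs P m} {b : ZMod m → ℝ} (hb : S.ChordAng b)
    {tab : ℕ → Sch} (h : Applies tab b S.Rel) : ∃ (k : ℕ) (S' : Arcs P m) (b' : ZMod m → ℝ),
      S'.ChordAng b' ∧ (∀ g ∈ (tab k).glue, S'.Rel g.1 g.2.1 g.2.2) ∧
      ∀ E ∈ (tab k).eqs, Eqn.Holds E b' := by
  obtain ⟨k, p, hg, he⟩ := h
  exact ⟨k, S.shift (p : ZMod m), _, Arcs.shift_chord hb (p : ZMod m), hg, he⟩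

theorem app3 (hc : P.CCW) (S : Arcs P 3) (b : ZMod 3 → ℝ) (hb : S.ChordAng b)
    (h : Applies sch3 b S.Rel) : HasPeriodic P := by
  obtain ⟨k, S, b, hb, hg, he⟩ := applies_shift hb h
  rcases k with _ | _ | _ | _ | _ | k
  · simp only [sch3, List.getD_cons_zero, List.getD_cons_succ, List.forall_mem_cons,
      List.not_mem_nil, IsEmpty.forall_iff, implies_true, and_true, Nat.cast_zero, Nat.cast_one,
      Nat.cast_ofNat] at hg he
    exact x3_0 hc S hg.1 hg.2.1 hg.2.2
  · simp only [sch3, List.getD_cons_zero, List.getD_cons_succ, List.forall_mem_cons,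
      List.not_mem_nil, IsEmpty.forall_iff, implies_true, and_true, Nat.cast_zero, Nat.cast_one,
      Nat.cast_ofNat] at hg he
    exact x3_1 hc S hg.1 hg.2.1 hg.2.2
  · simp only [sch3, List.getD_cons_zero, List.getD_cons_succ, List.forall_mem_cons,
      List.not_mem_nil, IsEmpty.forall_iff, implies_true, and_true, Nat.cast_zero, Nat.cast_one,
      Nat.cast_ofNat] at hg he
    have e0 := holds3 he.1
    norm_num at e0
    have e1 := holds3 he.2
    norm_num at e1
    exact x3_2 hc S b hb hg.1 hg.2.1 hg.2.2 (by linarith) (by linarith)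
  · simp only [sch3, List.getD_cons_zero, List.getD_cons_succ, List.forall_mem_cons,
      List.not_mem_nil, IsEmpty.forall_iff, implies_true, and_true, Nat.cast_zero, Nat.cast_one,
      Nat.cast_ofNat] at hg he
    have e0 := holds3 he.1
    norm_num at e0
    have e1 := holds3 he.2
    norm_num at e1
    exact x3_3 hc S b hb hg.1 hg.2.1 hg.2.2 (by linarith) (by linarith)
  · simp only [sch3, List.getD_cons_zero, List.getD_cons_succ, List.forall_mem_cons,
      List.not_mem_nil, IsEmpty.forall_iff, implies_true, and_true, Nat.cast_zero, Nat.cast_one,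
      Nat.cast_ofNat] at hg he
    have e0 := holds3 he.1
    norm_num at e0
    have e1 := holds3 he.2
    norm_num at e1
    exact x3_4 hc S b hb hg.1 hg.2.1 hg.2.2 (by linarith) (by linarith)
  · exact (holds_nil (he _ (List.mem_singleton.2 rfl))).elim

theorem app4 (hc : P.CCW) (S : Arcs P 4) (b : ZMod 4 → ℝ) (hb : S.ChordAng b)
    (h : Applies sch4 b S.Rel) : HasPeriodic P := by
  obtain ⟨k, S, b, hb, hg, he⟩ := applies_shift hb h
  rcases k with _ | _ | _ | _ | _ | _ | _ | _ | _ | _ | _ | _ | _ | _ | k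
  · simp only [sch4, List.getD_cons_zero, List.getD_cons_succ, List.forall_mem_cons,
      List.not_mem_nil, IsEmpty.forall_iff, implies_true, and_true, Nat.cast_zero, Nat.cast_one,
      Nat.cast_ofNat] at hg he
    exact x4_0 hc S hg.1 hg.2.1 hg.2.2.1 hg.2.2.2
  · simp only [sch4, List.getD_cons_zero, List.getD_cons_succ, List.forall_mem_cons,
      List.not_mem_nil, IsEmpty.forall_iff, implies_true, and_true, Nat.cast_zero, Nat.cast_one,
      Nat.cast_ofNat] at hg he
    exact x4_1 hc S hg.1 hg.2.1 hg.2.2.1 hg.2.2.2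
  · simp only [sch4, List.getD_cons_zero, List.getD_cons_succ, List.forall_mem_cons,
      List.not_mem_nil, IsEmpty.forall_iff, implies_true, and_true, Nat.cast_zero, Nat.cast_one,
      Nat.cast_ofNat] at hg he
    exact x4_2 hc S hg.1 hg.2.1 hg.2.2.1 hg.2.2.2
  · simp only [sch4, List.getD_cons_zero, List.getD_cons_succ, List.forall_mem_cons,
      List.not_mem_nil, IsEmpty.forall_iff, implies_true, and_true, Nat.cast_zero, Nat.cast_one,
      Nat.cast_ofNat] at hg he
    exact x4_3 hc S hg.1 hg.2.1 hg.2.2.1 hg.2.2.2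
  · simp only [sch4, List.getD_cons_zero, List.getD_cons_succ, List.forall_mem_cons,
      List.not_mem_nil, IsEmpty.forall_iff, implies_true, and_true, Nat.cast_zero, Nat.cast_one,
      Nat.cast_ofNat] at hg he
    have e0 := holds4 he
    norm_num at e0
    exact x4_4 hc S b hb hg.1 hg.2.1 hg.2.2.1 hg.2.2.2 (by linarith)
  · simp only [sch4, List.getD_cons_zero, List.getD_cons_succ, List.forall_mem_cons,
      List.not_mem_nil, IsEmpty.forall_iff, implies_true, and_true, Nat.cast_zero, Nat.cast_one,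
      Nat.cast_ofNat] at hg he
    exact x4_5 hc S hg.1 hg.2.1 hg.2.2.1 hg.2.2.2
  · simp only [sch4, List.getD_cons_zero, List.getD_cons_succ, List.forall_mem_cons,
      List.not_mem_nil, IsEmpty.forall_iff, implies_true, and_true, Nat.cast_zero, Nat.cast_one,
      Nat.cast_ofNat] at hg he
    exact x4_6 hc S hg.1 hg.2.1 hg.2.2.1 hg.2.2.2
  · simp only [sch4, List.getD_cons_zero, List.getD_cons_succ, List.forall_mem_cons,
      List.not_mem_nil, IsEmpty.forall_iff, implies_true, and_true, Nat.cast_zero, Nat.cast_one,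
      Nat.cast_ofNat] at hg he
    have e0 := holds4 he
    norm_num at e0
    exact x4_7 hc S b hb hg.1 hg.2.1 hg.2.2.1 hg.2.2.2 (by linarith)
  · simp only [sch4, List.getD_cons_zero, List.getD_cons_succ, List.forall_mem_cons,
      List.not_mem_nil, IsEmpty.forall_iff, implies_true, and_true, Nat.cast_zero, Nat.cast_one,
      Nat.cast_ofNat] at hg he
    have e0 := holds4 he.1
    norm_num at e0
    have e1 := holds4 he.2.1
    norm_num at e1
    have e2 := holds4 he.2.2
    norm_num at e2
    exact x4_8 hc S b hb hg.1 hg.2.1 (S.minus_self _ hg.2.2.1) (S.minus_self _ hg.2.2.2) (by linarith) (by linarith) (by linarith)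
  · simp only [sch4, List.getD_cons_zero, List.getD_cons_succ, List.forall_mem_cons,
      List.not_mem_nil, IsEmpty.forall_iff, implies_true, and_true, Nat.cast_zero, Nat.cast_one,
      Nat.cast_ofNat] at hg he
    have e0 := holds4 he.1
    norm_num at e0
    have e1 := holds4 he.2.1
    norm_num at e1
    have e2 := holds4 he.2.2
    norm_num at e2
    exact x4_9 hc S b hb hg.1 hg.2.1 (S.minus_self _ hg.2.2.1) (S.minus_self _ hg.2.2.2) (by linarith) (by linarith) (by linarith)
  · simp only [sch4, List.getD_cons_zero, List.getD_cons_succ, List.forall_mem_cons,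
      List.not_mem_nil, IsEmpty.forall_iff, implies_true, and_true, Nat.cast_zero, Nat.cast_one,
      Nat.cast_ofNat] at hg he
    have e0 := holds4 he.1
    norm_num at e0
    have e1 := holds4 he.2.1
    norm_num at e1
    have e2 := holds4 he.2.2
    norm_num at e2
    exact x4_10 hc S b hb hg.1 hg.2.1 hg.2.2.1 hg.2.2.2 (by linarith) (by linarith) (by linarith)
  · simp only [sch4, List.getD_cons_zero, List.getD_cons_succ, List.forall_mem_cons,
      List.not_mem_nil, IsEmpty.forall_iff, implies_true, and_true, Nat.cast_zero, Nat.cast_one,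
      Nat.cast_ofNat] at hg he
    have e0 := holds4 he.1
    norm_num at e0
    have e1 := holds4 he.2.1
    norm_num at e1
    have e2 := holds4 he.2.2
    norm_num at e2
    exact x4_11 hc S b hb hg.1 hg.2.1 hg.2.2.1 hg.2.2.2 (by linarith) (by linarith) (by linarith)
  · simp only [sch4, List.getD_cons_zero, List.getD_cons_succ, List.forall_mem_cons,
      List.not_mem_nil, IsEmpty.forall_iff, implies_true, and_true, Nat.cast_zero, Nat.cast_one,
      Nat.cast_ofNat] at hg he
    have e0 := holds4 he.1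
    norm_num at e0
    have e1 := holds4 he.2.1
    norm_num at e1
    have e2 := holds4 he.2.2
    norm_num at e2
    exact x4_12 hc S b hb hg.1 hg.2.1 hg.2.2.1 hg.2.2.2 (by linarith) (by linarith) (by linarith)
  · simp only [sch4, List.getD_cons_zero, List.getD_cons_succ, List.forall_mem_cons,
      List.not_mem_nil, IsEmpty.forall_iff, implies_true, and_true, Nat.cast_zero, Nat.cast_one,
      Nat.cast_ofNat] at hg he
    have e0 := holds4 he.1
    norm_num at e0
    have e1 := holds4 he.2.1
    norm_num at e1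
    have e2 := holds4 he.2.2
    norm_num at e2
    exact x4_13 hc S b hb hg.1 hg.2.1 hg.2.2.1 hg.2.2.2 (by linarith) (by linarith) (by linarith)
  · exact (holds_nil (he _ (List.mem_singleton.2 rfl))).elim

theorem app5 (hc : P.CCW) (S : Arcs P 5) (b : ZMod 5 → ℝ) (hb : S.ChordAng b)
    (h : Applies sch5 b S.Rel) : HasPeriodic P := by
  obtain ⟨k, S, b, hb, hg, he⟩ := applies_shift hb h
  rcases k with _ | _ | _ | _ | _ | _ | _ | _ | k
  · simp only [sch5, List.getD_cons_zero, List.getD_cons_succ, List.forall_mem_cons,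
      List.not_mem_nil, IsEmpty.forall_iff, implies_true, and_true, Nat.cast_zero, Nat.cast_one,
      Nat.cast_ofNat] at hg he
    have e0 := holds5 he
    norm_num at e0
    exact x5_0 hc S b hb (S.minus_self _ hg.1) (S.minus_self _ hg.2.1) hg.2.2.1 hg.2.2.2.1 hg.2.2.2.2 (by linarith)
  · simp only [sch5, List.getD_cons_zero, List.getD_cons_succ, List.forall_mem_cons,
      List.not_mem_nil, IsEmpty.forall_iff, implies_true, and_true, Nat.cast_zero, Nat.cast_one,
      Nat.cast_ofNat] at hg he
    have e0 := holds5 he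
    norm_num at e0
    exact x5_1 hc S b hb hg.1 hg.2.1 hg.2.2.1 hg.2.2.2.1 hg.2.2.2.2 (by linarith)
  · simp only [sch5, List.getD_cons_zero, List.getD_cons_succ, List.forall_mem_cons,
      List.not_mem_nil, IsEmpty.forall_iff, implies_true, and_true, Nat.cast_zero, Nat.cast_one,
      Nat.cast_ofNat] at hg he
    have e0 := holds5 he
    norm_num at e0
    exact x5_2 hc S b hb hg.1 hg.2.1 hg.2.2.1 hg.2.2.2.1 hg.2.2.2.2 (by linarith)
  · simp only [sch5, List.getD_cons_zero, List.getD_cons_succ, List.forall_mem_cons,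
      List.not_mem_nil, IsEmpty.forall_iff, implies_true, and_true, Nat.cast_zero, Nat.cast_one,
      Nat.cast_ofNat] at hg he
    have e0 := holds5 he
    norm_num at e0
    exact x5_3 hc S b hb hg.1 hg.2.1 hg.2.2.1 hg.2.2.2.1 hg.2.2.2.2 (by linarith)
  · simp only [sch5, List.getD_cons_zero, List.getD_cons_succ, List.forall_mem_cons,
      List.not_mem_nil, IsEmpty.forall_iff, implies_true, and_true, Nat.cast_zero, Nat.cast_one,
      Nat.cast_ofNat] at hg he
    have e0 := holds5 he.1
    norm_num at e0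
    have e1 := holds5 he.2
    norm_num at e1
    exact x5_4 hc S b hb hg.1 hg.2.1 hg.2.2.1 hg.2.2.2.1 hg.2.2.2.2 (by linarith) (by linarith)
  · simp only [sch5, List.getD_cons_zero, List.getD_cons_succ, List.forall_mem_cons,
      List.not_mem_nil, IsEmpty.forall_iff, implies_true, and_true, Nat.cast_zero, Nat.cast_one,
      Nat.cast_ofNat] at hg he
    have e0 := holds5 he.1
    norm_num at e0
    have e1 := holds5 he.2
    norm_num at e1
    exact x5_5 hc S b hb hg.1 hg.2.1 hg.2.2.1 hg.2.2.2.1 hg.2.2.2.2 (by linarith) (by linarith)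
  · simp only [sch5, List.getD_cons_zero, List.getD_cons_succ, List.forall_mem_cons,
      List.not_mem_nil, IsEmpty.forall_iff, implies_true, and_true, Nat.cast_zero, Nat.cast_one,
      Nat.cast_ofNat] at hg he
    have e0 := holds5 he.1
    norm_num at e0
    have e1 := holds5 he.2
    norm_num at e1
    exact x5_6 hc S b hb hg.1 hg.2.1 hg.2.2.1 hg.2.2.2.1 hg.2.2.2.2 (by linarith) (by linarith)
  · simp only [sch5, List.getD_cons_zero, List.getD_cons_succ, List.forall_mem_cons,
      List.not_mem_nil, IsEmpty.forall_iff, implies_true, and_true, Nat.cast_zero, Nat.cast_one,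
      Nat.cast_ofNat] at hg he
    have e0 := holds5 he.1
    norm_num at e0
    have e1 := holds5 he.2
    norm_num at e1
    exact (x5_7 hc S b hb hg.1 hg.2 (by linarith) (by linarith)).elim
  · exact (holds_nil (he _ (List.mem_singleton.2 rfl))).elim

theorem app6 (hc : P.CCW) (S : Arcs P 6) (b : ZMod 6 → ℝ) (hb : S.ChordAng b)
    (h : Applies sch6 b S.Rel) : HasPeriodic P := by
  obtain ⟨k, S, b, hb, hg, he⟩ := applies_shift hb h
  rcases k with _ | _ | _ | _ | _ | _ | _ | _ | k
  · simp only [sch6, List.getD_cons_zero, List.getD_cons_succ, List.forall_mem_cons,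
      List.not_mem_nil, IsEmpty.forall_iff, implies_true, and_true, Nat.cast_zero, Nat.cast_one,
      Nat.cast_ofNat] at hg he
    have e0 := holds6 he
    norm_num at e0
    exact x6_0 hc S b hb hg.1 hg.2.1 hg.2.2.1 hg.2.2.2.1 hg.2.2.2.2.1 hg.2.2.2.2.2 (by linarith)
  · simp only [sch6, List.getD_cons_zero, List.getD_cons_succ, List.forall_mem_cons,
      List.not_mem_nil, IsEmpty.forall_iff, implies_true, and_true, Nat.cast_zero, Nat.cast_one,
      Nat.cast_ofNat] at hg he
    have hj : ∀ j : ZMod 6, S.Plus j (j + 3) := by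
      intro j
      fin_cases j
      · exact hg.1
      · exact hg.2.1
      · exact hg.2.2.1
      · exact hg.2.2.2.1
      · exact hg.2.2.2.2.1
      · exact hg.2.2.2.2.2
    have e0 := holds6 he.1
    norm_num at e0
    have e1 := holds6 he.2
    norm_num at e1
    exact x6_1 hc S b hb hj (by linarith) (by linarith)
  · simp only [sch6, List.getD_cons_zero, List.getD_cons_succ, List.forall_mem_cons,
      List.not_mem_nil, IsEmpty.forall_iff, implies_true, and_true, Nat.cast_zero, Nat.cast_one,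
      Nat.cast_ofNat] at hg he
    have e0 := holds6 he.1
    norm_num at e0
    have e1 := holds6 he.2.1
    norm_num at e1
    have e2 := holds6 he.2.2
    norm_num at e2
    exact x6_2 hc S b hb hg.1 hg.2.1 hg.2.2.1 hg.2.2.2.1 hg.2.2.2.2.1 hg.2.2.2.2.2 (by linarith) (by linarith) (by linarith)
  · simp only [sch6, List.getD_cons_zero, List.getD_cons_succ, List.forall_mem_cons,
      List.not_mem_nil, IsEmpty.forall_iff, implies_true, and_true, Nat.cast_zero, Nat.cast_one,
      Nat.cast_ofNat] at hg he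
    have e0 := holds6 he
    norm_num at e0
    exact x6_3 hc S b hb hg.1 hg.2.1 hg.2.2.1 hg.2.2.2.1 hg.2.2.2.2.1 hg.2.2.2.2.2 (by linarith)
  · simp only [sch6, List.getD_cons_zero, List.getD_cons_succ, List.forall_mem_cons,
      List.not_mem_nil, IsEmpty.forall_iff, implies_true, and_true, Nat.cast_zero, Nat.cast_one,
      Nat.cast_ofNat] at hg he
    have e0 := holds6 he
    norm_num at e0
    exact x6_4 hc S b hb hg.1 hg.2.1 hg.2.2.1 hg.2.2.2.1 hg.2.2.2.2.1 hg.2.2.2.2.2 (by linarith)
  · simp only [sch6, List.getD_cons_zero, List.getD_cons_succ, List.forall_mem_cons,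
      List.not_mem_nil, IsEmpty.forall_iff, implies_true, and_true, Nat.cast_zero, Nat.cast_one,
      Nat.cast_ofNat] at hg he
    have e0 := holds6 he.1
    norm_num at e0
    have e1 := holds6 he.2
    norm_num at e1
    exact x6_5 hc S b hb hg.1 hg.2.1 hg.2.2.1 hg.2.2.2.1 hg.2.2.2.2.1 hg.2.2.2.2.2 (by linarith) (by linarith)
  · simp only [sch6, List.getD_cons_zero, List.getD_cons_succ, List.forall_mem_cons,
      List.not_mem_nil, IsEmpty.forall_iff, implies_true, and_true, Nat.cast_zero, Nat.cast_one,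
      Nat.cast_ofNat] at hg he
    have e0 := holds6 he
    norm_num at e0
    exact x6_6 hc S b hb hg.1 hg.2.1 hg.2.2.1 hg.2.2.2.1 hg.2.2.2.2.1 hg.2.2.2.2.2 (by linarith)
  · simp only [sch6, List.getD_cons_zero, List.getD_cons_succ, List.forall_mem_cons,
      List.not_mem_nil, IsEmpty.forall_iff, implies_true, and_true, Nat.cast_zero, Nat.cast_one,
      Nat.cast_ofNat] at hg he
    have hw : ∀ j : ZMod 6, S.w j = 1 := by
      intro j
      apply S.minus_self
      fin_cases j
      · exact hg.1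
      · exact hg.2.1
      · exact hg.2.2.1
      · exact hg.2.2.2.1
      · exact hg.2.2.2.2.1
      · exact hg.2.2.2.2.2.1
    have e0 := holds6 he.1
    norm_num at e0
    have e1 := holds6 he.2.1
    norm_num at e1
    have e2 := holds6 he.2.2.1
    norm_num at e2
    have e3 := holds6 he.2.2.2
    norm_num at e3
    exact x6_7 hc S b hb hw hg.2.2.2.2.2.2.1 hg.2.2.2.2.2.2.2 (by linarith) (by linarith) (by linarith) (by linarith)
  · exact (holds_nil (he _ (List.mem_singleton.2 rfl))).elim

end Pool.Agent.Lib_MP_fa6e45
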