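import Pool.Agent.Lib_MP_fa6e45.HC0
import Pool.Agent.Lib_MP_fa6e45.ZA

/-!
MP_fa6e45_co, stage 4: the single sides as arcs.
-/

open Set MeasureTheory Complex
open scoped Topology

namespace Pool.Agent.Lib_MP_fa6e45

open Pool.Agent.Lib_PL (cr InSector Poly)

variable {n : ℕ} [NeZero n]

/-- every side is an arc -/
def arcs1 (P : Polygon n) : Arcs P n where
  κ := fun j => j
  w := fun _ => 1
  w_pos := fun _ => one_pos
  step := fun j => by rw [Nat.cast_one]
  total := by
    rw [Finset.sum_const, Finset.card_univ, ZMod.card, smul_eq_mul, mul_one]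

theorem arcs1_rel (P : Polygon n) {j k : ZMod n} (b : Bool) (h : P.len j = P.len k) :
    (arcs1 P).Rel j k b := by
  cases b
  · refine ⟨rfl, ?_, ?_⟩
    · intro t ht
      have h1 : t = 0 := by
        change t < 1 at ht
        omega
      subst h1
      simpa [arcs1] using h
    · intro t h0 ht
      change t < 1 at ht
      omega
  · refine ⟨rfl, ?_, ?_⟩
    · intro t s ht
      change t + s + 1 = 1 at ht
      have h1 : t = 0 := by omega
      have h2 : s = 0 := by omega
      subst h1 h2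
      simpa [arcs1] using h
    · intro t s h0 h1 ht
      change t + s = 1 at ht
      omega

theorem arcs1_chord (P : Polygon n) : (arcs1 P).ChordAng fun j => P.ang j / Real.pi := by
  intro j
  have h := P.side_turn j
  have hV : ∀ i, (arcs1 P).V i = P.vertex i := fun i => rfl
  have hc : ∀ i, (arcs1 P).ch i = P.vertex (i + 1) - P.vertex i := fun i => rfl
  have hn : ∀ i, ‖P.vertex (i + 1) - P.vertex i‖ = P.len i := fun i => by
    unfold Polygon.len
    rw [dist_comm, dist_eq_norm]
  have hpi : Real.pi ≠ 0 := Real.pi_ne_zero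
  rw [hc, hc, hn, hn, sub_add_cancel]
  have e : Real.pi * (1 - P.ang j / Real.pi) = Real.pi - P.ang j := by
    field_simp
  rw [e]
  exact h

theorem triv5 (P : Polygon 5) (hc : P.CCW) (k p : ℕ)
    (hg : ∀ g ∈ (sch5 k).glue, P.len ((g.1 : ZMod 5) + (p : ZMod 5)) =
      P.len ((g.2.1 : ZMod 5) + (p : ZMod 5)))
    (he : ∀ E ∈ (sch5 k).eqs, Eqn.Holds E fun i => P.ang (i + (p : ZMod 5)) / Real.pi) :
    HasPeriodic P :=
  app5 hc (arcs1 P) _ (arcs1_chord P) ⟨k, p, fun g h => arcs1_rel P _ (hg g h), he⟩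

theorem triv6 (P : Polygon 6) (hc : P.CCW) (k p : ℕ)
    (hg : ∀ g ∈ (sch6 k).glue, P.len ((g.1 : ZMod 6) + (p : ZMod 6)) =
      P.len ((g.2.1 : ZMod 6) + (p : ZMod 6)))
    (he : ∀ E ∈ (sch6 k).eqs, Eqn.Holds E fun i => P.ang (i + (p : ZMod 6)) / Real.pi) :
    HasPeriodic P :=
  app6 hc (arcs1 P) _ (arcs1_chord P) ⟨k, p, fun g h => arcs1_rel P _ (hg g h), he⟩

end Pool.Agent.Lib_MP_fa6e45
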