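import Pool.Agent.Lib_MP_fa6e45.H7a
import Pool.Agent.Lib_MP_fa6e45.H3
import Pool.Agent.Lib_MP_fa6e45.H5
import Pool.Agent.Lib_MP_fa6e45.H6
import Pool.Agent.Lib_MP_fa6e45.HT
import Pool.Agent.Lib_MP_fa6e45.G4a

/-!
MP_fa6e45_co, stage 4: soundness of the checker.
-/

open Set MeasureTheory Complex
open scoped Topology

namespace Pool.Agent.Lib_MP_fa6e45

variable {m : ℕ} [NeZero m] {cls : ZMod m → ℕ} {act : List (ℕ × ℕ)} {P : Polygon m}

/-! ### equations -/

theorem derG_sound {a a' : ZMod m → ℝ} {σ : Equiv.Perm (ZMod m)} (ha : ∀ i, a' (σ i) = a i)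
    {eqs : List Eqn} (h : ∀ E ∈ eqs, Eqn.Holds E a) {Es : List Eqn} {cs : List (ℤ × List ℤ)}
    (hd : derG m eqs (fun x => (σ (x : ZMod m)).val) Es cs = true) :
    ∀ E ∈ Es, Eqn.Holds E a' := by
  induction Es generalizing cs with
  | nil =>
    intro E hE
    exact absurd hE List.not_mem_nil
  | cons E0 Es ih =>
    cases cs with
    | nil =>
      unfold derG at hd
      exact absurd hd (by simp)
    | cons c cs =>
      unfold derG at hd
      rw [Bool.and_eq_true, Bool.and_eq_true, Bool.and_eq_true, List.all_eq_true, bne_iff_ne,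
        beq_iff_eq] at hd
      obtain ⟨⟨⟨h1, h2⟩, h3⟩, h4⟩ := hd
      intro E hE
      rcases List.mem_cons.1 hE with rfl | hE
      · have hlc := lc_holds h c.2
        have h5 : ∀ i : ZMod m, ((lcCo c.2 eqs i.val : ℤ) : ℝ) * a i =
            (c.1 : ℝ) * (((E.1.getD (σ i).val 0 : ℤ) : ℝ) * a' (σ i)) := by
          intro i
          have h6 := h2 i.val (List.mem_range.2 (ZMod.val_lt i))
          rw [beq_iff_eq, ZMod.natCast_zmod_val] at h6
          rw [h6, ha]
          push_cast
          ring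
        rw [Finset.sum_congr rfl (fun i _ => h5 i), ← Finset.mul_sum, h3] at hlc
        rw [Equiv.sum_comp σ (fun i => ((E.1.getD i.val 0 : ℤ) : ℝ) * a' i)] at hlc
        push_cast at hlc
        have h7 : (c.1 : ℝ) ≠ 0 := by exact_mod_cast h1
        exact mul_left_cancel₀ h7 hlc
      · exact ih h4 E hE

private theorem H7_single (f : ZMod m → ℝ) {x : ℕ} (hx : x < m) :
    ∑ i : ZMod m, (if x = i.val then (1 : ℝ) else 0) * f i = f ((x : ℕ) : ZMod m) := by
  rw [Finset.sum_eq_single ((x : ℕ) : ZMod m)]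
  · rw [ZMod.val_natCast_of_lt hx, if_pos rfl, one_mul]
  · intro i _ hi
    rw [if_neg, zero_mul]
    intro h
    apply hi
    rw [h, ZMod.natCast_zmod_val]
  · intro h
    exact absurd (Finset.mem_univ _) h

theorem inn_sound {f : ZMod m → ℝ} {eqs : List Eqn} (h : ∀ E ∈ eqs, Eqn.Holds E f)
    {e : ℕ × ℕ × ℤ × List ℤ} (hx : e.1 < m) (hy : e.2.1 < m) (hd : innB m eqs e = true) :
    f (e.1 : ZMod m) + f (e.2.1 : ZMod m) = 2 := by
  unfold innB at hd
  rw [Bool.and_eq_true, Bool.and_eq_true, List.all_eq_true, bne_iff_ne, beq_iff_eq] at hd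
  obtain ⟨⟨h1, h2⟩, h3⟩ := hd
  have hlc := lc_holds h e.2.2.2
  have h5 : ∀ i : ZMod m, ((lcCo e.2.2.2 eqs i.val : ℤ) : ℝ) * f i =
      (e.2.2.1 : ℝ) * ((if e.1 = i.val then (1 : ℝ) else 0) * f i +
        (if e.2.1 = i.val then (1 : ℝ) else 0) * f i) := by
    intro i
    have h6 := h2 i.val (List.mem_range.2 (ZMod.val_lt i))
    rw [beq_iff_eq] at h6
    have h4 : i.val < ((List.range m).map fun x =>
        (if x = e.1 then (1 : ℤ) else 0) + if x = e.2.1 then (1 : ℤ) else 0).length := by
      rw [List.length_map, List.length_range]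
      exact ZMod.val_lt i
    rw [h6]
    unfold pairE
    rw [List.getD_eq_getElem _ _ h4, List.getElem_map, List.getElem_range]
    simp only [eq_comm (a := e.1), eq_comm (a := e.2.1)]
    push_cast
    ring
  rw [Finset.sum_congr rfl (fun i _ => h5 i), ← Finset.mul_sum, Finset.sum_add_distrib,
    H7_single f hx, H7_single f hy, h3] at hlc
  push_cast at hlc
  have h7 : (e.2.2.1 : ℝ) ≠ 0 := by exact_mod_cast h1
  exact mul_left_cancel₀ h7 hlc

/-! ### the symmetries as permutations -/

/-- `sgC r s` as a permutation -/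
def sgP (r : Bool) (s : ZMod m) : Equiv.Perm (ZMod m) where
  toFun := sgC r s
  invFun := fun i => if r then s - i else i - s
  left_inv := by
    intro i
    unfold sgC
    cases r <;> simp
  right_inv := by
    intro i
    unfold sgC
    cases r <;> simp

theorem dih_len' (P : Polygon m) (r : Bool) (s j : ZMod m) :
    (P.dih r s).len j = P.len (siS r s j) := by
  rw [← P.dih_len r s]
  congr 1
  unfold sgS siS
  cases r <;> simp

/-! ### facts about the angles -/

theorem Sit.eqs0 (M : Sit cls act P) (hlt : ∀ p ∈ act, p.1 < m ∧ p.2 < m) :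
    ∀ E ∈ eqs0 m act, Eqn.Holds E fun j => P.ang j / Real.pi := by
  refine eqs0_sound ?_ ?_ hlt
  · rw [← Finset.sum_div, P.ang_sum M.ccw]
    field_simp
  · intro p hp
    refine M.sum _ _ ?_
    rw [ZMod.val_natCast_of_lt (hlt p hp).1, ZMod.val_natCast_of_lt (hlt p hp).2]
    unfold actB
    rw [Bool.or_eq_true]
    left
    rw [List.contains_iff_mem]
    exact hp

/-- for the use of `contra_B` -/
private theorem H7_mdl (hc : P.CCW) : MdlB (fun j : ZMod m => j.val)
    (fun j => P.ang j / Real.pi) (fun j => P.ang j / Real.pi)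
    (fun j k b => j = k ∧ b = true) where
  a_pos := fun i => div_pos (P.ang_pos i) Real.pi_pos
  a_lt := fun i => by
    rw [div_lt_iff₀ Real.pi_pos]
    exact P.ang_lt i
  a_ne := fun i h => by
    rw [div_eq_one_iff_eq Real.pi_ne_zero] at h
    exact P.ang_ne i h
  a_sum := by
    rw [← Finset.sum_div, P.ang_sum hc]
    field_simp
  b_sum := by
    rw [← Finset.sum_div, P.ang_sum hc]
    field_simp
  cls_eq := fun j k b h => by rw [h.1]
  single := fun j _ => Or.inr ⟨⟨rfl, rfl⟩, fun k b h => ⟨h.1.symm, h.2⟩⟩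
  twins := fun j k h h' => absurd (ZMod.val_injective m h') h
  three := fun i j k h _ _ h' => h (ZMod.val_injective m h'.1)

theorem contra_S (hc : P.CCW) {eqs : List Eqn}
    (h : ∀ E ∈ eqs, Eqn.Holds E fun j => P.ang j / Real.pi) {ls : List ℤ}
    (hd : contraB m eqs ls = true) : False :=
  contra_B (H7_mdl hc) h hd

/-! ### coarse leaves -/

private theorem H7_nuA (nu : List ℕ) (j t : ℕ) :
    nuA m nu j t = ((((nu.getD j 0 + t) % m : ℕ)) : ZMod m) := by
  unfold nuA
  rw [ZMod.natCast_mod]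

theorem glueH_sound (M : Sit cls act P) {eqs : List Eqn}
    (h : ∀ E ∈ eqs, Eqn.Holds E fun j => P.ang j / Real.pi) {inn : List (ℕ × ℕ × ℤ × List ℤ)}
    (hi : inn.all (innB m eqs) = true) {nu : List ℕ} {g : ℕ × ℕ × Bool}
    (hg : glueHB cls inn nu g = true) :
    GlueM (fun j => P.ang ((arcs1 P).κ j) / Real.pi) (arcs1 P).Rel nu g := by
  unfold glueHB at hg
  rw [Bool.and_eq_true, Bool.and_eq_true, List.all_eq_true, List.all_eq_true, beq_iff_eq] at hg
  obtain ⟨⟨h1, h2⟩, h3⟩ := hg
  refine ⟨h1, fun t ht => ?_, fun t ht0 ht => ?_⟩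
  · have h4 := h2 t (List.mem_range.2 ht)
    rw [beq_iff_eq] at h4
    exact arcs1_rel P _ ((M.len _ _).1 h4)
  · have h4 := h3 t (List.mem_range.2 ht)
    rw [Bool.or_eq_true, beq_iff_eq, List.any_eq_true] at h4
    rcases h4 with h4 | ⟨e, he, h5⟩
    · omega
    · rw [Bool.and_eq_true, beq_iff_eq, beq_iff_eq] at h5
      have hm : 0 < m := Nat.pos_of_ne_zero (NeZero.ne m)
      have h6 := inn_sound h (by rw [h5.1]; exact Nat.mod_lt _ hm)
        (by rw [h5.2]; exact Nat.mod_lt _ hm) (List.all_eq_true.1 hi e he)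
      rw [H7_nuA, H7_nuA, ← h5.1, ← h5.2]
      exact h6

/-! ### nodes -/

/-- what node `i` says -/
def NodeOK (m : ℕ) [NeZero m] (cls : ZMod m → ℕ) (act : List (ℕ × ℕ)) (eqs : List Eqn) : Prop :=
  ∀ P : Polygon m, Sit cls act P → (∀ E ∈ eqs, Eqn.Holds E fun j => P.ang j / Real.pi) →
    HasPeriodic P

private theorem H7_ch (M : Sit cls act P) {D : List (List Eqn)} {i : ℕ}
    (hD : ∀ j < i, NodeOK m cls act (D.getD j [])) {eqs : List Eqn}
    (h : ∀ E ∈ eqs, Eqn.Holds E fun j => P.ang j / Real.pi) {cvs : List (List ℕ)}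
    {ch : List HCh} (hc : chB cls act D i eqs cvs ch = true) {cv : List ℕ} (hcv : cv ∈ cvs)
    (hh : Eqn.Holds (cv.map fun x => (x : ℤ), 2) fun j => P.ang j / Real.pi) :
    HasPeriodic P := by
  induction cvs generalizing ch with
  | nil => exact absurd hcv List.not_mem_nil
  | cons cv0 cvs ih =>
    cases ch with
    | nil =>
      unfold chB at hc
      exact absurd hc (by simp)
    | cons c ch =>
      unfold chB at hc
      rw [Bool.and_eq_true] at hc
      rcases List.mem_cons.1 hcv with rfl | hcv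
      · have heq : ∀ E ∈ ((cv.map fun x => (x : ℤ), 2) : Eqn) :: eqs,
            Eqn.Holds E fun j => P.ang j / Real.pi := by
          intro E hE
          rcases List.mem_cons.1 hE with rfl | hE
          · exact hh
          · exact h E hE
        have h1 := hc.1
        cases c with
        | contra ls => exact (contra_S M.ccw heq h1).elim
        | ref idx r s ds =>
          simp only [Bool.and_eq_true, decide_eq_true_iff] at h1
          obtain ⟨⟨h2, h3⟩, h4⟩ := h1
          refine P.dih_periodic r (s : ZMod m) (hD idx h2 _ (sit_dih M r (s : ZMod m) h3) ?_)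
          refine derG_sound (a := fun j => P.ang j / Real.pi) (σ := sgP r (s : ZMod m)) ?_ heq h4
          intro j
          rw [show sgP r (s : ZMod m) j = sgC r (s : ZMod m) j from rfl, P.dih_ang]
      · exact ih hc.2 hcv

theorem chkN_sound {sp : List SpT} (hsp : ∀ T ∈ sp, T.OK m) (hlt : ∀ p ∈ act, p.1 < m ∧ p.2 < m)
    {D : List (List Eqn)} {i : ℕ} (hD : ∀ j < i, NodeOK m cls act (D.getD j [])) {N : HN}
    (hN : chkN cls act sp D i N = true) : NodeOK m cls act (D.getD i []) := by
  intro P M hE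
  have hE' : ∀ E ∈ D.getD i [] ++ Lib_MP_fa6e45.eqs0 m act,
      Eqn.Holds E fun j => P.ang j / Real.pi := by
    intro E h
    rcases List.mem_append.1 h with h | h
    · exact hE E h
    · exact M.eqs0 hlt E h
  cases N with
  | leafM k nu cs inn =>
    unfold chkN at hN
    rw [Bool.and_eq_true, Bool.and_eq_true, Bool.and_eq_true, List.all_eq_true (l := Sch.glue _)] at hN
    obtain ⟨⟨⟨h1, h2⟩, h3⟩, h4⟩ := hN
    refine appH M.ccw (arcs1 P) ⟨k, nu, h1, ?_, ?_⟩
    · intro g hg
      exact glueH_sound M hE' h2 (h3 g hg)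
    · have h5 := (nuOK_iff h1).2.1
      exact derM_sound hE' h5 h4
  | spec id r s cs =>
    cases hT : sp[id]? with
    | none =>
      simp only [chkN, hT] at hN
      exact absurd hN (by simp)
    | some T =>
      simp only [chkN, hT, Bool.and_eq_true, List.all_eq_true, beq_iff_eq, bne_iff_ne, ne_eq] at hN
      obtain ⟨⟨h1, h2⟩, h3⟩ := hN
      refine P.dih_periodic r (s : ZMod m) (hsp T (List.mem_of_getElem? hT) _
        (P.dih_ccw r _ M.ccw) ?_ ?_ ?_)
      · intro g hg
        rw [dih_len', dih_len']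
        exact (M.len _ _).1 (h1 g hg)
      · intro g hg
        rw [dih_len', dih_len']
        exact fun h => h2 g hg ((M.len _ _).2 h)
      · refine derG_sound (a := fun j => P.ang j / Real.pi) (σ := sgP r (s : ZMod m)) ?_ hE' h3
        intro j
        rw [show sgP r (s : ZMod m) j = sgC r (s : ZMod m) j from rfl, P.dih_ang]
  | geo d f lin cs fuel =>
    exact (geo_sound P (fun j k h => (M.len j k).1 h) hE' hN).elim
  | lp t0 v A φ L fuel tab cvs ch =>
    unfold chkN at hN
    rw [Bool.and_eq_true, Bool.and_eq_true] at hN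
    obtain ⟨⟨h1, h2⟩, h3⟩ := hN
    have ht0 : ∀ i, t0 ≠ T0.imp i := by
      rintro j rfl
      exact absurd h2 (by simp)
    obtain ⟨cv, hcv, hh⟩ := lpS_sound M ht0 h1
    exact H7_ch M hD hE' h3 hcv hh

/-- a complete certificate -/
theorem cert_sound {sp : List SpT} (hsp : ∀ T ∈ sp, T.OK m) (hlt : ∀ p ∈ act, p.1 < m ∧ p.2 < m)
    {D : List (List Eqn)} {Ns : List HN} {N : ℕ}
    (h : ∀ i < N, chkN cls act sp D i (Ns.getD i (HN.spec 0 true 0 [])) = true) (hN : 0 < N)
    (hr : D.getD (N - 1) [] = []) : ∀ P : Polygon m, Sit cls act P → HasPeriodic P := by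
  have key : ∀ i, i < N → NodeOK m cls act (D.getD i []) := by
    intro i
    induction i using Nat.strong_induction_on with
    | _ i ih =>
      intro hi
      exact chkN_sound hsp hlt (fun j hj => ih j hj (by omega)) (h i hi)
  intro P M
  refine key (N - 1) (by omega) P M ?_
  rw [hr]
  intro E hE
  exact absurd hE List.not_mem_nil

theorem chkR4_get {sp : List SpT} {D : List (List Eqn)} {Ns : List HN} {lo hi : ℕ}
    (h : chkR4 cls act sp D Ns lo hi = true) {i : ℕ} (h1 : lo ≤ i) (h2 : i < hi) :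
    chkN cls act sp D i (Ns.getD i (HN.spec 0 true 0 [])) = true := by
  unfold chkR4 at h
  rw [List.all_eq_true] at h
  have h3 := h (i - lo) (List.mem_range.2 (by omega))
  rwa [Nat.add_sub_cancel' h1] at h3

end Pool.Agent.Lib_MP_fa6e45
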