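import Pool.Agent.Lib_MP_fa6e45.CS0
import Pool.Agent.Lib_MP_fa6e45.H7

/-!
PIECE CS5 (about 120 lines): the check `glueT` is correct. Compare `glueH_sound` in H7.lean; `nthF_eq`, `inn_sound` (H7),
`nuA m nu j t = ((nu.getD j 0 + t : ℕ) : ZMod m)`, so `(nuA m nu j t).val = (nu.getD j 0 + t) % m`
(`ZMod.val_natCast`).
-/

open Set MeasureTheory Complex
open scoped Topology

namespace Pool.Agent.Lib_MP_fa6e45

open Pool.Agent.Lib_PL (cr InSector Poly)

variable {n : ℕ} {P : Polygon n} {m : ℕ} [NeZero m]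

private theorem CS5_nthF {α : Type} (d : α) (l : List α) (i : ℕ) : nthF d l i = l.getD i d := by
  induction l generalizing i with
  | nil => rfl
  | cons x l ih =>
    cases i with
    | zero => rfl
    | succ i =>
      change nthF d l i = _
      rw [ih]
      simp

private theorem CS5_nuA (nu : List ℕ) (j t : ℕ) :
    nuA m nu j t = ((((nu.getD j 0 + t) % m : ℕ)) : ZMod m) := by
  unfold nuA
  rw [ZMod.natCast_mod]

private theorem CS5_val (nu : List ℕ) (j t : ℕ) :
    (nuA m nu j t).val = (nu.getD j 0 + t) % m := by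
  unfold nuA
  rw [ZMod.val_natCast]

private theorem CS5_relT (w : List ℕ) (j k : ZMod m) (c : Bool) :
    relT w j k c = okL (nthF 0 w j.val) (nthF 0 w k.val) c := by
  unfold relT
  rw [CS5_nthF, CS5_nthF]

theorem glueT_sound {w : List ℕ} {S : Arcs P m}
    (hrel : ∀ j k c, relT w j k c = true → S.Rel j k c) {eqs : List Eqn}
    (hE : ∀ E ∈ eqs, Eqn.Holds E fun j => P.ang (S.κ j) / Real.pi)
    {inn : List (ℕ × ℕ × ℤ × List ℤ)} (hinn : inn.all (innB m eqs) = true)
    {nu : List ℕ} {g : ℕ × ℕ × Bool} (h : glueT m w inn nu g = true) :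
    GlueM (fun j => P.ang (S.κ j) / Real.pi) S.Rel nu g := by
  unfold glueT at h
  rw [Bool.and_eq_true, Bool.and_eq_true, List.all_eq_true, List.all_eq_true, beq_iff_eq] at h
  obtain ⟨⟨h1, h2⟩, h3⟩ := h
  refine ⟨h1, fun t ht => ?_, fun t ht0 ht => ?_⟩
  · have h4 := h2 t (List.mem_range.2 ht)
    refine hrel _ _ _ ?_
    rw [CS5_relT, CS5_val, CS5_val]
    exact h4
  · have h4 := h3 t (List.mem_range.2 ht)
    rw [Bool.or_eq_true, beq_iff_eq, List.any_eq_true] at h4
    rcases h4 with h4 | ⟨e, he, h5⟩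
    · omega
    · rw [Bool.and_eq_true, beq_iff_eq, beq_iff_eq] at h5
      have hm : 0 < m := Nat.pos_of_ne_zero (NeZero.ne m)
      have h6 := inn_sound hE (by rw [h5.1]; exact Nat.mod_lt _ hm)
        (by rw [h5.2]; exact Nat.mod_lt _ hm) (List.all_eq_true.1 hinn e he)
      rw [CS5_nuA, CS5_nuA, ← h5.1, ← h5.2]
      exact h6

theorem siN_eq {r : Bool} {s x : ℕ} (hs : s < m) (hx : x < m) :
    siS r (s : ZMod m) (x : ZMod m) = ((siN m r s x : ℕ) : ZMod m) := by
  have hm : 0 < m := Nat.pos_of_ne_zero (NeZero.ne m)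
  have hm0 : ((m : ℕ) : ZMod m) = 0 := ZMod.natCast_self m
  unfold siS siN
  cases r
  · simp only [Bool.false_eq_true, if_false]
    rw [ZMod.natCast_mod, Nat.cast_add, Nat.cast_sub hs.le, hm0]
    ring
  · simp only [if_true]
    rw [ZMod.natCast_mod, Nat.cast_add, Nat.cast_add, Nat.cast_sub hx.le, Nat.cast_sub (by omega : 1 ≤ m), hm0]
    push_cast
    ring

theorem sgN_eq {r : Bool} {s x : ℕ} (hs : s < m) (hx : x < m) :
    (sgC r (s : ZMod m) (x : ZMod m)).val = sgN m r s x := by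
  have hm0 : ((m : ℕ) : ZMod m) = 0 := ZMod.natCast_self m
  have h1 : sgC r (s : ZMod m) (x : ZMod m) = ((sgN m r s x : ℕ) : ZMod m) := by
    unfold sgC sgN
    cases r
    · simp only [Bool.false_eq_true, if_false]
      rw [ZMod.natCast_mod, Nat.cast_add]
    · simp only [if_true]
      rw [ZMod.natCast_mod, Nat.cast_add, Nat.cast_sub hx.le, hm0]
      ring
  have hm : 0 < m := Nat.pos_of_ne_zero (NeZero.ne m)
  have h2 : sgN m r s x < m := by
    unfold sgN
    cases r
    · exact Nat.mod_lt _ hm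
    · exact Nat.mod_lt _ hm
  rw [h1, ZMod.val_natCast_of_lt h2]

/-- `symT` means that the relation is invariant -/
theorem symT_sound {w : List ℕ} {g : Bool × ℕ × List ℕ} (h : symT m w g = true) :
    (∀ (j k : ZMod m) (c : Bool), relT w j k c =
      relT w (siS g.1 (g.2.1 : ZMod m) j) (siS g.1 (g.2.1 : ZMod m) k) c) ∧
    ∀ x < m, g.2.2.getD x 0 = (sgC g.1 (g.2.1 : ZMod m) (x : ZMod m)).val := by
  unfold symT at h
  rw [Bool.and_eq_true, Bool.and_eq_true, decide_eq_true_iff, List.all_eq_true, List.all_eq_true] at h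
  obtain ⟨⟨h1, h2⟩, h3⟩ := h
  have hm : 0 < m := Nat.pos_of_ne_zero (NeZero.ne m)
  have hlt : ∀ x < m, siN m g.1 g.2.1 x < m := by
    intro x _
    unfold siN
    split
    · exact Nat.mod_lt _ hm
    · exact Nat.mod_lt _ hm
  have hval : ∀ j : ZMod m, (siS g.1 (g.2.1 : ZMod m) j).val = siN m g.1 g.2.1 j.val := by
    intro j
    have h4 : siS g.1 (g.2.1 : ZMod m) j = ((siN m g.1 g.2.1 j.val : ℕ) : ZMod m) := by
      rw [← siN_eq h1 (ZMod.val_lt j), ZMod.natCast_zmod_val]
    rw [h4, ZMod.val_natCast_of_lt (hlt _ (ZMod.val_lt j))]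
  constructor
  · intro j k c
    have h4 := h3 j.val (List.mem_range.2 (ZMod.val_lt j))
    rw [List.all_eq_true] at h4
    have h5 := h4 k.val (List.mem_range.2 (ZMod.val_lt k))
    rw [Bool.and_eq_true, beq_iff_eq, beq_iff_eq] at h5
    rw [CS5_relT, CS5_relT, hval, hval]
    cases c
    · exact h5.2
    · exact h5.1
  · intro x hx
    have h4 := h2 x (List.mem_range.2 hx)
    rw [beq_iff_eq] at h4
    rw [h4, sgN_eq h1 hx]

end Pool.Agent.Lib_MP_fa6e45
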