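import Pool.Agent.Lib_MP_fa6e45.X0
import Pool.Agent.Lib_MP_fa6e45.A1

/-!
PIECE X1a (about 150 lines): congruent arcs. `lift_plus`: the polylines `X t = vertex (κ j + t)` and
`Y t = a * vertex (κ k + s) + b` (`t + s = w j`) satisfy the same recurrence
`X (t+1) - X t = (X t - X (t-1)) * (quotient of lengths) * exp (i (π - ang))` (`Polygon.side_turn`; reversing a
polyline replaces `ang` by `2 π - ang`, and `ang (κ j + t) + ang (κ k + s) = 2 π`), so `X t - X 0 = d * C t`,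
`Y t - Y 0 = d' * C t` with the same `C t` (`d`, `d'` the first steps); `X 0 = Y 0` and `X w - X 0 = Y w - Y 0 ≠ 0`
give `d = d'`. `lift_minus`: the same with the mirror image (conjugation replaces `exp (i (π - ang))` by
`exp (- i (π - ang))`). `norm_plus`, `norm_minus`: the chord lengths (same recurrences, `|d| = |d'|`).
-/

open Set MeasureTheory Complex
open scoped Topology

namespace Pool.Agent.Lib_MP_fa6e45

open Pool.Agent.Lib_PL (cr InSector Poly)
variable {n : ℕ} {P : Polygon n} {m : ℕ} [NeZero m] (S : Arcs P m)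

/-! ## the recurrence of a polyline -/

/-- `X t - X 0` in units of the first step -/
private noncomputable def X1a_C (M : ℕ → ℂ) (t : ℕ) : ℂ :=
  ∑ i ∈ Finset.range t, ∏ r ∈ Finset.range i, M (r + 1)

private theorem X1a_step (X M : ℕ → ℂ) (w : ℕ)
    (h : ∀ t, t + 1 < w → X (t + 2) - X (t + 1) = (X (t + 1) - X t) * M (t + 1)) (t : ℕ) :
    t < w → X (t + 1) - X t = (X 1 - X 0) * ∏ r ∈ Finset.range t, M (r + 1) := by
  induction t with
  | zero => intro _; simp
  | succ t ih =>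
    intro ht
    rw [h t ht, ih (by omega), Finset.prod_range_succ, mul_assoc]

private theorem X1a_sum (X M : ℕ → ℂ) (w : ℕ)
    (h : ∀ t, t + 1 < w → X (t + 2) - X (t + 1) = (X (t + 1) - X t) * M (t + 1)) (t : ℕ) :
    t ≤ w → X t = X 0 + (X 1 - X 0) * X1a_C M t := by
  induction t with
  | zero => intro _; simp [X1a_C]
  | succ t ih =>
    intro ht
    have h1 := X1a_step X M w h t (by omega)
    have h2 := ih (by omega)
    unfold X1a_C at h2 ⊢
    rw [Finset.sum_range_succ, mul_add, ← h1, ← add_assoc, ← h2]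
    ring

/-- two polylines with the same recurrence and the same ends -/
private theorem X1a_eq (X Y M : ℕ → ℂ) (w : ℕ)
    (hX : ∀ t, t + 1 < w → X (t + 2) - X (t + 1) = (X (t + 1) - X t) * M (t + 1))
    (hY : ∀ t, t + 1 < w → Y (t + 2) - Y (t + 1) = (Y (t + 1) - Y t) * M (t + 1))
    (h0 : X 0 = Y 0) (hw : X w = Y w) (hne : X w - X 0 ≠ 0) (t : ℕ) (ht : t ≤ w) :
    X t = Y t := by
  have h1 := X1a_sum X M w hX w le_rfl
  have h2 := X1a_sum Y M w hY w le_rfl
  have h3 : (X 1 - X 0) * X1a_C M w = (Y 1 - Y 0) * X1a_C M w := by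
    have e1 : (X 1 - X 0) * X1a_C M w = X w - X 0 := by rw [h1]; ring
    have e2 : (Y 1 - Y 0) * X1a_C M w = Y w - Y 0 := by rw [h2]; ring
    rw [e1, e2, h0, hw]
  have h4 : X1a_C M w ≠ 0 := by
    intro h5
    rw [h5, mul_zero, add_zero] at h1
    exact hne (sub_eq_zero.2 h1)
  have h5 := mul_right_cancel₀ h4 h3
  rw [X1a_sum X M w hX t ht, X1a_sum Y M w hY t ht, h5, h0]

private theorem X1a_norm (X Y M : ℕ → ℂ) (w : ℕ)
    (hX : ∀ t, t + 1 < w → X (t + 2) - X (t + 1) = (X (t + 1) - X t) * M (t + 1))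
    (hY : ∀ t, t + 1 < w → Y (t + 2) - Y (t + 1) = (Y (t + 1) - Y t) * M (t + 1))
    (h1 : ‖X 1 - X 0‖ = ‖Y 1 - Y 0‖) : ‖X w - X 0‖ = ‖Y w - Y 0‖ := by
  have e1 : X w - X 0 = (X 1 - X 0) * X1a_C M w := by
    rw [X1a_sum X M w hX w le_rfl]
    ring
  have e2 : Y w - Y 0 = (Y 1 - Y 0) * X1a_C M w := by
    rw [X1a_sum Y M w hY w le_rfl]
    ring
  rw [e1, e2, norm_mul, norm_mul, h1]

/-- the multiplier of the polygon at corner `i` -/
private noncomputable def X1a_M (P : Polygon n) (i : ZMod n) : ℂ :=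
  ((P.len i / P.len (i - 1) : ℝ) : ℂ) * exp ((((Real.pi - P.ang i : ℝ)) : ℂ) * Complex.I)

private theorem X1a_fwd (P : Polygon n) (i : ZMod n) :
    P.vertex (i + 1) - P.vertex i = (P.vertex i - P.vertex (i - 1)) * X1a_M P i := by
  rw [P.side_turn i, X1a_M, mul_assoc]

private theorem X1a_bwd (P : Polygon n) (i : ZMod n) {M : ℂ}
    (hM : M = ((P.len (i - 1) / P.len i : ℝ) : ℂ) *
      exp ((((P.ang i - Real.pi : ℝ)) : ℂ) * Complex.I)) :
    P.vertex (i - 1) - P.vertex i = (P.vertex i - P.vertex (i + 1)) * M := by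
  have h := X1a_fwd P i
  have hl1 := (P.len_pos i).ne'
  have hl2 := (P.len_pos (i - 1)).ne'
  have h1 : X1a_M P i * M = 1 := by
    rw [hM, X1a_M]
    have e1 : exp ((((Real.pi - P.ang i : ℝ)) : ℂ) * Complex.I) *
        exp ((((P.ang i - Real.pi : ℝ)) : ℂ) * Complex.I) = 1 := by
      rw [← Complex.exp_add, ← add_mul, ← Complex.ofReal_add]
      have : Real.pi - P.ang i + (P.ang i - Real.pi) = 0 := by ring
      rw [this]
      simp
    have e2 : ((P.len i / P.len (i - 1) : ℝ) : ℂ) * ((P.len (i - 1) / P.len i : ℝ) : ℂ) = 1 := by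
      rw [← Complex.ofReal_mul]
      have : P.len i / P.len (i - 1) * (P.len (i - 1) / P.len i) = 1 := by field_simp
      rw [this]
      simp
    calc _ = (((P.len i / P.len (i - 1) : ℝ) : ℂ) * ((P.len (i - 1) / P.len i : ℝ) : ℂ)) *
        (exp ((((Real.pi - P.ang i : ℝ)) : ℂ) * Complex.I) *
        exp ((((P.ang i - Real.pi : ℝ)) : ℂ) * Complex.I)) := by ring
      _ = 1 := by rw [e1, e2, mul_one]
  have h2 : (P.vertex i - P.vertex (i + 1)) * M = -(P.vertex (i + 1) - P.vertex i) * M := by ring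
  rw [h2, h]
  have h3 : -((P.vertex i - P.vertex (i - 1)) * X1a_M P i) * M
      = -(P.vertex i - P.vertex (i - 1)) * (X1a_M P i * M) := by ring
  rw [h3, h1]
  ring

private theorem X1a_len (P : Polygon n) (i : ZMod n) :
    P.len i = ‖P.vertex (i + 1) - P.vertex i‖ := by
  unfold Polygon.len
  rw [dist_comm, dist_eq_norm]

namespace Arcs

private theorem X1a_endV (j : ZMod m) : S.V (j + 1) = P.vertex (S.κ j + ((S.w j : ℕ) : ZMod n)) := by
  unfold V
  rw [S.step]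

/-- recurrence for arc `j` -/
private theorem X1a_recX (j : ZMod m) (t : ℕ) :
    P.vertex (S.κ j + ((t + 2 : ℕ) : ZMod n)) - P.vertex (S.κ j + ((t + 1 : ℕ) : ZMod n)) =
      (P.vertex (S.κ j + ((t + 1 : ℕ) : ZMod n)) - P.vertex (S.κ j + (t : ZMod n))) *
        X1a_M P (S.κ j + ((t + 1 : ℕ) : ZMod n)) := by
  have h := X1a_fwd P (S.κ j + ((t + 1 : ℕ) : ZMod n))
  have e1 : S.κ j + ((t + 1 : ℕ) : ZMod n) + 1 = S.κ j + ((t + 2 : ℕ) : ZMod n) := by
    push_cast; ring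
  have e2 : S.κ j + ((t + 1 : ℕ) : ZMod n) - 1 = S.κ j + (t : ZMod n) := by
    push_cast; ring
  rwa [e1, e2] at h

/-- recurrence for arc `k` backwards -/
private theorem X1a_recY {j k : ZMod m} (h : S.Plus j k) (t : ℕ) (ht : t + 1 < S.w j) :
    P.vertex (S.κ k + ((S.w j - (t + 2) : ℕ) : ZMod n)) -
        P.vertex (S.κ k + ((S.w j - (t + 1) : ℕ) : ZMod n)) =
      (P.vertex (S.κ k + ((S.w j - (t + 1) : ℕ) : ZMod n)) -
        P.vertex (S.κ k + ((S.w j - t : ℕ) : ZMod n))) *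
        X1a_M P (S.κ j + ((t + 1 : ℕ) : ZMod n)) := by
  obtain ⟨h1, h2, h3⟩ := h
  obtain ⟨s, hs⟩ : ∃ s, S.w j = t + 2 + s := ⟨S.w j - (t + 2), by omega⟩
  have a1 : S.w j - (t + 2) = s := by omega
  have a2 : S.w j - (t + 1) = s + 1 := by omega
  have a3 : S.w j - t = s + 2 := by omega
  rw [a1, a2, a3]
  have e1 : S.κ k + ((s + 1 : ℕ) : ZMod n) - 1 = S.κ k + (s : ZMod n) := by
    push_cast; ring
  have e2 : S.κ k + ((s + 1 : ℕ) : ZMod n) + 1 = S.κ k + ((s + 2 : ℕ) : ZMod n) := by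
    push_cast; ring
  have e3 : S.κ j + ((t + 1 : ℕ) : ZMod n) - 1 = S.κ j + (t : ZMod n) := by
    push_cast; ring
  have l1 := h2 (t + 1) s (by omega)
  have l2 := h2 t (s + 1) (by omega)
  have l3 := h3 (t + 1) (s + 1) (by omega) (by omega) (by omega)
  have h4 := X1a_bwd P (S.κ k + ((s + 1 : ℕ) : ZMod n))
    (M := X1a_M P (S.κ j + ((t + 1 : ℕ) : ZMod n))) (by
      unfold X1a_M
      rw [e1, e3, l1, l2]
      congr 3
      have : Real.pi - P.ang (S.κ j + ((t + 1 : ℕ) : ZMod n))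
          = P.ang (S.κ k + ((s + 1 : ℕ) : ZMod n)) - Real.pi := by linarith
      rw [this])
  rwa [e1, e2] at h4

/-- recurrence for arc `k`, conjugated -/
private theorem X1a_recZ {j k : ZMod m} (h : S.Minus j k) (t : ℕ) (ht : t + 1 < S.w j) :
    (starRingEnd ℂ) (P.vertex (S.κ k + ((t + 2 : ℕ) : ZMod n))) -
        (starRingEnd ℂ) (P.vertex (S.κ k + ((t + 1 : ℕ) : ZMod n))) =
      ((starRingEnd ℂ) (P.vertex (S.κ k + ((t + 1 : ℕ) : ZMod n))) -
        (starRingEnd ℂ) (P.vertex (S.κ k + (t : ZMod n)))) *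
        X1a_M P (S.κ j + ((t + 1 : ℕ) : ZMod n)) := by
  obtain ⟨h1, h2, h3⟩ := h
  have l1 := h2 (t + 1) (by omega)
  have l2 := h2 t (by omega)
  have l3 := h3 (t + 1) (by omega) (by omega)
  have e1 : S.κ k + ((t + 1 : ℕ) : ZMod n) - 1 = S.κ k + (t : ZMod n) := by
    push_cast; ring
  have e3 : S.κ j + ((t + 1 : ℕ) : ZMod n) - 1 = S.κ j + (t : ZMod n) := by
    push_cast; ring
  have h4 : X1a_M P (S.κ j + ((t + 1 : ℕ) : ZMod n))
      = (starRingEnd ℂ) (X1a_M P (S.κ k + ((t + 1 : ℕ) : ZMod n))) := by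
    unfold X1a_M
    rw [map_mul, Complex.conj_ofReal, ← Complex.exp_conj, map_mul, Complex.conj_ofReal,
      Complex.conj_I, e1, e3, l1, l2]
    have : Real.pi - P.ang (S.κ j + ((t + 1 : ℕ) : ZMod n))
        = -(Real.pi - P.ang (S.κ k + ((t + 1 : ℕ) : ZMod n))) := by linarith
    rw [this]
    congr 2
    push_cast
    ring
  rw [h4, ← map_sub, ← map_sub, ← map_mul, X1a_recX]

/-- `w j < n`, so the chord is not zero -/
theorem ch_ne (hm : 2 ≤ m) (j : ZMod m) : S.ch j ≠ 0 := by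
  unfold ch
  intro h
  rw [sub_eq_zero, X1a_endV] at h
  have h1 := P.injective h
  have h2 : ((S.w j : ℕ) : ZMod n) = 0 := by
    have h3 : S.κ j + ((S.w j : ℕ) : ZMod n) = S.κ j + 0 := by rw [h1, add_zero]
    exact add_left_cancel h3
  rw [ZMod.natCast_eq_zero_iff] at h2
  have hj : j + 1 ≠ j := by
    intro h3
    have h4 : (1 : ZMod m) = 0 := by
      have h5 : j + 1 = j + 0 := by rw [h3, add_zero]
      exact add_left_cancel h5
    have h6 : ((1 : ℕ) : ZMod m) = 0 := by rw [Nat.cast_one, h4]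
    rw [ZMod.natCast_eq_zero_iff] at h6
    have := Nat.le_of_dvd one_pos h6
    omega
  have h3 : S.w j < ∑ i, S.w i :=
    Finset.single_lt_sum hj (Finset.mem_univ j) (Finset.mem_univ (j + 1)) (S.w_pos (j + 1))
      (fun k _ _ => Nat.zero_le _)
  rw [S.total] at h3
  have := Nat.le_of_dvd (S.w_pos j) h2
  omega

theorem lift_plus (hm : 2 ≤ m) {j k : ZMod m} (h : S.Plus j k) {a b : ℂ} (ha : ‖a‖ = 1)
    (h1 : a * S.V (k + 1) + b = S.V j) (h2 : a * S.V k + b = S.V (j + 1)) (t s : ℕ)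
    (hts : t + s = S.w j) :
    a * P.vertex (S.κ k + (s : ZMod n)) + b = P.vertex (S.κ j + (t : ZMod n)) := by
  have hne := S.ch_ne hm j
  unfold ch at hne
  have h3 := X1a_eq (fun t => P.vertex (S.κ j + (t : ZMod n)))
    (fun t => a * P.vertex (S.κ k + ((S.w j - t : ℕ) : ZMod n)) + b)
    (fun t => X1a_M P (S.κ j + (t : ZMod n))) (S.w j)
    (fun t _ => S.X1a_recX j t)
    (fun t ht => by
      have h4 := S.X1a_recY h t ht
      change a * P.vertex (S.κ k + ((S.w j - (t + 2) : ℕ) : ZMod n)) + b -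
        (a * P.vertex (S.κ k + ((S.w j - (t + 1) : ℕ) : ZMod n)) + b) =
        (a * P.vertex (S.κ k + ((S.w j - (t + 1) : ℕ) : ZMod n)) + b -
        (a * P.vertex (S.κ k + ((S.w j - t : ℕ) : ZMod n)) + b)) *
        X1a_M P (S.κ j + ((t + 1 : ℕ) : ZMod n))
      linear_combination a * h4)
    (by
      change P.vertex (S.κ j + ((0 : ℕ) : ZMod n)) =
        a * P.vertex (S.κ k + ((S.w j - 0 : ℕ) : ZMod n)) + b
      rw [Nat.sub_zero, Nat.cast_zero, add_zero, h.1, ← X1a_endV, h1]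
      rfl)
    (by
      change P.vertex (S.κ j + ((S.w j : ℕ) : ZMod n)) =
        a * P.vertex (S.κ k + ((S.w j - S.w j : ℕ) : ZMod n)) + b
      rw [Nat.sub_self, Nat.cast_zero, add_zero, ← X1a_endV, ← h2]
      rfl)
    (by
      change P.vertex (S.κ j + ((S.w j : ℕ) : ZMod n)) - P.vertex (S.κ j + ((0 : ℕ) : ZMod n)) ≠ 0
      rw [Nat.cast_zero, add_zero, ← X1a_endV]
      exact hne) t (by omega)
  have h5 : S.w j - t = s := by omega
  change P.vertex (S.κ j + (t : ZMod n)) =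
    a * P.vertex (S.κ k + ((S.w j - t : ℕ) : ZMod n)) + b at h3
  rw [h5] at h3
  exact h3.symm

theorem lift_minus (hm : 2 ≤ m) {j k : ZMod m} (h : S.Minus j k) {a b : ℂ} (ha : ‖a‖ = 1)
    (h1 : a * (starRingEnd ℂ) (S.V k) + b = S.V j)
    (h2 : a * (starRingEnd ℂ) (S.V (k + 1)) + b = S.V (j + 1)) (t : ℕ) (ht : t ≤ S.w j) :
    a * (starRingEnd ℂ) (P.vertex (S.κ k + (t : ZMod n))) + b = P.vertex (S.κ j + (t : ZMod n)) := by
  have hne := S.ch_ne hm j
  unfold ch at hne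
  have h3 := X1a_eq (fun t => P.vertex (S.κ j + (t : ZMod n)))
    (fun t => a * (starRingEnd ℂ) (P.vertex (S.κ k + (t : ZMod n))) + b)
    (fun t => X1a_M P (S.κ j + (t : ZMod n))) (S.w j)
    (fun t _ => S.X1a_recX j t)
    (fun t ht => by
      have h4 := S.X1a_recZ h t ht
      change a * (starRingEnd ℂ) (P.vertex (S.κ k + ((t + 2 : ℕ) : ZMod n))) + b -
        (a * (starRingEnd ℂ) (P.vertex (S.κ k + ((t + 1 : ℕ) : ZMod n))) + b) =
        (a * (starRingEnd ℂ) (P.vertex (S.κ k + ((t + 1 : ℕ) : ZMod n))) + b -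
        (a * (starRingEnd ℂ) (P.vertex (S.κ k + (t : ZMod n))) + b)) *
        X1a_M P (S.κ j + ((t + 1 : ℕ) : ZMod n))
      linear_combination a * h4)
    (by
      change P.vertex (S.κ j + ((0 : ℕ) : ZMod n)) =
        a * (starRingEnd ℂ) (P.vertex (S.κ k + ((0 : ℕ) : ZMod n))) + b
      rw [Nat.cast_zero, add_zero, add_zero]
      exact h1.symm)
    (by
      change P.vertex (S.κ j + ((S.w j : ℕ) : ZMod n)) =
        a * (starRingEnd ℂ) (P.vertex (S.κ k + ((S.w j : ℕ) : ZMod n))) + b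
      rw [← X1a_endV, h.1, ← X1a_endV]
      exact h2.symm)
    (by
      change P.vertex (S.κ j + ((S.w j : ℕ) : ZMod n)) - P.vertex (S.κ j + ((0 : ℕ) : ZMod n)) ≠ 0
      rw [Nat.cast_zero, add_zero, ← X1a_endV]
      exact hne) t ht
  exact h3.symm

theorem norm_plus {j k : ZMod m} (h : S.Plus j k) : ‖S.ch j‖ = ‖S.ch k‖ := by
  have h3 := X1a_norm (fun t => P.vertex (S.κ j + (t : ZMod n)))
    (fun t => P.vertex (S.κ k + ((S.w j - t : ℕ) : ZMod n)))
    (fun t => X1a_M P (S.κ j + (t : ZMod n))) (S.w j)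
    (fun t _ => S.X1a_recX j t) (fun t ht => S.X1a_recY h t ht)
    (by
      change ‖P.vertex (S.κ j + ((1 : ℕ) : ZMod n)) - P.vertex (S.κ j + ((0 : ℕ) : ZMod n))‖ =
        ‖P.vertex (S.κ k + ((S.w j - 1 : ℕ) : ZMod n)) -
          P.vertex (S.κ k + ((S.w j - 0 : ℕ) : ZMod n))‖
      have hw := S.w_pos j
      have l := h.2.1 0 (S.w j - 1) (by omega)
      rw [X1a_len, X1a_len] at l
      have e : S.κ k + ((S.w j - 1 : ℕ) : ZMod n) + 1 = S.κ k + ((S.w j - 0 : ℕ) : ZMod n) := by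
        have e2 : S.w j - 0 = (S.w j - 1) + 1 := by omega
        rw [e2]
        push_cast
        ring
      rw [e] at l
      rw [norm_sub_rev (P.vertex (S.κ k + ((S.w j - 1 : ℕ) : ZMod n))), ← l]
      simp)
  change ‖P.vertex (S.κ j + ((S.w j : ℕ) : ZMod n)) - P.vertex (S.κ j + ((0 : ℕ) : ZMod n))‖ =
    ‖P.vertex (S.κ k + ((S.w j - S.w j : ℕ) : ZMod n)) -
      P.vertex (S.κ k + ((S.w j - 0 : ℕ) : ZMod n))‖ at h3
  rw [Nat.sub_self, Nat.sub_zero, ← X1a_endV, h.1, ← X1a_endV, Nat.cast_zero, add_zero,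
    add_zero] at h3
  unfold ch
  rw [norm_sub_rev (S.V (k + 1))]
  exact h3

theorem norm_minus {j k : ZMod m} (h : S.Minus j k) : ‖S.ch j‖ = ‖S.ch k‖ := by
  have h3 := X1a_norm (fun t => P.vertex (S.κ j + (t : ZMod n)))
    (fun t => (starRingEnd ℂ) (P.vertex (S.κ k + (t : ZMod n))))
    (fun t => X1a_M P (S.κ j + (t : ZMod n))) (S.w j)
    (fun t _ => S.X1a_recX j t) (fun t ht => S.X1a_recZ h t ht)
    (by
      change ‖P.vertex (S.κ j + ((1 : ℕ) : ZMod n)) - P.vertex (S.κ j + ((0 : ℕ) : ZMod n))‖ =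
        ‖(starRingEnd ℂ) (P.vertex (S.κ k + ((1 : ℕ) : ZMod n))) -
          (starRingEnd ℂ) (P.vertex (S.κ k + ((0 : ℕ) : ZMod n)))‖
      have hw := S.w_pos j
      have l := h.2.1 0 hw
      rw [X1a_len, X1a_len] at l
      rw [← map_sub, RCLike.norm_conj]
      simpa using l)
  change ‖P.vertex (S.κ j + ((S.w j : ℕ) : ZMod n)) - P.vertex (S.κ j + ((0 : ℕ) : ZMod n))‖ =
    ‖(starRingEnd ℂ) (P.vertex (S.κ k + ((S.w j : ℕ) : ZMod n))) -
      (starRingEnd ℂ) (P.vertex (S.κ k + ((0 : ℕ) : ZMod n)))‖ at h3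
  rw [← map_sub, RCLike.norm_conj, ← X1a_endV, h.1, ← X1a_endV, Nat.cast_zero, add_zero,
    add_zero] at h3
  exact h3

end Arcs

end Pool.Agent.Lib_MP_fa6e45
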