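import Pool.Agent.Lib_MP_fa6e45.CU0
import Pool.Agent.Lib_MP_fa6e45.Y7

/-!
PIECE CU2a (about 120 lines): the offsets of the chord angles cancel. Apply `K.avg` to `f c = σ c.2 - ε (c.2 - 1)` and to
`-f`: the star sums are `0` (as `hbs` in the proof of `CombU.wp` in Y7: the contributions of the exit side of a corner and
the entry side of the next corner cancel, `Y7_cancel`; copy the private lemmas), all tile sums are `∑ (σ j - ε j)`.
-/

open Set MeasureTheory Complex
open scoped Topology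

namespace Pool.Agent.Lib_MP_fa6e45

open Pool.Agent.Lib_PL (cr InSector Poly)
variable {m : ℕ} [NeZero m] {a : ZMod m → ℝ} {G : ZMod m → ZMod m → Bool → Prop} {ι : Type}

private def CU2afl (K : CombU m a G ι) (c : ι × ZMod m) : ZMod m × Bool := (c.2, K.rf c.1)

private theorem CU2a_period (K : CombU m a G ι) (c : ι × ZMod m) :
    K.nx^[Function.minimalPeriod K.nx c] c = c := Function.iterate_minimalPeriod

private theorem CU2a_star_shift (K : CombU m a G ι) (g : ι × ZMod m → ℝ) (c : ι × ZMod m) :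
    ∑ k ∈ Finset.range (Function.minimalPeriod K.nx c), g (K.nx^[k + 1] c) =
      ∑ k ∈ Finset.range (Function.minimalPeriod K.nx c), g (K.nx^[k] c) := by
  obtain ⟨d, hd⟩ : ∃ d, Function.minimalPeriod K.nx c = d + 1 :=
    Nat.exists_eq_succ_of_ne_zero (by have := K.deg2 c; omega)
  rw [hd, Finset.sum_range_succ, Finset.sum_range_succ' (fun k => g (K.nx^[k] c))]
  congr 1
  have h := CU2a_period K c
  rw [hd] at h
  rw [h]
  rfl

private theorem CU2a_step (K : CombU m a G ι) (c : ι × ZMod m) :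
    StepG G (CU2afl K c) (CU2afl K (K.nx c)) := K.glue c

/-- contribution of the exit side -/
private def CU2aout (σ ε : ZMod m → ℝ) (y : ZMod m × Bool) : ℝ :=
  if y.2 then σ (exW y).1 else -ε (exW y).1

/-- contribution of the entry side -/
private def CU2ainn (σ ε : ZMod m → ℝ) (y : ZMod m × Bool) : ℝ :=
  if y.2 then -ε (enW y).1 else σ (enW y).1

omit [NeZero m] in
private theorem CU2a_b (σ ε : ZMod m → ℝ) (y : ZMod m × Bool) :
    σ y.1 - ε (y.1 - 1) = CU2aout σ ε y + CU2ainn σ ε y := by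
  obtain ⟨i, f⟩ := y
  cases f
  · simp only [CU2aout, CU2ainn, exW, enW, Bool.false_eq_true, if_false]
    ring
  · simp only [CU2aout, CU2ainn, exW, enW, if_true]
    ring

omit [NeZero m] in
private theorem CU2a_cancel (σ ε : ZMod m → ℝ)
    (hp : ∀ j k, G j k true → σ j = ε k ∧ ε j = σ k)
    (hm : ∀ j k, G j k false → σ j = -σ k ∧ ε j = -ε k)
    (y z : ZMod m × Bool) (h : StepG G y z) : CU2aout σ ε y + CU2ainn σ ε z = 0 := by
  unfold StepG at h
  obtain ⟨i, f⟩ := y
  obtain ⟨j, g⟩ := z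
  cases f <;> cases g
  · have := hp _ _ h
    simp only [CU2aout, CU2ainn, Bool.false_eq_true, if_false]
    linarith [this.2]
  · have := hm _ _ h
    simp only [CU2aout, CU2ainn, Bool.false_eq_true, if_false, if_true]
    linarith [this.2]
  · have := hm _ _ h
    simp only [CU2aout, CU2ainn, Bool.false_eq_true, if_false, if_true]
    linarith [this.1]
  · have := hp _ _ h
    simp only [CU2aout, CU2ainn, if_true]
    linarith [this.1]

/-- the sum over a star is `0` -/
private theorem CU2a_star (K : CombU m a G ι) (σ ε : ZMod m → ℝ)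
    (hp : ∀ j k, G j k true → σ j = ε k ∧ ε j = σ k)
    (hm : ∀ j k, G j k false → σ j = -σ k ∧ ε j = -ε k) (c : ι × ZMod m) :
    ∑ k ∈ Finset.range (Function.minimalPeriod K.nx c),
      (σ (K.nx^[k] c).2 - ε ((K.nx^[k] c).2 - 1)) = 0 := by
  have h1 : ∀ k, σ (K.nx^[k] c).2 - ε ((K.nx^[k] c).2 - 1) =
      CU2aout σ ε (CU2afl K (K.nx^[k] c)) + CU2ainn σ ε (CU2afl K (K.nx^[k] c)) := fun k =>
    CU2a_b σ ε (CU2afl K (K.nx^[k] c))
  simp only [h1]
  rw [Finset.sum_add_distrib, ← CU2a_star_shift K (fun c => CU2ainn σ ε (CU2afl K c)) c,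
    ← Finset.sum_add_distrib]
  refine Finset.sum_eq_zero fun k _ => ?_
  rw [Function.iterate_succ_apply']
  exact CU2a_cancel σ ε hp hm _ _ (CU2a_step K _)

private theorem CU2a_le (f : ZMod m → ℝ) (x : ZMod m) : |f x| ≤ ∑ y, |f y| :=
  Finset.single_le_sum (f := fun y => |f y|) (fun y _ => abs_nonneg (f y)) (Finset.mem_univ x)

/-- one of the two inequalities -/
private theorem CU2a_nonpos (K : CombU m a G ι) (σ ε : ZMod m → ℝ)
    (hp : ∀ j k, G j k true → σ j = ε k ∧ ε j = σ k)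
    (hm : ∀ j k, G j k false → σ j = -σ k ∧ ε j = -ε k) :
    ∑ j, (σ j - ε j) ≤ 0 := by
  by_contra hcon
  push Not at hcon
  refine K.avg (fun c => σ c.2 - ε (c.2 - 1)) ⟨∑ i, |σ i| + ∑ i, |ε i|, fun c => ?_⟩
    (fun c => (CU2a_star K σ ε hp hm c).le) _ hcon fun t => ?_
  · have h1 := CU2a_le σ c.2
    have h2 := CU2a_le ε (c.2 - 1)
    have h3 : |σ c.2 - ε (c.2 - 1)| ≤ |σ c.2| + |ε (c.2 - 1)| := abs_sub _ _
    exact h3.trans (add_le_add h1 h2)
  · show ∑ j, (σ j - ε j) ≤ ∑ i : ZMod m, (σ i - ε (i - 1))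
    rw [Finset.sum_sub_distrib, Finset.sum_sub_distrib]
    have h4 : ∑ i : ZMod m, ε (i - 1) = ∑ i, ε i :=
      Equiv.sum_comp (Equiv.subRight (1 : ZMod m)) (fun i => ε i)
    rw [h4]

theorem CombU.off_sum (K : CombU m a G ι) (σ ε : ZMod m → ℝ)
    (hp : ∀ j k, G j k true → σ j = ε k ∧ ε j = σ k)
    (hm : ∀ j k, G j k false → σ j = -σ k ∧ ε j = -ε k) :
    ∑ j, (σ j - ε j) = 0 := by
  refine le_antisymm (CU2a_nonpos K σ ε hp hm) ?_
  have h := CU2a_nonpos K (fun j => -σ j) (fun j => -ε j)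
    (fun j k h => ⟨by rw [(hp j k h).1], by rw [(hp j k h).2]⟩)
    (fun j k h => ⟨by rw [(hm j k h).1], by rw [(hm j k h).2]⟩)
  have h1 : ∑ j, (-σ j - -ε j) = -∑ j, (σ j - ε j) := by
    rw [← Finset.sum_neg_distrib]
    exact Finset.sum_congr rfl fun j _ => by ring
  rw [h1] at h
  linarith

end Pool.Agent.Lib_MP_fa6e45
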