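import Pool.Agent.Lib_MP_fa6e45.X1a
import Pool.Agent.Lib_MP_fa6e45.Y5

/-!
PIECE Y6 (about 250 lines): chord angles. With `f j`, `g j` the first and the last side of arc `j` (as vectors) put
`σ j = arg (f j / ch j) / π`, `ε j = arg (g j / ch j) / π`; `Polygon.side_turn` at the corner `κ j` gives `ChordAng` for
`b j = ang (κ j) / π + σ j - ε (j - 1)`. `Plus j k`: the motion of `lift_plus` (`a = - ch j / ch k`) maps `g k` to `- f j`, ..., so
`σ j = ε k`, `ε j = σ k`. `Minus j k`: `f j / ch j = conj (f k / ch k)`, so `σ j = - σ k` unless the quotient is negative (then both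
args are `π`): for `k ≠ j` replace `σ k = 1` by `-1` for the arc with the larger index of a pair with `Minus` and not
`Plus` (by `rel_type` a pair with `w ≠ 1` has only one relation; for `w = 1` everything is 0).
-/

open Set MeasureTheory Complex
open scoped Topology

namespace Pool.Agent.Lib_MP_fa6e45

open Pool.Agent.Lib_PL (cr InSector Poly)
variable {n : ℕ} {P : Polygon n} {m : ℕ} [NeZero m] (S : Arcs P m)

/-- the first side of arc `j` divided by the chord -/
private noncomputable def Y6F (j : ZMod m) : ℂ :=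
  (P.vertex (S.κ j + 1) - P.vertex (S.κ j)) / S.ch j

/-- the last side of arc `j` divided by the chord -/
private noncomputable def Y6G (j : ZMod m) : ℂ :=
  (P.vertex (S.κ (j + 1)) - P.vertex (S.κ (j + 1) - 1)) / S.ch j

private theorem Y6_cast {j k : ZMod m} (hw : S.w j = S.w k) :
    S.κ k + ((S.w j : ℕ) : ZMod n) = S.κ (k + 1) ∧
    S.κ k + ((S.w j - 1 : ℕ) : ZMod n) = S.κ (k + 1) - 1 := by
  have h1 := S.step k
  have h2 := S.w_pos j
  constructor
  · rw [h1, hw]
  · rw [h1, hw, Nat.cast_sub (hw ▸ h2), Nat.cast_one, add_sub_assoc]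

private theorem Y6_plus (hm : 2 ≤ m) {j k : ZMod m} (h : S.Plus j k) : Y6F S j = Y6G S k := by
  have hj := S.ch_ne hm j
  have hk := S.ch_ne hm k
  have hnj : ‖S.ch j‖ ≠ 0 := norm_ne_zero_iff.2 hj
  have ha : ‖-S.ch j / S.ch k‖ = 1 := by
    rw [norm_div, norm_neg, ← S.norm_plus h, div_self hnj]
  have h1 : -S.ch j / S.ch k * S.V (k + 1) + (S.V j - -S.ch j / S.ch k * S.V (k + 1)) = S.V j := by
    ring
  have h2 : -S.ch j / S.ch k * S.V k + (S.V j - -S.ch j / S.ch k * S.V (k + 1)) = S.V (j + 1) := by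
    have e : -S.ch j / S.ch k * S.V k + (S.V j - -S.ch j / S.ch k * S.V (k + 1)) =
        S.V j + S.ch j / S.ch k * (S.V (k + 1) - S.V k) := by ring
    rw [e]
    change S.V j + S.ch j / S.ch k * S.ch k = _
    rw [div_mul_cancel₀ _ hk]
    unfold Arcs.ch
    ring
  have hw := S.w_pos j
  obtain ⟨c1, c2⟩ := Y6_cast S h.1
  have e0 := S.lift_plus hm h ha h1 h2 0 (S.w j) (by omega)
  have e1 := S.lift_plus hm h ha h1 h2 1 (S.w j - 1) (by omega)
  rw [c1, Nat.cast_zero, add_zero] at e0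
  rw [c2, Nat.cast_one] at e1
  unfold Y6F Y6G
  rw [← e0, ← e1, div_eq_div_iff hj hk]
  have e : (-S.ch j / S.ch k * P.vertex (S.κ (k + 1) - 1) +
      (S.V j - -S.ch j / S.ch k * S.V (k + 1)) -
      (-S.ch j / S.ch k * P.vertex (S.κ (k + 1)) +
      (S.V j - -S.ch j / S.ch k * S.V (k + 1)))) * S.ch k =
      (S.ch j / S.ch k * S.ch k) * (P.vertex (S.κ (k + 1)) - P.vertex (S.κ (k + 1) - 1)) := by
    ring
  rw [e, div_mul_cancel₀ _ hk, mul_comm]

private theorem Y6_minus (hm : 2 ≤ m) {j k : ZMod m} (h : S.Minus j k) :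
    Y6F S j = (starRingEnd ℂ) (Y6F S k) ∧ Y6G S j = (starRingEnd ℂ) (Y6G S k) := by
  have hj := S.ch_ne hm j
  have hk := S.ch_ne hm k
  have hck : (starRingEnd ℂ) (S.ch k) ≠ 0 := by
    rw [Ne, map_eq_zero]
    exact hk
  have hnj : ‖S.ch j‖ ≠ 0 := norm_ne_zero_iff.2 hj
  set a : ℂ := S.ch j / (starRingEnd ℂ) (S.ch k) with ha_def
  have ha : ‖a‖ = 1 := by
    rw [ha_def, norm_div, RCLike.norm_conj, ← S.norm_minus h, div_self hnj]
  have hac : a * (starRingEnd ℂ) (S.ch k) = S.ch j := div_mul_cancel₀ _ hck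
  set b : ℂ := S.V j - a * (starRingEnd ℂ) (S.V k) with hb
  have h1 : a * (starRingEnd ℂ) (S.V k) + b = S.V j := by
    rw [hb]; ring
  have h2 : a * (starRingEnd ℂ) (S.V (k + 1)) + b = S.V (j + 1) := by
    have h3 : a * ((starRingEnd ℂ) (S.V (k + 1)) - (starRingEnd ℂ) (S.V k)) = S.ch j := by
      rw [← map_sub]
      exact hac
    have h4 : S.V (j + 1) = S.ch j + S.V j := by
      unfold Arcs.ch
      ring
    rw [h4, hb]
    linear_combination h3
  have hw := S.w_pos j
  obtain ⟨c1, c2⟩ := Y6_cast S h.1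
  obtain ⟨d1, d2⟩ := Y6_cast S (rfl : S.w j = S.w j)
  have e0 := S.lift_minus hm h ha h1 h2 0 (by omega)
  have e1 := S.lift_minus hm h ha h1 h2 1 (by omega)
  have e2 := S.lift_minus hm h ha h1 h2 (S.w j) le_rfl
  have e3 := S.lift_minus hm h ha h1 h2 (S.w j - 1) (by omega)
  rw [Nat.cast_zero, add_zero, add_zero] at e0
  rw [Nat.cast_one] at e1
  rw [c1, d1] at e2
  rw [c2, d2] at e3
  constructor
  · unfold Y6F
    rw [map_div₀, div_eq_div_iff hj hck, ← e0, ← e1, ← hac, map_sub]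
    ring
  · unfold Y6G
    rw [map_div₀, div_eq_div_iff hj hck, ← e2, ← e3, ← hac, map_sub]
    ring

private theorem Y6_one (hm : 2 ≤ m) {j : ZMod m} (h : S.w j = 1) :
    Y6F S j = 1 ∧ Y6G S j = 1 := by
  have hj := S.ch_ne hm j
  have h1 := S.step j
  rw [h, Nat.cast_one] at h1
  unfold Y6F Y6G
  rw [h1, add_sub_cancel_right]
  have e : P.vertex (S.κ j + 1) - P.vertex (S.κ j) = S.ch j := by
    unfold Arcs.ch Arcs.V
    rw [h1]
  rw [e]
  exact ⟨div_self hj, div_self hj⟩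

/-! ### the choice of the arguments -/

open Classical in
/-- the argument (in units of `π`), with the opposite of the argument of the partner for the larger arc
of a pair -/
private noncomputable def Y6v (X : ZMod m → ℂ) (j : ZMod m) : ℝ :=
  if h : ∃ k, S.Minus j k ∧ k.val < j.val then -(arg (X h.choose) / Real.pi)
  else arg (X j) / Real.pi

private theorem Y6v_exp (X : ZMod m → ℂ)
    (hX : ∀ j k, S.Minus j k → X j = (starRingEnd ℂ) (X k)) (j : ZMod m) :
    X j = ((‖X j‖ : ℝ) : ℂ) * exp (((Real.pi * Y6v S X j : ℝ) : ℂ) * Complex.I) := by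
  have hpi : Real.pi ≠ 0 := Real.pi_ne_zero
  unfold Y6v
  split_ifs with h
  · have h1 := hX j _ h.choose_spec.1
    have h2 := Complex.norm_mul_exp_arg_mul_I (X h.choose)
    have h3 : Real.pi * -(arg (X h.choose) / Real.pi) = -arg (X h.choose) := by
      field_simp
    rw [h3, h1, RCLike.norm_conj]
    conv_lhs => rw [← h2]
    rw [map_mul, Complex.conj_ofReal, ← Complex.exp_conj, map_mul, Complex.conj_ofReal,
      Complex.conj_I]
    congr 2
    push_cast
    ring
  · have h3 : Real.pi * (arg (X j) / Real.pi) = arg (X j) := by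
      field_simp
    rw [h3]
    exact (Complex.norm_mul_exp_arg_mul_I (X j)).symm

private theorem Y6v_one (X : ZMod m → ℂ) (hX : ∀ j, S.w j = 1 → X j = 1) {j : ZMod m}
    (h : S.w j = 1) : Y6v S X j = 0 := by
  unfold Y6v
  split_ifs with h1
  · have h2 : S.w h1.choose = 1 := by
      rw [← h1.choose_spec.1.1]
      exact h
    rw [hX _ h2, Complex.arg_one]
    simp
  · rw [hX _ h, Complex.arg_one]
    simp

private theorem Y6v_minus (hl : P.NoThreeEqual) (X : ZMod m → ℂ)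
    (hX : ∀ j, S.w j = 1 → X j = 1) {j k : ZMod m} (h : S.Minus j k) :
    Y6v S X j = -Y6v S X k := by
  by_cases hw : S.w j = 1
  · rw [Y6v_one S X hX hw, Y6v_one S X hX (h.1 ▸ hw), neg_zero]
  · have hwk : S.w k ≠ 1 := fun hk => hw (h.1.trans hk)
    have hjk : k ≠ j := by
      rintro rfl
      exact hw (S.minus_self _ h)
    have hr : S.Rel j k false := h
    have hr' : S.Rel k j false := S.rel_symm hr
    have huj : ∀ k', S.Minus j k' → k' = k := fun k' hk' =>
      (S.rel_type hl hw (b := false) (b' := false) hk' h).1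
    have huk : ∀ k', S.Minus k k' → k' = j := fun k' hk' =>
      (S.rel_type hl hwk (b := false) (b' := false) hk' hr').1
    have hv : k.val ≠ j.val := fun hv => hjk (ZMod.val_injective m hv)
    rcases lt_or_gt_of_ne hv with hlt | hlt
    · have ej : ∃ k', S.Minus j k' ∧ k'.val < j.val := ⟨k, h, hlt⟩
      have ek : ¬ ∃ k', S.Minus k k' ∧ k'.val < k.val := by
        rintro ⟨k', h1, h2⟩
        rw [huk k' h1] at h2
        omega
      unfold Y6v
      rw [dif_pos ej, dif_neg ek, huj _ ej.choose_spec.1]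
    · have ek : ∃ k', S.Minus k k' ∧ k'.val < k.val := ⟨j, hr', hlt⟩
      have ej : ¬ ∃ k', S.Minus j k' ∧ k'.val < j.val := by
        rintro ⟨k', h1, h2⟩
        rw [huj k' h1] at h2
        omega
      unfold Y6v
      rw [dif_pos ek, dif_neg ej, huk _ ek.choose_spec.1, neg_neg]

private theorem Y6v_plus (hl : P.NoThreeEqual) (X : ZMod m → ℂ)
    (hX : ∀ j, S.w j = 1 → X j = 1) {j k : ZMod m} (h : S.Plus j k) :
    Y6v S X j = arg (X j) / Real.pi := by
  by_cases hw : S.w j = 1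
  · rw [Y6v_one S X hX hw, hX j hw, Complex.arg_one, zero_div]
  · have ej : ¬ ∃ k', S.Minus j k' ∧ k'.val < j.val := by
      rintro ⟨k', h1, h2⟩
      have h3 := (S.rel_type hl hw (b := false) (b' := true) (show S.Rel j k' false from h1)
        (show S.Rel j k true from h)).2
      exact Bool.false_ne_true h3
    unfold Y6v
    rw [dif_neg ej]

private theorem Y6_ratio {z w : ℂ} {r θ : ℝ} (hr : 0 ≤ r) (hw : w ≠ 0)
    (h : z = w * (r : ℂ) * exp ((θ : ℂ) * Complex.I)) :
    z = w * ((‖z‖ / ‖w‖ : ℝ) : ℂ) * exp ((θ : ℂ) * Complex.I) := by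
  have h1 : ‖z‖ = ‖w‖ * r := by
    rw [h, norm_mul, norm_mul, Complex.norm_exp_ofReal_mul_I, mul_one, Complex.norm_real,
      Real.norm_of_nonneg hr]
  have h2 : ‖w‖ ≠ 0 := norm_ne_zero_iff.2 hw
  have h3 : ‖z‖ / ‖w‖ = r := by
    rw [h1, mul_div_cancel_left₀ _ h2]
  rw [h3]
  exact h

theorem Arcs.chord_angles (hm : 2 ≤ m) (hl : P.NoThreeEqual) :
    ∃ σ ε : ZMod m → ℝ, (∀ j k, S.Plus j k → σ j = ε k ∧ ε j = σ k) ∧
      (∀ j k, S.Minus j k → σ j = -σ k ∧ ε j = -ε k) ∧
      S.ChordAng fun j => P.ang (S.κ j) / Real.pi + σ j - ε (j - 1) := by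
  have hF1 : ∀ j, S.w j = 1 → Y6F S j = 1 := fun j hj => (Y6_one S hm hj).1
  have hG1 : ∀ j, S.w j = 1 → Y6G S j = 1 := fun j hj => (Y6_one S hm hj).2
  have key : ∀ j k, S.Plus j k → Y6v S (Y6F S) j = Y6v S (Y6G S) k := by
    intro j k h
    have h' : S.Plus k j := S.rel_symm (b := true) h
    rw [Y6v_plus S hl _ hF1 h, Y6v_plus S hl _ hG1 h', Y6_plus S hm h]
  refine ⟨Y6v S (Y6F S), Y6v S (Y6G S), ?_, ?_, ?_⟩
  · intro j k h
    exact ⟨key j k h, (key k j (S.rel_symm (b := true) h)).symm⟩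
  · intro j k h
    exact ⟨Y6v_minus S hl _ hF1 h, Y6v_minus S hl _ hG1 h⟩
  · intro j
    have hj := S.ch_ne hm j
    have hj' := S.ch_ne hm (j - 1)
    have eF := Y6v_exp S (Y6F S) (fun j k h => (Y6_minus S hm h).1) j
    have eG := Y6v_exp S (Y6G S) (fun j k h => (Y6_minus S hm h).2) (j - 1)
    have hst := P.side_turn (S.κ j)
    have hFne : Y6F S j ≠ 0 := by
      unfold Y6F
      refine div_ne_zero ?_ hj
      intro h0
      have h1 := P.len_pos (S.κ j)
      unfold Polygon.len at h1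
      rw [dist_comm, dist_eq_norm, h0, norm_zero] at h1
      exact lt_irrefl _ h1
    have hFn : ((‖Y6F S j‖ : ℝ) : ℂ) ≠ 0 := by
      exact_mod_cast norm_ne_zero_iff.2 hFne
    set σ := Y6v S (Y6F S) j with hσ
    set ε := Y6v S (Y6G S) (j - 1) with hε
    set ρ : ℝ := P.len (S.κ j) / P.len (S.κ j - 1) with hρ
    have hρ0 : 0 ≤ ρ := div_nonneg (P.len_pos _).le (P.len_pos _).le
    -- the two sides at the corner `κ j`
    have e1 : P.vertex (S.κ j + 1) - P.vertex (S.κ j) = S.ch j * Y6F S j := by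
      unfold Y6F
      rw [mul_div_cancel₀ _ hj]
    have e2 : P.vertex (S.κ j) - P.vertex (S.κ j - 1) = S.ch (j - 1) * Y6G S (j - 1) := by
      unfold Y6G
      rw [mul_div_cancel₀ _ hj', sub_add_cancel]
    rw [e1, e2, eF, eG] at hst
    have hE : exp (((Real.pi * σ : ℝ) : ℂ) * Complex.I) ≠ 0 := Complex.exp_ne_zero _
    refine Y6_ratio (r := ‖Y6G S (j - 1)‖ * ρ / ‖Y6F S j‖)
      (div_nonneg (mul_nonneg (norm_nonneg _) hρ0) (norm_nonneg _)) hj' ?_
    have hexp : exp (((Real.pi * (1 - (P.ang (S.κ j) / Real.pi + σ - ε)) : ℝ) : ℂ) * Complex.I) *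
        exp (((Real.pi * σ : ℝ) : ℂ) * Complex.I) =
        exp (((Real.pi * ε : ℝ) : ℂ) * Complex.I) *
        exp ((((Real.pi - P.ang (S.κ j) : ℝ)) : ℂ) * Complex.I) := by
      rw [← Complex.exp_add, ← Complex.exp_add]
      congr 1
      have h1 : Real.pi * (1 - (P.ang (S.κ j) / Real.pi + σ - ε)) =
          Real.pi - P.ang (S.κ j) - Real.pi * σ + Real.pi * ε := by
        have hpi : Real.pi ≠ 0 := Real.pi_ne_zero
        field_simp
        ring
      rw [h1]
      push_cast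
      ring
    apply mul_right_cancel₀ (mul_ne_zero hFn hE)
    rw [hst]
    push_cast
    have h3 : S.ch (j - 1) * (((‖Y6G S (j - 1)‖ : ℝ) : ℂ) * (ρ : ℂ) / ((‖Y6F S j‖ : ℝ) : ℂ)) *
        exp (((Real.pi * (1 - (P.ang (S.κ j) / Real.pi + σ - ε)) : ℝ) : ℂ) * Complex.I) *
        (((‖Y6F S j‖ : ℝ) : ℂ) * exp (((Real.pi * σ : ℝ) : ℂ) * Complex.I)) =
        S.ch (j - 1) * ((‖Y6G S (j - 1)‖ : ℝ) : ℂ) * (ρ : ℂ) *
        (exp (((Real.pi * (1 - (P.ang (S.κ j) / Real.pi + σ - ε)) : ℝ) : ℂ) * Complex.I) *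
        exp (((Real.pi * σ : ℝ) : ℂ) * Complex.I)) := by
      field_simp
    push_cast at h3 hexp
    rw [h3, hexp]
    ring

end Pool.Agent.Lib_MP_fa6e45
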