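import Pool.Agent.Lib_MP_fa6e45.G0
import Pool.Agent.Lib_MP_fa6e45.ZA
import Pool.Agent.Lib_MP_fa6e45.Y6

/-!
MP_fa6e45_co, stage 3: if a scheme applies to coarse arcs (equations for the angles `a` of the polygon) then there
is a periodic tiling; the equations hold for the chord angles as well, as the deviations of the chords cancel
(captain, generated).
-/

open Set MeasureTheory Complex
open scoped Topology

namespace Pool.Agent.Lib_MP_fa6e45

open Pool.Agent.Lib_PL (cr InSector Poly)

variable {n : ℕ} {P : Polygon n}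

private theorem G6_h3 {x y z r : ℤ} {f : ZMod 3 → ℝ}
    (h : (x : ℝ) * f 0 + y * f 1 + z * f 2 = r) :
    Eqn.Holds ([x, y, z], r) f := by
  change (∑ i : Fin 3, ((([x, y, z] : List ℤ).getD i.val 0 : ℤ) : ℝ) * f i) = (r : ℝ)
  rw [Fin.sum_univ_three]
  exact h

private theorem G6_h4 {x y z t r : ℤ} {f : ZMod 4 → ℝ}
    (h : (x : ℝ) * f 0 + y * f 1 + z * f 2 + t * f 3 = r) :
    Eqn.Holds ([x, y, z, t], r) f := by
  change (∑ i : Fin 4, ((([x, y, z, t] : List ℤ).getD i.val 0 : ℤ) : ℝ) * f i) = (r : ℝ)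
  rw [Fin.sum_univ_four]
  exact h

private theorem G6_h5 {x y z t u r : ℤ} {f : ZMod 5 → ℝ}
    (h : (x : ℝ) * f 0 + y * f 1 + z * f 2 + t * f 3 + u * f 4 = r) :
    Eqn.Holds ([x, y, z, t, u], r) f := by
  change (∑ i : Fin 5, ((([x, y, z, t, u] : List ℤ).getD i.val 0 : ℤ) : ℝ) * f i) = (r : ℝ)
  rw [Fin.sum_univ_five]
  exact h

private theorem G6_h6 {x y z t u v r : ℤ} {f : ZMod 6 → ℝ}
    (h : (x : ℝ) * f 0 + y * f 1 + z * f 2 + t * f 3 + u * f 4 + v * f 5 = r) :
    Eqn.Holds ([x, y, z, t, u, v], r) f := by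
  change (∑ i : Fin 6, ((([x, y, z, t, u, v] : List ℤ).getD i.val 0 : ℤ) : ℝ) * f i) = (r : ℝ)
  rw [Fin.sum_univ_six]
  exact h

theorem appA3 (hc : P.CCW) (hl : P.NoThreeEqual) (S : Arcs P 3) (k : ℕ)
    (hg : ∀ g ∈ (schM 3 k).glue, S.Rel g.1 g.2.1 g.2.2)
    (he : ∀ E ∈ (schM 3 k).eqs, Eqn.Holds E fun j => P.ang (S.κ j) / Real.pi) : HasPeriodic P := by
  obtain ⟨σ, ε, hp, hm, hb⟩ := S.chord_angles (by norm_num) hl
  have hp : ∀ j k, S.Rel j k true → σ j = ε k ∧ ε j = σ k := hp
  have hm : ∀ j k, S.Rel j k false → σ j = -σ k ∧ ε j = -ε k := hm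
  have q0 : (0 - 1 : ZMod 3) = 2 := by decide
  have q1 : (1 - 1 : ZMod 3) = 0 := by decide
  have q2 : (2 - 1 : ZMod 3) = 1 := by decide
  rcases k with _ | _ | _ | _ | _ | k
  · refine app3 hc S _ hb ⟨0, 0, ?_, ?_⟩
    · intro g h
      have h1 := hg g h
      rw [Nat.cast_zero, add_zero, add_zero]
      exact h1
    · change ∀ g ∈ (sch3 0).glue, _ at hg
      change ∀ E ∈ (sch3 0).eqs, _ at he
      simp only [sch3, List.getD_cons_zero, List.getD_cons_succ, List.forall_mem_cons,
        List.not_mem_nil, IsEmpty.forall_iff, implies_true, and_true, Nat.cast_zero, Nat.cast_one,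
        Nat.cast_ofNat, add_zero] at hg he ⊢
  · refine app3 hc S _ hb ⟨1, 0, ?_, ?_⟩
    · intro g h
      have h1 := hg g h
      rw [Nat.cast_zero, add_zero, add_zero]
      exact h1
    · change ∀ g ∈ (sch3 1).glue, _ at hg
      change ∀ E ∈ (sch3 1).eqs, _ at he
      simp only [sch3, List.getD_cons_zero, List.getD_cons_succ, List.forall_mem_cons,
        List.not_mem_nil, IsEmpty.forall_iff, implies_true, and_true, Nat.cast_zero, Nat.cast_one,
        Nat.cast_ofNat, add_zero] at hg he ⊢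
  · refine app3 hc S _ hb ⟨2, 0, ?_, ?_⟩
    · intro g h
      have h1 := hg g h
      rw [Nat.cast_zero, add_zero, add_zero]
      exact h1
    · change ∀ g ∈ (sch3 2).glue, _ at hg
      change ∀ E ∈ (sch3 2).eqs, _ at he
      simp only [sch3, List.getD_cons_zero, List.getD_cons_succ, List.forall_mem_cons,
        List.not_mem_nil, IsEmpty.forall_iff, implies_true, and_true, Nat.cast_zero, Nat.cast_one,
        Nat.cast_ofNat, add_zero] at hg he ⊢
      have g0 := hp _ _ hg.1
      have g1 := hp _ _ hg.2.1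
      have g2 := hp _ _ hg.2.2
      have e0 := holds3 he.1
      have e1 := holds3 he.2
      refine ⟨?_, ?_⟩
      · apply G6_h3
        simp only [q0, q1, q2]
        norm_num at e0 ⊢
        linarith [g0.1, g0.2, g1.1, g1.2, g2.1, g2.2]
      · apply G6_h3
        simp only [q0, q1, q2]
        norm_num at e1 ⊢
        linarith [g0.1, g0.2, g1.1, g1.2, g2.1, g2.2]
  · refine app3 hc S _ hb ⟨3, 0, ?_, ?_⟩
    · intro g h
      have h1 := hg g h
      rw [Nat.cast_zero, add_zero, add_zero]
      exact h1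
    · change ∀ g ∈ (sch3 3).glue, _ at hg
      change ∀ E ∈ (sch3 3).eqs, _ at he
      simp only [sch3, List.getD_cons_zero, List.getD_cons_succ, List.forall_mem_cons,
        List.not_mem_nil, IsEmpty.forall_iff, implies_true, and_true, Nat.cast_zero, Nat.cast_one,
        Nat.cast_ofNat, add_zero] at hg he ⊢
      have g0 := hp _ _ hg.1
      have g1 := hp _ _ hg.2.1
      have g2 := hp _ _ hg.2.2
      have e0 := holds3 he.1
      have e1 := holds3 he.2
      refine ⟨?_, ?_⟩
      · apply G6_h3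
        simp only [q0, q1, q2]
        norm_num at e0 ⊢
        linarith [g0.1, g0.2, g1.1, g1.2, g2.1, g2.2]
      · apply G6_h3
        simp only [q0, q1, q2]
        norm_num at e1 ⊢
        linarith [g0.1, g0.2, g1.1, g1.2, g2.1, g2.2]
  · refine app3 hc S _ hb ⟨4, 0, ?_, ?_⟩
    · intro g h
      have h1 := hg g h
      rw [Nat.cast_zero, add_zero, add_zero]
      exact h1
    · change ∀ g ∈ (sch3 4).glue, _ at hg
      change ∀ E ∈ (sch3 4).eqs, _ at he
      simp only [sch3, List.getD_cons_zero, List.getD_cons_succ, List.forall_mem_cons,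
        List.not_mem_nil, IsEmpty.forall_iff, implies_true, and_true, Nat.cast_zero, Nat.cast_one,
        Nat.cast_ofNat, add_zero] at hg he ⊢
      have g0 := hp _ _ hg.1
      have g1 := hp _ _ hg.2.1
      have g2 := hp _ _ hg.2.2
      have e0 := holds3 he.1
      have e1 := holds3 he.2
      refine ⟨?_, ?_⟩
      · apply G6_h3
        simp only [q0, q1, q2]
        norm_num at e0 ⊢
        linarith [g0.1, g0.2, g1.1, g1.2, g2.1, g2.2]
      · apply G6_h3
        simp only [q0, q1, q2]
        norm_num at e1 ⊢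
        linarith [g0.1, g0.2, g1.1, g1.2, g2.1, g2.2]
  · exact (holds_nil (he _ (List.mem_singleton.2 rfl))).elim

theorem appA4 (hc : P.CCW) (hl : P.NoThreeEqual) (S : Arcs P 4) (k : ℕ)
    (hg : ∀ g ∈ (schM 4 k).glue, S.Rel g.1 g.2.1 g.2.2)
    (he : ∀ E ∈ (schM 4 k).eqs, Eqn.Holds E fun j => P.ang (S.κ j) / Real.pi) : HasPeriodic P := by
  obtain ⟨σ, ε, hp, hm, hb⟩ := S.chord_angles (by norm_num) hl
  have hp : ∀ j k, S.Rel j k true → σ j = ε k ∧ ε j = σ k := hp
  have hm : ∀ j k, S.Rel j k false → σ j = -σ k ∧ ε j = -ε k := hm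
  have q0 : (0 - 1 : ZMod 4) = 3 := by decide
  have q1 : (1 - 1 : ZMod 4) = 0 := by decide
  have q2 : (2 - 1 : ZMod 4) = 1 := by decide
  have q3 : (3 - 1 : ZMod 4) = 2 := by decide
  rcases k with _ | _ | _ | _ | _ | _ | _ | _ | _ | _ | _ | _ | _ | _ | k
  · refine app4 hc S _ hb ⟨0, 0, ?_, ?_⟩
    · intro g h
      have h1 := hg g h
      rw [Nat.cast_zero, add_zero, add_zero]
      exact h1
    · change ∀ g ∈ (sch4 0).glue, _ at hg
      change ∀ E ∈ (sch4 0).eqs, _ at he
      simp only [sch4, List.getD_cons_zero, List.getD_cons_succ, List.forall_mem_cons,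
        List.not_mem_nil, IsEmpty.forall_iff, implies_true, and_true, Nat.cast_zero, Nat.cast_one,
        Nat.cast_ofNat, add_zero] at hg he ⊢
  · refine app4 hc S _ hb ⟨1, 0, ?_, ?_⟩
    · intro g h
      have h1 := hg g h
      rw [Nat.cast_zero, add_zero, add_zero]
      exact h1
    · change ∀ g ∈ (sch4 1).glue, _ at hg
      change ∀ E ∈ (sch4 1).eqs, _ at he
      simp only [sch4, List.getD_cons_zero, List.getD_cons_succ, List.forall_mem_cons,
        List.not_mem_nil, IsEmpty.forall_iff, implies_true, and_true, Nat.cast_zero, Nat.cast_one,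
        Nat.cast_ofNat, add_zero] at hg he ⊢
  · refine app4 hc S _ hb ⟨2, 0, ?_, ?_⟩
    · intro g h
      have h1 := hg g h
      rw [Nat.cast_zero, add_zero, add_zero]
      exact h1
    · change ∀ g ∈ (sch4 2).glue, _ at hg
      change ∀ E ∈ (sch4 2).eqs, _ at he
      simp only [sch4, List.getD_cons_zero, List.getD_cons_succ, List.forall_mem_cons,
        List.not_mem_nil, IsEmpty.forall_iff, implies_true, and_true, Nat.cast_zero, Nat.cast_one,
        Nat.cast_ofNat, add_zero] at hg he ⊢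
  · refine app4 hc S _ hb ⟨3, 0, ?_, ?_⟩
    · intro g h
      have h1 := hg g h
      rw [Nat.cast_zero, add_zero, add_zero]
      exact h1
    · change ∀ g ∈ (sch4 3).glue, _ at hg
      change ∀ E ∈ (sch4 3).eqs, _ at he
      simp only [sch4, List.getD_cons_zero, List.getD_cons_succ, List.forall_mem_cons,
        List.not_mem_nil, IsEmpty.forall_iff, implies_true, and_true, Nat.cast_zero, Nat.cast_one,
        Nat.cast_ofNat, add_zero] at hg he ⊢
  · refine app4 hc S _ hb ⟨4, 0, ?_, ?_⟩
    · intro g h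
      have h1 := hg g h
      rw [Nat.cast_zero, add_zero, add_zero]
      exact h1
    · change ∀ g ∈ (sch4 4).glue, _ at hg
      change ∀ E ∈ (sch4 4).eqs, _ at he
      simp only [sch4, List.getD_cons_zero, List.getD_cons_succ, List.forall_mem_cons,
        List.not_mem_nil, IsEmpty.forall_iff, implies_true, and_true, Nat.cast_zero, Nat.cast_one,
        Nat.cast_ofNat, add_zero] at hg he ⊢
      have g0 := hp _ _ hg.1
      have g1 := hp _ _ hg.2.1
      have g2 := hp _ _ hg.2.2.1
      have g3 := hp _ _ hg.2.2.2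
      have e0 := holds4 he
      apply G6_h4
      simp only [q0, q1, q2, q3]
      norm_num at e0 ⊢
      linarith [g0.1, g0.2, g1.1, g1.2, g2.1, g2.2, g3.1, g3.2]
  · refine app4 hc S _ hb ⟨5, 0, ?_, ?_⟩
    · intro g h
      have h1 := hg g h
      rw [Nat.cast_zero, add_zero, add_zero]
      exact h1
    · change ∀ g ∈ (sch4 5).glue, _ at hg
      change ∀ E ∈ (sch4 5).eqs, _ at he
      simp only [sch4, List.getD_cons_zero, List.getD_cons_succ, List.forall_mem_cons,
        List.not_mem_nil, IsEmpty.forall_iff, implies_true, and_true, Nat.cast_zero, Nat.cast_one,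
        Nat.cast_ofNat, add_zero] at hg he ⊢
  · refine app4 hc S _ hb ⟨6, 0, ?_, ?_⟩
    · intro g h
      have h1 := hg g h
      rw [Nat.cast_zero, add_zero, add_zero]
      exact h1
    · change ∀ g ∈ (sch4 6).glue, _ at hg
      change ∀ E ∈ (sch4 6).eqs, _ at he
      simp only [sch4, List.getD_cons_zero, List.getD_cons_succ, List.forall_mem_cons,
        List.not_mem_nil, IsEmpty.forall_iff, implies_true, and_true, Nat.cast_zero, Nat.cast_one,
        Nat.cast_ofNat, add_zero] at hg he ⊢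
  · refine app4 hc S _ hb ⟨7, 0, ?_, ?_⟩
    · intro g h
      have h1 := hg g h
      rw [Nat.cast_zero, add_zero, add_zero]
      exact h1
    · change ∀ g ∈ (sch4 7).glue, _ at hg
      change ∀ E ∈ (sch4 7).eqs, _ at he
      simp only [sch4, List.getD_cons_zero, List.getD_cons_succ, List.forall_mem_cons,
        List.not_mem_nil, IsEmpty.forall_iff, implies_true, and_true, Nat.cast_zero, Nat.cast_one,
        Nat.cast_ofNat, add_zero] at hg he ⊢
      have g0 := hm _ _ hg.1
      have g1 := hm _ _ hg.2.1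
      have g2 := hm _ _ hg.2.2.1
      have g3 := hm _ _ hg.2.2.2
      have e0 := holds4 he
      apply G6_h4
      simp only [q0, q1, q2, q3]
      norm_num at e0 ⊢
      linarith [g0.1, g0.2, g1.1, g1.2, g2.1, g2.2, g3.1, g3.2]
  · refine app4 hc S _ hb ⟨8, 0, ?_, ?_⟩
    · intro g h
      have h1 := hg g h
      rw [Nat.cast_zero, add_zero, add_zero]
      exact h1
    · change ∀ g ∈ (sch4 8).glue, _ at hg
      change ∀ E ∈ (sch4 8).eqs, _ at he
      simp only [sch4, List.getD_cons_zero, List.getD_cons_succ, List.forall_mem_cons,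
        List.not_mem_nil, IsEmpty.forall_iff, implies_true, and_true, Nat.cast_zero, Nat.cast_one,
        Nat.cast_ofNat, add_zero] at hg he ⊢
      have g0 := hp _ _ hg.1
      have g1 := hp _ _ hg.2.1
      have g2 := hm _ _ hg.2.2.1
      have g3 := hm _ _ hg.2.2.2
      have e0 := holds4 he.1
      have e1 := holds4 he.2.1
      have e2 := holds4 he.2.2
      refine ⟨?_, ?_, ?_⟩
      · apply G6_h4
        simp only [q0, q1, q2, q3]
        norm_num at e0 ⊢
        linarith [g0.1, g0.2, g1.1, g1.2, g2.1, g2.2, g3.1, g3.2]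
      · apply G6_h4
        simp only [q0, q1, q2, q3]
        norm_num at e1 ⊢
        linarith [g0.1, g0.2, g1.1, g1.2, g2.1, g2.2, g3.1, g3.2]
      · apply G6_h4
        simp only [q0, q1, q2, q3]
        norm_num at e2 ⊢
        linarith [g0.1, g0.2, g1.1, g1.2, g2.1, g2.2, g3.1, g3.2]
  · refine app4 hc S _ hb ⟨9, 0, ?_, ?_⟩
    · intro g h
      have h1 := hg g h
      rw [Nat.cast_zero, add_zero, add_zero]
      exact h1
    · change ∀ g ∈ (sch4 9).glue, _ at hg
      change ∀ E ∈ (sch4 9).eqs, _ at he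
      simp only [sch4, List.getD_cons_zero, List.getD_cons_succ, List.forall_mem_cons,
        List.not_mem_nil, IsEmpty.forall_iff, implies_true, and_true, Nat.cast_zero, Nat.cast_one,
        Nat.cast_ofNat, add_zero] at hg he ⊢
      have g0 := hp _ _ hg.1
      have g1 := hp _ _ hg.2.1
      have g2 := hm _ _ hg.2.2.1
      have g3 := hm _ _ hg.2.2.2
      have e0 := holds4 he.1
      have e1 := holds4 he.2.1
      have e2 := holds4 he.2.2
      refine ⟨?_, ?_, ?_⟩
      · apply G6_h4
        simp only [q0, q1, q2, q3]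
        norm_num at e0 ⊢
        linarith [g0.1, g0.2, g1.1, g1.2, g2.1, g2.2, g3.1, g3.2]
      · apply G6_h4
        simp only [q0, q1, q2, q3]
        norm_num at e1 ⊢
        linarith [g0.1, g0.2, g1.1, g1.2, g2.1, g2.2, g3.1, g3.2]
      · apply G6_h4
        simp only [q0, q1, q2, q3]
        norm_num at e2 ⊢
        linarith [g0.1, g0.2, g1.1, g1.2, g2.1, g2.2, g3.1, g3.2]
  · refine app4 hc S _ hb ⟨10, 0, ?_, ?_⟩
    · intro g h
      have h1 := hg g h
      rw [Nat.cast_zero, add_zero, add_zero]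
      exact h1
    · change ∀ g ∈ (sch4 10).glue, _ at hg
      change ∀ E ∈ (sch4 10).eqs, _ at he
      simp only [sch4, List.getD_cons_zero, List.getD_cons_succ, List.forall_mem_cons,
        List.not_mem_nil, IsEmpty.forall_iff, implies_true, and_true, Nat.cast_zero, Nat.cast_one,
        Nat.cast_ofNat, add_zero] at hg he ⊢
      have g0 := hp _ _ hg.1
      have g1 := hp _ _ hg.2.1
      have g2 := hp _ _ hg.2.2.1
      have g3 := hp _ _ hg.2.2.2
      have e0 := holds4 he.1
      have e1 := holds4 he.2.1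
      have e2 := holds4 he.2.2
      refine ⟨?_, ?_, ?_⟩
      · apply G6_h4
        simp only [q0, q1, q2, q3]
        norm_num at e0 ⊢
        linarith [g0.1, g0.2, g1.1, g1.2, g2.1, g2.2, g3.1, g3.2]
      · apply G6_h4
        simp only [q0, q1, q2, q3]
        norm_num at e1 ⊢
        linarith [g0.1, g0.2, g1.1, g1.2, g2.1, g2.2, g3.1, g3.2]
      · apply G6_h4
        simp only [q0, q1, q2, q3]
        norm_num at e2 ⊢
        linarith [g0.1, g0.2, g1.1, g1.2, g2.1, g2.2, g3.1, g3.2]
  · refine app4 hc S _ hb ⟨11, 0, ?_, ?_⟩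
    · intro g h
      have h1 := hg g h
      rw [Nat.cast_zero, add_zero, add_zero]
      exact h1
    · change ∀ g ∈ (sch4 11).glue, _ at hg
      change ∀ E ∈ (sch4 11).eqs, _ at he
      simp only [sch4, List.getD_cons_zero, List.getD_cons_succ, List.forall_mem_cons,
        List.not_mem_nil, IsEmpty.forall_iff, implies_true, and_true, Nat.cast_zero, Nat.cast_one,
        Nat.cast_ofNat, add_zero] at hg he ⊢
      have g0 := hp _ _ hg.1
      have g1 := hp _ _ hg.2.1
      have g2 := hp _ _ hg.2.2.1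
      have g3 := hp _ _ hg.2.2.2
      have e0 := holds4 he.1
      have e1 := holds4 he.2.1
      have e2 := holds4 he.2.2
      refine ⟨?_, ?_, ?_⟩
      · apply G6_h4
        simp only [q0, q1, q2, q3]
        norm_num at e0 ⊢
        linarith [g0.1, g0.2, g1.1, g1.2, g2.1, g2.2, g3.1, g3.2]
      · apply G6_h4
        simp only [q0, q1, q2, q3]
        norm_num at e1 ⊢
        linarith [g0.1, g0.2, g1.1, g1.2, g2.1, g2.2, g3.1, g3.2]
      · apply G6_h4
        simp only [q0, q1, q2, q3]
        norm_num at e2 ⊢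
        linarith [g0.1, g0.2, g1.1, g1.2, g2.1, g2.2, g3.1, g3.2]
  · refine app4 hc S _ hb ⟨12, 0, ?_, ?_⟩
    · intro g h
      have h1 := hg g h
      rw [Nat.cast_zero, add_zero, add_zero]
      exact h1
    · change ∀ g ∈ (sch4 12).glue, _ at hg
      change ∀ E ∈ (sch4 12).eqs, _ at he
      simp only [sch4, List.getD_cons_zero, List.getD_cons_succ, List.forall_mem_cons,
        List.not_mem_nil, IsEmpty.forall_iff, implies_true, and_true, Nat.cast_zero, Nat.cast_one,
        Nat.cast_ofNat, add_zero] at hg he ⊢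
      have g0 := hp _ _ hg.1
      have g1 := hp _ _ hg.2.1
      have g2 := hp _ _ hg.2.2.1
      have g3 := hp _ _ hg.2.2.2
      have e0 := holds4 he.1
      have e1 := holds4 he.2.1
      have e2 := holds4 he.2.2
      refine ⟨?_, ?_, ?_⟩
      · apply G6_h4
        simp only [q0, q1, q2, q3]
        norm_num at e0 ⊢
        linarith [g0.1, g0.2, g1.1, g1.2, g2.1, g2.2, g3.1, g3.2]
      · apply G6_h4
        simp only [q0, q1, q2, q3]
        norm_num at e1 ⊢
        linarith [g0.1, g0.2, g1.1, g1.2, g2.1, g2.2, g3.1, g3.2]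
      · apply G6_h4
        simp only [q0, q1, q2, q3]
        norm_num at e2 ⊢
        linarith [g0.1, g0.2, g1.1, g1.2, g2.1, g2.2, g3.1, g3.2]
  · refine app4 hc S _ hb ⟨13, 0, ?_, ?_⟩
    · intro g h
      have h1 := hg g h
      rw [Nat.cast_zero, add_zero, add_zero]
      exact h1
    · change ∀ g ∈ (sch4 13).glue, _ at hg
      change ∀ E ∈ (sch4 13).eqs, _ at he
      simp only [sch4, List.getD_cons_zero, List.getD_cons_succ, List.forall_mem_cons,
        List.not_mem_nil, IsEmpty.forall_iff, implies_true, and_true, Nat.cast_zero, Nat.cast_one,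
        Nat.cast_ofNat, add_zero] at hg he ⊢
      have g0 := hp _ _ hg.1
      have g1 := hp _ _ hg.2.1
      have g2 := hp _ _ hg.2.2.1
      have g3 := hp _ _ hg.2.2.2
      have e0 := holds4 he.1
      have e1 := holds4 he.2.1
      have e2 := holds4 he.2.2
      refine ⟨?_, ?_, ?_⟩
      · apply G6_h4
        simp only [q0, q1, q2, q3]
        norm_num at e0 ⊢
        linarith [g0.1, g0.2, g1.1, g1.2, g2.1, g2.2, g3.1, g3.2]
      · apply G6_h4
        simp only [q0, q1, q2, q3]
        norm_num at e1 ⊢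
        linarith [g0.1, g0.2, g1.1, g1.2, g2.1, g2.2, g3.1, g3.2]
      · apply G6_h4
        simp only [q0, q1, q2, q3]
        norm_num at e2 ⊢
        linarith [g0.1, g0.2, g1.1, g1.2, g2.1, g2.2, g3.1, g3.2]
  · exact (holds_nil (he _ (List.mem_singleton.2 rfl))).elim

theorem appA5 (hc : P.CCW) (hl : P.NoThreeEqual) (S : Arcs P 5) (k : ℕ)
    (hg : ∀ g ∈ (schM 5 k).glue, S.Rel g.1 g.2.1 g.2.2)
    (he : ∀ E ∈ (schM 5 k).eqs, Eqn.Holds E fun j => P.ang (S.κ j) / Real.pi) : HasPeriodic P := by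
  obtain ⟨σ, ε, hp, hm, hb⟩ := S.chord_angles (by norm_num) hl
  have hp : ∀ j k, S.Rel j k true → σ j = ε k ∧ ε j = σ k := hp
  have hm : ∀ j k, S.Rel j k false → σ j = -σ k ∧ ε j = -ε k := hm
  have q0 : (0 - 1 : ZMod 5) = 4 := by decide
  have q1 : (1 - 1 : ZMod 5) = 0 := by decide
  have q2 : (2 - 1 : ZMod 5) = 1 := by decide
  have q3 : (3 - 1 : ZMod 5) = 2 := by decide
  have q4 : (4 - 1 : ZMod 5) = 3 := by decide
  rcases k with _ | _ | _ | _ | _ | _ | _ | _ | k
  · refine app5 hc S _ hb ⟨0, 0, ?_, ?_⟩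
    · intro g h
      have h1 := hg g h
      rw [Nat.cast_zero, add_zero, add_zero]
      exact h1
    · change ∀ g ∈ (sch5 0).glue, _ at hg
      change ∀ E ∈ (sch5 0).eqs, _ at he
      simp only [sch5, List.getD_cons_zero, List.getD_cons_succ, List.forall_mem_cons,
        List.not_mem_nil, IsEmpty.forall_iff, implies_true, and_true, Nat.cast_zero, Nat.cast_one,
        Nat.cast_ofNat, add_zero] at hg he ⊢
      have g0 := hm _ _ hg.1
      have g1 := hm _ _ hg.2.1
      have g2 := hp _ _ hg.2.2.1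
      have g3 := hp _ _ hg.2.2.2.1
      have g4 := hp _ _ hg.2.2.2.2
      have e0 := holds5 he
      apply G6_h5
      simp only [q0, q1, q2, q3, q4]
      norm_num at e0 ⊢
      linarith [g0.1, g0.2, g1.1, g1.2, g2.1, g2.2, g3.1, g3.2, g4.1, g4.2]
  · refine app5 hc S _ hb ⟨1, 0, ?_, ?_⟩
    · intro g h
      have h1 := hg g h
      rw [Nat.cast_zero, add_zero, add_zero]
      exact h1
    · change ∀ g ∈ (sch5 1).glue, _ at hg
      change ∀ E ∈ (sch5 1).eqs, _ at he
      simp only [sch5, List.getD_cons_zero, List.getD_cons_succ, List.forall_mem_cons,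
        List.not_mem_nil, IsEmpty.forall_iff, implies_true, and_true, Nat.cast_zero, Nat.cast_one,
        Nat.cast_ofNat, add_zero] at hg he ⊢
      have g0 := hp _ _ hg.1
      have g1 := hp _ _ hg.2.1
      have g2 := hp _ _ hg.2.2.1
      have g3 := hp _ _ hg.2.2.2.1
      have g4 := hp _ _ hg.2.2.2.2
      have e0 := holds5 he
      apply G6_h5
      simp only [q0, q1, q2, q3, q4]
      norm_num at e0 ⊢
      linarith [g0.1, g0.2, g1.1, g1.2, g2.1, g2.2, g3.1, g3.2, g4.1, g4.2]
  · refine app5 hc S _ hb ⟨2, 0, ?_, ?_⟩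
    · intro g h
      have h1 := hg g h
      rw [Nat.cast_zero, add_zero, add_zero]
      exact h1
    · change ∀ g ∈ (sch5 2).glue, _ at hg
      change ∀ E ∈ (sch5 2).eqs, _ at he
      simp only [sch5, List.getD_cons_zero, List.getD_cons_succ, List.forall_mem_cons,
        List.not_mem_nil, IsEmpty.forall_iff, implies_true, and_true, Nat.cast_zero, Nat.cast_one,
        Nat.cast_ofNat, add_zero] at hg he ⊢
      have g0 := hm _ _ hg.1
      have g1 := hm _ _ hg.2.1
      have g2 := hm _ _ hg.2.2.1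
      have g3 := hm _ _ hg.2.2.2.1
      have g4 := hp _ _ hg.2.2.2.2
      have e0 := holds5 he
      apply G6_h5
      simp only [q0, q1, q2, q3, q4]
      norm_num at e0 ⊢
      linarith [g0.1, g0.2, g1.1, g1.2, g2.1, g2.2, g3.1, g3.2, g4.1, g4.2]
  · refine app5 hc S _ hb ⟨3, 0, ?_, ?_⟩
    · intro g h
      have h1 := hg g h
      rw [Nat.cast_zero, add_zero, add_zero]
      exact h1
    · change ∀ g ∈ (sch5 3).glue, _ at hg
      change ∀ E ∈ (sch5 3).eqs, _ at he
      simp only [sch5, List.getD_cons_zero, List.getD_cons_succ, List.forall_mem_cons,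
        List.not_mem_nil, IsEmpty.forall_iff, implies_true, and_true, Nat.cast_zero, Nat.cast_one,
        Nat.cast_ofNat, add_zero] at hg he ⊢
      have g0 := hm _ _ hg.1
      have g1 := hm _ _ hg.2.1
      have g2 := hp _ _ hg.2.2.1
      have g3 := hp _ _ hg.2.2.2.1
      have g4 := hp _ _ hg.2.2.2.2
      have e0 := holds5 he
      apply G6_h5
      simp only [q0, q1, q2, q3, q4]
      norm_num at e0 ⊢
      linarith [g0.1, g0.2, g1.1, g1.2, g2.1, g2.2, g3.1, g3.2, g4.1, g4.2]
  · refine app5 hc S _ hb ⟨4, 0, ?_, ?_⟩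
    · intro g h
      have h1 := hg g h
      rw [Nat.cast_zero, add_zero, add_zero]
      exact h1
    · change ∀ g ∈ (sch5 4).glue, _ at hg
      change ∀ E ∈ (sch5 4).eqs, _ at he
      simp only [sch5, List.getD_cons_zero, List.getD_cons_succ, List.forall_mem_cons,
        List.not_mem_nil, IsEmpty.forall_iff, implies_true, and_true, Nat.cast_zero, Nat.cast_one,
        Nat.cast_ofNat, add_zero] at hg he ⊢
      have g0 := hp _ _ hg.1
      have g1 := hp _ _ hg.2.1
      have g2 := hp _ _ hg.2.2.1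
      have g3 := hp _ _ hg.2.2.2.1
      have g4 := hp _ _ hg.2.2.2.2
      have e0 := holds5 he.1
      have e1 := holds5 he.2
      refine ⟨?_, ?_⟩
      · apply G6_h5
        simp only [q0, q1, q2, q3, q4]
        norm_num at e0 ⊢
        linarith [g0.1, g0.2, g1.1, g1.2, g2.1, g2.2, g3.1, g3.2, g4.1, g4.2]
      · apply G6_h5
        simp only [q0, q1, q2, q3, q4]
        norm_num at e1 ⊢
        linarith [g0.1, g0.2, g1.1, g1.2, g2.1, g2.2, g3.1, g3.2, g4.1, g4.2]
  · refine app5 hc S _ hb ⟨5, 0, ?_, ?_⟩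
    · intro g h
      have h1 := hg g h
      rw [Nat.cast_zero, add_zero, add_zero]
      exact h1
    · change ∀ g ∈ (sch5 5).glue, _ at hg
      change ∀ E ∈ (sch5 5).eqs, _ at he
      simp only [sch5, List.getD_cons_zero, List.getD_cons_succ, List.forall_mem_cons,
        List.not_mem_nil, IsEmpty.forall_iff, implies_true, and_true, Nat.cast_zero, Nat.cast_one,
        Nat.cast_ofNat, add_zero] at hg he ⊢
      have g0 := hp _ _ hg.1
      have g1 := hp _ _ hg.2.1
      have g2 := hp _ _ hg.2.2.1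
      have g3 := hp _ _ hg.2.2.2.1
      have g4 := hp _ _ hg.2.2.2.2
      have e0 := holds5 he.1
      have e1 := holds5 he.2
      refine ⟨?_, ?_⟩
      · apply G6_h5
        simp only [q0, q1, q2, q3, q4]
        norm_num at e0 ⊢
        linarith [g0.1, g0.2, g1.1, g1.2, g2.1, g2.2, g3.1, g3.2, g4.1, g4.2]
      · apply G6_h5
        simp only [q0, q1, q2, q3, q4]
        norm_num at e1 ⊢
        linarith [g0.1, g0.2, g1.1, g1.2, g2.1, g2.2, g3.1, g3.2, g4.1, g4.2]
  · refine app5 hc S _ hb ⟨6, 0, ?_, ?_⟩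
    · intro g h
      have h1 := hg g h
      rw [Nat.cast_zero, add_zero, add_zero]
      exact h1
    · change ∀ g ∈ (sch5 6).glue, _ at hg
      change ∀ E ∈ (sch5 6).eqs, _ at he
      simp only [sch5, List.getD_cons_zero, List.getD_cons_succ, List.forall_mem_cons,
        List.not_mem_nil, IsEmpty.forall_iff, implies_true, and_true, Nat.cast_zero, Nat.cast_one,
        Nat.cast_ofNat, add_zero] at hg he ⊢
      have g0 := hp _ _ hg.1
      have g1 := hp _ _ hg.2.1
      have g2 := hp _ _ hg.2.2.1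
      have g3 := hp _ _ hg.2.2.2.1
      have g4 := hp _ _ hg.2.2.2.2
      have e0 := holds5 he.1
      have e1 := holds5 he.2
      refine ⟨?_, ?_⟩
      · apply G6_h5
        simp only [q0, q1, q2, q3, q4]
        norm_num at e0 ⊢
        linarith [g0.1, g0.2, g1.1, g1.2, g2.1, g2.2, g3.1, g3.2, g4.1, g4.2]
      · apply G6_h5
        simp only [q0, q1, q2, q3, q4]
        norm_num at e1 ⊢
        linarith [g0.1, g0.2, g1.1, g1.2, g2.1, g2.2, g3.1, g3.2, g4.1, g4.2]
  · exact (holds_nil (he _ (List.mem_singleton.2 rfl))).elim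
  · exact (holds_nil (he _ (List.mem_singleton.2 rfl))).elim

theorem appA6 (hc : P.CCW) (hl : P.NoThreeEqual) (S : Arcs P 6) (k : ℕ)
    (hg : ∀ g ∈ (schM 6 k).glue, S.Rel g.1 g.2.1 g.2.2)
    (he : ∀ E ∈ (schM 6 k).eqs, Eqn.Holds E fun j => P.ang (S.κ j) / Real.pi) : HasPeriodic P := by
  obtain ⟨σ, ε, hp, hm, hb⟩ := S.chord_angles (by norm_num) hl
  have hp : ∀ j k, S.Rel j k true → σ j = ε k ∧ ε j = σ k := hp
  have hm : ∀ j k, S.Rel j k false → σ j = -σ k ∧ ε j = -ε k := hm
  have q0 : (0 - 1 : ZMod 6) = 5 := by decide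
  have q1 : (1 - 1 : ZMod 6) = 0 := by decide
  have q2 : (2 - 1 : ZMod 6) = 1 := by decide
  have q3 : (3 - 1 : ZMod 6) = 2 := by decide
  have q4 : (4 - 1 : ZMod 6) = 3 := by decide
  have q5 : (5 - 1 : ZMod 6) = 4 := by decide
  rcases k with _ | _ | _ | _ | _ | _ | _ | _ | k
  · refine app6 hc S _ hb ⟨0, 0, ?_, ?_⟩
    · intro g h
      have h1 := hg g h
      rw [Nat.cast_zero, add_zero, add_zero]
      exact h1
    · change ∀ g ∈ (sch6 0).glue, _ at hg
      change ∀ E ∈ (sch6 0).eqs, _ at he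
      simp only [sch6, List.getD_cons_zero, List.getD_cons_succ, List.forall_mem_cons,
        List.not_mem_nil, IsEmpty.forall_iff, implies_true, and_true, Nat.cast_zero, Nat.cast_one,
        Nat.cast_ofNat, add_zero] at hg he ⊢
      have g0 := hp _ _ hg.1
      have g1 := hp _ _ hg.2.1
      have g2 := hp _ _ hg.2.2.1
      have g3 := hp _ _ hg.2.2.2.1
      have g4 := hp _ _ hg.2.2.2.2.1
      have g5 := hp _ _ hg.2.2.2.2.2
      have e0 := holds6 he
      apply G6_h6
      simp only [q0, q1, q2, q3, q4, q5]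
      norm_num at e0 ⊢
      linarith [g0.1, g0.2, g1.1, g1.2, g2.1, g2.2, g3.1, g3.2, g4.1, g4.2, g5.1, g5.2]
  · refine app6 hc S _ hb ⟨1, 0, ?_, ?_⟩
    · intro g h
      have h1 := hg g h
      rw [Nat.cast_zero, add_zero, add_zero]
      exact h1
    · change ∀ g ∈ (sch6 1).glue, _ at hg
      change ∀ E ∈ (sch6 1).eqs, _ at he
      simp only [sch6, List.getD_cons_zero, List.getD_cons_succ, List.forall_mem_cons,
        List.not_mem_nil, IsEmpty.forall_iff, implies_true, and_true, Nat.cast_zero, Nat.cast_one,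
        Nat.cast_ofNat, add_zero] at hg he ⊢
      have g0 := hp _ _ hg.1
      have g1 := hp _ _ hg.2.1
      have g2 := hp _ _ hg.2.2.1
      have g3 := hp _ _ hg.2.2.2.1
      have g4 := hp _ _ hg.2.2.2.2.1
      have g5 := hp _ _ hg.2.2.2.2.2
      have e0 := holds6 he.1
      have e1 := holds6 he.2
      refine ⟨?_, ?_⟩
      · apply G6_h6
        simp only [q0, q1, q2, q3, q4, q5]
        norm_num at e0 ⊢
        linarith [g0.1, g0.2, g1.1, g1.2, g2.1, g2.2, g3.1, g3.2, g4.1, g4.2, g5.1, g5.2]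
      · apply G6_h6
        simp only [q0, q1, q2, q3, q4, q5]
        norm_num at e1 ⊢
        linarith [g0.1, g0.2, g1.1, g1.2, g2.1, g2.2, g3.1, g3.2, g4.1, g4.2, g5.1, g5.2]
  · refine app6 hc S _ hb ⟨2, 0, ?_, ?_⟩
    · intro g h
      have h1 := hg g h
      rw [Nat.cast_zero, add_zero, add_zero]
      exact h1
    · change ∀ g ∈ (sch6 2).glue, _ at hg
      change ∀ E ∈ (sch6 2).eqs, _ at he
      simp only [sch6, List.getD_cons_zero, List.getD_cons_succ, List.forall_mem_cons,
        List.not_mem_nil, IsEmpty.forall_iff, implies_true, and_true, Nat.cast_zero, Nat.cast_one,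
        Nat.cast_ofNat, add_zero] at hg he ⊢
      have g0 := hp _ _ hg.1
      have g1 := hp _ _ hg.2.1
      have g2 := hp _ _ hg.2.2.1
      have g3 := hp _ _ hg.2.2.2.1
      have g4 := hp _ _ hg.2.2.2.2.1
      have g5 := hp _ _ hg.2.2.2.2.2
      have e0 := holds6 he.1
      have e1 := holds6 he.2.1
      have e2 := holds6 he.2.2
      refine ⟨?_, ?_, ?_⟩
      · apply G6_h6
        simp only [q0, q1, q2, q3, q4, q5]
        norm_num at e0 ⊢
        linarith [g0.1, g0.2, g1.1, g1.2, g2.1, g2.2, g3.1, g3.2, g4.1, g4.2, g5.1, g5.2]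
      · apply G6_h6
        simp only [q0, q1, q2, q3, q4, q5]
        norm_num at e1 ⊢
        linarith [g0.1, g0.2, g1.1, g1.2, g2.1, g2.2, g3.1, g3.2, g4.1, g4.2, g5.1, g5.2]
      · apply G6_h6
        simp only [q0, q1, q2, q3, q4, q5]
        norm_num at e2 ⊢
        linarith [g0.1, g0.2, g1.1, g1.2, g2.1, g2.2, g3.1, g3.2, g4.1, g4.2, g5.1, g5.2]
  · refine app6 hc S _ hb ⟨3, 0, ?_, ?_⟩
    · intro g h
      have h1 := hg g h
      rw [Nat.cast_zero, add_zero, add_zero]
      exact h1
    · change ∀ g ∈ (sch6 3).glue, _ at hg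
      change ∀ E ∈ (sch6 3).eqs, _ at he
      simp only [sch6, List.getD_cons_zero, List.getD_cons_succ, List.forall_mem_cons,
        List.not_mem_nil, IsEmpty.forall_iff, implies_true, and_true, Nat.cast_zero, Nat.cast_one,
        Nat.cast_ofNat, add_zero] at hg he ⊢
      have g0 := hm _ _ hg.1
      have g1 := hm _ _ hg.2.1
      have g2 := hm _ _ hg.2.2.1
      have g3 := hm _ _ hg.2.2.2.1
      have g4 := hp _ _ hg.2.2.2.2.1
      have g5 := hp _ _ hg.2.2.2.2.2
      have e0 := holds6 he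
      apply G6_h6
      simp only [q0, q1, q2, q3, q4, q5]
      norm_num at e0 ⊢
      linarith [g0.1, g0.2, g1.1, g1.2, g2.1, g2.2, g3.1, g3.2, g4.1, g4.2, g5.1, g5.2]
  · refine app6 hc S _ hb ⟨4, 0, ?_, ?_⟩
    · intro g h
      have h1 := hg g h
      rw [Nat.cast_zero, add_zero, add_zero]
      exact h1
    · change ∀ g ∈ (sch6 4).glue, _ at hg
      change ∀ E ∈ (sch6 4).eqs, _ at he
      simp only [sch6, List.getD_cons_zero, List.getD_cons_succ, List.forall_mem_cons,
        List.not_mem_nil, IsEmpty.forall_iff, implies_true, and_true, Nat.cast_zero, Nat.cast_one,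
        Nat.cast_ofNat, add_zero] at hg he ⊢
      have g0 := hm _ _ hg.1
      have g1 := hm _ _ hg.2.1
      have g2 := hp _ _ hg.2.2.1
      have g3 := hp _ _ hg.2.2.2.1
      have g4 := hp _ _ hg.2.2.2.2.1
      have g5 := hp _ _ hg.2.2.2.2.2
      have e0 := holds6 he
      apply G6_h6
      simp only [q0, q1, q2, q3, q4, q5]
      norm_num at e0 ⊢
      linarith [g0.1, g0.2, g1.1, g1.2, g2.1, g2.2, g3.1, g3.2, g4.1, g4.2, g5.1, g5.2]
  · refine app6 hc S _ hb ⟨5, 0, ?_, ?_⟩
    · intro g h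
      have h1 := hg g h
      rw [Nat.cast_zero, add_zero, add_zero]
      exact h1
    · change ∀ g ∈ (sch6 5).glue, _ at hg
      change ∀ E ∈ (sch6 5).eqs, _ at he
      simp only [sch6, List.getD_cons_zero, List.getD_cons_succ, List.forall_mem_cons,
        List.not_mem_nil, IsEmpty.forall_iff, implies_true, and_true, Nat.cast_zero, Nat.cast_one,
        Nat.cast_ofNat, add_zero] at hg he ⊢
      have g0 := hm _ _ hg.1
      have g1 := hm _ _ hg.2.1
      have g2 := hp _ _ hg.2.2.1
      have g3 := hp _ _ hg.2.2.2.1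
      have g4 := hm _ _ hg.2.2.2.2.1
      have g5 := hm _ _ hg.2.2.2.2.2
      have e0 := holds6 he.1
      have e1 := holds6 he.2
      refine ⟨?_, ?_⟩
      · apply G6_h6
        simp only [q0, q1, q2, q3, q4, q5]
        norm_num at e0 ⊢
        linarith [g0.1, g0.2, g1.1, g1.2, g2.1, g2.2, g3.1, g3.2, g4.1, g4.2, g5.1, g5.2]
      · apply G6_h6
        simp only [q0, q1, q2, q3, q4, q5]
        norm_num at e1 ⊢
        linarith [g0.1, g0.2, g1.1, g1.2, g2.1, g2.2, g3.1, g3.2, g4.1, g4.2, g5.1, g5.2]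
  · refine app6 hc S _ hb ⟨6, 0, ?_, ?_⟩
    · intro g h
      have h1 := hg g h
      rw [Nat.cast_zero, add_zero, add_zero]
      exact h1
    · change ∀ g ∈ (sch6 6).glue, _ at hg
      change ∀ E ∈ (sch6 6).eqs, _ at he
      simp only [sch6, List.getD_cons_zero, List.getD_cons_succ, List.forall_mem_cons,
        List.not_mem_nil, IsEmpty.forall_iff, implies_true, and_true, Nat.cast_zero, Nat.cast_one,
        Nat.cast_ofNat, add_zero] at hg he ⊢
      have g0 := hm _ _ hg.1
      have g1 := hm _ _ hg.2.1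
      have g2 := hp _ _ hg.2.2.1
      have g3 := hp _ _ hg.2.2.2.1
      have g4 := hm _ _ hg.2.2.2.2.1
      have g5 := hm _ _ hg.2.2.2.2.2
      have e0 := holds6 he
      apply G6_h6
      simp only [q0, q1, q2, q3, q4, q5]
      norm_num at e0 ⊢
      linarith [g0.1, g0.2, g1.1, g1.2, g2.1, g2.2, g3.1, g3.2, g4.1, g4.2, g5.1, g5.2]
  · exact (holds_nil (he _ (List.mem_singleton.2 rfl))).elim
  · exact (holds_nil (he _ (List.mem_singleton.2 rfl))).elim

end Pool.Agent.Lib_MP_fa6e45
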