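import Pool.Agent.Lib_MP_fa6e45.G5b
import Pool.Agent.Lib_MP_fa6e45.G6

/-!
MP_fa6e45_co, stage 3: if a scheme applies to coarse arcs then there is a periodic tiling (captain).
-/

open Set MeasureTheory Complex
open scoped Topology

namespace Pool.Agent.Lib_MP_fa6e45

open Pool.Agent.Lib_PL (cr InSector Poly)

variable {n : ℕ} {P : Polygon n} {m : ℕ} [NeZero m]

private theorem G7_lt (M k : ℕ) : ∀ g ∈ (schM M k).glue, g.1 < M ∧ g.2.1 < M := by
  unfold schM
  split
  · rcases k with _ | _ | _ | _ | _ | k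
    all_goals simp [sch3]
  · rcases k with _ | _ | _ | _ | _ | _ | _ | _ | _ | _ | _ | _ | _ | _ | k
    all_goals simp [sch4]
  · rcases k with _ | _ | _ | _ | _ | _ | _ | _ | k
    all_goals simp [sch5]
  · rcases k with _ | _ | _ | _ | _ | _ | _ | _ | k
    all_goals simp [sch6]
  · simp

private theorem G7_eq (S : Arcs P m) {nu : List ℕ} (h : nuOK m nu = true) {M : ℕ} [NeZero M]
    (hM : nu.length = M) {E : Eqn}
    (hE : ∑ j ∈ Finset.range nu.length, ((E.1.getD j 0 : ℤ) : ℝ) *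
      (P.ang (S.κ (nuA m nu j 0)) / Real.pi) = (E.2 : ℝ)) :
    Eqn.Holds E fun j => P.ang ((S.coarse h hM).κ j) / Real.pi := by
  unfold Eqn.Holds
  rw [hM] at hE
  rw [← hE]
  exact sum_zmod_range (M := M) (fun j => ((E.1.getD j 0 : ℤ) : ℝ) *
      (P.ang (S.κ (nuA m nu j 0)) / Real.pi))

theorem appM (hc : P.CCW) (hl : P.NoThreeEqual) (S : Arcs P m)
    (h : AppliesM (fun j => P.ang (S.κ j) / Real.pi) S.Rel) : HasPeriodic P := by
  obtain ⟨k, nu, hok, hg, he⟩ := h
  have key : ∀ (M : ℕ) [NeZero M] (hM : nu.length = M),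
      (∀ g ∈ (schM M k).glue, (S.coarse hok hM).Rel g.1 g.2.1 g.2.2) ∧
      (∀ E ∈ (schM M k).eqs, Eqn.Holds E fun j => P.ang ((S.coarse hok hM).κ j) / Real.pi) := by
    intro M _ hM
    rw [hM] at hg he
    refine ⟨fun g hgm => ?_, fun E hE => ?_⟩
    · have h1 := G7_lt M k g hgm
      exact coarse_rel S hok hM h1.1 h1.2 (hg g hgm)
    · refine G7_eq S hok hM ?_
      rw [hM]
      exact he E hE
  by_cases h3 : nu.length = 3
  · exact appA3 hc hl _ k (key 3 h3).1 (key 3 h3).2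
  by_cases h4 : nu.length = 4
  · exact appA4 hc hl _ k (key 4 h4).1 (key 4 h4).2
  by_cases h5 : nu.length = 5
  · exact appA5 hc hl _ k (key 5 h5).1 (key 5 h5).2
  by_cases h6 : nu.length = 6
  · exact appA6 hc hl _ k (key 6 h6).1 (key 6 h6).2
  exfalso
  have h7 : (schM nu.length k) = ⟨[], [([], 1)]⟩ := by
    unfold schM
    split <;> first | rfl | omega
  have h8 := he ([], 1) (by rw [h7]; exact List.mem_singleton.2 rfl)
  simp at h8

end Pool.Agent.Lib_MP_fa6e45
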