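import Pool.Agent.Lib_MP_fa6e45.HC0
import Pool.Agent.Lib_MP_fa6e45.G7

/-!
PIECE H5: coarse leaves without `NoThreeEqual`. In Y6 `chord_angles` uses `NoThreeEqual` only because an arc could be
`Minus`-related to several arcs; for the arcs glued by ONE scheme (a list `gl` of gluings, each arc occurs at most once as
first entry) the choice of the arguments works: `σ j = arg (F j) / π`, but for a pair `j ≠ k` glued with `false` the opposite
of the argument of the partner for the arc with the larger index. The rest is as in G6 and G7.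
-/

open Set MeasureTheory Complex
open scoped Topology

namespace Pool.Agent.Lib_MP_fa6e45

open Pool.Agent.Lib_PL (cr InSector Poly)

section chord

variable {n : ℕ} {P : Polygon n} {m : ℕ} [NeZero m] (S : Arcs P m)

/-- the first side of arc `j` divided by the chord -/
private noncomputable def H5F (j : ZMod m) : ℂ :=
  (P.vertex (S.κ j + 1) - P.vertex (S.κ j)) / S.ch j

/-- the last side of arc `j` divided by the chord -/
private noncomputable def H5G (j : ZMod m) : ℂ :=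
  (P.vertex (S.κ (j + 1)) - P.vertex (S.κ (j + 1) - 1)) / S.ch j

private theorem H5_cast {j k : ZMod m} (hw : S.w j = S.w k) :
    S.κ k + ((S.w j : ℕ) : ZMod n) = S.κ (k + 1) ∧
    S.κ k + ((S.w j - 1 : ℕ) : ZMod n) = S.κ (k + 1) - 1 := by
  have h1 := S.step k
  have h2 := S.w_pos j
  constructor
  · rw [h1, hw]
  · rw [h1, hw, Nat.cast_sub (hw ▸ h2), Nat.cast_one, add_sub_assoc]

private theorem H5_plus (hm : 2 ≤ m) {j k : ZMod m} (h : S.Plus j k) : H5F S j = H5G S k := by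
  have hj := S.ch_ne hm j
  have hk := S.ch_ne hm k
  have hnj : ‖S.ch j‖ ≠ 0 := norm_ne_zero_iff.2 hj
  have ha : ‖-S.ch j / S.ch k‖ = 1 := by
    rw [norm_div, norm_neg, ← S.norm_plus h, div_self hnj]
  have h1 : -S.ch j / S.ch k * S.V (k + 1) + (S.V j - -S.ch j / S.ch k * S.V (k + 1)) = S.V j := by
    ring
  have h2 : -S.ch j / S.ch k * S.V k + (S.V j - -S.ch j / S.ch k * S.V (k + 1)) = S.V (j + 1) := by
    have e : -S.ch j / S.ch k * S.V k + (S.V j - -S.ch j / S.ch k * S.V (k + 1)) =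
        S.V j + S.ch j / S.ch k * (S.V (k + 1) - S.V k) := by ring
    rw [e]
    change S.V j + S.ch j / S.ch k * S.ch k = _
    rw [div_mul_cancel₀ _ hk]
    unfold Arcs.ch
    ring
  have hw := S.w_pos j
  obtain ⟨c1, c2⟩ := H5_cast S h.1
  have e0 := S.lift_plus hm h ha h1 h2 0 (S.w j) (by omega)
  have e1 := S.lift_plus hm h ha h1 h2 1 (S.w j - 1) (by omega)
  rw [c1, Nat.cast_zero, add_zero] at e0
  rw [c2, Nat.cast_one] at e1
  unfold H5F H5G
  rw [← e0, ← e1, div_eq_div_iff hj hk]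
  have e : (-S.ch j / S.ch k * P.vertex (S.κ (k + 1) - 1) +
      (S.V j - -S.ch j / S.ch k * S.V (k + 1)) -
      (-S.ch j / S.ch k * P.vertex (S.κ (k + 1)) +
      (S.V j - -S.ch j / S.ch k * S.V (k + 1)))) * S.ch k =
      (S.ch j / S.ch k * S.ch k) * (P.vertex (S.κ (k + 1)) - P.vertex (S.κ (k + 1) - 1)) := by
    ring
  rw [e, div_mul_cancel₀ _ hk, mul_comm]

private theorem H5_minus (hm : 2 ≤ m) {j k : ZMod m} (h : S.Minus j k) :
    H5F S j = (starRingEnd ℂ) (H5F S k) ∧ H5G S j = (starRingEnd ℂ) (H5G S k) := by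
  have hj := S.ch_ne hm j
  have hk := S.ch_ne hm k
  have hck : (starRingEnd ℂ) (S.ch k) ≠ 0 := by
    rw [Ne, map_eq_zero]
    exact hk
  have hnj : ‖S.ch j‖ ≠ 0 := norm_ne_zero_iff.2 hj
  set a : ℂ := S.ch j / (starRingEnd ℂ) (S.ch k) with ha_def
  have ha : ‖a‖ = 1 := by
    rw [ha_def, norm_div, RCLike.norm_conj, ← S.norm_minus h, div_self hnj]
  have hac : a * (starRingEnd ℂ) (S.ch k) = S.ch j := div_mul_cancel₀ _ hck
  set b : ℂ := S.V j - a * (starRingEnd ℂ) (S.V k) with hb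
  have h1 : a * (starRingEnd ℂ) (S.V k) + b = S.V j := by
    rw [hb]; ring
  have h2 : a * (starRingEnd ℂ) (S.V (k + 1)) + b = S.V (j + 1) := by
    have h3 : a * ((starRingEnd ℂ) (S.V (k + 1)) - (starRingEnd ℂ) (S.V k)) = S.ch j := by
      rw [← map_sub]
      exact hac
    have h4 : S.V (j + 1) = S.ch j + S.V j := by
      unfold Arcs.ch
      ring
    rw [h4, hb]
    linear_combination h3
  have hw := S.w_pos j
  obtain ⟨c1, c2⟩ := H5_cast S h.1
  obtain ⟨d1, d2⟩ := H5_cast S (rfl : S.w j = S.w j)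
  have e0 := S.lift_minus hm h ha h1 h2 0 (by omega)
  have e1 := S.lift_minus hm h ha h1 h2 1 (by omega)
  have e2 := S.lift_minus hm h ha h1 h2 (S.w j) le_rfl
  have e3 := S.lift_minus hm h ha h1 h2 (S.w j - 1) (by omega)
  rw [Nat.cast_zero, add_zero, add_zero] at e0
  rw [Nat.cast_one] at e1
  rw [c1, d1] at e2
  rw [c2, d2] at e3
  constructor
  · unfold H5F
    rw [map_div₀, div_eq_div_iff hj hck, ← e0, ← e1, ← hac, map_sub]
    ring
  · unfold H5G
    rw [map_div₀, div_eq_div_iff hj hck, ← e2, ← e3, ← hac, map_sub]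
    ring

private theorem H5_one (hm : 2 ≤ m) {j : ZMod m} (h : S.w j = 1) :
    H5F S j = 1 ∧ H5G S j = 1 := by
  have hj := S.ch_ne hm j
  have h1 := S.step j
  rw [h, Nat.cast_one] at h1
  unfold H5F H5G
  rw [h1, add_sub_cancel_right]
  have e : P.vertex (S.κ j + 1) - P.vertex (S.κ j) = S.ch j := by
    unfold Arcs.ch Arcs.V
    rw [h1]
  rw [e]
  exact ⟨div_self hj, div_self hj⟩

/-! ### the choice of the arguments -/

open Classical in
/-- the argument (in units of `π`), with the opposite of the argument of the partner for the larger arc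
of a pair -/
private noncomputable def H5v (gl : List (ℕ × ℕ × Bool)) (X : ZMod m → ℂ) (j : ZMod m) : ℝ :=
  if h : ∃ g ∈ gl, (g.1 : ZMod m) = j ∧ g.2.2 = false ∧ g.2.1 < g.1 then
    -(arg (X ((h.choose.2.1 : ℕ) : ZMod m)) / Real.pi)
  else arg (X j) / Real.pi

private theorem H5v_exp (gl : List (ℕ × ℕ × Bool)) (X : ZMod m → ℂ)
    (hX : ∀ g ∈ gl, g.2.2 = false →
      X (g.1 : ZMod m) = (starRingEnd ℂ) (X (g.2.1 : ZMod m))) (j : ZMod m) :
    X j = ((‖X j‖ : ℝ) : ℂ) * exp (((Real.pi * H5v gl X j : ℝ) : ℂ) * Complex.I) := by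
  have hpi : Real.pi ≠ 0 := Real.pi_ne_zero
  unfold H5v
  split_ifs with h
  · have h0 := h.choose_spec
    have h1 := hX _ h0.1 h0.2.2.1
    rw [h0.2.1] at h1
    have h2 := Complex.norm_mul_exp_arg_mul_I (X ((h.choose.2.1 : ℕ) : ZMod m))
    have h3 : Real.pi * -(arg (X ((h.choose.2.1 : ℕ) : ZMod m)) / Real.pi) =
        -arg (X ((h.choose.2.1 : ℕ) : ZMod m)) := by
      field_simp
    rw [h3, h1, RCLike.norm_conj]
    conv_lhs => rw [← h2]
    rw [map_mul, Complex.conj_ofReal, ← Complex.exp_conj, map_mul, Complex.conj_ofReal,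
      Complex.conj_I]
    congr 2
    push_cast
    ring
  · have h3 : Real.pi * (arg (X j) / Real.pi) = arg (X j) := by
      field_simp
    rw [h3]
    exact (Complex.norm_mul_exp_arg_mul_I (X j)).symm

private theorem H5_natc {a b : ℕ} (ha : a < m) (hb : b < m) (h : (a : ZMod m) = (b : ZMod m)) :
    a = b := by
  have h1 := congrArg ZMod.val h
  rwa [ZMod.val_natCast_of_lt ha, ZMod.val_natCast_of_lt hb] at h1

/-- an arc glued with `true`, or with `false` to an arc with a larger or equal index -/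
private theorem H5v_pos (gl : List (ℕ × ℕ × Bool)) (hlt : ∀ g ∈ gl, g.1 < m ∧ g.2.1 < m)
    (huni : ∀ g ∈ gl, ∀ g' ∈ gl, g.1 = g'.1 → g = g') (X : ZMod m → ℂ)
    {g : ℕ × ℕ × Bool} (hg : g ∈ gl) (h : g.2.2 = true ∨ g.1 ≤ g.2.1) :
    H5v gl X (g.1 : ZMod m) = arg (X (g.1 : ZMod m)) / Real.pi := by
  have h1 : ¬ ∃ g' ∈ gl, (g'.1 : ZMod m) = (g.1 : ZMod m) ∧ g'.2.2 = false ∧ g'.2.1 < g'.1 := by
    rintro ⟨g', hg', h2, h3, h4⟩
    have h5 := huni g' hg' g hg (H5_natc (hlt g' hg').1 (hlt g hg).1 h2)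
    rw [h5] at h3 h4
    rcases h with h | h
    · rw [h] at h3
      exact Bool.false_ne_true h3.symm
    · omega
  unfold H5v
  rw [dif_neg h1]

/-- an arc glued with `false` to an arc with a smaller index -/
private theorem H5v_neg (gl : List (ℕ × ℕ × Bool)) (hlt : ∀ g ∈ gl, g.1 < m ∧ g.2.1 < m)
    (huni : ∀ g ∈ gl, ∀ g' ∈ gl, g.1 = g'.1 → g = g') (X : ZMod m → ℂ)
    {g : ℕ × ℕ × Bool} (hg : g ∈ gl) (h : g.2.2 = false) (h' : g.2.1 < g.1) :
    H5v gl X (g.1 : ZMod m) = -(arg (X (g.2.1 : ZMod m)) / Real.pi) := by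
  have h1 : ∃ g' ∈ gl, (g'.1 : ZMod m) = (g.1 : ZMod m) ∧ g'.2.2 = false ∧ g'.2.1 < g'.1 :=
    ⟨g, hg, rfl, h, h'⟩
  have h2 : h1.choose = g := huni _ h1.choose_spec.1 g hg
    (H5_natc (hlt _ h1.choose_spec.1).1 (hlt g hg).1 h1.choose_spec.2.1)
  unfold H5v
  rw [dif_pos h1, h2]

/-- arcs glued with `false` -/
private theorem H5v_minus (gl : List (ℕ × ℕ × Bool)) (hlt : ∀ g ∈ gl, g.1 < m ∧ g.2.1 < m)
    (hsym : ∀ g ∈ gl, (g.2.1, g.1, g.2.2) ∈ gl)
    (huni : ∀ g ∈ gl, ∀ g' ∈ gl, g.1 = g'.1 → g = g') (X : ZMod m → ℂ)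
    (h1 : ∀ g ∈ gl, g.2.2 = false → g.1 = g.2.1 → X (g.1 : ZMod m) = 1)
    {g : ℕ × ℕ × Bool} (hg : g ∈ gl) (h : g.2.2 = false) :
    H5v gl X (g.1 : ZMod m) = -H5v gl X (g.2.1 : ZMod m) := by
  have hs := hsym g hg
  rcases lt_trichotomy g.1 g.2.1 with hlt' | heq | hgt
  · rw [H5v_pos gl hlt huni X hg (Or.inr hlt'.le)]
    have h2 := H5v_neg gl hlt huni X hs h hlt'
    have h3 : H5v gl X (g.2.1 : ZMod m) = -(arg (X (g.1 : ZMod m)) / Real.pi) := h2
    rw [h3, neg_neg]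
  · rw [← heq, H5v_pos gl hlt huni X hg (Or.inr heq.le), h1 g hg h heq, Complex.arg_one]
    simp
  · rw [H5v_neg gl hlt huni X hg h hgt]
    have h2 := H5v_pos gl hlt huni X hs (Or.inr hgt.le)
    have h3 : H5v gl X (g.2.1 : ZMod m) = arg (X (g.2.1 : ZMod m)) / Real.pi := h2
    rw [h3]

private theorem H5_ratio {z w : ℂ} {r θ : ℝ} (hr : 0 ≤ r) (hw : w ≠ 0)
    (h : z = w * (r : ℂ) * exp ((θ : ℂ) * Complex.I)) :
    z = w * ((‖z‖ / ‖w‖ : ℝ) : ℂ) * exp ((θ : ℂ) * Complex.I) := by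
  have h1 : ‖z‖ = ‖w‖ * r := by
    rw [h, norm_mul, norm_mul, Complex.norm_exp_ofReal_mul_I, mul_one, Complex.norm_real,
      Real.norm_of_nonneg hr]
  have h2 : ‖w‖ ≠ 0 := norm_ne_zero_iff.2 hw
  have h3 : ‖z‖ / ‖w‖ = r := by
    rw [h1, mul_div_cancel_left₀ _ h2]
  rw [h3]
  exact h

end chord

variable {n : ℕ} {P : Polygon n} {m : ℕ} [NeZero m]

theorem Arcs.chord_anglesL (S : Arcs P m) (hm : 2 ≤ m) (gl : List (ℕ × ℕ × Bool))
    (hg : ∀ g ∈ gl, S.Rel (g.1 : ZMod m) (g.2.1 : ZMod m) g.2.2)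
    (hlt : ∀ g ∈ gl, g.1 < m ∧ g.2.1 < m)
    (hsym : ∀ g ∈ gl, (g.2.1, g.1, g.2.2) ∈ gl)
    (huni : ∀ g ∈ gl, ∀ g' ∈ gl, g.1 = g'.1 → g = g') :
    ∃ σ ε : ZMod m → ℝ,
      (∀ g ∈ gl, g.2.2 = true → σ (g.1 : ZMod m) = ε (g.2.1 : ZMod m) ∧
        ε (g.1 : ZMod m) = σ (g.2.1 : ZMod m)) ∧
      (∀ g ∈ gl, g.2.2 = false → σ (g.1 : ZMod m) = -σ (g.2.1 : ZMod m) ∧
        ε (g.1 : ZMod m) = -ε (g.2.1 : ZMod m)) ∧
      S.ChordAng fun j => P.ang (S.κ j) / Real.pi + σ j - ε (j - 1) := by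
  have hPl : ∀ g ∈ gl, g.2.2 = true → S.Plus (g.1 : ZMod m) (g.2.1 : ZMod m) := by
    intro g hgm h
    have h1 := hg g hgm
    rw [h] at h1
    exact h1
  have hMin : ∀ g ∈ gl, g.2.2 = false → S.Minus (g.1 : ZMod m) (g.2.1 : ZMod m) := by
    intro g hgm h
    have h1 := hg g hgm
    rw [h] at h1
    exact h1
  have hw1 : ∀ g ∈ gl, g.2.2 = false → g.1 = g.2.1 → S.w (g.1 : ZMod m) = 1 := by
    intro g hgm h h1
    have h2 := hMin g hgm h
    rw [← h1] at h2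
    exact S.minus_self _ h2
  have hF1 : ∀ g ∈ gl, g.2.2 = false → g.1 = g.2.1 → H5F S (g.1 : ZMod m) = 1 :=
    fun g hgm h h1 => (H5_one S hm (hw1 g hgm h h1)).1
  have hG1 : ∀ g ∈ gl, g.2.2 = false → g.1 = g.2.1 → H5G S (g.1 : ZMod m) = 1 :=
    fun g hgm h h1 => (H5_one S hm (hw1 g hgm h h1)).2
  have key : ∀ g ∈ gl, g.2.2 = true →
      H5v gl (H5F S) (g.1 : ZMod m) = H5v gl (H5G S) (g.2.1 : ZMod m) := by
    intro g hgm h
    have hs := hsym g hgm
    have h2 : H5v gl (H5G S) (g.2.1 : ZMod m) = arg (H5G S (g.2.1 : ZMod m)) / Real.pi :=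
      H5v_pos gl hlt huni (H5G S) hs (Or.inl h)
    rw [H5v_pos gl hlt huni (H5F S) hgm (Or.inl h), h2, H5_plus S hm (hPl g hgm h)]
  refine ⟨H5v gl (H5F S), H5v gl (H5G S), ?_, ?_, ?_⟩
  · intro g hgm h
    exact ⟨key g hgm h, (key _ (hsym g hgm) h).symm⟩
  · intro g hgm h
    exact ⟨H5v_minus gl hlt hsym huni _ hF1 hgm h, H5v_minus gl hlt hsym huni _ hG1 hgm h⟩
  · intro j
    have hj := S.ch_ne hm j
    have hj' := S.ch_ne hm (j - 1)
    have eF := H5v_exp gl (H5F S) (fun g hgm h => (H5_minus S hm (hMin g hgm h)).1) j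
    have eG := H5v_exp gl (H5G S) (fun g hgm h => (H5_minus S hm (hMin g hgm h)).2) (j - 1)
    have hst := P.side_turn (S.κ j)
    have hFne : H5F S j ≠ 0 := by
      unfold H5F
      refine div_ne_zero ?_ hj
      intro h0
      have h1 := P.len_pos (S.κ j)
      unfold Polygon.len at h1
      rw [dist_comm, dist_eq_norm, h0, norm_zero] at h1
      exact lt_irrefl _ h1
    have hFn : ((‖H5F S j‖ : ℝ) : ℂ) ≠ 0 := by
      exact_mod_cast norm_ne_zero_iff.2 hFne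
    set σ := H5v gl (H5F S) j with hσ
    set ε := H5v gl (H5G S) (j - 1) with hε
    set ρ : ℝ := P.len (S.κ j) / P.len (S.κ j - 1) with hρ
    have hρ0 : 0 ≤ ρ := div_nonneg (P.len_pos _).le (P.len_pos _).le
    -- the two sides at the corner `κ j`
    have e1 : P.vertex (S.κ j + 1) - P.vertex (S.κ j) = S.ch j * H5F S j := by
      unfold H5F
      rw [mul_div_cancel₀ _ hj]
    have e2 : P.vertex (S.κ j) - P.vertex (S.κ j - 1) = S.ch (j - 1) * H5G S (j - 1) := by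
      unfold H5G
      rw [mul_div_cancel₀ _ hj', sub_add_cancel]
    rw [e1, e2, eF, eG] at hst
    have hE : exp (((Real.pi * σ : ℝ) : ℂ) * Complex.I) ≠ 0 := Complex.exp_ne_zero _
    refine H5_ratio (r := ‖H5G S (j - 1)‖ * ρ / ‖H5F S j‖)
      (div_nonneg (mul_nonneg (norm_nonneg _) hρ0) (norm_nonneg _)) hj' ?_
    have hexp : exp (((Real.pi * (1 - (P.ang (S.κ j) / Real.pi + σ - ε)) : ℝ) : ℂ) * Complex.I) *
        exp (((Real.pi * σ : ℝ) : ℂ) * Complex.I) =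
        exp (((Real.pi * ε : ℝ) : ℂ) * Complex.I) *
        exp ((((Real.pi - P.ang (S.κ j) : ℝ)) : ℂ) * Complex.I) := by
      rw [← Complex.exp_add, ← Complex.exp_add]
      congr 1
      have h1 : Real.pi * (1 - (P.ang (S.κ j) / Real.pi + σ - ε)) =
          Real.pi - P.ang (S.κ j) - Real.pi * σ + Real.pi * ε := by
        have hpi : Real.pi ≠ 0 := Real.pi_ne_zero
        field_simp
        ring
      rw [h1]
      push_cast
      ring
    apply mul_right_cancel₀ (mul_ne_zero hFn hE)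
    rw [hst]
    push_cast
    have h3 : S.ch (j - 1) * (((‖H5G S (j - 1)‖ : ℝ) : ℂ) * (ρ : ℂ) / ((‖H5F S j‖ : ℝ) : ℂ)) *
        exp (((Real.pi * (1 - (P.ang (S.κ j) / Real.pi + σ - ε)) : ℝ) : ℂ) * Complex.I) *
        (((‖H5F S j‖ : ℝ) : ℂ) * exp (((Real.pi * σ : ℝ) : ℂ) * Complex.I)) =
        S.ch (j - 1) * ((‖H5G S (j - 1)‖ : ℝ) : ℂ) * (ρ : ℂ) *
        (exp (((Real.pi * (1 - (P.ang (S.κ j) / Real.pi + σ - ε)) : ℝ) : ℂ) * Complex.I) *
        exp (((Real.pi * σ : ℝ) : ℂ) * Complex.I)) := by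
      field_simp
    push_cast at h3 hexp
    rw [h3, hexp]
    ring


end Pool.Agent.Lib_MP_fa6e45
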