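import Pool.Agent.Lib_MP_fa6e45.CS0
import Pool.Agent.Lib_MP_fa6e45.H5a
import Pool.Agent.Lib_MP_fa6e45.Y5

/-!
PIECE CS1 (about 200 lines): chord angles for all relations at once. Copy of `Arcs.chord_anglesL` (H5a) with other lifts:
`F j` = first side of arc `j` divided by the chord, `G j` = last side divided by the chord (`H5F`, `H5G`). `Plus j k`:
`F j = G k`; `Minus j k`: `F k = conj (F j)`, `G k = conj (G j)` (`H5_plus`, `H5_minus`, private: copy them). Lift:
`σ j = arg (F j) / π`, except if `arg (F j) = π` (`F j` is a negative real number, so `w j ≥ 2`): then `σ j = 1` if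
`P.ang (κ j + 1) < π` and `σ j = -1` if not. `ε j = arg (G j) / π`, except if `arg (G j) = π`: then `ε j = 1` if
`P.ang (κ j + (w j - 1)) > π` and `ε j = -1` if not. Since `Plus`, `Minus` say that the sum of the corresponding inner
angles is `2 π`, and `P.ang_ne`, all equations hold (`arg (conj z) = - arg z` if `arg z ≠ π`). If `w j = 1` then
`F j = G j = 1`, `σ j = ε j = 0` (`Minus j j` implies `w j = 1`: `minus_self`). The last part (`ChordAng`) is as in H5a:
`exp (i π σ) = F / |F|`.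
-/

open Set MeasureTheory Complex
open scoped Topology

namespace Pool.Agent.Lib_MP_fa6e45

open Pool.Agent.Lib_PL (cr InSector Poly)

section chord

variable {n : ℕ} {P : Polygon n} {m : ℕ} [NeZero m] (S : Arcs P m)

/-- the first side of arc `j` divided by the chord -/
private noncomputable def CS1F (j : ZMod m) : ℂ :=
  (P.vertex (S.κ j + 1) - P.vertex (S.κ j)) / S.ch j

/-- the last side of arc `j` divided by the chord -/
private noncomputable def CS1G (j : ZMod m) : ℂ :=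
  (P.vertex (S.κ (j + 1)) - P.vertex (S.κ (j + 1) - 1)) / S.ch j

private theorem CS1_cast {j k : ZMod m} (hw : S.w j = S.w k) :
    S.κ k + ((S.w j : ℕ) : ZMod n) = S.κ (k + 1) ∧
    S.κ k + ((S.w j - 1 : ℕ) : ZMod n) = S.κ (k + 1) - 1 := by
  have h1 := S.step k
  have h2 := S.w_pos j
  constructor
  · rw [h1, hw]
  · rw [h1, hw, Nat.cast_sub (hw ▸ h2), Nat.cast_one, add_sub_assoc]

private theorem CS1_plus (hm : 2 ≤ m) {j k : ZMod m} (h : S.Plus j k) : CS1F S j = CS1G S k := by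
  have hj := S.ch_ne hm j
  have hk := S.ch_ne hm k
  have hnj : ‖S.ch j‖ ≠ 0 := norm_ne_zero_iff.2 hj
  have ha : ‖-S.ch j / S.ch k‖ = 1 := by
    rw [norm_div, norm_neg, ← S.norm_plus h, div_self hnj]
  have h1 : -S.ch j / S.ch k * S.V (k + 1) + (S.V j - -S.ch j / S.ch k * S.V (k + 1)) = S.V j := by
    ring
  have h2 : -S.ch j / S.ch k * S.V k + (S.V j - -S.ch j / S.ch k * S.V (k + 1)) = S.V (j + 1) := by
    have e : -S.ch j / S.ch k * S.V k + (S.V j - -S.ch j / S.ch k * S.V (k + 1)) =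
        S.V j + S.ch j / S.ch k * (S.V (k + 1) - S.V k) := by ring
    rw [e]
    change S.V j + S.ch j / S.ch k * S.ch k = _
    rw [div_mul_cancel₀ _ hk]
    unfold Arcs.ch
    ring
  have hw := S.w_pos j
  obtain ⟨c1, c2⟩ := CS1_cast S h.1
  have e0 := S.lift_plus hm h ha h1 h2 0 (S.w j) (by omega)
  have e1 := S.lift_plus hm h ha h1 h2 1 (S.w j - 1) (by omega)
  rw [c1, Nat.cast_zero, add_zero] at e0
  rw [c2, Nat.cast_one] at e1
  unfold CS1F CS1G
  rw [← e0, ← e1, div_eq_div_iff hj hk]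
  have e : (-S.ch j / S.ch k * P.vertex (S.κ (k + 1) - 1) +
      (S.V j - -S.ch j / S.ch k * S.V (k + 1)) -
      (-S.ch j / S.ch k * P.vertex (S.κ (k + 1)) +
      (S.V j - -S.ch j / S.ch k * S.V (k + 1)))) * S.ch k =
      (S.ch j / S.ch k * S.ch k) * (P.vertex (S.κ (k + 1)) - P.vertex (S.κ (k + 1) - 1)) := by
    ring
  rw [e, div_mul_cancel₀ _ hk, mul_comm]

private theorem CS1_minus (hm : 2 ≤ m) {j k : ZMod m} (h : S.Minus j k) :
    CS1F S j = (starRingEnd ℂ) (CS1F S k) ∧ CS1G S j = (starRingEnd ℂ) (CS1G S k) := by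
  have hj := S.ch_ne hm j
  have hk := S.ch_ne hm k
  have hck : (starRingEnd ℂ) (S.ch k) ≠ 0 := by
    rw [Ne, map_eq_zero]
    exact hk
  have hnj : ‖S.ch j‖ ≠ 0 := norm_ne_zero_iff.2 hj
  set a : ℂ := S.ch j / (starRingEnd ℂ) (S.ch k) with ha_def
  have ha : ‖a‖ = 1 := by
    rw [ha_def, norm_div, RCLike.norm_conj, ← S.norm_minus h, div_self hnj]
  have hac : a * (starRingEnd ℂ) (S.ch k) = S.ch j := div_mul_cancel₀ _ hck
  set b : ℂ := S.V j - a * (starRingEnd ℂ) (S.V k) with hb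
  have h1 : a * (starRingEnd ℂ) (S.V k) + b = S.V j := by
    rw [hb]; ring
  have h2 : a * (starRingEnd ℂ) (S.V (k + 1)) + b = S.V (j + 1) := by
    have h3 : a * ((starRingEnd ℂ) (S.V (k + 1)) - (starRingEnd ℂ) (S.V k)) = S.ch j := by
      rw [← map_sub]
      exact hac
    have h4 : S.V (j + 1) = S.ch j + S.V j := by
      unfold Arcs.ch
      ring
    rw [h4, hb]
    linear_combination h3
  have hw := S.w_pos j
  obtain ⟨c1, c2⟩ := CS1_cast S h.1
  obtain ⟨d1, d2⟩ := CS1_cast S (rfl : S.w j = S.w j)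
  have e0 := S.lift_minus hm h ha h1 h2 0 (by omega)
  have e1 := S.lift_minus hm h ha h1 h2 1 (by omega)
  have e2 := S.lift_minus hm h ha h1 h2 (S.w j) le_rfl
  have e3 := S.lift_minus hm h ha h1 h2 (S.w j - 1) (by omega)
  rw [Nat.cast_zero, add_zero, add_zero] at e0
  rw [Nat.cast_one] at e1
  rw [c1, d1] at e2
  rw [c2, d2] at e3
  constructor
  · unfold CS1F
    rw [map_div₀, div_eq_div_iff hj hck, ← e0, ← e1, ← hac, map_sub]
    ring
  · unfold CS1G
    rw [map_div₀, div_eq_div_iff hj hck, ← e2, ← e3, ← hac, map_sub]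
    ring

private theorem CS1_one (hm : 2 ≤ m) {j : ZMod m} (h : S.w j = 1) :
    CS1F S j = 1 ∧ CS1G S j = 1 := by
  have hj := S.ch_ne hm j
  have h1 := S.step j
  rw [h, Nat.cast_one] at h1
  unfold CS1F CS1G
  rw [h1, add_sub_cancel_right]
  have e : P.vertex (S.κ j + 1) - P.vertex (S.κ j) = S.ch j := by
    unfold Arcs.ch Arcs.V
    rw [h1]
  rw [e]
  exact ⟨div_self hj, div_self hj⟩

/-! ### the choice of the arguments -/

open Classical in
/-- the argument (in units of `π`); if it is `π` then `1` if `p` and `-1` if not `p` -/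
private noncomputable def CS1v (z : ℂ) (p : Prop) : ℝ :=
  if arg z = Real.pi then (if p then 1 else -1) else arg z / Real.pi

private theorem CS1v_exp (z : ℂ) (p : Prop) :
    z = ((‖z‖ : ℝ) : ℂ) * exp (((Real.pi * CS1v z p : ℝ) : ℂ) * Complex.I) := by
  have hpi : Real.pi ≠ 0 := Real.pi_ne_zero
  have h0 := (Complex.norm_mul_exp_arg_mul_I z).symm
  unfold CS1v
  split_ifs with h hp
  · rw [h] at h0
    rw [mul_one]
    exact h0
  · rw [h, Complex.exp_pi_mul_I] at h0
    have h1 : (((Real.pi * -1 : ℝ)) : ℂ) * Complex.I = -((Real.pi : ℂ) * Complex.I) := by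
      push_cast
      ring
    rw [h1, Complex.exp_neg, Complex.exp_pi_mul_I]
    rw [inv_neg, inv_one]
    exact h0
  · have h3 : Real.pi * (arg z / Real.pi) = arg z := by
      field_simp
    rw [h3]
    exact h0

private theorem CS1v_conj (z : ℂ) (p q : Prop) (h : arg z = Real.pi → (q ↔ ¬ p)) :
    CS1v ((starRingEnd ℂ) z) q = -CS1v z p := by
  have hpi : Real.pi ≠ 0 := Real.pi_ne_zero
  unfold CS1v
  rw [Complex.arg_conj]
  by_cases h0 : arg z = Real.pi
  · rw [if_pos h0, if_pos rfl, if_pos h0]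
    have h1 := h h0
    by_cases hp : p
    · rw [if_pos hp, if_neg (fun hq => (h1.1 hq) hp)]
    · rw [if_neg hp, if_pos (h1.2 hp), neg_neg]
  · rw [if_neg h0, if_neg h0, if_neg]
    · ring
    · intro h1
      have h2 := Complex.neg_pi_lt_arg z
      linarith

private theorem CS1v_congr {z z' : ℂ} {p q : Prop} (hz : z = z') (h : arg z = Real.pi → (p ↔ q)) :
    CS1v z p = CS1v z' q := by
  subst hz
  unfold CS1v
  split_ifs with h0 hp hq hq
  · rfl
  · exact absurd ((h h0).1 hp) hq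
  · exact absurd ((h h0).2 hq) hp
  · rfl
  · rfl

/-- an arc whose first side goes backwards has two sides -/
private theorem CS1_two (hm : 2 ≤ m) {j : ZMod m}
    (h : arg (CS1F S j) = Real.pi ∨ arg (CS1G S j) = Real.pi) : 2 ≤ S.w j := by
  by_contra hw
  have h1 := S.w_pos j
  obtain ⟨hF, hG⟩ := CS1_one S hm (j := j) (by omega)
  rcases h with h | h
  · rw [hF, Complex.arg_one] at h
    exact Real.pi_ne_zero h.symm
  · rw [hG, Complex.arg_one] at h
    exact Real.pi_ne_zero h.symm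

private theorem CS1_ratio {z w : ℂ} {r θ : ℝ} (hr : 0 ≤ r) (hw : w ≠ 0)
    (h : z = w * (r : ℂ) * exp ((θ : ℂ) * Complex.I)) :
    z = w * ((‖z‖ / ‖w‖ : ℝ) : ℂ) * exp ((θ : ℂ) * Complex.I) := by
  have h1 : ‖z‖ = ‖w‖ * r := by
    rw [h, norm_mul, norm_mul, Complex.norm_exp_ofReal_mul_I, mul_one, Complex.norm_real,
      Real.norm_of_nonneg hr]
  have h2 : ‖w‖ ≠ 0 := norm_ne_zero_iff.2 hw
  have h3 : ‖z‖ / ‖w‖ = r := by
    rw [h1, mul_div_cancel_left₀ _ h2]
  rw [h3]
  exact h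

end chord

variable {n : ℕ} {P : Polygon n} {m : ℕ} [NeZero m]

theorem Arcs.chord_all (S : Arcs P m) (hm : 2 ≤ m) : ∃ σ ε : ZMod m → ℝ,
    (∀ j k, S.Plus j k → σ j = ε k ∧ ε j = σ k) ∧
    (∀ j k, S.Minus j k → σ j = -σ k ∧ ε j = -ε k) ∧
    S.ChordAng fun j => P.ang (S.κ j) / Real.pi + σ j - ε (j - 1) := by
  have key : ∀ j k, S.Plus j k → CS1v (CS1F S j) (P.ang (S.κ j + 1) < Real.pi) =
      CS1v (CS1G S k) (Real.pi < P.ang (S.κ k + ((S.w k - 1 : ℕ) : ZMod n))) := by
    intro j k h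
    refine CS1v_congr (CS1_plus S hm h) fun h0 => ?_
    have hw := CS1_two S hm (Or.inl h0)
    have h1 := h.2.2 1 (S.w j - 1) (by omega) (by omega) (by omega)
    rw [Nat.cast_one, h.1] at h1
    constructor
    · intro h2
      linarith
    · intro h2
      linarith
  refine ⟨fun j => CS1v (CS1F S j) (P.ang (S.κ j + 1) < Real.pi),
    fun j => CS1v (CS1G S j) (Real.pi < P.ang (S.κ j + ((S.w j - 1 : ℕ) : ZMod n))), ?_, ?_, ?_⟩
  · intro j k h
    have h' : S.Plus k j := Arcs.rel_symm S (b := true) h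
    exact ⟨key j k h, (key k j h').symm⟩
  · intro j k h
    obtain ⟨hF, hG⟩ := CS1_minus S hm h
    constructor
    · show CS1v (CS1F S j) _ = -CS1v (CS1F S k) _
      rw [hF]
      refine CS1v_conj _ _ _ fun h0 => ?_
      have hw := CS1_two S hm (Or.inl h0)
      rw [← h.1] at hw
      have h1 := h.2.2 1 (by omega) (by omega)
      rw [Nat.cast_one] at h1
      have h2 := P.ang_ne (S.κ k + 1)
      constructor
      · intro h3 h4
        linarith
      · intro h3
        have h4 : Real.pi < P.ang (S.κ k + 1) := lt_of_le_of_ne (not_lt.1 h3) (Ne.symm h2)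
        linarith
    · show CS1v (CS1G S j) _ = -CS1v (CS1G S k) _
      rw [hG]
      refine CS1v_conj _ _ _ fun h0 => ?_
      have hw := CS1_two S hm (Or.inr h0)
      rw [← h.1] at hw
      have h1 := h.2.2 (S.w j - 1) (by omega) (by omega)
      rw [← h.1]
      have h2 := P.ang_ne (S.κ k + ((S.w j - 1 : ℕ) : ZMod n))
      constructor
      · intro h3 h4
        linarith
      · intro h3
        have h4 : P.ang (S.κ k + ((S.w j - 1 : ℕ) : ZMod n)) < Real.pi :=
          lt_of_le_of_ne (not_lt.1 h3) h2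
        linarith
  · intro j
    have hj := S.ch_ne hm j
    have hj' := S.ch_ne hm (j - 1)
    have eF := CS1v_exp (CS1F S j) (P.ang (S.κ j + 1) < Real.pi)
    have eG := CS1v_exp (CS1G S (j - 1))
      (Real.pi < P.ang (S.κ (j - 1) + ((S.w (j - 1) - 1 : ℕ) : ZMod n)))
    have hst := P.side_turn (S.κ j)
    have hFne : CS1F S j ≠ 0 := by
      unfold CS1F
      refine div_ne_zero ?_ hj
      intro h0
      have h1 := P.len_pos (S.κ j)
      unfold Polygon.len at h1
      rw [dist_comm, dist_eq_norm, h0, norm_zero] at h1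
      exact lt_irrefl _ h1
    have hFn : ((‖CS1F S j‖ : ℝ) : ℂ) ≠ 0 := by
      exact_mod_cast norm_ne_zero_iff.2 hFne
    set σ := CS1v (CS1F S j) (P.ang (S.κ j + 1) < Real.pi) with hσ
    set ε := CS1v (CS1G S (j - 1))
      (Real.pi < P.ang (S.κ (j - 1) + ((S.w (j - 1) - 1 : ℕ) : ZMod n))) with hε
    set ρ : ℝ := P.len (S.κ j) / P.len (S.κ j - 1) with hρ
    have hρ0 : 0 ≤ ρ := div_nonneg (P.len_pos _).le (P.len_pos _).le
    -- the two sides at the corner `κ j`
    have e1 : P.vertex (S.κ j + 1) - P.vertex (S.κ j) = S.ch j * CS1F S j := by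
      unfold CS1F
      rw [mul_div_cancel₀ _ hj]
    have e2 : P.vertex (S.κ j) - P.vertex (S.κ j - 1) = S.ch (j - 1) * CS1G S (j - 1) := by
      unfold CS1G
      rw [mul_div_cancel₀ _ hj', sub_add_cancel]
    rw [e1, e2, eF, eG] at hst
    have hE : exp (((Real.pi * σ : ℝ) : ℂ) * Complex.I) ≠ 0 := Complex.exp_ne_zero _
    refine CS1_ratio (r := ‖CS1G S (j - 1)‖ * ρ / ‖CS1F S j‖)
      (div_nonneg (mul_nonneg (norm_nonneg _) hρ0) (norm_nonneg _)) hj' ?_
    have hexp : exp (((Real.pi * (1 - (P.ang (S.κ j) / Real.pi + σ - ε)) : ℝ) : ℂ) * Complex.I) *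
        exp (((Real.pi * σ : ℝ) : ℂ) * Complex.I) =
        exp (((Real.pi * ε : ℝ) : ℂ) * Complex.I) *
        exp ((((Real.pi - P.ang (S.κ j) : ℝ)) : ℂ) * Complex.I) := by
      rw [← Complex.exp_add, ← Complex.exp_add]
      congr 1
      have h1 : Real.pi * (1 - (P.ang (S.κ j) / Real.pi + σ - ε)) =
          Real.pi - P.ang (S.κ j) - Real.pi * σ + Real.pi * ε := by
        have hpi : Real.pi ≠ 0 := Real.pi_ne_zero
        field_simp
        ring
      rw [h1]
      push_cast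
      ring
    apply mul_right_cancel₀ (mul_ne_zero hFn hE)
    rw [hst]
    push_cast
    have h3 : S.ch (j - 1) * (((‖CS1G S (j - 1)‖ : ℝ) : ℂ) * (ρ : ℂ) / ((‖CS1F S j‖ : ℝ) : ℂ)) *
        exp (((Real.pi * (1 - (P.ang (S.κ j) / Real.pi + σ - ε)) : ℝ) : ℂ) * Complex.I) *
        (((‖CS1F S j‖ : ℝ) : ℂ) * exp (((Real.pi * σ : ℝ) : ℂ) * Complex.I)) =
        S.ch (j - 1) * ((‖CS1G S (j - 1)‖ : ℝ) : ℂ) * (ρ : ℂ) *
        (exp (((Real.pi * (1 - (P.ang (S.κ j) / Real.pi + σ - ε)) : ℝ) : ℂ) * Complex.I) *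
        exp (((Real.pi * σ : ℝ) : ℂ) * Complex.I)) := by
      field_simp
    push_cast at h3 hexp
    rw [h3, hexp]
    ring

end Pool.Agent.Lib_MP_fa6e45
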