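import Pool.Agent.Lib_MP_fa6e45.CU0
import Pool.Agent.Lib_MP_fa6e45.H3

/-!
PIECE CU3b (about 150 lines): `rf' t = xor (rf t) r`, `nx'` is `nx` conjugated by `(t, i) ↦ (t, sgC r s i)`:
`exS rf' (t, sgC r s i) = sgS r s (exS rf (t, i))`, the same for `enS`; `fwd rf' (t, sgC r s i)` is the image of
`fwd rf (t, i)`, the same for `bwd`. `siC r s`, `siS r s` are the inverses of `sgC r s`, `sgS r s`. Minimal periods are
invariant under conjugation. `avg`: compose the function with the bijection.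
-/

open Set MeasureTheory Complex
open scoped Topology

namespace Pool.Agent.Lib_MP_fa6e45

open Pool.Agent.Lib_PL (cr InSector Poly)

variable {m : ℕ} [NeZero m]

/-- renaming of the corners, from the new names to the old names -/
private def CU3b_c (r : Bool) (s : ZMod m) : ZMod m ≃ ZMod m where
  toFun := siC r s
  invFun := sgC r s
  left_inv := fun i => by cases r <;> simp [sgC, siC]
  right_inv := fun i => by cases r <;> simp [sgC, siC]

/-- the renaming -/
private def CU3b_e (ι : Type) (r : Bool) (s : ZMod m) : ι × ZMod m ≃ ι × ZMod m where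
  toFun := fun c => (c.1, siC r s c.2)
  invFun := fun c => (c.1, sgC r s c.2)
  left_inv := fun c => by
    obtain ⟨t, i⟩ := c
    cases r <;> simp [sgC, siC]
  right_inv := fun c => by
    obtain ⟨t, i⟩ := c
    cases r <;> simp [sgC, siC]

private def CU3b_rf {ι : Type} (rf : ι → Bool) (r : Bool) (t : ι) : Bool := xor (rf t) r

variable {a : ZMod m → ℝ} {G : ZMod m → ZMod m → Bool → Prop} {ι : Type}

private def CU3b_nx (K : CombU m a G ι) (r : Bool) (s : ZMod m) : Equiv.Perm (ι × ZMod m) :=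
  ((CU3b_e ι r s).trans K.nx).trans (CU3b_e ι r s).symm

private theorem CU3b_e_nx (K : CombU m a G ι) (r : Bool) (s : ZMod m) (c : ι × ZMod m) :
    CU3b_e ι r s (CU3b_nx K r s c) = K.nx (CU3b_e ι r s c) := by
  simp [CU3b_nx]

private theorem CU3b_iter (K : CombU m a G ι) (r : Bool) (s : ZMod m) (k : ℕ) (c : ι × ZMod m) :
    CU3b_e ι r s ((CU3b_nx K r s)^[k] c) = K.nx^[k] (CU3b_e ι r s c) := by
  induction k with
  | zero => rfl
  | succ k ih => rw [Function.iterate_succ_apply', Function.iterate_succ_apply', CU3b_e_nx, ih]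

private theorem CU3b_period (K : CombU m a G ι) (r : Bool) (s : ZMod m) (c : ι × ZMod m) :
    Function.minimalPeriod (CU3b_nx K r s) c = Function.minimalPeriod K.nx (CU3b_e ι r s c) := by
  rw [Function.minimalPeriod_eq_minimalPeriod_iff]
  intro n
  unfold Function.IsPeriodicPt Function.IsFixedPt
  rw [← CU3b_iter]
  exact (CU3b_e ι r s).injective.eq_iff.symm

private theorem CU3b_exS (rf : ι → Bool) (r : Bool) (s : ZMod m) (c : ι × ZMod m) :
    exS rf (CU3b_e ι r s c) = siS r s (exS (CU3b_rf rf r) c) := by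
  have h1 : (CU3b_e ι r s c) = (c.1, siC r s c.2) := rfl
  rw [h1]
  unfold exS CU3b_rf siS siC
  cases rf c.1 <;> cases r <;> simp <;> ring

private theorem CU3b_enS (rf : ι → Bool) (r : Bool) (s : ZMod m) (c : ι × ZMod m) :
    enS rf (CU3b_e ι r s c) = siS r s (enS (CU3b_rf rf r) c) := by
  have h1 : (CU3b_e ι r s c) = (c.1, siC r s c.2) := rfl
  rw [h1]
  unfold enS CU3b_rf siS siC
  cases rf c.1 <;> cases r <;> simp <;> ring

private theorem CU3b_fwd (rf : ι → Bool) (r : Bool) (s : ZMod m) (c : ι × ZMod m) :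
    CU3b_e ι r s (fwd (CU3b_rf rf r) c) = fwd rf (CU3b_e ι r s c) := by
  have h1 : (CU3b_e ι r s c) = (c.1, siC r s c.2) := rfl
  have h2 : CU3b_e ι r s (fwd (CU3b_rf rf r) c) = (c.1, siC r s (fwd (CU3b_rf rf r) c).2) := rfl
  rw [h1, h2]
  unfold fwd CU3b_rf siC
  refine Prod.ext rfl ?_
  cases h : rf c.1 <;> cases r <;> simp <;> ring

private theorem CU3b_bwd (rf : ι → Bool) (r : Bool) (s : ZMod m) (c : ι × ZMod m) :
    CU3b_e ι r s (bwd (CU3b_rf rf r) c) = bwd rf (CU3b_e ι r s c) := by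
  have h1 : (CU3b_e ι r s c) = (c.1, siC r s c.2) := rfl
  have h2 : CU3b_e ι r s (bwd (CU3b_rf rf r) c) = (c.1, siC r s (bwd (CU3b_rf rf r) c).2) := rfl
  rw [h1, h2]
  unfold bwd CU3b_rf siC
  refine Prod.ext rfl ?_
  cases h : rf c.1 <;> cases r <;> simp <;> ring

theorem CombU.dih {a : ZMod m → ℝ} {G : ZMod m → ZMod m → Bool → Prop} {ι : Type}
    (K : CombU m a G ι) (r : Bool) (s : ZMod m) :
    Nonempty (CombU m (fun j => a (siC r s j)) (fun j k c => G (siS r s j) (siS r s k) c) ι) := by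
  refine ⟨{
    three_le := K.three_le
    a_pos := fun i => K.a_pos _
    a_lt := fun i => K.a_lt _
    a_ne := fun i => K.a_ne _
    a_sum := ?_
    rf := CU3b_rf K.rf r
    nx := CU3b_nx K r s
    deg2 := fun c => ?_
    sum := fun c => ?_
    glue := fun c => ?_
    flip := fun c => ?_
    avg := ?_ }⟩
  · rw [← K.a_sum]
    exact Equiv.sum_comp (CU3b_c r s) a
  · rw [CU3b_period]
    exact K.deg2 _
  · rw [CU3b_period, ← K.sum (CU3b_e ι r s c)]
    refine Finset.sum_congr rfl fun k _ => ?_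
    rw [← CU3b_iter]
    rfl
  · have h := K.glue (CU3b_e ι r s c)
    rw [← CU3b_e_nx, CU3b_exS, CU3b_enS] at h
    have e3 : (CU3b_rf K.rf r c.1 == CU3b_rf K.rf r (CU3b_nx K r s c).1) =
        (K.rf (CU3b_e ι r s c).1 == K.rf (CU3b_e ι r s (CU3b_nx K r s c)).1) := by
      change (xor (K.rf c.1) r == xor (K.rf (CU3b_nx K r s c).1) r) =
        (K.rf c.1 == K.rf (CU3b_nx K r s c).1)
      cases K.rf c.1 <;> cases K.rf (CU3b_nx K r s c).1 <;> cases r <;> rfl
    rw [e3]
    exact h
  · apply (CU3b_e ι r s).injective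
    rw [CU3b_e_nx, CU3b_fwd, CU3b_bwd, CU3b_e_nx]
    exact K.flip _
  · intro f hf hs δ hδ ht
    have hsymm : ∀ c, CU3b_e ι r s ((CU3b_e ι r s).symm c) = c :=
      fun c => (CU3b_e ι r s).apply_symm_apply c
    refine K.avg (fun c => f ((CU3b_e ι r s).symm c)) ?_ ?_ δ hδ ?_
    · obtain ⟨B, hB⟩ := hf
      exact ⟨B, fun c => hB _⟩
    · intro c
      have h := hs ((CU3b_e ι r s).symm c)
      rw [CU3b_period, hsymm] at h
      refine le_trans (le_of_eq ?_) h
      refine Finset.sum_congr rfl fun k _ => ?_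
      have h2 := CU3b_iter K r s k ((CU3b_e ι r s).symm c)
      rw [hsymm] at h2
      rw [← h2, Equiv.symm_apply_apply]
    · intro t
      refine (ht t).trans (le_of_eq ?_)
      exact (Equiv.sum_comp (CU3b_c r s).symm fun i => f (t, i)).symm

end Pool.Agent.Lib_MP_fa6e45
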