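import Pool.Agent.Lib_MP_fa6e45.HF0
import Pool.Agent.Lib_MP_fa6e45.H7
import Pool.Agent.Lib_MP_fa6e45.H4a

/-!
MP_fa6e45_co, stage 4: soundness of the fast checker.
-/

open scoped Topology

namespace Pool.Agent.Lib_MP_fa6e45

/-! ### the recursors -/

theorem nthF_eq {α : Type} (d : α) (l : List α) (i : ℕ) : nthF d l i = l.getD i d := by
  induction l generalizing i with
  | nil => rfl
  | cons x l ih =>
    cases i with
    | zero => rfl
    | succ i =>
      change nthF d l i = _
      rw [ih]
      rfl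

theorem allF_eq {α : Type} (g : α → Bool) (l : List α) : allF g l = l.all g := by
  induction l with
  | nil => rfl
  | cons x l ih =>
    change (bif g x then allF g l else false) = _
    rw [ih, List.all_cons]
    cases g x <;> rfl

theorem anyF_eq {α : Type} (g : α → Bool) (l : List α) : anyF g l = l.any g := by
  induction l with
  | nil => rfl
  | cons x l ih =>
    change (bif g x then true else anyF g l) = _
    rw [ih, List.any_cons]
    cases g x <;> rfl

private theorem HF1_bif (a b : Bool) : (bif a then b else false) = (a && b) := by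
  cases a <;> rfl

private theorem HF1_bifo (a b : Bool) : (bif a then true else b) = (a || b) := by
  cases a <;> rfl

private theorem HF1_srt {l : List (ℕ × ℕ)} {b : ℕ} (h : srtF l b = true) :
    ∀ x ∈ l, b ≤ x.2 := by
  induction l generalizing b with
  | nil =>
    intro x hx
    exact absurd hx List.not_mem_nil
  | cons y l ih =>
    have h1 : (bif Nat.ble b y.2 then srtF l y.2 else false) = true := h
    rw [HF1_bif, Bool.and_eq_true] at h1
    have h2 : b ≤ y.2 := Nat.le_of_ble_eq_true h1.1
    intro x hx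
    rcases List.mem_cons.1 hx with rfl | hx
    · exact h2
    · exact h2.trans (ih h1.2 x hx)

private theorem HF1_row {LL s : ℕ} {g : ℕ → ℕ → Bool} {l : List (ℕ × ℕ)} {b : ℕ}
    (hs : srtF l b = true) (h : rowF LL s g l = true) {x : ℕ × ℕ} (hx : x ∈ l)
    (hlt : s + x.2 < LL) : g x.1 (s + x.2) = true := by
  induction l generalizing b with
  | nil => exact absurd hx List.not_mem_nil
  | cons y l ih =>
    have h1 : (bif Nat.ble b y.2 then srtF l y.2 else false) = true := hs
    rw [HF1_bif, Bool.and_eq_true] at h1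
    have h2 : (bif Nat.ble LL (Nat.add s y.2) then true else
      bif g y.1 (Nat.add s y.2) then rowF LL s g l else false) = true := h
    rw [HF1_bif, HF1_bifo, Bool.or_eq_true, Bool.and_eq_true] at h2
    rcases h2 with h2 | ⟨h2, h3⟩
    · have h4 : LL ≤ s + y.2 := Nat.le_of_ble_eq_true h2
      exfalso
      rcases List.mem_cons.1 hx with rfl | hx
      · omega
      · have := HF1_srt h1.2 x hx
        omega
    · rcases List.mem_cons.1 hx with rfl | hx
      · exact h2
      · exact ih h1.2 h3 hx

/-! ### the search -/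

private theorem HF1_beq {a b : ℕ} (h : a = b) : Nat.beq a b = true := by
  rw [h]
  exact Nat.beq_refl b

private theorem HF1_dfs {rows : List (List (ℕ × ℕ))} (hr : ∀ r ∈ rows, srtF r 0 = true) {LL : ℕ}
    {acc : ℕ → ℕ → ℕ → Bool} {c0 : ℕ} (l : List ℕ) (fuel cur s cnt len t : ℕ)
    (h : dfsF rows LL acc c0 fuel cur s cnt len = true) (hp : TPath rows cur l c0 t)
    (hl : ∀ x ∈ l, c0 ≤ x) (ht : s + t < LL) :
    acc (cnt + (l.map fun x => 16 ^ (x / 2)).sum) (len + l.length) (s + t) = true ∧
      l.length + 1 ≤ fuel := by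
  have hrow : ∀ i, srtF (rows.getD i []) 0 = true := by
    intro i
    rw [List.getD_eq_getElem?_getD]
    rcases Nat.lt_or_ge i rows.length with hi | hi
    · rw [List.getElem?_eq_getElem hi]
      exact hr _ (List.getElem_mem hi)
    · rw [List.getElem?_eq_none hi]
      rfl
  induction l generalizing fuel cur s cnt len t with
  | nil =>
    cases fuel with
    | zero => exact absurd h (by simp [dfsF])
    | succ fuel =>
      change rowF LL s (fun y t =>
        bif (bif Nat.beq y c0 then acc cnt len t else true) then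
          (bif Nat.ble c0 y then dfsF rows LL acc c0 fuel y t
            (Nat.add cnt (Nat.pow 16 (Nat.div y 2))) (Nat.succ len) else true) else false)
        (nthF [] rows cur) = true at h
      rw [nthF_eq] at h
      have hp' : (c0, t) ∈ rows.getD cur [] := hp
      have h1 := HF1_row (hrow cur) h hp' ht
      simp only [HF1_bif, Bool.and_eq_true] at h1
      rw [HF1_beq rfl] at h1
      refine ⟨?_, by simp⟩
      simpa using h1.1
  | cons y l ih =>
    cases fuel with
    | zero => exact absurd h (by simp [dfsF])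
    | succ fuel =>
      change rowF LL s (fun y t =>
        bif (bif Nat.beq y c0 then acc cnt len t else true) then
          (bif Nat.ble c0 y then dfsF rows LL acc c0 fuel y t
            (Nat.add cnt (Nat.pow 16 (Nat.div y 2))) (Nat.succ len) else true) else false)
        (nthF [] rows cur) = true at h
      rw [nthF_eq] at h
      obtain ⟨t1, t2, h4, h5, rfl⟩ := hp
      have h1 := HF1_row (hrow cur) h h4 (by simp only; omega)
      simp only [HF1_bif, Bool.and_eq_true] at h1
      have h6 : Nat.ble c0 y = true := Nat.ble_eq_true_of_le (hl y List.mem_cons_self)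
      rw [h6] at h1
      have h7 := ih fuel y (s + t1) (cnt + 16 ^ (y / 2)) (len + 1) t2 h1.2 h5
        (fun x hx => hl x (List.mem_cons_of_mem y hx)) (by omega)
      refine ⟨?_, ?_⟩
      · rw [List.map_cons, List.sum_cons, List.length_cons]
        have e1 : cnt + (16 ^ (y / 2) + (l.map fun x => 16 ^ (x / 2)).sum) =
            cnt + 16 ^ (y / 2) + (l.map fun x => 16 ^ (x / 2)).sum := by ring
        have e2 : len + (l.length + 1) = len + 1 + l.length := by ring
        have e3 : s + (t1 + t2) = s + t1 + t2 := by ring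
        rw [e1, e2, e3]
        exact h7.1
      · rw [List.length_cons]
        omega

/-! ### counting -/

private theorem HF1_enc (cv : List ℕ) : encF cv = Nat.ofDigits 16 cv := by
  induction cv with
  | nil => rfl
  | cons x cv ih =>
    rw [Nat.ofDigits_cons, ← ih]
    change Nat.add x (Nat.mul 16 (encF cv)) = _
    simp

private theorem HF1_digits (f : ℕ → ℕ) (m : ℕ) :
    Nat.ofDigits 16 ((List.range m).map f) = ∑ i ∈ Finset.range m, f i * 16 ^ i := by
  induction m with
  | zero => rfl
  | succ m ih =>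
    rw [List.range_succ, List.map_append, Nat.ofDigits_append, ih, Finset.sum_range_succ]
    simp [mul_comm]

private theorem HF1_cnt (m : ℕ) (p : List ℕ) (hp : ∀ x ∈ p, x / 2 < m) :
    encF (cntv m p) = (p.map fun x => 16 ^ (x / 2)).sum := by
  rw [HF1_enc]
  unfold cntv
  rw [HF1_digits]
  induction p with
  | nil => simp
  | cons x p ih =>
    rw [List.map_cons, List.sum_cons, ← ih fun y hy => hp y (List.mem_cons_of_mem x hy)]
    have h1 : ∀ i, (x :: p).countP (fun x => x / 2 == i) * 16 ^ i =
        (if i = x / 2 then 16 ^ i else 0) + p.countP (fun x => x / 2 == i) * 16 ^ i := by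
      intro i
      rw [List.countP_cons]
      by_cases h : i = x / 2
      · rw [if_pos h, if_pos (by rw [h]; exact beq_self_eq_true _)]
        ring
      · rw [if_neg h, if_neg]
        · ring
        · rw [beq_iff_eq]
          exact fun h2 => h h2.symm
    simp only [h1]
    rw [Finset.sum_add_distrib, Finset.sum_ite_eq', if_pos]
    rw [Finset.mem_range]
    exact hp x List.mem_cons_self

private theorem HF1_inj {m : ℕ} {cv : List ℕ} (hl : cv.length = m) (hd : ∀ x ∈ cv, x ≤ 15)
    {p : List ℕ} (hp : ∀ x ∈ p, x / 2 < m) (hlen : p.length ≤ 15)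
    (h : (p.map fun x => 16 ^ (x / 2)).sum = encF cv) : cntv m p = cv := by
  rw [← HF1_cnt m p hp, HF1_enc, HF1_enc] at h
  refine Nat.ofDigits_inj_of_len_eq (by norm_num : 1 < 16) ?_ ?_ ?_ h
  · unfold cntv
    rw [List.length_map, List.length_range, hl]
  · intro x hx
    unfold cntv at hx
    obtain ⟨i, -, rfl⟩ := List.mem_map.1 hx
    have := List.countP_le_length (p := fun x => x / 2 == i) (l := p)
    omega
  · intro x hx
    have := hd x hx
    omega

/-! ### one step -/

section step

variable {m : ℕ} [NeZero m] {c : List ℕ}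

omit [NeZero m] in
private theorem HF1_nth (c : List ℕ) (i : ZMod m) : nthF 0 c i.val = pcls c i := by
  rw [nthF_eq]
  rfl

omit [NeZero m] in
private theorem HF1_code_div (x : ZMod m × Bool) : code x / 2 = x.1.val := by
  unfold code
  have h2 : x.2.toNat ≤ 1 := Bool.toNat_le x.2
  omega

private theorem HF1_code_lt (x : ZMod m × Bool) : code x < 2 * m := by
  unfold code
  have h1 := ZMod.val_lt x.1
  have h2 : x.2.toNat ≤ 1 := Bool.toNat_le x.2
  omega

private theorem HF1_pred (i : ZMod m) : (i.val + (m - 1)) % m = (i - 1).val := by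
  have hm : 0 < m := Nat.pos_of_ne_zero (NeZero.ne m)
  have h1 : ((i.val + (m - 1) : ℕ) : ZMod m) = i - 1 := by
    rw [Nat.cast_add, ZMod.natCast_zmod_val, Nat.cast_sub (by omega), ZMod.natCast_self]
    ring
  rw [← h1, ZMod.val_natCast]

private theorem HF1_ex (x : ZMod m × Bool) : exF m (code x) = code (exW x) := by
  obtain ⟨i, f⟩ := x
  unfold exF exW
  have hd := HF1_code_div (i, f)
  cases f
  · have h1 : code ((i, false) : ZMod m × Bool) = 2 * i.val := rfl
    have h2 : Nat.beq (Nat.mod (code ((i, false) : ZMod m × Bool)) 2) 0 = true := by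
      rw [h1]
      apply HF1_beq
      exact Nat.mul_mod_right 2 _
    rw [h2, cond_true]
    change 2 * ((code ((i, false) : ZMod m × Bool) / 2 + (m - 1)) % m) = _
    rw [hd, HF1_pred]
    rfl
  · have h1 : code ((i, true) : ZMod m × Bool) = 2 * i.val + 1 := rfl
    have h2 : Nat.beq (Nat.mod (code ((i, true) : ZMod m × Bool)) 2) 0 = false := by
      rw [h1]
      have : Nat.mod (2 * i.val + 1) 2 = 1 := by
        change (2 * i.val + 1) % 2 = 1
        omega
      rw [this]
      rfl
    rw [h2, cond_false]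
    rfl

private theorem HF1_en (x : ZMod m × Bool) : enF m (code x) = code (enW x) := by
  obtain ⟨i, f⟩ := x
  unfold enF enW
  have hd := HF1_code_div (i, f)
  cases f
  · have h1 : code ((i, false) : ZMod m × Bool) = 2 * i.val := rfl
    have h2 : Nat.beq (Nat.mod (code ((i, false) : ZMod m × Bool)) 2) 0 = true := by
      rw [h1]
      apply HF1_beq
      exact Nat.mul_mod_right 2 _
    rw [h2, cond_true]
    rfl
  · have h1 : code ((i, true) : ZMod m × Bool) = 2 * i.val + 1 := rfl
    have h2 : Nat.beq (Nat.mod (code ((i, true) : ZMod m × Bool)) 2) 0 = false := by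
      rw [h1]
      have : Nat.mod (2 * i.val + 1) 2 = 1 := by
        change (2 * i.val + 1) % 2 = 1
        omega
      rw [this]
      rfl
    rw [h2, cond_false]
    change Nat.succ (2 * ((code ((i, true) : ZMod m × Bool) / 2 + (m - 1)) % m)) = _
    rw [hd, HF1_pred]
    rfl

/-- weights -/
private def fv (v : List ℕ) (V0 : ℕ) (i : ZMod m) : ℤ := (v.getD i.val 0 : ℤ) - V0

/-- potential -/
private def fφ (φ : List ℕ) (x : ZMod m × Bool) : ℤ := (φ.getD (code x) 0 : ℤ)

/-- crossings -/
private def fA (Am : List (List ℕ)) (x y : ZMod m × Bool) : ℤ :=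
  ((Am.getD (code x) []).getD (code y) 0 : ℤ) - ((Am.getD (code y) []).getD (code x) 0 : ℤ)

/-- cost -/
private def fc (v φ : List ℕ) (V0 : ℕ) (Am : List (List ℕ)) (x y : ZMod m × Bool) : ℤ :=
  stepCost (fv v V0) (fA Am) x y + fφ φ x - fφ φ y

private theorem HF1_step {v φ : List ℕ} {V0 : ℕ} {Am : List (List ℕ)} {LL : ℕ}
    {rows : List (List (ℕ × ℕ))}
    (hs : ∀ x y : ZMod m × Bool, stepF m c v φ V0 Am LL rows (code x) (code y) = true)
    {x y : ZMod m × Bool} (hG : StepG (GC (pcls c)) x y) :
    0 ≤ fc v φ V0 Am x y ∧ (fc v φ V0 Am x y < LL →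
      ∃ t : ℕ, (code y, t) ∈ rows.getD (code x) [] ∧ (t : ℤ) ≤ fc v φ V0 Am x y) := by
  have h1 := hs x y
  unfold stepF at h1
  have h2 : Nat.beq (nthF 0 c (Nat.div (exF m (code x)) 2)) (nthF 0 c (Nat.div (enF m (code y)) 2)) =
      true := by
    apply HF1_beq
    rw [HF1_ex, HF1_en]
    change nthF 0 c (code (exW x) / 2) = nthF 0 c (code (enW y) / 2)
    rw [HF1_code_div, HF1_code_div, HF1_nth, HF1_nth]
    exact hG
  rw [h2, cond_true] at h1
  simp only [HF1_bif, HF1_bifo, Bool.and_eq_true, Bool.or_eq_true, anyF_eq, nthF_eq,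
    List.any_eq_true, HF1_ex, HF1_en] at h1
  obtain ⟨h3, h4⟩ := h1
  have h3' := Nat.le_of_ble_eq_true h3
  have hd : Nat.div (code x) 2 = x.1.val := HF1_code_div x
  rw [hd] at h3' h4
  have hc : fc v φ V0 Am x y =
      ((v.getD x.1.val 0 + φ.getD (code x) 0 +
        (Am.getD (code (exW x)) []).getD (code (enW y)) 0 : ℕ) : ℤ) -
      ((φ.getD (code y) 0 + (Am.getD (code (enW y)) []).getD (code (exW x)) 0 + V0 : ℕ) : ℤ) := by
    unfold fc stepCost fv fA fφ
    push_cast
    ring
  have h5 : φ.getD (code y) 0 + (Am.getD (code (enW y)) []).getD (code (exW x)) 0 + V0 ≤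
      v.getD x.1.val 0 + φ.getD (code x) 0 +
        (Am.getD (code (exW x)) []).getD (code (enW y)) 0 := h3'
  refine ⟨by rw [hc]; omega, fun h6 => ?_⟩
  rcases h4 with h4 | ⟨e, he, h7, h8⟩
  · have h4' := Nat.le_of_ble_eq_true h4
    have h9 : LL + (φ.getD (code y) 0 + (Am.getD (code (enW y)) []).getD (code (exW x)) 0 + V0) ≤
      v.getD x.1.val 0 + φ.getD (code x) 0 +
        (Am.getD (code (exW x)) []).getD (code (enW y)) 0 := h4'
    rw [hc] at h6
    omega
  · have h8' := Nat.le_of_ble_eq_true h8
    have h9 : e.2 + (φ.getD (code y) 0 + (Am.getD (code (enW y)) []).getD (code (exW x)) 0 + V0) ≤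
      v.getD x.1.val 0 + φ.getD (code x) 0 +
        (Am.getD (code (exW x)) []).getD (code (enW y)) 0 := h8'
    refine ⟨e.2, ?_, by rw [hc]; omega⟩
    rw [← Nat.eq_of_beq_eq_true h7]
    exact he

omit [NeZero m] in
private theorem HF1_tele (v φ : List ℕ) (V0 : ℕ) (Am : List (List ℕ))
    (l : List (ZMod m × Bool)) (x y : ZMod m × Bool) :
    pcost (fc v φ V0 Am) x l y =
      pcost (stepCost (fv v V0) (fA Am)) x l y + fφ φ x - fφ φ y := by
  induction l generalizing x with
  | nil => rfl
  | cons z l ih =>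
    change fc v φ V0 Am x z + pcost (fc v φ V0 Am) z l y =
      stepCost (fv v V0) (fA Am) x z + pcost (stepCost (fv v V0) (fA Am)) z l y + fφ φ x - fφ φ y
    rw [ih z, fc]
    ring

private theorem HF1_nonneg {v φ : List ℕ} {V0 : ℕ} {Am : List (List ℕ)} {LL : ℕ}
    {rows : List (List (ℕ × ℕ))}
    (hs : ∀ x y : ZMod m × Bool, stepF m c v φ V0 Am LL rows (code x) (code y) = true)
    (l : List (ZMod m × Bool)) (x y : ZMod m × Bool) (hP : Pth (StepG (GC (pcls c))) x l y) :
    0 ≤ pcost (fc v φ V0 Am) x l y := by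
  induction l generalizing x with
  | nil => exact (HF1_step hs hP).1
  | cons z l ih =>
    have h1 := (HF1_step hs hP.1).1
    have h2 := ih z hP.2
    change 0 ≤ fc v φ V0 Am x z + pcost (fc v φ V0 Am) z l y
    linarith

private theorem HF1_tpath {v φ : List ℕ} {V0 : ℕ} {Am : List (List ℕ)} {LL : ℕ}
    {rows : List (List (ℕ × ℕ))}
    (hs : ∀ x y : ZMod m × Bool, stepF m c v φ V0 Am LL rows (code x) (code y) = true)
    (l : List (ZMod m × Bool)) (x y : ZMod m × Bool) (hP : Pth (StepG (GC (pcls c))) x l y)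
    (hL : pcost (fc v φ V0 Am) x l y < LL) :
    ∃ t : ℕ, TPath rows (code x) (l.map code) (code y) t ∧ (t : ℤ) ≤ pcost (fc v φ V0 Am) x l y := by
  induction l generalizing x with
  | nil =>
    obtain ⟨t, h1, h2⟩ := (HF1_step hs hP).2 hL
    exact ⟨t, h1, h2⟩
  | cons z l ih =>
    have h1 := HF1_step hs hP.1
    have h2 := HF1_nonneg hs l z y hP.2
    have h3 : fc v φ V0 Am x z + pcost (fc v φ V0 Am) z l y < LL := hL
    obtain ⟨t1, h4, h5⟩ := h1.2 (by linarith)
    obtain ⟨t2, h6, h7⟩ := ih z hP.2 (by linarith [h1.1])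
    refine ⟨t1 + t2, ⟨t1, t2, h4, h6, rfl⟩, ?_⟩
    change ((t1 + t2 : ℕ) : ℤ) ≤ fc v φ V0 Am x z + pcost (fc v φ V0 Am) z l y
    push_cast
    linarith

private theorem HF1_holds (p : List (ZMod m × Bool)) (f : ZMod m → ℝ)
    (h : (p.map fun x => f x.1).sum = 2) :
    Eqn.Holds ((cntv m (p.map code)).map fun x => (x : ℤ), 2) f := by
  have key : ∑ i : ZMod m, (((p.map code).countP fun x => x / 2 == i.val : ℕ) : ℝ) * f i =
      (p.map fun x => f x.1).sum := by
    clear h
    induction p with
    | nil => simp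
    | cons x p ih =>
      rw [List.map_cons, List.map_cons, List.sum_cons, ← ih]
      have h1 : ∀ i : ZMod m, (((code x :: p.map code).countP fun x => x / 2 == i.val : ℕ) : ℝ) * f i =
          (if i = x.1 then f i else 0) +
            (((p.map code).countP fun x => x / 2 == i.val : ℕ) : ℝ) * f i := by
        intro i
        rw [List.countP_cons, HF1_code_div]
        by_cases h : i = x.1
        · rw [if_pos h, if_pos (by rw [h]; exact beq_self_eq_true _)]
          push_cast
          ring
        · rw [if_neg h, if_neg]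
          · simp
          · rw [beq_iff_eq]
            intro h2
            exact h (ZMod.val_injective m h2).symm
      rw [Finset.sum_congr rfl fun i _ => h1 i, Finset.sum_add_distrib]
      rw [Finset.sum_ite_eq' Finset.univ x.1 f, if_pos (Finset.mem_univ _)]
  unfold Eqn.Holds
  have h1 : ∀ i : ZMod m,
      (((((cntv m (p.map code)).map fun x => (x : ℤ)).getD i.val 0 : ℤ) : ℝ) * f i) =
        (((p.map code).countP fun x => x / 2 == i.val : ℕ) : ℝ) * f i := by
    intro i
    congr 1
    have h2 : i.val < m := ZMod.val_lt i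
    have h3 : ((cntv m (p.map code)).map fun x => (x : ℤ)).getD i.val 0 =
        (((p.map code).countP fun x => x / 2 == i.val : ℕ) : ℤ) := by
      have h5 : ((cntv m (p.map code)).map fun x => (x : ℤ)) =
          List.map (fun x : ℕ => (x : ℤ)) (cntv m (p.map code)) := by
        rw [List.map_eq_flatMap (f := fun x : ℕ => (x : ℤ))]
        exact List.map_id _
      rw [h5]
      unfold cntv
      rw [List.getD_eq_getElem?_getD, List.map_map, List.getElem?_map,
        List.getElem?_range h2]
      rfl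
    rw [h3]
    push_cast
    rfl
  rw [Finset.sum_congr rfl fun i _ => h1 i, key, h]
  push_cast
  rfl

end step

/-! ### the node -/

variable {m : ℕ} [NeZero m] {c : List ℕ} {act : List (ℕ × ℕ)} {P : Polygon m}

omit [NeZero m] in
private theorem HF1_actF {i j : ℕ} (h : actB act i j = true) : 16 ^ i + 16 ^ j ∈ actF act := by
  unfold actB at h
  rw [Bool.or_eq_true, List.contains_iff_mem, List.contains_iff_mem] at h
  unfold actF
  rw [List.mem_map]
  rcases h with h | h
  · exact ⟨_, h, rfl⟩
  · refine ⟨_, h, ?_⟩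
    change 16 ^ j + 16 ^ i = _
    ring

private theorem HF1_sum (f : ℕ → ℕ) :
    ∑ i : ZMod m, f i.val = ∑ i ∈ Finset.range m, f i := by
  obtain ⟨k, rfl⟩ := Nat.exists_eq_succ_of_ne_zero (NeZero.ne m)
  exact Fin.sum_univ_eq_sum_range f (k + 1)

private theorem HF1_sumv {v : List ℕ} (hv : v.length = m) (V0 : ℕ) :
    ∑ i : ZMod m, fv v V0 i = (v.sum : ℤ) - m * V0 := by
  unfold fv
  rw [Finset.sum_sub_distrib, Finset.sum_const, Finset.card_univ, ZMod.card, nsmul_eq_mul]
  congr 1
  have h1 := HF1_sum (m := m) fun i => v.getD i 0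
  have h2 : ∑ i ∈ Finset.range m, v.getD i 0 = v.sum := by
    subst hv
    rw [Finset.sum_range, ← List.sum_ofFn]
    congr 1
    refine List.ext_getElem (by simp) fun i h1 h2 => ?_
    rw [List.getElem_ofFn, List.getD_eq_getElem _ _ h2]
  rw [← h2, ← h1]
  push_cast
  rfl

theorem lpF_sound (M : Sit (pcls c) act P) (hlt : ∀ p ∈ act, p.1 < m ∧ p.2 < m) {t0 : ℕ}
    {v φ : List ℕ} {V0 : ℕ} {Am : List (List ℕ)} {L fuel : ℕ} {rows : List (List (ℕ × ℕ))}
    {cvs : List (List ℕ)}
    (h : lpF m c (actF act) t0 v φ V0 Am L fuel rows cvs = true) :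
    ∃ cv ∈ cvs, Eqn.Holds (cv.map fun x => (x : ℤ), 2) fun j => P.ang j / Real.pi := by
  unfold lpF at h
  simp only [Bool.and_eq_true, HF1_bif, allF_eq, List.all_eq_true, anyF_eq] at h
  obtain ⟨⟨⟨⟨⟨⟨hbud, hfuel⟩, hvl⟩, hsrt⟩, hcv⟩, hstep⟩, hdfs⟩ := h
  have hfuel' : fuel ≤ 15 := Nat.le_of_ble_eq_true hfuel
  have hvl' : v.length = m := Nat.eq_of_beq_eq_true hvl
  set LL : ℕ := bif Nat.beq t0 0 then L else Nat.succ L with hLL
  have hs : ∀ x y : ZMod m × Bool, stepF m c v φ V0 Am LL rows (code x) (code y) = true :=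
    fun x y => hstep _ (List.mem_range.2 (HF1_code_lt x)) _ (List.mem_range.2 (HF1_code_lt y))
  have hA : ∀ x y : ZMod m × Bool, fA Am y x = -fA Am x y := by
    intro x y
    unfold fA
    ring
  have hsumv := HF1_sumv hvl' V0
  generalize v.sum = SV at hbud hsumv
  have hm2 : 2 ≤ m := by
    have := P.three_le
    omega
  -- the star
  have hstar : ∃ (x : ZMod m × Bool) (l : List (ZMod m × Bool)),
      StarS (fun i j => actB act i.val j.val = true) (fun j => P.ang j / Real.pi) (pcls c) x l ∧
      (pcost (stepCost (fv v V0) (fA Am)) x l x < L ∨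
        (t0 ≠ 0 ∧ (∃ i j : ℕ, i < m ∧ j < m ∧ 16 ^ i + 16 ^ j = t0 ∧
          TTwo (i : ZMod m) (j : ZMod m) x l) ∧
          pcost (stepCost (fv v V0) (fA Am)) x l x ≤ L)) := by
    by_cases ht0 : t0 = 0
    · rw [HF1_beq ht0, cond_true] at hbud
      have h1 : 2 * SV < (m - 2) * L + 2 * m * V0 := Nat.le_of_ble_eq_true hbud
      obtain ⟨x, l, h2, h3⟩ := M.lp1 (fv v V0) (fA Am) hA (L : ℤ) (by
        rw [hsumv]
        have h4 : (2 * SV : ℤ) < ((m - 2 : ℕ) : ℤ) * L + 2 * m * V0 := by exact_mod_cast h1
        rw [Nat.cast_sub hm2] at h4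
        push_cast at h4
        linarith)
      exact ⟨x, l, h2, Or.inl h3⟩
    · have h0 : Nat.beq t0 0 = false := by
        cases hh : Nat.beq t0 0
        · rfl
        · exact absurd (Nat.eq_of_beq_eq_true hh) ht0
      rw [h0, cond_false, Bool.and_eq_true, List.any_eq_true] at hbud
      obtain ⟨⟨z, hz, hz2⟩, hb⟩ := hbud
      have h1 : 2 * SV ≤ (m - 2) * L + 2 * m * V0 := Nat.le_of_ble_eq_true hb
      have hz3 : t0 = z := Nat.eq_of_beq_eq_true hz2
      unfold actF at hz
      obtain ⟨p, hp, hpz⟩ := List.mem_map.1 hz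
      have hpz' : 16 ^ p.1 + 16 ^ p.2 = z := hpz
      have vi : ((p.1 : ℕ) : ZMod m).val = p.1 := ZMod.val_natCast_of_lt (hlt p hp).1
      have vj : ((p.2 : ℕ) : ZMod m).val = p.2 := ZMod.val_natCast_of_lt (hlt p hp).2
      obtain ⟨x, l, h2, h3⟩ := M.lp2 (p.1 : ZMod m) (p.2 : ZMod m) (by
        rw [vi, vj]
        unfold actB
        rw [Bool.or_eq_true]
        left
        rw [List.contains_iff_mem]
        exact hp) (fv v V0) (fA Am) hA (L : ℤ) (by
        rw [hsumv]
        have h4 : (2 * SV : ℤ) ≤ ((m - 2 : ℕ) : ℤ) * L + 2 * m * V0 := by exact_mod_cast h1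
        rw [Nat.cast_sub hm2] at h4
        push_cast at h4
        linarith)
      refine ⟨x, l, h2, ?_⟩
      rcases h3 with h3 | ⟨h3, h4⟩
      · exact Or.inl h3
      · exact Or.inr ⟨ht0, ⟨p.1, p.2, (hlt p hp).1, (hlt p hp).2, hpz'.trans hz3.symm, h3⟩, h4⟩
  obtain ⟨x0, l0, ⟨hP0, ha0, hlen0⟩, hcost0⟩ := hstar
  obtain ⟨x, l, hcode, hP, hll, hpc, hg, hd⟩ :=
    rot_min (stepCost (fv v V0) (fA Am)) x0 l0 hP0
  have ha : P.ang x.1 / Real.pi + (l.map fun x => P.ang x.1 / Real.pi).sum = 2 := by
    rw [← ha0]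
    exact hg fun x => P.ang x.1 / Real.pi
  have hsymm : ∀ {i j : ℕ}, actB act i j = true → actB act j i = true := by
    intro i j h
    unfold actB at h ⊢
    rw [Bool.or_eq_true] at h ⊢
    exact h.symm
  have hlen : 2 ≤ l.length ∨ ∃ d, l = [d] ∧ actB act x.1.val d.1.val = true := by
    rcases hlen0 with h | ⟨d, h, h'⟩
    · left
      rw [hll]
      exact h
    · right
      rcases hd d h with ⟨e1, e2⟩ | ⟨e1, e2⟩
      · exact ⟨d, e2, by rw [e1]; exact h'⟩
      · exact ⟨x0, e2, by rw [e1]; exact hsymm h'⟩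
  have hcost : pcost (stepCost (fv v V0) (fA Am)) x l x < L ∨
      (t0 ≠ 0 ∧ (∃ d, l = [d] ∧ 16 ^ x.1.val + 16 ^ d.1.val = t0) ∧
        pcost (stepCost (fv v V0) (fA Am)) x l x ≤ L) := by
    rw [hpc]
    rcases hcost0 with h | ⟨h, ⟨i, j, hi, hj, hij, d, e, e'⟩, h'⟩
    · exact Or.inl h
    · refine Or.inr ⟨h, ?_, h'⟩
      have vi : ((i : ℕ) : ZMod m).val = i := ZMod.val_natCast_of_lt hi
      have vj : ((j : ℕ) : ZMod m).val = j := ZMod.val_natCast_of_lt hj
      have e3 : 16 ^ x0.1.val + 16 ^ d.1.val = t0 := by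
        rcases e' with ⟨e3, e4⟩ | ⟨e3, e4⟩
        · rw [e3, e4, vi, vj]
          exact hij
        · rw [e3, e4, vi, vj, add_comm]
          exact hij
      rcases hd d e with ⟨e1, e2⟩ | ⟨e1, e2⟩
      · exact ⟨d, e2, by rw [e1]; exact e3⟩
      · exact ⟨x0, e2, by rw [e1, add_comm]; exact e3⟩
  have h5 : pcost (fc v φ V0 Am) x l x = pcost (stepCost (fv v V0) (fA Am)) x l x := by
    rw [HF1_tele]
    ring
  have h5' : pcost (fc v φ V0 Am) x l x < (LL : ℕ) := by
    rw [h5]
    rcases hcost with h | ⟨h, -, h'⟩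
    · by_cases ht0 : t0 = 0
      · rw [hLL, HF1_beq ht0, cond_true]
        exact h
      · have h0 : Nat.beq t0 0 = false := by
          cases hh : Nat.beq t0 0
          · rfl
          · exact absurd (Nat.eq_of_beq_eq_true hh) ht0
        rw [hLL, h0, cond_false]
        push_cast
        linarith
    · have h0 : Nat.beq t0 0 = false := by
        cases hh : Nat.beq t0 0
        · rfl
        · exact absurd (Nat.eq_of_beq_eq_true hh) h
      rw [hLL, h0, cond_false]
      push_cast
      linarith
  obtain ⟨t, h6, h7⟩ := HF1_tpath hs l x x hP h5'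
  have htLL : t < LL := by
    have : (t : ℤ) < (LL : ℕ) := lt_of_le_of_lt h7 h5'
    exact_mod_cast this
  have h8 := hdfs (code x) (List.mem_range.2 (HF1_code_lt x))
  obtain ⟨h9, h9'⟩ := HF1_dfs hsrt (l.map code) fuel (code x) 0 _ 1 t h8 h6
    (fun y hy => by
      obtain ⟨z, hz, rfl⟩ := List.mem_map.1 hy
      exact hcode z hz) (by omega)
  rw [List.length_map] at h9 h9'
  -- the path as a list
  set p : List ℕ := ((x :: l).map code) with hpdef
  have hcnt : Nat.pow 16 (Nat.div (code x) 2) + ((l.map code).map fun x => 16 ^ (x / 2)).sum =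
      (p.map fun x => 16 ^ (x / 2)).sum := rfl
  rw [hcnt, Nat.zero_add] at h9
  have hplt : ∀ y ∈ p, y / 2 < m := by
    intro y hy
    obtain ⟨z, -, rfl⟩ := List.mem_map.1 hy
    rw [HF1_code_div]
    exact ZMod.val_lt _
  have hplen : p.length = l.length + 1 := by
    rw [hpdef, List.length_map, List.length_cons]
  unfold accF at h9
  simp only [HF1_bifo, HF1_bif, Bool.or_eq_true, Bool.and_eq_true, anyF_eq, List.any_eq_true,
    Bool.not_eq_true'] at h9
  rcases h9 with h9 | ⟨h9, h10⟩ | ⟨z, hz, h10⟩ | ⟨h9, h10⟩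
  · exfalso
    have := Nat.le_of_ble_eq_true h9
    rcases hlen with hlen | ⟨d, rfl, _⟩
    · omega
    · rw [List.length_singleton] at this
      omega
  · exfalso
    have h11 := Nat.eq_of_beq_eq_true h9
    rcases hlen with hlen | ⟨d, rfl, h12⟩
    · omega
    · have h13 := HF1_actF h12
      have h14 : (p.map fun x => 16 ^ (x / 2)).sum = 16 ^ x.1.val + 16 ^ d.1.val := by
        rw [hpdef]
        simp only [List.map_cons, List.map_nil, List.sum_cons, List.sum_nil, add_zero,
          HF1_code_div]
      rw [h14] at h10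
      have h15 : (actF act).any (Nat.beq (16 ^ x.1.val + 16 ^ d.1.val)) = true :=
        List.any_eq_true.2 ⟨_, h13, Nat.beq_refl _⟩
      rw [h15] at h10
      exact absurd h10 (by decide)
  · obtain ⟨cv, hcv1, rfl⟩ := List.mem_map.1 hz
    have h11 : (p.map fun x => 16 ^ (x / 2)).sum = encF cv := Nat.eq_of_beq_eq_true h10
    obtain ⟨h12, h13⟩ := hcv cv hcv1
    have h14 := HF1_inj (Nat.eq_of_beq_eq_true h12)
      (fun y hy => Nat.le_of_ble_eq_true (h13 y hy)) hplt (by omega) h11
    refine ⟨cv, hcv1, ?_⟩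
    rw [← h14]
    refine HF1_holds (x :: l) _ ?_
    rw [List.map_cons, List.sum_cons]
    exact ha
  · exfalso
    have h11 := Nat.le_of_ble_eq_true h9
    rcases hcost with hc | ⟨h12, ⟨d, rfl, h13⟩, -⟩
    · rw [h5] at h7
      have : (t : ℤ) < L := lt_of_le_of_lt h7 hc
      have h12 : t < L := by exact_mod_cast this
      omega
    · have h14 : (p.map fun x => 16 ^ (x / 2)).sum = t0 := by
        rw [← h13, hpdef]
        simp only [List.map_cons, List.map_nil, List.sum_cons, List.sum_nil, add_zero,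
          HF1_code_div]
      rw [h14, List.length_singleton, HF1_beq (rfl : t0 = t0), HF1_beq (rfl : 1 + 1 = 2)] at h10
      exact absurd h10 (by decide)

/-! ### children and nodes -/

omit [NeZero m] in
private theorem HF1_derG {σ σ' : ℕ → ℕ} (hσ : ∀ x < m, σ x = σ' x) {eqs : List Eqn}
    {Es : List Eqn} {cs : List (ℤ × List ℤ)} (h : derG m eqs σ Es cs = true) :
    derG m eqs σ' Es cs = true := by
  induction Es generalizing cs with
  | nil => cases cs with
    | nil => rfl
    | cons c cs =>
      unfold derG at h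
      exact absurd h (by simp)
  | cons E Es ih => cases cs with
    | nil =>
      unfold derG at h
      exact absurd h (by simp)
    | cons c cs =>
      unfold derG at h ⊢
      rw [Bool.and_eq_true, Bool.and_eq_true, Bool.and_eq_true] at h ⊢
      obtain ⟨⟨⟨h1, h2⟩, h3⟩, h4⟩ := h
      refine ⟨⟨⟨h1, ?_⟩, h3⟩, ih h4⟩
      rw [List.all_eq_true] at h2 ⊢
      intro x hx
      rw [← hσ x (List.mem_range.1 hx)]
      exact h2 x hx

private theorem HF1_ch {sy : List (Bool × ℕ × List ℕ)} (hsy : symF (pcls (n := m) c) act sy = true)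
    (M : Sit (pcls c) act P) {D : ℕ → List Eqn} {i : ℕ}
    (hD : ∀ j < i, NodeOK m (pcls c) act (D j)) {eqs : List Eqn}
    (h : ∀ E ∈ eqs, Eqn.Holds E fun j => P.ang j / Real.pi) {cvs : List (List ℕ)}
    {ch : List HCf} (hc : chF m sy D i eqs cvs ch = true) {cv : List ℕ} (hcv : cv ∈ cvs)
    (hh : Eqn.Holds (cv.map fun x => (x : ℤ), 2) fun j => P.ang j / Real.pi) :
    HasPeriodic P := by
  induction cvs generalizing ch with
  | nil => exact absurd hcv List.not_mem_nil
  | cons cv0 cvs ih =>
    cases ch with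
    | nil =>
      unfold chF at hc
      exact absurd hc (by simp)
    | cons c ch =>
      unfold chF at hc
      rw [Bool.and_eq_true] at hc
      rcases List.mem_cons.1 hcv with rfl | hcv
      · have heq : ∀ E ∈ ((cv.map fun x => (x : ℤ), 2) : Eqn) :: eqs,
            Eqn.Holds E fun j => P.ang j / Real.pi := by
          intro E hE
          rcases List.mem_cons.1 hE with rfl | hE
          · exact hh
          · exact h E hE
        have h1 := hc.1
        cases c with
        | contra ls => exact (contra_S M.ccw heq h1).elim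
        | ref idx g ds =>
          simp only [Bool.and_eq_true] at h1
          obtain ⟨⟨h2, h3⟩, h4⟩ := h1
          have h2' : idx < i := Nat.le_of_ble_eq_true h2
          have h3' : g < sy.length := Nat.le_of_ble_eq_true h3
          unfold symF at hsy
          rw [List.all_eq_true] at hsy
          have h5 := hsy _ (List.getElem_mem h3')
          rw [nthF_eq, List.getD_eq_getElem _ _ h3'] at h4
          set e := sy[g] with he
          rw [Bool.and_eq_true, List.all_eq_true] at h5
          obtain ⟨h6, h7⟩ := h5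
          refine P.dih_periodic e.1 (e.2.1 : ZMod m) (hD idx h2' _
            (sit_dih M e.1 (e.2.1 : ZMod m) h6) ?_)
          refine derG_sound (a := fun j => P.ang j / Real.pi) (σ := sgP e.1 (e.2.1 : ZMod m)) ?_ heq
            (HF1_derG ?_ h4)
          · intro j
            rw [show sgP e.1 (e.2.1 : ZMod m) j = sgC e.1 (e.2.1 : ZMod m) j from rfl, P.dih_ang]
          · intro x hx
            have h8 := h7 x (List.mem_range.2 hx)
            rw [beq_iff_eq] at h8
            rw [nthF_eq]
            exact h8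
      · exact ih hc.2 hcv

theorem chkM_sound {sp : List SpT} (hsp : ∀ T ∈ sp, T.OK m) (hlt : ∀ p ∈ act, p.1 < m ∧ p.2 < m)
    {sy : List (Bool × ℕ × List ℕ)} (hsy : symF (pcls (n := m) c) act sy = true)
    {D : ℕ → List Eqn} {i : ℕ} (hD : ∀ j < i, NodeOK m (pcls c) act (D j)) {N : HM}
    (hN : chkM c act sp sy (pcls (n := m) c) D i N = true) : NodeOK m (pcls c) act (D i) := by
  cases N with
  | base N =>
    have h1 := chkN_sound hsp hlt (D := [D i]) (i := 0) (fun j hj => absurd hj (by omega)) hN
    exact h1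
  | lp t0 v φ V0 Am L fuel rows cvs ch =>
    intro P M hE
    unfold chkM at hN
    rw [Bool.and_eq_true] at hN
    have hE' : ∀ E ∈ D i ++ Lib_MP_fa6e45.eqs0 m act, Eqn.Holds E fun j => P.ang j / Real.pi := by
      intro E h
      rcases List.mem_append.1 h with h | h
      · exact hE E h
      · exact M.eqs0 hlt E h
    obtain ⟨cv, hcv, hh⟩ := lpF_sound M hlt hN.1
    exact HF1_ch hsy M hD hE' hN.2 hcv hh

/-- a complete certificate -/
theorem certM_sound {sp : List SpT} (hsp : ∀ T ∈ sp, T.OK m) (hlt : ∀ p ∈ act, p.1 < m ∧ p.2 < m)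
    {sy : List (Bool × ℕ × List ℕ)} (hsy : symF (pcls (n := m) c) act sy = true)
    {D : ℕ → List Eqn} {Ns : ℕ → HM} {N : ℕ}
    (h : ∀ i < N, chkM c act sp sy (pcls (n := m) c) D i (Ns i) = true) (hN : 0 < N)
    (hr : D (N - 1) = []) : ∀ P : Polygon m, Sit (pcls c) act P → HasPeriodic P := by
  have key : ∀ i, i < N → NodeOK m (pcls c) act (D i) := by
    intro i
    induction i using Nat.strong_induction_on with
    | _ i ih =>
      intro hi
      exact chkM_sound hsp hlt hsy (fun j hj => ih j hj (by omega)) (h i hi)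
  intro P M
  refine key (N - 1) (by omega) P M ?_
  rw [hr]
  intro E hE
  exact absurd hE List.not_mem_nil

/-- a complete certificate, checked in blocks -/
theorem cert_blk {sp : List SpT} (hsp : ∀ T ∈ sp, T.OK m) (hlt : ∀ p ∈ act, p.1 < m ∧ p.2 < m)
    {sy : List (Bool × ℕ × List ℕ)} (hsy : symF (pcls (n := m) c) act sy = true)
    {D : List (List (List Eqn))} {Ns : List (List HM)} {N : ℕ}
    (h : ∀ b < Ns.length, blkB c act sp sy (pcls (n := m) c) D N b (Ns.getD b []) = true)
    (hN : 0 < N) (hl : N ≤ 12 * Ns.length) (hr : blkF [] D (N - 1) = []) :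
    ∀ P : Polygon m, Sit (pcls c) act P → HasPeriodic P := by
  refine certM_sound hsp hlt hsy (D := blkF [] D)
    (Ns := fun i => nthF (HM.base (HN.spec 0 true 0 [])) (Ns.getD (i / 12) []) (i % 12))
    (N := N) (fun i hi => ?_) hN hr
  have h1 := h (i / 12) (by omega)
  unfold blkB at h1
  rw [allF_eq, List.all_eq_true] at h1
  have h2 := h1 (i % 12) (List.mem_range.2 (Nat.mod_lt i (by norm_num)))
  have e : Nat.add (Nat.mul 12 (i / 12)) (i % 12) = i := Nat.div_add_mod i 12
  rw [e] at h2
  have h3 : Nat.ble N i = false := by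
    cases hh : Nat.ble N i
    · rfl
    · have := Nat.le_of_ble_eq_true hh
      omega
  rw [h3, cond_false] at h2
  exact h2

end Pool.Agent.Lib_MP_fa6e45
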