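import Pool.Agent.Lib_MP_fa6e45.CX0
import Pool.Agent.Lib_MP_fa6e45.HF1

/-!
MP_fa6e45_co, stage 7: the check `noPatch` is correct.
-/

open Set MeasureTheory Complex
open scoped Topology

namespace Pool.Agent.Lib_MP_fa6e45

open Pool.Agent.Lib_PL (cr InSector Poly)
variable {m : ℕ} [NeZero m] {a : ZMod m → ℝ} {G : ZMod m → ZMod m → Bool → Prop} {ι : Type}

private theorem CX2_period (K : CombU m a G ι) (c : ι × ZMod m) :
    K.nx^[Function.minimalPeriod K.nx c] c = c := Function.iterate_minimalPeriod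

private theorem CX2_deg_iter (K : CombU m a G ι) (c : ι × ZMod m) (k : ℕ) :
    Function.minimalPeriod K.nx (K.nx^[k] c) = Function.minimalPeriod K.nx c := by
  refine Function.minimalPeriod_apply_iterate ?_ k
  exact Function.minimalPeriod_pos_iff_mem_periodicPts.1 (by have := K.deg2 c; omega)

private theorem CX2_len (K : CombU m a G ι) (c : ι × ZMod m) :
    (K.word c).length = Function.minimalPeriod K.nx c := by
  simp [CombU.word]

private theorem CX2_get (K : CombU m a G ι) (c : ι × ZMod m) (k : ℕ)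
    (h : k < Function.minimalPeriod K.nx c) : (K.word c).getD k 0 = K.cd (K.nx^[k] c) := by
  unfold CombU.word
  rw [List.getD_eq_getElem _ _ (by simpa using h), List.getElem_map, List.getElem_range]

/-- rotation of the word of a star -/
private theorem CX2_rot (K : CombU m a G ι) (c : ι × ZMod m) (j : ℕ)
    (h : j ≤ Function.minimalPeriod K.nx c) : rotX (K.word c) j = K.word (K.nx^[j] c) := by
  have hn := CX2_deg_iter K c j
  have hp := CX2_period K c
  have hl := CX2_len K c
  set n := Function.minimalPeriod K.nx c with hndef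
  unfold rotX
  refine List.ext_getElem ?_ fun l h1 h2 => ?_
  · rw [List.length_append, List.length_drop, List.length_take, hl, CX2_len, hn]
    omega
  · have h2' : l < n := by
      rw [CX2_len, hn] at h2
      exact h2
    have e : (K.word (K.nx^[j] c))[l] = K.cd (K.nx^[l + j] c) := by
      unfold CombU.word
      rw [List.getElem_map, List.getElem_range, Function.iterate_add_apply]
    rw [e, List.getElem_append]
    split_ifs with h3
    · rw [List.getElem_drop]
      unfold CombU.word
      rw [List.getElem_map, List.getElem_range, add_comm]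
    · rw [List.length_drop, hl] at h3
      rw [List.getElem_take]
      unfold CombU.word
      rw [List.getElem_map, List.getElem_range]
      congr 1
      rw [List.length_drop, List.length_map, List.length_range, ← hndef]
      have e2 : l + j = (l - (n - j)) + n := by omega
      rw [e2, Function.iterate_add_apply, hp]

private theorem CX2_symm (K : CombU m a G ι) (c : ι × ZMod m) :
    K.nx^[Function.minimalPeriod K.nx c - 1] c = K.nx.symm c := by
  rw [Equiv.eq_symm_apply, ← Function.iterate_succ_apply' K.nx]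
  have hd := K.deg2 c
  rw [show (Function.minimalPeriod K.nx c - 1).succ = Function.minimalPeriod K.nx c by omega]
  exact CX2_period K c

private theorem CX2_cd_bwd (K : CombU m a G ι) (c : ι × ZMod m) :
    K.cd (bwd K.rf c) = bwC m (K.cd c) := by
  haveI : Fact (1 < m) := ⟨by have := K.three_le; omega⟩
  obtain ⟨t, i⟩ := c
  unfold CombU.cd bwd bwC code
  cases h : K.rf t
  · have h1 : (2 * i.val) % 2 = 0 := by omega
    have h2 : (2 * i.val) / 2 = i.val := by omega
    simp only [h, h1, h2, if_true, Bool.false_eq_true, if_false, Bool.toNat_false, add_zero]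
    congr 1
    have h3 : (i - 1 : ZMod m) = i + ((m - 1 : ℕ) : ZMod m) := by
      rw [Nat.cast_sub (by have := K.three_le; omega)]
      simp
      ring
    rw [h3, ZMod.val_add, ZMod.val_natCast, Nat.add_mod_mod]
  · have h1 : ¬ (2 * i.val + 1) % 2 = 0 := by omega
    have h2 : (2 * i.val + 1) / 2 = i.val := by omega
    simp only [h, h1, h2, if_true, if_false, Bool.toNat_true]
    rw [ZMod.val_add, ZMod.val_one]

private theorem CX2_cd_fwd (K : CombU m a G ι) (c : ι × ZMod m) :
    K.cd (fwd K.rf c) = fwC m (K.cd c) := by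
  haveI : Fact (1 < m) := ⟨by have := K.three_le; omega⟩
  obtain ⟨t, i⟩ := c
  unfold CombU.cd fwd fwC code
  cases h : K.rf t
  · have h1 : (2 * i.val) % 2 = 0 := by omega
    have h2 : (2 * i.val) / 2 = i.val := by omega
    simp only [h, h1, h2, if_true, Bool.false_eq_true, if_false, Bool.toNat_false, add_zero]
    rw [ZMod.val_add, ZMod.val_one]
  · have h1 : ¬ (2 * i.val + 1) % 2 = 0 := by omega
    have h2 : (2 * i.val + 1) / 2 = i.val := by omega
    simp only [h, h1, h2, if_true, if_false, Bool.toNat_true]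
    congr 2
    have h3 : (i - 1 : ZMod m) = i + ((m - 1 : ℕ) : ZMod m) := by
      rw [Nat.cast_sub (by have := K.three_le; omega)]
      simp
      ring
    rw [h3, ZMod.val_add, ZMod.val_natCast, Nat.add_mod_mod]

private theorem CX2_symm_bwd (K : CombU m a G ι) (c : ι × ZMod m) :
    K.nx.symm (bwd K.rf c) = fwd K.rf (K.nx c) := by
  rw [← K.flip c]
  simp

omit [NeZero m] in
private theorem CX2_bwd_iter (rf : ι → Bool) (t : ι) (i : ZMod m) (k : ℕ) :
    (bwd rf)^[k] (t, i) = (t, if rf t then i + k else i - k) := by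
  induction k with
  | zero => simp
  | succ k ih =>
    rw [Function.iterate_succ_apply', ih]
    unfold bwd
    cases h : rf t
    · simp only [Bool.false_eq_true, if_false]
      push_cast
      congr 1
      ring
    · simp only [if_true]
      push_cast
      congr 1
      ring

omit [NeZero m] in
private theorem CX2_bwd_fst (rf : ι → Bool) (c : ι × ZMod m) (k : ℕ) :
    ((bwd rf)^[k] c).1 = c.1 := by
  obtain ⟨t, i⟩ := c
  rw [CX2_bwd_iter]

private theorem CX2_bwd_m (rf : ι → Bool) (c : ι × ZMod m) : (bwd rf)^[m] c = c := by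
  obtain ⟨t, i⟩ := c
  rw [CX2_bwd_iter]
  simp

omit [NeZero m] in
private theorem CX2_bwd_fwd (rf : ι → Bool) (c : ι × ZMod m) : bwd rf (fwd rf c) = c := by
  obtain ⟨t, i⟩ := c
  unfold bwd fwd
  cases h : rf t <;> simp [h]

private theorem CX2_mono (K : CombU m a G ι) (GS : List (List ℕ)) (r : ℕ) {t : ι}
    (h : t ∉ K.Bad GS r) : t ∉ K.Bad GS 0 := by
  induction r with
  | zero => exact h
  | succ r ih => exact ih fun h1 => h (Or.inl h1)

private theorem CX2_good (K : CombU m a G ι) (GS : List (List ℕ)) (r : ℕ) {c : ι × ZMod m}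
    (h : c.1 ∉ K.Bad GS r) : K.good GS c := by
  by_contra h1
  exact CX2_mono K GS r h ⟨c.2, h1⟩

/-- `i` is the number of the word of the star of `c` -/
private def CX2R (K : CombU m a G ι) (T : PTab) (i : ℕ) (c : ι × ZMod m) : Prop :=
  i < T.len ∧ blkF [] T.ws i = K.word c

section tab

variable {K : CombU m a G ι} {GS : List (List ℕ)} {T : PTab}

private theorem CX2_a (h : ptabB m GS T = true) {c : ι × ZMod m} (hc : K.good GS c) :
    ∃ i, CX2R K T i c := by
  unfold ptabB at h
  rw [Bool.and_eq_true, Bool.and_eq_true] at h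
  have h1 := h.1.1
  rw [List.all_eq_true] at h1
  obtain ⟨k, hk⟩ := hc
  have hd := K.deg2 c
  have hn := CX2_deg_iter K c k
  have hp := CX2_period K c
  set n := Function.minimalPeriod K.nx c with hndef
  have hkn : k % n < n := Nat.mod_lt _ (by omega)
  set j := (n - k % n) % n with hj
  have hjn : j < n := Nat.mod_lt _ (by omega)
  have hjk : (j + k) % n = 0 := by
    rw [hj, Nat.mod_add_mod]
    have h1 : n - k % n + k = n * (k / n + 1) := by
      have := Nat.div_add_mod k n
      have h2 : n * (k / n + 1) = n * (k / n) + n := by ring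
      omega
    rw [h1, Nat.mul_mod_right]
  have hc : K.nx^[j] (K.nx^[k] c) = c := by
    rw [← Function.iterate_add_apply, ← Function.iterate_mod_minimalPeriod_eq, ← hndef, hjk]
    rfl
  have h2 := h1 _ hk
  rw [List.all_eq_true] at h2
  have h3 := h2 j (List.mem_range.2 (by rw [CX2_len, hn]; exact hjn))
  rw [List.any_eq_true] at h3
  obtain ⟨i, hi, h4⟩ := h3
  rw [beq_iff_eq, CX2_rot K _ j (by rw [hn]; exact hjn.le), hc] at h4
  exact ⟨i, List.mem_range.1 hi, h4⟩

private theorem CX2_b (h : ptabB m GS T = true) {c : ι × ZMod m} {i : ℕ} (hc : CX2R K T i c) :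
    CX2R K T (blkF 0 T.L i) (K.nx c) ∧ CX2R K T (blkF 0 T.R i) (K.nx.symm c) := by
  unfold ptabB at h
  rw [Bool.and_eq_true, Bool.and_eq_true] at h
  have h1 := h.1.2
  rw [List.all_eq_true] at h1
  have h2 := h1 i (List.mem_range.2 hc.1)
  simp only [Bool.and_eq_true, decide_eq_true_eq, beq_iff_eq] at h2
  obtain ⟨⟨⟨⟨h3, h4⟩, h5⟩, h6⟩, h7⟩ := h2
  have hd := K.deg2 c
  refine ⟨⟨h4, ?_⟩, ⟨h5, ?_⟩⟩
  · rw [h6, hc.2, CX2_rot K c 1 (by omega)]
    rfl
  · rw [h7, hc.2, CX2_len, CX2_rot K c _ (by omega), CX2_symm]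

private theorem CX2_d (h : ptabB m GS T = true) {c : ι × ZMod m} {i j : ℕ} (hi : CX2R K T i c)
    (hj : CX2R K T j (bwd K.rf c)) : j ∈ blkF [] T.nx i := by
  unfold ptabB at h
  rw [Bool.and_eq_true, Bool.and_eq_true] at h
  have h1 := h.2
  rw [allF_eq, List.all_eq_true] at h1
  have h2 := h1 i (List.mem_range.2 hi.1)
  rw [allF_eq, List.all_eq_true] at h2
  have h3 := h2 j (List.mem_range.2 hj.1)
  have hd := K.deg2 c
  have hd' := K.deg2 (bwd K.rf c)
  rw [nthF_eq, nthF_eq, nthF_eq, nthF_eq, hi.2, hj.2, CX2_get K c 0 (by omega),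
    CX2_get K c 1 (by omega), CX2_get K (bwd K.rf c) 0 (by omega), CX2_len,
    CX2_get K (bwd K.rf c) _ (by omega), CX2_symm, CX2_symm_bwd] at h3
  have e1 : Nat.beq (K.cd (K.nx^[0] (bwd K.rf c))) (bwC m (K.cd (K.nx^[0] c))) = true := by
    change Nat.beq (K.cd (bwd K.rf c)) (bwC m (K.cd c)) = true
    rw [CX2_cd_bwd]
    exact Nat.beq_refl _
  have e2 : Nat.beq (K.cd (fwd K.rf (K.nx c))) (fwC m (K.cd (K.nx^[1] c))) = true := by
    change Nat.beq (K.cd (fwd K.rf (K.nx c))) (fwC m (K.cd (K.nx c))) = true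
    rw [CX2_cd_fwd]
    exact Nat.beq_refl _
  rw [e1, cond_true, e2, cond_true, anyF_eq, List.any_eq_true] at h3
  obtain ⟨x, hx, h4⟩ := h3
  rw [Nat.eq_of_beq_eq_true h4]
  exact hx

/-- the words at the corners of a tile, from `P r` -/
private theorem CX2_Q (h : ptabB m GS T = true) (r : ℕ)
    (P : ∀ (c : ι × ZMod m) (i j : ℕ), c.1 ∉ K.Bad GS r → CX2R K T i c → CX2R K T j (bwd K.rf c) →
      okR m T r i j = true) (c : ι × ZMod m) (hc : c.1 ∉ K.Bad GS r) (i : ℕ) (hi : CX2R K T i c)
    (n : ℕ) : ∀ (k j : ℕ), k + n = m - 1 → CX2R K T j ((bwd K.rf)^[k] c) →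
      exN (okR m T r) (blkF [] T.nx) i n j = true := by
  have hm : 0 < m := Nat.pos_of_ne_zero (NeZero.ne m)
  induction n with
  | zero =>
    intro k j hk hj
    have e : bwd K.rf ((bwd K.rf)^[k] c) = c := by
      rw [← Function.iterate_succ_apply' (bwd K.rf), show k.succ = m by omega, CX2_bwd_m]
    have h1 : i ∈ blkF [] T.nx j := CX2_d h hj (by rw [e]; exact hi)
    have h2 := P ((bwd K.rf)^[k] c) j i (by rw [CX2_bwd_fst]; exact hc) hj (by rw [e]; exact hi)
    change (bif anyF (Nat.beq i) (blkF [] T.nx j) then okR m T r j i else false) = true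
    have h3 : anyF (Nat.beq i) (blkF [] T.nx j) = true := by
      rw [anyF_eq, List.any_eq_true]
      exact ⟨i, h1, Nat.beq_refl i⟩
    rw [h3, cond_true]
    exact h2
  | succ n ih =>
    intro k j hk hj
    obtain ⟨U, hU⟩ := CX2_a (K := K) h (c := (bwd K.rf)^[k + 1] c)
      (CX2_good K GS r (by rw [CX2_bwd_fst]; exact hc))
    have hU' : CX2R K T U (bwd K.rf ((bwd K.rf)^[k] c)) := by
      rw [← Function.iterate_succ_apply' (bwd K.rf)]
      exact hU
    have h1 : U ∈ blkF [] T.nx j := CX2_d h hj hU'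
    have h2 := P ((bwd K.rf)^[k] c) j U (by rw [CX2_bwd_fst]; exact hc) hj hU'
    have h3 := ih (k + 1) U (by omega) hU
    change anyF (fun U => bif okR m T r j U then exN (okR m T r) (blkF [] T.nx) i n U else false)
      (blkF [] T.nx j) = true
    rw [anyF_eq, List.any_eq_true]
    refine ⟨U, h1, ?_⟩
    rw [h2, cond_true]
    exact h3

private theorem CX2_P (h : ptabB m GS T = true) (r : ℕ) :
    ∀ (c : ι × ZMod m) (i j : ℕ), c.1 ∉ K.Bad GS r → CX2R K T i c → CX2R K T j (bwd K.rf c) →
      okR m T r i j = true := by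
  induction r with
  | zero =>
    intro c i j _ _ _
    rfl
  | succ r ih =>
    intro c i j hc hi hj
    have hm := K.three_le
    have h1 : (K.nx c).1 ∉ K.Bad GS r := fun h2 => hc (Or.inr ⟨c.2, h2⟩)
    have hL := (CX2_b h hi).1
    have hR := (CX2_b h hj).2
    rw [CX2_symm_bwd] at hR
    change exN (okR m T r) (blkF [] T.nx) (blkF 0 T.R j) (m - 2) (blkF 0 T.L i) = true
    refine CX2_Q h r ih (fwd K.rf (K.nx c)) h1 (blkF 0 T.R j) hR (m - 2) 1 (blkF 0 T.L i)
      (by omega) ?_
    change CX2R K T (blkF 0 T.L i) (bwd K.rf (fwd K.rf (K.nx c)))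
    rw [CX2_bwd_fwd]
    exact hL

end tab

theorem CombU.noPatch_sound (K : CombU m a G ι) {GS : List (List ℕ)} {T : PTab} {r : ℕ}
    (h : noPatch m GS T r = true) (t : ι) : t ∈ K.Bad GS r := by
  by_contra ht
  unfold noPatch at h
  rw [Bool.and_eq_true, allF_eq, List.all_eq_true] at h
  obtain ⟨hT, h⟩ := h
  obtain ⟨i, hi⟩ := CX2_a (K := K) hT (c := (t, 0)) (CX2_good K GS r ht)
  have h1 := h i (List.mem_range.2 hi.1)
  have h2 := CX2_Q hT r (CX2_P hT r) (t, 0) ht i hi (m - 1) 0 i (by omega) hi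
  have hd := K.deg2 (t, 0)
  rw [nthF_eq, hi.2, CX2_get K (t, 0) 0 (by omega), h2] at h1
  have h3 : Nat.ble 2 (K.cd (K.nx^[0] (t, 0))) = false := by
    change Nat.ble 2 (code ((0, K.rf t) : ZMod m × Bool)) = false
    unfold code
    rw [ZMod.val_zero]
    cases K.rf t <;> rfl
  rw [h3, cond_false] at h1
  exact absurd h1 (by decide)

end Pool.Agent.Lib_MP_fa6e45
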