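import Pool.Agent.Lib_MP_fa6e45.CX0
import Pool.Agent.Lib_MP_fa6e45.CU4

/-!
MP_fa6e45_co, stage 7: soundness of the nodes `lpX` for the principle `WX` (as `lpU_sound` for `WU`, in `CU4.lean`).
-/

open scoped Topology

namespace Pool.Agent.Lib_MP_fa6e45

/-! ### the recursors -/

private theorem CX4_bif (a b : Bool) : (bif a then b else false) = (a && b) := by
  cases a <;> rfl

private theorem CX4_bifo (a b : Bool) : (bif a then true else b) = (a || b) := by
  cases a <;> rfl

private theorem CX4_srt {l : List (ℕ × ℕ)} {b : ℕ} (h : srtF l b = true) :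
    ∀ x ∈ l, b ≤ x.2 := by
  induction l generalizing b with
  | nil =>
    intro x hx
    exact absurd hx List.not_mem_nil
  | cons y l ih =>
    have h1 : (bif Nat.ble b y.2 then srtF l y.2 else false) = true := h
    rw [CX4_bif, Bool.and_eq_true] at h1
    have h2 : b ≤ y.2 := Nat.le_of_ble_eq_true h1.1
    intro x hx
    rcases List.mem_cons.1 hx with rfl | hx
    · exact h2
    · exact h2.trans (ih h1.2 x hx)

private theorem CX4_row {LL s : ℕ} {g : ℕ → ℕ → Bool} {l : List (ℕ × ℕ)} {b : ℕ}
    (hs : srtF l b = true) (h : rowF LL s g l = true) {x : ℕ × ℕ} (hx : x ∈ l)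
    (hlt : s + x.2 < LL) : g x.1 (s + x.2) = true := by
  induction l generalizing b with
  | nil => exact absurd hx List.not_mem_nil
  | cons y l ih =>
    have h1 : (bif Nat.ble b y.2 then srtF l y.2 else false) = true := hs
    rw [CX4_bif, Bool.and_eq_true] at h1
    have h2 : (bif Nat.ble LL (Nat.add s y.2) then true else
      bif g y.1 (Nat.add s y.2) then rowF LL s g l else false) = true := h
    rw [CX4_bif, CX4_bifo, Bool.or_eq_true, Bool.and_eq_true] at h2
    rcases h2 with h2 | ⟨h2, h3⟩
    · have h4 : LL ≤ s + y.2 := Nat.le_of_ble_eq_true h2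
      exfalso
      rcases List.mem_cons.1 hx with rfl | hx
      · omega
      · have := CX4_srt h1.2 x hx
        omega
    · rcases List.mem_cons.1 hx with rfl | hx
      · exact h2
      · exact ih h1.2 h3 hx

/-! ### the search -/

private theorem CX4_beq {a b : ℕ} (h : a = b) : Nat.beq a b = true := by
  rw [h]
  exact Nat.beq_refl b

private theorem CX4_dfs {rows : List (List (ℕ × ℕ))} (hr : ∀ r ∈ rows, srtF r 0 = true) {LL : ℕ}
    {acc : ℕ → ℕ → ℕ → ℕ → Bool} {c0 : ℕ} (l : List ℕ) (fuel cur s cnt wd len t : ℕ)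
    (h : dfsR rows LL acc c0 fuel cur s cnt wd len = true) (hp : TPath rows cur l c0 t)
    (hl : ∀ x ∈ l, c0 ≤ x) (ht : s + t < LL) :
    acc (cnt + (l.map fun x => 16 ^ (x / 2)).sum) (l.foldl (fun x y => 16 * x + y) wd) (len + l.length)
      (s + t) = true ∧ l.length + 1 ≤ fuel := by
  have hrow : ∀ i, srtF (rows.getD i []) 0 = true := by
    intro i
    rw [List.getD_eq_getElem?_getD]
    rcases Nat.lt_or_ge i rows.length with hi | hi
    · rw [List.getElem?_eq_getElem hi]
      exact hr _ (List.getElem_mem hi)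
    · rw [List.getElem?_eq_none hi]
      rfl
  induction l generalizing fuel cur s cnt wd len t with
  | nil =>
    cases fuel with
    | zero => exact absurd h (by simp [dfsR])
    | succ fuel =>
      change rowF LL s (fun y t =>
        bif (bif Nat.beq y c0 then acc cnt wd len t else true) then
          (bif Nat.ble c0 y then dfsR rows LL acc c0 fuel y t
            (Nat.add cnt (Nat.pow 16 (Nat.div y 2))) (Nat.add (Nat.mul 16 wd) y) (Nat.succ len)
            else true) else false)
        (nthF [] rows cur) = true at h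
      rw [nthF_eq] at h
      have hp' : (c0, t) ∈ rows.getD cur [] := hp
      have h1 := CX4_row (hrow cur) h hp' ht
      simp only [CX4_bif, Bool.and_eq_true] at h1
      rw [CX4_beq rfl] at h1
      refine ⟨?_, by simp⟩
      simpa using h1.1
  | cons y l ih =>
    cases fuel with
    | zero => exact absurd h (by simp [dfsR])
    | succ fuel =>
      change rowF LL s (fun y t =>
        bif (bif Nat.beq y c0 then acc cnt wd len t else true) then
          (bif Nat.ble c0 y then dfsR rows LL acc c0 fuel y t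
            (Nat.add cnt (Nat.pow 16 (Nat.div y 2))) (Nat.add (Nat.mul 16 wd) y) (Nat.succ len)
            else true) else false)
        (nthF [] rows cur) = true at h
      rw [nthF_eq] at h
      obtain ⟨t1, t2, h4, h5, rfl⟩ := hp
      have h1 := CX4_row (hrow cur) h h4 (by simp only; omega)
      simp only [CX4_bif, Bool.and_eq_true] at h1
      have h6 : Nat.ble c0 y = true := Nat.ble_eq_true_of_le (hl y List.mem_cons_self)
      rw [h6] at h1
      have h7 := ih fuel y (s + t1) (cnt + 16 ^ (y / 2)) (16 * wd + y) (len + 1) t2 h1.2 h5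
        (fun x hx => hl x (List.mem_cons_of_mem y hx)) (by omega)
      refine ⟨?_, ?_⟩
      · rw [List.map_cons, List.sum_cons, List.length_cons, List.foldl_cons]
        have e1 : cnt + (16 ^ (y / 2) + (l.map fun x => 16 ^ (x / 2)).sum) =
            cnt + 16 ^ (y / 2) + (l.map fun x => 16 ^ (x / 2)).sum := by ring
        have e2 : len + (l.length + 1) = len + 1 + l.length := by ring
        have e3 : s + (t1 + t2) = s + t1 + t2 := by ring
        rw [e1, e2, e3]
        exact h7.1
      · rw [List.length_cons]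
        omega

/-! ### words of stars -/

private theorem CX4_fold (u : List ℕ) (a : ℕ) :
    u.foldl (fun x y => 16 * x + y) a = Nat.ofDigits 16 (u.reverse ++ [a]) := by
  induction u generalizing a with
  | nil => simp
  | cons y u ih =>
    rw [List.foldl_cons, ih, List.reverse_cons, Nat.ofDigits_append, Nat.ofDigits_append,
      Nat.ofDigits_append]
    simp only [Nat.ofDigits_singleton, List.length_append, List.length_reverse,
      List.length_singleton]
    ring

private theorem CX4_wdinj {u u' : List ℕ} (hu : ∀ x ∈ u, x ≤ 15) (hu' : ∀ x ∈ u', x ≤ 15)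
    (h : wdF u = wdF u') : u = u' := by
  unfold wdF at h
  rw [CX4_fold, CX4_fold] at h
  have key : ∀ v : List ℕ, (∀ x ∈ v, x ≤ 15) →
      Nat.digits 16 (Nat.ofDigits 16 (v.reverse ++ [1])) = v.reverse ++ [1] := by
    intro v hv
    refine Nat.digits_ofDigits 16 (by norm_num) _ ?_ ?_
    · intro x hx
      rcases List.mem_append.1 hx with hx | hx
      · have := hv x (List.mem_reverse.1 hx)
        omega
      · rw [List.mem_singleton] at hx
        omega
    · intro hne
      simp
  have h1 := key u hu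
  rw [h, key u' hu'] at h1
  have h2 := List.append_cancel_right h1
  exact (List.reverse_injective h2).symm

/-! ### counting -/

private theorem CX4_enc (cv : List ℕ) : encF cv = Nat.ofDigits 16 cv := by
  induction cv with
  | nil => rfl
  | cons x cv ih =>
    rw [Nat.ofDigits_cons, ← ih]
    change Nat.add x (Nat.mul 16 (encF cv)) = _
    simp

private theorem CX4_digits (f : ℕ → ℕ) (m : ℕ) :
    Nat.ofDigits 16 ((List.range m).map f) = ∑ i ∈ Finset.range m, f i * 16 ^ i := by
  induction m with
  | zero => rfl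
  | succ m ih =>
    rw [List.range_succ, List.map_append, Nat.ofDigits_append, ih, Finset.sum_range_succ]
    simp [mul_comm]

private theorem CX4_cnt (m : ℕ) (p : List ℕ) (hp : ∀ x ∈ p, x / 2 < m) :
    encF (cntv m p) = (p.map fun x => 16 ^ (x / 2)).sum := by
  rw [CX4_enc]
  unfold cntv
  rw [CX4_digits]
  induction p with
  | nil => simp
  | cons x p ih =>
    rw [List.map_cons, List.sum_cons, ← ih fun y hy => hp y (List.mem_cons_of_mem x hy)]
    have h1 : ∀ i, (x :: p).countP (fun x => x / 2 == i) * 16 ^ i =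
        (if i = x / 2 then 16 ^ i else 0) + p.countP (fun x => x / 2 == i) * 16 ^ i := by
      intro i
      rw [List.countP_cons]
      by_cases h : i = x / 2
      · rw [if_pos h, if_pos (by rw [h]; exact beq_self_eq_true _)]
        ring
      · rw [if_neg h, if_neg]
        · ring
        · rw [beq_iff_eq]
          exact fun h2 => h h2.symm
    simp only [h1]
    rw [Finset.sum_add_distrib, Finset.sum_ite_eq', if_pos]
    rw [Finset.mem_range]
    exact hp x List.mem_cons_self

private theorem CX4_inj {m : ℕ} {cv : List ℕ} (hl : cv.length = m) (hd : ∀ x ∈ cv, x ≤ 15)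
    {p : List ℕ} (hp : ∀ x ∈ p, x / 2 < m) (hlen : p.length ≤ 15)
    (h : (p.map fun x => 16 ^ (x / 2)).sum = encF cv) : cntv m p = cv := by
  rw [← CX4_cnt m p hp, CX4_enc, CX4_enc] at h
  refine Nat.ofDigits_inj_of_len_eq (by norm_num : 1 < 16) ?_ ?_ ?_ h
  · unfold cntv
    rw [List.length_map, List.length_range, hl]
  · intro x hx
    unfold cntv at hx
    obtain ⟨i, -, rfl⟩ := List.mem_map.1 hx
    have := List.countP_le_length (p := fun x => x / 2 == i) (l := p)
    omega
  · intro x hx
    have := hd x hx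
    omega

/-! ### one step -/

section step

variable {m : ℕ} [NeZero m] {c : List ℕ}

omit [NeZero m] in
private theorem CX4_code_div (x : ZMod m × Bool) : code x / 2 = x.1.val := by
  unfold code
  have h2 : x.2.toNat ≤ 1 := Bool.toNat_le x.2
  omega

private theorem CX4_code_lt (x : ZMod m × Bool) : code x < 2 * m := by
  unfold code
  have h1 := ZMod.val_lt x.1
  have h2 : x.2.toNat ≤ 1 := Bool.toNat_le x.2
  omega

private theorem CX4_pred (i : ZMod m) : (i.val + (m - 1)) % m = (i - 1).val := by
  have hm : 0 < m := Nat.pos_of_ne_zero (NeZero.ne m)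
  have h1 : ((i.val + (m - 1) : ℕ) : ZMod m) = i - 1 := by
    rw [Nat.cast_add, ZMod.natCast_zmod_val, Nat.cast_sub (by omega), ZMod.natCast_self]
    ring
  rw [← h1, ZMod.val_natCast]

private theorem CX4_ex (x : ZMod m × Bool) : exF m (code x) = code (exW x) := by
  obtain ⟨i, f⟩ := x
  unfold exF exW
  have hd := CX4_code_div (i, f)
  cases f
  · have h1 : code ((i, false) : ZMod m × Bool) = 2 * i.val := rfl
    have h2 : Nat.beq (Nat.mod (code ((i, false) : ZMod m × Bool)) 2) 0 = true := by
      rw [h1]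
      apply CX4_beq
      exact Nat.mul_mod_right 2 _
    rw [h2, cond_true]
    change 2 * ((code ((i, false) : ZMod m × Bool) / 2 + (m - 1)) % m) = _
    rw [hd, CX4_pred]
    rfl
  · have h1 : code ((i, true) : ZMod m × Bool) = 2 * i.val + 1 := rfl
    have h2 : Nat.beq (Nat.mod (code ((i, true) : ZMod m × Bool)) 2) 0 = false := by
      rw [h1]
      have : Nat.mod (2 * i.val + 1) 2 = 1 := by
        change (2 * i.val + 1) % 2 = 1
        omega
      rw [this]
      rfl
    rw [h2, cond_false]
    rfl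

private theorem CX4_en (x : ZMod m × Bool) : enF m (code x) = code (enW x) := by
  obtain ⟨i, f⟩ := x
  unfold enF enW
  have hd := CX4_code_div (i, f)
  cases f
  · have h1 : code ((i, false) : ZMod m × Bool) = 2 * i.val := rfl
    have h2 : Nat.beq (Nat.mod (code ((i, false) : ZMod m × Bool)) 2) 0 = true := by
      rw [h1]
      apply CX4_beq
      exact Nat.mul_mod_right 2 _
    rw [h2, cond_true]
    rfl
  · have h1 : code ((i, true) : ZMod m × Bool) = 2 * i.val + 1 := rfl
    have h2 : Nat.beq (Nat.mod (code ((i, true) : ZMod m × Bool)) 2) 0 = false := by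
      rw [h1]
      have : Nat.mod (2 * i.val + 1) 2 = 1 := by
        change (2 * i.val + 1) % 2 = 1
        omega
      rw [this]
      rfl
    rw [h2, cond_false]
    change Nat.succ (2 * ((code ((i, true) : ZMod m × Bool) / 2 + (m - 1)) % m)) = _
    rw [hd, CX4_pred]
    rfl

/-- weights -/
private def fv (v : List ℕ) (V0 : ℕ) (i : ZMod m) : ℤ := (v.getD i.val 0 : ℤ) - V0

/-- potential -/
private def fφ (φ : List ℕ) (x : ZMod m × Bool) : ℤ := (φ.getD (code x) 0 : ℤ)

/-- crossings -/
private def fA (Am : List (List ℕ)) (x y : ZMod m × Bool) : ℤ :=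
  ((Am.getD (code x) []).getD (code y) 0 : ℤ) - ((Am.getD (code y) []).getD (code x) 0 : ℤ)

/-- cost -/
private def fc (v φ : List ℕ) (V0 : ℕ) (Am : List (List ℕ)) (x y : ZMod m × Bool) : ℤ :=
  stepCost (fv v V0) (fA Am) x y + fφ φ x - fφ φ y

private def CX4_G (c : List ℕ) (j k : ZMod m) (b : Bool) : Prop := relT c j k b = true

omit [NeZero m] in
private theorem CX4_par (x y : ZMod m × Bool) :
    Nat.beq (Nat.mod (code x) 2) (Nat.mod (code y) 2) = (x.2 == y.2) := by
  obtain ⟨i, f⟩ := x
  obtain ⟨j, g⟩ := y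
  have e : ∀ (i : ZMod m) (f : Bool), Nat.mod (code (i, f)) 2 = f.toNat := by
    intro i f
    change (2 * i.val + f.toNat) % 2 = f.toNat
    cases f
    · simp
    · change (2 * i.val + 1) % 2 = 1
      omega
  rw [e, e]
  cases f <;> cases g <;> rfl

private theorem CX4_step {v φ : List ℕ} {V0 : ℕ} {Am : List (List ℕ)} {LL : ℕ}
    {rows : List (List (ℕ × ℕ))}
    (hs : ∀ x y : ZMod m × Bool, stepR m c v φ V0 Am LL rows (code x) (code y) = true)
    {x y : ZMod m × Bool} (hG : StepG (CX4_G c) x y) :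
    0 ≤ fc v φ V0 Am x y ∧ (fc v φ V0 Am x y < LL →
      ∃ t : ℕ, (code y, t) ∈ rows.getD (code x) [] ∧ (t : ℤ) ≤ fc v φ V0 Am x y) := by
  have h1 := hs x y
  unfold stepR at h1
  have h2 : okL (nthF 0 c (Nat.div (exF m (code x)) 2)) (nthF 0 c (Nat.div (enF m (code y)) 2))
      (Nat.beq (Nat.mod (code x) 2) (Nat.mod (code y) 2)) = true := by
    rw [CX4_ex, CX4_en, CX4_par]
    change okL (nthF 0 c (code (exW x) / 2)) (nthF 0 c (code (enW y) / 2)) _ = true
    rw [CX4_code_div, CX4_code_div, nthF_eq, nthF_eq]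
    exact hG
  rw [h2, cond_true] at h1
  simp only [CX4_bif, CX4_bifo, Bool.and_eq_true, Bool.or_eq_true, anyF_eq, nthF_eq,
    List.any_eq_true, CX4_ex, CX4_en] at h1
  obtain ⟨h3, h4⟩ := h1
  have h3' := Nat.le_of_ble_eq_true h3
  have hd : Nat.div (code x) 2 = x.1.val := CX4_code_div x
  rw [hd] at h3' h4
  have hc : fc v φ V0 Am x y =
      ((v.getD x.1.val 0 + φ.getD (code x) 0 +
        (Am.getD (code (exW x)) []).getD (code (enW y)) 0 : ℕ) : ℤ) -
      ((φ.getD (code y) 0 + (Am.getD (code (enW y)) []).getD (code (exW x)) 0 + V0 : ℕ) : ℤ) := by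
    unfold fc stepCost fv fA fφ
    push_cast
    ring
  have h5 : φ.getD (code y) 0 + (Am.getD (code (enW y)) []).getD (code (exW x)) 0 + V0 ≤
      v.getD x.1.val 0 + φ.getD (code x) 0 +
        (Am.getD (code (exW x)) []).getD (code (enW y)) 0 := h3'
  refine ⟨by rw [hc]; omega, fun h6 => ?_⟩
  rcases h4 with h4 | ⟨e, he, h7, h8⟩
  · have h4' := Nat.le_of_ble_eq_true h4
    have h9 : LL + (φ.getD (code y) 0 + (Am.getD (code (enW y)) []).getD (code (exW x)) 0 + V0) ≤
      v.getD x.1.val 0 + φ.getD (code x) 0 +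
        (Am.getD (code (exW x)) []).getD (code (enW y)) 0 := h4'
    rw [hc] at h6
    omega
  · have h8' := Nat.le_of_ble_eq_true h8
    have h9 : e.2 + (φ.getD (code y) 0 + (Am.getD (code (enW y)) []).getD (code (exW x)) 0 + V0) ≤
      v.getD x.1.val 0 + φ.getD (code x) 0 +
        (Am.getD (code (exW x)) []).getD (code (enW y)) 0 := h8'
    refine ⟨e.2, ?_, by rw [hc]; omega⟩
    rw [← Nat.eq_of_beq_eq_true h7]
    exact he

omit [NeZero m] in
private theorem CX4_tele (v φ : List ℕ) (V0 : ℕ) (Am : List (List ℕ))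
    (l : List (ZMod m × Bool)) (x y : ZMod m × Bool) :
    pcost (fc v φ V0 Am) x l y =
      pcost (stepCost (fv v V0) (fA Am)) x l y + fφ φ x - fφ φ y := by
  induction l generalizing x with
  | nil => rfl
  | cons z l ih =>
    change fc v φ V0 Am x z + pcost (fc v φ V0 Am) z l y =
      stepCost (fv v V0) (fA Am) x z + pcost (stepCost (fv v V0) (fA Am)) z l y + fφ φ x - fφ φ y
    rw [ih z, fc]
    ring

private theorem CX4_nonneg {v φ : List ℕ} {V0 : ℕ} {Am : List (List ℕ)} {LL : ℕ}
    {rows : List (List (ℕ × ℕ))}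
    (hs : ∀ x y : ZMod m × Bool, stepR m c v φ V0 Am LL rows (code x) (code y) = true)
    (l : List (ZMod m × Bool)) (x y : ZMod m × Bool) (hP : Pth (StepG (CX4_G c)) x l y) :
    0 ≤ pcost (fc v φ V0 Am) x l y := by
  induction l generalizing x with
  | nil => exact (CX4_step hs hP).1
  | cons z l ih =>
    have h1 := (CX4_step hs hP.1).1
    have h2 := ih z hP.2
    change 0 ≤ fc v φ V0 Am x z + pcost (fc v φ V0 Am) z l y
    linarith

private theorem CX4_tpath {v φ : List ℕ} {V0 : ℕ} {Am : List (List ℕ)} {LL : ℕ}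
    {rows : List (List (ℕ × ℕ))}
    (hs : ∀ x y : ZMod m × Bool, stepR m c v φ V0 Am LL rows (code x) (code y) = true)
    (l : List (ZMod m × Bool)) (x y : ZMod m × Bool) (hP : Pth (StepG (CX4_G c)) x l y)
    (hL : pcost (fc v φ V0 Am) x l y < LL) :
    ∃ t : ℕ, TPath rows (code x) (l.map code) (code y) t ∧ (t : ℤ) ≤ pcost (fc v φ V0 Am) x l y := by
  induction l generalizing x with
  | nil =>
    obtain ⟨t, h1, h2⟩ := (CX4_step hs hP).2 hL
    exact ⟨t, h1, h2⟩
  | cons z l ih =>
    have h1 := CX4_step hs hP.1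
    have h2 := CX4_nonneg hs l z y hP.2
    have h3 : fc v φ V0 Am x z + pcost (fc v φ V0 Am) z l y < LL := hL
    obtain ⟨t1, h4, h5⟩ := h1.2 (by linarith)
    obtain ⟨t2, h6, h7⟩ := ih z hP.2 (by linarith [h1.1])
    refine ⟨t1 + t2, ⟨t1, t2, h4, h6, rfl⟩, ?_⟩
    change ((t1 + t2 : ℕ) : ℤ) ≤ fc v φ V0 Am x z + pcost (fc v φ V0 Am) z l y
    push_cast
    linarith

private theorem CX4_holds (p : List (ZMod m × Bool)) (f : ZMod m → ℝ)
    (h : (p.map fun x => f x.1).sum = 2) :
    Eqn.Holds ((cntv m (p.map code)).map fun x => (x : ℤ), 2) f := by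
  have key : ∑ i : ZMod m, (((p.map code).countP fun x => x / 2 == i.val : ℕ) : ℝ) * f i =
      (p.map fun x => f x.1).sum := by
    clear h
    induction p with
    | nil => simp
    | cons x p ih =>
      rw [List.map_cons, List.map_cons, List.sum_cons, ← ih]
      have h1 : ∀ i : ZMod m, (((code x :: p.map code).countP fun x => x / 2 == i.val : ℕ) : ℝ) * f i =
          (if i = x.1 then f i else 0) +
            (((p.map code).countP fun x => x / 2 == i.val : ℕ) : ℝ) * f i := by
        intro i
        rw [List.countP_cons, CX4_code_div]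
        by_cases h : i = x.1
        · rw [if_pos h, if_pos (by rw [h]; exact beq_self_eq_true _)]
          push_cast
          ring
        · rw [if_neg h, if_neg]
          · simp
          · rw [beq_iff_eq]
            intro h2
            exact h (ZMod.val_injective m h2).symm
      rw [Finset.sum_congr rfl fun i _ => h1 i, Finset.sum_add_distrib]
      rw [Finset.sum_ite_eq' Finset.univ x.1 f, if_pos (Finset.mem_univ _)]
  unfold Eqn.Holds
  have h1 : ∀ i : ZMod m,
      (((((cntv m (p.map code)).map fun x => (x : ℤ)).getD i.val 0 : ℤ) : ℝ) * f i) =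
        (((p.map code).countP fun x => x / 2 == i.val : ℕ) : ℝ) * f i := by
    intro i
    congr 1
    have h2 : i.val < m := ZMod.val_lt i
    have h3 : ((cntv m (p.map code)).map fun x => (x : ℤ)).getD i.val 0 =
        (((p.map code).countP fun x => x / 2 == i.val : ℕ) : ℤ) := by
      have h5 : ((cntv m (p.map code)).map fun x => (x : ℤ)) =
          List.map (fun x : ℕ => (x : ℤ)) (cntv m (p.map code)) := by
        rw [List.map_eq_flatMap (f := fun x : ℕ => (x : ℤ))]
        exact List.map_id _
      rw [h5]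
      unfold cntv
      rw [List.getD_eq_getElem?_getD, List.map_map, List.getElem?_map,
        List.getElem?_range h2]
      rfl
    rw [h3]
    push_cast
    rfl
  rw [Finset.sum_congr rfl fun i _ => h1 i, key, h]
  push_cast
  rfl

end step

/-! ### the node -/

variable {m : ℕ} [NeZero m]

private theorem CX4_sum (f : ℕ → ℕ) :
    ∑ i : ZMod m, f i.val = ∑ i ∈ Finset.range m, f i := by
  obtain ⟨k, rfl⟩ := Nat.exists_eq_succ_of_ne_zero (NeZero.ne m)
  exact Fin.sum_univ_eq_sum_range f (k + 1)

private theorem CX4_sumv {v : List ℕ} (hv : v.length = m) (V0 : ℕ) :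
    ∑ i : ZMod m, fv v V0 i = (v.sum : ℤ) - m * V0 := by
  unfold fv
  rw [Finset.sum_sub_distrib, Finset.sum_const, Finset.card_univ, ZMod.card, nsmul_eq_mul]
  congr 1
  have h1 := CX4_sum (m := m) fun i => v.getD i 0
  have h2 : ∑ i ∈ Finset.range m, v.getD i 0 = v.sum := by
    subst hv
    rw [Finset.sum_range, ← List.sum_ofFn]
    congr 1
    refine List.ext_getElem (by simp) fun i h1 h2 => ?_
    rw [List.getElem_ofFn, List.getD_eq_getElem _ _ h2]
  rw [← h2, ← h1]
  push_cast
  rfl

private theorem CX4_mono {α : Type} {R R' : α → α → Prop} (h : ∀ x y, R x y → R' x y) (l : List α)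
    (x y : α) (hP : Pth R x l y) : Pth R' x l y := by
  induction l generalizing x with
  | nil => exact h _ _ hP
  | cons z l ih => exact ⟨h _ _ hP.1, ih z hP.2⟩

theorem lpX_sound (hm : 3 ≤ m) (hm' : m ≤ 8) {a b : ZMod m → ℝ} {G : ZMod m → ZMod m → Bool → Prop}
    (hW : WX a b G) {w : List ℕ} (hG : ∀ j k c, G j k c → relT w j k c = true) {v φ : List ℕ} {V0 : ℕ}
    {Am : List (List ℕ)} {L fuel : ℕ} {rows : List (List (ℕ × ℕ))} {GS : List (List ℕ)} {T : PTab}
    {r ω ρ : ℕ} {cvs : List (List ℕ)}
    (h : lpX m w v φ V0 Am L fuel rows GS T r ω ρ cvs = true) :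
    ∃ cv ∈ cvs, Eqn.Holds (cv.map fun x => (x : ℤ), 2) a ∧ Eqn.Holds (cv.map fun x => (x : ℤ), 2) b := by
  unfold lpX at h
  simp only [Bool.and_eq_true, CX4_bif, allF_eq, List.all_eq_true] at h
  obtain ⟨⟨⟨⟨⟨⟨⟨⟨⟨hbud, hρ⟩, hno⟩, hGS⟩, hfuel⟩, hvl⟩, hsrt⟩, hcv⟩, hstep⟩, hdfs⟩ := h
  have hρ' : ρ = (m + 1) ^ r * ω := Nat.eq_of_beq_eq_true hρ
  have hρZ : (ρ : ℤ) = ((m : ℤ) + 1) ^ r * ω := by
    rw [hρ']
    push_cast
    rfl
  have hfuel' : fuel ≤ 15 := Nat.le_of_ble_eq_true hfuel
  have hvl' : v.length = m := Nat.eq_of_beq_eq_true hvl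
  have hs : ∀ x y : ZMod m × Bool, stepR m w v φ V0 Am L rows (code x) (code y) = true :=
    fun x y => hstep _ (List.mem_range.2 (CX4_code_lt x)) _ (List.mem_range.2 (CX4_code_lt y))
  have hA : ∀ x y : ZMod m × Bool, fA Am y x = -fA Am x y := by
    intro x y
    unfold fA
    ring
  have hsumv := CX4_sumv hvl' V0
  generalize v.sum = SV at hbud hsumv
  have h1 : 2 * SV + 2 * m * ρ < (m - 2) * L + 2 * m * V0 + 2 * ω := Nat.le_of_ble_eq_true hbud
  obtain ⟨x, l, hcode, hP, hlen, ha, hb, hcost, hgood⟩ := hW GS T r hno (fv v V0) (fA Am) hA (L : ℤ)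
    (ω : ℤ) (by positivity) (by
      rw [hsumv, ← hρZ]
      have h4 : (2 * SV + 2 * (m : ℤ) * ρ : ℤ) < ((m - 2 : ℕ) : ℤ) * L + 2 * m * V0 + 2 * ω := by
        exact_mod_cast h1
      rw [Nat.cast_sub (by omega)] at h4
      push_cast at h4
      linarith)
  have hP' : Pth (StepG (CX4_G w)) x l x := CX4_mono (fun x y hh => hG _ _ _ hh) l x x hP
  have h5 : pcost (fc v φ V0 Am) x l x = pcost (stepCost (fv v V0) (fA Am)) x l x := by
    rw [CX4_tele]
    ring
  obtain ⟨t, h6, h7⟩ := CX4_tpath hs l x x hP' (by rw [h5]; exact hcost)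
  rw [h5] at h7
  have htL : t < L := by
    have : (t : ℤ) < (L : ℕ) := lt_of_le_of_lt h7 hcost
    exact_mod_cast this
  have h8 := hdfs (code x) (List.mem_range.2 (CX4_code_lt x))
  obtain ⟨h9, h9'⟩ := CX4_dfs hsrt (l.map code) fuel (code x) 0 _ _ 1 t h8 h6
    (fun y hy => by
      obtain ⟨z, hz, rfl⟩ := List.mem_map.1 hy
      exact hcode z hz) (by omega)
  rw [List.length_map] at h9 h9'
  -- the path as a list
  set p : List ℕ := ((x :: l).map code) with hpdef
  have hcnt : Nat.pow 16 (Nat.div (code x) 2) + ((l.map code).map fun x => 16 ^ (x / 2)).sum =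
      (p.map fun x => 16 ^ (x / 2)).sum := rfl
  have hwd : (l.map code).foldl (fun x y => 16 * x + y) (Nat.add 16 (code x)) = wdF p := rfl
  rw [hcnt, hwd, Nat.zero_add] at h9
  have hplt : ∀ y ∈ p, y / 2 < m := by
    intro y hy
    obtain ⟨z, -, rfl⟩ := List.mem_map.1 hy
    rw [CX4_code_div]
    exact ZMod.val_lt _
  have hp15 : ∀ y ∈ p, y ≤ 15 := by
    intro y hy
    have := hplt y hy
    omega
  have hplen : p.length = l.length + 1 := by
    rw [hpdef, List.length_map, List.length_cons]
  have hL' : ¬ L ≤ t := by omega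
  unfold accU at h9
  rw [CX4_bifo, Bool.or_eq_true, CX4_bifo, Bool.or_eq_true] at h9
  rcases h9 with h9 | h9 | h9
  · exfalso
    have := Nat.le_of_ble_eq_true h9
    omega
  · rw [anyF_eq, List.any_eq_true] at h9
    obtain ⟨z, hz, h10⟩ := h9
    obtain ⟨cv, hcv1, rfl⟩ := List.mem_map.1 hz
    have h11 : (p.map fun x => 16 ^ (x / 2)).sum = encF cv := Nat.eq_of_beq_eq_true h10
    obtain ⟨h12, h13⟩ := hcv cv hcv1
    have h14 := CX4_inj (Nat.eq_of_beq_eq_true h12)
      (fun y hy => Nat.le_of_ble_eq_true (h13 y hy)) hplt (by omega) h11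
    refine ⟨cv, hcv1, ?_, ?_⟩
    · rw [← h14]
      refine CX4_holds (x :: l) _ ?_
      rw [List.map_cons, List.sum_cons]
      exact ha
    · rw [← h14]
      refine CX4_holds (x :: l) _ ?_
      rw [List.map_cons, List.sum_cons]
      exact hb
  · exfalso
    cases hg : anyF (Nat.beq (wdF p)) (GS.map wdF) with
    | false =>
      rw [hg, cond_false] at h9
      exact hL' (Nat.le_of_ble_eq_true h9)
    | true =>
      rw [hg, cond_true] at h9
      rw [anyF_eq, List.any_eq_true] at hg
      obtain ⟨z, hz, h10⟩ := hg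
      obtain ⟨u, hu, rfl⟩ := List.mem_map.1 hz
      have h11 : p = u := CX4_wdinj hp15
        (fun y hy => Nat.le_of_ble_eq_true (hGS u hu y hy)) (Nat.eq_of_beq_eq_true h10)
      have h12 := hgood (by
        rw [h11]
        exact hu)
      have h14 : L ≤ t + ρ * (1 + l.length) := Nat.le_of_ble_eq_true h9
      have h15 : (L : ℤ) ≤ t + ρ * (1 + l.length) := by exact_mod_cast h14
      have h16 : (ρ : ℤ) * ((l.length : ℤ) + 1) = ρ * (1 + l.length) := by ring
      rw [← hρZ, h16] at h12
      linarith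

end Pool.Agent.Lib_MP_fa6e45
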