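import Pool.Agent.Lib_MP_fa6e45.CX5
import Pool.Agent.Lib_MP_fa6e45.HF1

/-!
MP_fa6e45_co, stage 7: the closing check `geoE`, from the numerical check `gtree` (CX5).
-/

open Set MeasureTheory Complex
open scoped Topology

namespace Pool.Agent.Lib_MP_fa6e45

open Pool.Agent.Lib_PL (cr InSector Poly)

variable {n : ℕ} {P : Polygon n} {m : ℕ} [NeZero m]

/-! ### directions (copies of private lemmas of CS6) -/

/-- sum of the outer angles at the corners `1, .., j` (angles `A` in units of `π`) -/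
private noncomputable def phX6 (A : ZMod m → ℝ) (j : ℕ) : ℝ :=
  ∑ s ∈ Finset.range j, (Real.pi * (1 - A ((s + 1 : ℕ) : ZMod m)))

private theorem dr_x6 (S : Arcs P m) (hm : 2 ≤ m) {a : ZMod m → ℝ} (hch : S.ChordAng a) (j : ℕ) :
    S.ch (j : ZMod m) / (‖S.ch (j : ZMod m)‖ : ℂ) =
      S.ch 0 / (‖S.ch 0‖ : ℂ) * gz (phX6 a j) := by
  induction j with
  | zero =>
    unfold phX6
    rw [Finset.range_zero, Finset.sum_empty, gz_zero, mul_one, Nat.cast_zero]
  | succ j ih =>
    have h1 : phX6 a (j + 1) = phX6 a j + Real.pi * (1 - a ((j + 1 : ℕ) : ZMod m)) := by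
      unfold phX6
      rw [Finset.sum_range_succ]
    rw [h1, gz_add, ← mul_assoc, ← ih]
    have h2 := hch.dir hm (j : ZMod m)
    have h3 : ((j + 1 : ℕ) : ZMod m) = (j : ZMod m) + 1 := by push_cast; rfl
    rw [h3]
    exact h2

private theorem sum_x6 (S : Arcs P m) : ∑ j : ZMod m, S.ch j = 0 := by
  unfold Arcs.ch
  rw [Finset.sum_sub_distrib]
  have h := Equiv.sum_comp (Equiv.addRight (1 : ZMod m)) S.V
  simp only [Equiv.coe_addRight] at h
  rw [h, sub_self]

private theorem single_x6 (f : ZMod m → ℝ) {x : ℕ} (hx : x < m) (e : ℝ) :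
    ∑ i : ZMod m, (if i.val = x then e else 0) * f i = e * f ((x : ℕ) : ZMod m) := by
  rw [Finset.sum_eq_single ((x : ℕ) : ZMod m)]
  · rw [ZMod.val_natCast_of_lt hx, if_pos rfl]
  · intro i _ hi
    rw [if_neg, zero_mul]
    intro h
    apply hi
    rw [← h, ZMod.natCast_zmod_val]
  · intro h
    exact absurd (Finset.mem_univ _) h

private theorem gder_x6 {A : ZMod m → ℝ} {eqs : List Eqn} (hE : ∀ E ∈ eqs, Eqn.Holds E A) {D : ℤ}
    {f : ℕ} (hf : f < m) {lin : List (ℤ × ℤ)} {cs : List (ℤ × List ℤ)}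
    (h : gder m eqs D f lin cs = true) {j : ℕ} (hj : j < m) :
    (D : ℝ) * A (j : ZMod m) = (lin.getD j (0, 0)).1 + (lin.getD j (0, 0)).2 * A (f : ZMod m) := by
  unfold gder at h
  rw [List.all_eq_true] at h
  have h0 := h j (List.mem_range.2 hj)
  rw [Bool.and_eq_true, Bool.and_eq_true, List.all_eq_true, bne_iff_ne, beq_iff_eq] at h0
  obtain ⟨⟨h1, h2⟩, h3⟩ := h0
  obtain ⟨c, hc⟩ : ∃ c, c = cs.getD j (0, []) := ⟨_, rfl⟩
  obtain ⟨l, hl⟩ : ∃ l, l = lin.getD j (0, 0) := ⟨_, rfl⟩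
  rw [← hc] at h1 h2 h3
  rw [← hl] at h2 h3
  rw [← hl]
  have hlc := lc_holds hE c.2
  have h5 : ∀ i : ZMod m, ((lcCo c.2 eqs i.val : ℤ) : ℝ) * A i =
      (c.1 : ℝ) * ((if i.val = j then (D : ℝ) else 0) * A i -
        (if i.val = f then (l.2 : ℝ) else 0) * A i) := by
    intro i
    have h6 := h2 i.val (List.mem_range.2 (ZMod.val_lt i))
    rw [beq_iff_eq] at h6
    rw [h6]
    push_cast
    ring
  rw [Finset.sum_congr rfl (fun i _ => h5 i), ← Finset.mul_sum, Finset.sum_sub_distrib,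
    single_x6 A hj, single_x6 A hf, h3] at hlc
  push_cast at hlc
  have h7 : (c.1 : ℝ) ≠ 0 := by exact_mod_cast h1
  have h8 := mul_left_cancel₀ h7 hlc
  linarith

/-- the partial sums in `gdirs` -/
private def gsc_x6 (D : ℤ) : ℤ × ℤ → List (ℤ × ℤ) → List (ℤ × ℤ)
  | _, [] => []
  | p, c :: l => (p.1 + D - c.1, p.2 - c.2) :: gsc_x6 D (p.1 + D - c.1, p.2 - c.2) l

private theorem gfold_x6 (D : ℤ) (l : List (ℤ × ℤ)) (p : ℤ × ℤ) (acc : List (ℤ × ℤ)) :
    (l.foldl (fun (x : (ℤ × ℤ) × List (ℤ × ℤ)) (c : ℤ × ℤ) =>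
      ((x.1.1 + D - c.1, x.1.2 - c.2), x.2 ++ [(x.1.1 + D - c.1, x.1.2 - c.2)])) (p, acc)).2 =
      acc ++ gsc_x6 D p l := by
  induction l generalizing p acc with
  | nil => simp [gsc_x6]
  | cons c l ih =>
    rw [List.foldl_cons, ih]
    simp [gsc_x6]

private theorem gdirs_x6 (D : ℤ) (lin : List (ℤ × ℤ)) :
    gdirs D lin = (0, 0) :: gsc_x6 D (0, 0) lin.tail := by
  unfold gdirs
  rw [gfold_x6]
  rfl

private theorem gsc_len_x6 (D : ℤ) (p : ℤ × ℤ) (l : List (ℤ × ℤ)) :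
    (gsc_x6 D p l).length = l.length := by
  induction l generalizing p with
  | nil => rfl
  | cons c l ih =>
    show (gsc_x6 D _ l).length + 1 = l.length + 1
    rw [ih]

private theorem gsc_get_x6 (D : ℤ) (p : ℤ × ℤ) (l : List (ℤ × ℤ)) (j : ℕ) (hj : j < l.length) :
    (p :: gsc_x6 D p l).getD (j + 1) (0, 0) =
      (((p :: gsc_x6 D p l).getD j (0, 0)).1 + D - (l.getD j (0, 0)).1,
        ((p :: gsc_x6 D p l).getD j (0, 0)).2 - (l.getD j (0, 0)).2) := by
  induction l generalizing p j with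
  | nil => exact absurd hj (by simp)
  | cons c l ih =>
    cases j with
    | zero => rfl
    | succ j =>
      exact ih (p.1 + D - c.1, p.2 - c.2) j (by simpa using hj)

/-- number of directions -/
theorem gdirs_lenX (D : ℤ) {lin : List (ℤ × ℤ)} (hl : lin.length = m) :
    (gdirs D lin).length = m := by
  have hm := NeZero.pos m
  rw [gdirs_x6, List.length_cons, gsc_len_x6, List.length_tail, hl]
  omega

omit [NeZero m] in
private theorem phi_x6 (A : ZMod m → ℝ) {D : ℤ} {lin : List (ℤ × ℤ)} (hl : lin.length = m) {t : ℝ}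
    (hA : ∀ j < m, (D : ℝ) * A (j : ZMod m) =
      (lin.getD j (0, 0)).1 + (lin.getD j (0, 0)).2 * t) (j : ℕ) (hj : j < m) :
    (D : ℝ) * phX6 A j = Real.pi * (((gdirs D lin).getD j (0, 0)).1 +
      ((gdirs D lin).getD j (0, 0)).2 * t) := by
  induction j with
  | zero =>
    rw [gdirs_x6]
    unfold phX6
    simp
  | succ j ih =>
    have ih' := ih (by omega)
    have h1 : phX6 A (j + 1) = phX6 A j + Real.pi * (1 - A ((j + 1 : ℕ) : ZMod m)) := by
      unfold phX6
      rw [Finset.sum_range_succ]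
    have h2 : (gdirs D lin).getD (j + 1) (0, 0) =
        (((gdirs D lin).getD j (0, 0)).1 + D - (lin.getD (j + 1) (0, 0)).1,
          ((gdirs D lin).getD j (0, 0)).2 - (lin.getD (j + 1) (0, 0)).2) := by
      have h3 : lin.getD (j + 1) (0, 0) = lin.tail.getD j (0, 0) := by
        cases lin with
        | nil => rfl
        | cons c l => rfl
      rw [gdirs_x6, h3]
      refine gsc_get_x6 D (0, 0) lin.tail j ?_
      rw [List.length_tail, hl]
      omega
    have h4 := hA (j + 1) hj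
    have h5 : (D : ℝ) * (Real.pi * A ((j + 1 : ℕ) : ZMod m)) =
        Real.pi * ((lin.getD (j + 1) (0, 0)).1 + (lin.getD (j + 1) (0, 0)).2 * t) := by
      rw [← h4]
      ring
    have h6 : (D : ℝ) * (Real.pi * (1 - A ((j + 1 : ℕ) : ZMod m))) =
        D * Real.pi - D * (Real.pi * A ((j + 1 : ℕ) : ZMod m)) := by ring
    rw [h1, h2, mul_add, ih', h6, h5]
    push_cast
    ring

/-! ### all chords have the same length -/

private theorem norm_rel_x6 (S : Arcs P m) {j k : ZMod m} {c : Bool} (h : S.Rel j k c) :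
    ‖S.ch j‖ = ‖S.ch k‖ := by
  cases c
  · exact S.norm_minus (by simpa [Arcs.Rel] using h)
  · exact S.norm_plus (by simpa [Arcs.Rel] using h)

private theorem norm_cls_x6 (S : Arcs P m) {w : List ℕ}
    (hrel : ∀ j k c, relT w j k c = true → S.Rel j k c) (h : clsB m w = true) (j : ZMod m) :
    ‖S.ch j‖ = ‖S.ch 0‖ := by
  unfold clsB at h
  rw [List.all_eq_true] at h
  have h1 := h j.val (List.mem_range.2 (ZMod.val_lt j))
  rw [List.any_eq_true] at h1
  obtain ⟨k, hk, h2⟩ := h1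
  have hk' : k < m := List.mem_range.1 hk
  have hR : ∀ (x y : ZMod m) (x' y' : ℕ), x.val = x' → y.val = y' →
      (okL (nthF 0 w x') (nthF 0 w y') true || okL (nthF 0 w x') (nthF 0 w y') false || x' == y') = true →
      ‖S.ch x‖ = ‖S.ch y‖ := by
    intro x y x' y' hx hy h3
    simp only [Bool.or_eq_true, beq_iff_eq] at h3
    rw [nthF_eq, nthF_eq, ← hx, ← hy] at h3
    rcases h3 with (h3 | h3) | h3
    · exact norm_rel_x6 S (hrel x y true h3)
    · exact norm_rel_x6 S (hrel x y false h3)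
    · rw [ZMod.val_injective m h3]
  rw [Bool.and_eq_true] at h2
  have e1 : ‖S.ch 0‖ = ‖S.ch (k : ZMod m)‖ := by
    refine hR 0 (k : ZMod m) 0 k ZMod.val_zero (ZMod.val_natCast_of_lt hk') ?_
    have h3 := h2.1
    simp only [Bool.or_eq_true, beq_iff_eq] at h3 ⊢
    rcases h3 with h3 | h3
    · exact Or.inl h3
    · exact Or.inr h3.symm
  have e2 : ‖S.ch (k : ZMod m)‖ = ‖S.ch j‖ :=
    hR (k : ZMod m) j k j.val (ZMod.val_natCast_of_lt hk') rfl h2.2
  rw [e1, e2]

private theorem pred_x6 (i : ZMod m) : (i.val + (m - 1)) % m = (i - 1).val := by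
  have h : i - 1 = ((i.val + (m - 1) : ℕ) : ZMod m) := by
    have hm : 1 ≤ m := Nat.one_le_iff_ne_zero.2 (NeZero.ne m)
    push_cast [Nat.cast_sub hm]
    rw [ZMod.natCast_zmod_val, CharP.cast_eq_zero]
    ring
  rw [h, ZMod.val_natCast]

theorem pluB_plus (S : Arcs P m) {w : List ℕ}
    (hrel : ∀ j k c, relT w j k c = true → S.Rel j k c) (h : pluB m w = true) (j : ZMod m) :
    S.Plus (j - 1) j := by
  have h3 : S.Rel (j - 1) j true := by
    apply hrel
    unfold pluB at h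
    rw [List.all_eq_true] at h
    have h5 := h j.val (List.mem_range.2 (ZMod.val_lt j))
    rw [nthF_eq, nthF_eq, pred_x6] at h5
    exact h5
  simpa [Arcs.Rel] using h3

private theorem norm_plu_x6 (S : Arcs P m) {w : List ℕ}
    (hrel : ∀ j k c, relT w j k c = true → S.Rel j k c) (h : pluB m w = true) (j : ZMod m) :
    ‖S.ch j‖ = ‖S.ch 0‖ := by
  have hnorm : ∀ k : ℕ, ‖S.ch (k : ZMod m)‖ = ‖S.ch 0‖ := by
    intro k
    induction k with
    | zero => rw [Nat.cast_zero]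
    | succ k ih =>
      have h3 := Arcs.norm_plus S (pluB_plus S hrel h ((k + 1 : ℕ) : ZMod m))
      rw [← h3, Nat.cast_succ, add_sub_cancel_right]
      exact ih
  have h3 := hnorm j.val
  rwa [ZMod.natCast_zmod_val] at h3

/-! ### the check -/

private theorem gz_int_x6 (x : ℝ) (k : ℤ) : gz (x - 2 * Real.pi * k) = gz x := by
  unfold gz
  have h : ((x - 2 * Real.pi * k : ℝ) : ℂ) * Complex.I =
      (x : ℂ) * Complex.I - k * (2 * Real.pi * Complex.I) := by
    push_cast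
    ring
  rw [h, Complex.exp_sub, Complex.exp_int_mul_two_pi_mul_I, div_one]

theorem geoX_core (S : Arcs P m) (hm : 3 ≤ m) {b : ZMod m → ℝ} (hch : S.ChordAng b) {w : List ℕ}
    (hrel : ∀ j k c, relT w j k c = true → S.Rel j k c) {eqs : List Eqn}
    (hE : ∀ E ∈ eqs, Eqn.Holds E b) {bd : Bool} {d : ℤ} {f : ℕ} {lin : List (ℤ × ℤ)}
    {cs : List (ℤ × List ℤ)} {s1 s2 : ℤ} {tr : GT} {pts : List GPt}
    (hbd : bd = true → ∀ j, 0 < b j ∧ b j < 2)
    (h : geoE m w eqs bd d f lin cs s1 s2 tr pts = true)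
    (hpt : ∀ x ∈ pts, 0 < x.q ∧ vanB d (gdirs d lin) x.p x.q 0 m x.gr = true) :
    0 < d ∧ f < m ∧ lin.length = m ∧ ∃ x ∈ pts, ∃ φ : ℕ → ℝ, ∃ r : ℂ, r ≠ 0 ∧
      (∀ j < m, S.ch (j : ZMod m) = r * gz (φ j)) ∧
      (∀ j < m, (d : ℝ) * φ j = Real.pi * (((gdirs d lin).getD j (0, 0)).1 +
        ((gdirs d lin).getD j (0, 0)).2 * ((x.p : ℝ) / x.q))) ∧
      (bd = true → b (f : ZMod m) = (x.p : ℝ) / x.q ∧ ∀ j < m, (d : ℝ) * b (j : ZMod m) =
        (lin.getD j (0, 0)).1 + (lin.getD j (0, 0)).2 * ((x.p : ℝ) / x.q)) := by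
  unfold geoE at h
  rw [Bool.and_eq_true, Bool.and_eq_true, Bool.and_eq_true, Bool.and_eq_true, Bool.and_eq_true,
    decide_eq_true_eq, decide_eq_true_eq, beq_iff_eq] at h
  obtain ⟨⟨⟨⟨⟨hd, hf⟩, hl⟩, hg⟩, hc⟩, ht⟩ := h
  refine ⟨hd, hf, hl, ?_⟩
  have hd' : (0 : ℝ) < d := by exact_mod_cast hd
  have hpi := Real.pi_pos
  have hlen := gdirs_lenX (m := m) d hl
  have hlin : ∀ j < m, (d : ℝ) * b (j : ZMod m) =
      (lin.getD j (0, 0)).1 + (lin.getD j (0, 0)).2 * b (f : ZMod m) :=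
    fun j hj => gder_x6 hE hf hg hj
  have hphi := phi_x6 b hl (t := b (f : ZMod m)) hlin
  have hnorm : ∀ j : ZMod m, ‖S.ch j‖ = ‖S.ch 0‖ := by
    cases bd
    · rw [if_neg (by simp), Bool.and_eq_true, Bool.and_eq_true, Bool.and_eq_true] at hc
      exact norm_cls_x6 S hrel hc.1.1.1
    · rw [if_pos rfl, Bool.and_eq_true, Bool.and_eq_true] at hc
      exact norm_plu_x6 S hrel hc.1.1
  have h0 : S.ch 0 ≠ 0 := S.ch_ne (by omega) 0
  have hn0 : (‖S.ch 0‖ : ℂ) ≠ 0 := by
    have := norm_pos_iff.2 h0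
    exact_mod_cast this.ne'
  have hchz : ∀ j : ℕ, S.ch (j : ZMod m) = S.ch 0 * gz (phX6 b j) := by
    intro j
    have h1 := dr_x6 S (by omega) hch j
    rw [hnorm, div_mul_eq_mul_div] at h1
    exact (div_left_inj' hn0).1 h1
  have hsum : ∑ j ∈ Finset.range m, gz (phX6 b j) = 0 := by
    have h1 := sum_x6 S
    have h2 : ∑ j : ZMod m, S.ch j = ∑ j ∈ Finset.range m, S.ch (j : ZMod m) := by
      refine Finset.sum_bij (fun j _ => j.val) ?_ ?_ ?_ ?_
      · intro j _
        exact Finset.mem_range.2 (ZMod.val_lt j)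
      · intro j _ k _ h
        exact ZMod.val_injective m h
      · intro q hq
        refine ⟨(q : ZMod m), Finset.mem_univ _, ?_⟩
        exact ZMod.val_natCast_of_lt (Finset.mem_range.1 hq)
      · intro j _
        rw [ZMod.natCast_zmod_val]
    rw [h2, Finset.sum_congr rfl (fun j _ => hchz j), ← Finset.mul_sum, mul_eq_zero] at h1
    exact h1.resolve_left h0
  have hz : ∀ x ∈ pts.map (fun x : GPt => ((x.p, x.q) : ℤ × ℤ)), ∀ ψ : ℕ → ℝ,
      (∀ j < (gdirs d lin).length, (d : ℝ) * ψ j = Real.pi * (((gdirs d lin).getD j (0, 0)).1 +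
        ((gdirs d lin).getD j (0, 0)).2 * (((x.1 : ℤ) : ℝ) / ((x.2 : ℤ) : ℝ)))) →
        ∑ j ∈ Finset.range (gdirs d lin).length, gz (ψ j) = 0 := by
    intro x hx ψ hψ
    rw [List.mem_map] at hx
    obtain ⟨y, hy, rfl⟩ := hx
    have h1 := vanB_sound hd (hpt y hy).1 (hpt y hy).2 (φ := ψ) (fun j hj => by
      rw [Nat.zero_add]
      exact hψ j (by rw [hlen]; exact hj))
    rw [hlen]
    simpa using h1
  have hq : ∀ x ∈ pts.map (fun x : GPt => ((x.p, x.q) : ℤ × ℤ)), 0 < x.2 := by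
    intro x hx
    rw [List.mem_map] at hx
    obtain ⟨y, hy, rfl⟩ := hx
    exact (hpt y hy).1
  cases bd
  · -- the angles are known modulo `2` only
    rw [if_neg (by simp), Bool.and_eq_true, Bool.and_eq_true, Bool.and_eq_true, beq_iff_eq,
      beq_iff_eq, List.all_eq_true] at hc
    obtain ⟨⟨⟨-, hdv⟩, e1⟩, e2⟩ := hc
    subst e1 e2
    rw [if_neg (by simp)] at ht
    obtain ⟨k, hk⟩ : ∃ k : ℤ, k = ⌊b (f : ZMod m) / 2⌋ := ⟨_, rfl⟩
    have hk1 : (k : ℝ) ≤ b (f : ZMod m) / 2 := by rw [hk]; exact Int.floor_le _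
    have hk2 : b (f : ZMod m) / 2 < k + 1 := by rw [hk]; exact Int.lt_floor_add_one _
    -- the integers `β j / d`
    have hβ : ∀ j < m, ∃ c : ℤ, ((gdirs d lin).getD j (0, 0)).2 = d * c := by
      intro j hj
      have h1 : j < (gdirs d lin).length := by rw [hlen]; exact hj
      have h2 := hdv _ (List.getElem_mem h1)
      rw [beq_iff_eq] at h2
      rw [List.getD_eq_getElem _ _ h1]
      exact ⟨_, (Int.mul_ediv_cancel' (Int.dvd_of_emod_eq_zero h2)).symm⟩
    choose! c hc using hβ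
    have hφ1 : ∀ j < m, (d : ℝ) * (phX6 b j - 2 * Real.pi * ((c j * k : ℤ) : ℝ)) =
        Real.pi * (((gdirs d lin).getD j (0, 0)).1 +
        ((gdirs d lin).getD j (0, 0)).2 * (b (f : ZMod m) - 2 * k)) := by
      intro j hj
      rw [mul_sub, hphi j hj, hc j hj]
      push_cast
      ring
    have hφ2 : ∀ j, gz (phX6 b j - 2 * Real.pi * ((c j * k : ℤ) : ℝ)) = gz (phX6 b j) :=
      fun j => gz_int_x6 _ _
    obtain ⟨x, hx, hxt⟩ := gtree_sound hd (φ := fun j => phX6 b j - 2 * Real.pi * ((c j * k : ℤ) : ℝ))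
      (t := b (f : ZMod m) - 2 * k)
      (fun j hj => hφ1 j (by rw [hlen] at hj; exact hj))
      (by rw [hlen]; simp only [hφ2]; exact hsum) (lin := []) (by simp) hq hz
      (s1 := 0) (s2 := 2097152) (by push_cast; linarith) (by push_cast; linarith) ht
    rw [List.mem_map] at hx
    obtain ⟨y, hy, rfl⟩ := hx
    refine ⟨y, hy, fun j => phX6 b j - 2 * Real.pi * ((c j * k : ℤ) : ℝ), S.ch 0, h0, ?_, ?_, ?_⟩
    · intro j _
      rw [hφ2]
      exact hchz j
    · intro j hj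
      rw [hφ1 j hj, hxt]
    · intro h1
      exact absurd h1 (by simp)
  · rw [if_pos rfl, Bool.and_eq_true, Bool.and_eq_true, Bool.or_eq_true, Bool.or_eq_true,
      beq_iff_eq, beq_iff_eq] at hc
    obtain ⟨⟨-, g1⟩, g2⟩ := hc
    rw [if_pos rfl] at ht
    have hb := hbd rfl
    have hln : ∀ c ∈ lin, 0 < (c.1 : ℝ) + c.2 * b (f : ZMod m) ∧
        (c.1 : ℝ) + c.2 * b (f : ZMod m) < 2 * d := by
      intro c hc
      obtain ⟨j, hj, rfl⟩ := List.mem_iff_getElem.1 hc
      have hj' : j < m := by rwa [hl] at hj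
      have h1 := hlin j hj'
      rw [List.getD_eq_getElem _ _ hj] at h1
      have h2 := hb (j : ZMod m)
      rw [← h1]
      constructor
      · exact mul_pos hd' h2.1
      · nlinarith [h2.2]
    have hbf := hb (f : ZMod m)
    have k1 : (s1 : ℝ) ≤ b (f : ZMod m) * 1048576 := by
      rcases g1 with g1 | g1
      · rw [g1]
        push_cast
        linarith
      · by_contra hcon
        push Not at hcon
        exact gbnd_sound hln (s1 := 0) (s2 := s1) (by push_cast; linarith) hcon.le g1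
    have k2 : b (f : ZMod m) * 1048576 ≤ s2 := by
      rcases g2 with g2 | g2
      · rw [g2]
        push_cast
        linarith
      · by_contra hcon
        push Not at hcon
        exact gbnd_sound hln (s1 := s2) (s2 := 2097152) hcon.le (by push_cast; linarith) g2
    obtain ⟨x, hx, hxt⟩ := gtree_sound hd (φ := phX6 b) (t := b (f : ZMod m))
      (fun j hj => hphi j (by rw [hlen] at hj; exact hj)) (by rw [hlen]; exact hsum) hln hq hz k1 k2 ht
    rw [List.mem_map] at hx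
    obtain ⟨y, hy, rfl⟩ := hx
    refine ⟨y, hy, phX6 b, S.ch 0, h0, fun j _ => hchz j, ?_, ?_⟩
    · intro j hj
      rw [hphi j hj, hxt]
    · intro _
      refine ⟨hxt, fun j hj => ?_⟩
      rw [hlin j hj, hxt]

end Pool.Agent.Lib_MP_fa6e45
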