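import Pool.Agent.Lib_MP_fa6e45.CX1
import Pool.Agent.Lib_MP_fa6e45.CX2
import Pool.Agent.Lib_MP_fa6e45.CX4
import Pool.Agent.Lib_MP_fa6e45.CX6
import Pool.Agent.Lib_MP_fa6e45.CU7

/-!
MP_fa6e45_co, stage 7: soundness of the nodes and of certificates (from CX1, CX2, CX4, CX6; compare CU7).
-/

open Set MeasureTheory Complex
open scoped Topology

namespace Pool.Agent.Lib_MP_fa6e45

open Pool.Agent.Lib_PL (cr InSector Poly)

variable {n : ℕ} {m : ℕ} [NeZero m]

/-- the principle for walks with good stars -/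
theorem SitU.wx {w : List ℕ} {P : Polygon n} {S : Arcs P m} {b : ZMod m → ℝ} (M : SitU w P S b) :
    WX (fun j => P.ang (S.κ j) / Real.pi) b S.Rel := by
  obtain ⟨σ, ε, hp, hm, hb⟩ := M.off
  obtain ⟨ι, ⟨K⟩⟩ := M.comb
  have hp' : ∀ j k, S.Rel j k true → σ j = ε k ∧ ε j = σ k := fun j k h =>
    hp j k (by simpa [Arcs.Rel] using h)
  have hm' : ∀ j k, S.Rel j k false → σ j = -σ k ∧ ε j = -ε k := fun j k h =>
    hm j k (by simpa [Arcs.Rel] using h)
  have hb' : b = fun j => P.ang (S.κ j) / Real.pi + σ j - ε (j - 1) := funext hb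
  rw [hb']
  intro GS T r hno v A hA L ω hω hv
  exact K.gapB σ ε hp' hm' GS r (fun t => K.noPatch_sound hno t) v A hA L ω hω hv

/-! ### auxiliary facts -/

private theorem CX7_mdl {w : List ℕ} {P : Polygon n} {S : Arcs P m} {b : ZMod m → ℝ}
    (M : SitU w P S b) : MdlB (fun j : ZMod m => j.val)
    (fun j => P.ang (S.κ j) / Real.pi) (fun j => P.ang (S.κ j) / Real.pi)
    (fun j k b => j = k ∧ b = true) where
  a_pos := fun i => div_pos (P.ang_pos _) Real.pi_pos
  a_lt := fun i => by
    rw [div_lt_iff₀ Real.pi_pos]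
    exact P.ang_lt _
  a_ne := fun i h => by
    rw [div_eq_one_iff_eq Real.pi_ne_zero] at h
    exact P.ang_ne _ h
  a_sum := M.a_sum
  b_sum := M.a_sum
  cls_eq := fun j k b h => by rw [h.1]
  single := fun j _ => Or.inr ⟨⟨rfl, rfl⟩, fun k b h => ⟨h.1.symm, h.2⟩⟩
  twins := fun j k h h' => absurd (ZMod.val_injective m h') h
  three := fun i j k h _ _ h' => h (ZMod.val_injective m h'.1)

omit [NeZero m] in
private theorem CX7_derG {σ σ' : ℕ → ℕ} (hσ : ∀ x < m, σ x = σ' x) {eqs : List Eqn}
    {Es : List Eqn} {cs : List (ℤ × List ℤ)} (h : derG m eqs σ Es cs = true) :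
    derG m eqs σ' Es cs = true := by
  induction Es generalizing cs with
  | nil => cases cs with
    | nil => rfl
    | cons c cs =>
      unfold derG at h
      exact absurd h (by simp)
  | cons E Es ih => cases cs with
    | nil =>
      unfold derG at h
      exact absurd h (by simp)
    | cons c cs =>
      unfold derG at h ⊢
      rw [Bool.and_eq_true, Bool.and_eq_true, Bool.and_eq_true] at h ⊢
      obtain ⟨⟨⟨h1, h2⟩, h3⟩, h4⟩ := h
      refine ⟨⟨⟨h1, ?_⟩, h3⟩, ih h4⟩
      rw [List.all_eq_true] at h2 ⊢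
      intro x hx
      rw [← hσ x (List.mem_range.1 hx)]
      exact h2 x hx

omit [NeZero m] in
private theorem CX7_siC (r : Bool) (s i : ZMod m) : siC r s (sgP r s i) = i := by
  rw [show sgP r s i = sgC r s i from rfl]
  unfold siC sgC
  cases r <;> simp

/-- equations after a symmetry -/
private theorem CX7_tr {a : ZMod m → ℝ} {r : Bool} {s : ZMod m} {eqs Es : List Eqn}
    {cs : List (ℤ × List ℤ)} {σ : ℕ → ℕ} (hσ : ∀ x < m, σ x = (sgC r s (x : ZMod m)).val)
    (h : ∀ E ∈ eqs, Eqn.Holds E a) (hd : derG m eqs σ Es cs = true) :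
    ∀ E ∈ Es, Eqn.Holds E fun j => a (siC r s j) := by
  refine derG_sound (a := a) (σ := sgP r s) (fun i => ?_) h (CX7_derG hσ hd)
  show a (siC r s (sgP r s i)) = a i
  rw [CX7_siC]

private theorem CX7_ch {w : List ℕ} {P : Polygon n} {S : Arcs P m} {b : ZMod m → ℝ}
    (M : SitU w P S b) {sy : List (Bool × ℕ × List ℕ)} (hsy : ∀ g ∈ sy, symT m w g = true)
    {D : ℕ → List Eqn} {i : ℕ} (hD : ∀ j < i, NodeU m w (D j)) {eqs : List Eqn}
    (ha : ∀ E ∈ eqs, Eqn.Holds E fun j => P.ang (S.κ j) / Real.pi)
    (hb : ∀ E ∈ eqs, Eqn.Holds E b) {cvs : List (List ℕ)}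
    {ch : List HCf} (hc : chF m sy D i eqs cvs ch = true) {cv : List ℕ} (hcv : cv ∈ cvs)
    (hha : Eqn.Holds (cv.map fun x => (x : ℤ), 2) fun j => P.ang (S.κ j) / Real.pi)
    (hhb : Eqn.Holds (cv.map fun x => (x : ℤ), 2) b) :
    HasPeriodic P := by
  induction cvs generalizing ch with
  | nil => exact absurd hcv List.not_mem_nil
  | cons cv0 cvs ih =>
    cases ch with
    | nil =>
      unfold chF at hc
      exact absurd hc (by simp)
    | cons c ch =>
      unfold chF at hc
      rw [Bool.and_eq_true] at hc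
      rcases List.mem_cons.1 hcv with rfl | hcv
      · have heqa : ∀ E ∈ ((cv.map fun x => (x : ℤ), 2) : Eqn) :: eqs,
            Eqn.Holds E fun j => P.ang (S.κ j) / Real.pi := by
          intro E hE
          rcases List.mem_cons.1 hE with rfl | hE
          · exact hha
          · exact ha E hE
        have heqb : ∀ E ∈ ((cv.map fun x => (x : ℤ), 2) : Eqn) :: eqs, Eqn.Holds E b := by
          intro E hE
          rcases List.mem_cons.1 hE with rfl | hE
          · exact hhb
          · exact hb E hE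
        have h1 := hc.1
        cases c with
        | contra ls => exact (contra_B (CX7_mdl M) heqa h1).elim
        | ref idx g ds =>
          simp only [Bool.and_eq_true] at h1
          obtain ⟨⟨h2, h3⟩, h4⟩ := h1
          have h2' : idx < i := Nat.le_of_ble_eq_true h2
          have h3' : g < sy.length := Nat.le_of_ble_eq_true h3
          have h5 := symT_sound (m := m) (hsy _ (List.getElem_mem h3'))
          rw [nthF_eq, List.getD_eq_getElem _ _ h3'] at h4
          set e := sy[g] with he
          obtain ⟨h6, h7⟩ := h5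
          obtain ⟨P', S', M', hang, hper⟩ := M.dih e.1 (e.2.1 : ZMod m) h6
          have hσ : ∀ x < m, nthF 0 e.2.2 x = (sgC e.1 (e.2.1 : ZMod m) (x : ZMod m)).val := by
            intro x hx
            rw [nthF_eq]
            exact h7 x hx
          refine hper (hD idx h2' P' S' _ M' ?_ (CX7_tr hσ heqb h4))
          have h8 := CX7_tr hσ heqa h4
          have e1 : (fun j => P'.ang (S'.κ j) / Real.pi) =
              fun j => P.ang (S.κ (siC e.1 (e.2.1 : ZMod m) j)) / Real.pi := by
            funext j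
            rw [hang]
          rw [e1]
          exact h8
      · exact ih hc.2 hcv

/-! ### exceptional parameters -/

private theorem CX7_one {w : List ℕ} {P : Polygon n} {S : Arcs P m} {b : ZMod m → ℝ}
    (M : SitU w P S b) {sy : List (Bool × ℕ × List ℕ)} (hsy : ∀ g ∈ sy, symT m w g = true)
    {D : ℕ → List Eqn} {i : ℕ} (hD : ∀ j < i, NodeU m w (D j)) {eqs : List Eqn}
    (ha : ∀ E ∈ eqs, Eqn.Holds E fun j => P.ang (S.κ j) / Real.pi)
    (hb : ∀ E ∈ eqs, Eqn.Holds E b) {c : HCf}
    (h1 : (match c with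
        | HCf.contra ls => contraB m eqs ls
        | HCf.ref idx g cs => Nat.blt idx i && Nat.blt g sy.length &&
            derG m eqs (fun y => nthF 0 (nthF (false, 0, []) sy g).2.2 y) (D idx) cs) = true) :
    HasPeriodic P := by
  cases c with
  | contra ls => exact (contra_B (CX7_mdl M) ha h1).elim
  | ref idx g ds =>
    simp only [Bool.and_eq_true] at h1
    obtain ⟨⟨h2, h3⟩, h4⟩ := h1
    have h2' : idx < i := Nat.le_of_ble_eq_true h2
    have h3' : g < sy.length := Nat.le_of_ble_eq_true h3
    have h5 := symT_sound (m := m) (hsy _ (List.getElem_mem h3'))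
    rw [nthF_eq, List.getD_eq_getElem _ _ h3'] at h4
    set e := sy[g] with he
    obtain ⟨h6, h7⟩ := h5
    obtain ⟨P', S', M', hang, hper⟩ := M.dih e.1 (e.2.1 : ZMod m) h6
    have hσ : ∀ x < m, nthF 0 e.2.2 x = (sgC e.1 (e.2.1 : ZMod m) (x : ZMod m)).val := by
      intro x hx
      rw [nthF_eq]
      exact h7 x hx
    refine hper (hD idx h2' P' S' _ M' ?_ (CX7_tr hσ hb h4))
    have h8 := CX7_tr hσ ha h4
    have e1 : (fun j => P'.ang (S'.κ j) / Real.pi) =
        fun j => P.ang (S.κ (siC e.1 (e.2.1 : ZMod m) j)) / Real.pi := by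
      funext j
      rw [hang]
    rw [e1]
    exact h8

private theorem CX7_V_ne {P : Polygon n} (S : Arcs P m) {i k : ℕ} (h0 : 0 < k) (hk : k < m) :
    S.V ((i + k : ℕ) : ZMod m) ≠ S.V (i : ZMod m) := by
  have hκ : ∀ k : ℕ, S.κ ((i + k : ℕ) : ZMod m) =
      S.κ (i : ZMod m) + ((∑ j ∈ Finset.range k, S.w ((i + j : ℕ) : ZMod m) : ℕ) : ZMod n) := by
    intro k
    induction k with
    | zero => simp
    | succ k ih =>
      rw [Finset.sum_range_succ, ← Nat.add_assoc, Nat.cast_succ, S.step, ih]
      push_cast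
      ring
  intro h
  have h1 := P.injective h
  rw [hκ k] at h1
  have h2 : ((∑ j ∈ Finset.range k, S.w ((i + j : ℕ) : ZMod m) : ℕ) : ZMod n) = 0 := by
    have h3 : S.κ (i : ZMod m) + ((∑ j ∈ Finset.range k, S.w ((i + j : ℕ) : ZMod m) : ℕ) : ZMod n) =
        S.κ (i : ZMod m) + 0 := by rw [h1, add_zero]
    exact add_left_cancel h3
  rw [ZMod.natCast_eq_zero_iff] at h2
  have hinj : ∀ x < m, ∀ y < m, ((i + x : ℕ) : ZMod m) = ((i + y : ℕ) : ZMod m) → x = y := by
    intro x hx y hy hxy
    rw [Nat.cast_add, Nat.cast_add] at hxy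
    have h3 : (x : ZMod m) = (y : ZMod m) := add_left_cancel hxy
    have h4 := congrArg ZMod.val h3
    rwa [ZMod.val_natCast_of_lt hx, ZMod.val_natCast_of_lt hy] at h4
  have h3 : ∑ j ∈ Finset.range k, S.w ((i + j : ℕ) : ZMod m) < n := by
    have h4 : ∑ j ∈ Finset.range k, S.w ((i + j : ℕ) : ZMod m) =
        ∑ x ∈ (Finset.range k).image (fun j => ((i + j : ℕ) : ZMod m)), S.w x := by
      rw [Finset.sum_image]
      intro x hx y hy hxy
      exact hinj x (by have := Finset.mem_range.1 hx; omega) y (by have := Finset.mem_range.1 hy; omega) hxy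
    rw [h4]
    refine lt_of_lt_of_eq (Finset.sum_lt_sum_of_subset (Finset.subset_univ _)
      (Finset.mem_univ ((i + k : ℕ) : ZMod m)) ?_ (S.w_pos _) (fun _ _ _ => Nat.zero_le _)) S.total
    intro h5
    rw [Finset.mem_image] at h5
    obtain ⟨x, hx, hxy⟩ := h5
    have h6 := Finset.mem_range.1 hx
    have := hinj x (by omega) k hk hxy
    omega
  have h5 : 0 < ∑ j ∈ Finset.range k, S.w ((i + j : ℕ) : ZMod m) :=
    Finset.sum_pos (fun j _ => S.w_pos _) ⟨0, Finset.mem_range.2 h0⟩
  have := Nat.le_of_dvd h5 h2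
  omega

private theorem CX7_sum_ch {P : Polygon n} (S : Arcs P m) (i k : ℕ) :
    ∑ j ∈ Finset.range k, S.ch ((i + j : ℕ) : ZMod m) =
      S.V ((i + k : ℕ) : ZMod m) - S.V (i : ZMod m) := by
  induction k with
  | zero => simp
  | succ k ih =>
    rw [Finset.sum_range_succ, ih, ← Nat.add_assoc, Nat.cast_succ]
    unfold Arcs.ch
    ring

private theorem CX7_eqn {a : ZMod m → ℝ} {f : ℕ} (hf : f < m) {p q : ℤ}
    (h : (q : ℝ) * a (f : ZMod m) = p) :
    Eqn.Holds ((List.range m).map fun j => if j = f then q else 0, p) a := by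
  unfold Eqn.Holds
  have h1 : ∀ i : ZMod m, ((((List.range m).map fun j => if j = f then q else 0).getD i.val 0 : ℤ) : ℝ) *
      a i = (if i = (f : ZMod m) then (q : ℝ) * a i else 0) := by
    intro i
    have h2 : i.val < ((List.range m).map fun j => if j = f then q else 0).length := by
      rw [List.length_map, List.length_range]
      exact ZMod.val_lt i
    rw [List.getD_eq_getElem _ _ h2, List.getElem_map, List.getElem_range]
    by_cases h3 : i = (f : ZMod m)
    · rw [if_pos h3, if_pos (by rw [h3, ZMod.val_natCast_of_lt hf])]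
    · rw [if_neg h3, if_neg]
      · push_cast
        ring
      · intro h4
        apply h3
        rw [← h4, ZMod.natCast_zmod_val]
  change ∑ i : ZMod m, ((((List.range m).map fun j => if j = f then q else 0).getD i.val 0 : ℤ) : ℝ) *
    a i = p
  rw [Finset.sum_congr rfl (fun i _ => h1 i), Finset.sum_ite_eq' Finset.univ (f : ZMod m),
    if_pos (Finset.mem_univ _), h]

private theorem CX7_allI {α : Type} {g : ℕ → α → Bool} {l : List α} {i0 : ℕ}
    (h : allI g l i0 = true) (j : ℕ) (hj : j < l.length) : g (i0 + j) l[j] = true := by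
  induction l generalizing i0 j with
  | nil => exact absurd hj (by simp)
  | cons x l ih =>
    have h' : (bif g i0 x then allI g l (Nat.succ i0) else false) = true := h
    cases hx : g i0 x
    · rw [hx] at h'
      exact absurd h' (by simp)
    · rw [hx, cond_true] at h'
      cases j with
      | zero => simpa using hx
      | succ j =>
        have h2 := ih h' j (by simpa using hj)
        rw [show i0 + (j + 1) = Nat.succ i0 + j by omega]
        simpa using h2

/-! ### nodes -/

theorem chkX_sound (hm : 3 ≤ m) (hm' : m ≤ 8) {w : List ℕ} {tt : List TorT}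
    (htt : ∀ T ∈ tt, T.OK m) {sy : List (Bool × ℕ × List ℕ)} (hsy : ∀ g ∈ sy, symT m w g = true)
    {D : ℕ → List Eqn} {i : ℕ} (hD : ∀ j < i, NodeU m w (D j)) {N : XN}
    (h : chkX m w tt sy D i N = true) : NodeU m w (D i) := by
  cases N with
  | old N => exact chkU_sound hm hm' htt hsy hD h
  | lp v φ V0 Am L fuel rows GS T r ω ρ cvs ch =>
    intro n P S b M hEa hEb
    have hA : ∀ E ∈ D i ++ eqs0 m [], Eqn.Holds E fun j => P.ang (S.κ j) / Real.pi := by
      intro E hE
      rcases List.mem_append.1 hE with h1 | h1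
      · exact hEa E h1
      · exact eqs0_sound M.a_sum (fun p hp => absurd hp List.not_mem_nil)
          (fun p hp => absurd hp List.not_mem_nil) E h1
    have hB : ∀ E ∈ D i ++ eqs0 m [], Eqn.Holds E b := by
      intro E hE
      rcases List.mem_append.1 hE with h1 | h1
      · exact hEb E h1
      · exact eqs0_sound M.b_sum (fun p hp => absurd hp List.not_mem_nil)
          (fun p hp => absurd hp List.not_mem_nil) E h1
    unfold chkX at h
    rw [Bool.and_eq_true] at h
    obtain ⟨h1, h2⟩ := h
    obtain ⟨cv, hcv, hha, hhb⟩ := lpX_sound hm hm' M.wx (fun j k c => (M.rel j k c).1) h1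
    exact CX7_ch M hsy hD hA hB h2 hcv hha hhb
  | geo bd d f lin cs s1 s2 tr pts =>
    intro n P S b M hEa hEb
    have hrel : ∀ j k c, relT w j k c = true → S.Rel j k c := fun j k c => (M.rel j k c).2
    have hA : ∀ E ∈ D i ++ eqs0 m [], Eqn.Holds E fun j => P.ang (S.κ j) / Real.pi := by
      intro E hE
      rcases List.mem_append.1 hE with h1 | h1
      · exact hEa E h1
      · exact eqs0_sound M.a_sum (fun p hp => absurd hp List.not_mem_nil)
          (fun p hp => absurd hp List.not_mem_nil) E h1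
    have hB : ∀ E ∈ D i ++ eqs0 m [], Eqn.Holds E b := by
      intro E hE
      rcases List.mem_append.1 hE with h1 | h1
      · exact hEb E h1
      · exact eqs0_sound M.b_sum (fun p hp => absurd hp List.not_mem_nil)
          (fun p hp => absurd hp List.not_mem_nil) E h1
    unfold chkX at h
    rw [Bool.and_eq_true, List.all_eq_true] at h
    obtain ⟨h1, h2⟩ := h
    -- the arcs are point symmetric if `bd`
    have hba : bd = true → b = fun j => P.ang (S.κ j) / Real.pi := by
      intro hbd
      subst hbd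
      have h3 := h1
      unfold geoE at h3
      rw [Bool.and_eq_true, Bool.and_eq_true, if_pos rfl] at h3
      have h4 := h3.1.2
      rw [Bool.and_eq_true, Bool.and_eq_true] at h4
      have hplus := pluB_plus S hrel h4.1.1
      obtain ⟨σ, ε, hp, -, hb⟩ := M.off
      funext j
      rw [hb j, (hp (j - 1) j (hplus j)).2]
      ring
    have hbd : bd = true → ∀ j, 0 < b j ∧ b j < 2 := by
      intro hbd j
      rw [hba hbd]
      refine ⟨div_pos (P.ang_pos _) Real.pi_pos, ?_⟩
      change P.ang (S.κ j) / Real.pi < 2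
      rw [div_lt_iff₀ Real.pi_pos]
      exact P.ang_lt _
    have hpt : ∀ x ∈ pts, 0 < x.q ∧ vanB d (gdirs d lin) x.p x.q 0 m x.gr = true := by
      intro x hx
      have h3 := h2 x hx
      unfold gptB at h3
      rw [Bool.and_eq_true, Bool.and_eq_true, decide_eq_true_eq] at h3
      exact h3.1
    obtain ⟨hd, hf, hl, x, hx, φ, r, hr, hch, hφ, hang⟩ :=
      geoX_core S hm M.chord hrel hB hbd h1 hpt
    have hq := (hpt x hx).1
    have hq' : (0 : ℝ) < x.q := by exact_mod_cast hq
    have hd' : (0 : ℝ) < d := by exact_mod_cast hd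
    have h3 := h2 x hx
    unfold gptB at h3
    rw [Bool.and_eq_true] at h3
    have h4 := h3.2
    cases hk : x.kind with
    | bnd j =>
      rw [hk] at h4
      simp only [Bool.and_eq_true, Bool.or_eq_true, decide_eq_true_eq] at h4
      obtain ⟨⟨h5, h6⟩, h7⟩ := h4
      obtain ⟨-, h8⟩ := hang h5
      have h9 := h8 j h6
      have h10 := hbd h5 (j : ZMod m)
      have h11 : ((lin.getD j (0, 0)).1 : ℝ) * x.q + (lin.getD j (0, 0)).2 * x.p =
          (d : ℝ) * b (j : ZMod m) * x.q := by
        rw [h9]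
        field_simp
      exfalso
      rcases h7 with h7 | h7
      · have h12 : ((lin.getD j (0, 0)).1 : ℝ) * x.q + (lin.getD j (0, 0)).2 * x.p ≤ 0 := by
          exact_mod_cast h7
        rw [h11] at h12
        have := mul_pos (mul_pos hd' h10.1) hq'
        linarith
      · have h12 : (2 : ℝ) * (d * x.q) ≤ ((lin.getD j (0, 0)).1 : ℝ) * x.q +
            (lin.getD j (0, 0)).2 * x.p := by
          exact_mod_cast h7
        rw [h11] at h12
        have := mul_lt_mul_of_pos_left h10.2 (mul_pos hd' hq')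
        nlinarith
    | sub i k gr =>
      rw [hk] at h4
      simp only [Bool.and_eq_true, decide_eq_true_eq] at h4
      obtain ⟨⟨⟨h5, h6⟩, h7⟩, h8⟩ := h4
      have h9 := vanB_sound hd hq h8 (φ := φ) (fun j hj => hφ (i + j) (by omega))
      have h10 := CX7_sum_ch S i k
      rw [Finset.sum_congr rfl (fun j hj => hch (i + j) (by have := Finset.mem_range.1 hj; omega)),
        ← Finset.mul_sum, h9, mul_zero] at h10
      exact absurd (sub_eq_zero.1 h10.symm) (CX7_V_ne S h5 h6)
    | child c =>
      rw [hk] at h4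
      rw [Bool.and_eq_true] at h4
      obtain ⟨h5, h6⟩ := h4
      obtain ⟨h7, -⟩ := hang h5
      have h8 : (x.q : ℝ) * b (f : ZMod m) = x.p := by
        rw [h7]
        field_simp
      have hB' : ∀ E ∈ (((List.range m).map fun j => if j = f then x.q else 0, x.p) : Eqn) ::
          (D i ++ eqs0 m []), Eqn.Holds E b := by
        intro E hE
        rcases List.mem_cons.1 hE with rfl | hE
        · exact CX7_eqn hf h8
        · exact hB E hE
      refine CX7_one M hsy hD (eqs := (((List.range m).map fun j => if j = f then x.q else 0, x.p) :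
        Eqn) :: (D i ++ eqs0 m [])) ?_ hB' (c := c) h6
      have h9 := hba h5
      rw [← h9]
      exact hB'

theorem chkE_sound (hm : 3 ≤ m) (hm' : m ≤ 8) {tt : List TorT} (htt : ∀ T ∈ tt, T.OK m)
    {C : CertX} (h : chkE m tt C = true) :
    C.w = decW m (encW C.w) ∧ NodeU m C.w [] := by
  unfold chkE at h
  simp only [Bool.and_eq_true, beq_iff_eq, List.all_eq_true, decide_eq_true_eq,
    List.isEmpty_iff] at h
  obtain ⟨⟨⟨⟨h1, h2⟩, h3⟩, h4⟩, h5⟩ := h
  refine ⟨h1, ?_⟩
  have key : ∀ i, i < C.Ns.length → NodeU m C.w (blkF [] C.D i) := by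
    intro i
    induction i using Nat.strong_induction_on with
    | _ i ih =>
      intro hi
      have h6 := CX7_allI h5 i hi
      rw [Nat.zero_add] at h6
      intro n P S b M ha hb
      exact chkX_sound hm hm' htt h2 (fun j hj => ih j hj (by omega)) h6 P S b M ha hb
  intro n P S b M ha hb
  refine key (C.Ns.length - 1) (by omega) P S b M ?_ ?_
  · rw [h4]
    exact ha
  · rw [h4]
    exact hb

end Pool.Agent.Lib_MP_fa6e45
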