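import Pool.Agent.Lib_MP_fa6e45.HC0

/-!
PIECE H6, first part: the error of the tables `gT0`, `gT1`, `gT2`, of `gexp` and of `gdir`.
`gcx x` is the complex number `x.1 + x.2 i`.  The first nontrivial entry of a table is compared with the Taylor
polynomial of degree 7 at a rational approximation of the angle; the next ones by multiplication.
-/

open Complex

namespace Pool.Agent.Lib_MP_fa6e45

/-- `x.1 + x.2 i` -/
noncomputable def gcx (x : ℤ × ℤ) : ℂ := (x.1 : ℂ) + (x.2 : ℂ) * I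

/-- `exp (i θ)` -/
noncomputable def gz (θ : ℝ) : ℂ := cexp ((θ : ℂ) * I)

theorem gz_norm (θ : ℝ) : ‖gz θ‖ = 1 := Complex.norm_exp_ofReal_mul_I θ

theorem gz_add (θ φ : ℝ) : gz (θ + φ) = gz θ * gz φ := by
  unfold gz
  rw [← Complex.exp_add]
  push_cast
  ring_nf

theorem gz_zero : gz 0 = 1 := by
  unfold gz
  simp

theorem gz_re (θ : ℝ) : (gz θ).re = Real.cos θ := Complex.exp_ofReal_mul_I_re θ

theorem gz_im (θ : ℝ) : (gz θ).im = Real.sin θ := Complex.exp_ofReal_mul_I_im θ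

/-- Lipschitz estimate -/
theorem gz_lip (θ φ : ℝ) : ‖gz θ - gz φ‖ ≤ |θ - φ| := by
  have h1 : gz θ - gz φ = gz φ * (cexp (I * ((θ - φ : ℝ) : ℂ)) - 1) := by
    have h2 : gz θ = gz φ * gz (θ - φ) := by
      rw [← gz_add, add_sub_cancel]
    rw [h2]
    unfold gz
    rw [mul_comm I]
    ring
  rw [h1, norm_mul, gz_norm, one_mul]
  exact Real.norm_exp_I_mul_ofReal_sub_one_le

theorem gz_period (θ : ℝ) (k : ℤ) : gz (θ + k * (2 * Real.pi)) = gz θ := by
  unfold gz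
  have h : (((θ + k * (2 * Real.pi) : ℝ)) : ℂ) * I = (θ : ℂ) * I + k * (2 * Real.pi * I) := by
    push_cast
    ring
  rw [h, Complex.exp_add, Complex.exp_int_mul_two_pi_mul_I, mul_one]

/-- Taylor polynomials of degree 7 at `i y` -/
private theorem tay_h6 {y : ℝ} (h : y ^ 2 ≤ 20) :
    |Real.cos y - (1 - y ^ 2 / 2 + y ^ 4 / 24 - y ^ 6 / 720)| ≤ y ^ 8 / 20160 ∧
    |Real.sin y - (y - y ^ 3 / 6 + y ^ 5 / 120 - y ^ 7 / 5040)| ≤ y ^ 8 / 20160 := by
  obtain ⟨z, hz⟩ : ∃ z : ℂ, z = (y : ℂ) * I := ⟨_, rfl⟩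
  have hn1 : ‖z‖ = |y| := by
    rw [hz, norm_mul, Complex.norm_I, mul_one, Complex.norm_real, Real.norm_eq_abs]
  have hn : ‖z‖ ≤ 9 / 2 := by
    rw [hn1]
    by_contra hc
    rw [not_le] at hc
    rw [← sq_abs] at h
    nlinarith
  have hb := Complex.exp_bound' (x := z) (n := 8) (by
    norm_num
    linarith)
  have hn8 : ‖z‖ ^ 8 / ((Nat.factorial 8 : ℕ) : ℝ) * 2 = y ^ 8 / 20160 := by
    rw [hn1, Even.pow_abs (by decide : Even 8)]
    norm_num [Nat.factorial]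
    ring
  rw [hn8] at hb
  have z2 : z ^ 2 = ((-(y ^ 2) : ℝ) : ℂ) := by
    rw [hz, mul_pow, I_sq]
    push_cast
    ring
  have hsum : ∑ m ∈ Finset.range 8, z ^ m / (m.factorial : ℂ) =
      ((1 - y ^ 2 / 2 + y ^ 4 / 24 - y ^ 6 / 720 : ℝ) : ℂ) +
      ((y - y ^ 3 / 6 + y ^ 5 / 120 - y ^ 7 / 5040 : ℝ) : ℂ) * I := by
    have z3 : z ^ 3 = z ^ 2 * z := by ring
    have z4 : z ^ 4 = z ^ 2 * z ^ 2 := by ring
    have z5 : z ^ 5 = z ^ 2 * z ^ 2 * z := by ring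
    have z6 : z ^ 6 = z ^ 2 * z ^ 2 * z ^ 2 := by ring
    have z7 : z ^ 7 = z ^ 2 * z ^ 2 * z ^ 2 * z := by ring
    simp only [Finset.sum_range_succ, Finset.sum_range_zero, zero_add]
    rw [z7, z6, z5, z4, z3, z2, pow_one, pow_zero, hz]
    norm_num [Nat.factorial]
    ring
  have hexp : Complex.exp z = ((Real.cos y : ℝ) : ℂ) + ((Real.sin y : ℝ) : ℂ) * I := by
    rw [hz, Complex.exp_mul_I]
    push_cast
    ring
  rw [hsum, hexp] at hb
  constructor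
  · refine le_trans (le_of_eq ?_) ((Complex.abs_re_le_norm _).trans hb)
    simp only [Complex.sub_re, Complex.add_re, Complex.ofReal_re, Complex.mul_re, Complex.ofReal_im,
      Complex.I_re, Complex.I_im, mul_zero, zero_mul, sub_zero, add_zero]
  · refine le_trans (le_of_eq ?_) ((Complex.abs_im_le_norm _).trans hb)
    simp only [Complex.sub_im, Complex.add_im, Complex.ofReal_re, Complex.mul_im, Complex.ofReal_im,
      Complex.I_re, Complex.I_im, mul_zero, mul_one, zero_add, add_zero]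

/-- the first entry of a table -/
private theorem base_h6 {θ p : ℝ} {v : ℤ × ℤ} (hp : p ^ 2 ≤ 20) {c s : ℝ}
    (h0 : |θ - p| ≤ 1 / 10 ^ 12)
    (hc : |(v.1 : ℝ) - 1073741824 * (1 - p ^ 2 / 2 + p ^ 4 / 24 - p ^ 6 / 720)| ≤ c)
    (hs : |(v.2 : ℝ) - 1073741824 * (p - p ^ 3 / 6 + p ^ 5 / 120 - p ^ 7 / 5040)| ≤ s)
    (h1 : c + s + 2 * 1073741824 * (p ^ 8 / 20160) ≤ 99 / 100) :
    ‖gcx v - 1073741824 * gz θ‖ ≤ 1 := by
  obtain ⟨t1, t2⟩ := tay_h6 hp
  have e1 : ‖gcx v - 1073741824 * gz p‖ ≤ c + s + 2 * 1073741824 * (p ^ 8 / 20160) := by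
    refine (Complex.norm_le_abs_re_add_abs_im _).trans ?_
    have hre : (gcx v - 1073741824 * gz p).re = (v.1 : ℝ) - 1073741824 * Real.cos p := by
      rw [← gz_re]
      unfold gcx
      simp
    have him : (gcx v - 1073741824 * gz p).im = (v.2 : ℝ) - 1073741824 * Real.sin p := by
      rw [← gz_im]
      unfold gcx
      simp
    rw [hre, him]
    have a1 : |(v.1 : ℝ) - 1073741824 * Real.cos p| ≤ c + 1073741824 * (p ^ 8 / 20160) := by
      rw [abs_le] at hc t1 ⊢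
      constructor <;> linarith [hc.1, hc.2, t1.1, t1.2]
    have a2 : |(v.2 : ℝ) - 1073741824 * Real.sin p| ≤ s + 1073741824 * (p ^ 8 / 20160) := by
      rw [abs_le] at hs t2 ⊢
      constructor <;> linarith [hs.1, hs.2, t2.1, t2.2]
    linarith
  have e2 : ‖(1073741824 : ℂ) * (gz p - gz θ)‖ ≤ 1 / 100 := by
    rw [norm_mul, Complex.norm_ofNat]
    have h3 := gz_lip p θ
    rw [abs_sub_comm] at h3
    calc (1073741824 : ℝ) * ‖gz p - gz θ‖ ≤ 1073741824 * (1 / 10 ^ 12) :=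
          mul_le_mul_of_nonneg_left (h3.trans h0) (by positivity)
      _ ≤ 1 / 100 := by norm_num
  have e3 : gcx v - 1073741824 * gz θ = (gcx v - 1073741824 * gz p) + 1073741824 * (gz p - gz θ) := by ring
  rw [e3]
  refine (norm_add_le _ _).trans ?_
  linarith

/-- check of a table -/
def gtabB (T : List (ℤ × ℤ)) : Bool :=
  (List.range 31).all fun k =>
    decide (((T.getD k (0, 0)).1 * (T.getD 1 (0, 0)).1 - (T.getD k (0, 0)).2 * (T.getD 1 (0, 0)).2 -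
      1073741824 * (T.getD (k + 1) (0, 0)).1) ^ 2 +
      ((T.getD k (0, 0)).1 * (T.getD 1 (0, 0)).2 + (T.getD k (0, 0)).2 * (T.getD 1 (0, 0)).1 -
      1073741824 * (T.getD (k + 1) (0, 0)).2) ^ 2 ≤ (1610612736 : ℤ) ^ 2) &&
    decide ((T.getD k (0, 0)).1 ^ 2 + (T.getD k (0, 0)).2 ^ 2 ≤ (1073741826 : ℤ) ^ 2)

private theorem gcx_normSq (x : ℤ × ℤ) : ‖gcx x‖ ^ 2 = (x.1 : ℝ) ^ 2 + (x.2 : ℝ) ^ 2 := by
  rw [Complex.sq_norm]
  unfold gcx
  have h : ((x.1 : ℂ) + (x.2 : ℂ) * I) = (((x.1 : ℝ) : ℂ) + ((x.2 : ℝ) : ℂ) * I) := by push_cast; rfl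
  rw [h, Complex.normSq_add_mul_I]

private theorem gcx_le {x : ℤ × ℤ} {B : ℤ} (hB : 0 ≤ B) (h : x.1 ^ 2 + x.2 ^ 2 ≤ B ^ 2) :
    ‖gcx x‖ ≤ B := by
  have h1 : ((x.1 : ℝ)) ^ 2 + (x.2 : ℝ) ^ 2 ≤ (B : ℝ) ^ 2 := by exact_mod_cast h
  rw [← gcx_normSq] at h1
  exact (abs_le_of_sq_le_sq' h1 (by exact_mod_cast hB)).2

private theorem tab_h6 {T : List (ℤ × ℤ)} {θ : ℝ} (h0 : T.getD 0 (0, 0) = (1073741824, 0))
    (h1 : ‖gcx (T.getD 1 (0, 0)) - 1073741824 * gz θ‖ ≤ 1) (hc : gtabB T = true) (k : ℕ) (hk : k ≤ 31) :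
    ‖gcx (T.getD k (0, 0)) - 1073741824 * gz (k * θ)‖ ≤ 3 * k := by
  induction k with
  | zero =>
    rw [h0]
    unfold gcx
    rw [Nat.cast_zero, zero_mul, gz_zero]
    norm_num
  | succ k ih =>
    have ih' := ih (by omega)
    unfold gtabB at hc
    rw [List.all_eq_true] at hc
    have h2 := hc k (List.mem_range.2 (by omega))
    rw [Bool.and_eq_true, decide_eq_true_eq, decide_eq_true_eq] at h2
    obtain ⟨h3, h4⟩ := h2
    obtain ⟨a, ha⟩ : ∃ a, a = T.getD k (0, 0) := ⟨_, rfl⟩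
    obtain ⟨b, hb⟩ : ∃ b, b = T.getD 1 (0, 0) := ⟨_, rfl⟩
    obtain ⟨c, hcc⟩ : ∃ c, c = T.getD (k + 1) (0, 0) := ⟨_, rfl⟩
    rw [← ha, ← hb, ← hcc] at h3
    rw [← ha] at h4 ih'
    rw [← hb] at h1
    rw [← hcc]
    have n1 : ‖gcx a‖ ≤ 1073741826 := by
      have := gcx_le (x := a) (B := 1073741826) (by norm_num) h4
      exact_mod_cast this
    have n2 : ‖gcx a * gcx b - 1073741824 * gcx c‖ ≤ 1610612736 := by
      have h5 := gcx_le (x := (a.1 * b.1 - a.2 * b.2 - 1073741824 * c.1,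
        a.1 * b.2 + a.2 * b.1 - 1073741824 * c.2)) (B := 1610612736) (by norm_num) h3
      have h6 : gcx a * gcx b - 1073741824 * gcx c = gcx (a.1 * b.1 - a.2 * b.2 - 1073741824 * c.1,
        a.1 * b.2 + a.2 * b.1 - 1073741824 * c.2) := by
        unfold gcx
        push_cast
        linear_combination (a.2 : ℂ) * b.2 * I_sq
      rw [h6]
      exact_mod_cast h5
    have e : gcx c - 1073741824 * gz ((k + 1 : ℕ) * θ) =
        -(gcx a * gcx b - 1073741824 * gcx c) * (1073741824 : ℂ)⁻¹ +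
        (gcx a - 1073741824 * gz (k * θ)) * gz θ +
        gcx a * (gcx b - 1073741824 * gz θ) * (1073741824 : ℂ)⁻¹ := by
      have h7 : gz ((k + 1 : ℕ) * θ) = gz (k * θ) * gz θ := by
        rw [← gz_add]
        push_cast
        ring_nf
      rw [h7]
      field_simp
      ring
    rw [e]
    have hn30 : ‖(1073741824 : ℂ)⁻¹‖ = 1 / 1073741824 := by
      rw [norm_inv, Complex.norm_ofNat]
      norm_num
    refine (norm_add₃_le).trans ?_
    rw [norm_mul, norm_neg, norm_mul, norm_mul, norm_mul, hn30, gz_norm, mul_one]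
    have m1 : ‖gcx a‖ * ‖gcx b - 1073741824 * gz θ‖ ≤ 1073741826 * 1 :=
      mul_le_mul n1 h1 (norm_nonneg _) (by norm_num)
    push_cast
    linarith

private theorem pi_h6 (N : ℝ) (hN : 1 ≤ N) :
    |Real.pi / N - 3.14159265358979323846 / N| ≤ 1 / 10 ^ 12 := by
  have h1 := Real.pi_gt_d20
  have h2 := Real.pi_lt_d20
  rw [← sub_div, abs_div, abs_of_pos (lt_of_lt_of_le one_pos hN)]
  refine (div_le_self (abs_nonneg _) hN).trans ?_
  rw [abs_le]
  constructor <;> linarith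

theorem gT0_err (k : ℕ) (hk : k ≤ 31) :
    ‖gcx (gT0.getD k (0, 0)) - 1073741824 * gz (k * (Real.pi / 16384))‖ ≤ 3 * k := by
  refine tab_h6 rfl ?_ (by decide +kernel) k hk
  refine base_h6 (p := 3.14159265358979323846 / 16384) (by norm_num) (pi_h6 16384 (by norm_num))
    (c := 3 / 10) (s := 1 / 2) ?_ ?_ ?_
  · show |((1073741804 : ℤ) : ℝ) - _| ≤ _
    rw [abs_le]
    constructor <;> norm_num
  · show |((205887 : ℤ) : ℝ) - _| ≤ _
    rw [abs_le]
    constructor <;> norm_num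
  · norm_num

theorem gT1_err (k : ℕ) (hk : k ≤ 31) :
    ‖gcx (gT1.getD k (0, 0)) - 1073741824 * gz (k * (Real.pi / 512))‖ ≤ 3 * k := by
  refine tab_h6 rfl ?_ (by decide +kernel) k hk
  refine base_h6 (p := 3.14159265358979323846 / 512) (by norm_num) (pi_h6 512 (by norm_num))
    (c := 3 / 10) (s := 1 / 2) ?_ ?_ ?_
  · show |((1073721611 : ℤ) : ℝ) - _| ≤ _
    rw [abs_le]
    constructor <;> norm_num
  · show |((6588356 : ℤ) : ℝ) - _| ≤ _
    rw [abs_le]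
    constructor <;> norm_num
  · norm_num

theorem gT2_err (k : ℕ) (hk : k ≤ 31) :
    ‖gcx (gT2.getD k (0, 0)) - 1073741824 * gz (k * (Real.pi / 16))‖ ≤ 3 * k := by
  refine tab_h6 rfl ?_ (by decide +kernel) k hk
  refine base_h6 (p := 3.14159265358979323846 / 16) (by norm_num) (pi_h6 16 (by norm_num))
    (c := 1 / 4) (s := 1 / 4) ?_ ?_ ?_
  · show |((1053110176 : ℤ) : ℝ) - _| ≤ _
    rw [abs_le]
    constructor <;> norm_num
  · show |((209476638 : ℤ) : ℝ) - _| ≤ _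
    rw [abs_le]
    constructor <;> norm_num
  · norm_num

/-- floor division -/
private theorem fl_h6 (n M : ℤ) (hM : 0 < M) :
    ((n / M : ℤ) : ℝ) ≤ (n : ℝ) / M ∧ (n : ℝ) / M - 1 ≤ ((n / M : ℤ) : ℝ) := by
  have h1 := Int.mul_ediv_add_emod n M
  have h2 := Int.emod_nonneg n hM.ne'
  have h3 := Int.emod_lt_of_pos n hM
  have hM' : (0 : ℝ) < M := by exact_mod_cast hM
  have h4 : (n : ℝ) = M * ((n / M : ℤ) : ℝ) + ((n % M : ℤ) : ℝ) := by exact_mod_cast h1.symm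
  have h5 : (0 : ℝ) ≤ ((n % M : ℤ) : ℝ) := by exact_mod_cast h2
  have h6 : ((n % M : ℤ) : ℝ) ≤ M := by exact_mod_cast h3.le
  constructor
  · rw [le_div_iff₀ hM']
    linarith
  · rw [sub_le_iff_le_add, div_le_iff₀ hM']
    linarith

private theorem gmul_h6 (a b : ℤ × ℤ) :
    ‖gcx (gmul a b) - gcx a * gcx b * (1073741824 : ℂ)⁻¹‖ ≤ 2 := by
  obtain ⟨h1, h2⟩ := fl_h6 (a.1 * b.1 - a.2 * b.2) 1073741824 (by norm_num)
  obtain ⟨h3, h4⟩ := fl_h6 (a.1 * b.2 + a.2 * b.1) 1073741824 (by norm_num)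
  have e : gcx (gmul a b) - gcx a * gcx b * (1073741824 : ℂ)⁻¹ =
      ((((a.1 * b.1 - a.2 * b.2) / 1073741824 : ℤ) -
        ((a.1 * b.1 - a.2 * b.2 : ℤ) : ℝ) / ((1073741824 : ℤ) : ℝ) : ℝ) : ℂ) +
      ((((a.1 * b.2 + a.2 * b.1) / 1073741824 : ℤ) -
        ((a.1 * b.2 + a.2 * b.1 : ℤ) : ℝ) / ((1073741824 : ℤ) : ℝ) : ℝ) : ℂ) * I := by
    unfold gcx gmul
    push_cast
    linear_combination (-(a.2 : ℂ) * b.2 / 1073741824) * I_sq
  rw [e]
  refine (norm_add_le _ _).trans ?_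
  rw [norm_mul, Complex.norm_I, mul_one, Complex.norm_real, Complex.norm_real, Real.norm_eq_abs,
    Real.norm_eq_abs]
  have a1 : |(((a.1 * b.1 - a.2 * b.2) / 1073741824 : ℤ) : ℝ) -
        ((a.1 * b.1 - a.2 * b.2 : ℤ) : ℝ) / ((1073741824 : ℤ) : ℝ)| ≤ 1 := by
    rw [abs_le]
    constructor <;> linarith
  have a2 : |(((a.1 * b.2 + a.2 * b.1) / 1073741824 : ℤ) : ℝ) -
        ((a.1 * b.2 + a.2 * b.1 : ℤ) : ℝ) / ((1073741824 : ℤ) : ℝ)| ≤ 1 := by
    rw [abs_le]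
    constructor <;> linarith
  linarith

private theorem gmul_err_h6 {a b : ℤ × ℤ} {θ φ e f : ℝ} (ha : ‖gcx a - 1073741824 * gz θ‖ ≤ e)
    (hb : ‖gcx b - 1073741824 * gz φ‖ ≤ f) (he : e ≤ 1000) (hf : f ≤ 1000) :
    ‖gcx (gmul a b) - 1073741824 * gz (θ + φ)‖ ≤ e + f + 3 := by
  have he0 : 0 ≤ e := (norm_nonneg _).trans ha
  have hf0 : 0 ≤ f := (norm_nonneg _).trans hb
  have n1 : ‖gcx b‖ ≤ 1073741824 + f := by
    have h1 : gcx b = 1073741824 * gz φ + (gcx b - 1073741824 * gz φ) := by ring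
    rw [h1]
    refine (norm_add_le _ _).trans ?_
    rw [norm_mul, Complex.norm_ofNat, gz_norm, mul_one]
    linarith
  have e1 : gcx (gmul a b) - 1073741824 * gz (θ + φ) =
      (gcx (gmul a b) - gcx a * gcx b * (1073741824 : ℂ)⁻¹) +
      (gcx a - 1073741824 * gz θ) * gcx b * (1073741824 : ℂ)⁻¹ + gz θ * (gcx b - 1073741824 * gz φ) := by
    rw [gz_add]
    field_simp
    ring
  rw [e1]
  have hn30 : ‖(1073741824 : ℂ)⁻¹‖ = 1 / 1073741824 := by
    rw [norm_inv, Complex.norm_ofNat]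
    norm_num
  refine (norm_add₃_le).trans ?_
  rw [norm_mul, norm_mul, norm_mul, hn30, gz_norm, one_mul]
  have m1 : ‖gcx a - 1073741824 * gz θ‖ * ‖gcx b‖ ≤ e * (1073741824 + f) :=
    mul_le_mul ha n1 (norm_nonneg _) he0
  have m2 : e * f ≤ 1000 * 1000 := mul_le_mul he hf hf0 (by norm_num)
  have m3 := gmul_h6 a b
  linarith

theorem gexp_err (j : ℤ) : ‖gcx (gexp j) - 1073741824 * gz (j * (Real.pi / 16384))‖ ≤ 1000 := by
  obtain ⟨r, hr⟩ : ∃ r : ℕ, r = (j % 32768).toNat := ⟨_, rfl⟩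
  have hr1 : (r : ℤ) = j % 32768 := by
    rw [hr]
    exact Int.toNat_of_nonneg (Int.emod_nonneg _ (by norm_num))
  have hr2 : r < 32768 := by
    have := Int.emod_lt_of_pos j (show (0 : ℤ) < 32768 by norm_num)
    omega
  have hj : (j : ℝ) = r + 32768 * ((j / 32768 : ℤ) : ℝ) := by
    have h1 := Int.emod_add_mul_ediv j 32768
    rw [← hr1] at h1
    exact_mod_cast h1.symm
  have hper : gz (j * (Real.pi / 16384)) = gz (r * (Real.pi / 16384)) := by
    rw [← gz_period (r * (Real.pi / 16384)) (j / 32768), hj]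
    congr 1
    ring
  have hdec : (r : ℝ) = 1024 * ((r / 1024 : ℕ) : ℝ) + (32 * ((r / 32 % 32 : ℕ) : ℝ) +
      ((r % 32 : ℕ) : ℝ)) := by
    have : r = 1024 * (r / 1024) + (32 * (r / 32 % 32) + r % 32) := by omega
    exact_mod_cast this
  have hg : gexp j = gmul (gT2.getD (r / 1024) (0, 0))
      (gmul (gT1.getD (r / 32 % 32) (0, 0)) (gT0.getD (r % 32) (0, 0))) := by
    rw [hr]
    rfl
  have k2 : r / 1024 ≤ 31 := by omega
  have k1 : r / 32 % 32 ≤ 31 := by omega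
  have k0 : r % 32 ≤ 31 := by omega
  have c2 : ((r / 1024 : ℕ) : ℝ) ≤ 31 := by exact_mod_cast k2
  have c1 : ((r / 32 % 32 : ℕ) : ℝ) ≤ 31 := by exact_mod_cast k1
  have c0 : ((r % 32 : ℕ) : ℝ) ≤ 31 := by exact_mod_cast k0
  have t2 := gT2_err _ k2
  have t1 := gT1_err _ k1
  have t0 := gT0_err _ k0
  have m1 := gmul_err_h6 t1 t0 (by linarith) (by linarith)
  have m2 := gmul_err_h6 t2 m1 (by linarith) (by linarith)
  rw [hper, hg]
  have e : (r : ℝ) * (Real.pi / 16384) = ((r / 1024 : ℕ) : ℝ) * (Real.pi / 16) +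
      (((r / 32 % 32 : ℕ) : ℝ) * (Real.pi / 512) + ((r % 32 : ℕ) : ℝ) * (Real.pi / 16384)) := by
    rw [hdec]
    ring
  rw [e]
  refine m2.trans ?_
  linarith

/-- the error of `gdir` -/
theorem gdir_err {D s hh : ℤ} {d : ℤ × ℤ} (hD : 0 < D) {t φ : ℝ}
    (hφ : (D : ℝ) * φ = Real.pi * (d.1 + d.2 * t)) (ht : |t * 1048576 - s| ≤ hh) :
    ‖gcx (gdir D s hh d).1 - 1073741824 * gz φ‖ ≤ (gdir D s hh d).2 := by
  have hD' : (0 : ℝ) < D := by exact_mod_cast hD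
  have hpi := Real.pi_pos
  obtain ⟨J, hJ⟩ : ∃ J : ℤ, J = (d.1 * 1048576 + d.2 * s) * 16384 / (D * 1048576) := ⟨_, rfl⟩
  have g1 : (gdir D s hh d).1 = gexp J := by
    rw [hJ]
    rfl
  have g2 : (gdir D s hh d).2 = 22 * 1073741824 * (|d.2| * hh * 16384 + D * 1048576) /
      (7 * D * 1048576 * 16384) + 1001 := rfl
  rw [g1, g2]
  obtain ⟨f1, f2⟩ := fl_h6 ((d.1 * 1048576 + d.2 * s) * 16384) (D * 1048576) (by positivity)
  obtain ⟨f3, f4⟩ := fl_h6 (22 * 1073741824 * (|d.2| * hh * 16384 + D * 1048576))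
    (7 * D * 1048576 * 16384) (by positivity)
  rw [← hJ] at f1 f2
  have e1 := gexp_err J
  have e2 : ‖(1073741824 : ℂ) * (gz (J * (Real.pi / 16384)) - gz φ)‖ ≤
      1073741824 * |J * (Real.pi / 16384) - φ| := by
    rw [norm_mul, Complex.norm_ofNat]
    have := gz_lip (J * (Real.pi / 16384)) φ
    linarith
  have e3 : |J * (Real.pi / 16384) - φ| ≤
      22 / 7 / 16384 * (1 + |(d.2 : ℝ)| * hh * 16384 / (D * 1048576)) := by
    have hφ' : φ = Real.pi * (d.1 + d.2 * t) / D := by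
      rw [← hφ]
      field_simp
    have h5 : J * (Real.pi / 16384) - φ = -(Real.pi / 16384) *
        ((((d.1 * 1048576 + d.2 * s) * 16384 : ℤ) : ℝ) / ((D * 1048576 : ℤ) : ℝ) - J +
          16384 * d.2 * (t * 1048576 - s) / (D * 1048576)) := by
      rw [hφ']
      push_cast
      field_simp
      ring
    rw [h5, abs_mul, abs_neg, abs_of_pos (by positivity : (0 : ℝ) < Real.pi / 16384)]
    have h6 : |(((d.1 * 1048576 + d.2 * s) * 16384 : ℤ) : ℝ) / ((D * 1048576 : ℤ) : ℝ) - J +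
          16384 * d.2 * (t * 1048576 - s) / (D * 1048576)| ≤
        1 + |(d.2 : ℝ)| * hh * 16384 / (D * 1048576) := by
      refine (abs_add_le _ _).trans (add_le_add ?_ ?_)
      · rw [abs_le]
        constructor <;> linarith
      · rw [abs_div, abs_mul, abs_mul, abs_of_pos (by positivity : (0 : ℝ) < D * 1048576),
          abs_of_pos (by norm_num : (0 : ℝ) < 16384)]
        refine div_le_div_of_nonneg_right ?_ (by positivity)
        have := mul_le_mul_of_nonneg_left ht (abs_nonneg (d.2 : ℝ))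
        linarith
    have h7 : Real.pi / 16384 ≤ 22 / 7 / 16384 := by
      have := Real.pi_lt_d4
      linarith
    refine mul_le_mul h7 h6 (abs_nonneg _) (by norm_num)
  have e4 : gcx (gexp J) - 1073741824 * gz φ = (gcx (gexp J) - 1073741824 * gz (J * (Real.pi / 16384))) +
      1073741824 * (gz (J * (Real.pi / 16384)) - gz φ) := by ring
  rw [e4]
  refine (norm_add_le _ _).trans ?_
  have e5 : 1073741824 * (22 / 7 / 16384 * (1 + |(d.2 : ℝ)| * hh * 16384 / (D * 1048576))) =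
      ((22 * 1073741824 * (|d.2| * hh * 16384 + D * 1048576) : ℤ) : ℝ) /
      ((7 * D * 1048576 * 16384 : ℤ) : ℝ) := by
    push_cast
    field_simp
    ring
  push_cast at f4 e5 ⊢
  linarith

end Pool.Agent.Lib_MP_fa6e45
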