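import Pool.Agent.Lib_MP_fa6e45.CX0
import Pool.Agent.Lib_MP_fa6e45.H6a

/-!
PIECE CX5, first part: the numerical check `gtree` with exceptional parameters (`gbnd_sound'`, `gtree_sound'`). Write
`S = 2 ^ 30`, `T = 2 ^ 20`; the directions at the parameter `t` are `gz (th5x D t d)`, `th5x D t (α, β) = π (α + β t) / D`.
-/

open Complex

namespace Pool.Agent.Lib_MP_fa6e45

/-! ### the exponential function -/

private theorem exp5x_pos {y : ℝ} (hy : 0 ≤ y) : ‖gz y - 1 - (y : ℂ) * I‖ ≤ y ^ 2 / 2 := by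
  have hder : ∀ x : ℝ, HasDerivAt (fun u : ℝ => gz u - 1 - (u : ℂ) * I) (gz x * I - I) x := by
    intro x
    have h1 : HasDerivAt (fun u : ℝ => (u : ℂ) * I) I x := by
      have := (Complex.ofRealCLM.hasDerivAt (x := x)).mul_const I
      simpa using this
    have h2 : HasDerivAt (fun u : ℝ => gz u) (gz x * I) x := h1.cexp
    exact (h2.sub_const 1).sub h1
  have key := image_norm_le_of_norm_deriv_right_le_deriv_boundary
    (f := fun u : ℝ => gz u - 1 - (u : ℂ) * I) (f' := fun u => gz u * I - I) (a := 0) (b := y)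
    (fun x _ => (hder x).continuousAt.continuousWithinAt)
    (fun x _ => (hder x).hasDerivWithinAt)
    (B := fun u => u ^ 2 / 2) (B' := fun u => u)
    (by simp [gz_zero])
    (fun x => by
      have := (hasDerivAt_pow 2 x).div_const 2
      simpa using this)
    (fun x hx => by
      have h1 : gz x * I - I = (gz x - gz 0) * I := by
        rw [gz_zero]
        ring
      rw [h1, norm_mul, Complex.norm_I, mul_one]
      refine (gz_lip x 0).trans ?_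
      rw [sub_zero, abs_of_nonneg hx.1])
  exact key ⟨hy, le_rfl⟩

private theorem gz_neg5x (y : ℝ) : gz (-y) = (starRingEnd ℂ) (gz y) := by
  unfold gz
  rw [← Complex.exp_conj, map_mul, Complex.conj_ofReal, Complex.conj_I]
  push_cast
  ring_nf

private theorem exp5x (y : ℝ) : ‖gz y - 1 - (y : ℂ) * I‖ ≤ y ^ 2 / 2 := by
  rcases le_total 0 y with h | h
  · exact exp5x_pos h
  · have h1 := exp5x_pos (y := -y) (by linarith)
    rw [gz_neg5x] at h1
    have h2 : (starRingEnd ℂ) (gz y) - 1 - ((-y : ℝ) : ℂ) * I =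
        (starRingEnd ℂ) (gz y - 1 - (y : ℂ) * I) := by
      simp only [map_sub, map_mul, map_one, Complex.conj_ofReal, Complex.conj_I]
      push_cast
      ring
    rw [h2, Complex.norm_conj] at h1
    refine h1.trans (le_of_eq ?_)
    ring

/-! ### sums over the list -/

/-- the angle of the direction `d` at the parameter `t` -/
private noncomputable def th5x (D : ℤ) (t : ℝ) (d : ℤ × ℤ) : ℝ := Real.pi * (d.1 + d.2 * t) / D

private noncomputable def sV5x (D : ℤ) (t : ℝ) (ds : List (ℤ × ℤ)) : ℂ :=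
  (ds.map fun d => gz (th5x D t d)).sum

private noncomputable def sY5x (D : ℤ) (t : ℝ) (ds : List (ℤ × ℤ)) : ℂ :=
  (ds.map fun d => (d.2 : ℂ) * gz (th5x D t d)).sum

private noncomputable def sQ5x (ds : List (ℤ × ℤ)) : ℝ := (ds.map fun d => ((d.2 : ℝ)) ^ 2).sum

private theorem th5x_eq {D : ℤ} (hD : 0 < D) {t : ℝ} {d : ℤ × ℤ} :
    (D : ℝ) * th5x D t d = Real.pi * (d.1 + d.2 * t) := by
  have hD' : (D : ℝ) ≠ 0 := by exact_mod_cast hD.ne'
  unfold th5x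
  field_simp

private theorem sum_getD5x (g : ℤ × ℤ → ℂ) (ds : List (ℤ × ℤ)) :
    ∑ j ∈ Finset.range ds.length, g (ds.getD j (0, 0)) = (ds.map g).sum := by
  induction ds with
  | nil => simp
  | cons a l ih =>
    rw [List.length_cons, Finset.sum_range_succ', List.map_cons, List.sum_cons, ← ih, add_comm]
    rfl

private theorem sum_eq_sV5x {D : ℤ} (hD : 0 < D) {ds : List (ℤ × ℤ)} {φ : ℕ → ℝ} {t : ℝ}
    (hφ : ∀ j < ds.length, (D : ℝ) * φ j = Real.pi * ((ds.getD j (0, 0)).1 +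
      (ds.getD j (0, 0)).2 * t)) :
    ∑ j ∈ Finset.range ds.length, gz (φ j) = sV5x D t ds := by
  have hD' : (D : ℝ) ≠ 0 := by exact_mod_cast hD.ne'
  rw [sV5x, ← sum_getD5x]
  refine Finset.sum_congr rfl fun j hj => ?_
  have h1 := hφ j (Finset.mem_range.1 hj)
  have h2 : φ j = th5x D t (ds.getD j (0, 0)) := by
    apply mul_left_cancel₀ hD'
    rw [th5x_eq hD, h1]
  rw [h2]

private theorem sQ5x_nonneg (ds : List (ℤ × ℤ)) : 0 ≤ sQ5x ds := by
  unfold sQ5x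
  apply List.sum_nonneg
  intro x hx
  rw [List.mem_map] at hx
  obtain ⟨d, _, rfl⟩ := hx
  positivity

/-- Taylor formula -/
private theorem taylor5x (D : ℤ) (t t1 : ℝ) (ds : List (ℤ × ℤ)) :
    ‖sV5x D t ds - sV5x D t1 ds - ((Real.pi * (t - t1) / D : ℝ) : ℂ) * I * sY5x D t1 ds‖ ≤
      (Real.pi * (t - t1) / D) ^ 2 / 2 * sQ5x ds := by
  induction ds with
  | nil => simp [sV5x, sY5x, sQ5x]
  | cons d l ih =>
    obtain ⟨y, hy⟩ : ∃ y : ℝ, y = Real.pi * (t - t1) / D := ⟨_, rfl⟩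
    rw [← hy] at ih ⊢
    have h1 : th5x D t d = th5x D t1 d + y * d.2 := by
      rw [hy]
      unfold th5x
      ring
    have h2 : sV5x D t (d :: l) - sV5x D t1 (d :: l) - ((y : ℝ) : ℂ) * I * sY5x D t1 (d :: l) =
        (sV5x D t l - sV5x D t1 l - ((y : ℝ) : ℂ) * I * sY5x D t1 l) +
          gz (th5x D t1 d) * (gz (y * d.2) - 1 - ((y * d.2 : ℝ) : ℂ) * I) := by
      simp only [sV5x, sY5x, List.map_cons, List.sum_cons]
      rw [h1, gz_add]
      push_cast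
      ring
    rw [h2]
    refine (norm_add_le _ _).trans ?_
    rw [norm_mul, gz_norm, one_mul]
    have h3 := exp5x (y * d.2)
    have h4 : sQ5x (d :: l) = (d.2 : ℝ) ^ 2 + sQ5x l := by
      simp only [sQ5x, List.map_cons, List.sum_cons]
    rw [h4]
    nlinarith

/-- the approximations -/
private theorem gvy_acc5x {D s : ℤ} (hD : 0 < D) {t : ℝ} (ht : |t * 1048576 - s| ≤ 1)
    (ds : List (ℤ × ℤ)) (x : ((ℤ × ℤ) × (ℤ × ℤ)) × (ℤ × ℤ × ℤ)) (V Y : ℂ) (Q : ℝ)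
    (h1 : ‖gcx x.1.1 - 1073741824 * V‖ ≤ x.2.1) (h2 : ‖gcx x.1.2 - 1073741824 * Y‖ ≤ x.2.2.1)
    (h3 : (x.2.2.2 : ℝ) = Q) :
    ‖gcx (ds.foldl (fun (x : ((ℤ × ℤ) × (ℤ × ℤ)) × (ℤ × ℤ × ℤ)) (d : ℤ × ℤ) =>
    (fun (z : (ℤ × ℤ) × ℤ) => (((x.1.1.1 + z.1.1, x.1.1.2 + z.1.2), (x.1.2.1 + d.2 * z.1.1, x.1.2.2 + d.2 * z.1.2)),
      (x.2.1 + z.2, x.2.2.1 + |d.2| * z.2, x.2.2.2 + d.2 * d.2))) (gdir D s 1 d)) x).1.1 -
        1073741824 * (V + sV5x D t ds)‖ ≤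
      (ds.foldl (fun (x : ((ℤ × ℤ) × (ℤ × ℤ)) × (ℤ × ℤ × ℤ)) (d : ℤ × ℤ) =>
    (fun (z : (ℤ × ℤ) × ℤ) => (((x.1.1.1 + z.1.1, x.1.1.2 + z.1.2), (x.1.2.1 + d.2 * z.1.1, x.1.2.2 + d.2 * z.1.2)),
      (x.2.1 + z.2, x.2.2.1 + |d.2| * z.2, x.2.2.2 + d.2 * d.2))) (gdir D s 1 d)) x).2.1 ∧
    ‖gcx (ds.foldl (fun (x : ((ℤ × ℤ) × (ℤ × ℤ)) × (ℤ × ℤ × ℤ)) (d : ℤ × ℤ) =>
    (fun (z : (ℤ × ℤ) × ℤ) => (((x.1.1.1 + z.1.1, x.1.1.2 + z.1.2), (x.1.2.1 + d.2 * z.1.1, x.1.2.2 + d.2 * z.1.2)),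
      (x.2.1 + z.2, x.2.2.1 + |d.2| * z.2, x.2.2.2 + d.2 * d.2))) (gdir D s 1 d)) x).1.2 -
        1073741824 * (Y + sY5x D t ds)‖ ≤
      (ds.foldl (fun (x : ((ℤ × ℤ) × (ℤ × ℤ)) × (ℤ × ℤ × ℤ)) (d : ℤ × ℤ) =>
    (fun (z : (ℤ × ℤ) × ℤ) => (((x.1.1.1 + z.1.1, x.1.1.2 + z.1.2), (x.1.2.1 + d.2 * z.1.1, x.1.2.2 + d.2 * z.1.2)),
      (x.2.1 + z.2, x.2.2.1 + |d.2| * z.2, x.2.2.2 + d.2 * d.2))) (gdir D s 1 d)) x).2.2.1 ∧
    ((ds.foldl (fun (x : ((ℤ × ℤ) × (ℤ × ℤ)) × (ℤ × ℤ × ℤ)) (d : ℤ × ℤ) =>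
    (fun (z : (ℤ × ℤ) × ℤ) => (((x.1.1.1 + z.1.1, x.1.1.2 + z.1.2), (x.1.2.1 + d.2 * z.1.1, x.1.2.2 + d.2 * z.1.2)),
      (x.2.1 + z.2, x.2.2.1 + |d.2| * z.2, x.2.2.2 + d.2 * d.2))) (gdir D s 1 d)) x).2.2.2 : ℝ) =
        Q + sQ5x ds := by
  induction ds generalizing x V Y Q with
  | nil =>
    simp only [List.foldl_nil, sV5x, sY5x, sQ5x, List.map_nil, List.sum_nil, add_zero]
    exact ⟨h1, h2, h3⟩
  | cons d l ih =>
    have hz := gdir_err (s := s) (hh := 1) (d := d) hD (th5x_eq hD (t := t) (d := d)) (by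
      rw [Int.cast_one]
      exact ht)
    obtain ⟨z, hzd⟩ : ∃ z, z = gdir D s 1 d := ⟨_, rfl⟩
    rw [← hzd] at hz
    have e1 : sV5x D t (d :: l) = gz (th5x D t d) + sV5x D t l := by
      simp only [sV5x, List.map_cons, List.sum_cons]
    have e2 : sY5x D t (d :: l) = (d.2 : ℂ) * gz (th5x D t d) + sY5x D t l := by
      simp only [sY5x, List.map_cons, List.sum_cons]
    have e3 : sQ5x (d :: l) = (d.2 : ℝ) ^ 2 + sQ5x l := by
      simp only [sQ5x, List.map_cons, List.sum_cons]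
    rw [e1, e2, e3, List.foldl_cons, ← hzd, ← add_assoc, ← add_assoc, ← add_assoc]
    refine ih _ (V + gz (th5x D t d)) (Y + (d.2 : ℂ) * gz (th5x D t d)) (Q + (d.2 : ℝ) ^ 2) ?_ ?_ ?_
    · have h4 : gcx (x.1.1.1 + z.1.1, x.1.1.2 + z.1.2) - 1073741824 * (V + gz (th5x D t d)) =
          (gcx x.1.1 - 1073741824 * V) + (gcx z.1 - 1073741824 * gz (th5x D t d)) := by
        unfold gcx
        push_cast
        ring
      show ‖gcx (x.1.1.1 + z.1.1, x.1.1.2 + z.1.2) - 1073741824 * (V + gz (th5x D t d))‖ ≤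
        ((x.2.1 + z.2 : ℤ) : ℝ)
      rw [h4]
      refine (norm_add_le _ _).trans ?_
      push_cast
      linarith
    · have h4 : gcx (x.1.2.1 + d.2 * z.1.1, x.1.2.2 + d.2 * z.1.2) -
          1073741824 * (Y + (d.2 : ℂ) * gz (th5x D t d)) =
          (gcx x.1.2 - 1073741824 * Y) + (d.2 : ℂ) * (gcx z.1 - 1073741824 * gz (th5x D t d)) := by
        unfold gcx
        push_cast
        ring
      show ‖gcx (x.1.2.1 + d.2 * z.1.1, x.1.2.2 + d.2 * z.1.2) -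
          1073741824 * (Y + (d.2 : ℂ) * gz (th5x D t d))‖ ≤ ((x.2.2.1 + |d.2| * z.2 : ℤ) : ℝ)
      rw [h4]
      refine (norm_add_le _ _).trans ?_
      rw [norm_mul, Complex.norm_intCast]
      push_cast
      have h5 : |(d.2 : ℝ)| * ‖gcx z.1 - 1073741824 * gz (th5x D t d)‖ ≤ |(d.2 : ℝ)| * z.2 :=
        mul_le_mul_of_nonneg_left hz (abs_nonneg _)
      linarith
    · show ((x.2.2.2 + d.2 * d.2 : ℤ) : ℝ) = Q + (d.2 : ℝ) ^ 2
      push_cast
      rw [h3]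
      ring

private theorem gvy_err5x {D s : ℤ} (hD : 0 < D) {t : ℝ} (ht : |t * 1048576 - s| ≤ 1)
    (ds : List (ℤ × ℤ)) :
    ‖gcx (gvy D ds s).1.1 - 1073741824 * sV5x D t ds‖ ≤ (gvy D ds s).2.1 ∧
    ‖gcx (gvy D ds s).1.2 - 1073741824 * sY5x D t ds‖ ≤ (gvy D ds s).2.2.1 ∧
    ((gvy D ds s).2.2.2 : ℝ) = sQ5x ds := by
  have h := gvy_acc5x hD ht ds (((0, 0), (0, 0)), (0, 0, 0)) 0 0 0 (by simp [gcx]) (by simp [gcx])
    (by simp)
  rw [zero_add, zero_add, zero_add] at h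
  exact h

/-! ### arithmetic -/

private theorem fl5 (a b : ℤ) (hb : 0 < b) :
    ((a / b : ℤ) : ℝ) ≤ (a : ℝ) / b ∧ (a : ℝ) / b ≤ ((a / b : ℤ) : ℝ) + 1 := by
  have hb' : (0 : ℝ) < b := by exact_mod_cast hb
  have h1 : b * (a / b) ≤ a := Int.mul_ediv_self_le hb.ne'
  have h2 : a < b * (a / b) + b := by
    have := Int.lt_mul_ediv_self_add (x := a) hb
    exact this
  have h1' : (b : ℝ) * ((a / b : ℤ) : ℝ) ≤ a := by exact_mod_cast h1
  have h2' : (a : ℝ) < b * ((a / b : ℤ) : ℝ) + b := by exact_mod_cast h2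
  constructor
  · rw [le_div_iff₀ hb']
    linarith
  · rw [div_le_iff₀ hb']
    nlinarith

private theorem nsq5 (x : ℤ × ℤ) : ‖gcx x‖ ^ 2 = (x.1 : ℝ) * x.1 + (x.2 : ℝ) * x.2 := by
  rw [← Complex.normSq_eq_norm_sq, Complex.normSq_apply]
  simp [gcx]

private theorem nle5 (x : ℤ × ℤ) : ‖gcx x‖ ≤ |(x.1 : ℝ)| + |(x.2 : ℝ)| := by
  have := Complex.norm_le_abs_re_add_abs_im (gcx x)
  simpa [gcx] using this

private theorem re5 (x y : ℤ × ℤ) : (gcx x * (starRingEnd ℂ) (gcx y)).re =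
    (x.1 : ℝ) * y.1 + (x.2 : ℝ) * y.2 := by
  simp [gcx, Complex.mul_re]

private theorem pi5 : Real.pi < 22 / 7 := by
  have := Real.pi_lt_d4
  norm_num at this ⊢
  linarith

/-! ### the tests -/

theorem gbnd_sound' {d : ℤ} {lin : List (ℤ × ℤ)} {t : ℝ}
    (hlin : ∀ c ∈ lin, 0 < (c.1 : ℝ) + c.2 * t ∧ (c.1 : ℝ) + c.2 * t < 2 * d)
    {s1 s2 : ℤ} (h1 : (s1 : ℝ) ≤ t * 1048576) (h2 : t * 1048576 ≤ s2) (h : gbnd d lin s1 s2 = true) :
    False := by
  unfold gbnd at h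
  rw [List.any_eq_true] at h
  obtain ⟨c, hc, h⟩ := h
  obtain ⟨a1, a2⟩ := hlin c hc
  have mid : ∀ {x y B a b T : ℝ}, a ≤ T → T ≤ b → x + y * a ≤ B → x + y * b ≤ B → x + y * T ≤ B := by
    intro x y B a b T h1 h2 ha hb
    rcases le_total 0 y with h | h
    · nlinarith
    · nlinarith
  rw [Bool.or_eq_true, Bool.and_eq_true, Bool.and_eq_true, decide_eq_true_eq, decide_eq_true_eq,
    decide_eq_true_eq, decide_eq_true_eq] at h
  rcases h with ⟨h3, h4⟩ | ⟨h3, h4⟩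
  · have h3' : (c.1 : ℝ) * 1048576 + c.2 * s1 ≤ 0 := by exact_mod_cast h3
    have h4' : (c.1 : ℝ) * 1048576 + c.2 * s2 ≤ 0 := by exact_mod_cast h4
    have h5 := mid h1 h2 h3' h4'
    nlinarith
  · have h3' : (2 : ℝ) * d * 1048576 ≤ (c.1 : ℝ) * 1048576 + c.2 * s1 := by exact_mod_cast h3
    have h4' : (2 : ℝ) * d * 1048576 ≤ (c.1 : ℝ) * 1048576 + c.2 * s2 := by exact_mod_cast h4
    have h5 := mid (x := -((c.1 : ℝ) * 1048576)) (y := -(c.2 : ℝ)) (B := -(2 * (d : ℝ) * 1048576))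
      h1 h2 (by linarith) (by linarith)
    nlinarith

private theorem gtay_sound {D : ℤ} (hD : 0 < D) {ds : List (ℤ × ℤ)} {t : ℝ}
    (hsum : sV5x D t ds = 0) {s1 s2 : ℤ} (h1 : (s1 : ℝ) ≤ t * 1048576) (h2 : t * 1048576 ≤ s2)
    (h : gtay D ds s1 s2 = true) : False := by
  have hD' : (0 : ℝ) < D := by exact_mod_cast hD
  have hpi := Real.pi_pos
  have hpi7 := pi5
  obtain ⟨s, hs⟩ : ∃ s : ℤ, s = (s1 + s2) / 2 := ⟨_, rfl⟩
  obtain ⟨hh, hhd⟩ : ∃ hh : ℤ, hh = (s2 - s1) / 2 + 2 := ⟨_, rfl⟩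
  obtain ⟨X, hX⟩ : ∃ X, X = gvy D ds s := ⟨_, rfl⟩
  unfold gtay at h
  rw [← hs, ← hhd] at h
  simp only [] at h
  rw [← hX] at h
  obtain ⟨R, hR⟩ : ∃ R : ℤ, R = 484 * hh * hh * X.2.2.2 / (100352 * D * D) + 1 := ⟨_, rfl⟩
  rw [← hR] at h
  -- the parameter
  obtain ⟨t1, ht1⟩ : ∃ t1 : ℝ, t1 = (s : ℝ) / 1048576 := ⟨_, rfl⟩
  have ht1s : |t1 * 1048576 - s| ≤ 1 := by
    rw [ht1]
    have : (s : ℝ) / 1048576 * 1048576 - s = 0 := by ring
    rw [this, abs_zero]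
    norm_num
  obtain ⟨e1, e2, e3⟩ := gvy_err5x hD ht1s ds
  rw [← hX] at e1 e2 e3
  have hxx : |t * 1048576 - s| ≤ hh := by
    have f1 := fl5 (s1 + s2) 2 (by norm_num)
    have f2 := fl5 (s2 - s1) 2 (by norm_num)
    rw [← hs] at f1
    have g1 : ((s2 - s1) / 2 : ℤ) = hh - 2 := by omega
    rw [g1] at f2
    push_cast at f1 f2
    rw [abs_le]
    constructor <;> linarith [f1.1, f1.2, f2.1, f2.2]
  have hh0 : (0 : ℝ) ≤ hh := (abs_nonneg _).trans hxx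
  obtain ⟨y, hy⟩ : ∃ y : ℝ, y = Real.pi * (t - t1) / D := ⟨_, rfl⟩
  have hyb : |y| ≤ 22 * hh / (7 * D * 1048576) := by
    have g1 : y = Real.pi / D * (t * 1048576 - s) / 1048576 := by
      rw [hy, ht1]
      field_simp
    rw [g1, abs_div, abs_mul, abs_of_pos (by positivity : (0 : ℝ) < Real.pi / D),
      abs_of_pos (by norm_num : (0 : ℝ) < 1048576)]
    have g2 : Real.pi / D * |t * 1048576 - s| ≤ 22 / 7 / D * hh :=
      mul_le_mul (div_le_div_of_nonneg_right hpi7.le hD'.le) hxx (abs_nonneg _) (by positivity)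
    calc Real.pi / D * |t * 1048576 - s| / 1048576 ≤ 22 / 7 / D * hh / 1048576 :=
          div_le_div_of_nonneg_right g2 (by norm_num)
      _ = 22 * hh / (7 * D * 1048576) := by
          field_simp
  have htay := taylor5x D t t1 ds
  rw [hsum, ← hy] at htay
  obtain ⟨V, hV⟩ : ∃ V, V = sV5x D t1 ds := ⟨_, rfl⟩
  obtain ⟨Y, hY⟩ : ∃ Y, Y = sY5x D t1 ds := ⟨_, rfl⟩
  obtain ⟨Q, hQ⟩ : ∃ Q, Q = sQ5x ds := ⟨_, rfl⟩
  have hQ0 : 0 ≤ Q := by rw [hQ]; exact sQ5x_nonneg ds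
  rw [← hV] at htay e1
  rw [← hY] at htay e2
  rw [← hQ] at htay e3
  obtain ⟨rem, hrem⟩ : ∃ rem : ℂ, rem = 0 - V - ((y : ℝ) : ℂ) * I * Y := ⟨_, rfl⟩
  rw [← hrem] at htay
  have hVe : V = -(((y : ℝ) : ℂ) * I * Y) - rem := by
    rw [hrem]
    ring
  -- the bound of the remainder
  have hRb : 1073741824 * (y ^ 2 / 2 * Q) ≤ R := by
    have f3 := (fl5 (484 * hh * hh * X.2.2.2) (100352 * D * D) (by positivity)).2
    have g1 : y ^ 2 ≤ (22 * hh / (7 * D * 1048576)) ^ 2 := by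
      rw [← sq_abs y]
      exact pow_le_pow_left₀ (abs_nonneg _) hyb 2
    have g2 : 1073741824 * (y ^ 2 / 2 * Q) ≤
        1073741824 * ((22 * hh / (7 * D * 1048576)) ^ 2 / 2 * Q) := by
      have := mul_le_mul_of_nonneg_right g1 hQ0
      linarith
    refine g2.trans ?_
    have g3 : 1073741824 * ((22 * (hh : ℝ) / (7 * D * 1048576)) ^ 2 / 2 * Q) =
        ((484 * hh * hh * X.2.2.2 : ℤ) : ℝ) / ((100352 * D * D : ℤ) : ℝ) := by
      push_cast
      rw [e3]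
      field_simp
      ring
    rw [g3, hR]
    push_cast at f3 ⊢
    exact f3
  have hR0 : (0 : ℝ) ≤ R := le_trans (by positivity) hRb
  have hremR : 1073741824 * ‖rem‖ ≤ R := by
    have := mul_le_mul_of_nonneg_left htay (by norm_num : (0 : ℝ) ≤ 1073741824)
    exact this.trans hRb
  have hE0 : (0 : ℝ) ≤ X.2.1 := (norm_nonneg _).trans e1
  have hE1 : (0 : ℝ) ≤ X.2.2.1 := (norm_nonneg _).trans e2
  have hSY : 1073741824 * ‖Y‖ ≤ ‖gcx X.1.2‖ + X.2.2.1 := by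
    have g1 : (1073741824 : ℂ) * Y = gcx X.1.2 - (gcx X.1.2 - 1073741824 * Y) := by ring
    have g2 : 1073741824 * ‖Y‖ = ‖(1073741824 : ℂ) * Y‖ := by
      rw [norm_mul, Complex.norm_ofNat]
    rw [g2, g1]
    exact (norm_sub_le _ _).trans (by linarith)
  have hXn := nle5 X.1.1
  have hZn := nle5 X.1.2
  rw [Bool.or_eq_true, Bool.and_eq_true, Bool.and_eq_true, decide_eq_true_eq, decide_eq_true_eq,
    decide_eq_true_eq, decide_eq_true_eq] at h
  rcases h with ⟨k1, k2⟩ | ⟨k1, k2⟩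
  · -- first test
    obtain ⟨B, hB⟩ : ∃ B : ℤ, B = 22 * hh * (|X.1.2.1| + |X.1.2.2| + X.2.2.1) / (7 * D * 1048576) +
      1 + R + X.2.1 := ⟨_, rfl⟩
    rw [← hB] at k1 k2
    have f4 := (fl5 (22 * hh * (|X.1.2.1| + |X.1.2.2| + X.2.2.1)) (7 * D * 1048576)
      (by positivity)).2
    have g1 : ‖gcx X.1.1‖ ≤ B := by
      have g2 : gcx X.1.1 = (gcx X.1.1 - 1073741824 * V) + 1073741824 * V := by ring
      have g3 : ‖gcx X.1.1‖ ≤ X.2.1 + 1073741824 * ‖V‖ := by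
        rw [g2]
        refine (norm_add_le _ _).trans ?_
        rw [norm_mul, Complex.norm_ofNat]
        linarith
      have g4 : ‖V‖ ≤ |y| * ‖Y‖ + ‖rem‖ := by
        rw [hVe]
        refine (norm_sub_le _ _).trans ?_
        rw [norm_neg, norm_mul, norm_mul, Complex.norm_I, mul_one, Complex.norm_real,
          Real.norm_eq_abs]
      have g5 : |y| * (1073741824 * ‖Y‖) ≤
          22 * hh / (7 * D * 1048576) * (|(X.1.2.1 : ℝ)| + |(X.1.2.2 : ℝ)| + X.2.2.1) :=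
        mul_le_mul hyb (hSY.trans (by linarith)) (by positivity) (by positivity)
      have g6 : 22 * (hh : ℝ) / (7 * D * 1048576) * (|(X.1.2.1 : ℝ)| + |(X.1.2.2 : ℝ)| + X.2.2.1) =
          ((22 * hh * (|X.1.2.1| + |X.1.2.2| + X.2.2.1) : ℤ) : ℝ) /
            ((7 * D * 1048576 : ℤ) : ℝ) := by
        push_cast
        ring
      rw [g6] at g5
      have g7 : (B : ℝ) = ((22 * hh * (|X.1.2.1| + |X.1.2.2| + X.2.2.1) / (7 * D * 1048576) : ℤ) : ℝ) +
          1 + R + X.2.1 := by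
        rw [hB]
        push_cast
        ring
      rw [g7]
      nlinarith
    have k1' : (0 : ℝ) ≤ B := by exact_mod_cast k1
    have k2' : (B : ℝ) * B < (X.1.1.1 : ℝ) * X.1.1.1 + (X.1.1.2 : ℝ) * X.1.1.2 := by
      exact_mod_cast k2
    rw [← nsq5] at k2'
    have := norm_nonneg (gcx X.1.1)
    nlinarith
  · -- second test
    obtain ⟨c, hc⟩ : ∃ c : ℤ, c = |X.1.1.1 * X.1.2.1 + X.1.1.2 * X.1.2.2| - (R * X.2.2.1 +
        (|X.1.1.1| + |X.1.1.2| + X.2.1) * X.2.2.1 + X.2.1 * (|X.1.2.1| + |X.1.2.2| + X.2.2.1)) :=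
      ⟨_, rfl⟩
    rw [← hc] at k1 k2
    have k1' : (0 : ℝ) ≤ c := by exact_mod_cast k1
    have k2' : (R : ℝ) * R * ((X.1.2.1 : ℝ) * X.1.2.1 + (X.1.2.2 : ℝ) * X.1.2.2) < (c : ℝ) * c := by
      exact_mod_cast k2
    rw [← nsq5] at k2'
    have hc' : (c : ℝ) = |(X.1.1.1 : ℝ) * X.1.2.1 + (X.1.1.2 : ℝ) * X.1.2.2| - (R * X.2.2.1 +
        (|(X.1.1.1 : ℝ)| + |(X.1.1.2 : ℝ)| + X.2.1) * X.2.2.1 +
          X.2.1 * (|(X.1.2.1 : ℝ)| + |(X.1.2.2 : ℝ)| + X.2.2.1)) := by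
      rw [hc]
      push_cast
      ring
    have g1 : |(gcx X.1.1 * (starRingEnd ℂ) (gcx X.1.2)).re| ≤
        R * (‖gcx X.1.2‖ + X.2.2.1) + (‖gcx X.1.1‖ * X.2.2.1 + X.2.1 * (‖gcx X.1.2‖ + X.2.2.1)) := by
      have g2 : gcx X.1.1 * (starRingEnd ℂ) (gcx X.1.2) =
          (1073741824 * V) * (starRingEnd ℂ) (1073741824 * Y) +
          (gcx X.1.1 * (starRingEnd ℂ) (gcx X.1.2 - 1073741824 * Y) +
            (gcx X.1.1 - 1073741824 * V) * (starRingEnd ℂ) (1073741824 * Y)) := by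
        simp only [map_sub, map_mul]
        ring
      have g3 : ((1073741824 * V) * (starRingEnd ℂ) (1073741824 * Y)).re =
          -((1073741824 * rem) * (starRingEnd ℂ) (1073741824 * Y)).re := by
        have g4 : (1073741824 * V) * (starRingEnd ℂ) (1073741824 * Y) =
            -((1073741824 * rem) * (starRingEnd ℂ) (1073741824 * Y)) -
              ((1073741824 ^ 2 * y * Complex.normSq Y : ℝ) : ℂ) * I := by
          rw [hVe]
          simp only [map_mul]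
          have g5 : Y * (starRingEnd ℂ) Y = (Complex.normSq Y : ℂ) := Complex.mul_conj Y
          have g6 : (starRingEnd ℂ) (1073741824 : ℂ) = 1073741824 := by
            have := Complex.conj_ofReal 1073741824
            push_cast at this
            exact this
          rw [g6]
          push_cast
          linear_combination (-(1073741824 ^ 2 * (y : ℂ) * I)) * g5
        rw [g4, Complex.sub_re, Complex.neg_re, Complex.mul_I_re, Complex.ofReal_im]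
        ring
      have hSYn : ‖(starRingEnd ℂ) ((1073741824 : ℂ) * Y)‖ ≤ ‖gcx X.1.2‖ + X.2.2.1 := by
        rw [Complex.norm_conj, norm_mul, Complex.norm_ofNat]
        exact hSY
      rw [g2, Complex.add_re, g3]
      refine (abs_add_le _ _).trans (add_le_add ?_ ?_)
      · rw [abs_neg]
        refine (Complex.abs_re_le_norm _).trans ?_
        rw [norm_mul]
        refine mul_le_mul ?_ hSYn (norm_nonneg _) hR0
        rw [norm_mul, Complex.norm_ofNat]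
        exact hremR
      · refine (Complex.abs_re_le_norm _).trans ((norm_add_le _ _).trans ?_)
        rw [norm_mul, norm_mul]
        refine add_le_add ?_ ?_
        · refine mul_le_mul_of_nonneg_left ?_ (norm_nonneg _)
          rw [Complex.norm_conj]
          exact e2
        · exact mul_le_mul e1 hSYn (norm_nonneg _) hE0
    rw [re5] at g1
    have g2 : (c : ℝ) ≤ R * ‖gcx X.1.2‖ := by
      rw [hc']
      have p1 : ‖gcx X.1.1‖ * X.2.2.1 ≤ (|(X.1.1.1 : ℝ)| + |(X.1.1.2 : ℝ)|) * X.2.2.1 :=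
        mul_le_mul_of_nonneg_right hXn hE1
      have p2 : (X.2.1 : ℝ) * ‖gcx X.1.2‖ ≤ X.2.1 * (|(X.1.2.1 : ℝ)| + |(X.1.2.2 : ℝ)|) :=
        mul_le_mul_of_nonneg_left hZn hE0
      have p3 : (0 : ℝ) ≤ X.2.1 * X.2.2.1 := mul_nonneg hE0 hE1
      nlinarith
    have g3 : (c : ℝ) * c ≤ (R * ‖gcx X.1.2‖) * (R * ‖gcx X.1.2‖) :=
      mul_le_mul g2 g2 k1' (by positivity)
    nlinarith

private theorem gloc_sound {D : ℤ} (hD : 0 < D) {ds : List (ℤ × ℤ)} {t : ℝ}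
    (hsum : sV5x D t ds = 0) {p q : ℤ} (hq : 0 < q) (hz : sV5x D ((p : ℝ) / q) ds = 0) {s1 s2 : ℤ}
    (h1 : (s1 : ℝ) ≤ t * 1048576) (h2 : t * 1048576 ≤ s2) (h : gloc D ds p q s1 s2 = true) :
    t = (p : ℝ) / q := by
  have hD' : (0 : ℝ) < D := by exact_mod_cast hD
  have hq' : (0 : ℝ) < q := by exact_mod_cast hq
  have hpi := Real.pi_pos
  have hpi7 := pi5
  obtain ⟨s, hs⟩ : ∃ s : ℤ, s = p * 1048576 / q := ⟨_, rfl⟩
  obtain ⟨hh, hhd⟩ : ∃ hh : ℤ, hh = max |s1 * q - p * 1048576| |s2 * q - p * 1048576| / q + 1 :=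
    ⟨_, rfl⟩
  obtain ⟨X, hX⟩ : ∃ X, X = gvy D ds s := ⟨_, rfl⟩
  unfold gloc at h
  rw [← hs, ← hhd] at h
  simp only [] at h
  rw [← hX, decide_eq_true_eq] at h
  obtain ⟨t0, ht0⟩ : ∃ t0 : ℝ, t0 = (p : ℝ) / q := ⟨_, rfl⟩
  rw [← ht0] at hz ⊢
  have ht0s : |t0 * 1048576 - s| ≤ 1 := by
    have f1 := fl5 (p * 1048576) q hq
    rw [← hs] at f1
    push_cast at f1
    have g1 : t0 * 1048576 = (p : ℝ) * 1048576 / q := by
      rw [ht0]
      ring
    rw [g1, abs_le]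
    constructor <;> linarith [f1.1, f1.2]
  obtain ⟨e1, e2, e3⟩ := gvy_err5x hD ht0s ds
  rw [← hX] at e1 e2 e3
  have hxx : |t - t0| * 1048576 ≤ hh := by
    have f2 := (fl5 (max |s1 * q - p * 1048576| |s2 * q - p * 1048576|) q hq).2
    have g1 : ((max |s1 * q - p * 1048576| |s2 * q - p * 1048576| / q : ℤ) : ℝ) + 1 = hh := by
      rw [hhd]
      push_cast
      ring
    rw [g1] at f2
    refine le_trans ?_ f2
    rw [le_div_iff₀ hq']
    push_cast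
    have g2 : |t - t0| * 1048576 * q = |t * 1048576 * q - p * 1048576| := by
      have g3 : t * 1048576 * q - p * 1048576 = (t - t0) * (1048576 * q) := by
        rw [ht0]
        field_simp
      rw [g3, abs_mul, abs_of_pos (by positivity : (0 : ℝ) < 1048576 * q)]
      ring
    rw [g2]
    rcases abs_cases (t * 1048576 * q - (p : ℝ) * 1048576) with ⟨h3, _⟩ | ⟨h3, _⟩
    · rw [h3]
      refine le_trans ?_ (le_max_right _ _)
      refine le_trans ?_ (le_abs_self _)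
      have := mul_le_mul_of_nonneg_right h2 hq'.le
      linarith
    · rw [h3]
      refine le_trans ?_ (le_max_left _ _)
      refine le_trans ?_ (neg_le_abs _)
      have := mul_le_mul_of_nonneg_right h1 hq'.le
      linarith
  have htay := taylor5x D t t0 ds
  rw [hsum, hz] at htay
  obtain ⟨Y, hY⟩ : ∃ Y, Y = sY5x D t0 ds := ⟨_, rfl⟩
  obtain ⟨Q, hQ⟩ : ∃ Q, Q = sQ5x ds := ⟨_, rfl⟩
  have hQ0 : 0 ≤ Q := by rw [hQ]; exact sQ5x_nonneg ds
  rw [← hY] at htay e2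
  rw [← hQ] at htay e3
  have hE1 : (0 : ℝ) ≤ X.2.2.1 := (norm_nonneg _).trans e2
  by_contra hne
  have hx0 : 0 < |t - t0| := abs_pos.2 (sub_ne_zero.2 hne)
  have g0 : ‖(0 : ℂ) - 0 - ((Real.pi * (t - t0) / D : ℝ) : ℂ) * I * Y‖ =
      Real.pi * |t - t0| / D * ‖Y‖ := by
    rw [sub_zero, zero_sub, norm_neg, norm_mul, norm_mul, Complex.norm_I, mul_one,
      Complex.norm_real, Real.norm_eq_abs, abs_div, abs_mul, abs_of_pos hpi, abs_of_pos hD']
  rw [g0] at htay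
  have g1 : 2 * D * ‖Y‖ ≤ Real.pi * |t - t0| * Q := by
    have g2 : (Real.pi * (t - t0) / D) ^ 2 / 2 * Q =
        Real.pi * |t - t0| / D * (Real.pi * |t - t0| / (2 * D) * Q) := by
      rw [← sq_abs (Real.pi * (t - t0) / D), abs_div, abs_mul, abs_of_pos hpi, abs_of_pos hD']
      field_simp
    rw [g2] at htay
    have g3 : ‖Y‖ ≤ Real.pi * |t - t0| / (2 * D) * Q :=
      le_of_mul_le_mul_left htay (by positivity)
    have g4 := mul_le_mul_of_nonneg_left g3 (by positivity : (0 : ℝ) ≤ 2 * D)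
    refine g4.trans (le_of_eq ?_)
    field_simp
  have g2 : 1073741824 * ‖Y‖ ≥ ‖gcx X.1.2‖ - X.2.2.1 := by
    have g3 : gcx X.1.2 = (gcx X.1.2 - 1073741824 * Y) + 1073741824 * Y := by ring
    have g4 : ‖gcx X.1.2‖ ≤ X.2.2.1 + 1073741824 * ‖Y‖ := by
      rw [g3]
      refine (norm_add_le _ _).trans ?_
      rw [norm_mul, Complex.norm_ofNat]
      linarith
    linarith
  have g3 : 14 * D * ‖gcx X.1.2‖ ≤ hh * 22 * X.2.2.2 * 1024 + 14 * D * X.2.2.1 := by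
    have g4 : 7 * (Real.pi * |t - t0| * Q) * 1073741824 ≤ hh * 22 * Q * 1024 := by
      have g5 : Real.pi * (|t - t0| * 1048576) ≤ 22 / 7 * hh :=
        mul_le_mul hpi7.le hxx (by positivity) (by norm_num)
      have g6 := mul_le_mul_of_nonneg_right g5 hQ0
      nlinarith
    rw [e3]
    have g5 : 14 * D * (1073741824 * ‖Y‖) ≤ 7 * (Real.pi * |t - t0| * Q) * 1073741824 := by
      nlinarith
    have g6 : 14 * D * (‖gcx X.1.2‖ - X.2.2.1) ≤ 14 * D * (1073741824 * ‖Y‖) :=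
      mul_le_mul_of_nonneg_left g2 (by positivity)
    linarith
  have h' : ((hh : ℝ) * 22 * X.2.2.2 * 1024 + 14 * D * X.2.2.1) *
      (hh * 22 * X.2.2.2 * 1024 + 14 * D * X.2.2.1) <
      (14 * D) * (14 * D) * ((X.1.2.1 : ℝ) * X.1.2.1 + (X.1.2.2 : ℝ) * X.1.2.2) := by
    exact_mod_cast h
  rw [← nsq5] at h'
  have g4 : 0 ≤ 14 * D * ‖gcx X.1.2‖ := by positivity
  nlinarith

theorem gtree_sound' {d : ℤ} (hd : 0 < d) {ds : List (ℤ × ℤ)} {φ : ℕ → ℝ} {t : ℝ}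
    (hφ : ∀ j < ds.length, (d : ℝ) * φ j = Real.pi * ((ds.getD j (0, 0)).1 + (ds.getD j (0, 0)).2 * t))
    (hsum : ∑ j ∈ Finset.range ds.length, gz (φ j) = 0) {lin : List (ℤ × ℤ)}
    (hlin : ∀ c ∈ lin, 0 < (c.1 : ℝ) + c.2 * t ∧ (c.1 : ℝ) + c.2 * t < 2 * d) {pts : List (ℤ × ℤ)}
    (hq : ∀ x ∈ pts, 0 < x.2)
    (hz : ∀ x ∈ pts, ∀ ψ : ℕ → ℝ, (∀ j < ds.length, (d : ℝ) * ψ j =
      Real.pi * ((ds.getD j (0, 0)).1 + (ds.getD j (0, 0)).2 * ((x.1 : ℝ) / x.2))) →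
        ∑ j ∈ Finset.range ds.length, gz (ψ j) = 0)
    {tr : GT} {s1 s2 : ℤ} (h1 : (s1 : ℝ) ≤ t * 1048576) (h2 : t * 1048576 ≤ s2)
    (h : gtree d lin ds pts tr s1 s2 = true) :
    ∃ x ∈ pts, t = (x.1 : ℝ) / x.2 := by
  rw [sum_eq_sV5x hd hφ] at hsum
  have hz' : ∀ x ∈ pts, sV5x d ((x.1 : ℝ) / x.2) ds = 0 := by
    intro x hx
    have h3 : ∀ j < ds.length, (d : ℝ) * (fun j => th5x d ((x.1 : ℝ) / x.2) (ds.getD j (0, 0))) j =
        Real.pi * ((ds.getD j (0, 0)).1 + (ds.getD j (0, 0)).2 * ((x.1 : ℝ) / x.2)) :=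
      fun j _ => th5x_eq hd
    rw [← sum_eq_sV5x hd h3]
    exact hz x hx _ h3
  clear hz hφ
  induction tr generalizing s1 s2 with
  | l k =>
    match k with
    | 0 => exact absurd h (fun h => gbnd_sound' hlin h1 h2 h)
    | 1 => exact absurd h (fun h => gtay_sound hd hsum h1 h2 h)
    | k + 2 =>
      have h3 : (match pts[k]? with
        | none => false
        | some x => gloc d ds x.1 x.2 s1 s2) = true := h
      rcases hp : pts[k]? with _ | x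
      · rw [hp] at h3
        exact absurd h3 (by simp)
      · rw [hp] at h3
        have hx : x ∈ pts := List.mem_of_getElem? hp
        exact ⟨x, hx, gloc_sound hd hsum (hq x hx) (hz' x hx) h1 h2 h3⟩
  | s a b iha ihb =>
    have h3 : (gtree d lin ds pts a s1 ((s1 + s2) / 2) &&
      gtree d lin ds pts b ((s1 + s2) / 2) s2) = true := h
    rw [Bool.and_eq_true] at h3
    rcases le_total (t * 1048576) (((s1 + s2) / 2 : ℤ) : ℝ) with h4 | h4
    · exact iha h1 h4 h3.1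
    · exact ihb h4 h2 h3.2

end Pool.Agent.Lib_MP_fa6e45
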