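import Pool.Agent.Lib_MP_fa6e45.CX0
import Pool.Agent.Lib_MP_fa6e45.CS6
import Pool.Agent.Lib_MP_fa6e45.CX5a

/-!
PIECE CX5 (about 400 lines): the numerical check `gtree` with exceptional parameters. Models: `gfl_c6`, `gsum_c6`,
`gtest_c6`, `gbis_c6` in CS6.lean (private there, copy what is needed; here there is only one class of chords and the
directions are `gz (φ j)` for given numbers `φ j`), `gdir_err` (H6a). `ds` are the `(α j, β j)`,
`d * φ j = π (α j + β j t)`. Write `S = 2 ^ 30`, `T = 2 ^ 20`.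

(A) `gvy d ds s = ((X, Z), (E0, E1, Q))`: if `|t₁ T - s| ≤ 1` and `e j = gz (ψ j)`, `d * ψ j = π (α j + β j t₁)`, then
`‖gcx X - S ∑ e j‖ ≤ E0`, `‖gcx Z - S ∑ β j e j‖ ≤ E1`, `Q = ∑ β j ^ 2` (`gdir_err` with `hh = 1`; induction on the list).

(B) Taylor: with `t = t₁ + x`: `∑ gz (φ j) = ∑ e j + i (π x / d) ∑ β j e j + rem`, `‖rem‖ ≤ (π x / d) ^ 2 Q / 2`, because
`gz (φ j) = e j * exp (i π β j x / d)` and `‖exp (i y) - 1 - i y‖ ≤ y ^ 2 / 2`.

(C) `gtay`: `t₁ = s / T`, `|x| ≤ hh / T`, `R' = 484 hh² Q / (100352 d²) + 1 ≥ S (π x / d) ^ 2 Q / 2` (`π < 22 / 7`). If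
`∑ gz (φ j) = 0` then `S |V| ≤ (π |x| / d) S |Y| + R'`, hence `|X| ≤ B` (first test); and
`S² |Re (V conj Y)| = S² |Re (rem conj Y)| ≤ R' S |Y| ≤ R' (|Z| + E1)`, hence `c ≤ R' |Z|` (second test; for the errors:
`|X conj Z - SV conj (SY)| ≤ |X| E1 + E0 (|Z| + E1)`).

(D) `gloc`: `t₁ = t₀ = p / q`, `∑ e j = 0`. If `x ≠ 0`: `(π |x| / d) |Y| ≤ (π x / d) ^ 2 Q / 2`, so
`2 d |Y| ≤ π |x| Q`, `14 d S |Y| ≤ 22 * 1024 hh Q`, against the test. So `x = 0`.

(E) `gtree`: induction on the tree.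
-/

open Set MeasureTheory Complex
open scoped Topology

namespace Pool.Agent.Lib_MP_fa6e45

open Pool.Agent.Lib_PL (cr InSector Poly)

theorem gbnd_sound {d : ℤ} {lin : List (ℤ × ℤ)} {t : ℝ}
    (hlin : ∀ c ∈ lin, 0 < (c.1 : ℝ) + c.2 * t ∧ (c.1 : ℝ) + c.2 * t < 2 * d)
    {s1 s2 : ℤ} (h1 : (s1 : ℝ) ≤ t * 1048576) (h2 : t * 1048576 ≤ s2) (h : gbnd d lin s1 s2 = true) :
    False := by
  exact gbnd_sound' hlin h1 h2 h

theorem gtree_sound {d : ℤ} (hd : 0 < d) {ds : List (ℤ × ℤ)} {φ : ℕ → ℝ} {t : ℝ}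
    (hφ : ∀ j < ds.length, (d : ℝ) * φ j = Real.pi * ((ds.getD j (0, 0)).1 + (ds.getD j (0, 0)).2 * t))
    (hsum : ∑ j ∈ Finset.range ds.length, gz (φ j) = 0) {lin : List (ℤ × ℤ)}
    (hlin : ∀ c ∈ lin, 0 < (c.1 : ℝ) + c.2 * t ∧ (c.1 : ℝ) + c.2 * t < 2 * d) {pts : List (ℤ × ℤ)}
    (hq : ∀ x ∈ pts, 0 < x.2)
    (hz : ∀ x ∈ pts, ∀ ψ : ℕ → ℝ, (∀ j < ds.length, (d : ℝ) * ψ j =
      Real.pi * ((ds.getD j (0, 0)).1 + (ds.getD j (0, 0)).2 * ((x.1 : ℝ) / x.2))) →
        ∑ j ∈ Finset.range ds.length, gz (ψ j) = 0)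
    {tr : GT} {s1 s2 : ℤ} (h1 : (s1 : ℝ) ≤ t * 1048576) (h2 : t * 1048576 ≤ s2)
    (h : gtree d lin ds pts tr s1 s2 = true) :
    ∃ x ∈ pts, t = (x.1 : ℝ) / x.2 := by
  exact gtree_sound' hd hφ hsum hlin hq hz h1 h2 h

private theorem sum_getD_c5 (f : ℕ → ℂ) : ∀ l : List ℕ,
    (l.map f).sum = ∑ j ∈ Finset.range l.length, f (l.getD j 0)
  | [] => by simp
  | a :: l => by
      rw [List.map_cons, List.sum_cons, List.length_cons, Finset.sum_range_succ', sum_getD_c5 f l, add_comm]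
      simp

private theorem sum_range_c5 (f : ℕ → ℂ) (i k : ℕ) :
    (((List.range k).map fun j => i + j).map f).sum = ∑ j ∈ Finset.range k, f (i + j) := by
  induction k with
  | zero => simp
  | succ k ih =>
    rw [List.range_succ, List.map_append, List.map_append, List.sum_append, ih, Finset.sum_range_succ]
    simp

private theorem sum_flatten_c5 (f : ℕ → ℂ) : ∀ gr : List (List ℕ), (∀ g ∈ gr, (g.map f).sum = 0) →
    (gr.flatten.map f).sum = 0
  | [], _ => by simp
  | g :: gr, h => by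
      rw [List.flatten_cons, List.map_append, List.sum_append, h g (by simp),
        sum_flatten_c5 f gr fun x hx => h x (by simp [hx]), add_zero]

/-- the sum of equally spaced directions -/
private theorem eqsp_c5 {l : ℕ} (hl : 2 ≤ l) :
    ∑ j ∈ Finset.range l, gz (2 * Real.pi * j / l) = 0 := by
  have hl0 : l ≠ 0 := by omega
  have h1 := (Complex.isPrimitiveRoot_exp l hl0).geom_sum_eq_zero (by omega)
  rw [← h1]
  refine Finset.sum_congr rfl fun j _ => ?_
  unfold gz
  rw [← Complex.exp_nat_mul]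
  push_cast
  ring_nf

/-- groups of equally spaced directions (sum over a group of `l ≥ 2`: `l`-th roots of unity) -/
theorem vanB_sound {d : ℤ} (hd : 0 < d) {ds : List (ℤ × ℤ)} {p q : ℤ} (hq : 0 < q) {i k : ℕ}
    {gr : List (List ℕ)} (h : vanB d ds p q i k gr = true) {φ : ℕ → ℝ}
    (hφ : ∀ j < k, (d : ℝ) * φ (i + j) =
      Real.pi * ((ds.getD (i + j) (0, 0)).1 + (ds.getD (i + j) (0, 0)).2 * ((p : ℝ) / q))) :
    ∑ j ∈ Finset.range k, gz (φ (i + j)) = 0 := by
  unfold vanB at h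
  rw [Bool.and_eq_true, Bool.and_eq_true] at h
  obtain ⟨⟨h1, h2⟩, h3⟩ := h
  rw [beq_iff_eq] at h2
  rw [List.all_eq_true] at h1 h3
  have hd' : (0 : ℝ) < d := by exact_mod_cast hd
  have hq' : (0 : ℝ) < q := by exact_mod_cast hq
  -- the flattened list is a permutation
  obtain ⟨L0, hL0⟩ : ∃ L : List ℕ, L = (List.range k).map fun j => i + j := ⟨_, rfl⟩
  have hnd : L0.Nodup := by
    rw [hL0]
    exact (List.nodup_range).map fun a b hab => by simpa using hab
  have hsub : L0 ⊆ gr.flatten := by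
    intro x hx
    rw [hL0, List.mem_map] at hx
    obtain ⟨j, hj, rfl⟩ := hx
    have := h3 j hj
    rw [List.contains_iff_mem] at this
    exact this
  have hperm : L0.Perm gr.flatten := by
    refine (hnd.subperm hsub).perm_of_length_le ?_
    rw [h2, hL0, List.length_map, List.length_range]
  have hval : ∀ x ∈ gr.flatten, φ x = Real.pi * (vnum ds p q x / (d * q)) := by
    intro x hx
    have hx' := hperm.mem_iff.2 hx
    rw [hL0, List.mem_map] at hx'
    obtain ⟨j, hj, rfl⟩ := hx'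
    have h4 := hφ j (List.mem_range.1 hj)
    unfold vnum
    push_cast
    have h5 : φ (i + j) = (Real.pi * ((ds.getD (i + j) (0, 0)).1 + (ds.getD (i + j) (0, 0)).2 * ((p : ℝ) / q))) / d := by
      rw [← h4]
      field_simp
    rw [h5]
    field_simp
  have key : ∀ g ∈ gr, (g.map fun x => gz (φ x)).sum = 0 := by
    intro g hg
    have h4 := h1 g hg
    rw [Bool.and_eq_true, decide_eq_true_eq, List.all_eq_true] at h4
    obtain ⟨hl, h5⟩ := h4
    rw [sum_getD_c5]
    have hmem : ∀ j < g.length, g.getD j 0 ∈ gr.flatten := by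
      intro j hj
      rw [List.getD_eq_getElem g 0 hj]
      exact List.mem_flatten.2 ⟨g, hg, List.getElem_mem hj⟩
    have hl' : (0 : ℝ) < g.length := by
      have : 0 < g.length := by omega
      exact_mod_cast this
    have h6 : ∀ j ∈ Finset.range g.length, gz (φ (g.getD j 0)) =
        gz (φ (g.getD 0 0)) * gz (2 * Real.pi * j / g.length) := by
      intro j hj
      rw [Finset.mem_range] at hj
      have h7 := h5 j (List.mem_range.2 hj)
      rw [beq_iff_eq] at h7
      obtain ⟨c, hc⟩ := Int.dvd_of_emod_eq_zero h7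
      have h8 : (g.length : ℝ) * (vnum ds p q (g.getD j 0) - vnum ds p q (g.getD 0 0)) - 2 * j * (d * q) =
          2 * g.length * (d * q) * c := by
        exact_mod_cast hc
      have h9 : φ (g.getD j 0) = φ (g.getD 0 0) + 2 * Real.pi * j / g.length + c * (2 * Real.pi) := by
        rw [hval _ (hmem j hj), hval _ (hmem 0 (by omega))]
        have h10 : (vnum ds p q (g.getD j 0) : ℝ) = vnum ds p q (g.getD 0 0) +
            (2 * j * (d * q) + 2 * g.length * (d * q) * c) / g.length := by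
          field_simp
          linarith
        rw [h10]
        field_simp
        ring
      rw [h9, gz_period, gz_add]
    rw [Finset.sum_congr rfl h6, ← Finset.mul_sum, eqsp_c5 hl, mul_zero]
  calc ∑ j ∈ Finset.range k, gz (φ (i + j))
      = (((List.range k).map fun j => i + j).map fun x => gz (φ x)).sum :=
        (sum_range_c5 (fun x => gz (φ x)) i k).symm
    _ = (gr.flatten.map fun x => gz (φ x)).sum := by
        rw [← hL0]
        exact (hperm.map _).sum_eq
    _ = 0 := sum_flatten_c5 _ gr key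

end Pool.Agent.Lib_MP_fa6e45
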