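import Pool.Agent.Lib_MP_fa6e45.CZ1

/-!
MP_fa6e45_co, stage 8: exact sums of directions (soundness of `zzB`, `zrelB`).
-/

open Set MeasureTheory Complex
open scoped Topology

namespace Pool.Agent.Lib_MP_fa6e45

/-- value of a list -/
noncomputable def zev (D : ℕ) (A : List (ℤ × ℤ)) : ℂ :=
  (A.map fun a => (a.1 : ℂ) * gz (Real.pi * (a.2 : ℝ) / D)).sum

theorem zev_append (D : ℕ) (A B : List (ℤ × ℤ)) : zev D (A ++ B) = zev D A + zev D B := by
  unfold zev
  rw [List.map_append, List.sum_append]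

theorem zev_sc (D : ℕ) (c : ℤ) (A : List (ℤ × ℤ)) : zev D (zsc c A) = (c : ℂ) * zev D A := by
  unfold zev zsc
  induction A with
  | nil => simp
  | cons a A ih =>
    simp only [List.map_cons, List.sum_cons] at ih ⊢
    rw [ih]
    push_cast
    ring

private theorem gz_conj4 (y : ℝ) : (starRingEnd ℂ) (gz y) = gz (-y) := by
  apply Complex.ext
  · rw [Complex.conj_re, gz_re, gz_re, Real.cos_neg]
  · rw [Complex.conj_im, gz_im, gz_im, Real.sin_neg]

theorem zev_con (D : ℕ) (A : List (ℤ × ℤ)) : zev D (zcon A) = (starRingEnd ℂ) (zev D A) := by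
  unfold zev zcon
  induction A with
  | nil => simp
  | cons a A ih =>
    simp only [List.map_cons, List.sum_cons] at ih ⊢
    rw [ih, map_add, map_mul, gz_conj4]
    congr 2
    · simp
    · congr 1
      push_cast
      ring

theorem zev_mul (D : ℕ) (A B : List (ℤ × ℤ)) : zev D (zmul A B) = zev D A * zev D B := by
  have h1 : ∀ a : ℤ × ℤ, zev D (B.map fun b => (a.1 * b.1, a.2 + b.2)) =
      (a.1 : ℂ) * gz (Real.pi * (a.2 : ℝ) / D) * zev D B := by
    intro a
    unfold zev
    induction B with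
    | nil => simp
    | cons b B ih =>
      simp only [List.map_cons, List.sum_cons] at ih ⊢
      rw [ih]
      have e : gz (Real.pi * ((a.2 + b.2 : ℤ) : ℝ) / D) =
          gz (Real.pi * (a.2 : ℝ) / D) * gz (Real.pi * (b.2 : ℝ) / D) := by
        rw [← gz_add]
        congr 1
        push_cast
        ring
      rw [e]
      push_cast
      ring
  unfold zmul
  induction A with
  | nil => simp [zev]
  | cons a A ih =>
    rw [List.flatMap_cons, zev_append, h1, ih]
    have e : zev D (a :: A) = (a.1 : ℂ) * gz (Real.pi * (a.2 : ℝ) / D) + zev D A := by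
      unfold zev
      rw [List.map_cons, List.sum_cons]
    rw [e]
    ring

private theorem e_per {D : ℕ} (hD : 0 < D) (k j : ℤ) :
    gz (Real.pi * ((k + 2 * D * j : ℤ) : ℝ) / D) = gz (Real.pi * (k : ℝ) / D) := by
  have hD' : (D : ℝ) ≠ 0 := by exact_mod_cast hD.ne'
  have e : Real.pi * ((k + 2 * D * j : ℤ) : ℝ) / D = Real.pi * (k : ℝ) / D + j * (2 * Real.pi) := by
    push_cast
    field_simp
  rw [e, gz_period]

private theorem zev_eq {D : ℕ} (hD : 0 < D) (A : List (ℤ × ℤ)) :
    zev D A = ∑ k ∈ Finset.range (2 * D), (zco D A (k : ℤ) : ℂ) * gz (Real.pi * ((k : ℤ) : ℝ) / D) := by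
  induction A with
  | nil => simp [zev, zco]
  | cons a A ih =>
    have e1 : zev D (a :: A) = (a.1 : ℂ) * gz (Real.pi * (a.2 : ℝ) / D) + zev D A := by
      unfold zev
      rw [List.map_cons, List.sum_cons]
    have e2 : ∀ k : ℤ, zco D (a :: A) k = (if (a.2 - k) % (2 * (D : ℤ)) = 0 then a.1 else 0) + zco D A k := by
      intro k
      unfold zco
      rw [List.map_cons, List.sum_cons]
    rw [e1, ih]
    simp only [e2]
    push_cast
    simp only [add_mul]
    rw [Finset.sum_add_distrib]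
    congr 1
    have hN : (0 : ℤ) < 2 * D := by omega
    have h0 := Int.emod_nonneg a.2 hN.ne'
    have h1 := Int.emod_lt_of_pos a.2 hN
    obtain ⟨r, hr⟩ : ∃ r : ℕ, (r : ℤ) = a.2 % (2 * D) := ⟨(a.2 % (2 * D)).toNat, Int.toNat_of_nonneg h0⟩
    have hr2 : r ∈ Finset.range (2 * D) := by
      rw [Finset.mem_range]
      have : (r : ℤ) < 2 * D := by rw [hr]; exact h1
      omega
    rw [Finset.sum_eq_single_of_mem r hr2]
    · have h2 : (a.2 - (r : ℤ)) % (2 * (D : ℤ)) = 0 := by
        rw [← Int.emod_eq_emod_iff_emod_sub_eq_zero, hr, Int.emod_emod_of_dvd _ (dvd_refl _)]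
      rw [if_pos h2]
      have h3 : a.2 = (r : ℤ) + 2 * D * (a.2 / (2 * D)) := by
        rw [hr]
        exact (Int.emod_add_mul_ediv a.2 (2 * D)).symm
      have h4 := e_per hD (r : ℤ) (a.2 / (2 * D))
      rw [← h3] at h4
      rw [h4]
      push_cast
      rfl
    · intro k hk hkr
      rw [if_neg, zero_mul]
      intro h2
      apply hkr
      rw [← Int.emod_eq_emod_iff_emod_sub_eq_zero] at h2
      have h5 : ((k : ℕ) : ℤ) % (2 * D) = k := Int.emod_eq_of_lt (by omega) (by
        have := Finset.mem_range.1 hk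
        omega)
      rw [h5, ← hr] at h2
      exact_mod_cast h2.symm

/-- shifted sums of a periodic function -/
private theorem shift_sum {N : ℕ} {F : ℤ → ℂ} (hF : ∀ k, F (k + N) = F k) (h : ℕ) :
    ∑ k ∈ Finset.range N, F ((k : ℤ) + h) = ∑ k ∈ Finset.range N, F (k : ℤ) := by
  induction h with
  | zero => simp
  | succ h ih =>
    have h1 := Finset.sum_range_succ' (fun k : ℕ => F ((k : ℤ) + h)) N
    have h2 := Finset.sum_range_succ (fun k : ℕ => F ((k : ℤ) + h)) N
    rw [h2] at h1
    have h3 : F ((N : ℤ) + h) = F ((0 : ℕ) + (h : ℤ)) := by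
      rw [add_comm, hF]
      simp
    rw [h3] at h1
    have h4 := add_right_cancel h1
    rw [← ih, h4]
    refine Finset.sum_congr rfl fun k _ => ?_
    congr 1
    push_cast
    ring

private theorem group_sum {D : ℕ} (hD : 0 < D) {s h : ℤ} (h0 : 0 < h) (h1 : h < 2 * D)
    (h2 : (2 * (D : ℤ)) % h = 0) :
    ∑ k ∈ Finset.range (2 * D), (if ((k : ℤ) - s) % h = 0 then gz (Real.pi * ((k : ℤ) : ℝ) / D) else 0) = 0 := by
  have hD' : (D : ℝ) ≠ 0 := by exact_mod_cast hD.ne'
  set F : ℤ → ℂ := fun k => if (k - s) % h = 0 then gz (Real.pi * (k : ℝ) / D) else 0 with hF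
  obtain ⟨q, hq⟩ : ∃ q : ℤ, 2 * (D : ℤ) = h * q := ⟨2 * D / h, (Int.mul_ediv_cancel' (Int.dvd_of_emod_eq_zero h2)).symm⟩
  have hper : ∀ k, F (k + ((2 * D : ℕ) : ℤ)) = F k := by
    intro k
    simp only [hF]
    have e1 : (k + ((2 * D : ℕ) : ℤ) - s) % h = (k - s) % h := by
      have : k + ((2 * D : ℕ) : ℤ) - s = k - s + h * q := by
        push_cast
        rw [← hq]
        ring
      rw [this, Int.add_mul_emod_self_left]
    have e2 := e_per hD k 1
    rw [e1]
    have e3 : k + ((2 * D : ℕ) : ℤ) = k + 2 * D * 1 := by push_cast; ring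
    rw [e3, e2]
  have hsh : ∀ k, F (k + h) = gz (Real.pi * (h : ℝ) / D) * F k := by
    intro k
    simp only [hF]
    have e1 : (k + h - s) % h = (k - s) % h := by
      have : k + h - s = k - s + h * 1 := by ring
      rw [this, Int.add_mul_emod_self_left]
    rw [e1]
    by_cases h3 : (k - s) % h = 0
    · rw [if_pos h3, if_pos h3, ← gz_add]
      congr 1
      push_cast
      ring
    · rw [if_neg h3, if_neg h3, mul_zero]
  obtain ⟨h', hh'⟩ : ∃ h' : ℕ, (h' : ℤ) = h := ⟨h.toNat, Int.toNat_of_nonneg h0.le⟩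
  have h3 := shift_sum hper h'
  rw [hh'] at h3
  simp only [hsh] at h3
  rw [← Finset.mul_sum] at h3
  have h4 : gz (Real.pi * (h : ℝ) / D) ≠ 1 := by
    intro h5
    unfold gz at h5
    rw [Complex.exp_eq_one_iff] at h5
    obtain ⟨z, hz⟩ := h5
    have h6 : ((Real.pi * (h : ℝ) / D : ℝ) : ℂ) = ((z * (2 * Real.pi) : ℝ) : ℂ) := by
      have h7 : (((Real.pi * (h : ℝ) / D : ℝ) : ℂ) - ((z * (2 * Real.pi) : ℝ) : ℂ)) * Complex.I = 0 := by
        rw [sub_mul, hz]
        push_cast
        ring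
      rcases mul_eq_zero.1 h7 with h8 | h8
      · exact sub_eq_zero.1 h8
      · exact absurd h8 Complex.I_ne_zero
    have h7 : Real.pi * (h : ℝ) / D = z * (2 * Real.pi) := by exact_mod_cast h6
    have h8 : (h : ℝ) = 2 * D * z := by
      have hpi := Real.pi_ne_zero
      field_simp at h7
      linarith
    have h9 : h = 2 * D * z := by exact_mod_cast h8
    have h10 : 0 < z := by
      by_contra h11
      have : z ≤ 0 := by omega
      nlinarith
    nlinarith
  have h5 : (gz (Real.pi * (h : ℝ) / D) - 1) * ∑ k ∈ Finset.range (2 * D), F (k : ℤ) = 0 := by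
    rw [sub_mul, h3, one_mul, sub_self]
  rcases mul_eq_zero.1 h5 with h6 | h6
  · exact absurd (sub_eq_zero.1 h6) h4
  · exact h6

private theorem cast_sum (gr : List (ℤ × ℤ × ℤ)) (k : ℤ) :
    (((gr.map fun g => if (k - g.2.1) % g.2.2 = 0 then g.1 else 0).sum : ℤ) : ℂ) =
      (gr.map fun g => if (k - g.2.1) % g.2.2 = 0 then (g.1 : ℂ) else 0).sum := by
  induction gr with
  | nil => simp
  | cons g gr ih =>
    simp only [List.map_cons, List.sum_cons]
    push_cast
    rw [← ih]
    push_cast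
    rfl

theorem zzB_sound {D : ℕ} (hD : 0 < D) {A : List (ℤ × ℤ)} {gr : List (ℤ × ℤ × ℤ)}
    (h : zzB D A gr = true) : zev D A = 0 := by
  unfold zzB at h
  simp only [Bool.and_eq_true, List.all_eq_true, decide_eq_true_eq, beq_iff_eq] at h
  obtain ⟨h1, h2⟩ := h
  rw [zev_eq hD]
  have e1 : ∀ k ∈ Finset.range (2 * D), (zco D A (k : ℤ) : ℂ) * gz (Real.pi * ((k : ℤ) : ℝ) / D) =
      (gr.map fun g => (g.1 : ℂ) * (if ((k : ℤ) - g.2.1) % g.2.2 = 0 then
        gz (Real.pi * ((k : ℤ) : ℝ) / D) else 0)).sum := by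
    intro k hk
    rw [h2 k (List.mem_range.2 (Finset.mem_range.1 hk)), cast_sum]
    clear h1 h2 hk
    induction gr with
    | nil => simp
    | cons g gr ih =>
      simp only [List.map_cons, List.sum_cons]
      rw [add_mul, ih]
      congr 1
      split_ifs <;> simp
  rw [Finset.sum_congr rfl e1]
  clear e1 h2
  induction gr with
  | nil => simp
  | cons g gr ih =>
    simp only [List.map_cons, List.sum_cons]
    rw [Finset.sum_add_distrib, ih fun x hx => h1 x (List.mem_cons_of_mem _ hx), add_zero,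
      ← Finset.mul_sum]
    obtain ⟨⟨h3, h4⟩, h5⟩ := h1 g (List.mem_cons_self ..)
    rw [group_sum hD h3 h4 h5, mul_zero]

/-- exact relations between the class sums -/
theorem zrelB_sound {D K : ℕ} (hD : 0 < D) {e : ℤ} {al be : List (ℤ × ℤ)} {X Y : ℕ → List (ℤ × ℤ)}
    {grs : List (List (ℤ × ℤ × ℤ))} (h : zrelB D K e al be X Y grs = true) {l : ℕ → ℝ}
    (hX : ∑ c ∈ Finset.range K, (l c : ℂ) * zev D (X c) = 0) (he : e ≠ 0) :
    ∑ c ∈ Finset.range K, (l c : ℂ) * zev D (Y c) = 0 := by
  unfold zrelB at h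
  rw [List.all_eq_true] at h
  have h1 : ∀ c ∈ Finset.range K, (e : ℂ) * ((l c : ℂ) * zev D (Y c)) =
      zev D al * ((l c : ℂ) * zev D (X c)) + zev D be * ((l c : ℂ) * (starRingEnd ℂ) (zev D (X c))) := by
    intro c hc
    have h2 := zzB_sound hD (h c (List.mem_range.2 (Finset.mem_range.1 hc)))
    rw [zev_append, zev_append, zev_sc, zev_sc, zev_sc, zev_mul, zev_mul, zev_con] at h2
    push_cast at h2
    linear_combination (l c : ℂ) * h2
  have hX' : ∑ c ∈ Finset.range K, (l c : ℂ) * (starRingEnd ℂ) (zev D (X c)) = 0 := by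
    have h2 := congrArg (starRingEnd ℂ) hX
    rw [map_sum, map_zero] at h2
    rw [← h2]
    refine Finset.sum_congr rfl fun c _ => ?_
    rw [map_mul, Complex.conj_ofReal]
  have h3 : (e : ℂ) * ∑ c ∈ Finset.range K, (l c : ℂ) * zev D (Y c) = 0 := by
    rw [Finset.mul_sum, Finset.sum_congr rfl h1, Finset.sum_add_distrib, ← Finset.mul_sum,
      ← Finset.mul_sum, hX, hX', mul_zero, mul_zero, add_zero]
  have he' : (e : ℂ) ≠ 0 := by exact_mod_cast he
  exact (mul_eq_zero.1 h3).resolve_left he'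

/-- sums over sides by classes -/
theorem zcl_sum {D : ℕ} {w : List ℕ} {ds : List (ℤ × ℤ)} {lo k K : ℕ} (hK : ∀ j < k, clW w (lo + j) < K)
    (l : ℕ → ℝ) : ∑ j ∈ Finset.range k, (l (clW w (lo + j)) : ℂ) *
      gz (Real.pi * ((ds.getD (lo + j) (0, 0)).1 : ℝ) / D) =
      ∑ c ∈ Finset.range K, (l c : ℂ) * zev D (zcl w ds lo k c) := by
  induction k with
  | zero => simp [zcl, zev]
  | succ k ih =>
    rw [Finset.sum_range_succ, ih fun j hj => hK j (by omega)]
    have e1 : ∀ c, zev D (zcl w ds lo (k + 1) c) = zev D (zcl w ds lo k c) +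
        (if clW w (lo + k) = c then gz (Real.pi * ((ds.getD (lo + k) (0, 0)).1 : ℝ) / D) else 0) := by
      intro c
      unfold zcl
      rw [List.range_succ, List.flatMap_append, zev_append]
      congr 1
      simp only [List.flatMap_cons, List.flatMap_nil, List.append_nil]
      split_ifs with h1
      · simp [zev]
      · simp [zev]
    simp only [e1, mul_add]
    rw [Finset.sum_add_distrib]
    congr 1
    simp only [mul_ite, mul_zero]
    rw [Finset.sum_ite_eq (Finset.range K) (clW w (lo + k)), if_pos (Finset.mem_range.2 (hK k (by omega)))]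

end Pool.Agent.Lib_MP_fa6e45
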