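import Pool.Agent.Lib_MP_fa6e45.CZ3
import Pool.Agent.Lib_MP_fa6e45.CZ4
import Pool.Agent.Lib_MP_fa6e45.CX5

/-!
MP_fa6e45_co, stage 8: soundness of the node `num` and of certificates (CZ0).
-/

open Set MeasureTheory Complex
open scoped Topology

namespace Pool.Agent.Lib_MP_fa6e45

open Pool.Agent.Lib_PL (cr InSector Poly)

variable {n : ℕ} {P : Polygon n} {m : ℕ} [NeZero m]

/-! ### directions (copies of private lemmas of CX6) -/

/-- sum of the outer angles at the corners `1, .., j` (angles `A` in units of `π`) -/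
private noncomputable def phZ (A : ZMod m → ℝ) (j : ℕ) : ℝ :=
  ∑ s ∈ Finset.range j, (Real.pi * (1 - A ((s + 1 : ℕ) : ZMod m)))

private theorem dr_z (S : Arcs P m) (hm : 2 ≤ m) {a : ZMod m → ℝ} (hch : S.ChordAng a) (j : ℕ) :
    S.ch (j : ZMod m) / (‖S.ch (j : ZMod m)‖ : ℂ) =
      S.ch 0 / (‖S.ch 0‖ : ℂ) * gz (phZ a j) := by
  induction j with
  | zero =>
    unfold phZ
    rw [Finset.range_zero, Finset.sum_empty, gz_zero, mul_one, Nat.cast_zero]
  | succ j ih =>
    have h1 : phZ a (j + 1) = phZ a j + Real.pi * (1 - a ((j + 1 : ℕ) : ZMod m)) := by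
      unfold phZ
      rw [Finset.sum_range_succ]
    rw [h1, gz_add, ← mul_assoc, ← ih]
    have h2 := hch.dir hm (j : ZMod m)
    have h3 : ((j + 1 : ℕ) : ZMod m) = (j : ZMod m) + 1 := by push_cast; rfl
    rw [h3]
    exact h2

private theorem sum_z (S : Arcs P m) : ∑ j : ZMod m, S.ch j = 0 := by
  unfold Arcs.ch
  rw [Finset.sum_sub_distrib]
  have h := Equiv.sum_comp (Equiv.addRight (1 : ZMod m)) S.V
  simp only [Equiv.coe_addRight] at h
  rw [h, sub_self]

private theorem single_z (f : ZMod m → ℝ) {x : ℕ} (hx : x < m) (e : ℝ) :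
    ∑ i : ZMod m, (if i.val = x then e else 0) * f i = e * f ((x : ℕ) : ZMod m) := by
  rw [Finset.sum_eq_single ((x : ℕ) : ZMod m)]
  · rw [ZMod.val_natCast_of_lt hx, if_pos rfl]
  · intro i _ hi
    rw [if_neg, zero_mul]
    intro h
    apply hi
    rw [← h, ZMod.natCast_zmod_val]
  · intro h
    exact absurd (Finset.mem_univ _) h

private theorem gder_z {A : ZMod m → ℝ} {eqs : List Eqn} (hE : ∀ E ∈ eqs, Eqn.Holds E A) {D : ℤ}
    {f : ℕ} (hf : f < m) {lin : List (ℤ × ℤ)} {cs : List (ℤ × List ℤ)}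
    (h : gder m eqs D f lin cs = true) {j : ℕ} (hj : j < m) :
    (D : ℝ) * A (j : ZMod m) = (lin.getD j (0, 0)).1 + (lin.getD j (0, 0)).2 * A (f : ZMod m) := by
  unfold gder at h
  rw [List.all_eq_true] at h
  have h0 := h j (List.mem_range.2 hj)
  rw [Bool.and_eq_true, Bool.and_eq_true, List.all_eq_true, bne_iff_ne, beq_iff_eq] at h0
  obtain ⟨⟨h1, h2⟩, h3⟩ := h0
  obtain ⟨c, hc⟩ : ∃ c, c = cs.getD j (0, []) := ⟨_, rfl⟩
  obtain ⟨l, hl⟩ : ∃ l, l = lin.getD j (0, 0) := ⟨_, rfl⟩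
  rw [← hc] at h1 h2 h3
  rw [← hl] at h2 h3
  rw [← hl]
  have hlc := lc_holds hE c.2
  have h5 : ∀ i : ZMod m, ((lcCo c.2 eqs i.val : ℤ) : ℝ) * A i =
      (c.1 : ℝ) * ((if i.val = j then (D : ℝ) else 0) * A i -
        (if i.val = f then (l.2 : ℝ) else 0) * A i) := by
    intro i
    have h6 := h2 i.val (List.mem_range.2 (ZMod.val_lt i))
    rw [beq_iff_eq] at h6
    rw [h6]
    push_cast
    ring
  rw [Finset.sum_congr rfl (fun i _ => h5 i), ← Finset.mul_sum, Finset.sum_sub_distrib,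
    single_z A hj, single_z A hf, h3] at hlc
  push_cast at hlc
  have h7 : (c.1 : ℝ) ≠ 0 := by exact_mod_cast h1
  have h8 := mul_left_cancel₀ h7 hlc
  linarith

/-- the partial sums in `gdirs` -/
private def gsc_z (D : ℤ) : ℤ × ℤ → List (ℤ × ℤ) → List (ℤ × ℤ)
  | _, [] => []
  | p, c :: l => (p.1 + D - c.1, p.2 - c.2) :: gsc_z D (p.1 + D - c.1, p.2 - c.2) l

private theorem gfold_z (D : ℤ) (l : List (ℤ × ℤ)) (p : ℤ × ℤ) (acc : List (ℤ × ℤ)) :
    (l.foldl (fun (x : (ℤ × ℤ) × List (ℤ × ℤ)) (c : ℤ × ℤ) =>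
      ((x.1.1 + D - c.1, x.1.2 - c.2), x.2 ++ [(x.1.1 + D - c.1, x.1.2 - c.2)])) (p, acc)).2 =
      acc ++ gsc_z D p l := by
  induction l generalizing p acc with
  | nil => simp [gsc_z]
  | cons c l ih =>
    rw [List.foldl_cons, ih]
    simp [gsc_z]

private theorem gdirs_z (D : ℤ) (lin : List (ℤ × ℤ)) :
    gdirs D lin = (0, 0) :: gsc_z D (0, 0) lin.tail := by
  unfold gdirs
  rw [gfold_z]
  rfl

private theorem gsc_get_z (D : ℤ) (p : ℤ × ℤ) (l : List (ℤ × ℤ)) (j : ℕ) (hj : j < l.length) :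
    (p :: gsc_z D p l).getD (j + 1) (0, 0) =
      (((p :: gsc_z D p l).getD j (0, 0)).1 + D - (l.getD j (0, 0)).1,
        ((p :: gsc_z D p l).getD j (0, 0)).2 - (l.getD j (0, 0)).2) := by
  induction l generalizing p j with
  | nil => exact absurd hj (by simp)
  | cons c l ih =>
    cases j with
    | zero => rfl
    | succ j =>
      exact ih (p.1 + D - c.1, p.2 - c.2) j (by simpa using hj)

omit [NeZero m] in
private theorem phi_z (A : ZMod m → ℝ) {D : ℤ} {lin : List (ℤ × ℤ)} (hl : lin.length = m) {t : ℝ}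
    (hA : ∀ j < m, (D : ℝ) * A (j : ZMod m) =
      (lin.getD j (0, 0)).1 + (lin.getD j (0, 0)).2 * t) (j : ℕ) (hj : j < m) :
    (D : ℝ) * phZ A j = Real.pi * (((gdirs D lin).getD j (0, 0)).1 +
      ((gdirs D lin).getD j (0, 0)).2 * t) := by
  induction j with
  | zero =>
    rw [gdirs_z]
    unfold phZ
    simp
  | succ j ih =>
    have ih' := ih (by omega)
    have h1 : phZ A (j + 1) = phZ A j + Real.pi * (1 - A ((j + 1 : ℕ) : ZMod m)) := by
      unfold phZ
      rw [Finset.sum_range_succ]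
    have h2 : (gdirs D lin).getD (j + 1) (0, 0) =
        (((gdirs D lin).getD j (0, 0)).1 + D - (lin.getD (j + 1) (0, 0)).1,
          ((gdirs D lin).getD j (0, 0)).2 - (lin.getD (j + 1) (0, 0)).2) := by
      have h3 : lin.getD (j + 1) (0, 0) = lin.tail.getD j (0, 0) := by
        cases lin with
        | nil => rfl
        | cons c l => rfl
      rw [gdirs_z, h3]
      refine gsc_get_z D (0, 0) lin.tail j ?_
      rw [List.length_tail, hl]
      omega
    have h4 := hA (j + 1) hj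
    have h5 : (D : ℝ) * (Real.pi * A ((j + 1 : ℕ) : ZMod m)) =
        Real.pi * ((lin.getD (j + 1) (0, 0)).1 + (lin.getD (j + 1) (0, 0)).2 * t) := by
      rw [← h4]
      ring
    have h6 : (D : ℝ) * (Real.pi * (1 - A ((j + 1 : ℕ) : ZMod m))) =
        D * Real.pi - D * (Real.pi * A ((j + 1 : ℕ) : ZMod m)) := by ring
    rw [h1, h2, mul_add, ih', h6, h5]
    push_cast
    ring

/-! ### the closing relation -/

private theorem close_z (S : Arcs P m) (hm : 2 ≤ m) {A : ZMod m → ℝ} (hch : S.ChordAng A)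
    {w : List ℕ} (hlen : ∀ j k : ZMod m, clW w j.val = clW w k.val → ‖S.ch j‖ = ‖S.ch k‖) :
    ∃ l : ℕ → ℝ, (∀ c, 0 < l c) ∧
      (∀ θ : ℝ, ∑ j ∈ Finset.range m, l (clW w j) * Real.cos (phZ A j - θ) = 0) ∧
      ∃ u : ℂ, u ≠ 0 ∧ ‖u‖ = 1 ∧ (∀ j < m, S.ch (j : ZMod m) = u * ((l (clW w j) : ℂ) * gz (phZ A j))) ∧
        (∀ j : ZMod m, ‖S.ch j‖ = l (clW w j.val)) ∧
        ∑ j ∈ Finset.range m, (l (clW w j) : ℂ) * gz (phZ A j) = 0 := by
  classical
  have hpos : ∀ j, 0 < ‖S.ch j‖ := fun j => norm_pos_iff.2 (S.ch_ne hm j)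
  have hL : ∀ c : ℕ, ∃ x : ℝ, 0 < x ∧ ∀ j : ZMod m, clW w j.val = c → ‖S.ch j‖ = x := by
    intro c
    by_cases h : ∃ j : ZMod m, clW w j.val = c
    · obtain ⟨j, hj⟩ := h
      exact ⟨‖S.ch j‖, hpos j, fun k hk => hlen k j (hk.trans hj.symm)⟩
    · exact ⟨1, one_pos, fun k hk => absurd ⟨k, hk⟩ h⟩
  choose l hl0 hl using hL
  have h1 := sum_z S
  have h2 : ∑ j : ZMod m, S.ch j = ∑ j ∈ Finset.range m, S.ch (j : ZMod m) := by
    refine Finset.sum_bij (fun j _ => j.val) ?_ ?_ ?_ ?_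
    · intro j _
      exact Finset.mem_range.2 (ZMod.val_lt j)
    · intro j _ k _ h
      exact ZMod.val_injective m h
    · intro q hq
      refine ⟨(q : ZMod m), Finset.mem_univ _, ?_⟩
      exact ZMod.val_natCast_of_lt (Finset.mem_range.1 hq)
    · intro j _
      rw [ZMod.natCast_zmod_val]
  rw [h2] at h1
  have hd0 : S.ch 0 / (‖S.ch 0‖ : ℂ) ≠ 0 := by
    refine div_ne_zero (S.ch_ne hm 0) ?_
    have h3 := (hpos 0).ne'
    exact_mod_cast h3
  have hch' : ∀ j < m, S.ch (j : ZMod m) =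
      S.ch 0 / (‖S.ch 0‖ : ℂ) * ((l (clW w j) : ℂ) * gz (phZ A j)) := by
    intro j hj
    have h6 := dr_z S hm hch j
    have h7 : (‖S.ch (j : ZMod m)‖ : ℂ) ≠ 0 := by
      have h8 := (hpos (j : ZMod m)).ne'
      exact_mod_cast h8
    rw [div_eq_iff h7] at h6
    have h8 : ‖S.ch (j : ZMod m)‖ = l (clW w j) := by
      apply hl
      rw [ZMod.val_natCast_of_lt hj]
    rw [h6, h8]
    ring
  have h3 : ∑ j ∈ Finset.range m, S.ch (j : ZMod m) =
      S.ch 0 / (‖S.ch 0‖ : ℂ) * ∑ j ∈ Finset.range m, (l (clW w j) : ℂ) * gz (phZ A j) := by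
    rw [Finset.mul_sum]
    exact Finset.sum_congr rfl fun j hj => hch' j (Finset.mem_range.1 hj)
  rw [h3, mul_eq_zero] at h1
  have h4 := h1.resolve_left hd0
  refine ⟨l, hl0, fun θ => ?_, S.ch 0 / (‖S.ch 0‖ : ℂ), hd0, ?_, hch', fun j => hl _ j rfl, h4⟩
  swap
  · rw [norm_div, Complex.norm_real, norm_norm, div_self (hpos 0).ne']
  have h5 : (gz (-θ) * ∑ j ∈ Finset.range m, (l (clW w j) : ℂ) * gz (phZ A j)).re = 0 := by
    rw [h4, mul_zero]
    rfl
  rw [Finset.mul_sum, Complex.re_sum] at h5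
  rw [← h5]
  refine Finset.sum_congr rfl fun j _ => ?_
  have e : gz (-θ) * ((l (clW w j) : ℂ) * gz (phZ A j)) = (l (clW w j) : ℂ) * gz (phZ A j - θ) := by
    rw [sub_eq_add_neg, gz_add]
    ring
  rw [e, Complex.re_ofReal_mul, gz_re]

/-! ### the tree -/

private theorem mid_z {t : ℝ} {s1 s2 : ℤ} (h1 : (s1 : ℝ) ≤ t * 1048576) (h2 : t * 1048576 ≤ s2) :
    |t * 1048576 - ((s1 + s2) / 2 : ℤ)| ≤ ((s2 - s1) / 2 + 1 : ℤ) := by
  have e1 : (((s1 + s2) / 2 : ℤ) : ℝ) ≤ ((s1 : ℝ) + s2) / 2 := by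
    have : 2 * ((s1 + s2) / 2) ≤ s1 + s2 := by omega
    have h4 : ((2 * ((s1 + s2) / 2) : ℤ) : ℝ) ≤ ((s1 + s2 : ℤ) : ℝ) := by exact_mod_cast this
    push_cast at h4
    linarith
  have e2 : ((s1 : ℝ) + s2) / 2 - 1 / 2 ≤ (((s1 + s2) / 2 : ℤ) : ℝ) := by
    have : s1 + s2 - 1 ≤ 2 * ((s1 + s2) / 2) := by omega
    have h4 : ((s1 + s2 - 1 : ℤ) : ℝ) ≤ ((2 * ((s1 + s2) / 2) : ℤ) : ℝ) := by exact_mod_cast this
    push_cast at h4
    linarith
  have e3 : ((s2 : ℝ) - s1) / 2 + 1 / 2 ≤ (((s2 - s1) / 2 + 1 : ℤ) : ℝ) := by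
    have : s2 - s1 - 1 ≤ 2 * ((s2 - s1) / 2) := by omega
    have h4 : ((s2 - s1 - 1 : ℤ) : ℝ) ≤ ((2 * ((s2 - s1) / 2) : ℤ) : ℝ) := by exact_mod_cast this
    push_cast at h4 ⊢
    linarith
  rw [abs_le]
  constructor <;> linarith

private theorem ztree_sound (S : Arcs P m) (hw : ∀ j, S.w j = 1) {w : List ℕ} {K : ℕ} {D : ℤ} (hD : 0 < D)
    {lin ds : List (ℤ × ℤ)} {t : ℝ} (hlen : lin.length = m)
    (hlin : ∀ j < m, 0 < ((lin.getD j (0, 0)).1 : ℝ) + (lin.getD j (0, 0)).2 * t ∧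
      ((lin.getD j (0, 0)).1 : ℝ) + (lin.getD j (0, 0)).2 * t < 2 * D)
    {l : ℕ → ℝ} (hl : ∀ c, 0 < l c) (hK : ∀ j < m, clW w j < K) {u : ℂ} (hu : u ≠ 0)
    (hch : ∀ j < m, S.ch (j : ZMod m) = u * ((l (clW w j) : ℂ) * gz (zang D t (ds.getD j (0, 0)))))
    (hsum : ∀ θ : ℝ, ∑ j ∈ Finset.range m, l (clW w j) * Real.cos (zang D t (ds.getD j (0, 0)) - θ) = 0)
    {tr : ZL} {s1 s2 : ℤ} (h1 : (s1 : ℝ) ≤ t * 1048576) (h2 : t * 1048576 ≤ s2)
    (h : ztree m w K D lin ds tr s1 s2 = true) : False := by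
  induction tr generalizing s1 s2 with
  | bnd =>
    refine gbnd_sound (d := D) (lin := lin) (t := t) (fun c hc => ?_) h1 h2 h
    obtain ⟨j, hj, rfl⟩ := List.getElem_of_mem hc
    have h3 := hlin j (by omega)
    rw [List.getD_eq_getElem _ _ hj] at h3
    exact h3
  | dir mu nu it =>
    have h3 : zdirB m w K D lin ds mu nu it s1 s2 ((s1 + s2) / 2) ((s2 - s1) / 2 + 1) = true := h
    exact zdirB_sound hD hlin hl hK hsum h1 h2 (mid_z h1 h2) h3
  | crs p q r M1 M2 M3 M4 =>
    have h3 : crsB m w K D ds p q r M1 M2 M3 M4 ((s1 + s2) / 2) ((s2 - s1) / 2 + 1) = true := h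
    exact crsB_sound S hw hD hl hK hu hch hsum (mid_z h1 h2) h3
  | spl a b iha ihb =>
    have h3 : (ztree m w K D lin ds a s1 ((s1 + s2) / 2) &&
      ztree m w K D lin ds b ((s1 + s2) / 2) s2) = true := h
    rw [Bool.and_eq_true] at h3
    rcases le_total (t * 1048576) (((s1 + s2) / 2 : ℤ) : ℝ) with h4 | h4
    · exact iha h1 h4 h3.1
    · exact ihb h4 h2 h3.2

/-! ### nodes -/

private theorem okL_of_cls {x y : ℕ} (h : okL x x false = true) (h2 : x / 16 = y / 16) :
    okL x y false = true := by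
  unfold okL at h ⊢
  have e1 : Nat.beq (Nat.div x 16) (Nat.div x 16) = true := Nat.beq_refl _
  have e2 : Nat.beq (Nat.div x 16) (Nat.div y 16) = true := by
    have h3 : Nat.div x 16 = Nat.div y 16 := h2
    rw [h3]
    exact Nat.beq_refl _
  rw [e1, cond_true] at h
  rw [e2, cond_true]
  have e3 : Nat.xor (Nat.xor (Nat.mod x 4) (Nat.mod x 4)) (bif false then 1 else 2) = 2 := by
    have : Nat.xor (Nat.mod x 4) (Nat.mod x 4) = 0 := Nat.xor_self _
    rw [this]
    rfl
  rw [e3] at h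
  have e4 : Nat.mod (Nat.div x 4) 4 = 0 := by
    by_contra hne
    have hlt : Nat.mod (Nat.div x 4) 4 < 4 := Nat.mod_lt _ (by norm_num)
    revert h hne hlt
    generalize Nat.mod (Nat.div x 4) 4 = k
    intro h hne hlt
    interval_cases k
    · exact hne rfl
    · exact absurd h (by decide)
    · exact absurd h (by decide)
    · exact absurd h (by decide)
  rw [e4]
  rfl

/-- what is known in the nodes `num`, `exa` -/
private theorem zlin_core (hm : 3 ≤ m) {w : List ℕ} {S : Arcs P m} {b : ZMod m → ℝ} (M : SitU w P S b)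
    {eqs : List Eqn} (hB : ∀ E ∈ eqs, Eqn.Holds E b) {K : ℕ} {d : ℤ} {f : ℕ} {lin : List (ℤ × ℤ)}
    {cs : List (ℤ × List ℤ)} (h : zlinB m w eqs K d f lin cs = true) :
    0 < d ∧ lin.length = m ∧ (∀ j, S.w j = 1) ∧ (∀ j < m, clW w j < K) ∧
    (0 < b (f : ZMod m) ∧ b (f : ZMod m) < 2) ∧
    (∀ j < m, 0 < ((lin.getD j (0, 0)).1 : ℝ) + (lin.getD j (0, 0)).2 * b (f : ZMod m) ∧
      ((lin.getD j (0, 0)).1 : ℝ) + (lin.getD j (0, 0)).2 * b (f : ZMod m) < 2 * d) ∧
    ∃ l : ℕ → ℝ, (∀ c, 0 < l c) ∧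
      (∀ θ : ℝ, ∑ j ∈ Finset.range m, l (clW w j) *
        Real.cos (zang d (b (f : ZMod m)) ((gdirs d lin).getD j (0, 0)) - θ) = 0) ∧
      ∃ u : ℂ, u ≠ 0 ∧ ‖u‖ = 1 ∧ (∀ j < m, S.ch (j : ZMod m) = u * ((l (clW w j) : ℂ) *
        gz (zang d (b (f : ZMod m)) ((gdirs d lin).getD j (0, 0))))) ∧
        (∀ j : ZMod m, ‖S.ch j‖ = l (clW w j.val)) ∧
        ∑ j ∈ Finset.range m, (l (clW w j) : ℂ) *
          gz (zang d (b (f : ZMod m)) ((gdirs d lin).getD j (0, 0))) = 0 := by
  unfold zlinB at h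
  simp only [Bool.and_eq_true, decide_eq_true_eq, beq_iff_eq] at h
  obtain ⟨⟨⟨⟨⟨g1, g2⟩, g3⟩, g4⟩, g5⟩, g6⟩ := h
  rw [List.all_eq_true] at g2
  have hrel : ∀ j k c, relT w j k c = true → S.Rel j k c := fun j k c => (M.rel j k c).2
  have hst : ∀ j : ZMod m, okL (nthF 0 w j.val) (nthF 0 w j.val) false = true := by
    intro j
    unfold strB at g1
    rw [List.all_eq_true] at g1
    exact g1 j.val (List.mem_range.2 (ZMod.val_lt j))
  have hs : ∀ j, S.Minus j j := by
    intro j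
    have h3 : S.Rel j j false := by
      apply hrel
      have h5 := hst j
      rw [nthF_eq] at h5
      exact h5
    simpa [Arcs.Rel] using h3
  obtain ⟨σ, ε, hp, hmi, hb⟩ := M.off
  have hb2 : ∀ j, b j = P.ang (S.κ j) / Real.pi := by
    intro j
    have e1 := (hmi (j - 1) (j - 1) (hs (j - 1))).2
    have e2 := (hmi j j (hs j)).1
    rw [hb j]
    have e3 : ε (j - 1) = 0 := by linarith
    have e4 : σ j = 0 := by linarith
    rw [e3, e4]
    ring
  have hb0 : ∀ j, 0 < b j := by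
    intro j
    rw [hb2]
    exact div_pos (P.ang_pos _) Real.pi_pos
  have hb3 : ∀ j, b j < 2 := by
    intro j
    rw [hb2, div_lt_iff₀ Real.pi_pos]
    exact P.ang_lt _
  have hlen : ∀ j k : ZMod m, clW w j.val = clW w k.val → ‖S.ch j‖ = ‖S.ch k‖ := by
    intro j k hjk
    have e2 := hst j
    have e3 : S.Rel j k false := by
      apply hrel
      unfold relT
      rw [← nthF_eq 0 w j.val, ← nthF_eq 0 w k.val]
      refine okL_of_cls e2 ?_
      rw [nthF_eq, nthF_eq]
      exact hjk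
    exact S.norm_minus (by simpa [Arcs.Rel] using e3)
  obtain ⟨l, hl, hsum, u, hu, hu1, hch, hnl, hcl⟩ := close_z S (by omega) M.chord hlen
  have hd' : (0 : ℝ) < d := by exact_mod_cast g3
  have hA : ∀ j < m, (d : ℝ) * b (j : ZMod m) =
      (lin.getD j (0, 0)).1 + (lin.getD j (0, 0)).2 * b (f : ZMod m) := fun j hj => gder_z hB g4 g6 hj
  have hphi := phi_z b g5 hA
  have hz : ∀ j < m, zang d (b (f : ZMod m)) ((gdirs d lin).getD j (0, 0)) = phZ b j := by
    intro j hj
    have h3 := hphi j hj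
    unfold zang
    rw [← h3]
    field_simp
  refine ⟨g3, g5, fun j => S.minus_self j (hs j), fun j hj => ?_, ⟨hb0 _, hb3 _⟩, fun j hj => ?_,
    l, hl, fun θ => ?_, u, hu, hu1, fun j hj => ?_, hnl, ?_⟩
  · have := g2 j (List.mem_range.2 hj)
    rwa [decide_eq_true_eq] at this
  · rw [← hA j hj]
    have h3 := hb0 (j : ZMod m)
    have h4 := hb3 (j : ZMod m)
    constructor
    · positivity
    · nlinarith
  · rw [← hsum θ]
    refine Finset.sum_congr rfl fun j hj => ?_
    rw [hz j (Finset.mem_range.1 hj)]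
  · rw [hz j hj]
    exact hch j hj
  · rw [← hcl]
    refine Finset.sum_congr rfl fun j hj => ?_
    rw [hz j (Finset.mem_range.1 hj)]

theorem chkZ_sound (hm : 3 ≤ m) (hm' : m ≤ 8) {w : List ℕ} {tt : List TorT}
    (htt : ∀ T ∈ tt, T.OK m) {sy : List (Bool × ℕ × List ℕ)} (hsy : ∀ g ∈ sy, symT m w g = true)
    {D : ℕ → List Eqn} {i : ℕ} (hD : ∀ j < i, NodeU m w (D j)) {N : ZN}
    (h : chkZ m w tt sy D i N = true) : NodeU m w (D i) := by
  cases N with
  | x N =>
    intro n P S b M ha hb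
    exact chkY_sound hm hm' htt hsy hD h P S b M ha hb
  | num K d f lin cs tr =>
    intro n P S b M hEa hEb
    have h' : (zlinB m w (D i ++ eqs0 m []) K d f lin cs &&
        ztree m w K d lin (gdirs d lin) tr 0 2097152) = true := h
    rw [Bool.and_eq_true] at h'
    obtain ⟨h1, h2⟩ := h'
    have hB : ∀ E ∈ D i ++ eqs0 m [], Eqn.Holds E b := by
      intro E hE
      rcases List.mem_append.1 hE with h1 | h1
      · exact hEb E h1
      · exact eqs0_sound M.b_sum (fun p hp => absurd hp List.not_mem_nil)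
          (fun p hp => absurd hp List.not_mem_nil) E h1
    obtain ⟨g3, g5, hw, hK, hbf, hlin, l, hl, hsum, u, hu, -, hch, -, -⟩ := zlin_core hm M hB h1
    refine (ztree_sound S hw g3 g5 hlin hl hK hu hch hsum (tr := tr) (s1 := 0) (s2 := 2097152)
      ?_ ?_ h2).elim
    · have := hbf.1
      push_cast
      positivity
    · have := hbf.2
      push_cast
      linarith
  | exa K d lin cs E e al be grs =>
    intro n P S b M hEa hEb
    have h' : (zlinB m w (D i ++ eqs0 m []) K d 0 lin cs &&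
        zexaB m w K d lin E e al be grs) = true := h
    rw [Bool.and_eq_true] at h'
    obtain ⟨h1, h2⟩ := h'
    have hB : ∀ E ∈ D i ++ eqs0 m [], Eqn.Holds E b := by
      intro E hE
      rcases List.mem_append.1 hE with h1 | h1
      · exact hEb E h1
      · exact eqs0_sound M.b_sum (fun p hp => absurd hp List.not_mem_nil)
          (fun p hp => absurd hp List.not_mem_nil) E h1
    obtain ⟨g3, g5, hw, hK, hbf, hlin, l, hl, hsum, u, hu, hu1, hch, hnl, hcl⟩ := zlin_core hm M hB h1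
    have hd0 : 0 < d := by exact_mod_cast g3
    unfold zexaB at h2
    rw [Bool.and_eq_true, Bool.and_eq_true, List.all_eq_true, decide_eq_true_eq] at h2
    obtain ⟨⟨h3, h4⟩, h5⟩ := h2
    have hz : ∀ j, zang d (b ((0 : ℕ) : ZMod m)) ((gdirs d lin).getD j (0, 0)) =
        Real.pi * (((gdirs d lin).getD j (0, 0)).1 : ℝ) / d := by
      intro j
      have h6 : ((gdirs d lin).getD j (0, 0)).2 = 0 := by
        by_cases hj : j < (gdirs (d : ℤ) lin).length
        · rw [List.getD_eq_getElem _ _ hj]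
          have := h3 _ (List.getElem_mem hj)
          rwa [decide_eq_true_eq] at this
        · rw [List.getD_eq_default _ _ (by omega)]
      unfold zang
      rw [h6]
      push_cast
      ring
    have hX : ∑ c ∈ Finset.range K, (l c : ℂ) * zev d (zcl w (gdirs d lin) 0 m c) = 0 := by
      rw [← zcl_sum (fun j hj => hK _ (by omega)) l, ← hcl]
      refine Finset.sum_congr rfl fun j _ => ?_
      rw [Nat.zero_add, hz]
    exfalso
    cases E with
    | sub i0 k =>
      simp only [Bool.and_eq_true, decide_eq_true_eq] at h5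
      obtain ⟨⟨⟨h6, h7⟩, h8⟩, h9⟩ := h5
      have h10 := zrelB_sound hd0 h9 hX h4
      rw [← zcl_sum (fun j hj => hK _ (by omega)) l] at h10
      have h11 := sum_chZ S i0 k
      rw [Finset.sum_congr rfl (fun j hj => hch (i0 + j) (by have := Finset.mem_range.1 hj; omega)),
        ← Finset.mul_sum, Finset.sum_congr rfl (fun j _ => by rw [hz]), h10, mul_zero] at h11
      exact absurd (sub_eq_zero.1 h11.symm) (V_neZ S h6 h7)
    | eql a c0 =>
      simp only [Bool.and_eq_true, decide_eq_true_eq] at h5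
      obtain ⟨⟨⟨h6, h7⟩, h8⟩, h9⟩ := h5
      have h10 := zrelB_sound hd0 h9 hX h4
      have e1 : ∀ c, zev d ((if c = clW w a then [(1, 0)] else []) ++
          (if c = clW w c0 then [(-1, 0)] else [])) =
          (if c = clW w a then (1 : ℂ) else 0) - (if c = clW w c0 then (1 : ℂ) else 0) := by
        intro c
        rw [zev_append, sub_eq_add_neg]
        congr 1
        · split_ifs <;> simp [zev, gz_zero]
        · split_ifs <;> simp [zev, gz_zero]
      simp only [e1, mul_sub, mul_ite, mul_one, mul_zero] at h10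
      rw [Finset.sum_sub_distrib, Finset.sum_ite_eq', Finset.sum_ite_eq',
        if_pos (Finset.mem_range.2 (hK a h6)), if_pos (Finset.mem_range.2 (hK c0 h7))] at h10
      have h11 : l (clW w a) = l (clW w c0) := by exact_mod_cast sub_eq_zero.1 h10
      have h12 : S.Rel (a : ZMod m) (c0 : ZMod m) false := by
        have hlenP : ∀ j, P.len (S.κ j) = ‖S.ch j‖ := by
          intro j
          unfold Arcs.ch Arcs.V
          rw [S.step, hw j, Nat.cast_one]
          unfold Polygon.len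
          rw [dist_comm, dist_eq_norm]
        have h13 : S.Minus (a : ZMod m) (c0 : ZMod m) := by
          refine ⟨by rw [hw, hw], fun t ht => ?_, fun t ht1 ht2 => ?_⟩
          · rw [hw] at ht
            have : t = 0 := by omega
            subst this
            rw [Nat.cast_zero, add_zero, add_zero, hlenP, hlenP, hnl, hnl,
              ZMod.val_natCast_of_lt h6, ZMod.val_natCast_of_lt h7, h11]
          · rw [hw] at ht2
            omega
        simpa [Arcs.Rel] using h13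
      have h13 := (M.rel _ _ _).1 h12
      unfold relT okL at h13
      rw [ZMod.val_natCast_of_lt h6, ZMod.val_natCast_of_lt h7] at h13
      cases h14 : Nat.beq (Nat.div (w.getD a 0) 16) (Nat.div (w.getD c0 0) 16) with
      | false => rw [h14] at h13; simp at h13
      | true => exact h8 (Nat.eq_of_beq_eq_true h14)

private theorem CZ2_allI {α : Type} {g : ℕ → α → Bool} {l : List α} {i0 : ℕ}
    (h : allI g l i0 = true) (j : ℕ) (hj : j < l.length) : g (i0 + j) l[j] = true := by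
  induction l generalizing i0 j with
  | nil => exact absurd hj (by simp)
  | cons x l ih =>
    have h' : (bif g i0 x then allI g l (Nat.succ i0) else false) = true := h
    cases hx : g i0 x
    · rw [hx] at h'
      exact absurd h' (by simp)
    · rw [hx, cond_true] at h'
      cases j with
      | zero => simpa using hx
      | succ j =>
        have h2 := ih h' j (by simpa using hj)
        rw [show i0 + (j + 1) = Nat.succ i0 + j by omega]
        simpa using h2

theorem chkZC_sound (hm : 3 ≤ m) (hm' : m ≤ 8) {tt : List TorT} (htt : ∀ T ∈ tt, T.OK m)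
    {C : CertZ} (h : chkZC m tt C = true) :
    C.w = decW m (encW C.w) ∧ NodeU m C.w [] := by
  unfold chkZC at h
  simp only [Bool.and_eq_true, beq_iff_eq, List.all_eq_true, decide_eq_true_eq,
    List.isEmpty_iff] at h
  obtain ⟨⟨⟨⟨h1, h2⟩, h3⟩, h4⟩, h5⟩ := h
  refine ⟨h1, ?_⟩
  have key : ∀ i, i < C.Ns.length → NodeU m C.w (blkF [] C.D i) := by
    intro i
    induction i using Nat.strong_induction_on with
    | _ i ih =>
      intro hi
      have h6 := CZ2_allI h5 i hi
      rw [Nat.zero_add] at h6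
      intro n P S b M ha hb
      exact chkZ_sound hm hm' htt h2 (fun j hj => ih j hj (by omega)) h6 P S b M ha hb
  intro n P S b M ha hb
  refine key (C.Ns.length - 1) (by omega) P S b M ?_ ?_
  · rw [h4]
    exact ha
  · rw [h4]
    exact hb

end Pool.Agent.Lib_MP_fa6e45
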