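import Pool.Agent.Lib_MP_fa6e45.CP2
import Pool.Agent.Lib_MP_fa6e45.CX7
import Pool.Agent.Lib_MP_fa6e45.CZ2

/-!
MP_fa6e45_co, stage 9: soundness of the nodes `pt` and of certificates (CP0).
-/

open Set MeasureTheory Complex
open scoped Topology

namespace Pool.Agent.Lib_MP_fa6e45

open Pool.Agent.Lib_PL (cr InSector Poly)

variable {n : ℕ} {m : ℕ} [NeZero m]

/-! ### auxiliary facts (copies of private lemmas of CX7) -/

private theorem CP3_mdl {w : List ℕ} {P : Polygon n} {S : Arcs P m} {b : ZMod m → ℝ}
    (M : SitU w P S b) : MdlB (fun j : ZMod m => j.val)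
    (fun j => P.ang (S.κ j) / Real.pi) (fun j => P.ang (S.κ j) / Real.pi)
    (fun j k b => j = k ∧ b = true) where
  a_pos := fun i => div_pos (P.ang_pos _) Real.pi_pos
  a_lt := fun i => by
    rw [div_lt_iff₀ Real.pi_pos]
    exact P.ang_lt _
  a_ne := fun i h => by
    rw [div_eq_one_iff_eq Real.pi_ne_zero] at h
    exact P.ang_ne _ h
  a_sum := M.a_sum
  b_sum := M.a_sum
  cls_eq := fun j k b h => by rw [h.1]
  single := fun j _ => Or.inr ⟨⟨rfl, rfl⟩, fun k b h => ⟨h.1.symm, h.2⟩⟩
  twins := fun j k h h' => absurd (ZMod.val_injective m h') h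
  three := fun i j k h _ _ h' => h (ZMod.val_injective m h'.1)

omit [NeZero m] in
private theorem CP3_derG {σ σ' : ℕ → ℕ} (hσ : ∀ x < m, σ x = σ' x) {eqs : List Eqn}
    {Es : List Eqn} {cs : List (ℤ × List ℤ)} (h : derG m eqs σ Es cs = true) :
    derG m eqs σ' Es cs = true := by
  induction Es generalizing cs with
  | nil => cases cs with
    | nil => rfl
    | cons c cs =>
      unfold derG at h
      exact absurd h (by simp)
  | cons E Es ih => cases cs with
    | nil =>
      unfold derG at h
      exact absurd h (by simp)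
    | cons c cs =>
      unfold derG at h ⊢
      rw [Bool.and_eq_true, Bool.and_eq_true, Bool.and_eq_true] at h ⊢
      obtain ⟨⟨⟨h1, h2⟩, h3⟩, h4⟩ := h
      refine ⟨⟨⟨h1, ?_⟩, h3⟩, ih h4⟩
      rw [List.all_eq_true] at h2 ⊢
      intro x hx
      rw [← hσ x (List.mem_range.1 hx)]
      exact h2 x hx

omit [NeZero m] in
private theorem CP3_siC (r : Bool) (s i : ZMod m) : siC r s (sgP r s i) = i := by
  rw [show sgP r s i = sgC r s i from rfl]
  unfold siC sgC
  cases r <;> simp

/-- equations after a symmetry -/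
private theorem CP3_tr {a : ZMod m → ℝ} {r : Bool} {s : ZMod m} {eqs Es : List Eqn}
    {cs : List (ℤ × List ℤ)} {σ : ℕ → ℕ} (hσ : ∀ x < m, σ x = (sgC r s (x : ZMod m)).val)
    (h : ∀ E ∈ eqs, Eqn.Holds E a) (hd : derG m eqs σ Es cs = true) :
    ∀ E ∈ Es, Eqn.Holds E fun j => a (siC r s j) := by
  refine derG_sound (a := a) (σ := sgP r s) (fun i => ?_) h (CP3_derG hσ hd)
  show a (siC r s (sgP r s i)) = a i
  rw [CP3_siC]

private theorem CP3_ch {w : List ℕ} {P : Polygon n} {S : Arcs P m} {b : ZMod m → ℝ}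
    (M : SitU w P S b) {sy : List (Bool × ℕ × List ℕ)} (hsy : ∀ g ∈ sy, symT m w g = true)
    {D : ℕ → List Eqn} {i : ℕ} (hD : ∀ j < i, NodeU m w (D j)) {eqs : List Eqn}
    (ha : ∀ E ∈ eqs, Eqn.Holds E fun j => P.ang (S.κ j) / Real.pi)
    (hb : ∀ E ∈ eqs, Eqn.Holds E b) {cvs : List (List ℕ)}
    {ch : List HCf} (hc : chF m sy D i eqs cvs ch = true) {cv : List ℕ} (hcv : cv ∈ cvs)
    (hha : Eqn.Holds (cv.map fun x => (x : ℤ), 2) fun j => P.ang (S.κ j) / Real.pi)
    (hhb : Eqn.Holds (cv.map fun x => (x : ℤ), 2) b) :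
    HasPeriodic P := by
  induction cvs generalizing ch with
  | nil => exact absurd hcv List.not_mem_nil
  | cons cv0 cvs ih =>
    cases ch with
    | nil =>
      unfold chF at hc
      exact absurd hc (by simp)
    | cons c ch =>
      unfold chF at hc
      rw [Bool.and_eq_true] at hc
      rcases List.mem_cons.1 hcv with rfl | hcv
      · have heqa : ∀ E ∈ ((cv.map fun x => (x : ℤ), 2) : Eqn) :: eqs,
            Eqn.Holds E fun j => P.ang (S.κ j) / Real.pi := by
          intro E hE
          rcases List.mem_cons.1 hE with rfl | hE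
          · exact hha
          · exact ha E hE
        have heqb : ∀ E ∈ ((cv.map fun x => (x : ℤ), 2) : Eqn) :: eqs, Eqn.Holds E b := by
          intro E hE
          rcases List.mem_cons.1 hE with rfl | hE
          · exact hhb
          · exact hb E hE
        have h1 := hc.1
        cases c with
        | contra ls => exact (contra_B (CP3_mdl M) heqa h1).elim
        | ref idx g ds =>
          simp only [Bool.and_eq_true] at h1
          obtain ⟨⟨h2, h3⟩, h4⟩ := h1
          have h2' : idx < i := Nat.le_of_ble_eq_true h2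
          have h3' : g < sy.length := Nat.le_of_ble_eq_true h3
          have h5 := symT_sound (m := m) (hsy _ (List.getElem_mem h3'))
          rw [nthF_eq, List.getD_eq_getElem _ _ h3'] at h4
          set e := sy[g] with he
          obtain ⟨h6, h7⟩ := h5
          obtain ⟨P', S', M', hang, hper⟩ := M.dih e.1 (e.2.1 : ZMod m) h6
          have hσ : ∀ x < m, nthF 0 e.2.2 x = (sgC e.1 (e.2.1 : ZMod m) (x : ZMod m)).val := by
            intro x hx
            rw [nthF_eq]
            exact h7 x hx
          refine hper (hD idx h2' P' S' _ M' ?_ (CP3_tr hσ heqb h4))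
          have h8 := CP3_tr hσ heqa h4
          have e1 : (fun j => P'.ang (S'.κ j) / Real.pi) =
              fun j => P.ang (S.κ (siC e.1 (e.2.1 : ZMod m) j)) / Real.pi := by
            funext j
            rw [hang]
          rw [e1]
          exact h8
      · exact ih hc.2 hcv

private theorem CP3_allI {α : Type} {g : ℕ → α → Bool} {l : List α} {i0 : ℕ}
    (h : allI g l i0 = true) (j : ℕ) (hj : j < l.length) : g (i0 + j) l[j] = true := by
  induction l generalizing i0 j with
  | nil => exact absurd hj (by simp)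
  | cons x l ih =>
    have h' : (bif g i0 x then allI g l (Nat.succ i0) else false) = true := h
    cases hx : g i0 x
    · rw [hx] at h'
      exact absurd h' (by simp)
    · rw [hx, cond_true] at h'
      cases j with
      | zero => simpa using hx
      | succ j =>
        have h2 := ih h' j (by simpa using hj)
        rw [show i0 + (j + 1) = Nat.succ i0 + j by omega]
        simpa using h2

/-! ### nodes -/

theorem chkP_sound (hm : 3 ≤ m) (hm' : m ≤ 8) {w : List ℕ} {tt : List TorT}
    (htt : ∀ T ∈ tt, T.OK m) {sy : List (Bool × ℕ × List ℕ)} (hsy : ∀ g ∈ sy, symT m w g = true)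
    {D : ℕ → List Eqn} {i : ℕ} (hD : ∀ j < i, NodeU m w (D j)) {N : PN}
    (h : chkP m w tt sy D i N = true) : NodeU m w (D i) := by
  cases N with
  | z N =>
    intro n P S b M ha hb
    exact chkZ_sound hm hm' htt hsy hD h P S b M ha hb
  | pt v φ V0 Am L fuel rows GS T nq q r s l ω ρ cvs ch =>
    intro n P S b M hEa hEb
    have hA : ∀ E ∈ D i ++ eqs0 m [], Eqn.Holds E fun j => P.ang (S.κ j) / Real.pi := by
      intro E hE
      rcases List.mem_append.1 hE with h1 | h1
      · exact hEa E h1
      · exact eqs0_sound M.a_sum (fun p hp => absurd hp List.not_mem_nil)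
          (fun p hp => absurd hp List.not_mem_nil) E h1
    have hB : ∀ E ∈ D i ++ eqs0 m [], Eqn.Holds E b := by
      intro E hE
      rcases List.mem_append.1 hE with h1 | h1
      · exact hEb E h1
      · exact eqs0_sound M.b_sum (fun p hp => absurd hp List.not_mem_nil)
          (fun p hp => absurd hp List.not_mem_nil) E h1
    have h' : (deadP m GS T nq q r s l && lpQ m w v φ V0 Am L fuel rows GS r ω ρ cvs &&
          chF m sy D i (D i ++ eqs0 m []) cvs ch) = true := h
    rw [Bool.and_eq_true, Bool.and_eq_true] at h'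
    obtain ⟨⟨h1, h2⟩, h3⟩ := h'
    obtain ⟨cv, hcv, hha, hhb⟩ := lpQ_sound hm hm' (M.wq h1) (fun j k c => (M.rel j k c).1) h2
    exact CP3_ch M hsy hD hA hB h3 hcv hha hhb

theorem chkPC_sound (hm : 3 ≤ m) (hm' : m ≤ 8) {tt : List TorT} (htt : ∀ T ∈ tt, T.OK m)
    {C : CertP} (h : chkPC m tt C = true) :
    C.w = decW m (encW C.w) ∧ NodeU m C.w [] := by
  unfold chkPC at h
  simp only [Bool.and_eq_true, beq_iff_eq, List.all_eq_true, decide_eq_true_eq,
    List.isEmpty_iff] at h
  obtain ⟨⟨⟨⟨h1, h2⟩, h3⟩, h4⟩, h5⟩ := h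
  refine ⟨h1, ?_⟩
  have key : ∀ i, i < C.Ns.length → NodeU m C.w (blkF [] C.D i) := by
    intro i
    induction i using Nat.strong_induction_on with
    | _ i ih =>
      intro hi
      have h6 := CP3_allI h5 i hi
      rw [Nat.zero_add] at h6
      intro n P S b M ha hb
      exact chkP_sound hm hm' htt h2 (fun j hj => ih j hj (by omega)) h6 P S b M ha hb
  intro n P S b M ha hb
  refine key (C.Ns.length - 1) (by omega) P S b M ?_ ?_
  · rw [h4]
    exact ha
  · rw [h4]
    exact hb

end Pool.Agent.Lib_MP_fa6e45
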