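import Pool.Agent.Lib_MP_fa6e45.CQ1b
import Pool.Agent.Lib_MP_fa6e45.CU4

/-!
MP_fa6e45_co, stage 9: soundness of the linear programming nodes (see CQ0; compare CX4).
-/

namespace Pool.Agent.Lib_MP_fa6e45

/-! ### the search -/

private theorem CQ3_bif (a b : Bool) : (bif a then b else false) = (a && b) := by
  cases a <;> rfl

private theorem CQ3_beq {a b : ℕ} (h : a = b) : Nat.beq a b = true := by
  rw [h]
  exact Nat.beq_refl b

private theorem CQ3_bne {a b : ℕ} (h : a ≠ b) : Nat.beq a b = false := by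
  cases hb : Nat.beq a b with
  | false => rfl
  | true => exact absurd (Nat.eq_of_beq_eq_true hb) h

/-- cost of a step -/
private noncomputable def wd (u n W c d : ℕ) : ℕ := dg u W (n * c + d)

/-- data of a search -/
private structure SrD (u n L W Hs Hc on G ix V U K c0 : ℕ) : Prop where
  hu : 4 ≤ u
  hn : n ≤ 2 ^ u
  hL : L < 2 ^ (u - 2)
  hW : ∀ c < n, ∀ d < n, wd u n W c d < 2 ^ (u - 2)
  hH : ∀ d < n, dg u Hs d < 2 ^ (u - 2)
  hc0 : c0 < n
  hHsl : Hs < 2 ^ (u * n)
  hHc : Hc = Hs - dg u Hs c0 * 2 ^ (u * c0)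
  hon : on = onQ u n
  hG : G = 2 ^ (u - 1) * onQ u n
  hix : ix = ixQ u n
  hV : V = 2 ^ u
  hU : U = 2 ^ (u - 1)
  hK : K = 2 ^ (u * n)

section search

variable {u n L W Hs Hc on G ix V U K c0 : ℕ}

private theorem SrD.hcl (S : SrD u n L W Hs Hc on G ix V U K c0) : Hc < 2 ^ (u * n) := by
  rw [S.hHc]
  exact (dg_clear S.hHsl S.hc0).1

private theorem SrD.hcd (S : SrD u n L W Hs Hc on G ix V U K c0) {d : ℕ} (hd : d < n) :
    dg u Hc d = if d = c0 then 0 else dg u Hs d := by
  rw [S.hHc]
  exact (dg_clear S.hHsl S.hc0).2 d hd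

private theorem SrD.hcs (S : SrD u n L W Hs Hc on G ix V U K c0) {d : ℕ} (hd : d < n) :
    dg u Hc d < 2 ^ (u - 2) := by
  rw [S.hcd hd]
  split
  · exact Nat.two_pow_pos _
  · exact S.hH d hd

private theorem SrD.pw (S : SrD u n L W Hs Hc on G ix V U K c0) :
    2 ^ (u - 2) + 2 ^ (u - 2) = 2 ^ (u - 1) ∧ 2 ^ (u - 1) + 2 ^ (u - 1) = 2 ^ u := by
  have hu := S.hu
  obtain ⟨v, rfl⟩ : ∃ v, u = v + 2 := ⟨u - 2, by omega⟩
  constructor
  · rw [show v + 2 - 2 = v by omega, show v + 2 - 1 = v + 1 by omega, pow_succ]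
    ring
  · rw [show v + 2 - 1 = v + 1 by omega, show v + 2 = v + 1 + 1 by omega, pow_succ 2 (v + 1)]
    ring

/-- the vector of `W cur d + Hc d` -/
private theorem SrD.sum (S : SrD u n L W Hs Hc on G ix V U K c0) {cur : ℕ} (hc : cur < n) :
    rwQ W K cur + Hc < 2 ^ (u * n) ∧ ∀ d < n, dg u (rwQ W K cur + Hc) d = wd u n W cur d + dg u Hc d := by
  have hp := S.pw
  have h1 : ∀ d < n, dg u (rwQ W K cur) d = wd u n W cur d := fun d hd => by
    rw [S.hK]
    exact dg_rwQ hd
  have h2 : rwQ W K cur < 2 ^ (u * n) := by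
    rw [S.hK]
    exact rwQ_lt (Nat.two_pow_pos _)
  obtain ⟨h3, h4⟩ := dg_add h2 S.hcl (fun d hd => by
    rw [h1 d hd]
    have := S.hW cur hc d hd
    have := S.hcs hd
    omega)
  exact ⟨h3, fun d hd => by rw [h4 d hd, h1 d hd]⟩

/-- lower bounds for the way back -/
private theorem SrD.back (S : SrD u n L W Hs Hc on G ix V U K c0)
    (hb : hbQ u n W Hs Hc on G K c0 = true) (l : List ℕ) (y : ℕ) (hy : c0 ≤ y) (hyn : y < n)
    (hl : ∀ x ∈ l, c0 ≤ x ∧ x < n) : dg u Hs y ≤ pcost (wd u n W) y l c0 := by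
  have hp := S.pw
  have hu := S.hu
  have key : ∀ y, c0 ≤ y → y < n → ∀ d < n, dg u Hs y ≤ wd u n W y d + dg u Hc d := by
    intro y hy hyn d hd
    unfold hbQ at hb
    rw [allN_iff] at hb
    have hsub : y - c0 < Nat.sub n c0 := by
      change y - c0 < n - c0
      omega
    have h1 := hb (y - c0) hsub
    have e : Nat.add c0 (y - c0) = y := by
      change c0 + (y - c0) = y
      omega
    rw [e] at h1
    have h2 := S.sum hyn
    have h3 : leQ (onQ u n) (2 ^ (u - 1) * onQ u n) (dg u Hs y) (rwQ W K y + Hc) = true := by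
      rw [← S.hG, ← S.hon]
      exact h1
    have h4 := leQ_sound (u := u) (n := n) (by omega) (by
      have := S.hH y hyn
      omega) h2.1 h3 hd
    rw [h2.2 d hd] at h4
    exact h4
  induction l generalizing y with
  | nil =>
    have h1 := key y hy hyn c0 S.hc0
    rw [S.hcd S.hc0, if_pos rfl] at h1
    exact h1
  | cons z l ih =>
    have hz := hl z List.mem_cons_self
    have h1 := key y hy hyn z hz.2
    have h2 := ih z hz.1 hz.2 fun x hx => hl x (List.mem_cons_of_mem z hx)
    have h3 : dg u Hc z ≤ dg u Hs z := by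
      rw [S.hcd hz.2]
      split
      · exact Nat.zero_le _
      · exact le_refl _
    change _ ≤ wd u n W y z + pcost (wd u n W) z l c0
    omega

private theorem SrD.dfs (S : SrD u n L W Hs Hc on G ix V U K c0)
    (hb : hbQ u n W Hs Hc on G K c0 = true) {acc : ℕ → ℕ → Bool} (l : List ℕ)
    (fuel cur b cnt len : ℕ) (hbL : b ≤ L) (hcur : cur < n)
    (h : dfsQ n W Hc (dg u Hs c0) on G ix V U K c0 acc fuel cur b cnt len = true)
    (hl : ∀ x ∈ l, c0 ≤ x ∧ x < n) (ht : pcost (wd u n W) cur l c0 < b) :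
    acc (cnt + (l.map fun x => 16 ^ (x / 2)).sum) (len + l.length) = true ∧ l.length + 1 ≤ fuel := by
  have hp := S.pw
  have hu := S.hu
  -- one step
  have step : ∀ (fuel cur b cnt len : ℕ), b ≤ L → cur < n →
      dfsQ n W Hc (dg u Hs c0) on G ix V U K c0 acc (fuel + 1) cur b cnt len = true →
      ∀ d < n, wd u n W cur d + dg u Hc d < b →
        (d = c0 → acc cnt len = true) ∧ ((d = c0 → dg u Hs c0 < b - wd u n W cur d) →
          dfsQ n W Hc (dg u Hs c0) on G ix V U K c0 acc fuel d (b - wd u n W cur d)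
            (cnt + 16 ^ (d / 2)) (len + 1) = true) := by
    intro fuel cur b cnt len hbL hcur h d hd hlt
    obtain ⟨k, rfl⟩ : ∃ k, b = k + 1 := ⟨b - 1, by omega⟩
    have h1 : bitsQ K (fun x => fQ (Nat.div x U) fun s => fQ (Nat.mod (Nat.div ix s) V) fun d =>
          bif Nat.beq d c0 then
            (bif fQ cnt (fun cnt => acc cnt len) then
              (bif Nat.ble (Nat.sub (Nat.succ k) (Nat.mod (Nat.div (rwQ W K cur) s) V)) (dg u Hs c0) then true else
                dfsQ n W Hc (dg u Hs c0) on G ix V U K c0 acc fuel d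
                  (Nat.sub (Nat.succ k) (Nat.mod (Nat.div (rwQ W K cur) s) V)) (cntQ cnt d) (Nat.succ len))
              else false)
          else dfsQ n W Hc (dg u Hs c0) on G ix V U K c0 acc fuel d
            (Nat.sub (Nat.succ k) (Nat.mod (Nat.div (rwQ W K cur) s) V)) (cntQ cnt d) (Nat.succ len)) n
          (Nat.land (Nat.sub (Nat.add (Nat.mul k on) G) (Nat.add (rwQ W K cur) Hc)) G) = true := h
    have h2 := S.sum hcur
    have hkL : k < 2 ^ (u - 1) := by
      have := S.hL
      omega
    have hbit := cand_bit (u := u) (n := n) (X := rwQ W K cur + Hc) (k := k) (d := d) (by omega) h2.1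
      (fun i hi => by
        rw [h2.2 i hi]
        have := S.hW cur hcur i hi
        have := S.hcs hi
        omega) hkL hd (by rw [h2.2 d hd]; omega)
    rw [← S.hG, ← S.hon] at hbit
    have hMlt : Nat.land (Nat.sub (Nat.add (Nat.mul k on) G) (rwQ W K cur + Hc)) G < 2 ^ (u * n) := by
      refine lt_of_le_of_lt Nat.and_le_right ?_
      rw [S.hG]
      rcases onG_lt (u := u) (n := n) (by omega) with h3 | h3
      · exact h3
      · omega
    have h1' := h1
    rw [S.hK] at h1'
    rw [show (rwQ W (2 ^ (u * n)) cur) = rwQ W K cur by rw [S.hK]] at h1'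
    have h4 := bitsQ_sound hMlt h1' hbit
    rw [fQ_eq] at h4
    have es : Nat.div (2 ^ (u * d + (u - 1))) U = 2 ^ (u * d) := by
      rw [S.hU, pow_add]
      exact Nat.mul_div_cancel _ (Nat.two_pow_pos _)
    rw [es, fQ_eq] at h4
    have ed : Nat.mod (Nat.div ix (2 ^ (u * d))) V = d := by
      rw [S.hix, S.hV]
      exact dg_ixQ (by omega) S.hn hd
    rw [ed] at h4
    have ew : Nat.mod (Nat.div (rwQ W K cur) (2 ^ (u * d))) V = wd u n W cur d := by
      rw [S.hV]
      have := dg_rwQ (u := u) (n := n) (W := W) (c := cur) hd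
      rw [← S.hK] at this
      exact this
    rw [← S.hK, ew, fQ_eq] at h4
    have eb : Nat.sub (Nat.succ k) (wd u n W cur d) = k + 1 - wd u n W cur d := rfl
    have ec : cntQ cnt d = cnt + 16 ^ (d / 2) := rfl
    rw [eb, ec] at h4
    by_cases hdc : d = c0
    · rw [CQ3_beq hdc, cond_true, CQ3_bif, Bool.and_eq_true] at h4
      refine ⟨fun _ => h4.1, fun h5 => ?_⟩
      have h6 := h4.2
      cases hble : Nat.ble (k + 1 - wd u n W cur d) (dg u Hs c0) with
      | true =>
        exfalso
        have h7 : k + 1 - wd u n W cur d ≤ dg u Hs c0 := Nat.le_of_ble_eq_true hble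
        have := h5 hdc
        omega
      | false =>
        rw [hble, cond_false] at h6
        exact h6
    · rw [CQ3_bne hdc, cond_false] at h4
      exact ⟨fun h5 => absurd h5 hdc, fun _ => h4⟩
  induction l generalizing fuel cur b cnt len with
  | nil =>
    cases fuel with
    | zero => exact absurd h (by simp [dfsQ])
    | succ fuel =>
      have h1 := step fuel cur b cnt len hbL hcur h c0 S.hc0 (by
        rw [S.hcd S.hc0, if_pos rfl]
        exact ht)
      refine ⟨?_, by simp⟩
      simpa using h1.1 rfl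
  | cons y l ih =>
    cases fuel with
    | zero => exact absurd h (by simp [dfsQ])
    | succ fuel =>
      have hy := hl y List.mem_cons_self
      have hl' : ∀ x ∈ l, c0 ≤ x ∧ x < n := fun x hx => hl x (List.mem_cons_of_mem y hx)
      have ht' : wd u n W cur y + pcost (wd u n W) y l c0 < b := ht
      have h2 := S.back hb l y hy.1 hy.2 hl'
      have h3 : dg u Hc y ≤ dg u Hs y := by
        rw [S.hcd hy.2]
        split
        · exact Nat.zero_le _
        · exact le_refl _
      have h1 := (step fuel cur b cnt len hbL hcur h y hy.2 (by omega)).2 (fun h5 => by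
        subst h5
        omega)
      have h7 := ih fuel y (b - wd u n W cur y) (cnt + 16 ^ (y / 2)) (len + 1) (by omega) hy.2 h1 hl' (by omega)
      refine ⟨?_, ?_⟩
      · rw [List.map_cons, List.sum_cons, List.length_cons]
        have e1 : cnt + (16 ^ (y / 2) + (l.map fun x => 16 ^ (x / 2)).sum) =
            cnt + 16 ^ (y / 2) + (l.map fun x => 16 ^ (x / 2)).sum := by ring
        have e2 : len + (l.length + 1) = len + 1 + l.length := by ring
        rw [e1, e2]
        exact h7.1
      · rw [List.length_cons]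
        omega

end search

/-! ### codes -/

section step

variable {m : ℕ} [NeZero m]

omit [NeZero m] in
private theorem CQ3_code_div (x : ZMod m × Bool) : code x / 2 = x.1.val := by
  unfold code
  have h2 : x.2.toNat ≤ 1 := Bool.toNat_le x.2
  omega

private theorem CQ3_code_lt (x : ZMod m × Bool) : code x < 2 * m := by
  unfold code
  have h1 := ZMod.val_lt x.1
  have h2 : x.2.toNat ≤ 1 := Bool.toNat_le x.2
  omega

private theorem CQ3_pred (i : ZMod m) : (i.val + (m - 1)) % m = (i - 1).val := by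
  have hm : 0 < m := Nat.pos_of_ne_zero (NeZero.ne m)
  have h1 : ((i.val + (m - 1) : ℕ) : ZMod m) = i - 1 := by
    rw [Nat.cast_add, ZMod.natCast_zmod_val, Nat.cast_sub (by omega), ZMod.natCast_self]
    ring
  rw [← h1, ZMod.val_natCast]

private theorem CQ3_ex (x : ZMod m × Bool) : exF m (code x) = code (exW x) := by
  obtain ⟨i, f⟩ := x
  unfold exF exW
  have hd := CQ3_code_div (i, f)
  cases f
  · have h1 : code ((i, false) : ZMod m × Bool) = 2 * i.val := rfl
    have h2 : Nat.beq (Nat.mod (code ((i, false) : ZMod m × Bool)) 2) 0 = true := by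
      rw [h1]
      apply CQ3_beq
      exact Nat.mul_mod_right 2 _
    rw [h2, cond_true]
    change 2 * ((code ((i, false) : ZMod m × Bool) / 2 + (m - 1)) % m) = _
    rw [hd, CQ3_pred]
    rfl
  · have h1 : code ((i, true) : ZMod m × Bool) = 2 * i.val + 1 := rfl
    have h2 : Nat.beq (Nat.mod (code ((i, true) : ZMod m × Bool)) 2) 0 = false := by
      rw [h1]
      have : Nat.mod (2 * i.val + 1) 2 = 1 := by
        change (2 * i.val + 1) % 2 = 1
        omega
      rw [this]
      rfl
    rw [h2, cond_false]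
    rfl

private theorem CQ3_en (x : ZMod m × Bool) : enF m (code x) = code (enW x) := by
  obtain ⟨i, f⟩ := x
  unfold enF enW
  have hd := CQ3_code_div (i, f)
  cases f
  · have h1 : code ((i, false) : ZMod m × Bool) = 2 * i.val := rfl
    have h2 : Nat.beq (Nat.mod (code ((i, false) : ZMod m × Bool)) 2) 0 = true := by
      rw [h1]
      apply CQ3_beq
      exact Nat.mul_mod_right 2 _
    rw [h2, cond_true]
    rfl
  · have h1 : code ((i, true) : ZMod m × Bool) = 2 * i.val + 1 := rfl
    have h2 : Nat.beq (Nat.mod (code ((i, true) : ZMod m × Bool)) 2) 0 = false := by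
      rw [h1]
      have : Nat.mod (2 * i.val + 1) 2 = 1 := by
        change (2 * i.val + 1) % 2 = 1
        omega
      rw [this]
      rfl
    rw [h2, cond_false]
    change Nat.succ (2 * ((code ((i, true) : ZMod m × Bool) / 2 + (m - 1)) % m)) = _
    rw [hd, CQ3_pred]
    rfl

omit [NeZero m] in
private theorem CQ3_par (x y : ZMod m × Bool) :
    Nat.beq (Nat.mod (code x) 2) (Nat.mod (code y) 2) = (x.2 == y.2) := by
  obtain ⟨i, f⟩ := x
  obtain ⟨j, g⟩ := y
  have e : ∀ (i : ZMod m) (f : Bool), Nat.mod (code (i, f)) 2 = f.toNat := by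
    intro i f
    change (2 * i.val + f.toNat) % 2 = f.toNat
    cases f
    · simp
    · change (2 * i.val + 1) % 2 = 1
      omega
  rw [e, e]
  cases f <;> cases g <;> rfl

private theorem CQ3_inj {x y : ZMod m × Bool} (h : code x = code y) : x = y := by
  obtain ⟨i, f⟩ := x
  obtain ⟨j, g⟩ := y
  have h1 : 2 * i.val + f.toNat = 2 * j.val + g.toNat := h
  have hf : f.toNat ≤ 1 := Bool.toNat_le f
  have hg : g.toNat ≤ 1 := Bool.toNat_le g
  have h2 : i.val = j.val := by omega
  have h3 : f.toNat = g.toNat := by omega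
  have h4 : f = g := by
    cases f <;> cases g <;> simp_all
  rw [ZMod.val_injective m h2, h4]

omit [NeZero m] in
private theorem CQ3_surj {c : ℕ} (hc : c < 2 * m) : ∃ x : ZMod m × Bool, code x = c := by
  refine ⟨(((c / 2 : ℕ) : ZMod m), c % 2 == 1), ?_⟩
  unfold code
  have h1 : c / 2 < m := by omega
  simp only
  rw [ZMod.val_natCast_of_lt h1]
  rcases Nat.mod_two_eq_zero_or_one c with h2 | h2
  · rw [h2]
    simp
    omega
  · rw [h2]
    simp
    omega

/-- inverse of `exW` -/
private def exI (x : ZMod m × Bool) : ZMod m × Bool := (if x.2 then x.1 else x.1 + 1, x.2)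

/-- inverse of `enW` -/
private def enI (x : ZMod m × Bool) : ZMod m × Bool := (if x.2 then x.1 + 1 else x.1, x.2)

omit [NeZero m] in
private theorem exI_ex (x : ZMod m × Bool) : exI (exW x) = x := by
  obtain ⟨i, f⟩ := x
  cases f <;> simp [exI, exW]

omit [NeZero m] in
private theorem enI_en (x : ZMod m × Bool) : enI (enW x) = x := by
  obtain ⟨i, f⟩ := x
  cases f <;> simp [enI, enW]

variable (u W al be : ℕ)

/-- crossing for the step with exit side `x` and entry side `y` -/
private noncomputable def crU (x y : ZMod m × Bool) : ℤ :=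
  (wd u (2 * m) W (code (exI x)) (code (enI y)) : ℤ) - dg 32 al (code (exI x)) + dg 32 be (code (enI y))

/-- the antisymmetric function -/
private noncomputable def crA (x y : ZMod m × Bool) : ℤ :=
  if code x < code y then crU u W al be x y else if code y < code x then - crU u W al be y x else 0

omit [NeZero m] in
private theorem crA_anti (x y : ZMod m × Bool) : crA u W al be y x = - crA u W al be x y := by
  unfold crA
  rcases lt_trichotomy (code x) (code y) with h | h | h
  · rw [if_pos h, if_neg (by omega), if_pos h]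
  · rw [h, if_neg (lt_irrefl _), if_neg (lt_irrefl _), if_neg (lt_irrefl _), if_neg (lt_irrefl _), neg_zero]
  · rw [if_pos h, if_neg (by omega), if_pos h, neg_neg]

/-- weights -/
private noncomputable def wV (i : ZMod m) : ℤ := (dg 32 al (2 * i.val) : ℤ) - dg 32 be (2 * i.val)

/-- potential -/
private noncomputable def wP (x : ZMod m × Bool) : ℤ := (dg 32 be (code x) : ℤ)

variable {u W al be}

private theorem CQ3_wt {L : ℕ} (h : wtQ m L al be = true) (x : ZMod m × Bool) :
    (dg 32 al (code x) : ℤ) - dg 32 be (code x) = wV al be x.1 := by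
  unfold wtQ at h
  rw [Bool.and_eq_true, allN_iff] at h
  have h1 := h.2 x.1.val (ZMod.val_lt _)
  have h2 : dg 32 al (2 * x.1.val) + dg 32 be (2 * x.1.val + 1) =
      dg 32 al (2 * x.1.val + 1) + dg 32 be (2 * x.1.val) := Nat.eq_of_beq_eq_true h1
  obtain ⟨i, f⟩ := x
  unfold wV code
  simp only at h2 ⊢
  cases f
  · simp
  · change (dg 32 al (2 * i.val + 1) : ℤ) - dg 32 be (2 * i.val + 1) = _
    omega

/-- one step -/
private theorem CQ3_step {w : List ℕ} {st : List (ℕ × ℕ × ℕ × ℕ × ℕ × ℕ)} {L : ℕ} (hst : stQ m w st = true)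
    (hwt : wtQ m L al be = true) (hpair : ∀ e ∈ st, pairQ u W al be e = true)
    {x y : ZMod m × Bool} (hG : relT w (exW x).1 (enW y).1 (x.2 == y.2) = true) :
    (wd u (2 * m) W (code x) (code y) : ℤ) ≤
      stepCost (wV al be) (crA u W al be) x y + wP be x - wP be y := by
  -- the pair
  have hp : wd u (2 * m) W (code x) (code y) + wd u (2 * m) W (code (exI (enW y))) (code (enI (exW x))) +
      (dg 32 be (code y) + dg 32 be (code (enI (exW x)))) ≤
        dg 32 al (code x) + dg 32 al (code (exI (enW y))) := by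
    unfold stQ at hst
    rw [Bool.and_eq_true, allF_eq, List.all_eq_true, allN_iff] at hst
    obtain ⟨hd, hs⟩ := hst
    have h1 := hs (code x) (CQ3_code_lt x)
    rw [allN_iff] at h1
    have h2 := h1 (code y) (CQ3_code_lt y)
    have h3 : okL (nthF 0 w (Nat.div (exF m (code x)) 2)) (nthF 0 w (Nat.div (enF m (code y)) 2))
        (Nat.beq (Nat.mod (code x) 2) (Nat.mod (code y) 2)) = true := by
      rw [CQ3_ex, CQ3_en, CQ3_par]
      change okL (nthF 0 w (code (exW x) / 2)) (nthF 0 w (code (enW y) / 2)) _ = true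
      rw [CQ3_code_div, CQ3_code_div, nthF_eq, nthF_eq]
      exact hG
    rw [h3, cond_true, anyF_eq, List.any_eq_true] at h2
    obtain ⟨e, he, h4⟩ := h2
    have h5 := hd e he
    unfold dualQ at h5
    simp only [Bool.and_eq_true, beq_iff_eq] at h5
    obtain ⟨⟨⟨⟨⟨⟨⟨q1, q2⟩, q3⟩, q4⟩, q5⟩, q6⟩, q7⟩, q8⟩ := h5
    have q5' : e.2.2.1 < 2 * m := Nat.le_of_ble_eq_true q5
    have q6' : e.2.2.2.1 < 2 * m := Nat.le_of_ble_eq_true q6
    have q7' : e.2.2.2.2.1 < 2 * m := Nat.le_of_ble_eq_true q7
    have q8' : e.2.2.2.2.2 < 2 * m := Nat.le_of_ble_eq_true q8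
    obtain ⟨c1, hc1⟩ := CQ3_surj q5'
    obtain ⟨d1, hd1⟩ := CQ3_surj q6'
    obtain ⟨c2, hc2⟩ := CQ3_surj q7'
    obtain ⟨d2, hd2⟩ := CQ3_surj q8'
    rw [← hc1, ← hd2, CQ3_ex, CQ3_en] at q3
    rw [← hc2, ← hd1, CQ3_ex, CQ3_en] at q4
    have q3' := CQ3_inj q3
    have q4' := CQ3_inj q4
    have h6 := hpair e he
    unfold pairQ at h6
    have h7 : dg u W e.1 + dg u W e.2.1 + (dg 32 be e.2.2.2.1 + dg 32 be e.2.2.2.2.2) ≤
        dg 32 al e.2.2.1 + dg 32 al e.2.2.2.2.1 := Nat.le_of_ble_eq_true h6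
    rw [q1, q2, ← hc1, ← hd1, ← hc2, ← hd2] at h7
    rw [Bool.or_eq_true, CQ3_bif, CQ3_bif, Bool.and_eq_true, Bool.and_eq_true, ← hc1, ← hd1, ← hc2, ← hd2] at h4
    unfold wd
    rcases h4 with ⟨h8, h9⟩ | ⟨h8, h9⟩
    · have e1 : c1 = x := CQ3_inj (Nat.eq_of_beq_eq_true h8)
      have e2 : d1 = y := CQ3_inj (Nat.eq_of_beq_eq_true h9)
      subst e1
      subst e2
      rw [q3', enI_en, ← q4', exI_ex]
      exact h7
    · have e1 : c2 = x := CQ3_inj (Nat.eq_of_beq_eq_true h8)
      have e2 : d2 = y := CQ3_inj (Nat.eq_of_beq_eq_true h9)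
      subst e1
      subst e2
      rw [← q3', exI_ex, q4', enI_en]
      omega
  have hx := CQ3_wt hwt x
  have hy : wP be y = dg 32 be (code y) := rfl
  have hx' : wP be x = dg 32 be (code x) := rfl
  unfold stepCost
  rw [hx', hy, ← hx]
  unfold crA
  have e1 : exI (exW x) = x := exI_ex x
  have e2 : enI (enW y) = y := enI_en y
  rcases lt_trichotomy (code (exW x)) (code (enW y)) with h | h | h
  · rw [if_pos h]
    unfold crU
    rw [e1, e2]
    linarith
  · rw [h, if_neg (lt_irrefl _), if_neg (lt_irrefl _)]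
    have h2 := CQ3_inj h
    rw [← h2, e1, h2, e2] at hp
    have hp' : ((wd u (2 * m) W (code x) (code y) + wd u (2 * m) W (code x) (code y) +
      (dg 32 be (code y) + dg 32 be (code y)) : ℕ) : ℤ) ≤ ((dg 32 al (code x) + dg 32 al (code x) : ℕ) : ℤ) := by
      exact_mod_cast hp
    push_cast at hp'
    linarith
  · rw [if_neg (by omega), if_pos h]
    unfold crU
    have hp' : ((wd u (2 * m) W (code x) (code y) +
        wd u (2 * m) W (code (exI (enW y))) (code (enI (exW x))) +
      (dg 32 be (code y) + dg 32 be (code (enI (exW x)))) : ℕ) : ℤ) ≤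
        ((dg 32 al (code x) + dg 32 al (code (exI (enW y))) : ℕ) : ℤ) := by
      exact_mod_cast hp
    push_cast at hp'
    linarith

end step

/-! ### sums -/

section sums

private theorem CQ3_sumQ (x n : ℕ) : sumQ x n = ∑ i ∈ Finset.range n, dg 32 x i := by
  induction n with
  | zero => rfl
  | succ n ih =>
    rw [Finset.sum_range_succ, ← ih]
    change dg 32 x n + sumQ x n = sumQ x n + dg 32 x n
    rw [add_comm]

private theorem CQ3_two (f : ℕ → ℤ) (n : ℕ) :
    ∑ i ∈ Finset.range (2 * n), f i = ∑ i ∈ Finset.range n, (f (2 * i) + f (2 * i + 1)) := by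
  induction n with
  | zero => simp
  | succ n ih =>
    rw [show 2 * (n + 1) = 2 * n + 1 + 1 by ring, Finset.sum_range_succ, Finset.sum_range_succ, ih,
      Finset.sum_range_succ]
    ring

variable {m : ℕ} [NeZero m]

private theorem CQ3_zsum (f : ℕ → ℤ) : ∑ i : ZMod m, f i.val = ∑ i ∈ Finset.range m, f i := by
  obtain ⟨k, rfl⟩ := Nat.exists_eq_succ_of_ne_zero (NeZero.ne m)
  exact Fin.sum_univ_eq_sum_range f (k + 1)

private theorem CQ3_budget (hm : 3 ≤ m) {L al be : ℕ} (h : wtQ m L al be = true) :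
    2 * ∑ i : ZMod m, wV al be i < ((m : ℤ) - 2) * L := by
  unfold wtQ at h
  rw [Bool.and_eq_true, allN_iff] at h
  obtain ⟨h1, h2⟩ := h
  have h3 : sumQ al (2 * m) < (m - 2) * L + sumQ be (2 * m) := Nat.le_of_ble_eq_true h1
  have h3' : (sumQ al (2 * m) : ℤ) < (((m - 2 : ℕ) : ℤ)) * L + (sumQ be (2 * m) : ℤ) := by exact_mod_cast h3
  rw [Nat.cast_sub (by omega)] at h3'
  have h4 : 2 * ∑ i : ZMod m, wV al be i = (sumQ al (2 * m) : ℤ) - sumQ be (2 * m) := by
    rw [CQ3_sumQ, CQ3_sumQ]
    push_cast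
    rw [← Finset.sum_sub_distrib, CQ3_two (fun i => (dg 32 al i : ℤ) - dg 32 be i)]
    unfold wV
    rw [CQ3_zsum (fun i => (dg 32 al (2 * i) : ℤ) - dg 32 be (2 * i)), Finset.mul_sum]
    refine Finset.sum_congr rfl fun i hi => ?_
    have h5 : dg 32 al (2 * i) + dg 32 be (2 * i + 1) = dg 32 al (2 * i + 1) + dg 32 be (2 * i) :=
      Nat.eq_of_beq_eq_true (h2 i (Finset.mem_range.1 hi))
    omega
  rw [h4]
  push_cast at h3'
  linarith

omit [NeZero m] in
private theorem CQ3_tele (f : ZMod m × Bool → ZMod m × Bool → ℤ) (φ : ZMod m × Bool → ℤ)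
    (l : List (ZMod m × Bool)) (x y : ZMod m × Bool) :
    pcost (fun x y => f x y + φ x - φ y) x l y = pcost f x l y + φ x - φ y := by
  induction l generalizing x with
  | nil => rfl
  | cons z l ih =>
    change f x z + φ x - φ z + pcost (fun x y => f x y + φ x - φ y) z l y = f x z + pcost f z l y + φ x - φ y
    rw [ih z]
    ring

omit [NeZero m] in
private theorem CQ3_le (R : ZMod m × Bool → ZMod m × Bool → Prop) (f : ZMod m × Bool → ZMod m × Bool → ℤ)
    (g : ℕ → ℕ → ℕ) (hfg : ∀ x y, R x y → (g (code x) (code y) : ℤ) ≤ f x y)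
    (l : List (ZMod m × Bool)) (x y : ZMod m × Bool) (hP : Pth R x l y) :
    ((pcost g (code x) (l.map code) (code y) : ℕ) : ℤ) ≤ pcost f x l y := by
  induction l generalizing x with
  | nil => exact hfg x y hP
  | cons z l ih =>
    have h1 := hfg x z hP.1
    have h2 := ih z hP.2
    change ((g (code x) (code z) + pcost g (code z) (l.map code) (code y) : ℕ) : ℤ) ≤
      f x z + pcost f z l y
    push_cast
    linarith

/-- the digits of the numbers of corners -/
private theorem CQ3_cnt (p : List (ZMod m × Bool)) (hp : p.length ≤ 15) (f : ZMod m → ℝ)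
    (h : (p.map fun x => f x.1).sum = 2) :
    ∑ i : ZMod m, (((((p.map code).map fun x => 16 ^ (x / 2)).sum / 16 ^ i.val % 16 : ℕ) : ℝ)) * f i = 2 := by
  have key1 : ((p.map code).map fun x => 16 ^ (x / 2)).sum =
      ∑ j ∈ Finset.range m, ((p.map code).countP fun x => x / 2 == j) * 2 ^ (4 * j) := by
    clear hp h
    induction p with
    | nil => simp
    | cons x p ih =>
      rw [List.map_cons, List.map_cons, List.sum_cons, ih]
      have h1 : ∀ i, ((code x :: p.map code).countP fun x => x / 2 == i) * 2 ^ (4 * i) =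
          (if i = code x / 2 then 2 ^ (4 * i) else 0) + ((p.map code).countP fun x => x / 2 == i) * 2 ^ (4 * i) := by
        intro i
        rw [List.countP_cons]
        by_cases h : i = code x / 2
        · rw [if_pos h, if_pos (by rw [h]; exact beq_self_eq_true _)]
          ring
        · rw [if_neg h, if_neg]
          · ring
          · rw [beq_iff_eq]
            exact fun h2 => h h2.symm
      simp only [h1]
      rw [Finset.sum_add_distrib, Finset.sum_ite_eq', if_pos]
      · rw [pow_mul]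
        norm_num
      · rw [Finset.mem_range, CQ3_code_div]
        exact ZMod.val_lt _
  have key2 : ∀ i : ZMod m, ((p.map code).map fun x => 16 ^ (x / 2)).sum / 16 ^ i.val % 16 =
      (p.map code).countP fun x => x / 2 == i.val := by
    intro i
    rw [key1]
    have h1 := dg_sum (u := 4) (n := m) (f := fun j => (p.map code).countP fun x => x / 2 == j)
      (fun j _ => by
        have := List.countP_le_length (p := fun x => x / 2 == j) (l := p.map code)
        rw [List.length_map] at this
        have e16 : (2 : ℕ) ^ 4 = 16 := rfl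
        rw [e16]
        omega) (ZMod.val_lt i)
    rw [dg_def, pow_mul] at h1
    exact h1
  have key3 : ∑ i : ZMod m, (((p.map code).countP fun x => x / 2 == i.val : ℕ) : ℝ) * f i =
      (p.map fun x => f x.1).sum := by
    clear hp h key1 key2
    induction p with
    | nil => simp
    | cons x p ih =>
      rw [List.map_cons, List.map_cons, List.sum_cons, ← ih]
      have h1 : ∀ i : ZMod m, (((code x :: p.map code).countP fun x => x / 2 == i.val : ℕ) : ℝ) * f i =
          (if i = x.1 then f i else 0) +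
            (((p.map code).countP fun x => x / 2 == i.val : ℕ) : ℝ) * f i := by
        intro i
        rw [List.countP_cons, CQ3_code_div]
        by_cases h : i = x.1
        · rw [if_pos h, if_pos (by rw [h]; exact beq_self_eq_true _)]
          push_cast
          ring
        · rw [if_neg h, if_neg]
          · simp
          · rw [beq_iff_eq]
            intro h2
            exact h (ZMod.val_injective m h2).symm
      rw [Finset.sum_congr rfl fun i _ => h1 i, Finset.sum_add_distrib]
      rw [Finset.sum_ite_eq' Finset.univ x.1 f, if_pos (Finset.mem_univ _)]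
  rw [← h, ← key3]
  exact Finset.sum_congr rfl fun i _ => by rw [key2 i]

end sums

/-! ### the node -/

variable {m : ℕ} [NeZero m]

theorem lpK_sound (hm : 3 ≤ m) (hm' : m ≤ 8) {a b : ZMod m → ℝ} {G : ZMod m → ZMod m → Bool → Prop}
    (hW : WU a b G) {w : List ℕ} (hG : ∀ j k c, G j k c → relT w j k c = true)
    {st : List (ℕ × ℕ × ℕ × ℕ × ℕ × ℕ)} (hst : stQ m w st = true) {u L fuel al be W H : ℕ}
    {cvg : List (List ℕ)} (h : lpK m st u L fuel al be W H cvg = true) :
    ∃ cv ∈ cvg.flatten, ∑ i : ZMod m, ((cv / 16 ^ i.val % 16 : ℕ) : ℝ) * a i = 2 ∧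
      ∑ i : ZMod m, ((cv / 16 ^ i.val % 16 : ℕ) : ℝ) * b i = 2 := by
  unfold lpK at h
  simp only [Bool.and_eq_true, allF_eq, List.all_eq_true] at h
  obtain ⟨⟨⟨⟨⟨⟨⟨hu, hL⟩, hfuel⟩, hsW⟩, hsH⟩, hwt⟩, hpair⟩, hsr⟩ := h
  rw [allN_iff] at hsr
  have hu' : 4 ≤ u := Nat.le_of_ble_eq_true hu
  have hL' : L < 2 ^ (u - 2) := Nat.le_of_ble_eq_true hL
  have hfuel' : fuel ≤ 15 := Nat.le_of_ble_eq_true hfuel
  obtain ⟨x, l, hcode, hP, hlen, ha, hb, hcost, -⟩ := hW [] rfl (wV al be) (crA u W al be)
    (fun x y => crA_anti u W al be x y) (L : ℤ) 0 le_rfl (by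
      have := CQ3_budget hm hwt
      linarith)
  -- the cost
  have h5 : ((pcost (wd u (2 * m) W) (code x) (l.map code) (code x) : ℕ) : ℤ) ≤
      pcost (stepCost (wV al be) (crA u W al be)) x l x := by
    have h6 := CQ3_le (StepG G) (fun x y => stepCost (wV al be) (crA u W al be) x y + wP be x - wP be y)
      (wd u (2 * m) W) (fun x y hxy => CQ3_step hst hwt hpair (hG _ _ _ hxy)) l x x hP
    rw [CQ3_tele] at h6
    linarith
  have htL : pcost (wd u (2 * m) W) (code x) (l.map code) (code x) < L := by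
    have : ((pcost (wd u (2 * m) W) (code x) (l.map code) (code x) : ℕ) : ℤ) < (L : ℕ) :=
      lt_of_le_of_lt h5 hcost
    exact_mod_cast this
  -- the search
  have hc := CQ3_code_lt x
  have h7 := hsr (code x) hc
  set Hs : ℕ := rwQ H (Nat.pow 2 (Nat.mul u (Nat.mul 2 m))) (code x) with hHs
  have h8 : (bif hbQ u (2 * m) W Hs (Hs - dg u Hs (code x) * 2 ^ (u * code x)) (onQ u (2 * m))
      (2 ^ (u - 1) * onQ u (2 * m)) (2 ^ (u * (2 * m))) (code x) then
      dfsQ (2 * m) W (Hs - dg u Hs (code x) * 2 ^ (u * code x)) (dg u Hs (code x)) (onQ u (2 * m))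
        (2 ^ (u - 1) * onQ u (2 * m)) (ixQ u (2 * m)) (2 ^ u) (2 ^ (u - 1)) (2 ^ (u * (2 * m))) (code x)
        (accQ (nthF [] cvg (Nat.div (code x) 2))) fuel (code x) L (Nat.pow 16 (Nat.div (code x) 2)) 1
      else false) = true := h7
  rw [CQ3_bif, Bool.and_eq_true] at h8
  have hHs' : Hs = rwQ H (2 ^ (u * (2 * m))) (code x) := rfl
  have hdH : ∀ d < 2 * m, dg u Hs d = dg u H (2 * m * code x + d) := fun d hd => by
    rw [hHs']
    exact dg_rwQ hd
  have hidx : ∀ c < 2 * m, ∀ d < 2 * m, 2 * m * c + d < 2 * m * (2 * m) := by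
    intro c hc d hd
    calc 2 * m * c + d < 2 * m * c + 2 * m := by omega
      _ = 2 * m * (c + 1) := by ring
      _ ≤ 2 * m * (2 * m) := Nat.mul_le_mul_left _ hc
  have S : SrD u (2 * m) L W Hs (Hs - dg u Hs (code x) * 2 ^ (u * code x)) (onQ u (2 * m))
      (2 ^ (u - 1) * onQ u (2 * m)) (ixQ u (2 * m)) (2 ^ u) (2 ^ (u - 1)) (2 ^ (u * (2 * m))) (code x) :=
    { hu := hu'
      hn := by
        have : (2 : ℕ) ^ 4 ≤ 2 ^ u := Nat.pow_le_pow_right (by norm_num) hu'
        omega
      hL := hL'
      hW := fun c hc d hd => smQ_sound (by omega) hsW (hidx c hc d hd)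
      hH := fun d hd => by
        rw [hdH d hd]
        exact smQ_sound (by omega) hsH (hidx _ hc d hd)
      hc0 := hc
      hHsl := by
        rw [hHs']
        exact rwQ_lt (Nat.two_pow_pos _)
      hHc := rfl
      hon := rfl
      hG := rfl
      hix := rfl
      hV := rfl
      hU := rfl
      hK := rfl }
  obtain ⟨h9, h9'⟩ := S.dfs h8.1 (l.map code) fuel (code x) L _ 1 le_rfl hc h8.2
    (fun y hy => by
      obtain ⟨z, hz, rfl⟩ := List.mem_map.1 hy
      exact ⟨hcode z hz, CQ3_code_lt z⟩) htL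
  rw [List.length_map] at h9 h9'
  have hcnt : Nat.pow 16 (Nat.div (code x) 2) + ((l.map code).map fun x => 16 ^ (x / 2)).sum =
      (((x :: l).map code).map fun x => 16 ^ (x / 2)).sum := rfl
  rw [hcnt] at h9
  unfold accQ at h9
  have hble : Nat.ble (1 + l.length) 1 = false := by
    cases hb : Nat.ble (1 + l.length) 1 with
    | false => rfl
    | true =>
      have := Nat.le_of_ble_eq_true hb
      omega
  rw [hble, cond_false, anyF_eq, List.any_eq_true] at h9
  obtain ⟨cv, hcv, h10⟩ := h9
  have h11 := Nat.eq_of_beq_eq_true h10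
  refine ⟨cv, ?_, ?_, ?_⟩
  · rw [nthF_eq] at hcv
    by_cases hlt : Nat.div (code x) 2 < cvg.length
    · rw [List.getD_eq_getElem _ _ hlt] at hcv
      exact List.mem_flatten.2 ⟨_, List.getElem_mem hlt, hcv⟩
    · rw [List.getD_eq_default _ _ (by omega)] at hcv
      exact absurd hcv List.not_mem_nil
  · rw [← h11]
    refine CQ3_cnt (x :: l) (by rw [List.length_cons]; omega) a ?_
    rw [List.map_cons, List.sum_cons]
    exact ha
  · rw [← h11]
    refine CQ3_cnt (x :: l) (by rw [List.length_cons]; omega) b ?_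
    rw [List.map_cons, List.sum_cons]
    exact hb

end Pool.Agent.Lib_MP_fa6e45
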