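import Pool.Agent.Lib_MP_fa6e45.CU7

/-!
MP_fa6e45_co, stage 6, part V (polygons with seven corners): `m` arcs which are single sides. `chkV` is `chkU` with a node
`geo` for sides in classes (the side classes of the word): the polygon with the given angles does not close.
-/

open Set MeasureTheory Complex
open scoped Topology

namespace Pool.Agent.Lib_MP_fa6e45

/-- all arcs are segments (sides) -/
noncomputable def strB (m : ℕ) (w : List ℕ) : Bool :=
  (List.range m).all fun j => okL (nthF 0 w j) (nthF 0 w j) false

/-- check of node `i` -/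
noncomputable def chkV (m : ℕ) [NeZero m] (w : List ℕ) (tt : List TorT) (sy : List (Bool × ℕ × List ℕ))
    (D : ℕ → List Eqn) (i : ℕ) (N : TN) : Bool :=
  match N with
    | TN.geo d f lin cs fuel => strB m w &&
        geoB (m := m) (fun j => Nat.div (nthF 0 w j.val) 16) (D i ++ eqs0 m []) d f lin cs fuel
    | N => chkU m w tt sy D i N

/-- check of a certificate -/
noncomputable def chkW (m : ℕ) [NeZero m] (tt : List TorT) (C : CertT) : Bool :=
  (C.w == decW m (encW C.w)) && C.sy.all (symT m C.w) && decide (0 < C.Ns.length) &&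
    (blkF [] C.D (C.Ns.length - 1)).isEmpty && allI (chkV m C.w tt C.sy (blkF [] C.D)) C.Ns 0

variable {m : ℕ} [NeZero m] {n : ℕ}

private theorem CV0_ok {x y : ℕ} (h : okL x x false = true) (h2 : x / 16 = y / 16) :
    okL x y false = true := by
  unfold okL at h ⊢
  have e1 : Nat.beq (Nat.div x 16) (Nat.div x 16) = true := Nat.beq_refl _
  have e2 : Nat.beq (Nat.div x 16) (Nat.div y 16) = true := by
    have h3 : Nat.div x 16 = Nat.div y 16 := h2
    rw [h3]
    exact Nat.beq_refl _
  rw [e1, cond_true] at h
  rw [e2, cond_true]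
  have e3 : Nat.xor (Nat.xor (Nat.mod x 4) (Nat.mod x 4)) (bif false then 1 else 2) = 2 := by
    have : Nat.xor (Nat.mod x 4) (Nat.mod x 4) = 0 := Nat.xor_self _
    rw [this]
    rfl
  rw [e3] at h
  have e4 : Nat.mod (Nat.div x 4) 4 = 0 := by
    by_contra hne
    have hlt : Nat.mod (Nat.div x 4) 4 < 4 := Nat.mod_lt _ (by norm_num)
    revert h hne hlt
    generalize Nat.mod (Nat.div x 4) 4 = k
    intro h hne hlt
    interval_cases k
    · exact hne rfl
    · exact absurd h (by decide)
    · exact absurd h (by decide)
    · exact absurd h (by decide)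
  rw [e4]
  rfl

theorem chkV_sound (hm : 3 ≤ m) (hm' : m ≤ 8) {w : List ℕ} {tt : List TorT}
    (htt : ∀ T ∈ tt, T.OK m) {sy : List (Bool × ℕ × List ℕ)} (hsy : ∀ g ∈ sy, symT m w g = true)
    {D : ℕ → List Eqn} {i : ℕ} (hD : ∀ j < i, NodeU m w (D j)) {N : TN}
    (h : chkV m w tt sy D i N = true) : NodeU m w (D i) := by
  cases N with
  | leafM k nu cs inn =>
    have h' : chkU m w tt sy D i (TN.leafM k nu cs inn) = true := h
    intro n P S b M ha hb
    exact chkU_sound hm hm' htt hsy hD h' P S b M ha hb
  | tor id r s cs =>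
    have h' : chkU m w tt sy D i (TN.tor id r s cs) = true := h
    intro n P S b M ha hb
    exact chkU_sound hm hm' htt hsy hD h' P S b M ha hb
  | lp v φ V0 Am L fuel rows GS ρ cvs ch =>
    have h' : chkU m w tt sy D i (TN.lp v φ V0 Am L fuel rows GS ρ cvs ch) = true := h
    intro n P S b M ha hb
    exact chkU_sound hm hm' htt hsy hD h' P S b M ha hb
  | geo d f lin cs fuel =>
    intro n P S b M hEa hEb
    have h' : (strB m w &&
      geoB (m := m) (fun j => Nat.div (nthF 0 w j.val) 16) (D i ++ eqs0 m []) d f lin cs fuel) = true := h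
    rw [Bool.and_eq_true] at h'
    obtain ⟨h1, h2⟩ := h'
    have hrel : ∀ j k c, relT w j k c = true → S.Rel j k c := fun j k c => (M.rel j k c).2
    have hB : ∀ E ∈ D i ++ eqs0 m [], Eqn.Holds E b := by
      intro E hE
      rcases List.mem_append.1 hE with h1 | h1
      · exact hEb E h1
      · exact eqs0_sound M.b_sum (fun p hp => absurd hp List.not_mem_nil)
          (fun p hp => absurd hp List.not_mem_nil) E h1
    have hs : ∀ j, S.Minus j j := by
      intro j
      have h3 : S.Rel j j false := by
        apply hrel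
        unfold strB at h1
        rw [List.all_eq_true] at h1
        have h5 := h1 j.val (List.mem_range.2 (ZMod.val_lt j))
        rw [nthF_eq] at h5
        exact h5
      simpa [Arcs.Rel] using h3
    obtain ⟨σ, ε, hp, hmi, hb⟩ := M.off
    have hb2 : ∀ j, b j = P.ang (S.κ j) / Real.pi := by
      intro j
      have e1 := (hmi (j - 1) (j - 1) (hs (j - 1))).2
      have e2 := (hmi j j (hs j)).1
      rw [hb j]
      have e3 : ε (j - 1) = 0 := by linarith
      have e4 : σ j = 0 := by linarith
      rw [e3, e4]
      ring
    refine (geoA_sound S hm (a := b) ?_ ?_ M.chord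
      (cls := fun j => Nat.div (nthF 0 w j.val) 16) (fun j k hjk => ?_) hB h2).elim
    · intro j
      rw [hb2]
      exact div_pos (P.ang_pos _) Real.pi_pos
    · intro j
      rw [hb2, div_lt_iff₀ Real.pi_pos]
      exact P.ang_lt _
    · have e1 : nthF 0 w j.val / 16 = nthF 0 w k.val / 16 := hjk
      have e2 : okL (nthF 0 w j.val) (nthF 0 w j.val) false = true := by
        unfold strB at h1
        rw [List.all_eq_true] at h1
        exact h1 j.val (List.mem_range.2 (ZMod.val_lt j))
      have e3 : S.Rel j k false := by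
        apply hrel
        unfold relT
        rw [← nthF_eq 0 w j.val, ← nthF_eq 0 w k.val]
        exact CV0_ok e2 e1
      exact S.norm_minus (by simpa [Arcs.Rel] using e3)

private theorem CV0_allI {α : Type} {g : ℕ → α → Bool} {l : List α} {i0 : ℕ}
    (h : allI g l i0 = true) (j : ℕ) (hj : j < l.length) : g (i0 + j) l[j] = true := by
  induction l generalizing i0 j with
  | nil => exact absurd hj (by simp)
  | cons x l ih =>
    have h' : (bif g i0 x then allI g l (Nat.succ i0) else false) = true := h
    cases hx : g i0 x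
    · rw [hx] at h'
      exact absurd h' (by simp)
    · rw [hx, cond_true] at h'
      cases j with
      | zero => simpa using hx
      | succ j =>
        have h2 := ih h' j (by simpa using hj)
        rw [show i0 + (j + 1) = Nat.succ i0 + j by omega]
        simpa using h2

theorem chkW_sound (hm : 3 ≤ m) (hm' : m ≤ 8) {tt : List TorT} (htt : ∀ T ∈ tt, T.OK m)
    {C : CertT} (h : chkW m tt C = true) :
    C.w = decW m (encW C.w) ∧ NodeU m C.w [] := by
  unfold chkW at h
  simp only [Bool.and_eq_true, beq_iff_eq, List.all_eq_true, decide_eq_true_eq,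
    List.isEmpty_iff] at h
  obtain ⟨⟨⟨⟨h1, h2⟩, h3⟩, h4⟩, h5⟩ := h
  refine ⟨h1, ?_⟩
  have key : ∀ i, i < C.Ns.length → NodeU m C.w (blkF [] C.D i) := by
    intro i
    induction i using Nat.strong_induction_on with
    | _ i ih =>
      intro hi
      have h6 := CV0_allI h5 i hi
      rw [Nat.zero_add] at h6
      intro n P S b M ha hb
      exact chkV_sound hm hm' htt h2 (fun j hj => ih j hj (by omega)) h6 P S b M ha hb
  intro n P S b M ha hb
  refine key (C.Ns.length - 1) (by omega) P S b M ?_ ?_
  · rw [h4]
    exact ha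
  · rw [h4]
    exact hb

end Pool.Agent.Lib_MP_fa6e45
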