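import Pool.Agent.Lib_MP_fa6e45.GQ1

/-!
MP_fa6e45_co, stage 9: positivity of the sum over a class.
-/

namespace Pool.Agent.Lib_MP_fa6e45

/-- the angle of the lane `e`, rotated -/
noncomputable def psQ (D s p ρ : ℕ) (t : ℝ) (e : ℕ × ℕ × ℕ) : ℝ :=
  Real.pi * ((e.1 : ℝ) + e.2.1 * t) / D + (Real.pi * ((p : ℝ) - 1 / 2) / 2048 -
    Real.pi * ρ * (t - s / 2048) / D)

/-- one lane -/
private theorem GQ3_lane {D s p ρ h : ℕ} (hD : 0 < D) {t : ℝ} (ht : |2048 * t - s| ≤ h)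
    (al be c : ℕ) :
    (gqE gqT ((2048 * al + be * s) / D + p) : ℝ) - 16398 -
      (176 * (((be - ρ : ℕ) : ℝ) + ((ρ - be : ℕ) : ℝ))) * h / (7 * D) ≤
      16384 * Real.cos (psQ D s p ρ t (al, be, c)) := by
  have hDr : (0 : ℝ) < D := by exact_mod_cast hD
  have hpi := Real.pi_pos
  have hpi2 : Real.pi < 22 / 7 := by
    have := Real.pi_lt_d4
    norm_num at this ⊢
    linarith
  set q : ℕ := (2048 * al + be * s) / D with hq
  have hE := gqE_le (q + p)
  have hlip : Real.cos (Real.pi * ((q + p : ℕ) : ℝ) / 2048) - Real.cos (psQ D s p ρ t (al, be, c)) ≤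
      |Real.pi * ((q + p : ℕ) : ℝ) / 2048 - psQ D s p ρ t (al, be, c)| := by
    refine (le_abs_self _).trans ?_
    have h1 := Real.lipschitzWith_cos.dist_le_mul (Real.pi * ((q + p : ℕ) : ℝ) / 2048)
      (psQ D s p ρ t (al, be, c))
    rw [Real.dist_eq, Real.dist_eq, NNReal.coe_one, one_mul] at h1
    exact h1
  -- the distance of the angles
  have hX1 : ((q : ℕ) : ℝ) * D ≤ 2048 * al + be * s := by
    have := Nat.div_mul_le_self (2048 * al + be * s) D
    rw [← hq] at this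
    exact_mod_cast this
  have hX2 : (2048 * al + be * s : ℝ) < ((q : ℕ) : ℝ) * D + D := by
    have := Nat.lt_div_mul_add (a := 2048 * al + be * s) hD
    rw [← hq] at this
    exact_mod_cast this
  have habs : |(be : ℝ) - ρ| = ((be - ρ : ℕ) : ℝ) + ((ρ - be : ℕ) : ℝ) := by
    rcases le_total be ρ with hle | hle
    · have h1 : be - ρ = 0 := Nat.sub_eq_zero_of_le hle
      rw [h1, Nat.cast_sub hle, abs_of_nonpos (by
        have : (be : ℝ) ≤ ρ := by exact_mod_cast hle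
        linarith)]
      push_cast
      ring
    · have h1 : ρ - be = 0 := Nat.sub_eq_zero_of_le hle
      rw [h1, Nat.cast_sub hle, abs_of_nonneg (by
        have : (ρ : ℝ) ≤ be := by exact_mod_cast hle
        linarith)]
      push_cast
      ring
  have hpsi : Real.pi * ((q + p : ℕ) : ℝ) / 2048 - psQ D s p ρ t (al, be, c) =
      Real.pi / 2048 * ((1 / 2 - ((2048 * al + be * s : ℝ) / D - q)) -
        ((be : ℝ) - ρ) * (2048 * t - s) / D) := by
    unfold psQ
    push_cast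
    field_simp
    ring
  have hfr : |1 / 2 - ((2048 * al + be * s : ℝ) / D - q)| ≤ 1 / 2 := by
    have h1 : (q : ℝ) ≤ (2048 * al + be * s : ℝ) / D := by
      rw [le_div_iff₀ hDr]
      exact hX1
    have h2 : (2048 * al + be * s : ℝ) / D < q + 1 := by
      rw [div_lt_iff₀ hDr]
      linarith
    rw [abs_le]
    constructor <;> linarith
  have hbig : |((be : ℝ) - ρ) * (2048 * t - s) / D| ≤
      (((be - ρ : ℕ) : ℝ) + ((ρ - be : ℕ) : ℝ)) * h / D := by
    rw [abs_div, abs_mul, abs_of_pos hDr, ← habs]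
    gcongr
  have hdist : |Real.pi * ((q + p : ℕ) : ℝ) / 2048 - psQ D s p ρ t (al, be, c)| ≤
      Real.pi / 2048 * (1 / 2 + (((be - ρ : ℕ) : ℝ) + ((ρ - be : ℕ) : ℝ)) * h / D) := by
    rw [hpsi, abs_mul, abs_of_pos (by positivity : 0 < Real.pi / 2048)]
    refine mul_le_mul_of_nonneg_left ?_ (by positivity)
    refine (abs_sub _ _).trans ?_
    exact add_le_add hfr hbig
  have hB : (0 : ℝ) ≤ (((be - ρ : ℕ) : ℝ) + ((ρ - be : ℕ) : ℝ)) * h / D := by positivity
  set B : ℝ := (((be - ρ : ℕ) : ℝ) + ((ρ - be : ℕ) : ℝ)) * h / D with hBdef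
  have e1 : (176 * (((be - ρ : ℕ) : ℝ) + ((ρ - be : ℕ) : ℝ))) * h / (7 * D) = 176 / 7 * B := by
    rw [hBdef]
    field_simp
  rw [e1]
  have h3 : 16384 * (Real.pi / 2048 * (1 / 2 + B)) = 4 * Real.pi + 8 * Real.pi * B := by ring
  have h4 : 8 * Real.pi * B ≤ 176 / 7 * B := by
    refine mul_le_mul_of_nonneg_right ?_ hB
    linarith
  have h5 : 4 * Real.pi ≤ 13 := by linarith
  nlinarith [hlip, hdist, hE, h3, h4, h5]

private theorem GQ3_sum {D s p c ρ h : ℕ} (hD : 0 < D) {t : ℝ} (ht : |2048 * t - s| ≤ h)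
    (l : List (ℕ × ℕ × ℕ)) :
    (gqS gqT D s p c l : ℝ) - gqN c l - (gqB ρ c l : ℝ) * h / (7 * D) ≤
      16384 * ((l.filter fun e => e.2.2 == c).map fun e => Real.cos (psQ D s p ρ t e)).sum := by
  have hDr : (0 : ℝ) < D := by exact_mod_cast hD
  induction l with
  | nil =>
    have h1 : gqS gqT D s p c [] = 0 := rfl
    have h2 : gqN c [] = 0 := rfl
    have h3 : gqB ρ c [] = 0 := rfl
    rw [h1, h2, h3]
    simp
  | cons e l ih =>
    have h1 : gqS gqT D s p c (e :: l) = bif Nat.beq e.2.2 c then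
        Nat.add (gqE gqT (Nat.add (Nat.div (Nat.add (Nat.mul 2048 e.1) (Nat.mul e.2.1 s)) D) p))
          (gqS gqT D s p c l) else gqS gqT D s p c l := rfl
    have h2 : gqN c (e :: l) = bif Nat.beq e.2.2 c then Nat.add 16398 (gqN c l) else gqN c l := rfl
    have h3 : gqB ρ c (e :: l) = bif Nat.beq e.2.2 c then
        Nat.add (Nat.mul 176 (Nat.add (Nat.sub e.2.1 ρ) (Nat.sub ρ e.2.1))) (gqB ρ c l) else gqB ρ c l := rfl
    by_cases hc : e.2.2 = c
    · have hb : Nat.beq e.2.2 c = true := Nat.beq_eq.symm ▸ hc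
      have hb' : (e.2.2 == c) = true := beq_iff_eq.2 hc
      rw [h1, h2, h3, hb, List.filter_cons_of_pos (by simpa using hc), List.map_cons, List.sum_cons]
      have h4 := GQ3_lane (p := p) (ρ := ρ) hD ht e.1 e.2.1 e.2.2
      simp only [cond_true]
      have e1 : (Nat.add (gqE gqT (Nat.add (Nat.div (Nat.add (Nat.mul 2048 e.1) (Nat.mul e.2.1 s)) D) p))
          (gqS gqT D s p c l) : ℕ) = gqE gqT ((2048 * e.1 + e.2.1 * s) / D + p) + gqS gqT D s p c l := rfl
      have e2 : (Nat.add 16398 (gqN c l) : ℕ) = 16398 + gqN c l := rfl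
      have e3 : (Nat.add (Nat.mul 176 (Nat.add (Nat.sub e.2.1 ρ) (Nat.sub ρ e.2.1))) (gqB ρ c l) : ℕ) =
          176 * ((e.2.1 - ρ) + (ρ - e.2.1)) + gqB ρ c l := rfl
      rw [e1, e2, e3]
      have e4 : psQ D s p ρ t (e.1, e.2.1, e.2.2) = psQ D s p ρ t e := rfl
      rw [e4] at h4
      push_cast
      have e5 : (176 * (((e.2.1 - ρ : ℕ) : ℝ) + ((ρ - e.2.1 : ℕ) : ℝ)) + (gqB ρ c l : ℝ)) * h / (7 * D) =
          176 * (((e.2.1 - ρ : ℕ) : ℝ) + ((ρ - e.2.1 : ℕ) : ℝ)) * h / (7 * D) + (gqB ρ c l : ℝ) * h / (7 * D) := by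
        ring
      rw [e5]
      linarith
    · have hb : Nat.beq e.2.2 c = false := by
        rw [← Bool.not_eq_true, Nat.beq_eq]
        exact hc
      rw [h1, h2, h3, hb, List.filter_cons_of_neg (by simpa using hc)]
      simpa only [cond_false] using ih

theorem gqS_pos {l : List (ℕ × ℕ × ℕ)} {D s p c ρ BB NN h : ℕ} (hD : 0 < D)
    (h1 : BB * h / (7 * D) + NN < gqS gqT D s p c l) (h2 : gqB ρ c l ≤ BB) (h3 : gqN c l ≤ NN) {t : ℝ}
    (ht : |2048 * t - s| ≤ h) :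
    0 < ((l.filter fun e => e.2.2 == c).map fun e => Real.cos (psQ D s p ρ t e)).sum := by
  have hDr : (0 : ℝ) < D := by exact_mod_cast hD
  have key := GQ3_sum (p := p) (c := c) (ρ := ρ) hD ht l
  have hfl : ((BB : ℝ) * h) / (7 * D) < ((BB * h / (7 * D) : ℕ) : ℝ) + 1 := by
    rw [div_lt_iff₀ (by positivity)]
    have := Nat.lt_div_mul_add (a := BB * h) (b := 7 * D) (by omega)
    have h4 : ((BB * h : ℕ) : ℝ) < ((BB * h / (7 * D) * (7 * D) + 7 * D : ℕ) : ℝ) := by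
      exact_mod_cast this
    push_cast at h4
    linarith
  have h5 : ((BB * h / (7 * D) : ℕ) : ℝ) + 1 + NN ≤ gqS gqT D s p c l := by
    have : BB * h / (7 * D) + 1 + NN ≤ gqS gqT D s p c l := by omega
    exact_mod_cast this
  have h6 : (gqB ρ c l : ℝ) * h / (7 * D) ≤ (BB : ℝ) * h / (7 * D) := by
    have : (gqB ρ c l : ℝ) ≤ BB := by exact_mod_cast h2
    gcongr
  have h7 : (gqN c l : ℝ) ≤ NN := by exact_mod_cast h3
  linarith

end Pool.Agent.Lib_MP_fa6e45
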