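import Pool.Agent.Lib_MP_fa6e45.CQ1

/-!
MP_fa6e45_co, stage 9: derivations of equations (see CQ0).
-/

namespace Pool.Agent.Lib_MP_fa6e45

/-! ### numbers with small digits in base `2 ^ 48` -/

/-- the digits number `0`, ..., `m` are at most `B`, the others are `0` -/
private def VB (m B x : ℕ) : Prop := x < 2 ^ (48 * (m + 1)) ∧ ∀ i < m + 1, dg 48 x i ≤ B

private theorem VB_mono {m B C x : ℕ} (h : VB m B x) (hBC : B ≤ C) : VB m C x :=
  ⟨h.1, fun i hi => (h.2 i hi).trans hBC⟩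

private theorem dg_zero (i : ℕ) : dg 48 0 i = 0 := by
  rw [dg_def, Nat.zero_div, Nat.zero_mod]

private theorem VB_zero (m B : ℕ) : VB m B 0 :=
  ⟨Nat.two_pow_pos _, fun i _ => by rw [dg_zero]; exact Nat.zero_le _⟩

private theorem VB_add {m B C x y : ℕ} (hx : VB m B x) (hy : VB m C y) (hBC : B + C < 2 ^ 48) :
    VB m (B + C) (x + y) ∧ ∀ i < m + 1, dg 48 (x + y) i = dg 48 x i + dg 48 y i := by
  have h := dg_add (u := 48) (n := m + 1) hx.1 hy.1 (fun i hi => by
    have := hx.2 i hi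
    have := hy.2 i hi
    omega)
  refine ⟨⟨h.1, fun i hi => ?_⟩, h.2⟩
  rw [h.2 i hi]
  have := hx.2 i hi
  have := hy.2 i hi
  omega

private theorem VB_mul {m B c x : ℕ} (hx : VB m B x) (hB : c * B < 2 ^ 48) :
    VB m (c * B) (c * x) ∧ ∀ i < m + 1, dg 48 (c * x) i = c * dg 48 x i := by
  have hf : ∀ i < m + 1, c * dg 48 x i < 2 ^ 48 := fun i hi =>
    lt_of_le_of_lt (Nat.mul_le_mul_left c (hx.2 i hi)) hB
  have e : c * x = ∑ i ∈ Finset.range (m + 1), (c * dg 48 x i) * 2 ^ (48 * i) := by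
    conv_lhs => rw [← sum_dg hx.1]
    rw [Finset.mul_sum]
    exact Finset.sum_congr rfl fun i _ => (mul_assoc _ _ _).symm
  have h1 : c * x < 2 ^ (48 * (m + 1)) := by
    rw [e]
    exact sum_lt hf
  have h2 : ∀ i < m + 1, dg 48 (c * x) i = c * dg 48 x i := by
    intro i hi
    rw [e]
    exact dg_sum (f := fun i => c * dg 48 x i) hf hi
  refine ⟨⟨h1, fun i hi => ?_⟩, h2⟩
  rw [h2 i hi]
  exact Nat.mul_le_mul_left c (hx.2 i hi)

/-! ### the test `bndQ` -/

private theorem tb_dg (x i r : ℕ) : (dg 48 x i).testBit r = (decide (r < 48) && x.testBit (48 * i + r)) := by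
  rw [dg_def, Nat.testBit_mod_two_pow, Nat.testBit_div_two_pow]
  congr 2
  omega

private noncomputable def MB (m : ℕ) : ℕ := Nat.mul (Nat.sub (Nat.pow 2 20) 1) (onQ 48 (Nat.succ m))

private theorem MB_eq (m : ℕ) : MB m = ∑ i ∈ Finset.range (m + 1), (2 ^ 20 - 1) * 2 ^ (48 * i) := by
  have h1 : MB m = (2 ^ 20 - 1) * onQ 48 (m + 1) := rfl
  rw [h1, onQ_eq (by norm_num), Finset.mul_sum]

private theorem MB_VB (m : ℕ) : MB m < 2 ^ (48 * (m + 1)) ∧ ∀ i < m + 1, dg 48 (MB m) i = 2 ^ 20 - 1 := by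
  have hf : ∀ i < m + 1, (fun _ : ℕ => 2 ^ 20 - 1) i < 2 ^ 48 := fun i _ => by norm_num
  refine ⟨?_, fun i hi => ?_⟩
  · rw [MB_eq]
    exact sum_lt hf
  · rw [MB_eq]
    exact dg_sum hf hi

private theorem land_iff (m x : ℕ) : x &&& MB m = x ↔ VB m (2 ^ 20 - 1) x := by
  obtain ⟨hM1, hM2⟩ := MB_VB m
  constructor
  · intro h
    have h1 : x < 2 ^ (48 * (m + 1)) := by
      rw [← h]
      exact lt_of_le_of_lt Nat.and_le_right hM1
    refine ⟨h1, fun i hi => ?_⟩
    have h2 : dg 48 x i = dg 48 x i &&& dg 48 (MB m) i := by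
      apply Nat.eq_of_testBit_eq
      intro r
      rw [Nat.testBit_and, tb_dg, tb_dg]
      conv_lhs => rw [← h, Nat.testBit_and]
      cases decide (r < 48) <;> simp
    rw [h2, hM2 i hi]
    exact Nat.and_le_right
  · intro h
    apply Nat.eq_of_testBit_eq
    intro p
    rw [Nat.testBit_and]
    rcases Bool.eq_false_or_eq_true (x.testBit p) with hp | hp
    · rw [hp, Bool.true_and]
      have hpi : p = 48 * (p / 48) + p % 48 := (Nat.div_add_mod p 48).symm
      have hr : p % 48 < 48 := Nat.mod_lt _ (by norm_num)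
      have hi : p / 48 < m + 1 := by
        by_contra hcon
        have h3 : 2 ^ (48 * (m + 1)) ≤ 2 ^ p := Nat.pow_le_pow_right (by norm_num) (by omega)
        have h4 := Nat.testBit_lt_two_pow (lt_of_lt_of_le h.1 h3)
        rw [hp] at h4
        exact absurd h4 (by simp)
      have h5 : (dg 48 x (p / 48)).testBit (p % 48) = true := by
        rw [tb_dg, ← hpi, hp]
        simp [hr]
      have h6 : p % 48 < 20 := by
        by_contra hcon
        have h7 := Nat.ge_two_pow_of_testBit h5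
        have h8 : 2 ^ 20 ≤ 2 ^ (p % 48) := Nat.pow_le_pow_right (by norm_num) (by omega)
        have h9 := h.2 _ hi
        omega
      have h7 : (dg 48 (MB m) (p / 48)).testBit (p % 48) = true := by
        rw [hM2 _ hi, Nat.testBit_two_pow_sub_one]
        simpa using h6
      rw [tb_dg, ← hpi] at h7
      simpa [hr] using h7
    · rw [hp, Bool.false_and]

private theorem bnd_iff (m : ℕ) (e : ℕ × ℕ) :
    bndQ m e = true ↔ VB m (2 ^ 20 - 1) e.1 ∧ VB m (2 ^ 20 - 1) e.2 := by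
  have h : bndQ m e = (Nat.beq (e.1 &&& MB m) e.1 && Nat.beq (e.2 &&& MB m) e.2) := rfl
  rw [h, Bool.and_eq_true, Nat.beq_eq, Nat.beq_eq, land_iff, land_iff]

/-! ### digits in front -/

private theorem dg_cons_zero {a : ℕ} (ha : a < 2 ^ 48) (b : ℕ) : dg 48 (a + 2 ^ 48 * b) 0 = a := by
  rw [dg_def, Nat.mul_zero, Nat.pow_zero, Nat.div_one, Nat.add_mul_mod_self_left, Nat.mod_eq_of_lt ha]

private theorem dg_cons_succ {a : ℕ} (ha : a < 2 ^ 48) (b i : ℕ) :
    dg 48 (a + 2 ^ 48 * b) (i + 1) = dg 48 b i := by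
  rw [dg_def, dg_def, show 48 * (i + 1) = 48 + 48 * i by ring, pow_add, ← Nat.div_div_eq_div_mul,
    Nat.add_mul_div_left _ _ (Nat.two_pow_pos 48), Nat.div_eq_of_lt ha, Nat.zero_add]

private theorem cons_lt {a : ℕ} (ha : a < 2 ^ 48) {b n : ℕ} (hb : b < 2 ^ (48 * n)) :
    a + 2 ^ 48 * b < 2 ^ (48 * (n + 1)) := by
  have h1 : (2 : ℕ) ^ (48 * (n + 1)) = 2 ^ 48 * 2 ^ (48 * n) := by
    rw [← pow_add]
    congr 1
    ring
  rw [h1]
  have h2 : 2 ^ 48 * (b + 1) ≤ 2 ^ 48 * 2 ^ (48 * n) := Nat.mul_le_mul_left _ hb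
  have h3 : 2 ^ 48 * (b + 1) = 2 ^ 48 * b + 2 ^ 48 := by ring
  omega

private theorem cv_dig (n : ℕ) : ∀ cv, cvQ n cv < 2 ^ (48 * (n + 1)) ∧
    (∀ i < n, dg 48 (cvQ n cv) i = cv / 16 ^ i % 16) ∧ dg 48 (cvQ n cv) n = 2 := by
  induction n with
  | zero =>
    intro cv
    have e : cvQ 0 cv = 2 := rfl
    rw [e]
    refine ⟨by norm_num, fun i hi => absurd hi (by omega), ?_⟩
    rw [dg_def]
    norm_num
  | succ n ih =>
    intro cv
    have e : cvQ (n + 1) cv = cv % 16 + 2 ^ 48 * cvQ n (cv / 16) := rfl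
    have ha : cv % 16 < 2 ^ 48 := lt_of_lt_of_le (Nat.mod_lt _ (by norm_num)) (by norm_num)
    obtain ⟨h1, h2, h3⟩ := ih (cv / 16)
    rw [e]
    refine ⟨cons_lt ha h1, fun i hi => ?_, ?_⟩
    · cases i with
      | zero => rw [dg_cons_zero ha, Nat.pow_zero, Nat.div_one]
      | succ i =>
        rw [dg_cons_succ ha, h2 i (by omega), Nat.div_div_eq_div_mul]
        congr 2
        ring
    · rw [dg_cons_succ ha, h3]

private theorem perm_dig (m x : ℕ) (σ : List ℕ) : permQ m x σ < 2 ^ (48 * (σ.length + 1)) ∧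
    (∀ i < σ.length, dg 48 (permQ m x σ) i = dg 48 x (σ.getD i 0)) ∧
      dg 48 (permQ m x σ) σ.length = dg 48 x m := by
  induction σ with
  | nil =>
    have e : permQ m x [] = dg 48 x m := rfl
    rw [e]
    have h := dg_lt 48 x m
    refine ⟨by simpa using h, fun i hi => absurd hi (by simp), ?_⟩
    rw [List.length_nil, dg_def 48 (dg 48 x m), Nat.mul_zero, Nat.pow_zero, Nat.div_one, Nat.mod_eq_of_lt h]
  | cons s σ ih =>
    have e : permQ m x (s :: σ) = dg 48 x s + 2 ^ 48 * permQ m x σ := rfl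
    obtain ⟨h1, h2, h3⟩ := ih
    have ha := dg_lt 48 x s
    rw [e, List.length_cons]
    refine ⟨cons_lt ha h1, fun i hi => ?_, ?_⟩
    · cases i with
      | zero => rw [dg_cons_zero ha]; rfl
      | succ i =>
        rw [dg_cons_succ ha, h2 i (by omega)]
        rfl
    · rw [dg_cons_succ ha, h3]

/-! ### values -/

section

variable {m : ℕ} [NeZero m]

/-- value of a vector -/
private noncomputable def FQ (a : ZMod m → ℝ) (x : ℕ) : ℝ :=
  ∑ i : ZMod m, (dg 48 x i.val : ℝ) * a i - (dg 48 x m : ℝ)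

/-- the equation `eqnQ m e` -/
theorem eqnQ_holds (e : ℕ × ℕ) (a : ZMod m → ℝ) : Eqn.Holds (eqnQ m e) a ↔
    ∑ i : ZMod m, ((dg 48 e.1 i.val : ℝ) - (dg 48 e.2 i.val : ℝ)) * a i = (dg 48 e.1 m : ℝ) - (dg 48 e.2 m : ℝ) := by
  have h : ∀ i : ZMod m, (((eqnQ m e).1.getD i.val 0 : ℤ) : ℝ) = (dg 48 e.1 i.val : ℝ) - (dg 48 e.2 i.val : ℝ) := by
    intro i
    have hi := ZMod.val_lt i
    have e1 : (eqnQ m e).1 = (List.range m).map fun j =>
      Int.sub (Int.ofNat (dg 48 e.1 j)) (Int.ofNat (dg 48 e.2 j)) := rfl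
    rw [e1, List.getD_eq_getElem _ _ (by simpa using hi), List.getElem_map, List.getElem_range]
    change (((dg 48 e.1 i.val : ℤ) - (dg 48 e.2 i.val : ℤ) : ℤ) : ℝ) = _
    push_cast
    ring
  have h2 : (((eqnQ m e).2 : ℤ) : ℝ) = (dg 48 e.1 m : ℝ) - (dg 48 e.2 m : ℝ) := by
    change (((dg 48 e.1 m : ℤ) - (dg 48 e.2 m : ℤ) : ℤ) : ℝ) = _
    push_cast
    ring
  unfold Eqn.Holds
  rw [h2]
  simp only [h]

private theorem holds_F (e : ℕ × ℕ) (a : ZMod m → ℝ) : Eqn.Holds (eqnQ m e) a ↔ FQ a e.1 = FQ a e.2 := by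
  rw [eqnQ_holds]
  unfold FQ
  simp only [sub_mul]
  rw [Finset.sum_sub_distrib]
  constructor
  · intro h
    linarith
  · intro h
    linarith

private theorem F_zero (a : ZMod m → ℝ) : FQ a 0 = 0 := by
  unfold FQ
  simp [dg_zero]

private theorem F_add (a : ZMod m → ℝ) {x y : ℕ} (h : ∀ i < m + 1, dg 48 (x + y) i = dg 48 x i + dg 48 y i) :
    FQ a (x + y) = FQ a x + FQ a y := by
  have h1 : ∀ i : ZMod m, ((dg 48 (x + y) i.val : ℕ) : ℝ) * a i =
      (dg 48 x i.val : ℝ) * a i + (dg 48 y i.val : ℝ) * a i := by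
    intro i
    have := ZMod.val_lt i
    rw [h i.val (by omega)]
    push_cast
    ring
  unfold FQ
  rw [h m (by omega), Finset.sum_congr rfl fun i _ => h1 i, Finset.sum_add_distrib]
  push_cast
  ring

private theorem F_mul (a : ZMod m → ℝ) {c x : ℕ} (h : ∀ i < m + 1, dg 48 (c * x) i = c * dg 48 x i) :
    FQ a (c * x) = c * FQ a x := by
  have h1 : ∀ i : ZMod m, ((dg 48 (c * x) i.val : ℕ) : ℝ) * a i = c * ((dg 48 x i.val : ℝ) * a i) := by
    intro i
    have := ZMod.val_lt i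
    rw [h i.val (by omega)]
    push_cast
    ring
  unfold FQ
  rw [h m (by omega), Finset.sum_congr rfl fun i _ => h1 i, ← Finset.mul_sum]
  push_cast
  ring

theorem eq0Q_bnd (hm : m ≤ 8) : bndQ m (eq0Q m) = true := by
  have h : ∀ k ≤ 8, bndQ k (eq0Q k) = true := by
    intro k hk
    interval_cases k <;> rfl
  exact h m hm

theorem eq0Q_holds (hm : 3 ≤ m) (hm' : m ≤ 8) {a : ZMod m → ℝ} (h : ∑ i, a i = (m : ℝ) - 2) :
    Eqn.Holds (eqnQ m (eq0Q m)) a := by
  have h1 : ∀ k, 3 ≤ k → k ≤ 8 → (∀ i < k, dg 48 (eq0Q k).1 i = 1) ∧ dg 48 (eq0Q k).1 k = k - 2 ∧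
      (eq0Q k).2 = 0 := by
    intro k hk hk'
    interval_cases k
    all_goals
      refine ⟨fun i hi => ?_, rfl, rfl⟩
      interval_cases i <;> rfl
  obtain ⟨h2, h3, h4⟩ := h1 m hm hm'
  rw [holds_F, h4, F_zero]
  unfold FQ
  rw [h3, Finset.sum_congr rfl fun (i : ZMod m) _ => by rw [h2 i.val (ZMod.val_lt i), Nat.cast_one, one_mul], h,
    Nat.cast_sub (by omega)]
  push_cast
  ring

theorem cvQ_bnd (hm : m ≤ 8) (cv : ℕ) : bndQ m (cvQ m cv, 0) = true := by
  rw [bnd_iff]
  obtain ⟨h1, h2, h3⟩ := cv_dig m cv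
  refine ⟨⟨h1, fun i hi => ?_⟩, VB_zero _ _⟩
  rcases Nat.lt_succ_iff_lt_or_eq.1 hi with h4 | h4
  · rw [h2 i h4]
    have := Nat.mod_lt (cv / 16 ^ i) (show 0 < 16 by norm_num)
    omega
  · rw [h4, h3]
    norm_num

theorem cvQ_holds (hm' : m ≤ 8) {cv : ℕ} {a : ZMod m → ℝ}
    (h : ∑ i : ZMod m, ((cv / 16 ^ i.val % 16 : ℕ) : ℝ) * a i = 2) : Eqn.Holds (eqnQ m (cvQ m cv, 0)) a := by
  obtain ⟨-, h2, h3⟩ := cv_dig m cv
  rw [holds_F, F_zero]
  unfold FQ
  rw [h3, Finset.sum_congr rfl fun (i : ZMod m) _ => by rw [h2 i.val (ZMod.val_lt i)], h]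
  norm_num

/-! ### combinations -/

private theorem lc_sound {q : ℕ} (hq : q ≤ 20) {a : ZMod m → ℝ} {K : ℕ → ℕ → Bool} {E : List (ℕ × ℕ)} :
    ∀ {l X Y B : ℕ}, (∀ e ∈ E, bndQ m e = true) → (∀ e ∈ E, Eqn.Holds (eqnQ m e) a) →
      VB m B X → VB m B Y → B + E.length * 2 ^ 39 < 2 ^ 44 → FQ a X = FQ a Y → lcQ q K E l X Y = true →
      ∃ X' Y', VB m (2 ^ 44 - 1) X' ∧ VB m (2 ^ 44 - 1) Y' ∧ FQ a X' = FQ a Y' ∧ K X' Y' = true := by
  induction E with
  | nil =>
    intro l X Y B _ _ hX hY hB hF h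
    rw [List.length_nil, Nat.zero_mul, Nat.add_zero] at hB
    exact ⟨X, Y, VB_mono hX (by omega), VB_mono hY (by omega), hF, h⟩
  | cons e E ih =>
    intro l X Y B hE hH hX hY hB hF h
    rw [List.length_cons] at hB
    obtain ⟨he1, he2⟩ := (bnd_iff m e).1 (hE e List.mem_cons_self)
    have hFe := (holds_F e a).1 (hH e List.mem_cons_self)
    set c := l % 2 ^ q / 2 with hc
    have hc' : c < 2 ^ 19 := by
      have h1 : l % 2 ^ q < 2 ^ q := Nat.mod_lt _ (Nat.two_pow_pos q)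
      have h2 : 2 ^ q ≤ 2 ^ 20 := Nat.pow_le_pow_right (by norm_num) hq
      omega
    have hcB : c * (2 ^ 20 - 1) ≤ 2 ^ 39 := by
      calc c * (2 ^ 20 - 1) ≤ 2 ^ 19 * 2 ^ 20 := Nat.mul_le_mul hc'.le (by norm_num)
        _ = 2 ^ 39 := by norm_num
    obtain ⟨m1, m1'⟩ := VB_mul (c := c) he1 (by omega)
    obtain ⟨m2, m2'⟩ := VB_mul (c := c) he2 (by omega)
    have m1 := VB_mono m1 hcB
    have m2 := VB_mono m2 hcB
    obtain ⟨x1, x1'⟩ := VB_add hX m1 (by omega)
    obtain ⟨x2, x2'⟩ := VB_add hX m2 (by omega)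
    obtain ⟨y1, y1'⟩ := VB_add hY m1 (by omega)
    obtain ⟨y2, y2'⟩ := VB_add hY m2 (by omega)
    have hE' : ∀ e ∈ E, bndQ m e = true := fun e h => hE e (List.mem_cons_of_mem _ h)
    have hH' : ∀ e ∈ E, Eqn.Holds (eqnQ m e) a := fun e h => hH e (List.mem_cons_of_mem _ h)
    have e1 : lcQ q K (e :: E) l X Y = (bif Nat.beq (l % 2) 0 then
      lcQ q K E (l / 2 ^ q) (X + c * e.2) (Y + c * e.1) else
      lcQ q K E (l / 2 ^ q) (X + c * e.1) (Y + c * e.2)) := rfl
    rw [e1] at h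
    cases hb : Nat.beq (l % 2) 0
    · rw [hb, cond_false] at h
      refine ih hE' hH' x1 y2 (by omega) ?_ h
      rw [F_add a x1', F_add a y2', F_mul a m1', F_mul a m2', hF, hFe]
    · rw [hb, cond_true] at h
      refine ih hE' hH' x2 y1 (by omega) ?_ h
      rw [F_add a x2', F_add a y1', F_mul a m1', F_mul a m2', hF, hFe]

private theorem sum_val {M : Type*} [AddCommMonoid M] (f : ℕ → M) :
    ∑ i : ZMod m, f i.val = ∑ j ∈ Finset.range m, f j := by
  obtain ⟨n, hn⟩ := Nat.exists_eq_succ_of_ne_zero (NeZero.ne m)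
  subst hn
  exact Fin.sum_univ_eq_sum_range f (n + 1)

private theorem neg_eq (X Y n : ℕ) : negQ X Y n = ∑ j ∈ Finset.range n, (dg 48 X j - dg 48 Y j) := by
  induction n with
  | zero => rfl
  | succ n ih =>
    have e : negQ X Y (n + 1) = (dg 48 X n - dg 48 Y n) + negQ X Y n := rfl
    rw [e, ih, Finset.sum_range_succ, Nat.add_comm]

theorem conQ_sound (hm : m ≤ 8) {q : ℕ} (hq : q ≤ 20) {E : List (ℕ × ℕ)} (hE : ∀ e ∈ E, bndQ m e = true)
    (hl : E.length ≤ 15) {a : ZMod m → ℝ} (ha : ∀ e ∈ E, Eqn.Holds (eqnQ m e) a)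
    (hpos : ∀ i, 0 < a i) (hlt : ∀ i, a i < 2) (hne : ∀ i, a i ≠ 1) {j l : ℕ}
    (h : conQ m q E j l = true) : False := by
  obtain ⟨X, Y, hX, hY, hF, hK⟩ := lc_sound hq hE ha (VB_zero m 0) (VB_zero m 0)
    (by have : E.length * 2 ^ 39 ≤ 15 * 2 ^ 39 := Nat.mul_le_mul_right _ hl
        omega) rfl h
  cases j with
  | zero =>
    have hK' : (bif Nat.beq X Y then false else
        Nat.ble (dg 48 Y m + 2 * negQ X Y m) (dg 48 X m)) = true := hK
    cases hb : Nat.beq X Y
    · rw [hb, cond_false] at hK'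
      have h1 : X ≠ Y := Nat.ne_of_beq_eq_false hb
      have h2 := Nat.le_of_ble_eq_true hK'
      rw [neg_eq, ← sum_val (m := m) (fun j => dg 48 X j - dg 48 Y j)] at h2
      have h3 : (dg 48 Y m : ℝ) + 2 * ∑ i : ZMod m, ((dg 48 X i.val - dg 48 Y i.val : ℕ) : ℝ) ≤ dg 48 X m := by
        exact_mod_cast h2
      have h4 : ∀ i : ZMod m, ((dg 48 X i.val : ℝ) - dg 48 Y i.val) * a i ≤
          2 * ((dg 48 X i.val - dg 48 Y i.val : ℕ) : ℝ) ∧ (dg 48 X i.val ≠ dg 48 Y i.val →
          ((dg 48 X i.val : ℝ) - dg 48 Y i.val) * a i < 2 * ((dg 48 X i.val - dg 48 Y i.val : ℕ) : ℝ)) := by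
        intro i
        have p1 := hpos i
        have p2 := hlt i
        rcases lt_trichotomy (dg 48 X i.val) (dg 48 Y i.val) with h5 | h5 | h5
        · have e1 : dg 48 X i.val - dg 48 Y i.val = 0 := by omega
          have e2 : (dg 48 X i.val : ℝ) < dg 48 Y i.val := by exact_mod_cast h5
          rw [e1]
          have e3 : ((dg 48 X i.val : ℝ) - dg 48 Y i.val) * a i < 0 :=
            mul_neg_of_neg_of_pos (by linarith) p1
          constructor
          · push_cast
            linarith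
          · intro _
            push_cast
            linarith
        · rw [h5]
          simp
        · have e2 : (dg 48 Y i.val : ℝ) < dg 48 X i.val := by exact_mod_cast h5
          rw [Nat.cast_sub h5.le]
          have e3 : ((dg 48 X i.val : ℝ) - dg 48 Y i.val) * a i <
              ((dg 48 X i.val : ℝ) - dg 48 Y i.val) * 2 :=
            mul_lt_mul_of_pos_left p2 (by linarith)
          constructor
          · linarith
          · intro _
            linarith
      have h5 : ∑ i : ZMod m, ((dg 48 X i.val : ℝ) - dg 48 Y i.val) * a i = (dg 48 X m : ℝ) - dg 48 Y m := by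
        have h6 := (holds_F (X, Y) a).2 hF
        rw [eqnQ_holds] at h6
        exact h6
      by_cases h6 : ∀ i : ZMod m, dg 48 X i.val = dg 48 Y i.val
      · apply h1
        rw [← sum_dg hX.1, ← sum_dg hY.1]
        refine Finset.sum_congr rfl fun i hi => ?_
        have hi' := Finset.mem_range.1 hi
        congr 1
        rcases Nat.lt_succ_iff_lt_or_eq.1 hi' with h7 | h7
        · have h8 := h6 (i : ZMod m)
          rw [ZMod.val_natCast, Nat.mod_eq_of_lt h7] at h8
          exact h8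
        · rw [h7]
          have h8 : ∑ i : ZMod m, ((dg 48 X i.val : ℝ) - dg 48 Y i.val) * a i = 0 :=
            Finset.sum_eq_zero fun i _ => by rw [h6 i, sub_self, zero_mul]
          rw [h8] at h5
          have h9 : (dg 48 X m : ℝ) = dg 48 Y m := by linarith
          exact_mod_cast h9
      · push_neg at h6
        obtain ⟨i0, hi0⟩ := h6
        have h7 : ∑ i : ZMod m, ((dg 48 X i.val : ℝ) - dg 48 Y i.val) * a i <
            ∑ i : ZMod m, 2 * ((dg 48 X i.val - dg 48 Y i.val : ℕ) : ℝ) :=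
          Finset.sum_lt_sum (fun i _ => (h4 i).1) ⟨i0, Finset.mem_univ _, (h4 i0).2 hi0⟩
        rw [← Finset.mul_sum, h5] at h7
        linarith
    · rw [hb, cond_true] at hK'
      exact absurd hK' (by simp)
  | succ i =>
    have hK' : (bif Nat.blt i m then (bif Nat.blt X Y then
        Nat.beq Y (X + (Y - X) / (2 ^ (48 * i) + 2 ^ (48 * m)) * (2 ^ (48 * i) + 2 ^ (48 * m)))
          else false) else false) = true := hK
    cases hb1 : Nat.blt i m
    · rw [hb1, cond_false] at hK'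
      exact absurd hK' (by simp)
    cases hb2 : Nat.blt X Y
    · rw [hb1, hb2, cond_true, cond_false] at hK'
      exact absurd hK' (by simp)
    rw [hb1, hb2, cond_true, cond_true] at hK'
    have hi : i < m := Nat.le_of_ble_eq_true hb1
    have hXY : X < Y := Nat.le_of_ble_eq_true hb2
    set k := (Y - X) / (2 ^ (48 * i) + 2 ^ (48 * m)) with hk
    have hY2 : Y = X + k * (2 ^ (48 * i) + 2 ^ (48 * m)) := Nat.eq_of_beq_eq_true hK'
    have hk0 : 0 < k := by
      rcases Nat.eq_zero_or_pos k with h1 | h1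
      · rw [h1, Nat.zero_mul] at hY2
        omega
      · exact h1
    have hkB : k < 2 ^ 44 := by
      have h1 : k * 2 ^ (48 * m) ≤ Y := by
        rw [hY2, Nat.mul_add]
        omega
      have h2 : k ≤ Y / 2 ^ (48 * m) := (Nat.le_div_iff_mul_le (Nat.two_pow_pos _)).2 h1
      have h3 : Y / 2 ^ (48 * m) < 2 ^ 48 := by
        rw [Nat.div_lt_iff_lt_mul (Nat.two_pow_pos _), ← pow_add]
        have h4 := hY.1
        rwa [show 48 * (m + 1) = 48 + 48 * m by ring] at h4
      have h4 := hY.2 m (by omega)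
      rw [dg_def, Nat.mod_eq_of_lt h3] at h4
      omega
    -- the vector `k` at the places `i`, `m`
    set f : ℕ → ℕ := fun j => if j = i ∨ j = m then k else 0 with hf
    have hf' : ∀ j < m + 1, f j < 2 ^ 48 := by
      intro j _
      simp only [hf]
      split_ifs
      · omega
      · norm_num
    have e1 : k * (2 ^ (48 * i) + 2 ^ (48 * m)) = ∑ j ∈ Finset.range (m + 1), f j * 2 ^ (48 * j) := by
      rw [Finset.sum_range_succ]
      have e2 : ∑ j ∈ Finset.range m, f j * 2 ^ (48 * j) = k * 2 ^ (48 * i) := by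
        rw [Finset.sum_eq_single_of_mem i (Finset.mem_range.2 hi)]
        · simp [hf]
        · intro j hj hji
          have hj' := Finset.mem_range.1 hj
          simp only [hf]
          rw [if_neg (by omega), Nat.zero_mul]
      rw [e2]
      simp [hf, Nat.mul_add]
    have hZ : VB m (2 ^ 44 - 1) (k * (2 ^ (48 * i) + 2 ^ (48 * m))) := by
      refine ⟨?_, fun j hj => ?_⟩
      · rw [e1]
        exact sum_lt hf'
      · rw [e1, dg_sum hf' hj]
        simp only [hf]
        split_ifs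
        · omega
        · norm_num
    obtain ⟨-, h2⟩ := VB_add hX hZ (by norm_num)
    have h3 := F_add a h2
    rw [← hY2, ← hF] at h3
    have h4 : FQ a (k * (2 ^ (48 * i) + 2 ^ (48 * m))) = 0 := by linarith
    unfold FQ at h4
    rw [e1, dg_sum hf' (show m < m + 1 by omega), Finset.sum_congr rfl fun (j : ZMod m) _ => by
      rw [dg_sum hf' (show j.val < m + 1 by have := ZMod.val_lt j; omega)]] at h4
    have h5 : ∑ j : ZMod m, ((f j.val : ℕ) : ℝ) * a j = k * a (i : ZMod m) := by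
      rw [Finset.sum_eq_single_of_mem (i : ZMod m) (Finset.mem_univ _)]
      · rw [ZMod.val_natCast, Nat.mod_eq_of_lt hi]
        simp [hf]
      · intro j _ hji
        have h6 : j.val ≠ i := by
          intro h7
          apply hji
          rw [← h7, ZMod.natCast_zmod_val]
        have h7 := ZMod.val_lt j
        simp only [hf]
        rw [if_neg (by omega), Nat.cast_zero, zero_mul]
    rw [h5] at h4
    have h6 : f m = k := by simp [hf]
    rw [h6] at h4
    have h7 : (k : ℝ) ≠ 0 := by exact_mod_cast hk0.ne'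
    have h8 : (k : ℝ) * (a (i : ZMod m) - 1) = 0 := by linarith
    rcases mul_eq_zero.1 h8 with h9 | h9
    · exact h7 h9
    · exact hne (i : ZMod m) (by linarith)

/-- as `derG_sound`; `τ` is the permutation with the list `σ` of values, `ρ` its inverse -/
theorem derQ_sound (hm : m ≤ 8) {q : ℕ} (hq : q ≤ 20) {E : List (ℕ × ℕ)} (hE : ∀ e ∈ E, bndQ m e = true)
    (hl : E.length ≤ 15) {a : ZMod m → ℝ} (ha : ∀ e ∈ E, Eqn.Holds (eqnQ m e) a)
    {σ : List ℕ} (hσl : σ.length = m) {τ ρ : ZMod m → ZMod m} (hτ : ∀ i : ZMod m, σ.getD i.val 0 = (τ i).val)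
    (hρ : ∀ i, ρ (τ i) = i) {T : List (ℕ × ℕ)} (hT : ∀ t ∈ T, bndQ m t = true) {ls : List ℕ}
    (h : derQ m q E σ T ls = true) : ∀ t ∈ T, Eqn.Holds (eqnQ m t) fun j => a (ρ j) := by
  -- the permuted vector
  have hinj : Function.Injective τ := fun i j hij => by rw [← hρ i, ← hρ j, hij]
  have hbij : Function.Bijective τ := Finite.injective_iff_bijective.1 hinj
  have hperm : ∀ x, VB m (2 ^ 20 - 1) x → VB m (2 ^ 20 - 1) (permQ m x σ) ∧
      FQ a (permQ m x σ) = FQ (fun j => a (ρ j)) x := by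
    intro x hx
    obtain ⟨h1, h2, h3⟩ := perm_dig m x σ
    rw [hσl] at h1 h2 h3
    have h4 : ∀ i : ZMod m, dg 48 (permQ m x σ) i.val = dg 48 x (τ i).val := by
      intro i
      rw [h2 i.val (ZMod.val_lt i), hτ]
    refine ⟨⟨h1, fun i hi => ?_⟩, ?_⟩
    · rcases Nat.lt_succ_iff_lt_or_eq.1 hi with h5 | h5
      · have h6 := h4 (i : ZMod m)
        rw [ZMod.val_natCast, Nat.mod_eq_of_lt h5] at h6
        rw [h6]
        exact hx.2 _ (by have := ZMod.val_lt (τ (i : ZMod m)); omega)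
      · rw [h5, h3]
        exact hx.2 m (by omega)
    · unfold FQ
      rw [h3]
      congr 1
      rw [← Function.Bijective.sum_comp hbij (fun j => (dg 48 x j.val : ℝ) * a (ρ j))]
      refine Finset.sum_congr rfl fun i _ => ?_
      rw [h4 i, hρ]
  induction T generalizing ls with
  | nil =>
    intro t ht
    exact absurd ht List.not_mem_nil
  | cons t T ih =>
    cases ls with
    | nil => exact absurd h (by simp [derQ])
    | cons l ls =>
      have h' : (bif derQ1 q E (permQ m t.1 σ) (permQ m t.2 σ) l then derQ m q E σ T ls else false) = true := h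
      cases hb : derQ1 q E (permQ m t.1 σ) (permQ m t.2 σ) l
      · rw [hb, cond_false] at h'
        exact absurd h' (by simp)
      rw [hb, cond_true] at h'
      intro t' ht'
      rcases List.mem_cons.1 ht' with ht' | ht'
      · subst ht'
        have hb' : (bif Nat.ble 1 (l % 2 ^ q) then lcQ q (fun X Y =>
          Nat.beq (X + l % 2 ^ q * permQ m t'.1 σ) (Y + l % 2 ^ q * permQ m t'.2 σ)) E (l / 2 ^ q) 0 0
            else false) = true := hb
        cases hb1 : Nat.ble 1 (l % 2 ^ q)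
        · rw [hb1, cond_false] at hb'
          exact absurd hb' (by simp)
        rw [hb1, cond_true] at hb'
        have hd1 : 1 ≤ l % 2 ^ q := Nat.le_of_ble_eq_true hb1
        have hd2 : l % 2 ^ q < 2 ^ 20 := lt_of_lt_of_le (Nat.mod_lt _ (Nat.two_pow_pos q))
          (Nat.pow_le_pow_right (by norm_num) hq)
        obtain ⟨X, Y, hX, hY, hF, hK⟩ := lc_sound hq hE ha (VB_zero m 0) (VB_zero m 0)
          (by have : E.length * 2 ^ 39 ≤ 15 * 2 ^ 39 := Nat.mul_le_mul_right _ hl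
              omega) rfl hb'
        have hK' := Nat.eq_of_beq_eq_true hK
        set d := l % 2 ^ q with hd
        obtain ⟨ht1, ht2⟩ := (bnd_iff m t').1 (hT t' List.mem_cons_self)
        obtain ⟨p1, p1'⟩ := hperm _ ht1
        obtain ⟨p2, p2'⟩ := hperm _ ht2
        have hdB : d * (2 ^ 20 - 1) ≤ 2 ^ 40 := by
          calc d * (2 ^ 20 - 1) ≤ 2 ^ 20 * 2 ^ 20 := Nat.mul_le_mul hd2.le (by norm_num)
            _ = 2 ^ 40 := by norm_num
        obtain ⟨q1, q1'⟩ := VB_mul (c := d) p1 (by omega)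
        obtain ⟨q2, q2'⟩ := VB_mul (c := d) p2 (by omega)
        obtain ⟨-, x1⟩ := VB_add hX (VB_mono q1 hdB) (by norm_num)
        obtain ⟨-, y1⟩ := VB_add hY (VB_mono q2 hdB) (by norm_num)
        have h1 := congrArg (FQ a) hK'
        rw [F_add a x1, F_add a y1, F_mul a q1', F_mul a q2', hF, p1', p2'] at h1
        rw [holds_F]
        have h2 : (d : ℝ) ≠ 0 := by
          have : d ≠ 0 := by omega
          exact_mod_cast this
        have h3 : (d : ℝ) * FQ (fun j => a (ρ j)) t'.1 = d * FQ (fun j => a (ρ j)) t'.2 := by linarith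
        exact mul_left_cancel₀ h2 h3
      · exact ih (fun t ht => hT t (List.mem_cons_of_mem _ ht)) h' t' ht'

end

end Pool.Agent.Lib_MP_fa6e45
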