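import Pool.Agent.Lib_MP_fa6e45.GQ0
import Pool.Agent.Lib_MP_fa6e45.CQ2

/-!
MP_fa6e45_co, stage 9: the check `gqD` of the directions.
-/

namespace Pool.Agent.Lib_MP_fa6e45

/-! ### numbers with small digits in base `2 ^ 48` -/

/-- the digits number `0`, ..., `m` are at most `B`, the others are `0` -/
private def VG (m B x : ℕ) : Prop := x < 2 ^ (48 * (m + 1)) ∧ ∀ i < m + 1, dg 48 x i ≤ B

private theorem VG_mono {m B C x : ℕ} (h : VG m B x) (hBC : B ≤ C) : VG m C x :=
  ⟨h.1, fun i hi => (h.2 i hi).trans hBC⟩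

private theorem VG_add {m B C x y : ℕ} (hx : VG m B x) (hy : VG m C y) (hBC : B + C < 2 ^ 48) :
    VG m (B + C) (x + y) ∧ ∀ i < m + 1, dg 48 (x + y) i = dg 48 x i + dg 48 y i := by
  have h := dg_add (u := 48) (n := m + 1) hx.1 hy.1 (fun i hi => by
    have := hx.2 i hi
    have := hy.2 i hi
    omega)
  refine ⟨⟨h.1, fun i hi => ?_⟩, h.2⟩
  rw [h.2 i hi]
  have := hx.2 i hi
  have := hy.2 i hi
  omega

private theorem VG_one {m c j : ℕ} (hj : j < m + 1) (hc : c < 2 ^ 48) :
    VG m c (c * 2 ^ (48 * j)) ∧ ∀ i < m + 1, dg 48 (c * 2 ^ (48 * j)) i = if i = j then c else 0 := by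
  have e : c * 2 ^ (48 * j) = ∑ i ∈ Finset.range (m + 1), (if i = j then c else 0) * 2 ^ (48 * i) := by
    rw [Finset.sum_eq_single j]
    · rw [if_pos rfl]
    · intro i _ hij
      rw [if_neg hij, Nat.zero_mul]
    · intro h
      exact absurd (Finset.mem_range.2 hj) h
  have hf : ∀ i < m + 1, (fun i => if i = j then c else 0) i < 2 ^ 48 := by
    intro i _
    show (if i = j then c else 0) < 2 ^ 48
    split_ifs
    · exact hc
    · exact Nat.two_pow_pos _
  have h2 : ∀ i < m + 1, dg 48 (c * 2 ^ (48 * j)) i = if i = j then c else 0 := by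
    intro i hi
    rw [e]
    exact dg_sum (f := fun i => if i = j then c else 0) hf hi
  refine ⟨⟨?_, fun i hi => ?_⟩, h2⟩
  · rw [e]
    exact sum_lt hf
  · rw [h2 i hi]
    split_ifs
    · exact le_rfl
    · exact Nat.zero_le _

private noncomputable def MG (m : ℕ) : ℕ := Nat.mul (Nat.sub (Nat.pow 2 20) 1) (onQ 48 (Nat.succ m))

private theorem MG_VG (m : ℕ) : MG m < 2 ^ (48 * (m + 1)) ∧ ∀ i < m + 1, dg 48 (MG m) i = 2 ^ 20 - 1 := by
  have e : MG m = ∑ i ∈ Finset.range (m + 1), (2 ^ 20 - 1) * 2 ^ (48 * i) := by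
    have h1 : MG m = (2 ^ 20 - 1) * onQ 48 (m + 1) := rfl
    rw [h1, onQ_eq (by norm_num), Finset.mul_sum]
  have hf : ∀ i < m + 1, (fun _ : ℕ => 2 ^ 20 - 1) i < 2 ^ 48 := fun i _ => by norm_num
  refine ⟨?_, fun i hi => ?_⟩
  · rw [e]
    exact sum_lt hf
  · rw [e]
    exact dg_sum hf hi

private theorem tg_dg (x i r : ℕ) : (dg 48 x i).testBit r = (decide (r < 48) && x.testBit (48 * i + r)) := by
  rw [dg_def, Nat.testBit_mod_two_pow, Nat.testBit_div_two_pow]
  congr 2
  omega

private theorem VG_land {m x : ℕ} (h : x &&& MG m = x) : VG m (2 ^ 20 - 1) x := by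
  obtain ⟨hM1, hM2⟩ := MG_VG m
  have h1 : x < 2 ^ (48 * (m + 1)) := by
    rw [← h]
    exact lt_of_le_of_lt Nat.and_le_right hM1
  refine ⟨h1, fun i hi => ?_⟩
  have h2 : dg 48 x i = dg 48 x i &&& dg 48 (MG m) i := by
    apply Nat.eq_of_testBit_eq
    intro r
    rw [Nat.testBit_and, tg_dg, tg_dg]
    conv_lhs => rw [← h, Nat.testBit_and]
    cases decide (r < 48) <;> simp
  rw [h2, hM2 i hi]
  exact Nat.and_le_right

private theorem VG_bnd {m : ℕ} {e : ℕ × ℕ} (he : bndQ m e = true) :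
    VG m (2 ^ 20 - 1) e.1 ∧ VG m (2 ^ 20 - 1) e.2 := by
  have h : bndQ m e = (Nat.beq (e.1 &&& MG m) e.1 && Nat.beq (e.2 &&& MG m) e.2) := rfl
  rw [h, Bool.and_eq_true, Nat.beq_eq, Nat.beq_eq] at he
  exact ⟨VG_land he.1, VG_land he.2⟩

variable {m : ℕ} [NeZero m]

/-! ### values -/

/-- value of a vector -/
private noncomputable def FG (a : ZMod m → ℝ) (x : ℕ) : ℝ :=
  ∑ i : ZMod m, (dg 48 x i.val : ℝ) * a i - (dg 48 x m : ℝ)

private theorem holds_FG (e : ℕ × ℕ) (a : ZMod m → ℝ) : Eqn.Holds (eqnQ m e) a ↔ FG a e.1 = FG a e.2 := by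
  rw [eqnQ_holds]
  unfold FG
  simp only [sub_mul]
  rw [Finset.sum_sub_distrib]
  constructor
  · intro h
    linarith
  · intro h
    linarith

private theorem FG_add (a : ZMod m → ℝ) {x y : ℕ} (h : ∀ i < m + 1, dg 48 (x + y) i = dg 48 x i + dg 48 y i) :
    FG a (x + y) = FG a x + FG a y := by
  have h1 : ∀ i : ZMod m, ((dg 48 (x + y) i.val : ℕ) : ℝ) * a i =
      (dg 48 x i.val : ℝ) * a i + (dg 48 y i.val : ℝ) * a i := by
    intro i
    have := ZMod.val_lt i
    rw [h i.val (by omega)]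
    push_cast
    ring
  unfold FG
  rw [h m (by omega), Finset.sum_congr rfl fun i _ => h1 i, Finset.sum_add_distrib]
  push_cast
  ring

private theorem FG_one (a : ZMod m → ℝ) {c j : ℕ} (hj : j < m) (hc : c < 2 ^ 48) :
    FG a (c * 2 ^ (48 * j)) = c * a (j : ZMod m) := by
  obtain ⟨_, h2⟩ := VG_one (m := m) (by omega : j < m + 1) hc
  unfold FG
  rw [h2 m (by omega), if_neg (by omega), Nat.cast_zero, sub_zero, Finset.sum_eq_single (j : ZMod m)]
  · rw [ZMod.val_natCast_of_lt hj, h2 j (by omega), if_pos rfl]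
  · intro i _ hij
    have hi := ZMod.val_lt i
    rw [h2 i.val (by omega), if_neg, Nat.cast_zero, zero_mul]
    intro h
    apply hij
    rw [← h, ZMod.natCast_zmod_val]
  · intro h
    exact absurd (Finset.mem_univ _) h

private theorem FG_top (a : ZMod m → ℝ) {c : ℕ} (hc : c < 2 ^ 48) :
    FG a (c * 2 ^ (48 * m)) = -c := by
  obtain ⟨_, h2⟩ := VG_one (m := m) (by omega : m < m + 1) hc
  unfold FG
  rw [h2 m (by omega), if_pos rfl, Finset.sum_eq_zero, zero_sub]
  intro i _
  have hi := ZMod.val_lt i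
  rw [h2 i.val (by omega), if_neg (by omega), Nat.cast_zero, zero_mul]

/-! ### the check of one equation -/

/-- HINT: evaluation of numbers as linear forms as in CQ2 (`F_add`, `F_mul`, `holds_F` there, private: copy), or
`derQ_sound` with one equation. All digits are less than `2 ^ 20` (`e` by `bndQ`, `D`, `a'`, `b'`, `a`, `b` less than
`524288`), so there are no carries. -/
theorem gqQ_sound (hm : m ≤ 8) {D f j a' b' a b : ℕ} (hf : f < m) (hj : j < m) (hD : D < 524288) (ha' : a' < 524288)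
    (hb' : b' < 524288) (ha : a < 524288) (hb : b < 524288) {e : ℕ × ℕ} (he : bndQ m e = true)
    {x : ZMod m → ℝ} (hx : Eqn.Holds (eqnQ m e) x)
    (h : gqQ D (Nat.pow 2 (Nat.mul 48 f)) (Nat.pow 2 (Nat.mul 48 m)) j a' b' a b e = true) :
    (D : ℝ) * x (j : ZMod m) + b * x (f : ZMod m) + a = D + a' + b' * x (f : ZMod m) := by
  have h0 : gqQ D (Nat.pow 2 (Nat.mul 48 f)) (Nat.pow 2 (Nat.mul 48 m)) j a' b' a b e =
      Nat.beq (e.1 + (b' * 2 ^ (48 * f) + a * 2 ^ (48 * m)))
        (e.2 + ((D * 2 ^ (48 * j) + b * 2 ^ (48 * f)) + (D + a') * 2 ^ (48 * m))) := rfl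
  rw [h0, Nat.beq_eq] at h
  obtain ⟨v1, v2⟩ := VG_bnd he
  have c1 : b' < 2 ^ 48 := by omega
  have c2 : a < 2 ^ 48 := by omega
  have c3 : D < 2 ^ 48 := by omega
  have c4 : b < 2 ^ 48 := by omega
  have c5 : D + a' < 2 ^ 48 := by omega
  have w1 := (VG_one (m := m) (by omega : f < m + 1) c1).1
  have w2 := (VG_one (m := m) (by omega : m < m + 1) c2).1
  have w3 := (VG_one (m := m) (by omega : j < m + 1) c3).1
  have w4 := (VG_one (m := m) (by omega : f < m + 1) c4).1
  have w5 := (VG_one (m := m) (by omega : m < m + 1) c5).1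
  have u1 := VG_add w1 w2 (by omega)
  have u2 := VG_add v1 u1.1 (by omega)
  have u3 := VG_add w3 w4 (by omega)
  have u4 := VG_add u3.1 w5 (by omega)
  have u5 := VG_add v2 u4.1 (by omega)
  have k1 := congrArg (FG x) h
  rw [FG_add x u2.2, FG_add x u1.2, FG_add x u5.2, FG_add x u4.2, FG_add x u3.2, FG_one x hf c1, FG_top x c2,
    FG_one x hj c3, FG_one x hf c4, FG_top x c5, (holds_FG e x).1 hx] at k1
  push_cast at k1
  linarith

/-- induction for `gqD_sound` -/
private theorem gqD_aux (hm : m ≤ 8) {D f : ℕ} (hf : f < m) (hD : D < 524288) {x : ZMod m → ℝ} (ln : ℕ → ℕ × ℕ × ℕ)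
    (hln : ∀ j < m, (ln j).1 < 524288 ∧ (ln j).2.1 < 524288) : ∀ {k : ℕ}, k < m → ∀ {es : List (ℕ × ℕ)},
    (∀ e ∈ es, bndQ m e = true) → (∀ e ∈ es, Eqn.Holds (eqnQ m e) x) →
    gqD f D (Nat.pow 2 (Nat.mul 48 f)) (Nat.pow 2 (Nat.mul 48 m)) (((List.range k).map ln).reverse)
      (ln k) k es = true → ∀ j : ℕ, 1 ≤ j → j ≤ k →
    (D : ℝ) * x (j : ZMod m) + (ln j).2.1 * x (f : ZMod m) + (ln j).1 =
      D + (ln (j - 1)).1 + (ln (j - 1)).2.1 * x (f : ZMod m) := by
  intro k
  induction k with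
  | zero =>
    intro _ es _ _ _ j h1 h2
    omega
  | succ k ih =>
    intro hk es hb hx h j h1 h2
    rw [List.range_succ, List.map_append, List.reverse_append, List.map_cons, List.map_nil,
      List.reverse_singleton, List.singleton_append] at h
    have e0 : gqD f D (Nat.pow 2 (Nat.mul 48 f)) (Nat.pow 2 (Nat.mul 48 m))
        (ln k :: ((List.range k).map ln).reverse) (ln (k + 1)) (k + 1) es =
        (bif Nat.beq (k + 1) f then
          (bif (bif Nat.beq (Nat.add D (ln (k + 1)).2.1) (ln k).2.1 then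
              Nat.beq (ln (k + 1)).1 (Nat.add D (ln k).1) else false) then
            gqD f D (Nat.pow 2 (Nat.mul 48 f)) (Nat.pow 2 (Nat.mul 48 m)) (((List.range k).map ln).reverse)
              (ln k) (Nat.sub (k + 1) 1) es else false)
        else List.rec (motive := fun _ => Bool) false (fun e es' _ =>
          bif gqQ D (Nat.pow 2 (Nat.mul 48 f)) (Nat.pow 2 (Nat.mul 48 m)) (k + 1) (ln k).1 (ln k).2.1
              (ln (k + 1)).1 (ln (k + 1)).2.1 e then
            gqD f D (Nat.pow 2 (Nat.mul 48 f)) (Nat.pow 2 (Nat.mul 48 m)) (((List.range k).map ln).reverse)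
              (ln k) (Nat.sub (k + 1) 1) es' else false) es) := rfl
    rw [e0] at h
    have e1 : Nat.sub (k + 1) 1 = k := rfl
    rw [e1] at h
    cases hc : Nat.beq (k + 1) f with
    | true =>
      rw [hc, cond_true] at h
      rw [Nat.beq_eq] at hc
      cases hd : (bif Nat.beq (Nat.add D (ln (k + 1)).2.1) (ln k).2.1 then
              Nat.beq (ln (k + 1)).1 (Nat.add D (ln k).1) else false) with
      | false =>
        rw [hd, cond_false] at h
        exact absurd h (by simp)
      | true =>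
        rw [hd, cond_true] at h
        rcases Nat.lt_or_ge j (k + 1) with hj | hj
        · exact ih (by omega) hb hx h j h1 (by omega)
        · have hj' : j = k + 1 := by omega
          subst hj'
          cases hg : Nat.beq (Nat.add D (ln (k + 1)).2.1) (ln k).2.1 with
          | false =>
            rw [hg, cond_false] at hd
            exact absurd hd (by simp)
          | true =>
            rw [hg, cond_true, Nat.beq_eq] at hd
            rw [Nat.beq_eq] at hg
            have q1 : D + (ln (k + 1)).2.1 = (ln k).2.1 := hg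
            have q2 : (ln (k + 1)).1 = D + (ln k).1 := hd
            have hxx : x ((k + 1 : ℕ) : ZMod m) = x (f : ZMod m) := by rw [hc]
            rw [Nat.add_sub_cancel, hxx, q2, ← q1]
            push_cast
            ring
    | false =>
      rw [hc, cond_false] at h
      cases es with
      | nil => exact absurd h (by simp)
      | cons e es' =>
        change (bif gqQ D (Nat.pow 2 (Nat.mul 48 f)) (Nat.pow 2 (Nat.mul 48 m)) (k + 1) (ln k).1 (ln k).2.1
              (ln (k + 1)).1 (ln (k + 1)).2.1 e then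
            gqD f D (Nat.pow 2 (Nat.mul 48 f)) (Nat.pow 2 (Nat.mul 48 m)) (((List.range k).map ln).reverse)
              (ln k) k es' else false) = true at h
        cases hg : gqQ D (Nat.pow 2 (Nat.mul 48 f)) (Nat.pow 2 (Nat.mul 48 m)) (k + 1) (ln k).1 (ln k).2.1
              (ln (k + 1)).1 (ln (k + 1)).2.1 e with
        | false =>
          rw [hg, cond_false] at h
          exact absurd h (by simp)
        | true =>
          rw [hg, cond_true] at h
          rcases Nat.lt_or_ge j (k + 1) with hj | hj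
          · exact ih (by omega) (fun e' he' => hb e' (List.mem_cons_of_mem _ he'))
              (fun e' he' => hx e' (List.mem_cons_of_mem _ he')) h j h1 (by omega)
          · have hj' : j = k + 1 := by omega
            subst hj'
            rw [Nat.add_sub_cancel]
            exact gqQ_sound hm hf hk hD (hln k (by omega)).1 (hln k (by omega)).2 (hln (k + 1) hk).1
              (hln (k + 1) hk).2 (hb e List.mem_cons_self) (hx e List.mem_cons_self) hg

/-- `l = [lane k, lane (k - 1), .., lane 0]`, `a` is the lane number `k + 1` -/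
theorem gqD_sound (hm : m ≤ 8) {D f : ℕ} (hf : f < m) (hD : D < 524288) {x : ZMod m → ℝ} (ln : ℕ → ℕ × ℕ × ℕ)
    (hln : ∀ j < m, (ln j).1 < 524288 ∧ (ln j).2.1 < 524288) {k : ℕ} (hk : k + 1 < m) {es : List (ℕ × ℕ)}
    (hb : ∀ e ∈ es, bndQ m e = true) (hx : ∀ e ∈ es, Eqn.Holds (eqnQ m e) x)
    (h : gqD f D (Nat.pow 2 (Nat.mul 48 f)) (Nat.pow 2 (Nat.mul 48 m)) (((List.range (k + 1)).map ln).reverse)
      (ln (k + 1)) (k + 1) es = true) (j : ℕ) (hj : 1 ≤ j) (hj' : j ≤ k + 1) :
    (D : ℝ) * x (j : ZMod m) + (ln j).2.1 * x (f : ZMod m) + (ln j).1 =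
      D + (ln (j - 1)).1 + (ln (j - 1)).2.1 * x (f : ZMod m) :=
  gqD_aux hm hf hD ln hln hk hb hx h j hj hj'

end Pool.Agent.Lib_MP_fa6e45
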