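import Pool.Agent.Lib_MP_fa6e45.GQ2
import Pool.Agent.Lib_MP_fa6e45.GQ3
import Pool.Agent.Lib_MP_fa6e45.GQ5
import Pool.Agent.Lib_MP_fa6e45.CQ4
import Pool.Agent.Lib_MP_fa6e45.CV0

/-!
MP_fa6e45_co, stage 9: soundness of the fast numerical check `geoQ` (see GQ0).
-/

open Set MeasureTheory Complex
open scoped Topology

namespace Pool.Agent.Lib_MP_fa6e45

open Pool.Agent.Lib_PL (cr InSector Poly)

variable {n : ℕ} {m : ℕ} [NeZero m]

/-- lane number `j` -/
noncomputable def lnG (w : List ℕ) (al be j : ℕ) : ℕ × ℕ × ℕ := (dg 32 al j, dg 32 be j, w.getD j 0 / 16)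

omit [NeZero m] in
private theorem GQ6_U (al be : ℕ) (K : List (ℕ × ℕ × ℕ) → Bool) (w : List ℕ) (i : ℕ)
    (acc : List (ℕ × ℕ × ℕ)) : gqU al be K w i acc =
      K (((List.range w.length).map fun j => (dg 32 al (i + j), dg 32 be (i + j), w.getD j 0 / 16)).reverse ++ acc) := by
  induction w generalizing i acc with
  | nil => rfl
  | cons x w ih =>
    have h1 : gqU al be K (x :: w) i acc = gqU al be K w (Nat.succ i) ((dg 32 al i, dg 32 be i, x / 16) :: acc) := by
      show (fQ (dg 32 al i) fun a => fQ (dg 32 be i) fun b => fQ (Nat.div x 16) fun c =>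
        fQ (Nat.succ i) fun j => gqU al be K w j ((a, b, c) :: acc)) = _
      rw [fQ_eq, fQ_eq, fQ_eq, fQ_eq]
      rfl
    have h2 : ((List.range (x :: w).length).map fun j => (dg 32 al (i + j), dg 32 be (i + j),
        (x :: w).getD j 0 / 16)) = (dg 32 al i, dg 32 be i, x / 16) ::
        ((List.range w.length).map fun j => (dg 32 al (i.succ + j), dg 32 be (i.succ + j), w.getD j 0 / 16)) := by
      rw [List.length_cons, List.range_succ_eq_map, List.map_cons, List.map_map, Nat.add_zero, List.getD_cons_zero]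
      refine congrArg _ (List.map_congr_left fun j _ => ?_)
      rw [Function.comp_apply, show i + Nat.succ j = i.succ + j by omega]
      rfl
    rw [h1, ih, h2, List.reverse_cons, List.append_assoc]
    rfl

omit [NeZero m] in
theorem gqU_eq (al be : ℕ) (K : List (ℕ × ℕ × ℕ) → Bool) (w : List ℕ) :
    gqU al be K w 0 [] = K (((List.range w.length).map (lnG w al be)).reverse) := by
  rw [GQ6_U, List.append_nil]
  congr 3
  funext j
  unfold lnG
  rw [Nat.zero_add]

private theorem GQ6_sum (ln : ℕ → ℕ × ℕ × ℕ) (g : ℕ × ℕ × ℕ → ℝ) (c k : ℕ) :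
    (((((List.range k).map ln).reverse).filter fun e => e.2.2 == c).map g).sum =
      ∑ j ∈ Finset.range k, if (ln j).2.2 = c then g (ln j) else 0 := by
  induction k with
  | zero => rfl
  | succ k ih =>
    rw [List.range_succ, List.map_append, List.reverse_append, Finset.sum_range_succ, ← ih]
    simp only [List.map_cons, List.map_nil, List.reverse_cons, List.reverse_nil, List.nil_append,
      List.singleton_append, List.filter_cons]
    by_cases h : (ln k).2.2 = c
    · rw [if_pos (by rw [beq_iff_eq]; exact h), if_pos h, List.map_cons, List.sum_cons]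
      ring
    · rw [if_neg (by rw [beq_iff_eq]; exact h), if_neg h, add_zero]

/-- directions of the sides -/
private theorem GQ6_ph {b : ZMod m → ℝ} {D : ℕ} (hD : 0 < D) {ln : ℕ → ℕ × ℕ × ℕ} {t : ℝ}
    (hd : ∀ j, 1 ≤ j → j < m → (D : ℝ) * b (j : ZMod m) + (ln j).2.1 * t + (ln j).1 =
      D + (ln (j - 1)).1 + (ln (j - 1)).2.1 * t) (j : ℕ) (hj : j < m) :
    phQ b j = Real.pi * (((ln j).1 : ℝ) + (ln j).2.1 * t) / D -
      Real.pi * (((ln 0).1 : ℝ) + (ln 0).2.1 * t) / D := by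
  have hD' : (D : ℝ) ≠ 0 := by exact_mod_cast hD.ne'
  induction j with
  | zero =>
    unfold phQ
    rw [Finset.range_zero, Finset.sum_empty, sub_self]
  | succ j ih =>
    have h1 : phQ b (j + 1) = phQ b j + Real.pi * (1 - b ((j + 1 : ℕ) : ZMod m)) := by
      unfold phQ
      rw [Finset.sum_range_succ]
    have h2 := hd (j + 1) (by omega) hj
    rw [Nat.add_sub_cancel] at h2
    rw [h1, ih (by omega)]
    field_simp
    linear_combination (-1 : ℝ) * h2

/-- the angle at corner `0` -/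
private theorem GQ6_zero {b : ZMod m → ℝ} (hm : 3 ≤ m) (hs : ∑ j, b j = (m : ℝ) - 2) {D : ℕ} (hD : 0 < D)
    {ln : ℕ → ℕ × ℕ × ℕ} {t : ℝ}
    (hd : ∀ j, 1 ≤ j → j < m → (D : ℝ) * b (j : ZMod m) + (ln j).2.1 * t + (ln j).1 =
      D + (ln (j - 1)).1 + (ln (j - 1)).2.1 * t) :
    (D : ℝ) * b ((0 : ℕ) : ZMod m) + (ln 0).2.1 * t + ((ln 0).1 + 2 * D) =
      D + (ln (m - 1)).1 + (ln (m - 1)).2.1 * t := by
  have hD' : (D : ℝ) ≠ 0 := by exact_mod_cast hD.ne'
  have hpi := Real.pi_ne_zero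
  have h1 := GQ6_ph hD hd (m - 1) (by omega)
  have h2 : phQ b (m - 1) = Real.pi * (2 - (1 - b ((0 : ℕ) : ZMod m))) := by
    unfold phQ
    have h3 : ∑ j : ZMod m, (1 - b j) = ∑ j ∈ Finset.range m, (1 - b (j : ZMod m)) := by
      refine Finset.sum_bij (fun j _ => j.val) ?_ ?_ ?_ ?_
      · intro j _
        exact Finset.mem_range.2 (ZMod.val_lt j)
      · intro j _ k _ h
        exact ZMod.val_injective m h
      · intro q hq
        refine ⟨(q : ZMod m), Finset.mem_univ _, ?_⟩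
        exact ZMod.val_natCast_of_lt (Finset.mem_range.1 hq)
      · intro j _
        rw [ZMod.natCast_zmod_val]
    have h4 : ∑ j : ZMod m, (1 - b j) = 2 := by
      rw [Finset.sum_sub_distrib, hs, Finset.sum_const, Finset.card_univ, ZMod.card, nsmul_eq_mul]
      ring
    have h5 : ∑ j ∈ Finset.range m, (1 - b (j : ZMod m)) =
        ∑ s ∈ Finset.range (m - 1), (1 - b ((s + 1 : ℕ) : ZMod m)) + (1 - b ((0 : ℕ) : ZMod m)) := by
      obtain ⟨k, hk⟩ : ∃ k, m = k + 1 := ⟨m - 1, by omega⟩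
      rw [show Finset.range m = Finset.range (k + 1) by rw [hk], Finset.sum_range_succ',
        show m - 1 = k by omega]
    rw [← Finset.mul_sum]
    congr 1
    linarith
  rw [h2] at h1
  field_simp at h1
  linear_combination h1

/-- a corner whose angle is not between `0` and `2` -/
private theorem GQ6_X {D s1 s2 a' b' a b : ℕ} (hD : 0 < D) {x t : ℝ} (hx : 0 < x) (hx2 : x < 2)
    (h : (D : ℝ) * x + b * t + a = D + a' + b' * t) (h1 : (s1 : ℝ) ≤ 2048 * t) (h2 : 2048 * t ≤ s2)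
    (hX : gqX D s1 s2 a' b' a b = true) : False := by
  have hD' : (0 : ℝ) < D := by exact_mod_cast hD
  have p1 : 0 < (D : ℝ) * x := mul_pos hD' hx
  have p2 : (D : ℝ) * x < D * 2 := mul_lt_mul_of_pos_left hx2 hD'
  unfold gqX at hX
  rw [Bool.or_eq_true, Bool.and_eq_true, Bool.and_eq_true] at hX
  have key : ∀ {u v : ℝ}, u + v * s1 ≤ 0 → u + v * s2 ≤ 0 → u + v * (2048 * t) ≤ 0 := by
    intro u v k1 k2
    rcases le_total 0 v with hv | hv
    · nlinarith
    · nlinarith
  rcases hX with ⟨k1, k2⟩ | ⟨k1, k2⟩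
  · have k1' := Nat.le_of_ble_eq_true k1
    have k2' := Nat.le_of_ble_eq_true k2
    have k1r : (2048 * ((D : ℝ) + a') + b' * s1) ≤ 2048 * a + b * s1 := by exact_mod_cast k1'
    have k2r : (2048 * ((D : ℝ) + a') + b' * s2) ≤ 2048 * a + b * s2 := by exact_mod_cast k2'
    have := key (u := 2048 * ((D : ℝ) + a') - 2048 * a) (v := b' - b) (by linarith) (by linarith)
    nlinarith
  · have k1' := Nat.le_of_ble_eq_true k1
    have k2' := Nat.le_of_ble_eq_true k2
    have k1r : (4096 * (D : ℝ) + (2048 * a + b * s1)) ≤ 2048 * ((D : ℝ) + a') + b' * s1 := by exact_mod_cast k1'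
    have k2r : (4096 * (D : ℝ) + (2048 * a + b * s2)) ≤ 2048 * ((D : ℝ) + a') + b' * s2 := by exact_mod_cast k2'
    have := key (u := 4096 * (D : ℝ) + 2048 * a - 2048 * ((D : ℝ) + a')) (v := b - b') (by linarith) (by linarith)
    nlinarith

omit [NeZero m] in
private theorem GQ6_nth (ln : ℕ → ℕ × ℕ × ℕ) {i k : ℕ} (hi : i < k) :
    nthF (0, 0, 0) (((List.range k).map ln).reverse) i = ln (k - 1 - i) := by
  rw [nthF_eq, List.getD_eq_getElem _ _ (by simpa using hi), List.getElem_reverse]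
  simp

private theorem GQ6_C (hm : 3 ≤ m) {b : ZMod m → ℝ} (h0 : ∀ j, 0 < b j) (h2 : ∀ j, b j < 2)
    (hs : ∑ j, b j = (m : ℝ) - 2) {D : ℕ} (hD : 0 < D) {ln : ℕ → ℕ × ℕ × ℕ} {t : ℝ}
    (hd : ∀ j, 1 ≤ j → j < m → (D : ℝ) * b (j : ZMod m) + (ln j).2.1 * t + (ln j).1 =
      D + (ln (j - 1)).1 + (ln (j - 1)).2.1 * t) {s1 s2 j : ℕ} (k1 : (s1 : ℝ) ≤ 2048 * t)
    (k2 : 2048 * t ≤ s2) (h : gqC m D s1 s2 j (((List.range m).map ln).reverse) = true) : False := by
  unfold gqC at h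
  cases hj : Nat.beq j 0 with
  | true =>
    rw [hj, cond_true, GQ6_nth ln (by omega), show Nat.sub m 1 = m - 1 from rfl, GQ6_nth ln (by omega)] at h
    rw [show m - 1 - 0 = m - 1 by omega, show m - 1 - (m - 1) = 0 by omega] at h
    refine GQ6_X hD (h0 ((0 : ℕ) : ZMod m)) (h2 _) (t := t) ?_ k1 k2 h
    have h3 := GQ6_zero hm hs hD hd
    have h4 : ((Nat.add (Nat.mul 2 D) (ln 0).1 : ℕ) : ℝ) = 2 * D + (ln 0).1 := by
      show ((2 * D + (ln 0).1 : ℕ) : ℝ) = _
      push_cast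
      ring
    rw [h4]
    linarith
  | false =>
    rw [hj, cond_false] at h
    cases hj2 : Nat.blt j m with
    | false =>
      rw [hj2, cond_false] at h
      exact absurd h (by simp)
    | true =>
      have hjm : j < m := Nat.le_of_ble_eq_true hj2
      have hj0 : j ≠ 0 := by
        rintro rfl
        exact absurd hj (by decide)
      rw [hj2, cond_true, show Nat.sub (Nat.sub m j) 1 = m - j - 1 from rfl, show Nat.sub m j = m - j from rfl,
        GQ6_nth ln (by omega), GQ6_nth ln (by omega)] at h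
      rw [show m - 1 - (m - j) = j - 1 by omega, show m - 1 - (m - j - 1) = j by omega] at h
      exact GQ6_X hD (h0 (j : ZMod m)) (h2 _) (t := t) (hd j (by omega) hjm) k1 k2 h

private theorem GQ6_allN (f : ℕ → Bool) (n : ℕ) (h : allN f n = true) : ∀ i < n, f i = true :=
  (allN_iff f n).1 h

/-- the sum of the components of the sides is positive -/
private theorem GQ6_pos {P : Polygon n} (S : Arcs P m) (hm : 3 ≤ m) {b : ZMod m → ℝ} (hch : S.ChordAng b)
    {D : ℕ} (hD : 0 < D) {ln : ℕ → ℕ × ℕ × ℕ} {t : ℝ}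
    (hlen : ∀ j < m, ∀ k < m, (ln j).2.2 = (ln k).2.2 → ‖S.ch (j : ZMod m)‖ = ‖S.ch (k : ZMod m)‖)
    {C : ℕ} (hC : ∀ j < m, (ln j).2.2 < C)
    (hd : ∀ j, 1 ≤ j → j < m → (D : ℝ) * b (j : ZMod m) + (ln j).2.1 * t + (ln j).1 =
      D + (ln (j - 1)).1 + (ln (j - 1)).2.1 * t) {s p ρ : ℕ}
    (hp : ∀ c < C, 0 < (((((List.range m).map ln).reverse).filter fun e => e.2.2 == c).map fun e =>
      Real.cos (psQ D s p ρ t e)).sum) : False := by
  classical
  have hL : ∀ c : ℕ, ∃ x : ℝ, 0 < x ∧ ∀ j < m, (ln j).2.2 = c → ‖S.ch (j : ZMod m)‖ = x := by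
    intro c
    by_cases h : ∃ j < m, (ln j).2.2 = c
    · obtain ⟨j, hj, hjc⟩ := h
      exact ⟨‖S.ch (j : ZMod m)‖, norm_pos_iff.2 (S.ch_ne (by omega) _), fun k hk hkc => hlen k hk j hj (hkc.trans hjc.symm)⟩
    · exact ⟨1, one_pos, fun k hk hkc => absurd ⟨k, hk, hkc⟩ h⟩
  choose L hL0 hL1 using hL
  have h1 := closeQ S (by omega) hch (Real.pi * (((ln 0).1 : ℝ) + (ln 0).2.1 * t) / D +
    (Real.pi * ((p : ℝ) - 1 / 2) / 2048 - Real.pi * ρ * (t - s / 2048) / D))
  have h2 : ∀ j ∈ Finset.range m, ‖S.ch (j : ZMod m)‖ * Real.cos (phQ b j +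
      (Real.pi * (((ln 0).1 : ℝ) + (ln 0).2.1 * t) / D +
        (Real.pi * ((p : ℝ) - 1 / 2) / 2048 - Real.pi * ρ * (t - s / 2048) / D))) =
      ∑ c ∈ Finset.range C, L c * (if (ln j).2.2 = c then Real.cos (psQ D s p ρ t (ln j)) else 0) := by
    intro j hj
    have hj' := Finset.mem_range.1 hj
    rw [Finset.sum_eq_single_of_mem (ln j).2.2 (Finset.mem_range.2 (hC j hj')), if_pos rfl, hL1 _ j hj' rfl,
      GQ6_ph hD hd j hj']
    · congr 2
      unfold psQ
      ring
    · intro c _ hc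
      rw [if_neg (Ne.symm hc), mul_zero]
  rw [Finset.sum_congr rfl h2, Finset.sum_comm] at h1
  have h3 : ∀ c ∈ Finset.range C, 0 < ∑ j ∈ Finset.range m,
      L c * (if (ln j).2.2 = c then Real.cos (psQ D s p ρ t (ln j)) else 0) := by
    intro c hc
    rw [← Finset.mul_sum]
    refine mul_pos (hL0 c) ?_
    have h4 := hp c (Finset.mem_range.1 hc)
    rw [GQ6_sum ln (fun e => Real.cos (psQ D s p ρ t e)) c m] at h4
    exact h4
  have h5 : (Finset.range C).Nonempty := ⟨(ln 0).2.2, Finset.mem_range.2 (hC 0 (by omega))⟩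
  have h6 := Finset.sum_pos h3 h5
  linarith

/-- soundness of the cells -/
private theorem GQ6_L {P : Polygon n} (S : Arcs P m) (hm : 3 ≤ m) {b : ZMod m → ℝ} (hch : S.ChordAng b)
    (h0 : ∀ j, 0 < b j) (hb2 : ∀ j, b j < 2) (hs : ∑ j, b j = (m : ℝ) - 2) {D : ℕ} (hD : 0 < D)
    {ln : ℕ → ℕ × ℕ × ℕ} {t : ℝ} (ht2 : t < 2)
    (hlen : ∀ j < m, ∀ k < m, (ln j).2.2 = (ln k).2.2 → ‖S.ch (j : ZMod m)‖ = ‖S.ch (k : ZMod m)‖)
    {C : ℕ} (hC : ∀ j < m, (ln j).2.2 < C)
    (hd : ∀ j, 1 ≤ j → j < m → (D : ℝ) * b (j : ZMod m) + (ln j).2.1 * t + (ln j).1 =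
      D + (ln (j - 1)).1 + (ln (j - 1)).2.1 * t) {ρ bb : ℕ}
    (hB : ∀ c < C, gqB ρ c (((List.range m).map ln).reverse) ≤ dg 32 bb (Nat.mul 2 c) ∧
      gqN c (((List.range m).map ln).reverse) ≤ dg 32 bb (Nat.succ (Nat.mul 2 c))) (cs : List ℕ) :
    ∀ cur : ℕ, (cur : ℝ) ≤ 2048 * t → gqL m gqT D C bb (((List.range m).map ln).reverse) cs cur = true → False := by
  induction cs with
  | nil =>
    intro cur h1 h
    have h2 : Nat.ble 4096 cur = true := h
    have h3 : 4096 ≤ cur := Nat.le_of_ble_eq_true h2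
    have h4 : (4096 : ℝ) ≤ cur := by exact_mod_cast h3
    linarith
  | cons x cs ih =>
    intro cur h1 h
    have h2 : (fQ (Nat.div x 8192) fun h => bif gqK m gqT D C bb (((List.range m).map ln).reverse) cur h
        (Nat.mod x 8192) then fQ (Nat.add cur (Nat.mul 2 h))
          (gqL m gqT D C bb (((List.range m).map ln).reverse) cs) else false) = true := h
    rw [fQ_eq, fQ_eq] at h2
    cases h3 : gqK m gqT D C bb (((List.range m).map ln).reverse) cur (Nat.div x 8192) (Nat.mod x 8192) with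
    | false =>
      rw [h3, cond_false] at h2
      exact absurd h2 (by simp)
    | true =>
      rw [h3, cond_true] at h2
      generalize Nat.div x 8192 = hh at h2 h3
      generalize Nat.mod x 8192 = p at h3
      rcases le_total (2048 * t) ((cur + 2 * hh : ℕ) : ℝ) with h4 | h4
      · unfold gqK at h3
        cases hp : Nat.blt p 4096 with
        | false =>
          rw [hp, cond_false] at h3
          exact GQ6_C hm h0 hb2 hs hD hd h1 h4 h3
        | true =>
          rw [hp, cond_true, fQ_eq] at h3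
          refine GQ6_pos S hm hch hD hlen hC hd (s := Nat.add cur hh) (p := p) (ρ := ρ) fun c hc => ?_
          have h5 := GQ6_allN _ _ h3 c hc
          have h6 : dg 32 bb (Nat.mul 2 c) * hh / (7 * D) + dg 32 bb (Nat.succ (Nat.mul 2 c)) <
              gqS gqT D (Nat.add cur hh) p c (((List.range m).map ln).reverse) := Nat.le_of_ble_eq_true h5
          refine gqS_pos hD h6 (hB c hc).1 (hB c hc).2 ?_
          have h7 : ((Nat.add cur hh : ℕ) : ℝ) = cur + hh := by
            show ((cur + hh : ℕ) : ℝ) = _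
            push_cast
            ring
          push_cast at h4
          rw [h7, abs_le]
          constructor <;> linarith
      · exact ih _ h4 h2

omit [NeZero m] in
private theorem CV0_okG {x y : ℕ} (h : okL x x false = true) (h2 : x / 16 = y / 16) :
    okL x y false = true := by
  unfold okL at h ⊢
  have e1 : Nat.beq (Nat.div x 16) (Nat.div x 16) = true := Nat.beq_refl _
  have e2 : Nat.beq (Nat.div x 16) (Nat.div y 16) = true := by
    have h3 : Nat.div x 16 = Nat.div y 16 := h2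
    rw [h3]
    exact Nat.beq_refl _
  rw [e1, cond_true] at h
  rw [e2, cond_true]
  have e3 : Nat.xor (Nat.xor (Nat.mod x 4) (Nat.mod x 4)) (bif false then 1 else 2) = 2 := by
    have : Nat.xor (Nat.mod x 4) (Nat.mod x 4) = 0 := Nat.xor_self _
    rw [this]
    rfl
  rw [e3] at h
  have e4 : Nat.mod (Nat.div x 4) 4 = 0 := by
    by_contra hne
    have hlt : Nat.mod (Nat.div x 4) 4 < 4 := Nat.mod_lt _ (by norm_num)
    revert h hne hlt
    generalize Nat.mod (Nat.div x 4) 4 = k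
    intro h hne hlt
    interval_cases k
    · exact hne rfl
    · exact absurd h (by decide)
    · exact absurd h (by decide)
    · exact absurd h (by decide)
  rw [e4]
  rfl

/-- the angles `b` (of the chords) are between `0` and `2`, chords of the same class have equal length -/
def OkW (m : ℕ) [NeZero m] (w : List ℕ) (C : ℕ) : Prop :=
  w.length = m ∧ (∀ x ∈ w, x / 16 < C) ∧
    ∀ {n : ℕ} {P : Polygon n} {S : Arcs P m} {b : ZMod m → ℝ}, SitU w P S b →
      (∀ j, 0 < b j) ∧ (∀ j, b j < 2) ∧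
        ∀ j < m, ∀ k < m, w.getD j 0 / 16 = w.getD k 0 / 16 → ‖S.ch (j : ZMod m)‖ = ‖S.ch (k : ZMod m)‖

theorem gqW_sound {w : List ℕ} {C : ℕ} (hW : gqW m w C = true) : OkW m w C := by
  unfold gqW at hW
  simp only [Bool.and_eq_true, beq_iff_eq, List.all_eq_true] at hW
  obtain ⟨⟨w1, w2⟩, w3⟩ := hW
  refine ⟨w1, fun x hx => Nat.le_of_ble_eq_true (w3 x hx), fun {n P S b} M => ?_⟩
  have hw : ∀ j < m, w.getD j 0 ∈ w := by
    intro j hj
    rw [List.getD_eq_getElem _ _ (by omega)]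
    exact List.getElem_mem _
  have hrel : ∀ j k c, relT w j k c = true → S.Rel j k c := fun j k c => (M.rel j k c).2
  have hs : ∀ j, S.Minus j j := by
    intro j
    have h3 : S.Rel j j false := by
      apply hrel
      exact w2 _ (hw j.val (ZMod.val_lt j))
    simpa [Arcs.Rel] using h3
  obtain ⟨σ, ε, hp, hmi, hb⟩ := M.off
  have hb2 : ∀ j, b j = P.ang (S.κ j) / Real.pi := by
    intro j
    have e1 := (hmi (j - 1) (j - 1) (hs (j - 1))).2
    have e2 := (hmi j j (hs j)).1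
    rw [hb j]
    have e3 : ε (j - 1) = 0 := by linarith
    have e4 : σ j = 0 := by linarith
    rw [e3, e4]
    ring
  refine ⟨fun j => ?_, fun j => ?_, ?_⟩
  · rw [hb2]
    exact div_pos (P.ang_pos _) Real.pi_pos
  · rw [hb2, div_lt_iff₀ Real.pi_pos]
    exact P.ang_lt _
  · intro j hj k hk hjk
    have e1 : w.getD j 0 / 16 = w.getD k 0 / 16 := hjk
    have e3 : S.Rel (j : ZMod m) (k : ZMod m) false := by
      apply hrel
      unfold relT
      rw [ZMod.val_natCast_of_lt hj, ZMod.val_natCast_of_lt hk]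
      exact CV0_okG (w2 _ (hw j hj)) e1
    exact S.norm_minus (by simpa [Arcs.Rel] using e3)

theorem geoQ_core (hm : 3 ≤ m) (hm' : m ≤ 8) {w : List ℕ} {P : Polygon n} {S : Arcs P m} {b : ZMod m → ℝ}
    (hch : S.ChordAng b) (b0 : ∀ j, 0 < b j) (b2 : ∀ j, b j < 2) (hsum : ∑ j, b j = (m : ℝ) - 2)
    {C : ℕ} (w1 : w.length = m) (w3 : ∀ x ∈ w, x / 16 < C)
    (hl : ∀ j < m, ∀ k < m, w.getD j 0 / 16 = w.getD k 0 / 16 → ‖S.ch (j : ZMod m)‖ = ‖S.ch (k : ZMod m)‖)
    {es : List (ℕ × ℕ)} (hes : ∀ e ∈ es, bndQ m e = true)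
    (hx : ∀ e ∈ es, Eqn.Holds (eqnQ m e) b) {D f al be ρ bb : ℕ} {cs : List ℕ}
    (h : geoQ m w C D f al be ρ bb cs es = true) : False := by
  have hw : ∀ j < m, w.getD j 0 ∈ w := by
    intro j hj
    rw [List.getD_eq_getElem _ _ (by omega)]
    exact List.getElem_mem _
  unfold geoQ at h
  rw [gqU_eq, w1] at h
  simp only [Bool.and_eq_true] at h
  obtain ⟨⟨⟨⟨⟨⟨g1, g2⟩, g3⟩, g4⟩, g5⟩, g6⟩, g7⟩ := h
  have hD0 : 0 < D := Nat.le_of_ble_eq_true g1
  have hD1 : D < 524288 := Nat.le_of_ble_eq_true g2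
  have hf : f < m := Nat.le_of_ble_eq_true g3
  rw [fQ_eq] at g7
  set ln := lnG w al be with hln
  have hbd : ∀ j < m, (ln j).1 < 524288 ∧ (ln j).2.1 < 524288 := by
    intro j hj
    rw [List.all_eq_true] at g5
    have h1 := g5 (ln j) (by
      rw [List.mem_reverse, List.mem_map]
      exact ⟨j, List.mem_range.2 hj, rfl⟩)
    rw [Bool.and_eq_true] at h1
    exact ⟨Nat.le_of_ble_eq_true h1.1, Nat.le_of_ble_eq_true h1.2⟩
  obtain ⟨k, hk⟩ : ∃ k, m = k + 2 := ⟨m - 2, by omega⟩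
  have hrev : ((List.range m).map ln).reverse = ln (k + 1) :: ((List.range (k + 1)).map ln).reverse := by
    rw [hk, List.range_succ, List.map_append, List.reverse_append]
    rfl
  have hd : ∀ j, 1 ≤ j → j < m → (D : ℝ) * b (j : ZMod m) + (ln j).2.1 * b (f : ZMod m) + (ln j).1 =
      D + (ln (j - 1)).1 + (ln (j - 1)).2.1 * b (f : ZMod m) := by
    intro j hj hj'
    rw [hrev, List.tail_cons, List.headD_cons, show Nat.sub m 1 = k + 1 by
      show m - 1 = k + 1
      omega] at g6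
    exact gqD_sound hm' hf hD1 ln hbd (by omega) hes hx g6 j hj (by omega)
  have hC : ∀ j < m, (ln j).2.2 < C := by
    intro j hj
    exact w3 _ (hw j hj)
  refine GQ6_L S hm hch b0 b2 hsum hD0 (b2 (f : ZMod m)) hl hC hd (ρ := ρ) (bb := bb) (fun c hc => ?_) cs 0
    ?_ g7
  · have h1 := GQ6_allN _ _ g4 c hc
    rw [Bool.and_eq_true] at h1
    exact ⟨Nat.le_of_ble_eq_true h1.1, Nat.le_of_ble_eq_true h1.2⟩
  · have := b0 (f : ZMod m)
    push_cast
    linarith

theorem geoQ_sound (hm : 3 ≤ m) (hm' : m ≤ 8) {w : List ℕ} {P : Polygon n} {S : Arcs P m} {b : ZMod m → ℝ}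
    (M : SitU w P S b) {C : ℕ} (hW : OkW m w C) {es : List (ℕ × ℕ)} (hes : ∀ e ∈ es, bndQ m e = true)
    (hx : ∀ e ∈ es, Eqn.Holds (eqnQ m e) b) {D f al be ρ bb : ℕ} {cs : List ℕ}
    (h : geoQ m w C D f al be ρ bb cs es = true) : False := by
  obtain ⟨w1, w3, h1⟩ := hW
  obtain ⟨b0, b2, hl⟩ := h1 M
  exact geoQ_core hm hm' M.chord b0 b2 M.b_sum w1 w3 hl hes hx h

end Pool.Agent.Lib_MP_fa6e45
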