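import Pool.Agent.Lib_MP_fa6e45.G21
import Pool.Agent.Lib_MP_fa6e45.GQ2
import Pool.Agent.Lib_MP_fa6e45.GQ6

/-!
MP_fa6e45_co, stage 9: crossing sides.
-/

open Set MeasureTheory Complex
open scoped Topology

namespace Pool.Agent.Lib_MP_fa6e45

variable {n : ℕ} {m : ℕ} [NeZero m]

omit [NeZero m] in
private theorem G23_nth (ln : ℕ → ℕ × ℕ × ℕ × ℕ) {j : ℕ} (hj : j < m) :
    g2L m (((List.range m).map ln).reverse) j = ln j := by
  unfold g2L
  have h1 : Nat.sub (Nat.sub m 1) j = m - 1 - j := rfl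
  rw [h1, nthF_eq, List.getD_eq_getElem _ _ (by simp; omega), List.getElem_reverse]
  simp only [List.length_map, List.length_range, List.getElem_map, List.getElem_range]
  congr 1
  omega

/-- two segments which cross -/
private theorem G23_cross {A a B b : ℂ} {f1 f2 g1 g2 : ℝ} (h1 : ((starRingEnd ℂ) a * (B - A)).im = f1)
    (h2 : ((starRingEnd ℂ) a * (B + b - A)).im = f2) (h3 : ((starRingEnd ℂ) b * (A - B)).im = g1)
    (h4 : ((starRingEnd ℂ) b * (A + a - B)).im = g2) (hf : f1 * f2 < 0) (hg : g1 * g2 < 0) :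
    ∃ x y : ℝ, 0 < x ∧ x < 1 ∧ 0 < y ∧ y < 1 ∧ A + x * a = B + y * b := by
  have hf' : f1 - f2 ≠ 0 := by
    intro h
    have : f1 = f2 := by linarith
    rw [this] at hf
    nlinarith [mul_self_nonneg f2]
  have hg' : g1 - g2 ≠ 0 := by
    intro h
    have : g1 = g2 := by linarith
    rw [this] at hg
    nlinarith [mul_self_nonneg g2]
  have key : ∀ {u v : ℝ}, u * v < 0 → 0 < u / (u - v) ∧ u / (u - v) < 1 := by
    intro u v huv
    rcases lt_trichotomy u 0 with hu | hu | hu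
    · have hv : 0 < v := by
        by_contra hv
        push Not at hv
        have := mul_nonneg_of_nonpos_of_nonpos hu.le hv
        linarith
      constructor
      · exact div_pos_of_neg_of_neg hu (by linarith)
      · rw [div_lt_one_of_neg (by linarith)]
        linarith
    · rw [hu, zero_mul] at huv
      exact absurd huv (lt_irrefl _)
    · have hv : v < 0 := by
        by_contra hv
        push Not at hv
        have := mul_nonneg hu.le hv
        linarith
      constructor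
      · exact div_pos hu (by linarith)
      · rw [div_lt_one (by linarith)]
        linarith
  obtain ⟨y0, y1⟩ := key hf
  obtain ⟨x0, x1⟩ := key hg
  refine ⟨g1 / (g1 - g2), f1 / (f1 - f2), x0, x1, y0, y1, ?_⟩
  simp only [Complex.mul_im, Complex.conj_re, Complex.conj_im, Complex.sub_re, Complex.sub_im,
    Complex.add_re, Complex.add_im] at h1 h2 h3 h4
  have hdet : a.re * b.im - a.im * b.re ≠ 0 := by
    intro h
    apply hf'
    linarith
  have e1 : a.re * (A.im + g1 / (g1 - g2) * a.im - B.im - f1 / (f1 - f2) * b.im) -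
      a.im * (A.re + g1 / (g1 - g2) * a.re - B.re - f1 / (f1 - f2) * b.re) = 0 := by
    have h5 : f1 / (f1 - f2) * (f1 - f2) = f1 := div_mul_cancel₀ _ hf'
    have h6 : a.re * b.im - a.im * b.re = f2 - f1 := by linarith
    have h7 : f1 / (f1 - f2) * (a.re * b.im - a.im * b.re) = -f1 := by
      rw [h6]
      linarith
    linear_combination (-1 : ℝ) * h1 - h7
  have e2 : b.re * (A.im + g1 / (g1 - g2) * a.im - B.im - f1 / (f1 - f2) * b.im) -
      b.im * (A.re + g1 / (g1 - g2) * a.re - B.re - f1 / (f1 - f2) * b.re) = 0 := by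
    have h5 : g1 / (g1 - g2) * (g1 - g2) = g1 := div_mul_cancel₀ _ hg'
    have h6 : b.re * a.im - b.im * a.re = g2 - g1 := by linarith
    have h7 : g1 / (g1 - g2) * (b.re * a.im - b.im * a.re) = -g1 := by
      rw [h6]
      linarith
    linear_combination h3 + h7
  generalize g1 / (g1 - g2) = x at e1 e2 ⊢
  generalize f1 / (f1 - f2) = y at e1 e2 ⊢
  have hu : A.re + x * a.re - B.re - y * b.re = 0 := by
    have : (a.re * b.im - a.im * b.re) * (A.re + x * a.re - B.re - y * b.re) = 0 := by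
      linear_combination b.re * e1 - a.re * e2
    exact (mul_eq_zero.1 this).resolve_left hdet
  have hv : A.im + x * a.im - B.im - y * b.im = 0 := by
    have : (a.re * b.im - a.im * b.re) * (A.im + x * a.im - B.im - y * b.im) = 0 := by
      linear_combination b.im * e1 - a.im * e2
    exact (mul_eq_zero.1 this).resolve_left hdet
  apply Complex.ext
  · simp only [Complex.add_re, Complex.mul_re, Complex.ofReal_re, Complex.ofReal_im]
    linarith
  · simp only [Complex.add_im, Complex.mul_im, Complex.ofReal_re, Complex.ofReal_im]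
    linarith

private theorem G23_sum {P : Polygon n} (S : Arcs P m) (p k : ℕ) :
    S.V ((p + k : ℕ) : ZMod m) = S.V (p : ZMod m) + ∑ i ∈ Finset.range k, S.ch ((p + i : ℕ) : ZMod m) := by
  induction k with
  | zero => simp
  | succ k ih =>
    have h1 : S.V ((p + (k + 1) : ℕ) : ZMod m) = S.V ((p + k : ℕ) : ZMod m) + S.ch ((p + k : ℕ) : ZMod m) := by
      unfold Arcs.ch
      rw [show ((p + (k + 1) : ℕ) : ZMod m) = ((p + k : ℕ) : ZMod m) + 1 by push_cast; ring]
      ring
    rw [Finset.sum_range_succ, h1, ih, add_assoc]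

private theorem G23_im (R : ℂ) (x y : ℝ) :
    ((starRingEnd ℂ) (R * gz x) * (R * gz y)).im = Complex.normSq R * Real.sin (y - x) := by
  have h1 : (starRingEnd ℂ) (R * gz x) * (R * gz y) = (Complex.normSq R : ℂ) * gz (y - x) := by
    have h2 : (starRingEnd ℂ) (gz x) = gz (-x) := by
      unfold gz
      rw [← Complex.exp_conj, map_mul, Complex.conj_ofReal, Complex.conj_I]
      congr 1
      push_cast
      ring
    rw [map_mul, h2, sub_eq_add_neg, gz_add, Complex.normSq_eq_conj_mul_self]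
    ring
  rw [h1, Complex.im_ofReal_mul]
  unfold gz
  rw [Complex.exp_ofReal_mul_I_im]

private theorem G23_z {z z' : ℕ} (hz : (z = 3072 ∧ z' = 1024) ∨ (z = 1024 ∧ z' = 3072)) :
    ∃ ε : ℝ, (ε = 1 ∨ ε = -1) ∧ (∀ x : ℝ, Real.cos (x + Real.pi * z / 2048) = ε * Real.sin x) ∧
      ∀ x : ℝ, Real.cos (x + Real.pi * z' / 2048) = -ε * Real.sin x := by
  have h1 : ∀ x : ℝ, Real.cos (x + Real.pi * (3072 : ℕ) / 2048) = Real.sin x := by
    intro x
    rw [show x + Real.pi * (3072 : ℕ) / 2048 = x + Real.pi / 2 + Real.pi by push_cast; ring, Real.cos_add_pi,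
      Real.cos_add_pi_div_two, neg_neg]
  have h2 : ∀ x : ℝ, Real.cos (x + Real.pi * (1024 : ℕ) / 2048) = -Real.sin x := by
    intro x
    rw [show x + Real.pi * (1024 : ℕ) / 2048 = x + Real.pi / 2 by push_cast; ring, Real.cos_add_pi_div_two]
  rcases hz with ⟨rfl, rfl⟩ | ⟨rfl, rfl⟩
  · exact ⟨1, Or.inl rfl, fun x => by rw [h1]; ring, fun x => by rw [h2]; ring⟩
  · exact ⟨-1, Or.inr rfl, fun x => by rw [h2]; ring, fun x => by rw [h1]; ring⟩

private theorem G23_dir {P : Polygon n} (S : Arcs P m) (hm : 2 ≤ m) {a : ZMod m → ℝ} (hch : S.ChordAng a) (j : ℕ) :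
    S.ch (j : ZMod m) / (‖S.ch (j : ZMod m)‖ : ℂ) =
      S.ch 0 / (‖S.ch 0‖ : ℂ) * gz (phQ a j) := by
  induction j with
  | zero =>
    unfold phQ
    rw [Finset.range_zero, Finset.sum_empty, gz_zero, mul_one, Nat.cast_zero]
  | succ j ih =>
    have h1 : phQ a (j + 1) = phQ a j + Real.pi * (1 - a ((j + 1 : ℕ) : ZMod m)) := by
      unfold phQ
      rw [Finset.sum_range_succ]
    rw [h1, gz_add, ← mul_assoc, ← ih]
    have h2 := hch.dir hm (j : ZMod m)
    have h3 : ((j + 1 : ℕ) : ZMod m) = (j : ZMod m) + 1 := by push_cast; rfl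
    rw [h3]
    exact h2

/-- `lnG`-lanes with `phQ b j = an2 (ln j) - an2 (ln 0)`; all sides have the same length; sides `p` and `q` cross -/
theorem g2Z_sound (hm : 3 ≤ m) {w : List ℕ} {P : Polygon n} {S : Arcs P m} {b : ZMod m → ℝ} (M : SitU w P S b)
    (hW : gqW m w 1 = true) {D : ℕ} (hD : 0 < D) {ln : ℕ → ℕ × ℕ × ℕ × ℕ} {t u : ℝ}
    (hph : ∀ j < m, phQ b j = an2 D t u (ln j) - an2 D t u (ln 0)) {s r h k z z' p q : ℕ}
    (hz : (z = 3072 ∧ z' = 1024) ∨ (z = 1024 ∧ z' = 3072))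
    (ht : |2048 * t - s| ≤ h) (hu : |2048 * u - r| ≤ k)
    (h1 : g2Z m gqT D s r h k z z' p q (((List.range m).map ln).reverse) = true) : False := by
  unfold g2Z at h1
  simp only [Bool.and_eq_true] at h1
  obtain ⟨⟨⟨⟨⟨k1, k2⟩, y1⟩, y2⟩, y3⟩, y4⟩ := h1
  have hpq : p + 2 ≤ q := Nat.le_of_ble_eq_true k1
  have hqm : q < m := Nat.le_of_ble_eq_true k2
  obtain ⟨ε, hε, hc, hc'⟩ := G23_z hz
  rw [G23_nth ln (show p < m by omega)] at y1 y2
  rw [G23_nth ln hqm] at y3 y4
  have z1 := g2Y_pos hD y1 ht hu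
  have z2 := g2Y_pos hD y2 ht hu
  have z3 := g2Y_pos hD y3 ht hu
  have z4 := g2Y_pos hD y4 ht hu
  simp only [hc, hc'] at z1 z2 z3 z4
  -- the sides
  obtain ⟨-, -, hlen⟩ := gqW_sound hW
  obtain ⟨-, -, hl⟩ := hlen M
  have hw1 : ∀ j, S.w j = 1 := by
    intro j
    have hW' := hW
    unfold gqW at hW'
    simp only [Bool.and_eq_true, beq_iff_eq, List.all_eq_true] at hW'
    obtain ⟨⟨w1, w2⟩, -⟩ := hW'
    have h3 : S.Rel j j false := by
      apply (M.rel j j false).2
      refine w2 _ ?_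
      have := ZMod.val_lt j
      rw [List.getD_eq_getElem _ _ (by omega)]
      exact List.getElem_mem _
    exact S.minus_self j (by simpa [Arcs.Rel] using h3)
  have hcls : ∀ j < m, w.getD j 0 / 16 = 0 := by
    intro j hj
    have hW' := hW
    unfold gqW at hW'
    simp only [Bool.and_eq_true, beq_iff_eq, List.all_eq_true] at hW'
    obtain ⟨⟨w1, -⟩, w3⟩ := hW'
    have h4 : w.getD j 0 / 16 < 1 := by
      refine Nat.le_of_ble_eq_true (w3 _ ?_)
      rw [List.getD_eq_getElem _ _ (by omega)]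
      exact List.getElem_mem _
    omega
  have hnorm : ∀ j < m, ‖S.ch (j : ZMod m)‖ = ‖S.ch 0‖ := by
    intro j hj
    have h3 := hl j hj 0 (by omega) (by rw [hcls j hj, hcls 0 (by omega)])
    rw [h3, Nat.cast_zero]
  have h0 : S.ch 0 ≠ 0 := S.ch_ne (by omega) 0
  have hn0 : (‖S.ch 0‖ : ℂ) ≠ 0 := by
    have := norm_pos_iff.2 h0
    exact_mod_cast this.ne'
  obtain ⟨R, hR⟩ : ∃ R, R = S.ch 0 * gz (-an2 D t u (ln 0)) := ⟨_, rfl⟩
  have hR0 : R ≠ 0 := by
    rw [hR]
    refine mul_ne_zero h0 ?_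
    unfold gz
    exact Complex.exp_ne_zero _
  have hRp : 0 < Complex.normSq R := Complex.normSq_pos.2 hR0
  obtain ⟨θ, hθ⟩ : ∃ θ : ℕ → ℝ, θ = fun j => an2 D t u (ln j) := ⟨_, rfl⟩
  have hch : ∀ j < m, S.ch (j : ZMod m) = R * gz (θ j) := by
    intro j hj
    have h3 := G23_dir S (by omega) M.chord j
    rw [hnorm j hj, div_mul_eq_mul_div] at h3
    have h4 := (div_left_inj' hn0).1 h3
    rw [h4, hph j hj, hR, hθ, mul_assoc, ← gz_add]
    congr 2
    ring
  have hsum : ∀ c < m, ∀ a k : ℕ, a + k ≤ m → ((starRingEnd ℂ) (S.ch (c : ZMod m)) *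
      ∑ i ∈ Finset.range k, S.ch ((a + i : ℕ) : ZMod m)).im =
        Complex.normSq R * ∑ i ∈ Finset.range k, Real.sin (θ (a + i) - θ c) := by
    intro c hc a k hak
    rw [Finset.mul_sum, Complex.im_sum, Finset.mul_sum]
    refine Finset.sum_congr rfl fun i hi => ?_
    have hi' := Finset.mem_range.1 hi
    rw [hch c hc, hch (a + i) (by omega), G23_im]
  have hself : ∀ c < m, ((starRingEnd ℂ) (S.ch (c : ZMod m)) * S.ch (c : ZMod m)).im = 0 := by
    intro c hc
    rw [hch c hc, G23_im, sub_self, Real.sin_zero, mul_zero]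
  have e1 : ∀ (x : ℕ) (c a k : ℕ), a + k ≤ m → c < m → x = k →
      ∑ i ∈ Finset.range x, Real.sin (an2 D t u (g2L m (((List.range m).map ln).reverse) (a + i)) -
        an2 D t u (ln c)) = ∑ i ∈ Finset.range k, Real.sin (θ (a + i) - θ c) := by
    intro x c a k hak hc hx
    rw [hx]
    refine Finset.sum_congr rfl fun i hi => ?_
    have hi' := Finset.mem_range.1 hi
    rw [G23_nth ln (show a + i < m by omega), hθ]
  rw [← Finset.mul_sum, show Nat.add p 1 = p + 1 from rfl,
    e1 ((q.sub p).sub 1) p (p + 1) (q - p - 1) (by omega) (by omega) rfl] at z1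
  rw [← Finset.mul_sum, show Nat.add p 1 = p + 1 from rfl,
    e1 (q.sub p) p (p + 1) (q - p) (by omega) (by omega) rfl] at z2
  rw [← Finset.mul_sum, e1 (q.sub p) q p (q - p) (by omega) (by omega) rfl] at z3
  rw [← Finset.mul_sum, show Nat.add p 1 = p + 1 from rfl,
    e1 ((q.sub p).sub 1) q (p + 1) (q - p - 1) (by omega) (by omega) rfl] at z4
  -- the four orientations
  have v1 : S.V (q : ZMod m) = S.V ((p + 1 : ℕ) : ZMod m) +
      ∑ i ∈ Finset.range (q - p - 1), S.ch ((p + 1 + i : ℕ) : ZMod m) := by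
    rw [← G23_sum, show p + 1 + (q - p - 1) = q by omega]
  have v2 : S.V ((q + 1 : ℕ) : ZMod m) = S.V ((p + 1 : ℕ) : ZMod m) +
      ∑ i ∈ Finset.range (q - p), S.ch ((p + 1 + i : ℕ) : ZMod m) := by
    rw [← G23_sum, show p + 1 + (q - p) = q + 1 by omega]
  have v3 : S.V (q : ZMod m) = S.V (p : ZMod m) +
      ∑ i ∈ Finset.range (q - p), S.ch ((p + i : ℕ) : ZMod m) := by
    rw [← G23_sum, show p + (q - p) = q by omega]
  have v4 : ∀ c : ℕ, S.V ((c + 1 : ℕ) : ZMod m) = S.V (c : ZMod m) + S.ch (c : ZMod m) := by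
    intro c
    unfold Arcs.ch
    rw [Nat.cast_succ]
    ring
  have hεε : ε * ε = 1 := by
    rcases hε with rfl | rfl <;> norm_num
  obtain ⟨F1, hF1⟩ : ∃ F1, F1 = ∑ i ∈ Finset.range (q - p - 1), Real.sin (θ (p + 1 + i) - θ p) := ⟨_, rfl⟩
  obtain ⟨F2, hF2⟩ : ∃ F2, F2 = ∑ i ∈ Finset.range (q - p), Real.sin (θ (p + 1 + i) - θ p) := ⟨_, rfl⟩
  obtain ⟨F3, hF3⟩ : ∃ F3, F3 = ∑ i ∈ Finset.range (q - p), Real.sin (θ (p + i) - θ q) := ⟨_, rfl⟩
  obtain ⟨F4, hF4⟩ : ∃ F4, F4 = ∑ i ∈ Finset.range (q - p - 1), Real.sin (θ (p + 1 + i) - θ q) := ⟨_, rfl⟩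
  rw [← hF1] at z1
  rw [← hF2] at z2
  rw [← hF3] at z3
  rw [← hF4] at z4
  have f1 : ((starRingEnd ℂ) (S.ch (p : ZMod m)) * (S.V (q : ZMod m) - S.V (p : ZMod m))).im =
      Complex.normSq R * F1 := by
    rw [v1, v4 p, hF1, ← hsum p (by omega) (p + 1) (q - p - 1) (by omega),
      show S.V (p : ZMod m) + S.ch (p : ZMod m) +
        ∑ i ∈ Finset.range (q - p - 1), S.ch ((p + 1 + i : ℕ) : ZMod m) - S.V (p : ZMod m) =
        S.ch (p : ZMod m) + ∑ i ∈ Finset.range (q - p - 1), S.ch ((p + 1 + i : ℕ) : ZMod m) by ring,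
      mul_add, Complex.add_im, hself p (by omega), zero_add]
  have f2 : ((starRingEnd ℂ) (S.ch (p : ZMod m)) * (S.V (q : ZMod m) + S.ch (q : ZMod m) - S.V (p : ZMod m))).im =
      Complex.normSq R * F2 := by
    rw [← v4 q, v2, v4 p, hF2, ← hsum p (by omega) (p + 1) (q - p) (by omega),
      show S.V (p : ZMod m) + S.ch (p : ZMod m) +
        ∑ i ∈ Finset.range (q - p), S.ch ((p + 1 + i : ℕ) : ZMod m) - S.V (p : ZMod m) =
        S.ch (p : ZMod m) + ∑ i ∈ Finset.range (q - p), S.ch ((p + 1 + i : ℕ) : ZMod m) by ring,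
      mul_add, Complex.add_im, hself p (by omega), zero_add]
  have f3 : ((starRingEnd ℂ) (S.ch (q : ZMod m)) * (S.V (p : ZMod m) - S.V (q : ZMod m))).im =
      -(Complex.normSq R * F3) := by
    rw [v3, hF3, ← hsum q (by omega) p (q - p) (by omega),
      show S.V (p : ZMod m) - (S.V (p : ZMod m) + ∑ i ∈ Finset.range (q - p), S.ch ((p + i : ℕ) : ZMod m)) =
        -∑ i ∈ Finset.range (q - p), S.ch ((p + i : ℕ) : ZMod m) by ring,
      mul_neg, Complex.neg_im]
  have f4 : ((starRingEnd ℂ) (S.ch (q : ZMod m)) * (S.V (p : ZMod m) + S.ch (p : ZMod m) - S.V (q : ZMod m))).im =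
      -(Complex.normSq R * F4) := by
    rw [← v4 p, v1, hF4, ← hsum q (by omega) (p + 1) (q - p - 1) (by omega),
      show S.V ((p + 1 : ℕ) : ZMod m) - (S.V ((p + 1 : ℕ) : ZMod m) +
        ∑ i ∈ Finset.range (q - p - 1), S.ch ((p + 1 + i : ℕ) : ZMod m)) =
        -∑ i ∈ Finset.range (q - p - 1), S.ch ((p + 1 + i : ℕ) : ZMod m) by ring,
      mul_neg, Complex.neg_im]
  have n1 : F1 * F2 < 0 := by
    have := mul_pos z1 z2
    have h5 : ε * F1 * (-ε * F2) = -(ε * ε) * (F1 * F2) := by ring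
    rw [h5, hεε] at this
    linarith
  have n2 : F3 * F4 < 0 := by
    have := mul_pos z3 z4
    have h5 : ε * F3 * (-ε * F4) = -(ε * ε) * (F3 * F4) := by ring
    rw [h5, hεε] at this
    linarith
  have hRR := mul_pos hRp hRp
  obtain ⟨x, y, x0, x1, y0, y1, hxy⟩ := G23_cross f1 f2 f3 f4
    (by
      have h5 : Complex.normSq R * F1 * (Complex.normSq R * F2) =
        Complex.normSq R * Complex.normSq R * (F1 * F2) := by ring
      rw [h5]
      exact mul_neg_of_pos_of_neg hRR n1)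
    (by
      have h5 : -(Complex.normSq R * F3) * -(Complex.normSq R * F4) =
        Complex.normSq R * Complex.normSq R * (F3 * F4) := by ring
      rw [h5]
      exact mul_neg_of_pos_of_neg hRR n2)
  have hne : S.κ (p : ZMod m) ≠ S.κ (q : ZMod m) := by
    intro h5
    have h6 : S.V (q : ZMod m) = S.V (p : ZMod m) := by
      unfold Arcs.V
      rw [h5]
    rw [h6, sub_self, mul_zero, Complex.zero_im] at f1
    have h7 : F1 = 0 := by
      rcases mul_eq_zero.1 f1.symm with h | h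
      · exact absurd h hRp.ne'
      · exact h
    rw [h7, zero_mul] at n1
    exact lt_irrefl _ n1
  have hend : ∀ c : ZMod m, P.vertex (S.κ c + 1) = S.V c + S.ch c := by
    intro c
    have h5 := S.step c
    rw [hw1 c, Nat.cast_one] at h5
    unfold Arcs.ch Arcs.V
    rw [h5]
    ring
  have hmem : S.V (p : ZMod m) + x * S.ch (p : ZMod m) ∈
      segment ℝ (P.vertex (S.κ (p : ZMod m))) (P.vertex (S.κ (p : ZMod m) + 1)) ∩
      segment ℝ (P.vertex (S.κ (q : ZMod m))) (P.vertex (S.κ (q : ZMod m) + 1)) := by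
    constructor
    · rw [hend, segment_eq_image']
      refine ⟨x, ⟨x0.le, x1.le⟩, ?_⟩
      show S.V (p : ZMod m) + x • (S.V (p : ZMod m) + S.ch (p : ZMod m) - S.V (p : ZMod m)) = _
      rw [add_sub_cancel_left, Complex.real_smul]
    · rw [hxy, hend, segment_eq_image']
      refine ⟨y, ⟨y0.le, y1.le⟩, ?_⟩
      show S.V (q : ZMod m) + y • (S.V (q : ZMod m) + S.ch (q : ZMod m) - S.V (q : ZMod m)) = _
      rw [add_sub_cancel_left, Complex.real_smul]
  have h9 := (P.simple _ _ hne hmem).1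
  have hcp : S.ch (p : ZMod m) ≠ 0 := S.ch_ne (by omega) _
  rcases h9 with h9 | h9
  · have h10 : (x : ℂ) * S.ch (p : ZMod m) = 0 := by
      have h11 : S.V (p : ZMod m) + x * S.ch (p : ZMod m) = S.V (p : ZMod m) := h9
      simpa using h11
    rcases mul_eq_zero.1 h10 with h | h
    · rw [Complex.ofReal_eq_zero] at h
      exact x0.ne' h
    · exact hcp h
  · have h10 : (x : ℂ) * S.ch (p : ZMod m) = 1 * S.ch (p : ZMod m) := by
      have h11 : S.V (p : ZMod m) + x * S.ch (p : ZMod m) = P.vertex (S.κ (p : ZMod m) + 1) := h9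
      rw [hend] at h11
      rw [one_mul]
      exact add_left_cancel h11
    have h12 := mul_right_cancel₀ hcp h10
    rw [Complex.ofReal_eq_one] at h12
    exact x1.ne h12

end Pool.Agent.Lib_MP_fa6e45
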