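import Pool.Agent.Lib_MP_fa6e45.GQ6

/-!
MP_fa6e45_co, stage 9: soundness of the certificates with fast numerical checks (see GQ0).
-/

open Set MeasureTheory Complex
open scoped Topology

namespace Pool.Agent.Lib_MP_fa6e45

open Pool.Agent.Lib_PL (cr InSector Poly)

variable {n : ℕ} {m : ℕ} [NeZero m]

theorem chkG_sound (hm : 3 ≤ m) (hm' : m ≤ 8) {w : List ℕ} {C : ℕ} (hW : OkW m w C)
    {sy : List (Bool × ℕ × List ℕ)}
    (hsy : ∀ g ∈ sy, symT m w g = true) (hsl : ∀ g ∈ sy, g.2.2.length = m)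
    {st : List (ℕ × ℕ × ℕ × ℕ × ℕ × ℕ)} (hst : stQ m w st = true)
    {α : Type} {ck : (ℕ → List Eqn) → ℕ → α → Bool}
    (hck : ∀ (D : ℕ → List Eqn) (i : ℕ) (N : α), (∀ j < i, NodeU m w (D j)) → ck D i N = true →
      NodeU m w (D i))
    {D : ℕ → List (ℕ × ℕ)} (hbd : ∀ i, ∀ e ∈ D i, bndQ m e = true) {i : ℕ}
    (hD : ∀ j < i, NodeU m w ((D j).map (eqnQ m))) {N : QG α}
    (h : chkG ck m w C sy st D i N = true) : NodeU m w ((D i).map (eqnQ m)) := by
  cases N with
  | q N =>
    intro n P S b M ha hb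
    exact chkQ_sound hm hm' hsy hsl hst hck hbd hD (N := N) h P S b M ha hb
  | g d f al be ρ bb cs =>
    have h' : geoQ m w C d f al be ρ bb cs (D i) = true := h
    intro n P S b M ha hb
    exact (geoQ_sound hm hm' M hW (hbd i) (fun e he => hb _ (List.mem_map_of_mem he)) h').elim

private theorem GQ7_nth {α : Type} {p : α → Prop} {d : α} (hd : p d) {l : List α} (hl : ∀ x ∈ l, p x) (i : ℕ) :
    p (nthF d l i) := by
  rw [nthF_eq, List.getD_eq_getElem?_getD]
  rcases Nat.lt_or_ge i l.length with h | h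
  · rw [List.getElem?_eq_getElem h]
    exact hl _ (List.getElem_mem h)
  · rw [List.getElem?_eq_none h]
    exact hd

omit [NeZero m] in
private theorem GQ7_bl3 {D : List (List (List (List (ℕ × ℕ))))} (h : allF (allF (allF (allF (bndQ m)))) D = true)
    (i : ℕ) : ∀ e ∈ bl3 [] D i, bndQ m e = true := by
  have h1 : ∀ x ∈ D, ∀ y ∈ x, ∀ z ∈ y, ∀ e ∈ z, bndQ m e = true := by
    intro x hx y hy z hz e he
    rw [allF_eq, List.all_eq_true] at h
    have h2 := h x hx
    rw [allF_eq, List.all_eq_true] at h2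
    have h3 := h2 y hy
    rw [allF_eq, List.all_eq_true] at h3
    have h4 := h3 z hz
    rw [allF_eq, List.all_eq_true] at h4
    exact h4 e he
  unfold bl3
  refine GQ7_nth (p := fun z => ∀ e ∈ z, bndQ m e = true) (fun e he => absurd he List.not_mem_nil) ?_ _
  refine GQ7_nth (p := fun y => ∀ z ∈ y, ∀ e ∈ z, bndQ m e = true) (fun e he => absurd he List.not_mem_nil) ?_ _
  exact GQ7_nth (p := fun x => ∀ y ∈ x, ∀ z ∈ y, ∀ e ∈ z, bndQ m e = true)
    (fun e he => absurd he List.not_mem_nil) h1 _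

private theorem GQ7_allI {α : Type} {g : ℕ → α → Bool} {l : List α} {i0 : ℕ}
    (h : allI g l i0 = true) (j : ℕ) (hj : j < l.length) : g (i0 + j) l[j] = true := by
  induction l generalizing i0 j with
  | nil => exact absurd hj (by simp)
  | cons x l ih =>
    have h' : (bif g i0 x then allI g l (Nat.succ i0) else false) = true := h
    cases hx : g i0 x
    · rw [hx] at h'
      exact absurd h' (by simp)
    · rw [hx, cond_true] at h'
      cases j with
      | zero => simpa using hx
      | succ j =>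
        have h2 := ih h' j (by simpa using hj)
        rw [show i0 + (j + 1) = Nat.succ i0 + j by omega]
        simpa using h2

/-- a certificate with fast numerical checks proves that the word is solved, general form -/
theorem nodeG_gen (hm : 3 ≤ m) (hm' : m ≤ 8) {tt : List TorT} (htt : ∀ T ∈ tt, T.OK m) {w : List ℕ} {C : ℕ}
    (hW : OkW m w C) {sy : List (Bool × ℕ × List ℕ)} {st : List (ℕ × ℕ × ℕ × ℕ × ℕ × ℕ)}
    {D : List (List (List (List (ℕ × ℕ))))} {Ns : List (QG PN)} (h1 : preQ m w sy st D Ns.length = true)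
    (h2 : allI (chkG (ckP m tt w sy) m w C sy st (bl3 [] D)) Ns 0 = true) : NodeU m w [] := by
  unfold preQ at h1
  simp only [Bool.and_eq_true, beq_iff_eq, List.all_eq_true, decide_eq_true_eq,
    List.isEmpty_iff] at h1
  obtain ⟨⟨⟨⟨⟨⟨q1, q2⟩, q3⟩, q4⟩, q5⟩, q6⟩, q7⟩ := h1
  have hbd := GQ7_bl3 q5
  have key : ∀ i, i < Ns.length → NodeU m w ((bl3 [] D i).map (eqnQ m)) := by
    intro i
    induction i using Nat.strong_induction_on with
    | _ i ih =>
      intro hi
      have h6 := GQ7_allI h2 i hi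
      rw [Nat.zero_add] at h6
      intro n P S b M ha hb
      exact chkG_sound hm hm' hW q2 q3 q4 (ckP_sound hm hm' htt q2) hbd (fun j hj => ih j hj (by omega)) h6 P S b M
        ha hb
  intro n P S b M ha hb
  refine key (Ns.length - 1) (by omega) P S b M ?_ ?_
  · rw [q7]
    exact ha
  · rw [q7]
    exact hb

/-- a certificate with fast numerical checks proves that the word is solved -/
theorem nodeG_of (hm : 3 ≤ m) (hm' : m ≤ 8) {tt : List TorT} (htt : ∀ T ∈ tt, T.OK m) {w : List ℕ} {C : ℕ}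
    (hW : gqW m w C = true) {sy : List (Bool × ℕ × List ℕ)} {st : List (ℕ × ℕ × ℕ × ℕ × ℕ × ℕ)}
    {D : List (List (List (List (ℕ × ℕ))))} {Ns : List (QG PN)} (h1 : preQ m w sy st D Ns.length = true)
    (h2 : allI (chkG (ckP m tt w sy) m w C sy st (bl3 [] D)) Ns 0 = true) : NodeU m w [] :=
  nodeG_gen hm hm' htt (gqW_sound hW) h1 h2

end Pool.Agent.Lib_MP_fa6e45
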