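import Pool.Agent.Lib_MP_fa6e45.G22
import Pool.Agent.Lib_MP_fa6e45.G23
import Pool.Agent.Lib_MP_fa6e45.GQ7

/-!
MP_fa6e45_co, stage 9: soundness of the numerical check with two free angles `geo2Q` (see G20), and of the certificates
which contain it.
-/

open Set MeasureTheory Complex
open scoped Topology

namespace Pool.Agent.Lib_MP_fa6e45

open Pool.Agent.Lib_PL (cr InSector Poly)

variable {n : ℕ} {m : ℕ} [NeZero m]

/-- lane number `j` -/
noncomputable def lnH (w : List ℕ) (al be ga j : ℕ) : ℕ × ℕ × ℕ × ℕ :=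
  (dg 32 al j, dg 32 be j, dg 32 ga j, w.getD j 0 / 16)

omit [NeZero m] in
private theorem G24_U (al be ga : ℕ) (K : List (ℕ × ℕ × ℕ × ℕ) → Bool) (w : List ℕ) (i : ℕ)
    (acc : List (ℕ × ℕ × ℕ × ℕ)) : g2U al be ga K w i acc =
      K (((List.range w.length).map fun j => (dg 32 al (i + j), dg 32 be (i + j), dg 32 ga (i + j),
        w.getD j 0 / 16)).reverse ++ acc) := by
  induction w generalizing i acc with
  | nil => rfl
  | cons x w ih =>
    have h1 : g2U al be ga K (x :: w) i acc =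
        g2U al be ga K w (Nat.succ i) ((dg 32 al i, dg 32 be i, dg 32 ga i, x / 16) :: acc) := by
      show (fQ (dg 32 al i) fun a => fQ (dg 32 be i) fun b => fQ (dg 32 ga i) fun g => fQ (Nat.div x 16) fun c =>
        fQ (Nat.succ i) fun j => g2U al be ga K w j ((a, b, g, c) :: acc)) = _
      rw [fQ_eq, fQ_eq, fQ_eq, fQ_eq, fQ_eq]
      rfl
    have h2 : ((List.range (x :: w).length).map fun j => (dg 32 al (i + j), dg 32 be (i + j), dg 32 ga (i + j),
        (x :: w).getD j 0 / 16)) = (dg 32 al i, dg 32 be i, dg 32 ga i, x / 16) ::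
        ((List.range w.length).map fun j => (dg 32 al (i.succ + j), dg 32 be (i.succ + j), dg 32 ga (i.succ + j),
          w.getD j 0 / 16)) := by
      rw [List.length_cons, List.range_succ_eq_map, List.map_cons, List.map_map, Nat.add_zero, List.getD_cons_zero]
      refine congrArg _ (List.map_congr_left fun j _ => ?_)
      rw [Function.comp_apply, show i + Nat.succ j = i.succ + j by omega]
      rfl
    rw [h1, ih, h2, List.reverse_cons, List.append_assoc]
    rfl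

omit [NeZero m] in
theorem g2U_eq (al be ga : ℕ) (K : List (ℕ × ℕ × ℕ × ℕ) → Bool) (w : List ℕ) :
    g2U al be ga K w 0 [] = K (((List.range w.length).map (lnH w al be ga)).reverse) := by
  rw [G24_U, List.append_nil]
  congr 3
  funext j
  unfold lnH
  rw [Nat.zero_add]

private theorem G24_sum (ln : ℕ → ℕ × ℕ × ℕ × ℕ) (g : ℕ × ℕ × ℕ × ℕ → ℝ) (c k : ℕ) :
    (((((List.range k).map ln).reverse).filter fun e => e.2.2.2 == c).map g).sum =
      ∑ j ∈ Finset.range k, if (ln j).2.2.2 = c then g (ln j) else 0 := by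
  induction k with
  | zero => rfl
  | succ k ih =>
    rw [List.range_succ, List.map_append, List.reverse_append, Finset.sum_range_succ, ← ih]
    simp only [List.map_cons, List.map_nil, List.reverse_cons, List.reverse_nil, List.nil_append,
      List.singleton_append, List.filter_cons]
    by_cases h : (ln k).2.2.2 = c
    · rw [if_pos (by rw [beq_iff_eq]; exact h), if_pos h, List.map_cons, List.sum_cons]
      ring
    · rw [if_neg (by rw [beq_iff_eq]; exact h), if_neg h, add_zero]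

omit [NeZero m] in
/-- directions of the sides -/
private theorem G24_ph {b : ZMod m → ℝ} {D : ℕ} (hD : 0 < D) {ln : ℕ → ℕ × ℕ × ℕ × ℕ} {t u : ℝ}
    (hd : ∀ j, 1 ≤ j → j < m → (D : ℝ) * b (j : ZMod m) + (ln j).2.1 * t + (ln j).2.2.1 * u + (ln j).1 =
      D + (ln (j - 1)).1 + (ln (j - 1)).2.1 * t + (ln (j - 1)).2.2.1 * u) (j : ℕ) (hj : j < m) :
    phQ b j = an2 D t u (ln j) - an2 D t u (ln 0) := by
  have hD' : (D : ℝ) ≠ 0 := by exact_mod_cast hD.ne'
  induction j with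
  | zero =>
    unfold phQ
    rw [Finset.range_zero, Finset.sum_empty, sub_self]
  | succ j ih =>
    have h1 : phQ b (j + 1) = phQ b j + Real.pi * (1 - b ((j + 1 : ℕ) : ZMod m)) := by
      unfold phQ
      rw [Finset.sum_range_succ]
    have h2 := hd (j + 1) (by omega) hj
    rw [Nat.add_sub_cancel] at h2
    rw [h1, ih (by omega)]
    unfold an2
    field_simp
    linear_combination (-1 : ℝ) * h2

/-- the angle at corner `0` -/
private theorem G24_zero {b : ZMod m → ℝ} (hm : 3 ≤ m) (hs : ∑ j, b j = (m : ℝ) - 2) {D : ℕ} (hD : 0 < D)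
    {ln : ℕ → ℕ × ℕ × ℕ × ℕ} {t u : ℝ}
    (hd : ∀ j, 1 ≤ j → j < m → (D : ℝ) * b (j : ZMod m) + (ln j).2.1 * t + (ln j).2.2.1 * u + (ln j).1 =
      D + (ln (j - 1)).1 + (ln (j - 1)).2.1 * t + (ln (j - 1)).2.2.1 * u) :
    (D : ℝ) * b ((0 : ℕ) : ZMod m) + (ln 0).2.1 * t + (ln 0).2.2.1 * u + ((ln 0).1 + 2 * D) =
      D + (ln (m - 1)).1 + (ln (m - 1)).2.1 * t + (ln (m - 1)).2.2.1 * u := by
  have hD' : (D : ℝ) ≠ 0 := by exact_mod_cast hD.ne'
  have hpi := Real.pi_ne_zero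
  have h1 := G24_ph hD hd (m - 1) (by omega)
  have h2 : phQ b (m - 1) = Real.pi * (2 - (1 - b ((0 : ℕ) : ZMod m))) := by
    unfold phQ
    have h3 : ∑ j : ZMod m, (1 - b j) = ∑ j ∈ Finset.range m, (1 - b (j : ZMod m)) := by
      refine Finset.sum_bij (fun j _ => j.val) ?_ ?_ ?_ ?_
      · intro j _
        exact Finset.mem_range.2 (ZMod.val_lt j)
      · intro j _ k _ h
        exact ZMod.val_injective m h
      · intro q hq
        refine ⟨(q : ZMod m), Finset.mem_univ _, ?_⟩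
        exact ZMod.val_natCast_of_lt (Finset.mem_range.1 hq)
      · intro j _
        rw [ZMod.natCast_zmod_val]
    have h4 : ∑ j : ZMod m, (1 - b j) = 2 := by
      rw [Finset.sum_sub_distrib, hs, Finset.sum_const, Finset.card_univ, ZMod.card, nsmul_eq_mul]
      ring
    have h5 : ∑ j ∈ Finset.range m, (1 - b (j : ZMod m)) =
        ∑ s ∈ Finset.range (m - 1), (1 - b ((s + 1 : ℕ) : ZMod m)) + (1 - b ((0 : ℕ) : ZMod m)) := by
      obtain ⟨k, hk⟩ : ∃ k, m = k + 1 := ⟨m - 1, by omega⟩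
      rw [show Finset.range m = Finset.range (k + 1) by rw [hk], Finset.sum_range_succ',
        show m - 1 = k by omega]
    rw [← Finset.mul_sum]
    congr 1
    linarith
  rw [h2] at h1
  unfold an2 at h1
  field_simp at h1
  linear_combination h1

omit [NeZero m] in
private theorem G24_V (x : ℕ) (e : ℕ × ℕ × ℕ × ℕ) (s r : ℕ) :
    ((g2V x e s r : ℕ) : ℝ) = 2048 * ((x : ℝ) + e.1) + e.2.1 * s + e.2.2.1 * r := by
  show ((2048 * (x + e.1) + e.2.1 * s + e.2.2.1 * r : ℕ) : ℝ) = _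
  push_cast
  ring

/-- a linear function which is `≤ 0` at the corners of a rectangle -/
private theorem G24_lin {u v z x y x1 x2 y1 y2 : ℝ} (hx1 : x1 ≤ x) (hx2 : x ≤ x2) (hy1 : y1 ≤ y) (hy2 : y ≤ y2)
    (h11 : u + v * x1 + z * y1 ≤ 0) (h21 : u + v * x2 + z * y1 ≤ 0) (h12 : u + v * x1 + z * y2 ≤ 0)
    (h22 : u + v * x2 + z * y2 ≤ 0) : u + v * x + z * y ≤ 0 := by
  rcases le_total 0 v with hv | hv <;> rcases le_total 0 z with hz | hz <;> nlinarith

/-- a corner whose angle is not between `0` and `2` -/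
private theorem G24_X {D y s1 s2 r1 r2 : ℕ} {a b : ℕ × ℕ × ℕ × ℕ} (hD : 0 < D) {x t u : ℝ} (hx : 0 < x) (hx2 : x < 2)
    (h : (D : ℝ) * x + b.2.1 * t + b.2.2.1 * u + (b.1 + y) = D + a.1 + a.2.1 * t + a.2.2.1 * u)
    (h1 : (s1 : ℝ) ≤ 2048 * t) (h2 : 2048 * t ≤ s2) (h3 : (r1 : ℝ) ≤ 2048 * u) (h4 : 2048 * u ≤ r2)
    (hX : g2X D y s1 s2 r1 r2 a b = true) : False := by
  have hD' : (0 : ℝ) < D := by exact_mod_cast hD
  have p1 : 0 < (D : ℝ) * x := mul_pos hD' hx
  have p2 : (D : ℝ) * x < D * 2 := mul_lt_mul_of_pos_left hx2 hD'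
  unfold g2X at hX
  simp only [Bool.or_eq_true, Bool.and_eq_true] at hX
  have cast : ∀ {p q : ℕ}, Nat.ble p q = true → (p : ℝ) ≤ q := by
    intro p q hpq
    exact_mod_cast Nat.le_of_ble_eq_true hpq
  rcases hX with ⟨⟨⟨k1, k2⟩, k3⟩, k4⟩ | ⟨⟨⟨k1, k2⟩, k3⟩, k4⟩
  · have k1' := cast k1
    have k2' := cast k2
    have k3' := cast k3
    have k4' := cast k4
    rw [G24_V, G24_V] at k1' k2' k3' k4'
    have := G24_lin (u := 2048 * ((D : ℝ) + a.1) - 2048 * ((y : ℝ) + b.1)) (v := (a.2.1 : ℝ) - b.2.1)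
      (z := (a.2.2.1 : ℝ) - b.2.2.1) h1 h2 h3 h4 (by linarith) (by linarith) (by linarith) (by linarith)
    nlinarith
  · have k1' := cast k1
    have k2' := cast k2
    have k3' := cast k3
    have k4' := cast k4
    have e4 : ∀ z : ℕ, ((Nat.add (Nat.mul 4096 D) z : ℕ) : ℝ) = 4096 * D + z := by
      intro z
      show ((4096 * D + z : ℕ) : ℝ) = _
      push_cast
      ring
    rw [e4, G24_V, G24_V] at k1' k2' k3' k4'
    have := G24_lin (u := 4096 * (D : ℝ) + 2048 * ((y : ℝ) + b.1) - 2048 * ((D : ℝ) + a.1))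
      (v := (b.2.1 : ℝ) - a.2.1) (z := (b.2.2.1 : ℝ) - a.2.2.1) h1 h2 h3 h4 (by linarith) (by linarith)
      (by linarith) (by linarith)
    nlinarith

omit [NeZero m] in
private theorem G24_nth (ln : ℕ → ℕ × ℕ × ℕ × ℕ) {i k : ℕ} (hi : i < k) :
    nthF (0, 0, 0, 0) (((List.range k).map ln).reverse) i = ln (k - 1 - i) := by
  rw [nthF_eq, List.getD_eq_getElem _ _ (by simpa using hi), List.getElem_reverse]
  simp

private theorem G24_C (hm : 3 ≤ m) {b : ZMod m → ℝ} (h0 : ∀ j, 0 < b j) (h2 : ∀ j, b j < 2)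
    (hs : ∑ j, b j = (m : ℝ) - 2) {D : ℕ} (hD : 0 < D) {ln : ℕ → ℕ × ℕ × ℕ × ℕ} {t u : ℝ}
    (hd : ∀ j, 1 ≤ j → j < m → (D : ℝ) * b (j : ZMod m) + (ln j).2.1 * t + (ln j).2.2.1 * u + (ln j).1 =
      D + (ln (j - 1)).1 + (ln (j - 1)).2.1 * t + (ln (j - 1)).2.2.1 * u) {s1 s2 r1 r2 j : ℕ}
    (k1 : (s1 : ℝ) ≤ 2048 * t) (k2 : 2048 * t ≤ s2) (k3 : (r1 : ℝ) ≤ 2048 * u) (k4 : 2048 * u ≤ r2)
    (h : g2C m D s1 s2 r1 r2 j (((List.range m).map ln).reverse) = true) : False := by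
  unfold g2C at h
  cases hj : Nat.beq j 0 with
  | true =>
    rw [hj, cond_true, G24_nth ln (by omega), show Nat.sub m 1 = m - 1 from rfl, G24_nth ln (by omega)] at h
    rw [show m - 1 - 0 = m - 1 by omega, show m - 1 - (m - 1) = 0 by omega] at h
    refine G24_X hD (h0 ((0 : ℕ) : ZMod m)) (h2 _) (t := t) (u := u) ?_ k1 k2 k3 k4 h
    have h3 := G24_zero hm hs hD hd
    have h4 : ((Nat.mul 2 D : ℕ) : ℝ) = 2 * D := by
      show ((2 * D : ℕ) : ℝ) = _
      push_cast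
      ring
    rw [h4]
    linarith
  | false =>
    rw [hj, cond_false] at h
    cases hj2 : Nat.blt j m with
    | false =>
      rw [hj2, cond_false] at h
      exact absurd h (by simp)
    | true =>
      have hjm : j < m := Nat.le_of_ble_eq_true hj2
      have hj0 : j ≠ 0 := by
        rintro rfl
        exact absurd hj (by decide)
      rw [hj2, cond_true, show Nat.sub (Nat.sub m j) 1 = m - j - 1 from rfl, show Nat.sub m j = m - j from rfl,
        G24_nth ln (by omega), G24_nth ln (by omega)] at h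
      rw [show m - 1 - (m - j) = j - 1 by omega, show m - 1 - (m - j - 1) = j by omega] at h
      refine G24_X hD (h0 (j : ZMod m)) (h2 _) (t := t) (u := u) ?_ k1 k2 k3 k4 h
      have h3 := hd j (by omega) hjm
      push_cast
      linarith

/-- the sum of the components of the sides is positive -/
private theorem G24_pos {P : Polygon n} (S : Arcs P m) (hm : 3 ≤ m) {b : ZMod m → ℝ} (hch : S.ChordAng b)
    {D : ℕ} {ln : ℕ → ℕ × ℕ × ℕ × ℕ} {t u : ℝ}
    (hlen : ∀ j < m, ∀ k < m, (ln j).2.2.2 = (ln k).2.2.2 → ‖S.ch (j : ZMod m)‖ = ‖S.ch (k : ZMod m)‖)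
    {C : ℕ} (hC : ∀ j < m, (ln j).2.2.2 < C)
    (hph : ∀ j < m, phQ b j = an2 D t u (ln j) - an2 D t u (ln 0)) {ω : ℝ}
    (hp : ∀ c < C, 0 < (((((List.range m).map ln).reverse).filter fun e => e.2.2.2 == c).map fun e =>
      Real.cos (an2 D t u e + ω)).sum) : False := by
  classical
  have hL : ∀ c : ℕ, ∃ x : ℝ, 0 < x ∧ ∀ j < m, (ln j).2.2.2 = c → ‖S.ch (j : ZMod m)‖ = x := by
    intro c
    by_cases h : ∃ j < m, (ln j).2.2.2 = c
    · obtain ⟨j, hj, hjc⟩ := h
      exact ⟨‖S.ch (j : ZMod m)‖, norm_pos_iff.2 (S.ch_ne (by omega) _),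
        fun k hk hkc => hlen k hk j hj (hkc.trans hjc.symm)⟩
    · exact ⟨1, one_pos, fun k hk hkc => absurd ⟨k, hk, hkc⟩ h⟩
  choose L hL0 hL1 using hL
  have h1 := closeQ S (by omega) hch (an2 D t u (ln 0) + ω)
  have h2 : ∀ j ∈ Finset.range m, ‖S.ch (j : ZMod m)‖ * Real.cos (phQ b j + (an2 D t u (ln 0) + ω)) =
      ∑ c ∈ Finset.range C, L c * (if (ln j).2.2.2 = c then Real.cos (an2 D t u (ln j) + ω) else 0) := by
    intro j hj
    have hj' := Finset.mem_range.1 hj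
    rw [Finset.sum_eq_single_of_mem (ln j).2.2.2 (Finset.mem_range.2 (hC j hj')), if_pos rfl, hL1 _ j hj' rfl,
      hph j hj']
    · congr 2
      ring
    · intro c _ hc
      rw [if_neg (Ne.symm hc), mul_zero]
  rw [Finset.sum_congr rfl h2, Finset.sum_comm] at h1
  have h3 : ∀ c ∈ Finset.range C, 0 < ∑ j ∈ Finset.range m,
      L c * (if (ln j).2.2.2 = c then Real.cos (an2 D t u (ln j) + ω) else 0) := by
    intro c hc
    rw [← Finset.mul_sum]
    refine mul_pos (hL0 c) ?_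
    have h4 := hp c (Finset.mem_range.1 hc)
    rw [G24_sum ln (fun e => Real.cos (an2 D t u e + ω)) c m] at h4
    exact h4
  have h5 : (Finset.range C).Nonempty := ⟨(ln 0).2.2.2, Finset.mem_range.2 (hC 0 (by omega))⟩
  have h6 := Finset.sum_pos h3 h5
  linarith

/-- soundness of the check of a rectangle -/
private theorem G24_K (hm : 3 ≤ m) {w : List ℕ} {P : Polygon n} {S : Arcs P m} {b : ZMod m → ℝ} (M : SitU w P S b)
    {C : ℕ} (hW : gqW m w C = true) (h0 : ∀ j, 0 < b j) (hb2 : ∀ j, b j < 2) {D : ℕ} (hD : 0 < D)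
    {ln : ℕ → ℕ × ℕ × ℕ × ℕ} {t u : ℝ}
    (hlen : ∀ j < m, ∀ k < m, (ln j).2.2.2 = (ln k).2.2.2 → ‖S.ch (j : ZMod m)‖ = ‖S.ch (k : ZMod m)‖)
    (hC : ∀ j < m, (ln j).2.2.2 < C)
    (hd : ∀ j, 1 ≤ j → j < m → (D : ℝ) * b (j : ZMod m) + (ln j).2.1 * t + (ln j).2.2.1 * u + (ln j).1 =
      D + (ln (j - 1)).1 + (ln (j - 1)).2.1 * t + (ln (j - 1)).2.2.1 * u) {ρ σ bb : ℕ}
    (hB : ∀ c < C, g2B ρ c (((List.range m).map ln).reverse) ≤ dg 32 bb (Nat.mul 3 c) ∧
      g2G σ c (((List.range m).map ln).reverse) ≤ dg 32 bb (Nat.succ (Nat.mul 3 c)) ∧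
      g2N c (((List.range m).map ln).reverse) ≤ dg 32 bb (Nat.add 2 (Nat.mul 3 c))) {s1 s2 r1 r2 p : ℕ}
    (k1 : (s1 : ℝ) ≤ 2048 * t) (k2 : 2048 * t ≤ s2) (k3 : (r1 : ℝ) ≤ 2048 * u) (k4 : 2048 * u ≤ r2)
    (h : g2K m gqT D C bb (((List.range m).map ln).reverse) s1 s2 r1 r2 p = true) : False := by
  have hph : ∀ j < m, phQ b j = an2 D t u (ln j) - an2 D t u (ln 0) := fun j hj => G24_ph hD hd j hj
  have mid : ∀ {a1 a2 : ℕ} {x : ℝ}, (a1 : ℝ) ≤ x → x ≤ a2 →
      |x - ((a1 + a2) / 2 : ℕ)| ≤ ((a2 - (a1 + a2) / 2 : ℕ) : ℝ) := by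
    intro a1 a2 x hx1 hx2
    have h12 : a1 ≤ a2 := by exact_mod_cast hx1.trans hx2
    have e1 : (a1 + a2) / 2 ≤ a2 := by omega
    have e2 : (a1 + a2) / 2 ≤ a1 + (a2 - (a1 + a2) / 2) := by omega
    have e2' : (((a1 + a2) / 2 : ℕ) : ℝ) ≤ a1 + ((a2 - (a1 + a2) / 2 : ℕ) : ℝ) := by exact_mod_cast e2
    have e3 : ((a2 - (a1 + a2) / 2 : ℕ) : ℝ) = (a2 : ℝ) - (((a1 + a2) / 2 : ℕ) : ℝ) := by
      rw [Nat.cast_sub e1]
    rw [abs_le]
    constructor
    · linarith
    · linarith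
  unfold g2K at h
  cases hp : Nat.blt p 4096 with
  | true =>
    rw [hp, cond_true, fQ_eq, fQ_eq, fQ_eq, fQ_eq] at h
    refine G24_pos S hm M.chord hlen hC hph
      (ω := om2 D ((s1 + s2) / 2) ((r1 + r2) / 2) p ρ σ t u) fun c hc => ?_
    have h5 := (allN_iff _ _).1 h c hc
    have h6 : (dg 32 bb (Nat.mul 3 c) * (s2 - (s1 + s2) / 2) + dg 32 bb (Nat.succ (Nat.mul 3 c)) *
        (r2 - (r1 + r2) / 2)) / (7 * D) + dg 32 bb (Nat.add 2 (Nat.mul 3 c)) <
        g2S gqT D ((s1 + s2) / 2) ((r1 + r2) / 2) p c (((List.range m).map ln).reverse) :=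
      Nat.le_of_ble_eq_true h5
    exact g2S_pos hD h6 (hB c hc).1 (hB c hc).2.1 (hB c hc).2.2 (mid k1 k2) (mid k3 k4)
  | false =>
    rw [hp, cond_false] at h
    cases hp2 : Nat.blt p 5120 with
    | true =>
      rw [hp2, cond_true] at h
      exact G24_C hm h0 hb2 M.b_sum hD hd k1 k2 k3 k4 h
    | false =>
      rw [hp2, cond_false] at h
      cases hC1 : Nat.beq C 1 with
      | false =>
        rw [hC1, cond_false] at h
        exact absurd h (by simp)
      | true =>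
        have hC1' : C = 1 := Nat.eq_of_beq_eq_true hC1
        rw [hC1, cond_true, fQ_eq, fQ_eq, fQ_eq, fQ_eq] at h
        rw [hC1'] at hW
        cases hp3 : Nat.blt p 5248 with
        | true =>
          rw [hp3, cond_true] at h
          exact g2Z_sound hm M hW hD hph (Or.inl ⟨rfl, rfl⟩) (mid k1 k2) (mid k3 k4) h
        | false =>
          rw [hp3, cond_false] at h
          exact g2Z_sound hm M hW hD hph (Or.inr ⟨rfl, rfl⟩) (mid k1 k2) (mid k3 k4) h

/-- soundness of the tree -/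
private theorem G24_R {T D C bb : ℕ} {l : List (ℕ × ℕ × ℕ × ℕ)} {t u : ℝ}
    (hK : ∀ s1 s2 r1 r2 p : ℕ, (s1 : ℝ) ≤ 2048 * t → 2048 * t ≤ s2 → (r1 : ℝ) ≤ 2048 * u → 2048 * u ≤ r2 →
      g2K m T D C bb l s1 s2 r1 r2 p = true → False) (fuel : ℕ) :
    ∀ (X s1 s2 r1 r2 : ℕ) (κ : ℕ → Bool), g2R m T D C bb l fuel X s1 s2 r1 r2 κ = true →
      ((s1 : ℝ) ≤ 2048 * t → 2048 * t ≤ s2 → (r1 : ℝ) ≤ 2048 * u → 2048 * u ≤ r2 → False) ∧
        ∃ X' : ℕ, κ X' = true := by
  induction fuel with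
  | zero =>
    intro X s1 s2 r1 r2 κ h
    exact absurd h (by simp [g2R])
  | succ fuel ih =>
    intro X s1 s2 r1 r2 κ h
    have h' : (fQ (Nat.mod X 8192) fun c => fQ (Nat.div X 8192) fun X' =>
      bif Nat.beq c 8191 then fQ (Nat.div (Nat.add s1 s2) 2) fun s =>
        g2R m T D C bb l fuel X' s1 s r1 r2 fun X'' => fQ X'' fun X'' => g2R m T D C bb l fuel X'' s s2 r1 r2 κ
      else bif Nat.beq c 8190 then fQ (Nat.div (Nat.add r1 r2) 2) fun r =>
        g2R m T D C bb l fuel X' s1 s2 r1 r fun X'' => fQ X'' fun X'' => g2R m T D C bb l fuel X'' s1 s2 r r2 κ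
      else bif g2K m T D C bb l s1 s2 r1 r2 c then κ X' else false) = true := h
    rw [fQ_eq, fQ_eq] at h'
    generalize Nat.mod X 8192 = c at h'
    generalize Nat.div X 8192 = X' at h'
    cases h1 : Nat.beq c 8191 with
    | true =>
      rw [h1, cond_true, fQ_eq] at h'
      obtain ⟨a1, X1, a2⟩ := ih _ _ _ _ _ _ h'
      rw [fQ_eq] at a2
      obtain ⟨b1, X2, b2⟩ := ih _ _ _ _ _ _ a2
      refine ⟨fun k1 k2 k3 k4 => ?_, X2, b2⟩
      rcases le_total (2048 * t) ((Nat.div (Nat.add s1 s2) 2 : ℕ) : ℝ) with k | k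
      · exact a1 k1 k k3 k4
      · exact b1 k k2 k3 k4
    | false =>
      rw [h1, cond_false] at h'
      cases h2 : Nat.beq c 8190 with
      | true =>
        rw [h2, cond_true, fQ_eq] at h'
        obtain ⟨a1, X1, a2⟩ := ih _ _ _ _ _ _ h'
        rw [fQ_eq] at a2
        obtain ⟨b1, X2, b2⟩ := ih _ _ _ _ _ _ a2
        refine ⟨fun k1 k2 k3 k4 => ?_, X2, b2⟩
        rcases le_total (2048 * u) ((Nat.div (Nat.add r1 r2) 2 : ℕ) : ℝ) with k | k
        · exact a1 k1 k2 k3 k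
        · exact b1 k1 k2 k k4
      | false =>
        rw [h2, cond_false] at h'
        cases h3 : g2K m T D C bb l s1 s2 r1 r2 c with
        | false =>
          rw [h3, cond_false] at h'
          exact absurd h' (by simp)
        | true =>
          rw [h3, cond_true] at h'
          exact ⟨fun k1 k2 k3 k4 => hK s1 s2 r1 r2 c k1 k2 k3 k4 h3, X', h'⟩

theorem geo2Q_sound (hm : 3 ≤ m) (hm' : m ≤ 8) {w : List ℕ} {P : Polygon n} {S : Arcs P m} {b : ZMod m → ℝ}
    (M : SitU w P S b) {C : ℕ} (hW : gqW m w C = true) {es : List (ℕ × ℕ)} (hes : ∀ e ∈ es, bndQ m e = true)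
    (hx : ∀ e ∈ es, Eqn.Holds (eqnQ m e) b) {D f g al be ga ρ σ bb X : ℕ}
    (h : geo2Q m w C D f g al be ga ρ σ bb X es = true) : False := by
  obtain ⟨w1, w3, hok⟩ := gqW_sound hW
  obtain ⟨b0, b2, hl⟩ := hok M
  have hw : ∀ j < m, w.getD j 0 ∈ w := by
    intro j hj
    rw [List.getD_eq_getElem _ _ (by omega)]
    exact List.getElem_mem _
  unfold geo2Q at h
  rw [g2U_eq, w1] at h
  simp only [Bool.and_eq_true] at h
  obtain ⟨⟨⟨⟨⟨⟨⟨g1, g2⟩, g3⟩, g3'⟩, g4⟩, g5⟩, g6⟩, g7⟩ := h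
  have hD0 : 0 < D := Nat.le_of_ble_eq_true g1
  have hD1 : D < 524288 := Nat.le_of_ble_eq_true g2
  have hf : f < m := Nat.le_of_ble_eq_true g3
  have hg : g < m := Nat.le_of_ble_eq_true g3'
  rw [fQ_eq] at g7
  set ln := lnH w al be ga with hln
  have hbd : ∀ j < m, (ln j).1 < 524288 ∧ (ln j).2.1 < 524288 ∧ (ln j).2.2.1 < 524288 := by
    intro j hj
    rw [List.all_eq_true] at g5
    have h1 := g5 (ln j) (by
      rw [List.mem_reverse, List.mem_map]
      exact ⟨j, List.mem_range.2 hj, rfl⟩)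
    rw [Bool.and_eq_true, Bool.and_eq_true] at h1
    exact ⟨Nat.le_of_ble_eq_true h1.1.1, Nat.le_of_ble_eq_true h1.1.2, Nat.le_of_ble_eq_true h1.2⟩
  obtain ⟨k, hk⟩ : ∃ k, m = k + 2 := ⟨m - 2, by omega⟩
  have hrev : ((List.range m).map ln).reverse = ln (k + 1) :: ((List.range (k + 1)).map ln).reverse := by
    rw [hk, List.range_succ, List.map_append, List.reverse_append]
    rfl
  have hd : ∀ j, 1 ≤ j → j < m → (D : ℝ) * b (j : ZMod m) + (ln j).2.1 * b (f : ZMod m) +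
      (ln j).2.2.1 * b (g : ZMod m) + (ln j).1 =
      D + (ln (j - 1)).1 + (ln (j - 1)).2.1 * b (f : ZMod m) + (ln (j - 1)).2.2.1 * b (g : ZMod m) := by
    intro j hj hj'
    rw [hrev, List.tail_cons, List.headD_cons, show Nat.sub m 1 = k + 1 by
      show m - 1 = k + 1
      omega] at g6
    exact g2D_sound hm' hf hg hD1 ln hbd (by omega) hes hx g6 j hj (by omega)
  have hC : ∀ j < m, (ln j).2.2.2 < C := by
    intro j hj
    exact w3 _ (hw j hj)
  have hB : ∀ c < C, g2B ρ c (((List.range m).map ln).reverse) ≤ dg 32 bb (Nat.mul 3 c) ∧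
      g2G σ c (((List.range m).map ln).reverse) ≤ dg 32 bb (Nat.succ (Nat.mul 3 c)) ∧
      g2N c (((List.range m).map ln).reverse) ≤ dg 32 bb (Nat.add 2 (Nat.mul 3 c)) := by
    intro c hc
    have h1 := (allN_iff _ _).1 g4 c hc
    rw [Bool.and_eq_true, Bool.and_eq_true] at h1
    exact ⟨Nat.le_of_ble_eq_true h1.1.1, Nat.le_of_ble_eq_true h1.1.2, Nat.le_of_ble_eq_true h1.2⟩
  refine (G24_R (m := m) (t := b (f : ZMod m)) (u := b (g : ZMod m)) (fun s1 s2 r1 r2 p k1 k2 k3 k4 h1 => ?_) 30 X 0 4096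
    0 4096 _ g7).1 ?_ ?_ ?_ ?_
  · exact G24_K hm M hW b0 b2 hD0 hl hC hd hB k1 k2 k3 k4 h1
  · have := b0 (f : ZMod m)
    push_cast
    linarith
  · have := b2 (f : ZMod m)
    push_cast
    linarith
  · have := b0 (g : ZMod m)
    push_cast
    linarith
  · have := b2 (g : ZMod m)
    push_cast
    linarith

theorem chkH_sound (hm : 3 ≤ m) (hm' : m ≤ 8) {w : List ℕ} {C : ℕ} (hW : gqW m w C = true)
    {sy : List (Bool × ℕ × List ℕ)}
    (hsy : ∀ g ∈ sy, symT m w g = true) (hsl : ∀ g ∈ sy, g.2.2.length = m)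
    {st : List (ℕ × ℕ × ℕ × ℕ × ℕ × ℕ)} (hst : stQ m w st = true)
    {α : Type} {ck : (ℕ → List Eqn) → ℕ → α → Bool}
    (hck : ∀ (D : ℕ → List Eqn) (i : ℕ) (N : α), (∀ j < i, NodeU m w (D j)) → ck D i N = true →
      NodeU m w (D i))
    {D : ℕ → List (ℕ × ℕ)} (hbd : ∀ i, ∀ e ∈ D i, bndQ m e = true) {i : ℕ}
    (hD : ∀ j < i, NodeU m w ((D j).map (eqnQ m))) {N : QH α}
    (h : chkH ck m w C sy st D i N = true) : NodeU m w ((D i).map (eqnQ m)) := by
  cases N with
  | n N =>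
    intro n P S b M ha hb
    exact chkG_sound hm hm' (gqW_sound hW) hsy hsl hst hck hbd hD (N := N) h P S b M ha hb
  | g2 d f g al be ga ρ σ bb X =>
    have h' : geo2Q m w C d f g al be ga ρ σ bb X (D i) = true := h
    intro n P S b M ha hb
    exact (geo2Q_sound hm hm' M hW (hbd i) (fun e he => hb _ (List.mem_map_of_mem he)) h').elim

omit [NeZero m] in
private theorem G24_nthp {α : Type} {p : α → Prop} {d : α} (hd : p d) {l : List α} (hl : ∀ x ∈ l, p x) (i : ℕ) :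
    p (nthF d l i) := by
  rw [nthF_eq, List.getD_eq_getElem?_getD]
  rcases Nat.lt_or_ge i l.length with h | h
  · rw [List.getElem?_eq_getElem h]
    exact hl _ (List.getElem_mem h)
  · rw [List.getElem?_eq_none h]
    exact hd

omit [NeZero m] in
private theorem G24_bl3 {D : List (List (List (List (ℕ × ℕ))))} (h : allF (allF (allF (allF (bndQ m)))) D = true)
    (i : ℕ) : ∀ e ∈ bl3 [] D i, bndQ m e = true := by
  have h1 : ∀ x ∈ D, ∀ y ∈ x, ∀ z ∈ y, ∀ e ∈ z, bndQ m e = true := by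
    intro x hx y hy z hz e he
    rw [allF_eq, List.all_eq_true] at h
    have h2 := h x hx
    rw [allF_eq, List.all_eq_true] at h2
    have h3 := h2 y hy
    rw [allF_eq, List.all_eq_true] at h3
    have h4 := h3 z hz
    rw [allF_eq, List.all_eq_true] at h4
    exact h4 e he
  unfold bl3
  refine G24_nthp (p := fun z => ∀ e ∈ z, bndQ m e = true) (fun e he => absurd he List.not_mem_nil) ?_ _
  refine G24_nthp (p := fun y => ∀ z ∈ y, ∀ e ∈ z, bndQ m e = true) (fun e he => absurd he List.not_mem_nil) ?_ _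
  exact G24_nthp (p := fun x => ∀ y ∈ x, ∀ z ∈ y, ∀ e ∈ z, bndQ m e = true)
    (fun e he => absurd he List.not_mem_nil) h1 _

omit [NeZero m] in
private theorem G24_allI {α : Type} {g : ℕ → α → Bool} {l : List α} {i0 : ℕ}
    (h : allI g l i0 = true) (j : ℕ) (hj : j < l.length) : g (i0 + j) l[j] = true := by
  induction l generalizing i0 j with
  | nil => exact absurd hj (by simp)
  | cons x l ih =>
    have h' : (bif g i0 x then allI g l (Nat.succ i0) else false) = true := h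
    cases hx : g i0 x
    · rw [hx] at h'
      exact absurd h' (by simp)
    · rw [hx, cond_true] at h'
      cases j with
      | zero => simpa using hx
      | succ j =>
        have h2 := ih h' j (by simpa using hj)
        rw [show i0 + (j + 1) = Nat.succ i0 + j by omega]
        simpa using h2

/-- a certificate with numerical checks proves that the word is solved -/
theorem nodeH_of (hm : 3 ≤ m) (hm' : m ≤ 8) {tt : List TorT} (htt : ∀ T ∈ tt, T.OK m) {w : List ℕ} {C : ℕ}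
    (hW : gqW m w C = true) {sy : List (Bool × ℕ × List ℕ)} {st : List (ℕ × ℕ × ℕ × ℕ × ℕ × ℕ)}
    {D : List (List (List (List (ℕ × ℕ))))} {Ns : List (QH PN)} (h1 : preQ m w sy st D Ns.length = true)
    (h2 : allI (chkH (ckP m tt w sy) m w C sy st (bl3 [] D)) Ns 0 = true) : NodeU m w [] := by
  unfold preQ at h1
  simp only [Bool.and_eq_true, beq_iff_eq, List.all_eq_true, decide_eq_true_eq,
    List.isEmpty_iff] at h1
  obtain ⟨⟨⟨⟨⟨⟨q1, q2⟩, q3⟩, q4⟩, q5⟩, q6⟩, q7⟩ := h1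
  have hbd := G24_bl3 q5
  have key : ∀ i, i < Ns.length → NodeU m w ((bl3 [] D i).map (eqnQ m)) := by
    intro i
    induction i using Nat.strong_induction_on with
    | _ i ih =>
      intro hi
      have h6 := G24_allI h2 i hi
      rw [Nat.zero_add] at h6
      intro n P S b M ha hb
      exact chkH_sound hm hm' hW q2 q3 q4 (ckP_sound hm hm' htt q2) hbd (fun j hj => ih j hj (by omega)) h6 P S b M
        ha hb
  intro n P S b M ha hb
  refine key (Ns.length - 1) (by omega) P S b M ?_ ?_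
  · rw [q7]
    exact ha
  · rw [q7]
    exact hb

end Pool.Agent.Lib_MP_fa6e45
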