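import Pool.Agent.Lib_MP_fa6e45.CH0
import Pool.Agent.Lib_MP_fa6e45.G24

/-!
MP_fa6e45_co, stage 9: linear programming nodes with tables are correct (reduction to the nodes without tables).
-/

namespace Pool.Agent.Lib_MP_fa6e45

private theorem CH1_bif (a b : Bool) : (bif a then b else false) = (a && b) := by
  cases a <;> cases b <;> rfl

private theorem CH1_beq {a b : ℕ} (h : a = b) : Nat.beq a b = true := by
  subst h
  exact Nat.beq_refl a

/-! ### tables -/

private theorem CH1_put {S r cv : ℕ} (h0 : dg 32 S r = 0) (hc : cv < 2 ^ 32) (i : ℕ) :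
    dg 32 (S + cv * 2 ^ (32 * r)) i = if i = r then cv else dg 32 S i := by
  rw [dg_def] at h0
  rw [dg_def, dg_def]
  have hp : ∀ k : ℕ, 0 < 2 ^ k := fun k => Nat.two_pow_pos k
  split
  · rename_i h
    subst h
    rw [Nat.add_mul_div_right _ _ (hp _), Nat.add_mod, h0, Nat.zero_add, Nat.mod_mod, Nat.mod_eq_of_lt hc]
  · rename_i h
    rcases Nat.lt_or_ge i r with h1 | h1
    · obtain ⟨k, rfl⟩ : ∃ k, r = i + (k + 1) := ⟨r - i - 1, by omega⟩
      have e1 : cv * 2 ^ (32 * (i + (k + 1))) = cv * 2 ^ (32 * k) * 2 ^ 32 * 2 ^ (32 * i) := by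
        rw [show 32 * (i + (k + 1)) = 32 * k + 32 + 32 * i by ring, pow_add, pow_add]
        ring
      rw [e1, Nat.add_mul_div_right _ _ (hp _), Nat.add_mul_mod_self_right]
    · obtain ⟨k, rfl⟩ : ∃ k, i = r + 1 + k := ⟨i - r - 1, by omega⟩
      have e1 : (2 : ℕ) ^ (32 * (r + 1 + k)) = 2 ^ (32 * r) * 2 ^ 32 * 2 ^ (32 * k) := by
        rw [show 32 * (r + 1 + k) = 32 * r + 32 + 32 * k by ring, pow_add, pow_add]
      rw [e1, ← Nat.div_div_eq_div_mul, ← Nat.div_div_eq_div_mul, ← Nat.div_div_eq_div_mul,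
        ← Nat.div_div_eq_div_mul, Nat.add_mul_div_right _ _ (hp _)]
      have e2 : (S / 2 ^ (32 * r) + cv) / 2 ^ 32 = S / 2 ^ (32 * r) / 2 ^ 32 := by
        have h3 := Nat.div_add_mod (S / 2 ^ (32 * r)) (2 ^ 32)
        rw [h0, Nat.add_zero] at h3
        generalize S / 2 ^ (32 * r) / 2 ^ 32 = z at h3 ⊢
        rw [← h3, Nat.mul_add_div (hp _), Nat.div_eq_of_lt hc, Nat.add_zero]
      rw [e2]

theorem tabH_sound {p : ℕ} {K : ℕ → Bool} {l : List ℕ} {S : ℕ} {A : List ℕ} (h : tabH p K l S = true)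
    (hS : ∀ i, dg 32 S i = 0 ∨ dg 32 S i ∈ A) :
    ∃ S', K S' = true ∧ ∀ i, dg 32 S' i = 0 ∨ dg 32 S' i ∈ A ∨ dg 32 S' i ∈ l := by
  induction l generalizing S A with
  | nil =>
    refine ⟨S, h, fun i => ?_⟩
    rcases hS i with h1 | h1
    · exact Or.inl h1
    · exact Or.inr (Or.inl h1)
  | cons cv l ih =>
    have h' : (bif Nat.beq (dg 32 S (Nat.mod cv p)) 0 then
      (bif Nat.blt cv 4294967296 then
        tabH p K l (Nat.add S (Nat.mul cv (Nat.pow 2 (Nat.mul 32 (Nat.mod cv p)))))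
      else false) else false) = true := h
    rw [CH1_bif, CH1_bif, Bool.and_eq_true, Bool.and_eq_true] at h'
    obtain ⟨h1, h2, h3⟩ := h'
    have h1' := Nat.eq_of_beq_eq_true h1
    have h2' : cv < 2 ^ 32 := Nat.le_of_ble_eq_true h2
    have h4 := ih (A := cv :: A) h3 (fun i => by
      have e := CH1_put h1' h2' i
      have e' : dg 32 (Nat.add S (Nat.mul cv (Nat.pow 2 (Nat.mul 32 (Nat.mod cv p))))) i =
        if i = Nat.mod cv p then cv else dg 32 S i := e
      rw [e']
      split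
      · exact Or.inr List.mem_cons_self
      · rcases hS i with h5 | h5
        · exact Or.inl h5
        · exact Or.inr (List.mem_cons_of_mem _ h5))
    obtain ⟨S', h5, h6⟩ := h4
    refine ⟨S', h5, fun i => ?_⟩
    rcases h6 i with h7 | h7 | h7
    · exact Or.inl h7
    · rcases List.mem_cons.1 h7 with h8 | h8
      · rw [h8]
        exact Or.inr (Or.inr List.mem_cons_self)
      · exact Or.inr (Or.inl h8)
    · exact Or.inr (Or.inr (List.mem_cons_of_mem _ h7))

private theorem CH1_acc {p S : ℕ} {cvs : List ℕ} (hS : ∀ i, dg 32 S i = 0 ∨ dg 32 S i ∈ cvs) (cnt len : ℕ)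
    (hc : 0 < cnt) (h : accH p S cnt len = true) : accQ cvs cnt len = true := by
  unfold accH at h
  unfold accQ
  cases hl : Nat.ble len 1 with
  | true => rfl
  | false =>
    rw [hl, cond_false] at h
    have h1 := Nat.eq_of_beq_eq_true h
    rw [cond_false, anyF_eq, List.any_eq_true]
    rcases hS (Nat.mod cnt p) with h2 | h2
    · omega
    · rw [h1] at h2
      exact ⟨cnt, h2, CH1_beq rfl⟩

/-! ### the search is monotone -/

private theorem CH1_bits {K : ℕ} {f f' : ℕ → Bool} (hf : ∀ x, f x = true → f' x = true) (n M : ℕ)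
    (h : bitsQ K f n M = true) : bitsQ K f' n M = true := by
  induction n generalizing M with
  | zero => exact h
  | succ n ih =>
    cases M with
    | zero => rfl
    | succ M =>
      have h1 : (bif f (Nat.gcd (Nat.succ M) K) then bitsQ K f n (Nat.sub (Nat.succ M) (Nat.gcd (Nat.succ M) K))
        else false) = true := h
      rw [CH1_bif, Bool.and_eq_true] at h1
      change (bif f' (Nat.gcd (Nat.succ M) K) then bitsQ K f' n (Nat.sub (Nat.succ M) (Nat.gcd (Nat.succ M) K))
        else false) = true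
      rw [CH1_bif, Bool.and_eq_true]
      exact ⟨hf _ h1.1, ih _ h1.2⟩

private theorem CH1_dfs {n W Hc h0 on G ix V U K c0 : ℕ} {acc acc' : ℕ → ℕ → Bool}
    (ha : ∀ cnt len, 0 < cnt → acc cnt len = true → acc' cnt len = true) (fuel cur b cnt len : ℕ)
    (hc : 0 < cnt) (h : dfsQ n W Hc h0 on G ix V U K c0 acc fuel cur b cnt len = true) :
    dfsQ n W Hc h0 on G ix V U K c0 acc' fuel cur b cnt len = true := by
  induction fuel generalizing cur b cnt len with
  | zero => exact absurd h (by simp [dfsQ])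
  | succ fuel ih =>
    cases b with
    | zero => rfl
    | succ k =>
      have h1 : bitsQ K (fun x => fQ (Nat.div x U) fun s => fQ (Nat.mod (Nat.div ix s) V) fun d =>
          bif Nat.beq d c0 then
            (bif fQ cnt (fun cnt => acc cnt len) then
              (bif Nat.ble (Nat.sub (Nat.succ k) (Nat.mod (Nat.div (rwQ W K cur) s) V)) h0 then true else
                dfsQ n W Hc h0 on G ix V U K c0 acc fuel d
                  (Nat.sub (Nat.succ k) (Nat.mod (Nat.div (rwQ W K cur) s) V)) (cntQ cnt d) (Nat.succ len))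
              else false)
          else dfsQ n W Hc h0 on G ix V U K c0 acc fuel d
            (Nat.sub (Nat.succ k) (Nat.mod (Nat.div (rwQ W K cur) s) V)) (cntQ cnt d) (Nat.succ len)) n
          (Nat.land (Nat.sub (Nat.add (Nat.mul k on) G) (Nat.add (rwQ W K cur) Hc)) G) = true := h
      change bitsQ K (fun x => fQ (Nat.div x U) fun s => fQ (Nat.mod (Nat.div ix s) V) fun d =>
          bif Nat.beq d c0 then
            (bif fQ cnt (fun cnt => acc' cnt len) then
              (bif Nat.ble (Nat.sub (Nat.succ k) (Nat.mod (Nat.div (rwQ W K cur) s) V)) h0 then true else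
                dfsQ n W Hc h0 on G ix V U K c0 acc' fuel d
                  (Nat.sub (Nat.succ k) (Nat.mod (Nat.div (rwQ W K cur) s) V)) (cntQ cnt d) (Nat.succ len))
              else false)
          else dfsQ n W Hc h0 on G ix V U K c0 acc' fuel d
            (Nat.sub (Nat.succ k) (Nat.mod (Nat.div (rwQ W K cur) s) V)) (cntQ cnt d) (Nat.succ len)) n
          (Nat.land (Nat.sub (Nat.add (Nat.mul k on) G) (Nat.add (rwQ W K cur) Hc)) G) = true
      refine CH1_bits (fun x hx => ?_) _ _ h1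
      rw [fQ_eq, fQ_eq] at hx ⊢
      have hpos : ∀ d, 0 < cntQ cnt d := fun d => lt_of_lt_of_le hc (Nat.le_add_right _ _)
      generalize Nat.mod (Nat.div ix (Nat.div x U)) V = d at hx ⊢
      cases hd : Nat.beq d c0 with
      | true =>
        rw [hd, cond_true, CH1_bif, Bool.and_eq_true, fQ_eq] at hx
        rw [cond_true, CH1_bif, Bool.and_eq_true, fQ_eq]
        refine ⟨ha _ _ hc hx.1, ?_⟩
        have hx2 := hx.2
        cases hb : Nat.ble (Nat.sub (Nat.succ k) (Nat.mod (Nat.div (rwQ W K cur) (Nat.div x U)) V)) h0 with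
        | true => rfl
        | false =>
          rw [hb, cond_false] at hx2
          rw [cond_false]
          exact ih _ _ _ _ (hpos d) hx2
      | false =>
        rw [hd, cond_false] at hx
        rw [cond_false]
        exact ih _ _ _ _ (hpos d) hx

private theorem CH1_sr {u n L fuel W Hs : ℕ} {acc : ℕ → ℕ → Bool} {cvs : List ℕ} {c : ℕ}
    (ha : ∀ cnt len, 0 < cnt → acc cnt len = true → accQ cvs cnt len = true)
    (h : srH u n L fuel W Hs acc c = true) : srQ u n L fuel W Hs cvs c = true := by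
  have h1 : (bif hbQ u n W Hs (Nat.sub Hs (Nat.mul (dg u Hs c) (Nat.pow 2 (Nat.mul u c)))) (onQ u n)
      (Nat.mul (Nat.pow 2 (Nat.sub u 1)) (onQ u n)) (Nat.pow 2 (Nat.mul u n)) c then
      dfsQ n W (Nat.sub Hs (Nat.mul (dg u Hs c) (Nat.pow 2 (Nat.mul u c)))) (dg u Hs c) (onQ u n)
        (Nat.mul (Nat.pow 2 (Nat.sub u 1)) (onQ u n)) (ixQ u n) (Nat.pow 2 u) (Nat.pow 2 (Nat.sub u 1))
        (Nat.pow 2 (Nat.mul u n)) c acc fuel c L (Nat.pow 16 (Nat.div c 2)) 1 else false) = true := h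
  rw [CH1_bif, Bool.and_eq_true] at h1
  change (bif hbQ u n W Hs (Nat.sub Hs (Nat.mul (dg u Hs c) (Nat.pow 2 (Nat.mul u c)))) (onQ u n)
      (Nat.mul (Nat.pow 2 (Nat.sub u 1)) (onQ u n)) (Nat.pow 2 (Nat.mul u n)) c then
      dfsQ n W (Nat.sub Hs (Nat.mul (dg u Hs c) (Nat.pow 2 (Nat.mul u c)))) (dg u Hs c) (onQ u n)
        (Nat.mul (Nat.pow 2 (Nat.sub u 1)) (onQ u n)) (ixQ u n) (Nat.pow 2 u) (Nat.pow 2 (Nat.sub u 1))
        (Nat.pow 2 (Nat.mul u n)) c (accQ cvs) fuel c L (Nat.pow 16 (Nat.div c 2)) 1 else false) = true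
  rw [CH1_bif, Bool.and_eq_true]
  exact ⟨h1.1, CH1_dfs ha _ _ _ _ _ (Nat.pow_pos (by norm_num)) h1.2⟩

theorem lpH_lpK {m : ℕ} {st : List (ℕ × ℕ × ℕ × ℕ × ℕ × ℕ)} {u L fuel al be W H p : ℕ}
    {cvg : List (List ℕ)} (h : lpH m st u L fuel al be W H p cvg = true) :
    lpK m st u L fuel al be W H cvg = true := by
  unfold lpH at h
  unfold lpK
  rw [Bool.and_eq_true] at h ⊢
  refine ⟨h.1, ?_⟩
  rw [allN_iff]
  intro c hc
  have h2 := (allN_iff _ _).1 h.2 (c / 2) (by
    have : c < 2 * m := hc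
    omega)
  obtain ⟨S, h3, h4⟩ := tabH_sound (A := []) h2 (fun i => Or.inl (by
    rw [dg_def, Nat.zero_div, Nat.zero_mod]))
  have h5 : ∀ i, dg 32 S i = 0 ∨ dg 32 S i ∈ nthF [] cvg (Nat.div c 2) := by
    intro i
    rcases h4 i with h6 | h6 | h6
    · exact Or.inl h6
    · exact absurd h6 List.not_mem_nil
    · exact Or.inr h6
  have ha := CH1_acc (p := p) h5
  rw [CH1_bif, Bool.and_eq_true] at h3
  rcases Nat.mod_two_eq_zero_or_one c with h7 | h7
  · have e : Nat.mul 2 (c / 2) = c := by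
      change 2 * (c / 2) = c
      omega
    rw [e] at h3
    exact CH1_sr ha h3.1
  · have e : Nat.succ (Nat.mul 2 (c / 2)) = c := by
      change 2 * (c / 2) + 1 = c
      omega
    rw [e] at h3
    exact CH1_sr ha h3.2

/-! ### certificates -/

/-- the node without the table -/
def QI.toH {α : Type} : QI α → QH α
  | QI.l u L fuel al be W H q _ cvg ch => QH.n (QG.q (QN.lp u L fuel al be W H q cvg ch))
  | QI.h N => N

variable {m : ℕ} [NeZero m]

theorem chkI_chkH {α : Type} {ck : (ℕ → List Eqn) → ℕ → α → Bool} {w : List ℕ} {C : ℕ}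
    {sy : List (Bool × ℕ × List ℕ)} {st : List (ℕ × ℕ × ℕ × ℕ × ℕ × ℕ)} {D : ℕ → List (ℕ × ℕ)} {i : ℕ}
    {N : QI α} (h : chkI ck m w C sy st D i N = true) : chkH ck m w C sy st D i N.toH = true := by
  cases N with
  | h N => exact h
  | l u L fuel al be W H q p cvg ch =>
    have h' : (lpH m st u L fuel al be W H p cvg && Nat.ble q 20 && Nat.blt (D i).length 13 &&
          chQ m q sy D i (eq0Q m :: D i) cvg.flatten ch) = true := h
    change (lpK m st u L fuel al be W H cvg && Nat.ble q 20 && Nat.blt (D i).length 13 &&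
          chQ m q sy D i (eq0Q m :: D i) cvg.flatten ch) = true
    simp only [Bool.and_eq_true] at h' ⊢
    exact ⟨⟨⟨lpH_lpK h'.1.1.1, h'.1.1.2⟩, h'.1.2⟩, h'.2⟩

private theorem CH1_allI {α β : Type} {f : α → β} {g : ℕ → α → Bool} {g' : ℕ → β → Bool}
    (hg : ∀ i x, g i x = true → g' i (f x) = true) {l : List α} {i : ℕ} (h : allI g l i = true) :
    allI g' (l.map f) i = true := by
  induction l generalizing i with
  | nil => rfl
  | cons x l ih =>
    have h' : (bif g i x then allI g l (Nat.succ i) else false) = true := h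
    rw [CH1_bif, Bool.and_eq_true] at h'
    change (bif g' i (f x) then allI g' (l.map f) (Nat.succ i) else false) = true
    rw [CH1_bif, Bool.and_eq_true]
    exact ⟨hg _ _ h'.1, ih h'.2⟩

/-- a certificate with tables proves that the word is solved -/
theorem nodeI_of (hm : 3 ≤ m) (hm' : m ≤ 8) {tt : List TorT} (htt : ∀ T ∈ tt, T.OK m) {w : List ℕ} {C : ℕ}
    (hW : gqW m w C = true) {sy : List (Bool × ℕ × List ℕ)} {st : List (ℕ × ℕ × ℕ × ℕ × ℕ × ℕ)}
    {D : List (List (List (List (ℕ × ℕ))))} {Ns : List (QI PN)} (h1 : preQ m w sy st D Ns.length = true)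
    (h2 : allI (chkI (ckP m tt w sy) m w C sy st (bl3 [] D)) Ns 0 = true) : NodeU m w [] :=
  nodeH_of hm hm' htt hW (Ns := Ns.map QI.toH) (by rw [List.length_map]; exact h1)
    (CH1_allI (fun _ _ h => chkI_chkH h) h2)

end Pool.Agent.Lib_MP_fa6e45
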