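import Pool.Agent.Lib_MP_fa6e45.CU0

/-!
MP_fa6e45_co, stage 7 (nodes `lpX`, `geoE` for the theorem T6): definitions.

`lpX`: as the linear programming nodes with good stars, but here every tile has a tile at distance at most `r` (steps
across sides) with a corner whose star is not good. `geoE`: all arcs congruent, the equations leave one free angle `t`;
the closing relation of the chords holds only for the listed rational values of `t`, each of them is impossible or leads
to an earlier node.
-/

open Set MeasureTheory Complex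
open scoped Topology

namespace Pool.Agent.Lib_MP_fa6e45

variable {m : ℕ} [NeZero m]

/-! ### patches of tiles with good corners -/

/-- tables for the rotated words of the good stars (lists in blocks of 12, see `blkF`): the words, number of the word
without its first letter (which becomes the last one), number of the word with the last letter moved to the front,
numbers of the words which may occur at the corner before on the same tile -/
structure PTab where
  ws : List (List (List ℕ))
  L : List (List ℕ)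
  R : List (List ℕ)
  nx : List (List (List ℕ))
  len : ℕ

/-- rotation of a word -/
def rotX (w : List ℕ) (k : ℕ) : List ℕ := w.drop k ++ w.take k

/-- the tables are correct -/
noncomputable def ptabB (m : ℕ) (GS : List (List ℕ)) (T : PTab) : Bool :=
  (GS.all fun u => (List.range u.length).all fun k => (List.range T.len).any fun i =>
    blkF [] T.ws i == rotX u k) &&
  ((List.range T.len).all fun i =>
    decide (2 ≤ (blkF [] T.ws i).length) && decide (blkF 0 T.L i < T.len) && decide (blkF 0 T.R i < T.len) &&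
    (blkF [] T.ws (blkF 0 T.L i) == rotX (blkF [] T.ws i) 1) &&
    (blkF [] T.ws (blkF 0 T.R i) == rotX (blkF [] T.ws i) ((blkF [] T.ws i).length - 1))) &&
  allF (fun i => allF (fun j =>
    bif Nat.beq (nthF 0 (blkF [] T.ws j) 0) (bwC m (nthF 0 (blkF [] T.ws i) 0)) then
      (bif Nat.beq (nthF 0 (blkF [] T.ws j) ((blkF [] T.ws j).length - 1)) (fwC m (nthF 0 (blkF [] T.ws i) 1))
        then anyF (Nat.beq j) (blkF [] T.nx i) else true) else true) (List.range T.len)) (List.range T.len)

/-- `exN ok nx n first cur`: there are words at the next `n` corners (going backwards around the tile), all pairs of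
neighbours satisfy `ok`, after the last one `first` may follow -/
noncomputable def exN (ok : ℕ → ℕ → Bool) (nx : ℕ → List ℕ) (first : ℕ) : ℕ → ℕ → Bool :=
  Nat.rec (motive := fun _ => ℕ → Bool)
    (fun cur => bif anyF (Nat.beq first) (nx cur) then ok cur first else false)
    (fun _ ih cur => anyF (fun U => bif ok cur U then ih U else false) (nx cur))

/-- the words `i`, `j` at a corner and at the corner before may occur if all tiles at distance less than `r` from the
neighbour tile have only good corners -/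
noncomputable def okR (m : ℕ) (T : PTab) : ℕ → ℕ → ℕ → Bool :=
  Nat.rec (motive := fun _ => ℕ → ℕ → Bool) (fun _ _ => true)
    (fun _ ih i j => exN ih (blkF [] T.nx) (blkF 0 T.R j) (m - 2) (blkF 0 T.L i))

/-- every tile has a tile at distance at most `r` with a corner whose star is not in `GS` -/
noncomputable def noPatch (m : ℕ) (GS : List (List ℕ)) (T : PTab) (r : ℕ) : Bool :=
  ptabB m GS T && allF (fun i => bif Nat.ble 2 (nthF 0 (blkF [] T.ws i) 0) then true else
    !(exN (okR m T r) (blkF [] T.nx) i (m - 1) i)) (List.range T.len)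

/-- code of a corner -/
def CombU.cd {a : ZMod m → ℝ} {G : ZMod m → ZMod m → Bool → Prop} {ι : Type} (K : CombU m a G ι)
    (c : ι × ZMod m) : ℕ := code ((c.2, K.rf c.1) : ZMod m × Bool)

/-- word of the star of `c`, from `c` on -/
noncomputable def CombU.word {a : ZMod m → ℝ} {G : ZMod m → ZMod m → Bool → Prop} {ι : Type}
    (K : CombU m a G ι) (c : ι × ZMod m) : List ℕ :=
  (List.range (Function.minimalPeriod K.nx c)).map fun k => K.cd (K.nx^[k] c)

/-- the star of `c` is good -/
def CombU.good {a : ZMod m → ℝ} {G : ZMod m → ZMod m → Bool → Prop} {ι : Type} (K : CombU m a G ι)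
    (GS : List (List ℕ)) (c : ι × ZMod m) : Prop := ∃ k, K.word (K.nx^[k] c) ∈ GS

/-- the tiles at distance at most `r` (steps across sides) from a tile with a corner which is not good -/
def CombU.Bad {a : ZMod m → ℝ} {G : ZMod m → ZMod m → Bool → Prop} {ι : Type} (K : CombU m a G ι)
    (GS : List (List ℕ)) : ℕ → Set ι
  | 0 => {t | ∃ i, ¬ K.good GS (t, i)}
  | r + 1 => {t | t ∈ K.Bad GS r ∨ ∃ i, (K.nx (t, i)).1 ∈ K.Bad GS r}

/-- the principle for walks with good stars, see `WU` (which is the case `r = 0`) -/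
def WX {m : ℕ} [NeZero m] (a b : ZMod m → ℝ) (G : ZMod m → ZMod m → Bool → Prop) : Prop :=
  ∀ (GS : List (List ℕ)) (T : PTab) (r : ℕ), noPatch m GS T r = true →
    ∀ (v : ZMod m → ℤ) (A : ZMod m × Bool → ZMod m × Bool → ℤ), (∀ x y, A y x = -A x y) →
      ∀ L ω : ℤ, 0 ≤ ω → 2 * ∑ i, v i + 2 * ((m : ℤ) * (((m : ℤ) + 1) ^ r * ω) - ω) < ((m : ℤ) - 2) * L →
        ∃ (c : ZMod m × Bool) (l : List (ZMod m × Bool)), (∀ x ∈ l, code c ≤ code x) ∧
          Pth (StepG G) c l c ∧ 1 ≤ l.length ∧ a c.1 + (l.map fun x => a x.1).sum = 2 ∧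
          b c.1 + (l.map fun x => b x.1).sum = 2 ∧ pcost (stepCost v A) c l c < L ∧
          ((c :: l).map code ∈ GS →
            pcost (stepCost v A) c l c + ((m : ℤ) + 1) ^ r * ω * ((l.length : ℤ) + 1) < L)

/-- the linear programming node is correct, see `lpU` -/
noncomputable def lpX (m : ℕ) (w v φ : List ℕ) (V0 : ℕ) (Am : List (List ℕ)) (L fuel : ℕ)
    (rows : List (List (ℕ × ℕ))) (GS : List (List ℕ)) (T : PTab) (r ω ρ : ℕ) (cvs : List (List ℕ)) : Bool :=
  Nat.blt (Nat.add (Nat.mul 2 v.sum) (Nat.mul (Nat.mul 2 m) ρ))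
    (Nat.add (Nat.add (Nat.mul (Nat.sub m 2) L) (Nat.mul (Nat.mul 2 m) V0)) (Nat.mul 2 ω)) &&
  Nat.beq ρ (Nat.mul (Nat.pow (Nat.succ m) r) ω) &&
  noPatch m GS T r && (allF (fun u => allF (fun x => Nat.ble x 15) u) GS) &&
  Nat.ble fuel 15 && Nat.beq v.length m &&
  (allF (fun r => srtF r 0) rows) &&
  (allF (fun cv => bif Nat.beq cv.length m then allF (fun x => Nat.ble x 15) cv else false) cvs) &&
  (allF (fun c => allF (stepR m w v φ V0 Am L rows c) (List.range (2 * m))) (List.range (2 * m))) &&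
  allF (fun c => dfsR rows L (accU (GS.map wdF) ρ L (cvs.map encF)) c fuel c 0
    (Nat.pow 16 (Nat.div c 2)) (Nat.add 16 c) 1) (List.range (2 * m))

/-! ### the closing relation -/

/-- `q` times the number `α + β p / q` of the direction `x` -/
def vnum (ds : List (ℤ × ℤ)) (p q : ℤ) (x : ℕ) : ℤ := (ds.getD x (0, 0)).1 * q + (ds.getD x (0, 0)).2 * p

/-- the directions number `i`, ..., `i + k - 1` (`(α, β)` stands for the angle `π (α + β p / q) / D`) come in groups of
equally spaced directions: in a group `[x 0, ..., x (l - 1)]` the direction `x j` is the direction `x 0` turned by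
`2 π j / l` -/
def vanB (D : ℤ) (ds : List (ℤ × ℤ)) (p q : ℤ) (i k : ℕ) (gr : List (List ℕ)) : Bool :=
  (gr.all fun g => decide (2 ≤ g.length) && (List.range g.length).all fun j =>
    ((g.length : ℤ) * (vnum ds p q (g.getD j 0) - vnum ds p q (g.getD 0 0)) - 2 * (j : ℤ) * (D * q)) %
      (2 * (g.length : ℤ) * (D * q)) == 0) &&
  gr.flatten.length == k && (List.range k).all fun j => gr.flatten.contains (i + j)

/-- approximations and errors (scaled by `2 ^ 30`) at the parameter `t` with `|t - s / 2 ^ 20| ≤ 1 / 2 ^ 20` for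
`V = ∑ exp (i φ j)` and `Y = ∑ β j exp (i φ j)`, and `Q = ∑ (β j) ^ 2`: `((V, Y), (error of V, error of Y, Q))` -/
def gvy (D : ℤ) (ds : List (ℤ × ℤ)) (s : ℤ) : ((ℤ × ℤ) × (ℤ × ℤ)) × (ℤ × ℤ × ℤ) :=
  ds.foldl (fun (x : ((ℤ × ℤ) × (ℤ × ℤ)) × (ℤ × ℤ × ℤ)) (d : ℤ × ℤ) =>
    (fun (z : (ℤ × ℤ) × ℤ) => (((x.1.1.1 + z.1.1, x.1.1.2 + z.1.2), (x.1.2.1 + d.2 * z.1.1, x.1.2.2 + d.2 * z.1.2)),
      (x.2.1 + z.2, x.2.2.1 + |d.2| * z.2, x.2.2.2 + d.2 * d.2))) (gdir D s 1 d)) (((0, 0), (0, 0)), (0, 0, 0))

/-- test for the parameters between `s1 / 2 ^ 20` and `s2 / 2 ^ 20`: the sum of the directions is not `0`, because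
`V + i (π (t - s) / D) Y + (second order term)` is not `0` (`s` the middle). `S2 = 2 ^ 30 R` with
`R = (π h / D) ^ 2 Q / 2`; first test `|V| > (π h / D) |Y| + R`, with `|Y| ≤ |Re Y| + |Im Y|`; second test
`|Re (V conj Y)| > R |Y|` -/
def gtay (D : ℤ) (ds : List (ℤ × ℤ)) (s1 s2 : ℤ) : Bool :=
  (fun (s hh : ℤ) => (fun (x : ((ℤ × ℤ) × (ℤ × ℤ)) × (ℤ × ℤ × ℤ)) =>
    (fun (A R c : ℤ) =>
      (fun B => decide (0 ≤ B) && decide (B * B < x.1.1.1 * x.1.1.1 + x.1.1.2 * x.1.1.2))
        (22 * hh * (A + x.2.2.1) / (7 * D * 1048576) + 1 + R + x.2.1) ||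
      (decide (0 ≤ c) && decide (R * R * (x.1.2.1 * x.1.2.1 + x.1.2.2 * x.1.2.2) < c * c)))
      (|x.1.2.1| + |x.1.2.2|) (484 * hh * hh * x.2.2.2 / (100352 * D * D) + 1)
      (|x.1.1.1 * x.1.2.1 + x.1.1.2 * x.1.2.2| - ((484 * hh * hh * x.2.2.2 / (100352 * D * D) + 1) * x.2.2.1 +
        (|x.1.1.1| + |x.1.1.2| + x.2.1) * x.2.2.1 + x.2.1 * (|x.1.2.1| + |x.1.2.2| + x.2.2.1))))
    (gvy D ds s)) ((s1 + s2) / 2) ((s2 - s1) / 2 + 2)

/-- for the parameters between `s1 / 2 ^ 20` and `s2 / 2 ^ 20` the sum of the directions is not `0`, except possibly at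
`p / q` (where it is `0`): estimate of the derivative -/
def gloc (D : ℤ) (ds : List (ℤ × ℤ)) (p q s1 s2 : ℤ) : Bool :=
  (fun (hh : ℤ) (x : ((ℤ × ℤ) × (ℤ × ℤ)) × (ℤ × ℤ × ℤ)) =>
    (fun R => decide (R * R < (14 * D) * (14 * D) * (x.1.2.1 * x.1.2.1 + x.1.2.2 * x.1.2.2)))
      (hh * 22 * x.2.2.2 * 1024 + 14 * D * x.2.2.1))
    (max |s1 * q - p * 1048576| |s2 * q - p * 1048576| / q + 1) (gvy D ds (p * 1048576 / q))

/-- for the parameters between `s1 / 2 ^ 20` and `s2 / 2 ^ 20` some angle is not between `0` and `2 π` -/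
def gbnd (D : ℤ) (lin : List (ℤ × ℤ)) (s1 s2 : ℤ) : Bool :=
  lin.any fun c => (decide (c.1 * 1048576 + c.2 * s1 ≤ 0) && decide (c.1 * 1048576 + c.2 * s2 ≤ 0)) ||
    (decide (2 * D * 1048576 ≤ c.1 * 1048576 + c.2 * s1) &&
      decide (2 * D * 1048576 ≤ c.1 * 1048576 + c.2 * s2))

/-- check of the tree `tr` (list of instructions: `0`: angle bounds, `1`: Taylor test, `2 + k`: exceptional parameter
number `k`; `T` splits the interval) for the interval -/
inductive GT
  | l (k : ℕ)
  | s (a b : GT)

/-- the sum of the directions is not `0` between `s1 / 2 ^ 20` and `s2 / 2 ^ 20`, except at the points of `pts` -/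
def gtree (D : ℤ) (lin ds : List (ℤ × ℤ)) (pts : List (ℤ × ℤ)) : GT → ℤ → ℤ → Bool
  | GT.l k, s1, s2 => match k with
    | 0 => gbnd D lin s1 s2
    | 1 => gtay D ds s1 s2
    | k + 2 => match pts[k]? with
      | none => false
      | some x => gloc D ds x.1 x.2 s1 s2
  | GT.s a b, s1, s2 => gtree D lin ds pts a s1 ((s1 + s2) / 2) && gtree D lin ds pts b ((s1 + s2) / 2) s2

/-- what happens at an exceptional parameter: the angle at corner `j` is not between `0` and `2 π`; the chords number
`i`, ..., `i + k - 1` have sum `0`; reference to an earlier node -/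
inductive GK
  | bnd (j : ℕ)
  | sub (i k : ℕ) (gr : List (List ℕ))
  | child (c : HCf)

/-- exceptional parameter `p / q`; `gr` are the groups of directions, see `vanB` -/
structure GPt where
  p : ℤ
  q : ℤ
  gr : List (List ℕ)
  kind : GK

/-- the exceptional parameter is treated correctly -/
noncomputable def gptB (m : ℕ) (sy : List (Bool × ℕ × List ℕ)) (D : ℕ → List Eqn) (i : ℕ) (eqs : List Eqn)
    (bd : Bool) (d : ℤ) (f : ℕ) (lin ds : List (ℤ × ℤ)) (x : GPt) : Bool :=
  decide (0 < x.q) && vanB d ds x.p x.q 0 m x.gr &&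
  (match x.kind with
    | GK.bnd j => bd && decide (j < m) &&
        (decide ((lin.getD j (0, 0)).1 * x.q + (lin.getD j (0, 0)).2 * x.p ≤ 0) ||
          decide (2 * (d * x.q) ≤ (lin.getD j (0, 0)).1 * x.q + (lin.getD j (0, 0)).2 * x.p))
    | GK.sub i k gr => decide (0 < k) && decide (k < m) && decide (i + k ≤ m) && vanB d ds x.p x.q i k gr
    | GK.child c => bd && (match c with
        | HCf.contra ls => contraB m (((List.range m).map fun j => if j = f then x.q else 0, x.p) :: eqs) ls
        | HCf.ref idx g cs => Nat.blt idx i && Nat.blt g sy.length &&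
            derG m (((List.range m).map fun j => if j = f then x.q else 0, x.p) :: eqs)
              (fun y => nthF 0 (nthF (false, 0, []) sy g).2.2 y) (D idx) cs))

/-- all arcs are congruent -/
noncomputable def clsB (m : ℕ) (w : List ℕ) : Bool :=
  (List.range m).all fun j => (List.range m).any fun k =>
    (okL (nthF 0 w 0) (nthF 0 w k) true || okL (nthF 0 w 0) (nthF 0 w k) false || k == 0) &&
      (okL (nthF 0 w k) (nthF 0 w j) true || okL (nthF 0 w k) (nthF 0 w j) false || k == j)

/-- the numerical check; the parameters outside of `[s1, s2] / 2 ^ 20` are excluded by the bounds for the angles -/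
noncomputable def geoE (m : ℕ) (w : List ℕ) (eqs : List Eqn) (bd : Bool) (d : ℤ) (f : ℕ)
    (lin : List (ℤ × ℤ)) (cs : List (ℤ × List ℤ)) (s1 s2 : ℤ) (tr : GT) (pts : List GPt) : Bool :=
  decide (0 < d) && decide (f < m) && lin.length == m && gder m eqs d f lin cs &&
    (if bd then pluB m w && (s1 == 0 || gbnd d lin 0 s1) && (s2 == 2097152 || gbnd d lin s2 2097152) else
      clsB m w && ((gdirs d lin).all fun x => x.2 % d == 0) && s1 == 0 && s2 == 2097152) &&
    gtree d (if bd then lin else []) (gdirs d lin) (pts.map fun x => (x.p, x.q)) tr s1 s2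

/-! ### nodes -/

/-- nodes of a certificate -/
inductive XN
  | old (N : TN)
  | lp (v φ : List ℕ) (V0 : ℕ) (Am : List (List ℕ)) (L fuel : ℕ) (rows : List (List (ℕ × ℕ)))
      (GS : List (List ℕ)) (T : PTab) (r ω ρ : ℕ) (cvs : List (List ℕ)) (ch : List HCf)
  | geo (bd : Bool) (d : ℤ) (f : ℕ) (lin : List (ℤ × ℤ)) (cs : List (ℤ × List ℤ)) (s1 s2 : ℤ)
      (tr : GT) (pts : List GPt)

/-- check of node `i` -/
noncomputable def chkX (m : ℕ) [NeZero m] (w : List ℕ) (tt : List TorT) (sy : List (Bool × ℕ × List ℕ))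
    (D : ℕ → List Eqn) (i : ℕ) (N : XN) : Bool :=
  match N with
    | XN.old N => chkU m w tt sy D i N
    | XN.lp v φ V0 Am L fuel rows GS T r ω ρ cvs ch =>
        lpX m w v φ V0 Am L fuel rows GS T r ω ρ cvs && chF m sy D i (D i ++ eqs0 m []) cvs ch
    | XN.geo bd d f lin cs s1 s2 tr pts =>
        geoE m w (D i ++ eqs0 m []) bd d f lin cs s1 s2 tr pts &&
          pts.all (gptB m sy D i (D i ++ eqs0 m []) bd d f lin (gdirs d lin))

/-- certificate for a word -/
structure CertX where
  w : List ℕ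
  sy : List (Bool × ℕ × List ℕ)
  D : List (List (List Eqn))
  Ns : List XN

/-- check of a certificate -/
noncomputable def chkE (m : ℕ) [NeZero m] (tt : List TorT) (C : CertX) : Bool :=
  (C.w == decW m (encW C.w)) && C.sy.all (symT m C.w) && decide (0 < C.Ns.length) &&
    (blkF [] C.D (C.Ns.length - 1)).isEmpty && allI (chkX m C.w tt C.sy (blkF [] C.D)) C.Ns 0

end Pool.Agent.Lib_MP_fa6e45
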