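import Pool.Agent.Lib_MP_fa6e45.CH0
import Pool.Agent.Lib_MP_fa6e45.CX0

/-!
MP_fa6e45_co, stage 9: linear programming nodes with good stars (see CX0) in the fast format.

The search keeps the word of the walk; a closed walk is accepted if its numbers of corners are in the table, or if its
word is good and the cost is large enough. The tables of the rotated words are checked with buckets.
-/

namespace Pool.Agent.Lib_MP_fa6e45

/-- as `dfsQ`, with the word of the walk (in base `16`, after a digit `1`); arguments after the fuel: code, remaining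
budget, numbers of corners, word, length; `acc` gets the numbers of corners, the word, the rest of the budget and the
length -/
noncomputable def dfsJ (n W Hc h0 on G ix V U K c0 : ℕ) (acc : ℕ → ℕ → ℕ → ℕ → Bool) (fuel : ℕ) :
    ℕ → ℕ → ℕ → ℕ → ℕ → Bool :=
  Nat.rec (motive := fun _ => ℕ → ℕ → ℕ → ℕ → ℕ → Bool) (fun _ _ _ _ _ => false)
    (fun _ ih cur b cnt wd len =>
      Nat.rec (motive := fun _ => Bool) true (fun k _ => fQ (rwQ W K cur) fun R =>
        bitsQ K (fun x => fQ (Nat.div x U) fun s => fQ (Nat.mod (Nat.div ix s) V) fun d =>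
          bif Nat.beq d c0 then
            (bif acc cnt wd (Nat.sub (Nat.succ k) (Nat.mod (Nat.div R s) V)) len then
              (bif Nat.ble (Nat.sub (Nat.succ k) (Nat.mod (Nat.div R s) V)) h0 then true else
                ih d (Nat.sub (Nat.succ k) (Nat.mod (Nat.div R s) V)) (cntQ cnt d) (Nat.add (Nat.mul 16 wd) d)
                  (Nat.succ len)) else false)
          else ih d (Nat.sub (Nat.succ k) (Nat.mod (Nat.div R s) V)) (cntQ cnt d) (Nat.add (Nat.mul 16 wd) d)
            (Nat.succ len)) n
          (Nat.land (Nat.sub (Nat.add (Nat.mul k on) G) (Nat.add R Hc)) G)) b) fuel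

/-- accepted closed walks: one corner, numbers of corners in the table, or a good word and `b ≤ ρ len` -/
noncomputable def accJ (p S ρ : ℕ) (Gn : List ℕ) (cnt wd b len : ℕ) : Bool :=
  bif Nat.ble len 1 then true else
    bif fQ cnt (fun cnt => Nat.beq (dg 32 S (Nat.mod cnt p)) cnt) then true else
      bif Nat.ble b (Nat.mul ρ len) then fQ wd (fun wd => anyF (Nat.beq wd) Gn) else false

/-- search for closed walks from `c` -/
noncomputable def srJ (u n L fuel W Hs : ℕ) (acc : ℕ → ℕ → ℕ → ℕ → Bool) (c : ℕ) : Bool :=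
  fQ n fun n => fQ Hs fun Hs => fQ (dg u Hs c) fun h0 => fQ (Nat.sub Hs (Nat.mul h0 (Nat.pow 2 (Nat.mul u c)))) fun Hc =>
  fQ (Nat.pow 2 (Nat.mul u n)) fun K => fQ (onQ u n) fun on => fQ (Nat.pow 2 (Nat.sub u 1)) fun U =>
  fQ (Nat.mul U on) fun G => fQ (Nat.pow 2 u) fun V => fQ (ixQ u n) fun ix =>
    bif hbQ u n W Hs Hc on G K c then
      dfsJ n W Hc h0 on G ix V U K c acc fuel c L (Nat.pow 16 (Nat.div c 2)) (Nat.add 16 c) 1 else false

/-- the weights are right, see `wtQ` -/
noncomputable def wtJ (m L al be ω ρ : ℕ) : Bool :=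
  Nat.blt (Nat.add (sumQ al (Nat.mul 2 m)) (Nat.mul (Nat.mul 2 m) ρ))
    (Nat.add (Nat.add (Nat.mul (Nat.sub m 2) L) (sumQ be (Nat.mul 2 m))) (Nat.mul 2 ω)) &&
  allN (fun i => Nat.beq (Nat.add (dg 32 al (Nat.mul 2 i)) (dg 32 be (Nat.succ (Nat.mul 2 i))))
    (Nat.add (dg 32 al (Nat.succ (Nat.mul 2 i))) (dg 32 be (Nat.mul 2 i)))) m

/-- every good word is in the table, the numbers are given in `Ix` -/
noncomputable def gsJ (T : PTab) : List (List ℕ) → List ℕ → Bool :=
  List.rec (motive := fun _ => List ℕ → Bool) (fun _ => true)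
    (fun u _ ih ls => List.rec (motive := fun _ => Bool) false
      (fun i ls' _ => bif Nat.blt i T.len then (bif blkF [] T.ws i == u then ih ls' else false) else false) ls)

/-- the tables are right for the word number `i`; `Bk` are the numbers of the words, according to the first and the
last letter -/
noncomputable def ptJ (m : ℕ) (T : PTab) (Bk : List (List (List ℕ))) (i : ℕ) : Bool :=
  (fun w : List ℕ => decide (2 ≤ w.length) && decide (blkF 0 T.L i < T.len) && decide (blkF 0 T.R i < T.len) &&
    (blkF [] T.ws (blkF 0 T.L i) == rotX w 1) && (blkF [] T.ws (blkF 0 T.R i) == rotX w (w.length - 1)) &&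
    anyF (Nat.beq i) (nthF [] (nthF [] Bk (nthF 0 w 0)) (nthF 0 w (w.length - 1))) &&
    (blkF [] T.nx i == nthF [] (nthF [] Bk (bwC m (nthF 0 w 0))) (fwC m (nthF 0 w 1)))) (blkF [] T.ws i)

/-- `k` for the element of the list and the rest, `x` is divided by `B` as often as possible -/
noncomputable def selK {α : Type} (B : ℕ) (k : α → ℕ → ℕ) : List α → ℕ → ℕ :=
  List.rec (motive := fun _ => ℕ → ℕ) (fun _ => 0)
    (fun b _ ih x => bif Nat.blt x B then k b x else ih (Nat.div x B))

/-- for `x = 2 ^ i`: element number `i` of a list in blocks of blocks of `9` -/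
noncomputable def rowX (l : List (List (List ℕ))) (x : ℕ) : ℕ :=
  selK 2417851639229258349412352 (fun b x => selK 512 (fun c x => selK 2 (fun r _ => r) c x) b x) l x

/-- element number `i` of a list in blocks of blocks of `9` -/
noncomputable def rowK (l : List (List (List ℕ))) (i : ℕ) : ℕ := rowX l (Nat.pow 2 i)

/-- bit number `j` of `A` -/
noncomputable def bitK (A j : ℕ) : Bool := Nat.beq (Nat.mod (Nat.div A (Nat.pow 2 j)) 2) 1

/-- `k` for the union of the sets `row (2 ^ c)`, `c ∈ S` (sets are bitmasks, `K` is a power of two), and of the last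
argument -/
noncomputable def orK (row : ℕ → ℕ) (K : ℕ) (k : ℕ → Bool) (fuel : ℕ) : ℕ → ℕ → Bool :=
  Nat.rec (motive := fun _ => ℕ → ℕ → Bool) (fun S acc => bif Nat.beq S 0 then k acc else false)
    (fun _ ih S acc => Nat.rec (motive := fun _ => Bool) (k acc) (fun S' _ =>
      fQ (Nat.gcd (Nat.succ S') K) fun x => fQ (Nat.lor acc (row x)) fun acc' =>
        fQ (Nat.sub (Nat.succ S') x) fun S'' => ih S'' acc') S) fuel

/-- `k` for the set of the elements which are reached from `S` in `n` steps -/
noncomputable def rcK (row : ℕ → ℕ) (K fuel : ℕ) (k : ℕ → Bool) (n : ℕ) : ℕ → Bool :=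
  Nat.rec (motive := fun _ => ℕ → Bool) (fun S => k S) (fun _ ih S => orK row K (fun A => ih A) fuel S 0) n

/-- the pairs of words which are not in `new` are impossible, if the pairs which are not in `prev` are impossible in the
neighbour tile -/
noncomputable def lvK (m : ℕ) (T : PTab) (K : ℕ) (prev new : List (List (List ℕ))) : Bool :=
  allN (fun i => bif Nat.blt (rowK new i) K then
    (bif allF (fun j => bitK (rowK new i) j) (blkF [] T.nx i) then true else
      rcK (rowX prev) K T.len (fun A => allF (fun j => bif bitK A (blkF 0 T.R j) then bitK (rowK new i) j else true)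
        (blkF [] T.nx i)) (Nat.succ (m - 2)) (Nat.pow 2 (blkF 0 T.L i))) else false) T.len

/-- all the levels, then `fin` -/
noncomputable def lvsK (m : ℕ) (T : PTab) (K : ℕ) (fin : List (List (List ℕ)) → Bool) :
    List (List (List (List ℕ))) → List (List (List ℕ)) → Bool :=
  List.rec (motive := fun _ => List (List (List ℕ)) → Bool) (fun prev => fin prev)
    (fun new _ ih prev => bif lvK m T K prev new then ih new else false)

/-- no tile has only good corners, for the pairs of words in `rows` -/
noncomputable def finK (m : ℕ) (T : PTab) (K : ℕ) (rows : List (List (List ℕ))) : Bool :=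
  allN (fun i => bif Nat.ble 2 (nthF 0 (blkF [] T.ws i) 0) then true else
    rcK (rowX rows) K T.len (fun A => bif bitK A i then false else true) (Nat.succ (m - 1)) (Nat.pow 2 i)) T.len

/-- see `noPatch`; `row0` and `lv` are the possible pairs of words at the levels `0`, `1`, ..., `r` -/
noncomputable def npJ (m : ℕ) (GS : List (List ℕ)) (T : PTab) (Ix : List ℕ) (Bk : List (List (List ℕ)))
    (row0 : List (List (List ℕ))) (lv : List (List (List (List ℕ)))) (r : ℕ) : Bool :=
  gsJ T GS Ix && allN (ptJ m T Bk) T.len && Nat.beq lv.length r &&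
    allN (fun i => bif Nat.blt (rowK row0 i) (Nat.pow 2 T.len) then
      allF (fun j => bif Nat.blt j T.len then bitK (rowK row0 i) j else false) (blkF [] T.nx i) else false) T.len &&
    fQ (Nat.pow 2 T.len) (fun K => lvsK m T K (finK m T K) lv row0)

/-- the linear programming node with good stars is correct; `Gn` are the codes of the good words -/
noncomputable def lpJ (m : ℕ) (st : List (ℕ × ℕ × ℕ × ℕ × ℕ × ℕ)) (u L fuel al be W H p : ℕ)
    (GS : List (List ℕ)) (Gn : List ℕ) (T : PTab) (Ix : List ℕ) (Bk row0 : List (List (List ℕ)))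
    (lv : List (List (List (List ℕ)))) (r ω ρ : ℕ) (cvg : List (List ℕ)) : Bool :=
  Nat.ble 4 u && Nat.blt L (Nat.pow 2 (Nat.sub u 2)) && Nat.ble fuel 15 &&
  smQ u (Nat.mul (Nat.mul 2 m) (Nat.mul 2 m)) W && smQ u (Nat.mul (Nat.mul 2 m) (Nat.mul 2 m)) H &&
  wtJ m L al be ω ρ && Nat.beq ρ (Nat.mul (Nat.pow (Nat.succ m) r) ω) && npJ m GS T Ix Bk row0 lv r &&
  allF (fun u => allF (fun x => Nat.ble x 15) u) GS && (GS.map wdF == Gn) && allF (pairQ u W al be) st &&
  allN (fun j => tabH p (fun S =>
    bif srJ u (Nat.mul 2 m) L fuel W (rwQ H (Nat.pow 2 (Nat.mul u (Nat.mul 2 m))) (Nat.mul 2 j)) (accJ p S ρ Gn)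
      (Nat.mul 2 j) then
      srJ u (Nat.mul 2 m) L fuel W (rwQ H (Nat.pow 2 (Nat.mul u (Nat.mul 2 m))) (Nat.succ (Nat.mul 2 j)))
        (accJ p S ρ Gn) (Nat.succ (Nat.mul 2 j)) else false) (nthF [] cvg j) 0) m

/-- nodes: linear programming nodes with good stars, or other nodes -/
inductive QJ (α : Type)
  | i (N : QI α)
  | s (u L fuel al be W H q p : ℕ) (GS : List (List ℕ)) (Gn : List ℕ) (T : PTab) (Ix : List ℕ)
      (Bk row0 : List (List (List ℕ))) (lv : List (List (List (List ℕ)))) (r ω ρ : ℕ) (cvg : List (List ℕ))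
      (ch : List HQ)

/-- check of node `i` -/
noncomputable def chkJ {α : Type} (ck : (ℕ → List Eqn) → ℕ → α → Bool) (m : ℕ) (w : List ℕ) (C : ℕ)
    (sy : List (Bool × ℕ × List ℕ)) (st : List (ℕ × ℕ × ℕ × ℕ × ℕ × ℕ)) (D : ℕ → List (ℕ × ℕ)) (i : ℕ)
    (N : QJ α) : Bool :=
  match N with
    | QJ.i N => chkI ck m w C sy st D i N
    | QJ.s u L fuel al be W H q p GS Gn T Ix Bk row0 lv r ω ρ cvg ch =>
        lpJ m st u L fuel al be W H p GS Gn T Ix Bk row0 lv r ω ρ cvg && Nat.ble q 20 && Nat.blt (D i).length 13 &&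
          chQ m q sy D i (eq0Q m :: D i) cvg.flatten ch

end Pool.Agent.Lib_MP_fa6e45
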