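import Pool.Agent.Lib_MP_fa6e45.CJ0
import Pool.Agent.Lib_MP_fa6e45.CH1
import Pool.Agent.Lib_MP_fa6e45.CX7

/-!
MP_fa6e45_co, stage 9: linear programming nodes with good stars in the fast format are correct (compare CQ3).
-/

open Set MeasureTheory Complex
open scoped Topology

namespace Pool.Agent.Lib_MP_fa6e45

private theorem CJ1_bif (a b : Bool) : (bif a then b else false) = (a && b) := by
  cases a <;> rfl

private theorem CJ1_beq {a b : ℕ} (h : a = b) : Nat.beq a b = true := by
  rw [h]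
  exact Nat.beq_refl b

private theorem CJ1_bne {a b : ℕ} (h : a ≠ b) : Nat.beq a b = false := by
  cases hb : Nat.beq a b with
  | false => rfl
  | true => exact absurd (Nat.eq_of_beq_eq_true hb) h

/-- cost of a step -/
private noncomputable def wd (u n W c d : ℕ) : ℕ := dg u W (n * c + d)

/-- data of a search -/
private structure SrD (u n L W Hs Hc on G ix V U K c0 : ℕ) : Prop where
  hu : 4 ≤ u
  hn : n ≤ 2 ^ u
  hL : L < 2 ^ (u - 2)
  hW : ∀ c < n, ∀ d < n, wd u n W c d < 2 ^ (u - 2)
  hH : ∀ d < n, dg u Hs d < 2 ^ (u - 2)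
  hc0 : c0 < n
  hHsl : Hs < 2 ^ (u * n)
  hHc : Hc = Hs - dg u Hs c0 * 2 ^ (u * c0)
  hon : on = onQ u n
  hG : G = 2 ^ (u - 1) * onQ u n
  hix : ix = ixQ u n
  hV : V = 2 ^ u
  hU : U = 2 ^ (u - 1)
  hK : K = 2 ^ (u * n)

section search

variable {u n L W Hs Hc on G ix V U K c0 : ℕ}

private theorem SrD.hcl (S : SrD u n L W Hs Hc on G ix V U K c0) : Hc < 2 ^ (u * n) := by
  rw [S.hHc]
  exact (dg_clear S.hHsl S.hc0).1

private theorem SrD.hcd (S : SrD u n L W Hs Hc on G ix V U K c0) {d : ℕ} (hd : d < n) :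
    dg u Hc d = if d = c0 then 0 else dg u Hs d := by
  rw [S.hHc]
  exact (dg_clear S.hHsl S.hc0).2 d hd

private theorem SrD.hcs (S : SrD u n L W Hs Hc on G ix V U K c0) {d : ℕ} (hd : d < n) :
    dg u Hc d < 2 ^ (u - 2) := by
  rw [S.hcd hd]
  split
  · exact Nat.two_pow_pos _
  · exact S.hH d hd

private theorem SrD.pw (S : SrD u n L W Hs Hc on G ix V U K c0) :
    2 ^ (u - 2) + 2 ^ (u - 2) = 2 ^ (u - 1) ∧ 2 ^ (u - 1) + 2 ^ (u - 1) = 2 ^ u := by
  have hu := S.hu
  obtain ⟨v, rfl⟩ : ∃ v, u = v + 2 := ⟨u - 2, by omega⟩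
  constructor
  · rw [show v + 2 - 2 = v by omega, show v + 2 - 1 = v + 1 by omega, pow_succ]
    ring
  · rw [show v + 2 - 1 = v + 1 by omega, show v + 2 = v + 1 + 1 by omega, pow_succ 2 (v + 1)]
    ring

/-- the vector of `W cur d + Hc d` -/
private theorem SrD.sum (S : SrD u n L W Hs Hc on G ix V U K c0) {cur : ℕ} (hc : cur < n) :
    rwQ W K cur + Hc < 2 ^ (u * n) ∧ ∀ d < n, dg u (rwQ W K cur + Hc) d = wd u n W cur d + dg u Hc d := by
  have hp := S.pw
  have h1 : ∀ d < n, dg u (rwQ W K cur) d = wd u n W cur d := fun d hd => by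
    rw [S.hK]
    exact dg_rwQ hd
  have h2 : rwQ W K cur < 2 ^ (u * n) := by
    rw [S.hK]
    exact rwQ_lt (Nat.two_pow_pos _)
  obtain ⟨h3, h4⟩ := dg_add h2 S.hcl (fun d hd => by
    rw [h1 d hd]
    have := S.hW cur hc d hd
    have := S.hcs hd
    omega)
  exact ⟨h3, fun d hd => by rw [h4 d hd, h1 d hd]⟩

/-- lower bounds for the way back -/
private theorem SrD.back (S : SrD u n L W Hs Hc on G ix V U K c0)
    (hb : hbQ u n W Hs Hc on G K c0 = true) (l : List ℕ) (y : ℕ) (hy : c0 ≤ y) (hyn : y < n)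
    (hl : ∀ x ∈ l, c0 ≤ x ∧ x < n) : dg u Hs y ≤ pcost (wd u n W) y l c0 := by
  have hp := S.pw
  have hu := S.hu
  have key : ∀ y, c0 ≤ y → y < n → ∀ d < n, dg u Hs y ≤ wd u n W y d + dg u Hc d := by
    intro y hy hyn d hd
    unfold hbQ at hb
    rw [allN_iff] at hb
    have hsub : y - c0 < Nat.sub n c0 := by
      change y - c0 < n - c0
      omega
    have h1 := hb (y - c0) hsub
    have e : Nat.add c0 (y - c0) = y := by
      change c0 + (y - c0) = y
      omega
    rw [e] at h1
    have h2 := S.sum hyn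
    have h3 : leQ (onQ u n) (2 ^ (u - 1) * onQ u n) (dg u Hs y) (rwQ W K y + Hc) = true := by
      rw [← S.hG, ← S.hon]
      exact h1
    have h4 := leQ_sound (u := u) (n := n) (by omega) (by
      have := S.hH y hyn
      omega) h2.1 h3 hd
    rw [h2.2 d hd] at h4
    exact h4
  induction l generalizing y with
  | nil =>
    have h1 := key y hy hyn c0 S.hc0
    rw [S.hcd S.hc0, if_pos rfl] at h1
    exact h1
  | cons z l ih =>
    have hz := hl z List.mem_cons_self
    have h1 := key y hy hyn z hz.2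
    have h2 := ih z hz.1 hz.2 fun x hx => hl x (List.mem_cons_of_mem z hx)
    have h3 : dg u Hc z ≤ dg u Hs z := by
      rw [S.hcd hz.2]
      split
      · exact Nat.zero_le _
      · exact le_refl _
    change _ ≤ wd u n W y z + pcost (wd u n W) z l c0
    omega

private theorem SrD.dfs (S : SrD u n L W Hs Hc on G ix V U K c0)
    (hb : hbQ u n W Hs Hc on G K c0 = true) {acc : ℕ → ℕ → ℕ → ℕ → Bool} (l : List ℕ)
    (fuel cur b cnt wo len : ℕ) (hbL : b ≤ L) (hcur : cur < n)
    (h : dfsJ n W Hc (dg u Hs c0) on G ix V U K c0 acc fuel cur b cnt wo len = true)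
    (hl : ∀ x ∈ l, c0 ≤ x ∧ x < n) (ht : pcost (wd u n W) cur l c0 < b) :
    acc (cnt + (l.map fun x => 16 ^ (x / 2)).sum) (l.foldl (fun x y => 16 * x + y) wo)
      (b - pcost (wd u n W) cur l c0) (len + l.length) = true ∧ l.length + 1 ≤ fuel := by
  have hp := S.pw
  have hu := S.hu
  -- one step
  have step : ∀ (fuel cur b cnt wo len : ℕ), b ≤ L → cur < n →
      dfsJ n W Hc (dg u Hs c0) on G ix V U K c0 acc (fuel + 1) cur b cnt wo len = true →
      ∀ d < n, wd u n W cur d + dg u Hc d < b →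
        (d = c0 → acc cnt wo (b - wd u n W cur d) len = true) ∧ ((d = c0 → dg u Hs c0 < b - wd u n W cur d) →
          dfsJ n W Hc (dg u Hs c0) on G ix V U K c0 acc fuel d (b - wd u n W cur d)
            (cnt + 16 ^ (d / 2)) (16 * wo + d) (len + 1) = true) := by
    intro fuel cur b cnt wo len hbL hcur h d hd hlt
    obtain ⟨k, rfl⟩ : ∃ k, b = k + 1 := ⟨b - 1, by omega⟩
    have h1 : bitsQ K (fun x => fQ (Nat.div x U) fun s => fQ (Nat.mod (Nat.div ix s) V) fun d =>
          bif Nat.beq d c0 then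
            (bif acc cnt wo (Nat.sub (Nat.succ k) (Nat.mod (Nat.div (rwQ W K cur) s) V)) len then
              (bif Nat.ble (Nat.sub (Nat.succ k) (Nat.mod (Nat.div (rwQ W K cur) s) V)) (dg u Hs c0) then true else
                dfsJ n W Hc (dg u Hs c0) on G ix V U K c0 acc fuel d
                  (Nat.sub (Nat.succ k) (Nat.mod (Nat.div (rwQ W K cur) s) V)) (cntQ cnt d)
                  (Nat.add (Nat.mul 16 wo) d) (Nat.succ len))
              else false)
          else dfsJ n W Hc (dg u Hs c0) on G ix V U K c0 acc fuel d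
            (Nat.sub (Nat.succ k) (Nat.mod (Nat.div (rwQ W K cur) s) V)) (cntQ cnt d)
            (Nat.add (Nat.mul 16 wo) d) (Nat.succ len)) n
          (Nat.land (Nat.sub (Nat.add (Nat.mul k on) G) (Nat.add (rwQ W K cur) Hc)) G) = true := h
    have h2 := S.sum hcur
    have hkL : k < 2 ^ (u - 1) := by
      have := S.hL
      omega
    have hbit := cand_bit (u := u) (n := n) (X := rwQ W K cur + Hc) (k := k) (d := d) (by omega) h2.1
      (fun i hi => by
        rw [h2.2 i hi]
        have := S.hW cur hcur i hi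
        have := S.hcs hi
        omega) hkL hd (by rw [h2.2 d hd]; omega)
    rw [← S.hG, ← S.hon] at hbit
    have hMlt : Nat.land (Nat.sub (Nat.add (Nat.mul k on) G) (rwQ W K cur + Hc)) G < 2 ^ (u * n) := by
      refine lt_of_le_of_lt Nat.and_le_right ?_
      rw [S.hG]
      rcases onG_lt (u := u) (n := n) (by omega) with h3 | h3
      · exact h3
      · omega
    have h1' := h1
    rw [S.hK] at h1'
    rw [show (rwQ W (2 ^ (u * n)) cur) = rwQ W K cur by rw [S.hK]] at h1'
    have h4 := bitsQ_sound hMlt h1' hbit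
    rw [fQ_eq] at h4
    have es : Nat.div (2 ^ (u * d + (u - 1))) U = 2 ^ (u * d) := by
      rw [S.hU, pow_add]
      exact Nat.mul_div_cancel _ (Nat.two_pow_pos _)
    rw [es, fQ_eq] at h4
    have ed : Nat.mod (Nat.div ix (2 ^ (u * d))) V = d := by
      rw [S.hix, S.hV]
      exact dg_ixQ (by omega) S.hn hd
    rw [ed] at h4
    have ew : Nat.mod (Nat.div (rwQ W K cur) (2 ^ (u * d))) V = wd u n W cur d := by
      rw [S.hV]
      have := dg_rwQ (u := u) (n := n) (W := W) (c := cur) hd
      rw [← S.hK] at this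
      exact this
    rw [← S.hK, ew] at h4
    have eb : Nat.sub (Nat.succ k) (wd u n W cur d) = k + 1 - wd u n W cur d := rfl
    have ec : cntQ cnt d = cnt + 16 ^ (d / 2) := rfl
    have ed' : Nat.add (Nat.mul 16 wo) d = 16 * wo + d := rfl
    rw [eb, ec, ed'] at h4
    by_cases hdc : d = c0
    · rw [CJ1_beq hdc, cond_true, CJ1_bif, Bool.and_eq_true] at h4
      refine ⟨fun _ => h4.1, fun h5 => ?_⟩
      have h6 := h4.2
      cases hble : Nat.ble (k + 1 - wd u n W cur d) (dg u Hs c0) with
      | true =>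
        exfalso
        have h7 : k + 1 - wd u n W cur d ≤ dg u Hs c0 := Nat.le_of_ble_eq_true hble
        have := h5 hdc
        omega
      | false =>
        rw [hble, cond_false] at h6
        exact h6
    · rw [CJ1_bne hdc, cond_false] at h4
      exact ⟨fun h5 => absurd h5 hdc, fun _ => h4⟩
  induction l generalizing fuel cur b cnt wo len with
  | nil =>
    cases fuel with
    | zero => exact absurd h (by simp [dfsJ])
    | succ fuel =>
      have h1 := step fuel cur b cnt wo len hbL hcur h c0 S.hc0 (by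
        rw [S.hcd S.hc0, if_pos rfl]
        exact ht)
      refine ⟨?_, by simp⟩
      have e3 : pcost (wd u n W) cur [] c0 = wd u n W cur c0 := rfl
      rw [e3]
      simpa using h1.1 rfl
  | cons y l ih =>
    cases fuel with
    | zero => exact absurd h (by simp [dfsJ])
    | succ fuel =>
      have hy := hl y List.mem_cons_self
      have hl' : ∀ x ∈ l, c0 ≤ x ∧ x < n := fun x hx => hl x (List.mem_cons_of_mem y hx)
      have ht' : wd u n W cur y + pcost (wd u n W) y l c0 < b := ht
      have h2 := S.back hb l y hy.1 hy.2 hl'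
      have h3 : dg u Hc y ≤ dg u Hs y := by
        rw [S.hcd hy.2]
        split
        · exact Nat.zero_le _
        · exact le_refl _
      have h1 := (step fuel cur b cnt wo len hbL hcur h y hy.2 (by omega)).2 (fun h5 => by
        subst h5
        omega)
      have h7 := ih fuel y (b - wd u n W cur y) (cnt + 16 ^ (y / 2)) (16 * wo + y) (len + 1) (by omega) hy.2 h1 hl'
        (by omega)
      refine ⟨?_, ?_⟩
      · rw [List.map_cons, List.sum_cons, List.length_cons, List.foldl_cons]
        have e1 : cnt + (16 ^ (y / 2) + (l.map fun x => 16 ^ (x / 2)).sum) =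
            cnt + 16 ^ (y / 2) + (l.map fun x => 16 ^ (x / 2)).sum := by ring
        have e2 : len + (l.length + 1) = len + 1 + l.length := by ring
        have e3 : b - pcost (wd u n W) cur (y :: l) c0 = b - wd u n W cur y - pcost (wd u n W) y l c0 := by
          change b - (wd u n W cur y + pcost (wd u n W) y l c0) = _
          omega
        rw [e1, e2, e3]
        exact h7.1
      · rw [List.length_cons]
        omega

end search

/-! ### codes -/

section step

variable {m : ℕ} [NeZero m]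

omit [NeZero m] in
private theorem CJ1_code_div (x : ZMod m × Bool) : code x / 2 = x.1.val := by
  unfold code
  have h2 : x.2.toNat ≤ 1 := Bool.toNat_le x.2
  omega

private theorem CJ1_code_lt (x : ZMod m × Bool) : code x < 2 * m := by
  unfold code
  have h1 := ZMod.val_lt x.1
  have h2 : x.2.toNat ≤ 1 := Bool.toNat_le x.2
  omega

private theorem CJ1_pred (i : ZMod m) : (i.val + (m - 1)) % m = (i - 1).val := by
  have hm : 0 < m := Nat.pos_of_ne_zero (NeZero.ne m)
  have h1 : ((i.val + (m - 1) : ℕ) : ZMod m) = i - 1 := by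
    rw [Nat.cast_add, ZMod.natCast_zmod_val, Nat.cast_sub (by omega), ZMod.natCast_self]
    ring
  rw [← h1, ZMod.val_natCast]

private theorem CJ1_ex (x : ZMod m × Bool) : exF m (code x) = code (exW x) := by
  obtain ⟨i, f⟩ := x
  unfold exF exW
  have hd := CJ1_code_div (i, f)
  cases f
  · have h1 : code ((i, false) : ZMod m × Bool) = 2 * i.val := rfl
    have h2 : Nat.beq (Nat.mod (code ((i, false) : ZMod m × Bool)) 2) 0 = true := by
      rw [h1]
      apply CJ1_beq
      exact Nat.mul_mod_right 2 _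
    rw [h2, cond_true]
    change 2 * ((code ((i, false) : ZMod m × Bool) / 2 + (m - 1)) % m) = _
    rw [hd, CJ1_pred]
    rfl
  · have h1 : code ((i, true) : ZMod m × Bool) = 2 * i.val + 1 := rfl
    have h2 : Nat.beq (Nat.mod (code ((i, true) : ZMod m × Bool)) 2) 0 = false := by
      rw [h1]
      have : Nat.mod (2 * i.val + 1) 2 = 1 := by
        change (2 * i.val + 1) % 2 = 1
        omega
      rw [this]
      rfl
    rw [h2, cond_false]
    rfl

private theorem CJ1_en (x : ZMod m × Bool) : enF m (code x) = code (enW x) := by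
  obtain ⟨i, f⟩ := x
  unfold enF enW
  have hd := CJ1_code_div (i, f)
  cases f
  · have h1 : code ((i, false) : ZMod m × Bool) = 2 * i.val := rfl
    have h2 : Nat.beq (Nat.mod (code ((i, false) : ZMod m × Bool)) 2) 0 = true := by
      rw [h1]
      apply CJ1_beq
      exact Nat.mul_mod_right 2 _
    rw [h2, cond_true]
    rfl
  · have h1 : code ((i, true) : ZMod m × Bool) = 2 * i.val + 1 := rfl
    have h2 : Nat.beq (Nat.mod (code ((i, true) : ZMod m × Bool)) 2) 0 = false := by
      rw [h1]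
      have : Nat.mod (2 * i.val + 1) 2 = 1 := by
        change (2 * i.val + 1) % 2 = 1
        omega
      rw [this]
      rfl
    rw [h2, cond_false]
    change Nat.succ (2 * ((code ((i, true) : ZMod m × Bool) / 2 + (m - 1)) % m)) = _
    rw [hd, CJ1_pred]
    rfl

omit [NeZero m] in
private theorem CJ1_par (x y : ZMod m × Bool) :
    Nat.beq (Nat.mod (code x) 2) (Nat.mod (code y) 2) = (x.2 == y.2) := by
  obtain ⟨i, f⟩ := x
  obtain ⟨j, g⟩ := y
  have e : ∀ (i : ZMod m) (f : Bool), Nat.mod (code (i, f)) 2 = f.toNat := by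
    intro i f
    change (2 * i.val + f.toNat) % 2 = f.toNat
    cases f
    · simp
    · change (2 * i.val + 1) % 2 = 1
      omega
  rw [e, e]
  cases f <;> cases g <;> rfl

private theorem CJ1_inj {x y : ZMod m × Bool} (h : code x = code y) : x = y := by
  obtain ⟨i, f⟩ := x
  obtain ⟨j, g⟩ := y
  have h1 : 2 * i.val + f.toNat = 2 * j.val + g.toNat := h
  have hf : f.toNat ≤ 1 := Bool.toNat_le f
  have hg : g.toNat ≤ 1 := Bool.toNat_le g
  have h2 : i.val = j.val := by omega
  have h3 : f.toNat = g.toNat := by omega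
  have h4 : f = g := by
    cases f <;> cases g <;> simp_all
  rw [ZMod.val_injective m h2, h4]

omit [NeZero m] in
private theorem CJ1_surj {c : ℕ} (hc : c < 2 * m) : ∃ x : ZMod m × Bool, code x = c := by
  refine ⟨(((c / 2 : ℕ) : ZMod m), c % 2 == 1), ?_⟩
  unfold code
  have h1 : c / 2 < m := by omega
  simp only
  rw [ZMod.val_natCast_of_lt h1]
  rcases Nat.mod_two_eq_zero_or_one c with h2 | h2
  · rw [h2]
    simp
    omega
  · rw [h2]
    simp
    omega

/-- inverse of `exW` -/
private def exI (x : ZMod m × Bool) : ZMod m × Bool := (if x.2 then x.1 else x.1 + 1, x.2)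

/-- inverse of `enW` -/
private def enI (x : ZMod m × Bool) : ZMod m × Bool := (if x.2 then x.1 + 1 else x.1, x.2)

omit [NeZero m] in
private theorem exI_ex (x : ZMod m × Bool) : exI (exW x) = x := by
  obtain ⟨i, f⟩ := x
  cases f <;> simp [exI, exW]

omit [NeZero m] in
private theorem enI_en (x : ZMod m × Bool) : enI (enW x) = x := by
  obtain ⟨i, f⟩ := x
  cases f <;> simp [enI, enW]

variable (u W al be : ℕ)

/-- crossing for the step with exit side `x` and entry side `y` -/
private noncomputable def crU (x y : ZMod m × Bool) : ℤ :=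
  (wd u (2 * m) W (code (exI x)) (code (enI y)) : ℤ) - dg 32 al (code (exI x)) + dg 32 be (code (enI y))

/-- the antisymmetric function -/
private noncomputable def crA (x y : ZMod m × Bool) : ℤ :=
  if code x < code y then crU u W al be x y else if code y < code x then - crU u W al be y x else 0

omit [NeZero m] in
private theorem crA_anti (x y : ZMod m × Bool) : crA u W al be y x = - crA u W al be x y := by
  unfold crA
  rcases lt_trichotomy (code x) (code y) with h | h | h
  · rw [if_pos h, if_neg (by omega), if_pos h]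
  · rw [h, if_neg (lt_irrefl _), if_neg (lt_irrefl _), if_neg (lt_irrefl _), if_neg (lt_irrefl _), neg_zero]
  · rw [if_pos h, if_neg (by omega), if_pos h, neg_neg]

/-- weights -/
private noncomputable def wV (i : ZMod m) : ℤ := (dg 32 al (2 * i.val) : ℤ) - dg 32 be (2 * i.val)

/-- potential -/
private noncomputable def wP (x : ZMod m × Bool) : ℤ := (dg 32 be (code x) : ℤ)

variable {u W al be}

private theorem CJ1_wt {L ω ρ : ℕ} (h : wtJ m L al be ω ρ = true) (x : ZMod m × Bool) :
    (dg 32 al (code x) : ℤ) - dg 32 be (code x) = wV al be x.1 := by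
  unfold wtJ at h
  rw [Bool.and_eq_true, allN_iff] at h
  have h1 := h.2 x.1.val (ZMod.val_lt _)
  have h2 : dg 32 al (2 * x.1.val) + dg 32 be (2 * x.1.val + 1) =
      dg 32 al (2 * x.1.val + 1) + dg 32 be (2 * x.1.val) := Nat.eq_of_beq_eq_true h1
  obtain ⟨i, f⟩ := x
  unfold wV code
  simp only at h2 ⊢
  cases f
  · simp
  · change (dg 32 al (2 * i.val + 1) : ℤ) - dg 32 be (2 * i.val + 1) = _
    omega

/-- one step -/
private theorem CJ1_step {w : List ℕ} {st : List (ℕ × ℕ × ℕ × ℕ × ℕ × ℕ)} {L ω ρ : ℕ} (hst : stQ m w st = true)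
    (hwt : wtJ m L al be ω ρ = true) (hpair : ∀ e ∈ st, pairQ u W al be e = true)
    {x y : ZMod m × Bool} (hG : relT w (exW x).1 (enW y).1 (x.2 == y.2) = true) :
    (wd u (2 * m) W (code x) (code y) : ℤ) ≤
      stepCost (wV al be) (crA u W al be) x y + wP be x - wP be y := by
  -- the pair
  have hp : wd u (2 * m) W (code x) (code y) + wd u (2 * m) W (code (exI (enW y))) (code (enI (exW x))) +
      (dg 32 be (code y) + dg 32 be (code (enI (exW x)))) ≤
        dg 32 al (code x) + dg 32 al (code (exI (enW y))) := by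
    unfold stQ at hst
    rw [Bool.and_eq_true, allF_eq, List.all_eq_true, allN_iff] at hst
    obtain ⟨hd, hs⟩ := hst
    have h1 := hs (code x) (CJ1_code_lt x)
    rw [allN_iff] at h1
    have h2 := h1 (code y) (CJ1_code_lt y)
    have h3 : okL (nthF 0 w (Nat.div (exF m (code x)) 2)) (nthF 0 w (Nat.div (enF m (code y)) 2))
        (Nat.beq (Nat.mod (code x) 2) (Nat.mod (code y) 2)) = true := by
      rw [CJ1_ex, CJ1_en, CJ1_par]
      change okL (nthF 0 w (code (exW x) / 2)) (nthF 0 w (code (enW y) / 2)) _ = true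
      rw [CJ1_code_div, CJ1_code_div, nthF_eq, nthF_eq]
      exact hG
    rw [h3, cond_true, anyF_eq, List.any_eq_true] at h2
    obtain ⟨e, he, h4⟩ := h2
    have h5 := hd e he
    unfold dualQ at h5
    simp only [Bool.and_eq_true, beq_iff_eq] at h5
    obtain ⟨⟨⟨⟨⟨⟨⟨q1, q2⟩, q3⟩, q4⟩, q5⟩, q6⟩, q7⟩, q8⟩ := h5
    have q5' : e.2.2.1 < 2 * m := Nat.le_of_ble_eq_true q5
    have q6' : e.2.2.2.1 < 2 * m := Nat.le_of_ble_eq_true q6
    have q7' : e.2.2.2.2.1 < 2 * m := Nat.le_of_ble_eq_true q7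
    have q8' : e.2.2.2.2.2 < 2 * m := Nat.le_of_ble_eq_true q8
    obtain ⟨c1, hc1⟩ := CJ1_surj q5'
    obtain ⟨d1, hd1⟩ := CJ1_surj q6'
    obtain ⟨c2, hc2⟩ := CJ1_surj q7'
    obtain ⟨d2, hd2⟩ := CJ1_surj q8'
    rw [← hc1, ← hd2, CJ1_ex, CJ1_en] at q3
    rw [← hc2, ← hd1, CJ1_ex, CJ1_en] at q4
    have q3' := CJ1_inj q3
    have q4' := CJ1_inj q4
    have h6 := hpair e he
    unfold pairQ at h6
    have h7 : dg u W e.1 + dg u W e.2.1 + (dg 32 be e.2.2.2.1 + dg 32 be e.2.2.2.2.2) ≤
        dg 32 al e.2.2.1 + dg 32 al e.2.2.2.2.1 := Nat.le_of_ble_eq_true h6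
    rw [q1, q2, ← hc1, ← hd1, ← hc2, ← hd2] at h7
    rw [Bool.or_eq_true, CJ1_bif, CJ1_bif, Bool.and_eq_true, Bool.and_eq_true, ← hc1, ← hd1, ← hc2, ← hd2] at h4
    unfold wd
    rcases h4 with ⟨h8, h9⟩ | ⟨h8, h9⟩
    · have e1 : c1 = x := CJ1_inj (Nat.eq_of_beq_eq_true h8)
      have e2 : d1 = y := CJ1_inj (Nat.eq_of_beq_eq_true h9)
      subst e1
      subst e2
      rw [q3', enI_en, ← q4', exI_ex]
      exact h7
    · have e1 : c2 = x := CJ1_inj (Nat.eq_of_beq_eq_true h8)
      have e2 : d2 = y := CJ1_inj (Nat.eq_of_beq_eq_true h9)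
      subst e1
      subst e2
      rw [← q3', exI_ex, q4', enI_en]
      omega
  have hx := CJ1_wt hwt x
  have hy : wP be y = dg 32 be (code y) := rfl
  have hx' : wP be x = dg 32 be (code x) := rfl
  unfold stepCost
  rw [hx', hy, ← hx]
  unfold crA
  have e1 : exI (exW x) = x := exI_ex x
  have e2 : enI (enW y) = y := enI_en y
  rcases lt_trichotomy (code (exW x)) (code (enW y)) with h | h | h
  · rw [if_pos h]
    unfold crU
    rw [e1, e2]
    linarith
  · rw [h, if_neg (lt_irrefl _), if_neg (lt_irrefl _)]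
    have h2 := CJ1_inj h
    rw [← h2, e1, h2, e2] at hp
    have hp' : ((wd u (2 * m) W (code x) (code y) + wd u (2 * m) W (code x) (code y) +
      (dg 32 be (code y) + dg 32 be (code y)) : ℕ) : ℤ) ≤ ((dg 32 al (code x) + dg 32 al (code x) : ℕ) : ℤ) := by
      exact_mod_cast hp
    push_cast at hp'
    linarith
  · rw [if_neg (by omega), if_pos h]
    unfold crU
    have hp' : ((wd u (2 * m) W (code x) (code y) +
        wd u (2 * m) W (code (exI (enW y))) (code (enI (exW x))) +
      (dg 32 be (code y) + dg 32 be (code (enI (exW x)))) : ℕ) : ℤ) ≤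
        ((dg 32 al (code x) + dg 32 al (code (exI (enW y))) : ℕ) : ℤ) := by
      exact_mod_cast hp
    push_cast at hp'
    linarith

end step

/-! ### sums -/

section sums

private theorem CJ1_sumQ (x n : ℕ) : sumQ x n = ∑ i ∈ Finset.range n, dg 32 x i := by
  induction n with
  | zero => rfl
  | succ n ih =>
    rw [Finset.sum_range_succ, ← ih]
    change dg 32 x n + sumQ x n = sumQ x n + dg 32 x n
    rw [add_comm]

private theorem CJ1_two (f : ℕ → ℤ) (n : ℕ) :
    ∑ i ∈ Finset.range (2 * n), f i = ∑ i ∈ Finset.range n, (f (2 * i) + f (2 * i + 1)) := by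
  induction n with
  | zero => simp
  | succ n ih =>
    rw [show 2 * (n + 1) = 2 * n + 1 + 1 by ring, Finset.sum_range_succ, Finset.sum_range_succ, ih,
      Finset.sum_range_succ]
    ring

variable {m : ℕ} [NeZero m]

private theorem CJ1_zsum (f : ℕ → ℤ) : ∑ i : ZMod m, f i.val = ∑ i ∈ Finset.range m, f i := by
  obtain ⟨k, rfl⟩ := Nat.exists_eq_succ_of_ne_zero (NeZero.ne m)
  exact Fin.sum_univ_eq_sum_range f (k + 1)

private theorem CJ1_budget (hm : 3 ≤ m) {L al be ω ρ : ℕ} (h : wtJ m L al be ω ρ = true) :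
    2 * ∑ i : ZMod m, wV al be i + 2 * (m * ρ - ω) < ((m : ℤ) - 2) * L := by
  unfold wtJ at h
  rw [Bool.and_eq_true, allN_iff] at h
  obtain ⟨h1, h2⟩ := h
  have h3 : sumQ al (2 * m) + 2 * m * ρ < (m - 2) * L + sumQ be (2 * m) + 2 * ω := Nat.le_of_ble_eq_true h1
  have h3' : (sumQ al (2 * m) : ℤ) + 2 * m * ρ < (((m - 2 : ℕ) : ℤ)) * L + (sumQ be (2 * m) : ℤ) + 2 * ω := by
    exact_mod_cast h3
  rw [Nat.cast_sub (by omega)] at h3'
  have h4 : 2 * ∑ i : ZMod m, wV al be i = (sumQ al (2 * m) : ℤ) - sumQ be (2 * m) := by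
    rw [CJ1_sumQ, CJ1_sumQ]
    push_cast
    rw [← Finset.sum_sub_distrib, CJ1_two (fun i => (dg 32 al i : ℤ) - dg 32 be i)]
    unfold wV
    rw [CJ1_zsum (fun i => (dg 32 al (2 * i) : ℤ) - dg 32 be (2 * i)), Finset.mul_sum]
    refine Finset.sum_congr rfl fun i hi => ?_
    have h5 : dg 32 al (2 * i) + dg 32 be (2 * i + 1) = dg 32 al (2 * i + 1) + dg 32 be (2 * i) :=
      Nat.eq_of_beq_eq_true (h2 i (Finset.mem_range.1 hi))
    omega
  rw [h4]
  push_cast at h3'
  linarith

omit [NeZero m] in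
private theorem CJ1_tele (f : ZMod m × Bool → ZMod m × Bool → ℤ) (φ : ZMod m × Bool → ℤ)
    (l : List (ZMod m × Bool)) (x y : ZMod m × Bool) :
    pcost (fun x y => f x y + φ x - φ y) x l y = pcost f x l y + φ x - φ y := by
  induction l generalizing x with
  | nil => rfl
  | cons z l ih =>
    change f x z + φ x - φ z + pcost (fun x y => f x y + φ x - φ y) z l y = f x z + pcost f z l y + φ x - φ y
    rw [ih z]
    ring

omit [NeZero m] in
private theorem CJ1_le (R : ZMod m × Bool → ZMod m × Bool → Prop) (f : ZMod m × Bool → ZMod m × Bool → ℤ)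
    (g : ℕ → ℕ → ℕ) (hfg : ∀ x y, R x y → (g (code x) (code y) : ℤ) ≤ f x y)
    (l : List (ZMod m × Bool)) (x y : ZMod m × Bool) (hP : Pth R x l y) :
    ((pcost g (code x) (l.map code) (code y) : ℕ) : ℤ) ≤ pcost f x l y := by
  induction l generalizing x with
  | nil => exact hfg x y hP
  | cons z l ih =>
    have h1 := hfg x z hP.1
    have h2 := ih z hP.2
    change ((g (code x) (code z) + pcost g (code z) (l.map code) (code y) : ℕ) : ℤ) ≤
      f x z + pcost f z l y
    push_cast
    linarith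

/-- the digits of the numbers of corners -/
private theorem CJ1_cnt (p : List (ZMod m × Bool)) (hp : p.length ≤ 15) (f : ZMod m → ℝ)
    (h : (p.map fun x => f x.1).sum = 2) :
    ∑ i : ZMod m, (((((p.map code).map fun x => 16 ^ (x / 2)).sum / 16 ^ i.val % 16 : ℕ) : ℝ)) * f i = 2 := by
  have key1 : ((p.map code).map fun x => 16 ^ (x / 2)).sum =
      ∑ j ∈ Finset.range m, ((p.map code).countP fun x => x / 2 == j) * 2 ^ (4 * j) := by
    clear hp h
    induction p with
    | nil => simp
    | cons x p ih =>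
      rw [List.map_cons, List.map_cons, List.sum_cons, ih]
      have h1 : ∀ i, ((code x :: p.map code).countP fun x => x / 2 == i) * 2 ^ (4 * i) =
          (if i = code x / 2 then 2 ^ (4 * i) else 0) + ((p.map code).countP fun x => x / 2 == i) * 2 ^ (4 * i) := by
        intro i
        rw [List.countP_cons]
        by_cases h : i = code x / 2
        · rw [if_pos h, if_pos (by rw [h]; exact beq_self_eq_true _)]
          ring
        · rw [if_neg h, if_neg]
          · ring
          · rw [beq_iff_eq]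
            exact fun h2 => h h2.symm
      simp only [h1]
      rw [Finset.sum_add_distrib, Finset.sum_ite_eq', if_pos]
      · rw [pow_mul]
        norm_num
      · rw [Finset.mem_range, CJ1_code_div]
        exact ZMod.val_lt _
  have key2 : ∀ i : ZMod m, ((p.map code).map fun x => 16 ^ (x / 2)).sum / 16 ^ i.val % 16 =
      (p.map code).countP fun x => x / 2 == i.val := by
    intro i
    rw [key1]
    have h1 := dg_sum (u := 4) (n := m) (f := fun j => (p.map code).countP fun x => x / 2 == j)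
      (fun j _ => by
        have := List.countP_le_length (p := fun x => x / 2 == j) (l := p.map code)
        rw [List.length_map] at this
        have e16 : (2 : ℕ) ^ 4 = 16 := rfl
        rw [e16]
        omega) (ZMod.val_lt i)
    rw [dg_def, pow_mul] at h1
    exact h1
  have key3 : ∑ i : ZMod m, (((p.map code).countP fun x => x / 2 == i.val : ℕ) : ℝ) * f i =
      (p.map fun x => f x.1).sum := by
    clear hp h key1 key2
    induction p with
    | nil => simp
    | cons x p ih =>
      rw [List.map_cons, List.map_cons, List.sum_cons, ← ih]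
      have h1 : ∀ i : ZMod m, (((code x :: p.map code).countP fun x => x / 2 == i.val : ℕ) : ℝ) * f i =
          (if i = x.1 then f i else 0) +
            (((p.map code).countP fun x => x / 2 == i.val : ℕ) : ℝ) * f i := by
        intro i
        rw [List.countP_cons, CJ1_code_div]
        by_cases h : i = x.1
        · rw [if_pos h, if_pos (by rw [h]; exact beq_self_eq_true _)]
          push_cast
          ring
        · rw [if_neg h, if_neg]
          · simp
          · rw [beq_iff_eq]
            intro h2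
            exact h (ZMod.val_injective m h2).symm
      rw [Finset.sum_congr rfl fun i _ => h1 i, Finset.sum_add_distrib]
      rw [Finset.sum_ite_eq' Finset.univ x.1 f, if_pos (Finset.mem_univ _)]
  rw [← h, ← key3]
  exact Finset.sum_congr rfl fun i _ => by rw [key2 i]

end sums

variable {m : ℕ} [NeZero m]

/-! ### words -/

private theorem CJ1_fold (u : List ℕ) (a : ℕ) :
    u.foldl (fun x y => 16 * x + y) a = Nat.ofDigits 16 (u.reverse ++ [a]) := by
  induction u generalizing a with
  | nil => simp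
  | cons y u ih =>
    rw [List.foldl_cons, ih, List.reverse_cons, Nat.ofDigits_append, Nat.ofDigits_append,
      Nat.ofDigits_append]
    simp only [Nat.ofDigits_singleton, List.length_append, List.length_reverse,
      List.length_singleton]
    ring

private theorem CJ1_wdinj {u u' : List ℕ} (hu : ∀ x ∈ u, x ≤ 15) (hu' : ∀ x ∈ u', x ≤ 15)
    (h : wdF u = wdF u') : u = u' := by
  unfold wdF at h
  rw [CJ1_fold, CJ1_fold] at h
  have key : ∀ v : List ℕ, (∀ x ∈ v, x ≤ 15) →
      Nat.digits 16 (Nat.ofDigits 16 (v.reverse ++ [1])) = v.reverse ++ [1] := by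
    intro v hv
    refine Nat.digits_ofDigits 16 (by norm_num) _ ?_ ?_
    · intro x hx
      rcases List.mem_append.1 hx with hx | hx
      · have := hv x (List.mem_reverse.1 hx)
        omega
      · rw [List.mem_singleton] at hx
        omega
    · intro hne
      simp
  have h1 := key u hu
  rw [h, key u' hu'] at h1
  have h2 := List.append_cancel_right h1
  exact (List.reverse_injective h2).symm

/-! ### the tables -/

omit [NeZero m] in
private theorem CJ1_gs {T : PTab} {GS : List (List ℕ)} {Ix : List ℕ} (h : gsJ T GS Ix = true) :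
    ∀ u ∈ GS, ∃ i < T.len, blkF [] T.ws i = u := by
  induction GS generalizing Ix with
  | nil =>
    intro u hu
    exact absurd hu List.not_mem_nil
  | cons v GS ih =>
    cases Ix with
    | nil => exact absurd h (by simp [gsJ])
    | cons i Ix =>
      have h1 : (bif Nat.blt i T.len then (bif blkF [] T.ws i == v then gsJ T GS Ix else false) else false) = true := h
      rw [CJ1_bif, CJ1_bif, Bool.and_eq_true, Bool.and_eq_true, beq_iff_eq] at h1
      obtain ⟨h2, h3, h4⟩ := h1
      intro u hu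
      rcases List.mem_cons.1 hu with rfl | hu
      · exact ⟨i, Nat.le_of_ble_eq_true h2, h3⟩
      · exact ih h4 u hu

private theorem CJ1_rot {u : List ℕ} {k : ℕ} (hk : k < u.length) : rotX (rotX u k) 1 = rotX u (k + 1) := by
  unfold rotX
  have e : u.drop k = u[k] :: u.drop (k + 1) := List.drop_eq_getElem_cons hk
  rw [e, List.cons_append, List.drop_succ_cons, List.drop_zero, List.take_succ_cons, List.take_zero,
    List.append_assoc, ← List.take_append_getElem hk]

private theorem CJ1_rot0 (u : List ℕ) : rotX u 0 = u := by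
  unfold rotX
  rw [List.drop_zero, List.take_zero, List.append_nil]

omit [NeZero m] in
private theorem CJ1_nth {α : Type} {d : α} {l : List α} {i : ℕ} : nthF d l i = l.getD i d := nthF_eq _ _ _

omit [NeZero m] in
private theorem CJ1_ptab {GS : List (List ℕ)} {T : PTab} {Ix : List ℕ} {Bk : List (List (List ℕ))}
    (h1 : gsJ T GS Ix = true) (h2 : allN (ptJ m T Bk) T.len = true) : ptabB m GS T = true := by
  rw [allN_iff] at h2
  have h3 : ∀ i < T.len, 2 ≤ (blkF [] T.ws i).length ∧ blkF 0 T.L i < T.len ∧ blkF 0 T.R i < T.len ∧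
      blkF [] T.ws (blkF 0 T.L i) = rotX (blkF [] T.ws i) 1 ∧
      blkF [] T.ws (blkF 0 T.R i) = rotX (blkF [] T.ws i) ((blkF [] T.ws i).length - 1) ∧
      anyF (Nat.beq i) (nthF [] (nthF [] Bk (nthF 0 (blkF [] T.ws i) 0))
        (nthF 0 (blkF [] T.ws i) ((blkF [] T.ws i).length - 1))) = true ∧
      blkF [] T.nx i = nthF [] (nthF [] Bk (bwC m (nthF 0 (blkF [] T.ws i) 0)))
        (fwC m (nthF 0 (blkF [] T.ws i) 1)) := by
    intro i hi
    have h4 := h2 i hi
    unfold ptJ at h4
    simp only [Bool.and_eq_true, decide_eq_true_eq, beq_iff_eq] at h4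
    exact ⟨h4.1.1.1.1.1.1, h4.1.1.1.1.1.2, h4.1.1.1.1.2, h4.1.1.1.2, h4.1.1.2, h4.1.2, h4.2⟩
  unfold ptabB
  rw [Bool.and_eq_true, Bool.and_eq_true]
  refine ⟨⟨?_, ?_⟩, ?_⟩
  · rw [List.all_eq_true]
    intro u hu
    rw [List.all_eq_true]
    intro k hk
    rw [List.any_eq_true]
    have hk' := List.mem_range.1 hk
    have key : ∀ j, j ≤ u.length → ∃ i < T.len, blkF [] T.ws i = rotX u j := by
      intro j
      induction j with
      | zero =>
        intro _
        rw [CJ1_rot0]
        exact CJ1_gs h1 u hu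
      | succ j ih =>
        intro hj
        obtain ⟨i, hi, he⟩ := ih (by omega)
        refine ⟨blkF 0 T.L i, (h3 i hi).2.1, ?_⟩
        rw [(h3 i hi).2.2.2.1, he]
        exact CJ1_rot (by omega)
    obtain ⟨i, hi, he⟩ := key k (by omega)
    exact ⟨i, List.mem_range.2 hi, by rw [beq_iff_eq]; exact he⟩
  · rw [List.all_eq_true]
    intro i hi
    have h4 := h3 i (List.mem_range.1 hi)
    simp only [Bool.and_eq_true, decide_eq_true_eq, beq_iff_eq]
    exact ⟨⟨⟨⟨h4.1, h4.2.1⟩, h4.2.2.1⟩, h4.2.2.2.1⟩, h4.2.2.2.2.1⟩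
  · rw [allF_eq, List.all_eq_true]
    intro i hi
    rw [allF_eq, List.all_eq_true]
    intro j hj
    have h4 := h3 i (List.mem_range.1 hi)
    have h5 := h3 j (List.mem_range.1 hj)
    cases hb1 : Nat.beq (nthF 0 (blkF [] T.ws j) 0) (bwC m (nthF 0 (blkF [] T.ws i) 0)) with
    | false => rfl
    | true =>
      rw [cond_true]
      cases hb2 : Nat.beq (nthF 0 (blkF [] T.ws j) ((blkF [] T.ws j).length - 1))
          (fwC m (nthF 0 (blkF [] T.ws i) 1)) with
      | false => rfl
      | true =>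
        rw [cond_true, h4.2.2.2.2.2.2, ← Nat.eq_of_beq_eq_true hb1, ← Nat.eq_of_beq_eq_true hb2]
        exact h5.2.2.2.2.2.1

private theorem CJ1_bifo (a b : Bool) : (bif a then true else b) = (a || b) := by
  cases a <;> rfl

/-! ### reachable words -/

private theorem CJ1_bit {A j : ℕ} : bitK A j = A.testBit j := by
  have e : bitK A j = Nat.beq (A / 2 ^ j % 2) 1 := rfl
  rw [e, Nat.testBit_eq_decide_div_mod_eq]
  rcases Nat.mod_two_eq_zero_or_one (A / 2 ^ j) with h | h
  · rw [h]
    rfl
  · rw [h]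
    rfl

/-- the lowest bit -/
private theorem CJ1_gcd {N M : ℕ} (hM : M < 2 ^ N) (h0 : M ≠ 0) :
    ∃ q c, q < N ∧ Nat.gcd M (2 ^ N) = 2 ^ q ∧ M = (2 * c + 1) * 2 ^ q := by
  obtain ⟨q, hq, hg⟩ := (Nat.dvd_prime_pow Nat.prime_two).1 (Nat.gcd_dvd_right M (2 ^ N))
  obtain ⟨c, hc⟩ : 2 ^ q ∣ M := by
    rw [← hg]
    exact Nat.gcd_dvd_left M (2 ^ N)
  have hqN : q < N := by
    by_contra hcon
    have h1 : 2 ^ N ≤ M := by
      refine le_trans (Nat.pow_le_pow_right (by norm_num) (not_lt.1 hcon)) ?_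
      refine Nat.le_of_dvd (Nat.pos_of_ne_zero h0) ⟨c, hc⟩
    omega
  have hodd : c % 2 = 1 := by
    by_contra hcon
    have h2 : 2 ∣ c := Nat.dvd_of_mod_eq_zero (by omega)
    obtain ⟨c', hc'⟩ := h2
    have h3 : 2 ^ (q + 1) ∣ Nat.gcd M (2 ^ N) :=
      Nat.dvd_gcd ⟨c', by rw [hc, hc', pow_succ]; ring⟩ (pow_dvd_pow 2 hqN)
    rw [hg] at h3
    have h4 := Nat.le_of_dvd (Nat.two_pow_pos q) h3
    rw [pow_succ] at h4
    have := Nat.two_pow_pos q
    omega
  refine ⟨q, c / 2, hqN, hg, ?_⟩
  rw [show 2 * (c / 2) + 1 = c by omega, hc, mul_comm]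

/-- all sets are masks with `N` bits -/
private theorem CJ1_orlt {row : ℕ → ℕ} {N : ℕ} (hrow : ∀ c < N, row (2 ^ c) < 2 ^ N) {k : ℕ → Bool} (fuel : ℕ) :
    ∀ {S acc : ℕ}, S < 2 ^ N → acc < 2 ^ N → orK row (2 ^ N) k fuel S acc = true →
      ∃ A, A < 2 ^ N ∧ k A = true ∧ (∀ j, acc.testBit j = true → A.testBit j = true) ∧
        ∀ c, S.testBit c = true → ∀ j, (row (2 ^ c)).testBit j = true → A.testBit j = true := by
  induction fuel with
  | zero =>
    intro S acc _ ha h
    have h1 : (bif Nat.beq S 0 then k acc else false) = true := h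
    rw [CJ1_bif, Bool.and_eq_true] at h1
    have h2 := Nat.eq_of_beq_eq_true h1.1
    subst h2
    exact ⟨acc, ha, h1.2, fun _ hj => hj, fun c hc => by simp at hc⟩
  | succ fuel ih =>
    intro S acc hS ha h
    rcases S with _ | S
    · exact ⟨acc, ha, h, fun _ hj => hj, fun c hc => by simp at hc⟩
    · have h1 : orK row (2 ^ N) k fuel (S + 1 - Nat.gcd (S + 1) (2 ^ N))
          (acc ||| row (Nat.gcd (S + 1) (2 ^ N))) = true := h
      obtain ⟨q, c, hqN, hg, hc⟩ := CJ1_gcd hS (Nat.succ_ne_zero S)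
      rw [hg] at h1
      obtain ⟨A, hA0, hA, hA1, hA2⟩ := ih (lt_of_le_of_lt (Nat.sub_le _ _) hS)
        (Nat.or_lt_two_pow ha (hrow q hqN)) h1
      refine ⟨A, hA0, hA, fun j hj => hA1 j (by rw [Nat.testBit_or, hj, Bool.true_or]), ?_⟩
      intro p hp j hj
      by_cases hpq : p = q
      · subst hpq
        exact hA1 j (by rw [Nat.testBit_or, hj, Bool.or_true])
      · refine hA2 p ?_ j hj
        have e1 : S + 1 - 2 ^ q = (2 * c) * 2 ^ q := by
          rw [hc, add_mul, one_mul, Nat.add_sub_cancel]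
        rw [hc, Nat.testBit_mul_two_pow, Bool.and_eq_true, decide_eq_true_eq] at hp
        obtain ⟨h2, h3⟩ := hp
        rw [e1, Nat.testBit_mul_two_pow, decide_eq_true h2, Bool.true_and]
        obtain ⟨j', hj'⟩ : ∃ j', p - q = j' + 1 := ⟨p - q - 1, by omega⟩
        rw [hj', Nat.testBit_succ] at h3 ⊢
        rw [show (2 * c + 1) / 2 = c by omega] at h3
        rw [show 2 * c / 2 = c by omega]
        exact h3

omit [NeZero m] in
private theorem CJ1_exn {T : PTab} {rows : List (List (List ℕ))} {ok : ℕ → ℕ → Bool}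
    (hnx : ∀ i < T.len, ∀ j ∈ blkF [] T.nx i, j < T.len) (hrow : ∀ c < T.len, rowK rows c < 2 ^ T.len)
    (hok : ∀ i < T.len, ∀ j ∈ blkF [] T.nx i, ok i j = true → (rowK rows i).testBit j = true)
    {fuel : ℕ} {k : ℕ → Bool} (p : ℕ) : ∀ {S : ℕ}, S < 2 ^ T.len →
      rcK (rowX rows) (2 ^ T.len) fuel k (p + 1) S = true →
      ∃ A, k A = true ∧ ∀ cur < T.len, S.testBit cur = true → ∀ first,
        exN ok (blkF [] T.nx) first p cur = true → A.testBit first = true := by
  induction p with
  | zero =>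
    intro S hS h
    have h1 : orK (rowX rows) (2 ^ T.len) (fun A => k A) fuel S 0 = true := h
    obtain ⟨A, -, hA, -, hA2⟩ := CJ1_orlt (row := rowX rows) hrow fuel hS (Nat.two_pow_pos _) h1
    refine ⟨A, hA, fun cur hcur hSc first he => ?_⟩
    have h2 : (bif anyF (Nat.beq first) (blkF [] T.nx cur) then ok cur first else false) = true := he
    rw [CJ1_bif, Bool.and_eq_true, anyF_eq, List.any_eq_true] at h2
    obtain ⟨⟨y, hy, h3⟩, h4⟩ := h2
    have h5 : first = y := Nat.eq_of_beq_eq_true h3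
    subst h5
    exact hA2 cur hSc first (hok cur hcur first hy h4)
  | succ p ih =>
    intro S hS h
    have h1 : orK (rowX rows) (2 ^ T.len) (fun A => rcK (rowX rows) (2 ^ T.len) fuel k (p + 1) A) fuel S 0 =
      true := h
    obtain ⟨A1, hA1, h2, -, h3⟩ := CJ1_orlt (row := rowX rows) hrow fuel hS (Nat.two_pow_pos _) h1
    obtain ⟨A, hA, h4⟩ := ih hA1 h2
    refine ⟨A, hA, fun cur hcur hSc first he => ?_⟩
    have h5 : anyF (fun U => bif ok cur U then exN ok (blkF [] T.nx) first p U else false) (blkF [] T.nx cur) =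
      true := he
    rw [anyF_eq, List.any_eq_true] at h5
    obtain ⟨U, hU, h6⟩ := h5
    rw [CJ1_bif, Bool.and_eq_true] at h6
    exact h4 U (hnx cur hcur U hU) (h3 cur hSc U (hok cur hcur U hU h6.1)) first h6.2

private theorem CJ1_pow {N c : ℕ} (hc : c < N) : 2 ^ c < 2 ^ N ∧ (2 ^ c).testBit c = true :=
  ⟨Nat.pow_lt_pow_right (by norm_num) hc, Nat.testBit_two_pow_self⟩

/-- what the rows of the level `k` say -/
private def RowOK (m : ℕ) (T : PTab) (k : ℕ) (rows : List (List (List ℕ))) : Prop :=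
  (∀ c < T.len, rowK rows c < 2 ^ T.len) ∧
    ∀ i < T.len, ∀ j ∈ blkF [] T.nx i, okR m T k i j = true → (rowK rows i).testBit j = true

omit [NeZero m] in
private theorem CJ1_lv {T : PTab} (hnx : ∀ i < T.len, ∀ j ∈ blkF [] T.nx i, j < T.len)
    (hL : ∀ i < T.len, blkF 0 T.L i < T.len) {k : ℕ} {prev new : List (List (List ℕ))} (hp : RowOK m T k prev)
    (h : lvK m T (2 ^ T.len) prev new = true) : RowOK m T (k + 1) new := by
  unfold lvK at h
  rw [allN_iff] at h
  constructor
  · intro c hc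
    have h1 := h c hc
    rw [CJ1_bif, Bool.and_eq_true] at h1
    exact Nat.le_of_ble_eq_true h1.1
  · intro i hi j hj hok
    have h1 := h i hi
    rw [CJ1_bif, Bool.and_eq_true] at h1
    have h2 := h1.2
    rw [CJ1_bifo, Bool.or_eq_true] at h2
    rcases h2 with h2 | h2
    · rw [allF_eq, List.all_eq_true] at h2
      have h3 := h2 j hj
      rw [CJ1_bit] at h3
      exact h3
    · obtain ⟨A, hA, h3⟩ := CJ1_exn (ok := okR m T k) hnx hp.1 hp.2 (m - 2) (CJ1_pow (hL i hi)).1 h2
      have h4 : exN (okR m T k) (blkF [] T.nx) (blkF 0 T.R j) (m - 2) (blkF 0 T.L i) = true := hok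
      have h5 := h3 _ (hL i hi) (CJ1_pow (hL i hi)).2 _ h4
      rw [allF_eq, List.all_eq_true] at hA
      have h6 := hA j hj
      rw [CJ1_bit, h5, cond_true, CJ1_bit] at h6
      exact h6

omit [NeZero m] in
private theorem CJ1_lvs {T : PTab} (hnx : ∀ i < T.len, ∀ j ∈ blkF [] T.nx i, j < T.len)
    (hL : ∀ i < T.len, blkF 0 T.L i < T.len) {fin : List (List (List ℕ)) → Bool}
    (lv : List (List (List (List ℕ)))) : ∀ {k : ℕ} {prev : List (List (List ℕ))}, RowOK m T k prev →
      lvsK m T (2 ^ T.len) fin lv prev = true → ∃ rows, fin rows = true ∧ RowOK m T (k + lv.length) rows := by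
  induction lv with
  | nil =>
    intro k prev hp h
    exact ⟨prev, h, hp⟩
  | cons new lv ih =>
    intro k prev hp h
    have h1 : (bif lvK m T (2 ^ T.len) prev new then lvsK m T (2 ^ T.len) fin lv new else false) = true := h
    rw [CJ1_bif, Bool.and_eq_true] at h1
    obtain ⟨rows, h2, h3⟩ := ih (CJ1_lv hnx hL hp h1.1) h1.2
    refine ⟨rows, h2, ?_⟩
    rw [List.length_cons, show k + (lv.length + 1) = k + 1 + lv.length by ring]
    exact h3

omit [NeZero m] in
private theorem CJ1_np {GS : List (List ℕ)} {T : PTab} {Ix : List ℕ} {Bk row0 : List (List (List ℕ))}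
    {lv : List (List (List (List ℕ)))} {r : ℕ} (h : npJ m GS T Ix Bk row0 lv r = true) : noPatch m GS T r = true := by
  unfold npJ at h
  simp only [Bool.and_eq_true] at h
  obtain ⟨⟨⟨⟨h1, h2⟩, h3⟩, h4⟩, h5⟩ := h
  rw [fQ_eq] at h5
  have h3' : lv.length = r := Nat.eq_of_beq_eq_true h3
  rw [allN_iff] at h4
  have hnx : ∀ i < T.len, ∀ j ∈ blkF [] T.nx i, j < T.len := by
    intro i hi j hj
    have h6 := h4 i hi
    rw [CJ1_bif, Bool.and_eq_true, allF_eq, List.all_eq_true] at h6
    have h7 := h6.2 j hj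
    rw [CJ1_bif, Bool.and_eq_true] at h7
    exact Nat.le_of_ble_eq_true h7.1
  have hL : ∀ i < T.len, blkF 0 T.L i < T.len := by
    intro i hi
    have h6 := (allN_iff _ _).1 h2 i hi
    unfold ptJ at h6
    simp only [Bool.and_eq_true, decide_eq_true_eq, beq_iff_eq] at h6
    exact h6.1.1.1.1.1.2
  have h0 : RowOK m T 0 row0 := by
    constructor
    · intro c hc
      have h6 := h4 c hc
      rw [CJ1_bif, Bool.and_eq_true] at h6
      exact Nat.le_of_ble_eq_true h6.1
    · intro i hi j hj _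
      have h6 := h4 i hi
      rw [CJ1_bif, Bool.and_eq_true, allF_eq, List.all_eq_true] at h6
      have h7 := h6.2 j hj
      rw [CJ1_bif, Bool.and_eq_true, CJ1_bit] at h7
      exact h7.2
  have h5' : lvsK m T (2 ^ T.len) (finK m T (2 ^ T.len)) lv row0 = true := h5
  obtain ⟨rows, h6, h7⟩ := CJ1_lvs hnx hL lv h0 h5'
  rw [Nat.zero_add, h3'] at h7
  unfold noPatch
  rw [Bool.and_eq_true]
  refine ⟨CJ1_ptab h1 h2, ?_⟩
  rw [allF_eq, List.all_eq_true]
  intro i hi
  have hi' := List.mem_range.1 hi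
  unfold finK at h6
  have h8 := (allN_iff _ _).1 h6 i hi'
  cases hb : Nat.ble 2 (nthF 0 (blkF [] T.ws i) 0) with
  | true => rfl
  | false =>
    rw [hb, cond_false] at h8
    rw [cond_false]
    obtain ⟨A, hA, h9⟩ := CJ1_exn (ok := okR m T r) hnx h7.1 h7.2 (m - 1) (CJ1_pow hi').1 h8
    cases he : exN (okR m T r) (blkF [] T.nx) i (m - 1) i with
    | false => rfl
    | true =>
      exfalso
      have h10 := h9 i hi' (CJ1_pow hi').2 i he
      rw [CJ1_bit, h10, cond_true] at hA
      exact absurd hA (by simp)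

/-! ### the node -/

theorem lpJ_sound (hm : 3 ≤ m) (hm' : m ≤ 8) {a b : ZMod m → ℝ} {G : ZMod m → ZMod m → Bool → Prop}
    (hW : WX a b G) {w : List ℕ} (hG : ∀ j k c, G j k c → relT w j k c = true)
    {st : List (ℕ × ℕ × ℕ × ℕ × ℕ × ℕ)} (hst : stQ m w st = true) {u L fuel al be W H p : ℕ}
    {GS : List (List ℕ)} {Gn : List ℕ} {T : PTab} {Ix : List ℕ} {Bk row0 : List (List (List ℕ))}
    {lv : List (List (List (List ℕ)))} {r ω ρ : ℕ}
    {cvg : List (List ℕ)} (h : lpJ m st u L fuel al be W H p GS Gn T Ix Bk row0 lv r ω ρ cvg = true) :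
    ∃ cv ∈ cvg.flatten, ∑ i : ZMod m, ((cv / 16 ^ i.val % 16 : ℕ) : ℝ) * a i = 2 ∧
      ∑ i : ZMod m, ((cv / 16 ^ i.val % 16 : ℕ) : ℝ) * b i = 2 := by
  unfold lpJ at h
  simp only [Bool.and_eq_true, allF_eq, List.all_eq_true, beq_iff_eq] at h
  obtain ⟨⟨⟨⟨⟨⟨⟨⟨⟨⟨⟨hu, hL⟩, hfuel⟩, hsW⟩, hsH⟩, hwt⟩, hρ⟩, hno⟩, hGS⟩, hGn⟩, hpair⟩, hsr⟩ := h
  rw [allN_iff] at hsr
  have hu' : 4 ≤ u := Nat.le_of_ble_eq_true hu
  have hL' : L < 2 ^ (u - 2) := Nat.le_of_ble_eq_true hL
  have hfuel' : fuel ≤ 15 := Nat.le_of_ble_eq_true hfuel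
  have hρ' : ρ = (m + 1) ^ r * ω := Nat.eq_of_beq_eq_true hρ
  have hρZ : (ρ : ℤ) = ((m : ℤ) + 1) ^ r * ω := by
    rw [hρ']
    push_cast
    rfl
  obtain ⟨x, l, hcode, hP, hlen, ha, hb, hcost, hgood⟩ := hW GS T r (CJ1_np hno) (wV al be) (crA u W al be)
    (fun x y => crA_anti u W al be x y) (L : ℤ) (ω : ℤ) (by positivity) (by
      rw [← hρZ]
      exact CJ1_budget hm hwt)
  -- the cost
  have h5 : ((pcost (wd u (2 * m) W) (code x) (l.map code) (code x) : ℕ) : ℤ) ≤
      pcost (stepCost (wV al be) (crA u W al be)) x l x := by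
    have h6 := CJ1_le (StepG G) (fun x y => stepCost (wV al be) (crA u W al be) x y + wP be x - wP be y)
      (wd u (2 * m) W) (fun x y hxy => CJ1_step hst hwt hpair (hG _ _ _ hxy)) l x x hP
    rw [CJ1_tele] at h6
    linarith
  have htL : pcost (wd u (2 * m) W) (code x) (l.map code) (code x) < L := by
    have : ((pcost (wd u (2 * m) W) (code x) (l.map code) (code x) : ℕ) : ℤ) < (L : ℕ) :=
      lt_of_le_of_lt h5 hcost
    exact_mod_cast this
  -- the table
  have hc := CJ1_code_lt x
  have hj := hsr (code x / 2) (by omega)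
  obtain ⟨S0, h3, h4⟩ := tabH_sound (A := []) hj (fun i => Or.inl (by
    rw [dg_def, Nat.zero_div, Nat.zero_mod]))
  have hS0 : ∀ i, dg 32 S0 i = 0 ∨ dg 32 S0 i ∈ nthF [] cvg (code x / 2) := by
    intro i
    rcases h4 i with h6 | h6 | h6
    · exact Or.inl h6
    · exact absurd h6 List.not_mem_nil
    · exact Or.inr h6
  rw [CJ1_bif, Bool.and_eq_true] at h3
  have h7 : srJ u (Nat.mul 2 m) L fuel W (rwQ H (Nat.pow 2 (Nat.mul u (Nat.mul 2 m))) (code x)) (accJ p S0 ρ Gn)
      (code x) = true := by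
    rcases Nat.mod_two_eq_zero_or_one (code x) with h7 | h7
    · have e : Nat.mul 2 (code x / 2) = code x := by
        change 2 * (code x / 2) = code x
        omega
      rw [e] at h3
      exact h3.1
    · have e : Nat.succ (Nat.mul 2 (code x / 2)) = code x := by
        change 2 * (code x / 2) + 1 = code x
        omega
      rw [e] at h3
      exact h3.2
  -- the search
  set Hs : ℕ := rwQ H (Nat.pow 2 (Nat.mul u (Nat.mul 2 m))) (code x) with hHs
  have h8 : (bif hbQ u (2 * m) W Hs (Hs - dg u Hs (code x) * 2 ^ (u * code x)) (onQ u (2 * m))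
      (2 ^ (u - 1) * onQ u (2 * m)) (2 ^ (u * (2 * m))) (code x) then
      dfsJ (2 * m) W (Hs - dg u Hs (code x) * 2 ^ (u * code x)) (dg u Hs (code x)) (onQ u (2 * m))
        (2 ^ (u - 1) * onQ u (2 * m)) (ixQ u (2 * m)) (2 ^ u) (2 ^ (u - 1)) (2 ^ (u * (2 * m))) (code x)
        (accJ p S0 ρ Gn) fuel (code x) L (Nat.pow 16 (Nat.div (code x) 2)) (Nat.add 16 (code x)) 1
      else false) = true := h7
  rw [CJ1_bif, Bool.and_eq_true] at h8
  have hHs' : Hs = rwQ H (2 ^ (u * (2 * m))) (code x) := rfl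
  have hdH : ∀ d < 2 * m, dg u Hs d = dg u H (2 * m * code x + d) := fun d hd => by
    rw [hHs']
    exact dg_rwQ hd
  have hidx : ∀ c < 2 * m, ∀ d < 2 * m, 2 * m * c + d < 2 * m * (2 * m) := by
    intro c hc d hd
    calc 2 * m * c + d < 2 * m * c + 2 * m := by omega
      _ = 2 * m * (c + 1) := by ring
      _ ≤ 2 * m * (2 * m) := Nat.mul_le_mul_left _ hc
  have S : SrD u (2 * m) L W Hs (Hs - dg u Hs (code x) * 2 ^ (u * code x)) (onQ u (2 * m))
      (2 ^ (u - 1) * onQ u (2 * m)) (ixQ u (2 * m)) (2 ^ u) (2 ^ (u - 1)) (2 ^ (u * (2 * m))) (code x) :=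
    { hu := hu'
      hn := by
        have : (2 : ℕ) ^ 4 ≤ 2 ^ u := Nat.pow_le_pow_right (by norm_num) hu'
        omega
      hL := hL'
      hW := fun c hc d hd => smQ_sound (by omega) hsW (hidx c hc d hd)
      hH := fun d hd => by
        rw [hdH d hd]
        exact smQ_sound (by omega) hsH (hidx _ hc d hd)
      hc0 := hc
      hHsl := by
        rw [hHs']
        exact rwQ_lt (Nat.two_pow_pos _)
      hHc := rfl
      hon := rfl
      hG := rfl
      hix := rfl
      hV := rfl
      hU := rfl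
      hK := rfl }
  obtain ⟨h9, h9'⟩ := S.dfs h8.1 (l.map code) fuel (code x) L _ _ 1 le_rfl hc h8.2
    (fun y hy => by
      obtain ⟨z, hz, rfl⟩ := List.mem_map.1 hy
      exact ⟨hcode z hz, CJ1_code_lt z⟩) htL
  rw [List.length_map] at h9 h9'
  set q : List ℕ := ((x :: l).map code) with hqdef
  have hcnt : Nat.pow 16 (Nat.div (code x) 2) + ((l.map code).map fun x => 16 ^ (x / 2)).sum =
      (q.map fun x => 16 ^ (x / 2)).sum := rfl
  have hwd : (l.map code).foldl (fun x y => 16 * x + y) (Nat.add 16 (code x)) = wdF q := rfl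
  rw [hcnt, hwd] at h9
  have hqlt : ∀ y ∈ q, y / 2 < m := by
    intro y hy
    obtain ⟨z, -, rfl⟩ := List.mem_map.1 hy
    rw [CJ1_code_div]
    exact ZMod.val_lt _
  have hq15 : ∀ y ∈ q, y ≤ 15 := by
    intro y hy
    have := hqlt y hy
    omega
  have hcpos : 0 < (q.map fun x => 16 ^ (x / 2)).sum := by
    rw [← hcnt]
    exact lt_of_lt_of_le (Nat.pow_pos (by norm_num)) (Nat.le_add_right _ _)
  unfold accJ at h9
  have hble : Nat.ble (1 + l.length) 1 = false := by
    cases hb : Nat.ble (1 + l.length) 1 with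
    | false => rfl
    | true =>
      have := Nat.le_of_ble_eq_true hb
      omega
  rw [hble, cond_false, fQ_eq, CJ1_bifo, Bool.or_eq_true, CJ1_bif, Bool.and_eq_true, fQ_eq] at h9
  rcases h9 with h9 | ⟨h9, h10⟩
  · have h11 := Nat.eq_of_beq_eq_true h9
    have h12 : (q.map fun x => 16 ^ (x / 2)).sum ∈ nthF [] cvg (code x / 2) := by
      rcases hS0 (Nat.mod (q.map fun x => 16 ^ (x / 2)).sum p) with h13 | h13
      · omega
      · rw [h11] at h13
        exact h13
    refine ⟨(q.map fun x => 16 ^ (x / 2)).sum, ?_, ?_, ?_⟩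
    · rw [nthF_eq] at h12
      by_cases hlt : code x / 2 < cvg.length
      · rw [List.getD_eq_getElem _ _ hlt] at h12
        exact List.mem_flatten.2 ⟨_, List.getElem_mem hlt, h12⟩
      · rw [List.getD_eq_default _ _ (by omega)] at h12
        exact absurd h12 List.not_mem_nil
    · refine CJ1_cnt (x :: l) (by rw [List.length_cons]; omega) a ?_
      rw [List.map_cons, List.sum_cons]
      exact ha
    · refine CJ1_cnt (x :: l) (by rw [List.length_cons]; omega) b ?_
      rw [List.map_cons, List.sum_cons]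
      exact hb
  · exfalso
    rw [anyF_eq, List.any_eq_true] at h10
    obtain ⟨z, hz, h11⟩ := h10
    rw [← hGn] at hz
    obtain ⟨v, hv, rfl⟩ := List.mem_map.1 hz
    have h12 : q = v := CJ1_wdinj hq15 (fun y hy => Nat.le_of_ble_eq_true (hGS v hv y hy))
      (Nat.eq_of_beq_eq_true h11)
    have h13 := hgood (by
      rw [h12]
      exact hv)
    have h14 : L - pcost (wd u (2 * m) W) (code x) (l.map code) (code x) ≤ ρ * (1 + l.length) :=
      Nat.le_of_ble_eq_true h9
    have h15 : L ≤ pcost (wd u (2 * m) W) (code x) (l.map code) (code x) + ρ * (1 + l.length) := by omega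
    have h16 : (L : ℤ) ≤ ((pcost (wd u (2 * m) W) (code x) (l.map code) (code x) : ℕ) : ℤ) +
        ρ * (1 + l.length) := by exact_mod_cast h15
    have h17 : (ρ : ℤ) * ((l.length : ℤ) + 1) = ρ * (1 + l.length) := by ring
    rw [← hρZ, h17] at h13
    linarith

end Pool.Agent.Lib_MP_fa6e45
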