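import Pool.Agent.Lib_MP_fa6e45.CJ1

/-!
MP_fa6e45_co, stage 9: soundness of certificates with linear programming nodes with good stars (compare CQ4, G24).
-/

open Set MeasureTheory Complex
open scoped Topology

namespace Pool.Agent.Lib_MP_fa6e45

variable {n m : ℕ} [NeZero m]

private theorem CJ2_bif (a b : Bool) : (bif a then b else false) = (a && b) := by
  cases a <;> rfl

omit [NeZero m] in
private theorem CJ2_siC (r : Bool) (s i : ZMod m) : siC r s (sgC r s i) = i := by
  unfold siC sgC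
  cases r <;> simp

/-- one child -/
private theorem CJ2_one {w : List ℕ} {P : Polygon n} {S : Arcs P m} {b : ZMod m → ℝ}
    (M : SitU w P S b) (hm' : m ≤ 8) {sy : List (Bool × ℕ × List ℕ)} (hsy : ∀ g ∈ sy, symT m w g = true)
    (hsl : ∀ g ∈ sy, g.2.2.length = m)
    {D : ℕ → List (ℕ × ℕ)} (hbd : ∀ i, ∀ e ∈ D i, bndQ m e = true) {i : ℕ}
    (hD : ∀ j < i, NodeU m w ((D j).map (eqnQ m))) {E : List (ℕ × ℕ)} (hE : ∀ e ∈ E, bndQ m e = true)
    (hl : E.length ≤ 15) {q : ℕ} (hq : q ≤ 20)
    (ha : ∀ e ∈ E, Eqn.Holds (eqnQ m e) fun j => P.ang (S.κ j) / Real.pi)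
    (hb : ∀ e ∈ E, Eqn.Holds (eqnQ m e) b) {c : HQ} (hc : ch1Q m q sy D i E c = true) :
    HasPeriodic P := by
  cases c with
  | con j l =>
    have h1 : conQ m q E j l = true := hc
    refine (conQ_sound hm' hq hE hl ha (fun i => div_pos (P.ang_pos _) Real.pi_pos) (fun i => ?_)
      (fun i h => ?_) h1).elim
    · rw [div_lt_iff₀ Real.pi_pos]
      exact P.ang_lt _
    · rw [div_eq_one_iff_eq Real.pi_ne_zero] at h
      exact P.ang_ne _ h
  | ref idx g ls =>
    have h1 : (Nat.blt idx i && Nat.blt g sy.length &&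
      derQ m q E (nthF (false, 0, []) sy g).2.2 (D idx) ls) = true := hc
    simp only [Bool.and_eq_true] at h1
    obtain ⟨⟨h2, h3⟩, h4⟩ := h1
    have h2' : idx < i := Nat.le_of_ble_eq_true h2
    have h3' : g < sy.length := Nat.le_of_ble_eq_true h3
    have h5 := symT_sound (m := m) (hsy _ (List.getElem_mem h3'))
    have h5l := hsl _ (List.getElem_mem h3')
    rw [nthF_eq, List.getD_eq_getElem _ _ h3'] at h4
    set e := sy[g] with he
    obtain ⟨h6, h7⟩ := h5
    obtain ⟨P', S', M', hang, hper⟩ := M.dih e.1 (e.2.1 : ZMod m) h6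
    have hτ : ∀ i : ZMod m, e.2.2.getD i.val 0 = (sgC e.1 (e.2.1 : ZMod m) i).val := by
      intro i
      have := h7 i.val (ZMod.val_lt i)
      rw [ZMod.natCast_zmod_val] at this
      exact this
    have key : ∀ {a : ZMod m → ℝ}, (∀ e ∈ E, Eqn.Holds (eqnQ m e) a) →
        ∀ E' ∈ (D idx).map (eqnQ m), Eqn.Holds E' fun j => a (siC e.1 (e.2.1 : ZMod m) j) := by
      intro a ha E' hE'
      obtain ⟨t, ht, rfl⟩ := List.mem_map.1 hE'
      exact derQ_sound hm' hq hE hl ha h5l hτ (fun i => CJ2_siC _ _ i) (hbd idx) h4 t ht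
    refine hper (hD idx h2' P' S' _ M' ?_ (key hb))
    have h8 := key ha
    have e1 : (fun j => P'.ang (S'.κ j) / Real.pi) =
        fun j => P.ang (S.κ (siC e.1 (e.2.1 : ZMod m) j)) / Real.pi := by
      funext j
      rw [hang]
    rw [e1]
    exact h8

private theorem CJ2_ch {w : List ℕ} {P : Polygon n} {S : Arcs P m} {b : ZMod m → ℝ}
    (M : SitU w P S b) (hm' : m ≤ 8) {sy : List (Bool × ℕ × List ℕ)} (hsy : ∀ g ∈ sy, symT m w g = true)
    (hsl : ∀ g ∈ sy, g.2.2.length = m)
    {D : ℕ → List (ℕ × ℕ)} (hbd : ∀ i, ∀ e ∈ D i, bndQ m e = true) {i : ℕ}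
    (hD : ∀ j < i, NodeU m w ((D j).map (eqnQ m))) {E : List (ℕ × ℕ)} (hE : ∀ e ∈ E, bndQ m e = true)
    (hl : E.length ≤ 14) {q : ℕ} (hq : q ≤ 20)
    (ha : ∀ e ∈ E, Eqn.Holds (eqnQ m e) fun j => P.ang (S.κ j) / Real.pi)
    (hb : ∀ e ∈ E, Eqn.Holds (eqnQ m e) b) {cvs : List ℕ} {ch : List HQ}
    (hc : chQ m q sy D i E cvs ch = true) {cv : ℕ} (hcv : cv ∈ cvs)
    (hha : Eqn.Holds (eqnQ m (cvQ m cv, 0)) fun j => P.ang (S.κ j) / Real.pi)
    (hhb : Eqn.Holds (eqnQ m (cvQ m cv, 0)) b) : HasPeriodic P := by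
  induction cvs generalizing ch with
  | nil => exact absurd hcv List.not_mem_nil
  | cons cv0 cvs ih =>
    cases ch with
    | nil => exact absurd hc (by simp [chQ])
    | cons c ch =>
      have h1 : (bif ch1Q m q sy D i ((cvQ m cv0, 0) :: E) c then chQ m q sy D i E cvs ch else false) = true := hc
      rw [CJ2_bif, Bool.and_eq_true] at h1
      rcases List.mem_cons.1 hcv with rfl | hcv
      · refine CJ2_one M hm' hsy hsl hbd hD (E := (cvQ m cv, 0) :: E) ?_ ?_ hq ?_ ?_ h1.1
        · intro e he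
          rcases List.mem_cons.1 he with rfl | he
          · exact cvQ_bnd hm' cv
          · exact hE e he
        · rw [List.length_cons]
          omega
        · intro e he
          rcases List.mem_cons.1 he with rfl | he
          · exact hha
          · exact ha e he
        · intro e he
          rcases List.mem_cons.1 he with rfl | he
          · exact hhb
          · exact hb e he
      · exact ih h1.2 hcv

theorem chkJ_sound (hm : 3 ≤ m) (hm' : m ≤ 8) {w : List ℕ} {C : ℕ} (hW : gqW m w C = true)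
    {sy : List (Bool × ℕ × List ℕ)}
    (hsy : ∀ g ∈ sy, symT m w g = true) (hsl : ∀ g ∈ sy, g.2.2.length = m)
    {st : List (ℕ × ℕ × ℕ × ℕ × ℕ × ℕ)} (hst : stQ m w st = true)
    {α : Type} {ck : (ℕ → List Eqn) → ℕ → α → Bool}
    (hck : ∀ (D : ℕ → List Eqn) (i : ℕ) (N : α), (∀ j < i, NodeU m w (D j)) → ck D i N = true →
      NodeU m w (D i))
    {D : ℕ → List (ℕ × ℕ)} (hbd : ∀ i, ∀ e ∈ D i, bndQ m e = true) {i : ℕ}
    (hD : ∀ j < i, NodeU m w ((D j).map (eqnQ m))) {N : QJ α}
    (h : chkJ ck m w C sy st D i N = true) : NodeU m w ((D i).map (eqnQ m)) := by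
  cases N with
  | i N =>
    intro n P S b M ha hb
    exact chkH_sound hm hm' hW hsy hsl hst hck hbd hD (N := N.toH) (chkI_chkH h) P S b M ha hb
  | s u L fuel al be W H q p GS Gn T Ix Bk row0 lv r ω ρ cvg ch =>
    have h' : (lpJ m st u L fuel al be W H p GS Gn T Ix Bk row0 lv r ω ρ cvg && Nat.ble q 20 && Nat.blt (D i).length 13 &&
          chQ m q sy D i (eq0Q m :: D i) cvg.flatten ch) = true := h
    simp only [Bool.and_eq_true] at h'
    obtain ⟨⟨⟨h1, h2⟩, h3⟩, h4⟩ := h'
    have h2' : q ≤ 20 := Nat.le_of_ble_eq_true h2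
    have h3' : (D i).length < 13 := Nat.le_of_ble_eq_true h3
    intro n P S b M ha hb
    obtain ⟨cv, hcv, hha, hhb⟩ := lpJ_sound hm hm' M.wx (fun j k c => (M.rel j k c).1) hst h1
    have hE : ∀ e ∈ eq0Q m :: D i, bndQ m e = true := by
      intro e he
      rcases List.mem_cons.1 he with rfl | he
      · exact eq0Q_bnd hm'
      · exact hbd i e he
    refine CJ2_ch M hm' hsy hsl hbd hD hE (by rw [List.length_cons]; omega) h2' ?_ ?_ h4 hcv
      (cvQ_holds hm' hha) (cvQ_holds hm' hhb)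
    · intro e he
      rcases List.mem_cons.1 he with rfl | he
      · exact eq0Q_holds hm hm' M.a_sum
      · exact ha _ (List.mem_map_of_mem he)
    · intro e he
      rcases List.mem_cons.1 he with rfl | he
      · exact eq0Q_holds hm hm' M.b_sum
      · exact hb _ (List.mem_map_of_mem he)

omit [NeZero m] in
private theorem CJ2_nthp {α : Type} {p : α → Prop} {d : α} (hd : p d) {l : List α} (hl : ∀ x ∈ l, p x) (i : ℕ) :
    p (nthF d l i) := by
  rw [nthF_eq, List.getD_eq_getElem?_getD]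
  rcases Nat.lt_or_ge i l.length with h | h
  · rw [List.getElem?_eq_getElem h]
    exact hl _ (List.getElem_mem h)
  · rw [List.getElem?_eq_none h]
    exact hd

omit [NeZero m] in
private theorem CJ2_bl3 {D : List (List (List (List (ℕ × ℕ))))} (h : allF (allF (allF (allF (bndQ m)))) D = true)
    (i : ℕ) : ∀ e ∈ bl3 [] D i, bndQ m e = true := by
  have h1 : ∀ x ∈ D, ∀ y ∈ x, ∀ z ∈ y, ∀ e ∈ z, bndQ m e = true := by
    intro x hx y hy z hz e he
    rw [allF_eq, List.all_eq_true] at h
    have h2 := h x hx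
    rw [allF_eq, List.all_eq_true] at h2
    have h3 := h2 y hy
    rw [allF_eq, List.all_eq_true] at h3
    have h4 := h3 z hz
    rw [allF_eq, List.all_eq_true] at h4
    exact h4 e he
  unfold bl3
  refine CJ2_nthp (p := fun z => ∀ e ∈ z, bndQ m e = true) (fun e he => absurd he List.not_mem_nil) ?_ _
  refine CJ2_nthp (p := fun y => ∀ z ∈ y, ∀ e ∈ z, bndQ m e = true) (fun e he => absurd he List.not_mem_nil) ?_ _
  exact CJ2_nthp (p := fun x => ∀ y ∈ x, ∀ z ∈ y, ∀ e ∈ z, bndQ m e = true)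
    (fun e he => absurd he List.not_mem_nil) h1 _

omit [NeZero m] in
private theorem CJ2_allI {α : Type} {g : ℕ → α → Bool} {l : List α} {i0 : ℕ}
    (h : allI g l i0 = true) (j : ℕ) (hj : j < l.length) : g (i0 + j) l[j] = true := by
  induction l generalizing i0 j with
  | nil => exact absurd hj (by simp)
  | cons x l ih =>
    have h' : (bif g i0 x then allI g l (Nat.succ i0) else false) = true := h
    cases hx : g i0 x
    · rw [hx] at h'
      exact absurd h' (by simp)
    · rw [hx, cond_true] at h'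
      cases j with
      | zero => simpa using hx
      | succ j =>
        have h2 := ih h' j (by simpa using hj)
        rw [show i0 + (j + 1) = Nat.succ i0 + j by omega]
        simpa using h2

/-- a certificate with all kinds of nodes proves that the word is solved -/
theorem nodeJ_of (hm : 3 ≤ m) (hm' : m ≤ 8) {tt : List TorT} (htt : ∀ T ∈ tt, T.OK m) {w : List ℕ} {C : ℕ}
    (hW : gqW m w C = true) {sy : List (Bool × ℕ × List ℕ)} {st : List (ℕ × ℕ × ℕ × ℕ × ℕ × ℕ)}
    {D : List (List (List (List (ℕ × ℕ))))} {Ns : List (QJ PN)} (h1 : preQ m w sy st D Ns.length = true)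
    (h2 : allI (chkJ (ckP m tt w sy) m w C sy st (bl3 [] D)) Ns 0 = true) : NodeU m w [] := by
  unfold preQ at h1
  simp only [Bool.and_eq_true, beq_iff_eq, List.all_eq_true, decide_eq_true_eq,
    List.isEmpty_iff] at h1
  obtain ⟨⟨⟨⟨⟨⟨q1, q2⟩, q3⟩, q4⟩, q5⟩, q6⟩, q7⟩ := h1
  have hbd := CJ2_bl3 q5
  have key : ∀ i, i < Ns.length → NodeU m w ((bl3 [] D i).map (eqnQ m)) := by
    intro i
    induction i using Nat.strong_induction_on with
    | _ i ih =>
      intro hi
      have h6 := CJ2_allI h2 i hi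
      rw [Nat.zero_add] at h6
      intro n P S b M ha hb
      exact chkJ_sound hm hm' hW q2 q3 q4 (ckP_sound hm hm' htt q2) hbd (fun j hj => ih j hj (by omega)) h6 P S b M
        ha hb
  intro n P S b M ha hb
  refine key (Ns.length - 1) (by omega) P S b M ?_ ?_
  · rw [q7]
    exact ha
  · rw [q7]
    exact hb

end Pool.Agent.Lib_MP_fa6e45
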