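import Pool.Agent.Lib_MP_fa6e45.CJ2

/-!
MP_fa6e45_co, stage 9: certificates in parts; the bounds for the equations are checked with bitwise operations.
-/

open Set MeasureTheory Complex
open scoped Topology

namespace Pool.Agent.Lib_MP_fa6e45

/-- bitwise or of all the numbers -/
noncomputable def lorB (l : List (ℕ × ℕ)) : ℕ :=
  List.rec (motive := fun _ => ℕ) 0 (fun e _ ih => Nat.lor (Nat.lor e.1 e.2) ih) l

/-- all bits of the numbers are bits of `M` -/
noncomputable def bndL (M : ℕ) (l : List (ℕ × ℕ)) : Bool := fQ (lorB l) fun x => Nat.beq (Nat.land x M) x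

/-- the same for many lists -/
noncomputable def bndM (M : ℕ) (D : List (List (List (ℕ × ℕ)))) : Bool := allF (allF (bndL M)) D

/-- the mask for the digits less than `2 ^ 20` -/
noncomputable def mskB (m M : ℕ) : Bool :=
  Nat.beq M (Nat.mul (Nat.sub (Nat.pow 2 20) 1) (onQ 48 (Nat.succ m)))

private theorem CJ3_lor {x y M : ℕ} (h : Nat.land (Nat.lor x y) M = Nat.lor x y) :
    Nat.land x M = x ∧ Nat.land y M = y := by
  have h' : (x ||| y) &&& M = x ||| y := h
  have key : ∀ i, (x.testBit i || y.testBit i) = true → M.testBit i = true := by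
    intro i hi
    have h1 : ((x ||| y) &&& M).testBit i = (x ||| y).testBit i := by rw [h']
    rw [Nat.testBit_and, Nat.testBit_or, hi, Bool.true_and] at h1
    exact h1
  constructor
  · show x &&& M = x
    apply Nat.eq_of_testBit_eq
    intro i
    rw [Nat.testBit_and]
    cases hx : x.testBit i with
    | false => rfl
    | true => rw [key i (by rw [hx, Bool.true_or]), Bool.and_true]
  · show y &&& M = y
    apply Nat.eq_of_testBit_eq
    intro i
    rw [Nat.testBit_and]
    cases hx : y.testBit i with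
    | false => rfl
    | true => rw [key i (by rw [hx, Bool.or_true]), Bool.and_true]

private theorem CJ3_lorB {M : ℕ} {l : List (ℕ × ℕ)} (h : Nat.land (lorB l) M = lorB l) :
    ∀ e ∈ l, Nat.land e.1 M = e.1 ∧ Nat.land e.2 M = e.2 := by
  induction l with
  | nil =>
    intro e he
    exact absurd he List.not_mem_nil
  | cons x l ih =>
    have h1 : Nat.land (Nat.lor (Nat.lor x.1 x.2) (lorB l)) M = Nat.lor (Nat.lor x.1 x.2) (lorB l) := h
    obtain ⟨h2, h3⟩ := CJ3_lor h1
    intro e he
    rcases List.mem_cons.1 he with rfl | he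
    · exact CJ3_lor h2
    · exact ih h3 e he

theorem bndL_sound {m M : ℕ} (hM : mskB m M = true) {l : List (ℕ × ℕ)} (h : bndL M l = true) :
    allF (bndQ m) l = true := by
  rw [allF_eq, List.all_eq_true]
  intro e he
  have h1 : Nat.land (lorB l) M = lorB l := Nat.eq_of_beq_eq_true h
  obtain ⟨h2, h3⟩ := CJ3_lorB h1 e he
  have hM' : M = Nat.mul (Nat.sub (Nat.pow 2 20) 1) (onQ 48 (Nat.succ m)) := Nat.eq_of_beq_eq_true hM
  have h4 : (Nat.beq (Nat.land e.1 (Nat.mul (Nat.sub (Nat.pow 2 20) 1) (onQ 48 (Nat.succ m)))) e.1 &&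
      Nat.beq (Nat.land e.2 (Nat.mul (Nat.sub (Nat.pow 2 20) 1) (onQ 48 (Nat.succ m)))) e.2) = true := by
    rw [← hM', h2, h3, Bool.and_eq_true]
    exact ⟨Nat.beq_refl _, Nat.beq_refl _⟩
  exact h4

theorem bndM_sound {m M : ℕ} (hM : mskB m M = true) {D : List (List (List (ℕ × ℕ)))} (h : bndM M D = true) :
    allF (allF (allF (bndQ m))) D = true := by
  unfold bndM at h
  rw [allF_eq, List.all_eq_true] at h ⊢
  intro x hx
  have h1 := h x hx
  rw [allF_eq, List.all_eq_true] at h1 ⊢
  intro y hy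
  exact bndL_sound hM (h1 y hy)

/-- the check in parts -/
theorem allF_consJ {α : Type} {f : α → Bool} {x : α} {l : List α} (h1 : f x = true) (h2 : allF f l = true) :
    allF f (x :: l) = true := by
  rw [allF_eq, List.all_eq_true] at h2 ⊢
  intro y hy
  rcases List.mem_cons.1 hy with rfl | hy
  · exact h1
  · exact h2 y hy

variable {m : ℕ} [NeZero m]

/-- first part of `preQ` -/
noncomputable def preJ (m : ℕ) [NeZero m] (w : List ℕ) (sy : List (Bool × ℕ × List ℕ))
    (st : List (ℕ × ℕ × ℕ × ℕ × ℕ × ℕ)) : Bool :=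
  (w == decW m (encW w)) && sy.all (symT m w) && sy.all (fun g => g.2.2.length == m) && stQ m w st

/-- last part of `preQ` -/
noncomputable def lstJ (D : List (List (List (List (ℕ × ℕ))))) (len : ℕ) : Bool :=
  decide (0 < len) && (bl3 [] D (len - 1)).isEmpty

/-- a certificate in parts proves that the word is solved -/
theorem nodeJ_parts (hm : 3 ≤ m) (hm' : m ≤ 8) {tt : List TorT} (htt : ∀ T ∈ tt, T.OK m) {w : List ℕ} {C : ℕ}
    (hW : gqW m w C = true) {sy : List (Bool × ℕ × List ℕ)} {st : List (ℕ × ℕ × ℕ × ℕ × ℕ × ℕ)}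
    (h1 : preJ m w sy st = true) {M : ℕ} (hM : mskB m M = true)
    {D : List (List (List (List (ℕ × ℕ))))} (hD : allF (bndM M) D = true) {Ns : List (QJ PN)} {len : ℕ}
    (hlen : Ns.length = len) (hl : lstJ D len = true)
    (h2 : allI (chkJ (ckP m tt w sy) m w C sy st (bl3 [] D)) Ns 0 = true) : NodeU m w [] := by
  refine nodeJ_of hm hm' htt hW ?_ h2
  unfold preJ at h1
  unfold lstJ at hl
  unfold preQ
  rw [hlen]
  simp only [Bool.and_eq_true] at h1 hl ⊢
  refine ⟨⟨⟨h1, ?_⟩, hl.1⟩, hl.2⟩
  rw [allF_eq, List.all_eq_true] at hD ⊢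
  intro x hx
  exact bndM_sound hM (hD x hx)

end Pool.Agent.Lib_MP_fa6e45
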