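import Pool.Agent.Lib_MP_fa6e45.CZ0

/-!
MP_fa6e45_co, stage 9 (node `pt`): a linear programming node with good stars, where the existence of a bad corner at
distance at most `r` from every tile is shown by a refutation: a patch of tiles (with good corners) is grown step by
step, with branching on the words of the stars at the corners, closing the stars.
-/

open Set MeasureTheory Complex
open scoped Topology

namespace Pool.Agent.Lib_MP_fa6e45

variable {m : ℕ} [NeZero m]

/-- a patch: the corner with code `m * k + j` is the corner number `j` (backwards) of the tile number `k`. `dl`: the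
tiles at distance at most `dl k` from tile `k` have good corners; `W`: number of the word of the star at a corner;
`G`: the next corner around the vertex -/
structure PSt where
  dl : List ℕ
  W : List (ℕ × ℕ)
  G : List (ℕ × ℕ)

/-- instructions: branch on the word at `x`; new tile (with codes from `c` on, `e = c + m - 1`) at the corner `x`, `z`
is the corner after `x` and `d` is the depth; word `v` at the next corner `y` of `x` with word `i`; word `v` at `x`
from the word `i` at the next corner `y`; the star at `x` with the word `i` closes at `y`; contradiction of two words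
`i`, `j` at `x`; contradiction of the words `i` at `x` and `j` at the corner after `x` -/
inductive PIn
  | sp (x : ℕ)
  | nt (x c e z d : ℕ)
  | rt (x y i v : ℕ)
  | lf (x y i v : ℕ)
  | cl (x i n y a b : ℕ)
  | ba (x i j : ℕ)
  | bb (x i j : ℕ)

/-- code of the corner after `x` (backwards around the tile) -/
noncomputable def bxP (m x : ℕ) : ℕ := Nat.add (Nat.mul m (Nat.div x m)) (Nat.mod (Nat.succ (Nat.mod x m)) m)

/-- code of the corner before `x` -/
noncomputable def fxP (m x : ℕ) : ℕ :=
  Nat.add (Nat.mul m (Nat.div x m)) (Nat.mod (Nat.add (Nat.mod x m) (Nat.sub m 1)) m)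

/-- first value of `x` -/
noncomputable def lkP (d x : ℕ) (l : List (ℕ × ℕ)) : ℕ :=
  List.rec (motive := fun _ => ℕ) d (fun p _ ih => bif Nat.beq p.1 x then p.2 else ih) l

/-- `n` steps around a vertex -/
noncomputable def wkP (d : ℕ) (G : List (ℕ × ℕ)) (n : ℕ) : ℕ → ℕ :=
  Nat.rec (motive := fun _ => ℕ → ℕ) (fun y => y)
    (fun _ ih y => bif Nat.blt (lkP d y G) d then ih (lkP d y G) else d) n

/-- is `(x, y)` in the list? -/
noncomputable def meP (x y : ℕ) (l : List (ℕ × ℕ)) : Bool :=
  anyF (fun p => bif Nat.beq p.1 x then Nat.beq p.2 y else false) l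

/-- the words which may follow at a corner of tile `k` -/
noncomputable def nxP (T : PTab) (nq : List (List (List ℕ))) (q k : ℕ) (s : PSt) (i : ℕ) : List ℕ :=
  bif Nat.ble q (nthF 0 s.dl k) then blkF [] nq i else blkF [] T.nx i

/-- one instruction -/
noncomputable def stepP (m : ℕ) (T : PTab) (nq : List (List (List ℕ))) (q : ℕ) (s : PSt) : PIn → Option (List PSt)
  | PIn.sp x => bif Nat.blt (lkP T.len (fxP m x) s.W) T.len then
      some (((nxP T nq q (Nat.div x m) s (lkP T.len (fxP m x) s.W)).filter fun u =>
        bif Nat.blt (lkP T.len (bxP m x) s.W) T.len then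
          anyF (Nat.beq (lkP T.len (bxP m x) s.W)) (nxP T nq q (Nat.div x m) s u) else true).map fun u =>
        ⟨s.dl, (x, u) :: s.W, s.G⟩) else none
  | PIn.nt x c e z d => bif Nat.beq c (Nat.mul m s.dl.length) then
      bif Nat.blt x c then bif Nat.beq (Nat.succ d) (nthF 0 s.dl (Nat.div x m)) then
      bif Nat.beq (Nat.succ e) (Nat.add c m) then bif Nat.beq z (bxP m x) then
        some [⟨s.dl ++ [d], s.W, (x, c) :: (e, z) :: s.G⟩] else none else none else none else none else none
  | PIn.rt x y i v => bif meP x y s.G then bif meP x i s.W then bif Nat.beq v (blkF 0 T.L i) then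
      some [⟨s.dl, (y, v) :: s.W, s.G⟩] else none else none else none
  | PIn.lf x y i v => bif meP x y s.G then bif meP y i s.W then bif Nat.beq v (blkF 0 T.R i) then
      some [⟨s.dl, (x, v) :: s.W, s.G⟩] else none else none else none
  | PIn.cl x i n y a b => bif meP x i s.W then bif Nat.beq (Nat.succ n) (blkF [] T.ws i).length then
      bif Nat.beq (wkP (Nat.mul m s.dl.length) s.G n x) y then bif Nat.blt y (Nat.mul m s.dl.length) then
      bif Nat.beq a (fxP m x) then bif Nat.beq b (bxP m y) then
        some [⟨s.dl, s.W, (y, x) :: (a, b) :: s.G⟩] else none else none else none else none else none else none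
  | PIn.ba x i j => bif meP x i s.W then bif meP x j s.W then
      bif (blkF [] T.ws i == blkF [] T.ws j) then none else some [] else none else none
  | PIn.bb x i j => bif meP x i s.W then bif meP (bxP m x) j s.W then
      bif anyF (Nat.beq j) (nxP T nq q (Nat.div x m) s i) then none else some [] else none else none

/-- the instructions refute all patches of the list -/
noncomputable def runP (m : ℕ) (T : PTab) (nq : List (List (List ℕ))) (q : ℕ) (l : List PIn) : List PSt → Bool :=
  List.rec (motive := fun _ => List PSt → Bool) (fun st => st.isEmpty)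
    (fun I _ ih st => List.casesOn (motive := fun _ => Bool) st false fun s st' =>
      Option.casesOn (motive := fun _ => Bool) (stepP m T nq q s I) false fun l' => ih (l' ++ st')) l

/-- the pairs of words which are not in `nq` are impossible if the tiles at distance less than `q` from the neighbour
tile have good corners -/
noncomputable def nqB (m : ℕ) (T : PTab) (nq : List (List (List ℕ))) (q : ℕ) : Bool :=
  allF (fun i => allF (fun j => bif anyF (Nat.beq j) (blkF [] nq i) then true else !(okR m T q i j))
    (blkF [] T.nx i)) (List.range T.len)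

/-- every tile has a tile at distance at most `r` with a corner whose star is not in `GS`; the patches start with the
corner `s` of a tile -/
noncomputable def deadP (m : ℕ) (GS : List (List ℕ)) (T : PTab) (nq : List (List (List ℕ))) (q r s : ℕ)
    (l : List PIn) : Bool :=
  ptabB m GS T && nqB m T nq q && Nat.blt s m &&
    runP m T nq q l (((List.range T.len).filter fun i =>
      Nat.beq (Nat.div (nthF 0 (blkF [] T.ws i) 0) 2) s).map fun i => ⟨[r], [(0, i)], []⟩)

/-- the linear programming node, see `lpX` -/
noncomputable def lpQ (m : ℕ) (w v φ : List ℕ) (V0 : ℕ) (Am : List (List ℕ)) (L fuel : ℕ)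
    (rows : List (List (ℕ × ℕ))) (GS : List (List ℕ)) (r ω ρ : ℕ) (cvs : List (List ℕ)) : Bool :=
  Nat.blt (Nat.add (Nat.mul 2 v.sum) (Nat.mul (Nat.mul 2 m) ρ))
    (Nat.add (Nat.add (Nat.mul (Nat.sub m 2) L) (Nat.mul (Nat.mul 2 m) V0)) (Nat.mul 2 ω)) &&
  Nat.beq ρ (Nat.mul (Nat.pow (Nat.succ m) r) ω) &&
  (allF (fun u => allF (fun x => Nat.ble x 15) u) GS) &&
  Nat.ble fuel 15 && Nat.beq v.length m &&
  (allF (fun r => srtF r 0) rows) &&
  (allF (fun cv => bif Nat.beq cv.length m then allF (fun x => Nat.ble x 15) cv else false) cvs) &&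
  (allF (fun c => allF (stepR m w v φ V0 Am L rows c) (List.range (2 * m))) (List.range (2 * m))) &&
  allF (fun c => dfsR rows L (accU (GS.map wdF) ρ L (cvs.map encF)) c fuel c 0
    (Nat.pow 16 (Nat.div c 2)) (Nat.add 16 c) 1) (List.range (2 * m))

/-- nodes of a certificate -/
inductive PN
  | z (N : ZN)
  | pt (v φ : List ℕ) (V0 : ℕ) (Am : List (List ℕ)) (L fuel : ℕ) (rows : List (List (ℕ × ℕ)))
      (GS : List (List ℕ)) (T : PTab) (nq : List (List (List ℕ))) (q r s : ℕ) (l : List PIn) (ω ρ : ℕ)
      (cvs : List (List ℕ)) (ch : List HCf)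

/-- check of node `i` -/
noncomputable def chkP (m : ℕ) [NeZero m] (w : List ℕ) (tt : List TorT) (sy : List (Bool × ℕ × List ℕ))
    (D : ℕ → List Eqn) (i : ℕ) (N : PN) : Bool :=
  match N with
    | PN.z N => chkZ m w tt sy D i N
    | PN.pt v φ V0 Am L fuel rows GS T nq q r s l ω ρ cvs ch =>
        deadP m GS T nq q r s l && lpQ m w v φ V0 Am L fuel rows GS r ω ρ cvs &&
          chF m sy D i (D i ++ eqs0 m []) cvs ch

/-- certificate for a word -/
structure CertP where
  w : List ℕ
  sy : List (Bool × ℕ × List ℕ)
  D : List (List (List Eqn))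
  Ns : List PN

/-- check of a certificate -/
noncomputable def chkPC (m : ℕ) [NeZero m] (tt : List TorT) (C : CertP) : Bool :=
  (C.w == decW m (encW C.w)) && C.sy.all (symT m C.w) && decide (0 < C.Ns.length) &&
    (blkF [] C.D (C.Ns.length - 1)).isEmpty && allI (chkP m C.w tt C.sy (blkF [] C.D)) C.Ns 0

end Pool.Agent.Lib_MP_fa6e45
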