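import Pool.Agent.Lib_MP_fa6e45.CP0
import Pool.Agent.Lib_MP_fa6e45.HF1

/-!
MP_fa6e45_co, stage 9: the check `deadP` is correct (the first part consists of copies of private lemmas of CX2).
-/

open Set MeasureTheory Complex
open scoped Topology

namespace Pool.Agent.Lib_MP_fa6e45

open Pool.Agent.Lib_PL (cr InSector Poly)
variable {m : ℕ} [NeZero m] {a : ZMod m → ℝ} {G : ZMod m → ZMod m → Bool → Prop} {ι : Type}

private theorem CP1_period (K : CombU m a G ι) (c : ι × ZMod m) :
    K.nx^[Function.minimalPeriod K.nx c] c = c := Function.iterate_minimalPeriod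

private theorem CP1_deg_iter (K : CombU m a G ι) (c : ι × ZMod m) (k : ℕ) :
    Function.minimalPeriod K.nx (K.nx^[k] c) = Function.minimalPeriod K.nx c := by
  refine Function.minimalPeriod_apply_iterate ?_ k
  exact Function.minimalPeriod_pos_iff_mem_periodicPts.1 (by have := K.deg2 c; omega)

private theorem CP1_len (K : CombU m a G ι) (c : ι × ZMod m) :
    (K.word c).length = Function.minimalPeriod K.nx c := by
  simp [CombU.word]

private theorem CP1_get (K : CombU m a G ι) (c : ι × ZMod m) (k : ℕ)
    (h : k < Function.minimalPeriod K.nx c) : (K.word c).getD k 0 = K.cd (K.nx^[k] c) := by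
  unfold CombU.word
  rw [List.getD_eq_getElem _ _ (by simpa using h), List.getElem_map, List.getElem_range]

/-- rotation of the word of a star -/
private theorem CP1_rot (K : CombU m a G ι) (c : ι × ZMod m) (j : ℕ)
    (h : j ≤ Function.minimalPeriod K.nx c) : rotX (K.word c) j = K.word (K.nx^[j] c) := by
  have hn := CP1_deg_iter K c j
  have hp := CP1_period K c
  have hl := CP1_len K c
  set n := Function.minimalPeriod K.nx c with hndef
  unfold rotX
  refine List.ext_getElem ?_ fun l h1 h2 => ?_
  · rw [List.length_append, List.length_drop, List.length_take, hl, CP1_len, hn]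
    omega
  · have h2' : l < n := by
      rw [CP1_len, hn] at h2
      exact h2
    have e : (K.word (K.nx^[j] c))[l] = K.cd (K.nx^[l + j] c) := by
      unfold CombU.word
      rw [List.getElem_map, List.getElem_range, Function.iterate_add_apply]
    rw [e, List.getElem_append]
    split_ifs with h3
    · rw [List.getElem_drop]
      unfold CombU.word
      rw [List.getElem_map, List.getElem_range, add_comm]
    · rw [List.length_drop, hl] at h3
      rw [List.getElem_take]
      unfold CombU.word
      rw [List.getElem_map, List.getElem_range]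
      congr 1
      rw [List.length_drop, List.length_map, List.length_range, ← hndef]
      have e2 : l + j = (l - (n - j)) + n := by omega
      rw [e2, Function.iterate_add_apply, hp]

private theorem CP1_symm (K : CombU m a G ι) (c : ι × ZMod m) :
    K.nx^[Function.minimalPeriod K.nx c - 1] c = K.nx.symm c := by
  rw [Equiv.eq_symm_apply, ← Function.iterate_succ_apply' K.nx]
  have hd := K.deg2 c
  rw [show (Function.minimalPeriod K.nx c - 1).succ = Function.minimalPeriod K.nx c by omega]
  exact CP1_period K c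

private theorem CP1_cd_bwd (K : CombU m a G ι) (c : ι × ZMod m) :
    K.cd (bwd K.rf c) = bwC m (K.cd c) := by
  haveI : Fact (1 < m) := ⟨by have := K.three_le; omega⟩
  obtain ⟨t, i⟩ := c
  unfold CombU.cd bwd bwC code
  cases h : K.rf t
  · have h1 : (2 * i.val) % 2 = 0 := by omega
    have h2 : (2 * i.val) / 2 = i.val := by omega
    simp only [h, h1, h2, if_true, Bool.false_eq_true, if_false, Bool.toNat_false, add_zero]
    congr 1
    have h3 : (i - 1 : ZMod m) = i + ((m - 1 : ℕ) : ZMod m) := by
      rw [Nat.cast_sub (by have := K.three_le; omega)]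
      simp
      ring
    rw [h3, ZMod.val_add, ZMod.val_natCast, Nat.add_mod_mod]
  · have h1 : ¬ (2 * i.val + 1) % 2 = 0 := by omega
    have h2 : (2 * i.val + 1) / 2 = i.val := by omega
    simp only [h, h1, h2, if_true, if_false, Bool.toNat_true]
    rw [ZMod.val_add, ZMod.val_one]

private theorem CP1_cd_fwd (K : CombU m a G ι) (c : ι × ZMod m) :
    K.cd (fwd K.rf c) = fwC m (K.cd c) := by
  haveI : Fact (1 < m) := ⟨by have := K.three_le; omega⟩
  obtain ⟨t, i⟩ := c
  unfold CombU.cd fwd fwC code
  cases h : K.rf t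
  · have h1 : (2 * i.val) % 2 = 0 := by omega
    have h2 : (2 * i.val) / 2 = i.val := by omega
    simp only [h, h1, h2, if_true, Bool.false_eq_true, if_false, Bool.toNat_false, add_zero]
    rw [ZMod.val_add, ZMod.val_one]
  · have h1 : ¬ (2 * i.val + 1) % 2 = 0 := by omega
    have h2 : (2 * i.val + 1) / 2 = i.val := by omega
    simp only [h, h1, h2, if_true, if_false, Bool.toNat_true]
    congr 2
    have h3 : (i - 1 : ZMod m) = i + ((m - 1 : ℕ) : ZMod m) := by
      rw [Nat.cast_sub (by have := K.three_le; omega)]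
      simp
      ring
    rw [h3, ZMod.val_add, ZMod.val_natCast, Nat.add_mod_mod]

private theorem CP1_symm_bwd (K : CombU m a G ι) (c : ι × ZMod m) :
    K.nx.symm (bwd K.rf c) = fwd K.rf (K.nx c) := by
  rw [← K.flip c]
  simp

omit [NeZero m] in
private theorem CP1_bwd_iter (rf : ι → Bool) (t : ι) (i : ZMod m) (k : ℕ) :
    (bwd rf)^[k] (t, i) = (t, if rf t then i + k else i - k) := by
  induction k with
  | zero => simp
  | succ k ih =>
    rw [Function.iterate_succ_apply', ih]
    unfold bwd
    cases h : rf t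
    · simp only [Bool.false_eq_true, if_false]
      push_cast
      congr 1
      ring
    · simp only [if_true]
      push_cast
      congr 1
      ring

omit [NeZero m] in
private theorem CP1_bwd_fst (rf : ι → Bool) (c : ι × ZMod m) (k : ℕ) :
    ((bwd rf)^[k] c).1 = c.1 := by
  obtain ⟨t, i⟩ := c
  rw [CP1_bwd_iter]

private theorem CP1_bwd_m (rf : ι → Bool) (c : ι × ZMod m) : (bwd rf)^[m] c = c := by
  obtain ⟨t, i⟩ := c
  rw [CP1_bwd_iter]
  simp

omit [NeZero m] in
private theorem CP1_bwd_fwd (rf : ι → Bool) (c : ι × ZMod m) : bwd rf (fwd rf c) = c := by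
  obtain ⟨t, i⟩ := c
  unfold bwd fwd
  cases h : rf t <;> simp [h]

private theorem CP1_mono (K : CombU m a G ι) (GS : List (List ℕ)) (r : ℕ) {t : ι}
    (h : t ∉ K.Bad GS r) : t ∉ K.Bad GS 0 := by
  induction r with
  | zero => exact h
  | succ r ih => exact ih fun h1 => h (Or.inl h1)

private theorem CP1_good (K : CombU m a G ι) (GS : List (List ℕ)) (r : ℕ) {c : ι × ZMod m}
    (h : c.1 ∉ K.Bad GS r) : K.good GS c := by
  by_contra h1
  exact CP1_mono K GS r h ⟨c.2, h1⟩

omit [NeZero m] in
private theorem CP1_fwd_bwd (rf : ι → Bool) (c : ι × ZMod m) : fwd rf (bwd rf c) = c := by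
  obtain ⟨t, i⟩ := c
  unfold bwd fwd
  cases h : rf t <;> simp [h]

private theorem CP1_mono2 (K : CombU m a G ι) (GS : List (List ℕ)) {q r : ℕ} (hqr : q ≤ r) {t : ι}
    (h : t ∉ K.Bad GS r) : t ∉ K.Bad GS q := by
  induction hqr with
  | refl => exact h
  | step _ ih => exact ih fun h1 => h (Or.inl h1)

/-- `i` is the number of the word of the star of `c` -/
private def CP1R (K : CombU m a G ι) (T : PTab) (i : ℕ) (c : ι × ZMod m) : Prop :=
  i < T.len ∧ blkF [] T.ws i = K.word c

section tab

variable {K : CombU m a G ι} {GS : List (List ℕ)} {T : PTab}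

private theorem CP1_a (h : ptabB m GS T = true) {c : ι × ZMod m} (hc : K.good GS c) :
    ∃ i, CP1R K T i c := by
  unfold ptabB at h
  rw [Bool.and_eq_true, Bool.and_eq_true] at h
  have h1 := h.1.1
  rw [List.all_eq_true] at h1
  obtain ⟨k, hk⟩ := hc
  have hd := K.deg2 c
  have hn := CP1_deg_iter K c k
  have hp := CP1_period K c
  set n := Function.minimalPeriod K.nx c with hndef
  have hkn : k % n < n := Nat.mod_lt _ (by omega)
  set j := (n - k % n) % n with hj
  have hjn : j < n := Nat.mod_lt _ (by omega)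
  have hjk : (j + k) % n = 0 := by
    rw [hj, Nat.mod_add_mod]
    have h1 : n - k % n + k = n * (k / n + 1) := by
      have := Nat.div_add_mod k n
      have h2 : n * (k / n + 1) = n * (k / n) + n := by ring
      omega
    rw [h1, Nat.mul_mod_right]
  have hc : K.nx^[j] (K.nx^[k] c) = c := by
    rw [← Function.iterate_add_apply, ← Function.iterate_mod_minimalPeriod_eq, ← hndef, hjk]
    rfl
  have h2 := h1 _ hk
  rw [List.all_eq_true] at h2
  have h3 := h2 j (List.mem_range.2 (by rw [CP1_len, hn]; exact hjn))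
  rw [List.any_eq_true] at h3
  obtain ⟨i, hi, h4⟩ := h3
  rw [beq_iff_eq, CP1_rot K _ j (by rw [hn]; exact hjn.le), hc] at h4
  exact ⟨i, List.mem_range.1 hi, h4⟩

private theorem CP1_b (h : ptabB m GS T = true) {c : ι × ZMod m} {i : ℕ} (hc : CP1R K T i c) :
    CP1R K T (blkF 0 T.L i) (K.nx c) ∧ CP1R K T (blkF 0 T.R i) (K.nx.symm c) := by
  unfold ptabB at h
  rw [Bool.and_eq_true, Bool.and_eq_true] at h
  have h1 := h.1.2
  rw [List.all_eq_true] at h1
  have h2 := h1 i (List.mem_range.2 hc.1)
  simp only [Bool.and_eq_true, decide_eq_true_eq, beq_iff_eq] at h2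
  obtain ⟨⟨⟨⟨h3, h4⟩, h5⟩, h6⟩, h7⟩ := h2
  have hd := K.deg2 c
  refine ⟨⟨h4, ?_⟩, ⟨h5, ?_⟩⟩
  · rw [h6, hc.2, CP1_rot K c 1 (by omega)]
    rfl
  · rw [h7, hc.2, CP1_len, CP1_rot K c _ (by omega), CP1_symm]

private theorem CP1_d (h : ptabB m GS T = true) {c : ι × ZMod m} {i j : ℕ} (hi : CP1R K T i c)
    (hj : CP1R K T j (bwd K.rf c)) : j ∈ blkF [] T.nx i := by
  unfold ptabB at h
  rw [Bool.and_eq_true, Bool.and_eq_true] at h
  have h1 := h.2
  rw [allF_eq, List.all_eq_true] at h1
  have h2 := h1 i (List.mem_range.2 hi.1)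
  rw [allF_eq, List.all_eq_true] at h2
  have h3 := h2 j (List.mem_range.2 hj.1)
  have hd := K.deg2 c
  have hd' := K.deg2 (bwd K.rf c)
  rw [nthF_eq, nthF_eq, nthF_eq, nthF_eq, hi.2, hj.2, CP1_get K c 0 (by omega),
    CP1_get K c 1 (by omega), CP1_get K (bwd K.rf c) 0 (by omega), CP1_len,
    CP1_get K (bwd K.rf c) _ (by omega), CP1_symm, CP1_symm_bwd] at h3
  have e1 : Nat.beq (K.cd (K.nx^[0] (bwd K.rf c))) (bwC m (K.cd (K.nx^[0] c))) = true := by
    change Nat.beq (K.cd (bwd K.rf c)) (bwC m (K.cd c)) = true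
    rw [CP1_cd_bwd]
    exact Nat.beq_refl _
  have e2 : Nat.beq (K.cd (fwd K.rf (K.nx c))) (fwC m (K.cd (K.nx^[1] c))) = true := by
    change Nat.beq (K.cd (fwd K.rf (K.nx c))) (fwC m (K.cd (K.nx c))) = true
    rw [CP1_cd_fwd]
    exact Nat.beq_refl _
  rw [e1, cond_true, e2, cond_true, anyF_eq, List.any_eq_true] at h3
  obtain ⟨x, hx, h4⟩ := h3
  rw [Nat.eq_of_beq_eq_true h4]
  exact hx

/-- the words at the corners of a tile, from `P r` -/
private theorem CP1_Q (h : ptabB m GS T = true) (r : ℕ)
    (P : ∀ (c : ι × ZMod m) (i j : ℕ), c.1 ∉ K.Bad GS r → CP1R K T i c → CP1R K T j (bwd K.rf c) →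
      okR m T r i j = true) (c : ι × ZMod m) (hc : c.1 ∉ K.Bad GS r) (i : ℕ) (hi : CP1R K T i c)
    (n : ℕ) : ∀ (k j : ℕ), k + n = m - 1 → CP1R K T j ((bwd K.rf)^[k] c) →
      exN (okR m T r) (blkF [] T.nx) i n j = true := by
  have hm : 0 < m := Nat.pos_of_ne_zero (NeZero.ne m)
  induction n with
  | zero =>
    intro k j hk hj
    have e : bwd K.rf ((bwd K.rf)^[k] c) = c := by
      rw [← Function.iterate_succ_apply' (bwd K.rf), show k.succ = m by omega, CP1_bwd_m]
    have h1 : i ∈ blkF [] T.nx j := CP1_d h hj (by rw [e]; exact hi)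
    have h2 := P ((bwd K.rf)^[k] c) j i (by rw [CP1_bwd_fst]; exact hc) hj (by rw [e]; exact hi)
    change (bif anyF (Nat.beq i) (blkF [] T.nx j) then okR m T r j i else false) = true
    have h3 : anyF (Nat.beq i) (blkF [] T.nx j) = true := by
      rw [anyF_eq, List.any_eq_true]
      exact ⟨i, h1, Nat.beq_refl i⟩
    rw [h3, cond_true]
    exact h2
  | succ n ih =>
    intro k j hk hj
    obtain ⟨U, hU⟩ := CP1_a (K := K) h (c := (bwd K.rf)^[k + 1] c)
      (CP1_good K GS r (by rw [CP1_bwd_fst]; exact hc))
    have hU' : CP1R K T U (bwd K.rf ((bwd K.rf)^[k] c)) := by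
      rw [← Function.iterate_succ_apply' (bwd K.rf)]
      exact hU
    have h1 : U ∈ blkF [] T.nx j := CP1_d h hj hU'
    have h2 := P ((bwd K.rf)^[k] c) j U (by rw [CP1_bwd_fst]; exact hc) hj hU'
    have h3 := ih (k + 1) U (by omega) hU
    change anyF (fun U => bif okR m T r j U then exN (okR m T r) (blkF [] T.nx) i n U else false)
      (blkF [] T.nx j) = true
    rw [anyF_eq, List.any_eq_true]
    refine ⟨U, h1, ?_⟩
    rw [h2, cond_true]
    exact h3

private theorem CP1_P (h : ptabB m GS T = true) (r : ℕ) :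
    ∀ (c : ι × ZMod m) (i j : ℕ), c.1 ∉ K.Bad GS r → CP1R K T i c → CP1R K T j (bwd K.rf c) →
      okR m T r i j = true := by
  induction r with
  | zero =>
    intro c i j _ _ _
    rfl
  | succ r ih =>
    intro c i j hc hi hj
    have hm := K.three_le
    have h1 : (K.nx c).1 ∉ K.Bad GS r := fun h2 => hc (Or.inr ⟨c.2, h2⟩)
    have hL := (CP1_b h hi).1
    have hR := (CP1_b h hj).2
    rw [CP1_symm_bwd] at hR
    change exN (okR m T r) (blkF [] T.nx) (blkF 0 T.R j) (m - 2) (blkF 0 T.L i) = true
    refine CP1_Q h r ih (fwd K.rf (K.nx c)) h1 (blkF 0 T.R j) hR (m - 2) 1 (blkF 0 T.L i)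
      (by omega) ?_
    change CP1R K T (blkF 0 T.L i) (bwd K.rf (fwd K.rf (K.nx c)))
    rw [CP1_bwd_fwd]
    exact hL

end tab


/-! ### patches -/

/-- the corner with the code `x` -/
private noncomputable def crP (K : CombU m a G ι) (f : ℕ → ι × ZMod m) (x : ℕ) : ι × ZMod m :=
  (bwd K.rf)^[x % m] (f (x / m))

private theorem CP1_pos : 0 < m := Nat.pos_of_ne_zero (NeZero.ne m)

private theorem CP1_div {k j : ℕ} (hj : j < m) : (m * k + j) / m = k := by
  rw [Nat.add_comm, Nat.add_mul_div_left _ _ (by omega), Nat.div_eq_of_lt hj, Nat.zero_add]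

private theorem CP1_mod {k j : ℕ} (hj : j < m) : (m * k + j) % m = j := by
  rw [Nat.mul_add_mod, Nat.mod_eq_of_lt hj]

private theorem CP1_bx_div (x : ℕ) : bxP m x / m = x / m :=
  CP1_div (Nat.mod_lt _ CP1_pos)

private theorem CP1_fx_div (x : ℕ) : fxP m x / m = x / m :=
  CP1_div (Nat.mod_lt _ CP1_pos)

private theorem CP1_crb (K : CombU m a G ι) (f : ℕ → ι × ZMod m) (x : ℕ) :
    crP K f (bxP m x) = bwd K.rf (crP K f x) := by
  unfold crP
  rw [CP1_bx_div]
  have h1 : bxP m x % m = (x % m + 1) % m := CP1_mod (Nat.mod_lt _ CP1_pos)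
  rw [h1, ← Function.iterate_succ_apply' (bwd K.rf)]
  rcases Nat.lt_or_ge (x % m + 1) m with h | h
  · rw [Nat.mod_eq_of_lt h]
  · have h2 : x % m < m := Nat.mod_lt _ CP1_pos
    have h3 : x % m + 1 = m := by omega
    rw [h3, Nat.mod_self, show (x % m).succ = m by omega, CP1_bwd_m]
    rfl

private theorem CP1_crf (K : CombU m a G ι) (f : ℕ → ι × ZMod m) (x : ℕ) :
    crP K f (fxP m x) = fwd K.rf (crP K f x) := by
  have h0 : bwd K.rf (crP K f (fxP m x)) = crP K f x := by
    rw [← CP1_crb]
    have e : bxP m (fxP m x) = x := by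
      have h1 : fxP m x % m = (x % m + (m - 1)) % m := CP1_mod (Nat.mod_lt _ CP1_pos)
      have h2 : bxP m (fxP m x) = m * (fxP m x / m) + (fxP m x % m + 1) % m := rfl
      rw [h2, CP1_fx_div, h1, Nat.mod_add_mod]
      have h3 : x % m + (m - 1) + 1 = x % m + m := by
        have := CP1_pos (m := m)
        omega
      rw [h3, Nat.add_mod_right, Nat.mod_mod, Nat.div_add_mod]
    rw [e]
  rw [← h0, CP1_fwd_bwd]

private theorem CP1_lk {d x : ℕ} {l : List (ℕ × ℕ)} (h : lkP d x l ≠ d) : (x, lkP d x l) ∈ l := by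
  induction l with
  | nil => exact absurd rfl h
  | cons p l ih =>
    have e : lkP d x (p :: l) = (bif Nat.beq p.1 x then p.2 else lkP d x l) := rfl
    rw [e] at h ⊢
    cases h1 : Nat.beq p.1 x
    · rw [h1, cond_false] at h
      rw [cond_false]
      exact List.mem_cons_of_mem _ (ih h)
    · rw [cond_true]
      have h2 : p.1 = x := Nat.eq_of_beq_eq_true h1
      rw [← h2]
      exact List.mem_cons_self

private theorem CP1_me {x y : ℕ} {l : List (ℕ × ℕ)} (h : meP x y l = true) : (x, y) ∈ l := by
  unfold meP at h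
  rw [anyF_eq, List.any_eq_true] at h
  obtain ⟨p, hp, h1⟩ := h
  cases h2 : Nat.beq p.1 x
  · rw [h2, cond_false] at h1
    exact absurd h1 (by decide)
  · rw [h2, cond_true] at h1
    have h3 : p = (x, y) := Prod.ext (Nat.eq_of_beq_eq_true h2) (Nat.eq_of_beq_eq_true h1)
    rw [← h3]
    exact hp

/-- the patch `s` occurs in the tiling -/
private structure PSt.OK (K : CombU m a G ι) (GS : List (List ℕ)) (T : PTab) (s : PSt) (f : ℕ → ι × ZMod m) :
    Prop where
  dl : ∀ k < s.dl.length, (f k).1 ∉ K.Bad GS (nthF 0 s.dl k)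
  W : ∀ p ∈ s.W, p.1 < m * s.dl.length ∧ CP1R K T p.2 (crP K f p.1)
  G : ∀ p ∈ s.G, p.1 < m * s.dl.length ∧ p.2 < m * s.dl.length ∧ K.nx (crP K f p.1) = crP K f p.2

section step

variable {K : CombU m a G ι} {GS : List (List ℕ)} {T : PTab} {nq : List (List (List ℕ))} {q : ℕ}

private theorem CP1_tile (K : CombU m a G ι) (f : ℕ → ι × ZMod m) (x : ℕ) :
    (crP K f x).1 = (f (x / m)).1 := CP1_bwd_fst _ _ _

/-- the next word is in the list -/
private theorem CP1_nx (hT : ptabB m GS T = true) (hq : nqB m T nq q = true) {s : PSt}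
    {f : ℕ → ι × ZMod m} (hs : s.OK K GS T f) {x i j : ℕ} (hx : x < m * s.dl.length)
    (hi : CP1R K T i (crP K f x)) (hj : CP1R K T j (bwd K.rf (crP K f x))) :
    j ∈ nxP T nq q (Nat.div x m) s i := by
  have h1 : j ∈ blkF [] T.nx i := CP1_d hT hi hj
  unfold nxP
  cases h2 : Nat.ble q (nthF 0 s.dl (Nat.div x m))
  · rw [cond_false]
    exact h1
  · rw [cond_true]
    have h3 : q ≤ nthF 0 s.dl (x / m) := Nat.le_of_ble_eq_true h2
    have hk : x / m < s.dl.length := Nat.div_lt_of_lt_mul hx
    have h4 : (crP K f x).1 ∉ K.Bad GS q := by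
      rw [CP1_tile]
      exact CP1_mono2 K GS h3 (hs.dl _ hk)
    have h5 := CP1_P hT q _ i j h4 hi hj
    unfold nqB at hq
    rw [allF_eq, List.all_eq_true] at hq
    have h6 := hq i (List.mem_range.2 hi.1)
    rw [allF_eq, List.all_eq_true] at h6
    have h7 := h6 j h1
    rw [h5] at h7
    cases h8 : anyF (Nat.beq j) (blkF [] nq i)
    · rw [h8, cond_false] at h7
      exact absurd h7 (by decide)
    · rw [anyF_eq, List.any_eq_true] at h8
      obtain ⟨y, hy, h9⟩ := h8
      rw [Nat.eq_of_beq_eq_true h9]
      exact hy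

private theorem CP1_dlt {x n : ℕ} : x / m < n ↔ x < m * n := by
  rw [Nat.div_lt_iff_lt_mul CP1_pos, Nat.mul_comm]

private theorem CP1_bx_lt {x n : ℕ} (h : x < m * n) : bxP m x < m * n := by
  have h1 : x / m < n := Nat.div_lt_of_lt_mul h
  have h2 : bxP m x / m < n := by rw [CP1_bx_div]; exact h1
  exact CP1_dlt.1 h2

private theorem CP1_fx_lt {x n : ℕ} (h : x < m * n) : fxP m x < m * n := by
  have h1 : x / m < n := Nat.div_lt_of_lt_mul h
  have h2 : fxP m x / m < n := by rw [CP1_fx_div]; exact h1
  exact CP1_dlt.1 h2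

private theorem CP1_lt_of_fx {x n : ℕ} (h : fxP m x < m * n) : x < m * n := by
  have h1 : fxP m x / m < n := Nat.div_lt_of_lt_mul h
  rw [CP1_fx_div] at h1
  exact CP1_dlt.1 h1

private theorem CP1_fxbx (K : CombU m a G ι) (f : ℕ → ι × ZMod m) (x : ℕ) :
    bwd K.rf (crP K f (fxP m x)) = crP K f x := by
  rw [CP1_crf, CP1_bwd_fwd]

private theorem CP1_wk {s : PSt} {f : ℕ → ι × ZMod m} (hs : s.OK K GS T f) (n : ℕ) :
    ∀ x y : ℕ, wkP (m * s.dl.length) s.G n x = y → y < m * s.dl.length →
      K.nx^[n] (crP K f x) = crP K f y := by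
  induction n with
  | zero =>
    intro x y h _
    have h' : x = y := h
    rw [h']
    rfl
  | succ n ih =>
    intro x y h hy
    have h' : (bif Nat.blt (lkP (m * s.dl.length) x s.G) (m * s.dl.length) then
        wkP (m * s.dl.length) s.G n (lkP (m * s.dl.length) x s.G) else m * s.dl.length) = y := h
    cases h1 : Nat.blt (lkP (m * s.dl.length) x s.G) (m * s.dl.length)
    · rw [h1, cond_false] at h'
      omega
    · rw [h1, cond_true] at h'
      have h2 : lkP (m * s.dl.length) x s.G < m * s.dl.length := Nat.le_of_ble_eq_true h1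
      have h3 := CP1_lk (l := s.G) (x := x) (d := m * s.dl.length) (by omega)
      have h4 := (hs.G _ h3).2.2
      rw [Function.iterate_succ_apply, h4]
      exact ih _ _ h' hy

private theorem CP1_step (hT : ptabB m GS T = true) (hq : nqB m T nq q = true) {s : PSt}
    {f : ℕ → ι × ZMod m} (hs : s.OK K GS T f) {I : PIn} {l : List PSt}
    (h : stepP m T nq q s I = some l) : ∃ s' ∈ l, ∃ f', PSt.OK K GS T s' f' := by
  cases I with
  | sp x =>
    change (bif Nat.blt (lkP T.len (fxP m x) s.W) T.len then _ else none) = some l at h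
    cases h1 : Nat.blt (lkP T.len (fxP m x) s.W) T.len
    · rw [h1, cond_false] at h
      exact absurd h (by simp)
    · rw [h1, cond_true] at h
      have h2 : lkP T.len (fxP m x) s.W < T.len := Nat.le_of_ble_eq_true h1
      obtain ⟨h3, h4⟩ := hs.W _ (CP1_lk (l := s.W) (x := fxP m x) (d := T.len) (by omega))
      have hx : x < m * s.dl.length := CP1_lt_of_fx h3
      have hk : x / m < s.dl.length := Nat.div_lt_of_lt_mul hx
      obtain ⟨u, hu⟩ := CP1_a (K := K) hT (c := crP K f x)
        (CP1_good K GS _ (by rw [CP1_tile]; exact hs.dl _ hk))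
      have h5 : u ∈ nxP T nq q (Nat.div x m) s (lkP T.len (fxP m x) s.W) := by
        have h6 := CP1_nx hT hq hs h3 h4 (j := u) (by rw [CP1_fxbx]; exact hu)
        have e : Nat.div (fxP m x) m = Nat.div x m := CP1_fx_div x
        rw [e] at h6
        exact h6
      have h7 := Option.some.inj h
      refine ⟨⟨s.dl, (x, u) :: s.W, s.G⟩, ?_, f, ⟨hs.dl, ?_, hs.G⟩⟩
      · rw [← h7]
        refine List.mem_map.2 ⟨u, List.mem_filter.2 ⟨h5, ?_⟩, rfl⟩
        cases h8 : Nat.blt (lkP T.len (bxP m x) s.W) T.len
        · rfl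
        · rw [cond_true]
          have h9 : lkP T.len (bxP m x) s.W < T.len := Nat.le_of_ble_eq_true h8
          obtain ⟨-, h11⟩ := hs.W _ (CP1_lk (l := s.W) (x := bxP m x) (d := T.len) (by omega))
          have h12 := CP1_nx hT hq hs hx hu (by rw [← CP1_crb]; exact h11)
          rw [anyF_eq, List.any_eq_true]
          exact ⟨_, h12, Nat.beq_refl _⟩
      · intro p hp
        rcases List.mem_cons.1 hp with rfl | hp
        · exact ⟨hx, hu⟩
        · exact hs.W p hp
  | nt x c e z d =>
    change (bif Nat.beq c (Nat.mul m s.dl.length) then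
      bif Nat.blt x c then bif Nat.beq (Nat.succ d) (nthF 0 s.dl (Nat.div x m)) then
      bif Nat.beq (Nat.succ e) (Nat.add c m) then bif Nat.beq z (bxP m x) then
        some [(⟨s.dl ++ [d], s.W, (x, c) :: (e, z) :: s.G⟩ : PSt)] else none else none else none else none
          else none) = some l at h
    cases h1 : Nat.beq c (Nat.mul m s.dl.length)
    · rw [h1, cond_false] at h
      exact absurd h (by simp)
    rw [h1, cond_true] at h
    cases h2 : Nat.blt x c
    · rw [h2, cond_false] at h
      exact absurd h (by simp)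
    rw [h2, cond_true] at h
    cases h3 : Nat.beq (Nat.succ d) (nthF 0 s.dl (Nat.div x m))
    · rw [h3, cond_false] at h
      exact absurd h (by simp)
    rw [h3, cond_true] at h
    cases h4 : Nat.beq (Nat.succ e) (Nat.add c m)
    · rw [h4, cond_false] at h
      exact absurd h (by simp)
    rw [h4, cond_true] at h
    cases h5 : Nat.beq z (bxP m x)
    · rw [h5, cond_false] at h
      exact absurd h (by simp)
    rw [h5, cond_true] at h
    have h1' : c = m * s.dl.length := Nat.eq_of_beq_eq_true h1
    have h2' : x < c := Nat.le_of_ble_eq_true h2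
    have h3' : d + 1 = nthF 0 s.dl (x / m) := Nat.eq_of_beq_eq_true h3
    have h4' : e + 1 = c + m := Nat.eq_of_beq_eq_true h4
    have h5' : z = bxP m x := Nat.eq_of_beq_eq_true h5
    obtain rfl := Option.some.inj h
    have hm0 : 0 < m := CP1_pos
    have hx : x < m * s.dl.length := h1' ▸ h2'
    have hk : x / m < s.dl.length := Nat.div_lt_of_lt_mul hx
    obtain ⟨f', hf'⟩ : ∃ f' : ℕ → ι × ZMod m, f' = fun k =>
      if k = s.dl.length then K.nx (crP K f x) else f k := ⟨_, rfl⟩
    have hcr : ∀ y, y < m * s.dl.length → crP K f' y = crP K f y := by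
      intro y hy
      have h8 : y / m < s.dl.length := Nat.div_lt_of_lt_mul hy
      unfold crP
      rw [hf']
      simp only
      rw [if_neg (by omega)]
    have hcm : c < m * (s.dl.length + 1) := by
      rw [h1', Nat.mul_succ]
      omega
    have hc0 : crP K f' c = K.nx (crP K f x) := by
      unfold crP
      have e1 : c / m = s.dl.length := by
        rw [h1']
        exact Nat.mul_div_cancel_left _ hm0
      have e2 : c % m = 0 := by
        rw [h1']
        exact Nat.mul_mod_right _ _
      rw [e1, e2, hf']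
      simp
      rfl
    have hfc : fxP m c = e := by
      have e1 : fxP m c = m * (c / m) + (c % m + (m - 1)) % m := rfl
      have e2 : c / m = s.dl.length := by
        rw [h1']
        exact Nat.mul_div_cancel_left _ hm0
      have e3 : c % m = 0 := by
        rw [h1']
        exact Nat.mul_mod_right _ _
      rw [e1, e2, e3, ← h1', Nat.zero_add, Nat.mod_eq_of_lt (by omega)]
      omega
    have hlen : (s.dl ++ [d]).length = s.dl.length + 1 := by simp
    have hgrow : m * s.dl.length ≤ m * (s.dl.length + 1) := Nat.mul_le_mul_left _ (Nat.le_succ _)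
    refine ⟨_, List.mem_singleton_self _, f', ⟨?_, ?_, ?_⟩⟩
    · intro k hk'
      change k < (s.dl ++ [d]).length at hk'
      rw [hlen] at hk'
      change (f' k).1 ∉ K.Bad GS (nthF 0 (s.dl ++ [d]) k)
      rw [nthF_eq, hf']
      simp only
      by_cases hkN : k = s.dl.length
      · rw [if_pos hkN, hkN]
        have e1 : (s.dl ++ [d]).getD s.dl.length 0 = d := by
          rw [List.getD_append_right _ _ _ _ le_rfl]
          simp
        rw [e1]
        intro hb
        have h9 := hs.dl _ hk
        rw [← h3'] at h9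
        refine h9 (Or.inr ⟨(crP K f x).2, ?_⟩)
        rw [← CP1_tile K f x]
        exact hb
      · rw [if_neg hkN, List.getD_append _ _ _ _ (by omega), ← nthF_eq]
        exact hs.dl k (by omega)
    · intro p hp
      obtain ⟨h8, h9⟩ := hs.W p hp
      change p.1 < m * (s.dl ++ [d]).length ∧ _
      rw [hlen]
      refine ⟨by omega, ?_⟩
      rw [hcr _ h8]
      exact h9
    · intro p hp
      change p.1 < m * (s.dl ++ [d]).length ∧ p.2 < m * (s.dl ++ [d]).length ∧ _
      rw [hlen]
      rcases List.mem_cons.1 hp with rfl | hp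
      · refine ⟨by omega, hcm, ?_⟩
        change K.nx (crP K f' x) = crP K f' c
        rw [hcr _ hx, hc0]
      rcases List.mem_cons.1 hp with rfl | hp
      · have hz : z < m * s.dl.length := by
          rw [h5']
          exact CP1_bx_lt hx
        refine ⟨?_, by omega, ?_⟩
        · change e < m * (s.dl.length + 1)
          rw [Nat.mul_succ]
          omega
        · change K.nx (crP K f' e) = crP K f' z
          rw [hcr _ hz, ← hfc, CP1_crf, hc0, K.flip, h5', CP1_crb]
      · obtain ⟨h8, h9, h10⟩ := hs.G p hp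
        refine ⟨by omega, by omega, ?_⟩
        rw [hcr _ h8, hcr _ h9]
        exact h10
  | rt x y i v =>
    change (bif meP x y s.G then bif meP x i s.W then bif Nat.beq v (blkF 0 T.L i) then
      some [(⟨s.dl, (y, v) :: s.W, s.G⟩ : PSt)] else none else none else none) = some l at h
    cases h1 : meP x y s.G
    · rw [h1, cond_false] at h
      exact absurd h (by simp)
    rw [h1, cond_true] at h
    cases h2 : meP x i s.W
    · rw [h2, cond_false] at h
      exact absurd h (by simp)
    rw [h2, cond_true] at h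
    cases h3 : Nat.beq v (blkF 0 T.L i)
    · rw [h3, cond_false] at h
      exact absurd h (by simp)
    rw [h3, cond_true] at h
    obtain ⟨g1, g2, g3⟩ := hs.G _ (CP1_me h1)
    obtain ⟨g4, g5⟩ := hs.W _ (CP1_me h2)
    obtain rfl := Option.some.inj h
    refine ⟨_, List.mem_singleton_self _, f, ⟨hs.dl, ?_, hs.G⟩⟩
    intro p hp
    rcases List.mem_cons.1 hp with rfl | hp
    · refine ⟨g2, ?_⟩
      change CP1R K T v (crP K f y)
      rw [← g3, Nat.eq_of_beq_eq_true h3]
      exact (CP1_b hT g5).1
    · exact hs.W p hp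
  | lf x y i v =>
    change (bif meP x y s.G then bif meP y i s.W then bif Nat.beq v (blkF 0 T.R i) then
      some [(⟨s.dl, (x, v) :: s.W, s.G⟩ : PSt)] else none else none else none) = some l at h
    cases h1 : meP x y s.G
    · rw [h1, cond_false] at h
      exact absurd h (by simp)
    rw [h1, cond_true] at h
    cases h2 : meP y i s.W
    · rw [h2, cond_false] at h
      exact absurd h (by simp)
    rw [h2, cond_true] at h
    cases h3 : Nat.beq v (blkF 0 T.R i)
    · rw [h3, cond_false] at h
      exact absurd h (by simp)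
    rw [h3, cond_true] at h
    obtain ⟨g1, g2, g3⟩ := hs.G _ (CP1_me h1)
    obtain ⟨g4, g5⟩ := hs.W _ (CP1_me h2)
    obtain rfl := Option.some.inj h
    refine ⟨_, List.mem_singleton_self _, f, ⟨hs.dl, ?_, hs.G⟩⟩
    intro p hp
    rcases List.mem_cons.1 hp with rfl | hp
    · refine ⟨g1, ?_⟩
      change CP1R K T v (crP K f x)
      have g6 := (CP1_b hT g5).2
      have g7 : K.nx.symm (crP K f y) = crP K f x := by
        rw [← g3]
        exact K.nx.symm_apply_apply _
      change CP1R K T (blkF 0 T.R i) (K.nx.symm (crP K f y)) at g6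
      rw [g7] at g6
      rw [Nat.eq_of_beq_eq_true h3]
      exact g6
    · exact hs.W p hp
  | cl x i n y a' b' =>
    change (bif meP x i s.W then bif Nat.beq (Nat.succ n) (blkF [] T.ws i).length then
      bif Nat.beq (wkP (Nat.mul m s.dl.length) s.G n x) y then bif Nat.blt y (Nat.mul m s.dl.length) then
      bif Nat.beq a' (fxP m x) then bif Nat.beq b' (bxP m y) then
        some [(⟨s.dl, s.W, (y, x) :: (a', b') :: s.G⟩ : PSt)] else none else none else none else none
          else none else none) = some l at h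
    cases h1 : meP x i s.W
    · rw [h1, cond_false] at h
      exact absurd h (by simp)
    rw [h1, cond_true] at h
    cases h2 : Nat.beq (Nat.succ n) (blkF [] T.ws i).length
    · rw [h2, cond_false] at h
      exact absurd h (by simp)
    rw [h2, cond_true] at h
    cases h3 : Nat.beq (wkP (Nat.mul m s.dl.length) s.G n x) y
    · rw [h3, cond_false] at h
      exact absurd h (by simp)
    rw [h3, cond_true] at h
    cases h4 : Nat.blt y (Nat.mul m s.dl.length)
    · rw [h4, cond_false] at h
      exact absurd h (by simp)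
    rw [h4, cond_true] at h
    cases h5 : Nat.beq a' (fxP m x)
    · rw [h5, cond_false] at h
      exact absurd h (by simp)
    rw [h5, cond_true] at h
    cases h6 : Nat.beq b' (bxP m y)
    · rw [h6, cond_false] at h
      exact absurd h (by simp)
    rw [h6, cond_true] at h
    obtain ⟨g1, g2⟩ := hs.W _ (CP1_me h1)
    have g3 : n + 1 = (blkF [] T.ws i).length := Nat.eq_of_beq_eq_true h2
    have g4 : wkP (m * s.dl.length) s.G n x = y := Nat.eq_of_beq_eq_true h3
    have g5 : y < m * s.dl.length := Nat.le_of_ble_eq_true h4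
    have g6 : a' = fxP m x := Nat.eq_of_beq_eq_true h5
    have g7 : b' = bxP m y := Nat.eq_of_beq_eq_true h6
    have g8 := CP1_wk hs n x y g4 g5
    change x < m * s.dl.length at g1
    change CP1R K T i (crP K f x) at g2
    have g9 : K.nx (crP K f y) = crP K f x := by
      rw [← g8, ← Function.iterate_succ_apply' K.nx, show n.succ = Function.minimalPeriod K.nx (crP K f x) by
        rw [show n.succ = n + 1 from rfl, g3, g2.2, CP1_len]]
      exact CP1_period K _
    obtain rfl := Option.some.inj h
    refine ⟨_, List.mem_singleton_self _, f, ⟨hs.dl, hs.W, ?_⟩⟩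
    intro p hp
    rcases List.mem_cons.1 hp with rfl | hp
    · exact ⟨g5, g1, g9⟩
    rcases List.mem_cons.1 hp with rfl | hp
    · refine ⟨by rw [g6]; exact CP1_fx_lt g1, by rw [g7]; exact CP1_bx_lt g5, ?_⟩
      change K.nx (crP K f a') = crP K f b'
      rw [g6, g7, CP1_crf, CP1_crb, ← g9, K.flip]
    · exact hs.G p hp
  | ba x i j =>
    change (bif meP x i s.W then bif meP x j s.W then
      bif (blkF [] T.ws i == blkF [] T.ws j) then none else some [] else none else none) = some l at h
    exfalso
    cases h1 : meP x i s.W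
    · rw [h1, cond_false] at h
      exact absurd h (by simp)
    rw [h1, cond_true] at h
    cases h2 : meP x j s.W
    · rw [h2, cond_false] at h
      exact absurd h (by simp)
    rw [h2, cond_true] at h
    have g1 := (hs.W _ (CP1_me h1)).2.2
    have g2 := (hs.W _ (CP1_me h2)).2.2
    change blkF [] T.ws i = K.word (crP K f x) at g1
    change blkF [] T.ws j = K.word (crP K f x) at g2
    rw [g1, g2, beq_self_eq_true, cond_true] at h
    exact absurd h (by simp)
  | bb x i j =>
    change (bif meP x i s.W then bif meP (bxP m x) j s.W then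
      bif anyF (Nat.beq j) (nxP T nq q (Nat.div x m) s i) then none else some [] else none else none) =
        some l at h
    exfalso
    cases h1 : meP x i s.W
    · rw [h1, cond_false] at h
      exact absurd h (by simp)
    rw [h1, cond_true] at h
    cases h2 : meP (bxP m x) j s.W
    · rw [h2, cond_false] at h
      exact absurd h (by simp)
    rw [h2, cond_true] at h
    obtain ⟨g1, g2⟩ := hs.W _ (CP1_me h1)
    obtain ⟨-, g3⟩ := hs.W _ (CP1_me h2)
    change CP1R K T j (crP K f (bxP m x)) at g3
    rw [CP1_crb] at g3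
    have g4 : j ∈ nxP T nq q (Nat.div x m) s i := CP1_nx hT hq hs g1 g2 g3
    have g5 : anyF (Nat.beq j) (nxP T nq q (Nat.div x m) s i) = true := by
      rw [anyF_eq, List.any_eq_true]
      exact ⟨j, g4, Nat.beq_refl j⟩
    rw [g5, cond_true] at h
    exact absurd h (by simp)

private theorem CP1_run (hT : ptabB m GS T = true) (hq : nqB m T nq q = true) (l : List PIn) :
    ∀ st : List PSt, runP m T nq q l st = true → ∀ s ∈ st, ∀ f, ¬ PSt.OK K GS T s f := by
  induction l with
  | nil =>
    intro st h s hs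
    have h' : st.isEmpty = true := h
    rw [List.isEmpty_iff] at h'
    rw [h'] at hs
    exact absurd hs List.not_mem_nil
  | cons I l ih =>
    intro st h s hs
    cases st with
    | nil => exact absurd hs List.not_mem_nil
    | cons s0 st =>
      cases h1 : stepP m T nq q s0 I with
      | none =>
        have h' : (Option.casesOn (motive := fun _ => Bool) (stepP m T nq q s0 I) false fun l' =>
          runP m T nq q l (l' ++ st)) = true := h
        rw [h1] at h'
        exact absurd h' (by simp)
      | some l' =>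
        have h' : (Option.casesOn (motive := fun _ => Bool) (stepP m T nq q s0 I) false fun l' =>
          runP m T nq q l (l' ++ st)) = true := h
        rw [h1] at h'
        have h2 : runP m T nq q l (l' ++ st) = true := h'
        have h3 := ih _ h2
        rcases List.mem_cons.1 hs with rfl | hs
        · intro f hf
          obtain ⟨s', hs', f', hf'⟩ := CP1_step hT hq hf h1
          exact h3 s' (List.mem_append_left _ hs') f' hf'
        · exact h3 s (List.mem_append_right _ hs)

end step

theorem CombU.deadP_sound (K : CombU m a G ι) {GS : List (List ℕ)} {T : PTab}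
    {nq : List (List (List ℕ))} {q r s : ℕ} {l : List PIn}
    (h : deadP m GS T nq q r s l = true) (t : ι) : t ∈ K.Bad GS r := by
  by_contra ht
  unfold deadP at h
  simp only [Bool.and_eq_true] at h
  obtain ⟨⟨⟨hT, hq⟩, hs⟩, h⟩ := h
  have hs' : s < m := Nat.le_of_ble_eq_true hs
  obtain ⟨i, hi⟩ := CP1_a (K := K) hT (c := (t, (s : ZMod m))) (CP1_good K GS r ht)
  have hd := K.deg2 (t, (s : ZMod m))
  refine CP1_run (K := K) (GS := GS) hT hq l _ h ⟨[r], [(0, i)], []⟩ ?_ (fun _ => (t, (s : ZMod m))) ⟨?_, ?_, ?_⟩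
  · refine List.mem_map.2 ⟨i, List.mem_filter.2 ⟨List.mem_range.2 hi.1, ?_⟩, rfl⟩
    rw [nthF_eq, hi.2, CP1_get K _ 0 (by omega)]
    have e : Nat.div (K.cd (K.nx^[0] (t, (s : ZMod m)))) 2 = s := by
      change code (((s : ZMod m), K.rf t) : ZMod m × Bool) / 2 = s
      unfold code
      rw [ZMod.val_natCast_of_lt hs']
      cases K.rf t <;> simp <;> omega
    rw [e]
    exact Nat.beq_refl s
  · intro k hk
    change k < 1 at hk
    have : k = 0 := by omega
    rw [this]
    exact ht
  · intro p hp
    rw [List.mem_singleton.1 hp]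
    refine ⟨?_, ?_⟩
    · change 0 < m * 1
      have := CP1_pos (m := m)
      omega
    · change CP1R K T i ((bwd K.rf)^[0 % m] (t, (s : ZMod m)))
      rw [Nat.zero_mod]
      exact hi
  · intro p hp
    exact absurd hp List.not_mem_nil

end Pool.Agent.Lib_MP_fa6e45
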