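import Pool.Agent.Lib_MP_fa6e45.CU0
import Pool.Agent.Lib_MP_fa6e45.Y7

/-!
PIECE CU2 (about 350 lines; many copies of private lemmas of Y7): the principle with good stars. As `CombU.wp`. A corner
`c` is good if for some `k` the word (list of the codes `code (x.2, rf x.1)`, one period) of its star, read from `nx^[k] c`
on, is in `GS`; goodness is constant on stars. No tile `t` has only good corners: otherwise take `c_k = bwd^[k] (t, 0)`;
the codes of `nx⁻¹ c_k`, `c_k`, `nx c_k` are in `trip GS`, and `nx⁻¹ (bwd c_k) = fwd (nx c_k)` by `K.flip`, so `tileW` is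
true (codes: `fwC`, `bwC`), against `noTile`. Now use `K.avg` with the function of `Y7_lp` minus `ρ` at the good corners:
`f c = L * a c.2 / (2 π) - v c.2 - (cross c + cross (nx⁻¹ c)) / 2 - (if good c then ρ else 0)`; its tile sums are at least
`(m - 2) L / 2 - ∑ v - (m - 1) ρ > 0`; so some star has `f`-sum `> 0`: if it is bad its cost is `< L`, if it is good its
cost is `< L - ρ * degree`. Start it at a corner with minimal code (as in `CombU.wp`); if its word is in `GS` it is good.
-/

open Set MeasureTheory Complex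
open scoped Topology

namespace Pool.Agent.Lib_MP_fa6e45

open Pool.Agent.Lib_PL (cr InSector Poly)
variable {m : ℕ} [NeZero m] {a : ZMod m → ℝ} {G : ZMod m → ZMod m → Bool → Prop} {ι : Type}

/-! ### Lists along a sequence -/

private def CU2list {α : Type} (x : ℕ → α) : ℕ → ℕ → List α
  | _, 0 => []
  | i, d + 1 => x (i + 1) :: CU2list x (i + 1) d

private theorem CU2list_length {α : Type} (x : ℕ → α) (d i : ℕ) : (CU2list x i d).length = d := by
  induction d generalizing i with
  | zero => rfl
  | succ d ih => simp [CU2list, ih]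

private theorem CU2list_mem {α : Type} (x : ℕ → α) (d i : ℕ) (y : α) (hy : y ∈ CU2list x i d) :
    ∃ k, y = x k := by
  induction d generalizing i with
  | zero => simp [CU2list] at hy
  | succ d ih =>
    rw [CU2list, List.mem_cons] at hy
    rcases hy with h | h
    · exact ⟨_, h⟩
    · exact ih _ h

private theorem CU2list_pth {α : Type} {R : α → α → Prop} (x : ℕ → α)
    (h : ∀ k, R (x k) (x (k + 1))) (d i : ℕ) : Pth R (x i) (CU2list x i d) (x (i + d + 1)) := by
  induction d generalizing i with
  | zero => exact h i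
  | succ d ih =>
    refine ⟨h i, ?_⟩
    have := ih (i + 1)
    rwa [show i + 1 + d + 1 = i + (d + 1) + 1 by ring] at this

private theorem CU2list_cost {α M : Type} [AddCommMonoid M] (f : α → α → M) (x : ℕ → α) (d i : ℕ) :
    pcost f (x i) (CU2list x i d) (x (i + d + 1)) =
      ∑ k ∈ Finset.range (d + 1), f (x (i + k)) (x (i + k + 1)) := by
  induction d generalizing i with
  | zero => simp [CU2list, pcost]
  | succ d ih =>
    have := ih (i + 1)
    rw [show i + 1 + d + 1 = i + (d + 1) + 1 by ring] at this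
    change f (x i) (x (i + 1)) + pcost f (x (i + 1)) (CU2list x (i + 1) d) (x (i + (d + 1) + 1)) = _
    rw [this, Finset.sum_range_succ' (fun k => f (x (i + k)) (x (i + k + 1))) (d + 1),
      add_comm (f (x i) (x (i + 1)))]
    congr 1
    exact Finset.sum_congr rfl fun k _ => by
      rw [show i + 1 + k = i + (k + 1) by ring]

private theorem CU2list_sum {α : Type} (g : α → ℝ) (x : ℕ → α) (d i : ℕ) :
    ((CU2list x i d).map g).sum = ∑ k ∈ Finset.range d, g (x (i + 1 + k)) := by
  induction d generalizing i with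
  | zero => simp [CU2list]
  | succ d ih =>
    rw [Finset.sum_range_succ', CU2list, List.map_cons, List.sum_cons, ih, add_comm]
    congr 1
    exact Finset.sum_congr rfl fun k _ => by
      rw [show i + 1 + 1 + k = i + 1 + (k + 1) by ring]

/-! ### The averaging principle for `CombU` -/

private def CU2fl (K : CombU m a G ι) (c : ι × ZMod m) : ZMod m × Bool := (c.2, K.rf c.1)

private def CU2cross (K : CombU m a G ι) (A : ZMod m × Bool → ZMod m × Bool → ℝ)
    (c : ι × ZMod m) : ℝ :=
  A (exW (CU2fl K c)) (enW (CU2fl K (K.nx c)))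

omit [NeZero m] in
private theorem CU2_enS_bwd (rf : ι → Bool) (c : ι × ZMod m) : enS rf (bwd rf c) = exS rf c := by
  unfold enS bwd exS
  cases h : rf c.1 <;> simp

omit [NeZero m] in
private theorem CU2_exS_fwd (rf : ι → Bool) (c : ι × ZMod m) : exS rf (fwd rf c) = enS rf c := by
  unfold enS fwd exS
  cases h : rf c.1 <;> simp

private theorem CU2_exW (K : CombU m a G ι) (c : ι × ZMod m) :
    exW (CU2fl K c) = (exS K.rf c, K.rf c.1) := rfl

private theorem CU2_enW (K : CombU m a G ι) (c : ι × ZMod m) :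
    enW (CU2fl K c) = (enS K.rf c, K.rf c.1) := rfl

private theorem CU2_cross_bwd (K : CombU m a G ι) (A : ZMod m × Bool → ZMod m × Bool → ℝ)
    (hA : ∀ x y, A y x = -A x y) (c : ι × ZMod m) :
    CU2cross K A (K.nx.symm (bwd K.rf c)) = -CU2cross K A c := by
  have h1 : K.nx.symm (bwd K.rf c) = fwd K.rf (K.nx c) := by
    rw [← K.flip c]
    simp
  unfold CU2cross
  rw [Equiv.apply_symm_apply, h1, CU2_exW, CU2_enW, CU2_exW, CU2_enW, CU2_enS_bwd, CU2_exS_fwd, ← hA]
  rfl

private theorem CU2_sum_bwd (K : CombU m a G ι) (g : ι × ZMod m → ℝ) (t : ι) :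
    ∑ i, g (bwd K.rf (t, i)) = ∑ i, g (t, i) := by
  unfold bwd
  cases h : K.rf t
  · simp only [h]
    exact Equiv.sum_comp (Equiv.subRight (1 : ZMod m)) (fun i => g (t, i))
  · simp only [h]
    exact Equiv.sum_comp (Equiv.addRight (1 : ZMod m)) (fun i => g (t, i))

private theorem CU2_tile (K : CombU m a G ι) (A : ZMod m × Bool → ZMod m × Bool → ℝ)
    (hA : ∀ x y, A y x = -A x y) (t : ι) :
    ∑ i, CU2cross K A (K.nx.symm (t, i)) = -∑ i, CU2cross K A (t, i) := by
  rw [← CU2_sum_bwd K (fun c => CU2cross K A (K.nx.symm c)) t, ← Finset.sum_neg_distrib]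
  exact Finset.sum_congr rfl fun i _ => CU2_cross_bwd K A hA (t, i)

private theorem CU2_period (K : CombU m a G ι) (c : ι × ZMod m) :
    K.nx^[Function.minimalPeriod K.nx c] c = c := Function.iterate_minimalPeriod

private theorem CU2_star_shift (K : CombU m a G ι) (g : ι × ZMod m → ℝ) (c : ι × ZMod m) :
    ∑ k ∈ Finset.range (Function.minimalPeriod K.nx c), g (K.nx^[k + 1] c) =
      ∑ k ∈ Finset.range (Function.minimalPeriod K.nx c), g (K.nx^[k] c) := by
  obtain ⟨d, hd⟩ : ∃ d, Function.minimalPeriod K.nx c = d + 1 :=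
    Nat.exists_eq_succ_of_ne_zero (by have := K.deg2 c; omega)
  rw [hd, Finset.sum_range_succ, Finset.sum_range_succ' (fun k => g (K.nx^[k] c))]
  congr 1
  have h := CU2_period K c
  rw [hd] at h
  rw [h]
  rfl

private theorem CU2_star_symm (K : CombU m a G ι) (g : ι × ZMod m → ℝ) (c : ι × ZMod m) :
    ∑ k ∈ Finset.range (Function.minimalPeriod K.nx c), g (K.nx.symm (K.nx^[k] c)) =
      ∑ k ∈ Finset.range (Function.minimalPeriod K.nx c), g (K.nx^[k] c) := by
  rw [← CU2_star_shift K (fun c => g (K.nx.symm c)) c]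
  refine Finset.sum_congr rfl fun k _ => ?_
  rw [Function.iterate_succ_apply', Equiv.symm_apply_apply]

private theorem CU2_abs_le {T : Type} [Fintype T] (f : T → ℝ) (x : T) : |f x| ≤ ∑ y, |f y| :=
  Finset.single_le_sum (f := fun y => |f y|) (fun y _ => abs_nonneg (f y)) (Finset.mem_univ x)

private theorem CU2_cross_le (K : CombU m a G ι) (A : ZMod m × Bool → ZMod m × Bool → ℝ)
    (c : ι × ZMod m) : |CU2cross K A c| ≤ ∑ p : (ZMod m × Bool) × (ZMod m × Bool), |A p.1 p.2| :=
  CU2_abs_le (fun p : (ZMod m × Bool) × (ZMod m × Bool) => A p.1 p.2)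
    (exW (CU2fl K c), enW (CU2fl K (K.nx c)))

private theorem CU2_deg_iter (K : CombU m a G ι) (c : ι × ZMod m) (k : ℕ) :
    Function.minimalPeriod K.nx (K.nx^[k] c) = Function.minimalPeriod K.nx c := by
  refine Function.minimalPeriod_apply_iterate ?_ k
  exact Function.minimalPeriod_pos_iff_mem_periodicPts.1 (by have := K.deg2 c; omega)

private theorem CU2_star_iter (K : CombU m a G ι) (g : ι × ZMod m → ℝ) (c : ι × ZMod m) (j : ℕ) :
    ∑ k ∈ Finset.range (Function.minimalPeriod K.nx (K.nx^[j] c)), g (K.nx^[k] (K.nx^[j] c)) =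
      ∑ k ∈ Finset.range (Function.minimalPeriod K.nx c), g (K.nx^[k] c) := by
  induction j with
  | zero => rfl
  | succ j ih =>
    rw [← ih, ← CU2_star_shift K g (K.nx^[j] c), CU2_deg_iter, CU2_deg_iter]
    refine Finset.sum_congr rfl fun k _ => ?_
    rw [Function.iterate_succ_apply', Function.iterate_succ_apply]

private theorem CU2_step (K : CombU m a G ι) (c : ι × ZMod m) :
    StepG G (CU2fl K c) (CU2fl K (K.nx c)) := K.glue c

/-- contribution of the exit side -/
private def CU2out (σ ε : ZMod m → ℝ) (y : ZMod m × Bool) : ℝ :=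
  if y.2 then σ (exW y).1 else -ε (exW y).1

/-- contribution of the entry side -/
private def CU2inn (σ ε : ZMod m → ℝ) (y : ZMod m × Bool) : ℝ :=
  if y.2 then -ε (enW y).1 else σ (enW y).1

omit [NeZero m] in
private theorem CU2_b (σ ε : ZMod m → ℝ) (y : ZMod m × Bool) :
    σ y.1 - ε (y.1 - 1) = CU2out σ ε y + CU2inn σ ε y := by
  obtain ⟨i, f⟩ := y
  cases f
  · simp only [CU2out, CU2inn, exW, enW, Bool.false_eq_true, if_false]
    ring
  · simp only [CU2out, CU2inn, exW, enW, if_true]
    ring

omit [NeZero m] in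
private theorem CU2_cancel (σ ε : ZMod m → ℝ)
    (hp : ∀ j k, G j k true → σ j = ε k ∧ ε j = σ k)
    (hm : ∀ j k, G j k false → σ j = -σ k ∧ ε j = -ε k)
    (y z : ZMod m × Bool) (h : StepG G y z) : CU2out σ ε y + CU2inn σ ε z = 0 := by
  unfold StepG at h
  obtain ⟨i, f⟩ := y
  obtain ⟨j, g⟩ := z
  cases f <;> cases g
  · have := hp _ _ h
    simp only [CU2out, CU2inn, Bool.false_eq_true, if_false]
    linarith [this.2]
  · have := hm _ _ h
    simp only [CU2out, CU2inn, Bool.false_eq_true, if_false, if_true]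
    linarith [this.2]
  · have := hm _ _ h
    simp only [CU2out, CU2inn, Bool.false_eq_true, if_false, if_true]
    linarith [this.1]
  · have := hp _ _ h
    simp only [CU2out, CU2inn, if_true]
    linarith [this.1]

/-! ### Words of the stars -/

private def CU2cd (K : CombU m a G ι) (c : ι × ZMod m) : ℕ := code (CU2fl K c)

private noncomputable def CU2word (K : CombU m a G ι) (c : ι × ZMod m) : List ℕ :=
  (List.range (Function.minimalPeriod K.nx c)).map fun k => CU2cd K (K.nx^[k] c)

private def CU2good (K : CombU m a G ι) (GS : List (List ℕ)) (c : ι × ZMod m) : Prop :=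
  ∃ k, CU2word K (K.nx^[k] c) ∈ GS

private theorem CU2_good_nx (K : CombU m a G ι) (GS : List (List ℕ)) (c : ι × ZMod m) :
    CU2good K GS (K.nx c) ↔ CU2good K GS c := by
  constructor
  · rintro ⟨k, hk⟩
    refine ⟨k + 1, ?_⟩
    rwa [Function.iterate_succ_apply]
  · rintro ⟨k, hk⟩
    have hd := K.deg2 c
    obtain ⟨d, hd'⟩ : ∃ d, Function.minimalPeriod K.nx c = d + 1 :=
      Nat.exists_eq_succ_of_ne_zero (by omega)
    refine ⟨k + d, ?_⟩
    have h1 : K.nx^[k + d] (K.nx c) = K.nx^[k] c := by
      rw [← Function.iterate_succ_apply, show (k + d).succ = k + (d + 1) from rfl, ← hd',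
        Function.iterate_add_apply, CU2_period]
    rwa [h1]

private theorem CU2_good_iter (K : CombU m a G ι) (GS : List (List ℕ)) (c : ι × ZMod m) (k : ℕ) :
    CU2good K GS (K.nx^[k] c) ↔ CU2good K GS c := by
  induction k with
  | zero => exact Iff.rfl
  | succ k ih => rw [Function.iterate_succ_apply', CU2_good_nx, ih]

private theorem CU2_word_getD (K : CombU m a G ι) (c : ι × ZMod m) (k : ℕ) :
    (CU2word K c).getD (k % Function.minimalPeriod K.nx c) 0 = CU2cd K (K.nx^[k] c) := by
  have hd := K.deg2 c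
  have hlt : k % Function.minimalPeriod K.nx c < Function.minimalPeriod K.nx c :=
    Nat.mod_lt _ (by omega)
  unfold CU2word
  rw [List.getD_eq_getElem _ _ (by simpa using hlt), List.getElem_map, List.getElem_range,
    Function.iterate_mod_minimalPeriod_eq]

private theorem CU2_word_length (K : CombU m a G ι) (c : ι × ZMod m) :
    (CU2word K c).length = Function.minimalPeriod K.nx c := by
  simp [CU2word]

private theorem CU2_trip (K : CombU m a G ι) (GS : List (List ℕ)) (c : ι × ZMod m)
    (h : CU2good K GS c) :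
    (CU2cd K (K.nx.symm c), CU2cd K c, CU2cd K (K.nx c)) ∈ trip GS := by
  obtain ⟨k, hk⟩ := h
  have hd := K.deg2 c
  set n := Function.minimalPeriod K.nx c with hn
  have hn' : Function.minimalPeriod K.nx (K.nx^[k] c) = n := CU2_deg_iter K c k
  have hkn : k % n < n := Nat.mod_lt _ (by omega)
  -- the position of `c` in the word
  set j := (n - k % n) % n with hj
  have hjn : j < n := Nat.mod_lt _ (by omega)
  have hjk : (j + k) % n = 0 := by
    rw [hj, Nat.mod_add_mod]
    have h1 : n - k % n + k = n * (k / n + 1) := by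
      have := Nat.div_add_mod k n
      have h2 : n * (k / n + 1) = n * (k / n) + n := by ring
      omega
    rw [h1, Nat.mul_mod_right]
  have hc : K.nx^[j] (K.nx^[k] c) = c := by
    rw [← Function.iterate_add_apply, ← Function.iterate_mod_minimalPeriod_eq, ← hn, hjk]
    rfl
  unfold trip
  rw [List.mem_flatMap]
  refine ⟨_, hk, ?_⟩
  rw [List.mem_map]
  refine ⟨j, ?_, ?_⟩
  · rw [List.mem_range, CU2_word_length, hn']
    exact hjn
  · have g := CU2_word_getD K (K.nx^[k] c)
    rw [hn'] at g
    rw [CU2_word_length, hn']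
    have g1 := g (j + (n - 1))
    have g2 := g j
    have g3 := g (j + 1)
    rw [Nat.mod_eq_of_lt hjn] at g2
    rw [g1, g2, g3, hc]
    have e3 : K.nx^[j + 1] (K.nx^[k] c) = K.nx c := by
      rw [Function.iterate_succ_apply', hc]
    have e1 : K.nx^[j + (n - 1)] (K.nx^[k] c) = K.nx.symm c := by
      rw [Equiv.eq_symm_apply, ← Function.iterate_succ_apply' K.nx (j + (n - 1)) (K.nx^[k] c),
        show (j + (n - 1)).succ = j + n by omega, Function.iterate_add_apply]
      have h4 := CU2_period K (K.nx^[k] c)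
      rw [hn'] at h4
      rw [h4, hc]
    rw [e1, e3]

private theorem CU2_cd_bwd (K : CombU m a G ι) (c : ι × ZMod m) :
    CU2cd K (bwd K.rf c) = bwC m (CU2cd K c) := by
  haveI : Fact (1 < m) := ⟨by have := K.three_le; omega⟩
  obtain ⟨t, i⟩ := c
  unfold CU2cd CU2fl bwd bwC code
  cases h : K.rf t
  · have h1 : (2 * i.val) % 2 = 0 := by omega
    have h2 : (2 * i.val) / 2 = i.val := by omega
    simp only [h, h1, h2, if_true, Bool.false_eq_true, if_false, Bool.toNat_false, add_zero]
    congr 1
    have h3 : (i - 1 : ZMod m) = i + ((m - 1 : ℕ) : ZMod m) := by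
      rw [Nat.cast_sub (by have := K.three_le; omega)]
      simp
      ring
    rw [h3, ZMod.val_add, ZMod.val_natCast, Nat.add_mod_mod]
  · have h1 : ¬ (2 * i.val + 1) % 2 = 0 := by omega
    have h2 : (2 * i.val + 1) / 2 = i.val := by omega
    simp only [h, h1, h2, if_true, if_false, Bool.toNat_true]
    rw [ZMod.val_add, ZMod.val_one]

private theorem CU2_cd_fwd (K : CombU m a G ι) (c : ι × ZMod m) :
    CU2cd K (fwd K.rf c) = fwC m (CU2cd K c) := by
  haveI : Fact (1 < m) := ⟨by have := K.three_le; omega⟩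
  obtain ⟨t, i⟩ := c
  unfold CU2cd CU2fl fwd fwC code
  cases h : K.rf t
  · have h1 : (2 * i.val) % 2 = 0 := by omega
    have h2 : (2 * i.val) / 2 = i.val := by omega
    simp only [h, h1, h2, if_true, Bool.false_eq_true, if_false, Bool.toNat_false, add_zero]
    rw [ZMod.val_add, ZMod.val_one]
  · have h1 : ¬ (2 * i.val + 1) % 2 = 0 := by omega
    have h2 : (2 * i.val + 1) / 2 = i.val := by omega
    simp only [h, h1, h2, if_true, if_false, Bool.toNat_true]
    congr 2
    have h3 : (i - 1 : ZMod m) = i + ((m - 1 : ℕ) : ZMod m) := by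
      rw [Nat.cast_sub (by have := K.three_le; omega)]
      simp
      ring
    rw [h3, ZMod.val_add, ZMod.val_natCast, Nat.add_mod_mod]

private theorem CU2_symm_bwd (K : CombU m a G ι) (c : ι × ZMod m) :
    K.nx.symm (bwd K.rf c) = fwd K.rf (K.nx c) := by
  rw [← K.flip c]
  simp

omit [NeZero m] in
private theorem CU2_bwd_iter (rf : ι → Bool) (t : ι) (i : ZMod m) (k : ℕ) :
    (bwd rf)^[k] (t, i) = (t, if rf t then i + k else i - k) := by
  induction k with
  | zero => simp
  | succ k ih =>
    rw [Function.iterate_succ_apply', ih]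
    unfold bwd
    cases h : rf t
    · simp only [Bool.false_eq_true, if_false]
      push_cast
      congr 1
      ring
    · simp only [if_true]
      push_cast
      congr 1
      ring

private theorem CU2_tileW (K : CombU m a G ι) (GS : List (List ℕ)) (t : ι)
    (hg : ∀ i, CU2good K GS (t, i)) (p0 : ℕ) (k : ℕ) (c : ι × ZMod m) (hc : c.1 = t)
    (hp : CU2cd K (K.nx.symm ((bwd K.rf)^[k] c)) = p0) :
    tileW (trip GS) m p0 k (CU2cd K c) (CU2cd K (K.nx.symm c)) = true := by
  induction k generalizing c with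
  | zero =>
    unfold tileW
    simpa using hp
  | succ k ih =>
    unfold tileW
    rw [List.any_eq_true]
    have hgc : CU2good K GS c := by
      have := hg c.2
      rw [← hc] at this
      exact this
    refine ⟨_, CU2_trip K GS c hgc, ?_⟩
    have h1 := ih (bwd K.rf c) hc (by rwa [← Function.iterate_succ_apply])
    rw [CU2_cd_bwd, CU2_symm_bwd, CU2_cd_fwd] at h1
    simp only [beq_self_eq_true, Bool.and_self, Bool.true_and]
    exact h1

private theorem CU2_noTile (K : CombU m a G ι) (GS : List (List ℕ)) (h : noTile m GS = true)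
    (t : ι) : ∃ i, ¬ CU2good K GS (t, i) := by
  by_contra hcon
  push Not at hcon
  have h1 := CU2_trip K GS (t, 0) (hcon 0)
  unfold noTile at h
  rw [List.all_eq_true] at h
  have h2 := h _ h1
  simp only [Bool.or_eq_true, decide_eq_true_eq, Bool.not_eq_true'] at h2
  rcases h2 with h2 | h2
  · have h3 : CU2cd K (t, (0 : ZMod m)) < 2 := by
      unfold CU2cd CU2fl code
      simp only [ZMod.val_zero, mul_zero, zero_add]
      cases K.rf t <;> simp
    omega
  · have h4 := CU2_tileW K GS t hcon (CU2cd K (K.nx.symm (t, 0))) m (t, 0) rfl (by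
      rw [CU2_bwd_iter]
      simp)
    rw [h4] at h2
    exact absurd h2 (by simp)

open Classical in
private theorem CU2_lp (K : CombU m a G ι) (GS : List (List ℕ)) (hGS : noTile m GS = true)
    (v : ZMod m → ℝ) (A : ZMod m × Bool → ZMod m × Bool → ℝ)
    (hA : ∀ x y, A y x = -A x y) (L ρ : ℝ) (hρ : 0 ≤ ρ)
    (hv : 2 * ∑ i, v i + 2 * ((m : ℝ) - 1) * ρ < ((m : ℝ) - 2) * L) :
    ∃ c, ∑ k ∈ Finset.range (Function.minimalPeriod K.nx c),
      (v ((K.nx^[k] c).2) + CU2cross K A (K.nx^[k] c)) +
      (if CU2good K GS c then ρ * (Function.minimalPeriod K.nx c : ℝ) else 0) < L := by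
  by_contra hcon
  push Not at hcon
  have hpi := Real.pi_pos
  refine K.avg (fun c => L * a c.2 / (2 * Real.pi) - v c.2 -
    (CU2cross K A c + CU2cross K A (K.nx.symm c)) / 2 - (if CU2good K GS c then ρ else 0)) ?_ ?_
    (((m : ℝ) - 2) * L / 2 - ∑ i, v i - ((m : ℝ) - 1) * ρ) (by linarith) ?_
  · refine ⟨|L| + ∑ i, |v i| + ∑ p : (ZMod m × Bool) × (ZMod m × Bool), |A p.1 p.2| + ρ,
      fun c => ?_⟩
    have h1 : |L * a c.2 / (2 * Real.pi)| ≤ |L| := by
      rw [mul_div_assoc, abs_mul]
      have h2 : |a c.2 / (2 * Real.pi)| ≤ 1 := by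
        rw [abs_of_pos (div_pos (K.a_pos _) (by positivity)), div_le_one (by positivity)]
        exact (K.a_lt _).le
      calc |L| * |a c.2 / (2 * Real.pi)| ≤ |L| * 1 :=
            mul_le_mul_of_nonneg_left h2 (abs_nonneg L)
        _ = |L| := mul_one _
    have h2 : |v c.2| ≤ ∑ i, |v i| := CU2_abs_le v c.2
    have h3 := CU2_cross_le K A c
    have h4 := CU2_cross_le K A (K.nx.symm c)
    have h5 : 0 ≤ (if CU2good K GS c then ρ else 0) ∧ (if CU2good K GS c then ρ else 0) ≤ ρ := by
      split_ifs
      · exact ⟨hρ, le_rfl⟩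
      · exact ⟨le_rfl, hρ⟩
    rw [abs_le] at *
    constructor <;> linarith [h1.1, h1.2, h2.1, h2.2, h3.1, h3.2, h4.1, h4.2, h5.1, h5.2]
  · intro c
    have h1 := hcon c
    have h2 := K.sum c
    have h3 := CU2_star_symm K (CU2cross K A) c
    have h6 : ∑ k ∈ Finset.range (Function.minimalPeriod K.nx c),
        (if CU2good K GS (K.nx^[k] c) then ρ else 0) =
        (if CU2good K GS c then ρ * (Function.minimalPeriod K.nx c : ℝ) else 0) := by
      simp only [CU2_good_iter]
      rw [Finset.sum_const, Finset.card_range, nsmul_eq_mul]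
      split_ifs
      · ring
      · ring
    rw [Finset.sum_add_distrib] at h1
    rw [Finset.sum_sub_distrib, Finset.sum_sub_distrib, Finset.sum_sub_distrib,
      ← Finset.sum_div, ← Finset.sum_div,
      ← Finset.mul_sum, Finset.sum_add_distrib, h2, h3, h6]
    have h4 : L * (2 * Real.pi) / (2 * Real.pi) = L := by field_simp
    rw [h4]
    linarith
  · intro t
    have h3 := CU2_tile K A hA t
    have h5 := K.a_sum
    obtain ⟨i₀, hi₀⟩ := CU2_noTile K GS hGS t
    have h7 : ∑ i : ZMod m, (if CU2good K GS (t, i) then ρ else 0) ≤ ((m : ℝ) - 1) * ρ := by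
      have h8 : ∑ i : ZMod m, (if CU2good K GS (t, i) then ρ else 0) ≤
          ∑ i : ZMod m, (if i = i₀ then 0 else ρ) := by
        refine Finset.sum_le_sum fun i _ => ?_
        by_cases hi : i = i₀
        · rw [if_pos hi, hi, if_neg hi₀]
        · rw [if_neg hi]
          split_ifs
          · exact le_rfl
          · exact hρ
      have h9 : ∑ i : ZMod m, (if i = i₀ then 0 else ρ) = ((m : ℝ) - 1) * ρ := by
        have e : ∀ i : ZMod m, (if i = i₀ then 0 else ρ) = ρ - (if i = i₀ then ρ else 0) := by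
          intro i
          split_ifs <;> ring
        rw [Finset.sum_congr rfl fun i _ => e i, Finset.sum_sub_distrib, Finset.sum_const,
          Finset.sum_ite_eq' Finset.univ i₀ (fun _ => ρ), if_pos (Finset.mem_univ _),
          Finset.card_univ, ZMod.card, nsmul_eq_mul]
        ring
      linarith
    have h6 : ∑ i : ZMod m, (L * a i / (2 * Real.pi) - v i -
        (CU2cross K A (t, i) + CU2cross K A (K.nx.symm (t, i))) / 2 -
        (if CU2good K GS (t, i) then ρ else 0)) =
        ((m : ℝ) - 2) * L / 2 - ∑ i, v i -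
          ∑ i : ZMod m, (if CU2good K GS (t, i) then ρ else 0) := by
      rw [Finset.sum_sub_distrib, Finset.sum_sub_distrib, Finset.sum_sub_distrib,
        ← Finset.sum_div, ← Finset.sum_div,
        ← Finset.mul_sum, Finset.sum_add_distrib, h3, h5]
      field_simp
      ring
    refine le_trans ?_ h6.ge
    linarith

private theorem CU2list_map {α β : Type} (g : α → β) (x : ℕ → α) (d i : ℕ) :
    (x i :: CU2list x i d).map g = (List.range (d + 1)).map fun k => g (x (i + k)) := by
  induction d generalizing i with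
  | zero => simp [CU2list]
  | succ d ih =>
    have h1 := ih (i + 1)
    have h2 : (List.range (d + 1 + 1)).map (fun k => g (x (i + k))) =
        g (x (i + 0)) :: (List.range (d + 1)).map fun k => g (x (i + (k + 1))) := by
      rw [List.range_succ_eq_map, List.map_cons, List.map_map]
      rfl
    rw [h2, List.map_cons, CU2list, h1]
    congr 1
    refine List.map_congr_left fun k _ => ?_
    rw [show i + 1 + k = i + (k + 1) by omega]

theorem CombU.gapU (K : CombU m a G ι) (σ ε : ZMod m → ℝ)
    (hp : ∀ j k, G j k true → σ j = ε k ∧ ε j = σ k)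
    (hm : ∀ j k, G j k false → σ j = -σ k ∧ ε j = -ε k) :
    WU (fun j => a j / Real.pi) (fun j => a j / Real.pi + σ j - ε (j - 1)) G := by
  classical
  intro GS hGS v A hA L ρ hρ hv
  have hpi := Real.pi_pos
  obtain ⟨c₀, hc₀⟩ := CU2_lp K GS hGS (fun i => (v i : ℝ)) (fun x y => (A x y : ℝ))
    (fun x y => by rw [hA x y]; push_cast; ring) (L : ℝ) (ρ : ℝ) (by exact_mod_cast hρ)
    (by exact_mod_cast hv)
  -- the first corner with minimal code
  set f : ℕ → ℕ := fun k => code (CU2fl K (K.nx^[k] c₀)) with hf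
  set k₀ : ℕ := Function.argmin f with hk₀
  have hmin : ∀ k, f k₀ ≤ f k := fun k => Function.argmin_le f k
  set c := K.nx^[k₀] c₀ with hc
  have hsum : ∀ g : ι × ZMod m → ℝ,
      ∑ k ∈ Finset.range (Function.minimalPeriod K.nx c), g (K.nx^[k] c) =
      ∑ k ∈ Finset.range (Function.minimalPeriod K.nx c₀), g (K.nx^[k] c₀) :=
    fun g => CU2_star_iter K g c₀ k₀
  have hgood : CU2good K GS c ↔ CU2good K GS c₀ := CU2_good_iter K GS c₀ k₀
  have hdeg : Function.minimalPeriod K.nx c = Function.minimalPeriod K.nx c₀ :=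
    CU2_deg_iter K c₀ k₀
  have h0 : ∑ k ∈ Finset.range (Function.minimalPeriod K.nx c),
      ((v ((K.nx^[k] c).2) : ℝ) + CU2cross K (fun x y => (A x y : ℝ)) (K.nx^[k] c)) +
      (if CU2good K GS c then (ρ : ℝ) * (Function.minimalPeriod K.nx c : ℝ) else 0) < L := by
    rw [hsum fun d => (v d.2 : ℝ) + CU2cross K (fun x y => (A x y : ℝ)) d, hdeg]
    simp only [hgood]
    exact hc₀
  obtain ⟨d, hd⟩ : ∃ d, Function.minimalPeriod K.nx c = d + 1 :=
    Nat.exists_eq_succ_of_ne_zero (by have := K.deg2 c; omega)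
  have hd3 := K.deg2 c
  have hper := CU2_period K c
  have ha := K.sum c
  have hword : CU2word K c ∈ GS → CU2good K GS c := fun h => ⟨0, h⟩
  have hbs : ∑ k ∈ Finset.range (Function.minimalPeriod K.nx c),
      (CU2out σ ε (CU2fl K (K.nx^[k] c)) + CU2inn σ ε (CU2fl K (K.nx^[k] c))) = 0 := by
    rw [Finset.sum_add_distrib, ← CU2_star_shift K (fun c => CU2inn σ ε (CU2fl K c)) c,
      ← Finset.sum_add_distrib]
    refine Finset.sum_eq_zero fun k _ => ?_
    rw [Function.iterate_succ_apply']
    exact CU2_cancel σ ε hp hm _ _ (CU2_step K _)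
  unfold CU2word at hword
  rw [hd] at h0 ha hbs hper hd3 hword
  set x : ℕ → ZMod m × Bool := fun k => CU2fl K (K.nx^[k] c) with hx
  have hxe : x (0 + d + 1) = x 0 := by
    simp only [hx, zero_add]
    rw [hper]
    rfl
  have hstep : ∀ k, StepG G (x k) (x (k + 1)) := fun k => by
    simp only [hx]
    rw [Function.iterate_succ_apply']
    exact CU2_step K _
  have hlist : ∀ g : ZMod m × Bool → ℝ,
      g (x 0) + ((CU2list x 0 d).map g).sum = ∑ k ∈ Finset.range (d + 1), g (x k) := by
    intro g
    rw [CU2list_sum, Finset.sum_range_succ', add_comm]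
    congr 1
    exact Finset.sum_congr rfl fun k _ => by rw [show 0 + 1 + k = k + 1 by ring]
  have hcost : ((pcost (stepCost v A) (x 0) (CU2list x 0 d) (x 0) : ℤ) : ℝ) =
      ∑ k ∈ Finset.range (d + 1),
      ((v ((K.nx^[k] c).2) : ℝ) + CU2cross K (fun x y => (A x y : ℝ)) (K.nx^[k] c)) := by
    have h1 := CU2list_cost (stepCost v A) x d 0
    rw [hxe] at h1
    rw [h1]
    push_cast
    refine Finset.sum_congr rfl fun k _ => ?_
    rw [zero_add]
    simp only [hx]
    rw [Function.iterate_succ_apply']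
    unfold stepCost
    push_cast
    rfl
  refine ⟨x 0, CU2list x 0 d, ?_, ?_, ?_, ?_, ?_, ?_, ?_⟩
  · intro y hy
    obtain ⟨k, rfl⟩ := CU2list_mem x d 0 y hy
    have h1 := hmin (k + k₀)
    simp only [hf] at h1
    rw [Function.iterate_add_apply] at h1
    exact h1
  · have := CU2list_pth x hstep d 0
    rwa [hxe] at this
  · rw [CU2list_length]
    omega
  · rw [hlist fun y => a y.1 / Real.pi, ← Finset.sum_div]
    change (∑ k ∈ Finset.range (d + 1), a (K.nx^[k] c).2) / Real.pi = 2
    rw [ha]
    field_simp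
  · rw [hlist fun y => a y.1 / Real.pi + σ y.1 - ε (y.1 - 1)]
    have h1 : ∀ k, a (x k).1 / Real.pi + σ (x k).1 - ε ((x k).1 - 1) =
        a (x k).1 / Real.pi + (CU2out σ ε (x k) + CU2inn σ ε (x k)) := fun k => by
      rw [← CU2_b]
      ring
    simp only [h1]
    rw [Finset.sum_add_distrib, ← Finset.sum_div]
    change (∑ k ∈ Finset.range (d + 1), a (K.nx^[k] c).2) / Real.pi +
      ∑ k ∈ Finset.range (d + 1),
      (CU2out σ ε (CU2fl K (K.nx^[k] c)) + CU2inn σ ε (CU2fl K (K.nx^[k] c))) = 2
    rw [ha, hbs]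
    field_simp
    norm_num
  · have h2 : ((pcost (stepCost v A) (x 0) (CU2list x 0 d) (x 0) : ℤ) : ℝ) < (L : ℝ) := by
      rw [hcost]
      have h3 : (0 : ℝ) ≤ (if CU2good K GS c then (ρ : ℝ) * ((d + 1 : ℕ) : ℝ) else 0) := by
        have : (0 : ℝ) ≤ (ρ : ℝ) := by exact_mod_cast hρ
        split_ifs
        · positivity
        · exact le_rfl
      linarith
    exact_mod_cast h2
  · intro hmem
    rw [CU2list_map] at hmem
    have hg : CU2good K GS c := by
      apply hword
      have e : (List.range (d + 1)).map (fun k => CU2cd K (K.nx^[k] c)) =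
          (List.range (d + 1)).map fun k => code (x (0 + k)) := by
        refine List.map_congr_left fun k _ => ?_
        rw [zero_add]
        rfl
      rw [e]
      exact hmem
    rw [if_pos hg] at h0
    have h2 : ((pcost (stepCost v A) (x 0) (CU2list x 0 d) (x 0) +
        ρ * (((CU2list x 0 d).length : ℤ) + 1) : ℤ) : ℝ) < (L : ℝ) := by
      rw [CU2list_length]
      push_cast
      rw [hcost]
      push_cast at h0
      linarith
    exact_mod_cast h2

end Pool.Agent.Lib_MP_fa6e45
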