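import Pool.Agent.Lib_MP_fa6e45.CX0
import Pool.Agent.Lib_MP_fa6e45.CU2

/-!
PIECE CX1 (copy of CU2.lean with changes, about 500 lines): the principle with good stars when every tile has a tile at
distance at most `r` with a bad corner. CU2 has `hv : 2 ∑ v + 2 (m - 1) ρ < (m - 2) L` and every tile has a bad corner.

(1) Lemma (spread): for every `r` and `ω ≥ 0` there is a bounded `H : ι → ℝ` with, for all `t`,
`(if t ∈ K.Bad GS r then ω else 0) ≤ (if t ∈ K.Bad GS 0 then (m + 1) ^ r * ω else 0) - ∑ i, (H (K.nx (t, i)).1 - H t)`.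
Induction on `r` (all `ω`): `r = 0`: `H = 0`. `r + 1`: take `H₀` for `r` and `(m + 1) ω`, put
`H t = H₀ t + (if t ∈ K.Bad GS r then 0 else ω)`. For `t ∈ Bad r`: the new sum is at most `m ω` larger, and
`(m + 1) ω - m ω = ω`. For `t ∉ Bad r` the terms `-(H' (t') - H' t)` of the new part are `0` or `ω` (`ω` for the
neighbours in `Bad r`, there is one if `t ∈ Bad (r + 1)`).

(2) In `CU2_lp` use the function
`f c = L a c.2 / (2 π) - v c.2 - (cross c + cross (nx⁻¹ c)) / 2 - (if good c then ρ else 0) - (H (nx c).1 - H c.1)`,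
`ρ = (m + 1) ^ r ω`. The star sums of the last term are `0` (telescoping: `CU2_star_shift` for `c ↦ H c.1`), so the star
sums are as in CU2. Tile sums: `∑ i, (if good (t, i) then ρ else 0) ≤ m ρ - (if t ∈ Bad 0 then ρ else 0)`, so with (1) and
`t ∈ Bad r` the tile sum is at least `(m - 2) L / 2 - ∑ v - m ρ + ω > 0`.

`CombU.good`, `CombU.word`, `CombU.cd` of CX0 are the definitions `CU2good`, `CU2word`, `CU2cd` (private there).
-/

open Set MeasureTheory Complex
open scoped Topology

namespace Pool.Agent.Lib_MP_fa6e45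

open Pool.Agent.Lib_PL (cr InSector Poly)
variable {m : ℕ} [NeZero m] {a : ZMod m → ℝ} {G : ZMod m → ZMod m → Bool → Prop} {ι : Type}

/-! ### Lists along a sequence -/

private def CX1list {α : Type} (x : ℕ → α) : ℕ → ℕ → List α
  | _, 0 => []
  | i, d + 1 => x (i + 1) :: CX1list x (i + 1) d

private theorem CX1list_length {α : Type} (x : ℕ → α) (d i : ℕ) : (CX1list x i d).length = d := by
  induction d generalizing i with
  | zero => rfl
  | succ d ih => simp [CX1list, ih]

private theorem CX1list_mem {α : Type} (x : ℕ → α) (d i : ℕ) (y : α) (hy : y ∈ CX1list x i d) :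
    ∃ k, y = x k := by
  induction d generalizing i with
  | zero => simp [CX1list] at hy
  | succ d ih =>
    rw [CX1list, List.mem_cons] at hy
    rcases hy with h | h
    · exact ⟨_, h⟩
    · exact ih _ h

private theorem CX1list_pth {α : Type} {R : α → α → Prop} (x : ℕ → α)
    (h : ∀ k, R (x k) (x (k + 1))) (d i : ℕ) : Pth R (x i) (CX1list x i d) (x (i + d + 1)) := by
  induction d generalizing i with
  | zero => exact h i
  | succ d ih =>
    refine ⟨h i, ?_⟩
    have := ih (i + 1)
    rwa [show i + 1 + d + 1 = i + (d + 1) + 1 by ring] at this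

private theorem CX1list_cost {α M : Type} [AddCommMonoid M] (f : α → α → M) (x : ℕ → α) (d i : ℕ) :
    pcost f (x i) (CX1list x i d) (x (i + d + 1)) =
      ∑ k ∈ Finset.range (d + 1), f (x (i + k)) (x (i + k + 1)) := by
  induction d generalizing i with
  | zero => simp [CX1list, pcost]
  | succ d ih =>
    have := ih (i + 1)
    rw [show i + 1 + d + 1 = i + (d + 1) + 1 by ring] at this
    change f (x i) (x (i + 1)) + pcost f (x (i + 1)) (CX1list x (i + 1) d) (x (i + (d + 1) + 1)) = _
    rw [this, Finset.sum_range_succ' (fun k => f (x (i + k)) (x (i + k + 1))) (d + 1),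
      add_comm (f (x i) (x (i + 1)))]
    congr 1
    exact Finset.sum_congr rfl fun k _ => by
      rw [show i + 1 + k = i + (k + 1) by ring]

private theorem CX1list_sum {α : Type} (g : α → ℝ) (x : ℕ → α) (d i : ℕ) :
    ((CX1list x i d).map g).sum = ∑ k ∈ Finset.range d, g (x (i + 1 + k)) := by
  induction d generalizing i with
  | zero => simp [CX1list]
  | succ d ih =>
    rw [Finset.sum_range_succ', CX1list, List.map_cons, List.sum_cons, ih, add_comm]
    congr 1
    exact Finset.sum_congr rfl fun k _ => by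
      rw [show i + 1 + 1 + k = i + 1 + (k + 1) by ring]

/-! ### The averaging principle for `CombU` -/

private def CX1fl (K : CombU m a G ι) (c : ι × ZMod m) : ZMod m × Bool := (c.2, K.rf c.1)

private def CX1cross (K : CombU m a G ι) (A : ZMod m × Bool → ZMod m × Bool → ℝ)
    (c : ι × ZMod m) : ℝ :=
  A (exW (CX1fl K c)) (enW (CX1fl K (K.nx c)))

omit [NeZero m] in
private theorem CX1_enS_bwd (rf : ι → Bool) (c : ι × ZMod m) : enS rf (bwd rf c) = exS rf c := by
  unfold enS bwd exS
  cases h : rf c.1 <;> simp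

omit [NeZero m] in
private theorem CX1_exS_fwd (rf : ι → Bool) (c : ι × ZMod m) : exS rf (fwd rf c) = enS rf c := by
  unfold enS fwd exS
  cases h : rf c.1 <;> simp

private theorem CX1_exW (K : CombU m a G ι) (c : ι × ZMod m) :
    exW (CX1fl K c) = (exS K.rf c, K.rf c.1) := rfl

private theorem CX1_enW (K : CombU m a G ι) (c : ι × ZMod m) :
    enW (CX1fl K c) = (enS K.rf c, K.rf c.1) := rfl

private theorem CX1_cross_bwd (K : CombU m a G ι) (A : ZMod m × Bool → ZMod m × Bool → ℝ)
    (hA : ∀ x y, A y x = -A x y) (c : ι × ZMod m) :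
    CX1cross K A (K.nx.symm (bwd K.rf c)) = -CX1cross K A c := by
  have h1 : K.nx.symm (bwd K.rf c) = fwd K.rf (K.nx c) := by
    rw [← K.flip c]
    simp
  unfold CX1cross
  rw [Equiv.apply_symm_apply, h1, CX1_exW, CX1_enW, CX1_exW, CX1_enW, CX1_enS_bwd, CX1_exS_fwd, ← hA]
  rfl

private theorem CX1_sum_bwd (K : CombU m a G ι) (g : ι × ZMod m → ℝ) (t : ι) :
    ∑ i, g (bwd K.rf (t, i)) = ∑ i, g (t, i) := by
  unfold bwd
  cases h : K.rf t
  · simp only [h]
    exact Equiv.sum_comp (Equiv.subRight (1 : ZMod m)) (fun i => g (t, i))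
  · simp only [h]
    exact Equiv.sum_comp (Equiv.addRight (1 : ZMod m)) (fun i => g (t, i))

private theorem CX1_tile (K : CombU m a G ι) (A : ZMod m × Bool → ZMod m × Bool → ℝ)
    (hA : ∀ x y, A y x = -A x y) (t : ι) :
    ∑ i, CX1cross K A (K.nx.symm (t, i)) = -∑ i, CX1cross K A (t, i) := by
  rw [← CX1_sum_bwd K (fun c => CX1cross K A (K.nx.symm c)) t, ← Finset.sum_neg_distrib]
  exact Finset.sum_congr rfl fun i _ => CX1_cross_bwd K A hA (t, i)

private theorem CX1_period (K : CombU m a G ι) (c : ι × ZMod m) :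
    K.nx^[Function.minimalPeriod K.nx c] c = c := Function.iterate_minimalPeriod

private theorem CX1_star_shift (K : CombU m a G ι) (g : ι × ZMod m → ℝ) (c : ι × ZMod m) :
    ∑ k ∈ Finset.range (Function.minimalPeriod K.nx c), g (K.nx^[k + 1] c) =
      ∑ k ∈ Finset.range (Function.minimalPeriod K.nx c), g (K.nx^[k] c) := by
  obtain ⟨d, hd⟩ : ∃ d, Function.minimalPeriod K.nx c = d + 1 :=
    Nat.exists_eq_succ_of_ne_zero (by have := K.deg2 c; omega)
  rw [hd, Finset.sum_range_succ, Finset.sum_range_succ' (fun k => g (K.nx^[k] c))]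
  congr 1
  have h := CX1_period K c
  rw [hd] at h
  rw [h]
  rfl

private theorem CX1_star_symm (K : CombU m a G ι) (g : ι × ZMod m → ℝ) (c : ι × ZMod m) :
    ∑ k ∈ Finset.range (Function.minimalPeriod K.nx c), g (K.nx.symm (K.nx^[k] c)) =
      ∑ k ∈ Finset.range (Function.minimalPeriod K.nx c), g (K.nx^[k] c) := by
  rw [← CX1_star_shift K (fun c => g (K.nx.symm c)) c]
  refine Finset.sum_congr rfl fun k _ => ?_
  rw [Function.iterate_succ_apply', Equiv.symm_apply_apply]

private theorem CX1_abs_le {T : Type} [Fintype T] (f : T → ℝ) (x : T) : |f x| ≤ ∑ y, |f y| :=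
  Finset.single_le_sum (f := fun y => |f y|) (fun y _ => abs_nonneg (f y)) (Finset.mem_univ x)

private theorem CX1_cross_le (K : CombU m a G ι) (A : ZMod m × Bool → ZMod m × Bool → ℝ)
    (c : ι × ZMod m) : |CX1cross K A c| ≤ ∑ p : (ZMod m × Bool) × (ZMod m × Bool), |A p.1 p.2| :=
  CX1_abs_le (fun p : (ZMod m × Bool) × (ZMod m × Bool) => A p.1 p.2)
    (exW (CX1fl K c), enW (CX1fl K (K.nx c)))

private theorem CX1_deg_iter (K : CombU m a G ι) (c : ι × ZMod m) (k : ℕ) :
    Function.minimalPeriod K.nx (K.nx^[k] c) = Function.minimalPeriod K.nx c := by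
  refine Function.minimalPeriod_apply_iterate ?_ k
  exact Function.minimalPeriod_pos_iff_mem_periodicPts.1 (by have := K.deg2 c; omega)

private theorem CX1_star_iter (K : CombU m a G ι) (g : ι × ZMod m → ℝ) (c : ι × ZMod m) (j : ℕ) :
    ∑ k ∈ Finset.range (Function.minimalPeriod K.nx (K.nx^[j] c)), g (K.nx^[k] (K.nx^[j] c)) =
      ∑ k ∈ Finset.range (Function.minimalPeriod K.nx c), g (K.nx^[k] c) := by
  induction j with
  | zero => rfl
  | succ j ih =>
    rw [← ih, ← CX1_star_shift K g (K.nx^[j] c), CX1_deg_iter, CX1_deg_iter]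
    refine Finset.sum_congr rfl fun k _ => ?_
    rw [Function.iterate_succ_apply', Function.iterate_succ_apply]

private theorem CX1_step (K : CombU m a G ι) (c : ι × ZMod m) :
    StepG G (CX1fl K c) (CX1fl K (K.nx c)) := K.glue c

/-- contribution of the exit side -/
private def CX1out (σ ε : ZMod m → ℝ) (y : ZMod m × Bool) : ℝ :=
  if y.2 then σ (exW y).1 else -ε (exW y).1

/-- contribution of the entry side -/
private def CX1inn (σ ε : ZMod m → ℝ) (y : ZMod m × Bool) : ℝ :=
  if y.2 then -ε (enW y).1 else σ (enW y).1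

omit [NeZero m] in
private theorem CX1_b (σ ε : ZMod m → ℝ) (y : ZMod m × Bool) :
    σ y.1 - ε (y.1 - 1) = CX1out σ ε y + CX1inn σ ε y := by
  obtain ⟨i, f⟩ := y
  cases f
  · simp only [CX1out, CX1inn, exW, enW, Bool.false_eq_true, if_false]
    ring
  · simp only [CX1out, CX1inn, exW, enW, if_true]
    ring

omit [NeZero m] in
private theorem CX1_cancel (σ ε : ZMod m → ℝ)
    (hp : ∀ j k, G j k true → σ j = ε k ∧ ε j = σ k)
    (hm : ∀ j k, G j k false → σ j = -σ k ∧ ε j = -ε k)
    (y z : ZMod m × Bool) (h : StepG G y z) : CX1out σ ε y + CX1inn σ ε z = 0 := by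
  unfold StepG at h
  obtain ⟨i, f⟩ := y
  obtain ⟨j, g⟩ := z
  cases f <;> cases g
  · have := hp _ _ h
    simp only [CX1out, CX1inn, Bool.false_eq_true, if_false]
    linarith [this.2]
  · have := hm _ _ h
    simp only [CX1out, CX1inn, Bool.false_eq_true, if_false, if_true]
    linarith [this.2]
  · have := hm _ _ h
    simp only [CX1out, CX1inn, Bool.false_eq_true, if_false, if_true]
    linarith [this.1]
  · have := hp _ _ h
    simp only [CX1out, CX1inn, if_true]
    linarith [this.1]

/-! ### Words of the stars -/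

private theorem CX1_good_nx (K : CombU m a G ι) (GS : List (List ℕ)) (c : ι × ZMod m) :
    K.good GS (K.nx c) ↔ K.good GS c := by
  constructor
  · rintro ⟨k, hk⟩
    refine ⟨k + 1, ?_⟩
    rwa [Function.iterate_succ_apply]
  · rintro ⟨k, hk⟩
    have hd := K.deg2 c
    obtain ⟨d, hd'⟩ : ∃ d, Function.minimalPeriod K.nx c = d + 1 :=
      Nat.exists_eq_succ_of_ne_zero (by omega)
    refine ⟨k + d, ?_⟩
    have h1 : K.nx^[k + d] (K.nx c) = K.nx^[k] c := by
      rw [← Function.iterate_succ_apply, show (k + d).succ = k + (d + 1) from rfl, ← hd',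
        Function.iterate_add_apply, CX1_period]
    rwa [h1]

private theorem CX1_good_iter (K : CombU m a G ι) (GS : List (List ℕ)) (c : ι × ZMod m) (k : ℕ) :
    K.good GS (K.nx^[k] c) ↔ K.good GS c := by
  induction k with
  | zero => exact Iff.rfl
  | succ k ih => rw [Function.iterate_succ_apply', CX1_good_nx, ih]

private theorem CX1_word_getD (K : CombU m a G ι) (c : ι × ZMod m) (k : ℕ) :
    (K.word c).getD (k % Function.minimalPeriod K.nx c) 0 = K.cd (K.nx^[k] c) := by
  have hd := K.deg2 c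
  have hlt : k % Function.minimalPeriod K.nx c < Function.minimalPeriod K.nx c :=
    Nat.mod_lt _ (by omega)
  unfold CombU.word
  rw [List.getD_eq_getElem _ _ (by simpa using hlt), List.getElem_map, List.getElem_range,
    Function.iterate_mod_minimalPeriod_eq]

private theorem CX1_word_length (K : CombU m a G ι) (c : ι × ZMod m) :
    (K.word c).length = Function.minimalPeriod K.nx c := by
  simp [CombU.word]

/-! ### Spreading the bad corners -/

open Classical in
private theorem CX1_spread (K : CombU m a G ι) (GS : List (List ℕ)) (r : ℕ) :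
    ∀ ω : ℝ, 0 ≤ ω → ∃ H : ι → ℝ, (∃ B : ℝ, ∀ t, |H t| ≤ B) ∧ ∀ t,
      (if t ∈ K.Bad GS r then ω else 0) ≤
        (if t ∈ K.Bad GS 0 then ((m : ℝ) + 1) ^ r * ω else 0) -
          ∑ i : ZMod m, (H (K.nx (t, i)).1 - H t) := by
  induction r with
  | zero =>
    intro ω hω
    refine ⟨fun _ => 0, ⟨0, fun t => by simp⟩, fun t => ?_⟩
    simp
  | succ r ih =>
    intro ω hω
    obtain ⟨H₀, ⟨B, hB⟩, h0⟩ := ih (((m : ℝ) + 1) * ω) (by positivity)
    obtain ⟨u, hu⟩ : ∃ u : ι → ℝ, ∀ t, u t = if t ∈ K.Bad GS r then 0 else ω := ⟨_, fun _ => rfl⟩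
    have hu0 : ∀ t, 0 ≤ u t ∧ u t ≤ ω := by
      intro t
      rw [hu]
      split_ifs
      · exact ⟨le_rfl, hω⟩
      · exact ⟨hω, le_rfl⟩
    have hu1 : ∀ t, t ∈ K.Bad GS r → u t = 0 := fun t ht => by rw [hu, if_pos ht]
    have hu2 : ∀ t, t ∉ K.Bad GS r → u t = ω := fun t ht => by rw [hu, if_neg ht]
    refine ⟨fun t => H₀ t + u t, ⟨B + ω, fun t => ?_⟩, fun t => ?_⟩
    · have h1 : |u t| ≤ ω := by
        rw [abs_of_nonneg (hu0 t).1]
        exact (hu0 t).2
      exact (abs_add_le _ _).trans (add_le_add (hB t) h1)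
    · have e1 : ∑ i : ZMod m, (H₀ (K.nx (t, i)).1 + u (K.nx (t, i)).1 - (H₀ t + u t)) =
          ∑ i : ZMod m, (H₀ (K.nx (t, i)).1 - H₀ t) + ∑ i : ZMod m, (u (K.nx (t, i)).1 - u t) := by
        rw [← Finset.sum_add_distrib]
        exact Finset.sum_congr rfl fun i _ => by ring
      have e2 : ((m : ℝ) + 1) ^ (r + 1) * ω = ((m : ℝ) + 1) ^ r * (((m : ℝ) + 1) * ω) := by ring
      have key : (if t ∈ K.Bad GS (r + 1) then ω else 0) + ∑ i : ZMod m, (u (K.nx (t, i)).1 - u t) ≤
          (if t ∈ K.Bad GS r then ((m : ℝ) + 1) * ω else 0) := by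
        by_cases ht : t ∈ K.Bad GS r
        · have ht' : t ∈ K.Bad GS (r + 1) := Or.inl ht
          rw [if_pos ht', if_pos ht]
          have h2 : ∑ i : ZMod m, (u (K.nx (t, i)).1 - u t) ≤ ∑ _i : ZMod m, ω := by
            refine Finset.sum_le_sum fun i _ => ?_
            rw [hu1 t ht, sub_zero]
            exact (hu0 _).2
          rw [Finset.sum_const, Finset.card_univ, ZMod.card, nsmul_eq_mul] at h2
          linarith
        · rw [if_neg ht]
          have h3 : ∀ i : ZMod m, u (K.nx (t, i)).1 - u t ≤ 0 := by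
            intro i
            rw [hu2 t ht]
            linarith [(hu0 (K.nx (t, i)).1).2]
          by_cases ht' : t ∈ K.Bad GS (r + 1)
          · rw [if_pos ht']
            rcases ht' with h4 | ⟨i₀, h4⟩
            · exact absurd h4 ht
            · have h5 := Finset.single_le_sum (f := fun i : ZMod m => -(u (K.nx (t, i)).1 - u t))
                (fun i _ => by linarith [h3 i]) (Finset.mem_univ i₀)
              rw [Finset.sum_neg_distrib] at h5
              rw [hu1 _ h4, hu2 t ht] at h5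
              rw [hu2 t ht]
              linarith
          · rw [if_neg ht', zero_add]
            exact Finset.sum_nonpos fun i _ => h3 i
      have h7 := h0 t
      simp only at h7 ⊢
      rw [e1, e2]
      linarith

open Classical in
private theorem CX1_lp (K : CombU m a G ι) (GS : List (List ℕ)) (r : ℕ)
    (hB : ∀ t, t ∈ K.Bad GS r)
    (v : ZMod m → ℝ) (A : ZMod m × Bool → ZMod m × Bool → ℝ)
    (hA : ∀ x y, A y x = -A x y) (L ω ρ : ℝ) (hω : 0 ≤ ω) (hρ : ρ = ((m : ℝ) + 1) ^ r * ω)
    (hv : 2 * ∑ i, v i + 2 * ((m : ℝ) * ρ - ω) < ((m : ℝ) - 2) * L) :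
    ∃ c, ∑ k ∈ Finset.range (Function.minimalPeriod K.nx c),
      (v ((K.nx^[k] c).2) + CX1cross K A (K.nx^[k] c)) +
      (if K.good GS c then ρ * (Function.minimalPeriod K.nx c : ℝ) else 0) < L := by
  have hρ0 : 0 ≤ ρ := by
    rw [hρ]
    positivity
  obtain ⟨H, ⟨B, hHB⟩, hH⟩ := CX1_spread K GS r ω hω
  by_contra hcon
  push Not at hcon
  have hpi := Real.pi_pos
  refine K.avg (fun c => L * a c.2 / (2 * Real.pi) - v c.2 -
    (CX1cross K A c + CX1cross K A (K.nx.symm c)) / 2 - (if K.good GS c then ρ else 0) -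
    (H (K.nx c).1 - H c.1)) ?_ ?_
    (((m : ℝ) - 2) * L / 2 - ∑ i, v i - ((m : ℝ) * ρ - ω)) (by linarith) ?_
  · refine ⟨|L| + ∑ i, |v i| + ∑ p : (ZMod m × Bool) × (ZMod m × Bool), |A p.1 p.2| + ρ + (B + B),
      fun c => ?_⟩
    have h1 : |L * a c.2 / (2 * Real.pi)| ≤ |L| := by
      rw [mul_div_assoc, abs_mul]
      have h2 : |a c.2 / (2 * Real.pi)| ≤ 1 := by
        rw [abs_of_pos (div_pos (K.a_pos _) (by positivity)), div_le_one (by positivity)]
        exact (K.a_lt _).le
      calc |L| * |a c.2 / (2 * Real.pi)| ≤ |L| * 1 :=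
            mul_le_mul_of_nonneg_left h2 (abs_nonneg L)
        _ = |L| := mul_one _
    have h2 : |v c.2| ≤ ∑ i, |v i| := CX1_abs_le v c.2
    have h3 := CX1_cross_le K A c
    have h4 := CX1_cross_le K A (K.nx.symm c)
    have h5 : 0 ≤ (if K.good GS c then ρ else 0) ∧ (if K.good GS c then ρ else 0) ≤ ρ := by
      split_ifs
      · exact ⟨hρ0, le_rfl⟩
      · exact ⟨le_rfl, hρ0⟩
    have h8 := hHB (K.nx c).1
    have h9 := hHB c.1
    rw [abs_le] at *
    constructor <;> linarith [h1.1, h1.2, h2.1, h2.2, h3.1, h3.2, h4.1, h4.2, h5.1, h5.2,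
      h8.1, h8.2, h9.1, h9.2]
  · intro c
    have h1 := hcon c
    have h2 := K.sum c
    have h3 := CX1_star_symm K (CX1cross K A) c
    have h6 : ∑ k ∈ Finset.range (Function.minimalPeriod K.nx c),
        (if K.good GS (K.nx^[k] c) then ρ else 0) =
        (if K.good GS c then ρ * (Function.minimalPeriod K.nx c : ℝ) else 0) := by
      simp only [CX1_good_iter]
      rw [Finset.sum_const, Finset.card_range, nsmul_eq_mul]
      split_ifs
      · ring
      · ring
    have h7 : ∑ k ∈ Finset.range (Function.minimalPeriod K.nx c),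
        (H (K.nx (K.nx^[k] c)).1 - H (K.nx^[k] c).1) = 0 := by
      rw [Finset.sum_sub_distrib]
      have h8 := CX1_star_shift K (fun c => H c.1) c
      simp only [Function.iterate_succ_apply'] at h8
      rw [h8, sub_self]
    rw [Finset.sum_add_distrib] at h1
    rw [Finset.sum_sub_distrib, Finset.sum_sub_distrib, Finset.sum_sub_distrib,
      Finset.sum_sub_distrib, ← Finset.sum_div, ← Finset.sum_div,
      ← Finset.mul_sum, Finset.sum_add_distrib, h2, h3, h6, h7]
    have h4 : L * (2 * Real.pi) / (2 * Real.pi) = L := by field_simp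
    rw [h4]
    linarith
  · intro t
    have h3 := CX1_tile K A hA t
    have h5 := K.a_sum
    have h7 : ∑ i : ZMod m, (if K.good GS (t, i) then ρ else 0) ≤
        (m : ℝ) * ρ - (if t ∈ K.Bad GS 0 then ρ else 0) := by
      by_cases ht : t ∈ K.Bad GS 0
      · obtain ⟨i₀, hi₀⟩ := ht
        have ht : t ∈ K.Bad GS 0 := ⟨i₀, hi₀⟩
        rw [if_pos ht]
        have h8 : ∑ i : ZMod m, (if K.good GS (t, i) then ρ else 0) ≤
            ∑ i : ZMod m, (if i = i₀ then 0 else ρ) := by
          refine Finset.sum_le_sum fun i _ => ?_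
          by_cases hi : i = i₀
          · rw [if_pos hi, hi, if_neg hi₀]
          · rw [if_neg hi]
            split_ifs
            · exact le_rfl
            · exact hρ0
        have h9 : ∑ i : ZMod m, (if i = i₀ then 0 else ρ) = (m : ℝ) * ρ - ρ := by
          have e : ∀ i : ZMod m, (if i = i₀ then 0 else ρ) = ρ - (if i = i₀ then ρ else 0) := by
            intro i
            split_ifs <;> ring
          rw [Finset.sum_congr rfl fun i _ => e i, Finset.sum_sub_distrib, Finset.sum_const,
            Finset.sum_ite_eq' Finset.univ i₀ (fun _ => ρ), if_pos (Finset.mem_univ _),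
            Finset.card_univ, ZMod.card, nsmul_eq_mul]
        linarith
      · rw [if_neg ht]
        have h8 : ∑ i : ZMod m, (if K.good GS (t, i) then ρ else 0) ≤ ∑ _i : ZMod m, ρ := by
          refine Finset.sum_le_sum fun i _ => ?_
          split_ifs
          · exact le_rfl
          · exact hρ0
        rw [Finset.sum_const, Finset.card_univ, ZMod.card, nsmul_eq_mul] at h8
        linarith
    have h8 := hH t
    rw [if_pos (hB t), ← hρ] at h8
    have h6 : ∑ i : ZMod m, (L * a i / (2 * Real.pi) - v i -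
        (CX1cross K A (t, i) + CX1cross K A (K.nx.symm (t, i))) / 2 -
        (if K.good GS (t, i) then ρ else 0) - (H (K.nx (t, i)).1 - H t)) =
        ((m : ℝ) - 2) * L / 2 - ∑ i, v i -
          ∑ i : ZMod m, (if K.good GS (t, i) then ρ else 0) -
          ∑ i : ZMod m, (H (K.nx (t, i)).1 - H t) := by
      rw [Finset.sum_sub_distrib, Finset.sum_sub_distrib, Finset.sum_sub_distrib,
        Finset.sum_sub_distrib (f := fun i => L * a i / (2 * Real.pi)),
        ← Finset.sum_div, ← Finset.sum_div,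
        ← Finset.mul_sum, Finset.sum_add_distrib, h3, h5]
      field_simp
      ring
    refine le_trans ?_ h6.ge
    linarith

private theorem CX1list_map {α β : Type} (g : α → β) (x : ℕ → α) (d i : ℕ) :
    (x i :: CX1list x i d).map g = (List.range (d + 1)).map fun k => g (x (i + k)) := by
  induction d generalizing i with
  | zero => simp [CX1list]
  | succ d ih =>
    have h1 := ih (i + 1)
    have h2 : (List.range (d + 1 + 1)).map (fun k => g (x (i + k))) =
        g (x (i + 0)) :: (List.range (d + 1)).map fun k => g (x (i + (k + 1))) := by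
      rw [List.range_succ_eq_map, List.map_cons, List.map_map]
      rfl
    rw [h2, List.map_cons, CX1list, h1]
    congr 1
    refine List.map_congr_left fun k _ => ?_
    rw [show i + 1 + k = i + (k + 1) by omega]

theorem CombU.gapB (K : CombU m a G ι) (σ ε : ZMod m → ℝ)
    (hp : ∀ j k, G j k true → σ j = ε k ∧ ε j = σ k)
    (hm : ∀ j k, G j k false → σ j = -σ k ∧ ε j = -ε k)
    (GS : List (List ℕ)) (r : ℕ) (hB : ∀ t, t ∈ K.Bad GS r)
    (v : ZMod m → ℤ) (A : ZMod m × Bool → ZMod m × Bool → ℤ) (hA : ∀ x y, A y x = -A x y)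
    (L ω : ℤ) (hω : 0 ≤ ω)
    (hv : 2 * ∑ i, v i + 2 * ((m : ℤ) * (((m : ℤ) + 1) ^ r * ω) - ω) < ((m : ℤ) - 2) * L) :
    ∃ (c : ZMod m × Bool) (l : List (ZMod m × Bool)), (∀ x ∈ l, code c ≤ code x) ∧
      Pth (StepG G) c l c ∧ 1 ≤ l.length ∧ a c.1 / Real.pi + (l.map fun x => a x.1 / Real.pi).sum = 2 ∧
      a c.1 / Real.pi + σ c.1 - ε (c.1 - 1) +
        (l.map fun x => a x.1 / Real.pi + σ x.1 - ε (x.1 - 1)).sum = 2 ∧
      pcost (stepCost v A) c l c < L ∧
      ((c :: l).map code ∈ GS →
        pcost (stepCost v A) c l c + ((m : ℤ) + 1) ^ r * ω * ((l.length : ℤ) + 1) < L) := by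
  classical
  have hpi := Real.pi_pos
  set ρ : ℤ := ((m : ℤ) + 1) ^ r * ω with hρ
  have hρ0 : 0 ≤ ρ := by
    rw [hρ]
    positivity
  obtain ⟨c₀, hc₀⟩ := CX1_lp K GS r hB (fun i => (v i : ℝ)) (fun x y => (A x y : ℝ))
    (fun x y => by rw [hA x y]; push_cast; ring) (L : ℝ) (ω : ℝ) (ρ : ℝ) (by exact_mod_cast hω)
    (by rw [hρ]; push_cast; rfl) (by exact_mod_cast hv)
  -- the first corner with minimal code
  set f : ℕ → ℕ := fun k => code (CX1fl K (K.nx^[k] c₀)) with hf
  set k₀ : ℕ := Function.argmin f with hk₀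
  have hmin : ∀ k, f k₀ ≤ f k := fun k => Function.argmin_le f k
  set c := K.nx^[k₀] c₀ with hc
  have hsum : ∀ g : ι × ZMod m → ℝ,
      ∑ k ∈ Finset.range (Function.minimalPeriod K.nx c), g (K.nx^[k] c) =
      ∑ k ∈ Finset.range (Function.minimalPeriod K.nx c₀), g (K.nx^[k] c₀) :=
    fun g => CX1_star_iter K g c₀ k₀
  have hgood : K.good GS c ↔ K.good GS c₀ := CX1_good_iter K GS c₀ k₀
  have hdeg : Function.minimalPeriod K.nx c = Function.minimalPeriod K.nx c₀ :=
    CX1_deg_iter K c₀ k₀
  have h0 : ∑ k ∈ Finset.range (Function.minimalPeriod K.nx c),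
      ((v ((K.nx^[k] c).2) : ℝ) + CX1cross K (fun x y => (A x y : ℝ)) (K.nx^[k] c)) +
      (if K.good GS c then (ρ : ℝ) * (Function.minimalPeriod K.nx c : ℝ) else 0) < L := by
    rw [hsum fun d => (v d.2 : ℝ) + CX1cross K (fun x y => (A x y : ℝ)) d, hdeg]
    simp only [hgood]
    exact hc₀
  obtain ⟨d, hd⟩ : ∃ d, Function.minimalPeriod K.nx c = d + 1 :=
    Nat.exists_eq_succ_of_ne_zero (by have := K.deg2 c; omega)
  have hd3 := K.deg2 c
  have hper := CX1_period K c
  have ha := K.sum c
  have hword : K.word c ∈ GS → K.good GS c := fun h => ⟨0, h⟩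
  have hbs : ∑ k ∈ Finset.range (Function.minimalPeriod K.nx c),
      (CX1out σ ε (CX1fl K (K.nx^[k] c)) + CX1inn σ ε (CX1fl K (K.nx^[k] c))) = 0 := by
    rw [Finset.sum_add_distrib, ← CX1_star_shift K (fun c => CX1inn σ ε (CX1fl K c)) c,
      ← Finset.sum_add_distrib]
    refine Finset.sum_eq_zero fun k _ => ?_
    rw [Function.iterate_succ_apply']
    exact CX1_cancel σ ε hp hm _ _ (CX1_step K _)
  unfold CombU.word at hword
  rw [hd] at h0 ha hbs hper hd3 hword
  set x : ℕ → ZMod m × Bool := fun k => CX1fl K (K.nx^[k] c) with hx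
  have hxe : x (0 + d + 1) = x 0 := by
    simp only [hx, zero_add]
    rw [hper]
    rfl
  have hstep : ∀ k, StepG G (x k) (x (k + 1)) := fun k => by
    simp only [hx]
    rw [Function.iterate_succ_apply']
    exact CX1_step K _
  have hlist : ∀ g : ZMod m × Bool → ℝ,
      g (x 0) + ((CX1list x 0 d).map g).sum = ∑ k ∈ Finset.range (d + 1), g (x k) := by
    intro g
    rw [CX1list_sum, Finset.sum_range_succ', add_comm]
    congr 1
    exact Finset.sum_congr rfl fun k _ => by rw [show 0 + 1 + k = k + 1 by ring]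
  have hcost : ((pcost (stepCost v A) (x 0) (CX1list x 0 d) (x 0) : ℤ) : ℝ) =
      ∑ k ∈ Finset.range (d + 1),
      ((v ((K.nx^[k] c).2) : ℝ) + CX1cross K (fun x y => (A x y : ℝ)) (K.nx^[k] c)) := by
    have h1 := CX1list_cost (stepCost v A) x d 0
    rw [hxe] at h1
    rw [h1]
    push_cast
    refine Finset.sum_congr rfl fun k _ => ?_
    rw [zero_add]
    simp only [hx]
    rw [Function.iterate_succ_apply']
    unfold stepCost
    push_cast
    rfl
  refine ⟨x 0, CX1list x 0 d, ?_, ?_, ?_, ?_, ?_, ?_, ?_⟩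
  · intro y hy
    obtain ⟨k, rfl⟩ := CX1list_mem x d 0 y hy
    have h1 := hmin (k + k₀)
    simp only [hf] at h1
    rw [Function.iterate_add_apply] at h1
    exact h1
  · have := CX1list_pth x hstep d 0
    rwa [hxe] at this
  · rw [CX1list_length]
    omega
  · rw [hlist fun y => a y.1 / Real.pi, ← Finset.sum_div]
    change (∑ k ∈ Finset.range (d + 1), a (K.nx^[k] c).2) / Real.pi = 2
    rw [ha]
    field_simp
  · rw [hlist fun y => a y.1 / Real.pi + σ y.1 - ε (y.1 - 1)]
    have h1 : ∀ k, a (x k).1 / Real.pi + σ (x k).1 - ε ((x k).1 - 1) =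
        a (x k).1 / Real.pi + (CX1out σ ε (x k) + CX1inn σ ε (x k)) := fun k => by
      rw [← CX1_b]
      ring
    simp only [h1]
    rw [Finset.sum_add_distrib, ← Finset.sum_div]
    change (∑ k ∈ Finset.range (d + 1), a (K.nx^[k] c).2) / Real.pi +
      ∑ k ∈ Finset.range (d + 1),
      (CX1out σ ε (CX1fl K (K.nx^[k] c)) + CX1inn σ ε (CX1fl K (K.nx^[k] c))) = 2
    rw [ha, hbs]
    field_simp
    norm_num
  · have h2 : ((pcost (stepCost v A) (x 0) (CX1list x 0 d) (x 0) : ℤ) : ℝ) < (L : ℝ) := by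
      rw [hcost]
      have h3 : (0 : ℝ) ≤ (if K.good GS c then (ρ : ℝ) * ((d + 1 : ℕ) : ℝ) else 0) := by
        have : (0 : ℝ) ≤ (ρ : ℝ) := by exact_mod_cast hρ0
        split_ifs
        · positivity
        · exact le_rfl
      linarith
    exact_mod_cast h2
  · intro hmem
    rw [CX1list_map] at hmem
    have hg : K.good GS c := by
      apply hword
      have e : (List.range (d + 1)).map (fun k => K.cd (K.nx^[k] c)) =
          (List.range (d + 1)).map fun k => code (x (0 + k)) := by
        refine List.map_congr_left fun k _ => ?_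
        rw [zero_add]
        rfl
      rw [e]
      exact hmem
    rw [if_pos hg] at h0
    have h2 : ((pcost (stepCost v A) (x 0) (CX1list x 0 d) (x 0) +
        ρ * (((CX1list x 0 d).length : ℤ) + 1) : ℤ) : ℝ) < (L : ℝ) := by
      rw [CX1list_length]
      push_cast
      rw [hcost]
      push_cast at h0
      linarith
    exact_mod_cast h2

end Pool.Agent.Lib_MP_fa6e45
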