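import Pool.Agent.Lib_MP_fa6e45.CU0

/-!
MP_fa6e45_co, stage 9: fast certificates. Numbers with many digits in base `2 ^ u` are used as vectors.

The costs of the steps are given directly (`W`), for a step and its dual step the sum of the two costs is bounded. The
search for closed walks uses lower bounds `H` for the cost of the way back. The equations of the nodes are pairs of
vectors (positive and negative part) in base `2 ^ 48`.
-/

namespace Pool.Agent.Lib_MP_fa6e45

/-! ### numbers as vectors -/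

/-- digit number `i` of `x` in base `2 ^ u` -/
noncomputable def dg (u x i : ℕ) : ℕ := Nat.mod (Nat.div x (Nat.pow 2 (Nat.mul u i))) (Nat.pow 2 u)

/-- the number with `n` digits `1` in base `2 ^ u` -/
noncomputable def onQ (u n : ℕ) : ℕ := Nat.div (Nat.sub (Nat.pow 2 (Nat.mul u n)) 1) (Nat.sub (Nat.pow 2 u) 1)

/-- the number with the digits `0`, `1`, ..., `n - 1` in base `2 ^ u` -/
noncomputable def ixQ (u n : ℕ) : ℕ :=
  Nat.div (Nat.sub (Nat.succ (Nat.mul (Nat.sub n 1) (Nat.pow 2 (Nat.mul u n)))) (onQ u n)) (Nat.sub (Nat.pow 2 u) 1)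

/-- `f x` (the kernel evaluates `x` first) -/
noncomputable def fQ (x : ℕ) (f : ℕ → Bool) : Bool :=
  Nat.rec (motive := fun _ => Bool) true (fun k _ => f k) (Nat.succ x)

/-- `f i` for all `i < n` -/
noncomputable def allN (f : ℕ → Bool) (n : ℕ) : Bool :=
  Nat.rec (motive := fun _ => Bool) true (fun i r => bif f i then r else false) n

/-- all digits `1` (base `2`) of `M`: `f (2 ^ p)` if the digit number `p` is `1`; `K` is a power of two -/
noncomputable def bitsQ (K : ℕ) (f : ℕ → Bool) : ℕ → ℕ → Bool :=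
  Nat.rec (motive := fun _ => ℕ → Bool) (fun M => Nat.beq M 0)
    (fun _ ih M => Nat.rec (motive := fun _ => Bool) true (fun M' _ =>
      fQ (Nat.gcd (Nat.succ M') K) fun x => bif f x then ih (Nat.sub (Nat.succ M') x) else false) M)

/-! ### linear programming nodes -/

/-- row number `c` of a matrix, `K = 2 ^ (u n)` -/
noncomputable def rwQ (W K c : ℕ) : ℕ := Nat.mod (Nat.div W (Nat.pow K c)) K

/-- numbers of corners after the step to the code `d` -/
noncomputable def cntQ (cnt d : ℕ) : ℕ := Nat.add cnt (Nat.pow (nat_lit 16) (Nat.div d (nat_lit 2)))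

/-- closed walks through codes `≥ c0`; `n` codes, `W` costs (digit `n c + d`), `Hc` lower bounds for the way back to
`c0` (`0` for `c0`), `h0` the one for closed walks from `c0`, `on = onQ u n`, `G = 2 ^ (u - 1) on`, `ix = ixQ u n`,
`V = 2 ^ u`, `U = 2 ^ (u - 1)`, `K = 2 ^ (u n)`; arguments after the fuel: code, remaining budget, numbers of corners (in
base `16`), length -/
noncomputable def dfsQ (n W Hc h0 on G ix V U K c0 : ℕ) (acc : ℕ → ℕ → Bool) (fuel : ℕ) :
    ℕ → ℕ → ℕ → ℕ → Bool :=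
  Nat.rec (motive := fun _ => ℕ → ℕ → ℕ → ℕ → Bool) (fun _ _ _ _ => false)
    (fun _ ih cur b cnt len =>
      Nat.rec (motive := fun _ => Bool) true (fun k _ => fQ (rwQ W K cur) fun R =>
        bitsQ K (fun x => fQ (Nat.div x U) fun s => fQ (Nat.mod (Nat.div ix s) V) fun d =>
          bif Nat.beq d c0 then
            (bif fQ cnt (fun cnt => acc cnt len) then
              (bif Nat.ble (Nat.sub (Nat.succ k) (Nat.mod (Nat.div R s) V)) h0 then true else
                ih d (Nat.sub (Nat.succ k) (Nat.mod (Nat.div R s) V)) (cntQ cnt d) (Nat.succ len)) else false)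
          else ih d (Nat.sub (Nat.succ k) (Nat.mod (Nat.div R s) V)) (cntQ cnt d) (Nat.succ len)) n
          (Nat.land (Nat.sub (Nat.add (Nat.mul k on) G) (Nat.add R Hc)) G)) b) fuel

/-- `h` is at most each of the digits of `X` -/
noncomputable def leQ (on G h X : ℕ) : Bool :=
  bif Nat.ble (Nat.mul h on) X then Nat.beq (Nat.land (Nat.sub X (Nat.mul h on)) G) 0 else false

/-- the lower bounds for the way back are right -/
noncomputable def hbQ (u n W Hs Hc on G K c0 : ℕ) : Bool :=
  allN (fun j => leQ on G (dg u Hs (Nat.add c0 j)) (Nat.add (rwQ W K (Nat.add c0 j)) Hc)) (Nat.sub n c0)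

/-- for a pair of dual steps: `e = (n c + d, n c' + d', c, d, c', d')` -/
noncomputable def pairQ (u W al be : ℕ) (e : ℕ × ℕ × ℕ × ℕ × ℕ × ℕ) : Bool :=
  Nat.ble (Nat.add (Nat.add (dg u W e.1) (dg u W e.2.1)) (Nat.add (dg 32 be e.2.2.2.1) (dg 32 be e.2.2.2.2.2)))
    (Nat.add (dg 32 al e.2.2.1) (dg 32 al e.2.2.2.2.1))

/-- sum of the digits number `0`, ..., `n - 1` in base `2 ^ 32` -/
noncomputable def sumQ (x n : ℕ) : ℕ :=
  Nat.rec (motive := fun _ => ℕ) 0 (fun i r => Nat.add (dg 32 x i) r) n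

/-- the weights are right: `dg 32 al c - dg 32 be c` is the same number for both codes of a corner, and the sum is small
enough -/
noncomputable def wtQ (m L al be : ℕ) : Bool :=
  Nat.blt (sumQ al (Nat.mul 2 m)) (Nat.add (Nat.mul (Nat.sub m 2) L) (sumQ be (Nat.mul 2 m))) &&
  allN (fun i => Nat.beq (Nat.add (dg 32 al (Nat.mul 2 i)) (dg 32 be (Nat.succ (Nat.mul 2 i))))
    (Nat.add (dg 32 al (Nat.succ (Nat.mul 2 i))) (dg 32 be (Nat.mul 2 i)))) m

/-- the digits number `0`, ..., `n - 1` are less than `2 ^ (u - 2)` -/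
noncomputable def smQ (u n X : ℕ) : Bool :=
  Nat.beq (Nat.land X (Nat.mul (Nat.mul 3 (Nat.pow 2 (Nat.sub u 2))) (onQ u n))) 0

/-- accepted closed walks: one corner, or numbers of corners in the list -/
noncomputable def accQ (cvs : List ℕ) (cnt len : ℕ) : Bool := bif Nat.ble len 1 then true else anyF (Nat.beq cnt) cvs

/-- search for closed walks from `c` -/
noncomputable def srQ (u n L fuel W Hs : ℕ) (cvs : List ℕ) (c : ℕ) : Bool :=
  fQ n fun n => fQ Hs fun Hs => fQ (dg u Hs c) fun h0 => fQ (Nat.sub Hs (Nat.mul h0 (Nat.pow 2 (Nat.mul u c)))) fun Hc =>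
  fQ (Nat.pow 2 (Nat.mul u n)) fun K => fQ (onQ u n) fun on => fQ (Nat.pow 2 (Nat.sub u 1)) fun U =>
  fQ (Nat.mul U on) fun G => fQ (Nat.pow 2 u) fun V => fQ (ixQ u n) fun ix =>
    bif hbQ u n W Hs Hc on G K c then
      dfsQ n W Hc h0 on G ix V U K c (accQ cvs) fuel c L (Nat.pow 16 (Nat.div c 2)) 1 else false

/-- the linear programming node is correct; `cvg` are the accepted numbers of corners, in lists according to the first
corner -/
noncomputable def lpK (m : ℕ) (st : List (ℕ × ℕ × ℕ × ℕ × ℕ × ℕ)) (u L fuel al be W H : ℕ)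
    (cvg : List (List ℕ)) : Bool :=
  Nat.ble 4 u && Nat.blt L (Nat.pow 2 (Nat.sub u 2)) && Nat.ble fuel 15 &&
  smQ u (Nat.mul (Nat.mul 2 m) (Nat.mul 2 m)) W && smQ u (Nat.mul (Nat.mul 2 m) (Nat.mul 2 m)) H &&
  wtQ m L al be && allF (pairQ u W al be) st &&
  allN (fun c => srQ u (Nat.mul 2 m) L fuel W (rwQ H (Nat.pow 2 (Nat.mul u (Nat.mul 2 m))) c)
    (nthF [] cvg (Nat.div c 2)) c) (Nat.mul 2 m)

/-- `e = (n c + d, n c' + d', c, d, c', d')` describes two dual steps -/
noncomputable def dualQ (m : ℕ) (e : ℕ × ℕ × ℕ × ℕ × ℕ × ℕ) : Bool :=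
  (e.1 == 2 * m * e.2.2.1 + e.2.2.2.1) && (e.2.1 == 2 * m * e.2.2.2.2.1 + e.2.2.2.2.2) &&
  (exF m e.2.2.1 == enF m e.2.2.2.2.2) && (exF m e.2.2.2.2.1 == enF m e.2.2.2.1) &&
  Nat.blt e.2.2.1 (2 * m) && Nat.blt e.2.2.2.1 (2 * m) &&
  Nat.blt e.2.2.2.2.1 (2 * m) && Nat.blt e.2.2.2.2.2 (2 * m)

/-- the steps of the word `w` with their dual steps: every allowed step `(c, d)` or its dual step is in the list -/
noncomputable def stQ (m : ℕ) (w : List ℕ) (st : List (ℕ × ℕ × ℕ × ℕ × ℕ × ℕ)) : Bool :=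
  allF (dualQ m) st &&
  allN (fun c => allN (fun d =>
    bif okL (nthF 0 w (Nat.div (exF m c) 2)) (nthF 0 w (Nat.div (enF m d) 2))
      (Nat.beq (Nat.mod c 2) (Nat.mod d 2)) then
      anyF (fun e => (bif Nat.beq e.2.2.1 c then Nat.beq e.2.2.2.1 d else false) ||
        (bif Nat.beq e.2.2.2.2.1 c then Nat.beq e.2.2.2.2.2 d else false)) st
    else true) (Nat.mul 2 m)) (Nat.mul 2 m)

/-! ### equations -/

/-- equation of the pair `(p, n)` of vectors in base `2 ^ 48` -/
noncomputable def eqnQ (m : ℕ) (e : ℕ × ℕ) : Eqn :=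
  ((List.range m).map fun j => Int.sub (Int.ofNat (dg 48 e.1 j)) (Int.ofNat (dg 48 e.2 j)),
    Int.sub (Int.ofNat (dg 48 e.1 m)) (Int.ofNat (dg 48 e.2 m)))

/-- the digits number `0`, ..., `m` are less than `2 ^ 20`, the others are `0` -/
noncomputable def bndQ (m : ℕ) (e : ℕ × ℕ) : Bool :=
  (fun M => Nat.beq (Nat.land e.1 M) e.1 && Nat.beq (Nat.land e.2 M) e.2)
    (Nat.mul (Nat.sub (Nat.pow 2 20) 1) (onQ 48 (Nat.succ m)))

/-- the equation `∑ a j = m - 2` -/
noncomputable def eq0Q (m : ℕ) : ℕ × ℕ := (Nat.add (onQ 48 m) (Nat.mul (Nat.sub m 2) (Nat.pow 2 (Nat.mul 48 m))), 0)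

/-- the equation `∑ cv j a j = 2`; `cv` has the digits `cv j` in base `16` -/
noncomputable def cvQ (m cv : ℕ) : ℕ :=
  Nat.rec (motive := fun _ => ℕ → ℕ) (fun _ => 2)
    (fun _ ih c => Nat.add (Nat.mod c 16) (Nat.mul (Nat.pow 2 48) (ih (Nat.div c 16)))) m cv

/-- combination of the equations: the digits in base `2 ^ q` of `l` are `2 |c| + sign`; `X` and `Y` are the sums of the
negative and the positive parts -/
noncomputable def lcQ (q : ℕ) (K : ℕ → ℕ → Bool) (E : List (ℕ × ℕ)) : ℕ → ℕ → ℕ → Bool :=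
  List.rec (motive := fun _ => ℕ → ℕ → ℕ → Bool) (fun _ X Y => K X Y)
    (fun e _ ih l X Y => bif Nat.beq (Nat.mod l 2) 0 then
        ih (Nat.div l (Nat.pow 2 q)) (Nat.add X (Nat.mul (Nat.div (Nat.mod l (Nat.pow 2 q)) 2) e.2))
          (Nat.add Y (Nat.mul (Nat.div (Nat.mod l (Nat.pow 2 q)) 2) e.1))
      else ih (Nat.div l (Nat.pow 2 q)) (Nat.add X (Nat.mul (Nat.div (Nat.mod l (Nat.pow 2 q)) 2) e.1))
          (Nat.add Y (Nat.mul (Nat.div (Nat.mod l (Nat.pow 2 q)) 2) e.2))) E

/-- vector with permuted digits -/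
noncomputable def permQ (m x : ℕ) (σ : List ℕ) : ℕ :=
  List.rec (motive := fun _ => ℕ) (dg 48 x m) (fun s _ ih => Nat.add (dg 48 x s) (Nat.mul (Nat.pow 2 48) ih)) σ

/-- the equation `(tp, tn)` is a combination of `E`: `l` has the digits `d`, and the coefficients -/
noncomputable def derQ1 (q : ℕ) (E : List (ℕ × ℕ)) (tp tn l : ℕ) : Bool :=
  bif Nat.ble 1 (Nat.mod l (Nat.pow 2 q)) then
    lcQ q (fun X Y => Nat.beq (Nat.add X (Nat.mul (Nat.mod l (Nat.pow 2 q)) tp))
      (Nat.add Y (Nat.mul (Nat.mod l (Nat.pow 2 q)) tn))) E (Nat.div l (Nat.pow 2 q)) 0 0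
  else false

/-- all the equations `T` (with permuted variables) are combinations of `E` -/
noncomputable def derQ (m q : ℕ) (E : List (ℕ × ℕ)) (σ : List ℕ) (T : List (ℕ × ℕ)) : List ℕ → Bool :=
  List.rec (motive := fun _ => List ℕ → Bool) (fun _ => true)
    (fun t _ ih ls => List.rec (motive := fun _ => Bool) false
      (fun l ls' _ => bif derQ1 q E (permQ m t.1 σ) (permQ m t.2 σ) l then ih ls' else false) ls) T

/-- sum of `X j - Y j` (if positive) over `j < m` -/
noncomputable def negQ (X Y m : ℕ) : ℕ :=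
  Nat.rec (motive := fun _ => ℕ) 0 (fun j r => Nat.add (Nat.sub (dg 48 X j) (dg 48 Y j)) r) m

/-- the equations are contradictory for angles between `0` and `2`, not `1`. `j = 0`: the combination `l` is an
equation which is impossible; `j > 0`: it is `a (j - 1) = 1` -/
noncomputable def conQ (m q : ℕ) (E : List (ℕ × ℕ)) (j l : ℕ) : Bool :=
  lcQ q (fun X Y => Nat.rec (motive := fun _ => Bool)
      (bif Nat.beq X Y then false else
        Nat.ble (Nat.add (dg 48 Y m) (Nat.mul 2 (negQ X Y m))) (dg 48 X m))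
      (fun i _ => bif Nat.blt i m then (bif Nat.blt X Y then
        (fun b => Nat.beq Y (Nat.add X (Nat.mul (Nat.div (Nat.sub Y X) b) b)))
          (Nat.add (Nat.pow 2 (Nat.mul 48 i)) (Nat.pow 2 (Nat.mul 48 m))) else false) else false) j) E l 0 0

/-- children: contradiction, or reference to an earlier node -/
inductive HQ
  | con (j l : ℕ)
  | ref (idx g : ℕ) (ls : List ℕ)

/-- the child is correct -/
noncomputable def ch1Q (m q : ℕ) (sy : List (Bool × ℕ × List ℕ)) (D : ℕ → List (ℕ × ℕ)) (i : ℕ)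
    (E : List (ℕ × ℕ)) (c : HQ) : Bool :=
  HQ.rec (motive := fun _ => Bool) (fun j l => conQ m q E j l)
    (fun idx g ls => Nat.blt idx i && Nat.blt g sy.length &&
      derQ m q E (nthF (false, 0, []) sy g).2.2 (D idx) ls) c

/-- the children are correct -/
noncomputable def chQ (m q : ℕ) (sy : List (Bool × ℕ × List ℕ)) (D : ℕ → List (ℕ × ℕ)) (i : ℕ)
    (E : List (ℕ × ℕ)) (cvs : List ℕ) : List HQ → Bool :=
  List.rec (motive := fun _ => List HQ → Bool) (fun _ => true)
    (fun cv _ ih cs => List.rec (motive := fun _ => Bool) false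
      (fun c cs' _ => bif ch1Q m q sy D i ((cvQ m cv, 0) :: E) c then ih cs' else false) cs) cvs

/-- element number `i` of a list in blocks of blocks of `16` -/
noncomputable def bl3 {α : Type} (d : α) (l : List (List (List α))) (i : ℕ) : α :=
  nthF d (nthF [] (nthF [] l (Nat.div i 256)) (Nat.mod (Nat.div i 16) 16)) (Nat.mod i 16)

/-! ### nodes and certificates -/

/-- nodes; `u` is the width of the digits of `W` and `H`, `q` the one for the coefficients; `old`: other nodes, with
their equations -/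
inductive QN (α : Type)
  | old (E : List Eqn) (N : α)
  | lp (u L fuel al be W H q : ℕ) (cvg : List (List ℕ)) (ch : List HQ)

/-- check of node `i`; `ck` is the check of the other nodes -/
noncomputable def chkQ {α : Type} (ck : (ℕ → List Eqn) → ℕ → α → Bool) (m : ℕ)
    (sy : List (Bool × ℕ × List ℕ)) (st : List (ℕ × ℕ × ℕ × ℕ × ℕ × ℕ)) (D : ℕ → List (ℕ × ℕ)) (i : ℕ)
    (N : QN α) : Bool :=
  match N with
    | QN.old E N => (E == (D i).map (eqnQ m)) &&
        ck (fun j => bif Nat.beq j i then E else (D j).map (eqnQ m)) i N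
    | QN.lp u L fuel al be W H q cvg ch =>
        lpK m st u L fuel al be W H cvg && Nat.ble q 20 && Nat.blt (D i).length 13 &&
          chQ m q sy D i (eq0Q m :: D i) cvg.flatten ch

/-- certificate for a word -/
structure CertQ (α : Type) where
  w : List ℕ
  sy : List (Bool × ℕ × List ℕ)
  st : List (ℕ × ℕ × ℕ × ℕ × ℕ × ℕ)
  D : List (List (List (List (ℕ × ℕ))))
  Ns : List (QN α)

/-- the general data of a certificate with `len` nodes are right -/
noncomputable def preQ (m : ℕ) [NeZero m] (w : List ℕ) (sy : List (Bool × ℕ × List ℕ))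
    (st : List (ℕ × ℕ × ℕ × ℕ × ℕ × ℕ)) (D : List (List (List (List (ℕ × ℕ))))) (len : ℕ) : Bool :=
  (w == decW m (encW w)) && sy.all (symT m w) && sy.all (fun g => g.2.2.length == m) && stQ m w st &&
    allF (allF (allF (allF (bndQ m)))) D && decide (0 < len) && (bl3 [] D (len - 1)).isEmpty

/-- check of a certificate -/
noncomputable def chkQC {α : Type} (m : ℕ) [NeZero m]
    (ck : List ℕ → List (Bool × ℕ × List ℕ) → (ℕ → List Eqn) → ℕ → α → Bool) (C : CertQ α) : Bool :=
  preQ m C.w C.sy C.st C.D C.Ns.length && allI (chkQ (ck C.w C.sy) m C.sy C.st (bl3 [] C.D)) C.Ns 0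

end Pool.Agent.Lib_MP_fa6e45
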