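import Pool.Agent.Lib_MP_fa6e45.CQ0

/-!
MP_fa6e45_co, stage 9: numbers as vectors (see CQ0).
-/

namespace Pool.Agent.Lib_MP_fa6e45

theorem dg_def (u x i : ℕ) : dg u x i = x / 2 ^ (u * i) % 2 ^ u := rfl

theorem dg_lt (u x i : ℕ) : dg u x i < 2 ^ u := Nat.mod_lt _ (Nat.two_pow_pos u)

theorem fQ_eq (x : ℕ) (f : ℕ → Bool) : fQ x f = f x := rfl

theorem allN_iff (f : ℕ → Bool) (n : ℕ) : allN f n = true ↔ ∀ i < n, f i = true := by
  induction n with
  | zero =>
    constructor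
    · intro _ i hi
      exact absurd hi (by omega)
    · intro _
      rfl
  | succ n ih =>
    have e : allN f (n + 1) = (bif f n then allN f n else false) := rfl
    rw [e]
    constructor
    · intro h i hi
      cases hf : f n
      · rw [hf, cond_false] at h
        exact absurd h (by simp)
      · rw [hf, cond_true] at h
        rcases Nat.lt_succ_iff_lt_or_eq.1 hi with h1 | h1
        · exact ih.1 h i h1
        · rw [h1]
          exact hf
    · intro h
      rw [h n (by omega), cond_true]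
      exact ih.2 fun i hi => h i (by omega)

private theorem dg_zero' (u x : ℕ) : dg u x 0 = x % 2 ^ u := by
  rw [dg_def, Nat.mul_zero, Nat.pow_zero, Nat.div_one]

private theorem dg_succ' (u x i : ℕ) : dg u x (i + 1) = dg u (x / 2 ^ u) i := by
  rw [dg_def, dg_def, show u * (i + 1) = u + u * i by ring, pow_add, Nat.div_div_eq_div_mul]

private theorem pow_succ' (u n : ℕ) : (2 : ℕ) ^ (u * (n + 1)) = 2 ^ u * 2 ^ (u * n) := by
  rw [← pow_add]
  congr 1
  ring

/-- a number is given by its digits -/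
theorem sum_dg {u n x : ℕ} (h : x < 2 ^ (u * n)) : ∑ i ∈ Finset.range n, dg u x i * 2 ^ (u * i) = x := by
  induction n generalizing x with
  | zero =>
    rw [Nat.mul_zero, Nat.pow_zero] at h
    rw [Finset.range_zero, Finset.sum_empty]
    omega
  | succ n ih =>
    have h1 : x / 2 ^ u < 2 ^ (u * n) := by
      rw [Nat.div_lt_iff_lt_mul (Nat.two_pow_pos u), Nat.mul_comm, ← pow_succ']
      exact h
    rw [Finset.sum_range_succ']
    have h2 : ∀ i ∈ Finset.range n, dg u x (i + 1) * 2 ^ (u * (i + 1)) =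
        2 ^ u * (dg u (x / 2 ^ u) i * 2 ^ (u * i)) := by
      intro i _
      rw [dg_succ', pow_succ']
      ring
    rw [Finset.sum_congr rfl h2, ← Finset.mul_sum, ih h1, dg_zero', Nat.mul_zero, Nat.pow_zero, Nat.mul_one]
    exact Nat.div_add_mod x (2 ^ u)

theorem sum_lt {u n : ℕ} {f : ℕ → ℕ} (hf : ∀ i < n, f i < 2 ^ u) :
    ∑ j ∈ Finset.range n, f j * 2 ^ (u * j) < 2 ^ (u * n) := by
  induction n with
  | zero => simp
  | succ n ih =>
    have h1 := ih fun i hi => hf i (by omega)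
    have h2 : (f n + 1) * 2 ^ (u * n) ≤ 2 ^ u * 2 ^ (u * n) := Nat.mul_le_mul_right _ (hf n (by omega))
    rw [Finset.sum_range_succ, pow_succ']
    have h3 : (f n + 1) * 2 ^ (u * n) = f n * 2 ^ (u * n) + 2 ^ (u * n) := by ring
    omega

theorem dg_sum {u n : ℕ} {f : ℕ → ℕ} (hf : ∀ i < n, f i < 2 ^ u) {i : ℕ} (hi : i < n) :
    dg u (∑ j ∈ Finset.range n, f j * 2 ^ (u * j)) i = f i := by
  induction n generalizing f i with
  | zero => exact absurd hi (by omega)
  | succ n ih =>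
    have e : ∑ j ∈ Finset.range (n + 1), f j * 2 ^ (u * j) =
        f 0 + 2 ^ u * ∑ j ∈ Finset.range n, f (j + 1) * 2 ^ (u * j) := by
      rw [Finset.sum_range_succ', Finset.mul_sum, Nat.mul_zero, Nat.pow_zero, Nat.mul_one, Nat.add_comm]
      congr 1
      refine Finset.sum_congr rfl fun j _ => ?_
      rw [pow_succ']
      ring
    have h0 := hf 0 (by omega)
    rw [e]
    cases i with
    | zero => rw [dg_zero', Nat.add_mul_mod_self_left, Nat.mod_eq_of_lt h0]
    | succ i =>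
      rw [dg_succ', Nat.add_mul_div_left _ _ (Nat.two_pow_pos u), Nat.div_eq_of_lt h0, Nat.zero_add]
      exact ih (f := fun j => f (j + 1)) (fun j hj => hf (j + 1) (by omega)) (by omega)

theorem onQ_eq {u : ℕ} (hu : 1 ≤ u) (n : ℕ) : onQ u n = ∑ i ∈ Finset.range n, 2 ^ (u * i) := by
  have h1 : 2 ≤ 2 ^ u := by
    calc 2 = 2 ^ 1 := rfl
      _ ≤ 2 ^ u := Nat.pow_le_pow_right (by norm_num) hu
  have h2 : onQ u n = (2 ^ (u * n) - 1) / (2 ^ u - 1) := rfl
  rw [h2, pow_mul, ← Nat.geomSum_eq h1]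
  exact Finset.sum_congr rfl fun i _ => (pow_mul 2 u i).symm

/-- the sum of the `i * b ^ i` -/
private theorem ix_sum {b : ℕ} (hb : 1 ≤ b) (n : ℕ) :
    (b - 1) * ∑ i ∈ Finset.range (n + 1), i * b ^ i + ∑ i ∈ Finset.range (n + 1), b ^ i = n * b ^ (n + 1) + 1 := by
  obtain ⟨c, rfl⟩ : ∃ c, b = c + 1 := ⟨b - 1, by omega⟩
  rw [Nat.add_sub_cancel]
  induction n with
  | zero => simp
  | succ n ih =>
    rw [Finset.sum_range_succ, Finset.sum_range_succ (fun i => (c + 1) ^ i) (n + 1), Nat.mul_add]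
    have e1 : (n + 1) * (c + 1) ^ (n + 1 + 1) + 1 =
        n * (c + 1) ^ (n + 1) + 1 + (c * ((n + 1) * (c + 1) ^ (n + 1)) + (c + 1) ^ (n + 1)) := by
      ring
    rw [e1, ← ih]
    ring

private theorem ixQ_eq' {u : ℕ} (hu : 1 ≤ u) (n : ℕ) :
    ixQ u (n + 1) = ∑ i ∈ Finset.range (n + 1), i * 2 ^ (u * i) := by
  have h1 : 2 ≤ 2 ^ u := by
    calc 2 = 2 ^ 1 := rfl
      _ ≤ 2 ^ u := Nat.pow_le_pow_right (by norm_num) hu
  have h2 : ixQ u (n + 1) = (n * 2 ^ (u * (n + 1)) + 1 - onQ u (n + 1)) / (2 ^ u - 1) := rfl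
  have h3 := ix_sum (b := 2 ^ u) (by omega) n
  have h4 : ∑ i ∈ Finset.range (n + 1), i * 2 ^ (u * i) = ∑ i ∈ Finset.range (n + 1), i * (2 ^ u) ^ i :=
    Finset.sum_congr rfl fun i _ => by rw [pow_mul]
  have h5 : onQ u (n + 1) = ∑ i ∈ Finset.range (n + 1), (2 ^ u) ^ i := by
    rw [onQ_eq hu]
    exact Finset.sum_congr rfl fun i _ => pow_mul 2 u i
  rw [h2, h4, h5, pow_mul, ← h3, Nat.add_sub_cancel, Nat.mul_div_cancel_left _ (by omega)]

theorem ixQ_eq {u : ℕ} (hu : 2 ≤ u) (n : ℕ) : ixQ u n = ∑ i ∈ Finset.range n, i * 2 ^ (u * i) := by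
  cases n with
  | zero =>
    have h1 : ixQ u 0 = (0 * 2 ^ (u * 0) + 1 - onQ u 0) / (2 ^ u - 1) := rfl
    have h2 : 4 ≤ 2 ^ u := by
      calc 4 = 2 ^ 2 := rfl
        _ ≤ 2 ^ u := Nat.pow_le_pow_right (by norm_num) hu
    rw [h1, Finset.range_zero, Finset.sum_empty, Nat.div_eq_of_lt]
    omega
  | succ n => exact ixQ_eq' (by omega) n

theorem dg_ixQ {u n d : ℕ} (hu : 1 ≤ u) (hn : n ≤ 2 ^ u) (hd : d < n) : dg u (ixQ u n) d = d := by
  obtain ⟨k, rfl⟩ : ∃ k, n = k + 1 := ⟨n - 1, by omega⟩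
  rw [ixQ_eq' hu]
  exact dg_sum (f := fun i => i) (fun i hi => by omega) hd

/-- sums digit by digit -/
theorem dg_add {u n X Y : ℕ} (hX : X < 2 ^ (u * n)) (hY : Y < 2 ^ (u * n))
    (h : ∀ i < n, dg u X i + dg u Y i < 2 ^ u) :
    X + Y < 2 ^ (u * n) ∧ ∀ i < n, dg u (X + Y) i = dg u X i + dg u Y i := by
  have e : X + Y = ∑ i ∈ Finset.range n, (dg u X i + dg u Y i) * 2 ^ (u * i) := by
    conv_lhs => rw [← sum_dg hX, ← sum_dg hY]
    rw [← Finset.sum_add_distrib]
    exact Finset.sum_congr rfl fun i _ => (Nat.add_mul _ _ _).symm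
  rw [e]
  exact ⟨sum_lt h, fun i hi => dg_sum (f := fun i => dg u X i + dg u Y i) h hi⟩

/-- a digit is replaced by `0` -/
theorem dg_clear {u n X c : ℕ} (hX : X < 2 ^ (u * n)) (hc : c < n) :
    X - dg u X c * 2 ^ (u * c) < 2 ^ (u * n) ∧
      ∀ i < n, dg u (X - dg u X c * 2 ^ (u * c)) i = if i = c then 0 else dg u X i := by
  have hf : ∀ i < n, (fun i => if i = c then 0 else dg u X i) i < 2 ^ u := by
    intro i _
    simp only []
    split_ifs
    · exact Nat.two_pow_pos u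
    · exact dg_lt u X i
  have h1 : ∑ i ∈ Finset.range n, dg u X i * 2 ^ (u * i) =
      dg u X c * 2 ^ (u * c) + ∑ i ∈ Finset.range n, (if i = c then 0 else dg u X i) * 2 ^ (u * i) := by
    rw [← Finset.sum_erase_add _ _ (Finset.mem_range.2 hc), Nat.add_comm,
      ← Finset.sum_erase_add (Finset.range n) (fun i => (if i = c then 0 else dg u X i) * 2 ^ (u * i))
        (Finset.mem_range.2 hc), if_pos rfl, Nat.zero_mul, Nat.add_zero]
    congr 1
    refine Finset.sum_congr rfl fun i hi => ?_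
    rw [if_neg (Finset.ne_of_mem_erase hi)]
  rw [sum_dg hX] at h1
  have e : X - dg u X c * 2 ^ (u * c) =
      ∑ i ∈ Finset.range n, (if i = c then 0 else dg u X i) * 2 ^ (u * i) := by omega
  rw [e]
  exact ⟨sum_lt hf, fun i hi => dg_sum (f := fun i => if i = c then 0 else dg u X i) hf hi⟩

theorem rwQ_lt {W K c : ℕ} (hK : 0 < K) : rwQ W K c < K := Nat.mod_lt _ hK

theorem dg_rwQ {u n W c d : ℕ} (hd : d < n) : dg u (rwQ W (2 ^ (u * n)) c) d = dg u W (n * c + d) := by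
  have h1 : rwQ W (2 ^ (u * n)) c = W / (2 ^ (u * n)) ^ c % 2 ^ (u * n) := rfl
  rw [dg_def, dg_def, h1]
  apply Nat.eq_of_testBit_eq
  intro r
  rw [Nat.testBit_mod_two_pow, Nat.testBit_mod_two_pow, Nat.testBit_div_two_pow, Nat.testBit_div_two_pow,
    Nat.testBit_mod_two_pow, ← pow_mul, Nat.testBit_div_two_pow]
  by_cases hr : r < u
  · have h2 : r + u * d < u * n := by
      have h3 : u * (d + 1) ≤ u * n := Nat.mul_le_mul_left u hd
      have h4 : u * (d + 1) = u * d + u := by ring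
      omega
    have h3 : r + u * d + u * n * c = r + u * (n * c + d) := by ring
    simp [hr, h2, h3]
  · simp [hr]

end Pool.Agent.Lib_MP_fa6e45
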