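import Pool.Agent.Lib_MP_fa6e45.CQ1

/-!
MP_fa6e45_co, stage 9: numbers as vectors, bits (see CQ0).
-/

namespace Pool.Agent.Lib_MP_fa6e45

private theorem testBit_dg (u x i r : ℕ) :
    (dg u x i).testBit r = (decide (r < u) && x.testBit (u * i + r)) := by
  rw [dg_def, Nat.testBit_mod_two_pow, Nat.testBit_div_two_pow]
  congr 2
  exact Nat.add_comm _ _

private theorem mul_onQ_eq {u : ℕ} (hu : 1 ≤ u) (n h : ℕ) :
    h * onQ u n = ∑ i ∈ Finset.range n, h * 2 ^ (u * i) := by
  rw [onQ_eq hu, Finset.mul_sum]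

private theorem mul_onQ_lt {u : ℕ} (hu : 1 ≤ u) {n h : ℕ} (hh : h < 2 ^ u) :
    h * onQ u n < 2 ^ (u * n) := by
  rw [mul_onQ_eq hu]
  exact sum_lt fun _ _ => hh

private theorem dg_mul_onQ {u : ℕ} (hu : 1 ≤ u) {n h i : ℕ} (hh : h < 2 ^ u) (hi : i < n) :
    dg u (h * onQ u n) i = h := by
  rw [mul_onQ_eq hu]
  exact dg_sum (fun _ _ => hh) hi

private theorem pow_lt {u : ℕ} (hu : 1 ≤ u) : 2 ^ (u - 1) < 2 ^ u :=
  Nat.pow_lt_pow_right (by norm_num) (by omega)

/-- if a bit of the mask is `1` and the conjunction is `0` the bit of `X` is `0` -/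
private theorem bit_zero {X M p : ℕ} (h : Nat.land X M = 0) (hM : M.testBit p = true) :
    X.testBit p = false := by
  have h1 : (X &&& M).testBit p = (X.testBit p && M.testBit p) := Nat.testBit_and X M p
  have h2 : X &&& M = 0 := h
  rw [h2, hM, Nat.zero_testBit, Bool.and_true] at h1
  exact h1.symm

theorem smQ_sound {u n X i : ℕ} (hu : 2 ≤ u) (h : smQ u n X = true) (hi : i < n) :
    dg u X i < 2 ^ (u - 2) := by
  have h0 : Nat.land X (3 * 2 ^ (u - 2) * onQ u n) = 0 := Nat.eq_of_beq_eq_true h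
  have hpow : 2 ^ u = 4 * 2 ^ (u - 2) := by
    rw [show (4 : ℕ) = 2 ^ 2 by norm_num, ← pow_add]
    congr 1
    omega
  have h3 : 3 * 2 ^ (u - 2) < 2 ^ u := by
    have := Nat.two_pow_pos (u - 2)
    omega
  have hd : dg u (3 * 2 ^ (u - 2) * onQ u n) i = 3 * 2 ^ (u - 2) :=
    dg_mul_onQ (by omega) h3 hi
  have key : ∀ r, u - 2 ≤ r → r < u → (dg u X i).testBit r = false := by
    intro r hr hr'
    rw [testBit_dg, decide_eq_true hr', Bool.true_and]
    refine bit_zero h0 ?_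
    have e : (dg u (3 * 2 ^ (u - 2) * onQ u n) i).testBit r = true := by
      rw [hd, Nat.testBit_mul_two_pow, decide_eq_true hr, Bool.true_and]
      rcases (show r - (u - 2) = 0 ∨ r - (u - 2) = 1 by omega) with e | e <;> rw [e] <;> rfl
    rw [testBit_dg, decide_eq_true hr', Bool.true_and] at e
    exact e
  refine Nat.lt_pow_two_of_testBit _ fun r hr => ?_
  by_cases hr' : r < u
  · exact key r hr hr'
  · rw [testBit_dg, decide_eq_false hr', Bool.false_and]

private theorem dg_land_zero {u n X i : ℕ} (hu : 1 ≤ u)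
    (h : Nat.land X (2 ^ (u - 1) * onQ u n) = 0) (hi : i < n) : dg u X i < 2 ^ (u - 1) := by
  have hd : dg u (2 ^ (u - 1) * onQ u n) i = 2 ^ (u - 1) := dg_mul_onQ hu (pow_lt hu) hi
  refine Nat.lt_pow_two_of_testBit _ fun r hr => ?_
  by_cases hr' : r < u
  · rw [testBit_dg, decide_eq_true hr', Bool.true_and]
    refine bit_zero h ?_
    have e : (dg u (2 ^ (u - 1) * onQ u n) i).testBit r = true := by
      rw [hd, show r = u - 1 by omega]
      exact Nat.testBit_two_pow_self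
    rw [testBit_dg, decide_eq_true hr', Bool.true_and] at e
    exact e
  · rw [testBit_dg, decide_eq_false hr', Bool.false_and]

theorem leQ_sound {u n h X d : ℕ} (hu : 1 ≤ u) (hh : h < 2 ^ (u - 1)) (hX : X < 2 ^ (u * n))
    (hl : leQ (onQ u n) (2 ^ (u - 1) * onQ u n) h X = true) (hd : d < n) : h ≤ dg u X d := by
  have hl' : (bif Nat.ble (h * onQ u n) X then
      Nat.beq (Nat.land (X - h * onQ u n) (2 ^ (u - 1) * onQ u n)) 0 else false) = true := hl
  rcases hb : Nat.ble (h * onQ u n) X with _ | _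
  · rw [hb, cond_false] at hl'
    exact absurd hl' (by simp)
  · rw [hb, cond_true] at hl'
    have h1 : h * onQ u n ≤ X := Nat.le_of_ble_eq_true hb
    have h2 : Nat.land (X - h * onQ u n) (2 ^ (u - 1) * onQ u n) = 0 := Nat.eq_of_beq_eq_true hl'
    have hhu : h < 2 ^ u := lt_trans hh (pow_lt hu)
    have h3 : ∀ i < n, dg u (X - h * onQ u n) i + dg u (h * onQ u n) i < 2 ^ u := by
      intro i hi
      have a1 := dg_land_zero hu h2 hi
      have a2 := dg_mul_onQ hu hhu hi
      have a3 : 2 ^ u = 2 ^ (u - 1) + 2 ^ (u - 1) := by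
        rw [← two_mul, ← pow_succ']
        congr 1
        omega
      omega
    obtain ⟨-, h4⟩ := dg_add (lt_of_le_of_lt (Nat.sub_le _ _) hX) (mul_onQ_lt hu hhu) h3
    have h5 := h4 d hd
    rw [Nat.sub_add_cancel h1, dg_mul_onQ hu hhu hd] at h5
    omega

/-- the candidates in `dfsQ` -/
theorem cand_lt {u n X k : ℕ} :
    Nat.land (Nat.sub (Nat.add (Nat.mul k (onQ u n)) (2 ^ (u - 1) * onQ u n)) X) (2 ^ (u - 1) * onQ u n)
      ≤ 2 ^ (u - 1) * onQ u n :=
  Nat.and_le_right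

theorem onG_lt {u n : ℕ} (hu : 1 ≤ u) : 2 ^ (u - 1) * onQ u n < 2 ^ (u * n) ∨ n = 0 :=
  Or.inl (mul_onQ_lt hu (pow_lt hu))

theorem cand_bit {u n X k d : ℕ} (hu : 1 ≤ u) (hX : X < 2 ^ (u * n)) (hXd : ∀ i < n, dg u X i < 2 ^ (u - 1))
    (hk : k < 2 ^ (u - 1)) (hd : d < n) (hle : dg u X d ≤ k) :
    (Nat.land (Nat.sub (Nat.add (Nat.mul k (onQ u n)) (2 ^ (u - 1) * onQ u n)) X)
      (2 ^ (u - 1) * onQ u n)).testBit (u * d + (u - 1)) = true := by
  have a3 : 2 ^ u = 2 ^ (u - 1) + 2 ^ (u - 1) := by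
    rw [← two_mul, ← pow_succ']
    congr 1
    omega
  have e1 : k * onQ u n + 2 ^ (u - 1) * onQ u n - X =
      ∑ i ∈ Finset.range n, (k + 2 ^ (u - 1) - dg u X i) * 2 ^ (u * i) := by
    have e2 : k * onQ u n + 2 ^ (u - 1) * onQ u n =
        ∑ i ∈ Finset.range n, (k + 2 ^ (u - 1) - dg u X i) * 2 ^ (u * i) +
          ∑ i ∈ Finset.range n, dg u X i * 2 ^ (u * i) := by
      rw [← add_mul, mul_onQ_eq hu, ← Finset.sum_add_distrib]
      refine Finset.sum_congr rfl fun i hi => ?_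
      rw [← add_mul]
      congr 1
      have := hXd i (Finset.mem_range.1 hi)
      omega
    rw [sum_dg hX] at e2
    omega
  have hf : ∀ i < n, k + 2 ^ (u - 1) - dg u X i < 2 ^ u := fun i _ => by omega
  have e3 : dg u (k * onQ u n + 2 ^ (u - 1) * onQ u n - X) d = k + 2 ^ (u - 1) - dg u X d := by
    rw [e1]
    exact dg_sum hf hd
  have e4 : (k + 2 ^ (u - 1) - dg u X d).testBit (u - 1) = true := by
    have b1 : 2 ^ (u - 1) ≤ k + 2 ^ (u - 1) - dg u X d := by omega
    have b2 : k + 2 ^ (u - 1) - dg u X d < 2 ^ u := hf d hd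
    by_contra hc
    have hc' : (k + 2 ^ (u - 1) - dg u X d).testBit (u - 1) = false := by
      simpa using hc
    have : k + 2 ^ (u - 1) - dg u X d < 2 ^ (u - 1) := by
      refine Nat.lt_pow_two_of_testBit _ fun r hr => ?_
      by_cases hr' : r = u - 1
      · rw [hr']
        exact hc'
      · exact Nat.testBit_lt_two_pow (lt_of_lt_of_le b2 (Nat.pow_le_pow_right (by norm_num) (by omega)))
    omega
  have e5 : (k * onQ u n + 2 ^ (u - 1) * onQ u n - X).testBit (u * d + (u - 1)) = true := by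
    have e6 := testBit_dg u (k * onQ u n + 2 ^ (u - 1) * onQ u n - X) d (u - 1)
    rw [e3, e4, decide_eq_true (show u - 1 < u by omega), Bool.true_and] at e6
    exact e6.symm
  have e7 : (2 ^ (u - 1) * onQ u n).testBit (u * d + (u - 1)) = true := by
    have e6 := testBit_dg u (2 ^ (u - 1) * onQ u n) d (u - 1)
    rw [dg_mul_onQ hu (pow_lt hu) hd, decide_eq_true (show u - 1 < u by omega), Bool.true_and,
      Nat.testBit_two_pow_self] at e6
    exact e6.symm
  show ((k * onQ u n + 2 ^ (u - 1) * onQ u n - X) &&& (2 ^ (u - 1) * onQ u n)).testBit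
    (u * d + (u - 1)) = true
  rw [Nat.testBit_and, e5, e7, Bool.true_and]

/-- the lowest bit -/
private theorem gcd_pow {N M : ℕ} (hM : M < 2 ^ N) (h0 : M ≠ 0) :
    ∃ q c, Nat.gcd M (2 ^ N) = 2 ^ q ∧ M = (2 * c + 1) * 2 ^ q := by
  obtain ⟨q, hq, hg⟩ := (Nat.dvd_prime_pow Nat.prime_two).1 (Nat.gcd_dvd_right M (2 ^ N))
  obtain ⟨c, hc⟩ : 2 ^ q ∣ M := by
    rw [← hg]
    exact Nat.gcd_dvd_left M (2 ^ N)
  have hqN : q < N := by
    by_contra hcon
    have h1 : 2 ^ N ≤ M := by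
      refine le_trans (Nat.pow_le_pow_right (by norm_num) (not_lt.1 hcon)) ?_
      refine Nat.le_of_dvd (Nat.pos_of_ne_zero h0) ⟨c, hc⟩
    omega
  have hodd : c % 2 = 1 := by
    by_contra hcon
    have h2 : 2 ∣ c := Nat.dvd_of_mod_eq_zero (by omega)
    obtain ⟨c', hc'⟩ := h2
    have h3 : 2 ^ (q + 1) ∣ Nat.gcd M (2 ^ N) :=
      Nat.dvd_gcd ⟨c', by rw [hc, hc', pow_succ]; ring⟩ (pow_dvd_pow 2 hqN)
    rw [hg] at h3
    have h4 := Nat.le_of_dvd (Nat.two_pow_pos q) h3
    rw [pow_succ] at h4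
    have := Nat.two_pow_pos q
    omega
  refine ⟨q, c / 2, hg, ?_⟩
  rw [show 2 * (c / 2) + 1 = c by omega, hc, mul_comm]

theorem bitsQ_sound {N M fuel : ℕ} {f : ℕ → Bool} (hM : M < 2 ^ N)
    (h : bitsQ (2 ^ N) f fuel M = true) {p : ℕ} (hp : M.testBit p = true) : f (2 ^ p) = true := by
  induction fuel generalizing M with
  | zero =>
    have h0 : M = 0 := Nat.eq_of_beq_eq_true h
    rw [h0, Nat.zero_testBit] at hp
    exact absurd hp (by simp)
  | succ fuel ih =>
    rcases M with _ | M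
    · rw [Nat.zero_testBit] at hp
      exact absurd hp (by simp)
    · have h1 : (bif f (Nat.gcd (M + 1) (2 ^ N)) then
          bitsQ (2 ^ N) f fuel (M + 1 - Nat.gcd (M + 1) (2 ^ N)) else false) = true := h
      obtain ⟨q, c, hg, hc⟩ := gcd_pow hM (Nat.succ_ne_zero M)
      rw [hg] at h1
      rcases hf : f (2 ^ q) with _ | _
      · rw [hf, cond_false] at h1
        exact absurd h1 (by simp)
      · rw [hf, cond_true] at h1
        by_cases hpq : p = q
        · rw [hpq]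
          exact hf
        · refine ih (lt_of_le_of_lt (Nat.sub_le _ _) hM) h1 ?_
          have e1 : M + 1 - 2 ^ q = (2 * c) * 2 ^ q := by
            rw [hc, add_mul, one_mul, Nat.add_sub_cancel]
          rw [hc, Nat.testBit_mul_two_pow, Bool.and_eq_true, decide_eq_true_eq] at hp
          obtain ⟨h2, h3⟩ := hp
          rw [e1, Nat.testBit_mul_two_pow, decide_eq_true h2, Bool.true_and]
          obtain ⟨j, hj⟩ : ∃ j, p - q = j + 1 := ⟨p - q - 1, by omega⟩
          rw [hj, Nat.testBit_succ] at h3 ⊢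
          rw [show (2 * c + 1) / 2 = c by omega] at h3
          rw [show 2 * c / 2 = c by omega]
          exact h3

end Pool.Agent.Lib_MP_fa6e45
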