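import Pool.Agent.Lib_MP_fa6e45.RW0

/-!
MP_fa6e45_co, stage 9: raw data of the certificates for the theorem T6. This file and the files with raw data import
nothing from Mathlib.
-/

namespace Pool.Agent.Lib_MP_fa6e45

/-- certificate: number `i` of a table; or word, number of the list of symmetries in a table, steps, equations of the
nodes, nodes -/
inductive RCq
  | x (i : Nat)
  | q (w : List Nat) (s : Nat) (t : List (Nat × Nat × Nat × Nat × Nat × Nat))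
      (D : List (List (List (List (Nat × Nat))))) (N : List RN)

/-- steps for `3` arcs -/
noncomputable def s3_0 : Nat × Nat × Nat × Nat × Nat × Nat := (nat_lit 0,nat_lit 16,nat_lit 0,nat_lit 0,nat_lit 2,nat_lit 4)
/-- steps for `3` arcs -/
noncomputable def s3_1 : Nat × Nat × Nat × Nat × Nat × Nat := (nat_lit 1,nat_lit 34,nat_lit 0,nat_lit 1,nat_lit 5,nat_lit 4)
/-- steps for `3` arcs -/
noncomputable def s3_2 : Nat × Nat × Nat × Nat × Nat × Nat := (nat_lit 2,nat_lit 28,nat_lit 0,nat_lit 2,nat_lit 4,nat_lit 4)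
/-- steps for `3` arcs -/
noncomputable def s3_3 : Nat × Nat × Nat × Nat × Nat × Nat := (nat_lit 3,nat_lit 10,nat_lit 0,nat_lit 3,nat_lit 1,nat_lit 4)
/-- steps for `3` arcs -/
noncomputable def s3_4 : Nat × Nat × Nat × Nat × Nat × Nat := (nat_lit 4,nat_lit 4,nat_lit 0,nat_lit 4,nat_lit 0,nat_lit 4)
/-- steps for `3` arcs -/
noncomputable def s3_5 : Nat × Nat × Nat × Nat × Nat × Nat := (nat_lit 5,nat_lit 22,nat_lit 0,nat_lit 5,nat_lit 3,nat_lit 4)
/-- steps for `3` arcs -/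
noncomputable def s3_6 : Nat × Nat × Nat × Nat × Nat × Nat := (nat_lit 6,nat_lit 15,nat_lit 1,nat_lit 0,nat_lit 2,nat_lit 3)
/-- steps for `3` arcs -/
noncomputable def s3_7 : Nat × Nat × Nat × Nat × Nat × Nat := (nat_lit 7,nat_lit 33,nat_lit 1,nat_lit 1,nat_lit 5,nat_lit 3)
/-- steps for `3` arcs -/
noncomputable def s3_8 : Nat × Nat × Nat × Nat × Nat × Nat := (nat_lit 8,nat_lit 27,nat_lit 1,nat_lit 2,nat_lit 4,nat_lit 3)
/-- steps for `3` arcs -/
noncomputable def s3_9 : Nat × Nat × Nat × Nat × Nat × Nat := (nat_lit 9,nat_lit 9,nat_lit 1,nat_lit 3,nat_lit 1,nat_lit 3)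
/-- steps for `3` arcs -/
noncomputable def s3_11 : Nat × Nat × Nat × Nat × Nat × Nat := (nat_lit 11,nat_lit 21,nat_lit 1,nat_lit 5,nat_lit 3,nat_lit 3)
/-- steps for `3` arcs -/
noncomputable def s3_12 : Nat × Nat × Nat × Nat × Nat × Nat := (nat_lit 12,nat_lit 12,nat_lit 2,nat_lit 0,nat_lit 2,nat_lit 0)
/-- steps for `3` arcs -/
noncomputable def s3_13 : Nat × Nat × Nat × Nat × Nat × Nat := (nat_lit 13,nat_lit 30,nat_lit 2,nat_lit 1,nat_lit 5,nat_lit 0)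
/-- steps for `3` arcs -/
noncomputable def s3_14 : Nat × Nat × Nat × Nat × Nat × Nat := (nat_lit 14,nat_lit 24,nat_lit 2,nat_lit 2,nat_lit 4,nat_lit 0)
/-- steps for `3` arcs -/
noncomputable def s3_17 : Nat × Nat × Nat × Nat × Nat × Nat := (nat_lit 17,nat_lit 18,nat_lit 2,nat_lit 5,nat_lit 3,nat_lit 0)
/-- steps for `3` arcs -/
noncomputable def s3_19 : Nat × Nat × Nat × Nat × Nat × Nat := (nat_lit 19,nat_lit 35,nat_lit 3,nat_lit 1,nat_lit 5,nat_lit 5)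
/-- steps for `3` arcs -/
noncomputable def s3_20 : Nat × Nat × Nat × Nat × Nat × Nat := (nat_lit 20,nat_lit 29,nat_lit 3,nat_lit 2,nat_lit 4,nat_lit 5)
/-- steps for `3` arcs -/
noncomputable def s3_23 : Nat × Nat × Nat × Nat × Nat × Nat := (nat_lit 23,nat_lit 23,nat_lit 3,nat_lit 5,nat_lit 3,nat_lit 5)
/-- steps for `3` arcs -/
noncomputable def s3_25 : Nat × Nat × Nat × Nat × Nat × Nat := (nat_lit 25,nat_lit 32,nat_lit 4,nat_lit 1,nat_lit 5,nat_lit 2)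
/-- steps for `3` arcs -/
noncomputable def s3_26 : Nat × Nat × Nat × Nat × Nat × Nat := (nat_lit 26,nat_lit 26,nat_lit 4,nat_lit 2,nat_lit 4,nat_lit 2)
/-- steps for `3` arcs -/
noncomputable def s3_31 : Nat × Nat × Nat × Nat × Nat × Nat := (nat_lit 31,nat_lit 31,nat_lit 5,nat_lit 1,nat_lit 5,nat_lit 1)
/-- steps for `4` arcs -/
noncomputable def s4_0 : Nat × Nat × Nat × Nat × Nat × Nat := (nat_lit 0,nat_lit 22,nat_lit 0,nat_lit 0,nat_lit 2,nat_lit 6)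
/-- steps for `4` arcs -/
noncomputable def s4_1 : Nat × Nat × Nat × Nat × Nat × Nat := (nat_lit 1,nat_lit 62,nat_lit 0,nat_lit 1,nat_lit 7,nat_lit 6)
/-- steps for `4` arcs -/
noncomputable def s4_2 : Nat × Nat × Nat × Nat × Nat × Nat := (nat_lit 2,nat_lit 38,nat_lit 0,nat_lit 2,nat_lit 4,nat_lit 6)
/-- steps for `4` arcs -/
noncomputable def s4_3 : Nat × Nat × Nat × Nat × Nat × Nat := (nat_lit 3,nat_lit 14,nat_lit 0,nat_lit 3,nat_lit 1,nat_lit 6)
/-- steps for `4` arcs -/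
noncomputable def s4_4 : Nat × Nat × Nat × Nat × Nat × Nat := (nat_lit 4,nat_lit 54,nat_lit 0,nat_lit 4,nat_lit 6,nat_lit 6)
/-- steps for `4` arcs -/
noncomputable def s4_5 : Nat × Nat × Nat × Nat × Nat × Nat := (nat_lit 5,nat_lit 30,nat_lit 0,nat_lit 5,nat_lit 3,nat_lit 6)
/-- steps for `4` arcs -/
noncomputable def s4_6 : Nat × Nat × Nat × Nat × Nat × Nat := (nat_lit 6,nat_lit 6,nat_lit 0,nat_lit 6,nat_lit 0,nat_lit 6)
/-- steps for `4` arcs -/
noncomputable def s4_7 : Nat × Nat × Nat × Nat × Nat × Nat := (nat_lit 7,nat_lit 46,nat_lit 0,nat_lit 7,nat_lit 5,nat_lit 6)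
/-- steps for `4` arcs -/
noncomputable def s4_8 : Nat × Nat × Nat × Nat × Nat × Nat := (nat_lit 8,nat_lit 19,nat_lit 1,nat_lit 0,nat_lit 2,nat_lit 3)
/-- steps for `4` arcs -/
noncomputable def s4_9 : Nat × Nat × Nat × Nat × Nat × Nat := (nat_lit 9,nat_lit 59,nat_lit 1,nat_lit 1,nat_lit 7,nat_lit 3)
/-- steps for `4` arcs -/
noncomputable def s4_10 : Nat × Nat × Nat × Nat × Nat × Nat := (nat_lit 10,nat_lit 35,nat_lit 1,nat_lit 2,nat_lit 4,nat_lit 3)
/-- steps for `4` arcs -/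
noncomputable def s4_11 : Nat × Nat × Nat × Nat × Nat × Nat := (nat_lit 11,nat_lit 11,nat_lit 1,nat_lit 3,nat_lit 1,nat_lit 3)
/-- steps for `4` arcs -/
noncomputable def s4_12 : Nat × Nat × Nat × Nat × Nat × Nat := (nat_lit 12,nat_lit 51,nat_lit 1,nat_lit 4,nat_lit 6,nat_lit 3)
/-- steps for `4` arcs -/
noncomputable def s4_13 : Nat × Nat × Nat × Nat × Nat × Nat := (nat_lit 13,nat_lit 27,nat_lit 1,nat_lit 5,nat_lit 3,nat_lit 3)
/-- steps for `4` arcs -/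
noncomputable def s4_15 : Nat × Nat × Nat × Nat × Nat × Nat := (nat_lit 15,nat_lit 43,nat_lit 1,nat_lit 7,nat_lit 5,nat_lit 3)
/-- steps for `4` arcs -/
noncomputable def s4_16 : Nat × Nat × Nat × Nat × Nat × Nat := (nat_lit 16,nat_lit 16,nat_lit 2,nat_lit 0,nat_lit 2,nat_lit 0)
/-- steps for `4` arcs -/
noncomputable def s4_17 : Nat × Nat × Nat × Nat × Nat × Nat := (nat_lit 17,nat_lit 56,nat_lit 2,nat_lit 1,nat_lit 7,nat_lit 0)
/-- steps for `4` arcs -/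
noncomputable def s4_18 : Nat × Nat × Nat × Nat × Nat × Nat := (nat_lit 18,nat_lit 32,nat_lit 2,nat_lit 2,nat_lit 4,nat_lit 0)
/-- steps for `4` arcs -/
noncomputable def s4_20 : Nat × Nat × Nat × Nat × Nat × Nat := (nat_lit 20,nat_lit 48,nat_lit 2,nat_lit 4,nat_lit 6,nat_lit 0)
/-- steps for `4` arcs -/
noncomputable def s4_21 : Nat × Nat × Nat × Nat × Nat × Nat := (nat_lit 21,nat_lit 24,nat_lit 2,nat_lit 5,nat_lit 3,nat_lit 0)
/-- steps for `4` arcs -/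
noncomputable def s4_23 : Nat × Nat × Nat × Nat × Nat × Nat := (nat_lit 23,nat_lit 40,nat_lit 2,nat_lit 7,nat_lit 5,nat_lit 0)
/-- steps for `4` arcs -/
noncomputable def s4_25 : Nat × Nat × Nat × Nat × Nat × Nat := (nat_lit 25,nat_lit 61,nat_lit 3,nat_lit 1,nat_lit 7,nat_lit 5)
/-- steps for `4` arcs -/
noncomputable def s4_26 : Nat × Nat × Nat × Nat × Nat × Nat := (nat_lit 26,nat_lit 37,nat_lit 3,nat_lit 2,nat_lit 4,nat_lit 5)
/-- steps for `4` arcs -/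
noncomputable def s4_28 : Nat × Nat × Nat × Nat × Nat × Nat := (nat_lit 28,nat_lit 53,nat_lit 3,nat_lit 4,nat_lit 6,nat_lit 5)
/-- steps for `4` arcs -/
noncomputable def s4_29 : Nat × Nat × Nat × Nat × Nat × Nat := (nat_lit 29,nat_lit 29,nat_lit 3,nat_lit 5,nat_lit 3,nat_lit 5)
/-- steps for `4` arcs -/
noncomputable def s4_31 : Nat × Nat × Nat × Nat × Nat × Nat := (nat_lit 31,nat_lit 45,nat_lit 3,nat_lit 7,nat_lit 5,nat_lit 5)
/-- steps for `4` arcs -/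
noncomputable def s4_33 : Nat × Nat × Nat × Nat × Nat × Nat := (nat_lit 33,nat_lit 58,nat_lit 4,nat_lit 1,nat_lit 7,nat_lit 2)
/-- steps for `4` arcs -/
noncomputable def s4_34 : Nat × Nat × Nat × Nat × Nat × Nat := (nat_lit 34,nat_lit 34,nat_lit 4,nat_lit 2,nat_lit 4,nat_lit 2)
/-- steps for `4` arcs -/
noncomputable def s4_36 : Nat × Nat × Nat × Nat × Nat × Nat := (nat_lit 36,nat_lit 50,nat_lit 4,nat_lit 4,nat_lit 6,nat_lit 2)
/-- steps for `4` arcs -/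
noncomputable def s4_39 : Nat × Nat × Nat × Nat × Nat × Nat := (nat_lit 39,nat_lit 42,nat_lit 4,nat_lit 7,nat_lit 5,nat_lit 2)
/-- steps for `4` arcs -/
noncomputable def s4_41 : Nat × Nat × Nat × Nat × Nat × Nat := (nat_lit 41,nat_lit 63,nat_lit 5,nat_lit 1,nat_lit 7,nat_lit 7)
/-- steps for `4` arcs -/
noncomputable def s4_44 : Nat × Nat × Nat × Nat × Nat × Nat := (nat_lit 44,nat_lit 55,nat_lit 5,nat_lit 4,nat_lit 6,nat_lit 7)
/-- steps for `4` arcs -/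
noncomputable def s4_47 : Nat × Nat × Nat × Nat × Nat × Nat := (nat_lit 47,nat_lit 47,nat_lit 5,nat_lit 7,nat_lit 5,nat_lit 7)
/-- steps for `4` arcs -/
noncomputable def s4_49 : Nat × Nat × Nat × Nat × Nat × Nat := (nat_lit 49,nat_lit 60,nat_lit 6,nat_lit 1,nat_lit 7,nat_lit 4)
/-- steps for `4` arcs -/
noncomputable def s4_52 : Nat × Nat × Nat × Nat × Nat × Nat := (nat_lit 52,nat_lit 52,nat_lit 6,nat_lit 4,nat_lit 6,nat_lit 4)
/-- steps for `4` arcs -/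
noncomputable def s4_57 : Nat × Nat × Nat × Nat × Nat × Nat := (nat_lit 57,nat_lit 57,nat_lit 7,nat_lit 1,nat_lit 7,nat_lit 1)
/-- steps for `5` arcs -/
noncomputable def s5_0 : Nat × Nat × Nat × Nat × Nat × Nat := (nat_lit 0,nat_lit 28,nat_lit 0,nat_lit 0,nat_lit 2,nat_lit 8)
/-- steps for `5` arcs -/
noncomputable def s5_1 : Nat × Nat × Nat × Nat × Nat × Nat := (nat_lit 1,nat_lit 98,nat_lit 0,nat_lit 1,nat_lit 9,nat_lit 8)
/-- steps for `5` arcs -/
noncomputable def s5_2 : Nat × Nat × Nat × Nat × Nat × Nat := (nat_lit 2,nat_lit 48,nat_lit 0,nat_lit 2,nat_lit 4,nat_lit 8)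
/-- steps for `5` arcs -/
noncomputable def s5_3 : Nat × Nat × Nat × Nat × Nat × Nat := (nat_lit 3,nat_lit 18,nat_lit 0,nat_lit 3,nat_lit 1,nat_lit 8)
/-- steps for `5` arcs -/
noncomputable def s5_4 : Nat × Nat × Nat × Nat × Nat × Nat := (nat_lit 4,nat_lit 68,nat_lit 0,nat_lit 4,nat_lit 6,nat_lit 8)
/-- steps for `5` arcs -/
noncomputable def s5_5 : Nat × Nat × Nat × Nat × Nat × Nat := (nat_lit 5,nat_lit 38,nat_lit 0,nat_lit 5,nat_lit 3,nat_lit 8)
/-- steps for `5` arcs -/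
noncomputable def s5_6 : Nat × Nat × Nat × Nat × Nat × Nat := (nat_lit 6,nat_lit 88,nat_lit 0,nat_lit 6,nat_lit 8,nat_lit 8)
/-- steps for `5` arcs -/
noncomputable def s5_7 : Nat × Nat × Nat × Nat × Nat × Nat := (nat_lit 7,nat_lit 58,nat_lit 0,nat_lit 7,nat_lit 5,nat_lit 8)
/-- steps for `5` arcs -/
noncomputable def s5_8 : Nat × Nat × Nat × Nat × Nat × Nat := (nat_lit 8,nat_lit 8,nat_lit 0,nat_lit 8,nat_lit 0,nat_lit 8)
/-- steps for `5` arcs -/
noncomputable def s5_9 : Nat × Nat × Nat × Nat × Nat × Nat := (nat_lit 9,nat_lit 78,nat_lit 0,nat_lit 9,nat_lit 7,nat_lit 8)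
/-- steps for `5` arcs -/
noncomputable def s5_10 : Nat × Nat × Nat × Nat × Nat × Nat := (nat_lit 10,nat_lit 23,nat_lit 1,nat_lit 0,nat_lit 2,nat_lit 3)
/-- steps for `5` arcs -/
noncomputable def s5_11 : Nat × Nat × Nat × Nat × Nat × Nat := (nat_lit 11,nat_lit 93,nat_lit 1,nat_lit 1,nat_lit 9,nat_lit 3)
/-- steps for `5` arcs -/
noncomputable def s5_12 : Nat × Nat × Nat × Nat × Nat × Nat := (nat_lit 12,nat_lit 43,nat_lit 1,nat_lit 2,nat_lit 4,nat_lit 3)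
/-- steps for `5` arcs -/
noncomputable def s5_13 : Nat × Nat × Nat × Nat × Nat × Nat := (nat_lit 13,nat_lit 13,nat_lit 1,nat_lit 3,nat_lit 1,nat_lit 3)
/-- steps for `5` arcs -/
noncomputable def s5_14 : Nat × Nat × Nat × Nat × Nat × Nat := (nat_lit 14,nat_lit 63,nat_lit 1,nat_lit 4,nat_lit 6,nat_lit 3)
/-- steps for `5` arcs -/
noncomputable def s5_15 : Nat × Nat × Nat × Nat × Nat × Nat := (nat_lit 15,nat_lit 33,nat_lit 1,nat_lit 5,nat_lit 3,nat_lit 3)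
/-- steps for `5` arcs -/
noncomputable def s5_16 : Nat × Nat × Nat × Nat × Nat × Nat := (nat_lit 16,nat_lit 83,nat_lit 1,nat_lit 6,nat_lit 8,nat_lit 3)
/-- steps for `5` arcs -/
noncomputable def s5_17 : Nat × Nat × Nat × Nat × Nat × Nat := (nat_lit 17,nat_lit 53,nat_lit 1,nat_lit 7,nat_lit 5,nat_lit 3)
/-- steps for `5` arcs -/
noncomputable def s5_19 : Nat × Nat × Nat × Nat × Nat × Nat := (nat_lit 19,nat_lit 73,nat_lit 1,nat_lit 9,nat_lit 7,nat_lit 3)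
/-- steps for `5` arcs -/
noncomputable def s5_20 : Nat × Nat × Nat × Nat × Nat × Nat := (nat_lit 20,nat_lit 20,nat_lit 2,nat_lit 0,nat_lit 2,nat_lit 0)
/-- steps for `5` arcs -/
noncomputable def s5_21 : Nat × Nat × Nat × Nat × Nat × Nat := (nat_lit 21,nat_lit 90,nat_lit 2,nat_lit 1,nat_lit 9,nat_lit 0)
/-- steps for `5` arcs -/
noncomputable def s5_22 : Nat × Nat × Nat × Nat × Nat × Nat := (nat_lit 22,nat_lit 40,nat_lit 2,nat_lit 2,nat_lit 4,nat_lit 0)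
/-- steps for `5` arcs -/
noncomputable def s5_24 : Nat × Nat × Nat × Nat × Nat × Nat := (nat_lit 24,nat_lit 60,nat_lit 2,nat_lit 4,nat_lit 6,nat_lit 0)
/-- steps for `5` arcs -/
noncomputable def s5_25 : Nat × Nat × Nat × Nat × Nat × Nat := (nat_lit 25,nat_lit 30,nat_lit 2,nat_lit 5,nat_lit 3,nat_lit 0)
/-- steps for `5` arcs -/
noncomputable def s5_26 : Nat × Nat × Nat × Nat × Nat × Nat := (nat_lit 26,nat_lit 80,nat_lit 2,nat_lit 6,nat_lit 8,nat_lit 0)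
/-- steps for `5` arcs -/
noncomputable def s5_27 : Nat × Nat × Nat × Nat × Nat × Nat := (nat_lit 27,nat_lit 50,nat_lit 2,nat_lit 7,nat_lit 5,nat_lit 0)
/-- steps for `5` arcs -/
noncomputable def s5_29 : Nat × Nat × Nat × Nat × Nat × Nat := (nat_lit 29,nat_lit 70,nat_lit 2,nat_lit 9,nat_lit 7,nat_lit 0)
/-- steps for `5` arcs -/
noncomputable def s5_31 : Nat × Nat × Nat × Nat × Nat × Nat := (nat_lit 31,nat_lit 95,nat_lit 3,nat_lit 1,nat_lit 9,nat_lit 5)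
/-- steps for `5` arcs -/
noncomputable def s5_32 : Nat × Nat × Nat × Nat × Nat × Nat := (nat_lit 32,nat_lit 45,nat_lit 3,nat_lit 2,nat_lit 4,nat_lit 5)
/-- steps for `5` arcs -/
noncomputable def s5_34 : Nat × Nat × Nat × Nat × Nat × Nat := (nat_lit 34,nat_lit 65,nat_lit 3,nat_lit 4,nat_lit 6,nat_lit 5)
/-- steps for `5` arcs -/
noncomputable def s5_35 : Nat × Nat × Nat × Nat × Nat × Nat := (nat_lit 35,nat_lit 35,nat_lit 3,nat_lit 5,nat_lit 3,nat_lit 5)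
/-- steps for `5` arcs -/
noncomputable def s5_36 : Nat × Nat × Nat × Nat × Nat × Nat := (nat_lit 36,nat_lit 85,nat_lit 3,nat_lit 6,nat_lit 8,nat_lit 5)
/-- steps for `5` arcs -/
noncomputable def s5_37 : Nat × Nat × Nat × Nat × Nat × Nat := (nat_lit 37,nat_lit 55,nat_lit 3,nat_lit 7,nat_lit 5,nat_lit 5)
/-- steps for `5` arcs -/
noncomputable def s5_39 : Nat × Nat × Nat × Nat × Nat × Nat := (nat_lit 39,nat_lit 75,nat_lit 3,nat_lit 9,nat_lit 7,nat_lit 5)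
/-- steps for `5` arcs -/
noncomputable def s5_41 : Nat × Nat × Nat × Nat × Nat × Nat := (nat_lit 41,nat_lit 92,nat_lit 4,nat_lit 1,nat_lit 9,nat_lit 2)
/-- steps for `5` arcs -/
noncomputable def s5_42 : Nat × Nat × Nat × Nat × Nat × Nat := (nat_lit 42,nat_lit 42,nat_lit 4,nat_lit 2,nat_lit 4,nat_lit 2)
/-- steps for `5` arcs -/
noncomputable def s5_44 : Nat × Nat × Nat × Nat × Nat × Nat := (nat_lit 44,nat_lit 62,nat_lit 4,nat_lit 4,nat_lit 6,nat_lit 2)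
/-- steps for `5` arcs -/
noncomputable def s5_46 : Nat × Nat × Nat × Nat × Nat × Nat := (nat_lit 46,nat_lit 82,nat_lit 4,nat_lit 6,nat_lit 8,nat_lit 2)
/-- steps for `5` arcs -/
noncomputable def s5_47 : Nat × Nat × Nat × Nat × Nat × Nat := (nat_lit 47,nat_lit 52,nat_lit 4,nat_lit 7,nat_lit 5,nat_lit 2)
/-- steps for `5` arcs -/
noncomputable def s5_49 : Nat × Nat × Nat × Nat × Nat × Nat := (nat_lit 49,nat_lit 72,nat_lit 4,nat_lit 9,nat_lit 7,nat_lit 2)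
/-- steps for `5` arcs -/
noncomputable def s5_51 : Nat × Nat × Nat × Nat × Nat × Nat := (nat_lit 51,nat_lit 97,nat_lit 5,nat_lit 1,nat_lit 9,nat_lit 7)
/-- steps for `5` arcs -/
noncomputable def s5_54 : Nat × Nat × Nat × Nat × Nat × Nat := (nat_lit 54,nat_lit 67,nat_lit 5,nat_lit 4,nat_lit 6,nat_lit 7)
/-- steps for `5` arcs -/
noncomputable def s5_56 : Nat × Nat × Nat × Nat × Nat × Nat := (nat_lit 56,nat_lit 87,nat_lit 5,nat_lit 6,nat_lit 8,nat_lit 7)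
/-- steps for `5` arcs -/
noncomputable def s5_57 : Nat × Nat × Nat × Nat × Nat × Nat := (nat_lit 57,nat_lit 57,nat_lit 5,nat_lit 7,nat_lit 5,nat_lit 7)
/-- steps for `5` arcs -/
noncomputable def s5_59 : Nat × Nat × Nat × Nat × Nat × Nat := (nat_lit 59,nat_lit 77,nat_lit 5,nat_lit 9,nat_lit 7,nat_lit 7)
/-- steps for `5` arcs -/
noncomputable def s5_61 : Nat × Nat × Nat × Nat × Nat × Nat := (nat_lit 61,nat_lit 94,nat_lit 6,nat_lit 1,nat_lit 9,nat_lit 4)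
/-- steps for `5` arcs -/
noncomputable def s5_64 : Nat × Nat × Nat × Nat × Nat × Nat := (nat_lit 64,nat_lit 64,nat_lit 6,nat_lit 4,nat_lit 6,nat_lit 4)
/-- steps for `5` arcs -/
noncomputable def s5_66 : Nat × Nat × Nat × Nat × Nat × Nat := (nat_lit 66,nat_lit 84,nat_lit 6,nat_lit 6,nat_lit 8,nat_lit 4)
/-- steps for `5` arcs -/
noncomputable def s5_69 : Nat × Nat × Nat × Nat × Nat × Nat := (nat_lit 69,nat_lit 74,nat_lit 6,nat_lit 9,nat_lit 7,nat_lit 4)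
/-- steps for `5` arcs -/
noncomputable def s5_71 : Nat × Nat × Nat × Nat × Nat × Nat := (nat_lit 71,nat_lit 99,nat_lit 7,nat_lit 1,nat_lit 9,nat_lit 9)
/-- steps for `5` arcs -/
noncomputable def s5_76 : Nat × Nat × Nat × Nat × Nat × Nat := (nat_lit 76,nat_lit 89,nat_lit 7,nat_lit 6,nat_lit 8,nat_lit 9)
/-- steps for `5` arcs -/
noncomputable def s5_79 : Nat × Nat × Nat × Nat × Nat × Nat := (nat_lit 79,nat_lit 79,nat_lit 7,nat_lit 9,nat_lit 7,nat_lit 9)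
/-- steps for `5` arcs -/
noncomputable def s5_81 : Nat × Nat × Nat × Nat × Nat × Nat := (nat_lit 81,nat_lit 96,nat_lit 8,nat_lit 1,nat_lit 9,nat_lit 6)
/-- steps for `5` arcs -/
noncomputable def s5_86 : Nat × Nat × Nat × Nat × Nat × Nat := (nat_lit 86,nat_lit 86,nat_lit 8,nat_lit 6,nat_lit 8,nat_lit 6)
/-- steps for `5` arcs -/
noncomputable def s5_91 : Nat × Nat × Nat × Nat × Nat × Nat := (nat_lit 91,nat_lit 91,nat_lit 9,nat_lit 1,nat_lit 9,nat_lit 1)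
/-- steps for `6` arcs -/
noncomputable def s6_0 : Nat × Nat × Nat × Nat × Nat × Nat := (nat_lit 0,nat_lit 34,nat_lit 0,nat_lit 0,nat_lit 2,nat_lit 10)
/-- steps for `6` arcs -/
noncomputable def s6_1 : Nat × Nat × Nat × Nat × Nat × Nat := (nat_lit 1,nat_lit 142,nat_lit 0,nat_lit 1,nat_lit 11,nat_lit 10)
/-- steps for `6` arcs -/
noncomputable def s6_2 : Nat × Nat × Nat × Nat × Nat × Nat := (nat_lit 2,nat_lit 58,nat_lit 0,nat_lit 2,nat_lit 4,nat_lit 10)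
/-- steps for `6` arcs -/
noncomputable def s6_3 : Nat × Nat × Nat × Nat × Nat × Nat := (nat_lit 3,nat_lit 22,nat_lit 0,nat_lit 3,nat_lit 1,nat_lit 10)
/-- steps for `6` arcs -/
noncomputable def s6_4 : Nat × Nat × Nat × Nat × Nat × Nat := (nat_lit 4,nat_lit 82,nat_lit 0,nat_lit 4,nat_lit 6,nat_lit 10)
/-- steps for `6` arcs -/
noncomputable def s6_5 : Nat × Nat × Nat × Nat × Nat × Nat := (nat_lit 5,nat_lit 46,nat_lit 0,nat_lit 5,nat_lit 3,nat_lit 10)
/-- steps for `6` arcs -/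
noncomputable def s6_6 : Nat × Nat × Nat × Nat × Nat × Nat := (nat_lit 6,nat_lit 106,nat_lit 0,nat_lit 6,nat_lit 8,nat_lit 10)
/-- steps for `6` arcs -/
noncomputable def s6_7 : Nat × Nat × Nat × Nat × Nat × Nat := (nat_lit 7,nat_lit 70,nat_lit 0,nat_lit 7,nat_lit 5,nat_lit 10)
/-- steps for `6` arcs -/
noncomputable def s6_8 : Nat × Nat × Nat × Nat × Nat × Nat := (nat_lit 8,nat_lit 130,nat_lit 0,nat_lit 8,nat_lit 10,nat_lit 10)
/-- steps for `6` arcs -/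
noncomputable def s6_9 : Nat × Nat × Nat × Nat × Nat × Nat := (nat_lit 9,nat_lit 94,nat_lit 0,nat_lit 9,nat_lit 7,nat_lit 10)
/-- steps for `6` arcs -/
noncomputable def s6_10 : Nat × Nat × Nat × Nat × Nat × Nat := (nat_lit 10,nat_lit 10,nat_lit 0,nat_lit 10,nat_lit 0,nat_lit 10)
/-- steps for `6` arcs -/
noncomputable def s6_11 : Nat × Nat × Nat × Nat × Nat × Nat := (nat_lit 11,nat_lit 118,nat_lit 0,nat_lit 11,nat_lit 9,nat_lit 10)
/-- steps for `6` arcs -/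
noncomputable def s6_12 : Nat × Nat × Nat × Nat × Nat × Nat := (nat_lit 12,nat_lit 27,nat_lit 1,nat_lit 0,nat_lit 2,nat_lit 3)
/-- steps for `6` arcs -/
noncomputable def s6_13 : Nat × Nat × Nat × Nat × Nat × Nat := (nat_lit 13,nat_lit 135,nat_lit 1,nat_lit 1,nat_lit 11,nat_lit 3)
/-- steps for `6` arcs -/
noncomputable def s6_14 : Nat × Nat × Nat × Nat × Nat × Nat := (nat_lit 14,nat_lit 51,nat_lit 1,nat_lit 2,nat_lit 4,nat_lit 3)
/-- steps for `6` arcs -/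
noncomputable def s6_15 : Nat × Nat × Nat × Nat × Nat × Nat := (nat_lit 15,nat_lit 15,nat_lit 1,nat_lit 3,nat_lit 1,nat_lit 3)
/-- steps for `6` arcs -/
noncomputable def s6_16 : Nat × Nat × Nat × Nat × Nat × Nat := (nat_lit 16,nat_lit 75,nat_lit 1,nat_lit 4,nat_lit 6,nat_lit 3)
/-- steps for `6` arcs -/
noncomputable def s6_17 : Nat × Nat × Nat × Nat × Nat × Nat := (nat_lit 17,nat_lit 39,nat_lit 1,nat_lit 5,nat_lit 3,nat_lit 3)
/-- steps for `6` arcs -/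
noncomputable def s6_18 : Nat × Nat × Nat × Nat × Nat × Nat := (nat_lit 18,nat_lit 99,nat_lit 1,nat_lit 6,nat_lit 8,nat_lit 3)
/-- steps for `6` arcs -/
noncomputable def s6_19 : Nat × Nat × Nat × Nat × Nat × Nat := (nat_lit 19,nat_lit 63,nat_lit 1,nat_lit 7,nat_lit 5,nat_lit 3)
/-- steps for `6` arcs -/
noncomputable def s6_20 : Nat × Nat × Nat × Nat × Nat × Nat := (nat_lit 20,nat_lit 123,nat_lit 1,nat_lit 8,nat_lit 10,nat_lit 3)
/-- steps for `6` arcs -/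
noncomputable def s6_21 : Nat × Nat × Nat × Nat × Nat × Nat := (nat_lit 21,nat_lit 87,nat_lit 1,nat_lit 9,nat_lit 7,nat_lit 3)
/-- steps for `6` arcs -/
noncomputable def s6_23 : Nat × Nat × Nat × Nat × Nat × Nat := (nat_lit 23,nat_lit 111,nat_lit 1,nat_lit 11,nat_lit 9,nat_lit 3)
/-- steps for `6` arcs -/
noncomputable def s6_24 : Nat × Nat × Nat × Nat × Nat × Nat := (nat_lit 24,nat_lit 24,nat_lit 2,nat_lit 0,nat_lit 2,nat_lit 0)
/-- steps for `6` arcs -/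
noncomputable def s6_25 : Nat × Nat × Nat × Nat × Nat × Nat := (nat_lit 25,nat_lit 132,nat_lit 2,nat_lit 1,nat_lit 11,nat_lit 0)
/-- steps for `6` arcs -/
noncomputable def s6_26 : Nat × Nat × Nat × Nat × Nat × Nat := (nat_lit 26,nat_lit 48,nat_lit 2,nat_lit 2,nat_lit 4,nat_lit 0)
/-- steps for `6` arcs -/
noncomputable def s6_28 : Nat × Nat × Nat × Nat × Nat × Nat := (nat_lit 28,nat_lit 72,nat_lit 2,nat_lit 4,nat_lit 6,nat_lit 0)
/-- steps for `6` arcs -/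
noncomputable def s6_29 : Nat × Nat × Nat × Nat × Nat × Nat := (nat_lit 29,nat_lit 36,nat_lit 2,nat_lit 5,nat_lit 3,nat_lit 0)
/-- steps for `6` arcs -/
noncomputable def s6_30 : Nat × Nat × Nat × Nat × Nat × Nat := (nat_lit 30,nat_lit 96,nat_lit 2,nat_lit 6,nat_lit 8,nat_lit 0)
/-- steps for `6` arcs -/
noncomputable def s6_31 : Nat × Nat × Nat × Nat × Nat × Nat := (nat_lit 31,nat_lit 60,nat_lit 2,nat_lit 7,nat_lit 5,nat_lit 0)
/-- steps for `6` arcs -/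
noncomputable def s6_32 : Nat × Nat × Nat × Nat × Nat × Nat := (nat_lit 32,nat_lit 120,nat_lit 2,nat_lit 8,nat_lit 10,nat_lit 0)
/-- steps for `6` arcs -/
noncomputable def s6_33 : Nat × Nat × Nat × Nat × Nat × Nat := (nat_lit 33,nat_lit 84,nat_lit 2,nat_lit 9,nat_lit 7,nat_lit 0)
/-- steps for `6` arcs -/
noncomputable def s6_35 : Nat × Nat × Nat × Nat × Nat × Nat := (nat_lit 35,nat_lit 108,nat_lit 2,nat_lit 11,nat_lit 9,nat_lit 0)
/-- steps for `6` arcs -/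
noncomputable def s6_37 : Nat × Nat × Nat × Nat × Nat × Nat := (nat_lit 37,nat_lit 137,nat_lit 3,nat_lit 1,nat_lit 11,nat_lit 5)
/-- steps for `6` arcs -/
noncomputable def s6_38 : Nat × Nat × Nat × Nat × Nat × Nat := (nat_lit 38,nat_lit 53,nat_lit 3,nat_lit 2,nat_lit 4,nat_lit 5)
/-- steps for `6` arcs -/
noncomputable def s6_40 : Nat × Nat × Nat × Nat × Nat × Nat := (nat_lit 40,nat_lit 77,nat_lit 3,nat_lit 4,nat_lit 6,nat_lit 5)
/-- steps for `6` arcs -/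
noncomputable def s6_41 : Nat × Nat × Nat × Nat × Nat × Nat := (nat_lit 41,nat_lit 41,nat_lit 3,nat_lit 5,nat_lit 3,nat_lit 5)
/-- steps for `6` arcs -/
noncomputable def s6_42 : Nat × Nat × Nat × Nat × Nat × Nat := (nat_lit 42,nat_lit 101,nat_lit 3,nat_lit 6,nat_lit 8,nat_lit 5)
/-- steps for `6` arcs -/
noncomputable def s6_43 : Nat × Nat × Nat × Nat × Nat × Nat := (nat_lit 43,nat_lit 65,nat_lit 3,nat_lit 7,nat_lit 5,nat_lit 5)
/-- steps for `6` arcs -/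
noncomputable def s6_44 : Nat × Nat × Nat × Nat × Nat × Nat := (nat_lit 44,nat_lit 125,nat_lit 3,nat_lit 8,nat_lit 10,nat_lit 5)
/-- steps for `6` arcs -/
noncomputable def s6_45 : Nat × Nat × Nat × Nat × Nat × Nat := (nat_lit 45,nat_lit 89,nat_lit 3,nat_lit 9,nat_lit 7,nat_lit 5)
/-- steps for `6` arcs -/
noncomputable def s6_47 : Nat × Nat × Nat × Nat × Nat × Nat := (nat_lit 47,nat_lit 113,nat_lit 3,nat_lit 11,nat_lit 9,nat_lit 5)
/-- steps for `6` arcs -/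
noncomputable def s6_49 : Nat × Nat × Nat × Nat × Nat × Nat := (nat_lit 49,nat_lit 134,nat_lit 4,nat_lit 1,nat_lit 11,nat_lit 2)
/-- steps for `6` arcs -/
noncomputable def s6_50 : Nat × Nat × Nat × Nat × Nat × Nat := (nat_lit 50,nat_lit 50,nat_lit 4,nat_lit 2,nat_lit 4,nat_lit 2)
/-- steps for `6` arcs -/
noncomputable def s6_52 : Nat × Nat × Nat × Nat × Nat × Nat := (nat_lit 52,nat_lit 74,nat_lit 4,nat_lit 4,nat_lit 6,nat_lit 2)
/-- steps for `6` arcs -/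
noncomputable def s6_54 : Nat × Nat × Nat × Nat × Nat × Nat := (nat_lit 54,nat_lit 98,nat_lit 4,nat_lit 6,nat_lit 8,nat_lit 2)
/-- steps for `6` arcs -/
noncomputable def s6_55 : Nat × Nat × Nat × Nat × Nat × Nat := (nat_lit 55,nat_lit 62,nat_lit 4,nat_lit 7,nat_lit 5,nat_lit 2)
/-- steps for `6` arcs -/
noncomputable def s6_56 : Nat × Nat × Nat × Nat × Nat × Nat := (nat_lit 56,nat_lit 122,nat_lit 4,nat_lit 8,nat_lit 10,nat_lit 2)
/-- steps for `6` arcs -/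
noncomputable def s6_57 : Nat × Nat × Nat × Nat × Nat × Nat := (nat_lit 57,nat_lit 86,nat_lit 4,nat_lit 9,nat_lit 7,nat_lit 2)
/-- steps for `6` arcs -/
noncomputable def s6_59 : Nat × Nat × Nat × Nat × Nat × Nat := (nat_lit 59,nat_lit 110,nat_lit 4,nat_lit 11,nat_lit 9,nat_lit 2)
/-- steps for `6` arcs -/
noncomputable def s6_61 : Nat × Nat × Nat × Nat × Nat × Nat := (nat_lit 61,nat_lit 139,nat_lit 5,nat_lit 1,nat_lit 11,nat_lit 7)
/-- steps for `6` arcs -/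
noncomputable def s6_64 : Nat × Nat × Nat × Nat × Nat × Nat := (nat_lit 64,nat_lit 79,nat_lit 5,nat_lit 4,nat_lit 6,nat_lit 7)
/-- steps for `6` arcs -/
noncomputable def s6_66 : Nat × Nat × Nat × Nat × Nat × Nat := (nat_lit 66,nat_lit 103,nat_lit 5,nat_lit 6,nat_lit 8,nat_lit 7)
/-- steps for `6` arcs -/
noncomputable def s6_67 : Nat × Nat × Nat × Nat × Nat × Nat := (nat_lit 67,nat_lit 67,nat_lit 5,nat_lit 7,nat_lit 5,nat_lit 7)
/-- steps for `6` arcs -/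
noncomputable def s6_68 : Nat × Nat × Nat × Nat × Nat × Nat := (nat_lit 68,nat_lit 127,nat_lit 5,nat_lit 8,nat_lit 10,nat_lit 7)
/-- steps for `6` arcs -/
noncomputable def s6_69 : Nat × Nat × Nat × Nat × Nat × Nat := (nat_lit 69,nat_lit 91,nat_lit 5,nat_lit 9,nat_lit 7,nat_lit 7)
/-- steps for `6` arcs -/
noncomputable def s6_71 : Nat × Nat × Nat × Nat × Nat × Nat := (nat_lit 71,nat_lit 115,nat_lit 5,nat_lit 11,nat_lit 9,nat_lit 7)
/-- steps for `6` arcs -/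
noncomputable def s6_73 : Nat × Nat × Nat × Nat × Nat × Nat := (nat_lit 73,nat_lit 136,nat_lit 6,nat_lit 1,nat_lit 11,nat_lit 4)
/-- steps for `6` arcs -/
noncomputable def s6_76 : Nat × Nat × Nat × Nat × Nat × Nat := (nat_lit 76,nat_lit 76,nat_lit 6,nat_lit 4,nat_lit 6,nat_lit 4)
/-- steps for `6` arcs -/
noncomputable def s6_78 : Nat × Nat × Nat × Nat × Nat × Nat := (nat_lit 78,nat_lit 100,nat_lit 6,nat_lit 6,nat_lit 8,nat_lit 4)
/-- steps for `6` arcs -/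
noncomputable def s6_80 : Nat × Nat × Nat × Nat × Nat × Nat := (nat_lit 80,nat_lit 124,nat_lit 6,nat_lit 8,nat_lit 10,nat_lit 4)
/-- steps for `6` arcs -/
noncomputable def s6_81 : Nat × Nat × Nat × Nat × Nat × Nat := (nat_lit 81,nat_lit 88,nat_lit 6,nat_lit 9,nat_lit 7,nat_lit 4)
/-- steps for `6` arcs -/
noncomputable def s6_83 : Nat × Nat × Nat × Nat × Nat × Nat := (nat_lit 83,nat_lit 112,nat_lit 6,nat_lit 11,nat_lit 9,nat_lit 4)
/-- steps for `6` arcs -/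
noncomputable def s6_85 : Nat × Nat × Nat × Nat × Nat × Nat := (nat_lit 85,nat_lit 141,nat_lit 7,nat_lit 1,nat_lit 11,nat_lit 9)
/-- steps for `6` arcs -/
noncomputable def s6_90 : Nat × Nat × Nat × Nat × Nat × Nat := (nat_lit 90,nat_lit 105,nat_lit 7,nat_lit 6,nat_lit 8,nat_lit 9)
/-- steps for `6` arcs -/
noncomputable def s6_92 : Nat × Nat × Nat × Nat × Nat × Nat := (nat_lit 92,nat_lit 129,nat_lit 7,nat_lit 8,nat_lit 10,nat_lit 9)
/-- steps for `6` arcs -/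
noncomputable def s6_93 : Nat × Nat × Nat × Nat × Nat × Nat := (nat_lit 93,nat_lit 93,nat_lit 7,nat_lit 9,nat_lit 7,nat_lit 9)
/-- steps for `6` arcs -/
noncomputable def s6_95 : Nat × Nat × Nat × Nat × Nat × Nat := (nat_lit 95,nat_lit 117,nat_lit 7,nat_lit 11,nat_lit 9,nat_lit 9)
/-- steps for `6` arcs -/
noncomputable def s6_97 : Nat × Nat × Nat × Nat × Nat × Nat := (nat_lit 97,nat_lit 138,nat_lit 8,nat_lit 1,nat_lit 11,nat_lit 6)
/-- steps for `6` arcs -/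
noncomputable def s6_102 : Nat × Nat × Nat × Nat × Nat × Nat := (nat_lit 102,nat_lit 102,nat_lit 8,nat_lit 6,nat_lit 8,nat_lit 6)
/-- steps for `6` arcs -/
noncomputable def s6_104 : Nat × Nat × Nat × Nat × Nat × Nat := (nat_lit 104,nat_lit 126,nat_lit 8,nat_lit 8,nat_lit 10,nat_lit 6)
/-- steps for `6` arcs -/
noncomputable def s6_107 : Nat × Nat × Nat × Nat × Nat × Nat := (nat_lit 107,nat_lit 114,nat_lit 8,nat_lit 11,nat_lit 9,nat_lit 6)
/-- steps for `6` arcs -/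
noncomputable def s6_109 : Nat × Nat × Nat × Nat × Nat × Nat := (nat_lit 109,nat_lit 143,nat_lit 9,nat_lit 1,nat_lit 11,nat_lit 11)
/-- steps for `6` arcs -/
noncomputable def s6_116 : Nat × Nat × Nat × Nat × Nat × Nat := (nat_lit 116,nat_lit 131,nat_lit 9,nat_lit 8,nat_lit 10,nat_lit 11)
/-- steps for `6` arcs -/
noncomputable def s6_119 : Nat × Nat × Nat × Nat × Nat × Nat := (nat_lit 119,nat_lit 119,nat_lit 9,nat_lit 11,nat_lit 9,nat_lit 11)
/-- steps for `6` arcs -/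
noncomputable def s6_121 : Nat × Nat × Nat × Nat × Nat × Nat := (nat_lit 121,nat_lit 140,nat_lit 10,nat_lit 1,nat_lit 11,nat_lit 8)
/-- steps for `6` arcs -/
noncomputable def s6_128 : Nat × Nat × Nat × Nat × Nat × Nat := (nat_lit 128,nat_lit 128,nat_lit 10,nat_lit 8,nat_lit 10,nat_lit 8)
/-- steps for `6` arcs -/
noncomputable def s6_133 : Nat × Nat × Nat × Nat × Nat × Nat := (nat_lit 133,nat_lit 133,nat_lit 11,nat_lit 1,nat_lit 11,nat_lit 1)

end Pool.Agent.Lib_MP_fa6e45
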