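import Pool.Agent.Lib_MP_fa6e45.CQY0
import Pool.Agent.Lib_MP_fa6e45.GQ7

/-!
MP_fa6e45_co, stage 9: certificates with fast numerical checks for words in which neighbouring arcs fit as direct
neighbours (`pluB`): the chord angles are the angles, all chords have the same length.
-/

open Set MeasureTheory Complex
open scoped Topology

namespace Pool.Agent.Lib_MP_fa6e45

variable {m : ℕ} [NeZero m]

/-- neighbouring arcs fit, all letters are in the class `0` -/
noncomputable def okP (m : ℕ) (w : List ℕ) : Bool :=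
  (w.length == m) && pluB m w && w.all fun x => Nat.blt (Nat.div x 16) 1

theorem okP_sound {w : List ℕ} (h : okP m w = true) : OkW m w 1 := by
  unfold okP at h
  simp only [Bool.and_eq_true, beq_iff_eq, List.all_eq_true] at h
  obtain ⟨⟨h1, h2⟩, h3⟩ := h
  refine ⟨h1, fun x hx => Nat.le_of_ble_eq_true (h3 x hx), ?_⟩
  intro n P S b M
  have hrel : ∀ j k c, relT w j k c = true → S.Rel j k c := fun j k c => (M.rel j k c).2
  have hplus := pluB_plus S hrel h2
  have hb : ∀ j, b j = P.ang (S.κ j) / Real.pi := by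
    obtain ⟨σ, ε, hp, -, hb⟩ := M.off
    intro j
    rw [hb j, (hp (j - 1) j (hplus j)).2]
    ring
  have hnorm : ∀ k : ℕ, ‖S.ch (k : ZMod m)‖ = ‖S.ch 0‖ := by
    intro k
    induction k with
    | zero => rw [Nat.cast_zero]
    | succ k ih =>
      have h4 := Arcs.norm_plus S (hplus ((k + 1 : ℕ) : ZMod m))
      rw [← h4, Nat.cast_succ, add_sub_cancel_right]
      exact ih
  refine ⟨fun j => ?_, fun j => ?_, fun j _ k _ _ => ?_⟩
  · rw [hb]
    exact div_pos (P.ang_pos _) Real.pi_pos
  · rw [hb, div_lt_iff₀ Real.pi_pos]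
    exact P.ang_lt _
  · rw [hnorm j, hnorm k]

/-- one pattern, the certificate (with fast numerical checks) is checked in parts -/
theorem oneG_sound (hm : 3 ≤ m) (hm' : m ≤ 8) {tt : List TorT} (htt : ∀ T ∈ tt, T.OK m) {w : List ℕ}
    {sy : List (Bool × ℕ × List ℕ)} {st : List (ℕ × ℕ × ℕ × ℕ × ℕ × ℕ)}
    {D : List (List (List (List (ℕ × ℕ))))} {Ns : List (QG PN)} {t : ℕ}
    (h0 : (okP m w && preR m w sy st D Ns.length && (encW w == t)) = true)
    (h2 : allI (chkG (ckP m tt w sy) m w 1 sy st (bl3 [] D)) Ns 0 = true) :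
    ∀ x ∈ [t], NodeU m (decW m x) [] := by
  rw [Bool.and_eq_true, Bool.and_eq_true, beq_iff_eq] at h0
  obtain ⟨⟨hP, h1⟩, ht⟩ := h0
  have hw : w = decW m (encW w) := by
    have h3 := h1
    unfold preR at h3
    simp only [Bool.and_eq_true, beq_iff_eq] at h3
    exact h3.1.1.1.1.1.1
  intro x hx
  rw [List.mem_singleton] at hx
  rw [hx, ← ht, ← hw]
  intro n P S b M h3 h4
  exact nodeG_gen hm hm' htt (okP_sound hP) (preR_preQ h1) h2 P S b M h3 h4

end Pool.Agent.Lib_MP_fa6e45
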