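import Pool.Agent.Lib_MP_fa6e45.GQ0

/-!
MP_fa6e45_co, stage 9: the numerical check of GQ0 for two free angles `t`, `u`.

The direction of side `j` is `π (α j + β j t + γ j u) / D` (up to a common rotation), `t = s / 2048`, `u = r / 2048`. The
square `0 ≤ t, u ≤ 2` is divided into rectangles; the tree is given by the digits of a number in base `8192`: `8191` and
`8190` divide the rectangle (first half first). Other digits: `p < 4096` direction in which the sums are positive (as in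
GQ0); `4096 + j` angle at corner `j` not between `0` and `2`; `5120 + 16 p + q`, `5248 + 16 p + q`: the sides `p` and `q`
cross (only for one class).
-/

namespace Pool.Agent.Lib_MP_fa6e45

/-- the lanes `(α, β, γ, class)` of the sides; in the list, the last side is first -/
noncomputable def g2U (al be ga : ℕ) (K : List (ℕ × ℕ × ℕ × ℕ) → Bool) (w : List ℕ) :
    ℕ → List (ℕ × ℕ × ℕ × ℕ) → Bool :=
  List.rec (motive := fun _ => ℕ → List (ℕ × ℕ × ℕ × ℕ) → Bool) (fun _ acc => K acc)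
    (fun x _ ih j acc => fQ (dg 32 al j) fun a => fQ (dg 32 be j) fun b => fQ (dg 32 ga j) fun g =>
      fQ (Nat.div x 16) fun c => fQ (Nat.succ j) fun j => ih j ((a, b, g, c) :: acc)) w

/-- sum over the sides of the class `c` -/
noncomputable def g2S (T D s r p c : ℕ) : List (ℕ × ℕ × ℕ × ℕ) → ℕ :=
  List.rec (motive := fun _ => ℕ) 0 (fun e _ z => bif Nat.beq e.2.2.2 c then
    Nat.add (gqE T (Nat.add (Nat.div (Nat.add (Nat.add (Nat.mul 2048 e.1) (Nat.mul e.2.1 s)) (Nat.mul e.2.2.1 r)) D) p)) z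
    else z)

/-- sum of `176 |β - ρ|` over the sides of the class `c` -/
noncomputable def g2B (ρ c : ℕ) : List (ℕ × ℕ × ℕ × ℕ) → ℕ :=
  List.rec (motive := fun _ => ℕ) 0 (fun e _ z => bif Nat.beq e.2.2.2 c then
    Nat.add (Nat.mul 176 (Nat.add (Nat.sub e.2.1 ρ) (Nat.sub ρ e.2.1))) z else z)

/-- sum of `176 |γ - σ|` over the sides of the class `c` -/
noncomputable def g2G (σ c : ℕ) : List (ℕ × ℕ × ℕ × ℕ) → ℕ :=
  List.rec (motive := fun _ => ℕ) 0 (fun e _ z => bif Nat.beq e.2.2.2 c then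
    Nat.add (Nat.mul 176 (Nat.add (Nat.sub e.2.2.1 σ) (Nat.sub σ e.2.2.1))) z else z)

/-- `16398` times the number of sides of the class `c` -/
noncomputable def g2N (c : ℕ) : List (ℕ × ℕ × ℕ × ℕ) → ℕ :=
  List.rec (motive := fun _ => ℕ) 0 (fun e _ z => bif Nat.beq e.2.2.2 c then Nat.add 16398 z else z)

/-- `2048 (D + α') + β' s + γ' r` for a lane -/
noncomputable def g2V (x : ℕ) (e : ℕ × ℕ × ℕ × ℕ) (s r : ℕ) : ℕ :=
  Nat.add (Nat.add (Nat.mul 2048 (Nat.add x e.1)) (Nat.mul e.2.1 s)) (Nat.mul e.2.2.1 r)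

/-- the angle between the lanes `a` (side before, `x = D`) and `b` (`y = 0`, or `y = 2 D` for the last corner) is `≤ 0` at
the four corners of the rectangle, or `≥ 2` at the four corners -/
noncomputable def g2X (D y s1 s2 r1 r2 : ℕ) (a b : ℕ × ℕ × ℕ × ℕ) : Bool :=
  (Nat.ble (g2V D a s1 r1) (g2V y b s1 r1) && Nat.ble (g2V D a s2 r1) (g2V y b s2 r1) &&
    Nat.ble (g2V D a s1 r2) (g2V y b s1 r2) && Nat.ble (g2V D a s2 r2) (g2V y b s2 r2)) ||
  (Nat.ble (Nat.add (Nat.mul 4096 D) (g2V y b s1 r1)) (g2V D a s1 r1) &&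
    Nat.ble (Nat.add (Nat.mul 4096 D) (g2V y b s2 r1)) (g2V D a s2 r1) &&
    Nat.ble (Nat.add (Nat.mul 4096 D) (g2V y b s1 r2)) (g2V D a s1 r2) &&
    Nat.ble (Nat.add (Nat.mul 4096 D) (g2V y b s2 r2)) (g2V D a s2 r2))

/-- check of the corner `j` in the rectangle; `l` are the `m` lanes -/
noncomputable def g2C (m D s1 s2 r1 r2 j : ℕ) (l : List (ℕ × ℕ × ℕ × ℕ)) : Bool :=
  bif Nat.beq j 0 then g2X D (Nat.mul 2 D) s1 s2 r1 r2 (nthF (0, 0, 0, 0) l 0) (nthF (0, 0, 0, 0) l (Nat.sub m 1))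
  else bif Nat.blt j m then g2X D 0 s1 s2 r1 r2 (nthF (0, 0, 0, 0) l (Nat.sub m j))
    (nthF (0, 0, 0, 0) l (Nat.sub (Nat.sub m j) 1))
  else false

/-- lane number `j` -/
noncomputable def g2L (m : ℕ) (l : List (ℕ × ℕ × ℕ × ℕ)) (j : ℕ) : ℕ × ℕ × ℕ × ℕ :=
  nthF (0, 0, 0, 0) l (Nat.sub (Nat.sub m 1) j)

/-- the direction of a lane at the point `(s, r)` in units of `π / 2048` (rounded down) -/
noncomputable def g2I (D s r : ℕ) (e : ℕ × ℕ × ℕ × ℕ) : ℕ :=
  Nat.div (Nat.add (Nat.add (Nat.mul 2048 e.1) (Nat.mul e.2.1 s)) (Nat.mul e.2.2.1 r)) D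

/-- error for a lane relative to the lane `e` (times `7 D`) -/
noncomputable def g2E (h k : ℕ) (e e' : ℕ × ℕ × ℕ × ℕ) : ℕ :=
  Nat.mul 176 (Nat.add (Nat.mul (Nat.add (Nat.sub e'.2.1 e.2.1) (Nat.sub e.2.1 e'.2.1)) h)
    (Nat.mul (Nat.add (Nat.sub e'.2.2.1 e.2.2.1) (Nat.sub e.2.2.1 e'.2.2.1)) k))

/-- the sum of `cos (φ j - φ e + π z / 2048)` over the lanes `a`, ..., `a + n - 1` is positive in the rectangle with centre
`(s, r)` and half sides `h`, `k` (`z = 3072`: sine; `z = 1024`: minus sine); `e` is a lane -/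
noncomputable def g2Y (m T D s r h k z : ℕ) (l : List (ℕ × ℕ × ℕ × ℕ)) (e : ℕ × ℕ × ℕ × ℕ) (a n : ℕ) : Bool :=
  fQ (Nat.add z (Nat.sub 4096 (Nat.mod (g2I D s r e) 4096))) fun z' =>
    Nat.blt (Nat.add (Nat.mul 16411 n) (Nat.div (Nat.rec (motive := fun _ => ℕ) 0
        (fun i x => Nat.add (g2E h k e (g2L m l (Nat.add a i))) x) n) (Nat.mul 7 D)))
      (Nat.rec (motive := fun _ => ℕ) 0
        (fun i x => Nat.add (gqE T (Nat.add (g2I D s r (g2L m l (Nat.add a i))) z')) x) n)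

/-- the sides `p` and `q` cross (all sides have the same length); `z` and `z'` are `3072` and `1024`, or conversely -/
noncomputable def g2Z (m T D s r h k z z' p q : ℕ) (l : List (ℕ × ℕ × ℕ × ℕ)) : Bool :=
  Nat.ble (Nat.add p 2) q && Nat.blt q m &&
    g2Y m T D s r h k z l (g2L m l p) (Nat.add p 1) (Nat.sub (Nat.sub q p) 1) &&
    g2Y m T D s r h k z' l (g2L m l p) (Nat.add p 1) (Nat.sub q p) &&
    g2Y m T D s r h k z l (g2L m l q) p (Nat.sub q p) &&
    g2Y m T D s r h k z' l (g2L m l q) (Nat.add p 1) (Nat.sub (Nat.sub q p) 1)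

/-- check of a rectangle with the digit `p`; `C` is the number of classes, the digits of `bb` (base `2 ^ 32`) are the
bounds `g2B`, `g2G`, `g2N` for the classes -/
noncomputable def g2K (m T D C bb : ℕ) (l : List (ℕ × ℕ × ℕ × ℕ)) (s1 s2 r1 r2 p : ℕ) : Bool :=
  bif Nat.blt p 4096 then
    fQ (Nat.div (Nat.add s1 s2) 2) fun s => fQ (Nat.div (Nat.add r1 r2) 2) fun r =>
    fQ (Nat.sub s2 s) fun h => fQ (Nat.sub r2 r) fun k => allN (fun c =>
      Nat.blt (Nat.add (Nat.div (Nat.add (Nat.mul (dg 32 bb (Nat.mul 3 c)) h)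
          (Nat.mul (dg 32 bb (Nat.succ (Nat.mul 3 c))) k)) (Nat.mul 7 D)) (dg 32 bb (Nat.add 2 (Nat.mul 3 c))))
        (g2S T D s r p c l)) C
  else bif Nat.blt p 5120 then g2C m D s1 s2 r1 r2 (Nat.sub p 4096) l
  else bif Nat.beq C 1 then
    fQ (Nat.div (Nat.add s1 s2) 2) fun s => fQ (Nat.div (Nat.add r1 r2) 2) fun r =>
    fQ (Nat.sub s2 s) fun h => fQ (Nat.sub r2 r) fun k =>
      bif Nat.blt p 5248 then
        g2Z m T D s r h k 3072 1024 (Nat.div (Nat.sub p 5120) 16) (Nat.mod (Nat.sub p 5120) 16) l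
      else g2Z m T D s r h k 1024 3072 (Nat.div (Nat.sub p 5248) 16) (Nat.mod (Nat.sub p 5248) 16) l
  else false

/-- the tree given by the digits of `X`, rectangle `[s1, s2] × [r1, r2]`, continuation `κ` for the remaining digits -/
noncomputable def g2R (m T D C bb : ℕ) (l : List (ℕ × ℕ × ℕ × ℕ)) (fuel : ℕ) :
    ℕ → ℕ → ℕ → ℕ → ℕ → (ℕ → Bool) → Bool :=
  Nat.rec (motive := fun _ => ℕ → ℕ → ℕ → ℕ → ℕ → (ℕ → Bool) → Bool) (fun _ _ _ _ _ _ => false)
    (fun _ ih X s1 s2 r1 r2 κ => fQ (Nat.mod X 8192) fun c => fQ (Nat.div X 8192) fun X' =>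
      bif Nat.beq c 8191 then fQ (Nat.div (Nat.add s1 s2) 2) fun s =>
        ih X' s1 s r1 r2 fun X'' => fQ X'' fun X'' => ih X'' s s2 r1 r2 κ
      else bif Nat.beq c 8190 then fQ (Nat.div (Nat.add r1 r2) 2) fun r =>
        ih X' s1 s2 r1 r fun X'' => fQ X'' fun X'' => ih X'' s1 s2 r r2 κ
      else bif g2K m T D C bb l s1 s2 r1 r2 c then κ X' else false) fuel

/-- the equation `e` is `D x j + β x f + γ x g + α = D + α' + β' x f + γ' x g` for the lanes `a = (α', β', γ', _)` (side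
before) and `b`; `F = 2 ^ (48 f)`, `G = 2 ^ (48 g)`, `M = 2 ^ (48 m)` -/
noncomputable def g2Q (D F G M j : ℕ) (a b : ℕ × ℕ × ℕ × ℕ) (e : ℕ × ℕ) : Bool :=
  Nat.beq (Nat.add e.1 (Nat.add (Nat.add (Nat.mul a.2.1 F) (Nat.mul a.2.2.1 G)) (Nat.mul b.1 M)))
    (Nat.add e.2 (Nat.add (Nat.add (Nat.mul D (Nat.pow 2 (Nat.mul 48 j)))
      (Nat.add (Nat.mul b.2.1 F) (Nat.mul b.2.2.1 G))) (Nat.mul (Nat.add D a.1) M)))

/-- check of the directions; `a` is the lane number `j`, the list contains the lanes before -/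
noncomputable def g2D (f g D F G M : ℕ) (l : List (ℕ × ℕ × ℕ × ℕ)) :
    ℕ × ℕ × ℕ × ℕ → ℕ → List (ℕ × ℕ) → Bool :=
  List.rec (motive := fun _ => ℕ × ℕ × ℕ × ℕ → ℕ → List (ℕ × ℕ) → Bool) (fun _ _ _ => true)
    (fun b _ ih a j es => bif Nat.beq j f then
        (bif (bif Nat.beq (Nat.add D a.2.1) b.2.1 then (bif Nat.beq a.2.2.1 b.2.2.1 then
          Nat.beq a.1 (Nat.add D b.1) else false) else false) then ih b (Nat.sub j 1) es else false)
      else bif Nat.beq j g then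
        (bif (bif Nat.beq (Nat.add D a.2.2.1) b.2.2.1 then (bif Nat.beq a.2.1 b.2.1 then
          Nat.beq a.1 (Nat.add D b.1) else false) else false) then ih b (Nat.sub j 1) es else false)
      else List.rec (motive := fun _ => Bool) false (fun e es' _ =>
        bif g2Q D F G M j b a e then ih b (Nat.sub j 1) es' else false) es) l

/-- the numerical check: a polygon with the word `w` and the equations `es` does not exist -/
noncomputable def geo2Q (m : ℕ) (w : List ℕ) (C D f g al be ga ρ σ bb X : ℕ) (es : List (ℕ × ℕ)) : Bool :=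
  g2U al be ga (fun l => Nat.blt 0 D && Nat.blt D 524288 && Nat.blt f m && Nat.blt g m &&
    allN (fun c => Nat.ble (g2B ρ c l) (dg 32 bb (Nat.mul 3 c)) &&
      Nat.ble (g2G σ c l) (dg 32 bb (Nat.succ (Nat.mul 3 c))) &&
      Nat.ble (g2N c l) (dg 32 bb (Nat.add 2 (Nat.mul 3 c)))) C &&
    (l.all fun e => Nat.blt e.1 524288 && Nat.blt e.2.1 524288 && Nat.blt e.2.2.1 524288) &&
    g2D f g D (Nat.pow 2 (Nat.mul 48 f)) (Nat.pow 2 (Nat.mul 48 g)) (Nat.pow 2 (Nat.mul 48 m)) l.tail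
      (l.headD (0, 0, 0, 0)) (Nat.sub m 1) es &&
    fQ gqT fun T => g2R m T D C bb l 30 X 0 4096 0 4096 fun _ => true) w 0 []

/-- nodes: the numerical check with two parameters, or other nodes -/
inductive QH (α : Type)
  | g2 (D f g al be ga ρ σ bb X : ℕ)
  | n (N : QG α)

/-- check of node `i` -/
noncomputable def chkH {α : Type} (ck : (ℕ → List Eqn) → ℕ → α → Bool) (m : ℕ) (w : List ℕ) (C : ℕ)
    (sy : List (Bool × ℕ × List ℕ)) (st : List (ℕ × ℕ × ℕ × ℕ × ℕ × ℕ)) (D : ℕ → List (ℕ × ℕ)) (i : ℕ)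
    (N : QH α) : Bool :=
  match N with
    | QH.g2 d f g al be ga ρ σ bb X => geo2Q m w C d f g al be ga ρ σ bb X (D i)
    | QH.n N => chkG ck m w C sy st D i N

end Pool.Agent.Lib_MP_fa6e45
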