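import Pool.Agent.Lib_MP_fa6e45.RW0
import Pool.Agent.Lib_MP_fa6e45.G20

/-!
MP_fa6e45_co, stage 9: raw data of certificates, the nodes of a certificate from its raw data.
-/

namespace Pool.Agent.Lib_MP_fa6e45

/-- the children -/
noncomputable def rwH : List RH → List HQ :=
  List.rec (motive := fun _ => List HQ) []
    (fun c _ ih => RH.rec (motive := fun _ => HQ) (fun j l => HQ.con j l) (fun i g ls => HQ.ref i g ls) c :: ih)

/-- the node with the raw data `N`; `tab` is the table of the other nodes, `d` is not used -/
noncomputable def rwN {α : Type} (d : QN α) (tab : List (QN α)) (N : RN) : QH α :=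
  RN.rec (motive := fun _ => QH α) (fun i => QH.n (QG.q (nthF d tab i)))
    (fun u L f al be W H q cvg ch => QH.n (QG.q (QN.lp u L f al be W H q cvg (rwH ch))))
    (fun D f al be ro bb cs => QH.n (QG.g D f al be ro bb cs))
    (fun D f g al be ga ro si bb X => QH.g2 D f g al be ga ro si bb X) N

/-- the nodes with the raw data `l` -/
noncomputable def rwL {α : Type} (d : QN α) (tab : List (QN α)) : List RN → List (QH α) :=
  List.rec (motive := fun _ => List (QH α)) [] (fun N _ ih => rwN d tab N :: ih)

theorem rwL_append {α : Type} (d : QN α) (tab : List (QN α)) (l l' : List RN) :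
    rwL d tab (l ++ l') = rwL d tab l ++ rwL d tab l' := by
  induction l with
  | nil => rfl
  | cons N l ih =>
    show rwN d tab N :: rwL d tab (l ++ l') = _
    rw [ih]
    rfl

end Pool.Agent.Lib_MP_fa6e45
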