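import Pool.Agent.Lib_MP_fa6e45.CQR0
import Pool.Agent.Lib_MP_fa6e45.RW1
import Pool.Agent.Lib_MP_fa6e45.CQY1

/-!
MP_fa6e45_co, stage 9: the certificates for the theorem T6 from their raw data.
-/

namespace Pool.Agent.Lib_MP_fa6e45

/-- element number `i` of a list in blocks of `16` -/
noncomputable def nt16 {α : Type} (d : α) (l : List (List α)) (i : ℕ) : α :=
  nthF d (nthF [] l (Nat.div i 16)) (Nat.mod i 16)

/-- the node with the raw data `N`; `tab` is the table of the other nodes, `d` is not used -/
noncomputable def rawQ {α : Type} (d : QN α) (tab : List (List (QN α))) (N : RN) : QN α :=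
  RN.rec (motive := fun _ => QN α) (fun i => nt16 d tab i)
    (fun u L f al be W H q cvg ch => QN.lp u L f al be W H q cvg (rwH ch))
    (fun _ _ _ _ _ _ _ => d) (fun _ _ _ _ _ _ _ _ _ _ => d) N

/-- the nodes with the raw data `l` -/
noncomputable def rawQL {α : Type} (d : QN α) (tab : List (List (QN α))) : List RN → List (QN α) :=
  List.rec (motive := fun _ => List (QN α)) [] (fun N _ ih => rawQ d tab N :: ih)

/-- the node with the raw data `N`, with numerical checks -/
noncomputable def rawG {α : Type} (d : QN α) (tab : List (List (QN α))) (N : RN) : QG α :=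
  RN.rec (motive := fun _ => QG α) (fun i => QG.q (nt16 d tab i))
    (fun u L f al be W H q cvg ch => QG.q (QN.lp u L f al be W H q cvg (rwH ch)))
    (fun D f al be ro bb cs => QG.g D f al be ro bb cs) (fun _ _ _ _ _ _ _ _ _ _ => QG.q d) N

/-- the nodes with the raw data `l`, with numerical checks -/
noncomputable def rawGL {α : Type} (d : QN α) (tab : List (List (QN α))) : List RN → List (QG α) :=
  List.rec (motive := fun _ => List (QG α)) [] (fun N _ ih => rawG d tab N :: ih)

/-- an old node which is not used -/
noncomputable def dN : QN PN := QN.old [] (PN.z (ZN.x (XN.old (TN.leafM 0 [] [] []))))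

/-- the certificate with the raw data `C`; `sy`, `tab`, `xt` are the tables of the lists of symmetries, of the other
nodes, and of the other certificates -/
noncomputable def rawM (sy : List (List (Bool × ℕ × List ℕ))) (tab : List (List (QN PN))) (xt : List CertX)
    (C : RCq) : CertM :=
  RCq.rec (motive := fun _ => CertM) (fun i => CertM.x (nthF ⟨[], [], [], []⟩ xt i))
    (fun w s t D N => CertM.q ⟨w, nthF [] sy s, t, D, rawQL dN tab N⟩) C

/-- the certificates with the raw data `l` -/
noncomputable def rawML (sy : List (List (Bool × ℕ × List ℕ))) (tab : List (List (QN PN))) (xt : List CertX) :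
    List RCq → List CertM :=
  List.rec (motive := fun _ => List CertM) [] (fun C _ ih => rawM sy tab xt C :: ih)

end Pool.Agent.Lib_MP_fa6e45
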