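import Pool.Agent.Lib_MP_fa6e45.RW0

/-!
MP_fa6e45_co, stage 9: raw data of certificates for the theorem T6 (generated by a program).
-/

namespace Pool.Agent.Lib_MP_fa6e45

/-- equations -/
noncomputable def d3_0 : List (List (List (List (Nat × Nat)))) :=
  [[[[(nat_lit 0x1000000000003000000000000000000000003,nat_lit 0)],[(nat_lit 0x1000000000002000000000000000000000002,
    nat_lit 0)],[(nat_lit 0x2000000000003000000000000000000000003,nat_lit 0)],[]]]]

end Pool.Agent.Lib_MP_fa6e45
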