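import Pool.Agent.Lib_MP_fa6e45.CX0

/-!
MP_fa6e45_co, stage 7: the tables of the leaves with several copies of the tile in a lattice cell (generated by a
program): glued arcs `(j, k, same orientation)`, and equations for the chord angles. The last three tables for six arcs
describe polygons which do not exist or are treated by hand.
-/

namespace Pool.Agent.Lib_MP_fa6e45

/-- tables for `3` arcs -/
def ttU3 : List TorT :=
  []

/-- glued arcs and equations -/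
def torU4_0 : TorT :=
  ⟨[(0, 1, true), (0, 3, true), (1, 2, true), (2, 3, true)],
    [([0, 2, 0, 2], 2), ([2, 0, 2, 0], 2)]⟩

/-- glued arcs and equations -/
def torU4_1 : TorT :=
  ⟨[(0, 1, true), (0, 3, false), (1, 2, true), (2, 3, false)],
    [([1, 0, 2, 1], 2), ([1, 2, 0, 1], 2)]⟩

/-- glued arcs and equations -/
def torU4_2 : TorT :=
  ⟨[(0, 1, true), (0, 3, false), (1, 2, true), (2, 3, false)],
    [([0, 0, 3, 0], 2), ([0, 6, 0, 0], 2), ([1, 1, 1, 1], 2), ([2, 0, 0, 2], 2)]⟩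

/-- tables for `4` arcs -/
def ttU4 : List TorT :=
  [torU4_0, torU4_1, torU4_2]

/-- glued arcs and equations -/
def torU5_0 : TorT :=
  ⟨[(0, 0, true), (1, 1, true), (1, 2, true), (2, 4, true), (3, 3, true), (3, 4, true)],
    [([0, 0, 0, 1, 2], 2), ([1, 1, 0, 1, 0], 2), ([1, 1, 2, 0, 0], 2)]⟩

/-- glued arcs and equations -/
def torU5_1 : TorT :=
  ⟨[(0, 0, true), (0, 1, true), (1, 4, true), (2, 2, true), (2, 3, true), (3, 3, true), (4, 4, true)],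
    [([0, 0, 1, 2, 1], 2), ([1, 0, 1, 0, 1], 2), ([1, 2, 0, 0, 0], 2)]⟩

/-- glued arcs and equations -/
def torU5_2 : TorT :=
  ⟨[(0, 0, true), (0, 1, true), (1, 4, true), (2, 2, true), (2, 4, true), (3, 3, true)],
    [([0, 0, 1, 2, 2], 2), ([1, 0, 1, 0, 0], 2), ([1, 2, 0, 0, 0], 2)]⟩

/-- glued arcs and equations -/
def torU5_3 : TorT :=
  ⟨[(0, 1, true), (0, 4, true), (1, 3, true), (2, 3, true), (2, 4, true)],
    [([0, 0, 1, 2, 1], 2), ([0, 2, 0, 0, 1], 2), ([2, 0, 1, 0, 0], 2)]⟩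

/-- glued arcs and equations -/
def torU5_4 : TorT :=
  ⟨[(0, 0, true), (0, 1, true), (1, 3, true), (2, 2, true), (2, 4, true), (3, 3, true), (4, 4, true)],
    [([0, 0, 1, 2, 1], 2), ([1, 0, 1, 0, 0], 2), ([1, 2, 0, 0, 1], 2)]⟩

/-- glued arcs and equations -/
def torU5_5 : TorT :=
  ⟨[(0, 1, true), (0, 3, true), (1, 4, true), (2, 3, true), (2, 4, true)],
    [([0, 0, 1, 0, 1], 2), ([1, 0, 1, 0, 0], 2), ([1, 2, 0, 2, 1], 2)]⟩

/-- glued arcs and equations -/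
def torU5_6 : TorT :=
  ⟨[(0, 2, true), (0, 3, false), (1, 2, false), (1, 3, true), (4, 4, false)],
    [([0, 1, 0, 0, 2], 2), ([0, 1, 2, 1, 0], 2), ([2, 0, 0, 1, 0], 2)]⟩

/-- glued arcs and equations -/
def torU5_7 : TorT :=
  ⟨[(0, 0, true), (0, 1, false), (1, 1, true), (2, 2, true), (2, 3, false), (3, 3, true), (4, 4, false)],
    [([0, 0, 0, 1, 2], 2), ([0, 1, 2, 1, 0], 2), ([2, 1, 0, 0, 0], 2)]⟩

/-- glued arcs and equations -/
def torU5_8 : TorT :=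
  ⟨[(0, 1, true), (0, 2, true), (0, 4, true), (1, 1, true), (1, 2, true), (2, 3, true), (2, 4, true), (3, 3,
    true), (3, 4, true)],
    [([0, 0, 0, 1, 2], 2), ([0, 1, 0, 1, 1], 2), ([0, 1, 1, 0, 1], 2), ([0, 2, 1, 0, 0], 2), ([2, 0, 0, 2, 0], 2),
    ([2, 0, 2, 0, 0], 2)]⟩

/-- glued arcs and equations -/
def torU5_9 : TorT :=
  ⟨[(0, 1, false), (0, 3, false), (1, 2, true), (2, 3, false), (4, 4, true)],
    [([0, 1, 2, 1, 0], 2), ([1, 0, 0, 1, 1], 2), ([1, 1, 0, 0, 1], 2)]⟩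

/-- glued arcs and equations -/
def torU5_10 : TorT :=
  ⟨[(0, 1, false), (0, 3, false), (1, 2, false), (2, 3, true), (4, 4, true)],
    [([0, 1, 1, 0, 0], 2), ([1, 0, 1, 2, 1], 2), ([1, 1, 0, 0, 1], 2)]⟩

/-- glued arcs and equations -/
def torU5_11 : TorT :=
  ⟨[(0, 1, false), (0, 3, true), (1, 2, false), (2, 3, false), (4, 4, true)],
    [([0, 0, 1, 1, 0], 2), ([0, 1, 1, 0, 0], 2), ([2, 1, 0, 1, 2], 2)]⟩

/-- glued arcs and equations -/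
def torU5_12 : TorT :=
  ⟨[(0, 1, false), (0, 2, false), (1, 3, false), (2, 3, true), (4, 4, false)],
    [([0, 0, 1, 0, 2], 2), ([0, 1, 0, 2, 0], 2), ([2, 1, 1, 0, 0], 2)]⟩

/-- glued arcs and equations -/
def torU5_13 : TorT :=
  ⟨[(0, 2, true), (0, 3, false), (1, 1, true), (1, 2, true), (3, 3, true), (4, 4, false)],
    [([0, 1, 0, 1, 2], 2), ([0, 1, 2, 0, 0], 2), ([2, 0, 0, 1, 0], 2)]⟩

/-- glued arcs and equations -/
def torU5_14 : TorT :=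
  ⟨[(0, 1, true), (0, 2, true), (1, 1, true), (2, 3, false), (3, 3, true), (4, 4, false)],
    [([0, 0, 0, 1, 2], 2), ([0, 2, 1, 0, 0], 2), ([2, 0, 1, 1, 0], 2)]⟩

/-- glued arcs and equations -/
def torU5_15 : TorT :=
  ⟨[(0, 1, true), (0, 2, false), (1, 1, true), (2, 3, false), (3, 3, true), (4, 4, false)],
    [([0, 0, 0, 1, 2], 2), ([0, 2, 1, 1, 0], 2), ([2, 0, 1, 0, 0], 2)]⟩

/-- glued arcs and equations -/
def torU5_16 : TorT :=
  ⟨[(0, 0, true), (0, 2, false), (1, 1, true), (1, 3, false), (2, 3, true), (4, 4, false)],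
    [([0, 0, 1, 0, 2], 2), ([0, 1, 0, 2, 0], 2), ([2, 1, 1, 0, 0], 2)]⟩

/-- glued arcs and equations -/
def torU5_17 : TorT :=
  ⟨[(0, 1, false), (0, 3, false), (1, 2, false), (2, 3, false), (4, 4, true)],
    [([0, 0, 2, 2, 0], 2), ([0, 2, 2, 0, 0], 2), ([1, 0, 0, 1, 1], 2), ([1, 1, 0, 0, 1], 2)]⟩

/-- glued arcs and equations -/
def torU5_18 : TorT :=
  ⟨[(0, 1, false), (0, 3, false), (1, 2, false), (2, 3, false), (4, 4, true)],
    [([0, 0, 2, 2, 0], 2), ([0, 1, 1, 0, 0], 2), ([1, 1, 0, 0, 1], 2), ([2, 0, 0, 2, 2], 2)]⟩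

/-- glued arcs and equations -/
def torU5_19 : TorT :=
  ⟨[(0, 1, false), (0, 3, false), (1, 2, false), (2, 3, false), (4, 4, true)],
    [([0, 0, 1, 1, 0], 2), ([0, 1, 1, 0, 0], 2), ([2, 0, 0, 2, 2], 2), ([2, 2, 0, 0, 2], 2)]⟩

/-- glued arcs and equations -/
def torU5_20 : TorT :=
  ⟨[(0, 0, true), (0, 2, true), (1, 1, true), (1, 2, true), (3, 4, false), (3, 4, true)],
    [([0, 1, 2, 0, 0], 2), ([1, 0, 0, 1, 2], 2), ([1, 1, 0, 1, 0], 2)]⟩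

/-- glued arcs and equations -/
def torU5_21 : TorT :=
  ⟨[(0, 0, true), (0, 1, true), (1, 3, false), (2, 4, false), (2, 4, true), (3, 3, true)],
    [([0, 0, 1, 1, 2], 2), ([1, 0, 1, 0, 0], 2), ([1, 2, 0, 1, 0], 2)]⟩

/-- tables for `5` arcs -/
def ttU5 : List TorT :=
  [torU5_0, torU5_1, torU5_2, torU5_3, torU5_4, torU5_5, torU5_6, torU5_7, torU5_8, torU5_9, torU5_10, torU5_11,
    torU5_12, torU5_13, torU5_14, torU5_15, torU5_16, torU5_17, torU5_18, torU5_19, torU5_20, torU5_21]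

/-- glued arcs and equations -/
def torU6_0 : TorT :=
  ⟨[(0, 3, true), (0, 4, true), (1, 3, true), (1, 5, true), (2, 4, true), (2, 5, true)],
    [([0, 0, 1, 1, 0, 1], 2), ([0, 1, 0, 1, 1, 0], 2), ([1, 0, 1, 0, 0, 1], 2), ([1, 1, 0, 0, 1, 0], 2)]⟩

/-- glued arcs and equations -/
def torU6_1 : TorT :=
  ⟨[(0, 2, true), (0, 5, false), (1, 3, false), (2, 4, true), (4, 5, false)],
    [([0, 0, 1, 0, 1, 1], 2), ([0, 1, 1, 1, 1, 0], 2), ([1, 0, 0, 0, 0, 1], 2), ([1, 1, 0, 1, 0, 0], 2)]⟩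

/-- glued arcs and equations -/
def torU6_2 : TorT :=
  ⟨[(0, 3, false), (1, 2, false), (1, 4, true), (2, 5, true), (4, 5, false)],
    [([0, 1, 0, 0, 1, 1], 2), ([0, 1, 1, 0, 1, 0], 2), ([1, 0, 0, 1, 0, 1], 2), ([1, 0, 1, 1, 0, 0], 2)]⟩

/-- glued arcs and equations -/
def torU6_3 : TorT :=
  ⟨[(0, 1, false), (0, 3, false), (1, 2, false), (2, 3, false), (4, 5, false)],
    [([0, 0, 1, 1, 0, 0], 2), ([0, 1, 1, 0, 0, 0], 2), ([1, 0, 0, 1, 1, 1], 2), ([1, 1, 0, 0, 1, 1], 2)]⟩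

/-- glued arcs and equations -/
def torU6_4 : TorT :=
  ⟨[(0, 0, true), (0, 1, true), (1, 4, true), (2, 3, true), (2, 4, true), (3, 3, true), (5, 5, true)],
    [([0, 0, 0, 2, 1, 0], 2), ([0, 0, 1, 0, 1, 0], 2), ([1, 0, 1, 0, 0, 1], 2), ([1, 2, 0, 0, 0, 1], 2)]⟩

/-- glued arcs and equations -/
def torU6_5 : TorT :=
  ⟨[(0, 0, true), (0, 4, true), (1, 3, true), (1, 4, true), (2, 2, true), (2, 3, true), (5, 5, true)],
    [([0, 0, 1, 0, 1, 0], 2), ([0, 0, 1, 2, 0, 0], 2), ([0, 1, 0, 0, 1, 0], 2), ([2, 1, 0, 0, 0, 2], 2)]⟩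

/-- glued arcs and equations -/
def torU6_6 : TorT :=
  ⟨[(0, 1, true), (0, 2, true), (1, 1, true), (2, 4, true), (3, 3, true), (3, 4, true), (5, 5, true)],
    [([0, 0, 0, 1, 2, 0], 2), ([0, 2, 1, 0, 0, 0], 2), ([1, 0, 0, 1, 0, 1], 2), ([1, 0, 1, 0, 0, 1], 2)]⟩

/-- glued arcs and equations -/
def torU6_7 : TorT :=
  ⟨[(0, 1, false), (0, 3, false), (1, 2, false), (2, 3, false), (4, 4, true), (5, 5, true)],
    [([0, 0, 1, 1, 0, 0], 2), ([0, 1, 1, 0, 0, 0], 2), ([1, 0, 0, 1, 1, 1], 2), ([1, 1, 0, 0, 1, 1], 2)]⟩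

/-- glued arcs and equations -/
def torU6_8 : TorT :=
  ⟨[(0, 0, true), (0, 3, true), (1, 2, true), (1, 3, true), (2, 2, true), (4, 4, true), (4, 5, true), (5, 5, true)],
    [([0, 0, 2, 1, 0, 0], 2), ([0, 1, 0, 1, 0, 0], 2), ([1, 0, 0, 0, 1, 2], 2), ([1, 1, 0, 0, 1, 0], 2)]⟩

/-- glued arcs and equations -/
def torU6_9 : TorT :=
  ⟨[(0, 1, false), (0, 4, false), (1, 2, false), (2, 4, false), (3, 3, true), (5, 5, true)],
    [([0, 0, 1, 1, 1, 0], 2), ([0, 1, 1, 0, 0, 0], 2), ([1, 0, 0, 1, 1, 1], 2), ([1, 1, 0, 0, 0, 1], 2)]⟩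

/-- glued arcs and equations -/
def torU6_10 : TorT :=
  ⟨[(0, 1, false), (0, 4, false), (1, 3, false), (2, 2, true), (3, 4, false), (5, 5, true)],
    [([0, 0, 1, 1, 1, 0], 2), ([0, 1, 1, 1, 0, 0], 2), ([1, 0, 0, 0, 1, 1], 2), ([1, 1, 0, 0, 0, 1], 2)]⟩

/-- glued arcs and equations -/
def torU6_11 : TorT :=
  ⟨[(0, 0, true), (0, 1, false), (1, 1, true), (2, 2, false), (3, 3, true), (3, 4, false), (4, 4, true), (5, 5,
    false)],
    [([0, 0, 0, 0, 1, 2], 2), ([0, 0, 0, 2, 1, 0], 2), ([0, 1, 2, 0, 0, 0], 2), ([2, 1, 0, 0, 0, 0], 2)]⟩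

/-- glued arcs and equations -/
def torU6_12 : TorT :=
  ⟨[(0, 1, true), (0, 3, true), (1, 1, true), (2, 2, true), (2, 5, true), (3, 3, true), (4, 4, true), (4, 5, true)],
    [([0, 0, 0, 1, 1, 2], 2), ([0, 2, 1, 1, 0, 0], 2), ([1, 0, 0, 0, 1, 0], 2), ([1, 0, 1, 0, 0, 0], 2)]⟩

/-- glued arcs and equations -/
def torU6_13 : TorT :=
  ⟨[(0, 1, true), (0, 2, true), (1, 1, true), (2, 2, true), (3, 3, true), (3, 5, true), (4, 4, true), (4, 5, true)],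
    [([0, 0, 0, 0, 1, 2], 2), ([0, 2, 1, 0, 0, 0], 2), ([1, 0, 0, 1, 1, 0], 2), ([1, 0, 1, 1, 0, 0], 2)]⟩

/-- glued arcs and equations -/
def torU6_14 : TorT :=
  ⟨[(0, 0, true), (0, 2, true), (1, 1, true), (1, 2, true), (3, 3, true), (3, 5, true), (4, 4, true), (4, 5, true)],
    [([0, 0, 0, 0, 1, 2], 2), ([0, 1, 2, 0, 0, 0], 2), ([1, 0, 0, 1, 1, 0], 2), ([1, 1, 0, 1, 0, 0], 2)]⟩

/-- glued arcs and equations -/
def torU6_15 : TorT :=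
  ⟨[(0, 2, true), (0, 4, true), (1, 4, true), (1, 5, true), (2, 3, true), (3, 5, true)],
    [([0, 0, 1, 0, 1, 0], 2), ([0, 1, 0, 0, 1, 1], 2), ([1, 0, 0, 2, 0, 0], 2), ([1, 1, 1, 0, 0, 1], 2)]⟩

/-- glued arcs and equations -/
def torU6_16 : TorT :=
  ⟨[(0, 3, true), (0, 4, false), (1, 3, false), (1, 4, true), (2, 2, false), (5, 5, false)],
    [([0, 0, 2, 0, 1, 0], 2), ([0, 1, 0, 0, 0, 2], 2), ([0, 1, 0, 2, 0, 0], 2), ([2, 0, 0, 0, 1, 0], 2)]⟩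

/-- glued arcs and equations -/
def torU6_17 : TorT :=
  ⟨[(0, 1, true), (0, 3, true), (1, 4, true), (2, 4, true), (2, 5, true), (3, 5, true)],
    [([0, 0, 1, 0, 1, 1], 2), ([0, 2, 0, 1, 0, 1], 2), ([1, 0, 0, 1, 1, 0], 2), ([1, 0, 1, 0, 0, 0], 2)]⟩

/-- glued arcs and equations -/
def torU6_18 : TorT :=
  ⟨[(0, 1, true), (0, 3, true), (0, 4, false), (1, 2, true), (1, 5, false), (2, 4, false), (3, 5, false)],
    [([0, 0, 0, 1, 0, 1], 2), ([0, 1, 0, 0, 0, 1], 2), ([0, 2, 0, 1, 0, 0], 2), ([1, 0, 2, 0, 1, 0], 2), ([2, 0, 1,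
    0, 2, 0], 2)]⟩

/-- glued arcs and equations -/
def torU6_19 : TorT :=
  ⟨[(0, 1, true), (0, 4, true), (1, 3, true), (2, 2, true), (2, 5, true), (3, 4, true), (5, 5, true)],
    [([0, 0, 1, 1, 0, 0], 2), ([0, 1, 0, 0, 2, 0], 2), ([0, 2, 0, 0, 1, 0], 2), ([1, 0, 0, 1, 0, 2], 2), ([2, 0, 1,
    0, 0, 1], 2)]⟩

/-- glued arcs and equations -/
def torU6_20 : TorT :=
  ⟨[(0, 1, true), (0, 3, false), (1, 4, false), (2, 5, false), (2, 5, true), (3, 4, true)],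
    [([0, 0, 1, 0, 0, 1], 2), ([0, 1, 0, 0, 2, 0], 2), ([0, 2, 0, 0, 1, 0], 2), ([1, 0, 0, 2, 0, 1], 2), ([2, 0, 1,
    1, 0, 0], 2)]⟩

/-- glued arcs and equations -/
def torU6_21 : TorT :=
  ⟨[(0, 2, true), (0, 4, false), (1, 4, false), (1, 5, false), (2, 3, false), (3, 5, true)],
    [([0, 1, 0, 0, 1, 1], 2), ([0, 1, 1, 0, 0, 1], 2), ([1, 0, 0, 1, 1, 0], 2), ([1, 0, 1, 1, 0, 0], 2)]⟩

/-- glued arcs and equations -/
def torU6_22 : TorT :=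
  ⟨[(0, 3, true), (0, 5, false), (1, 2, true), (1, 4, false), (2, 5, false), (3, 4, false)],
    [([0, 0, 2, 0, 0, 1], 2), ([0, 1, 0, 1, 0, 0], 2), ([1, 0, 0, 1, 1, 1], 2), ([1, 1, 0, 0, 1, 0], 2)]⟩

/-- glued arcs and equations -/
def torU6_23 : TorT :=
  ⟨[(0, 1, true), (0, 3, false), (1, 4, false), (2, 3, false), (2, 5, false), (4, 5, true)],
    [([0, 0, 1, 0, 0, 2], 2), ([0, 2, 0, 0, 1, 0], 2), ([1, 0, 0, 1, 1, 0], 2), ([1, 0, 1, 1, 0, 0], 2)]⟩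

/-- glued arcs and equations -/
def torU6_24 : TorT :=
  ⟨[(0, 1, true), (0, 3, true), (1, 2, false), (2, 5, true), (3, 4, false), (4, 5, true)],
    [([0, 0, 0, 1, 1, 2], 2), ([0, 2, 1, 1, 0, 0], 2), ([1, 0, 0, 0, 1, 0], 2), ([1, 0, 1, 0, 0, 0], 2)]⟩

/-- glued arcs and equations -/
def torU6_25 : TorT :=
  ⟨[(0, 2, true), (0, 3, false), (1, 1, true), (1, 2, true), (3, 4, false), (4, 4, true), (5, 5, false)],
    [([0, 0, 0, 0, 1, 2], 2), ([0, 1, 0, 1, 1, 0], 2), ([0, 1, 2, 0, 0, 0], 2), ([2, 0, 0, 1, 0, 0], 2)]⟩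

/-- glued arcs and equations -/
def torU6_26 : TorT :=
  ⟨[(0, 3, true), (0, 5, false), (1, 2, true), (1, 4, true), (2, 3, true), (4, 5, false)],
    [([0, 0, 2, 0, 1, 0], 2), ([0, 1, 0, 2, 0, 0], 2), ([1, 0, 0, 0, 1, 1], 2), ([1, 1, 0, 0, 0, 1], 2)]⟩

/-- glued arcs and equations -/
def torU6_27 : TorT :=
  ⟨[(0, 1, true), (0, 5, false), (1, 4, true), (2, 3, false), (2, 5, false), (3, 4, false)],
    [([0, 0, 0, 1, 1, 0], 2), ([0, 0, 1, 0, 1, 1], 2), ([1, 0, 1, 1, 0, 0], 2), ([1, 2, 0, 0, 0, 1], 2)]⟩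

/-- glued arcs and equations -/
def torU6_28 : TorT :=
  ⟨[(0, 3, true), (0, 4, false), (1, 2, true), (1, 3, true), (2, 2, true), (4, 4, true), (5, 5, false)],
    [([0, 0, 2, 1, 0, 0], 2), ([0, 1, 0, 0, 1, 2], 2), ([0, 1, 0, 1, 0, 0], 2), ([2, 0, 0, 0, 1, 0], 2)]⟩

/-- glued arcs and equations -/
def torU6_29 : TorT :=
  ⟨[(0, 2, true), (0, 3, true), (1, 1, true), (1, 2, true), (3, 4, false), (4, 4, true), (5, 5, false)],
    [([0, 0, 0, 0, 1, 2], 2), ([0, 1, 0, 1, 0, 0], 2), ([0, 1, 2, 0, 0, 0], 2), ([2, 0, 0, 1, 1, 0], 2)]⟩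

/-- glued arcs and equations -/
def torU6_30 : TorT :=
  ⟨[(0, 0, true), (0, 3, true), (1, 2, true), (1, 3, true), (2, 2, true), (4, 5, false), (4, 5, true)],
    [([0, 0, 2, 1, 0, 0], 2), ([0, 1, 0, 1, 0, 0], 2), ([1, 0, 0, 0, 1, 2], 2), ([1, 1, 0, 0, 1, 0], 2)]⟩

/-- glued arcs and equations -/
def torU6_31 : TorT :=
  ⟨[(0, 2, true), (0, 3, true), (1, 1, true), (1, 3, true), (2, 2, true), (4, 5, true)],
    [([0, 0, 0, 0, 0, 4], 2), ([0, 0, 1, 1, 0, 0], 2), ([0, 1, 1, 0, 0, 0], 2), ([1, 1, 0, 1, 1, 0], 2), ([2, 0, 0,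
    0, 2, 0], 2)]⟩

/-- glued arcs and equations -/
def torU6_32 : TorT :=
  ⟨[(0, 3, true), (0, 5, false), (1, 2, true), (1, 4, false), (2, 5, true), (3, 4, true)],
    [([0, 0, 0, 1, 0, 1], 2), ([0, 1, 0, 1, 0, 0], 2), ([1, 0, 2, 0, 0, 1], 2), ([1, 1, 0, 0, 2, 0], 2)]⟩

/-- glued arcs and equations -/
def torU6_33 : TorT :=
  ⟨[(0, 1, false), (0, 3, true), (1, 2, false), (2, 3, false), (4, 5, true)],
    [([0, 0, 0, 0, 0, 4], 2), ([0, 0, 1, 1, 0, 0], 2), ([0, 1, 1, 0, 0, 0], 2), ([1, 1, 0, 1, 1, 0], 2), ([2, 0, 0,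
    0, 2, 0], 2)]⟩

/-- glued arcs and equations -/
def torUfc : TorT :=
  ⟨[(0, 0, true), (0, 1, true), (0, 2, true), (0, 3, true), (0, 4, true), (0, 5, true), (1, 1, true), (1, 2,
    true), (1, 3, true), (1, 4, true), (1, 5, true), (2, 2, true), (2, 3, true), (2, 4, true), (2, 5, true),
    (3, 3, true), (3, 4, true), (3, 5, true), (4, 4, true), (4, 5, true), (5, 5, true)],
    [([3, 0, 0, 0, -6, 0], -2), ([0, 3, 0, 0, 3, 0], 4), ([0, 0, 1, 0, 2, 0], 2), ([0, 0, 0, 3, 0, 0], 2), ([0, 0,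
    0, 0, 0, 3], 2)]⟩

/-- glued arcs and equations -/
def torU49 : TorT :=
  ⟨[(0, 1, true), (0, 3, true), (0, 5, false), (1, 2, false), (1, 4, false)],
    [([1, 0, 0, 0, 1, 1], 2), ([0, 1, 0, 0, 0, -1], 0), ([0, 0, 1, 0, -1, 1], 0), ([0, 0, 0, 1, 1, 0], 2)]⟩

/-- glued arcs and equations -/
def torU916 : TorT :=
  ⟨[(0, 1, true), (0, 3, true), (2, 4, true), (2, 5, true)],
    [([0, 3, 0, 0, 0, 0], 2), ([0, 0, 1, 0, -1, 0], 0), ([0, 0, 0, 1, 1, 0], 1), ([0, 0, 0, 0, 0, 3], 1)]⟩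

/-- tables for `6` arcs -/
def ttU6 : List TorT :=
  [torU6_0, torU6_1, torU6_2, torU6_3, torU6_4, torU6_5, torU6_6, torU6_7, torU6_8, torU6_9, torU6_10, torU6_11,
    torU6_12, torU6_13, torU6_14, torU6_15, torU6_16, torU6_17, torU6_18, torU6_19, torU6_20, torU6_21,
    torU6_22, torU6_23, torU6_24, torU6_25, torU6_26, torU6_27, torU6_28, torU6_29, torU6_30, torU6_31,
    torU6_32, torU6_33, torUfc, torU49, torU916]

end Pool.Agent.Lib_MP_fa6e45
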