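import Pool.Agent.Lib_MP_fa6e45.CT5
import Pool.Agent.Lib_MP_fa6e45.CXT

/-!
MP_fa6e45_co, stage 7: tori for m = 5 (found by computer) and the proof that they give periodic tilings.
-/

namespace Pool.Agent.Lib_MP_fa6e45

/-- the torus -/
def ttU5_0 : TT where
  k := 4
  rf := [false, false, false, false]
  tau := [5, 6, 11, 19, 12, 0, 1, 16, 14, 17, 15, 2, 4, 18, 8, 10, 7, 9, 13, 3]
  par := [0, 0, 2, 3]
  stars := [[0, 12, 2, 6], [1, 5, 17, 7], [3, 11, 15], [4, 19, 13], [8, 16, 10], [9, 14, 18]]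
  word := [[], [0, 2, 1], [], [], [3], [], [0, 3, 1], [0], [0], [0, 2], [], [], [2], [2], [1], [], [1], [3, 1],
    [3], []]
  rank := [0, 3, 0, 0, 1, 0, 3, 2, 0, 1, 1, 0, 1, 0, 0, 1, 2, 1, 0, 0]
  just := [0, 1, 0, 0, 3, 0, 1, 4, 0, 5, 2, 0, 3, 0, 0, 2, 4, 5, 0, 0]
  gA := 8
  gB := 13
  fin := 0
  sid := [0, 1, 0, 2, 3, 1, 0, 1, 4, 5, 4, 2, 0, 3, 5, 2, 4, 1, 5, 3]
  off := [(0, 0), (0, 0), (0, 1), (0, 0), (0, 0), (0, 0), (0, 0), (0, -1), (0, 0), (0, 0), (-1, 0), (0, 0), (0,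
    1), (0, 1), (-1, 0), (0, 0), (-1, 0), (-1, -1), (-1, -1), (0, 0)]

theorem torU5_0_ok : torU5_0.OK 5 := TT.leaf_ok (T := ttU5_0) (by decide +kernel)

/-- the torus -/
def ttU5_1 : TT where
  k := 4
  rf := [false, false, false, false]
  tau := [5, 10, 18, 8, 16, 0, 15, 13, 3, 11, 1, 9, 17, 7, 19, 6, 4, 12, 2, 14]
  par := [0, 0, 1, 2]
  stars := [[0, 16, 6], [1, 5, 11], [2, 10, 19], [3, 18, 12, 9], [4, 8, 13, 17], [7, 15, 14]]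
  word := [[], [], [], [3], [3, 0, 2], [], [0], [0], [2], [], [], [], [2], [1], [], [1], [3, 1, 2], [3], [], []]
  rank := [0, 0, 0, 2, 3, 0, 2, 0, 2, 1, 0, 1, 0, 0, 1, 2, 3, 0, 0, 1]
  just := [0, 0, 0, 3, 4, 0, 5, 0, 3, 1, 0, 1, 0, 0, 2, 5, 4, 0, 0, 2]
  gA := 7
  gB := 12
  fin := 0
  sid := [0, 1, 2, 3, 4, 1, 0, 5, 4, 3, 2, 1, 3, 4, 5, 5, 0, 4, 3, 2]
  off := [(0, 0), (0, 0), (0, 0), (0, 0), (0, 0), (0, 0), (0, 0), (0, 0), (0, 1), (0, 1), (0, 0), (0, 0), (0,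
    1), (-1, 1), (-1, 0), (-1, 0), (-1, 0), (-1, 0), (0, 0), (0, 0)]

theorem torU5_1_ok : torU5_1.OK 5 := TT.leaf_ok (T := ttU5_1) (by decide +kernel)

/-- the torus -/
def ttU5_2 : TT where
  k := 4
  rf := [false, false, false, false]
  tau := [5, 10, 14, 8, 16, 0, 15, 19, 3, 11, 1, 9, 17, 18, 2, 6, 4, 12, 13, 7]
  par := [0, 0, 1, 4]
  stars := [[0, 16, 6], [1, 5, 11], [2, 10], [3, 14, 18, 12, 9], [4, 8, 19, 13, 17], [7, 15]]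
  word := [[], [], [], [2, 1], [], [], [0, 3, 1, 2], [0, 3, 1, 2], [0, 3], [], [], [], [0], [2], [], [3, 0, 2,
    1], [], [1], [3], [3, 0, 2, 1]]
  rank := [0, 0, 1, 2, 0, 0, 4, 3, 2, 1, 0, 1, 0, 0, 1, 4, 0, 0, 0, 3]
  just := [0, 0, 2, 3, 0, 0, 5, 4, 3, 1, 0, 1, 0, 0, 2, 5, 0, 0, 0, 4]
  gA := 12
  gB := 13
  fin := 0
  sid := [0, 1, 2, 3, 4, 1, 0, 5, 4, 3, 2, 1, 3, 4, 3, 5, 0, 4, 3, 4]
  off := [(0, 0), (0, 0), (0, 0), (0, 0), (0, 0), (0, 0), (0, 0), (0, 0), (1, -1), (1, -1), (0, 0), (0, 0), (1,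
    -1), (1, 0), (0, 0), (0, 0), (0, 0), (0, 0), (0, -1), (1, -1)]

theorem torU5_2_ok : torU5_2.OK 5 := TT.leaf_ok (T := ttU5_2) (by decide +kernel)

/-- the torus -/
def ttU5_3 : TT where
  k := 2
  rf := [false, false]
  tau := [6, 3, 8, 1, 5, 4, 0, 9, 2, 7]
  par := [0, 0]
  stars := [[0, 5, 7], [1, 6, 4], [2, 3, 8, 9]]
  word := [[], [0], [2], [1], [1], [0], [], [3, 1, 2], [3], [3, 0, 2]]
  rank := [0, 0, 0, 0, 1, 1, 0, 1, 0, 1]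
  just := [0, 0, 0, 0, 1, 1, 0, 2, 0, 2]
  gA := 1
  gB := 2
  fin := 0
  sid := [0, 1, 2, 2, 1, 0, 1, 0, 2, 2]
  off := [(0, 0), (0, 0), (0, 0), (-1, 0), (-1, 0), (1, 0), (0, 0), (0, 0), (-1, -1), (0, -1)]

theorem torU5_3_ok : torU5_3.OK 5 := TT.leaf_ok (T := ttU5_3) (by decide +kernel)

/-- the torus -/
def ttU5_4 : TT where
  k := 4
  rf := [false, false, false, false]
  tau := [5, 10, 14, 11, 9, 0, 15, 19, 16, 4, 1, 3, 17, 18, 2, 6, 8, 12, 13, 7]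
  par := [0, 0, 1, 6]
  stars := [[0, 9, 16, 6], [1, 5, 4, 11], [2, 10], [3, 14, 18, 12], [7, 15], [8, 19, 13, 17]]
  word := [[], [], [], [2, 1], [2, 1], [], [], [], [3, 0], [0, 3], [], [0, 3], [0], [2], [], [], [1, 2], [1],
    [3], []]
  rank := [0, 0, 1, 2, 3, 0, 0, 1, 2, 3, 0, 2, 0, 0, 1, 0, 2, 0, 0, 1]
  just := [0, 0, 2, 3, 1, 0, 0, 4, 5, 1, 0, 3, 0, 0, 2, 0, 5, 0, 0, 4]
  gA := 12
  gB := 13
  fin := 0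
  sid := [0, 1, 2, 3, 1, 1, 0, 4, 5, 0, 2, 1, 3, 5, 3, 4, 0, 5, 3, 5]
  off := [(0, 0), (0, 0), (0, 0), (0, 0), (-1, 1), (0, 0), (0, 0), (0, 0), (0, 0), (1, -1), (0, 0), (0, 0), (1,
    -1), (0, 1), (0, 0), (0, 0), (0, 0), (-1, 1), (0, -1), (0, 0)]

theorem torU5_4_ok : torU5_4.OK 5 := TT.leaf_ok (T := ttU5_4) (by decide +kernel)

/-- the torus -/
def ttU5_5 : TT where
  k := 2
  rf := [false, false]
  tau := [6, 9, 8, 5, 7, 3, 0, 4, 2, 1]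
  par := [0, 0]
  stars := [[0, 7], [1, 6, 3, 8, 4, 5], [2, 9]]
  word := [[], [0], [0], [2], [2, 1, 3, 0], [3], [], [1, 2, 0, 3], [1], [1]]
  rank := [0, 1, 0, 0, 2, 0, 0, 2, 0, 1]
  just := [0, 2, 0, 0, 1, 0, 0, 1, 0, 2]
  gA := 2
  gB := 3
  fin := 0
  sid := [0, 1, 2, 1, 1, 1, 1, 0, 1, 2]
  off := [(0, 0), (0, 0), (0, 0), (0, 1), (-1, 1), (-1, 0), (0, 0), (0, 0), (-1, 1), (-1, 0)]

theorem torU5_5_ok : torU5_5.OK 5 := TT.leaf_ok (T := ttU5_5) (by decide +kernel)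

/-- the torus -/
def ttU5_6 : TT where
  k := 2
  rf := [false, true]
  tau := [2, 7, 0, 5, 9, 3, 8, 1, 6, 4]
  par := [0, 1]
  stars := [[0, 5, 3], [1, 2, 8, 7], [4, 6, 9]]
  word := [[2], [], [3], [0, 3], [0], [2, 1], [2], [], [3], [1]]
  rank := [1, 0, 1, 1, 0, 1, 0, 0, 0, 0]
  just := [1, 0, 1, 2, 0, 2, 0, 0, 0, 0]
  gA := 4
  gB := 6
  fin := 0
  sid := [0, 1, 1, 0, 2, 0, 2, 1, 1, 2]
  off := [(0, 0), (0, 0), (0, -1), (0, -1), (0, 0), (-1, 0), (-1, 1), (0, 0), (0, -1), (-1, 0)]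

theorem torU5_6_ok : torU5_6.OK 5 := TT.leaf_ok (T := ttU5_6) (by decide +kernel)

/-- the torus -/
def ttU5_7 : TT where
  k := 4
  rf := [false, false, true, true]
  tau := [5, 10, 7, 12, 19, 0, 15, 2, 17, 14, 1, 16, 3, 18, 9, 6, 11, 8, 13, 4]
  par := [0, 0, 1, 4]
  stars := [[0, 15, 6], [1, 5, 10], [2, 11, 17, 8], [3, 7, 16, 12], [4, 13, 19], [9, 18, 14]]
  word := [[], [], [0, 3], [3], [], [], [2, 1, 3, 0], [2, 1], [2], [], [], [0], [2], [2], [], [1, 2, 0, 3],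
    [1], [3], [3], []]
  rank := [0, 0, 3, 1, 0, 0, 4, 3, 2, 1, 0, 0, 1, 0, 1, 4, 0, 2, 0, 0]
  just := [0, 0, 2, 4, 0, 0, 3, 2, 5, 1, 0, 0, 4, 0, 1, 3, 0, 5, 0, 0]
  gA := 11
  gB := 13
  fin := 0
  sid := [0, 1, 2, 3, 4, 1, 0, 3, 2, 5, 1, 2, 3, 4, 5, 0, 3, 2, 5, 4]
  off := [(0, 0), (0, 0), (0, 0), (0, 0), (0, 0), (0, 0), (0, 0), (-1, 1), (-1, 1), (0, 0), (0, 0), (0, 0), (0,
    1), (0, 1), (0, 0), (0, 0), (-1, 1), (-1, 0), (0, -1), (0, 0)]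

theorem torU5_7_ok : torU5_7.OK 5 := TT.leaf_ok (T := ttU5_7) (by decide +kernel)

/-- the torus -/
def ttU5_8 : TT where
  k := 8
  rf := [false, false, false, false, false, false, false, false]
  tau := [6, 11, 15, 22, 25, 12, 0, 31, 18, 35, 16, 1, 5, 27, 20, 2, 10, 36, 8, 30, 14, 26, 3, 34, 37, 4, 21,
    13, 39, 32, 19, 7, 29, 38, 23, 9, 17, 24, 33, 28]
  par := [0, 0, 1, 2, 3, 4, 7, 9]
  stars := [[0, 25, 32, 7], [1, 6, 12], [2, 11, 16], [3, 15, 30, 23], [4, 22, 26], [5, 35, 28, 13], [8, 31,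
    19], [9, 18, 36], [10, 20, 37, 17], [14, 27, 21], [24, 34, 38], [29, 39, 33]]
  word := [[], [], [], [], [], [], [], [], [0], [], [], [], [], [2], [2], [], [], [1], [1], [1], [3], [], [],
    [1], [3, 1], [], [], [3], [3], [3, 0, 2, 1], [0], [], [0, 3, 1, 2], [0, 3, 1], [0], [], [0], [0, 2], [0, 2,
    1], [2]]
  rank := [0, 0, 0, 0, 0, 1, 0, 0, 0, 0, 1, 0, 1, 2, 0, 0, 1, 1, 0, 1, 0, 1, 0, 2, 2, 0, 1, 2, 3, 4, 1, 0, 4,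
    3, 2, 0, 1, 2, 3, 3]
  just := [0, 0, 0, 0, 0, 1, 0, 0, 0, 0, 2, 0, 1, 9, 0, 0, 2, 7, 0, 6, 0, 4, 0, 3, 8, 0, 4, 9, 5, 11, 6, 0, 11,
    10, 3, 0, 7, 8, 10, 5]
  gA := 8
  gB := 14
  fin := 0
  sid := [0, 1, 2, 3, 4, 5, 1, 0, 6, 7, 8, 2, 1, 5, 9, 3, 2, 8, 7, 6, 8, 9, 4, 3, 10, 0, 4, 9, 5, 11, 3, 6, 0,
    11, 10, 5, 7, 8, 10, 11]
  off := [(0, 0), (0, 0), (0, 0), (0, 0), (0, 0), (0, 0), (0, 0), (0, 0), (0, 0), (0, 0), (0, 0), (0, 0), (0,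
    0), (0, 0), (0, 0), (0, 0), (0, 0), (0, 0), (-1, 0), (-1, 0), (0, -1), (0, -1), (0, 0), (0, 0), (0, 0), (0,
    0), (0, 0), (0, -1), (0, -1), (0, 0), (1, 0), (0, 0), (0, 0), (0, 0), (1, 0), (0, 0), (0, 0), (1, 0), (1,
    1), (0, 1)]

theorem torU5_8_ok : torU5_8.OK 5 := TT.leaf_ok (T := ttU5_8) (by decide +kernel)

/-- the torus -/
def ttU5_9 : TT where
  k := 8
  rf := [false, true, false, true, false, true, true, false]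
  tau := [6, 12, 8, 15, 24, 23, 0, 26, 2, 19, 33, 25, 1, 27, 39, 3, 20, 31, 22, 9, 16, 37, 18, 5, 4, 11, 7, 13,
    35, 34, 36, 17, 38, 10, 29, 28, 30, 21, 32, 14]
  par := [0, 0, 1, 3, 4, 7, 10, 14]
  stars := [[0, 24, 6], [1, 7, 27, 13], [2, 12, 26, 8], [3, 9, 15], [4, 16, 20], [5, 23, 19], [10, 39, 33],
    [11, 34, 25], [14, 28, 35], [17, 32, 38, 21], [18, 22, 37, 31], [29, 30, 36]]
  word := [[], [], [3], [], [], [2, 0, 3, 1], [], [], [2], [2], [], [3], [], [], [], [], [], [0], [0, 3, 1],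
    [3], [], [0], [0, 2, 1], [0, 2, 1, 3], [], [2], [], [], [], [2], [3], [1], [], [], [3], [], [2], [1], [],
    []]
  rank := [0, 0, 2, 0, 0, 5, 0, 0, 2, 3, 0, 1, 0, 1, 0, 0, 1, 2, 4, 3, 1, 0, 4, 5, 0, 1, 0, 1, 2, 0, 3, 2, 1,
    0, 0, 2, 3, 0, 1, 0]
  just := [0, 0, 2, 0, 0, 5, 0, 0, 2, 3, 0, 7, 0, 1, 0, 0, 4, 9, 10, 3, 4, 0, 10, 5, 0, 7, 0, 1, 8, 0, 11, 9,
    6, 0, 0, 8, 11, 0, 6, 0]
  gA := 21
  gB := 29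
  fin := 0
  sid := [0, 1, 2, 3, 4, 5, 0, 1, 2, 3, 6, 7, 2, 1, 8, 3, 4, 9, 10, 5, 4, 9, 10, 5, 0, 7, 2, 1, 8, 11, 11, 10,
    9, 6, 7, 8, 11, 10, 9, 6]
  off := [(0, 0), (0, 0), (0, 0), (0, 0), (0, 0), (0, 0), (0, 0), (0, 0), (0, 1), (0, 1), (0, 0), (0, 0), (0,
    0), (0, 0), (0, 0), (0, 0), (0, 0), (0, 0), (0, 0), (0, -1), (0, 0), (0, 0), (0, 1), (0, 0), (0, 0), (0,
    1), (0, 1), (0, 0), (0, 0), (0, 0), (0, -1), (-1, 0), (-1, 0), (0, 0), (0, 0), (0, 0), (0, 0), (-1, 1),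
    (-1, 0), (0, 0)]

theorem torU5_9_ok : torU5_9.OK 5 := TT.leaf_ok (T := ttU5_9) (by decide +kernel)

/-- the torus -/
def ttU5_10 : TT where
  k := 8
  rf := [false, true, false, true, false, true, true, false]
  tau := [6, 7, 13, 15, 24, 23, 0, 1, 27, 19, 33, 25, 26, 2, 39, 3, 20, 21, 32, 9, 16, 17, 38, 5, 4, 11, 12, 8,
    35, 34, 36, 37, 18, 10, 29, 28, 30, 31, 22, 14]
  par := [0, 0, 2, 3, 4, 8, 10, 14]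
  stars := [[0, 24, 6], [1, 7], [2, 8, 28, 35, 14], [3, 13, 27, 9, 15], [4, 16, 20], [5, 23, 38, 32, 19], [10,
    39, 22, 18, 33], [11, 34, 25], [12, 26], [17, 21], [29, 30, 36], [31, 37]]
  word := [[], [], [], [], [], [2, 0, 3, 1], [], [], [], [2], [], [3], [3], [], [], [], [], [], [0], [3], [],
    [], [0], [0, 2, 1, 3], [], [2], [2], [], [], [2], [3], [3], [1], [], [3], [], [2], [2], [1], []]
  rank := [0, 1, 0, 0, 0, 5, 0, 1, 0, 3, 0, 1, 2, 0, 0, 0, 1, 2, 3, 3, 1, 2, 0, 5, 0, 1, 2, 0, 2, 0, 3, 4, 3,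
    0, 0, 2, 3, 4, 0, 0]
  just := [0, 1, 0, 0, 0, 5, 0, 1, 0, 3, 0, 7, 8, 0, 0, 0, 4, 9, 6, 3, 4, 9, 0, 5, 0, 7, 8, 0, 2, 0, 10, 11, 6,
    0, 0, 2, 10, 11, 0, 0]
  gA := 22
  gB := 29
  fin := 0
  sid := [0, 1, 2, 3, 4, 5, 0, 1, 2, 3, 6, 7, 8, 3, 2, 3, 4, 9, 6, 5, 4, 9, 6, 5, 0, 7, 8, 3, 2, 10, 10, 11, 5,
    6, 7, 2, 10, 11, 5, 6]
  off := [(0, 0), (0, 0), (0, 0), (0, 0), (0, 0), (0, 0), (0, 0), (0, 0), (0, 0), (0, 1), (0, 0), (0, 0), (0,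
    0), (0, 0), (0, 0), (0, 0), (0, 0), (0, 0), (1, 0), (0, -1), (0, 0), (0, 0), (1, 0), (0, 0), (0, 0), (0,
    1), (0, 1), (0, 1), (0, 0), (0, 0), (0, -1), (0, 0), (-1, -1), (0, 0), (0, 0), (0, 0), (0, 0), (0, 1), (-1,
    0), (0, 0)]

theorem torU5_10_ok : torU5_10.OK 5 := TT.leaf_ok (T := ttU5_10) (by decide +kernel)

/-- the torus -/
def ttU5_11 : TT where
  k := 8
  rf := [false, false, true, false, true, false, true, true]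
  tau := [8, 10, 11, 12, 19, 21, 22, 23, 0, 29, 1, 2, 3, 20, 34, 28, 30, 31, 32, 4, 13, 5, 6, 7, 39, 36, 37,
    38, 15, 9, 16, 17, 18, 35, 14, 33, 25, 26, 27, 24]
  par := [0, 0, 1, 4, 5, 9, 14, 24]
  stars := [[0, 19, 33, 36, 25, 9], [1, 8, 24, 35, 34, 10], [2, 11], [3, 12], [4, 13, 21, 5, 29, 15], [6, 22],
    [7, 23], [14, 30, 16, 28, 39, 20], [17, 31], [18, 32], [26, 37], [27, 38]]
  word := [[], [], [], [], [], [], [], [], [], [], [], [], [], [0], [], [0], [0, 2, 1], [0, 2, 1], [0, 2, 1],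
    [], [1], [], [], [], [], [2], [2], [2], [1], [], [0, 3, 1], [0, 3, 1], [0, 3, 1], [], [], [], [3], [3],
    [3], []]
  rank := [0, 0, 1, 2, 0, 0, 1, 2, 0, 0, 0, 1, 2, 3, 0, 0, 4, 5, 6, 0, 3, 0, 1, 2, 0, 2, 1, 0, 0, 0, 4, 5, 6,
    3, 0, 3, 2, 1, 0, 0]
  just := [0, 0, 2, 3, 0, 0, 5, 6, 0, 0, 0, 2, 3, 4, 0, 0, 7, 8, 9, 0, 4, 0, 5, 6, 0, 10, 11, 0, 0, 0, 7, 8, 9,
    1, 0, 1, 10, 11, 0, 0]
  gA := 15
  gB := 27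
  fin := 0
  sid := [0, 1, 2, 3, 4, 4, 5, 6, 1, 0, 1, 2, 3, 4, 7, 4, 7, 8, 9, 0, 7, 4, 5, 6, 1, 0, 10, 11, 7, 4, 7, 8, 9,
    0, 1, 1, 0, 10, 11, 7]
  off := [(0, 0), (0, 0), (0, 0), (0, 0), (0, 0), (-1, 0), (0, 0), (0, 0), (0, 0), (0, 0), (0, 0), (0, 0), (0,
    0), (0, 0), (0, 0), (0, 0), (0, 1), (0, 0), (0, 0), (0, 0), (-1, 0), (-1, 0), (0, 0), (0, 0), (0, 0), (0,
    0), (0, 0), (0, 0), (-1, 1), (-1, 0), (0, 0), (0, -1), (0, -1), (0, -1), (0, 0), (0, 0), (0, -1), (0, -1),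
    (0, -1), (-1, 0)]

theorem torU5_11_ok : torU5_11.OK 5 := TT.leaf_ok (T := ttU5_11) (by decide +kernel)

/-- the torus -/
def ttU5_12 : TT where
  k := 4
  rf := [false, true, true, false]
  tau := [6, 5, 10, 17, 14, 1, 0, 15, 12, 19, 2, 18, 8, 16, 4, 7, 13, 3, 11, 9]
  par := [0, 0, 2, 3]
  stars := [[0, 10, 2, 6], [1, 7, 15, 5], [3, 11, 18], [4, 17, 14], [8, 13, 16], [9, 19, 12]]
  word := [[], [0, 2, 1], [], [], [3], [0, 3, 1], [], [0, 2], [0], [0], [], [], [1], [2], [2], [3, 1], [3], [],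
    [], [1]]
  rank := [0, 3, 0, 0, 1, 3, 0, 1, 0, 2, 0, 1, 0, 0, 1, 1, 0, 0, 1, 2]
  just := [0, 1, 0, 0, 3, 1, 0, 4, 0, 5, 0, 2, 0, 0, 3, 4, 0, 0, 2, 5]
  gA := 8
  gB := 13
  fin := 0
  sid := [0, 1, 0, 2, 3, 1, 0, 1, 4, 5, 0, 2, 5, 4, 3, 1, 4, 3, 2, 5]
  off := [(0, 0), (0, 0), (0, 1), (0, 0), (0, 0), (0, -1), (0, 0), (0, 0), (0, 0), (0, 0), (0, 1), (0, 0), (-1,
    0), (-1, 0), (0, 1), (-1, -1), (-1, -1), (0, 0), (0, 0), (-1, 0)]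

theorem torU5_12_ok : torU5_12.OK 5 := TT.leaf_ok (T := ttU5_12) (by decide +kernel)

/-- the torus -/
def ttU5_13 : TT where
  k := 8
  rf := [false, false, false, false, true, true, true, true]
  tau := [7, 11, 16, 13, 24, 23, 12, 0, 20, 29, 17, 1, 6, 3, 34, 33, 2, 10, 30, 39, 8, 37, 25, 5, 4, 22, 36,
    31, 38, 9, 18, 27, 35, 15, 14, 32, 26, 21, 28, 19]
  par := [0, 0, 1, 2, 4, 9, 14, 19]
  stars := [[0, 20, 8], [1, 7, 12], [2, 11, 17], [3, 16, 34, 14], [4, 13, 6, 24], [5, 25, 23], [9, 21, 38, 29],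
    [10, 30, 18], [15, 35, 33], [19, 31, 28, 39], [22, 26, 37], [27, 32, 36]]
  word := [[], [], [], [0], [], [1], [], [], [2, 0, 3, 1], [], [], [], [], [1], [], [0], [], [], [], [], [0, 2,
    1, 3], [0, 2, 1], [0], [0], [], [1], [2, 1], [2], [2], [], [], [3], [1], [1], [], [0], [0, 3], [0, 3, 1],
    [3], []]
  rank := [0, 0, 0, 1, 0, 2, 1, 0, 5, 0, 1, 0, 1, 1, 0, 0, 0, 1, 2, 0, 5, 4, 3, 2, 0, 3, 2, 0, 3, 0, 2, 0, 1,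
    0, 0, 1, 2, 4, 3, 0]
  just := [0, 0, 0, 3, 0, 4, 1, 0, 6, 0, 2, 0, 1, 3, 0, 0, 0, 2, 7, 0, 6, 10, 5, 4, 0, 5, 11, 0, 9, 0, 7, 0, 8,
    0, 0, 8, 11, 10, 9, 0]
  gA := 15
  gB := 27
  fin := 0
  sid := [0, 1, 2, 3, 4, 5, 4, 1, 0, 6, 7, 2, 1, 4, 3, 8, 3, 2, 7, 9, 0, 6, 10, 5, 4, 5, 10, 11, 9, 6, 7, 9,
    11, 8, 3, 8, 11, 10, 6, 9]
  off := [(0, 0), (0, 0), (0, 0), (0, 0), (0, 0), (0, 0), (-1, 0), (0, 0), (0, 0), (0, 0), (0, 0), (0, 0), (0,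
    0), (-1, 0), (-1, 0), (0, 0), (0, 0), (0, 0), (0, 0), (0, 0), (0, 0), (0, 0), (0, 0), (1, 0), (0, 0), (0,
    0), (-1, 0), (0, 0), (0, 1), (0, 0), (0, 0), (0, 0), (0, -1), (-1, 0), (-1, 0), (0, 0), (1, -1), (0, -1),
    (0, -1), (0, 0)]

theorem torU5_13_ok : torU5_13.OK 5 := TT.leaf_ok (T := ttU5_13) (by decide +kernel)

/-- the torus -/
def ttU5_14 : TT where
  k := 8
  rf := [false, false, false, false, true, true, true, true]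
  tau := [6, 11, 15, 22, 29, 12, 0, 33, 18, 39, 16, 1, 5, 27, 24, 2, 10, 38, 8, 34, 37, 30, 3, 28, 14, 32, 35,
    13, 23, 4, 21, 36, 25, 7, 19, 26, 31, 20, 17, 9]
  par := [0, 0, 1, 2, 3, 4, 7, 9]
  stars := [[0, 25, 33, 7], [1, 6, 12], [2, 11, 16], [3, 15, 30, 22], [4, 23, 29], [5, 35, 27, 13], [8, 34,
    19], [9, 18, 39], [10, 20, 38, 17], [14, 28, 24], [21, 31, 37], [26, 36, 32]]
  word := [[], [], [], [], [], [], [], [], [0], [], [], [], [], [2], [2], [], [], [1], [1], [1], [3, 1], [1],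
    [], [], [3], [3, 0, 2, 1], [3], [3], [], [], [0], [0, 3, 1], [0, 3, 1, 2], [], [0], [2], [0, 2, 1], [0, 2],
    [0], []]
  rank := [0, 0, 0, 0, 0, 1, 0, 0, 0, 0, 1, 0, 1, 2, 0, 0, 1, 1, 0, 1, 2, 2, 0, 1, 0, 4, 3, 2, 1, 0, 2, 3, 4,
    0, 1, 3, 3, 2, 1, 0]
  just := [0, 0, 0, 0, 0, 1, 0, 0, 0, 0, 2, 0, 1, 9, 0, 0, 2, 7, 0, 6, 8, 3, 0, 4, 0, 11, 5, 9, 4, 0, 3, 10,
    11, 0, 6, 5, 10, 8, 7, 0]
  gA := 8
  gB := 14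
  fin := 0
  sid := [0, 1, 2, 3, 4, 5, 1, 0, 6, 7, 8, 2, 1, 5, 9, 3, 2, 8, 7, 6, 8, 10, 3, 4, 9, 0, 11, 5, 9, 4, 3, 10,
    11, 0, 6, 5, 11, 10, 8, 7]
  off := [(0, 0), (0, 0), (0, 0), (0, 0), (0, 0), (0, 0), (0, 0), (0, 0), (0, 0), (0, 0), (0, 0), (0, 0), (0,
    0), (0, 0), (0, 0), (0, 0), (0, 0), (0, 0), (-1, 0), (-1, 0), (0, -1), (0, 0), (0, 0), (0, 0), (0, -1), (0,
    0), (0, 0), (0, -1), (0, -1), (0, 0), (1, 0), (1, 0), (0, 0), (0, 0), (0, 0), (0, 0), (0, 1), (1, 1), (1,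
    0), (0, 0)]

theorem torU5_14_ok : torU5_14.OK 5 := TT.leaf_ok (T := ttU5_14) (by decide +kernel)

/-- the torus -/
def ttU5_15 : TT where
  k := 8
  rf := [false, false, false, true, true, true, true, false]
  tau := [6, 11, 18, 13, 24, 22, 0, 20, 27, 34, 36, 1, 23, 3, 19, 37, 25, 35, 2, 14, 7, 30, 5, 12, 4, 16, 31,
    8, 33, 39, 21, 26, 38, 28, 9, 17, 10, 15, 32, 29]
  par := [0, 0, 1, 2, 4, 8, 9, 10]
  stars := [[0, 20, 7], [1, 6, 23, 12], [2, 11, 36, 18], [3, 19, 14], [4, 13, 24], [5, 30, 22], [8, 21, 31,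
    27], [9, 28, 34], [10, 15, 37], [16, 26, 32, 38], [17, 35, 25], [29, 39, 33]]
  word := [[], [], [], [0], [], [1], [], [2, 0, 3, 1], [], [], [], [], [1], [1], [1], [0], [3], [], [], [0],
    [0, 2, 1, 3], [0], [0], [0], [], [2], [2, 0, 3], [], [], [2], [1], [2, 1, 3], [2], [], [], [], [], [1],
    [3], [3]]
  rank := [0, 0, 0, 0, 0, 2, 0, 4, 0, 0, 0, 0, 1, 0, 1, 2, 2, 1, 0, 1, 4, 3, 2, 1, 0, 2, 3, 0, 1, 0, 3, 3, 2,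
    1, 0, 1, 0, 2, 2, 0]
  just := [0, 0, 0, 0, 0, 1, 0, 6, 0, 0, 0, 0, 4, 0, 3, 8, 10, 2, 0, 3, 6, 5, 1, 4, 0, 10, 9, 0, 7, 0, 5, 9,
    11, 7, 0, 2, 0, 8, 11, 0]
  gA := 3
  gB := 29
  fin := 0
  sid := [0, 1, 2, 3, 4, 5, 1, 0, 6, 7, 8, 2, 1, 4, 3, 8, 9, 10, 2, 3, 0, 6, 5, 1, 4, 10, 9, 6, 7, 11, 5, 6, 9,
    11, 7, 10, 2, 8, 9, 11]
  off := [(0, 0), (0, 0), (0, 0), (0, 0), (0, 0), (0, 0), (0, 0), (0, 0), (0, 0), (0, 0), (0, 0), (0, 0), (0,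
    0), (-1, 0), (-1, 0), (1, 0), (0, 0), (0, 0), (0, 0), (0, 0), (0, 0), (0, 0), (1, 0), (1, 0), (0, 0), (0,
    1), (0, 1), (0, 0), (0, 0), (0, 0), (0, 0), (-1, 0), (-1, 1), (0, 0), (0, 0), (0, 0), (0, 0), (0, 0), (-1,
    0), (0, -1)]

theorem torU5_15_ok : torU5_15.OK 5 := TT.leaf_ok (T := ttU5_15) (by decide +kernel)

/-- the torus -/
def ttU5_16 : TT where
  k := 8
  rf := [false, false, true, false, true, false, true, true]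
  tau := [5, 6, 10, 17, 14, 0, 1, 20, 27, 24, 2, 18, 33, 16, 4, 32, 13, 3, 11, 34, 7, 28, 38, 26, 9, 37, 23, 8,
    21, 39, 35, 36, 15, 12, 19, 30, 31, 25, 22, 29]
  par := [0, 0, 2, 3, 7, 8, 12, 22]
  stars := [[0, 10, 2, 6], [1, 5, 20, 7], [3, 11, 18], [4, 17, 14], [8, 21, 28], [9, 27, 24], [12, 34, 19],
    [13, 16, 33], [15, 30, 36, 32], [22, 39, 29], [23, 26, 38], [25, 35, 31, 37]]
  word := [[], [1, 2], [], [], [0, 3], [], [3, 0], [], [], [1, 2], [], [], [], [2, 1], [2, 1], [0, 3], [0, 3],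
    [], [], [], [], [], [], [3, 0], [3, 0], [1, 2], [1, 2], [], [], [], [0], [2], [2, 1], [], [], [1], [3], [3,
    0], [], []]
  rank := [0, 6, 0, 0, 5, 0, 6, 0, 0, 5, 0, 1, 0, 4, 5, 3, 4, 0, 1, 2, 0, 1, 0, 4, 5, 3, 4, 0, 1, 2, 0, 0, 3,
    0, 2, 0, 0, 3, 0, 2]
  just := [0, 1, 0, 0, 3, 0, 1, 0, 0, 5, 0, 2, 0, 7, 3, 8, 7, 0, 2, 6, 0, 4, 0, 10, 5, 11, 10, 0, 4, 9, 0, 0,
    8, 0, 6, 0, 0, 11, 0, 9]
  gA := 30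
  gB := 31
  fin := 0
  sid := [0, 1, 0, 2, 3, 1, 0, 1, 4, 5, 0, 2, 6, 7, 3, 8, 7, 3, 2, 6, 1, 4, 9, 10, 5, 11, 10, 5, 4, 9, 8, 11,
    8, 7, 6, 11, 8, 11, 10, 9]
  off := [(0, 0), (0, 0), (-1, 1), (0, 0), (0, 0), (0, 0), (0, 0), (1, -1), (0, 0), (0, 0), (-1, 1), (0, 0),
    (0, 0), (0, 0), (-1, 1), (0, 0), (1, -1), (0, 0), (0, 0), (0, 0), (1, -1), (0, 0), (0, 0), (0, 0), (1, -1),
    (0, 0), (-1, 1), (0, 0), (0, 0), (0, 0), (0, 0), (1, 0), (-1, 1), (0, 0), (0, 0), (0, 0), (-1, 0), (1, -1),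
    (0, 0), (0, 0)]

theorem torU5_16_ok : torU5_16.OK 5 := TT.leaf_ok (T := ttU5_16) (by decide +kernel)

/-- the torus -/
def ttU5_17 : TT where
  k := 8
  rf := [false, true, true, true, false, false, false, true]
  tau := [6, 12, 8, 15, 24, 23, 0, 26, 2, 19, 33, 25, 1, 27, 39, 3, 20, 31, 22, 9, 16, 37, 18, 5, 4, 11, 7, 13,
    35, 34, 36, 17, 38, 10, 29, 28, 30, 21, 32, 14]
  par := [0, 0, 1, 3, 4, 7, 10, 14]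
  stars := [[0, 24, 6], [1, 7, 26, 12], [2, 13, 27, 8], [3, 9, 15], [4, 16, 20], [5, 23, 19], [10, 33, 39],
    [11, 25, 34], [14, 35, 28], [17, 31, 37, 21], [18, 22, 38, 32], [29, 36, 30]]
  word := [[], [], [3], [], [], [2, 0, 3, 1], [], [], [2], [2], [], [], [], [3], [], [], [], [0, 3], [0, 3, 1],
    [3], [], [0], [0, 2, 1], [0, 2, 1, 3], [], [], [], [2], [2], [], [2], [2, 1], [], [], [], [3], [3], [1],
    [], []]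
  rank := [0, 0, 2, 0, 0, 6, 0, 0, 2, 3, 0, 1, 0, 1, 0, 0, 1, 4, 5, 3, 1, 0, 5, 6, 0, 1, 0, 1, 0, 2, 3, 4, 1,
    0, 2, 0, 3, 0, 1, 0]
  just := [0, 0, 2, 0, 0, 5, 0, 0, 2, 3, 0, 1, 0, 8, 0, 0, 4, 9, 10, 3, 4, 0, 10, 5, 0, 1, 0, 8, 0, 7, 11, 9,
    6, 0, 7, 0, 11, 0, 6, 0]
  gA := 21
  gB := 28
  fin := 0
  sid := [0, 1, 2, 3, 4, 5, 0, 1, 2, 3, 6, 7, 1, 2, 8, 3, 4, 9, 10, 5, 4, 9, 10, 5, 0, 7, 1, 2, 8, 11, 11, 9,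
    10, 6, 7, 8, 11, 9, 10, 6]
  off := [(0, 0), (0, 0), (0, 0), (0, 0), (0, 0), (0, 0), (0, 0), (0, 0), (0, 1), (0, 1), (0, 0), (0, 0), (0,
    0), (0, 0), (0, 0), (0, 0), (0, 0), (0, 0), (0, 0), (0, -1), (0, 0), (0, 0), (0, 1), (0, 0), (0, 0), (0,
    0), (0, 0), (0, 1), (0, 1), (0, 0), (0, 0), (-1, 1), (-1, 1), (0, 0), (0, 0), (0, 0), (0, -1), (-1, 0),
    (-1, 1), (0, 0)]

theorem torU5_17_ok : torU5_17.OK 5 := TT.leaf_ok (T := ttU5_17) (by decide +kernel)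

/-- the torus -/
def ttU5_18 : TT where
  k := 8
  rf := [false, true, true, true, false, false, false, true]
  tau := [6, 7, 13, 15, 24, 23, 0, 1, 27, 19, 33, 25, 26, 2, 39, 3, 20, 21, 32, 9, 16, 17, 38, 5, 4, 11, 12, 8,
    35, 34, 36, 37, 18, 10, 29, 28, 30, 31, 22, 14]
  par := [0, 0, 2, 3, 4, 8, 10, 14]
  stars := [[0, 24, 6], [1, 7], [2, 8, 27, 13], [3, 14, 35, 28, 9, 15], [4, 16, 20], [5, 23, 39, 10, 33, 19],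
    [11, 25, 34], [12, 26], [17, 21], [18, 32, 38, 22], [29, 36, 30], [31, 37]]
  word := [[], [], [], [], [], [2, 0, 3, 1], [], [], [], [2], [], [], [], [], [], [], [], [], [0, 3], [3], [],
    [], [0], [0, 2, 1, 3], [], [], [], [], [2], [], [2], [2], [2, 1], [], [], [3], [3], [3], [1], []]
  rank := [0, 1, 0, 0, 0, 7, 0, 1, 0, 6, 0, 3, 2, 0, 0, 0, 1, 2, 3, 6, 1, 2, 0, 7, 0, 3, 2, 0, 5, 4, 0, 1, 3,
    0, 4, 5, 0, 1, 0, 0]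
  just := [0, 1, 0, 0, 0, 5, 0, 1, 0, 3, 0, 7, 2, 0, 0, 0, 4, 8, 9, 3, 4, 8, 0, 5, 0, 7, 2, 0, 10, 6, 0, 11, 9,
    0, 6, 10, 0, 11, 0, 0]
  gA := 22
  gB := 30
  fin := 0
  sid := [0, 1, 2, 3, 4, 5, 0, 1, 2, 3, 5, 6, 7, 2, 3, 3, 4, 8, 9, 5, 4, 8, 9, 5, 0, 6, 7, 2, 3, 10, 10, 11, 9,
    5, 6, 3, 10, 11, 9, 5]
  off := [(0, 0), (0, 0), (0, 0), (0, 0), (0, 0), (0, 0), (0, 0), (0, 0), (0, 0), (0, 1), (-1, 0), (0, 0), (0,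
    0), (0, 0), (0, 0), (0, 0), (0, 0), (0, 0), (0, 0), (0, -1), (0, 0), (0, 0), (0, 0), (0, 0), (0, 0), (0,
    0), (0, 0), (0, 0), (0, 1), (0, 0), (0, 0), (0, 0), (-1, 1), (-1, 0), (0, 0), (0, 0), (0, -1), (0, -1),
    (-1, 0), (-1, 0)]

theorem torU5_18_ok : torU5_18.OK 5 := TT.leaf_ok (T := ttU5_18) (by decide +kernel)

/-- the torus -/
def ttU5_19 : TT where
  k := 4
  rf := [false, true, false, true]
  tau := [6, 7, 8, 5, 14, 3, 0, 1, 2, 19, 16, 17, 18, 15, 4, 13, 10, 11, 12, 9]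
  par := [0, 0, 4, 9]
  stars := [[0, 14, 16, 10, 4, 6], [1, 7], [2, 8], [3, 9, 15, 13, 19, 5], [11, 17], [12, 18]]
  word := [[], [], [], [3, 0], [], [1, 2], [], [], [], [], [0], [0], [0], [2], [], [3], [1], [1], [1], []]
  rank := [0, 1, 2, 3, 0, 3, 0, 1, 2, 0, 1, 0, 1, 0, 0, 0, 1, 0, 1, 0]
  just := [0, 1, 2, 3, 0, 3, 0, 1, 2, 0, 4, 0, 5, 0, 0, 0, 4, 0, 5, 0]
  gA := 11
  gB := 13
  fin := 0
  sid := [0, 1, 2, 3, 0, 3, 0, 1, 2, 3, 0, 4, 5, 3, 0, 3, 0, 4, 5, 3]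
  off := [(0, 0), (0, 0), (0, 0), (0, 0), (1, -1), (-1, 1), (0, 0), (0, 0), (0, 0), (0, 0), (1, -1), (0, 0),
    (0, 0), (0, 1), (0, 0), (0, 0), (0, -1), (-1, 0), (-1, 0), (-1, 1)]

theorem torU5_19_ok : torU5_19.OK 5 := TT.leaf_ok (T := ttU5_19) (by decide +kernel)

/-- the torus -/
def ttU5_20 : TT where
  k := 8
  rf := [false, false, false, false, true, true, true, true]
  tau := [5, 12, 15, 24, 18, 0, 17, 10, 29, 13, 7, 16, 1, 9, 33, 2, 11, 6, 4, 38, 37, 26, 31, 39, 3, 32, 21,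
    36, 34, 8, 35, 22, 25, 14, 28, 30, 27, 20, 19, 23]
  par := [0, 0, 1, 2, 3, 8, 14, 19]
  stars := [[0, 18, 6], [1, 5, 13], [2, 12, 16], [3, 15, 39, 24], [4, 20, 38, 19], [7, 17, 11], [8, 10, 34,
    29], [9, 25, 33, 14], [21, 27, 37], [22, 32, 26], [23, 35, 31], [28, 30, 36]]
  word := [[], [], [], [], [3, 0, 2], [], [0], [0], [], [], [1], [], [], [], [], [], [], [1], [3, 1, 2], [],
    [3, 0, 2], [3], [3], [], [], [], [2], [0, 2], [0], [], [2], [2], [], [], [1], [3], [3, 1], [3, 1, 2], [],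
    []]
  rank := [0, 0, 0, 0, 5, 0, 2, 1, 0, 1, 1, 1, 0, 1, 0, 0, 1, 2, 5, 0, 4, 3, 2, 1, 0, 2, 3, 1, 0, 0, 0, 2, 2,
    0, 0, 0, 1, 4, 0, 1]
  just := [0, 0, 0, 0, 4, 0, 5, 6, 0, 1, 6, 2, 0, 1, 0, 0, 2, 5, 4, 0, 8, 9, 10, 3, 0, 7, 9, 11, 0, 0, 0, 10,
    7, 0, 0, 0, 11, 8, 0, 3]
  gA := 28
  gB := 30
  fin := 0
  sid := [0, 1, 2, 3, 4, 1, 0, 5, 6, 7, 6, 5, 2, 1, 7, 3, 2, 5, 0, 4, 4, 8, 9, 10, 3, 7, 9, 8, 11, 6, 11, 10,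
    9, 7, 6, 10, 11, 8, 4, 3]
  off := [(0, 0), (0, 0), (0, 0), (0, 0), (0, 0), (0, 0), (0, 0), (0, 0), (0, 0), (0, 0), (-1, 0), (-1, 0), (0,
    0), (0, 0), (0, 0), (0, 0), (0, 0), (-1, 0), (-1, 0), (-1, 0), (0, 0), (0, 0), (0, 0), (0, 0), (0, 0), (0,
    0), (0, 1), (0, 1), (0, 0), (0, 0), (-1, 0), (0, 1), (0, 1), (0, 0), (-1, 0), (0, 0), (-1, -1), (-1, 0),
    (-1, 0), (0, 0)]

theorem torU5_20_ok : torU5_20.OK 5 := TT.leaf_ok (T := ttU5_20) (by decide +kernel)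

/-- the torus -/
def ttU5_21 : TT where
  k := 8
  rf := [false, false, false, true, false, true, true, true]
  tau := [5, 10, 14, 8, 17, 0, 20, 24, 3, 27, 1, 28, 34, 26, 2, 31, 23, 4, 21, 32, 6, 18, 39, 16, 7, 36, 13, 9,
    11, 37, 35, 15, 19, 38, 12, 30, 25, 29, 33, 22]
  par := [0, 0, 1, 4, 6, 9, 12, 22]
  stars := [[0, 18, 21, 6], [1, 5, 28, 11], [2, 10], [3, 14, 27, 9], [4, 8, 24, 17], [7, 20], [12, 29, 38, 34],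
    [13, 30, 36, 26], [15, 32], [16, 23, 35, 31], [19, 33, 39, 22], [25, 37]]
  word := [[], [], [], [0], [], [], [], [], [1], [], [], [], [], [0], [], [0, 3, 1], [0], [], [0, 3, 1, 2], [0,
    3, 1], [], [3, 0, 2, 1], [], [1], [], [2], [1], [], [], [2], [0, 2], [0, 2, 1], [0, 2, 1], [2], [], [3, 1],
    [3], [3], [3], []]
  rank := [0, 0, 1, 2, 0, 0, 0, 1, 2, 0, 0, 1, 0, 0, 1, 4, 3, 0, 6, 5, 0, 6, 0, 3, 1, 0, 0, 0, 1, 1, 1, 4, 5,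
    2, 0, 1, 0, 1, 2, 0]
  just := [0, 0, 2, 3, 0, 0, 0, 5, 3, 0, 0, 1, 0, 0, 2, 9, 4, 0, 10, 8, 0, 10, 0, 4, 5, 0, 0, 0, 1, 11, 7, 9,
    8, 6, 0, 7, 0, 11, 6, 0]
  gA := 13
  gB := 25
  fin := 0
  sid := [0, 1, 2, 3, 4, 1, 0, 5, 4, 3, 2, 1, 6, 7, 3, 8, 9, 4, 0, 10, 5, 0, 10, 9, 4, 11, 7, 3, 1, 6, 7, 9, 8,
    10, 6, 9, 7, 11, 6, 10]
  off := [(0, 0), (0, 0), (0, 0), (0, 0), (0, 0), (0, 0), (0, 0), (0, 0), (-1, 0), (-1, 0), (0, 0), (0, 0), (0,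
    0), (0, 0), (0, 0), (0, 0), (0, 0), (0, 0), (0, 0), (0, 0), (0, 0), (0, 0), (0, 0), (-1, 0), (-1, 0), (0,
    0), (-1, 0), (-1, 0), (0, 0), (0, 0), (0, 0), (0, 1), (0, 1), (0, 1), (0, 0), (-1, 0), (-1, -1), (0, -1),
    (0, -1), (0, 0)]

theorem torU5_21_ok : torU5_21.OK 5 := TT.leaf_ok (T := ttU5_21) (by decide +kernel)

end Pool.Agent.Lib_MP_fa6e45
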