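import Pool.Agent.Lib_MP_fa6e45.CT5
import Pool.Agent.Lib_MP_fa6e45.CXT

/-!
MP_fa6e45_co, stage 7: tori for m = 6 (found by computer) and the proof that they give periodic tilings.
-/

namespace Pool.Agent.Lib_MP_fa6e45

/-- the torus -/
def ttU6_0 : TT where
  k := 2
  rf := [false, false]
  tau := [3, 9, 10, 0, 6, 7, 4, 5, 11, 1, 2, 8]
  par := [0, 1]
  stars := [[0, 7, 4], [1, 3, 10], [2, 9, 11], [5, 6, 8]]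
  word := [[3], [], [2], [2], [0, 2], [0], [3, 1], [1], [2], [], [3], [3]]
  rank := [2, 0, 1, 2, 1, 0, 1, 0, 0, 0, 1, 0]
  just := [1, 0, 2, 1, 3, 0, 3, 0, 0, 0, 2, 0]
  gA := 5
  gB := 8
  fin := 0
  sid := [0, 1, 2, 1, 0, 3, 3, 0, 3, 2, 1, 2]
  off := [(0, 0), (0, 0), (0, 0), (0, 1), (0, 1), (0, 0), (-1, -1), (-1, 0), (-1, 0), (0, 0), (0, 0), (0, -1)]

theorem torU6_0_ok : torU6_0.OK 6 := TT.leaf_ok (T := ttU6_0) (by decide +kernel)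

/-- the torus -/
def ttU6_1 : TT where
  k := 2
  rf := [false, true]
  tau := [2, 9, 0, 7, 11, 6, 5, 3, 10, 1, 8, 4]
  par := [0, 1]
  stars := [[0, 7, 3], [1, 2, 10, 9], [4, 8, 11], [5, 6]]
  word := [[2], [], [3], [0, 3], [0], [0], [1], [2, 1], [2], [], [3], [1]]
  rank := [1, 0, 1, 1, 0, 1, 1, 1, 0, 0, 0, 0]
  just := [1, 0, 1, 2, 0, 3, 3, 2, 0, 0, 0, 0]
  gA := 4
  gB := 8
  fin := 0
  sid := [0, 1, 1, 0, 2, 3, 3, 0, 2, 1, 1, 2]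
  off := [(0, 0), (0, 0), (0, -1), (0, -1), (0, 0), (0, 0), (-1, 0), (-1, 0), (-1, 1), (0, 0), (0, -1), (-1, 0)]

theorem torU6_1_ok : torU6_1.OK 6 := TT.leaf_ok (T := ttU6_1) (by decide +kernel)

/-- the torus -/
def ttU6_2 : TT where
  k := 2
  rf := [false, true]
  tau := [9, 4, 7, 6, 1, 10, 3, 2, 11, 0, 5, 8]
  par := [0, 0]
  stars := [[0, 11, 9], [1, 10, 5], [2, 4, 7], [3, 8, 6]]
  word := [[], [0, 3], [0], [2], [2, 1], [2, 1], [3], [1], [1, 2], [], [0, 3], [3, 0]]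
  rank := [0, 1, 0, 0, 1, 2, 0, 0, 1, 0, 2, 1]
  just := [0, 2, 0, 0, 2, 1, 0, 0, 3, 0, 1, 3]
  gA := 2
  gB := 3
  fin := 0
  sid := [0, 1, 2, 3, 2, 1, 3, 2, 3, 0, 1, 0]
  off := [(0, 0), (0, 0), (0, 0), (0, 0), (-1, 1), (-1, 1), (0, -1), (-1, 0), (-1, 0), (0, 0), (0, 0), (1, -1)]

theorem torU6_2_ok : torU6_2.OK 6 := TT.leaf_ok (T := ttU6_2) (by decide +kernel)

/-- the torus -/
def ttU6_3 : TT where
  k := 2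
  rf := [false, true]
  tau := [7, 8, 9, 6, 11, 10, 3, 0, 1, 2, 5, 4]
  par := [0, 0]
  stars := [[0, 11, 4, 7], [1, 8], [2, 9], [3, 10, 5, 6]]
  word := [[], [], [], [3, 0], [0], [2], [1, 2], [], [], [], [3], [1]]
  rank := [0, 1, 2, 3, 0, 0, 3, 0, 1, 2, 0, 0]
  just := [0, 1, 2, 3, 0, 0, 3, 0, 1, 2, 0, 0]
  gA := 4
  gB := 5
  fin := 0
  sid := [0, 1, 2, 3, 0, 3, 3, 0, 1, 2, 3, 0]
  off := [(0, 0), (0, 0), (0, 0), (0, 0), (1, -1), (0, 1), (-1, 1), (0, 0), (0, 0), (0, 0), (0, 0), (0, -1)]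

theorem torU6_3_ok : torU6_3.OK 6 := TT.leaf_ok (T := ttU6_3) (by decide +kernel)

/-- the torus -/
def ttU6_4 : TT where
  k := 4
  rf := [false, false, false, false]
  tau := [6, 12, 22, 14, 13, 11, 0, 18, 16, 20, 19, 5, 1, 4, 3, 21, 8, 23, 7, 10, 9, 15, 2, 17]
  par := [0, 0, 1, 2]
  stars := [[0, 11, 19, 7], [1, 6, 5, 13], [2, 12, 23], [3, 22, 15], [4, 14], [8, 18, 17], [9, 16, 21], [10,
    20]]
  word := [[], [], [], [3], [3], [3], [], [0, 3], [0, 3], [0], [0], [2], [], [2], [2], [2], [2, 1], [], [2, 1],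
    [1], [1], [3], [], []]
  rank := [0, 0, 0, 1, 2, 3, 0, 2, 1, 0, 1, 3, 0, 2, 1, 0, 1, 1, 2, 1, 0, 0, 0, 1]
  just := [0, 0, 0, 3, 4, 1, 0, 5, 6, 0, 7, 1, 0, 4, 3, 0, 6, 2, 5, 7, 0, 0, 0, 2]
  gA := 9
  gB := 15
  fin := 0
  sid := [0, 1, 2, 3, 4, 1, 1, 0, 5, 6, 7, 0, 2, 1, 4, 3, 6, 5, 5, 0, 7, 6, 3, 2]
  off := [(0, 0), (0, 0), (0, 0), (0, 0), (0, 0), (0, -1), (0, 0), (0, 0), (0, 0), (0, 0), (0, 0), (0, 1), (0,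
    0), (0, 0), (0, 1), (0, 1), (-1, 1), (-1, 1), (-1, 1), (-1, 1), (-1, 0), (-1, 0), (0, 0), (0, 0)]

theorem torU6_4_ok : torU6_4.OK 6 := TT.leaf_ok (T := ttU6_4) (by decide +kernel)

/-- the torus -/
def ttU6_5 : TT where
  k := 4
  rf := [false, false, false, false]
  tau := [6, 16, 15, 19, 18, 11, 0, 22, 21, 13, 12, 5, 10, 9, 20, 2, 1, 23, 4, 3, 14, 8, 7, 17]
  par := [0, 0, 1, 3]
  stars := [[0, 11, 12, 23, 7], [1, 6, 5, 18, 17], [2, 16], [3, 15, 20], [4, 19], [8, 22], [9, 21, 14], [10,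
    13]]
  word := [[], [], [], [], [], [3], [], [0], [0], [0], [0], [2], [1], [1], [], [], [], [2], [], [], [], [1],
    [1], [3]]
  rank := [0, 0, 1, 0, 1, 2, 0, 4, 3, 0, 1, 2, 1, 0, 2, 1, 0, 0, 1, 0, 2, 3, 4, 0]
  just := [0, 0, 2, 0, 4, 1, 0, 5, 6, 0, 7, 1, 7, 0, 3, 2, 0, 0, 4, 0, 3, 6, 5, 0]
  gA := 9
  gB := 17
  fin := 0
  sid := [0, 1, 2, 3, 4, 1, 1, 0, 5, 6, 7, 0, 0, 7, 6, 3, 2, 1, 1, 4, 3, 6, 5, 0]
  off := [(0, 0), (0, 0), (0, 0), (0, 0), (0, 0), (0, -1), (0, 0), (0, 0), (0, 0), (0, 0), (0, 0), (0, 1), (-1,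
    1), (-1, 0), (-1, 0), (0, 0), (0, 0), (0, 0), (0, -1), (0, 0), (0, 0), (-1, 0), (-1, 0), (-1, 0)]

theorem torU6_5_ok : torU6_5.OK 6 := TT.leaf_ok (T := ttU6_5) (by decide +kernel)

/-- the torus -/
def ttU6_6 : TT where
  k := 4
  rf := [false, false, false, false]
  tau := [7, 13, 18, 10, 20, 17, 14, 0, 16, 21, 3, 23, 19, 1, 6, 22, 8, 5, 2, 12, 4, 9, 15, 11]
  par := [0, 0, 1, 2]
  stars := [[0, 17, 8], [1, 7, 14], [2, 13, 19], [3, 18, 11], [4, 10, 21], [5, 20, 12], [6, 23, 15], [9, 16,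
    22]]
  word := [[], [], [], [3], [3, 0], [3, 0], [], [], [0, 3], [0], [2], [2], [], [], [], [2], [2, 1], [1, 2], [],
    [], [1, 2], [1], [3], [3]]
  rank := [0, 0, 0, 1, 2, 3, 1, 0, 3, 0, 1, 0, 1, 0, 1, 2, 3, 3, 0, 1, 2, 0, 2, 0]
  just := [0, 0, 0, 3, 4, 5, 1, 0, 7, 0, 3, 0, 2, 0, 1, 6, 7, 5, 0, 2, 4, 0, 6, 0]
  gA := 9
  gB := 11
  fin := 0
  sid := [0, 1, 2, 3, 4, 5, 6, 1, 0, 7, 4, 3, 5, 2, 1, 6, 7, 0, 3, 2, 5, 4, 7, 6]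
  off := [(0, 0), (0, 0), (0, 0), (0, 0), (0, 0), (0, 0), (0, 0), (0, 0), (0, 0), (0, 0), (0, 1), (0, 1), (-1,
    1), (0, 0), (0, 0), (0, 0), (-1, 1), (-1, 1), (0, 0), (0, 0), (-1, 1), (-1, 1), (-1, 0), (0, -1)]

theorem torU6_6_ok : torU6_6.OK 6 := TT.leaf_ok (T := ttU6_6) (by decide +kernel)

/-- the torus -/
def ttU6_7 : TT where
  k := 4
  rf := [false, true, false, true]
  tau := [7, 8, 9, 6, 16, 17, 3, 0, 1, 2, 22, 23, 19, 20, 21, 18, 4, 5, 15, 12, 13, 14, 10, 11]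
  par := [0, 0, 4, 10]
  stars := [[0, 17, 4, 7], [1, 8], [2, 9], [3, 10, 23, 6], [5, 16, 19, 12], [11, 18, 15, 22], [13, 20], [14,
    21]]
  word := [[], [], [], [3, 0], [], [2, 1], [1, 2], [], [], [], [], [1, 2], [0], [0], [0], [2], [], [0, 3], [3],
    [1], [1], [1], [], [3, 0]]
  rank := [0, 1, 2, 3, 0, 2, 3, 0, 1, 2, 0, 2, 1, 0, 1, 0, 0, 2, 0, 1, 0, 1, 0, 2]
  just := [0, 1, 2, 3, 0, 4, 3, 0, 1, 2, 0, 5, 6, 0, 7, 0, 0, 4, 0, 6, 0, 7, 0, 5]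
  gA := 13
  gB := 15
  fin := 0
  sid := [0, 1, 2, 3, 0, 4, 3, 0, 1, 2, 3, 5, 4, 6, 7, 5, 4, 0, 5, 4, 6, 7, 5, 3]
  off := [(0, 0), (0, 0), (0, 0), (0, 0), (1, -1), (0, 0), (-1, 1), (0, 0), (0, 0), (0, 0), (0, 0), (0, 0), (1,
    -1), (0, 0), (0, 0), (1, 0), (0, 0), (1, -1), (1, -1), (0, -1), (-1, 0), (-1, 0), (0, 0), (0, 0)]

theorem torU6_7_ok : torU6_7.OK 6 := TT.leaf_ok (T := ttU6_7) (by decide +kernel)

/-- the torus -/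
def ttU6_8 : TT where
  k := 4
  rf := [false, false, false, false]
  tau := [6, 15, 19, 18, 10, 22, 0, 21, 13, 12, 4, 16, 9, 8, 20, 1, 11, 23, 3, 2, 14, 7, 5, 17]
  par := [0, 0, 1, 2]
  stars := [[0, 22, 7], [1, 6, 16], [2, 15, 20], [3, 19], [4, 18, 17, 11], [5, 10, 12, 23], [8, 21, 14], [9,
    13]]
  word := [[], [], [], [], [3], [3, 0, 2], [], [0], [0], [0], [2], [], [1], [1], [], [], [], [2], [], [], [],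
    [1], [3, 1, 2], [3]]
  rank := [0, 0, 0, 1, 2, 3, 0, 2, 0, 1, 2, 1, 1, 0, 1, 0, 1, 0, 1, 0, 1, 2, 3, 0]
  just := [0, 0, 0, 3, 4, 5, 0, 6, 0, 7, 4, 1, 7, 0, 2, 0, 1, 0, 3, 0, 2, 6, 5, 0]
  gA := 8
  gB := 17
  fin := 0
  sid := [0, 1, 2, 3, 4, 5, 1, 0, 6, 7, 5, 4, 5, 7, 6, 2, 1, 4, 4, 3, 2, 6, 0, 5]
  off := [(0, 0), (0, 0), (0, 0), (0, 0), (0, 0), (0, 0), (0, 0), (0, 0), (0, 0), (0, 0), (0, 1), (0, 1), (-1,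
    1), (-1, 0), (-1, 0), (0, 0), (0, 0), (0, 1), (0, 0), (0, 0), (0, 0), (-1, 0), (-1, 0), (-1, 0)]

theorem torU6_8_ok : torU6_8.OK 6 := TT.leaf_ok (T := ttU6_8) (by decide +kernel)

/-- the torus -/
def ttU6_9 : TT where
  k := 4
  rf := [false, true, true, false]
  tau := [7, 8, 16, 21, 12, 23, 22, 0, 1, 15, 20, 17, 4, 18, 19, 9, 2, 11, 13, 14, 10, 3, 6, 5]
  par := [0, 0, 2, 3]
  stars := [[0, 23, 7], [1, 8], [2, 9, 16], [3, 17, 6, 22], [4, 21, 11, 12], [5, 13, 18], [10, 20, 15], [14,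
    19]]
  word := [[], [], [], [], [3, 0], [3, 0, 2], [0], [], [], [], [2], [0], [1, 2], [2], [2], [], [], [1], [3],
    [3], [3], [], [1], [3, 1, 2]]
  rank := [0, 1, 0, 0, 4, 5, 1, 0, 1, 2, 3, 0, 4, 1, 0, 2, 0, 0, 1, 0, 3, 0, 1, 5]
  just := [0, 1, 0, 0, 4, 5, 3, 0, 1, 2, 6, 0, 4, 7, 0, 2, 0, 0, 7, 0, 6, 0, 3, 5]
  gA := 11
  gB := 14
  fin := 0
  sid := [0, 1, 2, 3, 4, 5, 3, 0, 1, 2, 6, 4, 4, 5, 7, 6, 2, 3, 5, 7, 6, 4, 3, 0]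
  off := [(0, 0), (0, 0), (0, 0), (0, 0), (0, 0), (0, 0), (1, 0), (0, 0), (0, 0), (0, 0), (0, 0), (0, 1), (-1,
    1), (-1, 1), (0, 0), (0, 0), (0, 0), (0, 0), (-1, 0), (0, -1), (0, -1), (0, 0), (0, 0), (-1, 0)]

theorem torU6_9_ok : torU6_9.OK 6 := TT.leaf_ok (T := ttU6_9) (by decide +kernel)

/-- the torus -/
def ttU6_10 : TT where
  k := 4
  rf := [false, true, true, false]
  tau := [7, 15, 20, 10, 12, 23, 22, 0, 14, 19, 3, 17, 4, 18, 8, 1, 21, 11, 13, 9, 2, 16, 6, 5]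
  par := [0, 0, 1, 2]
  stars := [[0, 23, 7], [1, 8, 15], [2, 16, 21], [3, 20, 10], [4, 11, 12], [5, 13, 18], [6, 22, 17], [9, 19,
    14]]
  word := [[], [], [], [1], [1, 2], [1, 2, 0], [2], [], [], [0], [0], [2], [3, 0], [0], [], [], [], [3], [1],
    [1], [], [], [3], [1, 3, 0]]
  rank := [0, 0, 0, 1, 2, 3, 2, 0, 1, 0, 1, 0, 2, 2, 1, 0, 1, 0, 2, 0, 0, 1, 2, 3]
  just := [0, 0, 0, 3, 4, 5, 6, 0, 1, 0, 3, 0, 4, 7, 1, 0, 2, 0, 7, 0, 0, 2, 6, 5]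
  gA := 9
  gB := 11
  fin := 0
  sid := [0, 1, 2, 3, 4, 5, 6, 0, 1, 7, 3, 4, 4, 5, 7, 1, 2, 6, 5, 7, 3, 2, 6, 0]
  off := [(0, 0), (0, 0), (0, 0), (0, 0), (0, 0), (0, 0), (0, 0), (0, 0), (0, 0), (0, 0), (1, 0), (1, 0), (1,
    -1), (1, -1), (0, 0), (0, 0), (0, 0), (0, -1), (0, -1), (-1, 0), (0, 0), (0, 0), (0, -1), (0, -1)]

theorem torU6_10_ok : torU6_10.OK 6 := TT.leaf_ok (T := ttU6_10) (by decide +kernel)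

/-- the torus -/
def ttU6_11 : TT where
  k := 4
  rf := [false, false, true, true]
  tau := [6, 12, 20, 9, 15, 23, 0, 18, 14, 3, 21, 17, 1, 19, 8, 4, 22, 11, 7, 13, 2, 10, 16, 5]
  par := [0, 0, 1, 2]
  stars := [[0, 18, 7], [1, 6, 12], [2, 13, 20], [3, 21, 10], [4, 9, 15], [5, 16, 23], [8, 19, 14], [11, 22,
    17]]
  word := [[], [], [], [3], [3, 0], [3, 0, 2], [], [0], [0], [2], [2], [], [], [], [1], [1, 2], [2], [], [1],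
    [], [], [3], [3], [3, 1, 2]]
  rank := [0, 0, 0, 1, 2, 3, 0, 2, 0, 1, 0, 1, 0, 1, 0, 2, 2, 1, 2, 1, 0, 0, 2, 3]
  just := [0, 0, 0, 3, 4, 5, 0, 6, 0, 3, 0, 1, 0, 2, 0, 4, 7, 1, 6, 2, 0, 0, 7, 5]
  gA := 8
  gB := 10
  fin := 0
  sid := [0, 1, 2, 3, 4, 5, 1, 0, 6, 4, 3, 7, 1, 2, 6, 4, 5, 7, 0, 6, 2, 3, 7, 5]
  off := [(0, 0), (0, 0), (0, 0), (0, 0), (0, 0), (0, 0), (0, 0), (0, 0), (0, 0), (0, 1), (0, 1), (0, 0), (0,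
    0), (0, 0), (-1, 0), (-1, 1), (-1, 1), (0, 0), (-1, 0), (-1, 0), (0, 0), (0, 0), (0, -1), (-1, 0)]

theorem torU6_11_ok : torU6_11.OK 6 := TT.leaf_ok (T := ttU6_11) (by decide +kernel)

/-- the torus -/
def ttU6_12 : TT where
  k := 4
  rf := [false, false, false, false]
  tau := [7, 13, 14, 6, 11, 8, 3, 0, 5, 21, 22, 4, 19, 1, 2, 18, 23, 20, 15, 12, 17, 9, 10, 16]
  par := [0, 0, 1, 9]
  stars := [[0, 8], [1, 7, 3, 14], [2, 13, 19, 15], [4, 6], [5, 11, 22, 9], [10, 21, 17, 23], [12, 20], [16,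
    18]]
  word := [[], [], [0, 3], [0, 3], [0, 3], [0, 3, 1, 2], [2, 1], [], [3, 0, 2, 1], [], [1, 2], [2, 1], [0], [],
    [2, 1], [2], [2], [0], [3], [1], [1], [], [3, 0], [3]]
  rank := [0, 0, 1, 2, 3, 4, 2, 0, 4, 0, 2, 3, 0, 0, 1, 0, 1, 1, 0, 0, 1, 0, 2, 1]
  just := [0, 0, 2, 1, 3, 4, 1, 0, 4, 0, 5, 3, 0, 0, 2, 0, 7, 6, 0, 0, 6, 0, 5, 7]
  gA := 12
  gB := 15
  fin := 0
  sid := [0, 1, 2, 1, 3, 4, 3, 1, 0, 4, 5, 4, 6, 2, 1, 2, 7, 5, 7, 2, 6, 5, 4, 5]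
  off := [(0, 0), (0, 0), (0, 0), (1, -1), (0, 0), (0, 0), (-1, 1), (0, 0), (0, 0), (0, 0), (0, 0), (-1, 1),
    (0, 0), (0, 0), (0, 0), (-1, 1), (0, 0), (1, 0), (0, -1), (-1, 0), (-1, 0), (0, 0), (0, 0), (1, -1)]

theorem torU6_12_ok : torU6_12.OK 6 := TT.leaf_ok (T := ttU6_12) (by decide +kernel)

/-- the torus -/
def ttU6_13 : TT where
  k := 4
  rf := [false, false, false, false]
  tau := [7, 13, 18, 15, 11, 21, 14, 0, 20, 17, 22, 4, 19, 1, 6, 3, 23, 9, 2, 12, 8, 5, 10, 16]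
  par := [0, 0, 1, 2]
  stars := [[0, 21, 8], [1, 7, 14], [2, 13, 19], [3, 18, 16], [4, 15, 6], [5, 11, 22], [9, 20, 12], [10, 17,
    23]]
  word := [[], [], [], [3], [3], [3, 0, 2], [], [], [0], [0], [0, 2], [2], [], [], [], [2], [2], [1], [], [],
    [1], [3, 1, 2], [3, 1], [3]]
  rank := [0, 0, 0, 1, 2, 3, 1, 0, 2, 0, 1, 2, 1, 0, 1, 1, 0, 0, 0, 1, 2, 3, 1, 0]
  just := [0, 0, 0, 3, 4, 5, 1, 0, 6, 0, 7, 4, 2, 0, 1, 3, 0, 0, 0, 2, 6, 5, 7, 0]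
  gA := 9
  gB := 16
  fin := 0
  sid := [0, 1, 2, 3, 4, 5, 4, 1, 0, 6, 7, 5, 6, 2, 1, 4, 3, 7, 3, 2, 6, 0, 5, 7]
  off := [(0, 0), (0, 0), (0, 0), (0, 0), (0, 0), (0, 0), (0, 1), (0, 0), (0, 0), (0, 0), (0, 0), (0, 1), (-1,
    0), (0, 0), (0, 0), (0, 1), (0, 1), (-1, 0), (0, 0), (0, 0), (-1, 0), (-1, 0), (-1, 0), (-1, -1)]

theorem torU6_13_ok : torU6_13.OK 6 := TT.leaf_ok (T := ttU6_13) (by decide +kernel)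

/-- the torus -/
def ttU6_14 : TT where
  k := 4
  rf := [false, false, false, false]
  tau := [6, 14, 18, 9, 17, 21, 0, 20, 12, 3, 23, 15, 8, 19, 1, 11, 22, 4, 2, 13, 7, 5, 16, 10]
  par := [0, 0, 1, 2]
  stars := [[0, 21, 7], [1, 6, 15], [2, 14, 19], [3, 18, 10], [4, 9, 12], [5, 17, 22], [8, 20, 13], [11, 23,
    16]]
  word := [[], [], [], [3], [3, 0], [3, 0, 2], [], [0], [0], [2], [2], [], [1], [], [], [], [2], [1, 2], [],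
    [], [1], [3, 1, 2], [3], [3]]
  rank := [0, 0, 0, 1, 2, 3, 0, 2, 0, 1, 0, 1, 0, 1, 0, 1, 2, 2, 0, 1, 2, 3, 2, 0]
  just := [0, 0, 0, 3, 4, 5, 0, 6, 0, 3, 0, 1, 0, 2, 0, 1, 7, 4, 0, 2, 6, 5, 7, 0]
  gA := 8
  gB := 10
  fin := 0
  sid := [0, 1, 2, 3, 4, 5, 1, 0, 6, 4, 3, 7, 4, 6, 2, 1, 7, 5, 3, 2, 6, 0, 5, 7]
  off := [(0, 0), (0, 0), (0, 0), (0, 0), (0, 0), (0, 0), (0, 0), (0, 0), (0, 0), (0, 1), (0, 1), (0, 0), (-1,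
    1), (-1, 0), (0, 0), (0, 0), (0, 0), (-1, 1), (0, 0), (0, 0), (-1, 0), (-1, 0), (-1, 0), (0, -1)]

theorem torU6_14_ok : torU6_14.OK 6 := TT.leaf_ok (T := ttU6_14) (by decide +kernel)

/-- the torus -/
def ttU6_15 : TT where
  k := 2
  rf := [false, false]
  tau := [2, 11, 0, 8, 7, 9, 10, 4, 3, 5, 6, 1]
  par := [0, 1]
  stars := [[0, 9, 3], [1, 2, 11, 6], [4, 8], [5, 7, 10]]
  word := [[2], [], [3], [0], [0], [0, 2], [2], [1], [1], [3, 1], [3], []]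
  rank := [1, 0, 1, 1, 0, 1, 0, 0, 1, 1, 0, 0]
  just := [1, 0, 1, 2, 0, 3, 0, 0, 2, 3, 0, 0]
  gA := 4
  gB := 6
  fin := 0
  sid := [0, 1, 1, 0, 2, 3, 1, 3, 2, 0, 3, 1]
  off := [(0, 0), (0, 0), (0, -1), (0, -1), (0, 0), (0, 0), (0, 0), (-1, 0), (-1, 0), (-1, -1), (-1, -1), (0,
    -1)]

theorem torU6_15_ok : torU6_15.OK 6 := TT.leaf_ok (T := ttU6_15) (by decide +kernel)

/-- the torus -/
def ttU6_16 : TT where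
  k := 2
  rf := [false, true]
  tau := [3, 9, 8, 0, 6, 11, 4, 10, 2, 1, 7, 5]
  par := [0, 1]
  stars := [[0, 6, 4], [1, 3, 9], [2, 10, 8], [5, 7, 11]]
  word := [[2], [], [3], [3], [0, 3], [0], [2, 1], [2], [2], [], [3], [1]]
  rank := [2, 0, 1, 2, 1, 0, 1, 0, 1, 0, 0, 0]
  just := [1, 0, 2, 1, 3, 0, 3, 0, 2, 0, 0, 0]
  gA := 5
  gB := 7
  fin := 0
  sid := [0, 1, 2, 1, 0, 3, 0, 3, 2, 1, 2, 3]
  off := [(0, 0), (0, 0), (0, 0), (0, -1), (0, -1), (0, 0), (-1, 0), (-1, 1), (0, 1), (0, 0), (0, 0), (-1, 0)]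

theorem torU6_16_ok : torU6_16.OK 6 := TT.leaf_ok (T := ttU6_16) (by decide +kernel)

/-- the torus -/
def ttU6_17 : TT where
  k := 2
  rf := [false, false]
  tau := [3, 6, 11, 0, 8, 9, 1, 10, 4, 5, 7, 2]
  par := [0, 1]
  stars := [[0, 9, 4], [1, 3, 11, 7], [2, 6], [5, 8, 10]]
  word := [[2], [], [], [3], [0, 3], [0], [], [2], [2, 1], [1], [3], []]
  rank := [2, 0, 1, 2, 1, 0, 0, 0, 1, 0, 0, 1]
  just := [1, 0, 2, 1, 3, 0, 0, 0, 3, 0, 0, 2]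
  gA := 5
  gB := 7
  fin := 0
  sid := [0, 1, 2, 1, 0, 3, 2, 1, 3, 0, 3, 1]
  off := [(0, 0), (0, 0), (0, 0), (0, -1), (0, -1), (0, 0), (0, 0), (0, 0), (-1, 1), (-1, 0), (-1, 0), (0, -1)]

theorem torU6_17_ok : torU6_17.OK 6 := TT.leaf_ok (T := ttU6_17) (by decide +kernel)

/-- the torus -/
def ttU6_18 : TT where
  k := 3
  rf := [false, false, true]
  tau := [3, 6, 7, 0, 12, 13, 1, 2, 16, 17, 14, 15, 4, 5, 10, 11, 8, 9]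
  par := [0, 1, 4]
  stars := [[0, 14, 10, 12, 4], [1, 3, 7], [2, 6, 16, 8], [5, 13], [9, 17], [11, 15]]
  word := [[0, 3], [], [2, 1], [2, 1], [], [], [], [0, 3], [0], [0], [2], [2], [], [], [3], [3], [1], [1]]
  rank := [2, 0, 1, 2, 0, 1, 0, 1, 0, 1, 1, 0, 0, 1, 1, 0, 0, 1]
  just := [1, 0, 2, 1, 0, 3, 0, 2, 0, 4, 5, 0, 0, 3, 5, 0, 0, 4]
  gA := 8
  gB := 11
  fin := 0
  sid := [0, 1, 2, 1, 0, 3, 2, 1, 2, 4, 0, 5, 0, 3, 0, 5, 2, 4]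
  off := [(0, 0), (0, 0), (0, 0), (-1, 1), (-1, 1), (0, 0), (0, 0), (0, 0), (1, -1), (0, 0), (0, 1), (0, 0),
    (-1, 1), (0, 0), (0, 0), (0, -1), (0, -1), (-1, 0)]

theorem torU6_18_ok : torU6_18.OK 6 := TT.leaf_ok (T := ttU6_18) (by decide +kernel)

/-- the torus -/
def ttU6_19 : TT where
  k := 6
  rf := [false, false, false, false, false, false]
  tau := [7, 15, 14, 13, 18, 17, 16, 0, 11, 28, 30, 8, 19, 3, 2, 1, 6, 5, 4, 12, 23, 34, 24, 20, 22, 33, 32,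
    31, 9, 35, 10, 27, 26, 25, 21, 29]
  par := [0, 0, 1, 4, 9, 10]
  stars := [[0, 17, 6, 8], [1, 7, 16], [2, 15], [3, 14], [4, 13, 19], [5, 18, 20, 12], [9, 11, 30, 29], [10,
    28, 31], [21, 23, 24, 35], [22, 34, 25], [26, 33], [27, 32]]
  word := [[], [], [], [], [], [0, 2, 1], [], [], [2], [], [], [3], [], [], [], [], [], [0, 3, 1], [], [], [0,
    3, 1], [0], [0], [0, 2, 1], [1], [], [], [], [], [2], [], [], [], [], [1], [3]]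
  rank := [0, 0, 1, 2, 0, 6, 1, 0, 1, 0, 0, 1, 3, 2, 1, 0, 1, 6, 0, 3, 5, 4, 0, 5, 0, 3, 2, 1, 0, 0, 0, 1, 2,
    3, 4, 0]
  just := [0, 0, 2, 3, 0, 5, 1, 0, 6, 0, 0, 6, 4, 3, 2, 0, 1, 5, 0, 4, 8, 9, 0, 8, 0, 10, 11, 7, 0, 0, 0, 7,
    11, 10, 9, 0]
  gA := 22
  gB := 29
  fin := 0
  sid := [0, 1, 2, 3, 4, 5, 0, 1, 0, 6, 7, 6, 5, 4, 3, 2, 1, 0, 5, 4, 5, 8, 9, 8, 8, 9, 10, 11, 7, 6, 6, 7, 11,
    10, 9, 8]
  off := [(0, 0), (0, 0), (0, 0), (0, 0), (0, 0), (0, 0), (0, -1), (0, 0), (0, 0), (0, 0), (0, 0), (0, -1), (0,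
    -1), (0, 0), (0, 0), (0, 0), (0, 0), (0, -1), (0, 0), (0, 0), (0, -1), (0, 0), (0, 0), (0, 1), (-1, 1),
    (-1, 0), (0, 0), (0, 0), (0, 0), (0, 0), (0, -1), (0, 0), (0, 0), (0, 0), (-1, 0), (-1, 0)]

theorem torU6_19_ok : torU6_19.OK 6 := TT.leaf_ok (T := ttU6_19) (by decide +kernel)

/-- the torus -/
def ttU6_20 : TT where
  k := 3
  rf := [false, false, true]
  tau := [7, 16, 17, 10, 13, 14, 15, 0, 11, 12, 3, 8, 9, 4, 5, 6, 1, 2]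
  par := [0, 0, 1]
  stars := [[0, 15, 6, 8], [1, 7, 16], [2, 17], [3, 12, 9, 11], [4, 10, 13], [5, 14]]
  word := [[], [], [], [0], [0, 2], [0, 2], [], [], [2, 0], [2], [1], [1, 3], [3], [3, 1], [3, 1], [], [], []]
  rank := [0, 0, 1, 0, 1, 2, 1, 0, 2, 0, 0, 2, 0, 1, 2, 1, 0, 1]
  just := [0, 0, 2, 0, 4, 5, 1, 0, 3, 0, 0, 3, 0, 4, 5, 1, 0, 2]
  gA := 3
  gB := 9
  fin := 0
  sid := [0, 1, 2, 3, 4, 5, 0, 1, 0, 3, 4, 3, 3, 4, 5, 0, 1, 2]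
  off := [(0, 0), (0, 0), (0, 0), (0, 0), (0, 0), (0, 0), (-1, -1), (0, 0), (0, 0), (0, 1), (-1, 0), (-1, 0),
    (0, 0), (-1, -1), (-1, -1), (-1, -1), (0, 0), (0, 0)]

theorem torU6_20_ok : torU6_20.OK 6 := TT.leaf_ok (T := ttU6_20) (by decide +kernel)

/-- the torus -/
def ttU6_21 : TT where
  k := 4
  rf := [false, false, true, true]
  tau := [8, 17, 21, 11, 19, 13, 22, 16, 0, 14, 18, 3, 20, 5, 9, 23, 7, 1, 10, 4, 12, 2, 6, 15]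
  par := [0, 0, 1, 2]
  stars := [[0, 14, 9], [1, 8, 17], [2, 12, 21], [3, 22, 6], [4, 11, 19], [5, 20, 13], [7, 23, 16], [10, 15,
    18]]
  word := [[], [], [], [1], [1, 2], [1, 2], [0], [], [], [2, 1], [2], [0], [], [3, 0], [0, 3], [0], [], [],
    [3], [3, 0], [], [], [1], [1]]
  rank := [0, 0, 0, 1, 2, 3, 0, 1, 0, 3, 0, 1, 1, 3, 3, 2, 1, 0, 0, 2, 1, 0, 0, 2]
  just := [0, 0, 0, 3, 4, 5, 0, 1, 0, 7, 0, 3, 2, 5, 7, 6, 1, 0, 0, 4, 2, 0, 0, 6]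
  gA := 6
  gB := 10
  fin := 0
  sid := [0, 1, 2, 3, 4, 5, 3, 6, 1, 0, 7, 4, 2, 5, 0, 7, 6, 1, 7, 4, 5, 2, 3, 6]
  off := [(0, 0), (0, 0), (0, 0), (0, 0), (0, 0), (0, 0), (1, 0), (0, 0), (0, 0), (0, 0), (0, 0), (1, 0), (0,
    0), (1, -1), (1, -1), (1, -1), (0, 0), (0, 0), (0, -1), (1, -1), (1, -1), (0, 0), (0, 0), (-1, 0)]

theorem torU6_21_ok : torU6_21.OK 6 := TT.leaf_ok (T := ttU6_21) (by decide +kernel)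

/-- the torus -/
def ttU6_22 : TT where
  k := 4
  rf := [false, false, true, true]
  tau := [9, 8, 17, 22, 21, 12, 23, 16, 1, 0, 13, 20, 5, 10, 19, 18, 7, 2, 15, 14, 11, 4, 3, 6]
  par := [0, 0, 2, 3]
  stars := [[0, 13, 10], [1, 9], [2, 8, 17], [3, 12, 5, 22], [4, 23, 6, 21], [7, 18, 16], [11, 14, 20], [15,
    19]]
  word := [[], [], [], [], [3, 0], [3, 0], [2], [], [], [], [0, 3], [0], [1, 2], [2, 1], [2], [2], [], [], [3],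
    [3], [1], [1, 2], [], [3]]
  rank := [0, 1, 0, 0, 4, 5, 3, 2, 1, 0, 2, 0, 5, 2, 1, 0, 2, 0, 0, 1, 0, 4, 0, 3]
  just := [0, 1, 0, 0, 4, 3, 5, 2, 1, 0, 6, 0, 3, 6, 7, 0, 2, 0, 0, 7, 0, 4, 0, 5]
  gA := 11
  gB := 15
  fin := 0
  sid := [0, 1, 2, 3, 4, 3, 4, 5, 2, 1, 0, 6, 3, 0, 6, 7, 5, 2, 5, 7, 6, 4, 3, 4]
  off := [(0, 0), (0, 0), (0, 0), (0, 0), (0, 0), (1, -1), (0, 1), (0, 0), (0, 0), (0, 0), (0, 0), (0, 0), (0,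
    0), (-1, 1), (-1, 1), (0, 0), (0, 0), (0, 0), (0, -1), (0, -1), (-1, 0), (-1, 1), (0, 0), (0, 0)]

theorem torU6_22_ok : torU6_22.OK 6 := TT.leaf_ok (T := ttU6_22) (by decide +kernel)

/-- the torus -/
def ttU6_23 : TT where
  k := 4
  rf := [false, false, true, true]
  tau := [7, 16, 23, 14, 11, 20, 15, 0, 21, 12, 19, 4, 9, 18, 3, 6, 1, 22, 13, 10, 5, 8, 17, 2]
  par := [0, 0, 1, 2]
  stars := [[0, 21, 8], [1, 7, 16], [2, 17, 23], [3, 18, 14], [4, 15, 6], [5, 11, 20], [9, 22, 12], [10, 13,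
    19]]
  word := [[], [], [], [3], [3], [3, 0, 2], [], [], [0], [0], [0, 2], [2], [1], [2], [2], [], [], [], [3], [3,
    1], [3, 1, 2], [1], [], []]
  rank := [0, 0, 0, 1, 2, 3, 1, 0, 2, 0, 1, 2, 0, 0, 1, 1, 0, 1, 0, 1, 3, 2, 1, 0]
  just := [0, 0, 0, 3, 4, 5, 1, 0, 6, 0, 7, 4, 0, 0, 3, 1, 0, 2, 0, 7, 5, 6, 2, 0]
  gA := 9
  gB := 13
  fin := 0
  sid := [0, 1, 2, 3, 4, 5, 4, 1, 0, 6, 7, 5, 6, 7, 3, 4, 1, 2, 3, 7, 5, 0, 6, 2]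
  off := [(0, 0), (0, 0), (0, 0), (0, 0), (0, 0), (0, 0), (0, 1), (0, 0), (0, 0), (0, 0), (0, 0), (0, 1), (-1,
    0), (-1, 0), (0, 1), (0, 1), (0, 0), (0, 0), (0, 0), (-1, -1), (-1, 0), (-1, 0), (-1, 0), (0, 0)]

theorem torU6_23_ok : torU6_23.OK 6 := TT.leaf_ok (T := ttU6_23) (by decide +kernel)

/-- the torus -/
def ttU6_24 : TT where
  k := 4
  rf := [false, false, true, true]
  tau := [7, 14, 13, 6, 11, 8, 3, 0, 5, 22, 21, 4, 19, 2, 1, 18, 23, 20, 15, 12, 17, 10, 9, 16]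
  par := [0, 0, 1, 9]
  stars := [[0, 8], [1, 7, 3, 14], [2, 15, 19, 13], [4, 6], [5, 11, 22, 9], [10, 23, 17, 21], [12, 20], [16,
    18]]
  word := [[], [], [2, 1], [2, 1], [2, 1], [2, 1, 3, 0], [0, 3], [], [1, 2, 0, 3], [], [3, 0], [0, 3], [0], [0,
    3], [], [2], [2], [0], [3], [1], [1], [1, 2], [], [3]]
  rank := [0, 0, 1, 2, 3, 4, 2, 0, 4, 0, 2, 3, 0, 1, 0, 0, 1, 1, 0, 0, 1, 2, 0, 1]
  just := [0, 0, 2, 1, 3, 4, 1, 0, 4, 0, 5, 3, 0, 2, 0, 0, 7, 6, 0, 0, 6, 5, 0, 7]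
  gA := 12
  gB := 15
  fin := 0
  sid := [0, 1, 2, 1, 3, 4, 3, 1, 0, 4, 5, 4, 6, 2, 1, 2, 7, 5, 7, 2, 6, 5, 4, 5]
  off := [(0, 0), (0, 0), (0, 0), (-1, 1), (0, 0), (0, 0), (1, -1), (0, 0), (0, 0), (0, 0), (0, 0), (1, -1),
    (0, 0), (1, -1), (0, 0), (0, 0), (0, 0), (0, 1), (0, -1), (0, -1), (-1, 0), (-1, 1), (0, 0), (0, 0)]

theorem torU6_24_ok : torU6_24.OK 6 := TT.leaf_ok (T := ttU6_24) (by decide +kernel)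

/-- the torus -/
def ttU6_25 : TT where
  k := 8
  rf := [false, false, false, false, true, true, true, true]
  tau := [8, 13, 19, 28, 16, 35, 33, 14, 0, 30, 39, 47, 20, 1, 7, 34, 4, 29, 27, 2, 12, 24, 45, 41, 21, 44, 36,
    18, 3, 17, 9, 38, 42, 6, 15, 5, 26, 43, 31, 10, 46, 23, 32, 37, 25, 22, 40, 11]
  par := [0, 0, 1, 2, 3, 5, 10, 11]
  stars := [[0, 30, 9], [1, 8, 14], [2, 13, 20], [3, 19, 28], [4, 29, 17], [5, 16, 35], [6, 42, 33], [7, 34,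
    15], [10, 31, 39], [11, 40, 47], [12, 24, 21], [18, 36, 27], [22, 25, 45], [23, 46, 41], [26, 37, 44], [32,
    43, 38]]
  word := [[], [], [], [], [1], [], [0], [], [], [3, 1, 2, 0], [], [], [], [], [], [0], [0], [0], [], [], [],
    [0], [2], [2], [1], [1, 2], [2], [], [], [1], [1, 3, 0, 2], [1, 3, 0, 2], [1], [1], [1], [], [3], [3, 1,
    2], [3, 1, 2, 0], [], [], [3], [0], [3, 0, 2], [3, 0], [3], [], []]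
  rank := [0, 0, 0, 0, 1, 0, 3, 1, 0, 6, 0, 0, 1, 0, 1, 2, 1, 0, 1, 0, 1, 2, 2, 0, 2, 3, 2, 1, 0, 0, 6, 5, 4,
    3, 2, 0, 2, 4, 5, 0, 1, 0, 4, 4, 3, 2, 1, 0]
  just := [0, 0, 0, 0, 4, 0, 7, 1, 0, 8, 0, 0, 2, 0, 1, 5, 4, 0, 3, 0, 2, 10, 13, 0, 10, 12, 11, 3, 0, 0, 8,
    15, 6, 7, 5, 0, 11, 14, 15, 0, 9, 0, 6, 14, 12, 13, 9, 0]
  gA := 17
  gB := 23
  fin := 0
  sid := [0, 1, 2, 3, 4, 5, 6, 7, 1, 0, 8, 9, 10, 2, 1, 7, 5, 4, 11, 3, 2, 10, 12, 13, 10, 12, 14, 11, 3, 4, 0,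
    8, 15, 6, 7, 5, 11, 14, 15, 8, 9, 13, 6, 15, 14, 12, 13, 9]
  off := [(0, 0), (0, 0), (0, 0), (0, 0), (0, 0), (0, 0), (0, 0), (0, 0), (0, 0), (0, 0), (0, 0), (0, 0), (0,
    0), (0, 0), (0, 0), (0, 0), (1, 0), (1, 0), (0, 0), (0, 0), (0, 0), (0, 0), (0, 0), (0, 0), (-1, 0), (-1,
    0), (0, 0), (0, 0), (0, 0), (0, 0), (0, 0), (0, 0), (0, 0), (-1, 0), (-1, 0), (0, 0), (0, -1), (0, -1), (0,
    0), (0, 0), (0, 0), (0, -1), (0, 0), (1, 0), (1, -1), (0, -1), (0, -1), (0, 0)]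

theorem torU6_25_ok : torU6_25.OK 6 := TT.leaf_ok (T := ttU6_25) (by decide +kernel)

/-- the torus -/
def ttU6_26 : TT where
  k := 4
  rf := [false, false, true, true]
  tau := [3, 8, 9, 0, 17, 16, 23, 10, 1, 2, 7, 18, 15, 20, 21, 12, 5, 4, 11, 22, 13, 14, 19, 6]
  par := [0, 1, 4, 6]
  stars := [[0, 17, 4], [1, 3, 9], [2, 8, 10], [5, 12, 16], [6, 19, 23], [7, 18, 11], [13, 21, 15], [14, 22,
    20]]
  word := [[3], [], [2], [2], [], [0, 3, 1], [], [2], [], [3], [3], [3], [0, 3, 1], [0, 3], [0], [0, 2, 1], [0,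
    2, 1], [], [2], [2], [2, 1], [1], [3], []]
  rank := [4, 0, 3, 4, 0, 3, 0, 2, 0, 3, 2, 1, 2, 1, 0, 2, 3, 0, 1, 0, 1, 0, 0, 0]
  just := [1, 0, 2, 1, 0, 3, 0, 5, 0, 2, 5, 4, 6, 7, 0, 6, 3, 0, 4, 0, 7, 0, 0, 0]
  gA := 14
  gB := 19
  fin := 0
  sid := [0, 1, 2, 1, 0, 3, 4, 5, 2, 1, 2, 5, 3, 6, 7, 6, 3, 0, 5, 4, 7, 6, 7, 4]
  off := [(0, 0), (0, 0), (0, 0), (0, 1), (0, 1), (0, 0), (0, 0), (0, 0), (0, 0), (0, 0), (0, -1), (0, -1), (0,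
    0), (0, 0), (0, 0), (0, 1), (0, 1), (0, 1), (0, 0), (0, 1), (-1, 1), (-1, 1), (-1, 0), (0, 0)]

theorem torU6_26_ok : torU6_26.OK 6 := TT.leaf_ok (T := ttU6_26) (by decide +kernel)

/-- the torus -/
def ttU6_27 : TT where
  k := 4
  rf := [false, false, true, true]
  tau := [7, 10, 17, 20, 21, 14, 23, 0, 15, 16, 1, 18, 19, 22, 5, 8, 9, 2, 11, 12, 3, 4, 13, 6]
  par := [0, 0, 2, 3]
  stars := [[0, 15, 8], [1, 7, 18, 11], [2, 10, 17], [3, 12, 20], [4, 21], [5, 22, 14], [6, 19, 13, 23], [9,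
    16]]
  word := [[], [0], [], [], [], [3, 1, 2], [0, 2], [], [1], [1], [1], [2], [], [3, 0, 2], [3, 0, 2], [0], [0],
    [], [3], [], [], [], [3, 1, 2], [3, 1]]
  rank := [0, 0, 0, 0, 1, 3, 1, 0, 2, 1, 0, 0, 1, 2, 3, 2, 1, 0, 0, 1, 0, 1, 2, 1]
  just := [0, 0, 0, 0, 4, 5, 1, 0, 7, 2, 0, 0, 3, 6, 5, 7, 2, 0, 0, 3, 0, 4, 6, 1]
  gA := 1
  gB := 11
  fin := 0
  sid := [0, 1, 2, 3, 4, 5, 6, 1, 0, 7, 2, 1, 3, 6, 5, 0, 7, 2, 1, 6, 3, 4, 5, 6]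
  off := [(0, 0), (0, 0), (0, 0), (0, 0), (0, 0), (0, 0), (0, 0), (0, 0), (0, 0), (0, 0), (-1, 0), (-1, 0), (0,
    0), (0, -1), (1, 0), (1, 0), (1, 0), (0, 0), (-1, -1), (0, -1), (0, 0), (0, 0), (0, 0), (-1, -1)]

theorem torU6_27_ok : torU6_27.OK 6 := TT.leaf_ok (T := ttU6_27) (by decide +kernel)

/-- the torus -/
def ttU6_28 : TT where
  k := 8
  rf := [false, false, false, false, true, true, true, true]
  tau := [9, 8, 14, 19, 16, 29, 28, 15, 1, 0, 24, 35, 21, 20, 2, 7, 4, 41, 40, 3, 13, 12, 36, 47, 10, 45, 31,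
    30, 6, 5, 27, 26, 44, 37, 46, 11, 22, 33, 43, 42, 18, 17, 39, 38, 32, 25, 34, 23]
  par := [0, 0, 2, 3, 5, 11, 17, 23]
  stars := [[0, 24, 10], [1, 9], [2, 8, 15], [3, 14, 20], [4, 19, 41, 17], [5, 16, 7, 29], [6, 30, 28], [11,
    25, 46, 35], [12, 36, 22], [13, 21], [18, 42, 40], [23, 37, 34, 47], [26, 32, 45], [27, 31], [33, 38, 44],
    [39, 43]]
  word := [[], [], [], [], [0], [], [1], [], [], [], [2, 0, 3, 1], [], [], [], [], [], [1], [], [0], [], [],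
    [], [], [], [0, 2, 1, 3], [0, 2, 1], [0], [0], [0], [], [1], [1], [2, 1], [2], [2], [], [], [3], [1], [1],
    [1], [], [0], [0], [0, 3], [0, 3, 1], [3], []]
  rank := [0, 1, 0, 0, 1, 0, 3, 2, 1, 0, 7, 0, 2, 1, 0, 2, 1, 0, 0, 0, 1, 2, 3, 0, 7, 6, 5, 4, 3, 0, 4, 5, 3,
    0, 4, 0, 3, 0, 2, 1, 0, 0, 1, 2, 3, 6, 4, 0]
  just := [0, 1, 0, 0, 4, 0, 5, 2, 1, 0, 7, 0, 9, 3, 0, 2, 4, 0, 0, 0, 3, 9, 8, 0, 7, 12, 13, 6, 5, 0, 6, 13,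
    14, 0, 11, 0, 8, 0, 15, 10, 0, 0, 10, 15, 14, 12, 11, 0]
  gA := 18
  gB := 33
  fin := 0
  sid := [0, 1, 2, 3, 4, 5, 6, 5, 2, 1, 0, 7, 8, 9, 3, 2, 5, 4, 10, 4, 3, 9, 8, 11, 0, 7, 12, 13, 6, 5, 6, 13,
    12, 14, 11, 7, 8, 11, 14, 15, 10, 4, 10, 15, 14, 12, 7, 11]
  off := [(0, 0), (0, 0), (0, 0), (0, 0), (0, 0), (0, 0), (0, 0), (-1, 0), (0, 0), (0, 0), (0, 0), (0, 0), (0,
    0), (0, 0), (0, 0), (0, 0), (-1, 0), (-1, 0), (0, 0), (0, 0), (0, 0), (0, 0), (0, 0), (0, 0), (0, 0), (0,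
    0), (0, 0), (0, 0), (1, 0), (0, 0), (0, 0), (-1, 0), (-1, 0), (0, 0), (0, 1), (0, 0), (0, 0), (0, 0), (0,
    -1), (0, 0), (-1, 0), (-1, 0), (0, 0), (1, 0), (1, -1), (0, -1), (0, -1), (0, 0)]

theorem torU6_28_ok : torU6_28.OK 6 := TT.leaf_ok (T := ttU6_28) (by decide +kernel)

/-- the torus -/
def ttU6_29 : TT where
  k := 8
  rf := [false, false, false, false, true, true, true, true]
  tau := [8, 13, 19, 18, 27, 35, 15, 14, 0, 40, 22, 47, 20, 1, 7, 6, 33, 29, 3, 2, 12, 46, 10, 41, 45, 44, 36,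
    4, 34, 17, 39, 38, 42, 16, 28, 5, 26, 43, 31, 30, 9, 23, 32, 37, 25, 24, 21, 11]
  par := [0, 0, 1, 2, 4, 5, 9, 11]
  stars := [[0, 30, 40, 9], [1, 8, 14], [2, 13, 20], [3, 19], [4, 18, 36, 27], [5, 28, 35], [6, 42, 33, 16],
    [7, 15], [10, 41, 23], [11, 22, 47], [12, 24, 46, 21], [17, 34, 29], [25, 45], [26, 37, 44], [31, 39], [32,
    43, 38]]
  word := [[], [], [], [], [], [], [], [], [], [], [0], [], [], [], [], [], [1, 3], [1, 3], [], [], [], [1],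
    [1], [1], [2], [2], [1], [], [], [2, 0], [2, 0, 3, 1], [2, 0, 3, 1], [2, 0], [2, 0], [], [], [0], [0, 2],
    [0, 2, 1, 3], [0, 2, 1, 3], [], [0], [1, 3], [3, 1], [3], [3], [0], []]
  rank := [0, 0, 0, 1, 0, 0, 2, 1, 0, 0, 0, 0, 1, 0, 1, 2, 3, 2, 1, 0, 1, 1, 0, 1, 0, 1, 2, 0, 1, 2, 6, 5, 4,
    3, 1, 0, 2, 3, 5, 6, 0, 1, 4, 3, 1, 0, 1, 0]
  just := [0, 0, 0, 3, 0, 0, 7, 1, 0, 0, 0, 0, 2, 0, 1, 7, 11, 10, 3, 0, 2, 9, 0, 8, 0, 12, 4, 0, 5, 10, 14,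
    15, 6, 11, 5, 0, 4, 13, 15, 14, 0, 8, 6, 13, 12, 0, 9, 0]
  gA := 10
  gB := 24
  fin := 0
  sid := [0, 1, 2, 3, 4, 5, 6, 7, 1, 0, 8, 9, 10, 2, 1, 7, 6, 11, 4, 3, 2, 10, 9, 8, 10, 12, 13, 4, 5, 11, 0,
    14, 15, 6, 11, 5, 4, 13, 15, 14, 0, 8, 6, 15, 13, 12, 10, 9]
  off := [(0, 0), (0, 0), (0, 0), (0, 0), (0, 0), (0, 0), (0, 0), (0, 0), (0, 0), (0, 0), (0, 0), (0, 0), (0,
    0), (0, 0), (0, 0), (0, 0), (0, 0), (0, 0), (0, 0), (0, 0), (0, 0), (0, 0), (-1, 0), (-1, 0), (1, 1), (0,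
    0), (0, 0), (0, 0), (0, 0), (1, 1), (0, 0), (0, 0), (0, 0), (1, 1), (1, 1), (0, 0), (1, 0), (1, 0), (0, 0),
    (0, 0), (0, 0), (0, 0), (0, 0), (-1, -1), (0, -1), (0, -1), (1, 0), (0, 0)]

theorem torU6_29_ok : torU6_29.OK 6 := TT.leaf_ok (T := ttU6_29) (by decide +kernel)

/-- the torus -/
def ttU6_30 : TT where
  k := 8
  rf := [false, false, false, false, true, true, true, true]
  tau := [6, 15, 19, 18, 29, 22, 0, 21, 13, 12, 35, 16, 9, 8, 20, 1, 11, 40, 3, 2, 14, 7, 5, 46, 45, 44, 32,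
    37, 47, 4, 39, 38, 26, 43, 41, 10, 42, 27, 31, 30, 17, 34, 36, 33, 25, 24, 23, 28]
  par := [0, 0, 1, 2, 4, 10, 17, 23]
  stars := [[0, 22, 7], [1, 6, 16], [2, 15, 20], [3, 19], [4, 18, 47, 29], [5, 24, 46, 23], [8, 21, 14], [9,
    13], [10, 12, 41, 35], [11, 30, 40, 17], [25, 45], [26, 33, 44], [27, 38, 32], [28, 42, 37], [31, 39], [34,
    36, 43]]
  word := [[], [], [], [], [], [3, 0, 2], [], [0], [0], [0], [], [], [1], [1], [], [], [], [], [], [], [], [1],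
    [3, 1, 2], [], [3, 0, 2], [3, 0, 2], [3], [3], [], [], [], [], [2], [0, 2], [0], [], [2], [2], [], [], [],
    [1], [3], [3, 1], [3, 1, 2], [3, 1, 2], [], []]
  rank := [0, 0, 0, 1, 0, 7, 0, 3, 2, 1, 0, 1, 1, 2, 1, 0, 1, 0, 1, 0, 1, 3, 7, 0, 6, 5, 4, 3, 2, 0, 2, 3, 4,
    1, 0, 0, 0, 3, 3, 2, 0, 0, 0, 1, 5, 6, 0, 2]
  just := [0, 0, 0, 3, 0, 5, 0, 6, 7, 8, 0, 1, 8, 7, 2, 0, 1, 0, 3, 0, 2, 6, 5, 0, 10, 11, 12, 13, 4, 0, 9, 14,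
    12, 15, 0, 0, 0, 13, 14, 9, 0, 0, 0, 15, 11, 10, 0, 4]
  gA := 34
  gB := 36
  fin := 0
  sid := [0, 1, 2, 3, 4, 5, 1, 0, 6, 7, 8, 9, 8, 7, 6, 2, 1, 9, 4, 3, 2, 6, 0, 5, 5, 10, 11, 12, 13, 4, 9, 14,
    12, 11, 15, 8, 15, 13, 12, 14, 9, 8, 13, 15, 11, 10, 5, 4]
  off := [(0, 0), (0, 0), (0, 0), (0, 0), (0, 0), (0, 0), (0, 0), (0, 0), (0, 0), (0, 0), (0, 0), (0, 0), (-1,
    0), (-1, 0), (-1, 0), (0, 0), (0, 0), (0, 0), (0, 0), (0, 0), (0, 0), (-1, 0), (-1, 0), (-1, 0), (0, 0),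
    (0, 0), (0, 0), (0, 0), (0, 0), (0, 0), (0, 0), (0, 0), (0, 1), (0, 1), (0, 0), (0, 0), (-1, 0), (0, 1),
    (0, 1), (0, 0), (0, 0), (-1, 0), (0, 0), (-1, -1), (-1, 0), (-1, 0), (-1, 0), (0, 0)]

theorem torU6_30_ok : torU6_30.OK 6 := TT.leaf_ok (T := ttU6_30) (by decide +kernel)

/-- the torus -/
def ttU6_31 : TT where
  k := 8
  rf := [false, false, false, false, false, false, false, false]
  tau := [8, 7, 6, 12, 23, 16, 2, 1, 0, 24, 35, 28, 3, 27, 26, 25, 5, 40, 39, 33, 32, 31, 41, 4, 9, 15, 14, 13,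
    11, 46, 45, 21, 20, 19, 47, 10, 44, 43, 42, 18, 17, 22, 38, 37, 36, 30, 29, 34]
  par := [0, 0, 3, 4, 9, 10, 17, 29]
  stars := [[0, 16, 25, 9], [1, 8], [2, 7], [3, 6, 28, 13], [4, 12, 40, 18], [5, 23, 41, 17], [10, 24, 46, 30],
    [11, 35, 47, 29], [14, 27], [15, 26], [19, 39, 42, 34], [20, 33], [21, 32], [22, 31, 45, 36], [37, 44],
    [38, 43]]
  word := [[], [], [], [], [], [2, 1, 3], [], [], [], [], [], [0], [], [0], [0], [0], [2, 0, 3], [], [], [2,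
    1], [2, 1], [2, 1], [2, 1, 3], [], [], [1], [1], [1], [1], [], [], [0, 3], [0, 3], [0, 3], [0], [], [2],
    [2], [2], [], [], [2, 0, 3], [3], [3], [3], [], [], [1]]
  rank := [0, 1, 2, 0, 0, 6, 2, 1, 0, 0, 0, 1, 0, 3, 4, 5, 6, 0, 1, 2, 3, 4, 5, 0, 0, 5, 4, 3, 1, 0, 1, 4, 3,
    2, 0, 0, 2, 1, 0, 1, 0, 5, 0, 1, 2, 1, 0, 0]
  just := [0, 1, 2, 0, 0, 5, 2, 1, 0, 0, 0, 7, 0, 3, 8, 9, 5, 0, 4, 10, 11, 12, 13, 0, 0, 9, 8, 3, 7, 0, 6, 12,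
    11, 10, 0, 0, 14, 15, 0, 4, 0, 13, 0, 15, 14, 6, 0, 0]
  gA := 34
  gB := 38
  fin := 0
  sid := [0, 1, 2, 3, 4, 5, 3, 2, 1, 0, 6, 7, 4, 3, 8, 9, 0, 5, 4, 10, 11, 12, 13, 5, 6, 0, 9, 8, 3, 7, 6, 13,
    12, 11, 10, 7, 13, 14, 15, 10, 4, 5, 10, 15, 14, 13, 6, 7]
  off := [(0, 0), (0, 0), (0, 0), (0, 0), (0, 0), (0, 0), (0, 0), (0, 0), (0, 0), (0, 0), (0, 0), (0, 0), (0,
    0), (0, 0), (0, 0), (0, 0), (1, 0), (1, 0), (0, 0), (0, 0), (0, 0), (0, 0), (0, 0), (0, 0), (0, 0), (0, 0),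
    (-1, 0), (-1, 0), (-1, 0), (-1, 0), (0, 0), (1, -1), (1, -1), (1, -1), (1, -1), (0, 0), (1, 0), (0, 0), (0,
    0), (0, 0), (0, 0), (1, 0), (0, -1), (0, -1), (0, -1), (1, -1), (0, 0), (-1, 0)]

theorem torU6_31_ok : torU6_31.OK 6 := TT.leaf_ok (T := ttU6_31) (by decide +kernel)

/-- the torus -/
def ttU6_32 : TT where
  k := 4
  rf := [false, false, true, true]
  tau := [9, 8, 11, 10, 13, 12, 23, 22, 1, 0, 3, 2, 5, 4, 19, 18, 21, 20, 15, 14, 17, 16, 7, 6]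
  par := [0, 0, 4, 6]
  stars := [[0, 13, 4, 10], [1, 9], [2, 8, 23, 6], [3, 11], [5, 14, 20, 12], [7, 18, 16, 22], [15, 19], [17,
    21]]
  word := [[], [], [1, 2], [1, 2], [], [0, 3], [], [1, 2], [], [], [3, 0], [3, 0], [2, 1], [], [0], [0], [2],
    [2], [1], [1], [3], [3], [3, 0], []]
  rank := [0, 1, 2, 3, 0, 2, 0, 1, 1, 0, 3, 2, 2, 0, 1, 0, 0, 1, 0, 1, 1, 0, 1, 0]
  just := [0, 1, 2, 3, 0, 4, 0, 5, 1, 0, 3, 2, 4, 0, 6, 0, 0, 7, 0, 6, 7, 0, 5, 0]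
  gA := 15
  gB := 16
  fin := 0
  sid := [0, 1, 2, 3, 0, 4, 2, 5, 2, 1, 0, 3, 4, 0, 4, 6, 5, 7, 5, 6, 4, 7, 5, 2]
  off := [(0, 0), (0, 0), (0, 0), (0, 0), (-1, 1), (0, 0), (1, -1), (0, 0), (0, 0), (0, 0), (0, 0), (1, -1),
    (-1, 1), (-1, 1), (0, 0), (0, 0), (1, 0), (0, 0), (0, 0), (-1, 0), (-1, 0), (0, -1), (1, -1), (1, -1)]

theorem torU6_32_ok : torU6_32.OK 6 := TT.leaf_ok (T := ttU6_32) (by decide +kernel)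

/-- the torus -/
def ttU6_33 : TT where
  k := 8
  rf := [false, false, true, false, true, false, true, true]
  tau := [9, 12, 13, 14, 11, 22, 25, 26, 27, 0, 35, 4, 1, 2, 3, 24, 41, 28, 37, 38, 39, 30, 5, 34, 15, 6, 7, 8,
    17, 46, 21, 42, 43, 44, 23, 10, 45, 18, 19, 20, 47, 16, 31, 32, 33, 36, 29, 40]
  par := [0, 0, 1, 5, 6, 10, 16, 29]
  stars := [[0, 22, 30, 10], [1, 9, 28, 12], [2, 13], [3, 14], [4, 15, 25, 6], [5, 11, 35, 23], [7, 26], [8,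
    27], [16, 36, 46, 24], [17, 29, 47, 41], [18, 34, 45, 37], [19, 38], [20, 39], [21, 40, 42, 31], [32, 43],
    [33, 44]]
  word := [[], [], [], [], [0], [], [], [], [], [], [], [1], [], [], [], [0], [], [], [0, 2, 1], [0, 2, 1], [0,
    2, 1], [0, 2, 1, 3], [], [0], [1], [], [], [], [], [], [2, 0, 3, 1], [2], [2], [2], [1], [], [0], [0, 3,
    1], [0, 3, 1], [0, 3, 1], [], [], [3], [3], [3], [1], [], []]
  rank := [0, 0, 1, 2, 3, 0, 0, 1, 2, 0, 0, 3, 0, 1, 2, 0, 0, 3, 5, 6, 7, 8, 0, 4, 0, 0, 1, 2, 3, 0, 8, 2, 1,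
    0, 4, 0, 1, 5, 6, 7, 4, 0, 2, 1, 0, 1, 0, 4]
  just := [0, 0, 2, 3, 4, 0, 0, 6, 7, 0, 0, 4, 0, 2, 3, 0, 0, 1, 10, 11, 12, 13, 0, 5, 0, 0, 6, 7, 1, 0, 13,
    14, 15, 0, 5, 0, 8, 10, 11, 12, 9, 0, 14, 15, 0, 8, 0, 9]
  gA := 15
  gB := 33
  fin := 0
  sid := [0, 1, 2, 3, 4, 5, 4, 6, 7, 1, 0, 5, 1, 2, 3, 4, 8, 9, 10, 11, 12, 13, 0, 5, 8, 4, 6, 7, 1, 9, 0, 13,
    14, 15, 10, 5, 8, 10, 11, 12, 13, 9, 13, 14, 15, 10, 8, 9]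
  off := [(0, 0), (0, 0), (0, 0), (0, 0), (0, 0), (0, 0), (-1, 0), (0, 0), (0, 0), (0, 0), (0, 0), (-1, 0), (0,
    0), (0, 0), (0, 0), (0, 0), (0, 0), (0, 0), (0, 0), (0, 0), (0, 0), (0, 0), (0, 0), (0, 0), (-1, 0), (-1,
    0), (0, 0), (0, 0), (0, 0), (0, 0), (0, 0), (0, 0), (0, 0), (0, 0), (-1, 0), (-1, 0), (0, 0), (0, -1), (0,
    -1), (0, -1), (0, -1), (0, 0), (0, -1), (0, -1), (0, -1), (-1, -1), (-1, 0), (0, 0)]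

theorem torU6_33_ok : torU6_33.OK 6 := TT.leaf_ok (T := ttU6_33) (by decide +kernel)

end Pool.Agent.Lib_MP_fa6e45
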