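import Pool.Agent.Lib_MP_fa6e45.CXT
import Pool.Agent.Lib_MP_fa6e45.CS6
import Pool.Agent.Lib_MP_fa6e45.CS9f

/-!
MP_fa6e45_co, stage 7: the leaves `torUfc` (the leaf `F_c`) and two leaves which are impossible: the closing relation
of the chords implies that two corners coincide.
-/

open Set MeasureTheory Complex
open scoped Topology

namespace Pool.Agent.Lib_MP_fa6e45

theorem torUfc_ok : torUfc.OK 6 := by
  intro n P S b hc hb hg hE
  exact torFc_ok P S b hc hb hg hE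

variable {n : ℕ} {P : Polygon n}

private theorem V6_ne_xf (S : Arcs P 6) (i : ZMod 6) : S.V (i + 1 + 1) ≠ S.V i := by
  intro h
  have h1 := P.injective h
  rw [S.step, S.step, add_assoc] at h1
  have h2 : ((S.w i + S.w (i + 1) : ℕ) : ZMod n) = 0 := by
    have h3 : S.κ i + ((S.w i : ZMod n) + (S.w (i + 1) : ZMod n)) = S.κ i + 0 := by
      rw [add_zero]
      exact h1
    have h4 := add_left_cancel h3
    push_cast
    exact h4
  rw [ZMod.natCast_eq_zero_iff] at h2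
  have h3 : S.w i + S.w (i + 1) < n := by
    have e : ∑ j, S.w j = S.w i + S.w (i + 1) + S.w (i + 2) + S.w (i + 3) + S.w (i + 4) + S.w (i + 5) := by
      rw [← Equiv.sum_comp (Equiv.addLeft i) S.w]
      simp only [Equiv.coe_addLeft]
      have h4 : ∑ j : ZMod 6, S.w (i + j) = S.w (i + 0) + S.w (i + 1) + S.w (i + 2) + S.w (i + 3) +
          S.w (i + 4) + S.w (i + 5) := Fin.sum_univ_six (fun j : ZMod 6 => S.w (i + j))
      rw [h4, add_zero]
    rw [S.total] at e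
    have := S.w_pos (i + 2)
    omega
  have := S.w_pos i
  have := Nat.le_of_dvd (by omega) h2
  omega

private theorem gzpi_xf : gz Real.pi = -1 := by
  unfold gz
  exact Complex.exp_pi_mul_I

/-- the chords in terms of the angles -/
private theorem dir_xf (S : Arcs P 6) {b : ZMod 6 → ℝ} (hb : S.ChordAng b) :
    ∃ z : ℂ, z ≠ 0 ∧ S.ch 0 = ‖S.ch 0‖ * z ∧
      S.ch 1 = ‖S.ch 1‖ * (z * gz (Real.pi * (1 - b 1))) ∧
      S.ch 2 = ‖S.ch 2‖ * (z * gz (Real.pi * (2 - b 1 - b 2))) ∧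
      S.ch 3 = ‖S.ch 3‖ * (z * gz (Real.pi * (3 - b 1 - b 2 - b 3))) ∧
      S.ch 4 = ‖S.ch 4‖ * (z * gz (Real.pi * (4 - b 1 - b 2 - b 3 - b 4))) ∧
      S.ch 5 = ‖S.ch 5‖ * (z * gz (Real.pi * (5 - b 1 - b 2 - b 3 - b 4 - b 5))) := by
  have hne : ∀ j, (‖S.ch j‖ : ℂ) ≠ 0 := by
    intro j
    have h := norm_pos_iff.2 (S.ch_ne (by norm_num) j)
    exact_mod_cast h.ne'
  have hd : ∀ j : ZMod 6, ∀ u : ℂ, S.ch j = ‖S.ch j‖ * u →
      S.ch (j + 1) = ‖S.ch (j + 1)‖ * (u * gz (Real.pi * (1 - b (j + 1)))) := by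
    intro j u hu
    have h := hb.dir (by norm_num) j
    have h1 : S.ch j / (‖S.ch j‖ : ℂ) = u := by
      rw [div_eq_iff (hne j), hu]
      have : ‖(‖S.ch j‖ : ℂ) * u‖ = ‖S.ch j‖ := by rw [← hu]
      rw [this]
      ring
    rw [h1, div_eq_iff (hne (j + 1))] at h
    rw [mul_comm]
    exact h
  obtain ⟨z, hz⟩ : ∃ z, z = S.ch 0 / (‖S.ch 0‖ : ℂ) := ⟨_, rfl⟩
  have h0 : S.ch 0 = ‖S.ch 0‖ * z := by
    rw [hz, mul_div_cancel₀ _ (hne 0)]
  have hz0 : z ≠ 0 := by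
    intro h
    rw [h, mul_zero] at h0
    exact S.ch_ne (by norm_num) 0 h0
  have h1 := hd 0 z h0
  have h2 := hd (0 + 1) _ h1
  have h3 := hd (0 + 1 + 1) _ h2
  have h4 := hd (0 + 1 + 1 + 1) _ h3
  have h5 := hd (0 + 1 + 1 + 1 + 1) _ h4
  have e1 : (0 + 1 : ZMod 6) = 1 := rfl
  have e2 : (1 + 1 : ZMod 6) = 2 := rfl
  have e3 : (2 + 1 : ZMod 6) = 3 := rfl
  have e4 : (3 + 1 : ZMod 6) = 4 := rfl
  have e5 : (4 + 1 : ZMod 6) = 5 := rfl
  rw [e1] at h1 h2 h3 h4 h5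
  rw [e2] at h2 h3 h4 h5
  rw [e3] at h3 h4 h5
  rw [e4] at h4 h5
  rw [e5] at h5
  refine ⟨z, hz0, h0, h1, ?_, ?_, ?_, ?_⟩
  · refine h2.trans ?_
    rw [mul_assoc z, ← gz_add]
    congr 3
    ring
  · refine h3.trans ?_
    rw [mul_assoc z, ← gz_add, mul_assoc z, ← gz_add]
    congr 3
    ring
  · refine h4.trans ?_
    rw [mul_assoc z, ← gz_add, mul_assoc z, ← gz_add, mul_assoc z, ← gz_add]
    congr 3
    ring
  · refine h5.trans ?_
    rw [mul_assoc z, ← gz_add, mul_assoc z, ← gz_add, mul_assoc z, ← gz_add, mul_assoc z, ← gz_add]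
    congr 3
    ring

private theorem sum_xf (S : Arcs P 6) : S.ch 0 + S.ch 1 + S.ch 2 + S.ch 3 + S.ch 4 + S.ch 5 = 0 := by
  have e1 : (0 + 1 : ZMod 6) = 1 := rfl
  have e2 : (1 + 1 : ZMod 6) = 2 := rfl
  have e3 : (2 + 1 : ZMod 6) = 3 := rfl
  have e4 : (3 + 1 : ZMod 6) = 4 := rfl
  have e5 : (4 + 1 : ZMod 6) = 5 := rfl
  have e6 : (5 + 1 : ZMod 6) = 0 := rfl
  unfold Arcs.ch
  rw [e1, e2, e3, e4, e5, e6]
  ring

theorem torU49_ok : torU49.OK 6 := by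
  intro n P S b hc hb hg hE
  exfalso
  have sum6 : ∀ f : ZMod 6 → ℝ, ∑ i, f i = f 0 + f 1 + f 2 + f 3 + f 4 + f 5 :=
    fun f => Fin.sum_univ_six f
  have r1 : S.Rel 0 1 true := hg (0, 1, true) (by simp [torU49])
  have r2 : S.Rel 0 3 true := hg (0, 3, true) (by simp [torU49])
  have r3 : S.Rel 0 5 false := hg (0, 5, false) (by simp [torU49])
  have r4 : S.Rel 1 2 false := hg (1, 2, false) (by simp [torU49])
  have r5 : S.Rel 1 4 false := hg (1, 4, false) (by simp [torU49])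
  have n1 : ‖S.ch 0‖ = ‖S.ch 1‖ := S.norm_plus (by simpa [Arcs.Rel] using r1)
  have n3 : ‖S.ch 0‖ = ‖S.ch 3‖ := S.norm_plus (by simpa [Arcs.Rel] using r2)
  have n5 : ‖S.ch 0‖ = ‖S.ch 5‖ := S.norm_minus (by simpa [Arcs.Rel] using r3)
  have n2 : ‖S.ch 1‖ = ‖S.ch 2‖ := S.norm_minus (by simpa [Arcs.Rel] using r4)
  have n4 : ‖S.ch 1‖ = ‖S.ch 4‖ := S.norm_minus (by simpa [Arcs.Rel] using r5)
  have h1 := hE ([1, 0, 0, 0, 1, 1], 2) (by simp [torU49])
  have h2 := hE ([0, 1, 0, 0, 0, -1], 0) (by simp [torU49])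
  have h3 := hE ([0, 0, 1, 0, -1, 1], 0) (by simp [torU49])
  have h4 := hE ([0, 0, 0, 1, 1, 0], 2) (by simp [torU49])
  have v0 : (0 : ZMod 6).val = 0 := rfl
  have v1 : (1 : ZMod 6).val = 1 := rfl
  have v2 : (2 : ZMod 6).val = 2 := rfl
  have v3 : (3 : ZMod 6).val = 3 := rfl
  have v4 : (4 : ZMod 6).val = 4 := rfl
  have v5 : (5 : ZMod 6).val = 5 := rfl
  unfold Eqn.Holds at h1 h2 h3 h4
  simp only [sum6, v0, v1, v2, v3, v4, v5] at h1 h2 h3 h4
  simp [List.getD] at h1 h2 h3 h4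
  obtain ⟨z, hz, c0, c1, c2, c3, c4, c5⟩ := dir_xf S hb
  obtain ⟨l, hl⟩ : ∃ l : ℝ, l = ‖S.ch 0‖ := ⟨_, rfl⟩
  have hl0 : (l : ℂ) ≠ 0 := by
    have h := norm_pos_iff.2 (S.ch_ne (by norm_num) 0)
    rw [← hl] at h
    exact_mod_cast h.ne'
  obtain ⟨U, hU⟩ : ∃ U, U = gz (-(Real.pi * b 5)) := ⟨_, rfl⟩
  obtain ⟨Y, hY⟩ : ∃ Y, Y = gz (-(Real.pi * b 4)) := ⟨_, rfl⟩
  have gp : ∀ x, gz (Real.pi + x) = -gz x := by
    intro x
    rw [gz_add, gzpi_xf]
    ring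
  have g2 : ∀ x, gz (2 * Real.pi + x) = gz x := by
    intro x
    have := gz_period x 1
    rw [← this]
    congr 1
    push_cast
    ring
  have k1 : gz (Real.pi * (1 - b 1)) = -U := by
    rw [hU, ← gp]
    congr 1
    linear_combination (-Real.pi) * h2
  have k2 : gz (Real.pi * (2 - b 1 - b 2)) = Y := by
    rw [hY, ← g2 (-(Real.pi * b 4))]
    congr 1
    linear_combination (-Real.pi) * h2 - Real.pi * h3
  have k3 : gz (Real.pi * (3 - b 1 - b 2 - b 3)) = -1 := by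
    rw [← gzpi_xf]
    congr 1
    linear_combination (-Real.pi) * h2 - Real.pi * h3 - Real.pi * h4
  have k4 : gz (Real.pi * (4 - b 1 - b 2 - b 3 - b 4)) = Y := by
    rw [hY, ← g2 (-(Real.pi * b 4))]
    congr 1
    linear_combination (-Real.pi) * h2 - Real.pi * h3 - Real.pi * h4
  have k5 : gz (Real.pi * (5 - b 1 - b 2 - b 3 - b 4 - b 5)) = -(Y * U) := by
    rw [hY, hU, ← gz_add, ← gp, ← g2 (Real.pi + (-(Real.pi * b 4) + -(Real.pi * b 5)))]
    congr 1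
    linear_combination (-Real.pi) * h2 - Real.pi * h3 - Real.pi * h4
  rw [← hl] at c0 n1 n3 n5
  rw [← n1] at c1 n2 n4
  rw [← n2] at c2
  rw [← n3] at c3
  rw [← n4] at c4
  rw [← n5] at c5
  rw [k1] at c1
  rw [k2] at c2
  rw [k3] at c3
  rw [k4] at c4
  rw [k5] at c5
  have hs := sum_xf S
  rw [c0, c1, c2, c3, c4, c5] at hs
  have hs2 : (l : ℂ) * z * (2 * Y - U * (1 + Y)) = 0 := by linear_combination hs
  have hs3 : 2 * Y = U * (1 + Y) := by
    rcases mul_eq_zero.1 hs2 with h | h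
    · exact absurd h (mul_ne_zero hl0 hz)
    · linear_combination h
  have nU : ‖U‖ = 1 := by rw [hU]; exact gz_norm _
  have nY : ‖Y‖ = 1 := by rw [hY]; exact gz_norm _
  have hn : ‖1 + Y‖ = 2 := by
    have h := congrArg norm hs3
    rw [norm_mul, norm_mul, nU, nY] at h
    norm_num at h
    exact h.symm
  have hY1 : Y = 1 := by
    have q1 : Y.re * Y.re + Y.im * Y.im = 1 := by
      have h := Complex.normSq_eq_norm_sq Y
      rw [nY, Complex.normSq_apply] at h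
      linarith
    have q2 : (1 + Y.re) * (1 + Y.re) + Y.im * Y.im = 4 := by
      have h := Complex.normSq_eq_norm_sq (1 + Y)
      rw [hn, Complex.normSq_apply] at h
      simp only [Complex.add_re, Complex.one_re, Complex.add_im, Complex.one_im, zero_add] at h
      linarith
    have q3 : Y.re = 1 := by linarith
    have q4 : Y.im = 0 := by
      rw [q3] at q1
      nlinarith
    exact Complex.ext q3 q4
  have hU1 : U = 1 := by
    rw [hY1] at hs3
    have : U * 2 = 2 := by linear_combination -hs3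
    have h2 : (2 : ℂ) ≠ 0 := two_ne_zero
    exact mul_right_cancel₀ h2 (by rw [this, one_mul])
  have hf : S.ch 4 + S.ch 5 = 0 := by
    rw [c4, c5, hY1, hU1]
    ring
  refine V6_ne_xf S 4 ?_
  have e5 : (4 + 1 : ZMod 6) = 5 := rfl
  have e6 : (5 + 1 : ZMod 6) = 0 := rfl
  unfold Arcs.ch at hf
  rw [e5, e6] at hf
  rw [e5, e6]
  linear_combination hf

theorem torU916_ok : torU916.OK 6 := by
  intro n P S b hc hb hg hE
  exfalso
  have sum6 : ∀ f : ZMod 6 → ℝ, ∑ i, f i = f 0 + f 1 + f 2 + f 3 + f 4 + f 5 :=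
    fun f => Fin.sum_univ_six f
  have r1 : S.Rel 0 1 true := hg (0, 1, true) (by simp [torU916])
  have r2 : S.Rel 0 3 true := hg (0, 3, true) (by simp [torU916])
  have r3 : S.Rel 2 4 true := hg (2, 4, true) (by simp [torU916])
  have r4 : S.Rel 2 5 true := hg (2, 5, true) (by simp [torU916])
  have n1 : ‖S.ch 0‖ = ‖S.ch 1‖ := S.norm_plus (by simpa [Arcs.Rel] using r1)
  have n3 : ‖S.ch 0‖ = ‖S.ch 3‖ := S.norm_plus (by simpa [Arcs.Rel] using r2)
  have n4 : ‖S.ch 2‖ = ‖S.ch 4‖ := S.norm_plus (by simpa [Arcs.Rel] using r3)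
  have n5 : ‖S.ch 2‖ = ‖S.ch 5‖ := S.norm_plus (by simpa [Arcs.Rel] using r4)
  have h1 := hE ([0, 3, 0, 0, 0, 0], 2) (by simp [torU916])
  have h2 := hE ([0, 0, 1, 0, -1, 0], 0) (by simp [torU916])
  have h3 := hE ([0, 0, 0, 1, 1, 0], 1) (by simp [torU916])
  have h4 := hE ([0, 0, 0, 0, 0, 3], 1) (by simp [torU916])
  have v0 : (0 : ZMod 6).val = 0 := rfl
  have v1 : (1 : ZMod 6).val = 1 := rfl
  have v2 : (2 : ZMod 6).val = 2 := rfl
  have v3 : (3 : ZMod 6).val = 3 := rfl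
  have v4 : (4 : ZMod 6).val = 4 := rfl
  have v5 : (5 : ZMod 6).val = 5 := rfl
  unfold Eqn.Holds at h1 h2 h3 h4
  simp only [sum6, v0, v1, v2, v3, v4, v5] at h1 h2 h3 h4
  simp [List.getD] at h1 h2 h3 h4
  obtain ⟨z, hz, c0, c1, c2, c3, c4, c5⟩ := dir_xf S hb
  obtain ⟨la, hla⟩ : ∃ l : ℝ, l = ‖S.ch 0‖ := ⟨_, rfl⟩
  obtain ⟨lb, hlb⟩ : ∃ l : ℝ, l = ‖S.ch 2‖ := ⟨_, rfl⟩
  have hla0 : 0 < la := by rw [hla]; exact norm_pos_iff.2 (S.ch_ne (by norm_num) 0)
  have hlb0 : 0 < lb := by rw [hlb]; exact norm_pos_iff.2 (S.ch_ne (by norm_num) 2)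
  obtain ⟨ζ, hζ⟩ : ∃ ζ, ζ = gz (Real.pi / 3) := ⟨_, rfl⟩
  obtain ⟨Y, hY⟩ : ∃ Y, Y = gz (-(Real.pi * b 4)) := ⟨_, rfl⟩
  have gp : ∀ x, gz (Real.pi + x) = -gz x := by
    intro x
    rw [gz_add, gzpi_xf]
    ring
  have g2 : ∀ x, gz (2 * Real.pi + x) = gz x := by
    intro x
    have := gz_period x 1
    rw [← this]
    congr 1
    push_cast
    ring
  have k1 : gz (Real.pi * (1 - b 1)) = ζ := by
    rw [hζ]
    congr 1
    linear_combination (-Real.pi / 3) * h1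
  have k2 : gz (Real.pi * (2 - b 1 - b 2)) = -(ζ * Y) := by
    rw [hY, hζ, ← gz_add, ← gp]
    congr 1
    linear_combination (-Real.pi / 3) * h1 - Real.pi * h2
  have k3 : gz (Real.pi * (3 - b 1 - b 2 - b 3)) = -ζ := by
    rw [hζ, ← gp]
    congr 1
    linear_combination (-Real.pi / 3) * h1 - Real.pi * h2 - Real.pi * h3
  have k4 : gz (Real.pi * (4 - b 1 - b 2 - b 3 - b 4)) = ζ * Y := by
    rw [hY, hζ, ← gz_add, ← g2 (Real.pi / 3 + -(Real.pi * b 4))]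
    congr 1
    linear_combination (-Real.pi / 3) * h1 - Real.pi * h2 - Real.pi * h3
  have k5 : gz (Real.pi * (5 - b 1 - b 2 - b 3 - b 4 - b 5)) = -Y := by
    rw [hY, ← gp, ← g2 (Real.pi + -(Real.pi * b 4))]
    congr 1
    linear_combination (-Real.pi / 3) * h1 - Real.pi * h2 - Real.pi * h3 - (Real.pi / 3) * h4
  rw [← hla] at c0 n1 n3
  rw [← hlb] at c2 n4 n5
  rw [← n1] at c1
  rw [← n3] at c3
  rw [← n4] at c4
  rw [← n5] at c5
  rw [k1] at c1
  rw [k2] at c2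
  rw [k3] at c3
  rw [k4] at c4
  rw [k5] at c5
  have hs := sum_xf S
  rw [c0, c1, c2, c3, c4, c5] at hs
  have hs2 : z * (la - lb * Y) = 0 := by linear_combination hs
  have hs3 : (la : ℂ) = lb * Y := by
    rcases mul_eq_zero.1 hs2 with h | h
    · exact absurd h hz
    · linear_combination h
  have nY : ‖Y‖ = 1 := by rw [hY]; exact gz_norm _
  have hll : la = lb := by
    have h := congrArg norm hs3
    rw [norm_mul, nY, mul_one, Complex.norm_real, Complex.norm_real, Real.norm_of_nonneg hla0.le,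
      Real.norm_of_nonneg hlb0.le] at h
    exact h
  have hY1 : Y = 1 := by
    rw [hll] at hs3
    have h : (lb : ℂ) ≠ 0 := by exact_mod_cast hlb0.ne'
    exact (mul_left_cancel₀ h (by rw [mul_one]; exact hs3)).symm
  have hf : S.ch 1 + S.ch 2 = 0 := by
    rw [c1, c2, hY1, hll]
    ring
  refine V6_ne_xf S 1 ?_
  have e5 : (1 + 1 : ZMod 6) = 2 := rfl
  unfold Arcs.ch at hf
  rw [e5] at hf
  rw [e5]
  linear_combination hf

end Pool.Agent.Lib_MP_fa6e45
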