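import Pool.Agent.Lib_MP_fa6e45.CXT4
import Pool.Agent.Lib_MP_fa6e45.CXT5
import Pool.Agent.Lib_MP_fa6e45.CXT6
import Pool.Agent.Lib_MP_fa6e45.CXTf

/-!
MP_fa6e45_co, stage 7: all the leaves are right (tables of `CXT`).
-/

namespace Pool.Agent.Lib_MP_fa6e45

theorem ttU3_ok : ∀ T ∈ ttU3, T.OK 3 := by simp [ttU3]

theorem ttU4_eq : ttU4 = [torU4_0, torU4_1, torU4_2] := rfl

theorem ttU4_ok : ∀ T ∈ ttU4, T.OK 4 := by
  intro T hT
  rw [ttU4_eq] at hT
  simp only [List.mem_cons, List.not_mem_nil, or_false] at hT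
  rcases hT with rfl | rfl | rfl
  · exact torU4_0_ok
  · exact torU4_1_ok
  · exact torU4_2_ok

theorem ttU5_eq : ttU5 = [torU5_0, torU5_1, torU5_2, torU5_3, torU5_4, torU5_5, torU5_6, torU5_7, torU5_8,
    torU5_9, torU5_10, torU5_11, torU5_12, torU5_13, torU5_14, torU5_15, torU5_16, torU5_17, torU5_18,
    torU5_19, torU5_20, torU5_21] := rfl

theorem ttU5_ok : ∀ T ∈ ttU5, T.OK 5 := by
  intro T hT
  rw [ttU5_eq] at hT
  simp only [List.mem_cons, List.not_mem_nil, or_false] at hT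
  rcases hT with rfl | rfl | rfl | rfl | rfl | rfl | rfl | rfl | rfl | rfl | rfl | rfl | rfl | rfl | rfl |
    rfl | rfl | rfl | rfl | rfl | rfl | rfl
  · exact torU5_0_ok
  · exact torU5_1_ok
  · exact torU5_2_ok
  · exact torU5_3_ok
  · exact torU5_4_ok
  · exact torU5_5_ok
  · exact torU5_6_ok
  · exact torU5_7_ok
  · exact torU5_8_ok
  · exact torU5_9_ok
  · exact torU5_10_ok
  · exact torU5_11_ok
  · exact torU5_12_ok
  · exact torU5_13_ok
  · exact torU5_14_ok
  · exact torU5_15_ok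
  · exact torU5_16_ok
  · exact torU5_17_ok
  · exact torU5_18_ok
  · exact torU5_19_ok
  · exact torU5_20_ok
  · exact torU5_21_ok

theorem ttU6_eq : ttU6 = [torU6_0, torU6_1, torU6_2, torU6_3, torU6_4, torU6_5, torU6_6, torU6_7, torU6_8,
    torU6_9, torU6_10, torU6_11, torU6_12, torU6_13, torU6_14, torU6_15, torU6_16, torU6_17, torU6_18,
    torU6_19, torU6_20, torU6_21, torU6_22, torU6_23, torU6_24, torU6_25, torU6_26, torU6_27, torU6_28,
    torU6_29, torU6_30, torU6_31, torU6_32, torU6_33, torUfc, torU49, torU916] := rfl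

theorem ttU6_ok : ∀ T ∈ ttU6, T.OK 6 := by
  intro T hT
  rw [ttU6_eq] at hT
  simp only [List.mem_cons, List.not_mem_nil, or_false] at hT
  rcases hT with rfl | rfl | rfl | rfl | rfl | rfl | rfl | rfl | rfl | rfl | rfl | rfl | rfl | rfl | rfl |
    rfl | rfl | rfl | rfl | rfl | rfl | rfl | rfl | rfl | rfl | rfl | rfl | rfl | rfl | rfl | rfl | rfl | rfl
    | rfl | rfl | rfl | rfl
  · exact torU6_0_ok
  · exact torU6_1_ok
  · exact torU6_2_ok
  · exact torU6_3_ok
  · exact torU6_4_ok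
  · exact torU6_5_ok
  · exact torU6_6_ok
  · exact torU6_7_ok
  · exact torU6_8_ok
  · exact torU6_9_ok
  · exact torU6_10_ok
  · exact torU6_11_ok
  · exact torU6_12_ok
  · exact torU6_13_ok
  · exact torU6_14_ok
  · exact torU6_15_ok
  · exact torU6_16_ok
  · exact torU6_17_ok
  · exact torU6_18_ok
  · exact torU6_19_ok
  · exact torU6_20_ok
  · exact torU6_21_ok
  · exact torU6_22_ok
  · exact torU6_23_ok
  · exact torU6_24_ok
  · exact torU6_25_ok
  · exact torU6_26_ok
  · exact torU6_27_ok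
  · exact torU6_28_ok
  · exact torU6_29_ok
  · exact torU6_30_ok
  · exact torU6_31_ok
  · exact torU6_32_ok
  · exact torU6_33_ok
  · exact torUfc_ok
  · exact torU49_ok
  · exact torU916_ok

end Pool.Agent.Lib_MP_fa6e45
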