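import Pool.Agent.Lib_MP_fa6e45.CQ4
import Pool.Agent.Lib_MP_fa6e45.CXTg
import Pool.Agent.Lib_MP_fa6e45.HK

/-!
MP_fa6e45_co, stage 9: certificates for the theorem T6 (generated by a program).
-/

namespace Pool.Agent.Lib_MP_fa6e45

/-- table of lists of symmetries -/
noncomputable def sy3 : List (List (Bool × ℕ × List ℕ)) :=
  [[(false,k0,[k0,k1,k2])]]

/-- table of nodes in the old format -/
noncomputable def lf3 : List (List (QN PN)) :=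
  [[.old [([z3,z0,z3],z1)] (.z (.x (.old (.leafM k2 [k0,k1,k2] [(z1,[y1,z3]),(z1,[z1])] [])))), .old [([z2,z0,z2],z1)]
    (.z (.x (.old (.leafM k3 [k0,k1,k2] [(z1,[y1,z2]),(z1,[z1])] [])))), .old [([z3,z0,z3],z2)] (.z (.x (.old
    (.leafM k4 [k0,k1,k2] [(z1,[y1,z3]),(z1,[z1])] []))))]]

/-- classes `0 0 0`, types `C0 C0 C0` -/
noncomputable def xo3_0 : CertX :=
  ⟨[k4,k4,k4],[],[[[]]],[.old (.leafM k0 [k0,k1,k2] [] [])]⟩

/-- classes `0 0 0`, types `C0 C0 C2` -/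
noncomputable def xo3_1 : CertX :=
  ⟨[k4,k4,k6],[],[[[]]],[.old (.leafM k0 [k0,k1,k2] [] [])]⟩

/-- classes `0 0 1`, types `B0 B1 C0` -/
noncomputable def xo3_2 : CertX :=
  ⟨[k8,k9,k20],[],[[[]]],[.old (.leafM k1 [k2,k0,k1] [] [])]⟩

/-- classes `0 0 1`, types `B0 B1 S0` -/
noncomputable def xo3_3 : CertX :=
  ⟨[k8,k9,k16],[],[[[]]],[.old (.leafM k1 [k2,k0,k1] [] [])]⟩

/-- classes `0 0 1`, types `C0 C0 C0` -/
noncomputable def xo3_4 : CertX :=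
  ⟨[k4,k4,k20],[],[[[]]],[.old (.leafM k0 [k0,k1,k2] [] [])]⟩

/-- classes `0 0 1`, types `C0 C0 S0` -/
noncomputable def xo3_5 : CertX :=
  ⟨[k4,k4,k16],[],[[[]]],[.old (.leafM k0 [k0,k1,k2] [] [])]⟩

/-- classes `0 0 1`, types `C0 C2 C0` -/
noncomputable def xo3_6 : CertX :=
  ⟨[k4,k6,k20],[],[[[]]],[.old (.leafM k0 [k0,k1,k2] [] [])]⟩

/-- classes `0 0 1`, types `C0 C2 S0` -/
noncomputable def xo3_7 : CertX :=
  ⟨[k4,k6,k16],[],[[[]]],[.old (.leafM k0 [k0,k1,k2] [] [])]⟩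

/-- classes `0 0 1`, types `N0 N2 C0` -/
noncomputable def xo3_8 : CertX :=
  ⟨[k12,k14,k20],[],[[[]]],[.old (.leafM k1 [k2,k0,k1] [] [])]⟩

/-- classes `0 0 1`, types `N0 N2 S0` -/
noncomputable def xo3_9 : CertX :=
  ⟨[k12,k14,k16],[],[[[]]],[.old (.leafM k1 [k2,k0,k1] [] [])]⟩

/-- classes `0 0 1`, types `S0 S0 C0` -/
noncomputable def xo3_10 : CertX :=
  ⟨[k0,k0,k20],[],[[[]]],[.old (.leafM k0 [k0,k1,k2] [] [])]⟩

/-- classes `0 1 2`, types `C0 C0 C0` -/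
noncomputable def xo3_11 : CertX :=
  ⟨[k4,k20,k36],[],[[[]]],[.old (.leafM k0 [k0,k1,k2] [] [])]⟩

/-- classes `0 1 2`, types `C0 C0 S0` -/
noncomputable def xo3_12 : CertX :=
  ⟨[k4,k20,k32],[],[[[]]],[.old (.leafM k0 [k0,k1,k2] [] [])]⟩

/-- classes `0 1 2`, types `C0 S0 S0` -/
noncomputable def xo3_13 : CertX :=
  ⟨[k4,k16,k32],[],[[[]]],[.old (.leafM k0 [k0,k1,k2] [] [])]⟩

/-- table of certificates in the old format -/
noncomputable def xt3 : List CertX := [xo3_0, xo3_1, xo3_2, xo3_3, xo3_4, xo3_5, xo3_6, xo3_7, xo3_8, xo3_9, xo3_10, xo3_11, xo3_12, xo3_13]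

end Pool.Agent.Lib_MP_fa6e45
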