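import Pool.Agent.Lib_MP_fa6e45.CQR0
import Pool.Agent.Lib_MP_fa6e45.CQR3D

/-!
MP_fa6e45_co, stage 9: raw data of certificates for the theorem T6 (generated by a program).
-/

namespace Pool.Agent.Lib_MP_fa6e45

/-- classes `0 0 0`, types `C0 C0 C0` -/
noncomputable def r3_0 : RCq :=
  .x (nat_lit 0)

/-- classes `0 0 0`, types `C0 C0 C2` -/
noncomputable def r3_1 : RCq :=
  .x (nat_lit 1)

/-- classes `0 0 1`, types `B0 B1 C0` -/
noncomputable def r3_2 : RCq :=
  .x (nat_lit 2)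

/-- classes `0 0 1`, types `B0 B1 S0` -/
noncomputable def r3_3 : RCq :=
  .x (nat_lit 3)

/-- classes `0 0 1`, types `C0 C0 C0` -/
noncomputable def r3_4 : RCq :=
  .x (nat_lit 4)

/-- classes `0 0 1`, types `C0 C0 S0` -/
noncomputable def r3_5 : RCq :=
  .x (nat_lit 5)

/-- classes `0 0 1`, types `C0 C2 C0` -/
noncomputable def r3_6 : RCq :=
  .x (nat_lit 6)

/-- classes `0 0 1`, types `C0 C2 S0` -/
noncomputable def r3_7 : RCq :=
  .x (nat_lit 7)

/-- classes `0 0 1`, types `N0 N1 C0` -/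
noncomputable def r3_8 : RCq :=
  .q [nat_lit 12,nat_lit 13,nat_lit 20] (nat_lit 0) [s3_4,s3_11,s3_14,s3_31] d3_0 [.t (nat_lit 0),.t (nat_lit 1),.t
    (nat_lit 2),.l (nat_lit 9) (nat_lit 70) (nat_lit 6) (nat_lit 0xa0000000a00000011000000110000001400000014)
    (nat_lit 0xa0000000a00000003000000030000000000000000)
    (nat_lit 0x231188c46051188c46231188c0a231181c46231188c46230388c46051188c46231188c0a231188c46)
    (nat_lit 0x231188c46231188c46231188c46231181c46231188c46230388c46051188c460a1188c0a231188c14) (nat_lit 4)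
    [[nat_lit 257,nat_lit 514,nat_lit 771],[nat_lit 32,nat_lit 48,nat_lit 64]] [.c (nat_lit 0) (nat_lit 67),.c
    (nat_lit 0) (nat_lit 67),.r (nat_lit 2) (nat_lit 0) [nat_lit 33],.c (nat_lit 2) (nat_lit 2),.r (nat_lit 0)
    (nat_lit 0) [nat_lit 0x631],.r (nat_lit 1) (nat_lit 0) [nat_lit 0x832]]]

/-- classes `0 0 1`, types `N0 N1 S0` -/
noncomputable def r3_9 : RCq :=
  .q [nat_lit 12,nat_lit 13,nat_lit 16] (nat_lit 0) [s3_1,s3_4,s3_11,s3_14,s3_31] d3_0 [.t (nat_lit 0),.t (nat_lit 1),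
    .t (nat_lit 2),.l (nat_lit 9) (nat_lit 70) (nat_lit 6) (nat_lit 0xc0000000c0000000e0000000e0000000c0000000c)
    (nat_lit 0x20000000200000000000000000000000200000002)
    (nat_lit 0x230288c46051188c46231188c0a231181c46231188c46230388c46051188c46231188c0a231181446)
    (nat_lit 0x231188c46231181446231188c46231181c46231188c46230388c46051188c460a118280a231183c14) (nat_lit 4)
    [[nat_lit 771,nat_lit 514,nat_lit 257],[nat_lit 32,nat_lit 48,nat_lit 64]] [.r (nat_lit 2) (nat_lit 0)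
    [nat_lit 33],.c (nat_lit 0) (nat_lit 67),.c (nat_lit 0) (nat_lit 67),.c (nat_lit 2) (nat_lit 2),.r (nat_lit 0)
    (nat_lit 0) [nat_lit 0x631],.r (nat_lit 1) (nat_lit 0) [nat_lit 0x832]]]

/-- classes `0 0 1`, types `N0 N2 C0` -/
noncomputable def r3_10 : RCq :=
  .x (nat_lit 8)

/-- classes `0 0 1`, types `N0 N2 S0` -/
noncomputable def r3_11 : RCq :=
  .x (nat_lit 9)

/-- classes `0 0 1`, types `S0 S0 C0` -/
noncomputable def r3_12 : RCq :=
  .x (nat_lit 10)

/-- classes `0 1 2`, types `C0 C0 C0` -/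
noncomputable def r3_13 : RCq :=
  .x (nat_lit 11)

/-- classes `0 1 2`, types `C0 C0 S0` -/
noncomputable def r3_14 : RCq :=
  .x (nat_lit 12)

/-- classes `0 1 2`, types `C0 S0 S0` -/
noncomputable def r3_15 : RCq :=
  .x (nat_lit 13)

/-- numbers of the patterns -/
noncomputable def tl3_0_0 : List Nat :=
  [nat_lit 263172,nat_lit 394244,nat_lit 1313032,nat_lit 1050888,nat_lit 1311748,nat_lit 1049604,nat_lit 1312260,
    nat_lit 1050116,nat_lit 1314060,nat_lit 1051916,nat_lit 1314316,nat_lit 1052172,nat_lit 1310720,nat_lit 2364420,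
    nat_lit 2102276,nat_lit 2101252]

/-- raw certificates -/
noncomputable def rl3_0_0 : List RCq :=
  [r3_0,r3_1,r3_2,r3_3,r3_4,r3_5,r3_6,r3_7,r3_8,r3_9,r3_10,r3_11,r3_12,r3_13,r3_14,r3_15]

end Pool.Agent.Lib_MP_fa6e45
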