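import Pool.Agent.Lib_MP_fa6e45.CQ4
import Pool.Agent.Lib_MP_fa6e45.CXTg
import Pool.Agent.Lib_MP_fa6e45.HK

/-!
MP_fa6e45_co, stage 9: certificates for the theorem T6 (generated by a program).
-/

namespace Pool.Agent.Lib_MP_fa6e45

/-- table of lists of symmetries -/
noncomputable def sy4 : List (List (Bool × ℕ × List ℕ)) :=
  [[(false,k0,[k0,k1,k2,k3]),(false,k2,[k2,k3,k0,k1]),(true,k2,[k2,k1,k0,k3]),(false,k1,[k1,k2,k3,k0]),(false,k3,[k3,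
    k0,k1,k2]),(true,k3,[k3,k2,k1,k0])], [(true,k3,[k3,k2,k1,k0]),(false,k0,[k0,k1,k2,k3])], [(false,k0,[k0,k1,k2,
    k3])], [], [(false,k2,[k2,k3,k0,k1]),(false,k0,[k0,k1,k2,k3])]]

/-- table of nodes in the old format -/
noncomputable def lf4 : List (List (QN PN)) :=
  [[.old [([z1,z0,z1,z0],z1)] (.z (.x (.old (.tor k0 false k0 [(z1,[y2,z2]),(z1,[z2])])))), .old [([z3,z0,z0,z0],z2),
    ([z0,z3,z0,z3],z2)] (.z (.x (.old (.leafM k10 [k1,k2,k3,k0] [(z1,[y1,y1,z3]),(z1,[z1]),(z1,[z0,z1])] [])))),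
    .old [([z3,z0,z0,y3],y2),([z0,z1,z0,z2],z2)] (.z (.x (.geo true z3 k3 [(y2,z3),(z6,y6),(z2,z0),(z0,z3)] [(z1,
    [z1]),(z1,[z0,z3]),(z1,[y1,y3,z3]),(z1,[])] (Int.ofNat (nat_lit 699050)) (Int.ofNat (nat_lit 1048576)) (.l k1)
    []))), .old [([z9,z0,z0,z0],z4),([z0,z9,z0,z9],z8)] (.z (.x (.geo true z9 k3 [(z4,z0),(z8,y9),(z6,z0),(z0,z9)]
    [(z1,[z1]),(z1,[z0,z1]),(z1,[y1,y1,z9]),(z1,[])] z0 (Int.ofNat (nat_lit 932068)) (.s (.l k1) (.l k1)) []))),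
    .old [([z9,z0,z0,z0],z2),([z0,z9,z0,z9],z10)] (.z (.x (.geo true z9 k3 [(z2,z0),(z10,y9),(z6,z0),(z0,z9)] [(z1,
    [z1]),(z1,[z0,z1]),(z1,[y1,y1,z9]),(z1,[])] z0 (Int.ofNat (nat_lit 1165085)) (.s (.l k1) (.l k1)) []))), .old
    [([z2,z0,z0,y2],y1),([z0,z1,z0,z2],z2)] (.z (.x (.geo true z2 k3 [(y1,z2),(z4,y4),(z1,z0),(z0,z2)] [(z1,[z1]),
    (z1,[z0,z2]),(z1,[y1,y2,z2]),(z1,[])] (Int.ofNat (nat_lit 524288)) (Int.ofNat (nat_lit 1048576)) (.s (.l k1) (.l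
    k1)) []))), .old [([z1,z0,z0,y4],y2),([z0,z1,z0,z3],z2)] (.z (.x (.geo true z1 k3 [(y2,z4),(z2,y3),(z2,y2),(z0,
    z1)] [(z1,[z1]),(z1,[z0,z1]),(z1,[y1,y1,z1]),(z1,[])] (Int.ofNat (nat_lit 524288)) (Int.ofNat (nat_lit 699051))
    (.s (.l k1) (.l k1)) []))), .old [([z1,z0,z0,y6],y2),([z0,z1,z0,z4],z2)] (.z (.x (.geo true z1 k3 [(y2,z6),(z2,
    y4),(z2,y3),(z0,z1)] [(z1,[z1]),(z1,[z0,z1]),(z1,[y1,y1,z1]),(z1,[])] (Int.ofNat (nat_lit 349525)) (Int.ofNat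
    (nat_lit 524288)) (.s (.l k1) (.s (.l k1) (.l k1))) []))), .old [([z1,z0,z0,y3],y2),([z0,z1,z0,z2],z2)] (.z (.x
    (.geo true z1 k3 [(y2,z3),(z2,y2),(z2,y2),(z0,z1)] [(z1,[z1]),(z1,[z0,z1]),(z1,[y1,y1,z1]),(z1,[])] (Int.ofNat
    (nat_lit 699050)) (Int.ofNat (nat_lit 1048576)) (.s (.s (.l k1) (.l k1)) (.l k1)) []))), .old [([z1,z0,z0,y2],
    y1),([z0,z1,z0,z2],z2)] (.z (.x (.geo true z1 k3 [(y1,z2),(z2,y2),(z1,y1),(z0,z1)] [(z1,[z1]),(z1,[z0,z1]),(z1,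
    [y1,y1,z1]),(z1,[])] (Int.ofNat (nat_lit 524288)) (Int.ofNat (nat_lit 1048576)) (.s (.s (.l k1) (.l k2)) (.l
    k1)) [⟨z2,z3,[[k0,k2],[k1,k3]],.child (.ref k5 k3 [(z1,[z1])])⟩]))), .old [([z1,z0,z2,z1],z2)] (.z (.x (.old
    (.tor k1 false k0 [(z1,[z1]),(z1,[y1,z2])])))), .old [([z1,z0,z0,z1],z1),([z0,z3,z0,z0],z1)] (.z (.x (.old (.tor
    k2 false k0 [(z1,[y3,y1,z3]),(z1,[z0,z2]),(z1,[z0,z0,z1]),(z1,[z2])])))), .old [([z1,z0,z1,z0],z1)] (.z (.x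
    (.old (.leafM k7 [k0,k1,k2,k3] [(z1,[y1,z1])] [])))), .old [([z3,z0,z3,z0],z2),([z0,z3,z0,z0],z2)] (.z (.x (.old
    (.leafM k10 [k0,k1,k2,k3] [(z1,[z0,z1]),(z1,[y1,y1,z3]),(z1,[z1])] [])))), .old [([z1,z0,z1,z0],z1),([z0,z3,z0,
    z0],z1)] (.z (.x (.old (.leafM k11 [k2,k3,k0,k1] [(z1,[y3,y1,z3]),(z1,[z0,z1]),(z1,[z1])] [])))), .old [([z1,z0,
    z1,z0],z1),([z0,z2,z0,z0],z1)] (.z (.x (.old (.leafM k12 [k0,k1,k2,k3] [(z1,[z0,z1]),(z1,[y2,y1,z2]),(z1,[z1])]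
    []))))], [.old [([z1,z0,z1,z0],z1),([z0,z3,z0,z0],z2)] (.z (.x (.old (.leafM k11 [k0,k1,k2,k3] [(z1,[z0,z1]),
    (z1,[y3,y1,z3]),(z1,[z1])] [])))), .old [([z1,z0,z1,z0],z1),([z0,z3,z0,z0],z2)] (.z (.x (.old (.leafM k8 [k0,k1,
    k2,k3] [(z1,[z0,z1]),(z1,[y3,y1,z3]),(z1,[z1])] [])))), .old [([z1,z0,z1,z0],z1),([z0,z2,z0,z0],z1)] (.z (.x
    (.old (.leafM k9 [k0,k1,k2,k3] [(z1,[z0,z1]),(z1,[y2,y1,z2]),(z1,[z1])] [])))), .old [([z1,z0,z0,z1],z1)] (.z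
    (.x (.old (.leafM k4 [k0,k1,k2,k3] [(z1,[y1,z1])] []))))]]

/-- classes `0 0 0 0`, types `B0 B0 B1 B1` -/
noncomputable def xo4_0 : CertX :=
  ⟨[k8,k8,k9,k9],[],[[[]]],[.old (.leafM k3 [k1,k2,k3,k0] [] [])]⟩

/-- classes `0 0 0 0`, types `B0 B1 B0 B1` -/
noncomputable def xo4_1 : CertX :=
  ⟨[k8,k9,k8,k9],[],[[[]]],[.old (.leafM k3 [k0,k1,k2,k3] [] [])]⟩

/-- classes `0 0 0 0`, types `C0 C0 C0 C0` -/
noncomputable def xo4_2 : CertX :=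
  ⟨[k4,k4,k4,k4],[],[[[]]],[.old (.leafM k0 [k0,k1,k2,k3] [] [])]⟩

/-- classes `0 0 0 0`, types `C0 C0 C0 C2` -/
noncomputable def xo4_3 : CertX :=
  ⟨[k4,k4,k4,k6],[],[[[]]],[.old (.leafM k0 [k0,k1,k2,k3] [] [])]⟩

/-- classes `0 0 0 0`, types `C0 C0 C2 C2` -/
noncomputable def xo4_4 : CertX :=
  ⟨[k4,k4,k6,k6],[],[[[]]],[.old (.leafM k0 [k0,k1,k2,k3] [] [])]⟩

/-- classes `0 0 0 0`, types `C0 C2 C0 C2` -/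
noncomputable def xo4_5 : CertX :=
  ⟨[k4,k6,k4,k6],[],[[[]]],[.old (.leafM k0 [k0,k1,k2,k3] [] [])]⟩

/-- classes `0 0 0 0`, types `N0 N0 N1 N1` -/
noncomputable def xo4_6 : CertX :=
  ⟨[k12,k12,k13,k13],[],[[[]]],[.old (.leafM k5 [k0,k1,k2,k3] [] [])]⟩

/-- classes `0 0 0 0`, types `N0 N0 N1 N2` -/
noncomputable def xo4_7 : CertX :=
  ⟨[k12,k12,k13,k14],[],[[[]]],[.old (.leafM k6 [k0,k1,k2,k3] [] [])]⟩

/-- classes `0 0 0 0`, types `N0 N0 N2 N2` -/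
noncomputable def xo4_8 : CertX :=
  ⟨[k12,k12,k14,k14],[],[[[]]],[.old (.leafM k3 [k1,k2,k3,k0] [] [])]⟩

/-- classes `0 0 0 0`, types `N0 N1 N3 N2` -/
noncomputable def xo4_9 : CertX :=
  ⟨[k12,k13,k15,k14],[],[[[]]],[.old (.leafM k3 [k1,k2,k3,k0] [] [])]⟩

/-- classes `0 0 0 0`, types `N0 N2 N0 N2` -/
noncomputable def xo4_10 : CertX :=
  ⟨[k12,k14,k12,k14],[],[[[]]],[.old (.leafM k3 [k0,k1,k2,k3] [] [])]⟩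

/-- classes `0 0 0 0`, types `N0 N2 N1 N3` -/
noncomputable def xo4_11 : CertX :=
  ⟨[k12,k14,k13,k15],[],[[[]]],[.old (.leafM k3 [k0,k1,k2,k3] [] [])]⟩

/-- classes `0 0 0 1`, types `C0 C0 C0 C0` -/
noncomputable def xo4_12 : CertX :=
  ⟨[k4,k4,k4,k20],[],[[[]]],[.old (.leafM k0 [k0,k1,k2,k3] [] [])]⟩

/-- classes `0 0 0 1`, types `C0 C0 C0 S0` -/
noncomputable def xo4_13 : CertX :=
  ⟨[k4,k4,k4,k16],[],[[[]]],[.old (.leafM k0 [k0,k1,k2,k3] [] [])]⟩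

/-- classes `0 0 0 1`, types `C0 C0 C2 C0` -/
noncomputable def xo4_14 : CertX :=
  ⟨[k4,k4,k6,k20],[],[[[]]],[.old (.leafM k0 [k0,k1,k2,k3] [] [])]⟩

/-- classes `0 0 0 1`, types `C0 C0 C2 S0` -/
noncomputable def xo4_15 : CertX :=
  ⟨[k4,k4,k6,k16],[],[[[]]],[.old (.leafM k0 [k0,k1,k2,k3] [] [])]⟩

/-- classes `0 0 0 1`, types `C0 C2 C0 C0` -/
noncomputable def xo4_16 : CertX :=
  ⟨[k4,k6,k4,k20],[],[[[]]],[.old (.leafM k0 [k0,k1,k2,k3] [] [])]⟩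

/-- classes `0 0 0 1`, types `C0 C2 C0 S0` -/
noncomputable def xo4_17 : CertX :=
  ⟨[k4,k6,k4,k16],[],[[[]]],[.old (.leafM k0 [k0,k1,k2,k3] [] [])]⟩

/-- classes `0 0 0 1`, types `S0 S0 S0 C0` -/
noncomputable def xo4_18 : CertX :=
  ⟨[k0,k0,k0,k20],[],[[[]]],[.old (.leafM k0 [k0,k1,k2,k3] [] [])]⟩

/-- classes `0 0 1 1`, types `B0 B1 B0 B1` -/
noncomputable def xo4_19 : CertX :=
  ⟨[k8,k9,k24,k25],[],[[[]]],[.old (.leafM k3 [k0,k1,k2,k3] [] [])]⟩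

/-- classes `0 0 1 1`, types `B0 B1 C0 C0` -/
noncomputable def xo4_20 : CertX :=
  ⟨[k8,k9,k20,k20],[],[[[]]],[.old (.leafM k1 [k2,k3,k0,k1] [] [])]⟩

/-- classes `0 0 1 1`, types `B0 B1 C0 C2` -/
noncomputable def xo4_21 : CertX :=
  ⟨[k8,k9,k20,k22],[],[[[]]],[.old (.leafM k1 [k2,k3,k0,k1] [] [])]⟩

/-- classes `0 0 1 1`, types `B0 B1 N0 N2` -/
noncomputable def xo4_22 : CertX :=
  ⟨[k8,k9,k28,k30],[],[[[]]],[.old (.leafM k3 [k0,k1,k2,k3] [] [])]⟩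

/-- classes `0 0 1 1`, types `B0 B1 S0 S0` -/
noncomputable def xo4_23 : CertX :=
  ⟨[k8,k9,k16,k16],[],[[[]]],[.old (.leafM k1 [k2,k3,k0,k1] [] [])]⟩

/-- classes `0 0 1 1`, types `C0 C0 C0 C0` -/
noncomputable def xo4_24 : CertX :=
  ⟨[k4,k4,k20,k20],[],[[[]]],[.old (.leafM k0 [k0,k1,k2,k3] [] [])]⟩

/-- classes `0 0 1 1`, types `C0 C0 C0 C2` -/
noncomputable def xo4_25 : CertX :=
  ⟨[k4,k4,k20,k22],[],[[[]]],[.old (.leafM k0 [k0,k1,k2,k3] [] [])]⟩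

/-- classes `0 0 1 1`, types `C0 C0 N0 N2` -/
noncomputable def xo4_26 : CertX :=
  ⟨[k4,k4,k28,k30],[],[[[]]],[.old (.leafM k1 [k0,k1,k2,k3] [] [])]⟩

/-- classes `0 0 1 1`, types `C0 C0 S0 S0` -/
noncomputable def xo4_27 : CertX :=
  ⟨[k4,k4,k16,k16],[],[[[]]],[.old (.leafM k0 [k0,k1,k2,k3] [] [])]⟩

/-- classes `0 0 1 1`, types `C0 C2 C0 C2` -/
noncomputable def xo4_28 : CertX :=
  ⟨[k4,k6,k20,k22],[],[[[]]],[.old (.leafM k0 [k0,k1,k2,k3] [] [])]⟩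

/-- classes `0 0 1 1`, types `C0 C2 N0 N2` -/
noncomputable def xo4_29 : CertX :=
  ⟨[k4,k6,k28,k30],[],[[[]]],[.old (.leafM k1 [k0,k1,k2,k3] [] [])]⟩

/-- classes `0 0 1 1`, types `C0 C2 S0 S0` -/
noncomputable def xo4_30 : CertX :=
  ⟨[k4,k6,k16,k16],[],[[[]]],[.old (.leafM k0 [k0,k1,k2,k3] [] [])]⟩

/-- classes `0 0 1 1`, types `N0 N2 N0 N2` -/
noncomputable def xo4_31 : CertX :=
  ⟨[k12,k14,k28,k30],[],[[[]]],[.old (.leafM k3 [k0,k1,k2,k3] [] [])]⟩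

/-- classes `0 0 1 1`, types `N0 N2 S0 S0` -/
noncomputable def xo4_32 : CertX :=
  ⟨[k12,k14,k16,k16],[],[[[]]],[.old (.leafM k1 [k2,k3,k0,k1] [] [])]⟩

/-- classes `0 0 1 2`, types `B0 B1 C0 C0` -/
noncomputable def xo4_33 : CertX :=
  ⟨[k8,k9,k20,k36],[],[[[]]],[.old (.leafM k1 [k2,k3,k0,k1] [] [])]⟩

/-- classes `0 0 1 2`, types `B0 B1 C0 S0` -/
noncomputable def xo4_34 : CertX :=
  ⟨[k8,k9,k20,k32],[],[[[]]],[.old (.leafM k1 [k2,k3,k0,k1] [] [])]⟩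

/-- classes `0 0 1 2`, types `B0 B1 S0 S0` -/
noncomputable def xo4_35 : CertX :=
  ⟨[k8,k9,k16,k32],[],[[[]]],[.old (.leafM k1 [k2,k3,k0,k1] [] [])]⟩

/-- classes `0 0 1 2`, types `C0 C0 C0 C0` -/
noncomputable def xo4_36 : CertX :=
  ⟨[k4,k4,k20,k36],[],[[[]]],[.old (.leafM k0 [k0,k1,k2,k3] [] [])]⟩

/-- classes `0 0 1 2`, types `C0 C0 C0 S0` -/
noncomputable def xo4_37 : CertX :=
  ⟨[k4,k4,k20,k32],[],[[[]]],[.old (.leafM k0 [k0,k1,k2,k3] [] [])]⟩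

/-- classes `0 0 1 2`, types `C0 C0 S0 S0` -/
noncomputable def xo4_38 : CertX :=
  ⟨[k4,k4,k16,k32],[],[[[]]],[.old (.leafM k0 [k0,k1,k2,k3] [] [])]⟩

/-- classes `0 0 1 2`, types `C0 C2 C0 C0` -/
noncomputable def xo4_39 : CertX :=
  ⟨[k4,k6,k20,k36],[],[[[]]],[.old (.leafM k0 [k0,k1,k2,k3] [] [])]⟩

/-- classes `0 0 1 2`, types `C0 C2 C0 S0` -/
noncomputable def xo4_40 : CertX :=
  ⟨[k4,k6,k20,k32],[],[[[]]],[.old (.leafM k0 [k0,k1,k2,k3] [] [])]⟩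

/-- classes `0 0 1 2`, types `C0 C2 S0 S0` -/
noncomputable def xo4_41 : CertX :=
  ⟨[k4,k6,k16,k32],[],[[[]]],[.old (.leafM k0 [k0,k1,k2,k3] [] [])]⟩

/-- classes `0 0 1 2`, types `N0 N2 C0 C0` -/
noncomputable def xo4_42 : CertX :=
  ⟨[k12,k14,k20,k36],[],[[[]]],[.old (.leafM k1 [k2,k3,k0,k1] [] [])]⟩

/-- classes `0 0 1 2`, types `N0 N2 C0 S0` -/
noncomputable def xo4_43 : CertX :=
  ⟨[k12,k14,k20,k32],[],[[[]]],[.old (.leafM k1 [k2,k3,k0,k1] [] [])]⟩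

/-- classes `0 0 1 2`, types `N0 N2 S0 S0` -/
noncomputable def xo4_44 : CertX :=
  ⟨[k12,k14,k16,k32],[],[[[]]],[.old (.leafM k1 [k2,k3,k0,k1] [] [])]⟩

/-- classes `0 0 1 2`, types `S0 S0 C0 C0` -/
noncomputable def xo4_45 : CertX :=
  ⟨[k0,k0,k20,k36],[],[[[]]],[.old (.leafM k0 [k0,k1,k2,k3] [] [])]⟩

/-- classes `0 0 1 2`, types `S0 S0 C0 S0` -/
noncomputable def xo4_46 : CertX :=
  ⟨[k0,k0,k20,k32],[],[[[]]],[.old (.leafM k0 [k0,k1,k2,k3] [] [])]⟩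

/-- classes `0 1 0 1`, types `B0 B0 B1 B1` -/
noncomputable def xo4_47 : CertX :=
  ⟨[k8,k24,k9,k25],[],[[[]]],[.old (.leafM k5 [k0,k1,k2,k3] [] [])]⟩

/-- classes `0 1 0 1`, types `B0 C0 B1 C0` -/
noncomputable def xo4_48 : CertX :=
  ⟨[k8,k20,k9,k20],[],[[[]]],[.old (.leafM k2 [k1,k2,k3,k0] [] [])]⟩

/-- classes `0 1 0 1`, types `B0 C0 B1 C2` -/
noncomputable def xo4_49 : CertX :=
  ⟨[k8,k20,k9,k22],[],[[[]]],[.old (.leafM k2 [k1,k2,k3,k0] [] [])]⟩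

/-- classes `0 1 0 1`, types `B0 N0 B1 N1` -/
noncomputable def xo4_50 : CertX :=
  ⟨[k8,k28,k9,k29],[],[[[]]],[.old (.leafM k5 [k0,k1,k2,k3] [] [])]⟩

/-- classes `0 1 0 1`, types `B0 N0 B1 N2` -/
noncomputable def xo4_51 : CertX :=
  ⟨[k8,k28,k9,k30],[],[[[]]],[.old (.leafM k6 [k0,k1,k2,k3] [] [])]⟩

/-- classes `0 1 0 1`, types `B0 S0 B1 S0` -/
noncomputable def xo4_52 : CertX :=
  ⟨[k8,k16,k9,k16],[],[[[]]],[.old (.leafM k2 [k1,k2,k3,k0] [] [])]⟩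

/-- classes `0 1 0 1`, types `C0 C0 C0 C0` -/
noncomputable def xo4_53 : CertX :=
  ⟨[k4,k20,k4,k20],[],[[[]]],[.old (.leafM k0 [k0,k1,k2,k3] [] [])]⟩

/-- classes `0 1 0 1`, types `C0 C0 C0 C2` -/
noncomputable def xo4_54 : CertX :=
  ⟨[k4,k20,k4,k22],[],[[[]]],[.old (.leafM k0 [k0,k1,k2,k3] [] [])]⟩

/-- classes `0 1 0 1`, types `C0 C0 C2 C2` -/
noncomputable def xo4_55 : CertX :=
  ⟨[k4,k20,k6,k22],[],[[[]]],[.old (.leafM k0 [k0,k1,k2,k3] [] [])]⟩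

/-- classes `0 1 0 1`, types `C0 N0 C0 N1` -/
noncomputable def xo4_56 : CertX :=
  ⟨[k4,k28,k4,k29],[],[[[]]],[.old (.leafM k5 [k0,k1,k2,k3] [] [])]⟩

/-- classes `0 1 0 1`, types `C0 N0 C0 N2` -/
noncomputable def xo4_57 : CertX :=
  ⟨[k4,k28,k4,k30],[],[[[]]],[.old (.leafM k2 [k0,k1,k2,k3] [] [])]⟩

/-- classes `0 1 0 1`, types `C0 N0 C2 N1` -/
noncomputable def xo4_58 : CertX :=
  ⟨[k4,k28,k6,k29],[],[[[]]],[.old (.leafM k6 [k1,k2,k3,k0] [] [])]⟩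

/-- classes `0 1 0 1`, types `C0 N0 C2 N2` -/
noncomputable def xo4_59 : CertX :=
  ⟨[k4,k28,k6,k30],[],[[[]]],[.old (.leafM k2 [k0,k1,k2,k3] [] [])]⟩

/-- classes `0 1 0 1`, types `C0 S0 C0 S0` -/
noncomputable def xo4_60 : CertX :=
  ⟨[k4,k16,k4,k16],[],[[[]]],[.old (.leafM k0 [k0,k1,k2,k3] [] [])]⟩

/-- classes `0 1 0 1`, types `C0 S0 C2 S0` -/
noncomputable def xo4_61 : CertX :=
  ⟨[k4,k16,k6,k16],[],[[[]]],[.old (.leafM k0 [k0,k1,k2,k3] [] [])]⟩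

/-- classes `0 1 0 1`, types `N0 N0 N1 N1` -/
noncomputable def xo4_62 : CertX :=
  ⟨[k12,k28,k13,k29],[],[[[]]],[.old (.leafM k5 [k0,k1,k2,k3] [] [])]⟩

/-- classes `0 1 0 1`, types `N0 N0 N1 N2` -/
noncomputable def xo4_63 : CertX :=
  ⟨[k12,k28,k13,k30],[],[[[]]],[.old (.leafM k6 [k0,k1,k2,k3] [] [])]⟩

/-- classes `0 1 0 1`, types `N0 S0 N1 S0` -/
noncomputable def xo4_64 : CertX :=
  ⟨[k12,k16,k13,k16],[],[[[]]],[.old (.leafM k5 [k0,k1,k2,k3] [] [])]⟩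

/-- classes `0 1 0 1`, types `N0 S0 N2 S0` -/
noncomputable def xo4_65 : CertX :=
  ⟨[k12,k16,k14,k16],[],[[[]]],[.old (.leafM k2 [k1,k2,k3,k0] [] [])]⟩

/-- classes `0 1 0 2`, types `B0 C0 B1 C0` -/
noncomputable def xo4_66 : CertX :=
  ⟨[k8,k20,k9,k36],[],[[[]]],[.old (.leafM k2 [k1,k2,k3,k0] [] [])]⟩

/-- classes `0 1 0 2`, types `B0 C0 B1 S0` -/
noncomputable def xo4_67 : CertX :=
  ⟨[k8,k20,k9,k32],[],[[[]]],[.old (.leafM k2 [k1,k2,k3,k0] [] [])]⟩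

/-- classes `0 1 0 2`, types `B0 S0 B1 S0` -/
noncomputable def xo4_68 : CertX :=
  ⟨[k8,k16,k9,k32],[],[[[]]],[.old (.leafM k2 [k1,k2,k3,k0] [] [])]⟩

/-- classes `0 1 0 2`, types `C0 C0 C0 C0` -/
noncomputable def xo4_69 : CertX :=
  ⟨[k4,k20,k4,k36],[],[[[]]],[.old (.leafM k0 [k0,k1,k2,k3] [] [])]⟩

/-- classes `0 1 0 2`, types `C0 C0 C0 S0` -/
noncomputable def xo4_70 : CertX :=
  ⟨[k4,k20,k4,k32],[],[[[]]],[.old (.leafM k0 [k0,k1,k2,k3] [] [])]⟩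

/-- classes `0 1 0 2`, types `C0 C0 C2 C0` -/
noncomputable def xo4_71 : CertX :=
  ⟨[k4,k20,k6,k36],[],[[[]]],[.old (.leafM k0 [k0,k1,k2,k3] [] [])]⟩

/-- classes `0 1 0 2`, types `C0 C0 C2 S0` -/
noncomputable def xo4_72 : CertX :=
  ⟨[k4,k20,k6,k32],[],[[[]]],[.old (.leafM k0 [k0,k1,k2,k3] [] [])]⟩

/-- classes `0 1 0 2`, types `C0 S0 C0 S0` -/
noncomputable def xo4_73 : CertX :=
  ⟨[k4,k16,k4,k32],[],[[[]]],[.old (.leafM k0 [k0,k1,k2,k3] [] [])]⟩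

/-- classes `0 1 0 2`, types `C0 S0 C2 S0` -/
noncomputable def xo4_74 : CertX :=
  ⟨[k4,k16,k6,k32],[],[[[]]],[.old (.leafM k0 [k0,k1,k2,k3] [] [])]⟩

/-- classes `0 1 0 2`, types `N0 C0 N2 C0` -/
noncomputable def xo4_75 : CertX :=
  ⟨[k12,k20,k14,k36],[],[[[]]],[.old (.leafM k2 [k1,k2,k3,k0] [] [])]⟩

/-- classes `0 1 0 2`, types `N0 C0 N2 S0` -/
noncomputable def xo4_76 : CertX :=
  ⟨[k12,k20,k14,k32],[],[[[]]],[.old (.leafM k2 [k1,k2,k3,k0] [] [])]⟩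

/-- classes `0 1 0 2`, types `N0 S0 N2 S0` -/
noncomputable def xo4_77 : CertX :=
  ⟨[k12,k16,k14,k32],[],[[[]]],[.old (.leafM k2 [k1,k2,k3,k0] [] [])]⟩

/-- classes `0 1 0 2`, types `S0 C0 S0 C0` -/
noncomputable def xo4_78 : CertX :=
  ⟨[k0,k20,k0,k36],[],[[[]]],[.old (.leafM k0 [k0,k1,k2,k3] [] [])]⟩

/-- classes `0 1 0 2`, types `S0 C0 S0 S0` -/
noncomputable def xo4_79 : CertX :=
  ⟨[k0,k20,k0,k32],[],[[[]]],[.old (.leafM k0 [k0,k1,k2,k3] [] [])]⟩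

/-- classes `0 1 2 3`, types `C0 C0 C0 C0` -/
noncomputable def xo4_80 : CertX :=
  ⟨[k4,k20,k36,k52],[],[[[]]],[.old (.leafM k0 [k0,k1,k2,k3] [] [])]⟩

/-- classes `0 1 2 3`, types `C0 C0 C0 S0` -/
noncomputable def xo4_81 : CertX :=
  ⟨[k4,k20,k36,k48],[],[[[]]],[.old (.leafM k0 [k0,k1,k2,k3] [] [])]⟩

/-- classes `0 1 2 3`, types `C0 C0 S0 S0` -/
noncomputable def xo4_82 : CertX :=
  ⟨[k4,k20,k32,k48],[],[[[]]],[.old (.leafM k0 [k0,k1,k2,k3] [] [])]⟩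

/-- classes `0 1 2 3`, types `C0 S0 C0 S0` -/
noncomputable def xo4_83 : CertX :=
  ⟨[k4,k16,k36,k48],[],[[[]]],[.old (.leafM k0 [k0,k1,k2,k3] [] [])]⟩

/-- classes `0 1 2 3`, types `C0 S0 S0 S0` -/
noncomputable def xo4_84 : CertX :=
  ⟨[k4,k16,k32,k48],[],[[[]]],[.old (.leafM k0 [k0,k1,k2,k3] [] [])]⟩

/-- table of certificates in the old format -/
noncomputable def xt4 : List CertX := [xo4_0, xo4_1, xo4_2, xo4_3, xo4_4, xo4_5, xo4_6, xo4_7, xo4_8, xo4_9, xo4_10, xo4_11, xo4_12, xo4_13, xo4_14,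
    xo4_15, xo4_16, xo4_17, xo4_18, xo4_19, xo4_20, xo4_21, xo4_22, xo4_23, xo4_24, xo4_25, xo4_26, xo4_27, xo4_28,
    xo4_29, xo4_30, xo4_31, xo4_32, xo4_33, xo4_34, xo4_35, xo4_36, xo4_37, xo4_38, xo4_39, xo4_40, xo4_41, xo4_42,
    xo4_43, xo4_44, xo4_45, xo4_46, xo4_47, xo4_48, xo4_49, xo4_50, xo4_51, xo4_52, xo4_53, xo4_54, xo4_55, xo4_56,
    xo4_57, xo4_58, xo4_59, xo4_60, xo4_61, xo4_62, xo4_63, xo4_64, xo4_65, xo4_66, xo4_67, xo4_68, xo4_69, xo4_70,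
    xo4_71, xo4_72, xo4_73, xo4_74, xo4_75, xo4_76, xo4_77, xo4_78, xo4_79, xo4_80, xo4_81, xo4_82, xo4_83, xo4_84]

end Pool.Agent.Lib_MP_fa6e45
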