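import Pool.Agent.Lib_MP_fa6e45.CQR0
import Pool.Agent.Lib_MP_fa6e45.CQR4D

/-!
MP_fa6e45_co, stage 9: raw data of certificates for the theorem T6 (generated by a program).
-/

namespace Pool.Agent.Lib_MP_fa6e45

/-- classes `0 0 0 0`, types `B0 B0 B1 B1` -/
noncomputable def r4_0 : RCq :=
  .x (nat_lit 0)

/-- classes `0 0 0 0`, types `B0 B1 B0 B1` -/
noncomputable def r4_1 : RCq :=
  .x (nat_lit 1)

/-- classes `0 0 0 0`, types `C0 C0 C0 C0` -/
noncomputable def r4_2 : RCq :=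
  .x (nat_lit 2)

/-- classes `0 0 0 0`, types `C0 C0 C0 C2` -/
noncomputable def r4_3 : RCq :=
  .x (nat_lit 3)

/-- classes `0 0 0 0`, types `C0 C0 C2 C2` -/
noncomputable def r4_4 : RCq :=
  .x (nat_lit 4)

/-- classes `0 0 0 0`, types `C0 C2 C0 C2` -/
noncomputable def r4_5 : RCq :=
  .x (nat_lit 5)

/-- classes `0 0 0 0`, types `N0 N0 N1 N1` -/
noncomputable def r4_6 : RCq :=
  .x (nat_lit 6)

/-- classes `0 0 0 0`, types `N0 N0 N1 N2` -/
noncomputable def r4_7 : RCq :=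
  .x (nat_lit 7)

/-- classes `0 0 0 0`, types `N0 N0 N2 N2` -/
noncomputable def r4_8 : RCq :=
  .x (nat_lit 8)

/-- classes `0 0 0 0`, types `N0 N1 N0 N1` -/
noncomputable def r4_9 : RCq :=
  .q [nat_lit 12,nat_lit 13,nat_lit 12,nat_lit 13] (nat_lit 0) [s4_0,s4_4,s4_9,s4_13,s4_18,s4_31,s4_36,s4_41] d4_0 [.t
    (nat_lit 0),.t (nat_lit 1),.t (nat_lit 2),.t (nat_lit 3),.t (nat_lit 4),.l (nat_lit 13) (nat_lit 1680)
    (nat_lit 6) (nat_lit 0x1e3000001e3000001c2000001c2000001fd000001fd0000026800000268)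
    (nat_lit 0x8500000085000000a6000000a60000006b0000006b0000000000000000)
    (nat_lit 0x1181a40d206900bc1a40d2069034808c0d2069034803c0d206903481a403486903481a401e06903481a40d201a43481a40d201240781a40d206901181a40d2069034805e0d2069034808c0d206903481a402486903481a404d06903481a40d200f03481a40d20268)
    (nat_lit 0x1181a40d206903481a40d2069034808c0d206903481a40d206903481a403486903481a40d206903481a40d201a43481a40d206900bc1a40d206901181a40d2069034803c0d2069034808c0d206903481a401e06903481a404286903481a40d201243481a40d20214)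
    (nat_lit 5) [[nat_lit 2,nat_lit 258,nat_lit 514,nat_lit 257,nat_lit 771,nat_lit 770,nat_lit 513,nat_lit 769],
    [nat_lit 32,nat_lit 0x1020,nat_lit 0x1010,nat_lit 0x2020,nat_lit 0x2010],[nat_lit 512,nat_lit 768],
    [nat_lit 0x2000]] [.c (nat_lit 1) (nat_lit 2),.r (nat_lit 1) (nat_lit 0) [nat_lit 0x10001,nat_lit 0x118e1],.r
    (nat_lit 0) (nat_lit 0) [nat_lit 66],.c (nat_lit 0) (nat_lit 67),.c (nat_lit 0) (nat_lit 0xc02),.r (nat_lit 4)
    (nat_lit 1) [nat_lit 0x280c1,nat_lit 0x1c8e1],.r (nat_lit 1) (nat_lit 0) [nat_lit 0x10001,nat_lit 0x1b0e2],.r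
    (nat_lit 3) (nat_lit 1) [nat_lit 0x180c1,nat_lit 0x2c8e1],.c (nat_lit 2) (nat_lit 2),.r (nat_lit 2) (nat_lit 1)
    [nat_lit 0x198e1,nat_lit 65],.c (nat_lit 0) (nat_lit 67),.r (nat_lit 0) (nat_lit 0) [nat_lit 0x1062],.r
    (nat_lit 2) (nat_lit 2) [nat_lit 0x198e1,nat_lit 65],.c (nat_lit 3) (nat_lit 2),.r (nat_lit 1) (nat_lit 0)
    [nat_lit 0x10001,nat_lit 0x19861],.c (nat_lit 4) (nat_lit 2)],.t (nat_lit 5),.t (nat_lit 6),.t (nat_lit 7),.t
    (nat_lit 8),.t (nat_lit 9),.l (nat_lit 14) (nat_lit 3360) (nat_lit 6)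
    (nat_lit 0x34b0000034b00000495000004950000049f0000049f000005f6000005f6)
    (nat_lit 0x2ab000002ab000001610000016100000157000001570000000000000000)
    (nat_lit 0xa80d203480d2007d0d203480d2034802a03480d2034801e03480d203480d200d20d203480d200a54d203480d2034803483480d2034804950780d203480d200d20d203480d2034801f43480d2034803483480d203480d201254d203480d2017d8d203480d2034802953480d2034805f6)
    (nat_lit 0xa80d203480d203480d203480d2034802a03480d203480d203480d203480d200d20d203480d203480d203480d2034803483480d203480d2007d0d203480d200d20d203480d2034801e03480d2034803483480d203480d200a54d203480d2017d8d203480d2034804953480d2034805f6)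
    (nat_lit 4) [[nat_lit 2,nat_lit 257,nat_lit 513],[nat_lit 32,nat_lit 48,nat_lit 0x1030,nat_lit 0x2030,
    nat_lit 0x1020,nat_lit 0x2020,nat_lit 0x3020,nat_lit 0x1010,nat_lit 0x3030,nat_lit 0x4020,nat_lit 0x2010,
    nat_lit 0x3010,nat_lit 0x4010],[nat_lit 512,nat_lit 768],[nat_lit 0x2000,nat_lit 0x3000,nat_lit 0x4000]] [.c
    (nat_lit 1) (nat_lit 2),.c (nat_lit 0) (nat_lit 515),.r (nat_lit 5) (nat_lit 0) [nat_lit 0x4031],.c (nat_lit 2)
    (nat_lit 2),.r (nat_lit 5) (nat_lit 4) [nat_lit 33],.r (nat_lit 7) (nat_lit 1) [nat_lit 0x3451,nat_lit 33],.r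
    (nat_lit 9) (nat_lit 5) [nat_lit 0x7631,nat_lit 0x2001],.c (nat_lit 0) (nat_lit 835),.c (nat_lit 1)
    (nat_lit 0x452),.r (nat_lit 9) (nat_lit 4) [nat_lit 0x7631,nat_lit 0x2001],.c (nat_lit 0) (nat_lit 35),.r
    (nat_lit 5) (nat_lit 0) [nat_lit 0x6721],.r (nat_lit 10) (nat_lit 4) [nat_lit 0x9832,nat_lit 0x2001],.c
    (nat_lit 0) (nat_lit 835),.r (nat_lit 7) (nat_lit 2) [nat_lit 0x3451,nat_lit 33],.r (nat_lit 8) (nat_lit 2)
    [nat_lit 0x3451,nat_lit 33],.c (nat_lit 3) (nat_lit 2),.r (nat_lit 5) (nat_lit 0) [nat_lit 0x6032],.c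
    (nat_lit 4) (nat_lit 2),.r (nat_lit 5) (nat_lit 3) [nat_lit 33],.r (nat_lit 6) (nat_lit 4) [nat_lit 0x9832,
    nat_lit 0x2001]],.l (nat_lit 11) (nat_lit 408) (nat_lit 4)
    (nat_lit 0x88000000880000005c0000005c00000077000000770000008000000080)
    (nat_lit 0x2c0000002c00000011000000110000000800000008)
    (nat_lit 0x110660cc1980ee660cc198330220cc198330154cc198330660291983306602a198330660cc052330660cc0540aa660cc1980cc660cc1983301dccc198330198cc1983306602a1983306603c198330660cc054330660cc078)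
    (nat_lit 0x110660cc198330660cc198330220cc198330660cc19833066029198330660cc198330660cc052330660cc1980ee660cc1980cc660cc198330154cc198330198cc1983306602a1983306603c198330660cc054330660cc078)
    (nat_lit 3) [[nat_lit 2,nat_lit 3,nat_lit 258,nat_lit 514,nat_lit 257,nat_lit 513,nat_lit 769],[nat_lit 32,
    nat_lit 48,nat_lit 0x1020,nat_lit 0x1010,nat_lit 0x2010],[nat_lit 512,nat_lit 768,nat_lit 0x400],
    [nat_lit 0x2000]] [.c (nat_lit 1) (nat_lit 2),.c (nat_lit 0) (nat_lit 131),.c (nat_lit 0) (nat_lit 131),.r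
    (nat_lit 0) (nat_lit 0) [nat_lit 18],.c (nat_lit 0) (nat_lit 131),.r (nat_lit 11) (nat_lit 1) [nat_lit 17],.r
    (nat_lit 0) (nat_lit 0) [nat_lit 0x414],.c (nat_lit 2) (nat_lit 2),.r (nat_lit 5) (nat_lit 4) [nat_lit 17],.r
    (nat_lit 11) (nat_lit 4) [nat_lit 17],.c (nat_lit 1) (nat_lit 154),.r (nat_lit 11) (nat_lit 3) [nat_lit 17],.c
    (nat_lit 3) (nat_lit 2),.r (nat_lit 5) (nat_lit 1) [nat_lit 17],.r (nat_lit 0) (nat_lit 0) [nat_lit 0x816],.c
    (nat_lit 4) (nat_lit 2)],.l (nat_lit 11) (nat_lit 480) (nat_lit 4)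
    (nat_lit 0x8b0000008b0000008a0000008a0000007900000079000000a0000000a0)
    (nat_lit 0x1500000015000000160000001600000027000000270000000000000000)
    (nat_lit 0x140780f01e00c8780f01e03c0280f01e03c0180f01e03c07803c1e03c0780301e03c0780f00783c0780f00640c0780f01e00f0780f01e03c0190f01e03c01e0f01e03c0780321e03c0780501e03c0780f00603c0780f00a0)
    (nat_lit 0x140780f01e03c0780f01e03c0280f01e03c0780f01e03c07803c1e03c0780f01e03c0780f00783c0780f01e00c8780f01e00f0780f01e03c0180f01e03c01e0f01e03c0780301e03c0780501e03c0780f00643c0780f00a0)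
    (nat_lit 3) [[nat_lit 2,nat_lit 258,nat_lit 514,nat_lit 257,nat_lit 513,nat_lit 769],[nat_lit 32,nat_lit 48,
    nat_lit 0x1030,nat_lit 0x1020,nat_lit 0x2020,nat_lit 0x1010,nat_lit 0x2010],[nat_lit 512,nat_lit 768],
    [nat_lit 0x2000]] [.c (nat_lit 1) (nat_lit 2),.r (nat_lit 11) (nat_lit 0) [nat_lit 17],.r (nat_lit 0)
    (nat_lit 0) [nat_lit 18],.c (nat_lit 0) (nat_lit 19),.r (nat_lit 11) (nat_lit 1) [nat_lit 17],.r (nat_lit 12)
    (nat_lit 1) [nat_lit 17],.c (nat_lit 2) (nat_lit 2),.r (nat_lit 5) (nat_lit 4) [nat_lit 17],.r (nat_lit 12)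
    (nat_lit 4) [nat_lit 17],.r (nat_lit 11) (nat_lit 4) [nat_lit 17],.r (nat_lit 0) (nat_lit 0) [nat_lit 282],.c
    (nat_lit 0) (nat_lit 19),.r (nat_lit 11) (nat_lit 3) [nat_lit 17],.c (nat_lit 3) (nat_lit 2),.r (nat_lit 5)
    (nat_lit 1) [nat_lit 17],.c (nat_lit 4) (nat_lit 2)]]

/-- classes `0 0 0 0`, types `N0 N1 N0 N2` -/
noncomputable def r4_10 : RCq :=
  .q [nat_lit 12,nat_lit 13,nat_lit 12,nat_lit 14] (nat_lit 1) [s4_3,s4_7,s4_13,s4_17,s4_18,s4_31,s4_36,s4_49] d4_1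
    [.t (nat_lit 10),.t (nat_lit 11),.l (nat_lit 11) (nat_lit 480) (nat_lit 4)
    (nat_lit 0x74000000740000008c0000008c000000a0000000a00000008f0000008f)
    (nat_lit 0x2c0000002c000000140000001400000000000000000000001100000011)
    (nat_lit 0x3c0780f00603c0780f00613c0780f01e03c01d0319e03c01803c1e03c0780f01e03c0780f00783c0780f007b0e8780f01e0140780f01e03c0780f01e03c0280489e03c01843d9e03c0780f01e00c6780f01e0122780f01e0)
    (nat_lit 0x3c0780f01e03c0780f01e03c0780f01e03c0780f01e03c07803c1e03c0780f01e00c0780f00783c0780f01e03c0780f01e0140780f01e03c01d06a1e03c0280f01e03c018c619e03c0244621e00c2780f007b1aa780f00c4)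
    (nat_lit 3) [[nat_lit 0x1011,nat_lit 0x1001,nat_lit 0x2002,nat_lit 0x1101,nat_lit 0x1201],[nat_lit 32],
    [nat_lit 512,nat_lit 768]] [.c (nat_lit 0) (nat_lit 19),.c (nat_lit 0) (nat_lit 19),.r (nat_lit 1) (nat_lit 0)
    [nat_lit 18,nat_lit 0x83a],.c (nat_lit 2) (nat_lit 226),.r (nat_lit 0) (nat_lit 1) [nat_lit 17],.c (nat_lit 2)
    (nat_lit 2),.c (nat_lit 3) (nat_lit 2),.r (nat_lit 0) (nat_lit 1) [nat_lit 0x413]],.l (nat_lit 9) (nat_lit 120)
    (nat_lit 4) (nat_lit 0x2000000020000000200000002000000023000000230000002800000028)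
    (nat_lit 0x800000008000000080000000800000005000000050000000000000000)
    (nat_lit 0x3c1e0f0183c1e0f01e3c1e0f0783c06c40783c06030783c1e0f0783c1e0f0183c1e0f0200d9e0f0780f1e0f0783c1e0f0783c0784a783c07840783c1e0f078101e0f078129e0f078)
    (nat_lit 0x3c1e0f0783c1e0f0783c1e0f0783c1e0f0783c1e030783c1e0f0780c1e0f0183c1e0f0783c1e0f0780f1e0f0783c06c66783c078f0783c08070783c0947c780f1e0f0201c9e0f03e)
    (nat_lit 3) [[nat_lit 0x1011,nat_lit 0x1001,nat_lit 0x1101,nat_lit 0x1201],[nat_lit 32,nat_lit 48],[nat_lit 512,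
    nat_lit 768,nat_lit 0x400]] [.c (nat_lit 2) (nat_lit 194),.c (nat_lit 0) (nat_lit 19),.c (nat_lit 3)
    (nat_lit 194),.r (nat_lit 0) (nat_lit 1) [nat_lit 17],.c (nat_lit 2) (nat_lit 2),.r (nat_lit 2) (nat_lit 1)
    [nat_lit 409],.c (nat_lit 3) (nat_lit 2),.r (nat_lit 2) (nat_lit 0) [nat_lit 409],.r (nat_lit 0) (nat_lit 1)
    [nat_lit 0x812]],.l (nat_lit 11) (nat_lit 480) (nat_lit 4)
    (nat_lit 0x74000000740000008c0000008c000000a0000000a00000008f0000008f)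
    (nat_lit 0x2c0000002c000000140000001400000000000000000000001100000011)
    (nat_lit 0x3c0780f00603c0780f00613c0780f01e03c01d0319e03c01803c1e03c0780f01e03c0780f00783c0780f007b0e8780f01e0140780f01e03c0780f01e03c0280489e03c01843d9e03c0780f01e00c6780f01e0122780f01e0)
    (nat_lit 0x3c0780f01e03c0780f01e03c0780f01e03c0780f01e03c07803c1e03c0780f01e00c0780f00783c0780f01e03c0780f01e0140780f01e03c01d06a1e03c0280f01e03c018c619e03c0244621e00c2780f007b1aa780f00c4)
    (nat_lit 3) [[nat_lit 0x1011,nat_lit 0x1001,nat_lit 0x2002,nat_lit 0x1101,nat_lit 0x1201],[nat_lit 32],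
    [nat_lit 512,nat_lit 768]] [.c (nat_lit 0) (nat_lit 19),.c (nat_lit 0) (nat_lit 19),.r (nat_lit 3) (nat_lit 1)
    [nat_lit 18],.c (nat_lit 0) (nat_lit 19),.r (nat_lit 0) (nat_lit 1) [nat_lit 17],.c (nat_lit 2) (nat_lit 2),.c
    (nat_lit 3) (nat_lit 2),.r (nat_lit 2) (nat_lit 0) [nat_lit 409]]]

/-- classes `0 0 0 0`, types `N0 N1 N2 N3` -/
noncomputable def r4_11 : RCq :=
  .q [nat_lit 12,nat_lit 13,nat_lit 14,nat_lit 15] (nat_lit 2) [s4_4,s4_5,s4_12,s4_13,s4_18,s4_23,s4_33,s4_41] d4_2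
    [.t (nat_lit 12),.t (nat_lit 13),.l (nat_lit 9) (nat_lit 120) (nat_lit 4)
    (nat_lit 0x270000002700000018000000180000002c0000002c0000003000000030)
    (nat_lit 0x900000009000000180000001800000004000000040000000000000000)
    (nat_lit 0xf1e0f0783c08cf0783c078f078119e0f0783c1e0f0783c1e030183c1e0f0783c1e030183c08cf078141e0f078119e0f0783c0a0f0783c1e030183c1e0f0783c1e030183c1e0f078)
    (nat_lit 0xf1e0f0783c1e0f0783c078f0783c1e0f0783c1e0f0783c1e0f0783c1e0f0783c1e0f0783c08cf078141e0f078119e0f0783c0a0f0783c1e030183c1e060783c1e030183c1e06030)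
    (nat_lit 4) [[nat_lit 257,nat_lit 514],[nat_lit 32,nat_lit 0x1020,nat_lit 0x1010,nat_lit 0x2010],[],
    [nat_lit 0x2000,nat_lit 0x3000]] [.c (nat_lit 0) (nat_lit 515),.c (nat_lit 0) (nat_lit 515),.c (nat_lit 2)
    (nat_lit 2),.r (nat_lit 1) (nat_lit 0) [nat_lit 0x2001,nat_lit 0x2761],.c (nat_lit 0) (nat_lit 35),.r
    (nat_lit 1) (nat_lit 0) [nat_lit 0x2001,nat_lit 0x5c71],.c (nat_lit 4) (nat_lit 2),.r (nat_lit 1) (nat_lit 0)
    [nat_lit 0x2001,nat_lit 0x3631]],.l (nat_lit 8) (nat_lit 42) (nat_lit 6)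
    (nat_lit 0xe0000000e00000007000000070000000e0000000e0000000d0000000d)
    (nat_lit 0x70000000700000000000000000000000100000001)
    (nat_lit 0xe2a2a2a2a0e2a2a2a0e2a2a0e2a2a2a2a2a2a2a2a2a06062a2a2a2a2a2a06062a0e2a2a0e2a2a2a0e2a2a2a2a0e2a2a2a2a06062a2a2a2a2a2a06062a2a2a2a)
    (nat_lit 0xe2a2a2a2a2a2a2a2a0e2a2a2a2a2a2a2a2a2a2a2a2a2a2a2a2a2a2a2a2a2a2a2a0e2a2a0e2a2a2a0e2a2a2a2a0e2a2a2a2a06062a2a0c2a2a2a06062a2a0c0c)
    (nat_lit 2) [[nat_lit 257,nat_lit 514,nat_lit 771],[nat_lit 32,nat_lit 0x1010],[],[nat_lit 0x2000]] [.c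
    (nat_lit 0) (nat_lit 11),.r (nat_lit 0) (nat_lit 0) [nat_lit 10],.r (nat_lit 2) (nat_lit 0) [nat_lit 9],.c
    (nat_lit 2) (nat_lit 2),.c (nat_lit 0) (nat_lit 11),.c (nat_lit 4) (nat_lit 2)]]

/-- classes `0 0 0 0`, types `N0 N1 N3 N2` -/
noncomputable def r4_12 : RCq :=
  .x (nat_lit 9)

/-- classes `0 0 0 0`, types `N0 N2 N0 N2` -/
noncomputable def r4_13 : RCq :=
  .x (nat_lit 10)

/-- classes `0 0 0 0`, types `N0 N2 N1 N3` -/
noncomputable def r4_14 : RCq :=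
  .x (nat_lit 11)

/-- classes `0 0 0 1`, types `C0 C0 C0 C0` -/
noncomputable def r4_15 : RCq :=
  .x (nat_lit 12)

/-- classes `0 0 0 1`, types `C0 C0 C0 S0` -/
noncomputable def r4_16 : RCq :=
  .x (nat_lit 13)

/-- classes `0 0 0 1`, types `C0 C0 C2 C0` -/
noncomputable def r4_17 : RCq :=
  .x (nat_lit 14)

/-- classes `0 0 0 1`, types `C0 C0 C2 S0` -/
noncomputable def r4_18 : RCq :=
  .x (nat_lit 15)

/-- classes `0 0 0 1`, types `C0 C2 C0 C0` -/
noncomputable def r4_19 : RCq :=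
  .x (nat_lit 16)

/-- classes `0 0 0 1`, types `C0 C2 C0 S0` -/
noncomputable def r4_20 : RCq :=
  .x (nat_lit 17)

/-- classes `0 0 0 1`, types `S0 S0 S0 C0` -/
noncomputable def r4_21 : RCq :=
  .x (nat_lit 18)

/-- classes `0 0 1 1`, types `B0 B1 B0 B1` -/
noncomputable def r4_22 : RCq :=
  .x (nat_lit 19)

/-- classes `0 0 1 1`, types `B0 B1 C0 C0` -/
noncomputable def r4_23 : RCq :=
  .x (nat_lit 20)

/-- classes `0 0 1 1`, types `B0 B1 C0 C2` -/
noncomputable def r4_24 : RCq :=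
  .x (nat_lit 21)

/-- classes `0 0 1 1`, types `B0 B1 N0 N1` -/
noncomputable def r4_25 : RCq :=
  .q [nat_lit 8,nat_lit 9,nat_lit 28,nat_lit 29] (nat_lit 2) [s4_4,s4_10,s4_13,s4_18,s4_21,s4_41] d4_3 [.t
    (nat_lit 13),.t (nat_lit 14),.l (nat_lit 9) (nat_lit 120) (nat_lit 4)
    (nat_lit 0x28000000280000001d0000001d00000023000000230000002300000023)
    (nat_lit 0xb0000000b00000005000000050000000500000005)
    (nat_lit 0x141e0f0783c1e0f0783c0a0f0783c1e0f0783c1e0f0783c1e030783c1e0f0780c1e0f0183c1e0f0780f1e0f01e3c1e030783c078f0783c1e030783c078f0783c1e0f0183c1e0f078)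
    (nat_lit 0x141e0f0783c1e0f0783c0a0f0783c1e0f0783c1e0f0783c1e0f0783c1e0f0783c1e0f0783c1e0f0180f1e0f0783c1e0f0783c078f0783c1e030783c0c060783c1e0f0180f1e0f030)
    (nat_lit 3) [[nat_lit 257,nat_lit 514,nat_lit 273,nat_lit 289],[nat_lit 32,nat_lit 48],[],[nat_lit 0x2000]] [.c
    (nat_lit 0) (nat_lit 133),.r (nat_lit 1) (nat_lit 0) [nat_lit 18,nat_lit 0x83a],.c (nat_lit 4) (nat_lit 226),.r
    (nat_lit 0) (nat_lit 0) [nat_lit 0x839,nat_lit 0x631],.c (nat_lit 2) (nat_lit 2),.r (nat_lit 0) (nat_lit 0)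
    [nat_lit 0x419,nat_lit 17],.c (nat_lit 4) (nat_lit 2)],.t (nat_lit 15),.t (nat_lit 16),.l (nat_lit 8)
    (nat_lit 40) (nat_lit 4) (nat_lit 0xb0000000b0000000a0000000a0000000c0000000c0000000e0000000e)
    (nat_lit 0x300000003000000040000000400000002000000020000000000000000)
    (nat_lit 0x82828282828282828082828282828282828282828280a28282828280828280a282828280a28280c28280828280a282828280a28280c28282828280a28282828)
    (nat_lit 0x828282828282828280828282828282828282828282828282828282828282828282828080a28282828282828280a282828280a28281214282828280a0c282814)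
    (nat_lit 4) [[nat_lit 257,nat_lit 273],[nat_lit 32,nat_lit 48],[],[nat_lit 0x2000,nat_lit 0x3000,
    nat_lit 0x4000]] [.c (nat_lit 0) (nat_lit 0x403),.c (nat_lit 2) (nat_lit 770),.c (nat_lit 2) (nat_lit 2),.r
    (nat_lit 4) (nat_lit 0) [nat_lit 0x2001,nat_lit 33],.c (nat_lit 4) (nat_lit 2),.r (nat_lit 2) (nat_lit 0)
    [nat_lit 0x631],.r (nat_lit 3) (nat_lit 0) [nat_lit 0x2001,nat_lit 0x9832]],.l (nat_lit 9) (nat_lit 120)
    (nat_lit 4) (nat_lit 0x2300000023000000180000001800000028000000280000002800000028)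
    (nat_lit 0x500000005000000100000001000000000000000000000000000000000)
    (nat_lit 0xf1e0f0783c1e0f0783c078f0783c1e0f0783c1e0f0783c1e030783c1e0f0780c1e0f0183c1e0f078141e0f0283c1e030783c0a0f0783c1e030783c0a0f0783c1e0f0183c1e0f078)
    (nat_lit 0xf1e0f0783c1e0f0783c078f0783c1e0f0783c1e0f0783c1e0f0783c1e0f0783c1e0f0783c1e0f018141e0f0783c1e0f0783c0a0f0783c1e030783c0c060783c1e0f018141e0f030)
    (nat_lit 3) [[nat_lit 257,nat_lit 514,nat_lit 273],[nat_lit 32],[],[nat_lit 0x2000,nat_lit 0x3000]] [.c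
    (nat_lit 0) (nat_lit 19),.r (nat_lit 5) (nat_lit 0) [nat_lit 18],.c (nat_lit 0) (nat_lit 19),.c (nat_lit 2)
    (nat_lit 2),.c (nat_lit 4) (nat_lit 2),.r (nat_lit 2) (nat_lit 0) [nat_lit 409]]]

/-- classes `0 0 1 1`, types `B0 B1 N0 N2` -/
noncomputable def r4_26 : RCq :=
  .x (nat_lit 22)

/-- classes `0 0 1 1`, types `B0 B1 S0 S0` -/
noncomputable def r4_27 : RCq :=
  .x (nat_lit 23)

/-- classes `0 0 1 1`, types `C0 C0 C0 C0` -/
noncomputable def r4_28 : RCq :=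
  .x (nat_lit 24)

/-- classes `0 0 1 1`, types `C0 C0 C0 C2` -/
noncomputable def r4_29 : RCq :=
  .x (nat_lit 25)

/-- classes `0 0 1 1`, types `C0 C0 N0 N1` -/
noncomputable def r4_30 : RCq :=
  .q [nat_lit 4,nat_lit 4,nat_lit 28,nat_lit 29] (nat_lit 2) [s4_4,s4_11,s4_13,s4_16,s4_18,s4_29,s4_34,s4_41] d4_3 [.t
    (nat_lit 13),.t (nat_lit 14),.l (nat_lit 9) (nat_lit 120) (nat_lit 4)
    (nat_lit 0x28000000280000001d0000001d00000023000000230000002300000023)
    (nat_lit 0xb0000000b00000005000000050000000500000005)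
    (nat_lit 0x141e0f0783c1e0f0783c0a0f0783c1e0f0783c1e0f0783c1e030783c1e0f0783c060f0183c1e030780f1e0f0783c1e0f0783c078f01e3c1e030780f1e0f0783c1e0f0183c1e0f078)
    (nat_lit 0x141e0f0783c1e0f0783c0a0f0783c1e0f0783c1e0f0783c1e0f0783c1e0f0783c1e0f0783c1e0f0780f1e0f0783c1e0f0183c078f0783c1e03078181e060783c1e0f0183c078f030)
    (nat_lit 3) [[nat_lit 257,nat_lit 514,nat_lit 273,nat_lit 289],[nat_lit 32,nat_lit 48],[],[nat_lit 0x2000]] [.c
    (nat_lit 0) (nat_lit 133),.r (nat_lit 1) (nat_lit 0) [nat_lit 18,nat_lit 0x83a],.c (nat_lit 4) (nat_lit 226),.r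
    (nat_lit 0) (nat_lit 0) [nat_lit 0x839,nat_lit 0x631],.c (nat_lit 2) (nat_lit 2),.r (nat_lit 0) (nat_lit 0)
    [nat_lit 0x419,nat_lit 17],.c (nat_lit 4) (nat_lit 2)],.t (nat_lit 15),.t (nat_lit 16),.l (nat_lit 8)
    (nat_lit 40) (nat_lit 4) (nat_lit 0xb0000000b0000000a0000000a0000000c0000000c0000000e0000000e)
    (nat_lit 0x300000003000000040000000400000002000000020000000000000000)
    (nat_lit 0x82828282828282828082828282828282828282828280a28282828282808280a282808280a28282828282828280a280c28280a280c2828282828280a28282828)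
    (nat_lit 0x828282828282828280828282828282828282828282828282828282828282828282828280a28282828282808280a282828280a28122814282828280a280c2814)
    (nat_lit 4) [[nat_lit 257,nat_lit 273],[nat_lit 32,nat_lit 48],[],[nat_lit 0x2000,nat_lit 0x3000,
    nat_lit 0x4000]] [.c (nat_lit 0) (nat_lit 0x403),.c (nat_lit 2) (nat_lit 770),.c (nat_lit 2) (nat_lit 2),.r
    (nat_lit 4) (nat_lit 0) [nat_lit 0x2001,nat_lit 33],.c (nat_lit 4) (nat_lit 2),.r (nat_lit 2) (nat_lit 0)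
    [nat_lit 0x631],.r (nat_lit 3) (nat_lit 0) [nat_lit 0x2001,nat_lit 0x9832]],.l (nat_lit 9) (nat_lit 120)
    (nat_lit 4) (nat_lit 0x2300000023000000180000001800000028000000280000002800000028)
    (nat_lit 0x500000005000000100000001000000000000000000000000000000000)
    (nat_lit 0xf1e0f0783c1e0f0783c078f0783c1e0f0783c1e0f0783c1e030783c1e0f0783c060f0183c1e03078141e0f0783c1e0f0783c0a0f0283c1e03078141e0f0783c1e0f0183c1e0f078)
    (nat_lit 0xf1e0f0783c1e0f0783c078f0783c1e0f0783c1e0f0783c1e0f0783c1e0f0783c1e0f0783c1e0f078141e0f0783c1e0f0183c0a0f0783c1e03078181e060783c1e0f0183c0a0f030)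
    (nat_lit 3) [[nat_lit 257,nat_lit 514,nat_lit 273],[nat_lit 32],[],[nat_lit 0x2000,nat_lit 0x3000]] [.c
    (nat_lit 0) (nat_lit 19),.r (nat_lit 5) (nat_lit 0) [nat_lit 18],.c (nat_lit 0) (nat_lit 19),.c (nat_lit 2)
    (nat_lit 2),.c (nat_lit 4) (nat_lit 2),.r (nat_lit 2) (nat_lit 0) [nat_lit 409]]]

/-- classes `0 0 1 1`, types `C0 C0 N0 N2` -/
noncomputable def r4_31 : RCq :=
  .x (nat_lit 26)

/-- classes `0 0 1 1`, types `C0 C0 S0 S0` -/
noncomputable def r4_32 : RCq :=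
  .x (nat_lit 27)

/-- classes `0 0 1 1`, types `C0 C2 C0 C2` -/
noncomputable def r4_33 : RCq :=
  .x (nat_lit 28)

/-- classes `0 0 1 1`, types `C0 C2 N0 N1` -/
noncomputable def r4_34 : RCq :=
  .q [nat_lit 4,nat_lit 6,nat_lit 28,nat_lit 29] (nat_lit 3) [s4_4,s4_10,s4_11,s4_16,s4_21,s4_29,s4_34,s4_41] d4_4 [.l
    (nat_lit 7) (nat_lit 30) (nat_lit 3) (nat_lit 0xa0000000a000000080000000800000008000000080000000800000008)
    (nat_lit 0x20000000200000002000000020000000200000002)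
    (nat_lit 0x1478f1e3c78f1e3c28f1e3c78f1e3c78f1e3c7831e3c78f1e0c18f1e3c7831e3c78f063c7831e3c78f063c78f1e0c18f1e3c78f063c78f1e)
    (nat_lit 0x1478f1e3c78f1e3c28f1e3c78f1e3c78f1e3c78f1e3c78f1e3c78f1e3c78f063c78f1e3c78f063c78f1e3c78312183091e3c7890c0c18612)
    (nat_lit 2) [[nat_lit 273],[],[],[nat_lit 0x2000]] [.c (nat_lit 0) (nat_lit 11),.c (nat_lit 4) (nat_lit 2)]]

/-- classes `0 0 1 1`, types `C0 C2 N0 N2` -/
noncomputable def r4_35 : RCq :=
  .x (nat_lit 29)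

/-- classes `0 0 1 1`, types `C0 C2 S0 S0` -/
noncomputable def r4_36 : RCq :=
  .x (nat_lit 30)

/-- classes `0 0 1 1`, types `N0 N1 N0 N1` -/
noncomputable def r4_37 : RCq :=
  .q [nat_lit 12,nat_lit 13,nat_lit 28,nat_lit 29] (nat_lit 4) [s4_4,s4_13,s4_18,s4_41] d4_5 [.t (nat_lit 13),.t
    (nat_lit 14),.l (nat_lit 9) (nat_lit 120) (nat_lit 4)
    (nat_lit 0x270000002700000018000000180000002c0000002c0000003000000030)
    (nat_lit 0x900000009000000180000001800000004000000040000000000000000)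
    (nat_lit 0xf1e0f0783c1e0f0783c078f0783c1e0f0783c1e0f0783c1e030783c1e0f0783c1e0f0183c1e0f078141e0f0783c1e0f0783c0a0f0783c1e030783c1e0f0783c1e0f0183c1e0f078)
    (nat_lit 0xf1e0f0783c1e0f0783c078f0783c1e0f0783c1e0f0783c1e0f0783c1e0f0783c1e0f0783c1e0f078141e0f0783c1e0f0783c0a0f0783c1e030783c1e060783c1e0f0183c1e0f030)
    (nat_lit 3) [[nat_lit 257,nat_lit 514],[nat_lit 32],[],[nat_lit 0x2000,nat_lit 0x3000]] [.c (nat_lit 0)
    (nat_lit 19),.r (nat_lit 1) (nat_lit 0) [nat_lit 18,nat_lit 0x83a],.c (nat_lit 2) (nat_lit 2),.c (nat_lit 4)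
    (nat_lit 2),.r (nat_lit 0) (nat_lit 1) [nat_lit 0x419,nat_lit 0x781]],.t (nat_lit 15),.l (nat_lit 8)
    (nat_lit 40) (nat_lit 4) (nat_lit 0xe0000000e0000000a0000000a0000000f0000000f0000001400000014)
    (nat_lit 0x6000000060000000a0000000a00000005000000050000000000000000)
    (nat_lit 0x82828282828282828082828282828282828282828280a28282828282828280a282828280a28282828282828280a282828280a28282828282828280a28282828)
    (nat_lit 0x828282828282828280828282828282828282828282828282828282828282828282828280a28282828282828280a282828280a28282814282828280a28282814)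
    (nat_lit 4) [[nat_lit 257],[nat_lit 32,nat_lit 48],[],[nat_lit 0x2000,nat_lit 0x3000,nat_lit 0x4000]] [.c
    (nat_lit 0) (nat_lit 0x403),.c (nat_lit 2) (nat_lit 2),.r (nat_lit 2) (nat_lit 1) [nat_lit 0x631],.c (nat_lit 4)
    (nat_lit 2),.r (nat_lit 2) (nat_lit 0) [nat_lit 0x631],.r (nat_lit 3) (nat_lit 1) [nat_lit 0x2001,
    nat_lit 0x9832]],.l (nat_lit 9) (nat_lit 120) (nat_lit 4)
    (nat_lit 0x270000002700000018000000180000002c0000002c0000003000000030)
    (nat_lit 0x900000009000000180000001800000004000000040000000000000000)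
    (nat_lit 0xf1e0f0783c1e0f0783c078f0783c1e0f0783c1e0f0783c1e030783c1e0f0783c1e0f0183c1e0f078141e0f0783c1e0f0783c0a0f0783c1e030783c1e0f0783c1e0f0183c1e0f078)
    (nat_lit 0xf1e0f0783c1e0f0783c078f0783c1e0f0783c1e0f0783c1e0f0783c1e0f0783c1e0f0783c1e0f078141e0f0783c1e0f0783c0a0f0783c1e030783c1e060783c1e0f0183c1e0f030)
    (nat_lit 3) [[nat_lit 257,nat_lit 514],[nat_lit 32],[],[nat_lit 0x2000,nat_lit 0x3000]] [.c (nat_lit 0)
    (nat_lit 19),.r (nat_lit 4) (nat_lit 1) [nat_lit 18],.c (nat_lit 2) (nat_lit 2),.c (nat_lit 4) (nat_lit 2),.r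
    (nat_lit 2) (nat_lit 0) [nat_lit 409]]]

/-- classes `0 0 1 1`, types `N0 N1 N0 N2` -/
noncomputable def r4_38 : RCq :=
  .q [nat_lit 12,nat_lit 13,nat_lit 28,nat_lit 30] (nat_lit 3) [s4_7,s4_13,s4_18,s4_49] d4_4 [.l (nat_lit 7)
    (nat_lit 30) (nat_lit 3) (nat_lit 0x80000000800000008000000080000000a0000000a0000000800000008)
    (nat_lit 0x200000002000000020000000200000000000000000000000200000002)
    (nat_lit 0x3c78f063c78f1e3c78f1e3c7831e3c18f1e3c78f1e3c78f1e3c78f063c78f1e1478f1e3c78f1e3c28f1e3c7831e3c78f1e0c78f1e3c78f1e)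
    (nat_lit 0x3c78f1e3c78f1e3c78f1e3c78f1e3c78f1e3c78f1e0c78f1e3c78f1e3c78f1e1478f1e3c78f1e3c28f1e3c1861e3c7891e1878f063c78f12)
    (nat_lit 2) [[nat_lit 0x1101],[nat_lit 32]] [.c (nat_lit 0) (nat_lit 11),.c (nat_lit 2) (nat_lit 2)]]

/-- classes `0 0 1 1`, types `N0 N1 S0 S0` -/
noncomputable def r4_39 : RCq :=
  .q [nat_lit 12,nat_lit 13,nat_lit 16,nat_lit 16] (nat_lit 2) [s4_1,s4_4,s4_6,s4_7,s4_13,s4_18,s4_41,s4_44,s4_47,
    s4_49,s4_52,s4_57] d4_6 [.t (nat_lit 13),.t (nat_lit 17),.l (nat_lit 9) (nat_lit 120) (nat_lit 4)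
    (nat_lit 0x2300000023000000200000002000000028000000280000002000000020)
    (nat_lit 0x500000005000000080000000800000000000000000000000800000008)
    (nat_lit 0xf078f01b3c1e036780f078f01b3c1e036780d86cf0183c1e030783c1e0f0783c1e0f0183c1e0f078141e0f0783c1e0f0783c0a0f0783c1e030783c1e0f0780d86cf0183c1e03078)
    (nat_lit 0xf1e0f0783c1e0f0780f078f0783c1e0f0783c1e0f0783c1e0f0780d86c30783c1e0f0783c1e0f078141e0f0783c1e0f0783c0a0f0780d86c30783c1e06078198cc60183c1e09030)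
    (nat_lit 3) [[nat_lit 514,nat_lit 257,nat_lit 0x1101,nat_lit 0x2101],[nat_lit 32],[],[nat_lit 0x2000,
    nat_lit 0x3000]] [.r (nat_lit 1) (nat_lit 0) [nat_lit 18,nat_lit 0x781],.c (nat_lit 0) (nat_lit 19),.c
    (nat_lit 2) (nat_lit 226),.r (nat_lit 0) (nat_lit 0) [nat_lit 0x839,nat_lit 0x781],.c (nat_lit 2) (nat_lit 2),.c
    (nat_lit 4) (nat_lit 2),.r (nat_lit 0) (nat_lit 0) [nat_lit 0x419,nat_lit 0x781]],.t (nat_lit 14),.t
    (nat_lit 18),.l (nat_lit 8) (nat_lit 40) (nat_lit 4)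
    (nat_lit 0xb0000000b0000000a0000000a0000000a0000000a0000000c0000000c)
    (nat_lit 0x100000001000000020000000200000002000000020000000000000000)
    (nat_lit 0xa0a280928280b280a0a280928280b280909280828280a28282828282828280a2828282808282828282828282808282828280a28282828280b0b280a28280c28)
    (nat_lit 0xa282828282828280a0a28282828282828282828282828280909082828282828282828280828282828282828280828280b0b0a28282814281313120a28281c14)
    (nat_lit 3) [[nat_lit 257,nat_lit 0x1101],[nat_lit 32,nat_lit 48,nat_lit 64],[],[nat_lit 0x2000,nat_lit 0x3000]]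
    [.c (nat_lit 0) (nat_lit 259),.c (nat_lit 4) (nat_lit 194),.c (nat_lit 2) (nat_lit 2),.r (nat_lit 2) (nat_lit 0)
    [nat_lit 409],.r (nat_lit 4) (nat_lit 0) [nat_lit 0x401,nat_lit 18],.c (nat_lit 4) (nat_lit 2),.r (nat_lit 3)
    (nat_lit 0) [nat_lit 0x401,nat_lit 0xf99]],.l (nat_lit 9) (nat_lit 120) (nat_lit 4)
    (nat_lit 0x2800000028000000200000002000000023000000230000002000000020)
    (nat_lit 0x80000000800000005000000050000000800000008)
    (nat_lit 0x140a0f0203c1e04078140a0f0203c1e0407810080f0183c1e030783c1e0f0783c1e0f0183c1e0f0780f1e0f0783c1e0f0783c078f0783c1e030783c1e0f07810080f0183c1e03078)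
    (nat_lit 0x141e0f0783c1e0f078140a0f0783c1e0f0783c1e0f0783c1e0f0781008030783c1e0f0783c1e0f0780f1e0f0783c1e0f0783c078f0781008030783c1e060781c0e060183c1e09030)
    (nat_lit 3) [[nat_lit 514,nat_lit 257,nat_lit 0x1101],[nat_lit 32,nat_lit 48],[],[nat_lit 0x2000]] [.r
    (nat_lit 5) (nat_lit 0) [nat_lit 18],.c (nat_lit 0) (nat_lit 19),.c (nat_lit 0) (nat_lit 19),.c (nat_lit 2)
    (nat_lit 2),.r (nat_lit 2) (nat_lit 0) [nat_lit 409],.c (nat_lit 4) (nat_lit 2)]]

/-- classes `0 0 1 1`, types `N0 N2 N0 N2` -/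
noncomputable def r4_40 : RCq :=
  .x (nat_lit 31)

/-- classes `0 0 1 1`, types `N0 N2 S0 S0` -/
noncomputable def r4_41 : RCq :=
  .x (nat_lit 32)

/-- classes `0 0 1 2`, types `B0 B1 C0 C0` -/
noncomputable def r4_42 : RCq :=
  .x (nat_lit 33)

/-- classes `0 0 1 2`, types `B0 B1 C0 S0` -/
noncomputable def r4_43 : RCq :=
  .x (nat_lit 34)

/-- classes `0 0 1 2`, types `B0 B1 S0 S0` -/
noncomputable def r4_44 : RCq :=
  .x (nat_lit 35)

/-- classes `0 0 1 2`, types `C0 C0 C0 C0` -/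
noncomputable def r4_45 : RCq :=
  .x (nat_lit 36)

/-- classes `0 0 1 2`, types `C0 C0 C0 S0` -/
noncomputable def r4_46 : RCq :=
  .x (nat_lit 37)

/-- classes `0 0 1 2`, types `C0 C0 S0 S0` -/
noncomputable def r4_47 : RCq :=
  .x (nat_lit 38)

/-- classes `0 0 1 2`, types `C0 C2 C0 C0` -/
noncomputable def r4_48 : RCq :=
  .x (nat_lit 39)

/-- classes `0 0 1 2`, types `C0 C2 C0 S0` -/
noncomputable def r4_49 : RCq :=
  .x (nat_lit 40)

/-- classes `0 0 1 2`, types `C0 C2 S0 S0` -/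
noncomputable def r4_50 : RCq :=
  .x (nat_lit 41)

/-- classes `0 0 1 2`, types `N0 N1 C0 C0` -/
noncomputable def r4_51 : RCq :=
  .q [nat_lit 12,nat_lit 13,nat_lit 20,nat_lit 36] (nat_lit 3) [s4_6,s4_13,s4_18,s4_47,s4_52,s4_57] d4_4 [.l
    (nat_lit 7) (nat_lit 30) (nat_lit 3) (nat_lit 0x80000000800000008000000080000000a0000000a0000000800000008)
    (nat_lit 0x200000002000000020000000200000000000000000000000200000002)
    (nat_lit 0x3c78f1e3c7831e3c78f063c78f1e0c78f1e3c78f1e3c78f1e3c78f063c78f1e1478f1e3c78f1e3c28f1e3c7831e3c78f1e3c18f1e3c78f1e)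
    (nat_lit 0x3c78f1e3c78f1e3c78f1e3c78f1e3c78f1e3c78f1e3c18f1e3c78f1e3c78f1e1478f1e3c78f1e3c28f1e0c7861e3c7891e3c30f063c78f12)
    (nat_lit 2) [[nat_lit 0x1101],[nat_lit 32]] [.c (nat_lit 0) (nat_lit 11),.c (nat_lit 2) (nat_lit 2)]]

/-- classes `0 0 1 2`, types `N0 N1 C0 S0` -/
noncomputable def r4_52 : RCq :=
  .q [nat_lit 12,nat_lit 13,nat_lit 20,nat_lit 32] (nat_lit 3) [s4_1,s4_6,s4_13,s4_18,s4_47,s4_52,s4_57] d4_4 [.l
    (nat_lit 7) (nat_lit 30) (nat_lit 3) (nat_lit 0x80000000800000008000000080000000a0000000a0000000800000008)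
    (nat_lit 0x200000002000000020000000200000000000000000000000200000002)
    (nat_lit 0x3c18f1e3c7831e3c78f063c78f1e0c78f1e3c78f1e3c78f1e3c78f063c78f1e1478f1e3c78f1e3c28f1e3c7831e3c78f1e3c18f1e3c7831e)
    (nat_lit 0x3c78f1e3c78f1e0c78f1e3c78f1e3c78f1e3c78f1e181891e3c78f1e3c78f1e1478f1e3c78f1e3c28f1e0c7861e3c7891e2430c063c78f12)
    (nat_lit 2) [[nat_lit 0x1101],[nat_lit 32]] [.c (nat_lit 0) (nat_lit 11),.c (nat_lit 2) (nat_lit 2)]]

/-- classes `0 0 1 2`, types `N0 N1 S0 S0` -/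
noncomputable def r4_53 : RCq :=
  .q [nat_lit 12,nat_lit 13,nat_lit 16,nat_lit 32] (nat_lit 2) [s4_1,s4_6,s4_13,s4_18,s4_44,s4_47,s4_52,s4_57] d4_7
    [.t (nat_lit 18),.t (nat_lit 17),.l (nat_lit 8) (nat_lit 40) (nat_lit 4)
    (nat_lit 0xa0000000a0000000a0000000a0000000b0000000b0000000c0000000c)
    (nat_lit 0x200000002000000020000000200000001000000010000000000000000)
    (nat_lit 0x2808282828280a2808282808282828280828280828282828282828282828280a282828280a28282828282828280a282828280a2828282828280a282828280c28)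
    (nat_lit 0x2828282828282828081028282828282828282828282828281008082828282828282828280a28282828282828280a28280a12122828281c281a12120a28281c1c)
    (nat_lit 4) [[nat_lit 0x1101],[nat_lit 32,nat_lit 48],[],[nat_lit 0x2000,nat_lit 0x4000]] [.c (nat_lit 4)
    (nat_lit 770),.c (nat_lit 2) (nat_lit 2),.r (nat_lit 1) (nat_lit 0) [nat_lit 0x2001,nat_lit 33],.c (nat_lit 4)
    (nat_lit 2),.r (nat_lit 0) (nat_lit 0) [nat_lit 0x2001,nat_lit 0x9832]],.l (nat_lit 9) (nat_lit 120) (nat_lit 4)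
    (nat_lit 0x2300000023000000200000002000000028000000280000002000000020)
    (nat_lit 0x500000005000000080000000800000000000000000000000800000008)
    (nat_lit 0x3c078f0783c1e036780f1e0f01b3c1e0f0780d9e0f0183c1e0f0783c1e0f0783c1e0f0183c1e0f078141e0f0783c1e0f0783c0a0f0783c1e030783c1e0f0783c06cf0783c1e03078)
    (nat_lit 0x3c1e0f0783c1e0f0780f0f0f0783c1e0f0783c1e0f0783c1e0f0781c86c30783c1e0f0783c1e0f078141e0f0783c1e0f0783c0a0f0780d8e46c783c1e09c78288cc60183c1e0904e)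
    (nat_lit 2) [[nat_lit 514,nat_lit 0x1101],[nat_lit 32],[],[nat_lit 0x2000]] [.r (nat_lit 2) (nat_lit 0)
    [nat_lit 10],.c (nat_lit 0) (nat_lit 11),.c (nat_lit 2) (nat_lit 2),.c (nat_lit 4) (nat_lit 2)]]

/-- classes `0 0 1 2`, types `N0 N2 C0 C0` -/
noncomputable def r4_54 : RCq :=
  .x (nat_lit 42)

/-- classes `0 0 1 2`, types `N0 N2 C0 S0` -/
noncomputable def r4_55 : RCq :=
  .x (nat_lit 43)

/-- classes `0 0 1 2`, types `N0 N2 S0 S0` -/
noncomputable def r4_56 : RCq :=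
  .x (nat_lit 44)

/-- classes `0 0 1 2`, types `S0 S0 C0 C0` -/
noncomputable def r4_57 : RCq :=
  .x (nat_lit 45)

/-- classes `0 0 1 2`, types `S0 S0 C0 S0` -/
noncomputable def r4_58 : RCq :=
  .x (nat_lit 46)

/-- classes `0 1 0 1`, types `B0 B0 B1 B1` -/
noncomputable def r4_59 : RCq :=
  .x (nat_lit 47)

/-- classes `0 1 0 1`, types `B0 C0 B1 C0` -/
noncomputable def r4_60 : RCq :=
  .x (nat_lit 48)

/-- classes `0 1 0 1`, types `B0 C0 B1 C2` -/
noncomputable def r4_61 : RCq :=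
  .x (nat_lit 49)

/-- classes `0 1 0 1`, types `B0 N0 B1 N1` -/
noncomputable def r4_62 : RCq :=
  .x (nat_lit 50)

/-- classes `0 1 0 1`, types `B0 N0 B1 N2` -/
noncomputable def r4_63 : RCq :=
  .x (nat_lit 51)

/-- classes `0 1 0 1`, types `B0 S0 B1 S0` -/
noncomputable def r4_64 : RCq :=
  .x (nat_lit 52)

/-- classes `0 1 0 1`, types `C0 C0 C0 C0` -/
noncomputable def r4_65 : RCq :=
  .x (nat_lit 53)

/-- classes `0 1 0 1`, types `C0 C0 C0 C2` -/
noncomputable def r4_66 : RCq :=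
  .x (nat_lit 54)

/-- classes `0 1 0 1`, types `C0 C0 C2 C2` -/
noncomputable def r4_67 : RCq :=
  .x (nat_lit 55)

/-- classes `0 1 0 1`, types `C0 N0 C0 N1` -/
noncomputable def r4_68 : RCq :=
  .x (nat_lit 56)

/-- classes `0 1 0 1`, types `C0 N0 C0 N2` -/
noncomputable def r4_69 : RCq :=
  .x (nat_lit 57)

/-- classes `0 1 0 1`, types `C0 N0 C2 N1` -/
noncomputable def r4_70 : RCq :=
  .x (nat_lit 58)

/-- classes `0 1 0 1`, types `C0 N0 C2 N2` -/
noncomputable def r4_71 : RCq :=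
  .x (nat_lit 59)

/-- classes `0 1 0 1`, types `C0 S0 C0 S0` -/
noncomputable def r4_72 : RCq :=
  .x (nat_lit 60)

/-- classes `0 1 0 1`, types `C0 S0 C2 S0` -/
noncomputable def r4_73 : RCq :=
  .x (nat_lit 61)

/-- classes `0 1 0 1`, types `N0 N0 N1 N1` -/
noncomputable def r4_74 : RCq :=
  .x (nat_lit 62)

/-- classes `0 1 0 1`, types `N0 N0 N1 N2` -/
noncomputable def r4_75 : RCq :=
  .x (nat_lit 63)

/-- classes `0 1 0 1`, types `N0 N0 N2 N2` -/
noncomputable def r4_76 : RCq :=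
  .q [nat_lit 12,nat_lit 28,nat_lit 14,nat_lit 30] (nat_lit 2) [s4_5,s4_12,s4_23,s4_33] d4_8 [.t (nat_lit 12),.l
    (nat_lit 7) (nat_lit 20) (nat_lit 4) (nat_lit 0xa0000000a000000050000000500000005000000050000000900000009)
    (nat_lit 0x50000000500000005000000050000000100000001)
    (nat_lit 0x2850a142814a142850a140a50a142850a142850a042850a1428502142814a142850a140a50a142850a142850a042850a1428502142850a14)
    (nat_lit 0x2850a142850a142850a142850a142850a142850a142850a142850a142814a141450a140a50a142828a142850a04285041428502142850a08)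
    (nat_lit 2) [[nat_lit 257,nat_lit 514],[nat_lit 0x1010]] [.c (nat_lit 0) (nat_lit 11),.r (nat_lit 0) (nat_lit 0)
    [nat_lit 10],.c (nat_lit 0) (nat_lit 11)]]

/-- classes `0 1 0 1`, types `N0 S0 N1 S0` -/
noncomputable def r4_77 : RCq :=
  .x (nat_lit 64)

/-- classes `0 1 0 1`, types `N0 S0 N2 S0` -/
noncomputable def r4_78 : RCq :=
  .x (nat_lit 65)

/-- classes `0 1 0 2`, types `B0 C0 B1 C0` -/
noncomputable def r4_79 : RCq :=
  .x (nat_lit 66)

/-- classes `0 1 0 2`, types `B0 C0 B1 S0` -/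
noncomputable def r4_80 : RCq :=
  .x (nat_lit 67)

/-- classes `0 1 0 2`, types `B0 S0 B1 S0` -/
noncomputable def r4_81 : RCq :=
  .x (nat_lit 68)

/-- classes `0 1 0 2`, types `C0 C0 C0 C0` -/
noncomputable def r4_82 : RCq :=
  .x (nat_lit 69)

/-- classes `0 1 0 2`, types `C0 C0 C0 S0` -/
noncomputable def r4_83 : RCq :=
  .x (nat_lit 70)

/-- classes `0 1 0 2`, types `C0 C0 C2 C0` -/
noncomputable def r4_84 : RCq :=
  .x (nat_lit 71)

/-- classes `0 1 0 2`, types `C0 C0 C2 S0` -/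
noncomputable def r4_85 : RCq :=
  .x (nat_lit 72)

/-- classes `0 1 0 2`, types `C0 S0 C0 S0` -/
noncomputable def r4_86 : RCq :=
  .x (nat_lit 73)

/-- classes `0 1 0 2`, types `C0 S0 C2 S0` -/
noncomputable def r4_87 : RCq :=
  .x (nat_lit 74)

/-- classes `0 1 0 2`, types `N0 C0 N1 C0` -/
noncomputable def r4_88 : RCq :=
  .q [nat_lit 12,nat_lit 20,nat_lit 13,nat_lit 36] (nat_lit 2) [s4_6,s4_15,s4_20,s4_29,s4_34,s4_57] d4_9 [.t
    (nat_lit 19),.l (nat_lit 7) (nat_lit 20) (nat_lit 4)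
    (nat_lit 0xa0000000a000000050000000500000009000000090000000500000005)
    (nat_lit 0x50000000500000001000000010000000500000005)
    (nat_lit 0x2850a1428502942850a142850a052850a140850a142850a142810a1428502142850a142850a042850a140a50a142850a142814a142850a14)
    (nat_lit 0x2850a142850a142850a142850a142850a142850a142850a142850a1428502141050a142850a042820a140a50a1428505142814a142850a0a)
    (nat_lit 3) [[nat_lit 0x1001],[nat_lit 272,nat_lit 544]] [.c (nat_lit 0) (nat_lit 19),.c (nat_lit 0)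
    (nat_lit 19),.r (nat_lit 0) (nat_lit 0) [nat_lit 282]]]

/-- classes `0 1 0 2`, types `N0 C0 N1 S0` -/
noncomputable def r4_89 : RCq :=
  .q [nat_lit 12,nat_lit 20,nat_lit 13,nat_lit 32] (nat_lit 2) [s4_1,s4_6,s4_15,s4_20,s4_29,s4_34,s4_57] d4_9 [.t
    (nat_lit 19),.l (nat_lit 7) (nat_lit 20) (nat_lit 4)
    (nat_lit 0x600000006000000080000000800000004000000040000000700000007)
    (nat_lit 0x200000002000000000000000000000004000000040000000100000001)
    (nat_lit 0x2810a1428502942850a142850a052850a140850a142850a142810a1428502142850a142850a042850a140a50a142850a142814a142850314)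
    (nat_lit 0x2850a142850a140850a142850a142850a142850a142850a142850a1428502141050a142850a042820a140a50a1428505141214a14285070a)
    (nat_lit 3) [[nat_lit 0x1001],[nat_lit 272,nat_lit 544]] [.c (nat_lit 0) (nat_lit 19),.c (nat_lit 0)
    (nat_lit 19),.r (nat_lit 0) (nat_lit 0) [nat_lit 282]]]

/-- classes `0 1 0 2`, types `N0 C0 N2 C0` -/
noncomputable def r4_90 : RCq :=
  .x (nat_lit 75)

/-- classes `0 1 0 2`, types `N0 C0 N2 S0` -/
noncomputable def r4_91 : RCq :=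
  .x (nat_lit 76)

/-- classes `0 1 0 2`, types `N0 S0 N1 S0` -/
noncomputable def r4_92 : RCq :=
  .q [nat_lit 12,nat_lit 16,nat_lit 13,nat_lit 32] (nat_lit 2) [s4_1,s4_6,s4_15,s4_20,s4_26,s4_29,s4_34,s4_57] d4_9
    [.t (nat_lit 19),.l (nat_lit 7) (nat_lit 20) (nat_lit 4)
    (nat_lit 0x500000005000000050000000500000006000000060000000500000005)
    (nat_lit 0x100000001000000010000000100000000000000000000000100000001)
    (nat_lit 0x2810a1428502142850a142850a042850a140a50a1428502142814a1428502942818a142850a052850a140850a142850a142810a142850214)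
    (nat_lit 0x2850a142850a140850a142850a142850a142850a142850a142850a1428502891450a1428505850c28a140850a1428504141010a142850608)
    (nat_lit 2) [[nat_lit 0x2002,nat_lit 0x1001],[nat_lit 272]] [.r (nat_lit 0) (nat_lit 0) [nat_lit 10],.c
    (nat_lit 0) (nat_lit 11),.c (nat_lit 0) (nat_lit 11)]]

/-- classes `0 1 0 2`, types `N0 S0 N2 S0` -/
noncomputable def r4_93 : RCq :=
  .x (nat_lit 77)

/-- classes `0 1 0 2`, types `S0 C0 S0 C0` -/
noncomputable def r4_94 : RCq :=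
  .x (nat_lit 78)

/-- classes `0 1 0 2`, types `S0 C0 S0 S0` -/
noncomputable def r4_95 : RCq :=
  .x (nat_lit 79)

/-- classes `0 1 2 3`, types `C0 C0 C0 C0` -/
noncomputable def r4_96 : RCq :=
  .x (nat_lit 80)

/-- classes `0 1 2 3`, types `C0 C0 C0 S0` -/
noncomputable def r4_97 : RCq :=
  .x (nat_lit 81)

/-- classes `0 1 2 3`, types `C0 C0 S0 S0` -/
noncomputable def r4_98 : RCq :=
  .x (nat_lit 82)

/-- classes `0 1 2 3`, types `C0 S0 C0 S0` -/
noncomputable def r4_99 : RCq :=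
  .x (nat_lit 83)

/-- classes `0 1 2 3`, types `C0 S0 S0 S0` -/
noncomputable def r4_100 : RCq :=
  .x (nat_lit 84)

/-- numbers of the patterns -/
noncomputable def tl4_0_0 : List Nat :=
  [nat_lit 151586824,nat_lit 151521544,nat_lit 67372036,nat_lit 100926468,nat_lit 101057540,nat_lit 100926980,
    nat_lit 218958860,nat_lit 235736076,nat_lit 235801612,nat_lit 218893580,nat_lit 235670796,nat_lit 252579084,
    nat_lit 235867404,nat_lit 235671052,nat_lit 252513804,nat_lit 335807492,nat_lit 268698628,nat_lit 335938564,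
    nat_lit 268829700,nat_lit 335808004,nat_lit 268699140,nat_lit 335544320,nat_lit 421005576,nat_lit 336857352,
    nat_lit 370411784,nat_lit 488376584,nat_lit 505153800,nat_lit 269486344,nat_lit 336856068,nat_lit 370410500,
    nat_lit 488375300,nat_lit 505152516,nat_lit 269485060,nat_lit 370411012,nat_lit 488375812,nat_lit 505153028,
    nat_lit 269485572,nat_lit 488377612,nat_lit 505154828,nat_lit 269487372,nat_lit 505155084,nat_lit 269487628,
    nat_lit 605292808,nat_lit 538183944,nat_lit 537921800,nat_lit 605291524,nat_lit 538182660,nat_lit 537920516,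
    nat_lit 605292036,nat_lit 538183172,nat_lit 537921028,nat_lit 605293836,nat_lit 538184972,nat_lit 537922828,
    nat_lit 605294092,nat_lit 538185228,nat_lit 537923084,nat_lit 605290496,nat_lit 538181632,nat_lit 420026376,
    nat_lit 336139272,nat_lit 369693704,nat_lit 487136264,nat_lit 503913480,nat_lit 269029384,nat_lit 335811588,
    nat_lit 369366020,nat_lit 369497092,nat_lit 486808580,nat_lit 503585796,nat_lit 486939652,nat_lit 503716868,
    nat_lit 268701700,nat_lit 268832772,nat_lit 487398412,nat_lit 504175628,nat_lit 504241164,nat_lit 269291532,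
    nat_lit 269357068,nat_lit 604574728,nat_lit 537465864,nat_lit 537464840,nat_lit 604247044,nat_lit 537138180,
    nat_lit 604378116,nat_lit 537269252,nat_lit 537137156,nat_lit 537268228,nat_lit 604836876,nat_lit 537728012,
    nat_lit 604902412,nat_lit 537793548,nat_lit 537726988,nat_lit 537792524,nat_lit 603984896,nat_lit 536876032,
    nat_lit 874779652,nat_lit 807670788,nat_lit 807408644,nat_lit 807669764,nat_lit 807407620]

/-- raw certificates -/
noncomputable def rl4_0_0 : List RCq :=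
  [r4_0,r4_1,r4_2,r4_3,r4_4,r4_5,r4_6,r4_7,r4_8,r4_9,r4_10,r4_11,r4_12,r4_13,r4_14,r4_15,r4_16,r4_17,r4_18,r4_19,
    r4_20,r4_21,r4_22,r4_23,r4_24,r4_25,r4_26,r4_27,r4_28,r4_29,r4_30,r4_31,r4_32,r4_33,r4_34,r4_35,r4_36,r4_37,
    r4_38,r4_39,r4_40,r4_41,r4_42,r4_43,r4_44,r4_45,r4_46,r4_47,r4_48,r4_49,r4_50,r4_51,r4_52,r4_53,r4_54,r4_55,
    r4_56,r4_57,r4_58,r4_59,r4_60,r4_61,r4_62,r4_63,r4_64,r4_65,r4_66,r4_67,r4_68,r4_69,r4_70,r4_71,r4_72,r4_73,
    r4_74,r4_75,r4_76,r4_77,r4_78,r4_79,r4_80,r4_81,r4_82,r4_83,r4_84,r4_85,r4_86,r4_87,r4_88,r4_89,r4_90,r4_91,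
    r4_92,r4_93,r4_94,r4_95,r4_96,r4_97,r4_98,r4_99,r4_100]

end Pool.Agent.Lib_MP_fa6e45
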