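import Pool.Agent.Lib_MP_fa6e45.CQR1
import Pool.Agent.Lib_MP_fa6e45.CQR4T
import Pool.Agent.Lib_MP_fa6e45.CQR4_0

/-!
MP_fa6e45_co, stage 9: certificates for the theorem T6 (generated by a program).
-/

namespace Pool.Agent.Lib_MP_fa6e45

theorem g4_0_0 :
    (allF (chkM9 4 ttU4) (rawML sy4 lf4 xt4 rl4_0_0) && (tl4_0_0 == (rawML sy4 lf4 xt4 rl4_0_0).map fun C => encW C.wd)) = true := by
  decide +kernel

theorem sR4_0_0 : ∀ x ∈ tl4_0_0, NodeU 4 (decW 4 x) [] :=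
  tabM_sound (by norm_num) (by norm_num) ttU4_ok g4_0_0

end Pool.Agent.Lib_MP_fa6e45
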