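import Pool.Agent.Lib_MP_fa6e45.CQ4
import Pool.Agent.Lib_MP_fa6e45.CXTg
import Pool.Agent.Lib_MP_fa6e45.HK

/-!
MP_fa6e45_co, stage 9: certificates for the theorem T6 (generated by a program).
-/

namespace Pool.Agent.Lib_MP_fa6e45

/-- table of lists of symmetries -/
noncomputable def sy5 : List (List (Bool × ℕ × List ℕ)) :=
  [[(true,k4,[k4,k3,k2,k1,k0]),(false,k0,[k0,k1,k2,k3,k4])], [(true,k3,[k3,k2,k1,k0,k4]),(false,k0,[k0,k1,k2,k3,k4])],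
    [(false,k0,[k0,k1,k2,k3,k4]),(true,k2,[k2,k1,k0,k4,k3])], [(false,k0,[k0,k1,k2,k3,k4])], [(false,k0,[k0,k1,k2,
    k3,k4]),(true,k4,[k4,k3,k2,k1,k0])], [], [(false,k0,[k0,k1,k2,k3,k4]),(true,k3,[k3,k2,k1,k0,k4])]]

/-- table of nodes in the old format -/
noncomputable def lf5 : List (List (QN PN)) :=
  [[.old [([z1,z0,z0,z1,z1],z1)] (.z (.x (.old (.leafM k0 [k0,k3,k4] [] [(k1,k2,z1,[y1,z1]),(k2,k1,z1,[y1,z1])])))),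
    .old [([z1,z0,z0,z0,z1],z1)] (.z (.x (.old (.leafM k1 [k3,k4,k0,k1,k2] [(z1,[z1])] [])))), .old [([z1,z0,z0,z0,
    z1],z2)] (.z (.x (.old (.leafM k0 [k1,k2,k3] [] [(k4,k0,z1,[z1]),(k0,k4,z1,[z1])])))), .old [([z1,z0,z0,z1,z1],
    z2)] (.z (.x (.old (.leafM k1 [k0,k1,k2,k3,k4] [(z1,[y1,z1])] [])))), .old [([z2,z0,z0,y1,z2],z0),([z0,z1,z0,z1,
    z0],z2)] (.z (.x (.old (.tor k2 true k3 [(z1,[z1,z1]),(z1,[z0,z1]),(z1,[y1,y2,z2])])))), .old [([z3,z0,z0,z0,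
    z3],z1),([z0,z1,z0,z1,z0],z2)] (.z (.x (.old (.leafM k2 [k0,k2,k4] [(z1,[y1,y3,z3]),(z1,[z1])] [(k1,k3,z1,[z0,
    z1]),(k3,k1,z1,[z0,z1])])))), .old [([z2,z0,z0,z0,z2],z1),([z0,z1,z0,z1,z0],z2)] (.z (.x (.old (.leafM k3 [k0,
    k2,k4] [(z1,[y1,y2,z2]),(z1,[z1])] [(k1,k3,z1,[z0,z1]),(k3,k1,z1,[z0,z1])])))), .old [([z3,z0,z0,z0,z3],z2),
    ([z0,z1,z0,z1,z0],z2)] (.z (.x (.old (.leafM k4 [k0,k2,k4] [(z1,[y1,y3,z3]),(z1,[z1])] [(k1,k3,z1,[z0,z1]),(k3,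
    k1,z1,[z0,z1])])))), .old [([z1,z0,z1,z0,z1],z2),([z0,z3,z0,z0,z0],z1)] (.z (.x (.old (.leafM k6 [k0,k1,k2,k3,
    k4] [(z1,[z0,z1]),(z1,[y3,y1,z3])] [])))), .old [([z1,z0,z1,z0,z1],z2),([z0,z2,z0,z0,z0],z1)] (.z (.x (.old
    (.leafM k5 [k0,k1,k2,k3,k4] [(z1,[z0,z1]),(z1,[y2,y1,z2])] [])))), .old [([z1,z0,z0,y2,z1],z0),([z0,z1,z0,z1,
    z0],z1)] (.z (.x (.old (.tor k0 false k1 [(z1,[y1,y1,z1]),(z1,[z0,y1,z1]),(z1,[z1,z2])])))), .old [([z1,z0,z1,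
    z1,z0],z1)] (.z (.x (.old (.leafM k1 [k2,k3,k0] [] [(k4,k1,z1,[y1,z1]),(k1,k4,z1,[y1,z1])])))), .old [([z1,z0,
    z0,z1,z0],z1)] (.z (.x (.old (.leafM k2 [k2,k3,k4,k0,k1] [(z1,[z1])] [])))), .old [([z1,z0,z0,z1,z0],z2)] (.z
    (.x (.old (.leafM k1 [k1,k2,k4] [] [(k3,k0,z1,[z1]),(k0,k3,z1,[z1])])))), .old [([z1,z0,z1,z1,z0],z2)] (.z (.x
    (.old (.leafM k2 [k3,k4,k0,k1,k2] [(z1,[y1,z1])] [])))), .old [([z1,z1,z1,z0,z0],z1)] (.z (.x (.old (.leafM k0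
    [k0,k1,k2] [] [(k3,k4,z1,[y1,z1]),(k4,k3,z1,[y1,z1])]))))], [.old [([z1,z0,z1,z0,z0],z1)] (.z (.x (.old (.leafM
    k2 [k4,k0,k1,k2,k3] [(z1,[z1])] [])))), .old [([z1,z0,z1,z0,z0],z2)] (.z (.x (.old (.leafM k1 [k3,k4,k1] []
    [(k0,k2,z1,[z1]),(k2,k0,z1,[z1])])))), .old [([z1,z1,z1,z0,z0],z2)] (.z (.x (.old (.leafM k1 [k2,k3,k4,k0,k1]
    [(z1,[y1,z1])] [])))), .old [([z1,z0,z1,z0,z1],z1)] (.z (.x (.old (.leafM k1 [k4,k0,k2] [] [(k1,k3,z1,[y1,z1]),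
    (k3,k1,z1,[y1,z1])])))), .old [([z1,z0,z0,z0,z1],z1)] (.z (.x (.old (.leafM k3 [k1,k2,k3,k4,k0] [(z1,[z1])]
    [])))), .old [([z1,z0,z0,z0,z1],z2)] (.z (.x (.old (.leafM k1 [k3,k1,k2] [] [(k4,k0,z1,[z1]),(k0,k4,z1,
    [z1])])))), .old [([z1,z0,z1,z0,z1],z2)] (.z (.x (.old (.leafM k2 [k0,k1,k2,k3,k4] [(z1,[y1,z1])] [])))), .old
    [([z2,z0,z0,z1,z0],z2),([z0,z1,z0,z0,z2],z2)] (.z (.x (.old (.tor k6 false k0 [(z1,[z0,z1]),(z1,[y1,y1,z2]),(z1,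
    [z1])])))), .old [([z1,z0,z0,y1,z1],y1),([z0,z1,z0,z1,z0],z2)] (.z (.x (.old (.lp [(nat_lit 19446952272),
    (nat_lit 71377590240),(nat_lit 53693030160),(nat_lit 89061404608),(nat_lit 31284227568)] [(nat_lit 34807226168),
    (nat_lit 34807226168),(nat_lit 8841907184),(nat_lit 8841907184),(nat_lit 17684187224),(nat_lit 17684187224),k0,
    k0,(nat_lit 28888588520),(nat_lit 28888588520)] k0 [[k0,k0,k0,(nat_lit 15924585600)],[],[k0,(nat_lit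
    15924585600)],[k0,k0,k0,k0,k0,(nat_lit 17121773196)],[k0,k0,(nat_lit 17121773196)],[k0,k0,k0,k0,k0,k0,(nat_lit
    34805624805)],[],[k0,k0,k0,k0,(nat_lit 34805624805)]] (nat_lit 177559129440) k8 [[(k8,(nat_lit 25365589920))],
    [(k9,(nat_lit 25365589920)),(k2,(nat_lit 29487685656)),(k5,(nat_lit 36569991216)),(k6,(nat_lit 54254178440))],
    [(k9,(nat_lit 51330908904)),(k2,(nat_lit 71377590240)),(k5,(nat_lit 78459895800)),(k6,(nat_lit 80219497424))],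
    [(k0,(nat_lit 29487685656)),(k4,(nat_lit 62535310200)),(k3,(nat_lit 71377590240)),(k7,(nat_lit 97341270620))],
    [(k0,(nat_lit 36569991216)),(k4,(nat_lit 36571256964)),(k7,(nat_lit 71377217384)),(k3,(nat_lit 78459895800))],
    [(k5,(nat_lit 36571256964)),(k9,(nat_lit 42488628864)),(k2,(nat_lit 62535310200)),(k6,(nat_lit 106182842189))],
    [(k9,(nat_lit 25367191283)),(k5,(nat_lit 71377217384)),(k6,(nat_lit 89061404608)),(k2,(nat_lit 97341270620))],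
    [(k0,(nat_lit 54254178440)),(k3,(nat_lit 80219497424)),(k7,(nat_lit 89061404608)),(k4,(nat_lit 106182842189))],
    [(k0,(nat_lit 25365589920)),(k7,(nat_lit 25367191283)),(k4,(nat_lit 42488628864)),(k3,(nat_lit 51330908904))],
    [(k1,(nat_lit 25365589920))]] [] k0 [[k1,k0,k0,k0,k1],[k2,k0,k0,k0,k2],[k3,k0,k0,k0,k3],[k2,k1,k0,k0,k2],[k2,k0,
    k1,k0,k2],[k2,k0,k0,k1,k2],[k1,k1,k0,k0,k1],[k1,k1,k1,k0,k1],[k1,k0,k1,k0,k1],[k1,k0,k2,k0,k1],[k1,k0,k0,k1,k1],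
    [k1,k1,k0,k1,k1],[k0,k2,k0,k0,k0],[k0,k1,k1,k0,k0],[k0,k0,k2,k0,k0],[k0,k0,k3,k0,k0],[k0,k0,k4,k0,k0]] [.contra
    [y2,z2,z3],.contra [y1,z2,z2],.ref k4 k0 [(z1,[z1]),(z1,[z0,z0,z1])],.contra [y1,z2,z2],.contra [y1,z1,z0,z1],
    .ref k2 k0 [(z1,[z1,z1]),(z1,[z0,z0,z1])],.contra [y2,z2,z3],.contra [z1,z0,z1,y1],.contra [y2,z0,y1,z2],.contra
    [z1,z1,z3,y2],.ref k3 k0 [(z1,[z1,z1]),(z1,[z0,z0,z1])],.contra [y1,z1,z2],.contra [z1],.contra [z1,z1,z2,y1],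
    .contra [z1,z2,z4,y2],.ref k2 k0 [(z1,[y1,z0,y3,z3]),(z1,[z0,z0,z1])],.ref k3 k0 [(z2,[y1,z0,y4,z4]),(z1,[z0,z0,
    z1])]])))), .old [([z1,z0,z0,z1,z1],z1),([z0,z1,z0,y1,z0],z0)] (.z (.x (.old (.tor k11 false k0 [(z1,[y1,y1,
    z1]),(z1,[y1,z0,z1]),(z1,[z2,z1])])))), .old [([z1,z0,z0,z1,z1],z1),([z0,z1,z0,y1,z0],z1)] (.z (.x (.old (.tor
    k10 false k0 [(z1,[y1,z0,z1]),(z1,[z0,y1,z1]),(z1,[z1,z1])])))), .old [([z1,z0,z0,z1,z1],z2),([z0,z1,z0,y1,z0],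
    z0)] (.z (.x (.old (.tor k9 false k0 [(z1,[y2,y1,z2]),(z1,[z1]),(z1,[z1,z1])])))), .old [([z1,z0,z0,y1,y1],y1),
    ([z0,z1,z0,z2,z0],z2)] (.z (.x (.old (.tor k12 false k0 [(z1,[y1,y1,z1]),(z1,[z0,z1]),(z1,[z1,z0,z1])])))), .old
    [([z2,z0,z1,z0,y2],z0),([z0,z2,z1,z0,z0],z2)] (.z (.x (.old (.tor k14 false k0 [(z2,[y1,y1,z2]),(z1,[z0,z1]),
    (z2,[z1,y1,z2])])))), .old [([z2,z0,z0,z1,z0],z2),([z0,z1,z0,z1,z2],z2)] (.z (.x (.old (.tor k13 false k0 [(z1,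
    [z0,z1]),(z1,[y1,y1,z2]),(z1,[z1])])))), .old [([z1,z1,z0,z0,z1],z1)] (.z (.x (.old (.leafM k0 [k0,k1,k4] []
    [(k2,k3,z1,[y1,z1]),(k3,k2,z1,[y1,z1])]))))], [.old [([z1,z1,z0,z0,z1],z2)] (.z (.x (.old (.leafM k1 [k1,k2,k3,
    k4,k0] [(z1,[y1,z1])] [])))), .old [([z2,z0,z1,z0,z0],z2),([z0,z2,z1,z0,y2],z0)] (.z (.x (.old (.tor k15 false
    k0 [(z2,[y1,y1,z2]),(z2,[y1,z1,z2]),(z1,[z1])])))), .old [([z1,z0,z0,y1,y1],y1),([z0,z1,z0,z2,z0],z2)] (.z (.x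
    (.old (.tor k16 false k0 [(z1,[y1,y1,z1]),(z1,[z0,z1]),(z1,[z1,z0,z1])])))), .old [([z1,z0,y1,z0,z1],z1),([z0,
    z1,z2,z0,y2],z0)] (.z (.x (.old (.tor k7 false k0 [(z1,[y1,y1,z1]),(z1,[y1,z0,z1]),(z1,[z2,z1])])))), .old
    [([z1,z0,z0,z0,z1],z2),([z0,z3,z0,z3,z0],z1)] (.z (.x (.old (.leafM k2 [k1,k2,k3] [(z1,[y3,y1,z3]),(z1,[z0,z1])]
    [(k4,k0,z1,[z1]),(k0,k4,z1,[z1])])))), .old [([z1,z0,z0,z0,z1],z2),([z0,z2,z0,z2,z0],z1)] (.z (.x (.old (.leafM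
    k3 [k1,k2,k3] [(z1,[y2,y1,z2]),(z1,[z0,z1])] [(k4,k0,z1,[z1]),(k0,k4,z1,[z1])])))), .old [([z1,z0,z0,z0,z1],z2),
    ([z0,z3,z0,z3,z0],z2)] (.z (.x (.old (.leafM k4 [k1,k2,k3] [(z1,[y3,y1,z3]),(z1,[z0,z1])] [(k4,k0,z1,[z1]),(k0,
    k4,z1,[z1])])))), .old [([z1,z0,z0,z1,z1],z1),([z0,z1,z0,y1,z0],z0)] (.z (.x (.old (.tor k19 false k0 [(z1,[y1,
    y1,z1]),(z1,[y1,z0,z1]),(z1,[z2]),(z1,[z2,z2])])))), .old [([z1,z0,z0,z1,z1],z1),([z0,z1,z0,y1,z0],z1)] (.z (.x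
    (.old (.tor k18 false k0 [(z1,[y2,y2,z2]),(z1,[y1,z0,z1]),(z1,[z1,z1]),(z1,[z2])])))), .old [([z1,z0,z0,z1,z1],
    z2),([z0,z1,z0,y1,z0],z0)] (.z (.x (.old (.tor k17 false k0 [(z1,[y2,y2,z2]),(z1,[y2,z0,z2]),(z1,[z1]),(z1,[z1,
    z1])])))), .old [([z1,z0,z0,z1,z1],z2)] (.z (.x (.old (.leafM k0 [k1,k2,k3,k4,k0] [(z1,[y1,z1])] [])))), .old
    [([z1,z0,z0,z0,z1],z1)] (.z (.x (.old (.leafM k0 [k4,k0,k1,k2,k3] [(z1,[z1])] [])))), .old [([z1,z0,z0,z1,z1],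
    z1)] (.z (.x (.old (.leafM k1 [k0,k3,k4] [] [(k1,k2,z1,[y1,z1]),(k2,k1,z1,[y1,z1])])))), .old [([z1,z0,z0,z1,
    z1],z2)] (.z (.x (.old (.leafM k3 [k3,k4,k0,k1,k2] [(z1,[y1,z1])] [])))), .old [([z1,z0,z0,z1,z0],z2),([z0,z3,
    z3,z0,z0],z1)] (.z (.x (.old (.leafM k2 [k2,k4,k1] [(z1,[y3,y1,z3]),(z1,[z0,z1])] [(k3,k0,z1,[z1]),(k0,k3,z1,
    [z1])])))), .old [([z1,z0,z0,z1,z0],z2),([z0,z2,z2,z0,z0],z1)] (.z (.x (.old (.leafM k3 [k2,k4,k1] [(z1,[y2,y1,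
    z2]),(z1,[z0,z1])] [(k3,k0,z1,[z1]),(k0,k3,z1,[z1])]))))], [.old [([z1,z0,z0,z1,z0],z2),([z0,z3,z3,z0,z0],z2)]
    (.z (.x (.old (.leafM k4 [k2,k4,k1] [(z1,[y3,y1,z3]),(z1,[z0,z1])] [(k3,k0,z1,[z1]),(k0,k3,z1,[z1])])))), .old
    [([z1,z0,z1,z1,z0],z2),([z0,z3,z0,z0,z0],z1)] (.z (.x (.old (.leafM k4 [k3,k4,k0,k1,k2] [(z1,[y3,y1,z3]),(z1,
    [z0,z1])] [])))), .old [([z1,z0,z1,z1,z0],z2),([z0,z2,z0,z0,z0],z1)] (.z (.x (.old (.leafM k5 [k3,k4,k0,k1,k2]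
    [(z1,[y2,y1,z2]),(z1,[z0,z1])] [])))), .old [([z1,z0,z1,z1,z0],z2),([z0,z3,z0,z0,z0],z2)] (.z (.x (.old (.leafM
    k6 [k3,k4,k0,k1,k2] [(z1,[y3,y1,z3]),(z1,[z0,z1])] [])))), .old [([z1,z0,z0,z1,z2],z2),([z0,z1,z0,z0,y2],z0)]
    (.z (.x (.old (.tor k20 false k0 [(z1,[y2,y1,z2]),(z1,[z1]),(z1,[z1,z1])])))), .old [([z1,z0,z0,z1,z2],z2),([z0,
    z1,z0,z0,y2],z0)] (.z (.x (.old (.tor k1 false k4 [(z1,[z1]),(z1,[z1,z1]),(z1,[y2,y1,z2])])))), .old [([z3,z0,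
    z0,z3,z0],z1),([z0,z1,z1,z0,z0],z2)] (.z (.x (.old (.leafM k2 [k3,k4,k0] [(z1,[y1,y3,z3]),(z1,[z1])] [(k1,k2,z1,
    [z0,z1]),(k2,k1,z1,[z0,z1])])))), .old [([z2,z0,z0,z2,z0],z1),([z0,z1,z1,z0,z0],z2)] (.z (.x (.old (.leafM k3
    [k3,k4,k0] [(z1,[y1,y2,z2]),(z1,[z1])] [(k1,k2,z1,[z0,z1]),(k2,k1,z1,[z0,z1])])))), .old [([z3,z0,z0,z3,z0],z2),
    ([z0,z1,z1,z0,z0],z2)] (.z (.x (.old (.leafM k4 [k3,k4,k0] [(z1,[y1,y3,z3]),(z1,[z1])] [(k1,k2,z1,[z0,z1]),(k2,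
    k1,z1,[z0,z1])])))), .old [([z2,z0,y2,z0,z1],z0),([z0,z1,z2,z0,z0],z2)] (.z (.x (.old (.tor k7 false k2 [(z1,
    [z0,z1]),(z1,[z1,z1]),(z1,[y1,y2,z2])])))), .old [([z1,z1,z1,z0,z0],z2)] (.z (.x (.old (.leafM k0 [k3,k4,k0,k1,
    k2] [(z1,[y1,z1])] [])))), .old [([z1,z0,z1,z0,z0],z2),([z0,z3,z0,z0,z0],z1)] (.z (.x (.old (.leafM k4 [k4,k1,
    k3] [(z1,[z0,z1]),(z1,[y3,y1,z3])] [(k0,k2,z1,[z1]),(k2,k0,z1,[z1])])))), .old [([z1,z0,z1,z0,z0],z2),([z0,z3,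
    z0,z0,z0],z2)] (.z (.x (.old (.leafM k2 [k4,k1,k3] [(z1,[z0,z1]),(z1,[y3,y1,z3])] [(k0,k2,z1,[z1]),(k2,k0,z1,
    [z1])])))), .old [([z1,z0,z1,z0,z0],z2),([z0,z2,z0,z0,z0],z1)] (.z (.x (.old (.leafM k3 [k4,k1,k3] [(z1,[z0,
    z1]),(z1,[y2,y1,z2])] [(k0,k2,z1,[z1]),(k2,k0,z1,[z1])])))), .old [([z1,z0,z0,y1,y2],z0),([z0,z1,z0,z1,z1],z1)]
    (.z (.x (.old (.tor k21 false k0 [(z1,[y1,y1,z1]),(z1,[z0,y1,z1]),(z1,[z1,z2])])))), .old [([z1,z0,z0,y2,y1],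
    z0),([z0,z1,z0,z1,z1],z1)] (.z (.x (.old (.tor k4 false k0 [(z1,[y1,y1,z1]),(z1,[z0,y1,z1]),(z1,[z1,z2])]))))],
    [.old [([z1,z1,z0,z1,z0],z1)] (.z (.x (.old (.leafM k1 [k0,k1,k3] [] [(k2,k4,z1,[y1,z1]),(k4,k2,z1,[y1,
    z1])])))), .old [([z1,z1,z0,z1,z0],z2)] (.z (.x (.old (.leafM k2 [k1,k2,k3,k4,k0] [(z1,[y1,z1])] [])))), .old
    [([z1,z1,z0,z0,z1],z2)] (.z (.x (.old (.leafM k0 [k2,k3,k4,k0,k1] [(z1,[y1,z1])] [])))), .old [([z1,z0,z1,z0,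
    z1],z2),([z0,z3,z0,z0,z0],z2)] (.z (.x (.old (.leafM k4 [k0,k1,k2,k3,k4] [(z1,[z0,z1]),(z1,[y3,y1,z3])] [])))),
    .old [([z1,z1,z1,z0,z0],z1)] (.z (.x (.old (.leafM k1 [k2,k0,k1] [] [(k3,k4,z1,[y1,z1]),(k4,k3,z1,[y1,z1])])))),
    .old [([z1,z1,z1,z0,z0],z2)] (.z (.x (.old (.leafM k3 [k0,k1,k2,k3,k4] [(z1,[y1,z1])] [])))), .old [([z3,z0,z3,
    z0,z0],z1),([z0,z3,z0,z0,z0],z2)] (.z (.x (.old (.leafM k2 [k0,k1,k2] [(z1,[z0,z1]),(z1,[z1])] [(k3,k4,z3,[y1,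
    y1,z3]),(k4,k3,z3,[y1,y1,z3])])))), .old [([z2,z0,z2,z0,z0],z1),([z0,z2,z0,z0,z0],z1)] (.z (.x (.old (.leafM k3
    [k0,k1,k2] [(z1,[z0,z1]),(z1,[z1])] [(k3,k4,z2,[y1,y1,z2]),(k4,k3,z2,[y1,y1,z2])])))), .old [([z3,z0,z3,z0,z0],
    z2),([z0,z3,z0,z0,z0],z1)] (.z (.x (.old (.leafM k4 [k0,k1,k2] [(z1,[z0,z1]),(z1,[z1])] [(k3,k4,z3,[y1,y1,z3]),
    (k4,k3,z3,[y1,y1,z3])]))))]]

/-- table of certificates in the old format -/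
noncomputable def xt5 : List CertX := []

end Pool.Agent.Lib_MP_fa6e45
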