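import Pool.Agent.Lib_MP_fa6e45.CQ4
import Pool.Agent.Lib_MP_fa6e45.CXTg
import Pool.Agent.Lib_MP_fa6e45.HK

/-!
MP_fa6e45_co, stage 9: certificates for the theorem T6 (generated by a program).
-/

namespace Pool.Agent.Lib_MP_fa6e45

/-- table of nodes in the old format -/
noncomputable def r5_0_lf : List (List (QN PN)) :=
  [[.old [([z1,z0,z0,z0,z1],z2)] (.z (.x (.old (.leafM k0 [k1,k2,k3] [] [(k4,k0,z1,[z1]),(k0,k4,z1,[z1])])))), .old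
    [([z1,z0,z0,z0,z1],z1)] (.z (.x (.old (.leafM k1 [k3,k4,k0,k1,k2] [(z1,[z1])] [])))), .old [([z1,z0,z0,y2,y2],
    z0),([z0,z1,z0,z1,z1],z1)] (.z (.x (.old (.tor k2 false k0 [(z1,[y1,y1,z1]),(z1,[z0,y1,z1]),(z1,[z1,z2])])))),
    .old [([z1,z0,z0,y2,z1],z0),([z0,z1,z0,z1,z0],z1)] (.z (.x (.old (.tor k0 false k1 [(z1,[y1,y1,z1]),(z1,[z0,y1,
    z1]),(z1,[z1,z2])])))), .old [([z1,z0,z0,y2,z0],z0),([z0,z1,z0,z1,z0],z1)] (.z (.x (.old (.tor k1 false k0 [(z1,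
    [y1,y1,z1]),(z1,[z0,y1,z1]),(z1,[z1,z2])])))), .old [([z2,z0,z0,z1,z0],z2),([z0,z1,z0,z0,z2],z2)] (.z (.x (.old
    (.tor k3 false k1 [(z1,[y1,y1,z2]),(z1,[z1]),(z1,[z0,z1])])))), .old [([z2,z2,z0,z0,z0],z1),([z0,z0,z1,z0,z1],
    z2)] (.z (.x (.old (.leafM k3 [k1,k3,k0] [(z1,[y1,y2,z2]),(z1,[z1])] [(k2,k4,z1,[z0,z1]),(k4,k2,z1,[z0,
    z1])])))), .old [([z3,z3,z0,z0,z0],z2),([z0,z0,z1,z0,z1],z2)] (.z (.x (.old (.leafM k4 [k1,k3,k0] [(z1,[y1,y3,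
    z3]),(z1,[z1])] [(k2,k4,z1,[z0,z1]),(k4,k2,z1,[z0,z1])])))), .old [([z1,z0,z0,z2,z1],z2),([z0,z1,z0,y1,y1],y1)]
    (.z (.x (.old (.tor k4 true k4 [(z1,[z0,z1,z1]),(z1,[y1,y1,z1]),(z1,[z1])])))), .old [([z9,z0,z0,z0,z0],z2),
    ([z0,z9,z0,z0,z0],z8),([z0,z0,z9,z0,z0],z4),([z0,z0,z0,z3,z0],z1)] (.z (.x (.geo true z9 k0 [(z2,z0),(z8,z0),
    (z4,z0),(z3,z0),(z10,z0)] [(z1,[z1]),(z1,[z0,z1]),(z1,[z0,z0,z1]),(z1,[z0,z0,z0,z3]),(z1,[y1,y1,y1,y3,z9])] z0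
    (Int.ofNat (nat_lit 2097152)) (.l k1) []))), .old [([z1,z0,z0,z0,y3],y1),([z0,z1,z0,z0,z2],z2),([z0,z0,z1,z0,
    z4],z2)] (.z (.x (.old (.lp [(nat_lit 8031245302080),(nat_lit 6959508175620),(nat_lit 9537103796220),(nat_lit
    9537103796220),(nat_lit 8803480427280)] [(nat_lit 2727043039854),(nat_lit 2727043039854),(nat_lit
    3262911603084),(nat_lit 3262911603084),(nat_lit 1974113792784),(nat_lit 1974113792784),(nat_lit 1974113792784),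
    (nat_lit 1974113792784),(nat_lit 4681850954508),k0] k0 [[k0,k0,k0,k0,k0,k0,(nat_lit 6666713333280)],[k0,k0,k0,
    (nat_lit 2103772896225),k0,k0,k0,k0,k0,(nat_lit 264919549895)],[(nat_lit 2103772896225),k0,k0,k0,k0,k0,k0,k0,
    (nat_lit 2103772896225)],[k0,k0,k0,k0,k0,(nat_lit 5449773597840)],[k0,k0,(nat_lit 5449773597840)],[],[k0,k0,k0,
    k0,k0,k0,k0,k0,(nat_lit 4324965675030)],[k0,(nat_lit 6666713333280)],[(nat_lit 264919549895)],[k0,k0,k0,(nat_lit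
    2103772896225),k0,k0,k0,(nat_lit 4324965675030)]] (nat_lit 28611311388660) k8 [[(k6,(nat_lit 4459208874120)),
    (k2,(nat_lit 5391603842625)),(k8,(nat_lit 6076437387426)),(k0,(nat_lit 8296164851975)),(k4,(nat_lit
    8784174549150))],[(k9,(nat_lit 4091575008654)),(k3,(nat_lit 7495376738850)),(k1,(nat_lit 8296164851975)),(k7,
    (nat_lit 8784174549150)),(k5,(nat_lit 10887947445375))],[(k2,(nat_lit 4855735279395)),(k8,(nat_lit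
    5275649274301)),(k0,(nat_lit 7495376738850)),(k4,(nat_lit 8248305985920)),(k6,(nat_lit 14915019319200))],[(k3,
    (nat_lit 4855735279395)),(k1,(nat_lit 5391603842625)),(k5,(nat_lit 8248305985920)),(k9,(nat_lit
    10222419778704)),(k7,(nat_lit 13698079583760))],[(k4,(nat_lit 4087330198380)),(k2,(nat_lit 8248305985920)),(k8,
    (nat_lit 8933139530721)),(k6,(nat_lit 9537103796220)),(k0,(nat_lit 10887947445375))],[(k5,(nat_lit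
    4087330198380)),(k3,(nat_lit 8248305985920)),(k1,(nat_lit 8784174549150)),(k7,(nat_lit 9537103796220)),(k9,
    (nat_lit 11511217589004))],[(k8,(nat_lit 6829366634496)),(k0,(nat_lit 8784174549150)),(k4,(nat_lit
    9537103796220)),(k6,(nat_lit 9537103796220)),(k2,(nat_lit 13698079583760))],[(k1,(nat_lit 4459208874120)),(k5,
    (nat_lit 9537103796220)),(k7,(nat_lit 9537103796220)),(k9,(nat_lit 11511217589004)),(k3,(nat_lit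
    14915019319200))],[(k0,(nat_lit 4091575008654)),(k2,(nat_lit 10222419778704)),(k4,(nat_lit 11511217589004)),(k6,
    (nat_lit 11511217589004)),(k8,(nat_lit 13128446102310))],[(k3,(nat_lit 5275649274301)),(k1,(nat_lit
    6076437387426)),(k7,(nat_lit 6829366634496)),(k5,(nat_lit 8933139530721)),(k9,(nat_lit 13128446102310))]] [] k0
    [[k2,k0,k0,k0,k0],[k3,k0,k0,k0,k0],[k3,k0,k0,k0,k1],[k2,k1,k0,k0,k0],[k2,k2,k0,k0,k0],[k2,k2,k0,k0,k1],[k2,k1,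
    k0,k0,k1],[k2,k0,k1,k0,k0],[k2,k0,k0,k1,k0],[k2,k0,k0,k1,k1],[k2,k0,k0,k0,k1],[k1,k1,k0,k0,k0],[k2,k1,k0,k1,k0],
    [k2,k1,k0,k1,k1],[k1,k2,k0,k0,k0],[k1,k3,k0,k0,k0],[k1,k4,k0,k0,k0],[k1,k3,k0,k0,k1],[k1,k2,k0,k0,k1],[k1,k1,k1,
    k0,k0],[k1,k1,k1,k0,k1],[k1,k1,k0,k0,k1],[k2,k1,k0,k0,k2],[k1,k1,k0,k0,k2],[k1,k0,k1,k0,k0],[k1,k0,k2,k0,k0],
    [k1,k0,k3,k0,k0],[k1,k0,k2,k0,k1],[k1,k0,k1,k1,k0],[k1,k0,k1,k0,k1],[k1,k0,k0,k1,k0],[k2,k0,k0,k2,k0],[k1,k1,k0,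
    k1,k0],[k1,k1,k0,k1,k1],[k1,k0,k1,k1,k1],[k1,k0,k0,k2,k0],[k1,k0,k0,k2,k1],[k1,k0,k0,k1,k1],[k2,k0,k0,k1,k2],
    [k1,k0,k0,k1,k2],[k1,k0,k0,k0,k1],[k2,k0,k0,k0,k2],[k1,k0,k0,k0,k2],[k0,k2,k0,k0,k0],[k0,k3,k0,k0,k0],[k0,k4,k0,
    k0,k0],[k0,k5,k0,k0,k0],[k0,k3,k1,k0,k0],[k0,k3,k0,k0,k1],[k0,k2,k1,k0,k0],[k0,k2,k2,k0,k0],[k0,k2,k0,k0,k1],
    [k0,k1,k1,k0,k0],[k0,k1,k2,k0,k0],[k0,k1,k3,k0,k0],[k0,k1,k1,k0,k1],[k0,k1,k0,k0,k1],[k0,k0,k2,k0,k0],[k0,k0,k3,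
    k0,k0],[k0,k0,k4,k0,k0],[k0,k0,k5,k0,k0],[k0,k0,k6,k0,k0],[k0,k0,k3,k1,k0],[k0,k0,k2,k1,k0],[k0,k0,k2,k0,k1],
    [k0,k0,k1,k1,k0],[k0,k0,k1,k1,k1],[k0,k0,k1,k0,k1],[k0,k0,k0,k2,k0],[k0,k0,k0,k2,k1],[k0,k0,k0,k1,k1],[k0,k0,k0,
    k0,k2]] [.contra [z1],.contra [y1,z4,z0,z3],.contra [y1,z3,z5],.contra [y1,z2,z3],.contra [z2,y2,y3],.contra
    [z4,y2,y5],.ref k2 k0 [(z1,[y2,z2,z3]),(z1,[z0,z1,z0,z1])],.contra [z1,y2,z0,y1],.contra [y1,z1,z3,y1,z1],.ref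
    k11 k1 [(z1,[y4,z4,y4,z5,z4]),(z1,[z2,y11,y7,y7,z7]),(z1,[z1,y1,z1,z1,y1]),(z1,[z1,z2,z1,z1,y1])],.contra [y2,
    z6,z0,z5],.contra [z1,y1,y1],.contra [z1,z1,z0,z1,y1],.contra [z4,z6,z1,z4,y4],.contra [y1,z1,z2],.contra [y1,
    z1,z3],.contra [y1,z1,z4],.contra [z4,y2,y5],.contra [z4,y2,y5],.contra [y1,z2,z1,z1],.contra [z1,y1,z0,y1],
    .contra [y1,z1,z2],.contra [z1,z0,y1],.contra [z1,z0,y1],.contra [y1,z2,z1,z1],.contra [y2,z6,z1,z4],.contra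
    [y1,z4,z0,z3],.contra [z1,y1,z0,y1],.contra [z1,z0,z1,z0,y1],.contra [y4,z6,z3,z4],.contra [y1,z1,y1,z1,z1],.ref
    k2 k0 [(z1,[y1,y2,y1,y2,z2]),(z1,[z0,z1,z0,z1])],.contra [z1,z1,z0,z1,y1],.contra [y1,z0,z0,z0,z1],.contra [y1,
    z0,z0,z0,z1],.ref k10 k2 [(z1,[y1,z0,y1,z0,z2]),(z1,[z1,z1,z1,z1,y2])],.ref k8 k3 [(z1,[z1,z3,z2,z2,y2]),(z1,
    [z0,y1,z0,y1,z1])],.contra [y1,z0,z2,y1,z1],.ref k2 k0 [(z1,[y1,y1,z0,y1,z1]),(z1,[z0,z1,z0,z1])],.ref k10 k2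
    [(z1,[y1,z1,z0,z1,z1]),(z1,[z1,z0,z0,z0,y1])],.contra [y2,z2,z2,z1],.contra [y1,z2,z4],.contra [y1,z2,z0,z2],
    .contra [z1],.contra [y1,z2,z3],.contra [z1,z0,y2,z1],.contra [z1,z0,y2,z1],.contra [z1,z2,y3,z3],.contra [z2,
    z0,y3,z1],.contra [z1,z0,z2,y1],.contra [z1,z0,z4,y2],.contra [y1,z1,z2],.contra [y1,z2,z1,z1],.ref k2 k0 [(z1,
    [z1,y2,z0,y2]),(z1,[z0,z1,z0,z1])],.ref k10 k2 [(z2,[z1,z2,z1,z1]),(z2,[y1,z0,y1,z1])],.ref k2 k0 [(z1,[z2,y2,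
    y1,y2]),(z1,[z0,z1,z0,z1])],.contra [y4,z2,z5],.contra [z1],.contra [y1,z4,z0,z3],.ref k8 k3 [(z2,[y1,z4,z0,
    z4]),(z1,[z0,y1,z0,y1,z1])],.ref k2 k0 [(z2,[z1,y4,z2,y5]),(z1,[z0,z1,z0,z1])],.ref k9 k3 [(z2,[y1,z6,z0,z6]),
    (z1,[z0,y1,z0,y1,z1])],.ref k2 k0 [(z1,[z1,y1,z2,y2,y1]),(z1,[z0,z1,z0,z1])],.contra [y1,z1,y1,z1,z1],.contra
    [y4,z10,z1,z8],.contra [y2,z0,y1,z0,z2],.contra [y4,y2,y3,z0,z4],.contra [y4,z6,z3,z4],.contra [y1,y2,z0,y2,z2],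
    .ref k2 k0 [(z1,[y2,y6,y3,y4,z4]),(z1,[z0,z1,z0,z1])],.contra [z1,z2,z1,z1,y1],.contra [z1]])))), .old [([z1,z0,
    z0,z0,y2],y1),([z0,z1,z0,z0,y1],z0),([z0,z0,z1,z0,z2],z2)] (.z (.x (.old (.tor k8 false k0 [(z1,[y1,y1,y1,z1]),
    (z1,[y1,z0,y1,z1]),(z1,[z0,z1,z1]),(z1,[z0,z2,z1]),(z1,[z0,y2,y2,z2]),(z1,[z2,z0,z2])])))), .old [([z1,z0,z0,z0,
    y3],y1),([z0,z1,z0,z0,y2],z0),([z0,z0,z1,z0,z4],z2)] (.z (.x (.geo true z1 k4 [(y1,z3),(z0,z2),(z2,y4),(z2,y2),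
    (z0,z1)] [(z1,[z1]),(z1,[z0,z1]),(z1,[z0,z0,z1]),(z1,[y1,y1,y1,z1]),(z1,[])] (Int.ofNat (nat_lit 349525))
    (Int.ofNat (nat_lit 524288)) (.s (.l k1) (.s (.l k1) (.l k1))) []))), .old [([z1,z0,z0,z0,y3],y1),([z0,z1,z0,z0,
    z6],z4),([z0,z0,z1,z0,y4],y2)] (.z (.x (.geo true z1 k4 [(y1,z3),(z4,y6),(y2,z4),(z2,y2),(z0,z1)] [(z1,[z1]),
    (z1,[z0,z1]),(z1,[z0,z0,z1]),(z1,[y1,y1,y1,z1]),(z1,[])] (Int.ofNat (nat_lit 524288)) (Int.ofNat (nat_lit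
    699051)) (.s (.l k1) (.l k1)) []))), .old [([z2,z0,z0,z0,y3],z0),([z0,z1,z0,z0,z3],z2),([z0,z0,z1,z0,y1],z0)]
    (.z (.x (.geo true z2 k4 [(z0,z3),(z4,y6),(z0,z2),(z2,y1),(z0,z2)] [(z1,[z1]),(z1,[z0,z2]),(z1,[z0,z0,z2]),(z1,
    [y1,y2,y2,z2]),(z1,[])] z0 (Int.ofNat (nat_lit 699051)) (.s (.s (.l k1) (.l k1)) (.s (.s (.l k1) (.s (.l k1) (.l
    k1))) (.s (.l k1) (.l k1)))) []))), .old [([z1,z0,z0,z0,y4],y2),([z0,z1,z0,z0,y3],y1),([z0,z0,z1,z0,z6],z4)] (.z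
    (.x (.geo true z1 k4 [(y2,z4),(y1,z3),(z4,y6),(z2,y2),(z0,z1)] [(z1,[z1]),(z1,[z0,z1]),(z1,[z0,z0,z1]),(z1,[y1,
    y1,y1,z1]),(z1,[])] (Int.ofNat (nat_lit 524288)) (Int.ofNat (nat_lit 699051)) (.s (.l k1) (.s (.l k1) (.l k1)))
    [])))], [.old [([z3,z0,z0,z0,y3],y1),([z0,z3,z0,z0,z0],z2),([z0,z0,z3,z0,z0],z2)] (.z (.x (.geo true z3 k4 [(y1,
    z3),(z2,z0),(z2,z0),(z6,y6),(z0,z3)] [(z1,[z1]),(z1,[z0,z1]),(z1,[z0,z0,z1]),(z1,[y1,y1,y1,z3]),(z1,[])]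
    (Int.ofNat (nat_lit 349525)) (Int.ofNat (nat_lit 1048576)) (.s (.l k1) (.s (.s (.l k1) (.l k1)) (.l k1))) []))),
    .old [([z1,z0,z0,z0,y5],y3),([z0,z1,z0,z0,y4],y2),([z0,z0,z1,z0,z8],z6)] (.z (.x (.geo true z1 k4 [(y3,z5),(y2,
    z4),(z6,y8),(z2,y2),(z0,z1)] [(z1,[z1]),(z1,[z0,z1]),(z1,[z0,z0,z1]),(z1,[y1,y1,y1,z1]),(z1,[])] (Int.ofNat
    (nat_lit 629145)) (Int.ofNat (nat_lit 786432)) (.s (.l k1) (.s (.s (.l k1) (.l k1)) (.l k1))) []))), .old [([z2,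
    z0,z0,z0,z1],z2),([z0,z2,z0,z1,z1],z2)] (.z (.x (.old (.lp [k181,k115,k157,k133,k129] [k0,k0,k33,k33,k12,k12,
    k26,k22,k26,k26] k0 [[k0,k0,k45,k0,k0,k0,k0,k0,k14],[k0,k0,k0,k0,k0,k40],[k0,k0,k0,k0,k30],[k0,k45,k0,k0,k0,k0,
    k0,k0,k0,k24],[k40,k0,k0,k0,k0,k0,k34],[k0,k0,k0,k30],[k0,k0,k0,k0,k0,k0,k0,k0,k41],[k0,k0,k0,k0,k0,k34],[k0,k0,
    k24],[k0,k14,k0,k0,k0,k0,k0,k41]] (nat_lit 480) k6 [[(k6,k114),(k8,k155),(k0,k167),(k4,k169),(k2,k172)],[(k5,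
    k124),(k3,k148),(k9,k155),(k1,k167),(k7,k199)],[(k4,k96),(k6,k122),(k8,k136),(k0,k148),(k2,k160)],[(k7,k96),(k9,
    k122),(k5,k136),(k3,k160),(k1,k172)],[(k8,k119),(k0,k124),(k2,k136),(k6,k143),(k4,k187)],[(k3,k96),(k9,k109),
    (k7,k147),(k1,k169),(k5,k187)],[(k2,k96),(k8,k133),(k4,k147),(k6,k167),(k0,k199)],[(k1,k114),(k3,k122),(k9,
    k129),(k5,k143),(k7,k167)],[(k4,k109),(k2,k122),(k6,k129),(k0,k155),(k8,k170)],[(k5,k119),(k7,k133),(k3,k136),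
    (k1,k155),(k9,k170)]] [[k0,k0,k8],[k0,k8,k0],[k1,k1,k9],[k1,k9,k1],[k2,k6,k2,k8],[k2,k8,k2,k6],[k3,k7,k3,k9],
    [k3,k9,k3,k7],[k4,k4,k6],[k4,k6,k4],[k5,k5,k7],[k5,k7,k5]] k1 [[k2,k0,k0,k0,k0],[k2,k0,k1,k0,k0],[k1,k1,k0,k0,
    k0],[k1,k1,k1,k0,k0],[k1,k1,k0,k0,k1],[k1,k0,k1,k0,k0],[k1,k0,k1,k0,k1],[k1,k0,k0,k1,k0],[k1,k1,k0,k1,k0],[k1,
    k1,k1,k1,k0],[k1,k0,k1,k1,k0],[k1,k0,k0,k1,k1],[k1,k0,k0,k0,k1],[k0,k2,k0,k0,k0],[k0,k2,k1,k0,k0],[k0,k2,k0,k1,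
    k0],[k0,k2,k0,k0,k1],[k0,k1,k1,k0,k0],[k0,k2,k2,k0,k0],[k0,k2,k1,k1,k0],[k0,k1,k2,k0,k0],[k0,k1,k1,k1,k0],[k0,
    k1,k1,k0,k1],[k0,k1,k2,k0,k1],[k0,k1,k1,k1,k1],[k0,k1,k0,k1,k0],[k0,k2,k0,k2,k0],[k0,k1,k0,k2,k0],[k0,k1,k0,k1,
    k1],[k0,k1,k0,k0,k1],[k0,k1,k0,k0,k2],[k0,k0,k2,k0,k0],[k0,k0,k2,k0,k1],[k0,k0,k1,k1,k0],[k0,k0,k1,k2,k0],[k0,
    k0,k1,k1,k1],[k0,k0,k1,k0,k1],[k0,k0,k2,k0,k2],[k0,k0,k1,k0,k2],[k0,k0,k0,k2,k0],[k0,k0,k0,k2,k1],[k0,k0,k0,k1,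
    k1],[k0,k0,k0,k1,k2],[k0,k0,k0,k0,k2]] [.contra [z1],.ref k1 k0 [(z1,[z1,z0,z1,y1])],.contra [y2,z1,z1],.ref k1
    k3 [(z1,[y1,z0,z0,z1])],.contra [z1,y1,y1,z1],.contra [z1,z0,z1,y1],.ref k19 k0 [(z1,[z1,y1,z1,y1]),(z1,[z1,
    y1]),(z1,[y2,z1,y1,z2])],.ref k20 k5 [(z1,[z1,z1,z2,y3]),(z1,[z1,z1,z1,y2]),(z1,[y2,y1,y2,z4])],.ref k3 k2 [(z1,
    [z1,z1,z1,y2]),(z1,[y1,z0,z0,z1])],.contra [y1,z0,z0,z1],.ref k19 k0 [(z1,[y1,y1,z0,z1]),(z1,[y1,y1,y1,z2]),(z1,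
    [z2,z1,z1,y2])],.ref k1 k1 [(z1,[y1,z0,z0,z1])],.contra [y1,z1],.contra [z1],.ref k21 k2 [(z1,[y1,z0,y1,z1]),
    (z1,[z2,z1,z2,y2]),(z1,[y2,y1,y1,z2])],.contra [z1,z1,y1],.contra [z1,y1,y2,z2],.contra [y2,y1,z0,z2],.ref k1 k1
    [(z2,[z1])],.ref k1 k0 [(z1,[z1,z1,z0,y1])],.ref k22 k2 [(z1,[y1,z0,y2,z2]),(z1,[z1,z1,z2,y2]),(z1,[y1,y1,y1,
    z2])],.contra [z1,z1,z0,y1],.ref k3 k1 [(z1,[z1,y1]),(z1,[y1,z0,z0,z1])],.ref k23 k5 [(z1,[y1,z1,z2,y2]),(z1,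
    [y1,z1,z1,y1]),(z1,[z2,y1,y2,z2])],.contra [y1,z0,z0,z1],.contra [y2,y1,z0,z2],.ref k19 k0 [(z2,[y1,y2,z2]),(z2,
    [y1,y2,z0,z2]),(z1,[z1,z1,y1])],.ref k23 k5 [(z1,[z1,z2,z2,y4]),(z1,[z1,z2,z1,y3]),(z1,[y2,y3,y2,z6])],.contra
    [y1,z0,z1],.contra [y2,z1,z1],.ref k23 k0 [(z1,[z1,y2]),(z1,[z1,y2,y1,z1]),(z1,[y2,z3,z1])],.contra [z1],.ref
    k19 k0 [(z2,[z1,y1,z2,y2]),(z2,[z1,y1]),(z1,[y1,z0,y1,z2])],.contra [y1,y1,y1,z2],.ref k24 k0 [(z1,[y1,y2,z1,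
    z1]),(z1,[y1,y2,y2,z4]),(z1,[z2,z1,z1,y2])],.ref k1 k0 [(z1,[y1,z0,z0,z1])],.ref k20 k0 [(z1,[z1,y1,z1,y1]),(z1,
    [z1,y1]),(z1,[y2,z1,y1,z2])],.ref k3 k2 [(z2,[y1,z2,z2,y2]),(z2,[z1])],.ref k25 k0 [(z1,[z1,y2,z1,y1]),(z1,[z1,
    y2]),(z1,[y2,z3,y1,z2])],.contra [z1],.ref k1 k1 [(z2,[y1,y1,z0,z2])],.contra [y1,z0,z1],.ref k1 k0 [(z2,[y1,z1,
    z1])],.contra [z1]])))), .old [([z5,z0,z0,z0,y6],y2),([z0,z1,z0,z0,z2],z2),([z0,z0,z5,z0,y1],z3)] (.z (.x (.geo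
    true z5 k4 [(y2,z6),(z10,y10),(z3,z1),(z4,y2),(z0,z5)] [(z1,[z1]),(z1,[z0,z5]),(z1,[z0,z0,z1]),(z1,[y1,y5,y1,
    z5]),(z1,[])] (Int.ofNat (nat_lit 349525)) (Int.ofNat (nat_lit 1048576)) (.s (.s (.l k1) (.l k1)) (.s (.s (.l
    k1) (.l k1)) (.l k1))) []))), .old [([z4,z0,z0,z0,y5],y2),([z0,z1,z0,z0,z2],z2),([z0,z0,z4,z0,y1],z2)] (.z (.x
    (.geo true z4 k4 [(y2,z5),(z8,y8),(z2,z1),(z4,y2),(z0,z4)] [(z1,[z1]),(z1,[z0,z4]),(z1,[z0,z0,z1]),(z1,[y1,y4,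
    y1,z4]),(z1,[])] (Int.ofNat (nat_lit 419430)) (Int.ofNat (nat_lit 1048576)) (.s (.s (.l k1) (.l k1)) (.s (.l k1)
    (.l k1))) []))), .old [([z3,z0,z0,z0,y5],y2),([z0,z1,z0,z0,z2],z2),([z0,z0,z3,z0,y2],z1)] (.z (.x (.geo true z3
    k4 [(y2,z5),(z6,y6),(z1,z2),(z4,y4),(z0,z3)] [(z1,[z1]),(z1,[z0,z3]),(z1,[z0,z0,z1]),(z1,[y1,y3,y1,z3]),(z1,[])]
    (Int.ofNat (nat_lit 419430)) (Int.ofNat (nat_lit 1048576)) (.s (.s (.l k1) (.s (.l k1) (.l k1))) (.s (.s (.l k1)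
    (.l k1)) (.l k1))) []))), .old [([z3,z0,z0,z0,y4],y2),([z0,z1,z0,z0,z2],z2),([z0,z0,z3,z0,y1],z1)] (.z (.x (.geo
    true z3 k4 [(y2,z4),(z6,y6),(z1,z1),(z4,y2),(z0,z3)] [(z1,[z1]),(z1,[z0,z3]),(z1,[z0,z0,z1]),(z1,[y1,y3,y1,z3]),
    (z1,[])] (Int.ofNat (nat_lit 524288)) (Int.ofNat (nat_lit 1048576)) (.s (.l k1) (.l k1)) []))), .old [([z1,z0,
    z0,z0,y6],y4),([z0,z1,z0,z0,z2],z2),([z0,z0,z1,z0,z3],z3)] (.z (.x (.geo true z1 k4 [(y4,z6),(z2,y2),(z3,y3),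
    (z2,y2),(z0,z1)] [(z1,[z1]),(z1,[z0,z1]),(z1,[z0,z0,z1]),(z1,[y1,y1,y1,z1]),(z1,[])] (Int.ofNat (nat_lit
    699050)) (Int.ofNat (nat_lit 1048576)) (.s (.s (.s (.l k1) (.l k1)) (.s (.l k1) (.l k1))) (.s (.l k1) (.l k1)))
    []))), .old [([z1,z0,z0,z0,y2],y1),([z0,z2,z0,z0,z0],z1),([z0,z0,z2,z0,z2],z3)] (.z (.x (.geo true z2 k4 [(y2,
    z4),(z1,z0),(z3,y2),(z4,y4),(z0,z2)] [(z1,[z2]),(z1,[z0,z1]),(z1,[z0,z0,z1]),(z1,[y2,y1,y1,z2]),(z1,[])]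
    (Int.ofNat (nat_lit 524288)) (Int.ofNat (nat_lit 1048576)) (.s (.l k1) (.s (.l k1) (.l k1))) []))), .old [([z1,
    z0,z0,z0,y8],y6),([z0,z1,z0,z0,z3],z3),([z0,z0,z1,z0,z4],z4)] (.z (.x (.geo true z1 k4 [(y6,z8),(z3,y3),(z4,y4),
    (z2,y2),(z0,z1)] [(z1,[z1]),(z1,[z0,z1]),(z1,[z0,z0,z1]),(z1,[y1,y1,y1,z1]),(z1,[])] (Int.ofNat (nat_lit
    786432)) (Int.ofNat (nat_lit 1048576)) (.s (.s (.s (.l k1) (.s (.l k1) (.s (.l k1) (.l k1)))) (.s (.s (.s (.l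
    k1) (.l k1)) (.l k1)) (.l k1))) (.s (.l k1) (.l k1))) []))), .old [([z1,z0,z0,z0,y6],y4),([z0,z1,z0,z0,z3],z3),
    ([z0,z0,z1,z0,z2],z2)] (.z (.x (.geo true z1 k4 [(y4,z6),(z3,y3),(z2,y2),(z2,y2),(z0,z1)] [(z1,[z1]),(z1,[z0,
    z1]),(z1,[z0,z0,z1]),(z1,[y1,y1,y1,z1]),(z1,[])] (Int.ofNat (nat_lit 699050)) (Int.ofNat (nat_lit 1048576)) (.s
    (.s (.s (.l k1) (.s (.l k1) (.l k1))) (.s (.l k1) (.l k1))) (.s (.l k1) (.l k1))) []))), .old [([z3,z0,z0,z0,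
    y6],y4),([z0,z3,z0,z0,z0],z2),([z0,z0,z3,z0,z3],z5)] (.z (.x (.geo true z3 k4 [(y4,z6),(z2,z0),(z5,y3),(z6,y6),
    (z0,z3)] [(z1,[z1]),(z1,[z0,z1]),(z1,[z0,z0,z1]),(z1,[y1,y1,y1,z3]),(z1,[])] (Int.ofNat (nat_lit 699050))
    (Int.ofNat (nat_lit 1048576)) (.s (.s (.l k1) (.l k1)) (.s (.l k1) (.l k1))) []))), .old [([z1,z0,z0,z0,y4],y2),
    ([z0,z1,z0,z0,z2],z2),([z0,z0,z1,z0,y3],y1)] (.z (.x (.geo true z1 k4 [(y2,z4),(z2,y2),(y1,z3),(z4,y6),(z0,z1)]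
    [(z1,[z1]),(z1,[z0,z1]),(z1,[z0,z0,z1]),(z1,[y1,y1,y1,z1]),(z1,[])] (Int.ofNat (nat_lit 524288)) (Int.ofNat
    (nat_lit 699051)) (.s (.l k1) (.l k1)) []))), .old [([z4,z0,z0,y4,z0],y1),([z0,z4,z0,z0,z0],z3),([z0,z0,z1,z2,
    z0],z2)] (.z (.x (.geo true z4 k3 [(y1,z4),(z3,z0),(z8,y8),(z0,z4),(z2,z0)] [(z1,[z1]),(z1,[z0,z1]),(z1,[z0,z0,
    z4]),(z1,[]),(z1,[y1,y1,y4,z4])] (Int.ofNat (nat_lit 262144)) (Int.ofNat (nat_lit 1048576)) (.s (.l k1) (.s (.s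
    (.l k1) (.s (.l k1) (.s (.l k1) (.l k1)))) (.s (.l k1) (.l k1)))) []))), .old [([z2,z0,z0,y2,y1],z0),([z0,z1,z0,
    z2,z1],z2)] (.z (.x (.old (.lp [(nat_lit 3306),(nat_lit 1020),(nat_lit 2536),(nat_lit 2042),(nat_lit 2536)] [k0,
    k0,(nat_lit 1143),(nat_lit 1143),(nat_lit 385),(nat_lit 385),(nat_lit 632),(nat_lit 632),(nat_lit 385),(nat_lit
    385)] k0 [[k0,k0,(nat_lit 1042)],[k0,k0,k0,k0,k0,k0,k0,k140],[k0,k0,k0,k0,k24],[k0,(nat_lit 1042)],[k0,k0,k0,k0,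
    k0,k0,k0,k0,(nat_lit 204)],[k0,k0,k0,k24],[k140],[k0,k0,k0,k0,k0,k0,k0,k0,k0,(nat_lit 838)],[k0,k0,k0,k0,k0,k0,
    (nat_lit 838)],[k0,k0,k0,k0,k0,(nat_lit 204)]] (nat_lit 7680) k7 [[(k2,(nat_lit 2163)),(k4,(nat_lit 2717)),(k8,
    (nat_lit 2921)),(k0,(nat_lit 3306)),(k6,(nat_lit 3512))],[(k5,(nat_lit 1879)),(k3,(nat_lit 2163)),(k7,(nat_lit
    2674)),(k9,(nat_lit 3061)),(k1,(nat_lit 3306))],[(k6,(nat_lit 1391)),(k4,(nat_lit 1778)),(k8,(nat_lit 1778)),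
    (k2,(nat_lit 2062)),(k0,(nat_lit 2163))],[(k7,(nat_lit 1507)),(k5,(nat_lit 1778)),(k9,(nat_lit 1778)),(k3,
    (nat_lit 2062)),(k1,(nat_lit 2163))],[(k2,(nat_lit 1778)),(k0,(nat_lit 1879)),(k6,(nat_lit 2289)),(k8,(nat_lit
    2536)),(k4,(nat_lit 2560))],[(k3,(nat_lit 1778)),(k7,(nat_lit 2289)),(k9,(nat_lit 2536)),(k5,(nat_lit 2560)),
    (k1,(nat_lit 2717))],[(k2,(nat_lit 1507)),(k6,(nat_lit 2042)),(k4,(nat_lit 2289)),(k8,(nat_lit 2493)),(k0,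
    (nat_lit 2674))],[(k3,(nat_lit 1391)),(k7,(nat_lit 2042)),(k5,(nat_lit 2289)),(k9,(nat_lit 2289)),(k1,(nat_lit
    3512))],[(k8,(nat_lit 1698)),(k2,(nat_lit 1778)),(k6,(nat_lit 2289)),(k4,(nat_lit 2536)),(k0,(nat_lit 3061))],
    [(k9,(nat_lit 1698)),(k3,(nat_lit 1778)),(k7,(nat_lit 2493)),(k5,(nat_lit 2536)),(k1,(nat_lit 2921))]] [[k0,k0,
    k2],[k0,k2,k0],[k1,k1,k3],[k1,k3,k1],[k2,k8,k6,k6],[k3,k7,k7,k9],[k4,k4,k8],[k4,k8,k4],[k5,k5,k9],[k5,k9,k5]]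
    k16 [[k2,k0,k0,k0,k0],[k1,k1,k0,k0,k0],[k1,k2,k0,k0,k0],[k1,k1,k1,k0,k0],[k1,k1,k0,k1,k0],[k1,k2,k0,k1,k0],[k1,
    k1,k0,k0,k1],[k1,k0,k1,k0,k0],[k1,k0,k2,k0,k0],[k1,k0,k0,k1,k0],[k1,k0,k0,k0,k1],[k1,k0,k1,k0,k1],[k0,k2,k0,k0,
    k0],[k0,k3,k0,k0,k0],[k0,k3,k0,k1,k0],[k0,k2,k1,k0,k0],[k0,k2,k1,k1,k0],[k0,k2,k0,k1,k0],[k0,k2,k0,k2,k0],[k0,
    k2,k0,k0,k1],[k0,k2,k0,k1,k1],[k0,k2,k0,k0,k2],[k0,k1,k1,k0,k0],[k0,k2,k2,k0,k0],[k0,k2,k1,k0,k1],[k0,k1,k2,k0,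
    k0],[k0,k1,k1,k1,k0],[k0,k1,k1,k2,k0],[k0,k1,k1,k0,k1],[k0,k1,k0,k1,k0],[k0,k1,k0,k2,k0],[k0,k1,k0,k3,k0],[k0,
    k1,k0,k1,k1],[k0,k1,k0,k1,k2],[k0,k1,k0,k0,k1],[k0,k1,k0,k0,k2],[k0,k1,k0,k0,k3],[k0,k0,k2,k0,k0],[k0,k0,k2,k1,
    k0],[k0,k0,k1,k1,k0],[k0,k0,k1,k2,k0],[k0,k0,k1,k1,k1],[k0,k0,k1,k0,k1],[k0,k0,k1,k0,k2],[k0,k0,k0,k2,k0],[k0,
    k0,k0,k3,k0],[k0,k0,k0,k2,k1],[k0,k0,k0,k1,k1],[k0,k0,k0,k1,k2],[k0,k0,k0,k0,k2],[k0,k0,k0,k0,k3],[k0,k0,k0,k0,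
    k4]] [.contra [z1],.contra [y1,z1,z1],.ref k18 k6 [(z1,[y1,z1,z2,y1]),(z1,[z0,y1,y2,z2])],.ref k1 k3 [(z1,[y1,
    z0,z0,z1])],.contra [z1,y1,y2,z1],.ref k1 k1 [(z1,[z1,y1,y2,z1])],.ref k1 k6 [(z1,[y1,z0,z0,z1])],.contra [z1,
    z0,z1,y1],.ref k1 k6 [(z1,[z1,z0,z1,y1])],.contra [y2,z1,z2],.ref k0 k4 [(z1,[z1])],.ref k1 k3 [(z1,[z1,z0,z1,
    y1])],.contra [z1],.ref k18 k6 [(z2,[y1,z1,z3,y2]),(z1,[z0,y1,y2,z2])],.ref k27 k6 [(z1,[y1,z3,z9,y6]),(z1,[z0,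
    y1,y2,z2]),(z1,[y1,z3,z4,y1])],.ref k28 k6 [(z1,[y1,z2,z6,y4]),(z1,[z0,y1,y2,z2]),(z1,[y1,z2,z2])],.ref k29 k6
    [(z1,[y1,z2,z6,y4]),(z1,[z0,y1,y2,z2]),(z1,[y1,z2,z3,y1])],.ref k30 k6 [(z1,[y1,z2,z6,y4]),(z1,[z0,y1,y2,z2]),
    (z1,[y1,z2,z3,y1])],.ref k1 k3 [(z2,[y1,z0,z2])],.ref k4 k5 [(z1,[z1,z0,y1]),(z2,[y1,z1,z2])],.ref k31 k7 [(z1,
    [z2,y3,y4]),(z1,[y1,z1,z2]),(z1,[y1,z1,z1,z1])],.ref k32 k7 [(z2,[z1,y2,y2]),(z2,[y1,z0,z2]),(z2,[y1,z0,y2,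
    z4])],.ref k0 k1 [(z1,[z1])],.ref k1 k1 [(z2,[z1])],.ref k33 k7 [(z1,[z2,y3,y2,y2]),(z1,[y1,z1,z1,z1]),(z1,[y1,
    z1,z0,z2])],.ref k1 k3 [(z2,[y1,y1,y1,z2])],.ref k1 k4 [(z1,[y1,z0,z0,z1])],.ref k18 k8 [(z1,[z1,z0,z0,y1]),(z1,
    [y1,y1,y1,z2])],.ref k4 k5 [(z1,[z2,z1,z1,y2]),(z1,[y1,z0,z0,z1])],.contra [y2,z1,z2],.contra [z1,y1,y3,z2],.ref
    k34 k5 [(z1,[y2,z3,z9,y6]),(z1,[z1,y1,y4,z3]),(z1,[z0,y1,y2,z2])],.contra [y1,z0,z1],.ref k34 k5 [(z1,[z2,z3,z5,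
    y6]),(z1,[y1,y1,y2,z3]),(z1,[z0,y1,y2,z2])],.contra [y1,z0,z1],.ref k1 k6 [(z2,[y1,y1,y1,z2])],.ref k34 k5 [(z1,
    [z1,z3,z6,y6]),(z2,[y1,y2,y5,z6]),(z1,[z0,y1,y2,z2])],.contra [z1],.ref k34 k5 [(z1,[y2,z1,z3,y2]),(z1,[z1,z0,
    y1,z1]),(z1,[z0,y1,y2,z2])],.contra [y2,y1,y1,z2],.ref k26 k6 [(z1,[z1]),(z1,[y1,y1,y1,z2])],.contra [z1,z1,z1,
    y1],.contra [y1,y1,y2,z2],.ref k18 k8 [(z1,[y1,y1,y1,z1]),(z1,[z1])],.contra [z1],.ref k35 k7 [(z1,[y2,y3]),(z1,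
    [z1]),(z1,[z1,z0,y3,z3])],.contra [z1,z1],.contra [y2,y1,y1,z2],.ref k36 k6 [(z1,[z1,z2,z4,y4]),(z1,[z0,y1,y2,
    z2]),(z1,[z1,z2,z3,y3])],.contra [z1],.ref k18 k8 [(z2,[y1,y1]),(z2,[z1,y1,y2,z2])],.ref k37 k8 [(z2,[y1,y4]),
    (z2,[y1,y4,y8,z8]),(z1,[z0,z1,z1])]])))), .old [([z1,z0,z0,z1,z0],z2),([z0,z1,z0,z1,z0],z2)] (.z (.x (.old (.tor
    k5 false k4 [(z1,[z1]),(z1,[z0,z1]),(z1,[y1,y1,z2])]))))], [.old [([z3,z0,z0,z0,z0],z2),([z0,z1,z0,z0,z1],z2)]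
    (.z (.x (.old (.leafM k2 [k3,k0,k2] [(z1,[z1]),(z1,[y1,y3,z3])] [(k4,k1,z1,[z0,z1]),(k1,k4,z1,[z0,z1])])))),
    .old [([z1,z0,z1,z1,z0],z2),([z0,z3,z0,z0,z0],z1)] (.z (.x (.old (.leafM k4 [k3,k4,k0,k1,k2] [(z1,[y3,y1,z3]),
    (z1,[z0,z1])] [])))), .old [([z1,z0,z1,z1,z0],z2),([z0,z2,z0,z0,z0],z1)] (.z (.x (.old (.leafM k5 [k3,k4,k0,k1,
    k2] [(z1,[y2,y1,z2]),(z1,[z0,z1])] [])))), .old [([z1,z0,z0,z0,y6],y3),([z0,z1,z0,z0,y2],y1),([z0,z0,z1,z0,z6],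
    z5)] (.z (.x (.geo true z1 k4 [(y3,z6),(y1,z2),(z5,y6),(z2,y3),(z0,z1)] [(z1,[z1]),(z1,[z0,z1]),(z1,[z0,z0,z1]),
    (z1,[y1,y1,y1,z1]),(z1,[])] (Int.ofNat (nat_lit 524288)) (Int.ofNat (nat_lit 699051)) (.s (.s (.l k1) (.l k1))
    (.s (.l k2) (.l k1))) [⟨z3,z5,[[k0,k2,k1,k3,k4]],.child (.ref k10 k6 [(z1,[y1,y1,z1,z0,z1]),(z1,[z1,z0,y1,
    y1])])⟩]))), .old [([z1,z0,z0,z1,z0],z2)] (.z (.x (.old (.lp [(nat_lit 13377279413712013318850688),(nat_lit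
    6124403459183437741278736),(nat_lit 6059250230894252233392792),(nat_lit 11712651738920146796628840),(nat_lit
    6004497969771713809597074)] [k0,k0,(nat_lit 5464041288953526367479688),(nat_lit 1788834665575049210092264),
    (nat_lit 3659014591408880542728948),(nat_lit 3659014591408880542728948),(nat_lit 832313837395933261110924),
    (nat_lit 832313837395933261110924),(nat_lit 3686390721970149754626807),(nat_lit 3686390721970149754626807)] k0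
    [[k0,k0,(nat_lit 3506214517314283426175300),k0,k0,k0,(nat_lit 2202073751727873127414975)],[k0,k0,k0,k0,k0,
    (nat_lit 3801474687193380977853220)],[k0,k0,k0,k0,(nat_lit 777341909130126334484784),k0,k0,k0,(nat_lit
    2738503092196179661771040)],[k0,(nat_lit 3506214517314283426175300)],[(nat_lit 3801474687193380977853220)],[k0,
    k0,k0,(nat_lit 777341909130126334484784),k0,k0,k0,(nat_lit 2081499108261505434559400)],[k0,k0,k0,k0,(nat_lit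
    2081499108261505434559400)],[k0,(nat_lit 2202073751727873127414975)],[],[k0,k0,k0,(nat_lit
    2738503092196179661771040)]] (nat_lit 28891207622669695431684472) k8 [[(k2,(nat_lit 5174735032562307289599960)),
    (k8,(nat_lit 9690888691741863564223881)),(k4,(nat_lit 9718264822303132776121740)),(k6,(nat_lit
    12544965576316080057739764)),(k0,(nat_lit 13377279413712013318850688))],[(k5,(nat_lit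
    6212050304988849349946440)),(k9,(nat_lit 7488814940013990436808906)),(k3,(nat_lit 11588444748136964108758424)),
    (k1,(nat_lit 13377279413712013318850688)),(k7,(nat_lit 16346440263509461035592984))],[(k4,(nat_lit
    4127955469534702588176256)),(k8,(nat_lit 7902054026166814354131617)),(k2,(nat_lit 9630617976497721167454036)),
    (k0,(nat_lit 11588444748136964108758424)),(k6,(nat_lit 12958204662468903975062475))],[(k9,(nat_lit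
    4226847402788337196744193)),(k5,(nat_lit 4254223533349606408642052)),(k1,(nat_lit 5174735032562307289599960)),
    (k7,(nat_lit 6303582378232427355775292)),(k3,(nat_lit 9630617976497721167454036))],[(k2,(nat_lit
    4254223533349606408642052)),(k0,(nat_lit 6212050304988849349946440)),(k4,(nat_lit 6836592140024378567877576)),
    (k8,(nat_lit 8770377192529162683265973)),(k6,(nat_lit 8885950984907199515010816))],[(k3,(nat_lit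
    4127955469534702588176256)),(k5,(nat_lit 6836592140024378567877576)),(k9,(nat_lit 8113373208594488456054333)),
    (k7,(nat_lit 8885950984907199515010816)),(k1,(nat_lit 9718264822303132776121740))],[(k2,(nat_lit
    6303582378232427355775292)),(k8,(nat_lit 8858574854345930303112957)),(k4,(nat_lit 8885950984907199515010816)),
    (k6,(nat_lit 9631152630658641362069440)),(k0,(nat_lit 16346440263509461035592984))],[(k9,(nat_lit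
    8858574854345930303112957)),(k5,(nat_lit 8885950984907199515010816)),(k7,(nat_lit 9631152630658641362069440)),
    (k1,(nat_lit 12544965576316080057739764)),(k3,(nat_lit 12958204662468903975062475))],[(k2,(nat_lit
    4226847402788337196744193)),(k8,(nat_lit 6004497969771713809597074)),(k0,(nat_lit 7488814940013990436808906)),
    (k4,(nat_lit 8113373208594488456054333)),(k6,(nat_lit 8858574854345930303112957))],[(k9,(nat_lit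
    6004497969771713809597074)),(k3,(nat_lit 7902054026166814354131617)),(k5,(nat_lit 8770377192529162683265973)),
    (k7,(nat_lit 8858574854345930303112957)),(k1,(nat_lit 9690888691741863564223881))]] [] k0 [[k2,k0,k0,k0,k0],[k1,
    k1,k0,k0,k0],[k1,k2,k0,k0,k0],[k1,k2,k1,k0,k0],[k1,k1,k1,k0,k0],[k1,k2,k2,k0,k0],[k1,k1,k2,k0,k0],[k1,k1,k1,k0,
    k1],[k1,k1,k0,k0,k1],[k1,k2,k1,k0,k1],[k1,k1,k0,k0,k2],[k1,k0,k1,k0,k0],[k1,k0,k2,k0,k0],[k1,k0,k1,k0,k1],[k1,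
    k0,k1,k1,k0],[k1,k0,k0,k0,k1],[k1,k0,k0,k0,k2],[k0,k2,k0,k0,k0],[k0,k3,k1,k0,k0],[k0,k2,k1,k0,k0],[k0,k3,k2,k0,
    k0],[k0,k2,k2,k0,k0],[k0,k2,k1,k0,k1],[k0,k2,k0,k0,k1],[k0,k2,k0,k0,k2],[k0,k1,k1,k0,k0],[k0,k3,k3,k0,k0],[k0,
    k2,k3,k0,k0],[k0,k2,k2,k1,k0],[k0,k2,k2,k0,k1],[k0,k2,k1,k1,k0],[k0,k2,k1,k0,k2],[k0,k1,k2,k0,k0],[k0,k1,k3,k0,
    k0],[k0,k1,k2,k1,k0],[k0,k1,k2,k0,k1],[k0,k1,k1,k1,k0],[k0,k1,k1,k1,k1],[k0,k1,k1,k0,k1],[k0,k1,k1,k0,k2],[k0,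
    k1,k0,k1,k0],[k0,k1,k0,k1,k1],[k0,k1,k0,k0,k1],[k0,k1,k0,k0,k2],[k0,k1,k0,k0,k3],[k0,k0,k2,k0,k0],[k0,k0,k3,k0,
    k0],[k0,k0,k4,k0,k0],[k0,k0,k2,k1,k0],[k0,k0,k2,k0,k1],[k0,k0,k1,k1,k0],[k0,k0,k1,k2,k0],[k0,k0,k1,k1,k1],[k0,
    k0,k1,k0,k1],[k0,k0,k1,k0,k2],[k0,k0,k0,k2,k0],[k0,k0,k0,k2,k1],[k0,k0,k0,k1,k1],[k0,k0,k0,k1,k2],[k0,k0,k0,k0,
    k2],[k0,k0,k0,k0,k3],[k0,k0,k0,k0,k4]] [.contra [z1],.ref k0 k0 [(z1,[z1])],.ref k79 k5 [(z1,[z1,z0,y1])],.ref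
    k10 k9 [(z1,[y1,y1,z2]),(z1,[z1,z0,y1])],.ref k1 k3 [(z1,[y1,z0,z1])],.ref k79 k7 [(z1,[y1,y1,z1])],.ref k105 k6
    [(z1,[y1,z1]),(z1,[z0,y1,z1])],.contra [z1,z1,y1],.ref k1 k6 [(z1,[y1,z0,z1])],.ref k1 k0 [(z1,[z1,z1,y1])],.ref
    k10 k0 [(z1,[z1]),(z1,[y1,y1,z1])],.ref k44 k1 [(z1,[z1]),(z1,[z0,z1])],.ref k107 k6 [(z1,[y1,z1]),(z1,[z0,y1,
    z1])],.ref k98 k0 [(z1,[y1,y1,z1]),(z1,[z1])],.contra [z1,y1],.ref k0 k4 [(z1,[z1])],.ref k79 k3 [(z1,[z1,z0,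
    y1])],.contra [z1],.ref k102 k7 [(z1,[y1,y1,z1]),(z1,[z0,z1])],.contra [y1,y2,z2],.ref k106 k0 [(z1,[z1,z2,y2]),
    (z1,[y1,y3,z3])],.contra [y1,y2,z2],.contra [z1,z1,y1],.contra [y1,y2,z2],.contra [y1,y2,z2],.contra [y1,y2,z2],
    .ref k9 k0 [(z1,[z1]),(z1,[z0,z1])],.ref k106 k9 [(z1,[z1,z2,y2]),(z1,[y1,y3,z3])],.ref k79 k3 [(z1,[y1,y1,
    z1])],.contra [y1,y2,z2],.ref k105 k2 [(z1,[y1,z1]),(z1,[z0,y1,z1])],.contra [y1,y2,z2],.contra [y1,y2,z2],.ref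
    k102 k3 [(z1,[y1,y1,z1]),(z1,[z0,z1])],.ref k10 k0 [(z1,[y1,y1,z2]),(z1,[z1,z0,y1])],.contra [z1,z1,y1],.ref k1
    k4 [(z1,[y1,z0,z1])],.contra [y1,z0,z1],.contra [y2,y1,z2],.contra [z1,z1,y1],.ref k44 k4 [(z1,[z0,z1]),(z1,
    [z1])],.ref k98 k9 [(z1,[y1,y1,z1]),(z1,[z1])],.contra [y2,y1,z2],.contra [y1,y2,z2],.ref k94 k9 [(z1,[y1,y1,
    z1]),(z1,[z1])],.contra [z1],.ref k85 k9 [(z1,[z1]),(z1,[y1,y3,z3])],.ref k90 k9 [(z2,[z1]),(z2,[y1,y4,z4])],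
    .ref k79 k1 [(z1,[z1,z0,y1])],.contra [y1,y2,z2],.ref k0 k6 [(z1,[z1])],.ref k79 k8 [(z1,[z1,z0,y1])],.ref k1 k0
    [(z1,[y1,z0,z1])],.contra [y2,y1,z2],.contra [y1,y2,z2],.contra [y1,z2],.ref k79 k6 [(z1,[z1,z0,y1])],.ref k0 k3
    [(z1,[z1])],.ref k79 k7 [(z1,[z1,z0,y1])],.contra [z1],.ref k45 k3 [(z1,[z1]),(z1,[z0,z1])],.ref k8 k0 [(z2,[y1,
    y4,z4]),(z1,[z0,z1])]]))))]]

end Pool.Agent.Lib_MP_fa6e45
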