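import Pool.Agent.Lib_MP_fa6e45.RW0

/-!
MP_fa6e45_co, stage 9: raw data of certificates for the theorem T6 (generated by a program).
-/

namespace Pool.Agent.Lib_MP_fa6e45

/-- the nodes with numbers from 0 -/
noncomputable def r5_0_n0 : List RN :=
  [.t (nat_lit 0),.t (nat_lit 1),.t (nat_lit 2),.t (nat_lit 3),.t (nat_lit 4),.t (nat_lit 5),.g (nat_lit 1)
    (nat_lit 4) (nat_lit 0x100000000000000010000000600000002) (nat_lit 0x90000000a000000080000000000000005)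
    (nat_lit 8) (nat_lit 0x14046000009a0) [nat_lit 5033985,nat_lit 626022,nat_lit 533893,nat_lit 107261,
    nat_lit 10489858],.g (nat_lit 3) (nat_lit 4) (nat_lit 0x500000002000000010000000000000003)
    (nat_lit 0x300000006000000060000000600000000) (nat_lit 6) (nat_lit 0x1404600000630) [nat_lit 2797568,
    nat_lit 2926027,nat_lit 2420264,nat_lit 256948,nat_lit 8392705],.t (nat_lit 6),.t (nat_lit 7),.t (nat_lit 8),.t
    (nat_lit 9),.t (nat_lit 10),.g (nat_lit 1) (nat_lit 4) (nat_lit 0x400000003000000000000000500000006)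
    (nat_lit 0x5000000060000000a0000000200000000) (nat_lit 5) (nat_lit 0x14046000009a0) [nat_lit 5033984,
    nat_lit 642182,nat_lit 255785,nat_lit 369458,nat_lit 10489858],.g (nat_lit 1) (nat_lit 3)
    (nat_lit 0x500000006000000050000000300000000) (nat_lit 0x200000000000000010000000400000008) (nat_lit 2)
    (nat_lit 0x1404600000790) [nat_lit 4198401,nat_lit 802944,nat_lit 598571,nat_lit 11186176],.g (nat_lit 1)
    (nat_lit 4) (nat_lit 0x100000000000000010000000400000001) (nat_lit 0x500000006000000040000000000000003)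
    (nat_lit 4) (nat_lit 0x1404600000580) [nat_lit 5591041,nat_lit 1003060,nat_lit 248226,nat_lit 1180470,
    nat_lit 376986,nat_lit 8392706],.g (nat_lit 1) (nat_lit 4) (nat_lit 0x300000002000000000000000300000004)
    (nat_lit 0x400000005000000080000000200000000) (nat_lit 4) (nat_lit 0x1404600000790) [nat_lit 4198400,
    nat_lit 789856,nat_lit 166083,nat_lit 451535,nat_lit 11186178],.g (nat_lit 3) (nat_lit 3)
    (nat_lit 0x400000003000000000000000300000002) (nat_lit 0x300000003000000060000000000000000) (nat_lit 3)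
    (nat_lit 0x1404600000630) [nat_lit 2797568,nat_lit 3032821,nat_lit 1041158,nat_lit 1527403,nat_lit 8392706],.l
    (nat_lit 13) (nat_lit 1680) (nat_lit 4)
    (nat_lit 0x2640000026400000205000002050000025800000258000001ed000001ed0000023100000231)
    (nat_lit 0x5f0000005f0000000c0000000c00000077000000770000003300000033)
    (nat_lit 0x1431a4040a69012c1a403766901189a40d202863480814d200f03480974d202311029a4061c6900c49a4031c6900d81a40d202053480c38d201f93480638d201d20781a403f26901261a403c26901129a40d202583480624d2024c3480784d2012312e9a4031c6900f09a404f06900dd1a40d201bb3480638d201e134809e0d201ba1189a403a46900919a403746901181a40d2023134806c0d2022534806e8d20230)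
    (nat_lit 0x1431a40d206903481a40d206903481a40d202863481a40d206903481a40d206901029a4061c6903481a40d206903481a40d202053480c38d206903481a40d2069012c1a403126901261a40d206903481a40d200f034807e4d2024c3481a40d206900dd9a4031c6900f09a404f06903481a40d2025d3480638d201e134809e0d206901189a403606901129a403746901181a40d202133480748d2012334806e8d20230)
    (nat_lit 4) [[nat_lit 2,nat_lit 18,nat_lit 258,nat_lit 0x1002,nat_lit 0x10102,nat_lit 17,nat_lit 33,nat_lit 273,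
    nat_lit 0x1011,nat_lit 0x1111,nat_lit 0x10011,nat_lit 0x10111,nat_lit 257,nat_lit 513,nat_lit 0x1101,
    nat_lit 0x1001,nat_lit 0x11001,nat_lit 0x11101,nat_lit 0x10001,nat_lit 0x10101],[nat_lit 32,nat_lit 288,
    nat_lit 0x1020,nat_lit 272,nat_lit 528,nat_lit 0x1110,nat_lit 0x1010,nat_lit 0x2020,nat_lit 0x2010,
    nat_lit 0x11010,nat_lit 0x11110,nat_lit 0x10010,nat_lit 0x10110],[nat_lit 512,nat_lit 0x1200,nat_lit 0x10200,
    nat_lit 0x1100,nat_lit 0x11100,nat_lit 0x10100,nat_lit 0x20100],[nat_lit 0x2000,nat_lit 0x11000],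
    [nat_lit 0x20000]] [.c (nat_lit 1) (nat_lit 2),.c (nat_lit 4) (nat_lit 0x3502),.c (nat_lit 5) (nat_lit 0x2332),
    .r (nat_lit 5) (nat_lit 4) [nat_lit 33,nat_lit 0x20001],.r (nat_lit 17) (nat_lit 4) [nat_lit 0x23321,
    nat_lit 0x77601,nat_lit 0x24451],.c (nat_lit 0) (nat_lit 547),.r (nat_lit 16) (nat_lit 4) [nat_lit 0x53021,
    nat_lit 0x62251,nat_lit 0x20001],.c (nat_lit 0) (nat_lit 547),.r (nat_lit 15) (nat_lit 3) [nat_lit 0x33201,
    nat_lit 0x35041,nat_lit 0x24031],.c (nat_lit 5) (nat_lit 35),.c (nat_lit 4) (nat_lit 0x3302),.c (nat_lit 4)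
    (nat_lit 35),.c (nat_lit 0) (nat_lit 547),.r (nat_lit 14) (nat_lit 5) [nat_lit 0x33201,nat_lit 0x42521,
    nat_lit 0x44521],.c (nat_lit 5) (nat_lit 0x2032),.c (nat_lit 0) (nat_lit 0x3045),.r (nat_lit 1) (nat_lit 1)
    [nat_lit 561],.c (nat_lit 2) (nat_lit 35),.c (nat_lit 0) (nat_lit 0x2225),.r (nat_lit 3) (nat_lit 4)
    [nat_lit 0x22321,nat_lit 561],.c (nat_lit 2) (nat_lit 2),.r (nat_lit 1) (nat_lit 4) [nat_lit 0x22232],.r
    (nat_lit 13) (nat_lit 4) [nat_lit 0x50021,nat_lit 0x63251,nat_lit 0x20001],.c (nat_lit 0) (nat_lit 547),.r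
    (nat_lit 3) (nat_lit 5) [nat_lit 0x22321,nat_lit 0x30432],.r (nat_lit 1) (nat_lit 4) [nat_lit 561],.r
    (nat_lit 12) (nat_lit 4) [nat_lit 0x32021,nat_lit 0x20001,nat_lit 0x23251],.r (nat_lit 3) (nat_lit 4)
    [nat_lit 0x44032,nat_lit 34],.r (nat_lit 1) (nat_lit 0) [nat_lit 0x24022],.r (nat_lit 1) (nat_lit 0)
    [nat_lit 0x2021],.c (nat_lit 1) (nat_lit 35),.c (nat_lit 0) (nat_lit 0x2225),.r (nat_lit 3) (nat_lit 5)
    [nat_lit 0x2341,nat_lit 561],.c (nat_lit 3) (nat_lit 2),.r (nat_lit 7) (nat_lit 4) [nat_lit 0x55431,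
    nat_lit 0x22341,nat_lit 0x60001],.r (nat_lit 6) (nat_lit 3) [nat_lit 0x33201,nat_lit 0x79851,nat_lit 0x46521],.c
    (nat_lit 0) (nat_lit 0x3045),.r (nat_lit 1) (nat_lit 0) [nat_lit 561],.r (nat_lit 2) (nat_lit 1)
    [nat_lit 0x33341,nat_lit 561],.r (nat_lit 1) (nat_lit 0) [nat_lit 0x22232],.c (nat_lit 4) (nat_lit 2),.c
    (nat_lit 1) (nat_lit 514),.c (nat_lit 5) (nat_lit 2)],.t (nat_lit 11),.t (nat_lit 12),.t (nat_lit 13),.t
    (nat_lit 14),.t (nat_lit 15),.t (nat_lit 16),.t (nat_lit 17),.t (nat_lit 18),.t (nat_lit 19),.t (nat_lit 20),.t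
    (nat_lit 21),.t (nat_lit 22),.t (nat_lit 23),.t (nat_lit 24),.t (nat_lit 25),.t (nat_lit 26),.t (nat_lit 27),.t
    (nat_lit 28),.t (nat_lit 29),.t (nat_lit 30),.g (nat_lit 1) (nat_lit 2)
    (nat_lit 0x100000000000000010000000000000001) (nat_lit 0x300000005000000010000000200000000) (nat_lit 2)
    (nat_lit 0x14046000004d0) [nat_lit 2797568,nat_lit 427355,nat_lit 330188,nat_lit 649680,nat_lit 12587011],.g
    (nat_lit 1) (nat_lit 2) (nat_lit 0x300000000000000050000000400000005)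
    (nat_lit 0x500000009000000010000000200000000) (nat_lit 2) (nat_lit 0x14046000008f0) [nat_lit 5033984,
    nat_lit 713592,nat_lit 82464,nat_lit 9012,nat_lit 9474,nat_lit 26718,nat_lit 272580,nat_lit 157671,
    nat_lit 10489859],.g (nat_lit 2) (nat_lit 1) (nat_lit 0x600000005000000060000000200000000)
    (nat_lit 0x200000002000000000000000400000006) (nat_lit 2) (nat_lit 0x1404600000580) [nat_lit 4198402,
    nat_lit 1672206,nat_lit 99217,nat_lit 26275,nat_lit 174581,nat_lit 1616152,nat_lit 616279,nat_lit 8392704],.g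
    (nat_lit 1) (nat_lit 2) (nat_lit 0x200000000000000030000000200000003)
    (nat_lit 0x400000007000000010000000200000000) (nat_lit 2) (nat_lit 0x14046000006e0) [nat_lit 4198400,
    nat_lit 713809,nat_lit 157461,nat_lit 534695,nat_lit 11186179],.l (nat_lit 10) (nat_lit 240) (nat_lit 3)
    (nat_lit 0x52000000520000005000000050000000580000005800000048000000480000005c00000053)
    (nat_lit 0xa0000000a0000000c0000000c000000040000000400000014000000140000000900000000)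
    (nat_lit 0x14cf015cf0138f00f0f0124f03c0533c0463c03c3c03c3c052118f0158f0138f00f0f00f0f03c0573c0563c04c3c03c3c03c0f0f0130f0150f0160f00f8f03c04e3c04e3c0543c0443c03c0f0f00f0f0110f0140f00fcf03c03c3c03c3c0583c0503c048148f00f0f00f0f0120f0154f03c0493c03c3c03e3c03f3c055)
    (nat_lit 0x14cf03c0f03c0f03c0f03c0f03c0533c0f03c0f03c0f03c0f015cf0158f03c0f03c0f03c0f03c0463c0563c0f03c0f03c0f0138f0138f0150f03c0f03c0f03c03c3c04c3c0543c0f03c0f00f0f00f0f0160f0140f03c0f03c03c3c03c3c0443c0503c0f0124f00f0f00f8f00fcf0154f03c0523c03c3c03c3c0483c055)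
    (nat_lit 3) [[nat_lit 2,nat_lit 18,nat_lit 258,nat_lit 0x1002,nat_lit 17,nat_lit 33,nat_lit 273,nat_lit 0x1011,
    nat_lit 0x10011,nat_lit 257,nat_lit 513,nat_lit 0x1101,nat_lit 0x10101,nat_lit 0x1001,nat_lit 0x2001,
    nat_lit 0x11001,nat_lit 0x10001,nat_lit 0x20001],[nat_lit 32,nat_lit 288,nat_lit 0x1020,nat_lit 0x10020,
    nat_lit 272,nat_lit 0x1110,nat_lit 0x10110,nat_lit 0x1010,nat_lit 0x2010,nat_lit 0x11010,nat_lit 0x10010,
    nat_lit 0x20010],[nat_lit 512,nat_lit 0x1200,nat_lit 0x10200,nat_lit 0x1100,nat_lit 0x11100,nat_lit 0x10100,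
    nat_lit 0x20100],[nat_lit 0x2000,nat_lit 0x11000],[nat_lit 0x20000]] [.c (nat_lit 1) (nat_lit 2),.c (nat_lit 5)
    (nat_lit 0x742),.r (nat_lit 18) (nat_lit 0) [nat_lit 0x2419,nat_lit 17],.c (nat_lit 3) (nat_lit 0x4da),.c
    (nat_lit 0) (nat_lit 0x495),.r (nat_lit 42) (nat_lit 4) [nat_lit 0x5611,nat_lit 0x64a9,nat_lit 0x2001],.c
    (nat_lit 5) (nat_lit 0x6c2),.c (nat_lit 0) (nat_lit 147),.r (nat_lit 1) (nat_lit 6) [nat_lit 153],.c (nat_lit 0)
    (nat_lit 0x495),.r (nat_lit 38) (nat_lit 7) [nat_lit 0x5a11,nat_lit 0x2499],.r (nat_lit 4) (nat_lit 6)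
    [nat_lit 0x36e1,nat_lit 153],.r (nat_lit 41) (nat_lit 0) [nat_lit 0x411,nat_lit 0x611,nat_lit 0x5129],.c
    (nat_lit 0) (nat_lit 147),.r (nat_lit 18) (nat_lit 3) [nat_lit 0x3099,nat_lit 17],.c (nat_lit 3)
    (nat_lit 0x41a),.c (nat_lit 0) (nat_lit 0x625),.r (nat_lit 26) (nat_lit 1) [nat_lit 0x2001,nat_lit 0x3119],.c
    (nat_lit 2) (nat_lit 2),.r (nat_lit 26) (nat_lit 3) [nat_lit 0x3681,nat_lit 0x2499],.r (nat_lit 3) (nat_lit 3)
    [nat_lit 0x7692,nat_lit 0x249a],.r (nat_lit 40) (nat_lit 4) [nat_lit 0x5011,nat_lit 0x66a9,nat_lit 0x2001],.c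
    (nat_lit 0) (nat_lit 0x403),.r (nat_lit 1) (nat_lit 4) [nat_lit 153],.r (nat_lit 1) (nat_lit 0) [nat_lit 0x411],
    .c (nat_lit 0) (nat_lit 147),.r (nat_lit 1) (nat_lit 4) [nat_lit 0x311a],.r (nat_lit 3) (nat_lit 3)
    [nat_lit 0x3011,nat_lit 153],.r (nat_lit 39) (nat_lit 4) [nat_lit 0x3011,nat_lit 0x26a9,nat_lit 0x2001],.r
    (nat_lit 1) (nat_lit 0) [nat_lit 0x2812],.c (nat_lit 3) (nat_lit 2),.r (nat_lit 1) (nat_lit 0) [nat_lit 0x249a],
    .r (nat_lit 3) (nat_lit 3) [nat_lit 0x3699,nat_lit 0x411],.r (nat_lit 0) (nat_lit 6) [nat_lit 17],.r (nat_lit 1)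
    (nat_lit 0) [nat_lit 153],.c (nat_lit 1) (nat_lit 130),.r (nat_lit 1) (nat_lit 4) [nat_lit 0x411],.c (nat_lit 4)
    (nat_lit 2),.c (nat_lit 0) (nat_lit 0x625),.c (nat_lit 5) (nat_lit 2)],.t (nat_lit 31),.t (nat_lit 32),.g
    (nat_lit 1) (nat_lit 2) (nat_lit 0x100000000000000020000000100000002)
    (nat_lit 0x400000006000000010000000200000000) (nat_lit 2) (nat_lit 0x1404600000630) [nat_lit 4198400,
    nat_lit 314396,nat_lit 327916,nat_lit 205007,nat_lit 11743235],.g (nat_lit 1) (nat_lit 4)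
    (nat_lit 0x100000000000000030000000100000002) (nat_lit 0x400000005000000010000000300000000) (nat_lit 3)
    (nat_lit 0x1404600000580) [nat_lit 4198400,nat_lit 494046,nat_lit 910586,nat_lit 11186177],.g (nat_lit 1)
    (nat_lit 4) (nat_lit 0x100000000000000030000000100000002) (nat_lit 0x600000007000000010000000300000000)
    (nat_lit 3) (nat_lit 0x1404600000840) [nat_lit 4198402,nat_lit 954236,nat_lit 404288,nat_lit 51266,
    nat_lit 11186176],.g (nat_lit 2) (nat_lit 4) (nat_lit 0x200000000000000020000000000000000)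
    (nat_lit 0x600000008000000020000000500000000) (nat_lit 5) (nat_lit 0x1404600000840) [nat_lit 823043,
    nat_lit 503053,nat_lit 281264,nat_lit 296901,nat_lit 648514,nat_lit 820070,nat_lit 13422593],.g (nat_lit 1)
    (nat_lit 4) (nat_lit 0x100000000000000030000000100000002) (nat_lit 0x600000007000000010000000400000000)
    (nat_lit 4) (nat_lit 0x1404600000840) [nat_lit 2797568,nat_lit 314388,nat_lit 280579,nat_lit 722059,
    nat_lit 90874,nat_lit 12587009],.g (nat_lit 5) (nat_lit 2) (nat_lit 0x800000007000000050000000000000001)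
    (nat_lit 0xa000000050000000a00000000) (nat_lit 5) (nat_lit 0x1404600000dc0) [nat_lit 2179455,nat_lit 1409112,
    nat_lit 786791,nat_lit 664310,nat_lit 11743233],.g (nat_lit 1) (nat_lit 4)
    (nat_lit 0x100000000000000010000000200000001) (nat_lit 0x400000005000000030000000000000002) (nat_lit 3)
    (nat_lit 0x14046000004d0) [nat_lit 4198400,nat_lit 928722,nat_lit 238902,nat_lit 238377,nat_lit 11186178],.g
    (nat_lit 1) (nat_lit 2) (nat_lit 0x100000000000000010000000000000000)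
    (nat_lit 0x600000008000000020000000300000000) (nat_lit 3) (nat_lit 0x1404600000840) [nat_lit 413550,
    nat_lit 249568,nat_lit 143286,nat_lit 147850,nat_lit 311885,nat_lit 647422,nat_lit 601641,nat_lit 305637,
    nat_lit 13979648],.l (nat_lit 16) (nat_lit 13440) (nat_lit 6)
    (nat_lit 0x16d0000015860000119c00001d5a000017b3000017b300001322000013220000183f0000183f)
    (nat_lit 0x7d40000068a0000000000000bbe000005a7000005a700000a3800000a380000051b0000051b)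
    (nat_lit 0x11f0348007803480137534800c98348011b53480348011f0348009c834800fdf34800b4e3480104f09c83480119c34800bf5348007803480098d3480348007803480119c348017b3348014023480185b0fdf348017b33480112c34800d5f348021e834803480137534800bf53480112c34800d7b348012980b4e3480140234800d7b348008ea34800bbb348034800c983480078034800d5f348008ea34800e07104f3480185b3480129834800e07348013243480348011b53480098d348021e834800bbb34801324)
    (nat_lit 0x11f0348034803480348034803480348034803480348011f0348034803480348034803480348034800780348011483480348034803480348034803480348009c834801148348034803480348034803480137534800bf53480112c3480348034803480348034800fdf3480175f3480112c34803480348034800c983480078034800d5f348008ea34803480348034800b4e348012ce34800d7b348008ea34803480110d3480098d3480191a34800bbb3480132434803480104f348017cf3480129834800e0734801324)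
    (nat_lit 5) [[nat_lit 2,nat_lit 18,nat_lit 17,nat_lit 34,nat_lit 33,nat_lit 49,nat_lit 0x11021,nat_lit 0x10021,
    nat_lit 273,nat_lit 0x1011,nat_lit 0x11011,nat_lit 0x10011,nat_lit 0x1001,nat_lit 0x1101,nat_lit 0x2001,
    nat_lit 0x12001,nat_lit 0x11001,nat_lit 0x11101,nat_lit 0x22001,nat_lit 0x21001,nat_lit 0x10001,nat_lit 0x10101,
    nat_lit 0x20001],[nat_lit 32,nat_lit 48,nat_lit 64,nat_lit 80,nat_lit 0x10040,nat_lit 304,nat_lit 0x1030,
    nat_lit 0x11030,nat_lit 0x10030,nat_lit 288,nat_lit 0x1020,nat_lit 0x11020,nat_lit 0x10020,nat_lit 0x10120,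
    nat_lit 0x21020,nat_lit 0x20020,nat_lit 272,nat_lit 528,nat_lit 0x1110,nat_lit 0x11110,nat_lit 0x10110,
    nat_lit 0x1010,nat_lit 0x2010,nat_lit 0x12010,nat_lit 0x11010,nat_lit 0x22010,nat_lit 0x21010,nat_lit 0x10010,
    nat_lit 0x20010],[nat_lit 512,nat_lit 768,nat_lit 0x1100,nat_lit 0x11100,nat_lit 0x10100],[nat_lit 0x2000,
    nat_lit 0x12000,nat_lit 0x23000,nat_lit 0x11000,nat_lit 0x22000,nat_lit 0x33000,nat_lit 0x21000],
    [nat_lit 0x20000]] [.c (nat_lit 1) (nat_lit 2),.r (nat_lit 26) (nat_lit 6) [nat_lit 0x318801,nat_lit 0x210861],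
    .c (nat_lit 0) (nat_lit 0x20803),.r (nat_lit 1) (nat_lit 0) [nat_lit 66],.c (nat_lit 0) (nat_lit 0x20803),.r
    (nat_lit 53) (nat_lit 1) [nat_lit 0x518041,nat_lit 0xc300a1,nat_lit 0x610061],.r (nat_lit 1) (nat_lit 0)
    [nat_lit 0x300041],.c (nat_lit 0) (nat_lit 0x20803),.c (nat_lit 0) (nat_lit 0x10062),.r (nat_lit 52) (nat_lit 3)
    [nat_lit 0x318801,nat_lit 0x18041,nat_lit 0x10001],.c (nat_lit 1) (nat_lit 0x18002),.c (nat_lit 4)
    (nat_lit 0x18c02),.r (nat_lit 44) (nat_lit 1) [nat_lit 0x300801,nat_lit 65],.c (nat_lit 0) (nat_lit 0x208a4),.c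
    (nat_lit 1) (nat_lit 0x802),.r (nat_lit 43) (nat_lit 0) [nat_lit 0x200061,nat_lit 0x318801],.r (nat_lit 1)
    (nat_lit 1) [nat_lit 0x861],.c (nat_lit 2) (nat_lit 67),.r (nat_lit 1) (nat_lit 4) [nat_lit 0x10042],.r
    (nat_lit 10) (nat_lit 6) [nat_lit 0x200861,nat_lit 0xc41],.c (nat_lit 0) (nat_lit 0x10845),.c (nat_lit 0)
    (nat_lit 0x10062),.c (nat_lit 0) (nat_lit 0x20803),.c (nat_lit 2) (nat_lit 2),.r (nat_lit 45) (nat_lit 0)
    [nat_lit 65,nat_lit 0x300801],.r (nat_lit 8) (nat_lit 6) [nat_lit 0x800062,nat_lit 0x300801],.r (nat_lit 51)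
    (nat_lit 5) [nat_lit 0x1f5a881,nat_lit 0xa00061,nat_lit 0x14500a1],.r (nat_lit 50) (nat_lit 2)
    [nat_lit 0x718881,nat_lit 0x200061,nat_lit 65],.r (nat_lit 49) (nat_lit 2) [nat_lit 129,nat_lit 0x318861,
    nat_lit 0x610c41],.r (nat_lit 48) (nat_lit 1) [nat_lit 0x10081,nat_lit 0x200061,nat_lit 65],.r (nat_lit 8)
    (nat_lit 6) [nat_lit 0x600061,nat_lit 0x300801],.r (nat_lit 47) (nat_lit 2) [nat_lit 0x718881,nat_lit 0x200061,
    nat_lit 65],.r (nat_lit 1) (nat_lit 4) [nat_lit 0x210862],.c (nat_lit 0) (nat_lit 0x20003),.c (nat_lit 2)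
    (nat_lit 0x18002),.c (nat_lit 0) (nat_lit 0x20003),.r (nat_lit 43) (nat_lit 0) [nat_lit 0xc41,nat_lit 0x318801],
    .c (nat_lit 0) (nat_lit 0x40805),.c (nat_lit 0) (nat_lit 0x20803),.r (nat_lit 0) (nat_lit 1) [nat_lit 65],.r
    (nat_lit 46) (nat_lit 0) [nat_lit 0x10001,nat_lit 0x329061,nat_lit 0x318801],.r (nat_lit 1) (nat_lit 4)
    [nat_lit 0x861],.c (nat_lit 1) (nat_lit 67),.r (nat_lit 4) (nat_lit 1) [nat_lit 0x318c81,nat_lit 0x861],.c
    (nat_lit 0) (nat_lit 0x10c45),.c (nat_lit 0) (nat_lit 0x20003),.c (nat_lit 4) (nat_lit 0x18002),.c (nat_lit 0)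
    (nat_lit 0x10045),.c (nat_lit 0) (nat_lit 0x20003),.c (nat_lit 5) (nat_lit 0x18002),.c (nat_lit 0)
    (nat_lit 0x10845),.c (nat_lit 0) (nat_lit 0x20803),.c (nat_lit 1) (nat_lit 0x28083),.r (nat_lit 44) (nat_lit 1)
    [nat_lit 0x300801,nat_lit 0x719862],.c (nat_lit 0) (nat_lit 0x28c85),.r (nat_lit 1) (nat_lit 0) [nat_lit 0x861],
    .r (nat_lit 2) (nat_lit 1) [nat_lit 0x318c81,nat_lit 0x861],.c (nat_lit 4) (nat_lit 2),.c (nat_lit 0)
    (nat_lit 0x10c45),.r (nat_lit 10) (nat_lit 6) [nat_lit 0x218861,nat_lit 0x10c41],.c (nat_lit 0)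
    (nat_lit 0x10045),.c (nat_lit 0) (nat_lit 0x20003),.r (nat_lit 9) (nat_lit 6) [nat_lit 65,nat_lit 0x300801],.c
    (nat_lit 0) (nat_lit 0x40805),.c (nat_lit 5) (nat_lit 2)],.t (nat_lit 33),.t (nat_lit 34),.l (nat_lit 24)
    (nat_lit 2860320) (nat_lit 4)
    (nat_lit 0xc74ff000c74ff000e8c60000e8c60000e8c60000e8c60000cd280000cd280000e8c60000e8c60)
    (nat_lit 0x2176100021761000000000000000000000000000000000001b9e00001b9e00000000000000000)
    (nat_lit 0xa5d9e2ba5200b008f2ba5200ea3a72ba5200abb1f2ba5200c74ff2ba5202ba5200a5d9e2ba5200c74ff2ba5200b008f2ba5200c2f8f2ba5200c74ff0c74ff2ba5201000d02ba5200d17f02ba5200cd2802ba5200e8c602ba5202ba5200b008f2ba5201000d02ba5200e8c602ba520095d802ba5200e8c600b008f2ba5200e8c602ba5201201602ba5200cd2802ba5201000d02ba5202ba5200ea3a72ba5200d17f02ba5201201602ba5200cd2802ba5200e8c600c2f8f2ba520095d802ba5200cd2802ba5200b18a02ba5200aa3d82ba5202ba5200abb1f2ba5200cd2802ba5200cd2802ba5200b18a02ba5200cd2800c74ff2ba5200e8c602ba5200e8c602ba5200cd2802ba5200e8c602ba5202ba5200c74ff2ba5200e8c602ba5201000d02ba5200aa3d82ba5200e8c60)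
    (nat_lit 0xa5d9e2ba5202ba5202ba5202ba5202ba5202ba5202ba5202ba5202ba5202ba5200a5d9e2ba5202ba5202ba5202ba5202ba5202ba5202ba5202ba5200b008f2ba5201000d02ba5202ba5202ba5202ba5202ba5202ba5202ba5202ba5200c74ff2ba5201000d02ba5202ba5202ba5202ba5202ba5202ba5200ea3a72ba5200d17f02ba5201201602ba5202ba5202ba5202ba5202ba5202ba5200b008f2ba5200e8c602ba5201201602ba5202ba5202ba5202ba5200abb1f2ba5200cd2802ba5200cd2802ba5200b18a02ba5202ba5202ba5202ba5200c2f8f2ba520095d802ba5200cd2802ba5200b18a02ba5202ba5200c74ff2ba5200e8c602ba5201000d02ba5200aa3d82ba5200e8c602ba5202ba5200c74ff2ba5200e8c602ba5200e8c602ba5200cd2802ba5200e8c60)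
    (nat_lit 4) [[nat_lit 2,nat_lit 18,nat_lit 0x10002,nat_lit 17,nat_lit 33,nat_lit 273,nat_lit 0x1011,
    nat_lit 0x10011,nat_lit 257,nat_lit 0x10101,nat_lit 0x1001,nat_lit 0x11001,nat_lit 0x10001,nat_lit 0x20001],
    [nat_lit 32,nat_lit 48,nat_lit 288,nat_lit 0x1020,nat_lit 0x10020,nat_lit 272,nat_lit 0x1110,nat_lit 0x10110,
    nat_lit 0x1010,nat_lit 0x2010,nat_lit 0x11010,nat_lit 0x10010,nat_lit 0x20010,nat_lit 0x21010],[nat_lit 512,
    nat_lit 0x1100,nat_lit 0x11100,nat_lit 0x10100,nat_lit 0x20100],[nat_lit 0x2000,nat_lit 0x12000,nat_lit 0x11000,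
    nat_lit 0x21000],[nat_lit 0x20000,nat_lit 0x30000,nat_lit 0x40000]] [.c (nat_lit 1) (nat_lit 2),.r (nat_lit 26)
    (nat_lit 6) [nat_lit 0x33201,nat_lit 0x22231],.r (nat_lit 1) (nat_lit 1) [nat_lit 0x2231],.c (nat_lit 0)
    (nat_lit 0x2225),.r (nat_lit 3) (nat_lit 6) [nat_lit 0x30231,nat_lit 0x20001],.r (nat_lit 1) (nat_lit 4)
    [nat_lit 0x2231],.r (nat_lit 26) (nat_lit 6) [nat_lit 0x33201,nat_lit 0x20231],.c (nat_lit 1) (nat_lit 0x3002),
    .c (nat_lit 0) (nat_lit 0x3223),.r (nat_lit 1) (nat_lit 0) [nat_lit 0x2231],.c (nat_lit 1) (nat_lit 514),.r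
    (nat_lit 1) (nat_lit 1) [nat_lit 561],.c (nat_lit 0) (nat_lit 0x2225),.r (nat_lit 3) (nat_lit 9)
    [nat_lit 0x30231,nat_lit 0x20001],.c (nat_lit 2) (nat_lit 2),.r (nat_lit 55) (nat_lit 2) [nat_lit 0x30201,
    nat_lit 0x60031],.r (nat_lit 1) (nat_lit 4) [nat_lit 0x22232],.r (nat_lit 3) (nat_lit 6) [nat_lit 0x33231,
    nat_lit 0x20001],.c (nat_lit 2) (nat_lit 0x3002),.r (nat_lit 0) (nat_lit 1) [nat_lit 33],.r (nat_lit 1)
    (nat_lit 4) [nat_lit 561],.c (nat_lit 3) (nat_lit 0x3002),.c (nat_lit 0) (nat_lit 0x2325),.r (nat_lit 26)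
    (nat_lit 6) [nat_lit 0x33201,nat_lit 0x23231],.c (nat_lit 1) (nat_lit 0x3202),.c (nat_lit 0) (nat_lit 0x2225),.c
    (nat_lit 5) (nat_lit 0x3002),.r (nat_lit 1) (nat_lit 4) [nat_lit 0x32021],.c (nat_lit 3) (nat_lit 2),.c
    (nat_lit 0) (nat_lit 0x3023),.r (nat_lit 1) (nat_lit 0) [nat_lit 561],.r (nat_lit 2) (nat_lit 1)
    [nat_lit 0x33341,nat_lit 561],.r (nat_lit 1) (nat_lit 0) [nat_lit 0x22232],.c (nat_lit 1) (nat_lit 0x402),.r
    (nat_lit 1) (nat_lit 1) [nat_lit 0x3231],.c (nat_lit 0) (nat_lit 0x2325),.r (nat_lit 3) (nat_lit 9)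
    [nat_lit 0x33231,nat_lit 0x20001],.c (nat_lit 5) (nat_lit 2),.r (nat_lit 55) (nat_lit 4) [nat_lit 0x30201,
    nat_lit 0x60031],.r (nat_lit 56) (nat_lit 4) [nat_lit 0x30201,nat_lit 0x80032]],.g (nat_lit 1) (nat_lit 4)
    (nat_lit 0x400000003000000000000000100000006) (nat_lit 0x5000000060000000a0000000800000000) (nat_lit 6)
    (nat_lit 0x14046000008f0) [nat_lit 5033984,nat_lit 576899,nat_lit 509659,nat_lit 181227,nat_lit 10489857],.g
    (nat_lit 1) (nat_lit 4) (nat_lit 0x100000000000000010000000400000002)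
    (nat_lit 0x600000007000000050000000000000002) (nat_lit 5) (nat_lit 0x1404600000790) [nat_lit 4198400,
    nat_lit 1089572,nat_lit 510782,nat_lit 926903,nat_lit 10063874],.g (nat_lit 1) (nat_lit 4)
    (nat_lit 0x100000000000000050000000600000003) (nat_lit 0x90000000a000000020000000000000004) (nat_lit 4)
    (nat_lit 0x1404600000bb0) [nat_lit 5033984,nat_lit 642576,nat_lit 118356,nat_lit 401879,nat_lit 106726,
    nat_lit 10489859],.l (nat_lit 12) (nat_lit 720) (nat_lit 4)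
    (nat_lit 0xd1000000d10000011c0000011c000000e3000000e30000011000000110000000ff000000ff)
    (nat_lit 0x4b0000004b000000000000000000000039000000390000000c0000000c0000001d0000001d)
    (nat_lit 0xf02d00d12d00d62d00a52d00b42d02d00f02d00d12d00782d00dd2d00b40d12d013c2d00cb2d01102d00952d02d00d12d013c2d00e32d00982d00ff0782d00e32d01222d00d72d00c62d02d00d62d00cb2d01222d00d72d00a20dd2d00982d00d72d01282d00b52d02d00a52d01102d00d72d01282d00f30b42d00ff2d00a22d00f32d01022d02d00b42d00952d00c62d00b52d0102)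
    (nat_lit 0xf02d02d02d02d02d02d02d02d02d02d00f02d02d02d02d02d02d02d02d00d12d013c2d02d02d02d02d02d02d02d00d12d013c2d02d02d02d02d02d00d62d00cb2d01222d02d02d02d02d02d00782d00e32d01222d02d02d02d00a52d01102d00d72d01282d02d02d02d00dd2d00982d00d72d01282d02d00b42d00952d00c62d00b52d01022d02d00b42d00ff2d00a22d00f32d0102)
    (nat_lit 4) [[nat_lit 2,nat_lit 18,nat_lit 258,nat_lit 0x1002,nat_lit 0x10002,nat_lit 17,nat_lit 273,
    nat_lit 0x1011,nat_lit 0x10011,nat_lit 0x10111,nat_lit 257,nat_lit 513,nat_lit 0x1101,nat_lit 0x10101,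
    nat_lit 0x10201,nat_lit 0x1001,nat_lit 0x1111,nat_lit 0x11011,nat_lit 0x11001,nat_lit 0x11101,nat_lit 0x10001,
    nat_lit 0x20101,nat_lit 0x20001],[nat_lit 32,nat_lit 0x10020,nat_lit 272,nat_lit 0x1110,nat_lit 0x10110,
    nat_lit 0x1010,nat_lit 0x11010,nat_lit 0x10010,nat_lit 0x11110,nat_lit 0x20010],[nat_lit 512,nat_lit 0x10200,
    nat_lit 0x1100,nat_lit 0x11100,nat_lit 0x10100,nat_lit 0x20200,nat_lit 0x20100],[nat_lit 0x2000,nat_lit 0x11000,
    nat_lit 0x21000],[nat_lit 0x20000]] [.c (nat_lit 1) (nat_lit 2),.r (nat_lit 3) (nat_lit 2) [nat_lit 0xa4922,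
    nat_lit 0x30432],.r (nat_lit 60) (nat_lit 7) [nat_lit 0xa4981,nat_lit 33,nat_lit 0x53451],.r (nat_lit 57)
    (nat_lit 2) [nat_lit 0x42522,nat_lit 0x42032],.r (nat_lit 26) (nat_lit 4) [nat_lit 33,nat_lit 0x42031],.c
    (nat_lit 0) (nat_lit 0x6407),.r (nat_lit 1) (nat_lit 3) [nat_lit 561],.r (nat_lit 3) (nat_lit 2)
    [nat_lit 0x42521,nat_lit 561],.c (nat_lit 3) (nat_lit 0x5322),.c (nat_lit 4) (nat_lit 35),.c (nat_lit 0)
    (nat_lit 0x3045),.r (nat_lit 3) (nat_lit 2) [nat_lit 0xa4921,nat_lit 0x73631],.r (nat_lit 57) (nat_lit 2)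
    [nat_lit 0x42521,nat_lit 561],.c (nat_lit 4) (nat_lit 0x2032),.c (nat_lit 3) (nat_lit 0x7363),.r (nat_lit 54)
    (nat_lit 2) [nat_lit 0x42521,nat_lit 561],.c (nat_lit 5) (nat_lit 35),.c (nat_lit 3) (nat_lit 35),.r (nat_lit 1)
    (nat_lit 1) [nat_lit 561],.c (nat_lit 2) (nat_lit 35),.c (nat_lit 0) (nat_lit 0x3045),.r (nat_lit 1) (nat_lit 3)
    [nat_lit 0x20321],.r (nat_lit 18) (nat_lit 9) [nat_lit 0x30231,nat_lit 0x20001],.c (nat_lit 2) (nat_lit 2),.r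
    (nat_lit 18) (nat_lit 2) [nat_lit 0x42331,nat_lit 33],.r (nat_lit 0) (nat_lit 1) [nat_lit 33],.r (nat_lit 1)
    (nat_lit 4) [nat_lit 561],.r (nat_lit 59) (nat_lit 5) [nat_lit 0x53401,nat_lit 0xb5821,nat_lit 0x42331],.c
    (nat_lit 3) (nat_lit 0x7342),.r (nat_lit 4) (nat_lit 8) [nat_lit 0x53041,nat_lit 561],.c (nat_lit 0)
    (nat_lit 0x4205),.c (nat_lit 1) (nat_lit 35),.r (nat_lit 4) (nat_lit 8) [nat_lit 0x33021,nat_lit 0x30432],.c
    (nat_lit 3) (nat_lit 2),.r (nat_lit 4) (nat_lit 8) [nat_lit 0x82941,nat_lit 0x73631],.c (nat_lit 0)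
    (nat_lit 0x5343),.r (nat_lit 1) (nat_lit 0) [nat_lit 561],.c (nat_lit 0) (nat_lit 0x3045),.r (nat_lit 3)
    (nat_lit 2) [nat_lit 0x84532,nat_lit 34],.r (nat_lit 58) (nat_lit 4) [nat_lit 0x53451,nat_lit 33,
    nat_lit 0xa4981],.c (nat_lit 4) (nat_lit 2),.r (nat_lit 0) (nat_lit 3) [nat_lit 33],.r (nat_lit 1) (nat_lit 0)
    [nat_lit 0x42032],.c (nat_lit 5) (nat_lit 2)],.g (nat_lit 5) (nat_lit 2)
    (nat_lit 0x700000005000000060000000100000000) (nat_lit 0x500000000000000000000000500000005) (nat_lit 5)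
    (nat_lit 0x14046000006e0) [nat_lit 1525049,nat_lit 2066814,nat_lit 1452391,nat_lit 11743236],.g (nat_lit 1)
    (nat_lit 3) (nat_lit 0x500000006000000050000000300000000) (nat_lit 0x200000000000000010000000300000007)
    (nat_lit 2) (nat_lit 0x1404600000630) [nat_lit 4198401,nat_lit 1429360,nat_lit 281786,nat_lit 18975,
    nat_lit 34298,nat_lit 664420,nat_lit 107053,nat_lit 10063872],.l (nat_lit 15) (nat_lit 4320) (nat_lit 3)
    (nat_lit 0x54800000548000005f60000059e0000067200000672000005a8000005a80000059e000006ae)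
    (nat_lit 0x1660000016600000110000000b80000003c0000003c00000106000001060000000000000110)
    (nat_lit 0xb40438021c10e00870438022010e00a90438087005a021c01240870043821c010e08700438092043802dd10e00b88438027810e008704380870043821c016e8870056221c012608700452087043802b110e00c6c43802d410e00ce44380870043821c01710870063621c015b087004380870438024c10e00ad843802e610e00cf84380870044021c013c087005a821c0173087004980870438022910e00870438024c10e00b404380870054821c010e0870067221c019f087005a0)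
    (nat_lit 0xb40438087010e021c0438087010e021c0438087005a021c0438087010e021c0438087010e0087043802dd10e021c0438087010e021c04380870049021c016e887010e021c0438087010e0087043802e210e00c6c438087010e021c04380870043821c01588870063621c0438087010e00880438027810e00b5043802e610e021c04380870043821c01260870056c21c0173087010e00a90438021c10e00ce4438033e10e00b404380870043821c01148870043821c0126087005a0)
    (nat_lit 4) [[nat_lit 2,nat_lit 18,nat_lit 258,nat_lit 0x1002,nat_lit 0x10002,nat_lit 17,nat_lit 273,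
    nat_lit 0x1011,nat_lit 0x10011,nat_lit 257,nat_lit 0x1101,nat_lit 0x10101,nat_lit 0x1001,nat_lit 0x2001,
    nat_lit 0x11001,nat_lit 0x10001,nat_lit 0x20001],[nat_lit 32,nat_lit 0x1020,nat_lit 0x10020,nat_lit 272,
    nat_lit 0x1110,nat_lit 0x10110,nat_lit 0x1010,nat_lit 0x2010,nat_lit 0x11010,nat_lit 0x10010,nat_lit 0x20010],
    [nat_lit 512,nat_lit 0x10200,nat_lit 0x1100,nat_lit 0x11100,nat_lit 0x10100,nat_lit 0x20100],[nat_lit 0x2000,
    nat_lit 0x12000,nat_lit 0x11000,nat_lit 0x21000],[nat_lit 0x20000]] [.c (nat_lit 1) (nat_lit 2),.r (nat_lit 26)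
    (nat_lit 6) [nat_lit 0x33201,nat_lit 0x22231],.r (nat_lit 57) (nat_lit 4) [nat_lit 0x22322,nat_lit 0x22232],.r
    (nat_lit 57) (nat_lit 4) [nat_lit 0x2023,nat_lit 0x64033],.r (nat_lit 43) (nat_lit 0) [nat_lit 0x22031,
    nat_lit 0x33201],.c (nat_lit 0) (nat_lit 0x2225),.r (nat_lit 1) (nat_lit 3) [nat_lit 561],.r (nat_lit 63)
    (nat_lit 5) [nat_lit 0x33201,nat_lit 0x22031,nat_lit 0x2001],.c (nat_lit 4) (nat_lit 0x3302),.c (nat_lit 4)
    (nat_lit 0x2032),.r (nat_lit 57) (nat_lit 4) [nat_lit 0x22321,nat_lit 561],.r (nat_lit 3) (nat_lit 4)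
    [nat_lit 0x22321,nat_lit 561],.r (nat_lit 62) (nat_lit 1) [nat_lit 0xa6071,nat_lit 0x2081,nat_lit 0x3021],.r
    (nat_lit 57) (nat_lit 4) [nat_lit 0x2022,nat_lit 0x42032],.r (nat_lit 1) (nat_lit 1) [nat_lit 561],.c
    (nat_lit 0) (nat_lit 0x2225),.r (nat_lit 3) (nat_lit 4) [nat_lit 0x2022,nat_lit 0x42032],.c (nat_lit 2)
    (nat_lit 2),.r (nat_lit 5) (nat_lit 1) [nat_lit 0x53401,nat_lit 33],.r (nat_lit 38) (nat_lit 8)
    [nat_lit 0x55021,nat_lit 0x22231],.r (nat_lit 0) (nat_lit 1) [nat_lit 33],.r (nat_lit 1) (nat_lit 4)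
    [nat_lit 561],.r (nat_lit 4) (nat_lit 1) [nat_lit 0x33341,nat_lit 561],.c (nat_lit 0) (nat_lit 0x4205),.r
    (nat_lit 1) (nat_lit 3) [nat_lit 0x20031],.c (nat_lit 3) (nat_lit 0x5322),.c (nat_lit 0) (nat_lit 0x2225),.r
    (nat_lit 18) (nat_lit 4) [nat_lit 0x22031,nat_lit 33],.c (nat_lit 3) (nat_lit 2),.r (nat_lit 61) (nat_lit 2)
    [nat_lit 0x22251,nat_lit 33],.c (nat_lit 0) (nat_lit 0x7565),.r (nat_lit 1) (nat_lit 0) [nat_lit 561],.r
    (nat_lit 2) (nat_lit 1) [nat_lit 0x33341,nat_lit 561],.r (nat_lit 1) (nat_lit 0) [nat_lit 0x22232],.c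
    (nat_lit 4) (nat_lit 2),.r (nat_lit 3) (nat_lit 4) [nat_lit 0x2021,nat_lit 0x20031],.c (nat_lit 0)
    (nat_lit 0x4205),.r (nat_lit 38) (nat_lit 7) [nat_lit 0x53041,nat_lit 0x42031],.c (nat_lit 5) (nat_lit 2)],.l
    (nat_lit 13) (nat_lit 1920) (nat_lit 3)
    (nat_lit 0x2a4000003320000026e0000026e000002b6000002a4000002fc000002e2000002a4000002a4)
    (nat_lit 0x8e000000c4000000c40000008e0000007c00000050000000360000008e0000008e)
    (nat_lit 0x1521e003c07800f11e003c078010b1e00f002a43c009b8f001e03c00bf0f002e01371e005007800f01e003c47800f01e00f001e03c00a00f001f23c00780f001e00f01e003e47801401e004cc7801141e00f001e23c00780f002803c009b8f0021617e1e003c07801371e005587801511e00f001e03c00788f002663c00ab0f002541701e003c078010b1e004a87801451e00f002163c00780f002283c00a88f0028a)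
    (nat_lit 0x1521e00f007803c01e00f007803c01e00f002a43c01e00f007803c01e00f007800f01e005007803c01e00f007803c01e00f0026e3c00a00f007803c01e00f007800f11e003c07801401e00f007803c01e00f001e03c007c8f002803c01e00f007800f01e003c47801331e005587803c01e00f002fc3c00780f0026e3c00ab0f0078010b1e003c07801141e005447801451e00f002e03c00780f002163c00950f0028a)
    (nat_lit 4) [[nat_lit 2,nat_lit 258,nat_lit 0x1002,nat_lit 17,nat_lit 273,nat_lit 0x1011,nat_lit 0x10011,
    nat_lit 257,nat_lit 513,nat_lit 0x1101,nat_lit 0x10101,nat_lit 0x1001,nat_lit 0x2001,nat_lit 0x11001,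
    nat_lit 0x10001],[nat_lit 32,nat_lit 0x1020,nat_lit 272,nat_lit 528,nat_lit 0x1110,nat_lit 0x10110,
    nat_lit 0x1010,nat_lit 0x2010,nat_lit 0x11010,nat_lit 0x10010],[nat_lit 512,nat_lit 0x1200,nat_lit 0x10200,
    nat_lit 0x1100,nat_lit 0x2100,nat_lit 0x11100,nat_lit 0x10100,nat_lit 0x20100],[nat_lit 0x2000,nat_lit 0x12000,
    nat_lit 0x11000,nat_lit 0x21000],[nat_lit 0x20000]] [.c (nat_lit 1) (nat_lit 2),.r (nat_lit 61) (nat_lit 8)
    [nat_lit 0x33892,nat_lit 33],.r (nat_lit 64) (nat_lit 6) [nat_lit 0x33021,nat_lit 0x22452],.c (nat_lit 0)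
    (nat_lit 0x2205),.r (nat_lit 1) (nat_lit 3) [nat_lit 561],.r (nat_lit 57) (nat_lit 6) [nat_lit 0x33042,
    nat_lit 561],.r (nat_lit 1) (nat_lit 6) [nat_lit 561],.r (nat_lit 2) (nat_lit 4) [nat_lit 0x22982,nat_lit 561],
    .r (nat_lit 1) (nat_lit 3) [nat_lit 0x33854],.r (nat_lit 3) (nat_lit 6) [nat_lit 0x33042,nat_lit 561],.r
    (nat_lit 3) (nat_lit 7) [nat_lit 0x32002,nat_lit 561],.r (nat_lit 54) (nat_lit 6) [nat_lit 0x33042,nat_lit 561],
    .r (nat_lit 57) (nat_lit 6) [nat_lit 0x33044,nat_lit 0x33854],.r (nat_lit 1) (nat_lit 1) [nat_lit 561],.c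
    (nat_lit 2) (nat_lit 0x2304),.c (nat_lit 2) (nat_lit 2),.r (nat_lit 1) (nat_lit 1) [nat_lit 0x23452],.c
    (nat_lit 0) (nat_lit 837),.r (nat_lit 43) (nat_lit 6) [nat_lit 0x3231,nat_lit 0x2001],.c (nat_lit 1)
    (nat_lit 562),.r (nat_lit 3) (nat_lit 1) [nat_lit 0x3021,nat_lit 561],.c (nat_lit 0) (nat_lit 837),.r
    (nat_lit 38) (nat_lit 2) [nat_lit 0x4521,nat_lit 0x3431],.r (nat_lit 4) (nat_lit 3) [nat_lit 0x2541,
    nat_lit 561],.r (nat_lit 2) (nat_lit 3) [nat_lit 0x2541,nat_lit 561],.c (nat_lit 3) (nat_lit 2),.r (nat_lit 26)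
    (nat_lit 4) [nat_lit 0x2001,nat_lit 0x3431],.r (nat_lit 3) (nat_lit 7) [nat_lit 0x32002,nat_lit 0x3432],.c
    (nat_lit 0) (nat_lit 837),.r (nat_lit 43) (nat_lit 0) [nat_lit 0x3231,nat_lit 33],.c (nat_lit 2)
    (nat_lit 0x2254),.c (nat_lit 0) (nat_lit 0x3389),.r (nat_lit 38) (nat_lit 5) [nat_lit 0x22521,nat_lit 0x33852],
    .c (nat_lit 4) (nat_lit 2),.r (nat_lit 1) (nat_lit 1) [nat_lit 0x3432],.c (nat_lit 0) (nat_lit 0x3389),.r
    (nat_lit 43) (nat_lit 1) [nat_lit 0x33452,nat_lit 33],.c (nat_lit 5) (nat_lit 2)],.g (nat_lit 1) (nat_lit 4)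
    (nat_lit 0x200000001000000020000000000000001) (nat_lit 0x300000004000000010000000600000000) (nat_lit 3)
    (nat_lit 0x1404600000630) [nat_lit 1675266,nat_lit 272841,nat_lit 224162,nat_lit 625826,nat_lit 19458,
    nat_lit 13979649],.g (nat_lit 1) (nat_lit 1) (nat_lit 0x400000005000000000000000100000000)
    (nat_lit 0x100000000000000050000000300000004) (nat_lit 3) (nat_lit 0x1404600000580) [nat_lit 6713347,
    nat_lit 976557,nat_lit 665500,nat_lit 43003,nat_lit 8392704],.l (nat_lit 17) (nat_lit 26880) (nat_lit 6)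
    (nat_lit 0x27d0000042da00002a0a00002a0a00003093000030930000341a0000341a0000382000002b6e)
    (nat_lit 0x1b0a000018d0000018d0000012470000124700000ec000000ec00000176c00000aba)
    (nat_lit 0x151c1a4001e0069000ba49a4001f18690008321a400d2002a3834800a828d200325334800d068d2000f0015051a4001ef469000be19a40088d46900081b1a400d2000f00348003de8d20017c3348009258d2001f5019299a4002f8669000a801a40043a669000c939a400d2001749348005f0cd200150034800874cd20025d91a0d1a400492c690010e99a4004ab469000d771a400d2000f8c3480111a8d20021d3348009568d200296007801a4003ea0690012ec9a40052c06900151c1a400d20010643480040d8d2001927348006bb8d2002a38)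
    (nat_lit 0x151c1a400d200690034801a400d200690034801a400d2002a3834801a400d200690034801a400d200690007801a4001ef4690034801a400d200690034801a400d2002a0a348003de8d200690034801a400d20069000ba49a4002f8669000a801a400d200690034801a400d2003253348005f0cd200150034801a400d200690007c61a400732c690010e99a4004ab4690034801a400d200341a348009258d20021d3348009568d200690008321a400206c69000c939a40035dc69000fb21a400d2000f00348007800d20025d9348007a30d2001f64)
    (nat_lit 4) [[nat_lit 2,nat_lit 0x10012,nat_lit 0x1002,nat_lit 0x12002,nat_lit 0x11002,nat_lit 0x10002,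
    nat_lit 17,nat_lit 0x10021,nat_lit 273,nat_lit 0x10111,nat_lit 0x10011,nat_lit 0x21012,nat_lit 0x20012,
    nat_lit 0x20011,nat_lit 257,nat_lit 0x10102,nat_lit 513,nat_lit 0x1201,nat_lit 0x11201,nat_lit 0x10201,
    nat_lit 0x1101,nat_lit 0x2101,nat_lit 0x12101,nat_lit 0x11101,nat_lit 0x10101,nat_lit 0x20102,nat_lit 0x1001,
    nat_lit 0x2002,nat_lit 0x1011,nat_lit 0x11011,nat_lit 0x11111,nat_lit 0x2001,nat_lit 0x12011,nat_lit 0x3001,
    nat_lit 0x4001,nat_lit 0x14001,nat_lit 0x13001,nat_lit 0x12001,nat_lit 0x22002,nat_lit 0x22001,nat_lit 0x11001,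
    nat_lit 0x21002,nat_lit 0x21001,nat_lit 0x10001,nat_lit 0x20002,nat_lit 0x30003,nat_lit 0x20001],[nat_lit 32,
    nat_lit 272,nat_lit 528,nat_lit 0x1110,nat_lit 0x10010,nat_lit 0x10110,nat_lit 0x11010],[nat_lit 512,
    nat_lit 768,nat_lit 0x400,nat_lit 0x1300,nat_lit 0x1200,nat_lit 0x2200,nat_lit 0x3200,nat_lit 0x10200,
    nat_lit 0x1100,nat_lit 0x2100,nat_lit 0x3100,nat_lit 0x4100,nat_lit 0x12100,nat_lit 0x11100,nat_lit 0x10100],
    [nat_lit 0x2000,nat_lit 0x3000,nat_lit 0x4000,nat_lit 0x5000,nat_lit 0x6000,nat_lit 0x14000,nat_lit 0x13000,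
    nat_lit 0x12000,nat_lit 0x11000,nat_lit 0x21000],[nat_lit 0x20000]] [.c (nat_lit 1) (nat_lit 2),.r (nat_lit 1)
    (nat_lit 1) [nat_lit 0x22231],.r (nat_lit 64) (nat_lit 6) [nat_lit 0x95021,nat_lit 0x42231],.c (nat_lit 0)
    (nat_lit 514),.r (nat_lit 67) (nat_lit 9) [nat_lit 0x20001,nat_lit 0xb5021,nat_lit 0x42001],.c (nat_lit 0)
    (nat_lit 0x5043),.c (nat_lit 0) (nat_lit 0x4203),.c (nat_lit 0) (nat_lit 0x5302),.c (nat_lit 0) (nat_lit 581),.c
    (nat_lit 2) (nat_lit 0x2032),.c (nat_lit 0) (nat_lit 581),.c (nat_lit 3) (nat_lit 0x3043),.r (nat_lit 2)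
    (nat_lit 8) [nat_lit 0x20031,nat_lit 0x30201],.r (nat_lit 43) (nat_lit 1) [nat_lit 0x30231,nat_lit 0x33021],.c
    (nat_lit 0) (nat_lit 581),.c (nat_lit 1) (nat_lit 0x2032),.c (nat_lit 0) (nat_lit 0x5043),.r (nat_lit 43)
    (nat_lit 1) [nat_lit 801,nat_lit 0x53431],.c (nat_lit 0) (nat_lit 0x4254),.c (nat_lit 3) (nat_lit 0x2032),.r
    (nat_lit 3) (nat_lit 6) [nat_lit 0x53021,nat_lit 561],.c (nat_lit 0) (nat_lit 514),.c (nat_lit 0)
    (nat_lit 0x8654),.c (nat_lit 2) (nat_lit 35),.c (nat_lit 0) (nat_lit 581),.c (nat_lit 0) (nat_lit 0x5043),.r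
    (nat_lit 44) (nat_lit 4) [nat_lit 33,nat_lit 0x20001],.c (nat_lit 2) (nat_lit 0xc403),.c (nat_lit 2)
    (nat_lit 0x6203),.c (nat_lit 3) (nat_lit 35),.c (nat_lit 0) (nat_lit 0x4254),.c (nat_lit 2) (nat_lit 0x8203),.c
    (nat_lit 0) (nat_lit 514),.c (nat_lit 0) (nat_lit 0x2402),.c (nat_lit 0) (nat_lit 0x4602),.c (nat_lit 0)
    (nat_lit 0x4602),.c (nat_lit 0) (nat_lit 0x2402),.c (nat_lit 0) (nat_lit 514),.c (nat_lit 0) (nat_lit 514),.c
    (nat_lit 3) (nat_lit 0x5343),.r (nat_lit 1) (nat_lit 1) [nat_lit 561],.r (nat_lit 2) (nat_lit 0)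
    [nat_lit 0x20031,nat_lit 0x30201],.r (nat_lit 2) (nat_lit 8) [nat_lit 0x3031,nat_lit 0x30201],.c (nat_lit 0)
    (nat_lit 581),.c (nat_lit 0) (nat_lit 0x5043),.r (nat_lit 9) (nat_lit 3) [nat_lit 33,nat_lit 0x20001],.c
    (nat_lit 0) (nat_lit 0x5043),.c (nat_lit 2) (nat_lit 2),.c (nat_lit 0) (nat_lit 581),.r (nat_lit 2) (nat_lit 0)
    [nat_lit 0x40521,nat_lit 0x30201],.c (nat_lit 0) (nat_lit 0x3002),.c (nat_lit 0) (nat_lit 581),.c (nat_lit 2)
    (nat_lit 0x6232),.c (nat_lit 0) (nat_lit 0x3002),.c (nat_lit 3) (nat_lit 2),.r (nat_lit 45) (nat_lit 1)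
    [nat_lit 33,nat_lit 0x20001],.r (nat_lit 8) (nat_lit 3) [nat_lit 0x90832,nat_lit 0x20001],.r (nat_lit 66)
    (nat_lit 5) [nat_lit 33,nat_lit 0x33251,nat_lit 0x2041],.r (nat_lit 2) (nat_lit 8) [nat_lit 0x40521,
    nat_lit 0x30201],.c (nat_lit 0) (nat_lit 514),.c (nat_lit 0) (nat_lit 0x2402),.c (nat_lit 0) (nat_lit 0x5043),.c
    (nat_lit 0) (nat_lit 0x5345),.c (nat_lit 5) (nat_lit 0x3323),.c (nat_lit 0) (nat_lit 0x2402),.c (nat_lit 0)
    (nat_lit 0x4602),.c (nat_lit 0) (nat_lit 0x8654),.c (nat_lit 2) (nat_lit 0x4232),.c (nat_lit 0) (nat_lit 581),.c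
    (nat_lit 2) (nat_lit 0x4003),.c (nat_lit 0) (nat_lit 0x2402),.c (nat_lit 0) (nat_lit 0x4602),.c (nat_lit 0)
    (nat_lit 0x6802),.c (nat_lit 0) (nat_lit 0x8a02),.c (nat_lit 0) (nat_lit 0x4602),.c (nat_lit 0)
    (nat_lit 0x2402),.c (nat_lit 3) (nat_lit 0x3323),.c (nat_lit 0) (nat_lit 0x5345),.r (nat_lit 43) (nat_lit 1)
    [nat_lit 0x53231,nat_lit 33],.c (nat_lit 5) (nat_lit 2)],.g (nat_lit 7) (nat_lit 2)
    (nat_lit 0x90000000a000000080000000100000000) (nat_lit 0x700000007000000000000000700000007) (nat_lit 7)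
    (nat_lit 0x14046000004d0) [nat_lit 4784457,nat_lit 1215390,nat_lit 10784771],.g (nat_lit 9) (nat_lit 2)
    (nat_lit 0xb0000000c0000000a0000000100000000) (nat_lit 0x900000009000000000000000900000009) (nat_lit 9)
    (nat_lit 0x1404600000630) [nat_lit 4162251,nat_lit 2370424,nat_lit 10252291],.l (nat_lit 14) (nat_lit 3360)
    (nat_lit 6) (nat_lit 0x46e000006ea000005b3000005b3000005ac000005ac00000471000004710000064e000004f5)
    (nat_lit 0x27c00000137000001370000013e0000013e0000027900000279000001f50000009c)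
    (nat_lit 0x11b8d200cdcd200d30d200780d2009e4d20348046e34805b334805dd348047134801e016ccd20112cd2011d4d201ea0d200ef8d203480337348044b3480475348057834805171774d2011d4d2008c0d200cccd200edcd20348034c348047534802303480333348051011c4d2015e0d200cccd2007e0d200980d2034801e034807a8348033334801f834803d50780d20145cd201440d200f54d2011b8d20348027934803be34803b73480260348046e)
    (nat_lit 0x11b8d203480d203480d203480d203480d20348046e3480d203480d203480d203480d200cdcd20112cd203480d203480d203480d2034805b3348044b3480d203480d203480d200d30d2011d4d2008c0d203480d203480d2034805dd348047534802303480d203480d200780d201e4cd200cccd2007e0d203480d2034804713480578348033334801f83480d2009e4d200ef8d200edcd200980d201164d2034801e03480517348051034803c03480459)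
    (nat_lit 5) [[nat_lit 2,nat_lit 18,nat_lit 34,nat_lit 0x10022,nat_lit 0x10012,nat_lit 0x10002,nat_lit 17,
    nat_lit 33,nat_lit 49,nat_lit 65,nat_lit 0x10041,nat_lit 0x10031,nat_lit 289,nat_lit 0x10121,nat_lit 0x10021,
    nat_lit 0x20022,nat_lit 0x20021,nat_lit 273,nat_lit 529,nat_lit 0x10211,nat_lit 0x10111,nat_lit 0x10011,
    nat_lit 0x20012,nat_lit 0x20011,nat_lit 257,nat_lit 513,nat_lit 0x10201,nat_lit 0x10101,nat_lit 0x1001,
    nat_lit 0x1011,nat_lit 0x11011,nat_lit 0x11001,nat_lit 0x10001,nat_lit 0x20002,nat_lit 0x30003,nat_lit 0x20001],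
    [nat_lit 32,nat_lit 48,nat_lit 64,nat_lit 80,nat_lit 96,nat_lit 320,nat_lit 0x10040,nat_lit 304,nat_lit 560,
    nat_lit 0x10030,nat_lit 288,nat_lit 544,nat_lit 800,nat_lit 0x10120,nat_lit 0x10020,nat_lit 0x20020,nat_lit 272,
    nat_lit 528,nat_lit 784,nat_lit 0x410,nat_lit 0x10110,nat_lit 0x10010,nat_lit 0x11010,nat_lit 0x20010],
    [nat_lit 512,nat_lit 768,nat_lit 0x400,nat_lit 0x500,nat_lit 0x1200,nat_lit 0x10200,nat_lit 0x1100,
    nat_lit 0x10100],[nat_lit 0x2000,nat_lit 0x3000,nat_lit 0x11000],[nat_lit 0x20000]] [.c (nat_lit 1) (nat_lit 2),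
    .r (nat_lit 26) (nat_lit 6) [nat_lit 0x318801,nat_lit 0x210861],.c (nat_lit 0) (nat_lit 0x38c42),.c (nat_lit 0)
    (nat_lit 0x39404),.r (nat_lit 4) (nat_lit 1) [nat_lit 0x2108a1,nat_lit 0x318041],.c (nat_lit 0)
    (nat_lit 0x28083),.c (nat_lit 0) (nat_lit 0x10845),.c (nat_lit 5) (nat_lit 0x20803),.c (nat_lit 0)
    (nat_lit 0x38c42),.c (nat_lit 0) (nat_lit 0x38c42),.c (nat_lit 0) (nat_lit 0x39404),.c (nat_lit 0)
    (nat_lit 0x39404),.c (nat_lit 0) (nat_lit 0x38c42),.c (nat_lit 0) (nat_lit 0x18c64),.c (nat_lit 0)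
    (nat_lit 0x39404),.c (nat_lit 0) (nat_lit 0x29402),.c (nat_lit 0) (nat_lit 0x59c44),.r (nat_lit 1) (nat_lit 3)
    [nat_lit 0x861],.r (nat_lit 10) (nat_lit 2) [nat_lit 65,nat_lit 0x300861],.c (nat_lit 2) (nat_lit 0x408a2),.c
    (nat_lit 2) (nat_lit 0x10062),.c (nat_lit 2) (nat_lit 0x20803),.r (nat_lit 0) (nat_lit 1) [nat_lit 0x210861],.r
    (nat_lit 1) (nat_lit 3) [nat_lit 0x318041],.c (nat_lit 0) (nat_lit 0x38cc5),.c (nat_lit 0) (nat_lit 0x28083),.c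
    (nat_lit 3) (nat_lit 0x10062),.c (nat_lit 0) (nat_lit 0x18085),.c (nat_lit 0) (nat_lit 0x38cc5),.c (nat_lit 0)
    (nat_lit 0x18002),.c (nat_lit 3) (nat_lit 67),.c (nat_lit 2) (nat_lit 0x30803),.c (nat_lit 0) (nat_lit 0x10845),
    .c (nat_lit 2) (nat_lit 0x41003),.r (nat_lit 9) (nat_lit 3) [nat_lit 65,nat_lit 0x200001],.c (nat_lit 0)
    (nat_lit 0x28083),.c (nat_lit 2) (nat_lit 2),.c (nat_lit 0) (nat_lit 0x38c42),.c (nat_lit 0) (nat_lit 0x38c42),
    .c (nat_lit 0) (nat_lit 0x38c42),.c (nat_lit 0) (nat_lit 0x38c42),.c (nat_lit 0) (nat_lit 0x38c42),.c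
    (nat_lit 0) (nat_lit 0x79cc2),.c (nat_lit 0) (nat_lit 0x38c42),.c (nat_lit 0) (nat_lit 0x38c42),.c (nat_lit 0)
    (nat_lit 0x59482),.c (nat_lit 2) (nat_lit 0x30862),.c (nat_lit 2) (nat_lit 0x610a2),.c (nat_lit 2)
    (nat_lit 0x918e2),.c (nat_lit 0) (nat_lit 0x38c42),.c (nat_lit 1) (nat_lit 0x20803),.c (nat_lit 0)
    (nat_lit 0x38c42),.r (nat_lit 0) (nat_lit 1) [nat_lit 65],.r (nat_lit 2) (nat_lit 0) [nat_lit 0x401441,
    nat_lit 0x300801],.r (nat_lit 69) (nat_lit 1) [nat_lit 0x1231c41,nat_lit 0x9130a1,nat_lit 0x539861],.r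
    (nat_lit 70) (nat_lit 1) [nat_lit 0x1842441,nat_lit 0xd140a1,nat_lit 0x74a061],.r (nat_lit 4) (nat_lit 1)
    [nat_lit 0x318c81,nat_lit 0x861],.c (nat_lit 0) (nat_lit 0x10845),.c (nat_lit 0) (nat_lit 0x18002),.r
    (nat_lit 18) (nat_lit 4) [nat_lit 0x210061,nat_lit 65],.c (nat_lit 3) (nat_lit 2),.r (nat_lit 0) (nat_lit 1)
    [nat_lit 0x610c42],.r (nat_lit 8) (nat_lit 3) [nat_lit 0x902062,nat_lit 0x200001],.r (nat_lit 2) (nat_lit 0)
    [nat_lit 0xe12c42,nat_lit 0x300801],.r (nat_lit 0) (nat_lit 1) [nat_lit 0x410c41],.c (nat_lit 0)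
    (nat_lit 0x28083),.c (nat_lit 0) (nat_lit 0x18c43),.c (nat_lit 0) (nat_lit 0x18085),.c (nat_lit 2)
    (nat_lit 0x20003),.r (nat_lit 0) (nat_lit 1) [nat_lit 0x18861],.c (nat_lit 0) (nat_lit 0x38cc5),.c (nat_lit 5)
    (nat_lit 2)],.g (nat_lit 1) (nat_lit 4) (nat_lit 0x100000000000000010000000300000001)
    (nat_lit 0x400000005000000030000000000000002) (nat_lit 3) (nat_lit 0x14046000004d0) [nat_lit 4198400,
    nat_lit 1746983,nat_lit 484531,nat_lit 151390,nat_lit 1329923,nat_lit 493729,nat_lit 8392706],.g (nat_lit 5)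
    (nat_lit 2) (nat_lit 0x700000008000000060000000100000000) (nat_lit 0x500000000000000000000000500000005)
    (nat_lit 5) (nat_lit 0x14046000006e0) [nat_lit 3457539,nat_lit 483835,nat_lit 206282,nat_lit 1189894,
    nat_lit 4736758,nat_lit 6713348],.l (nat_lit 12) (nat_lit 960) (nat_lit 4)
    (nat_lit 0x14c0000014c000001740000017400000126000001260000015a0000015a0000013100000131)
    (nat_lit 0x280000002800000000000000000000004e0000004e0000001a0000001a0000004300000043)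
    (nat_lit 0x1b43c012e3c010e3c01323c01093c03c01b43c014c3c00fe3c01323c010314c3c01743c01263c01603c00a13c03c012e3c01743c01263c01423c01430fe3c01263c00f03c00fa3c01013c03c010e3c01263c00f03c010c3c00e31323c01423c010c3c01403c01073c03c01323c01603c00fa3c01403c01171033c01433c00e33c01173c00ee3c03c01093c00a13c01013c01073c00ee)
    (nat_lit 0x1b43c03c03c03c03c03c03c03c03c03c01b43c03c03c03c03c03c03c03c012e3c01743c03c03c03c03c03c03c03c014c3c01743c03c03c03c03c03c010e3c01263c00f03c03c03c03c03c03c00fe3c01263c00f03c03c03c03c01323c01603c00fa3c01403c03c03c03c01323c01423c010c3c01403c03c01093c00a13c01013c01073c00ee3c03c01033c01433c00e33c01173c00ee)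
    (nat_lit 4) [[nat_lit 2,nat_lit 3,nat_lit 4,nat_lit 18,nat_lit 258,nat_lit 0x1002,nat_lit 0x1102,
    nat_lit 0x10002,nat_lit 17,nat_lit 33,nat_lit 273,nat_lit 0x1011,nat_lit 0x10011,nat_lit 257,nat_lit 513,
    nat_lit 0x1101,nat_lit 0x10101,nat_lit 0x1001,nat_lit 0x1201,nat_lit 0x2001,nat_lit 0x11001,nat_lit 0x11101,
    nat_lit 0x10001],[nat_lit 32,nat_lit 288,nat_lit 0x10020,nat_lit 272,nat_lit 528,nat_lit 0x1110,nat_lit 0x10110,
    nat_lit 0x1010,nat_lit 0x10010],[nat_lit 512,nat_lit 768,nat_lit 0x1200,nat_lit 0x10200,nat_lit 0x1100,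
    nat_lit 0x11100,nat_lit 0x10100],[nat_lit 0x2000,nat_lit 0x11000],[nat_lit 0x20000]] [.c (nat_lit 1)
    (nat_lit 2),.r (nat_lit 55) (nat_lit 0) [nat_lit 0x20001,nat_lit 0x70631],.r (nat_lit 56) (nat_lit 5)
    [nat_lit 0x20001,nat_lit 34],.r (nat_lit 3) (nat_lit 8) [nat_lit 0x20031,nat_lit 0x30201],.c (nat_lit 1)
    (nat_lit 0x2032),.r (nat_lit 73) (nat_lit 1) [nat_lit 0xa4031,nat_lit 0x2041,nat_lit 0x5021],.r (nat_lit 4)
    (nat_lit 1) [nat_lit 0x73651,nat_lit 0x20321],.r (nat_lit 4) (nat_lit 3) [nat_lit 0x40521,nat_lit 0x30201],.c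
    (nat_lit 0) (nat_lit 0x2225),.r (nat_lit 43) (nat_lit 3) [nat_lit 0x22031,nat_lit 33],.c (nat_lit 2)
    (nat_lit 0x2032),.r (nat_lit 72) (nat_lit 3) [nat_lit 0x33201,nat_lit 0x3021,nat_lit 0x2001],.c (nat_lit 1)
    (nat_lit 0x5304),.c (nat_lit 0) (nat_lit 0x5043),.c (nat_lit 3) (nat_lit 0x2032),.c (nat_lit 1)
    (nat_lit 0x4254),.c (nat_lit 5) (nat_lit 0x2032),.c (nat_lit 1) (nat_lit 516),.c (nat_lit 1) (nat_lit 0x9385),.r
    (nat_lit 56) (nat_lit 5) [nat_lit 0x20001,nat_lit 0x2021],.r (nat_lit 1) (nat_lit 1) [nat_lit 561],.c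
    (nat_lit 2) (nat_lit 35),.c (nat_lit 0) (nat_lit 0x2225),.c (nat_lit 2) (nat_lit 2),.r (nat_lit 1) (nat_lit 4)
    [nat_lit 0x22232],.r (nat_lit 1) (nat_lit 4) [nat_lit 0x42031],.r (nat_lit 0) (nat_lit 1) [nat_lit 33],.r
    (nat_lit 3) (nat_lit 3) [nat_lit 0x20031,nat_lit 0x30201],.r (nat_lit 1) (nat_lit 4) [nat_lit 561],.r
    (nat_lit 4) (nat_lit 1) [nat_lit 0x33341,nat_lit 561],.c (nat_lit 0) (nat_lit 0x2003),.c (nat_lit 0)
    (nat_lit 0x2225),.c (nat_lit 3) (nat_lit 2),.r (nat_lit 4) (nat_lit 1) [nat_lit 0x40521,nat_lit 0x73632],.r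
    (nat_lit 4) (nat_lit 1) [nat_lit 0x62741,nat_lit 0x53431],.r (nat_lit 61) (nat_lit 2) [nat_lit 0x22251,
    nat_lit 33],.c (nat_lit 0) (nat_lit 0x7365),.r (nat_lit 1) (nat_lit 0) [nat_lit 561],.r (nat_lit 2) (nat_lit 1)
    [nat_lit 0x33341,nat_lit 561],.c (nat_lit 1) (nat_lit 514),.c (nat_lit 0) (nat_lit 0x2003),.c (nat_lit 5)
    (nat_lit 2)],.l (nat_lit 12) (nat_lit 960) (nat_lit 4)
    (nat_lit 0x15700000157000001340000013400000130000001300000016e0000016e0000013800000138)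
    (nat_lit 0x17000000170000003a0000003a0000003e0000003e00000000000000000000003600000036)
    (nat_lit 0x1403c011d3c01193c01773c01213c03c01403c011d3c00cb3c01673c011111d3c01483c00e63c01443c00fe3c03c011d3c01483c00f63c01343c00fe0cb3c00f63c00f23c01303c00fa3c03c01193c00e63c00f23c01303c01021673c01343c01303c01663c01383c03c01773c01443c01303c01663c01381113c00fe3c01023c01383c00e23c03c01213c00fe3c00fa3c01383c00e2)
    (nat_lit 0x1403c03c03c03c03c03c03c03c03c03c01403c03c03c03c03c03c03c03c011d3c01483c03c03c03c03c03c03c03c011d3c01483c03c03c03c03c03c01193c00e63c00f23c03c03c03c03c03c00cb3c00f63c00f23c03c03c03c01773c01443c01303c01663c03c03c03c01673c01343c01303c01663c03c01213c00fe3c00fa3c01383c00e23c03c01113c00fe3c01023c01383c00e2)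
    (nat_lit 4) [[nat_lit 2,nat_lit 3,nat_lit 4,nat_lit 18,nat_lit 258,nat_lit 0x1002,nat_lit 0x10002,nat_lit 17,
    nat_lit 273,nat_lit 0x1011,nat_lit 257,nat_lit 513,nat_lit 0x1101,nat_lit 0x10101,nat_lit 0x1001,nat_lit 0x2001,
    nat_lit 0x11001,nat_lit 0x10001,nat_lit 0x20001],[nat_lit 32,nat_lit 272,nat_lit 528,nat_lit 0x1110,
    nat_lit 0x10110,nat_lit 0x1010,nat_lit 0x10010],[nat_lit 512,nat_lit 768,nat_lit 0x1200,nat_lit 0x10200,
    nat_lit 0x1100,nat_lit 0x2200,nat_lit 0x2100,nat_lit 0x11100,nat_lit 0x10100,nat_lit 0x20100],[nat_lit 0x2000,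
    nat_lit 0x12000,nat_lit 0x11000,nat_lit 0x21000],[nat_lit 0x20000]] [.c (nat_lit 1) (nat_lit 2),.r (nat_lit 1)
    (nat_lit 1) [nat_lit 0x2432],.r (nat_lit 56) (nat_lit 5) [nat_lit 0x20001,nat_lit 34],.r (nat_lit 1) (nat_lit 1)
    [nat_lit 0x22231],.c (nat_lit 1) (nat_lit 0x2032),.r (nat_lit 64) (nat_lit 6) [nat_lit 0x95021,nat_lit 0x42231],
    .r (nat_lit 4) (nat_lit 3) [nat_lit 0x40521,nat_lit 0x30201],.c (nat_lit 0) (nat_lit 0x4203),.c (nat_lit 2)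
    (nat_lit 0x2032),.r (nat_lit 26) (nat_lit 0) [nat_lit 0x42001,nat_lit 0x30431],.c (nat_lit 0) (nat_lit 581),.c
    (nat_lit 2) (nat_lit 0x8252),.c (nat_lit 4) (nat_lit 0x2032),.c (nat_lit 5) (nat_lit 0x2032),.r (nat_lit 54)
    (nat_lit 6) [nat_lit 0x53021,nat_lit 561],.r (nat_lit 26) (nat_lit 0) [nat_lit 0x42001,nat_lit 0x93832],.r
    (nat_lit 1) (nat_lit 1) [nat_lit 561],.r (nat_lit 0) (nat_lit 4) [nat_lit 33],.r (nat_lit 1) (nat_lit 6)
    [nat_lit 0x53432],.c (nat_lit 2) (nat_lit 2),.c (nat_lit 2) (nat_lit 0x6232),.r (nat_lit 3) (nat_lit 3)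
    [nat_lit 0x20031,nat_lit 0x30201],.r (nat_lit 1) (nat_lit 4) [nat_lit 561],.r (nat_lit 74) (nat_lit 6)
    [nat_lit 0x53231,nat_lit 33],.c (nat_lit 0) (nat_lit 0x2003),.c (nat_lit 0) (nat_lit 0x2003),.c (nat_lit 2)
    (nat_lit 0xc452),.r (nat_lit 55) (nat_lit 5) [nat_lit 0x20001,nat_lit 0x70631],.r (nat_lit 4) (nat_lit 8)
    [nat_lit 0x40521,nat_lit 0x30201],.r (nat_lit 18) (nat_lit 6) [nat_lit 0x53231,nat_lit 33],.c (nat_lit 0)
    (nat_lit 0x5345),.r (nat_lit 1) (nat_lit 6) [nat_lit 34],.r (nat_lit 43) (nat_lit 3) [nat_lit 0x53231,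
    nat_lit 0x42001],.c (nat_lit 2) (nat_lit 0x4232),.c (nat_lit 0) (nat_lit 0x5345),.r (nat_lit 38) (nat_lit 5)
    [nat_lit 0x84521,nat_lit 0x53431],.c (nat_lit 4) (nat_lit 2),.r (nat_lit 26) (nat_lit 0) [nat_lit 0x42001,
    nat_lit 0x53431],.c (nat_lit 0) (nat_lit 0x2003),.r (nat_lit 1) (nat_lit 6) [nat_lit 0x33231],.c (nat_lit 5)
    (nat_lit 2)],.l (nat_lit 12) (nat_lit 720) (nat_lit 3)
    (nat_lit 0xed000000ed0000011600000116000000dd000000dd000000ef000000ef00000115000000ed)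
    (nat_lit 0x29000000290000000000000000000000390000003900000027000000270000002900000001)
    (nat_lit 0xf62d00ed2d00b42d00b42d00c42d02d00f62d00ed2d00b42d00c62d00da0ed2d01162d00dd2d01012d00bb2d02d00ed2d01162d00dd2d00df2d01170b42d00dd2d00b42d00b42d00b42d02d00b42d00dd2d00b42d00b62d00b40c62d00df2d00b62d00f02d00c62d02d00b42d01012d00b42d00f02d00ee0da2d01172d00b42d00ee2d00fe2d02d00c42d00bb2d00b42d00c62d00fe)
    (nat_lit 0xf62d02d02d02d02d02d02d02d02d02d00f62d02d02d02d02d02d02d02d00ed2d01162d02d02d02d02d02d02d02d00ed2d01162d02d02d02d02d02d00b42d00dd2d00b42d02d02d02d02d02d00b42d00dd2d00b42d02d02d02d00b42d01012d00b42d00f02d02d02d02d00c62d00df2d00b62d00f02d02d00c42d00bb2d00b42d00c62d00fe2d02d00da2d01172d00b42d00ee2d00fe)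
    (nat_lit 4) [[nat_lit 2,nat_lit 18,nat_lit 258,nat_lit 0x10002,nat_lit 17,nat_lit 33,nat_lit 273,
    nat_lit 0x10011,nat_lit 257,nat_lit 513,nat_lit 0x1101,nat_lit 0x10101,nat_lit 0x1001,nat_lit 0x1011,
    nat_lit 0x11001,nat_lit 0x10001,nat_lit 0x20001],[nat_lit 32,nat_lit 288,nat_lit 0x10020,nat_lit 272,
    nat_lit 528,nat_lit 0x1110,nat_lit 0x10110,nat_lit 0x1010,nat_lit 0x11010,nat_lit 0x10010,nat_lit 0x20010],
    [nat_lit 512,nat_lit 768,nat_lit 0x1200,nat_lit 0x10200,nat_lit 0x1100,nat_lit 0x11100,nat_lit 0x10100,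
    nat_lit 0x20100],[nat_lit 0x2000,nat_lit 0x11000],[nat_lit 0x20000]] [.c (nat_lit 1) (nat_lit 2),.r (nat_lit 26)
    (nat_lit 6) [nat_lit 0x33402,nat_lit 0x22452],.r (nat_lit 3) (nat_lit 6) [nat_lit 0x73402,nat_lit 0x22454],.r
    (nat_lit 18) (nat_lit 1) [nat_lit 0x30231,nat_lit 0x20001],.c (nat_lit 0) (nat_lit 0x2249),.r (nat_lit 3)
    (nat_lit 6) [nat_lit 0x73402,nat_lit 0x62052],.r (nat_lit 1) (nat_lit 3) [nat_lit 561],.c (nat_lit 4)
    (nat_lit 0x3304),.c (nat_lit 0) (nat_lit 0x3045),.r (nat_lit 5) (nat_lit 1) [nat_lit 33,nat_lit 0x20001],.r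
    (nat_lit 3) (nat_lit 6) [nat_lit 0x73402,nat_lit 561],.c (nat_lit 2) (nat_lit 0x2032),.r (nat_lit 68)
    (nat_lit 1) [nat_lit 0x33492,nat_lit 33],.r (nat_lit 75) (nat_lit 1) [nat_lit 0x33492,nat_lit 33],.r (nat_lit 1)
    (nat_lit 1) [nat_lit 561],.c (nat_lit 0) (nat_lit 0x2249),.r (nat_lit 38) (nat_lit 3) [nat_lit 0x20541,
    nat_lit 0x30431],.c (nat_lit 2) (nat_lit 2),.r (nat_lit 1) (nat_lit 4) [nat_lit 0x22454],.r (nat_lit 1)
    (nat_lit 0) [nat_lit 0x62052],.r (nat_lit 0) (nat_lit 1) [nat_lit 33],.r (nat_lit 1) (nat_lit 4)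
    [nat_lit 0x32856],.r (nat_lit 1) (nat_lit 4) [nat_lit 561],.r (nat_lit 4) (nat_lit 1) [nat_lit 0x33582,
    nat_lit 561],.c (nat_lit 0) (nat_lit 0x2003),.r (nat_lit 57) (nat_lit 0) [nat_lit 0x20031,nat_lit 561],.c
    (nat_lit 0) (nat_lit 0x2249),.r (nat_lit 18) (nat_lit 4) [nat_lit 0x22052,nat_lit 33],.c (nat_lit 3)
    (nat_lit 2),.r (nat_lit 1) (nat_lit 4) [nat_lit 0x72c58],.r (nat_lit 1) (nat_lit 4) [nat_lit 0x30432],.r
    (nat_lit 61) (nat_lit 2) [nat_lit 0x22492,nat_lit 33],.c (nat_lit 2) (nat_lit 0x6254),.r (nat_lit 1) (nat_lit 0)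
    [nat_lit 561],.c (nat_lit 0) (nat_lit 0x3045),.r (nat_lit 1) (nat_lit 0) [nat_lit 0x22454],.c (nat_lit 4)
    (nat_lit 2),.r (nat_lit 0) (nat_lit 3) [nat_lit 33],.c (nat_lit 5) (nat_lit 2)],.l (nat_lit 12) (nat_lit 720)
    (nat_lit 3) (nat_lit 0xed00000115000000ef000000ef000000dd000000dd0000011600000116000000ed000000ed)
    (nat_lit 0x1000000290000002700000027000000390000003900000000000000000000002900000029)
    (nat_lit 0xfe2d00c62d00b42d00bb2d00c42d02d00fe2d00ee2d00b42d01172d00da0ee2d00f02d00b42d01012d00b42d02d00c62d00f02d00b62d00df2d00c60b42d00b62d00b42d00dd2d00b42d02d00b42d00b42d00b42d00dd2d00b41172d00df2d00dd2d01162d00ed2d02d00bb2d01012d00dd2d01162d00ed0da2d00c62d00b42d00ed2d00f62d02d00c42d00b42d00b42d00ed2d00f6)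
    (nat_lit 0xfe2d02d02d02d02d02d02d02d02d02d00fe2d02d02d02d02d02d02d02d00c62d00f02d02d02d02d02d02d02d02d00ee2d00f02d02d02d02d02d02d00b42d00b42d00b42d02d02d02d02d02d00b42d00b62d00b42d02d02d02d00bb2d01012d00dd2d01162d02d02d02d01172d00df2d00dd2d01162d02d00c42d00b42d00b42d00ed2d00f62d02d00da2d00c62d00b42d00ed2d00f6)
    (nat_lit 4) [[nat_lit 2,nat_lit 258,nat_lit 0x1002,nat_lit 0x10002,nat_lit 17,nat_lit 273,nat_lit 0x1011,
    nat_lit 0x10011,nat_lit 257,nat_lit 513,nat_lit 0x1101,nat_lit 0x10101,nat_lit 0x1001,nat_lit 0x2001,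
    nat_lit 0x11001,nat_lit 0x10001,nat_lit 0x20001],[nat_lit 32,nat_lit 272,nat_lit 528,nat_lit 0x1110,
    nat_lit 0x10110,nat_lit 0x1010,nat_lit 0x10010,nat_lit 0x11010],[nat_lit 512,nat_lit 768,nat_lit 0x1200,
    nat_lit 0x10200,nat_lit 0x1100,nat_lit 0x2100,nat_lit 0x11100,nat_lit 0x10100,nat_lit 0x20100],[nat_lit 0x2000,
    nat_lit 0x12000,nat_lit 0x11000,nat_lit 0x21000],[nat_lit 0x20000]] [.c (nat_lit 1) (nat_lit 2),.r (nat_lit 1)
    (nat_lit 3) [nat_lit 0x32673],.r (nat_lit 57) (nat_lit 6) [nat_lit 0x35063,nat_lit 0x32673],.r (nat_lit 1)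
    (nat_lit 6) [nat_lit 0x32673],.c (nat_lit 1) (nat_lit 0x3206),.r (nat_lit 1) (nat_lit 3) [nat_lit 561],.r
    (nat_lit 57) (nat_lit 6) [nat_lit 0x53063,nat_lit 561],.r (nat_lit 1) (nat_lit 6) [nat_lit 561],.r (nat_lit 0)
    (nat_lit 1) [nat_lit 0x23063],.r (nat_lit 1) (nat_lit 3) [nat_lit 0x53c76],.r (nat_lit 1) (nat_lit 4)
    [nat_lit 0x32673],.r (nat_lit 4) (nat_lit 5) [nat_lit 0x20541,nat_lit 0x32673],.r (nat_lit 44) (nat_lit 4)
    [nat_lit 33,nat_lit 0x23063],.r (nat_lit 57) (nat_lit 6) [nat_lit 0x53066,nat_lit 0x53c76],.r (nat_lit 1)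
    (nat_lit 1) [nat_lit 561],.r (nat_lit 0) (nat_lit 4) [nat_lit 33],.r (nat_lit 1) (nat_lit 6) [nat_lit 0x53c76],
    .c (nat_lit 1) (nat_lit 0x5406),.r (nat_lit 0) (nat_lit 1) [nat_lit 33],.r (nat_lit 1) (nat_lit 3)
    [nat_lit 0x35c76],.r (nat_lit 1) (nat_lit 4) [nat_lit 561],.r (nat_lit 4) (nat_lit 5) [nat_lit 0x24dc3,
    nat_lit 561],.r (nat_lit 44) (nat_lit 4) [nat_lit 0x32063,nat_lit 33],.r (nat_lit 0) (nat_lit 4)
    [nat_lit 0x32063],.r (nat_lit 1) (nat_lit 1) [nat_lit 0x23673],.c (nat_lit 3) (nat_lit 2),.r (nat_lit 1)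
    (nat_lit 3) [nat_lit 0x33633],.r (nat_lit 43) (nat_lit 7) [nat_lit 0x35673,nat_lit 33],.r (nat_lit 18)
    (nat_lit 6) [nat_lit 0x53673,nat_lit 33],.c (nat_lit 0) (nat_lit 0x53cd),.r (nat_lit 26) (nat_lit 6)
    [nat_lit 33,nat_lit 0x35c73],.c (nat_lit 1) (nat_lit 0x2476),.c (nat_lit 0) (nat_lit 0x53cd),.r (nat_lit 18)
    (nat_lit 8) [nat_lit 0x35673,nat_lit 33],.c (nat_lit 4) (nat_lit 2),.r (nat_lit 26) (nat_lit 0)
    [nat_lit 0x42003,nat_lit 0x53c73],.c (nat_lit 0) (nat_lit 0x53cd),.r (nat_lit 43) (nat_lit 1) [nat_lit 0x53673,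
    nat_lit 33],.c (nat_lit 5) (nat_lit 2)],.l (nat_lit 12) (nat_lit 720) (nat_lit 3)
    (nat_lit 0xed000000ed0000011600000116000000dd000000dd000000ef000000ef00000115000000ed)
    (nat_lit 0x29000000290000000000000000000000390000003900000027000000270000002900000001)
    (nat_lit 0xf62d00ed2d00b42d00b42d00c42d02d00f62d00ed2d00b42d00c62d00da0ed2d01162d00dd2d01012d00bb2d02d00ed2d01162d00dd2d00df2d01170b42d00dd2d00b42d00b42d00b42d02d00b42d00dd2d00b42d00b62d00b40c62d00df2d00b62d00f02d00c62d02d00b42d01012d00b42d00f02d00ee0da2d01172d00b42d00ee2d00fe2d02d00c42d00bb2d00b42d00c62d00fe)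
    (nat_lit 0xf62d02d02d02d02d02d02d02d02d02d00f62d02d02d02d02d02d02d02d00ed2d01162d02d02d02d02d02d02d02d00ed2d01162d02d02d02d02d02d00b42d00dd2d00b42d02d02d02d02d02d00b42d00dd2d00b42d02d02d02d00b42d01012d00b42d00f02d02d02d02d00c62d00df2d00b62d00f02d02d00c42d00bb2d00b42d00c62d00fe2d02d00da2d01172d00b42d00ee2d00fe)
    (nat_lit 4) [[nat_lit 2,nat_lit 18,nat_lit 258,nat_lit 0x10002,nat_lit 17,nat_lit 33,nat_lit 273,
    nat_lit 0x10011,nat_lit 257,nat_lit 513,nat_lit 0x1101,nat_lit 0x10101,nat_lit 0x1001,nat_lit 0x1011,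
    nat_lit 0x11001,nat_lit 0x10001,nat_lit 0x20001],[nat_lit 32,nat_lit 288,nat_lit 0x10020,nat_lit 272,
    nat_lit 528,nat_lit 0x1110,nat_lit 0x10110,nat_lit 0x1010,nat_lit 0x11010,nat_lit 0x10010,nat_lit 0x20010],
    [nat_lit 512,nat_lit 768,nat_lit 0x1200,nat_lit 0x10200,nat_lit 0x1100,nat_lit 0x11100,nat_lit 0x10100,
    nat_lit 0x20100],[nat_lit 0x2000,nat_lit 0x11000],[nat_lit 0x20000]] [.c (nat_lit 1) (nat_lit 2),.r (nat_lit 26)
    (nat_lit 6) [nat_lit 0x33201,nat_lit 0x22231],.r (nat_lit 26) (nat_lit 6) [nat_lit 0x33201,nat_lit 0x30431],.r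
    (nat_lit 38) (nat_lit 2) [nat_lit 0x20541,nat_lit 0x30431],.c (nat_lit 0) (nat_lit 0x6405),.r (nat_lit 1)
    (nat_lit 3) [nat_lit 0x42031],.r (nat_lit 1) (nat_lit 3) [nat_lit 561],.c (nat_lit 4) (nat_lit 0x3302),.c
    (nat_lit 0) (nat_lit 0x3045),.r (nat_lit 1) (nat_lit 3) [nat_lit 0x53431],.r (nat_lit 26) (nat_lit 6)
    [nat_lit 0x33201,nat_lit 0x53651],.c (nat_lit 4) (nat_lit 0x2032),.r (nat_lit 68) (nat_lit 1) [nat_lit 0x33251,
    nat_lit 33],.r (nat_lit 26) (nat_lit 6) [nat_lit 0x33201,nat_lit 0x42251],.r (nat_lit 1) (nat_lit 1)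
    [nat_lit 561],.c (nat_lit 4) (nat_lit 770),.r (nat_lit 18) (nat_lit 9) [nat_lit 0x30231,nat_lit 0x20001],.c
    (nat_lit 2) (nat_lit 2),.r (nat_lit 1) (nat_lit 4) [nat_lit 0x22232],.r (nat_lit 4) (nat_lit 1)
    [nat_lit 0xb7241,nat_lit 0x42031],.c (nat_lit 2) (nat_lit 0x4232),.r (nat_lit 1) (nat_lit 4) [nat_lit 0x30432],
    .r (nat_lit 1) (nat_lit 4) [nat_lit 561],.r (nat_lit 4) (nat_lit 1) [nat_lit 0x33341,nat_lit 561],.c (nat_lit 0)
    (nat_lit 0x2003),.r (nat_lit 1) (nat_lit 0) [nat_lit 0x42031],.c (nat_lit 0) (nat_lit 0x6405),.r (nat_lit 1)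
    (nat_lit 0) [nat_lit 0x64032],.c (nat_lit 2) (nat_lit 0x8452),.r (nat_lit 1) (nat_lit 4) [nat_lit 0x73632],.r
    (nat_lit 1) (nat_lit 4) [nat_lit 0x53431],.r (nat_lit 4) (nat_lit 1) [nat_lit 0x62741,nat_lit 0x53431],.c
    (nat_lit 0) (nat_lit 0x3323),.r (nat_lit 1) (nat_lit 0) [nat_lit 561],.c (nat_lit 0) (nat_lit 0x3045),.r
    (nat_lit 1) (nat_lit 0) [nat_lit 0x22232],.c (nat_lit 4) (nat_lit 2),.r (nat_lit 0) (nat_lit 3) [nat_lit 33],.c
    (nat_lit 5) (nat_lit 2)],.l (nat_lit 13) (nat_lit 1920) (nat_lit 3)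
    (nat_lit 0x2a4000002a4000002a4000003320000026e0000026e000002b6000002a4000002fc000002e2)
    (nat_lit 0x8e0000008e000000000000008e000000c4000000c40000008e0000007c0000005000000036)
    (nat_lit 0x1451e005c07800f01e0042c78012a1e00f0028a3c00858f001e03c008a0f002a210b1e005487800f01e003c47800f01e00f002e03c00a90f0026e3c00780f002fc0f01e004dc7801401e003c07800f11e00f001e03c00780f002803c007c8f001e01141e003c07800f91e005007801331e00f002163c00788f001e03c00a00f0026e1511e005f87800f01e004dc7801561e00f002543c00780f001e23c00998f002ac)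
    (nat_lit 0x1451e00f007803c01e00f007803c01e00f0028a3c01e00f007803c01e00f007801701e005487803c01e00f007803c01e00f002163c00a90f007803c01e00f007800f01e003c07801401e00f007803c01e00f001e03c009b8f002803c01e00f0078010b1e003c47800f01e005007803c01e00f002283c00780f001f23c00a00f0078012a1e003c07800f11e004cc7801561e00f002a23c00bf0f001e03c009b8f002ac)
    (nat_lit 3) [[nat_lit 2,nat_lit 258,nat_lit 17,nat_lit 33,nat_lit 273,nat_lit 0x1011,nat_lit 0x10011,
    nat_lit 257,nat_lit 513,nat_lit 0x1101,nat_lit 0x10101,nat_lit 0x1001,nat_lit 0x11001,nat_lit 0x10001],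
    [nat_lit 32,nat_lit 288,nat_lit 0x1020,nat_lit 0x10020,nat_lit 272,nat_lit 528,nat_lit 0x1110,nat_lit 0x10110,
    nat_lit 0x1010,nat_lit 0x2010,nat_lit 0x11010,nat_lit 0x10010,nat_lit 0x20010],[nat_lit 512,nat_lit 0x1200,
    nat_lit 0x10200,nat_lit 0x1100,nat_lit 0x2100,nat_lit 0x11100,nat_lit 0x10100,nat_lit 0x20100],[nat_lit 0x2000,
    nat_lit 0x11000],[nat_lit 0x20000]] [.c (nat_lit 1) (nat_lit 2),.r (nat_lit 78) (nat_lit 8) [nat_lit 0x619,
    nat_lit 17],.c (nat_lit 0) (nat_lit 147),.r (nat_lit 77) (nat_lit 4) [nat_lit 0x919,nat_lit 0x6e1],.r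
    (nat_lit 1) (nat_lit 3) [nat_lit 153],.r (nat_lit 57) (nat_lit 8) [nat_lit 0x6d1,nat_lit 153],.r (nat_lit 1)
    (nat_lit 6) [nat_lit 153],.r (nat_lit 71) (nat_lit 8) [nat_lit 0x619,nat_lit 17],.r (nat_lit 76) (nat_lit 8)
    [nat_lit 0xa19,nat_lit 17],.r (nat_lit 75) (nat_lit 5) [nat_lit 0x4a9,nat_lit 17],.r (nat_lit 74) (nat_lit 8)
    [nat_lit 0x619,nat_lit 17],.r (nat_lit 68) (nat_lit 5) [nat_lit 0x4a9,nat_lit 17],.r (nat_lit 1) (nat_lit 1)
    [nat_lit 153],.r (nat_lit 0) (nat_lit 4) [nat_lit 17],.c (nat_lit 2) (nat_lit 2),.r (nat_lit 65) (nat_lit 5)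
    [nat_lit 17,nat_lit 0x919],.r (nat_lit 64) (nat_lit 8) [nat_lit 0xb51,nat_lit 0x519],.r (nat_lit 61) (nat_lit 6)
    [nat_lit 0x6a9,nat_lit 17],.r (nat_lit 0) (nat_lit 1) [nat_lit 17],.r (nat_lit 1) (nat_lit 3) [nat_lit 0x69a],.r
    (nat_lit 1) (nat_lit 4) [nat_lit 153],.r (nat_lit 4) (nat_lit 5) [nat_lit 0x4e1,nat_lit 153],.r (nat_lit 54)
    (nat_lit 8) [nat_lit 0x6d1,nat_lit 153],.r (nat_lit 57) (nat_lit 8) [nat_lit 0x6d2,nat_lit 0x69a],.r (nat_lit 3)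
    (nat_lit 8) [nat_lit 0x6d1,nat_lit 153],.r (nat_lit 2) (nat_lit 5) [nat_lit 0x4e1,nat_lit 153],.r (nat_lit 1)
    (nat_lit 6) [nat_lit 0x69a],.c (nat_lit 3) (nat_lit 2),.r (nat_lit 43) (nat_lit 7) [nat_lit 0x619,nat_lit 17],.r
    (nat_lit 38) (nat_lit 4) [nat_lit 0x811,nat_lit 0x699],.c (nat_lit 0) (nat_lit 213),.r (nat_lit 26) (nat_lit 6)
    [nat_lit 17,nat_lit 0x699],.c (nat_lit 1) (nat_lit 130),.c (nat_lit 0) (nat_lit 213),.r (nat_lit 18) (nat_lit 8)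
    [nat_lit 0x619,nat_lit 17],.c (nat_lit 4) (nat_lit 2),.c (nat_lit 0) (nat_lit 213),.c (nat_lit 5) (nat_lit 2)],
    .g (nat_lit 3) (nat_lit 1) (nat_lit 0x500000003000000020000000300000000)
    (nat_lit 0x300000000000000000000000600000009) (nat_lit 3) (nat_lit 0x1404600000a50) [nat_lit 1034433,
    nat_lit 1370344,nat_lit 403504,nat_lit 13979648],.g (nat_lit 3) (nat_lit 2)
    (nat_lit 0x600000009000000040000000100000000) (nat_lit 0x300000000000000030000000600000006) (nat_lit 3)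
    (nat_lit 0x1404600000630) [nat_lit 5591043,nat_lit 1123318,nat_lit 1674617,nat_lit 11266,nat_lit 8392704],.g
    (nat_lit 3) (nat_lit 2) (nat_lit 0x700000005000000040000000100000000)
    (nat_lit 0x300000000000000060000000900000009) (nat_lit 6) (nat_lit 0x1404600000a50) [nat_lit 1486452,
    nat_lit 584294,nat_lit 738956,nat_lit 13979652],.g (nat_lit 9) (nat_lit 1)
    (nat_lit 0xa00000013000000100000000900000000) (nat_lit 0x900000000000000000000000000000009) (nat_lit 0)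
    (nat_lit 0x1404600000c60) [nat_lit 2892130,nat_lit 2834571,nat_lit 2232306,nat_lit 1593312,nat_lit 1196129,
    nat_lit 1114426,nat_lit 1343993,nat_lit 1868345,nat_lit 1712635],.g (nat_lit 6) (nat_lit 2)
    (nat_lit 0x70000000d000000080000000200000000) (nat_lit 0x600000000000000000000000600000006) (nat_lit 6)
    (nat_lit 0x1404600000840) [nat_lit 2207567,nat_lit 1330671,nat_lit 806025,nat_lit 584412,nat_lit 592129,
    nat_lit 837465,nat_lit 1394165,nat_lit 2286738,nat_lit 3162866,nat_lit 3195178,nat_lit 401439],.l (nat_lit 20)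
    (nat_lit 234240) (nat_lit 6)
    (nat_lit 0x183ec000183ec0001236b0001236b000185d4000185d400012183000121830000e83000017230)
    (nat_lit 0x1e8000001e8000062690000626900000000000000000000645100006451000013a400009da4)
    (nat_lit 0x18204393000ef793930020f14393000c3273930017048393003930018204393001218339300183ec3930015575393000dea812183393000c102393000ed91393000c6ba3930010fc739300393000ef79393000c102393001236b393000f12439300085c7183ec393001236b39300153ca3930012183393001a43a393003930020f14393000ed9139300153ca3930012183393000e83015575393000f1243930012183393000bd3239300082b739300393000c327393000c6ba3930012183393000bd3239300083df0dea839300085c7393000e83039300083df39300131003930039300170483930010fc7393001a43a39300082b73930013100)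
    (nat_lit 0x18204393003930039300393003930039300393003930039300393001820439300393003930039300393003930039300393000ef79393000c102393003930039300393003930039300393003930012183393000c1023930039300393003930039300393001dd0a393000ed9139300153ca393003930039300393003930039300183ec393001236b39300153ca393003930039300393000c327393000c6ba3930012183393000bd323930039300393003930015575393000f1243930012183393000bd323930039300145de3930010fc7393001a43a39300082b7393001069639300393000dea839300085c7393000e83039300083df3930010696)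
    (nat_lit 5) [[nat_lit 2,nat_lit 19,nat_lit 18,nat_lit 35,nat_lit 34,nat_lit 0x1012,nat_lit 0x10012,
    nat_lit 0x1002,nat_lit 0x2002,nat_lit 0x10002,nat_lit 17,nat_lit 51,nat_lit 50,nat_lit 66,nat_lit 0x1022,
    nat_lit 0x10022,nat_lit 0x2012,nat_lit 33,nat_lit 49,nat_lit 65,nat_lit 0x1031,nat_lit 289,nat_lit 0x1021,
    nat_lit 0x2021,nat_lit 0x10021,nat_lit 273,nat_lit 0x1111,nat_lit 0x1011,nat_lit 0x2011,nat_lit 0x3011,
    nat_lit 0x11011,nat_lit 0x10011,nat_lit 257,nat_lit 0x1101,nat_lit 0x1001,nat_lit 0x2001,nat_lit 0x3001,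
    nat_lit 0x11001,nat_lit 0x10001],[nat_lit 32,nat_lit 48,nat_lit 64,nat_lit 0x1030,nat_lit 288,nat_lit 0x1020,
    nat_lit 0x2020,nat_lit 0x10020,nat_lit 272,nat_lit 0x1110,nat_lit 0x1010,nat_lit 0x2010,nat_lit 0x3010,
    nat_lit 0x11010,nat_lit 0x10010,nat_lit 0x10110],[nat_lit 512,nat_lit 0x1200,nat_lit 0x1100,nat_lit 0x2100,
    nat_lit 0x11100],[nat_lit 0x2000,nat_lit 0x3000,nat_lit 0x4000,nat_lit 0x12000,nat_lit 0x11000],
    [nat_lit 0x20000]] [.c (nat_lit 1) (nat_lit 2),.c (nat_lit 0) (nat_lit 0xc02),.c (nat_lit 0) (nat_lit 0x2280d),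
    .c (nat_lit 0) (nat_lit 0xc02),.c (nat_lit 0) (nat_lit 0x21007),.c (nat_lit 1) (nat_lit 0x18c06),.r (nat_lit 10)
    (nat_lit 5) [nat_lit 0x2118e3,nat_lit 0xc41],.c (nat_lit 0) (nat_lit 0x2280d),.c (nat_lit 0) (nat_lit 0x21007),
    .r (nat_lit 79) (nat_lit 3) [nat_lit 0x18c81],.c (nat_lit 0) (nat_lit 0x2280d),.c (nat_lit 0) (nat_lit 0xc02),.r
    (nat_lit 83) (nat_lit 8) [nat_lit 0x73c801,nat_lit 0x30001,nat_lit 0x280c1],.r (nat_lit 84) (nat_lit 5)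
    [nat_lit 0x52b001,nat_lit 0x8200e2,nat_lit 0x20001],.c (nat_lit 0) (nat_lit 0x21007),.r (nat_lit 79) (nat_lit 8)
    [nat_lit 0x2100e3],.c (nat_lit 0) (nat_lit 0x21007),.c (nat_lit 0) (nat_lit 0x21007),.c (nat_lit 0)
    (nat_lit 0x40807),.c (nat_lit 0) (nat_lit 0x40807),.c (nat_lit 0) (nat_lit 0x40807),.r (nat_lit 10) (nat_lit 4)
    [nat_lit 0x2118e3,nat_lit 0xc41],.c (nat_lit 2) (nat_lit 0x18c06),.c (nat_lit 1) (nat_lit 0x28806),.r
    (nat_lit 82) (nat_lit 3) [nat_lit 0x200001,nat_lit 0x3018e1,nat_lit 0x10001],.r (nat_lit 1) (nat_lit 3)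
    [nat_lit 0x861],.c (nat_lit 3) (nat_lit 0x18c06),.c (nat_lit 1) (nat_lit 0x19006),.c (nat_lit 4)
    (nat_lit 0x18c06),.c (nat_lit 0) (nat_lit 0x20805),.c (nat_lit 3) (nat_lit 67),.r (nat_lit 1) (nat_lit 6)
    [nat_lit 0x861],.r (nat_lit 79) (nat_lit 3) [nat_lit 0x5119a3],.r (nat_lit 81) (nat_lit 5) [nat_lit 0x319801,
    nat_lit 0x201cc1,nat_lit 0x10001],.c (nat_lit 0) (nat_lit 0x2280d),.c (nat_lit 0) (nat_lit 0x21007),.c
    (nat_lit 0) (nat_lit 0x20805),.r (nat_lit 1) (nat_lit 1) [nat_lit 0x861],.r (nat_lit 0) (nat_lit 4)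
    [nat_lit 65],.c (nat_lit 2) (nat_lit 2),.c (nat_lit 0) (nat_lit 0x20805),.c (nat_lit 0) (nat_lit 0x20003),.c
    (nat_lit 0) (nat_lit 0x20805),.r (nat_lit 79) (nat_lit 0) [nat_lit 0xc41],.c (nat_lit 0) (nat_lit 0x21007),.c
    (nat_lit 1) (nat_lit 0x2a006),.r (nat_lit 80) (nat_lit 1) [nat_lit 0x200001,nat_lit 0x10001,nat_lit 0x5000c1],.r
    (nat_lit 0) (nat_lit 1) [nat_lit 65],.r (nat_lit 1) (nat_lit 4) [nat_lit 0x861],.c (nat_lit 1)
    (nat_lit 0x1a806),.c (nat_lit 0) (nat_lit 0x21007),.c (nat_lit 0) (nat_lit 0x20805),.r (nat_lit 55) (nat_lit 0)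
    [nat_lit 65,nat_lit 0x198e1],.r (nat_lit 44) (nat_lit 0) [nat_lit 65,nat_lit 0x319803],.c (nat_lit 0)
    (nat_lit 0x108e6),.c (nat_lit 3) (nat_lit 2),.r (nat_lit 79) (nat_lit 1) [nat_lit 0xc41],.r (nat_lit 0)
    (nat_lit 6) [nat_lit 65],.r (nat_lit 79) (nat_lit 8) [nat_lit 0xc41],.c (nat_lit 0) (nat_lit 0x108e6),.c
    (nat_lit 4) (nat_lit 2),.c (nat_lit 0) (nat_lit 0x20805),.c (nat_lit 0) (nat_lit 0x40807),.r (nat_lit 79)
    (nat_lit 6) [nat_lit 0xc41],.r (nat_lit 0) (nat_lit 3) [nat_lit 65],.c (nat_lit 3) (nat_lit 0x29587)],.g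
    (nat_lit 2) (nat_lit 1) (nat_lit 0x600000005000000040000000200000000)
    (nat_lit 0x200000002000000000000000600000008) (nat_lit 2) (nat_lit 0x1404600000840) [nat_lit 879458,
    nat_lit 796958,nat_lit 886257,nat_lit 1163975,nat_lit 475303,nat_lit 12587011],.g (nat_lit 10) (nat_lit 2)
    (nat_lit 0xb000000150000000f0000000500000000) (nat_lit 0xa00000000000000000000000a0000000a) (nat_lit 10)
    (nat_lit 0x1404600000dc0) [nat_lit 1974298,nat_lit 1278330,nat_lit 1819394,nat_lit 3621622,nat_lit 4972946,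
    nat_lit 3113027],.g (nat_lit 2) (nat_lit 2) (nat_lit 0x500000004000000030000000100000000)
    (nat_lit 0x200000000000000060000000800000008) (nat_lit 6) (nat_lit 0x14046000009a0) [nat_lit 1461617,
    nat_lit 601046,nat_lit 257107,nat_lit 200210,nat_lit 315201,nat_lit 552713,nat_lit 740745,nat_lit 93228,
    nat_lit 12587008],.g (nat_lit 2) (nat_lit 2) (nat_lit 0x600000005000000030000000100000000)
    (nat_lit 0x200000000000000080000000a0000000a) (nat_lit 8) (nat_lit 0x1404600000c60) [nat_lit 904001,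
    nat_lit 911669,nat_lit 460717,nat_lit 198483,nat_lit 100348,nat_lit 67956,nat_lit 84747,nat_lit 150521,
    nat_lit 281595,nat_lit 469785,nat_lit 584014,nat_lit 10245,nat_lit 12587008],.l (nat_lit 19) (nat_lit 87360)
    (nat_lit 6) (nat_lit 0x9257000092570000699900006999000092570000925700007b2000007b200000695400009f3e)
    (nat_lit 0xce700000ce7000035a5000035a500000ce700000ce70000241e0000241e00000000000035ea)
    (nat_lit 0xe63c555002e591554019fa055500371c95540124ae55500aaa00731e2aa80172c8aaa0085702aa801f11caaa0056bd0b9645550019fa1554009d48555002595955400f7d655500aaa005cb22aa800cfd0aaa005cb22aa80115ecaaa00405110ae0555002e591554010ae05550030cb95540124ae55500aaa00cfd02aa8013a90aaa0085702aa801b8e4aaa0048af0f88e5550022bd955400dc72555003560155400618055500aaa006e392aa8012cacaaa0061972aa801ab00aaa0045360ad7a555002028955400915e55500229b155400d2a855500aaa0092572aa801efacaaa0092572aa800c300aaa006954)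
    (nat_lit 0xe63c55500aaa0155402aa8055500aaa0155402aa8055500aaa00731e2aa8055500aaa0155402aa8055500aaa0155400b9645550019fa155402aa8055500aaa0155402aa8055500aaa005cb22aa800cfd0aaa0155402aa8055500aaa015540156ac5550027521554010ae055500aaa0155402aa8055500aaa0085702aa80172c8aaa0085702aa8055500aaa0155400dc72555002595955400c32e555003560155402aa8055500aaa007c472aa80115ecaaa006e392aa801ab00aaa015540124ae555003df595540124ae555001860155400d2a855500aaa0056bd2aa8010144aaa0048af2aa80114d8aaa006954)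
    (nat_lit 5) [[nat_lit 2,nat_lit 3,nat_lit 19,nat_lit 18,nat_lit 34,nat_lit 274,nat_lit 0x1012,nat_lit 258,
    nat_lit 0x1002,nat_lit 0x10002,nat_lit 17,nat_lit 290,nat_lit 0x1022,nat_lit 33,nat_lit 49,nat_lit 289,
    nat_lit 0x1021,nat_lit 273,nat_lit 0x1111,nat_lit 0x1011,nat_lit 0x2021,nat_lit 0x2011,nat_lit 0x3011,
    nat_lit 0x11011,nat_lit 0x10011,nat_lit 257,nat_lit 0x1101,nat_lit 0x1001,nat_lit 0x2001,nat_lit 0x3001,
    nat_lit 0x11001,nat_lit 0x10001],[nat_lit 32,nat_lit 48,nat_lit 288,nat_lit 0x1020,nat_lit 0x2020,nat_lit 272,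
    nat_lit 0x1110,nat_lit 0x2110,nat_lit 0x1010,nat_lit 0x2010,nat_lit 0x3010,nat_lit 0x4010,nat_lit 0x11010,
    nat_lit 0x12010,nat_lit 0x10010],[nat_lit 512,nat_lit 0x1200,nat_lit 0x1100,nat_lit 0x2100,nat_lit 0x3100,
    nat_lit 0x4100,nat_lit 0x11100],[nat_lit 0x2000,nat_lit 0x3000,nat_lit 0x4000,nat_lit 0x5000,nat_lit 0x6000,
    nat_lit 0x13000,nat_lit 0x12000,nat_lit 0x11000,nat_lit 0x21000],[nat_lit 0x20000]] [.c (nat_lit 1) (nat_lit 2),
    .c (nat_lit 1) (nat_lit 0xc02),.c (nat_lit 0) (nat_lit 0x11805),.c (nat_lit 2) (nat_lit 0xc02),.c (nat_lit 0)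
    (nat_lit 0x10803),.r (nat_lit 1) (nat_lit 1) [nat_lit 0x18041],.c (nat_lit 1) (nat_lit 0x18c04),.c (nat_lit 3)
    (nat_lit 0xc02),.c (nat_lit 4) (nat_lit 0xc02),.c (nat_lit 3) (nat_lit 0x18885),.c (nat_lit 0)
    (nat_lit 0x11805),.r (nat_lit 79) (nat_lit 6) [nat_lit 0x2100a2],.c (nat_lit 0) (nat_lit 0x10803),.c (nat_lit 0)
    (nat_lit 0x10803),.c (nat_lit 0) (nat_lit 0x30805),.r (nat_lit 10) (nat_lit 4) [nat_lit 0x2110a2,nat_lit 0xc41],
    .c (nat_lit 2) (nat_lit 0x18c04),.r (nat_lit 1) (nat_lit 3) [nat_lit 0x861],.c (nat_lit 3) (nat_lit 0x18c04),.c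
    (nat_lit 1) (nat_lit 0x18804),.c (nat_lit 1) (nat_lit 0x18002),.c (nat_lit 4) (nat_lit 0x18c04),.c (nat_lit 0)
    (nat_lit 0x30805),.c (nat_lit 3) (nat_lit 67),.r (nat_lit 1) (nat_lit 6) [nat_lit 0x861],.r (nat_lit 1)
    (nat_lit 4) [nat_lit 0x3110a2],.r (nat_lit 10) (nat_lit 5) [nat_lit 0x218082,nat_lit 0x10061],.c (nat_lit 0)
    (nat_lit 0x11805),.c (nat_lit 0) (nat_lit 0x10803),.c (nat_lit 0) (nat_lit 0x30805),.r (nat_lit 1) (nat_lit 1)
    [nat_lit 0x861],.r (nat_lit 0) (nat_lit 4) [nat_lit 65],.c (nat_lit 2) (nat_lit 2),.c (nat_lit 0)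
    (nat_lit 0x30805),.r (nat_lit 79) (nat_lit 0) [nat_lit 0xc41],.c (nat_lit 0) (nat_lit 0x10803),.c (nat_lit 1)
    (nat_lit 0x18802),.r (nat_lit 0) (nat_lit 1) [nat_lit 65],.r (nat_lit 1) (nat_lit 4) [nat_lit 0x861],.r
    (nat_lit 10) (nat_lit 5) [nat_lit 65,nat_lit 0x2100a2],.c (nat_lit 1) (nat_lit 0x19804),.c (nat_lit 0)
    (nat_lit 0x10803),.c (nat_lit 0) (nat_lit 0x30805),.c (nat_lit 0) (nat_lit 0x20003),.r (nat_lit 0) (nat_lit 4)
    [nat_lit 0x310082],.r (nat_lit 1) (nat_lit 1) [nat_lit 0x2190a2],.r (nat_lit 8) (nat_lit 1) [nat_lit 0x190a1,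
    nat_lit 65],.c (nat_lit 3) (nat_lit 2),.r (nat_lit 79) (nat_lit 1) [nat_lit 0xc41],.r (nat_lit 0) (nat_lit 6)
    [nat_lit 65],.r (nat_lit 79) (nat_lit 8) [nat_lit 0xc41],.r (nat_lit 88) (nat_lit 3) [nat_lit 0x200001,
    nat_lit 0x700081,nat_lit 0x10001],.r (nat_lit 89) (nat_lit 3) [nat_lit 0x200001,nat_lit 0x900081,
    nat_lit 0x10001],.c (nat_lit 0) (nat_lit 0x108a4),.c (nat_lit 4) (nat_lit 2),.c (nat_lit 0) (nat_lit 0x30805),.c
    (nat_lit 0) (nat_lit 0x20003),.r (nat_lit 87) (nat_lit 5) [nat_lit 0xb5d001,nat_lit 129,nat_lit 0x50001],.r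
    (nat_lit 9) (nat_lit 4) [nat_lit 0x630062,nat_lit 0x319002],.r (nat_lit 86) (nat_lit 7) [nat_lit 0x10001,
    nat_lit 0x200001,nat_lit 0x3190a1],.r (nat_lit 79) (nat_lit 6) [nat_lit 0xc41],.r (nat_lit 0) (nat_lit 3)
    [nat_lit 65],.r (nat_lit 79) (nat_lit 7) [nat_lit 0xc41],.c (nat_lit 3) (nat_lit 0x18c83)],.g (nat_lit 3)
    (nat_lit 1) (nat_lit 0x400000005000000040000000300000000) (nat_lit 0x100000001000000000000000000000003)
    (nat_lit 1) (nat_lit 0x14046000002c0) [nat_lit 4195450,nat_lit 12587008],.g (nat_lit 1) (nat_lit 4)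
    (nat_lit 0x100000000000000020000000300000001) (nat_lit 0x500000006000000030000000000000002) (nat_lit 3)
    (nat_lit 0x1404600000630) [nat_lit 4198401,nat_lit 1253972,nat_lit 151177,nat_lit 11186178],.g (nat_lit 1)
    (nat_lit 1) (nat_lit 0x700000008000000000000000400000003) (nat_lit 0x100000000000000060000000200000003)
    (nat_lit 2) (nat_lit 0x1404600000580) [nat_lit 9785347,nat_lit 707906,nat_lit 6295554],.l (nat_lit 17)
    (nat_lit 26880) (nat_lit 6)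
    (nat_lit 0x30ce000030ce0000260c0000260c00002bf900002bf9000029da000029da00001ada000035b4)
    (nat_lit 0x4e6000004e600000fa800000fa8000009bb000009bb00000bda00000bda0000000000001ada)
    (nat_lit 0x12261a4001e00690020f69a4004c18690018671a400d200244c348008498d200271334800a5a8d20015f410931a4002cc869000bed9a4003464690016d41a400d2000f00348005990d2001c51348008818d2000fa813899a40038a269000d351a400375269001f0f9a400d20041ed348005f6cd2001a6a34800807cd200111f14b51a400440c6900100f9a4003c00690007801a400d200260c3480068c8d2001ba9348007800d2000f000afa1a4001f506900088f9a4001e0069000ce11a400d20030ce34800b6a0d2003e1f348003c00d20019c2)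
    (nat_lit 0x12261a400d200690034801a400d200690034801a400d200244c34801a400d200690034801a400d200690007801a4002cc8690034801a400d200690034801a400d2002126348005990d200690034801a400d2006900136d9a4002fb669000d351a400d200690034801a400d2002713348007144d2001a6a34801a400d200690013061a400346469000dd49a4003c00690034801a400d200296a348008818d200201f348007800d200690018671a4005264690015549a4001e0069000ce11a400d20015f4348003ea0d200111f348003c00d20019c2)
    (nat_lit 4) [[nat_lit 2,nat_lit 3,nat_lit 4,nat_lit 19,nat_lit 18,nat_lit 35,nat_lit 34,nat_lit 274,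
    nat_lit 0x1012,nat_lit 0x11012,nat_lit 0x10012,nat_lit 0x1002,nat_lit 0x10002,nat_lit 17,nat_lit 51,nat_lit 50,
    nat_lit 290,nat_lit 0x1022,nat_lit 33,nat_lit 49,nat_lit 289,nat_lit 0x1021,nat_lit 273,nat_lit 529,
    nat_lit 0x1111,nat_lit 0x2111,nat_lit 0x11111,nat_lit 0x1011,nat_lit 0x2011,nat_lit 0x3011,nat_lit 0x12011,
    nat_lit 0x11011,nat_lit 0x10011,nat_lit 257,nat_lit 0x1101,nat_lit 0x1001,nat_lit 0x2001,nat_lit 0x11001,
    nat_lit 0x10001],[nat_lit 32,nat_lit 48,nat_lit 288,nat_lit 0x1020,nat_lit 272,nat_lit 528,nat_lit 0x1110,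
    nat_lit 0x1010,nat_lit 0x2010,nat_lit 0x11010,nat_lit 0x10010],[nat_lit 512,nat_lit 768,nat_lit 0x1200,
    nat_lit 0x2200,nat_lit 0x11200,nat_lit 0x1100,nat_lit 0x2100,nat_lit 0x3100,nat_lit 0x12100,nat_lit 0x11100],
    [nat_lit 0x2000,nat_lit 0x3000,nat_lit 0x4000,nat_lit 0x13000,nat_lit 0x12000,nat_lit 0x11000,nat_lit 0x22000,
    nat_lit 0x21000],[nat_lit 0x20000]] [.c (nat_lit 1) (nat_lit 2),.c (nat_lit 0) (nat_lit 0x8c03),.c (nat_lit 0)
    (nat_lit 0x8c03),.c (nat_lit 1) (nat_lit 0x5704),.c (nat_lit 0) (nat_lit 0x8c03),.c (nat_lit 0)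
    (nat_lit 0x8c03),.c (nat_lit 0) (nat_lit 0x8c03),.r (nat_lit 0) (nat_lit 6) [nat_lit 0x35021],.c (nat_lit 1)
    (nat_lit 0x3302),.r (nat_lit 1) (nat_lit 4) [nat_lit 0x33021],.r (nat_lit 0) (nat_lit 3) [nat_lit 0x35021],.c
    (nat_lit 0) (nat_lit 0x6803),.r (nat_lit 79) (nat_lit 2) [nat_lit 801],.c (nat_lit 0) (nat_lit 0x8c03),.c
    (nat_lit 2) (nat_lit 0x5702),.c (nat_lit 0) (nat_lit 0x8c03),.r (nat_lit 1) (nat_lit 4) [nat_lit 0x24231],.c
    (nat_lit 0) (nat_lit 0x6803),.c (nat_lit 0) (nat_lit 0x8c03),.c (nat_lit 0) (nat_lit 0x8c03),.r (nat_lit 10)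
    (nat_lit 4) [nat_lit 0x22231,nat_lit 801],.c (nat_lit 2) (nat_lit 0x3302),.r (nat_lit 1) (nat_lit 3)
    [nat_lit 561],.r (nat_lit 93) (nat_lit 6) [nat_lit 0x33201,nat_lit 0x86d61,nat_lit 0x53851],.c (nat_lit 3)
    (nat_lit 0x3302),.r (nat_lit 1) (nat_lit 6) [nat_lit 0x33021],.c (nat_lit 0) (nat_lit 0x4632),.c (nat_lit 0)
    (nat_lit 0x6803),.c (nat_lit 1) (nat_lit 0x5304),.c (nat_lit 0) (nat_lit 0x3002),.r (nat_lit 1) (nat_lit 3)
    [nat_lit 0x33021],.c (nat_lit 3) (nat_lit 35),.r (nat_lit 1) (nat_lit 6) [nat_lit 561],.r (nat_lit 44)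
    (nat_lit 3) [nat_lit 0x33201,nat_lit 33],.r (nat_lit 92) (nat_lit 3) [nat_lit 0x3021,nat_lit 0x20001,
    nat_lit 0x2001],.c (nat_lit 1) (nat_lit 516),.c (nat_lit 0) (nat_lit 0x4403),.r (nat_lit 1) (nat_lit 1)
    [nat_lit 561],.r (nat_lit 0) (nat_lit 4) [nat_lit 33],.c (nat_lit 2) (nat_lit 2),.c (nat_lit 0)
    (nat_lit 0x8c03),.r (nat_lit 79) (nat_lit 0) [nat_lit 801],.c (nat_lit 0) (nat_lit 0x6803),.r (nat_lit 0)
    (nat_lit 1) [nat_lit 33],.r (nat_lit 79) (nat_lit 9) [nat_lit 801],.r (nat_lit 1) (nat_lit 4) [nat_lit 561],.c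
    (nat_lit 0) (nat_lit 0x6803),.c (nat_lit 0) (nat_lit 0x4403),.r (nat_lit 79) (nat_lit 8) [nat_lit 0x3031],.r
    (nat_lit 44) (nat_lit 0) [nat_lit 33,nat_lit 0x33201],.c (nat_lit 3) (nat_lit 2),.r (nat_lit 91) (nat_lit 4)
    [nat_lit 0x77631,nat_lit 0x20001,nat_lit 33],.r (nat_lit 79) (nat_lit 1) [nat_lit 801],.r (nat_lit 1)
    (nat_lit 6) [nat_lit 34],.c (nat_lit 0) (nat_lit 0x4632),.r (nat_lit 0) (nat_lit 6) [nat_lit 33],.r (nat_lit 79)
    (nat_lit 8) [nat_lit 801],.r (nat_lit 44) (nat_lit 0) [nat_lit 0x3231,nat_lit 0x33201],.c (nat_lit 0)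
    (nat_lit 0x6a32),.c (nat_lit 0) (nat_lit 0x4632),.c (nat_lit 1) (nat_lit 514),.c (nat_lit 0) (nat_lit 0x2003),.c
    (nat_lit 0) (nat_lit 0x402),.r (nat_lit 0) (nat_lit 1) [nat_lit 0x3231],.r (nat_lit 1) (nat_lit 4)
    [nat_lit 0x2021],.r (nat_lit 0) (nat_lit 3) [nat_lit 33],.r (nat_lit 1) (nat_lit 3) [nat_lit 34],.r (nat_lit 79)
    (nat_lit 7) [nat_lit 801],.c (nat_lit 3) (nat_lit 0x5543)],.g (nat_lit 1) (nat_lit 4)
    (nat_lit 0x100000000000000010000000100000000) (nat_lit 0x500000006000000030000000000000002) (nat_lit 3)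
    (nat_lit 0x1404600000630) [nat_lit 608246,nat_lit 657204,nat_lit 476580,nat_lit 246620,nat_lit 249830,
    nat_lit 576778,nat_lit 13979650],.g (nat_lit 5) (nat_lit 1) (nat_lit 0x80000000b000000080000000500000000)
    (nat_lit 0x50000000000000000000000050000000a) (nat_lit 5) (nat_lit 0x1404600000a50) [nat_lit 2875663,
    nat_lit 2163181,nat_lit 11743232],.g (nat_lit 5) (nat_lit 1) (nat_lit 0x700000004000000070000000500000000)
    (nat_lit 0x500000000000000000000000000000005) (nat_lit 0) (nat_lit 0x14046000006e0) [nat_lit 3303011,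
    nat_lit 59386,nat_lit 13422596],.l (nat_lit 15) (nat_lit 6720) (nat_lit 6)
    (nat_lit 0x8850000088500000ab400000ab40000096e0000096e000009e7000009e70000062700000993)
    (nat_lit 0x22f0000022f00000000000000000000014600000146000000cd000000cd000001210000048d)
    (nat_lit 0x78069004429a40188a69002159a400ec86900d2003c034802214d200dfb34801ee0d2003dc110a69001fc1a4012dc69005019a4018526900d20088534800fe0d20096e34803640d2006271bf669004b71a4008fe69004509a40109a6900d200c45348025b8d20047f34802284d2004e10f7069006c81a401142690048d1a4007806900d20042b3480280cd2008a134802468d20055a07b869003139a4009c269002ad1a4011266900d200764348030a4d20084d34800f00d200893)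
    (nat_lit 0x7806900d201a4034806900d201a4034806900d2003c034806900d201a4034806900d201a40110a69001fc1a4034806900d201a4034806900d20088534800fe0d201a4034806900d201a40188a69004b71a4008fe6900d201a4034806900d200dfb348025b8d20047f34806900d201a40085669005019a401142690048d1a4034806900d2007b834803640d2008a134802468d201a400ec869006149a40109a69001e01a4011266900d2003dc3480189cd2004e134801568d200893)
    (nat_lit 5) [[nat_lit 2,nat_lit 3,nat_lit 18,nat_lit 274,nat_lit 0x10012,nat_lit 0x20012,nat_lit 258,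
    nat_lit 0x10002,nat_lit 0x20002,nat_lit 17,nat_lit 34,nat_lit 0x10022,nat_lit 0x20022,nat_lit 33,
    nat_lit 0x10021,nat_lit 0x20021,nat_lit 273,nat_lit 529,nat_lit 0x1011,nat_lit 0x2011,nat_lit 0x11011,
    nat_lit 0x10011,nat_lit 0x10112,nat_lit 0x20011,nat_lit 0x30011,nat_lit 0x40011,nat_lit 257,nat_lit 0x10102,
    nat_lit 0x10111,nat_lit 513,nat_lit 769,nat_lit 0x1101,nat_lit 0x10101,nat_lit 0x1001,nat_lit 0x2001,
    nat_lit 0x11001,nat_lit 0x10001,nat_lit 0x12001,nat_lit 0x20001,nat_lit 0x21001,nat_lit 0x30001,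
    nat_lit 0x40001],[nat_lit 32,nat_lit 0x10020,nat_lit 0x20020,nat_lit 272,nat_lit 528,nat_lit 0x1010,
    nat_lit 0x10010,nat_lit 0x20010,nat_lit 0x30010,nat_lit 0x40010],[nat_lit 512,nat_lit 768,nat_lit 0x400,
    nat_lit 0x500,nat_lit 0x1200,nat_lit 0x1100,nat_lit 0x2100],[nat_lit 0x2000,nat_lit 0x3000,nat_lit 0x4000,
    nat_lit 0x5000,nat_lit 0x6000,nat_lit 0x13000,nat_lit 0x12000,nat_lit 0x22000,nat_lit 0x11000,nat_lit 0x21000,
    nat_lit 0x31000],[nat_lit 0x20000,nat_lit 0x30000,nat_lit 0x40000,nat_lit 0x50000,nat_lit 0x60000]] [.c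
    (nat_lit 1) (nat_lit 2),.r (nat_lit 55) (nat_lit 0) [nat_lit 0x200001,nat_lit 0x701861],.c (nat_lit 0)
    (nat_lit 0x843),.c (nat_lit 0) (nat_lit 0x843),.r (nat_lit 79) (nat_lit 1) [nat_lit 0x300861],.c (nat_lit 0)
    (nat_lit 0x1002),.c (nat_lit 1) (nat_lit 0x10062),.r (nat_lit 79) (nat_lit 2) [nat_lit 0xc41],.c (nat_lit 3)
    (nat_lit 0x49503),.c (nat_lit 0) (nat_lit 0x843),.c (nat_lit 0) (nat_lit 0x21003),.r (nat_lit 79) (nat_lit 8)
    [nat_lit 0x210061],.c (nat_lit 0) (nat_lit 0x1002),.c (nat_lit 0) (nat_lit 0x21003),.r (nat_lit 8) (nat_lit 4)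
    [nat_lit 0x10041,nat_lit 0x318801],.c (nat_lit 0) (nat_lit 0x1002),.c (nat_lit 2) (nat_lit 0x10062),.r
    (nat_lit 1) (nat_lit 1) [nat_lit 0x200c41],.c (nat_lit 0) (nat_lit 0x843),.c (nat_lit 4) (nat_lit 0x18c02),.c
    (nat_lit 3) (nat_lit 67),.r (nat_lit 1) (nat_lit 6) [nat_lit 0x861],.c (nat_lit 0) (nat_lit 0x10862),.c
    (nat_lit 0) (nat_lit 0x1002),.c (nat_lit 0) (nat_lit 0x19842),.c (nat_lit 0) (nat_lit 0x2a082),.c (nat_lit 0)
    (nat_lit 0x28083),.c (nat_lit 3) (nat_lit 0x38cc3),.c (nat_lit 4) (nat_lit 67),.c (nat_lit 3) (nat_lit 0x10062),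
    .r (nat_lit 0) (nat_lit 4) [nat_lit 0x719861],.c (nat_lit 4) (nat_lit 0x10062),.c (nat_lit 3) (nat_lit 0x28c83),
    .c (nat_lit 0) (nat_lit 0x843),.c (nat_lit 0) (nat_lit 0x21003),.r (nat_lit 1) (nat_lit 1) [nat_lit 0x861],.r
    (nat_lit 0) (nat_lit 4) [nat_lit 65],.r (nat_lit 10) (nat_lit 4) [nat_lit 65,nat_lit 0x210061],.c (nat_lit 3)
    (nat_lit 0x394c3),.c (nat_lit 0) (nat_lit 0x1002),.c (nat_lit 0) (nat_lit 0x19842),.c (nat_lit 0)
    (nat_lit 0x2a082),.c (nat_lit 2) (nat_lit 2),.r (nat_lit 79) (nat_lit 6) [nat_lit 0x400c61],.c (nat_lit 4)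
    (nat_lit 0x20003),.c (nat_lit 0) (nat_lit 0x843),.r (nat_lit 79) (nat_lit 9) [nat_lit 0xc41],.c (nat_lit 0)
    (nat_lit 0x843),.c (nat_lit 0) (nat_lit 0x10003),.c (nat_lit 0) (nat_lit 0x1002),.c (nat_lit 0)
    (nat_lit 0x19842),.c (nat_lit 0) (nat_lit 0x2a082),.c (nat_lit 3) (nat_lit 2),.r (nat_lit 79) (nat_lit 2)
    [nat_lit 0x719061],.r (nat_lit 0) (nat_lit 4) [nat_lit 0x92a062],.r (nat_lit 97) (nat_lit 9) [nat_lit 0x1452c41,
    nat_lit 0xb5a861,nat_lit 0xb02861],.r (nat_lit 79) (nat_lit 1) [nat_lit 0xc41],.c (nat_lit 0) (nat_lit 0x843),.r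
    (nat_lit 79) (nat_lit 8) [nat_lit 0xc41],.c (nat_lit 4) (nat_lit 2),.r (nat_lit 45) (nat_lit 6) [nat_lit 65,
    nat_lit 0x318801],.r (nat_lit 8) (nat_lit 4) [nat_lit 0x840062,nat_lit 0x318801],.r (nat_lit 96) (nat_lit 4)
    [nat_lit 0xa00061,nat_lit 65,nat_lit 0x155a841],.r (nat_lit 9) (nat_lit 4) [nat_lit 0xc60062,nat_lit 0x318801],
    .r (nat_lit 95) (nat_lit 9) [nat_lit 65,nat_lit 0x10041,nat_lit 0x200061],.r (nat_lit 79) (nat_lit 6)
    [nat_lit 0xc41],.c (nat_lit 2) (nat_lit 0x20003),.c (nat_lit 0) (nat_lit 0x10003),.c (nat_lit 0)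
    (nat_lit 0x1002),.c (nat_lit 0) (nat_lit 0x19842),.c (nat_lit 3) (nat_lit 0x29483),.c (nat_lit 0)
    (nat_lit 0x19842),.c (nat_lit 0) (nat_lit 0x2a082),.c (nat_lit 0) (nat_lit 0x3a8c2),.c (nat_lit 0)
    (nat_lit 0x4b102)],.g (nat_lit 1) (nat_lit 2) (nat_lit 0x200000000000000040000000300000004)
    (nat_lit 0x600000008000000020000000300000000) (nat_lit 3) (nat_lit 0x1404600000840) [nat_lit 4198400,
    nat_lit 437038,nat_lit 469094,nat_lit 501062,nat_lit 11186177],.t (nat_lit 35),.g (nat_lit 1) (nat_lit 4)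
    (nat_lit 0x100000000000000010000000600000004) (nat_lit 0xa0000000b000000080000000000000002) (nat_lit 8)
    (nat_lit 0x1404600000d10) [nat_lit 4198400,nat_lit 271023,nat_lit 221353,nat_lit 126796,nat_lit 61008,
    nat_lit 36151,nat_lit 19358,nat_lit 18917,nat_lit 34843,nat_lit 75466,nat_lit 206209,nat_lit 353206,
    nat_lit 11186179],.l (nat_lit 16) (nat_lit 13440) (nat_lit 6)
    (nat_lit 0x142400001424000015f60000122800000e06000015100000150b0000150b00000f7000000f70)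
    (nat_lit 0x1d2000001d2000003ce00000000000000e6000007f0000000eb000000eb0000068600000686)
    (nat_lit 0x1180348010563480173c348013b734800d9e3480348011803480142434800c34348020c934800d9e142434801228348007803480150b348010423480348010563480122834800a3834800d4d34800c820c3434800a383480111034800c3b3480078034803480173c34800780348011103480142534800e8a20c934800d4d348014253480142034800a873480348013b73480150b34800c3b3480142034800e850d9e34800c8234800e8a34800e853480086c348034800d9e348010423480078034800a873480086c)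
    (nat_lit 0x1180348034803480348034803480348034803480348011803480348034803480348034803480348010563480122834803480348034803480348034803480142434801228348034803480348034803480173c34800780348011103480348034803480348034800c3434800a3834801110348034803480348013b7348013bb34800c3b348014203480348034803480205934800d4d3480142534801420348034800d9e34800f003480078034800a873480086c348034800d9e34800c8234800e8a34800e853480086c)
    (nat_lit 4) [[nat_lit 2,nat_lit 3,nat_lit 4,nat_lit 5,nat_lit 6,nat_lit 20,nat_lit 260,nat_lit 19,nat_lit 259,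
    nat_lit 0x1103,nat_lit 0x1003,nat_lit 0x10003,nat_lit 18,nat_lit 274,nat_lit 0x1112,nat_lit 0x10012,nat_lit 258,
    nat_lit 514,nat_lit 0x1102,nat_lit 0x1202,nat_lit 0x1002,nat_lit 0x10002,nat_lit 0x10102,nat_lit 17,nat_lit 34,
    nat_lit 33,nat_lit 273,nat_lit 0x1111,nat_lit 0x1011,nat_lit 0x10011,nat_lit 257,nat_lit 513,nat_lit 0x1201,
    nat_lit 0x1101,nat_lit 0x2201,nat_lit 0x2101,nat_lit 0x11101,nat_lit 0x10101,nat_lit 0x1001,nat_lit 0x2001,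
    nat_lit 0x11001,nat_lit 0x10001,nat_lit 0x20001],[nat_lit 32,nat_lit 272,nat_lit 528,nat_lit 0x1210,
    nat_lit 0x1110,nat_lit 0x2210,nat_lit 0x2110,nat_lit 0x1010,nat_lit 0x10110],[nat_lit 512,nat_lit 768,
    nat_lit 0x1300,nat_lit 0x1200,nat_lit 0x1100,nat_lit 0x2200,nat_lit 0x2100,nat_lit 0x11100,nat_lit 0x10100],
    [nat_lit 0x2000,nat_lit 0x11000],[nat_lit 0x20000]] [.c (nat_lit 1) (nat_lit 2),.c (nat_lit 0) (nat_lit 0x9483),
    .c (nat_lit 0) (nat_lit 0x9483),.c (nat_lit 0) (nat_lit 0x9483),.c (nat_lit 0) (nat_lit 0x9483),.r (nat_lit 101)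
    (nat_lit 3) [nat_lit 0x33201,nat_lit 0x9021,nat_lit 0x2001],.c (nat_lit 0) (nat_lit 0x9483),.r (nat_lit 100)
    (nat_lit 3) [nat_lit 0x26031,nat_lit 0x2001,nat_lit 0x7021],.c (nat_lit 1) (nat_lit 0x4354),.c (nat_lit 0)
    (nat_lit 0x7263),.c (nat_lit 0) (nat_lit 0x7263),.r (nat_lit 99) (nat_lit 0) [nat_lit 0x2001,nat_lit 0x7021,
    nat_lit 0x33201],.r (nat_lit 79) (nat_lit 4) [nat_lit 801],.r (nat_lit 10) (nat_lit 1) [nat_lit 33,
    nat_lit 0x30231],.r (nat_lit 1) (nat_lit 0) [nat_lit 0x20321],.c (nat_lit 0) (nat_lit 0x3002),.c (nat_lit 0)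
    (nat_lit 0x9483),.c (nat_lit 0) (nat_lit 0x9483),.c (nat_lit 1) (nat_lit 0x2032),.c (nat_lit 0)
    (nat_lit 0x7263),.c (nat_lit 0) (nat_lit 0x7263),.r (nat_lit 79) (nat_lit 2) [nat_lit 801],.r (nat_lit 0)
    (nat_lit 3) [nat_lit 0x23321],.r (nat_lit 0) (nat_lit 0) [nat_lit 33],.r (nat_lit 1) (nat_lit 0) [nat_lit 34],.r
    (nat_lit 79) (nat_lit 5) [nat_lit 801],.r (nat_lit 1) (nat_lit 3) [nat_lit 561],.c (nat_lit 2) (nat_lit 0x2032),
    .r (nat_lit 98) (nat_lit 1) [nat_lit 0x30231,nat_lit 33],.c (nat_lit 0) (nat_lit 0x3002),.c (nat_lit 0)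
    (nat_lit 0x9483),.c (nat_lit 0) (nat_lit 0x9483),.c (nat_lit 3) (nat_lit 0x2032),.c (nat_lit 0)
    (nat_lit 0x7263),.c (nat_lit 0) (nat_lit 0x5043),.c (nat_lit 1) (nat_lit 0x4254),.c (nat_lit 2) (nat_lit 35),.r
    (nat_lit 98) (nat_lit 8) [nat_lit 0x30231,nat_lit 33],.c (nat_lit 1) (nat_lit 516),.c (nat_lit 0)
    (nat_lit 0x5043),.r (nat_lit 1) (nat_lit 1) [nat_lit 561],.r (nat_lit 0) (nat_lit 4) [nat_lit 33],.r
    (nat_lit 79) (nat_lit 3) [nat_lit 801],.c (nat_lit 2) (nat_lit 2),.r (nat_lit 0) (nat_lit 1) [nat_lit 33],.r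
    (nat_lit 79) (nat_lit 9) [nat_lit 801],.r (nat_lit 10) (nat_lit 8) [nat_lit 0x30431,nat_lit 801],.r (nat_lit 1)
    (nat_lit 4) [nat_lit 561],.r (nat_lit 79) (nat_lit 2) [nat_lit 0x30231],.r (nat_lit 0) (nat_lit 3)
    [nat_lit 0x3231],.r (nat_lit 10) (nat_lit 1) [nat_lit 0x32221,nat_lit 0x3031],.c (nat_lit 0) (nat_lit 0x3002),.c
    (nat_lit 3) (nat_lit 2),.c (nat_lit 0) (nat_lit 0x9483),.c (nat_lit 0) (nat_lit 0x7263),.c (nat_lit 0)
    (nat_lit 0x7263),.c (nat_lit 0) (nat_lit 0x7263),.c (nat_lit 0) (nat_lit 0x5043),.c (nat_lit 0)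
    (nat_lit 0x5043),.r (nat_lit 1) (nat_lit 0) [nat_lit 561],.r (nat_lit 44) (nat_lit 0) [nat_lit 0x20001,
    nat_lit 33],.c (nat_lit 1) (nat_lit 514),.r (nat_lit 0) (nat_lit 3) [nat_lit 33],.c (nat_lit 2)
    (nat_lit 0x4003)],.g (nat_lit 1) (nat_lit 4) (nat_lit 0x100000000000000010000000100000000)
    (nat_lit 0x600000007000000030000000000000002) (nat_lit 3) (nat_lit 0x1404600000790) [nat_lit 493560,
    nat_lit 542548,nat_lit 427513,nat_lit 238653,nat_lit 147902,nat_lit 216784,nat_lit 601159,nat_lit 150246,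
    nat_lit 13979650],.g (nat_lit 1) (nat_lit 1) (nat_lit 0x100000000000000010000000100000000)
    (nat_lit 0x400000005000000020000000000000001) (nat_lit 2) (nat_lit 0x1404600000580) [nat_lit 690165,
    nat_lit 821009,nat_lit 730352,nat_lit 590235,nat_lit 1011073,nat_lit 363344,nat_lit 12587010],.l (nat_lit 17)
    (nat_lit 16800) (nat_lit 6)
    (nat_lit 0x170400001422000012e400001ae200001b1900001b19000015930000159300001d5e00001d5e)
    (nat_lit 0x93c0000065a0000027c00000a7a0000024500000245000007cb000007cb0000000000000000)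
    (nat_lit 0xba61068012c041a00e5d906801e7241a00b82106808340174c20d0026a0834011dd20d00315c8340139604d41068020d041a0084f90680174a41a004b0106808340096020d0041a08340189d20d0054ac83401ae208ee90680313a41a00b6010680269c41a013209068083401cbb20d00427c834016c020d004d3883401b5f062b906802a5641a009a7106801b0441a006cb9068083400f3920d002e948340134e20d0036088340159309cb1068035c441a00daf906802b2641a00eaf106808340170420d0025808340264120d00365c83401d5e)
    (nat_lit 0xba610680834041a020d010680834041a020d0106808340174c20d010680834041a020d010680834041a004b01068020d041a020d010680834041a020d010680834009a820d0041a0834041a020d010680834041a00cff90680213e41a00b6010680834041a020d010680834011dd20d006274834016c020d010680834041a0079c90680174a41a009a7106801b0441a020d01068083400c5720d0054ac8340134e20d003608834041a009601068012c041a01072906801b2e41a00eaf106808340139620d006b8883401b5f20d00564c83401d5e)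
    (nat_lit 4) [[nat_lit 2,nat_lit 18,nat_lit 17,nat_lit 33,nat_lit 49,nat_lit 0x10021,nat_lit 273,nat_lit 0x1011,
    nat_lit 0x11011,nat_lit 0x10011,nat_lit 0x1001,nat_lit 0x1101,nat_lit 0x2001,nat_lit 0x12001,nat_lit 0x11001,
    nat_lit 0x11101,nat_lit 0x22001,nat_lit 0x21001,nat_lit 0x10001],[nat_lit 32,nat_lit 48,nat_lit 64,
    nat_lit 0x1030,nat_lit 0x11030,nat_lit 0x10030,nat_lit 288,nat_lit 0x1020,nat_lit 0x2020,nat_lit 0x12020,
    nat_lit 0x11020,nat_lit 0x10020,nat_lit 0x21020,nat_lit 0x20020,nat_lit 272,nat_lit 528,nat_lit 0x1110,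
    nat_lit 0x11110,nat_lit 0x10110,nat_lit 0x1010,nat_lit 0x2010,nat_lit 0x12010,nat_lit 0x11010,nat_lit 0x22010,
    nat_lit 0x21010,nat_lit 0x10010,nat_lit 0x20010],[nat_lit 512,nat_lit 0x1200,nat_lit 0x1100,nat_lit 0x2100,
    nat_lit 0x12100,nat_lit 0x11100,nat_lit 0x22100,nat_lit 0x10100],[nat_lit 0x2000,nat_lit 0x3000,nat_lit 0x13000,
    nat_lit 0x12000,nat_lit 0x23000,nat_lit 0x22000,nat_lit 0x11000,nat_lit 0x33000,nat_lit 0x32000,
    nat_lit 0x21000],[nat_lit 0x20000]] [.c (nat_lit 1) (nat_lit 2),.r (nat_lit 1) (nat_lit 4) [nat_lit 0x33021],.c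
    (nat_lit 5) (nat_lit 0x3302),.c (nat_lit 0) (nat_lit 0x4203),.r (nat_lit 104) (nat_lit 1) [nat_lit 0x53021,
    nat_lit 0xc6051,nat_lit 0x62031],.r (nat_lit 10) (nat_lit 7) [nat_lit 33,nat_lit 0x20031],.c (nat_lit 0)
    (nat_lit 0x2032),.c (nat_lit 0) (nat_lit 0x4203),.c (nat_lit 1) (nat_lit 0x3002),.r (nat_lit 1) (nat_lit 6)
    [nat_lit 561],.c (nat_lit 0) (nat_lit 0x4203),.c (nat_lit 0) (nat_lit 0x2032),.r (nat_lit 103) (nat_lit 1)
    [nat_lit 0x84031,nat_lit 0x62031,nat_lit 0x53021],.r (nat_lit 9) (nat_lit 6) [nat_lit 0x3021,nat_lit 0x30201],.r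
    (nat_lit 1) (nat_lit 1) [nat_lit 561],.c (nat_lit 2) (nat_lit 35),.r (nat_lit 79) (nat_lit 0) [nat_lit 0x20031],
    .c (nat_lit 1) (nat_lit 514),.r (nat_lit 0) (nat_lit 4) [nat_lit 33],.c (nat_lit 2) (nat_lit 2),.r (nat_lit 45)
    (nat_lit 0) [nat_lit 33,nat_lit 0x30201],.r (nat_lit 8) (nat_lit 6) [nat_lit 0x80032,nat_lit 0x30201],.r
    (nat_lit 0) (nat_lit 1) [nat_lit 0x73221],.r (nat_lit 8) (nat_lit 6) [nat_lit 0x60031,nat_lit 0x30201],.r
    (nat_lit 94) (nat_lit 6) [nat_lit 0x20031,nat_lit 33],.r (nat_lit 79) (nat_lit 0) [nat_lit 801],.c (nat_lit 0)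
    (nat_lit 0x4203),.c (nat_lit 0) (nat_lit 0x4003),.c (nat_lit 0) (nat_lit 0x4003),.c (nat_lit 2)
    (nat_lit 0x3002),.c (nat_lit 0) (nat_lit 0x8205),.c (nat_lit 0) (nat_lit 0x4003),.c (nat_lit 0)
    (nat_lit 0x4003),.r (nat_lit 0) (nat_lit 1) [nat_lit 33],.r (nat_lit 79) (nat_lit 9) [nat_lit 801],.r
    (nat_lit 1) (nat_lit 4) [nat_lit 561],.c (nat_lit 1) (nat_lit 35),.r (nat_lit 8) (nat_lit 6) [nat_lit 0x3231,
    nat_lit 0x30201],.c (nat_lit 0) (nat_lit 0x4203),.c (nat_lit 0) (nat_lit 0x4003),.c (nat_lit 4)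
    (nat_lit 0x3002),.c (nat_lit 0) (nat_lit 0x2025),.c (nat_lit 0) (nat_lit 0x4003),.c (nat_lit 5)
    (nat_lit 0x3002),.c (nat_lit 0) (nat_lit 0x8205),.c (nat_lit 0) (nat_lit 0x4003),.c (nat_lit 1)
    (nat_lit 0x5043),.r (nat_lit 79) (nat_lit 3) [nat_lit 0x53231],.c (nat_lit 0) (nat_lit 0x3323),.r (nat_lit 79)
    (nat_lit 8) [nat_lit 801],.r (nat_lit 10) (nat_lit 7) [nat_lit 0x20231,nat_lit 801],.c (nat_lit 0)
    (nat_lit 0x3323),.c (nat_lit 0) (nat_lit 0x2232),.c (nat_lit 2) (nat_lit 0x4232),.c (nat_lit 4) (nat_lit 2),.r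
    (nat_lit 85) (nat_lit 6) [nat_lit 33,nat_lit 0x60031],.r (nat_lit 102) (nat_lit 5) [nat_lit 0x20031,
    nat_lit 0x30201],.c (nat_lit 0) (nat_lit 0x4003),.r (nat_lit 103) (nat_lit 1) [nat_lit 0x82031,nat_lit 0x60031,
    nat_lit 0x50021],.c (nat_lit 0) (nat_lit 0x4003),.c (nat_lit 0) (nat_lit 0x2025),.r (nat_lit 9) (nat_lit 6)
    [nat_lit 33,nat_lit 0x30201],.r (nat_lit 1) (nat_lit 1) [nat_lit 0x3231],.c (nat_lit 0) (nat_lit 0x3323),.c
    (nat_lit 5) (nat_lit 2)],.l (nat_lit 15) (nat_lit 6720) (nat_lit 6)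
    (nat_lit 0xa9200000a92000007e5000007e5000009c8000009c80000096e0000096e000006b600000a1c)
    (nat_lit 0x2ad000002ad000000ca000000ca000001240000012400000076000003dc)
    (nat_lit 0x152469003f29a401e0069004091a4014386900d200a9234801f94d200b40348025b8d2006400fca69001e01a400e36690039b9a400ede6900d2007e534800f00d20071b34801b04d2004091680690038d9a4011fc69004521a4012a46900d200f0034801c6cd2008fe34802290d20057612dc69003609a40114869004601a4007806900d20081234801cdcd2008a434802300d2005920c8069002049a400aec69002c91a400f386900d200a1c34801dbcd20095234800f00d20079c)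
    (nat_lit 0x15246900d201a4034806900d201a4034806900d200a9234806900d201a4034806900d201a400fca69001e01a4034806900d201a4034806900d2007e534800f00d201a4034806900d201a401e00690038d9a4011fc6900d201a4034806900d200b4034801c6cd2008fe34806900d201a401024690039b9a40114869004601a4034806900d20096e34801b04d2008a434802300d201a40143869003b79a4012a469001e01a400f386900d20064034801024d20057634801648d20079c)
    (nat_lit 4) [[nat_lit 2,nat_lit 3,nat_lit 19,nat_lit 18,nat_lit 34,nat_lit 274,nat_lit 0x1012,nat_lit 0x10012,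
    nat_lit 258,nat_lit 0x1002,nat_lit 0x2002,nat_lit 0x10002,nat_lit 17,nat_lit 0x1022,nat_lit 0x2012,nat_lit 33,
    nat_lit 0x1021,nat_lit 273,nat_lit 0x1111,nat_lit 0x1011,nat_lit 0x2011,nat_lit 0x3011,nat_lit 0x11011,
    nat_lit 0x10011,nat_lit 257,nat_lit 513,nat_lit 0x1101,nat_lit 0x2101,nat_lit 0x1001,nat_lit 0x2001,
    nat_lit 0x3001,nat_lit 0x4001,nat_lit 0x12001,nat_lit 0x11001,nat_lit 0x10001],[nat_lit 32,nat_lit 288,
    nat_lit 0x1020,nat_lit 272,nat_lit 0x1110,nat_lit 0x1010,nat_lit 0x2010,nat_lit 0x3010,nat_lit 0x4010,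
    nat_lit 0x11010,nat_lit 0x10010],[nat_lit 512,nat_lit 0x1200,nat_lit 0x1100,nat_lit 0x2100,nat_lit 0x3100,
    nat_lit 0x4100],[nat_lit 0x2000,nat_lit 0x3000,nat_lit 0x4000,nat_lit 0x5000,nat_lit 0x6000,nat_lit 0x13000,
    nat_lit 0x12000,nat_lit 0x11000],[nat_lit 0x20000]] [.c (nat_lit 1) (nat_lit 2),.c (nat_lit 0) (nat_lit 0x4603),
    .c (nat_lit 0) (nat_lit 0x4603),.c (nat_lit 4) (nat_lit 0x3502),.c (nat_lit 2) (nat_lit 0x9d06),.r (nat_lit 1)
    (nat_lit 6) [nat_lit 0x35021],.c (nat_lit 1) (nat_lit 0x3302),.r (nat_lit 1) (nat_lit 3) [nat_lit 0x35021],.r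
    (nat_lit 105) (nat_lit 1) [nat_lit 0x57021,nat_lit 0x22001],.c (nat_lit 0) (nat_lit 0x8a05),.c (nat_lit 0)
    (nat_lit 0x4403),.r (nat_lit 79) (nat_lit 2) [nat_lit 801],.c (nat_lit 0) (nat_lit 0x4603),.c (nat_lit 2)
    (nat_lit 0xbd06),.c (nat_lit 0) (nat_lit 0x4403),.c (nat_lit 2) (nat_lit 0x5706),.c (nat_lit 2)
    (nat_lit 0x3302),.r (nat_lit 1) (nat_lit 3) [nat_lit 561],.c (nat_lit 3) (nat_lit 0x3302),.c (nat_lit 0)
    (nat_lit 0x8a05),.c (nat_lit 4) (nat_lit 0x3302),.c (nat_lit 1) (nat_lit 0x3002),.c (nat_lit 3) (nat_lit 35),.r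
    (nat_lit 1) (nat_lit 6) [nat_lit 561],.r (nat_lit 79) (nat_lit 8) [nat_lit 0x3321],.r (nat_lit 1) (nat_lit 6)
    [nat_lit 0x3022],.r (nat_lit 98) (nat_lit 5) [nat_lit 0x22031,nat_lit 33],.r (nat_lit 105) (nat_lit 1)
    [nat_lit 0x55021,nat_lit 0x22001],.c (nat_lit 0) (nat_lit 0x8a05),.c (nat_lit 1) (nat_lit 514),.c (nat_lit 0)
    (nat_lit 0x8605),.c (nat_lit 0) (nat_lit 0x4203),.r (nat_lit 79) (nat_lit 2) [nat_lit 0x2321],.r (nat_lit 1)
    (nat_lit 1) [nat_lit 561],.r (nat_lit 0) (nat_lit 4) [nat_lit 33],.c (nat_lit 2) (nat_lit 2),.r (nat_lit 79)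
    (nat_lit 0) [nat_lit 801],.c (nat_lit 2) (nat_lit 0x3006),.r (nat_lit 0) (nat_lit 1) [nat_lit 33],.r (nat_lit 1)
    (nat_lit 4) [nat_lit 561],.c (nat_lit 0) (nat_lit 0x8a05),.c (nat_lit 0) (nat_lit 0x4403),.c (nat_lit 0)
    (nat_lit 0x8605),.c (nat_lit 4) (nat_lit 0x3002),.r (nat_lit 98) (nat_lit 4) [nat_lit 0x22031,nat_lit 33],.r
    (nat_lit 44) (nat_lit 0) [nat_lit 33,nat_lit 0x33201],.c (nat_lit 3) (nat_lit 2),.r (nat_lit 79) (nat_lit 1)
    [nat_lit 801],.r (nat_lit 0) (nat_lit 6) [nat_lit 33],.r (nat_lit 79) (nat_lit 8) [nat_lit 801],.r (nat_lit 98)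
    (nat_lit 5) [nat_lit 0x20031,nat_lit 0x2021],.r (nat_lit 105) (nat_lit 1) [nat_lit 0x53021,nat_lit 0x22001],.c
    (nat_lit 4) (nat_lit 2),.c (nat_lit 0) (nat_lit 0x8605),.c (nat_lit 1) (nat_lit 0x402),.c (nat_lit 0)
    (nat_lit 0x8205),.c (nat_lit 0) (nat_lit 0x4003),.r (nat_lit 1) (nat_lit 1) [nat_lit 0x3231],.r (nat_lit 0)
    (nat_lit 4) [nat_lit 0x2021],.r (nat_lit 0) (nat_lit 3) [nat_lit 33],.c (nat_lit 3) (nat_lit 0x5543)],.l
    (nat_lit 29) (nat_lit 116017440) (nat_lit 6)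
    (nat_lit 0x275156a021b840001f3793402dd677002d256fb02d256fb0240ec670240ec67030ffbd0030ffbd0)
    (nat_lit 0xf477d0009ae66600329460011c829c003da4d5003da4d500cf0f6900cf0f690000000000000000)
    (nat_lit 0x13b98771ba924801f9cbc06ea4920151fd1a9ba9248034c0c026ea492013a8ab51ba92480dd4924027730ee375249003fc0590dd492401cf1e8f37524900531d25cdd4924020343e007f80b21ba9248039f4ae06ea49200daea2f9ba9248027953d66ea492007e72f01ba92480dd492400fce5e03752490073e95c0dd4924029fc29b37524900839601cdd492402dd67700e78f479ba9248053f85366ea492014a59131ba924804068f246ea492020bf9129ba92480dd492402a3fa35375249006d7517cdd49240294b2263752490080d1e48dd492402d256fb0a63a4b9ba9248041cb00e6ea4920101a3c91ba924802e3b9fc6ea49200ea31639ba92480dd492401a60601375249004f2a7acdd492402034792375249005c773f8dd49240240ec67101a1f01ba924805bacee06ea49201692b7d9ba92480481d8ce6ea4920187fde81ba92480dd49240275156a375249003f39780dd49240417f225375249007518b1cdd4924030ffbd0)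
    (nat_lit 0x13b98771ba92480dd492406ea492037524901ba92480dd492406ea492037524901ba92480dd4924027730ee37524901ba92480dd492406ea492037524901ba92480dd492406ea492007e72f01ba9248039f4ae06ea492037524901ba92480dd492406ea492037524901ba92480dd492400ff01643752490073e95c0dd492406ea492037524901ba92480dd492406ea4920151fd1a9ba9248036ba8be6ea492014a59131ba92480dd492406ea492037524901ba92480dd492401cf1e8f37524900a7f0a6cdd49240294b22637524901ba92480dd492406ea49200d303009ba9248027953d66ea4920101a3c91ba924802e3b9fc6ea492037524901ba92480dd4924014c749737524900839601cdd492402034792375249005c773f8dd492406ea49200fce5e01ba924801f9cbc06ea49201ce543d9ba924803a8c58e6ea4920187fde81ba92480dd4924020343e037524900b759dc0dd492402d256fb37524900903b19cdd4924030ffbd0)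
    (nat_lit 4) [[nat_lit 2,nat_lit 17,nat_lit 33,nat_lit 273,nat_lit 0x1011,nat_lit 0x11011,nat_lit 0x10011,
    nat_lit 0x1001,nat_lit 0x1021,nat_lit 0x1101,nat_lit 0x2001,nat_lit 0x12001,nat_lit 0x11001,nat_lit 0x11101,
    nat_lit 0x22001,nat_lit 0x21001,nat_lit 0x10001],[nat_lit 32,nat_lit 48,nat_lit 64,nat_lit 0x1030,
    nat_lit 0x11030,nat_lit 0x10030,nat_lit 288,nat_lit 0x1020,nat_lit 0x2020,nat_lit 0x12020,nat_lit 0x11020,
    nat_lit 0x10020,nat_lit 0x21020,nat_lit 0x20020,nat_lit 272,nat_lit 528,nat_lit 0x1110,nat_lit 0x11110,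
    nat_lit 0x10110,nat_lit 0x1010,nat_lit 0x2010,nat_lit 0x12010,nat_lit 0x11010,nat_lit 0x22010,nat_lit 0x21010,
    nat_lit 0x10010,nat_lit 0x20010],[nat_lit 512,nat_lit 0x1100,nat_lit 0x2100,nat_lit 0x12100,nat_lit 0x11100,
    nat_lit 0x22100,nat_lit 0x10100,nat_lit 0x21100],[nat_lit 0x2000,nat_lit 0x3000,nat_lit 0x13000,nat_lit 0x12000,
    nat_lit 0x23000,nat_lit 0x22000,nat_lit 0x11000,nat_lit 0x33000,nat_lit 0x32000,nat_lit 0x21000],
    [nat_lit 0x20000]] [.c (nat_lit 1) (nat_lit 2),.c (nat_lit 0) (nat_lit 0x4203),.c (nat_lit 0) (nat_lit 0x4203),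
    .c (nat_lit 0) (nat_lit 0x2032),.c (nat_lit 5) (nat_lit 0x3302),.c (nat_lit 1) (nat_lit 0x3002),.r (nat_lit 1)
    (nat_lit 6) [nat_lit 561],.c (nat_lit 0) (nat_lit 0x2225),.c (nat_lit 0) (nat_lit 0x4203),.c (nat_lit 0)
    (nat_lit 0x2032),.c (nat_lit 0) (nat_lit 0x4203),.r (nat_lit 105) (nat_lit 9) [nat_lit 0x30231,nat_lit 0x20001],
    .r (nat_lit 1) (nat_lit 1) [nat_lit 561],.c (nat_lit 2) (nat_lit 35),.r (nat_lit 79) (nat_lit 0)
    [nat_lit 0x20031],.r (nat_lit 10) (nat_lit 6) [nat_lit 0x20231,nat_lit 801],.r (nat_lit 0) (nat_lit 4)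
    [nat_lit 33],.c (nat_lit 2) (nat_lit 2),.r (nat_lit 45) (nat_lit 0) [nat_lit 33,nat_lit 0x30201],.r (nat_lit 8)
    (nat_lit 6) [nat_lit 0x80032,nat_lit 0x30201],.r (nat_lit 94) (nat_lit 7) [nat_lit 0x20031,nat_lit 33],.r
    (nat_lit 8) (nat_lit 6) [nat_lit 0x60031,nat_lit 0x30201],.r (nat_lit 94) (nat_lit 6) [nat_lit 0x20031,
    nat_lit 33],.r (nat_lit 79) (nat_lit 0) [nat_lit 801],.c (nat_lit 0) (nat_lit 0x4203),.c (nat_lit 0)
    (nat_lit 0x4203),.c (nat_lit 0) (nat_lit 0x8205),.c (nat_lit 2) (nat_lit 0x3002),.c (nat_lit 0)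
    (nat_lit 0x8205),.c (nat_lit 0) (nat_lit 0x4003),.c (nat_lit 0) (nat_lit 0x4003),.r (nat_lit 0) (nat_lit 1)
    [nat_lit 33],.r (nat_lit 79) (nat_lit 9) [nat_lit 801],.r (nat_lit 1) (nat_lit 4) [nat_lit 561],.c (nat_lit 1)
    (nat_lit 35),.r (nat_lit 79) (nat_lit 0) [nat_lit 0x22541],.c (nat_lit 0) (nat_lit 0x2225),.c (nat_lit 0)
    (nat_lit 0x4203),.c (nat_lit 4) (nat_lit 0x3002),.c (nat_lit 0) (nat_lit 0x2025),.c (nat_lit 0)
    (nat_lit 0x4003),.c (nat_lit 5) (nat_lit 0x3002),.c (nat_lit 0) (nat_lit 0x2025),.c (nat_lit 0)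
    (nat_lit 0x4003),.c (nat_lit 1) (nat_lit 0x5043),.r (nat_lit 0) (nat_lit 6) [nat_lit 33],.r (nat_lit 1)
    (nat_lit 0) [nat_lit 0x22232],.r (nat_lit 10) (nat_lit 7) [nat_lit 0x20231,nat_lit 801],.r (nat_lit 1)
    (nat_lit 0) [nat_lit 561],.c (nat_lit 0) (nat_lit 0x2232),.c (nat_lit 0) (nat_lit 0x5345),.c (nat_lit 0)
    (nat_lit 0x2232),.c (nat_lit 4) (nat_lit 2),.r (nat_lit 85) (nat_lit 6) [nat_lit 33,nat_lit 0x60031],.r
    (nat_lit 102) (nat_lit 5) [nat_lit 0x20031,nat_lit 0x30201],.c (nat_lit 0) (nat_lit 0x8205),.r (nat_lit 106)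
    (nat_lit 6) [nat_lit 0x50021,nat_lit 0x60031],.c (nat_lit 0) (nat_lit 0x4003),.c (nat_lit 0) (nat_lit 0x2025),.r
    (nat_lit 9) (nat_lit 6) [nat_lit 33,nat_lit 0x30201],.r (nat_lit 105) (nat_lit 9) [nat_lit 0x33231,
    nat_lit 0x20001],.c (nat_lit 0) (nat_lit 0x2325),.c (nat_lit 5) (nat_lit 2)],.t (nat_lit 36),.l (nat_lit 20)
    (nat_lit 162720) (nat_lit 4)
    (nat_lit 0xac260000ac260000d0c90000d4510000cb460000cb460000d7d90000d7d90000d92c0000d92c)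
    (nat_lit 0x2d0600002d06000004db0000086300000de600000de600000153000001530000000000000000)
    (nat_lit 0x7f2027ba007f9127ba00a8d827ba00dfcb27ba00ac2627ba027ba007f2027ba00a3c327ba00964e27ba00c54f27ba00ac260a3c327ba00d3e027ba00a86727ba00cf7627ba00d0c927ba027ba007f9127ba00d3e027ba00c66b27ba00d2fe27ba0106a30964e27ba00c66b27ba00bd6027ba0097a127ba00f30027ba027ba00a8d827ba00a86727ba00bd6027ba00c9f327ba00cb460c54f27ba00d2fe27ba00c9f327ba00d68627ba00cd4127ba027ba00dfcb27ba00cf7627ba0097a127ba00d68627ba00d7d90ac2627ba0106a327ba00cb4627ba00d7d927ba00a43427ba027ba00ac2627ba00d0c927ba00f30027ba00cd4127ba00a434)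
    (nat_lit 0x7f2027ba027ba027ba027ba027ba027ba027ba027ba027ba027ba007f2027ba027ba027ba027ba027ba027ba027ba027ba007f9127ba00d3e027ba027ba027ba027ba027ba027ba027ba027ba00a3c327ba00d3e027ba027ba027ba027ba027ba027ba00a8d827ba00a86727ba00bd6027ba027ba027ba027ba027ba027ba00964e27ba00c66b27ba00bd6027ba027ba027ba027ba00dfcb27ba00cf7627ba0097a127ba00d68627ba027ba027ba027ba00c54f27ba00d2fe27ba00c9f327ba00d68627ba027ba00ac2627ba00d0c927ba00f30027ba00cd4127ba00a43427ba027ba00ac2627ba0106a327ba00cb4627ba00d7d927ba00a434)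
    (nat_lit 4) [[nat_lit 2,nat_lit 3,nat_lit 18,nat_lit 258,nat_lit 0x10002,nat_lit 17,nat_lit 273,nat_lit 0x10011,
    nat_lit 257,nat_lit 0x10101,nat_lit 0x1001,nat_lit 0x1101,nat_lit 0x11001,nat_lit 0x10001,nat_lit 0x20001,
    nat_lit 0x30001],[nat_lit 32,nat_lit 288,nat_lit 0x1020,nat_lit 272,nat_lit 528,nat_lit 0x1110,nat_lit 0x10110,
    nat_lit 0x1010,nat_lit 0x2010,nat_lit 0x11010,nat_lit 0x10010,nat_lit 0x20010],[nat_lit 512,nat_lit 768,
    nat_lit 0x1200,nat_lit 0x10200,nat_lit 0x1100,nat_lit 0x2100,nat_lit 0x11100,nat_lit 0x21100,nat_lit 0x10100,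
    nat_lit 0x20100,nat_lit 0x30100],[nat_lit 0x2000,nat_lit 0x12000,nat_lit 0x22000,nat_lit 0x11000,
    nat_lit 0x21000,nat_lit 0x31000],[nat_lit 0x20000,nat_lit 0x30000,nat_lit 0x40000]] [.c (nat_lit 1) (nat_lit 2),
    .r (nat_lit 1) (nat_lit 4) [nat_lit 0x3022],.r (nat_lit 79) (nat_lit 4) [nat_lit 801],.r (nat_lit 1) (nat_lit 4)
    [nat_lit 0x20321],.r (nat_lit 79) (nat_lit 2) [nat_lit 801],.c (nat_lit 0) (nat_lit 0x2203),.r (nat_lit 1)
    (nat_lit 3) [nat_lit 561],.r (nat_lit 1) (nat_lit 6) [nat_lit 561],.c (nat_lit 5) (nat_lit 0x2032),.c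
    (nat_lit 1) (nat_lit 0x2232),.c (nat_lit 0) (nat_lit 0x2203),.r (nat_lit 1) (nat_lit 3) [nat_lit 0x20321],.r
    (nat_lit 1) (nat_lit 1) [nat_lit 561],.r (nat_lit 0) (nat_lit 4) [nat_lit 33],.c (nat_lit 1) (nat_lit 514),.r
    (nat_lit 79) (nat_lit 2) [nat_lit 0x2321],.c (nat_lit 2) (nat_lit 2),.r (nat_lit 79) (nat_lit 0) [nat_lit 801],
    .r (nat_lit 79) (nat_lit 9) [nat_lit 0x75221],.r (nat_lit 0) (nat_lit 1) [nat_lit 33],.r (nat_lit 79)
    (nat_lit 9) [nat_lit 801],.r (nat_lit 1) (nat_lit 4) [nat_lit 561],.c (nat_lit 2) (nat_lit 0x2232),.c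
    (nat_lit 3) (nat_lit 0x7542),.r (nat_lit 79) (nat_lit 4) [nat_lit 0x44331],.c (nat_lit 3) (nat_lit 0x5322),.c
    (nat_lit 0) (nat_lit 0x4205),.c (nat_lit 0) (nat_lit 0x2003),.c (nat_lit 3) (nat_lit 2),.r (nat_lit 1)
    (nat_lit 4) [nat_lit 0x75631],.r (nat_lit 79) (nat_lit 4) [nat_lit 0x30231],.c (nat_lit 3) (nat_lit 0x2232),.r
    (nat_lit 0) (nat_lit 6) [nat_lit 33],.r (nat_lit 79) (nat_lit 8) [nat_lit 801],.c (nat_lit 4) (nat_lit 0x2232),
    .r (nat_lit 1) (nat_lit 3) [nat_lit 0x22321],.c (nat_lit 0) (nat_lit 0x9785),.c (nat_lit 5) (nat_lit 0x2232),.c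
    (nat_lit 1) (nat_lit 0x2432),.c (nat_lit 4) (nat_lit 2),.r (nat_lit 79) (nat_lit 6) [nat_lit 801],.r (nat_lit 1)
    (nat_lit 3) [nat_lit 34],.c (nat_lit 0) (nat_lit 0x4205),.c (nat_lit 0) (nat_lit 0x2003),.r (nat_lit 1)
    (nat_lit 1) [nat_lit 0x3231],.c (nat_lit 5) (nat_lit 2),.r (nat_lit 0) (nat_lit 4) [nat_lit 0x2021],.c
    (nat_lit 1) (nat_lit 0x402)],.g (nat_lit 1) (nat_lit 4) (nat_lit 0x300000002000000000000000100000004)
    (nat_lit 0x400000005000000080000000600000000) (nat_lit 5) (nat_lit 0x14046000006e0) [nat_lit 4198400,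
    nat_lit 969747,nat_lit 435688,nat_lit 11186177],.l (nat_lit 14) (nat_lit 2880) (nat_lit 4)
    (nat_lit 0x3f6000003f60000034e0000034e0000048600000486000003f2000003f20000040000000400)
    (nat_lit 0x90000000900000013800000138000000000000000000000094000000940000008600000086)
    (nat_lit 0xf48b400af8b401488b400990b400dc0b402d003d22d002be2d0024c2d003be2d002ca0af8b400f00b400bc8b400d80b400970b402d002be2d003c02d0034e2d002402d0046c0930b400d38b401400b400938b401000b402d005222d002f22d005002d003f22d002400ef8b400900b400fc8b401478b400900b402d002642d003602d0024e2d0051e2d0036c0b28b4011b0b400900b400db0b4011e0b402d003702d0025c2d004002d002402d00478)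
    (nat_lit 0xf48b402d00b402d00b402d00b402d00b402d003d22d00b402d00b402d00b402d00b400af8b400f00b402d00b402d00b402d00b402d002be2d003c02d00b402d00b402d00b401488b400bc8b401400b402d00b402d00b402d0024c2d0034e2d005002d00b402d00b400990b400d80b400938b401478b402d00b402d003be2d002402d003f22d0051e2d00b400dc0b400970b401000b400900b4011e0b402d002ca2d0046c2d002402d0036c2d00478)
    (nat_lit 3) [[nat_lit 2,nat_lit 18,nat_lit 258,nat_lit 0x10002,nat_lit 17,nat_lit 33,nat_lit 273,nat_lit 0x1011,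
    nat_lit 0x1111,nat_lit 0x11011,nat_lit 0x10011,nat_lit 0x10111,nat_lit 257,nat_lit 0x1001,nat_lit 0x1101,
    nat_lit 0x2001,nat_lit 0x11001,nat_lit 0x11101,nat_lit 0x10001,nat_lit 0x10101,nat_lit 0x20001],[nat_lit 32,
    nat_lit 0x1020,nat_lit 272,nat_lit 0x1110,nat_lit 0x10110,nat_lit 0x1010,nat_lit 0x2010,nat_lit 0x11010,
    nat_lit 0x12010,nat_lit 0x10010,nat_lit 0x11110,nat_lit 0x20010,nat_lit 0x21010],[nat_lit 512,nat_lit 0x1100,
    nat_lit 0x2100,nat_lit 0x11100,nat_lit 0x10100],[nat_lit 0x2000,nat_lit 0x12000,nat_lit 0x11000,nat_lit 0x22000,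
    nat_lit 0x21000],[nat_lit 0x20000]] [.c (nat_lit 1) (nat_lit 2),.r (nat_lit 79) (nat_lit 4) [nat_lit 209],.r
    (nat_lit 79) (nat_lit 3) [nat_lit 0x2151],.r (nat_lit 79) (nat_lit 3) [nat_lit 0x7e3],.c (nat_lit 0)
    (nat_lit 0x495),.r (nat_lit 1) (nat_lit 3) [nat_lit 0x441a],.r (nat_lit 1) (nat_lit 3) [nat_lit 153],.c
    (nat_lit 5) (nat_lit 0x6c2),.c (nat_lit 5) (nat_lit 19),.c (nat_lit 3) (nat_lit 19),.r (nat_lit 1) (nat_lit 6)
    [nat_lit 153],.c (nat_lit 4) (nat_lit 19),.c (nat_lit 5) (nat_lit 0x41a),.c (nat_lit 0) (nat_lit 0x495),.r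
    (nat_lit 79) (nat_lit 7) [nat_lit 0x2151],.r (nat_lit 79) (nat_lit 7) [nat_lit 0x752],.r (nat_lit 1) (nat_lit 1)
    [nat_lit 153],.c (nat_lit 2) (nat_lit 19),.r (nat_lit 0) (nat_lit 4) [nat_lit 17],.r (nat_lit 79) (nat_lit 3)
    [nat_lit 0x45e1],.r (nat_lit 79) (nat_lit 3) [nat_lit 209],.c (nat_lit 2) (nat_lit 2),.r (nat_lit 5) (nat_lit 1)
    [nat_lit 0x5701,nat_lit 17],.r (nat_lit 0) (nat_lit 1) [nat_lit 17],.r (nat_lit 1) (nat_lit 4) [nat_lit 153],.r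
    (nat_lit 79) (nat_lit 0) [nat_lit 0x2561],.c (nat_lit 0) (nat_lit 0x495),.r (nat_lit 110) (nat_lit 4)
    [nat_lit 0x3011,nat_lit 0x3681,nat_lit 0x4019],.c (nat_lit 3) (nat_lit 0xad2),.r (nat_lit 1) (nat_lit 6)
    [nat_lit 0x5691],.c (nat_lit 0) (nat_lit 0x885),.c (nat_lit 1) (nat_lit 19),.r (nat_lit 1) (nat_lit 3)
    [nat_lit 0x2019],.c (nat_lit 5) (nat_lit 0x403),.c (nat_lit 3) (nat_lit 2),.r (nat_lit 0) (nat_lit 6)
    [nat_lit 17],.r (nat_lit 1) (nat_lit 0) [nat_lit 0x249a],.r (nat_lit 1) (nat_lit 0) [nat_lit 153],.c (nat_lit 0)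
    (nat_lit 0xf75),.c (nat_lit 4) (nat_lit 2),.r (nat_lit 79) (nat_lit 6) [nat_lit 209],.c (nat_lit 0)
    (nat_lit 0x885),.r (nat_lit 1) (nat_lit 3) [nat_lit 18],.r (nat_lit 79) (nat_lit 7) [nat_lit 209],.c (nat_lit 5)
    (nat_lit 2)],.g (nat_lit 3) (nat_lit 4) (nat_lit 0x400000001000000000000000300000002)
    (nat_lit 0x300000006000000060000000000000000) (nat_lit 3) (nat_lit 0x1404600000840) [nat_lit 2797568,
    nat_lit 2885471,nat_lit 779169,nat_lit 1936841,nat_lit 8392706],.l (nat_lit 10) (nat_lit 240) (nat_lit 3)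
    (nat_lit 0x5600000056000000480000004800000056000000560000005e000000540000005400000062)
    (nat_lit 0xc0000000c0000001a0000001a0000000c0000000c0000000e00000004000000000000000e)
    (nat_lit 0x158f00f0f0128f0120f0158f03c0563c03c3c03c3c0523c0460f0f00f0f00f0f00f0f00f0f03c03c3c03c3c03c3c03c3c03c0f0f00f0f0148f0118f0158f03c04a3c03c3c0523c0523c048148f00f0f0148f0140f0178f03c0483c03c3c0463c0503c046118f00f0f0120f0118f0150f03c0563c03c3c0563c05e3c054)
    (nat_lit 0x158f03c0f03c0f03c0f03c0f03c0563c0f03c0f03c0f03c0f00f0f00f0f03c0f03c0f03c0f03c03c3c03c3c0f03c0f03c0f0128f00f0f0148f03c0f03c0f03c03c3c03c3c0523c0f03c0f0120f00f0f0118f0140f03c0f03c0523c03c3c0523c0503c0f0158f00f0f0158f0178f0150f03c0463c03c3c0483c0463c054)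
    (nat_lit 5) [[nat_lit 2,nat_lit 0x1002,nat_lit 17,nat_lit 273,nat_lit 0x1011,nat_lit 0x10011,nat_lit 257,
    nat_lit 0x1101,nat_lit 0x10101,nat_lit 0x1001,nat_lit 0x2001,nat_lit 0x11001,nat_lit 0x10001],[nat_lit 32,
    nat_lit 288,nat_lit 0x1020,nat_lit 0x10020,nat_lit 272,nat_lit 528,nat_lit 0x1110,nat_lit 0x10110,
    nat_lit 0x1010,nat_lit 0x2010,nat_lit 0x11010,nat_lit 0x10010],[nat_lit 512,nat_lit 0x1200,nat_lit 0x10200,
    nat_lit 0x1100,nat_lit 0x2100,nat_lit 0x11100,nat_lit 0x10100,nat_lit 0x20100],[nat_lit 0x2000,nat_lit 0x3000,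
    nat_lit 0x12000,nat_lit 0x11000,nat_lit 0x21000],[nat_lit 0x20000]] [.c (nat_lit 1) (nat_lit 2),.r (nat_lit 79)
    (nat_lit 1) [nat_lit 0x5498c3],.r (nat_lit 0) (nat_lit 1) [nat_lit 0x3298c3],.r (nat_lit 1) (nat_lit 3)
    [nat_lit 0x861],.r (nat_lit 1) (nat_lit 4) [nat_lit 0x2200e3],.r (nat_lit 1) (nat_lit 6) [nat_lit 0x861],.c
    (nat_lit 1) (nat_lit 0x110e6),.r (nat_lit 79) (nat_lit 1) [nat_lit 0x3280c3],.r (nat_lit 79) (nat_lit 3)
    [nat_lit 0x414d83],.r (nat_lit 0) (nat_lit 6) [nat_lit 0x3298c3],.r (nat_lit 79) (nat_lit 1) [nat_lit 0x95b0c6],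
    .r (nat_lit 1) (nat_lit 1) [nat_lit 0x861],.r (nat_lit 0) (nat_lit 4) [nat_lit 65],.c (nat_lit 2) (nat_lit 2),.r
    (nat_lit 1) (nat_lit 3) [nat_lit 0x2198e6],.r (nat_lit 5) (nat_lit 1) [nat_lit 0x51b003,nat_lit 65],.r
    (nat_lit 5) (nat_lit 0) [nat_lit 65,nat_lit 0x311803],.r (nat_lit 0) (nat_lit 1) [nat_lit 65],.r (nat_lit 1)
    (nat_lit 3) [nat_lit 0x32b0e3],.r (nat_lit 1) (nat_lit 4) [nat_lit 0x861],.r (nat_lit 1) (nat_lit 6)
    [nat_lit 0x32b0e3],.c (nat_lit 0) (nat_lit 0x2080d),.r (nat_lit 112) (nat_lit 3) [nat_lit 0x319801,nat_lit 193,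
    nat_lit 0x10001],.c (nat_lit 1) (nat_lit 0x18806),.c (nat_lit 0) (nat_lit 0x2080d),.c (nat_lit 1)
    (nat_lit 0x221a6),.r (nat_lit 79) (nat_lit 1) [nat_lit 0xc41],.r (nat_lit 79) (nat_lit 3) [nat_lit 0x857d83],.r
    (nat_lit 0) (nat_lit 6) [nat_lit 65],.r (nat_lit 79) (nat_lit 1) [nat_lit 0x318842],.r (nat_lit 1) (nat_lit 1)
    [nat_lit 0x32b0e3],.r (nat_lit 0) (nat_lit 4) [nat_lit 0x221cc3],.r (nat_lit 79) (nat_lit 3) [nat_lit 0x2234c3],
    .c (nat_lit 4) (nat_lit 2),.r (nat_lit 79) (nat_lit 1) [nat_lit 0x529843],.r (nat_lit 79) (nat_lit 6)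
    [nat_lit 0xc41],.c (nat_lit 0) (nat_lit 0x2080d),.r (nat_lit 79) (nat_lit 7) [nat_lit 0xc41],.c (nat_lit 5)
    (nat_lit 2)],.l (nat_lit 10) (nat_lit 240) (nat_lit 4)
    (nat_lit 0x5c0000005c00000051000000510000004b0000004b00000056000000560000004b0000004b)
    (nat_lit 0xb0000000b000000110000001100000006000000060000001100000011)
    (nat_lit 0x180f0124f0154f0158f012cf03c0603c0513c03b3c0563c045144f0158f0100f0144f00f0f03c0493c0563c0403c0493c0400ecf0100f00f0f0114f0108f03c0553c0403c03c3c0453c03a158f0124f0114f0140f00ecf03c0563c0513c0453c0503c045114f0100f00e8f0114f00e8f03c04b3c03c3c0423c03b3c03a)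
    (nat_lit 0x180f03c0f03c0f03c0f03c0f03c0603c0f03c0f03c0f03c0f0124f0158f03c0f03c0f03c0f03c0513c0563c0f03c0f03c0f0154f0100f00f0f03c0f03c0f03c03b3c0403c03c3c0f03c0f0158f0144f0114f0140f03c0f03c0563c0493c0453c0503c0f012cf00f0f0108f00ecf00e8f03c0453c0403c03a3c0453c03a)
    (nat_lit 3) [[nat_lit 2,nat_lit 3,nat_lit 4,nat_lit 18,nat_lit 258,nat_lit 0x1002,nat_lit 0x10002,nat_lit 17,
    nat_lit 33,nat_lit 273,nat_lit 0x1011,nat_lit 0x10011,nat_lit 257,nat_lit 513,nat_lit 0x1101,nat_lit 0x10101,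
    nat_lit 0x1001,nat_lit 0x2001,nat_lit 0x11001,nat_lit 0x10001],[nat_lit 32,nat_lit 288,nat_lit 0x1020,
    nat_lit 272,nat_lit 528,nat_lit 0x1110,nat_lit 0x1010,nat_lit 0x10010,nat_lit 0x10110],[nat_lit 512,nat_lit 768,
    nat_lit 0x1200,nat_lit 0x10200,nat_lit 0x1100,nat_lit 0x2100,nat_lit 0x11100,nat_lit 0x10100],[nat_lit 0x2000,
    nat_lit 0x11000],[nat_lit 0x20000]] [.c (nat_lit 1) (nat_lit 2),.r (nat_lit 55) (nat_lit 0) [nat_lit 0x2001,
    nat_lit 0x7199],.r (nat_lit 79) (nat_lit 3) [nat_lit 0xb52],.r (nat_lit 79) (nat_lit 4) [nat_lit 209],.c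
    (nat_lit 1) (nat_lit 0x41a),.r (nat_lit 109) (nat_lit 6) [nat_lit 0x4151,nat_lit 0x3119],.r (nat_lit 79)
    (nat_lit 2) [nat_lit 209],.c (nat_lit 0) (nat_lit 0x495),.r (nat_lit 79) (nat_lit 5) [nat_lit 209],.c
    (nat_lit 2) (nat_lit 0x41a),.c (nat_lit 1) (nat_lit 0xac4),.r (nat_lit 1) (nat_lit 6) [nat_lit 153],.c
    (nat_lit 0) (nat_lit 0xa23),.c (nat_lit 3) (nat_lit 0x41a),.c (nat_lit 4) (nat_lit 0x41a),.c (nat_lit 1)
    (nat_lit 0x8ac),.c (nat_lit 0) (nat_lit 0x495),.r (nat_lit 5) (nat_lit 3) [nat_lit 0x3681,nat_lit 17],.r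
    (nat_lit 1) (nat_lit 1) [nat_lit 153],.c (nat_lit 1) (nat_lit 132),.c (nat_lit 2) (nat_lit 2),.r (nat_lit 79)
    (nat_lit 0) [nat_lit 209],.r (nat_lit 79) (nat_lit 0) [nat_lit 0x7621],.r (nat_lit 0) (nat_lit 1) [nat_lit 17],
    .r (nat_lit 79) (nat_lit 9) [nat_lit 209],.r (nat_lit 1) (nat_lit 4) [nat_lit 153],.c (nat_lit 0)
    (nat_lit 0x495),.c (nat_lit 0) (nat_lit 0x403),.r (nat_lit 79) (nat_lit 0) [nat_lit 0x2561],.c (nat_lit 3)
    (nat_lit 2),.r (nat_lit 1) (nat_lit 4) [nat_lit 0x779a],.r (nat_lit 79) (nat_lit 1) [nat_lit 209],.r (nat_lit 1)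
    (nat_lit 4) [nat_lit 0x5719],.r (nat_lit 0) (nat_lit 6) [nat_lit 17],.r (nat_lit 1) (nat_lit 0)
    [nat_lit 0x249a],.r (nat_lit 1) (nat_lit 0) [nat_lit 153],.c (nat_lit 0) (nat_lit 0xef5),.c (nat_lit 4)
    (nat_lit 2),.c (nat_lit 0) (nat_lit 0x403),.c (nat_lit 1) (nat_lit 130)],.l (nat_lit 11) (nat_lit 480)
    (nat_lit 4) (nat_lit 0xad000000ad0000009900000099000000ba000000ba0000009d0000009d0000009b0000009b)
    (nat_lit 0xd0000000d000000210000002100000000000000000000001d0000001d0000001f0000001f)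
    (nat_lit 0x140780321e01627804b1e011c780f00a03c0230f00ad3c0248f008e1187803c1e012e7803e1e00f4780f00643c01e0f00993c01f0f007a15a7804c9e01747804e9e0186780f00b13c025cf00ba3c0274f00a71247803e1e013a7803a1e00f4780f00963c01f0f009d3c01d0f007e11c7803d1e014e7803f1e00ec780f008e3c01e8f00c33c01e8f0076)
    (nat_lit 0x140780f01e03c0780f01e03c0780f00a03c0780f01e03c0780f01e00c87803c1e03c0780f01e03c0780f008c3c01e0f01e03c0780f01e01627804b9e0174780f01e03c0780f00ad3c0264f00ba3c0780f01e012c7803e1e013a7803a1e03c0780f00923c01f0f009d3c01d0f01e011c7803d1e01867803d1e00ec780f008e3c01e8f00a73c01f8f0076)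
    (nat_lit 3) [[nat_lit 2,nat_lit 3,nat_lit 4,nat_lit 18,nat_lit 0x1002,nat_lit 0x10002,nat_lit 17,nat_lit 33,
    nat_lit 273,nat_lit 0x1011,nat_lit 0x10011,nat_lit 257,nat_lit 0x1101,nat_lit 0x1001,nat_lit 0x2001,
    nat_lit 0x11001,nat_lit 0x10001,nat_lit 0x20001],[nat_lit 32,nat_lit 48,nat_lit 64,nat_lit 288,nat_lit 0x1020,
    nat_lit 0x10020,nat_lit 272,nat_lit 0x1110,nat_lit 0x1010,nat_lit 0x2010,nat_lit 0x11010,nat_lit 0x10010,
    nat_lit 0x20010],[nat_lit 512,nat_lit 0x1100,nat_lit 0x2100,nat_lit 0x11100,nat_lit 0x10100],[nat_lit 0x2000,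
    nat_lit 0x3000,nat_lit 0x12000,nat_lit 0x11000,nat_lit 0x21000],[nat_lit 0x20000]] [.c (nat_lit 1) (nat_lit 2),
    .r (nat_lit 79) (nat_lit 3) [nat_lit 0xad1],.c (nat_lit 3) (nat_lit 0xb23),.r (nat_lit 1) (nat_lit 6)
    [nat_lit 0x499],.r (nat_lit 1) (nat_lit 1) [nat_lit 0x499],.r (nat_lit 79) (nat_lit 3) [nat_lit 0x6d1],.c
    (nat_lit 0) (nat_lit 0x495),.r (nat_lit 79) (nat_lit 5) [nat_lit 209],.r (nat_lit 1) (nat_lit 3) [nat_lit 153],
    .c (nat_lit 1) (nat_lit 0x602),.r (nat_lit 1) (nat_lit 6) [nat_lit 153],.c (nat_lit 0) (nat_lit 0x693),.r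
    (nat_lit 1) (nat_lit 0) [nat_lit 0x499],.c (nat_lit 0) (nat_lit 0x495),.r (nat_lit 79) (nat_lit 6)
    [nat_lit 0x6d1],.r (nat_lit 1) (nat_lit 1) [nat_lit 153],.c (nat_lit 1) (nat_lit 130),.r (nat_lit 79)
    (nat_lit 3) [nat_lit 209],.c (nat_lit 2) (nat_lit 2),.r (nat_lit 55) (nat_lit 1) [nat_lit 0x3081,
    nat_lit 0x6019],.r (nat_lit 56) (nat_lit 9) [nat_lit 0x3081,nat_lit 18],.r (nat_lit 1) (nat_lit 3)
    [nat_lit 0x269a],.c (nat_lit 2) (nat_lit 0x602),.r (nat_lit 79) (nat_lit 5) [nat_lit 0x4d1],.r (nat_lit 0)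
    (nat_lit 1) [nat_lit 17],.c (nat_lit 3) (nat_lit 0x602),.c (nat_lit 0) (nat_lit 0x495),.c (nat_lit 4)
    (nat_lit 0x602),.c (nat_lit 1) (nat_lit 0x682),.c (nat_lit 0) (nat_lit 0x4d5),.r (nat_lit 1) (nat_lit 6)
    [nat_lit 0x699],.c (nat_lit 3) (nat_lit 2),.r (nat_lit 0) (nat_lit 6) [nat_lit 17],.r (nat_lit 1) (nat_lit 0)
    [nat_lit 0x249a],.r (nat_lit 1) (nat_lit 0) [nat_lit 153],.c (nat_lit 0) (nat_lit 0x613),.c (nat_lit 4)
    (nat_lit 2),.r (nat_lit 55) (nat_lit 9) [nat_lit 0x3081,nat_lit 0x6019],.r (nat_lit 79) (nat_lit 6)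
    [nat_lit 209],.c (nat_lit 0) (nat_lit 0x4d5),.r (nat_lit 1) (nat_lit 1) [nat_lit 0x699],.c (nat_lit 1)
    (nat_lit 258)],.l (nat_lit 10) (nat_lit 240) (nat_lit 3)
    (nat_lit 0x56000000560000004e0000004e000000660000005d0000005400000054000000540000005e)
    (nat_lit 0x10000000100000001800000018000000090000000000000012000000120000000800000012)
    (nat_lit 0x140f00f0f015cf00f0f0138f03c0503c03e3c03c3c0443c0440f8f0140f0114f00f0f00f0f03c03c3c0503c04e3c03c3c03c0f0f0138f0174f0150f0180f03c0573c0453c05d3c04b3c03c110f00f0f012cf0144f0108f03c03c3c03c3c0543c0513c042110f00f0f00f0f0108f0150f03c04e3c03c3c0603c0423c054)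
    (nat_lit 0x140f03c0f03c0f03c0f03c0f03c0503c0f03c0f03c0f03c0f00f0f0140f03c0f03c0f03c0f03c03e3c0503c0f03c0f03c0f015cf0114f0174f03c0f03c0f03c03c3c04e3c05d3c0f03c0f00f0f00f0f0150f0144f03c0f03c0443c03c3c04b3c0513c0f0138f00f0f0180f0108f0150f03c0443c03c3c03c3c0423c054)
    (nat_lit 3) [[nat_lit 2,nat_lit 18,nat_lit 0x1002,nat_lit 0x10002,nat_lit 17,nat_lit 33,nat_lit 273,
    nat_lit 0x1011,nat_lit 0x10011,nat_lit 257,nat_lit 0x1101,nat_lit 0x1001,nat_lit 0x2001,nat_lit 0x11001,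
    nat_lit 0x10001,nat_lit 0x10101,nat_lit 0x20001],[nat_lit 32,nat_lit 0x1020,nat_lit 0x10020,nat_lit 272,
    nat_lit 0x1110,nat_lit 0x10110,nat_lit 0x1010,nat_lit 0x2010,nat_lit 0x11010,nat_lit 0x10010,nat_lit 0x20010],
    [nat_lit 512,nat_lit 0x1100,nat_lit 0x2100,nat_lit 0x11100,nat_lit 0x10100,nat_lit 0x20100],[nat_lit 0x2000,
    nat_lit 0x12000,nat_lit 0x11000,nat_lit 0x21000],[nat_lit 0x20000]] [.c (nat_lit 1) (nat_lit 2),.r (nat_lit 1)
    (nat_lit 6) [nat_lit 0x499],.r (nat_lit 1) (nat_lit 1) [nat_lit 0x499],.r (nat_lit 79) (nat_lit 3)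
    [nat_lit 0x6d1],.c (nat_lit 0) (nat_lit 0x585),.r (nat_lit 1) (nat_lit 3) [nat_lit 0x241a],.r (nat_lit 1)
    (nat_lit 3) [nat_lit 153],.c (nat_lit 3) (nat_lit 0x752),.r (nat_lit 1) (nat_lit 6) [nat_lit 153],.c (nat_lit 0)
    (nat_lit 0x6e3),.r (nat_lit 1) (nat_lit 0) [nat_lit 0x499],.c (nat_lit 0) (nat_lit 0x585),.r (nat_lit 1)
    (nat_lit 0) [nat_lit 0x2c1a],.r (nat_lit 1) (nat_lit 1) [nat_lit 153],.c (nat_lit 1) (nat_lit 130),.r
    (nat_lit 79) (nat_lit 3) [nat_lit 0x25e1],.r (nat_lit 79) (nat_lit 3) [nat_lit 209],.c (nat_lit 2) (nat_lit 2),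
    .r (nat_lit 5) (nat_lit 1) [nat_lit 0x3701,nat_lit 17],.r (nat_lit 1) (nat_lit 3) [nat_lit 0x201a],.r
    (nat_lit 0) (nat_lit 1) [nat_lit 17],.r (nat_lit 1) (nat_lit 4) [nat_lit 153],.r (nat_lit 1) (nat_lit 3)
    [nat_lit 0x699],.c (nat_lit 3) (nat_lit 0xbf2),.r (nat_lit 5) (nat_lit 6) [nat_lit 17,nat_lit 0x3b01],.c
    (nat_lit 3) (nat_lit 0x6d2),.c (nat_lit 0) (nat_lit 0x485),.r (nat_lit 1) (nat_lit 6) [nat_lit 0x699],.c
    (nat_lit 3) (nat_lit 2),.r (nat_lit 0) (nat_lit 6) [nat_lit 17],.r (nat_lit 79) (nat_lit 8) [nat_lit 209],.r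
    (nat_lit 1) (nat_lit 0) [nat_lit 153],.c (nat_lit 0) (nat_lit 0x763),.r (nat_lit 79) (nat_lit 3)
    [nat_lit 0x2de1],.c (nat_lit 4) (nat_lit 2),.r (nat_lit 1) (nat_lit 0) [nat_lit 0x281a],.c (nat_lit 0)
    (nat_lit 0x485),.r (nat_lit 1) (nat_lit 1) [nat_lit 0x699],.c (nat_lit 1) (nat_lit 258)],.l (nat_lit 29)
    (nat_lit 78602160) (nat_lit 4)
    (nat_lit 0x194c9e50194c9e5016f5964016f596401745914017459140199c93a0199c93a01b7c53801b7c538)
    (nat_lit 0x22fb530022fb5300486bd400486bd400436c2400436c24001dfbfe001dfbfe0000000000000000)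
    (nat_lit 0xd1e3f212bd7ec0298bc224af5fb0111a0d992bd7ec0257afd84af5fb00ca64f292bd7ec095ebf601a3c7e4257afd80531784495ebf600e86bc8257afd805db379c95ebf60117da980a62f0892bd7ec031fbf124af5fb0095f6a012bd7ec039c99664af5fb009eb00912bd7ec095ebf6014c5e11257afd8063f7e2495ebf6012bed40257afd80351b86495ebf6016f596407435e412bd7ec0257da804af5fb00d6ee1e92bd7ec02acba2c4af5fb00ba2c8a12bd7ec095ebf6022341b3257afd804afb50095ebf601addc3d257afd80559745895ebf600e35e640bb66f392bd7ec01a8dc324af5fb00ab2e8b12bd7ec04198fd84af5fb0063f2a412bd7ec095ebf6012bd7ec257afd8073932cc95ebf601565d16257afd808331fb095ebf60199c93a08bed4c12bd7ec02deb2c84af5fb0071af3212bd7ec033392744af5fb01015d9992bd7ec095ebf60194c9e5257afd804f5804895ebf601745914257afd8031f952095ebf60202bb33)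
    (nat_lit 0xd1e3f212bd7ec095ebf604af5fb0257afd812bd7ec095ebf604af5fb0257afd812bd7ec095ebf601a3c7e4257afd812bd7ec095ebf604af5fb0257afd812bd7ec095ebf604af5fb00a62f0892bd7ec031fbf124af5fb0257afd812bd7ec095ebf604af5fb0257afd812bd7ec095ebf6014c5e11257afd8063f7e2495ebf604af5fb0257afd812bd7ec095ebf604af5fb0111a0d992bd7ec0257da804af5fb00d6ee1e92bd7ec095ebf604af5fb0257afd812bd7ec095ebf600e86bc8257afd804afb50095ebf601addc3d257afd812bd7ec095ebf604af5fb0095ebf612bd7ec039c99664af5fb00ab2e8b12bd7ec04198fd84af5fb0257afd812bd7ec095ebf60176cde7257afd80351b86495ebf601565d16257afd808331fb095ebf604af5fb00ca64f292bd7ec027ac0244af5fb00ba2c8a12bd7ec018fca904af5fb01015d9992bd7ec095ebf60117da98257afd805bd659095ebf600e35e64257afd8066724e895ebf60202bb33)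
    (nat_lit 3) [[nat_lit 2,nat_lit 18,nat_lit 258,nat_lit 17,nat_lit 33,nat_lit 273,nat_lit 0x1011,nat_lit 0x1111,
    nat_lit 0x10011,nat_lit 0x10111,nat_lit 257,nat_lit 513,nat_lit 0x1101,nat_lit 0x1001,nat_lit 0x11011,
    nat_lit 0x2001,nat_lit 0x11001,nat_lit 0x11101,nat_lit 0x10001,nat_lit 0x10101,nat_lit 0x20001],[nat_lit 32,
    nat_lit 272,nat_lit 528,nat_lit 0x1110,nat_lit 0x1010,nat_lit 0x2010,nat_lit 0x11010,nat_lit 0x10010,
    nat_lit 0x10110,nat_lit 0x11110,nat_lit 0x20010],[nat_lit 512,nat_lit 0x1200,nat_lit 0x1100,nat_lit 0x2100,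
    nat_lit 0x11100,nat_lit 0x10100],[nat_lit 0x2000,nat_lit 0x12000,nat_lit 0x11000,nat_lit 0x21000],
    [nat_lit 0x20000]] [.c (nat_lit 1) (nat_lit 2),.r (nat_lit 79) (nat_lit 4) [nat_lit 209],.r (nat_lit 116)
    (nat_lit 6) [nat_lit 0x419,nat_lit 0xb11],.r (nat_lit 0) (nat_lit 0) [nat_lit 17],.r (nat_lit 79) (nat_lit 5)
    [nat_lit 209],.r (nat_lit 1) (nat_lit 3) [nat_lit 153],.r (nat_lit 115) (nat_lit 0) [nat_lit 0x611,nat_lit 153],
    .c (nat_lit 5) (nat_lit 19),.r (nat_lit 1) (nat_lit 6) [nat_lit 153],.c (nat_lit 4) (nat_lit 19),.r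
    (nat_lit 108) (nat_lit 1) [nat_lit 17],.r (nat_lit 111) (nat_lit 6) [nat_lit 0x429,nat_lit 0x691],.r
    (nat_lit 79) (nat_lit 1) [nat_lit 0x6e1],.c (nat_lit 0) (nat_lit 131),.c (nat_lit 3) (nat_lit 19),.r
    (nat_lit 113) (nat_lit 2) [nat_lit 0x819,nat_lit 0x799],.r (nat_lit 1) (nat_lit 1) [nat_lit 153],.c (nat_lit 2)
    (nat_lit 19),.r (nat_lit 0) (nat_lit 4) [nat_lit 17],.r (nat_lit 114) (nat_lit 0) [nat_lit 0x699,nat_lit 17],.r
    (nat_lit 79) (nat_lit 3) [nat_lit 209],.c (nat_lit 2) (nat_lit 2),.c (nat_lit 0) (nat_lit 229),.r (nat_lit 79)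
    (nat_lit 9) [nat_lit 209],.r (nat_lit 1) (nat_lit 4) [nat_lit 153],.r (nat_lit 108) (nat_lit 6) [nat_lit 17],.r
    (nat_lit 111) (nat_lit 0) [nat_lit 0xa11,nat_lit 0x499],.r (nat_lit 109) (nat_lit 6) [nat_lit 0x561,
    nat_lit 0x719],.c (nat_lit 0) (nat_lit 229),.c (nat_lit 1) (nat_lit 154),.c (nat_lit 1) (nat_lit 19),.r
    (nat_lit 5) (nat_lit 4) [nat_lit 0x401,nat_lit 17],.c (nat_lit 3) (nat_lit 2),.r (nat_lit 79) (nat_lit 1)
    [nat_lit 209],.r (nat_lit 0) (nat_lit 6) [nat_lit 17],.r (nat_lit 79) (nat_lit 8) [nat_lit 209],.r (nat_lit 1)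
    (nat_lit 0) [nat_lit 153],.c (nat_lit 0) (nat_lit 229),.c (nat_lit 4) (nat_lit 2),.r (nat_lit 79) (nat_lit 6)
    [nat_lit 209],.r (nat_lit 0) (nat_lit 3) [nat_lit 17],.r (nat_lit 1) (nat_lit 1) [nat_lit 0x71a],.c (nat_lit 5)
    (nat_lit 2)],.l (nat_lit 11) (nat_lit 480) (nat_lit 4)
    (nat_lit 0x9b0000009b000000ae000000ae0000009a0000009a000000bc000000bc0000009e0000009e)
    (nat_lit 0x21000000210000000e0000000e000000220000002200000000000000000000001e0000001e)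
    (nat_lit 0xec780469e00f6780539e00fa780f00763c0234f00793c030cf007b11a780501e00c8780581e0128780f008d3c0280f008c3c02b8f00940f2780461e00f07804b1e00f8780f007b3c0190f00783c0268f007c186780571e01347805e1e0138780f00a73c02c0f00963c02f0f009e0f67804a1e00f87804f1e00e8780f007d3c0250f007c3c0270f0074)
    (nat_lit 0xec780f01e03c0780f01e03c0780f00763c0780f01e03c0780f01e011a780501e03c0780f01e03c0780f008d3c0280f01e03c0780f01e00f6780321e00f0780f01e03c0780f00793c0230f00783c0780f01e014e780581e012c7805e1e03c0780f00c33c02b8f009a3c02f0f01e00fa7804a1e00f87804e1e00e8780f007b3c0250f007c3c0278f0074)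
    (nat_lit 3) [[nat_lit 2,nat_lit 3,nat_lit 4,nat_lit 18,nat_lit 258,nat_lit 0x1002,nat_lit 0x10002,nat_lit 17,
    nat_lit 273,nat_lit 0x10011,nat_lit 257,nat_lit 513,nat_lit 0x1101,nat_lit 0x10101,nat_lit 0x1001,
    nat_lit 0x2001,nat_lit 0x11001,nat_lit 0x10001,nat_lit 0x20001],[nat_lit 32,nat_lit 272,nat_lit 528,
    nat_lit 0x1110,nat_lit 0x10110,nat_lit 0x1010,nat_lit 0x10010],[nat_lit 512,nat_lit 768,nat_lit 0x1200,
    nat_lit 0x10200,nat_lit 0x1100,nat_lit 0x2100,nat_lit 0x11100,nat_lit 0x10100,nat_lit 0x20100],[nat_lit 0x2000,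
    nat_lit 0x12000,nat_lit 0x11000,nat_lit 0x21000],[nat_lit 0x20000,nat_lit 0x30000,nat_lit 0x40000]] [.c
    (nat_lit 1) (nat_lit 2),.r (nat_lit 79) (nat_lit 3) [nat_lit 0xad1],.r (nat_lit 1) (nat_lit 4) [nat_lit 0xa12],
    .r (nat_lit 1) (nat_lit 6) [nat_lit 0x499],.c (nat_lit 1) (nat_lit 0x41a),.r (nat_lit 1) (nat_lit 1)
    [nat_lit 0x499],.r (nat_lit 79) (nat_lit 3) [nat_lit 0x6d1],.c (nat_lit 0) (nat_lit 0x483),.c (nat_lit 2)
    (nat_lit 0x41a),.r (nat_lit 1) (nat_lit 6) [nat_lit 153],.c (nat_lit 0) (nat_lit 0xa23),.c (nat_lit 3)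
    (nat_lit 0x41a),.c (nat_lit 4) (nat_lit 0x41a),.c (nat_lit 1) (nat_lit 0x49a),.c (nat_lit 0) (nat_lit 0x483),.r
    (nat_lit 79) (nat_lit 6) [nat_lit 0x6d1],.r (nat_lit 1) (nat_lit 1) [nat_lit 153],.c (nat_lit 1) (nat_lit 130),
    .r (nat_lit 79) (nat_lit 3) [nat_lit 209],.c (nat_lit 2) (nat_lit 2),.r (nat_lit 0) (nat_lit 1) [nat_lit 17],.r
    (nat_lit 79) (nat_lit 9) [nat_lit 209],.r (nat_lit 1) (nat_lit 4) [nat_lit 153],.c (nat_lit 2) (nat_lit 0x49a),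
    .c (nat_lit 3) (nat_lit 0xad2),.c (nat_lit 0) (nat_lit 0x403),.c (nat_lit 3) (nat_lit 2),.r (nat_lit 55)
    (nat_lit 5) [nat_lit 0x2001,nat_lit 0x7199],.r (nat_lit 79) (nat_lit 1) [nat_lit 209],.c (nat_lit 3)
    (nat_lit 0x49a),.r (nat_lit 0) (nat_lit 6) [nat_lit 17],.r (nat_lit 79) (nat_lit 8) [nat_lit 209],.c (nat_lit 4)
    (nat_lit 0x49a),.c (nat_lit 0) (nat_lit 0xae3),.c (nat_lit 1) (nat_lit 0x51a),.c (nat_lit 4) (nat_lit 2),.r
    (nat_lit 79) (nat_lit 6) [nat_lit 209],.c (nat_lit 0) (nat_lit 0x403),.r (nat_lit 1) (nat_lit 1)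
    [nat_lit 0x699],.c (nat_lit 1) (nat_lit 258),.r (nat_lit 79) (nat_lit 3) [nat_lit 0x4d1],.r (nat_lit 1)
    (nat_lit 4) [nat_lit 0x812]],.l (nat_lit 13) (nat_lit 1920) (nat_lit 4)
    (nat_lit 0x29d0000029d00000245000002450000027000000270000002ba000002ba0000026300000263)
    (nat_lit 0x1d0000001d00000075000000750000004a0000004a00000000000000000000005700000057)
    (nat_lit 0x1401e0038c7801299e005ae7801231e00f002803c008a0f002413c00b5cf002461141e003c47800e09e0048a7800f71e00f001c63c00788f001fb3c005fcf001ee1209e003f67801761e004e078013d9e00f002533c00704f002ec3c009c0f0021916b9e002fe7801381e005747801319e00f002d73c00914f002703c00ae8f002631231e003dc78010c9e004c67800e91e00f002463c007b8f0027b3c0098cf001d2)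
    (nat_lit 0x1401e00f007803c01e00f007803c01e00f002803c01e00f007803c01e00f007800e31e003c47803c01e00f007803c01e00f002283c00788f007803c01e00f007801299e003827801761e00f007803c01e00f002413c007ecf002ec3c01e00f0078016b9e0048a7801381e005747803c01e00f002d73c005fcf002703c00ae8f007801231e003dc78013d9e004c67800e91e00f002463c007b8f002193c0098cf001d2)
    (nat_lit 3) [[nat_lit 2,nat_lit 3,nat_lit 4,nat_lit 18,nat_lit 258,nat_lit 0x1002,nat_lit 0x10002,nat_lit 17,
    nat_lit 273,nat_lit 0x1011,nat_lit 257,nat_lit 0x1101,nat_lit 0x10101,nat_lit 0x1001,nat_lit 0x2001,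
    nat_lit 0x11001,nat_lit 0x10001,nat_lit 0x20001],[nat_lit 32,nat_lit 0x1020,nat_lit 272,nat_lit 0x1110,
    nat_lit 0x1010,nat_lit 0x2010,nat_lit 0x11010,nat_lit 0x10010],[nat_lit 512,nat_lit 0x1200,nat_lit 0x1100,
    nat_lit 0x2200,nat_lit 0x2100,nat_lit 0x11100,nat_lit 0x10100,nat_lit 0x20100],[nat_lit 0x2000,nat_lit 0x3000,
    nat_lit 0x12000,nat_lit 0x11000,nat_lit 0x21000],[nat_lit 0x20000]] [.c (nat_lit 1) (nat_lit 2),.r (nat_lit 55)
    (nat_lit 7) [nat_lit 0x681,nat_lit 0xc19],.r (nat_lit 56) (nat_lit 3) [nat_lit 0x681,nat_lit 18],.r (nat_lit 79)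
    (nat_lit 4) [nat_lit 209],.r (nat_lit 117) (nat_lit 2) [nat_lit 17],.c (nat_lit 1) (nat_lit 194),.r (nat_lit 79)
    (nat_lit 2) [nat_lit 209],.r (nat_lit 0) (nat_lit 0) [nat_lit 17],.r (nat_lit 1) (nat_lit 3) [nat_lit 153],.c
    (nat_lit 2) (nat_lit 194),.r (nat_lit 108) (nat_lit 1) [nat_lit 17],.c (nat_lit 3) (nat_lit 194),.r
    (nat_lit 118) (nat_lit 2) [nat_lit 0x4d1,nat_lit 0x681],.c (nat_lit 0) (nat_lit 259),.c (nat_lit 4)
    (nat_lit 194),.c (nat_lit 5) (nat_lit 194),.r (nat_lit 0) (nat_lit 4) [nat_lit 17],.r (nat_lit 79) (nat_lit 3)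
    [nat_lit 209],.c (nat_lit 2) (nat_lit 2),.r (nat_lit 117) (nat_lit 5) [nat_lit 17],.c (nat_lit 0) (nat_lit 211),
    .r (nat_lit 1) (nat_lit 4) [nat_lit 153],.r (nat_lit 108) (nat_lit 6) [nat_lit 17],.r (nat_lit 117) (nat_lit 6)
    [nat_lit 17],.r (nat_lit 118) (nat_lit 9) [nat_lit 0x699,nat_lit 17],.c (nat_lit 0) (nat_lit 211),.c (nat_lit 3)
    (nat_lit 2),.r (nat_lit 79) (nat_lit 1) [nat_lit 209],.r (nat_lit 0) (nat_lit 6) [nat_lit 17],.r (nat_lit 1)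
    (nat_lit 6) [nat_lit 18],.r (nat_lit 79) (nat_lit 8) [nat_lit 209],.r (nat_lit 1) (nat_lit 0) [nat_lit 153],.c
    (nat_lit 0) (nat_lit 211),.r (nat_lit 79) (nat_lit 0) [nat_lit 0xa99],.c (nat_lit 4) (nat_lit 2),.r (nat_lit 55)
    (nat_lit 3) [nat_lit 0x681,nat_lit 0xc19],.r (nat_lit 79) (nat_lit 6) [nat_lit 209],.r (nat_lit 0) (nat_lit 3)
    [nat_lit 17],.r (nat_lit 79) (nat_lit 7) [nat_lit 209],.c (nat_lit 5) (nat_lit 2)],.l (nat_lit 13)
    (nat_lit 1920) (nat_lit 3)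
    (nat_lit 0x2a4000002b60000026e0000026e00000332000002a4000002a4000002a4000002e2000002fc)
    (nat_lit 0x7c0000008e000000c4000000c40000008e000000000000008e0000008e0000003600000050)
    (nat_lit 0x1401e003c07800f11e0042c7801371e00f002803c007c8f001e03c008a0f002660f91e005007800f01e003c07800f01e00f001e03c00a00f0026e3c00780f001e20f01e004dc7801521e005c078017e1e00f001e23c00780f002a43c00858f001e01141e003c078010b1e005147801511e00f002163c00780f002e03c00a28f002541331e003c47800f01e004a87801561e00f0026e3c00780f002fc3c00a88f002ac)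
    (nat_lit 0x1401e00f007803c01e00f007803c01e00f002803c01e00f007803c01e00f007800f01e005007803c01e00f007803c01e00f001f23c00a00f007803c01e00f007800f11e003c07801521e00f007803c01e00f001e03c009b8f002a43c01e00f0078010b1e003c07801701e005147803c01e00f002283c00780f002163c00a28f007801371e003c078017e1e005447801561e00f002663c00788f001e03c00950f002ac)
    (nat_lit 2) [[nat_lit 2,nat_lit 0x1002,nat_lit 17,nat_lit 273,nat_lit 0x1011,nat_lit 0x10011,nat_lit 257,
    nat_lit 0x1101,nat_lit 0x10101,nat_lit 0x1001,nat_lit 0x2001,nat_lit 0x11001,nat_lit 0x10001,nat_lit 0x20001],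
    [nat_lit 32,nat_lit 0x1020,nat_lit 0x10020,nat_lit 272,nat_lit 0x1110,nat_lit 0x10110,nat_lit 0x1010,
    nat_lit 0x2010,nat_lit 0x11010,nat_lit 0x10010,nat_lit 0x20010],[nat_lit 512,nat_lit 0x1200,nat_lit 0x10200,
    nat_lit 0x1100,nat_lit 0x2100,nat_lit 0x11100,nat_lit 0x10100,nat_lit 0x20100],[nat_lit 0x2000,nat_lit 0x12000,
    nat_lit 0x11000,nat_lit 0x21000],[nat_lit 0x20000]] [.c (nat_lit 1) (nat_lit 2),.r (nat_lit 117) (nat_lit 4)
    [nat_lit 9],.r (nat_lit 0) (nat_lit 0) [nat_lit 9],.r (nat_lit 1) (nat_lit 3) [nat_lit 45],.r (nat_lit 119)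
    (nat_lit 3) [nat_lit 45],.r (nat_lit 1) (nat_lit 6) [nat_lit 45],.r (nat_lit 108) (nat_lit 1) [nat_lit 9],.r
    (nat_lit 119) (nat_lit 0) [nat_lit 45],.r (nat_lit 119) (nat_lit 6) [nat_lit 45],.r (nat_lit 108) (nat_lit 4)
    [nat_lit 9],.r (nat_lit 117) (nat_lit 8) [nat_lit 9],.r (nat_lit 1) (nat_lit 1) [nat_lit 45],.r (nat_lit 0)
    (nat_lit 4) [nat_lit 9],.r (nat_lit 79) (nat_lit 3) [nat_lit 57],.c (nat_lit 2) (nat_lit 2),.r (nat_lit 117)
    (nat_lit 5) [nat_lit 9],.r (nat_lit 117) (nat_lit 0) [nat_lit 9],.r (nat_lit 0) (nat_lit 1) [nat_lit 9],.r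
    (nat_lit 1) (nat_lit 4) [nat_lit 45],.r (nat_lit 119) (nat_lit 4) [nat_lit 45],.r (nat_lit 108) (nat_lit 6)
    [nat_lit 9],.r (nat_lit 117) (nat_lit 6) [nat_lit 9],.r (nat_lit 119) (nat_lit 1) [nat_lit 45],.r (nat_lit 108)
    (nat_lit 0) [nat_lit 9],.r (nat_lit 117) (nat_lit 7) [nat_lit 9],.c (nat_lit 3) (nat_lit 2),.r (nat_lit 79)
    (nat_lit 1) [nat_lit 57],.r (nat_lit 117) (nat_lit 9) [nat_lit 9],.r (nat_lit 0) (nat_lit 6) [nat_lit 9],.r
    (nat_lit 79) (nat_lit 8) [nat_lit 57],.r (nat_lit 1) (nat_lit 0) [nat_lit 45],.r (nat_lit 108) (nat_lit 3)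
    [nat_lit 9],.r (nat_lit 117) (nat_lit 3) [nat_lit 9],.c (nat_lit 4) (nat_lit 2),.r (nat_lit 79) (nat_lit 6)
    [nat_lit 57],.r (nat_lit 0) (nat_lit 3) [nat_lit 9],.r (nat_lit 79) (nat_lit 7) [nat_lit 57],.c (nat_lit 5)
    (nat_lit 2)]]

end Pool.Agent.Lib_MP_fa6e45
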