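import Pool.Agent.Lib_MP_fa6e45.CQR1
import Pool.Agent.Lib_MP_fa6e45.CQR5_0
import Pool.Agent.Lib_MP_fa6e45.CQR5_0n
import Pool.Agent.Lib_MP_fa6e45.CQR5_0T

/-!
MP_fa6e45_co, stage 9: certificates for the theorem T6 (generated by a program).
-/

namespace Pool.Agent.Lib_MP_fa6e45

theorem r5_0_k0 : allI (chkG (ckP 5 ttU5 r5_0_w r5_0_s) 5 r5_0_w 1 r5_0_s r5_0_t (bl3 [] r5_0_D)) (rawGL dN r5_0_lf r5_0_n0) 0 = true := by
  decide +kernel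

end Pool.Agent.Lib_MP_fa6e45
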