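import Pool.Agent.Lib_MP_fa6e45.CQR1
import Pool.Agent.Lib_MP_fa6e45.CQR5T
import Pool.Agent.Lib_MP_fa6e45.CQR5_2
import Pool.Agent.Lib_MP_fa6e45.CQR5_3

/-!
MP_fa6e45_co, stage 9: certificates for the theorem T6 (generated by a program).
-/

namespace Pool.Agent.Lib_MP_fa6e45

theorem g5_2_0 :
    (allF (chkM9 5 ttU5) (rawML sy5 lf5 xt5 rl5_2_0) && (tl5_2_0 == (rawML sy5 lf5 xt5 rl5_2_0).map fun C => encW C.wd)) = true := by
  decide +kernel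

theorem sR5_2_0 : ∀ x ∈ tl5_2_0, NodeU 5 (decW 5 x) [] :=
  tabM_sound (by norm_num) (by norm_num) ttU5_ok g5_2_0

theorem g5_2_1 :
    (allF (chkM9 5 ttU5) (rawML sy5 lf5 xt5 rl5_2_1) && (tl5_2_1 == (rawML sy5 lf5 xt5 rl5_2_1).map fun C => encW C.wd)) = true := by
  decide +kernel

theorem sR5_2_1 : ∀ x ∈ tl5_2_1, NodeU 5 (decW 5 x) [] :=
  tabM_sound (by norm_num) (by norm_num) ttU5_ok g5_2_1

theorem g5_3_0 :
    (allF (chkM9 5 ttU5) (rawML sy5 lf5 xt5 rl5_3_0) && (tl5_3_0 == (rawML sy5 lf5 xt5 rl5_3_0).map fun C => encW C.wd)) = true := by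
  decide +kernel

theorem sR5_3_0 : ∀ x ∈ tl5_3_0, NodeU 5 (decW 5 x) [] :=
  tabM_sound (by norm_num) (by norm_num) ttU5_ok g5_3_0

end Pool.Agent.Lib_MP_fa6e45
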