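import Pool.Agent.Lib_MP_fa6e45.CQ4
import Pool.Agent.Lib_MP_fa6e45.CXTg
import Pool.Agent.Lib_MP_fa6e45.HK

/-!
MP_fa6e45_co, stage 9: certificates for the theorem T6 (generated by a program).
-/

namespace Pool.Agent.Lib_MP_fa6e45

/-- table of lists of symmetries -/
noncomputable def sy6 : List (List (Bool × ℕ × List ℕ)) :=
  [[(false,k0,[k0,k1,k2,k3,k4,k5]),(false,k3,[k3,k4,k5,k0,k1,k2]),(true,k0,[k0,k5,k4,k3,k2,k1])], [(false,k0,[k0,k1,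
    k2,k3,k4,k5]),(true,k0,[k0,k5,k4,k3,k2,k1])], [(true,k5,[k5,k4,k3,k2,k1,k0]),(false,k0,[k0,k1,k2,k3,k4,k5])],
    [(true,k4,[k4,k3,k2,k1,k0,k5]),(false,k0,[k0,k1,k2,k3,k4,k5])], [(true,k3,[k3,k2,k1,k0,k5,k4]),(false,k0,[k0,k1,
    k2,k3,k4,k5])], [(false,k0,[k0,k1,k2,k3,k4,k5]),(true,k3,[k3,k2,k1,k0,k5,k4]),(false,k3,[k3,k4,k5,k0,k1,k2]),
    (true,k0,[k0,k5,k4,k3,k2,k1])], [(false,k0,[k0,k1,k2,k3,k4,k5]),(true,k2,[k2,k1,k0,k5,k4,k3]),(false,k3,[k3,k4,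
    k5,k0,k1,k2])], [(true,k0,[k0,k5,k4,k3,k2,k1]),(false,k0,[k0,k1,k2,k3,k4,k5])], [(false,k5,[k5,k0,k1,k2,k3,k4]),
    (false,k0,[k0,k1,k2,k3,k4,k5]),(false,k4,[k4,k5,k0,k1,k2,k3]),(false,k2,[k2,k3,k4,k5,k0,k1]),(false,k3,[k3,k4,
    k5,k0,k1,k2]),(false,k1,[k1,k2,k3,k4,k5,k0])], [(false,k3,[k3,k4,k5,k0,k1,k2]),(false,k0,[k0,k1,k2,k3,k4,k5]),
    (true,k0,[k0,k5,k4,k3,k2,k1]),(true,k3,[k3,k2,k1,k0,k5,k4])], [(false,k0,[k0,k1,k2,k3,k4,k5])], [], [(false,k0,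
    [k0,k1,k2,k3,k4,k5]),(true,k4,[k4,k3,k2,k1,k0,k5])], [(false,k0,[k0,k1,k2,k3,k4,k5]),(true,k3,[k3,k2,k1,k0,k5,
    k4])], [(false,k3,[k3,k4,k5,k0,k1,k2]),(true,k3,[k3,k2,k1,k0,k5,k4]),(true,k0,[k0,k5,k4,k3,k2,k1]),(false,k0,
    [k0,k1,k2,k3,k4,k5])], [(false,k3,[k3,k4,k5,k0,k1,k2]),(false,k0,[k0,k1,k2,k3,k4,k5])], [(false,k3,[k3,k4,k5,k0,
    k1,k2]),(false,k0,[k0,k1,k2,k3,k4,k5]),(true,k2,[k2,k1,k0,k5,k4,k3]),(true,k5,[k5,k4,k3,k2,k1,k0])], [(false,k0,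
    [k0,k1,k2,k3,k4,k5]),(true,k1,[k1,k0,k5,k4,k3,k2]),(false,k1,[k1,k2,k3,k4,k5,k0]),(true,k0,[k0,k5,k4,k3,k2,k1]),
    (true,k5,[k5,k4,k3,k2,k1,k0]),(false,k5,[k5,k0,k1,k2,k3,k4]),(false,k3,[k3,k4,k5,k0,k1,k2]),(false,k2,[k2,k3,k4,
    k5,k0,k1]),(false,k4,[k4,k5,k0,k1,k2,k3])], [(false,k0,[k0,k1,k2,k3,k4,k5]),(true,k2,[k2,k1,k0,k5,k4,k3])],
    [(false,k0,[k0,k1,k2,k3,k4,k5]),(true,k5,[k5,k4,k3,k2,k1,k0])], [(false,k0,[k0,k1,k2,k3,k4,k5]),(false,k3,[k3,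
    k4,k5,k0,k1,k2]),(true,k3,[k3,k2,k1,k0,k5,k4]),(true,k0,[k0,k5,k4,k3,k2,k1])], [(false,k0,[k0,k1,k2,k3,k4,k5]),
    (false,k3,[k3,k4,k5,k0,k1,k2])], [(false,k0,[k0,k1,k2,k3,k4,k5]),(false,k3,[k3,k4,k5,k0,k1,k2]),(true,k2,[k2,k1,
    k0,k5,k4,k3])], [(false,k0,[k0,k1,k2,k3,k4,k5]),(true,k2,[k2,k1,k0,k5,k4,k3]),(false,k3,[k3,k4,k5,k0,k1,k2]),
    (true,k5,[k5,k4,k3,k2,k1,k0])], [(true,k2,[k2,k1,k0,k5,k4,k3]),(false,k0,[k0,k1,k2,k3,k4,k5]),(false,k3,[k3,k4,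
    k5,k0,k1,k2])], [(true,k2,[k2,k1,k0,k5,k4,k3]),(false,k0,[k0,k1,k2,k3,k4,k5])], [(false,k0,[k0,k1,k2,k3,k4,k5]),
    (false,k3,[k3,k4,k5,k0,k1,k2]),(true,k5,[k5,k4,k3,k2,k1,k0]),(true,k2,[k2,k1,k0,k5,k4,k3])], [(true,k2,[k2,k1,
    k0,k5,k4,k3]),(false,k0,[k0,k1,k2,k3,k4,k5]),(false,k3,[k3,k4,k5,k0,k1,k2]),(true,k5,[k5,k4,k3,k2,k1,k0])],
    [(false,k3,[k3,k4,k5,k0,k1,k2]),(false,k0,[k0,k1,k2,k3,k4,k5]),(true,k2,[k2,k1,k0,k5,k4,k3])], [(false,k3,[k3,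
    k4,k5,k0,k1,k2]),(true,k5,[k5,k4,k3,k2,k1,k0]),(true,k2,[k2,k1,k0,k5,k4,k3]),(false,k0,[k0,k1,k2,k3,k4,k5])],
    [(false,k0,[k0,k1,k2,k3,k4,k5]),(false,k3,[k3,k4,k5,k0,k1,k2]),(true,k5,[k5,k4,k3,k2,k1,k0])], [(false,k0,[k0,
    k1,k2,k3,k4,k5]),(false,k4,[k4,k5,k0,k1,k2,k3])], [(false,k5,[k5,k0,k1,k2,k3,k4]),(false,k0,[k0,k1,k2,k3,k4,
    k5]),(false,k3,[k3,k4,k5,k0,k1,k2]),(false,k2,[k2,k3,k4,k5,k0,k1]),(false,k1,[k1,k2,k3,k4,k5,k0]),(false,k4,[k4,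
    k5,k0,k1,k2,k3])], [(false,k0,[k0,k1,k2,k3,k4,k5]),(false,k4,[k4,k5,k0,k1,k2,k3]),(false,k2,[k2,k3,k4,k5,k0,
    k1])], [(false,k0,[k0,k1,k2,k3,k4,k5]),(false,k2,[k2,k3,k4,k5,k0,k1]),(false,k1,[k1,k2,k3,k4,k5,k0])], [(false,
    k0,[k0,k1,k2,k3,k4,k5]),(true,k1,[k1,k0,k5,k4,k3,k2])], [(true,k1,[k1,k0,k5,k4,k3,k2]),(false,k0,[k0,k1,k2,k3,
    k4,k5])], [(false,k1,[k1,k2,k3,k4,k5,k0]),(false,k0,[k0,k1,k2,k3,k4,k5]),(false,k2,[k2,k3,k4,k5,k0,k1])],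
    [(false,k2,[k2,k3,k4,k5,k0,k1]),(false,k0,[k0,k1,k2,k3,k4,k5]),(false,k1,[k1,k2,k3,k4,k5,k0])]]

/-- table of nodes in the old format -/
noncomputable def lf6 : List (List (QN PN)) :=
  [[.old [([z1,z0,z1,z1,z0,z1],z2)] (.z (.x (.old (.leafM k5 [k0,k2,k3,k5] [] [(k1,k4,z1,[y1,z1]),(k4,k1,z1,[y1,
    z1])])))), .old [([z1,z0,z1,z1,z1,z0],z2)] (.z (.x (.old (.leafM k3 [k2,k3,k4,k0] [] [(k5,k1,z1,[y1,z1]),(k1,k5,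
    z1,[y1,z1])])))), .old [([z1,z0,z0,z1,z0,z0],z2)] (.z (.x (.old (.leafM k6 [k1,k2,k4,k5] [] [(k3,k0,z1,[z1]),
    (k0,k3,z1,[z1])])))), .old [([z1,z0,z1,z0,z1,z0],z2)] (.z (.x (.old (.leafM k1 [k0,k1,k2,k3,k4,k5] [(z1,[y1,
    z1]),(z1,[z1])] [])))), .old [([z1,z1,z0,z0,z0,z1],z2)] (.z (.x (.old (.leafM k6 [k2,k3,k4,k5,k0,k1] [(z1,[z1])]
    [])))), .old [([z1,z0,z0,y1,z0,z0],z0),([z0,z1,z0,z1,z1,z0],z2)] (.z (.x (.old (.tor k0 false k0 [(z1,[y1,y1,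
    z1]),(z1,[z0,z1]),(z1,[z0,y1,z1]),(z1,[z1,z1])])))), .old [([z1,z0,z1,z0,z1,z0],z2)] (.z (.x (.old (.leafM k5
    [k0,k1,k2,k3,k4,k5] [(z1,[y1,z1]),(z1,[z1])] [])))), .old [([z1,z0,z0,z0,z1,z0],z2)] (.z (.x (.old (.leafM k3
    [k1,k2,k3,k5] [] [(k4,k0,z1,[z1]),(k0,k4,z1,[z1])])))), .old [([z1,z0,z0,z1,z0,z0],z2)] (.z (.x (.old (.leafM k5
    [k1,k2,k4,k5] [] [(k3,k0,z1,[z1]),(k0,k3,z1,[z1])])))), .old [([z1,z1,z0,z0,z1,z1],z2),([z0,z0,z1,z0,y1,z0],z0)]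
    (.z (.x (.old (.tor k3 false k5 [(z1,[y1,y1,z1]),(z1,[y1,z0,z1]),(z1,[z1]),(z1,[z1,z1])])))), .old [([z1,z0,z0,
    z1,z1,z0],z2),([z0,z1,z0,y1,z0,z1],z0)] (.z (.x (.old (.tor k1 false k3 [(z1,[y1,z0,z1]),(z1,[z1,z1]),(z1,[y1,
    y1,z1]),(z1,[z1])])))), .old [([z3,z0,z0,z0,z0,z0],z1),([z0,z1,z0,z0,z0,z1],z1),([z0,z0,z1,z0,z1,z0],z2)] (.z
    (.x (.old (.leafM k11 [k1,k3,k5,k0] [(z1,[y1,y3,y3,z3]),(z1,[z1]),(z1,[z0,z1])] [(k2,k4,z1,[z0,z0,z1]),(k4,k2,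
    z1,[z0,z0,z1])])))), .old [([z3,z0,z0,z0,z0,z0],z2),([z0,z1,z0,z0,z0,z1],z1),([z0,z0,z1,z0,z1,z0],z2)] (.z (.x
    (.old (.leafM k11 [k5,k0,k1,k3] [(z1,[z1]),(z1,[y1,y3,y3,z3]),(z1,[z0,z1])] [(k2,k4,z1,[z0,z0,z1]),(k4,k2,z1,
    [z0,z0,z1])])))), .old [([z3,z0,z0,z0,z0,z0],z2),([z0,z3,z0,z0,z0,z3],z2),([z0,z0,z1,z0,z1,z0],z2)] (.z (.x
    (.old (.leafM k10 [k1,k3,k5,k0] [(z1,[y1,y1,y3,z3]),(z1,[z1]),(z1,[z0,z1])] [(k2,k4,z1,[z0,z0,z1]),(k4,k2,z1,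
    [z0,z0,z1])])))), .old [([z2,z0,z0,z0,z0,z0],z1),([z0,z1,z0,z0,z0,z1],z1),([z0,z0,z1,z0,z1,z0],z2)] (.z (.x
    (.old (.leafM k12 [k1,k3,k5,k0] [(z1,[y1,y2,y2,z2]),(z1,[z1]),(z1,[z0,z1])] [(k2,k4,z1,[z0,z0,z1]),(k4,k2,z1,
    [z0,z0,z1])])))), .old [([z1,z0,z0,z1,z1,z0],z2),([z0,z1,z0,z0,z1,z1],z2)] (.z (.x (.old (.tor k21 false k0
    [(z1,[z0,z1]),(z1,[y1,z0,z1]),(z1,[z1]),(z1,[z0,y1,z1])]))))], [.old [([z1,z0,z0,z1,z1,z1],z2)] (.z (.x (.old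
    (.leafM k0 [k0,k3,k4,k5] [] [(k1,k2,z1,[y1,z1]),(k2,k1,z1,[y1,z1])])))), .old [([z1,z1,z0,z0,z1,z1],z2)] (.z (.x
    (.old (.leafM k0 [k0,k1,k4,k5] [] [(k2,k3,z1,[y1,z1]),(k3,k2,z1,[y1,z1])])))), .old [([z1,z0,z1,z1,z0,z1],z2)]
    (.z (.x (.old (.leafM k6 [k0,k2,k3,k5] [] [(k1,k4,z1,[y1,z1]),(k4,k1,z1,[y1,z1])])))), .old [([z1,z0,z0,z0,z0,
    z1],z2)] (.z (.x (.old (.leafM k0 [k1,k2,k3,k4] [] [(k5,k0,z1,[z1]),(k0,k5,z1,[z1])])))), .old [([z1,z0,z0,z0,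
    z1,z1],z2)] (.z (.x (.old (.leafM k0 [k0,k1,k2,k3,k4,k5] [(z1,[y1,z1])] [])))), .old [([z1,z0,z0,z0,y2,z1],z0),
    ([z0,z1,z0,z0,y1,z0],z0),([z0,z0,z1,z0,z2,z0],z2)] (.z (.x (.old (.tor k6 false k0 [(z1,[y1,y1,y1,z1]),(z1,[z0,
    z2,z1]),(z1,[z0,y1,y1,z1]),(z1,[z1,z0,z1])])))), .old [([z1,z0,z0,z0,y1,z1],z0),([z0,z2,z0,z0,z1,z0],z2),([z0,
    z0,z1,z0,z1,z0],z2)] (.z (.x (.old (.tor k4 false k0 [(z1,[y2,y1,y2,z2]),(z1,[z0,z0,z1]),(z1,[z1,z0,z1]),(z1,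
    [z1,z1])])))), .old [([z1,z0,z1,z1,z1,z0],z2)] (.z (.x (.old (.leafM k1 [k2,k3,k4,k0] [] [(k5,k1,z1,[y1,z1]),
    (k1,k5,z1,[y1,z1])])))), .old [([z1,z1,z0,z1,z1,z0],z2)] (.z (.x (.old (.leafM k2 [k0,k1,k3,k4] [] [(k2,k5,z1,
    [y1,z1]),(k5,k2,z1,[y1,z1])])))), .old [([z1,z0,z0,z0,z1,z0],z2)] (.z (.x (.old (.leafM k1 [k1,k2,k3,k5] []
    [(k4,k0,z1,[z1]),(k0,k4,z1,[z1])])))), .old [([z1,z0,z0,z1,z1,z0],z2)] (.z (.x (.old (.leafM k3 [k4,k5,k0,k1,k2,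
    k3] [(z1,[y1,z1])] [])))), .old [([z1,z0,z1,z0,z1,z0],z2)] (.z (.x (.old (.leafM k5 [k2,k3,k4,k5,k0,k1] [(z1,
    [y1,z1]),(z1,[z1])] [])))), .old [([z3,z0,z0,z0,z3,z0],z2),([z0,z1,z0,z1,z0,z0],z2),([z0,z0,z3,z0,z0,z0],z2)]
    (.z (.x (.old (.leafM k10 [k0,k2,k4,k5] [(z1,[z0,z0,z1]),(z1,[y1,y3,y1,z3]),(z1,[z1])] [(k1,k3,z1,[z0,z1]),(k3,
    k1,z1,[z0,z1])])))), .old [([z1,z0,z0,z0,z1,z0],z1),([z0,z1,z0,z1,z0,z0],z2),([z0,z0,z3,z0,z0,z0],z2)] (.z (.x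
    (.old (.leafM k11 [k0,k2,k4,k5] [(z1,[z0,z0,z1]),(z1,[y3,y3,y1,z3]),(z1,[z1])] [(k1,k3,z1,[z0,z1]),(k3,k1,z1,
    [z0,z1])])))), .old [([z1,z0,z0,z0,z1,z0],z1),([z0,z1,z0,z1,z0,z0],z2),([z0,z0,z3,z0,z0,z0],z1)] (.z (.x (.old
    (.leafM k11 [k4,k5,k0,k2] [(z1,[y3,y3,y1,z3]),(z1,[z0,z0,z1]),(z1,[z1])] [(k1,k3,z1,[z0,z1]),(k3,k1,z1,[z0,
    z1])])))), .old [([z1,z0,z0,z0,z1,z0],z1),([z0,z1,z0,z1,z0,z0],z2),([z0,z0,z2,z0,z0,z0],z1)] (.z (.x (.old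
    (.leafM k12 [k0,k2,k4,k5] [(z1,[z0,z0,z1]),(z1,[y2,y2,y1,z2]),(z1,[z1])] [(k1,k3,z1,[z0,z1]),(k3,k1,z1,[z0,
    z1])]))))], [.old [([z1,z1,z1,z1,z0,z0],z2)] (.z (.x (.old (.leafM k0 [k0,k1,k2,k3] [] [(k4,k5,z1,[y1,z1]),(k5,
    k4,z1,[y1,z1])])))), .old [([z1,z0,z1,z1,z0,z0],z2)] (.z (.x (.old (.leafM k3 [k5,k0,k1,k2,k3,k4] [(z1,[z1])]
    [])))), .old [([z1,z0,z0,z1,z0,z0],z2)] (.z (.x (.old (.leafM k2 [k1,k2,k4,k5] [] [(k3,k0,z1,[z1]),(k0,k3,z1,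
    [z1])])))), .old [([z1,z1,z0,z0,z0,z1],z2)] (.z (.x (.old (.leafM k0 [k1,k2,k3,k4,k5,k0] [(z1,[y1,z1])] [])))),
    .old [([z1,z0,z1,z1,z0,z1],z2)] (.z (.x (.old (.leafM k2 [k2,k3,k5,k0] [] [(k4,k1,z1,[y1,z1]),(k1,k4,z1,[y1,
    z1])])))), .old [([z1,z0,z0,z1,z0,z1],z2)] (.z (.x (.old (.leafM k3 [k2,k3,k4,k5,k0,k1] [(z1,[z1])] [])))), .old
    [([z1,z0,z1,z0,z0,z0],z2)] (.z (.x (.old (.leafM k1 [k3,k4,k5,k1] [] [(k0,k2,z1,[z1]),(k2,k0,z1,[z1])])))), .old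
    [([z1,z1,z1,z0,z0,z0],z2)] (.z (.x (.old (.leafM k0 [k2,k3,k4,k5,k0,k1] [(z1,[y1,z1])] [])))), .old [([z1,z0,z1,
    z0,z0,z1],z2)] (.z (.x (.old (.leafM k3 [k0,k1,k2,k3,k4,k5] [(z1,[y1,z1])] [])))), .old [([z3,z0,z0,z0,z0,z0],
    z1),([z0,z1,z0,z0,z0,z1],z2),([z0,z0,z1,z0,z1,z0],z1)] (.z (.x (.old (.leafM k11 [k2,k3,k4,k0] [(z1,[y1,y3,y3,
    z3]),(z1,[z1]),(z1,[z0,z0,z1])] [(k5,k1,z1,[z0,z1]),(k1,k5,z1,[z0,z1])])))), .old [([z1,z1,z0,z1,z1,z0],z2)] (.z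
    (.x (.old (.leafM k6 [k0,k1,k3,k4] [] [(k2,k5,z1,[y1,z1]),(k5,k2,z1,[y1,z1])])))), .old [([z1,z0,z0,z1,z0,z0],
    z1),([z0,z1,z0,z0,z1,z0],z1)] (.z (.x (.old (.leafM k7 [k0,k1,k3,k4] [(z1,[z0,z1])] [(k2,k5,z1,[y1,y1,z1]),(k5,
    k2,z1,[y1,y1,z1])])))), .old [([z1,z0,z0,z1,z0,z0],z2),([z0,z1,z0,z0,z1,z0],z1)] (.z (.x (.old (.leafM k7 [k1,
    k2,k4,k5] [(z1,[y1,y1,z1])] [(k3,k0,z1,[z1]),(k0,k3,z1,[z1])])))), .old [([z1,z0,z0,z0,y2,z0],y2),([z0,z1,z0,z0,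
    z1,z1],z2),([z0,z0,z1,z0,z1,z0],z2)] (.z (.x (.old (.tor k15 false k0 [(z1,[z0,z0,z1]),(z1,[z0,z1]),(z1,[y1,y2,
    y2,z2]),(z1,[z1,z1,z1])])))), .old [([z3,z0,z0,z0,z0,z0],z2),([z0,z1,z0,z0,z0,z1],z2),([z0,z0,z3,z0,z3,z0],z2)]
    (.z (.x (.old (.leafM k10 [k2,k3,k4,k0] [(z1,[y1,y3,y1,z3]),(z1,[z1]),(z1,[z0,z0,z1])] [(k5,k1,z1,[z0,z1]),(k1,
    k5,z1,[z0,z1])])))), .old [([z3,z0,z0,z0,z0,z0],z2),([z0,z1,z0,z0,z0,z1],z2),([z0,z0,z1,z0,z1,z0],z1)] (.z (.x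
    (.old (.leafM k11 [k4,k0,k2,k3] [(z1,[z1]),(z1,[y1,y3,y3,z3]),(z1,[z0,z0,z1])] [(k5,k1,z1,[z0,z1]),(k1,k5,z1,
    [z0,z1])]))))], [.old [([z2,z0,z0,z0,z0,z0],z1),([z0,z1,z0,z0,z0,z1],z2),([z0,z0,z1,z0,z1,z0],z1)] (.z (.x (.old
    (.leafM k12 [k2,k3,k4,k0] [(z1,[y1,y2,y2,z2]),(z1,[z1]),(z1,[z0,z0,z1])] [(k5,k1,z1,[z0,z1]),(k1,k5,z1,[z0,
    z1])])))), .old [([z3,z0,z0,z0,z0,z0],z2),([z0,z1,z0,z1,z0,z1],z2),([z0,z0,z3,z0,z0,z0],z2)] (.z (.x (.old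
    (.leafM k2 [k1,k2,k3,k4,k5,k0] [(z1,[z0,z0,z1]),(z1,[y1,y3,y1,z3]),(z1,[z1])] [])))), .old [([z1,z0,z0,z1,z0,
    z0],z2)] (.z (.x (.old (.leafM k6 [k2,k4,k5,k1] [] [(k3,k0,z1,[z1]),(k0,k3,z1,[z1])])))), .old [([z1,z0,z0,z0,
    z1,z0],z2),([z0,z3,z0,z3,z0,z0],z2),([z0,z0,z3,z0,z0,z0],z2)] (.z (.x (.old (.leafM k10 [k1,k2,k3,k5] [(z1,[z0,
    z0,z1]),(z1,[y3,y1,y1,z3]),(z1,[z0,z1])] [(k4,k0,z1,[z1]),(k0,k4,z1,[z1])])))), .old [([z1,z0,z0,z0,z1,z0],z2),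
    ([z0,z1,z0,z1,z0,z0],z1),([z0,z0,z3,z0,z0,z0],z2)] (.z (.x (.old (.leafM k11 [k1,k2,k3,k5] [(z1,[z0,z0,z1]),(z1,
    [y3,y3,y1,z3]),(z1,[z0,z1])] [(k4,k0,z1,[z1]),(k0,k4,z1,[z1])])))), .old [([z1,z0,z0,z0,z1,z0],z2),([z0,z1,z0,
    z1,z0,z0],z1),([z0,z0,z3,z0,z0,z0],z1)] (.z (.x (.old (.leafM k11 [k3,k5,k1,k2] [(z1,[y3,y3,y1,z3]),(z1,[z0,z0,
    z1]),(z1,[z0,z1])] [(k4,k0,z1,[z1]),(k0,k4,z1,[z1])])))), .old [([z1,z0,z0,z0,z1,z0],z2),([z0,z1,z0,z1,z0,z0],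
    z1),([z0,z0,z2,z0,z0,z0],z1)] (.z (.x (.old (.leafM k12 [k1,k2,k3,k5] [(z1,[z0,z0,z1]),(z1,[y2,y2,y1,z2]),(z1,
    [z0,z1])] [(k4,k0,z1,[z1]),(k0,k4,z1,[z1])])))), .old [([z1,z0,z0,z0,z0,z1],z2),([z0,z1,z0,z1,z0,y1],z0)] (.z
    (.x (.old (.tor k1 false k0 [(z1,[y1,y1,z1]),(z1,[y1,z0,z1]),(z1,[z1]),(z1,[z1,z1])])))), .old [([z1,z0,z0,z1,
    z0,z0],z1),([z0,z1,z0,z0,z1,z0],z2)] (.z (.x (.old (.leafM k7 [k0,k2,k3,k5] [(z1,[y1,y1,z1])] [(k1,k4,z1,[z0,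
    z1]),(k4,k1,z1,[z0,z1])])))), .old [([z1,z1,z0,z1,z0,z1],z2)] (.z (.x (.old (.leafM k3 [k1,k3,k5,k0] [] [(k2,k4,
    z1,[y1,z1]),(k4,k2,z1,[y1,z1])])))), .old [([z1,z0,z1,z0,y1,z0],z0),([z0,z1,z0,z0,z1,z1],z2)] (.z (.x (.old
    (.tor k1 false k2 [(z1,[z0,y1,z1]),(z1,[z1,z1]),(z1,[y1,y1,z1]),(z1,[z0,z1])])))), .old [([z1,z0,z0,z0,z1,z1],
    z2)] (.z (.x (.old (.leafM k6 [k1,k2,k3,k4,k5,k0] [(z1,[z1])] [])))), .old [([z1,z0,z1,z0,z0,z0],z2)] (.z (.x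
    (.old (.leafM k3 [k3,k4,k5,k1] [] [(k0,k2,z1,[z1]),(k2,k0,z1,[z1])])))), .old [([z1,z0,z1,z0,z1,z1],z2)] (.z (.x
    (.old (.leafM k3 [k0,k2,k4,k5] [] [(k1,k3,z1,[y1,z1]),(k3,k1,z1,[y1,z1])])))), .old [([z1,z0,z0,z1,z0,z1],z2),
    ([z0,z1,z0,z0,z1,z1],z2)] (.z (.x (.old (.tor k2 false k0 [(z1,[z0,z1]),(z1,[y1,z0,z1]),(z1,[z1]),(z1,[z0,y1,
    z1])])))), .old [([z3,z0,z0,z0,z0,z3],z2),([z0,z3,z0,z0,z0,z0],z2),([z0,z0,z3,z0,z0,z0],z2),([z0,z0,z0,z3,z0,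
    z0],z4)] (.z (.x (.geo false z3 k5 [(z2,y3),(z2,z0),(z2,z0),(z4,z0),(z2,z0),(z0,z3)] [(z1,[z1]),(z1,[z0,z1]),
    (z1,[z0,z0,z1]),(z1,[z0,z0,z0,z1]),(z1,[y1,y1,y1,y1,z3]),(z1,[])] z0 (Int.ofNat (nat_lit 2097152)) (.s (.l k1)
    (.l k1)) [])))], [.old [([z3,z0,z0,z0,z0,z3],z2),([z0,z3,z0,z0,z0,z0],z2),([z0,z0,z3,z0,z0,z0],z2),([z0,z0,z0,
    z3,z0,z0],z2)] (.z (.x (.geo false z3 k5 [(z2,y3),(z2,z0),(z2,z0),(z2,z0),(z4,z0),(z0,z3)] [(z1,[z1]),(z1,[z0,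
    z1]),(z1,[z0,z0,z1]),(z1,[z0,z0,z0,z1]),(z1,[y1,y1,y1,y1,z3]),(z1,[])] z0 (Int.ofNat (nat_lit 2097152)) (.s (.s
    (.l k1) (.l k1)) (.l k1)) []))), .old [([z1,z0,z0,z0,z1,z1],z2),([z0,z1,z0,z0,y1,z0],z0),([z0,z0,z2,z0,z1,z0],
    z2)] (.z (.x (.old (.tor k26 false k0 [(z1,[z0,z0,z1]),(z1,[y2,y1,y1,z2]),(z1,[z1]),(z1,[z1,z1])])))), .old
    [([z3,z0,z0,z0,z3,z0],z2),([z0,z3,z0,z0,z0,z0],z2),([z0,z0,z3,z0,z0,z0],z2),([z0,z0,z0,z3,z0,z0],z2)] (.z (.x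
    (.old (.tor k18 false k0 [(z3,[y1,y1,y1,z0,z3]),(z3,[y1,z0,y1,y1,z3]),(z3,[z0,z2,z0,z1]),(z3,[z1,z0,z2]),(z3,
    [z2,z0,z1])])))), .old [([z1,z0,z0,z0,z1,z0],z1),([z0,z2,z0,z0,z0,z0],z1),([z0,z0,z2,z0,z0,z0],z1),([z0,z0,z0,
    z2,z0,z0],z1)] (.z (.x (.geo false z2 k4 [(z2,y2),(z1,z0),(z1,z0),(z1,z0),(z0,z2),(z3,z0)] [(z1,[z2]),(z1,[z0,
    z1]),(z1,[z0,z0,z1]),(z1,[z0,z0,z0,z1]),(z1,[]),(z1,[y2,y1,y1,y1,z2])] z0 (Int.ofNat (nat_lit 2097152)) (.s (.s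
    (.l k1) (.l k1)) (.s (.l k1) (.l k1))) []))), .old [([z1,z0,z0,z0,z1,z0],z1),([z0,z3,z0,z0,z0,z0],z1),([z0,z0,
    z3,z0,z0,z0],z2),([z0,z0,z0,z3,z0,z0],z1)] (.z (.x (.geo false z3 k4 [(z3,y3),(z1,z0),(z2,z0),(z1,z0),(z0,z3),
    (z5,z0)] [(z1,[z3]),(z1,[z0,z1]),(z1,[z0,z0,z1]),(z1,[z0,z0,z0,z1]),(z1,[]),(z1,[y3,y1,y1,y1,z3])] z0 (Int.ofNat
    (nat_lit 2097152)) (.s (.s (.l k1) (.l k1)) (.s (.l k1) (.l k1))) []))), .old [([z1,z0,z1,z0,z1,z0],z2),([z0,z3,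
    z0,z0,z0,z0],z2),([z0,z0,z0,z3,z0,z0],z2)] (.z (.x (.old (.leafM k2 [k0,k1,k2,k3,k4,k5] [(z1,[z0,z1]),(z1,[z0,
    z0,z1]),(z1,[y3,y1,y1,z3])] [])))), .old [([z2,z0,z0,z0,z2,z1],z2),([z0,z2,z0,z0,z0,y1],z2),([z0,z0,z2,z0,z0,
    z1],z2)] (.z (.x (.old (.tor k22 false k0 [(z1,[z0,z0,z1]),(z2,[y1,z0,y1,z2]),(z2,[z0,y1,y1,z2]),(z2,[z1,
    z1])])))), .old [([z1,z0,z0,z0,z0,z1],z1),([z0,z3,z0,z0,z0,z0],z1),([z0,z0,z3,z0,z0,z0],z2),([z0,z0,z0,z1,z0,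
    y1],z0)] (.z (.x (.geo false z3 k5 [(z3,y3),(z1,z0),(z2,z0),(z0,z3),(z6,y3),(z0,z3)] [(z1,[z3]),(z1,[z0,z1]),
    (z1,[z0,z0,z1]),(z1,[z0,z0,z0,z3]),(z1,[y3,y1,y1,y3,z3]),(z1,[])] z0 (Int.ofNat (nat_lit 2097152)) (.s (.s (.s
    (.l k1) (.l k1)) (.l k1)) (.l k1)) []))), .old [([z1,z0,z0,z0,z0,z1],z1),([z0,z3,z0,z0,z0,z0],z2),([z0,z0,z3,z0,
    z0,z0],z1),([z0,z0,z0,z1,z0,y1],z0)] (.z (.x (.geo false z3 k5 [(z3,y3),(z2,z0),(z1,z0),(z0,z3),(z6,y3),(z0,z3)]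
    [(z1,[z3]),(z1,[z0,z1]),(z1,[z0,z0,z1]),(z1,[z0,z0,z0,z3]),(z1,[y3,y1,y1,y3,z3]),(z1,[])] z0 (Int.ofNat (nat_lit
    2097152)) (.s (.s (.l k1) (.l k1)) (.l k1)) []))), .old [([z1,z0,z0,z0,z0,z1],z1),([z0,z2,z0,z0,z0,z0],z1),([z0,
    z0,z2,z0,z0,z0],z1),([z0,z0,z0,z1,z0,y1],z0)] (.z (.x (.geo false z2 k5 [(z2,y2),(z1,z0),(z1,z0),(z0,z2),(z4,
    y2),(z0,z2)] [(z1,[z2]),(z1,[z0,z1]),(z1,[z0,z0,z1]),(z1,[z0,z0,z0,z2]),(z1,[y2,y1,y1,y2,z2]),(z1,[])] z0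
    (Int.ofNat (nat_lit 2097152)) (.s (.s (.s (.l k1) (.l k1)) (.l k1)) (.l k1)) []))), .old [([z3,z0,z0,z0,z0,z3],
    z2),([z0,z3,z0,z0,z0,z0],z2),([z0,z0,z3,z0,z0,z0],z2),([z0,z0,z0,z1,z0,y1],z0)] (.z (.x (.geo false z3 k5 [(z2,
    y3),(z2,z0),(z2,z0),(z0,z3),(z6,y3),(z0,z3)] [(z1,[z1]),(z1,[z0,z1]),(z1,[z0,z0,z1]),(z1,[z0,z0,z0,z3]),(z1,[y1,
    y1,y1,y3,z3]),(z1,[])] z0 (Int.ofNat (nat_lit 2097152)) (.s (.s (.l k1) (.l k1)) (.l k1)) []))), .old [([z3,z0,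
    z0,z0,z0,z3],z4),([z0,z3,z0,z0,z0,z0],z1),([z0,z0,z3,z0,z0,z0],z2),([z0,z0,z0,z3,z0,y3],y1)] (.z (.x (.geo false
    z3 k5 [(z4,y3),(z1,z0),(z2,z0),(y1,z3),(z6,y3),(z0,z3)] [(z1,[z1]),(z1,[z0,z1]),(z1,[z0,z0,z1]),(z1,[z0,z0,z0,
    z1]),(z1,[y1,y1,y1,y1,z3]),(z1,[])] z0 (Int.ofNat (nat_lit 2097152)) (.s (.s (.l k1) (.l k1)) (.l k1)) []))),
    .old [([z1,z0,z0,z0,y2,y1],y2),([z0,z1,z0,z0,z1,z1],z2),([z0,z0,z1,z0,z1,z1],z2)] (.z (.x (.old (.tor k27 false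
    k0 [(z1,[y1,y1,y1,z1]),(z1,[z0,z0,z1]),(z1,[z0,y1,z0,z1]),(z1,[z1,z2])])))), .old [([z3,z0,z0,z3,z0,z0],z2),
    ([z0,z3,z0,z0,z0,z0],z2),([z0,z0,z3,z0,z0,z0],z2),([z0,z0,z0,z0,z3,z0],z2)] (.z (.x (.geo false z3 k3 [(z2,y3),
    (z2,z0),(z2,z0),(z0,z3),(z2,z0),(z4,z0)] [(z1,[z1]),(z1,[z0,z1]),(z1,[z0,z0,z1]),(z1,[]),(z1,[z0,z0,z0,z1]),(z1,
    [y1,y1,y1,y1,z3])] z0 (Int.ofNat (nat_lit 2097152)) (.s (.s (.l k1) (.l k1)) (.l k1)) []))), .old [([z1,z0,z0,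
    z1,z0,y2],z0),([z0,z1,z0,z0,z0,y1],z0),([z0,z0,z1,z0,z0,z2],z2)] (.z (.x (.old (.tor k23 false k0 [(z1,[z0,z0,
    z1]),(z1,[y1,z1,y1,z1]),(z1,[z0,y1,y1,z1]),(z1,[z1,z0,z1])])))), .old [([z3,z0,z3,z0,z0,z0],z2),([z0,z3,z0,z0,
    z0,z0],z2),([z0,z0,z0,z1,z0,z1],z2)] (.z (.x (.old (.leafM k10 [k0,k1,k2,k4] [(z1,[z0,z1]),(z1,[y1,y1,y3,z3]),
    (z1,[z1])] [(k3,k5,z1,[z0,z0,z1]),(k5,k3,z1,[z0,z0,z1])]))))], [.old [([z1,z0,z1,z0,z0,z0],z1),([z0,z3,z0,z0,z0,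
    z0],z2),([z0,z0,z0,z1,z0,z1],z2)] (.z (.x (.old (.leafM k11 [k0,k1,k2,k4] [(z1,[z0,z1]),(z1,[y3,y1,y3,z3]),(z1,
    [z1])] [(k3,k5,z1,[z0,z0,z1]),(k5,k3,z1,[z0,z0,z1])])))), .old [([z1,z0,z1,z0,z0,z0],z1),([z0,z3,z0,z0,z0,z0],
    z1),([z0,z0,z0,z1,z0,z1],z2)] (.z (.x (.old (.leafM k11 [k2,k4,k0,k1] [(z1,[y3,y1,y3,z3]),(z1,[z0,z1]),(z1,
    [z1])] [(k3,k5,z1,[z0,z0,z1]),(k5,k3,z1,[z0,z0,z1])])))), .old [([z1,z0,z1,z0,z0,z0],z1),([z0,z2,z0,z0,z0,z0],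
    z1),([z0,z0,z0,z1,z0,z1],z2)] (.z (.x (.old (.leafM k12 [k0,k1,k2,k4] [(z1,[z0,z1]),(z1,[y2,y1,y2,z2]),(z1,
    [z1])] [(k3,k5,z1,[z0,z0,z1]),(k5,k3,z1,[z0,z0,z1])])))), .old [([z1,z0,z1,z0,z0,z0],z2),([z0,z3,z0,z0,z0,z0],
    z1),([z0,z0,z0,z1,z0,z1],z1)] (.z (.x (.old (.leafM k11 [k3,k4,k5,k1] [(z1,[y3,y1,y3,z3]),(z1,[z0,z1]),(z1,[z0,
    z0,z1])] [(k0,k2,z1,[z1]),(k2,k0,z1,[z1])])))), .old [([z1,z0,z1,z0,z0,z0],z2),([z0,z3,z0,z0,z0,z0],z2),([z0,z0,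
    z0,z3,z0,z3],z2)] (.z (.x (.old (.leafM k10 [k3,k4,k5,k1] [(z1,[y3,y1,y1,z3]),(z1,[z0,z1]),(z1,[z0,z0,z1])]
    [(k0,k2,z1,[z1]),(k2,k0,z1,[z1])])))), .old [([z1,z0,z1,z0,z0,z0],z2),([z0,z2,z0,z0,z0,z0],z1),([z0,z0,z0,z1,z0,
    z1],z1)] (.z (.x (.old (.leafM k12 [k3,k4,k5,k1] [(z1,[y2,y1,y2,z2]),(z1,[z0,z1]),(z1,[z0,z0,z1])] [(k0,k2,z1,
    [z1]),(k2,k0,z1,[z1])])))), .old [([z1,z0,z1,z0,z0,z0],z2),([z0,z3,z0,z0,z0,z0],z2),([z0,z0,z0,z1,z0,z1],z1)]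
    (.z (.x (.old (.leafM k11 [k5,k1,k3,k4] [(z1,[z0,z1]),(z1,[y3,y1,y3,z3]),(z1,[z0,z0,z1])] [(k0,k2,z1,[z1]),(k2,
    k0,z1,[z1])])))), .old [([z1,z0,z0,z0,z0,z1],z1),([z0,z3,z0,z0,z0,z0],z1),([z0,z0,z3,z0,z0,y3],z2),([z0,z0,z0,
    z3,z0,z3],z4)] (.z (.x (.geo false z3 k5 [(z3,y3),(z1,z0),(z2,z3),(z4,y3),(z2,z0),(z0,z3)] [(z1,[z3]),(z1,[z0,
    z1]),(z1,[z0,z0,z1]),(z1,[z0,z0,z0,z1]),(z1,[y3,y1,y1,y1,z3]),(z1,[])] z0 (Int.ofNat (nat_lit 2097152)) (.s (.s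
    (.l k1) (.l k1)) (.s (.l k1) (.l k1))) []))), .old [([z1,z0,z0,z0,z1,z1],z2),([z0,z1,z0,z0,z0,y1],z0),([z0,z0,
    z1,z0,y1,z1],z0)] (.z (.x (.old (.tor k35 false k0 [(z1,[z1]),(z1,[z0,z1]),(z1,[z0,z0,z1]),(z1,[y1,y1,y1,
    z1])])))), .old [([z2,z0,z0,z0,z2,z0],z3),([z0,z2,z0,z0,z0,z0],z1),([z0,z0,z2,z0,y2,z0],z1),([z0,z0,z0,z1,z1,
    z0],z1)] (.z (.x (.geo false z2 k4 [(z3,y2),(z1,z0),(z1,z2),(z2,y2),(z0,z2),(z1,z0)] [(z1,[z1]),(z1,[z0,z1]),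
    (z1,[z0,z0,z1]),(z1,[z0,z0,z0,z2]),(z1,[]),(z1,[y1,y1,y1,y2,z2])] z0 (Int.ofNat (nat_lit 2097152)) (.s (.s (.l
    k1) (.s (.l k1) (.s (.l k1) (.l k2)))) (.s (.s (.s (.l k2) (.l k1)) (.l k1)) (.l k1))) [⟨z1,z1,[[k0,k3],[k1,k5],
    [k2,k4]],.sub k2 k2 [[k2,k3]]⟩]))), .old [([z3,z0,z0,z0,z3,z0],z4),([z0,z3,z0,z0,z0,z0],z2),([z0,z0,z3,z0,y3,
    z0],z2),([z0,z0,z0,z1,z1,z0],z1)] (.z (.x (.geo false z3 k4 [(z4,y3),(z2,z0),(z2,z3),(z3,y3),(z0,z3),(z1,z0)]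
    [(z1,[z1]),(z1,[z0,z1]),(z1,[z0,z0,z1]),(z1,[z0,z0,z0,z3]),(z1,[]),(z1,[y1,y1,y1,y3,z3])] z0 (Int.ofNat (nat_lit
    2097152)) (.s (.s (.l k1) (.s (.l k1) (.l k1))) (.s (.s (.l k1) (.l k1)) (.l k1))) []))), .old [([z3,z0,z0,z0,
    z3,z0],z4),([z0,z3,z0,z0,z0,z0],z2),([z0,z0,z3,z0,y3,z0],z2),([z0,z0,z0,z3,z3,z0],z2)] (.z (.x (.geo false z3 k4
    [(z4,y3),(z2,z0),(z2,z3),(z2,y3),(z0,z3),(z2,z0)] [(z1,[z1]),(z1,[z0,z1]),(z1,[z0,z0,z1]),(z1,[z0,z0,z0,z1]),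
    (z1,[]),(z1,[y1,y1,y1,y1,z3])] z0 (Int.ofNat (nat_lit 2097152)) (.s (.s (.l k1) (.l k1)) (.s (.l k1) (.l k1)))
    []))), .old [([z1,z0,z0,z0,z1,z0],z2),([z0,z1,z0,z0,z0,y1],z0),([z0,z0,z1,z0,y1,z0],z0)] (.z (.x (.old (.tor k24
    false k0 [(z1,[y1,y1,y1,z1]),(z1,[y1,z1,z0,z1]),(z1,[z1]),(z1,[z1,z0,z1])])))), .old [([z1,z0,z0,z0,z1,z0],z2),
    ([z0,z3,z0,z0,z0,z0],z1),([z0,z0,z1,z0,y1,z0],z0),([z0,z0,z0,z1,z1,z0],z1)] (.z (.x (.geo false z3 k4 [(z6,y3),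
    (z1,z0),(z0,z3),(z3,y3),(z0,z3),(z2,z0)] [(z1,[z3]),(z1,[z0,z1]),(z1,[z0,z0,z3]),(z1,[z0,z0,z0,z3]),(z1,[]),(z1,
    [y3,y1,y3,y3,z3])] z0 (Int.ofNat (nat_lit 2097152)) (.s (.s (.s (.s (.l k2) (.l k1)) (.l k1)) (.l k1)) (.s (.l
    k1) (.s (.l k1) (.s (.l k1) (.l k3))))) [⟨z0,z1,[[k0,k5],[k1,k2],[k3,k4]],.sub k1 k2 [[k1,k2]]⟩,⟨z2,z1,[[k0,k5],
    [k1,k2],[k3,k4]],.sub k1 k2 [[k1,k2]]⟩]))), .old [([z1,z0,z0,y1,z0,z0],z0),([z0,z1,z0,z1,z1,z0],z2)] (.z (.x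
    (.old (.tor k2 false k2 [(z1,[y1,y1,z1]),(z1,[z0,y1,z1]),(z1,[z0,z1]),(z1,[z1,z1])])))), .old [([z1,z0,z0,z0,z0,
    z1],z2),([z0,z1,z0,z0,z0,y1],z0)] (.z (.x (.old (.tor k3 false k2 [(z1,[z1,z1]),(z1,[z1]),(z1,[y1,z0,z1]),(z1,
    [y1,y1,z1])]))))], [.old [([z1,z1,z0,z1,z1,z0],z2)] (.z (.x (.old (.leafM k6 [k1,k3,k4,k0] [] [(k2,k5,z1,[y1,
    z1]),(k5,k2,z1,[y1,z1])])))), .old [([z1,z0,z0,z1,z1,z1],z2),([z0,z1,z0,y1,z0,z0],z0)] (.z (.x (.old (.tor k3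
    false k0 [(z1,[y1,y1,z1]),(z1,[y1,z0,z1]),(z1,[z1]),(z1,[z1,z1])])))), .old [([z2,z0,z0,z0,y1,z2],z0),([z0,z1,
    z0,z0,z1,z0],z2),([z0,z0,z1,z0,z1,z0],z2)] (.z (.x (.old (.tor k5 false k0 [(z1,[z0,z0,z1]),(z1,[y1,y2,y1,z2]),
    (z1,[z0,z1]),(z1,[z1,z1])])))), .old [([z1,z0,z0,z0,z0,z1],z1),([z0,z1,z0,z0,z1,z0],z2)] (.z (.x (.old (.leafM
    k4 [k0,k2,k3,k5] [(z1,[y1,y1,z1])] [(k1,k4,z1,[z0,z1]),(k4,k1,z1,[z0,z1])])))), .old [([z2,z0,z0,z1,z0,y2],z0),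
    ([z0,z1,z0,z1,z0,z0],z2),([z0,z0,z2,y1,z0,z0],z0)] (.z (.x (.old (.tor k29 false k0 [(z2,[y1,y2,y1,z2]),(z1,[z0,
    z1]),(z1,[z0,z1,z1]),(z2,[z1,y2,y1,z2])])))), .old [([z2,z0,z0,z0,z1,z0],z2),([z0,z1,z0,z0,z1,z2],z2),([z0,z0,
    z2,z0,z1,z2],z2)] (.z (.x (.old (.tor k28 false k0 [(z2,[y1,y2,z1,z2]),(z1,[z0,z1]),(z2,[y1,z0,y1,z2]),(z1,
    [z1])])))), .old [([z1,z1,z1,z0,z0,z1],z2)] (.z (.x (.old (.leafM k0 [k0,k1,k2,k5] [] [(k3,k4,z1,[y1,z1]),(k4,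
    k3,z1,[y1,z1])])))), .old [([z2,z0,z0,z1,z0,z0],z2),([z0,z1,z0,z1,z0,y2],z0),([z0,z0,z2,y1,z0,z2],z2)] (.z (.x
    (.old (.tor k25 false k0 [(z2,[y1,y2,y1,z2]),(z2,[y1,z0,y1,z2]),(z1,[z0,z1,z1]),(z1,[z1])])))), .old [([z1,z1,
    z0,z1,z0,z1],z2)] (.z (.x (.old (.leafM k1 [k5,k0,k1,k3] [] [(k2,k4,z1,[y1,z1]),(k4,k2,z1,[y1,z1])])))), .old
    [([z1,z0,z1,z0,z1,z1],z2)] (.z (.x (.old (.leafM k1 [k4,k5,k0,k2] [] [(k1,k3,z1,[y1,z1]),(k3,k1,z1,[y1,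
    z1])])))), .old [([z1,z0,z0,z0,z1,z1],z2)] (.z (.x (.old (.leafM k4 [k1,k2,k3,k4,k5,k0] [(z1,[z1])] [])))), .old
    [([z1,z0,z0,z1,z1,z1],z2),([z0,z1,z0,y1,z0,z0],z0)] (.z (.x (.old (.tor k7 false k0 [(z1,[y1,y1,z1]),(z1,[y1,z0,
    z1]),(z1,[z1]),(z1,[z1,z1])])))), .old [([z1,z0,z0,z0,z1,z0],z1),([z0,z2,z0,z0,z0,z0],z1),([z0,z0,z2,z0,z0,z0],
    z3),([z0,z0,z0,z2,z0,z0],z1)] (.z (.x (.old (.tor k33 false k0 [(z1,[y4,y2,y2,y2,z4]),(z2,[z0,z0,z1,z1]),(z2,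
    [z0,z1,z1]),(z2,[z2,z1,z0,z1]),(z1,[z2])])))), .old [([z1,z0,z0,z0,z1,z0],z1),([z0,z1,z0,z1,z0,z0],z2),([z0,z0,
    z2,z0,z0,z0],z1)] (.z (.x (.old (.leafM k9 [k0,k2,k4,k5] [(z1,[z0,z0,z1]),(z1,[y2,y2,y1,z2]),(z1,[z1])] [(k1,k3,
    z1,[z0,z1]),(k3,k1,z1,[z0,z1])])))), .old [([z1,z0,z0,z0,z1,z0],z1),([z0,z1,z0,z1,z0,z0],z2),([z0,z0,z3,z0,z0,
    z0],z2)] (.z (.x (.old (.leafM k8 [k0,k2,k4,k5] [(z1,[z0,z0,z1]),(z1,[y3,y3,y1,z3]),(z1,[z1])] [(k1,k3,z1,[z0,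
    z1]),(k3,k1,z1,[z0,z1])])))), .old [([z1,z0,z0,z1,z1,z1],z2)] (.z (.x (.old (.leafM k1 [k0,k3,k4,k5] [] [(k1,k2,
    z1,[y1,z1]),(k2,k1,z1,[y1,z1])]))))], [.old [([z1,z0,z0,z0,z1,z1],z2)] (.z (.x (.old (.leafM k4 [k4,k5,k0,k1,k2,
    k3] [(z1,[y1,z1])] [])))), .old [([z1,z0,z0,z0,z1,z2],z2),([z0,z1,z0,z0,z0,y2],z0),([z0,z0,z1,z0,z0,y1],z0)] (.z
    (.x (.old (.tor k30 false k0 [(z1,[y1,y1,z1,z1]),(z1,[y1,z0,y1,z1]),(z1,[z1]),(z1,[z1,z1])])))), .old [([z1,z0,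
    z0,z0,z1,z2],z2),([z0,z1,z0,z0,z0,y2],z0),([z0,z0,z1,z0,z0,y1],z0)] (.z (.x (.old (.tor k8 false k0 [(z1,[y1,y1,
    z1,z1]),(z1,[y1,z0,y1,z1]),(z1,[z1]),(z1,[z1,z1])])))), .old [([z1,z0,z0,z0,z1,z0],z1),([z0,z2,z0,z0,z0,z0],z1),
    ([z0,z0,z2,z0,z0,z0],z3),([z0,z0,z0,z2,z0,z0],z1)] (.z (.x (.old (.tor k31 false k0 [(z1,[y4,y2,y2,y2,z4]),(z2,
    [z0,z0,z1,z1]),(z2,[z0,z1,z1]),(z2,[z2,z1,z0,z1]),(z1,[z2])])))), .old [([z1,z1,z0,z0,z1,z1],z2)] (.z (.x (.old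
    (.leafM k1 [k0,k1,k4,k5] [] [(k2,k3,z1,[y1,z1]),(k3,k2,z1,[y1,z1])])))), .old [([z1,z0,z0,z0,z1,z0],z2),([z0,z1,
    z0,z1,z0,z0],z1),([z0,z0,z3,z0,z0,z0],z1)] (.z (.x (.old (.leafM k8 [k3,k5,k1,k2] [(z1,[y3,y3,y1,z3]),(z1,[z0,
    z0,z1]),(z1,[z0,z1])] [(k4,k0,z1,[z1]),(k0,k4,z1,[z1])])))), .old [([z1,z0,z0,z0,z1,z0],z2),([z0,z1,z0,z1,z0,
    z0],z1),([z0,z0,z2,z0,z0,z0],z1)] (.z (.x (.old (.leafM k9 [k3,k5,k1,k2] [(z1,[y2,y2,y1,z2]),(z1,[z0,z0,z1]),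
    (z1,[z0,z1])] [(k4,k0,z1,[z1]),(k0,k4,z1,[z1])])))), .old [([z1,z0,z0,z0,z0,z1],z2)] (.z (.x (.old (.leafM k1
    [k3,k4,k1,k2] [] [(k5,k0,z1,[z1]),(k0,k5,z1,[z1])])))), .old [([z1,z0,z0,z1,z1,z1],z2),([z0,z1,z0,y1,z0,y1],z0)]
    (.z (.x (.old (.tor k1 false k4 [(z1,[z1,z1]),(z1,[z1]),(z1,[y1,z0,z1]),(z1,[y1,y1,z1])])))), .old [([z1,z0,z0,
    z1,z1,z1],z2),([z0,z1,z0,y1,y1,z0],z0)] (.z (.x (.old (.tor k9 false k0 [(z1,[y1,y1,z1]),(z1,[y1,z0,z1]),(z1,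
    [z1]),(z1,[z1,z1])])))), .old [([z1,z0,z0,z1,z1,z1],z2)] (.z (.x (.old (.leafM k2 [k0,k3,k4,k5] [] [(k1,k2,z1,
    [y1,z1]),(k2,k1,z1,[y1,z1])])))), .old [([z1,z1,z0,z0,z1,z0],z2)] (.z (.x (.old (.leafM k3 [k3,k4,k5,k0,k1,k2]
    [(z1,[z1])] [])))), .old [([z1,z0,z0,z1,z0,z0],z1),([z0,z1,z1,z0,z0,z0],z2)] (.z (.x (.old (.leafM k4 [k3,k4,k5,
    k0] [(z1,[y1,y1,z1])] [(k1,k2,z1,[z0,z1]),(k2,k1,z1,[z0,z1])])))), .old [([z1,z1,z1,z0,z1,z0],z2)] (.z (.x (.old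
    (.leafM k1 [k0,k1,k2,k4] [] [(k3,k5,z1,[y1,z1]),(k5,k3,z1,[y1,z1])])))), .old [([z1,z1,z1,z0,z1,z0],z2)] (.z (.x
    (.old (.leafM k3 [k0,k1,k2,k4] [] [(k3,k5,z1,[y1,z1]),(k5,k3,z1,[y1,z1])])))), .old [([z1,z1,z1,z0,z0,z1],z2)]
    (.z (.x (.old (.leafM k1 [k2,k5,k0,k1] [] [(k3,k4,z1,[y1,z1]),(k4,k3,z1,[y1,z1])]))))], [.old [([z1,z0,z0,z1,z0,
    y2],z0),([z0,z1,z0,z0,z0,z2],z2),([z0,z0,z1,z0,z0,y1],z0)] (.z (.x (.old (.tor k14 false k0 [(z1,[y1,y1,y1,z1]),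
    (z1,[z0,z1,z2]),(z1,[z0,y1,y1,z1]),(z1,[z1,z1])])))), .old [([z1,z0,z0,z1,z0,y2],z0),([z0,z1,z0,z0,z0,y1],z0),
    ([z0,z0,z1,z0,z0,z2],z2)] (.z (.x (.old (.tor k13 false k0 [(z1,[y1,y1,y1,z1]),(z1,[z0,z2,z1]),(z1,[z0,y1,y1,
    z1]),(z1,[z1,z0,z1])])))), .old [([z1,z0,z0,z1,z0,z0],z2),([z0,z1,z1,z0,z0,z0],z1)] (.z (.x (.old (.leafM k4
    [k2,k4,k5,k1] [(z1,[y1,y1,z1])] [(k3,k0,z1,[z1]),(k0,k3,z1,[z1])])))), .old [([z1,z0,z0,z1,z1,z1],z2)] (.z (.x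
    (.old (.leafM k1 [k5,k0,k3,k4] [] [(k1,k2,z1,[y1,z1]),(k2,k1,z1,[y1,z1])])))), .old [([z1,z0,y1,z0,z0,z0],z0),
    ([z0,z1,z2,z0,z0,z0],z2),([z0,z0,z0,z1,z0,y1],z0)] (.z (.x (.old (.tor k11 false k0 [(z1,[y1,y1,y1,z1]),(z1,[y1,
    y1,z1,z1]),(z1,[z0,z1]),(z1,[z2,z1])])))), .old [([z1,z0,z0,z0,z0,z1],z2)] (.z (.x (.old (.leafM k2 [k2,k3,k4,
    k1] [] [(k5,k0,z1,[z1]),(k0,k5,z1,[z1])])))), .old [([z1,z0,z1,z0,z1,z0],z2)] (.z (.x (.old (.leafM k5 [k1,k2,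
    k3,k4,k5,k0] [(z1,[z1]),(z1,[y1,z1])] [])))), .old [([z1,z1,z1,z0,z0,z0],z2)] (.z (.x (.old (.leafM k6 [k0,k1,
    k2,k3,k4,k5] [(z1,[y1,z1])] [])))), .old [([z1,z0,z1,z1,z0,z1],z2)] (.z (.x (.old (.leafM k6 [k2,k3,k5,k0] []
    [(k4,k1,z1,[y1,z1]),(k1,k4,z1,[y1,z1])])))), .old [([z1,z0,z0,z1,z1,z0],z2),([z0,z1,z0,z0,y1,z0],z0)] (.z (.x
    (.old (.tor k2 false k1 [(z1,[z1]),(z1,[z1,z1]),(z1,[y1,y1,z1]),(z1,[y1,z0,z1])])))), .old [([z1,z0,z0,z0,z1,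
    z1],z2),([z0,z1,z0,z0,y1,z0],z0)] (.z (.x (.old (.tor k10 false k0 [(z1,[y1,y1,z1]),(z1,[y1,z0,z1]),(z1,[z1]),
    (z1,[z1,z1])])))), .old [([z1,z0,z0,z0,z0,z1],z1),([z0,z1,z0,z0,z1,z0],z1)] (.z (.x (.old (.leafM k4 [k0,k1,k4,
    k5] [(z1,[z0,z1])] [(k2,k3,z1,[y1,y1,z1]),(k3,k2,z1,[y1,y1,z1])])))), .old [([z1,z1,z0,z0,z1,z1],z2)] (.z (.x
    (.old (.leafM k2 [k1,k4,k5,k0] [] [(k2,k3,z1,[y1,z1]),(k3,k2,z1,[y1,z1])])))), .old [([z3,z0,z0,z0,z0,y3],y2),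
    ([z0,z3,z0,z0,z0,z0],z2),([z0,z0,z1,z0,z0,z1],z2),([z0,z0,z0,z3,z0,z3],z4)] (.z (.x (.old (.tor k20 false k0
    [(z1,[z0,z0,z1]),(z3,[y2,y1,y6,y2,z6]),(z3,[y1,z1,y3,y1,z3]),(z3,[z1,z0,z0,z2]),(z3,[z2,z0,z3,z1])])))), .old
    [([z3,z0,z0,z0,z0,z3],z2),([z0,z3,z0,z0,z0,z0],z2),([z0,z0,z3,z0,z0,y3],z2),([z0,z0,z0,z3,z0,z3],z4)] (.z (.x
    (.old (.tor k19 false k0 [(z3,[z0,z0,z1,z1]),(z3,[y2,y1,y2,y2,z6]),(z3,[y1,z1,y1,y1,z3]),(z3,[z1,z0,z0,z1]),(z3,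
    [z2,z0,z1])])))), .old [([z1,z0,z1,z0,z0,z0],z1),([z0,z3,z0,z0,z0,z0],z1),([z0,z0,z0,z1,z0,z1],z2)] (.z (.x
    (.old (.leafM k8 [k2,k4,k0,k1] [(z1,[y3,y1,y3,z3]),(z1,[z0,z1]),(z1,[z1])] [(k3,k5,z1,[z0,z0,z1]),(k5,k3,z1,[z0,
    z0,z1])]))))], [.old [([z1,z0,z1,z0,z0,z0],z1),([z0,z2,z0,z0,z0,z0],z1),([z0,z0,z0,z1,z0,z1],z2)] (.z (.x (.old
    (.leafM k9 [k2,k4,k0,k1] [(z1,[y2,y1,y2,z2]),(z1,[z0,z1]),(z1,[z1])] [(k3,k5,z1,[z0,z0,z1]),(k5,k3,z1,[z0,z0,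
    z1])])))), .old [([z2,z0,z0,z0,z1,z0],z2),([z0,z1,z0,z0,z0,z2],z2),([z0,z0,z2,z0,z1,z0],z2)] (.z (.x (.old (.tor
    k16 false k0 [(z1,[z0,z0,z1]),(z1,[z0,z1]),(z1,[y1,y1,y1,z2]),(z1,[z1])])))), .old [([z1,z0,z0,z0,z0,z1],z2),
    ([z0,z1,z0,z0,z1,z0],z1)] (.z (.x (.old (.leafM k4 [k1,k2,k3,k4] [(z1,[y1,y1,z1])] [(k5,k0,z1,[z1]),(k0,k5,z1,
    [z1])])))), .old [([z3,z0,z0,z0,z3,z0],z5),([z0,z3,z0,z0,z0,z0],z1),([z0,z0,z3,z0,y3,z0],z1),([z0,z0,z0,z1,z1,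
    z0],z1)] (.z (.x (.old (.lp [(nat_lit 2541661),(nat_lit 574011),(nat_lit 1157521),(nat_lit 1267261),(nat_lit
    519961),(nat_lit 1211801)] [k0,k0,(nat_lit 983825),(nat_lit 983825),(nat_lit 692070),(nat_lit 692070),(nat_lit
    637200),(nat_lit 637200),(nat_lit 1010850),(nat_lit 1010850),(nat_lit 664930),(nat_lit 664930)] k0 [[k0,k0,k0,
    k0,k0,k0,(nat_lit 318895)],[],[],[],[],[],[],[k0,(nat_lit 318895)]] (nat_lit 3826740) k8 [[(k8,(nat_lit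
    1530811)),(k4,(nat_lit 1849591)),(k10,(nat_lit 1876731))],[(k9,(nat_lit 1211916)),(k3,(nat_lit 1557836)),(k5,
    (nat_lit 1849591))],[(k2,(nat_lit 574011)),(k6,(nat_lit 1239531)),(k0,(nat_lit 1557836))],[(k9,(nat_lit
    546986)),(k3,(nat_lit 574011)),(k5,(nat_lit 865766))],[(k2,(nat_lit 865766)),(k6,(nat_lit 1212391)),(k0,(nat_lit
    1849591))],[(k11,(nat_lit 1184661)),(k7,(nat_lit 1212391)),(k1,(nat_lit 1849591))],[(k8,(nat_lit 893611)),(k4,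
    (nat_lit 1212391)),(k10,(nat_lit 1239531))],[(k9,(nat_lit 893611)),(k5,(nat_lit 1212391)),(k3,(nat_lit
    1239531))],[(k2,(nat_lit 546986)),(k6,(nat_lit 893611)),(k0,(nat_lit 1211916))],[(k11,(nat_lit 865881)),(k7,
    (nat_lit 893611)),(k1,(nat_lit 1530811))],[(k8,(nat_lit 865881)),(k4,(nat_lit 1184661)),(k10,(nat_lit
    1211801))],[(k11,(nat_lit 1211801)),(k7,(nat_lit 1239531)),(k1,(nat_lit 1876731))]] [[k0,k4],[k0,k8,k2],[k1,k3,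
    k9],[k1,k5],[k2,k2,k2,k2,k2,k2],[k3,k3,k3,k3,k3,k3],[k4,k6,k10],[k5,k11,k7],[k6,k8,k6,k8],[k7,k9,k7,k9],[k10,
    k10,k10],[k11,k11,k11]] (nat_lit 63779) [[k1,k0,k0,k0,k1,k0],[k0,k2,k0,k0,k0,k0],[k0,k3,k0,k0,k0,k0],[k0,k4,k0,
    k0,k0,k0],[k0,k5,k0,k0,k0,k0],[k0,k2,k0,k1,k1,k0],[k0,k1,k1,k1,k0,k0],[k0,k1,k0,k1,k1,k0],[k0,k0,k1,k1,k0,k0],
    [k0,k0,k0,k1,k1,k0],[k0,k0,k0,k1,k1,k1],[k0,k0,k0,k0,k0,k2]] [.contra [z6,y2,z1],.contra [z1],.contra [z2,z0,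
    y1],.contra [z1,z0,y1],.contra [z2,z0,y3],.contra [z2,z0,y1,z0,y2],.contra [z6,z0,y1,y2,y6],.contra [z1,z0,z0,
    z0,y1],.contra [z3,z0,z1,y1,y3],.contra [z2,z0,z1,z0,y2],.contra [z6,z2,z3,z2,z0,y6],.contra [z3,z2,z3,z2,z6,
    y6]])))), .old [([z3,z0,z0,z0,z3,z0],z4),([z0,z3,z0,z0,z0,z0],z2),([z0,z0,z3,z0,y3,z0],z2),([z0,z0,z0,z1,z1,z0],
    z1)] (.z (.x (.lp [(nat_lit 1463),(nat_lit 931),(nat_lit 1379),(nat_lit 973),(nat_lit 399),(nat_lit 441)] [k0,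
    k0,(nat_lit 266),(nat_lit 266),k42,k42,(nat_lit 245),(nat_lit 245),(nat_lit 532),(nat_lit 532),(nat_lit 511),
    (nat_lit 511)] k0 [] (nat_lit 2940) k8 [[(k8,(nat_lit 931)),(k10,(nat_lit 952)),(k4,(nat_lit 1421))],[(k9,
    (nat_lit 931)),(k3,(nat_lit 1197)),(k5,(nat_lit 1421))],[(k2,(nat_lit 931)),(k6,(nat_lit 952)),(k0,(nat_lit
    1197))],[(k9,(nat_lit 665)),(k3,(nat_lit 931)),(k5,(nat_lit 1155))],[(k2,(nat_lit 1155)),(k6,(nat_lit 1176)),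
    (k0,(nat_lit 1421))],[(k11,(nat_lit 910)),(k7,(nat_lit 1176)),(k1,(nat_lit 1421))],[(k8,(nat_lit 686)),(k10,
    (nat_lit 707)),(k4,(nat_lit 1176))],[(k9,(nat_lit 686)),(k3,(nat_lit 952)),(k5,(nat_lit 1176))],[(k2,(nat_lit
    665)),(k6,(nat_lit 686)),(k0,(nat_lit 931))],[(k11,(nat_lit 420)),(k7,(nat_lit 686)),(k1,(nat_lit 931))],[(k8,
    (nat_lit 420)),(k10,(nat_lit 441)),(k4,(nat_lit 910))],[(k11,(nat_lit 441)),(k7,(nat_lit 707)),(k1,(nat_lit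
    952))]] [[k0,k4],[k0,k8,k2],[k0,k10,k10,k8],[k1,k3,k9],[k1,k5],[k1,k9,k11,k11],[k2,k2,k2],[k2,k6,k10,k8],[k3,k3,
    k3],[k3,k9,k11,k7],[k4,k6,k10],[k5,k11,k7],[k6,k8,k6,k8],[k6,k10,k10,k10,k8],[k7,k9,k7,k9],[k7,k9,k11,k11,k11],
    [k10,k10,k10,k10,k10,k10],[k11,k11,k11,k11,k11,k11]] ⟨[[[k0,k4],[k0,k8,k2],[k0,k10,k10,k8],[k1,k3,k9],[k1,k5],
    [k1,k9,k11,k11],[k2,k0,k8],[k2,k2,k2],[k2,k6,k10,k8],[k3,k3,k3],[k3,k9,k1],[k3,k9,k11,k7]],[[k4,k0],[k4,k6,k10],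
    [k5,k1],[k5,k11,k7],[k6,k8,k6,k8],[k6,k10,k4],[k6,k10,k8,k2],[k6,k10,k10,k10,k8],[k7,k3,k9,k11],[k7,k5,k11],[k7,
    k9,k7,k9],[k7,k9,k11,k11,k11]],[[k8,k0,k10,k10],[k8,k2,k0],[k8,k2,k6,k10],[k8,k6,k8,k6],[k8,k6,k10,k10,k10],[k9,
    k1,k3],[k9,k7,k9,k7],[k9,k11,k7,k3],[k9,k11,k11,k1],[k9,k11,k11,k11,k7],[k10,k4,k6],[k10,k8,k0,k10]],[[k10,k8,
    k2,k6],[k10,k8,k6,k10,k10],[k10,k10,k8,k0],[k10,k10,k8,k6,k10],[k10,k10,k10,k8,k6],[k10,k10,k10,k10,k10,k10],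
    [k11,k1,k9,k11],[k11,k7,k3,k9],[k11,k7,k5],[k11,k7,k9,k11,k11],[k11,k11,k1,k9],[k11,k11,k7,k9,k11]],[[k11,k11,
    k11,k7,k9],[k11,k11,k11,k11,k11,k11]]],[[k12,k25,k38,k10,k14,k32,k1,k7,k18,k9,k29,k31],[k0,k17,k4,k44,k27,k34,
    k36,k40,k11,k15,k30,k33],[k2,k6,k8,k16,k19,k3,k22,k43,k46,k48,k13,k24],[k26,k28,k35,k37,k39,k41,k5,k20,k21,k23,
    k42,k45],[k47,k49]],[[k12,k6,k24,k29,k14,k42,k25,k7,k26,k9,k3,k20],[k0,k34,k4,k21,k27,k13,k8,k28,k43,k44,k30,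
    k45],[k35,k1,k36,k16,k37,k10,k22,k11,k5,k23,k17,k38],[k18,k39,k2,k40,k19,k41,k46,k31,k15,k47,k32,k48],[k33,
    k49]],[[[k34,k36,k40],[k35,k37,k39,k41],[k38],[k10],[k9],[k11],[k1],[k0],[k2],[k14],[k15],[k15]],[[k7],[k6,k8],
    [k20,k21,k23],[k22],[k13],[k12],[k12],[k12],[k32],[k29,k31],[k30,k33],[k30,k33]],[[k18],[k17],[k17],[k16,k19],
    [k16,k19],[k42,k45,k47,k49],[k44],[k43,k46,k48],[k43,k46,k48],[k43,k46,k48],[k27],[k24,k26,k28]],[[k24,k26,k28],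
    [k24,k26,k28],[k25],[k25],[k25],[k25],[k5],[k4],[k4],[k4],[k3],[k3]],[[k3],[k3]]],k50⟩ k2 k1 k49 [[k1,k0,k0,k0,
    k1,k0],[k1,k0,k0,k0,k1,k1],[k0,k2,k0,k0,k0,k0],[k0,k1,k0,k1,k1,k0],[k0,k0,k1,k1,k0,k0],[k0,k0,k0,k1,k1,k0],[k0,
    k0,k0,k1,k1,k1],[k0,k0,k0,k1,k1,k2],[k0,k0,k0,k0,k0,k2],[k0,k0,k0,k0,k0,k3],[k0,k0,k0,k0,k0,k4],[k0,k0,k0,k0,k0,
    k5]] [.contra [z3,y1,z2],.contra [z3,z0,z2,z1,z3,y3],.contra [z1],.contra [z1,z0,z0,z0,y1],.contra [z3,z0,z1,y1,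
    y3],.contra [z1,z0,z1,z0,y1],.contra [z3,z1,z3,z1,z0,y3],.contra [z3,z2,z3,z2,z3,y6],.contra [z3,z2,z6,z2,z6,
    y6],.contra [z1,z1,z2,z1,z3,y3],.contra [z3,z4,z6,z4,z12,y12],.contra [z3,z5,z6,z5,z15,y15]]))), .old [([z1,z0,
    z0,z0,z1,z0],z2),([z0,z1,z0,z0,z0,y1],z0),([z0,z0,z1,z0,y1,z0],z0)] (.z (.x (.old (.tor k12 false k0 [(z1,[y1,
    y1,y1,z1]),(z1,[y1,z1,z0,z1]),(z1,[z1]),(z1,[z1,z0,z1])])))), .old [([z1,z0,z0,z0,z1,z0],z2),([z0,z3,z0,z0,z0,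
    z0],z1),([z0,z0,z1,z0,y1,z0],z0),([z0,z0,z0,z1,z1,z0],z1)] (.z (.x (.old (.tor k36 true k0 [(z1,[y3,y1,y3,y3,
    z3]),(z1,[z0,z0,y1]),(z1,[z0,z0,z1,z1]),(z1,[z0,z1])])))), .old [([z1,z1,z0,z1,z0,z0],z2)] (.z (.x (.old (.leafM
    k3 [k1,k2,k3,k4,k5,k0] [(z1,[y1,z1])] [])))), .old [([z1,z0,z0,z0,z1,z0],z2),([z0,z3,z0,z0,z0,z0],z1),([z0,z0,
    z3,z0,y3,z0],y2),([z0,z0,z0,z3,z3,z0],z5)] (.z (.x (.lp [(nat_lit 2884),(nat_lit 882),(nat_lit 840),(nat_lit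
    1904),(nat_lit 2800),(nat_lit 1862)] [k0,k0,(nat_lit 1001),(nat_lit 1001),(nat_lit 1022),(nat_lit 1022),(nat_lit
    490),(nat_lit 490),k42,k42,(nat_lit 511),(nat_lit 511)] k0 [] (nat_lit 5880) k8 [[(k4,(nat_lit 1862)),(k10,
    (nat_lit 2373)),(k11,(nat_lit 2373)),(k7,(nat_lit 2394)),(k8,(nat_lit 2842)),(k1,(nat_lit 2884))],[(k5,(nat_lit
    1862)),(k3,(nat_lit 1883)),(k9,(nat_lit 2842))],[(k2,(nat_lit 882)),(k6,(nat_lit 1393)),(k0,(nat_lit 1883))],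
    [(k5,(nat_lit 861)),(k3,(nat_lit 882)),(k9,(nat_lit 1841))],[(k2,(nat_lit 861)),(k6,(nat_lit 1372)),(k0,(nat_lit
    1862))],[(k4,(nat_lit 840)),(k10,(nat_lit 1351)),(k11,(nat_lit 1351)),(k7,(nat_lit 1372)),(k8,(nat_lit 1820)),
    (k1,(nat_lit 1862))],[(k4,(nat_lit 1372)),(k10,(nat_lit 1883)),(k11,(nat_lit 1883)),(k7,(nat_lit 1904)),(k8,
    (nat_lit 2352)),(k1,(nat_lit 2394))],[(k5,(nat_lit 1372)),(k3,(nat_lit 1393)),(k9,(nat_lit 2352))],[(k2,(nat_lit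
    1841)),(k6,(nat_lit 2352)),(k0,(nat_lit 2842))],[(k4,(nat_lit 1820)),(k10,(nat_lit 2331)),(k11,(nat_lit 2331)),
    (k7,(nat_lit 2352)),(k8,(nat_lit 2800)),(k1,(nat_lit 2842))],[(k4,(nat_lit 1351)),(k10,(nat_lit 1862)),(k11,
    (nat_lit 1862)),(k7,(nat_lit 1883)),(k8,(nat_lit 2331)),(k1,(nat_lit 2373))],[(k4,(nat_lit 1351)),(k10,(nat_lit
    1862)),(k11,(nat_lit 1862)),(k7,(nat_lit 1883)),(k8,(nat_lit 2331)),(k1,(nat_lit 2373))]] [[k0,k4,k2,k2],[k0,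
    k8],[k0,k10,k4],[k0,k11,k4],[k1,k3,k3,k5],[k1,k5,k10],[k1,k5,k11],[k1,k9],[k2,k2,k2,k2,k2,k2],[k2,k2,k2,k6,k4],
    [k2,k2,k6,k4,k2],[k2,k6,k4,k2,k2],[k2,k6,k8],[k2,k6,k10,k4],[k2,k6,k11,k4],[k3,k3,k3,k3,k3,k3],[k3,k3,k3,k5,k7],
    [k3,k3,k5,k7,k3],[k3,k5,k7,k3,k3],[k3,k5,k10,k7],[k3,k5,k11,k7],[k3,k9,k7],[k4,k6,k4,k6],[k4,k6,k7,k5],[k5,k7,
    k5,k7],[k10,k10,k10],[k10,k10,k11],[k10,k11,k10],[k10,k11,k11],[k11,k11,k11]] ⟨[[[k0,k4,k2,k2],[k0,k8],[k0,k10,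
    k4],[k0,k11,k4],[k1,k3,k3,k5],[k1,k5,k10],[k1,k5,k11],[k1,k9],[k2,k0,k4,k2],[k2,k2,k0,k4],[k2,k2,k2,k2,k2,k2],
    [k2,k2,k2,k6,k4]],[[k2,k2,k6,k4,k2],[k2,k6,k4,k2,k2],[k2,k6,k8],[k2,k6,k10,k4],[k2,k6,k11,k4],[k3,k3,k3,k3,k3,
    k3],[k3,k3,k3,k5,k7],[k3,k3,k5,k1],[k3,k3,k5,k7,k3],[k3,k5,k1,k3],[k3,k5,k7,k3,k3],[k3,k5,k10,k7]],[[k3,k5,k11,
    k7],[k3,k9,k7],[k4,k0,k10],[k4,k0,k11],[k4,k2,k2,k0],[k4,k2,k2,k2,k6],[k4,k2,k6,k10],[k4,k2,k6,k11],[k4,k6,k4,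
    k6],[k4,k6,k7,k5],[k5,k1,k3,k3],[k5,k4,k6,k7]],[[k5,k7,k3,k3,k3],[k5,k7,k5,k7],[k5,k10,k1],[k5,k10,k7,k3],[k5,
    k11,k1],[k5,k11,k7,k3],[k6,k4,k2,k2,k2],[k6,k4,k6,k4],[k6,k7,k5,k4],[k6,k8,k2],[k6,k10,k4,k2],[k6,k11,k4,k2]],
    [[k7,k3,k3,k3,k5],[k7,k3,k5,k10],[k7,k3,k5,k11],[k7,k3,k9],[k7,k5,k4,k6],[k7,k5,k7,k5],[k8,k0],[k8,k2,k6],[k9,
    k1],[k9,k7,k3],[k10,k1,k5],[k10,k4,k0]],[[k10,k4,k2,k6],[k10,k7,k3,k5],[k10,k10,k10],[k10,k10,k11],[k10,k11,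
    k10],[k10,k11,k11],[k11,k1,k5],[k11,k4,k0],[k11,k4,k2,k6],[k11,k7,k3,k5],[k11,k10,k10],[k11,k10,k11]],[[k11,k11,
    k10],[k11,k11,k11]]],[[k28,k54,k59,k67,k19,k38,k40,k56,k0,k8,k10,k12],[k13,k42,k45,k46,k47,k17,k20,k21,k22,k34,
    k36,k39],[k41,k57,k2,k3,k9,k11,k15,k16,k43,k44,k4,k33],[k48,k53,k58,k61,k66,k69,k29,k32,k52,k55,k60,k68],[k18,
    k23,k24,k25,k35,k37,k1,k14,k7,k51,k5,k26],[k30,k49,k62,k64,k70,k72,k6,k27,k31,k50,k63,k65],[k71,k73]],[[k8,k54,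
    k26,k27,k34,k58,k66,k56,k9,k28,k10,k29],[k11,k12,k55,k30,k31,k17,k48,k4,k18,k19,k20,k49],[k50,k51,k59,k67,k0,
    k42,k60,k68,k43,k35,k21,k52],[k22,k53,k5,k23,k6,k24,k13,k32,k33,k14,k15,k16],[k36,k61,k69,k57,k44,k37,k1,k45,k7,
    k25,k38,k2],[k46,k39,k62,k70,k63,k71,k40,k3,k47,k41,k64,k72],[k65,k73]],[[[k60],[k62,k64],[k59],[],[k19],[k17,
    k20,k21,k22],[k17,k20,k21,k22],[k18,k23,k24,k25],[k0],[k2,k3],[k2,k3],[k2,k3]],[[k2,k3],[k1],[k1],[k1],[k1],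
    [k38,k40],[k38,k40],[k38,k40],[k38,k40],[k34,k36,k39,k41],[k34,k36,k39,k41],[k34,k36,k39,k41]],[[k34,k36,k39,
    k41],[k35,k37],[k8,k10,k12,k13],[k8,k10,k12,k13],[k9,k11,k15,k16],[k9,k11,k15,k16],[k9,k11,k15,k16],[k9,k11,k15,
    k16],[k14],[k14],[k50],[k52]],[[k48,k53],[k48,k53],[],[],[k51],[k51],[k29,k32],[k29,k32],[k33],[k26,k30],[k28],
    []],[[k56],[k56],[k56],[k56],[k57],[k57],[k42,k45,k46,k47],[k43,k44],[k71,k73],[k66,k69],[],[k55]],[[k55],[],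
    [k54],[k54],[],[],[k6],[],[],[k4],[],[]],[[k7],[k7]]],k74⟩ k2 k2 k98 [[k1,k0,k1,k0,k0,k0],[k1,k1,k1,k0,k0,k0],
    [k0,k2,k0,k0,k0,k0],[k0,k3,k0,k0,k0,k0],[k0,k4,k0,k0,k0,k0],[k0,k5,k0,k0,k0,k0],[k0,k2,k1,k1,k0,k0],[k0,k1,k1,
    k1,k0,k0],[k0,k0,k1,k1,k0,k0],[k0,k0,k1,k1,k0,k1],[k0,k0,k0,k1,k1,k0],[k0,k0,k0,k0,k0,k2]] [.contra [z3,y3,z1,
    y1],.contra [z6,y6,y1,y2],.contra [z1],.contra [z2,z0,y1],.contra [z1,z0,y1],.contra [z2,z0,y3],.contra [z6,z0,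
    y3,y2,y2],.contra [z3,z0,z0,y1,y1],.contra [z6,z0,z3,y2,y2],.contra [z2,z2,z1,z0,z0,y2],.contra [z6,z0,z1,z0,
    y2],.contra [z3,z6,z3,z2,z2,y6]]))), .old [([z1,z0,z0,z0,z1,z0],z2),([z0,z3,z0,z0,z0,z0],z2),([z0,z0,z3,z0,y3,
    z0],y1),([z0,z0,z0,z3,z3,z0],z4)] (.z (.x (.old (.lp [(nat_lit 482),(nat_lit 266),k120,(nat_lit 272),(nat_lit
    260),k196] [k0,k0,k108,k108,k181,k181,k105,k105,k111,k111,k143,k143] k0 [[],[],[],[],[],[k0,k0,k0,k0,k0,k0,k0,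
    k0,k0,k0,k28],[],[],[k0,k0,k0,k0,k0,k0,k0,k0,k0,k0,k0,k14],[k0,k0,k0,k0,k0,k0,k0,k0,k0,k0,k0,k70],[k0,k0,k0,k0,
    k0,k0,k0,k0,k70,k14],[k0,k0,k0,k0,k28]] (nat_lit 840) k8 [[(k4,(nat_lit 301)),(k10,(nat_lit 339)),(k7,(nat_lit
    349)),(k11,(nat_lit 353)),(k8,(nat_lit 441)),(k1,(nat_lit 482))],[(k5,(nat_lit 301)),(k9,(nat_lit 371)),(k3,
    (nat_lit 374))],[(k2,(nat_lit 266)),(k6,(nat_lit 269)),(k0,(nat_lit 374))],[(k5,k193),(k9,(nat_lit 263)),(k3,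
    (nat_lit 266))],[(k2,k193),(k6,k196),(k0,(nat_lit 301))],[(k4,k120),(k11,k158),(k10,k186),(k8,k190),(k7,k196),
    (k1,(nat_lit 301))],[(k4,k196),(k10,(nat_lit 234)),(k11,(nat_lit 234)),(k8,(nat_lit 266)),(k7,(nat_lit 272)),
    (k1,(nat_lit 349))],[(k5,k196),(k9,(nat_lit 266)),(k3,(nat_lit 269))],[(k2,(nat_lit 263)),(k6,(nat_lit 266)),
    (k0,(nat_lit 371))],[(k4,k190),(k10,(nat_lit 214)),(k11,(nat_lit 228)),(k8,(nat_lit 260)),(k7,(nat_lit 266)),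
    (k1,(nat_lit 441))],[(k10,k126),(k4,k158),(k11,k196),(k8,(nat_lit 228)),(k7,(nat_lit 234)),(k1,(nat_lit 353))],
    [(k11,k126),(k4,k186),(k10,k196),(k8,(nat_lit 214)),(k7,(nat_lit 234)),(k1,(nat_lit 339))]] [[k0,k8],[k0,k10,
    k4],[k1,k5,k11],[k1,k9],[k2,k2,k2],[k2,k6,k8],[k3,k3,k3],[k3,k9,k7],[k4,k6,k4,k6],[k4,k6,k7,k5],[k5,k7,k5,k7],
    [k10,k10,k10,k10,k10,k10],[k11,k11,k11,k11,k11,k11]] k14 [[k1,k0,k1,k0,k0,k0],[k0,k2,k0,k0,k0,k0],[k0,k1,k1,k1,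
    k0,k0],[k0,k0,k1,k1,k0,k0],[k0,k0,k1,k1,k0,k1],[k0,k0,k1,k1,k0,k2],[k0,k0,k0,k1,k1,k0],[k0,k0,k0,k1,k1,k1],[k0,
    k0,k0,k0,k0,k2],[k0,k0,k0,k0,k0,k3],[k0,k0,k0,k0,k0,k4],[k0,k0,k0,k0,k0,k5]] [.contra [z3,y3,z1,y1],.contra
    [z1],.contra [z3,z0,z0,y1,y1],.contra [z3,z0,z3,y1,y1],.contra [z1,z1,z1,z0,z0,y1],.contra [z3,z6,z3,z1,z1,y6],
    .contra [z3,z0,z2,z0,y1],.contra [z3,z3,z2,z1,z0,y3],.contra [z3,z6,z6,z2,z2,y6],.contra [z1,z3,z2,z1,z1,y3],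
    .contra [z3,z12,z6,z4,z4,y12],.contra [z3,z15,z6,z5,z5,y15]])))), .old [([z1,z0,z0,z0,z1,z0],z2),([z0,z3,z0,z0,
    z0,z0],z2),([z0,z0,z1,z0,y1,z0],z0),([z0,z0,z0,z1,z1,z0],z1)] (.z (.x (.old (.tor k36 false k0 [(z1,[z0,z1]),
    (z1,[z0,z0,z1]),(z1,[z0,z0,z0,z1]),(z1,[y3,y1,y3,y3,z3])])))), .old [([z3,z0,z0,z0,z3,z0],z5),([z0,z3,z0,z0,z0,
    z0],z1),([z0,z0,z3,z0,y3,z0],z1),([z0,z0,z0,z1,z1,z0],z1)] (.z (.x (.old (.lp [(nat_lit 1062),(nat_lit 252),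
    (nat_lit 520),(nat_lit 544),(nat_lit 240),(nat_lit 574)] [k0,k0,(nat_lit 405),(nat_lit 405),(nat_lit 271),
    (nat_lit 271),(nat_lit 259),(nat_lit 259),(nat_lit 411),(nat_lit 411),(nat_lit 244),(nat_lit 244)] k0 [[k0,k0,
    k0,k0,k0,k0,k140],[],[],[],[k0,k0,k0,k0,k0,k112,k0,k0,k0,k42],[k0,k0,k0,k0,k0,k0,k0,k0,k0,k0,k0,k42],[],[k0,
    k140],[k0,k0,k0,k0,k0,k42],[k0,k0,k0,k0,k0,k0,k0,k0,k0,k0,k0,k42],[k0,k0,k0,k0,k42,k0,k0,k0,k42]] (nat_lit 1680)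
    k8 [[(k8,(nat_lit 693)),(k7,(nat_lit 803)),(k10,(nat_lit 818)),(k11,(nat_lit 818)),(k4,(nat_lit 833)),(k1,
    (nat_lit 1062))],[(k9,(nat_lit 511)),(k3,(nat_lit 657)),(k5,(nat_lit 791))],[(k2,(nat_lit 252)),(k6,(nat_lit
    538)),(k0,(nat_lit 657))],[(k9,(nat_lit 246)),(k3,(nat_lit 252)),(k5,(nat_lit 386))],[(k2,(nat_lit 386)),(k6,
    (nat_lit 532)),(k0,(nat_lit 791))],[(k8,(nat_lit 338)),(k4,(nat_lit 408)),(k7,(nat_lit 532)),(k10,(nat_lit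
    547)),(k11,(nat_lit 547)),(k1,(nat_lit 833))],[(k8,(nat_lit 392)),(k10,(nat_lit 517)),(k4,(nat_lit 532)),(k11,
    (nat_lit 601)),(k7,(nat_lit 656)),(k1,(nat_lit 803))],[(k9,(nat_lit 392)),(k5,(nat_lit 532)),(k3,(nat_lit
    538))],[(k2,(nat_lit 246)),(k6,(nat_lit 392)),(k0,(nat_lit 511))],[(k8,(nat_lit 240)),(k4,(nat_lit 338)),(k7,
    (nat_lit 392)),(k10,(nat_lit 407)),(k11,(nat_lit 407)),(k1,(nat_lit 693))],[(k8,(nat_lit 407)),(k10,(nat_lit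
    532)),(k4,(nat_lit 547)),(k11,(nat_lit 574)),(k7,(nat_lit 601)),(k1,(nat_lit 818))],[(k8,(nat_lit 407)),(k7,
    (nat_lit 517)),(k11,(nat_lit 532)),(k4,(nat_lit 547)),(k10,(nat_lit 574)),(k1,(nat_lit 818))]] [[k0,k4],[k0,k8,
    k2],[k1,k3,k9],[k1,k5],[k2,k2,k2,k2,k2,k2],[k3,k3,k3,k3,k3,k3],[k4,k6,k10],[k5,k11,k7],[k6,k8,k6,k8],[k7,k9,k7,
    k9],[k10,k10,k10],[k11,k11,k11]] k28 [[k1,k0,k0,k0,k1,k0],[k0,k2,k0,k0,k0,k0],[k0,k3,k0,k0,k0,k0],[k0,k4,k0,k0,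
    k0,k0],[k0,k5,k0,k0,k0,k0],[k0,k2,k0,k1,k1,k0],[k0,k1,k1,k1,k0,k0],[k0,k1,k0,k1,k1,k0],[k0,k0,k1,k1,k0,k0],[k0,
    k0,k0,k1,k1,k0],[k0,k0,k0,k1,k1,k1],[k0,k0,k0,k0,k0,k2]] [.contra [z6,y2,z1],.contra [z1],.contra [z2,z0,y1],
    .contra [z1,z0,y1],.contra [z2,z0,y3],.contra [z2,z0,y1,z0,y2],.contra [z6,z0,y1,y2,y6],.contra [z1,z0,z0,z0,
    y1],.contra [z3,z0,z1,y1,y3],.contra [z2,z0,z1,z0,y2],.contra [z6,z2,z3,z2,z0,y6],.contra [z3,z2,z3,z2,z6,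
    y6]])))), .old [([z3,z0,z0,z0,z3,z0],z4),([z0,z3,z0,z0,z0,z0],z2),([z0,z0,z3,z0,y3,z0],z2),([z0,z0,z0,z1,z1,z0],
    z1)] (.z (.x (.lp [(nat_lit 2884),(nat_lit 1862),(nat_lit 2800),(nat_lit 1904),(nat_lit 840),(nat_lit 882)] [k0,
    k0,(nat_lit 511),(nat_lit 511),k42,k42,(nat_lit 490),(nat_lit 490),(nat_lit 1022),(nat_lit 1022),(nat_lit 1001),
    (nat_lit 1001)] k0 [] (nat_lit 5880) k8 [[(k8,(nat_lit 1862)),(k10,(nat_lit 1883)),(k11,(nat_lit 1883)),(k7,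
    (nat_lit 2394)),(k4,(nat_lit 2842)),(k1,(nat_lit 2884))],[(k9,(nat_lit 1862)),(k3,(nat_lit 2373)),(k5,(nat_lit
    2842))],[(k2,(nat_lit 1862)),(k6,(nat_lit 1883)),(k0,(nat_lit 2373))],[(k9,(nat_lit 1351)),(k3,(nat_lit 1862)),
    (k5,(nat_lit 2331))],[(k2,(nat_lit 2331)),(k6,(nat_lit 2352)),(k0,(nat_lit 2842))],[(k8,(nat_lit 1820)),(k10,
    (nat_lit 1841)),(k11,(nat_lit 1841)),(k7,(nat_lit 2352)),(k4,(nat_lit 2800)),(k1,(nat_lit 2842))],[(k8,(nat_lit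
    1372)),(k10,(nat_lit 1393)),(k11,(nat_lit 1393)),(k7,(nat_lit 1904)),(k4,(nat_lit 2352)),(k1,(nat_lit 2394))],
    [(k9,(nat_lit 1372)),(k3,(nat_lit 1883)),(k5,(nat_lit 2352))],[(k2,(nat_lit 1351)),(k6,(nat_lit 1372)),(k0,
    (nat_lit 1862))],[(k8,(nat_lit 840)),(k10,(nat_lit 861)),(k11,(nat_lit 861)),(k7,(nat_lit 1372)),(k4,(nat_lit
    1820)),(k1,(nat_lit 1862))],[(k8,(nat_lit 861)),(k10,(nat_lit 882)),(k11,(nat_lit 882)),(k7,(nat_lit 1393)),(k4,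
    (nat_lit 1841)),(k1,(nat_lit 1883))],[(k8,(nat_lit 861)),(k10,(nat_lit 882)),(k11,(nat_lit 882)),(k7,(nat_lit
    1393)),(k4,(nat_lit 1841)),(k1,(nat_lit 1883))]] [[k0,k4],[k0,k8,k2],[k0,k10,k10,k8],[k0,k10,k11,k8],[k0,k11,
    k10,k8],[k0,k11,k11,k8],[k1,k3,k9],[k1,k5],[k1,k9,k10,k10],[k1,k9,k10,k11],[k1,k9,k11,k10],[k1,k9,k11,k11],[k2,
    k2,k2],[k2,k6,k10,k8],[k2,k6,k11,k8],[k3,k3,k3],[k3,k9,k10,k7],[k3,k9,k11,k7],[k4,k6,k10],[k4,k6,k11],[k5,k10,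
    k7],[k5,k11,k7],[k6,k7,k9,k8],[k6,k8,k6,k8],[k6,k10,k10,k10,k8],[k6,k10,k10,k11,k8],[k6,k10,k11,k10,k8],[k6,k10,
    k11,k11,k8],[k6,k11,k10,k10,k8],[k6,k11,k10,k11,k8],[k6,k11,k11,k10,k8],[k6,k11,k11,k11,k8],[k7,k9,k7,k9],[k7,
    k9,k10,k10,k10],[k7,k9,k10,k10,k11],[k7,k9,k10,k11,k10],[k7,k9,k10,k11,k11],[k7,k9,k11,k10,k10],[k7,k9,k11,k10,
    k11],[k7,k9,k11,k11,k10],[k7,k9,k11,k11,k11],[k10,k10,k10,k10,k10,k10],[k10,k10,k10,k10,k10,k11],[k10,k10,k10,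
    k10,k11,k10],[k10,k10,k10,k10,k11,k11],[k10,k10,k10,k11,k10,k10],[k10,k10,k10,k11,k10,k11],[k10,k10,k10,k11,k11,
    k10],[k10,k10,k10,k11,k11,k11],[k10,k10,k11,k10,k10,k10],[k10,k10,k11,k10,k10,k11],[k10,k10,k11,k10,k11,k10],
    [k10,k10,k11,k10,k11,k11],[k10,k10,k11,k11,k10,k10],[k10,k10,k11,k11,k10,k11],[k10,k10,k11,k11,k11,k10],[k10,
    k10,k11,k11,k11,k11],[k10,k11,k10,k10,k10,k10],[k10,k11,k10,k10,k10,k11],[k10,k11,k10,k10,k11,k10],[k10,k11,k10,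
    k10,k11,k11],[k10,k11,k10,k11,k10,k10],[k10,k11,k10,k11,k10,k11],[k10,k11,k10,k11,k11,k10],[k10,k11,k10,k11,k11,
    k11],[k10,k11,k11,k10,k10,k10],[k10,k11,k11,k10,k10,k11],[k10,k11,k11,k10,k11,k10],[k10,k11,k11,k10,k11,k11],
    [k10,k11,k11,k11,k10,k10],[k10,k11,k11,k11,k10,k11],[k10,k11,k11,k11,k11,k10],[k10,k11,k11,k11,k11,k11],[k11,
    k11,k11,k11,k11,k11]] ⟨[[[k0,k4],[k0,k8,k2],[k0,k10,k10,k8],[k0,k10,k11,k8],[k0,k11,k10,k8],[k0,k11,k11,k8],[k1,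
    k3,k9],[k1,k5],[k1,k9,k10,k10],[k1,k9,k10,k11],[k1,k9,k11,k10],[k1,k9,k11,k11]],[[k2,k0,k8],[k2,k2,k2],[k2,k6,
    k10,k8],[k2,k6,k11,k8],[k3,k3,k3],[k3,k9,k1],[k3,k9,k10,k7],[k3,k9,k11,k7],[k4,k0],[k4,k6,k10],[k4,k6,k11],[k5,
    k1]],[[k5,k10,k7],[k5,k11,k7],[k6,k7,k9,k8],[k6,k8,k6,k8],[k6,k10,k4],[k6,k10,k8,k2],[k6,k10,k10,k10,k8],[k6,
    k10,k10,k11,k8],[k6,k10,k11,k10,k8],[k6,k10,k11,k11,k8],[k6,k11,k4],[k6,k11,k8,k2]],[[k6,k11,k10,k10,k8],[k6,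
    k11,k10,k11,k8],[k6,k11,k11,k10,k8],[k6,k11,k11,k11,k8],[k7,k3,k9,k10],[k7,k3,k9,k11],[k7,k5,k10],[k7,k5,k11],
    [k7,k9,k7,k9],[k7,k9,k8,k6],[k7,k9,k10,k10,k10],[k7,k9,k10,k10,k11]],[[k7,k9,k10,k11,k10],[k7,k9,k10,k11,k11],
    [k7,k9,k11,k10,k10],[k7,k9,k11,k10,k11],[k7,k9,k11,k11,k10],[k7,k9,k11,k11,k11],[k8,k0,k10,k10],[k8,k0,k10,k11],
    [k8,k0,k11,k10],[k8,k0,k11,k11],[k8,k2,k0],[k8,k2,k6,k10]],[[k8,k2,k6,k11],[k8,k6,k7,k9],[k8,k6,k8,k6],[k8,k6,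
    k10,k10,k10],[k8,k6,k10,k10,k11],[k8,k6,k10,k11,k10],[k8,k6,k10,k11,k11],[k8,k6,k11,k10,k10],[k8,k6,k11,k10,
    k11],[k8,k6,k11,k11,k10],[k8,k6,k11,k11,k11],[k9,k1,k3]],[[k9,k7,k9,k7],[k9,k8,k6,k7],[k9,k10,k7,k3],[k9,k10,
    k10,k1],[k9,k10,k10,k10,k7],[k9,k10,k10,k11,k7],[k9,k10,k11,k1],[k9,k10,k11,k10,k7],[k9,k10,k11,k11,k7],[k9,k11,
    k7,k3],[k9,k11,k10,k1],[k9,k11,k10,k10,k7]],[[k9,k11,k10,k11,k7],[k9,k11,k11,k1],[k9,k11,k11,k10,k7],[k9,k11,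
    k11,k11,k7],[k10,k1,k9,k10],[k10,k1,k9,k11],[k10,k4,k6],[k10,k7,k3,k9],[k10,k7,k5],[k10,k7,k9,k10,k10],[k10,k7,
    k9,k10,k11],[k10,k7,k9,k11,k10]],[[k10,k7,k9,k11,k11],[k10,k8,k0,k10],[k10,k8,k0,k11],[k10,k8,k2,k6],[k10,k8,k6,
    k10,k10],[k10,k8,k6,k10,k11],[k10,k8,k6,k11,k10],[k10,k8,k6,k11,k11],[k10,k10,k1,k9],[k10,k10,k7,k9,k10],[k10,
    k10,k7,k9,k11],[k10,k10,k8,k0]],[[k10,k10,k8,k6,k10],[k10,k10,k8,k6,k11],[k10,k10,k10,k7,k9],[k10,k10,k10,k8,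
    k6],[k10,k10,k10,k10,k10,k10],[k10,k10,k10,k10,k10,k11],[k10,k10,k10,k10,k11,k10],[k10,k10,k10,k10,k11,k11],
    [k10,k10,k10,k11,k10,k10],[k10,k10,k10,k11,k10,k11],[k10,k10,k10,k11,k11,k10],[k10,k10,k10,k11,k11,k11]],[[k10,
    k10,k11,k7,k9],[k10,k10,k11,k8,k6],[k10,k10,k11,k10,k10,k10],[k10,k10,k11,k10,k10,k11],[k10,k10,k11,k10,k11,
    k10],[k10,k10,k11,k10,k11,k11],[k10,k10,k11,k11,k10,k10],[k10,k10,k11,k11,k10,k11],[k10,k10,k11,k11,k11,k10],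
    [k10,k10,k11,k11,k11,k11],[k10,k11,k1,k9],[k10,k11,k7,k9,k10]],[[k10,k11,k7,k9,k11],[k10,k11,k8,k0],[k10,k11,k8,
    k6,k10],[k10,k11,k8,k6,k11],[k10,k11,k10,k7,k9],[k10,k11,k10,k8,k6],[k10,k11,k10,k10,k10,k10],[k10,k11,k10,k10,
    k10,k11],[k10,k11,k10,k10,k11,k10],[k10,k11,k10,k10,k11,k11],[k10,k11,k10,k11,k10,k10],[k10,k11,k10,k11,k10,
    k11]],[[k10,k11,k10,k11,k11,k10],[k10,k11,k10,k11,k11,k11],[k10,k11,k11,k7,k9],[k10,k11,k11,k8,k6],[k10,k11,k11,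
    k10,k10,k10],[k10,k11,k11,k10,k10,k11],[k10,k11,k11,k10,k11,k10],[k10,k11,k11,k10,k11,k11],[k10,k11,k11,k11,k10,
    k10],[k10,k11,k11,k11,k10,k11],[k10,k11,k11,k11,k11,k10],[k10,k11,k11,k11,k11,k11]],[[k11,k1,k9,k10],[k11,k1,k9,
    k11],[k11,k4,k6],[k11,k7,k3,k9],[k11,k7,k5],[k11,k7,k9,k10,k10],[k11,k7,k9,k10,k11],[k11,k7,k9,k11,k10],[k11,k7,
    k9,k11,k11],[k11,k8,k0,k10],[k11,k8,k0,k11],[k11,k8,k2,k6]],[[k11,k8,k6,k10,k10],[k11,k8,k6,k10,k11],[k11,k8,k6,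
    k11,k10],[k11,k8,k6,k11,k11],[k11,k10,k1,k9],[k11,k10,k7,k9,k10],[k11,k10,k7,k9,k11],[k11,k10,k8,k0],[k11,k10,
    k8,k6,k10],[k11,k10,k8,k6,k11],[k11,k10,k10,k7,k9],[k11,k10,k10,k8,k6]],[[k11,k10,k10,k10,k10,k10],[k11,k10,k10,
    k10,k10,k11],[k11,k10,k10,k10,k11,k10],[k11,k10,k10,k10,k11,k11],[k11,k10,k10,k11,k10,k10],[k11,k10,k10,k11,k10,
    k11],[k11,k10,k10,k11,k11,k10],[k11,k10,k10,k11,k11,k11],[k11,k10,k11,k7,k9],[k11,k10,k11,k8,k6],[k11,k10,k11,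
    k10,k10,k10],[k11,k10,k11,k10,k10,k11]],[[k11,k10,k11,k10,k11,k10],[k11,k10,k11,k10,k11,k11],[k11,k10,k11,k11,
    k10,k10],[k11,k10,k11,k11,k10,k11],[k11,k10,k11,k11,k11,k10],[k11,k10,k11,k11,k11,k11],[k11,k11,k1,k9],[k11,k11,
    k7,k9,k10],[k11,k11,k7,k9,k11],[k11,k11,k8,k0],[k11,k11,k8,k6,k10],[k11,k11,k8,k6,k11]],[[k11,k11,k10,k7,k9],
    [k11,k11,k10,k8,k6],[k11,k11,k10,k10,k10,k10],[k11,k11,k10,k10,k10,k11],[k11,k11,k10,k10,k11,k10],[k11,k11,k10,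
    k10,k11,k11],[k11,k11,k10,k11,k10,k10],[k11,k11,k10,k11,k10,k11],[k11,k11,k10,k11,k11,k10],[k11,k11,k10,k11,k11,
    k11],[k11,k11,k11,k7,k9],[k11,k11,k11,k8,k6]],[[k11,k11,k11,k10,k10,k10],[k11,k11,k11,k10,k10,k11],[k11,k11,k11,
    k10,k11,k10],[k11,k11,k11,k10,k11,k11],[k11,k11,k11,k11,k10,k10],[k11,k11,k11,k11,k10,k11],[k11,k11,k11,k11,k11,
    k10],[k11,k11,k11,k11,k11,k11]]],[[k20,k58,k107,k133,k175,(nat_lit 201),k17,k23,k75,k78,k82,k85],[k1,k13,k29,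
    k35,k16,k71,k74,k81,k0,k28,k34,k7],[k92,k160,k45,k62,k90,k99,k111,k121,k137,k147,k158,k167],[k179,k189,(nat_lit
    205),(nat_lit 215),k18,k19,k24,k25,k72,k73,k76,k77],[k79,k80,k83,k84,k86,k87,k2,k3,k4,k5,k12,k14],[k15,k26,k27,
    k30,k31,k32,k33,k36,k37,k38,k39,k6],[k44,k61,k91,k104,k110,k120,k130,k136,k146,k159,k172,k178],[k188,k198,
    (nat_lit 204),(nat_lit 214),k8,k10,k21,k40,k42,k46,k48,k50],[k52,k54,k56,k59,k63,k65,k67,k69,k88,k93,k95,k97],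
    [k100,k102,k105,k108,k112,k114,k116,k118,k122,k124,k126,k128],[k131,k134,k138,k140,k142,k144,k148,k150,k152,
    k154,k156,k161],[k163,k165,k168,k170,k173,k176,k180,k182,k184,k186,k190,k192],[k194,k196,k199,(nat_lit 202),
    (nat_lit 206),(nat_lit 208),(nat_lit 210),(nat_lit 212),(nat_lit 216),(nat_lit 218),(nat_lit 220),(nat_lit
    222)],[k9,k11,k22,k41,k43,k47,k49,k51,k53,k55,k57,k60],[k64,k66,k68,k70,k89,k94,k96,k98,k101,k103,k106,k109],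
    [k113,k115,k117,k119,k123,k125,k127,k129,k132,k135,k139,k141],[k143,k145,k149,k151,k153,k155,k157,k162,k164,
    k166,k169,k171],[k174,k177,k181,k183,k185,k187,k191,k193,k195,k197,(nat_lit 200),(nat_lit 203)],[(nat_lit 207),
    (nat_lit 209),(nat_lit 211),(nat_lit 213),(nat_lit 217),(nat_lit 219),(nat_lit 221),(nat_lit 223)]],[[k20,k12,
    k54,k55,k56,k57,k71,k23,k88,k156,k89,k157],[k58,k13,k59,k60,k16,k6,k40,k41,k0,k90,k158,k7],[k42,k43,k61,k62,k21,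
    k14,k63,k64,k65,k66,k22,k15],[k67,k68,k69,k70,k91,k159,k92,k160,k72,k26,k93,k161],[k94,k162,k95,k163,k96,k164,
    k97,k165,k98,k166,k1,k99],[k167,k73,k27,k100,k168,k101,k169,k102,k170,k103,k171,k17],[k44,k45,k18,k8,k46,k47,k9,
    k48,k49,k19,k10,k50],[k51,k11,k52,k53,k104,k172,k28,k74,k24,k105,k173,k106],[k174,k107,k175,k29,k108,k176,k109,
    k177,k75,k110,k178,k2],[k111,k179,k76,k30,k112,k180,k113,k181,k114,k182,k115,k183],[k77,k31,k116,k184,k117,k185,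
    k118,k186,k119,k187,k78,k120],[k188,k3,k121,k189,k79,k32,k122,k190,k123,k191,k124,k192],[k125,k193,k80,k33,k126,
    k194,k127,k195,k128,k196,k129,k197],[k130,k198,k34,k81,k25,k131,k199,k132,(nat_lit 200),k133,(nat_lit 201),k35],
    [k134,(nat_lit 202),k135,(nat_lit 203),k82,k136,(nat_lit 204),k4,k137,(nat_lit 205),k83,k36],[k138,(nat_lit
    206),k139,(nat_lit 207),k140,(nat_lit 208),k141,(nat_lit 209),k84,k37,k142,(nat_lit 210)],[k143,(nat_lit 211),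
    k144,(nat_lit 212),k145,(nat_lit 213),k85,k146,(nat_lit 214),k5,k147,(nat_lit 215)],[k86,k38,k148,(nat_lit 216),
    k149,(nat_lit 217),k150,(nat_lit 218),k151,(nat_lit 219),k87,k39],[k152,(nat_lit 220),k153,(nat_lit 221),k154,
    (nat_lit 222),k155,(nat_lit 223)]],[[[k90,k99,k111,k121,k137,k147],[k88,k93,k95,k97,k100,k102,k105,k108,k112,
    k114,k116,k118,k122,k124,k126,k128,k131,k134,k138,k140,k142,k144,k148,k150,k152,k154],[k107,k133],[k107,k133],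
    [k91,k104,k110,k120,k130,k136,k146],[k91,k104,k110,k120,k130,k136,k146],[k17],[k16],[k18,k19],[k18,k19],[k18,
    k19],[k18,k19]],[[k1],[k0],[k2,k3,k4,k5],[k2,k3,k4,k5],[k23],[k24,k25],[k24,k25],[k24,k25],[k13],[k12,k14,k15],
    [k12,k14,k15],[k41,k43,k47,k49,k51,k53]],[[],[k44],[],[k21],[k20],[k20],[k20],[k20],[k20],[k20],[],[]],[[],[],
    [],[],[k75,k78,k82,k85],[k75,k78,k82,k85],[k71,k74,k81],[k71,k74,k81],[k72,k73,k76,k77,k79,k80,k83,k84,k86,k87],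
    [k72,k73,k76,k77,k79,k80,k83,k84,k86,k87],[k72,k73,k76,k77,k79,k80,k83,k84,k86,k87],[k72,k73,k76,k77,k79,k80,
    k83,k84,k86,k87]],[[k72,k73,k76,k77,k79,k80,k83,k84,k86,k87],[k72,k73,k76,k77,k79,k80,k83,k84,k86,k87],[k72,k73,
    k76,k77,k79,k80,k83,k84,k86,k87],[k72,k73,k76,k77,k79,k80,k83,k84,k86,k87],[k72,k73,k76,k77,k79,k80,k83,k84,k86,
    k87],[k72,k73,k76,k77,k79,k80,k83,k84,k86,k87],[k29,k35],[k29,k35],[k29,k35],[k29,k35],[k28,k34],[k28,k34]],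
    [[k28,k34],[k26,k27,k30,k31,k32,k33,k36,k37,k38,k39],[k26,k27,k30,k31,k32,k33,k36,k37,k38,k39],[k26,k27,k30,k31,
    k32,k33,k36,k37,k38,k39],[k26,k27,k30,k31,k32,k33,k36,k37,k38,k39],[k26,k27,k30,k31,k32,k33,k36,k37,k38,k39],
    [k26,k27,k30,k31,k32,k33,k36,k37,k38,k39],[k26,k27,k30,k31,k32,k33,k36,k37,k38,k39],[k26,k27,k30,k31,k32,k33,
    k36,k37,k38,k39],[k26,k27,k30,k31,k32,k33,k36,k37,k38,k39],[k26,k27,k30,k31,k32,k33,k36,k37,k38,k39],[k157,k162,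
    k164,k166,k169,k171,k174,k177,k181,k183,k185,k187,k191,k193,k195,k197,(nat_lit 200),(nat_lit 203),(nat_lit 207),
    (nat_lit 209),(nat_lit 211),(nat_lit 213),(nat_lit 217),(nat_lit 219),(nat_lit 221),(nat_lit 223)]],[[k160],
    [k156,k161,k163,k165,k168,k170,k173,k176,k180,k182,k184,k186,k190,k192,k194,k196,k199,(nat_lit 202),(nat_lit
    206),(nat_lit 208),(nat_lit 210),(nat_lit 212),(nat_lit 216),(nat_lit 218),(nat_lit 220),(nat_lit 222)],[k175,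
    (nat_lit 201)],[k175,(nat_lit 201)],[k175,(nat_lit 201)],[k175,(nat_lit 201)],[k175,(nat_lit 201)],[k175,
    (nat_lit 201)],[k175,(nat_lit 201)],[k159,k172,k178,k188,k198,(nat_lit 204),(nat_lit 214)],[k159,k172,k178,k188,
    k198,(nat_lit 204),(nat_lit 214)],[k159,k172,k178,k188,k198,(nat_lit 204),(nat_lit 214)]],[[k159,k172,k178,k188,
    k198,(nat_lit 204),(nat_lit 214)],[k159,k172,k178,k188,k198,(nat_lit 204),(nat_lit 214)],[k159,k172,k178,k188,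
    k198,(nat_lit 204),(nat_lit 214)],[k159,k172,k178,k188,k198,(nat_lit 204),(nat_lit 214)],[k55,k57,k60,k64,k66,
    k68,k70],[k55,k57,k60,k64,k66,k68,k70],[k62],[],[],[],[],[]],[[],[k54,k56,k59,k63,k65,k67,k69],[k54,k56,k59,k63,
    k65,k67,k69],[k54,k56,k59,k63,k65,k67,k69],[k54,k56,k59,k63,k65,k67,k69],[k54,k56,k59,k63,k65,k67,k69],[k54,k56,
    k59,k63,k65,k67,k69],[k54,k56,k59,k63,k65,k67,k69],[k58],[k58],[k58],[k58]],[[k58],[k58],[k58],[k58],[k58],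
    [k58],[k58],[k58],[k58],[k58],[k58],[k58]],[[k58],[k58],[k58],[k58],[k58],[k58],[k58],[k58],[k58],[k58],[k61],
    [k61]],[[k61],[k61],[k61],[k61],[k61],[k61],[k61],[k61],[k61],[k61],[k61],[k61]],[[k61],[k61],[k61],[k61],[k61],
    [k61],[k61],[k61],[k61],[k61],[k61],[k61]],[[k9,k11],[k9,k11],[],[k7],[k7],[k7],[k7],[k7],[k7],[k8,k10],[k8,
    k10],[k8,k10]],[[k8,k10],[k8,k10],[k8,k10],[k8,k10],[],[],[],[],[],[],[],[]],[[],[],[],[],[],[],[],[],[],[],[],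
    []],[[],[],[],[],[],[],[k6],[k6],[k6],[k6],[k6],[k6]],[[k6],[k6],[k6],[k6],[k6],[k6],[k6],[k6],[k6],[k6],[k6],
    [k6]],[[k6],[k6],[k6],[k6],[k6],[k6],[k6],[k6]]],(nat_lit 224)⟩ k2 k2 k98 [[k1,k0,k0,k0,k1,k0],[k1,k0,k0,k0,k1,
    k1],[k0,k2,k0,k0,k0,k0],[k0,k1,k0,k1,k1,k0],[k0,k0,k1,k1,k0,k0],[k0,k0,k0,k1,k1,k0],[k0,k0,k0,k1,k1,k1],[k0,k0,
    k0,k1,k1,k2],[k0,k0,k0,k0,k0,k2],[k0,k0,k0,k0,k0,k3],[k0,k0,k0,k0,k0,k4],[k0,k0,k0,k0,k0,k5]] [.contra [z3,y1,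
    z2],.contra [z3,z0,z2,z1,z3,y3],.contra [z1],.contra [z1,z0,z0,z0,y1],.contra [z3,z0,z1,y1,y3],.contra [z1,z0,
    z1,z0,y1],.contra [z3,z1,z3,z1,z0,y3],.contra [z3,z2,z3,z2,z3,y6],.contra [z3,z2,z6,z2,z6,y6],.contra [z1,z1,z2,
    z1,z3,y3],.contra [z3,z4,z6,z4,z12,y12],.contra [z3,z5,z6,z5,z15,y15]]))), .old [([z1,z0,z1,z0,z0,z0],z2),([z0,
    z2,z0,z0,z0,z0],z1),([z0,z0,z0,z1,z0,z1],z1)] (.z (.x (.old (.leafM k9 [k5,k1,k3,k4] [(z1,[z0,z1]),(z1,[y2,y1,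
    y2,z2]),(z1,[z0,z0,z1])] [(k0,k2,z1,[z1]),(k2,k0,z1,[z1])])))), .old [([z1,z0,z1,z0,z0,z0],z2),([z0,z3,z0,z0,z0,
    z0],z2),([z0,z0,z0,z1,z0,z1],z1)] (.z (.x (.old (.leafM k8 [k5,k1,k3,k4] [(z1,[z0,z1]),(z1,[y3,y1,y3,z3]),(z1,
    [z0,z0,z1])] [(k0,k2,z1,[z1]),(k2,k0,z1,[z1])])))), .old [([z1,z1,z1,z1,z0,z0],z2)] (.z (.x (.old (.leafM k1
    [k2,k3,k0,k1] [] [(k4,k5,z1,[y1,z1]),(k5,k4,z1,[y1,z1])]))))], [.old [([z1,z1,z1,z0,z0,z0],z2)] (.z (.x (.old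
    (.leafM k4 [k0,k1,k2,k3,k4,k5] [(z1,[y1,z1])] [])))), .old [([z1,z1,z1,z0,z0,z0],z2)] (.z (.x (.old (.leafM k4
    [k3,k4,k5,k0,k1,k2] [(z1,[z1])] [])))), .old [([z1,z1,z0,z0,z0,z0],z2)] (.z (.x (.old (.leafM k0 [k2,k3,k4,k5]
    [] [(k0,k1,z1,[z1]),(k1,k0,z1,[z1])])))), .old [([z1,z1,z1,z1,z0,z0],z2)] (.z (.x (.old (.leafM k2 [k1,k2,k3,k0]
    [] [(k4,k5,z1,[y1,z1]),(k5,k4,z1,[y1,z1])])))), .old [([z1,z0,z0,z1,z0,z0],z1),([z0,z1,z1,z0,z0,z0],z1)] (.z (.x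
    (.old (.leafM k4 [k0,k1,k2,k3] [(z1,[z0,z1])] [(k4,k5,z1,[y1,y1,z1]),(k5,k4,z1,[y1,y1,z1])]))))]]

/-- table of certificates in the old format -/
noncomputable def xt6 : List CertX := []

end Pool.Agent.Lib_MP_fa6e45
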