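import Pool.Agent.Lib_MP_fa6e45.CQ4
import Pool.Agent.Lib_MP_fa6e45.CXTg
import Pool.Agent.Lib_MP_fa6e45.HK

/-!
MP_fa6e45_co, stage 9: certificates for the theorem T6 (generated by a program).
-/

namespace Pool.Agent.Lib_MP_fa6e45

/-- table of nodes in the old format -/
noncomputable def r6_2_lf : List (List (QN PN)) :=
  [[.old [([z1,z0,z0,z1,z0,z0],z2)] (.z (.x (.old (.leafM k6 [k1,k2,k4,k5] [] [(k3,k0,z1,[z1]),(k0,k3,z1,[z1])])))),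
    .old [([z1,z0,z0,z0,z1,z1],z2)] (.z (.x (.old (.leafM k6 [k1,k2,k3,k4,k5,k0] [(z1,[z1])] [])))), .old [([z1,z0,
    z1,z0,z1,z0],z2)] (.z (.x (.old (.leafM k1 [k0,k1,k2,k3,k4,k5] [(z1,[y1,z1]),(z1,[z1])] [])))), .old [([z1,z0,
    z0,z0,z0,z1],z2),([z0,z1,z0,z0,z0,y1],z0)] (.z (.x (.old (.tor k3 false k2 [(z1,[z1,z1]),(z1,[z1]),(z1,[y1,z0,
    z1]),(z1,[y1,y1,z1])])))), .old [([z2,z0,z0,z0,z1,z0],z2),([z0,z2,z0,z0,z1,z0],z2),([z0,z0,z2,z0,y1,z0],z2)] (.z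
    (.x (.old (.tor k22 true k3 [(z1,[z0,z1]),(z2,[z1,z0,z1]),(z2,[z0,y1,y1,z2]),(z2,[y1,y1,z0,z2])])))), .old
    [([z1,z0,z1,z0,z0,z0],z1),([z0,z2,z0,z0,z0,z0],z1),([z0,z0,z0,z1,z0,z1],z2)] (.z (.x (.old (.leafM k12 [k0,k1,
    k2,k4] [(z1,[z0,z1]),(z1,[y2,y1,y2,z2]),(z1,[z1])] [(k3,k5,z1,[z0,z0,z1]),(k5,k3,z1,[z0,z0,z1])])))), .old
    [([z1,z0,z1,z0,z0,z0],z1),([z0,z3,z0,z0,z0,z0],z2),([z0,z0,z0,z1,z0,z1],z2)] (.z (.x (.old (.leafM k11 [k0,k1,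
    k2,k4] [(z1,[z0,z1]),(z1,[y3,y1,y3,z3]),(z1,[z1])] [(k3,k5,z1,[z0,z0,z1]),(k5,k3,z1,[z0,z0,z1])])))), .old
    [([z1,z0,z0,z0,z0,y2],z0),([z0,z1,z0,z0,z0,z5],z2),([z0,z0,z1,z0,z0,y2],z0),([z0,z0,z0,z1,z0,y2],z0)] (.z (.x
    (.geo true z1 k5 [(z0,z2),(z2,y5),(z0,z2),(z0,z2),(z2,y2),(z0,z1)] [(z1,[z1]),(z1,[z0,z1]),(z1,[z0,z0,z1]),(z1,
    [z0,z0,z0,z1]),(z1,[y1,y1,y1,y1,z1]),(z1,[])] z0 (Int.ofNat (nat_lit 419431)) (.s (.s (.s (.s (.l k2) (.l k1))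
    (.l k1)) (.s (.l k1) (.l k1))) (.s (.s (.l k1) (.l k1)) (.l k1))) [⟨z0,z1,[[k0,k1],[k2,k3],[k4,k5]],.bnd
    k0⟩]))), .old [([z1,z0,z0,z0,z0,y2],z0),([z0,z1,z0,z0,z0,z4],z2),([z0,z0,z1,z0,z0,y4],z0),([z0,z0,z0,z1,z0,y4],
    z0)] (.z (.x (.geo true z1 k5 [(z0,z2),(z2,y4),(z0,z4),(z0,z4),(z2,y7),(z0,z1)] [(z1,[z1]),(z1,[z0,z1]),(z1,[z0,
    z0,z1]),(z1,[z0,z0,z0,z1]),(z1,[y1,y1,y1,y1,z1]),(z1,[])] z0 (Int.ofNat (nat_lit 299594)) (.s (.s (.s (.s (.s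
    (.l k2) (.l k1)) (.l k1)) (.l k1)) (.l k1)) (.l k1)) [⟨z0,z1,[[k0,k1],[k2,k3],[k4,k5]],.bnd k0⟩]))), .old [([z2,
    z0,z0,z0,z0,z1],z2),([z0,z2,z0,z0,z0,y1],z0),([z0,z0,z2,z0,z0,z1],z2),([z0,z0,z0,z2,z0,y1],z0)] (.z (.x (.geo
    true z2 k5 [(z2,y1),(z0,z1),(z2,y1),(z0,z1),(z4,y2),(z0,z2)] [(z1,[z1]),(z1,[z0,z1]),(z1,[z0,z0,z1]),(z1,[z0,z0,
    z0,z1]),(z1,[y1,y1,y1,y1,z2]),(z1,[])] z0 (Int.ofNat (nat_lit 2097152)) (.s (.s (.l k2) (.l k1)) (.s (.l k1) (.l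
    k3))) [⟨z0,z1,[[k0,k1],[k2,k3],[k4,k5]],.bnd k1⟩,⟨z2,z1,[[k0,k2],[k1,k3],[k4,k5]],.bnd k0⟩]))), .old [([z1,z0,
    z0,z1,z0,z1],z2),([z0,z1,z0,z0,z1,z1],z2)] (.z (.x (.old (.tor k2 false k0 [(z1,[z0,z1]),(z1,[y1,z0,z1]),(z1,
    [z1]),(z1,[z0,y1,z1])])))), .old [([z1,z0,z0,z0,z0,y3],z0),([z0,z1,z0,z0,z0,y4],z0),([z0,z0,z1,z0,z0,z4],z2),
    ([z0,z0,z0,z1,z0,y2],z0)] (.z (.x (.geo true z1 k5 [(z0,z3),(z0,z4),(z2,y4),(z0,z2),(z2,y6),(z0,z1)] [(z1,[z1]),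
    (z1,[z0,z1]),(z1,[z0,z0,z1]),(z1,[z0,z0,z0,z1]),(z1,[y1,y1,y1,y1,z1]),(z1,[])] z0 (Int.ofNat (nat_lit 349526))
    (.s (.s (.l k2) (.l k1)) (.l k1)) [⟨z0,z1,[[k0,k1],[k2,k3],[k4,k5]],.bnd k0⟩]))), .old [([z1,z0,z0,z0,z0,y2],
    z0),([z0,z1,z0,z0,z0,y1],z0),([z0,z0,z1,z0,z0,z2],z2),([z0,z0,z0,z1,z0,y2],z0)] (.z (.x (.geo true z1 k5 [(z0,
    z2),(z0,z1),(z2,y2),(z0,z2),(z2,y4),(z0,z1)] [(z1,[z1]),(z1,[z0,z1]),(z1,[z0,z0,z1]),(z1,[z0,z0,z0,z1]),(z1,[y1,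
    y1,y1,y1,z1]),(z1,[])] z0 (Int.ofNat (nat_lit 524288)) (.s (.s (.l k2) (.l k1)) (.l k1)) [⟨z0,z1,[[k0,k1],[k2,
    k3],[k4,k5]],.bnd k0⟩]))), .old [([z1,z0,z0,z0,z0,y2],z0),([z0,z1,z0,z0,z0,z2],z2),([z0,z0,z1,z0,z0,y1],z0),
    ([z0,z0,z0,z1,z0,y2],z0)] (.z (.x (.geo true z1 k5 [(z0,z2),(z2,y2),(z0,z1),(z0,z2),(z2,y4),(z0,z1)] [(z1,[z1]),
    (z1,[z0,z1]),(z1,[z0,z0,z1]),(z1,[z0,z0,z0,z1]),(z1,[y1,y1,y1,y1,z1]),(z1,[])] z0 (Int.ofNat (nat_lit 524288))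
    (.s (.s (.s (.s (.l k2) (.l k1)) (.l k1)) (.s (.l k1) (.l k1))) (.s (.s (.l k1) (.l k1)) (.l k1))) [⟨z0,z1,[[k0,
    k1],[k2,k3],[k4,k5]],.bnd k0⟩]))), .old [([z4,z0,z0,z0,z0,z1],z4),([z0,z2,z0,z0,z0,y1],z0),([z0,z0,z4,z0,z0,z3],
    z4),([z0,z0,z0,z2,z0,y1],z0)] (.z (.x (.geo true z4 k5 [(z4,y1),(z0,z2),(z4,y3),(z0,z2),(z8,y4),(z0,z4)] [(z1,
    [z1]),(z1,[z0,z2]),(z1,[z0,z0,z1]),(z1,[z0,z0,z0,z2]),(z1,[y1,y2,y1,y2,z4]),(z1,[])] z0 (Int.ofNat (nat_lit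
    1398102)) (.s (.s (.l k2) (.l k1)) (.l k1)) [⟨z0,z1,[[k0,k1],[k2,k3],[k4,k5]],.bnd k1⟩]))), .old [([z1,z0,z0,z0,
    z0,y3],z0),([z0,z1,z0,z0,z0,y2],z0),([z0,z0,z1,z0,z0,z4],z2),([z0,z0,z0,z1,z0,y4],z0)] (.z (.x (.geo true z1 k5
    [(z0,z3),(z0,z2),(z2,y4),(z0,z4),(z2,y6),(z0,z1)] [(z1,[z1]),(z1,[z0,z1]),(z1,[z0,z0,z1]),(z1,[z0,z0,z0,z1]),
    (z1,[y1,y1,y1,y1,z1]),(z1,[])] z0 (Int.ofNat (nat_lit 349526)) (.s (.s (.l k2) (.l k1)) (.l k1)) [⟨z0,z1,[[k0,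
    k1],[k2,k3],[k4,k5]],.bnd k0⟩])))], [.old [([z3,z0,z0,z0,z0,z0],z1),([z0,z1,z0,z0,z0,z1],z1),([z0,z0,z1,z0,z1,
    z0],z2)] (.z (.x (.old (.leafM k11 [k1,k3,k5,k0] [(z1,[y1,y3,y3,z3]),(z1,[z1]),(z1,[z0,z1])] [(k2,k4,z1,[z0,z0,
    z1]),(k4,k2,z1,[z0,z0,z1])])))), .old [([z3,z0,z0,z0,z0,z0],z2),([z0,z3,z0,z0,z0,z3],z2),([z0,z0,z1,z0,z1,z0],
    z2)] (.z (.x (.old (.leafM k10 [k1,k3,k5,k0] [(z1,[y1,y1,y3,z3]),(z1,[z1]),(z1,[z0,z1])] [(k2,k4,z1,[z0,z0,z1]),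
    (k4,k2,z1,[z0,z0,z1])])))), .old [([z1,z0,z0,z0,z2,z1],z2),([z0,z1,z0,z0,y1,y1],z0),([z0,z0,z1,z0,z1,z1],z2)]
    (.z (.x (.old (.tor k27 true k5 [(z1,[z0,z1,z1]),(z1,[z0,z0,y1,z1]),(z1,[y1,y1,z0,z1]),(z1,[z1])])))), .old
    [([z1,z0,z0,z0,z0,y2],y2),([z0,z1,z0,z0,z0,z1],z2),([z0,z0,z1,z0,z0,z2],z3),([z0,z0,z0,z1,z0,y1],y1)] (.z (.x
    (.geo true z1 k5 [(y2,z2),(z2,y1),(z3,y2),(y1,z1),(z2,y1),(z0,z1)] [(z1,[z1]),(z1,[z0,z1]),(z1,[z0,z0,z1]),(z1,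
    [z0,z0,z0,z1]),(z1,[y1,y1,y1,y1,z1]),(z1,[])] (Int.ofNat (nat_lit 1048576)) (Int.ofNat (nat_lit 1572864)) (.s
    (.s (.s (.l k2) (.l k1)) (.l k1)) (.l k1)) [⟨z1,z1,[[k0,k3],[k1,k4],[k2,k5]],.bnd k0⟩]))), .old [([z1,z0,z0,z0,
    z0,y2],z0),([z0,z1,z0,z0,z0,z2],z2),([z0,z0,z1,z0,z0,z2],z2),([z0,z0,z0,z1,z0,y3],y2)] (.z (.x (.geo true z1 k5
    [(z0,z2),(z2,y2),(z2,y2),(y2,z3),(z2,y2),(z0,z1)] [(z1,[z1]),(z1,[z0,z1]),(z1,[z0,z0,z1]),(z1,[z0,z0,z0,z1]),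
    (z1,[y1,y1,y1,y1,z1]),(z1,[])] (Int.ofNat (nat_lit 699050)) (Int.ofNat (nat_lit 1048576)) (.s (.l k1) (.s (.l
    k1) (.s (.l k1) (.s (.l k1) (.l k2))))) [⟨z1,z1,[[k0,k1],[k2,k4],[k3,k5]],.bnd k0⟩]))), .old [([z1,z0,z0,z0,z0,
    y1],z0),([z0,z1,z0,z0,z0,z1],z2),([z0,z0,z3,z0,z0,z0],z2),([z0,z0,z0,z1,z0,y1],z0)] (.z (.x (.geo true z3 k5
    [(z0,z3),(z6,y3),(z2,z0),(z0,z3),(z4,y6),(z0,z3)] [(z1,[z3]),(z1,[z0,z3]),(z1,[z0,z0,z1]),(z1,[z0,z0,z0,z3]),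
    (z1,[y3,y3,y1,y3,z3]),(z1,[])] z0 (Int.ofNat (nat_lit 699051)) (.s (.s (.s (.l k2) (.l k1)) (.s (.l k1) (.l
    k1))) (.s (.l k1) (.l k1))) [⟨z0,z1,[[k0,k1],[k2,k3],[k4,k5]],.bnd k0⟩]))), .old [([z1,z0,z0,z0,z0,y1],z0),([z0,
    z1,z0,z0,z0,z1],z2),([z0,z0,z2,z0,z0,z0],z1),([z0,z0,z0,z1,z0,y1],z0)] (.z (.x (.geo true z2 k5 [(z0,z2),(z4,
    y2),(z1,z0),(z0,z2),(z3,y4),(z0,z2)] [(z1,[z2]),(z1,[z0,z2]),(z1,[z0,z0,z1]),(z1,[z0,z0,z0,z2]),(z1,[y2,y2,y1,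
    y2,z2]),(z1,[])] z0 (Int.ofNat (nat_lit 786432)) (.s (.s (.s (.s (.l k2) (.l k1)) (.l k1)) (.s (.l k1) (.l k1)))
    (.s (.l k1) (.l k1))) [⟨z0,z1,[[k0,k1],[k2,k3],[k4,k5]],.bnd k0⟩]))), .old [([z2,z0,z0,z0,z0,y3],y4),([z0,z1,z0,
    z0,z0,z1],z2),([z0,z0,z2,z0,z0,y1],z0),([z0,z0,z0,z1,z0,z1],z2)] (.z (.x (.geo true z2 k5 [(y4,z3),(z4,y2),(z0,
    z1),(z4,y2),(z4,y2),(z0,z2)] [(z1,[z1]),(z1,[z0,z2]),(z1,[z0,z0,z1]),(z1,[z0,z0,z0,z2]),(z1,[y1,y2,y1,y2,z2]),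
    (z1,[])] (Int.ofNat (nat_lit 1398101)) (Int.ofNat (nat_lit 2097152)) (.s (.s (.l k1) (.l k1)) (.s (.l k1) (.s
    (.l k1) (.s (.l k1) (.l k2))))) [⟨z2,z1,[[k0,k1],[k2,k3],[k4,k5]],.bnd k1⟩]))), .old [([z1,z0,z0,z0,z0,y4],y6),
    ([z0,z1,z0,z0,z0,z1],z2),([z0,z0,z1,z0,z0,z2],z4),([z0,z0,z0,z1,z0,z1],z2)] (.z (.x (.geo true z1 k5 [(y6,z4),
    (z2,y1),(z4,y2),(z2,y1),(z2,y1),(z0,z1)] [(z1,[z1]),(z1,[z0,z1]),(z1,[z0,z0,z1]),(z1,[z0,z0,z0,z1]),(z1,[y1,y1,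
    y1,y1,z1]),(z1,[])] (Int.ofNat (nat_lit 1572864)) (Int.ofNat (nat_lit 2097152)) (.s (.s (.s (.l k1) (.l k1)) (.s
    (.l k1) (.l k1))) (.s (.s (.l k1) (.l k1)) (.s (.s (.l k1) (.l k1)) (.s (.l k1) (.s (.l k1) (.s (.l k1) (.l
    k2))))))) [⟨z2,z1,[[k0,k1],[k2,k3],[k4,k5]],.bnd k0⟩]))), .old [([z1,z0,z0,z0,z0,y2],z0),([z0,z1,z0,z0,z0,z1],
    z2),([z0,z0,z1,z0,z0,y1],z0),([z0,z0,z0,z1,z0,y1],z0)] (.z (.x (.geo true z1 k5 [(z0,z2),(z2,y1),(z0,z1),(z0,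
    z1),(z2,y4),(z0,z1)] [(z1,[z1]),(z1,[z0,z1]),(z1,[z0,z0,z1]),(z1,[z0,z0,z0,z1]),(z1,[y1,y1,y1,y1,z1]),(z1,[])]
    z0 (Int.ofNat (nat_lit 524288)) (.s (.s (.s (.s (.l k2) (.l k1)) (.l k1)) (.s (.l k1) (.l k1))) (.s (.l k1) (.l
    k1))) [⟨z0,z1,[[k0,k1],[k2,k3],[k4,k5]],.bnd k0⟩]))), .old [([z1,z0,z0,z0,z0,y2],z0),([z0,z1,z0,z0,z0,z2],z2),
    ([z0,z0,z1,z0,z0,z2],z1),([z0,z0,z0,z1,z0,y2],z0)] (.z (.x (.geo true z1 k5 [(z0,z2),(z2,y2),(z1,y2),(z0,z2),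
    (z1,y1),(z0,z1)] [(z1,[z1]),(z1,[z0,z1]),(z1,[z0,z0,z1]),(z1,[z0,z0,z0,z1]),(z1,[y1,y1,y1,y1,z1]),(z1,[])] z0
    (Int.ofNat (nat_lit 524288)) (.s (.s (.s (.s (.l k2) (.l k1)) (.l k1)) (.l k1)) (.s (.s (.l k1) (.l k1)) (.s (.l
    k1) (.l k1)))) [⟨z0,z1,[[k0,k1],[k2,k3],[k4,k5]],.bnd k0⟩]))), .old [([z1,z0,z0,z0,z0,y2],z0),([z0,z1,z0,z0,z0,
    z2],z2),([z0,z0,z1,z0,z0,y3],z0),([z0,z0,z0,z1,z0,y2],z0)] (.z (.x (.geo true z1 k5 [(z0,z2),(z2,y2),(z0,z3),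
    (z0,z2),(z2,y6),(z0,z1)] [(z1,[z1]),(z1,[z0,z1]),(z1,[z0,z0,z1]),(z1,[z0,z0,z0,z1]),(z1,[y1,y1,y1,y1,z1]),(z1,
    [])] z0 (Int.ofNat (nat_lit 349526)) (.s (.s (.s (.s (.l k2) (.l k1)) (.l k1)) (.l k1)) (.s (.l k1) (.l k1)))
    [⟨z0,z1,[[k0,k1],[k2,k3],[k4,k5]],.bnd k0⟩]))), .old [([z1,z0,z0,z0,z0,y3],z0),([z0,z1,z0,z0,z0,z3],z2),([z0,z0,
    z1,z0,z0,y2],z0),([z0,z0,z0,z1,z0,y3],z0)] (.z (.x (.geo true z1 k5 [(z0,z3),(z2,y3),(z0,z2),(z0,z3),(z2,y6),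
    (z0,z1)] [(z1,[z1]),(z1,[z0,z1]),(z1,[z0,z0,z1]),(z1,[z0,z0,z0,z1]),(z1,[y1,y1,y1,y1,z1]),(z1,[])] z0 (Int.ofNat
    (nat_lit 349526)) (.s (.s (.s (.s (.s (.l k2) (.l k1)) (.l k1)) (.l k1)) (.s (.l k1) (.l k1))) (.s (.l k1) (.l
    k1))) [⟨z0,z1,[[k0,k1],[k2,k3],[k4,k5]],.bnd k0⟩]))), .old [([z1,z0,z0,z0,z0,y3],z0),([z0,z1,z0,z0,z0,z3],z2),
    ([z0,z0,z1,z0,z0,y4],z0),([z0,z0,z0,z1,z0,y3],z0)] (.z (.x (.geo true z1 k5 [(z0,z3),(z2,y3),(z0,z4),(z0,z3),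
    (z2,y8),(z0,z1)] [(z1,[z1]),(z1,[z0,z1]),(z1,[z0,z0,z1]),(z1,[z0,z0,z0,z1]),(z1,[y1,y1,y1,y1,z1]),(z1,[])] z0
    (Int.ofNat (nat_lit 262144)) (.s (.s (.s (.s (.s (.l k2) (.l k1)) (.l k1)) (.l k1)) (.l k1)) (.s (.l k1) (.l
    k1))) [⟨z0,z1,[[k0,k1],[k2,k3],[k4,k5]],.bnd k0⟩]))), .old [([z1,z0,z0,z0,z0,y6],y4),([z0,z1,z0,z0,z0,z6],z6),
    ([z0,z0,z1,z0,z0,z2],z2),([z0,z0,z0,z1,z0,y7],y6)] (.z (.x (.geo true z1 k5 [(y4,z6),(z6,y6),(z2,y2),(y6,z7),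
    (z6,y6),(z0,z1)] [(z1,[z1]),(z1,[z0,z1]),(z1,[z0,z0,z1]),(z1,[z0,z0,z0,z1]),(z1,[y1,y1,y1,y1,z1]),(z1,[])]
    (Int.ofNat (nat_lit 898779)) (Int.ofNat (nat_lit 1048576)) (.s (.l k1) (.s (.l k1) (.s (.l k1) (.l k2)))) [⟨z1,
    z1,[[k0,k1],[k2,k4],[k3,k5]],.bnd k0⟩]))), .old [([z1,z0,z0,z0,z0,y3],z0),([z0,z1,z0,z0,z0,z3],z2),([z0,z0,z1,
    z0,z0,y1],z0),([z0,z0,z0,z1,z0,y3],z0)] (.z (.x (.geo true z1 k5 [(z0,z3),(z2,y3),(z0,z1),(z0,z3),(z2,y5),(z0,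
    z1)] [(z1,[z1]),(z1,[z0,z1]),(z1,[z0,z0,z1]),(z1,[z0,z0,z0,z1]),(z1,[y1,y1,y1,y1,z1]),(z1,[])] z0 (Int.ofNat
    (nat_lit 419431)) (.s (.s (.s (.s (.s (.l k2) (.l k1)) (.l k1)) (.l k1)) (.s (.l k1) (.l k1))) (.s (.s (.l k1)
    (.l k1)) (.l k1))) [⟨z0,z1,[[k0,k1],[k2,k3],[k4,k5]],.bnd k0⟩])))], [.old [([z1,z0,z0,z0,z0,y2],z0),([z0,z1,z0,
    z0,z0,y3],z0),([z0,z0,z1,z0,z0,z4],z2),([z0,z0,z0,z1,z0,y4],z0)] (.z (.x (.geo true z1 k5 [(z0,z2),(z0,z3),(z2,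
    y4),(z0,z4),(z2,y6),(z0,z1)] [(z1,[z1]),(z1,[z0,z1]),(z1,[z0,z0,z1]),(z1,[z0,z0,z0,z1]),(z1,[y1,y1,y1,y1,z1]),
    (z1,[])] z0 (Int.ofNat (nat_lit 349526)) (.s (.s (.l k2) (.l k1)) (.l k1)) [⟨z0,z1,[[k0,k1],[k2,k3],[k4,k5]],
    .bnd k0⟩]))), .old [([z3,z0,z0,z0,y3,z0],y2),([z0,z3,z0,z0,z6,z0],z8),([z0,z0,z3,z0,y6,z0],y2),([z0,z0,z0,z1,z2,
    z0],z2)] (.z (.x (.geo true z3 k4 [(y2,z3),(z8,y6),(y2,z6),(z6,y6),(z0,z3),(z2,z0)] [(z1,[z1]),(z1,[z0,z1]),(z1,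
    [z0,z0,z1]),(z1,[z0,z0,z0,z3]),(z1,[]),(z1,[y1,y1,y1,y3,z3])] (Int.ofNat (nat_lit 699050)) (Int.ofNat (nat_lit
    1048576)) (.s (.l k1) (.l k2)) [⟨z1,z1,[[k0,k3],[k1,k5],[k2,k4]],.bnd k3⟩]))), .old [([z3,z0,z0,z0,z0,z1],z2),
    ([z0,z3,z0,z0,z0,y2],z2),([z0,z0,z3,z0,z0,z4],z2),([z0,z0,z0,z3,z0,y5],z2)] (.z (.x (.geo true z3 k5 [(z2,y1),
    (z2,z2),(z2,y4),(z2,z5),(z4,y5),(z0,z3)] [(z1,[z1]),(z1,[z0,z1]),(z1,[z0,z0,z1]),(z1,[z0,z0,z0,z1]),(z1,[y1,y1,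
    y1,y1,z3]),(z1,[])] z0 (Int.ofNat (nat_lit 524288)) (.l k2) [⟨z1,z2,[[k0,k2],[k1,k4],[k3,k5]],.bnd k2⟩]))), .old
    [([z2,z0,z0,z0,z0,z1],z1),([z0,z2,z0,z0,z0,y1],z1),([z0,z0,z1,z0,z0,z1],z1),([z0,z0,z0,z2,z0,y3],z1)] (.z (.x
    (.geo true z2 k5 [(z1,y1),(z1,z1),(z2,y2),(z1,z3),(z3,y3),(z0,z2)] [(z1,[z1]),(z1,[z0,z1]),(z1,[z0,z0,z2]),(z1,
    [z0,z0,z0,z1]),(z1,[y1,y1,y2,y1,z2]),(z1,[])] z0 (Int.ofNat (nat_lit 1048576)) (.s (.l k1) (.l k2)) [⟨z1,z1,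
    [[k0,k2],[k1,k4],[k3,k5]],.bnd k0⟩]))), .old [([z1,z0,z0,z0,z0,y4],z0),([z0,z1,z0,z0,z0,z4],z2),([z0,z0,z1,z0,
    z0,y3],z0),([z0,z0,z0,z1,z0,y2],z0)] (.z (.x (.geo true z1 k5 [(z0,z4),(z2,y4),(z0,z3),(z0,z2),(z2,y6),(z0,z1)]
    [(z1,[z1]),(z1,[z0,z1]),(z1,[z0,z0,z1]),(z1,[z0,z0,z0,z1]),(z1,[y1,y1,y1,y1,z1]),(z1,[])] z0 (Int.ofNat (nat_lit
    349526)) (.s (.s (.s (.s (.s (.l k2) (.l k1)) (.l k1)) (.s (.l k1) (.l k1))) (.s (.l k1) (.l k1))) (.s (.l k1)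
    (.l k1))) [⟨z0,z1,[[k0,k1],[k2,k3],[k4,k5]],.bnd k0⟩]))), .old [([z1,z0,z0,z0,z0,y3],z0),([z0,z1,z0,z0,z0,z2],
    z2),([z0,z0,z1,z0,z0,y2],z0),([z0,z0,z0,z1,z0,y2],z0)] (.z (.x (.geo true z1 k5 [(z0,z3),(z2,y2),(z0,z2),(z0,
    z2),(z2,y6),(z0,z1)] [(z1,[z1]),(z1,[z0,z1]),(z1,[z0,z0,z1]),(z1,[z0,z0,z0,z1]),(z1,[y1,y1,y1,y1,z1]),(z1,[])]
    z0 (Int.ofNat (nat_lit 349526)) (.s (.s (.s (.s (.s (.l k2) (.l k1)) (.l k1)) (.l k1)) (.s (.l k1) (.l k1))) (.s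
    (.s (.l k1) (.l k1)) (.l k1))) [⟨z0,z1,[[k0,k1],[k2,k3],[k4,k5]],.bnd k0⟩]))), .old [([z1,z0,z0,z0,z0,y6],y2),
    ([z0,z1,z0,z0,z0,z2],z2),([z0,z0,z1,z0,z0,y2],z0),([z0,z0,z0,z1,z0,z4],z2)] (.z (.x (.geo true z1 k5 [(y2,z6),
    (z2,y2),(z0,z2),(z2,y4),(z2,y3),(z0,z1)] [(z1,[z1]),(z1,[z0,z1]),(z1,[z0,z0,z1]),(z1,[z0,z0,z0,z1]),(z1,[y1,y1,
    y1,y1,z1]),(z1,[])] (Int.ofNat (nat_lit 349525)) (Int.ofNat (nat_lit 524288)) (.s (.s (.l k1) (.l k1)) (.l k1))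
    []))), .old [([z1,z0,z0,z0,z0,y4],y2),([z0,z1,z0,z0,z0,y2],z0),([z0,z0,z1,z0,z0,z2],z2),([z0,z0,z0,z1,z0,z2],
    z2)] (.z (.x (.geo true z1 k5 [(y2,z4),(z0,z2),(z2,y2),(z2,y2),(z2,y3),(z0,z1)] [(z1,[z1]),(z1,[z0,z1]),(z1,[z0,
    z0,z1]),(z1,[z0,z0,z0,z1]),(z1,[y1,y1,y1,y1,z1]),(z1,[])] (Int.ofNat (nat_lit 524288)) (Int.ofNat (nat_lit
    699051)) (.l k1) []))), .old [([z2,z0,z0,z0,y2,y1],y2),([z0,z2,z0,z0,z0,z1],z2),([z0,z0,z1,z0,z1,z1],z2)] (.z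
    (.x (.old (.lp [(nat_lit 640),(nat_lit 582),(nat_lit 704),(nat_lit 640),(nat_lit 686),(nat_lit 576)] [k0,k192,
    k125,k125,k64,k64,k56,k136,k73,k73,k143,k113] k0 [[k0,k0,(nat_lit 384),k0,k0,k0,k0,k0,k0,k0,k0,k72],[k0,k0,k140,
    k0,k0,k0,k0,k82],[k0,k0,k0,k0,k14,k0,k0,k0,(nat_lit 210),k34],[k140,(nat_lit 384),k0,k0,k56],[k0,k0,k0,k0,k0,k0,
    k8,(nat_lit 328)],[k0,k0,k56,k14],[k82,k0,k0,k0,k0,(nat_lit 328)],[k0,k0,k0,k0,k0,k8,k0,k0,(nat_lit 262)],[k0,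
    k0,k0,k34,k0,k0,k0,k0,k0,k0,k128,k72],[k0,k0,k0,(nat_lit 210),k0,k0,(nat_lit 262)],[k0,k72,k0,k0,k0,k0,k0,k0,k0,
    k72],[k0,k0,k0,k0,k0,k0,k0,k0,k0,k128]] (nat_lit 1920) k6 [[(k8,(nat_lit 439)),(k7,(nat_lit 504)),(k4,(nat_lit
    576)),(k3,(nat_lit 587)),(k11,(nat_lit 599)),(k0,(nat_lit 640))],[(k5,(nat_lit 384)),(k10,(nat_lit 617)),(k1,
    (nat_lit 640)),(k6,(nat_lit 776)),(k9,(nat_lit 841)),(k2,(nat_lit 847))],[(k5,(nat_lit 503)),(k10,(nat_lit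
    564)),(k6,(nat_lit 569)),(k1,(nat_lit 587)),(k9,(nat_lit 634)),(k2,(nat_lit 966))],[(k11,(nat_lit 384)),(k7,
    (nat_lit 557)),(k8,(nat_lit 600)),(k4,(nat_lit 699)),(k0,(nat_lit 847)),(k3,(nat_lit 966))],[(k0,(nat_lit 384)),
    (k3,(nat_lit 503)),(k7,(nat_lit 576)),(k11,(nat_lit 689)),(k4,(nat_lit 718)),(k8,(nat_lit 905))],[(k6,(nat_lit
    384)),(k1,(nat_lit 576)),(k10,(nat_lit 625)),(k9,(nat_lit 687)),(k2,(nat_lit 699)),(k5,(nat_lit 718))],[(k1,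
    (nat_lit 504)),(k10,(nat_lit 553)),(k2,(nat_lit 557)),(k5,(nat_lit 576)),(k6,(nat_lit 648)),(k9,(nat_lit 951))],
    [(k4,(nat_lit 384)),(k3,(nat_lit 569)),(k7,(nat_lit 648)),(k11,(nat_lit 663)),(k0,(nat_lit 776)),(k8,(nat_lit
    965))],[(k11,(nat_lit 384)),(k3,(nat_lit 634)),(k8,(nat_lit 686)),(k4,(nat_lit 687)),(k0,(nat_lit 841)),(k7,
    (nat_lit 951))],[(k1,(nat_lit 439)),(k10,(nat_lit 544)),(k2,(nat_lit 600)),(k9,(nat_lit 686)),(k5,(nat_lit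
    905)),(k6,(nat_lit 965))],[(k2,(nat_lit 384)),(k9,(nat_lit 384)),(k1,(nat_lit 599)),(k6,(nat_lit 663)),(k5,
    (nat_lit 689)),(k10,(nat_lit 704))],[(k8,(nat_lit 544)),(k7,(nat_lit 553)),(k3,(nat_lit 564)),(k0,(nat_lit
    617)),(k4,(nat_lit 625)),(k11,(nat_lit 704))]] [[k0,k0,k7,k4],[k0,k7,k4,k0],[k1,k1,k5,k6],[k1,k5,k6,k1],[k2,k2,
    k10],[k2,k10,k2],[k3,k3,k11],[k3,k11,k3],[k4,k8,k11],[k5,k10,k9],[k6,k9],[k7,k8]] k2 [[k2,k0,k0,k0,k0,k0],[k2,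
    k0,k1,k0,k0,k0],[k2,k0,k0,k0,k0,k1],[k1,k1,k0,k0,k0,k0],[k1,k1,k1,k0,k0,k0],[k1,k1,k1,k1,k0,k0],[k1,k1,k0,k0,k0,
    k1],[k1,k0,k1,k0,k0,k0],[k1,k0,k2,k0,k0,k0],[k1,k0,k1,k0,k0,k1],[k1,k0,k0,k1,k0,k0],[k1,k0,k1,k1,k0,k0],[k1,k0,
    k0,k1,k0,k1],[k1,k0,k0,k0,k1,k0],[k1,k0,k1,k0,k1,k0],[k1,k0,k0,k0,k1,k1],[k1,k0,k1,k0,k1,k1],[k1,k0,k0,k0,k0,
    k1],[k0,k1,k1,k0,k0,k0],[k0,k1,k1,k1,k0,k0],[k0,k1,k1,k1,k0,k1],[k0,k1,k1,k0,k1,k0],[k0,k1,k1,k0,k0,k1],[k0,k1,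
    k0,k1,k0,k0],[k0,k1,k0,k2,k0,k0],[k0,k1,k0,k1,k0,k1],[k0,k1,k0,k0,k1,k0],[k0,k1,k0,k0,k1,k1],[k0,k1,k0,k0,k0,
    k1],[k0,k2,k0,k0,k0,k2],[k0,k1,k0,k0,k1,k2],[k0,k1,k0,k0,k0,k2],[k0,k0,k2,k0,k0,k0],[k0,k0,k2,k1,k0,k0],[k0,k0,
    k1,k1,k0,k0],[k0,k0,k1,k2,k0,k0],[k0,k0,k1,k1,k0,k1],[k0,k0,k1,k0,k1,k0],[k0,k0,k1,k0,k0,k1],[k0,k0,k0,k2,k0,
    k0],[k0,k0,k0,k2,k0,k1],[k0,k0,k0,k1,k0,k1],[k0,k0,k0,k1,k1,k1],[k0,k0,k0,k0,k2,k0],[k0,k0,k0,k0,k2,k1],[k0,k0,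
    k0,k0,k1,k1],[k0,k0,k0,k0,k2,k2],[k0,k0,k0,k0,k1,k2],[k0,k0,k0,k0,k0,k2]] [.contra [z1],.contra [y2,z1,y1,z0,
    z2],.contra [y1,z1,z0,z2],.contra [y1,z0,z0,y1,z1],.contra [z2,y1,z1,y2],.contra [z1,z0,z0,z1,y1],.contra [y2,
    z1,z1,z2],.contra [y2,z1,y1,z0,z2],.contra [y1,z1,z0,z2],.contra [y2,z1,z1,z2],.contra [y1,z0,z0,y1,z1],.contra
    [y2,z1,y1,z0,z2],.ref k148 k3 [(z2,[z0,y1,y1,y2,z2]),(z1,[z1,z0,z1,z1,y1])],.ref k121 k4 [(z2,[y2,y1,y1,y2,z2]),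
    (z1,[z1])],.ref k0 k3 [(z2,[z2,y1,z1,y2])],.ref k1 k2 [(z1,[z1])],.contra [z1,z0,z0,y1],.contra [y2,z1,z1,z2],
    .contra [y2,z1,z1,z2],.ref k1 k2 [(z1,[y1,z0,z0,z0,z1])],.ref k121 k4 [(z2,[z2,y1,y1,y2]),(z1,[y1,z0,z0,z0,
    z1])],.ref k148 k3 [(z2,[z0,y1,y1,y2,z2]),(z1,[y1,z0,z1,z1])],.contra [y2,z1,z1,z2],.contra [y1,z0,z0,y1,z1],
    .ref k121 k4 [(z1,[z1,z0,z0,z1,y1]),(z2,[y2,y1,y1,y4,z4])],.ref k0 k3 [(z2,[y2,y1,z1,y2,z2])],.ref k0 k3 [(z1,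
    [z1])],.contra [z2,z1,y1],.contra [y1,z0,z1],.contra [y1,z0,z2],.contra [z2,z1,y1],.ref k148 k3 [(z2,[z0,y1,y1,
    y2,z2]),(z1,[z1])],.contra [z1],.ref k55 k1 [(z1,[z1]),(z1,[y1,z1,z1,z2])],.contra [y2,z1,y1,z0,z2],.ref k149 k6
    [(z1,[z2,y1,z2,z2,y4]),(z1,[y1,z0,y1,y1,z2]),(z2,[z2,y1,z1,z0,y2]),(z1,[y1,z1,y1,z0,z2])],.contra [z2,y1,y1,y4,
    z2],.contra [z1,z0,z1,y1],.contra [y2,z1,z1,z2],.contra [z1],.ref k0 k3 [(z2,[y1,y1,z0,y2,z2])],.ref k150 k10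
    [(z2,[z2,z1,y3,z4,y2]),(z1,[z1,z0,y1]),(z2,[y2,y1,z1,y2,z2]),(z1,[z0,z0,z1])],.contra [y2,y1,z1,y2,z2],.contra
    [y1,y1,y1,y2,z2],.contra [z1,z1],.contra [y1,z0,z0,z1],.contra [y1,z0,z0,z2],.ref k55 k0 [(z1,[z1]),(z1,[y1,z1,
    z1,z2])],.contra [z1]])))), .old [([z3,z0,z0,z0,z0,y4],y6),([z0,z3,z0,z0,z0,z2],z6),([z0,z0,z3,z0,z0,y1],z0),
    ([z0,z0,z0,z1,z0,z1],z2)] (.z (.x (.geo true z3 k5 [(y6,z4),(z6,y2),(z0,z1),(z6,y3),(z6,y3),(z0,z3)] [(z1,[z1]),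
    (z1,[z0,z1]),(z1,[z0,z0,z1]),(z1,[z0,z0,z0,z3]),(z1,[y1,y1,y1,y3,z3]),(z1,[])] (Int.ofNat (nat_lit 1572864))
    (Int.ofNat (nat_lit 2097152)) (.s (.s (.l k2) (.l k1)) (.l k1)) [⟨z3,z2,[[k0,k3],[k1,k5],[k2,k4]],.bnd k0⟩]))),
    .old [([z1,z0,z0,z0,y1,z0],z0),([z0,z1,z0,z0,z0,z1],z2),([z0,z0,z1,z0,z2,y1],z0)] (.z (.x (.old (.tor k24 false
    k1 [(z1,[y1,y1,z0,z1]),(z1,[z2,z1,z1]),(z1,[y1,y1,y1,z1]),(z1,[z0,z1])])))), .old [([z1,z0,z0,z0,y1,z0],z0),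
    ([z0,z3,z0,z0,z0,z0],z2),([z0,z0,z1,z0,z1,z0],z2),([z0,z0,z0,z3,z3,z0],z2)] (.z (.x (.geo true z3 k4 [(z0,z3),
    (z2,z0),(z6,y3),(z2,y3),(z0,z3),(z2,z0)] [(z1,[z3]),(z1,[z0,z1]),(z1,[z0,z0,z3]),(z1,[z0,z0,z0,z1]),(z1,[]),(z1,
    [y3,y1,y3,y1,z3])] z0 (Int.ofNat (nat_lit 699051)) (.s (.s (.l k2) (.l k1)) (.s (.l k1) (.l k1))) [⟨z0,z1,[[k0,
    k5],[k1,k2],[k3,k4]],.bnd k0⟩]))), .old [([z3,z0,z0,z0,z0,y6],z4),([z0,z3,z0,z0,z0,z0],z2),([z0,z0,z3,z0,z0,z6],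
    z2),([z0,z0,z0,z3,z0,y3],z2)] (.z (.x (.geo true z3 k5 [(z4,z6),(z2,z0),(z2,y6),(z2,z3),(z2,y6),(z0,z3)] [(z1,
    [z1]),(z1,[z0,z1]),(z1,[z0,z0,z1]),(z1,[z0,z0,z0,z1]),(z1,[y1,y1,y1,y1,z3]),(z1,[])] z0 (Int.ofNat (nat_lit
    349526)) (.s (.s (.l k1) (.l k1)) (.s (.l k1) (.s (.l k1) (.l k2)))) [⟨z1,z3,[[k0,k5],[k1,k2],[k3,k4]],.bnd
    k0⟩]))), .old [([z3,z0,z0,z0,z0,y6],y10),([z0,z1,z0,z0,z0,z1],z2),([z0,z0,z3,z0,z0,z3],z8),([z0,z0,z0,z1,z0,z1],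
    z2)] (.z (.x (.geo true z3 k5 [(y10,z6),(z6,y3),(z8,y3),(z6,y3),(z2,z0),(z0,z3)] [(z1,[z1]),(z1,[z0,z3]),(z1,
    [z0,z0,z1]),(z1,[z0,z0,z0,z3]),(z1,[y1,y3,y1,y3,z3]),(z1,[])] (Int.ofNat (nat_lit 1747626)) (Int.ofNat (nat_lit
    2097152)) (.s (.s (.l k1) (.l k1)) (.s (.l k1) (.s (.l k1) (.l k2)))) [⟨z2,z1,[[k0,k1],[k2,k3],[k4,k5]],.bnd
    k1⟩]))), .old [([z3,z0,z0,z0,z0,y3],y2),([z0,z1,z0,z0,z0,z2],z2),([z0,z0,z3,z0,z0,y3],y2),([z0,z0,z0,z3,z0,z0],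
    z2)] (.z (.x (.geo true z3 k5 [(y2,z3),(z6,y6),(y2,z3),(z2,z0),(z8,y3),(z0,z3)] [(z1,[z1]),(z1,[z0,z3]),(z1,[z0,
    z0,z1]),(z1,[z0,z0,z0,z1]),(z1,[y1,y3,y1,y1,z3]),(z1,[])] (Int.ofNat (nat_lit 699050)) (Int.ofNat (nat_lit
    1048576)) (.s (.s (.l k2) (.l k1)) (.l k1)) [⟨z2,z3,[[k0,k5],[k1,k2],[k3,k4]],.bnd k0⟩]))), .old [([z3,z0,z0,z0,
    z0,y6],y2),([z0,z1,z0,z0,z0,z3],z2),([z0,z0,z3,z0,z0,y6],y2),([z0,z0,z0,z3,z0,z0],z2)] (.z (.x (.geo true z3 k5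
    [(y2,z6),(z6,y9),(y2,z6),(z2,z0),(z8,y6),(z0,z3)] [(z1,[z1]),(z1,[z0,z3]),(z1,[z0,z0,z1]),(z1,[z0,z0,z0,z1]),
    (z1,[y1,y3,y1,y1,z3]),(z1,[])] (Int.ofNat (nat_lit 349525)) (Int.ofNat (nat_lit 699051)) (.s (.s (.s (.l k2) (.l
    k1)) (.l k1)) (.l k1)) [⟨z1,z3,[[k0,k2],[k1,k5],[k3,k4]],.bnd k0⟩])))], [.old [([z2,z0,z0,z0,z0,z0],z1),([z0,z1,
    z0,z0,z0,z1],z2),([z0,z0,z6,z0,z0,y6],y7),([z0,z0,z0,z1,z0,z1],z2)] (.z (.x (.geo true z6 k5 [(z3,z0),(z12,y6),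
    (y7,z6),(z12,y6),(z4,z0),(z0,z6)] [(z1,[z3]),(z1,[z0,z6]),(z1,[z0,z0,z1]),(z1,[z0,z0,z0,z6]),(z1,[y3,y6,y1,y6,
    z6]),(z1,[])] (Int.ofNat (nat_lit 1223338)) (Int.ofNat (nat_lit 2097152)) (.s (.l k1) (.s (.l k1) (.l k2)))
    [⟨z2,z1,[[k0,k1],[k2,k3],[k4,k5]],.bnd k1⟩]))), .old [([z1,z0,z0,z0,z0,y2],z0),([z0,z3,z0,z0,z0,z0],z2),([z0,z0,
    z1,z0,z0,z2],z2),([z0,z0,z0,z3,z0,z9],z4)] (.z (.x (.geo true z3 k5 [(z0,z6),(z2,z0),(z6,y6),(z4,y9),(z0,z6),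
    (z0,z3)] [(z1,[z3]),(z1,[z0,z1]),(z1,[z0,z0,z3]),(z1,[z0,z0,z0,z1]),(z1,[y3,y1,y3,y1,z3]),(z1,[])] z0 (Int.ofNat
    (nat_lit 466034)) (.s (.s (.s (.l k2) (.l k1)) (.l k1)) (.s (.l k1) (.l k1))) [⟨z0,z1,[[k0,k3],[k1,k2],[k4,k5]],
    .bnd k0⟩]))), .old [([z3,z0,z0,z0,z0,z0],z1),([z0,z1,z0,z0,z0,z1],z2),([z0,z0,z1,z0,z0,y1],y1),([z0,z0,z0,z1,z0,
    z1],z2)] (.z (.x (.geo true z3 k5 [(z1,z0),(z6,y3),(y3,z3),(z6,y3),(z2,z0),(z0,z3)] [(z1,[z1]),(z1,[z0,z3]),(z1,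
    [z0,z0,z3]),(z1,[z0,z0,z0,z3]),(z1,[y1,y3,y3,y3,z3]),(z1,[])] (Int.ofNat (nat_lit 1048576)) (Int.ofNat (nat_lit
    2097152)) (.s (.l k1) (.s (.l k1) (.s (.l k1) (.l k2)))) [⟨z2,z1,[[k0,k1],[k2,k3],[k4,k5]],.bnd k1⟩]))), .old
    [([z3,z0,z0,z0,z0,y6],z2),([z0,z3,z0,z0,z0,z0],z2),([z0,z0,z3,z0,z0,z6],z4),([z0,z0,z0,z1,z0,y1],z0)] (.z (.x
    (.geo true z3 k5 [(z2,z6),(z2,z0),(z4,y6),(z0,z3),(z4,y6),(z0,z3)] [(z1,[z1]),(z1,[z0,z1]),(z1,[z0,z0,z1]),(z1,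
    [z0,z0,z0,z3]),(z1,[y1,y1,y1,y3,z3]),(z1,[])] z0 (Int.ofNat (nat_lit 699051)) (.s (.s (.l k1) (.l k1)) (.s (.l
    k1) (.s (.l k1) (.l k2)))) [⟨z2,z3,[[k0,k5],[k1,k2],[k3,k4]],.bnd k0⟩]))), .old [([z3,z0,z0,z0,z0,y12],z2),([z0,
    z3,z0,z0,z0,z0],z2),([z0,z0,z3,z0,z0,z12],z4),([z0,z0,z0,z3,z0,y3],z2)] (.z (.x (.geo true z3 k5 [(z2,z12),(z2,
    z0),(z4,y12),(z2,z3),(z2,y6),(z0,z3)] [(z1,[z1]),(z1,[z0,z1]),(z1,[z0,z0,z1]),(z1,[z0,z0,z0,z1]),(z1,[y1,y1,y1,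
    y1,z3]),(z1,[])] z0 (Int.ofNat (nat_lit 349526)) (.s (.l k1) (.s (.l k1) (.s (.l k1) (.l k2)))) [⟨z1,z3,[[k0,
    k5],[k1,k2],[k3,k4]],.bnd k0⟩]))), .old [([z3,z0,z0,z0,z0,y6],y4),([z0,z3,z0,z0,z0,z0],z2),([z0,z0,z3,z0,z0,z6],
    z10),([z0,z0,z0,z1,z0,z2],z2)] (.z (.x (.geo true z3 k5 [(y4,z6),(z2,z0),(z10,y6),(z6,y6),(y2,z3),(z0,z3)] [(z1,
    [z1]),(z1,[z0,z1]),(z1,[z0,z0,z1]),(z1,[z0,z0,z0,z3]),(z1,[y1,y1,y1,y3,z3]),(z1,[])] (Int.ofNat (nat_lit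
    699050)) (Int.ofNat (nat_lit 1048576)) (.s (.s (.s (.l k2) (.l k1)) (.l k1)) (.s (.l k1) (.l k1))) [⟨z2,z3,[[k0,
    k5],[k1,k2],[k3,k4]],.bnd k0⟩]))), .old [([z1,z0,z0,z0,y2,z0],z0),([z0,z3,z0,z0,z0,z0],z2),([z0,z0,z1,z0,z2,z0],
    z2),([z0,z0,z0,z3,z3,z0],z2)] (.z (.x (.geo true z3 k4 [(z0,z6),(z2,z0),(z6,y6),(z2,y3),(z0,z3),(z2,z0)] [(z1,
    [z3]),(z1,[z0,z1]),(z1,[z0,z0,z3]),(z1,[z0,z0,z0,z1]),(z1,[]),(z1,[y3,y1,y3,y1,z3])] z0 (Int.ofNat (nat_lit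
    699051)) (.s (.s (.s (.l k2) (.l k1)) (.l k1)) (.s (.l k1) (.l k1))) [⟨z0,z1,[[k0,k5],[k1,k2],[k3,k4]],.bnd
    k0⟩]))), .old [([z3,z0,z0,z0,z0,y3],y2),([z0,z1,z0,z0,z0,z2],z2),([z0,z0,z3,z0,z0,y6],y4),([z0,z0,z0,z3,z0,z0],
    z2)] (.z (.x (.geo true z3 k5 [(y2,z3),(z6,y6),(y4,z6),(z2,z0),(z10,y6),(z0,z3)] [(z1,[z1]),(z1,[z0,z3]),(z1,
    [z0,z0,z1]),(z1,[z0,z0,z0,z1]),(z1,[y1,y3,y1,y1,z3]),(z1,[])] (Int.ofNat (nat_lit 699050)) (Int.ofNat (nat_lit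
    1048576)) (.s (.l k2) (.l k1)) [⟨z2,z3,[[k0,k5],[k1,k2],[k3,k4]],.bnd k0⟩]))), .old [([z1,z0,z0,z0,z0,y2],z0),
    ([z0,z1,z0,z0,z0,z6],z2),([z0,z0,z1,z0,z0,y2],z0),([z0,z0,z0,z1,z0,y3],z0)] (.z (.x (.geo true z1 k5 [(z0,z2),
    (z2,y6),(z0,z2),(z0,z3),(z2,y2),(z0,z1)] [(z1,[z1]),(z1,[z0,z1]),(z1,[z0,z0,z1]),(z1,[z0,z0,z0,z1]),(z1,[y1,y1,
    y1,y1,z1]),(z1,[])] z0 (Int.ofNat (nat_lit 349526)) (.s (.s (.s (.s (.s (.l k2) (.l k1)) (.l k1)) (.l k1)) (.s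
    (.l k1) (.l k1))) (.s (.l k1) (.l k1))) [⟨z0,z1,[[k0,k1],[k2,k3],[k4,k5]],.bnd k0⟩]))), .old [([z1,z0,z0,z0,z0,
    y3],y4),([z0,z1,z0,z0,z0,z1],z2),([z0,z0,z2,z0,z0,z3],z6),([z0,z0,z0,z1,z0,z1],z2)] (.z (.x (.geo true z2 k5
    [(y8,z6),(z4,y2),(z6,y3),(z4,y2),(z2,y1),(z0,z2)] [(z1,[z2]),(z1,[z0,z2]),(z1,[z0,z0,z1]),(z1,[z0,z0,z0,z2]),
    (z1,[y2,y2,y1,y2,z2]),(z1,[])] (Int.ofNat (nat_lit 1398101)) (Int.ofNat (nat_lit 2097152)) (.s (.s (.s (.l k1)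
    (.s (.l k1) (.l k1))) (.s (.l k1) (.l k1))) (.s (.s (.l k1) (.l k1)) (.s (.s (.l k1) (.l k1)) (.s (.l k1) (.s
    (.l k1) (.s (.l k1) (.l k2))))))) [⟨z2,z1,[[k0,k1],[k2,k3],[k4,k5]],.bnd k0⟩]))), .old [([z1,z0,z0,z0,z0,y4],
    y2),([z0,z1,z0,z0,z0,z3],z2),([z0,z0,z1,z0,z0,y4],y2),([z0,z0,z0,z1,z0,z2],z2)] (.z (.x (.geo true z1 k5 [(y2,
    z4),(z2,y3),(y2,z4),(z2,y2),(z4,y4),(z0,z1)] [(z1,[z1]),(z1,[z0,z1]),(z1,[z0,z0,z1]),(z1,[z0,z0,z0,z1]),(z1,[y1,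
    y1,y1,y1,z1]),(z1,[])] (Int.ofNat (nat_lit 524288)) (Int.ofNat (nat_lit 699051)) (.s (.l k2) (.l k1)) [⟨z1,z2,
    [[k0,k5],[k1,k2],[k3,k4]],.bnd k0⟩]))), .old [([z1,z0,z0,z0,z0,y2],z0),([z0,z2,z0,z0,z0,z0],z1),([z0,z0,z1,z0,
    z0,z2],z2),([z0,z0,z0,z2,z0,y2],y1)] (.z (.x (.geo true z2 k5 [(z0,z4),(z1,z0),(z4,y4),(y1,z2),(z4,y4),(z0,z2)]
    [(z1,[z2]),(z1,[z0,z1]),(z1,[z0,z0,z2]),(z1,[z0,z0,z0,z1]),(z1,[y2,y1,y2,y1,z2]),(z1,[])] (Int.ofNat (nat_lit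
    524288)) (Int.ofNat (nat_lit 1048576)) (.s (.l k1) (.s (.l k1) (.l k2))) [⟨z1,z1,[[k0,k4],[k1,k2],[k3,k5]],.bnd
    k0⟩]))), .old [([z1,z0,z0,z0,z0,y4],y2),([z0,z1,z0,z0,z0,z2],z2),([z0,z0,z1,z0,z0,z4],z4),([z0,z0,z0,z1,z0,z3],
    z2)] (.z (.x (.geo true z1 k5 [(y2,z4),(z2,y2),(z4,y4),(z2,y3),(y2,z4),(z0,z1)] [(z1,[z1]),(z1,[z0,z1]),(z1,[z0,
    z0,z1]),(z1,[z0,z0,z0,z1]),(z1,[y1,y1,y1,y1,z1]),(z1,[])] (Int.ofNat (nat_lit 524288)) (Int.ofNat (nat_lit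
    699051)) (.s (.s (.s (.l k2) (.l k1)) (.l k1)) (.s (.l k1) (.l k1))) [⟨z1,z2,[[k0,k2],[k1,k5],[k3,k4]],.bnd
    k0⟩]))), .old [([z1,z0,z0,z0,z0,y3],z0),([z0,z2,z0,z0,z0,y3],z0),([z0,z0,z1,z0,z0,z3],z2),([z0,z0,z0,z2,z0,y1],
    z0)] (.z (.x (.geo true z2 k5 [(z0,z6),(z0,z3),(z4,y6),(z0,z1),(z4,y6),(z0,z2)] [(z1,[z2]),(z1,[z0,z1]),(z1,[z0,
    z0,z2]),(z1,[z0,z0,z0,z1]),(z1,[y2,y1,y2,y1,z2]),(z1,[])] z0 (Int.ofNat (nat_lit 699051)) (.s (.s (.s (.s (.l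
    k2) (.l k1)) (.l k1)) (.s (.l k1) (.l k1))) (.s (.s (.l k1) (.l k1)) (.s (.l k1) (.l k3)))) [⟨z0,z1,[[k0,k1],
    [k2,k3],[k4,k5]],.bnd k0⟩,⟨z2,z3,[[k0,k2],[k1,k5],[k3,k4]],.bnd k0⟩]))), .old [([z1,z0,z0,z0,z0,y4],y2),([z0,z1,
    z0,z0,z0,z2],z2),([z0,z0,z1,z0,z0,z4],z4),([z0,z0,z0,z1,z0,y5],y4)] (.z (.x (.geo true z1 k5 [(y2,z4),(z2,y2),
    (z4,y4),(y4,z5),(z4,y4),(z0,z1)] [(z1,[z1]),(z1,[z0,z1]),(z1,[z0,z0,z1]),(z1,[z0,z0,z0,z1]),(z1,[y1,y1,y1,y1,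
    z1]),(z1,[])] (Int.ofNat (nat_lit 838860)) (Int.ofNat (nat_lit 1048576)) (.s (.l k1) (.s (.l k1) (.s (.l k1) (.l
    k2)))) [⟨z1,z1,[[k0,k1],[k2,k4],[k3,k5]],.bnd k0⟩]))), .old [([z1,z0,z0,z0,z0,y2],z0),([z0,z1,z0,z0,z0,z1],z1),
    ([z0,z0,z1,z0,z0,y2],z0),([z0,z0,z0,z1,z0,z2],z1)] (.z (.x (.geo true z1 k5 [(z0,z2),(z1,y1),(z0,z2),(z1,y2),
    (z2,y2),(z0,z1)] [(z1,[z1]),(z1,[z0,z1]),(z1,[z0,z0,z1]),(z1,[z0,z0,z0,z1]),(z1,[y1,y1,y1,y1,z1]),(z1,[])] z0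
    (Int.ofNat (nat_lit 524288)) (.s (.s (.s (.l k2) (.l k1)) (.l k1)) (.s (.l k3) (.l k1))) [⟨z0,z1,[[k0,k2],[k1,
    k3],[k4,k5]],.bnd k0⟩,⟨z1,z3,[[k0,k4],[k1,k3],[k2,k5]],.child (.ref k0 k3 [(z1,[y1,y1,z0,y1,y1,z1])])⟩])))],
    [.old [([z1,z0,z0,z0,z0,y2],z0),([z0,z2,z0,z0,z0,z1],z2),([z0,z0,z1,z0,z0,y2],z0),([z0,z0,z0,z2,z0,z5],z2)] (.z
    (.x (.geo true z2 k5 [(z0,z4),(z2,y1),(z0,z4),(z2,y5),(z4,y4),(z0,z2)] [(z1,[z2]),(z1,[z0,z1]),(z1,[z0,z0,z2]),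
    (z1,[z0,z0,z0,z1]),(z1,[y2,y1,y2,y1,z2]),(z1,[])] z0 (Int.ofNat (nat_lit 419431)) (.s (.s (.s (.l k2) (.l k1))
    (.l k1)) (.s (.l k1) (.s (.l k1) (.l k1)))) [⟨z0,z1,[[k0,k2],[k1,k3],[k4,k5]],.bnd k0⟩]))), .old [([z1,z0,z0,z0,
    z0,y2],y2),([z0,z1,z0,z0,z0,z1],z2),([z0,z0,z2,z0,z0,z1],z2),([z0,z0,z0,z1,z0,z1],z2)] (.z (.x (.geo true z2 k5
    [(y4,z4),(z4,y2),(z2,y1),(z4,y2),(z2,y1),(z0,z2)] [(z1,[z2]),(z1,[z0,z2]),(z1,[z0,z0,z1]),(z1,[z0,z0,z0,z2]),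
    (z1,[y2,y2,y1,y2,z2]),(z1,[])] (Int.ofNat (nat_lit 1048576)) (Int.ofNat (nat_lit 2097152)) (.s (.s (.s (.l k1)
    (.l k1)) (.l k1)) (.s (.s (.l k1) (.l k1)) (.s (.s (.l k1) (.l k1)) (.s (.l k1) (.s (.l k1) (.s (.l k1) (.l
    k2))))))) [⟨z2,z1,[[k0,k1],[k2,k3],[k4,k5]],.bnd k0⟩]))), .old [([z1,z0,z0,z0,z0,y4],y2),([z0,z1,z0,z0,z0,y5],
    y4),([z0,z0,z1,z0,z0,z4],z4),([z0,z0,z0,z1,z0,z2],z2)] (.z (.x (.geo true z1 k5 [(y2,z4),(y4,z5),(z4,y4),(z2,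
    y2),(z4,y4),(z0,z1)] [(z1,[z1]),(z1,[z0,z1]),(z1,[z0,z0,z1]),(z1,[z0,z0,z0,z1]),(z1,[y1,y1,y1,y1,z1]),(z1,[])]
    (Int.ofNat (nat_lit 838860)) (Int.ofNat (nat_lit 1048576)) (.s (.l k1) (.l k2)) [⟨z1,z1,[[k0,k2],[k1,k4],[k3,
    k5]],.bnd k0⟩]))), .old [([z1,z0,z0,z0,z0,y4],y2),([z0,z1,z0,z0,z0,z2],z2),([z0,z0,z1,z0,z0,y4],y2),([z0,z0,z0,
    z1,z0,z3],z2)] (.z (.x (.geo true z1 k5 [(y2,z4),(z2,y2),(y2,z4),(z2,y3),(z4,y4),(z0,z1)] [(z1,[z1]),(z1,[z0,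
    z1]),(z1,[z0,z0,z1]),(z1,[z0,z0,z0,z1]),(z1,[y1,y1,y1,y1,z1]),(z1,[])] (Int.ofNat (nat_lit 524288)) (Int.ofNat
    (nat_lit 699051)) (.s (.s (.l k2) (.l k1)) (.l k1)) [⟨z1,z2,[[k0,k2],[k1,k5],[k3,k4]],.bnd k0⟩]))), .old [([z1,
    z0,z0,z0,z0,y2],y1),([z0,z1,z0,z0,z0,z2],z2),([z0,z0,z1,z0,z0,y2],y1),([z0,z0,z0,z1,z0,z1],z1)] (.z (.x (.geo
    true z1 k5 [(y1,z2),(z2,y2),(y1,z2),(z1,y1),(z3,y2),(z0,z1)] [(z1,[z1]),(z1,[z0,z1]),(z1,[z0,z0,z1]),(z1,[z0,z0,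
    z0,z1]),(z1,[y1,y1,y1,y1,z1]),(z1,[])] (Int.ofNat (nat_lit 524288)) (Int.ofNat (nat_lit 1048576)) (.s (.s (.s
    (.l k2) (.l k1)) (.l k1)) (.l k1)) [⟨z1,z2,[[k0,k2],[k1,k5],[k3,k4]],.bnd k0⟩]))), .old [([z1,z0,z0,z0,z0,y3],
    z0),([z0,z1,z0,z0,z0,y4],y2),([z0,z0,z1,z0,z0,z3],z2),([z0,z0,z0,z1,z0,z2],z2)] (.z (.x (.geo true z1 k5 [(z0,
    z3),(y2,z4),(z2,y3),(z2,y2),(z2,y3),(z0,z1)] [(z1,[z1]),(z1,[z0,z1]),(z1,[z0,z0,z1]),(z1,[z0,z0,z0,z1]),(z1,[y1,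
    y1,y1,y1,z1]),(z1,[])] (Int.ofNat (nat_lit 524288)) (Int.ofNat (nat_lit 699051)) (.s (.l k1) (.l k2)) [⟨z2,z3,
    [[k0,k5],[k1,k2],[k3,k4]],.bnd k0⟩]))), .old [([z1,z0,z0,z0,z0,y5],y2),([z0,z1,z0,z0,z0,y6],y4),([z0,z0,z1,z0,
    z0,z5],z4),([z0,z0,z0,z1,z0,z2],z2)] (.z (.x (.geo true z1 k5 [(y2,z5),(y4,z6),(z4,y5),(z2,y2),(z4,y5),(z0,z1)]
    [(z1,[z1]),(z1,[z0,z1]),(z1,[z0,z0,z1]),(z1,[z0,z0,z0,z1]),(z1,[y1,y1,y1,y1,z1]),(z1,[])] (Int.ofNat (nat_lit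
    699050)) (Int.ofNat (nat_lit 838861)) (.s (.l k1) (.l k2)) [⟨z4,z5,[[k0,k5],[k1,k2],[k3,k4]],.bnd k0⟩]))), .old
    [([z1,z0,z0,z0,z0,y2],y3),([z0,z1,z0,z0,z0,z1],z2),([z0,z0,z1,z0,z0,z2],z4),([z0,z0,z0,z1,z0,z1],z2)] (.z (.x
    (.geo true z1 k5 [(y3,z2),(z2,y1),(z4,y2),(z2,y1),(y1,z1),(z0,z1)] [(z1,[z1]),(z1,[z0,z1]),(z1,[z0,z0,z1]),(z1,
    [z0,z0,z0,z1]),(z1,[y1,y1,y1,y1,z1]),(z1,[])] (Int.ofNat (nat_lit 1572864)) (Int.ofNat (nat_lit 2097152)) (.s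
    (.s (.l k1) (.l k1)) (.s (.l k1) (.s (.l k1) (.s (.l k1) (.l k2))))) [⟨z2,z1,[[k0,k1],[k2,k3],[k4,k5]],.bnd
    k1⟩]))), .old [([z1,z0,z0,z0,z0,y3],z0),([z0,z1,z0,z0,z0,z1],z2),([z0,z0,z1,z0,z0,y2],z0),([z0,z0,z0,z1,z0,y1],
    z0)] (.z (.x (.geo true z1 k5 [(z0,z3),(z2,y1),(z0,z2),(z0,z1),(z2,y6),(z0,z1)] [(z1,[z1]),(z1,[z0,z1]),(z1,[z0,
    z0,z1]),(z1,[z0,z0,z0,z1]),(z1,[y1,y1,y1,y1,z1]),(z1,[])] z0 (Int.ofNat (nat_lit 349526)) (.s (.s (.s (.s (.s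
    (.l k2) (.l k1)) (.l k1)) (.l k1)) (.s (.l k1) (.l k1))) (.s (.s (.l k1) (.l k1)) (.l k1))) [⟨z0,z1,[[k0,k1],
    [k2,k3],[k4,k5]],.bnd k0⟩]))), .old [([z2,z0,z0,z0,z0,y2],y1),([z0,z1,z0,z0,z0,z2],z2),([z0,z0,z2,z0,z0,y2],y1),
    ([z0,z0,z0,z2,z0,z0],z1)] (.z (.x (.geo true z2 k5 [(y1,z2),(z4,y4),(y1,z2),(z1,z0),(z5,y2),(z0,z2)] [(z1,[z1]),
    (z1,[z0,z2]),(z1,[z0,z0,z1]),(z1,[z0,z0,z0,z1]),(z1,[y1,y2,y1,y1,z2]),(z1,[])] (Int.ofNat (nat_lit 524288))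
    (Int.ofNat (nat_lit 1048576)) (.s (.s (.s (.s (.l k2) (.l k1)) (.l k1)) (.l k1)) (.l k1)) [⟨z1,z2,[[k0,k2],[k1,
    k5],[k3,k4]],.bnd k0⟩]))), .old [([z5,z0,z0,z0,z0,y5],y2),([z0,z1,z0,z0,z0,z2],z2),([z0,z0,z5,z0,z0,y5],y2),
    ([z0,z0,z0,z5,z0,z0],z2)] (.z (.x (.geo true z5 k5 [(y2,z5),(z10,y10),(y2,z5),(z2,z0),(z12,y5),(z0,z5)] [(z1,
    [z1]),(z1,[z0,z5]),(z1,[z0,z0,z1]),(z1,[z0,z0,z0,z1]),(z1,[y1,y5,y1,y1,z5]),(z1,[])] (Int.ofNat (nat_lit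
    419430)) (Int.ofNat (nat_lit 1048576)) (.s (.s (.s (.s (.s (.l k2) (.l k1)) (.l k1)) (.l k1)) (.l k1)) (.l k1))
    [⟨z2,z5,[[k0,k5],[k1,k2],[k3,k4]],.bnd k0⟩]))), .old [([z1,z0,z0,z0,z0,y6],y2),([z0,z1,z0,z0,z0,y4],y2),([z0,z0,
    z1,z0,z0,z3],z2),([z0,z0,z0,z1,z0,z2],z2)] (.z (.x (.geo true z1 k5 [(y2,z6),(y2,z4),(z2,y3),(z2,y2),(z4,y6),
    (z0,z1)] [(z1,[z1]),(z1,[z0,z1]),(z1,[z0,z0,z1]),(z1,[z0,z0,z0,z1]),(z1,[y1,y1,y1,y1,z1]),(z1,[])] (Int.ofNat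
    (nat_lit 524288)) (Int.ofNat (nat_lit 699051)) (.s (.l k1) (.s (.l k1) (.l k2))) [⟨z2,z3,[[k0,k5],[k1,k2],[k3,
    k4]],.bnd k0⟩]))), .old [([z1,z0,z0,z0,z0,y6],y2),([z0,z1,z0,z0,z0,z2],z2),([z0,z0,z1,z0,z0,z3],z2),([z0,z0,z0,
    z1,z0,y4],y2)] (.z (.x (.geo true z1 k5 [(y2,z6),(z2,y2),(z2,y3),(y2,z4),(z4,y6),(z0,z1)] [(z1,[z1]),(z1,[z0,
    z1]),(z1,[z0,z0,z1]),(z1,[z0,z0,z0,z1]),(z1,[y1,y1,y1,y1,z1]),(z1,[])] (Int.ofNat (nat_lit 524288)) (Int.ofNat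
    (nat_lit 699051)) (.s (.l k1) (.s (.l k1) (.l k2))) [⟨z2,z3,[[k0,k5],[k1,k2],[k3,k4]],.bnd k0⟩]))), .old [([z1,
    z0,z0,z0,z0,y2],z0),([z0,z1,z0,z0,z0,z1],z2),([z0,z0,z1,z0,z0,z1],z1),([z0,z0,z0,z1,z0,y1],z0)] (.z (.x (.geo
    true z1 k5 [(z0,z2),(z2,y1),(z1,y1),(z0,z1),(z1,y2),(z0,z1)] [(z1,[z1]),(z1,[z0,z1]),(z1,[z0,z0,z1]),(z1,[z0,z0,
    z0,z1]),(z1,[y1,y1,y1,y1,z1]),(z1,[])] z0 (Int.ofNat (nat_lit 524288)) (.s (.s (.s (.s (.l k2) (.l k1)) (.l k1))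
    (.s (.l k1) (.l k1))) (.l k1)) [⟨z0,z1,[[k0,k1],[k2,k3],[k4,k5]],.bnd k0⟩]))), .old [([z1,z0,z0,z0,z0,y5],y2),
    ([z0,z1,z0,z0,z0,z2],z2),([z0,z0,z1,z0,z0,z5],z4),([z0,z0,z0,z1,z0,y6],y4)] (.z (.x (.geo true z1 k5 [(y2,z5),
    (z2,y2),(z4,y5),(y4,z6),(z4,y5),(z0,z1)] [(z1,[z1]),(z1,[z0,z1]),(z1,[z0,z0,z1]),(z1,[z0,z0,z0,z1]),(z1,[y1,y1,
    y1,y1,z1]),(z1,[])] (Int.ofNat (nat_lit 699050)) (Int.ofNat (nat_lit 838861)) (.s (.l k1) (.s (.l k1) (.l k2)))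
    [⟨z4,z5,[[k0,k5],[k1,k2],[k3,k4]],.bnd k0⟩]))), .old [([z2,z0,z0,z0,z0,z0],z1),([z0,z1,z0,z0,z0,z1],z2),([z0,z0,
    z4,z0,z0,y4],y5),([z0,z0,z0,z1,z0,z1],z2)] (.z (.x (.geo true z4 k5 [(z2,z0),(z8,y4),(y5,z4),(z8,y4),(z3,z0),
    (z0,z4)] [(z1,[z2]),(z1,[z0,z4]),(z1,[z0,z0,z1]),(z1,[z0,z0,z0,z4]),(z1,[y2,y4,y1,y4,z4]),(z1,[])] (Int.ofNat
    (nat_lit 1310720)) (Int.ofNat (nat_lit 2097152)) (.s (.l k1) (.s (.l k1) (.l k2))) [⟨z2,z1,[[k0,k1],[k2,k3],[k4,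
    k5]],.bnd k1⟩])))], [.old [([z2,z0,z0,z0,z0,y3],y2),([z0,z2,z0,z0,z0,z1],z2),([z0,z0,z2,z0,z0,y3],y2),([z0,z0,
    z0,z1,z0,z2],z2)] (.z (.x (.geo true z2 k5 [(y2,z3),(z2,y1),(y2,z3),(z4,y4),(z6,y3),(z0,z2)] [(z1,[z1]),(z1,[z0,
    z1]),(z1,[z0,z0,z1]),(z1,[z0,z0,z0,z2]),(z1,[y1,y1,y1,y2,z2]),(z1,[])] (Int.ofNat (nat_lit 699050)) (Int.ofNat
    (nat_lit 1048576)) (.s (.l k2) (.l k1)) [⟨z2,z3,[[k0,k5],[k1,k2],[k3,k4]],.bnd k0⟩]))), .old [([z1,z0,z0,z0,z0,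
    y2],y1),([z0,z1,z0,z0,z0,z1],z1),([z0,z0,z1,z0,z0,y2],y1),([z0,z0,z0,z1,z0,z2],z2)] (.z (.x (.geo true z1 k5
    [(y1,z2),(z1,y1),(y1,z2),(z2,y2),(z3,y2),(z0,z1)] [(z1,[z1]),(z1,[z0,z1]),(z1,[z0,z0,z1]),(z1,[z0,z0,z0,z1]),
    (z1,[y1,y1,y1,y1,z1]),(z1,[])] (Int.ofNat (nat_lit 524288)) (Int.ofNat (nat_lit 1048576)) (.s (.s (.l k2) (.l
    k1)) (.l k1)) [⟨z1,z2,[[k0,k5],[k1,k2],[k3,k4]],.bnd k0⟩]))), .old [([z1,z0,z0,z0,z0,y4],y2),([z0,z1,z0,z0,z0,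
    y3],y2),([z0,z0,z1,z0,z0,z2],z2),([z0,z0,z0,z1,z0,z2],z2)] (.z (.x (.geo true z1 k5 [(y2,z4),(y2,z3),(z2,y2),
    (z2,y2),(z4,y4),(z0,z1)] [(z1,[z1]),(z1,[z0,z1]),(z1,[z0,z0,z1]),(z1,[z0,z0,z0,z1]),(z1,[y1,y1,y1,y1,z1]),(z1,
    [])] (Int.ofNat (nat_lit 699050)) (Int.ofNat (nat_lit 1048576)) (.s (.l k1) (.s (.l k1) (.l k2))) [⟨z1,z1,[[k0,
    k2],[k1,k4],[k3,k5]],.bnd k0⟩]))), .old [([z1,z0,z0,z0,y2,y1],y2),([z0,z1,z0,z0,z2,z0],z2),([z0,z0,z1,z0,z1,z1],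
    z2)] (.z (.x (.old (.lp [(nat_lit 601),(nat_lit 576),(nat_lit 557),(nat_lit 652),(nat_lit 652),(nat_lit 790)]
    [(nat_lit 209),k0,k117,k117,k36,(nat_lit 217),k79,k79,k79,k79,k10,k10] k0 [[k0,k0,k0,k0,k0,k0,k123,k39,k0,k0,k0,
    (nat_lit 207)],[k0,k0,k0,k0,k0,k0,k0,k0,k0,k0,k0,k135],[k0,k0,k0,k0,k83,k71],[k0,k0,k0,k0,k0,k0,k0,k0,k79,k113],
    [k0,k0,k0,k71,k0,k0,k0,k0,k0,k0,(nat_lit 390)],[k0,k0,k0,k83],[k0,k39,k0,k0,k0,k0,k0,k0,k0,k34],[k0,k123,k0,k0,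
    k0,k0,k0,k0,k0,k84],[k0,k0,k113,k0,k0,k0,k84,k34],[k0,k0,k79,k0,k0,k0,k0,k0,k0,k0,k0,k54],[k135,(nat_lit 207),
    k0,k0,k0,k0,k0,k0,k54],[k0,k0,k0,k0,k0,(nat_lit 390)]] (nat_lit 1920) k6 [[(k4,(nat_lit 384)),(k7,(nat_lit
    731)),(k0,(nat_lit 736)),(k8,(nat_lit 785)),(k11,(nat_lit 800)),(k3,(nat_lit 900))],[(k5,(nat_lit 384)),(k10,
    (nat_lit 384)),(k9,(nat_lit 399)),(k6,(nat_lit 483)),(k2,(nat_lit 484)),(k1,(nat_lit 736))],[(k5,(nat_lit 476)),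
    (k10,(nat_lit 548)),(k2,(nat_lit 576)),(k9,(nat_lit 653)),(k6,(nat_lit 737)),(k1,(nat_lit 900))],[(k0,(nat_lit
    484)),(k7,(nat_lit 531)),(k3,(nat_lit 576)),(k4,(nat_lit 586)),(k8,(nat_lit 693)),(k11,(nat_lit 796))],[(k0,
    (nat_lit 384)),(k8,(nat_lit 401)),(k3,(nat_lit 476)),(k11,(nat_lit 504)),(k7,(nat_lit 585)),(k4,(nat_lit 640))],
    [(k1,(nat_lit 384)),(k2,(nat_lit 586)),(k5,(nat_lit 640)),(k6,(nat_lit 695)),(k9,(nat_lit 695)),(k10,(nat_lit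
    764))],[(k2,(nat_lit 531)),(k5,(nat_lit 585)),(k6,(nat_lit 652)),(k9,(nat_lit 652)),(k1,(nat_lit 731)),(k10,
    (nat_lit 1111))],[(k0,(nat_lit 483)),(k8,(nat_lit 618)),(k7,(nat_lit 652)),(k4,(nat_lit 695)),(k3,(nat_lit
    737)),(k11,(nat_lit 805))],[(k0,(nat_lit 399)),(k8,(nat_lit 568)),(k7,(nat_lit 652)),(k3,(nat_lit 653)),(k4,
    (nat_lit 695)),(k11,(nat_lit 755))],[(k5,(nat_lit 401)),(k9,(nat_lit 568)),(k6,(nat_lit 618)),(k2,(nat_lit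
    693)),(k10,(nat_lit 721)),(k1,(nat_lit 785))],[(k5,(nat_lit 504)),(k10,(nat_lit 736)),(k9,(nat_lit 755)),(k2,
    (nat_lit 796)),(k1,(nat_lit 800)),(k6,(nat_lit 805))],[(k0,(nat_lit 384)),(k3,(nat_lit 548)),(k8,(nat_lit 721)),
    (k11,(nat_lit 736)),(k4,(nat_lit 764)),(k7,(nat_lit 1111))]] [[k0,k3,k7],[k0,k4,k4,k11],[k1,k6,k2],[k1,k10,k5,
    k5],[k2,k9,k9],[k3,k8,k8],[k6,k10],[k7,k11]] k2 [[k2,k0,k0,k0,k0,k0],[k2,k0,k1,k0,k0,k0],[k1,k1,k0,k0,k0,k0],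
    [k1,k1,k1,k0,k0,k0],[k1,k0,k1,k0,k0,k0],[k2,k0,k2,k0,k0,k0],[k1,k1,k2,k0,k0,k0],[k1,k1,k1,k1,k0,k0],[k1,k0,k2,
    k0,k0,k0],[k1,k0,k2,k0,k1,k0],[k1,k0,k1,k1,k0,k0],[k1,k0,k1,k0,k1,k0],[k1,k0,k1,k0,k2,k0],[k1,k0,k1,k0,k0,k1],
    [k1,k0,k0,k1,k0,k0],[k1,k0,k0,k2,k0,k0],[k1,k0,k0,k1,k1,k0],[k1,k0,k0,k0,k1,k0],[k1,k0,k0,k0,k2,k0],[k1,k0,k0,
    k0,k0,k1],[k1,k1,k0,k0,k0,k1],[k0,k2,k0,k0,k0,k0],[k0,k3,k0,k0,k0,k0],[k0,k2,k1,k0,k0,k0],[k0,k2,k0,k1,k0,k0],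
    [k0,k1,k1,k0,k0,k0],[k0,k1,k2,k0,k0,k0],[k0,k1,k1,k1,k0,k0],[k0,k1,k1,k0,k1,k0],[k0,k1,k0,k1,k0,k0],[k0,k1,k0,
    k0,k1,k0],[k0,k1,k0,k1,k1,k0],[k0,k1,k0,k0,k0,k1],[k0,k1,k1,k0,k0,k1],[k0,k1,k0,k1,k0,k1],[k0,k0,k2,k0,k0,k0],
    [k0,k0,k2,k0,k1,k0],[k0,k0,k2,k0,k0,k1],[k0,k0,k1,k1,k0,k0],[k0,k0,k1,k1,k1,k0],[k0,k0,k1,k0,k1,k0],[k0,k0,k1,
    k0,k2,k0],[k0,k0,k1,k0,k0,k1],[k0,k0,k0,k2,k0,k0],[k0,k0,k0,k1,k1,k0],[k0,k0,k0,k1,k2,k0],[k0,k0,k0,k0,k2,k0],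
    [k0,k0,k0,k0,k3,k0],[k0,k0,k0,k0,k1,k1],[k0,k0,k0,k0,k0,k2]] [.contra [z1],.contra [y1,z2,z1,z2],.contra [y1,z2,
    z1,z2],.contra [y1,z2,z1,z2],.contra [y1,z2,z1,z2],.contra [z1,y2,z0,y2],.contra [y1,z2,z1,z2],.contra [z1,z0,
    z0,z1,y1],.contra [y1,z2,z1,z2],.ref k178 k3 [(z1,[z1,y2,y1,y3,z1])],.ref k178 k3 [(z1,[z1,y1,z0,y1])],.contra
    [z1,y1,z0,y1],.ref k27 k0 [(z1,[z0,z0,z0,z1]),(z1,[z1,y1,y1,y2,z1])],.contra [y1,z1,z0,z2],.contra [z1,z0,z1,z1,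
    y1],.ref (nat_lit 252) k4 [(z1,[z1,y2,y1,y1,y1]),(z1,[z0,z1,z1,z1])],.ref k27 k0 [(z1,[z0,z0,z0,z1]),(z1,[z1])],
    .contra [y1,z1,z1,z1],.ref (nat_lit 296) k3 [(z1,[z1,y1,y1,y1]),(z1,[z0,y1,y1,y1,z1])],.contra [y1,z1,z0,z2],
    .contra [y1,y1,y1,y2,z2],.contra [z1],.ref k27 k0 [(z1,[z0,z0,z0,z1]),(z2,[y1,z0,z1,y2,z2])],.ref (nat_lit 298)
    k1 [(z1,[z1,z0,y2]),(z1,[z0,z0,z1]),(z1,[y1,z1,z2,z1])],.ref (nat_lit 296) k3 [(z1,[y1,y1,z0,y2,z1]),(z1,[z0,y1,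
    y1,y1,z1])],.contra [y1,z2,z1,z2],.contra [y1,z2,z1,z2],.ref k1 k2 [(z1,[y1,z0,z0,z0,z1])],.contra [y1,z1,z1,
    z1],.contra [y1,z0,z0,y1,z1],.contra [y1,z1,z1,z1],.contra [z1,z1,z0,z2,y1],.ref (nat_lit 252) k4 [(z1,[y1,y3,
    y2,y3,z1]),(z1,[z0,z1,z1,z1])],.ref k27 k0 [(z1,[z0,z0,z0,z1]),(z1,[y1,z0,z0,z0,z1])],.contra [y1,y1,z0,y1,z1],
    .contra [z1],.ref k178 k4 [(z1,[z1,y1,y1,y2,z1])],.contra [y1,z1,z0,z2],.ref k178 k4 [(z1,[z1])],.contra [z1,y1,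
    y1,y2,z1],.contra [y1,z1,z1,z1],.ref k178 k3 [(z1,[z1,y1,y1,y2,z1])],.contra [y1,z1,z0,z2],.contra [z1],.ref
    k178 k3 [(z1,[z1])],.ref (nat_lit 252) k4 [(z1,[z1,y2,y2,y2]),(z1,[z0,z1,z1,z1])],.contra [z1],.ref k27 k0 [(z1,
    [z0,z0,z0,z1]),(z1,[z1,z0,y1,y1,z1])],.contra [y1,z0,z0,z1],.contra [y1,y2,y2,y2,z2]])))), .old [([z1,z0,z0,z0,
    z0,y2],z1),([z0,z2,z0,z0,z0,z0],z1),([z0,z0,z1,z0,z0,z2],z1),([z0,z0,z0,z2,z0,y2],z1)] (.z (.x (.geo true z2 k5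
    [(z2,z4),(z1,z0),(z2,y4),(z1,z2),(z2,y4),(z0,z2)] [(z1,[z2]),(z1,[z0,z1]),(z1,[z0,z0,z2]),(z1,[z0,z0,z0,z1]),
    (z1,[y2,y1,y2,y1,z2]),(z1,[])] z0 (Int.ofNat (nat_lit 524288)) (.s (.s (.l k1) (.l k1)) (.s (.l k1) (.s (.l k1)
    (.l k2)))) [⟨z1,z2,[[k0,k5],[k1,k2],[k3,k4]],.bnd k0⟩]))), .old [([z1,z0,z0,z0,z0,y6],y2),([z0,z1,z0,z0,z0,z3],
    z2),([z0,z0,z1,z0,z0,y6],y2),([z0,z0,z0,z1,z0,z4],z2)] (.z (.x (.geo true z1 k5 [(y2,z6),(z2,y3),(y2,z6),(z2,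
    y4),(z4,y6),(z0,z1)] [(z1,[z1]),(z1,[z0,z1]),(z1,[z0,z0,z1]),(z1,[z0,z0,z0,z1]),(z1,[y1,y1,y1,y1,z1]),(z1,[])]
    (Int.ofNat (nat_lit 349525)) (Int.ofNat (nat_lit 524288)) (.s (.s (.s (.l k2) (.l k1)) (.l k1)) (.s (.l k1) (.l
    k1))) [⟨z1,z3,[[k0,k2],[k1,k5],[k3,k4]],.bnd k0⟩]))), .old [([z1,z0,z0,z0,z0,y2],y3),([z0,z1,z0,z0,z0,z1],z2),
    ([z0,z0,z2,z0,z0,z2],z5),([z0,z0,z0,z1,z0,z1],z2)] (.z (.x (.geo true z2 k5 [(y6,z4),(z4,y2),(z5,y2),(z4,y2),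
    (z1,z0),(z0,z2)] [(z1,[z2]),(z1,[z0,z2]),(z1,[z0,z0,z1]),(z1,[z0,z0,z0,z2]),(z1,[y2,y2,y1,y2,z2]),(z1,[])]
    (Int.ofNat (nat_lit 1572864)) (Int.ofNat (nat_lit 2097152)) (.s (.s (.l k1) (.l k1)) (.s (.l k1) (.s (.l k1) (.s
    (.l k1) (.l k2))))) [⟨z2,z1,[[k0,k1],[k2,k3],[k4,k5]],.bnd k1⟩]))), .old [([z1,z0,z0,z0,y1,z0],z0),([z0,z2,z0,
    z0,z0,z0],z1),([z0,z0,z1,z0,z1,z0],z2),([z0,z0,z0,z4,z4,z0],z3)] (.z (.x (.geo true z4 k4 [(z0,z4),(z2,z0),(z8,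
    y4),(z3,y4),(z0,z4),(z3,z0)] [(z1,[z4]),(z1,[z0,z2]),(z1,[z0,z0,z4]),(z1,[z0,z0,z0,z1]),(z1,[]),(z1,[y4,y2,y4,
    y1,z4])] z0 (Int.ofNat (nat_lit 786432)) (.s (.s (.s (.l k2) (.l k1)) (.l k1)) (.s (.l k1) (.l k1))) [⟨z0,z1,
    [[k0,k5],[k1,k2],[k3,k4]],.bnd k0⟩]))), .old [([z1,z0,z0,z0,z0,y4],z0),([z0,z1,z0,z0,z0,y6],y2),([z0,z0,z1,z0,
    z0,z4],z2),([z0,z0,z0,z1,z0,z3],z2)] (.z (.x (.geo true z1 k5 [(z0,z4),(y2,z6),(z2,y4),(z2,y3),(z2,y4),(z0,z1)]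
    [(z1,[z1]),(z1,[z0,z1]),(z1,[z0,z0,z1]),(z1,[z0,z0,z0,z1]),(z1,[y1,y1,y1,y1,z1]),(z1,[])] (Int.ofNat (nat_lit
    349525)) (Int.ofNat (nat_lit 524288)) (.s (.s (.l k1) (.s (.l k1) (.l k1))) (.s (.l k1) (.l k2))) [⟨z1,z2,[[k0,
    k2],[k1,k5],[k3,k4]],.bnd k0⟩]))), .old [([z1,z0,z0,z0,y1,z0],z0),([z0,z5,z0,z0,z0,z0],z2),([z0,z0,z1,z0,z1,z0],
    z2),([z0,z0,z0,z5,z5,z0],z4)] (.z (.x (.geo true z5 k4 [(z0,z5),(z2,z0),(z10,y5),(z4,y5),(z0,z5),(z4,z0)] [(z1,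
    [z5]),(z1,[z0,z1]),(z1,[z0,z0,z5]),(z1,[z0,z0,z0,z1]),(z1,[]),(z1,[y5,y1,y5,y1,z5])] z0 (Int.ofNat (nat_lit
    838861)) (.s (.s (.s (.l k2) (.l k1)) (.l k1)) (.s (.s (.l k1) (.l k1)) (.l k1))) [⟨z0,z1,[[k0,k5],[k1,k2],[k3,
    k4]],.bnd k0⟩]))), .old [([z1,z0,z0,z0,y1,z0],z0),([z0,z2,z0,z0,z0,z0],z1),([z0,z0,z1,z0,z1,z0],z2),([z0,z0,z0,
    z1,z1,z0],z1)] (.z (.x (.geo true z2 k4 [(z0,z2),(z1,z0),(z4,y2),(z2,y2),(z0,z2),(z1,z0)] [(z1,[z2]),(z1,[z0,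
    z1]),(z1,[z0,z0,z2]),(z1,[z0,z0,z0,z2]),(z1,[]),(z1,[y2,y1,y2,y2,z2])] z0 (Int.ofNat (nat_lit 1048576)) (.s (.s
    (.s (.l k2) (.l k1)) (.l k1)) (.s (.s (.l k1) (.l k1)) (.s (.l k1) (.l k1)))) [⟨z0,z1,[[k0,k5],[k1,k2],[k3,k4]],
    .bnd k0⟩]))), .old [([z3,z0,z0,z0,y6,z0],y2),([z0,z3,z0,z0,z0,z0],z2),([z0,z0,z1,z0,z3,z0],z2),([z0,z0,z0,z3,z0,
    z0],z2)] (.z (.x (.geo true z3 k4 [(y2,z6),(z2,z0),(z6,y9),(z2,z0),(z0,z3),(z4,z0)] [(z1,[z1]),(z1,[z0,z1]),(z1,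
    [z0,z0,z3]),(z1,[z0,z0,z0,z1]),(z1,[]),(z1,[y1,y1,y3,y1,z3])] (Int.ofNat (nat_lit 349525)) (Int.ofNat (nat_lit
    699051)) (.s (.s (.l k1) (.l k1)) (.l k1)) []))), .old [([z1,z0,z0,z0,z0,y6],y4),([z0,z1,z0,z0,z0,y1],z0),([z0,
    z0,z1,z0,z0,z2],z2),([z0,z0,z0,z1,z0,z1],z2)] (.z (.x (.geo true z1 k5 [(y4,z6),(z0,z1),(z2,y2),(z2,y1),(z4,y5),
    (z0,z1)] [(z1,[z1]),(z1,[z0,z1]),(z1,[z0,z0,z1]),(z1,[z0,z0,z0,z1]),(z1,[y1,y1,y1,y1,z1]),(z1,[])] (Int.ofNat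
    (nat_lit 699050)) (Int.ofNat (nat_lit 838861)) (.s (.l k1) (.l k1)) []))), .old [([z2,z0,z0,z0,z0,y4],y1),([z0,
    z1,z0,z0,z0,z3],z2),([z0,z0,z2,z0,z0,y4],y1),([z0,z0,z0,z2,z0,z0],z1)] (.z (.x (.geo true z2 k5 [(y1,z4),(z4,
    y6),(y1,z4),(z1,z0),(z5,y4),(z0,z2)] [(z1,[z1]),(z1,[z0,z2]),(z1,[z0,z0,z1]),(z1,[z0,z0,z0,z1]),(z1,[y1,y2,y1,
    y1,z2]),(z1,[])] (Int.ofNat (nat_lit 262144)) (Int.ofNat (nat_lit 699051)) (.s (.s (.s (.s (.s (.l k2) (.l k1))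
    (.l k1)) (.l k1)) (.l k1)) (.l k1)) [⟨z1,z4,[[k0,k5],[k1,k2],[k3,k4]],.bnd k0⟩]))), .old [([z1,z0,z0,z0,y2,y1],
    y2),([z0,z1,z0,z0,z0,z1],z2),([z0,z0,z1,z0,z3,z0],z2)] (.z (.x (.old (.lp [(nat_lit 234103725274022208),(nat_lit
    268243851876483780),(nat_lit 154048837558957440),(nat_lit 260115250304469120),(nat_lit 260839805319244800),
    (nat_lit 382857134041890486)] [(nat_lit 121738729728389499),(nat_lit 27014679039478779),(nat_lit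
    57306641082703353),(nat_lit 57306641082703353),(nat_lit 114404148241466523),(nat_lit 114404148241466523),
    (nat_lit 91473300212551323),(nat_lit 31268583524870043),(nat_lit 61008664361322843),(nat_lit 61008664361322843),
    k0,k0] k0 [[k0,k0,k0,k0,k0,k0,k0,k0,k0,k0,(nat_lit 78034575091340736)],[k0,k0,k0,(nat_lit 39411401561283200)],
    [(nat_lit 39411401561283200),k0,k0,k0,(nat_lit 138186226724249220)],[k0,k0,k0,k0,(nat_lit 15844583774891520),k0,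
    k0,k0,(nat_lit 22760084401641048),(nat_lit 51210189903692358)],[k0,k0,k0,k0,k0,k0,k0,(nat_lit 8128601572014660),
    k0,k0,(nat_lit 85350316506153930),(nat_lit 26011525030446912)],[k0,k0,(nat_lit 15844583774891520),(nat_lit
    138186226724249220)],[k0,k0,k0,k0,k0,(nat_lit 8128601572014660)],[k0,k0,k0,k0,k0,k0,k0,k0,(nat_lit
    129649920998152320),(nat_lit 52023050060893824)],[k0,k0,(nat_lit 51210189903692358),k0,k0,k0,(nat_lit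
    52023050060893824),k0,k0,k0,k0,(nat_lit 163384891597494666)],[k0,k0,(nat_lit 22760084401641048),k0,k0,k0,
    (nat_lit 129649920998152320),k0,k0,k0,k0,(nat_lit 77221714934139270)],[k0,k0,k0,k0,k0,(nat_lit
    26011525030446912),k0,k0,(nat_lit 77221714934139270),(nat_lit 163384891597494666)],[k0,(nat_lit
    78034575091340736),k0,k0,k0,(nat_lit 85350316506153930)]] (nat_lit 780345750913407360) k6 [[(k0,(nat_lit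
    156069150182681472)),(k4,(nat_lit 156087990254791254)),(k3,(nat_lit 298535813919708354)),(k7,(nat_lit
    350585396507988576)),(k8,(nat_lit 372055505575228134)),(k11,(nat_lit 519227346599906373))],[(k1,(nat_lit
    156069150182681472)),(k6,(nat_lit 169645104100949664)),(k5,(nat_lit 186125657633317664)),(k9,(nat_lit
    200109739952178144)),(k2,(nat_lit 203811763230797634)),(k10,(nat_lit 261118404313500987))],[(k5,(nat_lit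
    211146344717720610)),(k2,(nat_lit 228832450315200580)),(k6,(nat_lit 234077192746635810)),(k9,(nat_lit
    264541828597864290)),(k1,(nat_lit 298535813919708354)),(k10,(nat_lit 403585068050527869))],[(k7,(nat_lit
    156095682710067870)),(k0,(nat_lit 203811763230797634)),(k4,(nat_lit 226990928492612130)),(k3,(nat_lit
    228832450315200580)),(k8,(nat_lit 287301912999505338)),(k11,(nat_lit 376760682862879491))],[(k8,(nat_lit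
    156234131535408762)),(k0,(nat_lit 186125657633317664)),(k3,(nat_lit 211146344717720610)),(k7,(nat_lit
    221339818500662400)),(k11,(nat_lit 245692901398782915)),(k4,(nat_lit 292235064283206660))],[(k1,(nat_lit
    156087990254791254)),(k6,(nat_lit 168851084015857980)),(k9,(nat_lit 207444321439101120)),(k2,(nat_lit
    226990928492612130)),(k10,(nat_lit 242441460769977051)),(k5,(nat_lit 292235064283206660))],[(k2,(nat_lit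
    156095682710067870)),(k5,(nat_lit 221339818500662400)),(k6,(nat_lit 260115250304469120)),(k9,(nat_lit
    298708487727712260)),(k1,(nat_lit 350585396507988576)),(k10,(nat_lit 436938867023174373))],[(k4,(nat_lit
    168851084015857980)),(k0,(nat_lit 169645104100949664)),(k3,(nat_lit 234077192746635810)),(k7,(nat_lit
    260115250304469120)),(k11,(nat_lit 343406883890232987)),(k8,(nat_lit 360025090466168640))],[(k11,(nat_lit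
    192198548682415323)),(k0,(nat_lit 200109739952178144)),(k4,(nat_lit 207444321439101120)),(k8,(nat_lit
    208816755258350976)),(k3,(nat_lit 264541828597864290)),(k7,(nat_lit 298708487727712260))],[(k5,(nat_lit
    156234131535408762)),(k10,(nat_lit 158463578083072977)),(k9,(nat_lit 208816755258350976)),(k2,(nat_lit
    287301912999505338)),(k6,(nat_lit 360025090466168640)),(k1,(nat_lit 372055505575228134))],[(k9,(nat_lit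
    192198548682415323)),(k5,(nat_lit 245692901398782915)),(k10,(nat_lit 305635419107751216)),(k6,(nat_lit
    343406883890232987)),(k2,(nat_lit 376760682862879491)),(k1,(nat_lit 519227346599906373))],[(k8,(nat_lit
    158463578083072977)),(k4,(nat_lit 242441460769977051)),(k0,(nat_lit 261118404313500987)),(k11,(nat_lit
    305635419107751216)),(k3,(nat_lit 403585068050527869)),(k7,(nat_lit 436938867023174373))]] [] k0 [[k2,k0,k0,k0,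
    k0,k0],[k3,k0,k0,k0,k0,k0],[k4,k0,k0,k0,k0,k0],[k3,k0,k1,k0,k0,k0],[k2,k1,k0,k0,k0,k0],[k2,k0,k1,k0,k0,k0],[k2,
    k1,k1,k0,k0,k0],[k2,k0,k1,k1,k0,k0],[k2,k0,k1,k0,k1,k0],[k2,k0,k0,k1,k0,k0],[k2,k0,k0,k0,k1,k0],[k1,k1,k0,k0,k0,
    k0],[k1,k2,k0,k0,k0,k0],[k1,k1,k1,k0,k0,k0],[k1,k1,k0,k1,k0,k0],[k1,k0,k1,k0,k0,k0],[k2,k0,k2,k0,k0,k0],[k1,k1,
    k1,k1,k0,k0],[k1,k0,k2,k0,k0,k0],[k1,k0,k1,k1,k0,k0],[k1,k0,k2,k1,k0,k0],[k1,k0,k1,k0,k1,k0],[k1,k0,k2,k0,k1,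
    k0],[k1,k0,k1,k0,k2,k0],[k1,k0,k1,k0,k1,k1],[k1,k0,k1,k0,k0,k1],[k1,k0,k0,k1,k0,k0],[k1,k0,k0,k0,k1,k0],[k0,k2,
    k0,k0,k0,k0],[k0,k3,k0,k0,k0,k0],[k0,k2,k1,k0,k0,k0],[k0,k2,k1,k1,k0,k0],[k0,k2,k0,k1,k0,k0],[k0,k1,k1,k0,k0,
    k0],[k0,k1,k2,k0,k0,k0],[k0,k1,k1,k1,k0,k0],[k0,k1,k1,k0,k1,k0],[k0,k1,k0,k1,k0,k0],[k0,k1,k0,k2,k0,k0],[k0,k1,
    k0,k0,k1,k0],[k0,k1,k1,k1,k1,k0],[k0,k1,k0,k0,k2,k0],[k0,k0,k2,k0,k0,k0],[k0,k0,k2,k1,k0,k0],[k0,k0,k2,k0,k1,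
    k0],[k0,k0,k1,k1,k0,k0],[k0,k0,k2,k1,k1,k0],[k0,k0,k1,k2,k0,k0],[k0,k0,k1,k0,k1,k0],[k0,k0,k2,k0,k2,k0],[k0,k0,
    k1,k1,k1,k0],[k0,k0,k1,k0,k2,k0],[k0,k0,k1,k0,k1,k1],[k0,k0,k1,k0,k2,k1],[k0,k0,k1,k0,k0,k1],[k0,k0,k0,k2,k0,
    k0],[k0,k0,k0,k1,k1,k0],[k0,k0,k0,k0,k2,k0],[k0,k0,k0,k0,k3,k0],[k0,k0,k0,k0,k3,k1],[k0,k0,k0,k0,k2,k1],[k0,k0,
    k0,k0,k1,k1],[k0,k0,k0,k0,k2,k2],[k0,k0,k0,k0,k1,k2],[k0,k0,k0,k0,k0,k2]] [.contra [z1],.ref (nat_lit 217) k2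
    [(z1,[z1]),(z1,[z0,z0,z1])],.ref (nat_lit 319) k5 [(z2,[y1,z0,y4,y4,z4]),(z1,[z0,z0,z0,z1]),(z2,[y1,z4,z4]),(z2,
    [z1])],.ref k178 k2 [(z3,[z2,y3,z0,y2])],.ref (nat_lit 252) k11 [(z1,[z1,z0,z2,z0,y2]),(z1,[z0,z0,y1,z0,z1])],
    .ref (nat_lit 296) k2 [(z1,[z1,z0,z1,z0,y1]),(z1,[z0,z0,z1])],.ref k178 k2 [(z1,[z2,y3,y2,y2])],.ref k178 k2
    [(z1,[z2,y1,z2,z0,y2])],.ref k178 k2 [(z1,[z1,y1,z0,y1])],.ref (nat_lit 252) k11 [(z1,[z1,z1,z4,z1,y3]),(z1,[z0,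
    z0,y1,z0,z1])],.ref (nat_lit 296) k7 [(z1,[z1,z0,z1,z0,y1]),(z1,[z0,z0,z1])],.contra [z1,y1,y1],.ref (nat_lit
    252) k4 [(z1,[z1,y4,y5,y3,z1]),(z1,[z0,z1,z1,z1])],.contra [y2,z3,z3,z2],.ref (nat_lit 252) k4 [(z1,[z1,y3,y3,
    y2]),(z1,[z0,z1,z1,z1])],.contra [y2,z3,z3,z2],.ref (nat_lit 316) k11 [(z1,[z0,z1,z2,z1,y1]),(z2,[z1]),(z1,[z0,
    y1,y1,y1,z1])],.ref k178 k2 [(z1,[y2,z1,z0,z0,z2])],.ref (nat_lit 312) k1 [(z1,[z1,z0,z1,z0,y1]),(z1,[z0,z1,z2,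
    z1,y1]),(z1,[y1,z0,y2,z0,z2])],.contra [y2,z1,y1,z0,z2],.ref (nat_lit 315) k4 [(z1,[z0,y1,y2,y1,z1]),(z1,[y1,z0,
    y1,z0,z1]),(z1,[z0,z0,z1])],.contra [y1,z1,z1,z1],.ref k0 k0 [(z1,[z1,y1,z0,y1])],.ref k178 k2 [(z1,[z2,y1,z0,
    y2])],.contra [y1,z1,z2,z1],.ref (nat_lit 318) k10 [(z1,[z3,y3,y6,y2]),(z1,[z0,y1,y2,y1,z1]),(z1,[y1,z1,z2,z1]),
    (z1,[z0,z0,z1])],.contra [z1,z0,z1,z1,y1],.contra [y1,z1,z1,z1],.contra [z1],.ref (nat_lit 317) k2 [(z1,[y1,z3,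
    z3]),(z1,[z1]),(z1,[z0,z0,z0,z1]),(z1,[z1,y3,y6,y3,z3])],.ref k1 k2 [(z1,[y1,z1,z2,z1])],.ref k178 k2 [(z3,[y2,
    z1,z2,z0,z2])],.ref (nat_lit 317) k2 [(z1,[y1,z2,z1,y1,z1]),(z1,[z1,z1,z2,z1,y1]),(z1,[z0,z0,z0,z1]),(z1,[z1,y2,
    y4,y2,z2])],.contra [y2,z3,z3,z2],.ref (nat_lit 305) k10 [(z1,[z1]),(z1,[z0,y1,y2,y1,z1]),(z1,[y1,z2,z2,z2])],
    .ref k1 k2 [(z1,[y1,z0,z0,z0,z1])],.contra [y1,z1,z1,z1],.contra [z1,z1,z2,z1,y1],.ref (nat_lit 317) k2 [(z1,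
    [y1,z1,y1,y2,z2]),(z1,[z1,z2,z4,z2,y2]),(z1,[z0,z0,z0,z1]),(z1,[z1,y1,y2,y1,z1])],.contra [y1,z1,z1,z1],.ref
    k178 k2 [(z1,[y1,z0,z0,z0,z1])],.ref (nat_lit 252) k4 [(z1,[z1,y3,y4,y3,z1]),(z1,[z0,z1,z1,z1])],.contra [z1],
    .ref (nat_lit 305) k10 [(z1,[z1,z1,z2,z1,y1]),(z1,[z0,y1,y2,y1,z1]),(z1,[y1,z1,z0,z1,z1])],.ref (nat_lit 312)
    k10 [(z1,[z1,y1,y1,y1]),(z1,[z0,y1,y2,y1,z1]),(z1,[y1,z2,z2,z2])],.contra [y2,z1,y1,z0,z2],.ref (nat_lit 315)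
    k11 [(z1,[z0,z1,z2,z1,y1]),(z1,[y1,z0,y1,z0,z1]),(z1,[z0,y1,y1,y1,z1])],.ref k1 k2 [(z1,[y1,y1,y2,y1,z2])],
    .contra [y1,z1,z1,z1],.ref (nat_lit 315) k4 [(z1,[z0,y1,y2,y1,z1]),(z1,[y1,z0,z0,z1]),(z1,[z0,z0,z1])],.contra
    [y1,z0,y1,z0,z1],.contra [y2,z1,z1,z2],.ref (nat_lit 252) k4 [(z1,[y1,y3,y3,y2,z1]),(z1,[z0,z1,z1,z1])],.contra
    [z1,z1],.ref k0 k0 [(z1,[z1])],.contra [z1,z2,z4,z2,y2],.contra [y1,z0,y1,z0,z1],.contra [z1],.contra [y1,z0,z0,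
    z1],.contra [z2,z3,z1],.contra [z1,z1],.ref k178 k2 [(z1,[z2,z1])],.contra [z2,z5,z1,z2],.contra [z1,z2,z0,z1],
    .contra [y1,z0,z2]])))), .old [([z1,z0,z0,z0,z0,y5],y2),([z0,z1,z0,z0,z0,z3],z2),([z0,z0,z1,z0,z0,z5],z4),([z0,
    z0,z0,z1,z0,y4],y2)] (.z (.x (.geo true z1 k5 [(y2,z5),(z2,y3),(z4,y5),(y2,z4),(z2,y2),(z0,z1)] [(z1,[z1]),(z1,
    [z0,z1]),(z1,[z0,z0,z1]),(z1,[z0,z0,z0,z1]),(z1,[y1,y1,y1,y1,z1]),(z1,[])] (Int.ofNat (nat_lit 524288))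
    (Int.ofNat (nat_lit 699051)) (.s (.s (.s (.s (.l k2) (.l k1)) (.l k1)) (.s (.l k1) (.l k1))) (.s (.l k1) (.l
    k1))) [⟨z1,z2,[[k0,k3],[k1,k5],[k2,k4]],.bnd k3⟩])))], [.old [([z2,z0,z0,z0,z0,y4],y1),([z0,z2,z0,z0,z0,z0],z1),
    ([z0,z0,z2,z0,z0,z4],z5),([z0,z0,z0,z2,z0,y2],y1)] (.z (.x (.geo true z2 k5 [(y1,z4),(z1,z0),(z5,y4),(y1,z2),
    (z4,y4),(z0,z2)] [(z1,[z1]),(z1,[z0,z1]),(z1,[z0,z0,z1]),(z1,[z0,z0,z0,z1]),(z1,[y1,y1,y1,y1,z2]),(z1,[])]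
    (Int.ofNat (nat_lit 524288)) (Int.ofNat (nat_lit 1048576)) (.s (.s (.s (.l k2) (.l k1)) (.l k1)) (.l k1)) [⟨z1,
    z2,[[k0,k3],[k1,k5],[k2,k4]],.bnd k3⟩]))), .old [([z2,z0,z0,z0,z0,y2],y1),([z0,z2,z0,z0,z0,z2],z3),([z0,z0,z2,
    z0,z0,z0],z1),([z0,z0,z0,z2,z0,y2],z1)] (.z (.x (.geo true z2 k5 [(y1,z2),(z3,y2),(z1,z0),(z1,z2),(z4,y4),(z0,
    z2)] [(z1,[z1]),(z1,[z0,z1]),(z1,[z0,z0,z1]),(z1,[z0,z0,z0,z1]),(z1,[y1,y1,y1,y1,z2]),(z1,[])] (Int.ofNat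
    (nat_lit 524288)) (Int.ofNat (nat_lit 1048576)) (.s (.l k1) (.s (.l k1) (.l k2))) [⟨z1,z1,[[k0,k2],[k1,k4],[k3,
    k5]],.bnd k4⟩]))), .old [([z1,z0,z0,z0,z0,y4],y2),([z0,z1,z0,z0,z0,y3],y2),([z0,z0,z1,z0,z0,z4],z4),([z0,z0,z0,
    z1,z0,z2],z2)] (.z (.x (.geo true z1 k5 [(y2,z4),(y2,z3),(z4,y4),(z2,y2),(z2,y2),(z0,z1)] [(z1,[z1]),(z1,[z0,
    z1]),(z1,[z0,z0,z1]),(z1,[z0,z0,z0,z1]),(z1,[y1,y1,y1,y1,z1]),(z1,[])] (Int.ofNat (nat_lit 699050)) (Int.ofNat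
    (nat_lit 1048576)) (.s (.s (.s (.l k1) (.l k1)) (.l k1)) (.s (.l k1) (.l k2))) [⟨z1,z1,[[k0,k2],[k1,k4],[k3,
    k5]],.bnd k0⟩]))), .old [([z5,z0,z0,z0,y5,z0],y2),([z0,z5,z0,z0,z0,z0],z4),([z0,z0,z1,z0,z2,z0],z2),([z0,z0,z0,
    z5,z0,z0],z2)] (.z (.x (.geo true z5 k4 [(y2,z5),(z4,z0),(z10,y10),(z2,z0),(z0,z5),(z6,z0)] [(z1,[z1]),(z1,[z0,
    z1]),(z1,[z0,z0,z5]),(z1,[z0,z0,z0,z1]),(z1,[]),(z1,[y1,y1,y5,y1,z5])] (Int.ofNat (nat_lit 419430)) (Int.ofNat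
    (nat_lit 1048576)) (.s (.s (.l k1) (.l k2)) (.l k1)) [⟨z3,z5,[[k0,k3],[k1,k5],[k2,k4]],.child (.ref k0 k0 [(z5,
    [y2,y1,y1,z0,y1,z5])])⟩]))), .old [([z1,z0,z0,z0,y2,z0],z0),([z0,z3,z0,z0,z3,z0],z2),([z0,z0,z1,z0,z2,z0],z2),
    ([z0,z0,z0,z3,z0,z0],z2)] (.z (.x (.geo true z3 k4 [(z0,z6),(z2,y3),(z6,y6),(z2,z0),(z0,z3),(z2,z0)] [(z1,[z3]),
    (z1,[z0,z1]),(z1,[z0,z0,z3]),(z1,[z0,z0,z0,z1]),(z1,[]),(z1,[y3,y1,y3,y1,z3])] z0 (Int.ofNat (nat_lit 699051))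
    (.s (.s (.s (.l k2) (.l k1)) (.l k1)) (.s (.s (.l k1) (.s (.l k1) (.l k1))) (.s (.l k1) (.l k1)))) [⟨z0,z1,[[k0,
    k5],[k1,k2],[k3,k4]],.bnd k0⟩]))), .old [([z1,z0,z0,z0,z0,y6],y2),([z0,z1,z0,z0,z0,y2],z0),([z0,z0,z1,z0,z0,z4],
    z2),([z0,z0,z0,z1,z0,z2],z2)] (.z (.x (.geo true z1 k5 [(y2,z6),(z0,z2),(z2,y4),(z2,y2),(z2,y3),(z0,z1)] [(z1,
    [z1]),(z1,[z0,z1]),(z1,[z0,z0,z1]),(z1,[z0,z0,z0,z1]),(z1,[y1,y1,y1,y1,z1]),(z1,[])] (Int.ofNat (nat_lit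
    349525)) (Int.ofNat (nat_lit 524288)) (.s (.l k1) (.s (.s (.l k1) (.l k1)) (.l k1))) []))), .old [([z1,z0,z0,z0,
    z0,y6],y2),([z0,z1,z0,z0,z0,y4],y2),([z0,z0,z1,z0,z0,z6],z4),([z0,z0,z0,z1,z0,z2],z2)] (.z (.x (.geo true z1 k5
    [(y2,z6),(y2,z4),(z4,y6),(z2,y2),(z2,y3),(z0,z1)] [(z1,[z1]),(z1,[z0,z1]),(z1,[z0,z0,z1]),(z1,[z0,z0,z0,z1]),
    (z1,[y1,y1,y1,y1,z1]),(z1,[])] (Int.ofNat (nat_lit 524288)) (Int.ofNat (nat_lit 699051)) (.s (.s (.s (.l k1) (.l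
    k1)) (.s (.l k1) (.l k1))) (.s (.l k1) (.l k2))) [⟨z2,z3,[[k0,k5],[k1,k2],[k3,k4]],.bnd k0⟩]))), .old [([z1,z0,
    z0,z0,z0,y4],z0),([z0,z1,z0,z0,z0,z1],z1),([z0,z0,z1,z0,z0,z2],z1),([z0,z0,z0,z1,z0,y2],z0)] (.z (.x (.geo true
    z1 k5 [(z0,z4),(z1,y1),(z1,y2),(z0,z2),(z2,y4),(z0,z1)] [(z1,[z1]),(z1,[z0,z1]),(z1,[z0,z0,z1]),(z1,[z0,z0,z0,
    z1]),(z1,[y1,y1,y1,y1,z1]),(z1,[])] z0 (Int.ofNat (nat_lit 524288)) (.s (.s (.l k1) (.s (.l k1) (.l k1))) (.s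
    (.s (.l k1) (.l k1)) (.s (.l k1) (.s (.l k1) (.l k2))))) [⟨z1,z2,[[k0,k5],[k1,k2],[k3,k4]],.bnd k0⟩]))), .old
    [([z1,z0,z0,z0,z0,y4],y2),([z0,z1,z0,z0,z0,z2],z2),([z0,z0,z1,z0,z0,y8],y4),([z0,z0,z0,z1,z0,z3],z2)] (.z (.x
    (.geo true z1 k5 [(y2,z4),(z2,y2),(y4,z8),(z2,y3),(z6,y8),(z0,z1)] [(z1,[z1]),(z1,[z0,z1]),(z1,[z0,z0,z1]),(z1,
    [z0,z0,z0,z1]),(z1,[y1,y1,y1,y1,z1]),(z1,[])] (Int.ofNat (nat_lit 524288)) (Int.ofNat (nat_lit 699051)) (.s (.s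
    (.l k2) (.l k1)) (.s (.l k3) (.l k1))) [⟨z1,z2,[[k0,k2],[k1,k5],[k3,k4]],.bnd k0⟩,⟨z3,z5,[[k0,k4],[k1,k3],[k2,
    k5]],.child (.ref k0 k3 [(z1,[y2,y1,z0,y1,y1,z1])])⟩]))), .old [([z1,z0,z0,z0,y2,z0],z0),([z0,z2,z0,z0,z2,z1],
    z2),([z0,z0,z1,z0,z2,z0],z2)] (.z (.x (.old (.lp [(nat_lit 664),(nat_lit 592),(nat_lit 682),(nat_lit 884),
    (nat_lit 402),(nat_lit 604)] [(nat_lit 208),(nat_lit 208),k30,(nat_lit 458),k199,k199,k196,k0,(nat_lit 339),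
    (nat_lit 339),(nat_lit 238),(nat_lit 238)] k0 [[k0,k0,k0,k0,k0,k0,k0,(nat_lit 220)],[k0,k0,k0,k112],[k112,k0,k0,
    k0,k0,k0,k0,k0,(nat_lit 428)],[],[k0,k0,k0,k0,k0,k0,k0,(nat_lit 226)],[k0,k0,k0,k0,k0,k0,k0,k0,k0,k0,k0,(nat_lit
    458)],[k0,(nat_lit 220),k0,k0,k0,(nat_lit 226)],[k0,k0,k0,k0,k0,k0,k0,k0,k104],[k0,k0,k0,k0,k0,k0,k0,k0,k0,k0,
    k36,k12],[k0,k0,k0,(nat_lit 428),k0,k0,k104],[k0,k0,k0,k0,(nat_lit 458),k0,k0,k0,k0,k12],[k0,k0,k0,k0,k0,k0,k0,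
    k0,k0,k36]] (nat_lit 1920) k6 [[(k3,(nat_lit 414)),(k8,(nat_lit 497)),(k11,(nat_lit 646)),(k0,(nat_lit 664)),
    (k7,(nat_lit 872)),(k4,(nat_lit 1131))],[(k6,(nat_lit 456)),(k9,(nat_lit 533)),(k10,(nat_lit 634)),(k1,(nat_lit
    664)),(k5,(nat_lit 785)),(k2,(nat_lit 842))],[(k10,(nat_lit 384)),(k1,(nat_lit 414)),(k5,(nat_lit 423)),(k6,
    (nat_lit 426)),(k2,(nat_lit 480)),(k9,(nat_lit 503))],[(k11,(nat_lit 384)),(k3,(nat_lit 480)),(k8,(nat_lit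
    711)),(k0,(nat_lit 842)),(k4,(nat_lit 851)),(k7,(nat_lit 1050))],[(k3,(nat_lit 423)),(k11,(nat_lit 643)),(k4,
    (nat_lit 682)),(k0,(nat_lit 785)),(k7,(nat_lit 881)),(k8,(nat_lit 970))],[(k6,(nat_lit 459)),(k9,(nat_lit 542)),
    (k10,(nat_lit 643)),(k5,(nat_lit 682)),(k2,(nat_lit 851)),(k1,(nat_lit 1131))],[(k10,(nat_lit 384)),(k1,(nat_lit
    872)),(k5,(nat_lit 881)),(k6,(nat_lit 884)),(k9,(nat_lit 967)),(k2,(nat_lit 1050))],[(k3,(nat_lit 426)),(k0,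
    (nat_lit 456)),(k4,(nat_lit 459)),(k11,(nat_lit 646)),(k8,(nat_lit 649)),(k7,(nat_lit 884))],[(k11,(nat_lit
    399)),(k8,(nat_lit 402)),(k3,(nat_lit 503)),(k0,(nat_lit 533)),(k4,(nat_lit 542)),(k7,(nat_lit 967))],[(k9,
    (nat_lit 402)),(k10,(nat_lit 491)),(k1,(nat_lit 497)),(k6,(nat_lit 649)),(k2,(nat_lit 711)),(k5,(nat_lit 970))],
    [(k2,(nat_lit 384)),(k9,(nat_lit 399)),(k10,(nat_lit 640)),(k5,(nat_lit 643)),(k1,(nat_lit 646)),(k6,(nat_lit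
    646))],[(k3,(nat_lit 384)),(k7,(nat_lit 384)),(k8,(nat_lit 491)),(k0,(nat_lit 634)),(k11,(nat_lit 640)),(k4,
    (nat_lit 643))]] [[k0,k3,k3,k11],[k0,k4],[k1,k5],[k1,k10,k2,k2],[k4,k8,k8],[k5,k9,k9],[k6,k6,k10],[k6,k10,k6],
    [k7,k7,k11],[k7,k11,k7]] k2 [[k2,k0,k0,k0,k0,k0],[k2,k0,k0,k0,k1,k0],[k1,k1,k0,k0,k0,k0],[k1,k2,k0,k0,k0,k0],
    [k1,k1,k0,k0,k1,k0],[k1,k1,k0,k0,k0,k1],[k1,k1,k0,k1,k0,k1],[k1,k1,k0,k0,k1,k1],[k1,k0,k0,k1,k0,k0],[k1,k0,k0,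
    k0,k1,k0],[k1,k0,k1,k0,k1,k0],[k1,k0,k0,k0,k2,k0],[k1,k0,k0,k0,k3,k0],[k1,k0,k0,k0,k1,k1],[k1,k0,k0,k1,k1,k1],
    [k1,k0,k0,k0,k0,k1],[k1,k0,k0,k1,k0,k1],[k0,k2,k0,k0,k0,k0],[k0,k3,k0,k0,k0,k0],[k0,k3,k0,k0,k0,k1],[k0,k2,k1,
    k0,k0,k0],[k0,k2,k0,k1,k0,k1],[k0,k2,k0,k0,k1,k0],[k0,k2,k0,k0,k1,k1],[k0,k2,k0,k0,k0,k1],[k0,k2,k0,k0,k0,k2],
    [k0,k1,k1,k0,k0,k0],[k0,k1,k1,k1,k0,k1],[k0,k1,k1,k0,k1,k0],[k0,k1,k1,k0,k1,k1],[k0,k1,k1,k0,k0,k1],[k0,k1,k0,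
    k1,k0,k0],[k0,k1,k0,k1,k0,k1],[k0,k1,k0,k1,k0,k2],[k0,k1,k0,k0,k1,k0],[k0,k1,k0,k0,k2,k0],[k0,k1,k0,k0,k2,k1],
    [k0,k1,k0,k0,k1,k1],[k0,k1,k0,k0,k0,k1],[k0,k1,k0,k0,k1,k2],[k0,k1,k0,k0,k0,k2],[k0,k0,k2,k0,k0,k0],[k0,k0,k1,
    k1,k0,k0],[k0,k0,k1,k0,k1,k0],[k0,k0,k1,k0,k0,k1],[k0,k0,k1,k1,k0,k1],[k0,k0,k1,k0,k1,k1],[k0,k0,k0,k2,k0,k0],
    [k0,k0,k0,k1,k1,k0],[k0,k0,k0,k1,k0,k1],[k0,k0,k0,k1,k1,k1],[k0,k0,k0,k1,k2,k1],[k0,k0,k0,k1,k0,k2],[k0,k0,k0,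
    k0,k2,k0],[k0,k0,k0,k0,k3,k0],[k0,k0,k0,k0,k4,k0],[k0,k0,k0,k0,k3,k1],[k0,k0,k0,k0,k2,k1],[k0,k0,k0,k0,k1,k1],
    [k0,k0,k0,k0,k2,k2],[k0,k0,k0,k0,k1,k2],[k0,k0,k0,k0,k0,k2]] [.contra [z1],.ref (nat_lit 353) k3 [(z1,[z1,y2,z0,
    y2]),(z1,[y1,z1,z0,z1,z1])],.contra [y1,z1,z1],.contra [z1,y3,y2,y2,z2],.ref k0 k2 [(z1,[z1,y1,y1,y1,z1])],
    .contra [y1,z1,z1],.contra [z2,z1,z0,z2,y2],.ref k178 k4 [(z1,[y1,z0,z0,z0,z1])],.ref k0 k2 [(z1,[z1])],.ref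
    (nat_lit 328) k3 [(z1,[z1,y1,z0,y1]),(z1,[y1,z0,z0,z0,z1])],.contra [z2,y1,z0,y2],.contra [z1,z1],.ref (nat_lit
    353) k3 [(z1,[z1,y1,z0,y2]),(z1,[y1,z0,z0,z1,z1])],.ref k1 k2 [(z1,[z1])],.ref k178 k10 [(z1,[y1,z0,z0,z0,z1])],
    .contra [y1,z1,z1],.ref k178 k4 [(z1,[y1,y1,y1,y1,z2])],.contra [z1],.ref (nat_lit 217) k8 [(z1,[z1]),(z1,[z0,
    z1,z0,z1])],.ref k178 k10 [(z1,[z1,z0,y1,z1])],.ref k178 k4 [(z2,[z1,y2,y2,y1,z2])],.ref k178 k4 [(z1,[z1,z0,y1,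
    z1])],.contra [y1,z0,z1],.contra [y2,z1,z2],.contra [y1,z1,z1],.ref k0 k0 [(z1,[z1,z0,y1,z1])],.ref k178 k10
    [(z1,[z1])],.ref (nat_lit 328) k3 [(z1,[y1,y1,z0,y1,z1]),(z1,[z1])],.ref k178 k4 [(z1,[z1,y1,y1,y1,z1])],.ref k0
    k2 [(z1,[y1,z0,z0,z0,z1])],.ref (nat_lit 358) k0 [(z1,[z2,z0,y1,y2]),(z1,[z0,z1]),(z1,[y1,z0,z1,z1]),(z1,[z0,z0,
    z0,z1])],.contra [y1,y1,z0,y1,z1],.contra [y2,y1,z0,y2,z2],.ref (nat_lit 347) k2 [(z1,[y1,z2,z1,z1,y1]),(z1,[z0,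
    y1,z0,y1,z1])],.contra [y2,z0,z1,z1],.contra [y1,z0,z1],.contra [y1,z0,z1],.contra [y2,z1,z2],.contra [y1,z1,
    z1],.ref (nat_lit 357) k2 [(z1,[z0,z1]),(z1,[y1,z0,z1]),(z1,[z0,z0,z0,z1])],.ref (nat_lit 359) k1 [(z1,[z2,z6,
    z2,z7,y6]),(z1,[z1,z4,z2,z4,y4]),(z1,[y2,y5,y2,y6,z6]),(z1,[z0,y2,y1,y2,z2])],.contra [y1,z2,z0,z2],.ref k178 k4
    [(z1,[z1])],.contra [y2,z1,z0,z2],.ref k0 k0 [(z1,[z1])],.ref k0 k2 [(z1,[y1,y1,y1,y1,z2])],.ref (nat_lit 347)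
    k2 [(z1,[y1,z3,z1,z3,y2]),(z1,[z0,y1,z0,y1,z1])],.contra [z1],.contra [y1,y1,z0,y1,z1],.contra [y2,y1,z0,y2,z2],
    .contra [y1,y1,z0,y1,z1],.ref k178 k4 [(z1,[y1,y2,y1,y1,z2])],.ref (nat_lit 357) k2 [(z1,[z0,z1]),(z1,[y1,y1,z0,
    y1,z1]),(z1,[z0,z0,z0,z1])],.contra [z1],.ref (nat_lit 328) k3 [(z1,[z1,z0,z0,y1]),(z1,[y1,y1,z0,z0,z1])],
    .contra [z1,z2],.ref k1 k2 [(z1,[z1,z1])],.contra [y1,z0,z1],.contra [y2,z1,z2],.ref (nat_lit 360) k10 [(z1,[z1,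
    z0,y2,z1]),(z2,[y1,y2,z0,y2,z2]),(z2,[y1,z0,z2]),(z1,[z1,z0,y1])],.ref (nat_lit 361) k3 [(z1,[z1,z4,z2,z4,y4]),
    (z1,[z0,y2,y1,y2,z2]),(z1,[z2,z9,z4,z8,y8]),(z1,[y1,y3,y1,y3,z3])],.contra [z1]])))), .old [([z3,z0,z0,z0,y6,
    z0],y2),([z0,z3,z0,z0,z3,z0],z4),([z0,z0,z1,z0,z2,z0],z2),([z0,z0,z0,z3,z0,z0],z2)] (.z (.x (.geo true z3 k4
    [(y2,z6),(z4,y3),(z6,y6),(z2,z0),(z0,z3),(z2,z0)] [(z1,[z1]),(z1,[z0,z1]),(z1,[z0,z0,z3]),(z1,[z0,z0,z0,z1]),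
    (z1,[]),(z1,[y1,y1,y3,y1,z3])] (Int.ofNat (nat_lit 349525)) (Int.ofNat (nat_lit 1048576)) (.s (.s (.l k1) (.s
    (.l k1) (.l k2))) (.s (.s (.l k2) (.l k1)) (.l k1))) [⟨z2,z3,[[k0,k3],[k1,k4],[k2,k5]],.child (.ref k1 k2 [(z3,
    [z3,z0,y1,y3,y1,z3])])⟩]))), .old [([z2,z0,z0,z0,z0,y5],y2),([z0,z2,z0,z0,z0,z1],z2),([z0,z0,z4,z0,z0,y1],z2),
    ([z0,z0,z0,z1,z0,z2],z2)] (.z (.x (.geo true z4 k5 [(y4,z10),(z4,y2),(z2,z1),(z8,y8),(z6,y5),(z0,z4)] [(z1,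
    [z2]),(z1,[z0,z2]),(z1,[z0,z0,z1]),(z1,[z0,z0,z0,z4]),(z1,[y2,y2,y1,y4,z4]),(z1,[])] (Int.ofNat (nat_lit
    419430)) (Int.ofNat (nat_lit 1048576)) (.s (.s (.l k1) (.l k2)) (.s (.l k1) (.l k1))) [⟨z2,z3,[[k0,k3],[k1,k4],
    [k2,k5]],.child (.ref k1 k2 [(z4,[z3,z0,y2,y1,y4,z4])])⟩]))), .old [([z1,z0,z0,z0,y1,z0],z0),([z0,z2,z0,z0,z1,
    z0],z2),([z0,z0,z1,z0,z1,z1],z2)] (.z (.x (.old (.tor k23 false k4 [(z1,[z0,z1]),(z1,[y1,y1,y2,z2]),(z1,[z1,z0,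
    z1]),(z1,[z0,z0,z1])]))))]]

end Pool.Agent.Lib_MP_fa6e45
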