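import Pool.Agent.Lib_MP_fa6e45.CQ4
import Pool.Agent.Lib_MP_fa6e45.CXTg
import Pool.Agent.Lib_MP_fa6e45.HK

/-!
MP_fa6e45_co, stage 9: certificates for the theorem T6 (generated by a program).
-/

namespace Pool.Agent.Lib_MP_fa6e45

/-- table of nodes in the old format -/
noncomputable def r6_3_lf : List (List (QN PN)) :=
  [[.old [([z1,z0,z0,z0,z0,z1],z2)] (.z (.x (.old (.leafM k0 [k1,k2,k3,k4] [] [(k5,k0,z1,[z1]),(k0,k5,z1,[z1])])))),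
    .old [([z1,z0,z0,z1,z0,z0],z2)] (.z (.x (.old (.leafM k5 [k1,k2,k4,k5] [] [(k3,k0,z1,[z1]),(k0,k3,z1,[z1])])))),
    .old [([z1,z0,z1,z0,z1,z0],z2)] (.z (.x (.old (.leafM k1 [k0,k1,k2,k3,k4,k5] [(z1,[y1,z1]),(z1,[z1])] [])))),
    .old [([z1,z0,z0,z0,z1,z1],z2)] (.z (.x (.old (.leafM k0 [k0,k1,k2,k3,k4,k5] [(z1,[y1,z1])] [])))), .old [([z3,
    z0,z0,z0,z0,z0],z2),([z0,z3,z0,z0,z0,z3],z2),([z0,z0,z1,z0,z1,z0],z2)] (.z (.x (.old (.leafM k10 [k1,k3,k5,k0]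
    [(z1,[y1,y1,y3,z3]),(z1,[z1]),(z1,[z0,z1])] [(k2,k4,z1,[z0,z0,z1]),(k4,k2,z1,[z0,z0,z1])])))), .old [([z3,z0,z0,
    z0,z0,z0],z1),([z0,z1,z0,z0,z0,z1],z1),([z0,z0,z1,z0,z1,z0],z2)] (.z (.x (.old (.leafM k11 [k1,k3,k5,k0] [(z1,
    [y1,y3,y3,z3]),(z1,[z1]),(z1,[z0,z1])] [(k2,k4,z1,[z0,z0,z1]),(k4,k2,z1,[z0,z0,z1])])))), .old [([z3,z0,z0,z0,
    z0,y6],z4),([z0,z3,z0,z0,z0,z0],z2),([z0,z0,z3,z0,z0,z6],z2),([z0,z0,z0,z3,z0,y3],z2)] (.z (.x (.geo true z3 k5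
    [(z4,z6),(z2,z0),(z2,y6),(z2,z3),(z2,y6),(z0,z3)] [(z1,[z1]),(z1,[z0,z1]),(z1,[z0,z0,z1]),(z1,[z0,z0,z0,z1]),
    (z1,[y1,y1,y1,y1,z3]),(z1,[])] z0 (Int.ofNat (nat_lit 349526)) (.s (.s (.l k1) (.l k1)) (.s (.l k1) (.s (.l k1)
    (.l k2)))) [⟨z1,z3,[[k0,k5],[k1,k2],[k3,k4]],.bnd k0⟩]))), .old [([z3,z0,z0,z0,z0,z0],z1),([z0,z2,z0,z0,z0,z1],
    z2),([z0,z0,z2,z0,z0,y1],z0),([z0,z0,z0,z1,z0,z1],z2)] (.z (.x (.geo true z6 k5 [(z2,z0),(z6,y3),(z0,z3),(z12,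
    y6),(z4,z0),(z0,z6)] [(z1,[z2]),(z1,[z0,z3]),(z1,[z0,z0,z3]),(z1,[z0,z0,z0,z6]),(z1,[y2,y3,y3,y6,z6]),(z1,[])]
    z0 (Int.ofNat (nat_lit 2097152)) (.s (.s (.l k1) (.l k1)) (.s (.l k1) (.s (.l k1) (.l k2)))) [⟨z2,z1,[[k0,k1],
    [k2,k3],[k4,k5]],.bnd k1⟩]))), .old [([z1,z0,z0,z0,z0,y2],z0),([z0,z3,z0,z0,z0,z9],z4),([z0,z0,z1,z0,z0,y2],z0),
    ([z0,z0,z0,z3,z0,z0],z2)] (.z (.x (.geo true z3 k5 [(z0,z6),(z4,y9),(z0,z6),(z2,z0),(z6,y6),(z0,z3)] [(z1,[z3]),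
    (z1,[z0,z1]),(z1,[z0,z0,z3]),(z1,[z0,z0,z0,z1]),(z1,[y3,y1,y3,y1,z3]),(z1,[])] z0 (Int.ofNat (nat_lit 466034))
    (.s (.s (.s (.s (.l k2) (.l k1)) (.l k1)) (.l k1)) (.l k1)) [⟨z0,z1,[[k0,k3],[k1,k2],[k4,k5]],.bnd k0⟩]))), .old
    [([z3,z0,z0,z0,z0,z0],z1),([z0,z1,z0,z0,z0,z1],z2),([z0,z0,z1,z0,z0,y1],y1),([z0,z0,z0,z1,z0,z1],z2)] (.z (.x
    (.old (.tor k36 true k5 [(z1,[y1,y3,y3,y3,z3]),(z1,[z0,y1,z0,z1]),(z1,[z0,z1,z1]),(z1,[z1])])))), .old [([z1,z0,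
    z0,z0,y1,z0],z0),([z0,z1,z0,z0,z0,z1],z2),([z0,z0,z1,z0,z2,y1],z0)] (.z (.x (.old (.tor k12 false k1 [(z1,[y1,
    y1,z0,z1]),(z1,[z2,z1,z1]),(z1,[y1,y1,y1,z1]),(z1,[z0,z1])])))), .old [([z1,z0,z0,z0,y1,z0],z0),([z0,z3,z0,z0,
    z0,z0],z2),([z0,z0,z1,z0,z1,z0],z2),([z0,z0,z0,z3,z3,z0],z2)] (.z (.x (.geo true z3 k4 [(z0,z3),(z2,z0),(z6,y3),
    (z2,y3),(z0,z3),(z2,z0)] [(z1,[z3]),(z1,[z0,z1]),(z1,[z0,z0,z3]),(z1,[z0,z0,z0,z1]),(z1,[]),(z1,[y3,y1,y3,y1,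
    z3])] z0 (Int.ofNat (nat_lit 699051)) (.s (.s (.l k2) (.l k1)) (.s (.l k1) (.l k1))) [⟨z0,z1,[[k0,k5],[k1,k2],
    [k3,k4]],.bnd k0⟩]))), .old [([z3,z0,z0,z0,z0,y6],y10),([z0,z1,z0,z0,z0,z1],z2),([z0,z0,z3,z0,z0,z3],z8),([z0,
    z0,z0,z1,z0,z1],z2)] (.z (.x (.geo true z3 k5 [(y10,z6),(z6,y3),(z8,y3),(z6,y3),(z2,z0),(z0,z3)] [(z1,[z1]),(z1,
    [z0,z3]),(z1,[z0,z0,z1]),(z1,[z0,z0,z0,z3]),(z1,[y1,y3,y1,y3,z3]),(z1,[])] (Int.ofNat (nat_lit 1747626))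
    (Int.ofNat (nat_lit 2097152)) (.s (.s (.l k1) (.l k1)) (.s (.l k1) (.s (.l k1) (.l k2)))) [⟨z2,z1,[[k0,k1],[k2,
    k3],[k4,k5]],.bnd k1⟩]))), .old [([z3,z0,z0,z0,z0,y6],y2),([z0,z3,z0,z0,z0,z0],z2),([z0,z0,z3,z0,z0,z6],z8),
    ([z0,z0,z0,z1,z0,z3],z2)] (.z (.x (.geo true z3 k5 [(y2,z6),(z2,z0),(z8,y6),(z6,y9),(y2,z6),(z0,z3)] [(z1,[z1]),
    (z1,[z0,z1]),(z1,[z0,z0,z1]),(z1,[z0,z0,z0,z3]),(z1,[y1,y1,y1,y3,z3]),(z1,[])] (Int.ofNat (nat_lit 349525))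
    (Int.ofNat (nat_lit 699051)) (.s (.s (.s (.l k2) (.l k1)) (.l k1)) (.s (.l k1) (.l k1))) [⟨z1,z3,[[k0,k5],[k1,
    k2],[k3,k4]],.bnd k0⟩]))), .old [([z3,z0,z0,z0,z0,y3],y2),([z0,z1,z0,z0,z0,z2],z2),([z0,z0,z3,z0,z0,y3],y2),
    ([z0,z0,z0,z3,z0,z0],z2)] (.z (.x (.geo true z3 k5 [(y2,z3),(z6,y6),(y2,z3),(z2,z0),(z8,y3),(z0,z3)] [(z1,[z1]),
    (z1,[z0,z3]),(z1,[z0,z0,z1]),(z1,[z0,z0,z0,z1]),(z1,[y1,y3,y1,y1,z3]),(z1,[])] (Int.ofNat (nat_lit 699050))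
    (Int.ofNat (nat_lit 1048576)) (.s (.s (.l k2) (.l k1)) (.l k1)) [⟨z2,z3,[[k0,k5],[k1,k2],[k3,k4]],.bnd k0⟩]))),
    .old [([z1,z0,z0,z0,z0,y2],z0),([z0,z3,z0,z0,z0,z0],z2),([z0,z0,z1,z0,z0,z2],z2),([z0,z0,z0,z3,z0,y3],y2)] (.z
    (.x (.geo true z3 k5 [(z0,z6),(z2,z0),(z6,y6),(y2,z3),(z6,y6),(z0,z3)] [(z1,[z3]),(z1,[z0,z1]),(z1,[z0,z0,z3]),
    (z1,[z0,z0,z0,z1]),(z1,[y3,y1,y3,y1,z3]),(z1,[])] (Int.ofNat (nat_lit 699050)) (Int.ofNat (nat_lit 1048576)) (.s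
    (.l k1) (.l k2)) [⟨z1,z1,[[k0,k4],[k1,k2],[k3,k5]],.bnd k0⟩])))], [.old [([z3,z0,z0,z0,z0,y6],y2),([z0,z1,z0,z0,
    z0,z3],z2),([z0,z0,z3,z0,z0,y6],y2),([z0,z0,z0,z3,z0,z0],z2)] (.z (.x (.geo true z3 k5 [(y2,z6),(z6,y9),(y2,z6),
    (z2,z0),(z8,y6),(z0,z3)] [(z1,[z1]),(z1,[z0,z3]),(z1,[z0,z0,z1]),(z1,[z0,z0,z0,z1]),(z1,[y1,y3,y1,y1,z3]),(z1,
    [])] (Int.ofNat (nat_lit 349525)) (Int.ofNat (nat_lit 699051)) (.s (.s (.s (.l k2) (.l k1)) (.l k1)) (.l k1))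
    [⟨z1,z3,[[k0,k2],[k1,k5],[k3,k4]],.bnd k0⟩]))), .old [([z2,z0,z0,z0,z0,z0],z1),([z0,z1,z0,z0,z0,z1],z2),([z0,z0,
    z6,z0,z0,y6],y7),([z0,z0,z0,z1,z0,z1],z2)] (.z (.x (.geo true z6 k5 [(z3,z0),(z12,y6),(y7,z6),(z12,y6),(z4,z0),
    (z0,z6)] [(z1,[z3]),(z1,[z0,z6]),(z1,[z0,z0,z1]),(z1,[z0,z0,z0,z6]),(z1,[y3,y6,y1,y6,z6]),(z1,[])] (Int.ofNat
    (nat_lit 1223338)) (Int.ofNat (nat_lit 2097152)) (.s (.l k1) (.s (.l k1) (.l k2))) [⟨z2,z1,[[k0,k1],[k2,k3],[k4,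
    k5]],.bnd k1⟩]))), .old [([z1,z0,z0,z0,z0,y2],z0),([z0,z3,z0,z0,z0,z0],z2),([z0,z0,z1,z0,z0,z2],z2),([z0,z0,z0,
    z3,z0,z9],z4)] (.z (.x (.geo true z3 k5 [(z0,z6),(z2,z0),(z6,y6),(z4,y9),(z0,z6),(z0,z3)] [(z1,[z3]),(z1,[z0,
    z1]),(z1,[z0,z0,z3]),(z1,[z0,z0,z0,z1]),(z1,[y3,y1,y3,y1,z3]),(z1,[])] z0 (Int.ofNat (nat_lit 466034)) (.s (.s
    (.s (.l k2) (.l k1)) (.l k1)) (.s (.l k1) (.l k1))) [⟨z0,z1,[[k0,k3],[k1,k2],[k4,k5]],.bnd k0⟩]))), .old [([z3,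
    z0,z0,z0,z0,y6],y4),([z0,z3,z0,z0,z0,z0],z2),([z0,z0,z3,z0,z0,z6],z10),([z0,z0,z0,z1,z0,z2],z2)] (.z (.x (.geo
    true z3 k5 [(y4,z6),(z2,z0),(z10,y6),(z6,y6),(y2,z3),(z0,z3)] [(z1,[z1]),(z1,[z0,z1]),(z1,[z0,z0,z1]),(z1,[z0,
    z0,z0,z3]),(z1,[y1,y1,y1,y3,z3]),(z1,[])] (Int.ofNat (nat_lit 699050)) (Int.ofNat (nat_lit 1048576)) (.s (.s (.s
    (.l k2) (.l k1)) (.l k1)) (.s (.l k1) (.l k1))) [⟨z2,z3,[[k0,k5],[k1,k2],[k3,k4]],.bnd k0⟩]))), .old [([z1,z0,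
    z0,z0,y2,z0],z0),([z0,z3,z0,z0,z0,z0],z2),([z0,z0,z1,z0,z2,z0],z2),([z0,z0,z0,z3,z3,z0],z2)] (.z (.x (.geo true
    z3 k4 [(z0,z6),(z2,z0),(z6,y6),(z2,y3),(z0,z3),(z2,z0)] [(z1,[z3]),(z1,[z0,z1]),(z1,[z0,z0,z3]),(z1,[z0,z0,z0,
    z1]),(z1,[]),(z1,[y3,y1,y3,y1,z3])] z0 (Int.ofNat (nat_lit 699051)) (.s (.s (.s (.l k2) (.l k1)) (.l k1)) (.s
    (.l k1) (.l k1))) [⟨z0,z1,[[k0,k5],[k1,k2],[k3,k4]],.bnd k0⟩]))), .old [([z3,z0,z0,z0,z0,y3],y2),([z0,z1,z0,z0,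
    z0,z2],z2),([z0,z0,z3,z0,z0,y6],y4),([z0,z0,z0,z3,z0,z0],z2)] (.z (.x (.geo true z3 k5 [(y2,z3),(z6,y6),(y4,z6),
    (z2,z0),(z10,y6),(z0,z3)] [(z1,[z1]),(z1,[z0,z3]),(z1,[z0,z0,z1]),(z1,[z0,z0,z0,z1]),(z1,[y1,y3,y1,y1,z3]),(z1,
    [])] (Int.ofNat (nat_lit 699050)) (Int.ofNat (nat_lit 1048576)) (.s (.l k2) (.l k1)) [⟨z2,z3,[[k0,k5],[k1,k2],
    [k3,k4]],.bnd k0⟩]))), .old [([z3,z0,z0,z0,z0,z0],z2),([z0,z2,z0,z0,z0,z1],z2),([z0,z0,z6,z0,z0,y3],y2),([z0,z0,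
    z0,z1,z0,z1],z2)] (.z (.x (.geo true z6 k5 [(z4,z0),(z6,y3),(y2,z3),(z12,y6),(z4,z0),(z0,z6)] [(z1,[z2]),(z1,
    [z0,z3]),(z1,[z0,z0,z1]),(z1,[z0,z0,z0,z6]),(z1,[y2,y3,y1,y6,z6]),(z1,[])] (Int.ofNat (nat_lit 699050))
    (Int.ofNat (nat_lit 2097152)) (.s (.l k1) (.s (.l k1) (.l k2))) [⟨z2,z1,[[k0,k1],[k2,k3],[k4,k5]],.bnd k1⟩]))),
    .old [([z1,z0,z0,z0,z0,y2],z0),([z0,z3,z0,z0,z0,z0],z2),([z0,z0,z1,z0,z0,z2],z2),([z0,z0,z0,z3,z0,z6],z4)] (.z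
    (.x (.geo true z3 k5 [(z0,z6),(z2,z0),(z6,y6),(z4,y6),(z0,z3),(z0,z3)] [(z1,[z3]),(z1,[z0,z1]),(z1,[z0,z0,z3]),
    (z1,[z0,z0,z0,z1]),(z1,[y3,y1,y3,y1,z3]),(z1,[])] z0 (Int.ofNat (nat_lit 699051)) (.s (.s (.s (.l k2) (.l k1))
    (.l k1)) (.s (.l k1) (.l k1))) [⟨z0,z1,[[k0,k3],[k1,k2],[k4,k5]],.bnd k0⟩]))), .old [([z3,z0,z0,z0,z0,y3],y2),
    ([z0,z1,z0,z0,z0,z2],z2),([z0,z0,z1,z0,z0,y3],y2),([z0,z0,z0,z3,z0,z0],z2)] (.z (.x (.geo true z3 k5 [(y2,z3),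
    (z6,y6),(y6,z9),(z2,z0),(z12,y9),(z0,z3)] [(z1,[z1]),(z1,[z0,z3]),(z1,[z0,z0,z3]),(z1,[z0,z0,z0,z1]),(z1,[y1,y3,
    y3,y1,z3]),(z1,[])] (Int.ofNat (nat_lit 699050)) (Int.ofNat (nat_lit 1048576)) (.s (.l k2) (.l k1)) [⟨z2,z3,
    [[k0,k5],[k1,k2],[k3,k4]],.bnd k0⟩]))), .old [([z1,z0,z0,z0,y1,y1],z0),([z0,z2,z0,z0,z1,z1],z2),([z0,z0,z1,z0,
    z1,z1],z2)] (.z (.x (.old (.tor k4 true k4 [(z1,[z1,z1]),(z1,[z1,z0,z1]),(z1,[z0,z0,z1]),(z1,[y2,y1,y2,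
    z2])])))), .old [([z1,z0,z0,z0,y2,z0],z0),([z0,z1,z0,z0,y1,z0],z0),([z0,z0,z1,z0,z2,z0],z2)] (.z (.x (.old (.tor
    k8 false k1 [(z1,[z0,z2,z1]),(z1,[z1,z0,z1]),(z1,[y1,y1,y1,z1]),(z1,[z0,y1,y1,z1])])))), .old [([z1,z0,z0,z0,z0,
    y2],z0),([z0,z1,z0,z0,z0,z6],z2),([z0,z0,z1,z0,z0,y2],z0),([z0,z0,z0,z1,z0,y3],z0)] (.z (.x (.geo true z1 k5
    [(z0,z2),(z2,y6),(z0,z2),(z0,z3),(z2,y2),(z0,z1)] [(z1,[z1]),(z1,[z0,z1]),(z1,[z0,z0,z1]),(z1,[z0,z0,z0,z1]),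
    (z1,[y1,y1,y1,y1,z1]),(z1,[])] z0 (Int.ofNat (nat_lit 349526)) (.s (.s (.s (.s (.s (.l k2) (.l k1)) (.l k1)) (.l
    k1)) (.s (.l k1) (.l k1))) (.s (.l k1) (.l k1))) [⟨z0,z1,[[k0,k1],[k2,k3],[k4,k5]],.bnd k0⟩]))), .old [([z1,z0,
    z0,z0,z0,y6],y4),([z0,z1,z0,z0,z0,y3],y2),([z0,z0,z1,z0,z0,z6],z6),([z0,z0,z0,z1,z0,z2],z2)] (.z (.x (.geo true
    z1 k5 [(y4,z6),(y2,z3),(z6,y6),(z2,y2),(z2,y2),(z0,z1)] [(z1,[z1]),(z1,[z0,z1]),(z1,[z0,z0,z1]),(z1,[z0,z0,z0,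
    z1]),(z1,[y1,y1,y1,y1,z1]),(z1,[])] (Int.ofNat (nat_lit 699050)) (Int.ofNat (nat_lit 1048576)) (.s (.s (.s (.l
    k1) (.l k1)) (.s (.s (.l k1) (.l k1)) (.l k1))) (.s (.l k1) (.s (.l k1) (.l k2)))) [⟨z1,z1,[[k0,k2],[k1,k4],[k3,
    k5]],.bnd k0⟩]))), .old [([z1,z0,z0,z0,z0,y2],z0),([z0,z1,z0,z0,z0,z4],z2),([z0,z0,z1,z0,z0,z5],z2),([z0,z0,z0,
    z1,z0,y8],y2)] (.z (.x (.geo true z1 k5 [(z0,z2),(z2,y4),(z2,y5),(y2,z8),(z2,y2),(z0,z1)] [(z1,[z1]),(z1,[z0,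
    z1]),(z1,[z0,z0,z1]),(z1,[z0,z0,z0,z1]),(z1,[y1,y1,y1,y1,z1]),(z1,[])] (Int.ofNat (nat_lit 262144)) (Int.ofNat
    (nat_lit 419431)) (.s (.s (.l k1) (.s (.s (.l k1) (.l k1)) (.l k1))) (.l k1)) []))), .old [([z1,z0,z0,z0,z0,y4],
    y2),([z0,z1,z0,z0,z0,y2],y1),([z0,z0,z1,z0,z0,z4],z4),([z0,z0,z0,z1,z0,z2],z2)] (.z (.x (.geo true z1 k5 [(y2,
    z4),(y1,z2),(z4,y4),(z2,y2),(z1,y1),(z0,z1)] [(z1,[z1]),(z1,[z0,z1]),(z1,[z0,z0,z1]),(z1,[z0,z0,z0,z1]),(z1,[y1,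
    y1,y1,y1,z1]),(z1,[])] (Int.ofNat (nat_lit 524288)) (Int.ofNat (nat_lit 1048576)) (.s (.s (.l k1) (.s (.l k1)
    (.l k1))) (.s (.l k1) (.s (.l k1) (.l k2)))) [⟨z1,z1,[[k0,k2],[k1,k4],[k3,k5]],.bnd k0⟩]))), .old [([z1,z0,z0,
    z0,z0,y4],y2),([z0,z1,z0,z0,z0,y6],y2),([z0,z0,z1,z0,z0,z3],z2),([z0,z0,z0,z1,z0,z6],z4)] (.z (.x (.geo true z1
    k5 [(y2,z4),(y2,z6),(z2,y3),(z4,y6),(z2,y2),(z0,z1)] [(z1,[z1]),(z1,[z0,z1]),(z1,[z0,z0,z1]),(z1,[z0,z0,z0,z1]),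
    (z1,[y1,y1,y1,y1,z1]),(z1,[])] (Int.ofNat (nat_lit 524288)) (Int.ofNat (nat_lit 699051)) (.s (.s (.l k1) (.l
    k1)) (.l k1)) [])))], [.old [([z5,z0,z0,z0,y10,z0],z2),([z0,z5,z0,z0,z5,z0],z4),([z0,z0,z5,z0,z10,z0],z8),([z0,
    z0,z0,z5,z0,z0],z4)] (.z (.x (.geo true z5 k4 [(z2,z10),(z4,y5),(z8,y10),(z4,z0),(z0,z5),(z2,z0)] [(z1,[z1]),
    (z1,[z0,z1]),(z1,[z0,z0,z1]),(z1,[z0,z0,z0,z1]),(z1,[]),(z1,[y1,y1,y1,y1,z5])] z0 (Int.ofNat (nat_lit 838861))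
    (.s (.s (.l k1) (.l k1)) (.s (.s (.s (.l k1) (.s (.l k1) (.s (.l k1) (.l k1)))) (.s (.s (.s (.l k1) (.l k1)) (.l
    k1)) (.l k1))) (.l k1))) []))), .old [([z3,z0,z0,z0,z0,y6],y4),([z0,z3,z0,z0,z0,y3],y2),([z0,z0,z3,z0,z0,z6],
    z10),([z0,z0,z0,z1,z0,z2],z2)] (.z (.x (.geo true z3 k5 [(y4,z6),(y2,z3),(z10,y6),(z6,y6),(z2,z0),(z0,z3)] [(z1,
    [z1]),(z1,[z0,z1]),(z1,[z0,z0,z1]),(z1,[z0,z0,z0,z3]),(z1,[y1,y1,y1,y3,z3]),(z1,[])] (Int.ofNat (nat_lit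
    699050)) (Int.ofNat (nat_lit 1048576)) (.s (.l k1) (.l k1)) []))), .old [([z1,z0,z0,z0,z0,y4],y2),([z0,z1,z0,z0,
    z0,z2],z2),([z0,z0,z1,z0,z0,y6],y2),([z0,z0,z0,z1,z0,z3],z2)] (.z (.x (.geo true z1 k5 [(y2,z4),(z2,y2),(y2,z6),
    (z2,y3),(z4,y6),(z0,z1)] [(z1,[z1]),(z1,[z0,z1]),(z1,[z0,z0,z1]),(z1,[z0,z0,z0,z1]),(z1,[y1,y1,y1,y1,z1]),(z1,
    [])] (Int.ofNat (nat_lit 524288)) (Int.ofNat (nat_lit 699051)) (.s (.l k1) (.l k1)) []))), .old [([z1,z0,z0,z0,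
    z0,y6],y4),([z0,z1,z0,z0,z0,z2],z2),([z0,z0,z1,z0,z0,y10],y6),([z0,z0,z0,z1,z0,z5],z4)] (.z (.x (.geo true z1 k5
    [(y4,z6),(z2,y2),(y6,z10),(z4,y5),(z8,y10),(z0,z1)] [(z1,[z1]),(z1,[z0,z1]),(z1,[z0,z0,z1]),(z1,[z0,z0,z0,z1]),
    (z1,[y1,y1,y1,y1,z1]),(z1,[])] (Int.ofNat (nat_lit 699050)) (Int.ofNat (nat_lit 838861)) (.s (.s (.l k1) (.l
    k1)) (.s (.l k1) (.l k1))) []))), .old [([z2,z0,z0,z0,y4,z0],z1),([z0,z4,z0,z0,z4,z0],z3),([z0,z0,z2,z0,z4,z0],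
    z3),([z0,z0,z0,z4,z0,z0],z3)] (.z (.x (.geo true z4 k4 [(z2,z8),(z3,y4),(z6,y8),(z3,z0),(z0,z4),(z2,z0)] [(z1,
    [z2]),(z1,[z0,z1]),(z1,[z0,z0,z2]),(z1,[z0,z0,z0,z1]),(z1,[]),(z1,[y2,y1,y2,y1,z4])] z0 (Int.ofNat (nat_lit
    786432)) (.s (.s (.l k1) (.l k1)) (.s (.s (.s (.l k1) (.l k1)) (.s (.l k1) (.l k1))) (.l k1))) []))), .old
    [([z1,z0,z0,z0,y2,y1],z0),([z0,z2,z0,z0,z2,z1],z2),([z0,z0,z1,z0,z2,z1],z2)] (.z (.x (.old (.lp [(nat_lit 1152),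
    (nat_lit 436),(nat_lit 724),(nat_lit 396),(nat_lit 692),(nat_lit 428)] [k0,k0,(nat_lit 358),(nat_lit 358),
    (nat_lit 214),(nat_lit 214),(nat_lit 378),(nat_lit 378),(nat_lit 388),k72,(nat_lit 362),(nat_lit 362)] k0 [[k0,
    k0,k0,k0,k128,k0,k0,k0,k0,k0,(nat_lit 538)],[k0,k0,k0,k40,k0,k0,k0,k32],[k40,k0,k0,k0,k0,k0,k0,k0,k0,k0,k70],
    [k0,k0,k0,k0,k0,k0,k0,k0,k0,k134],[k0,k0,k0,k0,k0,k0,(nat_lit 482)],[k0,k128],[k32],[k0,k0,k0,k0,k0,(nat_lit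
    482),k0,k0,k0,(nat_lit 212)],[k0,k0,k134,k0,k0,k0,(nat_lit 212)],[k0,k0,k0,k0,k0,k0,k0,k0,k0,k0,k0,k44],[k0,k0,
    k0,k0,k0,k0,k0,k0,k44],[k0,(nat_lit 538),k0,k70]] (nat_lit 1920) k6 [[(k0,(nat_lit 614)),(k2,(nat_lit 724)),(k6,
    (nat_lit 774)),(k10,(nat_lit 790)),(k8,(nat_lit 808)),(k4,(nat_lit 938))],[(k1,(nat_lit 614)),(k7,(nat_lit
    646)),(k11,(nat_lit 790)),(k3,(nat_lit 794)),(k5,(nat_lit 978)),(k9,(nat_lit 1112))],[(k6,(nat_lit 384)),(k2,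
    (nat_lit 396)),(k8,(nat_lit 406)),(k4,(nat_lit 708)),(k0,(nat_lit 794)),(k10,(nat_lit 970))],[(k3,(nat_lit
    396)),(k7,(nat_lit 416)),(k11,(nat_lit 566)),(k5,(nat_lit 580)),(k9,(nat_lit 722)),(k1,(nat_lit 724))],[(k8,
    (nat_lit 416)),(k6,(nat_lit 560)),(k2,(nat_lit 580)),(k10,(nat_lit 646)),(k4,(nat_lit 724)),(k0,(nat_lit 978))],
    [(k9,(nat_lit 384)),(k7,(nat_lit 560)),(k11,(nat_lit 576)),(k3,(nat_lit 708)),(k5,(nat_lit 724)),(k1,(nat_lit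
    938))],[(k8,(nat_lit 386)),(k10,(nat_lit 412)),(k2,(nat_lit 416)),(k4,(nat_lit 560)),(k0,(nat_lit 646)),(k6,
    (nat_lit 878))],[(k3,(nat_lit 384)),(k5,(nat_lit 560)),(k11,(nat_lit 624)),(k9,(nat_lit 702)),(k1,(nat_lit
    774)),(k7,(nat_lit 878))],[(k4,(nat_lit 384)),(k8,(nat_lit 480)),(k6,(nat_lit 702)),(k10,(nat_lit 718)),(k2,
    (nat_lit 722)),(k0,(nat_lit 1112))],[(k7,(nat_lit 386)),(k11,(nat_lit 402)),(k3,(nat_lit 406)),(k5,(nat_lit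
    416)),(k9,(nat_lit 480)),(k1,(nat_lit 808))],[(k10,(nat_lit 384)),(k8,(nat_lit 402)),(k2,(nat_lit 566)),(k4,
    (nat_lit 576)),(k6,(nat_lit 624)),(k0,(nat_lit 790))],[(k11,(nat_lit 384)),(k7,(nat_lit 412)),(k5,(nat_lit
    646)),(k9,(nat_lit 718)),(k1,(nat_lit 790)),(k3,(nat_lit 970))]] [[k0,k2,k2],[k0,k4],[k1,k3,k3],[k1,k5],[k4,k10,
    k8,k8],[k5,k9,k9,k11],[k6,k6,k10],[k6,k10,k6],[k7,k7,k11],[k7,k11,k7]] k2 [[k2,k0,k0,k0,k0,k0],[k3,k0,k0,k0,k0,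
    k0],[k1,k1,k0,k0,k0,k0],[k1,k1,k0,k1,k0,k0],[k1,k0,k0,k1,k0,k0],[k1,k0,k0,k0,k0,k1],[k0,k2,k0,k0,k0,k0],[k0,k3,
    k0,k0,k0,k0],[k0,k4,k0,k0,k0,k0],[k0,k3,k0,k1,k0,k0],[k0,k2,k1,k0,k0,k0],[k0,k2,k0,k1,k0,k0],[k0,k2,k0,k1,k1,
    k0],[k0,k2,k0,k1,k0,k1],[k0,k2,k0,k0,k1,k0],[k0,k2,k1,k0,k1,k0],[k0,k1,k1,k0,k0,k0],[k0,k1,k1,k1,k0,k0],[k0,k1,
    k1,k0,k1,k0],[k0,k1,k0,k1,k0,k0],[k0,k2,k0,k2,k0,k0],[k0,k1,k0,k2,k0,k0],[k0,k1,k0,k1,k1,k0],[k0,k1,k1,k1,k1,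
    k0],[k0,k1,k0,k2,k1,k0],[k0,k1,k0,k1,k0,k1],[k0,k1,k0,k2,k0,k1],[k0,k1,k0,k1,k0,k2],[k0,k1,k0,k0,k1,k0],[k0,k1,
    k0,k0,k2,k0],[k0,k1,k1,k0,k2,k0],[k0,k1,k0,k0,k1,k1],[k0,k1,k0,k0,k0,k1],[k0,k0,k2,k0,k0,k0],[k0,k0,k2,k1,k0,
    k0],[k0,k0,k2,k0,k1,k0],[k0,k0,k1,k1,k0,k0],[k0,k0,k1,k1,k1,k0],[k0,k0,k1,k1,k2,k0],[k0,k0,k1,k1,k0,k1],[k0,k0,
    k1,k1,k1,k1],[k0,k0,k1,k0,k1,k0],[k0,k0,k2,k0,k2,k0],[k0,k0,k1,k0,k2,k0],[k0,k0,k1,k0,k3,k0],[k0,k0,k1,k0,k1,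
    k1],[k0,k0,k1,k0,k0,k1],[k0,k0,k1,k0,k0,k2],[k0,k0,k1,k0,k1,k2],[k0,k0,k0,k2,k0,k0],[k0,k0,k0,k1,k1,k0],[k0,k0,
    k0,k1,k2,k0],[k0,k0,k0,k1,k1,k1],[k0,k0,k0,k1,k0,k1],[k0,k0,k0,k1,k0,k2],[k0,k0,k0,k1,k1,k2],[k0,k0,k0,k1,k0,
    k3],[k0,k0,k0,k0,k2,k0],[k0,k0,k0,k0,k3,k0],[k0,k0,k0,k0,k2,k1],[k0,k0,k0,k0,k1,k1],[k0,k0,k0,k0,k1,k2],[k0,k0,
    k0,k0,k1,k3],[k0,k0,k0,k0,k0,k2],[k0,k0,k0,k0,k0,k3],[k0,k0,k0,k0,k0,k4]] [.contra [z1],.ref k0 k9 [(z2,[y1,z3,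
    z1,z2])],.contra [y1,z1,z1],.contra [z1,z0,z0,z1,y1],.ref k1 k2 [(z1,[z1])],.ref k0 k2 [(z1,[z1])],.contra [z1],
    .ref k0 k9 [(z1,[z1,z0,y1,z1])],.contra [y1,z2,z2],.ref k3 k2 [(z1,[y1,z0,z1,y1,z1])],.contra [y1,z2,z1,z1],.ref
    k0 k0 [(z1,[z1,z0,y1,z1])],.ref k3 k4 [(z1,[z1,z0,y1,z1])],.ref k1 k2 [(z1,[y1,y1,z0,y2,z2])],.contra [y2,z1,
    z2],.ref k3 k2 [(z1,[y1,z1,z1,z1])],.ref k0 k9 [(z1,[z1])],.ref k3 k2 [(z1,[y1,z0,z0,z0,z1])],.ref k0 k0 [(z1,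
    [z1,y1,y1,y1,z1])],.contra [y2,y1,z0,y2,z2],.ref k0 k2 [(z1,[y1,y1,z0,y2,z2])],.ref k3 k4 [(z1,[z1,z1,z0,z2,
    y1])],.contra [z1,y1,y1,y1,z1],.ref k0 k2 [(z1,[y1,z0,z0,z0,z1])],.ref k68 k2 [(z1,[y2,y3,y1,y4,z4]),(z1,[z1,z2,
    z1,z2,y2]),(z1,[z2,z4,z1,z5,y4])],.contra [y1,y1,z0,y1,z1],.contra [z1,z2,z1,z2,y2],.ref k69 k3 [(z1,[z2,z8,z3,
    z9,y8]),(z1,[z1,z4,z2,z4,y4]),(z1,[y2,y7,y3,y8,z8]),(z1,[z0,y2,y1,y2,z2])],.contra [y2,z1,z2],.contra [y1,z0,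
    z1],.ref k3 k4 [(z1,[z1,y1,y1,y1,z1])],.contra [y1,y1,z0,y1,z1],.contra [y1,y1,z0,y1,z1],.contra [y1,z2,z0,z2],
    .ref k70 k9 [(z1,[z0,z0,y1,z1]),(z1,[z1,z0,z2,y2]),(z1,[z1,z1,z3,y1,y1]),(z1,[y2,y2,y5,z2,z2])],.ref k3 k2 [(z1,
    [y1,z1,z0,z2])],.ref k0 k0 [(z1,[z1])],.ref k3 k4 [(z1,[z1])],.ref k68 k2 [(z1,[y2,y1,y1,z0,z2]),(z1,[z1,z1,z1,
    z0,y1]),(z1,[z2,z2,z1,z1,y2])],.ref k1 k2 [(z1,[y1,y1,y1,y1,z2])],.contra [z1,z1,z1,z0,y1],.contra [y2,z1,z0,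
    z2],.ref k0 k2 [(z1,[y1,z1,z0,z2])],.contra [z1,y2,y1,y3,z2],.ref k69 k3 [(z1,[y2,z6,z3,z9,y6]),(z1,[y1,z3,z2,
    z4,y3]),(z1,[z2,y5,y3,y8,z6]),(z1,[z0,y2,y1,y2,z2])],.contra [y1,z0,z0,z1],.contra [y1,z0,z0,z1],.ref k71 k3
    [(z1,[z1,z4,z2,z4,y4]),(z2,[z1,z4,z3,z3,y4]),(z1,[y1,y3,y2,y3,z4]),(z1,[z0,y2,y1,y2,z2])],.ref k69 k3 [(z1,[z2,
    z6,z3,z5,y6]),(z1,[z1,z3,z2,z2,y3]),(z1,[y2,y5,y3,y4,z6]),(z1,[z0,y2,y1,y2,z2])],.contra [z1],.contra [y1,y1,z0,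
    y1,z1],.ref k72 k1 [(z1,[y2,y2,y1,y2,z2]),(z1,[y2,y1,y1,y2,z2]),(z1,[z1,z1,z1,z1,y1]),(z1,[z2,z2,z1,z3,y2])],
    .contra [y1,y1,z0,y1,z1],.contra [y1,y2,y1,y2,z2],.ref k68 k2 [(z1,[z2,z3,z1,z2,y2]),(z1,[y1,y1,z0,y1,z1]),(z1,
    [y2,y2,y1,y1,z2])],.ref k3 k4 [(z1,[y1,y2,y1,y1,z2])],.ref k73 k2 [(z1,[z2,z7,z1,z2,y2]),(z1,[y1,y1,z2,y1,z1]),
    (z1,[y2,y2,y1,z3,z2]),(z1,[y1,y6,y3,y6,z6])],.contra [z1],.ref k74 k3 [(z1,[y2,z6,z3,z9,y6]),(z1,[y1,z3,z3,z3,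
    y3]),(z1,[z2,y3,y3,y6,z6]),(z1,[z0,y2,y1,y2,z2])],.contra [y1,z0,z1],.contra [y1,y1,z0,y1,z1],.ref k75 k4 [(z1,
    [z1,z4,z2,z4,y4]),(z1,[z0,y2,y1,y2,z2]),(z1,[z2,z7,z3,z6,y6]),(z1,[y1,y3,y1,y3,z3])],.ref k76 k4 [(z1,[z1,z6,z3,
    z6,y6]),(z1,[z0,y2,y1,y2,z2]),(z1,[z2,z11,z5,z10,y10]),(z1,[y1,y5,y2,y5,z5])],.contra [z1],.ref k68 k2 [(z1,[z1,
    z1]),(z2,[y1,z0,z1]),(z1,[y1,z0,z0,z1])],.ref k77 k2 [(z2,[z1,z4]),(z2,[y1,z0,z4]),(z2,[y1,z0,z0,z4]),(z2,[y1,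
    y8,y4,y8,z8])]])))), .old [([z3,z0,z0,z0,z0,z0],z1),([z0,z1,z0,z0,z0,z1],z2),([z0,z0,z1,z0,z1,z0],z1)] (.z (.x
    (.old (.leafM k11 [k2,k3,k4,k0] [(z1,[y1,y3,y3,z3]),(z1,[z1]),(z1,[z0,z0,z1])] [(k5,k1,z1,[z0,z1]),(k1,k5,z1,
    [z0,z1])])))), .old [([z1,z0,z0,z0,z0,y4],y2),([z0,z1,z0,z0,z0,z2],z2),([z0,z0,z1,z0,z0,z4],z4),([z0,z0,z0,z1,
    z0,z1],z1)] (.z (.x (.geo true z1 k5 [(y2,z4),(z2,y2),(z4,y4),(z1,y1),(y1,z2),(z0,z1)] [(z1,[z1]),(z1,[z0,z1]),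
    (z1,[z0,z0,z1]),(z1,[z0,z0,z0,z1]),(z1,[y1,y1,y1,y1,z1]),(z1,[])] (Int.ofNat (nat_lit 524288)) (Int.ofNat
    (nat_lit 1048576)) (.s (.s (.s (.s (.l k2) (.l k1)) (.l k1)) (.s (.l k1) (.l k1))) (.s (.s (.l k1) (.l k1)) (.s
    (.l k1) (.l k1)))) [⟨z1,z2,[[k0,k2],[k1,k5],[k3,k4]],.bnd k0⟩]))), .old [([z1,z0,z0,z0,z0,y4],y2),([z0,z1,z0,z0,
    z0,z3],z2),([z0,z0,z1,z0,z0,y4],y2),([z0,z0,z0,z1,z0,z2],z2)] (.z (.x (.geo true z1 k5 [(y2,z4),(z2,y3),(y2,z4),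
    (z2,y2),(z4,y4),(z0,z1)] [(z1,[z1]),(z1,[z0,z1]),(z1,[z0,z0,z1]),(z1,[z0,z0,z0,z1]),(z1,[y1,y1,y1,y1,z1]),(z1,
    [])] (Int.ofNat (nat_lit 524288)) (Int.ofNat (nat_lit 699051)) (.s (.l k2) (.l k1)) [⟨z1,z2,[[k0,k5],[k1,k2],
    [k3,k4]],.bnd k0⟩]))), .old [([z1,z0,z0,z0,z0,y2],z0),([z0,z2,z0,z0,z0,z0],z1),([z0,z0,z1,z0,z0,z2],z2),([z0,z0,
    z0,z2,z0,y2],y1)] (.z (.x (.geo true z2 k5 [(z0,z4),(z1,z0),(z4,y4),(y1,z2),(z4,y4),(z0,z2)] [(z1,[z2]),(z1,[z0,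
    z1]),(z1,[z0,z0,z2]),(z1,[z0,z0,z0,z1]),(z1,[y2,y1,y2,y1,z2]),(z1,[])] (Int.ofNat (nat_lit 524288)) (Int.ofNat
    (nat_lit 1048576)) (.s (.l k1) (.s (.l k1) (.l k2))) [⟨z1,z1,[[k0,k4],[k1,k2],[k3,k5]],.bnd k0⟩]))), .old [([z1,
    z0,z0,z0,z0,y2],z0),([z0,z1,z0,z0,z0,z1],z1),([z0,z0,z1,z0,z0,z2],z2),([z0,z0,z0,z1,z0,y2],y1)] (.z (.x (.geo
    true z1 k5 [(z0,z2),(z1,y1),(z2,y2),(y1,z2),(z2,y2),(z0,z1)] [(z1,[z1]),(z1,[z0,z1]),(z1,[z0,z0,z1]),(z1,[z0,z0,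
    z0,z1]),(z1,[y1,y1,y1,y1,z1]),(z1,[])] (Int.ofNat (nat_lit 524288)) (Int.ofNat (nat_lit 1048576)) (.s (.s (.l
    k1) (.l k1)) (.s (.l k1) (.s (.l k1) (.s (.l k1) (.l k2))))) [⟨z1,z1,[[k0,k1],[k2,k4],[k3,k5]],.bnd k0⟩]))),
    .old [([z1,z0,z0,z0,z0,y3],y2),([z0,z2,z0,z0,z0,z3],z4),([z0,z0,z1,z0,z0,z2],z2),([z0,z0,z0,z1,z0,z1],z2)] (.z
    (.x (.geo true z2 k5 [(y4,z6),(z4,y3),(z4,y4),(z4,y2),(z0,z1),(z0,z2)] [(z1,[z2]),(z1,[z0,z1]),(z1,[z0,z0,z2]),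
    (z1,[z0,z0,z0,z2]),(z1,[y2,y1,y2,y2,z2]),(z1,[])] (Int.ofNat (nat_lit 699050)) (Int.ofNat (nat_lit 1048576)) (.s
    (.s (.l k1) (.l k1)) (.s (.l k1) (.l k1))) []))), .old [([z1,z0,z0,z0,z0,y2],z0),([z0,z1,z0,z2,z0,z2],z2),([z0,
    z0,z1,y1,z0,y1],z0)] (.z (.x (.old (.lp [(nat_lit 732),(nat_lit 632),(nat_lit 606),(nat_lit 456),(nat_lit 788),
    (nat_lit 614)] [k28,k28,k148,k8,k91,k91,k166,k166,k0,k0,k87,k87] k0 [[k0,k0,k50],[k0,k0,k0,k0,k0,k0,k0,(nat_lit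
    294)],[k0,k0,k0,k0,k70,k0,k182],[k0,k50],[k0,k0,k0,k0,k0,k0,(nat_lit 244)],[k0,k0,k0,k70,k0,k0,k0,k0,k0,k24],
    [(nat_lit 294)],[k0,k0,k0,k182,k0,(nat_lit 244)],[k0,k0,k0,k0,k24],[k0,k0,k0,k0,k0,k0,k0,k0,k0,k0,k0,k102],[k0,
    k0,k0,k0,k0,k0,k0,k0,k102]] (nat_lit 1920) k7 [[(k6,(nat_lit 594)),(k2,(nat_lit 612)),(k4,(nat_lit 669)),(k10,
    (nat_lit 673)),(k0,(nat_lit 732)),(k8,(nat_lit 862))],[(k7,(nat_lit 594)),(k5,(nat_lit 619)),(k11,(nat_lit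
    673)),(k1,(nat_lit 732)),(k3,(nat_lit 752)),(k9,(nat_lit 1054))],[(k6,(nat_lit 320)),(k2,(nat_lit 682)),(k4,
    (nat_lit 689)),(k10,(nat_lit 693)),(k0,(nat_lit 752)),(k8,(nat_lit 780))],[(k7,(nat_lit 404)),(k9,(nat_lit
    458)),(k5,(nat_lit 549)),(k11,(nat_lit 553)),(k1,(nat_lit 612)),(k3,(nat_lit 682))],[(k2,(nat_lit 549)),(k10,
    (nat_lit 610)),(k0,(nat_lit 619)),(k4,(nat_lit 676)),(k8,(nat_lit 697)),(k6,(nat_lit 713))],[(k9,(nat_lit 453)),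
    (k7,(nat_lit 531)),(k11,(nat_lit 634)),(k1,(nat_lit 669)),(k5,(nat_lit 676)),(k3,(nat_lit 689))],[(k2,(nat_lit
    404)),(k4,(nat_lit 531)),(k10,(nat_lit 535)),(k0,(nat_lit 594)),(k8,(nat_lit 598)),(k6,(nat_lit 700))],[(k3,
    (nat_lit 320)),(k11,(nat_lit 535)),(k1,(nat_lit 594)),(k9,(nat_lit 622)),(k7,(nat_lit 700)),(k5,(nat_lit 713))],
    [(k4,(nat_lit 453)),(k2,(nat_lit 458)),(k6,(nat_lit 622)),(k10,(nat_lit 701)),(k8,(nat_lit 788)),(k0,(nat_lit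
    1054))],[(k7,(nat_lit 598)),(k5,(nat_lit 697)),(k11,(nat_lit 701)),(k3,(nat_lit 780)),(k9,(nat_lit 788)),(k1,
    (nat_lit 862))],[(k10,(nat_lit 512)),(k6,(nat_lit 535)),(k2,(nat_lit 553)),(k4,(nat_lit 634)),(k0,(nat_lit
    673)),(k8,(nat_lit 701))],[(k11,(nat_lit 512)),(k7,(nat_lit 535)),(k5,(nat_lit 610)),(k1,(nat_lit 673)),(k3,
    (nat_lit 693)),(k9,(nat_lit 701))]] [[k0,k6,k2,k6],[k0,k8],[k1,k7,k3,k7],[k1,k9],[k2,k4,k4],[k3,k5,k5],[k8,k10,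
    k10],[k9,k11,k11]] k2 [[k2,k0,k0,k0,k0,k0],[k1,k1,k0,k0,k0,k0],[k1,k1,k0,k1,k0,k0],[k1,k0,k1,k0,k0,k0],[k1,k0,
    k0,k1,k0,k0],[k1,k0,k1,k1,k0,k0],[k1,k0,k0,k2,k0,k0],[k1,k0,k0,k1,k0,k1],[k1,k0,k0,k0,k0,k1],[k1,k0,k0,k0,k0,
    k2],[k0,k2,k0,k0,k0,k0],[k0,k2,k0,k1,k0,k0],[k0,k1,k1,k0,k0,k0],[k0,k1,k1,k1,k0,k0],[k0,k1,k1,k0,k1,k0],[k0,k1,
    k1,k0,k0,k1],[k0,k1,k0,k1,k0,k0],[k0,k2,k0,k2,k0,k0],[k0,k1,k0,k2,k0,k0],[k0,k1,k0,k1,k1,k0],[k0,k1,k0,k1,k0,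
    k1],[k0,k1,k0,k2,k0,k1],[k0,k1,k0,k0,k1,k0],[k0,k1,k0,k0,k0,k1],[k0,k1,k0,k0,k1,k1],[k0,k1,k0,k0,k0,k2],[k0,k0,
    k2,k0,k0,k0],[k0,k0,k2,k0,k1,k0],[k0,k0,k1,k1,k0,k0],[k0,k0,k1,k1,k1,k0],[k0,k0,k1,k1,k0,k1],[k0,k0,k1,k0,k1,
    k0],[k0,k0,k1,k0,k0,k1],[k0,k0,k1,k0,k1,k1],[k0,k0,k1,k0,k0,k2],[k0,k0,k0,k2,k0,k0],[k0,k0,k0,k2,k0,k1],[k0,k0,
    k0,k1,k1,k0],[k0,k0,k0,k1,k1,k1],[k0,k0,k0,k1,k0,k1],[k0,k0,k0,k1,k0,k2],[k0,k0,k0,k0,k2,k0],[k0,k0,k0,k0,k1,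
    k1],[k0,k0,k0,k0,k0,k2],[k0,k0,k0,k0,k0,k3]] [.contra [z1],.contra [y1,z1,z1],.contra [y1,z1,z1],.ref k89 k4
    [(z1,[y1,z0,y1,y1,z1]),(z1,[z1,y1]),(z1,[z1])],.contra [y1,z1,z1],.ref k63 k4 [(z1,[y1,z0,y1,y1,z1]),(z1,[z1,
    y1]),(z1,[z1])],.contra [z1,y1,z0,z2],.ref k89 k4 [(z1,[y1,z0,y1,y2,z1]),(z1,[z1,y1,z0,z1]),(z1,[z1,z0,z0,z1])],
    .ref k0 k2 [(z1,[z1])],.contra [z1,z1],.contra [z1],.ref k78 k4 [(z1,[z1,y1,y3,y3,z1]),(z1,[y1,z0,z2,z2]),(z1,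
    [y1,z1,z2,z2])],.contra [y1,z0,z1,z2],.contra [y2,z1,z2,z2],.ref k89 k4 [(z1,[z1,z0,y1,y2]),(z1,[y1,y1,z0,z1,
    z1]),(z1,[y1,z0,z0,z1,z1])],.contra [y1,z0,z1,z1],.contra [y2,z1,z2,z2],.ref k1 k4 [(z1,[z1,y1,y2,y1,z1])],
    .contra [y1,z1,z1],.ref k90 k6 [(z1,[z2,y1,z1,z2,y2]),(z1,[y2,z1,z0,z0,z2]),(z1,[y1,z1,z0,y1,z1]),(z1,[z0,z0,y1,
    y1,z1])],.contra [y1,z0,z1,z1],.contra [y2,z1,z2],.ref k1 k4 [(z1,[z1])],.contra [y1,z0,z1,z1],.ref k63 k4 [(z1,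
    [z1,z0,y1,y1]),(z1,[y1,y1,z0,z0,z1]),(z1,[y1,z0,z0,z0,z1])],.contra [y1,z0,z1],.contra [z1],.contra [z1,z1,z1,
    y1,y1],.contra [y2,z1,z2,z2],.ref k3 k4 [(z1,[z1])],.contra [z1,z0,z0,z1],.ref k3 k1 [(z1,[z1,z0,z0,y1])],
    .contra [y1,z0,z1,z1],.contra [z1,z1,z1,z0,y1],.ref k89 k4 [(z1,[y1,y1,y1,y1,z1]),(z1,[z1]),(z1,[z1,z1])],
    .contra [z1],.contra [y2,z1,z2],.ref k0 k4 [(z1,[z1])],.ref k3 k1 [(z1,[z1])],.contra [y1,z0,z1,z1],.contra [y1,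
    z0,z1],.contra [y1,z0,y2,y2,z2],.contra [y2,y1,y2,y2,z2],.contra [z1],.ref k0 k2 [(z1,[z1,z1])]])))), .old
    [([z1,z0,z0,z0,z0,y2],z0),([z0,z2,z0,z0,z0,z1],z2),([z0,z0,z1,z0,z0,y2],z0),([z0,z0,z0,z2,z0,z5],z2)] (.z (.x
    (.geo true z2 k5 [(z0,z4),(z2,y1),(z0,z4),(z2,y5),(z4,y4),(z0,z2)] [(z1,[z2]),(z1,[z0,z1]),(z1,[z0,z0,z2]),(z1,
    [z0,z0,z0,z1]),(z1,[y2,y1,y2,y1,z2]),(z1,[])] z0 (Int.ofNat (nat_lit 419431)) (.s (.s (.s (.l k2) (.l k1)) (.l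
    k1)) (.s (.l k1) (.s (.l k1) (.l k1)))) [⟨z0,z1,[[k0,k2],[k1,k3],[k4,k5]],.bnd k0⟩]))), .old [([z1,z0,z0,z0,z0,
    y2],z0),([z0,z1,z0,z0,z0,z1],z1),([z0,z0,z1,z0,z0,y2],z0),([z0,z0,z0,z1,z0,z2],z1)] (.z (.x (.geo true z1 k5
    [(z0,z2),(z1,y1),(z0,z2),(z1,y2),(z2,y2),(z0,z1)] [(z1,[z1]),(z1,[z0,z1]),(z1,[z0,z0,z1]),(z1,[z0,z0,z0,z1]),
    (z1,[y1,y1,y1,y1,z1]),(z1,[])] z0 (Int.ofNat (nat_lit 524288)) (.s (.s (.s (.l k2) (.l k1)) (.l k1)) (.s (.l k3)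
    (.l k1))) [⟨z0,z1,[[k0,k2],[k1,k3],[k4,k5]],.bnd k0⟩,⟨z1,z3,[[k0,k4],[k1,k3],[k2,k5]],.child (.ref k1 k4 [(z1,
    [y1,y1,z0,y1,y1,z1])])⟩]))), .old [([z1,z0,z0,z0,z0,y4],z0),([z0,z1,z0,z0,z0,y2],z0),([z0,z0,z1,z0,z0,z4],z2),
    ([z0,z0,z0,z1,z0,y3],z0)] (.z (.x (.geo true z1 k5 [(z0,z4),(z0,z2),(z2,y4),(z0,z3),(z2,y6),(z0,z1)] [(z1,[z1]),
    (z1,[z0,z1]),(z1,[z0,z0,z1]),(z1,[z0,z0,z0,z1]),(z1,[y1,y1,y1,y1,z1]),(z1,[])] z0 (Int.ofNat (nat_lit 349526))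
    (.s (.s (.s (.l k2) (.l k1)) (.l k1)) (.l k1)) [⟨z0,z1,[[k0,k1],[k2,k3],[k4,k5]],.bnd k0⟩])))], [.old [([z1,z0,
    z0,z0,z0,y2],z0),([z0,z2,z0,z0,z0,y3],z0),([z0,z0,z1,z0,z0,z3],z2),([z0,z0,z0,z2,z0,y1],z0)] (.z (.x (.geo true
    z2 k5 [(z0,z4),(z0,z3),(z4,y6),(z0,z1),(z4,y4),(z0,z2)] [(z1,[z2]),(z1,[z0,z1]),(z1,[z0,z0,z2]),(z1,[z0,z0,z0,
    z1]),(z1,[y2,y1,y2,y1,z2]),(z1,[])] z0 (Int.ofNat (nat_lit 699051)) (.s (.s (.s (.l k2) (.l k1)) (.s (.l k1) (.s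
    (.l k1) (.l k1)))) (.s (.s (.l k1) (.l k1)) (.l k1))) [⟨z0,z1,[[k0,k1],[k2,k3],[k4,k5]],.bnd k0⟩]))), .old
    [([z1,z0,z0,z0,z0,y4],y2),([z0,z1,z0,z0,z0,y5],y4),([z0,z0,z1,z0,z0,z4],z4),([z0,z0,z0,z1,z0,z2],z2)] (.z (.x
    (.geo true z1 k5 [(y2,z4),(y4,z5),(z4,y4),(z2,y2),(z4,y4),(z0,z1)] [(z1,[z1]),(z1,[z0,z1]),(z1,[z0,z0,z1]),(z1,
    [z0,z0,z0,z1]),(z1,[y1,y1,y1,y1,z1]),(z1,[])] (Int.ofNat (nat_lit 838860)) (Int.ofNat (nat_lit 1048576)) (.s (.l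
    k1) (.l k2)) [⟨z1,z1,[[k0,k2],[k1,k4],[k3,k5]],.bnd k0⟩]))), .old [([z1,z0,z0,z0,z0,y4],y2),([z0,z1,z0,z0,z0,
    z2],z2),([z0,z0,z1,z0,z0,y4],y2),([z0,z0,z0,z1,z0,z3],z2)] (.z (.x (.geo true z1 k5 [(y2,z4),(z2,y2),(y2,z4),
    (z2,y3),(z4,y4),(z0,z1)] [(z1,[z1]),(z1,[z0,z1]),(z1,[z0,z0,z1]),(z1,[z0,z0,z0,z1]),(z1,[y1,y1,y1,y1,z1]),(z1,
    [])] (Int.ofNat (nat_lit 524288)) (Int.ofNat (nat_lit 699051)) (.s (.s (.l k2) (.l k1)) (.l k1)) [⟨z1,z2,[[k0,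
    k2],[k1,k5],[k3,k4]],.bnd k0⟩]))), .old [([z1,z0,z0,z0,z0,y2],y1),([z0,z1,z0,z0,z0,z2],z2),([z0,z0,z1,z0,z0,y2],
    y1),([z0,z0,z0,z1,z0,z1],z1)] (.z (.x (.geo true z1 k5 [(y1,z2),(z2,y2),(y1,z2),(z1,y1),(z3,y2),(z0,z1)] [(z1,
    [z1]),(z1,[z0,z1]),(z1,[z0,z0,z1]),(z1,[z0,z0,z0,z1]),(z1,[y1,y1,y1,y1,z1]),(z1,[])] (Int.ofNat (nat_lit
    524288)) (Int.ofNat (nat_lit 1048576)) (.s (.s (.s (.l k2) (.l k1)) (.l k1)) (.l k1)) [⟨z1,z2,[[k0,k2],[k1,k5],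
    [k3,k4]],.bnd k0⟩]))), .old [([z1,z0,z0,z0,z0,y3],z0),([z0,z1,z0,z0,z0,y4],y2),([z0,z0,z1,z0,z0,z3],z2),([z0,z0,
    z0,z1,z0,z2],z2)] (.z (.x (.geo true z1 k5 [(z0,z3),(y2,z4),(z2,y3),(z2,y2),(z2,y3),(z0,z1)] [(z1,[z1]),(z1,[z0,
    z1]),(z1,[z0,z0,z1]),(z1,[z0,z0,z0,z1]),(z1,[y1,y1,y1,y1,z1]),(z1,[])] (Int.ofNat (nat_lit 524288)) (Int.ofNat
    (nat_lit 699051)) (.s (.l k1) (.l k2)) [⟨z2,z3,[[k0,k5],[k1,k2],[k3,k4]],.bnd k0⟩]))), .old [([z1,z0,z0,z0,z0,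
    y5],y2),([z0,z1,z0,z0,z0,y6],y4),([z0,z0,z1,z0,z0,z5],z4),([z0,z0,z0,z1,z0,z2],z2)] (.z (.x (.geo true z1 k5
    [(y2,z5),(y4,z6),(z4,y5),(z2,y2),(z4,y5),(z0,z1)] [(z1,[z1]),(z1,[z0,z1]),(z1,[z0,z0,z1]),(z1,[z0,z0,z0,z1]),
    (z1,[y1,y1,y1,y1,z1]),(z1,[])] (Int.ofNat (nat_lit 699050)) (Int.ofNat (nat_lit 838861)) (.s (.l k1) (.l k2))
    [⟨z4,z5,[[k0,k5],[k1,k2],[k3,k4]],.bnd k0⟩]))), .old [([z1,z0,z0,z0,z0,y2],y3),([z0,z1,z0,z0,z0,z1],z2),([z0,z0,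
    z1,z0,z0,z2],z4),([z0,z0,z0,z1,z0,z1],z2)] (.z (.x (.geo true z1 k5 [(y3,z2),(z2,y1),(z4,y2),(z2,y1),(y1,z1),
    (z0,z1)] [(z1,[z1]),(z1,[z0,z1]),(z1,[z0,z0,z1]),(z1,[z0,z0,z0,z1]),(z1,[y1,y1,y1,y1,z1]),(z1,[])] (Int.ofNat
    (nat_lit 1572864)) (Int.ofNat (nat_lit 2097152)) (.s (.s (.l k1) (.l k1)) (.s (.l k1) (.s (.l k1) (.s (.l k1)
    (.l k2))))) [⟨z2,z1,[[k0,k1],[k2,k3],[k4,k5]],.bnd k1⟩]))), .old [([z1,z0,z0,z0,z0,y3],z0),([z0,z1,z0,z0,z0,z1],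
    z2),([z0,z0,z1,z0,z0,y2],z0),([z0,z0,z0,z1,z0,y1],z0)] (.z (.x (.geo true z1 k5 [(z0,z3),(z2,y1),(z0,z2),(z0,
    z1),(z2,y6),(z0,z1)] [(z1,[z1]),(z1,[z0,z1]),(z1,[z0,z0,z1]),(z1,[z0,z0,z0,z1]),(z1,[y1,y1,y1,y1,z1]),(z1,[])]
    z0 (Int.ofNat (nat_lit 349526)) (.s (.s (.s (.s (.s (.l k2) (.l k1)) (.l k1)) (.l k1)) (.s (.l k1) (.l k1))) (.s
    (.s (.l k1) (.l k1)) (.l k1))) [⟨z0,z1,[[k0,k1],[k2,k3],[k4,k5]],.bnd k0⟩]))), .old [([z1,z0,z0,z0,z0,y3],z0),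
    ([z0,z1,z0,z0,z0,z2],z2),([z0,z0,z1,z0,z0,z3],z2),([z0,z0,z0,z1,z0,y4],y2)] (.z (.x (.geo true z1 k5 [(z0,z3),
    (z2,y2),(z2,y3),(y2,z4),(z2,y3),(z0,z1)] [(z1,[z1]),(z1,[z0,z1]),(z1,[z0,z0,z1]),(z1,[z0,z0,z0,z1]),(z1,[y1,y1,
    y1,y1,z1]),(z1,[])] (Int.ofNat (nat_lit 524288)) (Int.ofNat (nat_lit 699051)) (.s (.l k1) (.s (.l k1) (.l k2)))
    [⟨z2,z3,[[k0,k5],[k1,k2],[k3,k4]],.bnd k0⟩]))), .old [([z2,z0,z0,z0,z0,y2],y1),([z0,z1,z0,z0,z0,z2],z2),([z0,z0,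
    z2,z0,z0,y2],y1),([z0,z0,z0,z2,z0,z0],z1)] (.z (.x (.geo true z2 k5 [(y1,z2),(z4,y4),(y1,z2),(z1,z0),(z5,y2),
    (z0,z2)] [(z1,[z1]),(z1,[z0,z2]),(z1,[z0,z0,z1]),(z1,[z0,z0,z0,z1]),(z1,[y1,y2,y1,y1,z2]),(z1,[])] (Int.ofNat
    (nat_lit 524288)) (Int.ofNat (nat_lit 1048576)) (.s (.s (.s (.s (.l k2) (.l k1)) (.l k1)) (.l k1)) (.l k1))
    [⟨z1,z2,[[k0,k2],[k1,k5],[k3,k4]],.bnd k0⟩]))), .old [([z5,z0,z0,z0,z0,y5],y2),([z0,z1,z0,z0,z0,z2],z2),([z0,z0,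
    z5,z0,z0,y5],y2),([z0,z0,z0,z5,z0,z0],z2)] (.z (.x (.geo true z5 k5 [(y2,z5),(z10,y10),(y2,z5),(z2,z0),(z12,y5),
    (z0,z5)] [(z1,[z1]),(z1,[z0,z5]),(z1,[z0,z0,z1]),(z1,[z0,z0,z0,z1]),(z1,[y1,y5,y1,y1,z5]),(z1,[])] (Int.ofNat
    (nat_lit 419430)) (Int.ofNat (nat_lit 1048576)) (.s (.s (.s (.s (.s (.l k2) (.l k1)) (.l k1)) (.l k1)) (.l k1))
    (.l k1)) [⟨z2,z5,[[k0,k5],[k1,k2],[k3,k4]],.bnd k0⟩]))), .old [([z3,z0,z0,z0,z0,y6],y4),([z0,z1,z0,z0,z0,z2],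
    z2),([z0,z0,z3,z0,z0,y3],y2),([z0,z0,z0,z3,z0,z0],z2)] (.z (.x (.geo true z3 k5 [(y4,z6),(z6,y6),(y2,z3),(z2,
    z0),(z10,y6),(z0,z3)] [(z1,[z1]),(z1,[z0,z3]),(z1,[z0,z0,z1]),(z1,[z0,z0,z0,z1]),(z1,[y1,y3,y1,y1,z3]),(z1,[])]
    (Int.ofNat (nat_lit 699050)) (Int.ofNat (nat_lit 1048576)) (.s (.s (.l k2) (.l k1)) (.l k1)) [⟨z2,z3,[[k0,k5],
    [k1,k2],[k3,k4]],.bnd k0⟩]))), .old [([z1,z0,z0,z0,z0,y6],y2),([z0,z1,z0,z0,z0,z2],z2),([z0,z0,z1,z0,z0,z6],z4),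
    ([z0,z0,z0,z1,z0,y4],y2)] (.z (.x (.geo true z1 k5 [(y2,z6),(z2,y2),(z4,y6),(y2,z4),(z2,y3),(z0,z1)] [(z1,[z1]),
    (z1,[z0,z1]),(z1,[z0,z0,z1]),(z1,[z0,z0,z0,z1]),(z1,[y1,y1,y1,y1,z1]),(z1,[])] (Int.ofNat (nat_lit 524288))
    (Int.ofNat (nat_lit 699051)) (.s (.l k1) (.s (.l k1) (.s (.l k1) (.l k2)))) [⟨z2,z3,[[k0,k5],[k1,k2],[k3,k4]],
    .bnd k0⟩]))), .old [([z1,z0,z0,z0,z0,y4],y2),([z0,z1,z0,z0,z0,y3],y2),([z0,z0,z1,z0,z0,z2],z2),([z0,z0,z0,z1,z0,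
    z2],z2)] (.z (.x (.geo true z1 k5 [(y2,z4),(y2,z3),(z2,y2),(z2,y2),(z4,y4),(z0,z1)] [(z1,[z1]),(z1,[z0,z1]),(z1,
    [z0,z0,z1]),(z1,[z0,z0,z0,z1]),(z1,[y1,y1,y1,y1,z1]),(z1,[])] (Int.ofNat (nat_lit 699050)) (Int.ofNat (nat_lit
    1048576)) (.s (.l k1) (.s (.l k1) (.l k2))) [⟨z1,z1,[[k0,k2],[k1,k4],[k3,k5]],.bnd k0⟩]))), .old [([z1,z0,z0,z0,
    z0,y6],y4),([z0,z1,z0,z0,z0,z2],z2),([z0,z0,z1,z0,z0,y3],y2),([z0,z0,z0,z1,z0,z2],z2)] (.z (.x (.geo true z1 k5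
    [(y4,z6),(z2,y2),(y2,z3),(z2,y2),(z6,y6),(z0,z1)] [(z1,[z1]),(z1,[z0,z1]),(z1,[z0,z0,z1]),(z1,[z0,z0,z0,z1]),
    (z1,[y1,y1,y1,y1,z1]),(z1,[])] (Int.ofNat (nat_lit 699050)) (Int.ofNat (nat_lit 1048576)) (.s (.s (.s (.l k2)
    (.l k1)) (.l k1)) (.s (.l k1) (.l k1))) [⟨z2,z3,[[k0,k5],[k1,k2],[k3,k4]],.bnd k0⟩]))), .old [([z1,z0,z0,z0,z0,
    y4],z0),([z0,z1,z0,z0,z0,y3],z0),([z0,z0,z1,z0,z0,z4],z2),([z0,z0,z0,z1,z0,z6],z2)] (.z (.x (.geo true z1 k5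
    [(z0,z4),(z0,z3),(z2,y4),(z2,y6),(z0,z2),(z0,z1)] [(z1,[z1]),(z1,[z0,z1]),(z1,[z0,z0,z1]),(z1,[z0,z0,z0,z1]),
    (z1,[y1,y1,y1,y1,z1]),(z1,[])] z0 (Int.ofNat (nat_lit 349526)) (.s (.s (.s (.s (.s (.l k2) (.l k1)) (.l k1)) (.l
    k1)) (.l k1)) (.s (.l k1) (.l k1))) [⟨z0,z1,[[k0,k1],[k2,k3],[k4,k5]],.bnd k0⟩])))], [.old [([z1,z0,z0,z0,z0,
    y6],y2),([z0,z1,z0,z0,z0,z2],z2),([z0,z0,z1,z0,z0,z3],z2),([z0,z0,z0,z1,z0,y4],y2)] (.z (.x (.geo true z1 k5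
    [(y2,z6),(z2,y2),(z2,y3),(y2,z4),(z4,y6),(z0,z1)] [(z1,[z1]),(z1,[z0,z1]),(z1,[z0,z0,z1]),(z1,[z0,z0,z0,z1]),
    (z1,[y1,y1,y1,y1,z1]),(z1,[])] (Int.ofNat (nat_lit 524288)) (Int.ofNat (nat_lit 699051)) (.s (.l k1) (.s (.l k1)
    (.l k2))) [⟨z2,z3,[[k0,k5],[k1,k2],[k3,k4]],.bnd k0⟩]))), .old [([z1,z0,z0,z0,z0,y2],z0),([z0,z1,z0,z0,z0,z1],
    z2),([z0,z0,z1,z0,z0,z1],z1),([z0,z0,z0,z1,z0,y1],z0)] (.z (.x (.geo true z1 k5 [(z0,z2),(z2,y1),(z1,y1),(z0,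
    z1),(z1,y2),(z0,z1)] [(z1,[z1]),(z1,[z0,z1]),(z1,[z0,z0,z1]),(z1,[z0,z0,z0,z1]),(z1,[y1,y1,y1,y1,z1]),(z1,[])]
    z0 (Int.ofNat (nat_lit 524288)) (.s (.s (.s (.s (.l k2) (.l k1)) (.l k1)) (.s (.l k1) (.l k1))) (.l k1)) [⟨z0,
    z1,[[k0,k1],[k2,k3],[k4,k5]],.bnd k0⟩]))), .old [([z2,z0,z0,z0,z0,z0],z1),([z0,z1,z0,z0,z0,z1],z2),([z0,z0,z4,
    z0,z0,y4],y5),([z0,z0,z0,z1,z0,z1],z2)] (.z (.x (.geo true z4 k5 [(z2,z0),(z8,y4),(y5,z4),(z8,y4),(z3,z0),(z0,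
    z4)] [(z1,[z2]),(z1,[z0,z4]),(z1,[z0,z0,z1]),(z1,[z0,z0,z0,z4]),(z1,[y2,y4,y1,y4,z4]),(z1,[])] (Int.ofNat
    (nat_lit 1310720)) (Int.ofNat (nat_lit 2097152)) (.s (.l k1) (.s (.l k1) (.l k2))) [⟨z2,z1,[[k0,k1],[k2,k3],[k4,
    k5]],.bnd k1⟩]))), .old [([z2,z0,z0,z0,z0,y3],y2),([z0,z2,z0,z0,z0,z1],z2),([z0,z0,z2,z0,z0,y3],y2),([z0,z0,z0,
    z1,z0,z2],z2)] (.z (.x (.geo true z2 k5 [(y2,z3),(z2,y1),(y2,z3),(z4,y4),(z6,y3),(z0,z2)] [(z1,[z1]),(z1,[z0,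
    z1]),(z1,[z0,z0,z1]),(z1,[z0,z0,z0,z2]),(z1,[y1,y1,y1,y2,z2]),(z1,[])] (Int.ofNat (nat_lit 699050)) (Int.ofNat
    (nat_lit 1048576)) (.s (.l k2) (.l k1)) [⟨z2,z3,[[k0,k5],[k1,k2],[k3,k4]],.bnd k0⟩]))), .old [([z1,z0,z0,z0,z0,
    y8],y4),([z0,z1,z0,z0,z0,z3],z2),([z0,z0,z1,z0,z0,y4],y2),([z0,z0,z0,z1,z0,z2],z2)] (.z (.x (.geo true z1 k5
    [(y4,z8),(z2,y3),(y2,z4),(z2,y2),(z6,y8),(z0,z1)] [(z1,[z1]),(z1,[z0,z1]),(z1,[z0,z0,z1]),(z1,[z0,z0,z0,z1]),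
    (z1,[y1,y1,y1,y1,z1]),(z1,[])] (Int.ofNat (nat_lit 524288)) (Int.ofNat (nat_lit 699051)) (.s (.s (.l k2) (.l
    k1)) (.l k1)) [⟨z1,z2,[[k0,k5],[k1,k2],[k3,k4]],.bnd k0⟩]))), .old [([z1,z0,z0,z0,y1,z0],z0),([z0,z3,z0,z0,z0,
    z0],z1),([z0,z0,z1,z0,z1,z0],z2),([z0,z0,z0,z1,z1,z0],z1)] (.z (.x (.geo true z3 k4 [(z0,z3),(z1,z0),(z6,y3),
    (z3,y3),(z0,z3),(z2,z0)] [(z1,[z3]),(z1,[z0,z1]),(z1,[z0,z0,z3]),(z1,[z0,z0,z0,z3]),(z1,[]),(z1,[y3,y1,y3,y3,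
    z3])] z0 (Int.ofNat (nat_lit 1048576)) (.s (.s (.s (.l k2) (.l k1)) (.l k1)) (.s (.s (.l k1) (.l k3)) (.l k1)))
    [⟨z0,z1,[[k0,k5],[k1,k2],[k3,k4]],.bnd k0⟩,⟨z2,z3,[[k0,k3],[k1,k5],[k2,k4]],.child (.ref k1 k1 [(z3,[y1,y3,y1,
    z0,y3,z3])])⟩]))), .old [([z1,z0,z0,z0,y1,z0],z0),([z0,z9,z0,z0,z0,z0],z4),([z0,z0,z1,z0,z1,z0],z2),([z0,z0,z0,
    z9,z9,z0],z8)] (.z (.x (.geo true z9 k4 [(z0,z9),(z4,z0),(z18,y9),(z8,y9),(z0,z9),(z6,z0)] [(z1,[z9]),(z1,[z0,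
    z1]),(z1,[z0,z0,z9]),(z1,[z0,z0,z0,z1]),(z1,[]),(z1,[y9,y1,y9,y1,z9])] z0 (Int.ofNat (nat_lit 932068)) (.s (.s
    (.s (.l k2) (.l k1)) (.l k1)) (.s (.s (.l k1) (.l k1)) (.s (.l k1) (.l k1)))) [⟨z0,z1,[[k0,k5],[k1,k2],[k3,k4]],
    .bnd k0⟩]))), .old [([z1,z0,z0,z0,y1,z0],z0),([z0,z2,z0,z0,z0,z0],z1),([z0,z0,z1,z0,z1,z0],z2),([z0,z0,z0,z6,z6,
    z0],z5)] (.z (.x (.geo true z6 k4 [(z0,z6),(z3,z0),(z12,y6),(z5,y6),(z0,z6),(z4,z0)] [(z1,[z6]),(z1,[z0,z3]),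
    (z1,[z0,z0,z6]),(z1,[z0,z0,z0,z1]),(z1,[]),(z1,[y6,y3,y6,y1,z6])] z0 (Int.ofNat (nat_lit 873814)) (.s (.s (.s
    (.l k2) (.l k1)) (.l k1)) (.s (.l k1) (.l k1))) [⟨z0,z1,[[k0,k5],[k1,k2],[k3,k4]],.bnd k0⟩]))), .old [([z1,z0,
    z0,z0,z0,y2],z1),([z0,z2,z0,z0,z0,z0],z1),([z0,z0,z1,z0,z0,z2],z1),([z0,z0,z0,z2,z0,y2],z1)] (.z (.x (.geo true
    z2 k5 [(z2,z4),(z1,z0),(z2,y4),(z1,z2),(z2,y4),(z0,z2)] [(z1,[z2]),(z1,[z0,z1]),(z1,[z0,z0,z2]),(z1,[z0,z0,z0,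
    z1]),(z1,[y2,y1,y2,y1,z2]),(z1,[])] z0 (Int.ofNat (nat_lit 524288)) (.s (.s (.l k1) (.l k1)) (.s (.l k1) (.s (.l
    k1) (.l k2)))) [⟨z1,z2,[[k0,k5],[k1,k2],[k3,k4]],.bnd k0⟩]))), .old [([z1,z0,z0,z0,z0,y3],z0),([z0,z2,z0,z0,z0,
    z3],z2),([z0,z0,z1,z0,z0,y3],z0),([z0,z0,z0,z2,z0,z5],z2)] (.z (.x (.geo true z2 k5 [(z0,z6),(z2,y3),(z0,z6),
    (z2,y5),(z4,y6),(z0,z2)] [(z1,[z2]),(z1,[z0,z1]),(z1,[z0,z0,z2]),(z1,[z0,z0,z0,z1]),(z1,[y2,y1,y2,y1,z2]),(z1,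
    [])] z0 (Int.ofNat (nat_lit 419431)) (.s (.s (.s (.l k2) (.l k1)) (.l k1)) (.s (.l k1) (.l k1))) [⟨z0,z1,[[k0,
    k2],[k1,k3],[k4,k5]],.bnd k0⟩]))), .old [([z1,z0,z0,z0,z0,y6],y2),([z0,z1,z0,z0,z0,z3],z2),([z0,z0,z1,z0,z0,y6],
    y2),([z0,z0,z0,z1,z0,z4],z2)] (.z (.x (.geo true z1 k5 [(y2,z6),(z2,y3),(y2,z6),(z2,y4),(z4,y6),(z0,z1)] [(z1,
    [z1]),(z1,[z0,z1]),(z1,[z0,z0,z1]),(z1,[z0,z0,z0,z1]),(z1,[y1,y1,y1,y1,z1]),(z1,[])] (Int.ofNat (nat_lit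
    349525)) (Int.ofNat (nat_lit 524288)) (.s (.s (.s (.l k2) (.l k1)) (.l k1)) (.s (.l k1) (.l k1))) [⟨z1,z3,[[k0,
    k2],[k1,k5],[k3,k4]],.bnd k0⟩]))), .old [([z1,z0,z0,z0,z0,y2],y3),([z0,z1,z0,z0,z0,z1],z2),([z0,z0,z2,z0,z0,z2],
    z5),([z0,z0,z0,z1,z0,z1],z2)] (.z (.x (.geo true z2 k5 [(y6,z4),(z4,y2),(z5,y2),(z4,y2),(z1,z0),(z0,z2)] [(z1,
    [z2]),(z1,[z0,z2]),(z1,[z0,z0,z1]),(z1,[z0,z0,z0,z2]),(z1,[y2,y2,y1,y2,z2]),(z1,[])] (Int.ofNat (nat_lit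
    1572864)) (Int.ofNat (nat_lit 2097152)) (.s (.s (.l k1) (.l k1)) (.s (.l k1) (.s (.l k1) (.s (.l k1) (.l k2)))))
    [⟨z2,z1,[[k0,k1],[k2,k3],[k4,k5]],.bnd k1⟩]))), .old [([z1,z0,z0,z0,y1,z0],z0),([z0,z2,z0,z0,z0,z0],z1),([z0,z0,
    z1,z0,z1,z0],z2),([z0,z0,z0,z4,z4,z0],z3)] (.z (.x (.geo true z4 k4 [(z0,z4),(z2,z0),(z8,y4),(z3,y4),(z0,z4),
    (z3,z0)] [(z1,[z4]),(z1,[z0,z2]),(z1,[z0,z0,z4]),(z1,[z0,z0,z0,z1]),(z1,[]),(z1,[y4,y2,y4,y1,z4])] z0 (Int.ofNat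
    (nat_lit 786432)) (.s (.s (.s (.l k2) (.l k1)) (.l k1)) (.s (.l k1) (.l k1))) [⟨z0,z1,[[k0,k5],[k1,k2],[k3,k4]],
    .bnd k0⟩]))), .old [([z3,z0,z0,z0,y3,z0],y2),([z0,z3,z0,z0,z0,z0],z4),([z0,z0,z1,z0,z2,z0],z2),([z0,z0,z0,z3,z0,
    z0],z2)] (.z (.x (.geo true z3 k4 [(y2,z3),(z4,z0),(z6,y6),(z2,z0),(z0,z3),(z2,z0)] [(z1,[z1]),(z1,[z0,z1]),(z1,
    [z0,z0,z3]),(z1,[z0,z0,z0,z1]),(z1,[]),(z1,[y1,y1,y3,y1,z3])] (Int.ofNat (nat_lit 699050)) (Int.ofNat (nat_lit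
    1048576)) (.s (.l k1) (.l k1)) []))), .old [([z1,z0,z0,z0,z0,y4],z0),([z0,z1,z0,z0,z0,y6],y2),([z0,z0,z1,z0,z0,
    z4],z2),([z0,z0,z0,z1,z0,z3],z2)] (.z (.x (.geo true z1 k5 [(z0,z4),(y2,z6),(z2,y4),(z2,y3),(z2,y4),(z0,z1)]
    [(z1,[z1]),(z1,[z0,z1]),(z1,[z0,z0,z1]),(z1,[z0,z0,z0,z1]),(z1,[y1,y1,y1,y1,z1]),(z1,[])] (Int.ofNat (nat_lit
    349525)) (Int.ofNat (nat_lit 524288)) (.s (.s (.l k1) (.s (.l k1) (.l k1))) (.s (.l k1) (.l k2))) [⟨z1,z2,[[k0,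
    k2],[k1,k5],[k3,k4]],.bnd k0⟩]))), .old [([z1,z0,z0,z0,z0,y6],y2),([z0,z1,z0,z0,z0,z1],z2),([z0,z0,z1,z0,z0,z4],
    z2),([z0,z0,z0,z1,z0,y1],z0)] (.z (.x (.geo true z1 k5 [(y2,z6),(z2,y1),(z2,y4),(z0,z1),(z2,y3),(z0,z1)] [(z1,
    [z1]),(z1,[z0,z1]),(z1,[z0,z0,z1]),(z1,[z0,z0,z0,z1]),(z1,[y1,y1,y1,y1,z1]),(z1,[])] (Int.ofNat (nat_lit
    349525)) (Int.ofNat (nat_lit 524288)) (.s (.s (.l k1) (.l k1)) (.s (.l k1) (.l k1))) [])))], [.old [([z1,z0,z0,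
    z0,z0,y2],y1),([z0,z1,z0,z0,z0,z1],z1),([z0,z0,z1,z0,z0,z2],z3),([z0,z0,z0,z1,z0,z2],z2)] (.z (.x (.geo true z1
    k5 [(y1,z2),(z1,y1),(z3,y2),(z2,y2),(y1,z2),(z0,z1)] [(z1,[z1]),(z1,[z0,z1]),(z1,[z0,z0,z1]),(z1,[z0,z0,z0,z1]),
    (z1,[y1,y1,y1,y1,z1]),(z1,[])] (Int.ofNat (nat_lit 524288)) (Int.ofNat (nat_lit 1048576)) (.s (.s (.s (.s (.l
    k2) (.l k1)) (.l k1)) (.s (.l k1) (.l k1))) (.s (.s (.l k1) (.l k1)) (.l k1))) [⟨z1,z2,[[k0,k5],[k1,k2],[k3,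
    k4]],.bnd k0⟩]))), .old [([z1,z0,z0,z0,y1,y1],z0),([z0,z1,z0,z0,z0,y1],z0),([z0,z0,z1,z0,z2,z2],z2)] (.z (.x
    (.old (.lp [(nat_lit 11233395821760),(nat_lit 20308367481600),(nat_lit 20806278772048),(nat_lit 21470308945624),
    (nat_lit 13280603471520),(nat_lit 19035531642512)] [(nat_lit 9351648918479),(nat_lit 9351648918479),(nat_lit
    8549332814924),(nat_lit 1078993362194),k0,(nat_lit 9130414886670),(nat_lit 4233192356547),(nat_lit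
    4233192356547),(nat_lit 9241086582266),(nat_lit 7415003604932),(nat_lit 5450581008103),(nat_lit 5450581008103)]
    k0 [[k0,k0,k0,k0,k0,k0,(nat_lit 2545448998708)],[k0,k0,k0,(nat_lit 7027573956480),k0,k0,k0,k0,k0,k0,k0,(nat_lit
    12782580841338)],[(nat_lit 7027573956480),k0,k0,k0,k0,k0,k0,k0,k0,k0,(nat_lit 1272901291200)],[k0,k0,k0,k0,k0,
    (nat_lit 8798399799882)],[k0,k0,(nat_lit 8798399799882),k0,k0,k0,k0,k0,k0,k0,(nat_lit 9960452603640)],[k0,k0,k0,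
    k0,k0,k0,k0,(nat_lit 8411048865296)],[k0,k0,k0,k0,(nat_lit 8411048865296)],[k0,(nat_lit 2545448998708),k0,k0,k0,
    k0,k0,k0,k0,(nat_lit 2656120694304)],[k0,k0,k0,k0,k0,k0,(nat_lit 2656120694304)],[k0,k0,k0,k0,k0,k0,k0,k0,k0,k0,
    k0,(nat_lit 885373564768)],[(nat_lit 12782580841338),k0,k0,k0,k0,k0,k0,k0,(nat_lit 885373564768)],[k0,k0,k0,
    (nat_lit 1272901291200),k0,(nat_lit 9960452603640)]] (nat_lit 53122413886080) k6 [[(k4,(nat_lit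
    10624592136599)),(k2,(nat_lit 10762810634115)),(k8,(nat_lit 12229331722741)),(k10,(nat_lit 15134463732136)),(k6,
    (nat_lit 16351852383692)),(k0,(nat_lit 24015976663098))],[(k9,(nat_lit 10624592136599)),(k11,(nat_lit
    15134463732136)),(k7,(nat_lit 16351852383692)),(k5,(nat_lit 18482203810049)),(k3,(nat_lit 19506051378045)),(k1,
    (nat_lit 24015976663098))],[(k10,(nat_lit 10624538447083)),(k2,(nat_lit 13280793525120)),(k0,(nat_lit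
    19506051378045)),(k8,(nat_lit 19616613714258)),(k6,(nat_lit 27169956938685)),(k4,(nat_lit 28857700296524))],
    [(k1,(nat_lit 10762810634115)),(k5,(nat_lit 12256945957124)),(k3,(nat_lit 13280793525120)),(k9,(nat_lit
    13972357238862)),(k11,(nat_lit 15936779835691)),(k7,(nat_lit 25952568287129))],[(k8,(nat_lit 11565192189782)),
    (k4,(nat_lit 12007878972166)),(k2,(nat_lit 12256945957124)),(k6,(nat_lit 16573086415501)),(k10,(nat_lit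
    16628599055145)),(k0,(nat_lit 18482203810049))],[(k1,(nat_lit 10624592136599)),(k5,(nat_lit 12007878972166)),
    (k11,(nat_lit 24486112650615)),(k7,(nat_lit 25703501302171)),(k3,(nat_lit 28857700296524)),(k9,(nat_lit
    30932738919082))],[(k6,(nat_lit 13059260080328)),(k0,(nat_lit 16351852383692)),(k8,(nat_lit 16462414719905)),
    (k4,(nat_lit 25703501302171)),(k2,(nat_lit 25952568287129)),(k10,(nat_lit 30213372897708))],[(k7,(nat_lit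
    13059260080328)),(k1,(nat_lit 16351852383692)),(k5,(nat_lit 16573086415501)),(k9,(nat_lit 18288497697239)),(k11,
    (nat_lit 22909040988372)),(k3,(nat_lit 27169956938685))],[(k8,(nat_lit 10624482777216)),(k0,(nat_lit
    10624592136599)),(k2,(nat_lit 13972357238862)),(k10,(nat_lit 17071109045683)),(k6,(nat_lit 18288497697239)),(k4,
    (nat_lit 30932738919082))],[(k9,(nat_lit 10624482777216)),(k5,(nat_lit 11565192189782)),(k1,(nat_lit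
    12229331722741)),(k11,(nat_lit 15245026068349)),(k7,(nat_lit 16462414719905)),(k3,(nat_lit 19616613714258))],
    [(k0,(nat_lit 15134463732136)),(k8,(nat_lit 15245026068349)),(k2,(nat_lit 15936779835691)),(k10,(nat_lit
    18150158077744)),(k6,(nat_lit 22909040988372)),(k4,(nat_lit 24486112650615))],[(k3,(nat_lit 10624538447083)),
    (k1,(nat_lit 15134463732136)),(k5,(nat_lit 16628599055145)),(k9,(nat_lit 17071109045683)),(k11,(nat_lit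
    18150158077744)),(k7,(nat_lit 30213372897708))]] [] k0 [[k2,k0,k0,k0,k0,k0],[k2,k0,k0,k0,k1,k0],[k1,k1,k0,k0,k0,
    k0],[k1,k2,k0,k0,k0,k0],[k1,k2,k0,k0,k0,k1],[k1,k1,k0,k0,k1,k0],[k1,k1,k0,k0,k2,k0],[k1,k1,k0,k0,k0,k1],[k1,k1,
    k0,k0,k1,k1],[k1,k0,k1,k0,k0,k0],[k2,k0,k1,k0,k1,k0],[k1,k1,k1,k0,k0,k0],[k1,k1,k1,k0,k0,k1],[k1,k0,k2,k0,k0,
    k0],[k1,k0,k2,k0,k1,k0],[k1,k0,k1,k1,k0,k0],[k1,k0,k1,k0,k1,k0],[k1,k0,k1,k0,k2,k0],[k1,k0,k1,k0,k0,k1],[k1,k0,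
    k0,k1,k0,k0],[k1,k0,k0,k2,k0,k0],[k1,k0,k0,k1,k1,k0],[k1,k0,k0,k0,k1,k0],[k2,k0,k0,k0,k2,k0],[k1,k0,k0,k0,k2,
    k0],[k1,k0,k0,k0,k3,k0],[k1,k0,k0,k0,k1,k1],[k1,k0,k0,k0,k0,k1],[k1,k0,k0,k0,k2,k1],[k1,k0,k0,k0,k0,k2],[k0,k2,
    k0,k0,k0,k0],[k0,k3,k0,k0,k0,k0],[k0,k2,k0,k0,k1,k0],[k0,k2,k0,k0,k0,k1],[k0,k1,k1,k0,k0,k0],[k0,k1,k0,k0,k1,
    k0],[k0,k1,k0,k0,k2,k0],[k0,k1,k0,k0,k1,k1],[k0,k1,k0,k0,k0,k1],[k0,k1,k1,k0,k0,k1],[k0,k1,k0,k0,k2,k1],[k0,k1,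
    k0,k0,k0,k2],[k0,k0,k2,k0,k0,k0],[k0,k0,k3,k0,k0,k0],[k0,k0,k4,k0,k0,k0],[k0,k0,k1,k1,k0,k0],[k0,k0,k1,k0,k1,
    k0],[k0,k0,k1,k0,k0,k1],[k0,k0,k0,k2,k0,k0],[k0,k0,k0,k3,k0,k0],[k0,k0,k0,k4,k0,k0],[k0,k0,k0,k2,k1,k0],[k0,k0,
    k0,k1,k1,k0],[k0,k0,k0,k1,k2,k0],[k0,k0,k0,k0,k2,k0],[k0,k0,k0,k0,k3,k0],[k0,k0,k0,k0,k4,k0],[k0,k0,k0,k0,k2,
    k1],[k0,k0,k0,k0,k1,k1],[k0,k0,k0,k0,k1,k2],[k0,k0,k0,k0,k0,k2]] [.contra [z1],.ref k27 k3 [(z1,[y1,z2,z0,z1]),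
    (z1,[z0,y1,z0,y1,z1]),(z1,[z1,z0,z1,z1,y1])],.contra [y1,z1,z1,z1],.ref k3 k4 [(z1,[y1,z0,z1,z0,z1])],.ref k184
    k9 [(z1,[y2,z2,y2,z1]),(z1,[z0,y1,z0,y1,z1]),(z1,[z1,y1,z2]),(z1,[z0,z0,y1])],.contra [z1,z1,y1],.ref k27 k3
    [(z1,[y1,z1,z1,z1]),(z1,[z0,y1,z0,y1,z1]),(z1,[z1,z1,z0,z1,y1])],.ref k3 k4 [(z1,[y1,z0,z0,z0,z1])],.ref k0 k0
    [(z1,[y1,z0,z0,z0,z1])],.contra [y1,z2,z0,z1],.contra [z1,y2,z0,y1],.contra [y1,z1,z1,z1],.ref k0 k4 [(z1,[y1,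
    z0,z0,z0,z1])],.ref k62 k9 [(z1,[z2,y2,z0,y1]),(z1,[z0,y1,z0,y1,z1])],.ref k0 k0 [(z1,[z1,y2,y1,y2,z1])],.contra
    [z1,z0,z1,z1,y1],.contra [y1,z1,z1,z1],.ref k0 k4 [(z1,[z1,y2,y1,y2,z1])],.contra [y1,z1,z0,z1],.contra [z1,z0,
    z1,z1,y1],.contra [z1,z2,z2,z3,y2],.contra [z1,z0,z1,z1,y1],.contra [y1,z1,z1,z1],.ref k185 k11 [(z2,[y1,y2]),
    (z2,[z1]),(z2,[z1,z0,y2,y2,z2]),(z1,[z0,z2,z0,z1])],.ref k163 k4 [(z1,[z1,y1,y1,y1]),(z1,[z0,y1,y1,y1,z1])],.ref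
    k183 k7 [(z1,[y1,z0,y1,y1,z1]),(z1,[y2,z2,z0,z1]),(z1,[z1,y1,z1]),(z1,[z1])],.contra [z1,z1],.contra [y1,z1,z0,
    z1],.ref k27 k3 [(z1,[y1,z1,z0,z1]),(z1,[z0,y1,z0,y1,z1]),(z1,[z1,z1,z1,z1,y1])],.ref k3 k4 [(z1,[y1,z0,y1,z0,
    z1])],.contra [z1],.ref k182 k5 [(z1,[y1,y3,z3]),(z1,[y1,y3,z0,y3,z3]),(z1,[z0,z2,z0,z1]),(z1,[z1])],.contra
    [y1,z0,z2,z1],.ref k182 k5 [(z1,[y1,y3,z2]),(z1,[y1,y3,y1,y3,z3]),(z1,[z0,z2,z0,z1]),(z1,[z1,z0,z1])],.contra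
    [y1,z1,z1,z1],.contra [y1,z1,z1,z1],.contra [y1,z0,z2,z1],.contra [y1,z0,z1,z1],.contra [z1,z0,z1],.contra [y1,
    z0,z1,z1],.contra [z1,z2,y1],.ref k182 k5 [(z1,[y1,y3,z1]),(z1,[y1,y3,y2,y3,z3]),(z1,[z0,z2,z0,z1]),(z1,[z1,z0,
    z2])],.contra [z1],.ref k62 k9 [(z1,[z1]),(z1,[z0,y1,z0,y1,z1])],.ref k181 k6 [(z1,[z0,z0,z1]),(z2,[z1]),(z1,
    [z0,y1,y1,y1,z1]),(z2,[y1,z0,z0,z4])],.ref k0 k0 [(z1,[z1])],.contra [y1,z1,z1,z1],.contra [y1,z1,z0,z1],.contra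
    [y1,y2,z0,y2,z2],.contra [z1,z4,z3,z5,y3],.contra [z1,z2,z2,z3,y2],.contra [z1,z2,z2,z3,y2],.ref k0 k4 [(z1,
    [z1])],.ref k109 k0 [(z1,[z1,y2,y2,y2]),(z1,[z0,z1,z1,z1])],.contra [z1],.ref k62 k4 [(z1,[z1]),(z1,[z0,y1,y1,
    y1,z1])],.ref k180 k3 [(z2,[y1,z4,z4,z6,y4]),(z1,[z0,y1,z0,y1,z1]),(z2,[z1,z0,y4,y4,z4]),(z1,[z0,y1,y1,y1,z1])],
    .contra [y1,z0,z1,z1],.contra [y1,z1,z0,z1],.contra [y1,z0,z0,z1],.contra [z1,z0,z2]])))), .old [([z1,z0,z0,z0,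
    z0,y6],y2),([z0,z1,z0,z0,z0,y8],y4),([z0,z0,z1,z0,z0,z6],z4),([z0,z0,z0,z1,z0,z3],z2)] (.z (.x (.geo true z1 k5
    [(y2,z6),(y4,z8),(z4,y6),(z2,y3),(z4,y6),(z0,z1)] [(z1,[z1]),(z1,[z0,z1]),(z1,[z0,z0,z1]),(z1,[z0,z0,z0,z1]),
    (z1,[y1,y1,y1,y1,z1]),(z1,[])] (Int.ofNat (nat_lit 524288)) (Int.ofNat (nat_lit 699051)) (.s (.s (.l k1) (.l
    k1)) (.s (.l k1) (.l k2))) [⟨z2,z3,[[k0,k5],[k1,k2],[k3,k4]],.bnd k0⟩]))), .old [([z2,z0,z0,z0,z0,y4],y1),([z0,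
    z1,z0,z0,z0,z3],z2),([z0,z0,z2,z0,z0,y4],y1),([z0,z0,z0,z2,z0,z0],z1)] (.z (.x (.geo true z2 k5 [(y1,z4),(z4,
    y6),(y1,z4),(z1,z0),(z5,y4),(z0,z2)] [(z1,[z1]),(z1,[z0,z2]),(z1,[z0,z0,z1]),(z1,[z0,z0,z0,z1]),(z1,[y1,y2,y1,
    y1,z2]),(z1,[])] (Int.ofNat (nat_lit 262144)) (Int.ofNat (nat_lit 699051)) (.s (.s (.s (.s (.s (.l k2) (.l k1))
    (.l k1)) (.l k1)) (.l k1)) (.l k1)) [⟨z1,z4,[[k0,k5],[k1,k2],[k3,k4]],.bnd k0⟩]))), .old [([z2,z0,z0,z0,z0,y2],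
    y1),([z0,z2,z0,z0,z0,z2],z3),([z0,z0,z2,z0,z0,z0],z1),([z0,z0,z0,z2,z0,y2],z1)] (.z (.x (.geo true z2 k5 [(y1,
    z2),(z3,y2),(z1,z0),(z1,z2),(z4,y4),(z0,z2)] [(z1,[z1]),(z1,[z0,z1]),(z1,[z0,z0,z1]),(z1,[z0,z0,z0,z1]),(z1,[y1,
    y1,y1,y1,z2]),(z1,[])] (Int.ofNat (nat_lit 524288)) (Int.ofNat (nat_lit 1048576)) (.s (.l k1) (.s (.l k1) (.l
    k2))) [⟨z1,z1,[[k0,k2],[k1,k4],[k3,k5]],.bnd k4⟩]))), .old [([z1,z0,z0,z0,z0,y4],z0),([z0,z1,z0,z0,z0,z6],z2),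
    ([z0,z0,z1,z0,z0,y3],z0),([z0,z0,z0,z1,z0,y2],z0)] (.z (.x (.geo true z1 k5 [(z0,z4),(z2,y6),(z0,z3),(z0,z2),
    (z2,y4),(z0,z1)] [(z1,[z1]),(z1,[z0,z1]),(z1,[z0,z0,z1]),(z1,[z0,z0,z0,z1]),(z1,[y1,y1,y1,y1,z1]),(z1,[])] z0
    (Int.ofNat (nat_lit 349526)) (.s (.s (.s (.s (.l k2) (.l k1)) (.l k1)) (.l k1)) (.s (.s (.l k1) (.l k1)) (.s (.l
    k1) (.l k1)))) [⟨z0,z1,[[k0,k1],[k2,k3],[k4,k5]],.bnd k0⟩]))), .old [([z1,z0,z0,z0,z0,y3],z0),([z0,z1,z0,z0,z0,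
    y1],z0),([z0,z0,z1,z0,z0,y2],z0),([z0,z0,z0,z1,z0,z4],z2)] (.z (.x (.geo true z1 k5 [(z0,z3),(z0,z1),(z0,z2),
    (z2,y4),(z2,y3),(z0,z1)] [(z1,[z1]),(z1,[z0,z1]),(z1,[z0,z0,z1]),(z1,[z0,z0,z0,z1]),(z1,[y1,y1,y1,y1,z1]),(z1,
    [])] z0 (Int.ofNat (nat_lit 524288)) (.s (.s (.s (.s (.l k2) (.l k1)) (.l k1)) (.l k1)) (.s (.s (.l k1) (.l k1))
    (.s (.l k1) (.l k1)))) [⟨z0,z1,[[k0,k1],[k2,k3],[k4,k5]],.bnd k0⟩]))), .old [([z1,z0,z0,z0,z0,y3],z0),([z0,z1,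
    z0,z0,z0,y2],z0),([z0,z0,z1,z0,z0,z4],z2),([z0,z0,z0,z1,z0,y1],z0)] (.z (.x (.geo true z1 k5 [(z0,z3),(z0,z2),
    (z2,y4),(z0,z1),(z2,y3),(z0,z1)] [(z1,[z1]),(z1,[z0,z1]),(z1,[z0,z0,z1]),(z1,[z0,z0,z0,z1]),(z1,[y1,y1,y1,y1,
    z1]),(z1,[])] z0 (Int.ofNat (nat_lit 524288)) (.s (.s (.s (.l k2) (.l k1)) (.s (.l k1) (.l k1))) (.s (.s (.l k1)
    (.l k1)) (.l k1))) [⟨z0,z1,[[k0,k1],[k2,k3],[k4,k5]],.bnd k0⟩]))), .old [([z1,z0,z0,z0,z0,y3],y1),([z0,z1,z0,z0,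
    z0,z1],z1),([z0,z0,z1,z0,z0,z3],z3),([z0,z0,z0,z1,z0,y2],y1)] (.z (.x (.geo true z1 k5 [(y1,z3),(z1,y1),(z3,y3),
    (y1,z2),(z2,y2),(z0,z1)] [(z1,[z1]),(z1,[z0,z1]),(z1,[z0,z0,z1]),(z1,[z0,z0,z0,z1]),(z1,[y1,y1,y1,y1,z1]),(z1,
    [])] (Int.ofNat (nat_lit 524288)) (Int.ofNat (nat_lit 1048576)) (.s (.s (.s (.s (.l k3) (.l k1)) (.l k1)) (.l
    k1)) (.s (.s (.l k1) (.l k1)) (.s (.l k1) (.s (.l k1) (.s (.l k1) (.l k2)))))) [⟨z1,z1,[[k0,k1],[k2,k4],[k3,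
    k5]],.bnd k0⟩,⟨z1,z2,[[k0,k3],[k1,k5],[k2,k4]],.bnd k3⟩]))), .old [([z1,z0,z0,z0,z0,y4],y2),([z0,z1,z0,z0,z0,
    z2],z2),([z0,z0,z1,z0,z0,y8],y4),([z0,z0,z0,z1,z0,z3],z2)] (.z (.x (.geo true z1 k5 [(y2,z4),(z2,y2),(y4,z8),
    (z2,y3),(z6,y8),(z0,z1)] [(z1,[z1]),(z1,[z0,z1]),(z1,[z0,z0,z1]),(z1,[z0,z0,z0,z1]),(z1,[y1,y1,y1,y1,z1]),(z1,
    [])] (Int.ofNat (nat_lit 524288)) (Int.ofNat (nat_lit 699051)) (.s (.s (.l k2) (.l k1)) (.s (.l k3) (.l k1)))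
    [⟨z1,z2,[[k0,k2],[k1,k5],[k3,k4]],.bnd k0⟩,⟨z3,z5,[[k0,k4],[k1,k3],[k2,k5]],.child (.ref k1 k4 [(z1,[y2,y1,z0,
    y1,y1,z1])])⟩]))), .old [([z1,z0,z0,z0,z0,y4],z0),([z0,z1,z0,z0,z0,z1],z1),([z0,z0,z1,z0,z0,z2],z1),([z0,z0,z0,
    z1,z0,y2],z0)] (.z (.x (.geo true z1 k5 [(z0,z4),(z1,y1),(z1,y2),(z0,z2),(z2,y4),(z0,z1)] [(z1,[z1]),(z1,[z0,
    z1]),(z1,[z0,z0,z1]),(z1,[z0,z0,z0,z1]),(z1,[y1,y1,y1,y1,z1]),(z1,[])] z0 (Int.ofNat (nat_lit 524288)) (.s (.s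
    (.l k1) (.s (.l k1) (.l k1))) (.s (.s (.l k1) (.l k1)) (.s (.l k1) (.s (.l k1) (.l k2))))) [⟨z1,z2,[[k0,k5],[k1,
    k2],[k3,k4]],.bnd k0⟩]))), .old [([z2,z0,z0,z0,z0,y2],y1),([z0,z1,z0,z0,z0,z2],z2),([z0,z0,z1,z0,z0,y2],y1),
    ([z0,z0,z0,z2,z0,z0],z1)] (.z (.x (.geo true z2 k5 [(y1,z2),(z4,y4),(y2,z4),(z1,z0),(z6,y4),(z0,z2)] [(z1,[z1]),
    (z1,[z0,z2]),(z1,[z0,z0,z2]),(z1,[z0,z0,z0,z1]),(z1,[y1,y2,y2,y1,z2]),(z1,[])] (Int.ofNat (nat_lit 524288))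
    (Int.ofNat (nat_lit 1048576)) (.s (.s (.l k2) (.l k1)) (.l k1)) [⟨z1,z2,[[k0,k2],[k1,k5],[k3,k4]],.bnd k0⟩]))),
    .old [([z1,z0,z0,z0,z0,y6],y2),([z0,z1,z0,z0,z0,y2],z0),([z0,z0,z1,z0,z0,z4],z2),([z0,z0,z0,z1,z0,z2],z2)] (.z
    (.x (.geo true z1 k5 [(y2,z6),(z0,z2),(z2,y4),(z2,y2),(z2,y3),(z0,z1)] [(z1,[z1]),(z1,[z0,z1]),(z1,[z0,z0,z1]),
    (z1,[z0,z0,z0,z1]),(z1,[y1,y1,y1,y1,z1]),(z1,[])] (Int.ofNat (nat_lit 349525)) (Int.ofNat (nat_lit 524288)) (.s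
    (.l k1) (.s (.s (.l k1) (.l k1)) (.l k1))) []))), .old [([z1,z0,z0,z0,z0,y4],y2),([z0,z1,z0,z0,z0,y3],y2),([z0,
    z0,z1,z0,z0,z4],z4),([z0,z0,z0,z1,z0,z2],z2)] (.z (.x (.geo true z1 k5 [(y2,z4),(y2,z3),(z4,y4),(z2,y2),(z2,y2),
    (z0,z1)] [(z1,[z1]),(z1,[z0,z1]),(z1,[z0,z0,z1]),(z1,[z0,z0,z0,z1]),(z1,[y1,y1,y1,y1,z1]),(z1,[])] (Int.ofNat
    (nat_lit 699050)) (Int.ofNat (nat_lit 1048576)) (.s (.s (.s (.l k1) (.l k1)) (.l k1)) (.s (.l k1) (.l k2)))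
    [⟨z1,z1,[[k0,k2],[k1,k4],[k3,k5]],.bnd k0⟩]))), .old [([z1,z0,z0,z0,z0,y6],y2),([z0,z1,z0,z0,z0,y4],y2),([z0,z0,
    z1,z0,z0,z6],z4),([z0,z0,z0,z1,z0,z2],z2)] (.z (.x (.geo true z1 k5 [(y2,z6),(y2,z4),(z4,y6),(z2,y2),(z2,y3),
    (z0,z1)] [(z1,[z1]),(z1,[z0,z1]),(z1,[z0,z0,z1]),(z1,[z0,z0,z0,z1]),(z1,[y1,y1,y1,y1,z1]),(z1,[])] (Int.ofNat
    (nat_lit 524288)) (Int.ofNat (nat_lit 699051)) (.s (.s (.s (.l k1) (.l k1)) (.s (.l k1) (.l k1))) (.s (.l k1)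
    (.l k2))) [⟨z2,z3,[[k0,k5],[k1,k2],[k3,k4]],.bnd k0⟩]))), .old [([z1,z0,z0,z0,y2,z0],z0),([z0,z3,z0,z0,z3,z0],
    z2),([z0,z0,z1,z0,z2,z0],z2),([z0,z0,z0,z3,z0,z0],z2)] (.z (.x (.geo true z3 k4 [(z0,z6),(z2,y3),(z6,y6),(z2,
    z0),(z0,z3),(z2,z0)] [(z1,[z3]),(z1,[z0,z1]),(z1,[z0,z0,z3]),(z1,[z0,z0,z0,z1]),(z1,[]),(z1,[y3,y1,y3,y1,z3])]
    z0 (Int.ofNat (nat_lit 699051)) (.s (.s (.s (.l k2) (.l k1)) (.l k1)) (.s (.s (.l k1) (.s (.l k1) (.l k1))) (.s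
    (.l k1) (.l k1)))) [⟨z0,z1,[[k0,k5],[k1,k2],[k3,k4]],.bnd k0⟩])))], [.old [([z1,z0,z0,z0,y2,z0],z0),([z0,z2,z0,
    z0,z2,z1],z2),([z0,z0,z1,z0,z2,z0],z2)] (.z (.x (.old (.lp [(nat_lit 720),(nat_lit 480),(nat_lit 788),(nat_lit
    720),(nat_lit 480),(nat_lit 640)] [k34,k34,k18,(nat_lit 290),k0,k0,k50,k18,k154,k154,k74,k74] k0 [[k0,k0,k0,k0,
    k0,k0,k0,k0,(nat_lit 248)],[k0,k0,k0,k96],[k96,k0,k0,k0,k0,k0,k0,k0,(nat_lit 312)],[k0,k0,k0,k0,k0,k0,k0,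
    (nat_lit 328)],[k0,k0,k0,k0,k0,k0,k68],[k0,k0,k0,k0,k0,k0,k0,k0,k0,k0,k0,(nat_lit 312)],[k0,k0,(nat_lit 328)],
    [k0,k0,k0,k0,k0,k68,k0,k0,k0,k78],[k0,k0,k0,k0,k0,k0,k78],[k0,(nat_lit 248),k0,(nat_lit 312)],[k0,k0,k0,k0,
    (nat_lit 312)]] (nat_lit 1920) k6 [[(k8,(nat_lit 600)),(k10,(nat_lit 680)),(k6,(nat_lit 704)),(k0,(nat_lit
    720)),(k2,(nat_lit 736)),(k4,(nat_lit 1066))],[(k11,(nat_lit 432)),(k3,(nat_lit 464)),(k9,(nat_lit 600)),(k1,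
    (nat_lit 720)),(k7,(nat_lit 736)),(k5,(nat_lit 850))],[(k2,(nat_lit 384)),(k10,(nat_lit 424)),(k6,(nat_lit
    448)),(k0,(nat_lit 464)),(k4,(nat_lit 498)),(k8,(nat_lit 592))],[(k3,(nat_lit 384)),(k11,(nat_lit 384)),(k1,
    (nat_lit 736)),(k7,(nat_lit 752)),(k5,(nat_lit 770)),(k9,(nat_lit 944))],[(k6,(nat_lit 410)),(k10,(nat_lit
    714)),(k2,(nat_lit 770)),(k4,(nat_lit 788)),(k0,(nat_lit 850)),(k8,(nat_lit 946))],[(k3,(nat_lit 498)),(k9,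
    (nat_lit 566)),(k11,(nat_lit 714)),(k7,(nat_lit 770)),(k5,(nat_lit 788)),(k1,(nat_lit 1066))],[(k10,(nat_lit
    384)),(k8,(nat_lit 616)),(k0,(nat_lit 736)),(k2,(nat_lit 752)),(k4,(nat_lit 770)),(k6,(nat_lit 788))],[(k5,
    (nat_lit 410)),(k3,(nat_lit 448)),(k9,(nat_lit 584)),(k1,(nat_lit 704)),(k11,(nat_lit 742)),(k7,(nat_lit 788))],
    [(k8,(nat_lit 402)),(k10,(nat_lit 560)),(k4,(nat_lit 566)),(k6,(nat_lit 584)),(k0,(nat_lit 600)),(k2,(nat_lit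
    944))],[(k9,(nat_lit 402)),(k11,(nat_lit 560)),(k3,(nat_lit 592)),(k1,(nat_lit 600)),(k7,(nat_lit 616)),(k5,
    (nat_lit 946))],[(k2,(nat_lit 384)),(k0,(nat_lit 432)),(k8,(nat_lit 560)),(k10,(nat_lit 640)),(k4,(nat_lit
    714)),(k6,(nat_lit 742))],[(k7,(nat_lit 384)),(k3,(nat_lit 424)),(k9,(nat_lit 560)),(k11,(nat_lit 640)),(k1,
    (nat_lit 680)),(k5,(nat_lit 714))]] [[k0,k4],[k0,k10,k2,k2],[k1,k3,k3,k11],[k1,k5],[k4,k8,k8],[k5,k9,k9],[k6,k6,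
    k10],[k6,k10,k6],[k7,k7,k11],[k7,k11,k7]] k2 [[k2,k0,k0,k0,k0,k0],[k2,k0,k0,k0,k0,k1],[k1,k1,k0,k0,k0,k0],[k1,
    k2,k0,k0,k0,k0],[k1,k1,k0,k0,k0,k1],[k1,k0,k0,k1,k0,k0],[k1,k0,k0,k1,k0,k1],[k1,k0,k0,k0,k1,k0],[k1,k0,k0,k0,k2,
    k0],[k1,k0,k0,k0,k1,k1],[k1,k0,k0,k0,k0,k1],[k1,k0,k0,k0,k0,k2],[k0,k2,k0,k0,k0,k0],[k0,k3,k0,k0,k0,k0],[k0,k4,
    k0,k0,k0,k0],[k0,k3,k0,k0,k0,k1],[k0,k2,k1,k0,k0,k0],[k0,k2,k0,k1,k0,k0],[k0,k2,k0,k1,k0,k1],[k0,k2,k0,k0,k0,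
    k1],[k0,k2,k0,k0,k0,k2],[k0,k1,k1,k0,k0,k0],[k0,k1,k1,k1,k0,k0],[k0,k1,k1,k1,k0,k1],[k0,k1,k1,k0,k0,k1],[k0,k1,
    k0,k1,k0,k0],[k0,k1,k0,k1,k0,k1],[k0,k1,k0,k1,k0,k2],[k0,k1,k0,k0,k1,k0],[k0,k1,k0,k0,k1,k1],[k0,k1,k0,k0,k0,
    k1],[k0,k1,k0,k0,k0,k2],[k0,k0,k2,k0,k0,k0],[k0,k0,k1,k1,k0,k0],[k0,k0,k1,k1,k1,k0],[k0,k0,k1,k1,k0,k1],[k0,k0,
    k1,k0,k1,k0],[k0,k0,k1,k0,k0,k1],[k0,k0,k1,k0,k1,k1],[k0,k0,k0,k2,k0,k0],[k0,k0,k0,k1,k1,k0],[k0,k0,k0,k1,k2,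
    k0],[k0,k0,k0,k1,k1,k1],[k0,k0,k0,k1,k0,k1],[k0,k0,k0,k1,k0,k2],[k0,k0,k0,k0,k2,k0],[k0,k0,k0,k0,k3,k0],[k0,k0,
    k0,k0,k4,k0],[k0,k0,k0,k0,k2,k1],[k0,k0,k0,k0,k1,k1],[k0,k0,k0,k0,k1,k2],[k0,k0,k0,k0,k0,k2]] [.contra [z1],.ref
    k0 k0 [(z2,[y1,z0,y1,z0,z2])],.contra [y1,z1,z1],.contra [z1,y3,y2,y2,z2],.contra [y1,z1,z1],.ref k1 k2 [(z1,
    [z1])],.ref k0 k0 [(z1,[y1,y1,y1,y1,z2])],.ref (nat_lit 201) k4 [(z1,[z1,y1,z0,y1]),(z1,[y1,z0,z0,z0,z1])],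
    .contra [z1,z1],.ref k3 k2 [(z1,[z1])],.contra [y1,z1,z1],.ref (nat_lit 226) k9 [(z1,[z1,y1,y2,z1]),(z2,[y1,y1,
    z0,y2,z2]),(z2,[y1,z1,z2]),(z1,[z1,y1,y1])],.contra [z1],.ref k62 k6 [(z1,[z1]),(z1,[z0,z1,z0,z1])],.ref
    (nat_lit 227) k4 [(z2,[y1,z4,z4,z4,y4]),(z1,[z0,y2,y1,y2,z2]),(z2,[y1,z6,z4,z4,y4]),(z2,[z1])],.ref k0 k9 [(z1,
    [z1,z0,y1,z1])],.ref k0 k0 [(z2,[z1,y2,y2,y1,z2])],.ref k163 k6 [(z1,[z1,z1,z0,z1,y1]),(z1,[z0,z1,z0,z1])],.ref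
    k0 k0 [(z1,[z1,z0,y1,z1])],.contra [y1,z1,z1],.ref k1 k1 [(z1,[z1,z0,y1,z1])],.ref k0 k9 [(z1,[z1])],.ref k3 k2
    [(z1,[y1,z0,z0,z0,z1])],.ref (nat_lit 201) k4 [(z1,[y1,y1,z0,y1,z1]),(z1,[z1])],.ref (nat_lit 228) k1 [(z1,[z2,
    z0,y1,y2]),(z1,[z0,z1]),(z1,[y1,z0,z1,z1]),(z1,[z0,z0,z0,z1])],.contra [y1,y1,z0,y1,z1],.contra [y2,y1,z0,y2,
    z2],.ref (nat_lit 229) k3 [(z1,[z2,z6,z2,z7,y6]),(z1,[z1,z4,z2,z4,y4]),(z1,[y2,y5,y2,y6,z6]),(z1,[z0,y2,y1,y2,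
    z2])],.contra [y2,z0,z1,z1],.contra [y2,z1,z2],.contra [y1,z1,z1],.ref (nat_lit 230) k3 [(z1,[z2,z6,z2,z7,y6]),
    (z1,[z1,z4,z2,z4,y4]),(z1,[y2,y5,y2,y6,z6]),(z1,[z0,y2,y1,y2,z2])],.contra [y1,z2,z0,z2],.ref k0 k0 [(z1,[z1])],
    .contra [z1,z1,z1,z0,y1],.ref k1 k2 [(z1,[y1,y1,y1,y1,z2])],.contra [y2,z1,z0,z2],.ref k1 k1 [(z1,[z1])],.ref
    (nat_lit 229) k3 [(z1,[z2,z4,z2,z3,y4]),(z1,[z1,z3,z2,z2,y3]),(z1,[y2,y3,y2,y2,z4]),(z1,[z0,y2,y1,y2,z2])],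
    .contra [z1],.contra [y1,y1,z0,y1,z1],.ref k1 k2 [(z1,[z1,z1])],.contra [y1,y1,z0,y1,z1],.contra [y2,y1,z0,y2,
    z2],.ref (nat_lit 231) k2 [(z1,[z0,z1]),(z1,[y1,y1,z1,y1,z1]),(z1,[z0,z0,z0,z1]),(z1,[y1,y4,y2,y4,z4])],.contra
    [z1],.ref (nat_lit 201) k4 [(z1,[z1,z0,z0,y1]),(z1,[y1,y1,z0,z0,z1])],.contra [z1,z2],.contra [y1,z0,z1],.contra
    [y2,z1,z2],.ref (nat_lit 225) k6 [(z1,[y2,z0,z1]),(z1,[z0,z1,z0,z1]),(z1,[z0,y2,y1,y2,z2])],.contra [z1]])))),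
    .old [([z1,z0,z0,z1,z0,z1],z2),([z0,z1,z0,z0,z1,z1],z2)] (.z (.x (.old (.tor k0 false k1 [(z1,[y1,z0,z1]),(z1,
    [z0,y1,z1]),(z1,[z0,z1]),(z1,[z1])])))), .old [([z1,z0,z0,z0,z0,y4],z0),([z0,z1,z0,z0,z0,y3],z0),([z0,z0,z1,z0,
    z0,y2],z0),([z0,z0,z0,z1,z0,z6],z2)] (.z (.x (.geo true z1 k5 [(z0,z4),(z0,z3),(z0,z2),(z2,y6),(z2,y4),(z0,z1)]
    [(z1,[z1]),(z1,[z0,z1]),(z1,[z0,z0,z1]),(z1,[z0,z0,z0,z1]),(z1,[y1,y1,y1,y1,z1]),(z1,[])] z0 (Int.ofNat (nat_lit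
    349526)) (.s (.s (.s (.s (.s (.l k2) (.l k1)) (.l k1)) (.l k1)) (.l k1)) (.s (.s (.l k1) (.s (.l k1) (.l k1)))
    (.s (.l k1) (.l k1)))) [⟨z0,z1,[[k0,k1],[k2,k3],[k4,k5]],.bnd k0⟩]))), .old [([z1,z0,z0,z0,z0,y2],z0),([z0,z1,
    z0,z0,z0,z1],z1),([z0,z0,z1,z0,z0,y1],z0),([z0,z0,z0,z1,z0,y1],z1)] (.z (.x (.geo true z1 k5 [(z0,z2),(z1,y1),
    (z0,z1),(z1,z1),(z2,y4),(z0,z1)] [(z1,[z1]),(z1,[z0,z1]),(z1,[z0,z0,z1]),(z1,[z0,z0,z0,z1]),(z1,[y1,y1,y1,y1,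
    z1]),(z1,[])] z0 (Int.ofNat (nat_lit 524288)) (.s (.s (.l k2) (.l k1)) (.s (.l k1) (.l k1))) [⟨z0,z1,[[k0,k2],
    [k1,k3],[k4,k5]],.bnd k0⟩]))), .old [([z1,z0,z1,z0,z0,z0],z1),([z0,z2,z0,z0,z0,z0],z1),([z0,z0,z0,z1,z0,z1],z2)]
    (.z (.x (.old (.leafM k12 [k0,k1,k2,k4] [(z1,[z0,z1]),(z1,[y2,y1,y2,z2]),(z1,[z1])] [(k3,k5,z1,[z0,z0,z1]),(k5,
    k3,z1,[z0,z0,z1])])))), .old [([z3,z0,z0,z0,y6,z0],y2),([z0,z3,z0,z0,z3,z0],z4),([z0,z0,z1,z0,z2,z0],z2),([z0,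
    z0,z0,z3,z0,z0],z2)] (.z (.x (.old (.tor k34 false k0 [(z1,[z1]),(z1,[z0,z1]),(z1,[z0,z0,z1]),(z1,[z0,z0,z0,
    z1]),(z1,[y1,y1,y3,y1,z3])])))), .old [([z1,z0,z0,z0,z0,y4],y2),([z0,z1,z0,z0,z0,z2],z2),([z0,z0,z2,z0,z0,z1],
    z2),([z0,z0,z0,z2,z0,z1],z2)] (.z (.x (.geo true z2 k5 [(y4,z8),(z4,y4),(z2,y1),(z2,y1),(z4,y4),(z0,z2)] [(z1,
    [z2]),(z1,[z0,z2]),(z1,[z0,z0,z1]),(z1,[z0,z0,z0,z1]),(z1,[y2,y2,y1,y1,z2]),(z1,[])] (Int.ofNat (nat_lit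
    524288)) (Int.ofNat (nat_lit 1048576)) (.s (.s (.l k1) (.s (.l k2) (.l k1))) (.s (.l k1) (.s (.l k1) (.l k1))))
    [⟨z2,z3,[[k0,k3],[k1,k4],[k2,k5]],.child (.ref k2 k2 [(z2,[z1,z0,y2,z0,y1,z2])])⟩]))), .old [([z1,z0,z0,z0,y2,
    z1],z0),([z0,z1,z0,z0,y1,z0],z0),([z0,z0,z1,z0,z2,z0],z2)] (.z (.x (.old (.tor k6 false k0 [(z1,[y1,y1,y1,z1]),
    (z1,[z0,z2,z1]),(z1,[z0,y1,y1,z1]),(z1,[z1,z0,z1])])))), .old [([z1,z0,z0,z0,z0,y16],y10),([z0,z1,z0,z0,z0,z11],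
    z8),([z0,z0,z1,z0,z0,y4],y2),([z0,z0,z0,z1,z0,z2],z2)] (.z (.x (.geo true z1 k5 [(y10,z16),(z8,y11),(y2,z4),(z2,
    y2),(z6,y8),(z0,z1)] [(z1,[z1]),(z1,[z0,z1]),(z1,[z0,z0,z1]),(z1,[z0,z0,z0,z1]),(z1,[y1,y1,y1,y1,z1]),(z1,[])]
    (Int.ofNat (nat_lit 655360)) (Int.ofNat (nat_lit 762601)) (.s (.s (.l k1) (.s (.s (.l k1) (.l k2)) (.l k2))) (.s
    (.s (.l k1) (.l k1)) (.l k1))) [⟨z2,z3,[[k0,k3],[k1,k4],[k2,k5]],.child (.ref k2 k2 [(z1,[z4,z0,y1,z0,y1,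
    z1])])⟩]))), .old [([z2,z0,z0,z0,z0,y5],y2),([z0,z2,z0,z0,z0,z1],z2),([z0,z0,z4,z0,z0,y1],z2),([z0,z0,z0,z1,z0,
    z2],z2)] (.z (.x (.geo true z4 k5 [(y4,z10),(z4,y2),(z2,z1),(z8,y8),(z6,y5),(z0,z4)] [(z1,[z2]),(z1,[z0,z2]),
    (z1,[z0,z0,z1]),(z1,[z0,z0,z0,z4]),(z1,[y2,y2,y1,y4,z4]),(z1,[])] (Int.ofNat (nat_lit 419430)) (Int.ofNat
    (nat_lit 1048576)) (.s (.s (.l k1) (.l k2)) (.s (.l k1) (.l k1))) [⟨z2,z3,[[k0,k3],[k1,k4],[k2,k5]],.child (.ref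
    k2 k2 [(z2,[z1,z0,y1,z0,y2,z2])])⟩]))), .old [([z3,z0,z0,z0,z0,y6],y2),([z0,z1,z0,z0,z0,z2],z2),([z0,z0,z3,z0,
    z0,z3],z4),([z0,z0,z0,z3,z0,z0],z2)] (.z (.x (.geo true z3 k5 [(y2,z6),(z6,y6),(z4,y3),(z2,z0),(z2,z0),(z0,z3)]
    [(z1,[z1]),(z1,[z0,z3]),(z1,[z0,z0,z1]),(z1,[z0,z0,z0,z1]),(z1,[y1,y3,y1,y1,z3]),(z1,[])] (Int.ofNat (nat_lit
    349525)) (Int.ofNat (nat_lit 1048576)) (.s (.s (.l k1) (.s (.l k1) (.s (.l k1) (.l k2)))) (.s (.s (.s (.l k2)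
    (.l k1)) (.l k1)) (.l k1))) [⟨z2,z3,[[k0,k3],[k1,k4],[k2,k5]],.child (.ref k2 k2 [(z3,[z1,z0,y3,z0,y1,
    z3])])⟩]))), .old [([z1,z0,z0,z0,y1,z0],z0),([z0,z2,z0,z0,z1,z0],z2),([z0,z0,z1,z0,z1,z1],z2)] (.z (.x (.old
    (.tor k13 false k4 [(z1,[z1,z1]),(z1,[y2,y1,y2,z2]),(z1,[z1,z0,z1]),(z1,[z0,z0,z1])])))), .old [([z3,z0,z0,z0,
    z0,y6],y2),([z0,z3,z0,z0,z0,z0],z2),([z0,z0,z3,z0,z0,z0],z2),([z0,z0,z0,z1,z0,z2],z2)] (.z (.x (.geo true z3 k5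
    [(y2,z6),(z2,z0),(z2,z0),(z6,y6),(z4,y3),(z0,z3)] [(z1,[z1]),(z1,[z0,z1]),(z1,[z0,z0,z1]),(z1,[z0,z0,z0,z3]),
    (z1,[y1,y1,y1,y3,z3]),(z1,[])] (Int.ofNat (nat_lit 349525)) (Int.ofNat (nat_lit 1048576)) (.s (.s (.l k1) (.l
    k2)) (.s (.l k2) (.l k1))) [⟨z2,z3,[[k0,k3],[k1,k4],[k2,k5]],.child (.ref k2 k2 [(z3,[z1,z0,y1,z0,y3,
    z3])])⟩])))]]

end Pool.Agent.Lib_MP_fa6e45
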