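import Pool.Agent.Lib_MP_fa6e45.CQR1
import Pool.Agent.Lib_MP_fa6e45.CQR6_2
import Pool.Agent.Lib_MP_fa6e45.CQR6_2n
import Pool.Agent.Lib_MP_fa6e45.CQR6_2T

/-!
MP_fa6e45_co, stage 9: certificates for the theorem T6 (generated by a program).
-/

namespace Pool.Agent.Lib_MP_fa6e45

theorem r6_3_k0 : allI (chkG (ckP 6 ttU6 r6_3_w r6_3_s) 6 r6_3_w 1 r6_3_s r6_3_t (bl3 [] r6_3_D)) (rawGL dN r6_3_lf r6_3_n0) 0 = true := by
  decide +kernel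

end Pool.Agent.Lib_MP_fa6e45
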