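import Pool.Agent.Lib_MP_fa6e45.CQR6_2_k0
import Pool.Agent.Lib_MP_fa6e45.CQR6_2_k1

/-!
MP_fa6e45_co, stage 9: certificates for the theorem T6 (generated by a program).
-/

namespace Pool.Agent.Lib_MP_fa6e45

/-- number of the pattern -/
noncomputable def tl6_2_0 : List ℕ := [nat_lit 4415293752324]

theorem sR6_2_0 : ∀ x ∈ tl6_2_0, NodeU 6 (decW 6 x) [] := by
  refine oneG_sound (by norm_num) (by norm_num) ttU6_ok (w := r6_3_w) (sy := r6_3_s) (st := r6_3_t) (D := r6_3_D)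
    (Ns := rawGL dN r6_3_lf r6_3_n0 ++ (rawGL dN r6_3_lf r6_3_n1)) (by decide +kernel) ?_
  refine allI_appQ (k := 180) r6_3_k0 (by decide +kernel) ?_
  exact r6_3_k1

end Pool.Agent.Lib_MP_fa6e45
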