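import Pool.Agent.Lib_MP_fa6e45.CQ4
import Pool.Agent.Lib_MP_fa6e45.CXTg
import Pool.Agent.Lib_MP_fa6e45.HK

/-!
MP_fa6e45_co, stage 9: certificates for the theorem T6 (generated by a program).
-/

namespace Pool.Agent.Lib_MP_fa6e45

/-- table of nodes in the old format -/
noncomputable def r6_37_lf : List (List (QN PN)) :=
  [[.old [([z1,z0,z1,z0,z1,z0],z2)] (.z (.x (.old (.leafM k1 [k0,k1,k2,k3,k4,k5] [(z1,[y1,z1]),(z1,[z1])] [])))), .old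
    [([z3,z0,z0,z0,z0,z0],z2),([z0,z3,z0,z0,z0,z3],z2),([z0,z0,z1,z0,z1,z0],z2)] (.z (.x (.old (.leafM k10 [k1,k3,
    k5,k0] [(z1,[y1,y1,y3,z3]),(z1,[z1]),(z1,[z0,z1])] [(k2,k4,z1,[z0,z0,z1]),(k4,k2,z1,[z0,z0,z1])])))), .old
    [([z3,z0,z0,z0,z0,z0],z1),([z0,z1,z0,z0,z0,z1],z1),([z0,z0,z1,z0,z1,z0],z2)] (.z (.x (.old (.leafM k11 [k1,k3,
    k5,k0] [(z1,[y1,y3,y3,z3]),(z1,[z1]),(z1,[z0,z1])] [(k2,k4,z1,[z0,z0,z1]),(k4,k2,z1,[z0,z0,z1])])))), .old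
    [([z1,z0,z0,z0,y1,z0],z0),([z0,z3,z0,z0,z0,z0],z2),([z0,z0,z1,z0,z1,z0],z2),([z0,z0,z0,z3,z3,z0],z2)] (.z (.x
    (.geo true z3 k4 [(z0,z3),(z2,z0),(z6,y3),(z2,y3),(z0,z3),(z2,z0)] [(z1,[z3]),(z1,[z0,z1]),(z1,[z0,z0,z3]),(z1,
    [z0,z0,z0,z1]),(z1,[]),(z1,[y3,y1,y3,y1,z3])] z0 (Int.ofNat (nat_lit 699051)) (.s (.s (.l k2) (.l k1)) (.s (.l
    k1) (.l k1))) [⟨z0,z1,[[k0,k5],[k1,k2],[k3,k4]],.bnd k0⟩]))), .old [([z1,z0,z0,z0,y1,z0],z0),([z0,z3,z0,z0,z0,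
    z0],z2),([z0,z0,z1,z0,z1,z0],z2),([z0,z0,z0,z6,z6,z0],z5)] (.z (.x (.geo true z6 k4 [(z0,z6),(z4,z0),(z12,y6),
    (z5,y6),(z0,z6),(z3,z0)] [(z1,[z6]),(z1,[z0,z2]),(z1,[z0,z0,z6]),(z1,[z0,z0,z0,z1]),(z1,[]),(z1,[y6,y2,y6,y1,
    z6])] z0 (Int.ofNat (nat_lit 873814)) (.s (.s (.l k2) (.l k1)) (.s (.l k1) (.l k1))) [⟨z0,z1,[[k0,k5],[k1,k2],
    [k3,k4]],.bnd k0⟩]))), .old [([z3,z0,z0,z0,z0,y6],y10),([z0,z1,z0,z0,z0,z1],z2),([z0,z0,z3,z0,z0,z3],z8),([z0,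
    z0,z0,z1,z0,z1],z2)] (.z (.x (.geo true z3 k5 [(y10,z6),(z6,y3),(z8,y3),(z6,y3),(z2,z0),(z0,z3)] [(z1,[z1]),(z1,
    [z0,z3]),(z1,[z0,z0,z1]),(z1,[z0,z0,z0,z3]),(z1,[y1,y3,y1,y3,z3]),(z1,[])] (Int.ofNat (nat_lit 1747626))
    (Int.ofNat (nat_lit 2097152)) (.s (.s (.l k1) (.l k1)) (.s (.l k1) (.s (.l k1) (.l k2)))) [⟨z2,z1,[[k0,k1],[k2,
    k3],[k4,k5]],.bnd k1⟩]))), .old [([z3,z0,z0,z0,z0,y6],y2),([z0,z3,z0,z0,z0,z0],z2),([z0,z0,z3,z0,z0,z6],z8),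
    ([z0,z0,z0,z1,z0,z3],z2)] (.z (.x (.geo true z3 k5 [(y2,z6),(z2,z0),(z8,y6),(z6,y9),(y2,z6),(z0,z3)] [(z1,[z1]),
    (z1,[z0,z1]),(z1,[z0,z0,z1]),(z1,[z0,z0,z0,z3]),(z1,[y1,y1,y1,y3,z3]),(z1,[])] (Int.ofNat (nat_lit 349525))
    (Int.ofNat (nat_lit 699051)) (.s (.s (.s (.l k2) (.l k1)) (.l k1)) (.s (.l k1) (.l k1))) [⟨z1,z3,[[k0,k5],[k1,
    k2],[k3,k4]],.bnd k0⟩]))), .old [([z3,z0,z0,z0,z0,y3],y2),([z0,z1,z0,z0,z0,z2],z2),([z0,z0,z3,z0,z0,y3],y2),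
    ([z0,z0,z0,z3,z0,z0],z2)] (.z (.x (.geo true z3 k5 [(y2,z3),(z6,y6),(y2,z3),(z2,z0),(z8,y3),(z0,z3)] [(z1,[z1]),
    (z1,[z0,z3]),(z1,[z0,z0,z1]),(z1,[z0,z0,z0,z1]),(z1,[y1,y3,y1,y1,z3]),(z1,[])] (Int.ofNat (nat_lit 699050))
    (Int.ofNat (nat_lit 1048576)) (.s (.s (.l k2) (.l k1)) (.l k1)) [⟨z2,z3,[[k0,k5],[k1,k2],[k3,k4]],.bnd k0⟩]))),
    .old [([z1,z0,z0,z0,y1,z0],z0),([z0,z3,z0,z0,z0,z0],z2),([z0,z0,z1,z0,z1,z0],z2),([z0,z0,z0,z9,z9,z0],z8)] (.z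
    (.x (.geo true z9 k4 [(z0,z9),(z6,z0),(z18,y9),(z8,y9),(z0,z9),(z4,z0)] [(z1,[z9]),(z1,[z0,z3]),(z1,[z0,z0,z9]),
    (z1,[z0,z0,z0,z1]),(z1,[]),(z1,[y9,y3,y9,y1,z9])] z0 (Int.ofNat (nat_lit 932068)) (.s (.s (.l k2) (.l k1)) (.s
    (.l k1) (.l k1))) [⟨z0,z1,[[k0,k5],[k1,k2],[k3,k4]],.bnd k0⟩]))), .old [([z3,z0,z0,z0,z0,y6],y8),([z0,z1,z0,z0,
    z0,z1],z2),([z0,z0,z1,z0,z0,z1],z2),([z0,z0,z0,z1,z0,z1],z2)] (.z (.x (.geo true z3 k5 [(y8,z6),(z6,y3),(z6,y3),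
    (z6,y3),(z2,z0),(z0,z3)] [(z1,[z1]),(z1,[z0,z3]),(z1,[z0,z0,z3]),(z1,[z0,z0,z0,z3]),(z1,[y1,y3,y3,y3,z3]),(z1,
    [])] (Int.ofNat (nat_lit 1398101)) (Int.ofNat (nat_lit 2097152)) (.s (.s (.l k1) (.l k1)) (.s (.l k1) (.s (.l
    k1) (.s (.l k1) (.l k2))))) [⟨z2,z1,[[k0,k1],[k2,k3],[k4,k5]],.bnd k1⟩]))), .old [([z1,z0,z0,z0,z0,y1],z0),([z0,
    z1,z0,z0,z0,z1],z2),([z0,z0,z3,z0,z0,z0],z2),([z0,z0,z0,z1,z0,y1],z0)] (.z (.x (.geo true z3 k5 [(z0,z3),(z6,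
    y3),(z2,z0),(z0,z3),(z4,y6),(z0,z3)] [(z1,[z3]),(z1,[z0,z3]),(z1,[z0,z0,z1]),(z1,[z0,z0,z0,z3]),(z1,[y3,y3,y1,
    y3,z3]),(z1,[])] z0 (Int.ofNat (nat_lit 699051)) (.s (.s (.s (.l k2) (.l k1)) (.s (.l k1) (.l k1))) (.s (.l k1)
    (.l k1))) [⟨z0,z1,[[k0,k1],[k2,k3],[k4,k5]],.bnd k0⟩]))), .old [([z1,z0,z0,z0,y1,z0],z0),([z0,z3,z0,z0,z0,z0],
    z2),([z0,z0,z1,z0,z1,z0],z2),([z0,z0,z0,z1,z1,z0],z1)] (.z (.x (.geo true z3 k4 [(z0,z3),(z2,z0),(z6,y3),(z3,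
    y3),(z0,z3),(z1,z0)] [(z1,[z3]),(z1,[z0,z1]),(z1,[z0,z0,z3]),(z1,[z0,z0,z0,z3]),(z1,[]),(z1,[y3,y1,y3,y3,z3])]
    z0 (Int.ofNat (nat_lit 1048576)) (.s (.s (.s (.l k2) (.l k1)) (.l k1)) (.s (.l k1) (.l k1))) [⟨z0,z1,[[k0,k5],
    [k1,k2],[k3,k4]],.bnd k0⟩]))), .old [([z3,z0,z0,z0,z0,y3],y2),([z0,z1,z0,z0,z0,z2],z2),([z0,z0,z3,z0,z0,y6],y4),
    ([z0,z0,z0,z3,z0,z0],z2)] (.z (.x (.geo true z3 k5 [(y2,z3),(z6,y6),(y4,z6),(z2,z0),(z10,y6),(z0,z3)] [(z1,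
    [z1]),(z1,[z0,z3]),(z1,[z0,z0,z1]),(z1,[z0,z0,z0,z1]),(z1,[y1,y3,y1,y1,z3]),(z1,[])] (Int.ofNat (nat_lit
    699050)) (Int.ofNat (nat_lit 1048576)) (.s (.l k2) (.l k1)) [⟨z2,z3,[[k0,k5],[k1,k2],[k3,k4]],.bnd k0⟩]))), .old
    [([z3,z0,z0,z0,z0,y6],y4),([z0,z3,z0,z0,z0,z0],z2),([z0,z0,z3,z0,z0,z6],z10),([z0,z0,z0,z1,z0,z2],z2)] (.z (.x
    (.geo true z3 k5 [(y4,z6),(z2,z0),(z10,y6),(z6,y6),(y2,z3),(z0,z3)] [(z1,[z1]),(z1,[z0,z1]),(z1,[z0,z0,z1]),(z1,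
    [z0,z0,z0,z3]),(z1,[y1,y1,y1,y3,z3]),(z1,[])] (Int.ofNat (nat_lit 699050)) (Int.ofNat (nat_lit 1048576)) (.s (.s
    (.s (.l k2) (.l k1)) (.l k1)) (.s (.l k1) (.l k1))) [⟨z2,z3,[[k0,k5],[k1,k2],[k3,k4]],.bnd k0⟩]))), .old [([z3,
    z0,z0,z0,z0,y3],y2),([z0,z1,z0,z0,z0,z2],z2),([z0,z0,z1,z0,z0,y3],y2),([z0,z0,z0,z3,z0,z0],z2)] (.z (.x (.geo
    true z3 k5 [(y2,z3),(z6,y6),(y6,z9),(z2,z0),(z12,y9),(z0,z3)] [(z1,[z1]),(z1,[z0,z3]),(z1,[z0,z0,z3]),(z1,[z0,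
    z0,z0,z1]),(z1,[y1,y3,y3,y1,z3]),(z1,[])] (Int.ofNat (nat_lit 699050)) (Int.ofNat (nat_lit 1048576)) (.s (.l k2)
    (.l k1)) [⟨z2,z3,[[k0,k5],[k1,k2],[k3,k4]],.bnd k0⟩]))), .old [([z3,z0,z0,z0,z0,z0],z1),([z0,z1,z0,z0,z0,z1],
    z2),([z0,z0,z1,z0,z1,z0],z1)] (.z (.x (.old (.leafM k11 [k2,k3,k4,k0] [(z1,[y1,y3,y3,z3]),(z1,[z1]),(z1,[z0,z0,
    z1])] [(k5,k1,z1,[z0,z1]),(k1,k5,z1,[z0,z1])]))))], [.old [([z1,z0,z0,z0,y1,z0],z0),([z0,z3,z0,z0,z0,z0],z1),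
    ([z0,z0,z1,z0,z1,z0],z2),([z0,z0,z0,z1,z1,z0],z1)] (.z (.x (.geo true z3 k4 [(z0,z3),(z1,z0),(z6,y3),(z3,y3),
    (z0,z3),(z2,z0)] [(z1,[z3]),(z1,[z0,z1]),(z1,[z0,z0,z3]),(z1,[z0,z0,z0,z3]),(z1,[]),(z1,[y3,y1,y3,y3,z3])] z0
    (Int.ofNat (nat_lit 1048576)) (.s (.s (.s (.l k2) (.l k1)) (.l k1)) (.s (.s (.l k1) (.l k3)) (.l k1))) [⟨z0,z1,
    [[k0,k5],[k1,k2],[k3,k4]],.bnd k0⟩,⟨z2,z3,[[k0,k3],[k1,k5],[k2,k4]],.child (.ref k22 k3 [(z1,[y1,z0,z0,z0,z3]),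
    (z1,[z0,z0,z0,z1]),(z1,[z0,y1,z0,y1,y1,z1])])⟩]))), .old [([z1,z0,z0,z0,y1,z0],z0),([z0,z9,z0,z0,z0,z0],z4),
    ([z0,z0,z1,z0,z1,z0],z2),([z0,z0,z0,z9,z9,z0],z8)] (.z (.x (.geo true z9 k4 [(z0,z9),(z4,z0),(z18,y9),(z8,y9),
    (z0,z9),(z6,z0)] [(z1,[z9]),(z1,[z0,z1]),(z1,[z0,z0,z9]),(z1,[z0,z0,z0,z1]),(z1,[]),(z1,[y9,y1,y9,y1,z9])] z0
    (Int.ofNat (nat_lit 932068)) (.s (.s (.s (.l k2) (.l k1)) (.l k1)) (.s (.s (.l k1) (.l k1)) (.s (.l k1) (.l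
    k1)))) [⟨z0,z1,[[k0,k5],[k1,k2],[k3,k4]],.bnd k0⟩]))), .old [([z1,z0,z0,z0,y1,z0],z0),([z0,z2,z0,z0,z0,z0],z1),
    ([z0,z0,z1,z0,z1,z0],z2),([z0,z0,z0,z6,z6,z0],z5)] (.z (.x (.geo true z6 k4 [(z0,z6),(z3,z0),(z12,y6),(z5,y6),
    (z0,z6),(z4,z0)] [(z1,[z6]),(z1,[z0,z3]),(z1,[z0,z0,z6]),(z1,[z0,z0,z0,z1]),(z1,[]),(z1,[y6,y3,y6,y1,z6])] z0
    (Int.ofNat (nat_lit 873814)) (.s (.s (.s (.l k2) (.l k1)) (.l k1)) (.s (.l k1) (.l k1))) [⟨z0,z1,[[k0,k5],[k1,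
    k2],[k3,k4]],.bnd k0⟩]))), .old [([z3,z0,z0,z0,z0,z0],z2),([z0,z3,z0,z0,z0,z0],z2),([z0,z0,z3,z0,z0,z0],z2),
    ([z0,z0,z0,z3,z0,z3],z2)] (.z (.x (.geo true z3 k5 [(z2,z0),(z2,z0),(z2,z0),(z2,y3),(z4,z0),(z0,z3)] [(z1,[z1]),
    (z1,[z0,z1]),(z1,[z0,z0,z1]),(z1,[z0,z0,z0,z1]),(z1,[y1,y1,y1,y1,z3]),(z1,[])] z0 (Int.ofNat (nat_lit 699051))
    (.l k2) [⟨z1,z3,[[k0,k4],[k1,k3],[k2,k5]],.child (.ref k22 k3 [(z1,[y1,z0,z0,z0,z1]),(z3,[z0,y1,y1,z0,y1,z3]),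
    (z3,[z1,z0,z1])])⟩]))), .old [([z1,z0,z1,z0,z0,z0],z2),([z0,z2,z0,z0,z0,z0],z1),([z0,z0,z0,z1,z0,z1],z1)] (.z
    (.x (.old (.leafM k12 [k3,k4,k5,k1] [(z1,[y2,y1,y2,z2]),(z1,[z0,z1]),(z1,[z0,z0,z1])] [(k0,k2,z1,[z1]),(k2,k0,
    z1,[z1])])))), .old [([z1,z0,z0,z0,z0,y3],z0),([z0,z1,z0,z0,z0,y4],y2),([z0,z0,z1,z0,z0,z3],z2),([z0,z0,z0,z1,
    z0,z2],z2)] (.z (.x (.geo true z1 k5 [(z0,z3),(y2,z4),(z2,y3),(z2,y2),(z2,y3),(z0,z1)] [(z1,[z1]),(z1,[z0,z1]),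
    (z1,[z0,z0,z1]),(z1,[z0,z0,z0,z1]),(z1,[y1,y1,y1,y1,z1]),(z1,[])] (Int.ofNat (nat_lit 524288)) (Int.ofNat
    (nat_lit 699051)) (.s (.l k1) (.l k2)) [⟨z2,z3,[[k0,k5],[k1,k2],[k3,k4]],.bnd k0⟩]))), .old [([z1,z0,z0,z0,z0,
    y4],y6),([z0,z1,z0,z0,z0,z1],z2),([z0,z0,z1,z0,z0,z2],z4),([z0,z0,z0,z1,z0,z1],z2)] (.z (.x (.geo true z1 k5
    [(y6,z4),(z2,y1),(z4,y2),(z2,y1),(z2,y1),(z0,z1)] [(z1,[z1]),(z1,[z0,z1]),(z1,[z0,z0,z1]),(z1,[z0,z0,z0,z1]),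
    (z1,[y1,y1,y1,y1,z1]),(z1,[])] (Int.ofNat (nat_lit 1572864)) (Int.ofNat (nat_lit 2097152)) (.s (.s (.s (.l k1)
    (.l k1)) (.s (.l k1) (.l k1))) (.s (.s (.l k1) (.l k1)) (.s (.s (.l k1) (.l k1)) (.s (.l k1) (.s (.l k1) (.s (.l
    k1) (.l k2))))))) [⟨z2,z1,[[k0,k1],[k2,k3],[k4,k5]],.bnd k0⟩]))), .old [([z2,z0,z0,z0,z0,y3],y4),([z0,z1,z0,z0,
    z0,z1],z2),([z0,z0,z2,z0,z0,y1],z0),([z0,z0,z0,z1,z0,z1],z2)] (.z (.x (.geo true z2 k5 [(y4,z3),(z4,y2),(z0,z1),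
    (z4,y2),(z4,y2),(z0,z2)] [(z1,[z1]),(z1,[z0,z2]),(z1,[z0,z0,z1]),(z1,[z0,z0,z0,z2]),(z1,[y1,y2,y1,y2,z2]),(z1,
    [])] (Int.ofNat (nat_lit 1398101)) (Int.ofNat (nat_lit 2097152)) (.s (.s (.l k1) (.l k1)) (.s (.l k1) (.s (.l
    k1) (.s (.l k1) (.l k2))))) [⟨z2,z1,[[k0,k1],[k2,k3],[k4,k5]],.bnd k1⟩]))), .old [([z1,z0,z0,z0,z0,y2],z0),([z0,
    z1,z0,z0,z0,z1],z2),([z0,z0,z1,z0,z0,y1],z0),([z0,z0,z0,z1,z0,y1],z0)] (.z (.x (.geo true z1 k5 [(z0,z2),(z2,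
    y1),(z0,z1),(z0,z1),(z2,y4),(z0,z1)] [(z1,[z1]),(z1,[z0,z1]),(z1,[z0,z0,z1]),(z1,[z0,z0,z0,z1]),(z1,[y1,y1,y1,
    y1,z1]),(z1,[])] z0 (Int.ofNat (nat_lit 524288)) (.s (.s (.s (.s (.l k2) (.l k1)) (.l k1)) (.s (.l k1) (.l k1)))
    (.s (.l k1) (.l k1))) [⟨z0,z1,[[k0,k1],[k2,k3],[k4,k5]],.bnd k0⟩]))), .old [([z1,z0,z0,z0,z0,y2],y3),([z0,z1,z0,
    z0,z0,z1],z2),([z0,z0,z1,z0,z0,z2],z4),([z0,z0,z0,z1,z0,z1],z2)] (.z (.x (.geo true z1 k5 [(y3,z2),(z2,y1),(z4,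
    y2),(z2,y1),(y1,z1),(z0,z1)] [(z1,[z1]),(z1,[z0,z1]),(z1,[z0,z0,z1]),(z1,[z0,z0,z0,z1]),(z1,[y1,y1,y1,y1,z1]),
    (z1,[])] (Int.ofNat (nat_lit 1572864)) (Int.ofNat (nat_lit 2097152)) (.s (.s (.l k1) (.l k1)) (.s (.l k1) (.s
    (.l k1) (.s (.l k1) (.l k2))))) [⟨z2,z1,[[k0,k1],[k2,k3],[k4,k5]],.bnd k1⟩]))), .old [([z1,z0,z0,z0,z0,y3],z0),
    ([z0,z1,z0,z0,z0,z1],z2),([z0,z0,z1,z0,z0,y2],z0),([z0,z0,z0,z1,z0,y1],z0)] (.z (.x (.geo true z1 k5 [(z0,z3),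
    (z2,y1),(z0,z2),(z0,z1),(z2,y6),(z0,z1)] [(z1,[z1]),(z1,[z0,z1]),(z1,[z0,z0,z1]),(z1,[z0,z0,z0,z1]),(z1,[y1,y1,
    y1,y1,z1]),(z1,[])] z0 (Int.ofNat (nat_lit 349526)) (.s (.s (.s (.s (.s (.l k2) (.l k1)) (.l k1)) (.l k1)) (.s
    (.l k1) (.l k1))) (.s (.s (.l k1) (.l k1)) (.l k1))) [⟨z0,z1,[[k0,k1],[k2,k3],[k4,k5]],.bnd k0⟩]))), .old [([z2,
    z0,z0,z0,z0,y2],y1),([z0,z1,z0,z0,z0,z2],z2),([z0,z0,z2,z0,z0,y2],y1),([z0,z0,z0,z2,z0,z0],z1)] (.z (.x (.geo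
    true z2 k5 [(y1,z2),(z4,y4),(y1,z2),(z1,z0),(z5,y2),(z0,z2)] [(z1,[z1]),(z1,[z0,z2]),(z1,[z0,z0,z1]),(z1,[z0,z0,
    z0,z1]),(z1,[y1,y2,y1,y1,z2]),(z1,[])] (Int.ofNat (nat_lit 524288)) (Int.ofNat (nat_lit 1048576)) (.s (.s (.s
    (.s (.l k2) (.l k1)) (.l k1)) (.l k1)) (.l k1)) [⟨z1,z2,[[k0,k2],[k1,k5],[k3,k4]],.bnd k0⟩]))), .old [([z5,z0,
    z0,z0,z0,y5],y2),([z0,z1,z0,z0,z0,z2],z2),([z0,z0,z5,z0,z0,y5],y2),([z0,z0,z0,z5,z0,z0],z2)] (.z (.x (.geo true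
    z5 k5 [(y2,z5),(z10,y10),(y2,z5),(z2,z0),(z12,y5),(z0,z5)] [(z1,[z1]),(z1,[z0,z5]),(z1,[z0,z0,z1]),(z1,[z0,z0,
    z0,z1]),(z1,[y1,y5,y1,y1,z5]),(z1,[])] (Int.ofNat (nat_lit 419430)) (Int.ofNat (nat_lit 1048576)) (.s (.s (.s
    (.s (.s (.l k2) (.l k1)) (.l k1)) (.l k1)) (.l k1)) (.l k1)) [⟨z2,z5,[[k0,k5],[k1,k2],[k3,k4]],.bnd k0⟩]))),
    .old [([z5,z0,z0,z0,z0,z0],z1),([z0,z5,z0,z0,z0,z0],z4),([z0,z0,z5,z0,z0,z0],z4),([z0,z0,z0,z5,z0,z0],z2),([z0,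
    z0,z0,z0,z5,z0],z3)] (.z (.x (.lp [(nat_lit 28126),(nat_lit 57624),(nat_lit 48020),(nat_lit 55566),(nat_lit
    53508),(nat_lit 82320)] [(nat_lit 27097),(nat_lit 27097),(nat_lit 12348),(nat_lit 12348),(nat_lit 17150),
    (nat_lit 17150),(nat_lit 13377),(nat_lit 13377),(nat_lit 14406),(nat_lit 14406),k0,k0] k0 [[k0,k0,k0,k0,k0,k0,
    (nat_lit 1372)],[k0,k0,k0,(nat_lit 9604)],[(nat_lit 9604)],[k0,k0,k0,k0,k0,k0,k0,k0,k0,(nat_lit 23324)],[],[],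
    [k0,k0,k0,k0,k0,k0,k0,k0,(nat_lit 30870)],[k0,(nat_lit 1372)],[k0,k0,(nat_lit 23324)],[k0,k0,k0,k0,k0,k0,k0,
    (nat_lit 30870)]] (nat_lit 164640) k7 [[(k0,(nat_lit 28126)),(k4,(nat_lit 38073)),(k8,(nat_lit 40817))],[(k1,
    (nat_lit 28126)),(k9,(nat_lit 39445)),(k5,(nat_lit 47677))],[(k2,(nat_lit 48020)),(k6,(nat_lit 57967)),(k10,
    (nat_lit 69972))],[(k3,(nat_lit 48020)),(k7,(nat_lit 56595)),(k11,(nat_lit 93296))],[(k8,(nat_lit 27440)),(k0,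
    (nat_lit 47677)),(k4,(nat_lit 48020))],[(k1,(nat_lit 38073)),(k5,(nat_lit 48020)),(k9,(nat_lit 50764))],[(k6,
    (nat_lit 55566)),(k2,(nat_lit 56595)),(k10,(nat_lit 68943))],[(k11,(nat_lit 38073)),(k7,(nat_lit 55566)),(k3,
    (nat_lit 57967))],[(k0,(nat_lit 39445)),(k4,(nat_lit 50764)),(k8,(nat_lit 84378))],[(k5,(nat_lit 27440)),(k1,
    (nat_lit 40817)),(k9,(nat_lit 84378))],[(k6,(nat_lit 38073)),(k10,(nat_lit 82320)),(k2,(nat_lit 93296))],[(k7,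
    (nat_lit 68943)),(k3,(nat_lit 69972)),(k11,(nat_lit 82320))]] [[k0,k0,k0,k4,k8],[k0,k0,k0,k8,k4],[k0,k0,k4,k0,
    k8],[k0,k0,k4,k4],[k0,k0,k4,k8,k0],[k0,k0,k8,k0,k4],[k0,k0,k8,k4,k0],[k0,k4,k0,k0,k8],[k0,k4,k0,k4],[k0,k4,k0,
    k8,k0],[k0,k4,k4,k0],[k0,k4,k8,k0,k0],[k0,k8,k0,k0,k4],[k0,k8,k0,k4,k0],[k0,k8,k4,k0,k0],[k0,k8,k8,k8],[k1,k1,
    k1,k5,k9],[k1,k1,k1,k9,k5],[k1,k1,k5,k1,k9],[k1,k1,k5,k5],[k1,k1,k5,k9,k1],[k1,k1,k9,k1,k5],[k1,k1,k9,k5,k1],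
    [k1,k5,k1,k1,k9],[k1,k5,k1,k5],[k1,k5,k1,k9,k1],[k1,k5,k5,k1],[k1,k5,k9,k1,k1],[k1,k9,k1,k1,k5],[k1,k9,k1,k5,
    k1],[k1,k9,k5,k1,k1],[k1,k9,k9,k9],[k2,k2,k6],[k2,k6,k2],[k2,k6,k6,k6],[k2,k10],[k3,k3,k7],[k3,k7,k3],[k3,k7,k7,
    k7],[k3,k11],[k4,k8,k8],[k5,k9,k9],[k6,k6,k6,k6,k6],[k6,k6,k10],[k6,k10,k6],[k7,k7,k7,k7,k7],[k7,k7,k11],[k7,
    k11,k7]] ⟨[[[k0,k0,k0,k4,k8],[k0,k0,k0,k8,k4],[k0,k0,k4,k0,k8],[k0,k0,k4,k4],[k0,k0,k4,k8,k0],[k0,k0,k8,k0,k4],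
    [k0,k0,k8,k4,k0],[k0,k4,k0,k0,k8],[k0,k4,k0,k4],[k0,k4,k0,k8,k0],[k0,k4,k4,k0],[k0,k4,k8,k0,k0]],[[k0,k8,k0,k0,
    k4],[k0,k8,k0,k4,k0],[k0,k8,k4,k0,k0],[k0,k8,k8,k8],[k1,k1,k1,k5,k9],[k1,k1,k1,k9,k5],[k1,k1,k5,k1,k9],[k1,k1,
    k5,k5],[k1,k1,k5,k9,k1],[k1,k1,k9,k1,k5],[k1,k1,k9,k5,k1],[k1,k5,k1,k1,k9]],[[k1,k5,k1,k5],[k1,k5,k1,k9,k1],[k1,
    k5,k5,k1],[k1,k5,k9,k1,k1],[k1,k9,k1,k1,k5],[k1,k9,k1,k5,k1],[k1,k9,k5,k1,k1],[k1,k9,k9,k9],[k2,k2,k6],[k2,k6,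
    k2],[k2,k6,k6,k6],[k2,k10]],[[k3,k3,k7],[k3,k7,k3],[k3,k7,k7,k7],[k3,k11],[k4,k0,k0,k0,k8],[k4,k0,k0,k4],[k4,k0,
    k0,k8,k0],[k4,k0,k4,k0],[k4,k0,k8,k0,k0],[k4,k4,k0,k0],[k4,k8,k0,k0,k0],[k4,k8,k8]],[[k5,k1,k1,k1,k9],[k5,k1,k1,
    k5],[k5,k1,k1,k9,k1],[k5,k1,k5,k1],[k5,k1,k9,k1,k1],[k5,k5,k1,k1],[k5,k9,k1,k1,k1],[k5,k9,k9],[k6,k2,k2],[k6,k2,
    k6,k6],[k6,k6,k2,k6],[k6,k6,k6,k2]],[[k6,k6,k6,k6,k6],[k6,k6,k10],[k6,k10,k6],[k7,k3,k3],[k7,k3,k7,k7],[k7,k7,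
    k3,k7],[k7,k7,k7,k3],[k7,k7,k7,k7,k7],[k7,k7,k11],[k7,k11,k7],[k8,k0,k0,k0,k4],[k8,k0,k0,k4,k0]],[[k8,k0,k4,k0,
    k0],[k8,k0,k8,k8],[k8,k4,k0,k0,k0],[k8,k4,k8],[k8,k8,k0,k8],[k8,k8,k4],[k8,k8,k8,k0],[k9,k1,k1,k1,k5],[k9,k1,k1,
    k5,k1],[k9,k1,k5,k1,k1],[k9,k1,k9,k9],[k9,k5,k1,k1,k1]],[[k9,k5,k9],[k9,k9,k1,k9],[k9,k9,k5],[k9,k9,k9,k1],[k10,
    k2],[k10,k6,k6],[k11,k3],[k11,k7,k7]]],[[k4,k6,k9,k10,k11,k13,k14,k42,k43,k44,k45,k46],[k71,k72,k74,k78,k20,k22,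
    k25,k26,k27,k29,k30,k50],[k51,k52,k53,k54,k80,k81,k83,k87,k33,k56,k59,k88],[k37,k63,k66,k90,k1,k3,k5,k8,k12,k41,
    k70,k77],[k17,k19,k21,k24,k28,k49,k79,k86,k32,k34,k57,k58],[k60,k62,k89,k36,k38,k64,k65,k67,k69,k91,k0,k2],[k7,
    k15,k40,k47,k73,k75,k76,k16,k18,k23,k31,k48],[k55,k82,k84,k85,k35,k61,k39,k68]],[[k70,k40,k71,k41,k0,k42,k1,k72,
    k43,k2,k3,k4],[k44,k5,k6,k73,k79,k48,k80,k49,k16,k50,k17,k81],[k51,k18,k19,k20,k52,k21,k22,k82,k56,k32,k57,k88],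
    [k63,k36,k64,k90,k74,k45,k7,k8,k9,k10,k11,k75],[k83,k53,k23,k24,k25,k26,k27,k84,k33,k58,k59,k34],[k60,k89,k61,
    k37,k65,k66,k38,k67,k91,k68,k46,k12],[k13,k76,k14,k77,k78,k47,k15,k54,k28,k29,k85,k30],[k86,k87,k55,k31,k35,k62,
    k39,k69]],[[[k88],[k88],[k88],[k88],[k88],[k88],[k88],[k89],[k89],[k89],[k89],[k89]],[[],[],[],[],[k39],[k39],
    [k39],[k39],[k39],[k39],[k39],[k37]],[[k37],[k37],[k37],[k37],[k36,k38],[k36,k38],[k36,k38],[k36,k38],[k1,k3,k5,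
    k8,k12],[k0,k2,k7,k15],[k0,k2,k7,k15],[k4,k6,k9,k10,k11,k13,k14]],[[k50,k51,k52,k53,k54],[k49],[k49],[k48,k55],
    [k33],[k33],[k33],[k33],[k33],[k32,k34],[k35],[k35]],[[k68],[k68],[k68],[k68],[k68],[k63,k66],[k64,k65,k67,k69],
    [k64,k65,k67,k69],[k41],[k41],[k40,k47],[k40,k47]],[[k40,k47],[k40,k47],[k42,k43,k44,k45,k46],[k80,k81,k83,k87],
    [k80,k81,k83,k87],[k79,k86],[k79,k86],[k79,k86],[k79,k86],[k82,k84,k85],[k56,k59],[k56,k59]],[[k56,k59],[k56,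
    k59],[k57,k58,k60,k62],[k57,k58,k60,k62],[k61],[k61],[k61],[],[],[],[],[k90]],[[k90],[k91],[k91],[k91],[k70,
    k77],[k73,k75,k76],[k20,k22,k25,k26,k27,k29,k30],[k17,k19,k21,k24,k28]]],k92⟩ k3 k2 (nat_lit 686) [[k2,k0,k0,k0,
    k0,k0],[k3,k0,k0,k0,k0,k0],[k4,k0,k0,k0,k0,k0],[k5,k0,k0,k0,k0,k0],[k3,k0,k1,k0,k0,k0],[k3,k0,k0,k0,k1,k0],[k2,
    k0,k1,k0,k0,k0],[k2,k0,k1,k0,k1,k0],[k2,k0,k0,k0,k1,k0],[k1,k0,k1,k0,k0,k0],[k1,k0,k2,k0,k0,k0],[k1,k0,k2,k0,k1,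
    k0],[k1,k0,k1,k0,k1,k0],[k1,k0,k0,k0,k1,k0],[k2,k0,k0,k0,k2,k0],[k1,k0,k1,k0,k2,k0],[k0,k2,k0,k0,k0,k0],[k0,k3,
    k0,k0,k0,k0],[k0,k1,k0,k1,k0,k0],[k0,k0,k2,k0,k0,k0],[k0,k0,k3,k0,k0,k0],[k0,k0,k2,k0,k1,k0],[k0,k0,k1,k0,k1,
    k0],[k0,k0,k2,k0,k2,k0],[k0,k0,k0,k2,k0,k0],[k0,k0,k0,k1,k0,k1]] [.contra [z1],.contra [z4,y1],.contra [z2,y1],
    .contra [z4,y3],.contra [z20,y9,z0,y4],.contra [z5,y2,z0,z0,z0,y1],.contra [z5,y1,z0,y1],.contra [z20,y7,z0,y4,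
    z0,y4],.contra [z20,y3,z0,z0,z0,y4],.contra [z20,z1,z0,y4],.contra [z20,y3,z0,y8],.contra [y10,z3,z0,z4,z0,z2],
    .contra [z10,y1,z0,y2,z0,y2],.contra [z10,z1,z0,z0,z0,y2],.contra [z10,y3,z0,z0,z0,y4],.contra [y20,z5,z0,z4,z0,
    z8],.contra [z10,z1,y4],.contra [y10,z1,z6],.contra [z5,z1,y1,z0,y1],.contra [z10,z1,z0,y4],.contra [y10,z1,z0,
    z6],.contra [y20,z1,z0,z8,z0,z4],.contra [z20,z3,z0,y4,z0,y4],.contra [y5,z1,z0,z2,z0,z2],.contra [z10,z3,z0,z0,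
    y4],.contra [z10,z3,z2,z2,z0,z2,y10]]))), .old [([z5,z0,z0,z0,y5,z0],y2),([z0,z5,z0,z0,z0,z0],z4),([z0,z0,z1,z0,
    z2,z0],z2),([z0,z0,z0,z5,z0,z0],z2)] (.z (.x (.geo true z5 k4 [(y2,z5),(z4,z0),(z10,y10),(z2,z0),(z0,z5),(z6,
    z0)] [(z1,[z1]),(z1,[z0,z1]),(z1,[z0,z0,z5]),(z1,[z0,z0,z0,z1]),(z1,[]),(z1,[y1,y1,y5,y1,z5])] (Int.ofNat
    (nat_lit 419430)) (Int.ofNat (nat_lit 1048576)) (.s (.s (.l k1) (.l k2)) (.l k1)) [⟨z3,z5,[[k0,k3],[k1,k5],[k2,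
    k4]],.child (.ref k52 k1 [(z1,[z1,z1]),(z1,[z0,z0,z1]),(z1,[y2,z0,z0,z5]),(z1,[z0,z0,z0,z0,z1]),(z1,
    [z1])])⟩]))), .old [([z1,z0,z0,z0,z0,y2],z0),([z0,z1,z0,z0,z0,z2],z2),([z0,z0,z1,z0,z0,y1],z0),([z0,z0,z0,z1,z0,
    y2],z0)] (.z (.x (.geo true z1 k5 [(z0,z2),(z2,y2),(z0,z1),(z0,z2),(z2,y4),(z0,z1)] [(z1,[z1]),(z1,[z0,z1]),(z1,
    [z0,z0,z1]),(z1,[z0,z0,z0,z1]),(z1,[y1,y1,y1,y1,z1]),(z1,[])] z0 (Int.ofNat (nat_lit 524288)) (.s (.s (.s (.s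
    (.l k2) (.l k1)) (.l k1)) (.s (.l k1) (.l k1))) (.s (.s (.l k1) (.l k1)) (.l k1))) [⟨z0,z1,[[k0,k1],[k2,k3],[k4,
    k5]],.bnd k0⟩])))], [.old [([z1,z0,z0,z0,z0,y6],y2),([z0,z1,z0,z0,z0,y4],y2),([z0,z0,z1,z0,z0,z3],z2),([z0,z0,
    z0,z1,z0,z2],z2)] (.z (.x (.geo true z1 k5 [(y2,z6),(y2,z4),(z2,y3),(z2,y2),(z4,y6),(z0,z1)] [(z1,[z1]),(z1,[z0,
    z1]),(z1,[z0,z0,z1]),(z1,[z0,z0,z0,z1]),(z1,[y1,y1,y1,y1,z1]),(z1,[])] (Int.ofNat (nat_lit 524288)) (Int.ofNat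
    (nat_lit 699051)) (.s (.l k1) (.s (.l k1) (.l k2))) [⟨z2,z3,[[k0,k5],[k1,k2],[k3,k4]],.bnd k0⟩]))), .old [([z1,
    z0,z0,z0,z0,y2],z0),([z0,z1,z0,z0,z0,y2],y1),([z0,z0,z1,z0,z0,z1],z1),([z0,z0,z0,z1,z0,z2],z2)] (.z (.x (.geo
    true z1 k5 [(z0,z2),(y1,z2),(z1,y1),(z2,y2),(z2,y2),(z0,z1)] [(z1,[z1]),(z1,[z0,z1]),(z1,[z0,z0,z1]),(z1,[z0,z0,
    z0,z1]),(z1,[y1,y1,y1,y1,z1]),(z1,[])] (Int.ofNat (nat_lit 524288)) (Int.ofNat (nat_lit 1048576)) (.s (.l k1)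
    (.s (.l k1) (.l k2))) [⟨z1,z1,[[k0,k2],[k1,k4],[k3,k5]],.bnd k0⟩])))]]

end Pool.Agent.Lib_MP_fa6e45
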