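import Pool.Agent.Lib_MP_fa6e45.CQR6_4_k0

/-!
MP_fa6e45_co, stage 9: certificates for the theorem T6 (generated by a program).
-/

namespace Pool.Agent.Lib_MP_fa6e45

/-- number of the pattern -/
noncomputable def tl6_4_0 : List ℕ := [nat_lit 14345409662220]

theorem sR6_4_0 : ∀ x ∈ tl6_4_0, NodeU 6 (decW 6 x) [] := by
  refine oneG_sound (by norm_num) (by norm_num) ttU6_ok (w := r6_37_w) (sy := r6_37_s) (st := r6_37_t) (D := r6_37_D)
    (Ns := rawGL dN r6_37_lf r6_37_n0) (by decide +kernel) ?_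
  exact r6_37_k0

end Pool.Agent.Lib_MP_fa6e45
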