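import Pool.Agent.Lib_MP_fa6e45.CQR1
import Pool.Agent.Lib_MP_fa6e45.CQR6T
import Pool.Agent.Lib_MP_fa6e45.CQR6_0
import Pool.Agent.Lib_MP_fa6e45.CQR6_3
import Pool.Agent.Lib_MP_fa6e45.CQR6_5

/-!
MP_fa6e45_co, stage 9: certificates for the theorem T6 (generated by a program).
-/

namespace Pool.Agent.Lib_MP_fa6e45

theorem g6_0_0 :
    (allF (chkM9 6 ttU6) (rawML sy6 lf6 xt6 rl6_0_0) && (tl6_0_0 == (rawML sy6 lf6 xt6 rl6_0_0).map fun C => encW C.wd)) = true := by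
  decide +kernel

theorem sR6_0_0 : ∀ x ∈ tl6_0_0, NodeU 6 (decW 6 x) [] :=
  tabM_sound (by norm_num) (by norm_num) ttU6_ok g6_0_0

theorem g6_3_0 :
    (allF (chkM9 6 ttU6) (rawML sy6 lf6 xt6 rl6_3_0) && (tl6_3_0 == (rawML sy6 lf6 xt6 rl6_3_0).map fun C => encW C.wd)) = true := by
  decide +kernel

theorem sR6_3_0 : ∀ x ∈ tl6_3_0, NodeU 6 (decW 6 x) [] :=
  tabM_sound (by norm_num) (by norm_num) ttU6_ok g6_3_0

theorem g6_5_0 :
    (allF (chkM9 6 ttU6) (rawML sy6 lf6 xt6 rl6_5_0) && (tl6_5_0 == (rawML sy6 lf6 xt6 rl6_5_0).map fun C => encW C.wd)) = true := by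
  decide +kernel

theorem sR6_5_0 : ∀ x ∈ tl6_5_0, NodeU 6 (decW 6 x) [] :=
  tabM_sound (by norm_num) (by norm_num) ttU6_ok g6_5_0

end Pool.Agent.Lib_MP_fa6e45
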