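import Pool.Agent.Lib_MP_fa6e45.CSTab
import Pool.Agent.Lib_MP_fa6e45.CQR3_t0
import Pool.Agent.Lib_MP_fa6e45.CQR4_t0
import Pool.Agent.Lib_MP_fa6e45.CQR5_0f
import Pool.Agent.Lib_MP_fa6e45.CQR5_t0
import Pool.Agent.Lib_MP_fa6e45.CQR5_t1
import Pool.Agent.Lib_MP_fa6e45.CQR6_1f
import Pool.Agent.Lib_MP_fa6e45.CQR6_2f
import Pool.Agent.Lib_MP_fa6e45.CQR6_4f
import Pool.Agent.Lib_MP_fa6e45.CQR6_t0
import Pool.Agent.Lib_MP_fa6e45.CQR6_t1
import Pool.Agent.Lib_MP_fa6e45.CQR6_t2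
import Pool.Agent.Lib_MP_fa6e45.CQR6_t3
import Pool.Agent.Lib_MP_fa6e45.CQR6_t4
import Pool.Agent.Lib_MP_fa6e45.CQR6_t5
import Pool.Agent.Lib_MP_fa6e45.CQR6_t6
import Pool.Agent.Lib_MP_fa6e45.CQR6_t7
import Pool.Agent.Lib_MP_fa6e45.CQR6_t8
import Pool.Agent.Lib_MP_fa6e45.CQR6_t9
import Pool.Agent.Lib_MP_fa6e45.CQR6_t10

/-!
MP_fa6e45_co, stage 9: all patterns of the tables are solved (certificates in the fast format).
-/

namespace Pool.Agent.Lib_MP_fa6e45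

theorem tabQ3_eq : (tabT3 == tl3_0_0) = true := by
  decide +kernel

/-- all patterns with `3` arcs are solved -/
theorem certQ3 : ∀ x ∈ tabT3, NodeU 3 (decW 3 x) [] := by
  rw [beq_iff_eq.1 tabQ3_eq]
  exact sR3_0_0

theorem tabQ4_eq : (tabT4 == tl4_0_0) = true := by
  decide +kernel

/-- all patterns with `4` arcs are solved -/
theorem certQ4 : ∀ x ∈ tabT4, NodeU 4 (decW 4 x) [] := by
  rw [beq_iff_eq.1 tabQ4_eq]
  exact sR4_0_0

theorem tabQ5_eq : (tabT5 == tl5_0_0 ++ (tl5_1_0 ++ (tl5_2_0 ++ (tl5_2_1 ++ (tl5_3_0))))) = true := by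
  decide +kernel

/-- all patterns with `5` arcs are solved -/
theorem certQ5 : ∀ x ∈ tabT5, NodeU 5 (decW 5 x) [] := by
  rw [beq_iff_eq.1 tabQ5_eq]
  refine tab_append sR5_0_0 ?_
  refine tab_append sR5_1_0 ?_
  refine tab_append sR5_2_0 ?_
  refine tab_append sR5_2_1 ?_
  exact sR5_3_0

theorem tabQ6_eq : (tabT6 == tl6_0_0 ++ (tl6_1_0 ++ (tl6_2_0 ++ (tl6_3_0 ++ (tl6_4_0 ++ (tl6_5_0 ++ (tl6_6_0 ++ (tl6_7_0 ++
    (tl6_8_0 ++ (tl6_9_0 ++ (tl6_10_0 ++ (tl6_11_0 ++ (tl6_12_0 ++ (tl6_13_0 ++ (tl6_14_0 ++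
    (tl6_15_0 ++ (tl6_16_0 ++ (tl6_17_0 ++ (tl6_18_0 ++ (tl6_19_0 ++ (tl6_20_0 ++ (tl6_21_0 ++
    (tl6_21_1 ++ (tl6_22_0 ++ (tl6_23_0))))))))))))))))))))))))) = true := by
  decide +kernel

/-- all patterns with `6` arcs are solved -/
theorem certQ6 : ∀ x ∈ tabT6, NodeU 6 (decW 6 x) [] := by
  rw [beq_iff_eq.1 tabQ6_eq]
  refine tab_append sR6_0_0 ?_
  refine tab_append sR6_1_0 ?_
  refine tab_append sR6_2_0 ?_
  refine tab_append sR6_3_0 ?_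
  refine tab_append sR6_4_0 ?_
  refine tab_append sR6_5_0 ?_
  refine tab_append sR6_6_0 ?_
  refine tab_append sR6_7_0 ?_
  refine tab_append sR6_8_0 ?_
  refine tab_append sR6_9_0 ?_
  refine tab_append sR6_10_0 ?_
  refine tab_append sR6_11_0 ?_
  refine tab_append sR6_12_0 ?_
  refine tab_append sR6_13_0 ?_
  refine tab_append sR6_14_0 ?_
  refine tab_append sR6_15_0 ?_
  refine tab_append sR6_16_0 ?_
  refine tab_append sR6_17_0 ?_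
  refine tab_append sR6_18_0 ?_
  refine tab_append sR6_19_0 ?_
  refine tab_append sR6_20_0 ?_
  refine tab_append sR6_21_0 ?_
  refine tab_append sR6_21_1 ?_
  refine tab_append sR6_22_0 ?_
  exact sR6_23_0

end Pool.Agent.Lib_MP_fa6e45
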