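import Pool.Agent.Lib_MP_fa6e45.CQ4

/-!
MP_fa6e45_co, stage 9: lists of certificates in the old format (`CertX`) and in the fast format (`CertQ`), for the
patterns of the theorem T6.
-/

open Set MeasureTheory Complex
open scoped Topology

namespace Pool.Agent.Lib_MP_fa6e45

/-- certificate, old or fast format -/
inductive CertM
  | x (C : CertX)
  | q (C : CertQ PN)

/-- the word of a certificate -/
noncomputable def CertM.wd : CertM → List ℕ
  | CertM.x C => C.w
  | CertM.q C => C.w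

/-- the letters of the word are invariant under the symmetry -/
noncomputable def symL (m : ℕ) (w : List ℕ) (g : Bool × ℕ × List ℕ) : Bool :=
  decide (g.2.1 < m) && ((List.range m).all fun x => g.2.2.getD x 0 == sgN m g.1 g.2.1 x) &&
    (List.range m).all fun j => nthF 0 w (siN m g.1 g.2.1 j) == nthF 0 w j

/-- `symT`, with a fast test before -/
noncomputable def symQ (m : ℕ) (w : List ℕ) (g : Bool × ℕ × List ℕ) : Bool :=
  bif symL m w g then true else symT m w g

theorem symQ_symT {m : ℕ} {w : List ℕ} {g : Bool × ℕ × List ℕ} (h : symQ m w g = true) :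
    symT m w g = true := by
  unfold symQ at h
  cases hL : symL m w g
  · rw [hL, cond_false] at h
    exact h
  · unfold symL at hL
    unfold symT
    simp only [Bool.and_eq_true, decide_eq_true_eq, List.all_eq_true, beq_iff_eq, List.mem_range] at hL ⊢
    obtain ⟨⟨h1, h2⟩, h3⟩ := hL
    refine ⟨⟨h1, h2⟩, fun j hj k hk => ?_⟩
    rw [h3 j hj, h3 k hk]
    exact ⟨rfl, rfl⟩

/-- `preQ`, with `symQ` -/
noncomputable def preR (m : ℕ) [NeZero m] (w : List ℕ) (sy : List (Bool × ℕ × List ℕ))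
    (st : List (ℕ × ℕ × ℕ × ℕ × ℕ × ℕ)) (D : List (List (List (List (ℕ × ℕ))))) (len : ℕ) : Bool :=
  (w == decW m (encW w)) && sy.all (symQ m w) && sy.all (fun g => g.2.2.length == m) && stQ m w st &&
    allF (allF (allF (allF (bndQ m)))) D && decide (0 < len) && (bl3 [] D (len - 1)).isEmpty

/-- `chkE`, with `symQ` -/
noncomputable def chkER (m : ℕ) [NeZero m] (tt : List TorT) (C : CertX) : Bool :=
  (C.w == decW m (encW C.w)) && C.sy.all (symQ m C.w) && decide (0 < C.Ns.length) &&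
    (blkF [] C.D (C.Ns.length - 1)).isEmpty && allI (chkX m C.w tt C.sy (blkF [] C.D)) C.Ns 0

/-- check of a certificate -/
noncomputable def chkM9 (m : ℕ) [NeZero m] (tt : List TorT) (C : CertM) : Bool :=
  match C with
    | CertM.x C => chkER m tt C
    | CertM.q C => preR m C.w C.sy C.st C.D C.Ns.length &&
        allI (chkQ (ckP m tt C.w C.sy) m C.sy C.st (bl3 [] C.D)) C.Ns 0

variable {m : ℕ} [NeZero m]

theorem preR_preQ {w : List ℕ} {sy : List (Bool × ℕ × List ℕ)} {st : List (ℕ × ℕ × ℕ × ℕ × ℕ × ℕ)}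
    {D : List (List (List (List (ℕ × ℕ))))} {len : ℕ} (h : preR m w sy st D len = true) :
    preQ m w sy st D len = true := by
  unfold preR at h
  unfold preQ
  simp only [Bool.and_eq_true] at h ⊢
  obtain ⟨⟨⟨⟨⟨⟨h1, h2⟩, h3⟩, h4⟩, h5⟩, h6⟩, h7⟩ := h
  refine ⟨⟨⟨⟨⟨⟨h1, ?_⟩, h3⟩, h4⟩, h5⟩, h6⟩, h7⟩
  rw [List.all_eq_true] at h2 ⊢
  exact fun g hg => symQ_symT (h2 g hg)

theorem chkER_chkE {tt : List TorT} {C : CertX} (h : chkER m tt C = true) : chkE m tt C = true := by
  unfold chkER at h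
  unfold chkE
  simp only [Bool.and_eq_true] at h ⊢
  obtain ⟨⟨⟨⟨h1, h2⟩, h3⟩, h4⟩, h5⟩ := h
  refine ⟨⟨⟨⟨h1, ?_⟩, h3⟩, h4⟩, h5⟩
  rw [List.all_eq_true] at h2 ⊢
  exact fun g hg => symQ_symT (h2 g hg)

private theorem preR_w {w : List ℕ} {sy : List (Bool × ℕ × List ℕ)} {st : List (ℕ × ℕ × ℕ × ℕ × ℕ × ℕ)}
    {D : List (List (List (List (ℕ × ℕ))))} {len : ℕ} (h : preR m w sy st D len = true) :
    w = decW m (encW w) := by
  unfold preR at h
  simp only [Bool.and_eq_true, beq_iff_eq] at h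
  exact h.1.1.1.1.1.1

theorem chkM9_sound (hm : 3 ≤ m) (hm' : m ≤ 8) {tt : List TorT} (htt : ∀ T ∈ tt, T.OK m) {C : CertM}
    (h : chkM9 m tt C = true) : C.wd = decW m (encW C.wd) ∧ NodeU m C.wd [] := by
  cases C with
  | x C => exact chkE_sound hm hm' htt (chkER_chkE h)
  | q C =>
    have h' : (preR m C.w C.sy C.st C.D C.Ns.length &&
        allI (chkQ (ckP m tt C.w C.sy) m C.sy C.st (bl3 [] C.D)) C.Ns 0) = true := h
    rw [Bool.and_eq_true] at h'
    refine ⟨preR_w h'.1, ?_⟩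
    intro n P S b M h1 h2
    exact nodeQ_of hm hm' htt (preR_preQ h'.1) h'.2 P S b M h1 h2

/-- the certificates of the list `L` solve the patterns with the numbers in `tab` -/
theorem tabM_sound (hm : 3 ≤ m) (hm' : m ≤ 8) {tt : List TorT} (htt : ∀ T ∈ tt, T.OK m) {L : List CertM}
    {tab : List ℕ} (h : (allF (chkM9 m tt) L && (tab == L.map fun C => encW C.wd)) = true) :
    ∀ x ∈ tab, NodeU m (decW m x) [] := by
  rw [Bool.and_eq_true, allF_eq, List.all_eq_true, beq_iff_eq] at h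
  intro x hx
  rw [h.2] at hx
  obtain ⟨C, hC, rfl⟩ := List.mem_map.1 hx
  have h1 := chkM9_sound hm hm' htt (h.1 C hC)
  rw [← h1.1]
  intro n P S b M h2 h3
  exact h1.2 P S b M h2 h3

/-- one pattern, the certificate is checked in parts -/
theorem oneM_sound (hm : 3 ≤ m) (hm' : m ≤ 8) {tt : List TorT} (htt : ∀ T ∈ tt, T.OK m) {w : List ℕ}
    {sy : List (Bool × ℕ × List ℕ)} {st : List (ℕ × ℕ × ℕ × ℕ × ℕ × ℕ)}
    {D : List (List (List (List (ℕ × ℕ))))} {Ns : List (QN PN)} {t : ℕ}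
    (h1 : (preR m w sy st D Ns.length && (encW w == t)) = true)
    (h2 : allI (chkQ (ckP m tt w sy) m sy st (bl3 [] D)) Ns 0 = true) :
    ∀ x ∈ [t], NodeU m (decW m x) [] := by
  rw [Bool.and_eq_true, beq_iff_eq] at h1
  intro x hx
  rw [List.mem_singleton] at hx
  rw [hx, ← h1.2, ← preR_w h1.1]
  intro n P S b M h3 h4
  exact nodeQ_of hm hm' htt (preR_preQ h1.1) h2 P S b M h3 h4

theorem tab_append {p : ℕ → Prop} {l l' : List ℕ} (h1 : ∀ x ∈ l, p x) (h2 : ∀ x ∈ l', p x) :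
    ∀ x ∈ l ++ l', p x := by
  intro x hx
  rcases List.mem_append.1 hx with h | h
  · exact h1 x h
  · exact h2 x h

end Pool.Agent.Lib_MP_fa6e45
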