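import Pool.Agent.Lib_MP_fa6e45.CS3a
import Pool.Agent.Lib_MP_fa6e45.CS3b
import Pool.Agent.Lib_MP_fa6e45.CS1

/-!
PIECE CS3 (about 120 lines): `SitT.dih` from `arcs_dih` (CS3a) and `CombG.dih` (CS3b; transport along the equality of the
relations and angles). The offsets: for `r = false`: `σ' j = σ (j - s)`, `ε' j = ε (j - s)`; for `r = true`:
`σ' j = - ε (s - 1 - j)`, `ε' j = - σ (s - 1 - j)`. `sitT_of`: `arcs_dih`, `CombG.dih`, and `Arcs.chord_all` (CS1) for
the new arcs.
-/

open Set MeasureTheory Complex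
open scoped Topology

namespace Pool.Agent.Lib_MP_fa6e45

open Pool.Agent.Lib_PL (cr InSector Poly)

variable {n : ℕ} {m : ℕ} [NeZero m]

private theorem CS3_comb {P P' : Polygon n} {S : Arcs P m} {S' : Arcs P' m} {ι : Type} {r : Bool}
    {s : ZMod m} (K : CombG m (fun j => P.ang (S.κ j)) S.Rel ι)
    (h2 : ∀ j, P'.ang (S'.κ j) = P.ang (S.κ (siC r s j)))
    (h3 : ∀ j k c, S'.Rel j k c ↔ S.Rel (siS r s j) (siS r s k) c) :
    Nonempty (CombG m (fun j => P'.ang (S'.κ j)) S'.Rel ι) := by
  have h := K.dih r s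
  have e1 : (fun j => P'.ang (S'.κ j)) = fun j => P.ang (S.κ (siC r s j)) := funext h2
  have e2 : S'.Rel = fun j k c => S.Rel (siS r s j) (siS r s k) c :=
    funext fun j => funext fun k => funext fun c => propext (h3 j k c)
  rw [e1, e2]
  exact h

theorem SitT.dih {w w' : List ℕ} {P : Polygon n} {S : Arcs P m} {b : ZMod m → ℝ}
    (M : SitT w P S b) (r : Bool) (s : ZMod m)
    (hw : ∀ j k c, relT w' j k c = relT w (siS r s j) (siS r s k) c) :
    ∃ (P' : Polygon n) (S' : Arcs P' m), SitT w' P' S' (fun j => b (siC r s j)) ∧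
      (∀ j, P'.ang (S'.κ j) = P.ang (S.κ (siC r s j))) ∧ (HasPeriodic P' → HasPeriodic P) := by
  obtain ⟨ι, ⟨K⟩⟩ := M.comb
  have hm : 2 ≤ m := by
    have := K.three_le
    omega
  obtain ⟨P', S', h1, h2, h3, h4, h5⟩ := arcs_dih P S hm r s
  refine ⟨P', S', ?_, h2, h5⟩
  obtain ⟨σ, ε, hp, hn, hb⟩ := M.off
  have hp' : ∀ j k, S'.Plus j k → S.Plus (siS r s j) (siS r s k) := fun j k h => by
    simpa [Arcs.Rel] using (h3 j k true).1 (by simpa [Arcs.Rel] using h)
  have hn' : ∀ j k, S'.Minus j k → S.Minus (siS r s j) (siS r s k) := fun j k h => by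
    simpa [Arcs.Rel] using (h3 j k false).1 (by simpa [Arcs.Rel] using h)
  refine
    { ccw := h1 M.ccw
      rel := fun j k c => by rw [h3, M.rel, hw]
      chord := h4 b M.chord
      off := ?_
      comb := ⟨ι, CS3_comb K h2 h3⟩ }
  cases r
  · refine ⟨fun j => σ (siS false s j), fun j => ε (siS false s j), fun j k h => hp _ _ (hp' j k h),
      fun j k h => hn _ _ (hn' j k h), fun j => ?_⟩
    rw [hb, h2]
    have e1 : siC false s j = siS false s j := by simp [siC, siS]
    have e2 : siS false s (j - 1) = siS false s j - 1 := by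
      simp only [siS, Bool.false_eq_true, if_false]
      ring
    change _ = _ + σ (siS false s j) - ε (siS false s (j - 1))
    rw [e1, e2]
  · refine ⟨fun j => -ε (siS true s j), fun j => -σ (siS true s j), fun j k h => ?_,
      fun j k h => ?_, fun j => ?_⟩
    · obtain ⟨q1, q2⟩ := hp _ _ (hp' j k h)
      exact ⟨by simp only; rw [q2], by simp only; rw [q1]⟩
    · obtain ⟨q1, q2⟩ := hn _ _ (hn' j k h)
      exact ⟨by simp only; rw [q2], by simp only; rw [q1]⟩
    · rw [hb, h2]
      have e1 : siS true s (j - 1) = siC true s j := by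
        simp only [siC, siS, if_true]
        ring
      have e2 : siC true s j - 1 = siS true s j := by
        simp only [siC, siS, if_true]
        ring
      change _ = _ + -ε (siS true s j) - -σ (siS true s (j - 1))
      rw [e1, e2]
      ring

theorem sitT_of {w : List ℕ} {P : Polygon n} {S : Arcs P m} {ι : Type} (hc : P.CCW)
    (K : CombG m (fun j => P.ang (S.κ j)) S.Rel ι) (r : Bool) (s : ZMod m)
    (hw : ∀ j k c, S.Rel (siS r s j) (siS r s k) c ↔ relT w j k c = true) :
    ∃ (P' : Polygon n) (S' : Arcs P' m) (b : ZMod m → ℝ), SitT w P' S' b ∧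
      (HasPeriodic P' → HasPeriodic P) := by
  have hm : 2 ≤ m := by
    have := K.three_le
    omega
  obtain ⟨P', S', h1, h2, h3, h4, h5⟩ := arcs_dih P S hm r s
  obtain ⟨σ, ε, hp, hn, hb⟩ := S'.chord_all hm
  exact ⟨P', S', _,
    { ccw := h1 hc
      rel := fun j k c => by rw [h3, hw]
      chord := hb
      off := ⟨σ, ε, hp, hn, fun j => rfl⟩
      comb := ⟨ι, CS3_comb K h2 h3⟩ }, h5⟩

end Pool.Agent.Lib_MP_fa6e45
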