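import Pool.Agent.Lib_MP_fa6e45.CS0
import Pool.Agent.Lib_MP_fa6e45.H3
import Pool.Agent.Lib_MP_fa6e45.X1b

/-!
PIECE CS3a (about 250 lines): rotations and reflections of the numbering of the arcs.
`r = false`: `P' = P`, `S' j = S (j - s)` (`S.shift (-s)`). `r = true`: `P' = P.dih true 0` (mirror image, vertex `i` is
`conj (P.vertex (-i))`; `dih_len`, `dih_ang`, `dih_ccw`, `dih_periodic` in H2.lean), `κ' j = - κ (s - j)`,
`w' j = w (s - 1 - j)`: arc `j` of `P'` is the mirror image of arc `s - 1 - j` of `P`, traversed backwards (side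
`κ' j + t` of `P'` is the mirror image of side `κ (s - 1 - j) + (w - 1 - t)` of `P`, corner `κ' j + t` of `P'` is corner
`κ (s - 1 - j) + (w - t)` of `P`). `ChordAng` for `r = true`: `S'.ch j = - conj (S.ch (s - 1 - j))`; corner `j` of `S'` is
corner `s - j` of `S`; conjugate and invert the relation of `S.ChordAng b` at `s - j`.
-/

open Set MeasureTheory Complex
open scoped Topology

namespace Pool.Agent.Lib_MP_fa6e45

open Pool.Agent.Lib_PL (cr InSector Poly)

variable {n : ℕ} {m : ℕ} [NeZero m]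

private theorem CS3a_shift {P : Polygon n} {S : Arcs P m} {b : ZMod m → ℝ} (hb : S.ChordAng b)
    (p : ZMod m) : (S.shift p).ChordAng fun i => b (i + p) := by
  intro j
  have e : ∀ j, (S.shift p).ch j = S.ch (j + p) := by
    intro j
    change S.V (j + 1 + p) - S.V (j + p) = S.V (j + p + 1) - S.V (j + p)
    rw [add_right_comm]
  rw [e, e, show j - 1 + p = j + p - 1 by ring]
  exact hb (j + p)

/-- the arcs of the mirror image -/
private noncomputable def CS3a_S (P : Polygon n) (S : Arcs P m) (s : ZMod m) :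
    Arcs (P.dih true 0) m where
  κ := fun j => -S.κ (s - j)
  w := fun j => S.w (s - 1 - j)
  w_pos := fun j => S.w_pos (s - 1 - j)
  step := fun j => by
    have h := S.step (s - 1 - j)
    rw [show s - 1 - j + 1 = s - j by ring] at h
    rw [show s - (j + 1) = s - 1 - j by ring, h]
    ring
  total := (Equiv.sum_comp (Equiv.subLeft (s - 1)) S.w).trans S.total

private theorem CS3a_len [NeZero n] (P : Polygon n) (S : Arcs P m) (s : ZMod m) {j : ZMod m}
    {t u : ℕ} (h : t + u + 1 = S.w (s - 1 - j)) :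
    (P.dih true 0).len ((CS3a_S P S s).κ j + (t : ZMod n)) =
      P.len (S.κ (s - 1 - j) + (u : ZMod n)) := by
  have h1 := P.dih_len true 0 (S.κ (s - 1 - j) + (u : ZMod n))
  rw [← h1]
  congr 1
  have h2 := S.step (s - 1 - j)
  rw [show s - 1 - j + 1 = s - j by ring, ← h] at h2
  push_cast at h2
  show -S.κ (s - j) + (t : ZMod n) = 0 - 1 - (S.κ (s - 1 - j) + (u : ZMod n))
  rw [h2]
  ring

private theorem CS3a_ang [NeZero n] (P : Polygon n) (S : Arcs P m) (s : ZMod m) {j : ZMod m}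
    {t u : ℕ} (h : t + u = S.w (s - 1 - j)) :
    (P.dih true 0).ang ((CS3a_S P S s).κ j + (t : ZMod n)) =
      P.ang (S.κ (s - 1 - j) + (u : ZMod n)) := by
  have h1 := P.dih_ang true 0 (S.κ (s - 1 - j) + (u : ZMod n))
  rw [← h1]
  congr 1
  have h2 := S.step (s - 1 - j)
  rw [show s - 1 - j + 1 = s - j by ring, ← h] at h2
  push_cast at h2
  show -S.κ (s - j) + (t : ZMod n) = 0 - (S.κ (s - 1 - j) + (u : ZMod n))
  rw [h2]
  ring

private theorem CS3a_plus [NeZero n] (P : Polygon n) (S : Arcs P m) (s : ZMod m) (j k : ZMod m) :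
    (CS3a_S P S s).Plus j k ↔ S.Plus (s - 1 - j) (s - 1 - k) := by
  constructor
  · rintro ⟨h1, h2, h3⟩
    have h1' : S.w (s - 1 - j) = S.w (s - 1 - k) := h1
    refine ⟨h1', fun t u h => ?_, fun t u ht hu h => ?_⟩
    · have h4 := h2 u t (show u + t + 1 = S.w (s - 1 - j) by omega)
      rw [CS3a_len P S s (show u + t + 1 = S.w (s - 1 - j) by omega),
        CS3a_len P S s (show t + u + 1 = S.w (s - 1 - k) by omega)] at h4
      exact h4
    · have h4 := h3 u t hu ht (show u + t = S.w (s - 1 - j) by omega)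
      rw [CS3a_ang P S s (show u + t = S.w (s - 1 - j) by omega),
        CS3a_ang P S s (show t + u = S.w (s - 1 - k) by omega)] at h4
      exact h4
  · rintro ⟨h1, h2, h3⟩
    refine ⟨h1, fun t u h => ?_, fun t u ht hu h => ?_⟩
    · have h' : t + u + 1 = S.w (s - 1 - j) := h
      rw [CS3a_len P S s (show t + u + 1 = S.w (s - 1 - j) by omega),
        CS3a_len P S s (show u + t + 1 = S.w (s - 1 - k) by omega)]
      exact h2 u t (by omega)
    · have h' : t + u = S.w (s - 1 - j) := h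
      rw [CS3a_ang P S s (show t + u = S.w (s - 1 - j) by omega),
        CS3a_ang P S s (show u + t = S.w (s - 1 - k) by omega)]
      exact h3 u t hu ht (by omega)

private theorem CS3a_minus [NeZero n] (P : Polygon n) (S : Arcs P m) (s : ZMod m) (j k : ZMod m) :
    (CS3a_S P S s).Minus j k ↔ S.Minus (s - 1 - j) (s - 1 - k) := by
  constructor
  · rintro ⟨h1, h2, h3⟩
    have h1' : S.w (s - 1 - j) = S.w (s - 1 - k) := h1
    refine ⟨h1', fun t h => ?_, fun t ht h => ?_⟩
    · obtain ⟨u, hu⟩ : ∃ u, u + t + 1 = S.w (s - 1 - j) := ⟨S.w (s - 1 - j) - 1 - t, by omega⟩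
      have h4 := h2 u (show u < S.w (s - 1 - j) by omega)
      rw [CS3a_len P S s (show u + t + 1 = S.w (s - 1 - j) by omega),
        CS3a_len P S s (show u + t + 1 = S.w (s - 1 - k) by omega)] at h4
      exact h4
    · obtain ⟨u, hu⟩ : ∃ u, u + t = S.w (s - 1 - j) := ⟨S.w (s - 1 - j) - t, by omega⟩
      have h4 := h3 u (by omega) (show u < S.w (s - 1 - j) by omega)
      rw [CS3a_ang P S s (show u + t = S.w (s - 1 - j) by omega),
        CS3a_ang P S s (show u + t = S.w (s - 1 - k) by omega)] at h4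
      exact h4
  · rintro ⟨h1, h2, h3⟩
    refine ⟨h1, fun t h => ?_, fun t ht h => ?_⟩
    · have h' : t < S.w (s - 1 - j) := h
      obtain ⟨u, hu⟩ : ∃ u, t + u + 1 = S.w (s - 1 - j) := ⟨S.w (s - 1 - j) - 1 - t, by omega⟩
      rw [CS3a_len P S s (show t + u + 1 = S.w (s - 1 - j) by omega),
        CS3a_len P S s (show t + u + 1 = S.w (s - 1 - k) by omega)]
      exact h2 u (by omega)
    · have h' : t < S.w (s - 1 - j) := h
      obtain ⟨u, hu⟩ : ∃ u, t + u = S.w (s - 1 - j) := ⟨S.w (s - 1 - j) - t, by omega⟩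
      rw [CS3a_ang P S s (show t + u = S.w (s - 1 - j) by omega),
        CS3a_ang P S s (show t + u = S.w (s - 1 - k) by omega)]
      exact h3 u (by omega) (by omega)

private theorem CS3a_V (P : Polygon n) (S : Arcs P m) (s j : ZMod m) :
    (CS3a_S P S s).V j = (starRingEnd ℂ) (S.V (s - j)) := by
  show (starRingEnd ℂ) (P.vertex (0 - -S.κ (s - j))) = (starRingEnd ℂ) (P.vertex (S.κ (s - j)))
  rw [zero_sub, neg_neg]

private theorem CS3a_ch (P : Polygon n) (S : Arcs P m) (s j : ZMod m) :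
    (CS3a_S P S s).ch j = -(starRingEnd ℂ) (S.ch (s - 1 - j)) := by
  unfold Arcs.ch
  rw [CS3a_V, CS3a_V, show s - (j + 1) = s - 1 - j by ring, show s - 1 - j + 1 = s - j by ring,
    map_sub]
  ring

private theorem CS3a_ne (P : Polygon n) (S : Arcs P m) (hm : 2 ≤ m) (j : ZMod m) : S.ch j ≠ 0 := by
  intro h
  have h1 : P.vertex (S.κ (j + 1)) = P.vertex (S.κ j) := sub_eq_zero.1 h
  have h2 := P.injective h1
  have h3 := (S.index (S.κ j)).unique
    (y₁ := (j + 1, 0)) (y₂ := (j, 0)) ⟨S.w_pos (j + 1), by simpa using h2⟩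
    ⟨S.w_pos j, by simp⟩
  have h4 : j + 1 = j := congrArg Prod.fst h3
  have h5 : (1 : ZMod m) = 0 := by
    have := congrArg (fun x => x - j) h4
    simpa using this
  have : Fact (1 < m) := ⟨by omega⟩
  exact one_ne_zero h5

private theorem CS3a_chord (P : Polygon n) (S : Arcs P m) (hm : 2 ≤ m) (s : ZMod m)
    {b : ZMod m → ℝ} (hb : S.ChordAng b) :
    (CS3a_S P S s).ChordAng fun j => b (s - j) := by
  intro j
  have h := hb (s - j)
  rw [CS3a_ch, CS3a_ch, show s - 1 - (j - 1) = s - j by ring]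
  rw [show s - j - 1 = s - 1 - j by ring] at h
  have hA := CS3a_ne P S hm (s - 1 - j)
  have hB := CS3a_ne P S hm (s - j)
  obtain ⟨A, hA'⟩ : ∃ A, A = S.ch (s - 1 - j) := ⟨_, rfl⟩
  obtain ⟨B, hB'⟩ : ∃ B, B = S.ch (s - j) := ⟨_, rfl⟩
  rw [← hA', ← hB'] at h ⊢
  rw [← hA'] at hA
  rw [← hB'] at hB
  have hA1 : ((‖A‖ : ℝ) : ℂ) ≠ 0 := by exact_mod_cast norm_ne_zero_iff.2 hA
  have hB1 : ((‖B‖ : ℝ) : ℂ) ≠ 0 := by exact_mod_cast norm_ne_zero_iff.2 hB
  have hn : ∀ z : ℂ, ‖-(starRingEnd ℂ) z‖ = ‖z‖ := by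
    intro z
    rw [norm_neg, Complex.norm_conj]
  rw [hn, hn]
  obtain ⟨θ, hθ⟩ : ∃ θ : ℝ, θ = Real.pi * (1 - b (s - j)) := ⟨_, rfl⟩
  rw [← hθ] at h ⊢
  have h2 := congrArg (starRingEnd ℂ) h
  rw [map_mul, map_mul, Complex.conj_ofReal, ← Complex.exp_conj, map_mul, Complex.conj_ofReal,
    Complex.conj_I] at h2
  have hE : Complex.exp ((θ : ℂ) * -Complex.I) * Complex.exp ((θ : ℂ) * Complex.I) = 1 := by
    rw [← Complex.exp_add]
    simp
  rw [h2]
  push_cast
  have e : -((starRingEnd ℂ) A * (((‖B‖ : ℝ) : ℂ) / ((‖A‖ : ℝ) : ℂ)) *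
      Complex.exp ((θ : ℂ) * -Complex.I)) * (((‖A‖ : ℝ) : ℂ) / ((‖B‖ : ℝ) : ℂ)) *
      Complex.exp ((θ : ℂ) * Complex.I) = -((starRingEnd ℂ) A *
      ((((‖B‖ : ℝ) : ℂ) / ((‖A‖ : ℝ) : ℂ)) * (((‖A‖ : ℝ) : ℂ) / ((‖B‖ : ℝ) : ℂ))) *
      (Complex.exp ((θ : ℂ) * -Complex.I) * Complex.exp ((θ : ℂ) * Complex.I))) := by ring
  have e2 : (((‖B‖ : ℝ) : ℂ) / ((‖A‖ : ℝ) : ℂ)) * (((‖A‖ : ℝ) : ℂ) / ((‖B‖ : ℝ) : ℂ)) = 1 := by
    field_simp
  rw [e, hE, e2, mul_one, mul_one]

theorem arcs_dih (P : Polygon n) (S : Arcs P m) (hm : 2 ≤ m) (r : Bool) (s : ZMod m) :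
    ∃ (P' : Polygon n) (S' : Arcs P' m), (P.CCW → P'.CCW) ∧
      (∀ j, P'.ang (S'.κ j) = P.ang (S.κ (siC r s j))) ∧
      (∀ j k c, S'.Rel j k c ↔ S.Rel (siS r s j) (siS r s k) c) ∧
      (∀ b, S.ChordAng b → S'.ChordAng fun j => b (siC r s j)) ∧
      (HasPeriodic P' → HasPeriodic P) := by
  have : NeZero n := ⟨by have := P.three_le; omega⟩
  cases r with
  | false =>
    have e : ∀ j, siC false s j = j + -s := by
      intro j
      show j - s = j + -s
      ring
    have e' : ∀ j, siS false s j = j + -s := by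
      intro j
      show j - s = j + -s
      ring
    refine ⟨P, S.shift (-s), id, fun j => ?_, fun j k c => ?_, fun b hb => ?_, id⟩
    · rw [e]
      rfl
    · rw [e', e']
      exact Iff.rfl
    · have h := CS3a_shift hb (-s)
      have e2 : (fun j => b (siC false s j)) = fun i => b (i + -s) := by
        funext j
        rw [e]
      rw [e2]
      exact h
  | true =>
    refine ⟨P.dih true 0, CS3a_S P S s, P.dih_ccw true 0, fun j => ?_, fun j k c => ?_,
      fun b hb => CS3a_chord P S hm s hb, P.dih_periodic true 0⟩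
    · have h := P.dih_ang true 0 (S.κ (s - j))
      have e : sgC true 0 (S.κ (s - j)) = (CS3a_S P S s).κ j := by
        show 0 - S.κ (s - j) = -S.κ (s - j)
        ring
      rw [e] at h
      exact h
    · cases c with
      | true => exact CS3a_plus P S s j k
      | false => exact CS3a_minus P S s j k

end Pool.Agent.Lib_MP_fa6e45
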