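import Pool.Agent.Lib_MP_fa6e45.CS2
import Pool.Agent.Lib_MP_fa6e45.CS2a
import Pool.Agent.Lib_MP_fa6e45.CS3
import Pool.Agent.Lib_MP_fa6e45.CS4
import Pool.Agent.Lib_MP_fa6e45.CS5
import Pool.Agent.Lib_MP_fa6e45.CS6
import Pool.Agent.Lib_MP_fa6e45.H5

/-!
PIECE CS7 (about 250 lines): soundness of the nodes and of certificates, from the pieces CS2 ... CS6 (their statements are
fixed, they may still be `sorry`). Compare `chkN_sound`, `cert_sound`, `H7_ch` in H7.lean, `contra_S`, `derG_sound` (H7),
`derM_sound`, `nuOK_iff`, `appH` (H5).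
-/

open Set MeasureTheory Complex
open scoped Topology

namespace Pool.Agent.Lib_MP_fa6e45

open Pool.Agent.Lib_PL (cr InSector Poly)

variable {n : ℕ} {m : ℕ} [NeZero m]

namespace SitT

variable {w : List ℕ} {P : Polygon n} {S : Arcs P m} {b : ZMod m → ℝ}

theorem wg (M : SitT w P S b) : WG (fun j => P.ang (S.κ j) / Real.pi) b S.Rel := by
  obtain ⟨σ, ε, hp, hm, hb⟩ := M.off
  obtain ⟨ι, ⟨K⟩⟩ := M.comb
  have hp' : ∀ j k, S.Rel j k true → σ j = ε k ∧ ε j = σ k := fun j k h =>
    hp j k (by simpa [Arcs.Rel] using h)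
  have hm' : ∀ j k, S.Rel j k false → σ j = -σ k ∧ ε j = -ε k := fun j k h =>
    hm j k (by simpa [Arcs.Rel] using h)
  have h : WG (fun j => P.ang (S.κ j) / Real.pi)
      (fun j => P.ang (S.κ j) / Real.pi + σ j - ε (j - 1)) S.Rel := by
    first
      | exact K.gapW σ ε hp' hm'
      | exact K.gap σ ε hp' hm'
  have hb' : b = fun j => P.ang (S.κ j) / Real.pi + σ j - ε (j - 1) := funext hb
  rw [hb']
  exact h

theorem a_sum (M : SitT w P S b) : ∑ j, P.ang (S.κ j) / Real.pi = (m : ℝ) - 2 := by
  obtain ⟨ι, ⟨K⟩⟩ := M.comb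
  rw [← Finset.sum_div, K.a_sum]
  field_simp

theorem b_sum (M : SitT w P S b) : ∑ j, b j = (m : ℝ) - 2 := by
  obtain ⟨σ, ε, hp, hm, hb⟩ := M.off
  obtain ⟨ι, ⟨K⟩⟩ := M.comb
  have h := K.off_sum σ ε (fun j k h => hp j k (by simpa [Arcs.Rel] using h))
    (fun j k h => hm j k (by simpa [Arcs.Rel] using h))
  rw [Finset.sum_sub_distrib] at h
  have h1 : ∑ j : ZMod m, ε (j - 1) = ∑ j, ε j := Equiv.sum_comp (Equiv.subRight (1 : ZMod m)) ε
  rw [Finset.sum_congr rfl (fun j _ => hb j), Finset.sum_sub_distrib, Finset.sum_add_distrib,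
    M.a_sum, h1]
  linarith

end SitT

/-! ### auxiliary facts -/

private theorem CS7_mdl {w : List ℕ} {P : Polygon n} {S : Arcs P m} {b : ZMod m → ℝ}
    (M : SitT w P S b) : MdlB (fun j : ZMod m => j.val)
    (fun j => P.ang (S.κ j) / Real.pi) (fun j => P.ang (S.κ j) / Real.pi)
    (fun j k b => j = k ∧ b = true) where
  a_pos := fun i => div_pos (P.ang_pos _) Real.pi_pos
  a_lt := fun i => by
    rw [div_lt_iff₀ Real.pi_pos]
    exact P.ang_lt _
  a_ne := fun i h => by
    rw [div_eq_one_iff_eq Real.pi_ne_zero] at h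
    exact P.ang_ne _ h
  a_sum := M.a_sum
  b_sum := M.a_sum
  cls_eq := fun j k b h => by rw [h.1]
  single := fun j _ => Or.inr ⟨⟨rfl, rfl⟩, fun k b h => ⟨h.1.symm, h.2⟩⟩
  twins := fun j k h h' => absurd (ZMod.val_injective m h') h
  three := fun i j k h _ _ h' => h (ZMod.val_injective m h'.1)

omit [NeZero m] in
private theorem CS7_derG {σ σ' : ℕ → ℕ} (hσ : ∀ x < m, σ x = σ' x) {eqs : List Eqn}
    {Es : List Eqn} {cs : List (ℤ × List ℤ)} (h : derG m eqs σ Es cs = true) :
    derG m eqs σ' Es cs = true := by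
  induction Es generalizing cs with
  | nil => cases cs with
    | nil => rfl
    | cons c cs =>
      unfold derG at h
      exact absurd h (by simp)
  | cons E Es ih => cases cs with
    | nil =>
      unfold derG at h
      exact absurd h (by simp)
    | cons c cs =>
      unfold derG at h ⊢
      rw [Bool.and_eq_true, Bool.and_eq_true, Bool.and_eq_true] at h ⊢
      obtain ⟨⟨⟨h1, h2⟩, h3⟩, h4⟩ := h
      refine ⟨⟨⟨h1, ?_⟩, h3⟩, ih h4⟩
      rw [List.all_eq_true] at h2 ⊢
      intro x hx
      rw [← hσ x (List.mem_range.1 hx)]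
      exact h2 x hx

private theorem CS7_siC (r : Bool) (s i : ZMod m) : siC r s (sgP r s i) = i := by
  rw [show sgP r s i = sgC r s i from rfl]
  unfold siC sgC
  cases r <;> simp

private theorem CS7_pred (i : ZMod m) : (i.val + (m - 1)) % m = (i - 1).val := by
  have h : i - 1 = ((i.val + (m - 1) : ℕ) : ZMod m) := by
    have hm : 1 ≤ m := Nat.one_le_iff_ne_zero.2 (NeZero.ne m)
    push_cast [Nat.cast_sub hm]
    rw [ZMod.natCast_zmod_val, CharP.cast_eq_zero]
    ring
  rw [h, ZMod.val_natCast]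

private theorem CS7_siN_lt (r : Bool) (s x : ℕ) : siN m r s x < m := by
  have hm : 0 < m := Nat.pos_of_ne_zero (NeZero.ne m)
  unfold siN
  split_ifs <;> exact Nat.mod_lt _ hm

/-- equations after a symmetry -/
private theorem CS7_tr {a : ZMod m → ℝ} {r : Bool} {s : ZMod m} {eqs Es : List Eqn}
    {cs : List (ℤ × List ℤ)} {σ : ℕ → ℕ} (hσ : ∀ x < m, σ x = (sgC r s (x : ZMod m)).val)
    (h : ∀ E ∈ eqs, Eqn.Holds E a) (hd : derG m eqs σ Es cs = true) :
    ∀ E ∈ Es, Eqn.Holds E fun j => a (siC r s j) := by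
  refine derG_sound (a := a) (σ := sgP r s) (fun i => ?_) h (CS7_derG hσ hd)
  show a (siC r s (sgP r s i)) = a i
  rw [CS7_siC]

private theorem CS7_ch {w : List ℕ} {P : Polygon n} {S : Arcs P m} {b : ZMod m → ℝ}
    (M : SitT w P S b) {sy : List (Bool × ℕ × List ℕ)} (hsy : ∀ g ∈ sy, symT m w g = true)
    {D : ℕ → List Eqn} {i : ℕ} (hD : ∀ j < i, NodeT m w (D j)) {eqs : List Eqn}
    (ha : ∀ E ∈ eqs, Eqn.Holds E fun j => P.ang (S.κ j) / Real.pi)
    (hb : ∀ E ∈ eqs, Eqn.Holds E b) {cvs : List (List ℕ)}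
    {ch : List HCf} (hc : chF m sy D i eqs cvs ch = true) {cv : List ℕ} (hcv : cv ∈ cvs)
    (hha : Eqn.Holds (cv.map fun x => (x : ℤ), 2) fun j => P.ang (S.κ j) / Real.pi)
    (hhb : Eqn.Holds (cv.map fun x => (x : ℤ), 2) b) :
    HasPeriodic P := by
  induction cvs generalizing ch with
  | nil => exact absurd hcv List.not_mem_nil
  | cons cv0 cvs ih =>
    cases ch with
    | nil =>
      unfold chF at hc
      exact absurd hc (by simp)
    | cons c ch =>
      unfold chF at hc
      rw [Bool.and_eq_true] at hc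
      rcases List.mem_cons.1 hcv with rfl | hcv
      · have heqa : ∀ E ∈ ((cv.map fun x => (x : ℤ), 2) : Eqn) :: eqs,
            Eqn.Holds E fun j => P.ang (S.κ j) / Real.pi := by
          intro E hE
          rcases List.mem_cons.1 hE with rfl | hE
          · exact hha
          · exact ha E hE
        have heqb : ∀ E ∈ ((cv.map fun x => (x : ℤ), 2) : Eqn) :: eqs, Eqn.Holds E b := by
          intro E hE
          rcases List.mem_cons.1 hE with rfl | hE
          · exact hhb
          · exact hb E hE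
        have h1 := hc.1
        cases c with
        | contra ls => exact (contra_B (CS7_mdl M) heqa h1).elim
        | ref idx g ds =>
          simp only [Bool.and_eq_true] at h1
          obtain ⟨⟨h2, h3⟩, h4⟩ := h1
          have h2' : idx < i := Nat.le_of_ble_eq_true h2
          have h3' : g < sy.length := Nat.le_of_ble_eq_true h3
          have h5 := symT_sound (m := m) (hsy _ (List.getElem_mem h3'))
          rw [nthF_eq, List.getD_eq_getElem _ _ h3'] at h4
          set e := sy[g] with he
          obtain ⟨h6, h7⟩ := h5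
          obtain ⟨P', S', M', hang, hper⟩ := M.dih e.1 (e.2.1 : ZMod m) h6
          have hσ : ∀ x < m, nthF 0 e.2.2 x = (sgC e.1 (e.2.1 : ZMod m) (x : ZMod m)).val := by
            intro x hx
            rw [nthF_eq]
            exact h7 x hx
          refine hper (hD idx h2' P' S' _ M' ?_ (CS7_tr hσ heqb h4))
          have h8 := CS7_tr hσ heqa h4
          have e1 : (fun j => P'.ang (S'.κ j) / Real.pi) =
              fun j => P.ang (S.κ (siC e.1 (e.2.1 : ZMod m) j)) / Real.pi := by
            funext j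
            rw [hang]
          rw [e1]
          exact h8
      · exact ih hc.2 hcv

theorem chkT_sound (hm : 3 ≤ m) (hm' : m ≤ 6) {w : List ℕ} {tt : List TorT}
    (htt : ∀ T ∈ tt, T.OK m) {sy : List (Bool × ℕ × List ℕ)} (hsy : ∀ g ∈ sy, symT m w g = true)
    {D : ℕ → List Eqn} {i : ℕ} (hD : ∀ j < i, NodeT m w (D j)) {N : TN}
    (h : chkT m w tt sy D i N = true) : NodeT m w (D i) := by
  intro n P S b M hEa hEb
  have hrel : ∀ j k c, relT w j k c = true → S.Rel j k c := fun j k c => (M.rel j k c).2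
  have hA : ∀ E ∈ D i ++ eqs0 m [], Eqn.Holds E fun j => P.ang (S.κ j) / Real.pi := by
    intro E hE
    rcases List.mem_append.1 hE with h1 | h1
    · exact hEa E h1
    · exact eqs0_sound M.a_sum (fun p hp => absurd hp List.not_mem_nil)
        (fun p hp => absurd hp List.not_mem_nil) E h1
  have hB : ∀ E ∈ D i ++ eqs0 m [], Eqn.Holds E b := by
    intro E hE
    rcases List.mem_append.1 hE with h1 | h1
    · exact hEb E h1
    · exact eqs0_sound M.b_sum (fun p hp => absurd hp List.not_mem_nil)
        (fun p hp => absurd hp List.not_mem_nil) E h1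
  cases N with
  | leafM k nu cs inn =>
    unfold chkT at h
    rw [Bool.and_eq_true, Bool.and_eq_true, Bool.and_eq_true, List.all_eq_true (l := Sch.glue _)] at h
    obtain ⟨⟨⟨h1, h2⟩, h3⟩, h4⟩ := h
    refine appH M.ccw S ⟨k, nu, h1, ?_, ?_⟩
    · intro g hg
      exact glueT_sound hrel hA h2 (h3 g hg)
    · exact derM_sound hA (nuOK_iff h1).2.1 h4
  | tor id r s cs =>
    cases hT : tt[id]? with
    | none =>
      simp only [chkT, hT] at h
      exact absurd h (by simp)
    | some T =>
      simp only [chkT, hT, Bool.and_eq_true, List.all_eq_true, decide_eq_true_eq] at h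
      obtain ⟨⟨hs, h2⟩, h3⟩ := h
      obtain ⟨P', S', hccw, hang, hrel', hch, hper⟩ := arcs_dih P S (by omega) r (s : ZMod m)
      refine hper (htt T (List.mem_of_getElem? hT) P' S' _ (hccw M.ccw) (hch b M.chord) ?_ ?_)
      · intro g hg
        obtain ⟨⟨h4, h5⟩, h6⟩ := h2 g hg
        rw [hrel', siN_eq hs h4, siN_eq hs h5]
        apply hrel
        unfold relT
        rw [ZMod.val_natCast_of_lt (CS7_siN_lt r s g.1), ZMod.val_natCast_of_lt (CS7_siN_lt r s g.2.1)]
        rw [nthF_eq, nthF_eq] at h6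
        exact h6
      · exact CS7_tr (fun x hx => (sgN_eq hs hx).symm) hB h3
  | geo d f lin cs fuel =>
    unfold chkT at h
    rw [Bool.and_eq_true] at h
    obtain ⟨h1, h2⟩ := h
    have hplus : ∀ j, S.Plus (j - 1) j := by
      intro j
      have h3 : S.Rel (j - 1) j true := by
        apply hrel
        unfold pluB at h1
        rw [List.all_eq_true] at h1
        have h5 := h1 j.val (List.mem_range.2 (ZMod.val_lt j))
        rw [nthF_eq, nthF_eq, CS7_pred] at h5
        exact h5
      simpa [Arcs.Rel] using h3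
    obtain ⟨σ, ε, hp, -, hb⟩ := M.off
    have hb2 : ∀ j, b j = P.ang (S.κ j) / Real.pi := by
      intro j
      rw [hb j, (hp (j - 1) j (hplus j)).2]
      ring
    have hnorm : ∀ k : ℕ, ‖S.ch (k : ZMod m)‖ = ‖S.ch 0‖ := by
      intro k
      induction k with
      | zero => rw [Nat.cast_zero]
      | succ k ih =>
        have h3 := Arcs.norm_plus S (hplus ((k + 1 : ℕ) : ZMod m))
        rw [← h3, Nat.cast_succ, add_sub_cancel_right]
        exact ih
    have hnorm' : ∀ j : ZMod m, ‖S.ch j‖ = ‖S.ch 0‖ := by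
      intro j
      have h3 := hnorm j.val
      rwa [ZMod.natCast_zmod_val] at h3
    refine (geoA_sound S hm (a := b) ?_ ?_ M.chord (cls := fun _ => 0)
      (fun j k _ => by rw [hnorm' j, hnorm' k]) hB h2).elim
    · intro j
      rw [hb2]
      exact div_pos (P.ang_pos _) Real.pi_pos
    · intro j
      rw [hb2, div_lt_iff₀ Real.pi_pos]
      exact P.ang_lt _
  | lp v φ V0 Am L fuel rows GS ρ cvs ch =>
    unfold chkT at h
    rw [Bool.and_eq_true] at h
    obtain ⟨h1, h2⟩ := h
    obtain ⟨cv, hcv, hha, hhb⟩ := lpR_sound hm hm' M.wg (fun j k c => (M.rel j k c).1) h1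
    exact CS7_ch M hsy hD hA hB h2 hcv hha hhb

private theorem CS7_allI {α : Type} {g : ℕ → α → Bool} {l : List α} {i0 : ℕ}
    (h : allI g l i0 = true) (j : ℕ) (hj : j < l.length) : g (i0 + j) l[j] = true := by
  induction l generalizing i0 j with
  | nil => exact absurd hj (by simp)
  | cons x l ih =>
    have h' : (bif g i0 x then allI g l (Nat.succ i0) else false) = true := h
    cases hx : g i0 x
    · rw [hx] at h'
      exact absurd h' (by simp)
    · rw [hx, cond_true] at h'
      cases j with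
      | zero => simpa using hx
      | succ j =>
        have h2 := ih h' j (by simpa using hj)
        rw [show i0 + (j + 1) = Nat.succ i0 + j by omega]
        simpa using h2

theorem chkC_sound (hm : 3 ≤ m) (hm' : m ≤ 6) {tt : List TorT} (htt : ∀ T ∈ tt, T.OK m)
    {C : CertT} (h : chkC m tt C = true) :
    C.w = decW m (encW C.w) ∧ NodeT m C.w [] := by
  unfold chkC at h
  simp only [Bool.and_eq_true, beq_iff_eq, List.all_eq_true, decide_eq_true_eq,
    List.isEmpty_iff] at h
  obtain ⟨⟨⟨⟨h1, h2⟩, h3⟩, h4⟩, h5⟩ := h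
  refine ⟨h1, ?_⟩
  have key : ∀ i, i < C.Ns.length → NodeT m C.w (blkF [] C.D i) := by
    intro i
    induction i using Nat.strong_induction_on with
    | _ i ih =>
      intro hi
      have h6 := CS7_allI h5 i hi
      rw [Nat.zero_add] at h6
      intro n P S b M ha hb
      exact chkT_sound hm hm' htt h2 (fun j hj => ih j hj (by omega)) h6 P S b M ha hb
  intro n P S b M ha hb
  refine key (C.Ns.length - 1) (by omega) P S b M ?_ ?_
  · rw [h4]
    exact ha
  · rw [h4]
    exact hb

end Pool.Agent.Lib_MP_fa6e45
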