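import Pool.Agent.Lib_MP_fa6e45.CSTab
import Pool.Agent.Lib_MP_fa6e45.Y5
import Pool.Agent.Lib_MP_fa6e45.CE6
import Pool.Agent.Lib_MP_fa6e45.CE5_3
import Pool.Agent.Lib_MP_fa6e45.CE5_4
import Pool.Agent.Lib_MP_fa6e45.CE5_5
import Pool.Agent.Lib_MP_fa6e45.CE5_6a
import Pool.Agent.Lib_MP_fa6e45.CE5_6b
import Pool.Agent.Lib_MP_fa6e45.CE5_6c

/-!
PIECE CS8 (enumeration of the relation tables). For a system of arcs which are not all segments: up to a rotation or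
reflection of the numbering the relation is given by a word of the table `tabT m` (CSTab.lean: canonical words: letters
`16 * class + 4 * kind + label`, classes numbered by first occurrence, label `0` at the first arc of the class, labels
minimal modulo the stabilizer, balanced; not all kinds `0`; one word for every orbit of the dihedral group).
CE0: the relation of the arcs is symmetric, closed under compositions of three, balanced; CE1: labels; CE2-CE4: the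
enumeration of all labels for a class list; CE5: kernel checks for the canonical class lists; CE6: the enumeration
theorem.
-/

open Set MeasureTheory Complex
open scoped Topology

namespace Pool.Agent.Lib_MP_fa6e45

open Pool.Agent.Lib_PL (cr InSector Poly)

variable {n : ℕ} {P : Polygon n} {ι : Type}

/-- all arcs are straight -/
def ceS (m : ℕ) (w : List ℕ) : Bool := (List.range m).all fun j => okL (w.getD j 0) (w.getD j 0) false

private theorem CS8_final {m : ℕ} [NeZero m] (pg : List (List ℕ × List ℕ)) (tab : List ℕ)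
    (hE : ∀ G : ZMod m → ZMod m → Bool → Prop, RelAx G → ∃ w ∈ patL m pg,
      ∃ (r : Bool) (s : ZMod m), ∀ j k b, G j k b ↔ relT w (sgS r s j) (sgS r s k) b = true)
    (hZ1 : ((patL m pg).all fun w => decW m (encW w) == w) = true)
    (hZ2 : ((((patL m pg).filter fun w => !ceS m w).map encW) == tab) = true)
    (S : Arcs P m) (K : CombG m (fun j => P.ang (S.κ j)) S.Rel ι) (hw : ∃ j, S.w j ≠ 1) :
    ∃ x ∈ tab, ∃ (r : Bool) (s : ZMod m), ∀ j k c,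
      S.Rel (siS r s j) (siS r s k) c ↔ relT (decW m x) j k c = true := by
  obtain ⟨w, hwp, r, s, h⟩ := hE S.Rel (relAx_of_wp S K)
  have hsi : ∀ j : ZMod m, sgS r s (siS r s j) = j := fun j => (sgE r s).apply_symm_apply j
  have h1 := List.all_eq_true.1 hZ1 w hwp
  rw [beq_iff_eq] at h1 hZ2
  have h2 : ceS m w = false := by
    by_contra h3
    rw [Bool.not_eq_false] at h3
    obtain ⟨j, hj⟩ := hw
    unfold ceS at h3
    rw [List.all_eq_true] at h3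
    have h4 := h3 (sgS r s j).val (List.mem_range.2 (ZMod.val_lt _))
    exact hj (S.minus_self j ((h j j false).2 h4))
  refine ⟨encW w, ?_, r, s, fun j k c => ?_⟩
  · rw [← hZ2, List.mem_map]
    refine ⟨w, ?_, rfl⟩
    rw [List.mem_filter]
    exact ⟨hwp, by rw [h2]; rfl⟩
  · rw [h1, h, hsi, hsi]

private theorem CS8_cl3 : ∀ c ∈ h4C3, ∃ g ∈ patG3, g.1 = c ∧ ClOK 3 g.1 g.2 := by
  have h1 : ∀ g ∈ patG3, ClOK 3 g.1 g.2 := by
    unfold patG3
    exact List.forall_mem_cons.2 ⟨cl3_0, List.forall_mem_cons.2 ⟨cl3_1, List.forall_mem_cons.2 ⟨cl3_2,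
      List.forall_mem_nil _⟩⟩⟩
  have h2 : ∀ c ∈ h4C3, ∃ g ∈ patG3, g.1 = c := by decide +kernel
  intro c hc
  obtain ⟨g, hg, hgc⟩ := h2 c hc
  exact ⟨g, hg, hgc, h1 g hg⟩

private theorem CS8_cl4 : ∀ c ∈ h4C4, ∃ g ∈ patG4, g.1 = c ∧ ClOK 4 g.1 g.2 := by
  have h1 : ∀ g ∈ patG4, ClOK 4 g.1 g.2 := by
    unfold patG4
    exact List.forall_mem_cons.2 ⟨cl4_0, List.forall_mem_cons.2 ⟨cl4_1, List.forall_mem_cons.2 ⟨cl4_2,
      List.forall_mem_cons.2 ⟨cl4_3, List.forall_mem_cons.2 ⟨cl4_4, List.forall_mem_cons.2 ⟨cl4_5,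
      List.forall_mem_cons.2 ⟨cl4_6, List.forall_mem_nil _⟩⟩⟩⟩⟩⟩⟩
  have h2 : ∀ c ∈ h4C4, ∃ g ∈ patG4, g.1 = c := by decide +kernel
  intro c hc
  obtain ⟨g, hg, hgc⟩ := h2 c hc
  exact ⟨g, hg, hgc, h1 g hg⟩

private theorem CS8_cl5 : ∀ c ∈ h4C5, ∃ g ∈ patG5, g.1 = c ∧ ClOK 5 g.1 g.2 := by
  have h1 : ∀ g ∈ patG5, ClOK 5 g.1 g.2 := by
    unfold patG5
    exact List.forall_mem_cons.2 ⟨cl5_0, List.forall_mem_cons.2 ⟨cl5_1, List.forall_mem_cons.2 ⟨cl5_2,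
      List.forall_mem_cons.2 ⟨cl5_3, List.forall_mem_cons.2 ⟨cl5_4, List.forall_mem_cons.2 ⟨cl5_5,
      List.forall_mem_cons.2 ⟨cl5_6, List.forall_mem_cons.2 ⟨cl5_7, List.forall_mem_cons.2 ⟨cl5_8,
      List.forall_mem_cons.2 ⟨cl5_9, List.forall_mem_cons.2 ⟨cl5_10, List.forall_mem_cons.2 ⟨cl5_11,
      List.forall_mem_nil _⟩⟩⟩⟩⟩⟩⟩⟩⟩⟩⟩⟩
  have h2 : ∀ c ∈ h4C5, ∃ g ∈ patG5, g.1 = c := by decide +kernel
  intro c hc
  obtain ⟨g, hg, hgc⟩ := h2 c hc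
  exact ⟨g, hg, hgc, h1 g hg⟩

private theorem CS8_cl6 : ∀ c ∈ h4C6, ∃ g ∈ patG6, g.1 = c ∧ ClOK 6 g.1 g.2 := by
  have h1 : ∀ g ∈ patG6, ClOK 6 g.1 g.2 := by
    unfold patG6
    exact List.forall_mem_cons.2 ⟨cl6_0, List.forall_mem_cons.2 ⟨cl6_1, List.forall_mem_cons.2 ⟨cl6_2,
      List.forall_mem_cons.2 ⟨cl6_3, List.forall_mem_cons.2 ⟨cl6_4, List.forall_mem_cons.2 ⟨cl6_5,
      List.forall_mem_cons.2 ⟨cl6_6, List.forall_mem_cons.2 ⟨cl6_7, List.forall_mem_cons.2 ⟨cl6_8,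
      List.forall_mem_cons.2 ⟨cl6_9, List.forall_mem_cons.2 ⟨cl6_10, List.forall_mem_cons.2 ⟨cl6_11,
      List.forall_mem_cons.2 ⟨cl6_12, List.forall_mem_cons.2 ⟨cl6_13, List.forall_mem_cons.2 ⟨cl6_14,
      List.forall_mem_cons.2 ⟨cl6_15, List.forall_mem_cons.2 ⟨cl6_16, List.forall_mem_cons.2 ⟨cl6_17,
      List.forall_mem_cons.2 ⟨cl6_18, List.forall_mem_cons.2 ⟨cl6_19, List.forall_mem_cons.2 ⟨cl6_20,
      List.forall_mem_cons.2 ⟨cl6_21, List.forall_mem_cons.2 ⟨cl6_22, List.forall_mem_cons.2 ⟨cl6_23,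
      List.forall_mem_cons.2 ⟨cl6_24, List.forall_mem_cons.2 ⟨cl6_25, List.forall_mem_cons.2 ⟨cl6_26,
      List.forall_mem_cons.2 ⟨cl6_27, List.forall_mem_cons.2 ⟨cl6_28, List.forall_mem_cons.2 ⟨cl6_29,
      List.forall_mem_cons.2 ⟨cl6_30, List.forall_mem_cons.2 ⟨cl6_31, List.forall_mem_cons.2 ⟨cl6_32,
      List.forall_mem_cons.2 ⟨cl6_33, List.forall_mem_cons.2 ⟨cl6_34, List.forall_mem_cons.2 ⟨cl6_35,
      List.forall_mem_cons.2 ⟨cl6_36, List.forall_mem_nil _⟩⟩⟩⟩⟩⟩⟩⟩⟩⟩⟩⟩⟩⟩⟩⟩⟩⟩⟩⟩⟩⟩⟩⟩⟩⟩⟩⟩⟩⟩⟩⟩⟩⟩⟩⟩⟩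
  have h2 : ∀ c ∈ h4C6, ∃ g ∈ patG6, g.1 = c := by decide +kernel
  intro c hc
  obtain ⟨g, hg, hgc⟩ := h2 c hc
  exact ⟨g, hg, hgc, h1 g hg⟩

private theorem CS8_z3 : ((patL 3 patG3).all fun w => decW 3 (encW w) == w) = true := by
  decide +kernel

private theorem CS8_y3 : ((((patL 3 patG3).filter fun w => !ceS 3 w).map encW) == tabT3) = true := by
  decide +kernel

private theorem CS8_z4 : ((patL 4 patG4).all fun w => decW 4 (encW w) == w) = true := by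
  decide +kernel

private theorem CS8_y4 : ((((patL 4 patG4).filter fun w => !ceS 4 w).map encW) == tabT4) = true := by
  decide +kernel

private theorem CS8_z5 : ((patL 5 patG5).all fun w => decW 5 (encW w) == w) = true := by
  decide +kernel

private theorem CS8_y5 : ((((patL 5 patG5).filter fun w => !ceS 5 w).map encW) == tabT5) = true := by
  decide +kernel

private theorem CS8_z6 : ((patL 6 patG6).all fun w => decW 6 (encW w) == w) = true := by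
  decide +kernel

private theorem CS8_y6 : ((((patL 6 patG6).filter fun w => !ceS 6 w).map encW) == tabT6) = true := by
  decide +kernel

theorem enumT3 (S : Arcs P 3) (K : CombG 3 (fun j => P.ang (S.κ j)) S.Rel ι)
    (hw : ∃ j, S.w j ≠ 1) : ∃ x ∈ tabT3, ∃ (r : Bool) (s : ZMod 3), ∀ j k c,
      S.Rel (siS r s j) (siS r s k) c ↔ relT (decW 3 x) j k c = true :=
  CS8_final patG3 tabT3 (fun _ h => ce_enum patG3 h4C3 h4X3 CS8_cl3 (by decide) h)
    CS8_z3 CS8_y3 S K hw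

theorem enumT4 (S : Arcs P 4) (K : CombG 4 (fun j => P.ang (S.κ j)) S.Rel ι)
    (hw : ∃ j, S.w j ≠ 1) : ∃ x ∈ tabT4, ∃ (r : Bool) (s : ZMod 4), ∀ j k c,
      S.Rel (siS r s j) (siS r s k) c ↔ relT (decW 4 x) j k c = true :=
  CS8_final patG4 tabT4 (fun _ h => ce_enum patG4 h4C4 h4X4 CS8_cl4 (by decide) h)
    CS8_z4 CS8_y4 S K hw

theorem enumT5 (S : Arcs P 5) (K : CombG 5 (fun j => P.ang (S.κ j)) S.Rel ι)
    (hw : ∃ j, S.w j ≠ 1) : ∃ x ∈ tabT5, ∃ (r : Bool) (s : ZMod 5), ∀ j k c,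
      S.Rel (siS r s j) (siS r s k) c ↔ relT (decW 5 x) j k c = true :=
  CS8_final patG5 tabT5 (fun _ h => ce_enum patG5 h4C5 h4X5 CS8_cl5 (by decide) h)
    CS8_z5 CS8_y5 S K hw

theorem enumT6 (S : Arcs P 6) (K : CombG 6 (fun j => P.ang (S.κ j)) S.Rel ι)
    (hw : ∃ j, S.w j ≠ 1) : ∃ x ∈ tabT6, ∃ (r : Bool) (s : ZMod 6), ∀ j k c,
      S.Rel (siS r s j) (siS r s k) c ↔ relT (decW 6 x) j k c = true :=
  CS8_final patG6 tabT6 (fun _ h => ce_enum patG6 h4C6 h4X6 CS8_cl6 (by decide) h)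
    CS8_z6 CS8_y6 S K hw

end Pool.Agent.Lib_MP_fa6e45
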