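import Pool.Agent.Lib_MP_fa6e45.HS

/-!
MP_fa6e45_co, stage 4: the special lemma B1 (piece HX-B1).
-/

open Set MeasureTheory Complex
open scoped Topology

namespace Pool.Agent.Lib_MP_fa6e45

/-- `cos τ - cos 7τ + cos 5τ - cos 3τ = 8 sin τ sin 2τ cos² 2τ` -/
private theorem b1_id (τ : ℝ) : Real.cos τ - Real.cos (7 * τ) + Real.cos (5 * τ) - Real.cos (3 * τ) =
    8 * Real.sin τ * Real.sin (2 * τ) * Real.cos (2 * τ) ^ 2 := by
  have h1 : Real.cos τ = Real.cos (2 * τ - τ) := by ring_nf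
  have h3 : Real.cos (3 * τ) = Real.cos (2 * τ + τ) := by ring_nf
  have h5 : Real.cos (5 * τ) = Real.cos (6 * τ - τ) := by ring_nf
  have h7 : Real.cos (7 * τ) = Real.cos (6 * τ + τ) := by ring_nf
  have h6 : Real.sin (6 * τ) = Real.sin (4 * τ + 2 * τ) := by ring_nf
  have h2 : Real.sin (2 * τ) = Real.sin (4 * τ - 2 * τ) := by ring_nf
  have h4 : Real.sin (4 * τ) = 2 * Real.sin (2 * τ) * Real.cos (2 * τ) := by
    rw [← Real.sin_two_mul]
    ring_nf
  have e1 : Real.cos τ - Real.cos (3 * τ) = 2 * Real.sin (2 * τ) * Real.sin τ := by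
    rw [h3, h1, Real.cos_add, Real.cos_sub]
    have : Real.cos (2 * τ - τ) = Real.cos τ := by ring_nf
    ring_nf
  have e2 : Real.cos (5 * τ) - Real.cos (7 * τ) = 2 * Real.sin (6 * τ) * Real.sin τ := by
    rw [h5, h7, Real.cos_add, Real.cos_sub]
    ring
  have e3 : Real.sin (2 * τ) + Real.sin (6 * τ) = 2 * Real.sin (4 * τ) * Real.cos (2 * τ) := by
    rw [h6, Real.sin_add]
    have : Real.sin (2 * τ) = Real.sin (4 * τ) * Real.cos (2 * τ) -
        Real.cos (4 * τ) * Real.sin (2 * τ) := by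
      rw [← Real.sin_sub]
      ring_nf
    linarith
  have e4 : Real.cos τ - Real.cos (7 * τ) + Real.cos (5 * τ) - Real.cos (3 * τ) =
      2 * Real.sin τ * (Real.sin (2 * τ) + Real.sin (6 * τ)) := by
    linear_combination e1 + e2
  rw [e4, e3, h4]
  ring

/-- [HX-B1] the closing relation seen from side `4` gives a negative length. -/
theorem specB1 : SpecB1 := by
  rintro P ⟨_, h01, h12, h23⟩ ha hb hd he
  have h := (P.close5 4).1
  have e1 : (4 : ZMod 5) + 1 = 0 := by decide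
  have e2 : (4 : ZMod 5) + 2 = 1 := by decide
  have e3 : (4 : ZMod 5) + 3 = 2 := by decide
  have e4 : (4 : ZMod 5) + 4 = 3 := by decide
  rw [e1, e2, e3, e4] at h
  set τ : ℝ := P.ang 4 / 3 with hτ
  have a4 : P.ang 4 = 3 * τ := by rw [hτ]; ring
  have a0 : P.ang 0 = Real.pi - τ := by linarith
  have a1 : P.ang 1 = 2 * Real.pi - 6 * τ := by linarith
  have a2 : P.ang 2 = 2 * τ := by linarith
  have a3 : P.ang 3 = 2 * τ := by linarith
  have l1 : P.len 1 = P.len 0 := h01.symm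
  have l2 : P.len 2 = P.len 0 := by rw [← h12, l1]
  have l3 : P.len 3 = P.len 0 := by rw [← h23, l2]
  have p4 := P.ang_pos 4
  have p1 := P.ang_pos 1
  have hpi := Real.pi_pos
  have c1 : Real.cos (Real.pi - P.ang 0) = Real.cos τ := by rw [a0]; ring_nf
  have c2 : Real.cos (2 * Real.pi - P.ang 0 - P.ang 1) = -Real.cos (7 * τ) := by
    rw [a0, a1, ← Real.cos_sub_pi]
    ring_nf
  have c3 : Real.cos (3 * Real.pi - P.ang 0 - P.ang 1 - P.ang 2) = Real.cos (5 * τ) := by
    rw [a0, a1, a2]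
    ring_nf
  have c4 : Real.cos (4 * Real.pi - P.ang 0 - P.ang 1 - P.ang 2 - P.ang 3) = -Real.cos (3 * τ) := by
    rw [a0, a1, a2, a3, ← Real.cos_add_pi]
    ring_nf
  rw [c1, c2, c3, c4, l1, l2, l3] at h
  have hid := b1_id τ
  have hs1 : 0 < Real.sin τ := Real.sin_pos_of_pos_of_lt_pi (by linarith) (by linarith)
  have hs2 : 0 < Real.sin (2 * τ) := Real.sin_pos_of_pos_of_lt_pi (by linarith) (by linarith)
  have h4 := P.len_pos 4
  have h0 := P.len_pos 0
  have h5 : P.len 4 + P.len 0 * (8 * Real.sin τ * Real.sin (2 * τ) * Real.cos (2 * τ) ^ 2) = 0 := by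
    rw [← hid]
    linear_combination h
  have h6 : 0 ≤ P.len 0 * (8 * Real.sin τ * Real.sin (2 * τ) * Real.cos (2 * τ) ^ 2) := by positivity
  linarith

end Pool.Agent.Lib_MP_fa6e45
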