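import Pool.Agent.Lib_MP_fa6e45.HS

/-!
MP_fa6e45_co, stage 4: the case `SpecB3`. With `ang 4 = 5 pi / 6 + u`, `|u| < pi / 6`, the closing relation seen from
side `4` gives `sin u = sin (3 u)`, so `u = 0`, and then `len 4 = 0`.
-/

open Set MeasureTheory Complex
open scoped Topology

namespace Pool.Agent.Lib_MP_fa6e45

private theorem HPB3_real {a l E A0 A1 A2 A3 : ℝ} (ha : 0 < a) (hl : 0 < l)
    (h0 : 3 * A0 + 3 * E = 5 * Real.pi) (h1 : A1 + 2 * E = 2 * Real.pi)
    (h2 : 3 * A2 = 2 * Real.pi) (h3 : 3 * A3 + 4 * Real.pi = 6 * E) (p1 : 0 < A1) (p3 : 0 < A3)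
    (hre : l + a * Real.cos (Real.pi - A0) + a * Real.cos (2 * Real.pi - A0 - A1) +
      a * Real.cos (3 * Real.pi - A0 - A1 - A2) +
      a * Real.cos (4 * Real.pi - A0 - A1 - A2 - A3) = 0)
    (him : a * Real.sin (Real.pi - A0) + a * Real.sin (2 * Real.pi - A0 - A1) +
      a * Real.sin (3 * Real.pi - A0 - A1 - A2) +
      a * Real.sin (4 * Real.pi - A0 - A1 - A2 - A3) = 0) : False := by
  have hpi := Real.pi_pos
  obtain ⟨u, hu⟩ : ∃ u : ℝ, u = E - 5 * Real.pi / 6 := ⟨_, rfl⟩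
  have x1 : Real.pi - A0 = Real.pi / 6 + u := by linarith
  have x2 : 2 * Real.pi - A0 - A1 = Real.pi - (Real.pi / 6 - 3 * u) := by linarith
  have x3 : 3 * Real.pi - A0 - A1 - A2 = Real.pi / 6 + 3 * u + Real.pi := by linarith
  have x4 : 4 * Real.pi - A0 - A1 - A2 - A3 = u - Real.pi / 6 + 2 * Real.pi := by linarith
  have hu1 : -(Real.pi / 6) < u := by linarith
  have hu2 : u < Real.pi / 6 := by linarith
  have hs3 : 0 < Real.sqrt 3 := Real.sqrt_pos.mpr (by norm_num)
  rw [x1, x2, x3, x4, Real.sin_pi_sub, Real.sin_add_pi, Real.sin_add_two_pi, Real.sin_add,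
    Real.sin_sub, Real.sin_add (Real.pi / 6) (3 * u), Real.sin_sub u, Real.cos_pi_div_six,
    Real.sin_pi_div_six] at him
  have e1 : a * Real.sqrt 3 * (Real.sin u - Real.sin (3 * u)) = 0 := by linarith
  have e2 : Real.sin u = Real.sin (3 * u) := by
    rcases mul_eq_zero.mp e1 with h | h
    · exact absurd h (by positivity)
    · linarith
  rw [Real.sin_three_mul] at e2
  have b1 : Real.sin u < 1 / 2 := by
    rw [← Real.sin_pi_div_six]
    exact Real.sin_lt_sin_of_lt_of_le_pi_div_two (by linarith) (by linarith) hu2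
  have b2 : -(1 / 2) < Real.sin u := by
    rw [← Real.sin_pi_div_six, ← Real.sin_neg]
    exact Real.sin_lt_sin_of_lt_of_le_pi_div_two (by linarith) (by linarith) hu1
  have e3 : Real.sin u = 0 := by
    have h4 : Real.sin u * (2 - 4 * Real.sin u ^ 2) = 0 := by linarith
    rcases mul_eq_zero.mp h4 with h | h
    · exact h
    · exfalso
      nlinarith
  have hu0 : u = 0 := (Real.sin_eq_zero_iff_of_lt_of_lt (by linarith) (by linarith)).mp e3
  rw [x1, x2, x3, x4, hu0, Real.cos_pi_sub, Real.cos_add_pi, Real.cos_add_two_pi, mul_zero,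
    sub_zero, add_zero, zero_sub, Real.cos_neg] at hre
  linarith

theorem specB3 : SpecB3 := by
  intro P hP h0 h1 h2 h3
  obtain ⟨_, e1, e2, e3⟩ := hP
  obtain ⟨hre, him⟩ := P.close5 4
  have i1 : (4 : ZMod 5) + 1 = 0 := by decide
  have i2 : (4 : ZMod 5) + 2 = 1 := by decide
  have i3 : (4 : ZMod 5) + 3 = 2 := by decide
  have i4 : (4 : ZMod 5) + 4 = 3 := by decide
  rw [i1, i2, i3, i4, ← e3, ← e2, ← e1] at hre him
  exact HPB3_real (P.len_pos 0) (P.len_pos 4) h0 h1 h2 h3 (P.ang_pos 1) (P.ang_pos 3) hre him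

end Pool.Agent.Lib_MP_fa6e45
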