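import Pool.Agent.Lib_MP_fa6e45.HS

/-!
MP_fa6e45_co, stage 4, piece HX-B4: no pentagon with four equal sides `0, 1, 2, 3` has the angles
`3 t - 1, 2 - 2 t, 4 t - 2, 4 - 6 t, t` (times `π`).  The imaginary part of the closing relation seen from
side `4` is `-2 sin (4 e) cos e`, `e = π t ∈ (π / 2, 2 π / 3)`.
-/

namespace Pool.Agent.Lib_MP_fa6e45

theorem specB4 : SpecB4 := by
  rintro P ⟨-, l01, l12, l23⟩ h0 h1 h2 h3
  have hc := (P.close5 4).2
  have i1 : (4 + 1 : ZMod 5) = 0 := by decide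
  have i2 : (4 + 2 : ZMod 5) = 1 := by decide
  have i3 : (4 + 3 : ZMod 5) = 2 := by decide
  have i4 : (4 + 4 : ZMod 5) = 3 := by decide
  rw [i1, i2, i3, i4, ← l23, ← l12, ← l01] at hc
  have hl : 0 < P.len 0 := P.len_pos 0
  have hp2 : 0 < P.ang 2 := P.ang_pos 2
  have hp3 : 0 < P.ang 3 := P.ang_pos 3
  obtain ⟨e, he⟩ : ∃ e : ℝ, e = P.ang 4 := ⟨_, rfl⟩
  rw [← he] at h0 h1 h2 h3
  have a0 : P.ang 0 = 3 * e - Real.pi := by linarith
  have a1 : P.ang 1 = 2 * Real.pi - 2 * e := by linarith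
  have a2 : P.ang 2 = 4 * e - 2 * Real.pi := by linarith
  have a3 : P.ang 3 = 4 * Real.pi - 6 * e := by linarith
  rw [a0, a1, a2, a3] at hc
  rw [a2] at hp2
  rw [a3] at hp3
  have s1 : Real.sin (Real.pi - (3 * e - Real.pi)) = -Real.sin (3 * e) := by
    rw [show Real.pi - (3 * e - Real.pi) = -(3 * e) + 2 * Real.pi by ring, Real.sin_add_two_pi,
      Real.sin_neg]
  have s2 : Real.sin (2 * Real.pi - (3 * e - Real.pi) - (2 * Real.pi - 2 * e)) = Real.sin e := by
    rw [show 2 * Real.pi - (3 * e - Real.pi) - (2 * Real.pi - 2 * e) = Real.pi - e by ring,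
      Real.sin_pi_sub]
  have s3 : Real.sin (3 * Real.pi - (3 * e - Real.pi) - (2 * Real.pi - 2 * e) -
      (4 * e - 2 * Real.pi)) = -Real.sin (5 * e) := by
    rw [show 3 * Real.pi - (3 * e - Real.pi) - (2 * Real.pi - 2 * e) - (4 * e - 2 * Real.pi) =
      -(5 * e) + 2 * Real.pi + 2 * Real.pi by ring, Real.sin_add_two_pi, Real.sin_add_two_pi,
      Real.sin_neg]
  have s4 : Real.sin (4 * Real.pi - (3 * e - Real.pi) - (2 * Real.pi - 2 * e) -
      (4 * e - 2 * Real.pi) - (4 * Real.pi - 6 * e)) = -Real.sin e := by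
    rw [show 4 * Real.pi - (3 * e - Real.pi) - (2 * Real.pi - 2 * e) - (4 * e - 2 * Real.pi) -
      (4 * Real.pi - 6 * e) = e + Real.pi by ring, Real.sin_add_pi]
  rw [s1, s2, s3, s4] at hc
  have h35 : Real.sin (3 * e) + Real.sin (5 * e) = 2 * Real.sin (4 * e) * Real.cos e := by
    rw [show 3 * e = 4 * e - e by ring, show 5 * e = 4 * e + e by ring, Real.sin_sub, Real.sin_add]
    ring
  have hz : P.len 0 * (2 * Real.sin (4 * e) * Real.cos e) = 0 := by
    rw [← h35]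
    linarith
  have hpi := Real.pi_pos
  have hs : 0 < Real.sin (4 * e) := by
    rw [show 4 * e = (4 * e - 2 * Real.pi) + 2 * Real.pi by ring, Real.sin_add_two_pi]
    exact Real.sin_pos_of_pos_of_lt_pi hp2 (by linarith)
  have hcos : Real.cos e < 0 := Real.cos_neg_of_pi_div_two_lt_of_lt (by linarith) (by linarith)
  have hneg : P.len 0 * (2 * Real.sin (4 * e) * Real.cos e) < 0 :=
    mul_neg_of_pos_of_neg hl (mul_neg_of_pos_of_neg (by linarith) hcos)
  linarith

end Pool.Agent.Lib_MP_fa6e45
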