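import Pool.Agent.Lib_MP_fa6e45.HS

/-!
MP_fa6e45_co, stage 4: two hexagons with three equal sides in a row and three further equal sides in a row
do not exist.
-/

open Set MeasureTheory Complex
open scoped Topology

namespace Pool.Agent.Lib_MP_fa6e45

/-- a nonzero length ratio forces the first three sides to close up -/
theorem hpd_core (P : Polygon 6) (h01 : P.len 0 = P.len 1) (h12 : P.len 1 = P.len 2)
    (h34 : P.len 3 = P.len 4) (h45 : P.len 4 = P.len 5) (hne : P.len 0 ≠ P.len 3)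
    (hV : ‖P.dr 0 + P.dr 1 + P.dr 2‖ = ‖P.dr 3 + P.dr 4 + P.dr 5‖) : False := by
  have hs := P.dr_sum
  have hs2 : (P.len 0 : ℂ) * P.dr 0 + (P.len 1 : ℂ) * P.dr 1 + (P.len 2 : ℂ) * P.dr 2 +
      (P.len 3 : ℂ) * P.dr 3 + (P.len 4 : ℂ) * P.dr 4 + (P.len 5 : ℂ) * P.dr 5 = 0 := by
    rw [← hs]
    exact (Fin.sum_univ_six (fun j : Fin 6 => ((P.len j : ℝ) : ℂ) * P.dr j)).symm
  rw [← h45, ← h34, ← h12, ← h01] at hs2
  have hs3 : (P.len 0 : ℂ) * (P.dr 0 + P.dr 1 + P.dr 2) =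
      -((P.len 3 : ℂ) * (P.dr 3 + P.dr 4 + P.dr 5)) := by
    linear_combination hs2
  have hn := congrArg norm hs3
  rw [norm_neg, norm_mul, norm_mul, Complex.norm_real, Complex.norm_real,
    Real.norm_of_nonneg (P.len_pos 0).le, Real.norm_of_nonneg (P.len_pos 3).le, ← hV] at hn
  have h0 : ‖P.dr 0 + P.dr 1 + P.dr 2‖ = 0 := by
    by_contra hc
    exact hne (mul_right_cancel₀ hc hn)
  rw [norm_eq_zero] at h0
  have e0 := P.dr_len 0
  have e1 := P.dr_len 1
  have e2 := P.dr_len 2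
  rw [← h12, ← h01] at e2
  rw [← h01] at e1
  have i0 : (0 + 1 : ZMod 6) = 1 := by decide
  have i1 : (1 + 1 : ZMod 6) = 2 := by decide
  have i2 : (2 + 1 : ZMod 6) = 3 := by decide
  rw [i0] at e0
  rw [i1] at e1
  rw [i2] at e2
  have hv : P.vertex 3 = P.vertex 0 := by
    linear_combination e0 + e1 + e2 + (P.len 0 : ℂ) * h0
  have h3 : (3 : ZMod 6) = 0 := P.injective hv
  exact absurd h3 (by decide)

/-- the first three and the last three directions in terms of the turns -/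
theorem hpd_dirs (P : Polygon 6) (a b c d : ℝ) (h1 : P.ang 1 = a) (h2 : P.ang 2 = b)
    (h4 : P.ang 4 = c) (h5 : P.ang 5 = d) :
    P.dr 0 + P.dr 1 + P.dr 2 = P.dr 0 * (1 + exp (((Real.pi - a : ℝ) : ℂ) * Complex.I) +
      exp (((Real.pi - a : ℝ) : ℂ) * Complex.I) * exp (((Real.pi - b : ℝ) : ℂ) * Complex.I)) ∧
    P.dr 3 + P.dr 4 + P.dr 5 = P.dr 3 * (1 + exp (((Real.pi - c : ℝ) : ℂ) * Complex.I) +
      exp (((Real.pi - c : ℝ) : ℂ) * Complex.I) * exp (((Real.pi - d : ℝ) : ℂ) * Complex.I)) := by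
  have s1 := P.dr_step 1
  have s2 := P.dr_step 2
  have s4 := P.dr_step 4
  have s5 := P.dr_step 5
  have i1 : (1 - 1 : ZMod 6) = 0 := by decide
  have i2 : (2 - 1 : ZMod 6) = 1 := by decide
  have i4 : (4 - 1 : ZMod 6) = 3 := by decide
  have i5 : (5 - 1 : ZMod 6) = 4 := by decide
  rw [i1, h1] at s1
  rw [i2, h2, s1] at s2
  rw [i4, h4] at s4
  rw [i5, h5, s4] at s5
  constructor
  · rw [s2, s1]
    ring
  · rw [s5, s4]
    ring

theorem specD2 : SpecD2 := by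
  intro P _ h01 h12 h34 h45 hne ha hb
  refine hpd_core P h01 h12 h34 h45 hne ?_
  obtain ⟨e1, e2⟩ := hpd_dirs P _ _ _ _ rfl rfl ha.symm hb.symm
  rw [e1, e2, norm_mul, norm_mul, P.dr_norm, P.dr_norm]

theorem specD1 : SpecD1 := by
  intro P _ h01 h12 h34 h45 hne ha hb
  refine hpd_core P h01 h12 h34 h45 hne ?_
  obtain ⟨e1, e2⟩ := hpd_dirs P _ _ _ _ rfl rfl hb.symm ha.symm
  rw [e1, e2, norm_mul, norm_mul, P.dr_norm, P.dr_norm, one_mul, one_mul]
  set u := exp (((Real.pi - P.ang 1 : ℝ) : ℂ) * Complex.I) with hu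
  set v := exp (((Real.pi - P.ang 2 : ℝ) : ℂ) * Complex.I) with hv
  have nu : ‖u‖ = 1 := by
    rw [hu]
    exact Complex.norm_exp_ofReal_mul_I _
  have nv : ‖v‖ = 1 := by
    rw [hv]
    exact Complex.norm_exp_ofReal_mul_I _
  have cu : u * (starRingEnd ℂ) u = 1 := by
    rw [Complex.mul_conj, Complex.normSq_eq_norm_sq, nu]
    simp
  have cv : v * (starRingEnd ℂ) v = 1 := by
    rw [Complex.mul_conj, Complex.normSq_eq_norm_sq, nv]
    simp
  have hk : u * v * (starRingEnd ℂ) (1 + u + u * v) = 1 + v + v * u := by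
    rw [map_add, map_add, map_mul, map_one]
    linear_combination (v + v * (starRingEnd ℂ) v) * cu + cv
  rw [← hk, norm_mul, norm_mul, nu, nv, Complex.norm_conj]
  ring

end Pool.Agent.Lib_MP_fa6e45
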