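import Pool.Agent.Lib_MP_fa6e45.HS

/-!
MP_fa6e45_co, stage 4, piece HX-E1.  Angles (units of `π`) `(4/3 - t, 2/3, t + 2/3, 1 - t, t, 1/3)`: with
`u = π/3 - t` the closing relation from side `0` reads `x + y cos u = 0`, `√3 x + y sin u = 0`, so
`y (√3 cos u - sin u) = 2 y sin t = 0`, but `0 < t < π`.
-/

open Set MeasureTheory Complex
open scoped Topology

namespace Pool.Agent.Lib_MP_fa6e45

theorem specE1 : SpecE1 := by
  rintro P ⟨-, h01, h13, h24, h45, -, -⟩ ha1 ha2 ha34 ha5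
  have hy := P.len_pos 2
  have p3 := P.ang_pos 3
  have p4 := P.ang_pos 4
  obtain ⟨hC, hS⟩ := P.close6 0
  have z1 : (0 : ZMod 6) + 1 = 1 := by decide
  have z2 : (0 : ZMod 6) + 2 = 2 := by decide
  have z3 : (0 : ZMod 6) + 3 = 3 := by decide
  have z4 : (0 : ZMod 6) + 4 = 4 := by decide
  have z5 : (0 : ZMod 6) + 5 = 5 := by decide
  rw [z1, z2, z3, z4, z5] at hC hS
  rw [← h45, ← h24, ← h13, ← h01] at hC hS
  generalize P.ang 4 = t at *
  have e1 : P.ang 1 = 2 * Real.pi / 3 := by linarith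
  have e2 : P.ang 2 = t + 2 * Real.pi / 3 := by linarith
  have e3 : P.ang 3 = Real.pi - t := by linarith
  have e5 : P.ang 5 = Real.pi / 3 := by linarith
  rw [e1, e2, e3, e5] at hC hS
  have a1 : Real.pi - 2 * Real.pi / 3 = Real.pi / 3 := by ring
  have a2 : 2 * Real.pi - 2 * Real.pi / 3 - (t + 2 * Real.pi / 3) = (Real.pi / 3 - t) + Real.pi / 3 := by ring
  have a3 : 3 * Real.pi - 2 * Real.pi / 3 - (t + 2 * Real.pi / 3) - (Real.pi - t) =
      Real.pi - Real.pi / 3 := by ring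
  have a4 : 4 * Real.pi - 2 * Real.pi / 3 - (t + 2 * Real.pi / 3) - (Real.pi - t) - t =
      ((Real.pi / 3 - t) + Real.pi / 3) + Real.pi := by ring
  have a5 : 5 * Real.pi - 2 * Real.pi / 3 - (t + 2 * Real.pi / 3) - (Real.pi - t) - t - Real.pi / 3 =
      (Real.pi / 3 - t) + 2 * Real.pi := by ring
  rw [a1, a2, a3, a4, a5] at hC hS
  rw [Real.cos_add_pi, Real.cos_add_two_pi, Real.cos_pi_sub, Real.cos_pi_div_three] at hC
  rw [Real.sin_add_pi, Real.sin_add_two_pi, Real.sin_pi_sub, Real.sin_pi_div_three] at hS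
  have hst : 0 < Real.sin t := Real.sin_pos_of_pos_of_lt_pi p4 (by linarith)
  have hk : Real.sin t = Real.sin (Real.pi / 3 - (Real.pi / 3 - t)) := by
    congr 1
    ring
  rw [Real.sin_sub, Real.sin_pi_div_three, Real.cos_pi_div_three] at hk
  have hyt : P.len 2 * Real.sin t = 0 := by
    rw [hk]
    linear_combination (√3 / 2) * hC - (1 / 2) * hS
  exact (mul_pos hy hst).ne' hyt

end Pool.Agent.Lib_MP_fa6e45
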