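import Pool.Agent.Lib_MP_fa6e45.HS

/-!
MP_fa6e45_co, stage 4, [HX-E3]: a hexagon with equal sides `0, 1, 3` and equal sides `2, 4, 5` cannot have the
angles `5/3 - t, 1/3, t + 1/3, 1 - t, t, 2/3` (times `pi`).
-/

open Set MeasureTheory Complex
open scoped Topology

namespace Pool.Agent.Lib_MP_fa6e45

/-- [HX-E3] the sides `0, 1, 3` close up, the sides `2, 4, 5` add up to a unit vector -/
theorem specE3 : SpecE3 := by
  intro P hP h1 h2 h3 h5
  obtain ⟨_, l01, l13, l24, l45, _, _⟩ := hP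
  have hy := P.len_pos 5
  obtain ⟨hr, hi⟩ := P.close6 0
  simp only [zero_add] at hr hi
  have e1 : P.ang 1 = Real.pi / 3 := by linarith
  have e2 : P.ang 2 = P.ang 4 + Real.pi / 3 := by linarith
  have e3 : P.ang 3 = Real.pi - P.ang 4 := by linarith
  have e5 : P.ang 5 = 2 * Real.pi / 3 := by linarith
  have a2 : 2 * Real.pi - P.ang 1 - P.ang 2 = 4 * Real.pi / 3 - P.ang 4 := by
    rw [e1, e2]; ring
  have a3 : 3 * Real.pi - P.ang 1 - P.ang 2 - P.ang 3 = Real.pi / 3 + Real.pi := by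
    rw [e1, e2, e3]; ring
  have a4 : 4 * Real.pi - P.ang 1 - P.ang 2 - P.ang 3 - P.ang 4 =
      (4 * Real.pi / 3 - P.ang 4) + Real.pi := by
    rw [e1, e2, e3]; ring
  have a5 : 5 * Real.pi - P.ang 1 - P.ang 2 - P.ang 3 - P.ang 4 - P.ang 5 =
      8 * Real.pi / 3 - P.ang 4 := by
    rw [e1, e2, e3, e5]; ring
  rw [a5, a4, a3, a2, e1, Real.cos_pi_sub, Real.cos_add_pi, Real.cos_add_pi, Real.cos_pi_div_three,
    l01, l13, l24, l45] at hr
  rw [a5, a4, a3, a2, e1, Real.sin_pi_sub, Real.sin_add_pi, Real.sin_add_pi,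
    l13, l24, l45] at hi
  have hc : P.len 5 * Real.cos (8 * Real.pi / 3 - P.ang 4) = 0 := by linarith
  have hs : P.len 5 * Real.sin (8 * Real.pi / 3 - P.ang 4) = 0 := by linarith
  have hc' := (mul_eq_zero.1 hc).resolve_left hy.ne'
  have hs' := (mul_eq_zero.1 hs).resolve_left hy.ne'
  have h := Real.sin_sq_add_cos_sq (8 * Real.pi / 3 - P.ang 4)
  rw [hc', hs'] at h
  norm_num at h

end Pool.Agent.Lib_MP_fa6e45
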