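import Pool.Agent.Lib_MP_fa6e45.HS

/-!
MP_fa6e45_co, stage 4, [HX-E5].  With `φ = ang 4` the angles are `3φ, 2π/3, 2π - 3φ, 2π/3 + φ, φ, 2π/3 - 2φ`, the
sides have the directions `0, π/3, 3φ - 2π/3, 2φ - π/3, φ + 2π/3, 3φ + π`.  The closing relation is
`x V₀ + y V₁ = 0` with `V₀ conj V₁ = -3 e^(-3iφ) - e^(iφ)`: imaginary part `sin φ (8 - 12 sin² φ)`, real part
`cos φ (8 - 12 cos² φ)`.  The first vanishes only for `sin² φ = 2/3`, and then the second is `4 cos φ > 0`.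
-/

open Set MeasureTheory Complex
open scoped Topology

namespace Pool.Agent.Lib_MP_fa6e45

/-- the trigonometric part: the closing relation has no positive solution -/
private theorem HPE5_trig {x y φ : ℝ} (hx0 : 0 < x) (hy0 : 0 < y) (h0 : 0 < φ)
    (h1 : φ < Real.pi / 3)
    (hx : x * (3 / 2 + (1 / 2 * Real.cos (2 * φ) + √3 / 2 * Real.sin (2 * φ))) +
      y * (-(3 / 2) * Real.cos (3 * φ) + √3 / 2 * Real.sin (3 * φ) - 1 / 2 * Real.cos φ -
        √3 / 2 * Real.sin φ) = 0)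
    (hy : x * (√3 / 2 + (1 / 2 * Real.sin (2 * φ) - √3 / 2 * Real.cos (2 * φ))) +
      y * (-(3 / 2) * Real.sin (3 * φ) - √3 / 2 * Real.cos (3 * φ) - 1 / 2 * Real.sin φ +
        √3 / 2 * Real.cos φ) = 0) : False := by
  have hpi := Real.pi_pos
  have h3 : √3 * √3 = 3 := Real.mul_self_sqrt (by norm_num)
  have hcs := Real.sin_sq_add_cos_sq φ
  have hc0 : 0 < Real.cos φ := Real.cos_pos_of_mem_Ioo ⟨by linarith, by linarith⟩
  have hs0 : 0 < Real.sin φ := Real.sin_pos_of_pos_of_lt_pi h0 (by linarith)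
  have e1 : Real.sin (3 * φ) * Real.cos (2 * φ) - Real.cos (3 * φ) * Real.sin (2 * φ) =
      Real.sin φ := by
    rw [← Real.sin_sub]
    ring_nf
  have e2 : Real.cos φ * Real.cos (2 * φ) + Real.sin φ * Real.sin (2 * φ) = Real.cos φ := by
    rw [← Real.cos_sub, show φ - 2 * φ = -φ by ring, Real.cos_neg]
  have e3 : Real.cos (3 * φ) * Real.cos (2 * φ) + Real.sin (3 * φ) * Real.sin (2 * φ) =
      Real.cos φ := by
    rw [← Real.cos_sub]
    ring_nf
  have e4 : Real.sin (2 * φ) * Real.cos φ - Real.cos (2 * φ) * Real.sin φ = Real.sin φ := by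
    rw [← Real.sin_sub]
    ring_nf
  have t3 := Real.cos_three_mul φ
  have u3 := Real.sin_three_mul φ
  generalize Real.cos (3 * φ) = c3 at *
  generalize Real.sin (3 * φ) = s3 at *
  generalize Real.cos (2 * φ) = c2 at *
  generalize Real.sin (2 * φ) = s2 at *
  generalize Real.cos φ = c at *
  generalize Real.sin φ = s at *
  generalize √3 = r at *
  obtain ⟨A0, hA0⟩ : ∃ A0, A0 = 3 / 2 + (1 / 2 * c2 + r / 2 * s2) := ⟨_, rfl⟩
  obtain ⟨B0, hB0⟩ : ∃ B0, B0 = r / 2 + (1 / 2 * s2 - r / 2 * c2) := ⟨_, rfl⟩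
  obtain ⟨A1, hA1⟩ : ∃ A1, A1 = -(3 / 2) * c3 + r / 2 * s3 - 1 / 2 * c - r / 2 * s := ⟨_, rfl⟩
  obtain ⟨B1, hB1⟩ : ∃ B1, B1 = -(3 / 2) * s3 - r / 2 * c3 - 1 / 2 * s + r / 2 * c := ⟨_, rfl⟩
  rw [← hA0, ← hA1] at hx
  rw [← hB0, ← hB1] at hy
  have hRe : A0 * A1 + B0 * B1 = -3 * c3 - c := by
    rw [hA0, hB0, hA1, hB1]
    linear_combination (((c - c3) + c2 * (c3 - c) + s2 * (s3 - s)) / 4) * h3 + r * e1 - e2
  have hIm : B0 * A1 - A0 * B1 = 3 * s3 - s := by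
    rw [hA0, hB0, hA1, hB1]
    linear_combination (((s3 - s) + s2 * (c3 - c) - c2 * (s3 - s)) / 4) * h3 + r * e3 - e4
  have k1 : x * (s * (8 - 12 * s ^ 2)) = 0 := by
    have h4 : x * (B0 * A1 - A0 * B1) = 0 := by linear_combination A1 * hy - B1 * hx
    rw [hIm, u3] at h4
    linear_combination h4
  have k2 : s ^ 2 = 2 / 3 := by
    rcases mul_eq_zero.1 k1 with h | h
    · exact absurd h hx0.ne'
    · rcases mul_eq_zero.1 h with h' | h'
      · exact absurd h' hs0.ne'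
      · linarith
  have k3 : c ^ 2 = 1 / 3 := by linarith
  have k4 : -3 * c3 - c = 4 * c := by
    rw [t3]
    have : c ^ 3 = c * c ^ 2 := by ring
    rw [this, k3]
    ring
  have k5 : x * (4 * c) + y * (A1 ^ 2 + B1 ^ 2) = 0 := by
    rw [← k4, ← hRe]
    linear_combination A1 * hx + B1 * hy
  have k6 : 0 < x * (4 * c) := by positivity
  have k7 : 0 ≤ y * (A1 ^ 2 + B1 ^ 2) := by positivity
  linarith

theorem specE5 : SpecE5 := by
  rintro P ⟨hc, l01, l13, l24, l45, _, h02⟩ h05 h1 h3 h45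
  have ha := P.len_pos 0
  have hb := P.len_pos 2
  have p5 := P.ang_pos 5
  have p4 := P.ang_pos 4
  obtain ⟨hx, hy⟩ := P.close6 0
  simp only [zero_add] at hx hy
  rw [← l45, ← l24, ← l13, ← l01] at hx hy
  obtain ⟨φ, hφ⟩ : ∃ φ, φ = P.ang 4 := ⟨_, rfl⟩
  have e1 : Real.pi - P.ang 1 = Real.pi / 3 := by linarith
  have e2 : 2 * Real.pi - P.ang 1 - P.ang 2 = (3 * φ + Real.pi / 3) - Real.pi := by linarith
  have e3 : 3 * Real.pi - P.ang 1 - P.ang 2 - P.ang 3 = 2 * φ - Real.pi / 3 := by linarith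
  have e4 : 4 * Real.pi - P.ang 1 - P.ang 2 - P.ang 3 - P.ang 4 =
      (φ - Real.pi / 3) + Real.pi := by
    linarith
  have e5 : 5 * Real.pi - P.ang 1 - P.ang 2 - P.ang 3 - P.ang 4 - P.ang 5 =
      3 * φ + Real.pi := by linarith
  rw [e1, e2, e3, e4, e5] at hx hy
  rw [Real.cos_sub_pi, Real.cos_add_pi, Real.cos_add_pi, Real.cos_add, Real.cos_sub, Real.cos_sub,
    Real.cos_pi_div_three, Real.sin_pi_div_three] at hx
  rw [Real.sin_sub_pi, Real.sin_add_pi, Real.sin_add_pi, Real.sin_add, Real.sin_sub, Real.sin_sub,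
    Real.cos_pi_div_three, Real.sin_pi_div_three] at hy
  refine HPE5_trig ha hb (φ := φ) (by linarith) (by linarith) ?_ ?_
  · linear_combination hx
  · linear_combination hy

end Pool.Agent.Lib_MP_fa6e45
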