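import Pool.Agent.Lib_MP_fa6e45.HS

/-!
MP_fa6e45_co, stage 4: the special lemma `SpecF1` about hexagons.
-/

open Set MeasureTheory Complex
open scoped Topology

namespace Pool.Agent.Lib_MP_fa6e45

/-- the trigonometric part: the closing relation has no positive solution -/
private theorem HPF1_trig {a b t : ℝ} (ha : 0 < a) (hb : 0 < b) (h0 : 0 < t)
    (h1 : t < 2 * Real.pi / 3)
    (hx : a * (3 / 2 - Real.cos t) + b * (-(√3 * Real.sin t) - 1 / 2 * Real.cos (2 * t) +
      √3 / 2 * Real.sin (2 * t)) = 0)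
    (hy : a * (√3 / 2 - Real.sin t) + b * (√3 * Real.cos t - 1 / 2 * Real.sin (2 * t) -
      √3 / 2 * Real.cos (2 * t)) = 0) : False := by
  have hpi := Real.pi_pos
  have h3 : √3 * √3 = 3 := Real.mul_self_sqrt (by norm_num)
  have h3p : 0 < √3 := Real.sqrt_pos.2 (by norm_num)
  have h3l : √3 < 2 := by nlinarith
  have hC : 0 < Real.cos (t - Real.pi / 6) := by
    apply Real.cos_pos_of_mem_Ioo
    constructor <;> linarith
  have hC1 : Real.cos (t - Real.pi / 6) ≤ 1 := Real.cos_le_one _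
  have hCe : Real.cos (t - Real.pi / 6) = √3 / 2 * Real.cos t + 1 / 2 * Real.sin t := by
    rw [Real.cos_sub, Real.cos_pi_div_six, Real.sin_pi_div_six]
    ring
  rw [Real.cos_two_mul, Real.sin_two_mul] at hx hy
  have hcs := Real.sin_sq_add_cos_sq t
  rw [hCe] at hC hC1
  set c := Real.cos t
  set s := Real.sin t
  set r := √3
  set X0 := 3 / 2 - c with hX0
  set Y0 := r / 2 - s with hY0
  set X1 := -(r * s) - 1 / 2 * (2 * c ^ 2 - 1) + r / 2 * (2 * s * c) with hX1
  set Y1 := r * c - 1 / 2 * (2 * s * c) - r / 2 * (2 * c ^ 2 - 1) with hY1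
  have hD : X0 * Y1 - X1 * Y0 = 0 := by
    have h4 : b * (X0 * Y1 - X1 * Y0) = 0 := by linear_combination X0 * hy - Y0 * hx
    rcases mul_eq_zero.1 h4 with h | h
    · exact absurd h hb.ne'
    · exact h
  have hE : X0 * Y1 - X1 * Y0 = 2 * (r / 2 * c + 1 / 2 * s) * (2 - r * (r / 2 * c + 1 / 2 * s)) := by
    rw [hX0, hY0, hX1, hY1]
    linear_combination (s / 2 + s * c / 2 + r / 2 * c ^ 2) * h3 + (r * c - r / 2) * hcs
  have hF : 0 < 2 * (r / 2 * c + 1 / 2 * s) * (2 - r * (r / 2 * c + 1 / 2 * s)) := by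
    apply mul_pos
    · linarith
    · nlinarith
  rw [← hE, hD] at hF
  exact lt_irrefl _ hF

theorem specF1 : SpecF1 := by
  rintro P ⟨hc, l01, l13, l24, l45, _, h02⟩ h05 h1 h3 h45
  have ha := P.len_pos 0
  have hb := P.len_pos 2
  have p5 := P.ang_pos 5
  have p4 := P.ang_pos 4
  obtain ⟨hx, hy⟩ := P.close6 0
  simp only [zero_add] at hx hy
  rw [← l01, ← l45, ← l24] at hx hy
  rw [show P.len 3 = P.len 0 by rw [l01, l13]] at hx hy
  set t := P.ang 5
  have e1 : Real.pi - P.ang 1 = Real.pi / 3 := by linarith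
  have e2 : 2 * Real.pi - P.ang 1 - P.ang 2 = Real.pi - (Real.pi / 3 - t) := by linarith
  have e3 : 3 * Real.pi - P.ang 1 - P.ang 2 - P.ang 3 = t + Real.pi := by linarith
  have e4 : 4 * Real.pi - P.ang 1 - P.ang 2 - P.ang 3 - P.ang 4 = (Real.pi / 3 + 2 * t) + Real.pi := by
    linarith
  have e5 : 5 * Real.pi - P.ang 1 - P.ang 2 - P.ang 3 - P.ang 4 - t =
      (Real.pi / 3 + t) + 2 * Real.pi := by linarith
  rw [e1, e2, e3, e4, e5] at hx hy
  rw [Real.cos_pi_sub, Real.cos_add_pi, Real.cos_add_pi, Real.cos_add_two_pi, Real.cos_sub,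
    Real.cos_add, Real.cos_add, Real.cos_pi_div_three, Real.sin_pi_div_three] at hx
  rw [Real.sin_pi_sub, Real.sin_add_pi, Real.sin_add_pi, Real.sin_add_two_pi, Real.sin_sub,
    Real.sin_add, Real.sin_add, Real.cos_pi_div_three, Real.sin_pi_div_three] at hy
  refine HPF1_trig ha hb p5 (t := t) (by linarith) ?_ ?_
  · linear_combination hx
  · linear_combination hy

end Pool.Agent.Lib_MP_fa6e45
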