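import Pool.Agent.Lib_MP_fa6e45.HS

/-!
MP_fa6e45_co, stage 4, [HX-F2]: seen from side `1` the sides `2, 3, 4, 0` have the directions `π - b`, `2π - b - c`,
`π + c`, `b + c` with `b = ang 2`, `c = ang 3`, so the closing relation gives `sin b = sin c`, and `b + c > π`,
`b + 2c < 2π` exclude everything except `b = c`.
-/

open Set MeasureTheory Complex
open scoped Topology

namespace Pool.Agent.Lib_MP_fa6e45

theorem specF2 : SpecF2 := by
  rintro P ⟨hc, h01, h13, h24, h02⟩ h1
  have hs := P.ang_sum hc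
  have h5 : ∑ i : ZMod 5, P.ang i = P.ang 0 + P.ang 1 + P.ang 2 + P.ang 3 + P.ang 4 := by
    exact Fin.sum_univ_five (fun i : Fin 5 => P.ang (i : ZMod 5))
  rw [h5] at hs
  norm_num at hs
  have hcl := (P.close5 1).2
  have e0 : (1 : ZMod 5) + 1 = 2 := by decide
  have e1 : (1 : ZMod 5) + 2 = 3 := by decide
  have e2 : (1 : ZMod 5) + 3 = 4 := by decide
  have e3 : (1 : ZMod 5) + 4 = 0 := by decide
  rw [e0, e1, e2, e3, ← h24, ← h13, ← h01] at hcl
  have hy := P.len_pos 2
  have p1 := P.ang_pos 1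
  have p2 := P.ang_pos 2
  have p3 := P.ang_pos 3
  have p4 := P.ang_pos 4
  have hpi := Real.pi_pos
  obtain ⟨b, hb⟩ : ∃ b, b = P.ang 2 := ⟨_, rfl⟩
  obtain ⟨c, hcc⟩ : ∃ c, c = P.ang 3 := ⟨_, rfl⟩
  rw [← hb, ← hcc] at hcl hs h1 ⊢
  rw [← hb] at h02 p2
  rw [← hcc] at p3
  have ea0 : P.ang 0 = 2 * Real.pi - b := by linarith
  have ea4 : P.ang 4 = 2 * Real.pi - b - 2 * c := by linarith
  have ea1 : P.ang 1 = b + c - Real.pi := by linarith
  rw [ea0, ea4] at hcl
  rw [ea1] at p1
  rw [ea4] at p4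
  rw [show 2 * Real.pi - b - c = 2 * Real.pi - (b + c) by ring,
    show 3 * Real.pi - b - c - (2 * Real.pi - b - 2 * c) = c + Real.pi by ring,
    show 4 * Real.pi - b - c - (2 * Real.pi - b - 2 * c) - (2 * Real.pi - b) = b + c by ring,
    Real.sin_pi_sub, Real.sin_two_pi_sub, Real.sin_add_pi] at hcl
  have hk : Real.sin b - Real.sin c = 0 := by
    have h3 : P.len 2 * (Real.sin b - Real.sin c) = 0 := by linarith
    rcases mul_eq_zero.1 h3 with h4 | h4
    · exact absurd h4 hy.ne'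
    · exact h4
  have hf : Real.sin ((b - c) / 2) * Real.cos ((b + c) / 2) = 0 := by
    have e1 : Real.sin b = Real.sin ((b + c) / 2 + (b - c) / 2) := by
      rw [show (b + c) / 2 + (b - c) / 2 = b by ring]
    have e2 : Real.sin c = Real.sin ((b + c) / 2 - (b - c) / 2) := by
      rw [show (b + c) / 2 - (b - c) / 2 = c by ring]
    rw [e1, e2, Real.sin_add, Real.sin_sub] at hk
    linarith
  have hcos : Real.cos ((b + c) / 2) < 0 :=
    Real.cos_neg_of_pi_div_two_lt_of_lt (by linarith) (by linarith)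
  have hsin : Real.sin ((b - c) / 2) = 0 := by
    rcases mul_eq_zero.1 hf with h4 | h4
    · exact h4
    · exact absurd h4 hcos.ne
  have h7 := (Real.sin_eq_zero_iff_of_lt_of_lt (x := (b - c) / 2) (by linarith)
    (by linarith)).1 hsin
  linarith

end Pool.Agent.Lib_MP_fa6e45
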