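import Pool.Agent.Lib_MP_fa6e45.HS

/-!
MP_fa6e45_co, stage 4: the special lemma `SpecG2` about hexagons.
-/

open Set MeasureTheory Complex
open scoped Topology

namespace Pool.Agent.Lib_MP_fa6e45

theorem specG2 : SpecG2 := by
  intro P hE h1 h24 h23 h5
  obtain ⟨hc, l01, l13, l24, l45, -, -⟩ := hE
  have hcl := (P.close6 0).2
  simp only [zero_add] at hcl
  have a1 : P.ang 1 = Real.pi / 3 := by linarith
  have a3 : P.ang 3 = Real.pi - P.ang 2 := by linarith
  have a5 : P.ang 5 = 2 * Real.pi / 3 := by linarith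
  have e1 : Real.sin (Real.pi - P.ang 1) = Real.sin (Real.pi / 3) := by
    rw [a1, Real.sin_pi_sub]
  have e3 : Real.sin (3 * Real.pi - P.ang 1 - P.ang 2 - P.ang 3) = -Real.sin (Real.pi / 3) := by
    rw [a1, a3, show 3 * Real.pi - Real.pi / 3 - P.ang 2 - (Real.pi - P.ang 2) =
      2 * Real.pi - Real.pi / 3 by ring, Real.sin_two_pi_sub]
  have e4 : Real.sin (4 * Real.pi - P.ang 1 - P.ang 2 - P.ang 3 - P.ang 4) =
      -Real.sin (2 * Real.pi - P.ang 1 - P.ang 2) := by
    rw [← h24, a3, ← Real.sin_add_pi]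
    congr 1
    ring
  have e5 : Real.sin (5 * Real.pi - P.ang 1 - P.ang 2 - P.ang 3 - P.ang 4 - P.ang 5) =
      Real.sin (P.ang 2) := by
    rw [← h24, a3, a1, a5, show 5 * Real.pi - Real.pi / 3 - P.ang 2 - (Real.pi - P.ang 2) -
      P.ang 2 - 2 * Real.pi / 3 = (Real.pi - P.ang 2) + 2 * Real.pi by ring,
      Real.sin_add_two_pi, Real.sin_pi_sub]
  rw [e1, e3, e4, e5, ← l13, ← l45, ← l24] at hcl
  have hs : 0 < Real.sin (P.ang 2) := by
    apply Real.sin_pos_of_pos_of_lt_pi (P.ang_pos 2)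
    have := P.ang_pos 3
    linarith
  have hl := P.len_pos 2
  have := mul_pos hl hs
  linarith

end Pool.Agent.Lib_MP_fa6e45
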