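import Pool.Agent.Lib_MP_fa6e45.HS

/-!
MP_fa6e45_co, stage 4: the special lemma `SpecG4` about hexagons with five equal sides. Seen from side `5` the closing
relation is `sin p - sin (p - q) - sin q = 0` with `p = ang 4`, `q = ang 5`, and the left side is
`-4 sin ((p - q) / 2) sin (p / 2) sin (q / 2)`.
-/

open Set MeasureTheory Complex
open scoped Topology

namespace Pool.Agent.Lib_MP_fa6e45

/-- the trigonometric part -/
private theorem HPG4_trig {p q : ℝ} (hp : 0 < p) (hp2 : p < 2 * Real.pi) (hq : 0 < q)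
    (hq2 : q < 2 * Real.pi) (h : Real.sin p - Real.sin (p - q) - Real.sin q = 0) : p = q := by
  have hpi := Real.pi_pos
  have h1 : 0 < Real.sin (p / 2) := Real.sin_pos_of_pos_of_lt_pi (by linarith) (by linarith)
  have h2 : 0 < Real.sin (q / 2) := Real.sin_pos_of_pos_of_lt_pi (by linarith) (by linarith)
  have h3 : Real.sin ((p - q) / 2) * (Real.sin (p / 2) * Real.sin (q / 2)) = 0 := by
    have e1 : Real.sin p = 2 * Real.sin (p / 2) * Real.cos (p / 2) := by
      rw [← Real.sin_two_mul]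
      ring_nf
    have e2 : Real.sin q = 2 * Real.sin (q / 2) * Real.cos (q / 2) := by
      rw [← Real.sin_two_mul]
      ring_nf
    have e3 : Real.sin (p - q) = 2 * Real.sin ((p - q) / 2) * Real.cos ((p - q) / 2) := by
      rw [← Real.sin_two_mul]
      ring_nf
    have e4 : Real.sin ((p - q) / 2) =
        Real.sin (p / 2) * Real.cos (q / 2) - Real.cos (p / 2) * Real.sin (q / 2) := by
      rw [← Real.sin_sub]
      ring_nf
    have e5 : Real.cos ((p - q) / 2) =
        Real.cos (p / 2) * Real.cos (q / 2) + Real.sin (p / 2) * Real.sin (q / 2) := by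
      rw [← Real.cos_sub]
      ring_nf
    rw [e1, e2, e3, e4, e5] at h
    rw [e4]
    have c1 := Real.sin_sq_add_cos_sq (p / 2)
    have c2 := Real.sin_sq_add_cos_sq (q / 2)
    set s := Real.sin (p / 2)
    set c := Real.cos (p / 2)
    set s' := Real.sin (q / 2)
    set c' := Real.cos (q / 2)
    linear_combination (-1 / 4) * h + (s' * c' / 2) * c1 - (s * c / 2) * c2
  rcases mul_eq_zero.1 h3 with h4 | h4
  · have h5 := (Real.sin_eq_zero_iff_of_lt_of_lt (x := (p - q) / 2) (by linarith)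
      (by linarith)).1 h4
    linarith
  · exact absurd h4 (mul_pos h1 h2).ne'

theorem specG4 : SpecG4 := by
  intro P _ l01 l12 l23 l34 _ h04 h15 h24 h35
  have hcl := (P.close6 5).2
  have e1 : (5 : ZMod 6) + 1 = 0 := by decide
  have e2 : (5 : ZMod 6) + 2 = 1 := by decide
  have e3 : (5 : ZMod 6) + 3 = 2 := by decide
  have e4 : (5 : ZMod 6) + 4 = 3 := by decide
  have e5 : (5 : ZMod 6) + 5 = 4 := by decide
  rw [e1, e2, e3, e4, e5, ← l34, ← l23, ← l12, ← l01, h04, h15] at hcl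
  have hy := P.len_pos 0
  obtain ⟨p, hp⟩ : ∃ p, p = P.ang 4 := ⟨_, rfl⟩
  obtain ⟨q, hq⟩ : ∃ q, q = P.ang 5 := ⟨_, rfl⟩
  have p0 : 0 < p := hp ▸ P.ang_pos 4
  have q0 : 0 < q := hq ▸ P.ang_pos 5
  have p1 : p < 2 * Real.pi := hp ▸ P.ang_lt 4
  have q1 : q < 2 * Real.pi := hq ▸ P.ang_lt 5
  rw [← hp, ← hq] at hcl
  rw [← hp] at h24
  rw [← hq] at h35
  rw [← hp, ← hq]
  have ea2 : P.ang 2 = 2 * Real.pi - 2 * p := by linarith
  have ea3 : P.ang 3 = 2 * Real.pi - 2 * q := by linarith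
  rw [ea2, ea3] at hcl
  rw [show 2 * Real.pi - p - q = 2 * Real.pi - (p + q) by ring,
    show 3 * Real.pi - p - q - (2 * Real.pi - 2 * p) = (p - q) + Real.pi by ring,
    show 4 * Real.pi - p - q - (2 * Real.pi - 2 * p) - (2 * Real.pi - 2 * q) = p + q by ring,
    show 5 * Real.pi - p - q - (2 * Real.pi - 2 * p) - (2 * Real.pi - 2 * q) - p = q + Real.pi by
      ring,
    Real.sin_pi_sub, Real.sin_two_pi_sub, Real.sin_add_pi, Real.sin_add_pi] at hcl
  refine HPG4_trig p0 p1 q0 q1 ?_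
  have h3 : P.len 0 * (Real.sin p - Real.sin (p - q) - Real.sin q) = 0 := by linarith
  rcases mul_eq_zero.1 h3 with h4 | h4
  · exact absurd h4 hy.ne'
  · exact h4

end Pool.Agent.Lib_MP_fa6e45
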