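import Pool.Agent.Lib_MP_fa6e45.HS

/-!
MP_fa6e45_co, stage 4: the case `SpecHF`. Let `ω = exp (i ang 1)`. The closing relation factors as
`(ω ^ 2 - ω + 1) (y - x exp (i ang 2)) = 0`, so `ω ^ 2 = ω - 1`. With `X = v 1 - v 0`, `Y = v 3 - v 2` the vertices are
`v 0`, `v 0 + X`, `v 0 + ω X`, `v 0 + ω X + Y`, `v 0 + Y`, `v 0 + ω Y`. The second tile is the rotation by `ω⁻¹ = 1 - ω` about
`v 1`, the lattice is generated by `(ω - 1) Y - ω X` and `X - Y`.
-/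

open Set MeasureTheory Complex
open scoped Topology

namespace Pool.Agent.Lib_MP_fa6e45

/-- the vertices -/
private theorem HPHF_shape (P : Polygon 6) (hP : Ex6 P) (h4 : P.ang 0 + P.ang 4 = 2 * Real.pi)
    (h5 : P.ang 1 = P.ang 5) : ∃ ω X Y : ℂ, ‖ω‖ = 1 ∧ ω ^ 2 - ω + 1 = 0 ∧
    P.vertex 1 = P.vertex 0 + X ∧ P.vertex 2 = P.vertex 0 + ω * X ∧
    P.vertex 3 = P.vertex 0 + ω * X + Y ∧ P.vertex 4 = P.vertex 0 + Y ∧
    P.vertex 5 = P.vertex 0 + ω * Y := by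
  obtain ⟨_, e1, e2, e3, e4, hne, h2⟩ := hP
  obtain ⟨x, hx⟩ : ∃ x : ℝ, x = P.len 0 := ⟨_, rfl⟩
  obtain ⟨y, hy⟩ : ∃ y : ℝ, y = P.len 2 := ⟨_, rfl⟩
  have l0 : P.len 0 = x := hx.symm
  have l1 : P.len 1 = x := by rw [← e1, hx]
  have l3 : P.len 3 = x := by rw [← e2, ← e1, hx]
  have l2 : P.len 2 = y := hy.symm
  have l4 : P.len 4 = y := by rw [← e3, hy]
  have l5 : P.len 5 = y := by rw [← e4, ← e3, hy]
  have i1 : (1 : ZMod 6) - 1 = 0 := by decide
  have i2 : (2 : ZMod 6) - 1 = 1 := by decide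
  have i3 : (3 : ZMod 6) - 1 = 2 := by decide
  have i4 : (4 : ZMod 6) - 1 = 3 := by decide
  have i5 : (5 : ZMod 6) - 1 = 4 := by decide
  have i0 : (0 : ZMod 6) - 1 = 5 := by decide
  have j0 : (0 : ZMod 6) + 1 = 1 := by decide
  have j1 : (1 : ZMod 6) + 1 = 2 := by decide
  have j2 : (2 : ZMod 6) + 1 = 3 := by decide
  have j3 : (3 : ZMod 6) + 1 = 4 := by decide
  have j4 : (4 : ZMod 6) + 1 = 5 := by decide
  have j5 : (5 : ZMod 6) + 1 = 0 := by decide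
  have t0 := P.dr_turn 0
  have t1 := P.dr_turn 1
  have t2 := P.dr_turn 2
  have t3 := P.dr_turn 3
  have t4 := P.dr_turn 4
  have t5 := P.dr_turn 5
  rw [i0] at t0
  rw [i1] at t1
  rw [i2] at t2
  rw [i3] at t3
  rw [i4] at t4
  rw [i5, ← h5] at t5
  have d0 := P.dr_len 0
  have d1 := P.dr_len 1
  have d2 := P.dr_len 2
  have d3 := P.dr_len 3
  have d4 := P.dr_len 4
  have d5 := P.dr_len 5
  rw [j0, l0] at d0
  rw [j1, l1] at d1
  rw [j2, l2] at d2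
  rw [j3, l3] at d3
  rw [j4, l4] at d4
  rw [j5, l5] at d5
  obtain ⟨ω, hω⟩ : ∃ ω : ℂ, ω = exp ((P.ang 1 : ℂ) * Complex.I) := ⟨_, rfl⟩
  obtain ⟨A, hA⟩ : ∃ A : ℂ, A = exp ((P.ang 2 : ℂ) * Complex.I) := ⟨_, rfl⟩
  have hA4 : exp ((P.ang 4 : ℂ) * Complex.I) = A := by
    rw [hA]
    congr 3
    linarith
  have hA0 : exp ((P.ang 0 : ℂ) * Complex.I) * A = 1 := by
    rw [hA, ← Complex.exp_add, ← add_mul]
    have h : ((P.ang 0 : ℂ) + (P.ang 2 : ℂ)) = 2 * Real.pi := by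
      exact_mod_cast h2
    rw [h, Complex.exp_two_pi_mul_I]
  obtain ⟨B, hB⟩ : ∃ B : ℂ, B = exp ((P.ang 0 : ℂ) * Complex.I) := ⟨_, rfl⟩
  rw [← hB] at t0 hA0
  rw [← hω] at t1 t5
  rw [← hA] at t2
  rw [hA4] at t4
  have hωn : ‖ω‖ = 1 := by
    rw [hω]
    exact Complex.norm_exp_ofReal_mul_I _
  have hAn : ‖A‖ = 1 := by
    rw [hA]
    exact Complex.norm_exp_ofReal_mul_I _
  obtain ⟨D, hD⟩ : ∃ D : ℂ, D = P.dr 2 := ⟨_, rfl⟩
  have hD0 : D ≠ 0 := by
    rw [hD]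
    exact P.dr_ne 2
  rw [← hD] at t2 t3 d2
  -- the directions
  have f1 : P.dr 1 = -(A * D) := by linear_combination t2
  have f0 : P.dr 0 = ω * (A * D) := by
    rw [f1] at t1
    linear_combination t1
  have f5 : P.dr 5 = -(ω * D) := by
    rw [f0] at t0
    linear_combination t0 - ω * D * hA0
  have f4 : P.dr 4 = ω ^ 2 * D := by
    rw [f5] at t5
    linear_combination t5
  have f3 : P.dr 3 = -(A * ω ^ 2 * D) := by
    rw [f4] at t4
    linear_combination t4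
  rw [f0] at d0
  rw [f1] at d1
  rw [f3] at d3
  rw [f4] at d4
  rw [f5] at d5
  have hcl : (ω ^ 2 - ω + 1) * ((y : ℂ) - x * A) = 0 := by
    have h : (ω ^ 2 - ω + 1) * ((y : ℂ) - x * A) * D = 0 := by
      linear_combination -(d0 + d1 + d2 + d3 + d4 + d5)
    exact (mul_eq_zero.mp h).resolve_right hD0
  have hyx : (y : ℂ) - x * A ≠ 0 := by
    intro h
    have h6 : (y : ℂ) = x * A := sub_eq_zero.mp h
    have h7 := congrArg norm h6
    have hx0 : 0 < x := by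
      rw [hx]
      exact P.len_pos 0
    have hy0 : 0 < y := by
      rw [hy]
      exact P.len_pos 2
    rw [norm_mul, hAn, mul_one, Complex.norm_real, Complex.norm_real,
      Real.norm_of_nonneg hx0.le, Real.norm_of_nonneg hy0.le] at h7
    exact hne (by rw [← hx, ← hy, h7])
  have hq : ω ^ 2 - ω + 1 = 0 := (mul_eq_zero.mp hcl).resolve_right hyx
  refine ⟨ω, x * (ω * (A * D)), y * D, hωn, hq, ?_, ?_, ?_, ?_, ?_⟩
  · linear_combination d0
  · linear_combination d0 + d1 - (x : ℂ) * (A * D) * hq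
  · linear_combination d0 + d1 + d2 - (x : ℂ) * (A * D) * hq
  · linear_combination d0 + d1 + d2 + d3 - (x : ℂ) * (A * D) * hq
  · linear_combination d0 + d1 + d2 + d3 + d4 + (-(x : ℂ) * (A * D) + y * D) * hq

theorem specHF : SpecHF := by
  intro P hP h4 h5
  obtain ⟨ω, X, Y, hn, hω, v1, v2, v3, v4, v5⟩ := HPHF_shape P hP h4 h5
  obtain ⟨V, hV⟩ : ∃ V : ℂ, V = P.vertex 0 := ⟨_, rfl⟩
  have v0 : P.vertex 0 = V := hV.symm
  rw [v0] at v1 v2 v3 v4 v5
  have hn' : ‖1 - ω‖ = 1 := by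
    have h : ω * (1 - ω) = 1 := by linear_combination -hω
    have h2 := congrArg norm h
    rw [norm_mul, hn, one_mul, norm_one] at h2
    exact h2
  have j0 : (0 : ZMod 6) + 1 = 1 := by decide
  have j1 : (1 : ZMod 6) + 1 = 2 := by decide
  have j2 : (2 : ZMod 6) + 1 = 3 := by decide
  have j3 : (3 : ZMod 6) + 1 = 4 := by decide
  have j4 : (4 : ZMod 6) + 1 = 5 := by decide
  have j5 : (5 : ZMod 6) + 1 = 0 := by decide
  obtain ⟨g, hg⟩ : ∃ g : Fin 2 → Mo, g = ![⟨1, 0, false, norm_one⟩, ⟨1 - ω, ω * (V + X), false, hn'⟩] :=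
    ⟨_, rfl⟩
  have s0 : ∀ j, tsrc P g (0, j) = P.vertex j := by
    intro j
    rw [hg]
    simp [tsrc, Mo.app, Mo.lin]
  have r0 : ∀ j, ttgt P g (0, j) = P.vertex (j + 1) := by
    intro j
    rw [hg]
    simp [ttgt, Mo.app, Mo.lin]
  have s1 : ∀ j, tsrc P g (1, j) = (1 - ω) * P.vertex j + ω * (V + X) := by
    intro j
    rw [hg]
    simp [tsrc, Mo.app, Mo.lin]
  have r1 : ∀ j, ttgt P g (1, j) = (1 - ω) * P.vertex (j + 1) + ω * (V + X) := by
    intro j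
    rw [hg]
    simp [ttgt, Mo.app, Mo.lin]
  refine kcrit P hP.1 (k := 2) (by norm_num) g ((ω - 1) * Y - ω * X) (X - Y)
    [((0, 0), (1, 3), (1, 0)), ((0, 1), (1, 0), (0, 0)), ((0, 2), (1, 5), (0, 0)),
      ((0, 3), (1, 1), (0, -1)), ((0, 4), (1, 2), (1, -1)), ((0, 5), (1, 4), (1, 0))]
    (by decide) rfl ?_ ?_ ?_
  · simp only [List.mem_cons, List.not_mem_nil, or_false, forall_eq_or_imp, forall_eq, s0, r0, s1,
      r1, j0, j1, j2, j3, j4, j5, v0, v1, v2, v3, v4, v5, lv, Int.cast_zero, Int.cast_one,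
      Int.cast_neg]
    refine ⟨⟨?_, ?_⟩, ⟨?_, ?_⟩, ⟨?_, ?_⟩, ⟨?_, ?_⟩, ⟨?_, ?_⟩, ⟨?_, ?_⟩⟩
    · linear_combination -X * hω
    · ring
    · ring
    · ring
    · linear_combination -Y * hω
    · ring
    · ring
    · linear_combination -X * hω
    · linear_combination -X * hω
    · linear_combination -X * hω
    · ring
    · linear_combination -Y * hω
  · simp only [List.map_cons, List.map_nil, List.sum_cons, List.sum_nil, s0, r0, j0, j1, j2, j3,
      j4, j5, v0, v1, v2, v3, v4, v5, Int.cast_zero, Int.cast_one]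
    ring
  · simp only [List.map_cons, List.map_nil, List.sum_cons, List.sum_nil, s0, r0, j0, j1, j2, j3,
      j4, j5, v0, v1, v2, v3, v4, v5, Int.cast_zero, Int.cast_one, Int.cast_neg]
    ring

end Pool.Agent.Lib_MP_fa6e45
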