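import Pool.Agent.Lib_MP_fa6e45.HS

/-!
MP_fa6e45_co, stage 4: the special lemma `SpecL1` about pentagons (gluing table, generated).
-/

open Set MeasureTheory Complex
open scoped Topology

namespace Pool.Agent.Lib_MP_fa6e45

private theorem l1_z {p q A0 A1 c0 c1 : ℂ} (h0 : c0 = 0) (h1 : c1 = 0)
    (h : p - q = A0 * c0 + A1 * c1) : p = q := by
  rw [h0, h1] at h
  exact sub_eq_zero.1 (by rw [h]; ring)


private noncomputable def l1_m0 (x y z s m V W : ℂ) (nx : ‖x‖ = 1) (ny : ‖y‖ = 1) (nz : ‖z‖ = 1) :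
    Mo where
  a := 1
  b := 0 - (1) * V
  rf := false
  ha := by simp [nx, ny, nz]

private noncomputable def l1_m1 (x y z s m V W : ℂ) (nx : ‖x‖ = 1) (ny : ‖y‖ = 1) (nz : ‖z‖ = 1) :
    Mo where
  a := -(x ^ 2)
  b := s * (-(x ^ 2 / z)) - (-(x ^ 2)) * W
  rf := true
  ha := by simp [nx, ny, nz]

private noncomputable def l1_m2 (x y z s m V W : ℂ) (nx : ‖x‖ = 1) (ny : ‖y‖ = 1) (nz : ‖z‖ = 1) :
    Mo where
  a := y / z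
  b := s * (x ^ 2 * y / z ^ 2 - x ^ 2 / z + y ^ 3 / z ^ 2 - y ^ 2 / z - y + z) - (y / z) * V
  rf := false
  ha := by simp [nx, ny, nz]

private noncomputable def l1_m3 (x y z s m V W : ℂ) (nx : ‖x‖ = 1) (ny : ‖y‖ = 1) (nz : ‖z‖ = 1) :
    Mo where
  a := x ^ 2 * y / z
  b := s * (-(x ^ 2 * y / z ^ 2) - 2 * x ^ 2 / z + x ^ 2 / y + y + z) - (x ^ 2 * y / z) * W
  rf := true
  ha := by simp [nx, ny, nz]

private noncomputable def l1_m4 (x y z s m V W : ℂ) (nx : ‖x‖ = 1) (ny : ‖y‖ = 1) (nz : ‖z‖ = 1) :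
    Mo where
  a := -(x ^ 2 * y / z)
  b := s * (x ^ 2 * y / z ^ 2 - 2 * x ^ 2 / z - x ^ 2 / y + x ^ 2 * z / y ^ 2 - y + z) - (-(x ^ 2 * y / z)) * W
  rf := true
  ha := by simp [nx, ny, nz]

private noncomputable def l1_m5 (x y z s m V W : ℂ) (nx : ‖x‖ = 1) (ny : ‖y‖ = 1) (nz : ‖z‖ = 1) :
    Mo where
  a := x ^ 2
  b := s * (-(2 * x ^ 2 / z) - x ^ 2 / y + x ^ 2 * z / y ^ 2 - y ^ 2 / z + y + 2 * z) - (x ^ 2) * W
  rf := true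
  ha := by simp [nx, ny, nz]

private noncomputable def l1_m6 (x y z s m V W : ℂ) (nx : ‖x‖ = 1) (ny : ‖y‖ = 1) (nz : ‖z‖ = 1) :
    Mo where
  a := -(1)
  b := s * (-(x ^ 2 / z)) - (-(1)) * V
  rf := false
  ha := by simp [nx, ny, nz]

private noncomputable def l1_m7 (x y z s m V W : ℂ) (nx : ‖x‖ = 1) (ny : ‖y‖ = 1) (nz : ‖z‖ = 1) :
    Mo where
  a := -(y / z)
  b := s * (-(x ^ 2 * y / z ^ 2) - x ^ 2 / z - y ^ 2 / z + y + z) - (-(y / z)) * V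
  rf := false
  ha := by simp [nx, ny, nz]

private noncomputable def l1_g (x y z s m V W : ℂ) (nx : ‖x‖ = 1) (ny : ‖y‖ = 1) (nz : ‖z‖ = 1) :
    Fin 8 → Mo :=
  ![l1_m0 x y z s m V W nx ny nz, l1_m1 x y z s m V W nx ny nz, l1_m2 x y z s m V W nx ny nz, l1_m3 x y z s m V W nx ny nz, l1_m4 x y z s m V W nx ny nz, l1_m5 x y z s m V W nx ny nz, l1_m6 x y z s m V W nx ny nz, l1_m7 x y z s m V W nx ny nz]

private theorem l1_p0_0 (x y z s m V W : ℂ) (nx : ‖x‖ = 1) (ny : ‖y‖ = 1) (nz : ‖z‖ = 1) {P : Polygon 5}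
    (v0 : P.vertex 0 = V)
    (hx : x ≠ 0) (hy : y ≠ 0) (hz : z ≠ 0) : (l1_g x y z s m V W nx ny nz 0).app (P.vertex 0) =
    0 := by
  change (1) * P.vertex 0 + (0 - (1) * V) = _
  rw [v0]
  (try field_simp) <;> ring

private theorem l1_p0_1 (x y z s m V W : ℂ) (nx : ‖x‖ = 1) (ny : ‖y‖ = 1) (nz : ‖z‖ = 1) {P : Polygon 5}
    (v1 : P.vertex 1 = V + s * (-(x ^ 2 / z)))
    (hx : x ≠ 0) (hy : y ≠ 0) (hz : z ≠ 0) : (l1_g x y z s m V W nx ny nz 0).app (P.vertex 1) =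
    s * (-(x ^ 2 / z)) := by
  change (1) * P.vertex 1 + (0 - (1) * V) = _
  rw [v1]
  (try field_simp) <;> ring

private theorem l1_p0_2 (x y z s m V W : ℂ) (nx : ‖x‖ = 1) (ny : ‖y‖ = 1) (nz : ‖z‖ = 1) {P : Polygon 5}
    (v2 : P.vertex 2 = V + s * (-(x ^ 2 / z) + z))
    (hx : x ≠ 0) (hy : y ≠ 0) (hz : z ≠ 0) : (l1_g x y z s m V W nx ny nz 0).app (P.vertex 2) =
    s * (-(x ^ 2 / z) + z) := by
  change (1) * P.vertex 2 + (0 - (1) * V) = _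
  rw [v2]
  (try field_simp) <;> ring

private theorem l1_p0_3 (x y z s m V W : ℂ) (nx : ‖x‖ = 1) (ny : ‖y‖ = 1) (nz : ‖z‖ = 1) {P : Polygon 5}
    (v3 : P.vertex 3 = V + s * (-(x ^ 2 / z) - y ^ 2 / z + z))
    (hx : x ≠ 0) (hy : y ≠ 0) (hz : z ≠ 0) : (l1_g x y z s m V W nx ny nz 0).app (P.vertex 3) =
    s * (-(x ^ 2 / z) - y ^ 2 / z + z) := by
  change (1) * P.vertex 3 + (0 - (1) * V) = _
  rw [v3]
  (try field_simp) <;> ring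

private theorem l1_p0_4 (x y z s m V W : ℂ) (nx : ‖x‖ = 1) (ny : ‖y‖ = 1) (nz : ‖z‖ = 1) {P : Polygon 5}
    (v4 : P.vertex 4 = V + s * (-(x ^ 2 / z) - y ^ 2 / z + y + z))
    (hx : x ≠ 0) (hy : y ≠ 0) (hz : z ≠ 0) : (l1_g x y z s m V W nx ny nz 0).app (P.vertex 4) =
    s * (-(x ^ 2 / z) - y ^ 2 / z + y + z) := by
  change (1) * P.vertex 4 + (0 - (1) * V) = _
  rw [v4]
  (try field_simp) <;> ring

private theorem l1_p1_0 (x y z s m V W : ℂ) (nx : ‖x‖ = 1) (ny : ‖y‖ = 1) (nz : ‖z‖ = 1) {P : Polygon 5}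
    (w0 : (starRingEnd ℂ) (P.vertex 0) = W)
    (hx : x ≠ 0) (hy : y ≠ 0) (hz : z ≠ 0) : (l1_g x y z s m V W nx ny nz 1).app (P.vertex 0) =
    s * (-(x ^ 2 / z)) := by
  change (-(x ^ 2)) * (starRingEnd ℂ) (P.vertex 0) + (s * (-(x ^ 2 / z)) - (-(x ^ 2)) * W) = _
  rw [w0]
  (try field_simp) <;> ring

private theorem l1_p1_1 (x y z s m V W : ℂ) (nx : ‖x‖ = 1) (ny : ‖y‖ = 1) (nz : ‖z‖ = 1) {P : Polygon 5}
    (w1 : (starRingEnd ℂ) (P.vertex 1) = W + s * (-(z / x ^ 2)))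
    (hx : x ≠ 0) (hy : y ≠ 0) (hz : z ≠ 0) : (l1_g x y z s m V W nx ny nz 1).app (P.vertex 1) =
    s * (-(x ^ 2 / z) + z) := by
  change (-(x ^ 2)) * (starRingEnd ℂ) (P.vertex 1) + (s * (-(x ^ 2 / z)) - (-(x ^ 2)) * W) = _
  rw [w1]
  (try field_simp) <;> ring

private theorem l1_p1_2 (x y z s m V W : ℂ) (nx : ‖x‖ = 1) (ny : ‖y‖ = 1) (nz : ‖z‖ = 1) {P : Polygon 5}
    (w2 : (starRingEnd ℂ) (P.vertex 2) = W + s * (1 / z - z / x ^ 2))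
    (hx : x ≠ 0) (hy : y ≠ 0) (hz : z ≠ 0) : (l1_g x y z s m V W nx ny nz 1).app (P.vertex 2) =
    s * (-(2 * x ^ 2 / z) + z) := by
  change (-(x ^ 2)) * (starRingEnd ℂ) (P.vertex 2) + (s * (-(x ^ 2 / z)) - (-(x ^ 2)) * W) = _
  rw [w2]
  (try field_simp) <;> ring

private theorem l1_p1_3 (x y z s m V W : ℂ) (nx : ‖x‖ = 1) (ny : ‖y‖ = 1) (nz : ‖z‖ = 1) {P : Polygon 5}
    (w3 : (starRingEnd ℂ) (P.vertex 3) = W + s * (1 / z - z / y ^ 2 - z / x ^ 2))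
    (hx : x ≠ 0) (hy : y ≠ 0) (hz : z ≠ 0) : (l1_g x y z s m V W nx ny nz 1).app (P.vertex 3) =
    s * (-(2 * x ^ 2 / z) + x ^ 2 * z / y ^ 2 + z) := by
  change (-(x ^ 2)) * (starRingEnd ℂ) (P.vertex 3) + (s * (-(x ^ 2 / z)) - (-(x ^ 2)) * W) = _
  rw [w3]
  (try field_simp) <;> ring

private theorem l1_p1_4 (x y z s m V W : ℂ) (nx : ‖x‖ = 1) (ny : ‖y‖ = 1) (nz : ‖z‖ = 1) {P : Polygon 5}
    (w4 : (starRingEnd ℂ) (P.vertex 4) = W + s * (1 / z + 1 / y - z / y ^ 2 - z / x ^ 2))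
    (hx : x ≠ 0) (hy : y ≠ 0) (hz : z ≠ 0) : (l1_g x y z s m V W nx ny nz 1).app (P.vertex 4) =
    s * (-(2 * x ^ 2 / z) - x ^ 2 / y + x ^ 2 * z / y ^ 2 + z) := by
  change (-(x ^ 2)) * (starRingEnd ℂ) (P.vertex 4) + (s * (-(x ^ 2 / z)) - (-(x ^ 2)) * W) = _
  rw [w4]
  (try field_simp) <;> ring

private theorem l1_p2_0 (x y z s m V W : ℂ) (nx : ‖x‖ = 1) (ny : ‖y‖ = 1) (nz : ‖z‖ = 1) {P : Polygon 5}
    (v0 : P.vertex 0 = V)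
    (hx : x ≠ 0) (hy : y ≠ 0) (hz : z ≠ 0) : (l1_g x y z s m V W nx ny nz 2).app (P.vertex 0) =
    s * (x ^ 2 * y / z ^ 2 - x ^ 2 / z + y ^ 3 / z ^ 2 - y ^ 2 / z - y + z) := by
  change (y / z) * P.vertex 0 + (s * (x ^ 2 * y / z ^ 2 - x ^ 2 / z + y ^ 3 / z ^ 2 - y ^ 2 / z - y + z) - (y / z) * V) = _
  rw [v0]
  (try field_simp) <;> ring

private theorem l1_p2_1 (x y z s m V W : ℂ) (nx : ‖x‖ = 1) (ny : ‖y‖ = 1) (nz : ‖z‖ = 1) {P : Polygon 5}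
    (v1 : P.vertex 1 = V + s * (-(x ^ 2 / z)))
    (hx : x ≠ 0) (hy : y ≠ 0) (hz : z ≠ 0) : (l1_g x y z s m V W nx ny nz 2).app (P.vertex 1) =
    s * (-(x ^ 2 / z) + y ^ 3 / z ^ 2 - y ^ 2 / z - y + z) := by
  change (y / z) * P.vertex 1 + (s * (x ^ 2 * y / z ^ 2 - x ^ 2 / z + y ^ 3 / z ^ 2 - y ^ 2 / z - y + z) - (y / z) * V) = _
  rw [v1]
  (try field_simp) <;> ring

private theorem l1_p2_2 (x y z s m V W : ℂ) (nx : ‖x‖ = 1) (ny : ‖y‖ = 1) (nz : ‖z‖ = 1) {P : Polygon 5}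
    (v2 : P.vertex 2 = V + s * (-(x ^ 2 / z) + z))
    (hx : x ≠ 0) (hy : y ≠ 0) (hz : z ≠ 0) : (l1_g x y z s m V W nx ny nz 2).app (P.vertex 2) =
    s * (-(x ^ 2 / z) + y ^ 3 / z ^ 2 - y ^ 2 / z + z) := by
  change (y / z) * P.vertex 2 + (s * (x ^ 2 * y / z ^ 2 - x ^ 2 / z + y ^ 3 / z ^ 2 - y ^ 2 / z - y + z) - (y / z) * V) = _
  rw [v2]
  (try field_simp) <;> ring

private theorem l1_p2_3 (x y z s m V W : ℂ) (nx : ‖x‖ = 1) (ny : ‖y‖ = 1) (nz : ‖z‖ = 1) {P : Polygon 5}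
    (v3 : P.vertex 3 = V + s * (-(x ^ 2 / z) - y ^ 2 / z + z))
    (hx : x ≠ 0) (hy : y ≠ 0) (hz : z ≠ 0) : (l1_g x y z s m V W nx ny nz 2).app (P.vertex 3) =
    s * (-(x ^ 2 / z) - y ^ 2 / z + z) := by
  change (y / z) * P.vertex 3 + (s * (x ^ 2 * y / z ^ 2 - x ^ 2 / z + y ^ 3 / z ^ 2 - y ^ 2 / z - y + z) - (y / z) * V) = _
  rw [v3]
  (try field_simp) <;> ring

private theorem l1_p2_4 (x y z s m V W : ℂ) (nx : ‖x‖ = 1) (ny : ‖y‖ = 1) (nz : ‖z‖ = 1) {P : Polygon 5}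
    (v4 : P.vertex 4 = V + s * (-(x ^ 2 / z) - y ^ 2 / z + y + z))
    (hx : x ≠ 0) (hy : y ≠ 0) (hz : z ≠ 0) : (l1_g x y z s m V W nx ny nz 2).app (P.vertex 4) =
    s * (-(x ^ 2 / z) + z) := by
  change (y / z) * P.vertex 4 + (s * (x ^ 2 * y / z ^ 2 - x ^ 2 / z + y ^ 3 / z ^ 2 - y ^ 2 / z - y + z) - (y / z) * V) = _
  rw [v4]
  (try field_simp) <;> ring

private theorem l1_p3_0 (x y z s m V W : ℂ) (nx : ‖x‖ = 1) (ny : ‖y‖ = 1) (nz : ‖z‖ = 1) {P : Polygon 5}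
    (w0 : (starRingEnd ℂ) (P.vertex 0) = W)
    (hx : x ≠ 0) (hy : y ≠ 0) (hz : z ≠ 0) : (l1_g x y z s m V W nx ny nz 3).app (P.vertex 0) =
    s * (-(x ^ 2 * y / z ^ 2) - 2 * x ^ 2 / z + x ^ 2 / y + y + z) := by
  change (x ^ 2 * y / z) * (starRingEnd ℂ) (P.vertex 0) + (s * (-(x ^ 2 * y / z ^ 2) - 2 * x ^ 2 / z + x ^ 2 / y + y + z) - (x ^ 2 * y / z) * W) = _
  rw [w0]
  (try field_simp) <;> ring

private theorem l1_p3_1 (x y z s m V W : ℂ) (nx : ‖x‖ = 1) (ny : ‖y‖ = 1) (nz : ‖z‖ = 1) {P : Polygon 5}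
    (w1 : (starRingEnd ℂ) (P.vertex 1) = W + s * (-(z / x ^ 2)))
    (hx : x ≠ 0) (hy : y ≠ 0) (hz : z ≠ 0) : (l1_g x y z s m V W nx ny nz 3).app (P.vertex 1) =
    s * (-(x ^ 2 * y / z ^ 2) - 2 * x ^ 2 / z + x ^ 2 / y + z) := by
  change (x ^ 2 * y / z) * (starRingEnd ℂ) (P.vertex 1) + (s * (-(x ^ 2 * y / z ^ 2) - 2 * x ^ 2 / z + x ^ 2 / y + y + z) - (x ^ 2 * y / z) * W) = _
  rw [w1]
  (try field_simp) <;> ring

private theorem l1_p3_2 (x y z s m V W : ℂ) (nx : ‖x‖ = 1) (ny : ‖y‖ = 1) (nz : ‖z‖ = 1) {P : Polygon 5}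
    (w2 : (starRingEnd ℂ) (P.vertex 2) = W + s * (1 / z - z / x ^ 2))
    (hx : x ≠ 0) (hy : y ≠ 0) (hz : z ≠ 0) : (l1_g x y z s m V W nx ny nz 3).app (P.vertex 2) =
    s * (-(2 * x ^ 2 / z) + x ^ 2 / y + z) := by
  change (x ^ 2 * y / z) * (starRingEnd ℂ) (P.vertex 2) + (s * (-(x ^ 2 * y / z ^ 2) - 2 * x ^ 2 / z + x ^ 2 / y + y + z) - (x ^ 2 * y / z) * W) = _
  rw [w2]
  (try field_simp) <;> ring

private theorem l1_p3_3 (x y z s m V W : ℂ) (nx : ‖x‖ = 1) (ny : ‖y‖ = 1) (nz : ‖z‖ = 1) {P : Polygon 5}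
    (w3 : (starRingEnd ℂ) (P.vertex 3) = W + s * (1 / z - z / y ^ 2 - z / x ^ 2))
    (hx : x ≠ 0) (hy : y ≠ 0) (hz : z ≠ 0) : (l1_g x y z s m V W nx ny nz 3).app (P.vertex 3) =
    s * (-(2 * x ^ 2 / z) + z) := by
  change (x ^ 2 * y / z) * (starRingEnd ℂ) (P.vertex 3) + (s * (-(x ^ 2 * y / z ^ 2) - 2 * x ^ 2 / z + x ^ 2 / y + y + z) - (x ^ 2 * y / z) * W) = _
  rw [w3]
  (try field_simp) <;> ring

private theorem l1_p3_4 (x y z s m V W : ℂ) (nx : ‖x‖ = 1) (ny : ‖y‖ = 1) (nz : ‖z‖ = 1) {P : Polygon 5}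
    (w4 : (starRingEnd ℂ) (P.vertex 4) = W + s * (1 / z + 1 / y - z / y ^ 2 - z / x ^ 2))
    (hx : x ≠ 0) (hy : y ≠ 0) (hz : z ≠ 0) : (l1_g x y z s m V W nx ny nz 3).app (P.vertex 4) =
    s * (-(x ^ 2 / z) + z) := by
  change (x ^ 2 * y / z) * (starRingEnd ℂ) (P.vertex 4) + (s * (-(x ^ 2 * y / z ^ 2) - 2 * x ^ 2 / z + x ^ 2 / y + y + z) - (x ^ 2 * y / z) * W) = _
  rw [w4]
  (try field_simp) <;> ring

private theorem l1_p4_0 (x y z s m V W : ℂ) (nx : ‖x‖ = 1) (ny : ‖y‖ = 1) (nz : ‖z‖ = 1) {P : Polygon 5}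
    (w0 : (starRingEnd ℂ) (P.vertex 0) = W)
    (hx : x ≠ 0) (hy : y ≠ 0) (hz : z ≠ 0) : (l1_g x y z s m V W nx ny nz 4).app (P.vertex 0) =
    s * (x ^ 2 * y / z ^ 2 - 2 * x ^ 2 / z - x ^ 2 / y + x ^ 2 * z / y ^ 2 - y + z) := by
  change (-(x ^ 2 * y / z)) * (starRingEnd ℂ) (P.vertex 0) + (s * (x ^ 2 * y / z ^ 2 - 2 * x ^ 2 / z - x ^ 2 / y + x ^ 2 * z / y ^ 2 - y + z) - (-(x ^ 2 * y / z)) * W) = _
  rw [w0]
  (try field_simp) <;> ring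

private theorem l1_p4_1 (x y z s m V W : ℂ) (nx : ‖x‖ = 1) (ny : ‖y‖ = 1) (nz : ‖z‖ = 1) {P : Polygon 5}
    (w1 : (starRingEnd ℂ) (P.vertex 1) = W + s * (-(z / x ^ 2)))
    (hx : x ≠ 0) (hy : y ≠ 0) (hz : z ≠ 0) : (l1_g x y z s m V W nx ny nz 4).app (P.vertex 1) =
    s * (x ^ 2 * y / z ^ 2 - 2 * x ^ 2 / z - x ^ 2 / y + x ^ 2 * z / y ^ 2 + z) := by
  change (-(x ^ 2 * y / z)) * (starRingEnd ℂ) (P.vertex 1) + (s * (x ^ 2 * y / z ^ 2 - 2 * x ^ 2 / z - x ^ 2 / y + x ^ 2 * z / y ^ 2 - y + z) - (-(x ^ 2 * y / z)) * W) = _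
  rw [w1]
  (try field_simp) <;> ring

private theorem l1_p4_2 (x y z s m V W : ℂ) (nx : ‖x‖ = 1) (ny : ‖y‖ = 1) (nz : ‖z‖ = 1) {P : Polygon 5}
    (w2 : (starRingEnd ℂ) (P.vertex 2) = W + s * (1 / z - z / x ^ 2))
    (hx : x ≠ 0) (hy : y ≠ 0) (hz : z ≠ 0) : (l1_g x y z s m V W nx ny nz 4).app (P.vertex 2) =
    s * (-(2 * x ^ 2 / z) - x ^ 2 / y + x ^ 2 * z / y ^ 2 + z) := by
  change (-(x ^ 2 * y / z)) * (starRingEnd ℂ) (P.vertex 2) + (s * (x ^ 2 * y / z ^ 2 - 2 * x ^ 2 / z - x ^ 2 / y + x ^ 2 * z / y ^ 2 - y + z) - (-(x ^ 2 * y / z)) * W) = _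
  rw [w2]
  (try field_simp) <;> ring

private theorem l1_p4_3 (x y z s m V W : ℂ) (nx : ‖x‖ = 1) (ny : ‖y‖ = 1) (nz : ‖z‖ = 1) {P : Polygon 5}
    (w3 : (starRingEnd ℂ) (P.vertex 3) = W + s * (1 / z - z / y ^ 2 - z / x ^ 2))
    (hx : x ≠ 0) (hy : y ≠ 0) (hz : z ≠ 0) : (l1_g x y z s m V W nx ny nz 4).app (P.vertex 3) =
    s * (-(2 * x ^ 2 / z) + x ^ 2 * z / y ^ 2 + z) := by
  change (-(x ^ 2 * y / z)) * (starRingEnd ℂ) (P.vertex 3) + (s * (x ^ 2 * y / z ^ 2 - 2 * x ^ 2 / z - x ^ 2 / y + x ^ 2 * z / y ^ 2 - y + z) - (-(x ^ 2 * y / z)) * W) = _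
  rw [w3]
  (try field_simp) <;> ring

private theorem l1_p4_4 (x y z s m V W : ℂ) (nx : ‖x‖ = 1) (ny : ‖y‖ = 1) (nz : ‖z‖ = 1) {P : Polygon 5}
    (w4 : (starRingEnd ℂ) (P.vertex 4) = W + s * (1 / z + 1 / y - z / y ^ 2 - z / x ^ 2))
    (hx : x ≠ 0) (hy : y ≠ 0) (hz : z ≠ 0) : (l1_g x y z s m V W nx ny nz 4).app (P.vertex 4) =
    s * (-(3 * x ^ 2 / z) + x ^ 2 * z / y ^ 2 + z) := by
  change (-(x ^ 2 * y / z)) * (starRingEnd ℂ) (P.vertex 4) + (s * (x ^ 2 * y / z ^ 2 - 2 * x ^ 2 / z - x ^ 2 / y + x ^ 2 * z / y ^ 2 - y + z) - (-(x ^ 2 * y / z)) * W) = _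
  rw [w4]
  (try field_simp) <;> ring

private theorem l1_p5_0 (x y z s m V W : ℂ) (nx : ‖x‖ = 1) (ny : ‖y‖ = 1) (nz : ‖z‖ = 1) {P : Polygon 5}
    (w0 : (starRingEnd ℂ) (P.vertex 0) = W)
    (hx : x ≠ 0) (hy : y ≠ 0) (hz : z ≠ 0) : (l1_g x y z s m V W nx ny nz 5).app (P.vertex 0) =
    s * (-(2 * x ^ 2 / z) - x ^ 2 / y + x ^ 2 * z / y ^ 2 - y ^ 2 / z + y + 2 * z) := by
  change (x ^ 2) * (starRingEnd ℂ) (P.vertex 0) + (s * (-(2 * x ^ 2 / z) - x ^ 2 / y + x ^ 2 * z / y ^ 2 - y ^ 2 / z + y + 2 * z) - (x ^ 2) * W) = _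
  rw [w0]
  (try field_simp) <;> ring

private theorem l1_p5_1 (x y z s m V W : ℂ) (nx : ‖x‖ = 1) (ny : ‖y‖ = 1) (nz : ‖z‖ = 1) {P : Polygon 5}
    (w1 : (starRingEnd ℂ) (P.vertex 1) = W + s * (-(z / x ^ 2)))
    (hx : x ≠ 0) (hy : y ≠ 0) (hz : z ≠ 0) : (l1_g x y z s m V W nx ny nz 5).app (P.vertex 1) =
    s * (-(2 * x ^ 2 / z) - x ^ 2 / y + x ^ 2 * z / y ^ 2 - y ^ 2 / z + y + z) := by
  change (x ^ 2) * (starRingEnd ℂ) (P.vertex 1) + (s * (-(2 * x ^ 2 / z) - x ^ 2 / y + x ^ 2 * z / y ^ 2 - y ^ 2 / z + y + 2 * z) - (x ^ 2) * W) = _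
  rw [w1]
  (try field_simp) <;> ring

private theorem l1_p5_2 (x y z s m V W : ℂ) (nx : ‖x‖ = 1) (ny : ‖y‖ = 1) (nz : ‖z‖ = 1) {P : Polygon 5}
    (w2 : (starRingEnd ℂ) (P.vertex 2) = W + s * (1 / z - z / x ^ 2))
    (hx : x ≠ 0) (hy : y ≠ 0) (hz : z ≠ 0) : (l1_g x y z s m V W nx ny nz 5).app (P.vertex 2) =
    s * (-(x ^ 2 / z) - x ^ 2 / y + x ^ 2 * z / y ^ 2 - y ^ 2 / z + y + z) := by
  change (x ^ 2) * (starRingEnd ℂ) (P.vertex 2) + (s * (-(2 * x ^ 2 / z) - x ^ 2 / y + x ^ 2 * z / y ^ 2 - y ^ 2 / z + y + 2 * z) - (x ^ 2) * W) = _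
  rw [w2]
  (try field_simp) <;> ring

private theorem l1_p5_3 (x y z s m V W : ℂ) (nx : ‖x‖ = 1) (ny : ‖y‖ = 1) (nz : ‖z‖ = 1) {P : Polygon 5}
    (w3 : (starRingEnd ℂ) (P.vertex 3) = W + s * (1 / z - z / y ^ 2 - z / x ^ 2))
    (hx : x ≠ 0) (hy : y ≠ 0) (hz : z ≠ 0) : (l1_g x y z s m V W nx ny nz 5).app (P.vertex 3) =
    s * (-(x ^ 2 / z) - x ^ 2 / y - y ^ 2 / z + y + z) := by
  change (x ^ 2) * (starRingEnd ℂ) (P.vertex 3) + (s * (-(2 * x ^ 2 / z) - x ^ 2 / y + x ^ 2 * z / y ^ 2 - y ^ 2 / z + y + 2 * z) - (x ^ 2) * W) = _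
  rw [w3]
  (try field_simp) <;> ring

private theorem l1_p5_4 (x y z s m V W : ℂ) (nx : ‖x‖ = 1) (ny : ‖y‖ = 1) (nz : ‖z‖ = 1) {P : Polygon 5}
    (w4 : (starRingEnd ℂ) (P.vertex 4) = W + s * (1 / z + 1 / y - z / y ^ 2 - z / x ^ 2))
    (hx : x ≠ 0) (hy : y ≠ 0) (hz : z ≠ 0) : (l1_g x y z s m V W nx ny nz 5).app (P.vertex 4) =
    s * (-(x ^ 2 / z) - y ^ 2 / z + y + z) := by
  change (x ^ 2) * (starRingEnd ℂ) (P.vertex 4) + (s * (-(2 * x ^ 2 / z) - x ^ 2 / y + x ^ 2 * z / y ^ 2 - y ^ 2 / z + y + 2 * z) - (x ^ 2) * W) = _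
  rw [w4]
  (try field_simp) <;> ring

private theorem l1_p6_0 (x y z s m V W : ℂ) (nx : ‖x‖ = 1) (ny : ‖y‖ = 1) (nz : ‖z‖ = 1) {P : Polygon 5}
    (v0 : P.vertex 0 = V)
    (hx : x ≠ 0) (hy : y ≠ 0) (hz : z ≠ 0) : (l1_g x y z s m V W nx ny nz 6).app (P.vertex 0) =
    s * (-(x ^ 2 / z)) := by
  change (-(1)) * P.vertex 0 + (s * (-(x ^ 2 / z)) - (-(1)) * V) = _
  rw [v0]
  (try field_simp) <;> ring

private theorem l1_p6_1 (x y z s m V W : ℂ) (nx : ‖x‖ = 1) (ny : ‖y‖ = 1) (nz : ‖z‖ = 1) {P : Polygon 5}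
    (v1 : P.vertex 1 = V + s * (-(x ^ 2 / z)))
    (hx : x ≠ 0) (hy : y ≠ 0) (hz : z ≠ 0) : (l1_g x y z s m V W nx ny nz 6).app (P.vertex 1) =
    0 := by
  change (-(1)) * P.vertex 1 + (s * (-(x ^ 2 / z)) - (-(1)) * V) = _
  rw [v1]
  (try field_simp) <;> ring

private theorem l1_p6_2 (x y z s m V W : ℂ) (nx : ‖x‖ = 1) (ny : ‖y‖ = 1) (nz : ‖z‖ = 1) {P : Polygon 5}
    (v2 : P.vertex 2 = V + s * (-(x ^ 2 / z) + z))
    (hx : x ≠ 0) (hy : y ≠ 0) (hz : z ≠ 0) : (l1_g x y z s m V W nx ny nz 6).app (P.vertex 2) =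
    s * (-(z)) := by
  change (-(1)) * P.vertex 2 + (s * (-(x ^ 2 / z)) - (-(1)) * V) = _
  rw [v2]
  (try field_simp) <;> ring

private theorem l1_p6_3 (x y z s m V W : ℂ) (nx : ‖x‖ = 1) (ny : ‖y‖ = 1) (nz : ‖z‖ = 1) {P : Polygon 5}
    (v3 : P.vertex 3 = V + s * (-(x ^ 2 / z) - y ^ 2 / z + z))
    (hx : x ≠ 0) (hy : y ≠ 0) (hz : z ≠ 0) : (l1_g x y z s m V W nx ny nz 6).app (P.vertex 3) =
    s * (y ^ 2 / z - z) := by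
  change (-(1)) * P.vertex 3 + (s * (-(x ^ 2 / z)) - (-(1)) * V) = _
  rw [v3]
  (try field_simp) <;> ring

private theorem l1_p6_4 (x y z s m V W : ℂ) (nx : ‖x‖ = 1) (ny : ‖y‖ = 1) (nz : ‖z‖ = 1) {P : Polygon 5}
    (v4 : P.vertex 4 = V + s * (-(x ^ 2 / z) - y ^ 2 / z + y + z))
    (hx : x ≠ 0) (hy : y ≠ 0) (hz : z ≠ 0) : (l1_g x y z s m V W nx ny nz 6).app (P.vertex 4) =
    s * (y ^ 2 / z - y - z) := by
  change (-(1)) * P.vertex 4 + (s * (-(x ^ 2 / z)) - (-(1)) * V) = _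
  rw [v4]
  (try field_simp) <;> ring

private theorem l1_p7_0 (x y z s m V W : ℂ) (nx : ‖x‖ = 1) (ny : ‖y‖ = 1) (nz : ‖z‖ = 1) {P : Polygon 5}
    (v0 : P.vertex 0 = V)
    (hx : x ≠ 0) (hy : y ≠ 0) (hz : z ≠ 0) : (l1_g x y z s m V W nx ny nz 7).app (P.vertex 0) =
    s * (-(x ^ 2 * y / z ^ 2) - x ^ 2 / z - y ^ 2 / z + y + z) := by
  change (-(y / z)) * P.vertex 0 + (s * (-(x ^ 2 * y / z ^ 2) - x ^ 2 / z - y ^ 2 / z + y + z) - (-(y / z)) * V) = _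
  rw [v0]
  (try field_simp) <;> ring

private theorem l1_p7_1 (x y z s m V W : ℂ) (nx : ‖x‖ = 1) (ny : ‖y‖ = 1) (nz : ‖z‖ = 1) {P : Polygon 5}
    (v1 : P.vertex 1 = V + s * (-(x ^ 2 / z)))
    (hx : x ≠ 0) (hy : y ≠ 0) (hz : z ≠ 0) : (l1_g x y z s m V W nx ny nz 7).app (P.vertex 1) =
    s * (-(x ^ 2 / z) - y ^ 2 / z + y + z) := by
  change (-(y / z)) * P.vertex 1 + (s * (-(x ^ 2 * y / z ^ 2) - x ^ 2 / z - y ^ 2 / z + y + z) - (-(y / z)) * V) = _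
  rw [v1]
  (try field_simp) <;> ring

private theorem l1_p7_2 (x y z s m V W : ℂ) (nx : ‖x‖ = 1) (ny : ‖y‖ = 1) (nz : ‖z‖ = 1) {P : Polygon 5}
    (v2 : P.vertex 2 = V + s * (-(x ^ 2 / z) + z))
    (hx : x ≠ 0) (hy : y ≠ 0) (hz : z ≠ 0) : (l1_g x y z s m V W nx ny nz 7).app (P.vertex 2) =
    s * (-(x ^ 2 / z) - y ^ 2 / z + z) := by
  change (-(y / z)) * P.vertex 2 + (s * (-(x ^ 2 * y / z ^ 2) - x ^ 2 / z - y ^ 2 / z + y + z) - (-(y / z)) * V) = _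
  rw [v2]
  (try field_simp) <;> ring

private theorem l1_p7_3 (x y z s m V W : ℂ) (nx : ‖x‖ = 1) (ny : ‖y‖ = 1) (nz : ‖z‖ = 1) {P : Polygon 5}
    (v3 : P.vertex 3 = V + s * (-(x ^ 2 / z) - y ^ 2 / z + z))
    (hx : x ≠ 0) (hy : y ≠ 0) (hz : z ≠ 0) : (l1_g x y z s m V W nx ny nz 7).app (P.vertex 3) =
    s * (-(x ^ 2 / z) + y ^ 3 / z ^ 2 - y ^ 2 / z + z) := by
  change (-(y / z)) * P.vertex 3 + (s * (-(x ^ 2 * y / z ^ 2) - x ^ 2 / z - y ^ 2 / z + y + z) - (-(y / z)) * V) = _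
  rw [v3]
  (try field_simp) <;> ring

private theorem l1_p7_4 (x y z s m V W : ℂ) (nx : ‖x‖ = 1) (ny : ‖y‖ = 1) (nz : ‖z‖ = 1) {P : Polygon 5}
    (v4 : P.vertex 4 = V + s * (-(x ^ 2 / z) - y ^ 2 / z + y + z))
    (hx : x ≠ 0) (hy : y ≠ 0) (hz : z ≠ 0) : (l1_g x y z s m V W nx ny nz 7).app (P.vertex 4) =
    s * (-(x ^ 2 / z) + y ^ 3 / z ^ 2 - 2 * y ^ 2 / z + z) := by
  change (-(y / z)) * P.vertex 4 + (s * (-(x ^ 2 * y / z ^ 2) - x ^ 2 / z - y ^ 2 / z + y + z) - (-(y / z)) * V) = _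
  rw [v4]
  (try field_simp) <;> ring

private noncomputable def l1_u (x y z s m : ℂ) : ℂ :=
  s * (-(x ^ 2 / z) + x ^ 2 / y + y ^ 2 / z - y)

private noncomputable def l1_w (x y z s m : ℂ) : ℂ :=
  s * (x ^ 2 / z + x ^ 2 / y - x ^ 2 * z / y ^ 2 + y ^ 3 / z ^ 2 - y ^ 2 / z - y)

private def l1_tb : List ((Fin 8 × ZMod 5) × (Fin 8 × ZMod 5) × ℤ × ℤ) :=
  [((0, 0), (6, 0), (0, 0)),
   ((0, 1), (1, 0), (0, 0)),
   ((0, 2), (2, 3), (0, 0)),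
   ((0, 3), (7, 1), (0, 0)),
   ((0, 4), (5, 4), (0, 0)),
   ((1, 1), (3, 3), (0, 0)),
   ((1, 2), (5, 2), (1, 0)),
   ((1, 3), (4, 2), (0, 0)),
   ((1, 4), (6, 4), (0, 0)),
   ((2, 0), (4, 1), (0, 1)),
   ((2, 1), (6, 3), (0, 1)),
   ((2, 2), (7, 2), (0, 0)),
   ((2, 4), (3, 4), (0, 0)),
   ((3, 0), (4, 0), (0, 1)),
   ((3, 1), (7, 0), (1, 0)),
   ((3, 2), (5, 3), (1, 0)),
   ((4, 3), (5, 1), (1, 0)),
   ((4, 4), (7, 4), (1, -1)),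
   ((5, 0), (6, 1), (0, 0)),
   ((6, 2), (7, 3), (0, -1))]

private theorem l1_e0_0 (x y z s m V W : ℂ) (nx : ‖x‖ = 1) (ny : ‖y‖ = 1) (nz : ‖z‖ = 1) {P : Polygon 5}
    (v0 : P.vertex 0 = V)
    (v1 : P.vertex 1 = V + s * (-(x ^ 2 / z)))
    (v2 : P.vertex 2 = V + s * (-(x ^ 2 / z) + z))
    (v3 : P.vertex 3 = V + s * (-(x ^ 2 / z) - y ^ 2 / z + z))
    (v4 : P.vertex 4 = V + s * (-(x ^ 2 / z) - y ^ 2 / z + y + z))
    (w0 : (starRingEnd ℂ) (P.vertex 0) = W)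
    (w1 : (starRingEnd ℂ) (P.vertex 1) = W + s * (-(z / x ^ 2)))
    (w2 : (starRingEnd ℂ) (P.vertex 2) = W + s * (1 / z - z / x ^ 2))
    (w3 : (starRingEnd ℂ) (P.vertex 3) = W + s * (1 / z - z / y ^ 2 - z / x ^ 2))
    (w4 : (starRingEnd ℂ) (P.vertex 4) = W + s * (1 / z + 1 / y - z / y ^ 2 - z / x ^ 2))
    (hx : x ≠ 0) (hy : y ≠ 0) (hz : z ≠ 0)
    (hC : s * (-(x ^ 2 / z) - y ^ 2 / z + y + z) + m * (x) = 0)
    (hC1 : s * (1 / z + 1 / y - z / y ^ 2 - z / x ^ 2) + m * (1 / x) = 0) :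
    tsrc P (l1_g x y z s m V W nx ny nz) (6, 0) + lv (l1_u x y z s m) (l1_w x y z s m) (0, 0) =
    ttgt P (l1_g x y z s m V W nx ny nz) (0, 0) := by
  change (l1_g x y z s m V W nx ny nz 6).app (P.vertex 0) + (((0 : ℤ) : ℂ) * (l1_u x y z s m) + ((0 : ℤ) : ℂ) * (l1_w x y z s m)) =
    (l1_g x y z s m V W nx ny nz 0).app (P.vertex 1)
  rw [l1_p6_0 x y z s m V W nx ny nz v0 hx hy hz,
    l1_p0_1 x y z s m V W nx ny nz v1 hx hy hz]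
  unfold l1_u l1_w
  push_cast
  (try field_simp) <;> ring

private theorem l1_e0_1 (x y z s m V W : ℂ) (nx : ‖x‖ = 1) (ny : ‖y‖ = 1) (nz : ‖z‖ = 1) {P : Polygon 5}
    (v0 : P.vertex 0 = V)
    (v1 : P.vertex 1 = V + s * (-(x ^ 2 / z)))
    (v2 : P.vertex 2 = V + s * (-(x ^ 2 / z) + z))
    (v3 : P.vertex 3 = V + s * (-(x ^ 2 / z) - y ^ 2 / z + z))
    (v4 : P.vertex 4 = V + s * (-(x ^ 2 / z) - y ^ 2 / z + y + z))
    (w0 : (starRingEnd ℂ) (P.vertex 0) = W)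
    (w1 : (starRingEnd ℂ) (P.vertex 1) = W + s * (-(z / x ^ 2)))
    (w2 : (starRingEnd ℂ) (P.vertex 2) = W + s * (1 / z - z / x ^ 2))
    (w3 : (starRingEnd ℂ) (P.vertex 3) = W + s * (1 / z - z / y ^ 2 - z / x ^ 2))
    (w4 : (starRingEnd ℂ) (P.vertex 4) = W + s * (1 / z + 1 / y - z / y ^ 2 - z / x ^ 2))
    (hx : x ≠ 0) (hy : y ≠ 0) (hz : z ≠ 0)
    (hC : s * (-(x ^ 2 / z) - y ^ 2 / z + y + z) + m * (x) = 0)
    (hC1 : s * (1 / z + 1 / y - z / y ^ 2 - z / x ^ 2) + m * (1 / x) = 0) :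
    ttgt P (l1_g x y z s m V W nx ny nz) (6, 0) + lv (l1_u x y z s m) (l1_w x y z s m) (0, 0) =
    tsrc P (l1_g x y z s m V W nx ny nz) (0, 0) := by
  change (l1_g x y z s m V W nx ny nz 6).app (P.vertex 1) + (((0 : ℤ) : ℂ) * (l1_u x y z s m) + ((0 : ℤ) : ℂ) * (l1_w x y z s m)) =
    (l1_g x y z s m V W nx ny nz 0).app (P.vertex 0)
  rw [l1_p6_1 x y z s m V W nx ny nz v1 hx hy hz,
    l1_p0_0 x y z s m V W nx ny nz v0 hx hy hz]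
  unfold l1_u l1_w
  push_cast
  (try field_simp) <;> ring

private theorem l1_e1_0 (x y z s m V W : ℂ) (nx : ‖x‖ = 1) (ny : ‖y‖ = 1) (nz : ‖z‖ = 1) {P : Polygon 5}
    (v0 : P.vertex 0 = V)
    (v1 : P.vertex 1 = V + s * (-(x ^ 2 / z)))
    (v2 : P.vertex 2 = V + s * (-(x ^ 2 / z) + z))
    (v3 : P.vertex 3 = V + s * (-(x ^ 2 / z) - y ^ 2 / z + z))
    (v4 : P.vertex 4 = V + s * (-(x ^ 2 / z) - y ^ 2 / z + y + z))
    (w0 : (starRingEnd ℂ) (P.vertex 0) = W)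
    (w1 : (starRingEnd ℂ) (P.vertex 1) = W + s * (-(z / x ^ 2)))
    (w2 : (starRingEnd ℂ) (P.vertex 2) = W + s * (1 / z - z / x ^ 2))
    (w3 : (starRingEnd ℂ) (P.vertex 3) = W + s * (1 / z - z / y ^ 2 - z / x ^ 2))
    (w4 : (starRingEnd ℂ) (P.vertex 4) = W + s * (1 / z + 1 / y - z / y ^ 2 - z / x ^ 2))
    (hx : x ≠ 0) (hy : y ≠ 0) (hz : z ≠ 0)
    (hC : s * (-(x ^ 2 / z) - y ^ 2 / z + y + z) + m * (x) = 0)
    (hC1 : s * (1 / z + 1 / y - z / y ^ 2 - z / x ^ 2) + m * (1 / x) = 0) :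
    tsrc P (l1_g x y z s m V W nx ny nz) (1, 0) + lv (l1_u x y z s m) (l1_w x y z s m) (0, 0) =
    ttgt P (l1_g x y z s m V W nx ny nz) (0, 1) := by
  change (l1_g x y z s m V W nx ny nz 1).app (P.vertex 1) + (((0 : ℤ) : ℂ) * (l1_u x y z s m) + ((0 : ℤ) : ℂ) * (l1_w x y z s m)) =
    (l1_g x y z s m V W nx ny nz 0).app (P.vertex 2)
  rw [l1_p1_1 x y z s m V W nx ny nz w1 hx hy hz,
    l1_p0_2 x y z s m V W nx ny nz v2 hx hy hz]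
  unfold l1_u l1_w
  push_cast
  (try field_simp) <;> ring

private theorem l1_e1_1 (x y z s m V W : ℂ) (nx : ‖x‖ = 1) (ny : ‖y‖ = 1) (nz : ‖z‖ = 1) {P : Polygon 5}
    (v0 : P.vertex 0 = V)
    (v1 : P.vertex 1 = V + s * (-(x ^ 2 / z)))
    (v2 : P.vertex 2 = V + s * (-(x ^ 2 / z) + z))
    (v3 : P.vertex 3 = V + s * (-(x ^ 2 / z) - y ^ 2 / z + z))
    (v4 : P.vertex 4 = V + s * (-(x ^ 2 / z) - y ^ 2 / z + y + z))
    (w0 : (starRingEnd ℂ) (P.vertex 0) = W)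
    (w1 : (starRingEnd ℂ) (P.vertex 1) = W + s * (-(z / x ^ 2)))
    (w2 : (starRingEnd ℂ) (P.vertex 2) = W + s * (1 / z - z / x ^ 2))
    (w3 : (starRingEnd ℂ) (P.vertex 3) = W + s * (1 / z - z / y ^ 2 - z / x ^ 2))
    (w4 : (starRingEnd ℂ) (P.vertex 4) = W + s * (1 / z + 1 / y - z / y ^ 2 - z / x ^ 2))
    (hx : x ≠ 0) (hy : y ≠ 0) (hz : z ≠ 0)
    (hC : s * (-(x ^ 2 / z) - y ^ 2 / z + y + z) + m * (x) = 0)
    (hC1 : s * (1 / z + 1 / y - z / y ^ 2 - z / x ^ 2) + m * (1 / x) = 0) :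
    ttgt P (l1_g x y z s m V W nx ny nz) (1, 0) + lv (l1_u x y z s m) (l1_w x y z s m) (0, 0) =
    tsrc P (l1_g x y z s m V W nx ny nz) (0, 1) := by
  change (l1_g x y z s m V W nx ny nz 1).app (P.vertex 0) + (((0 : ℤ) : ℂ) * (l1_u x y z s m) + ((0 : ℤ) : ℂ) * (l1_w x y z s m)) =
    (l1_g x y z s m V W nx ny nz 0).app (P.vertex 1)
  rw [l1_p1_0 x y z s m V W nx ny nz w0 hx hy hz,
    l1_p0_1 x y z s m V W nx ny nz v1 hx hy hz]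
  unfold l1_u l1_w
  push_cast
  (try field_simp) <;> ring

private theorem l1_e2_0 (x y z s m V W : ℂ) (nx : ‖x‖ = 1) (ny : ‖y‖ = 1) (nz : ‖z‖ = 1) {P : Polygon 5}
    (v0 : P.vertex 0 = V)
    (v1 : P.vertex 1 = V + s * (-(x ^ 2 / z)))
    (v2 : P.vertex 2 = V + s * (-(x ^ 2 / z) + z))
    (v3 : P.vertex 3 = V + s * (-(x ^ 2 / z) - y ^ 2 / z + z))
    (v4 : P.vertex 4 = V + s * (-(x ^ 2 / z) - y ^ 2 / z + y + z))
    (w0 : (starRingEnd ℂ) (P.vertex 0) = W)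
    (w1 : (starRingEnd ℂ) (P.vertex 1) = W + s * (-(z / x ^ 2)))
    (w2 : (starRingEnd ℂ) (P.vertex 2) = W + s * (1 / z - z / x ^ 2))
    (w3 : (starRingEnd ℂ) (P.vertex 3) = W + s * (1 / z - z / y ^ 2 - z / x ^ 2))
    (w4 : (starRingEnd ℂ) (P.vertex 4) = W + s * (1 / z + 1 / y - z / y ^ 2 - z / x ^ 2))
    (hx : x ≠ 0) (hy : y ≠ 0) (hz : z ≠ 0)
    (hC : s * (-(x ^ 2 / z) - y ^ 2 / z + y + z) + m * (x) = 0)
    (hC1 : s * (1 / z + 1 / y - z / y ^ 2 - z / x ^ 2) + m * (1 / x) = 0) :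
    tsrc P (l1_g x y z s m V W nx ny nz) (2, 3) + lv (l1_u x y z s m) (l1_w x y z s m) (0, 0) =
    ttgt P (l1_g x y z s m V W nx ny nz) (0, 2) := by
  change (l1_g x y z s m V W nx ny nz 2).app (P.vertex 3) + (((0 : ℤ) : ℂ) * (l1_u x y z s m) + ((0 : ℤ) : ℂ) * (l1_w x y z s m)) =
    (l1_g x y z s m V W nx ny nz 0).app (P.vertex 3)
  rw [l1_p2_3 x y z s m V W nx ny nz v3 hx hy hz,
    l1_p0_3 x y z s m V W nx ny nz v3 hx hy hz]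
  unfold l1_u l1_w
  push_cast
  (try field_simp) <;> ring

private theorem l1_e2_1 (x y z s m V W : ℂ) (nx : ‖x‖ = 1) (ny : ‖y‖ = 1) (nz : ‖z‖ = 1) {P : Polygon 5}
    (v0 : P.vertex 0 = V)
    (v1 : P.vertex 1 = V + s * (-(x ^ 2 / z)))
    (v2 : P.vertex 2 = V + s * (-(x ^ 2 / z) + z))
    (v3 : P.vertex 3 = V + s * (-(x ^ 2 / z) - y ^ 2 / z + z))
    (v4 : P.vertex 4 = V + s * (-(x ^ 2 / z) - y ^ 2 / z + y + z))
    (w0 : (starRingEnd ℂ) (P.vertex 0) = W)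
    (w1 : (starRingEnd ℂ) (P.vertex 1) = W + s * (-(z / x ^ 2)))
    (w2 : (starRingEnd ℂ) (P.vertex 2) = W + s * (1 / z - z / x ^ 2))
    (w3 : (starRingEnd ℂ) (P.vertex 3) = W + s * (1 / z - z / y ^ 2 - z / x ^ 2))
    (w4 : (starRingEnd ℂ) (P.vertex 4) = W + s * (1 / z + 1 / y - z / y ^ 2 - z / x ^ 2))
    (hx : x ≠ 0) (hy : y ≠ 0) (hz : z ≠ 0)
    (hC : s * (-(x ^ 2 / z) - y ^ 2 / z + y + z) + m * (x) = 0)
    (hC1 : s * (1 / z + 1 / y - z / y ^ 2 - z / x ^ 2) + m * (1 / x) = 0) :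
    ttgt P (l1_g x y z s m V W nx ny nz) (2, 3) + lv (l1_u x y z s m) (l1_w x y z s m) (0, 0) =
    tsrc P (l1_g x y z s m V W nx ny nz) (0, 2) := by
  change (l1_g x y z s m V W nx ny nz 2).app (P.vertex 4) + (((0 : ℤ) : ℂ) * (l1_u x y z s m) + ((0 : ℤ) : ℂ) * (l1_w x y z s m)) =
    (l1_g x y z s m V W nx ny nz 0).app (P.vertex 2)
  rw [l1_p2_4 x y z s m V W nx ny nz v4 hx hy hz,
    l1_p0_2 x y z s m V W nx ny nz v2 hx hy hz]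
  unfold l1_u l1_w
  push_cast
  (try field_simp) <;> ring

private theorem l1_e3_0 (x y z s m V W : ℂ) (nx : ‖x‖ = 1) (ny : ‖y‖ = 1) (nz : ‖z‖ = 1) {P : Polygon 5}
    (v0 : P.vertex 0 = V)
    (v1 : P.vertex 1 = V + s * (-(x ^ 2 / z)))
    (v2 : P.vertex 2 = V + s * (-(x ^ 2 / z) + z))
    (v3 : P.vertex 3 = V + s * (-(x ^ 2 / z) - y ^ 2 / z + z))
    (v4 : P.vertex 4 = V + s * (-(x ^ 2 / z) - y ^ 2 / z + y + z))
    (w0 : (starRingEnd ℂ) (P.vertex 0) = W)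
    (w1 : (starRingEnd ℂ) (P.vertex 1) = W + s * (-(z / x ^ 2)))
    (w2 : (starRingEnd ℂ) (P.vertex 2) = W + s * (1 / z - z / x ^ 2))
    (w3 : (starRingEnd ℂ) (P.vertex 3) = W + s * (1 / z - z / y ^ 2 - z / x ^ 2))
    (w4 : (starRingEnd ℂ) (P.vertex 4) = W + s * (1 / z + 1 / y - z / y ^ 2 - z / x ^ 2))
    (hx : x ≠ 0) (hy : y ≠ 0) (hz : z ≠ 0)
    (hC : s * (-(x ^ 2 / z) - y ^ 2 / z + y + z) + m * (x) = 0)
    (hC1 : s * (1 / z + 1 / y - z / y ^ 2 - z / x ^ 2) + m * (1 / x) = 0) :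
    tsrc P (l1_g x y z s m V W nx ny nz) (7, 1) + lv (l1_u x y z s m) (l1_w x y z s m) (0, 0) =
    ttgt P (l1_g x y z s m V W nx ny nz) (0, 3) := by
  change (l1_g x y z s m V W nx ny nz 7).app (P.vertex 1) + (((0 : ℤ) : ℂ) * (l1_u x y z s m) + ((0 : ℤ) : ℂ) * (l1_w x y z s m)) =
    (l1_g x y z s m V W nx ny nz 0).app (P.vertex 4)
  rw [l1_p7_1 x y z s m V W nx ny nz v1 hx hy hz,
    l1_p0_4 x y z s m V W nx ny nz v4 hx hy hz]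
  unfold l1_u l1_w
  push_cast
  (try field_simp) <;> ring

private theorem l1_e3_1 (x y z s m V W : ℂ) (nx : ‖x‖ = 1) (ny : ‖y‖ = 1) (nz : ‖z‖ = 1) {P : Polygon 5}
    (v0 : P.vertex 0 = V)
    (v1 : P.vertex 1 = V + s * (-(x ^ 2 / z)))
    (v2 : P.vertex 2 = V + s * (-(x ^ 2 / z) + z))
    (v3 : P.vertex 3 = V + s * (-(x ^ 2 / z) - y ^ 2 / z + z))
    (v4 : P.vertex 4 = V + s * (-(x ^ 2 / z) - y ^ 2 / z + y + z))
    (w0 : (starRingEnd ℂ) (P.vertex 0) = W)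
    (w1 : (starRingEnd ℂ) (P.vertex 1) = W + s * (-(z / x ^ 2)))
    (w2 : (starRingEnd ℂ) (P.vertex 2) = W + s * (1 / z - z / x ^ 2))
    (w3 : (starRingEnd ℂ) (P.vertex 3) = W + s * (1 / z - z / y ^ 2 - z / x ^ 2))
    (w4 : (starRingEnd ℂ) (P.vertex 4) = W + s * (1 / z + 1 / y - z / y ^ 2 - z / x ^ 2))
    (hx : x ≠ 0) (hy : y ≠ 0) (hz : z ≠ 0)
    (hC : s * (-(x ^ 2 / z) - y ^ 2 / z + y + z) + m * (x) = 0)
    (hC1 : s * (1 / z + 1 / y - z / y ^ 2 - z / x ^ 2) + m * (1 / x) = 0) :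
    ttgt P (l1_g x y z s m V W nx ny nz) (7, 1) + lv (l1_u x y z s m) (l1_w x y z s m) (0, 0) =
    tsrc P (l1_g x y z s m V W nx ny nz) (0, 3) := by
  change (l1_g x y z s m V W nx ny nz 7).app (P.vertex 2) + (((0 : ℤ) : ℂ) * (l1_u x y z s m) + ((0 : ℤ) : ℂ) * (l1_w x y z s m)) =
    (l1_g x y z s m V W nx ny nz 0).app (P.vertex 3)
  rw [l1_p7_2 x y z s m V W nx ny nz v2 hx hy hz,
    l1_p0_3 x y z s m V W nx ny nz v3 hx hy hz]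
  unfold l1_u l1_w
  push_cast
  (try field_simp) <;> ring

private theorem l1_e4_0 (x y z s m V W : ℂ) (nx : ‖x‖ = 1) (ny : ‖y‖ = 1) (nz : ‖z‖ = 1) {P : Polygon 5}
    (v0 : P.vertex 0 = V)
    (v1 : P.vertex 1 = V + s * (-(x ^ 2 / z)))
    (v2 : P.vertex 2 = V + s * (-(x ^ 2 / z) + z))
    (v3 : P.vertex 3 = V + s * (-(x ^ 2 / z) - y ^ 2 / z + z))
    (v4 : P.vertex 4 = V + s * (-(x ^ 2 / z) - y ^ 2 / z + y + z))
    (w0 : (starRingEnd ℂ) (P.vertex 0) = W)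
    (w1 : (starRingEnd ℂ) (P.vertex 1) = W + s * (-(z / x ^ 2)))
    (w2 : (starRingEnd ℂ) (P.vertex 2) = W + s * (1 / z - z / x ^ 2))
    (w3 : (starRingEnd ℂ) (P.vertex 3) = W + s * (1 / z - z / y ^ 2 - z / x ^ 2))
    (w4 : (starRingEnd ℂ) (P.vertex 4) = W + s * (1 / z + 1 / y - z / y ^ 2 - z / x ^ 2))
    (hx : x ≠ 0) (hy : y ≠ 0) (hz : z ≠ 0)
    (hC : s * (-(x ^ 2 / z) - y ^ 2 / z + y + z) + m * (x) = 0)
    (hC1 : s * (1 / z + 1 / y - z / y ^ 2 - z / x ^ 2) + m * (1 / x) = 0) :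
    tsrc P (l1_g x y z s m V W nx ny nz) (5, 4) + lv (l1_u x y z s m) (l1_w x y z s m) (0, 0) =
    ttgt P (l1_g x y z s m V W nx ny nz) (0, 4) := by
  change (l1_g x y z s m V W nx ny nz 5).app (P.vertex 0) + (((0 : ℤ) : ℂ) * (l1_u x y z s m) + ((0 : ℤ) : ℂ) * (l1_w x y z s m)) =
    (l1_g x y z s m V W nx ny nz 0).app (P.vertex 0)
  rw [l1_p5_0 x y z s m V W nx ny nz w0 hx hy hz,
    l1_p0_0 x y z s m V W nx ny nz v0 hx hy hz]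
  unfold l1_u l1_w
  push_cast
  exact l1_z (A0 := 1) (A1 := -(x ^ 2)) hC hC1
      (by (try field_simp) <;> ring)

private theorem l1_e4_1 (x y z s m V W : ℂ) (nx : ‖x‖ = 1) (ny : ‖y‖ = 1) (nz : ‖z‖ = 1) {P : Polygon 5}
    (v0 : P.vertex 0 = V)
    (v1 : P.vertex 1 = V + s * (-(x ^ 2 / z)))
    (v2 : P.vertex 2 = V + s * (-(x ^ 2 / z) + z))
    (v3 : P.vertex 3 = V + s * (-(x ^ 2 / z) - y ^ 2 / z + z))
    (v4 : P.vertex 4 = V + s * (-(x ^ 2 / z) - y ^ 2 / z + y + z))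
    (w0 : (starRingEnd ℂ) (P.vertex 0) = W)
    (w1 : (starRingEnd ℂ) (P.vertex 1) = W + s * (-(z / x ^ 2)))
    (w2 : (starRingEnd ℂ) (P.vertex 2) = W + s * (1 / z - z / x ^ 2))
    (w3 : (starRingEnd ℂ) (P.vertex 3) = W + s * (1 / z - z / y ^ 2 - z / x ^ 2))
    (w4 : (starRingEnd ℂ) (P.vertex 4) = W + s * (1 / z + 1 / y - z / y ^ 2 - z / x ^ 2))
    (hx : x ≠ 0) (hy : y ≠ 0) (hz : z ≠ 0)
    (hC : s * (-(x ^ 2 / z) - y ^ 2 / z + y + z) + m * (x) = 0)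
    (hC1 : s * (1 / z + 1 / y - z / y ^ 2 - z / x ^ 2) + m * (1 / x) = 0) :
    ttgt P (l1_g x y z s m V W nx ny nz) (5, 4) + lv (l1_u x y z s m) (l1_w x y z s m) (0, 0) =
    tsrc P (l1_g x y z s m V W nx ny nz) (0, 4) := by
  change (l1_g x y z s m V W nx ny nz 5).app (P.vertex 4) + (((0 : ℤ) : ℂ) * (l1_u x y z s m) + ((0 : ℤ) : ℂ) * (l1_w x y z s m)) =
    (l1_g x y z s m V W nx ny nz 0).app (P.vertex 4)
  rw [l1_p5_4 x y z s m V W nx ny nz w4 hx hy hz,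
    l1_p0_4 x y z s m V W nx ny nz v4 hx hy hz]
  unfold l1_u l1_w
  push_cast
  (try field_simp) <;> ring

private theorem l1_e5_0 (x y z s m V W : ℂ) (nx : ‖x‖ = 1) (ny : ‖y‖ = 1) (nz : ‖z‖ = 1) {P : Polygon 5}
    (v0 : P.vertex 0 = V)
    (v1 : P.vertex 1 = V + s * (-(x ^ 2 / z)))
    (v2 : P.vertex 2 = V + s * (-(x ^ 2 / z) + z))
    (v3 : P.vertex 3 = V + s * (-(x ^ 2 / z) - y ^ 2 / z + z))
    (v4 : P.vertex 4 = V + s * (-(x ^ 2 / z) - y ^ 2 / z + y + z))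
    (w0 : (starRingEnd ℂ) (P.vertex 0) = W)
    (w1 : (starRingEnd ℂ) (P.vertex 1) = W + s * (-(z / x ^ 2)))
    (w2 : (starRingEnd ℂ) (P.vertex 2) = W + s * (1 / z - z / x ^ 2))
    (w3 : (starRingEnd ℂ) (P.vertex 3) = W + s * (1 / z - z / y ^ 2 - z / x ^ 2))
    (w4 : (starRingEnd ℂ) (P.vertex 4) = W + s * (1 / z + 1 / y - z / y ^ 2 - z / x ^ 2))
    (hx : x ≠ 0) (hy : y ≠ 0) (hz : z ≠ 0)
    (hC : s * (-(x ^ 2 / z) - y ^ 2 / z + y + z) + m * (x) = 0)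
    (hC1 : s * (1 / z + 1 / y - z / y ^ 2 - z / x ^ 2) + m * (1 / x) = 0) :
    tsrc P (l1_g x y z s m V W nx ny nz) (3, 3) + lv (l1_u x y z s m) (l1_w x y z s m) (0, 0) =
    ttgt P (l1_g x y z s m V W nx ny nz) (1, 1) := by
  change (l1_g x y z s m V W nx ny nz 3).app (P.vertex 4) + (((0 : ℤ) : ℂ) * (l1_u x y z s m) + ((0 : ℤ) : ℂ) * (l1_w x y z s m)) =
    (l1_g x y z s m V W nx ny nz 1).app (P.vertex 1)
  rw [l1_p3_4 x y z s m V W nx ny nz w4 hx hy hz,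
    l1_p1_1 x y z s m V W nx ny nz w1 hx hy hz]
  unfold l1_u l1_w
  push_cast
  (try field_simp) <;> ring

private theorem l1_e5_1 (x y z s m V W : ℂ) (nx : ‖x‖ = 1) (ny : ‖y‖ = 1) (nz : ‖z‖ = 1) {P : Polygon 5}
    (v0 : P.vertex 0 = V)
    (v1 : P.vertex 1 = V + s * (-(x ^ 2 / z)))
    (v2 : P.vertex 2 = V + s * (-(x ^ 2 / z) + z))
    (v3 : P.vertex 3 = V + s * (-(x ^ 2 / z) - y ^ 2 / z + z))
    (v4 : P.vertex 4 = V + s * (-(x ^ 2 / z) - y ^ 2 / z + y + z))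
    (w0 : (starRingEnd ℂ) (P.vertex 0) = W)
    (w1 : (starRingEnd ℂ) (P.vertex 1) = W + s * (-(z / x ^ 2)))
    (w2 : (starRingEnd ℂ) (P.vertex 2) = W + s * (1 / z - z / x ^ 2))
    (w3 : (starRingEnd ℂ) (P.vertex 3) = W + s * (1 / z - z / y ^ 2 - z / x ^ 2))
    (w4 : (starRingEnd ℂ) (P.vertex 4) = W + s * (1 / z + 1 / y - z / y ^ 2 - z / x ^ 2))
    (hx : x ≠ 0) (hy : y ≠ 0) (hz : z ≠ 0)
    (hC : s * (-(x ^ 2 / z) - y ^ 2 / z + y + z) + m * (x) = 0)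
    (hC1 : s * (1 / z + 1 / y - z / y ^ 2 - z / x ^ 2) + m * (1 / x) = 0) :
    ttgt P (l1_g x y z s m V W nx ny nz) (3, 3) + lv (l1_u x y z s m) (l1_w x y z s m) (0, 0) =
    tsrc P (l1_g x y z s m V W nx ny nz) (1, 1) := by
  change (l1_g x y z s m V W nx ny nz 3).app (P.vertex 3) + (((0 : ℤ) : ℂ) * (l1_u x y z s m) + ((0 : ℤ) : ℂ) * (l1_w x y z s m)) =
    (l1_g x y z s m V W nx ny nz 1).app (P.vertex 2)
  rw [l1_p3_3 x y z s m V W nx ny nz w3 hx hy hz,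
    l1_p1_2 x y z s m V W nx ny nz w2 hx hy hz]
  unfold l1_u l1_w
  push_cast
  (try field_simp) <;> ring

private theorem l1_e6_0 (x y z s m V W : ℂ) (nx : ‖x‖ = 1) (ny : ‖y‖ = 1) (nz : ‖z‖ = 1) {P : Polygon 5}
    (v0 : P.vertex 0 = V)
    (v1 : P.vertex 1 = V + s * (-(x ^ 2 / z)))
    (v2 : P.vertex 2 = V + s * (-(x ^ 2 / z) + z))
    (v3 : P.vertex 3 = V + s * (-(x ^ 2 / z) - y ^ 2 / z + z))
    (v4 : P.vertex 4 = V + s * (-(x ^ 2 / z) - y ^ 2 / z + y + z))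
    (w0 : (starRingEnd ℂ) (P.vertex 0) = W)
    (w1 : (starRingEnd ℂ) (P.vertex 1) = W + s * (-(z / x ^ 2)))
    (w2 : (starRingEnd ℂ) (P.vertex 2) = W + s * (1 / z - z / x ^ 2))
    (w3 : (starRingEnd ℂ) (P.vertex 3) = W + s * (1 / z - z / y ^ 2 - z / x ^ 2))
    (w4 : (starRingEnd ℂ) (P.vertex 4) = W + s * (1 / z + 1 / y - z / y ^ 2 - z / x ^ 2))
    (hx : x ≠ 0) (hy : y ≠ 0) (hz : z ≠ 0)
    (hC : s * (-(x ^ 2 / z) - y ^ 2 / z + y + z) + m * (x) = 0)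
    (hC1 : s * (1 / z + 1 / y - z / y ^ 2 - z / x ^ 2) + m * (1 / x) = 0) :
    tsrc P (l1_g x y z s m V W nx ny nz) (5, 2) + lv (l1_u x y z s m) (l1_w x y z s m) (1, 0) =
    ttgt P (l1_g x y z s m V W nx ny nz) (1, 2) := by
  change (l1_g x y z s m V W nx ny nz 5).app (P.vertex 3) + (((1 : ℤ) : ℂ) * (l1_u x y z s m) + ((0 : ℤ) : ℂ) * (l1_w x y z s m)) =
    (l1_g x y z s m V W nx ny nz 1).app (P.vertex 2)
  rw [l1_p5_3 x y z s m V W nx ny nz w3 hx hy hz,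
    l1_p1_2 x y z s m V W nx ny nz w2 hx hy hz]
  unfold l1_u l1_w
  push_cast
  (try field_simp) <;> ring

private theorem l1_e6_1 (x y z s m V W : ℂ) (nx : ‖x‖ = 1) (ny : ‖y‖ = 1) (nz : ‖z‖ = 1) {P : Polygon 5}
    (v0 : P.vertex 0 = V)
    (v1 : P.vertex 1 = V + s * (-(x ^ 2 / z)))
    (v2 : P.vertex 2 = V + s * (-(x ^ 2 / z) + z))
    (v3 : P.vertex 3 = V + s * (-(x ^ 2 / z) - y ^ 2 / z + z))
    (v4 : P.vertex 4 = V + s * (-(x ^ 2 / z) - y ^ 2 / z + y + z))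
    (w0 : (starRingEnd ℂ) (P.vertex 0) = W)
    (w1 : (starRingEnd ℂ) (P.vertex 1) = W + s * (-(z / x ^ 2)))
    (w2 : (starRingEnd ℂ) (P.vertex 2) = W + s * (1 / z - z / x ^ 2))
    (w3 : (starRingEnd ℂ) (P.vertex 3) = W + s * (1 / z - z / y ^ 2 - z / x ^ 2))
    (w4 : (starRingEnd ℂ) (P.vertex 4) = W + s * (1 / z + 1 / y - z / y ^ 2 - z / x ^ 2))
    (hx : x ≠ 0) (hy : y ≠ 0) (hz : z ≠ 0)
    (hC : s * (-(x ^ 2 / z) - y ^ 2 / z + y + z) + m * (x) = 0)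
    (hC1 : s * (1 / z + 1 / y - z / y ^ 2 - z / x ^ 2) + m * (1 / x) = 0) :
    ttgt P (l1_g x y z s m V W nx ny nz) (5, 2) + lv (l1_u x y z s m) (l1_w x y z s m) (1, 0) =
    tsrc P (l1_g x y z s m V W nx ny nz) (1, 2) := by
  change (l1_g x y z s m V W nx ny nz 5).app (P.vertex 2) + (((1 : ℤ) : ℂ) * (l1_u x y z s m) + ((0 : ℤ) : ℂ) * (l1_w x y z s m)) =
    (l1_g x y z s m V W nx ny nz 1).app (P.vertex 3)
  rw [l1_p5_2 x y z s m V W nx ny nz w2 hx hy hz,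
    l1_p1_3 x y z s m V W nx ny nz w3 hx hy hz]
  unfold l1_u l1_w
  push_cast
  (try field_simp) <;> ring

private theorem l1_e7_0 (x y z s m V W : ℂ) (nx : ‖x‖ = 1) (ny : ‖y‖ = 1) (nz : ‖z‖ = 1) {P : Polygon 5}
    (v0 : P.vertex 0 = V)
    (v1 : P.vertex 1 = V + s * (-(x ^ 2 / z)))
    (v2 : P.vertex 2 = V + s * (-(x ^ 2 / z) + z))
    (v3 : P.vertex 3 = V + s * (-(x ^ 2 / z) - y ^ 2 / z + z))
    (v4 : P.vertex 4 = V + s * (-(x ^ 2 / z) - y ^ 2 / z + y + z))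
    (w0 : (starRingEnd ℂ) (P.vertex 0) = W)
    (w1 : (starRingEnd ℂ) (P.vertex 1) = W + s * (-(z / x ^ 2)))
    (w2 : (starRingEnd ℂ) (P.vertex 2) = W + s * (1 / z - z / x ^ 2))
    (w3 : (starRingEnd ℂ) (P.vertex 3) = W + s * (1 / z - z / y ^ 2 - z / x ^ 2))
    (w4 : (starRingEnd ℂ) (P.vertex 4) = W + s * (1 / z + 1 / y - z / y ^ 2 - z / x ^ 2))
    (hx : x ≠ 0) (hy : y ≠ 0) (hz : z ≠ 0)
    (hC : s * (-(x ^ 2 / z) - y ^ 2 / z + y + z) + m * (x) = 0)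
    (hC1 : s * (1 / z + 1 / y - z / y ^ 2 - z / x ^ 2) + m * (1 / x) = 0) :
    tsrc P (l1_g x y z s m V W nx ny nz) (4, 2) + lv (l1_u x y z s m) (l1_w x y z s m) (0, 0) =
    ttgt P (l1_g x y z s m V W nx ny nz) (1, 3) := by
  change (l1_g x y z s m V W nx ny nz 4).app (P.vertex 3) + (((0 : ℤ) : ℂ) * (l1_u x y z s m) + ((0 : ℤ) : ℂ) * (l1_w x y z s m)) =
    (l1_g x y z s m V W nx ny nz 1).app (P.vertex 3)
  rw [l1_p4_3 x y z s m V W nx ny nz w3 hx hy hz,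
    l1_p1_3 x y z s m V W nx ny nz w3 hx hy hz]
  unfold l1_u l1_w
  push_cast
  (try field_simp) <;> ring

private theorem l1_e7_1 (x y z s m V W : ℂ) (nx : ‖x‖ = 1) (ny : ‖y‖ = 1) (nz : ‖z‖ = 1) {P : Polygon 5}
    (v0 : P.vertex 0 = V)
    (v1 : P.vertex 1 = V + s * (-(x ^ 2 / z)))
    (v2 : P.vertex 2 = V + s * (-(x ^ 2 / z) + z))
    (v3 : P.vertex 3 = V + s * (-(x ^ 2 / z) - y ^ 2 / z + z))
    (v4 : P.vertex 4 = V + s * (-(x ^ 2 / z) - y ^ 2 / z + y + z))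
    (w0 : (starRingEnd ℂ) (P.vertex 0) = W)
    (w1 : (starRingEnd ℂ) (P.vertex 1) = W + s * (-(z / x ^ 2)))
    (w2 : (starRingEnd ℂ) (P.vertex 2) = W + s * (1 / z - z / x ^ 2))
    (w3 : (starRingEnd ℂ) (P.vertex 3) = W + s * (1 / z - z / y ^ 2 - z / x ^ 2))
    (w4 : (starRingEnd ℂ) (P.vertex 4) = W + s * (1 / z + 1 / y - z / y ^ 2 - z / x ^ 2))
    (hx : x ≠ 0) (hy : y ≠ 0) (hz : z ≠ 0)
    (hC : s * (-(x ^ 2 / z) - y ^ 2 / z + y + z) + m * (x) = 0)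
    (hC1 : s * (1 / z + 1 / y - z / y ^ 2 - z / x ^ 2) + m * (1 / x) = 0) :
    ttgt P (l1_g x y z s m V W nx ny nz) (4, 2) + lv (l1_u x y z s m) (l1_w x y z s m) (0, 0) =
    tsrc P (l1_g x y z s m V W nx ny nz) (1, 3) := by
  change (l1_g x y z s m V W nx ny nz 4).app (P.vertex 2) + (((0 : ℤ) : ℂ) * (l1_u x y z s m) + ((0 : ℤ) : ℂ) * (l1_w x y z s m)) =
    (l1_g x y z s m V W nx ny nz 1).app (P.vertex 4)
  rw [l1_p4_2 x y z s m V W nx ny nz w2 hx hy hz,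
    l1_p1_4 x y z s m V W nx ny nz w4 hx hy hz]
  unfold l1_u l1_w
  push_cast
  (try field_simp) <;> ring

private theorem l1_e8_0 (x y z s m V W : ℂ) (nx : ‖x‖ = 1) (ny : ‖y‖ = 1) (nz : ‖z‖ = 1) {P : Polygon 5}
    (v0 : P.vertex 0 = V)
    (v1 : P.vertex 1 = V + s * (-(x ^ 2 / z)))
    (v2 : P.vertex 2 = V + s * (-(x ^ 2 / z) + z))
    (v3 : P.vertex 3 = V + s * (-(x ^ 2 / z) - y ^ 2 / z + z))
    (v4 : P.vertex 4 = V + s * (-(x ^ 2 / z) - y ^ 2 / z + y + z))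
    (w0 : (starRingEnd ℂ) (P.vertex 0) = W)
    (w1 : (starRingEnd ℂ) (P.vertex 1) = W + s * (-(z / x ^ 2)))
    (w2 : (starRingEnd ℂ) (P.vertex 2) = W + s * (1 / z - z / x ^ 2))
    (w3 : (starRingEnd ℂ) (P.vertex 3) = W + s * (1 / z - z / y ^ 2 - z / x ^ 2))
    (w4 : (starRingEnd ℂ) (P.vertex 4) = W + s * (1 / z + 1 / y - z / y ^ 2 - z / x ^ 2))
    (hx : x ≠ 0) (hy : y ≠ 0) (hz : z ≠ 0)
    (hC : s * (-(x ^ 2 / z) - y ^ 2 / z + y + z) + m * (x) = 0)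
    (hC1 : s * (1 / z + 1 / y - z / y ^ 2 - z / x ^ 2) + m * (1 / x) = 0) :
    tsrc P (l1_g x y z s m V W nx ny nz) (6, 4) + lv (l1_u x y z s m) (l1_w x y z s m) (0, 0) =
    ttgt P (l1_g x y z s m V W nx ny nz) (1, 4) := by
  change (l1_g x y z s m V W nx ny nz 6).app (P.vertex 4) + (((0 : ℤ) : ℂ) * (l1_u x y z s m) + ((0 : ℤ) : ℂ) * (l1_w x y z s m)) =
    (l1_g x y z s m V W nx ny nz 1).app (P.vertex 4)
  rw [l1_p6_4 x y z s m V W nx ny nz v4 hx hy hz,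
    l1_p1_4 x y z s m V W nx ny nz w4 hx hy hz]
  unfold l1_u l1_w
  push_cast
  exact l1_z (A0 := -(1)) (A1 := x ^ 2) hC hC1
      (by (try field_simp) <;> ring)

private theorem l1_e8_1 (x y z s m V W : ℂ) (nx : ‖x‖ = 1) (ny : ‖y‖ = 1) (nz : ‖z‖ = 1) {P : Polygon 5}
    (v0 : P.vertex 0 = V)
    (v1 : P.vertex 1 = V + s * (-(x ^ 2 / z)))
    (v2 : P.vertex 2 = V + s * (-(x ^ 2 / z) + z))
    (v3 : P.vertex 3 = V + s * (-(x ^ 2 / z) - y ^ 2 / z + z))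
    (v4 : P.vertex 4 = V + s * (-(x ^ 2 / z) - y ^ 2 / z + y + z))
    (w0 : (starRingEnd ℂ) (P.vertex 0) = W)
    (w1 : (starRingEnd ℂ) (P.vertex 1) = W + s * (-(z / x ^ 2)))
    (w2 : (starRingEnd ℂ) (P.vertex 2) = W + s * (1 / z - z / x ^ 2))
    (w3 : (starRingEnd ℂ) (P.vertex 3) = W + s * (1 / z - z / y ^ 2 - z / x ^ 2))
    (w4 : (starRingEnd ℂ) (P.vertex 4) = W + s * (1 / z + 1 / y - z / y ^ 2 - z / x ^ 2))
    (hx : x ≠ 0) (hy : y ≠ 0) (hz : z ≠ 0)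
    (hC : s * (-(x ^ 2 / z) - y ^ 2 / z + y + z) + m * (x) = 0)
    (hC1 : s * (1 / z + 1 / y - z / y ^ 2 - z / x ^ 2) + m * (1 / x) = 0) :
    ttgt P (l1_g x y z s m V W nx ny nz) (6, 4) + lv (l1_u x y z s m) (l1_w x y z s m) (0, 0) =
    tsrc P (l1_g x y z s m V W nx ny nz) (1, 4) := by
  change (l1_g x y z s m V W nx ny nz 6).app (P.vertex 0) + (((0 : ℤ) : ℂ) * (l1_u x y z s m) + ((0 : ℤ) : ℂ) * (l1_w x y z s m)) =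
    (l1_g x y z s m V W nx ny nz 1).app (P.vertex 0)
  rw [l1_p6_0 x y z s m V W nx ny nz v0 hx hy hz,
    l1_p1_0 x y z s m V W nx ny nz w0 hx hy hz]
  unfold l1_u l1_w
  push_cast
  (try field_simp) <;> ring

private theorem l1_e9_0 (x y z s m V W : ℂ) (nx : ‖x‖ = 1) (ny : ‖y‖ = 1) (nz : ‖z‖ = 1) {P : Polygon 5}
    (v0 : P.vertex 0 = V)
    (v1 : P.vertex 1 = V + s * (-(x ^ 2 / z)))
    (v2 : P.vertex 2 = V + s * (-(x ^ 2 / z) + z))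
    (v3 : P.vertex 3 = V + s * (-(x ^ 2 / z) - y ^ 2 / z + z))
    (v4 : P.vertex 4 = V + s * (-(x ^ 2 / z) - y ^ 2 / z + y + z))
    (w0 : (starRingEnd ℂ) (P.vertex 0) = W)
    (w1 : (starRingEnd ℂ) (P.vertex 1) = W + s * (-(z / x ^ 2)))
    (w2 : (starRingEnd ℂ) (P.vertex 2) = W + s * (1 / z - z / x ^ 2))
    (w3 : (starRingEnd ℂ) (P.vertex 3) = W + s * (1 / z - z / y ^ 2 - z / x ^ 2))
    (w4 : (starRingEnd ℂ) (P.vertex 4) = W + s * (1 / z + 1 / y - z / y ^ 2 - z / x ^ 2))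
    (hx : x ≠ 0) (hy : y ≠ 0) (hz : z ≠ 0)
    (hC : s * (-(x ^ 2 / z) - y ^ 2 / z + y + z) + m * (x) = 0)
    (hC1 : s * (1 / z + 1 / y - z / y ^ 2 - z / x ^ 2) + m * (1 / x) = 0) :
    tsrc P (l1_g x y z s m V W nx ny nz) (4, 1) + lv (l1_u x y z s m) (l1_w x y z s m) (0, 1) =
    ttgt P (l1_g x y z s m V W nx ny nz) (2, 0) := by
  change (l1_g x y z s m V W nx ny nz 4).app (P.vertex 2) + (((0 : ℤ) : ℂ) * (l1_u x y z s m) + ((1 : ℤ) : ℂ) * (l1_w x y z s m)) =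
    (l1_g x y z s m V W nx ny nz 2).app (P.vertex 1)
  rw [l1_p4_2 x y z s m V W nx ny nz w2 hx hy hz,
    l1_p2_1 x y z s m V W nx ny nz v1 hx hy hz]
  unfold l1_u l1_w
  push_cast
  (try field_simp) <;> ring

private theorem l1_e9_1 (x y z s m V W : ℂ) (nx : ‖x‖ = 1) (ny : ‖y‖ = 1) (nz : ‖z‖ = 1) {P : Polygon 5}
    (v0 : P.vertex 0 = V)
    (v1 : P.vertex 1 = V + s * (-(x ^ 2 / z)))
    (v2 : P.vertex 2 = V + s * (-(x ^ 2 / z) + z))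
    (v3 : P.vertex 3 = V + s * (-(x ^ 2 / z) - y ^ 2 / z + z))
    (v4 : P.vertex 4 = V + s * (-(x ^ 2 / z) - y ^ 2 / z + y + z))
    (w0 : (starRingEnd ℂ) (P.vertex 0) = W)
    (w1 : (starRingEnd ℂ) (P.vertex 1) = W + s * (-(z / x ^ 2)))
    (w2 : (starRingEnd ℂ) (P.vertex 2) = W + s * (1 / z - z / x ^ 2))
    (w3 : (starRingEnd ℂ) (P.vertex 3) = W + s * (1 / z - z / y ^ 2 - z / x ^ 2))
    (w4 : (starRingEnd ℂ) (P.vertex 4) = W + s * (1 / z + 1 / y - z / y ^ 2 - z / x ^ 2))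
    (hx : x ≠ 0) (hy : y ≠ 0) (hz : z ≠ 0)
    (hC : s * (-(x ^ 2 / z) - y ^ 2 / z + y + z) + m * (x) = 0)
    (hC1 : s * (1 / z + 1 / y - z / y ^ 2 - z / x ^ 2) + m * (1 / x) = 0) :
    ttgt P (l1_g x y z s m V W nx ny nz) (4, 1) + lv (l1_u x y z s m) (l1_w x y z s m) (0, 1) =
    tsrc P (l1_g x y z s m V W nx ny nz) (2, 0) := by
  change (l1_g x y z s m V W nx ny nz 4).app (P.vertex 1) + (((0 : ℤ) : ℂ) * (l1_u x y z s m) + ((1 : ℤ) : ℂ) * (l1_w x y z s m)) =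
    (l1_g x y z s m V W nx ny nz 2).app (P.vertex 0)
  rw [l1_p4_1 x y z s m V W nx ny nz w1 hx hy hz,
    l1_p2_0 x y z s m V W nx ny nz v0 hx hy hz]
  unfold l1_u l1_w
  push_cast
  (try field_simp) <;> ring

private theorem l1_e10_0 (x y z s m V W : ℂ) (nx : ‖x‖ = 1) (ny : ‖y‖ = 1) (nz : ‖z‖ = 1) {P : Polygon 5}
    (v0 : P.vertex 0 = V)
    (v1 : P.vertex 1 = V + s * (-(x ^ 2 / z)))
    (v2 : P.vertex 2 = V + s * (-(x ^ 2 / z) + z))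
    (v3 : P.vertex 3 = V + s * (-(x ^ 2 / z) - y ^ 2 / z + z))
    (v4 : P.vertex 4 = V + s * (-(x ^ 2 / z) - y ^ 2 / z + y + z))
    (w0 : (starRingEnd ℂ) (P.vertex 0) = W)
    (w1 : (starRingEnd ℂ) (P.vertex 1) = W + s * (-(z / x ^ 2)))
    (w2 : (starRingEnd ℂ) (P.vertex 2) = W + s * (1 / z - z / x ^ 2))
    (w3 : (starRingEnd ℂ) (P.vertex 3) = W + s * (1 / z - z / y ^ 2 - z / x ^ 2))
    (w4 : (starRingEnd ℂ) (P.vertex 4) = W + s * (1 / z + 1 / y - z / y ^ 2 - z / x ^ 2))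
    (hx : x ≠ 0) (hy : y ≠ 0) (hz : z ≠ 0)
    (hC : s * (-(x ^ 2 / z) - y ^ 2 / z + y + z) + m * (x) = 0)
    (hC1 : s * (1 / z + 1 / y - z / y ^ 2 - z / x ^ 2) + m * (1 / x) = 0) :
    tsrc P (l1_g x y z s m V W nx ny nz) (6, 3) + lv (l1_u x y z s m) (l1_w x y z s m) (0, 1) =
    ttgt P (l1_g x y z s m V W nx ny nz) (2, 1) := by
  change (l1_g x y z s m V W nx ny nz 6).app (P.vertex 3) + (((0 : ℤ) : ℂ) * (l1_u x y z s m) + ((1 : ℤ) : ℂ) * (l1_w x y z s m)) =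
    (l1_g x y z s m V W nx ny nz 2).app (P.vertex 2)
  rw [l1_p6_3 x y z s m V W nx ny nz v3 hx hy hz,
    l1_p2_2 x y z s m V W nx ny nz v2 hx hy hz]
  unfold l1_u l1_w
  push_cast
  exact l1_z (A0 := -(1)) (A1 := x ^ 2) hC hC1
      (by (try field_simp) <;> ring)

private theorem l1_e10_1 (x y z s m V W : ℂ) (nx : ‖x‖ = 1) (ny : ‖y‖ = 1) (nz : ‖z‖ = 1) {P : Polygon 5}
    (v0 : P.vertex 0 = V)
    (v1 : P.vertex 1 = V + s * (-(x ^ 2 / z)))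
    (v2 : P.vertex 2 = V + s * (-(x ^ 2 / z) + z))
    (v3 : P.vertex 3 = V + s * (-(x ^ 2 / z) - y ^ 2 / z + z))
    (v4 : P.vertex 4 = V + s * (-(x ^ 2 / z) - y ^ 2 / z + y + z))
    (w0 : (starRingEnd ℂ) (P.vertex 0) = W)
    (w1 : (starRingEnd ℂ) (P.vertex 1) = W + s * (-(z / x ^ 2)))
    (w2 : (starRingEnd ℂ) (P.vertex 2) = W + s * (1 / z - z / x ^ 2))
    (w3 : (starRingEnd ℂ) (P.vertex 3) = W + s * (1 / z - z / y ^ 2 - z / x ^ 2))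
    (w4 : (starRingEnd ℂ) (P.vertex 4) = W + s * (1 / z + 1 / y - z / y ^ 2 - z / x ^ 2))
    (hx : x ≠ 0) (hy : y ≠ 0) (hz : z ≠ 0)
    (hC : s * (-(x ^ 2 / z) - y ^ 2 / z + y + z) + m * (x) = 0)
    (hC1 : s * (1 / z + 1 / y - z / y ^ 2 - z / x ^ 2) + m * (1 / x) = 0) :
    ttgt P (l1_g x y z s m V W nx ny nz) (6, 3) + lv (l1_u x y z s m) (l1_w x y z s m) (0, 1) =
    tsrc P (l1_g x y z s m V W nx ny nz) (2, 1) := by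
  change (l1_g x y z s m V W nx ny nz 6).app (P.vertex 4) + (((0 : ℤ) : ℂ) * (l1_u x y z s m) + ((1 : ℤ) : ℂ) * (l1_w x y z s m)) =
    (l1_g x y z s m V W nx ny nz 2).app (P.vertex 1)
  rw [l1_p6_4 x y z s m V W nx ny nz v4 hx hy hz,
    l1_p2_1 x y z s m V W nx ny nz v1 hx hy hz]
  unfold l1_u l1_w
  push_cast
  exact l1_z (A0 := -(1)) (A1 := x ^ 2) hC hC1
      (by (try field_simp) <;> ring)

private theorem l1_e11_0 (x y z s m V W : ℂ) (nx : ‖x‖ = 1) (ny : ‖y‖ = 1) (nz : ‖z‖ = 1) {P : Polygon 5}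
    (v0 : P.vertex 0 = V)
    (v1 : P.vertex 1 = V + s * (-(x ^ 2 / z)))
    (v2 : P.vertex 2 = V + s * (-(x ^ 2 / z) + z))
    (v3 : P.vertex 3 = V + s * (-(x ^ 2 / z) - y ^ 2 / z + z))
    (v4 : P.vertex 4 = V + s * (-(x ^ 2 / z) - y ^ 2 / z + y + z))
    (w0 : (starRingEnd ℂ) (P.vertex 0) = W)
    (w1 : (starRingEnd ℂ) (P.vertex 1) = W + s * (-(z / x ^ 2)))
    (w2 : (starRingEnd ℂ) (P.vertex 2) = W + s * (1 / z - z / x ^ 2))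
    (w3 : (starRingEnd ℂ) (P.vertex 3) = W + s * (1 / z - z / y ^ 2 - z / x ^ 2))
    (w4 : (starRingEnd ℂ) (P.vertex 4) = W + s * (1 / z + 1 / y - z / y ^ 2 - z / x ^ 2))
    (hx : x ≠ 0) (hy : y ≠ 0) (hz : z ≠ 0)
    (hC : s * (-(x ^ 2 / z) - y ^ 2 / z + y + z) + m * (x) = 0)
    (hC1 : s * (1 / z + 1 / y - z / y ^ 2 - z / x ^ 2) + m * (1 / x) = 0) :
    tsrc P (l1_g x y z s m V W nx ny nz) (7, 2) + lv (l1_u x y z s m) (l1_w x y z s m) (0, 0) =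
    ttgt P (l1_g x y z s m V W nx ny nz) (2, 2) := by
  change (l1_g x y z s m V W nx ny nz 7).app (P.vertex 2) + (((0 : ℤ) : ℂ) * (l1_u x y z s m) + ((0 : ℤ) : ℂ) * (l1_w x y z s m)) =
    (l1_g x y z s m V W nx ny nz 2).app (P.vertex 3)
  rw [l1_p7_2 x y z s m V W nx ny nz v2 hx hy hz,
    l1_p2_3 x y z s m V W nx ny nz v3 hx hy hz]
  unfold l1_u l1_w
  push_cast
  (try field_simp) <;> ring

private theorem l1_e11_1 (x y z s m V W : ℂ) (nx : ‖x‖ = 1) (ny : ‖y‖ = 1) (nz : ‖z‖ = 1) {P : Polygon 5}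
    (v0 : P.vertex 0 = V)
    (v1 : P.vertex 1 = V + s * (-(x ^ 2 / z)))
    (v2 : P.vertex 2 = V + s * (-(x ^ 2 / z) + z))
    (v3 : P.vertex 3 = V + s * (-(x ^ 2 / z) - y ^ 2 / z + z))
    (v4 : P.vertex 4 = V + s * (-(x ^ 2 / z) - y ^ 2 / z + y + z))
    (w0 : (starRingEnd ℂ) (P.vertex 0) = W)
    (w1 : (starRingEnd ℂ) (P.vertex 1) = W + s * (-(z / x ^ 2)))
    (w2 : (starRingEnd ℂ) (P.vertex 2) = W + s * (1 / z - z / x ^ 2))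
    (w3 : (starRingEnd ℂ) (P.vertex 3) = W + s * (1 / z - z / y ^ 2 - z / x ^ 2))
    (w4 : (starRingEnd ℂ) (P.vertex 4) = W + s * (1 / z + 1 / y - z / y ^ 2 - z / x ^ 2))
    (hx : x ≠ 0) (hy : y ≠ 0) (hz : z ≠ 0)
    (hC : s * (-(x ^ 2 / z) - y ^ 2 / z + y + z) + m * (x) = 0)
    (hC1 : s * (1 / z + 1 / y - z / y ^ 2 - z / x ^ 2) + m * (1 / x) = 0) :
    ttgt P (l1_g x y z s m V W nx ny nz) (7, 2) + lv (l1_u x y z s m) (l1_w x y z s m) (0, 0) =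
    tsrc P (l1_g x y z s m V W nx ny nz) (2, 2) := by
  change (l1_g x y z s m V W nx ny nz 7).app (P.vertex 3) + (((0 : ℤ) : ℂ) * (l1_u x y z s m) + ((0 : ℤ) : ℂ) * (l1_w x y z s m)) =
    (l1_g x y z s m V W nx ny nz 2).app (P.vertex 2)
  rw [l1_p7_3 x y z s m V W nx ny nz v3 hx hy hz,
    l1_p2_2 x y z s m V W nx ny nz v2 hx hy hz]
  unfold l1_u l1_w
  push_cast
  (try field_simp) <;> ring

private theorem l1_e12_0 (x y z s m V W : ℂ) (nx : ‖x‖ = 1) (ny : ‖y‖ = 1) (nz : ‖z‖ = 1) {P : Polygon 5}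
    (v0 : P.vertex 0 = V)
    (v1 : P.vertex 1 = V + s * (-(x ^ 2 / z)))
    (v2 : P.vertex 2 = V + s * (-(x ^ 2 / z) + z))
    (v3 : P.vertex 3 = V + s * (-(x ^ 2 / z) - y ^ 2 / z + z))
    (v4 : P.vertex 4 = V + s * (-(x ^ 2 / z) - y ^ 2 / z + y + z))
    (w0 : (starRingEnd ℂ) (P.vertex 0) = W)
    (w1 : (starRingEnd ℂ) (P.vertex 1) = W + s * (-(z / x ^ 2)))
    (w2 : (starRingEnd ℂ) (P.vertex 2) = W + s * (1 / z - z / x ^ 2))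
    (w3 : (starRingEnd ℂ) (P.vertex 3) = W + s * (1 / z - z / y ^ 2 - z / x ^ 2))
    (w4 : (starRingEnd ℂ) (P.vertex 4) = W + s * (1 / z + 1 / y - z / y ^ 2 - z / x ^ 2))
    (hx : x ≠ 0) (hy : y ≠ 0) (hz : z ≠ 0)
    (hC : s * (-(x ^ 2 / z) - y ^ 2 / z + y + z) + m * (x) = 0)
    (hC1 : s * (1 / z + 1 / y - z / y ^ 2 - z / x ^ 2) + m * (1 / x) = 0) :
    tsrc P (l1_g x y z s m V W nx ny nz) (3, 4) + lv (l1_u x y z s m) (l1_w x y z s m) (0, 0) =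
    ttgt P (l1_g x y z s m V W nx ny nz) (2, 4) := by
  change (l1_g x y z s m V W nx ny nz 3).app (P.vertex 0) + (((0 : ℤ) : ℂ) * (l1_u x y z s m) + ((0 : ℤ) : ℂ) * (l1_w x y z s m)) =
    (l1_g x y z s m V W nx ny nz 2).app (P.vertex 0)
  rw [l1_p3_0 x y z s m V W nx ny nz w0 hx hy hz,
    l1_p2_0 x y z s m V W nx ny nz v0 hx hy hz]
  unfold l1_u l1_w
  push_cast
  exact l1_z (A0 := y / z) (A1 := -(x ^ 2 * y / z)) hC hC1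
      (by (try field_simp) <;> ring)

private theorem l1_e12_1 (x y z s m V W : ℂ) (nx : ‖x‖ = 1) (ny : ‖y‖ = 1) (nz : ‖z‖ = 1) {P : Polygon 5}
    (v0 : P.vertex 0 = V)
    (v1 : P.vertex 1 = V + s * (-(x ^ 2 / z)))
    (v2 : P.vertex 2 = V + s * (-(x ^ 2 / z) + z))
    (v3 : P.vertex 3 = V + s * (-(x ^ 2 / z) - y ^ 2 / z + z))
    (v4 : P.vertex 4 = V + s * (-(x ^ 2 / z) - y ^ 2 / z + y + z))
    (w0 : (starRingEnd ℂ) (P.vertex 0) = W)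
    (w1 : (starRingEnd ℂ) (P.vertex 1) = W + s * (-(z / x ^ 2)))
    (w2 : (starRingEnd ℂ) (P.vertex 2) = W + s * (1 / z - z / x ^ 2))
    (w3 : (starRingEnd ℂ) (P.vertex 3) = W + s * (1 / z - z / y ^ 2 - z / x ^ 2))
    (w4 : (starRingEnd ℂ) (P.vertex 4) = W + s * (1 / z + 1 / y - z / y ^ 2 - z / x ^ 2))
    (hx : x ≠ 0) (hy : y ≠ 0) (hz : z ≠ 0)
    (hC : s * (-(x ^ 2 / z) - y ^ 2 / z + y + z) + m * (x) = 0)
    (hC1 : s * (1 / z + 1 / y - z / y ^ 2 - z / x ^ 2) + m * (1 / x) = 0) :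
    ttgt P (l1_g x y z s m V W nx ny nz) (3, 4) + lv (l1_u x y z s m) (l1_w x y z s m) (0, 0) =
    tsrc P (l1_g x y z s m V W nx ny nz) (2, 4) := by
  change (l1_g x y z s m V W nx ny nz 3).app (P.vertex 4) + (((0 : ℤ) : ℂ) * (l1_u x y z s m) + ((0 : ℤ) : ℂ) * (l1_w x y z s m)) =
    (l1_g x y z s m V W nx ny nz 2).app (P.vertex 4)
  rw [l1_p3_4 x y z s m V W nx ny nz w4 hx hy hz,
    l1_p2_4 x y z s m V W nx ny nz v4 hx hy hz]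
  unfold l1_u l1_w
  push_cast
  (try field_simp) <;> ring

private theorem l1_e13_0 (x y z s m V W : ℂ) (nx : ‖x‖ = 1) (ny : ‖y‖ = 1) (nz : ‖z‖ = 1) {P : Polygon 5}
    (v0 : P.vertex 0 = V)
    (v1 : P.vertex 1 = V + s * (-(x ^ 2 / z)))
    (v2 : P.vertex 2 = V + s * (-(x ^ 2 / z) + z))
    (v3 : P.vertex 3 = V + s * (-(x ^ 2 / z) - y ^ 2 / z + z))
    (v4 : P.vertex 4 = V + s * (-(x ^ 2 / z) - y ^ 2 / z + y + z))
    (w0 : (starRingEnd ℂ) (P.vertex 0) = W)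
    (w1 : (starRingEnd ℂ) (P.vertex 1) = W + s * (-(z / x ^ 2)))
    (w2 : (starRingEnd ℂ) (P.vertex 2) = W + s * (1 / z - z / x ^ 2))
    (w3 : (starRingEnd ℂ) (P.vertex 3) = W + s * (1 / z - z / y ^ 2 - z / x ^ 2))
    (w4 : (starRingEnd ℂ) (P.vertex 4) = W + s * (1 / z + 1 / y - z / y ^ 2 - z / x ^ 2))
    (hx : x ≠ 0) (hy : y ≠ 0) (hz : z ≠ 0)
    (hC : s * (-(x ^ 2 / z) - y ^ 2 / z + y + z) + m * (x) = 0)
    (hC1 : s * (1 / z + 1 / y - z / y ^ 2 - z / x ^ 2) + m * (1 / x) = 0) :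
    tsrc P (l1_g x y z s m V W nx ny nz) (4, 0) + lv (l1_u x y z s m) (l1_w x y z s m) (0, 1) =
    ttgt P (l1_g x y z s m V W nx ny nz) (3, 0) := by
  change (l1_g x y z s m V W nx ny nz 4).app (P.vertex 1) + (((0 : ℤ) : ℂ) * (l1_u x y z s m) + ((1 : ℤ) : ℂ) * (l1_w x y z s m)) =
    (l1_g x y z s m V W nx ny nz 3).app (P.vertex 0)
  rw [l1_p4_1 x y z s m V W nx ny nz w1 hx hy hz,
    l1_p3_0 x y z s m V W nx ny nz w0 hx hy hz]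
  unfold l1_u l1_w
  push_cast
  exact l1_z (A0 := -(y / z)) (A1 := x ^ 2 * y / z) hC hC1
      (by (try field_simp) <;> ring)

private theorem l1_e13_1 (x y z s m V W : ℂ) (nx : ‖x‖ = 1) (ny : ‖y‖ = 1) (nz : ‖z‖ = 1) {P : Polygon 5}
    (v0 : P.vertex 0 = V)
    (v1 : P.vertex 1 = V + s * (-(x ^ 2 / z)))
    (v2 : P.vertex 2 = V + s * (-(x ^ 2 / z) + z))
    (v3 : P.vertex 3 = V + s * (-(x ^ 2 / z) - y ^ 2 / z + z))
    (v4 : P.vertex 4 = V + s * (-(x ^ 2 / z) - y ^ 2 / z + y + z))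
    (w0 : (starRingEnd ℂ) (P.vertex 0) = W)
    (w1 : (starRingEnd ℂ) (P.vertex 1) = W + s * (-(z / x ^ 2)))
    (w2 : (starRingEnd ℂ) (P.vertex 2) = W + s * (1 / z - z / x ^ 2))
    (w3 : (starRingEnd ℂ) (P.vertex 3) = W + s * (1 / z - z / y ^ 2 - z / x ^ 2))
    (w4 : (starRingEnd ℂ) (P.vertex 4) = W + s * (1 / z + 1 / y - z / y ^ 2 - z / x ^ 2))
    (hx : x ≠ 0) (hy : y ≠ 0) (hz : z ≠ 0)
    (hC : s * (-(x ^ 2 / z) - y ^ 2 / z + y + z) + m * (x) = 0)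
    (hC1 : s * (1 / z + 1 / y - z / y ^ 2 - z / x ^ 2) + m * (1 / x) = 0) :
    ttgt P (l1_g x y z s m V W nx ny nz) (4, 0) + lv (l1_u x y z s m) (l1_w x y z s m) (0, 1) =
    tsrc P (l1_g x y z s m V W nx ny nz) (3, 0) := by
  change (l1_g x y z s m V W nx ny nz 4).app (P.vertex 0) + (((0 : ℤ) : ℂ) * (l1_u x y z s m) + ((1 : ℤ) : ℂ) * (l1_w x y z s m)) =
    (l1_g x y z s m V W nx ny nz 3).app (P.vertex 1)
  rw [l1_p4_0 x y z s m V W nx ny nz w0 hx hy hz,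
    l1_p3_1 x y z s m V W nx ny nz w1 hx hy hz]
  unfold l1_u l1_w
  push_cast
  exact l1_z (A0 := -(y / z)) (A1 := x ^ 2 * y / z) hC hC1
      (by (try field_simp) <;> ring)

private theorem l1_e14_0 (x y z s m V W : ℂ) (nx : ‖x‖ = 1) (ny : ‖y‖ = 1) (nz : ‖z‖ = 1) {P : Polygon 5}
    (v0 : P.vertex 0 = V)
    (v1 : P.vertex 1 = V + s * (-(x ^ 2 / z)))
    (v2 : P.vertex 2 = V + s * (-(x ^ 2 / z) + z))
    (v3 : P.vertex 3 = V + s * (-(x ^ 2 / z) - y ^ 2 / z + z))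
    (v4 : P.vertex 4 = V + s * (-(x ^ 2 / z) - y ^ 2 / z + y + z))
    (w0 : (starRingEnd ℂ) (P.vertex 0) = W)
    (w1 : (starRingEnd ℂ) (P.vertex 1) = W + s * (-(z / x ^ 2)))
    (w2 : (starRingEnd ℂ) (P.vertex 2) = W + s * (1 / z - z / x ^ 2))
    (w3 : (starRingEnd ℂ) (P.vertex 3) = W + s * (1 / z - z / y ^ 2 - z / x ^ 2))
    (w4 : (starRingEnd ℂ) (P.vertex 4) = W + s * (1 / z + 1 / y - z / y ^ 2 - z / x ^ 2))
    (hx : x ≠ 0) (hy : y ≠ 0) (hz : z ≠ 0)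
    (hC : s * (-(x ^ 2 / z) - y ^ 2 / z + y + z) + m * (x) = 0)
    (hC1 : s * (1 / z + 1 / y - z / y ^ 2 - z / x ^ 2) + m * (1 / x) = 0) :
    tsrc P (l1_g x y z s m V W nx ny nz) (7, 0) + lv (l1_u x y z s m) (l1_w x y z s m) (1, 0) =
    ttgt P (l1_g x y z s m V W nx ny nz) (3, 1) := by
  change (l1_g x y z s m V W nx ny nz 7).app (P.vertex 0) + (((1 : ℤ) : ℂ) * (l1_u x y z s m) + ((0 : ℤ) : ℂ) * (l1_w x y z s m)) =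
    (l1_g x y z s m V W nx ny nz 3).app (P.vertex 1)
  rw [l1_p7_0 x y z s m V W nx ny nz v0 hx hy hz,
    l1_p3_1 x y z s m V W nx ny nz w1 hx hy hz]
  unfold l1_u l1_w
  push_cast
  (try field_simp) <;> ring

private theorem l1_e14_1 (x y z s m V W : ℂ) (nx : ‖x‖ = 1) (ny : ‖y‖ = 1) (nz : ‖z‖ = 1) {P : Polygon 5}
    (v0 : P.vertex 0 = V)
    (v1 : P.vertex 1 = V + s * (-(x ^ 2 / z)))
    (v2 : P.vertex 2 = V + s * (-(x ^ 2 / z) + z))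
    (v3 : P.vertex 3 = V + s * (-(x ^ 2 / z) - y ^ 2 / z + z))
    (v4 : P.vertex 4 = V + s * (-(x ^ 2 / z) - y ^ 2 / z + y + z))
    (w0 : (starRingEnd ℂ) (P.vertex 0) = W)
    (w1 : (starRingEnd ℂ) (P.vertex 1) = W + s * (-(z / x ^ 2)))
    (w2 : (starRingEnd ℂ) (P.vertex 2) = W + s * (1 / z - z / x ^ 2))
    (w3 : (starRingEnd ℂ) (P.vertex 3) = W + s * (1 / z - z / y ^ 2 - z / x ^ 2))
    (w4 : (starRingEnd ℂ) (P.vertex 4) = W + s * (1 / z + 1 / y - z / y ^ 2 - z / x ^ 2))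
    (hx : x ≠ 0) (hy : y ≠ 0) (hz : z ≠ 0)
    (hC : s * (-(x ^ 2 / z) - y ^ 2 / z + y + z) + m * (x) = 0)
    (hC1 : s * (1 / z + 1 / y - z / y ^ 2 - z / x ^ 2) + m * (1 / x) = 0) :
    ttgt P (l1_g x y z s m V W nx ny nz) (7, 0) + lv (l1_u x y z s m) (l1_w x y z s m) (1, 0) =
    tsrc P (l1_g x y z s m V W nx ny nz) (3, 1) := by
  change (l1_g x y z s m V W nx ny nz 7).app (P.vertex 1) + (((1 : ℤ) : ℂ) * (l1_u x y z s m) + ((0 : ℤ) : ℂ) * (l1_w x y z s m)) =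
    (l1_g x y z s m V W nx ny nz 3).app (P.vertex 2)
  rw [l1_p7_1 x y z s m V W nx ny nz v1 hx hy hz,
    l1_p3_2 x y z s m V W nx ny nz w2 hx hy hz]
  unfold l1_u l1_w
  push_cast
  (try field_simp) <;> ring

private theorem l1_e15_0 (x y z s m V W : ℂ) (nx : ‖x‖ = 1) (ny : ‖y‖ = 1) (nz : ‖z‖ = 1) {P : Polygon 5}
    (v0 : P.vertex 0 = V)
    (v1 : P.vertex 1 = V + s * (-(x ^ 2 / z)))
    (v2 : P.vertex 2 = V + s * (-(x ^ 2 / z) + z))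
    (v3 : P.vertex 3 = V + s * (-(x ^ 2 / z) - y ^ 2 / z + z))
    (v4 : P.vertex 4 = V + s * (-(x ^ 2 / z) - y ^ 2 / z + y + z))
    (w0 : (starRingEnd ℂ) (P.vertex 0) = W)
    (w1 : (starRingEnd ℂ) (P.vertex 1) = W + s * (-(z / x ^ 2)))
    (w2 : (starRingEnd ℂ) (P.vertex 2) = W + s * (1 / z - z / x ^ 2))
    (w3 : (starRingEnd ℂ) (P.vertex 3) = W + s * (1 / z - z / y ^ 2 - z / x ^ 2))
    (w4 : (starRingEnd ℂ) (P.vertex 4) = W + s * (1 / z + 1 / y - z / y ^ 2 - z / x ^ 2))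
    (hx : x ≠ 0) (hy : y ≠ 0) (hz : z ≠ 0)
    (hC : s * (-(x ^ 2 / z) - y ^ 2 / z + y + z) + m * (x) = 0)
    (hC1 : s * (1 / z + 1 / y - z / y ^ 2 - z / x ^ 2) + m * (1 / x) = 0) :
    tsrc P (l1_g x y z s m V W nx ny nz) (5, 3) + lv (l1_u x y z s m) (l1_w x y z s m) (1, 0) =
    ttgt P (l1_g x y z s m V W nx ny nz) (3, 2) := by
  change (l1_g x y z s m V W nx ny nz 5).app (P.vertex 4) + (((1 : ℤ) : ℂ) * (l1_u x y z s m) + ((0 : ℤ) : ℂ) * (l1_w x y z s m)) =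
    (l1_g x y z s m V W nx ny nz 3).app (P.vertex 2)
  rw [l1_p5_4 x y z s m V W nx ny nz w4 hx hy hz,
    l1_p3_2 x y z s m V W nx ny nz w2 hx hy hz]
  unfold l1_u l1_w
  push_cast
  (try field_simp) <;> ring

private theorem l1_e15_1 (x y z s m V W : ℂ) (nx : ‖x‖ = 1) (ny : ‖y‖ = 1) (nz : ‖z‖ = 1) {P : Polygon 5}
    (v0 : P.vertex 0 = V)
    (v1 : P.vertex 1 = V + s * (-(x ^ 2 / z)))
    (v2 : P.vertex 2 = V + s * (-(x ^ 2 / z) + z))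
    (v3 : P.vertex 3 = V + s * (-(x ^ 2 / z) - y ^ 2 / z + z))
    (v4 : P.vertex 4 = V + s * (-(x ^ 2 / z) - y ^ 2 / z + y + z))
    (w0 : (starRingEnd ℂ) (P.vertex 0) = W)
    (w1 : (starRingEnd ℂ) (P.vertex 1) = W + s * (-(z / x ^ 2)))
    (w2 : (starRingEnd ℂ) (P.vertex 2) = W + s * (1 / z - z / x ^ 2))
    (w3 : (starRingEnd ℂ) (P.vertex 3) = W + s * (1 / z - z / y ^ 2 - z / x ^ 2))
    (w4 : (starRingEnd ℂ) (P.vertex 4) = W + s * (1 / z + 1 / y - z / y ^ 2 - z / x ^ 2))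
    (hx : x ≠ 0) (hy : y ≠ 0) (hz : z ≠ 0)
    (hC : s * (-(x ^ 2 / z) - y ^ 2 / z + y + z) + m * (x) = 0)
    (hC1 : s * (1 / z + 1 / y - z / y ^ 2 - z / x ^ 2) + m * (1 / x) = 0) :
    ttgt P (l1_g x y z s m V W nx ny nz) (5, 3) + lv (l1_u x y z s m) (l1_w x y z s m) (1, 0) =
    tsrc P (l1_g x y z s m V W nx ny nz) (3, 2) := by
  change (l1_g x y z s m V W nx ny nz 5).app (P.vertex 3) + (((1 : ℤ) : ℂ) * (l1_u x y z s m) + ((0 : ℤ) : ℂ) * (l1_w x y z s m)) =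
    (l1_g x y z s m V W nx ny nz 3).app (P.vertex 3)
  rw [l1_p5_3 x y z s m V W nx ny nz w3 hx hy hz,
    l1_p3_3 x y z s m V W nx ny nz w3 hx hy hz]
  unfold l1_u l1_w
  push_cast
  (try field_simp) <;> ring

private theorem l1_e16_0 (x y z s m V W : ℂ) (nx : ‖x‖ = 1) (ny : ‖y‖ = 1) (nz : ‖z‖ = 1) {P : Polygon 5}
    (v0 : P.vertex 0 = V)
    (v1 : P.vertex 1 = V + s * (-(x ^ 2 / z)))
    (v2 : P.vertex 2 = V + s * (-(x ^ 2 / z) + z))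
    (v3 : P.vertex 3 = V + s * (-(x ^ 2 / z) - y ^ 2 / z + z))
    (v4 : P.vertex 4 = V + s * (-(x ^ 2 / z) - y ^ 2 / z + y + z))
    (w0 : (starRingEnd ℂ) (P.vertex 0) = W)
    (w1 : (starRingEnd ℂ) (P.vertex 1) = W + s * (-(z / x ^ 2)))
    (w2 : (starRingEnd ℂ) (P.vertex 2) = W + s * (1 / z - z / x ^ 2))
    (w3 : (starRingEnd ℂ) (P.vertex 3) = W + s * (1 / z - z / y ^ 2 - z / x ^ 2))
    (w4 : (starRingEnd ℂ) (P.vertex 4) = W + s * (1 / z + 1 / y - z / y ^ 2 - z / x ^ 2))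
    (hx : x ≠ 0) (hy : y ≠ 0) (hz : z ≠ 0)
    (hC : s * (-(x ^ 2 / z) - y ^ 2 / z + y + z) + m * (x) = 0)
    (hC1 : s * (1 / z + 1 / y - z / y ^ 2 - z / x ^ 2) + m * (1 / x) = 0) :
    tsrc P (l1_g x y z s m V W nx ny nz) (5, 1) + lv (l1_u x y z s m) (l1_w x y z s m) (1, 0) =
    ttgt P (l1_g x y z s m V W nx ny nz) (4, 3) := by
  change (l1_g x y z s m V W nx ny nz 5).app (P.vertex 2) + (((1 : ℤ) : ℂ) * (l1_u x y z s m) + ((0 : ℤ) : ℂ) * (l1_w x y z s m)) =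
    (l1_g x y z s m V W nx ny nz 4).app (P.vertex 3)
  rw [l1_p5_2 x y z s m V W nx ny nz w2 hx hy hz,
    l1_p4_3 x y z s m V W nx ny nz w3 hx hy hz]
  unfold l1_u l1_w
  push_cast
  (try field_simp) <;> ring

private theorem l1_e16_1 (x y z s m V W : ℂ) (nx : ‖x‖ = 1) (ny : ‖y‖ = 1) (nz : ‖z‖ = 1) {P : Polygon 5}
    (v0 : P.vertex 0 = V)
    (v1 : P.vertex 1 = V + s * (-(x ^ 2 / z)))
    (v2 : P.vertex 2 = V + s * (-(x ^ 2 / z) + z))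
    (v3 : P.vertex 3 = V + s * (-(x ^ 2 / z) - y ^ 2 / z + z))
    (v4 : P.vertex 4 = V + s * (-(x ^ 2 / z) - y ^ 2 / z + y + z))
    (w0 : (starRingEnd ℂ) (P.vertex 0) = W)
    (w1 : (starRingEnd ℂ) (P.vertex 1) = W + s * (-(z / x ^ 2)))
    (w2 : (starRingEnd ℂ) (P.vertex 2) = W + s * (1 / z - z / x ^ 2))
    (w3 : (starRingEnd ℂ) (P.vertex 3) = W + s * (1 / z - z / y ^ 2 - z / x ^ 2))
    (w4 : (starRingEnd ℂ) (P.vertex 4) = W + s * (1 / z + 1 / y - z / y ^ 2 - z / x ^ 2))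
    (hx : x ≠ 0) (hy : y ≠ 0) (hz : z ≠ 0)
    (hC : s * (-(x ^ 2 / z) - y ^ 2 / z + y + z) + m * (x) = 0)
    (hC1 : s * (1 / z + 1 / y - z / y ^ 2 - z / x ^ 2) + m * (1 / x) = 0) :
    ttgt P (l1_g x y z s m V W nx ny nz) (5, 1) + lv (l1_u x y z s m) (l1_w x y z s m) (1, 0) =
    tsrc P (l1_g x y z s m V W nx ny nz) (4, 3) := by
  change (l1_g x y z s m V W nx ny nz 5).app (P.vertex 1) + (((1 : ℤ) : ℂ) * (l1_u x y z s m) + ((0 : ℤ) : ℂ) * (l1_w x y z s m)) =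
    (l1_g x y z s m V W nx ny nz 4).app (P.vertex 4)
  rw [l1_p5_1 x y z s m V W nx ny nz w1 hx hy hz,
    l1_p4_4 x y z s m V W nx ny nz w4 hx hy hz]
  unfold l1_u l1_w
  push_cast
  (try field_simp) <;> ring

private theorem l1_e17_0 (x y z s m V W : ℂ) (nx : ‖x‖ = 1) (ny : ‖y‖ = 1) (nz : ‖z‖ = 1) {P : Polygon 5}
    (v0 : P.vertex 0 = V)
    (v1 : P.vertex 1 = V + s * (-(x ^ 2 / z)))
    (v2 : P.vertex 2 = V + s * (-(x ^ 2 / z) + z))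
    (v3 : P.vertex 3 = V + s * (-(x ^ 2 / z) - y ^ 2 / z + z))
    (v4 : P.vertex 4 = V + s * (-(x ^ 2 / z) - y ^ 2 / z + y + z))
    (w0 : (starRingEnd ℂ) (P.vertex 0) = W)
    (w1 : (starRingEnd ℂ) (P.vertex 1) = W + s * (-(z / x ^ 2)))
    (w2 : (starRingEnd ℂ) (P.vertex 2) = W + s * (1 / z - z / x ^ 2))
    (w3 : (starRingEnd ℂ) (P.vertex 3) = W + s * (1 / z - z / y ^ 2 - z / x ^ 2))
    (w4 : (starRingEnd ℂ) (P.vertex 4) = W + s * (1 / z + 1 / y - z / y ^ 2 - z / x ^ 2))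
    (hx : x ≠ 0) (hy : y ≠ 0) (hz : z ≠ 0)
    (hC : s * (-(x ^ 2 / z) - y ^ 2 / z + y + z) + m * (x) = 0)
    (hC1 : s * (1 / z + 1 / y - z / y ^ 2 - z / x ^ 2) + m * (1 / x) = 0) :
    tsrc P (l1_g x y z s m V W nx ny nz) (7, 4) + lv (l1_u x y z s m) (l1_w x y z s m) (1, -1) =
    ttgt P (l1_g x y z s m V W nx ny nz) (4, 4) := by
  change (l1_g x y z s m V W nx ny nz 7).app (P.vertex 4) + (((1 : ℤ) : ℂ) * (l1_u x y z s m) + ((-1 : ℤ) : ℂ) * (l1_w x y z s m)) =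
    (l1_g x y z s m V W nx ny nz 4).app (P.vertex 4)
  rw [l1_p7_4 x y z s m V W nx ny nz v4 hx hy hz,
    l1_p4_4 x y z s m V W nx ny nz w4 hx hy hz]
  unfold l1_u l1_w
  push_cast
  (try field_simp) <;> ring

private theorem l1_e17_1 (x y z s m V W : ℂ) (nx : ‖x‖ = 1) (ny : ‖y‖ = 1) (nz : ‖z‖ = 1) {P : Polygon 5}
    (v0 : P.vertex 0 = V)
    (v1 : P.vertex 1 = V + s * (-(x ^ 2 / z)))
    (v2 : P.vertex 2 = V + s * (-(x ^ 2 / z) + z))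
    (v3 : P.vertex 3 = V + s * (-(x ^ 2 / z) - y ^ 2 / z + z))
    (v4 : P.vertex 4 = V + s * (-(x ^ 2 / z) - y ^ 2 / z + y + z))
    (w0 : (starRingEnd ℂ) (P.vertex 0) = W)
    (w1 : (starRingEnd ℂ) (P.vertex 1) = W + s * (-(z / x ^ 2)))
    (w2 : (starRingEnd ℂ) (P.vertex 2) = W + s * (1 / z - z / x ^ 2))
    (w3 : (starRingEnd ℂ) (P.vertex 3) = W + s * (1 / z - z / y ^ 2 - z / x ^ 2))
    (w4 : (starRingEnd ℂ) (P.vertex 4) = W + s * (1 / z + 1 / y - z / y ^ 2 - z / x ^ 2))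
    (hx : x ≠ 0) (hy : y ≠ 0) (hz : z ≠ 0)
    (hC : s * (-(x ^ 2 / z) - y ^ 2 / z + y + z) + m * (x) = 0)
    (hC1 : s * (1 / z + 1 / y - z / y ^ 2 - z / x ^ 2) + m * (1 / x) = 0) :
    ttgt P (l1_g x y z s m V W nx ny nz) (7, 4) + lv (l1_u x y z s m) (l1_w x y z s m) (1, -1) =
    tsrc P (l1_g x y z s m V W nx ny nz) (4, 4) := by
  change (l1_g x y z s m V W nx ny nz 7).app (P.vertex 0) + (((1 : ℤ) : ℂ) * (l1_u x y z s m) + ((-1 : ℤ) : ℂ) * (l1_w x y z s m)) =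
    (l1_g x y z s m V W nx ny nz 4).app (P.vertex 0)
  rw [l1_p7_0 x y z s m V W nx ny nz v0 hx hy hz,
    l1_p4_0 x y z s m V W nx ny nz w0 hx hy hz]
  unfold l1_u l1_w
  push_cast
  exact l1_z (A0 := y / z) (A1 := -(x ^ 2 * y / z)) hC hC1
      (by (try field_simp) <;> ring)

private theorem l1_e18_0 (x y z s m V W : ℂ) (nx : ‖x‖ = 1) (ny : ‖y‖ = 1) (nz : ‖z‖ = 1) {P : Polygon 5}
    (v0 : P.vertex 0 = V)
    (v1 : P.vertex 1 = V + s * (-(x ^ 2 / z)))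
    (v2 : P.vertex 2 = V + s * (-(x ^ 2 / z) + z))
    (v3 : P.vertex 3 = V + s * (-(x ^ 2 / z) - y ^ 2 / z + z))
    (v4 : P.vertex 4 = V + s * (-(x ^ 2 / z) - y ^ 2 / z + y + z))
    (w0 : (starRingEnd ℂ) (P.vertex 0) = W)
    (w1 : (starRingEnd ℂ) (P.vertex 1) = W + s * (-(z / x ^ 2)))
    (w2 : (starRingEnd ℂ) (P.vertex 2) = W + s * (1 / z - z / x ^ 2))
    (w3 : (starRingEnd ℂ) (P.vertex 3) = W + s * (1 / z - z / y ^ 2 - z / x ^ 2))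
    (w4 : (starRingEnd ℂ) (P.vertex 4) = W + s * (1 / z + 1 / y - z / y ^ 2 - z / x ^ 2))
    (hx : x ≠ 0) (hy : y ≠ 0) (hz : z ≠ 0)
    (hC : s * (-(x ^ 2 / z) - y ^ 2 / z + y + z) + m * (x) = 0)
    (hC1 : s * (1 / z + 1 / y - z / y ^ 2 - z / x ^ 2) + m * (1 / x) = 0) :
    tsrc P (l1_g x y z s m V W nx ny nz) (6, 1) + lv (l1_u x y z s m) (l1_w x y z s m) (0, 0) =
    ttgt P (l1_g x y z s m V W nx ny nz) (5, 0) := by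
  change (l1_g x y z s m V W nx ny nz 6).app (P.vertex 1) + (((0 : ℤ) : ℂ) * (l1_u x y z s m) + ((0 : ℤ) : ℂ) * (l1_w x y z s m)) =
    (l1_g x y z s m V W nx ny nz 5).app (P.vertex 0)
  rw [l1_p6_1 x y z s m V W nx ny nz v1 hx hy hz,
    l1_p5_0 x y z s m V W nx ny nz w0 hx hy hz]
  unfold l1_u l1_w
  push_cast
  exact l1_z (A0 := -(1)) (A1 := x ^ 2) hC hC1
      (by (try field_simp) <;> ring)

private theorem l1_e18_1 (x y z s m V W : ℂ) (nx : ‖x‖ = 1) (ny : ‖y‖ = 1) (nz : ‖z‖ = 1) {P : Polygon 5}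
    (v0 : P.vertex 0 = V)
    (v1 : P.vertex 1 = V + s * (-(x ^ 2 / z)))
    (v2 : P.vertex 2 = V + s * (-(x ^ 2 / z) + z))
    (v3 : P.vertex 3 = V + s * (-(x ^ 2 / z) - y ^ 2 / z + z))
    (v4 : P.vertex 4 = V + s * (-(x ^ 2 / z) - y ^ 2 / z + y + z))
    (w0 : (starRingEnd ℂ) (P.vertex 0) = W)
    (w1 : (starRingEnd ℂ) (P.vertex 1) = W + s * (-(z / x ^ 2)))
    (w2 : (starRingEnd ℂ) (P.vertex 2) = W + s * (1 / z - z / x ^ 2))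
    (w3 : (starRingEnd ℂ) (P.vertex 3) = W + s * (1 / z - z / y ^ 2 - z / x ^ 2))
    (w4 : (starRingEnd ℂ) (P.vertex 4) = W + s * (1 / z + 1 / y - z / y ^ 2 - z / x ^ 2))
    (hx : x ≠ 0) (hy : y ≠ 0) (hz : z ≠ 0)
    (hC : s * (-(x ^ 2 / z) - y ^ 2 / z + y + z) + m * (x) = 0)
    (hC1 : s * (1 / z + 1 / y - z / y ^ 2 - z / x ^ 2) + m * (1 / x) = 0) :
    ttgt P (l1_g x y z s m V W nx ny nz) (6, 1) + lv (l1_u x y z s m) (l1_w x y z s m) (0, 0) =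
    tsrc P (l1_g x y z s m V W nx ny nz) (5, 0) := by
  change (l1_g x y z s m V W nx ny nz 6).app (P.vertex 2) + (((0 : ℤ) : ℂ) * (l1_u x y z s m) + ((0 : ℤ) : ℂ) * (l1_w x y z s m)) =
    (l1_g x y z s m V W nx ny nz 5).app (P.vertex 1)
  rw [l1_p6_2 x y z s m V W nx ny nz v2 hx hy hz,
    l1_p5_1 x y z s m V W nx ny nz w1 hx hy hz]
  unfold l1_u l1_w
  push_cast
  exact l1_z (A0 := -(1)) (A1 := x ^ 2) hC hC1
      (by (try field_simp) <;> ring)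

private theorem l1_e19_0 (x y z s m V W : ℂ) (nx : ‖x‖ = 1) (ny : ‖y‖ = 1) (nz : ‖z‖ = 1) {P : Polygon 5}
    (v0 : P.vertex 0 = V)
    (v1 : P.vertex 1 = V + s * (-(x ^ 2 / z)))
    (v2 : P.vertex 2 = V + s * (-(x ^ 2 / z) + z))
    (v3 : P.vertex 3 = V + s * (-(x ^ 2 / z) - y ^ 2 / z + z))
    (v4 : P.vertex 4 = V + s * (-(x ^ 2 / z) - y ^ 2 / z + y + z))
    (w0 : (starRingEnd ℂ) (P.vertex 0) = W)
    (w1 : (starRingEnd ℂ) (P.vertex 1) = W + s * (-(z / x ^ 2)))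
    (w2 : (starRingEnd ℂ) (P.vertex 2) = W + s * (1 / z - z / x ^ 2))
    (w3 : (starRingEnd ℂ) (P.vertex 3) = W + s * (1 / z - z / y ^ 2 - z / x ^ 2))
    (w4 : (starRingEnd ℂ) (P.vertex 4) = W + s * (1 / z + 1 / y - z / y ^ 2 - z / x ^ 2))
    (hx : x ≠ 0) (hy : y ≠ 0) (hz : z ≠ 0)
    (hC : s * (-(x ^ 2 / z) - y ^ 2 / z + y + z) + m * (x) = 0)
    (hC1 : s * (1 / z + 1 / y - z / y ^ 2 - z / x ^ 2) + m * (1 / x) = 0) :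
    tsrc P (l1_g x y z s m V W nx ny nz) (7, 3) + lv (l1_u x y z s m) (l1_w x y z s m) (0, -1) =
    ttgt P (l1_g x y z s m V W nx ny nz) (6, 2) := by
  change (l1_g x y z s m V W nx ny nz 7).app (P.vertex 3) + (((0 : ℤ) : ℂ) * (l1_u x y z s m) + ((-1 : ℤ) : ℂ) * (l1_w x y z s m)) =
    (l1_g x y z s m V W nx ny nz 6).app (P.vertex 3)
  rw [l1_p7_3 x y z s m V W nx ny nz v3 hx hy hz,
    l1_p6_3 x y z s m V W nx ny nz v3 hx hy hz]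
  unfold l1_u l1_w
  push_cast
  exact l1_z (A0 := 1) (A1 := -(x ^ 2)) hC hC1
      (by (try field_simp) <;> ring)

private theorem l1_e19_1 (x y z s m V W : ℂ) (nx : ‖x‖ = 1) (ny : ‖y‖ = 1) (nz : ‖z‖ = 1) {P : Polygon 5}
    (v0 : P.vertex 0 = V)
    (v1 : P.vertex 1 = V + s * (-(x ^ 2 / z)))
    (v2 : P.vertex 2 = V + s * (-(x ^ 2 / z) + z))
    (v3 : P.vertex 3 = V + s * (-(x ^ 2 / z) - y ^ 2 / z + z))
    (v4 : P.vertex 4 = V + s * (-(x ^ 2 / z) - y ^ 2 / z + y + z))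
    (w0 : (starRingEnd ℂ) (P.vertex 0) = W)
    (w1 : (starRingEnd ℂ) (P.vertex 1) = W + s * (-(z / x ^ 2)))
    (w2 : (starRingEnd ℂ) (P.vertex 2) = W + s * (1 / z - z / x ^ 2))
    (w3 : (starRingEnd ℂ) (P.vertex 3) = W + s * (1 / z - z / y ^ 2 - z / x ^ 2))
    (w4 : (starRingEnd ℂ) (P.vertex 4) = W + s * (1 / z + 1 / y - z / y ^ 2 - z / x ^ 2))
    (hx : x ≠ 0) (hy : y ≠ 0) (hz : z ≠ 0)
    (hC : s * (-(x ^ 2 / z) - y ^ 2 / z + y + z) + m * (x) = 0)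
    (hC1 : s * (1 / z + 1 / y - z / y ^ 2 - z / x ^ 2) + m * (1 / x) = 0) :
    ttgt P (l1_g x y z s m V W nx ny nz) (7, 3) + lv (l1_u x y z s m) (l1_w x y z s m) (0, -1) =
    tsrc P (l1_g x y z s m V W nx ny nz) (6, 2) := by
  change (l1_g x y z s m V W nx ny nz 7).app (P.vertex 4) + (((0 : ℤ) : ℂ) * (l1_u x y z s m) + ((-1 : ℤ) : ℂ) * (l1_w x y z s m)) =
    (l1_g x y z s m V W nx ny nz 6).app (P.vertex 2)
  rw [l1_p7_4 x y z s m V W nx ny nz v4 hx hy hz,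
    l1_p6_2 x y z s m V W nx ny nz v2 hx hy hz]
  unfold l1_u l1_w
  push_cast
  exact l1_z (A0 := 1) (A1 := -(x ^ 2)) hC hC1
      (by (try field_simp) <;> ring)

private theorem l1_s1 (x y z s m V W : ℂ) (nx : ‖x‖ = 1) (ny : ‖y‖ = 1) (nz : ‖z‖ = 1) {P : Polygon 5}
    (v0 : P.vertex 0 = V)
    (v1 : P.vertex 1 = V + s * (-(x ^ 2 / z)))
    (v2 : P.vertex 2 = V + s * (-(x ^ 2 / z) + z))
    (v3 : P.vertex 3 = V + s * (-(x ^ 2 / z) - y ^ 2 / z + z))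
    (v4 : P.vertex 4 = V + s * (-(x ^ 2 / z) - y ^ 2 / z + y + z))
    (w0 : (starRingEnd ℂ) (P.vertex 0) = W)
    (w1 : (starRingEnd ℂ) (P.vertex 1) = W + s * (-(z / x ^ 2)))
    (w2 : (starRingEnd ℂ) (P.vertex 2) = W + s * (1 / z - z / x ^ 2))
    (w3 : (starRingEnd ℂ) (P.vertex 3) = W + s * (1 / z - z / y ^ 2 - z / x ^ 2))
    (w4 : (starRingEnd ℂ) (P.vertex 4) = W + s * (1 / z + 1 / y - z / y ^ 2 - z / x ^ 2))
    (hx : x ≠ 0) (hy : y ≠ 0) (hz : z ≠ 0)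
    (hC : s * (-(x ^ 2 / z) - y ^ 2 / z + y + z) + m * (x) = 0)
    (hC1 : s * (1 / z + 1 / y - z / y ^ 2 - z / x ^ 2) + m * (1 / x) = 0) :
    (l1_tb.map fun e => (e.2.2.1 : ℂ) * (ttgt P (l1_g x y z s m V W nx ny nz) e.1 -
    tsrc P (l1_g x y z s m V W nx ny nz) e.1)).sum = (l1_w x y z s m) := by
  unfold l1_tb
  simp only [List.map_cons, List.map_nil, List.sum_cons, List.sum_nil, Int.cast_zero, zero_mul,
    zero_add, add_zero]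
  change ((1 : ℤ) : ℂ) * ((l1_g x y z s m V W nx ny nz 1).app (P.vertex 2) - (l1_g x y z s m V W nx ny nz 1).app (P.vertex 3)) + (((1 : ℤ) : ℂ) * ((l1_g x y z s m V W nx ny nz 3).app (P.vertex 1) - (l1_g x y z s m V W nx ny nz 3).app (P.vertex 2)) + (((1 : ℤ) : ℂ) * ((l1_g x y z s m V W nx ny nz 3).app (P.vertex 2) - (l1_g x y z s m V W nx ny nz 3).app (P.vertex 3)) + (((1 : ℤ) : ℂ) * ((l1_g x y z s m V W nx ny nz 4).app (P.vertex 3) - (l1_g x y z s m V W nx ny nz 4).app (P.vertex 4)) + (((1 : ℤ) : ℂ) * ((l1_g x y z s m V W nx ny nz 4).app (P.vertex 4) - (l1_g x y z s m V W nx ny nz 4).app (P.vertex 0)))))) = _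
  rw [l1_p1_2 x y z s m V W nx ny nz w2 hx hy hz,
    l1_p1_3 x y z s m V W nx ny nz w3 hx hy hz,
    l1_p3_1 x y z s m V W nx ny nz w1 hx hy hz,
    l1_p3_2 x y z s m V W nx ny nz w2 hx hy hz,
    l1_p3_3 x y z s m V W nx ny nz w3 hx hy hz,
    l1_p4_3 x y z s m V W nx ny nz w3 hx hy hz,
    l1_p4_4 x y z s m V W nx ny nz w4 hx hy hz,
    l1_p4_0 x y z s m V W nx ny nz w0 hx hy hz]
  unfold l1_w
  push_cast
  exact l1_z (A0 := y / z) (A1 := -(x ^ 2 * y / z)) hC hC1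
      (by (try field_simp) <;> ring)

private theorem l1_s2 (x y z s m V W : ℂ) (nx : ‖x‖ = 1) (ny : ‖y‖ = 1) (nz : ‖z‖ = 1) {P : Polygon 5}
    (v0 : P.vertex 0 = V)
    (v1 : P.vertex 1 = V + s * (-(x ^ 2 / z)))
    (v2 : P.vertex 2 = V + s * (-(x ^ 2 / z) + z))
    (v3 : P.vertex 3 = V + s * (-(x ^ 2 / z) - y ^ 2 / z + z))
    (v4 : P.vertex 4 = V + s * (-(x ^ 2 / z) - y ^ 2 / z + y + z))
    (w0 : (starRingEnd ℂ) (P.vertex 0) = W)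
    (w1 : (starRingEnd ℂ) (P.vertex 1) = W + s * (-(z / x ^ 2)))
    (w2 : (starRingEnd ℂ) (P.vertex 2) = W + s * (1 / z - z / x ^ 2))
    (w3 : (starRingEnd ℂ) (P.vertex 3) = W + s * (1 / z - z / y ^ 2 - z / x ^ 2))
    (w4 : (starRingEnd ℂ) (P.vertex 4) = W + s * (1 / z + 1 / y - z / y ^ 2 - z / x ^ 2))
    (hx : x ≠ 0) (hy : y ≠ 0) (hz : z ≠ 0)
    (hC : s * (-(x ^ 2 / z) - y ^ 2 / z + y + z) + m * (x) = 0)
    (hC1 : s * (1 / z + 1 / y - z / y ^ 2 - z / x ^ 2) + m * (1 / x) = 0) :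
    (l1_tb.map fun e => (e.2.2.2 : ℂ) * (ttgt P (l1_g x y z s m V W nx ny nz) e.1 -
    tsrc P (l1_g x y z s m V W nx ny nz) e.1)).sum = -(l1_u x y z s m) := by
  unfold l1_tb
  simp only [List.map_cons, List.map_nil, List.sum_cons, List.sum_nil, Int.cast_zero, zero_mul,
    zero_add, add_zero]
  change ((1 : ℤ) : ℂ) * ((l1_g x y z s m V W nx ny nz 2).app (P.vertex 1) - (l1_g x y z s m V W nx ny nz 2).app (P.vertex 0)) + (((1 : ℤ) : ℂ) * ((l1_g x y z s m V W nx ny nz 2).app (P.vertex 2) - (l1_g x y z s m V W nx ny nz 2).app (P.vertex 1)) + (((1 : ℤ) : ℂ) * ((l1_g x y z s m V W nx ny nz 3).app (P.vertex 0) - (l1_g x y z s m V W nx ny nz 3).app (P.vertex 1)) + (((-1 : ℤ) : ℂ) * ((l1_g x y z s m V W nx ny nz 4).app (P.vertex 4) - (l1_g x y z s m V W nx ny nz 4).app (P.vertex 0)) + (((-1 : ℤ) : ℂ) * ((l1_g x y z s m V W nx ny nz 6).app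 (P.vertex 3) - (l1_g x y z s m V W nx ny nz 6).app (P.vertex 2)))))) = _
  rw [l1_p2_1 x y z s m V W nx ny nz v1 hx hy hz,
    l1_p2_0 x y z s m V W nx ny nz v0 hx hy hz,
    l1_p2_2 x y z s m V W nx ny nz v2 hx hy hz,
    l1_p3_0 x y z s m V W nx ny nz w0 hx hy hz,
    l1_p3_1 x y z s m V W nx ny nz w1 hx hy hz,
    l1_p4_4 x y z s m V W nx ny nz w4 hx hy hz,
    l1_p4_0 x y z s m V W nx ny nz w0 hx hy hz,
    l1_p6_3 x y z s m V W nx ny nz v3 hx hy hz,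
    l1_p6_2 x y z s m V W nx ny nz v2 hx hy hz]
  unfold l1_u
  push_cast
  (try field_simp) <;> ring

private theorem l1_core (x y z s m V W : ℂ) (nx : ‖x‖ = 1) (ny : ‖y‖ = 1) (nz : ‖z‖ = 1) {P : Polygon 5}
    (v0 : P.vertex 0 = V)
    (v1 : P.vertex 1 = V + s * (-(x ^ 2 / z)))
    (v2 : P.vertex 2 = V + s * (-(x ^ 2 / z) + z))
    (v3 : P.vertex 3 = V + s * (-(x ^ 2 / z) - y ^ 2 / z + z))
    (v4 : P.vertex 4 = V + s * (-(x ^ 2 / z) - y ^ 2 / z + y + z))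
    (w0 : (starRingEnd ℂ) (P.vertex 0) = W)
    (w1 : (starRingEnd ℂ) (P.vertex 1) = W + s * (-(z / x ^ 2)))
    (w2 : (starRingEnd ℂ) (P.vertex 2) = W + s * (1 / z - z / x ^ 2))
    (w3 : (starRingEnd ℂ) (P.vertex 3) = W + s * (1 / z - z / y ^ 2 - z / x ^ 2))
    (w4 : (starRingEnd ℂ) (P.vertex 4) = W + s * (1 / z + 1 / y - z / y ^ 2 - z / x ^ 2))
    (hx : x ≠ 0) (hy : y ≠ 0) (hz : z ≠ 0)
    (hC : s * (-(x ^ 2 / z) - y ^ 2 / z + y + z) + m * (x) = 0)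
    (hC1 : s * (1 / z + 1 / y - z / y ^ 2 - z / x ^ 2) + m * (1 / x) = 0)
    (hc : P.CCW) : HasPeriodic P := by
  refine kcrit P hc (by norm_num) (l1_g x y z s m V W nx ny nz) (l1_u x y z s m) (l1_w x y z s m) l1_tb (by decide) (by decide)
    ?_ (l1_s1 x y z s m V W nx ny nz v0 v1 v2 v3 v4 w0 w1 w2 w3 w4 hx hy hz hC hC1) (l1_s2 x y z s m V W nx ny nz v0 v1 v2 v3 v4 w0 w1 w2 w3 w4 hx hy hz hC hC1)
  intro e he
  unfold l1_tb at he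
  simp only [List.mem_cons, List.not_mem_nil, or_false] at he
  rcases he with rfl | rfl | rfl | rfl | rfl | rfl | rfl | rfl | rfl | rfl | rfl | rfl | rfl | rfl | rfl | rfl | rfl | rfl | rfl | rfl
  · exact ⟨l1_e0_0 x y z s m V W nx ny nz v0 v1 v2 v3 v4 w0 w1 w2 w3 w4 hx hy hz hC hC1, l1_e0_1 x y z s m V W nx ny nz v0 v1 v2 v3 v4 w0 w1 w2 w3 w4 hx hy hz hC hC1⟩
  · exact ⟨l1_e1_0 x y z s m V W nx ny nz v0 v1 v2 v3 v4 w0 w1 w2 w3 w4 hx hy hz hC hC1, l1_e1_1 x y z s m V W nx ny nz v0 v1 v2 v3 v4 w0 w1 w2 w3 w4 hx hy hz hC hC1⟩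
  · exact ⟨l1_e2_0 x y z s m V W nx ny nz v0 v1 v2 v3 v4 w0 w1 w2 w3 w4 hx hy hz hC hC1, l1_e2_1 x y z s m V W nx ny nz v0 v1 v2 v3 v4 w0 w1 w2 w3 w4 hx hy hz hC hC1⟩
  · exact ⟨l1_e3_0 x y z s m V W nx ny nz v0 v1 v2 v3 v4 w0 w1 w2 w3 w4 hx hy hz hC hC1, l1_e3_1 x y z s m V W nx ny nz v0 v1 v2 v3 v4 w0 w1 w2 w3 w4 hx hy hz hC hC1⟩
  · exact ⟨l1_e4_0 x y z s m V W nx ny nz v0 v1 v2 v3 v4 w0 w1 w2 w3 w4 hx hy hz hC hC1, l1_e4_1 x y z s m V W nx ny nz v0 v1 v2 v3 v4 w0 w1 w2 w3 w4 hx hy hz hC hC1⟩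
  · exact ⟨l1_e5_0 x y z s m V W nx ny nz v0 v1 v2 v3 v4 w0 w1 w2 w3 w4 hx hy hz hC hC1, l1_e5_1 x y z s m V W nx ny nz v0 v1 v2 v3 v4 w0 w1 w2 w3 w4 hx hy hz hC hC1⟩
  · exact ⟨l1_e6_0 x y z s m V W nx ny nz v0 v1 v2 v3 v4 w0 w1 w2 w3 w4 hx hy hz hC hC1, l1_e6_1 x y z s m V W nx ny nz v0 v1 v2 v3 v4 w0 w1 w2 w3 w4 hx hy hz hC hC1⟩
  · exact ⟨l1_e7_0 x y z s m V W nx ny nz v0 v1 v2 v3 v4 w0 w1 w2 w3 w4 hx hy hz hC hC1, l1_e7_1 x y z s m V W nx ny nz v0 v1 v2 v3 v4 w0 w1 w2 w3 w4 hx hy hz hC hC1⟩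
  · exact ⟨l1_e8_0 x y z s m V W nx ny nz v0 v1 v2 v3 v4 w0 w1 w2 w3 w4 hx hy hz hC hC1, l1_e8_1 x y z s m V W nx ny nz v0 v1 v2 v3 v4 w0 w1 w2 w3 w4 hx hy hz hC hC1⟩
  · exact ⟨l1_e9_0 x y z s m V W nx ny nz v0 v1 v2 v3 v4 w0 w1 w2 w3 w4 hx hy hz hC hC1, l1_e9_1 x y z s m V W nx ny nz v0 v1 v2 v3 v4 w0 w1 w2 w3 w4 hx hy hz hC hC1⟩
  · exact ⟨l1_e10_0 x y z s m V W nx ny nz v0 v1 v2 v3 v4 w0 w1 w2 w3 w4 hx hy hz hC hC1, l1_e10_1 x y z s m V W nx ny nz v0 v1 v2 v3 v4 w0 w1 w2 w3 w4 hx hy hz hC hC1⟩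
  · exact ⟨l1_e11_0 x y z s m V W nx ny nz v0 v1 v2 v3 v4 w0 w1 w2 w3 w4 hx hy hz hC hC1, l1_e11_1 x y z s m V W nx ny nz v0 v1 v2 v3 v4 w0 w1 w2 w3 w4 hx hy hz hC hC1⟩
  · exact ⟨l1_e12_0 x y z s m V W nx ny nz v0 v1 v2 v3 v4 w0 w1 w2 w3 w4 hx hy hz hC hC1, l1_e12_1 x y z s m V W nx ny nz v0 v1 v2 v3 v4 w0 w1 w2 w3 w4 hx hy hz hC hC1⟩
  · exact ⟨l1_e13_0 x y z s m V W nx ny nz v0 v1 v2 v3 v4 w0 w1 w2 w3 w4 hx hy hz hC hC1, l1_e13_1 x y z s m V W nx ny nz v0 v1 v2 v3 v4 w0 w1 w2 w3 w4 hx hy hz hC hC1⟩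
  · exact ⟨l1_e14_0 x y z s m V W nx ny nz v0 v1 v2 v3 v4 w0 w1 w2 w3 w4 hx hy hz hC hC1, l1_e14_1 x y z s m V W nx ny nz v0 v1 v2 v3 v4 w0 w1 w2 w3 w4 hx hy hz hC hC1⟩
  · exact ⟨l1_e15_0 x y z s m V W nx ny nz v0 v1 v2 v3 v4 w0 w1 w2 w3 w4 hx hy hz hC hC1, l1_e15_1 x y z s m V W nx ny nz v0 v1 v2 v3 v4 w0 w1 w2 w3 w4 hx hy hz hC hC1⟩
  · exact ⟨l1_e16_0 x y z s m V W nx ny nz v0 v1 v2 v3 v4 w0 w1 w2 w3 w4 hx hy hz hC hC1, l1_e16_1 x y z s m V W nx ny nz v0 v1 v2 v3 v4 w0 w1 w2 w3 w4 hx hy hz hC hC1⟩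
  · exact ⟨l1_e17_0 x y z s m V W nx ny nz v0 v1 v2 v3 v4 w0 w1 w2 w3 w4 hx hy hz hC hC1, l1_e17_1 x y z s m V W nx ny nz v0 v1 v2 v3 v4 w0 w1 w2 w3 w4 hx hy hz hC hC1⟩
  · exact ⟨l1_e18_0 x y z s m V W nx ny nz v0 v1 v2 v3 v4 w0 w1 w2 w3 w4 hx hy hz hC hC1, l1_e18_1 x y z s m V W nx ny nz v0 v1 v2 v3 v4 w0 w1 w2 w3 w4 hx hy hz hC hC1⟩
  · exact ⟨l1_e19_0 x y z s m V W nx ny nz v0 v1 v2 v3 v4 w0 w1 w2 w3 w4 hx hy hz hC hC1, l1_e19_1 x y z s m V W nx ny nz v0 v1 v2 v3 v4 w0 w1 w2 w3 w4 hx hy hz hC hC1⟩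

private theorem l1_exp {a b : ℝ} (h : a = b) : exp ((a : ℂ) * Complex.I) = exp ((b : ℂ) * Complex.I) := by
  rw [h]

private theorem l1_two : exp (((2 * Real.pi : ℝ) : ℂ) * Complex.I) = 1 := by
  push_cast
  exact Complex.exp_two_pi_mul_I

theorem specL1 : SpecL1 := by
  intro P hF h01 h23
  obtain ⟨hc, l01, l12, l23⟩ := hF
  have e0 : exp ((P.ang 0 : ℂ) * Complex.I) = -P.dr 4 / P.dr 0 := P.exp_ang 0
  have e1 : exp ((P.ang 1 : ℂ) * Complex.I) = -P.dr 0 / P.dr 1 := P.exp_ang 1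
  have e2 : exp ((P.ang 2 : ℂ) * Complex.I) = -P.dr 1 / P.dr 2 := P.exp_ang 2
  have e3 : exp ((P.ang 3 : ℂ) * Complex.I) = -P.dr 2 / P.dr 3 := P.exp_ang 3
  have hd0 := P.dr_ne 0
  have hd2 := P.dr_ne 2
  have hx := P.dr_ne 4
  have hy := P.dr_ne 3
  have hz := P.dr_ne 1
  have r0 : P.dr 0 = -(P.dr 4 ^ 2 / P.dr 1) := by
    have h := (l1_exp h01).trans l1_two
    have h' : exp ((P.ang 0 : ℂ) * Complex.I) ^ 2 * exp ((P.ang 1 : ℂ) * Complex.I) = 1 := by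
      rw [← h, ← Complex.exp_nat_mul, ← Complex.exp_add]
      congr 1
      push_cast
      ring
    rw [e0, e1] at h'
    field_simp at h' ⊢
    linear_combination -h'
  have r2 : P.dr 2 = -(P.dr 3 ^ 2 / P.dr 1) := by
    have h := (l1_exp h23).trans l1_two
    have h' : exp ((P.ang 3 : ℂ) * Complex.I) ^ 2 * exp ((P.ang 2 : ℂ) * Complex.I) = 1 := by
      rw [← h, ← Complex.exp_nat_mul, ← Complex.exp_add]
      congr 1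
      push_cast
      ring
    rw [e3, e2] at h'
    field_simp at h' ⊢
    linear_combination -h'
  have u0 : P.vertex 1 - P.vertex 0 = (P.len 0 : ℂ) * P.dr 0 := P.dr_len 0
  have u1 : P.vertex 2 - P.vertex 1 = (P.len 1 : ℂ) * P.dr 1 := P.dr_len 1
  have u2 : P.vertex 3 - P.vertex 2 = (P.len 2 : ℂ) * P.dr 2 := P.dr_len 2
  have u3 : P.vertex 4 - P.vertex 3 = (P.len 3 : ℂ) * P.dr 3 := P.dr_len 3
  have u4 : P.vertex 0 - P.vertex 4 = (P.len 4 : ℂ) * P.dr 4 := P.dr_len 4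
  rw [← l01] at u1
  rw [← l12, ← l01] at u2
  rw [← l23, ← l12, ← l01] at u3
  rw [r0] at u0
  rw [r2] at u2
  have cx := P.dr_conj 4
  have cy := P.dr_conj 3
  have cz := P.dr_conj 1
  have v1 : P.vertex 1 = P.vertex 0 + (P.len 0 : ℂ) * (-(P.dr 4 ^ 2 / P.dr 1)) := by
    linear_combination u0
  have v2 : P.vertex 2 = P.vertex 0 + (P.len 0 : ℂ) * (-(P.dr 4 ^ 2 / P.dr 1) + P.dr 1) := by
    linear_combination u0 + u1
  have v3 : P.vertex 3 = P.vertex 0 + (P.len 0 : ℂ) * (-(P.dr 4 ^ 2 / P.dr 1) -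
      P.dr 3 ^ 2 / P.dr 1 + P.dr 1) := by
    linear_combination u0 + u1 + u2
  have v4 : P.vertex 4 = P.vertex 0 + (P.len 0 : ℂ) * (-(P.dr 4 ^ 2 / P.dr 1) -
      P.dr 3 ^ 2 / P.dr 1 + P.dr 3 + P.dr 1) := by
    linear_combination u0 + u1 + u2 + u3
  have hC : (P.len 0 : ℂ) * (-(P.dr 4 ^ 2 / P.dr 1) - P.dr 3 ^ 2 / P.dr 1 + P.dr 3 + P.dr 1) +
      (P.len 4 : ℂ) * (P.dr 4) = 0 := by
    linear_combination -v4 - u4
  have w : ∀ {a b : ℂ}, a = b → (starRingEnd ℂ) a = (starRingEnd ℂ) b := fun h => by rw [h]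
  have w1 := w v1
  have w2 := w v2
  have w3 := w v3
  have w4 := w v4
  have hC1 := w hC
  simp only [map_add, map_mul, map_sub, map_neg, map_div₀, map_pow, Complex.conj_ofReal, cx, cy, cz,
    map_zero] at w1 w2 w3 w4 hC1
  refine l1_core (P.dr 4) (P.dr 3) (P.dr 1) (P.len 0 : ℂ) (P.len 4 : ℂ) (P.vertex 0)
    ((starRingEnd ℂ) (P.vertex 0)) (P.dr_norm 4) (P.dr_norm 3) (P.dr_norm 1) rfl v1 v2 v3 v4 rfl
    ?_ ?_ ?_ ?_ hx hy hz hC ?_ hc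
  · rw [w1]
    field_simp
  · rw [w2]
    field_simp
    ring
  · rw [w3]
    field_simp
    ring
  · rw [w4]
    field_simp
    ring
  · rw [← hC1]
    field_simp
    ring


end Pool.Agent.Lib_MP_fa6e45
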