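import Pool.Agent.Lib_MP_fa6e45.HS

/-!
MP_fa6e45_co, stage 4: the special lemma `SpecL2` (a table of gluings of eight tiles).
-/

open Set MeasureTheory Complex
open scoped Topology

set_option linter.unusedSimpArgs false
set_option linter.unusedVariables false
set_option linter.unusedTactic false
set_option linter.unreachableTactic false

namespace Pool.Agent.Lib_MP_fa6e45

private theorem L2n1 {x : ℂ} (h : ‖x‖ = 1) : ‖-x ^ 2‖ = 1 := by simp [h]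
private theorem L2n2 {x : ℂ} (h : ‖x‖ = 1) : ‖x ^ 2‖ = 1 := by simp [h]
private theorem L2n3 {x y : ℂ} (h : ‖x‖ = 1) (h' : ‖y‖ = 1) : ‖x * y⁻¹‖ = 1 := by simp [h, h']
private theorem L2n4 {x y : ℂ} (h : ‖x‖ = 1) (h' : ‖y‖ = 1) : ‖-(x * y⁻¹)‖ = 1 := by simp [h, h']
private theorem L2n5 {x y z : ℂ} (h : ‖x‖ = 1) (h' : ‖y‖ = 1) (h'' : ‖z‖ = 1) :
    ‖x * y⁻¹ * z ^ 2‖ = 1 := by simp [h, h', h'']
private theorem L2n6 {x y z : ℂ} (h : ‖x‖ = 1) (h' : ‖y‖ = 1) (h'' : ‖z‖ = 1) :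
    ‖-(x * y⁻¹ * z ^ 2)‖ = 1 := by simp [h, h', h'']

/-- the eight tiles -/
private noncomputable def L2g (x y z V W L : ℂ) (hx : ‖x‖ = 1) (hy : ‖y‖ = 1) (hz : ‖z‖ = 1) :
    Fin 8 → Mo :=
  ![⟨1, L * (0) - (1) * V, false, norm_one⟩,
    ⟨-z ^ 2, L * (x) - (-z ^ 2) * W, true, (L2n1 hz)⟩,
    ⟨-1, L * (x) - (-1) * V, false, (by simp)⟩,
    ⟨x * y⁻¹, L * (-x ^ 2 * y⁻¹ + x - y + y⁻¹ * z ^ 2 - x⁻¹ * z ^ 2) - (x * y⁻¹) * V, false, (L2n3 hx hy)⟩,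
    ⟨x * y⁻¹ * z ^ 2, L * (x ^ 2 * y⁻¹ - x ^ 2 * y⁻¹ ^ 3 * z ^ 2 + 2 * x - x * y⁻¹ ^ 2 * z ^ 2 - y⁻¹ * z ^ 2 - x⁻¹ * z ^ 2) - (x * y⁻¹ * z ^ 2) * W, true, (L2n5 hx hy hz)⟩,
    ⟨-(x * y⁻¹ * z ^ 2), L * (-x ^ 2 * y⁻¹ + x - y + 2 * y⁻¹ * z ^ 2 - x⁻¹ * z ^ 2) - (-(x * y⁻¹ * z ^ 2)) * W, true, (L2n6 hx hy hz)⟩,
    ⟨-(x * y⁻¹), L * (x ^ 2 * y⁻¹ + x + y - y⁻¹ * z ^ 2 + x⁻¹ * y ^ 2 - x⁻¹ * z ^ 2) - (-(x * y⁻¹)) * V, false, (L2n4 hx hy)⟩,
    ⟨z ^ 2, L * (0) - (z ^ 2) * W, true, (L2n2 hz)⟩]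

/-- the table -/
private def L2tb : List ((Fin 8 × ZMod 5) × (Fin 8 × ZMod 5) × ℤ × ℤ) :=
  [((0, 0), (2, 0), (0, 0)),
    ((0, 1), (1, 0), (0, 0)),
    ((0, 2), (2, 2), (-1, 0)),
    ((0, 3), (6, 2), (0, 0)),
    ((0, 4), (7, 4), (0, 0)),
    ((1, 1), (3, 3), (0, 0)),
    ((1, 2), (4, 3), (0, 0)),
    ((1, 3), (3, 1), (1, 0)),
    ((1, 4), (2, 4), (0, 0)),
    ((2, 1), (7, 0), (0, 0)),
    ((2, 3), (3, 2), (1, 0)),
    ((3, 0), (5, 1), (0, 0)),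
    ((3, 4), (4, 4), (0, 0)),
    ((4, 0), (5, 0), (0, 0)),
    ((4, 1), (6, 0), (0, 1)),
    ((4, 2), (5, 2), (1, 0)),
    ((5, 3), (7, 2), (-1, 1)),
    ((5, 4), (6, 4), (0, 1)),
    ((6, 1), (7, 3), (0, 0)),
    ((6, 3), (7, 1), (-1, 0))]

private theorem L2p0
    {P : Polygon 5} {x y z L : ℂ} (hx : ‖x‖ = 1) (hy : ‖y‖ = 1) (hz : ‖z‖ = 1)
    (e1 : P.vertex 1 = P.vertex 0 + L * (x))
    (e2 : P.vertex 2 = P.vertex 0 + L * (x - x⁻¹ * z ^ 2))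
    (e3 : P.vertex 3 = P.vertex 0 + L * (x + x⁻¹ * y ^ 2 - x⁻¹ * z ^ 2))
    (e4 : P.vertex 4 = P.vertex 0 + L * (x + y + x⁻¹ * y ^ 2 - x⁻¹ * z ^ 2))
    (c1 : (starRingEnd ℂ) (P.vertex 1) = (starRingEnd ℂ) (P.vertex 0) + L * (x⁻¹))
    (c2 : (starRingEnd ℂ) (P.vertex 2) = (starRingEnd ℂ) (P.vertex 0) + L * (-x * z⁻¹ ^ 2 + x⁻¹))
    (c3 : (starRingEnd ℂ) (P.vertex 3) = (starRingEnd ℂ) (P.vertex 0) + L * (-x * z⁻¹ ^ 2 + x * y⁻¹ ^ 2 + x⁻¹))
    (c4 : (starRingEnd ℂ) (P.vertex 4) = (starRingEnd ℂ) (P.vertex 0) + L * (-x * z⁻¹ ^ 2 + x * y⁻¹ ^ 2 + y⁻¹ + x⁻¹)) :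
    ((L2g x y z (P.vertex 0) ((starRingEnd ℂ) (P.vertex 0)) L hx hy hz) 0).app (P.vertex 0) = L * (0) ∧
    ((L2g x y z (P.vertex 0) ((starRingEnd ℂ) (P.vertex 0)) L hx hy hz) 0).app (P.vertex 1) = L * (x) ∧
    ((L2g x y z (P.vertex 0) ((starRingEnd ℂ) (P.vertex 0)) L hx hy hz) 0).app (P.vertex 2) = L * (x - x⁻¹ * z ^ 2) ∧
    ((L2g x y z (P.vertex 0) ((starRingEnd ℂ) (P.vertex 0)) L hx hy hz) 0).app (P.vertex 3) = L * (x + x⁻¹ * y ^ 2 - x⁻¹ * z ^ 2) ∧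
    ((L2g x y z (P.vertex 0) ((starRingEnd ℂ) (P.vertex 0)) L hx hy hz) 0).app (P.vertex 4) = L * (x + y + x⁻¹ * y ^ 2 - x⁻¹ * z ^ 2) := by
  have x0 : x ≠ 0 := fun h => by rw [h, norm_zero] at hx; exact zero_ne_one hx
  have y0 : y ≠ 0 := fun h => by rw [h, norm_zero] at hy; exact zero_ne_one hy
  have z0 : z ≠ 0 := fun h => by rw [h, norm_zero] at hz; exact zero_ne_one hz
  have key : ∀ v : ℂ, ((L2g x y z (P.vertex 0) ((starRingEnd ℂ) (P.vertex 0)) L hx hy hz) 0).app v = (1) * v + (L * (0) - (1) * P.vertex 0) := fun v => rfl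
  refine ⟨?_, ?_, ?_, ?_, ?_⟩
  · rw [key]
    first | (field_simp; ring) | field_simp | ring
  · rw [key, e1]
    first | (field_simp; ring) | field_simp | ring
  · rw [key, e2]
    first | (field_simp; ring) | field_simp | ring
  · rw [key, e3]
    first | (field_simp; ring) | field_simp | ring
  · rw [key, e4]
    first | (field_simp; ring) | field_simp | ring

private theorem L2p1
    {P : Polygon 5} {x y z L : ℂ} (hx : ‖x‖ = 1) (hy : ‖y‖ = 1) (hz : ‖z‖ = 1)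
    (e1 : P.vertex 1 = P.vertex 0 + L * (x))
    (e2 : P.vertex 2 = P.vertex 0 + L * (x - x⁻¹ * z ^ 2))
    (e3 : P.vertex 3 = P.vertex 0 + L * (x + x⁻¹ * y ^ 2 - x⁻¹ * z ^ 2))
    (e4 : P.vertex 4 = P.vertex 0 + L * (x + y + x⁻¹ * y ^ 2 - x⁻¹ * z ^ 2))
    (c1 : (starRingEnd ℂ) (P.vertex 1) = (starRingEnd ℂ) (P.vertex 0) + L * (x⁻¹))
    (c2 : (starRingEnd ℂ) (P.vertex 2) = (starRingEnd ℂ) (P.vertex 0) + L * (-x * z⁻¹ ^ 2 + x⁻¹))
    (c3 : (starRingEnd ℂ) (P.vertex 3) = (starRingEnd ℂ) (P.vertex 0) + L * (-x * z⁻¹ ^ 2 + x * y⁻¹ ^ 2 + x⁻¹))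
    (c4 : (starRingEnd ℂ) (P.vertex 4) = (starRingEnd ℂ) (P.vertex 0) + L * (-x * z⁻¹ ^ 2 + x * y⁻¹ ^ 2 + y⁻¹ + x⁻¹)) :
    ((L2g x y z (P.vertex 0) ((starRingEnd ℂ) (P.vertex 0)) L hx hy hz) 1).app (P.vertex 0) = L * (x) ∧
    ((L2g x y z (P.vertex 0) ((starRingEnd ℂ) (P.vertex 0)) L hx hy hz) 1).app (P.vertex 1) = L * (x - x⁻¹ * z ^ 2) ∧
    ((L2g x y z (P.vertex 0) ((starRingEnd ℂ) (P.vertex 0)) L hx hy hz) 1).app (P.vertex 2) = L * (2 * x - x⁻¹ * z ^ 2) ∧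
    ((L2g x y z (P.vertex 0) ((starRingEnd ℂ) (P.vertex 0)) L hx hy hz) 1).app (P.vertex 3) = L * (2 * x - x * y⁻¹ ^ 2 * z ^ 2 - x⁻¹ * z ^ 2) ∧
    ((L2g x y z (P.vertex 0) ((starRingEnd ℂ) (P.vertex 0)) L hx hy hz) 1).app (P.vertex 4) = L * (2 * x - x * y⁻¹ ^ 2 * z ^ 2 - y⁻¹ * z ^ 2 - x⁻¹ * z ^ 2) := by
  have x0 : x ≠ 0 := fun h => by rw [h, norm_zero] at hx; exact zero_ne_one hx
  have y0 : y ≠ 0 := fun h => by rw [h, norm_zero] at hy; exact zero_ne_one hy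
  have z0 : z ≠ 0 := fun h => by rw [h, norm_zero] at hz; exact zero_ne_one hz
  have key : ∀ v : ℂ, ((L2g x y z (P.vertex 0) ((starRingEnd ℂ) (P.vertex 0)) L hx hy hz) 1).app v = (-z ^ 2) * (starRingEnd ℂ) v + (L * (x) - (-z ^ 2) * (starRingEnd ℂ) (P.vertex 0)) := fun v => rfl
  refine ⟨?_, ?_, ?_, ?_, ?_⟩
  · rw [key]
    first | (field_simp; ring) | field_simp | ring
  · rw [key, c1]
    first | (field_simp; ring) | field_simp | ring
  · rw [key, c2]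
    first | (field_simp; ring) | field_simp | ring
  · rw [key, c3]
    first | (field_simp; ring) | field_simp | ring
  · rw [key, c4]
    first | (field_simp; ring) | field_simp | ring

private theorem L2p2
    {P : Polygon 5} {x y z L : ℂ} (hx : ‖x‖ = 1) (hy : ‖y‖ = 1) (hz : ‖z‖ = 1)
    (e1 : P.vertex 1 = P.vertex 0 + L * (x))
    (e2 : P.vertex 2 = P.vertex 0 + L * (x - x⁻¹ * z ^ 2))
    (e3 : P.vertex 3 = P.vertex 0 + L * (x + x⁻¹ * y ^ 2 - x⁻¹ * z ^ 2))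
    (e4 : P.vertex 4 = P.vertex 0 + L * (x + y + x⁻¹ * y ^ 2 - x⁻¹ * z ^ 2))
    (c1 : (starRingEnd ℂ) (P.vertex 1) = (starRingEnd ℂ) (P.vertex 0) + L * (x⁻¹))
    (c2 : (starRingEnd ℂ) (P.vertex 2) = (starRingEnd ℂ) (P.vertex 0) + L * (-x * z⁻¹ ^ 2 + x⁻¹))
    (c3 : (starRingEnd ℂ) (P.vertex 3) = (starRingEnd ℂ) (P.vertex 0) + L * (-x * z⁻¹ ^ 2 + x * y⁻¹ ^ 2 + x⁻¹))
    (c4 : (starRingEnd ℂ) (P.vertex 4) = (starRingEnd ℂ) (P.vertex 0) + L * (-x * z⁻¹ ^ 2 + x * y⁻¹ ^ 2 + y⁻¹ + x⁻¹)) :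
    ((L2g x y z (P.vertex 0) ((starRingEnd ℂ) (P.vertex 0)) L hx hy hz) 2).app (P.vertex 0) = L * (x) ∧
    ((L2g x y z (P.vertex 0) ((starRingEnd ℂ) (P.vertex 0)) L hx hy hz) 2).app (P.vertex 1) = L * (0) ∧
    ((L2g x y z (P.vertex 0) ((starRingEnd ℂ) (P.vertex 0)) L hx hy hz) 2).app (P.vertex 2) = L * (x⁻¹ * z ^ 2) ∧
    ((L2g x y z (P.vertex 0) ((starRingEnd ℂ) (P.vertex 0)) L hx hy hz) 2).app (P.vertex 3) = L * (-x⁻¹ * y ^ 2 + x⁻¹ * z ^ 2) ∧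
    ((L2g x y z (P.vertex 0) ((starRingEnd ℂ) (P.vertex 0)) L hx hy hz) 2).app (P.vertex 4) = L * (-y - x⁻¹ * y ^ 2 + x⁻¹ * z ^ 2) := by
  have x0 : x ≠ 0 := fun h => by rw [h, norm_zero] at hx; exact zero_ne_one hx
  have y0 : y ≠ 0 := fun h => by rw [h, norm_zero] at hy; exact zero_ne_one hy
  have z0 : z ≠ 0 := fun h => by rw [h, norm_zero] at hz; exact zero_ne_one hz
  have key : ∀ v : ℂ, ((L2g x y z (P.vertex 0) ((starRingEnd ℂ) (P.vertex 0)) L hx hy hz) 2).app v = (-1) * v + (L * (x) - (-1) * P.vertex 0) := fun v => rfl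
  refine ⟨?_, ?_, ?_, ?_, ?_⟩
  · rw [key]
    first | (field_simp; ring) | field_simp | ring
  · rw [key, e1]
    first | (field_simp; ring) | field_simp | ring
  · rw [key, e2]
    first | (field_simp; ring) | field_simp | ring
  · rw [key, e3]
    first | (field_simp; ring) | field_simp | ring
  · rw [key, e4]
    first | (field_simp; ring) | field_simp | ring

private theorem L2p3
    {P : Polygon 5} {x y z L : ℂ} (hx : ‖x‖ = 1) (hy : ‖y‖ = 1) (hz : ‖z‖ = 1)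
    (e1 : P.vertex 1 = P.vertex 0 + L * (x))
    (e2 : P.vertex 2 = P.vertex 0 + L * (x - x⁻¹ * z ^ 2))
    (e3 : P.vertex 3 = P.vertex 0 + L * (x + x⁻¹ * y ^ 2 - x⁻¹ * z ^ 2))
    (e4 : P.vertex 4 = P.vertex 0 + L * (x + y + x⁻¹ * y ^ 2 - x⁻¹ * z ^ 2))
    (c1 : (starRingEnd ℂ) (P.vertex 1) = (starRingEnd ℂ) (P.vertex 0) + L * (x⁻¹))
    (c2 : (starRingEnd ℂ) (P.vertex 2) = (starRingEnd ℂ) (P.vertex 0) + L * (-x * z⁻¹ ^ 2 + x⁻¹))
    (c3 : (starRingEnd ℂ) (P.vertex 3) = (starRingEnd ℂ) (P.vertex 0) + L * (-x * z⁻¹ ^ 2 + x * y⁻¹ ^ 2 + x⁻¹))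
    (c4 : (starRingEnd ℂ) (P.vertex 4) = (starRingEnd ℂ) (P.vertex 0) + L * (-x * z⁻¹ ^ 2 + x * y⁻¹ ^ 2 + y⁻¹ + x⁻¹)) :
    ((L2g x y z (P.vertex 0) ((starRingEnd ℂ) (P.vertex 0)) L hx hy hz) 3).app (P.vertex 0) = L * (-x ^ 2 * y⁻¹ + x - y + y⁻¹ * z ^ 2 - x⁻¹ * z ^ 2) ∧
    ((L2g x y z (P.vertex 0) ((starRingEnd ℂ) (P.vertex 0)) L hx hy hz) 3).app (P.vertex 1) = L * (x - y + y⁻¹ * z ^ 2 - x⁻¹ * z ^ 2) ∧
    ((L2g x y z (P.vertex 0) ((starRingEnd ℂ) (P.vertex 0)) L hx hy hz) 3).app (P.vertex 2) = L * (x - y - x⁻¹ * z ^ 2) ∧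
    ((L2g x y z (P.vertex 0) ((starRingEnd ℂ) (P.vertex 0)) L hx hy hz) 3).app (P.vertex 3) = L * (x - x⁻¹ * z ^ 2) ∧
    ((L2g x y z (P.vertex 0) ((starRingEnd ℂ) (P.vertex 0)) L hx hy hz) 3).app (P.vertex 4) = L * (2 * x - x⁻¹ * z ^ 2) := by
  have x0 : x ≠ 0 := fun h => by rw [h, norm_zero] at hx; exact zero_ne_one hx
  have y0 : y ≠ 0 := fun h => by rw [h, norm_zero] at hy; exact zero_ne_one hy
  have z0 : z ≠ 0 := fun h => by rw [h, norm_zero] at hz; exact zero_ne_one hz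
  have key : ∀ v : ℂ, ((L2g x y z (P.vertex 0) ((starRingEnd ℂ) (P.vertex 0)) L hx hy hz) 3).app v = (x * y⁻¹) * v + (L * (-x ^ 2 * y⁻¹ + x - y + y⁻¹ * z ^ 2 - x⁻¹ * z ^ 2) - (x * y⁻¹) * P.vertex 0) := fun v => rfl
  refine ⟨?_, ?_, ?_, ?_, ?_⟩
  · rw [key]
    first | (field_simp; ring) | field_simp | ring
  · rw [key, e1]
    first | (field_simp; ring) | field_simp | ring
  · rw [key, e2]
    first | (field_simp; ring) | field_simp | ring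
  · rw [key, e3]
    first | (field_simp; ring) | field_simp | ring
  · rw [key, e4]
    first | (field_simp; ring) | field_simp | ring

private theorem L2p4
    {P : Polygon 5} {x y z L : ℂ} (hx : ‖x‖ = 1) (hy : ‖y‖ = 1) (hz : ‖z‖ = 1)
    (e1 : P.vertex 1 = P.vertex 0 + L * (x))
    (e2 : P.vertex 2 = P.vertex 0 + L * (x - x⁻¹ * z ^ 2))
    (e3 : P.vertex 3 = P.vertex 0 + L * (x + x⁻¹ * y ^ 2 - x⁻¹ * z ^ 2))
    (e4 : P.vertex 4 = P.vertex 0 + L * (x + y + x⁻¹ * y ^ 2 - x⁻¹ * z ^ 2))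
    (c1 : (starRingEnd ℂ) (P.vertex 1) = (starRingEnd ℂ) (P.vertex 0) + L * (x⁻¹))
    (c2 : (starRingEnd ℂ) (P.vertex 2) = (starRingEnd ℂ) (P.vertex 0) + L * (-x * z⁻¹ ^ 2 + x⁻¹))
    (c3 : (starRingEnd ℂ) (P.vertex 3) = (starRingEnd ℂ) (P.vertex 0) + L * (-x * z⁻¹ ^ 2 + x * y⁻¹ ^ 2 + x⁻¹))
    (c4 : (starRingEnd ℂ) (P.vertex 4) = (starRingEnd ℂ) (P.vertex 0) + L * (-x * z⁻¹ ^ 2 + x * y⁻¹ ^ 2 + y⁻¹ + x⁻¹)) :
    ((L2g x y z (P.vertex 0) ((starRingEnd ℂ) (P.vertex 0)) L hx hy hz) 4).app (P.vertex 0) = L * (x ^ 2 * y⁻¹ - x ^ 2 * y⁻¹ ^ 3 * z ^ 2 + 2 * x - x * y⁻¹ ^ 2 * z ^ 2 - y⁻¹ * z ^ 2 - x⁻¹ * z ^ 2) ∧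
    ((L2g x y z (P.vertex 0) ((starRingEnd ℂ) (P.vertex 0)) L hx hy hz) 4).app (P.vertex 1) = L * (x ^ 2 * y⁻¹ - x ^ 2 * y⁻¹ ^ 3 * z ^ 2 + 2 * x - x * y⁻¹ ^ 2 * z ^ 2 - x⁻¹ * z ^ 2) ∧
    ((L2g x y z (P.vertex 0) ((starRingEnd ℂ) (P.vertex 0)) L hx hy hz) 4).app (P.vertex 2) = L * (-x ^ 2 * y⁻¹ ^ 3 * z ^ 2 + 2 * x - x * y⁻¹ ^ 2 * z ^ 2 - x⁻¹ * z ^ 2) ∧
    ((L2g x y z (P.vertex 0) ((starRingEnd ℂ) (P.vertex 0)) L hx hy hz) 4).app (P.vertex 3) = L * (2 * x - x * y⁻¹ ^ 2 * z ^ 2 - x⁻¹ * z ^ 2) ∧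
    ((L2g x y z (P.vertex 0) ((starRingEnd ℂ) (P.vertex 0)) L hx hy hz) 4).app (P.vertex 4) = L * (2 * x - x⁻¹ * z ^ 2) := by
  have x0 : x ≠ 0 := fun h => by rw [h, norm_zero] at hx; exact zero_ne_one hx
  have y0 : y ≠ 0 := fun h => by rw [h, norm_zero] at hy; exact zero_ne_one hy
  have z0 : z ≠ 0 := fun h => by rw [h, norm_zero] at hz; exact zero_ne_one hz
  have key : ∀ v : ℂ, ((L2g x y z (P.vertex 0) ((starRingEnd ℂ) (P.vertex 0)) L hx hy hz) 4).app v = (x * y⁻¹ * z ^ 2) * (starRingEnd ℂ) v + (L * (x ^ 2 * y⁻¹ - x ^ 2 * y⁻¹ ^ 3 * z ^ 2 + 2 * x - x * y⁻¹ ^ 2 * z ^ 2 - y⁻¹ * z ^ 2 - x⁻¹ * z ^ 2) - (x * y⁻¹ * z ^ 2) * (starRingEnd ℂ) (P.vertex 0)) := fun v => rfl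
  refine ⟨?_, ?_, ?_, ?_, ?_⟩
  · rw [key]
    first | (field_simp; ring) | field_simp | ring
  · rw [key, c1]
    first | (field_simp; ring) | field_simp | ring
  · rw [key, c2]
    first | (field_simp; ring) | field_simp | ring
  · rw [key, c3]
    first | (field_simp; ring) | field_simp | ring
  · rw [key, c4]
    first | (field_simp; ring) | field_simp | ring

private theorem L2p5
    {P : Polygon 5} {x y z L : ℂ} (hx : ‖x‖ = 1) (hy : ‖y‖ = 1) (hz : ‖z‖ = 1)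
    (e1 : P.vertex 1 = P.vertex 0 + L * (x))
    (e2 : P.vertex 2 = P.vertex 0 + L * (x - x⁻¹ * z ^ 2))
    (e3 : P.vertex 3 = P.vertex 0 + L * (x + x⁻¹ * y ^ 2 - x⁻¹ * z ^ 2))
    (e4 : P.vertex 4 = P.vertex 0 + L * (x + y + x⁻¹ * y ^ 2 - x⁻¹ * z ^ 2))
    (c1 : (starRingEnd ℂ) (P.vertex 1) = (starRingEnd ℂ) (P.vertex 0) + L * (x⁻¹))
    (c2 : (starRingEnd ℂ) (P.vertex 2) = (starRingEnd ℂ) (P.vertex 0) + L * (-x * z⁻¹ ^ 2 + x⁻¹))
    (c3 : (starRingEnd ℂ) (P.vertex 3) = (starRingEnd ℂ) (P.vertex 0) + L * (-x * z⁻¹ ^ 2 + x * y⁻¹ ^ 2 + x⁻¹))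
    (c4 : (starRingEnd ℂ) (P.vertex 4) = (starRingEnd ℂ) (P.vertex 0) + L * (-x * z⁻¹ ^ 2 + x * y⁻¹ ^ 2 + y⁻¹ + x⁻¹)) :
    ((L2g x y z (P.vertex 0) ((starRingEnd ℂ) (P.vertex 0)) L hx hy hz) 5).app (P.vertex 0) = L * (-x ^ 2 * y⁻¹ + x - y + 2 * y⁻¹ * z ^ 2 - x⁻¹ * z ^ 2) ∧
    ((L2g x y z (P.vertex 0) ((starRingEnd ℂ) (P.vertex 0)) L hx hy hz) 5).app (P.vertex 1) = L * (-x ^ 2 * y⁻¹ + x - y + y⁻¹ * z ^ 2 - x⁻¹ * z ^ 2) ∧
    ((L2g x y z (P.vertex 0) ((starRingEnd ℂ) (P.vertex 0)) L hx hy hz) 5).app (P.vertex 2) = L * (x - y + y⁻¹ * z ^ 2 - x⁻¹ * z ^ 2) ∧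
    ((L2g x y z (P.vertex 0) ((starRingEnd ℂ) (P.vertex 0)) L hx hy hz) 5).app (P.vertex 3) = L * (-x ^ 2 * y⁻¹ ^ 3 * z ^ 2 + x - y + y⁻¹ * z ^ 2 - x⁻¹ * z ^ 2) ∧
    ((L2g x y z (P.vertex 0) ((starRingEnd ℂ) (P.vertex 0)) L hx hy hz) 5).app (P.vertex 4) = L * (-x ^ 2 * y⁻¹ ^ 3 * z ^ 2 + x - x * y⁻¹ ^ 2 * z ^ 2 - y + y⁻¹ * z ^ 2 - x⁻¹ * z ^ 2) := by
  have x0 : x ≠ 0 := fun h => by rw [h, norm_zero] at hx; exact zero_ne_one hx
  have y0 : y ≠ 0 := fun h => by rw [h, norm_zero] at hy; exact zero_ne_one hy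
  have z0 : z ≠ 0 := fun h => by rw [h, norm_zero] at hz; exact zero_ne_one hz
  have key : ∀ v : ℂ, ((L2g x y z (P.vertex 0) ((starRingEnd ℂ) (P.vertex 0)) L hx hy hz) 5).app v = (-(x * y⁻¹ * z ^ 2)) * (starRingEnd ℂ) v + (L * (-x ^ 2 * y⁻¹ + x - y + 2 * y⁻¹ * z ^ 2 - x⁻¹ * z ^ 2) - (-(x * y⁻¹ * z ^ 2)) * (starRingEnd ℂ) (P.vertex 0)) := fun v => rfl
  refine ⟨?_, ?_, ?_, ?_, ?_⟩
  · rw [key]
    first | (field_simp; ring) | field_simp | ring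
  · rw [key, c1]
    first | (field_simp; ring) | field_simp | ring
  · rw [key, c2]
    first | (field_simp; ring) | field_simp | ring
  · rw [key, c3]
    first | (field_simp; ring) | field_simp | ring
  · rw [key, c4]
    first | (field_simp; ring) | field_simp | ring

private theorem L2p6
    {P : Polygon 5} {x y z L : ℂ} (hx : ‖x‖ = 1) (hy : ‖y‖ = 1) (hz : ‖z‖ = 1)
    (e1 : P.vertex 1 = P.vertex 0 + L * (x))
    (e2 : P.vertex 2 = P.vertex 0 + L * (x - x⁻¹ * z ^ 2))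
    (e3 : P.vertex 3 = P.vertex 0 + L * (x + x⁻¹ * y ^ 2 - x⁻¹ * z ^ 2))
    (e4 : P.vertex 4 = P.vertex 0 + L * (x + y + x⁻¹ * y ^ 2 - x⁻¹ * z ^ 2))
    (c1 : (starRingEnd ℂ) (P.vertex 1) = (starRingEnd ℂ) (P.vertex 0) + L * (x⁻¹))
    (c2 : (starRingEnd ℂ) (P.vertex 2) = (starRingEnd ℂ) (P.vertex 0) + L * (-x * z⁻¹ ^ 2 + x⁻¹))
    (c3 : (starRingEnd ℂ) (P.vertex 3) = (starRingEnd ℂ) (P.vertex 0) + L * (-x * z⁻¹ ^ 2 + x * y⁻¹ ^ 2 + x⁻¹))
    (c4 : (starRingEnd ℂ) (P.vertex 4) = (starRingEnd ℂ) (P.vertex 0) + L * (-x * z⁻¹ ^ 2 + x * y⁻¹ ^ 2 + y⁻¹ + x⁻¹)) :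
    ((L2g x y z (P.vertex 0) ((starRingEnd ℂ) (P.vertex 0)) L hx hy hz) 6).app (P.vertex 0) = L * (x ^ 2 * y⁻¹ + x + y - y⁻¹ * z ^ 2 + x⁻¹ * y ^ 2 - x⁻¹ * z ^ 2) ∧
    ((L2g x y z (P.vertex 0) ((starRingEnd ℂ) (P.vertex 0)) L hx hy hz) 6).app (P.vertex 1) = L * (x + y - y⁻¹ * z ^ 2 + x⁻¹ * y ^ 2 - x⁻¹ * z ^ 2) ∧
    ((L2g x y z (P.vertex 0) ((starRingEnd ℂ) (P.vertex 0)) L hx hy hz) 6).app (P.vertex 2) = L * (x + y + x⁻¹ * y ^ 2 - x⁻¹ * z ^ 2) ∧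
    ((L2g x y z (P.vertex 0) ((starRingEnd ℂ) (P.vertex 0)) L hx hy hz) 6).app (P.vertex 3) = L * (x + x⁻¹ * y ^ 2 - x⁻¹ * z ^ 2) ∧
    ((L2g x y z (P.vertex 0) ((starRingEnd ℂ) (P.vertex 0)) L hx hy hz) 6).app (P.vertex 4) = L * (x⁻¹ * y ^ 2 - x⁻¹ * z ^ 2) := by
  have x0 : x ≠ 0 := fun h => by rw [h, norm_zero] at hx; exact zero_ne_one hx
  have y0 : y ≠ 0 := fun h => by rw [h, norm_zero] at hy; exact zero_ne_one hy
  have z0 : z ≠ 0 := fun h => by rw [h, norm_zero] at hz; exact zero_ne_one hz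
  have key : ∀ v : ℂ, ((L2g x y z (P.vertex 0) ((starRingEnd ℂ) (P.vertex 0)) L hx hy hz) 6).app v = (-(x * y⁻¹)) * v + (L * (x ^ 2 * y⁻¹ + x + y - y⁻¹ * z ^ 2 + x⁻¹ * y ^ 2 - x⁻¹ * z ^ 2) - (-(x * y⁻¹)) * P.vertex 0) := fun v => rfl
  refine ⟨?_, ?_, ?_, ?_, ?_⟩
  · rw [key]
    first | (field_simp; ring) | field_simp | ring
  · rw [key, e1]
    first | (field_simp; ring) | field_simp | ring
  · rw [key, e2]
    first | (field_simp; ring) | field_simp | ring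
  · rw [key, e3]
    first | (field_simp; ring) | field_simp | ring
  · rw [key, e4]
    first | (field_simp; ring) | field_simp | ring

private theorem L2p7
    {P : Polygon 5} {x y z L : ℂ} (hx : ‖x‖ = 1) (hy : ‖y‖ = 1) (hz : ‖z‖ = 1)
    (e1 : P.vertex 1 = P.vertex 0 + L * (x))
    (e2 : P.vertex 2 = P.vertex 0 + L * (x - x⁻¹ * z ^ 2))
    (e3 : P.vertex 3 = P.vertex 0 + L * (x + x⁻¹ * y ^ 2 - x⁻¹ * z ^ 2))
    (e4 : P.vertex 4 = P.vertex 0 + L * (x + y + x⁻¹ * y ^ 2 - x⁻¹ * z ^ 2))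
    (c1 : (starRingEnd ℂ) (P.vertex 1) = (starRingEnd ℂ) (P.vertex 0) + L * (x⁻¹))
    (c2 : (starRingEnd ℂ) (P.vertex 2) = (starRingEnd ℂ) (P.vertex 0) + L * (-x * z⁻¹ ^ 2 + x⁻¹))
    (c3 : (starRingEnd ℂ) (P.vertex 3) = (starRingEnd ℂ) (P.vertex 0) + L * (-x * z⁻¹ ^ 2 + x * y⁻¹ ^ 2 + x⁻¹))
    (c4 : (starRingEnd ℂ) (P.vertex 4) = (starRingEnd ℂ) (P.vertex 0) + L * (-x * z⁻¹ ^ 2 + x * y⁻¹ ^ 2 + y⁻¹ + x⁻¹)) :
    ((L2g x y z (P.vertex 0) ((starRingEnd ℂ) (P.vertex 0)) L hx hy hz) 7).app (P.vertex 0) = L * (0) ∧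
    ((L2g x y z (P.vertex 0) ((starRingEnd ℂ) (P.vertex 0)) L hx hy hz) 7).app (P.vertex 1) = L * (x⁻¹ * z ^ 2) ∧
    ((L2g x y z (P.vertex 0) ((starRingEnd ℂ) (P.vertex 0)) L hx hy hz) 7).app (P.vertex 2) = L * (-x + x⁻¹ * z ^ 2) ∧
    ((L2g x y z (P.vertex 0) ((starRingEnd ℂ) (P.vertex 0)) L hx hy hz) 7).app (P.vertex 3) = L * (-x + x * y⁻¹ ^ 2 * z ^ 2 + x⁻¹ * z ^ 2) ∧
    ((L2g x y z (P.vertex 0) ((starRingEnd ℂ) (P.vertex 0)) L hx hy hz) 7).app (P.vertex 4) = L * (-x + x * y⁻¹ ^ 2 * z ^ 2 + y⁻¹ * z ^ 2 + x⁻¹ * z ^ 2) := by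
  have x0 : x ≠ 0 := fun h => by rw [h, norm_zero] at hx; exact zero_ne_one hx
  have y0 : y ≠ 0 := fun h => by rw [h, norm_zero] at hy; exact zero_ne_one hy
  have z0 : z ≠ 0 := fun h => by rw [h, norm_zero] at hz; exact zero_ne_one hz
  have key : ∀ v : ℂ, ((L2g x y z (P.vertex 0) ((starRingEnd ℂ) (P.vertex 0)) L hx hy hz) 7).app v = (z ^ 2) * (starRingEnd ℂ) v + (L * (0) - (z ^ 2) * (starRingEnd ℂ) (P.vertex 0)) := fun v => rfl
  refine ⟨?_, ?_, ?_, ?_, ?_⟩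
  · rw [key]
    first | (field_simp; ring) | field_simp | ring
  · rw [key, c1]
    first | (field_simp; ring) | field_simp | ring
  · rw [key, c2]
    first | (field_simp; ring) | field_simp | ring
  · rw [key, c3]
    first | (field_simp; ring) | field_simp | ring
  · rw [key, c4]
    first | (field_simp; ring) | field_simp | ring

private theorem L2core
    {P : Polygon 5} {x y z L : ℂ} (hx : ‖x‖ = 1) (hy : ‖y‖ = 1) (hz : ‖z‖ = 1)
    (e1 : P.vertex 1 = P.vertex 0 + L * (x))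
    (e2 : P.vertex 2 = P.vertex 0 + L * (x - x⁻¹ * z ^ 2))
    (e3 : P.vertex 3 = P.vertex 0 + L * (x + x⁻¹ * y ^ 2 - x⁻¹ * z ^ 2))
    (e4 : P.vertex 4 = P.vertex 0 + L * (x + y + x⁻¹ * y ^ 2 - x⁻¹ * z ^ 2))
    (c1 : (starRingEnd ℂ) (P.vertex 1) = (starRingEnd ℂ) (P.vertex 0) + L * (x⁻¹))
    (c2 : (starRingEnd ℂ) (P.vertex 2) = (starRingEnd ℂ) (P.vertex 0) + L * (-x * z⁻¹ ^ 2 + x⁻¹))
    (c3 : (starRingEnd ℂ) (P.vertex 3) = (starRingEnd ℂ) (P.vertex 0) + L * (-x * z⁻¹ ^ 2 + x * y⁻¹ ^ 2 + x⁻¹))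
    (c4 : (starRingEnd ℂ) (P.vertex 4) = (starRingEnd ℂ) (P.vertex 0) + L * (-x * z⁻¹ ^ 2 + x * y⁻¹ ^ 2 + y⁻¹ + x⁻¹))
    (hR : 2 * x - x * y⁻¹ ^ 2 * z ^ 2 + y - y⁻¹ * z ^ 2 + x⁻¹ * y ^ 2 - 2 * x⁻¹ * z ^ 2 = 0)
    (hc : P.CCW) : HasPeriodic P := by
  have x0 : x ≠ 0 := fun h => by rw [h, norm_zero] at hx; exact zero_ne_one hx
  have y0 : y ≠ 0 := fun h => by rw [h, norm_zero] at hy; exact zero_ne_one hy
  have z0 : z ≠ 0 := fun h => by rw [h, norm_zero] at hz; exact zero_ne_one hz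
  obtain ⟨g, hg⟩ : ∃ g, g = (L2g x y z (P.vertex 0) ((starRingEnd ℂ) (P.vertex 0)) L hx hy hz) := ⟨_, rfl⟩
  obtain ⟨p00, p01, p02, p03, p04⟩ := L2p0 (P := P) (L := L) hx hy hz e1 e2 e3 e4 c1 c2 c3 c4
  obtain ⟨p10, p11, p12, p13, p14⟩ := L2p1 (P := P) (L := L) hx hy hz e1 e2 e3 e4 c1 c2 c3 c4
  obtain ⟨p20, p21, p22, p23, p24⟩ := L2p2 (P := P) (L := L) hx hy hz e1 e2 e3 e4 c1 c2 c3 c4
  obtain ⟨p30, p31, p32, p33, p34⟩ := L2p3 (P := P) (L := L) hx hy hz e1 e2 e3 e4 c1 c2 c3 c4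
  obtain ⟨p40, p41, p42, p43, p44⟩ := L2p4 (P := P) (L := L) hx hy hz e1 e2 e3 e4 c1 c2 c3 c4
  obtain ⟨p50, p51, p52, p53, p54⟩ := L2p5 (P := P) (L := L) hx hy hz e1 e2 e3 e4 c1 c2 c3 c4
  obtain ⟨p60, p61, p62, p63, p64⟩ := L2p6 (P := P) (L := L) hx hy hz e1 e2 e3 e4 c1 c2 c3 c4
  obtain ⟨p70, p71, p72, p73, p74⟩ := L2p7 (P := P) (L := L) hx hy hz e1 e2 e3 e4 c1 c2 c3 c4
  rw [← hg] at p00 p01 p02 p03 p04 p10 p11 p12 p13 p14 p20 p21 p22 p23 p24 p30 p31 p32 p33 p34 p40 p41 p42 p43 p44 p50 p51 p52 p53 p54 p60 p61 p62 p63 p64 p70 p71 p72 p73 p74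
  have r0 : (g 0).rf = false := by rw [hg]; rfl
  have r1 : (g 1).rf = true := by rw [hg]; rfl
  have r2 : (g 2).rf = false := by rw [hg]; rfl
  have r3 : (g 3).rf = false := by rw [hg]; rfl
  have r4 : (g 4).rf = true := by rw [hg]; rfl
  have r5 : (g 5).rf = true := by rw [hg]; rfl
  have r6 : (g 6).rf = false := by rw [hg]; rfl
  have r7 : (g 7).rf = true := by rw [hg]; rfl
  have f0 : (0 : ZMod 5) + 1 = 1 := by decide
  have f1 : (1 : ZMod 5) + 1 = 2 := by decide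
  have f2 : (2 : ZMod 5) + 1 = 3 := by decide
  have f3 : (3 : ZMod 5) + 1 = 4 := by decide
  have f4 : (4 : ZMod 5) + 1 = 0 := by decide
  have s00 : tsrc P g (0, 0) = L * (0) := by
    simp only [tsrc, r0, f0, if_true, if_false, Bool.false_eq_true, p00]
  have t00 : ttgt P g (0, 0) = L * (x) := by
    simp only [ttgt, r0, f0, if_true, if_false, Bool.false_eq_true, p01]
  have s01 : tsrc P g (0, 1) = L * (x) := by
    simp only [tsrc, r0, f1, if_true, if_false, Bool.false_eq_true, p01]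
  have t01 : ttgt P g (0, 1) = L * (x - x⁻¹ * z ^ 2) := by
    simp only [ttgt, r0, f1, if_true, if_false, Bool.false_eq_true, p02]
  have s02 : tsrc P g (0, 2) = L * (x - x⁻¹ * z ^ 2) := by
    simp only [tsrc, r0, f2, if_true, if_false, Bool.false_eq_true, p02]
  have t02 : ttgt P g (0, 2) = L * (x + x⁻¹ * y ^ 2 - x⁻¹ * z ^ 2) := by
    simp only [ttgt, r0, f2, if_true, if_false, Bool.false_eq_true, p03]
  have s03 : tsrc P g (0, 3) = L * (x + x⁻¹ * y ^ 2 - x⁻¹ * z ^ 2) := by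
    simp only [tsrc, r0, f3, if_true, if_false, Bool.false_eq_true, p03]
  have t03 : ttgt P g (0, 3) = L * (x + y + x⁻¹ * y ^ 2 - x⁻¹ * z ^ 2) := by
    simp only [ttgt, r0, f3, if_true, if_false, Bool.false_eq_true, p04]
  have s04 : tsrc P g (0, 4) = L * (x + y + x⁻¹ * y ^ 2 - x⁻¹ * z ^ 2) := by
    simp only [tsrc, r0, f4, if_true, if_false, Bool.false_eq_true, p04]
  have t04 : ttgt P g (0, 4) = L * (0) := by
    simp only [ttgt, r0, f4, if_true, if_false, Bool.false_eq_true, p00]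
  have s10 : tsrc P g (1, 0) = L * (x - x⁻¹ * z ^ 2) := by
    simp only [tsrc, r1, f0, if_true, if_false, Bool.false_eq_true, p11]
  have t10 : ttgt P g (1, 0) = L * (x) := by
    simp only [ttgt, r1, f0, if_true, if_false, Bool.false_eq_true, p10]
  have s11 : tsrc P g (1, 1) = L * (2 * x - x⁻¹ * z ^ 2) := by
    simp only [tsrc, r1, f1, if_true, if_false, Bool.false_eq_true, p12]
  have t11 : ttgt P g (1, 1) = L * (x - x⁻¹ * z ^ 2) := by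
    simp only [ttgt, r1, f1, if_true, if_false, Bool.false_eq_true, p11]
  have s12 : tsrc P g (1, 2) = L * (2 * x - x * y⁻¹ ^ 2 * z ^ 2 - x⁻¹ * z ^ 2) := by
    simp only [tsrc, r1, f2, if_true, if_false, Bool.false_eq_true, p13]
  have t12 : ttgt P g (1, 2) = L * (2 * x - x⁻¹ * z ^ 2) := by
    simp only [ttgt, r1, f2, if_true, if_false, Bool.false_eq_true, p12]
  have s13 : tsrc P g (1, 3) = L * (2 * x - x * y⁻¹ ^ 2 * z ^ 2 - y⁻¹ * z ^ 2 - x⁻¹ * z ^ 2) := by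
    simp only [tsrc, r1, f3, if_true, if_false, Bool.false_eq_true, p14]
  have t13 : ttgt P g (1, 3) = L * (2 * x - x * y⁻¹ ^ 2 * z ^ 2 - x⁻¹ * z ^ 2) := by
    simp only [ttgt, r1, f3, if_true, if_false, Bool.false_eq_true, p13]
  have s14 : tsrc P g (1, 4) = L * (x) := by
    simp only [tsrc, r1, f4, if_true, if_false, Bool.false_eq_true, p10]
  have t14 : ttgt P g (1, 4) = L * (2 * x - x * y⁻¹ ^ 2 * z ^ 2 - y⁻¹ * z ^ 2 - x⁻¹ * z ^ 2) := by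
    simp only [ttgt, r1, f4, if_true, if_false, Bool.false_eq_true, p14]
  have s20 : tsrc P g (2, 0) = L * (x) := by
    simp only [tsrc, r2, f0, if_true, if_false, Bool.false_eq_true, p20]
  have t20 : ttgt P g (2, 0) = L * (0) := by
    simp only [ttgt, r2, f0, if_true, if_false, Bool.false_eq_true, p21]
  have s21 : tsrc P g (2, 1) = L * (0) := by
    simp only [tsrc, r2, f1, if_true, if_false, Bool.false_eq_true, p21]
  have t21 : ttgt P g (2, 1) = L * (x⁻¹ * z ^ 2) := by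
    simp only [ttgt, r2, f1, if_true, if_false, Bool.false_eq_true, p22]
  have s22 : tsrc P g (2, 2) = L * (x⁻¹ * z ^ 2) := by
    simp only [tsrc, r2, f2, if_true, if_false, Bool.false_eq_true, p22]
  have t22 : ttgt P g (2, 2) = L * (-x⁻¹ * y ^ 2 + x⁻¹ * z ^ 2) := by
    simp only [ttgt, r2, f2, if_true, if_false, Bool.false_eq_true, p23]
  have s23 : tsrc P g (2, 3) = L * (-x⁻¹ * y ^ 2 + x⁻¹ * z ^ 2) := by
    simp only [tsrc, r2, f3, if_true, if_false, Bool.false_eq_true, p23]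
  have t23 : ttgt P g (2, 3) = L * (-y - x⁻¹ * y ^ 2 + x⁻¹ * z ^ 2) := by
    simp only [ttgt, r2, f3, if_true, if_false, Bool.false_eq_true, p24]
  have s24 : tsrc P g (2, 4) = L * (-y - x⁻¹ * y ^ 2 + x⁻¹ * z ^ 2) := by
    simp only [tsrc, r2, f4, if_true, if_false, Bool.false_eq_true, p24]
  have t24 : ttgt P g (2, 4) = L * (x) := by
    simp only [ttgt, r2, f4, if_true, if_false, Bool.false_eq_true, p20]
  have s30 : tsrc P g (3, 0) = L * (-x ^ 2 * y⁻¹ + x - y + y⁻¹ * z ^ 2 - x⁻¹ * z ^ 2) := by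
    simp only [tsrc, r3, f0, if_true, if_false, Bool.false_eq_true, p30]
  have t30 : ttgt P g (3, 0) = L * (x - y + y⁻¹ * z ^ 2 - x⁻¹ * z ^ 2) := by
    simp only [ttgt, r3, f0, if_true, if_false, Bool.false_eq_true, p31]
  have s31 : tsrc P g (3, 1) = L * (x - y + y⁻¹ * z ^ 2 - x⁻¹ * z ^ 2) := by
    simp only [tsrc, r3, f1, if_true, if_false, Bool.false_eq_true, p31]
  have t31 : ttgt P g (3, 1) = L * (x - y - x⁻¹ * z ^ 2) := by
    simp only [ttgt, r3, f1, if_true, if_false, Bool.false_eq_true, p32]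
  have s32 : tsrc P g (3, 2) = L * (x - y - x⁻¹ * z ^ 2) := by
    simp only [tsrc, r3, f2, if_true, if_false, Bool.false_eq_true, p32]
  have t32 : ttgt P g (3, 2) = L * (x - x⁻¹ * z ^ 2) := by
    simp only [ttgt, r3, f2, if_true, if_false, Bool.false_eq_true, p33]
  have s33 : tsrc P g (3, 3) = L * (x - x⁻¹ * z ^ 2) := by
    simp only [tsrc, r3, f3, if_true, if_false, Bool.false_eq_true, p33]
  have t33 : ttgt P g (3, 3) = L * (2 * x - x⁻¹ * z ^ 2) := by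
    simp only [ttgt, r3, f3, if_true, if_false, Bool.false_eq_true, p34]
  have s34 : tsrc P g (3, 4) = L * (2 * x - x⁻¹ * z ^ 2) := by
    simp only [tsrc, r3, f4, if_true, if_false, Bool.false_eq_true, p34]
  have t34 : ttgt P g (3, 4) = L * (-x ^ 2 * y⁻¹ + x - y + y⁻¹ * z ^ 2 - x⁻¹ * z ^ 2) := by
    simp only [ttgt, r3, f4, if_true, if_false, Bool.false_eq_true, p30]
  have s40 : tsrc P g (4, 0) = L * (x ^ 2 * y⁻¹ - x ^ 2 * y⁻¹ ^ 3 * z ^ 2 + 2 * x - x * y⁻¹ ^ 2 * z ^ 2 - x⁻¹ * z ^ 2) := by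
    simp only [tsrc, r4, f0, if_true, if_false, Bool.false_eq_true, p41]
  have t40 : ttgt P g (4, 0) = L * (x ^ 2 * y⁻¹ - x ^ 2 * y⁻¹ ^ 3 * z ^ 2 + 2 * x - x * y⁻¹ ^ 2 * z ^ 2 - y⁻¹ * z ^ 2 - x⁻¹ * z ^ 2) := by
    simp only [ttgt, r4, f0, if_true, if_false, Bool.false_eq_true, p40]
  have s41 : tsrc P g (4, 1) = L * (-x ^ 2 * y⁻¹ ^ 3 * z ^ 2 + 2 * x - x * y⁻¹ ^ 2 * z ^ 2 - x⁻¹ * z ^ 2) := by
    simp only [tsrc, r4, f1, if_true, if_false, Bool.false_eq_true, p42]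
  have t41 : ttgt P g (4, 1) = L * (x ^ 2 * y⁻¹ - x ^ 2 * y⁻¹ ^ 3 * z ^ 2 + 2 * x - x * y⁻¹ ^ 2 * z ^ 2 - x⁻¹ * z ^ 2) := by
    simp only [ttgt, r4, f1, if_true, if_false, Bool.false_eq_true, p41]
  have s42 : tsrc P g (4, 2) = L * (2 * x - x * y⁻¹ ^ 2 * z ^ 2 - x⁻¹ * z ^ 2) := by
    simp only [tsrc, r4, f2, if_true, if_false, Bool.false_eq_true, p43]
  have t42 : ttgt P g (4, 2) = L * (-x ^ 2 * y⁻¹ ^ 3 * z ^ 2 + 2 * x - x * y⁻¹ ^ 2 * z ^ 2 - x⁻¹ * z ^ 2) := by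
    simp only [ttgt, r4, f2, if_true, if_false, Bool.false_eq_true, p42]
  have s43 : tsrc P g (4, 3) = L * (2 * x - x⁻¹ * z ^ 2) := by
    simp only [tsrc, r4, f3, if_true, if_false, Bool.false_eq_true, p44]
  have t43 : ttgt P g (4, 3) = L * (2 * x - x * y⁻¹ ^ 2 * z ^ 2 - x⁻¹ * z ^ 2) := by
    simp only [ttgt, r4, f3, if_true, if_false, Bool.false_eq_true, p43]
  have s44 : tsrc P g (4, 4) = L * (x ^ 2 * y⁻¹ - x ^ 2 * y⁻¹ ^ 3 * z ^ 2 + 2 * x - x * y⁻¹ ^ 2 * z ^ 2 - y⁻¹ * z ^ 2 - x⁻¹ * z ^ 2) := by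
    simp only [tsrc, r4, f4, if_true, if_false, Bool.false_eq_true, p40]
  have t44 : ttgt P g (4, 4) = L * (2 * x - x⁻¹ * z ^ 2) := by
    simp only [ttgt, r4, f4, if_true, if_false, Bool.false_eq_true, p44]
  have s50 : tsrc P g (5, 0) = L * (-x ^ 2 * y⁻¹ + x - y + y⁻¹ * z ^ 2 - x⁻¹ * z ^ 2) := by
    simp only [tsrc, r5, f0, if_true, if_false, Bool.false_eq_true, p51]
  have t50 : ttgt P g (5, 0) = L * (-x ^ 2 * y⁻¹ + x - y + 2 * y⁻¹ * z ^ 2 - x⁻¹ * z ^ 2) := by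
    simp only [ttgt, r5, f0, if_true, if_false, Bool.false_eq_true, p50]
  have s51 : tsrc P g (5, 1) = L * (x - y + y⁻¹ * z ^ 2 - x⁻¹ * z ^ 2) := by
    simp only [tsrc, r5, f1, if_true, if_false, Bool.false_eq_true, p52]
  have t51 : ttgt P g (5, 1) = L * (-x ^ 2 * y⁻¹ + x - y + y⁻¹ * z ^ 2 - x⁻¹ * z ^ 2) := by
    simp only [ttgt, r5, f1, if_true, if_false, Bool.false_eq_true, p51]
  have s52 : tsrc P g (5, 2) = L * (-x ^ 2 * y⁻¹ ^ 3 * z ^ 2 + x - y + y⁻¹ * z ^ 2 - x⁻¹ * z ^ 2) := by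
    simp only [tsrc, r5, f2, if_true, if_false, Bool.false_eq_true, p53]
  have t52 : ttgt P g (5, 2) = L * (x - y + y⁻¹ * z ^ 2 - x⁻¹ * z ^ 2) := by
    simp only [ttgt, r5, f2, if_true, if_false, Bool.false_eq_true, p52]
  have s53 : tsrc P g (5, 3) = L * (-x ^ 2 * y⁻¹ ^ 3 * z ^ 2 + x - x * y⁻¹ ^ 2 * z ^ 2 - y + y⁻¹ * z ^ 2 - x⁻¹ * z ^ 2) := by
    simp only [tsrc, r5, f3, if_true, if_false, Bool.false_eq_true, p54]
  have t53 : ttgt P g (5, 3) = L * (-x ^ 2 * y⁻¹ ^ 3 * z ^ 2 + x - y + y⁻¹ * z ^ 2 - x⁻¹ * z ^ 2) := by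
    simp only [ttgt, r5, f3, if_true, if_false, Bool.false_eq_true, p53]
  have s54 : tsrc P g (5, 4) = L * (-x ^ 2 * y⁻¹ + x - y + 2 * y⁻¹ * z ^ 2 - x⁻¹ * z ^ 2) := by
    simp only [tsrc, r5, f4, if_true, if_false, Bool.false_eq_true, p50]
  have t54 : ttgt P g (5, 4) = L * (-x ^ 2 * y⁻¹ ^ 3 * z ^ 2 + x - x * y⁻¹ ^ 2 * z ^ 2 - y + y⁻¹ * z ^ 2 - x⁻¹ * z ^ 2) := by
    simp only [ttgt, r5, f4, if_true, if_false, Bool.false_eq_true, p54]
  have s60 : tsrc P g (6, 0) = L * (x ^ 2 * y⁻¹ + x + y - y⁻¹ * z ^ 2 + x⁻¹ * y ^ 2 - x⁻¹ * z ^ 2) := by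
    simp only [tsrc, r6, f0, if_true, if_false, Bool.false_eq_true, p60]
  have t60 : ttgt P g (6, 0) = L * (x + y - y⁻¹ * z ^ 2 + x⁻¹ * y ^ 2 - x⁻¹ * z ^ 2) := by
    simp only [ttgt, r6, f0, if_true, if_false, Bool.false_eq_true, p61]
  have s61 : tsrc P g (6, 1) = L * (x + y - y⁻¹ * z ^ 2 + x⁻¹ * y ^ 2 - x⁻¹ * z ^ 2) := by
    simp only [tsrc, r6, f1, if_true, if_false, Bool.false_eq_true, p61]
  have t61 : ttgt P g (6, 1) = L * (x + y + x⁻¹ * y ^ 2 - x⁻¹ * z ^ 2) := by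
    simp only [ttgt, r6, f1, if_true, if_false, Bool.false_eq_true, p62]
  have s62 : tsrc P g (6, 2) = L * (x + y + x⁻¹ * y ^ 2 - x⁻¹ * z ^ 2) := by
    simp only [tsrc, r6, f2, if_true, if_false, Bool.false_eq_true, p62]
  have t62 : ttgt P g (6, 2) = L * (x + x⁻¹ * y ^ 2 - x⁻¹ * z ^ 2) := by
    simp only [ttgt, r6, f2, if_true, if_false, Bool.false_eq_true, p63]
  have s63 : tsrc P g (6, 3) = L * (x + x⁻¹ * y ^ 2 - x⁻¹ * z ^ 2) := by
    simp only [tsrc, r6, f3, if_true, if_false, Bool.false_eq_true, p63]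
  have t63 : ttgt P g (6, 3) = L * (x⁻¹ * y ^ 2 - x⁻¹ * z ^ 2) := by
    simp only [ttgt, r6, f3, if_true, if_false, Bool.false_eq_true, p64]
  have s64 : tsrc P g (6, 4) = L * (x⁻¹ * y ^ 2 - x⁻¹ * z ^ 2) := by
    simp only [tsrc, r6, f4, if_true, if_false, Bool.false_eq_true, p64]
  have t64 : ttgt P g (6, 4) = L * (x ^ 2 * y⁻¹ + x + y - y⁻¹ * z ^ 2 + x⁻¹ * y ^ 2 - x⁻¹ * z ^ 2) := by
    simp only [ttgt, r6, f4, if_true, if_false, Bool.false_eq_true, p60]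
  have s70 : tsrc P g (7, 0) = L * (x⁻¹ * z ^ 2) := by
    simp only [tsrc, r7, f0, if_true, if_false, Bool.false_eq_true, p71]
  have t70 : ttgt P g (7, 0) = L * (0) := by
    simp only [ttgt, r7, f0, if_true, if_false, Bool.false_eq_true, p70]
  have s71 : tsrc P g (7, 1) = L * (-x + x⁻¹ * z ^ 2) := by
    simp only [tsrc, r7, f1, if_true, if_false, Bool.false_eq_true, p72]
  have t71 : ttgt P g (7, 1) = L * (x⁻¹ * z ^ 2) := by
    simp only [ttgt, r7, f1, if_true, if_false, Bool.false_eq_true, p71]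
  have s72 : tsrc P g (7, 2) = L * (-x + x * y⁻¹ ^ 2 * z ^ 2 + x⁻¹ * z ^ 2) := by
    simp only [tsrc, r7, f2, if_true, if_false, Bool.false_eq_true, p73]
  have t72 : ttgt P g (7, 2) = L * (-x + x⁻¹ * z ^ 2) := by
    simp only [ttgt, r7, f2, if_true, if_false, Bool.false_eq_true, p72]
  have s73 : tsrc P g (7, 3) = L * (-x + x * y⁻¹ ^ 2 * z ^ 2 + y⁻¹ * z ^ 2 + x⁻¹ * z ^ 2) := by
    simp only [tsrc, r7, f3, if_true, if_false, Bool.false_eq_true, p74]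
  have t73 : ttgt P g (7, 3) = L * (-x + x * y⁻¹ ^ 2 * z ^ 2 + x⁻¹ * z ^ 2) := by
    simp only [ttgt, r7, f3, if_true, if_false, Bool.false_eq_true, p73]
  have s74 : tsrc P g (7, 4) = L * (0) := by
    simp only [tsrc, r7, f4, if_true, if_false, Bool.false_eq_true, p70]
  have t74 : ttgt P g (7, 4) = L * (-x + x * y⁻¹ ^ 2 * z ^ 2 + y⁻¹ * z ^ 2 + x⁻¹ * z ^ 2) := by
    simp only [ttgt, r7, f4, if_true, if_false, Bool.false_eq_true, p74]
  refine kcrit P hc (by norm_num) g (L * (x - x * y⁻¹ ^ 2 * z ^ 2 + y - y⁻¹ * z ^ 2))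
    (L * (-x ^ 2 * y⁻¹ ^ 3 * z ^ 2 + x - x * y⁻¹ ^ 2 * z ^ 2 - y + y⁻¹ * z ^ 2 - x⁻¹ * y ^ 2)) L2tb ?_ ?_ ?_ ?_ ?_
  · decide
  · rfl
  · intro e he
    simp only [L2tb, List.mem_cons, List.not_mem_nil, or_false] at he
    rcases he with rfl | rfl | rfl | rfl | rfl | rfl | rfl | rfl | rfl | rfl | rfl | rfl | rfl | rfl | rfl | rfl | rfl | rfl | rfl | rfl
    · simp only [lv, s00, s20, t00, t20, Int.cast_zero, Int.cast_one, Int.cast_neg]
      constructor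
      · first | (field_simp; ring) | field_simp | ring
      · first | (field_simp; ring) | field_simp | ring
    · simp only [lv, s01, s10, t01, t10, Int.cast_zero, Int.cast_one, Int.cast_neg]
      constructor
      · first | (field_simp; ring) | field_simp | ring
      · first | (field_simp; ring) | field_simp | ring
    · simp only [lv, s02, s22, t02, t22, Int.cast_zero, Int.cast_one, Int.cast_neg]
      constructor
      · linear_combination (norm := skip) (L * (-1)) * hR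
        first | (field_simp; ring) | field_simp | ring
      · linear_combination (norm := skip) (L * (-1)) * hR
        first | (field_simp; ring) | field_simp | ring
    · simp only [lv, s03, s62, t03, t62, Int.cast_zero, Int.cast_one, Int.cast_neg]
      constructor
      · first | (field_simp; ring) | field_simp | ring
      · first | (field_simp; ring) | field_simp | ring
    · simp only [lv, s04, s74, t04, t74, Int.cast_zero, Int.cast_one, Int.cast_neg]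
      constructor
      · first | (field_simp; ring) | field_simp | ring
      · linear_combination (norm := skip) (L * (-1)) * hR
        first | (field_simp; ring) | field_simp | ring
    · simp only [lv, s11, s33, t11, t33, Int.cast_zero, Int.cast_one, Int.cast_neg]
      constructor
      · first | (field_simp; ring) | field_simp | ring
      · first | (field_simp; ring) | field_simp | ring
    · simp only [lv, s12, s43, t12, t43, Int.cast_zero, Int.cast_one, Int.cast_neg]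
      constructor
      · first | (field_simp; ring) | field_simp | ring
      · first | (field_simp; ring) | field_simp | ring
    · simp only [lv, s13, s31, t13, t31, Int.cast_zero, Int.cast_one, Int.cast_neg]
      constructor
      · first | (field_simp; ring) | field_simp | ring
      · first | (field_simp; ring) | field_simp | ring
    · simp only [lv, s14, s24, t14, t24, Int.cast_zero, Int.cast_one, Int.cast_neg]
      constructor
      · linear_combination (norm := skip) (L * (-1)) * hR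
        first | (field_simp; ring) | field_simp | ring
      · first | (field_simp; ring) | field_simp | ring
    · simp only [lv, s21, s70, t21, t70, Int.cast_zero, Int.cast_one, Int.cast_neg]
      constructor
      · first | (field_simp; ring) | field_simp | ring
      · first | (field_simp; ring) | field_simp | ring
    · simp only [lv, s23, s32, t23, t32, Int.cast_zero, Int.cast_one, Int.cast_neg]
      constructor
      · linear_combination (norm := skip) (L * (1)) * hR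
        first | (field_simp; ring) | field_simp | ring
      · linear_combination (norm := skip) (L * (1)) * hR
        first | (field_simp; ring) | field_simp | ring
    · simp only [lv, s30, s51, t30, t51, Int.cast_zero, Int.cast_one, Int.cast_neg]
      constructor
      · first | (field_simp; ring) | field_simp | ring
      · first | (field_simp; ring) | field_simp | ring
    · simp only [lv, s34, s44, t34, t44, Int.cast_zero, Int.cast_one, Int.cast_neg]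
      constructor
      · linear_combination (norm := skip) (L * (x * y⁻¹)) * hR
        first | (field_simp; ring) | field_simp | ring
      · first | (field_simp; ring) | field_simp | ring
    · simp only [lv, s40, s50, t40, t50, Int.cast_zero, Int.cast_one, Int.cast_neg]
      constructor
      · linear_combination (norm := skip) (L * (-x * y⁻¹)) * hR
        first | (field_simp; ring) | field_simp | ring
      · linear_combination (norm := skip) (L * (-x * y⁻¹)) * hR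
        first | (field_simp; ring) | field_simp | ring
    · simp only [lv, s41, s60, t41, t60, Int.cast_zero, Int.cast_one, Int.cast_neg]
      constructor
      · first | (field_simp; ring) | field_simp | ring
      · first | (field_simp; ring) | field_simp | ring
    · simp only [lv, s42, s52, t42, t52, Int.cast_zero, Int.cast_one, Int.cast_neg]
      constructor
      · first | (field_simp; ring) | field_simp | ring
      · first | (field_simp; ring) | field_simp | ring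
    · simp only [lv, s53, s72, t53, t72, Int.cast_zero, Int.cast_one, Int.cast_neg]
      constructor
      · linear_combination (norm := skip) (L * (-1)) * hR
        first | (field_simp; ring) | field_simp | ring
      · linear_combination (norm := skip) (L * (-1)) * hR
        first | (field_simp; ring) | field_simp | ring
    · simp only [lv, s54, s64, t54, t64, Int.cast_zero, Int.cast_one, Int.cast_neg]
      constructor
      · first | (field_simp; ring) | field_simp | ring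
      · linear_combination (norm := skip) (L * (x * y⁻¹)) * hR
        first | (field_simp; ring) | field_simp | ring
    · simp only [lv, s61, s73, t61, t73, Int.cast_zero, Int.cast_one, Int.cast_neg]
      constructor
      · linear_combination (norm := skip) (L * (-1)) * hR
        first | (field_simp; ring) | field_simp | ring
      · linear_combination (norm := skip) (L * (-1)) * hR
        first | (field_simp; ring) | field_simp | ring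
    · simp only [lv, s63, s71, t63, t71, Int.cast_zero, Int.cast_one, Int.cast_neg]
      constructor
      · linear_combination (norm := skip) (L * (-1)) * hR
        first | (field_simp; ring) | field_simp | ring
      · linear_combination (norm := skip) (L * (-1)) * hR
        first | (field_simp; ring) | field_simp | ring
  · simp only [L2tb, List.map_cons, List.map_nil, List.sum_cons, List.sum_nil, Int.cast_zero, Int.cast_one,
      Int.cast_neg, zero_mul, zero_add, s00, s01, s02, s03, s04, s11, s12, s13, s14, s21, s23, s30, s34, s40, s41, s42, s53, s54, s61, s63, t00, t01, t02, t03, t04, t11, t12, t13, t14, t21, t23, t30, t34, t40, t41, t42, t53, t54, t61, t63]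
    first | (field_simp; ring) | field_simp | ring
  · simp only [L2tb, List.map_cons, List.map_nil, List.sum_cons, List.sum_nil, Int.cast_zero, Int.cast_one,
      Int.cast_neg, zero_mul, zero_add, s00, s01, s02, s03, s04, s11, s12, s13, s14, s21, s23, s30, s34, s40, s41, s42, s53, s54, s61, s63, t00, t01, t02, t03, t04, t11, t12, t13, t14, t21, t23, t30, t34, t40, t41, t42, t53, t54, t61, t63]
    linear_combination (norm := skip) (L * (x * y⁻¹)) * hR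
    first | (field_simp; ring) | field_simp | ring

theorem specL2 : SpecL2 := by
  rintro P ⟨hc, h01, h12, h23⟩ h1 h2
  obtain ⟨x, hx⟩ : ∃ x, x = P.dr 0 := ⟨_, rfl⟩
  obtain ⟨y, hy⟩ : ∃ y, y = P.dr 3 := ⟨_, rfl⟩
  obtain ⟨z, hz⟩ : ∃ z, z = P.dr 4 := ⟨_, rfl⟩
  have nx : ‖x‖ = 1 := by rw [hx]; exact P.dr_norm 0
  have ny : ‖y‖ = 1 := by rw [hy]; exact P.dr_norm 3
  have nz : ‖z‖ = 1 := by rw [hz]; exact P.dr_norm 4
  have x0 : x ≠ 0 := by rw [hx]; exact P.dr_ne 0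
  have y0 : y ≠ 0 := by rw [hy]; exact P.dr_ne 3
  have z0 : z ≠ 0 := by rw [hz]; exact P.dr_ne 4
  have cx : (starRingEnd ℂ) x = x⁻¹ := by rw [hx]; exact P.dr_conj 0
  have cy : (starRingEnd ℂ) y = y⁻¹ := by rw [hy]; exact P.dr_conj 3
  have cz : (starRingEnd ℂ) z = z⁻¹ := by rw [hz]; exact P.dr_conj 4
  have a0 := P.exp_ang 0
  have a1 := P.exp_ang 1
  have a2 := P.exp_ang 2
  have a4 := P.exp_ang 4
  rw [show (0 : ZMod 5) - 1 = 4 by decide, ← hx, ← hz] at a0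
  rw [show (1 : ZMod 5) - 1 = 0 by decide, ← hx] at a1
  rw [show (2 : ZMod 5) - 1 = 1 by decide] at a2
  rw [show (4 : ZMod 5) - 1 = 3 by decide, ← hy, ← hz] at a4
  have n1 := P.dr_ne 1
  have n2 := P.dr_ne 2
  have E1 : exp ((P.ang 0 : ℂ) * Complex.I) ^ 2 * exp ((P.ang 1 : ℂ) * Complex.I) = 1 := by
    rw [← Complex.exp_nat_mul, ← Complex.exp_add]
    have h3 : ((2 : ℕ) : ℂ) * ((P.ang 0 : ℂ) * Complex.I) + (P.ang 1 : ℂ) * Complex.I =
        2 * Real.pi * Complex.I := by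
      have h4 : ((2 * P.ang 0 + P.ang 1 : ℝ) : ℂ) = ((2 * Real.pi : ℝ) : ℂ) := by rw [h1]
      push_cast at h4 ⊢
      linear_combination Complex.I * h4
    rw [h3, Complex.exp_two_pi_mul_I]
  have E2 : exp ((P.ang 2 : ℂ) * Complex.I) * exp ((P.ang 4 : ℂ) * Complex.I) ^ 2 = 1 := by
    rw [← Complex.exp_nat_mul, ← Complex.exp_add]
    have h3 : (P.ang 2 : ℂ) * Complex.I + ((2 : ℕ) : ℂ) * ((P.ang 4 : ℂ) * Complex.I) =
        2 * Real.pi * Complex.I := by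
      have h4 : ((P.ang 2 + 2 * P.ang 4 : ℝ) : ℂ) = ((2 * Real.pi : ℝ) : ℂ) := by rw [h2]
      push_cast at h4 ⊢
      linear_combination Complex.I * h4
    rw [h3, Complex.exp_two_pi_mul_I]
  rw [a0, a1] at E1
  rw [a2, a4] at E2
  have d1 : P.dr 1 = -x⁻¹ * z ^ 2 := by
    field_simp at E1 ⊢
    linear_combination (-1 : ℂ) * E1
  have d2 : P.dr 2 = x⁻¹ * y ^ 2 := by
    rw [d1] at E2 n1
    field_simp at E2 ⊢
    linear_combination (-1 : ℂ) * E2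
  obtain ⟨l, hl⟩ : ∃ l, l = P.len 0 := ⟨_, rfl⟩
  have l0 : (l : ℂ) ≠ 0 := by rw [hl]; exact P.len_ne 0
  have v1 := P.dr_len 0
  have v2 := P.dr_len 1
  have v3 := P.dr_len 2
  have v4 := P.dr_len 3
  have v5 := P.dr_len 4
  rw [show (0 : ZMod 5) + 1 = 1 by decide, ← hl, ← hx] at v1
  rw [show (1 : ZMod 5) + 1 = 2 by decide, ← h01, ← hl, d1] at v2
  rw [show (2 : ZMod 5) + 1 = 3 by decide, ← h12, ← h01, ← hl, d2] at v3
  rw [show (3 : ZMod 5) + 1 = 4 by decide, ← h23, ← h12, ← h01, ← hl, ← hy] at v4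
  rw [show (4 : ZMod 5) + 1 = 0 by decide, ← hz] at v5
  have e1 : P.vertex 1 = P.vertex 0 + l * (x) := by linear_combination v1
  have e2 : P.vertex 2 = P.vertex 0 + l * (x - x⁻¹ * z ^ 2) := by linear_combination v1 + v2
  have e3 : P.vertex 3 = P.vertex 0 + l * (x + x⁻¹ * y ^ 2 - x⁻¹ * z ^ 2) := by linear_combination v1 + v2 + v3
  have e4 : P.vertex 4 = P.vertex 0 + l * (x + y + x⁻¹ * y ^ 2 - x⁻¹ * z ^ 2) := by linear_combination v1 + v2 + v3 + v4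
  have c1 : (starRingEnd ℂ) (P.vertex 1) = (starRingEnd ℂ) (P.vertex 0) + l * (x⁻¹) := by
    rw [e1]
    simp only [map_add, map_mul, conj_ofReal, cx]
  have c2 : (starRingEnd ℂ) (P.vertex 2) = (starRingEnd ℂ) (P.vertex 0) + l * (-x * z⁻¹ ^ 2 + x⁻¹) := by
    rw [e2]
    simp only [map_add, map_sub, map_neg, map_mul, map_pow, map_inv₀, conj_ofReal, cx, cy, cz, inv_inv]
    first | (field_simp; ring) | field_simp | ring
  have c3 : (starRingEnd ℂ) (P.vertex 3) = (starRingEnd ℂ) (P.vertex 0) + l * (-x * z⁻¹ ^ 2 + x * y⁻¹ ^ 2 + x⁻¹) := by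
    rw [e3]
    simp only [map_add, map_sub, map_neg, map_mul, map_pow, map_inv₀, conj_ofReal, cx, cy, cz, inv_inv]
    first | (field_simp; ring) | field_simp | ring
  have c4 : (starRingEnd ℂ) (P.vertex 4) = (starRingEnd ℂ) (P.vertex 0) + l * (-x * z⁻¹ ^ 2 + x * y⁻¹ ^ 2 + y⁻¹ + x⁻¹) := by
    rw [e4]
    simp only [map_add, map_sub, map_neg, map_mul, map_pow, map_inv₀, conj_ofReal, cx, cy, cz, inv_inv]
    first | (field_simp; ring) | field_simp | ring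
  have k1 : (l : ℂ) * (x + y + x⁻¹ * y ^ 2 - x⁻¹ * z ^ 2) + P.len 4 * z = 0 := by linear_combination (-1 : ℂ) * v5 - e4
  have k2 : (l : ℂ) * (-x * z⁻¹ ^ 2 + x * y⁻¹ ^ 2 + y⁻¹ + x⁻¹) + P.len 4 * z⁻¹ = 0 := by
    have v6 := congrArg (starRingEnd ℂ) v5
    simp only [map_sub, map_mul, conj_ofReal, cz] at v6
    linear_combination (-1 : ℂ) * v6 - c4
  have hR : 2 * x - x * y⁻¹ ^ 2 * z ^ 2 + y - y⁻¹ * z ^ 2 + x⁻¹ * y ^ 2 - 2 * x⁻¹ * z ^ 2 = 0 := by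
    have h3 : (l : ℂ) * (2 * x - x * y⁻¹ ^ 2 * z ^ 2 + y - y⁻¹ * z ^ 2 + x⁻¹ * y ^ 2 - 2 * x⁻¹ * z ^ 2) = 0 := by
      linear_combination (norm := skip) k1 - z ^ 2 * k2
      first | (field_simp; ring) | field_simp | ring
    exact (mul_eq_zero.1 h3).resolve_left l0
  exact L2core nx ny nz e1 e2 e3 e4 c1 c2 c3 c4 hR hc

end Pool.Agent.Lib_MP_fa6e45
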