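import Pool.Agent.Lib_MP_fa6e45.HS

/-!
MP_fa6e45_co, stage 4, piece HX-L5: a periodic tiling with 8 tiles (generated by a script).  With `a = dr 2 / dr 0`,
`b = dr 4 / dr 0` the directions of the sides are `dr 0` times `1, -a^2, a, -a b^2, b`; all corners of the tiles are
Laurent polynomials in `a`, `b`, linear in the lengths `x`, `y`, and all gluings follow from the closing relation `hC`
and its conjugate `hC'`.
-/

set_option linter.unusedVariables false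
set_option linter.unusedSimpArgs false

open Set MeasureTheory Complex
open scoped Topology

namespace Pool.Agent.Lib_MP_fa6e45

private noncomputable def mkM (A : ℂ) (hA : ‖A‖ = 1) (r : Bool) (p v : ℂ) : Mo :=
  ⟨A, p - (if r then A * (starRingEnd ℂ) v else A * v), r, hA⟩

private theorem mkM_f (A : ℂ) (hA : ‖A‖ = 1) (p v z : ℂ) :
    (mkM A hA false p v).app z = p + A * (z - v) := by
  unfold mkM Mo.app Mo.lin
  simp
  ring

private theorem mkM_t (A : ℂ) (hA : ‖A‖ = 1) (p v z : ℂ) :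
    (mkM A hA true p v).app z = p + A * ((starRingEnd ℂ) z - (starRingEnd ℂ) v) := by
  unfold mkM Mo.app Mo.lin
  simp
  ring

private theorem ts_f {k : ℕ} (P : Polygon 5) (g : Fin k → Mo) (i : Fin k) (e : ZMod 5)
    (h : (g i).rf = false) : tsrc P g (i, e) = (g i).app (P.vertex e) := by
  unfold tsrc
  simp [h]

private theorem ts_t {k : ℕ} (P : Polygon 5) (g : Fin k → Mo) (i : Fin k) (e : ZMod 5)
    (h : (g i).rf = true) : tsrc P g (i, e) = (g i).app (P.vertex (e + 1)) := by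
  unfold tsrc
  simp [h]

private theorem tt_f {k : ℕ} (P : Polygon 5) (g : Fin k → Mo) (i : Fin k) (e : ZMod 5)
    (h : (g i).rf = false) : ttgt P g (i, e) = (g i).app (P.vertex (e + 1)) := by
  unfold ttgt
  simp [h]

private theorem tt_t {k : ℕ} (P : Polygon 5) (g : Fin k → Mo) (i : Fin k) (e : ZMod 5)
    (h : (g i).rf = true) : ttgt P g (i, e) = (g i).app (P.vertex e) := by
  unfold ttgt
  simp [h]

private theorem core (P : Polygon 5) (hc : P.CCW) (a a' b b' D D' x y V V' : ℂ)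
    (ha : a * a' = 1) (hb : b * b' = 1) (hD : D * D' = 1)
    (na : ‖a‖ = 1) (na' : ‖a'‖ = 1) (nb : ‖b‖ = 1) (nb' : ‖b'‖ = 1) (nD : ‖D‖ = 1) (nD' : ‖D'‖ = 1)
    (q0 : P.vertex 0 = V) (r0 : (starRingEnd ℂ) (P.vertex 0) = V')
    (q1 : P.vertex 1 = V + D * (x))
    (r1 : (starRingEnd ℂ) (P.vertex 1) = V' + D' * (x))
    (q2 : P.vertex 2 = V + D * (-a ^ 2 * x + x))
    (r2 : (starRingEnd ℂ) (P.vertex 2) = V' + D' * (-a' ^ 2 * x + x))
    (q3 : P.vertex 3 = V + D * (-a ^ 2 * x + a * x + x))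
    (r3 : (starRingEnd ℂ) (P.vertex 3) = V' + D' * (-a' ^ 2 * x + a' * x + x))
    (q4 : P.vertex 4 = V + D * (-a ^ 2 * x - a * b ^ 2 * x + a * x + x))
    (r4 : (starRingEnd ℂ) (P.vertex 4) = V' + D' * (-a' ^ 2 * x - a' * b' ^ 2 * x + a' * x + x))
    (hC : -a ^ 2 * x - a * b ^ 2 * x + a * x + b * y + x = 0)
    (hC' : -a' ^ 2 * x - a' * b' ^ 2 * x + a' * x + b' * y + x = 0) : HasPeriodic P := by
  have z0 : (0 : ZMod 5) + 1 = 1 := by decide
  have z1 : (1 : ZMod 5) + 1 = 2 := by decide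
  have z2 : (2 : ZMod 5) + 1 = 3 := by decide
  have z3 : (3 : ZMod 5) + 1 = 4 := by decide
  have z4 : (4 : ZMod 5) + 1 = 0 := by decide
  have n0 : ‖(1) * D'‖ = 1 := by
    simp only [norm_mul, norm_neg, norm_pow, norm_one, na, na', nb, nb', nD, nD', one_pow, mul_one]
  have n1 : ‖(a') * D'‖ = 1 := by
    simp only [norm_mul, norm_neg, norm_pow, norm_one, na, na', nb, nb', nD, nD', one_pow, mul_one]
  have n2 : ‖(-1) * D'‖ = 1 := by
    simp only [norm_mul, norm_neg, norm_pow, norm_one, na, na', nb, nb', nD, nD', one_pow, mul_one]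
  have n3 : ‖(-b ^ 2) * D‖ = 1 := by
    simp only [norm_mul, norm_neg, norm_pow, norm_one, na, na', nb, nb', nD, nD', one_pow, mul_one]
  have n4 : ‖(a' * b ^ 2) * D‖ = 1 := by
    simp only [norm_mul, norm_neg, norm_pow, norm_one, na, na', nb, nb', nD, nD', one_pow, mul_one]
  have n5 : ‖(-a') * D'‖ = 1 := by
    simp only [norm_mul, norm_neg, norm_pow, norm_one, na, na', nb, nb', nD, nD', one_pow, mul_one]
  have n6 : ‖(b ^ 2) * D‖ = 1 := by
    simp only [norm_mul, norm_neg, norm_pow, norm_one, na, na', nb, nb', nD, nD', one_pow, mul_one]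
  have n7 : ‖(-a' * b ^ 2) * D‖ = 1 := by
    simp only [norm_mul, norm_neg, norm_pow, norm_one, na, na', nb, nb', nD, nD', one_pow, mul_one]
  let g0 : Mo := mkM ((1) * D') n0 false (0) (P.vertex 0)
  let g1 : Mo := mkM ((a') * D') n1 false (-a ^ 2 * x + a * x - a' * x + x) (P.vertex 0)
  let g2 : Mo := mkM ((-1) * D') n2 false (-a ^ 2 * x + 2 * x) (P.vertex 0)
  let g3 : Mo := mkM ((-b ^ 2) * D) n3 true (-a ^ 2 * x + a * x - a' ^ 2 * b ^ 2 * x + a' * b ^ 2 * x - a' * x + b ^ 2 * x + x) (P.vertex 0)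
  let g4 : Mo := mkM ((a' * b ^ 2) * D) n4 true (-a ^ 2 * x + a * x - a' * x + x) (P.vertex 0)
  let g5 : Mo := mkM ((-a') * D') n5 false (-a * x + a' * x + x) (P.vertex 0)
  let g6 : Mo := mkM ((b ^ 2) * D) n6 true (0) (P.vertex 0)
  let g7 : Mo := mkM ((-a' * b ^ 2) * D) n7 true (-a ^ 2 * x + a * x - a' ^ 3 * b ^ 2 * x + 2 * a' * b ^ 2 * x - a' * x + x) (P.vertex 0)
  let g : Fin 8 → Mo := ![g0, g1, g2, g3, g4, g5, g6, g7]
  have v_0_0 : g0.app (P.vertex 0) = 0 := by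
    change (mkM _ n0 false _ (P.vertex 0)).app (P.vertex 0) = _
    rw [mkM_f, sub_self, mul_zero, add_zero]
  have v_0_1 : g0.app (P.vertex 1) = x := by
    change (mkM _ n0 false _ (P.vertex 0)).app (P.vertex 1) = _
    rw [mkM_f, q1, q0]
    linear_combination (x) * hD
  have v_0_2 : g0.app (P.vertex 2) = -a ^ 2 * x + x := by
    change (mkM _ n0 false _ (P.vertex 0)).app (P.vertex 2) = _
    rw [mkM_f, q2, q0]
    linear_combination (-a ^ 2 * x + x) * hD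
  have v_0_3 : g0.app (P.vertex 3) = -a ^ 2 * x + a * x + x := by
    change (mkM _ n0 false _ (P.vertex 0)).app (P.vertex 3) = _
    rw [mkM_f, q3, q0]
    linear_combination (-a ^ 2 * x + a * x + x) * hD
  have v_0_4 : g0.app (P.vertex 4) = -a ^ 2 * x - a * b ^ 2 * x + a * x + x := by
    change (mkM _ n0 false _ (P.vertex 0)).app (P.vertex 4) = _
    rw [mkM_f, q4, q0]
    linear_combination (-a ^ 2 * x - a * b ^ 2 * x + a * x + x) * hD
  have v_1_0 : g1.app (P.vertex 0) = -a ^ 2 * x + a * x - a' * x + x := by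
    change (mkM _ n1 false _ (P.vertex 0)).app (P.vertex 0) = _
    rw [mkM_f, sub_self, mul_zero, add_zero]
  have v_1_1 : g1.app (P.vertex 1) = -a ^ 2 * x + a * x + x := by
    change (mkM _ n1 false _ (P.vertex 0)).app (P.vertex 1) = _
    rw [mkM_f, q1, q0]
    linear_combination (a' * x) * hD
  have v_1_2 : g1.app (P.vertex 2) = -a ^ 2 * x + x := by
    change (mkM _ n1 false _ (P.vertex 0)).app (P.vertex 2) = _
    rw [mkM_f, q2, q0]
    linear_combination (-a ^ 2 * a' * x + a' * x) * hD + (-a * x) * ha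
  have v_1_3 : g1.app (P.vertex 3) = -a ^ 2 * x + 2 * x := by
    change (mkM _ n1 false _ (P.vertex 0)).app (P.vertex 3) = _
    rw [mkM_f, q3, q0]
    linear_combination (-a ^ 2 * a' * x + a * a' * x + a' * x) * hD + (-a * x + x) * ha
  have v_1_4 : g1.app (P.vertex 4) = -a ^ 2 * x - b ^ 2 * x + 2 * x := by
    change (mkM _ n1 false _ (P.vertex 0)).app (P.vertex 4) = _
    rw [mkM_f, q4, q0]
    linear_combination (-a ^ 2 * a' * x - a * a' * b ^ 2 * x + a * a' * x + a' * x) * hD + (-a * x - b ^ 2 * x + x) * ha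
  have v_2_0 : g2.app (P.vertex 0) = -a ^ 2 * x + 2 * x := by
    change (mkM _ n2 false _ (P.vertex 0)).app (P.vertex 0) = _
    rw [mkM_f, sub_self, mul_zero, add_zero]
  have v_2_1 : g2.app (P.vertex 1) = -a ^ 2 * x + x := by
    change (mkM _ n2 false _ (P.vertex 0)).app (P.vertex 1) = _
    rw [mkM_f, q1, q0]
    linear_combination (-x) * hD
  have v_2_2 : g2.app (P.vertex 2) = x := by
    change (mkM _ n2 false _ (P.vertex 0)).app (P.vertex 2) = _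
    rw [mkM_f, q2, q0]
    linear_combination (a ^ 2 * x - x) * hD
  have v_2_3 : g2.app (P.vertex 3) = -a * x + x := by
    change (mkM _ n2 false _ (P.vertex 0)).app (P.vertex 3) = _
    rw [mkM_f, q3, q0]
    linear_combination (a ^ 2 * x - a * x - x) * hD
  have v_2_4 : g2.app (P.vertex 4) = a * b ^ 2 * x - a * x + x := by
    change (mkM _ n2 false _ (P.vertex 0)).app (P.vertex 4) = _
    rw [mkM_f, q4, q0]
    linear_combination (a ^ 2 * x + a * b ^ 2 * x - a * x - x) * hD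
  have v_3_0 : g3.app (P.vertex 0) = -a ^ 2 * x + a * x - a' ^ 2 * b ^ 2 * x + a' * b ^ 2 * x - a' * x + b ^ 2 * x + x := by
    change (mkM _ n3 true _ (P.vertex 0)).app (P.vertex 0) = _
    rw [mkM_t, sub_self, mul_zero, add_zero]
  have v_3_1 : g3.app (P.vertex 1) = -a ^ 2 * x + a * x - a' ^ 2 * b ^ 2 * x + a' * b ^ 2 * x - a' * x + x := by
    change (mkM _ n3 true _ (P.vertex 0)).app (P.vertex 1) = _
    rw [mkM_t, r1, r0]
    linear_combination (-b ^ 2 * x) * hD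
  have v_3_2 : g3.app (P.vertex 2) = -a ^ 2 * x + a * x + a' * b ^ 2 * x - a' * x + x := by
    change (mkM _ n3 true _ (P.vertex 0)).app (P.vertex 2) = _
    rw [mkM_t, r2, r0]
    linear_combination (a' ^ 2 * b ^ 2 * x - b ^ 2 * x) * hD
  have v_3_3 : g3.app (P.vertex 3) = -a ^ 2 * x + a * x - a' * x + x := by
    change (mkM _ n3 true _ (P.vertex 0)).app (P.vertex 3) = _
    rw [mkM_t, r3, r0]
    linear_combination (a' ^ 2 * b ^ 2 * x - a' * b ^ 2 * x - b ^ 2 * x) * hD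
  have v_3_4 : g3.app (P.vertex 4) = -a ^ 2 * x + a * x + x := by
    change (mkM _ n3 true _ (P.vertex 0)).app (P.vertex 4) = _
    rw [mkM_t, r4, r0]
    linear_combination (a' ^ 2 * b ^ 2 * x + a' * b ^ 2 * b' ^ 2 * x - a' * b ^ 2 * x - b ^ 2 * x) * hD + (a' * b * b' * x + a' * x) * hb
  have v_4_0 : g4.app (P.vertex 0) = -a ^ 2 * x + a * x - a' * x + x := by
    change (mkM _ n4 true _ (P.vertex 0)).app (P.vertex 0) = _
    rw [mkM_t, sub_self, mul_zero, add_zero]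
  have v_4_1 : g4.app (P.vertex 1) = -a ^ 2 * x + a * x + a' * b ^ 2 * x - a' * x + x := by
    change (mkM _ n4 true _ (P.vertex 0)).app (P.vertex 1) = _
    rw [mkM_t, r1, r0]
    linear_combination (a' * b ^ 2 * x) * hD
  have v_4_2 : g4.app (P.vertex 2) = -a ^ 2 * x + a * x - a' ^ 3 * b ^ 2 * x + a' * b ^ 2 * x - a' * x + x := by
    change (mkM _ n4 true _ (P.vertex 0)).app (P.vertex 2) = _
    rw [mkM_t, r2, r0]
    linear_combination (-a' ^ 3 * b ^ 2 * x + a' * b ^ 2 * x) * hD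
  have v_4_3 : g4.app (P.vertex 3) = -a ^ 2 * x + a * x - a' ^ 3 * b ^ 2 * x + a' ^ 2 * b ^ 2 * x + a' * b ^ 2 * x - a' * x + x := by
    change (mkM _ n4 true _ (P.vertex 0)).app (P.vertex 3) = _
    rw [mkM_t, r3, r0]
    linear_combination (-a' ^ 3 * b ^ 2 * x + a' ^ 2 * b ^ 2 * x + a' * b ^ 2 * x) * hD
  have v_4_4 : g4.app (P.vertex 4) = -a ^ 2 * x + a * x - a' ^ 3 * b ^ 2 * x + a' ^ 2 * b ^ 2 * x - a' ^ 2 * x + a' * b ^ 2 * x - a' * x + x := by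
    change (mkM _ n4 true _ (P.vertex 0)).app (P.vertex 4) = _
    rw [mkM_t, r4, r0]
    linear_combination (-a' ^ 3 * b ^ 2 * x - a' ^ 2 * b ^ 2 * b' ^ 2 * x + a' ^ 2 * b ^ 2 * x + a' * b ^ 2 * x) * hD + (-a' ^ 2 * b * b' * x - a' ^ 2 * x) * hb
  have v_5_0 : g5.app (P.vertex 0) = -a * x + a' * x + x := by
    change (mkM _ n5 false _ (P.vertex 0)).app (P.vertex 0) = _
    rw [mkM_f, sub_self, mul_zero, add_zero]
  have v_5_1 : g5.app (P.vertex 1) = -a * x + x := by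
    change (mkM _ n5 false _ (P.vertex 0)).app (P.vertex 1) = _
    rw [mkM_f, q1, q0]
    linear_combination (-a' * x) * hD
  have v_5_2 : g5.app (P.vertex 2) = x := by
    change (mkM _ n5 false _ (P.vertex 0)).app (P.vertex 2) = _
    rw [mkM_f, q2, q0]
    linear_combination (a ^ 2 * a' * x - a' * x) * hD + (a * x) * ha
  have v_5_3 : g5.app (P.vertex 3) = 0 := by
    change (mkM _ n5 false _ (P.vertex 0)).app (P.vertex 3) = _
    rw [mkM_f, q3, q0]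
    linear_combination (a ^ 2 * a' * x - a * a' * x - a' * x) * hD + (a * x - x) * ha
  have v_5_4 : g5.app (P.vertex 4) = b ^ 2 * x := by
    change (mkM _ n5 false _ (P.vertex 0)).app (P.vertex 4) = _
    rw [mkM_f, q4, q0]
    linear_combination (a ^ 2 * a' * x + a * a' * b ^ 2 * x - a * a' * x - a' * x) * hD + (a * x + b ^ 2 * x - x) * ha
  have v_6_0 : g6.app (P.vertex 0) = 0 := by
    change (mkM _ n6 true _ (P.vertex 0)).app (P.vertex 0) = _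
    rw [mkM_t, sub_self, mul_zero, add_zero]
  have v_6_1 : g6.app (P.vertex 1) = b ^ 2 * x := by
    change (mkM _ n6 true _ (P.vertex 0)).app (P.vertex 1) = _
    rw [mkM_t, r1, r0]
    linear_combination (b ^ 2 * x) * hD
  have v_6_2 : g6.app (P.vertex 2) = -a' ^ 2 * b ^ 2 * x + b ^ 2 * x := by
    change (mkM _ n6 true _ (P.vertex 0)).app (P.vertex 2) = _
    rw [mkM_t, r2, r0]
    linear_combination (-a' ^ 2 * b ^ 2 * x + b ^ 2 * x) * hD
  have v_6_3 : g6.app (P.vertex 3) = -a' ^ 2 * b ^ 2 * x + a' * b ^ 2 * x + b ^ 2 * x := by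
    change (mkM _ n6 true _ (P.vertex 0)).app (P.vertex 3) = _
    rw [mkM_t, r3, r0]
    linear_combination (-a' ^ 2 * b ^ 2 * x + a' * b ^ 2 * x + b ^ 2 * x) * hD
  have v_6_4 : g6.app (P.vertex 4) = -a' ^ 2 * b ^ 2 * x + a' * b ^ 2 * x - a' * x + b ^ 2 * x := by
    change (mkM _ n6 true _ (P.vertex 0)).app (P.vertex 4) = _
    rw [mkM_t, r4, r0]
    linear_combination (-a' ^ 2 * b ^ 2 * x - a' * b ^ 2 * b' ^ 2 * x + a' * b ^ 2 * x + b ^ 2 * x) * hD + (-a' * b * b' * x - a' * x) * hb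
  have v_7_0 : g7.app (P.vertex 0) = -a ^ 2 * x + a * x - a' ^ 3 * b ^ 2 * x + 2 * a' * b ^ 2 * x - a' * x + x := by
    change (mkM _ n7 true _ (P.vertex 0)).app (P.vertex 0) = _
    rw [mkM_t, sub_self, mul_zero, add_zero]
  have v_7_1 : g7.app (P.vertex 1) = -a ^ 2 * x + a * x - a' ^ 3 * b ^ 2 * x + a' * b ^ 2 * x - a' * x + x := by
    change (mkM _ n7 true _ (P.vertex 0)).app (P.vertex 1) = _
    rw [mkM_t, r1, r0]
    linear_combination (-a' * b ^ 2 * x) * hD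
  have v_7_2 : g7.app (P.vertex 2) = -a ^ 2 * x + a * x + a' * b ^ 2 * x - a' * x + x := by
    change (mkM _ n7 true _ (P.vertex 0)).app (P.vertex 2) = _
    rw [mkM_t, r2, r0]
    linear_combination (a' ^ 3 * b ^ 2 * x - a' * b ^ 2 * x) * hD
  have v_7_3 : g7.app (P.vertex 3) = -a ^ 2 * x + a * x - a' ^ 2 * b ^ 2 * x + a' * b ^ 2 * x - a' * x + x := by
    change (mkM _ n7 true _ (P.vertex 0)).app (P.vertex 3) = _
    rw [mkM_t, r3, r0]
    linear_combination (a' ^ 3 * b ^ 2 * x - a' ^ 2 * b ^ 2 * x - a' * b ^ 2 * x) * hD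
  have v_7_4 : g7.app (P.vertex 4) = -a ^ 2 * x + a * x - a' ^ 2 * b ^ 2 * x + a' ^ 2 * x + a' * b ^ 2 * x - a' * x + x := by
    change (mkM _ n7 true _ (P.vertex 0)).app (P.vertex 4) = _
    rw [mkM_t, r4, r0]
    linear_combination (a' ^ 3 * b ^ 2 * x + a' ^ 2 * b ^ 2 * b' ^ 2 * x - a' ^ 2 * b ^ 2 * x - a' * b ^ 2 * x) * hD + (a' ^ 2 * b * b' * x + a' ^ 2 * x) * hb
  have f0 : (g 0).rf = false := rfl
  have f1 : (g 1).rf = false := rfl
  have f2 : (g 2).rf = false := rfl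
  have f3 : (g 3).rf = true := rfl
  have f4 : (g 4).rf = true := rfl
  have f5 : (g 5).rf = false := rfl
  have f6 : (g 6).rf = true := rfl
  have f7 : (g 7).rf = true := rfl
  have s_0_0 : tsrc P g (0, 0) = 0 := (ts_f P g 0 0 f0).trans v_0_0
  have t_0_0 : ttgt P g (0, 0) = x := by
    rw [tt_f P g 0 0 f0, z0]
    exact v_0_1
  have s_0_1 : tsrc P g (0, 1) = x := (ts_f P g 0 1 f0).trans v_0_1
  have t_0_1 : ttgt P g (0, 1) = -a ^ 2 * x + x := by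
    rw [tt_f P g 0 1 f0, z1]
    exact v_0_2
  have s_0_2 : tsrc P g (0, 2) = -a ^ 2 * x + x := (ts_f P g 0 2 f0).trans v_0_2
  have t_0_2 : ttgt P g (0, 2) = -a ^ 2 * x + a * x + x := by
    rw [tt_f P g 0 2 f0, z2]
    exact v_0_3
  have s_0_3 : tsrc P g (0, 3) = -a ^ 2 * x + a * x + x := (ts_f P g 0 3 f0).trans v_0_3
  have t_0_3 : ttgt P g (0, 3) = -a ^ 2 * x - a * b ^ 2 * x + a * x + x := by
    rw [tt_f P g 0 3 f0, z3]
    exact v_0_4
  have s_0_4 : tsrc P g (0, 4) = -a ^ 2 * x - a * b ^ 2 * x + a * x + x := (ts_f P g 0 4 f0).trans v_0_4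
  have t_0_4 : ttgt P g (0, 4) = 0 := by
    rw [tt_f P g 0 4 f0, z4]
    exact v_0_0
  have s_1_0 : tsrc P g (1, 0) = -a ^ 2 * x + a * x - a' * x + x := (ts_f P g 1 0 f1).trans v_1_0
  have t_1_0 : ttgt P g (1, 0) = -a ^ 2 * x + a * x + x := by
    rw [tt_f P g 1 0 f1, z0]
    exact v_1_1
  have s_1_1 : tsrc P g (1, 1) = -a ^ 2 * x + a * x + x := (ts_f P g 1 1 f1).trans v_1_1
  have t_1_1 : ttgt P g (1, 1) = -a ^ 2 * x + x := by
    rw [tt_f P g 1 1 f1, z1]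
    exact v_1_2
  have s_1_2 : tsrc P g (1, 2) = -a ^ 2 * x + x := (ts_f P g 1 2 f1).trans v_1_2
  have t_1_2 : ttgt P g (1, 2) = -a ^ 2 * x + 2 * x := by
    rw [tt_f P g 1 2 f1, z2]
    exact v_1_3
  have s_1_3 : tsrc P g (1, 3) = -a ^ 2 * x + 2 * x := (ts_f P g 1 3 f1).trans v_1_3
  have t_1_3 : ttgt P g (1, 3) = -a ^ 2 * x - b ^ 2 * x + 2 * x := by
    rw [tt_f P g 1 3 f1, z3]
    exact v_1_4
  have s_1_4 : tsrc P g (1, 4) = -a ^ 2 * x - b ^ 2 * x + 2 * x := (ts_f P g 1 4 f1).trans v_1_4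
  have t_1_4 : ttgt P g (1, 4) = -a ^ 2 * x + a * x - a' * x + x := by
    rw [tt_f P g 1 4 f1, z4]
    exact v_1_0
  have s_2_0 : tsrc P g (2, 0) = -a ^ 2 * x + 2 * x := (ts_f P g 2 0 f2).trans v_2_0
  have t_2_0 : ttgt P g (2, 0) = -a ^ 2 * x + x := by
    rw [tt_f P g 2 0 f2, z0]
    exact v_2_1
  have s_2_1 : tsrc P g (2, 1) = -a ^ 2 * x + x := (ts_f P g 2 1 f2).trans v_2_1
  have t_2_1 : ttgt P g (2, 1) = x := by
    rw [tt_f P g 2 1 f2, z1]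
    exact v_2_2
  have s_2_2 : tsrc P g (2, 2) = x := (ts_f P g 2 2 f2).trans v_2_2
  have t_2_2 : ttgt P g (2, 2) = -a * x + x := by
    rw [tt_f P g 2 2 f2, z2]
    exact v_2_3
  have s_2_3 : tsrc P g (2, 3) = -a * x + x := (ts_f P g 2 3 f2).trans v_2_3
  have t_2_3 : ttgt P g (2, 3) = a * b ^ 2 * x - a * x + x := by
    rw [tt_f P g 2 3 f2, z3]
    exact v_2_4
  have s_2_4 : tsrc P g (2, 4) = a * b ^ 2 * x - a * x + x := (ts_f P g 2 4 f2).trans v_2_4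
  have t_2_4 : ttgt P g (2, 4) = -a ^ 2 * x + 2 * x := by
    rw [tt_f P g 2 4 f2, z4]
    exact v_2_0
  have s_3_0 : tsrc P g (3, 0) = -a ^ 2 * x + a * x - a' ^ 2 * b ^ 2 * x + a' * b ^ 2 * x - a' * x + x := by
    rw [ts_t P g 3 0 f3, z0]
    exact v_3_1
  have t_3_0 : ttgt P g (3, 0) = -a ^ 2 * x + a * x - a' ^ 2 * b ^ 2 * x + a' * b ^ 2 * x - a' * x + b ^ 2 * x + x := (tt_t P g 3 0 f3).trans v_3_0
  have s_3_1 : tsrc P g (3, 1) = -a ^ 2 * x + a * x + a' * b ^ 2 * x - a' * x + x := by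
    rw [ts_t P g 3 1 f3, z1]
    exact v_3_2
  have t_3_1 : ttgt P g (3, 1) = -a ^ 2 * x + a * x - a' ^ 2 * b ^ 2 * x + a' * b ^ 2 * x - a' * x + x := (tt_t P g 3 1 f3).trans v_3_1
  have s_3_2 : tsrc P g (3, 2) = -a ^ 2 * x + a * x - a' * x + x := by
    rw [ts_t P g 3 2 f3, z2]
    exact v_3_3
  have t_3_2 : ttgt P g (3, 2) = -a ^ 2 * x + a * x + a' * b ^ 2 * x - a' * x + x := (tt_t P g 3 2 f3).trans v_3_2
  have s_3_3 : tsrc P g (3, 3) = -a ^ 2 * x + a * x + x := by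
    rw [ts_t P g 3 3 f3, z3]
    exact v_3_4
  have t_3_3 : ttgt P g (3, 3) = -a ^ 2 * x + a * x - a' * x + x := (tt_t P g 3 3 f3).trans v_3_3
  have s_3_4 : tsrc P g (3, 4) = -a ^ 2 * x + a * x - a' ^ 2 * b ^ 2 * x + a' * b ^ 2 * x - a' * x + b ^ 2 * x + x := by
    rw [ts_t P g 3 4 f3, z4]
    exact v_3_0
  have t_3_4 : ttgt P g (3, 4) = -a ^ 2 * x + a * x + x := (tt_t P g 3 4 f3).trans v_3_4
  have s_4_0 : tsrc P g (4, 0) = -a ^ 2 * x + a * x + a' * b ^ 2 * x - a' * x + x := by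
    rw [ts_t P g 4 0 f4, z0]
    exact v_4_1
  have t_4_0 : ttgt P g (4, 0) = -a ^ 2 * x + a * x - a' * x + x := (tt_t P g 4 0 f4).trans v_4_0
  have s_4_1 : tsrc P g (4, 1) = -a ^ 2 * x + a * x - a' ^ 3 * b ^ 2 * x + a' * b ^ 2 * x - a' * x + x := by
    rw [ts_t P g 4 1 f4, z1]
    exact v_4_2
  have t_4_1 : ttgt P g (4, 1) = -a ^ 2 * x + a * x + a' * b ^ 2 * x - a' * x + x := (tt_t P g 4 1 f4).trans v_4_1
  have s_4_2 : tsrc P g (4, 2) = -a ^ 2 * x + a * x - a' ^ 3 * b ^ 2 * x + a' ^ 2 * b ^ 2 * x + a' * b ^ 2 * x - a' * x + x := by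
    rw [ts_t P g 4 2 f4, z2]
    exact v_4_3
  have t_4_2 : ttgt P g (4, 2) = -a ^ 2 * x + a * x - a' ^ 3 * b ^ 2 * x + a' * b ^ 2 * x - a' * x + x := (tt_t P g 4 2 f4).trans v_4_2
  have s_4_3 : tsrc P g (4, 3) = -a ^ 2 * x + a * x - a' ^ 3 * b ^ 2 * x + a' ^ 2 * b ^ 2 * x - a' ^ 2 * x + a' * b ^ 2 * x - a' * x + x := by
    rw [ts_t P g 4 3 f4, z3]
    exact v_4_4
  have t_4_3 : ttgt P g (4, 3) = -a ^ 2 * x + a * x - a' ^ 3 * b ^ 2 * x + a' ^ 2 * b ^ 2 * x + a' * b ^ 2 * x - a' * x + x := (tt_t P g 4 3 f4).trans v_4_3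
  have s_4_4 : tsrc P g (4, 4) = -a ^ 2 * x + a * x - a' * x + x := by
    rw [ts_t P g 4 4 f4, z4]
    exact v_4_0
  have t_4_4 : ttgt P g (4, 4) = -a ^ 2 * x + a * x - a' ^ 3 * b ^ 2 * x + a' ^ 2 * b ^ 2 * x - a' ^ 2 * x + a' * b ^ 2 * x - a' * x + x := (tt_t P g 4 4 f4).trans v_4_4
  have s_5_0 : tsrc P g (5, 0) = -a * x + a' * x + x := (ts_f P g 5 0 f5).trans v_5_0
  have t_5_0 : ttgt P g (5, 0) = -a * x + x := by
    rw [tt_f P g 5 0 f5, z0]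
    exact v_5_1
  have s_5_1 : tsrc P g (5, 1) = -a * x + x := (ts_f P g 5 1 f5).trans v_5_1
  have t_5_1 : ttgt P g (5, 1) = x := by
    rw [tt_f P g 5 1 f5, z1]
    exact v_5_2
  have s_5_2 : tsrc P g (5, 2) = x := (ts_f P g 5 2 f5).trans v_5_2
  have t_5_2 : ttgt P g (5, 2) = 0 := by
    rw [tt_f P g 5 2 f5, z2]
    exact v_5_3
  have s_5_3 : tsrc P g (5, 3) = 0 := (ts_f P g 5 3 f5).trans v_5_3
  have t_5_3 : ttgt P g (5, 3) = b ^ 2 * x := by
    rw [tt_f P g 5 3 f5, z3]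
    exact v_5_4
  have s_5_4 : tsrc P g (5, 4) = b ^ 2 * x := (ts_f P g 5 4 f5).trans v_5_4
  have t_5_4 : ttgt P g (5, 4) = -a * x + a' * x + x := by
    rw [tt_f P g 5 4 f5, z4]
    exact v_5_0
  have s_6_0 : tsrc P g (6, 0) = b ^ 2 * x := by
    rw [ts_t P g 6 0 f6, z0]
    exact v_6_1
  have t_6_0 : ttgt P g (6, 0) = 0 := (tt_t P g 6 0 f6).trans v_6_0
  have s_6_1 : tsrc P g (6, 1) = -a' ^ 2 * b ^ 2 * x + b ^ 2 * x := by
    rw [ts_t P g 6 1 f6, z1]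
    exact v_6_2
  have t_6_1 : ttgt P g (6, 1) = b ^ 2 * x := (tt_t P g 6 1 f6).trans v_6_1
  have s_6_2 : tsrc P g (6, 2) = -a' ^ 2 * b ^ 2 * x + a' * b ^ 2 * x + b ^ 2 * x := by
    rw [ts_t P g 6 2 f6, z2]
    exact v_6_3
  have t_6_2 : ttgt P g (6, 2) = -a' ^ 2 * b ^ 2 * x + b ^ 2 * x := (tt_t P g 6 2 f6).trans v_6_2
  have s_6_3 : tsrc P g (6, 3) = -a' ^ 2 * b ^ 2 * x + a' * b ^ 2 * x - a' * x + b ^ 2 * x := by
    rw [ts_t P g 6 3 f6, z3]
    exact v_6_4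
  have t_6_3 : ttgt P g (6, 3) = -a' ^ 2 * b ^ 2 * x + a' * b ^ 2 * x + b ^ 2 * x := (tt_t P g 6 3 f6).trans v_6_3
  have s_6_4 : tsrc P g (6, 4) = 0 := by
    rw [ts_t P g 6 4 f6, z4]
    exact v_6_0
  have t_6_4 : ttgt P g (6, 4) = -a' ^ 2 * b ^ 2 * x + a' * b ^ 2 * x - a' * x + b ^ 2 * x := (tt_t P g 6 4 f6).trans v_6_4
  have s_7_0 : tsrc P g (7, 0) = -a ^ 2 * x + a * x - a' ^ 3 * b ^ 2 * x + a' * b ^ 2 * x - a' * x + x := by
    rw [ts_t P g 7 0 f7, z0]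
    exact v_7_1
  have t_7_0 : ttgt P g (7, 0) = -a ^ 2 * x + a * x - a' ^ 3 * b ^ 2 * x + 2 * a' * b ^ 2 * x - a' * x + x := (tt_t P g 7 0 f7).trans v_7_0
  have s_7_1 : tsrc P g (7, 1) = -a ^ 2 * x + a * x + a' * b ^ 2 * x - a' * x + x := by
    rw [ts_t P g 7 1 f7, z1]
    exact v_7_2
  have t_7_1 : ttgt P g (7, 1) = -a ^ 2 * x + a * x - a' ^ 3 * b ^ 2 * x + a' * b ^ 2 * x - a' * x + x := (tt_t P g 7 1 f7).trans v_7_1
  have s_7_2 : tsrc P g (7, 2) = -a ^ 2 * x + a * x - a' ^ 2 * b ^ 2 * x + a' * b ^ 2 * x - a' * x + x := by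
    rw [ts_t P g 7 2 f7, z2]
    exact v_7_3
  have t_7_2 : ttgt P g (7, 2) = -a ^ 2 * x + a * x + a' * b ^ 2 * x - a' * x + x := (tt_t P g 7 2 f7).trans v_7_2
  have s_7_3 : tsrc P g (7, 3) = -a ^ 2 * x + a * x - a' ^ 2 * b ^ 2 * x + a' ^ 2 * x + a' * b ^ 2 * x - a' * x + x := by
    rw [ts_t P g 7 3 f7, z3]
    exact v_7_4
  have t_7_3 : ttgt P g (7, 3) = -a ^ 2 * x + a * x - a' ^ 2 * b ^ 2 * x + a' * b ^ 2 * x - a' * x + x := (tt_t P g 7 3 f7).trans v_7_3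
  have s_7_4 : tsrc P g (7, 4) = -a ^ 2 * x + a * x - a' ^ 3 * b ^ 2 * x + 2 * a' * b ^ 2 * x - a' * x + x := by
    rw [ts_t P g 7 4 f7, z4]
    exact v_7_0
  have t_7_4 : ttgt P g (7, 4) = -a ^ 2 * x + a * x - a' ^ 2 * b ^ 2 * x + a' ^ 2 * x + a' * b ^ 2 * x - a' * x + x := (tt_t P g 7 4 f7).trans v_7_4
  obtain ⟨u, hu⟩ : ∃ u : ℂ, u = -a ^ 2 * x - a * b ^ 2 * x + 2 * a * x := ⟨_, rfl⟩
  obtain ⟨w, hw⟩ : ∃ w : ℂ, w = a ^ 2 * x - a * x + a' ^ 3 * b ^ 2 * x - a' ^ 2 * b ^ 2 * x - a' * b ^ 2 * x + a' * x + b ^ 2 * x - x := ⟨_, rfl⟩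
  have m_0 : tsrc P g (5, 2) + lv u w (0, 0) = ttgt P g (0, 0) ∧
      ttgt P g (5, 2) + lv u w (0, 0) = tsrc P g (0, 0) := by
    unfold lv
    rw [s_5_2, t_0_0, t_5_2, s_0_0]
    push_cast
    refine ⟨?_, ?_⟩
    · ring
    · ring
  have m_1 : tsrc P g (2, 1) + lv u w (0, 0) = ttgt P g (0, 1) ∧
      ttgt P g (2, 1) + lv u w (0, 0) = tsrc P g (0, 1) := by
    unfold lv
    rw [s_2_1, t_0_1, t_2_1, s_0_1]
    push_cast
    refine ⟨?_, ?_⟩
    · ring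
    · ring
  have m_2 : tsrc P g (1, 1) + lv u w (0, 0) = ttgt P g (0, 2) ∧
      ttgt P g (1, 1) + lv u w (0, 0) = tsrc P g (0, 2) := by
    unfold lv
    rw [s_1_1, t_0_2, t_1_1, s_0_2]
    push_cast
    refine ⟨?_, ?_⟩
    · ring
    · ring
  have m_3 : tsrc P g (2, 3) + lv u w (1, 0) = ttgt P g (0, 3) ∧
      ttgt P g (2, 3) + lv u w (1, 0) = tsrc P g (0, 3) := by
    unfold lv
    rw [s_2_3, t_0_3, t_2_3, s_0_3]
    push_cast
    refine ⟨?_, ?_⟩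
    · linear_combination (1) * hu
    · linear_combination (1) * hu
  have m_4 : tsrc P g (6, 4) + lv u w (0, 0) = ttgt P g (0, 4) ∧
      ttgt P g (6, 4) + lv u w (0, 0) = tsrc P g (0, 4) := by
    unfold lv
    rw [s_6_4, t_0_4, t_6_4, s_0_4]
    push_cast
    refine ⟨?_, ?_⟩
    · ring
    · linear_combination (-1) * hC + (b ^ 2) * hC' + (a' * b * b' * x + a' * x - b * y) * hb
  have m_5 : tsrc P g (3, 3) + lv u w (0, 0) = ttgt P g (1, 0) ∧
      ttgt P g (3, 3) + lv u w (0, 0) = tsrc P g (1, 0) := by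
    unfold lv
    rw [s_3_3, t_1_0, t_3_3, s_1_0]
    push_cast
    refine ⟨?_, ?_⟩
    · ring
    · ring
  have m_6 : tsrc P g (2, 0) + lv u w (0, 0) = ttgt P g (1, 2) ∧
      ttgt P g (2, 0) + lv u w (0, 0) = tsrc P g (1, 2) := by
    unfold lv
    rw [s_2_0, t_1_2, t_2_0, s_1_2]
    push_cast
    refine ⟨?_, ?_⟩
    · ring
    · ring
  have m_7 : tsrc P g (3, 0) + lv u w (-1, 0) = ttgt P g (1, 3) ∧
      ttgt P g (3, 0) + lv u w (-1, 0) = tsrc P g (1, 3) := by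
    unfold lv
    rw [s_3_0, t_1_3, t_3_0, s_1_3]
    push_cast
    refine ⟨?_, ?_⟩
    · linear_combination (-1) * hC + (b ^ 2) * hC' + (a' * b * b' * x + a' * x - b * y) * hb + (-1) * hu
    · linear_combination (-1) * hC + (b ^ 2) * hC' + (a' * b * b' * x + a' * x - b * y) * hb + (-1) * hu
  have m_8 : tsrc P g (4, 4) + lv u w (0, 0) = ttgt P g (1, 4) ∧
      ttgt P g (4, 4) + lv u w (0, 0) = tsrc P g (1, 4) := by
    unfold lv
    rw [s_4_4, t_1_4, t_4_4, s_1_4]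
    push_cast
    refine ⟨?_, ?_⟩
    · ring
    · linear_combination (-a') * hC + (a' * b ^ 2) * hC' + (-a * x - b ^ 2 * x + x) * ha + (a' ^ 2 * b * b' * x + a' ^ 2 * x - a' * b * y) * hb
  have m_9 : tsrc P g (5, 1) + lv u w (0, 0) = ttgt P g (2, 2) ∧
      ttgt P g (5, 1) + lv u w (0, 0) = tsrc P g (2, 2) := by
    unfold lv
    rw [s_5_1, t_2_2, t_5_1, s_2_2]
    push_cast
    refine ⟨?_, ?_⟩
    · ring
    · ring
  have m_10 : tsrc P g (3, 4) + lv u w (-1, 0) = ttgt P g (2, 4) ∧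
      ttgt P g (3, 4) + lv u w (-1, 0) = tsrc P g (2, 4) := by
    unfold lv
    rw [s_3_4, t_2_4, t_3_4, s_2_4]
    push_cast
    refine ⟨?_, ?_⟩
    · linear_combination (-1) * hC + (b ^ 2) * hC' + (a' * b * b' * x + a' * x - b * y) * hb + (-1) * hu
    · linear_combination (-1) * hu
  have m_11 : tsrc P g (7, 2) + lv u w (0, 0) = ttgt P g (3, 1) ∧
      ttgt P g (7, 2) + lv u w (0, 0) = tsrc P g (3, 1) := by
    unfold lv
    rw [s_7_2, t_3_1, t_7_2, s_3_1]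
    push_cast
    refine ⟨?_, ?_⟩
    · ring
    · ring
  have m_12 : tsrc P g (4, 0) + lv u w (0, 0) = ttgt P g (3, 2) ∧
      ttgt P g (4, 0) + lv u w (0, 0) = tsrc P g (3, 2) := by
    unfold lv
    rw [s_4_0, t_3_2, t_4_0, s_3_2]
    push_cast
    refine ⟨?_, ?_⟩
    · ring
    · ring
  have m_13 : tsrc P g (7, 1) + lv u w (0, 0) = ttgt P g (4, 1) ∧
      ttgt P g (7, 1) + lv u w (0, 0) = tsrc P g (4, 1) := by
    unfold lv
    rw [s_7_1, t_4_1, t_7_1, s_4_1]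
    push_cast
    refine ⟨?_, ?_⟩
    · ring
    · ring
  have m_14 : tsrc P g (6, 1) + lv u w (0, -1) = ttgt P g (4, 2) ∧
      ttgt P g (6, 1) + lv u w (0, -1) = tsrc P g (4, 2) := by
    unfold lv
    rw [s_6_1, t_4_2, t_6_1, s_4_2]
    push_cast
    refine ⟨?_, ?_⟩
    · linear_combination (-1) * hw
    · linear_combination (-1) * hw
  have m_15 : tsrc P g (7, 3) + lv u w (-1, 0) = ttgt P g (4, 3) ∧
      ttgt P g (7, 3) + lv u w (-1, 0) = tsrc P g (4, 3) := by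
    unfold lv
    rw [s_7_3, t_4_3, t_7_3, s_4_3]
    push_cast
    refine ⟨?_, ?_⟩
    · linear_combination (a' - 1) * hC + (-a' * b ^ 2 + b ^ 2) * hC' + (a * x + b ^ 2 * x - x) * ha + (-a' ^ 2 * b * b' * x - a' ^ 2 * x + a' * b * b' * x + a' * b * y + a' * x - b * y) * hb + (-1) * hu
    · linear_combination (a' - 1) * hC + (-a' * b ^ 2 + b ^ 2) * hC' + (a * x + b ^ 2 * x - x) * ha + (-a' ^ 2 * b * b' * x - a' ^ 2 * x + a' * b * b' * x + a' * b * y + a' * x - b * y) * hb + (-1) * hu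
  have m_16 : tsrc P g (6, 3) + lv u w (-1, 0) = ttgt P g (5, 0) ∧
      ttgt P g (6, 3) + lv u w (-1, 0) = tsrc P g (5, 0) := by
    unfold lv
    rw [s_6_3, t_5_0, t_6_3, s_5_0]
    push_cast
    refine ⟨?_, ?_⟩
    · linear_combination (-1) * hC + (b ^ 2) * hC' + (a' * b * b' * x + a' * x - b * y) * hb + (-1) * hu
    · linear_combination (-1) * hC + (b ^ 2) * hC' + (a' * b * b' * x + a' * x - b * y) * hb + (-1) * hu
  have m_17 : tsrc P g (6, 0) + lv u w (0, 0) = ttgt P g (5, 3) ∧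
      ttgt P g (6, 0) + lv u w (0, 0) = tsrc P g (5, 3) := by
    unfold lv
    rw [s_6_0, t_5_3, t_6_0, s_5_3]
    push_cast
    refine ⟨?_, ?_⟩
    · ring
    · ring
  have m_18 : tsrc P g (7, 4) + lv u w (-1, 1) = ttgt P g (5, 4) ∧
      ttgt P g (7, 4) + lv u w (-1, 1) = tsrc P g (5, 4) := by
    unfold lv
    rw [s_7_4, t_5_4, t_7_4, s_5_4]
    push_cast
    refine ⟨?_, ?_⟩
    · linear_combination (-1) * hC + (b ^ 2) * hC' + (a' * b * b' * x + a' * x - b * y) * hb + (-1) * hu + (1) * hw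
    · linear_combination (a' - 1) * hC + (-a' * b ^ 2 + b ^ 2) * hC' + (a * x + b ^ 2 * x - x) * ha + (-a' ^ 2 * b * b' * x - a' ^ 2 * x + a' * b * b' * x + a' * b * y + a' * x - b * y) * hb + (-1) * hu + (1) * hw
  have m_19 : tsrc P g (7, 0) + lv u w (0, 1) = ttgt P g (6, 2) ∧
      ttgt P g (7, 0) + lv u w (0, 1) = tsrc P g (6, 2) := by
    unfold lv
    rw [s_7_0, t_6_2, t_7_0, s_6_2]
    push_cast
    refine ⟨?_, ?_⟩
    · linear_combination (1) * hw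
    · linear_combination (1) * hw
  refine kcrit P hc (by norm_num) g u w ([((0, 0), (5, 2), 0, 0), ((0, 1), (2, 1), 0, 0), ((0, 2), (1, 1), 0, 0), ((0, 3), (2, 3), 1,
    0), ((0, 4), (6, 4), 0, 0), ((1, 0), (3, 3), 0, 0), ((1, 2), (2, 0), 0, 0), ((1, 3), (3, 0),
    -1, 0), ((1, 4), (4, 4), 0, 0), ((2, 2), (5, 1), 0, 0), ((2, 4), (3, 4), -1, 0), ((3, 1),
    (7, 2), 0, 0), ((3, 2), (4, 0), 0, 0), ((4, 1), (7, 1), 0, 0), ((4, 2), (6, 1), 0, -1), ((4,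
    3), (7, 3), -1, 0), ((5, 0), (6, 3), -1, 0), ((5, 3), (6, 0), 0, 0), ((5, 4), (7, 4), -1,
    1), ((6, 2), (7, 0), 0, 1)] :
    List ((Fin 8 × ZMod 5) × (Fin 8 × ZMod 5) × ℤ × ℤ)) (by decide) (by decide) ?_ ?_ ?_
  · intro e he
    simp only [List.mem_cons, List.not_mem_nil, or_false] at he
    rcases he with rfl | rfl | rfl | rfl | rfl | rfl | rfl | rfl | rfl | rfl | rfl | rfl | rfl | rfl | rfl | rfl | rfl | rfl | rfl | rfl
    · exact m_0
    · exact m_1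
    · exact m_2
    · exact m_3
    · exact m_4
    · exact m_5
    · exact m_6
    · exact m_7
    · exact m_8
    · exact m_9
    · exact m_10
    · exact m_11
    · exact m_12
    · exact m_13
    · exact m_14
    · exact m_15
    · exact m_16
    · exact m_17
    · exact m_18
    · exact m_19
  · simp only [List.map_cons, List.map_nil, List.sum_cons, List.sum_nil, Int.cast_zero, Int.cast_one,
      Int.cast_neg, zero_mul, one_mul, zero_add, add_zero]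
    rw [t_0_3, s_0_3, t_1_3, s_1_3, t_2_4, s_2_4, t_4_3, s_4_3, t_5_0, s_5_0, t_5_4, s_5_4]
    linear_combination (-a') * hC + (a' * b ^ 2) * hC' + (-a * x - b ^ 2 * x + x) * ha + (a' ^ 2 * b * b' * x + a' ^ 2 * x - a' * b * y) * hb + (-1) * hw
  · simp only [List.map_cons, List.map_nil, List.sum_cons, List.sum_nil, Int.cast_zero, Int.cast_one,
      Int.cast_neg, zero_mul, one_mul, zero_add, add_zero]
    rw [t_4_2, s_4_2, t_5_4, s_5_4, t_6_2, s_6_2]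
    linear_combination (1) * hC + (-b ^ 2) * hC' + (-a' * b * b' * x - a' * x + b * y) * hb + (1) * hu

theorem specL5 : SpecL5 := by
  rintro P ⟨hc, h01, h12, h23⟩ hA hB
  have e0 := P.dr_turn 0
  have e1 := P.dr_turn 1
  have e2 := P.dr_turn 2
  have e3 := P.dr_turn 3
  have k0 : (0 : ZMod 5) - 1 = 4 := by decide
  have k1 : (1 : ZMod 5) - 1 = 0 := by decide
  have k2 : (2 : ZMod 5) - 1 = 1 := by decide
  have k3 : (3 : ZMod 5) - 1 = 2 := by decide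
  rw [k0] at e0
  rw [k1] at e1
  rw [k2] at e2
  rw [k3] at e3
  have d0 := P.dr_ne 0
  have d1 := P.dr_ne 1
  have d2 := P.dr_ne 2
  have d3 := P.dr_ne 3
  have d4 := P.dr_ne 4
  have E1 : exp ((P.ang 0 : ℂ) * Complex.I) ^ 2 * exp ((P.ang 3 : ℂ) * Complex.I) = 1 := by
    rw [← Complex.exp_nat_mul, ← Complex.exp_add]
    have : ((2 : ℕ) : ℂ) * ((P.ang 0 : ℂ) * Complex.I) + (P.ang 3 : ℂ) * Complex.I =
        ((2 * P.ang 0 + P.ang 3 : ℝ) : ℂ) * Complex.I := by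
      push_cast
      ring
    rw [this, hA]
    push_cast
    rw [Complex.exp_two_pi_mul_I]
  have E2 : exp ((P.ang 1 : ℂ) * Complex.I) * exp ((P.ang 2 : ℂ) * Complex.I) ^ 2 = 1 := by
    rw [← Complex.exp_nat_mul, ← Complex.exp_add]
    have : (P.ang 1 : ℂ) * Complex.I + ((2 : ℕ) : ℂ) * ((P.ang 2 : ℂ) * Complex.I) =
        ((P.ang 1 + 2 * P.ang 2 : ℝ) : ℂ) * Complex.I := by
      push_cast
      ring
    rw [this, hB]
    push_cast
    rw [Complex.exp_two_pi_mul_I]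
  have R1 : P.dr 3 * P.dr 0 ^ 2 = -(P.dr 4 ^ 2 * P.dr 2) := by
    linear_combination (-P.dr 3 * P.dr 0 ^ 2) * E1 +
      (exp ((P.ang 3 : ℂ) * Complex.I) * P.dr 3 * (exp ((P.ang 0 : ℂ) * Complex.I) * P.dr 0 - P.dr 4)) * e0 +
      P.dr 4 ^ 2 * e3
  have R2 : P.dr 1 * P.dr 0 = -(P.dr 2 ^ 2) := by
    have h3 : P.dr 1 * (P.dr 1 * P.dr 0) = P.dr 1 * -(P.dr 2 ^ 2) := by
      linear_combination (-P.dr 1 * P.dr 2 ^ 2) * E2 +
        (exp ((P.ang 2 : ℂ) * Complex.I) ^ 2 * P.dr 2 ^ 2) * e1 -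
        P.dr 0 * (exp ((P.ang 2 : ℂ) * Complex.I) * P.dr 2 - P.dr 1) * e2
    exact mul_left_cancel₀ d1 h3
  have hcl := P.dr_sum
  have hcl2 : (P.len 0 : ℂ) * P.dr 0 + (P.len 1 : ℂ) * P.dr 1 + (P.len 2 : ℂ) * P.dr 2 +
      (P.len 3 : ℂ) * P.dr 3 + (P.len 4 : ℂ) * P.dr 4 = 0 := by
    rw [← hcl]
    exact (Fin.sum_univ_five (fun j : ZMod 5 => (P.len j : ℂ) * P.dr j)).symm
  rw [← h23, ← h12, ← h01] at hcl2
  obtain ⟨D, hDd⟩ : ∃ D, D = P.dr 0 := ⟨_, rfl⟩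
  obtain ⟨a, had⟩ : ∃ a, a = P.dr 2 / P.dr 0 := ⟨_, rfl⟩
  obtain ⟨b, hbd⟩ : ∃ b, b = P.dr 4 / P.dr 0 := ⟨_, rfl⟩
  have g2 : P.dr 2 = a * D := by rw [had, hDd]; field_simp
  have g4 : P.dr 4 = b * D := by rw [hbd, hDd]; field_simp
  have D0 : D ≠ 0 := by rw [hDd]; exact d0
  have a0 : a ≠ 0 := by rw [had]; exact div_ne_zero d2 d0
  have b0 : b ≠ 0 := by rw [hbd]; exact div_ne_zero d4 d0
  have g1 : P.dr 1 = -(a ^ 2 * D) := by
    apply mul_right_cancel₀ D0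
    rw [g2, ← hDd] at R2
    rw [R2]
    ring
  have g3 : P.dr 3 = -(a * b ^ 2 * D) := by
    apply mul_right_cancel₀ (pow_ne_zero 2 D0)
    rw [g2, g4, ← hDd] at R1
    rw [R1]
    ring
  have nD : ‖D‖ = 1 := by rw [hDd]; exact P.dr_norm 0
  have na : ‖a‖ = 1 := by rw [had, norm_div, P.dr_norm, P.dr_norm, div_one]
  have nb : ‖b‖ = 1 := by rw [hbd, norm_div, P.dr_norm, P.dr_norm, div_one]
  have cD : (starRingEnd ℂ) D = D⁻¹ := by rw [hDd]; exact P.dr_conj 0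
  have ca : (starRingEnd ℂ) a = a⁻¹ := by
    rw [had, map_div₀, P.dr_conj, P.dr_conj, inv_div_inv, inv_div]
  have cb : (starRingEnd ℂ) b = b⁻¹ := by
    rw [hbd, map_div₀, P.dr_conj, P.dr_conj, inv_div_inv, inv_div]
  have w0 := P.dr_len 0
  have w1 := P.dr_len 1
  have w2 := P.dr_len 2
  have w3 := P.dr_len 3
  have j0 : (0 : ZMod 5) + 1 = 1 := by decide
  have j1 : (1 : ZMod 5) + 1 = 2 := by decide
  have j2 : (2 : ZMod 5) + 1 = 3 := by decide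
  have j3 : (3 : ZMod 5) + 1 = 4 := by decide
  rw [j0, ← hDd] at w0
  rw [j1, ← h01, g1] at w1
  rw [j2, ← h12, ← h01, g2] at w2
  rw [j3, ← h23, ← h12, ← h01, g3] at w3
  rw [← hDd, g1, g2, g3, g4] at hcl2
  obtain ⟨x, hx⟩ : ∃ x : ℝ, x = P.len 0 := ⟨_, rfl⟩
  obtain ⟨y, hy⟩ : ∃ y : ℝ, y = P.len 4 := ⟨_, rfl⟩
  rw [← hx] at w0 w1 w2 w3 hcl2
  rw [← hy] at hcl2
  have q1 : P.vertex 1 = P.vertex 0 + D * ((x : ℂ)) := by
    linear_combination w0
  have q2 : P.vertex 2 = P.vertex 0 + D * (-a ^ 2 * (x : ℂ) + (x : ℂ)) := by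
    linear_combination w0 + w1
  have q3 : P.vertex 3 = P.vertex 0 + D * (-a ^ 2 * (x : ℂ) + a * (x : ℂ) + (x : ℂ)) := by
    linear_combination w0 + w1 + w2
  have q4 : P.vertex 4 = P.vertex 0 + D * (-a ^ 2 * (x : ℂ) - a * b ^ 2 * (x : ℂ) + a * (x : ℂ) + (x : ℂ)) := by
    linear_combination w0 + w1 + w2 + w3
  have r1 : (starRingEnd ℂ) (P.vertex 1) = (starRingEnd ℂ) (P.vertex 0) + D⁻¹ * ((x : ℂ)) := by
    rw [q1]
    simp only [map_add, map_sub, map_mul, map_neg, map_pow, map_one, cD, ca, cb, Complex.conj_ofReal]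
  have r2 : (starRingEnd ℂ) (P.vertex 2) = (starRingEnd ℂ) (P.vertex 0) + D⁻¹ * (-a⁻¹ ^ 2 * (x : ℂ) + (x : ℂ)) := by
    rw [q2]
    simp only [map_add, map_sub, map_mul, map_neg, map_pow, map_one, cD, ca, cb, Complex.conj_ofReal]
  have r3 : (starRingEnd ℂ) (P.vertex 3) = (starRingEnd ℂ) (P.vertex 0) + D⁻¹ * (-a⁻¹ ^ 2 * (x : ℂ) + a⁻¹ * (x : ℂ) + (x : ℂ)) := by
    rw [q3]
    simp only [map_add, map_sub, map_mul, map_neg, map_pow, map_one, cD, ca, cb, Complex.conj_ofReal]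
  have r4 : (starRingEnd ℂ) (P.vertex 4) = (starRingEnd ℂ) (P.vertex 0) + D⁻¹ * (-a⁻¹ ^ 2 * (x : ℂ) - a⁻¹ * b⁻¹ ^ 2 * (x : ℂ) + a⁻¹ * (x : ℂ) + (x : ℂ)) := by
    rw [q4]
    simp only [map_add, map_sub, map_mul, map_neg, map_pow, map_one, cD, ca, cb, Complex.conj_ofReal]
  have hC : -a ^ 2 * (x : ℂ) - a * b ^ 2 * (x : ℂ) + a * (x : ℂ) + b * (y : ℂ) + (x : ℂ) = 0 := by
    apply mul_right_cancel₀ D0
    rw [zero_mul, ← hcl2]
    ring
  have hC' : -a⁻¹ ^ 2 * (x : ℂ) - a⁻¹ * b⁻¹ ^ 2 * (x : ℂ) + a⁻¹ * (x : ℂ) + b⁻¹ * (y : ℂ) + (x : ℂ) = 0 := by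
    have h := congrArg (starRingEnd ℂ) hC
    simp only [map_add, map_sub, map_mul, map_neg, map_pow, map_one, map_zero, ca, cb, Complex.conj_ofReal] at h
    linear_combination h
  exact core P hc a a⁻¹ b b⁻¹ D D⁻¹ x y (P.vertex 0) ((starRingEnd ℂ) (P.vertex 0)) (mul_inv_cancel₀ a0)
    (mul_inv_cancel₀ b0) (mul_inv_cancel₀ D0) na (by rw [norm_inv, na, inv_one]) nb
    (by rw [norm_inv, nb, inv_one]) nD (by rw [norm_inv, nD, inv_one]) rfl rfl q1 r1 q2 r2 q3 r3 q4 r4 hC hC'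

end Pool.Agent.Lib_MP_fa6e45
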