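import Pool.Agent.Lib_MP_fa6e45.HS

/-!
MP_fa6e45_co, stage 4, piece HX-L6.  Angles `(u + v, 2π - 2(u - v), 2u - π, 2π - 2(u + v), u - v)`; the real part of the
closing relation seen from side `4` is `len 4 = 4 len 0 * cos u * sin v * sin 2v = 8 len 0 * cos u * (sin v)^2 * cos v`, but
`π/2 < u < π` and `|v| < π/2`, so the right side is not positive.
-/

open Set MeasureTheory Complex
open scoped Topology

namespace Pool.Agent.Lib_MP_fa6e45

theorem specL6 : SpecL6 := by
  rintro P ⟨hc, h01, h12, h23⟩ ha3 ha1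
  have hs := P.ang_sum hc
  have p0 := P.ang_pos 0
  have p1 := P.ang_pos 1
  have p2 := P.ang_pos 2
  have p3 := P.ang_pos 3
  have p4 := P.ang_pos 4
  have l0 := P.len_pos 0
  have l4 := P.len_pos 4
  have hs5 : P.ang 0 + P.ang 1 + P.ang 2 + P.ang 3 + P.ang 4 = 3 * Real.pi := by
    have h5 : ∑ j : ZMod 5, P.ang j = P.ang 0 + P.ang 1 + P.ang 2 + P.ang 3 + P.ang 4 :=
      Fin.sum_univ_five (fun j : ZMod 5 => P.ang j)
    rw [h5] at hs
    rw [hs]
    norm_num
  have hC := (P.close5 4).1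
  have z1 : (4 : ZMod 5) + 1 = 0 := by decide
  have z2 : (4 : ZMod 5) + 2 = 1 := by decide
  have z3 : (4 : ZMod 5) + 3 = 2 := by decide
  have z4 : (4 : ZMod 5) + 4 = 3 := by decide
  rw [z1, z2, z3, z4, ← h23, ← h12, ← h01] at hC
  obtain ⟨u, hu⟩ : ∃ u, u = (P.ang 0 + P.ang 4) / 2 := ⟨_, rfl⟩
  obtain ⟨v, hv⟩ : ∃ v, v = (P.ang 0 - P.ang 4) / 2 := ⟨_, rfl⟩
  have e0 : P.ang 0 = u + v := by rw [hu, hv]; ring
  have e4 : P.ang 4 = u - v := by rw [hu, hv]; ring
  have e1 : P.ang 1 = 2 * Real.pi - 2 * (u - v) := by linarith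
  have e3 : P.ang 3 = 2 * Real.pi - 2 * (u + v) := by linarith
  have e2 : P.ang 2 = 2 * u - Real.pi := by linarith
  rw [e0, e1, e2, e3] at hC
  have s0 : 2 * Real.pi - (u + v) - (2 * Real.pi - 2 * (u - v)) = u - 3 * v := by ring
  have s1 : 3 * Real.pi - (u + v) - (2 * Real.pi - 2 * (u - v)) - (2 * u - Real.pi) =
      2 * Real.pi - (u + 3 * v) := by ring
  have s2 : 4 * Real.pi - (u + v) - (2 * Real.pi - 2 * (u - v)) - (2 * u - Real.pi) -
      (2 * Real.pi - 2 * (u + v)) = (u - v) + Real.pi := by ring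
  rw [s0, s1, s2, Real.cos_pi_sub, Real.cos_two_pi_sub, Real.cos_add_pi] at hC
  have hcu : Real.cos u < 0 := by
    apply Real.cos_neg_of_pi_div_two_lt_of_lt <;> linarith
  have hcv : 0 < Real.cos v := by
    apply Real.cos_pos_of_mem_Ioo
    constructor <;> linarith
  have key : -Real.cos (u + v) + Real.cos (u - 3 * v) + Real.cos (u + 3 * v) - Real.cos (u - v) =
      -8 * Real.cos u * Real.sin v ^ 2 * Real.cos v := by
    rw [Real.cos_add, Real.cos_sub, Real.cos_add, Real.cos_sub, Real.cos_three_mul]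
    have := Real.sin_sq_add_cos_sq v
    have h2 : Real.sin v ^ 2 = 1 - Real.cos v ^ 2 := by linarith
    rw [h2]
    ring
  have h1 : P.len 4 = P.len 0 * (8 * Real.cos u * Real.sin v ^ 2 * Real.cos v) := by
    linear_combination hC - P.len 0 * key
  have h2 : P.len 0 * (8 * Real.cos u * Real.sin v ^ 2 * Real.cos v) ≤ 0 := by
    have h3 : 0 ≤ P.len 0 * (8 * (-Real.cos u) * Real.sin v ^ 2 * Real.cos v) := by
      have : 0 < -Real.cos u := by linarith
      positivity
    linarith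
  linarith

end Pool.Agent.Lib_MP_fa6e45
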