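import Pool.Agent.Lib_MP_fa6e45.HS

/-!
MP_fa6e45_co, stage 4: the special lemma `SpecL8`.
-/

open Set MeasureTheory Complex
open scoped Topology

namespace Pool.Agent.Lib_MP_fa6e45

theorem specL8 : SpecL8 := by
  rintro P ⟨hc, h01, h12, h23⟩ h1 h2
  have hs := P.ang_sum hc
  have h5 : ∑ i : ZMod 5, P.ang i = P.ang 0 + P.ang 1 + P.ang 2 + P.ang 3 + P.ang 4 := by
    exact Fin.sum_univ_five (fun i : Fin 5 => P.ang (i : ZMod 5))
  rw [h5] at hs
  norm_num at hs
  have hcl := (P.close5 4).2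
  have e0 : (4 : ZMod 5) + 1 = 0 := by decide
  have e1 : (4 : ZMod 5) + 2 = 1 := by decide
  have e2 : (4 : ZMod 5) + 3 = 2 := by decide
  have e3 : (4 : ZMod 5) + 4 = 3 := by decide
  rw [e0, e1, e2, e3, ← h23, ← h12, ← h01] at hcl
  have hl := P.len_pos 0
  have hp0 := P.ang_pos 3
  have hq0 := P.ang_pos 4
  have hp1 := P.ang_pos 1
  have hq1 := P.ang_pos 2
  have ha0 := P.ang_pos 0
  obtain ⟨p, hp⟩ : ∃ p, p = P.ang 3 := ⟨_, rfl⟩
  obtain ⟨q, hq⟩ : ∃ q, q = P.ang 4 := ⟨_, rfl⟩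
  rw [← hp] at h1 hs hcl hp0 ⊢
  rw [← hq] at h2 hs hq0
  have ea1 : P.ang 1 = 2 * Real.pi - 2 * p := by linarith
  have ea2 : P.ang 2 = 2 * Real.pi - 2 * q := by linarith
  have ea0 : P.ang 0 = p + q - Real.pi := by linarith
  rw [ea1, ea2, ea0] at hcl
  rw [ea1] at hp1
  rw [ea2] at hq1
  rw [ea0] at ha0
  rw [show Real.pi - (p + q - Real.pi) = 2 * Real.pi - (p + q) by ring,
    show 2 * Real.pi - (p + q - Real.pi) - (2 * Real.pi - 2 * p) = (p - q) + Real.pi by ring,
    show 3 * Real.pi - (p + q - Real.pi) - (2 * Real.pi - 2 * p) - (2 * Real.pi - 2 * q) = p + q by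
      ring,
    show 4 * Real.pi - (p + q - Real.pi) - (2 * Real.pi - 2 * p) - (2 * Real.pi - 2 * q) - p =
      q + Real.pi by ring, Real.sin_two_pi_sub, Real.sin_add_pi, Real.sin_add_pi] at hcl
  have hk : Real.sin (p - q) + Real.sin q = 0 := by
    have h3 : P.len 0 * (Real.sin (p - q) + Real.sin q) = 0 := by linarith
    rcases mul_eq_zero.1 h3 with h4 | h4
    · exact absurd h4 hl.ne'
    · exact h4
  have hf : 2 * Real.sin (p / 2) * Real.cos (p / 2 - q) = 0 := by
    have e1 : Real.sin (p - q) = Real.sin (p / 2 + (p / 2 - q)) := by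
      rw [show p / 2 + (p / 2 - q) = p - q by ring]
    have e2 : Real.sin q = Real.sin (p / 2 - (p / 2 - q)) := by
      rw [show p / 2 - (p / 2 - q) = q by ring]
    rw [e1, e2, Real.sin_add (p / 2) (p / 2 - q), Real.sin_sub (p / 2) (p / 2 - q)] at hk
    linarith
  have hpi := Real.pi_pos
  have hsp : 0 < Real.sin (p / 2) := Real.sin_pos_of_pos_of_lt_pi (by linarith) (by linarith)
  have hc0 : Real.cos (p / 2 - q) = 0 := by
    rcases mul_eq_zero.1 hf with h4 | h4
    · exfalso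
      linarith
    · exact h4
  rw [ea2]
  rcases lt_trichotomy (q - p / 2) (Real.pi / 2) with h | h | h
  · exfalso
    have : 0 < Real.cos (p / 2 - q) := Real.cos_pos_of_mem_Ioo ⟨by linarith, by linarith⟩
    linarith
  · linarith
  · exfalso
    have h6 : Real.cos (q - p / 2) < 0 :=
      Real.cos_neg_of_pi_div_two_lt_of_lt h (by linarith)
    rw [← Real.cos_neg, show -(q - p / 2) = p / 2 - q by ring] at h6
    linarith

end Pool.Agent.Lib_MP_fa6e45
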