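import Pool.Agent.Lib_MP_fa6e45.HS

/-!
MP_fa6e45_co, stage 4, piece HX-M8.  The hypotheses are contradictory.  With `α = a0 = a2`, `β = a3 = a5`,
`a4 = 2 π - 2 α`, `a1 = 2 π - 2 β` the closing relation gives `(l2 - l5) cos (β - α) = 0`, so
`β = α + π / 2` (or the other way round, which is the same after shifting the labels by three).  Then sides
`0`, `1`, `3` have the directions `1`, `exp (2 i α)`, `- i`, and side `3` meets side `0` or side `1`.
-/

open Set MeasureTheory Complex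
open scoped Topology

namespace Pool.Agent.Lib_MP_fa6e45

/-- two sides without a common corner do not meet -/
theorem m8_meet (P : Polygon 6) (i j : ZMod 6) (h1 : i ≠ j) (h2 : i ≠ j + 1) (h3 : i + 1 ≠ j)
    (t u : ℝ) (ht : 0 ≤ t) (ht1 : t ≤ 1) (hu : 0 ≤ u) (hu1 : u ≤ 1)
    (h : P.vertex i + (t : ℂ) * (P.vertex (i + 1) - P.vertex i) =
      P.vertex j + (u : ℂ) * (P.vertex (j + 1) - P.vertex j)) : False := by
  have hz1 : P.vertex i + (t : ℂ) * (P.vertex (i + 1) - P.vertex i) ∈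
      segment ℝ (P.vertex i) (P.vertex (i + 1)) := by
    rw [segment_eq_image']
    exact ⟨t, ⟨ht, ht1⟩, by simp only [Complex.real_smul]⟩
  have hz2 : P.vertex j + (u : ℂ) * (P.vertex (j + 1) - P.vertex j) ∈
      segment ℝ (P.vertex j) (P.vertex (j + 1)) := by
    rw [segment_eq_image']
    exact ⟨u, ⟨hu, hu1⟩, by simp only [Complex.real_smul]⟩
  rw [← h] at hz2
  obtain ⟨ha, hb⟩ := P.simple i j h1 ⟨hz1, hz2⟩
  simp only [mem_insert_iff, mem_singleton_iff] at ha hb
  have h4 : i + 1 ≠ j + 1 := fun h => h1 (add_right_cancel h)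
  rcases ha with ha | ha <;> rcases hb with hb | hb <;> rw [ha] at hb <;> have hk := P.injective hb
  · exact h1 hk
  · exact h2 hk
  · exact h3 hk
  · exact h4 hk

theorem m8_ne (p a b : ZMod 6) (h : a ≠ b) : p + a ≠ p + b := fun h1 => h (add_left_cancel h1)

/-- the geometric contradiction -/
theorem m8_geo (P : Polygon 6) (p : ZMod 6) (D : ℂ) (hD : D ≠ 0) (l l2 l5 c s : ℝ) (hl : 0 < l)
    (hl2 : 0 < l2) (hl5 : 0 < l5) (hc : 0 < c) (hs : 0 < s) (hcs : c ^ 2 + s ^ 2 = 1)
    (e0 : P.vertex (p + 1) - P.vertex p = l * D)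
    (e1 : P.vertex (p + 2) - P.vertex (p + 1) = l * (D * (c + s * I) ^ 2))
    (e2 : P.vertex (p + 3) - P.vertex (p + 2) = l2 * (-(D * (c + s * I))))
    (e3 : P.vertex (p + 4) - P.vertex (p + 3) = l * (-(D * I)))
    (e4 : P.vertex (p + 5) - P.vertex (p + 4) = l * (D * I * (c + s * I) ^ 2))
    (e5 : P.vertex p - P.vertex (p + 5) = l5 * (-(D * (c + s * I)))) : False := by
  have hIs : (I : ℂ) ^ 2 = -1 := Complex.I_sq
  have hcsC : (c : ℂ) ^ 2 + (s : ℂ) ^ 2 = 1 := by exact_mod_cast hcs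
  -- the closing relation
  have hsum : D * ((l : ℂ) * (1 + (c + s * I) ^ 2 - I + I * (c + s * I) ^ 2) -
      (l2 + l5) * (c + s * I)) = 0 := by
    linear_combination -(e0 + e1 + e2 + e3 + e4 + e5)
  have hsum2 := (mul_eq_zero.mp hsum).resolve_left hD
  have hre := congrArg Complex.re hsum2
  simp only [pow_two, Complex.sub_re, Complex.add_re, Complex.mul_re, Complex.add_im, Complex.mul_im,
    Complex.sub_im, Complex.ofReal_re, Complex.ofReal_im, Complex.I_re, Complex.I_im,
    Complex.one_re, Complex.one_im, Complex.zero_re] at hre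
  have hrel : 2 * l * (c - s) = l2 + l5 := by
    have h1 : c * (2 * l * (c - s) - (l2 + l5)) = 0 := by
      linear_combination hre + l * hcs
    have h2 := (mul_eq_zero.mp h1).resolve_left hc.ne'
    linarith
  have hcgs : 0 < c - s := by
    by_contra hcon
    push Not at hcon
    nlinarith
  -- parameters
  set m := l5 / l with hm
  have hm0 : 0 < m := div_pos hl5 hl
  have hml : l * m = l5 := by
    rw [hm]
    field_simp
  have hm2 : m < 2 * (c - s) := by
    rw [hm, div_lt_iff₀ hl]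
    nlinarith
  have hmlC : (l : ℂ) * (m : ℂ) = (l5 : ℂ) := by exact_mod_cast hml
  have hd : 0 < c ^ 2 - s ^ 2 := by nlinarith
  have hx0 : 0 < m * c + 2 * s * c := by positivity
  have hy3 : 0 < m * s + 2 * s ^ 2 := by positivity
  have hy4 : m * s + 2 * s ^ 2 < 1 := by nlinarith [mul_pos hs hcgs, mul_pos hcgs hcgs]
  have n03 : p ≠ p + 3 := by
    have h := m8_ne p 0 3 (by decide)
    rwa [add_zero] at h
  have a31 : p + 3 + 1 = p + 4 := by ring
  have a11 : p + 1 + 1 = p + 2 := by ring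
  have n04 : p ≠ p + 4 := by
    have h := m8_ne p 0 4 (by decide)
    rwa [add_zero] at h
  have n13 : p + 1 ≠ p + 3 := m8_ne p 1 3 (by decide)
  have n14 : p + 1 ≠ p + 4 := m8_ne p 1 4 (by decide)
  have n23 : p + 2 ≠ p + 3 := m8_ne p 2 3 (by decide)
  rcases le_total (m * c + 2 * s * c) 1 with hx1 | hx1
  · refine m8_meet P p (p + 3) n03 (by rw [a31]; exact n04) n13 (m * c + 2 * s * c)
      (m * s + 2 * s ^ 2) hx0.le hx1 hy3.le hy4.le ?_
    rw [a31, e3, e0]
    push_cast
    linear_combination (e3 + e4 + e5) + (D * (c + s * I)) * hmlC +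
      l * D * I * hcsC + (2 * c * s * l * D + l * D * I * s ^ 2) * hIs
  · set t := (m * c + 2 * s * c - 1) / (c ^ 2 - s ^ 2) with ht
    have ht0 : 0 ≤ t := div_nonneg (by linarith) hd.le
    have htd : t * (c ^ 2 - s ^ 2) = m * c + 2 * s * c - 1 := by
      rw [ht]
      field_simp
    have ht1 : t ≤ 1 := by
      rw [ht, div_le_one hd]
      nlinarith
    have hty : t * (2 * s * c) ≤ m * s + 2 * s ^ 2 := by
      refine le_of_mul_le_mul_right ?_ hd
      have h1 : (m * s + 2 * s ^ 2) * (c ^ 2 - s ^ 2) - t * (2 * s * c) * (c ^ 2 - s ^ 2) =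
          s * (2 * (c - s) - m) := by
        linear_combination (-(2 * s * c)) * htd + (-(m * s) - 2 * s ^ 2) * hcs
      have h2 : 0 < s * (2 * (c - s) - m) := mul_pos hs (by linarith)
      linarith
    have hu1 : m * s + 2 * s ^ 2 - t * (2 * s * c) ≤ 1 := by
      have : 0 ≤ t * (2 * s * c) := by positivity
      linarith
    refine m8_meet P (p + 1) (p + 3) n13 (by rw [a31]; exact n14) (by rw [a11]; exact n23) t
      (m * s + 2 * s ^ 2 - t * (2 * s * c)) ht0 ht1 (by linarith) hu1 ?_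
    rw [a31, a11, e3, e1]
    have htdC : (t : ℂ) * ((c : ℂ) ^ 2 - (s : ℂ) ^ 2) = m * c + 2 * s * c - 1 := by
      exact_mod_cast htd
    push_cast
    linear_combination e0 + (e3 + e4 + e5) + (D * (c + s * I)) * hmlC + l * D * htdC +
      l * D * I * hcsC + (2 * c * s * l * D + l * D * I * s ^ 2 + t * l * D * s ^ 2) * hIs

/-- the directions of the sides in terms of `A = exp (i α)`, `B = exp (i β)` -/
theorem m8_dirs (P : Polygon 6) (p : ZMod 6) (α β : ℝ)
    (a1 : P.ang (p + 1) = 2 * Real.pi - 2 * β) (a2 : P.ang (p + 2) = α)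
    (a3 : P.ang (p + 3) = β) (a4 : P.ang (p + 4) = 2 * Real.pi - 2 * α) (a5 : P.ang (p + 5) = β)
    (A B : ℂ) (eA : exp ((α : ℂ) * I) = A) (eB : exp ((β : ℂ) * I) = B) :
    P.dr (p + 1) = -(P.dr p * B ^ 2) ∧ A * P.dr (p + 2) = P.dr p * B ^ 2 ∧
    A * P.dr (p + 3) = -(P.dr p * B) ∧ P.dr (p + 4) = P.dr p * A * B ∧
    P.dr (p + 5) = -(P.dr p * A) := by
  have hA : A ≠ 0 := by
    rw [← eA]
    exact Complex.exp_ne_zero _
  have hB : B ≠ 0 := by
    rw [← eB]
    exact Complex.exp_ne_zero _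
  have hE : ∀ (x : ℝ) (X : ℂ), exp ((x : ℂ) * I) = X →
      exp ((((2 * Real.pi - 2 * x : ℝ)) : ℂ) * I) = (X ^ 2)⁻¹ := by
    intro x X h
    have h1 : (((2 * Real.pi - 2 * x : ℝ)) : ℂ) * I = 2 * Real.pi * I + -(x * I + x * I) := by
      push_cast
      ring
    rw [h1, Complex.exp_add, Complex.exp_two_pi_mul_I, Complex.exp_neg, Complex.exp_add, h, one_mul,
      pow_two]
  have t1 := P.dr_turn (p + 1)
  have t2 := P.dr_turn (p + 2)
  have t3 := P.dr_turn (p + 3)
  have t4 := P.dr_turn (p + 4)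
  have t5 := P.dr_turn (p + 5)
  have s1 : p + 1 - 1 = p := by ring
  have s2 : p + 2 - 1 = p + 1 := by ring
  have s3 : p + 3 - 1 = p + 2 := by ring
  have s4 : p + 4 - 1 = p + 3 := by ring
  have s5 : p + 5 - 1 = p + 4 := by ring
  rw [a1, s1, hE β B eB] at t1
  rw [a2, s2, eA] at t2
  rw [a3, s3, eB] at t3
  rw [a4, s4, hE α A eA] at t4
  rw [a5, s5, eB] at t5
  have d1 : P.dr (p + 1) = -(P.dr p * B ^ 2) := by
    field_simp at t1
    linear_combination t1
  have d2 : A * P.dr (p + 2) = P.dr p * B ^ 2 := by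
    rw [t2, d1]
    ring
  have d3 : A * P.dr (p + 3) = -(P.dr p * B) := by
    refine mul_left_cancel₀ hB ?_
    linear_combination A * t3 - d2
  have d4 : P.dr (p + 4) = P.dr p * A * B := by
    have h : P.dr (p + 4) = -(A ^ 2 * P.dr (p + 3)) := by
      field_simp at t4
      linear_combination t4
    rw [h]
    linear_combination -(A * d3)
  have d5 : P.dr (p + 5) = -(P.dr p * A) := by
    refine mul_left_cancel₀ hB ?_
    linear_combination t5 - d4
  exact ⟨d1, d2, d3, d4, d5⟩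

/-- the case `β = α + π / 2` -/
theorem m8_core (P : Polygon 6) (p : ZMod 6) (α β : ℝ) (a0 : P.ang p = α)
    (a1 : P.ang (p + 1) = 2 * Real.pi - 2 * β) (a2 : P.ang (p + 2) = α)
    (a3 : P.ang (p + 3) = β) (a4 : P.ang (p + 4) = 2 * Real.pi - 2 * α) (a5 : P.ang (p + 5) = β)
    (l01 : P.len p = P.len (p + 1)) (l13 : P.len (p + 1) = P.len (p + 3))
    (l34 : P.len (p + 3) = P.len (p + 4)) (hab : β = α + Real.pi / 2) : False := by
  have pa : 0 < α := by
    rw [← a0]
    exact P.ang_pos p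
  have pb : β < Real.pi := by
    have h := P.ang_pos (p + 1)
    linarith
  have hpi := Real.pi_pos
  have hc : 0 < Real.cos α := Real.cos_pos_of_mem_Ioo ⟨by linarith, by linarith⟩
  have hs : 0 < Real.sin α := Real.sin_pos_of_pos_of_lt_pi pa (by linarith)
  have eA : exp ((α : ℂ) * I) = (Real.cos α : ℂ) + (Real.sin α : ℂ) * I := by
    rw [Complex.exp_mul_I, Complex.ofReal_cos, Complex.ofReal_sin]
  have eB : exp ((β : ℂ) * I) = ((Real.cos α : ℂ) + (Real.sin α : ℂ) * I) * I := by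
    have h1 : (β : ℂ) * I = (α : ℂ) * I + (Real.pi : ℂ) / 2 * I := by
      rw [hab]
      push_cast
      ring
    rw [h1, Complex.exp_add, eA, Complex.exp_pi_div_two_mul_I]
  obtain ⟨d1, d2, d3, d4, d5⟩ := m8_dirs P p α β a1 a2 a3 a4 a5 _ _ eA eB
  set A := (Real.cos α : ℂ) + (Real.sin α : ℂ) * I with hAdef
  have hA : A ≠ 0 := by
    rw [← eA]
    exact Complex.exp_ne_zero _
  have hI : I ^ 2 = -1 := Complex.I_sq
  have c0 := P.dr_len p
  have c1 := P.dr_len (p + 1)
  have c2 := P.dr_len (p + 2)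
  have c3 := P.dr_len (p + 3)
  have c4 := P.dr_len (p + 4)
  have c5 := P.dr_len (p + 5)
  have s1 : p + 1 + 1 = p + 2 := by ring
  have s2 : p + 2 + 1 = p + 3 := by ring
  have s3 : p + 3 + 1 = p + 4 := by ring
  have s4 : p + 4 + 1 = p + 5 := by ring
  have s5 : p + 5 + 1 = p := by
    have h6 : (5 : ZMod 6) + 1 = 0 := by decide
    rw [add_assoc, h6, add_zero]
  rw [s1, ← l01] at c1
  rw [s2] at c2
  rw [s3, ← l13, ← l01] at c3
  rw [s4, ← l34, ← l13, ← l01] at c4
  rw [s5] at c5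
  have D1 : P.dr (p + 1) = P.dr p * A ^ 2 := by
    rw [d1]
    linear_combination -(P.dr p * A ^ 2) * hI
  have D2 : P.dr (p + 2) = -(P.dr p * A) := by
    refine mul_left_cancel₀ hA ?_
    rw [d2]
    linear_combination (P.dr p * A ^ 2) * hI
  have D3 : P.dr (p + 3) = -(P.dr p * I) := by
    refine mul_left_cancel₀ hA ?_
    rw [d3]
    ring
  have D4 : P.dr (p + 4) = P.dr p * I * A ^ 2 := by
    rw [d4]
    ring
  rw [D1] at c1
  rw [D2] at c2
  rw [D3] at c3
  rw [D4] at c4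
  rw [d5] at c5
  exact m8_geo P p (P.dr p) (P.dr_ne p) (P.len p) (P.len (p + 2)) (P.len (p + 5)) (Real.cos α)
    (Real.sin α) (P.len_pos p) (P.len_pos _) (P.len_pos _) hc hs
    (by rw [add_comm]; exact Real.sin_sq_add_cos_sq α) c0 c1 c2 c3 c4 c5

theorem m8_half (x : ℝ) (h0 : 0 ≤ x) (h1 : x ≤ Real.pi) (h : Real.cos x = 0) :
    x = Real.pi / 2 := by
  have hpi := Real.pi_pos
  refine Real.injOn_cos ⟨h0, h1⟩ ⟨by positivity, by linarith⟩ ?_
  rw [h, Real.cos_pi_div_two]

theorem specM8 : SpecM8 := by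
  intro P _ h01 h13 h34 hne g1 g2 g3 g4
  exfalso
  obtain ⟨α, hα⟩ : ∃ α, P.ang 0 = α := ⟨_, rfl⟩
  obtain ⟨β, hβ⟩ : ∃ β, P.ang 3 = β := ⟨_, rfl⟩
  have b1 : P.ang 1 = 2 * Real.pi - 2 * β := by linarith
  have b2 : P.ang 2 = α := by linarith
  have b4 : P.ang 4 = 2 * Real.pi - 2 * α := by linarith
  have b5 : P.ang 5 = β := by linarith
  have pa : 0 < α := by
    rw [← hα]
    exact P.ang_pos 0
  have pb : 0 < β := by
    rw [← hβ]
    exact P.ang_pos 3
  have qa : α < Real.pi := by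
    have h := P.ang_pos 4
    linarith
  have qb : β < Real.pi := by
    have h := P.ang_pos 1
    linarith
  have z1 : (0 : ZMod 6) + 1 = 1 := by decide
  have z2 : (0 : ZMod 6) + 2 = 2 := by decide
  have z3 : (0 : ZMod 6) + 3 = 3 := by decide
  have z4 : (0 : ZMod 6) + 4 = 4 := by decide
  have z5 : (0 : ZMod 6) + 5 = 5 := by decide
  have y1 : (3 : ZMod 6) + 1 = 4 := by decide
  have y2 : (3 : ZMod 6) + 2 = 5 := by decide
  have y3 : (3 : ZMod 6) + 3 = 0 := by decide
  have y4 : (3 : ZMod 6) + 4 = 1 := by decide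
  have y5 : (3 : ZMod 6) + 5 = 2 := by decide
  have hcos : Real.cos (β - α) = 0 := by
    obtain ⟨d1, d2, d3, d4, d5⟩ := m8_dirs P 0 α β (by rw [z1]; exact b1) (by rw [z2]; exact b2)
      (by rw [z3]; exact hβ) (by rw [z4]; exact b4) (by rw [z5]; exact b5) _ _ rfl rfl
    rw [z1] at d1
    rw [z2] at d2
    rw [z3] at d3
    rw [z4] at d4
    rw [z5] at d5
    have hs := P.dr_sum
    have hs2 : (P.len 0 : ℂ) * P.dr 0 + (P.len 1 : ℂ) * P.dr 1 + (P.len 2 : ℂ) * P.dr 2 +
        (P.len 3 : ℂ) * P.dr 3 + (P.len 4 : ℂ) * P.dr 4 + (P.len 5 : ℂ) * P.dr 5 = 0 := by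
      rw [← hs]
      exact (Fin.sum_univ_six (fun j : Fin 6 => ((P.len j : ℝ) : ℂ) * P.dr j)).symm
    rw [← h34, ← h13, ← h01] at hs2
    set A := exp ((α : ℂ) * I) with hA
    set B := exp ((β : ℂ) * I) with hB
    have iA : A * exp (((-α : ℝ) : ℂ) * I) = 1 := by
      rw [hA, ← Complex.exp_add]
      push_cast
      rw [← add_mul, add_neg_cancel, zero_mul, Complex.exp_zero]
    have iB : B * exp (((-β : ℝ) : ℂ) * I) = 1 := by
      rw [hB, ← Complex.exp_add]
      push_cast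
      rw [← add_mul, add_neg_cancel, zero_mul, Complex.exp_zero]
    have m1 : exp (((β - α : ℝ) : ℂ) * I) = B * exp (((-α : ℝ) : ℂ) * I) := by
      rw [hB, ← Complex.exp_add]
      push_cast
      congr 1
      ring
    have m2 : exp (((α - β : ℝ) : ℂ) * I) = A * exp (((-β : ℝ) : ℂ) * I) := by
      rw [hA, ← Complex.exp_add]
      push_cast
      congr 1
      ring
    have hk : (P.len 0 : ℂ) * (exp (((-β : ℝ) : ℂ) * I) - B - exp (((-α : ℝ) : ℂ) * I) + A) +
        (P.len 2 : ℂ) * exp (((β - α : ℝ) : ℂ) * I) -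
        (P.len 5 : ℂ) * exp (((α - β : ℝ) : ℂ) * I) = 0 := by
      rw [m1, m2]
      set A' := exp (((-α : ℝ) : ℂ) * I)
      set B' := exp (((-β : ℝ) : ℂ) * I)
      refine (mul_eq_zero.mp ?_).resolve_left (P.dr_ne 0)
      have D2 : P.dr 2 = P.dr 0 * B ^ 2 * A' := by linear_combination A' * d2 - P.dr 2 * iA
      have D3 : P.dr 3 = -(P.dr 0 * B * A') := by linear_combination A' * d3 - P.dr 3 * iA
      rw [d1, D2, D3, d4, d5] at hs2
      linear_combination B' * hs2 + ((P.len 0 : ℂ) * P.dr 0 * (B + A' - A) -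
        (P.len 2 : ℂ) * P.dr 0 * B * A') * iB
    have hre := congrArg Complex.re hk
    rw [hA, hB] at hre
    simp only [Complex.add_re, Complex.sub_re, Complex.re_ofReal_mul, Complex.exp_ofReal_mul_I_re,
      Complex.zero_re, Real.cos_neg] at hre
    have h5 : Real.cos (α - β) = Real.cos (β - α) := by
      rw [← Real.cos_neg]
      congr 1
      ring
    rw [h5] at hre
    have h6 : (P.len 2 - P.len 5) * Real.cos (β - α) = 0 := by linear_combination hre
    exact (mul_eq_zero.mp h6).resolve_left (sub_ne_zero.mpr hne)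
  rcases le_total α β with hab | hab
  · have h := m8_half (β - α) (by linarith) (by linarith) hcos
    exact m8_core P 0 α β hα (by rw [z1]; exact b1) (by rw [z2]; exact b2)
      (by rw [z3]; exact hβ) (by rw [z4]; exact b4) (by rw [z5]; exact b5) (by rw [z1]; exact h01)
      (by rw [z1, z3]; exact h13) (by rw [z3, z4]; exact h34) (by linarith)
  · have h := m8_half (α - β) (by linarith) (by linarith)
      (by rw [← hcos, ← Real.cos_neg]; congr 1; ring)
    exact m8_core P 3 β α hβ (by rw [y1]; exact b4) (by rw [y2]; exact b5)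
      (by rw [y3]; exact hα) (by rw [y4]; exact b1) (by rw [y5]; exact b2) (by rw [y1]; exact h34)
      (by rw [y1, y3, h01, h13, h34]) (by rw [y3, y4]; exact h01) (by linarith)

end Pool.Agent.Lib_MP_fa6e45
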