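import Pool.Agent.Lib_MP_fa6e45.HS

/-!
MP_fa6e45_co, stage 4, piece HX-N1 (generated): a periodic tiling with eight tiles per cell for a pentagon with sides
`0, 1, 3` equal, sides `2, 4` equal, `a0 + a2 = 2π` and `a2 + a3 + 2 a4 = 2π`.  With the unit directions `a, b, c` of the
sides `0, 1, 4`: `d2 = b c / a`, `d3 = c² / b`.
-/

set_option autoImplicit false
set_option linter.style.longLine false
set_option linter.unusedSimpArgs false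

open Set MeasureTheory Complex
open scoped Topology

namespace Pool.Agent.Lib_MP_fa6e45

private theorem HPN1_s0 (x y : ℂ) {a b c : ℂ} (ha : a ≠ 0) (hb : b ≠ 0) (hc : c ≠ 0)
    (h1 : x * (a + b + c ^ 2 / b) + y * (b * c / a + c) = 0)
    (h2 : x * (1 / a + 1 / b + b / c ^ 2) + y * (a / (b * c) + 1 / c) = 0) :
    (-(1) * (0) + (x * (a))) + 0 = ((1) * (x * (a)) + (0)) := by
  have h : (-(1) * (0) + (x * (a))) + 0 - ((1) * (x * (a)) + (0)) =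
      (0) * (x * (a + b + c ^ 2 / b) + y * (b * c / a + c)) + (0) * (x * (1 / a + 1 / b + b / c ^ 2) + y * (a / (b * c) + 1 / c)) := by
    field_simp
    ring
  rw [h1, h2] at h
  linear_combination h

private theorem HPN1_t0 (x y : ℂ) {a b c : ℂ} (ha : a ≠ 0) (hb : b ≠ 0) (hc : c ≠ 0)
    (h1 : x * (a + b + c ^ 2 / b) + y * (b * c / a + c) = 0)
    (h2 : x * (1 / a + 1 / b + b / c ^ 2) + y * (a / (b * c) + 1 / c) = 0) :
    (-(1) * (x * (a)) + (x * (a))) + 0 = ((1) * (0) + (0)) := by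
  have h : (-(1) * (x * (a)) + (x * (a))) + 0 - ((1) * (0) + (0)) =
      (0) * (x * (a + b + c ^ 2 / b) + y * (b * c / a + c)) + (0) * (x * (1 / a + 1 / b + b / c ^ 2) + y * (a / (b * c) + 1 / c)) := by
    field_simp
    ring
  rw [h1, h2] at h
  linear_combination h

private theorem HPN1_s1 (x y : ℂ) {a b c : ℂ} (ha : a ≠ 0) (hb : b ≠ 0) (hc : c ≠ 0)
    (h1 : x * (a + b + c ^ 2 / b) + y * (b * c / a + c) = 0)
    (h2 : x * (1 / a + 1 / b + b / c ^ 2) + y * (a / (b * c) + 1 / c) = 0) :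
    (-(b / (a)) * (0) + (x * (b) + x * (a))) + 0 = ((1) * (x * (b) + x * (a)) + (0)) := by
  have h : (-(b / (a)) * (0) + (x * (b) + x * (a))) + 0 - ((1) * (x * (b) + x * (a)) + (0)) =
      (0) * (x * (a + b + c ^ 2 / b) + y * (b * c / a + c)) + (0) * (x * (1 / a + 1 / b + b / c ^ 2) + y * (a / (b * c) + 1 / c)) := by
    field_simp
    ring
  rw [h1, h2] at h
  linear_combination h

private theorem HPN1_t1 (x y : ℂ) {a b c : ℂ} (ha : a ≠ 0) (hb : b ≠ 0) (hc : c ≠ 0)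
    (h1 : x * (a + b + c ^ 2 / b) + y * (b * c / a + c) = 0)
    (h2 : x * (1 / a + 1 / b + b / c ^ 2) + y * (a / (b * c) + 1 / c) = 0) :
    (-(b / (a)) * (x * (a)) + (x * (b) + x * (a))) + 0 = ((1) * (x * (a)) + (0)) := by
  have h : (-(b / (a)) * (x * (a)) + (x * (b) + x * (a))) + 0 - ((1) * (x * (a)) + (0)) =
      (0) * (x * (a + b + c ^ 2 / b) + y * (b * c / a + c)) + (0) * (x * (1 / a + 1 / b + b / c ^ 2) + y * (a / (b * c) + 1 / c)) := by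
    field_simp
    ring
  rw [h1, h2] at h
  linear_combination h

private theorem HPN1_s2 (x y : ℂ) {a b c : ℂ} (ha : a ≠ 0) (hb : b ≠ 0) (hc : c ≠ 0)
    (h1 : x * (a + b + c ^ 2 / b) + y * (b * c / a + c) = 0)
    (h2 : x * (1 / a + 1 / b + b / c ^ 2) + y * (a / (b * c) + 1 / c) = 0) :
    (-(b / (a)) * (x * (c ^ 2 / (b)) + x * (b) + x * (a) + y * ((b * c) / (a))) + (x * (b) + x * (a))) + 0 = ((1) * (x * (b) + x * (a) + y * ((b * c) / (a))) + (0)) := by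
  have h : (-(b / (a)) * (x * (c ^ 2 / (b)) + x * (b) + x * (a) + y * ((b * c) / (a))) + (x * (b) + x * (a))) + 0 - ((1) * (x * (b) + x * (a) + y * ((b * c) / (a))) + (0)) =
      ((1 : ℂ) * (-(b / (a)))) * (x * (a + b + c ^ 2 / b) + y * (b * c / a + c)) + (0) * (x * (1 / a + 1 / b + b / c ^ 2) + y * (a / (b * c) + 1 / c)) := by
    field_simp
    ring
  rw [h1, h2] at h
  linear_combination h

private theorem HPN1_t2 (x y : ℂ) {a b c : ℂ} (ha : a ≠ 0) (hb : b ≠ 0) (hc : c ≠ 0)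
    (h1 : x * (a + b + c ^ 2 / b) + y * (b * c / a + c) = 0)
    (h2 : x * (1 / a + 1 / b + b / c ^ 2) + y * (a / (b * c) + 1 / c) = 0) :
    (-(b / (a)) * (0) + (x * (b) + x * (a))) + 0 = ((1) * (x * (b) + x * (a)) + (0)) := by
  have h : (-(b / (a)) * (0) + (x * (b) + x * (a))) + 0 - ((1) * (x * (b) + x * (a)) + (0)) =
      (0) * (x * (a + b + c ^ 2 / b) + y * (b * c / a + c)) + (0) * (x * (1 / a + 1 / b + b / c ^ 2) + y * (a / (b * c) + 1 / c)) := by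
    field_simp
    ring
  rw [h1, h2] at h
  linear_combination h

private theorem HPN1_s3 (x y : ℂ) {a b c : ℂ} (ha : a ≠ 0) (hb : b ≠ 0) (hc : c ≠ 0)
    (h1 : x * (a + b + c ^ 2 / b) + y * (b * c / a + c) = 0)
    (h2 : x * (1 / a + 1 / b + b / c ^ 2) + y * (a / (b * c) + 1 / c) = 0) :
    (-(1) * (x * (b) + x * (a) + y * ((b * c) / (a))) + (x * (a))) + (x * (c ^ 2 / (b)) + 2 * (x * (b)) + x * (a) + 2 * (y * ((b * c) / (a)))) = ((1) * (x * (c ^ 2 / (b)) + x * (b) + x * (a) + y * ((b * c) / (a))) + (0)) := by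
  have h : (-(1) * (x * (b) + x * (a) + y * ((b * c) / (a))) + (x * (a))) + (x * (c ^ 2 / (b)) + 2 * (x * (b)) + x * (a) + 2 * (y * ((b * c) / (a)))) - ((1) * (x * (c ^ 2 / (b)) + x * (b) + x * (a) + y * ((b * c) / (a))) + (0)) =
      (0) * (x * (a + b + c ^ 2 / b) + y * (b * c / a + c)) + (0) * (x * (1 / a + 1 / b + b / c ^ 2) + y * (a / (b * c) + 1 / c)) := by
    field_simp
    ring
  rw [h1, h2] at h
  linear_combination h

private theorem HPN1_t3 (x y : ℂ) {a b c : ℂ} (ha : a ≠ 0) (hb : b ≠ 0) (hc : c ≠ 0)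
    (h1 : x * (a + b + c ^ 2 / b) + y * (b * c / a + c) = 0)
    (h2 : x * (1 / a + 1 / b + b / c ^ 2) + y * (a / (b * c) + 1 / c) = 0) :
    (-(1) * (x * (c ^ 2 / (b)) + x * (b) + x * (a) + y * ((b * c) / (a))) + (x * (a))) + (x * (c ^ 2 / (b)) + 2 * (x * (b)) + x * (a) + 2 * (y * ((b * c) / (a)))) = ((1) * (x * (b) + x * (a) + y * ((b * c) / (a))) + (0)) := by
  have h : (-(1) * (x * (c ^ 2 / (b)) + x * (b) + x * (a) + y * ((b * c) / (a))) + (x * (a))) + (x * (c ^ 2 / (b)) + 2 * (x * (b)) + x * (a) + 2 * (y * ((b * c) / (a)))) - ((1) * (x * (b) + x * (a) + y * ((b * c) / (a))) + (0)) =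
      (0) * (x * (a + b + c ^ 2 / b) + y * (b * c / a + c)) + (0) * (x * (1 / a + 1 / b + b / c ^ 2) + y * (a / (b * c) + 1 / c)) := by
    field_simp
    ring
  rw [h1, h2] at h
  linear_combination h

private theorem HPN1_s4 (x y : ℂ) {a b c : ℂ} (ha : a ≠ 0) (hb : b ≠ 0) (hc : c ≠ 0)
    (h1 : x * (a + b + c ^ 2 / b) + y * (b * c / a + c) = 0)
    (h2 : x * (1 / a + 1 / b + b / c ^ 2) + y * (a / (b * c) + 1 / c) = 0) :
    (((b * c ^ 2) / (a)) * (x * (1 / (a)) + x * (1 / (b)) + y * (a / (b * c))) + (- x * ((b * c ^ 2) / (a ^ 2)) - x * (c ^ 2 / (a)) + x * (c ^ 2 / (b)) + x * (b) + x * (a) + y * ((b * c) / (a)))) + 0 = ((1) * (0) + (0)) := by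
  have h : (((b * c ^ 2) / (a)) * (x * (1 / (a)) + x * (1 / (b)) + y * (a / (b * c))) + (- x * ((b * c ^ 2) / (a ^ 2)) - x * (c ^ 2 / (a)) + x * (c ^ 2 / (b)) + x * (b) + x * (a) + y * ((b * c) / (a)))) + 0 - ((1) * (0) + (0)) =
      ((1 : ℂ) * ((1))) * (x * (a + b + c ^ 2 / b) + y * (b * c / a + c)) + (0) * (x * (1 / a + 1 / b + b / c ^ 2) + y * (a / (b * c) + 1 / c)) := by
    field_simp
    ring
  rw [h1, h2] at h
  linear_combination h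

private theorem HPN1_t4 (x y : ℂ) {a b c : ℂ} (ha : a ≠ 0) (hb : b ≠ 0) (hc : c ≠ 0)
    (h1 : x * (a + b + c ^ 2 / b) + y * (b * c / a + c) = 0)
    (h2 : x * (1 / a + 1 / b + b / c ^ 2) + y * (a / (b * c) + 1 / c) = 0) :
    (((b * c ^ 2) / (a)) * (x * (1 / (a)) + x * (1 / (b))) + (- x * ((b * c ^ 2) / (a ^ 2)) - x * (c ^ 2 / (a)) + x * (c ^ 2 / (b)) + x * (b) + x * (a) + y * ((b * c) / (a)))) + 0 = ((1) * (x * (c ^ 2 / (b)) + x * (b) + x * (a) + y * ((b * c) / (a))) + (0)) := by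
  have h : (((b * c ^ 2) / (a)) * (x * (1 / (a)) + x * (1 / (b))) + (- x * ((b * c ^ 2) / (a ^ 2)) - x * (c ^ 2 / (a)) + x * (c ^ 2 / (b)) + x * (b) + x * (a) + y * ((b * c) / (a)))) + 0 - ((1) * (x * (c ^ 2 / (b)) + x * (b) + x * (a) + y * ((b * c) / (a))) + (0)) =
      (0) * (x * (a + b + c ^ 2 / b) + y * (b * c / a + c)) + (0) * (x * (1 / a + 1 / b + b / c ^ 2) + y * (a / (b * c) + 1 / c)) := by
    field_simp
    ring
  rw [h1, h2] at h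
  linear_combination h

private theorem HPN1_s5 (x y : ℂ) {a b c : ℂ} (ha : a ≠ 0) (hb : b ≠ 0) (hc : c ≠ 0)
    (h1 : x * (a + b + c ^ 2 / b) + y * (b * c / a + c) = 0)
    (h2 : x * (1 / a + 1 / b + b / c ^ 2) + y * (a / (b * c) + 1 / c) = 0) :
    ((b / (a)) * (0) + (- x * (b))) + 0 = (-(1) * (x * (b) + x * (a)) + (x * (a))) := by
  have h : ((b / (a)) * (0) + (- x * (b))) + 0 - (-(1) * (x * (b) + x * (a)) + (x * (a))) =
      (0) * (x * (a + b + c ^ 2 / b) + y * (b * c / a + c)) + (0) * (x * (1 / a + 1 / b + b / c ^ 2) + y * (a / (b * c) + 1 / c)) := by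
    field_simp
    ring
  rw [h1, h2] at h
  linear_combination h

private theorem HPN1_t5 (x y : ℂ) {a b c : ℂ} (ha : a ≠ 0) (hb : b ≠ 0) (hc : c ≠ 0)
    (h1 : x * (a + b + c ^ 2 / b) + y * (b * c / a + c) = 0)
    (h2 : x * (1 / a + 1 / b + b / c ^ 2) + y * (a / (b * c) + 1 / c) = 0) :
    ((b / (a)) * (x * (a)) + (- x * (b))) + 0 = (-(1) * (x * (a)) + (x * (a))) := by
  have h : ((b / (a)) * (x * (a)) + (- x * (b))) + 0 - (-(1) * (x * (a)) + (x * (a))) =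
      (0) * (x * (a + b + c ^ 2 / b) + y * (b * c / a + c)) + (0) * (x * (1 / a + 1 / b + b / c ^ 2) + y * (a / (b * c) + 1 / c)) := by
    field_simp
    ring
  rw [h1, h2] at h
  linear_combination h

private theorem HPN1_s6 (x y : ℂ) {a b c : ℂ} (ha : a ≠ 0) (hb : b ≠ 0) (hc : c ≠ 0)
    (h1 : x * (a + b + c ^ 2 / b) + y * (b * c / a + c) = 0)
    (h2 : x * (1 / a + 1 / b + b / c ^ 2) + y * (a / (b * c) + 1 / c) = 0) :
    ((b / (a)) * (x * (c ^ 2 / (b)) + x * (b) + x * (a) + y * ((b * c) / (a))) + (- x * (b))) + 0 = (-(1) * (x * (b) + x * (a) + y * ((b * c) / (a))) + (x * (a))) := by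
  have h : ((b / (a)) * (x * (c ^ 2 / (b)) + x * (b) + x * (a) + y * ((b * c) / (a))) + (- x * (b))) + 0 - (-(1) * (x * (b) + x * (a) + y * ((b * c) / (a))) + (x * (a))) =
      ((-1 : ℂ) * (-(b / (a)))) * (x * (a + b + c ^ 2 / b) + y * (b * c / a + c)) + (0) * (x * (1 / a + 1 / b + b / c ^ 2) + y * (a / (b * c) + 1 / c)) := by
    field_simp
    ring
  rw [h1, h2] at h
  linear_combination h

private theorem HPN1_t6 (x y : ℂ) {a b c : ℂ} (ha : a ≠ 0) (hb : b ≠ 0) (hc : c ≠ 0)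
    (h1 : x * (a + b + c ^ 2 / b) + y * (b * c / a + c) = 0)
    (h2 : x * (1 / a + 1 / b + b / c ^ 2) + y * (a / (b * c) + 1 / c) = 0) :
    ((b / (a)) * (0) + (- x * (b))) + 0 = (-(1) * (x * (b) + x * (a)) + (x * (a))) := by
  have h : ((b / (a)) * (0) + (- x * (b))) + 0 - (-(1) * (x * (b) + x * (a)) + (x * (a))) =
      (0) * (x * (a + b + c ^ 2 / b) + y * (b * c / a + c)) + (0) * (x * (1 / a + 1 / b + b / c ^ 2) + y * (a / (b * c) + 1 / c)) := by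
    field_simp
    ring
  rw [h1, h2] at h
  linear_combination h

private theorem HPN1_s7 (x y : ℂ) {a b c : ℂ} (ha : a ≠ 0) (hb : b ≠ 0) (hc : c ≠ 0)
    (h1 : x * (a + b + c ^ 2 / b) + y * (b * c / a + c) = 0)
    (h2 : x * (1 / a + 1 / b + b / c ^ 2) + y * (a / (b * c) + 1 / c) = 0) :
    (-((b * c ^ 2) / (a)) * (x * (1 / (a)) + x * (1 / (b)) + y * (a / (b * c))) + (x * ((b * c ^ 2) / (a ^ 2)) + x * (c ^ 2 / (a)) - x * (c ^ 2 / (b)) - x * (b) - y * ((b * c) / (a)))) + 0 = (-(1) * (0) + (x * (a))) := by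
  have h : (-((b * c ^ 2) / (a)) * (x * (1 / (a)) + x * (1 / (b)) + y * (a / (b * c))) + (x * ((b * c ^ 2) / (a ^ 2)) + x * (c ^ 2 / (a)) - x * (c ^ 2 / (b)) - x * (b) - y * ((b * c) / (a)))) + 0 - (-(1) * (0) + (x * (a))) =
      ((-1 : ℂ) * ((1))) * (x * (a + b + c ^ 2 / b) + y * (b * c / a + c)) + (0) * (x * (1 / a + 1 / b + b / c ^ 2) + y * (a / (b * c) + 1 / c)) := by
    field_simp
    ring
  rw [h1, h2] at h
  linear_combination h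

private theorem HPN1_t7 (x y : ℂ) {a b c : ℂ} (ha : a ≠ 0) (hb : b ≠ 0) (hc : c ≠ 0)
    (h1 : x * (a + b + c ^ 2 / b) + y * (b * c / a + c) = 0)
    (h2 : x * (1 / a + 1 / b + b / c ^ 2) + y * (a / (b * c) + 1 / c) = 0) :
    (-((b * c ^ 2) / (a)) * (x * (1 / (a)) + x * (1 / (b))) + (x * ((b * c ^ 2) / (a ^ 2)) + x * (c ^ 2 / (a)) - x * (c ^ 2 / (b)) - x * (b) - y * ((b * c) / (a)))) + 0 = (-(1) * (x * (c ^ 2 / (b)) + x * (b) + x * (a) + y * ((b * c) / (a))) + (x * (a))) := by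
  have h : (-((b * c ^ 2) / (a)) * (x * (1 / (a)) + x * (1 / (b))) + (x * ((b * c ^ 2) / (a ^ 2)) + x * (c ^ 2 / (a)) - x * (c ^ 2 / (b)) - x * (b) - y * ((b * c) / (a)))) + 0 - (-(1) * (x * (c ^ 2 / (b)) + x * (b) + x * (a) + y * ((b * c) / (a))) + (x * (a))) =
      (0) * (x * (a + b + c ^ 2 / b) + y * (b * c / a + c)) + (0) * (x * (1 / a + 1 / b + b / c ^ 2) + y * (a / (b * c) + 1 / c)) := by
    field_simp
    ring
  rw [h1, h2] at h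
  linear_combination h

private theorem HPN1_s8 (x y : ℂ) {a b c : ℂ} (ha : a ≠ 0) (hb : b ≠ 0) (hc : c ≠ 0)
    (h1 : x * (a + b + c ^ 2 / b) + y * (b * c / a + c) = 0)
    (h2 : x * (1 / a + 1 / b + b / c ^ 2) + y * (a / (b * c) + 1 / c) = 0) :
    (-((b * c ^ 2) / (a)) * (x * (1 / (a)) + x * (1 / (b)) + x * (b / (c ^ 2)) + y * (a / (b * c))) + (x * ((b * c ^ 2) / (a ^ 2)) + x * (c ^ 2 / (a)) - x * (c ^ 2 / (b)) - x * (b) - y * ((b * c) / (a)))) + 0 = (-(b / (a)) * (x * (b) + x * (a)) + (x * (b) + x * (a))) := by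
  have h : (-((b * c ^ 2) / (a)) * (x * (1 / (a)) + x * (1 / (b)) + x * (b / (c ^ 2)) + y * (a / (b * c))) + (x * ((b * c ^ 2) / (a ^ 2)) + x * (c ^ 2 / (a)) - x * (c ^ 2 / (b)) - x * (b) - y * ((b * c) / (a)))) + 0 - (-(b / (a)) * (x * (b) + x * (a)) + (x * (b) + x * (a))) =
      ((-1 : ℂ) * ((1))) * (x * (a + b + c ^ 2 / b) + y * (b * c / a + c)) + (0) * (x * (1 / a + 1 / b + b / c ^ 2) + y * (a / (b * c) + 1 / c)) := by
    field_simp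
    ring
  rw [h1, h2] at h
  linear_combination h

private theorem HPN1_t8 (x y : ℂ) {a b c : ℂ} (ha : a ≠ 0) (hb : b ≠ 0) (hc : c ≠ 0)
    (h1 : x * (a + b + c ^ 2 / b) + y * (b * c / a + c) = 0)
    (h2 : x * (1 / a + 1 / b + b / c ^ 2) + y * (a / (b * c) + 1 / c) = 0) :
    (-((b * c ^ 2) / (a)) * (x * (1 / (a)) + x * (1 / (b)) + y * (a / (b * c))) + (x * ((b * c ^ 2) / (a ^ 2)) + x * (c ^ 2 / (a)) - x * (c ^ 2 / (b)) - x * (b) - y * ((b * c) / (a)))) + 0 = (-(b / (a)) * (x * (a)) + (x * (b) + x * (a))) := by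
  have h : (-((b * c ^ 2) / (a)) * (x * (1 / (a)) + x * (1 / (b)) + y * (a / (b * c))) + (x * ((b * c ^ 2) / (a ^ 2)) + x * (c ^ 2 / (a)) - x * (c ^ 2 / (b)) - x * (b) - y * ((b * c) / (a)))) + 0 - (-(b / (a)) * (x * (a)) + (x * (b) + x * (a))) =
      ((-1 : ℂ) * ((1))) * (x * (a + b + c ^ 2 / b) + y * (b * c / a + c)) + (0) * (x * (1 / a + 1 / b + b / c ^ 2) + y * (a / (b * c) + 1 / c)) := by
    field_simp
    ring
  rw [h1, h2] at h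
  linear_combination h

private theorem HPN1_s9 (x y : ℂ) {a b c : ℂ} (ha : a ≠ 0) (hb : b ≠ 0) (hc : c ≠ 0)
    (h1 : x * (a + b + c ^ 2 / b) + y * (b * c / a + c) = 0)
    (h2 : x * (1 / a + 1 / b + b / c ^ 2) + y * (a / (b * c) + 1 / c) = 0) :
    (-((b ^ 2 * c ^ 2) / (a ^ 2)) * (0) + (x * ((b ^ 2 * c ^ 2) / (a ^ 3)) + x * ((b * c ^ 2) / (a ^ 2)) + x * (b ^ 3 / (a ^ 2)) - x * (b ^ 2 / (a)) + x * (a) + y * ((b * c) / (a)))) + 0 = (-(b / (a)) * (x * (b) + x * (a) + y * ((b * c) / (a))) + (x * (b) + x * (a))) := by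
  have h : (-((b ^ 2 * c ^ 2) / (a ^ 2)) * (0) + (x * ((b ^ 2 * c ^ 2) / (a ^ 3)) + x * ((b * c ^ 2) / (a ^ 2)) + x * (b ^ 3 / (a ^ 2)) - x * (b ^ 2 / (a)) + x * (a) + y * ((b * c) / (a)))) + 0 - (-(b / (a)) * (x * (b) + x * (a) + y * ((b * c) / (a))) + (x * (b) + x * (a))) =
      (0) * (x * (a + b + c ^ 2 / b) + y * (b * c / a + c)) + ((-1 : ℂ) * (-((b ^ 2 * c ^ 2) / (a ^ 2)))) * (x * (1 / a + 1 / b + b / c ^ 2) + y * (a / (b * c) + 1 / c)) := by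
    field_simp
    ring
  rw [h1, h2] at h
  linear_combination h

private theorem HPN1_t9 (x y : ℂ) {a b c : ℂ} (ha : a ≠ 0) (hb : b ≠ 0) (hc : c ≠ 0)
    (h1 : x * (a + b + c ^ 2 / b) + y * (b * c / a + c) = 0)
    (h2 : x * (1 / a + 1 / b + b / c ^ 2) + y * (a / (b * c) + 1 / c) = 0) :
    (-((b ^ 2 * c ^ 2) / (a ^ 2)) * (x * (1 / (a)) + x * (1 / (b)) + x * (b / (c ^ 2)) + y * (a / (b * c))) + (x * ((b ^ 2 * c ^ 2) / (a ^ 3)) + x * ((b * c ^ 2) / (a ^ 2)) + x * (b ^ 3 / (a ^ 2)) - x * (b ^ 2 / (a)) + x * (a) + y * ((b * c) / (a)))) + 0 = (-(b / (a)) * (x * (b) + x * (a)) + (x * (b) + x * (a))) := by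
  have h : (-((b ^ 2 * c ^ 2) / (a ^ 2)) * (x * (1 / (a)) + x * (1 / (b)) + x * (b / (c ^ 2)) + y * (a / (b * c))) + (x * ((b ^ 2 * c ^ 2) / (a ^ 3)) + x * ((b * c ^ 2) / (a ^ 2)) + x * (b ^ 3 / (a ^ 2)) - x * (b ^ 2 / (a)) + x * (a) + y * ((b * c) / (a)))) + 0 - (-(b / (a)) * (x * (b) + x * (a)) + (x * (b) + x * (a))) =
      (0) * (x * (a + b + c ^ 2 / b) + y * (b * c / a + c)) + (0) * (x * (1 / a + 1 / b + b / c ^ 2) + y * (a / (b * c) + 1 / c)) := by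
    field_simp
    ring
  rw [h1, h2] at h
  linear_combination h

private theorem HPN1_s10 (x y : ℂ) {a b c : ℂ} (ha : a ≠ 0) (hb : b ≠ 0) (hc : c ≠ 0)
    (h1 : x * (a + b + c ^ 2 / b) + y * (b * c / a + c) = 0)
    (h2 : x * (1 / a + 1 / b + b / c ^ 2) + y * (a / (b * c) + 1 / c) = 0) :
    (-((b * c ^ 2) / (a)) * (x * (1 / (a)) + x * (1 / (b))) + (x * ((b * c ^ 2) / (a ^ 2)) + x * (c ^ 2 / (a)) - x * (c ^ 2 / (b)) - x * (b) - y * ((b * c) / (a)))) + (x * (c ^ 2 / (b)) + 2 * (x * (b)) + x * (a) + 2 * (y * ((b * c) / (a)))) = (-(b / (a)) * (x * (c ^ 2 / (b)) + x * (b) + x * (a) + y * ((b * c) / (a))) + (x * (b) + x * (a))) := by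
  have h : (-((b * c ^ 2) / (a)) * (x * (1 / (a)) + x * (1 / (b))) + (x * ((b * c ^ 2) / (a ^ 2)) + x * (c ^ 2 / (a)) - x * (c ^ 2 / (b)) - x * (b) - y * ((b * c) / (a)))) + (x * (c ^ 2 / (b)) + 2 * (x * (b)) + x * (a) + 2 * (y * ((b * c) / (a)))) - (-(b / (a)) * (x * (c ^ 2 / (b)) + x * (b) + x * (a) + y * ((b * c) / (a))) + (x * (b) + x * (a))) =
      ((-1 : ℂ) * (-(b / (a)))) * (x * (a + b + c ^ 2 / b) + y * (b * c / a + c)) + (0) * (x * (1 / a + 1 / b + b / c ^ 2) + y * (a / (b * c) + 1 / c)) := by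
    field_simp
    ring
  rw [h1, h2] at h
  linear_combination h

private theorem HPN1_t10 (x y : ℂ) {a b c : ℂ} (ha : a ≠ 0) (hb : b ≠ 0) (hc : c ≠ 0)
    (h1 : x * (a + b + c ^ 2 / b) + y * (b * c / a + c) = 0)
    (h2 : x * (1 / a + 1 / b + b / c ^ 2) + y * (a / (b * c) + 1 / c) = 0) :
    (-((b * c ^ 2) / (a)) * (x * (1 / (a))) + (x * ((b * c ^ 2) / (a ^ 2)) + x * (c ^ 2 / (a)) - x * (c ^ 2 / (b)) - x * (b) - y * ((b * c) / (a)))) + (x * (c ^ 2 / (b)) + 2 * (x * (b)) + x * (a) + 2 * (y * ((b * c) / (a)))) = (-(b / (a)) * (x * (b) + x * (a) + y * ((b * c) / (a))) + (x * (b) + x * (a))) := by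
  have h : (-((b * c ^ 2) / (a)) * (x * (1 / (a))) + (x * ((b * c ^ 2) / (a ^ 2)) + x * (c ^ 2 / (a)) - x * (c ^ 2 / (b)) - x * (b) - y * ((b * c) / (a)))) + (x * (c ^ 2 / (b)) + 2 * (x * (b)) + x * (a) + 2 * (y * ((b * c) / (a)))) - (-(b / (a)) * (x * (b) + x * (a) + y * ((b * c) / (a))) + (x * (b) + x * (a))) =
      ((-1 : ℂ) * (-(b / (a)))) * (x * (a + b + c ^ 2 / b) + y * (b * c / a + c)) + (0) * (x * (1 / a + 1 / b + b / c ^ 2) + y * (a / (b * c) + 1 / c)) := by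
    field_simp
    ring
  rw [h1, h2] at h
  linear_combination h

private theorem HPN1_s11 (x y : ℂ) {a b c : ℂ} (ha : a ≠ 0) (hb : b ≠ 0) (hc : c ≠ 0)
    (h1 : x * (a + b + c ^ 2 / b) + y * (b * c / a + c) = 0)
    (h2 : x * (1 / a + 1 / b + b / c ^ 2) + y * (a / (b * c) + 1 / c) = 0) :
    (((b ^ 2 * c ^ 2) / (a ^ 2)) * (x * (1 / (a)) + x * (1 / (b))) + (- x * ((b ^ 2 * c ^ 2) / (a ^ 3)) + x * (c ^ 2 / (a)) - x * (c ^ 2 / (b)) - x * (b) - y * ((b * c) / (a)))) + 0 = (-((b * c ^ 2) / (a)) * (0) + (x * ((b * c ^ 2) / (a ^ 2)) + x * (c ^ 2 / (a)) - x * (c ^ 2 / (b)) - x * (b) - y * ((b * c) / (a)))) := by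
  have h : (((b ^ 2 * c ^ 2) / (a ^ 2)) * (x * (1 / (a)) + x * (1 / (b))) + (- x * ((b ^ 2 * c ^ 2) / (a ^ 3)) + x * (c ^ 2 / (a)) - x * (c ^ 2 / (b)) - x * (b) - y * ((b * c) / (a)))) + 0 - (-((b * c ^ 2) / (a)) * (0) + (x * ((b * c ^ 2) / (a ^ 2)) + x * (c ^ 2 / (a)) - x * (c ^ 2 / (b)) - x * (b) - y * ((b * c) / (a)))) =
      (0) * (x * (a + b + c ^ 2 / b) + y * (b * c / a + c)) + (0) * (x * (1 / a + 1 / b + b / c ^ 2) + y * (a / (b * c) + 1 / c)) := by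
    field_simp
    ring
  rw [h1, h2] at h
  linear_combination h

private theorem HPN1_t11 (x y : ℂ) {a b c : ℂ} (ha : a ≠ 0) (hb : b ≠ 0) (hc : c ≠ 0)
    (h1 : x * (a + b + c ^ 2 / b) + y * (b * c / a + c) = 0)
    (h2 : x * (1 / a + 1 / b + b / c ^ 2) + y * (a / (b * c) + 1 / c) = 0) :
    (((b ^ 2 * c ^ 2) / (a ^ 2)) * (x * (1 / (a))) + (- x * ((b ^ 2 * c ^ 2) / (a ^ 3)) + x * (c ^ 2 / (a)) - x * (c ^ 2 / (b)) - x * (b) - y * ((b * c) / (a)))) + 0 = (-((b * c ^ 2) / (a)) * (x * (1 / (a))) + (x * ((b * c ^ 2) / (a ^ 2)) + x * (c ^ 2 / (a)) - x * (c ^ 2 / (b)) - x * (b) - y * ((b * c) / (a)))) := by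
  have h : (((b ^ 2 * c ^ 2) / (a ^ 2)) * (x * (1 / (a))) + (- x * ((b ^ 2 * c ^ 2) / (a ^ 3)) + x * (c ^ 2 / (a)) - x * (c ^ 2 / (b)) - x * (b) - y * ((b * c) / (a)))) + 0 - (-((b * c ^ 2) / (a)) * (x * (1 / (a))) + (x * ((b * c ^ 2) / (a ^ 2)) + x * (c ^ 2 / (a)) - x * (c ^ 2 / (b)) - x * (b) - y * ((b * c) / (a)))) =
      (0) * (x * (a + b + c ^ 2 / b) + y * (b * c / a + c)) + (0) * (x * (1 / a + 1 / b + b / c ^ 2) + y * (a / (b * c) + 1 / c)) := by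
    field_simp
    ring
  rw [h1, h2] at h
  linear_combination h

private theorem HPN1_s12 (x y : ℂ) {a b c : ℂ} (ha : a ≠ 0) (hb : b ≠ 0) (hc : c ≠ 0)
    (h1 : x * (a + b + c ^ 2 / b) + y * (b * c / a + c) = 0)
    (h2 : x * (1 / a + 1 / b + b / c ^ 2) + y * (a / (b * c) + 1 / c) = 0) :
    (((b ^ 2 * c ^ 2) / (a ^ 2)) * (x * (1 / (a)) + x * (1 / (b)) + y * (a / (b * c))) + (- x * ((b ^ 2 * c ^ 2) / (a ^ 3)) + x * (c ^ 2 / (a)) - x * (c ^ 2 / (b)) - x * (b) - y * ((b * c) / (a)))) + 0 = (-((b * c ^ 2) / (a)) * (x * (1 / (a)) + x * (1 / (b)) + x * (b / (c ^ 2)) + y * (a / (b * c))) + (x * ((b * c ^ 2) / (a ^ 2)) + x * (c ^ 2 / (a)) - x * (c ^ 2 / (b)) - x * (b) - y * ((b * c) / (a)))) := by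
  have h : (((b ^ 2 * c ^ 2) / (a ^ 2)) * (x * (1 / (a)) + x * (1 / (b)) + y * (a / (b * c))) + (- x * ((b ^ 2 * c ^ 2) / (a ^ 3)) + x * (c ^ 2 / (a)) - x * (c ^ 2 / (b)) - x * (b) - y * ((b * c) / (a)))) + 0 - (-((b * c ^ 2) / (a)) * (x * (1 / (a)) + x * (1 / (b)) + x * (b / (c ^ 2)) + y * (a / (b * c))) + (x * ((b * c ^ 2) / (a ^ 2)) + x * (c ^ 2 / (a)) - x * (c ^ 2 / (b)) - x * (b) - y * ((b * c) / (a)))) =
      (0) * (x * (a + b + c ^ 2 / b) + y * (b * c / a + c)) + ((-1 : ℂ) * (-((b * c ^ 2) / (a)))) * (x * (1 / a + 1 / b + b / c ^ 2) + y * (a / (b * c) + 1 / c)) := by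
    field_simp
    ring
  rw [h1, h2] at h
  linear_combination h

private theorem HPN1_t12 (x y : ℂ) {a b c : ℂ} (ha : a ≠ 0) (hb : b ≠ 0) (hc : c ≠ 0)
    (h1 : x * (a + b + c ^ 2 / b) + y * (b * c / a + c) = 0)
    (h2 : x * (1 / a + 1 / b + b / c ^ 2) + y * (a / (b * c) + 1 / c) = 0) :
    (((b ^ 2 * c ^ 2) / (a ^ 2)) * (x * (1 / (a)) + x * (1 / (b))) + (- x * ((b ^ 2 * c ^ 2) / (a ^ 3)) + x * (c ^ 2 / (a)) - x * (c ^ 2 / (b)) - x * (b) - y * ((b * c) / (a)))) + 0 = (-((b * c ^ 2) / (a)) * (0) + (x * ((b * c ^ 2) / (a ^ 2)) + x * (c ^ 2 / (a)) - x * (c ^ 2 / (b)) - x * (b) - y * ((b * c) / (a)))) := by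
  have h : (((b ^ 2 * c ^ 2) / (a ^ 2)) * (x * (1 / (a)) + x * (1 / (b))) + (- x * ((b ^ 2 * c ^ 2) / (a ^ 3)) + x * (c ^ 2 / (a)) - x * (c ^ 2 / (b)) - x * (b) - y * ((b * c) / (a)))) + 0 - (-((b * c ^ 2) / (a)) * (0) + (x * ((b * c ^ 2) / (a ^ 2)) + x * (c ^ 2 / (a)) - x * (c ^ 2 / (b)) - x * (b) - y * ((b * c) / (a)))) =
      (0) * (x * (a + b + c ^ 2 / b) + y * (b * c / a + c)) + (0) * (x * (1 / a + 1 / b + b / c ^ 2) + y * (a / (b * c) + 1 / c)) := by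
    field_simp
    ring
  rw [h1, h2] at h
  linear_combination h

private theorem HPN1_s13 (x y : ℂ) {a b c : ℂ} (ha : a ≠ 0) (hb : b ≠ 0) (hc : c ≠ 0)
    (h1 : x * (a + b + c ^ 2 / b) + y * (b * c / a + c) = 0)
    (h2 : x * (1 / a + 1 / b + b / c ^ 2) + y * (a / (b * c) + 1 / c) = 0) :
    (-((b ^ 2 * c ^ 2) / (a ^ 2)) * (x * (1 / (a)) + x * (1 / (b))) + (x * ((b ^ 2 * c ^ 2) / (a ^ 3)) + x * ((b * c ^ 2) / (a ^ 2)) + x * (b ^ 3 / (a ^ 2)) - x * (b ^ 2 / (a)) + x * (a) + y * ((b * c) / (a)))) + (- x * ((b * c ^ 2) / (a ^ 2)) - x * (b ^ 3 / (a ^ 2)) - x * (c ^ 2 / (a)) + x * (b ^ 2 / (a)) + x * (c ^ 2 / (b)) + x * (b)) = (((b * c ^ 2) / (a)) * (0) + (- x * ((b * c ^ 2) / (a ^ 2)) - x * (c ^ 2 / (a)) + x * (c ^ 2 / (b)) + x * (b) + x * (a) + y * ((b * c) / (a)))) := by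
  have h : (-((b ^ 2 * c ^ 2) / (a ^ 2)) * (x * (1 / (a)) + x * (1 / (b))) + (x * ((b ^ 2 * c ^ 2) / (a ^ 3)) + x * ((b * c ^ 2) / (a ^ 2)) + x * (b ^ 3 / (a ^ 2)) - x * (b ^ 2 / (a)) + x * (a) + y * ((b * c) / (a)))) + (- x * ((b * c ^ 2) / (a ^ 2)) - x * (b ^ 3 / (a ^ 2)) - x * (c ^ 2 / (a)) + x * (b ^ 2 / (a)) + x * (c ^ 2 / (b)) + x * (b)) - (((b * c ^ 2) / (a)) * (0) + (- x * ((b * c ^ 2) / (a ^ 2)) - x * (c ^ 2 / (a)) + x * (c ^ 2 / (b)) + x * (b) + x * (a) + y * ((b * c) / (a)))) =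
      (0) * (x * (a + b + c ^ 2 / b) + y * (b * c / a + c)) + (0) * (x * (1 / a + 1 / b + b / c ^ 2) + y * (a / (b * c) + 1 / c)) := by
    field_simp
    ring
  rw [h1, h2] at h
  linear_combination h

private theorem HPN1_t13 (x y : ℂ) {a b c : ℂ} (ha : a ≠ 0) (hb : b ≠ 0) (hc : c ≠ 0)
    (h1 : x * (a + b + c ^ 2 / b) + y * (b * c / a + c) = 0)
    (h2 : x * (1 / a + 1 / b + b / c ^ 2) + y * (a / (b * c) + 1 / c) = 0) :
    (-((b ^ 2 * c ^ 2) / (a ^ 2)) * (x * (1 / (a))) + (x * ((b ^ 2 * c ^ 2) / (a ^ 3)) + x * ((b * c ^ 2) / (a ^ 2)) + x * (b ^ 3 / (a ^ 2)) - x * (b ^ 2 / (a)) + x * (a) + y * ((b * c) / (a)))) + (- x * ((b * c ^ 2) / (a ^ 2)) - x * (b ^ 3 / (a ^ 2)) - x * (c ^ 2 / (a)) + x * (b ^ 2 / (a)) + x * (c ^ 2 / (b)) + x * (b)) = (((b * c ^ 2) / (a)) * (x * (1 / (a))) + (- x * ((b * c ^ 2) / (a ^ 2)) - x * (c ^ 2 / (a)) + x * (c ^ 2 / (b)) +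 x * (b) + x * (a) + y * ((b * c) / (a)))) := by
  have h : (-((b ^ 2 * c ^ 2) / (a ^ 2)) * (x * (1 / (a))) + (x * ((b ^ 2 * c ^ 2) / (a ^ 3)) + x * ((b * c ^ 2) / (a ^ 2)) + x * (b ^ 3 / (a ^ 2)) - x * (b ^ 2 / (a)) + x * (a) + y * ((b * c) / (a)))) + (- x * ((b * c ^ 2) / (a ^ 2)) - x * (b ^ 3 / (a ^ 2)) - x * (c ^ 2 / (a)) + x * (b ^ 2 / (a)) + x * (c ^ 2 / (b)) + x * (b)) - (((b * c ^ 2) / (a)) * (x * (1 / (a))) + (- x * ((b * c ^ 2) / (a ^ 2)) - x * (c ^ 2 / (a)) + x * (c ^ 2 / (b)) + x * (b) + x * (a) + y * ((b * c) / (a)))) =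
      (0) * (x * (a + b + c ^ 2 / b) + y * (b * c / a + c)) + (0) * (x * (1 / a + 1 / b + b / c ^ 2) + y * (a / (b * c) + 1 / c)) := by
    field_simp
    ring
  rw [h1, h2] at h
  linear_combination h

private theorem HPN1_s14 (x y : ℂ) {a b c : ℂ} (ha : a ≠ 0) (hb : b ≠ 0) (hc : c ≠ 0)
    (h1 : x * (a + b + c ^ 2 / b) + y * (b * c / a + c) = 0)
    (h2 : x * (1 / a + 1 / b + b / c ^ 2) + y * (a / (b * c) + 1 / c) = 0) :
    ((b / (a)) * (x * (b) + x * (a) + y * ((b * c) / (a))) + (- x * (b))) + (x * (c ^ 2 / (b)) + 2 * (x * (b)) + x * (a) + 2 * (y * ((b * c) / (a)))) = (((b * c ^ 2) / (a)) * (x * (1 / (a))) + (- x * ((b * c ^ 2) / (a ^ 2)) - x * (c ^ 2 / (a)) + x * (c ^ 2 / (b)) + x * (b) + x * (a) + y * ((b * c) / (a)))) := by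
  have h : ((b / (a)) * (x * (b) + x * (a) + y * ((b * c) / (a))) + (- x * (b))) + (x * (c ^ 2 / (b)) + 2 * (x * (b)) + x * (a) + 2 * (y * ((b * c) / (a)))) - (((b * c ^ 2) / (a)) * (x * (1 / (a))) + (- x * ((b * c ^ 2) / (a ^ 2)) - x * (c ^ 2 / (a)) + x * (c ^ 2 / (b)) + x * (b) + x * (a) + y * ((b * c) / (a)))) =
      ((-1 : ℂ) * (-(b / (a)))) * (x * (a + b + c ^ 2 / b) + y * (b * c / a + c)) + (0) * (x * (1 / a + 1 / b + b / c ^ 2) + y * (a / (b * c) + 1 / c)) := by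
    field_simp
    ring
  rw [h1, h2] at h
  linear_combination h

private theorem HPN1_t14 (x y : ℂ) {a b c : ℂ} (ha : a ≠ 0) (hb : b ≠ 0) (hc : c ≠ 0)
    (h1 : x * (a + b + c ^ 2 / b) + y * (b * c / a + c) = 0)
    (h2 : x * (1 / a + 1 / b + b / c ^ 2) + y * (a / (b * c) + 1 / c) = 0) :
    ((b / (a)) * (x * (c ^ 2 / (b)) + x * (b) + x * (a) + y * ((b * c) / (a))) + (- x * (b))) + (x * (c ^ 2 / (b)) + 2 * (x * (b)) + x * (a) + 2 * (y * ((b * c) / (a)))) = (((b * c ^ 2) / (a)) * (x * (1 / (a)) + x * (1 / (b))) + (- x * ((b * c ^ 2) / (a ^ 2)) - x * (c ^ 2 / (a)) + x * (c ^ 2 / (b)) + x * (b) + x * (a) + y * ((b * c) / (a)))) := by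
  have h : ((b / (a)) * (x * (c ^ 2 / (b)) + x * (b) + x * (a) + y * ((b * c) / (a))) + (- x * (b))) + (x * (c ^ 2 / (b)) + 2 * (x * (b)) + x * (a) + 2 * (y * ((b * c) / (a)))) - (((b * c ^ 2) / (a)) * (x * (1 / (a)) + x * (1 / (b))) + (- x * ((b * c ^ 2) / (a ^ 2)) - x * (c ^ 2 / (a)) + x * (c ^ 2 / (b)) + x * (b) + x * (a) + y * ((b * c) / (a)))) =
      ((-1 : ℂ) * (-(b / (a)))) * (x * (a + b + c ^ 2 / b) + y * (b * c / a + c)) + (0) * (x * (1 / a + 1 / b + b / c ^ 2) + y * (a / (b * c) + 1 / c)) := by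
    field_simp
    ring
  rw [h1, h2] at h
  linear_combination h

private theorem HPN1_s15 (x y : ℂ) {a b c : ℂ} (ha : a ≠ 0) (hb : b ≠ 0) (hc : c ≠ 0)
    (h1 : x * (a + b + c ^ 2 / b) + y * (b * c / a + c) = 0)
    (h2 : x * (1 / a + 1 / b + b / c ^ 2) + y * (a / (b * c) + 1 / c) = 0) :
    ((b / (a)) * (x * (a)) + (- x * (b))) + 0 = (((b * c ^ 2) / (a)) * (x * (1 / (a)) + x * (1 / (b)) + y * (a / (b * c))) + (- x * ((b * c ^ 2) / (a ^ 2)) - x * (c ^ 2 / (a)) + x * (c ^ 2 / (b)) + x * (b) + x * (a) + y * ((b * c) / (a)))) := by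
  have h : ((b / (a)) * (x * (a)) + (- x * (b))) + 0 - (((b * c ^ 2) / (a)) * (x * (1 / (a)) + x * (1 / (b)) + y * (a / (b * c))) + (- x * ((b * c ^ 2) / (a ^ 2)) - x * (c ^ 2 / (a)) + x * (c ^ 2 / (b)) + x * (b) + x * (a) + y * ((b * c) / (a)))) =
      ((-1 : ℂ) * ((1))) * (x * (a + b + c ^ 2 / b) + y * (b * c / a + c)) + (0) * (x * (1 / a + 1 / b + b / c ^ 2) + y * (a / (b * c) + 1 / c)) := by
    field_simp
    ring
  rw [h1, h2] at h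
  linear_combination h

private theorem HPN1_t15 (x y : ℂ) {a b c : ℂ} (ha : a ≠ 0) (hb : b ≠ 0) (hc : c ≠ 0)
    (h1 : x * (a + b + c ^ 2 / b) + y * (b * c / a + c) = 0)
    (h2 : x * (1 / a + 1 / b + b / c ^ 2) + y * (a / (b * c) + 1 / c) = 0) :
    ((b / (a)) * (x * (b) + x * (a)) + (- x * (b))) + 0 = (((b * c ^ 2) / (a)) * (x * (1 / (a)) + x * (1 / (b)) + x * (b / (c ^ 2)) + y * (a / (b * c))) + (- x * ((b * c ^ 2) / (a ^ 2)) - x * (c ^ 2 / (a)) + x * (c ^ 2 / (b)) + x * (b) + x * (a) + y * ((b * c) / (a)))) := by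
  have h : ((b / (a)) * (x * (b) + x * (a)) + (- x * (b))) + 0 - (((b * c ^ 2) / (a)) * (x * (1 / (a)) + x * (1 / (b)) + x * (b / (c ^ 2)) + y * (a / (b * c))) + (- x * ((b * c ^ 2) / (a ^ 2)) - x * (c ^ 2 / (a)) + x * (c ^ 2 / (b)) + x * (b) + x * (a) + y * ((b * c) / (a)))) =
      ((-1 : ℂ) * ((1))) * (x * (a + b + c ^ 2 / b) + y * (b * c / a + c)) + (0) * (x * (1 / a + 1 / b + b / c ^ 2) + y * (a / (b * c) + 1 / c)) := by
    field_simp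
    ring
  rw [h1, h2] at h
  linear_combination h

private theorem HPN1_s16 (x y : ℂ) {a b c : ℂ} (ha : a ≠ 0) (hb : b ≠ 0) (hc : c ≠ 0)
    (h1 : x * (a + b + c ^ 2 / b) + y * (b * c / a + c) = 0)
    (h2 : x * (1 / a + 1 / b + b / c ^ 2) + y * (a / (b * c) + 1 / c) = 0) :
    (-((b ^ 2 * c ^ 2) / (a ^ 2)) * (x * (1 / (a)) + x * (1 / (b)) + y * (a / (b * c))) + (x * ((b ^ 2 * c ^ 2) / (a ^ 3)) + x * ((b * c ^ 2) / (a ^ 2)) + x * (b ^ 3 / (a ^ 2)) - x * (b ^ 2 / (a)) + x * (a) + y * ((b * c) / (a)))) + (- x * ((b * c ^ 2) / (a ^ 2)) - x * (b ^ 3 / (a ^ 2)) - x * (c ^ 2 / (a)) + x * (b ^ 2 / (a)) + x * (c ^ 2 / (b)) + x * (b)) = (((b * c ^ 2) / (a)) * (x * (1 / (a)) + x * (1 / (b)) + x * (b / (c ^ 2)) + y * (a / (b * c))) + (- x * ((b * c ^ 2) / (a ^ 2)) - x * (c ^ 2 / (a)) + x * (c ^ 2 / (b)) + x * (b) + x * (a) + y * ((b * c) / (a)))) := by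
  have h : (-((b ^ 2 * c ^ 2) / (a ^ 2)) * (x * (1 / (a)) + x * (1 / (b)) + y * (a / (b * c))) + (x * ((b ^ 2 * c ^ 2) / (a ^ 3)) + x * ((b * c ^ 2) / (a ^ 2)) + x * (b ^ 3 / (a ^ 2)) - x * (b ^ 2 / (a)) + x * (a) + y * ((b * c) / (a)))) + (- x * ((b * c ^ 2) / (a ^ 2)) - x * (b ^ 3 / (a ^ 2)) - x * (c ^ 2 / (a)) + x * (b ^ 2 / (a)) + x * (c ^ 2 / (b)) + x * (b)) - (((b * c ^ 2) / (a)) * (x * (1 / (a)) + x * (1 / (b)) + x * (b / (c ^ 2)) + y * (a / (b * c))) + (- x * ((b * c ^ 2) / (a ^ 2)) - x * (c ^ 2 / (a)) + x * (c ^ 2 / (b)) + x * (b) + x * (a) + y * ((b * c) / (a)))) =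
      (0) * (x * (a + b + c ^ 2 / b) + y * (b * c / a + c)) + ((1 : ℂ) * (-((b * c ^ 2) / (a)))) * (x * (1 / a + 1 / b + b / c ^ 2) + y * (a / (b * c) + 1 / c)) := by
    field_simp
    ring
  rw [h1, h2] at h
  linear_combination h

private theorem HPN1_t16 (x y : ℂ) {a b c : ℂ} (ha : a ≠ 0) (hb : b ≠ 0) (hc : c ≠ 0)
    (h1 : x * (a + b + c ^ 2 / b) + y * (b * c / a + c) = 0)
    (h2 : x * (1 / a + 1 / b + b / c ^ 2) + y * (a / (b * c) + 1 / c) = 0) :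
    (-((b ^ 2 * c ^ 2) / (a ^ 2)) * (x * (1 / (a)) + x * (1 / (b))) + (x * ((b ^ 2 * c ^ 2) / (a ^ 3)) + x * ((b * c ^ 2) / (a ^ 2)) + x * (b ^ 3 / (a ^ 2)) - x * (b ^ 2 / (a)) + x * (a) + y * ((b * c) / (a)))) + (- x * ((b * c ^ 2) / (a ^ 2)) - x * (b ^ 3 / (a ^ 2)) - x * (c ^ 2 / (a)) + x * (b ^ 2 / (a)) + x * (c ^ 2 / (b)) + x * (b)) = (((b * c ^ 2) / (a)) * (0) + (- x * ((b * c ^ 2) / (a ^ 2)) - x * (c ^ 2 / (a)) + x * (c ^ 2 / (b)) + x * (b) + x * (a) + y * ((b * c) / (a)))) := by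
  have h : (-((b ^ 2 * c ^ 2) / (a ^ 2)) * (x * (1 / (a)) + x * (1 / (b))) + (x * ((b ^ 2 * c ^ 2) / (a ^ 3)) + x * ((b * c ^ 2) / (a ^ 2)) + x * (b ^ 3 / (a ^ 2)) - x * (b ^ 2 / (a)) + x * (a) + y * ((b * c) / (a)))) + (- x * ((b * c ^ 2) / (a ^ 2)) - x * (b ^ 3 / (a ^ 2)) - x * (c ^ 2 / (a)) + x * (b ^ 2 / (a)) + x * (c ^ 2 / (b)) + x * (b)) - (((b * c ^ 2) / (a)) * (0) + (- x * ((b * c ^ 2) / (a ^ 2)) - x * (c ^ 2 / (a)) + x * (c ^ 2 / (b)) + x * (b) + x * (a) + y * ((b * c) / (a)))) =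
      (0) * (x * (a + b + c ^ 2 / b) + y * (b * c / a + c)) + (0) * (x * (1 / a + 1 / b + b / c ^ 2) + y * (a / (b * c) + 1 / c)) := by
    field_simp
    ring
  rw [h1, h2] at h
  linear_combination h

private theorem HPN1_s17 (x y : ℂ) {a b c : ℂ} (ha : a ≠ 0) (hb : b ≠ 0) (hc : c ≠ 0)
    (h1 : x * (a + b + c ^ 2 / b) + y * (b * c / a + c) = 0)
    (h2 : x * (1 / a + 1 / b + b / c ^ 2) + y * (a / (b * c) + 1 / c) = 0) :
    (((b ^ 2 * c ^ 2) / (a ^ 2)) * (0) + (- x * ((b ^ 2 * c ^ 2) / (a ^ 3)) + x * (c ^ 2 / (a)) - x * (c ^ 2 / (b)) - x * (b) - y * ((b * c) / (a)))) + (- x * ((b * c ^ 2) / (a ^ 2)) - x * (b ^ 3 / (a ^ 2)) - x * (c ^ 2 / (a)) + x * (b ^ 2 / (a)) + x * (c ^ 2 / (b)) + x * (b)) = ((b / (a)) * (x * (b) + x * (a) + y * ((b * c) / (a))) + (- x * (b))) := by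
  have h : (((b ^ 2 * c ^ 2) / (a ^ 2)) * (0) + (- x * ((b ^ 2 * c ^ 2) / (a ^ 3)) + x * (c ^ 2 / (a)) - x * (c ^ 2 / (b)) - x * (b) - y * ((b * c) / (a)))) + (- x * ((b * c ^ 2) / (a ^ 2)) - x * (b ^ 3 / (a ^ 2)) - x * (c ^ 2 / (a)) + x * (b ^ 2 / (a)) + x * (c ^ 2 / (b)) + x * (b)) - ((b / (a)) * (x * (b) + x * (a) + y * ((b * c) / (a))) + (- x * (b))) =
      (0) * (x * (a + b + c ^ 2 / b) + y * (b * c / a + c)) + ((1 : ℂ) * (-((b ^ 2 * c ^ 2) / (a ^ 2)))) * (x * (1 / a + 1 / b + b / c ^ 2) + y * (a / (b * c) + 1 / c)) := by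
    field_simp
    ring
  rw [h1, h2] at h
  linear_combination h

private theorem HPN1_t17 (x y : ℂ) {a b c : ℂ} (ha : a ≠ 0) (hb : b ≠ 0) (hc : c ≠ 0)
    (h1 : x * (a + b + c ^ 2 / b) + y * (b * c / a + c) = 0)
    (h2 : x * (1 / a + 1 / b + b / c ^ 2) + y * (a / (b * c) + 1 / c) = 0) :
    (((b ^ 2 * c ^ 2) / (a ^ 2)) * (x * (1 / (a)) + x * (1 / (b)) + x * (b / (c ^ 2)) + y * (a / (b * c))) + (- x * ((b ^ 2 * c ^ 2) / (a ^ 3)) + x * (c ^ 2 / (a)) - x * (c ^ 2 / (b)) - x * (b) - y * ((b * c) / (a)))) + (- x * ((b * c ^ 2) / (a ^ 2)) - x * (b ^ 3 / (a ^ 2)) - x * (c ^ 2 / (a)) + x * (b ^ 2 / (a)) + x * (c ^ 2 / (b)) + x * (b)) = ((b / (a)) * (x * (b) + x * (a)) + (- x * (b))) := by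
  have h : (((b ^ 2 * c ^ 2) / (a ^ 2)) * (x * (1 / (a)) + x * (1 / (b)) + x * (b / (c ^ 2)) + y * (a / (b * c))) + (- x * ((b ^ 2 * c ^ 2) / (a ^ 3)) + x * (c ^ 2 / (a)) - x * (c ^ 2 / (b)) - x * (b) - y * ((b * c) / (a)))) + (- x * ((b * c ^ 2) / (a ^ 2)) - x * (b ^ 3 / (a ^ 2)) - x * (c ^ 2 / (a)) + x * (b ^ 2 / (a)) + x * (c ^ 2 / (b)) + x * (b)) - ((b / (a)) * (x * (b) + x * (a)) + (- x * (b))) =
      (0) * (x * (a + b + c ^ 2 / b) + y * (b * c / a + c)) + (0) * (x * (1 / a + 1 / b + b / c ^ 2) + y * (a / (b * c) + 1 / c)) := by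
    field_simp
    ring
  rw [h1, h2] at h
  linear_combination h

private theorem HPN1_s18 (x y : ℂ) {a b c : ℂ} (ha : a ≠ 0) (hb : b ≠ 0) (hc : c ≠ 0)
    (h1 : x * (a + b + c ^ 2 / b) + y * (b * c / a + c) = 0)
    (h2 : x * (1 / a + 1 / b + b / c ^ 2) + y * (a / (b * c) + 1 / c) = 0) :
    (((b ^ 2 * c ^ 2) / (a ^ 2)) * (x * (1 / (a))) + (- x * ((b ^ 2 * c ^ 2) / (a ^ 3)) + x * (c ^ 2 / (a)) - x * (c ^ 2 / (b)) - x * (b) - y * ((b * c) / (a)))) + (x * (c ^ 2 / (b)) + 2 * (x * (b)) + x * (a) + 2 * (y * ((b * c) / (a)))) = (-((b ^ 2 * c ^ 2) / (a ^ 2)) * (0) + (x * ((b ^ 2 * c ^ 2) / (a ^ 3)) + x * ((b * c ^ 2) / (a ^ 2)) + x * (b ^ 3 / (a ^ 2)) - x * (b ^ 2 / (a)) + x * (a) + y * ((b * c) / (a)))) := by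
  have h : (((b ^ 2 * c ^ 2) / (a ^ 2)) * (x * (1 / (a))) + (- x * ((b ^ 2 * c ^ 2) / (a ^ 3)) + x * (c ^ 2 / (a)) - x * (c ^ 2 / (b)) - x * (b) - y * ((b * c) / (a)))) + (x * (c ^ 2 / (b)) + 2 * (x * (b)) + x * (a) + 2 * (y * ((b * c) / (a)))) - (-((b ^ 2 * c ^ 2) / (a ^ 2)) * (0) + (x * ((b ^ 2 * c ^ 2) / (a ^ 3)) + x * ((b * c ^ 2) / (a ^ 2)) + x * (b ^ 3 / (a ^ 2)) - x * (b ^ 2 / (a)) + x * (a) + y * ((b * c) / (a)))) =
      ((-1 : ℂ) * (-(b / (a)))) * (x * (a + b + c ^ 2 / b) + y * (b * c / a + c)) + ((1 : ℂ) * (-((b ^ 2 * c ^ 2) / (a ^ 2)))) * (x * (1 / a + 1 / b + b / c ^ 2) + y * (a / (b * c) + 1 / c)) := by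
    field_simp
    ring
  rw [h1, h2] at h
  linear_combination h

private theorem HPN1_t18 (x y : ℂ) {a b c : ℂ} (ha : a ≠ 0) (hb : b ≠ 0) (hc : c ≠ 0)
    (h1 : x * (a + b + c ^ 2 / b) + y * (b * c / a + c) = 0)
    (h2 : x * (1 / a + 1 / b + b / c ^ 2) + y * (a / (b * c) + 1 / c) = 0) :
    (((b ^ 2 * c ^ 2) / (a ^ 2)) * (0) + (- x * ((b ^ 2 * c ^ 2) / (a ^ 3)) + x * (c ^ 2 / (a)) - x * (c ^ 2 / (b)) - x * (b) - y * ((b * c) / (a)))) + (x * (c ^ 2 / (b)) + 2 * (x * (b)) + x * (a) + 2 * (y * ((b * c) / (a)))) = (-((b ^ 2 * c ^ 2) / (a ^ 2)) * (x * (1 / (a))) + (x * ((b ^ 2 * c ^ 2) / (a ^ 3)) + x * ((b * c ^ 2) / (a ^ 2)) + x * (b ^ 3 / (a ^ 2)) - x * (b ^ 2 / (a)) + x * (a) + y * ((b * c) / (a)))) := by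
  have h : (((b ^ 2 * c ^ 2) / (a ^ 2)) * (0) + (- x * ((b ^ 2 * c ^ 2) / (a ^ 3)) + x * (c ^ 2 / (a)) - x * (c ^ 2 / (b)) - x * (b) - y * ((b * c) / (a)))) + (x * (c ^ 2 / (b)) + 2 * (x * (b)) + x * (a) + 2 * (y * ((b * c) / (a)))) - (-((b ^ 2 * c ^ 2) / (a ^ 2)) * (x * (1 / (a))) + (x * ((b ^ 2 * c ^ 2) / (a ^ 3)) + x * ((b * c ^ 2) / (a ^ 2)) + x * (b ^ 3 / (a ^ 2)) - x * (b ^ 2 / (a)) + x * (a) + y * ((b * c) / (a)))) =
      ((-1 : ℂ) * (-(b / (a)))) * (x * (a + b + c ^ 2 / b) + y * (b * c / a + c)) + ((1 : ℂ) * (-((b ^ 2 * c ^ 2) / (a ^ 2)))) * (x * (1 / a + 1 / b + b / c ^ 2) + y * (a / (b * c) + 1 / c)) := by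
    field_simp
    ring
  rw [h1, h2] at h
  linear_combination h

private theorem HPN1_s19 (x y : ℂ) {a b c : ℂ} (ha : a ≠ 0) (hb : b ≠ 0) (hc : c ≠ 0)
    (h1 : x * (a + b + c ^ 2 / b) + y * (b * c / a + c) = 0)
    (h2 : x * (1 / a + 1 / b + b / c ^ 2) + y * (a / (b * c) + 1 / c) = 0) :
    (((b ^ 2 * c ^ 2) / (a ^ 2)) * (x * (1 / (a)) + x * (1 / (b)) + x * (b / (c ^ 2)) + y * (a / (b * c))) + (- x * ((b ^ 2 * c ^ 2) / (a ^ 3)) + x * (c ^ 2 / (a)) - x * (c ^ 2 / (b)) - x * (b) - y * ((b * c) / (a)))) + 0 = (-((b ^ 2 * c ^ 2) / (a ^ 2)) * (x * (1 / (a)) + x * (1 / (b)) + y * (a / (b * c))) + (x * ((b ^ 2 * c ^ 2) / (a ^ 3)) + x * ((b * c ^ 2) / (a ^ 2)) + x * (b ^ 3 / (a ^ 2)) - x * (b ^ 2 / (a)) + x * (a) + y * ((b * c) / (a)))) := by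
  have h : (((b ^ 2 * c ^ 2) / (a ^ 2)) * (x * (1 / (a)) + x * (1 / (b)) + x * (b / (c ^ 2)) + y * (a / (b * c))) + (- x * ((b ^ 2 * c ^ 2) / (a ^ 3)) + x * (c ^ 2 / (a)) - x * (c ^ 2 / (b)) - x * (b) - y * ((b * c) / (a)))) + 0 - (-((b ^ 2 * c ^ 2) / (a ^ 2)) * (x * (1 / (a)) + x * (1 / (b)) + y * (a / (b * c))) + (x * ((b ^ 2 * c ^ 2) / (a ^ 3)) + x * ((b * c ^ 2) / (a ^ 2)) + x * (b ^ 3 / (a ^ 2)) - x * (b ^ 2 / (a)) + x * (a) + y * ((b * c) / (a)))) =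
      ((-1 : ℂ) * ((1))) * (x * (a + b + c ^ 2 / b) + y * (b * c / a + c)) + ((-1 : ℂ) * (-((b * c ^ 2) / (a)))) * (x * (1 / a + 1 / b + b / c ^ 2) + y * (a / (b * c) + 1 / c)) := by
    field_simp
    ring
  rw [h1, h2] at h
  linear_combination h

private theorem HPN1_t19 (x y : ℂ) {a b c : ℂ} (ha : a ≠ 0) (hb : b ≠ 0) (hc : c ≠ 0)
    (h1 : x * (a + b + c ^ 2 / b) + y * (b * c / a + c) = 0)
    (h2 : x * (1 / a + 1 / b + b / c ^ 2) + y * (a / (b * c) + 1 / c) = 0) :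
    (((b ^ 2 * c ^ 2) / (a ^ 2)) * (x * (1 / (a)) + x * (1 / (b)) + y * (a / (b * c))) + (- x * ((b ^ 2 * c ^ 2) / (a ^ 3)) + x * (c ^ 2 / (a)) - x * (c ^ 2 / (b)) - x * (b) - y * ((b * c) / (a)))) + 0 = (-((b ^ 2 * c ^ 2) / (a ^ 2)) * (x * (1 / (a)) + x * (1 / (b)) + x * (b / (c ^ 2)) + y * (a / (b * c))) + (x * ((b ^ 2 * c ^ 2) / (a ^ 3)) + x * ((b * c ^ 2) / (a ^ 2)) + x * (b ^ 3 / (a ^ 2)) - x * (b ^ 2 / (a)) + x * (a) + y * ((b * c) / (a)))) := by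
  have h : (((b ^ 2 * c ^ 2) / (a ^ 2)) * (x * (1 / (a)) + x * (1 / (b)) + y * (a / (b * c))) + (- x * ((b ^ 2 * c ^ 2) / (a ^ 3)) + x * (c ^ 2 / (a)) - x * (c ^ 2 / (b)) - x * (b) - y * ((b * c) / (a)))) + 0 - (-((b ^ 2 * c ^ 2) / (a ^ 2)) * (x * (1 / (a)) + x * (1 / (b)) + x * (b / (c ^ 2)) + y * (a / (b * c))) + (x * ((b ^ 2 * c ^ 2) / (a ^ 3)) + x * ((b * c ^ 2) / (a ^ 2)) + x * (b ^ 3 / (a ^ 2)) - x * (b ^ 2 / (a)) + x * (a) + y * ((b * c) / (a)))) =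
      ((-1 : ℂ) * ((1))) * (x * (a + b + c ^ 2 / b) + y * (b * c / a + c)) + ((-1 : ℂ) * (-((b * c ^ 2) / (a)))) * (x * (1 / a + 1 / b + b / c ^ 2) + y * (a / (b * c) + 1 / c)) := by
    field_simp
    ring
  rw [h1, h2] at h
  linear_combination h

private theorem HPN1_h1 (x y : ℂ) {a b c : ℂ} (ha : a ≠ 0) (hb : b ≠ 0) (hc : c ≠ 0)
    (h1 : x * (a + b + c ^ 2 / b) + y * (b * c / a + c) = 0)
    (h2 : x * (1 / a + 1 / b + b / c ^ 2) + y * (a / (b * c) + 1 / c) = 0) :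
    (((1) * (x * (c ^ 2 / (b)) + x * (b) + x * (a) + y * ((b * c) / (a))) + (0)) - ((1) * (x * (b) + x * (a) + y * ((b * c) / (a))) + (0))) + ((-(b / (a)) * (x * (c ^ 2 / (b)) + x * (b) + x * (a) + y * ((b * c) / (a))) + (x * (b) + x * (a))) - (-(b / (a)) * (x * (b) + x * (a) + y * ((b * c) / (a))) + (x * (b) + x * (a)))) + ((((b * c ^ 2) / (a)) * (x * (1 / (a))) + (- x * ((b * c ^ 2) / (a ^ 2)) - x * (c ^ 2 / (a)) + x * (c ^ 2 / (b)) + x * (b) + x * (a) + y * ((b * c) / (a)))) - (((b * c ^ 2) / (a)) * (x * (1 / (a)) + x * (1 / (b))) + (- x * ((b * c ^ 2) / (a ^ 2)) - x * (c ^ 2 / (a)) + x * (c ^ 2 / (b)) + x * (b) + x * (a) + y * ((b * c) / (a))))) + ((-((b ^ 2 * c ^ 2) / (a ^ 2)) * (0) + (x * ((b ^ 2 * c ^ 2) / (a ^ 3)) + x * ((b * c ^ 2) / (a ^ 2)) + x * (b ^ 3 / (a ^ 2)) - x * (b ^ 2 / (a)) + x * (a) + y * ((b * c) / (a)))) - (-((b ^ 2 * c ^ 2) / (a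 ^ 2)) * (x * (1 / (a))) + (x * ((b ^ 2 * c ^ 2) / (a ^ 3)) + x * ((b * c ^ 2) / (a ^ 2)) + x * (b ^ 3 / (a ^ 2)) - x * (b ^ 2 / (a)) + x * (a) + y * ((b * c) / (a))))) = (- x * ((b * c ^ 2) / (a ^ 2)) - x * (b ^ 3 / (a ^ 2)) - x * (c ^ 2 / (a)) + x * (b ^ 2 / (a)) + x * (c ^ 2 / (b)) + x * (b)) := by
  have h : (((1) * (x * (c ^ 2 / (b)) + x * (b) + x * (a) + y * ((b * c) / (a))) + (0)) - ((1) * (x * (b) + x * (a) + y * ((b * c) / (a))) + (0))) + ((-(b / (a)) * (x * (c ^ 2 / (b)) + x * (b) + x * (a) + y * ((b * c) / (a))) + (x * (b) + x * (a))) - (-(b / (a)) * (x * (b) + x * (a) + y * ((b * c) / (a))) + (x * (b) + x * (a)))) + ((((b * c ^ 2) / (a)) * (x * (1 / (a))) + (- x * ((b * c ^ 2) / (a ^ 2)) - x * (c ^ 2 / (a)) + x * (c ^ 2 / (b)) + x * (b) + x * (a) + y * ((b * c) / (a)))) - (((b * c ^ 2) / (a)) * (x * (1 / (a)) + x * (1 / (b))) + (- x * ((b * c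 ^ 2) / (a ^ 2)) - x * (c ^ 2 / (a)) + x * (c ^ 2 / (b)) + x * (b) + x * (a) + y * ((b * c) / (a))))) + ((-((b ^ 2 * c ^ 2) / (a ^ 2)) * (0) + (x * ((b ^ 2 * c ^ 2) / (a ^ 3)) + x * ((b * c ^ 2) / (a ^ 2)) + x * (b ^ 3 / (a ^ 2)) - x * (b ^ 2 / (a)) + x * (a) + y * ((b * c) / (a)))) - (-((b ^ 2 * c ^ 2) / (a ^ 2)) * (x * (1 / (a))) + (x * ((b ^ 2 * c ^ 2) / (a ^ 3)) + x * ((b * c ^ 2) / (a ^ 2)) + x * (b ^ 3 / (a ^ 2)) - x * (b ^ 2 / (a)) + x * (a) + y * ((b * c) / (a))))) - (- x * ((b * c ^ 2) / (a ^ 2)) - x * (b ^ 3 / (a ^ 2)) - x * (c ^ 2 / (a)) + x * (b ^ 2 / (a)) + x * (c ^ 2 / (b)) + x * (b)) =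
      ((1 : ℂ) * (-(b / (a)))) * (x * (a + b + c ^ 2 / b) + y * (b * c / a + c)) + ((-1 : ℂ) * (-((b ^ 2 * c ^ 2) / (a ^ 2)))) * (x * (1 / a + 1 / b + b / c ^ 2) + y * (a / (b * c) + 1 / c)) := by
    field_simp
    ring
  rw [h1, h2] at h
  linear_combination h

private theorem HPN1_h2 (x y : ℂ) {a b c : ℂ} (ha : a ≠ 0) (hb : b ≠ 0) (hc : c ≠ 0)
    (h1 : x * (a + b + c ^ 2 / b) + y * (b * c / a + c) = 0)
    (h2 : x * (1 / a + 1 / b + b / c ^ 2) + y * (a / (b * c) + 1 / c) = 0) :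
    ((((b * c ^ 2) / (a)) * (0) + (- x * ((b * c ^ 2) / (a ^ 2)) - x * (c ^ 2 / (a)) + x * (c ^ 2 / (b)) + x * (b) + x * (a) + y * ((b * c) / (a)))) - (((b * c ^ 2) / (a)) * (x * (1 / (a))) + (- x * ((b * c ^ 2) / (a ^ 2)) - x * (c ^ 2 / (a)) + x * (c ^ 2 / (b)) + x * (b) + x * (a) + y * ((b * c) / (a))))) + ((((b * c ^ 2) / (a)) * (x * (1 / (a)) + x * (1 / (b)) + x * (b / (c ^ 2)) + y * (a / (b * c))) + (- x * ((b * c ^ 2) / (a ^ 2)) - x * (c ^ 2 / (a)) + x * (c ^ 2 / (b)) + x * (b) + x * (a) + y * ((b * c) / (a)))) - (((b * c ^ 2) / (a)) * (0) + (- x * ((b * c ^ 2) / (a ^ 2)) - x * (c ^ 2 / (a)) + x * (c ^ 2 / (b)) + x * (b) + x * (a) + y * ((b * c) / (a))))) + (((b / (a)) * (x * (b) + x * (a) + y * ((b * c) / (a))) + (- x * (b))) - ((b / (a)) * (x * (b) + x * (a)) + (- x * (b)))) = -(x * (c ^ 2 / (b)) + 2 * (x * (b)) + x * (a) + 2 * (y * ((b * c) / (a))))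 := by
  have h : ((((b * c ^ 2) / (a)) * (0) + (- x * ((b * c ^ 2) / (a ^ 2)) - x * (c ^ 2 / (a)) + x * (c ^ 2 / (b)) + x * (b) + x * (a) + y * ((b * c) / (a)))) - (((b * c ^ 2) / (a)) * (x * (1 / (a))) + (- x * ((b * c ^ 2) / (a ^ 2)) - x * (c ^ 2 / (a)) + x * (c ^ 2 / (b)) + x * (b) + x * (a) + y * ((b * c) / (a))))) + ((((b * c ^ 2) / (a)) * (x * (1 / (a)) + x * (1 / (b)) + x * (b / (c ^ 2)) + y * (a / (b * c))) + (- x * ((b * c ^ 2) / (a ^ 2)) - x * (c ^ 2 / (a)) + x * (c ^ 2 / (b)) + x * (b) + x * (a) + y * ((b * c) / (a)))) - (((b * c ^ 2) / (a)) * (0) + (- x * ((b * c ^ 2) / (a ^ 2)) - x * (c ^ 2 / (a)) + x * (c ^ 2 / (b)) + x * (b) + x * (a) + y * ((b * c) / (a))))) + (((b / (a)) * (x * (b) + x * (a) + y * ((b * c) / (a))) + (- x * (b))) - ((b / (a)) * (x * (b) + x * (a)) + (- x * (b)))) - -(x * (c ^ 2 / (b)) + 2 * (x * (b)) + x * (a) + 2 * (y *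 ((b * c) / (a)))) =
      ((1 : ℂ) * ((1)) + (-1 : ℂ) * (-(b / (a)))) * (x * (a + b + c ^ 2 / b) + y * (b * c / a + c)) + (0) * (x * (1 / a + 1 / b + b / c ^ 2) + y * (a / (b * c) + 1 / c)) := by
    field_simp
    ring
  rw [h1, h2] at h
  linear_combination h

private theorem HPN1_dir (a b z v : ℂ) (h : ‖a‖ = 1) :
    (Mo.mk a (b - a * v) false h).app z = a * (z - v) + b := by
  unfold Mo.app Mo.lin
  simp only [Bool.false_eq_true, if_false]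
  ring

private theorem HPN1_ref (a b z v : ℂ) (h : ‖a‖ = 1) :
    (Mo.mk a (b - a * v) true h).app z = a * ((starRingEnd ℂ) z - v) + b := by
  unfold Mo.app Mo.lin
  simp only [if_true]
  ring

private noncomputable def HPN1_g (x y a b c v v' : ℂ) (ha : ‖a‖ = 1) (hb : ‖b‖ = 1) (hc : ‖c‖ = 1) : Fin 8 → Mo :=
  ![
    Mo.mk ((1)) ((0) - ((1)) * v) false (by simp [ha, hb, hc]),
    Mo.mk (-(1)) ((x * (a)) - (-(1)) * v) false (by simp [ha, hb, hc]),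
    Mo.mk (-(b / (a))) ((x * (b) + x * (a)) - (-(b / (a))) * v) false (by simp [ha, hb, hc]),
    Mo.mk (-((b * c ^ 2) / (a))) ((x * ((b * c ^ 2) / (a ^ 2)) + x * (c ^ 2 / (a)) - x * (c ^ 2 / (b)) - x * (b) - y * ((b * c) / (a))) - (-((b * c ^ 2) / (a))) * v') true (by simp [ha, hb, hc]),
    Mo.mk (((b * c ^ 2) / (a))) ((- x * ((b * c ^ 2) / (a ^ 2)) - x * (c ^ 2 / (a)) + x * (c ^ 2 / (b)) + x * (b) + x * (a) + y * ((b * c) / (a))) - (((b * c ^ 2) / (a))) * v') true (by simp [ha, hb, hc]),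
    Mo.mk ((b / (a))) ((- x * (b)) - ((b / (a))) * v) false (by simp [ha, hb, hc]),
    Mo.mk (-((b ^ 2 * c ^ 2) / (a ^ 2))) ((x * ((b ^ 2 * c ^ 2) / (a ^ 3)) + x * ((b * c ^ 2) / (a ^ 2)) + x * (b ^ 3 / (a ^ 2)) - x * (b ^ 2 / (a)) + x * (a) + y * ((b * c) / (a))) - (-((b ^ 2 * c ^ 2) / (a ^ 2))) * v') true (by simp [ha, hb, hc]),
    Mo.mk (((b ^ 2 * c ^ 2) / (a ^ 2))) ((- x * ((b ^ 2 * c ^ 2) / (a ^ 3)) + x * (c ^ 2 / (a)) - x * (c ^ 2 / (b)) - x * (b) - y * ((b * c) / (a))) - (((b ^ 2 * c ^ 2) / (a ^ 2))) * v') true (by simp [ha, hb, hc])]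

private def HPN1_tb : List ((Fin 8 × ZMod 5) × (Fin 8 × ZMod 5) × ℤ × ℤ) :=
  [((0, 0), (1, 0), (0, 0)),
   ((0, 1), (2, 0), (0, 0)),
   ((0, 2), (2, 4), (0, 0)),
   ((0, 3), (1, 3), (1, 0)),
   ((0, 4), (4, 2), (0, 0)),
   ((1, 1), (5, 0), (0, 0)),
   ((1, 2), (5, 4), (0, 0)),
   ((1, 4), (3, 2), (0, 0)),
   ((2, 1), (3, 3), (0, 0)),
   ((2, 2), (6, 4), (0, 0)),
   ((2, 3), (3, 1), (1, 0)),
   ((3, 0), (7, 1), (0, 0)),
   ((3, 4), (7, 2), (0, 0)),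
   ((4, 0), (6, 1), (0, 1)),
   ((4, 1), (5, 3), (1, 0)),
   ((4, 3), (5, 1), (0, 0)),
   ((4, 4), (6, 2), (0, 1)),
   ((5, 2), (7, 4), (0, 1)),
   ((6, 0), (7, 0), (1, 0)),
   ((6, 3), (7, 3), (0, 0))]

theorem specN1 : SpecN1 := by
  rintro P ⟨hcc, h01, h13, h24, hA⟩ hB
  have n0 := P.dr_ne 0
  have n1 := P.dr_ne 1
  have n2 := P.dr_ne 2
  have n3 := P.dr_ne 3
  have n4 := P.dr_ne 4
  have e0 := P.exp_ang 0
  have e2 := P.exp_ang 2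
  have e3 := P.exp_ang 3
  have e4 := P.exp_ang 4
  rw [show (0 : ZMod 5) - 1 = 4 by decide] at e0
  rw [show (2 : ZMod 5) - 1 = 1 by decide] at e2
  rw [show (3 : ZMod 5) - 1 = 2 by decide] at e3
  rw [show (4 : ZMod 5) - 1 = 3 by decide] at e4
  have hA' : exp ((P.ang 0 : ℂ) * Complex.I) * exp ((P.ang 2 : ℂ) * Complex.I) = 1 := by
    rw [← Complex.exp_add, ← add_mul]
    have : ((P.ang 0 : ℂ) + (P.ang 2 : ℂ)) = 2 * Real.pi := by exact_mod_cast hA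
    rw [this]
    exact Complex.exp_two_pi_mul_I
  have hB' : exp ((P.ang 2 : ℂ) * Complex.I) * exp ((P.ang 3 : ℂ) * Complex.I) *
      (exp ((P.ang 4 : ℂ) * Complex.I) * exp ((P.ang 4 : ℂ) * Complex.I)) = 1 := by
    rw [← Complex.exp_add, ← Complex.exp_add, ← Complex.exp_add, ← add_mul, ← add_mul, ← add_mul]
    have : ((P.ang 2 : ℂ) + (P.ang 3 : ℂ) + ((P.ang 4 : ℂ) + (P.ang 4 : ℂ))) = 2 * Real.pi := by
      rw [← two_mul (P.ang 4 : ℂ)]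
      exact_mod_cast hB
    rw [this]
    exact Complex.exp_two_pi_mul_I
  rw [e0, e2] at hA'
  rw [e2, e3, e4] at hB'
  have r2 : P.dr 2 = P.dr 1 * P.dr 4 / P.dr 0 := by
    field_simp at hA' ⊢
    linear_combination -hA'
  have r3 : P.dr 3 = P.dr 4 ^ 2 / P.dr 1 := by
    field_simp at hB' ⊢
    linear_combination hB'
  have v1 := P.dr_len 0
  have v2 := P.dr_len 1
  have v3 := P.dr_len 2
  have v4 := P.dr_len 3
  have v5 := P.dr_len 4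
  rw [show (0 : ZMod 5) + 1 = 1 by decide] at v1
  rw [show (1 : ZMod 5) + 1 = 2 by decide, ← h01] at v2
  rw [show (2 : ZMod 5) + 1 = 3 by decide, r2] at v3
  rw [show (3 : ZMod 5) + 1 = 4 by decide, ← h13, ← h01, r3] at v4
  rw [show (4 : ZMod 5) + 1 = 0 by decide, ← h24] at v5
  have a0 := P.dr_norm 0
  have a1 := P.dr_norm 1
  have a4 := P.dr_norm 4
  have c0 := P.dr_conj 0
  have c1 := P.dr_conj 1
  have c4 := P.dr_conj 4
  generalize P.dr 0 = a at *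
  generalize P.dr 1 = b at *
  generalize P.dr 4 = c at *
  obtain ⟨X, hX⟩ : ∃ X : ℝ, P.len 0 = X := ⟨_, rfl⟩
  obtain ⟨Y, hY⟩ : ∃ Y : ℝ, P.len 2 = Y := ⟨_, rfl⟩
  rw [hX] at v1 v2 v4
  rw [hY] at v3 v5
  have hC : (X : ℂ) * (a + b + c ^ 2 / b) + (Y : ℂ) * (b * c / a + c) = 0 := by
    linear_combination -v1 - v2 - v3 - v4 - v5
  have hC' : (X : ℂ) * (1 / a + 1 / b + b / c ^ 2) + (Y : ℂ) * (a / (b * c) + 1 / c) = 0 := by
    have h := congrArg (starRingEnd ℂ) hC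
    simp only [map_add, map_mul, map_div₀, map_pow, conj_ofReal, map_zero, c0, c1, c4] at h
    rw [← h]
    field_simp
  have w1 : P.vertex 1 = P.vertex 0 + ((X : ℂ) * (a)) := by
    linear_combination v1
  have w2 : P.vertex 2 = P.vertex 0 + ((X : ℂ) * (b) + (X : ℂ) * (a)) := by
    linear_combination v1 + v2
  have w3 : P.vertex 3 = P.vertex 0 + ((X : ℂ) * (b) + (X : ℂ) * (a) + (Y : ℂ) * ((b * c) / (a))) := by
    linear_combination v1 + v2 + v3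
  have w4 : P.vertex 4 = P.vertex 0 + ((X : ℂ) * (c ^ 2 / (b)) + (X : ℂ) * (b) + (X : ℂ) * (a) + (Y : ℂ) * ((b * c) / (a))) := by
    linear_combination v1 + v2 + v3 + v4
  have q1 : (starRingEnd ℂ) (P.vertex 1) = (starRingEnd ℂ) (P.vertex 0) + ((X : ℂ) * (1 / (a))) := by
    rw [w1]
    simp only [map_add, map_mul, map_div₀, map_pow, conj_ofReal, c0, c1, c4]
    field_simp
  have q2 : (starRingEnd ℂ) (P.vertex 2) = (starRingEnd ℂ) (P.vertex 0) + ((X : ℂ) * (1 / (a)) + (X : ℂ) * (1 / (b))) := by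
    rw [w2]
    simp only [map_add, map_mul, map_div₀, map_pow, conj_ofReal, c0, c1, c4]
    field_simp
    ring
  have q3 : (starRingEnd ℂ) (P.vertex 3) = (starRingEnd ℂ) (P.vertex 0) + ((X : ℂ) * (1 / (a)) + (X : ℂ) * (1 / (b)) + (Y : ℂ) * (a / (b * c))) := by
    rw [w3]
    simp only [map_add, map_mul, map_div₀, map_pow, conj_ofReal, c0, c1, c4]
    field_simp
    ring
  have q4 : (starRingEnd ℂ) (P.vertex 4) = (starRingEnd ℂ) (P.vertex 0) + ((X : ℂ) * (1 / (a)) + (X : ℂ) * (1 / (b)) + (X : ℂ) * (b / (c ^ 2)) + (Y : ℂ) * (a / (b * c))) := by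
    rw [w4]
    simp only [map_add, map_mul, map_div₀, map_pow, conj_ofReal, c0, c1, c4]
    field_simp
    ring
  set g : Fin 8 → Mo := HPN1_g X Y a b c (P.vertex 0) ((starRingEnd ℂ) (P.vertex 0)) a0 a1 a4 with hg
  have G0 : ∀ z, (g 0).app z = ((1)) * (z - P.vertex 0) + (0) :=
    fun z => HPN1_dir _ _ z _ _
  have G1 : ∀ z, (g 1).app z = (-(1)) * (z - P.vertex 0) + ((X : ℂ) * (a)) :=
    fun z => HPN1_dir _ _ z _ _
  have G2 : ∀ z, (g 2).app z = (-(b / (a))) * (z - P.vertex 0) + ((X : ℂ) * (b) + (X : ℂ) * (a)) :=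
    fun z => HPN1_dir _ _ z _ _
  have G3 : ∀ z, (g 3).app z = (-((b * c ^ 2) / (a))) * ((starRingEnd ℂ) z - (starRingEnd ℂ) (P.vertex 0)) + ((X : ℂ) * ((b * c ^ 2) / (a ^ 2)) + (X : ℂ) * (c ^ 2 / (a)) - (X : ℂ) * (c ^ 2 / (b)) - (X : ℂ) * (b) - (Y : ℂ) * ((b * c) / (a))) :=
    fun z => HPN1_ref _ _ z _ _
  have G4 : ∀ z, (g 4).app z = (((b * c ^ 2) / (a))) * ((starRingEnd ℂ) z - (starRingEnd ℂ) (P.vertex 0)) + (- (X : ℂ) * ((b * c ^ 2) / (a ^ 2)) - (X : ℂ) * (c ^ 2 / (a)) + (X : ℂ) * (c ^ 2 / (b)) + (X : ℂ) * (b) + (X : ℂ) * (a) + (Y : ℂ) * ((b * c) / (a))) :=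
    fun z => HPN1_ref _ _ z _ _
  have G5 : ∀ z, (g 5).app z = ((b / (a))) * (z - P.vertex 0) + (- (X : ℂ) * (b)) :=
    fun z => HPN1_dir _ _ z _ _
  have G6 : ∀ z, (g 6).app z = (-((b ^ 2 * c ^ 2) / (a ^ 2))) * ((starRingEnd ℂ) z - (starRingEnd ℂ) (P.vertex 0)) + ((X : ℂ) * ((b ^ 2 * c ^ 2) / (a ^ 3)) + (X : ℂ) * ((b * c ^ 2) / (a ^ 2)) + (X : ℂ) * (b ^ 3 / (a ^ 2)) - (X : ℂ) * (b ^ 2 / (a)) + (X : ℂ) * (a) + (Y : ℂ) * ((b * c) / (a))) :=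
    fun z => HPN1_ref _ _ z _ _
  have G7 : ∀ z, (g 7).app z = (((b ^ 2 * c ^ 2) / (a ^ 2))) * ((starRingEnd ℂ) z - (starRingEnd ℂ) (P.vertex 0)) + (- (X : ℂ) * ((b ^ 2 * c ^ 2) / (a ^ 3)) + (X : ℂ) * (c ^ 2 / (a)) - (X : ℂ) * (c ^ 2 / (b)) - (X : ℂ) * (b) - (Y : ℂ) * ((b * c) / (a))) :=
    fun z => HPN1_ref _ _ z _ _
  have l0 : lv ((X : ℂ) * (c ^ 2 / (b)) + 2 * ((X : ℂ) * (b)) + (X : ℂ) * (a) + 2 * ((Y : ℂ) * ((b * c) / (a)))) (- (X : ℂ) * ((b * c ^ 2) / (a ^ 2)) - (X : ℂ) * (b ^ 3 / (a ^ 2)) - (X : ℂ) * (c ^ 2 / (a)) + (X : ℂ) * (b ^ 2 / (a)) + (X : ℂ) * (c ^ 2 / (b)) + (X : ℂ) * (b)) (0, 0) = 0 := by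
    simp [lv]
  have l1 : lv ((X : ℂ) * (c ^ 2 / (b)) + 2 * ((X : ℂ) * (b)) + (X : ℂ) * (a) + 2 * ((Y : ℂ) * ((b * c) / (a)))) (- (X : ℂ) * ((b * c ^ 2) / (a ^ 2)) - (X : ℂ) * (b ^ 3 / (a ^ 2)) - (X : ℂ) * (c ^ 2 / (a)) + (X : ℂ) * (b ^ 2 / (a)) + (X : ℂ) * (c ^ 2 / (b)) + (X : ℂ) * (b)) (1, 0) = ((X : ℂ) * (c ^ 2 / (b)) + 2 * ((X : ℂ) * (b)) + (X : ℂ) * (a) + 2 * ((Y : ℂ) * ((b * c) / (a)))) := by
    simp [lv]
  have l2 : lv ((X : ℂ) * (c ^ 2 / (b)) + 2 * ((X : ℂ) * (b)) + (X : ℂ) * (a) + 2 * ((Y : ℂ) * ((b * c) / (a)))) (- (X : ℂ) * ((b * c ^ 2) / (a ^ 2)) - (X : ℂ) * (b ^ 3 / (a ^ 2)) - (X : ℂ) * (c ^ 2 / (a)) + (X : ℂ) * (b ^ 2 / (a)) + (X : ℂ) * (c ^ 2 / (b)) + (X : ℂ) * (b)) (0, 1) = (- (X : ℂ) * ((b * c ^ 2) / (a ^ 2)) - (X : ℂ) * (b ^ 3 / (a ^ 2)) - (X : ℂ) * (c ^ 2 / (a)) + (X : ℂ) * (b ^ 2 / (a)) + (X : ℂ) * (c ^ 2 / (b)) + (X : ℂ) * (b)) := by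
    simp [lv]
  refine kcrit P hcc (by norm_num) g ((X : ℂ) * (c ^ 2 / (b)) + 2 * ((X : ℂ) * (b)) + (X : ℂ) * (a) + 2 * ((Y : ℂ) * ((b * c) / (a)))) (- (X : ℂ) * ((b * c ^ 2) / (a ^ 2)) - (X : ℂ) * (b ^ 3 / (a ^ 2)) - (X : ℂ) * (c ^ 2 / (a)) + (X : ℂ) * (b ^ 2 / (a)) + (X : ℂ) * (c ^ 2 / (b)) + (X : ℂ) * (b)) HPN1_tb (by decide +kernel) rfl ?_ ?_ ?_
  · intro e he
    simp only [HPN1_tb, List.mem_cons, List.not_mem_nil, or_false] at he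
    rcases he with rfl | rfl | rfl | rfl | rfl | rfl | rfl | rfl | rfl | rfl | rfl | rfl | rfl | rfl | rfl | rfl | rfl | rfl | rfl | rfl
    · refine ⟨?_, ?_⟩
      · show (g 1).app (P.vertex 0) + lv _ _ (0, 0) = (g 0).app (P.vertex 1)
        rw [G1, G0, l0, w1]
        linear_combination HPN1_s0 (X : ℂ) (Y : ℂ) n0 n1 n4 hC hC'
      · show (g 1).app (P.vertex 1) + lv _ _ (0, 0) = (g 0).app (P.vertex 0)
        rw [G1, G0, l0, w1]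
        linear_combination HPN1_t0 (X : ℂ) (Y : ℂ) n0 n1 n4 hC hC'
    · refine ⟨?_, ?_⟩
      · show (g 2).app (P.vertex 0) + lv _ _ (0, 0) = (g 0).app (P.vertex 2)
        rw [G2, G0, l0, w2]
        linear_combination HPN1_s1 (X : ℂ) (Y : ℂ) n0 n1 n4 hC hC'
      · show (g 2).app (P.vertex 1) + lv _ _ (0, 0) = (g 0).app (P.vertex 1)
        rw [G2, G0, l0, w1]
        linear_combination HPN1_t1 (X : ℂ) (Y : ℂ) n0 n1 n4 hC hC'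
    · refine ⟨?_, ?_⟩
      · show (g 2).app (P.vertex 4) + lv _ _ (0, 0) = (g 0).app (P.vertex 3)
        rw [G2, G0, l0, w4, w3]
        linear_combination HPN1_s2 (X : ℂ) (Y : ℂ) n0 n1 n4 hC hC'
      · show (g 2).app (P.vertex 0) + lv _ _ (0, 0) = (g 0).app (P.vertex 2)
        rw [G2, G0, l0, w2]
        linear_combination HPN1_t2 (X : ℂ) (Y : ℂ) n0 n1 n4 hC hC'
    · refine ⟨?_, ?_⟩
      · show (g 1).app (P.vertex 3) + lv _ _ (1, 0) = (g 0).app (P.vertex 4)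
        rw [G1, G0, l1, w3, w4]
        linear_combination HPN1_s3 (X : ℂ) (Y : ℂ) n0 n1 n4 hC hC'
      · show (g 1).app (P.vertex 4) + lv _ _ (1, 0) = (g 0).app (P.vertex 3)
        rw [G1, G0, l1, w4, w3]
        linear_combination HPN1_t3 (X : ℂ) (Y : ℂ) n0 n1 n4 hC hC'
    · refine ⟨?_, ?_⟩
      · show (g 4).app (P.vertex 3) + lv _ _ (0, 0) = (g 0).app (P.vertex 0)
        rw [G4, G0, l0, q3]
        linear_combination HPN1_s4 (X : ℂ) (Y : ℂ) n0 n1 n4 hC hC'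
      · show (g 4).app (P.vertex 2) + lv _ _ (0, 0) = (g 0).app (P.vertex 4)
        rw [G4, G0, l0, q2, w4]
        linear_combination HPN1_t4 (X : ℂ) (Y : ℂ) n0 n1 n4 hC hC'
    · refine ⟨?_, ?_⟩
      · show (g 5).app (P.vertex 0) + lv _ _ (0, 0) = (g 1).app (P.vertex 2)
        rw [G5, G1, l0, w2]
        linear_combination HPN1_s5 (X : ℂ) (Y : ℂ) n0 n1 n4 hC hC'
      · show (g 5).app (P.vertex 1) + lv _ _ (0, 0) = (g 1).app (P.vertex 1)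
        rw [G5, G1, l0, w1]
        linear_combination HPN1_t5 (X : ℂ) (Y : ℂ) n0 n1 n4 hC hC'
    · refine ⟨?_, ?_⟩
      · show (g 5).app (P.vertex 4) + lv _ _ (0, 0) = (g 1).app (P.vertex 3)
        rw [G5, G1, l0, w4, w3]
        linear_combination HPN1_s6 (X : ℂ) (Y : ℂ) n0 n1 n4 hC hC'
      · show (g 5).app (P.vertex 0) + lv _ _ (0, 0) = (g 1).app (P.vertex 2)
        rw [G5, G1, l0, w2]
        linear_combination HPN1_t6 (X : ℂ) (Y : ℂ) n0 n1 n4 hC hC'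
    · refine ⟨?_, ?_⟩
      · show (g 3).app (P.vertex 3) + lv _ _ (0, 0) = (g 1).app (P.vertex 0)
        rw [G3, G1, l0, q3]
        linear_combination HPN1_s7 (X : ℂ) (Y : ℂ) n0 n1 n4 hC hC'
      · show (g 3).app (P.vertex 2) + lv _ _ (0, 0) = (g 1).app (P.vertex 4)
        rw [G3, G1, l0, q2, w4]
        linear_combination HPN1_t7 (X : ℂ) (Y : ℂ) n0 n1 n4 hC hC'
    · refine ⟨?_, ?_⟩
      · show (g 3).app (P.vertex 4) + lv _ _ (0, 0) = (g 2).app (P.vertex 2)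
        rw [G3, G2, l0, q4, w2]
        linear_combination HPN1_s8 (X : ℂ) (Y : ℂ) n0 n1 n4 hC hC'
      · show (g 3).app (P.vertex 3) + lv _ _ (0, 0) = (g 2).app (P.vertex 1)
        rw [G3, G2, l0, q3, w1]
        linear_combination HPN1_t8 (X : ℂ) (Y : ℂ) n0 n1 n4 hC hC'
    · refine ⟨?_, ?_⟩
      · show (g 6).app (P.vertex 0) + lv _ _ (0, 0) = (g 2).app (P.vertex 3)
        rw [G6, G2, l0, w3]
        linear_combination HPN1_s9 (X : ℂ) (Y : ℂ) n0 n1 n4 hC hC'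
      · show (g 6).app (P.vertex 4) + lv _ _ (0, 0) = (g 2).app (P.vertex 2)
        rw [G6, G2, l0, q4, w2]
        linear_combination HPN1_t9 (X : ℂ) (Y : ℂ) n0 n1 n4 hC hC'
    · refine ⟨?_, ?_⟩
      · show (g 3).app (P.vertex 2) + lv _ _ (1, 0) = (g 2).app (P.vertex 4)
        rw [G3, G2, l1, q2, w4]
        linear_combination HPN1_s10 (X : ℂ) (Y : ℂ) n0 n1 n4 hC hC'
      · show (g 3).app (P.vertex 1) + lv _ _ (1, 0) = (g 2).app (P.vertex 3)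
        rw [G3, G2, l1, q1, w3]
        linear_combination HPN1_t10 (X : ℂ) (Y : ℂ) n0 n1 n4 hC hC'
    · refine ⟨?_, ?_⟩
      · show (g 7).app (P.vertex 2) + lv _ _ (0, 0) = (g 3).app (P.vertex 0)
        rw [G7, G3, l0, q2]
        linear_combination HPN1_s11 (X : ℂ) (Y : ℂ) n0 n1 n4 hC hC'
      · show (g 7).app (P.vertex 1) + lv _ _ (0, 0) = (g 3).app (P.vertex 1)
        rw [G7, G3, l0, q1]
        linear_combination HPN1_t11 (X : ℂ) (Y : ℂ) n0 n1 n4 hC hC'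
    · refine ⟨?_, ?_⟩
      · show (g 7).app (P.vertex 3) + lv _ _ (0, 0) = (g 3).app (P.vertex 4)
        rw [G7, G3, l0, q3, q4]
        linear_combination HPN1_s12 (X : ℂ) (Y : ℂ) n0 n1 n4 hC hC'
      · show (g 7).app (P.vertex 2) + lv _ _ (0, 0) = (g 3).app (P.vertex 0)
        rw [G7, G3, l0, q2]
        linear_combination HPN1_t12 (X : ℂ) (Y : ℂ) n0 n1 n4 hC hC'
    · refine ⟨?_, ?_⟩
      · show (g 6).app (P.vertex 2) + lv _ _ (0, 1) = (g 4).app (P.vertex 0)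
        rw [G6, G4, l2, q2]
        linear_combination HPN1_s13 (X : ℂ) (Y : ℂ) n0 n1 n4 hC hC'
      · show (g 6).app (P.vertex 1) + lv _ _ (0, 1) = (g 4).app (P.vertex 1)
        rw [G6, G4, l2, q1]
        linear_combination HPN1_t13 (X : ℂ) (Y : ℂ) n0 n1 n4 hC hC'
    · refine ⟨?_, ?_⟩
      · show (g 5).app (P.vertex 3) + lv _ _ (1, 0) = (g 4).app (P.vertex 1)
        rw [G5, G4, l1, w3, q1]
        linear_combination HPN1_s14 (X : ℂ) (Y : ℂ) n0 n1 n4 hC hC'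
      · show (g 5).app (P.vertex 4) + lv _ _ (1, 0) = (g 4).app (P.vertex 2)
        rw [G5, G4, l1, w4, q2]
        linear_combination HPN1_t14 (X : ℂ) (Y : ℂ) n0 n1 n4 hC hC'
    · refine ⟨?_, ?_⟩
      · show (g 5).app (P.vertex 1) + lv _ _ (0, 0) = (g 4).app (P.vertex 3)
        rw [G5, G4, l0, w1, q3]
        linear_combination HPN1_s15 (X : ℂ) (Y : ℂ) n0 n1 n4 hC hC'
      · show (g 5).app (P.vertex 2) + lv _ _ (0, 0) = (g 4).app (P.vertex 4)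
        rw [G5, G4, l0, w2, q4]
        linear_combination HPN1_t15 (X : ℂ) (Y : ℂ) n0 n1 n4 hC hC'
    · refine ⟨?_, ?_⟩
      · show (g 6).app (P.vertex 3) + lv _ _ (0, 1) = (g 4).app (P.vertex 4)
        rw [G6, G4, l2, q3, q4]
        linear_combination HPN1_s16 (X : ℂ) (Y : ℂ) n0 n1 n4 hC hC'
      · show (g 6).app (P.vertex 2) + lv _ _ (0, 1) = (g 4).app (P.vertex 0)
        rw [G6, G4, l2, q2]
        linear_combination HPN1_t16 (X : ℂ) (Y : ℂ) n0 n1 n4 hC hC'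
    · refine ⟨?_, ?_⟩
      · show (g 7).app (P.vertex 0) + lv _ _ (0, 1) = (g 5).app (P.vertex 3)
        rw [G7, G5, l2, w3]
        linear_combination HPN1_s17 (X : ℂ) (Y : ℂ) n0 n1 n4 hC hC'
      · show (g 7).app (P.vertex 4) + lv _ _ (0, 1) = (g 5).app (P.vertex 2)
        rw [G7, G5, l2, q4, w2]
        linear_combination HPN1_t17 (X : ℂ) (Y : ℂ) n0 n1 n4 hC hC'
    · refine ⟨?_, ?_⟩
      · show (g 7).app (P.vertex 1) + lv _ _ (1, 0) = (g 6).app (P.vertex 0)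
        rw [G7, G6, l1, q1]
        linear_combination HPN1_s18 (X : ℂ) (Y : ℂ) n0 n1 n4 hC hC'
      · show (g 7).app (P.vertex 0) + lv _ _ (1, 0) = (g 6).app (P.vertex 1)
        rw [G7, G6, l1, q1]
        linear_combination HPN1_t18 (X : ℂ) (Y : ℂ) n0 n1 n4 hC hC'
    · refine ⟨?_, ?_⟩
      · show (g 7).app (P.vertex 4) + lv _ _ (0, 0) = (g 6).app (P.vertex 3)
        rw [G7, G6, l0, q4, q3]
        linear_combination HPN1_s19 (X : ℂ) (Y : ℂ) n0 n1 n4 hC hC'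
      · show (g 7).app (P.vertex 3) + lv _ _ (0, 0) = (g 6).app (P.vertex 4)
        rw [G7, G6, l0, q3, q4]
        linear_combination HPN1_t19 (X : ℂ) (Y : ℂ) n0 n1 n4 hC hC'
  · simp only [HPN1_tb, List.map_cons, List.map_nil, List.sum_cons, List.sum_nil, Int.cast_zero, Int.cast_one,
      zero_mul, one_mul, zero_add, add_zero]
    have t3 : ttgt P g (0, 3) - tsrc P g (0, 3) = (g 0).app (P.vertex 4) - (g 0).app (P.vertex 3) := rfl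
    have t10 : ttgt P g (2, 3) - tsrc P g (2, 3) = (g 2).app (P.vertex 4) - (g 2).app (P.vertex 3) := rfl
    have t14 : ttgt P g (4, 1) - tsrc P g (4, 1) = (g 4).app (P.vertex 1) - (g 4).app (P.vertex 2) := rfl
    have t18 : ttgt P g (6, 0) - tsrc P g (6, 0) = (g 6).app (P.vertex 0) - (g 6).app (P.vertex 1) := rfl
    rw [t3, t10, t14, t18]
    simp only [G0, G2, G4, G6, w4, w3, q1, q2]
    linear_combination HPN1_h1 (X : ℂ) (Y : ℂ) n0 n1 n4 hC hC'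
  · simp only [HPN1_tb, List.map_cons, List.map_nil, List.sum_cons, List.sum_nil, Int.cast_zero, Int.cast_one,
      zero_mul, one_mul, zero_add, add_zero]
    have t13 : ttgt P g (4, 0) - tsrc P g (4, 0) = (g 4).app (P.vertex 0) - (g 4).app (P.vertex 1) := rfl
    have t16 : ttgt P g (4, 4) - tsrc P g (4, 4) = (g 4).app (P.vertex 4) - (g 4).app (P.vertex 0) := rfl
    have t17 : ttgt P g (5, 2) - tsrc P g (5, 2) = (g 5).app (P.vertex 3) - (g 5).app (P.vertex 2) := rfl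
    rw [t13, t16, t17]
    simp only [G4, G5, q1, q4, w3, w2]
    linear_combination HPN1_h2 (X : ℂ) (Y : ℂ) n0 n1 n4 hC hC'

end Pool.Agent.Lib_MP_fa6e45
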