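import Pool.Agent.Lib_MP_fa6e45.HS

/-!
MP_fa6e45_co, stage 4, piece HX-N4: the angles are `(6/5 - t/5, 2/5 - 2t/5, 4/5 + t/5, 3/5 - 3t/5, t)` (in units of `π`),
so the directions of the sides are `1, e^(iθ), -e^(-iα), e^(2iθ), e^(iα)` with `θ = (3 + 2t)π/5`, `α = (1 - t)π/5`. The real
part of the closing relation is `1 + cos θ + cos 2θ = cos θ (1 + 2 cos θ) = 0`, so `1 + 2 cos θ = 0`, and the imaginary part
`sin θ (1 + 2 cos θ) len 0 + 2 sin α len 2 = 0` is impossible.
-/

open Set MeasureTheory Complex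
open scoped Topology

namespace Pool.Agent.Lib_MP_fa6e45

theorem specN4 : SpecN4 := by
  intro P ⟨_, h01, h13, h24, h02⟩ h0 h1 h3
  obtain ⟨hre, him⟩ := P.close5 0
  simp only [zero_add] at hre him
  have hx := P.ang_pos 4
  have h1p := P.ang_pos 1
  have hpi := Real.pi_pos
  have l0 := P.len_pos 0
  have l2 := P.len_pos 2
  set x := P.ang 4 with hxdef
  have e1 : P.ang 1 = (2 * Real.pi - 2 * x) / 5 := by linarith
  have e3 : P.ang 3 = (3 * Real.pi - 3 * x) / 5 := by linarith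
  have e2 : P.ang 2 = (4 * Real.pi + x) / 5 := by linarith
  rw [e1] at h1p
  rw [e1, e2, e3, ← h24, ← h13, ← h01] at hre him
  set θ := (3 * Real.pi + 2 * x) / 5 with hθ
  set α := (Real.pi - x) / 5 with hα
  have s1 : Real.pi - (2 * Real.pi - 2 * x) / 5 = θ := by rw [hθ]; ring
  have s2 : 2 * Real.pi - (2 * Real.pi - 2 * x) / 5 - (4 * Real.pi + x) / 5 = Real.pi - α := by
    rw [hα]; ring
  have s3 : 3 * Real.pi - (2 * Real.pi - 2 * x) / 5 - (4 * Real.pi + x) / 5 -
      (3 * Real.pi - 3 * x) / 5 = 2 * θ := by rw [hθ]; ring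
  have s4 : 4 * Real.pi - (2 * Real.pi - 2 * x) / 5 - (4 * Real.pi + x) / 5 -
      (3 * Real.pi - 3 * x) / 5 - x = α + 2 * Real.pi := by rw [hα]; ring
  rw [s1, s2, s3, s4, Real.cos_pi_sub, Real.cos_two_mul, Real.cos_add_two_pi] at hre
  rw [s1, s2, s3, s4, Real.sin_pi_sub, Real.sin_two_mul, Real.sin_add_two_pi] at him
  have hcos : Real.cos θ < 0 := by
    apply Real.cos_neg_of_pi_div_two_lt_of_lt
    · rw [hθ]; linarith
    · rw [hθ]; linarith
  have hsin : 0 < Real.sin α := by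
    apply Real.sin_pos_of_pos_of_lt_pi
    · rw [hα]; linarith
    · rw [hα]; linarith
  have h4 : P.len 0 * (Real.cos θ * (1 + 2 * Real.cos θ)) = 0 := by linarith
  have h5 : 1 + 2 * Real.cos θ = 0 := by
    rcases mul_eq_zero.1 h4 with h | h
    · exact absurd h l0.ne'
    · rcases mul_eq_zero.1 h with h | h
      · exact absurd h hcos.ne
      · exact h
  have h6 : P.len 0 * (Real.sin θ * (1 + 2 * Real.cos θ)) + 2 * (P.len 2 * Real.sin α) = 0 := by
    linarith
  rw [h5, mul_zero, mul_zero, zero_add] at h6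
  have h7 : 0 < P.len 2 * Real.sin α := mul_pos l2 hsin
  linarith

end Pool.Agent.Lib_MP_fa6e45
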