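import Pool.Agent.Lib_MP_fa6e45.HS

/-!
MP_fa6e45_co, stage 4, [HX-N5]: with `a = ang 4` the sides have the directions `0, -2a, 3a - π, 6a, 5a - π`, so the
closing relation gives `sin 2a = sin 4a + sin 6a`, impossible for `π/2 < a < 2π/3`.
-/

open Set MeasureTheory Complex
open scoped Topology

namespace Pool.Agent.Lib_MP_fa6e45

theorem specN5 : SpecN5 := by
  intro P h h0 h1 h3
  obtain ⟨_, l01, l13, l24, h02⟩ := h
  have p1 := P.ang_pos 1
  have p3 := P.ang_pos 3
  have px := P.len_pos 0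
  obtain ⟨hC, hS⟩ := P.close5 0
  have i1 : (0 : ZMod 5) + 1 = 1 := by decide
  have i2 : (0 : ZMod 5) + 2 = 2 := by decide
  have i3 : (0 : ZMod 5) + 3 = 3 := by decide
  have i4 : (0 : ZMod 5) + 4 = 4 := by decide
  rw [i1, i2, i3, i4, ← l24, ← l13, ← l01] at hC hS
  have a1 : P.ang 1 = 2 * P.ang 4 - Real.pi := by linarith
  have a3 : P.ang 3 = 2 * Real.pi - 3 * P.ang 4 := by linarith
  have a2 : P.ang 2 = 4 * Real.pi - 5 * P.ang 4 := by linarith
  rw [a1] at p1
  rw [a3] at p3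
  rw [a1, a2, a3] at hC hS
  generalize P.ang 4 = a at *
  generalize P.len 0 = x at *
  generalize P.len 2 = y at *
  have d1 : Real.pi - (2 * a - Real.pi) = 2 * Real.pi - 2 * a := by ring
  have d2 : 2 * Real.pi - (2 * a - Real.pi) - (4 * Real.pi - 5 * a) = 3 * a - Real.pi := by ring
  have d3 : 3 * Real.pi - (2 * a - Real.pi) - (4 * Real.pi - 5 * a) - (2 * Real.pi - 3 * a) =
      6 * a - 2 * Real.pi := by ring
  have d4 : 4 * Real.pi - (2 * a - Real.pi) - (4 * Real.pi - 5 * a) - (2 * Real.pi - 3 * a) - a =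
      5 * a - Real.pi := by ring
  rw [d1, d2, d3, d4, Real.cos_two_pi_sub, Real.cos_sub_pi, Real.cos_sub_two_pi,
    Real.cos_sub_pi] at hC
  rw [d1, d2, d3, d4, Real.sin_two_pi_sub, Real.sin_sub_pi, Real.sin_sub_two_pi,
    Real.sin_sub_pi] at hS
  have e1 : Real.sin (6 * a) = Real.sin (4 * a) * Real.cos (2 * a) +
      Real.cos (4 * a) * Real.sin (2 * a) := by
    rw [← Real.sin_add]; ring_nf
  have e2 : Real.sin (2 * a) = Real.sin (6 * a) * Real.cos (4 * a) -
      Real.cos (6 * a) * Real.sin (4 * a) := by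
    rw [← Real.sin_sub]; ring_nf
  have e3 : Real.sin a = Real.sin (5 * a) * Real.cos (4 * a) -
      Real.cos (5 * a) * Real.sin (4 * a) := by
    rw [← Real.sin_sub]; ring_nf
  have e4 : Real.sin a = Real.sin (4 * a) * Real.cos (3 * a) -
      Real.cos (4 * a) * Real.sin (3 * a) := by
    rw [← Real.sin_sub]; ring_nf
  have key : x * (Real.sin (2 * a) - Real.sin (4 * a) - Real.sin (6 * a)) = 0 := by
    linear_combination Real.cos (4 * a) * hS - Real.sin (4 * a) * hC + x * e2 - x * e1 -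
      y * e3 + y * e4
  have e5 : Real.sin (4 * a) = 2 * Real.sin (2 * a) * Real.cos (2 * a) := by
    rw [← Real.sin_two_mul]; ring_nf
  have e6 : Real.cos (4 * a) = 2 * Real.cos (2 * a) ^ 2 - 1 := by
    rw [← Real.cos_two_mul]; ring_nf
  have key2 : x * Real.sin (2 * a) * ((1 + Real.cos (2 * a)) * (1 - 2 * Real.cos (2 * a))) = 0 := by
    rw [e5, e1, e5, e6] at key
    linear_combination key / 2
  have hs : Real.sin (2 * a) < 0 := by
    have h1 : 0 < Real.sin (2 * a - Real.pi) :=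
      Real.sin_pos_of_pos_of_lt_pi (by linarith) (by linarith [Real.pi_pos])
    rw [Real.sin_sub_pi] at h1
    linarith
  have hc : Real.cos (2 * a) < 0 := by
    have h1 : 0 < Real.cos (2 * a - Real.pi) :=
      Real.cos_pos_of_mem_Ioo ⟨by linarith [Real.pi_pos], by linarith [Real.pi_pos]⟩
    rw [Real.cos_sub_pi] at h1
    linarith
  have hc1 : 0 < 1 + Real.cos (2 * a) := by
    have h1 := Real.sin_sq_add_cos_sq (2 * a)
    nlinarith [Real.neg_one_le_cos (2 * a), mul_pos_of_neg_of_neg hs hs]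
  have h7 : 0 < (1 + Real.cos (2 * a)) * (1 - 2 * Real.cos (2 * a)) :=
    mul_pos hc1 (by linarith)
  have h8 : x * Real.sin (2 * a) < 0 := mul_neg_of_pos_of_neg px hs
  exact absurd key2 (mul_neg_of_neg_of_pos h8 h7).ne

end Pool.Agent.Lib_MP_fa6e45
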