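import Pool.Agent.Lib_MP_fa6e45.HS

/-!
MP_fa6e45_co, stage 4, piece HX-N8: the angles are `(2/3 - t/3, 1/3 - 2t/3, 4/3 + t/3, 2/3 - t/3, t)` (in units of `π`), so the
directions of the sides are `1, e^(2iα), e^(iα), e^(2iα), e^(-iα)` with `α = (1 + t)π/3`; the imaginary part of the closing
relation is `(len 1 + len 3) sin 2α = 0`, but `2π/3 < 2α < π`.
-/

open Set MeasureTheory Complex
open scoped Topology

namespace Pool.Agent.Lib_MP_fa6e45

theorem specN8 : SpecN8 := by
  intro P ⟨_, _, _, hb, h02⟩ h0 h1 h3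
  have h := (P.close5 0).2
  simp only [zero_add] at h
  have hx := P.ang_pos 4
  have h1p := P.ang_pos 1
  set x := P.ang 4 with hxdef
  have e1 : P.ang 1 = (Real.pi - 2 * x) / 3 := by linarith
  have e3 : P.ang 3 = (2 * Real.pi - x) / 3 := by linarith
  have e2 : P.ang 2 = (4 * Real.pi + x) / 3 := by linarith
  rw [e1, e2, e3, hb] at h
  have s1 : Real.pi - (Real.pi - 2 * x) / 3 = (2 * Real.pi + 2 * x) / 3 := by ring
  have s2 : 2 * Real.pi - (Real.pi - 2 * x) / 3 - (4 * Real.pi + x) / 3 = (Real.pi + x) / 3 := by ring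
  have s3 : 3 * Real.pi - (Real.pi - 2 * x) / 3 - (4 * Real.pi + x) / 3 - (2 * Real.pi - x) / 3 =
      (2 * Real.pi + 2 * x) / 3 := by ring
  have s4 : 4 * Real.pi - (Real.pi - 2 * x) / 3 - (4 * Real.pi + x) / 3 - (2 * Real.pi - x) / 3 - x =
      2 * Real.pi - (Real.pi + x) / 3 := by ring
  rw [s1, s2, s3, s4, Real.sin_two_pi_sub] at h
  have hpi := Real.pi_pos
  have hs : 0 < Real.sin ((2 * Real.pi + 2 * x) / 3) := by
    apply Real.sin_pos_of_pos_of_lt_pi
    · linarith
    · rw [e1] at h1p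
      linarith
  have l1 := P.len_pos 1
  have l3 := P.len_pos 3
  have h4 : (P.len 1 + P.len 3) * Real.sin ((2 * Real.pi + 2 * x) / 3) = 0 := by
    linarith
  have h5 : 0 < (P.len 1 + P.len 3) * Real.sin ((2 * Real.pi + 2 * x) / 3) := by positivity
  linarith

end Pool.Agent.Lib_MP_fa6e45
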