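import Pool.Agent.Lib_MP_fa6e45.HS

/-!
MP_fa6e45_co, stage 4, piece HX-Q: an equilateral pentagon with `2 a_0 + a_2 = 2 π`, `a_1 + 2 a_3 = 2 π` has
`a_1 = a_2`. With `x = a_0 = m + e`, `y = a_3 = m - e` the closing relation, turned by `- 2 m`, reads
`2 cos (2 m) = exp (- 2 i e) + 2 cos m exp (i e)`. The imaginary part gives `sin e = 0` or `cos e = cos m`, the
second case contradicts the real part.
-/

open Set MeasureTheory Complex
open scoped Topology

namespace Pool.Agent.Lib_MP_fa6e45

private theorem pent_sum (P : Polygon 5) (hc : P.CCW) :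
    P.ang 0 + P.ang 1 + P.ang 2 + P.ang 3 + P.ang 4 = 3 * Real.pi := by
  have h := P.ang_sum hc
  have h1 : ∑ i : ZMod 5, P.ang i = P.ang 0 + P.ang 1 + P.ang 2 + P.ang 3 + P.ang 4 := by
    change ∑ i : Fin 5, P.ang i = _
    rw [Fin.sum_univ_five]
    rfl
  rw [h1] at h
  rw [h]
  norm_num

theorem specQ : SpecQ := by
  intro P hF h34 h02 h13
  obtain ⟨hc, h01, h12, h23⟩ := hF
  have hsum := pent_sum P hc
  have hL := P.len_pos 0
  obtain ⟨hC, hS⟩ := P.close5 0
  have z2 : (0 : ZMod 5) + 2 = 2 := rfl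
  simp only [zero_add] at hC hS
  have l1 : P.len 1 = P.len 0 := h01.symm
  have l2 : P.len 2 = P.len 0 := by rw [← h12, ← h01]
  have l3 : P.len 3 = P.len 0 := by rw [← h23, l2]
  have l4 : P.len 4 = P.len 0 := by rw [← h34, l3]
  rw [l1, l2, l3, l4] at hC hS
  set x := P.ang 0 with hx
  set y := P.ang 3 with hy
  have a1 : P.ang 1 = 2 * Real.pi - 2 * y := by linarith
  have a2 : P.ang 2 = 2 * Real.pi - 2 * x := by linarith
  have a4 : P.ang 4 = x + y - Real.pi := by linarith
  rw [a1, a2, a4] at hC hS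
  have hC' : 1 + Real.cos (Real.pi - (2 * Real.pi - 2 * y)) +
      Real.cos (2 * Real.pi - (2 * Real.pi - 2 * y) - (2 * Real.pi - 2 * x)) +
      Real.cos (3 * Real.pi - (2 * Real.pi - 2 * y) - (2 * Real.pi - 2 * x) - y) +
      Real.cos (4 * Real.pi - (2 * Real.pi - 2 * y) - (2 * Real.pi - 2 * x) - y -
        (x + y - Real.pi)) = 0 := by
    have h0 := hL.ne'
    apply mul_left_cancel₀ h0
    linarith
  have hS' : Real.sin (Real.pi - (2 * Real.pi - 2 * y)) +
      Real.sin (2 * Real.pi - (2 * Real.pi - 2 * y) - (2 * Real.pi - 2 * x)) +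
      Real.sin (3 * Real.pi - (2 * Real.pi - 2 * y) - (2 * Real.pi - 2 * x) - y) +
      Real.sin (4 * Real.pi - (2 * Real.pi - 2 * y) - (2 * Real.pi - 2 * x) - y -
        (x + y - Real.pi)) = 0 := by
    have h0 := hL.ne'
    apply mul_left_cancel₀ h0
    linarith
  set m := (x + y) / 2 with hm
  set e := (x - y) / 2 with he
  have hxe : x = m + e := by rw [hm, he]; ring
  have hye : y = m - e := by rw [hm, he]; ring
  have t1 : Real.pi - (2 * Real.pi - 2 * y) = 2 * m + (-2 * e - Real.pi) := by rw [hye]; ring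
  have t2 : 2 * Real.pi - (2 * Real.pi - 2 * y) - (2 * Real.pi - 2 * x) =
      2 * m + (2 * m - 2 * Real.pi) := by rw [hye, hxe]; ring
  have t3 : 3 * Real.pi - (2 * Real.pi - 2 * y) - (2 * Real.pi - 2 * x) - y =
      2 * m + (m + e - Real.pi) := by rw [hye, hxe]; ring
  have t4 : 4 * Real.pi - (2 * Real.pi - 2 * y) - (2 * Real.pi - 2 * x) - y -
        (x + y - Real.pi) = 2 * m + (e - m + Real.pi) := by rw [hye, hxe]; ring
  rw [t1, t2, t3, t4] at hC' hS'
  simp only [Real.cos_add (2 * m), Real.sin_add (2 * m), Real.cos_sub_pi, Real.sin_sub_pi,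
    Real.cos_sub_two_pi, Real.sin_sub_two_pi, Real.cos_add_pi, Real.sin_add_pi, neg_mul,
    Real.cos_neg, Real.sin_neg, neg_neg] at hC' hS'
  have hre : 2 * Real.cos (2 * m) = Real.cos (2 * e) + Real.cos (m + e) + Real.cos (e - m) := by
    have hsc := Real.sin_sq_add_cos_sq (2 * m)
    linear_combination (Real.cos (2 * m)) * hC' + (Real.sin (2 * m)) * hS' +
      (Real.cos (2 * e) + Real.cos (m + e) + Real.cos (e - m) - Real.cos (2 * m)) * hsc
  have him : Real.sin (2 * e) = Real.sin (m + e) + Real.sin (e - m) := by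
    have hsc := Real.sin_sq_add_cos_sq (2 * m)
    linear_combination (-Real.sin (2 * m)) * hC' + (Real.cos (2 * m)) * hS' +
      (Real.sin (m + e) + Real.sin (e - m) - Real.sin (2 * e) - Real.sin (2 * m)) * hsc
  rw [Real.cos_add, Real.cos_sub, Real.cos_two_mul, Real.cos_two_mul] at hre
  rw [Real.sin_add, Real.sin_sub, Real.sin_two_mul] at him
  have hfac : Real.sin e * (Real.cos e - Real.cos m) = 0 := by linarith
  have hbx := P.ang_pos 0
  have hbx2 := P.ang_lt 0
  have hby := P.ang_pos 3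
  have hby2 := P.ang_lt 3
  rw [← hx] at hbx hbx2
  rw [← hy] at hby hby2
  rcases mul_eq_zero.mp hfac with h | h
  · have he0 : e = 0 := by
      have h1 : -Real.pi < e := by rw [he]; linarith
      have h2 : e < Real.pi := by rw [he]; linarith
      by_contra hne
      rcases lt_or_gt_of_ne hne with h3 | h3
      · have h4 := Real.sin_neg_of_neg_of_neg_pi_lt h3 h1
        linarith
      · have h4 := Real.sin_pos_of_pos_of_lt_pi h3 h2
        linarith
    rw [a1, a2, hxe, hye, he0]
    ring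
  · exfalso
    have h1 : Real.cos e = Real.cos m := by linarith
    rw [h1] at hre
    nlinarith [hre]

end Pool.Agent.Lib_MP_fa6e45
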