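import Pool.Agent.Lib_MP_fa6e45.HS

/-!
MP_fa6e45_co, stage 4, [HX-T6]: four tiles, all direct.  With `t = exp (i ang 4)` the sides have the directions
`-t² D, D, t D, -t G, G`, the tiles are rotated by `1, t, -1, -t`.
-/

set_option linter.unusedSimpArgs false

open Set MeasureTheory Complex
open scoped Topology

namespace Pool.Agent.Lib_MP_fa6e45

theorem specT6 : SpecT6 := by
  intro P hc l01 l12 l34 a14 a24
  obtain ⟨t, ht⟩ : ∃ t : ℂ, t = exp ((P.ang 4 : ℂ) * Complex.I) := ⟨_, rfl⟩
  have ht1 : ‖t‖ = 1 := by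
    rw [ht]
    exact Complex.norm_exp_ofReal_mul_I _
  have i01 : (0 : ZMod 5) + 1 = 1 := by decide
  have i11 : (1 : ZMod 5) + 1 = 2 := by decide
  have i21 : (2 : ZMod 5) + 1 = 3 := by decide
  have i31 : (3 : ZMod 5) + 1 = 4 := by decide
  have i41 : (4 : ZMod 5) + 1 = 0 := by decide
  have j1 : (1 : ZMod 5) - 1 = 0 := by decide
  have j2 : (2 : ZMod 5) - 1 = 1 := by decide
  have j4 : (4 : ZMod 5) - 1 = 3 := by decide
  have T1 := P.dr_turn 1
  have T2 := P.dr_turn 2
  have T4 := P.dr_turn 4
  rw [j1] at T1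
  rw [j2] at T2
  rw [j4, ← ht] at T4
  have E1 : exp ((P.ang 1 : ℂ) * Complex.I) = t ^ 2 := by
    rw [a14, ht, ← Complex.exp_nat_mul]
    congr 1
    push_cast
    ring
  have E2 : exp ((P.ang 2 : ℂ) * Complex.I) * t = -1 := by
    rw [ht, ← Complex.exp_add, ← add_mul, ← Complex.ofReal_add, a24, Complex.exp_pi_mul_I]
  rw [E1] at T1
  have D0 : P.dr 0 = -t ^ 2 * P.dr 1 := by linear_combination T1
  have D2 : P.dr 2 = t * P.dr 1 := by linear_combination (-t) * T2 + P.dr 2 * E2
  have D3 : P.dr 3 = -t * P.dr 4 := by linear_combination T4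
  have W0 := P.dr_len 0
  have W1 := P.dr_len 1
  have W2 := P.dr_len 2
  have W3 := P.dr_len 3
  have W4 := P.dr_len 4
  rw [i01, D0] at W0
  rw [i11, ← l01] at W1
  rw [i21, ← l12, ← l01, D2] at W2
  rw [i31, D3] at W3
  rw [i41, ← l34] at W4
  obtain ⟨x, hx⟩ : ∃ x : ℂ, x = (P.len 0 : ℂ) := ⟨_, rfl⟩
  obtain ⟨y, hy⟩ : ∃ y : ℂ, y = (P.len 3 : ℂ) := ⟨_, rfl⟩
  obtain ⟨D, hD⟩ : ∃ D : ℂ, D = P.dr 1 := ⟨_, rfl⟩
  obtain ⟨G, hG⟩ : ∃ G : ℂ, G = P.dr 4 := ⟨_, rfl⟩
  obtain ⟨V0, hV0⟩ : ∃ V0 : ℂ, V0 = P.vertex 0 := ⟨_, rfl⟩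
  rw [← hx, ← hD] at W0 W1 W2
  rw [← hy, ← hG] at W3 W4
  have V1 : P.vertex 1 = V0 - x * t ^ 2 * D := by
    rw [hV0]
    linear_combination W0
  have V2 : P.vertex 2 = V0 - x * t ^ 2 * D + x * D := by
    linear_combination W1 + V1
  have V3 : P.vertex 3 = V0 - x * t ^ 2 * D + x * D + x * t * D := by
    linear_combination W2 + V2
  have V4 : P.vertex 4 = V0 - x * t ^ 2 * D + x * D + x * t * D - y * t * G := by
    linear_combination W3 + V3
  have K : x * D * (1 + t - t ^ 2) + y * G * (1 - t) = 0 := by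
    linear_combination -W4 - V4 - hV0
  have V0' : P.vertex 0 = V0 := hV0.symm
  refine kcrit P hc (k := 4) (by norm_num)
    ![⟨1, 0, false, by simp⟩, ⟨t, P.vertex 1 - t * P.vertex 2, false, ht1⟩,
      ⟨-1, P.vertex 1 + P.vertex 2, false, by simp⟩,
      ⟨-t, P.vertex 3 + t * P.vertex 1, false, by rw [norm_neg]; exact ht1⟩]
    (-(y * G * (1 - t ^ 2))) (x * D * (t + t ^ 2) - y * G * t)
    [((0, 0), (1, 2), (0, 0)),
      ((0, 1), (2, 1), (0, 0)),
      ((0, 2), (3, 1), (0, 0)),
      ((0, 3), (1, 4), (1, 0)),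
      ((0, 4), (2, 4), (0, 1)),
      ((1, 0), (3, 0), (-1, 0)),
      ((1, 1), (2, 2), (0, 0)),
      ((1, 3), (3, 3), (-1, 1)),
      ((2, 0), (3, 2), (0, 0)),
      ((2, 3), (3, 4), (-1, 0))]
    (by decide) (by decide) ?_ ?_ ?_
  · intro e he
    simp only [List.mem_cons, List.not_mem_nil, or_false] at he
    rcases he with rfl | rfl | rfl | rfl | rfl | rfl | rfl | rfl | rfl | rfl
    · constructor
      · simp only [tsrc, ttgt, Mo.app, Mo.lin, lv, Matrix.cons_val_zero, Matrix.cons_val_one, Matrix.cons_val,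
          Bool.false_eq_true, if_false, i01, i11, i21, i31, i41, V0', V1, V2, V3, V4]
        push_cast
        ring
      · simp only [tsrc, ttgt, Mo.app, Mo.lin, lv, Matrix.cons_val_zero, Matrix.cons_val_one, Matrix.cons_val,
          Bool.false_eq_true, if_false, i01, i11, i21, i31, i41, V0', V1, V2, V3, V4]
        push_cast
        ring
    · constructor
      · simp only [tsrc, ttgt, Mo.app, Mo.lin, lv, Matrix.cons_val_zero, Matrix.cons_val_one, Matrix.cons_val,
          Bool.false_eq_true, if_false, i01, i11, i21, i31, i41, V0', V1, V2, V3, V4]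
        push_cast
        ring
      · simp only [tsrc, ttgt, Mo.app, Mo.lin, lv, Matrix.cons_val_zero, Matrix.cons_val_one, Matrix.cons_val,
          Bool.false_eq_true, if_false, i01, i11, i21, i31, i41, V0', V1, V2, V3, V4]
        push_cast
        ring
    · constructor
      · simp only [tsrc, ttgt, Mo.app, Mo.lin, lv, Matrix.cons_val_zero, Matrix.cons_val_one, Matrix.cons_val,
          Bool.false_eq_true, if_false, i01, i11, i21, i31, i41, V0', V1, V2, V3, V4]
        push_cast
        ring
      · simp only [tsrc, ttgt, Mo.app, Mo.lin, lv, Matrix.cons_val_zero, Matrix.cons_val_one, Matrix.cons_val,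
          Bool.false_eq_true, if_false, i01, i11, i21, i31, i41, V0', V1, V2, V3, V4]
        push_cast
        ring
    · constructor
      · simp only [tsrc, ttgt, Mo.app, Mo.lin, lv, Matrix.cons_val_zero, Matrix.cons_val_one, Matrix.cons_val,
          Bool.false_eq_true, if_false, i01, i11, i21, i31, i41, V0', V1, V2, V3, V4]
        push_cast
        linear_combination ((-1) * t ^ 0) * K
      · simp only [tsrc, ttgt, Mo.app, Mo.lin, lv, Matrix.cons_val_zero, Matrix.cons_val_one, Matrix.cons_val,
          Bool.false_eq_true, if_false, i01, i11, i21, i31, i41, V0', V1, V2, V3, V4]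
        push_cast
        linear_combination ((-1) * t ^ 0 + (-1) * t ^ 1) * K
    · constructor
      · simp only [tsrc, ttgt, Mo.app, Mo.lin, lv, Matrix.cons_val_zero, Matrix.cons_val_one, Matrix.cons_val,
          Bool.false_eq_true, if_false, i01, i11, i21, i31, i41, V0', V1, V2, V3, V4]
        push_cast
        ring
      · simp only [tsrc, ttgt, Mo.app, Mo.lin, lv, Matrix.cons_val_zero, Matrix.cons_val_one, Matrix.cons_val,
          Bool.false_eq_true, if_false, i01, i11, i21, i31, i41, V0', V1, V2, V3, V4]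
        push_cast
        ring
    · constructor
      · simp only [tsrc, ttgt, Mo.app, Mo.lin, lv, Matrix.cons_val_zero, Matrix.cons_val_one, Matrix.cons_val,
          Bool.false_eq_true, if_false, i01, i11, i21, i31, i41, V0', V1, V2, V3, V4]
        push_cast
        linear_combination ((1) * t ^ 0 + (1) * t ^ 1) * K
      · simp only [tsrc, ttgt, Mo.app, Mo.lin, lv, Matrix.cons_val_zero, Matrix.cons_val_one, Matrix.cons_val,
          Bool.false_eq_true, if_false, i01, i11, i21, i31, i41, V0', V1, V2, V3, V4]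
        push_cast
        linear_combination ((1) * t ^ 0 + (1) * t ^ 1) * K
    · constructor
      · simp only [tsrc, ttgt, Mo.app, Mo.lin, lv, Matrix.cons_val_zero, Matrix.cons_val_one, Matrix.cons_val,
          Bool.false_eq_true, if_false, i01, i11, i21, i31, i41, V0', V1, V2, V3, V4]
        push_cast
        ring
      · simp only [tsrc, ttgt, Mo.app, Mo.lin, lv, Matrix.cons_val_zero, Matrix.cons_val_one, Matrix.cons_val,
          Bool.false_eq_true, if_false, i01, i11, i21, i31, i41, V0', V1, V2, V3, V4]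
        push_cast
        ring
    · constructor
      · simp only [tsrc, ttgt, Mo.app, Mo.lin, lv, Matrix.cons_val_zero, Matrix.cons_val_one, Matrix.cons_val,
          Bool.false_eq_true, if_false, i01, i11, i21, i31, i41, V0', V1, V2, V3, V4]
        push_cast
        linear_combination ((1) * t ^ 0) * K
      · simp only [tsrc, ttgt, Mo.app, Mo.lin, lv, Matrix.cons_val_zero, Matrix.cons_val_one, Matrix.cons_val,
          Bool.false_eq_true, if_false, i01, i11, i21, i31, i41, V0', V1, V2, V3, V4]
        push_cast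
        linear_combination ((1) * t ^ 0) * K
    · constructor
      · simp only [tsrc, ttgt, Mo.app, Mo.lin, lv, Matrix.cons_val_zero, Matrix.cons_val_one, Matrix.cons_val,
          Bool.false_eq_true, if_false, i01, i11, i21, i31, i41, V0', V1, V2, V3, V4]
        push_cast
        ring
      · simp only [tsrc, ttgt, Mo.app, Mo.lin, lv, Matrix.cons_val_zero, Matrix.cons_val_one, Matrix.cons_val,
          Bool.false_eq_true, if_false, i01, i11, i21, i31, i41, V0', V1, V2, V3, V4]
        push_cast
        ring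
    · constructor
      · simp only [tsrc, ttgt, Mo.app, Mo.lin, lv, Matrix.cons_val_zero, Matrix.cons_val_one, Matrix.cons_val,
          Bool.false_eq_true, if_false, i01, i11, i21, i31, i41, V0', V1, V2, V3, V4]
        push_cast
        linear_combination ((1) * t ^ 0) * K
      · simp only [tsrc, ttgt, Mo.app, Mo.lin, lv, Matrix.cons_val_zero, Matrix.cons_val_one, Matrix.cons_val,
          Bool.false_eq_true, if_false, i01, i11, i21, i31, i41, V0', V1, V2, V3, V4]
        push_cast
        linear_combination ((1) * t ^ 0 + (1) * t ^ 1) * K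
  · simp only [List.map_cons, List.map_nil, List.sum_cons, List.sum_nil, tsrc, ttgt, Mo.app, Mo.lin, Matrix.cons_val_zero,
      Matrix.cons_val_one, Matrix.cons_val, Bool.false_eq_true, if_false, i01, i11, i21, i31, i41, V0', V1, V2, V3, V4]
    push_cast
    linear_combination ((-1) * t ^ 1) * K
  · simp only [List.map_cons, List.map_nil, List.sum_cons, List.sum_nil, tsrc, ttgt, Mo.app, Mo.lin, Matrix.cons_val_zero,
      Matrix.cons_val_one, Matrix.cons_val, Bool.false_eq_true, if_false, i01, i11, i21, i31, i41, V0', V1, V2, V3, V4]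
    push_cast
    linear_combination ((-1) * t ^ 0) * K

end Pool.Agent.Lib_MP_fa6e45
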