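import Pool.Agent.Lib_MP_fa6e45.HQ0
import Pool.Agent.Lib_MP_fa6e45.HT
import Pool.Agent.Lib_MP_fa6e45.H5
import Pool.Agent.Lib_MP_fa6e45.HPB1
import Pool.Agent.Lib_MP_fa6e45.HPB3
import Pool.Agent.Lib_MP_fa6e45.HPB4
import Pool.Agent.Lib_MP_fa6e45.HPD
import Pool.Agent.Lib_MP_fa6e45.HPE1
import Pool.Agent.Lib_MP_fa6e45.HPE3
import Pool.Agent.Lib_MP_fa6e45.HPE5
import Pool.Agent.Lib_MP_fa6e45.HPF1
import Pool.Agent.Lib_MP_fa6e45.HPF2
import Pool.Agent.Lib_MP_fa6e45.HPF3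
import Pool.Agent.Lib_MP_fa6e45.HPG2
import Pool.Agent.Lib_MP_fa6e45.HPG4
import Pool.Agent.Lib_MP_fa6e45.HPHF
import Pool.Agent.Lib_MP_fa6e45.HPL1
import Pool.Agent.Lib_MP_fa6e45.HPL2
import Pool.Agent.Lib_MP_fa6e45.HPL5
import Pool.Agent.Lib_MP_fa6e45.HPL6
import Pool.Agent.Lib_MP_fa6e45.HPL8
import Pool.Agent.Lib_MP_fa6e45.HPM8
import Pool.Agent.Lib_MP_fa6e45.HPN1
import Pool.Agent.Lib_MP_fa6e45.HPN4
import Pool.Agent.Lib_MP_fa6e45.HPN5
import Pool.Agent.Lib_MP_fa6e45.HPN7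
import Pool.Agent.Lib_MP_fa6e45.HPN8
import Pool.Agent.Lib_MP_fa6e45.HPQ
import Pool.Agent.Lib_MP_fa6e45.HPT6

/-!
MP_fa6e45_co, stage 4: the tables `sp5`, `sp6` of special theorems are correct (captain).
-/

open Set MeasureTheory Complex
open scoped Topology

namespace Pool.Agent.Lib_MP_fa6e45

private theorem HQ_5 {P : Polygon 5} {x y z t u r : ℤ} {L : List Eqn}
    (he : ∀ E ∈ L, Eqn.Holds E fun j => P.ang j / Real.pi) (h : ([x, y, z, t, u], r) ∈ L) :
    (x : ℝ) * P.ang 0 + y * P.ang 1 + z * P.ang 2 + t * P.ang 3 + u * P.ang 4 = r * Real.pi := by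
  have h1 := holds5 (he _ h)
  have hpi : Real.pi ≠ 0 := Real.pi_ne_zero
  have h2 : ∀ w : ℝ, w / Real.pi * Real.pi = w := fun w => div_mul_cancel₀ w hpi
  have h3 := congrArg (fun w => w * Real.pi) h1
  simp only [add_mul, mul_assoc, h2] at h3
  exact h3

private theorem HQ_6 {P : Polygon 6} {x y z t u v r : ℤ} {L : List Eqn}
    (he : ∀ E ∈ L, Eqn.Holds E fun j => P.ang j / Real.pi) (h : ([x, y, z, t, u, v], r) ∈ L) :
    (x : ℝ) * P.ang 0 + y * P.ang 1 + z * P.ang 2 + t * P.ang 3 + u * P.ang 4 + v * P.ang 5 =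
      r * Real.pi := by
  have h1 := holds6 (he _ h)
  have hpi : Real.pi ≠ 0 := Real.pi_ne_zero
  have h2 : ∀ w : ℝ, w / Real.pi * Real.pi = w := fun w => div_mul_cancel₀ w hpi
  have h3 := congrArg (fun w => w * Real.pi) h1
  simp only [add_mul, mul_assoc, h2] at h3
  exact h3

private theorem HQ_h5 {x y z t u r : ℤ} {f : ZMod 5 → ℝ}
    (h : (x : ℝ) * f 0 + y * f 1 + z * f 2 + t * f 3 + u * f 4 = r) :
    Eqn.Holds ([x, y, z, t, u], r) f := by
  change (∑ i : Fin 5, ((([x, y, z, t, u] : List ℤ).getD i.val 0 : ℤ) : ℝ) * f i) = (r : ℝ)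
  rw [Fin.sum_univ_five]
  exact h

private theorem HQ_h6 {x y z t u v r : ℤ} {f : ZMod 6 → ℝ}
    (h : (x : ℝ) * f 0 + y * f 1 + z * f 2 + t * f 3 + u * f 4 + v * f 5 = r) :
    Eqn.Holds ([x, y, z, t, u, v], r) f := by
  change (∑ i : Fin 6, ((([x, y, z, t, u, v] : List ℤ).getD i.val 0 : ℤ) : ℝ) * f i) = (r : ℝ)
  rw [Fin.sum_univ_six]
  exact h

private theorem HQ_four {P : Polygon 5} (hc : P.CCW)
    (hg : ∀ g ∈ [(0, 1), (1, 2), (2, 3)], P.len ((g.1 : ℕ) : ZMod 5) = P.len ((g.2 : ℕ) : ZMod 5)) :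
    Four5 P :=
  ⟨hc, hg (0, 1) (by decide), hg (1, 2) (by decide), hg (2, 3) (by decide)⟩

private theorem HQ_nine {P : Polygon 5} (hc : P.CCW)
    (hg : ∀ g ∈ [(0, 1), (1, 3), (2, 4)], P.len ((g.1 : ℕ) : ZMod 5) = P.len ((g.2 : ℕ) : ZMod 5))
    (h : P.ang 0 + P.ang 2 = 2 * Real.pi) : Nine5 P :=
  ⟨hc, hg (0, 1) (by decide), hg (1, 3) (by decide), hg (2, 4) (by decide), h⟩

private theorem HQ_ex {P : Polygon 6} (hc : P.CCW)
    (hg : ∀ g ∈ [(0, 1), (1, 3), (2, 4), (4, 5)],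
      P.len ((g.1 : ℕ) : ZMod 6) = P.len ((g.2 : ℕ) : ZMod 6))
    (hn : ∀ g ∈ [(0, 2)], P.len ((g.1 : ℕ) : ZMod 6) ≠ P.len ((g.2 : ℕ) : ZMod 6))
    (h : P.ang 0 + P.ang 2 = 2 * Real.pi) : Ex6 P :=
  ⟨hc, hg (0, 1) (by decide), hg (1, 3) (by decide), hg (2, 4) (by decide), hg (4, 5) (by decide),
    hn (0, 2) (by decide), h⟩

theorem sp5_ok : ∀ T ∈ sp5, T.OK 5 := by
  unfold sp5
  have hpi := Real.pi_pos
  -- L1
  refine List.forall_mem_cons.2 ⟨fun P hc hg hn he => ?_, ?_⟩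
  · have e1 := HQ_5 he (show ([2, 1, 0, 0, 0], 2) ∈ _ by decide)
    have e2 := HQ_5 he (show ([0, 0, 1, 2, 0], 2) ∈ _ by decide)
    push_cast at e1 e2
    exact specL1 P (HQ_four hc hg) (by linarith) (by linarith)
  -- L2
  refine List.forall_mem_cons.2 ⟨fun P hc hg hn he => ?_, ?_⟩
  · have e1 := HQ_5 he (show ([2, 1, 0, 0, 0], 2) ∈ _ by decide)
    have e2 := HQ_5 he (show ([0, 0, 1, 0, 2], 2) ∈ _ by decide)
    push_cast at e1 e2
    exact specL2 P (HQ_four hc hg) (by linarith) (by linarith)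
  -- L5
  refine List.forall_mem_cons.2 ⟨fun P hc hg hn he => ?_, ?_⟩
  · have e1 := HQ_5 he (show ([2, 0, 0, 1, 0], 2) ∈ _ by decide)
    have e2 := HQ_5 he (show ([0, 1, 2, 0, 0], 2) ∈ _ by decide)
    push_cast at e1 e2
    exact specL5 P (HQ_four hc hg) (by linarith) (by linarith)
  -- T6
  refine List.forall_mem_cons.2 ⟨fun P hc hg hn he => ?_, ?_⟩
  · have e1 := HQ_5 he (show ([0, 1, 0, 0, -2], 0) ∈ _ by decide)
    have e2 := HQ_5 he (show ([0, 0, 1, 0, 1], 1) ∈ _ by decide)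
    push_cast at e1 e2
    exact specT6 P hc (hg (0, 1) (by decide)) (hg (1, 2) (by decide)) (hg (3, 4) (by decide))
      (by linarith) (by linarith)
  -- N1
  refine List.forall_mem_cons.2 ⟨fun P hc hg hn he => ?_, ?_⟩
  · have e1 := HQ_5 he (show ([1, 0, 1, 0, 0], 2) ∈ _ by decide)
    have e2 := HQ_5 he (show ([0, 0, 1, 1, 2], 2) ∈ _ by decide)
    push_cast at e1 e2
    exact specN1 P (HQ_nine hc hg (by linarith)) (by linarith)
  -- L8
  refine List.forall_mem_cons.2 ⟨fun P hc hg hn he => ?_, ?_⟩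
  · have e1 := HQ_5 he (show ([0, 1, 0, 2, 0], 2) ∈ _ by decide)
    have e2 := HQ_5 he (show ([0, 0, 1, 0, 2], 2) ∈ _ by decide)
    push_cast at e1 e2
    have h := HQ_four hc hg
    have e3 := specL8 P h (by linarith) (by linarith)
    have h13 : P.len 1 = P.len 3 := h.2.2.1.trans h.2.2.2
    refine triv5 P hc 1 1 ?_ ?_
    · intro g hgm
      change g ∈ ([(0, 2, true), (2, 0, true), (1, 1, true), (3, 3, true), (4, 4, true)] :
        List (ℕ × ℕ × Bool)) at hgm
      simp only [List.mem_cons, List.not_mem_nil, or_false] at hgm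
      rcases hgm with rfl | rfl | rfl | rfl | rfl
      · exact h13
      · exact h13.symm
      · rfl
      · rfl
      · rfl
    · intro E hE
      change E ∈ ([([0, 1, 1, 0, 0], 1)] : List Eqn) at hE
      rw [List.mem_singleton] at hE
      subst hE
      refine HQ_h5 ?_
      change ((0 : ℤ) : ℝ) * (P.ang 1 / Real.pi) + ((1 : ℤ) : ℝ) * (P.ang 2 / Real.pi) +
        ((1 : ℤ) : ℝ) * (P.ang 3 / Real.pi) + ((0 : ℤ) : ℝ) * (P.ang 4 / Real.pi) +
        ((0 : ℤ) : ℝ) * (P.ang 0 / Real.pi) = ((1 : ℤ) : ℝ)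
      push_cast
      field_simp
      linarith
  -- L6
  refine List.forall_mem_cons.2 ⟨fun P hc hg hn he => ?_, ?_⟩
  · have e1 := HQ_5 he (show ([2, 0, 0, 1, 0], 2) ∈ _ by decide)
    have e2 := HQ_5 he (show ([0, 1, 0, 0, 2], 2) ∈ _ by decide)
    push_cast at e1 e2
    exact (specL6 P (HQ_four hc hg) (by linarith) (by linarith)).elim
  -- Q
  refine List.forall_mem_cons.2 ⟨fun P hc hg hn he => ?_, ?_⟩
  · have e1 := HQ_5 he (show ([2, 0, 1, 0, 0], 2) ∈ _ by decide)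
    have e2 := HQ_5 he (show ([0, 1, 0, 2, 0], 2) ∈ _ by decide)
    push_cast at e1 e2
    have h : Four5 P := ⟨hc, hg (0, 1) (by decide), hg (1, 2) (by decide), hg (2, 3) (by decide)⟩
    have e3 := specQ P h (hg (3, 4) (by decide)) (by linarith) (by linarith)
    exact specL1 P h (by linarith) (by linarith)
  -- F2
  refine List.forall_mem_cons.2 ⟨fun P hc hg hn he => ?_, ?_⟩
  · have e1 := HQ_5 he (show ([1, 0, 1, 0, 0], 2) ∈ _ by decide)
    have e2 := HQ_5 he (show ([0, 0, 1, 2, 1], 2) ∈ _ by decide)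
    push_cast at e1 e2
    have h := HQ_nine hc hg (by linarith)
    have e3 := specF2 P h (by linarith)
    have h24 : P.len 2 = P.len 4 := h.2.2.2.1
    have h30 : P.len 3 = P.len 0 := (h.2.1.trans h.2.2.1).symm
    have hs : P.ang 3 / Real.pi + P.ang 0 / Real.pi = 2 := by
      field_simp
      linarith
    refine appH hc (arcs1 P) ⟨1, [1, 2, 4], by decide, ?_, ?_⟩
    · intro g hgm
      change g ∈ ([(0, 0, true), (1, 2, false), (2, 1, false)] : List (ℕ × ℕ × Bool)) at hgm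
      simp only [List.mem_cons, List.not_mem_nil, or_false] at hgm
      rcases hgm with rfl | rfl | rfl
      · refine ⟨rfl, fun t ht => ?_, fun t h0 ht => ?_⟩
        · change t < 1 at ht
          obtain rfl : t = 0 := by omega
          exact arcs1_rel P true rfl
        · change t < 1 at ht
          omega
      · refine ⟨rfl, fun t ht => ?_, fun t h0 ht => ?_⟩
        · change t < 2 at ht
          interval_cases t
          · exact arcs1_rel P false h24
          · exact arcs1_rel P false h30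
        · change t < 2 at ht
          obtain rfl : t = 1 := by omega
          exact hs
      · refine ⟨rfl, fun t ht => ?_, fun t h0 ht => ?_⟩
        · change t < 2 at ht
          interval_cases t
          · exact arcs1_rel P false h24.symm
          · exact arcs1_rel P false h30.symm
        · change t < 2 at ht
          obtain rfl : t = 1 := by omega
          rw [add_comm] at hs
          exact hs
    · intro E hE
      change E ∈ ([] : List Eqn) at hE
      exact absurd hE List.not_mem_nil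
  -- B1
  refine List.forall_mem_cons.2 ⟨fun P hc hg hn he => ?_, ?_⟩
  · have e1 := HQ_5 he (show ([3, 0, 0, 0, 1], 3) ∈ _ by decide)
    have e2 := HQ_5 he (show ([0, 1, 0, 0, 2], 2) ∈ _ by decide)
    have e3 := HQ_5 he (show ([0, 0, 3, 0, -2], 0) ∈ _ by decide)
    have e4 := HQ_5 he (show ([0, 0, 0, 3, -2], 0) ∈ _ by decide)
    push_cast at e1 e2 e3 e4
    exact (specB1 P (HQ_four hc hg) (by linarith) (by linarith) (by linarith) (by linarith)).elim
  -- B3
  refine List.forall_mem_cons.2 ⟨fun P hc hg hn he => ?_, ?_⟩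
  · have e1 := HQ_5 he (show ([3, 0, 0, 0, 3], 5) ∈ _ by decide)
    have e2 := HQ_5 he (show ([0, 1, 0, 0, 2], 2) ∈ _ by decide)
    have e3 := HQ_5 he (show ([0, 0, 3, 0, 0], 2) ∈ _ by decide)
    have e4 := HQ_5 he (show ([0, 0, 0, 3, -6], -4) ∈ _ by decide)
    push_cast at e1 e2 e3 e4
    exact (specB3 P (HQ_four hc hg) (by linarith) (by linarith) (by linarith) (by linarith)).elim
  -- B4
  refine List.forall_mem_cons.2 ⟨fun P hc hg hn he => ?_, ?_⟩
  · have e1 := HQ_5 he (show ([1, 0, 0, 0, -3], -1) ∈ _ by decide)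
    have e2 := HQ_5 he (show ([0, 1, 0, 0, 2], 2) ∈ _ by decide)
    have e3 := HQ_5 he (show ([0, 0, 1, 0, -4], -2) ∈ _ by decide)
    have e4 := HQ_5 he (show ([0, 0, 0, 1, 6], 4) ∈ _ by decide)
    push_cast at e1 e2 e3 e4
    exact (specB4 P (HQ_four hc hg) (by linarith) (by linarith) (by linarith) (by linarith)).elim
  -- N4
  refine List.forall_mem_cons.2 ⟨fun P hc hg hn he => ?_, ?_⟩
  · have e1 := HQ_5 he (show ([1, 0, 1, 0, 0], 2) ∈ _ by decide)
    have e2 := HQ_5 he (show ([5, 0, 0, 0, 1], 6) ∈ _ by decide)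
    have e3 := HQ_5 he (show ([0, 5, 0, 0, 2], 2) ∈ _ by decide)
    have e4 := HQ_5 he (show ([0, 0, 0, 5, 3], 3) ∈ _ by decide)
    push_cast at e1 e2 e3 e4
    exact (specN4 P (HQ_nine hc hg (by linarith)) (by linarith) (by linarith) (by linarith)).elim
  -- N5
  refine List.forall_mem_cons.2 ⟨fun P hc hg hn he => ?_, ?_⟩
  · have e1 := HQ_5 he (show ([1, 0, 1, 0, 0], 2) ∈ _ by decide)
    have e2 := HQ_5 he (show ([1, 0, 0, 0, -5], -2) ∈ _ by decide)
    have e3 := HQ_5 he (show ([0, 1, 0, 0, -2], -1) ∈ _ by decide)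
    have e4 := HQ_5 he (show ([0, 0, 0, 1, 3], 2) ∈ _ by decide)
    push_cast at e1 e2 e3 e4
    exact (specN5 P (HQ_nine hc hg (by linarith)) (by linarith) (by linarith) (by linarith)).elim
  -- N7
  refine List.forall_mem_cons.2 ⟨fun P hc hg hn he => ?_, ?_⟩
  · have e1 := HQ_5 he (show ([1, 0, 1, 0, 0], 2) ∈ _ by decide)
    have e2 := HQ_5 he (show ([3, 0, 0, 0, 5], 4) ∈ _ by decide)
    have e3 := HQ_5 he (show ([0, 3, 0, 0, 2], 1) ∈ _ by decide)
    have e4 := HQ_5 he (show ([0, 0, 0, 3, 1], 2) ∈ _ by decide)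
    push_cast at e1 e2 e3 e4
    exact (specN7 P (HQ_nine hc hg (by linarith)) (by linarith) (by linarith) (by linarith)).elim
  -- N8
  refine List.forall_mem_cons.2 ⟨fun P hc hg hn he => ?_, ?_⟩
  · have e1 := HQ_5 he (show ([1, 0, 1, 0, 0], 2) ∈ _ by decide)
    have e2 := HQ_5 he (show ([3, 0, 0, 0, 1], 2) ∈ _ by decide)
    have e3 := HQ_5 he (show ([0, 3, 0, 0, 2], 1) ∈ _ by decide)
    have e4 := HQ_5 he (show ([0, 0, 0, 3, 1], 2) ∈ _ by decide)
    push_cast at e1 e2 e3 e4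
    exact (specN8 P (HQ_nine hc hg (by linarith)) (by linarith) (by linarith) (by linarith)).elim
  -- X57
  refine List.forall_mem_cons.2 ⟨fun P hc hg hn he => ?_, ?_⟩
  · refine triv5 P hc 7 0 ?_ ?_
    · intro g hgm
      change g ∈ ([(0, 1, true), (2, 3, true)] : List (ℕ × ℕ × Bool)) at hgm
      simp only [List.mem_cons, List.not_mem_nil, or_false] at hgm
      rw [Nat.cast_zero, add_zero, add_zero]
      rcases hgm with rfl | rfl
      · exact hg (0, 1) (by decide)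
      · exact hg (2, 3) (by decide)
    · intro E hE
      simp only [Nat.cast_zero, add_zero]
      exact he E hE
  intro T hT
  exact absurd hT List.not_mem_nil

theorem sp6_ok : ∀ T ∈ sp6, T.OK 6 := by
  unfold sp6
  have hpi := Real.pi_pos
  -- HF
  refine List.forall_mem_cons.2 ⟨fun P hc hg hn he => ?_, ?_⟩
  · have e1 := HQ_6 he (show ([1, 0, 1, 0, 0, 0], 2) ∈ _ by decide)
    have e2 := HQ_6 he (show ([1, 0, 0, 0, 1, 0], 2) ∈ _ by decide)
    have e3 := HQ_6 he (show ([0, 1, 0, 0, 0, -1], 0) ∈ _ by decide)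
    push_cast at e1 e2 e3
    exact specHF P (HQ_ex hc hg hn (by linarith)) (by linarith) (by linarith)
  -- M8
  refine List.forall_mem_cons.2 ⟨fun P hc hg hn he => ?_, ?_⟩
  · have e1 := HQ_6 he (show ([2, 0, 0, 0, 1, 0], 2) ∈ _ by decide)
    have e2 := HQ_6 he (show ([0, 0, 2, 0, 1, 0], 2) ∈ _ by decide)
    have e3 := HQ_6 he (show ([0, 1, 0, 2, 0, 0], 2) ∈ _ by decide)
    have e4 := HQ_6 he (show ([0, 1, 0, 0, 0, 2], 2) ∈ _ by decide)
    push_cast at e1 e2 e3 e4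
    exact specM8 P hc (hg (0, 1) (by decide)) (hg (1, 3) (by decide)) (hg (3, 4) (by decide))
      (hn (2, 5) (by decide)) (by linarith) (by linarith) (by linarith) (by linarith)
  -- G4
  refine List.forall_mem_cons.2 ⟨fun P hc hg hn he => ?_, ?_⟩
  · have e1 := HQ_6 he (show ([1, 0, 0, 0, -1, 0], 0) ∈ _ by decide)
    have e2 := HQ_6 he (show ([0, 1, 0, 0, 0, -1], 0) ∈ _ by decide)
    have e3 := HQ_6 he (show ([0, 0, 1, 0, 2, 0], 2) ∈ _ by decide)
    have e4 := HQ_6 he (show ([0, 0, 0, 1, 0, 2], 2) ∈ _ by decide)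
    push_cast at e1 e2 e3 e4
    have h01 : P.len 0 = P.len 1 := hg (0, 1) (by decide)
    have h12 : P.len 1 = P.len 2 := hg (1, 2) (by decide)
    have h23 : P.len 2 = P.len 3 := hg (2, 3) (by decide)
    have h34 : P.len 3 = P.len 4 := hg (3, 4) (by decide)
    have e5 := specG4 P hc h01 h12 h23 h34 (hn (4, 5) (by decide)) (by linarith) (by linarith)
      (by linarith) (by linarith)
    have h02 : P.len 0 = P.len 2 := h01.trans h12
    have h14 : P.len 1 = P.len 4 := (h12.trans h23).trans h34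
    refine triv6 P hc 3 0 ?_ ?_
    · intro g hgm
      change g ∈ ([(0, 2, false), (2, 0, false), (1, 4, false), (4, 1, false), (3, 3, true),
        (5, 5, true)] : List (ℕ × ℕ × Bool)) at hgm
      simp only [List.mem_cons, List.not_mem_nil, or_false] at hgm
      rw [Nat.cast_zero, add_zero, add_zero]
      rcases hgm with rfl | rfl | rfl | rfl | rfl | rfl
      · exact h02
      · exact h02.symm
      · exact h14
      · exact h14.symm
      · rfl
      · rfl
    · intro E hE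
      change E ∈ ([([0, 1, 0, 1, 1, 0], 2)] : List Eqn) at hE
      rw [List.mem_singleton] at hE
      subst hE
      simp only [Nat.cast_zero, add_zero]
      refine HQ_h6 ?_
      change ((0 : ℤ) : ℝ) * (P.ang 0 / Real.pi) + ((1 : ℤ) : ℝ) * (P.ang 1 / Real.pi) +
        ((0 : ℤ) : ℝ) * (P.ang 2 / Real.pi) + ((1 : ℤ) : ℝ) * (P.ang 3 / Real.pi) +
        ((1 : ℤ) : ℝ) * (P.ang 4 / Real.pi) + ((0 : ℤ) : ℝ) * (P.ang 5 / Real.pi) = ((2 : ℤ) : ℝ)
      push_cast
      field_simp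
      linarith
  -- D1
  refine List.forall_mem_cons.2 ⟨fun P hc hg hn he => ?_, ?_⟩
  · have e1 := HQ_6 he (show ([0, 1, 0, 0, 0, -1], 0) ∈ _ by decide)
    have e2 := HQ_6 he (show ([0, 0, 1, 0, -1, 0], 0) ∈ _ by decide)
    push_cast at e1 e2
    exact (specD1 P hc (hg (0, 1) (by decide)) (hg (1, 2) (by decide)) (hg (3, 4) (by decide))
      (hg (4, 5) (by decide)) (hn (0, 3) (by decide)) (by linarith) (by linarith)).elim
  -- D2
  refine List.forall_mem_cons.2 ⟨fun P hc hg hn he => ?_, ?_⟩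
  · have e1 := HQ_6 he (show ([0, 1, 0, 0, -1, 0], 0) ∈ _ by decide)
    have e2 := HQ_6 he (show ([0, 0, 1, 0, 0, -1], 0) ∈ _ by decide)
    push_cast at e1 e2
    exact (specD2 P hc (hg (0, 1) (by decide)) (hg (1, 2) (by decide)) (hg (3, 4) (by decide))
      (hg (4, 5) (by decide)) (hn (0, 3) (by decide)) (by linarith) (by linarith)).elim
  -- E1
  refine List.forall_mem_cons.2 ⟨fun P hc hg hn he => ?_, ?_⟩
  · have e0 := HQ_6 he (show ([1, 0, 1, 0, 0, 0], 2) ∈ _ by decide)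
    have e1 := HQ_6 he (show ([0, 3, 0, 0, 0, 0], 2) ∈ _ by decide)
    have e2 := HQ_6 he (show ([0, 0, 3, 0, -3, 0], 2) ∈ _ by decide)
    have e3 := HQ_6 he (show ([0, 0, 0, 1, 1, 0], 1) ∈ _ by decide)
    have e4 := HQ_6 he (show ([0, 0, 0, 0, 0, 3], 1) ∈ _ by decide)
    push_cast at e0 e1 e2 e3 e4
    exact (specE1 P (HQ_ex hc hg hn (by linarith)) (by linarith) (by linarith) (by linarith)
      (by linarith)).elim
  -- E3
  refine List.forall_mem_cons.2 ⟨fun P hc hg hn he => ?_, ?_⟩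
  · have e0 := HQ_6 he (show ([1, 0, 1, 0, 0, 0], 2) ∈ _ by decide)
    have e1 := HQ_6 he (show ([0, 3, 0, 0, 0, 0], 1) ∈ _ by decide)
    have e2 := HQ_6 he (show ([0, 0, 3, 0, -3, 0], 1) ∈ _ by decide)
    have e3 := HQ_6 he (show ([0, 0, 0, 1, 1, 0], 1) ∈ _ by decide)
    have e4 := HQ_6 he (show ([0, 0, 0, 0, 0, 3], 2) ∈ _ by decide)
    push_cast at e0 e1 e2 e3 e4
    exact (specE3 P (HQ_ex hc hg hn (by linarith)) (by linarith) (by linarith) (by linarith)
      (by linarith)).elim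
  -- E5
  refine List.forall_mem_cons.2 ⟨fun P hc hg hn he => ?_, ?_⟩
  · have e0 := HQ_6 he (show ([1, 0, 1, 0, 0, 0], 2) ∈ _ by decide)
    have e1 := HQ_6 he (show ([2, 0, 0, 0, 0, 3], 2) ∈ _ by decide)
    have e2 := HQ_6 he (show ([0, 3, 0, 0, 0, 0], 2) ∈ _ by decide)
    have e3 := HQ_6 he (show ([0, 0, 0, 2, 0, 1], 2) ∈ _ by decide)
    have e4 := HQ_6 he (show ([0, 0, 0, 0, 6, 3], 2) ∈ _ by decide)
    push_cast at e0 e1 e2 e3 e4
    exact (specE5 P (HQ_ex hc hg hn (by linarith)) (by linarith) (by linarith) (by linarith)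
      (by linarith)).elim
  -- F1
  refine List.forall_mem_cons.2 ⟨fun P hc hg hn he => ?_, ?_⟩
  · have e0 := HQ_6 he (show ([1, 0, 1, 0, 0, 0], 2) ∈ _ by decide)
    have e1 := HQ_6 he (show ([3, 0, 0, 0, 0, -3], 4) ∈ _ by decide)
    have e2 := HQ_6 he (show ([0, 3, 0, 0, 0, 0], 2) ∈ _ by decide)
    have e3 := HQ_6 he (show ([0, 0, 0, 3, 0, 0], 2) ∈ _ by decide)
    have e4 := HQ_6 he (show ([0, 0, 0, 0, 3, 3], 2) ∈ _ by decide)
    push_cast at e0 e1 e2 e3 e4
    exact (specF1 P (HQ_ex hc hg hn (by linarith)) (by linarith) (by linarith) (by linarith)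
      (by linarith)).elim
  -- G2
  refine List.forall_mem_cons.2 ⟨fun P hc hg hn he => ?_, ?_⟩
  · have e0 := HQ_6 he (show ([1, 0, 1, 0, 0, 0], 2) ∈ _ by decide)
    have e1 := HQ_6 he (show ([0, 3, 0, 0, 0, 0], 1) ∈ _ by decide)
    have e2 := HQ_6 he (show ([0, 0, 1, 0, -1, 0], 0) ∈ _ by decide)
    have e3 := HQ_6 he (show ([0, 0, 1, 1, 0, 0], 1) ∈ _ by decide)
    have e4 := HQ_6 he (show ([0, 0, 0, 0, 0, 3], 2) ∈ _ by decide)
    push_cast at e0 e1 e2 e3 e4
    exact (specG2 P (HQ_ex hc hg hn (by linarith)) (by linarith) (by linarith) (by linarith)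
      (by linarith)).elim
  -- F3
  refine List.forall_mem_cons.2 ⟨fun P hc hg hn he => ?_, ?_⟩
  · have e0 := HQ_6 he (show ([1, 0, 1, 0, 0, 0], 2) ∈ _ by decide)
    have e1 := HQ_6 he (show ([6, 0, 0, 0, 0, -3], 10) ∈ _ by decide)
    have e2 := HQ_6 he (show ([0, 3, 0, 0, 0, 0], 2) ∈ _ by decide)
    have e3 := HQ_6 he (show ([0, 0, 0, 2, 0, 1], 2) ∈ _ by decide)
    have e4 := HQ_6 he (show ([0, 0, 0, 0, 6, 3], 2) ∈ _ by decide)
    push_cast at e0 e1 e2 e3 e4
    exact (specF3 P (HQ_ex hc hg hn (by linarith)) (by linarith) (by linarith) (by linarith)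
      (by linarith)).elim
  -- X67
  refine List.forall_mem_cons.2 ⟨fun P hc hg hn he => ?_, ?_⟩
  · refine triv6 P hc 7 0 ?_ ?_
    · intro g hgm
      change g ∈ ([(0, 0, false), (1, 1, false), (2, 2, false), (3, 3, false), (4, 4, false),
        (5, 5, false), (0, 1, true), (3, 4, true)] : List (ℕ × ℕ × Bool)) at hgm
      simp only [List.mem_cons, List.not_mem_nil, or_false] at hgm
      rw [Nat.cast_zero, add_zero, add_zero]
      rcases hgm with rfl | rfl | rfl | rfl | rfl | rfl | rfl | rfl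
      · rfl
      · rfl
      · rfl
      · rfl
      · rfl
      · rfl
      · exact hg (0, 1) (by decide)
      · exact hg (3, 4) (by decide)
    · intro E hE
      simp only [Nat.cast_zero, add_zero]
      exact he E hE
  intro T hT
  exact absurd hT List.not_mem_nil

end Pool.Agent.Lib_MP_fa6e45
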