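import Pool.Agent.Lib_MP_fa6e45.L2b

/-!
L3a: triangles, quadrilaterals, hexagons.
Notation: `V k = vertex (p + k)`, `K = sideChain P hc p`. Area by `Polygon.area_eq` (the shoelace sum is
cyclic, so it can be started at `p`). Everything is a half turn segment with `η = id` unless said otherwise;
the vector behind the side is `s + lv u w (c y)`.
tri: `s = V0 + V1`, `u = V1 - V0`, `w = V2 - V0`; side 1: `s + w`, side 2: `V2 + V0 = s + w - u`.
quad: `s = V0 + V1`, `u = V2 - V0`, `w = V3 - V1`; sides 1: `s + u`; 2: `s + u + w`; 3: `s + w`.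
hex (`V1 - V0 = -(V4 - V3)`): translation pair (0, 3) with `u = V3 - V1 = V4 - V0`; `s = V1 + V2`; side 2:
 `s + u`; `w = V4 + V5 - s`; side 4: `s + w`; side 5: `s + w - u`. Shoelace sum = `cr u w` in all three cases.
-/

open Set MeasureTheory Complex
open scoped Topology

namespace Pool.Agent.Lib_MP_fa6e45

open Pool.Agent.Lib_PL (cr InSector Poly)

private theorem L3a_abs {n : ℕ} [NeZero n] (P : Polygon n) (hc : P.CCW) (p : ZMod n) {X : ℝ}
    (h : ∑ i : ZMod n, cr (P.vertex (p + i)) (P.vertex (p + i + 1)) = X) :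
    2 * (volume P.region).toReal = |X| := by
  have h1 : ∑ i : ZMod n, cr (P.vertex (p + i)) (P.vertex (p + i + 1)) =
      ∑ i : ZMod n, cr (P.vertex i) (P.vertex (i + 1)) :=
    Equiv.sum_comp (Equiv.addLeft p) fun i => cr (P.vertex i) (P.vertex (i + 1))
  have h2 := P.area_eq hc
  have h3 : 0 ≤ (volume P.region).toReal := ENNReal.toReal_nonneg
  rw [← h1, h] at h2
  have h4 : X = 2 * (volume P.region).toReal := by linarith
  rw [h4, abs_of_nonneg (by linarith)]

theorem tri (P : Polygon 3) (hc : P.CCW) : HasPeriodic P := by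
  have q2 : (1 : ZMod 3) + 1 = 2 := rfl
  have q3 : (2 : ZMod 3) + 1 = 0 := rfl
  refine conway hc (sideChain P hc 0) (P.vertex 0 + P.vertex 1) (P.vertex 1 - P.vertex 0)
    (P.vertex 2 - P.vertex 0) id (fun _ => rfl) (fun _ => true) (fun _ => rfl)
    ![(0, 0), (0, 1), (-1, 1)] (fun _ => rfl) ?_ (fun y h => absurd h (by simp)) ?_
  · intro y _
    fin_cases y
    · simp [sideChain, lv]
    · simp [sideChain, lv, q2]
      constructor <;> ring
    · simp [sideChain, lv, q3]
  · refine L3a_abs P hc 0 ?_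
    have h1 : ∑ i : ZMod 3, cr (P.vertex (0 + i)) (P.vertex (0 + i + 1)) =
      cr (P.vertex 0) (P.vertex 1) + cr (P.vertex 1) (P.vertex 2) +
        cr (P.vertex 2) (P.vertex 0) :=
      Fin.sum_univ_three (fun i : ZMod 3 => cr (P.vertex (0 + i)) (P.vertex (0 + i + 1)))
    rw [h1]
    unfold cr
    simp only [sub_re, sub_im]
    ring

theorem quad (P : Polygon 4) (hc : P.CCW) : HasPeriodic P := by
  have q2 : (1 : ZMod 4) + 1 = 2 := rfl
  have q3 : (2 : ZMod 4) + 1 = 3 := rfl
  have q4 : (3 : ZMod 4) + 1 = 0 := rfl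
  refine conway hc (sideChain P hc 0) (P.vertex 0 + P.vertex 1) (P.vertex 2 - P.vertex 0)
    (P.vertex 3 - P.vertex 1) id (fun _ => rfl) (fun _ => true) (fun _ => rfl)
    ![(0, 0), (1, 0), (1, 1), (0, 1)] (fun _ => rfl) ?_ (fun y h => absurd h (by simp)) ?_
  · intro y _
    fin_cases y
    · simp [sideChain, lv]
    · simp [sideChain, lv, q2]
      constructor <;> ring
    · simp [sideChain, lv, q3]
      constructor <;> ring
    · simp [sideChain, lv, q4]
  · refine L3a_abs P hc 0 ?_
    have h1 : ∑ i : ZMod 4, cr (P.vertex (0 + i)) (P.vertex (0 + i + 1)) =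
      cr (P.vertex 0) (P.vertex 1) + cr (P.vertex 1) (P.vertex 2) +
        cr (P.vertex 2) (P.vertex 3) + cr (P.vertex 3) (P.vertex 0) :=
      Fin.sum_univ_four (fun i : ZMod 4 => cr (P.vertex (0 + i)) (P.vertex (0 + i + 1)))
    rw [h1]
    unfold cr
    simp only [sub_re, sub_im]
    ring

theorem hex (P : Polygon 6) (hc : P.CCW) (p : ZMod 6)
    (h : P.vertex (p + 4) - P.vertex (p + 3) = -(P.vertex (p + 1) - P.vertex p)) :
    HasPeriodic P := by
  have q1 : p + (1 : ZMod 6) + 1 = p + 2 := by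
    rw [add_assoc]
    rfl
  have q2 : p + (2 : ZMod 6) + 1 = p + 3 := by
    rw [add_assoc]
    rfl
  have q3 : p + (3 : ZMod 6) + 1 = p + 4 := by
    rw [add_assoc]
    rfl
  have q4 : p + (4 : ZMod 6) + 1 = p + 5 := by
    rw [add_assoc]
    rfl
  have q5 : p + (5 : ZMod 6) + 1 = p := by
    rw [add_assoc, show (5 : ZMod 6) + 1 = 0 from rfl, add_zero]
  have h4 : P.vertex (p + 4) = P.vertex (p + 3) - P.vertex (p + 1) + P.vertex p := by
    linear_combination h
  refine conway hc (sideChain P hc p) (P.vertex (p + 1) + P.vertex (p + 2))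
    (P.vertex (p + 3) - P.vertex (p + 1))
    (P.vertex (p + 4) + P.vertex (p + 5) - P.vertex (p + 1) - P.vertex (p + 2))
    ![3, 1, 2, 0, 4, 5] (by decide) ![false, true, true, false, true, true] (by decide)
    ![(-1, 0), (0, 0), (1, 0), (1, 0), (0, 1), (-1, 1)] (by decide) ?_ ?_ ?_
  · intro y hy
    fin_cases y
    · simp at hy
    · simp [sideChain, lv, q1]
    · simp [sideChain, lv, q2]
      constructor <;> ring
    · simp at hy
    · simp [sideChain, lv, q4]
    · simp [sideChain, lv, q5, h4]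
      constructor <;> ring
  · intro y hy
    fin_cases y
    · simp [sideChain, lv, q3, h4]
      ring
    · simp at hy
    · simp at hy
    · simp [sideChain, lv, q3, h4]
      ring
    · simp at hy
    · simp at hy
  · refine L3a_abs P hc p ?_
    have h1 : ∑ i : ZMod 6, cr (P.vertex (p + i)) (P.vertex (p + i + 1)) =
      cr (P.vertex (p + 0)) (P.vertex (p + 0 + 1)) + cr (P.vertex (p + 1)) (P.vertex (p + 1 + 1)) +
        cr (P.vertex (p + 2)) (P.vertex (p + 2 + 1)) +
        cr (P.vertex (p + 3)) (P.vertex (p + 3 + 1)) +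
        cr (P.vertex (p + 4)) (P.vertex (p + 4 + 1)) +
        cr (P.vertex (p + 5)) (P.vertex (p + 5 + 1)) :=
      Fin.sum_univ_six (fun i : ZMod 6 => cr (P.vertex (p + i)) (P.vertex (p + i + 1)))
    rw [h1, q1, q2, q3, q4, q5, add_zero, h4]
    unfold cr
    simp only [sub_re, sub_im, add_re, add_im]
    ring

end Pool.Agent.Lib_MP_fa6e45
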