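import Pool.Agent.Lib_MP_fa6e45.K1

/-!
PIECE K2b (about 200 lines): at most one pair of equal sides and a corner of degree 2.
By `deg_two` two corners `i ≠ j` are complementary. `OnePair` and `n ≥ 5`: then `{i, j} = {p+1, p+2}` and
`l p = l (p+2)` for some `p` (the only equal pair is `{p, p + 2}`; if `l (i-1) = l (j-1)` and `l i = l j` then
`{i-1, j-1} = {i, j}`, impossible for `n ≥ 3`; if `l (i-1) = l j`, `l i = l (j-1)`: either `i - 1 = j` or
`i = j - 1`, or two different equal pairs). So only the two corners `p+1`, `p+2` are complementary and by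
`six` `n - 2 ≤ 6`, `n ≤ 8`. For `n = 7, 8` with the equal pair `{p, p+2}` there is no closed 3-walk
(`decide +kernel`), so the other corners have degree at least 4, and `count` with `D = 2` at `p+1`, `p+2` and
`D = 4` elsewhere gives `(n - 2)/2 ≤ 1 + (n - 2)/4`, so `n ≤ 6`.
-/

open Set

namespace Pool.Agent.Lib_MP_fa6e45

section

variable {n : ℕ}

/-- `x` and `y` have the same length if `p`, `p + 2` is the only pair of equal sides -/
private def K2b_Rel (p x y : ZMod n) : Prop := x = y ∨ (x = p ∧ y = p + 2) ∨ (x = p + 2 ∧ y = p)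

private instance (p x y : ZMod n) : Decidable (K2b_Rel p x y) := by
  unfold K2b_Rel
  infer_instance

/-- closed 3-walk with the only equal pair `p`, `p + 2` -/
private def K2b_W (p : ZMod n) (x y z : ZMod n × Bool) : Prop :=
  K2b_Rel p (if x.2 then x.1 else x.1 - 1) (if y.2 then y.1 - 1 else y.1) ∧
  K2b_Rel p (if y.2 then y.1 else y.1 - 1) (if z.2 then z.1 - 1 else z.1) ∧
  K2b_Rel p (if z.2 then z.1 else z.1 - 1) (if x.2 then x.1 - 1 else x.1)

private instance (p : ZMod n) (x y z : ZMod n × Bool) : Decidable (K2b_W p x y z) := by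
  unfold K2b_W
  infer_instance

end

private theorem K2b_w7 : ∀ p : ZMod 7, ∀ x y z : ZMod 7 × Bool, ¬ K2b_W p x y z := by
  decide +kernel

private theorem K2b_w8 : ∀ p : ZMod 8, ∀ x y z : ZMod 8 × Bool, ¬ K2b_W p x y z := by
  decide +kernel

variable {n : ℕ} [NeZero n] {a l : ZMod n → ℝ} {ι : Type}

private theorem K2b_nat {n : ℕ} [NeZero n] (k : ℕ) (h0 : 0 < k) (hk : k < n) :
    ((k : ℕ) : ZMod n) ≠ 0 := by
  intro h
  rw [ZMod.natCast_eq_zero_iff] at h
  exact absurd (Nat.le_of_dvd h0 h) (by omega)

/-- a complementary pair of corners is `{p + 1, p + 2}` with `l p = l (p + 2)` -/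
private theorem K2b_compl (h : OnePair l) (hn : 3 ≤ n) {i j : ZMod n} (hc : Compl a l i j) :
    ∃ p, l p = l (p + 2) ∧ a (p + 1) + a (p + 2) = 2 * Real.pi ∧ (i = p + 1 ∨ i = p + 2) := by
  have h1 : (1 : ZMod n) ≠ 0 := by
    have := K2b_nat (n := n) 1 (by norm_num) (by omega)
    simpa using this
  have h2 : (2 : ZMod n) ≠ 0 := by
    have := K2b_nat (n := n) 2 (by norm_num) (by omega)
    simpa using this
  obtain ⟨hji, hs, hl⟩ := hc
  rcases hl with ⟨hA, hB⟩ | ⟨hA, hB⟩
  · exfalso
    have e1 : i - 1 ≠ j - 1 := fun e => hji (sub_left_injective e).symm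
    have e2 := h (i - 1) (j - 1) i j e1 (Ne.symm hji) hA hB
    have m1 : i - 1 = i ∨ i - 1 = j := by
      have : i - 1 ∈ ({i, j} : Set (ZMod n)) := e2 ▸ mem_insert _ _
      simpa using this
    have m2 : j - 1 = i ∨ j - 1 = j := by
      have : j - 1 ∈ ({i, j} : Set (ZMod n)) := e2 ▸ mem_insert_of_mem _ (mem_singleton _)
      simpa using this
    rcases m1 with m1 | m1
    · exact h1 (by linear_combination -m1)
    · rcases m2 with m2 | m2
      · exact h2 (by linear_combination -m1 - m2)
      · exact h1 (by linear_combination -m2)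
  · by_cases e1 : i - 1 = j
    · refine ⟨j - 1, ?_, ?_, Or.inr ?_⟩
      · rw [← hB]
        congr 1
        linear_combination -e1 + e1 + e1
      · have q1 : j - 1 + 1 = j := by ring
        have q2 : j - 1 + 2 = i := by linear_combination -e1
        rw [q1, q2]
        linarith
      · linear_combination e1
    · by_cases e2 : i = j - 1
      · refine ⟨i - 1, ?_, ?_, Or.inl ?_⟩
        · rw [hA]
          congr 1
          linear_combination -e2
        · have q1 : i - 1 + 1 = i := by ring
          have q2 : i - 1 + 2 = j := by linear_combination e2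
          rw [q1, q2]
          exact hs
        · ring
      · exfalso
        have e3 := h (i - 1) j i (j - 1) e1 e2 hA hB
        have m1 : i - 1 = i ∨ i - 1 = j - 1 := by
          have : i - 1 ∈ ({i, j - 1} : Set (ZMod n)) := e3 ▸ mem_insert _ _
          simpa using this
        rcases m1 with m1 | m1
        · exact h1 (by linear_combination -m1)
        · exact hji (sub_left_injective m1).symm

/-- the pair is unique for `n ≥ 5` -/
private theorem K2b_unique (h : OnePair l) (hn : 5 ≤ n) {p q : ZMod n} (hp : l p = l (p + 2))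
    (hq : l q = l (q + 2)) : q = p := by
  have h2 : (2 : ZMod n) ≠ 0 := by
    have := K2b_nat (n := n) 2 (by norm_num) (by omega)
    simpa using this
  have h4 : (4 : ZMod n) ≠ 0 := by
    have := K2b_nat (n := n) 4 (by norm_num) (by omega)
    simpa using this
  have n1 : p ≠ p + 2 := fun e => h2 (by linear_combination -e)
  have n2 : q ≠ q + 2 := fun e => h2 (by linear_combination -e)
  have e := h q (q + 2) p (p + 2) n2 n1 hq hp
  have m1 : q = p ∨ q = p + 2 := by
    have : q ∈ ({p, p + 2} : Set (ZMod n)) := e ▸ mem_insert _ _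
    simpa using this
  have m2 : q + 2 = p ∨ q + 2 = p + 2 := by
    have : q + 2 ∈ ({p, p + 2} : Set (ZMod n)) := e ▸ mem_insert_of_mem _ (mem_singleton _)
    simpa using this
  rcases m1 with m1 | m1
  · exact m1
  · rcases m2 with m2 | m2
    · exact absurd (by linear_combination m2 - m1) h4
    · linear_combination m2

theorem Comb.cases_two (K : Comb n a l ι) (h : OnePair l) (c : ι × ZMod n)
    (h2 : Function.minimalPeriod K.nx c = 2) :
    n = 3 ∨ n = 4 ∨
    ((n = 5 ∨ n = 6) ∧ ∃ p, l p = l (p + 2) ∧ a (p + 1) + a (p + 2) = 2 * Real.pi) := by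
  have hn3 := K.three_le
  obtain ⟨p, hp, hs, -⟩ := K2b_compl h hn3 (K.deg_two c h2)
  by_cases h5 : 5 ≤ n
  swap
  · have : n = 3 ∨ n = 4 := by omega
    rcases this with h' | h'
    · exact Or.inl h'
    · exact Or.inr (Or.inl h')
  refine Or.inr (Or.inr ⟨?_, p, hp, hs⟩)
  -- complementary corners
  have hcomp : ∀ i j, Compl a l i j → i = p + 1 ∨ i = p + 2 := by
    intro i j hij
    obtain ⟨q, hq, -, hi⟩ := K2b_compl h hn3 hij
    rwa [K2b_unique h h5 hp hq] at hi
  have h8 : n ≤ 8 := by
    have h6 := K.six
    have hsub : (univ : Set (ZMod n)) ⊆ {i : ZMod n | ¬ ∃ j, Compl a l i j} ∪ {p + 1, p + 2} := by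
      intro i _
      by_cases hi : ∃ j, Compl a l i j
      · obtain ⟨j, hj⟩ := hi
        right
        simpa using hcomp i j hj
      · exact Or.inl hi
    have c1 : (univ : Set (ZMod n)).ncard ≤ _ := Set.ncard_le_ncard hsub (Set.toFinite _)
    have c2 := Set.ncard_union_le {i : ZMod n | ¬ ∃ j, Compl a l i j} {p + 1, p + 2}
    have c3 : ({p + 1, p + 2} : Set (ZMod n)).ncard ≤ 2 := by
      refine (Set.ncard_insert_le _ _).trans ?_
      rw [Set.ncard_singleton]
    rw [Set.ncard_univ, Nat.card_zmod] at c1
    omega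
  have hrel : ∀ i j, l i = l j → K2b_Rel p i j := by
    intro i j hij
    by_cases e : i = j
    · exact Or.inl e
    · have t2 : (2 : ZMod n) ≠ 0 := by
        have := K2b_nat (n := n) 2 (by norm_num) (by omega)
        simpa using this
      have n1 : p ≠ p + 2 := fun e => t2 (by linear_combination -e)
      have h1 := h i j p (p + 2) e n1 hij hp
      have hi : i = p ∨ i = p + 2 := by
        have : i ∈ ({p, p + 2} : Set (ZMod n)) := h1 ▸ mem_insert _ _
        simpa using this
      have hj : j = p ∨ j = p + 2 := by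
        have : j ∈ ({p, p + 2} : Set (ZMod n)) := h1 ▸ mem_insert_of_mem _ (mem_singleton _)
        simpa using this
      right
      rcases hi with hi | hi
      · rcases hj with hj | hj
        · exact absurd (hi.trans hj.symm) e
        · exact Or.inl ⟨hi, hj⟩
      · rcases hj with hj | hj
        · exact Or.inr ⟨hi, hj⟩
        · exact absurd (hi.trans hj.symm) e
  -- no closed 3-walk
  have key : (∀ x y z : ZMod n × Bool, ¬ K2b_W p x y z) → n ≤ 6 := by
    intro hW
    classical
    have hD := K.count (fun i => if i = p + 1 ∨ i = p + 2 then 2 else 4) (by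
      intro i
      split_ifs <;> norm_num) (by
      intro d
      split_ifs with hi
      · exact K.two_le d
      · have t2 := K.two_le d
        have t3 : Function.minimalPeriod K.nx d ≠ 2 := fun e =>
          hi (hcomp _ _ (K.deg_two d e))
        have t4 : Function.minimalPeriod K.nx d ≠ 3 := by
          intro e
          obtain ⟨⟨w1, w2, w3⟩, -⟩ := K.deg_three d e
          exact hW (d.2, K.rf d.1) ((K.nx d).2, K.rf (K.nx d).1)
            ((K.nx (K.nx d)).2, K.rf (K.nx (K.nx d)).1)
            ⟨hrel _ _ w1, hrel _ _ w2, hrel _ _ w3⟩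
        omega)
    have hsum : ∑ i : ZMod n, (1 : ℝ) / (((if i = p + 1 ∨ i = p + 2 then 2 else 4 : ℕ)) : ℝ) ≤
        (n : ℝ) / 4 + 1 / 2 := by
      have e1 : ∀ i : ZMod n, (1 : ℝ) / (((if i = p + 1 ∨ i = p + 2 then 2 else 4 : ℕ)) : ℝ) =
          1 / 4 + (if i = p + 1 ∨ i = p + 2 then (1 / 4 : ℝ) else 0) := by
        intro i
        split_ifs <;> norm_num
      rw [Finset.sum_congr rfl fun i _ => e1 i, Finset.sum_add_distrib, Finset.sum_const,
        Finset.card_univ, ZMod.card, nsmul_eq_mul, ← Finset.sum_filter, Finset.sum_const,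
        nsmul_eq_mul]
      have c1 : (Finset.univ.filter fun i : ZMod n => i = p + 1 ∨ i = p + 2).card ≤ 2 := by
        have : (Finset.univ.filter fun i : ZMod n => i = p + 1 ∨ i = p + 2) ⊆ {p + 1, p + 2} := by
          intro i hi
          simpa using hi
        exact (Finset.card_le_card this).trans Finset.card_le_two
      have c2 : ((Finset.univ.filter fun i : ZMod n => i = p + 1 ∨ i = p + 2).card : ℝ) ≤ 2 := by
        exact_mod_cast c1
      linarith
    have : (n : ℝ) ≤ 6 := by linarith
    exact_mod_cast this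
  have h78 : n = 5 ∨ n = 6 ∨ n = 7 ∨ n = 8 := by omega
  rcases h78 with h' | h' | h' | h'
  · exact Or.inl h'
  · exact Or.inr h'
  · exfalso
    subst h'
    exact absurd (key (K2b_w7 p)) (by norm_num)
  · exfalso
    subst h'
    exact absurd (key (K2b_w8 p)) (by norm_num)

end Pool.Agent.Lib_MP_fa6e45
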