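import Pool.Agent.Lib_MP_fa6e45.K2a
import Pool.Agent.Lib_MP_fa6e45.K2b

/-!
Assembly of the combinatorial part.
-/

open Set

namespace Pool.Agent.Lib_MP_fa6e45

variable {n : ℕ} [NeZero n] {a l : ZMod n → ℝ} {ι : Type}

theorem Comb.cases (K : Comb n a l ι) (h : OnePair l) :
    n = 3 ∨ n = 4 ∨
    (n = 6 ∧ ∃ p, l p = l (p + 3) ∧ a (p + 1) + a (p + 2) + a (p + 3) = 2 * Real.pi) ∨
    (n = 5 ∧ ∃ p, a p + a (p + 1) = Real.pi) ∨
    ((n = 5 ∨ n = 6) ∧ ∃ p, l p = l (p + 2) ∧ a (p + 1) + a (p + 2) = 2 * Real.pi) := by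
  by_cases h3 : ∀ c, 3 ≤ Function.minimalPeriod K.nx c
  · rcases K.cases_no2 h h3 with h1 | h1 | h1 | h1
    · exact Or.inl h1
    · exact Or.inr (Or.inl h1)
    · exact Or.inr (Or.inr (Or.inl h1))
    · exact Or.inr (Or.inr (Or.inr (Or.inl h1)))
  · push Not at h3
    obtain ⟨c, hc⟩ := h3
    have h2 : Function.minimalPeriod K.nx c = 2 := by
      have := K.two_le c
      omega
    rcases K.cases_two h c h2 with h1 | h1 | h1
    · exact Or.inl h1
    · exact Or.inr (Or.inl h1)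
    · exact Or.inr (Or.inr (Or.inr (Or.inr h1)))

end Pool.Agent.Lib_MP_fa6e45
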