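import Pool.Agent.Lib_MP_fa6e45.L2b

/-!
PIECE L3b (about 100 lines): triangle and quadrilateral with one centrally symmetric zigzag side.
Notation: `V k = vertex (p + k)`, `K = sideChain P hc p`. Area by `Polygon.area_eq` (the shoelace sum is
cyclic, so it can be started at `p`). Everything is a half turn segment with `η = id` unless said otherwise;
the vector behind the side is `s + lv u w (c y)`.
zig5 (`V0 + V3 = V1 + V2 = s`): sides 0 and 2 are partners (half turn, vector 0), side 1 itself; side 3:
 `V3 + V4 = s + (V4 - V0)`, side 4: `V4 + V0 = s + (V4 - V3)`; `u = V4 - V0`, `w = V4 - V3`.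
zig6: the same with the quadrilateral V0 V3 V4 V5: `u = V4 - V0`, `w = V5 - V3`; side 3: `s + u`, side 4:
 `s + u + w`, side 5: `s + w`. Shoelace sum = `cr u w` in both cases.
-/

open Set MeasureTheory Complex
open scoped Topology

namespace Pool.Agent.Lib_MP_fa6e45

open Pool.Agent.Lib_PL (cr InSector Poly)

private theorem L3b_sum5 (f : ZMod 5 → ℝ) (p : ZMod 5) :
    ∑ i, f i = f p + f (p + 1) + f (p + 2) + f (p + 3) + f (p + 4) := by
  rw [← Equiv.sum_comp (Equiv.addLeft p) f]
  let g : ZMod 5 → ℝ := fun i => f (p + i)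
  have h : ∑ i : ZMod 5, g i = g 0 + g 1 + g 2 + g 3 + g 4 := Fin.sum_univ_five g
  simp only [g, add_zero] at h
  exact h

private theorem L3b_sum6 (f : ZMod 6 → ℝ) (p : ZMod 6) :
    ∑ i, f i = f p + f (p + 1) + f (p + 2) + f (p + 3) + f (p + 4) + f (p + 5) := by
  rw [← Equiv.sum_comp (Equiv.addLeft p) f]
  let g : ZMod 6 → ℝ := fun i => f (p + i)
  have h : ∑ i : ZMod 6, g i = g 0 + g 1 + g 2 + g 3 + g 4 + g 5 := Fin.sum_univ_six g
  simp only [g, add_zero] at h
  exact h

theorem zig5 (P : Polygon 5) (hc : P.CCW) (p : ZMod 5)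
    (h : P.vertex (p + 3) - P.vertex (p + 2) = P.vertex (p + 1) - P.vertex p) :
    HasPeriodic P := by
  have e2 : p + 1 + 1 = p + 2 := by ring
  have e3 : p + 2 + 1 = p + 3 := by ring
  have e4 : p + 3 + 1 = p + 4 := by ring
  have e5 : p + 4 + 1 = p := by
    rw [add_assoc]
    have : (4 : ZMod 5) + 1 = 0 := by decide
    rw [this, add_zero]
  have hA := P.area_eq hc
  rw [L3b_sum5 _ p, e2, e3, e4, e5] at hA
  have h3 : P.vertex (p + 3) = P.vertex (p + 1) + P.vertex (p + 2) - P.vertex p := by
    linear_combination h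
  have hcr : 2 * (volume P.region).toReal =
      cr (P.vertex (p + 4) - P.vertex p) (P.vertex (p + 4) - P.vertex (p + 3)) := by
    rw [hA, h3]
    simp only [cr, sub_re, sub_im, add_re, add_im]
    ring
  have hA2 : 2 * (volume P.region).toReal =
      |cr (P.vertex (p + 4) - P.vertex p) (P.vertex (p + 4) - P.vertex (p + 3))| := by
    rw [abs_of_nonneg, hcr]
    rw [← hcr]
    positivity
  refine conway hc (sideChain P hc p) (P.vertex (p + 1) + P.vertex (p + 2))
    (P.vertex (p + 4) - P.vertex p) (P.vertex (p + 4) - P.vertex (p + 3))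
    ![2, 1, 0, 3, 4] (by decide) (fun _ => true) (fun _ => rfl)
    ![(0, 0), (0, 0), (0, 0), (1, 0), (0, 1)] (by decide) ?_ (fun y hy => by simp at hy) hA2
  intro y _
  fin_cases y
  · simp [sideChain, lv, e3]
    linear_combination (-1 : ℂ) * h
  · simp [sideChain, lv, e2]
  · simp [sideChain, lv, e3]
    linear_combination (-1 : ℂ) * h
  · simp [sideChain, lv, e4]
    constructor <;> linear_combination (-1 : ℂ) * h
  · simp [sideChain, lv, e5]
    constructor <;> linear_combination (-1 : ℂ) * h

theorem zig6 (P : Polygon 6) (hc : P.CCW) (p : ZMod 6)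
    (h : P.vertex (p + 3) - P.vertex (p + 2) = P.vertex (p + 1) - P.vertex p) :
    HasPeriodic P := by
  have e2 : p + 1 + 1 = p + 2 := by ring
  have e3 : p + 2 + 1 = p + 3 := by ring
  have e4 : p + 3 + 1 = p + 4 := by ring
  have e5 : p + 4 + 1 = p + 5 := by ring
  have e6 : p + 5 + 1 = p := by
    rw [add_assoc]
    have : (5 : ZMod 6) + 1 = 0 := by decide
    rw [this, add_zero]
  have hA := P.area_eq hc
  rw [L3b_sum6 _ p, e2, e3, e4, e5, e6] at hA
  have h3 : P.vertex (p + 3) = P.vertex (p + 1) + P.vertex (p + 2) - P.vertex p := by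
    linear_combination h
  have hcr : 2 * (volume P.region).toReal =
      cr (P.vertex (p + 4) - P.vertex p) (P.vertex (p + 5) - P.vertex (p + 3)) := by
    rw [hA, h3]
    simp only [cr, sub_re, sub_im, add_re, add_im]
    ring
  have hA2 : 2 * (volume P.region).toReal =
      |cr (P.vertex (p + 4) - P.vertex p) (P.vertex (p + 5) - P.vertex (p + 3))| := by
    rw [abs_of_nonneg, hcr]
    rw [← hcr]
    positivity
  refine conway hc (sideChain P hc p) (P.vertex (p + 1) + P.vertex (p + 2))
    (P.vertex (p + 4) - P.vertex p) (P.vertex (p + 5) - P.vertex (p + 3))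
    ![2, 1, 0, 3, 4, 5] (by decide) (fun _ => true) (fun _ => rfl)
    ![(0, 0), (0, 0), (0, 0), (1, 0), (1, 1), (0, 1)] (by decide) ?_ (fun y hy => by simp at hy) hA2
  intro y _
  fin_cases y
  · simp [sideChain, lv, e3]
    linear_combination (-1 : ℂ) * h
  · simp [sideChain, lv, e2]
  · simp [sideChain, lv, e3]
    linear_combination (-1 : ℂ) * h
  · simp [sideChain, lv, e4]
    constructor <;> linear_combination (-1 : ℂ) * h
  · simp [sideChain, lv, e5]
    constructor <;> linear_combination (-1 : ℂ) * h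
  · simp [sideChain, lv, e6]
    constructor <;> linear_combination (-1 : ℂ) * h

end Pool.Agent.Lib_MP_fa6e45
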