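import Pool.Agent.Lib_MP_fa6e45.L2b

/-!
PIECE L3c (about 150 lines): pentagon with two parallel sides, `V0 - V4 = -r (V3 - V2)`.
Notation: `V k = vertex (p + k)`, `K = sideChain P hc p`. Area by `Polygon.area_eq` (the shoelace sum is
cyclic, so it can be started at `p`). Everything is a half turn segment with `η = id` unless said otherwise;
the vector behind the side is `s + lv u w (c y)`.
`r = 1`: translation pair (2, 4) with `u = V0 - V2 = V4 - V3`, half turns on 0, 1, 3: `s = V0 + V1`, side 1:
 `V1 + V2 = s - u`, side 3: `V3 + V4 = s + w`, `w = V3 + V4 - s`. Shoelace sum = `- cr u w` (exchange `u`, `w`, or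
 use the absolute value).
`r < 1`: divide the side 2 at `M = V2 + (V4 - V0)` (`Chain.ins`): translation pair ([V2 M], side 4) with
 `u = V0 - V2 = V4 - M`; half turns on 0, 1, [M V3], 3: `s = V0 + V1`; side 1: `s - u`; side 3: `V3 + V4 = s + w`;
 [M V3]: `M + V3 = V2 + V4 - V0 + V3 = s + w - u`.
`r > 1`: divide the side 4 at `M = V0 + (V3 - V2)`: translation pair (side 2, [M V0]) with `u = V0 - V2 = M - V3`;
 side 3: `V3 + V4 = s + w`; [V4 M]: `V4 + M = V4 + V0 + V3 - V2 = s + w + u`.
-/

open Set MeasureTheory Complex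
open scoped Topology

namespace Pool.Agent.Lib_MP_fa6e45

open Pool.Agent.Lib_PL (cr InSector Poly)

private theorem five : (5 : ZMod 5) = 0 := by decide

/-- the shoelace sum starting at `p` -/
private theorem shoe (P : Polygon 5) (hc : P.CCW) (p : ZMod 5) :
    2 * (volume P.region).toReal = cr (P.vertex p) (P.vertex (p + 1)) +
      cr (P.vertex (p + 1)) (P.vertex (p + 2)) + cr (P.vertex (p + 2)) (P.vertex (p + 3)) +
      cr (P.vertex (p + 3)) (P.vertex (p + 4)) + cr (P.vertex (p + 4)) (P.vertex p) := by
  rw [P.area_eq hc, ← Equiv.sum_comp (Equiv.addLeft p)]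
  have h := Fin.sum_univ_five (fun i : ZMod 5 => cr (P.vertex (p + i)) (P.vertex (p + i + 1)))
  have h2 : ∑ i : ZMod 5, cr (P.vertex (Equiv.addLeft p i)) (P.vertex (Equiv.addLeft p i + 1)) =
      ∑ i : Fin 5, cr (P.vertex (p + (show ZMod 5 from i))) (P.vertex (p + (show ZMod 5 from i) + 1)) :=
    rfl
  have e1 : p + 1 + 1 = p + 2 := by ring
  have e2 : p + 2 + 1 = p + 3 := by ring
  have e3 : p + 3 + 1 = p + 4 := by ring
  have e4 : p + 4 + 1 = p := by linear_combination five
  rw [h2]
  have h3 : ∑ i : Fin 5, cr (P.vertex (p + (show ZMod 5 from i)))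
      (P.vertex (p + (show ZMod 5 from i) + 1)) =
      cr (P.vertex (p + 0)) (P.vertex (p + 0 + 1)) +
      cr (P.vertex (p + 1)) (P.vertex (p + 1 + 1)) + cr (P.vertex (p + 2)) (P.vertex (p + 2 + 1)) +
      cr (P.vertex (p + 3)) (P.vertex (p + 3 + 1)) +
      cr (P.vertex (p + 4)) (P.vertex (p + 4 + 1)) := h
  rw [h3, e1, e2, e3, e4, add_zero]
  ring

private theorem kp0 (P : Polygon 5) (hc : P.CCW) (p : ZMod 5) :
    (sideChain P hc p).p 0 = P.vertex p := by
  show P.vertex (p + (((0 : Fin 5) : ℕ) : ZMod 5)) = _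
  congr 1
  simp

private theorem kp1 (P : Polygon 5) (hc : P.CCW) (p : ZMod 5) :
    (sideChain P hc p).p 1 = P.vertex (p + 1) := by
  show P.vertex (p + (((1 : Fin 5) : ℕ) : ZMod 5)) = _
  congr 1

private theorem kp2 (P : Polygon 5) (hc : P.CCW) (p : ZMod 5) :
    (sideChain P hc p).p 2 = P.vertex (p + 2) := rfl

private theorem kp3 (P : Polygon 5) (hc : P.CCW) (p : ZMod 5) :
    (sideChain P hc p).p 3 = P.vertex (p + 3) := rfl

private theorem kp4 (P : Polygon 5) (hc : P.CCW) (p : ZMod 5) :
    (sideChain P hc p).p 4 = P.vertex (p + 4) := rfl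

private theorem kq0 (P : Polygon 5) (hc : P.CCW) (p : ZMod 5) :
    (sideChain P hc p).q 0 = P.vertex (p + 1) := by
  show P.vertex (p + (((0 : Fin 5) : ℕ) : ZMod 5) + 1) = _
  congr 1
  simp

private theorem kq1 (P : Polygon 5) (hc : P.CCW) (p : ZMod 5) :
    (sideChain P hc p).q 1 = P.vertex (p + 2) := by
  show P.vertex (p + (((1 : Fin 5) : ℕ) : ZMod 5) + 1) = _
  congr 1
  simp
  ring

private theorem kq2 (P : Polygon 5) (hc : P.CCW) (p : ZMod 5) :
    (sideChain P hc p).q 2 = P.vertex (p + 3) := by
  show P.vertex (p + 2 + 1) = _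
  congr 1
  ring

private theorem kq3 (P : Polygon 5) (hc : P.CCW) (p : ZMod 5) :
    (sideChain P hc p).q 3 = P.vertex (p + 4) := by
  show P.vertex (p + 3 + 1) = _
  congr 1
  ring

private theorem kq4 (P : Polygon 5) (hc : P.CCW) (p : ZMod 5) :
    (sideChain P hc p).q 4 = P.vertex p := by
  show P.vertex (p + 4 + 1) = _
  congr 1
  linear_combination five

/-- the area in terms of the lattice vectors -/
private theorem area_house (P : Polygon 5) (hc : P.CCW) (p : ZMod 5) (r : ℝ)
    (h : P.vertex p - P.vertex (p + 4) = -((r : ℂ) * (P.vertex (p + 3) - P.vertex (p + 2)))) :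
    2 * (volume P.region).toReal = |cr (P.vertex p - P.vertex (p + 2))
      (P.vertex (p + 3) + P.vertex (p + 4) - (P.vertex p + P.vertex (p + 1)))| := by
  have h1 := congrArg Complex.re h
  have h2 := congrArg Complex.im h
  simp only [sub_re, sub_im, neg_re, neg_im, mul_re, mul_im, ofReal_re, ofReal_im, zero_mul, sub_zero,
    add_zero] at h1 h2
  have h3 : cr (P.vertex p - P.vertex (p + 2))
      (P.vertex (p + 3) + P.vertex (p + 4) - (P.vertex p + P.vertex (p + 1))) =
      -(2 * (volume P.region).toReal) := by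
    rw [shoe P hc p]
    simp only [cr, sub_re, sub_im, add_re, add_im]
    linear_combination ((P.vertex (p + 3)).im - (P.vertex (p + 2)).im) * h1 -
      ((P.vertex (p + 3)).re - (P.vertex (p + 2)).re) * h2
  rw [h3, abs_neg, abs_of_nonneg]
  have : 0 ≤ (volume P.region).toReal := ENNReal.toReal_nonneg
  linarith

/-- the partner of a segment, division point on side 2 -/
private def eta1 : Option (Fin 5) → Option (Fin 5)
  | some 2 => some 4
  | some 4 => some 2
  | x => x

private def hf1 : Option (Fin 5) → Bool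
  | some 2 => false
  | some 4 => false
  | _ => true

private def c1 : Option (Fin 5) → ℤ × ℤ
  | none => (-1, 1)
  | some 0 => (0, 0)
  | some 1 => (-1, 0)
  | some 2 => (-1, 0)
  | some 3 => (0, 1)
  | some 4 => (1, 0)

/-- the partner of a segment, division point on side 4 -/
private def eta2 : Option (Fin 5) → Option (Fin 5)
  | some 2 => none
  | none => some 2
  | x => x

private def hf2 : Option (Fin 5) → Bool
  | some 2 => false
  | none => false
  | _ => true

private def c2 : Option (Fin 5) → ℤ × ℤ
  | none => (1, 0)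
  | some 0 => (0, 0)
  | some 1 => (-1, 0)
  | some 2 => (-1, 0)
  | some 3 => (0, 1)
  | some 4 => (1, 1)

private theorem house1 (P : Polygon 5) (hc : P.CCW) (p : ZMod 5) (r : ℝ) (hr : 0 < r) (hr1 : r ≤ 1)
    (h : P.vertex p - P.vertex (p + 4) = -((r : ℂ) * (P.vertex (p + 3) - P.vertex (p + 2)))) :
    HasPeriodic P := by
  have hM : P.vertex (p + 2) + (P.vertex (p + 4) - P.vertex p) ∈
      segment ℝ ((sideChain P hc p).p 2) ((sideChain P hc p).q 2) := by
    rw [kp2, kq2, segment_eq_image']
    refine ⟨r, ⟨hr.le, hr1⟩, ?_⟩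
    simp only [Complex.real_smul]
    linear_combination h
  have q2 : ((sideChain P hc p).ins 2 _ hM).q (some 2) =
      P.vertex (p + 2) + (P.vertex (p + 4) - P.vertex p) := rfl
  have qn : ((sideChain P hc p).ins 2 _ hM).q none = P.vertex (p + 3) := kq2 P hc p
  have q0 : ((sideChain P hc p).ins 2 _ hM).q (some 0) = P.vertex (p + 1) := kq0 P hc p
  have q1 : ((sideChain P hc p).ins 2 _ hM).q (some 1) = P.vertex (p + 2) := kq1 P hc p
  have q3 : ((sideChain P hc p).ins 2 _ hM).q (some 3) = P.vertex (p + 4) := kq3 P hc p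
  have q4 : ((sideChain P hc p).ins 2 _ hM).q (some 4) = P.vertex p := kq4 P hc p
  have pn : ((sideChain P hc p).ins 2 _ hM).p none =
      P.vertex (p + 2) + (P.vertex (p + 4) - P.vertex p) := rfl
  have p0 : ((sideChain P hc p).ins 2 _ hM).p (some 0) = P.vertex p := kp0 P hc p
  have p1 : ((sideChain P hc p).ins 2 _ hM).p (some 1) = P.vertex (p + 1) := kp1 P hc p
  have p2 : ((sideChain P hc p).ins 2 _ hM).p (some 2) = P.vertex (p + 2) := kp2 P hc p
  have p3 : ((sideChain P hc p).ins 2 _ hM).p (some 3) = P.vertex (p + 3) := kp3 P hc p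
  have p4 : ((sideChain P hc p).ins 2 _ hM).p (some 4) = P.vertex (p + 4) := kp4 P hc p
  refine conway hc ((sideChain P hc p).ins 2 _ hM) (P.vertex p + P.vertex (p + 1))
    (P.vertex p - P.vertex (p + 2))
    (P.vertex (p + 3) + P.vertex (p + 4) - (P.vertex p + P.vertex (p + 1)))
    eta1 (by decide) hf1 (by decide) c1 (by decide) ?_ ?_ (area_house P hc p r h)
  · intro y hy
    rcases y with _ | y
    · show _ + lv _ _ (-1, 1) - ((sideChain P hc p).ins 2 _ hM).p none = _ ∧
        _ + lv _ _ (-1, 1) - ((sideChain P hc p).ins 2 _ hM).q none = _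
      rw [pn, qn]
      simp only [lv]
      push_cast
      constructor <;> ring
    · fin_cases y
      · show _ + lv _ _ (0, 0) - ((sideChain P hc p).ins 2 _ hM).p (some 0) =
          ((sideChain P hc p).ins 2 _ hM).q (some 0) ∧
          _ + lv _ _ (0, 0) - ((sideChain P hc p).ins 2 _ hM).q (some 0) =
          ((sideChain P hc p).ins 2 _ hM).p (some 0)
        rw [p0, q0]
        simp only [lv]
        push_cast
        constructor <;> ring
      · show _ + lv _ _ (-1, 0) - ((sideChain P hc p).ins 2 _ hM).p (some 1) =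
          ((sideChain P hc p).ins 2 _ hM).q (some 1) ∧
          _ + lv _ _ (-1, 0) - ((sideChain P hc p).ins 2 _ hM).q (some 1) =
          ((sideChain P hc p).ins 2 _ hM).p (some 1)
        rw [p1, q1]
        simp only [lv]
        push_cast
        constructor <;> ring
      · exact absurd hy (by decide)
      · show _ + lv _ _ (0, 1) - ((sideChain P hc p).ins 2 _ hM).p (some 3) =
          ((sideChain P hc p).ins 2 _ hM).q (some 3) ∧
          _ + lv _ _ (0, 1) - ((sideChain P hc p).ins 2 _ hM).q (some 3) =
          ((sideChain P hc p).ins 2 _ hM).p (some 3)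
        rw [p3, q3]
        simp only [lv]
        push_cast
        constructor <;> ring
      · exact absurd hy (by decide)
  · intro y hy
    rcases y with _ | y
    · exact absurd hy (by decide)
    · fin_cases y
      · exact absurd hy (by decide)
      · exact absurd hy (by decide)
      · show ((sideChain P hc p).ins 2 _ hM).p (some 4) + lv _ _ (-1, 0) =
          ((sideChain P hc p).ins 2 _ hM).q (some 2) ∧
          ((sideChain P hc p).ins 2 _ hM).q (some 4) + lv _ _ (-1, 0) =
          ((sideChain P hc p).ins 2 _ hM).p (some 2)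
        rw [p4, q2, q4, p2]
        simp only [lv]
        push_cast
        constructor <;> ring
      · exact absurd hy (by decide)
      · show ((sideChain P hc p).ins 2 _ hM).p (some 2) + lv _ _ (1, 0) =
          ((sideChain P hc p).ins 2 _ hM).q (some 4) ∧
          ((sideChain P hc p).ins 2 _ hM).q (some 2) + lv _ _ (1, 0) =
          ((sideChain P hc p).ins 2 _ hM).p (some 4)
        rw [p4, q2, q4, p2]
        simp only [lv]
        push_cast
        constructor <;> ring

private theorem house2 (P : Polygon 5) (hc : P.CCW) (p : ZMod 5) (r : ℝ) (hr1 : 1 ≤ r)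
    (h : P.vertex p - P.vertex (p + 4) = -((r : ℂ) * (P.vertex (p + 3) - P.vertex (p + 2)))) :
    HasPeriodic P := by
  have hM : P.vertex p + (P.vertex (p + 3) - P.vertex (p + 2)) ∈
      segment ℝ ((sideChain P hc p).p 4) ((sideChain P hc p).q 4) := by
    rw [kp4, kq4, segment_eq_image']
    have hr0 : (r : ℂ) ≠ 0 := by
      have : r ≠ 0 := by linarith
      exact_mod_cast this
    refine ⟨1 - 1 / r, ⟨?_, ?_⟩, ?_⟩
    · rw [sub_nonneg, div_le_one (by linarith)]
      exact hr1
    · have : 0 < 1 / r := by positivity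
      linarith
    · simp only [Complex.real_smul]
      push_cast
      field_simp
      linear_combination (-1 : ℂ) * h
  have q2 : ((sideChain P hc p).ins 4 _ hM).q (some 2) = P.vertex (p + 3) := kq2 P hc p
  have qn : ((sideChain P hc p).ins 4 _ hM).q none = P.vertex p := kq4 P hc p
  have q0 : ((sideChain P hc p).ins 4 _ hM).q (some 0) = P.vertex (p + 1) := kq0 P hc p
  have q1 : ((sideChain P hc p).ins 4 _ hM).q (some 1) = P.vertex (p + 2) := kq1 P hc p
  have q3 : ((sideChain P hc p).ins 4 _ hM).q (some 3) = P.vertex (p + 4) := kq3 P hc p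
  have q4 : ((sideChain P hc p).ins 4 _ hM).q (some 4) =
      P.vertex p + (P.vertex (p + 3) - P.vertex (p + 2)) := rfl
  have pn : ((sideChain P hc p).ins 4 _ hM).p none =
      P.vertex p + (P.vertex (p + 3) - P.vertex (p + 2)) := rfl
  have p0 : ((sideChain P hc p).ins 4 _ hM).p (some 0) = P.vertex p := kp0 P hc p
  have p1 : ((sideChain P hc p).ins 4 _ hM).p (some 1) = P.vertex (p + 1) := kp1 P hc p
  have p2 : ((sideChain P hc p).ins 4 _ hM).p (some 2) = P.vertex (p + 2) := kp2 P hc p
  have p3 : ((sideChain P hc p).ins 4 _ hM).p (some 3) = P.vertex (p + 3) := kp3 P hc p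
  have p4 : ((sideChain P hc p).ins 4 _ hM).p (some 4) = P.vertex (p + 4) := kp4 P hc p
  refine conway hc ((sideChain P hc p).ins 4 _ hM) (P.vertex p + P.vertex (p + 1))
    (P.vertex p - P.vertex (p + 2))
    (P.vertex (p + 3) + P.vertex (p + 4) - (P.vertex p + P.vertex (p + 1)))
    eta2 (by decide) hf2 (by decide) c2 (by decide) ?_ ?_ (area_house P hc p r h)
  · intro y hy
    rcases y with _ | y
    · exact absurd hy (by decide)
    · fin_cases y
      · show _ + lv _ _ (0, 0) - ((sideChain P hc p).ins 4 _ hM).p (some 0) =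
          ((sideChain P hc p).ins 4 _ hM).q (some 0) ∧
          _ + lv _ _ (0, 0) - ((sideChain P hc p).ins 4 _ hM).q (some 0) =
          ((sideChain P hc p).ins 4 _ hM).p (some 0)
        rw [p0, q0]
        simp only [lv]
        push_cast
        constructor <;> ring
      · show _ + lv _ _ (-1, 0) - ((sideChain P hc p).ins 4 _ hM).p (some 1) =
          ((sideChain P hc p).ins 4 _ hM).q (some 1) ∧
          _ + lv _ _ (-1, 0) - ((sideChain P hc p).ins 4 _ hM).q (some 1) =
          ((sideChain P hc p).ins 4 _ hM).p (some 1)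
        rw [p1, q1]
        simp only [lv]
        push_cast
        constructor <;> ring
      · exact absurd hy (by decide)
      · show _ + lv _ _ (0, 1) - ((sideChain P hc p).ins 4 _ hM).p (some 3) =
          ((sideChain P hc p).ins 4 _ hM).q (some 3) ∧
          _ + lv _ _ (0, 1) - ((sideChain P hc p).ins 4 _ hM).q (some 3) =
          ((sideChain P hc p).ins 4 _ hM).p (some 3)
        rw [p3, q3]
        simp only [lv]
        push_cast
        constructor <;> ring
      · show _ + lv _ _ (1, 1) - ((sideChain P hc p).ins 4 _ hM).p (some 4) =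
          ((sideChain P hc p).ins 4 _ hM).q (some 4) ∧
          _ + lv _ _ (1, 1) - ((sideChain P hc p).ins 4 _ hM).q (some 4) =
          ((sideChain P hc p).ins 4 _ hM).p (some 4)
        rw [p4, q4]
        simp only [lv]
        push_cast
        constructor <;> ring
  · intro y hy
    rcases y with _ | y
    · show ((sideChain P hc p).ins 4 _ hM).p (some 2) + lv _ _ (1, 0) =
          ((sideChain P hc p).ins 4 _ hM).q none ∧
          ((sideChain P hc p).ins 4 _ hM).q (some 2) + lv _ _ (1, 0) =
          ((sideChain P hc p).ins 4 _ hM).p none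
      rw [p2, qn, q2, pn]
      simp only [lv]
      push_cast
      constructor <;> ring
    · fin_cases y
      · exact absurd hy (by decide)
      · exact absurd hy (by decide)
      · show ((sideChain P hc p).ins 4 _ hM).p none + lv _ _ (-1, 0) =
          ((sideChain P hc p).ins 4 _ hM).q (some 2) ∧
          ((sideChain P hc p).ins 4 _ hM).q none + lv _ _ (-1, 0) =
          ((sideChain P hc p).ins 4 _ hM).p (some 2)
        rw [pn, q2, qn, p2]
        simp only [lv]
        push_cast
        constructor <;> ring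
      · exact absurd hy (by decide)
      · exact absurd hy (by decide)

theorem house (P : Polygon 5) (hc : P.CCW) (p : ZMod 5) (r : ℝ) (hr : 0 < r)
    (h : P.vertex p - P.vertex (p + 4) = -((r : ℂ) * (P.vertex (p + 3) - P.vertex (p + 2)))) :
    HasPeriodic P := by
  rcases le_total r 1 with h1 | h1
  · exact house1 P hc p r hr h1 h
  · exact house2 P hc p r h1 h

end Pool.Agent.Lib_MP_fa6e45
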