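import Pool.Agent.Lib_MP_fa6e45.A1

/-!
PIECE L3d (about 120 lines): from angles to vectors by `side_turn`: the direction of side `i` is the
direction of side `i - 1` turned by `π - ang i`.
-/

open Set MeasureTheory Complex
open scoped Topology

namespace Pool.Agent.Lib_MP_fa6e45

open Pool.Agent.Lib_PL (cr InSector Poly)

/-! ### from angles to vectors (`side_turn`) -/

private theorem sv_step {n : ℕ} (P : Polygon n) (i : ZMod n) :
    P.vertex (i + 1 + 1) - P.vertex (i + 1) = (P.vertex (i + 1) - P.vertex i) *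
      ((P.len (i + 1) / P.len i : ℝ) : ℂ) *
        exp ((((Real.pi - P.ang (i + 1) : ℝ)) : ℂ) * Complex.I) := by
  have h := P.side_turn (i + 1)
  rwa [add_sub_cancel_right] at h

private theorem sv_step2 {n : ℕ} (P : Polygon n) (i : ZMod n) :
    P.vertex (i + 1 + 1 + 1) - P.vertex (i + 1 + 1) = (P.vertex (i + 1) - P.vertex i) *
      ((P.len (i + 1 + 1) / P.len i : ℝ) : ℂ) *
        exp ((((2 * Real.pi - (P.ang (i + 1) + P.ang (i + 1 + 1)) : ℝ)) : ℂ) * Complex.I) := by
  have h1 : ((P.len i : ℝ) : ℂ) ≠ 0 := by exact_mod_cast (P.len_pos i).ne'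
  have h2 : ((P.len (i + 1) : ℝ) : ℂ) ≠ 0 := by exact_mod_cast (P.len_pos (i + 1)).ne'
  have he : exp ((((2 * Real.pi - (P.ang (i + 1) + P.ang (i + 1 + 1)) : ℝ)) : ℂ) * Complex.I) =
      exp ((((Real.pi - P.ang (i + 1) : ℝ)) : ℂ) * Complex.I) *
        exp ((((Real.pi - P.ang (i + 1 + 1) : ℝ)) : ℂ) * Complex.I) := by
    rw [← Complex.exp_add]
    congr 1
    push_cast
    ring
  rw [sv_step P (i + 1), sv_step P i, he]
  push_cast
  field_simp

theorem hex_vec (P : Polygon 6) (p : ZMod 6) (hl : P.len p = P.len (p + 3))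
    (ha : P.ang (p + 1) + P.ang (p + 2) + P.ang (p + 3) = 2 * Real.pi) :
    P.vertex (p + 4) - P.vertex (p + 3) = -(P.vertex (p + 1) - P.vertex p) := by
  have e2 : p + 1 + 1 = p + 2 := by ring
  have e3 : p + 2 + 1 = p + 3 := by ring
  have e4 : p + 3 + 1 = p + 4 := by ring
  have h1 : ((P.len p : ℝ) : ℂ) ≠ 0 := by exact_mod_cast (P.len_pos p).ne'
  have h2 : ((P.len (p + 2) : ℝ) : ℂ) ≠ 0 := by exact_mod_cast (P.len_pos (p + 2)).ne'
  have hA := sv_step2 P p
  have hB := sv_step P (p + 2)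
  rw [e2, e3] at hA
  rw [e3, e4] at hB
  rw [hB, hA, ← hl]
  have he : exp ((((2 * Real.pi - (P.ang (p + 1) + P.ang (p + 2)) : ℝ)) : ℂ) * Complex.I) *
      exp ((((Real.pi - P.ang (p + 3) : ℝ)) : ℂ) * Complex.I) = -1 := by
    rw [← Complex.exp_add, ← Complex.exp_pi_mul_I]
    congr 1
    have h3 : P.ang (p + 3) = 2 * Real.pi - (P.ang (p + 1) + P.ang (p + 2)) := by linarith
    rw [h3]
    push_cast
    ring
  push_cast at he ⊢
  generalize exp ((2 * (Real.pi : ℂ) - ((P.ang (p + 1) : ℂ) + (P.ang (p + 2) : ℂ))) * Complex.I) = x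
    at he ⊢
  generalize exp (((Real.pi : ℂ) - (P.ang (p + 3) : ℂ)) * Complex.I) = y at he ⊢
  field_simp
  linear_combination (P.vertex (p + 1) - P.vertex p) * he

theorem zig_vec {n : ℕ} (P : Polygon n) (p : ZMod n) (hl : P.len p = P.len (p + 2))
    (ha : P.ang (p + 1) + P.ang (p + 2) = 2 * Real.pi) :
    P.vertex (p + 3) - P.vertex (p + 2) = P.vertex (p + 1) - P.vertex p := by
  have e2 : p + 1 + 1 = p + 2 := by ring
  have e3 : p + 2 + 1 = p + 3 := by ring
  have h1 : ((P.len p : ℝ) : ℂ) ≠ 0 := by exact_mod_cast (P.len_pos p).ne'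
  have hA := sv_step2 P p
  rw [e2, e3, ← hl, ha, sub_self] at hA
  rw [hA]
  push_cast
  rw [div_self h1, zero_mul, Complex.exp_zero]
  ring

theorem house_vec (P : Polygon 5) (p : ZMod 5) (ha : P.ang p + P.ang (p + 1) = Real.pi) :
    ∃ q : ZMod 5, ∃ r : ℝ, 0 < r ∧
      P.vertex q - P.vertex (q + 4) = -((r : ℂ) * (P.vertex (q + 3) - P.vertex (q + 2))) := by
  have hA := sv_step2 P (p + 4)
  have e1 : p + 4 + 1 = p := by
    have h5 : (5 : ZMod 5) = 0 := by decide
    linear_combination h5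
  rw [e1, ha] at hA
  refine ⟨p + 2, P.len (p + 1) / P.len (p + 4), div_pos (P.len_pos _) (P.len_pos _), ?_⟩
  have e2 : p + 2 + 4 = p + 1 := by
    have h5 : (5 : ZMod 5) = 0 := by decide
    linear_combination h5
  have e3 : p + 2 + 3 = p := by
    have h5 : (5 : ZMod 5) = 0 := by decide
    linear_combination h5
  have e4 : p + 2 + 2 = p + 4 := by ring
  have e5 : p + 1 + 1 = p + 2 := by ring
  rw [e2, e3, e4]
  rw [e5] at hA
  rw [hA]
  have he : exp ((((2 * Real.pi - Real.pi : ℝ)) : ℂ) * Complex.I) = -1 := by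
    rw [← Complex.exp_pi_mul_I]
    congr 1
    push_cast
    ring
  rw [he]
  ring

end Pool.Agent.Lib_MP_fa6e45
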