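import Pool.Agent.Lib_MP_fa6e45.A1b

/-!
PIECE R1 (about 100 lines): isometries of the plane are motions `Mo`, tilings with an index type.
`exists_mo`: subtract the value at 0, `IsometryEquiv.toRealLinearIsometryEquivOfMapZero`,
`linear_isometry_complex`. `exists_til`: `ι = 𝒮`, choose a motion for every tile; `inner ⊆ interior region`.
-/

open Set MeasureTheory Complex
open scoped Topology

namespace Pool.Agent.Lib_MP_fa6e45

open Pool.Agent.Lib_PL (cr InSector Poly)

variable {n : ℕ}

theorem exists_mo (g : ℂ ≃ᵢ ℂ) : ∃ m : Mo, ∀ z, g z = m.app z := by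
  obtain ⟨a, ha⟩ := linear_isometry_complex g.toRealLinearIsometryEquiv
  have h1 : ∀ z, g z = g.toRealLinearIsometryEquiv z + g 0 := by
    intro z
    rw [IsometryEquiv.toRealLinearIsometryEquiv_apply]
    ring
  rcases ha with ha | ha
  · refine ⟨⟨(a : ℂ), g 0, false, Circle.norm_coe a⟩, fun z => ?_⟩
    rw [h1, ha]
    simp [Mo.app, Mo.lin, rotation_apply]
  · refine ⟨⟨(a : ℂ), g 0, true, Circle.norm_coe a⟩, fun z => ?_⟩
    rw [h1, ha]
    simp [Mo.app, Mo.lin, rotation_apply]

theorem exists_til (P : Polygon n) {𝒮 : Set (Set ℂ)} (h : P.IsTiling 𝒮) (he : P.EdgeToEdge 𝒮) :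
    Nonempty (Til P 𝒮) := by
  have h1 : ∀ t : 𝒮, ∃ m : Mo, (t : Set ℂ) = m.app '' P.region := by
    intro t
    obtain ⟨g, hg⟩ := h.congruent t t.2
    obtain ⟨m, hm⟩ := exists_mo g
    refine ⟨m, ?_⟩
    rw [hg]
    exact Set.image_congr fun z _ => hm z
  choose m hm using h1
  have h2 : ∀ t : 𝒮, (m t).app '' P.inner ⊆ interior (t : Set ℂ) := by
    intro t
    apply interior_maximal
    · rw [hm t]
      apply Set.image_mono
      rw [P.region_union]
      exact Set.subset_union_right
    · exact (m t).iso.toHomeomorph.isOpenMap _ P.inner_open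
  refine ⟨⟨m, ?_, ?_, ?_⟩⟩
  · intro z
    have hz : z ∈ ⋃₀ 𝒮 := by
      rw [h.cover]
      trivial
    obtain ⟨t, ht, hzt⟩ := hz
    refine ⟨⟨t, ht⟩, ?_⟩
    rw [← hm ⟨t, ht⟩]
    exact hzt
  · intro s t hst
    exact (h.disj s s.2 t t.2 fun h => hst (Subtype.ext h)).mono (h2 s) (h2 t)
  · intro s t i j
    have hs : (m s).iso '' P.region ∈ 𝒮 := by
      have := hm s
      change (m s).app '' P.region ∈ 𝒮
      rw [← this]
      exact s.2
    have ht : (m t).iso '' P.region ∈ 𝒮 := by
      have := hm t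
      change (m t).app '' P.region ∈ 𝒮
      rw [← this]
      exact t.2
    exact he (m s).iso (m t).iso hs ht i j

end Pool.Agent.Lib_MP_fa6e45
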