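import Pool.Agent.Lib_MP_fa6e45.T4b
import Pool.Agent.Lib_MP_fa6e45.K2
import Pool.Agent.Lib_MP_fa6e45.L3a
import Pool.Agent.Lib_MP_fa6e45.L3b
import Pool.Agent.Lib_MP_fa6e45.L3c
import Pool.Agent.Lib_MP_fa6e45.L3d
import Pool.Agent.Lib_MP_fa6e45.R1
import Pool.Agent.Lib_MP_fa6e45.R2

/-!
PIECE R (about 150 lines): assembly.
-/

open Set MeasureTheory Complex
open scoped Topology

namespace Pool.Agent.Lib_MP_fa6e45

open Pool.Agent.Lib_PL (cr InSector Poly)

variable {n : ℕ}

/-- the main theorem for counterclockwise polygons -/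
theorem main_ccw (P : Polygon n) (hc : P.CCW) {𝒮 : Set (Set ℂ)} (h : P.IsTiling 𝒮)
    (he : P.EdgeToEdge 𝒮) : {i : ZMod n | ¬ P.Complementary i}.ncard ≤ 6 ∧
    ((∀ i j i' j' : ZMod n, i ≠ j → i' ≠ j' → P.len i = P.len j → P.len i' = P.len j' →
      ({i, j} : Set (ZMod n)) = {i', j'}) → ∃ 𝒯 : Set (Set ℂ), P.IsTiling 𝒯 ∧ Periodic 𝒯) := by
  haveI : NeZero n := ⟨by have := P.three_le; omega⟩
  obtain ⟨T⟩ := exists_til P h he
  obtain ⟨K⟩ := T.comb hc
  constructor
  · have h1 := K.six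
    have h2 : {i : ZMod n | ¬ P.Complementary i} = {i : ZMod n | ¬ ∃ j, Compl P.ang P.len i j} := by
      ext i
      simp only [mem_ofPred_eq]
      have h3 : P.Complementary i ↔ ∃ j, Compl P.ang P.len i j := by
        unfold Polygon.Complementary Compl
        simp only [Polygon.angle_eq hc]
      rw [h3]
    rw [h2]
    exact h1
  · intro hl
    rcases K.cases hl with h1 | h1 | ⟨h1, p, h2, h3⟩ | ⟨h1, p, h2⟩ | ⟨h1, p, h2, h3⟩
    · subst h1
      exact tri P hc
    · subst h1
      exact quad P hc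
    · subst h1
      exact hex P hc p (hex_vec P p h2 h3)
    · subst h1
      obtain ⟨q, r, hr, h4⟩ := house_vec P p h2
      exact house P hc q r hr h4
    · rcases h1 with h1 | h1
      · subst h1
        exact zig5 P hc p (zig_vec P p h2 h3)
      · subst h1
        exact zig6 P hc p (zig_vec P p h2 h3)

theorem main_thm (P : Polygon n) {𝒮 : Set (Set ℂ)} (h : P.IsTiling 𝒮)
    (he : P.EdgeToEdge 𝒮) : {i : ZMod n | ¬ P.Complementary i}.ncard ≤ 6 ∧
    ((∀ i j i' j' : ZMod n, i ≠ j → i' ≠ j' → P.len i = P.len j → P.len i' = P.len j' →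
      ({i, j} : Set (ZMod n)) = {i', j'}) → ∃ 𝒯 : Set (Set ℂ), P.IsTiling 𝒯 ∧ Periodic 𝒯) := by
  rcases P.ccw_or with hc | hc
  · exact main_ccw P hc h he
  have hT : ∀ 𝒯 : Set (Set ℂ), P.rev.IsTiling 𝒯 ↔ P.IsTiling 𝒯 := by
    intro 𝒯
    constructor
    · rintro ⟨h1, h2, h3⟩
      exact ⟨fun t ht => by simpa only [P.rev_region] using h1 t ht, h2, h3⟩
    · rintro ⟨h1, h2, h3⟩
      exact ⟨fun t ht => by simpa only [P.rev_region] using h1 t ht, h2, h3⟩
  have hE : P.rev.EdgeToEdge 𝒮 := by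
    intro g k hg hk i j
    rw [P.rev_region] at hg hk
    have h1 := he g k hg hk (-i) (-j - 1)
    rw [openSegment_symm] at h1
    have e1 : -j - 1 + 1 = -j := by ring
    have e2 : -(j + 1) = -j - 1 := by ring
    rw [e1] at h1
    change g (P.vertex (-i)) ∉ openSegment ℝ (k (P.vertex (-j))) (k (P.vertex (-(j + 1))))
    rw [e2]
    exact h1
  obtain ⟨h1, h2⟩ := main_ccw P.rev hc ((hT 𝒮).2 h) hE
  constructor
  · have h3 : ∀ i, P.rev.Complementary i ↔ P.Complementary (-i) := by
      intro i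
      unfold Polygon.Complementary
      simp only [P.rev_angle, P.rev_len]
      have e1 : ∀ k : ZMod n, -(k - 1) - 1 = -k := fun k => by ring
      constructor
      · rintro ⟨j, hj, h4, h5⟩
        refine ⟨-j, fun h => hj (neg_injective h), h4, ?_⟩
        simp only [e1] at h5
        rcases h5 with ⟨h5, h6⟩ | ⟨h5, h6⟩
        · exact Or.inl ⟨h6, h5⟩
        · exact Or.inr ⟨h6, h5⟩
      · rintro ⟨j, hj, h4, h5⟩
        refine ⟨-j, fun h => hj (by rw [← h, neg_neg]), by rw [neg_neg]; exact h4, ?_⟩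
        simp only [e1, neg_neg]
        rcases h5 with ⟨h5, h6⟩ | ⟨h5, h6⟩
        · exact Or.inl ⟨h6, h5⟩
        · exact Or.inr ⟨h6, h5⟩
    have h4 : {i : ZMod n | ¬ P.rev.Complementary i} =
        (fun i => -i) '' {i : ZMod n | ¬ P.Complementary i} := by
      ext i
      simp only [mem_ofPred_eq, mem_image, h3]
      constructor
      · intro h
        exact ⟨-i, h, neg_neg i⟩
      · rintro ⟨j, hj, rfl⟩
        rwa [neg_neg]
    rw [h4, ncard_image_of_injective _ neg_injective] at h1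
    exact h1
  · intro hl
    obtain ⟨𝒯, h3, h4⟩ := h2 (by
      intro i j i' j' hij hij' h5 h6
      rw [P.rev_len, P.rev_len] at h5 h6
      have h7 := hl (-i - 1) (-j - 1) (-i' - 1) (-j' - 1)
        (fun h => hij (neg_injective (sub_left_injective h)))
        (fun h => hij' (neg_injective (sub_left_injective h))) h5 h6
      have h8 := congrArg (fun S : Set (ZMod n) => (fun x => -x - 1) '' S) h7
      simp only [image_pair] at h8
      have e1 : ∀ k : ZMod n, -(-k - 1) - 1 = k := fun k => by ring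
      simpa only [e1] using h8)
    exact ⟨𝒯, (hT 𝒯).1 h3, h4⟩

end Pool.Agent.Lib_MP_fa6e45
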