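import Pool.Agent.Lib_MP_fa6e45.T1b

/-!
PIECE T1c (about 120 lines): the angles around a point where a corner lies sum to `2 π`. For small `r`
the disc `ball z r` is covered by the tiles which contain `z` (`near`), each has exactly one corner at
`z` (`corner_at`, `vx_inj`), the intersections have disjoint interiors and null boundaries, so
`π r ^ 2 = ∑ ang * r ^ 2 / 2` (`area_corner`).
-/

open Set MeasureTheory Complex
open scoped Topology

namespace Pool.Agent.Lib_MP_fa6e45

open Pool.Agent.Lib_PL (cr InSector Poly)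

variable {n : ℕ} {P : Polygon n} {ι : Type}

/-- finitely many positive numbers have a common positive lower bound -/
private theorem exists_pos_lt {α : Type*} (s : Finset α) (f : α → ℝ) (hf : ∀ x ∈ s, 0 < f x) :
    ∃ δ : ℝ, 0 < δ ∧ ∀ x ∈ s, δ < f x := by
  classical
  induction s using Finset.induction_on with
  | empty => exact ⟨1, one_pos, by simp⟩
  | @insert a s ha ih =>
    obtain ⟨δ, h0, h1⟩ := ih fun x hx => hf x (Finset.mem_insert_of_mem hx)
    have h2 := hf a (Finset.mem_insert_self a s)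
    refine ⟨min δ (f a / 2), lt_min h0 (by linarith), fun x hx => ?_⟩
    rcases Finset.mem_insert.1 hx with rfl | hx
    · exact lt_of_le_of_lt (min_le_right _ _) (by linarith)
    · exact lt_of_le_of_lt (min_le_left _ _) (h1 x hx)

/-- two different tiles have a null set in common -/
private theorem Til.volume_inter (T : Til P ι) {s t : ι} (h : s ≠ t) :
    volume (T.R s ∩ T.R t) = 0 := by
  refine measure_mono_null ?_ (T.volume_C s)
  rintro w ⟨h1, h2⟩
  rw [T.R_eq s] at h1
  rcases h1 with h1 | h1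
  · exact h1
  · exact absurd h2 (Set.disjoint_left.1 (T.I_disj_R h) h1)

/-- the angles around a point where a corner lies sum to `2 π` (area of the small disc around it) -/
theorem Til.star_sum (hc : P.CCW) (T : Til P ι) (c : ι × ZMod n) :
    ∑ x ∈ (T.star_finite (T.vx c)).toFinset, P.ang x.2 = 2 * Real.pi := by
  classical
  set S := (T.star_finite (T.vx c)).toFinset with hS
  have hmem : ∀ x : ι × ZMod n, x ∈ S ↔ T.vx x = T.vx c := by
    intro x
    rw [hS, Set.Finite.mem_toFinset]
    rfl
  obtain ⟨ρ₀, hρ₀, hnear⟩ := T.near (T.vx c)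
  choose ρ hρ hρ' using fun x : ι × ZMod n => T.area_corner hc x
  obtain ⟨δ, hδ, hδ'⟩ := exists_pos_lt S ρ fun x _ => hρ x
  obtain ⟨r, hr, hr₀, hrδ⟩ : ∃ r : ℝ, 0 < r ∧ r < ρ₀ ∧ r < δ := by
    refine ⟨min ρ₀ δ / 2, ?_, ?_, ?_⟩
    · have := lt_min hρ₀ hδ
      linarith
    · have h1 := lt_min hρ₀ hδ
      have h2 := min_le_left ρ₀ δ
      linarith
    · have h1 := lt_min hρ₀ hδ
      have h2 := min_le_right ρ₀ δ
      linarith
  -- the disc is the union of the parts of the tiles
  have hcov : Metric.ball (T.vx c) r = ⋃ x ∈ S, (T.R x.1 ∩ Metric.ball (T.vx c) r) := by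
    ext w
    simp only [Set.mem_iUnion, exists_prop]
    constructor
    · intro hw
      obtain ⟨t, ht⟩ := T.cover w
      have hw' : ‖w - T.vx c‖ < ρ₀ := by
        rw [← dist_eq_norm]
        exact lt_trans (Metric.mem_ball.1 hw) hr₀
      have h1 : T.vx c ∈ T.R t := hnear w hw' t ht
      obtain ⟨j, hj⟩ := T.corner_at c h1
      exact ⟨(t, j), (hmem _).2 hj, ht, hw⟩
    · rintro ⟨x, _, _, hw⟩
      exact hw
  have hdisj : (↑S : Set (ι × ZMod n)).Pairwise
      (Function.onFun (AEDisjoint volume) fun x => T.R x.1 ∩ Metric.ball (T.vx c) r) := by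
    intro x hx y hy hxy
    have hne : x.1 ≠ y.1 := by
      intro h
      apply hxy
      have h1 : T.vx (x.1, x.2) = T.vx (x.1, y.2) := by
        have h2 := (hmem x).1 hx
        have h3 := (hmem y).1 hy
        rw [show ((x.1, y.2) : ι × ZMod n) = y from Prod.ext h rfl]
        exact h2.trans h3.symm
      exact Prod.ext h (T.vx_inj h1)
    refine measure_mono_null ?_ (T.volume_inter hne)
    rintro w ⟨⟨h1, _⟩, h2, _⟩
    exact ⟨h1, h2⟩
  have hmeas : ∀ x ∈ S, NullMeasurableSet (T.R x.1 ∩ Metric.ball (T.vx c) r) volume := fun x _ =>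
    ((T.R_closed x.1).measurableSet.inter measurableSet_ball).nullMeasurableSet
  have hvol := measure_biUnion_finset₀ hdisj hmeas
  rw [← hcov, Complex.volume_ball] at hvol
  have hterm : ∀ x ∈ S, volume (T.R x.1 ∩ Metric.ball (T.vx c) r) =
      ENNReal.ofReal (P.ang x.2 * r ^ 2 / 2) := by
    intro x hx
    rw [← (hmem x).1 hx]
    exact hρ' x r hr (lt_trans hrδ (hδ' x hx))
  rw [Finset.sum_congr rfl hterm, ← ENNReal.ofReal_sum_of_nonneg (fun x _ => by
    have := P.ang_pos x.2
    positivity)] at hvol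
  have hR := congrArg ENNReal.toReal hvol
  rw [ENNReal.toReal_ofReal (Finset.sum_nonneg fun x _ => by
    have := P.ang_pos x.2
    positivity), ENNReal.toReal_mul, ENNReal.toReal_pow, ENNReal.toReal_ofReal hr.le,
    ENNReal.coe_toReal, NNReal.coe_real_pi] at hR
  have hsum : ∑ x ∈ S, P.ang x.2 * r ^ 2 / 2 = (∑ x ∈ S, P.ang x.2) * (r ^ 2 / 2) := by
    rw [Finset.sum_mul]
    exact Finset.sum_congr rfl fun x _ => by ring
  rw [hsum] at hR
  have hr2 : (0 : ℝ) < r ^ 2 / 2 := by positivity
  have : (∑ x ∈ S, P.ang x.2) * (r ^ 2 / 2) = (2 * Real.pi) * (r ^ 2 / 2) := by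
    rw [← hR]
    ring
  exact mul_right_cancel₀ hr2.ne' this

end Pool.Agent.Lib_MP_fa6e45
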