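import Pool.Agent.Lib_MP_fa6e45.A2c
import Pool.Agent.Lib_MP_fa6e45.T1c

/-!
PIECE T4a: the counting lemma for a disc.
Let `W` be the finite set of the points in the closed disc of radius `r` where a corner lies.
`∑_{z ∈ W} 2 π = ∑_{z ∈ W} ∑_{c at z} ang c.2 ≥ ∑_{t ∈ meets (r - d)} ∑_i ang i = N (r - d) (n - 2) π`, since a
tile which meets the disc of radius `r - d` lies in the disc of radius `r` (`dist_le`).
`|W| = ∑_{z ∈ W} ∑_{c at z} 1 / (number of corners at z) ≤ ∑_{t ∈ meets r} ∑_i 1 / D i`.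
(Use the finite set of all corners `c` with `c.1 ∈ meets r`, `Finset.sum_fiberwise`.)
-/

open Set MeasureTheory Complex
open scoped Topology

namespace Pool.Agent.Lib_MP_fa6e45

open Pool.Agent.Lib_PL (cr InSector Poly)

variable {n : ℕ} {P : Polygon n} {ι : Type}

private theorem T4a_vx_mem (T : Til P ι) (c : ι × ZMod n) : T.vx c ∈ T.R c.1 := by
  refine ⟨P.vertex c.2, ?_, rfl⟩
  rw [P.region_union, P.bdry_eq]
  exact Or.inl (Set.mem_iUnion.2 ⟨c.2, left_mem_segment ℝ _ _⟩)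

private theorem T4a_meets (T : Til P ι) {r : ℝ} {c : ι × ZMod n} (h : ‖T.vx c‖ ≤ r) :
    c.1 ∈ T.meets r := by
  refine ⟨T.vx c, T4a_vx_mem T c, ?_⟩
  rwa [Metric.mem_closedBall, dist_zero_right]

private theorem T4a_in (T : Til P ι) {r : ℝ} {c : ι × ZMod n} (h : c.1 ∈ T.meets (r - P.dm)) :
    ‖T.vx c‖ ≤ r := by
  obtain ⟨w, hw, hw2⟩ := h
  have h1 := T.dist_le (T4a_vx_mem T c) hw
  rw [Metric.mem_closedBall] at hw2
  have h2 := dist_triangle (T.vx c) w 0
  rw [← dist_zero_right]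
  linarith

theorem Til.count_finite [NeZero n] (hc : P.CCW) (T : Til P ι) (D : ZMod n → ℕ)
    (h0 : ∀ i, 0 < D i) (hD : ∀ c : ι × ZMod n, D c.2 ≤ (T.star (T.vx c)).ncard) (r : ℝ)
    (hr : P.dm ≤ r) : ((n : ℝ) - 2) / 2 * ((T.meets (r - P.dm)).ncard : ℝ) ≤
      ((T.meets r).ncard : ℝ) * ∑ i, (1 : ℝ) / (D i : ℝ) := by
  classical
  have _ := hr
  set A : Finset (ι × ZMod n) := (T.meets_finite r).toFinset ×ˢ Finset.univ with hA
  set B : Finset (ι × ZMod n) := A.filter (fun c => ‖T.vx c‖ ≤ r) with hB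
  set A' : Finset (ι × ZMod n) := (T.meets_finite (r - P.dm)).toFinset ×ˢ Finset.univ with hA'
  set W : Finset ℂ := B.image T.vx with hW
  have hfib : ∀ z ∈ W, (T.star_finite z).toFinset = B.filter (fun c => T.vx c = z) := by
    intro z hz
    obtain ⟨c, hcB, rfl⟩ := Finset.mem_image.1 hz
    have hcr : ‖T.vx c‖ ≤ r := (Finset.mem_filter.1 hcB).2
    ext x
    rw [Set.Finite.mem_toFinset, Finset.mem_filter]
    constructor
    · intro hx
      have hx' : T.vx x = T.vx c := hx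
      have hxr : ‖T.vx x‖ ≤ r := by rw [hx']; exact hcr
      refine ⟨Finset.mem_filter.2 ⟨?_, hxr⟩, hx'⟩
      rw [hA, Finset.mem_product]
      exact ⟨(T.meets_finite r).mem_toFinset.2 (T4a_meets T hxr), Finset.mem_univ _⟩
    · intro hx
      exact hx.2
  have hmaps : ∀ c ∈ B, T.vx c ∈ W := fun c hcB => Finset.mem_image_of_mem _ hcB
  -- the angles
  have h1 : ∑ c ∈ B, P.ang c.2 = (W.card : ℝ) * (2 * Real.pi) := by
    rw [← Finset.sum_fiberwise_of_maps_to hmaps (fun c => P.ang c.2)]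
    rw [Finset.sum_congr rfl (g := fun _ => 2 * Real.pi), Finset.sum_const, nsmul_eq_mul]
    intro z hz
    obtain ⟨c, hcB, rfl⟩ := Finset.mem_image.1 hz
    rw [← hfib _ hz]
    exact T.star_sum hc c
  have h2 : ∑ c ∈ A', P.ang c.2 = ((T.meets (r - P.dm)).ncard : ℝ) * (((n : ℝ) - 2) * Real.pi) := by
    rw [hA', Finset.sum_product]
    dsimp only
    rw [Finset.sum_const, Set.ncard_eq_toFinset_card _ (T.meets_finite (r - P.dm)),
      nsmul_eq_mul, P.ang_sum hc]
  have h3 : ∑ c ∈ A', P.ang c.2 ≤ ∑ c ∈ B, P.ang c.2 := by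
    apply Finset.sum_le_sum_of_subset_of_nonneg
    · intro c hcA
      have h4 : c.1 ∈ T.meets (r - P.dm) :=
        (T.meets_finite (r - P.dm)).mem_toFinset.1 (Finset.mem_product.1 hcA).1
      have h5 := T4a_in T h4
      refine Finset.mem_filter.2 ⟨?_, h5⟩
      rw [hA, Finset.mem_product]
      exact ⟨(T.meets_finite r).mem_toFinset.2 (T4a_meets T h5), Finset.mem_univ _⟩
    · intro c _ _
      exact (P.ang_pos c.2).le
  have h4 : ((n : ℝ) - 2) / 2 * ((T.meets (r - P.dm)).ncard : ℝ) ≤ (W.card : ℝ) := by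
    have hpi := Real.pi_pos
    rw [h1, h2] at h3
    have h5 : (((n : ℝ) - 2) / 2 * ((T.meets (r - P.dm)).ncard : ℝ)) * (2 * Real.pi) ≤
        (W.card : ℝ) * (2 * Real.pi) := by linarith
    exact le_of_mul_le_mul_right h5 (by positivity)
  -- the number of points
  have hcard : ∀ z, (T.star z).ncard = ((T.star_finite z).toFinset).card := fun z =>
    Set.ncard_eq_toFinset_card _ (T.star_finite z)
  have h5 : (W.card : ℝ) = ∑ c ∈ B, (1 : ℝ) / ((T.star (T.vx c)).ncard : ℝ) := by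
    rw [← Finset.sum_fiberwise_of_maps_to hmaps
      (fun c => (1 : ℝ) / ((T.star (T.vx c)).ncard : ℝ))]
    rw [Finset.sum_congr rfl (g := fun _ => (1 : ℝ)), Finset.sum_const, nsmul_eq_mul, mul_one]
    intro z hz
    rw [Finset.sum_congr rfl (g := fun _ => (1 : ℝ) / ((T.star z).ncard : ℝ))]
    · rw [Finset.sum_const, nsmul_eq_mul, hcard, hfib z hz]
      obtain ⟨c, hcB, hcz⟩ := Finset.mem_image.1 hz
      have hpos : 0 < (B.filter (fun c => T.vx c = z)).card :=
        Finset.card_pos.2 ⟨c, Finset.mem_filter.2 ⟨hcB, hcz⟩⟩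
      have hpos' : ((B.filter (fun c => T.vx c = z)).card : ℝ) ≠ 0 := by
        exact_mod_cast hpos.ne'
      field_simp
    · intro c hcF
      rw [(Finset.mem_filter.1 hcF).2]
  have h6 : ∑ c ∈ B, (1 : ℝ) / ((T.star (T.vx c)).ncard : ℝ) ≤
      ∑ c ∈ B, (1 : ℝ) / (D c.2 : ℝ) := by
    apply Finset.sum_le_sum
    intro c _
    have hd : (0 : ℝ) < (D c.2 : ℝ) := by exact_mod_cast h0 c.2
    exact one_div_le_one_div_of_le hd (by exact_mod_cast hD c)
  have h7 : ∑ c ∈ B, (1 : ℝ) / (D c.2 : ℝ) ≤ ∑ c ∈ A, (1 : ℝ) / (D c.2 : ℝ) := by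
    apply Finset.sum_le_sum_of_subset_of_nonneg (Finset.filter_subset _ _)
    intro c _ _
    positivity
  have h8 : ∑ c ∈ A, (1 : ℝ) / (D c.2 : ℝ) =
      ((T.meets r).ncard : ℝ) * ∑ i, (1 : ℝ) / (D i : ℝ) := by
    rw [hA, Finset.sum_product]
    dsimp only
    rw [Finset.sum_const, Set.ncard_eq_toFinset_card _ (T.meets_finite r), nsmul_eq_mul]
  linarith

end Pool.Agent.Lib_MP_fa6e45
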