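import Pool.Agent.Lib_MP_fa6e45.T3b
import Pool.Agent.Lib_MP_fa6e45.T4a

/-!
PIECE T4b (about 100 lines): the counting lemma in the limit, assembly of the combinatorial data.
`count`: `(n - 2) / 2 * N (r - d) ≤ N r * S`; `N (r - d) A ≥ π (r - d) ^ 2`, `N r A ≤ π (r + d) ^ 2`; divide by
`r ^ 2`, `r → ∞`. `comb`: `nx_orbit`, `uu_step` with `norm_uu`, `norm_ww`; `step_flip` with `step_unique`.
-/

open Set MeasureTheory Complex
open scoped Topology

namespace Pool.Agent.Lib_MP_fa6e45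

open Pool.Agent.Lib_PL (cr InSector Poly)

variable {n : ℕ} {P : Polygon n} {ι : Type}

theorem Til.count [NeZero n] (hc : P.CCW) (T : Til P ι) (D : ZMod n → ℕ) (h0 : ∀ i, 0 < D i)
    (hD : ∀ c : ι × ZMod n, D c.2 ≤ (T.star (T.vx c)).ncard) :
    ((n : ℝ) - 2) / 2 ≤ ∑ i, (1 : ℝ) / (D i : ℝ) := by
  have hA := P.volume_pos
  have hS : (0 : ℝ) ≤ ∑ i, (1 : ℝ) / (D i : ℝ) :=
    Finset.sum_nonneg fun i _ => by positivity
  have hd : 0 ≤ P.dm := Metric.diam_nonneg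
  have hn : (0 : ℝ) ≤ ((n : ℝ) - 2) / 2 := by
    have h3 : (3 : ℝ) ≤ n := by exact_mod_cast P.three_le
    linarith
  have hπ := Real.pi_pos
  have key : ∀ r : ℝ, P.dm ≤ r → ((n : ℝ) - 2) / 2 * (r - P.dm) ^ 2 ≤
      (r + P.dm) ^ 2 * ∑ i, (1 : ℝ) / (D i : ℝ) := by
    intro r hr
    have h1 := T.count_finite hc D h0 hD r hr
    have h2 := T.count_ge (r := r - P.dm) (by linarith)
    have h3 := T.count_le (r := r) (by linarith)
    have h4 : ((n : ℝ) - 2) / 2 * (Real.pi * (r - P.dm) ^ 2) ≤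
        (Real.pi * (r + P.dm) ^ 2) * ∑ i, (1 : ℝ) / (D i : ℝ) := by
      calc ((n : ℝ) - 2) / 2 * (Real.pi * (r - P.dm) ^ 2)
          ≤ ((n : ℝ) - 2) / 2 * (((T.meets (r - P.dm)).ncard : ℝ) *
              (volume P.region).toReal) := mul_le_mul_of_nonneg_left h2 hn
        _ = (((n : ℝ) - 2) / 2 * ((T.meets (r - P.dm)).ncard : ℝ)) *
              (volume P.region).toReal := by ring
        _ ≤ (((T.meets r).ncard : ℝ) * ∑ i, (1 : ℝ) / (D i : ℝ)) *
              (volume P.region).toReal := mul_le_mul_of_nonneg_right h1 hA.le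
        _ = (((T.meets r).ncard : ℝ) * (volume P.region).toReal) *
              ∑ i, (1 : ℝ) / (D i : ℝ) := by ring
        _ ≤ (Real.pi * (r + P.dm) ^ 2) * ∑ i, (1 : ℝ) / (D i : ℝ) :=
              mul_le_mul_of_nonneg_right h3 hS
    have h5 : Real.pi * (((n : ℝ) - 2) / 2 * (r - P.dm) ^ 2) ≤
        Real.pi * ((r + P.dm) ^ 2 * ∑ i, (1 : ℝ) / (D i : ℝ)) := by
      calc Real.pi * (((n : ℝ) - 2) / 2 * (r - P.dm) ^ 2)
          = ((n : ℝ) - 2) / 2 * (Real.pi * (r - P.dm) ^ 2) := by ring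
        _ ≤ (Real.pi * (r + P.dm) ^ 2) * ∑ i, (1 : ℝ) / (D i : ℝ) := h4
        _ = Real.pi * ((r + P.dm) ^ 2 * ∑ i, (1 : ℝ) / (D i : ℝ)) := by ring
    exact le_of_mul_le_mul_left h5 hπ
  have hinv : Filter.Tendsto (fun r : ℝ => P.dm / r) Filter.atTop (𝓝 0) :=
    tendsto_const_nhds.div_atTop Filter.tendsto_id
  have hl : Filter.Tendsto (fun r : ℝ => ((n : ℝ) - 2) / 2 * (1 - P.dm / r) ^ 2) Filter.atTop
      (𝓝 (((n : ℝ) - 2) / 2 * (1 - 0) ^ 2)) :=
    ((tendsto_const_nhds.sub hinv).pow 2).const_mul _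
  have hr : Filter.Tendsto (fun r : ℝ => (1 + P.dm / r) ^ 2 * ∑ i, (1 : ℝ) / (D i : ℝ))
      Filter.atTop (𝓝 ((1 + 0) ^ 2 * ∑ i, (1 : ℝ) / (D i : ℝ))) :=
    ((tendsto_const_nhds.add hinv).pow 2).mul_const _
  have hle := le_of_tendsto_of_tendsto hl hr (by
    filter_upwards [Filter.eventually_ge_atTop P.dm, Filter.eventually_gt_atTop (0 : ℝ)]
      with r hr1 hr2
    have h1 := key r hr1
    have h2 : (1 - P.dm / r) ^ 2 = (r - P.dm) ^ 2 / r ^ 2 := by
      field_simp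
    have h3 : (1 + P.dm / r) ^ 2 = (r + P.dm) ^ 2 / r ^ 2 := by
      field_simp
    have hr0 : (0 : ℝ) < r ^ 2 := by positivity
    have h4 : ((n : ℝ) - 2) / 2 * (1 - P.dm / r) ^ 2 =
        (((n : ℝ) - 2) / 2 * (r - P.dm) ^ 2) / r ^ 2 := by
      rw [h2, mul_div_assoc]
    have h5 : (1 + P.dm / r) ^ 2 * ∑ i, (1 : ℝ) / (D i : ℝ) =
        ((r + P.dm) ^ 2 * ∑ i, (1 : ℝ) / (D i : ℝ)) / r ^ 2 := by
      rw [h3, div_mul_eq_mul_div]
    rw [h4, h5]
    exact div_le_div_of_nonneg_right h1 hr0.le)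
  simpa using hle

/-- the combinatorial data of a tiling -/
theorem Til.comb [NeZero n] (hc : P.CCW) (T : Til P ι) : Nonempty (Comb n P.ang P.len ι) := by
  obtain ⟨nx, hnx⟩ := T.exists_nx hc
  refine ⟨{
    three_le := P.three_le
    a_pos := P.ang_pos
    a_lt := P.ang_lt
    a_ne := P.ang_ne
    a_sum := P.ang_sum hc
    rf := T.rf
    nx := nx
    deg_pos := fun c => (T.nx_orbit hc nx hnx c).1
    sum := fun c => (T.nx_orbit hc nx hnx c).2.1
    len := ?_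
    flip := ?_
    count := ?_ }⟩
  · intro c
    rw [← T.norm_uu, ← T.norm_ww, T.uu_step (hnx c)]
  · intro c
    exact T.step_unique hc (hnx _) (T.step_flip (hnx c))
  · intro D h0 hD
    apply T.count hc D h0
    intro c
    rw [(T.nx_orbit hc nx hnx c).2.2]
    exact hD c

end Pool.Agent.Lib_MP_fa6e45
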