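import Pool.Agent.Lib_MP_fa6e45.V1a
import Pool.Agent.Lib_MP_fa6e45.T4b

/-!
PIECE V1b (about 100 lines): the combinatorial data with the averaging principle. The sum over
`range (minimalPeriod nx c)` is the sum over the star (`nx_orbit`: the orbit is the star: an injective map of
`range` into the star with the right cardinality). `K.deg c = (T.star (T.vx c)).ncard`, so `h3` gives degrees `≥ 3`.
-/

open Set MeasureTheory Complex
open scoped Topology

namespace Pool.Agent.Lib_MP_fa6e45

open Pool.Agent.Lib_PL (cr InSector Poly)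

variable {n : ℕ} {P : Polygon n} {ι : Type}


private theorem V1b_vx (T : Til P ι) (nx : Equiv.Perm (ι × ZMod n))
    (h : ∀ c, T.Step c (nx c)) (c : ι × ZMod n) (k : ℕ) : T.vx (nx^[k] c) = T.vx c := by
  induction k with
  | zero => rfl
  | succ k ih =>
    rw [Function.iterate_succ_apply', (h _).2, ih]

/-- the sum over the star is the sum over one period of `nx` -/
private theorem V1b_sum (hc : P.CCW) (T : Til P ι) (nx : Equiv.Perm (ι × ZMod n))
    (h : ∀ c, T.Step c (nx c)) (c : ι × ZMod n) (f : ι × ZMod n → ℝ) :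
    ∑ x ∈ (T.star_finite (T.vx c)).toFinset, f x =
      ∑ k ∈ Finset.range (Function.minimalPeriod nx c), f (nx^[k] c) := by
  classical
  have hinj : Set.InjOn (fun k : ℕ => nx^[k] c)
      (Finset.range (Function.minimalPeriod nx c) : Set ℕ) := by
    intro a ha b hb hab
    rw [Finset.coe_range] at ha hb
    exact Function.iterate_injOn_Iio_minimalPeriod ha hb hab
  have hsub : (Finset.range (Function.minimalPeriod nx c)).image (fun k : ℕ => nx^[k] c) ⊆
      (T.star_finite (T.vx c)).toFinset := by
    intro x hx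
    obtain ⟨k, -, rfl⟩ := Finset.mem_image.1 hx
    exact (T.star_finite (T.vx c)).mem_toFinset.2 (V1b_vx T nx h c k)
  have hcard : (T.star_finite (T.vx c)).toFinset.card ≤
      ((Finset.range (Function.minimalPeriod nx c)).image (fun k : ℕ => nx^[k] c)).card := by
    rw [Finset.card_image_of_injOn hinj, Finset.card_range,
      ← Set.ncard_eq_toFinset_card _ (T.star_finite (T.vx c)), (T.nx_orbit hc nx h c).2.2]
  rw [← Finset.eq_of_subset_of_card_le hsub hcard]
  exact Finset.sum_image hinj

theorem Til.combA [NeZero n] (hc : P.CCW) (T : Til P ι) :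
    ∃ K : CombA n P.ang P.len ι, ∀ c, K.toComb.deg c = (T.star (T.vx c)).ncard := by
  obtain ⟨nx, hnx⟩ := T.exists_nx hc
  refine ⟨{
    three_le := P.three_le
    a_pos := P.ang_pos
    a_lt := P.ang_lt
    a_ne := P.ang_ne
    a_sum := P.ang_sum hc
    rf := T.rf
    nx := nx
    deg_pos := fun c => (T.nx_orbit hc nx hnx c).1
    sum := fun c => (T.nx_orbit hc nx hnx c).2.1
    len := ?_
    flip := ?_
    count := ?_
    avg := ?_ }, fun c => ((T.nx_orbit hc nx hnx c).2.2).symm⟩
  · intro c
    rw [← T.norm_uu, ← T.norm_ww, T.uu_step (hnx c)]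
  · intro c
    exact T.step_unique hc (hnx _) (T.step_flip (hnx c))
  · intro D h0 hD
    apply T.count hc D h0
    intro c
    rw [(T.nx_orbit hc nx hnx c).2.2]
    exact hD c
  · rintro f ⟨B, hB⟩ hs δ hδ ht
    apply T.avg f B hB _ δ hδ ht
    intro c
    rw [V1b_sum hc T nx hnx c f]
    exact hs c

end Pool.Agent.Lib_MP_fa6e45
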