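import Pool.Agent.Lib_MP_fa6e45.T1a

/-!
PIECE T1b (about 100 lines): the tiles near a point (local finiteness, closed tiles), the corners at
a point. `corner_at`: a tile `t` containing the corner `vx c` contains it in its boundary (if `t ≠ c.1`:
`I_disj_R` for an interior point of `t`, as `vx c ∈ R c.1`; if `t = c.1`: trivial), not in an open side (`e2e`),
so it is a corner (`mem_C`).
-/

open Set MeasureTheory Complex
open scoped Topology

namespace Pool.Agent.Lib_MP_fa6e45

open Pool.Agent.Lib_PL (cr InSector Poly)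

variable {n : ℕ} {P : Polygon n} {ι : Type}

private theorem T1b_vx_mem (T : Til P ι) (c : ι × ZMod n) : T.vx c ∈ T.R c.1 := by
  refine ⟨P.vertex c.2, ?_, rfl⟩
  rw [P.region_union, P.bdry_eq]
  exact Or.inl (Set.mem_iUnion.2 ⟨c.2, left_mem_segment ℝ _ _⟩)

/-- near a point only finitely many tiles, all of which contain the point -/
theorem Til.near (T : Til P ι) (z : ℂ) : ∃ ρ > 0, ∀ w, ‖w - z‖ < ρ → ∀ t, w ∈ T.R t → z ∈ T.R t := by
  have hfin : {t | t ∈ T.meets (‖z‖ + 1) ∧ z ∉ T.R t}.Finite :=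
    (T.meets_finite (‖z‖ + 1)).subset fun t ht => ht.1
  have hopen : IsOpen (⋂ t ∈ {t | t ∈ T.meets (‖z‖ + 1) ∧ z ∉ T.R t}, (T.R t)ᶜ) :=
    hfin.isOpen_biInter fun t _ => (T.R_closed t).isOpen_compl
  have hz : z ∈ ⋂ t ∈ {t | t ∈ T.meets (‖z‖ + 1) ∧ z ∉ T.R t}, (T.R t)ᶜ := by
    simp only [Set.mem_iInter]
    intro t ht
    exact ht.2
  obtain ⟨ρ, hρ, hb⟩ := Metric.isOpen_iff.1 hopen z hz
  refine ⟨min ρ 1, lt_min hρ one_pos, ?_⟩
  intro w hw t hwt
  by_contra hzt
  have hw1 : ‖w - z‖ < 1 := hw.trans_le (min_le_right _ _)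
  have hw2 : w ∈ Metric.ball z ρ := by
    rw [Metric.mem_ball, dist_eq_norm]
    exact hw.trans_le (min_le_left _ _)
  have hm : t ∈ T.meets (‖z‖ + 1) := by
    refine ⟨w, hwt, ?_⟩
    rw [Metric.mem_closedBall, dist_zero_right]
    have h1 : ‖w‖ ≤ ‖w - z‖ + ‖z‖ := by
      have := norm_add_le (w - z) z
      rwa [sub_add_cancel] at this
    linarith
  have h2 := hb hw2
  simp only [Set.mem_iInter] at h2
  exact h2 t ⟨hm, hzt⟩ hwt

/-- finitely many tiles contain a point -/
theorem Til.at_finite (T : Til P ι) (z : ℂ) : {t | z ∈ T.R t}.Finite := by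
  refine (T.meets_finite ‖z‖).subset ?_
  intro t ht
  exact ⟨z, ht, by simp⟩

/-- if the corner `c` lies in the tile `t` then it is a corner of the tile `t` -/
theorem Til.corner_at (T : Til P ι) (c : ι × ZMod n) {t : ι} (h : T.vx c ∈ T.R t) :
    ∃ j : ZMod n, T.vx (t, j) = T.vx c := by
  by_cases ht : t = c.1
  · subst ht
    exact ⟨c.2, rfl⟩
  rw [T.R_eq] at h
  rcases h with h | h
  · rcases T.mem_C h with ⟨i, hi⟩ | ⟨e, he⟩
    · exact ⟨i, hi.symm⟩
    · exact absurd he (T.e2e c.1 t c.2 e)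
  · exact absurd (T1b_vx_mem T c) (Set.disjoint_left.1 (T.I_disj_R ht) h)

/-- the corners at the point `z` -/
def Til.star (T : Til P ι) (z : ℂ) : Set (ι × ZMod n) := {c | T.vx c = z}

theorem Til.star_finite (T : Til P ι) (z : ℂ) : (T.star z).Finite := by
  have : NeZero n := ⟨by have := P.three_le; omega⟩
  refine ((T.at_finite z).prod (Set.finite_univ (α := ZMod n))).subset ?_
  intro c hc
  refine ⟨?_, Set.mem_univ _⟩
  have h1 : T.vx c = z := hc
  change z ∈ T.R c.1
  rw [← h1]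
  exact T1b_vx_mem T c

end Pool.Agent.Lib_MP_fa6e45
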