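import Pool.Agent.Lib_MP_fa6e45.R1
import Pool.Agent.Lib_MP_fa6e45.R2
import Pool.Agent.Lib_MP_fa6e45.T1b
import Pool.Agent.Lib_MP_fa6e45.VDefs

/-!
PIECE V9c (about 80 lines): `ThreeAtCorners` gives stars with at least three corners; it is transported to
the relabelled polygon.
-/

open Set MeasureTheory Complex
open scoped Topology

namespace Pool.Agent.Lib_MP_fa6e45

open Pool.Agent.Lib_PL (cr InSector Poly)

variable {n : ℕ}

/-- `exists_til` with the information that the closed tile `T.R t` is `t` -/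
private theorem V9c_exists_til (P : Polygon n) {𝒮 : Set (Set ℂ)} (h : P.IsTiling 𝒮)
    (he : P.EdgeToEdge 𝒮) : ∃ T : Til P 𝒮, ∀ t : 𝒮, T.R t = (t : Set ℂ) := by
  have h1 : ∀ t : 𝒮, ∃ m : Mo, (t : Set ℂ) = m.app '' P.region := by
    intro t
    obtain ⟨g, hg⟩ := h.congruent t t.2
    obtain ⟨m, hm⟩ := exists_mo g
    refine ⟨m, ?_⟩
    rw [hg]
    exact Set.image_congr fun z _ => hm z
  choose m hm using h1
  have h2 : ∀ t : 𝒮, (m t).app '' P.inner ⊆ interior (t : Set ℂ) := by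
    intro t
    apply interior_maximal
    · rw [hm t]
      apply Set.image_mono
      rw [P.region_union]
      exact Set.subset_union_right
    · exact (m t).iso.toHomeomorph.isOpenMap _ P.inner_open
  refine ⟨⟨m, ?_, ?_, ?_⟩, fun t => (hm t).symm⟩
  · intro z
    have hz : z ∈ ⋃₀ 𝒮 := by
      rw [h.cover]
      trivial
    obtain ⟨t, ht, hzt⟩ := hz
    refine ⟨⟨t, ht⟩, ?_⟩
    rw [← hm ⟨t, ht⟩]
    exact hzt
  · intro s t hst
    exact (h.disj s s.2 t t.2 fun h => hst (Subtype.ext h)).mono (h2 s) (h2 t)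
  · intro s t i j
    have hs : (m s).iso '' P.region ∈ 𝒮 := by
      have := hm s
      change (m s).app '' P.region ∈ 𝒮
      rw [← this]
      exact s.2
    have ht : (m t).iso '' P.region ∈ 𝒮 := by
      have := hm t
      change (m t).app '' P.region ∈ 𝒮
      rw [← this]
      exact t.2
    exact he (m s).iso (m t).iso hs ht i j

theorem three_star (P : Polygon n) {𝒮 : Set (Set ℂ)} (h : P.IsTiling 𝒮) (he : P.EdgeToEdge 𝒮)
    (h3 : P.ThreeAtCorners 𝒮) : ∃ T : Til P 𝒮, ∀ c, 3 ≤ (T.star (T.vx c)).ncard := by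
  obtain ⟨T, hT⟩ := V9c_exists_til P h he
  refine ⟨T, ?_⟩
  rintro ⟨r, i⟩
  have hr : (T.g r).iso '' P.region = (r : Set ℂ) := hT r
  have hr' : (T.g r).iso '' P.region ∈ 𝒮 := by
    rw [hr]
    exact r.2
  obtain ⟨s, hs, t, ht, hst, hsr, htr, hvs, hvt⟩ := h3 (T.g r).iso hr' i
  rw [hr] at hsr htr
  have hvs' : T.vx (r, i) ∈ T.R ⟨s, hs⟩ := by
    rw [hT]
    exact hvs
  have hvt' : T.vx (r, i) ∈ T.R ⟨t, ht⟩ := by
    rw [hT]
    exact hvt
  obtain ⟨j, hj⟩ := T.corner_at (r, i) hvs'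
  obtain ⟨k, hk⟩ := T.corner_at (r, i) hvt'
  have n1 : ((⟨s, hs⟩ : 𝒮), j) ≠ ((⟨t, ht⟩ : 𝒮), k) := fun e =>
    hst (congrArg Subtype.val (congrArg Prod.fst e))
  have n2 : ((⟨s, hs⟩ : 𝒮), j) ≠ (r, i) := fun e =>
    hsr (congrArg Subtype.val (congrArg Prod.fst e))
  have n3 : ((⟨t, ht⟩ : 𝒮), k) ≠ (r, i) := fun e =>
    htr (congrArg Subtype.val (congrArg Prod.fst e))
  have hsub : ({((⟨s, hs⟩ : 𝒮), j), ((⟨t, ht⟩ : 𝒮), k), (r, i)} : Set (𝒮 × ZMod n)) ⊆
      T.star (T.vx (r, i)) := by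
    intro c hc
    rcases hc with rfl | rfl | rfl
    · exact hj
    · exact hk
    · exact rfl
  have hc : ({((⟨s, hs⟩ : 𝒮), j), ((⟨t, ht⟩ : 𝒮), k), (r, i)} : Set (𝒮 × ZMod n)).ncard = 3 :=
    Set.ncard_eq_three.2 ⟨_, _, _, n1, n2, n3, rfl⟩
  rw [← hc]
  exact Set.ncard_le_ncard hsub (T.star_finite _)

theorem Polygon.rev_three (P : Polygon n) {𝒮 : Set (Set ℂ)} (h3 : P.ThreeAtCorners 𝒮) :
    P.rev.ThreeAtCorners 𝒮 := by
  intro g hg i
  rw [P.rev_region] at hg ⊢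
  exact h3 g hg (-i)

theorem Polygon.rev_noThree (P : Polygon n) (hl : P.NoThreeEqual) : P.rev.NoThreeEqual := by
  intro i j k hij hjk hik h
  rw [P.rev_len, P.rev_len, P.rev_len] at h
  refine hl (-i - 1) (-j - 1) (-k - 1) (fun e => hij ?_) (fun e => hjk ?_) (fun e => hik ?_) h
  · exact neg_injective (sub_left_injective e)
  · exact neg_injective (sub_left_injective e)
  · exact neg_injective (sub_left_injective e)

end Pool.Agent.Lib_MP_fa6e45
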