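import Pool.Agent.Lib_MP_fa6e45.HGF
import Pool.Agent.Lib_MP_fa6e45.HQ
import Pool.Agent.Lib_MP_fa6e45.H4
import Pool.Agent.Lib_MP_fa6e45.L3a
import Pool.Agent.Lib_MP_fa6e45.R
import Pool.Agent.Lib_MP_fa6e45.V9c
import Pool.Agent.Lib_MP_fa6e45.V2
import Pool.Agent.Lib_MP_fa6e45.V1b

/-!
The main theorem of stage 4 (assembly, captain): a polygon with at most six corners which admits an edge-to-edge
tiling admits a periodic tiling.
-/

open Set MeasureTheory Complex
open scoped Topology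

namespace Pool.Agent.Lib_MP_fa6e45

open Pool.Agent.Lib_PL (cr InSector Poly)

variable {n : ℕ}

theorem main6_ccw (P : Polygon n) (hc : P.CCW) {𝒮 : Set (Set ℂ)} (h : P.IsTiling 𝒮)
    (he : P.EdgeToEdge 𝒮) (h6 : n ≤ 6) :
    ∃ 𝒯 : Set (Set ℂ), P.IsTiling 𝒯 ∧ Periodic 𝒯 := by
  have h3 := P.three_le
  haveI : NeZero n := ⟨by omega⟩
  obtain ⟨T⟩ := exists_til P h he
  obtain ⟨K, -⟩ := T.combA hc
  have h7 : n = 3 ∨ n = 4 ∨ n = 5 ∨ n = 6 := by omega
  rcases h7 with h1 | h1 | h1 | h1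
  · subst h1
    exact tri P hc
  · subst h1
    exact quad P hc
  · subst h1
    obtain ⟨q, hq, r, s, M⟩ := enum5 P hc K
    exact P.dih_periodic r s (cert5 sp5_ok q hq _ M)
  · subst h1
    obtain ⟨q, hq, r, s, M⟩ := enum6 P hc K
    exact P.dih_periodic r s (cert6 sp6_ok q hq _ M)

/-- a polygon with at most six corners which admits an edge-to-edge tiling admits a periodic tiling -/
theorem main6_thm (P : Polygon n) {𝒮 : Set (Set ℂ)} (h : P.IsTiling 𝒮)
    (he : P.EdgeToEdge 𝒮) (h6 : n ≤ 6) :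
    ∃ 𝒯 : Set (Set ℂ), P.IsTiling 𝒯 ∧ Periodic 𝒯 := by
  rcases P.ccw_or with hc | hc
  · exact main6_ccw P hc h he h6
  have hT : ∀ 𝒯 : Set (Set ℂ), P.rev.IsTiling 𝒯 ↔ P.IsTiling 𝒯 := by
    intro 𝒯
    constructor
    · rintro ⟨h1, h2, h3⟩
      exact ⟨fun t ht => by simpa only [P.rev_region] using h1 t ht, h2, h3⟩
    · rintro ⟨h1, h2, h3⟩
      exact ⟨fun t ht => by simpa only [P.rev_region] using h1 t ht, h2, h3⟩
  have hE : P.rev.EdgeToEdge 𝒮 := by
    intro g k hg hk i j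
    rw [P.rev_region] at hg hk
    have h1 := he g k hg hk (-i) (-j - 1)
    rw [openSegment_symm] at h1
    have e1 : -j - 1 + 1 = -j := by ring
    have e2 : -(j + 1) = -j - 1 := by ring
    rw [e1] at h1
    change g (P.vertex (-i)) ∉ openSegment ℝ (k (P.vertex (-j))) (k (P.vertex (-(j + 1))))
    rw [e2]
    exact h1
  obtain ⟨𝒯, h1, h2⟩ := main6_ccw P.rev hc ((hT 𝒮).2 h) hE h6
  exact ⟨𝒯, (hT 𝒯).1 h1, h2⟩

/-- at least three tiles at every corner: at most six corners -/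
theorem le_six_of_three (P : Polygon n) {𝒮 : Set (Set ℂ)} (h : P.IsTiling 𝒮)
    (he : P.EdgeToEdge 𝒮) (h3 : P.ThreeAtCorners 𝒮) : n ≤ 6 := by
  have key : ∀ Q : Polygon n, Q.CCW → Q.IsTiling 𝒮 → Q.EdgeToEdge 𝒮 → Q.ThreeAtCorners 𝒮 →
      n ≤ 6 := by
    intro Q hc h he h3
    haveI : NeZero n := ⟨by have := Q.three_le; omega⟩
    obtain ⟨T, hT⟩ := three_star Q h he h3
    obtain ⟨K, hK⟩ := T.combA hc
    exact K.le_six fun c => by
      rw [hK]
      exact hT c
  rcases P.ccw_or with hc | hc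
  · exact key P hc h he h3
  have hE : P.rev.EdgeToEdge 𝒮 := by
    intro g k hg hk i j
    rw [P.rev_region] at hg hk
    have h1 := he g k hg hk (-i) (-j - 1)
    rw [openSegment_symm] at h1
    have e1 : -j - 1 + 1 = -j := by ring
    have e2 : -(j + 1) = -j - 1 := by ring
    rw [e1] at h1
    change g (P.vertex (-i)) ∉ openSegment ℝ (k (P.vertex (-j))) (k (P.vertex (-(j + 1))))
    rw [e2]
    exact h1
  refine key P.rev hc ?_ hE (P.rev_three h3)
  obtain ⟨h1, h2, h3⟩ := h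
  exact ⟨fun t ht => by simpa only [P.rev_region] using h1 t ht, h2, h3⟩

/-- no complementary corner: at most six corners -/
theorem le_six_of_compl (P : Polygon n) {𝒮 : Set (Set ℂ)} (h : P.IsTiling 𝒮)
    (he : P.EdgeToEdge 𝒮) (h0 : ∀ i, ¬ P.Complementary i) : n ≤ 6 := by
  haveI : NeZero n := ⟨by have := P.three_le; omega⟩
  have h1 := (main_thm P h he).1
  have h2 : {i : ZMod n | ¬ P.Complementary i} = Set.univ := Set.eq_univ_of_forall h0
  rw [h2, Set.ncard_univ, Nat.card_zmod] at h1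
  exact h1

end Pool.Agent.Lib_MP_fa6e45
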