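import Pool.Agent.Lib_MP_fa6e45.Stmt4
import Pool.Agent.Lib_MP_fa6e45.V9c
import Pool.Agent.Lib_MP_fa6e45.V1b
import Pool.Agent.Lib_MP_fa6e45.K1

/-!
PIECE W1 (about 150 lines): the indexed tiling of a tiling with given labels `g`, compare V9c
(`V9c_exists_til`, `three_star`): take `Mo`'s of the given `g t` (`exists_mo`). Every star has at least two
elements (`T.comb`/`CombA` : degree `≥ 2`, or the tile itself and the neighbour at a side; look for `two_le` in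
K1, T4b, T1b), and it has at least three elements iff `ThreeAt 𝒮` holds at the point (`corner_at`, one corner
for each tile containing the vertex, and a tile has at most one corner at a point).
-/

open Set MeasureTheory Complex
open scoped Topology

namespace Pool.Agent.Lib_MP_fa6e45

open Pool.Agent.Lib_PL (cr InSector Poly)

variable {n : ℕ}

/-- the indexed tiling with given labels -/
private theorem W1_exists_til (P : Polygon n) {𝒮 : Set (Set ℂ)} (h : P.IsTiling 𝒮)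
    (he : P.EdgeToEdge 𝒮) (g : Set ℂ → ℂ ≃ᵢ ℂ) (hg : ∀ t ∈ 𝒮, t = g t '' P.region) :
    ∃ T : Til P 𝒮, (∀ t : 𝒮, T.R t = (t : Set ℂ)) ∧ ∀ (t : 𝒮) (i : ZMod n),
      T.vx (t, i) = g t (P.vertex i) := by
  have h0 : ∀ t : 𝒮, ∃ m : Mo, ∀ z, g t z = m.app z := fun t => exists_mo (g t)
  choose m hgm using h0
  have hm : ∀ t : 𝒮, (t : Set ℂ) = (m t).app '' P.region := by
    intro t
    have h1 := hg t t.2
    have h2 : g t '' P.region = (m t).app '' P.region := Set.image_congr fun z _ => hgm t z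
    exact h1.trans h2
  have h2 : ∀ t : 𝒮, (m t).app '' P.inner ⊆ interior (t : Set ℂ) := by
    intro t
    apply interior_maximal
    · rw [hm t]
      apply Set.image_mono
      rw [P.region_union]
      exact Set.subset_union_right
    · exact (m t).iso.toHomeomorph.isOpenMap _ P.inner_open
  refine ⟨⟨m, ?_, ?_, ?_⟩, fun t => (hm t).symm, fun t i => (hgm t _).symm⟩
  · intro z
    have hz : z ∈ ⋃₀ 𝒮 := by
      rw [h.cover]
      trivial
    obtain ⟨t, ht, hzt⟩ := hz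
    refine ⟨⟨t, ht⟩, ?_⟩
    rw [← hm ⟨t, ht⟩]
    exact hzt
  · intro s t hst
    exact (h.disj s s.2 t t.2 fun h => hst (Subtype.ext h)).mono (h2 s) (h2 t)
  · intro s t i j
    have hs : (m s).iso '' P.region ∈ 𝒮 := by
      have := hm s
      change (m s).app '' P.region ∈ 𝒮
      rw [← this]
      exact s.2
    have ht : (m t).iso '' P.region ∈ 𝒮 := by
      have := hm t
      change (m t).app '' P.region ∈ 𝒮
      rw [← this]
      exact t.2
    exact he (m s).iso (m t).iso hs ht i j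

/-- three tiles at a point give three corners -/
private theorem W1_three_le {P : Polygon n} {𝒮 : Set (Set ℂ)} (T : Til P 𝒮)
    (hT : ∀ t : 𝒮, T.R t = (t : Set ℂ)) (c : 𝒮 × ZMod n) (h : ThreeAt 𝒮 (T.vx c)) :
    3 ≤ (T.star (T.vx c)).ncard := by
  obtain ⟨r, hr, s, hs, t, ht, hrs, hst, hrt, hvr, hvs, hvt⟩ := h
  have hvr' : T.vx c ∈ T.R ⟨r, hr⟩ := by
    rw [hT]
    exact hvr
  have hvs' : T.vx c ∈ T.R ⟨s, hs⟩ := by
    rw [hT]
    exact hvs
  have hvt' : T.vx c ∈ T.R ⟨t, ht⟩ := by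
    rw [hT]
    exact hvt
  obtain ⟨i, hi⟩ := T.corner_at c hvr'
  obtain ⟨j, hj⟩ := T.corner_at c hvs'
  obtain ⟨k, hk⟩ := T.corner_at c hvt'
  have n1 : ((⟨r, hr⟩ : 𝒮), i) ≠ ((⟨s, hs⟩ : 𝒮), j) := fun e =>
    hrs (congrArg Subtype.val (congrArg Prod.fst e))
  have n2 : ((⟨r, hr⟩ : 𝒮), i) ≠ ((⟨t, ht⟩ : 𝒮), k) := fun e =>
    hrt (congrArg Subtype.val (congrArg Prod.fst e))
  have n3 : ((⟨s, hs⟩ : 𝒮), j) ≠ ((⟨t, ht⟩ : 𝒮), k) := fun e =>
    hst (congrArg Subtype.val (congrArg Prod.fst e))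
  have hsub : ({((⟨r, hr⟩ : 𝒮), i), ((⟨s, hs⟩ : 𝒮), j), ((⟨t, ht⟩ : 𝒮), k)} :
      Set (𝒮 × ZMod n)) ⊆ T.star (T.vx c) := by
    intro d hd
    rcases hd with rfl | rfl | rfl
    · exact hi
    · exact hj
    · exact hk
  have hc : ({((⟨r, hr⟩ : 𝒮), i), ((⟨s, hs⟩ : 𝒮), j), ((⟨t, ht⟩ : 𝒮), k)} :
      Set (𝒮 × ZMod n)).ncard = 3 :=
    Set.ncard_eq_three.2 ⟨_, _, _, n1, n2, n3, rfl⟩
  rw [← hc]
  exact Set.ncard_le_ncard hsub (T.star_finite _)

/-- the position of a corner lies in its tile -/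
private theorem W1_vx_mem {P : Polygon n} {𝒮 : Set (Set ℂ)} (T : Til P 𝒮)
    (hT : ∀ t : 𝒮, T.R t = (t : Set ℂ)) (c : 𝒮 × ZMod n) : T.vx c ∈ (c.1 : Set ℂ) := by
  rw [← hT c.1]
  refine ⟨P.vertex c.2, ?_, rfl⟩
  rw [P.region_union, P.bdry_eq]
  exact Or.inl (Set.mem_iUnion.2 ⟨c.2, left_mem_segment ℝ _ _⟩)

/-- different corners at a point belong to different tiles -/
private theorem W1_tile_ne {P : Polygon n} {𝒮 : Set (Set ℂ)} (T : Til P 𝒮) {z : ℂ}
    {c d : 𝒮 × ZMod n} (hc : T.vx c = z) (hd : T.vx d = z) (h : c ≠ d) :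
    (c.1 : Set ℂ) ≠ (d.1 : Set ℂ) := by
  intro e
  apply h
  have e1 : c.1 = d.1 := Subtype.ext e
  obtain ⟨s, i⟩ := c
  obtain ⟨t, j⟩ := d
  change s = t at e1
  subst e1
  rw [T.vx_inj (hc.trans hd.symm)]

/-- three corners at a point give three tiles -/
private theorem W1_threeAt {P : Polygon n} {𝒮 : Set (Set ℂ)} (T : Til P 𝒮)
    (hT : ∀ t : 𝒮, T.R t = (t : Set ℂ)) (z : ℂ) (h : 3 ≤ (T.star z).ncard) :
    ThreeAt 𝒮 z := by
  obtain ⟨a, b, c, ha, hb, hc, hab, hac, hbc⟩ := (Set.two_lt_ncard_iff (T.star_finite z)).1 h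
  have ha' : T.vx a = z := ha
  have hb' : T.vx b = z := hb
  have hc' : T.vx c = z := hc
  refine ⟨a.1, a.1.2, b.1, b.1.2, c.1, c.1.2, W1_tile_ne T ha' hb' hab,
    W1_tile_ne T hb' hc' hbc, W1_tile_ne T ha' hc' hac, ?_, ?_, ?_⟩
  · have := W1_vx_mem T hT a
    rwa [ha'] at this
  · have := W1_vx_mem T hT b
    rwa [hb'] at this
  · have := W1_vx_mem T hT c
    rwa [hc'] at this

theorem uniform_til [NeZero n] (P : Polygon n) (hc : P.CCW) {𝒮 : Set (Set ℂ)} (h : P.IsTiling 𝒮)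
    (he : P.EdgeToEdge 𝒮) (g : Set ℂ → ℂ ≃ᵢ ℂ) (hg : ∀ t ∈ 𝒮, t = g t '' P.region)
    (hu : ∀ i : ZMod n, ∀ s ∈ 𝒮, ∀ t ∈ 𝒮, ThreeAt 𝒮 (g s (P.vertex i)) →
      ThreeAt 𝒮 (g t (P.vertex i))) :
    ∃ T : Til P 𝒮, ∀ (s t : 𝒮) (i : ZMod n), (T.star (T.vx (s, i))).ncard = 2 →
      (T.star (T.vx (t, i))).ncard = 2 := by
  obtain ⟨T, hT, hv⟩ := W1_exists_til P h he g hg
  obtain ⟨K, hK⟩ := T.combA hc
  refine ⟨T, fun s t i h2 => ?_⟩
  have h3 : 2 ≤ (T.star (T.vx (t, i))).ncard := by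
    rw [← hK]
    exact K.toComb.two_le (t, i)
  by_contra h4
  have h5 : 3 ≤ (T.star (T.vx (t, i))).ncard := by omega
  have h6 : ThreeAt 𝒮 (T.vx (t, i)) := W1_threeAt T hT _ h5
  rw [hv] at h6
  have h7 := hu i t t.2 s s.2 h6
  rw [← hv] at h7
  have h8 := W1_three_le T hT (s, i) h7
  omega

end Pool.Agent.Lib_MP_fa6e45
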