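import Pool.Agent.Lib_MP_fa6e45.Y1
import Pool.Agent.Lib_MP_fa6e45.X1b

/-!
PIECE Y3 (about 250 lines): walking along an arc. Let `hS`: the marked corners are exactly the corners of degree
`≥ 3`, the inner corners of the arcs have degree 2. `c = (t, κ j)`, `d = nx c`; put `c 0 = c`, `d 0 = d`,
`c (k+1) = bwd (c k)`, `d (k+1) = fwd (d k)`; as long as `c 1, ..., c k` have degree 2: `nx (d (k+1)) = c (k+1)`
(`K.flip`: `nx (fwd (nx (c k))) = bwd (c k)`, where `nx (c k) = d k` since `c k` has degree 2 and `nx (d k) = c k`,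
`k ≥ 1`; for `k = 0` it is the definition of `d`), so `d (k+1)` has the same degree as `c (k+1)`. So `c k` is marked for the
first time exactly when `d k` is: `k = w` of both arcs. Lengths by `K.len` (at `c 0`; and at `c k`), angles by the star
`{c k, d k}` of degree 2 (`K.sum`). The four cases of the orientations of the two tiles give `Plus` (same) or `Minus`
(different), with the arcs `exS`, `enS` in `ZMod m`. All corners of the star of a marked corner are marked (a
corner of degree 2 has only corners of degree 2 in its star; the degree is constant on a star).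
-/

open Set MeasureTheory Complex
open scoped Topology

namespace Pool.Agent.Lib_MP_fa6e45

open Pool.Agent.Lib_PL (cr InSector Poly)
variable {n : ℕ} {P : Polygon n} {m : ℕ} [NeZero m] {ι : Type}

/-- a corner of the arc polygon as a corner of the polygon -/
def Arcs.up (S : Arcs P m) (c : ι × ZMod m) : ι × ZMod n := (c.1, S.κ c.2)

/-- `q` steps forward (`b = true`) or backward -/
private def Y3_wk (b : Bool) (i : ZMod n) (q : ℕ) : ZMod n :=
  if b then i + (q : ZMod n) else i - (q : ZMod n)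

/-- the arc traversed from the marked corner `j` on -/
private def Y3_arc (b : Bool) (j : ZMod m) : ZMod m := if b then j else j - 1

private theorem Y3_wk_arc (S : Arcs P m) (b : Bool) (j : ZMod m) (q : ℕ)
    (hq : q ≤ S.w (Y3_arc b j)) :
    Y3_wk b (S.κ j) q = S.κ (Y3_arc b j) +
      ((if b then q else S.w (Y3_arc b j) - q : ℕ) : ZMod n) := by
  cases b
  · simp only [Y3_wk, Y3_arc, Bool.false_eq_true, if_false] at hq ⊢
    have h1 := S.step (j - 1)
    rw [sub_add_cancel] at h1
    rw [h1, Nat.cast_sub hq]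
    ring
  · simp [Y3_wk, Y3_arc]

private theorem Y3_wk_end (S : Arcs P m) (b : Bool) (j : ZMod m) :
    Y3_wk b (S.κ j) (S.w (Y3_arc b j)) = S.κ (if b then j + 1 else j - 1) := by
  cases b
  · simp only [Y3_wk, Y3_arc, Bool.false_eq_true, if_false]
    have h1 := S.step (j - 1)
    rw [sub_add_cancel] at h1
    rw [h1]
    ring
  · simp only [Y3_wk, Y3_arc, if_true]
    rw [S.step]

private theorem Y3_bwd (rf : ι → Bool) (t : ι) (i : ZMod n) (q : ℕ) :
    bwd rf (t, Y3_wk (rf t) i q) = (t, Y3_wk (rf t) i (q + 1)) := by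
  unfold bwd Y3_wk
  cases rf t <;> simp <;> ring

private theorem Y3_fwd (rf : ι → Bool) (t : ι) (i : ZMod n) (q : ℕ) :
    fwd rf (t, Y3_wk (!rf t) i q) = (t, Y3_wk (!rf t) i (q + 1)) := by
  unfold fwd Y3_wk
  cases rf t <;> simp <;> ring

private theorem Y3_ex (S : Arcs P m) (rf : ι → Bool) (t : ι) (j : ZMod m) (q : ℕ)
    (hq : q < S.w (Y3_arc (rf t) j)) :
    exS rf (t, Y3_wk (rf t) (S.κ j) q) = S.κ (Y3_arc (rf t) j) +
      ((if rf t then q else S.w (Y3_arc (rf t) j) - 1 - q : ℕ) : ZMod n) := by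
  have h := Y3_wk_arc S (rf t) j q hq.le
  unfold exS
  rw [h]
  cases hr : rf t
  · rw [hr] at hq
    simp only [Bool.false_eq_true, if_false]
    have e : S.w (Y3_arc false j) - q = (S.w (Y3_arc false j) - 1 - q) + 1 := by omega
    rw [e]
    push_cast
    ring
  · simp

private theorem Y3_en (S : Arcs P m) (rf : ι → Bool) (t : ι) (j : ZMod m) (q : ℕ)
    (hq : q < S.w (Y3_arc (!rf t) j)) :
    enS rf (t, Y3_wk (!rf t) (S.κ j) q) = S.κ (Y3_arc (!rf t) j) +
      ((if !rf t then q else S.w (Y3_arc (!rf t) j) - 1 - q : ℕ) : ZMod n) := by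
  have h := Y3_wk_arc S (!rf t) j q hq.le
  unfold enS
  rw [h]
  cases hr : rf t
  · simp
  · rw [hr] at hq
    simp only [Bool.not_true, Bool.false_eq_true, if_false, if_true] at hq ⊢
    have e : S.w (Y3_arc false j) - q = (S.w (Y3_arc false j) - 1 - q) + 1 := by omega
    rw [e]
    push_cast
    ring

theorem arc_walk [NeZero n] (S : Arcs P m) (K : CombA n P.ang P.len ι)
    (h1 : ∀ (t : ι) (j : ZMod m), K.toComb.deg (t, S.κ j) ≠ 2)
    (h2 : ∀ (t : ι) (j : ZMod m) (s : ℕ), 0 < s → s < S.w j →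
      K.toComb.deg (t, S.κ j + (s : ZMod n)) = 2) (c : ι × ZMod m) :
    ∃ d : ι × ZMod m, K.nx (S.up c) = S.up d ∧
      S.Rel (exS K.rf c) (enS K.rf d) (K.rf c.1 == K.rf d.1) ∧
      K.nx (S.up (fwd K.rf d)) = S.up (bwd K.rf c) := by
  have hdeg : ∀ x, K.toComb.deg (K.nx x) = K.toComb.deg x := fun x =>
    Function.minimalPeriod_apply
      (Function.minimalPeriod_pos_iff_mem_periodicPts.1 (K.deg_pos x))
  have hmk : ∃ j' : ZMod m, S.κ j' = (K.nx (S.up c)).2 := by
    obtain ⟨⟨j', s⟩, ⟨hs1, hs2⟩, -⟩ := S.index (K.nx (S.up c)).2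
    rcases Nat.eq_zero_or_pos s with h0 | h0
    · refine ⟨j', ?_⟩
      simp only [h0, Nat.cast_zero, add_zero] at hs2
      exact hs2
    · exfalso
      have h3 := h2 (K.nx (S.up c)).1 j' s h0 hs1
      simp only at hs2
      rw [hs2] at h3
      refine h1 c.1 c.2 ?_
      rw [← hdeg]
      exact h3
  obtain ⟨j', hj'⟩ := hmk
  obtain ⟨t', ht'⟩ : ∃ t', t' = (K.nx (S.up c)).1 := ⟨_, rfl⟩
  have hd0 : K.nx (S.up c) = (t', S.κ j') := Prod.ext ht'.symm hj'.symm
  obtain ⟨t, j⟩ := c
  let cc : ℕ → ι × ZMod n := fun q => (t, Y3_wk (K.rf t) (S.κ j) q)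
  let dd : ℕ → ι × ZMod n := fun q => (t', Y3_wk (!K.rf t') (S.κ j') q)
  have ccz : cc 0 = S.up (t, j) := by
    change (t, Y3_wk (K.rf t) (S.κ j) 0) = (t, S.κ j)
    unfold Y3_wk
    cases K.rf t <;> simp
  have ddz : dd 0 = K.nx (S.up (t, j)) := by
    rw [hd0]
    change (t', Y3_wk (!K.rf t') (S.κ j') 0) = (t', S.κ j')
    unfold Y3_wk
    cases K.rf t' <;> simp
  have hcs : ∀ q, bwd K.rf (cc q) = cc (q + 1) := fun q => Y3_bwd K.rf t (S.κ j) q
  have hds : ∀ q, fwd K.rf (dd q) = dd (q + 1) := fun q => Y3_fwd K.rf t' (S.κ j') q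
  obtain ⟨J, hJ⟩ : ∃ J, J = Y3_arc (K.rf t) j := ⟨_, rfl⟩
  obtain ⟨L, hL⟩ : ∃ L, L = Y3_arc (!K.rf t') j' := ⟨_, rfl⟩
  have hci : ∀ q, 0 < q → q < S.w J → K.toComb.deg (cc q) = 2 := by
    intro q hq hq'
    have h3 := Y3_wk_arc S (K.rf t) j q (by rw [← hJ]; exact hq'.le)
    change K.toComb.deg (t, Y3_wk (K.rf t) (S.κ j) q) = 2
    rw [h3, ← hJ]
    refine h2 t J _ ?_ ?_ <;> (split_ifs <;> omega)
  have hcw : K.toComb.deg (cc (S.w J)) ≠ 2 := by
    change K.toComb.deg (t, Y3_wk (K.rf t) (S.κ j) (S.w J)) ≠ 2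
    rw [hJ, Y3_wk_end]
    exact h1 _ _
  have hdi : ∀ q, 0 < q → q < S.w L → K.toComb.deg (dd q) = 2 := by
    intro q hq hq'
    have h3 := Y3_wk_arc S (!K.rf t') j' q (by rw [← hL]; exact hq'.le)
    change K.toComb.deg (t', Y3_wk (!K.rf t') (S.κ j') q) = 2
    rw [h3, ← hL]
    refine h2 t' L _ ?_ ?_ <;> (split_ifs <;> omega)
  have hdw : K.toComb.deg (dd (S.w L)) ≠ 2 := by
    change K.toComb.deg (t', Y3_wk (!K.rf t') (S.κ j') (S.w L)) ≠ 2
    rw [hL, Y3_wk_end]
    exact h1 _ _
  have hback : ∀ q, K.nx (dd q) = cc q → K.toComb.deg (cc q) = 2 → K.nx (cc q) = dd q := by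
    intro q e1 e2
    have e4 : K.toComb.deg (dd q) = 2 := by rw [← hdeg (dd q), e1, e2]
    have e5 := Function.isPeriodicPt_minimalPeriod K.nx (dd q)
    have e6 : Function.minimalPeriod K.nx (dd q) = 2 := e4
    rw [e6] at e5
    have e7 : K.nx (K.nx (dd q)) = dd q := e5
    rwa [e1] at e7
  have key : ∀ q, 1 ≤ q → q ≤ S.w J → K.nx (dd q) = cc q := by
    intro q hq1
    induction q, hq1 using Nat.le_induction with
    | base =>
      intro _
      have h3 := K.flip (S.up (t, j))
      rw [← ddz, hds, ← ccz, hcs] at h3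
      exact h3
    | succ q hq ih =>
      intro hq'
      have h3 := K.flip (cc q)
      rw [hback q (ih (by omega)) (hci q (by omega) (by omega)), hds, hcs] at h3
      exact h3
  have hnx : ∀ q, 0 < q → q < S.w J → K.nx (cc q) = dd q := fun q hq hq' =>
    hback q (key q hq hq'.le) (hci q hq hq')
  have hdd : ∀ q, 1 ≤ q → q ≤ S.w J → K.toComb.deg (dd q) = K.toComb.deg (cc q) := by
    intro q hq hq'
    rw [← hdeg (dd q), key q hq hq']
  have hw : S.w J = S.w L := by
    rcases lt_trichotomy (S.w J) (S.w L) with h | h | h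
    · have h3 := hdi _ (S.w_pos J) h
      rw [hdd _ (S.w_pos J) le_rfl] at h3
      exact absurd h3 hcw
    · exact h
    · exact absurd ((hdd _ (S.w_pos L) h.le).trans (hci _ (S.w_pos L) h)) hdw
  have hlen : ∀ q, q < S.w J → P.len (exS K.rf (cc q)) = P.len (enS K.rf (dd q)) := by
    intro q hq
    rcases Nat.eq_zero_or_pos q with h | h
    · rw [h, ccz, ddz]
      exact (K.len (S.up (t, j))).symm
    · have h3 := K.len (cc q)
      rw [hnx q h hq] at h3
      exact h3.symm
  have hang : ∀ q, 0 < q → q < S.w J → P.ang (cc q).2 + P.ang (dd q).2 = 2 * Real.pi := by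
    intro q hq hq'
    have h3 := K.sum (cc q)
    have h4 : Function.minimalPeriod K.nx (cc q) = 2 := hci q hq hq'
    rw [h4, Finset.sum_range_succ, Finset.sum_range_one] at h3
    have h5 : P.ang (cc q).2 + P.ang (K.nx (cc q)).2 = 2 * Real.pi := h3
    rwa [hnx q hq hq'] at h5
  -- positions
  have pex : ∀ q, q < S.w J → exS K.rf (cc q) =
      S.κ J + ((if K.rf t then q else S.w J - 1 - q : ℕ) : ZMod n) := by
    intro q hq
    rw [hJ] at hq ⊢
    exact Y3_ex S K.rf t j q hq
  have pen : ∀ q, q < S.w J → enS K.rf (dd q) =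
      S.κ L + ((if !K.rf t' then q else S.w J - 1 - q : ℕ) : ZMod n) := by
    intro q hq
    rw [hw] at hq ⊢
    rw [hL] at hq ⊢
    exact Y3_en S K.rf t' j' q hq
  have pc : ∀ q, q ≤ S.w J → (cc q).2 =
      S.κ J + ((if K.rf t then q else S.w J - q : ℕ) : ZMod n) := by
    intro q hq
    rw [hJ] at hq ⊢
    exact Y3_wk_arc S (K.rf t) j q hq
  have pd : ∀ q, q ≤ S.w J → (dd q).2 =
      S.κ L + ((if !K.rf t' then q else S.w J - q : ℕ) : ZMod n) := by
    intro q hq
    rw [hw] at hq ⊢
    rw [hL] at hq ⊢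
    exact Y3_wk_arc S (!K.rf t') j' q hq
  refine ⟨(t', j'), hd0, ?_, ?_⟩
  · have eJ : exS K.rf (t, j) = J := by
      rw [hJ]
      rfl
    have eL : enS K.rf (t', j') = L := by
      rw [hL]
      unfold enS Y3_arc
      cases K.rf t' <;> simp
    rw [eJ, eL]
    change S.Rel J L (K.rf t == K.rf t')
    have hl : ∀ q, q < S.w J →
        P.len (S.κ J + ((if K.rf t then q else S.w J - 1 - q : ℕ) : ZMod n)) =
        P.len (S.κ L + ((if !K.rf t' then q else S.w J - 1 - q : ℕ) : ZMod n)) := by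
      intro q hq
      rw [← pex q hq, ← pen q hq]
      exact hlen q hq
    have ha : ∀ q, 0 < q → q < S.w J →
        P.ang (S.κ J + ((if K.rf t then q else S.w J - q : ℕ) : ZMod n)) +
        P.ang (S.κ L + ((if !K.rf t' then q else S.w J - q : ℕ) : ZMod n)) = 2 * Real.pi := by
      intro q hq hq'
      rw [← pc q hq'.le, ← pd q hq'.le]
      exact hang q hq hq'
    cases hr : K.rf t <;> cases hr' : K.rf t' <;>
      simp only [hr, hr', Bool.not_true, Bool.not_false, Bool.false_eq_true, if_true,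
        if_false] at hl ha
    · change S.Plus J L
      refine ⟨hw, fun a b hab => ?_, fun a b ha0 hb0 hab => ?_⟩
      · have h3 := hl b (by omega)
        have e : S.w J - 1 - b = a := by omega
        rwa [e] at h3
      · have h3 := ha b hb0 (by omega)
        have e : S.w J - b = a := by omega
        rwa [e] at h3
    · change S.Minus J L
      refine ⟨hw, fun a hab => ?_, fun a ha0 hab => ?_⟩
      · have h3 := hl (S.w J - 1 - a) (by omega)
        have e : S.w J - 1 - (S.w J - 1 - a) = a := by omega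
        rwa [e] at h3
      · have h3 := ha (S.w J - a) (by omega) (by omega)
        have e : S.w J - (S.w J - a) = a := by omega
        rwa [e] at h3
    · change S.Minus J L
      exact ⟨hw, fun a hab => hl a hab, fun a ha0 hab => ha a ha0 hab⟩
    · change S.Plus J L
      refine ⟨hw, fun a b hab => ?_, fun a b ha0 hb0 hab => ?_⟩
      · have h3 := hl a (by omega)
        have e : S.w J - 1 - a = b := by omega
        rwa [e] at h3
      · have h3 := ha a ha0 (by omega)
        have e : S.w J - a = b := by omega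
        rwa [e] at h3
  · have h3 := key (S.w J) (S.w_pos J) le_rfl
    have e1 : dd (S.w J) = S.up (fwd K.rf (t', j')) := by
      rw [hw, hL]
      change (t', Y3_wk (!K.rf t') (S.κ j') (S.w (Y3_arc (!K.rf t') j'))) = _
      rw [Y3_wk_end]
      unfold fwd Arcs.up
      cases K.rf t' <;> simp
    have e2 : cc (S.w J) = S.up (bwd K.rf (t, j)) := by
      rw [hJ]
      change (t, Y3_wk (K.rf t) (S.κ j) (S.w (Y3_arc (K.rf t) j))) = _
      rw [Y3_wk_end]
      unfold bwd Arcs.up
      cases K.rf t <;> simp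
    rw [e1, e2] at h3
    exact h3

end Pool.Agent.Lib_MP_fa6e45
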