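import Pool.Agent.Lib_MP_fa6e45.Y7
import Pool.Agent.Lib_MP_fa6e45.Y3

/-!
PIECE W2 (about 150 lines): relabelling of the arcs of a `CombG` (`nx` conjugated by `(t, j) ↦ (t, j + p)`; the
minimal periods, the sums and `avg` are transported) and `m ≤ 6` (apply `CombG.wp` with `v = 1`, `A = 0`, `L = 3`, if
`7 ≤ m`; the star has `1 + l.length ≥ 3` corners, every step costs 1).
-/

open Set MeasureTheory Complex
open scoped Topology

set_option linter.unusedSimpArgs false
set_option linter.unusedSectionVars false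

namespace Pool.Agent.Lib_MP_fa6e45

open Pool.Agent.Lib_PL (cr InSector Poly)

variable {m : ℕ} [NeZero m] {a : ZMod m → ℝ} {G : ZMod m → ZMod m → Bool → Prop} {ι : Type}

/-- the relabelling -/
private def W2e (ι : Type) (p : ZMod m) : ι × ZMod m ≃ ι × ZMod m where
  toFun := fun c => (c.1, c.2 + p)
  invFun := fun c => (c.1, c.2 - p)
  left_inv := fun c => by simp
  right_inv := fun c => by simp

private def W2nx (K : CombG m a G ι) (p : ZMod m) : Equiv.Perm (ι × ZMod m) :=
  ((W2e ι p).trans K.nx).trans (W2e ι p).symm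

private theorem W2_e_nx (K : CombG m a G ι) (p : ZMod m) (c : ι × ZMod m) :
    W2e ι p (W2nx K p c) = K.nx (W2e ι p c) := by
  simp [W2nx]

private theorem W2_iter (K : CombG m a G ι) (p : ZMod m) (k : ℕ) (c : ι × ZMod m) :
    W2e ι p ((W2nx K p)^[k] c) = K.nx^[k] (W2e ι p c) := by
  induction k with
  | zero => rfl
  | succ k ih => rw [Function.iterate_succ_apply', Function.iterate_succ_apply', W2_e_nx, ih]

private theorem W2_period (K : CombG m a G ι) (p : ZMod m) (c : ι × ZMod m) :
    Function.minimalPeriod (W2nx K p) c = Function.minimalPeriod K.nx (W2e ι p c) := by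
  rw [Function.minimalPeriod_eq_minimalPeriod_iff]
  intro n
  unfold Function.IsPeriodicPt Function.IsFixedPt
  rw [← W2_iter]
  exact (W2e ι p).injective.eq_iff.symm

omit [NeZero m] in
private theorem W2_exS (rf : ι → Bool) (p : ZMod m) (c : ι × ZMod m) :
    exS rf (c.1, c.2 + p) = exS rf c + p := by
  unfold exS
  cases rf c.1
  · simp only [Bool.false_eq_true, if_false]
    ring
  · simp

omit [NeZero m] in
private theorem W2_enS (rf : ι → Bool) (p : ZMod m) (c : ι × ZMod m) :
    enS rf (c.1, c.2 + p) = enS rf c + p := by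
  unfold enS
  cases rf c.1
  · simp
  · simp only [if_true]
    ring

private theorem W2_fwd (rf : ι → Bool) (p : ZMod m) (c : ι × ZMod m) :
    W2e ι p (fwd rf c) = fwd rf (W2e ι p c) := by
  unfold fwd W2e
  cases h : rf c.1
  · simp [h]
    ring
  · simp [h]
    ring

private theorem W2_bwd (rf : ι → Bool) (p : ZMod m) (c : ι × ZMod m) :
    W2e ι p (bwd rf c) = bwd rf (W2e ι p c) := by
  unfold bwd W2e
  cases h : rf c.1
  · simp [h]
    ring
  · simp [h]
    ring

theorem CombG.shift (K : CombG m a G ι) (p : ZMod m) :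
    Nonempty (CombG m (fun j => a (j + p)) (fun j k b => G (j + p) (k + p) b) ι) := by
  refine ⟨{
    three_le := K.three_le
    a_pos := fun i => K.a_pos _
    a_lt := fun i => K.a_lt _
    a_ne := fun i => K.a_ne _
    a_sum := ?_
    rf := K.rf
    nx := W2nx K p
    deg3 := fun c => ?_
    sum := fun c => ?_
    glue := fun c => ?_
    flip := fun c => ?_
    avg := ?_ }⟩
  · rw [← K.a_sum]
    exact Equiv.sum_comp (Equiv.addRight p) a
  · rw [W2_period]
    exact K.deg3 _
  · rw [W2_period, ← K.sum (W2e ι p c)]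
    refine Finset.sum_congr rfl fun k _ => ?_
    rw [← W2_iter]
    rfl
  · have h := K.glue (W2e ι p c)
    rw [← W2_e_nx] at h
    have e1 : exS K.rf (W2e ι p c) = exS K.rf c + p := W2_exS K.rf p c
    have e2 : enS K.rf (W2e ι p (W2nx K p c)) = enS K.rf (W2nx K p c) + p :=
      W2_enS K.rf p (W2nx K p c)
    rw [e1, e2] at h
    exact h
  · apply (W2e ι p).injective
    rw [W2_e_nx, W2_fwd, W2_bwd, W2_e_nx]
    exact K.flip _
  · intro f hf hs δ hδ ht
    have hsymm : ∀ c, W2e ι p ((W2e ι p).symm c) = c := fun c => (W2e ι p).apply_symm_apply c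
    refine K.avg (fun c => f ((W2e ι p).symm c)) ?_ ?_ δ hδ ?_
    · obtain ⟨B, hB⟩ := hf
      exact ⟨B, fun c => hB _⟩
    · intro c
      have h := hs ((W2e ι p).symm c)
      rw [W2_period, hsymm] at h
      refine le_trans (le_of_eq ?_) h
      refine Finset.sum_congr rfl fun k _ => ?_
      have h2 := W2_iter K p k ((W2e ι p).symm c)
      rw [hsymm] at h2
      rw [← h2, Equiv.symm_apply_apply]
    · intro t
      refine (ht t).trans (le_of_eq ?_)
      exact (Equiv.sum_comp (Equiv.subRight p) fun i => f (t, i)).symm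

private theorem W2_cost {α : Type} (f : α → α → ℤ) (hf : ∀ x y, f x y = 1) (l : List α) (c d : α) :
    pcost f c l d = (l.length : ℤ) + 1 := by
  induction l generalizing c with
  | nil => simp [pcost, hf]
  | cons x l ih =>
    rw [pcost, ih, hf, List.length_cons]
    push_cast
    ring

theorem CombG.le_six (K : CombG m a G ι) : m ≤ 6 := by
  by_contra hcon
  have hm : (7 : ℤ) ≤ (m : ℤ) := by
    have : 7 ≤ m := by omega
    exact_mod_cast this
  have h := K.wp (fun _ => 0) (fun _ => 0) (fun _ _ _ => ⟨rfl, rfl⟩)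
    (fun _ _ _ => ⟨by simp, by simp⟩)
  obtain ⟨c, l, -, -, hl, -, -, hcost⟩ := h (fun _ => 1) (fun _ _ => 0) (fun _ _ => by simp) 3 (by
    rw [Finset.sum_const, Finset.card_univ, ZMod.card]
    simp only [nsmul_eq_mul, mul_one]
    linarith)
  rw [W2_cost (stepCost (fun _ => 1) fun _ _ => 0) (fun x y => by simp [stepCost])] at hcost
  have hl2 : (2 : ℤ) ≤ (l.length : ℤ) := by exact_mod_cast hl
  linarith

end Pool.Agent.Lib_MP_fa6e45
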