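import Pool.Agent.Lib_MP_fa6e45.Y2
import Pool.Agent.Lib_MP_fa6e45.Y3

/-!
PIECE Y4 (about 200 lines): the reduction. `F` = corners of degree `≥ 3` (`Hom`), `CombA.pass_sum`, `arcs_exist`,
`arc_walk`. `nx'` on `ι × ZMod m`: `S.up (nx' c) = nx (S.up c)` (`S.up` is injective, its image, the corners of degree
`≥ 3`, is invariant under `nx` and `nx⁻¹`), periods agree (`S.up` conjugates). `avg`: extend `f` by 0 to the corners of
degree 2.
-/

open Set MeasureTheory Complex
open scoped Topology

namespace Pool.Agent.Lib_MP_fa6e45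

open Pool.Agent.Lib_PL (cr InSector Poly)
variable {n : ℕ} {P : Polygon n} {ι : Type}

private theorem Y4_deg_nx [NeZero n] {a l : ZMod n → ℝ} (K : Comb n a l ι) (c : ι × ZMod n) :
    K.deg (K.nx c) = K.deg c :=
  Function.minimalPeriod_apply (Function.minimalPeriod_pos_iff_mem_periodicPts.1 (K.deg_pos c))

private theorem Y4_deg_iter [NeZero n] {a l : ZMod n → ℝ} (K : Comb n a l ι) (c : ι × ZMod n)
    (k : ℕ) : K.deg (K.nx^[k] c) = K.deg c := by
  induction k with
  | zero => rfl
  | succ k ih => rw [Function.iterate_succ_apply', Y4_deg_nx, ih]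

/-- extension by `0` -/
private noncomputable def Y4_ext {m : ℕ} [NeZero m] (κ : ZMod m → ZMod n)
    (f : ι × ZMod m → ℝ) (c : ι × ZMod n) : ℝ :=
  ∑ j, if κ j = c.2 then f (c.1, j) else 0

private theorem Y4_ext_up {m : ℕ} [NeZero m] (κ : ZMod m → ZMod n) (hκ : Function.Injective κ)
    (f : ι × ZMod m → ℝ) (c : ι × ZMod m) : Y4_ext κ f (c.1, κ c.2) = f c := by
  unfold Y4_ext
  rw [Finset.sum_eq_single c.2]
  · simp
  · intro j _ hj
    rw [if_neg]
    exact fun h => hj (hκ h)
  · intro h
    exact absurd (Finset.mem_univ _) h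

private theorem Y4_ext_zero {m : ℕ} [NeZero m] (κ : ZMod m → ZMod n)
    (f : ι × ZMod m → ℝ) (c : ι × ZMod n) (hc : ∀ j, κ j ≠ c.2) : Y4_ext κ f c = 0 := by
  unfold Y4_ext
  exact Finset.sum_eq_zero fun j _ => if_neg (hc j)

private theorem Y4_ext_sum [NeZero n] {m : ℕ} [NeZero m] (κ : ZMod m → ZMod n)
    (f : ι × ZMod m → ℝ) (t : ι) : ∑ i, Y4_ext κ f (t, i) = ∑ j, f (t, j) := by
  unfold Y4_ext
  rw [Finset.sum_comm]
  refine Finset.sum_congr rfl fun j _ => ?_
  simp

private theorem Y4_ext_bdd {m : ℕ} [NeZero m] (κ : ZMod m → ZMod n)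
    (f : ι × ZMod m → ℝ) (B : ℝ) (hB : ∀ c, |f c| ≤ B) (c : ι × ZMod n) :
    |Y4_ext κ f c| ≤ m * |B| := by
  unfold Y4_ext
  refine (Finset.abs_sum_le_sum_abs _ _).trans ?_
  refine (Finset.sum_le_card_nsmul _ _ |B| fun j _ => ?_).trans ?_
  · split_ifs
    · exact (hB _).trans (le_abs_self B)
    · simp
  · rw [Finset.card_univ, ZMod.card, nsmul_eq_mul]

private theorem Y4_semi {α β : Type} (u : α → β) (hu : Function.Injective u) (f : α → α)
    (g : β → β) (h : ∀ x, u (f x) = g (u x)) (x : α) :
    Function.minimalPeriod f x = Function.minimalPeriod g (u x) := by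
  have hk : ∀ k, u (f^[k] x) = g^[k] (u x) := by
    intro k
    induction k with
    | zero => rfl
    | succ k ih => rw [Function.iterate_succ_apply', Function.iterate_succ_apply', h, ih]
  apply Nat.dvd_antisymm
  · rw [← Function.isPeriodicPt_iff_minimalPeriod_dvd]
    apply hu
    rw [hk]
    exact Function.isPeriodicPt_minimalPeriod g (u x)
  · rw [← Function.isPeriodicPt_iff_minimalPeriod_dvd]
    change g^[_] (u x) = u x
    rw [← hk]
    exact congrArg u (Function.isPeriodicPt_minimalPeriod f x)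

theorem reduce [NeZero n] (K : CombA n P.ang P.len ι) (hH : K.toComb.Hom) :
    ∃ (m : ℕ) (_ : NeZero m) (S : Arcs P m), 3 ≤ m ∧
      Nonempty (CombG m (fun j => P.ang (S.κ j)) S.Rel ι) := by
  classical
  obtain ⟨t0⟩ := K.nonempty
  set F : Finset (ZMod n) := Finset.univ.filter fun i => ∀ t, K.toComb.deg (t, i) ≠ 2 with hFdef
  have hF : ∀ c : ι × ZMod n, c.2 ∈ F ↔ K.toComb.deg c ≠ 2 := by
    intro c
    rw [hFdef, Finset.mem_filter]
    constructor
    · intro h
      exact h.2 c.1
    · intro h
      exact ⟨Finset.mem_univ _, fun t ht => h (hH c.2 ⟨t, ht⟩ c.1)⟩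
  obtain ⟨hm, hsum⟩ := K.pass_sum hH F hF
  have : NeZero F.card := ⟨by omega⟩
  obtain ⟨κ, w, hw, hstep, htot, hinj, hmem, hnot⟩ := arcs_exist F rfl
  set S : Arcs P F.card := ⟨κ, w, hw, hstep, htot⟩ with hS
  have h1 : ∀ (t : ι) (j : ZMod F.card), K.toComb.deg (t, S.κ j) ≠ 2 := by
    intro t j
    exact (hF (t, κ j)).1 ((hmem _).2 ⟨j, rfl⟩)
  have h2 : ∀ (t : ι) (j : ZMod F.card) (s : ℕ), 0 < s → s < S.w j →
      K.toComb.deg (t, S.κ j + (s : ZMod n)) = 2 := by
    intro t j s hs hs2
    have h := hnot j s hs hs2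
    by_contra h3
    exact h ((hF (t, κ j + (s : ZMod n))).2 h3)
  have hup : Function.Injective (S.up (ι := ι)) := by
    intro c d h
    have h' := Prod.ext_iff.1 h
    have e1 : c.1 = d.1 := h'.1
    have e2 : κ c.2 = κ d.2 := h'.2
    exact Prod.ext e1 (hinj e2)
  have hex : ∀ c : ι × ZMod n, K.toComb.deg c ≠ 2 → ∃ c' : ι × ZMod F.card, S.up c' = c := by
    intro c hc
    obtain ⟨j, hj⟩ := (hmem _).1 ((hF c).2 hc)
    exact ⟨(c.1, j), Prod.ext rfl hj⟩
  have hdup : ∀ c : ι × ZMod F.card, K.toComb.deg (S.up c) ≠ 2 := fun c => h1 c.1 c.2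
  choose nx' hnx1 hnx2 hnx3 using arc_walk S K h1 h2
  have hbij : Function.Bijective nx' := by
    constructor
    · intro c d h
      apply hup
      apply K.nx.injective
      rw [hnx1, hnx1, h]
    · intro d
      obtain ⟨c, hc⟩ := hex (K.nx.symm (S.up d)) (by
        have h := Y4_deg_nx K.toComb (K.nx.symm (S.up d))
        rw [Equiv.apply_symm_apply] at h
        rw [← h]
        exact hdup d)
      refine ⟨c, hup ?_⟩
      rw [← hnx1, hc, Equiv.apply_symm_apply]
  have hper : ∀ c, Function.minimalPeriod nx' c = Function.minimalPeriod K.nx (S.up c) := by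
    intro c
    exact Y4_semi S.up hup nx' K.nx (fun x => (hnx1 x).symm) c
  have hiter : ∀ (k : ℕ) (c : ι × ZMod F.card), S.up (nx'^[k] c) = K.nx^[k] (S.up c) := by
    intro k c
    induction k with
    | zero => rfl
    | succ k ih => rw [Function.iterate_succ_apply', Function.iterate_succ_apply', ← hnx1, ih]
  refine ⟨F.card, this, S, hm, ⟨?_⟩⟩
  exact
    { three_le := hm
      a_pos := fun i => K.a_pos _
      a_lt := fun i => K.a_lt _
      a_ne := fun i => K.a_ne _
      a_sum := by
        have hFi : F = Finset.univ.image κ := by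
          ext i
          rw [hmem, Finset.mem_image]
          simp
        have e1 : ∑ i ∈ Finset.univ.image κ, P.ang i = ∑ i, P.ang (κ i) :=
          Finset.sum_image (fun a _ b _ h => hinj h)
        have e2 : ∑ i ∈ F, P.ang i = ∑ i ∈ Finset.univ.image κ, P.ang i :=
          Finset.sum_congr hFi fun _ _ => rfl
        exact e1.symm.trans (e2.symm.trans hsum)
      rf := K.rf
      nx := Equiv.ofBijective nx' hbij
      deg3 := by
        intro c
        change 3 ≤ Function.minimalPeriod nx' c
        rw [hper]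
        have h3 := K.toComb.two_le (S.up c)
        have h4 := hdup c
        unfold Comb.deg at h4
        omega
      sum := by
        intro c
        change ∑ k ∈ Finset.range (Function.minimalPeriod nx' c), P.ang (κ (nx'^[k] c).2) = _
        rw [hper, ← K.sum (S.up c)]
        refine Finset.sum_congr rfl fun k _ => ?_
        rw [← hiter]
        rfl
      glue := fun c => hnx2 c
      flip := by
        intro c
        apply hup
        change S.up (nx' (fwd K.rf (nx' c))) = _
        rw [← hnx1]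
        exact hnx3 c
      avg := by
        intro f hB hstar δ hδ htile
        obtain ⟨B, hB⟩ := hB
        refine K.avg (Y4_ext κ f) ⟨F.card * |B|, Y4_ext_bdd κ f B hB⟩ ?_ δ hδ ?_
        · intro c
          by_cases hc : K.toComb.deg c = 2
          · refine (Finset.sum_eq_zero fun k _ => ?_).le
            refine Y4_ext_zero κ f _ fun j hj => ?_
            have h3 : (K.nx^[k] c).2 ∈ F := (hmem _).2 ⟨j, hj⟩
            rw [hF, Y4_deg_iter] at h3
            exact h3 hc
          · obtain ⟨c', hc'⟩ := hex c hc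
            have h3 := hstar c'
            change ∑ k ∈ Finset.range (Function.minimalPeriod nx' c'), f (nx'^[k] c') ≤ 0 at h3
            rw [hper, hc'] at h3
            refine le_of_eq_of_le (Finset.sum_congr rfl fun k _ => ?_) h3
            rw [← hc', ← hiter]
            exact Y4_ext_up κ hinj f _
        · intro t
          rw [Y4_ext_sum]
          exact htile t }

end Pool.Agent.Lib_MP_fa6e45
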