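import Pool.Agent.Lib_MP_fa6e45.CGF
import Pool.Agent.Lib_MP_fa6e45.CS8
import Pool.Agent.Lib_MP_fa6e45.CS3
import Pool.Agent.Lib_MP_fa6e45.Y4
import Pool.Agent.Lib_MP_fa6e45.W1
import Pool.Agent.Lib_MP_fa6e45.W2
import Pool.Agent.Lib_MP_fa6e45.HR

/-!
MP_fa6e45_co, stage 5: main theorem (assembly, captain): a polygon with an edge-to-edge tiling in which every corner of
the polygon has constant status has a periodic tiling.
-/

open Set MeasureTheory Complex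
open scoped Topology

namespace Pool.Agent.Lib_MP_fa6e45

open Pool.Agent.Lib_PL (cr InSector Poly)

variable {n : ℕ} {P : Polygon n} {ι : Type}

private theorem CSM_nil {m : ℕ} [NeZero m] (f : ZMod m → ℝ) :
    ∀ E ∈ ([] : List Eqn), Eqn.Holds E f := fun _ h => absurd h List.not_mem_nil

private theorem CSM_w {m : ℕ} [NeZero m] (S : Arcs P m) (hm : m < n) : ∃ j, S.w j ≠ 1 := by
  by_contra h
  push Not at h
  have h1 := S.total
  rw [Finset.sum_congr rfl fun j _ => h j, Finset.sum_const, Finset.card_univ, ZMod.card,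
    smul_eq_mul, mul_one] at h1
  omega

private theorem CSM_fin {m : ℕ} [NeZero m] (hc : P.CCW) (S : Arcs P m)
    (K : CombG m (fun j => P.ang (S.κ j)) S.Rel ι) (tab : List ℕ)
    (ht : ∀ x ∈ tab, NodeT m (decW m x) [])
    (he : ∃ x ∈ tab, ∃ (r : Bool) (s : ZMod m), ∀ j k c,
      S.Rel (siS r s j) (siS r s k) c ↔ relT (decW m x) j k c = true) : HasPeriodic P := by
  obtain ⟨x, hx, r, s, h⟩ := he
  obtain ⟨P', S', b, M, hp⟩ := sitT_of hc K r s h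
  exact hp (ht x hx P' S' b M (CSM_nil _) (CSM_nil _))

/-- corners of degree two in all tiles or in none, more than six corners -/
theorem hom_periodicT [NeZero n] (hc : P.CCW) (hn : 7 ≤ n) (K : CombA n P.ang P.len ι)
    (hH : K.toComb.Hom) : HasPeriodic P := by
  obtain ⟨m, hm, S, hm3, ⟨K'⟩⟩ := reduce K hH
  have h6 := K'.le_six
  have hw := CSM_w S (by omega)
  have h7 : m = 3 ∨ m = 4 ∨ m = 5 ∨ m = 6 := by omega
  rcases h7 with rfl | rfl | rfl | rfl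
  · exact CSM_fin hc S K' tabT3 certT3 (enumT3 S K' hw)
  · exact CSM_fin hc S K' tabT4 certT4 (enumT4 S K' hw)
  · exact CSM_fin hc S K' tabT5 certT5 (enumT5 S K' hw)
  · exact CSM_fin hc S K' tabT6 certT6 (enumT6 S K' hw)

theorem main7_ccw (P : Polygon n) (hc : P.CCW) (hn : 7 ≤ n) {𝒮 : Set (Set ℂ)} (h : P.IsTiling 𝒮)
    (he : P.EdgeToEdge 𝒮) (g : Set ℂ → ℂ ≃ᵢ ℂ) (hg : ∀ t ∈ 𝒮, t = g t '' P.region)
    (hu : ∀ i : ZMod n, ∀ s ∈ 𝒮, ∀ t ∈ 𝒮, ThreeAt 𝒮 (g s (P.vertex i)) →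
      ThreeAt 𝒮 (g t (P.vertex i))) :
    ∃ 𝒯 : Set (Set ℂ), P.IsTiling 𝒯 ∧ Periodic 𝒯 := by
  haveI : NeZero n := ⟨by have := P.three_le; omega⟩
  obtain ⟨T, hT⟩ := uniform_til P hc h he g hg hu
  obtain ⟨K, hK⟩ := T.combA hc
  refine hom_periodicT hc hn K ?_
  rintro i ⟨s, hs⟩ t
  rw [hK] at hs ⊢
  exact hT s t i hs

/-- a polygon with an edge-to-edge tiling in which every corner of the polygon has constant status -/
theorem main7_thm (P : Polygon n) {𝒮 : Set (Set ℂ)} (h : P.IsTiling 𝒮)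
    (he : P.EdgeToEdge 𝒮) (g : Set ℂ → ℂ ≃ᵢ ℂ) (hg : ∀ t ∈ 𝒮, t = g t '' P.region)
    (hu : ∀ i : ZMod n, ∀ s ∈ 𝒮, ∀ t ∈ 𝒮, ThreeAt 𝒮 (g s (P.vertex i)) →
      ThreeAt 𝒮 (g t (P.vertex i))) :
    ∃ 𝒯 : Set (Set ℂ), P.IsTiling 𝒯 ∧ Periodic 𝒯 := by
  rcases Nat.lt_or_ge n 7 with hn | hn
  · exact main6_thm P h he (by omega)
  rcases P.ccw_or with hc | hc
  · exact main7_ccw P hc hn h he g hg hu
  have hT : ∀ 𝒯 : Set (Set ℂ), P.rev.IsTiling 𝒯 ↔ P.IsTiling 𝒯 := by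
    intro 𝒯
    constructor
    · rintro ⟨h1, h2, h3⟩
      exact ⟨fun t ht => by simpa only [P.rev_region] using h1 t ht, h2, h3⟩
    · rintro ⟨h1, h2, h3⟩
      exact ⟨fun t ht => by simpa only [P.rev_region] using h1 t ht, h2, h3⟩
  have hE : P.rev.EdgeToEdge 𝒮 := by
    intro g k hg hk i j
    rw [P.rev_region] at hg hk
    have h1 := he g k hg hk (-i) (-j - 1)
    rw [openSegment_symm] at h1
    have e1 : -j - 1 + 1 = -j := by ring
    have e2 : -(j + 1) = -j - 1 := by ring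
    rw [e1] at h1
    change g (P.vertex (-i)) ∉ openSegment ℝ (k (P.vertex (-j))) (k (P.vertex (-(j + 1))))
    rw [e2]
    exact h1
  have hg' : ∀ t ∈ 𝒮, t = g t '' P.rev.region := by
    intro t ht
    rw [P.rev_region]
    exact hg t ht
  have hu' : ∀ i : ZMod n, ∀ s ∈ 𝒮, ∀ t ∈ 𝒮, ThreeAt 𝒮 (g s (P.rev.vertex i)) →
      ThreeAt 𝒮 (g t (P.rev.vertex i)) := fun i s hs t ht => hu (-i) s hs t ht
  obtain ⟨𝒯, h1, h2⟩ := main7_ccw P.rev hc hn ((hT 𝒮).2 h) hE g hg' hu'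
  exact ⟨𝒯, (hT 𝒯).1 h1, h2⟩

end Pool.Agent.Lib_MP_fa6e45
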