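import Pool.Agent.Lib_MP_fa6e45.CS0

/-!
MP_fa6e45_co, stage 5: the tables of the leaves with several copies of the tile in a lattice cell (captain, generated by
a program): glued arcs `(j, k, same orientation)`, and equations for the chord angles.
-/

namespace Pool.Agent.Lib_MP_fa6e45

/-- tables for `3` arcs -/
def tt3 : List TorT :=
  []

/-- tables for `4` arcs -/
def tt4 : List TorT :=
  [⟨[(0, 1, true), (0, 3, true), (1, 2, true), (2, 3, true)],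
      [([0, 2, 0, 2], 2), ([2, 0, 2, 0], 2)]⟩,
    ⟨[(0, 1, true), (0, 3, false), (1, 2, true), (2, 3, false)],
      [([1, 0, 2, 1], 2), ([1, 2, 0, 1], 2)]⟩,
    ⟨[(0, 1, true), (0, 3, true), (1, 2, true), (2, 3, true)],
      [([0, 1, 0, 2], 2), ([0, 3, 0, 1], 2), ([2, 0, 4, 0], 2), ([3, 0, 1, 0], 2)]⟩,
    ⟨[(0, 1, true), (0, 3, false), (1, 2, true), (2, 3, false)],
      [([0, 0, 6, 0], 2), ([0, 3, 0, 0], 2), ([1, 1, 1, 1], 2), ([2, 0, 0, 2], 2)]⟩]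

/-- tables for `5` arcs -/
def tt5 : List TorT :=
  [⟨[(0, 1, true), (0, 4, true), (1, 3, true), (2, 3, true), (2, 4, true)],
      [([0, 0, 1, 2, 1], 2), ([0, 2, 0, 0, 1], 2), ([2, 0, 1, 0, 0], 2)]⟩,
    ⟨[(0, 1, true), (0, 2, true), (1, 1, true), (2, 2, true), (3, 3, true), (3, 4, true), (4, 4, true)],
      [([0, 2, 1, 0, 0], 2), ([1, 0, 0, 1, 2], 2), ([1, 0, 1, 1, 0], 2)]⟩,
    ⟨[(0, 1, true), (0, 2, true), (1, 1, true), (2, 3, true), (3, 3, true), (4, 4, true)],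
      [([0, 2, 1, 0, 0], 2), ([1, 0, 0, 2, 1], 2), ([1, 0, 1, 0, 1], 2)]⟩,
    ⟨[(0, 0, true), (0, 1, false), (1, 1, true), (2, 2, true), (2, 3, false), (3, 3, true), (4, 4, false)],
      [([0, 0, 0, 1, 2], 2), ([0, 1, 2, 1, 0], 2), ([2, 1, 0, 0, 0], 2)]⟩,
    ⟨[(0, 2, true), (0, 3, false), (1, 2, false), (1, 3, true), (4, 4, false)],
      [([0, 1, 0, 0, 2], 2), ([0, 1, 2, 1, 0], 2), ([2, 0, 0, 1, 0], 2)]⟩,
    ⟨[(0, 0, true), (0, 1, true), (0, 4, true), (1, 2, true), (1, 3, true), (1, 4, true), (2, 2, true), (2, 3,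
      true), (3, 4, true)],
      [([0, 0, 1, 2, 0], 2), ([0, 0, 2, 0, 2], 2), ([0, 2, 0, 0, 2], 2), ([1, 0, 1, 1, 0], 2), ([1, 1, 0, 1, 0], 2),
      ([2, 1, 0, 0, 0], 2)]⟩,
    ⟨[(0, 0, true), (0, 4, true), (1, 2, true), (1, 3, true), (1, 4, true), (2, 2, true), (2, 3, true), (3, 3,
      true)],
      [([0, 0, 1, 2, 0], 2), ([0, 0, 2, 0, 1], 2), ([0, 1, 0, 2, 1], 2), ([0, 1, 1, 0, 2], 2), ([2, 1, 0, 0, 0], 2)]⟩,
    ⟨[(0, 1, true), (0, 2, false), (1, 3, false), (2, 3, false), (4, 4, false)],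
      [([0, 0, 1, 1, 2], 2), ([0, 2, 0, 1, 0], 2), ([2, 0, 1, 0, 0], 2)]⟩,
    ⟨[(0, 2, true), (0, 3, false), (1, 1, true), (1, 2, true), (3, 3, true), (4, 4, false)],
      [([0, 1, 0, 1, 2], 2), ([0, 1, 2, 0, 0], 2), ([2, 0, 0, 1, 0], 2)]⟩,
    ⟨[(0, 1, true), (0, 2, true), (1, 1, true), (2, 3, false), (3, 3, true), (4, 4, false)],
      [([0, 0, 0, 1, 2], 2), ([0, 2, 1, 0, 0], 2), ([2, 0, 1, 1, 0], 2)]⟩,
    ⟨[(0, 1, true), (0, 2, false), (1, 3, false), (2, 2, true), (3, 3, true), (4, 4, false)],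
      [([0, 0, 1, 1, 2], 2), ([0, 2, 0, 1, 0], 2), ([2, 0, 1, 0, 0], 2)]⟩,
    ⟨[(0, 1, true), (0, 2, true), (1, 1, true), (2, 2, true), (3, 4, false), (3, 4, true)],
      [([0, 2, 1, 0, 0], 2), ([1, 0, 0, 1, 2], 2), ([1, 0, 1, 1, 0], 2)]⟩,
    ⟨[(0, 1, false), (0, 3, false), (1, 2, true), (2, 3, false), (4, 4, true)],
      [([0, 1, 2, 1, 0], 2), ([1, 0, 0, 1, 1], 2), ([1, 1, 0, 0, 1], 2)]⟩,
    ⟨[(0, 1, false), (0, 3, false), (1, 2, false), (2, 3, false), (4, 4, true)],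
      [([0, 0, 2, 2, 0], 2), ([0, 2, 2, 0, 0], 2), ([1, 0, 0, 1, 1], 2), ([1, 1, 0, 0, 1], 2)]⟩,
    ⟨[(0, 1, true), (0, 2, false), (1, 1, true), (2, 3, false), (3, 3, true), (4, 4, false)],
      [([0, 0, 0, 1, 2], 2), ([0, 2, 1, 1, 0], 2), ([2, 0, 1, 0, 0], 2)]⟩,
    ⟨[(0, 0, true), (0, 1, true), (0, 3, true), (1, 3, true), (1, 4, true), (2, 2, true), (2, 3, true), (2, 4,
      true), (4, 4, true)],
      [([0, 0, 1, 2, 0], 2), ([0, 1, 0, 1, 1], 2), ([1, 0, 1, 0, 2], 2), ([1, 2, 0, 0, 0], 2), ([2, 0, 2, 0, 0], 2)]⟩]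

/-- tables for `6` arcs -/
def tt6 : List TorT :=
  [⟨[(0, 3, true), (0, 4, true), (1, 3, true), (1, 5, true), (2, 4, true), (2, 5, true)],
      [([0, 0, 1, 1, 0, 1], 2), ([0, 1, 0, 1, 1, 0], 2), ([1, 0, 1, 0, 0, 1], 2), ([1, 1, 0, 0, 1, 0], 2)]⟩,
    ⟨[(0, 1, true), (0, 2, true), (1, 1, true), (2, 4, true), (3, 3, true), (3, 4, true), (5, 5, true)],
      [([0, 0, 0, 1, 2, 0], 2), ([0, 2, 1, 0, 0, 0], 2), ([1, 0, 0, 1, 0, 1], 2), ([1, 0, 1, 0, 0, 1], 2)]⟩,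
    ⟨[(0, 3, false), (1, 2, false), (1, 4, true), (2, 5, true), (4, 5, false)],
      [([0, 1, 0, 0, 1, 1], 2), ([0, 1, 1, 0, 1, 0], 2), ([1, 0, 0, 1, 0, 1], 2), ([1, 0, 1, 1, 0, 0], 2)]⟩,
    ⟨[(0, 1, false), (0, 4, false), (1, 3, false), (2, 2, true), (3, 4, false), (5, 5, true)],
      [([0, 0, 1, 1, 1, 0], 2), ([0, 1, 1, 1, 0, 0], 2), ([1, 0, 0, 0, 1, 1], 2), ([1, 1, 0, 0, 0, 1], 2)]⟩,
    ⟨[(0, 3, true), (0, 4, false), (1, 3, false), (1, 4, true), (2, 2, false), (5, 5, false)],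
      [([0, 0, 2, 0, 1, 0], 2), ([0, 1, 0, 0, 0, 2], 2), ([0, 1, 0, 2, 0, 0], 2), ([2, 0, 0, 0, 1, 0], 2)]⟩,
    ⟨[(0, 0, true), (0, 1, false), (1, 1, true), (2, 2, false), (3, 3, true), (3, 4, false), (4, 4, true), (5, 5,
      false)],
      [([0, 0, 0, 0, 1, 2], 2), ([0, 0, 0, 2, 1, 0], 2), ([0, 1, 2, 0, 0, 0], 2), ([2, 1, 0, 0, 0, 0], 2)]⟩,
    ⟨[(0, 0, true), (0, 2, true), (1, 1, true), (1, 2, true), (3, 3, true), (3, 5, true), (4, 4, true), (4, 5,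
      true)],
      [([0, 0, 0, 0, 1, 2], 2), ([0, 1, 2, 0, 0, 0], 2), ([1, 0, 0, 1, 1, 0], 2), ([1, 1, 0, 1, 0, 0], 2)]⟩,
    ⟨[(0, 0, true), (0, 2, true), (1, 1, true), (1, 2, true), (3, 4, true), (3, 5, true), (4, 4, true), (5, 5,
      true)],
      [([0, 0, 0, 0, 2, 1], 2), ([0, 1, 2, 0, 0, 0], 2), ([1, 0, 0, 1, 0, 1], 2), ([1, 1, 0, 1, 0, 0], 2)]⟩,
    ⟨[(0, 2, true), (0, 4, false), (1, 4, false), (1, 5, false), (2, 3, false), (3, 5, true)],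
      [([0, 1, 0, 0, 1, 1], 2), ([0, 1, 1, 0, 0, 1], 2), ([1, 0, 0, 1, 1, 0], 2), ([1, 0, 1, 1, 0, 0], 2)]⟩,
    ⟨[(0, 3, false), (0, 5, true), (1, 2, true), (1, 4, false), (2, 5, false), (3, 4, false)],
      [([0, 0, 2, 0, 0, 1], 2), ([0, 1, 0, 0, 1, 1], 2), ([0, 1, 0, 1, 1, 0], 2), ([2, 0, 0, 1, 0, 0], 2)]⟩,
    ⟨[(0, 3, true), (0, 5, false), (1, 2, true), (1, 4, true), (2, 3, true), (4, 5, false)],
      [([0, 0, 2, 0, 1, 0], 2), ([0, 1, 0, 2, 0, 0], 2), ([1, 0, 0, 0, 1, 1], 2), ([1, 1, 0, 0, 0, 1], 2)]⟩,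
    ⟨[(0, 2, true), (0, 3, false), (1, 1, true), (1, 2, true), (3, 4, false), (4, 4, true), (5, 5, false)],
      [([0, 0, 0, 0, 1, 2], 2), ([0, 1, 0, 1, 1, 0], 2), ([0, 1, 2, 0, 0, 0], 2), ([2, 0, 0, 1, 0, 0], 2)]⟩,
    ⟨[(0, 0, true), (0, 1, true), (0, 2, true), (0, 3, true), (0, 4, true), (0, 5, true), (1, 1, true), (1, 2,
      true), (1, 3, true), (1, 4, true), (1, 5, true), (2, 2, true), (2, 3, true), (2, 4, true), (2, 5, true),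
      (3, 3, true), (3, 4, true), (3, 5, true), (4, 4, true), (4, 5, true), (5, 5, true)],
      [([3, 0, 0, 0, -6, 0], -2), ([0, 3, 0, 0, 3, 0], 4), ([0, 0, 1, 0, 2, 0], 2), ([0, 0, 0, 3, 0, 0], 2), ([0, 0,
      0, 0, 0, 3], 2)]⟩]

end Pool.Agent.Lib_MP_fa6e45
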