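import Pool.Agent.Lib_MP_fa6e45.X1b
import Pool.Agent.Lib_MP_fa6e45.X1c

/-!
MP_fa6e45_co, tilings with several orbits: the torus theorem, definitions.

`TT`: a table of `k` copies of a tile with `m` arcs which are glued to a torus. The corner `i` of copy `t` and the
arc `i` of copy `t` (from corner `i` to corner `i + 1`) have the code `t * m + i`; as elements of `ZMod m` the codes
are the indices. `rf`: which copies are reflected; `tau`: the gluing (an involution on the codes of arcs); `par`:
a spanning tree (`par t` is the code of an arc of an earlier copy glued to copy `t`); `stars`: the corners around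
the vertices, counterclockwise; `word`, `rank`, `just`, `gA`, `gB`, `fin`: elimination certificate (the holonomies
as words in two generators); `sid`, `off`: number of the star and lattice offset of the corners.
-/

open Set MeasureTheory Complex
open scoped Topology

namespace Pool.Agent.Lib_MP_fa6e45

/-! ### words -/

/-- inverse letter: `0 = A`, `1 = A⁻¹`, `2 = B`, `3 = B⁻¹` -/
def linv : ℕ → ℕ
  | 0 => 1
  | 1 => 0
  | 2 => 3
  | _ => 2

/-- put a letter in front of a reduced word -/
def fpush (l : ℕ) : List ℕ → List ℕ
  | [] => [l]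
  | a :: w => if a = linv l then w else l :: a :: w

/-- free reduction -/
def fred (w : List ℕ) : List ℕ := w.foldr fpush []

/-- value of a letter -/
def evLt {G : Type*} [Group G] (A B : G) : ℕ → G
  | 0 => A
  | 1 => A⁻¹
  | 2 => B
  | _ => B⁻¹

/-- value of a word -/
def evW {G : Type*} [Group G] (A B : G) (w : List ℕ) : G := (w.map (evLt A B)).prod

/-- exponents of a letter -/
def exL : ℕ → ℤ × ℤ
  | 0 => (1, 0)
  | 1 => (-1, 0)
  | 2 => (0, 1)
  | _ => (0, -1)

/-- exponents of a word -/
def exWd (w : List ℕ) : ℤ × ℤ := (w.map exL).sum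

/-- the reduced words which are commutators of the two generators -/
def isComm (w : List ℕ) : Bool :=
  w == [0, 2, 1, 3] || w == [2, 1, 3, 0] || w == [1, 3, 0, 2] || w == [3, 0, 2, 1] ||
  w == [2, 0, 3, 1] || w == [0, 3, 1, 2] || w == [3, 1, 2, 0] || w == [1, 2, 0, 3]

/-! ### tables -/

/-- table of a torus -/
structure TT where
  k : ℕ
  rf : List Bool
  tau : List ℕ
  par : List ℕ
  stars : List (List ℕ)
  word : List (List ℕ)
  rank : List ℕ
  just : List ℕ
  gA : ℕ
  gB : ℕ
  fin : ℕ
  sid : List ℕ
  off : List (ℤ × ℤ)

namespace TT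

variable (T : TT) (m : ℕ)

/-- is the copy of the arc or corner `x` reflected? -/
def rfc (x : ℕ) : Bool := T.rf.getD (x / m) false

/-- the gluing -/
def ta (x : ℕ) : ℕ := T.tau.getD x 0

/-- the word of the arc `x` -/
def wd (x : ℕ) : List ℕ := T.word.getD x []

/-- the exponents of the arc `x` -/
def ew (x : ℕ) : ℤ × ℤ := exWd (T.wd x)

/-- code of the previous index in the same copy -/
def prv (x : ℕ) : ℕ := x / m * m + (x % m + (m - 1)) % m

/-- code of the next index in the same copy -/
def nxt (x : ℕ) : ℕ := x / m * m + (x % m + 1) % m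

/-- exit arc of a corner (counterclockwise) -/
def ex (c : ℕ) : ℕ := if T.rfc m c then c else prv m c

/-- entry arc of a corner -/
def en (c : ℕ) : ℕ := if T.rfc m c then prv m c else c

/-- the corner at the end of the arc `x` (boundary of the placed tile counterclockwise) -/
def ct (x : ℕ) : ℕ := if T.rfc m x then x else nxt m x

/-- the corner at the start of the arc `x` -/
def cs (x : ℕ) : ℕ := if T.rfc m x then nxt m x else x

/-- the product of the words of a star is freely trivial, `x` has the highest rank and occurs once -/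
def low (x : ℕ) (s : List ℕ) : Bool :=
  (s.map (T.ex m)).count x == 1 &&
    ((s.map (T.ex m)).all fun y => y == x || decide (T.rank.getD y 0 < T.rank.getD x 0)) &&
    fred ((s.map fun c => T.wd (T.ex m c)).flatten) == []

/-- the word of `x` is justified directly -/
def bas (x : ℕ) : Bool :=
  (x == T.gA && T.wd x == [0]) || (x == T.gB && T.wd x == [2]) ||
    ((List.range T.k).any fun t => decide (0 < t) && T.par.getD t 0 == x && T.wd x == [])

/-- the check of the combinatorial part -/
def chk1 : Bool :=
  decide (0 < T.k) && decide (2 ≤ m) &&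
  ((List.range (T.k * m)).all fun x => decide (T.ta x < T.k * m) && T.ta (T.ta x) == x) &&
  ((List.range T.k).all fun t => t == 0 ||
    (decide (T.par.getD t 0 < T.k * m) && decide (T.par.getD t 0 / m < t) &&
      T.ta (T.par.getD t 0) / m == t)) &&
  (T.stars.all fun s => decide (0 < s.length) && (s.all fun c => decide (c < T.k * m)) &&
    ((s.zip (s.rotate 1)).all fun p => T.ta (T.ex m p.1) == T.en m p.2))

/-- the check of the elimination -/
def chk2 : Bool :=
  ((List.range (T.k * m)).all fun x => fred (T.wd x ++ T.wd (T.ta x)) == [] &&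
    T.rank.getD (T.ta x) 0 == T.rank.getD x 0) &&
  ((List.range (T.k * m)).all fun x => T.bas x || T.bas (T.ta x) ||
    (T.low m x (T.stars.getD (T.just.getD x 0) []) && T.stars.getD (T.just.getD x 0) [] != []) ||
    (T.low m (T.ta x) (T.stars.getD (T.just.getD (T.ta x) 0) []) &&
      T.stars.getD (T.just.getD (T.ta x) 0) [] != [])) &&
  (decide (T.gA < T.k * m) && decide (T.gB < T.k * m)) &&
  (decide (T.fin < T.stars.length) &&
    isComm (fred (((T.stars.getD T.fin []).map fun c => T.wd (T.ex m c)).flatten)))

/-- the integers of the area formula -/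
def ar : ℤ :=
  (((List.range (T.k * m)).map fun x =>
    (T.ew x).1 * ((T.off.getD (T.ct m x) 0).2 - (T.off.getD (T.cs m x) 0).2) -
    (T.ew x).2 * ((T.off.getD (T.ct m x) 0).1 - (T.off.getD (T.cs m x) 0).1))).sum

/-- the check of the area -/
def chk3 : Bool :=
  ((List.range (T.k * m)).all fun c => (T.stars.getD (T.sid.getD c 0) []).contains c) &&
  (T.stars.all fun s => (s.zip (s.rotate 1)).all fun p =>
    T.sid.getD p.1 0 == T.sid.getD p.2 0 &&
      T.off.getD p.2 0 == T.off.getD p.1 0 - T.ew (T.ex m p.1)) &&
  ((List.range T.stars.length).all fun s =>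
    ((List.range (T.k * m)).map fun x => (if T.sid.getD (T.ct m x) 0 = s then T.ew x else 0) -
      (if T.sid.getD (T.cs m x) 0 = s then T.ew x else 0)).sum == (0 : ℤ × ℤ)) &&
  (T.ar m == 4 || T.ar m == -4)

/-- the check -/
def chk : Bool := T.chk1 m && T.chk2 m && T.chk3 m

end TT

end Pool.Agent.Lib_MP_fa6e45
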