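import Pool.Agent.Lib_MP_fa6e45.CT0

/-!
MP_fa6e45_co, the torus theorem: motions and stars. The gluing motions of the arcs; around a vertex with angle sum
`2` (units `π`) their product is the identity.
-/

open Set MeasureTheory Complex
open scoped Topology

namespace Pool.Agent.Lib_MP_fa6e45

open Pool.Agent.Lib_PL (cr InSector Poly)

namespace Mo

/-- composition of motions -/
noncomputable def mul (g h : Mo) : Mo where
  a := g.a * (if g.rf then (starRingEnd ℂ) h.a else h.a)
  b := g.app h.b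
  rf := (g.rf != h.rf)
  ha := by
    rw [norm_mul, g.ha, one_mul]
    split_ifs
    · rw [RCLike.norm_conj, h.ha]
    · exact h.ha

theorem mul_app (g h : Mo) (z : ℂ) : (g.mul h).app z = g.app (h.app z) := by
  obtain ⟨a, b, rf, ha⟩ := g
  obtain ⟨c, d, rf', hc⟩ := h
  cases rf <;> cases rf' <;> simp [mul, app, lin] <;> ring

theorem mul_lin (g h : Mo) (z : ℂ) : (g.mul h).lin z = g.lin (h.lin z) := by
  obtain ⟨a, b, rf, ha⟩ := g
  obtain ⟨c, d, rf', hc⟩ := h
  cases rf <;> cases rf' <;> simp [mul, lin] <;> ring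

theorem mul_rf (g h : Mo) : (g.mul h).rf = (g.rf != h.rf) := rfl

/-- the motion as a permutation of the plane -/
noncomputable def pm (g : Mo) : Equiv.Perm ℂ := g.iso.toEquiv

theorem pm_apply (g : Mo) (z : ℂ) : g.pm z = g.app z := rfl

theorem pm_mul (g h : Mo) : (g.mul h).pm = g.pm * h.pm := by
  ext1 z
  exact mul_app g h z

theorem pm_eq {g h : Mo} (hr : g.rf = h.rf) {p d : ℂ} (hd : d ≠ 0) (hp : g.app p = h.app p)
    (hl : g.lin d = h.lin d) : g.pm = h.pm := by
  obtain ⟨a, b, rf, ha⟩ := g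
  obtain ⟨c, e, rf', hc⟩ := h
  simp only at hr
  subst hr
  have hac : a = c := by
    cases rf
    · simp only [lin, Bool.false_eq_true, if_false] at hl
      exact mul_right_cancel₀ hd hl
    · simp only [lin, if_true] at hl
      exact mul_right_cancel₀ ((map_ne_zero _).2 hd) hl
  subst hac
  have hbe : b = e := by
    simp only [app, lin] at hp
    exact add_left_cancel hp
  subst hbe
  rfl

end Mo

variable {n : ℕ} {P : Polygon n} {m : ℕ} [NeZero m]

namespace Arcs

variable (S : Arcs P m)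

open Classical in
/-- the motion which glues arc `k` of a neighbour to arc `j`; `b`: same orientation -/
noncomputable def glu (j k : ZMod m) (b : Bool) : Mo :=
  if h : ‖S.ch j‖ = ‖S.ch k‖ ∧ S.ch k ≠ 0 then
    if b then ⟨S.ch j / (-S.ch k), S.V (j + 1) - S.ch j / (-S.ch k) * S.V k, false, by
        rw [norm_div, norm_neg, h.1, div_self (norm_ne_zero_iff.2 h.2)]⟩
    else ⟨S.ch j / (starRingEnd ℂ) (S.ch k),
        S.V j - S.ch j / (starRingEnd ℂ) (S.ch k) * (starRingEnd ℂ) (S.V k), true, by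
        rw [norm_div, RCLike.norm_conj, h.1, div_self (norm_ne_zero_iff.2 h.2)]⟩
  else ⟨1, 0, !b, norm_one⟩

theorem glu_rf (j k : ZMod m) (b : Bool) : (S.glu j k b).rf = !b := by
  unfold glu
  split_ifs with h1 h2
  · simp [h2]
  · simp at h2
    simp [h2]
  · rfl

theorem glu_true (hm : 2 ≤ m) {j k : ZMod m} (h : S.Plus j k) :
    (S.glu j k true).app (S.V k) = S.V (j + 1) ∧ (S.glu j k true).app (S.V (k + 1)) = S.V j ∧
      (S.glu j k true).lin (S.ch k) = -S.ch j := by
  have hk := S.ch_ne hm k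
  have h1 : ‖S.ch j‖ = ‖S.ch k‖ ∧ S.ch k ≠ 0 := ⟨S.norm_plus h, hk⟩
  unfold glu
  rw [dif_pos h1]
  simp only [if_true, Mo.app, Mo.lin, Bool.false_eq_true, if_false]
  have hac : S.ch j / (-S.ch k) * S.ch k = -S.ch j := by
    field_simp
  refine ⟨by ring, ?_, hac⟩
  have h2 : S.V (k + 1) = S.V k + S.ch k := by unfold ch; ring
  have h3 : S.V (j + 1) = S.V j + S.ch j := by unfold ch; ring
  rw [h2, h3]
  linear_combination hac

theorem glu_false (hm : 2 ≤ m) {j k : ZMod m} (h : S.Minus j k) :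
    (S.glu j k false).app (S.V k) = S.V j ∧ (S.glu j k false).app (S.V (k + 1)) = S.V (j + 1) ∧
      (S.glu j k false).lin (S.ch k) = S.ch j := by
  have hk := S.ch_ne hm k
  have h1 : ‖S.ch j‖ = ‖S.ch k‖ ∧ S.ch k ≠ 0 := ⟨S.norm_minus h, hk⟩
  have hk' : (starRingEnd ℂ) (S.ch k) ≠ 0 := (map_ne_zero _).2 hk
  unfold glu
  rw [dif_pos h1]
  simp only [if_true, Mo.app, Mo.lin, Bool.false_eq_true, if_false]
  have hac : S.ch j / (starRingEnd ℂ) (S.ch k) * (starRingEnd ℂ) (S.ch k) = S.ch j :=
    div_mul_cancel₀ _ hk'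
  refine ⟨by ring, ?_, hac⟩
  have h2 : S.V (k + 1) = S.V k + S.ch k := by unfold ch; ring
  have h3 : S.V (j + 1) = S.V j + S.ch j := by unfold ch; ring
  rw [h2, h3, map_add]
  linear_combination hac

/-- unit direction of chord `j` -/
noncomputable def un (j : ZMod m) : ℂ := S.ch j / (‖S.ch j‖ : ℂ)

theorem un_ne (hm : 2 ≤ m) (j : ZMod m) : S.un j ≠ 0 := by
  have h := S.ch_ne hm j
  unfold un
  have h2 : (‖S.ch j‖ : ℂ) ≠ 0 := by exact_mod_cast norm_ne_zero_iff.2 h
  exact div_ne_zero h h2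

theorem un_turn (hm : 2 ≤ m) {b : ZMod m → ℝ} (hb : S.ChordAng b) (j : ZMod m) :
    exp (((Real.pi * b j : ℝ) : ℂ) * Complex.I) * S.un j = -S.un (j - 1) := by
  have h1 := hb j
  have hj := S.ch_ne hm j
  have hj' := S.ch_ne hm (j - 1)
  have n1 : (‖S.ch j‖ : ℂ) ≠ 0 := by exact_mod_cast norm_ne_zero_iff.2 hj
  have n2 : (‖S.ch (j - 1)‖ : ℂ) ≠ 0 := by exact_mod_cast norm_ne_zero_iff.2 hj'
  have h2 : exp (((Real.pi * (1 - b j) : ℝ) : ℂ) * Complex.I) =
      -exp (-(((Real.pi * b j : ℝ) : ℂ) * Complex.I)) := by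
    have : ((Real.pi * (1 - b j) : ℝ) : ℂ) * Complex.I =
        Real.pi * Complex.I + -(((Real.pi * b j : ℝ) : ℂ) * Complex.I) := by
      push_cast
      ring
    rw [this, Complex.exp_add, Complex.exp_pi_mul_I]
    ring
  have h3 : exp (((Real.pi * b j : ℝ) : ℂ) * Complex.I) *
      exp (-(((Real.pi * b j : ℝ) : ℂ) * Complex.I)) = 1 := by
    rw [← Complex.exp_add, add_neg_cancel, Complex.exp_zero]
  unfold un
  rw [h2] at h1
  push_cast at h1 h3 ⊢
  generalize exp ((Real.pi : ℂ) * (b j : ℂ) * Complex.I) = E at h1 h3 ⊢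
  generalize exp (-((Real.pi : ℂ) * (b j : ℂ) * Complex.I)) = E' at h1 h3
  generalize (‖S.ch j‖ : ℂ) = r at h1 n1 ⊢
  generalize (‖S.ch (j - 1)‖ : ℂ) = r' at h1 n2 ⊢
  have h4 : S.ch j / r = -(S.ch (j - 1) / r' * E') := by
    rw [h1]
    field_simp
  rw [h4]
  linear_combination (-(S.ch (j - 1) / r')) * h3

end Arcs

/-- direction of the entry edge of the corner `i` of a tile with orientation `r` -/
noncomputable def dirR (S : Arcs P m) (r : Bool) (i : ZMod m) : ℂ := if r then -S.un (i - 1) else S.un i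

/-- direction of the exit edge -/
noncomputable def dirL (S : Arcs P m) (r : Bool) (i : ZMod m) : ℂ := if r then S.un i else -S.un (i - 1)

theorem dir_turn (S : Arcs P m) (hm : 2 ≤ m) {b : ZMod m → ℝ} (hb : S.ChordAng b) (g : Mo) (i : ZMod m) :
    g.lin (dirL S g.rf i) = exp (((Real.pi * b i : ℝ) : ℂ) * Complex.I) * g.lin (dirR S g.rf i) := by
  have h := S.un_turn hm hb i
  obtain ⟨a, c, rf, ha⟩ := g
  cases rf
  · simp only [dirL, dirR, Mo.lin, Bool.false_eq_true, if_false]
    rw [← h]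
    ring
  · simp only [dirL, dirR, Mo.lin, if_true]
    rw [← h]
    have h2 : (starRingEnd ℂ) (exp (((Real.pi * b i : ℝ) : ℂ) * Complex.I)) =
        exp (-(((Real.pi * b i : ℝ) : ℂ) * Complex.I)) := by
      rw [← Complex.exp_conj]
      congr 1
      simp
    have h3 : exp (((Real.pi * b i : ℝ) : ℂ) * Complex.I) *
        exp (-(((Real.pi * b i : ℝ) : ℂ) * Complex.I)) = 1 := by
      rw [← Complex.exp_add, add_neg_cancel, Complex.exp_zero]
    rw [map_mul, h2]
    linear_combination (-(a * (starRingEnd ℂ) (S.un i))) * h3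

/-- exit arc of a corner -/
def exA (r : Bool) (i : ZMod m) : ZMod m := if r then i else i - 1

/-- entry arc of a corner -/
def enA (r : Bool) (i : ZMod m) : ZMod m := if r then i - 1 else i

/-- crossing the exit arc of corner `i`: the next corner is `i'` -/
theorem crossA (S : Arcs P m) (hm : 2 ≤ m) (r r' : Bool) (i i' : ZMod m)
    (h : S.Rel (exA r i) (enA r' i') (r == r')) :
    (S.glu (exA r i) (enA r' i') (r == r')).app (S.V i') = S.V i ∧
      (S.glu (exA r i) (enA r' i') (r == r')).lin (dirR S r' i') = dirL S r i := by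
  have key : ∀ j k : ZMod m, ∀ g : Mo, ∀ s : ℝ, ‖S.ch j‖ = ‖S.ch k‖ → g.lin (S.ch k) = (s : ℂ) * S.ch j →
      g.lin (S.un k) = (s : ℂ) * S.un j := by
    intro j k g s hn hg
    have h1 : S.un k = ((‖S.ch k‖⁻¹ : ℝ) : ℂ) * S.ch k := by
      unfold Arcs.un
      push_cast
      ring
    rw [h1, g.lin_mul, hg, ← hn]
    unfold Arcs.un
    push_cast
    ring
  cases r <;> cases r'
  · -- direct, direct
    simp only [exA, enA, dirR, dirL, Bool.false_eq_true, if_false, beq_self_eq_true] at h ⊢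
    have h' : S.Plus (i - 1) i' := by simpa [Arcs.Rel] using h
    obtain ⟨h1, h2, h3⟩ := S.glu_true hm h'
    refine ⟨by rw [h1, sub_add_cancel], ?_⟩
    have := key (i - 1) i' _ (-1) (S.norm_plus h') (by rw [h3]; push_cast; ring)
    rw [this]
    push_cast
    ring
  · simp only [exA, enA, dirR, dirL, Bool.false_eq_true, if_false, if_true] at h ⊢
    have h' : S.Minus (i - 1) (i' - 1) := by simpa [Arcs.Rel] using h
    have e : (false == true) = false := rfl
    rw [e]
    obtain ⟨h1, h2, h3⟩ := S.glu_false hm h'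
    rw [sub_add_cancel, sub_add_cancel] at h2
    refine ⟨h2, ?_⟩
    have := key (i - 1) (i' - 1) _ 1 (S.norm_minus h') (by rw [h3]; push_cast; ring)
    rw [Mo.lin_neg, this]
    push_cast
    ring
  · simp only [exA, enA, dirR, dirL, Bool.false_eq_true, if_false, if_true] at h ⊢
    have h' : S.Minus i i' := by simpa [Arcs.Rel] using h
    have e : (true == false) = false := rfl
    rw [e]
    obtain ⟨h1, h2, h3⟩ := S.glu_false hm h'
    refine ⟨h1, ?_⟩
    have := key i i' _ 1 (S.norm_minus h') (by rw [h3]; push_cast; ring)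
    rw [this]
    push_cast
    ring
  · simp only [exA, enA, dirR, dirL, if_true, beq_self_eq_true] at h ⊢
    have h' : S.Plus i (i' - 1) := by simpa [Arcs.Rel] using h
    obtain ⟨h1, h2, h3⟩ := S.glu_true hm h'
    rw [sub_add_cancel] at h2
    refine ⟨h2, ?_⟩
    have := key i (i' - 1) _ (-1) (S.norm_plus h') (by rw [h3]; push_cast; ring)
    rw [Mo.lin_neg, this]
    push_cast
    ring

/-! ### paths around a vertex -/

/-- orientation and corner -/
abbrev Cn (m : ℕ) := Bool × ZMod m

/-- the motion of a step -/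
noncomputable def stepM (S : Arcs P m) (c d : Cn m) : Mo :=
  S.glu (exA c.1 c.2) (enA d.1 d.2) (c.1 == d.1)

/-- the product of the motions along the path `c, l` -/
noncomputable def pathM (S : Arcs P m) : Cn m → List (Cn m) → Mo → Mo
  | _, [], g => g
  | c, d :: l, g => pathM S d l (g.mul (stepM S c d))

/-- the steps are allowed -/
def PathR (S : Arcs P m) : Cn m → List (Cn m) → Prop
  | _, [] => True
  | c, d :: l => S.Rel (exA c.1 c.2) (enA d.1 d.2) (c.1 == d.1) ∧ PathR S d l

/-- the last corner -/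
def lastC : Cn m → List (Cn m) → Cn m
  | c, [] => c
  | _, d :: l => lastC d l

/-- the sum of the angles of the corners without the last one -/
noncomputable def angC (b : ZMod m → ℝ) : Cn m → List (Cn m) → ℝ
  | _, [] => 0
  | c, d :: l => b c.2 + angC b d l

theorem path_spec (S : Arcs P m) (hm : 2 ≤ m) {b : ZMod m → ℝ} (hb : S.ChordAng b) (l : List (Cn m)) :
    ∀ (c : Cn m) (g : Mo), PathR S c l → g.rf = c.1 →
      (pathM S c l g).rf = (lastC c l).1 ∧
      (pathM S c l g).app (S.V (lastC c l).2) = g.app (S.V c.2) ∧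
      (pathM S c l g).lin (dirR S (lastC c l).1 (lastC c l).2) =
        exp (((Real.pi * angC b c l : ℝ) : ℂ) * Complex.I) * g.lin (dirR S c.1 c.2) := by
  induction l with
  | nil =>
    intro c g _ hg
    simp [pathM, lastC, angC, hg]
  | cons d l ih =>
    intro c g hR hg
    obtain ⟨h1, h2⟩ := hR
    obtain ⟨h3, h4⟩ := crossA S hm c.1 d.1 c.2 d.2 h1
    have hrf : (g.mul (stepM S c d)).rf = d.1 := by
      rw [Mo.mul_rf, hg, stepM, Arcs.glu_rf]
      cases c.1 <;> cases d.1 <;> rfl
    obtain ⟨h5, h6, h7⟩ := ih d (g.mul (stepM S c d)) h2 hrf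
    refine ⟨h5, ?_, ?_⟩
    · change (pathM S d l (g.mul (stepM S c d))).app (S.V (lastC d l).2) = _
      rw [h6, Mo.mul_app]
      unfold stepM
      rw [h3]
    · change (pathM S d l (g.mul (stepM S c d))).lin (dirR S (lastC d l).1 (lastC d l).2) = _
      rw [h7, Mo.mul_lin]
      unfold stepM
      rw [h4]
      have h8 := dir_turn S hm hb g c.2
      rw [hg] at h8
      rw [h8]
      have h9 : exp (((Real.pi * angC b c (d :: l) : ℝ) : ℂ) * Complex.I) =
          exp (((Real.pi * angC b d l : ℝ) : ℂ) * Complex.I) *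
            exp (((Real.pi * b c.2 : ℝ) : ℂ) * Complex.I) := by
        rw [← Complex.exp_add]
        congr 1
        simp only [angC]
        push_cast
        ring
      rw [h9]
      ring

/-- a closed path with angle sum `2`: the product is the identity -/
theorem path_closed (S : Arcs P m) (hm : 2 ≤ m) {b : ZMod m → ℝ} (hb : S.ChordAng b) (l : List (Cn m))
    (c : Cn m) (g : Mo) (hR : PathR S c l) (hg : g.rf = c.1) (hl : lastC c l = c)
    (hs : angC b c l = 2) : (pathM S c l g).pm = g.pm := by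
  obtain ⟨h5, h6, h7⟩ := path_spec S hm hb l c g hR hg
  rw [hl] at h5 h6 h7
  have h8 : exp (((Real.pi * angC b c l : ℝ) : ℂ) * Complex.I) = 1 := by
    rw [hs]
    have : ((Real.pi * 2 : ℝ) : ℂ) * Complex.I = 2 * Real.pi * Complex.I := by
      push_cast
      ring
    rw [this, Complex.exp_two_pi_mul_I]
  rw [h8, one_mul] at h7
  have hd : dirR S c.1 c.2 ≠ 0 := by
    unfold dirR
    split_ifs
    · exact neg_ne_zero.2 (S.un_ne hm _)
    · exact S.un_ne hm _
  exact Mo.pm_eq (h5.trans hg.symm) hd h6 h7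

end Pool.Agent.Lib_MP_fa6e45
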