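import Pool.Agent.Lib_MP_fa6e45.CT0

/-!
MP_fa6e45_co, the torus theorem: words and the elimination.
-/

namespace Pool.Agent.Lib_MP_fa6e45

section words

variable {G : Type*} [Group G] (A B : G)

theorem evL_linv (l : ℕ) : evLt A B (linv l) = (evLt A B l)⁻¹ := by
  match l with
  | 0 => rfl
  | 1 => simp [evLt, linv]
  | 2 => rfl
  | (n + 3) => simp [evLt, linv]

theorem evW_nil : evW A B [] = 1 := rfl

theorem evW_cons (l : ℕ) (w : List ℕ) : evW A B (l :: w) = evLt A B l * evW A B w := by
  simp [evW]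

theorem evW_append (v w : List ℕ) : evW A B (v ++ w) = evW A B v * evW A B w := by
  simp [evW]

theorem evW_fpush (l : ℕ) (w : List ℕ) : evW A B (fpush l w) = evLt A B l * evW A B w := by
  cases w with
  | nil => simp [fpush, evW]
  | cons a w =>
    have e : fpush l (a :: w) = if a = linv l then w else l :: a :: w := rfl
    rw [e]
    split_ifs with h
    · subst h
      rw [evW_cons, evL_linv, mul_inv_cancel_left]
    · rw [evW_cons]

theorem evW_fred (w : List ℕ) : evW A B (fred w) = evW A B w := by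
  induction w with
  | nil => rfl
  | cons l w ih =>
    have h : fred (l :: w) = fpush l (fred w) := rfl
    rw [h, evW_fpush, ih, evW_cons]

theorem evW_flatten (L : List (List ℕ)) : evW A B L.flatten = (L.map (evW A B)).prod := by
  induction L with
  | nil => rfl
  | cons w L ih => rw [List.flatten_cons, evW_append, ih, List.map_cons, List.prod_cons]

theorem comm_of_isComm {w : List ℕ} (h : isComm w = true) (h1 : evW A B w = 1) : A * B = B * A := by
  simp only [isComm, Bool.or_eq_true, beq_iff_eq] at h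
  rcases h with ((((((h | h) | h) | h) | h) | h) | h) | h <;> subst h <;>
    simp only [evW, evLt, List.map_cons, List.map_nil, List.prod_cons, List.prod_nil, mul_one] at h1
  · calc A * B = (A * (B * (A⁻¹ * B⁻¹))) * (B * A) := by group
      _ = B * A := by rw [h1, one_mul]
  · calc A * B = A * (B * (A⁻¹ * (B⁻¹ * A))) * A⁻¹ * (B * A) := by group
      _ = B * A := by rw [h1]; group
  · calc A * B = (B * A) * (A⁻¹ * (B⁻¹ * (A * B))) := by group
      _ = B * A := by rw [h1, mul_one]
  · calc A * B = B * (B⁻¹ * (A * (B * A⁻¹))) * A := by group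
      _ = B * A := by rw [h1, mul_one]
  · calc A * B = 1 * (A * B) := by rw [one_mul]
      _ = (B * (A * (B⁻¹ * A⁻¹))) * (A * B) := by rw [h1]
      _ = B * A := by group
  · calc A * B = B * 1 * B⁻¹ * (A * B) := by group
      _ = B * (A * (B⁻¹ * (A⁻¹ * B))) * B⁻¹ * (A * B) := by rw [h1]
      _ = B * A := by group
  · calc A * B = A * B * 1 := by rw [mul_one]
      _ = A * B * (B⁻¹ * (A⁻¹ * (B * A))) := by rw [h1]
      _ = B * A := by group
  · calc A * B = A * 1 * B := by rw [mul_one]
      _ = A * (A⁻¹ * (B * (A * B⁻¹))) * B := by rw [h1]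
      _ = B * A := by group

theorem prod_cancel {α : Type*} [DecidableEq α] (L : List α) (f f' : α → G) (x : α)
    (hx : L.count x = 1) (h : ∀ y ∈ L, y ≠ x → f y = f' y) (h1 : (L.map f).prod = 1)
    (h2 : (L.map f').prod = 1) : f x = f' x := by
  have hm : x ∈ L := List.count_pos_iff.1 (by omega)
  obtain ⟨L1, L2, rfl⟩ := List.append_of_mem hm
  rw [List.count_append, List.count_cons_self] at hx
  have n1 : x ∉ L1 := fun hh => by
    have := List.count_pos_iff.2 hh
    omega
  have n2 : x ∉ L2 := fun hh => by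
    have := List.count_pos_iff.2 hh
    omega
  have e1 : L1.map f = L1.map f' := List.map_congr_left fun y hy =>
    h y (by simp [hy]) fun hyx => n1 (hyx ▸ hy)
  have e2 : L2.map f = L2.map f' := List.map_congr_left fun y hy =>
    h y (by simp [hy]) fun hyx => n2 (hyx ▸ hy)
  rw [List.map_append, List.map_cons, List.prod_append, List.prod_cons] at h1 h2
  rw [e1, e2, ← h2] at h1
  exact mul_right_cancel (mul_left_cancel h1)

end words

namespace TT

variable (T : TT) (m : ℕ)

theorem prv_lt {k : ℕ} (hm : 2 ≤ m) {x : ℕ} (hx : x < k * m) : prv m x < k * m := by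
  have h1 : x / m < k := Nat.div_lt_of_lt_mul (by rwa [mul_comm] at hx)
  have h2 : (x % m + (m - 1)) % m < m := Nat.mod_lt _ (by omega)
  have h3 : (x / m + 1) * m ≤ k * m := Nat.mul_le_mul_right m h1
  unfold prv
  nlinarith

theorem nxt_lt {k : ℕ} (hm : 2 ≤ m) {x : ℕ} (hx : x < k * m) : nxt m x < k * m := by
  have h1 : x / m < k := Nat.div_lt_of_lt_mul (by rwa [mul_comm] at hx)
  have h2 : (x % m + 1) % m < m := Nat.mod_lt _ (by omega)
  have h3 : (x / m + 1) * m ≤ k * m := Nat.mul_le_mul_right m h1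
  unfold nxt
  nlinarith

theorem ex_lt (hm : 2 ≤ m) {x : ℕ} (hx : x < T.k * m) : T.ex m x < T.k * m := by
  unfold ex
  split_ifs
  · exact hx
  · exact prv_lt m hm hx

/-- facts from the first check -/
structure F1 : Prop where
  hk : 0 < T.k
  hm : 2 ≤ m
  ta_lt : ∀ x < T.k * m, T.ta x < T.k * m
  ta_ta : ∀ x < T.k * m, T.ta (T.ta x) = x
  par : ∀ t, 0 < t → t < T.k → T.par.getD t 0 < T.k * m ∧ T.par.getD t 0 / m < t ∧
    T.ta (T.par.getD t 0) / m = t
  ne : ∀ s ∈ T.stars, 0 < s.length
  lt : ∀ s ∈ T.stars, ∀ c ∈ s, c < T.k * m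
  adj : ∀ s ∈ T.stars, ∀ p ∈ s.zip (s.rotate 1), T.ta (T.ex m p.1) = T.en m p.2

theorem f1 (h : T.chk1 m = true) : T.F1 m := by
  simp only [chk1, Bool.and_eq_true, decide_eq_true_eq, List.all_eq_true, List.mem_range,
    beq_iff_eq, Bool.or_eq_true] at h
  obtain ⟨⟨⟨⟨h1, h2⟩, h3⟩, h4⟩, h5⟩ := h
  exact
    { hk := h1
      hm := h2
      ta_lt := fun x hx => (h3 x hx).1
      ta_ta := fun x hx => (h3 x hx).2
      par := fun t h0 ht => by
        rcases h4 t ht with h6 | h6
        · omega
        · exact ⟨h6.1.1, h6.1.2, h6.2⟩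
      ne := fun s hs => (h5 s hs).1.1
      lt := fun s hs => (h5 s hs).1.2
      adj := fun s hs => (h5 s hs).2 }

theorem elim (h1 : T.chk1 m = true) (h2 : T.chk2 m = true) {G : Type*} [Group G] (H : ℕ → G)
    (hinv : ∀ x < T.k * m, H (T.ta x) = (H x)⁻¹)
    (htree : ∀ t, 0 < t → t < T.k → H (T.par.getD t 0) = 1)
    (hstar : ∀ s ∈ T.stars, (s.map fun c => H (T.ex m c)).prod = 1) :
    (∀ x < T.k * m, H x = evW (H T.gA) (H T.gB) (T.wd x)) ∧
      H T.gA * H T.gB = H T.gB * H T.gA := by
  have F := T.f1 m h1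
  simp only [chk2, Bool.and_eq_true, decide_eq_true_eq, List.all_eq_true, List.mem_range,
    beq_iff_eq, Bool.or_eq_true] at h2
  obtain ⟨⟨⟨h3, h4⟩, h5, h5'⟩, h6, h7⟩ := h2
  set A := H T.gA with hA
  set B := H T.gB with hB
  have hpair : ∀ x < T.k * m, evW A B (T.wd x) * evW A B (T.wd (T.ta x)) = 1 := by
    intro x hx
    rw [← evW_append, ← evW_fred, (h3 x hx).1]
    rfl
  have hQ : ∀ x < T.k * m, H (T.ta x) = evW A B (T.wd (T.ta x)) → H x = evW A B (T.wd x) := by
    intro x hx h
    rw [hinv x hx] at h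
    have h8 := hpair x hx
    rw [← h] at h8
    exact (mul_inv_eq_one.1 h8).symm
  have hbas : ∀ x, T.bas x = true → H x = evW A B (T.wd x) := by
    intro x hx
    simp only [bas, Bool.or_eq_true, Bool.and_eq_true, beq_iff_eq, List.any_eq_true,
      List.mem_range, decide_eq_true_eq] at hx
    rcases hx with (⟨h8, h9⟩ | ⟨h8, h9⟩) | ⟨t, ht, ⟨h8, h9⟩, h10⟩
    · rw [h9, h8]
      simp [evW, evLt, hA]
    · rw [h9, h8]
      simp [evW, evLt, hB]
    · rw [h10, ← h9, htree t h8 ht]
      rfl
  have hlow : ∀ r : ℕ, (∀ y < T.k * m, T.rank.getD y 0 < r → H y = evW A B (T.wd y)) →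
      ∀ x, T.rank.getD x 0 = r → ∀ s, s ∈ T.stars → T.low m x s = true →
      H x = evW A B (T.wd x) := by
    intro r ih x hr s hs hl
    simp only [low, Bool.and_eq_true, beq_iff_eq, List.all_eq_true, Bool.or_eq_true,
      decide_eq_true_eq] at hl
    obtain ⟨⟨l1, l2⟩, l3⟩ := hl
    refine prod_cancel (s.map (T.ex m)) H (fun y => evW A B (T.wd y)) x l1 ?_ ?_ ?_
    · intro y hy hyx
      rcases l2 y hy with h8 | h8
      · exact absurd h8 hyx
      · obtain ⟨c, hc, rfl⟩ := List.mem_map.1 hy
        exact ih _ (T.ex_lt m F.hm (F.lt s hs c hc)) (hr ▸ h8)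
    · rw [List.map_map]
      exact hstar s hs
    · rw [List.map_map]
      have h8 := evW_flatten A B (s.map fun c => T.wd (T.ex m c))
      rw [← evW_fred, l3, evW_nil, List.map_map] at h8
      exact h8.symm
  have main : ∀ r : ℕ, ∀ x < T.k * m, T.rank.getD x 0 = r → H x = evW A B (T.wd x) := by
    intro r
    induction r using Nat.strong_induction_on with
    | _ r ih =>
      intro x hx hr
      have ih' : ∀ y < T.k * m, T.rank.getD y 0 < r → H y = evW A B (T.wd y) :=
        fun y hy hyr => ih _ hyr y hy rfl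
      have hmem : ∀ i : ℕ, T.stars.getD i [] ≠ [] → T.stars.getD i [] ∈ T.stars := by
        intro i hi
        by_cases hlt : i < T.stars.length
        · rw [List.getD_eq_getElem _ _ hlt]
          exact List.getElem_mem hlt
        · exact absurd (List.getD_eq_default _ _ (by omega)) hi
      rcases h4 x hx with ((h8 | h8) | h8) | h8
      · exact hbas x h8
      · exact hQ x hx (hbas _ h8)
      · obtain ⟨h9, h10⟩ := h8
        have h11 : T.stars.getD (T.just.getD x 0) [] ≠ [] := by simpa using h10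
        exact hlow r ih' x hr _ (hmem _ h11) h9
      · obtain ⟨h9, h10⟩ := h8
        have h11 : T.stars.getD (T.just.getD (T.ta x) 0) [] ≠ [] := by simpa using h10
        refine hQ x hx (hlow r ih' (T.ta x) ?_ _ (hmem _ h11) h9)
        rw [(h3 x hx).2]
        exact hr
  refine ⟨fun x hx => main _ x hx rfl, ?_⟩
  have hs : T.stars.getD T.fin [] ∈ T.stars := by
    rw [List.getD_eq_getElem _ _ h6]
    exact List.getElem_mem h6
  refine comm_of_isComm A B h7 ?_
  rw [evW_fred, evW_flatten, List.map_map]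
  rw [← hstar _ hs]
  congr 1
  refine List.map_congr_left fun c hc => ?_
  exact (main _ _ (T.ex_lt m F.hm (F.lt _ hs c hc)) rfl).symm

end TT

end Pool.Agent.Lib_MP_fa6e45
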