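import Pool.Agent.Lib_MP_fa6e45.CT1

/-!
MP_fa6e45_co, the torus theorem: areas.
-/

open Set MeasureTheory Complex
open scoped Topology

namespace Pool.Agent.Lib_MP_fa6e45

open Pool.Agent.Lib_PL (cr InSector Poly)
variable {n : ℕ} {P : Polygon n} {m : ℕ} [NeZero m] (S : Arcs P m)

/-! ## sums over the corners -/

private theorem CT3_sum_range {N : ℕ} [NeZero N] {M : Type*} [AddCommMonoid M] (f : ZMod N → M) :
    ∑ i ∈ Finset.range N, f ((i : ℕ) : ZMod N) = ∑ i : ZMod N, f i := by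
  refine Finset.sum_bij' (fun i _ => ((i : ℕ) : ZMod N)) (fun k _ => ZMod.val k) ?_ ?_ ?_ ?_ ?_
  · intro i _
    exact Finset.mem_univ _
  · intro k _
    exact Finset.mem_range.2 (ZMod.val_lt k)
  · intro i hi
    exact ZMod.val_cast_of_lt (Finset.mem_range.1 hi)
  · intro k _
    exact ZMod.natCast_zmod_val k
  · intro i _
    rfl

private def CT3_K (w : ZMod m → ℕ) (r : ℕ) : ℕ := ∑ i ∈ Finset.range r, w ((i : ℕ) : ZMod m)

private theorem CT3_κ (r : ℕ) :
    S.κ ((r : ℕ) : ZMod m) = S.κ 0 + ((CT3_K S.w r : ℕ) : ZMod n) := by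
  induction r with
  | zero => simp [CT3_K]
  | succ r ih =>
    have h1 := S.step ((r : ℕ) : ZMod m)
    have h2 : (((r + 1 : ℕ)) : ZMod m) = ((r : ℕ) : ZMod m) + 1 := by push_cast; rfl
    have h3 : CT3_K S.w (r + 1) = CT3_K S.w r + S.w ((r : ℕ) : ZMod m) := by
      unfold CT3_K
      rw [Finset.sum_range_succ]
    rw [h2, h1, ih, h3]
    push_cast
    ring

private theorem CT3_total : CT3_K S.w m = n := by
  unfold CT3_K
  rw [CT3_sum_range (fun j => S.w j)]
  exact S.total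

private theorem CT3_sum_K (w : ZMod m → ℕ) (g : ℕ → ℝ) (r : ℕ) :
    ∑ i ∈ Finset.range r, ∑ t ∈ Finset.range (w ((i : ℕ) : ZMod m)), g (CT3_K w i + t)
      = ∑ s ∈ Finset.range (CT3_K w r), g s := by
  induction r with
  | zero => simp [CT3_K]
  | succ r ih =>
    have h3 : CT3_K w (r + 1) = CT3_K w r + w ((r : ℕ) : ZMod m) := by
      unfold CT3_K
      rw [Finset.sum_range_succ]
    rw [Finset.sum_range_succ, ih, h3, Finset.sum_range_add]

private theorem CT3_sum [NeZero n] (f : ZMod n → ℝ) :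
    ∑ i : ZMod n, f i = ∑ j : ZMod m, ∑ t ∈ Finset.range (S.w j), f (S.κ j + ((t : ℕ) : ZMod n)) := by
  have h1 : ∑ i : ZMod n, f i = ∑ i : ZMod n, f (S.κ 0 + i) :=
    (Equiv.sum_comp (Equiv.addLeft (S.κ 0)) f).symm
  rw [h1, ← CT3_sum_range (fun i : ZMod n => f (S.κ 0 + i)),
    ← CT3_sum_range (fun j : ZMod m => ∑ t ∈ Finset.range (S.w j), f (S.κ j + ((t : ℕ) : ZMod n)))]
  have h2 := CT3_sum_K S.w (fun s : ℕ => f (S.κ 0 + ((s : ℕ) : ZMod n))) m
  rw [CT3_total S] at h2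
  rw [← h2]
  refine Finset.sum_congr rfl fun i _ => Finset.sum_congr rfl fun t _ => ?_
  rw [CT3_κ S i]
  push_cast
  rw [add_assoc]

/-! ## twice the area between a polyline and its chord -/

private noncomputable def CT3_D (X : ℕ → ℂ) (w : ℕ) : ℝ :=
  (∑ t ∈ Finset.range w, cr (X t) (X (t + 1))) - cr (X 0) (X w)

private theorem CT3_cr_mul (a u v : ℂ) (ha : ‖a‖ = 1) : cr (a * u) (a * v) = cr u v := by
  have h1 : a.re * a.re + a.im * a.im = 1 := by
    rw [← Complex.normSq_apply, Complex.normSq_eq_norm_sq, ha]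
    norm_num
  have h2 : cr (a * u) (a * v) = (a.re * a.re + a.im * a.im) * cr u v := by
    simp only [cr, Complex.mul_re, Complex.mul_im]
    ring
  rw [h2, h1, one_mul]

private theorem CT3_cr_motion (a b u v : ℂ) (ha : ‖a‖ = 1) :
    cr (a * u + b) (a * v + b) = cr u v + (cr b (a * v) - cr b (a * u)) := by
  have h1 : cr (a * u + b) (a * v + b) = cr (a * u) (a * v) + (cr b (a * v) - cr b (a * u)) := by
    simp only [cr, Complex.add_re, Complex.add_im]
    ring
  rw [h1, CT3_cr_mul a u v ha]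

private theorem CT3_D_motion (X Y : ℕ → ℂ) (w : ℕ) (a b : ℂ) (ha : ‖a‖ = 1)
    (h : ∀ t, t ≤ w → Y t = a * X t + b) : CT3_D Y w = CT3_D X w := by
  unfold CT3_D
  have h1 : ∑ t ∈ Finset.range w, cr (Y t) (Y (t + 1))
      = ∑ t ∈ Finset.range w, cr (X t) (X (t + 1)) + (cr b (a * X w) - cr b (a * X 0)) := by
    rw [← Finset.sum_range_sub (fun t => cr b (a * X t)) w, ← Finset.sum_add_distrib]
    refine Finset.sum_congr rfl fun t ht => ?_
    have ht' := Finset.mem_range.1 ht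
    rw [h t (by omega), h (t + 1) (by omega), CT3_cr_motion a b _ _ ha]
  rw [h1, h 0 (by omega), h w le_rfl, CT3_cr_motion a b _ _ ha]
  ring

private theorem CT3_D_reverse (X Y : ℕ → ℂ) (w : ℕ)
    (h : ∀ t s : ℕ, t + s = w → Y t = X s) : CT3_D Y w = -CT3_D X w := by
  unfold CT3_D
  have h1 : ∑ t ∈ Finset.range w, cr (Y t) (Y (t + 1))
      = -∑ t ∈ Finset.range w, cr (X t) (X (t + 1)) := by
    rw [← Finset.sum_range_reflect (fun t => cr (X t) (X (t + 1))) w, ← Finset.sum_neg_distrib]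
    refine Finset.sum_congr rfl fun t ht => ?_
    have ht' := Finset.mem_range.1 ht
    rw [h t (w - 1 - t + 1) (by omega), h (t + 1) (w - 1 - t) (by omega),
      Pool.Agent.Lib_PL.cr_swap]
  rw [h1, h 0 w (by omega), h w 0 (by omega), Pool.Agent.Lib_PL.cr_swap (X w) (X 0)]
  ring

private theorem CT3_D_conj (X Y : ℕ → ℂ) (w : ℕ)
    (h : ∀ t : ℕ, t ≤ w → Y t = (starRingEnd ℂ) (X t)) : CT3_D Y w = -CT3_D X w := by
  unfold CT3_D
  have h1 : ∑ t ∈ Finset.range w, cr (Y t) (Y (t + 1))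
      = -∑ t ∈ Finset.range w, cr (X t) (X (t + 1)) := by
    rw [← Finset.sum_neg_distrib]
    refine Finset.sum_congr rfl fun t ht => ?_
    have ht' := Finset.mem_range.1 ht
    rw [h t (by omega), h (t + 1) (by omega), Pool.Agent.Lib_PL.cr_conj]
  rw [h1, h 0 (by omega), h w le_rfl, Pool.Agent.Lib_PL.cr_conj]
  ring

/-- the polyline of arc `j` -/
private def CT3_X (j : ZMod m) (t : ℕ) : ℂ := P.vertex (S.κ j + ((t : ℕ) : ZMod n))

private theorem CT3_X_zero (j : ZMod m) : CT3_X S j 0 = S.V j := by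
  unfold CT3_X Arcs.V
  rw [Nat.cast_zero, add_zero]

private theorem CT3_X_w (j : ZMod m) : CT3_X S j (S.w j) = S.V (j + 1) := by
  unfold CT3_X Arcs.V
  rw [S.step]

private theorem CT3_plus (hm : 2 ≤ m) {j k : ZMod m} (h : S.Plus j k) :
    CT3_D (CT3_X S j) (S.w j) = -CT3_D (CT3_X S k) (S.w k) := by
  have hj := S.ch_ne hm j
  have hk := S.ch_ne hm k
  have hn := S.norm_plus h
  have hw := h.1
  obtain ⟨a, ha0⟩ : ∃ a : ℂ, a = S.ch j / (-S.ch k) := ⟨_, rfl⟩
  obtain ⟨b, hb0⟩ : ∃ b : ℂ, b = S.V j - a * S.V (k + 1) := ⟨_, rfl⟩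
  have ha : ‖a‖ = 1 := by
    rw [ha0, norm_div, norm_neg, hn, div_self (norm_ne_zero_iff.2 hk)]
  have hac : a * S.ch k = -S.ch j := by
    rw [ha0]
    field_simp
  have h1 : a * S.V (k + 1) + b = S.V j := by rw [hb0]; ring
  have h2 : a * S.V k + b = S.V (j + 1) := by
    unfold Arcs.ch at hac
    rw [hb0]
    linear_combination -hac
  have h3 := S.lift_plus hm h ha h1 h2
  have e1 : CT3_D (CT3_X S j) (S.w j)
      = CT3_D (fun t => CT3_X S k (S.w j - t)) (S.w j) := by
    refine CT3_D_motion _ _ _ a b ha fun t ht => ?_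
    exact (h3 t (S.w j - t) (by omega)).symm
  have e2 : CT3_D (fun t => CT3_X S k (S.w j - t)) (S.w j) = -CT3_D (CT3_X S k) (S.w j) := by
    refine CT3_D_reverse _ _ _ fun t s hts => ?_
    change CT3_X S k (S.w j - t) = CT3_X S k s
    have : S.w j - t = s := by omega
    rw [this]
  rw [e1, e2, hw]

private theorem CT3_minus (hm : 2 ≤ m) {j k : ZMod m} (h : S.Minus j k) :
    CT3_D (CT3_X S j) (S.w j) = -CT3_D (CT3_X S k) (S.w k) := by
  have hj := S.ch_ne hm j
  have hk := S.ch_ne hm k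
  have hn := S.norm_minus h
  have hw := h.1
  have hk' : (starRingEnd ℂ) (S.ch k) ≠ 0 := by
    rw [Ne, map_eq_zero]
    exact hk
  obtain ⟨a, ha0⟩ : ∃ a : ℂ, a = S.ch j / (starRingEnd ℂ) (S.ch k) := ⟨_, rfl⟩
  obtain ⟨b, hb0⟩ : ∃ b : ℂ, b = S.V j - a * (starRingEnd ℂ) (S.V k) := ⟨_, rfl⟩
  have ha : ‖a‖ = 1 := by
    rw [ha0, norm_div, RCLike.norm_conj, hn, div_self (norm_ne_zero_iff.2 hk)]
  have hac : a * (starRingEnd ℂ) (S.ch k) = S.ch j := by
    rw [ha0, div_mul_cancel₀ _ hk']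
  have h1 : a * (starRingEnd ℂ) (S.V k) + b = S.V j := by rw [hb0]; ring
  have h2 : a * (starRingEnd ℂ) (S.V (k + 1)) + b = S.V (j + 1) := by
    unfold Arcs.ch at hac
    rw [map_sub] at hac
    rw [hb0]
    linear_combination hac
  have h3 := S.lift_minus hm h ha h1 h2
  have e1 : CT3_D (CT3_X S j) (S.w j)
      = CT3_D (fun t => (starRingEnd ℂ) (CT3_X S k t)) (S.w j) := by
    refine CT3_D_motion _ _ _ a b ha fun t ht => ?_
    exact (h3 t ht).symm
  have e2 : CT3_D (fun t => (starRingEnd ℂ) (CT3_X S k t)) (S.w j)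
      = -CT3_D (CT3_X S k) (S.w j) :=
    CT3_D_conj _ _ _ fun t _ => rfl
  rw [e1, e2, hw]

/-- twice the area between arc `j` and its chord -/
noncomputable def Arcs.dAr (j : ZMod m) : ℝ := CT3_D (CT3_X S j) (S.w j)

theorem Arcs.dAr_rel (hm : 2 ≤ m) {j k : ZMod m} {b : Bool} (h : S.Rel j k b) :
    S.dAr j = -S.dAr k := by
  cases b with
  | true => exact CT3_plus S hm (by simpa [Arcs.Rel] using h)
  | false => exact CT3_minus S hm (by simpa [Arcs.Rel] using h)

theorem Arcs.area_dAr (hc : P.CCW) :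
    2 * (volume P.region).toReal = ∑ j, (cr (S.V j) (S.V (j + 1)) + S.dAr j) := by
  have hn : n ≠ 0 := by
    have h1 := S.total
    have h2 : 0 < ∑ j, S.w j :=
      Finset.sum_pos (fun j _ => S.w_pos j) ⟨0, Finset.mem_univ _⟩
    omega
  have : NeZero n := ⟨hn⟩
  have h1 : 2 * (volume P.region).toReal = ∑ i : ZMod n, cr (P.vertex i) (P.vertex (i + 1)) := by
    rw [P.area_eq hc]
    ring
  have h2 : ∀ j, ∑ t ∈ Finset.range (S.w j), cr (P.vertex (S.κ j + ((t : ℕ) : ZMod n)))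
      (P.vertex (S.κ j + ((t : ℕ) : ZMod n) + 1))
      = cr (S.V j) (S.V (j + 1)) + S.dAr j := by
    intro j
    unfold Arcs.dAr CT3_D
    rw [CT3_X_zero, CT3_X_w, add_sub_cancel]
    refine Finset.sum_congr rfl fun t _ => ?_
    unfold CT3_X
    push_cast
    rw [add_assoc]
  rw [h1, CT3_sum S]
  simp only [h2]

/-! ### codes -/

/-- sums over the codes -/
theorem sum_codes {M : Type*} [AddCommMonoid M] (k : ℕ) (f : ℕ → ZMod m → M) :
    ∑ x ∈ Finset.range (k * m), f (x / m) (x : ZMod m) =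
      ∑ t ∈ Finset.range k, ∑ j : ZMod m, f t j := by
  have hm0 : 0 < m := Nat.pos_of_ne_zero (NeZero.ne m)
  induction k with
  | zero => simp
  | succ k ih =>
    rw [Nat.add_mul, one_mul, Finset.sum_range_add, ih, Finset.sum_range_succ]
    congr 1
    rw [← CT3_sum_range (fun j => f k j)]
    refine Finset.sum_congr rfl fun i hi => ?_
    have hi' := Finset.mem_range.1 hi
    have h1 : (k * m + i) / m = k := by
      rw [add_comm, Nat.add_mul_div_right _ _ hm0, Nat.div_eq_of_lt hi', zero_add]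
    have h2 : ((k * m + i : ℕ) : ZMod m) = (i : ZMod m) := by
      push_cast
      rw [ZMod.natCast_self, mul_zero, zero_add]
    rw [h1, h2]

/-- sums over an involution -/
theorem sum_invol {M : Type*} [AddCommMonoid M] {N : ℕ} (ta : ℕ → ℕ) (h1 : ∀ x < N, ta x < N)
    (h2 : ∀ x < N, ta (ta x) = x) (f : ℕ → M) :
    ∑ x ∈ Finset.range N, f (ta x) = ∑ x ∈ Finset.range N, f x := by
  refine Finset.sum_bij' (fun x _ => ta x) (fun x _ => ta x) ?_ ?_ ?_ ?_ ?_
  · intro x hx
    exact Finset.mem_range.2 (h1 x (Finset.mem_range.1 hx))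
  · intro x hx
    exact Finset.mem_range.2 (h1 x (Finset.mem_range.1 hx))
  · intro x hx
    exact h2 x (Finset.mem_range.1 hx)
  · intro x hx
    exact h2 x (Finset.mem_range.1 hx)
  · intro x hx
    rfl

theorem area_codes (hc : P.CCW) (hm : 2 ≤ m) (k : ℕ) (ta : ℕ → ℕ) (h1 : ∀ x < k * m, ta x < k * m)
    (h2 : ∀ x < k * m, ta (ta x) = x)
    (h : ∀ x < k * m, ∃ b, S.Rel (x : ZMod m) (ta x : ZMod m) b) :
    2 * ((k : ℝ) * (volume P.region).toReal) =
      ∑ x ∈ Finset.range (k * m), cr (S.V (x : ZMod m)) (S.V ((x : ZMod m) + 1)) := by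
  have h3 := sum_codes (m := m) k (fun _ j => cr (S.V j) (S.V (j + 1)) + S.dAr j)
  rw [Finset.sum_const, Finset.card_range, ← S.area_dAr hc] at h3
  have h4 : ∑ x ∈ Finset.range (k * m), S.dAr (x : ZMod m) = 0 := by
    have h5 := sum_invol ta h1 h2 (fun x => S.dAr (x : ZMod m))
    have h6 : ∑ x ∈ Finset.range (k * m), S.dAr (ta x : ZMod m) =
        -∑ x ∈ Finset.range (k * m), S.dAr (x : ZMod m) := by
      rw [← Finset.sum_neg_distrib]
      refine Finset.sum_congr rfl fun x hx => ?_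
      obtain ⟨b, hb⟩ := h x (Finset.mem_range.1 hx)
      rw [S.dAr_rel hm hb, neg_neg]
    linarith
  rw [Finset.sum_add_distrib, h4, add_zero] at h3
  rw [h3, nsmul_eq_mul]
  ring

/-- start of arc `j` of a placed tile -/
noncomputable def srcM (M : Mo) (j : ZMod m) : ℂ := M.app (if M.rf then S.V (j + 1) else S.V j)

/-- end of arc `j` of a placed tile -/
noncomputable def tgtM (M : Mo) (j : ZMod m) : ℂ := M.app (if M.rf then S.V j else S.V (j + 1))

theorem tile_sum (M : Mo) (f : ℂ) :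
    ∑ j : ZMod m, cr (srcM S M j - f) (tgtM S M j - f) = ∑ j, cr (S.V j) (S.V (j + 1)) := by
  have h1 : ∀ i : ZMod m, cr (srcM S M i - f) (tgtM S M i - f) =
      cr (S.V i) (S.V (i + 1)) +
        (if M.rf then -1 else 1) * (cr (M.b - f) (M.lin (S.V (i + 1))) -
          cr (M.b - f) (M.lin (S.V i))) := by
    intro i
    have h2 := M.cr_lin (S.V i) (S.V (i + 1))
    unfold srcM tgtM Mo.app
    cases h : M.rf
    · simp only [h, Bool.false_eq_true, if_false] at h2 ⊢
      rw [← h2]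
      unfold cr
      simp only [add_re, add_im, sub_re, sub_im]
      ring
    · simp only [h, if_true] at h2 ⊢
      have h3 : cr (S.V i) (S.V (i + 1)) =
          -cr (M.lin (S.V i)) (M.lin (S.V (i + 1))) := by
        rw [h2, neg_neg]
      rw [h3]
      unfold cr
      simp only [add_re, add_im, sub_re, sub_im]
      ring
  simp only [h1]
  rw [Finset.sum_add_distrib, ← Finset.mul_sum, Finset.sum_sub_distrib]
  have h2 : ∑ i : ZMod m, cr (M.b - f) (M.lin (S.V (i + 1))) =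
      ∑ i : ZMod m, cr (M.b - f) (M.lin (S.V i)) :=
    Equiv.sum_comp (Equiv.addRight (1 : ZMod m)) fun i => cr (M.b - f) (M.lin (S.V i))
  rw [h2, sub_self, mul_zero, add_zero]

end Pool.Agent.Lib_MP_fa6e45
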