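import Pool.Agent.Lib_MP_fa6e45.CT2
import Pool.Agent.Lib_MP_fa6e45.CT3a

/-!
MP_fa6e45_co, the torus theorem: placed tiles and holonomy.
-/

open Set MeasureTheory Complex
open scoped Topology

namespace Pool.Agent.Lib_MP_fa6e45

open Pool.Agent.Lib_PL (cr InSector Poly)
variable {n : ℕ} {P : Polygon n} {m : ℕ} [NeZero m]

namespace TT

variable (T : TT) (S : Arcs P m)

/-- the gluing motion of the arc `x` -/
noncomputable def mo (x : ℕ) : Mo :=
  S.glu (x : ZMod m) (T.ta x : ZMod m) (T.rfc m x == T.rfc m (T.ta x))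

/-- the placed copies -/
noncomputable def pl (t : ℕ) : Mo :=
  if h : T.par.getD t 0 / m < t then (pl (T.par.getD t 0 / m)).mul (T.mo S (T.par.getD t 0))
  else ⟨1, 0, T.rf.getD t false, norm_one⟩
termination_by t

/-- the holonomy of the arc `x` -/
noncomputable def hol (x : ℕ) : Equiv.Perm ℂ :=
  (T.pl S (x / m)).pm * (T.mo S x).pm * ((T.pl S (T.ta x / m)).pm)⁻¹

/-- the position of a corner -/
noncomputable def pos (c : ℕ) : ℂ := (T.pl S (c / m)).app (S.V (c : ZMod m))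

theorem perm_inv (e : Equiv.Perm ℂ) (z : ℂ) : e⁻¹ (e z) = z := e.symm_apply_apply z

theorem div_lt {k x : ℕ} (hx : x < k * m) : x / m < k :=
  Nat.div_lt_of_lt_mul (by rwa [mul_comm] at hx)

theorem prv_div (hm : 2 ≤ m) (x : ℕ) : prv m x / m = x / m := by
  unfold prv
  have h : (x % m + (m - 1)) % m < m := Nat.mod_lt _ (by omega)
  rw [add_comm, Nat.add_mul_div_right _ _ (by omega), Nat.div_eq_of_lt h, zero_add]

theorem nxt_div (hm : 2 ≤ m) (x : ℕ) : nxt m x / m = x / m := by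
  unfold nxt
  have h : (x % m + 1) % m < m := Nat.mod_lt _ (by omega)
  rw [add_comm, Nat.add_mul_div_right _ _ (by omega), Nat.div_eq_of_lt h, zero_add]

theorem prv_cast (hm : 2 ≤ m) (x : ℕ) : ((prv m x : ℕ) : ZMod m) = (x : ZMod m) - 1 := by
  unfold prv
  push_cast
  rw [ZMod.natCast_self, mul_zero, zero_add, ZMod.natCast_mod]
  push_cast
  rw [ZMod.natCast_mod, Nat.cast_sub (by omega), ZMod.natCast_self]
  push_cast
  ring

theorem nxt_cast (x : ℕ) : ((nxt m x : ℕ) : ZMod m) = (x : ZMod m) + 1 := by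
  unfold nxt
  push_cast
  rw [ZMod.natCast_self, mul_zero, zero_add, ZMod.natCast_mod]
  push_cast
  rw [ZMod.natCast_mod]

theorem ex_div (hm : 2 ≤ m) (x : ℕ) : T.ex m x / m = x / m := by
  unfold ex
  split_ifs
  · rfl
  · exact prv_div hm x

theorem en_div (hm : 2 ≤ m) (x : ℕ) : T.en m x / m = x / m := by
  unfold en
  split_ifs
  · exact prv_div hm x
  · rfl

theorem ex_cast (hm : 2 ≤ m) (x : ℕ) : ((T.ex m x : ℕ) : ZMod m) = exA (T.rfc m x) (x : ZMod m) := by
  unfold ex exA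
  cases T.rfc m x
  · simpa using prv_cast hm x
  · simp

theorem en_cast (hm : 2 ≤ m) (x : ℕ) : ((T.en m x : ℕ) : ZMod m) = enA (T.rfc m x) (x : ZMod m) := by
  unfold en enA
  cases T.rfc m x
  · simp
  · simpa using prv_cast hm x

theorem rfc_eq {x y : ℕ} (h : x / m = y / m) : T.rfc m x = T.rfc m y := by
  unfold rfc
  rw [h]

variable {T S}

theorem pl_rf (F : T.F1 m) (t : ℕ) (ht : t < T.k) : (T.pl S t).rf = T.rf.getD t false := by
  induction t using Nat.strong_induction_on with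
  | _ t ih =>
    rw [pl]
    split_ifs with h
    · have h0 : 0 < t := lt_of_le_of_lt (Nat.zero_le _) h
      obtain ⟨h1, h2, h3⟩ := F.par t h0 ht
      have h4 := ih _ h (h.trans ht)
      rw [Mo.mul_rf, h4, mo, Arcs.glu_rf]
      have h5 : T.rfc m (T.par.getD t 0) = T.rf.getD (T.par.getD t 0 / m) false := rfl
      have h6 : T.rfc m (T.ta (T.par.getD t 0)) = T.rf.getD t false := by
        unfold rfc
        rw [h3]
      rw [h5, h6]
      cases T.rf.getD (T.par.getD t 0 / m) false <;> cases T.rf.getD t false <;> rfl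
    · rfl

theorem pl_rfc (F : T.F1 m) {x : ℕ} (hx : x < T.k * m) : (T.pl S (x / m)).rf = T.rfc m x :=
  pl_rf F _ (div_lt hx)

theorem hol_tree (F : T.F1 m) (t : ℕ) (h0 : 0 < t) (ht : t < T.k) :
    T.hol S (T.par.getD t 0) = 1 := by
  obtain ⟨h1, h2, h3⟩ := F.par t h0 ht
  unfold hol
  rw [h3]
  have h4 : T.pl S t = (T.pl S (T.par.getD t 0 / m)).mul (T.mo S (T.par.getD t 0)) := by
    rw [pl, dif_pos h2]
  rw [h4, Mo.pm_mul, mul_inv_cancel]

/-- the motion which is the identity -/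
noncomputable def idM : Mo := ⟨1, 0, false, norm_one⟩

theorem idM_pm : idM.pm = 1 := by
  ext1 z
  change idM.app z = z
  simp [idM, Mo.app, Mo.lin]

theorem mo_inv (F : T.F1 m) (hrel : ∀ x < T.k * m, S.Rel (x : ZMod m) (T.ta x : ZMod m)
      (T.rfc m x == T.rfc m (T.ta x))) {x : ℕ} (hx : x < T.k * m) :
    (T.mo S (T.ta x)).pm = ((T.mo S x).pm)⁻¹ := by
  have h1 := hrel x hx
  have h2 := hrel _ (F.ta_lt x hx)
  rw [F.ta_ta x hx] at h2
  have e : (T.rfc m (T.ta x) == T.rfc m x) = (T.rfc m x == T.rfc m (T.ta x)) := by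
    cases T.rfc m x <;> cases T.rfc m (T.ta x) <;> rfl
  rw [e] at h2
  unfold mo
  rw [F.ta_ta x hx, e]
  rw [eq_inv_iff_mul_eq_one, ← Mo.pm_mul, ← idM_pm]
  have hm := F.hm
  cases hb : (T.rfc m x == T.rfc m (T.ta x))
  · rw [hb] at h1 h2
    obtain ⟨a1, a2, a3⟩ := S.glu_false hm (j := (x : ZMod m)) (k := (T.ta x : ZMod m))
      (by simpa [Arcs.Rel] using h1)
    obtain ⟨b1, b2, b3⟩ := S.glu_false hm (j := (T.ta x : ZMod m)) (k := (x : ZMod m))
      (by simpa [Arcs.Rel] using h2)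
    refine Mo.pm_eq (p := S.V (T.ta x : ZMod m)) (d := S.ch (T.ta x : ZMod m)) ?_
      (S.ch_ne hm _) ?_ ?_
    · rw [Mo.mul_rf, Arcs.glu_rf, Arcs.glu_rf]
      rfl
    · rw [Mo.mul_app, a1, b1]
      simp [idM, Mo.app, Mo.lin]
    · rw [Mo.mul_lin, a3, b3]
      simp [idM, Mo.lin]
  · rw [hb] at h1 h2
    obtain ⟨a1, a2, a3⟩ := S.glu_true hm (j := (x : ZMod m)) (k := (T.ta x : ZMod m))
      (by simpa [Arcs.Rel] using h1)
    obtain ⟨b1, b2, b3⟩ := S.glu_true hm (j := (T.ta x : ZMod m)) (k := (x : ZMod m))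
      (by simpa [Arcs.Rel] using h2)
    refine Mo.pm_eq (p := S.V (T.ta x : ZMod m)) (d := S.ch (T.ta x : ZMod m)) ?_
      (S.ch_ne hm _) ?_ ?_
    · rw [Mo.mul_rf, Arcs.glu_rf, Arcs.glu_rf]
      rfl
    · rw [Mo.mul_app, a1, b2]
      simp [idM, Mo.app, Mo.lin]
    · rw [Mo.mul_lin, a3, Mo.lin_neg, b3, neg_neg]
      simp [idM, Mo.lin]

theorem hol_inv (F : T.F1 m) (hrel : ∀ x < T.k * m, S.Rel (x : ZMod m) (T.ta x : ZMod m)
      (T.rfc m x == T.rfc m (T.ta x))) (x : ℕ) (hx : x < T.k * m) :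
    T.hol S (T.ta x) = (T.hol S x)⁻¹ := by
  unfold hol
  rw [F.ta_ta x hx, mo_inv F hrel hx]
  group

/-! ### the stars -/

/-- orientation and corner of a code -/
def cn (T : TT) (m : ℕ) (c : ℕ) : Cn m := (T.rfc m c, (c : ZMod m))

theorem step_eq (F : T.F1 m) {c d : ℕ} (h : T.ta (T.ex m c) = T.en m d) :
    stepM S (T.cn m c) (T.cn m d) = T.mo S (T.ex m c) := by
  unfold stepM mo cn
  rw [h, ex_cast T F.hm, en_cast T F.hm, rfc_eq T (ex_div T F.hm c), rfc_eq T (en_div T F.hm d)]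

theorem rel_step (F : T.F1 m) (hrel : ∀ x < T.k * m, S.Rel (x : ZMod m) (T.ta x : ZMod m)
      (T.rfc m x == T.rfc m (T.ta x))) {c d : ℕ} (hc : c < T.k * m)
    (h : T.ta (T.ex m c) = T.en m d) :
    S.Rel (exA (T.cn m c).1 (T.cn m c).2) (enA (T.cn m d).1 (T.cn m d).2)
      ((T.cn m c).1 == (T.cn m d).1) := by
  have h1 := hrel _ (T.ex_lt m F.hm hc)
  rw [h, ex_cast T F.hm, en_cast T F.hm, rfc_eq T (ex_div T F.hm c),
    rfc_eq T (en_div T F.hm d)] at h1
  exact h1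

theorem walk (F : T.F1 m) (hrel : ∀ x < T.k * m, S.Rel (x : ZMod m) (T.ta x : ZMod m)
      (T.rfc m x == T.rfc m (T.ta x))) (b : ZMod m → ℝ) (l : List ℕ) :
    ∀ (c e : ℕ), (∀ p ∈ (c :: l).zip (l ++ [e]), T.ta (T.ex m p.1) = T.en m p.2) →
      (∀ d ∈ c :: l, d < T.k * m) →
      PathR S (T.cn m c) ((l ++ [e]).map (T.cn m)) ∧
      lastC (T.cn m c) ((l ++ [e]).map (T.cn m)) = T.cn m e ∧
      angC b (T.cn m c) ((l ++ [e]).map (T.cn m)) = ((c :: l).map fun d => b ((d : ℕ) : ZMod m)).sum ∧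
      ∀ G : Mo, (pathM S (T.cn m c) ((l ++ [e]).map (T.cn m)) G).pm =
        G.pm * ((T.pl S (c / m)).pm)⁻¹ * ((c :: l).map fun d => T.hol S (T.ex m d)).prod *
          (T.pl S (e / m)).pm := by
  induction l with
  | nil =>
    intro c e h hlt
    have h1 : T.ta (T.ex m c) = T.en m e := h (c, e) (by simp)
    have hc : c < T.k * m := hlt c (by simp)
    refine ⟨⟨rel_step F hrel hc h1, trivial⟩, rfl, by simp [angC, cn], fun G => ?_⟩
    simp only [List.nil_append, List.map_cons, List.map_nil, pathM, List.prod_cons, List.prod_nil,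
      mul_one]
    rw [Mo.pm_mul, step_eq F h1]
    unfold hol
    rw [ex_div T F.hm, h1, en_div T F.hm]
    group
  | cons d l ih =>
    intro c e h hlt
    have h1 : T.ta (T.ex m c) = T.en m d := h (c, d) (by simp)
    have hc : c < T.k * m := hlt c (by simp)
    obtain ⟨i1, i2, i3, i4⟩ := ih d e (fun p hp => h p (by
      simp only [List.cons_append, List.zip_cons_cons, List.mem_cons]
      exact Or.inr hp)) (fun x hx => hlt x (List.mem_cons_of_mem _ hx))
    refine ⟨⟨rel_step F hrel hc h1, i1⟩, i2, ?_, fun G => ?_⟩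
    · simp only [List.cons_append, List.map_cons, List.sum_cons, angC]
      rw [i3]
      simp [cn]
    · simp only [List.cons_append, List.map_cons, pathM]
      rw [i4]
      rw [Mo.pm_mul, step_eq F h1]
      simp only [List.map_cons, List.prod_cons]
      have h2 : T.hol S (T.ex m c) = (T.pl S (c / m)).pm * (T.mo S (T.ex m c)).pm *
          ((T.pl S (d / m)).pm)⁻¹ := by
        unfold hol
        rw [ex_div T F.hm, h1, en_div T F.hm]
      rw [h2]
      group

theorem hol_star (F : T.F1 m) (hrel : ∀ x < T.k * m, S.Rel (x : ZMod m) (T.ta x : ZMod m)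
      (T.rfc m x == T.rfc m (T.ta x))) {b : ZMod m → ℝ} (hb : S.ChordAng b)
    (hsum : ∀ s ∈ T.stars, (s.map fun c => b ((c : ℕ) : ZMod m)).sum = 2)
    (s : List ℕ) (hs : s ∈ T.stars) : (s.map fun c => T.hol S (T.ex m c)).prod = 1 := by
  have h1 := F.ne s hs
  have h2 := F.lt s hs
  have h3 := F.adj s hs
  have h4 := hsum s hs
  match s, h1 with
  | c :: l, _ =>
    have h5 : (c :: l).rotate 1 = l ++ [c] := by simp
    rw [h5] at h3
    obtain ⟨i1, i2, i3, i4⟩ := walk F hrel b l c c h3 h2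
    have hc : c < T.k * m := h2 c (by simp)
    have h6 := path_closed S F.hm hb _ (T.cn m c) (T.pl S (c / m)) i1
      (by rw [pl_rfc F hc]; rfl) i2 (by rw [i3]; exact h4)
    rw [i4, mul_inv_cancel, one_mul] at h6
    exact mul_eq_right.1 h6

/-- crossing an exit arc: positions -/
theorem pos_step (F : T.F1 m) (hrel : ∀ x < T.k * m, S.Rel (x : ZMod m) (T.ta x : ZMod m)
      (T.rfc m x == T.rfc m (T.ta x))) {c d : ℕ} (hc : c < T.k * m)
    (h : T.ta (T.ex m c) = T.en m d) : T.hol S (T.ex m c) (T.pos S d) = T.pos S c := by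
  have h1 := rel_step F hrel hc h
  obtain ⟨h2, h3⟩ := crossA S F.hm (T.cn m c).1 (T.cn m d).1 (T.cn m c).2 (T.cn m d).2 h1
  have h4 : T.hol S (T.ex m c) = (T.pl S (c / m)).pm * (T.mo S (T.ex m c)).pm *
      ((T.pl S (d / m)).pm)⁻¹ := by
    unfold hol
    rw [ex_div T F.hm, h, en_div T F.hm]
  rw [h4]
  change (T.pl S (c / m)).pm ((T.mo S (T.ex m c)).pm (((T.pl S (d / m)).pm)⁻¹
    ((T.pl S (d / m)).pm (S.V (d : ZMod m))))) = _
  rw [perm_inv, ← step_eq F h]
  change (T.pl S (c / m)).app ((stepM S (T.cn m c) (T.cn m d)).app (S.V (T.cn m d).2)) = _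
  unfold stepM
  rw [h2]
  rfl

/-- the ends of the arcs -/
theorem pos_arc (F : T.F1 m) (hrel : ∀ x < T.k * m, S.Rel (x : ZMod m) (T.ta x : ZMod m)
      (T.rfc m x == T.rfc m (T.ta x))) {x : ℕ} (hx : x < T.k * m) :
    T.hol S x (srcM S (T.pl S (T.ta x / m)) (T.ta x : ZMod m)) =
        tgtM S (T.pl S (x / m)) (x : ZMod m) ∧
      T.hol S x (tgtM S (T.pl S (T.ta x / m)) (T.ta x : ZMod m)) =
        srcM S (T.pl S (x / m)) (x : ZMod m) := by
  have h1 := hrel x hx
  have hx' := F.ta_lt x hx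
  have key : ∀ z, T.hol S x ((T.pl S (T.ta x / m)).app z) =
      (T.pl S (x / m)).app ((T.mo S x).app z) := by
    intro z
    unfold hol
    change (T.pl S (x / m)).pm ((T.mo S x).pm (((T.pl S (T.ta x / m)).pm)⁻¹
      ((T.pl S (T.ta x / m)).pm z))) = _
    rw [perm_inv]
    rfl
  unfold srcM tgtM
  rw [key, key, pl_rfc F hx, pl_rfc F hx']
  unfold mo
  have hm := F.hm
  cases ha : T.rfc m x <;> cases hb : T.rfc m (T.ta x) <;> rw [ha, hb] at h1
  · obtain ⟨a1, a2, a3⟩ := S.glu_true hm (j := (x : ZMod m)) (k := (T.ta x : ZMod m))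
      (by simpa [Arcs.Rel] using h1)
    simp only [beq_self_eq_true, Bool.false_eq_true, if_false]
    rw [a1, a2]
    exact ⟨rfl, rfl⟩
  · obtain ⟨a1, a2, a3⟩ := S.glu_false hm (j := (x : ZMod m)) (k := (T.ta x : ZMod m))
      (by simpa [Arcs.Rel] using h1)
    have e : (false == true) = false := rfl
    simp only [e, Bool.false_eq_true, if_false, if_true]
    rw [a1, a2]
    exact ⟨rfl, rfl⟩
  · obtain ⟨a1, a2, a3⟩ := S.glu_false hm (j := (x : ZMod m)) (k := (T.ta x : ZMod m))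
      (by simpa [Arcs.Rel] using h1)
    have e : (true == false) = false := rfl
    simp only [e, Bool.false_eq_true, if_false, if_true]
    rw [a1, a2]
    exact ⟨rfl, rfl⟩
  · obtain ⟨a1, a2, a3⟩ := S.glu_true hm (j := (x : ZMod m)) (k := (T.ta x : ZMod m))
      (by simpa [Arcs.Rel] using h1)
    simp only [beq_self_eq_true, if_true]
    rw [a1, a2]
    exact ⟨rfl, rfl⟩

/-- source and target are the positions of the corners -/
theorem src_pos (F : T.F1 m) {x : ℕ} (hx : x < T.k * m) :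
    srcM S (T.pl S (x / m)) (x : ZMod m) = T.pos S (T.cs m x) ∧
      tgtM S (T.pl S (x / m)) (x : ZMod m) = T.pos S (T.ct m x) := by
  have hm := F.hm
  unfold srcM tgtM pos cs ct
  rw [pl_rfc F hx]
  cases ha : T.rfc m x
  · simp [nxt_div hm, nxt_cast]
  · simp [nxt_div hm, nxt_cast]

/-- the holonomies are direct motions -/
theorem hol_dir (F : T.F1 m) {x : ℕ} (hx : x < T.k * m) :
    ∃ a b : ℂ, ‖a‖ = 1 ∧ ∀ z, T.hol S x z = a * z + b := by
  have hx' := F.ta_lt x hx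
  have h1 : ((T.pl S (x / m)).mul (T.mo S x)).rf = (T.pl S (T.ta x / m)).rf := by
    rw [Mo.mul_rf, pl_rfc F hx, pl_rfc F hx', mo, Arcs.glu_rf]
    cases T.rfc m x <;> cases T.rfc m (T.ta x) <;> rfl
  have h2 : T.hol S x = ((T.pl S (x / m)).mul (T.mo S x)).pm * ((T.pl S (T.ta x / m)).pm)⁻¹ := by
    unfold hol
    rw [Mo.pm_mul]
  rw [h2]
  generalize (T.pl S (x / m)).mul (T.mo S x) = M1 at h1
  generalize T.pl S (T.ta x / m) = M2 at h1
  have hM : M2.a ≠ 0 := by
    intro h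
    have := M2.ha
    rw [h, norm_zero] at this
    exact zero_ne_one this
  refine ⟨M1.a / M2.a, M1.b - M1.a / M2.a * M2.b, by rw [norm_div, M1.ha, M2.ha, div_one],
    fun z => ?_⟩
  obtain ⟨z', rfl⟩ : ∃ z', z = M2.pm z' := ⟨(M2.pm)⁻¹ z, by simp⟩
  change M1.pm ((M2.pm)⁻¹ (M2.pm z')) = _
  rw [perm_inv]
  change M1.app z' = M1.a / M2.a * M2.app z' + _
  unfold Mo.app Mo.lin
  rw [h1]
  split_ifs <;> field_simp <;> ring

end TT

end Pool.Agent.Lib_MP_fa6e45
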