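import Pool.Agent.Lib_MP_fa6e45.CS0

/-!
MP_fa6e45_co, stage 6 (at most six arcs, corners of degree two between the arcs are allowed): definitions.

`CombU` is `CombG` with `2 ≤` degree. `WU` is `WG` for stars with at least two corners.
-/

open Set MeasureTheory Complex
open scoped Topology

namespace Pool.Agent.Lib_MP_fa6e45

/-- combinatorial data of a tiling in terms of `m` arcs: `G j k b` says that arcs `j` and `k` may be glued
(`b = true`: same orientation of the two tiles); the stars have at least two corners -/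
structure CombU (m : ℕ) [NeZero m] (a : ZMod m → ℝ) (G : ZMod m → ZMod m → Bool → Prop)
    (ι : Type) where
  three_le : 3 ≤ m
  a_pos : ∀ i, 0 < a i
  a_lt : ∀ i, a i < 2 * Real.pi
  a_ne : ∀ i, a i ≠ Real.pi
  a_sum : ∑ i, a i = ((m : ℝ) - 2) * Real.pi
  rf : ι → Bool
  nx : Equiv.Perm (ι × ZMod m)
  deg2 : ∀ c, 2 ≤ Function.minimalPeriod nx c
  sum : ∀ c, ∑ k ∈ Finset.range (Function.minimalPeriod nx c), a ((nx^[k] c).2) = 2 * Real.pi
  glue : ∀ c, G (exS rf c) (enS rf (nx c)) (rf c.1 == rf (nx c).1)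
  flip : ∀ c, nx (fwd rf (nx c)) = bwd rf c
  avg : ∀ f : ι × ZMod m → ℝ, (∃ B : ℝ, ∀ c, |f c| ≤ B) →
    (∀ c, ∑ k ∈ Finset.range (Function.minimalPeriod nx c), f (nx^[k] c) ≤ 0) →
    ∀ δ > 0, (∀ t, δ ≤ ∑ i, f (t, i)) → False

/-- what is known about a polygon with arcs `S` which satisfy the relations given by `w`, and chord angles `b` -/
structure SitU {n m : ℕ} [NeZero m] (w : List ℕ) (P : Polygon n) (S : Arcs P m)
    (b : ZMod m → ℝ) : Prop where
  ccw : P.CCW
  rel : ∀ j k c, S.Rel j k c ↔ relT w j k c = true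
  chord : S.ChordAng b
  off : ∃ σ ε : ZMod m → ℝ, (∀ j k, S.Plus j k → σ j = ε k ∧ ε j = σ k) ∧
    (∀ j k, S.Minus j k → σ j = -σ k ∧ ε j = -ε k) ∧
    ∀ j, b j = P.ang (S.κ j) / Real.pi + σ j - ε (j - 1)
  comb : ∃ ι : Type, Nonempty (CombU m (fun j => P.ang (S.κ j)) S.Rel ι)

/-- the node with the equations `eqs` (valid for the angles and for the chord angles) is solved -/
def NodeU (m : ℕ) [NeZero m] (w : List ℕ) (eqs : List Eqn) : Prop :=
  ∀ {n : ℕ} (P : Polygon n) (S : Arcs P m) (b : ZMod m → ℝ), SitU w P S b →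
    (∀ E ∈ eqs, Eqn.Holds E (fun j => P.ang (S.κ j) / Real.pi)) → (∀ E ∈ eqs, Eqn.Holds E b) →
      HasPeriodic P

/-- the principle for walks with good stars (see `WG`), stars with at least two corners -/
def WU {m : ℕ} [NeZero m] (a b : ZMod m → ℝ) (G : ZMod m → ZMod m → Bool → Prop) : Prop :=
  ∀ GS : List (List ℕ), noTile m GS = true →
    ∀ (v : ZMod m → ℤ) (A : ZMod m × Bool → ZMod m × Bool → ℤ), (∀ x y, A y x = -A x y) →
      ∀ L ρ : ℤ, 0 ≤ ρ → 2 * ∑ i, v i + 2 * ((m : ℤ) - 1) * ρ < ((m : ℤ) - 2) * L →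
        ∃ (c : ZMod m × Bool) (l : List (ZMod m × Bool)), (∀ x ∈ l, code c ≤ code x) ∧
          Pth (StepG G) c l c ∧ 1 ≤ l.length ∧ a c.1 + (l.map fun x => a x.1).sum = 2 ∧
          b c.1 + (l.map fun x => b x.1).sum = 2 ∧ pcost (stepCost v A) c l c < L ∧
          ((c :: l).map code ∈ GS →
            pcost (stepCost v A) c l c + ρ * ((l.length : ℤ) + 1) < L)

/-- a closed path is accepted: one corner, numbers of corners in the list, or a good star with enough cost -/
noncomputable def accU (GSn : List ℕ) (ρ L : ℕ) (cvN : List ℕ) (cnt wd len t : ℕ) : Bool :=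
  bif Nat.ble len 1 then true else
    bif anyF (Nat.beq cnt) cvN then true else
      bif anyF (Nat.beq wd) GSn then Nat.ble L (Nat.add t (Nat.mul ρ len)) else Nat.ble L t

/-- the linear programming node is correct -/
noncomputable def lpU (m : ℕ) (w v φ : List ℕ) (V0 : ℕ) (Am : List (List ℕ)) (L fuel : ℕ)
    (rows : List (List (ℕ × ℕ))) (GS : List (List ℕ)) (ρ : ℕ) (cvs : List (List ℕ)) : Bool :=
  Nat.blt (Nat.add (Nat.mul 2 v.sum) (Nat.mul (Nat.mul 2 (Nat.sub m 1)) ρ))
    (Nat.add (Nat.mul (Nat.sub m 2) L) (Nat.mul (Nat.mul 2 m) V0)) &&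
  noTile m GS && (allF (fun u => allF (fun x => Nat.ble x 15) u) GS) &&
  Nat.ble fuel 15 && Nat.beq v.length m &&
  (allF (fun r => srtF r 0) rows) &&
  (allF (fun cv => bif Nat.beq cv.length m then allF (fun x => Nat.ble x 15) cv else false) cvs) &&
  (allF (fun c => allF (stepR m w v φ V0 Am L rows c) (List.range (2 * m))) (List.range (2 * m))) &&
  allF (fun c => dfsR rows L (accU (GS.map wdF) ρ L (cvs.map encF)) c fuel c 0
    (Nat.pow 16 (Nat.div c 2)) (Nat.add 16 c) 1) (List.range (2 * m))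

/-- check of node `i` -/
noncomputable def chkU (m : ℕ) [NeZero m] (w : List ℕ) (tt : List TorT) (sy : List (Bool × ℕ × List ℕ))
    (D : ℕ → List Eqn) (i : ℕ) (N : TN) : Bool :=
  match N with
    | TN.leafM k nu cs inn => nuOK m nu && (inn.all (innB m (D i ++ eqs0 m []))) &&
        ((schM nu.length k).glue.all fun g => glueT m w inn nu g) &&
        derMB m (D i ++ eqs0 m []) nu (schM nu.length k).eqs cs
    | TN.tor id r s cs =>
        match tt[id]? with
          | none => false
          | some T => decide (s < m) && (T.glue.all fun g => decide (g.1 < m) && decide (g.2.1 < m) &&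
              okL (nthF 0 w (siN m r s g.1)) (nthF 0 w (siN m r s g.2.1)) g.2.2) &&
            derG m (D i ++ eqs0 m []) (sgN m r s) T.eqs cs
    | TN.geo d f lin cs fuel => pluB m w &&
        geoB (m := m) (fun _ => 0) (D i ++ eqs0 m []) d f lin cs fuel
    | TN.lp v φ V0 Am L fuel rows GS ρ cvs ch =>
        lpU m w v φ V0 Am L fuel rows GS ρ cvs && chF m sy D i (D i ++ eqs0 m []) cvs ch

/-- check of a certificate -/
noncomputable def chkD (m : ℕ) [NeZero m] (tt : List TorT) (C : CertT) : Bool :=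
  (C.w == decW m (encW C.w)) && C.sy.all (symT m C.w) && decide (0 < C.Ns.length) &&
    (blkF [] C.D (C.Ns.length - 1)).isEmpty && allI (chkU m C.w tt C.sy (blkF [] C.D)) C.Ns 0

end Pool.Agent.Lib_MP_fa6e45
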