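import Pool.Agent.Lib_MP_fa6e45.CU0
import Pool.Agent.Lib_MP_fa6e45.Y4

/-!
MP_fa6e45_co, stage 6: the reduction. `F` is a set of corners such that every star has all or none of its corners in
`F`, and the stars without corners in `F` have degree two. Then the tiling is described by the arcs between
the corners of `F`. Adapted from Y1, Y3, Y4.
-/

open Set MeasureTheory Complex
open scoped Topology

namespace Pool.Agent.Lib_MP_fa6e45

open Pool.Agent.Lib_PL (cr InSector Poly)

section sums

variable {n : ℕ} [NeZero n] {a l : ZMod n → ℝ} {ι : Type}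

private theorem CU1x_per (K : Comb n a l ι) (c : ι × ZMod n) : c ∈ Function.periodicPts K.nx :=
  Function.minimalPeriod_pos_iff_mem_periodicPts.1 (K.deg_pos c)

private theorem CU1x_deg_iter (K : Comb n a l ι) (c : ι × ZMod n) (k : ℕ) :
    K.deg (K.nx^[k] c) = K.deg c :=
  Function.minimalPeriod_apply_iterate (CU1x_per K c) k

private theorem CU1x_deg_nx (K : Comb n a l ι) (c : ι × ZMod n) : K.deg (K.nx c) = K.deg c :=
  CU1x_deg_iter K c 1

private theorem CU1x_nx_nx (K : Comb n a l ι) (c : ι × ZMod n) (hc : K.deg c = 2) :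
    K.nx (K.nx c) = c := by
  have h1 := Function.isPeriodicPt_minimalPeriod K.nx c
  change K.nx^[K.deg c] c = c at h1
  rw [hc] at h1
  exact h1

/-- functions of the index with all star sums `0` have sum `0` -/
private theorem CU1x_avg (K : CombA n a l ι) (f : ZMod n → ℝ)
    (h : ∀ c, ∑ k ∈ Finset.range (K.toComb.deg c), f ((K.nx^[k] c).2) = 0) : ∑ i, f i = 0 := by
  have hb : ∀ i, |f i| ≤ ∑ j, |f j| := fun i =>
    Finset.single_le_sum (f := fun j => |f j|) (fun j _ => abs_nonneg (f j)) (Finset.mem_univ i)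
  rcases lt_trichotomy (∑ i, f i) 0 with hlt | heq | hgt
  · exfalso
    refine K.avg (fun c => -f c.2) ⟨∑ j, |f j|, fun c => ?_⟩ (fun c => ?_) (-∑ i, f i)
      (by linarith) (fun t => ?_)
    · rw [abs_neg]
      exact hb c.2
    · have h1 := h c
      change ∑ k ∈ Finset.range (K.toComb.deg c), -f ((K.nx^[k] c).2) ≤ 0
      rw [Finset.sum_neg_distrib, h1, neg_zero]
    · change -∑ i, f i ≤ ∑ i, -f i
      rw [Finset.sum_neg_distrib]
  · exact heq
  · exfalso
    exact K.avg (fun c => f c.2) ⟨_, fun c => hb c.2⟩ (fun c => (h c).le) (∑ i, f i) hgt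
      (fun t => le_refl _)

private theorem CU1x_two (K : CombA n a l ι) (f : ZMod n → ℝ) (c : ι × ZMod n)
    (hc : K.toComb.deg c = 2) :
    ∑ k ∈ Finset.range (K.toComb.deg c), f ((K.nx^[k] c).2) = f c.2 + f (K.nx c).2 := by
  rw [hc, Finset.sum_range_succ, Finset.sum_range_one]
  rfl

private theorem CU1x_ang (K : CombA n a l ι) (c : ι × ZMod n) (hc : K.toComb.deg c = 2) :
    a c.2 + a (K.nx c).2 = 2 * Real.pi :=
  (CU1x_two K a c hc).symm.trans (K.sum c)

/-- the corners not in `F` are in stars with two corners, both not in `F` -/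
theorem CombA.pass_sumU (K : CombA n a l ι) (F : Finset (ZMod n))
    (hM : ∀ x, (K.nx x).2 ∈ F ↔ x.2 ∈ F) (h0 : ∀ x, x.2 ∉ F → K.toComb.deg x = 2) :
    3 ≤ F.card ∧ ∑ i ∈ F, a i = ((F.card : ℝ) - 2) * Real.pi := by
  classical
  have hpi := Real.pi_pos
  have h1 := CU1x_avg K (fun i => if i ∈ F then 0 else 1 - a i / Real.pi) (fun c => by
    by_cases hcF : c.2 ∉ F
    · have hc := h0 c hcF
      refine (CU1x_two K (fun i => if i ∈ F then 0 else 1 - a i / Real.pi) c hc).trans ?_
      have m1 : c.2 ∉ F := hcF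
      have m2 : (K.nx c).2 ∉ F := fun h => hcF ((hM c).1 h)
      simp only [if_neg m1, if_neg m2]
      have h2 := CU1x_ang K c hc
      have h3 : a c.2 / Real.pi + a (K.nx c).2 / Real.pi = 2 := by
        rw [← add_div, h2]
        field_simp
      linarith
    · refine Finset.sum_eq_zero fun r _ => ?_
      have hr : (K.nx^[r] c).2 ∈ F := by
        rw [not_not] at hcF
        induction r with
        | zero => exact hcF
        | succ r ih =>
          rw [Function.iterate_succ_apply', hM]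
          exact ih (Finset.mem_range.2 (by
            have := Finset.mem_range.1 ‹_›
            omega))
      rw [if_pos hr])
  have h2 : ∀ i : ZMod n, (if i ∈ F then (0 : ℝ) else 1 - a i / Real.pi) =
      (1 - a i / Real.pi) - if i ∈ F then (1 - a i / Real.pi) else 0 := by
    intro i
    split_ifs <;> ring
  rw [Finset.sum_congr rfl fun i _ => h2 i, Finset.sum_sub_distrib, Finset.sum_ite_mem,
    Finset.univ_inter, Finset.sum_sub_distrib, Finset.sum_sub_distrib, ← Finset.sum_div,
    ← Finset.sum_div, K.a_sum] at h1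
  simp only [Finset.sum_const, Finset.card_univ, ZMod.card, nsmul_eq_mul, mul_one] at h1
  have h3 : ∑ i ∈ F, a i = ((F.card : ℝ) - 2) * Real.pi := by
    field_simp at h1
    linarith
  refine ⟨?_, h3⟩
  have hne : F.Nonempty := by
    by_contra hcon
    rw [Finset.not_nonempty_iff_eq_empty] at hcon
    rw [hcon, Finset.sum_empty, Finset.card_empty, Nat.cast_zero] at h3
    linarith
  have h4 : 0 < ∑ i ∈ F, a i := Finset.sum_pos (fun i _ => K.a_pos i) hne
  rw [h3] at h4
  have h5 : (0 : ℝ) < (F.card : ℝ) - 2 := by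
    by_contra hcon
    push Not at hcon
    nlinarith
  have h6 : (2 : ℝ) < (F.card : ℝ) := by linarith
  have h7 : 2 < F.card := by exact_mod_cast h6
  omega


end sums

variable {n : ℕ} {P : Polygon n} {m : ℕ} [NeZero m] {ι : Type}

/-- `q` steps forward (`b = true`) or backward -/
private def CU1_wk (b : Bool) (i : ZMod n) (q : ℕ) : ZMod n :=
  if b then i + (q : ZMod n) else i - (q : ZMod n)

/-- the arc traversed from the marked corner `j` on -/
private def CU1_arc (b : Bool) (j : ZMod m) : ZMod m := if b then j else j - 1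

private theorem CU1_wk_arc (S : Arcs P m) (b : Bool) (j : ZMod m) (q : ℕ)
    (hq : q ≤ S.w (CU1_arc b j)) :
    CU1_wk b (S.κ j) q = S.κ (CU1_arc b j) +
      ((if b then q else S.w (CU1_arc b j) - q : ℕ) : ZMod n) := by
  cases b
  · simp only [CU1_wk, CU1_arc, Bool.false_eq_true, if_false] at hq ⊢
    have h1 := S.step (j - 1)
    rw [sub_add_cancel] at h1
    rw [h1, Nat.cast_sub hq]
    ring
  · simp [CU1_wk, CU1_arc]

private theorem CU1_wk_end (S : Arcs P m) (b : Bool) (j : ZMod m) :
    CU1_wk b (S.κ j) (S.w (CU1_arc b j)) = S.κ (if b then j + 1 else j - 1) := by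
  cases b
  · simp only [CU1_wk, CU1_arc, Bool.false_eq_true, if_false]
    have h1 := S.step (j - 1)
    rw [sub_add_cancel] at h1
    rw [h1]
    ring
  · simp only [CU1_wk, CU1_arc, if_true]
    rw [S.step]

private theorem CU1_bwd (rf : ι → Bool) (t : ι) (i : ZMod n) (q : ℕ) :
    bwd rf (t, CU1_wk (rf t) i q) = (t, CU1_wk (rf t) i (q + 1)) := by
  unfold bwd CU1_wk
  cases rf t <;> simp <;> ring

private theorem CU1_fwd (rf : ι → Bool) (t : ι) (i : ZMod n) (q : ℕ) :
    fwd rf (t, CU1_wk (!rf t) i q) = (t, CU1_wk (!rf t) i (q + 1)) := by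
  unfold fwd CU1_wk
  cases rf t <;> simp <;> ring

private theorem CU1_ex (S : Arcs P m) (rf : ι → Bool) (t : ι) (j : ZMod m) (q : ℕ)
    (hq : q < S.w (CU1_arc (rf t) j)) :
    exS rf (t, CU1_wk (rf t) (S.κ j) q) = S.κ (CU1_arc (rf t) j) +
      ((if rf t then q else S.w (CU1_arc (rf t) j) - 1 - q : ℕ) : ZMod n) := by
  have h := CU1_wk_arc S (rf t) j q hq.le
  unfold exS
  rw [h]
  cases hr : rf t
  · rw [hr] at hq
    simp only [Bool.false_eq_true, if_false]
    have e : S.w (CU1_arc false j) - q = (S.w (CU1_arc false j) - 1 - q) + 1 := by omega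
    rw [e]
    push_cast
    ring
  · simp

private theorem CU1_en (S : Arcs P m) (rf : ι → Bool) (t : ι) (j : ZMod m) (q : ℕ)
    (hq : q < S.w (CU1_arc (!rf t) j)) :
    enS rf (t, CU1_wk (!rf t) (S.κ j) q) = S.κ (CU1_arc (!rf t) j) +
      ((if !rf t then q else S.w (CU1_arc (!rf t) j) - 1 - q : ℕ) : ZMod n) := by
  have h := CU1_wk_arc S (!rf t) j q hq.le
  unfold enS
  rw [h]
  cases hr : rf t
  · simp
  · rw [hr] at hq
    simp only [Bool.not_true, Bool.false_eq_true, if_false, if_true] at hq ⊢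
    have e : S.w (CU1_arc false j) - q = (S.w (CU1_arc false j) - 1 - q) + 1 := by omega
    rw [e]
    push_cast
    ring

theorem arc_walkU [NeZero n] (S : Arcs P m) (K : CombA n P.ang P.len ι) {M : Finset (ZMod n)}
    (hM : ∀ x, (K.nx x).2 ∈ M ↔ x.2 ∈ M) (h0 : ∀ x, x.2 ∉ M → K.toComb.deg x = 2)
    (h1 : ∀ j : ZMod m, S.κ j ∈ M)
    (h2 : ∀ (j : ZMod m) (s : ℕ), 0 < s → s < S.w j → S.κ j + (s : ZMod n) ∉ M)
    (c : ι × ZMod m) :
    ∃ d : ι × ZMod m, K.nx (S.up c) = S.up d ∧
      S.Rel (exS K.rf c) (enS K.rf d) (K.rf c.1 == K.rf d.1) ∧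
      K.nx (S.up (fwd K.rf d)) = S.up (bwd K.rf c) := by
  have hdeg : ∀ x, K.toComb.deg (K.nx x) = K.toComb.deg x := fun x =>
    Function.minimalPeriod_apply
      (Function.minimalPeriod_pos_iff_mem_periodicPts.1 (K.deg_pos x))
  have hmk : ∃ j' : ZMod m, S.κ j' = (K.nx (S.up c)).2 := by
    obtain ⟨⟨j', s⟩, ⟨hs1, hs2⟩, -⟩ := S.index (K.nx (S.up c)).2
    rcases Nat.eq_zero_or_pos s with hs0 | hs0
    · refine ⟨j', ?_⟩
      simp only [hs0, Nat.cast_zero, add_zero] at hs2
      exact hs2
    · exfalso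
      have h3 := h2 j' s hs0 hs1
      simp only at hs2
      rw [hs2, hM] at h3
      exact h3 (h1 c.2)
  obtain ⟨j', hj'⟩ := hmk
  obtain ⟨t', ht'⟩ : ∃ t', t' = (K.nx (S.up c)).1 := ⟨_, rfl⟩
  have hd0 : K.nx (S.up c) = (t', S.κ j') := Prod.ext ht'.symm hj'.symm
  obtain ⟨t, j⟩ := c
  let cc : ℕ → ι × ZMod n := fun q => (t, CU1_wk (K.rf t) (S.κ j) q)
  let dd : ℕ → ι × ZMod n := fun q => (t', CU1_wk (!K.rf t') (S.κ j') q)
  have ccz : cc 0 = S.up (t, j) := by
    change (t, CU1_wk (K.rf t) (S.κ j) 0) = (t, S.κ j)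
    unfold CU1_wk
    cases K.rf t <;> simp
  have ddz : dd 0 = K.nx (S.up (t, j)) := by
    rw [hd0]
    change (t', CU1_wk (!K.rf t') (S.κ j') 0) = (t', S.κ j')
    unfold CU1_wk
    cases K.rf t' <;> simp
  have hcs : ∀ q, bwd K.rf (cc q) = cc (q + 1) := fun q => CU1_bwd K.rf t (S.κ j) q
  have hds : ∀ q, fwd K.rf (dd q) = dd (q + 1) := fun q => CU1_fwd K.rf t' (S.κ j') q
  obtain ⟨J, hJ⟩ : ∃ J, J = CU1_arc (K.rf t) j := ⟨_, rfl⟩
  obtain ⟨L, hL⟩ : ∃ L, L = CU1_arc (!K.rf t') j' := ⟨_, rfl⟩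
  have hcm : ∀ q, 0 < q → q < S.w J → (cc q).2 ∉ M := by
    intro q hq hq'
    have h3 := CU1_wk_arc S (K.rf t) j q (by rw [← hJ]; exact hq'.le)
    change CU1_wk (K.rf t) (S.κ j) q ∉ M
    rw [h3, ← hJ]
    refine h2 J _ ?_ ?_ <;> (split_ifs <;> omega)
  have hci : ∀ q, 0 < q → q < S.w J → K.toComb.deg (cc q) = 2 := fun q hq hq' =>
    h0 _ (hcm q hq hq')
  have hcw : (cc (S.w J)).2 ∈ M := by
    change CU1_wk (K.rf t) (S.κ j) (S.w J) ∈ M
    rw [hJ, CU1_wk_end]
    exact h1 _
  have hdi : ∀ q, 0 < q → q < S.w L → (dd q).2 ∉ M := by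
    intro q hq hq'
    have h3 := CU1_wk_arc S (!K.rf t') j' q (by rw [← hL]; exact hq'.le)
    change CU1_wk (!K.rf t') (S.κ j') q ∉ M
    rw [h3, ← hL]
    refine h2 L _ ?_ ?_ <;> (split_ifs <;> omega)
  have hdw : (dd (S.w L)).2 ∈ M := by
    change CU1_wk (!K.rf t') (S.κ j') (S.w L) ∈ M
    rw [hL, CU1_wk_end]
    exact h1 _
  have hback : ∀ q, K.nx (dd q) = cc q → K.toComb.deg (cc q) = 2 → K.nx (cc q) = dd q := by
    intro q e1 e2
    have e4 : K.toComb.deg (dd q) = 2 := by rw [← hdeg (dd q), e1, e2]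
    have e5 := Function.isPeriodicPt_minimalPeriod K.nx (dd q)
    have e6 : Function.minimalPeriod K.nx (dd q) = 2 := e4
    rw [e6] at e5
    have e7 : K.nx (K.nx (dd q)) = dd q := e5
    rwa [e1] at e7
  have key : ∀ q, 1 ≤ q → q ≤ S.w J → K.nx (dd q) = cc q := by
    intro q hq1
    induction q, hq1 using Nat.le_induction with
    | base =>
      intro _
      have h3 := K.flip (S.up (t, j))
      rw [← ddz, hds, ← ccz, hcs] at h3
      exact h3
    | succ q hq ih =>
      intro hq'
      have h3 := K.flip (cc q)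
      rw [hback q (ih (by omega)) (hci q (by omega) (by omega)), hds, hcs] at h3
      exact h3
  have hnx : ∀ q, 0 < q → q < S.w J → K.nx (cc q) = dd q := fun q hq hq' =>
    hback q (key q hq hq'.le) (hci q hq hq')
  have hdd : ∀ q, 1 ≤ q → q ≤ S.w J → ((dd q).2 ∈ M ↔ (cc q).2 ∈ M) := by
    intro q hq hq'
    rw [← hM (dd q), key q hq hq']
  have hw : S.w J = S.w L := by
    rcases lt_trichotomy (S.w J) (S.w L) with h | h | h
    · have h3 := hdi _ (S.w_pos J) h
      rw [hdd _ (S.w_pos J) le_rfl] at h3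
      exact absurd hcw h3
    · exact h
    · exact absurd ((hdd _ (S.w_pos L) h.le).1 hdw) (hcm _ (S.w_pos L) h)
  have hlen : ∀ q, q < S.w J → P.len (exS K.rf (cc q)) = P.len (enS K.rf (dd q)) := by
    intro q hq
    rcases Nat.eq_zero_or_pos q with h | h
    · rw [h, ccz, ddz]
      exact (K.len (S.up (t, j))).symm
    · have h3 := K.len (cc q)
      rw [hnx q h hq] at h3
      exact h3.symm
  have hang : ∀ q, 0 < q → q < S.w J → P.ang (cc q).2 + P.ang (dd q).2 = 2 * Real.pi := by
    intro q hq hq'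
    have h3 := K.sum (cc q)
    have h4 : Function.minimalPeriod K.nx (cc q) = 2 := hci q hq hq'
    rw [h4, Finset.sum_range_succ, Finset.sum_range_one] at h3
    have h5 : P.ang (cc q).2 + P.ang (K.nx (cc q)).2 = 2 * Real.pi := h3
    rwa [hnx q hq hq'] at h5
  -- positions
  have pex : ∀ q, q < S.w J → exS K.rf (cc q) =
      S.κ J + ((if K.rf t then q else S.w J - 1 - q : ℕ) : ZMod n) := by
    intro q hq
    rw [hJ] at hq ⊢
    exact CU1_ex S K.rf t j q hq
  have pen : ∀ q, q < S.w J → enS K.rf (dd q) =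
      S.κ L + ((if !K.rf t' then q else S.w J - 1 - q : ℕ) : ZMod n) := by
    intro q hq
    rw [hw] at hq ⊢
    rw [hL] at hq ⊢
    exact CU1_en S K.rf t' j' q hq
  have pc : ∀ q, q ≤ S.w J → (cc q).2 =
      S.κ J + ((if K.rf t then q else S.w J - q : ℕ) : ZMod n) := by
    intro q hq
    rw [hJ] at hq ⊢
    exact CU1_wk_arc S (K.rf t) j q hq
  have pd : ∀ q, q ≤ S.w J → (dd q).2 =
      S.κ L + ((if !K.rf t' then q else S.w J - q : ℕ) : ZMod n) := by
    intro q hq
    rw [hw] at hq ⊢
    rw [hL] at hq ⊢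
    exact CU1_wk_arc S (!K.rf t') j' q hq
  refine ⟨(t', j'), hd0, ?_, ?_⟩
  · have eJ : exS K.rf (t, j) = J := by
      rw [hJ]
      rfl
    have eL : enS K.rf (t', j') = L := by
      rw [hL]
      unfold enS CU1_arc
      cases K.rf t' <;> simp
    rw [eJ, eL]
    change S.Rel J L (K.rf t == K.rf t')
    have hl : ∀ q, q < S.w J →
        P.len (S.κ J + ((if K.rf t then q else S.w J - 1 - q : ℕ) : ZMod n)) =
        P.len (S.κ L + ((if !K.rf t' then q else S.w J - 1 - q : ℕ) : ZMod n)) := by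
      intro q hq
      rw [← pex q hq, ← pen q hq]
      exact hlen q hq
    have ha : ∀ q, 0 < q → q < S.w J →
        P.ang (S.κ J + ((if K.rf t then q else S.w J - q : ℕ) : ZMod n)) +
        P.ang (S.κ L + ((if !K.rf t' then q else S.w J - q : ℕ) : ZMod n)) = 2 * Real.pi := by
      intro q hq hq'
      rw [← pc q hq'.le, ← pd q hq'.le]
      exact hang q hq hq'
    cases hr : K.rf t <;> cases hr' : K.rf t' <;>
      simp only [hr, hr', Bool.not_true, Bool.not_false, Bool.false_eq_true, if_true,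
        if_false] at hl ha
    · change S.Plus J L
      refine ⟨hw, fun a b hab => ?_, fun a b ha0 hb0 hab => ?_⟩
      · have h3 := hl b (by omega)
        have e : S.w J - 1 - b = a := by omega
        rwa [e] at h3
      · have h3 := ha b hb0 (by omega)
        have e : S.w J - b = a := by omega
        rwa [e] at h3
    · change S.Minus J L
      refine ⟨hw, fun a hab => ?_, fun a ha0 hab => ?_⟩
      · have h3 := hl (S.w J - 1 - a) (by omega)
        have e : S.w J - 1 - (S.w J - 1 - a) = a := by omega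
        rwa [e] at h3
      · have h3 := ha (S.w J - a) (by omega) (by omega)
        have e : S.w J - (S.w J - a) = a := by omega
        rwa [e] at h3
    · change S.Minus J L
      exact ⟨hw, fun a hab => hl a hab, fun a ha0 hab => ha a ha0 hab⟩
    · change S.Plus J L
      refine ⟨hw, fun a b hab => ?_, fun a b ha0 hb0 hab => ?_⟩
      · have h3 := hl a (by omega)
        have e : S.w J - 1 - a = b := by omega
        rwa [e] at h3
      · have h3 := ha a ha0 (by omega)
        have e : S.w J - a = b := by omega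
        rwa [e] at h3
  · have h3 := key (S.w J) (S.w_pos J) le_rfl
    have e1 : dd (S.w J) = S.up (fwd K.rf (t', j')) := by
      rw [hw, hL]
      change (t', CU1_wk (!K.rf t') (S.κ j') (S.w (CU1_arc (!K.rf t') j'))) = _
      rw [CU1_wk_end]
      unfold fwd Arcs.up
      cases K.rf t' <;> simp
    have e2 : cc (S.w J) = S.up (bwd K.rf (t, j)) := by
      rw [hJ]
      change (t, CU1_wk (K.rf t) (S.κ j) (S.w (CU1_arc (K.rf t) j))) = _
      rw [CU1_wk_end]
      unfold bwd Arcs.up
      cases K.rf t <;> simp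
    rw [e1, e2] at h3
    exact h3


omit [NeZero m]

private theorem CU1y_deg_nx [NeZero n] {a l : ZMod n → ℝ} (K : Comb n a l ι) (c : ι × ZMod n) :
    K.deg (K.nx c) = K.deg c :=
  Function.minimalPeriod_apply (Function.minimalPeriod_pos_iff_mem_periodicPts.1 (K.deg_pos c))

private theorem CU1y_deg_iter [NeZero n] {a l : ZMod n → ℝ} (K : Comb n a l ι) (c : ι × ZMod n)
    (k : ℕ) : K.deg (K.nx^[k] c) = K.deg c := by
  induction k with
  | zero => rfl
  | succ k ih => rw [Function.iterate_succ_apply', CU1y_deg_nx, ih]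

/-- extension by `0` -/
private noncomputable def CU1y_ext {m : ℕ} [NeZero m] (κ : ZMod m → ZMod n)
    (f : ι × ZMod m → ℝ) (c : ι × ZMod n) : ℝ :=
  ∑ j, if κ j = c.2 then f (c.1, j) else 0

private theorem CU1y_ext_up {m : ℕ} [NeZero m] (κ : ZMod m → ZMod n) (hκ : Function.Injective κ)
    (f : ι × ZMod m → ℝ) (c : ι × ZMod m) : CU1y_ext κ f (c.1, κ c.2) = f c := by
  unfold CU1y_ext
  rw [Finset.sum_eq_single c.2]
  · simp
  · intro j _ hj
    rw [if_neg]
    exact fun h => hj (hκ h)
  · intro h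
    exact absurd (Finset.mem_univ _) h

private theorem CU1y_ext_zero {m : ℕ} [NeZero m] (κ : ZMod m → ZMod n)
    (f : ι × ZMod m → ℝ) (c : ι × ZMod n) (hc : ∀ j, κ j ≠ c.2) : CU1y_ext κ f c = 0 := by
  unfold CU1y_ext
  exact Finset.sum_eq_zero fun j _ => if_neg (hc j)

private theorem CU1y_ext_sum [NeZero n] {m : ℕ} [NeZero m] (κ : ZMod m → ZMod n)
    (f : ι × ZMod m → ℝ) (t : ι) : ∑ i, CU1y_ext κ f (t, i) = ∑ j, f (t, j) := by
  unfold CU1y_ext
  rw [Finset.sum_comm]
  refine Finset.sum_congr rfl fun j _ => ?_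
  simp

private theorem CU1y_ext_bdd {m : ℕ} [NeZero m] (κ : ZMod m → ZMod n)
    (f : ι × ZMod m → ℝ) (B : ℝ) (hB : ∀ c, |f c| ≤ B) (c : ι × ZMod n) :
    |CU1y_ext κ f c| ≤ m * |B| := by
  unfold CU1y_ext
  refine (Finset.abs_sum_le_sum_abs _ _).trans ?_
  refine (Finset.sum_le_card_nsmul _ _ |B| fun j _ => ?_).trans ?_
  · split_ifs
    · exact (hB _).trans (le_abs_self B)
    · simp
  · rw [Finset.card_univ, ZMod.card, nsmul_eq_mul]

private theorem CU1y_semi {α β : Type} (u : α → β) (hu : Function.Injective u) (f : α → α)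
    (g : β → β) (h : ∀ x, u (f x) = g (u x)) (x : α) :
    Function.minimalPeriod f x = Function.minimalPeriod g (u x) := by
  have hk : ∀ k, u (f^[k] x) = g^[k] (u x) := by
    intro k
    induction k with
    | zero => rfl
    | succ k ih => rw [Function.iterate_succ_apply', Function.iterate_succ_apply', h, ih]
  apply Nat.dvd_antisymm
  · rw [← Function.isPeriodicPt_iff_minimalPeriod_dvd]
    apply hu
    rw [hk]
    exact Function.isPeriodicPt_minimalPeriod g (u x)
  · rw [← Function.isPeriodicPt_iff_minimalPeriod_dvd]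
    change g^[_] (u x) = u x
    rw [← hk]
    exact congrArg u (Function.isPeriodicPt_minimalPeriod f x)

theorem reduceU [NeZero n] (K : CombA n P.ang P.len ι) (F : Finset (ZMod n))
    (hM : ∀ x, (K.nx x).2 ∈ F ↔ x.2 ∈ F) (h0 : ∀ x, x.2 ∉ F → K.toComb.deg x = 2) :
    ∃ (m : ℕ) (_ : NeZero m) (S : Arcs P m), 3 ≤ m ∧ m = F.card ∧
      Nonempty (CombU m (fun j => P.ang (S.κ j)) S.Rel ι) := by
  classical
  obtain ⟨hm, hsum⟩ := K.pass_sumU F hM h0
  have hMi : ∀ (k : ℕ) x, (K.nx^[k] x).2 ∈ F ↔ x.2 ∈ F := by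
    intro k x
    induction k with
    | zero => rfl
    | succ k ih => rw [Function.iterate_succ_apply', hM, ih]
  have : NeZero F.card := ⟨by omega⟩
  obtain ⟨κ, w, hw, hstep, htot, hinj, hmem, hnot⟩ := arcs_exist F rfl
  set S : Arcs P F.card := ⟨κ, w, hw, hstep, htot⟩ with hS
  have h1 : ∀ j : ZMod F.card, S.κ j ∈ F := fun j => (hmem _).2 ⟨j, rfl⟩
  have h2 : ∀ (j : ZMod F.card) (s : ℕ), 0 < s → s < S.w j → S.κ j + (s : ZMod n) ∉ F :=
    fun j s hs hs2 => hnot j s hs hs2
  have hup : Function.Injective (S.up (ι := ι)) := by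
    intro c d h
    have h' := Prod.ext_iff.1 h
    have e1 : c.1 = d.1 := h'.1
    have e2 : κ c.2 = κ d.2 := h'.2
    exact Prod.ext e1 (hinj e2)
  have hex : ∀ c : ι × ZMod n, c.2 ∈ F → ∃ c' : ι × ZMod F.card, S.up c' = c := by
    intro c hc
    obtain ⟨j, hj⟩ := (hmem _).1 hc
    exact ⟨(c.1, j), Prod.ext rfl hj⟩
  have hdup : ∀ c : ι × ZMod F.card, (S.up c).2 ∈ F := fun c => h1 c.2
  choose nx' hnx1 hnx2 hnx3 using arc_walkU S K hM h0 h1 h2
  have hbij : Function.Bijective nx' := by
    constructor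
    · intro c d h
      apply hup
      apply K.nx.injective
      rw [hnx1, hnx1, h]
    · intro d
      obtain ⟨c, hc⟩ := hex (K.nx.symm (S.up d)) (by
        rw [← hM, Equiv.apply_symm_apply]
        exact hdup d)
      refine ⟨c, hup ?_⟩
      rw [← hnx1, hc, Equiv.apply_symm_apply]
  have hper : ∀ c, Function.minimalPeriod nx' c = Function.minimalPeriod K.nx (S.up c) := by
    intro c
    exact CU1y_semi S.up hup nx' K.nx (fun x => (hnx1 x).symm) c
  have hiter : ∀ (k : ℕ) (c : ι × ZMod F.card), S.up (nx'^[k] c) = K.nx^[k] (S.up c) := by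
    intro k c
    induction k with
    | zero => rfl
    | succ k ih => rw [Function.iterate_succ_apply', Function.iterate_succ_apply', ← hnx1, ih]
  refine ⟨F.card, this, S, hm, rfl, ⟨?_⟩⟩
  exact
    { three_le := hm
      a_pos := fun i => K.a_pos _
      a_lt := fun i => K.a_lt _
      a_ne := fun i => K.a_ne _
      a_sum := by
        have hFi : F = Finset.univ.image κ := by
          ext i
          rw [hmem, Finset.mem_image]
          simp
        have e1 : ∑ i ∈ Finset.univ.image κ, P.ang i = ∑ i, P.ang (κ i) :=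
          Finset.sum_image (fun a _ b _ h => hinj h)
        have e2 : ∑ i ∈ F, P.ang i = ∑ i ∈ Finset.univ.image κ, P.ang i :=
          Finset.sum_congr hFi fun _ _ => rfl
        exact e1.symm.trans (e2.symm.trans hsum)
      rf := K.rf
      nx := Equiv.ofBijective nx' hbij
      deg2 := by
        intro c
        change 2 ≤ Function.minimalPeriod nx' c
        rw [hper]
        exact K.toComb.two_le (S.up c)
      sum := by
        intro c
        change ∑ k ∈ Finset.range (Function.minimalPeriod nx' c), P.ang (κ (nx'^[k] c).2) = _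
        rw [hper, ← K.sum (S.up c)]
        refine Finset.sum_congr rfl fun k _ => ?_
        rw [← hiter]
        rfl
      glue := fun c => hnx2 c
      flip := by
        intro c
        apply hup
        change S.up (nx' (fwd K.rf (nx' c))) = _
        rw [← hnx1]
        exact hnx3 c
      avg := by
        intro f hB hstar δ hδ htile
        obtain ⟨B, hB⟩ := hB
        refine K.avg (CU1y_ext κ f) ⟨F.card * |B|, CU1y_ext_bdd κ f B hB⟩ ?_ δ hδ ?_
        · intro c
          by_cases hc : c.2 ∉ F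
          · refine (Finset.sum_eq_zero fun k _ => ?_).le
            refine CU1y_ext_zero κ f _ fun j hj => ?_
            have h3 : (K.nx^[k] c).2 ∈ F := (hmem _).2 ⟨j, hj⟩
            rw [hMi] at h3
            exact hc h3
          · rw [not_not] at hc
            obtain ⟨c', hc'⟩ := hex c hc
            have h3 := hstar c'
            change ∑ k ∈ Finset.range (Function.minimalPeriod nx' c'), f (nx'^[k] c') ≤ 0 at h3
            rw [hper, hc'] at h3
            refine le_of_eq_of_le (Finset.sum_congr rfl fun k _ => ?_) h3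
            rw [← hc', ← hiter]
            exact CU1y_ext_up κ hinj f _
        · intro t
          rw [CU1y_ext_sum]
          exact htile t }

end Pool.Agent.Lib_MP_fa6e45
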