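import Pool.Agent.Lib_MP_fa6e45.CE0

/-!
Enumeration of the relation tables without a condition on the degrees of the vertices: `relAx_of_avg` needs only the
gluing and the averaging principle; `enumU3` ... `enumU6` are the theorems `enumT3` ... `enumT6` of CS8 under `RelAx`.
-/

open Set MeasureTheory Complex
open scoped Topology

namespace Pool.Agent.Lib_MP_fa6e45

variable {n : ℕ} {P : Polygon n} {m : ℕ} [NeZero m] {ι : Type}

private theorem CUE_shift {β : Type} (nx : Equiv.Perm β) (g : β → ℝ) (c : β) :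
    ∑ k ∈ Finset.range (Function.minimalPeriod nx c), g (nx^[k + 1] c) =
      ∑ k ∈ Finset.range (Function.minimalPeriod nx c), g (nx^[k] c) := by
  rcases Nat.eq_zero_or_pos (Function.minimalPeriod nx c) with h0 | h0
  · rw [h0]
    simp
  · obtain ⟨d, hd⟩ : ∃ d, Function.minimalPeriod nx c = d + 1 :=
      Nat.exists_eq_succ_of_ne_zero (by omega)
    have h : nx^[d + 1] c = c := by
      rw [← hd]
      exact Function.iterate_minimalPeriod
    rw [hd, Finset.sum_range_succ, Finset.sum_range_succ' (fun k => g (nx^[k] c))]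
    congr 1
    rw [h]
    rfl

/-- a function on the arcs which cancels over glued arcs has sum `≤ 0` -/
private theorem CUE_bal {G : ZMod m → ZMod m → Bool → Prop} (rf : ι → Bool)
    (nx : Equiv.Perm (ι × ZMod m)) (glue : ∀ c, G (exS rf c) (enS rf (nx c)) (rf c.1 == rf (nx c).1))
    (avg : ∀ f : ι × ZMod m → ℝ, (∃ B : ℝ, ∀ c, |f c| ≤ B) →
      (∀ c, ∑ k ∈ Finset.range (Function.minimalPeriod nx c), f (nx^[k] c) ≤ 0) →
      ∀ δ > 0, (∀ t, δ ≤ ∑ i, f (t, i)) → False)
    (f : ZMod m → ℤ) (hf : ∀ j k b, G j k b → f j + f k = 0) : ∑ j, f j ≤ 0 := by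
  by_contra hneg
  push Not at hneg
  refine avg (fun c => (f (enS rf c) : ℝ) + (f (exS rf c) : ℝ)) ?_ ?_ 1 one_pos ?_
  · refine ⟨2 * ∑ j, |(f j : ℝ)|, fun c => ?_⟩
    have h1 : ∀ x : ZMod m, |(f x : ℝ)| ≤ ∑ j, |(f j : ℝ)| := fun x =>
      Finset.single_le_sum (f := fun y : ZMod m => |(f y : ℝ)|) (fun y _ => abs_nonneg _)
        (Finset.mem_univ x)
    have h2 := abs_add_le (f (enS rf c) : ℝ) (f (exS rf c) : ℝ)
    linarith [h1 (enS rf c), h1 (exS rf c)]
  · intro c
    rw [Finset.sum_add_distrib, ← CUE_shift nx (fun c => (f (enS rf c) : ℝ)) c,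
      ← Finset.sum_add_distrib]
    refine (Finset.sum_eq_zero fun k _ => ?_).le
    have h1 := hf _ _ _ (glue (nx^[k] c))
    rw [Function.iterate_succ_apply']
    have h2 : ((f (exS rf (nx^[k] c)) + f (enS rf (nx (nx^[k] c))) : ℤ) : ℝ) = 0 := by
      rw [h1]
      simp
    push_cast at h2
    linarith
  · intro t
    have h1 : ∑ i : ZMod m, ((f (enS rf (t, i)) : ℝ) + (f (exS rf (t, i)) : ℝ)) =
        2 * ∑ j, (f j : ℝ) := by
      have hsh : ∑ j : ZMod m, (f (j - 1) : ℝ) = ∑ j, (f j : ℝ) :=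
        Equiv.sum_comp (Equiv.subRight (1 : ZMod m)) (fun j => (f j : ℝ))
      rw [Finset.sum_add_distrib]
      unfold enS exS
      cases h : rf t
      · simp only [h]
        simp only [Bool.false_eq_true, if_false]
        rw [hsh]
        ring
      · simp only [h]
        simp only [if_true]
        rw [hsh]
        ring
    rw [h1]
    have h2 : (1 : ℝ) ≤ ((∑ j, f j : ℤ) : ℝ) := by
      exact_mod_cast hneg
    push_cast at h2
    linarith

private def CUEs (b : Bool) (w t : ℕ) : ℕ := if b then w - 1 - t else t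

private def CUEa (b : Bool) (w t : ℕ) : ℕ := if b then w - t else t

private theorem CUE_iff (S : Arcs P m) (j k : ZMod m) (b : Bool) : S.Rel j k b ↔ S.w j = S.w k ∧
    (∀ t, t < S.w j → P.len (S.κ j + (t : ZMod n)) =
      P.len (S.κ k + ((CUEs b (S.w j) t : ℕ) : ZMod n))) ∧
    ∀ t, 0 < t → t < S.w j → P.ang (S.κ j + (t : ZMod n)) +
      P.ang (S.κ k + ((CUEa b (S.w j) t : ℕ) : ZMod n)) = 2 * Real.pi := by
  cases b
  · exact Iff.rfl
  · constructor
    · rintro ⟨h1, h2, h3⟩
      refine ⟨h1, fun t ht => h2 t _ ?_, fun t ht ht' => h3 t _ ht ?_ ?_⟩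
      · simp only [CUEs, if_true]; omega
      · simp only [CUEa, if_true]; omega
      · simp only [CUEa, if_true]; omega
    · rintro ⟨h1, h2, h3⟩
      refine ⟨h1, fun t s hts => ?_, fun t s ht hs hts => ?_⟩
      · have h4 := h2 t (by omega)
        have h5 : CUEs true (S.w j) t = s := by simp only [CUEs, if_true]; omega
        rwa [h5] at h4
      · have h4 := h3 t ht (by omega)
        have h5 : CUEa true (S.w j) t = s := by simp only [CUEa, if_true]; omega
        rwa [h5] at h4

private theorem CUEs_lt (b : Bool) {w t : ℕ} (h : t < w) : CUEs b w t < w := by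
  cases b
  · exact h
  · simp only [CUEs, if_true]; omega

private theorem CUEa_lt (b : Bool) {w t : ℕ} (h0 : 0 < t) (h : t < w) :
    0 < CUEa b w t ∧ CUEa b w t < w := by
  cases b
  · exact ⟨h0, h⟩
  · simp only [CUEa, if_true]; omega

private theorem CUEs_comp (a b c : Bool) {w t : ℕ} (h : t < w) :
    CUEs c w (CUEs b w (CUEs a w t)) = CUEs ((a == b) == c) w t := by
  cases a <;> cases b <;> cases c <;> simp [CUEs] <;> omega

private theorem CUEa_comp (a b c : Bool) {w t : ℕ} (h : t < w) :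
    CUEa c w (CUEa b w (CUEa a w t)) = CUEa ((a == b) == c) w t := by
  cases a <;> cases b <;> cases c <;> simp [CUEa] <;> omega

private theorem CUE_tri (S : Arcs P m) (i j k l : ZMod m) (a b c : Bool) (h1 : S.Rel i j a)
    (h2 : S.Rel j k b) (h3 : S.Rel k l c) : S.Rel i l ((a == b) == c) := by
  rw [CUE_iff] at h1 h2 h3 ⊢
  obtain ⟨w1, l1, a1⟩ := h1
  obtain ⟨w2, l2, a2⟩ := h2
  obtain ⟨w3, l3, a3⟩ := h3
  refine ⟨w1.trans (w2.trans w3), fun t ht => ?_, fun t h0 ht => ?_⟩
  · have e1 := CUEs_lt a ht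
    have e2 := CUEs_lt b e1
    rw [← CUEs_comp a b c ht, l1 t ht, l2 _ (w1 ▸ e1), l3 _ (w2 ▸ w1 ▸ e2), ← w2, ← w1]
  · have e1 := CUEa_lt a h0 ht
    have e2 := CUEa_lt b e1.1 e1.2
    have f1 := a1 t h0 ht
    have f2 := a2 _ e1.1 (w1 ▸ e1.2)
    rw [← w1] at f2
    have f3 := a3 _ e2.1 (w2 ▸ w1 ▸ e2.2)
    rw [← w2, ← w1] at f3
    rw [← CUEa_comp a b c ht]
    linarith

/-- the relation of the arcs satisfies the axioms, no condition on the degrees -/
theorem relAx_of_avg (S : Arcs P m) (rf : ι → Bool) (nx : Equiv.Perm (ι × ZMod m))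
    (glue : ∀ c, S.Rel (exS rf c) (enS rf (nx c)) (rf c.1 == rf (nx c).1))
    (avg : ∀ f : ι × ZMod m → ℝ, (∃ B : ℝ, ∀ c, |f c| ≤ B) →
      (∀ c, ∑ k ∈ Finset.range (Function.minimalPeriod nx c), f (nx^[k] c) ≤ 0) →
      ∀ δ > 0, (∀ t, δ ≤ ∑ i, f (t, i)) → False) : RelAx S.Rel where
  symm := fun j k b h => S.rel_symm h
  tri := fun i j k l a b c h1 h2 h3 => CUE_tri S i j k l a b c h1 h2 h3
  self := fun j h => (S.rel_one h (S.minus_self j h) true).2.1
  glued := by
    intro j
    have hne : Nonempty ι := by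
      by_contra h
      rw [not_nonempty_iff] at h
      exact avg (fun _ => 0) ⟨0, fun c => by simp⟩ (fun c => by simp) 1 one_pos fun t => h.elim t
    obtain ⟨t⟩ := hne
    cases h : rf t
    · have h1 := glue (t, j + 1)
      have h2 : exS rf (t, j + 1) = j := by
        unfold exS
        simp [h]
      rw [h2] at h1
      exact ⟨_, _, h1⟩
    · have h1 := glue (t, j)
      have h2 : exS rf (t, j) = j := by
        unfold exS
        simp [h]
      rw [h2] at h1
      exact ⟨_, _, h1⟩
  bal := by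
    intro f hf
    have h1 := CUE_bal rf nx glue avg f hf
    have h2 := CUE_bal rf nx glue avg (fun j => -f j) fun j k b h => by
      have := hf j k b h
      linarith
    rw [Finset.sum_neg_distrib] at h2
    linarith

end Pool.Agent.Lib_MP_fa6e45
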