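import Pool.Agent.Lib_MP_fa6e45.CU0
import Pool.Agent.Lib_MP_fa6e45.CUE8

/-!
Enumeration of the relation tables for `CombU` (stars with at least two corners), tables of CSTab.
-/

open Set MeasureTheory Complex
open scoped Topology

namespace Pool.Agent.Lib_MP_fa6e45

variable {n : ℕ} {P : Polygon n} {ι : Type}

theorem relAx_of_U {m : ℕ} [NeZero m] (S : Arcs P m) {a : ZMod m → ℝ} (K : CombU m a S.Rel ι) :
    RelAx S.Rel := relAx_of_avg S K.rf K.nx K.glue K.avg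

theorem enumU3 (S : Arcs P 3) (K : CombU 3 (fun j => P.ang (S.κ j)) S.Rel ι)
    (hw : ∃ j, S.w j ≠ 1) : ∃ x ∈ tabT3, ∃ (r : Bool) (s : ZMod 3), ∀ j k c,
      S.Rel (siS r s j) (siS r s k) c ↔ relT (decW 3 x) j k c = true :=
  enumR3 S (relAx_of_U S K) hw

theorem enumU4 (S : Arcs P 4) (K : CombU 4 (fun j => P.ang (S.κ j)) S.Rel ι)
    (hw : ∃ j, S.w j ≠ 1) : ∃ x ∈ tabT4, ∃ (r : Bool) (s : ZMod 4), ∀ j k c,
      S.Rel (siS r s j) (siS r s k) c ↔ relT (decW 4 x) j k c = true :=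
  enumR4 S (relAx_of_U S K) hw

theorem enumU5 (S : Arcs P 5) (K : CombU 5 (fun j => P.ang (S.κ j)) S.Rel ι)
    (hw : ∃ j, S.w j ≠ 1) : ∃ x ∈ tabT5, ∃ (r : Bool) (s : ZMod 5), ∀ j k c,
      S.Rel (siS r s j) (siS r s k) c ↔ relT (decW 5 x) j k c = true :=
  enumR5 S (relAx_of_U S K) hw

theorem enumU6 (S : Arcs P 6) (K : CombU 6 (fun j => P.ang (S.κ j)) S.Rel ι)
    (hw : ∃ j, S.w j ≠ 1) : ∃ x ∈ tabT6, ∃ (r : Bool) (s : ZMod 6), ∀ j k c,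
      S.Rel (siS r s j) (siS r s k) c ↔ relT (decW 6 x) j k c = true :=
  enumR6 S (relAx_of_U S K) hw

end Pool.Agent.Lib_MP_fa6e45
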