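import Pool.Agent.Lib_MP_fa6e45.CU1
import Pool.Agent.Lib_MP_fa6e45.CU3
import Pool.Agent.Lib_MP_fa6e45.CU7
import Pool.Agent.Lib_MP_fa6e45.CU8
import Pool.Agent.Lib_MP_fa6e45.V1b
import Pool.Agent.Lib_MP_fa6e45.W1
import Pool.Agent.Lib_MP_fa6e45.CSTab

/-!
MP_fa6e45_co, stage 6: assembly. `M` is a set of at most six corners of the polygon such that at most two tiles meet
at a corner outside `M`, and a corner in `M` is never at the same point as a corner outside `M`.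
-/

open Set MeasureTheory Complex
open scoped Topology

namespace Pool.Agent.Lib_MP_fa6e45

open Pool.Agent.Lib_PL (cr InSector Poly)

variable {n : ℕ}

/-! ### the combinatorial data of the tiling, with the positions of the corners -/

section data

variable {P : Polygon n} {ι : Type}

private theorem CU9_vx (T : Til P ι) (nx : Equiv.Perm (ι × ZMod n))
    (h : ∀ c, T.Step c (nx c)) (c : ι × ZMod n) (k : ℕ) : T.vx (nx^[k] c) = T.vx c := by
  induction k with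
  | zero => rfl
  | succ k ih =>
    rw [Function.iterate_succ_apply', (h _).2, ih]

private theorem CU9_sum (hc : P.CCW) (T : Til P ι) (nx : Equiv.Perm (ι × ZMod n))
    (h : ∀ c, T.Step c (nx c)) (c : ι × ZMod n) (f : ι × ZMod n → ℝ) :
    ∑ x ∈ (T.star_finite (T.vx c)).toFinset, f x =
      ∑ k ∈ Finset.range (Function.minimalPeriod nx c), f (nx^[k] c) := by
  classical
  have hinj : Set.InjOn (fun k : ℕ => nx^[k] c)
      (Finset.range (Function.minimalPeriod nx c) : Set ℕ) := by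
    intro a ha b hb hab
    rw [Finset.coe_range] at ha hb
    exact Function.iterate_injOn_Iio_minimalPeriod ha hb hab
  have hsub : (Finset.range (Function.minimalPeriod nx c)).image (fun k : ℕ => nx^[k] c) ⊆
      (T.star_finite (T.vx c)).toFinset := by
    intro x hx
    obtain ⟨k, -, rfl⟩ := Finset.mem_image.1 hx
    exact (T.star_finite (T.vx c)).mem_toFinset.2 (CU9_vx T nx h c k)
  have hcard : (T.star_finite (T.vx c)).toFinset.card ≤
      ((Finset.range (Function.minimalPeriod nx c)).image (fun k : ℕ => nx^[k] c)).card := by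
    rw [Finset.card_image_of_injOn hinj, Finset.card_range,
      ← Set.ncard_eq_toFinset_card _ (T.star_finite (T.vx c)), (T.nx_orbit hc nx h c).2.2]
  rw [← Finset.eq_of_subset_of_card_le hsub hcard]
  exact Finset.sum_image hinj

theorem Til.combV [NeZero n] (hc : P.CCW) (T : Til P ι) :
    ∃ K : CombA n P.ang P.len ι, (∀ c, K.toComb.deg c = (T.star (T.vx c)).ncard) ∧
      ∀ c, T.vx (K.nx c) = T.vx c := by
  obtain ⟨nx, hnx⟩ := T.exists_nx hc
  refine ⟨{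
    three_le := P.three_le
    a_pos := P.ang_pos
    a_lt := P.ang_lt
    a_ne := P.ang_ne
    a_sum := P.ang_sum hc
    rf := T.rf
    nx := nx
    deg_pos := fun c => (T.nx_orbit hc nx hnx c).1
    sum := fun c => (T.nx_orbit hc nx hnx c).2.1
    len := ?_
    flip := ?_
    count := ?_
    avg := ?_ }, fun c => ((T.nx_orbit hc nx hnx c).2.2).symm, fun c => (hnx c).2⟩
  · intro c
    rw [← T.norm_uu, ← T.norm_ww, T.uu_step (hnx c)]
  · intro c
    exact T.step_unique hc (hnx _) (T.step_flip (hnx c))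
  · intro D h0 hD
    apply T.count hc D h0
    intro c
    rw [(T.nx_orbit hc nx hnx c).2.2]
    exact hD c
  · rintro f ⟨B, hB⟩ hs δ hδ ht
    apply T.avg f B hB _ δ hδ ht
    intro c
    rw [CU9_sum hc T nx hnx c f]
    exact hs c

end data

/-- the indexed tiling with given labels -/
private theorem CU9_exists_til (P : Polygon n) {𝒮 : Set (Set ℂ)} (h : P.IsTiling 𝒮)
    (he : P.EdgeToEdge 𝒮) (g : Set ℂ → ℂ ≃ᵢ ℂ) (hg : ∀ t ∈ 𝒮, t = g t '' P.region) :
    ∃ T : Til P 𝒮, (∀ t : 𝒮, T.R t = (t : Set ℂ)) ∧ ∀ (t : 𝒮) (i : ZMod n),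
      T.vx (t, i) = g t (P.vertex i) := by
  have h0 : ∀ t : 𝒮, ∃ m : Mo, ∀ z, g t z = m.app z := fun t => exists_mo (g t)
  choose m hgm using h0
  have hm : ∀ t : 𝒮, (t : Set ℂ) = (m t).app '' P.region := by
    intro t
    have h1 := hg t t.2
    have h2 : g t '' P.region = (m t).app '' P.region := Set.image_congr fun z _ => hgm t z
    exact h1.trans h2
  have h2 : ∀ t : 𝒮, (m t).app '' P.inner ⊆ interior (t : Set ℂ) := by
    intro t
    apply interior_maximal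
    · rw [hm t]
      apply Set.image_mono
      rw [P.region_union]
      exact Set.subset_union_right
    · exact (m t).iso.toHomeomorph.isOpenMap _ P.inner_open
  refine ⟨⟨m, ?_, ?_, ?_⟩, fun t => (hm t).symm, fun t i => (hgm t _).symm⟩
  · intro z
    have hz : z ∈ ⋃₀ 𝒮 := by
      rw [h.cover]
      trivial
    obtain ⟨t, ht, hzt⟩ := hz
    refine ⟨⟨t, ht⟩, ?_⟩
    rw [← hm ⟨t, ht⟩]
    exact hzt
  · intro s t hst
    exact (h.disj s s.2 t t.2 fun h => hst (Subtype.ext h)).mono (h2 s) (h2 t)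
  · intro s t i j
    have hs : (m s).iso '' P.region ∈ 𝒮 := by
      have := hm s
      change (m s).app '' P.region ∈ 𝒮
      rw [← this]
      exact s.2
    have ht : (m t).iso '' P.region ∈ 𝒮 := by
      have := hm t
      change (m t).app '' P.region ∈ 𝒮
      rw [← this]
      exact t.2
    exact he (m s).iso (m t).iso hs ht i j

/-- the position of a corner lies in its tile -/
private theorem CU9_vx_mem {P : Polygon n} {𝒮 : Set (Set ℂ)} (T : Til P 𝒮)
    (hT : ∀ t : 𝒮, T.R t = (t : Set ℂ)) (c : 𝒮 × ZMod n) : T.vx c ∈ (c.1 : Set ℂ) := by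
  rw [← hT c.1]
  refine ⟨P.vertex c.2, ?_, rfl⟩
  rw [P.region_union, P.bdry_eq]
  exact Or.inl (Set.mem_iUnion.2 ⟨c.2, left_mem_segment ℝ _ _⟩)

/-- different corners at a point belong to different tiles -/
private theorem CU9_tile_ne {P : Polygon n} {𝒮 : Set (Set ℂ)} (T : Til P 𝒮) {z : ℂ}
    {c d : 𝒮 × ZMod n} (hc : T.vx c = z) (hd : T.vx d = z) (h : c ≠ d) :
    (c.1 : Set ℂ) ≠ (d.1 : Set ℂ) := by
  intro e
  apply h
  have e1 : c.1 = d.1 := Subtype.ext e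
  obtain ⟨s, i⟩ := c
  obtain ⟨t, j⟩ := d
  change s = t at e1
  subst e1
  rw [T.vx_inj (hc.trans hd.symm)]

/-- three corners at a point give three tiles -/
private theorem CU9_threeAt {P : Polygon n} {𝒮 : Set (Set ℂ)} (T : Til P 𝒮)
    (hT : ∀ t : 𝒮, T.R t = (t : Set ℂ)) (z : ℂ) (h : 3 ≤ (T.star z).ncard) :
    ThreeAt 𝒮 z := by
  obtain ⟨a, b, c, ha, hb, hc, hab, hac, hbc⟩ := (Set.two_lt_ncard_iff (T.star_finite z)).1 h
  have ha' : T.vx a = z := ha
  have hb' : T.vx b = z := hb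
  have hc' : T.vx c = z := hc
  refine ⟨a.1, a.1.2, b.1, b.1.2, c.1, c.1.2, CU9_tile_ne T ha' hb' hab,
    CU9_tile_ne T hb' hc' hbc, CU9_tile_ne T ha' hc' hac, ?_, ?_, ?_⟩
  · have := CU9_vx_mem T hT a
    rwa [ha'] at this
  · have := CU9_vx_mem T hT b
    rwa [hb'] at this
  · have := CU9_vx_mem T hT c
    rwa [hc'] at this

/-! ### the assembly -/

private theorem CU9_nil {m : ℕ} [NeZero m] (f : ZMod m → ℝ) :
    ∀ E ∈ ([] : List Eqn), Eqn.Holds E f := fun _ h => absurd h List.not_mem_nil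

private theorem CU9_fin {P : Polygon n} {ι : Type} {m : ℕ} [NeZero m] (hc : P.CCW) (S : Arcs P m)
    (K : CombU m (fun j => P.ang (S.κ j)) S.Rel ι) (tab : List ℕ)
    (ht : ∀ x ∈ tab, NodeU m (decW m x) [])
    (he : ∃ x ∈ tab, ∃ (r : Bool) (s : ZMod m), ∀ j k c,
      S.Rel (siS r s j) (siS r s k) c ↔ relT (decW m x) j k c = true) : HasPeriodic P := by
  obtain ⟨x, hx, r, s, h⟩ := he
  obtain ⟨P', S', b, M, hp⟩ := sitU_of hc K r s h
  exact hp (ht x hx P' S' b M (CU9_nil _) (CU9_nil _))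

/-- at most six active corners, `M`; the certificates are hypotheses -/
theorem hom_periodicU (c3 : ∀ x ∈ tabT3, NodeU 3 (decW 3 x) [])
    (c4 : ∀ x ∈ tabT4, NodeU 4 (decW 4 x) []) (c5 : ∀ x ∈ tabT5, NodeU 5 (decW 5 x) [])
    (c6 : ∀ x ∈ tabT6, NodeU 6 (decW 6 x) []) {P : Polygon n} {ι : Type} [NeZero n] (hc : P.CCW)
    (hn : 7 ≤ n) (K : CombA n P.ang P.len ι) (M : Finset (ZMod n)) (h6 : M.card ≤ 6)
    (hM : ∀ x, (K.nx x).2 ∈ M ↔ x.2 ∈ M) (h0 : ∀ x, x.2 ∉ M → K.toComb.deg x = 2) :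
    HasPeriodic P := by
  obtain ⟨m, hm, S, hm3, hm6, ⟨K'⟩⟩ := reduceU K M hM h0
  have hw : ∃ j, S.w j ≠ 1 := by
    by_contra h
    push Not at h
    have h1 := S.total
    rw [Finset.sum_congr rfl fun j _ => h j, Finset.sum_const, Finset.card_univ, ZMod.card,
      smul_eq_mul, mul_one] at h1
    omega
  have h7 : m = 3 ∨ m = 4 ∨ m = 5 ∨ m = 6 := by omega
  clear hm6
  rcases h7 with rfl | rfl | rfl | rfl
  · exact CU9_fin hc S K' tabT3 c3 (enumU3 S K' hw)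
  · exact CU9_fin hc S K' tabT4 c4 (enumU4 S K' hw)
  · exact CU9_fin hc S K' tabT5 c5 (enumU5 S K' hw)
  · exact CU9_fin hc S K' tabT6 c6 (enumU6 S K' hw)

theorem mainU_ccw (c3 : ∀ x ∈ tabT3, NodeU 3 (decW 3 x) [])
    (c4 : ∀ x ∈ tabT4, NodeU 4 (decW 4 x) []) (c5 : ∀ x ∈ tabT5, NodeU 5 (decW 5 x) [])
    (c6 : ∀ x ∈ tabT6, NodeU 6 (decW 6 x) []) (P : Polygon n) (hc : P.CCW) (hn : 7 ≤ n)
    {𝒮 : Set (Set ℂ)} (h : P.IsTiling 𝒮)
    (he : P.EdgeToEdge 𝒮) (g : Set ℂ → ℂ ≃ᵢ ℂ) (hg : ∀ t ∈ 𝒮, t = g t '' P.region)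
    (M : Finset (ZMod n)) (h6 : M.card ≤ 6)
    (hM : ∀ s ∈ 𝒮, ∀ t ∈ 𝒮, ∀ i j : ZMod n, g s (P.vertex i) = g t (P.vertex j) →
      i ∈ M → j ∈ M)
    (hu : ∀ t ∈ 𝒮, ∀ i : ZMod n, i ∉ M → ¬ ThreeAt 𝒮 (g t (P.vertex i))) :
    ∃ 𝒯 : Set (Set ℂ), P.IsTiling 𝒯 ∧ Periodic 𝒯 := by
  haveI : NeZero n := ⟨by have := P.three_le; omega⟩
  obtain ⟨T, hT, hv⟩ := CU9_exists_til P h he g hg
  obtain ⟨K, hK, hx⟩ := T.combV hc
  refine hom_periodicU c3 c4 c5 c6 hc hn K M h6 (fun x => ?_) (fun x hx' => ?_)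
  · have h1 := hx x
    have h2 : g (K.nx x).1 (P.vertex (K.nx x).2) = g x.1 (P.vertex x.2) := by
      rw [← hv (K.nx x).1 (K.nx x).2, ← hv x.1 x.2]
      exact h1
    exact ⟨hM _ (K.nx x).1.2 _ x.1.2 _ _ h2, hM _ x.1.2 _ (K.nx x).1.2 _ _ h2.symm⟩
  · have h2 : 2 ≤ K.toComb.deg x := K.toComb.two_le x
    by_contra h3
    have h4 : 3 ≤ (T.star (T.vx x)).ncard := by
      rw [← hK]
      omega
    have h5 := CU9_threeAt T hT _ h4
    have h7 : T.vx x = g x.1 (P.vertex x.2) := hv x.1 x.2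
    rw [h7] at h5
    exact hu _ x.1.2 _ hx' h5

/-- A polygon `P` with an edge-to-edge tiling and a set `M` of at most six corners of `P` (`g t` places the polygon on
the tile `t`): if a corner in `M` is never at the same point as a corner outside `M`, and fewer than three tiles meet
at every corner outside `M`, then `P` has a periodic tiling. -/
theorem main8_thm (c3 : ∀ x ∈ tabT3, NodeU 3 (decW 3 x) [])
    (c4 : ∀ x ∈ tabT4, NodeU 4 (decW 4 x) []) (c5 : ∀ x ∈ tabT5, NodeU 5 (decW 5 x) [])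
    (c6 : ∀ x ∈ tabT6, NodeU 6 (decW 6 x) []) (P : Polygon n) (hn : 7 ≤ n) {𝒮 : Set (Set ℂ)}
    (h : P.IsTiling 𝒮) (he : P.EdgeToEdge 𝒮) (g : Set ℂ → ℂ ≃ᵢ ℂ)
    (hg : ∀ t ∈ 𝒮, t = g t '' P.region) (M : Finset (ZMod n)) (h6 : M.card ≤ 6)
    (hM : ∀ s ∈ 𝒮, ∀ t ∈ 𝒮, ∀ i j : ZMod n, g s (P.vertex i) = g t (P.vertex j) →
      i ∈ M → j ∈ M)
    (hu : ∀ t ∈ 𝒮, ∀ i : ZMod n, i ∉ M → ¬ ThreeAt 𝒮 (g t (P.vertex i))) :
    ∃ 𝒯 : Set (Set ℂ), P.IsTiling 𝒯 ∧ Periodic 𝒯 := by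
  classical
  rcases P.ccw_or with hc | hc
  · exact mainU_ccw c3 c4 c5 c6 P hc hn h he g hg M h6 hM hu
  have hT : ∀ 𝒯 : Set (Set ℂ), P.rev.IsTiling 𝒯 ↔ P.IsTiling 𝒯 := by
    intro 𝒯
    constructor
    · rintro ⟨h1, h2, h3⟩
      exact ⟨fun t ht => by simpa only [P.rev_region] using h1 t ht, h2, h3⟩
    · rintro ⟨h1, h2, h3⟩
      exact ⟨fun t ht => by simpa only [P.rev_region] using h1 t ht, h2, h3⟩
  have hE : P.rev.EdgeToEdge 𝒮 := by
    intro g k hg hk i j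
    rw [P.rev_region] at hg hk
    have h1 := he g k hg hk (-i) (-j - 1)
    rw [openSegment_symm] at h1
    have e1 : -j - 1 + 1 = -j := by ring
    have e2 : -(j + 1) = -j - 1 := by ring
    rw [e1] at h1
    change g (P.vertex (-i)) ∉ openSegment ℝ (k (P.vertex (-j))) (k (P.vertex (-(j + 1))))
    rw [e2]
    exact h1
  have hg' : ∀ t ∈ 𝒮, t = g t '' P.rev.region := by
    intro t ht
    rw [P.rev_region]
    exact hg t ht
  have hmem : ∀ i : ZMod n, i ∈ M.image (fun i => -i) ↔ -i ∈ M := by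
    intro i
    rw [Finset.mem_image]
    constructor
    · rintro ⟨j, hj, rfl⟩
      rwa [neg_neg]
    · intro hi
      exact ⟨-i, hi, neg_neg i⟩
  obtain ⟨𝒯, h1, h2⟩ := mainU_ccw c3 c4 c5 c6 P.rev hc hn ((hT 𝒮).2 h) hE g hg'
    (M.image fun i => -i) (Finset.card_image_le.trans h6)
    (fun s hs t ht i j hij hi => (hmem j).2 (hM s hs t ht (-i) (-j) hij ((hmem i).1 hi)))
    (fun t ht i hi => hu t ht (-i) fun hi' => hi ((hmem i).2 hi'))
  exact ⟨𝒯, (hT 𝒯).1 h1, h2⟩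

end Pool.Agent.Lib_MP_fa6e45
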