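import Pool.Agent.Lib_MP_fa6e45.CU3
import Pool.Agent.Lib_MP_fa6e45.H4

/-!
MP_fa6e45_co, stage 6, part V: enumeration of the side classes of polygons with seven corners.
-/

open Set MeasureTheory Complex
open scoped Topology

namespace Pool.Agent.Lib_MP_fa6e45

/-- the canonical classes of the sides of a heptagon -/
def h4C7 : List (List ℕ) :=
  [[0, 1, 2, 3, 4, 5, 6], [0, 0, 1, 2, 3, 4, 5], [0, 1, 0, 2, 3, 4, 5], [0, 1, 2, 0, 3, 4, 5],
    [0, 0, 0, 1, 2, 3, 4], [0, 0, 1, 0, 2, 3, 4], [0, 0, 1, 1, 2, 3, 4], [0, 0, 1, 2, 0, 3, 4],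
    [0, 0, 1, 2, 1, 3, 4], [0, 0, 1, 2, 2, 3, 4], [0, 0, 1, 2, 3, 1, 4], [0, 0, 1, 2, 3, 2, 4],
    [0, 0, 1, 2, 3, 4, 1], [0, 1, 0, 1, 2, 3, 4], [0, 1, 0, 2, 0, 3, 4], [0, 1, 0, 2, 1, 3, 4],
    [0, 1, 0, 2, 3, 2, 4], [0, 1, 0, 2, 3, 4, 2], [0, 1, 2, 0, 1, 3, 4], [0, 1, 2, 0, 3, 1, 4],
    [0, 0, 0, 0, 1, 2, 3], [0, 0, 0, 1, 0, 2, 3], [0, 0, 0, 1, 1, 2, 3], [0, 0, 0, 1, 2, 1, 3],
    [0, 0, 0, 1, 2, 2, 3], [0, 0, 0, 1, 2, 3, 1], [0, 0, 1, 0, 0, 2, 3], [0, 0, 1, 0, 1, 2, 3],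
    [0, 0, 1, 0, 2, 0, 3], [0, 0, 1, 0, 2, 1, 3], [0, 0, 1, 0, 2, 2, 3], [0, 0, 1, 0, 2, 3, 1],
    [0, 0, 1, 0, 2, 3, 2], [0, 0, 1, 0, 2, 3, 3], [0, 0, 1, 1, 0, 2, 3], [0, 0, 1, 1, 2, 2, 3],
    [0, 0, 1, 1, 2, 3, 2], [0, 0, 1, 2, 0, 1, 3], [0, 0, 1, 2, 0, 2, 3], [0, 0, 1, 2, 0, 3, 1],
    [0, 0, 1, 2, 1, 2, 3], [0, 0, 1, 2, 1, 3, 1], [0, 0, 1, 2, 1, 3, 2], [0, 0, 1, 2, 2, 1, 3],
    [0, 0, 1, 2, 3, 1, 2], [0, 0, 1, 2, 3, 2, 1], [0, 1, 0, 1, 0, 2, 3], [0, 1, 0, 1, 2, 0, 3],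
    [0, 1, 0, 1, 2, 3, 2], [0, 1, 0, 2, 0, 1, 3], [0, 1, 0, 2, 1, 2, 3], [0, 1, 0, 2, 1, 3, 2],
    [0, 1, 2, 0, 1, 2, 3], [0, 0, 0, 0, 0, 1, 2], [0, 0, 0, 0, 1, 0, 2], [0, 0, 0, 0, 1, 1, 2],
    [0, 0, 0, 0, 1, 2, 1], [0, 0, 0, 1, 0, 0, 2], [0, 0, 0, 1, 0, 1, 2], [0, 0, 0, 1, 0, 2, 1],
    [0, 0, 0, 1, 0, 2, 2], [0, 0, 0, 1, 1, 1, 2], [0, 0, 0, 1, 1, 2, 1], [0, 0, 0, 1, 1, 2, 2],
    [0, 0, 0, 1, 2, 1, 2], [0, 0, 0, 1, 2, 2, 1], [0, 0, 1, 0, 0, 1, 2], [0, 0, 1, 0, 0, 2, 2],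
    [0, 0, 1, 0, 1, 0, 2], [0, 0, 1, 0, 1, 1, 2], [0, 0, 1, 0, 1, 2, 1], [0, 0, 1, 0, 1, 2, 2],
    [0, 0, 1, 0, 2, 0, 1], [0, 0, 1, 0, 2, 1, 1], [0, 0, 1, 0, 2, 1, 2], [0, 0, 1, 0, 2, 2, 1],
    [0, 0, 1, 1, 0, 2, 1], [0, 0, 1, 1, 0, 2, 2], [0, 0, 1, 2, 0, 1, 2], [0, 0, 1, 2, 0, 2, 1],
    [0, 0, 1, 2, 1, 2, 1], [0, 1, 0, 1, 0, 1, 2], [0, 1, 0, 1, 2, 0, 2], [0, 1, 0, 2, 0, 1, 2],
    [0, 0, 0, 0, 0, 0, 1], [0, 0, 0, 0, 0, 1, 1], [0, 0, 0, 0, 1, 0, 1], [0, 0, 0, 0, 1, 1, 1],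
    [0, 0, 0, 1, 0, 0, 1], [0, 0, 0, 1, 0, 1, 1], [0, 0, 1, 0, 0, 1, 1], [0, 0, 1, 0, 1, 0, 1],
    [0, 0, 0, 0, 0, 0, 0]]

/-- number of a class list -/
def encN (l : List ℕ) : ℕ := l.foldl (fun x y => 8 * x + y) 1

/-- the numbers of the classes -/
def tabN7 : List ℕ := [2139950, 2102501, 2131173, 2138341, 2097820, 2101404, 2101916, 2102300, 2102364, 2102428, 2102476, 2102484,
    2102497, 2130588, 2130972, 2131036, 2131156, 2131170, 2138204, 2138316, 2097235, 2097683, 2097747,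
    2097803, 2097811, 2097817, 2101267, 2101331, 2101379, 2101387, 2101395, 2101401, 2101402, 2101403,
    2101779, 2101907, 2101914, 2102283, 2102291, 2102297, 2102355, 2102361, 2102362, 2102411, 2102474,
    2102481, 2130451, 2130563, 2130586, 2130955, 2131027, 2131034, 2138195, 2097162, 2097218, 2097226,
    2097233, 2097666, 2097674, 2097681, 2097682, 2097738, 2097745, 2097746, 2097802, 2097809, 2101258,
    2101266, 2101314, 2101322, 2101329, 2101330, 2101377, 2101385, 2101386, 2101393, 2101777, 2101778,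
    2102282, 2102289, 2102353, 2130442, 2130562, 2130954, 2097153, 2097161, 2097217, 2097225, 2097665,
    2097673, 2101257, 2101313, 2097152]

/-- find the canonical classes of `p` -/
noncomputable def h7X (p : List ℕ) : Bool :=
  !h4I 7 p || (h4R 7).any fun x =>
    forceF (fun y => anyF (Nat.beq y) tabN7 && h4C7.any fun c => Nat.beq y (encN c) && h4T 7 p c x.1 x.2)
      (encN (h4N ((List.range 7).map fun k => p.getD (h4si 7 x.1 x.2 k) 0)))

theorem h7X_true : (h4P 7).all h7X = true := by decide +kernel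

private theorem CVE_any {α : Type} (g : α → Bool) (l : List α) : anyF g l = l.any g := by
  induction l with
  | nil => rfl
  | cons x l ih =>
    have h : anyF g (x :: l) = bif g x then true else anyF g l := rfl
    rw [h, ih]
    cases hx : g x <;> simp [hx]

private theorem CVE_force (f : ℕ → Bool) (t : ℕ) : forceF f t = f t := by
  cases t <;> rfl

theorem h7X_spec {p : List ℕ} (h : h7X p = true) (hI : h4I 7 p = true) :
    ∃ c ∈ h4C7, ∃ (r : Bool) (s : ℕ), s < 7 ∧ h4T 7 p c r s = true := by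
  unfold h7X at h
  rw [hI, Bool.not_true, Bool.false_or, List.any_eq_true] at h
  obtain ⟨⟨r, s⟩, hx1, h2⟩ := h
  rw [CVE_force, Bool.and_eq_true, List.any_eq_true] at h2
  obtain ⟨-, c, hc, h3⟩ := h2
  rw [Bool.and_eq_true] at h3
  have hs : s < 7 := by
    unfold h4R at hx1
    rw [List.mem_flatMap] at hx1
    obtain ⟨r', -, hr⟩ := hx1
    rw [List.mem_map] at hr
    obtain ⟨s', hs, he⟩ := hr
    rw [List.mem_range] at hs
    have : s' = s := congrArg Prod.snd he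
    omega
  exact ⟨c, hc, r, s, hs, h3.2⟩

/-- the word with the classes `c` (all arcs are sides) -/
def wS (c : List ℕ) : List ℕ := c.map fun x => 16 * x

variable {n : ℕ} {P : Polygon n}

private theorem CVE_rel (S : Arcs P 7) (hw : ∀ j, S.w j = 1) (j k : ZMod 7) (b : Bool) :
    S.Rel j k b ↔ P.len (S.κ j) = P.len (S.κ k) := by
  cases b
  · constructor
    · rintro ⟨-, h2, -⟩
      simpa using h2 0 (by rw [hw]; norm_num)
    · intro h
      refine ⟨by rw [hw, hw], fun t ht => ?_, fun t ht ht' => ?_⟩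
      · rw [hw] at ht
        have e : t = 0 := by omega
        rw [e]
        simpa using h
      · rw [hw] at ht'
        omega
  · constructor
    · rintro ⟨-, h2, -⟩
      simpa using h2 0 0 (by rw [hw])
    · intro h
      refine ⟨by rw [hw, hw], fun t s hts => ?_, fun t s ht hs hts => ?_⟩
      · rw [hw] at hts
        have e1 : t = 0 := by omega
        have e2 : s = 0 := by omega
        rw [e1, e2]
        simpa using h
      · rw [hw] at hts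
        omega

private theorem CVE_okL (x y : ℕ) (b : Bool) : okL (16 * x) (16 * y) b = true ↔ x = y := by
  unfold okL
  have e1 : Nat.div (16 * x) 16 = x := Nat.mul_div_cancel_left x (by norm_num)
  have e2 : Nat.div (16 * y) 16 = y := Nat.mul_div_cancel_left y (by norm_num)
  have e3 : Nat.mod (Nat.div (16 * x) 4) 4 = 0 := by
    change 16 * x / 4 % 4 = 0
    omega
  rw [e1, e2, e3]
  constructor
  · intro h
    by_contra hne
    have : Nat.beq x y = false := by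
      rw [Bool.eq_false_iff]
      intro h3
      exact hne (Nat.eq_of_beq_eq_true h3)
    rw [this, cond_false] at h
    exact absurd h (by decide)
  · intro h
    rw [h, Nat.beq_refl]
    rfl

theorem enumS7 (S : Arcs P 7) (hw : ∀ j, S.w j = 1) :
    ∃ c ∈ h4C7, ∃ (r : Bool) (s : ZMod 7), ∀ j k b,
      S.Rel (siS r s j) (siS r s k) b ↔ relT (wS c) j k b = true := by
  classical
  have hval : ∀ j : ZMod 7, ((j.val : ℕ) : ZMod 7) = j := fun j => ZMod.natCast_zmod_val j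
  have hlt : ∀ j : ZMod 7, j.val < 7 := fun j => ZMod.val_lt j
  let g : ZMod 7 → ℝ := fun j => P.len (S.κ j)
  have hex : ∀ j : ℕ, ∃ i : ℕ, g (i : ZMod 7) = g (j : ZMod 7) := fun j => ⟨j, rfl⟩
  let f : ℕ → ℕ := fun j => Nat.find (hex j)
  have hf1 : ∀ j, f j ≤ j := fun j => Nat.find_min' (hex j) rfl
  have hf2 : ∀ j, g (f j : ZMod 7) = g (j : ZMod 7) := fun j => Nat.find_spec (hex j)
  have hf3 : ∀ j k, f j = f k ↔ g (j : ZMod 7) = g (k : ZMod 7) := by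
    intro j k
    constructor
    · intro h
      rw [← hf2 j, ← hf2 k, h]
    · intro h
      refine le_antisymm (Nat.find_min' (hex j) ?_) (Nat.find_min' (hex k) ?_)
      · rw [h]; exact hf2 k
      · rw [← h]; exact hf2 j
  have hX1 := (List.all_eq_true.1 h7X_true) _ (h4_memP f 7 fun j _ => hf1 j)
  have hI : h4I 7 ((List.range 7).map f) = true := by
    unfold h4I
    rw [List.all_eq_true]
    intro j hj
    rw [List.mem_range] at hj
    rw [h4_getD f 7 0 hj, h4_getD f 7 0 ((hf1 j).trans_lt hj), beq_iff_eq, hf3]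
    exact hf2 j
  obtain ⟨c, hc, r, t, ht, hT⟩ := h7X_spec hX1 hI
  obtain ⟨s, hs⟩ : ∃ s : ZMod 7, s.val = t := ⟨(t : ZMod 7), ZMod.val_cast_of_lt ht⟩
  have hvs : ∀ (r : Bool) (s i : ZMod 7), (sgS r s i).val = h4s 7 r s.val i.val := by decide
  have hsi : ∀ (r : Bool) (s j : ZMod 7), sgS r s (siS r s j) = j := by decide
  have hlen : c.length = 7 := by
    have h0 : (h4C7.all fun c => c.length == 7) = true := by decide
    rw [List.all_eq_true] at h0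
    exact beq_iff_eq.1 (h0 c hc)
  refine ⟨c, hc, r, s, fun j k b => ?_⟩
  rw [CVE_rel S hw]
  have h1 := h4_T hT (hlt (siS r s j)) (hlt (siS r s k))
  rw [h4_getD f 7 0 (hlt _), h4_getD f 7 0 (hlt _), hf3, hval, hval, ← hs, ← hvs, ← hvs, hsi, hsi] at h1
  change g (siS r s j) = g (siS r s k) ↔ _
  rw [h1]
  unfold relT wS
  have e : ∀ x : ZMod 7, (c.map fun x => 16 * x).getD x.val 0 = 16 * c.getD x.val 0 := by
    intro x
    have hx : x.val < c.length := by rw [hlen]; exact hlt x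
    rw [List.getD_eq_getElem _ _ (by simpa using hx), List.getD_eq_getElem _ _ hx, List.getElem_map]
  rw [e, e, CVE_okL]

end Pool.Agent.Lib_MP_fa6e45
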