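import Pool.Agent.Lib_MP_fa6e45.CV0
import Pool.Agent.Lib_MP_fa6e45.CV1
import Pool.Agent.Lib_MP_fa6e45.CU1
import Pool.Agent.Lib_MP_fa6e45.Y4
import Pool.Agent.Lib_MP_fa6e45.W1
import Pool.Agent.Lib_MP_fa6e45.W2
import Pool.Agent.Lib_MP_fa6e45.HR

/-!
MP_fa6e45_co, stage 6, part V: polygons with seven corners (assembly, captain; the certificates are the hypothesis
`hcert`).
-/

open Set MeasureTheory Complex
open scoped Topology

namespace Pool.Agent.Lib_MP_fa6e45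

open Pool.Agent.Lib_PL (cr InSector Poly)

private theorem CV9_nil {m : ℕ} [NeZero m] (f : ZMod m → ℝ) :
    ∀ E ∈ ([] : List Eqn), Eqn.Holds E f := fun _ h => absurd h List.not_mem_nil

private theorem CV9_w {n : ℕ} {P : Polygon n} {m : ℕ} [NeZero m] (S : Arcs P m) (hm : m = n) :
    ∀ j, S.w j = 1 := by
  by_contra h
  push Not at h
  obtain ⟨j, hj⟩ := h
  have h1 := S.total
  have h2 : ∑ _i : ZMod m, 1 < ∑ i, S.w i :=
    Finset.sum_lt_sum (fun i _ => S.w_pos i)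
      ⟨j, Finset.mem_univ j, by have := S.w_pos j; omega⟩
  rw [h1, Finset.sum_const, Finset.card_univ, ZMod.card, smul_eq_mul, mul_one] at h2
  omega

theorem hept_ccw (P : Polygon 7) (hc : P.CCW) {ι : Type} (K : CombA 7 P.ang P.len ι)
    (hcert : ∀ c ∈ h4C7, NodeU 7 (wS c) []) : HasPeriodic P := by
  obtain ⟨m, hm, S, hm3, hcard, ⟨K'⟩⟩ := reduceU K Finset.univ
    (fun x => ⟨fun _ => Finset.mem_univ _, fun _ => Finset.mem_univ _⟩)
    (fun x hx => absurd (Finset.mem_univ _) hx)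
  rw [Finset.card_univ, ZMod.card] at hcard
  subst hcard
  obtain ⟨c, hcc, r, s, h⟩ := enumS7 S (CV9_w S rfl)
  obtain ⟨P', S', b, M, hp⟩ := sitU_of hc K' r s h
  exact hp (hcert c hcc P' S' b M (CV9_nil _) (CV9_nil _))

theorem main8_ccw (P : Polygon 7) (hc : P.CCW) {𝒮 : Set (Set ℂ)} (h : P.IsTiling 𝒮)
    (he : P.EdgeToEdge 𝒮) (hcert : ∀ c ∈ h4C7, NodeU 7 (wS c) []) :
    ∃ 𝒯 : Set (Set ℂ), P.IsTiling 𝒯 ∧ Periodic 𝒯 := by
  obtain ⟨T⟩ := exists_til P h he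
  obtain ⟨K, -⟩ := T.combA hc
  exact hept_ccw P hc K hcert

/-- a polygon with seven corners which admits an edge-to-edge tiling admits a periodic tiling -/
theorem main8_of (P : Polygon 7) {𝒮 : Set (Set ℂ)} (h : P.IsTiling 𝒮)
    (he : P.EdgeToEdge 𝒮) (hcert : ∀ c ∈ h4C7, NodeU 7 (wS c) []) :
    ∃ 𝒯 : Set (Set ℂ), P.IsTiling 𝒯 ∧ Periodic 𝒯 := by
  rcases P.ccw_or with hc | hc
  · exact main8_ccw P hc h he hcert
  have hT : ∀ 𝒯 : Set (Set ℂ), P.rev.IsTiling 𝒯 ↔ P.IsTiling 𝒯 := by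
    intro 𝒯
    constructor
    · rintro ⟨h1, h2, h3⟩
      exact ⟨fun t ht => by simpa only [P.rev_region] using h1 t ht, h2, h3⟩
    · rintro ⟨h1, h2, h3⟩
      exact ⟨fun t ht => by simpa only [P.rev_region] using h1 t ht, h2, h3⟩
  have hE : P.rev.EdgeToEdge 𝒮 := by
    intro g k hg hk i j
    rw [P.rev_region] at hg hk
    have h1 := he g k hg hk (-i) (-j - 1)
    rw [openSegment_symm] at h1
    have e1 : -j - 1 + 1 = -j := by ring
    have e2 : -(j + 1) = -j - 1 := by ring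
    rw [e1] at h1
    change g (P.vertex (-i)) ∉ openSegment ℝ (k (P.vertex (-j))) (k (P.vertex (-(j + 1))))
    rw [e2]
    exact h1
  obtain ⟨𝒯, h1, h2⟩ := main8_ccw P.rev hc ((hT 𝒮).2 h) hE hcert
  exact ⟨𝒯, (hT 𝒯).1 h1, h2⟩

end Pool.Agent.Lib_MP_fa6e45
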