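import Pool.Agent.Lib_MP_fa6e45.CV0
import Pool.Agent.Lib_MP_fa6e45.CX7

/-!
MP_fa6e45_co, stage 8: certificates for polygons with seven or eight corners: the nodes of `chkX` (CX0), the old nodes
are checked by `chkV` (CV0, with the closing check for sides in classes).
-/

open Set MeasureTheory Complex
open scoped Topology

namespace Pool.Agent.Lib_MP_fa6e45

/-- check of node `i` -/
noncomputable def chkY (m : ℕ) [NeZero m] (w : List ℕ) (tt : List TorT) (sy : List (Bool × ℕ × List ℕ))
    (D : ℕ → List Eqn) (i : ℕ) (N : XN) : Bool :=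
  match N with
    | XN.old N => chkV m w tt sy D i N
    | N => chkX m w tt sy D i N

/-- check of a certificate -/
noncomputable def chkYC (m : ℕ) [NeZero m] (tt : List TorT) (C : CertX) : Bool :=
  (C.w == decW m (encW C.w)) && C.sy.all (symT m C.w) && decide (0 < C.Ns.length) &&
    (blkF [] C.D (C.Ns.length - 1)).isEmpty && allI (chkY m C.w tt C.sy (blkF [] C.D)) C.Ns 0

variable {m : ℕ} [NeZero m] {n : ℕ}

theorem chkY_sound (hm : 3 ≤ m) (hm' : m ≤ 8) {w : List ℕ} {tt : List TorT}
    (htt : ∀ T ∈ tt, T.OK m) {sy : List (Bool × ℕ × List ℕ)} (hsy : ∀ g ∈ sy, symT m w g = true)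
    {D : ℕ → List Eqn} {i : ℕ} (hD : ∀ j < i, NodeU m w (D j)) {N : XN}
    (h : chkY m w tt sy D i N = true) : NodeU m w (D i) := by
  intro n P S b M ha hb
  cases N with
  | old N => exact chkV_sound hm hm' htt hsy hD h P S b M ha hb
  | lp v φ V0 Am L fuel rows GS T r ω ρ cvs ch =>
    exact chkX_sound (N := XN.lp v φ V0 Am L fuel rows GS T r ω ρ cvs ch) hm hm' htt hsy hD h
      P S b M ha hb
  | geo bd d f lin cs s1 s2 tr pts =>
    exact chkX_sound (N := XN.geo bd d f lin cs s1 s2 tr pts) hm hm' htt hsy hD h P S b M ha hb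

private theorem CVX_allI {α : Type} {g : ℕ → α → Bool} {l : List α} {i0 : ℕ}
    (h : allI g l i0 = true) (j : ℕ) (hj : j < l.length) : g (i0 + j) l[j] = true := by
  induction l generalizing i0 j with
  | nil => exact absurd hj (by simp)
  | cons x l ih =>
    have h' : (bif g i0 x then allI g l (Nat.succ i0) else false) = true := h
    cases hx : g i0 x
    · rw [hx] at h'
      exact absurd h' (by simp)
    · rw [hx, cond_true] at h'
      cases j with
      | zero => simpa using hx
      | succ j =>
        have h2 := ih h' j (by simpa using hj)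
        rw [show i0 + (j + 1) = Nat.succ i0 + j by omega]
        simpa using h2

theorem chkYC_sound (hm : 3 ≤ m) (hm' : m ≤ 8) {tt : List TorT} (htt : ∀ T ∈ tt, T.OK m)
    {C : CertX} (h : chkYC m tt C = true) :
    C.w = decW m (encW C.w) ∧ NodeU m C.w [] := by
  unfold chkYC at h
  simp only [Bool.and_eq_true, beq_iff_eq, List.all_eq_true, decide_eq_true_eq,
    List.isEmpty_iff] at h
  obtain ⟨⟨⟨⟨h1, h2⟩, h3⟩, h4⟩, h5⟩ := h
  refine ⟨h1, ?_⟩
  have key : ∀ i, i < C.Ns.length → NodeU m C.w (blkF [] C.D i) := by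
    intro i
    induction i using Nat.strong_induction_on with
    | _ i ih =>
      intro hi
      have h6 := CVX_allI h5 i hi
      rw [Nat.zero_add] at h6
      intro n P S b M ha hb
      exact chkY_sound hm hm' htt h2 (fun j hj => ih j hj (by omega)) h6 P S b M ha hb
  intro n P S b M ha hb
  refine key (C.Ns.length - 1) (by omega) P S b M ?_ ?_
  · rw [h4]
    exact ha
  · rw [h4]
    exact hb

end Pool.Agent.Lib_MP_fa6e45
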