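import Pool.Agent.Lib_MP_fa6e45.CE2
import Pool.Agent.Lib_MP_fa6e45.CW1

/-!
MP_fa6e45_co, stage 6, part W: enumeration of the side classes of polygons with three, four, five and six corners.
-/

open Set MeasureTheory Complex
open scoped Topology

namespace Pool.Agent.Lib_MP_fa6e45

private theorem CW3_spec {m : ℕ} {cs : List (List ℕ)} {p : List ℕ} (h : h4X m cs p = true)
    (hI : h4I m p = true) : ∃ c ∈ cs, ∃ (r : Bool) (s : ℕ), s < m ∧ h4T m p c r s = true := by
  unfold h4X at h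
  rw [hI, Bool.not_true, Bool.false_or, List.any_eq_true] at h
  obtain ⟨⟨r, s⟩, hx1, h2⟩ := h
  rw [List.any_eq_true] at h2
  obtain ⟨c, hc, h3⟩ := h2
  rw [Bool.and_eq_true] at h3
  have hs : s < m := by
    unfold h4R at hx1
    rw [List.mem_flatMap] at hx1
    obtain ⟨r', -, hr⟩ := hx1
    rw [List.mem_map] at hr
    obtain ⟨s', hs, he⟩ := hr
    rw [List.mem_range] at hs
    have : s' = s := congrArg Prod.snd he
    omega
  exact ⟨c, hc, r, s, hs, h3.2⟩

variable {n : ℕ} {P : Polygon n}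

theorem enumS_gen {m : ℕ} [NeZero m] {cs : List (List ℕ)} (hX : (h4P m).all (h4X m cs) = true)
    (hlen : (cs.all fun c => c.length == m) = true)
    (hvs : ∀ (r : Bool) (s i : ZMod m), (sgS r s i).val = h4s m r s.val i.val)
    (hsi : ∀ (r : Bool) (s j : ZMod m), sgS r s (siS r s j) = j)
    (S : Arcs P m) (hw : ∀ j, S.w j = 1) :
    ∃ c ∈ cs, ∃ (r : Bool) (s : ZMod m), ∀ j k b,
      S.Rel (siS r s j) (siS r s k) b ↔ relT (wS c) j k b = true := by
  classical
  have hval : ∀ j : ZMod m, ((j.val : ℕ) : ZMod m) = j := fun j => ZMod.natCast_zmod_val j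
  have hlt : ∀ j : ZMod m, j.val < m := fun j => ZMod.val_lt j
  let g : ZMod m → ℝ := fun j => P.len (S.κ j)
  have hex : ∀ j : ℕ, ∃ i : ℕ, g (i : ZMod m) = g (j : ZMod m) := fun j => ⟨j, rfl⟩
  let f : ℕ → ℕ := fun j => Nat.find (hex j)
  have hf1 : ∀ j, f j ≤ j := fun j => Nat.find_min' (hex j) rfl
  have hf2 : ∀ j, g (f j : ZMod m) = g (j : ZMod m) := fun j => Nat.find_spec (hex j)
  have hf3 : ∀ j k, f j = f k ↔ g (j : ZMod m) = g (k : ZMod m) := by
    intro j k
    constructor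
    · intro h
      rw [← hf2 j, ← hf2 k, h]
    · intro h
      refine le_antisymm (Nat.find_min' (hex j) ?_) (Nat.find_min' (hex k) ?_)
      · rw [h]; exact hf2 k
      · rw [← h]; exact hf2 j
  have hX1 := (List.all_eq_true.1 hX) _ (h4_memP f m fun j _ => hf1 j)
  have hI : h4I m ((List.range m).map f) = true := by
    unfold h4I
    rw [List.all_eq_true]
    intro j hj
    rw [List.mem_range] at hj
    rw [h4_getD f m 0 hj, h4_getD f m 0 ((hf1 j).trans_lt hj), beq_iff_eq, hf3]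
    exact hf2 j
  obtain ⟨c, hc, r, t, ht, hT⟩ := CW3_spec hX1 hI
  obtain ⟨s, hs⟩ : ∃ s : ZMod m, s.val = t := ⟨(t : ZMod m), ZMod.val_cast_of_lt ht⟩
  have hl : c.length = m := by
    rw [List.all_eq_true] at hlen
    exact beq_iff_eq.1 (hlen c hc)
  refine ⟨c, hc, r, s, fun j k b => ?_⟩
  rw [wS_rel S hw]
  have h1 := h4_T hT (hlt (siS r s j)) (hlt (siS r s k))
  rw [h4_getD f m 0 (hlt _), h4_getD f m 0 (hlt _), hf3, hval, hval, ← hs, ← hvs, ← hvs, hsi, hsi] at h1
  change g (siS r s j) = g (siS r s k) ↔ _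
  rw [h1]
  unfold relT wS
  have e : ∀ x : ZMod m, (c.map fun x => 16 * x).getD x.val 0 = 16 * c.getD x.val 0 := by
    intro x
    have hx : x.val < c.length := by rw [hl]; exact hlt x
    rw [List.getD_eq_getElem _ _ (by simpa using hx), List.getD_eq_getElem _ _ hx, List.getElem_map]
  rw [e, e, wS_okL]

theorem enumS3 (S : Arcs P 3) (hw : ∀ j, S.w j = 1) :
    ∃ c ∈ h4C3, ∃ (r : Bool) (s : ZMod 3), ∀ j k b,
      S.Rel (siS r s j) (siS r s k) b ↔ relT (wS c) j k b = true :=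
  enumS_gen h4X3 (by decide) (by decide) (by decide) S hw

theorem enumS4 (S : Arcs P 4) (hw : ∀ j, S.w j = 1) :
    ∃ c ∈ h4C4, ∃ (r : Bool) (s : ZMod 4), ∀ j k b,
      S.Rel (siS r s j) (siS r s k) b ↔ relT (wS c) j k b = true :=
  enumS_gen h4X4 (by decide) (by decide) (by decide) S hw

theorem enumS5 (S : Arcs P 5) (hw : ∀ j, S.w j = 1) :
    ∃ c ∈ h4C5, ∃ (r : Bool) (s : ZMod 5), ∀ j k b,
      S.Rel (siS r s j) (siS r s k) b ↔ relT (wS c) j k b = true :=
  enumS_gen h4X5 (by decide) (by decide) (by decide) S hw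

theorem enumS6 (S : Arcs P 6) (hw : ∀ j, S.w j = 1) :
    ∃ c ∈ h4C6, ∃ (r : Bool) (s : ZMod 6), ∀ j k b,
      S.Rel (siS r s j) (siS r s k) b ↔ relT (wS c) j k b = true :=
  enumS_gen h4X6 (by decide) (by decide) (by decide) S hw

end Pool.Agent.Lib_MP_fa6e45
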