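import Pool.Agent.Lib_MP_fa6e45.CU1
import Pool.Agent.Lib_MP_fa6e45.CU3
import Pool.Agent.Lib_MP_fa6e45.CU7
import Pool.Agent.Lib_MP_fa6e45.CW3
import Pool.Agent.Lib_MP_fa6e45.Y4
import Pool.Agent.Lib_MP_fa6e45.W1
import Pool.Agent.Lib_MP_fa6e45.W2

/-!
MP_fa6e45_co, stage 6, part W: polygons with at most eight corners (assembly; the certificates are the hypotheses
`c3`, ..., `c8`: every canonical list of side classes is a node without equations).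
-/

open Set MeasureTheory Complex
open scoped Topology

namespace Pool.Agent.Lib_MP_fa6e45

open Pool.Agent.Lib_PL (cr InSector Poly)

/-- every polygon with `n` corners has one of the class lists `cs`, up to symmetry -/
def EnumS (n : ℕ) [NeZero n] (cs : List (List ℕ)) : Prop :=
  ∀ (P : Polygon n) (S : Arcs P n), (∀ j, S.w j = 1) → ∃ c ∈ cs, ∃ (r : Bool) (s : ZMod n), ∀ j k b,
    S.Rel (siS r s j) (siS r s k) b ↔ relT (wS c) j k b = true

private theorem CW36_nil {m : ℕ} [NeZero m] (f : ZMod m → ℝ) :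
    ∀ E ∈ ([] : List Eqn), Eqn.Holds E f := fun _ h => absurd h List.not_mem_nil

private theorem CW36_w {n : ℕ} {P : Polygon n} {m : ℕ} [NeZero m] (S : Arcs P m) (hm : m = n) :
    ∀ j, S.w j = 1 := by
  by_contra h
  push Not at h
  obtain ⟨j, hj⟩ := h
  have h1 := S.total
  have h2 : ∑ _i : ZMod m, 1 < ∑ i, S.w i :=
    Finset.sum_lt_sum (fun i _ => S.w_pos i)
      ⟨j, Finset.mem_univ j, by have := S.w_pos j; omega⟩
  rw [h1, Finset.sum_const, Finset.card_univ, ZMod.card, smul_eq_mul, mul_one] at h2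
  omega

theorem polyS_ccw {n : ℕ} [NeZero n] {cs : List (List ℕ)} (henum : EnumS n cs) (P : Polygon n)
    (hc : P.CCW) {ι : Type} (K : CombA n P.ang P.len ι) (hcert : ∀ c ∈ cs, NodeU n (wS c) []) :
    HasPeriodic P := by
  obtain ⟨m, hm, S, hm3, hcard, ⟨K'⟩⟩ := reduceU K Finset.univ
    (fun x => ⟨fun _ => Finset.mem_univ _, fun _ => Finset.mem_univ _⟩)
    (fun x hx => absurd (Finset.mem_univ _) hx)
  rw [Finset.card_univ, ZMod.card] at hcard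
  subst hcard
  obtain ⟨c, hcc, r, s, h⟩ := henum P S (CW36_w S rfl)
  obtain ⟨P', S', b, M, hp⟩ := sitU_of hc K' r s h
  exact hp (hcert c hcc P' S' b M (CW36_nil _) (CW36_nil _))

theorem mainS_ccw {n : ℕ} [NeZero n] {cs : List (List ℕ)} (henum : EnumS n cs) (P : Polygon n)
    (hc : P.CCW) {𝒮 : Set (Set ℂ)} (h : P.IsTiling 𝒮) (he : P.EdgeToEdge 𝒮)
    (hcert : ∀ c ∈ cs, NodeU n (wS c) []) : ∃ 𝒯 : Set (Set ℂ), P.IsTiling 𝒯 ∧ Periodic 𝒯 := by
  obtain ⟨T⟩ := exists_til P h he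
  obtain ⟨K, -⟩ := T.combA hc
  exact polyS_ccw henum P hc K hcert

/-- a polygon with `n` corners which admits an edge-to-edge tiling admits a periodic tiling -/
theorem mainS_of {n : ℕ} [NeZero n] {cs : List (List ℕ)} (henum : EnumS n cs) (P : Polygon n)
    {𝒮 : Set (Set ℂ)} (h : P.IsTiling 𝒮) (he : P.EdgeToEdge 𝒮)
    (hcert : ∀ c ∈ cs, NodeU n (wS c) []) : ∃ 𝒯 : Set (Set ℂ), P.IsTiling 𝒯 ∧ Periodic 𝒯 := by
  rcases P.ccw_or with hc | hc
  · exact mainS_ccw henum P hc h he hcert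
  have hT : ∀ 𝒯 : Set (Set ℂ), P.rev.IsTiling 𝒯 ↔ P.IsTiling 𝒯 := by
    intro 𝒯
    constructor
    · rintro ⟨h1, h2, h3⟩
      exact ⟨fun t ht => by simpa only [P.rev_region] using h1 t ht, h2, h3⟩
    · rintro ⟨h1, h2, h3⟩
      exact ⟨fun t ht => by simpa only [P.rev_region] using h1 t ht, h2, h3⟩
  have hE : P.rev.EdgeToEdge 𝒮 := by
    intro g k hg hk i j
    rw [P.rev_region] at hg hk
    have h1 := he g k hg hk (-i) (-j - 1)
    rw [openSegment_symm] at h1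
    have e1 : -j - 1 + 1 = -j := by ring
    have e2 : -(j + 1) = -j - 1 := by ring
    rw [e1] at h1
    change g (P.vertex (-i)) ∉ openSegment ℝ (k (P.vertex (-j))) (k (P.vertex (-(j + 1))))
    rw [e2]
    exact h1
  obtain ⟨𝒯, h1, h2⟩ := mainS_ccw henum P.rev hc ((hT 𝒮).2 h) hE hcert
  exact ⟨𝒯, (hT 𝒯).1 h1, h2⟩

/-- at most seven corners -/
theorem upTo7 (c3 : ∀ c ∈ h4C3, NodeU 3 (wS c) []) (c4 : ∀ c ∈ h4C4, NodeU 4 (wS c) [])
    (c5 : ∀ c ∈ h4C5, NodeU 5 (wS c) []) (c6 : ∀ c ∈ h4C6, NodeU 6 (wS c) [])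
    (c7 : ∀ c ∈ h4C7, NodeU 7 (wS c) []) {n : ℕ} (hn : n ≤ 7) (P : Polygon n) {𝒮 : Set (Set ℂ)}
    (h : P.IsTiling 𝒮) (he : P.EdgeToEdge 𝒮) :
    ∃ 𝒯 : Set (Set ℂ), P.IsTiling 𝒯 ∧ Periodic 𝒯 := by
  have h3 := P.three_le
  have hcases : n = 3 ∨ n = 4 ∨ n = 5 ∨ n = 6 ∨ n = 7 := by omega
  rcases hcases with rfl | rfl | rfl | rfl | rfl
  · exact mainS_of (fun P S hw => enumS3 S hw) P h he c3
  · exact mainS_of (fun P S hw => enumS4 S hw) P h he c4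
  · exact mainS_of (fun P S hw => enumS5 S hw) P h he c5
  · exact mainS_of (fun P S hw => enumS6 S hw) P h he c6
  · exact mainS_of (fun P S hw => enumS7 S hw) P h he c7

/-- at most eight corners -/
theorem upTo8 (c3 : ∀ c ∈ h4C3, NodeU 3 (wS c) []) (c4 : ∀ c ∈ h4C4, NodeU 4 (wS c) [])
    (c5 : ∀ c ∈ h4C5, NodeU 5 (wS c) []) (c6 : ∀ c ∈ h4C6, NodeU 6 (wS c) [])
    (c7 : ∀ c ∈ h4C7, NodeU 7 (wS c) []) (c8 : ∀ c ∈ h4C8, NodeU 8 (wS c) []) {n : ℕ} (hn : n ≤ 8)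
    (P : Polygon n) {𝒮 : Set (Set ℂ)} (h : P.IsTiling 𝒮) (he : P.EdgeToEdge 𝒮) :
    ∃ 𝒯 : Set (Set ℂ), P.IsTiling 𝒯 ∧ Periodic 𝒯 := by
  rcases Nat.lt_or_ge n 8 with h7 | h7
  · exact upTo7 c3 c4 c5 c6 c7 (by omega) P h he
  have h8 : n = 8 := by omega
  subst h8
  exact mainS_of (fun P S hw => enumS8 S hw) P h he c8

end Pool.Agent.Lib_MP_fa6e45
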