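import Pool.Agent.Lib_MP_fa6e45.CW36

/-!
MP_fa6e45_co, stage 6, part W: variants of CW36 in which the certificate of the class list with all sides in one
class is not needed (for polygons which have two sides of different lengths).
-/

open Set MeasureTheory Complex
open scoped Topology

namespace Pool.Agent.Lib_MP_fa6e45

private theorem CW37_nil {m : ℕ} [NeZero m] (f : ZMod m → ℝ) :
    ∀ E ∈ ([] : List Eqn), Eqn.Holds E f := fun _ h => absurd h List.not_mem_nil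

private theorem CW37_w {n : ℕ} {P : Polygon n} {m : ℕ} [NeZero m] (S : Arcs P m) (hm : m = n) :
    ∀ j, S.w j = 1 := by
  by_contra h
  push Not at h
  obtain ⟨j, hj⟩ := h
  have h1 := S.total
  have h2 : ∑ _i : ZMod m, 1 < ∑ i, S.w i :=
    Finset.sum_lt_sum (fun i _ => S.w_pos i)
      ⟨j, Finset.mem_univ j, by have := S.w_pos j; omega⟩
  rw [h1, Finset.sum_const, Finset.card_univ, ZMod.card, smul_eq_mul, mul_one] at h2
  omega

private theorem CW37_getD (c : List ℕ) (hc : ∀ x ∈ c, x = 0) (i : ℕ) : (wS c).getD i 0 = 0 := by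
  induction c generalizing i with
  | nil => simp [wS]
  | cons a c ih =>
    have ha : a = 0 := hc a List.mem_cons_self
    subst ha
    cases i with
    | zero => simp [wS]
    | succ i =>
      have h1 := ih (fun x hx => hc x (List.mem_cons_of_mem _ hx)) i
      simpa [wS] using h1

private theorem CW37_rel {m : ℕ} (c : List ℕ) (hc : ∀ x ∈ c, x = 0) (j k : ZMod m) :
    relT (wS c) j k false = true := by
  rw [relT, CW37_getD c hc, CW37_getD c hc]
  decide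

/-- if the class list has only zeros, all sides have the same length -/
private theorem CW37_len {n : ℕ} [NeZero n] {P : Polygon n} (S : Arcs P n) (hw : ∀ j, S.w j = 1)
    {c : List ℕ} (hc : ∀ x ∈ c, x = 0) {r : Bool} {s : ZMod n}
    (h : ∀ j k b, S.Rel (siS r s j) (siS r s k) b ↔ relT (wS c) j k b = true) (i i' : ZMod n) :
    P.len i = P.len i' := by
  have hκ : ∀ k : ℕ, S.κ (k : ZMod n) = S.κ 0 + (k : ZMod n) := by
    intro k
    induction k with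
    | zero => simp
    | succ k ih => rw [Nat.cast_succ, S.step, ih, hw, Nat.cast_one, add_assoc]
  have hκ' : ∀ j : ZMod n, S.κ j = S.κ 0 + j := by
    intro j
    have := hκ j.val
    rwa [ZMod.natCast_zmod_val] at this
  have hs : ∀ a : ZMod n, ∃ j, siS r s j = a := by
    intro a
    cases r
    · exact ⟨a + s, by simp [siS]⟩
    · exact ⟨s - 1 - a, by simp [siS]⟩
  have key : ∀ a a' : ZMod n, P.len (S.κ a) = P.len (S.κ a') := by
    intro a a'
    obtain ⟨j, rfl⟩ := hs a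
    obtain ⟨k, rfl⟩ := hs a'
    have h1 := (h j k false).2 (CW37_rel c hc j k)
    obtain ⟨-, h2, -⟩ := h1
    simpa using h2 0 (by rw [hw]; norm_num)
  have h1 := key (i - S.κ 0) (i' - S.κ 0)
  rwa [hκ', hκ' (i' - S.κ 0), add_sub_cancel, add_sub_cancel] at h1

theorem polyS_ne_ccw {n : ℕ} [NeZero n] {cs : List (List ℕ)} (henum : EnumS n cs) (P : Polygon n)
    (hc : P.CCW) {ι : Type} (K : CombA n P.ang P.len ι) (hne : ∃ i j, P.len i ≠ P.len j)
    (hcert : ∀ c ∈ cs, (∃ x ∈ c, x ≠ 0) → NodeU n (wS c) []) : HasPeriodic P := by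
  obtain ⟨m, hm, S, hm3, hcard, ⟨K'⟩⟩ := reduceU K Finset.univ
    (fun x => ⟨fun _ => Finset.mem_univ _, fun _ => Finset.mem_univ _⟩)
    (fun x hx => absurd (Finset.mem_univ _) hx)
  rw [Finset.card_univ, ZMod.card] at hcard
  subst hcard
  have hw := CW37_w S rfl
  obtain ⟨c, hcc, r, s, h⟩ := henum P S hw
  have hx : ∃ x ∈ c, x ≠ 0 := by
    by_contra hx
    push Not at hx
    obtain ⟨i, j, hij⟩ := hne
    exact hij (CW37_len S hw hx h i j)
  obtain ⟨P', S', b, M, hp⟩ := sitU_of hc K' r s h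
  exact hp (hcert c hcc hx P' S' b M (CW37_nil _) (CW37_nil _))

theorem mainS_ne_ccw {n : ℕ} [NeZero n] {cs : List (List ℕ)} (henum : EnumS n cs) (P : Polygon n)
    (hc : P.CCW) {𝒮 : Set (Set ℂ)} (h : P.IsTiling 𝒮) (he : P.EdgeToEdge 𝒮)
    (hne : ∃ i j, P.len i ≠ P.len j)
    (hcert : ∀ c ∈ cs, (∃ x ∈ c, x ≠ 0) → NodeU n (wS c) []) :
    ∃ 𝒯 : Set (Set ℂ), P.IsTiling 𝒯 ∧ Periodic 𝒯 := by
  obtain ⟨T⟩ := exists_til P h he
  obtain ⟨K, -⟩ := T.combA hc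
  exact polyS_ne_ccw henum P hc K hne hcert

/-- a polygon with `n` corners, not all sides equal, which admits an edge-to-edge tiling admits a periodic
tiling; the certificate of the class list with one class is not needed -/
theorem mainS_ne {n : ℕ} [NeZero n] {cs : List (List ℕ)} (henum : EnumS n cs) (P : Polygon n)
    {𝒮 : Set (Set ℂ)} (h : P.IsTiling 𝒮) (he : P.EdgeToEdge 𝒮) (hne : ∃ i j, P.len i ≠ P.len j)
    (hcert : ∀ c ∈ cs, (∃ x ∈ c, x ≠ 0) → NodeU n (wS c) []) :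
    ∃ 𝒯 : Set (Set ℂ), P.IsTiling 𝒯 ∧ Periodic 𝒯 := by
  rcases P.ccw_or with hc | hc
  · exact mainS_ne_ccw henum P hc h he hne hcert
  have hT : ∀ 𝒯 : Set (Set ℂ), P.rev.IsTiling 𝒯 ↔ P.IsTiling 𝒯 := by
    intro 𝒯
    constructor
    · rintro ⟨h1, h2, h3⟩
      exact ⟨fun t ht => by simpa only [P.rev_region] using h1 t ht, h2, h3⟩
    · rintro ⟨h1, h2, h3⟩
      exact ⟨fun t ht => by simpa only [P.rev_region] using h1 t ht, h2, h3⟩
  have hE : P.rev.EdgeToEdge 𝒮 := by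
    intro g k hg hk i j
    rw [P.rev_region] at hg hk
    have h1 := he g k hg hk (-i) (-j - 1)
    rw [openSegment_symm] at h1
    have e1 : -j - 1 + 1 = -j := by ring
    have e2 : -(j + 1) = -j - 1 := by ring
    rw [e1] at h1
    change g (P.vertex (-i)) ∉ openSegment ℝ (k (P.vertex (-j))) (k (P.vertex (-(j + 1))))
    rw [e2]
    exact h1
  have hne' : ∃ i j, P.rev.len i ≠ P.rev.len j := by
    obtain ⟨i, j, hij⟩ := hne
    refine ⟨-i - 1, -j - 1, ?_⟩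
    rw [P.rev_len, P.rev_len]
    have e : ∀ a : ZMod n, -(-a - 1) - 1 = a := fun a => by ring
    rwa [e, e]
  obtain ⟨𝒯, h1, h2⟩ := mainS_ne_ccw henum P.rev hc ((hT 𝒮).2 h) hE hne' hcert
  exact ⟨𝒯, (hT 𝒯).1 h1, h2⟩

/-- at most seven corners; for seven corners not all sides equal -/
theorem upTo7n (c3 : ∀ c ∈ h4C3, NodeU 3 (wS c) []) (c4 : ∀ c ∈ h4C4, NodeU 4 (wS c) [])
    (c5 : ∀ c ∈ h4C5, NodeU 5 (wS c) []) (c6 : ∀ c ∈ h4C6, NodeU 6 (wS c) [])
    (c7 : ∀ c ∈ h4C7, (∃ x ∈ c, x ≠ 0) → NodeU 7 (wS c) []) {n : ℕ} (hn : n ≤ 7) (P : Polygon n)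
    (hq : n = 7 → ∃ i j, P.len i ≠ P.len j) {𝒮 : Set (Set ℂ)}
    (h : P.IsTiling 𝒮) (he : P.EdgeToEdge 𝒮) :
    ∃ 𝒯 : Set (Set ℂ), P.IsTiling 𝒯 ∧ Periodic 𝒯 := by
  have h3 := P.three_le
  have hcases : n = 3 ∨ n = 4 ∨ n = 5 ∨ n = 6 ∨ n = 7 := by omega
  rcases hcases with rfl | rfl | rfl | rfl | rfl
  · exact mainS_of (fun P S hw => enumS3 S hw) P h he c3
  · exact mainS_of (fun P S hw => enumS4 S hw) P h he c4
  · exact mainS_of (fun P S hw => enumS5 S hw) P h he c5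
  · exact mainS_of (fun P S hw => enumS6 S hw) P h he c6
  · exact mainS_ne (fun P S hw => enumS7 S hw) P h he (hq rfl) c7

/-- at most eight corners; for seven and eight corners not all sides equal -/
theorem upTo8n (c3 : ∀ c ∈ h4C3, NodeU 3 (wS c) []) (c4 : ∀ c ∈ h4C4, NodeU 4 (wS c) [])
    (c5 : ∀ c ∈ h4C5, NodeU 5 (wS c) []) (c6 : ∀ c ∈ h4C6, NodeU 6 (wS c) [])
    (c7 : ∀ c ∈ h4C7, (∃ x ∈ c, x ≠ 0) → NodeU 7 (wS c) [])
    (c8 : ∀ c ∈ h4C8, (∃ x ∈ c, x ≠ 0) → NodeU 8 (wS c) []) {n : ℕ} (hn : n ≤ 8)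
    (P : Polygon n) (hq : 7 ≤ n → ∃ i j, P.len i ≠ P.len j) {𝒮 : Set (Set ℂ)} (h : P.IsTiling 𝒮)
    (he : P.EdgeToEdge 𝒮) : ∃ 𝒯 : Set (Set ℂ), P.IsTiling 𝒯 ∧ Periodic 𝒯 := by
  rcases Nat.lt_or_ge n 8 with h7 | h7
  · exact upTo7n c3 c4 c5 c6 c7 (by omega) P (fun e => hq (by omega)) h he
  have h8 : n = 8 := by omega
  subst h8
  exact mainS_ne (fun P S hw => enumS8 S hw) P h he (hq (by norm_num)) c8

/-- at most eight corners; for eight corners not all sides equal -/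
theorem upTo8m (c3 : ∀ c ∈ h4C3, NodeU 3 (wS c) []) (c4 : ∀ c ∈ h4C4, NodeU 4 (wS c) [])
    (c5 : ∀ c ∈ h4C5, NodeU 5 (wS c) []) (c6 : ∀ c ∈ h4C6, NodeU 6 (wS c) [])
    (c7 : ∀ c ∈ h4C7, NodeU 7 (wS c) [])
    (c8 : ∀ c ∈ h4C8, (∃ x ∈ c, x ≠ 0) → NodeU 8 (wS c) []) {n : ℕ} (hn : n ≤ 8)
    (P : Polygon n) (hq : n = 8 → ∃ i j, P.len i ≠ P.len j) {𝒮 : Set (Set ℂ)} (h : P.IsTiling 𝒮)
    (he : P.EdgeToEdge 𝒮) : ∃ 𝒯 : Set (Set ℂ), P.IsTiling 𝒯 ∧ Periodic 𝒯 := by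
  rcases Nat.lt_or_ge n 8 with h7 | h7
  · exact upTo7 c3 c4 c5 c6 c7 (by omega) P h he
  have h8 : n = 8 := by omega
  subst h8
  exact mainS_ne (fun P S hw => enumS8 S hw) P h he (hq rfl) c8

end Pool.Agent.Lib_MP_fa6e45
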