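import Pool.Agent.Lib_MP_fa6e45.CT5
import Pool.Agent.Lib_MP_fa6e45.CXT

/-!
MP_fa6e45_co, stage 7: tori for m = 4 (found by computer) and the proof that they give periodic tilings.
-/

namespace Pool.Agent.Lib_MP_fa6e45

/-- the torus -/
def ttU4_0 : TT where
  k := 2
  rf := [false, false]
  tau := [5, 6, 7, 4, 3, 0, 1, 2]
  par := [0, 0]
  stars := [[0, 4, 2, 6], [1, 5, 3, 7]]
  word := [[], [3, 0], [0], [2], [3], [], [1, 2], [1]]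
  rank := [0, 1, 0, 0, 0, 0, 1, 0]
  just := [0, 1, 0, 0, 0, 0, 1, 0]
  gA := 2
  gB := 3
  fin := 0
  sid := [0, 1, 0, 1, 0, 1, 0, 1]
  off := [(0, 0), (0, 0), (1, -1), (0, 1), (0, -1), (0, 0), (0, 0), (-1, 1)]

theorem torU4_0_ok : torU4_0.OK 4 := TT.leaf_ok (T := ttU4_0) (by decide +kernel)

/-- the torus -/
def ttU4_1 : TT where
  k := 4
  rf := [false, false, true, true]
  tau := [5, 6, 11, 10, 15, 0, 1, 12, 13, 14, 3, 2, 7, 8, 9, 4]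
  par := [0, 0, 2, 4]
  stars := [[0, 11, 2, 6], [1, 5, 12, 7], [3, 8, 14, 10], [4, 13, 9, 15]]
  word := [[], [1, 2], [], [0, 3], [], [], [3, 0], [3, 0], [0], [2], [2, 1], [], [1, 2], [1], [3], []]
  rank := [0, 2, 0, 1, 0, 0, 2, 1, 0, 0, 1, 0, 1, 0, 0, 0]
  just := [0, 1, 0, 2, 0, 0, 1, 3, 0, 0, 2, 0, 3, 0, 0, 0]
  gA := 8
  gB := 9
  fin := 0
  sid := [0, 1, 0, 2, 3, 1, 0, 1, 2, 3, 2, 0, 1, 3, 2, 3]
  off := [(0, 0), (0, 0), (-1, 1), (0, 0), (0, 0), (0, 0), (0, 0), (1, -1), (0, 0), (0, 1), (-1, 1), (-1, 1),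
    (0, 0), (-1, 1), (-1, 0), (0, 0)]

theorem torU4_1_ok : torU4_1.OK 4 := TT.leaf_ok (T := ttU4_1) (by decide +kernel)

/-- the torus -/
def ttU4_2 : TT where
  k := 12
  rf := [false, false, false, true, true, false, true, true, false, true, true, false]
  tau := [5, 8, 15, 16, 21, 0, 27, 28, 1, 32, 39, 40, 47, 30, 41, 2, 3, 26, 37, 46, 45, 4, 43, 36, 35, 38, 17,
    6, 7, 42, 13, 34, 9, 44, 31, 24, 23, 18, 25, 10, 11, 14, 29, 22, 33, 20, 19, 12]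
  par := [0, 0, 1, 2, 3, 4, 6, 7, 9, 10, 11, 12]
  stars := [[0, 17, 27, 6], [1, 5, 21, 45, 33, 9], [2, 8, 41, 15], [3, 12, 47, 16], [4, 29, 43, 22], [7, 24,
    35, 28], [10, 32, 25, 39], [11, 36, 23, 40], [13, 31, 34, 44], [14, 42, 30], [18, 38, 26], [19, 46, 20, 37]]
  word := [[], [], [], [], [], [], [], [], [], [], [], [], [], [1], [], [], [], [1, 2, 0, 3], [1, 2, 0], [],
    [3, 0], [], [0], [0], [2], [2], [2, 1, 3, 0], [], [], [0], [0], [2], [], [3, 0], [3], [3], [1], [1, 3, 0],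
    [3], [], [], [], [1], [1], [1, 2], [1, 2], [], []]
  rank := [0, 0, 0, 0, 0, 0, 0, 0, 0, 0, 0, 0, 0, 2, 1, 0, 0, 6, 5, 1, 4, 0, 1, 2, 1, 2, 6, 0, 0, 0, 2, 0, 0,
    3, 0, 1, 2, 5, 2, 0, 0, 1, 0, 1, 3, 4, 1, 0]
  just := [0, 0, 0, 0, 0, 0, 0, 0, 0, 0, 0, 0, 0, 9, 2, 0, 0, 10, 11, 3, 1, 0, 4, 7, 5, 6, 10, 0, 0, 0, 9, 0,
    0, 8, 0, 5, 7, 11, 6, 0, 0, 2, 0, 4, 8, 1, 3, 0]
  gA := 29
  gB := 31
  fin := 0
  sid := [0, 1, 2, 3, 4, 1, 0, 5, 2, 1, 6, 7, 3, 8, 9, 2, 3, 0, 10, 11, 11, 1, 4, 7, 5, 6, 10, 0, 5, 4, 9, 8,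
    6, 1, 8, 5, 7, 11, 10, 6, 7, 2, 9, 4, 8, 1, 11, 3]
  off := [(0, 0), (0, 0), (0, 0), (0, 0), (0, 0), (0, 0), (0, 0), (0, 0), (0, 0), (0, 0), (0, 0), (0, 0), (0,
    0), (0, 0), (0, 0), (0, 0), (0, 0), (0, 0), (0, 0), (0, 0), (1, -1), (0, 0), (0, 0), (1, 0), (0, 0), (0,
    1), (0, 0), (0, 0), (0, 0), (0, 0), (1, 0), (1, 0), (0, 0), (0, 0), (1, -1), (0, -1), (0, 0), (0, -1), (0,
    -1), (0, 0), (0, 0), (0, 0), (0, 0), (-1, 0), (0, 0), (-1, 1), (0, 0), (0, 0)]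

theorem torU4_2_ok : torU4_2.OK 4 := TT.leaf_ok (T := ttU4_2) (by decide +kernel)

end Pool.Agent.Lib_MP_fa6e45
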