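import Pool.Agent.Lib_MP_fa6e45.CXT
import Pool.Agent.Lib_MP_fa6e45.HK

/-!
MP_fa6e45_co, stage 7: certificates (generated by a program).
-/

namespace Pool.Agent.Lib_MP_fa6e45

/-- classes `0 0 0`, types `C0 C0 C0` -/
noncomputable def cU3_0 : CertX :=
  ⟨[k4,k4,k4],[],[[[]]],
    [.old (.leafM k0 [k0,k1,k2] [] [])]⟩

/-- classes `0 0 0`, types `C0 C0 C2` -/
noncomputable def cU3_1 : CertX :=
  ⟨[k4,k4,k6],[],[[[]]],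
    [.old (.leafM k0 [k0,k1,k2] [] [])]⟩

/-- classes `0 0 1`, types `B0 B1 C0` -/
noncomputable def cU3_2 : CertX :=
  ⟨[k8,k9,k20],[],[[[]]],
    [.old (.leafM k1 [k2,k0,k1] [] [])]⟩

/-- classes `0 0 1`, types `B0 B1 S0` -/
noncomputable def cU3_3 : CertX :=
  ⟨[k8,k9,k16],[],[[[]]],
    [.old (.leafM k1 [k2,k0,k1] [] [])]⟩

/-- classes `0 0 1`, types `C0 C0 C0` -/
noncomputable def cU3_4 : CertX :=
  ⟨[k4,k4,k20],[],[[[]]],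
    [.old (.leafM k0 [k0,k1,k2] [] [])]⟩

/-- classes `0 0 1`, types `C0 C0 S0` -/
noncomputable def cU3_5 : CertX :=
  ⟨[k4,k4,k16],[],[[[]]],
    [.old (.leafM k0 [k0,k1,k2] [] [])]⟩

/-- classes `0 0 1`, types `C0 C2 C0` -/
noncomputable def cU3_6 : CertX :=
  ⟨[k4,k6,k20],[],[[[]]],
    [.old (.leafM k0 [k0,k1,k2] [] [])]⟩

/-- classes `0 0 1`, types `C0 C2 S0` -/
noncomputable def cU3_7 : CertX :=
  ⟨[k4,k6,k16],[],[[[]]],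
    [.old (.leafM k0 [k0,k1,k2] [] [])]⟩

/-- classes `0 0 1`, types `N0 N1 C0` -/
noncomputable def cU3_8 : CertX :=
  ⟨[k12,k13,k20],[(false,k0,[k0,k1,k2])],[[[([z3,z0,z3],z1)],[([z2,z0,z2],z1)],[([z3,z0,z3],z2)],[]]],
    [.old (.leafM k2 [k0,k1,k2] [(z1,[y1,z3]),(z1,[z1])] []),
    .old (.leafM k3 [k0,k1,k2] [(z1,[y1,z2]),(z1,[z1])] []),
    .old (.leafM k4 [k0,k1,k2] [(z1,[y1,z3]),(z1,[z1])] []),
    .old (.lp [k20,k14,k0] [k0,k0,k3,k3,k10,k10] k0 [] k70 k8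
    [[(k4,k10)],[(k5,k10)],[(k2,k14)],[(k3,k14)],[(k0,k10)],[(k1,k10)]]
    [] k0
    [[k1,k0,k1],[k2,k0,k2],[k3,k0,k3],[k0,k2,k0],[k0,k3,k0],[k0,k4,k0]]
    [.contra [y1,z2],.contra [y1,z2],.ref k2 k0 [(z1,[z1])],.contra [z1],.ref k0 k0 [(z1,[y1,z3])],.ref k1 k0 [(z2,
    [y1,z4])]])]⟩

/-- classes `0 0 1`, types `N0 N1 S0` -/
noncomputable def cU3_9 : CertX :=
  ⟨[k12,k13,k16],[(false,k0,[k0,k1,k2])],[[[([z3,z0,z3],z1)],[([z2,z0,z2],z1)],[([z3,z0,z3],z2)],[]]],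
    [.old (.leafM k2 [k0,k1,k2] [(z1,[y1,z3]),(z1,[z1])] []),
    .old (.leafM k3 [k0,k1,k2] [(z1,[y1,z2]),(z1,[z1])] []),
    .old (.leafM k4 [k0,k1,k2] [(z1,[y1,z3]),(z1,[z1])] []),
    .old (.lp [k10,k14,k10] [k2,k2,k0,k0,k2,k2] k0 [] k70 k8
    [[(k1,k10),(k4,k10)],[(k5,k10)],[(k2,k14)],[(k3,k14)],[(k0,k10)],[(k1,k10),(k4,k10)]]
    [] k0
    [[k3,k0,k3],[k2,k0,k2],[k1,k0,k1],[k0,k2,k0],[k0,k3,k0],[k0,k4,k0]]
    [.ref k2 k0 [(z1,[z1])],.contra [y1,z2],.contra [y1,z2],.contra [z1],.ref k0 k0 [(z1,[y1,z3])],.ref k1 k0 [(z2,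
    [y1,z4])]])]⟩

/-- classes `0 0 1`, types `N0 N2 C0` -/
noncomputable def cU3_10 : CertX :=
  ⟨[k12,k14,k20],[],[[[]]],
    [.old (.leafM k1 [k2,k0,k1] [] [])]⟩

/-- classes `0 0 1`, types `N0 N2 S0` -/
noncomputable def cU3_11 : CertX :=
  ⟨[k12,k14,k16],[],[[[]]],
    [.old (.leafM k1 [k2,k0,k1] [] [])]⟩

/-- classes `0 0 1`, types `S0 S0 C0` -/
noncomputable def cU3_12 : CertX :=
  ⟨[k0,k0,k20],[],[[[]]],
    [.old (.leafM k0 [k0,k1,k2] [] [])]⟩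

/-- classes `0 1 2`, types `C0 C0 C0` -/
noncomputable def cU3_13 : CertX :=
  ⟨[k4,k20,k36],[],[[[]]],
    [.old (.leafM k0 [k0,k1,k2] [] [])]⟩

/-- classes `0 1 2`, types `C0 C0 S0` -/
noncomputable def cU3_14 : CertX :=
  ⟨[k4,k20,k32],[],[[[]]],
    [.old (.leafM k0 [k0,k1,k2] [] [])]⟩

/-- classes `0 1 2`, types `C0 S0 S0` -/
noncomputable def cU3_15 : CertX :=
  ⟨[k4,k16,k32],[],[[[]]],
    [.old (.leafM k0 [k0,k1,k2] [] [])]⟩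

/-- the certificates of this file -/
noncomputable def lU3_0 : List CertX :=
  [cU3_0, cU3_1, cU3_2, cU3_3, cU3_4, cU3_5, cU3_6, cU3_7, cU3_8, cU3_9, cU3_10, cU3_11, cU3_12, cU3_13,
      cU3_14, cU3_15]

theorem gU3_0 : allF (chkE 3 ttU3) lU3_0 = true := by
  decide +kernel

end Pool.Agent.Lib_MP_fa6e45
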