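import Pool.Agent.Lib_MP_fa6e45.CXT
import Pool.Agent.Lib_MP_fa6e45.HK

/-!
MP_fa6e45_co, stage 7: certificates (generated by a program).
-/

namespace Pool.Agent.Lib_MP_fa6e45

/-- classes `0 0 0 0`, types `B0 B0 B1 B1` -/
noncomputable def cU4_0 : CertX :=
  ⟨[k8,k8,k9,k9],[],[[[]]],
    [.old (.leafM k3 [k1,k2,k3,k0] [] [])]⟩

/-- classes `0 0 0 0`, types `B0 B1 B0 B1` -/
noncomputable def cU4_1 : CertX :=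
  ⟨[k8,k9,k8,k9],[],[[[]]],
    [.old (.leafM k3 [k0,k1,k2,k3] [] [])]⟩

/-- classes `0 0 0 0`, types `C0 C0 C0 C0` -/
noncomputable def cU4_2 : CertX :=
  ⟨[k4,k4,k4,k4],[],[[[]]],
    [.old (.leafM k0 [k0,k1,k2,k3] [] [])]⟩

/-- classes `0 0 0 0`, types `C0 C0 C0 C2` -/
noncomputable def cU4_3 : CertX :=
  ⟨[k4,k4,k4,k6],[],[[[]]],
    [.old (.leafM k0 [k0,k1,k2,k3] [] [])]⟩

/-- classes `0 0 0 0`, types `C0 C0 C2 C2` -/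
noncomputable def cU4_4 : CertX :=
  ⟨[k4,k4,k6,k6],[],[[[]]],
    [.old (.leafM k0 [k0,k1,k2,k3] [] [])]⟩

/-- classes `0 0 0 0`, types `C0 C2 C0 C2` -/
noncomputable def cU4_5 : CertX :=
  ⟨[k4,k6,k4,k6],[],[[[]]],
    [.old (.leafM k0 [k0,k1,k2,k3] [] [])]⟩

/-- classes `0 0 0 0`, types `N0 N0 N1 N1` -/
noncomputable def cU4_6 : CertX :=
  ⟨[k12,k12,k13,k13],[],[[[]]],
    [.old (.leafM k5 [k0,k1,k2,k3] [] [])]⟩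

/-- classes `0 0 0 0`, types `N0 N0 N1 N2` -/
noncomputable def cU4_7 : CertX :=
  ⟨[k12,k12,k13,k14],[],[[[]]],
    [.old (.leafM k6 [k0,k1,k2,k3] [] [])]⟩

/-- classes `0 0 0 0`, types `N0 N0 N2 N2` -/
noncomputable def cU4_8 : CertX :=
  ⟨[k12,k12,k14,k14],[],[[[]]],
    [.old (.leafM k3 [k1,k2,k3,k0] [] [])]⟩

/-- classes `0 0 0 0`, types `N0 N1 N0 N1` -/
noncomputable def cU4_9 : CertX :=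
  ⟨[k12,k13,k12,k13],[(false,k0,[k0,k1,k2,k3]),(false,k2,[k2,k3,k0,k1]),(true,k2,[k2,k1,k0,k3]),(false,k1,[k1,k2,k3,
    k0]),(false,k3,[k3,k0,k1,k2]),(true,k3,[k3,k2,k1,k0])],[[[([z1,z0,z1,z0],z1)],[([z3,z0,z0,z0],z2),([z0,z3,z0,z3],
    z2)],[([z3,z0,z0,y3],y2),([z0,z1,z0,z2],z2)],[([z9,z0,z0,z0],z4),([z0,z9,z0,z9],z8)],[([z9,z0,z0,z0],z2),([z0,z9,
    z0,z9],z10)],[([z3,z0,z0,z0],z2)],[([z2,z0,z0,y2],y1),([z0,z1,z0,z2],z2)],[([z1,z0,z0,y4],y2),([z0,z1,z0,z3],z2)],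
    [([z1,z0,z0,y6],y2),([z0,z1,z0,z4],z2)],[([z1,z0,z0,y3],y2),([z0,z1,z0,z2],z2)],[([z1,z0,z0,y2],y1),([z0,z1,z0,
    z2],z2)],[([z2,z0,z1,z0],z2)]],[[([z3,z0,z1,z0],z2)],[]]],
    [.old (.tor k0 false k0 [(z1,[y2,z2]),(z1,[z2])]),
    .old (.leafM k10 [k1,k2,k3,k0] [(z1,[y1,y1,z3]),(z1,[z1]),(z1,[z0,z1])] []),
    .geo true z3 k3 [(y2,z3),(z6,y6),(z2,z0),(z0,z3)] [(z1,[z1]),(z1,[z0,z3]),(z1,[y1,y3,z3]),(z1,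
    [])] (Int.ofNat (nat_lit 699050)) (Int.ofNat (nat_lit 1048576)) (.l k1) [],
    .geo true z9 k3 [(z4,z0),(z8,y9),(z6,z0),(z0,z9)] [(z1,[z1]),(z1,[z0,z1]),(z1,[y1,y1,z9]),(z1,
    [])] z0 (Int.ofNat (nat_lit 932068)) (.s (.l k1) (.l k1)) [],
    .geo true z9 k3 [(z2,z0),(z10,y9),(z6,z0),(z0,z9)] [(z1,[z1]),(z1,[z0,z1]),(z1,[y1,y1,z9]),(z1,
    [])] z0 (Int.ofNat (nat_lit 1165085)) (.s (.l k1) (.l k1)) [],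
    .old (.lp [(nat_lit 616),(nat_lit 402),(nat_lit 284),(nat_lit 350)] [k0,k0,k107,k107,k166,k166,k133,k133] k0 [[k0,k0,
    k158],[],[k0,k0,k0,k0,k136],[k0,k158],[k0,k0,k0,k0,k0,k0,(nat_lit 210)],[k0,k0,k0,k136],[],[k0,k0,k0,k0,k0,
    (nat_lit 210)]] (nat_lit 1680) k8
    [[(k4,(nat_lit 240)),(k0,(nat_lit 616))],[(k5,(nat_lit 292)),(k1,(nat_lit 616))],[(k6,(nat_lit 376)),(k2,
    (nat_lit 560))],[(k7,(nat_lit 240)),(k3,(nat_lit 560))],[(k0,(nat_lit 292)),(k4,(nat_lit 420))],[(k1,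
    (nat_lit 240)),(k5,(nat_lit 420))],[(k2,(nat_lit 240)),(k6,(nat_lit 560))],[(k3,(nat_lit 376)),(k7,
    (nat_lit 560))]]
    [] k0
    [[k2,k0,k0,k0],[k2,k0,k1,k0],[k2,k0,k2,k0],[k1,k0,k1,k0],[k3,k0,k3,k0],[k2,k0,k3,k0],[k1,k0,k2,k0],[k1,k0,k3,k0],
    [k0,k2,k0,k0],[k0,k2,k0,k1],[k0,k1,k0,k1],[k0,k2,k0,k2],[k0,k1,k0,k2],[k0,k0,k2,k0],[k0,k0,k3,k0],[k0,k0,k0,k2]]
    [.contra [z1],.ref k1 k0 [(z1,[z0,z1]),(z1,[y3,z1,z3])],.ref k0 k0 [(z2,[z1])],.contra [y1,z0,z1],.contra [z1,y1],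
    .ref k4 k1 [(z1,[z3,y2]),(z1,[y3,y1,z9])],.ref k1 k0 [(z1,[z0,z1]),(z2,[y3,y1,z6])],.ref k3 k1 [(z1,[z3,y1]),(z1,
    [y3,y2,z9])],.contra [z1],.ref k2 k1 [(z1,[y3,y1,z3]),(z1,[z1])],.contra [y1,z0,z1],.ref k0 k0 [(z2,[y1,z0,z2])],
    .ref k2 k2 [(z1,[y3,y1,z3]),(z1,[z1])],.contra [z1],.ref k1 k0 [(z1,[z0,z1]),(z1,[y1,y1,z3])],.contra [z1]]),
    .geo true z2 k3 [(y1,z2),(z4,y4),(z1,z0),(z0,z2)] [(z1,[z1]),(z1,[z0,z2]),(z1,[y1,y2,z2]),(z1,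
    [])] (Int.ofNat (nat_lit 524288)) (Int.ofNat (nat_lit 1048576)) (.s (.l k1) (.l k1)) [],
    .geo true z1 k3 [(y2,z4),(z2,y3),(z2,y2),(z0,z1)] [(z1,[z1]),(z1,[z0,z1]),(z1,[y1,y1,z1]),(z1,
    [])] (Int.ofNat (nat_lit 524288)) (Int.ofNat (nat_lit 699051)) (.s (.l k1) (.l k1)) [],
    .geo true z1 k3 [(y2,z6),(z2,y4),(z2,y3),(z0,z1)] [(z1,[z1]),(z1,[z0,z1]),(z1,[y1,y1,z1]),(z1,
    [])] (Int.ofNat (nat_lit 349525)) (Int.ofNat (nat_lit 524288)) (.s (.l k1) (.s (.l k1) (.l k1))) [],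
    .geo true z1 k3 [(y2,z3),(z2,y2),(z2,y2),(z0,z1)] [(z1,[z1]),(z1,[z0,z1]),(z1,[y1,y1,z1]),(z1,
    [])] (Int.ofNat (nat_lit 699050)) (Int.ofNat (nat_lit 1048576)) (.s (.s (.l k1) (.l k1)) (.l k1)) [],
    .geo true z1 k3 [(y1,z2),(z2,y2),(z1,y1),(z0,z1)] [(z1,[z1]),(z1,[z0,z1]),(z1,[y1,y1,z1]),(z1,
    [])] (Int.ofNat (nat_lit 524288)) (Int.ofNat (nat_lit 1048576)) (.s (.s (.l k1) (.l k2)) (.l k1)) [⟨z2,z3,[[k0,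
    k2],[k1,k3]],.child (.ref k5 k3 [(z1,[z1])])⟩],
    .old (.lp [(nat_lit 1526),(nat_lit 840),(nat_lit 820),k160] [k0,k0,(nat_lit 343),(nat_lit 343),(nat_lit 353),
    (nat_lit 353),(nat_lit 683),(nat_lit 683)] k0 [[],[],[k0,k0,k0,k0,k20],[],[k0,k0,k0,k0,k0,k0,(nat_lit 512)],[k0,
    k0,k0,k20],[],[k0,k0,k0,k0,k0,(nat_lit 512)]] (nat_lit 3360) k8
    [[(k4,(nat_lit 661)),(k0,(nat_lit 1526))],[(k5,(nat_lit 1173)),(k1,(nat_lit 1526))],[(k6,(nat_lit 500)),(k2,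
    (nat_lit 840))],[(k7,(nat_lit 480)),(k3,(nat_lit 840))],[(k4,(nat_lit 840)),(k0,(nat_lit 1173))],[(k1,
    (nat_lit 661)),(k5,(nat_lit 840))],[(k2,(nat_lit 480)),(k6,(nat_lit 672))],[(k3,(nat_lit 500)),(k7,
    (nat_lit 672))]]
    [] k0
    [[k2,k0,k0,k0],[k1,k0,k1,k0],[k1,k0,k2,k0],[k0,k2,k0,k0],[k0,k3,k0,k0],[k0,k3,k0,k1],[k0,k3,k0,k2],[k0,k2,k0,k1],
    [k0,k2,k0,k2],[k0,k2,k0,k3],[k0,k1,k0,k1],[k0,k3,k0,k3],[k0,k2,k0,k4],[k0,k1,k0,k2],[k0,k1,k0,k3],[k0,k1,k0,k4],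
    [k0,k0,k2,k0],[k0,k0,k3,k0],[k0,k0,k0,k2],[k0,k0,k0,k3],[k0,k0,k0,k4]]
    [.contra [z1],.contra [y1,z1],.ref k5 k0 [(z1,[y1,z2])],.contra [z1],.ref k5 k4 [(z1,[z1])],.ref k7 k1 [(z1,[y2,
    y1,z2]),(z1,[z1])],.ref k9 k5 [(z1,[y1,y3,z3]),(z1,[z0,z1])],.contra [y1,y1,z2],.contra [z1,z2,y2],
    .ref k9 k4 [(z1,[y1,y3,z3]),(z1,[z0,z1])],.contra [y1,z0,z1],.ref k5 k0 [(z1,[z1,z3,y3])],.ref k10 k4 [(z2,[y1,y4,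
    z4]),(z1,[z0,z1])],.contra [y1,y1,z2],.ref k7 k2 [(z1,[y2,y1,z2]),(z1,[z1])],.ref k8 k2 [(z1,[y2,y1,z2]),(z1,
    [z1])],.contra [z1],.ref k5 k0 [(z2,[y1,z3])],.contra [z1],.ref k5 k3 [(z1,[z1])],.ref k6 k4 [(z2,[y1,y4,z4]),(z1,
    [z0,z1])]]),
    .old (.lp [k120,k102,k48,k136] [k8,k8,k17,k17,k44,k44,k0,k0] k0 [[],[],[k0,k0,k0,k0,k34],[],[],[k0,k0,k0,
    k34]] (nat_lit 408) k6
    [[(k4,k84),(k0,k120)],[(k5,k84),(k1,k120)],[(k2,k102),(k6,k119)],[(k7,k85),(k3,k102)],[(k4,k82),(k0,k84)],[(k5,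
    k82),(k1,k84)],[(k2,k85),(k6,k136)],[(k3,k119),(k7,k136)]]
    [] k0
    [[k2,k0,k0,k0],[k3,k0,k0,k0],[k2,k0,k1,k0],[k2,k0,k2,k0],[k1,k0,k1,k0],[k1,k0,k2,k0],[k1,k0,k3,k0],[k0,k2,k0,k0],
    [k0,k3,k0,k0],[k0,k2,k0,k1],[k0,k1,k0,k1],[k0,k1,k0,k2],[k0,k0,k2,k0],[k0,k0,k3,k0],[k0,k0,k4,k0],[k0,k0,k0,k2]]
    [.contra [z1],.contra [y1,z1],.contra [y1,z1],.ref k0 k0 [(z2,[z1])],.contra [y1,z1],.ref k11 k1 [(z1,[z1])],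
    .ref k0 k0 [(z4,[z1,z1])],.contra [z1],.ref k5 k4 [(z1,[z1])],.ref k11 k4 [(z1,[z1])],.contra [z1,z1,y1],
    .ref k11 k3 [(z1,[z1])],.contra [z1],.ref k5 k1 [(z1,[z1])],.ref k0 k0 [(z6,[z1,z2])],.contra [z1]]),
    .old (.lp [k160,k82,k116,k118] [k0,k0,k39,k39,k22,k22,k21,k21] k0 [[k0,k0,k38],[],[k0,k0,k0,k0,k4],[k0,k38],[k0,k0,k0,
    k0,k0,k0,k42],[k0,k0,k0,k4],[],[k0,k0,k0,k0,k0,k42]] (nat_lit 480) k6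
    [[(k4,k96),(k0,k160)],[(k5,k100),(k1,k160)],[(k6,k100),(k2,k120)],[(k7,k96),(k3,k120)],[(k0,k100),(k4,k120)],[(k1,
    k96),(k5,k120)],[(k2,k96),(k6,k160)],[(k3,k100),(k7,k160)]]
    [] k0
    [[k2,k0,k0,k0],[k2,k0,k1,k0],[k2,k0,k2,k0],[k1,k0,k1,k0],[k1,k0,k2,k0],[k1,k0,k3,k0],[k0,k2,k0,k0],[k0,k3,k0,k0],
    [k0,k3,k0,k1],[k0,k2,k0,k1],[k0,k2,k0,k2],[k0,k1,k0,k1],[k0,k1,k0,k2],[k0,k0,k2,k0],[k0,k0,k3,k0],[k0,k0,k0,k2]]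
    [.contra [z1],.ref k11 k0 [(z1,[z1])],.ref k0 k0 [(z2,[z1])],.contra [y1,z1],.ref k11 k1 [(z1,[z1])],
    .ref k12 k1 [(z1,[z1])],.contra [z1],.ref k5 k4 [(z1,[z1])],.ref k12 k4 [(z1,[z1])],.ref k11 k4 [(z1,[z1])],
    .ref k0 k0 [(z2,[y1,z2])],.contra [y1,z1],.ref k11 k3 [(z1,[z1])],.contra [z1],.ref k5 k1 [(z1,[z1])],
    .contra [z1]])]⟩

/-- classes `0 0 0 0`, types `N0 N1 N0 N2` -/
noncomputable def cU4_10 : CertX :=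
  ⟨[k12,k13,k12,k14],[(true,k3,[k3,k2,k1,k0]),(false,k0,[k0,k1,k2,k3])],[[[([z1,z0,z2,z1],z2)],[([z1,z0,z0,z1],z1),
    ([z0,z3,z0,z0],z1)],[([z3,z0,z3,z3],z4)],[([z1,z0,z0,z1],z1)],[]]],
    [.old (.tor k1 false k0 [(z1,[z1]),(z1,[y1,z2])]),
    .old (.tor k2 false k0 [(z1,[y3,y1,z3]),(z1,[z0,z2]),(z1,[z0,z0,z1]),(z1,[z2])]),
    .old (.lp [k126,k160,k120,k72] [k17,k17,k0,k0,k20,k20,k44,k44] k0 [[k0,k0,k0,k0,k0,k0,k0,k2],[],[],[],[],[],[k0,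
    k2]] (nat_lit 480) k6
    [[(k7,k99),(k3,k145)],[(k6,k97),(k5,k123)],[(k1,k145),(k2,k160)],[(k7,k116),(k3,k160)],[(k4,k120),(k0,k123)],[(k6,
    k96),(k5,k120)],[(k1,k99),(k2,k116)],[(k4,k96),(k0,k97)]]
    [] k0
    [[k1,k1,k0,k1],[k1,k0,k0,k1],[k2,k0,k0,k2],[k1,k0,k1,k1],[k1,k0,k2,k1],[k0,k2,k0,k0],[k0,k0,k2,k0],[k0,k0,k3,k0]]
    [.contra [y1,z0,z1],.contra [y1,z0,z1],.ref k1 k0 [(z2,[z1]),(z2,[y3,z2])],.contra [z1,y1,z2],.ref k0 k1 [(z1,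
    [z1])],.contra [z1],.contra [z1],.ref k0 k1 [(z3,[z1,z1])]]),
    .old (.lp [k40,k30,k24,k24] [k0,k0,k5,k5,k8,k8,k8,k8] k0 [[k0,k0,k0,k0,k0,k0,k0,k2],[],[],[],[],[],[k0,k2]] k120 k6
    [[(k7,k32),(k3,k37)],[(k6,k30),(k5,k32)],[(k2,k30),(k1,k37)],[(k7,k27),(k3,k30)],[(k4,k24),(k0,k32)],[(k5,k24),
    (k6,k24)],[(k2,k27),(k1,k32)],[(k4,k24),(k0,k30)]]
    [] k0
    [[k1,k1,k0,k1],[k1,k0,k0,k1],[k1,k0,k1,k1],[k1,k0,k2,k1],[k0,k2,k0,k0],[k0,k3,k0,k0],[k0,k0,k2,k0],[k0,k0,k3,k0],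
    [k0,k0,k4,k0]]
    [.contra [z1,y1],.contra [y1,z0,z1],.contra [z1,y1],.ref k0 k1 [(z1,[z1])],.contra [z1],.ref k2 k1 [(z1,[y1,z0,
    z3])],.contra [z1],.ref k2 k0 [(z1,[y1,z0,z3])],.ref k0 k1 [(z2,[z1,z2])]]),
    .old (.lp [k126,k160,k120,k72] [k17,k17,k0,k0,k20,k20,k44,k44] k0 [[k0,k0,k0,k0,k0,k0,k0,k2],[],[],[],[],[],[k0,
    k2]] (nat_lit 480) k6
    [[(k7,k99),(k3,k145)],[(k6,k97),(k5,k123)],[(k1,k145),(k2,k160)],[(k7,k116),(k3,k160)],[(k4,k120),(k0,k123)],[(k6,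
    k96),(k5,k120)],[(k1,k99),(k2,k116)],[(k4,k96),(k0,k97)]]
    [] k0
    [[k1,k1,k0,k1],[k1,k0,k0,k1],[k2,k0,k0,k2],[k1,k0,k1,k1],[k1,k0,k2,k1],[k0,k2,k0,k0],[k0,k0,k2,k0],[k0,k0,k3,k0]]
    [.contra [y1,z1],.contra [y1,z1],.ref k3 k1 [(z2,[z1])],.contra [y1,z1],.ref k0 k1 [(z1,[z1])],.contra [z1],
    .contra [z1],.ref k2 k0 [(z1,[y1,z3])]])]⟩

/-- classes `0 0 0 0`, types `N0 N1 N2 N3` -/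
noncomputable def cU4_11 : CertX :=
  ⟨[k12,k13,k14,k15],[(false,k0,[k0,k1,k2,k3])],[[[([z1,z0,z1,z0],z1)],[([z3,z0,z3,z0],z2),([z0,z3,z0,z0],z2)],[([z3,
    z0,z3,z0],z2)],[]]],
    [.old (.leafM k7 [k0,k1,k2,k3] [(z1,[y1,z1])] []),
    .old (.leafM k10 [k0,k1,k2,k3] [(z1,[z0,z1]),(z1,[y1,y1,z3]),(z1,[z1])] []),
    .old (.lp [k48,k40,k0,k30] [k0,k0,k4,k4,k24,k24,k9,k9] k0 [] k120 k6
    [[(k4,k24),(k5,k24)],[(k4,k24),(k5,k24)],[(k7,k35),(k2,k40)],[(k6,k35),(k3,k40)],[(k0,k24),(k1,k24)],[(k0,k24),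
    (k1,k24)],[(k6,k30),(k3,k35)],[(k7,k30),(k2,k35)]]
    [] k0
    [[k1,k0,k1,k0],[k2,k0,k2,k0],[k0,k2,k0,k0],[k0,k2,k0,k1],[k0,k1,k0,k1],[k0,k1,k0,k2],[k0,k0,k0,k2],[k0,k0,k0,k3]]
    [.contra [y1,z1],.contra [y1,z1],.contra [z1],.ref k1 k0 [(z1,[z0,z1]),(z1,[z3,z1,y3])],.contra [y1,z0,z1],
    .ref k1 k0 [(z1,[z0,z1]),(z1,[y3,y2,z6])],.contra [z1],.ref k1 k0 [(z1,[z0,z1]),(z1,[y1,y1,z3])]]),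
    .old (.lp [k12,k14,k0,k14] [k1,k1,k0,k0,k7,k7,k0,k0] k0 [] k42 k8
    [[(k4,k6),(k5,k6)],[(k4,k6),(k5,k6)],[(k2,k14),(k7,k14)],[(k3,k14),(k6,k14)],[(k0,k6),(k1,k6)],[(k0,k6),(k1,k6)],
    [(k3,k14),(k6,k14)],[(k2,k14),(k7,k14)]]
    [] k0
    [[k1,k0,k1,k0],[k2,k0,k2,k0],[k3,k0,k3,k0],[k0,k2,k0,k0],[k0,k1,k0,k1],[k0,k0,k0,k2]]
    [.contra [y1,z1],.ref k0 k0 [(z2,[z1])],.ref k2 k0 [(z1,[z1])],.contra [z1],.contra [y1,z1],.contra [z1]])]⟩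

/-- classes `0 0 0 0`, types `N0 N1 N3 N2` -/
noncomputable def cU4_12 : CertX :=
  ⟨[k12,k13,k15,k14],[],[[[]]],
    [.old (.leafM k3 [k1,k2,k3,k0] [] [])]⟩

/-- classes `0 0 0 0`, types `N0 N2 N0 N2` -/
noncomputable def cU4_13 : CertX :=
  ⟨[k12,k14,k12,k14],[],[[[]]],
    [.old (.leafM k3 [k0,k1,k2,k3] [] [])]⟩

/-- classes `0 0 0 0`, types `N0 N2 N1 N3` -/
noncomputable def cU4_14 : CertX :=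
  ⟨[k12,k14,k13,k15],[],[[[]]],
    [.old (.leafM k3 [k0,k1,k2,k3] [] [])]⟩

/-- classes `0 0 0 1`, types `C0 C0 C0 C0` -/
noncomputable def cU4_15 : CertX :=
  ⟨[k4,k4,k4,k20],[],[[[]]],
    [.old (.leafM k0 [k0,k1,k2,k3] [] [])]⟩

/-- classes `0 0 0 1`, types `C0 C0 C0 S0` -/
noncomputable def cU4_16 : CertX :=
  ⟨[k4,k4,k4,k16],[],[[[]]],
    [.old (.leafM k0 [k0,k1,k2,k3] [] [])]⟩

/-- classes `0 0 0 1`, types `C0 C0 C2 C0` -/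
noncomputable def cU4_17 : CertX :=
  ⟨[k4,k4,k6,k20],[],[[[]]],
    [.old (.leafM k0 [k0,k1,k2,k3] [] [])]⟩

/-- classes `0 0 0 1`, types `C0 C0 C2 S0` -/
noncomputable def cU4_18 : CertX :=
  ⟨[k4,k4,k6,k16],[],[[[]]],
    [.old (.leafM k0 [k0,k1,k2,k3] [] [])]⟩

/-- classes `0 0 0 1`, types `C0 C2 C0 C0` -/
noncomputable def cU4_19 : CertX :=
  ⟨[k4,k6,k4,k20],[],[[[]]],
    [.old (.leafM k0 [k0,k1,k2,k3] [] [])]⟩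

/-- classes `0 0 0 1`, types `C0 C2 C0 S0` -/
noncomputable def cU4_20 : CertX :=
  ⟨[k4,k6,k4,k16],[],[[[]]],
    [.old (.leafM k0 [k0,k1,k2,k3] [] [])]⟩

/-- classes `0 0 0 1`, types `S0 S0 S0 C0` -/
noncomputable def cU4_21 : CertX :=
  ⟨[k0,k0,k0,k20],[],[[[]]],
    [.old (.leafM k0 [k0,k1,k2,k3] [] [])]⟩

/-- classes `0 0 1 1`, types `B0 B1 B0 B1` -/
noncomputable def cU4_22 : CertX :=
  ⟨[k8,k9,k24,k25],[],[[[]]],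
    [.old (.leafM k3 [k0,k1,k2,k3] [] [])]⟩

/-- classes `0 0 1 1`, types `B0 B1 C0 C0` -/
noncomputable def cU4_23 : CertX :=
  ⟨[k8,k9,k20,k20],[],[[[]]],
    [.old (.leafM k1 [k2,k3,k0,k1] [] [])]⟩

/-- classes `0 0 1 1`, types `B0 B1 C0 C2` -/
noncomputable def cU4_24 : CertX :=
  ⟨[k8,k9,k20,k22],[],[[[]]],
    [.old (.leafM k1 [k2,k3,k0,k1] [] [])]⟩

/-- classes `0 0 1 1`, types `B0 B1 N0 N1` -/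
noncomputable def cU4_25 : CertX :=
  ⟨[k8,k9,k28,k29],[(false,k0,[k0,k1,k2,k3])],[[[([z3,z0,z3,z0],z2),([z0,z3,z0,z0],z2)],[([z1,z0,z1,z0],z1),([z0,z3,
    z0,z0],z1)],[([z3,z3,z3,z0],z4)],[([z1,z0,z1,z0],z1),([z0,z2,z0,z0],z1)],[([z1,z0,z1,z0],z1),([z0,z3,z0,z0],z2)],
    [([z1,z0,z1,z0],z1)],[]]],
    [.old (.leafM k10 [k0,k1,k2,k3] [(z1,[z0,z1]),(z1,[y1,y1,z3]),(z1,[z1])] []),
    .old (.leafM k11 [k2,k3,k0,k1] [(z1,[y3,y1,z3]),(z1,[z0,z1]),(z1,[z1])] []),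
    .old (.lp [k30,k30,k18,k40] [k5,k5,k5,k5,k11,k11,k0,k0] k0 [] k120 k6
    [[(k4,k24)],[(k5,k24),(k2,k30)],[(k5,k24),(k2,k30)],[(k0,k30),(k3,k30)],[(k0,k24),(k3,k24)],[(k1,k24)],[(k6,k40)],
    [(k7,k40)]]
    [] k0
    [[k1,k0,k1,k0],[k2,k0,k2,k0],[k1,k1,k1,k0],[k1,k2,k1,k0],[k0,k2,k0,k0],[k0,k3,k0,k0],[k0,k0,k0,k2]]
    [.contra [y2,z1],.ref k1 k0 [(z2,[z1]),(z2,[y3,z2])],.contra [z1,y1,z2],.ref k0 k0 [(z1,[y3,z2]),(z1,[z3,y1])],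
    .contra [z1],.ref k0 k0 [(z1,[y1,z1]),(z1,[z1])],.contra [z1]]),
    .old (.leafM k12 [k0,k1,k2,k3] [(z1,[z0,z1]),(z1,[y2,y1,z2]),(z1,[z1])] []),
    .old (.leafM k11 [k0,k1,k2,k3] [(z1,[z0,z1]),(z1,[y3,y1,z3]),(z1,[z1])] []),
    .old (.lp [k14,k10,k6,k8] [k0,k0,k2,k2,k4,k4,k3,k3] k0 [] k40 k6
    [[(k4,k10)],[(k5,k10),(k2,k12)],[(k5,k8),(k2,k10)],[(k3,k10),(k0,k12)],[(k3,k8),(k0,k10)],[(k1,k10)],[(k6,k8)],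
    [(k7,k8)]]
    [] k0
    [[k1,k0,k1,k0],[k1,k1,k1,k0],[k0,k2,k0,k0],[k0,k3,k0,k0],[k0,k0,k0,k2],[k0,k0,k0,k3],[k0,k0,k0,k4]]
    [.contra [y1,z2],.contra [z1,y1],.contra [z1],.ref k4 k0 [(z1,[z0,z1]),(z1,[z1])],.contra [z1],.ref k2 k0 [(z1,
    [y1,z0,z3])],.ref k3 k0 [(z1,[z0,z1]),(z2,[y1,y4,z4])]]),
    .old (.lp [k40,k40,k8,k30] [k0,k0,k0,k0,k16,k16,k5,k5] k0 [] k120 k6
    [[(k4,k24)],[(k5,k24),(k2,k40)],[(k5,k24),(k2,k40)],[(k0,k40),(k3,k40)],[(k0,k24),(k3,k24)],[(k1,k24)],[(k6,k30)],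
    [(k7,k30)]]
    [] k0
    [[k1,k0,k1,k0],[k2,k0,k2,k0],[k1,k1,k1,k0],[k0,k2,k0,k0],[k0,k0,k0,k2],[k0,k0,k0,k3]]
    [.contra [y1,z1],.ref k5 k0 [(z2,[z1])],.contra [y1,z1],.contra [z1],.contra [z1],.ref k2 k0 [(z1,[y1,z3])]])]⟩

/-- classes `0 0 1 1`, types `B0 B1 N0 N2` -/
noncomputable def cU4_26 : CertX :=
  ⟨[k8,k9,k28,k30],[],[[[]]],
    [.old (.leafM k3 [k0,k1,k2,k3] [] [])]⟩

/-- classes `0 0 1 1`, types `B0 B1 S0 S0` -/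
noncomputable def cU4_27 : CertX :=
  ⟨[k8,k9,k16,k16],[],[[[]]],
    [.old (.leafM k1 [k2,k3,k0,k1] [] [])]⟩

/-- classes `0 0 1 1`, types `C0 C0 C0 C0` -/
noncomputable def cU4_28 : CertX :=
  ⟨[k4,k4,k20,k20],[],[[[]]],
    [.old (.leafM k0 [k0,k1,k2,k3] [] [])]⟩

/-- classes `0 0 1 1`, types `C0 C0 C0 C2` -/
noncomputable def cU4_29 : CertX :=
  ⟨[k4,k4,k20,k22],[],[[[]]],
    [.old (.leafM k0 [k0,k1,k2,k3] [] [])]⟩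

/-- classes `0 0 1 1`, types `C0 C0 N0 N1` -/
noncomputable def cU4_30 : CertX :=
  ⟨[k4,k4,k28,k29],[(false,k0,[k0,k1,k2,k3])],[[[([z3,z0,z3,z0],z2),([z0,z3,z0,z0],z2)],[([z1,z0,z1,z0],z1),([z0,z3,
    z0,z0],z1)],[([z3,z3,z3,z0],z4)],[([z1,z0,z1,z0],z1),([z0,z2,z0,z0],z1)],[([z1,z0,z1,z0],z1),([z0,z3,z0,z0],z2)],
    [([z1,z0,z1,z0],z1)],[]]],
    [.old (.leafM k10 [k0,k1,k2,k3] [(z1,[z0,z1]),(z1,[y1,y1,z3]),(z1,[z1])] []),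
    .old (.leafM k11 [k2,k3,k0,k1] [(z1,[y3,y1,z3]),(z1,[z0,z1]),(z1,[z1])] []),
    .old (.lp [k30,k30,k18,k40] [k5,k5,k5,k5,k11,k11,k0,k0] k0 [] k120 k6
    [[(k4,k24)],[(k5,k24),(k3,k30)],[(k0,k30),(k2,k30)],[(k5,k24),(k3,k30)],[(k0,k24),(k2,k24)],[(k1,k24)],[(k6,k40)],
    [(k7,k40)]]
    [] k0
    [[k1,k0,k1,k0],[k2,k0,k2,k0],[k1,k1,k1,k0],[k1,k2,k1,k0],[k0,k2,k0,k0],[k0,k3,k0,k0],[k0,k0,k0,k2]]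
    [.contra [y2,z1],.ref k1 k0 [(z2,[z1]),(z2,[y3,z2])],.contra [z1,y1,z2],.ref k0 k0 [(z1,[y3,z2]),(z1,[z3,y1])],
    .contra [z1],.ref k0 k0 [(z1,[y1,z1]),(z1,[z1])],.contra [z1]]),
    .old (.leafM k12 [k0,k1,k2,k3] [(z1,[z0,z1]),(z1,[y2,y1,z2]),(z1,[z1])] []),
    .old (.leafM k11 [k0,k1,k2,k3] [(z1,[z0,z1]),(z1,[y3,y1,z3]),(z1,[z1])] []),
    .old (.lp [k14,k10,k6,k8] [k0,k0,k2,k2,k4,k4,k3,k3] k0 [] k40 k6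
    [[(k4,k10)],[(k5,k10),(k3,k12)],[(k2,k10),(k0,k12)],[(k5,k8),(k3,k10)],[(k2,k8),(k0,k10)],[(k1,k10)],[(k6,k8)],
    [(k7,k8)]]
    [] k0
    [[k1,k0,k1,k0],[k1,k1,k1,k0],[k0,k2,k0,k0],[k0,k3,k0,k0],[k0,k0,k0,k2],[k0,k0,k0,k3],[k0,k0,k0,k4]]
    [.contra [y1,z2],.contra [z1,y1],.contra [z1],.ref k4 k0 [(z1,[z0,z1]),(z1,[z1])],.contra [z1],.ref k2 k0 [(z1,
    [y1,z0,z3])],.ref k3 k0 [(z1,[z0,z1]),(z2,[y1,y4,z4])]]),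
    .old (.lp [k40,k40,k8,k30] [k0,k0,k0,k0,k16,k16,k5,k5] k0 [] k120 k6
    [[(k4,k24)],[(k5,k24),(k3,k40)],[(k0,k40),(k2,k40)],[(k5,k24),(k3,k40)],[(k0,k24),(k2,k24)],[(k1,k24)],[(k6,k30)],
    [(k7,k30)]]
    [] k0
    [[k1,k0,k1,k0],[k2,k0,k2,k0],[k1,k1,k1,k0],[k0,k2,k0,k0],[k0,k0,k0,k2],[k0,k0,k0,k3]]
    [.contra [y1,z1],.ref k5 k0 [(z2,[z1])],.contra [y1,z1],.contra [z1],.contra [z1],.ref k2 k0 [(z1,[y1,z3])]])]⟩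

/-- classes `0 0 1 1`, types `C0 C0 N0 N2` -/
noncomputable def cU4_31 : CertX :=
  ⟨[k4,k4,k28,k30],[],[[[]]],
    [.old (.leafM k1 [k0,k1,k2,k3] [] [])]⟩

/-- classes `0 0 1 1`, types `C0 C0 S0 S0` -/
noncomputable def cU4_32 : CertX :=
  ⟨[k4,k4,k16,k16],[],[[[]]],
    [.old (.leafM k0 [k0,k1,k2,k3] [] [])]⟩

/-- classes `0 0 1 1`, types `C0 C2 C0 C2` -/
noncomputable def cU4_33 : CertX :=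
  ⟨[k4,k6,k20,k22],[],[[[]]],
    [.old (.leafM k0 [k0,k1,k2,k3] [] [])]⟩

/-- classes `0 0 1 1`, types `C0 C2 N0 N1` -/
noncomputable def cU4_34 : CertX :=
  ⟨[k4,k6,k28,k29],[],[[[]]],
    [.old (.lp [k6,k6,k6,k10] [k2,k2,k2,k2,k2,k2,k0,k0] k0 [] k30 k6
    [[(k4,k6)],[(k2,k6),(k3,k6)],[(k0,k6),(k5,k6)],[(k0,k6),(k5,k6)],[(k2,k6),(k3,k6)],[(k1,k6)],[(k6,k10)],[(k7,
    k10)]]
    [] k0
    [[k1,k1,k1,k0],[k0,k0,k0,k2]]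
    [.contra [y1,z1],.contra [z1]])]⟩

/-- classes `0 0 1 1`, types `C0 C2 N0 N2` -/
noncomputable def cU4_35 : CertX :=
  ⟨[k4,k6,k28,k30],[],[[[]]],
    [.old (.leafM k1 [k0,k1,k2,k3] [] [])]⟩

/-- classes `0 0 1 1`, types `C0 C2 S0 S0` -/
noncomputable def cU4_36 : CertX :=
  ⟨[k4,k6,k16,k16],[],[[[]]],
    [.old (.leafM k0 [k0,k1,k2,k3] [] [])]⟩

/-- classes `0 0 1 1`, types `N0 N1 N0 N1` -/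
noncomputable def cU4_37 : CertX :=
  ⟨[k12,k13,k28,k29],[(false,k2,[k2,k3,k0,k1]),(false,k0,[k0,k1,k2,k3])],[[[([z3,z0,z3,z0],z2),([z0,z3,z0,z0],z2)],
    [([z1,z0,z1,z0],z1),([z0,z3,z0,z0],z1)],[([z3,z0,z3,z3],z4)],[([z1,z0,z1,z0],z1),([z0,z2,z0,z0],z1)],[([z1,z0,z1,
    z0],z1)],[]]],
    [.old (.leafM k10 [k0,k1,k2,k3] [(z1,[z0,z1]),(z1,[y1,y1,z3]),(z1,[z1])] []),
    .old (.leafM k11 [k2,k3,k0,k1] [(z1,[y3,y1,z3]),(z1,[z0,z1]),(z1,[z1])] []),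
    .old (.lp [k48,k40,k0,k30] [k0,k0,k4,k4,k24,k24,k9,k9] k0 [] k120 k6
    [[(k4,k24)],[(k5,k24)],[(k2,k40)],[(k3,k40)],[(k0,k24)],[(k1,k24)],[(k6,k30)],[(k7,k30)]]
    [] k0
    [[k1,k0,k1,k0],[k2,k0,k2,k0],[k0,k2,k0,k0],[k0,k0,k0,k2],[k0,k0,k0,k3]]
    [.contra [y1,z0,z1],.ref k1 k0 [(z2,[z1]),(z2,[y3,z2])],.contra [z1],.contra [z1],.ref k0 k1 [(z1,[y1,z1]),(z1,
    [z0,y1,z3])]]),
    .old (.leafM k12 [k0,k1,k2,k3] [(z1,[z0,z1]),(z1,[y2,y1,z2]),(z1,[z1])] []),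
    .old (.lp [k20,k10,k0,k8] [k0,k0,k5,k5,k10,k10,k6,k6] k0 [] k40 k6
    [[(k4,k10)],[(k5,k10)],[(k2,k10)],[(k3,k10)],[(k0,k10)],[(k1,k10)],[(k6,k8)],[(k7,k8)]]
    [] k0
    [[k1,k0,k1,k0],[k0,k2,k0,k0],[k0,k3,k0,k0],[k0,k0,k0,k2],[k0,k0,k0,k3],[k0,k0,k0,k4]]
    [.contra [y1,z2],.contra [z1],.ref k2 k1 [(z1,[y1,z0,z3])],.contra [z1],.ref k2 k0 [(z1,[y1,z0,z3])],
    .ref k3 k1 [(z1,[z0,z1]),(z2,[y1,y4,z4])]]),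
    .old (.lp [k48,k40,k0,k30] [k0,k0,k4,k4,k24,k24,k9,k9] k0 [] k120 k6
    [[(k4,k24)],[(k5,k24)],[(k2,k40)],[(k3,k40)],[(k0,k24)],[(k1,k24)],[(k6,k30)],[(k7,k30)]]
    [] k0
    [[k1,k0,k1,k0],[k2,k0,k2,k0],[k0,k2,k0,k0],[k0,k0,k0,k2],[k0,k0,k0,k3]]
    [.contra [y1,z1],.ref k4 k1 [(z2,[z1])],.contra [z1],.contra [z1],.ref k2 k0 [(z1,[y1,z3])]])]⟩

/-- classes `0 0 1 1`, types `N0 N1 N0 N2` -/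
noncomputable def cU4_38 : CertX :=
  ⟨[k12,k13,k28,k30],[],[[[]]],
    [.old (.lp [k6,k10,k6,k6] [k2,k2,k0,k0,k2,k2,k2,k2] k0 [] k30 k6
    [[(k7,k6)],[(k5,k6)],[(k2,k10)],[(k3,k10)],[(k0,k6)],[(k6,k6)],[(k1,k6)],[(k4,k6)]]
    [] k0
    [[k1,k0,k1,k1],[k0,k2,k0,k0]]
    [.contra [y1,z1],.contra [z1]])]⟩

/-- classes `0 0 1 1`, types `N0 N1 S0 S0` -/
noncomputable def cU4_39 : CertX :=
  ⟨[k12,k13,k16,k16],[(false,k0,[k0,k1,k2,k3])],[[[([z3,z0,z3,z0],z2),([z0,z3,z0,z0],z2)],[([z1,z0,z1,z0],z1),([z0,z3,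
    z0,z0],z2)],[([z3,z0,z3,z3],z4)],[([z1,z0,z1,z0],z1),([z0,z3,z0,z0],z1)],[([z1,z0,z1,z0],z1),([z0,z2,z0,z0],z1)],
    [([z1,z0,z1,z0],z1)],[]]],
    [.old (.leafM k10 [k0,k1,k2,k3] [(z1,[z0,z1]),(z1,[y1,y1,z3]),(z1,[z1])] []),
    .old (.leafM k8 [k0,k1,k2,k3] [(z1,[z0,z1]),(z1,[y3,y1,z3]),(z1,[z1])] []),
    .old (.lp [k24,k40,k24,k30] [k8,k8,k0,k0,k8,k8,k5,k5] k0 [] k120 k6
    [[(k1,k24),(k4,k24),(k6,k27),(k7,k27)],[(k5,k24)],[(k2,k40)],[(k3,k40)],[(k0,k24)],[(k1,k24),(k4,k24),(k6,k27),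
    (k7,k27)],[(k1,k27),(k4,k27),(k6,k30),(k7,k30)],[(k1,k27),(k4,k27),(k6,k30),(k7,k30)]]
    [] k0
    [[k2,k0,k2,k0],[k1,k0,k1,k0],[k1,k0,k1,k1],[k1,k0,k1,k2],[k0,k2,k0,k0],[k0,k0,k0,k2],[k0,k0,k0,k3]]
    [.ref k1 k0 [(z2,[z1]),(z1,[z0,y1,z3])],.contra [y1,z0,z1],.contra [z1,y1,z2],.ref k0 k0 [(z1,[y3,z2]),(z1,[z0,y1,
    z3])],.contra [z1],.contra [z1],.ref k0 k0 [(z1,[y1,z1]),(z1,[z0,y1,z3])]]),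
    .old (.leafM k11 [k2,k3,k0,k1] [(z1,[y3,y1,z3]),(z1,[z0,z1]),(z1,[z1])] []),
    .old (.leafM k9 [k0,k1,k2,k3] [(z1,[z0,z1]),(z1,[y2,y1,z2]),(z1,[z1])] []),
    .old (.lp [k12,k8,k8,k10] [k0,k0,k2,k2,k2,k2,k1,k1] k0 [] k40 k6
    [[(k4,k10),(k6,k11),(k7,k11),(k1,k12)],[(k5,k10)],[(k2,k8)],[(k3,k8)],[(k0,k10)],[(k4,k8),(k6,k9),(k7,k9),(k1,
    k10)],[(k4,k9),(k6,k10),(k7,k10),(k1,k11)],[(k4,k9),(k6,k10),(k7,k10),(k1,k11)]]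
    [] k0
    [[k1,k0,k1,k0],[k1,k0,k1,k1],[k0,k2,k0,k0],[k0,k3,k0,k0],[k0,k4,k0,k0],[k0,k0,k0,k2],[k0,k0,k0,k3]]
    [.contra [y1,z2],.contra [z1,y1],.contra [z1],.ref k2 k0 [(z1,[y1,z0,z3])],.ref k4 k0 [(z1,[z0,z1]),(z2,[z1])],
    .contra [z1],.ref k3 k0 [(z1,[z0,z1]),(z1,[y1,y3,z3])]]),
    .old (.lp [k24,k30,k24,k40] [k8,k8,k5,k5,k8,k8,k0,k0] k0 [] k120 k6
    [[(k1,k24),(k4,k24),(k6,k32),(k7,k32)],[(k5,k24)],[(k2,k30)],[(k3,k30)],[(k0,k24)],[(k1,k24),(k4,k24),(k6,k32),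
    (k7,k32)],[(k1,k32),(k4,k32),(k6,k40),(k7,k40)],[(k1,k32),(k4,k32),(k6,k40),(k7,k40)]]
    [] k0
    [[k2,k0,k2,k0],[k1,k0,k1,k0],[k1,k0,k1,k1],[k0,k2,k0,k0],[k0,k3,k0,k0],[k0,k0,k0,k2]]
    [.ref k5 k0 [(z2,[z1])],.contra [y1,z1],.contra [y1,z1],.contra [z1],.ref k2 k0 [(z1,[y1,z3])],.contra [z1]])]⟩

/-- classes `0 0 1 1`, types `N0 N2 N0 N2` -/
noncomputable def cU4_40 : CertX :=
  ⟨[k12,k14,k28,k30],[],[[[]]],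
    [.old (.leafM k3 [k0,k1,k2,k3] [] [])]⟩

/-- classes `0 0 1 1`, types `N0 N2 S0 S0` -/
noncomputable def cU4_41 : CertX :=
  ⟨[k12,k14,k16,k16],[],[[[]]],
    [.old (.leafM k1 [k2,k3,k0,k1] [] [])]⟩

/-- classes `0 0 1 2`, types `B0 B1 C0 C0` -/
noncomputable def cU4_42 : CertX :=
  ⟨[k8,k9,k20,k36],[],[[[]]],
    [.old (.leafM k1 [k2,k3,k0,k1] [] [])]⟩

/-- classes `0 0 1 2`, types `B0 B1 C0 S0` -/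
noncomputable def cU4_43 : CertX :=
  ⟨[k8,k9,k20,k32],[],[[[]]],
    [.old (.leafM k1 [k2,k3,k0,k1] [] [])]⟩

/-- classes `0 0 1 2`, types `B0 B1 S0 S0` -/
noncomputable def cU4_44 : CertX :=
  ⟨[k8,k9,k16,k32],[],[[[]]],
    [.old (.leafM k1 [k2,k3,k0,k1] [] [])]⟩

/-- classes `0 0 1 2`, types `C0 C0 C0 C0` -/
noncomputable def cU4_45 : CertX :=
  ⟨[k4,k4,k20,k36],[],[[[]]],
    [.old (.leafM k0 [k0,k1,k2,k3] [] [])]⟩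

/-- classes `0 0 1 2`, types `C0 C0 C0 S0` -/
noncomputable def cU4_46 : CertX :=
  ⟨[k4,k4,k20,k32],[],[[[]]],
    [.old (.leafM k0 [k0,k1,k2,k3] [] [])]⟩

/-- classes `0 0 1 2`, types `C0 C0 S0 S0` -/
noncomputable def cU4_47 : CertX :=
  ⟨[k4,k4,k16,k32],[],[[[]]],
    [.old (.leafM k0 [k0,k1,k2,k3] [] [])]⟩

/-- classes `0 0 1 2`, types `C0 C2 C0 C0` -/
noncomputable def cU4_48 : CertX :=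
  ⟨[k4,k6,k20,k36],[],[[[]]],
    [.old (.leafM k0 [k0,k1,k2,k3] [] [])]⟩

/-- classes `0 0 1 2`, types `C0 C2 C0 S0` -/
noncomputable def cU4_49 : CertX :=
  ⟨[k4,k6,k20,k32],[],[[[]]],
    [.old (.leafM k0 [k0,k1,k2,k3] [] [])]⟩

/-- classes `0 0 1 2`, types `C0 C2 S0 S0` -/
noncomputable def cU4_50 : CertX :=
  ⟨[k4,k6,k16,k32],[],[[[]]],
    [.old (.leafM k0 [k0,k1,k2,k3] [] [])]⟩

/-- classes `0 0 1 2`, types `N0 N1 C0 C0` -/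
noncomputable def cU4_51 : CertX :=
  ⟨[k12,k13,k20,k36],[],[[[]]],
    [.old (.lp [k6,k10,k6,k6] [k2,k2,k0,k0,k2,k2,k2,k2] k0 [] k30 k6
    [[(k6,k6)],[(k5,k6)],[(k2,k10)],[(k3,k10)],[(k0,k6)],[(k7,k6)],[(k4,k6)],[(k1,k6)]]
    [] k0
    [[k1,k0,k1,k1],[k0,k2,k0,k0]]
    [.contra [y1,z1],.contra [z1]])]⟩

/-- classes `0 0 1 2`, types `N0 N1 C0 S0` -/
noncomputable def cU4_52 : CertX :=
  ⟨[k12,k13,k20,k32],[],[[[]]],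
    [.old (.lp [k6,k10,k6,k6] [k2,k2,k0,k0,k2,k2,k2,k2] k0 [] k30 k6
    [[(k1,k6),(k6,k6)],[(k5,k6)],[(k2,k10)],[(k3,k10)],[(k0,k6)],[(k7,k6)],[(k4,k6)],[(k1,k6),(k6,k6)]]
    [] k0
    [[k1,k0,k1,k1],[k0,k2,k0,k0]]
    [.contra [y1,z1],.contra [z1]])]⟩

/-- classes `0 0 1 2`, types `N0 N1 S0 S0` -/
noncomputable def cU4_53 : CertX :=
  ⟨[k12,k13,k16,k32],[(false,k0,[k0,k1,k2,k3])],[[[([z1,z0,z1,z0],z1),([z0,z2,z0,z0],z1)],[([z1,z0,z1,z0],z1),([z0,z3,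
    z0,z0],z2)],[([z1,z0,z1,z0],z1)],[]]],
    [.old (.leafM k9 [k0,k1,k2,k3] [(z1,[z0,z1]),(z1,[y2,y1,z2]),(z1,[z1])] []),
    .old (.leafM k8 [k0,k1,k2,k3] [(z1,[z0,z1]),(z1,[y3,y1,z3]),(z1,[z1])] []),
    .old (.lp [k12,k10,k8,k8] [k0,k0,k1,k1,k2,k2,k2,k2] k0 [] k40 k6
    [[(k6,k10),(k1,k12)],[(k5,k10)],[(k2,k10)],[(k3,k10)],[(k0,k10)],[(k4,k8),(k7,k8)],[(k4,k8),(k7,k8)],[(k6,k8),(k1,
    k10)]]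
    [] k0
    [[k1,k0,k1,k1],[k0,k2,k0,k0],[k0,k3,k0,k0],[k0,k0,k0,k2],[k0,k0,k0,k4]]
    [.contra [z1,y1],.contra [z1],.ref k1 k0 [(z1,[z0,z1]),(z1,[z1])],.contra [z1],.ref k0 k0 [(z1,[z0,z1]),(z2,[y1,
    y4,z4])]]),
    .old (.lp [k24,k40,k24,k30] [k8,k8,k0,k0,k8,k8,k5,k5] k0 [] k120 k6
    [[(k1,k24),(k6,k27)],[(k5,k24)],[(k2,k40)],[(k3,k40)],[(k0,k24)],[(k4,k24),(k7,k27)],[(k4,k27),(k7,k30)],[(k1,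
    k27),(k6,k30)]]
    [] k0
    [[k2,k0,k2,k0],[k1,k0,k1,k1],[k0,k2,k0,k0],[k0,k0,k0,k2]]
    [.ref k2 k0 [(z2,[z1])],.contra [y1,z1],.contra [z1],.contra [z1]])]⟩

/-- classes `0 0 1 2`, types `N0 N2 C0 C0` -/
noncomputable def cU4_54 : CertX :=
  ⟨[k12,k14,k20,k36],[],[[[]]],
    [.old (.leafM k1 [k2,k3,k0,k1] [] [])]⟩

/-- classes `0 0 1 2`, types `N0 N2 C0 S0` -/
noncomputable def cU4_55 : CertX :=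
  ⟨[k12,k14,k20,k32],[],[[[]]],
    [.old (.leafM k1 [k2,k3,k0,k1] [] [])]⟩

/-- classes `0 0 1 2`, types `N0 N2 S0 S0` -/
noncomputable def cU4_56 : CertX :=
  ⟨[k12,k14,k16,k32],[],[[[]]],
    [.old (.leafM k1 [k2,k3,k0,k1] [] [])]⟩

/-- classes `0 0 1 2`, types `S0 S0 C0 C0` -/
noncomputable def cU4_57 : CertX :=
  ⟨[k0,k0,k20,k36],[],[[[]]],
    [.old (.leafM k0 [k0,k1,k2,k3] [] [])]⟩

/-- classes `0 0 1 2`, types `S0 S0 C0 S0` -/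
noncomputable def cU4_58 : CertX :=
  ⟨[k0,k0,k20,k32],[],[[[]]],
    [.old (.leafM k0 [k0,k1,k2,k3] [] [])]⟩

/-- classes `0 1 0 1`, types `B0 B0 B1 B1` -/
noncomputable def cU4_59 : CertX :=
  ⟨[k8,k24,k9,k25],[],[[[]]],
    [.old (.leafM k5 [k0,k1,k2,k3] [] [])]⟩

/-- classes `0 1 0 1`, types `B0 C0 B1 C0` -/
noncomputable def cU4_60 : CertX :=
  ⟨[k8,k20,k9,k20],[],[[[]]],
    [.old (.leafM k2 [k1,k2,k3,k0] [] [])]⟩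

/-- classes `0 1 0 1`, types `B0 C0 B1 C2` -/
noncomputable def cU4_61 : CertX :=
  ⟨[k8,k20,k9,k22],[],[[[]]],
    [.old (.leafM k2 [k1,k2,k3,k0] [] [])]⟩

/-- classes `0 1 0 1`, types `B0 N0 B1 N1` -/
noncomputable def cU4_62 : CertX :=
  ⟨[k8,k28,k9,k29],[],[[[]]],
    [.old (.leafM k5 [k0,k1,k2,k3] [] [])]⟩

/-- classes `0 1 0 1`, types `B0 N0 B1 N2` -/
noncomputable def cU4_63 : CertX :=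
  ⟨[k8,k28,k9,k30],[],[[[]]],
    [.old (.leafM k6 [k0,k1,k2,k3] [] [])]⟩

/-- classes `0 1 0 1`, types `B0 S0 B1 S0` -/
noncomputable def cU4_64 : CertX :=
  ⟨[k8,k16,k9,k16],[],[[[]]],
    [.old (.leafM k2 [k1,k2,k3,k0] [] [])]⟩

/-- classes `0 1 0 1`, types `C0 C0 C0 C0` -/
noncomputable def cU4_65 : CertX :=
  ⟨[k4,k20,k4,k20],[],[[[]]],
    [.old (.leafM k0 [k0,k1,k2,k3] [] [])]⟩

/-- classes `0 1 0 1`, types `C0 C0 C0 C2` -/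
noncomputable def cU4_66 : CertX :=
  ⟨[k4,k20,k4,k22],[],[[[]]],
    [.old (.leafM k0 [k0,k1,k2,k3] [] [])]⟩

/-- classes `0 1 0 1`, types `C0 C0 C2 C2` -/
noncomputable def cU4_67 : CertX :=
  ⟨[k4,k20,k6,k22],[],[[[]]],
    [.old (.leafM k0 [k0,k1,k2,k3] [] [])]⟩

/-- classes `0 1 0 1`, types `C0 N0 C0 N1` -/
noncomputable def cU4_68 : CertX :=
  ⟨[k4,k28,k4,k29],[],[[[]]],
    [.old (.leafM k5 [k0,k1,k2,k3] [] [])]⟩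

/-- classes `0 1 0 1`, types `C0 N0 C0 N2` -/
noncomputable def cU4_69 : CertX :=
  ⟨[k4,k28,k4,k30],[],[[[]]],
    [.old (.leafM k2 [k0,k1,k2,k3] [] [])]⟩

/-- classes `0 1 0 1`, types `C0 N0 C2 N1` -/
noncomputable def cU4_70 : CertX :=
  ⟨[k4,k28,k6,k29],[],[[[]]],
    [.old (.leafM k6 [k1,k2,k3,k0] [] [])]⟩

/-- classes `0 1 0 1`, types `C0 N0 C2 N2` -/
noncomputable def cU4_71 : CertX :=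
  ⟨[k4,k28,k6,k30],[],[[[]]],
    [.old (.leafM k2 [k0,k1,k2,k3] [] [])]⟩

/-- classes `0 1 0 1`, types `C0 S0 C0 S0` -/
noncomputable def cU4_72 : CertX :=
  ⟨[k4,k16,k4,k16],[],[[[]]],
    [.old (.leafM k0 [k0,k1,k2,k3] [] [])]⟩

/-- classes `0 1 0 1`, types `C0 S0 C2 S0` -/
noncomputable def cU4_73 : CertX :=
  ⟨[k4,k16,k6,k16],[],[[[]]],
    [.old (.leafM k0 [k0,k1,k2,k3] [] [])]⟩

/-- classes `0 1 0 1`, types `N0 N0 N1 N1` -/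
noncomputable def cU4_74 : CertX :=
  ⟨[k12,k28,k13,k29],[],[[[]]],
    [.old (.leafM k5 [k0,k1,k2,k3] [] [])]⟩

/-- classes `0 1 0 1`, types `N0 N0 N1 N2` -/
noncomputable def cU4_75 : CertX :=
  ⟨[k12,k28,k13,k30],[],[[[]]],
    [.old (.leafM k6 [k0,k1,k2,k3] [] [])]⟩

/-- classes `0 1 0 1`, types `N0 N0 N2 N2` -/
noncomputable def cU4_76 : CertX :=
  ⟨[k12,k28,k14,k30],[(false,k0,[k0,k1,k2,k3])],[[[([z1,z0,z1,z0],z1)],[]]],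
    [.old (.leafM k7 [k0,k1,k2,k3] [(z1,[y1,z1])] []),
    .old (.lp [k8,k0,k0,k10] [k1,k1,k5,k5,k5,k5,k0,k0] k0 [] k20 k6
    [[(k5,k4)],[(k4,k4)],[(k7,k5)],[(k6,k5)],[(k1,k4)],[(k0,k4)],[(k3,k5)],[(k2,k5)]]
    [] k0
    [[k1,k0,k1,k0],[k2,k0,k2,k0],[k0,k1,k0,k1]]
    [.contra [y1,z1],.ref k0 k0 [(z2,[z1])],.contra [y1,z1]])]⟩

/-- classes `0 1 0 1`, types `N0 S0 N1 S0` -/
noncomputable def cU4_77 : CertX :=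
  ⟨[k12,k16,k13,k16],[],[[[]]],
    [.old (.leafM k5 [k0,k1,k2,k3] [] [])]⟩

/-- classes `0 1 0 1`, types `N0 S0 N2 S0` -/
noncomputable def cU4_78 : CertX :=
  ⟨[k12,k16,k14,k16],[],[[[]]],
    [.old (.leafM k2 [k1,k2,k3,k0] [] [])]⟩

/-- classes `0 1 0 2`, types `B0 C0 B1 C0` -/
noncomputable def cU4_79 : CertX :=
  ⟨[k8,k20,k9,k36],[],[[[]]],
    [.old (.leafM k2 [k1,k2,k3,k0] [] [])]⟩

/-- classes `0 1 0 2`, types `B0 C0 B1 S0` -/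
noncomputable def cU4_80 : CertX :=
  ⟨[k8,k20,k9,k32],[],[[[]]],
    [.old (.leafM k2 [k1,k2,k3,k0] [] [])]⟩

/-- classes `0 1 0 2`, types `B0 S0 B1 S0` -/
noncomputable def cU4_81 : CertX :=
  ⟨[k8,k16,k9,k32],[],[[[]]],
    [.old (.leafM k2 [k1,k2,k3,k0] [] [])]⟩

/-- classes `0 1 0 2`, types `C0 C0 C0 C0` -/
noncomputable def cU4_82 : CertX :=
  ⟨[k4,k20,k4,k36],[],[[[]]],
    [.old (.leafM k0 [k0,k1,k2,k3] [] [])]⟩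

/-- classes `0 1 0 2`, types `C0 C0 C0 S0` -/
noncomputable def cU4_83 : CertX :=
  ⟨[k4,k20,k4,k32],[],[[[]]],
    [.old (.leafM k0 [k0,k1,k2,k3] [] [])]⟩

/-- classes `0 1 0 2`, types `C0 C0 C2 C0` -/
noncomputable def cU4_84 : CertX :=
  ⟨[k4,k20,k6,k36],[],[[[]]],
    [.old (.leafM k0 [k0,k1,k2,k3] [] [])]⟩

/-- classes `0 1 0 2`, types `C0 C0 C2 S0` -/
noncomputable def cU4_85 : CertX :=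
  ⟨[k4,k20,k6,k32],[],[[[]]],
    [.old (.leafM k0 [k0,k1,k2,k3] [] [])]⟩

/-- classes `0 1 0 2`, types `C0 S0 C0 S0` -/
noncomputable def cU4_86 : CertX :=
  ⟨[k4,k16,k4,k32],[],[[[]]],
    [.old (.leafM k0 [k0,k1,k2,k3] [] [])]⟩

/-- classes `0 1 0 2`, types `C0 S0 C2 S0` -/
noncomputable def cU4_87 : CertX :=
  ⟨[k4,k16,k6,k32],[],[[[]]],
    [.old (.leafM k0 [k0,k1,k2,k3] [] [])]⟩

/-- classes `0 1 0 2`, types `N0 C0 N1 C0` -/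
noncomputable def cU4_88 : CertX :=
  ⟨[k12,k20,k13,k36],[(false,k0,[k0,k1,k2,k3])],[[[([z1,z0,z0,z1],z1)],[]]],
    [.old (.leafM k4 [k0,k1,k2,k3] [(z1,[y1,z1])] []),
    .old (.lp [k0,k8,k0,k10] [k5,k5,k1,k1,k5,k5,k0,k0] k0 [] k20 k6
    [[(k6,k5)],[(k7,k5)],[(k4,k4)],[(k5,k4)],[(k2,k4)],[(k3,k4)],[(k0,k5)],[(k1,k5)]]
    [] k0
    [[k1,k0,k0,k1],[k0,k1,k1,k0],[k0,k2,k2,k0]]
    [.contra [y1,z1],.contra [y1,z1],.ref k0 k0 [(z2,[y1,z2])]])]⟩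

/-- classes `0 1 0 2`, types `N0 C0 N1 S0` -/
noncomputable def cU4_89 : CertX :=
  ⟨[k12,k20,k13,k32],[(false,k0,[k0,k1,k2,k3])],[[[([z1,z0,z0,z1],z1)],[]]],
    [.old (.leafM k4 [k0,k1,k2,k3] [(z1,[y1,z1])] []),
    .old (.lp [k6,k0,k8,k4] [k1,k1,k4,k4,k0,k0,k2,k2] k0 [] k20 k6
    [[(k6,k5),(k1,k6)],[(k7,k5)],[(k4,k4)],[(k5,k4)],[(k2,k4)],[(k3,k4)],[(k0,k5)],[(k6,k4),(k1,k5)]]
    [] k0
    [[k1,k0,k0,k1],[k0,k1,k1,k0],[k0,k2,k2,k0]]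
    [.contra [y1,z1],.contra [y1,z1],.ref k0 k0 [(z2,[y1,z2])]])]⟩

/-- classes `0 1 0 2`, types `N0 C0 N2 C0` -/
noncomputable def cU4_90 : CertX :=
  ⟨[k12,k20,k14,k36],[],[[[]]],
    [.old (.leafM k2 [k1,k2,k3,k0] [] [])]⟩

/-- classes `0 1 0 2`, types `N0 C0 N2 S0` -/
noncomputable def cU4_91 : CertX :=
  ⟨[k12,k20,k14,k32],[],[[[]]],
    [.old (.leafM k2 [k1,k2,k3,k0] [] [])]⟩

/-- classes `0 1 0 2`, types `N0 S0 N1 S0` -/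
noncomputable def cU4_92 : CertX :=
  ⟨[k12,k16,k13,k32],[(false,k0,[k0,k1,k2,k3])],[[[([z1,z0,z0,z1],z1)],[]]],
    [.old (.leafM k4 [k0,k1,k2,k3] [(z1,[y1,z1])] []),
    .old (.lp [k4,k6,k4,k4] [k1,k1,k0,k0,k1,k1,k1,k1] k0 [] k20 k6
    [[(k1,k4),(k6,k4)],[(k7,k4)],[(k4,k5)],[(k5,k5),(k2,k6)],[(k5,k4),(k2,k5)],[(k3,k5)],[(k0,k4)],[(k1,k4),(k6,k4)]]
    [] k0
    [[k2,k0,k0,k2],[k1,k0,k0,k1],[k0,k1,k1,k0]]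
    [.ref k0 k0 [(z2,[z1])],.contra [y1,z1],.contra [y1,z1]])]⟩

/-- classes `0 1 0 2`, types `N0 S0 N2 S0` -/
noncomputable def cU4_93 : CertX :=
  ⟨[k12,k16,k14,k32],[],[[[]]],
    [.old (.leafM k2 [k1,k2,k3,k0] [] [])]⟩

/-- classes `0 1 0 2`, types `S0 C0 S0 C0` -/
noncomputable def cU4_94 : CertX :=
  ⟨[k0,k20,k0,k36],[],[[[]]],
    [.old (.leafM k0 [k0,k1,k2,k3] [] [])]⟩

/-- classes `0 1 0 2`, types `S0 C0 S0 S0` -/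
noncomputable def cU4_95 : CertX :=
  ⟨[k0,k20,k0,k32],[],[[[]]],
    [.old (.leafM k0 [k0,k1,k2,k3] [] [])]⟩

/-- classes `0 1 2 3`, types `C0 C0 C0 C0` -/
noncomputable def cU4_96 : CertX :=
  ⟨[k4,k20,k36,k52],[],[[[]]],
    [.old (.leafM k0 [k0,k1,k2,k3] [] [])]⟩

/-- classes `0 1 2 3`, types `C0 C0 C0 S0` -/
noncomputable def cU4_97 : CertX :=
  ⟨[k4,k20,k36,k48],[],[[[]]],
    [.old (.leafM k0 [k0,k1,k2,k3] [] [])]⟩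

/-- classes `0 1 2 3`, types `C0 C0 S0 S0` -/
noncomputable def cU4_98 : CertX :=
  ⟨[k4,k20,k32,k48],[],[[[]]],
    [.old (.leafM k0 [k0,k1,k2,k3] [] [])]⟩

/-- classes `0 1 2 3`, types `C0 S0 C0 S0` -/
noncomputable def cU4_99 : CertX :=
  ⟨[k4,k16,k36,k48],[],[[[]]],
    [.old (.leafM k0 [k0,k1,k2,k3] [] [])]⟩

/-- classes `0 1 2 3`, types `C0 S0 S0 S0` -/
noncomputable def cU4_100 : CertX :=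
  ⟨[k4,k16,k32,k48],[],[[[]]],
    [.old (.leafM k0 [k0,k1,k2,k3] [] [])]⟩

/-- the certificates of this file -/
noncomputable def lU4_0 : List CertX :=
  [cU4_0, cU4_1, cU4_2, cU4_3, cU4_4, cU4_5, cU4_6, cU4_7, cU4_8, cU4_9, cU4_10, cU4_11, cU4_12, cU4_13,
      cU4_14, cU4_15, cU4_16, cU4_17, cU4_18, cU4_19, cU4_20, cU4_21, cU4_22, cU4_23, cU4_24, cU4_25, cU4_26,
      cU4_27, cU4_28, cU4_29, cU4_30, cU4_31, cU4_32, cU4_33, cU4_34, cU4_35, cU4_36, cU4_37, cU4_38, cU4_39,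
      cU4_40, cU4_41, cU4_42, cU4_43, cU4_44, cU4_45, cU4_46, cU4_47, cU4_48, cU4_49, cU4_50, cU4_51, cU4_52,
      cU4_53, cU4_54, cU4_55, cU4_56, cU4_57, cU4_58, cU4_59, cU4_60, cU4_61, cU4_62, cU4_63, cU4_64, cU4_65,
      cU4_66, cU4_67, cU4_68, cU4_69, cU4_70, cU4_71, cU4_72, cU4_73, cU4_74, cU4_75, cU4_76, cU4_77, cU4_78,
      cU4_79, cU4_80, cU4_81, cU4_82, cU4_83, cU4_84, cU4_85, cU4_86, cU4_87, cU4_88, cU4_89, cU4_90, cU4_91,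
      cU4_92, cU4_93, cU4_94, cU4_95, cU4_96, cU4_97, cU4_98, cU4_99, cU4_100]

theorem gU4_0 : allF (chkE 4 ttU4) lU4_0 = true := by
  decide +kernel

end Pool.Agent.Lib_MP_fa6e45
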