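import Pool.Agent.Lib_MP_fa6e45.CY5_0d

/-!
MP_fa6e45_co, stage 7: certificates (generated by a program).
-/

namespace Pool.Agent.Lib_MP_fa6e45

noncomputable def cU5_0_n0_0 : List XN :=
  [.old (.leafM k0 [k1,k2,k3] [] [(k4,k0,z1,[z1]),(k0,k4,z1,[z1])]),
    .old (.leafM k1 [k3,k4,k0,k1,k2] [(z1,[z1])] []),
    .old (.tor k2 false k0 [(z1,[y1,y1,z1]),(z1,[z0,y1,z1]),(z1,[z1,z2])]),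
    .old (.tor k0 false k1 [(z1,[y1,y1,z1]),(z1,[z0,y1,z1]),(z1,[z1,z2])]),
    .old (.tor k1 false k0 [(z1,[y1,y1,z1]),(z1,[z0,y1,z1]),(z1,[z1,z2])]),
    .old (.tor k3 false k1 [(z1,[y1,y1,z2]),(z1,[z1]),(z1,[z0,z1])]),
    .geo true z1 k4 [(y2,z4),(y3,z5),(z6,y8),(z2,y2),(z0,z1)] [(z1,[z1]),(z1,[z0,z1]),(z1,[z0,z0,z1]),(z1,[y1,y1,y1,z1]),
    (z1,[])] (Int.ofNat (nat_lit 629145)) (Int.ofNat (nat_lit 786432)) (.s (.l k1) (.l k1)) [],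
    .geo true z3 k4 [(y1,z3),(z6,y6),(z2,z0),(z2,z0),(z0,z3)] [(z1,[z1]),(z1,[z0,z3]),(z1,[z0,z0,z1]),(z1,[y1,y3,y1,z3]),
    (z1,[])] (Int.ofNat (nat_lit 349525)) (Int.ofNat (nat_lit 1048576)) (.s (.s (.l k1) (.l k1)) (.s (.l k1) (.l k1))) [],
    .old (.leafM k3 [k1,k3,k0] [(z1,[y1,y2,z2]),(z1,[z1])] [(k2,k4,z1,[z0,z1]),(k4,k2,z1,[z0,z1])]),
    .old (.leafM k4 [k1,k3,k0] [(z1,[y1,y3,z3]),(z1,[z1])] [(k2,k4,z1,[z0,z1]),(k4,k2,z1,[z0,z1])]),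
    .old (.tor k4 true k4 [(z1,[z0,z1,z1]),(z1,[y1,y1,z1]),(z1,[z1])]),
    .geo true z9 k0 [(z2,z0),(z8,z0),(z4,z0),(z3,z0),(z10,z0)] [(z1,[z1]),(z1,[z0,z1]),(z1,[z0,z0,z1]),(z1,[z0,z0,z0,z3]),
    (z1,[y1,y1,y1,y3,z9])] z0 (Int.ofNat (nat_lit 2097152)) (.l k1) []]

noncomputable def cU5_0_n0_1 : List XN :=
  [.old (.lp [(nat_lit 8031245302080),(nat_lit 6959508175620),(nat_lit 9537103796220),(nat_lit 9537103796220),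
    (nat_lit 8803480427280)] [(nat_lit 2727043039854),(nat_lit 2727043039854),(nat_lit 3262911603084),
    (nat_lit 3262911603084),(nat_lit 1974113792784),(nat_lit 1974113792784),(nat_lit 1974113792784),
    (nat_lit 1974113792784),(nat_lit 4681850954508),k0] k0 [[k0,k0,k0,k0,k0,k0,(nat_lit 6666713333280)],[k0,k0,k0,
    (nat_lit 2103772896225),k0,k0,k0,k0,k0,(nat_lit 264919549895)],[(nat_lit 2103772896225),k0,k0,k0,k0,k0,k0,k0,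
    (nat_lit 2103772896225)],[k0,k0,k0,k0,k0,(nat_lit 5449773597840)],[k0,k0,(nat_lit 5449773597840)],[],[k0,k0,k0,k0,
    k0,k0,k0,k0,(nat_lit 4324965675030)],[k0,(nat_lit 6666713333280)],[(nat_lit 264919549895)],[k0,k0,k0,
    (nat_lit 2103772896225),k0,k0,k0,(nat_lit 4324965675030)]] (nat_lit 28611311388660) k8
    [[(k6,(nat_lit 4459208874120)),(k2,(nat_lit 5391603842625)),(k8,(nat_lit 6076437387426)),(k0,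
    (nat_lit 8296164851975)),(k4,(nat_lit 8784174549150))],[(k9,(nat_lit 4091575008654)),(k3,(nat_lit 7495376738850)),
    (k1,(nat_lit 8296164851975)),(k7,(nat_lit 8784174549150)),(k5,(nat_lit 10887947445375))],[(k2,
    (nat_lit 4855735279395)),(k8,(nat_lit 5275649274301)),(k0,(nat_lit 7495376738850)),(k4,(nat_lit 8248305985920)),
    (k6,(nat_lit 14915019319200))],[(k3,(nat_lit 4855735279395)),(k1,(nat_lit 5391603842625)),(k5,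
    (nat_lit 8248305985920)),(k9,(nat_lit 10222419778704)),(k7,(nat_lit 13698079583760))],[(k4,
    (nat_lit 4087330198380)),(k2,(nat_lit 8248305985920)),(k8,(nat_lit 8933139530721)),(k6,(nat_lit 9537103796220)),
    (k0,(nat_lit 10887947445375))],[(k5,(nat_lit 4087330198380)),(k3,(nat_lit 8248305985920)),(k1,
    (nat_lit 8784174549150)),(k7,(nat_lit 9537103796220)),(k9,(nat_lit 11511217589004))],[(k8,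
    (nat_lit 6829366634496)),(k0,(nat_lit 8784174549150)),(k4,(nat_lit 9537103796220)),(k6,(nat_lit 9537103796220)),
    (k2,(nat_lit 13698079583760))],[(k1,(nat_lit 4459208874120)),(k5,(nat_lit 9537103796220)),(k7,
    (nat_lit 9537103796220)),(k9,(nat_lit 11511217589004)),(k3,(nat_lit 14915019319200))],[(k0,
    (nat_lit 4091575008654)),(k2,(nat_lit 10222419778704)),(k4,(nat_lit 11511217589004)),(k6,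
    (nat_lit 11511217589004)),(k8,(nat_lit 13128446102310))],[(k3,(nat_lit 5275649274301)),(k1,
    (nat_lit 6076437387426)),(k7,(nat_lit 6829366634496)),(k5,(nat_lit 8933139530721)),(k9,(nat_lit 13128446102310))]]
    [] k0
    [[k2,k0,k0,k0,k0],[k3,k0,k0,k0,k0],[k3,k0,k0,k0,k1],[k2,k1,k0,k0,k0],[k2,k2,k0,k0,k0],[k2,k2,k0,k0,k1],[k2,k1,k0,
    k0,k1],[k2,k0,k1,k0,k0],[k2,k0,k0,k1,k0],[k2,k0,k0,k1,k1],[k2,k0,k0,k0,k1],[k1,k1,k0,k0,k0],[k2,k1,k0,k1,k0],[k2,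
    k1,k0,k1,k1],[k1,k2,k0,k0,k0],[k1,k3,k0,k0,k0],[k1,k4,k0,k0,k0],[k1,k3,k0,k0,k1],[k1,k2,k0,k0,k1],[k1,k1,k1,k0,
    k0],[k1,k1,k1,k0,k1],[k1,k1,k0,k0,k1],[k2,k1,k0,k0,k2],[k1,k1,k0,k0,k2],[k1,k0,k1,k0,k0],[k1,k0,k2,k0,k0],[k1,k0,
    k3,k0,k0],[k1,k0,k2,k0,k1],[k1,k0,k1,k1,k0],[k1,k0,k1,k0,k1],[k1,k0,k0,k1,k0],[k2,k0,k0,k2,k0],[k1,k1,k0,k1,k0],
    [k1,k1,k0,k1,k1],[k1,k0,k1,k1,k1],[k1,k0,k0,k2,k0],[k1,k0,k0,k2,k1],[k1,k0,k0,k1,k1],[k2,k0,k0,k1,k2],[k1,k0,k0,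
    k1,k2],[k1,k0,k0,k0,k1],[k2,k0,k0,k0,k2],[k1,k0,k0,k0,k2],[k0,k2,k0,k0,k0],[k0,k3,k0,k0,k0],[k0,k4,k0,k0,k0],[k0,
    k5,k0,k0,k0],[k0,k3,k1,k0,k0],[k0,k3,k0,k0,k1],[k0,k2,k1,k0,k0],[k0,k2,k2,k0,k0],[k0,k2,k0,k0,k1],[k0,k1,k1,k0,
    k0],[k0,k1,k2,k0,k0],[k0,k1,k3,k0,k0],[k0,k1,k1,k0,k1],[k0,k1,k0,k0,k1],[k0,k0,k2,k0,k0],[k0,k0,k3,k0,k0],[k0,k0,
    k4,k0,k0],[k0,k0,k5,k0,k0],[k0,k0,k6,k0,k0],[k0,k0,k3,k1,k0],[k0,k0,k2,k1,k0],[k0,k0,k2,k0,k1],[k0,k0,k1,k1,k0],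
    [k0,k0,k1,k1,k1],[k0,k0,k1,k0,k1],[k0,k0,k0,k2,k0],[k0,k0,k0,k2,k1],[k0,k0,k0,k1,k1],[k0,k0,k0,k0,k2]]
    [.contra [z1],.contra [y1,z4,z0,z3],.contra [y1,z3,z5],.contra [y1,z2,z3],.contra [z2,y2,y3],.contra [z4,y2,y5],
    .ref k2 k0 [(z1,[y2,z2,z3]),(z1,[z0,z1,z0,z1])],.contra [z1,y2,z0,y1],.contra [y1,z1,z3,y1,z1],.ref k11 k1 [(z1,
    [y4,z4,y4,z5,z4]),(z1,[z2,y11,y7,y7,z7]),(z1,[z1,y1,z1,z1,y1]),(z1,[z1,z2,z1,z1,y1])],.contra [y2,z6,z0,z5],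
    .contra [z1,y1,y1],.contra [z1,z1,z0,z1,y1],.contra [z4,z6,z1,z4,y4],.contra [y1,z1,z2],.contra [y1,z1,z3],
    .contra [y1,z1,z4],.contra [z4,y2,y5],.contra [z4,y2,y5],.contra [y1,z2,z1,z1],.contra [z1,y1,z0,y1],.contra [y1,
    z1,z2],.contra [z1,z0,y1],.contra [z1,z0,y1],.contra [y1,z2,z1,z1],.contra [y2,z6,z1,z4],.contra [y1,z4,z0,z3],
    .contra [z1,y1,z0,y1],.contra [z1,z0,z1,z0,y1],.contra [y4,z6,z3,z4],.contra [y1,z1,y1,z1,z1],.ref k2 k0 [(z1,[y1,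
    y2,y1,y2,z2]),(z1,[z0,z1,z0,z1])],.contra [z1,z1,z0,z1,y1],.contra [y1,z0,z0,z0,z1],.contra [y1,z0,z0,z0,z1],
    .ref k10 k2 [(z1,[y1,z0,y1,z0,z2]),(z1,[z1,z1,z1,z1,y2])],.ref k8 k3 [(z1,[z1,z3,z2,z2,y2]),(z1,[z0,y1,z0,y1,
    z1])],.contra [y1,z0,z2,y1,z1],.ref k2 k0 [(z1,[y1,y1,z0,y1,z1]),(z1,[z0,z1,z0,z1])],.ref k10 k2 [(z1,[y1,z1,z0,
    z1,z1]),(z1,[z1,z0,z0,z0,y1])],.contra [y2,z2,z2,z1],.contra [y1,z2,z4],.contra [y1,z2,z0,z2],.contra [z1],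
    .contra [y1,z2,z3],.contra [z1,z0,y2,z1],.contra [z1,z0,y2,z1],.contra [z1,z2,y3,z3],.contra [z2,z0,y3,z1],
    .contra [z1,z0,z2,y1],.contra [z1,z0,z4,y2],.contra [y1,z1,z2],.contra [y1,z2,z1,z1],.ref k2 k0 [(z1,[z1,y2,z0,
    y2]),(z1,[z0,z1,z0,z1])],.ref k10 k2 [(z2,[z1,z2,z1,z1]),(z2,[y1,z0,y1,z1])],.ref k2 k0 [(z1,[z2,y2,y1,y2]),(z1,
    [z0,z1,z0,z1])],.contra [y4,z2,z5],.contra [z1],.contra [y1,z4,z0,z3],.ref k8 k3 [(z2,[y1,z4,z0,z4]),(z1,[z0,y1,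
    z0,y1,z1])],.ref k2 k0 [(z2,[z1,y4,z2,y5]),(z1,[z0,z1,z0,z1])],.ref k9 k3 [(z2,[y1,z6,z0,z6]),(z1,[z0,y1,z0,y1,
    z1])],.ref k2 k0 [(z1,[z1,y1,z2,y2,y1]),(z1,[z0,z1,z0,z1])],.contra [y1,z1,y1,z1,z1],.contra [y4,z10,z1,z8],
    .contra [y2,z0,y1,z0,z2],.contra [y4,y2,y3,z0,z4],.contra [y4,z6,z3,z4],.contra [y1,y2,z0,y2,z2],.ref k2 k0 [(z1,
    [y2,y6,y3,y4,z4]),(z1,[z0,z1,z0,z1])],.contra [z1,z2,z1,z1,y1],.contra [z1]]),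
    .geo true z1 k4 [(y3,z5),(z2,y2),(z6,y8),(y2,z4),(z0,z1)] [(z1,[z1]),(z1,[z0,z1]),(z1,[z0,z0,z1]),(z1,[y1,y1,y1,z1]),
    (z1,[])] (Int.ofNat (nat_lit 629145)) (Int.ofNat (nat_lit 786432)) (.s (.l k1) (.s (.l k1) (.l k1))) [],
    .geo true z2 k4 [(y4,z6),(z4,y4),(z4,y3),(z2,y1),(z0,z2)] [(z1,[z2]),(z1,[z0,z2]),(z1,[z0,z0,z1]),(z1,[y2,y2,y1,z2]),
    (z1,[])] (Int.ofNat (nat_lit 699050)) (Int.ofNat (nat_lit 1048576)) (.s (.l k1) (.l k1)) [],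
    .geo true z1 k4 [(y1,z2),(y2,z3),(z4,y4),(z2,y2),(z0,z1)] [(z1,[z1]),(z1,[z0,z1]),(z1,[z0,z0,z1]),(z1,[y1,y1,y1,z1]),
    (z1,[])] (Int.ofNat (nat_lit 699050)) (Int.ofNat (nat_lit 1048576)) (.s (.s (.l k1) (.l k1)) (.l k1)) [],
    .geo true z1 k4 [(y2,z4),(z2,y2),(z4,y6),(y1,z3),(z0,z1)] [(z1,[z1]),(z1,[z0,z1]),(z1,[z0,z0,z1]),(z1,[y1,y1,y1,z1]),
    (z1,[])] (Int.ofNat (nat_lit 524288)) (Int.ofNat (nat_lit 699051)) (.s (.l k1) (.s (.l k1) (.l k1))) [],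
    .geo true z3 k3 [(y1,z3),(z2,z0),(z6,y6),(z0,z3),(z2,z0)] [(z1,[z1]),(z1,[z0,z1]),(z1,[z0,z0,z3]),(z1,[]),(z1,[y1,y1,
    y3,z3])] (Int.ofNat (nat_lit 349525)) (Int.ofNat (nat_lit 1048576)) (.s (.l k1) (.s (.l k1) (.l k1))) [],
    .old (.lp [(nat_lit 510),(nat_lit 374),(nat_lit 588),(nat_lit 422),(nat_lit 612)] [k51,k51,k119,k119,k12,k12,k95,k95,
    k0,k0] k0 [[k0,k0,(nat_lit 258)],[k0,k0,k0,k0,k0,k0,k0,k0,k0,k50],[],[k0,(nat_lit 258),k0,k0,k0,k0,k0,k112],[k0,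
    k0,k0,k0,k0,k0,(nat_lit 360)],[],[k0,k0,k112,k0,k0,k0,k0,k0,k34],[k0,k0,k0,k0,k0,(nat_lit 360)],[k50],[k0,k0,k0,
    k0,k0,k0,k0,k34]] (nat_lit 1680) k7
    [[(k6,(nat_lit 432)),(k2,(nat_lit 442)),(k4,(nat_lit 549)),(k0,(nat_lit 560)),(k8,(nat_lit 561))],[(k5,
    (nat_lit 291)),(k3,(nat_lit 442)),(k7,(nat_lit 466)),(k1,(nat_lit 560)),(k9,(nat_lit 561))],[(k6,(nat_lit 398)),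
    (k0,(nat_lit 442)),(k8,(nat_lit 443)),(k4,(nat_lit 481)),(k2,(nat_lit 632))],[(k7,(nat_lit 398)),(k1,
    (nat_lit 442)),(k5,(nat_lit 481)),(k9,(nat_lit 605)),(k3,(nat_lit 632))],[(k0,(nat_lit 291)),(k6,(nat_lit 393)),
    (k2,(nat_lit 481)),(k4,(nat_lit 588)),(k8,(nat_lit 600))],[(k9,(nat_lit 240)),(k3,(nat_lit 481)),(k7,
    (nat_lit 505)),(k1,(nat_lit 549)),(k5,(nat_lit 588))],[(k2,(nat_lit 398)),(k0,(nat_lit 466)),(k4,(nat_lit 505)),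
    (k8,(nat_lit 517)),(k6,(nat_lit 782))],[(k5,(nat_lit 393)),(k3,(nat_lit 398)),(k1,(nat_lit 432)),(k9,
    (nat_lit 517)),(k7,(nat_lit 782))],[(k4,(nat_lit 240)),(k6,(nat_lit 517)),(k0,(nat_lit 561)),(k2,(nat_lit 605)),
    (k8,(nat_lit 646))],[(k3,(nat_lit 443)),(k7,(nat_lit 517)),(k1,(nat_lit 561)),(k5,(nat_lit 600)),(k9,
    (nat_lit 646))]]
    [] k0
    [[k2,k0,k0,k0,k0],[k2,k1,k0,k0,k0],[k2,k0,k1,k0,k0],[k2,k0,k0,k1,k0],[k2,k0,k1,k0,k1],[k1,k1,k0,k0,k0],[k1,k2,k0,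
    k0,k0],[k1,k1,k1,k0,k0],[k1,k1,k0,k1,k0],[k1,k1,k1,k1,k0],[k1,k1,k0,k0,k1],[k1,k1,k1,k0,k1],[k1,k0,k1,k0,k0],[k1,
    k0,k2,k0,k0],[k1,k0,k1,k1,k0],[k1,k0,k0,k1,k0],[k1,k0,k0,k1,k1],[k1,k0,k1,k1,k1],[k1,k0,k0,k0,k1],[k1,k0,k1,k0,
    k1],[k0,k2,k0,k0,k0],[k0,k2,k1,k0,k0],[k0,k2,k0,k1,k0],[k0,k1,k1,k0,k0],[k0,k1,k2,k0,k0],[k0,k1,k1,k1,k0],[k0,k1,
    k0,k1,k0],[k0,k2,k0,k2,k0],[k0,k1,k0,k2,k0],[k0,k1,k0,k1,k1],[k0,k1,k1,k1,k1],[k0,k1,k0,k0,k1],[k0,k1,k1,k0,k1],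
    [k0,k0,k2,k0,k0],[k0,k0,k2,k1,k0],[k0,k0,k2,k0,k1],[k0,k0,k1,k1,k0],[k0,k0,k1,k1,k1],[k0,k0,k1,k0,k1],[k0,k0,k1,
    k0,k2],[k0,k0,k0,k2,k0],[k0,k0,k0,k1,k1],[k0,k0,k0,k0,k2]]
    [.contra [z1],.contra [z1,y2,y1],.contra [z1,y1,z1,y1],.ref k5 k4 [(z1,[z1]),(z1,[z0,z0,z1])],.ref k17 k4 [(z1,
    [z1,z2,z1,y1]),(z1,[y2,z2,z1,z2]),(z1,[z0,y1,y1,z1])],.contra [y1,z1,z0,z1],.ref k16 k4 [(z1,[z1,z0,y2]),(z1,[z0,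
    z0,z1]),(z1,[y2,z1,z3,z1])],.contra [y1,z1,z0,z1],.ref k15 k3 [(z1,[y1,z1,z1]),(z1,[y1,z2,z1]),(z1,[z2,y2,y1])],
    .contra [y1,z0,z0,z1],.contra [z1,y1,y1],.contra [y1,z0,z0,z1],.contra [y1,z1,z0,z1],.ref k14 k5 [(z1,[y2,z1,z0,
    z1]),(z1,[z1]),(z1,[z2,y1,z1,y1])],.contra [z1,z0,z1,y1],.contra [y2,z0,y1,z2],.ref k1 k1 [(z1,[y1,z0,z0,z1])],
    .contra [y1,z0,z0,z1],.contra [y2,z1,z1,z1],.ref k3 k4 [(z1,[z1,z1,z1,y1]),(z1,[y1,z0,z0,z1])],.contra [z1],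
    .ref k1 k4 [(z2,[y1,z1,z1,z1])],.ref k13 k4 [(z1,[z1,z1,y2]),(z1,[z0,z0,z1]),(z1,[y2,y1,z3,z1])],.contra [y1,z1,
    z0,z1],.ref k3 k5 [(z1,[z1,z1,z1,y1]),(z2,[y1,z0,y1,z2])],.ref k1 k4 [(z1,[y1,z0,z0,z1])],.ref k12 k4 [(z1,[z1,z1,
    y1]),(z1,[z0,z0,z1]),(z1,[y2,y1,z1,z1])],.ref k3 k4 [(z2,[y1,z2,z2]),(z2,[z1])],.ref k1 k0 [(z2,[z1,z2,z1])],
    .ref k1 k0 [(z1,[z1,z1])],.contra [y1,z0,z0,z1],.contra [y2,z1,z1,z1],.ref k3 k5 [(z1,[z2,z1,z0,y1]),(z1,[y1,z0,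
    z0,z1])],.contra [z1],.ref k7 k4 [(z1,[y1,z1,y2,z2]),(z1,[z0,z0,z1]),(z1,[z2,z1,z1,y1])],.ref k6 k3 [(z1,[z1,z2,
    z2,y2]),(z1,[z1,z3,z2,y2]),(z1,[y2,y4,y3,z4])],.contra [y2,z0,y1,z2],.ref k1 k0 [(z1,[y1,z0,z0,z1])],
    .ref k2 k1 [(z1,[z2,y1,y1,y1]),(z1,[y1,z0,z0,z1])],.ref k1 k0 [(z2,[y1,z1,z1,z1])],.contra [z1],.contra [z1,z1],
    .contra [z1]]),
    .old (.tor k8 false k0 [(z1,[y1,y1,y1,z1]),(z1,[y1,z0,y1,z1]),(z1,[z0,z1,z1]),(z1,[z0,z2,z1]),(z1,[z0,y2,y2,z2]),(z1,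
    [z2,z0,z2])]),
    .geo true z1 k4 [(y1,z3),(z0,z2),(z2,y4),(z2,y2),(z0,z1)] [(z1,[z1]),(z1,[z0,z1]),(z1,[z0,z0,z1]),(z1,[y1,y1,y1,z1]),
    (z1,[])] (Int.ofNat (nat_lit 349525)) (Int.ofNat (nat_lit 524288)) (.s (.l k1) (.s (.l k1) (.l k1))) [],
    .geo true z1 k4 [(y1,z3),(z4,y6),(y2,z4),(z2,y2),(z0,z1)] [(z1,[z1]),(z1,[z0,z1]),(z1,[z0,z0,z1]),(z1,[y1,y1,y1,z1]),
    (z1,[])] (Int.ofNat (nat_lit 524288)) (Int.ofNat (nat_lit 699051)) (.s (.l k1) (.l k1)) [],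
    .geo true z2 k4 [(z0,z3),(z4,y6),(z0,z2),(z2,y1),(z0,z2)] [(z1,[z1]),(z1,[z0,z2]),(z1,[z0,z0,z2]),(z1,[y1,y2,y2,z2]),
    (z1,[])] z0 (Int.ofNat (nat_lit 699051)) (.s (.s (.l k1) (.l k1)) (.s (.s (.l k1) (.s (.l k1) (.l k1))) (.s (.l k1) (.l k1)))) [],
    .geo true z1 k4 [(y2,z4),(y1,z3),(z4,y6),(z2,y2),(z0,z1)] [(z1,[z1]),(z1,[z0,z1]),(z1,[z0,z0,z1]),(z1,[y1,y1,y1,z1]),
    (z1,[])] (Int.ofNat (nat_lit 524288)) (Int.ofNat (nat_lit 699051)) (.s (.l k1) (.s (.l k1) (.l k1))) []]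

noncomputable def cU5_0_n0_2 : List XN :=
  [.geo true z3 k4 [(y1,z3),(z2,z0),(z2,z0),(z6,y6),(z0,z3)] [(z1,[z1]),(z1,[z0,z1]),(z1,[z0,z0,z1]),(z1,[y1,y1,y1,z3]),
    (z1,[])] (Int.ofNat (nat_lit 349525)) (Int.ofNat (nat_lit 1048576)) (.s (.l k1) (.s (.s (.l k1) (.l k1)) (.l k1))) [],
    .geo true z1 k4 [(y3,z5),(y2,z4),(z6,y8),(z2,y2),(z0,z1)] [(z1,[z1]),(z1,[z0,z1]),(z1,[z0,z0,z1]),(z1,[y1,y1,y1,z1]),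
    (z1,[])] (Int.ofNat (nat_lit 629145)) (Int.ofNat (nat_lit 786432)) (.s (.l k1) (.s (.s (.l k1) (.l k1)) (.l k1))) [],
    .old (.lp [k181,k115,k157,k133,k129] [k0,k0,k33,k33,k12,k12,k26,k22,k26,k26] k0 [[k0,k0,k45,k0,k0,k0,k0,k0,k14],[k0,
    k0,k0,k0,k0,k40],[k0,k0,k0,k0,k30],[k0,k45,k0,k0,k0,k0,k0,k0,k0,k24],[k40,k0,k0,k0,k0,k0,k34],[k0,k0,k0,k30],[k0,
    k0,k0,k0,k0,k0,k0,k0,k41],[k0,k0,k0,k0,k0,k34],[k0,k0,k24],[k0,k14,k0,k0,k0,k0,k0,k41]] (nat_lit 480) k6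
    [[(k6,k114),(k8,k155),(k0,k167),(k4,k169),(k2,k172)],[(k5,k124),(k3,k148),(k9,k155),(k1,k167),(k7,k199)],[(k4,
    k96),(k6,k122),(k8,k136),(k0,k148),(k2,k160)],[(k7,k96),(k9,k122),(k5,k136),(k3,k160),(k1,k172)],[(k8,k119),(k0,
    k124),(k2,k136),(k6,k143),(k4,k187)],[(k3,k96),(k9,k109),(k7,k147),(k1,k169),(k5,k187)],[(k2,k96),(k8,k133),(k4,
    k147),(k6,k167),(k0,k199)],[(k1,k114),(k3,k122),(k9,k129),(k5,k143),(k7,k167)],[(k4,k109),(k2,k122),(k6,k129),(k0,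
    k155),(k8,k170)],[(k5,k119),(k7,k133),(k3,k136),(k1,k155),(k9,k170)]]
    [[k0,k0,k8],[k0,k8,k0],[k1,k1,k9],[k1,k9,k1],[k2,k6,k2,k8],[k2,k8,k2,k6],[k3,k7,k3,k9],[k3,k9,k3,k7],[k4,k4,k6],
    [k4,k6,k4],[k5,k5,k7],[k5,k7,k5]] k1
    [[k2,k0,k0,k0,k0],[k2,k0,k1,k0,k0],[k1,k1,k0,k0,k0],[k1,k1,k1,k0,k0],[k1,k1,k0,k0,k1],[k1,k0,k1,k0,k0],[k1,k0,k1,
    k0,k1],[k1,k0,k0,k1,k0],[k1,k1,k0,k1,k0],[k1,k1,k1,k1,k0],[k1,k0,k1,k1,k0],[k1,k0,k0,k1,k1],[k1,k0,k0,k0,k1],[k0,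
    k2,k0,k0,k0],[k0,k2,k1,k0,k0],[k0,k2,k0,k1,k0],[k0,k2,k0,k0,k1],[k0,k1,k1,k0,k0],[k0,k2,k2,k0,k0],[k0,k2,k1,k1,
    k0],[k0,k1,k2,k0,k0],[k0,k1,k1,k1,k0],[k0,k1,k1,k0,k1],[k0,k1,k2,k0,k1],[k0,k1,k1,k1,k1],[k0,k1,k0,k1,k0],[k0,k2,
    k0,k2,k0],[k0,k1,k0,k2,k0],[k0,k1,k0,k1,k1],[k0,k1,k0,k0,k1],[k0,k1,k0,k0,k2],[k0,k0,k2,k0,k0],[k0,k0,k2,k0,k1],
    [k0,k0,k1,k1,k0],[k0,k0,k1,k2,k0],[k0,k0,k1,k1,k1],[k0,k0,k1,k0,k1],[k0,k0,k2,k0,k2],[k0,k0,k1,k0,k2],[k0,k0,k0,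
    k2,k0],[k0,k0,k0,k2,k1],[k0,k0,k0,k1,k1],[k0,k0,k0,k1,k2],[k0,k0,k0,k0,k2]]
    [.contra [z1],.ref k1 k0 [(z1,[z1,z0,z1,y1])],.contra [y2,z1,z1],.ref k1 k3 [(z1,[y1,z0,z0,z1])],.contra [z1,y1,
    y1,z1],.contra [z1,z0,z1,y1],.ref k19 k0 [(z1,[z1,y1,z1,y1]),(z1,[z1,y1]),(z1,[y2,z1,y1,z2])],.ref k20 k5 [(z1,
    [z1,z1,z2,y3]),(z1,[z1,z1,z1,y2]),(z1,[y2,y1,y2,z4])],.ref k3 k2 [(z1,[z1,z1,z1,y2]),(z1,[y1,z0,z0,z1])],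
    .contra [y1,z0,z0,z1],.ref k19 k0 [(z1,[y1,y1,z0,z1]),(z1,[y1,y1,y1,z2]),(z1,[z2,z1,z1,y2])],.ref k1 k1 [(z1,[y1,
    z0,z0,z1])],.contra [y1,z1],.contra [z1],.ref k21 k2 [(z1,[y1,z0,y1,z1]),(z1,[z2,z1,z2,y2]),(z1,[y2,y1,y1,z2])],
    .contra [z1,z1,y1],.contra [z1,y1,y2,z2],.contra [y2,y1,z0,z2],.ref k1 k1 [(z2,[z1])],.ref k1 k0 [(z1,[z1,z1,z0,
    y1])],.ref k22 k2 [(z1,[y1,z0,y2,z2]),(z1,[z1,z1,z2,y2]),(z1,[y1,y1,y1,z2])],.contra [z1,z1,z0,y1],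
    .ref k3 k1 [(z1,[z1,y1]),(z1,[y1,z0,z0,z1])],.ref k23 k5 [(z1,[y1,z1,z2,y2]),(z1,[y1,z1,z1,y1]),(z1,[z2,y1,y2,
    z2])],.contra [y1,z0,z0,z1],.contra [y2,y1,z0,z2],.ref k19 k0 [(z2,[y1,y2,z2]),(z2,[y1,y2,z0,z2]),(z1,[z1,z1,
    y1])],.ref k23 k5 [(z1,[z1,z2,z2,y4]),(z1,[z1,z2,z1,y3]),(z1,[y2,y3,y2,z6])],.contra [y1,z0,z1],.contra [y2,z1,
    z1],.ref k23 k0 [(z1,[z1,y2]),(z1,[z1,y2,y1,z1]),(z1,[y2,z3,z1])],.contra [z1],.ref k19 k0 [(z2,[z1,y1,z2,y2]),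
    (z2,[z1,y1]),(z1,[y1,z0,y1,z2])],.contra [y1,y1,y1,z2],.ref k24 k0 [(z1,[y1,y2,z1,z1]),(z1,[y1,y2,y2,z4]),(z1,[z2,
    z1,z1,y2])],.ref k1 k0 [(z1,[y1,z0,z0,z1])],.ref k20 k0 [(z1,[z1,y1,z1,y1]),(z1,[z1,y1]),(z1,[y2,z1,y1,z2])],
    .ref k3 k2 [(z2,[y1,z2,z2,y2]),(z2,[z1])],.ref k25 k0 [(z1,[z1,y2,z1,y1]),(z1,[z1,y2]),(z1,[y2,z3,y1,z2])],
    .contra [z1],.ref k1 k1 [(z2,[y1,y1,z0,z2])],.contra [y1,z0,z1],.ref k1 k0 [(z2,[y1,z1,z1])],.contra [z1]]),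
    .geo true z5 k4 [(y2,z6),(z10,y10),(z3,z1),(z4,y2),(z0,z5)] [(z1,[z1]),(z1,[z0,z5]),(z1,[z0,z0,z1]),(z1,[y1,y5,y1,
    z5]),(z1,
    [])] (Int.ofNat (nat_lit 349525)) (Int.ofNat (nat_lit 1048576)) (.s (.s (.l k1) (.l k1)) (.s (.s (.l k1) (.l k1)) (.l k1))) [],
    .geo true z4 k4 [(y2,z5),(z8,y8),(z2,z1),(z4,y2),(z0,z4)] [(z1,[z1]),(z1,[z0,z4]),(z1,[z0,z0,z1]),(z1,[y1,y4,y1,z4]),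
    (z1,[])] (Int.ofNat (nat_lit 419430)) (Int.ofNat (nat_lit 1048576)) (.s (.s (.l k1) (.l k1)) (.s (.l k1) (.l k1))) [],
    .geo true z3 k4 [(y2,z5),(z6,y6),(z1,z2),(z4,y4),(z0,z3)] [(z1,[z1]),(z1,[z0,z3]),(z1,[z0,z0,z1]),(z1,[y1,y3,y1,z3]),
    (z1,[])] (Int.ofNat (nat_lit 419430)) (Int.ofNat (nat_lit 1048576)) (.s (.s (.l k1) (.s (.l k1) (.l k1))) (.s (.s (.l k1) (.l k1)) (.l k1))) [],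
    .geo true z3 k4 [(y2,z4),(z6,y6),(z1,z1),(z4,y2),(z0,z3)] [(z1,[z1]),(z1,[z0,z3]),(z1,[z0,z0,z1]),(z1,[y1,y3,y1,z3]),
    (z1,[])] (Int.ofNat (nat_lit 524288)) (Int.ofNat (nat_lit 1048576)) (.s (.l k1) (.l k1)) [],
    .geo true z1 k4 [(y4,z6),(z2,y2),(z3,y3),(z2,y2),(z0,z1)] [(z1,[z1]),(z1,[z0,z1]),(z1,[z0,z0,z1]),(z1,[y1,y1,y1,z1]),
    (z1,[])] (Int.ofNat (nat_lit 699050)) (Int.ofNat (nat_lit 1048576)) (.s (.s (.s (.l k1) (.l k1)) (.s (.l k1) (.l k1))) (.s (.l k1) (.l k1))) [],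
    .geo true z2 k4 [(y2,z4),(z1,z0),(z3,y2),(z4,y4),(z0,z2)] [(z1,[z2]),(z1,[z0,z1]),(z1,[z0,z0,z1]),(z1,[y2,y1,y1,z2]),
    (z1,[])] (Int.ofNat (nat_lit 524288)) (Int.ofNat (nat_lit 1048576)) (.s (.l k1) (.s (.l k1) (.l k1))) [],
    .geo true z1 k4 [(y6,z8),(z3,y3),(z4,y4),(z2,y2),(z0,z1)] [(z1,[z1]),(z1,[z0,z1]),(z1,[z0,z0,z1]),(z1,[y1,y1,y1,z1]),
    (z1,[])] (Int.ofNat (nat_lit 786432)) (Int.ofNat (nat_lit 1048576)) (.s (.s (.s (.l k1) (.s (.l k1) (.s (.l k1) (.l k1)))) (.s (.s (.s (.l k1) (.l k1)) (.l k1)) (.l k1))) (.s (.l k1) (.l k1))) [],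
    .geo true z1 k4 [(y4,z6),(z3,y3),(z2,y2),(z2,y2),(z0,z1)] [(z1,[z1]),(z1,[z0,z1]),(z1,[z0,z0,z1]),(z1,[y1,y1,y1,z1]),
    (z1,[])] (Int.ofNat (nat_lit 699050)) (Int.ofNat (nat_lit 1048576)) (.s (.s (.s (.l k1) (.s (.l k1) (.l k1))) (.s (.l k1) (.l k1))) (.s (.l k1) (.l k1))) [],
    .geo true z3 k4 [(y4,z6),(z2,z0),(z5,y3),(z6,y6),(z0,z3)] [(z1,[z1]),(z1,[z0,z1]),(z1,[z0,z0,z1]),(z1,[y1,y1,y1,z3]),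
    (z1,[])] (Int.ofNat (nat_lit 699050)) (Int.ofNat (nat_lit 1048576)) (.s (.s (.l k1) (.l k1)) (.s (.l k1) (.l k1))) []]

noncomputable def cU5_0_n0_3 : List XN :=
  [.geo true z1 k4 [(y2,z4),(z2,y2),(y1,z3),(z4,y6),(z0,z1)] [(z1,[z1]),(z1,[z0,z1]),(z1,[z0,z0,z1]),(z1,[y1,y1,y1,z1]),
    (z1,[])] (Int.ofNat (nat_lit 524288)) (Int.ofNat (nat_lit 699051)) (.s (.l k1) (.l k1)) [],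
    .geo true z4 k3 [(y1,z4),(z3,z0),(z8,y8),(z0,z4),(z2,z0)] [(z1,[z1]),(z1,[z0,z1]),(z1,[z0,z0,z4]),(z1,[]),(z1,[y1,y1,
    y4,z4])] (Int.ofNat (nat_lit 262144)) (Int.ofNat (nat_lit 1048576)) (.s (.l k1) (.s (.s (.l k1) (.s (.l k1) (.s (.l k1) (.l k1)))) (.s (.l k1) (.l k1)))) [],
    .old (.lp [(nat_lit 3306),(nat_lit 1020),(nat_lit 2536),(nat_lit 2042),(nat_lit 2536)] [k0,k0,(nat_lit 1143),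
    (nat_lit 1143),(nat_lit 385),(nat_lit 385),(nat_lit 632),(nat_lit 632),(nat_lit 385),(nat_lit 385)] k0 [[k0,k0,
    (nat_lit 1042)],[k0,k0,k0,k0,k0,k0,k0,k140],[k0,k0,k0,k0,k24],[k0,(nat_lit 1042)],[k0,k0,k0,k0,k0,k0,k0,k0,
    (nat_lit 204)],[k0,k0,k0,k24],[k140],[k0,k0,k0,k0,k0,k0,k0,k0,k0,(nat_lit 838)],[k0,k0,k0,k0,k0,k0,(nat_lit 838)],
    [k0,k0,k0,k0,k0,(nat_lit 204)]] (nat_lit 7680) k7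
    [[(k2,(nat_lit 2163)),(k4,(nat_lit 2717)),(k8,(nat_lit 2921)),(k0,(nat_lit 3306)),(k6,(nat_lit 3512))],[(k5,
    (nat_lit 1879)),(k3,(nat_lit 2163)),(k7,(nat_lit 2674)),(k9,(nat_lit 3061)),(k1,(nat_lit 3306))],[(k6,
    (nat_lit 1391)),(k4,(nat_lit 1778)),(k8,(nat_lit 1778)),(k2,(nat_lit 2062)),(k0,(nat_lit 2163))],[(k7,
    (nat_lit 1507)),(k5,(nat_lit 1778)),(k9,(nat_lit 1778)),(k3,(nat_lit 2062)),(k1,(nat_lit 2163))],[(k2,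
    (nat_lit 1778)),(k0,(nat_lit 1879)),(k6,(nat_lit 2289)),(k8,(nat_lit 2536)),(k4,(nat_lit 2560))],[(k3,
    (nat_lit 1778)),(k7,(nat_lit 2289)),(k9,(nat_lit 2536)),(k5,(nat_lit 2560)),(k1,(nat_lit 2717))],[(k2,
    (nat_lit 1507)),(k6,(nat_lit 2042)),(k4,(nat_lit 2289)),(k8,(nat_lit 2493)),(k0,(nat_lit 2674))],[(k3,
    (nat_lit 1391)),(k7,(nat_lit 2042)),(k5,(nat_lit 2289)),(k9,(nat_lit 2289)),(k1,(nat_lit 3512))],[(k8,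
    (nat_lit 1698)),(k2,(nat_lit 1778)),(k6,(nat_lit 2289)),(k4,(nat_lit 2536)),(k0,(nat_lit 3061))],[(k9,
    (nat_lit 1698)),(k3,(nat_lit 1778)),(k7,(nat_lit 2493)),(k5,(nat_lit 2536)),(k1,(nat_lit 2921))]]
    [[k0,k0,k2],[k0,k2,k0],[k1,k1,k3],[k1,k3,k1],[k2,k8,k6,k6],[k3,k7,k7,k9],[k4,k4,k8],[k4,k8,k4],[k5,k5,k9],[k5,k9,
    k5]] k16
    [[k2,k0,k0,k0,k0],[k1,k1,k0,k0,k0],[k1,k2,k0,k0,k0],[k1,k1,k1,k0,k0],[k1,k1,k0,k1,k0],[k1,k2,k0,k1,k0],[k1,k1,k0,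
    k0,k1],[k1,k0,k1,k0,k0],[k1,k0,k2,k0,k0],[k1,k0,k0,k1,k0],[k1,k0,k0,k0,k1],[k1,k0,k1,k0,k1],[k0,k2,k0,k0,k0],[k0,
    k3,k0,k0,k0],[k0,k3,k0,k1,k0],[k0,k2,k1,k0,k0],[k0,k2,k1,k1,k0],[k0,k2,k0,k1,k0],[k0,k2,k0,k2,k0],[k0,k2,k0,k0,
    k1],[k0,k2,k0,k1,k1],[k0,k2,k0,k0,k2],[k0,k1,k1,k0,k0],[k0,k2,k2,k0,k0],[k0,k2,k1,k0,k1],[k0,k1,k2,k0,k0],[k0,k1,
    k1,k1,k0],[k0,k1,k1,k2,k0],[k0,k1,k1,k0,k1],[k0,k1,k0,k1,k0],[k0,k1,k0,k2,k0],[k0,k1,k0,k3,k0],[k0,k1,k0,k1,k1],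
    [k0,k1,k0,k1,k2],[k0,k1,k0,k0,k1],[k0,k1,k0,k0,k2],[k0,k1,k0,k0,k3],[k0,k0,k2,k0,k0],[k0,k0,k2,k1,k0],[k0,k0,k1,
    k1,k0],[k0,k0,k1,k2,k0],[k0,k0,k1,k1,k1],[k0,k0,k1,k0,k1],[k0,k0,k1,k0,k2],[k0,k0,k0,k2,k0],[k0,k0,k0,k3,k0],[k0,
    k0,k0,k2,k1],[k0,k0,k0,k1,k1],[k0,k0,k0,k1,k2],[k0,k0,k0,k0,k2],[k0,k0,k0,k0,k3],[k0,k0,k0,k0,k4]]
    [.contra [z1],.contra [y1,z1,z1],.ref k18 k6 [(z1,[y1,z1,z2,y1]),(z1,[z0,y1,y2,z2])],.ref k1 k3 [(z1,[y1,z0,z0,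
    z1])],.contra [z1,y1,y2,z1],.ref k1 k1 [(z1,[z1,y1,y2,z1])],.ref k1 k6 [(z1,[y1,z0,z0,z1])],.contra [z1,z0,z1,y1],
    .ref k1 k6 [(z1,[z1,z0,z1,y1])],.contra [y2,z1,z2],.ref k0 k4 [(z1,[z1])],.ref k1 k3 [(z1,[z1,z0,z1,y1])],
    .contra [z1],.ref k18 k6 [(z2,[y1,z1,z3,y2]),(z1,[z0,y1,y2,z2])],.ref k27 k6 [(z1,[y1,z3,z9,y6]),(z1,[z0,y1,y2,
    z2]),(z1,[y1,z3,z4,y1])],.ref k28 k6 [(z1,[y1,z2,z6,y4]),(z1,[z0,y1,y2,z2]),(z1,[y1,z2,z2])],.ref k29 k6 [(z1,[y1,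
    z2,z6,y4]),(z1,[z0,y1,y2,z2]),(z1,[y1,z2,z3,y1])],.ref k30 k6 [(z1,[y1,z2,z6,y4]),(z1,[z0,y1,y2,z2]),(z1,[y1,z2,
    z3,y1])],.ref k1 k3 [(z2,[y1,z0,z2])],.ref k4 k5 [(z1,[z1,z0,y1]),(z2,[y1,z1,z2])],.ref k31 k7 [(z1,[z2,y3,y4]),
    (z1,[y1,z1,z2]),(z1,[y1,z1,z1,z1])],.ref k32 k7 [(z2,[z1,y2,y2]),(z2,[y1,z0,z2]),(z2,[y1,z0,y2,z4])],
    .ref k0 k1 [(z1,[z1])],.ref k1 k1 [(z2,[z1])],.ref k33 k7 [(z1,[z2,y3,y2,y2]),(z1,[y1,z1,z1,z1]),(z1,[y1,z1,z0,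
    z2])],.ref k1 k3 [(z2,[y1,y1,y1,z2])],.ref k1 k4 [(z1,[y1,z0,z0,z1])],.ref k18 k8 [(z1,[z1,z0,z0,y1]),(z1,[y1,y1,
    y1,z2])],.ref k4 k5 [(z1,[z2,z1,z1,y2]),(z1,[y1,z0,z0,z1])],.contra [y2,z1,z2],.contra [z1,y1,y3,z2],
    .ref k34 k5 [(z1,[y2,z3,z9,y6]),(z1,[z1,y1,y4,z3]),(z1,[z0,y1,y2,z2])],.contra [y1,z0,z1],.ref k34 k5 [(z1,[z2,z3,
    z5,y6]),(z1,[y1,y1,y2,z3]),(z1,[z0,y1,y2,z2])],.contra [y1,z0,z1],.ref k1 k6 [(z2,[y1,y1,y1,z2])],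
    .ref k34 k5 [(z1,[z1,z3,z6,y6]),(z2,[y1,y2,y5,z6]),(z1,[z0,y1,y2,z2])],.contra [z1],.ref k34 k5 [(z1,[y2,z1,z3,
    y2]),(z1,[z1,z0,y1,z1]),(z1,[z0,y1,y2,z2])],.contra [y2,y1,y1,z2],.ref k26 k6 [(z1,[z1]),(z1,[y1,y1,y1,z2])],
    .contra [z1,z1,z1,y1],.contra [y1,y1,y2,z2],.ref k18 k8 [(z1,[y1,y1,y1,z1]),(z1,[z1])],.contra [z1],
    .ref k35 k7 [(z1,[y2,y3]),(z1,[z1]),(z1,[z1,z0,y3,z3])],.contra [z1,z1],.contra [y2,y1,y1,z2],.ref k36 k6 [(z1,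
    [z1,z2,z4,y4]),(z1,[z0,y1,y2,z2]),(z1,[z1,z2,z3,y3])],.contra [z1],.ref k18 k8 [(z2,[y1,y1]),(z2,[z1,y1,y2,z2])],
    .ref k37 k8 [(z2,[y1,y4]),(z2,[y1,y4,y8,z8]),(z1,[z0,z1,z1])]]),
    .geo true z2 k4 [(y2,z3),(z4,y2),(z0,z1),(z4,y4),(z0,z2)] [(z1,[z1]),(z1,[z0,z2]),(z1,[z0,z0,z1]),(z1,[y1,y2,y1,z2]),
    (z1,[])] (Int.ofNat (nat_lit 699050)) (Int.ofNat (nat_lit 1048576)) (.s (.s (.l k1) (.l k1)) (.l k1)) [],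
    .geo true z4 k4 [(y2,z5),(z4,y2),(z2,z1),(z8,y8),(z0,z4)] [(z1,[z1]),(z1,[z0,z2]),(z1,[z0,z0,z1]),(z1,[y1,y2,y1,z4]),
    (z1,[])] (Int.ofNat (nat_lit 419430)) (Int.ofNat (nat_lit 1048576)) (.s (.l k1) (.s (.s (.s (.l k1) (.l k1)) (.s (.l k1) (.l k1))) (.l k1))) [],
    .geo true z2 k3 [(y2,z4),(z3,y2),(z4,y4),(z0,z2),(z1,z0)] [(z1,[z2]),(z1,[z0,z1]),(z1,[z0,z0,z2]),(z1,[]),(z1,[y2,y1,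
    y2,z2])] (Int.ofNat (nat_lit 524288)) (Int.ofNat (nat_lit 1048576)) (.s (.s (.l k1) (.l k1)) (.s (.s (.s (.l k1) (.l k1)) (.l k1)) (.l k1))) [],
    .geo true z3 k4 [(y2,z4),(z4,y2),(z1,z1),(z6,y6),(z0,z3)] [(z1,[z1]),(z1,[z0,z1]),(z1,[z0,z0,z1]),(z1,[y1,y1,y1,z3]),
    (z1,[])] (Int.ofNat (nat_lit 524288)) (Int.ofNat (nat_lit 1048576)) (.s (.s (.l k1) (.l k1)) (.s (.l k1) (.l k1))) [],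
    .old (.lp [k83,k52,k84,k68,k72] [k0,k9,k20,k20,k4,k4,k12,k12,k10,k10] k0 [[k0,k0,k28,k0,k20],[k0,k0,k0,k0,k0,k0,k0,k0,
    k0,k2],[k0,k0,k0,k0,k0,k0,k2],[k0,k28],[k0,k0,k0,k0,k0,k0,k18,k0,k17],[k0,k20],[k0,k0,k0,k0,k0,k0,k0,k0,k11],[k0,
    k0,k0,k2,k0,k18],[k2],[k0,k0,k0,k0,k0,k17,k0,k11]] (nat_lit 240) k5
    [[(k6,k60),(k4,k62),(k2,k63),(k8,k73),(k0,k85)],[(k5,k60),(k7,k60),(k3,k72),(k9,k82),(k1,k85)],[(k6,k60),(k8,k60),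
    (k0,k72),(k2,k80),(k4,k88)],[(k7,k60),(k9,k60),(k1,k63),(k5,k68),(k3,k80)],[(k0,k60),(k2,k68),(k6,k78),(k8,k78),
    (k4,k84)],[(k9,k60),(k1,k62),(k7,k76),(k5,k84),(k3,k88)],[(k0,k60),(k2,k60),(k4,k76),(k6,k86),(k8,k87)],[(k1,k60),
    (k3,k60),(k9,k70),(k5,k78),(k7,k86)],[(k2,k60),(k4,k60),(k6,k70),(k0,k82),(k8,k83)],[(k3,k60),(k1,k73),(k5,k78),
    (k9,k83),(k7,k87)]]
    [] k0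
    [[k2,k0,k0,k0,k0],[k2,k1,k0,k0,k0],[k2,k0,k1,k0,k0],[k2,k0,k0,k1,k0],[k1,k1,k0,k0,k0],[k1,k2,k0,k0,k0],[k1,k1,k1,
    k0,k0],[k1,k1,k0,k1,k0],[k1,k1,k0,k0,k1],[k1,k0,k1,k0,k0],[k1,k0,k2,k0,k0],[k1,k0,k1,k1,k0],[k1,k0,k1,k0,k1],[k1,
    k0,k0,k1,k0],[k1,k0,k0,k2,k0],[k1,k0,k0,k1,k1],[k1,k0,k0,k0,k1],[k1,k0,k0,k0,k2],[k0,k2,k0,k0,k0],[k0,k2,k1,k0,
    k0],[k0,k2,k0,k1,k0],[k0,k2,k0,k0,k1],[k0,k1,k1,k0,k0],[k0,k1,k1,k1,k0],[k0,k1,k1,k0,k1],[k0,k1,k0,k1,k0],[k0,k1,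
    k0,k2,k0],[k0,k1,k0,k1,k1],[k0,k1,k0,k0,k1],[k0,k1,k0,k0,k2],[k0,k0,k2,k0,k0],[k0,k0,k2,k1,k0],[k0,k0,k2,k0,k1],
    [k0,k0,k1,k1,k0],[k0,k0,k1,k1,k1],[k0,k0,k1,k0,k1],[k0,k0,k1,k0,k2],[k0,k0,k0,k2,k0],[k0,k0,k0,k1,k1],[k0,k0,k0,
    k0,k2]]
    [.contra [z1],.contra [z1,y2,y1],.ref k18 k0 [(z1,[y1,z1,z1]),(z1,[z1])],.contra [z1,y1,z1,y1],.contra [y2,z1,z1,
    z1],.ref k42 k4 [(z1,[y1,z4,z2]),(z1,[z2,y2,y1]),(z1,[y1,z1,z2])],.contra [z1,y1,y1],.contra [y1,z1,z0,z1],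
    .ref k1 k6 [(z1,[y1,z0,z0,z1])],.contra [y2,z1,z1,z1],.ref k38 k7 [(z1,[z1,y2,y2]),(z1,[y1,z1,z1,z1])],
    .ref k4 k6 [(z1,[z2,y1,y1,y1]),(z1,[y1,z0,z0,z1])],.ref k41 k0 [(z1,[y1,z1,z1]),(z1,[z1,y1]),(z1,[z0,y1,y1,z1])],
    .contra [y1,z1,z0,z1],.ref k18 k3 [(z1,[y1,z0,y1,z1]),(z1,[z1])],.contra [z1,z0,z1,y1],.contra [y2,z0,y1,z2],
    .ref k26 k1 [(z1,[z0,z0,z1]),(z1,[y1,z0,y1,z2])],.contra [z1],.ref k26 k3 [(z1,[z0,y1,y1,z1]),(z1,[y1,z1,z1,z1])],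
    .ref k3 k3 [(z2,[z1,y1,y3,z1]),(z2,[y1,z1,z1,z1])],.ref k40 k4 [(z1,[y1,z4,z2]),(z1,[z1]),(z1,[y1,z0,z2])],
    .contra [y1,z0,z1],.ref k1 k4 [(z1,[y1,z0,z0,z1])],.ref k1 k0 [(z1,[z1,z1])],.contra [y1,z1,z0,z1],
    .ref k1 k4 [(z2,[y1,z0,y1,z2])],.ref k3 k3 [(z1,[z1,z0,y1]),(z1,[y1,z0,z0,z1])],.ref k39 k4 [(z1,[y1,z2,z1]),(z1,
    [z1]),(z1,[y1,z0,z1])],.ref k1 k0 [(z2,[z1,z2,z1])],.contra [z1],.ref k1 k0 [(z2,[y1,z1,z1,z1])],.ref k3 k3 [(z1,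
    [y1,y1,y1,z1]),(z1,[z1,z1])],.ref k0 k6 [(z1,[z1])],.ref k1 k0 [(z1,[y1,z0,z0,z1])],.contra [z1,z1],
    .ref k1 k4 [(z1,[z1,z1])],.contra [z1],.contra [y2,z0,y1,z2],.contra [z1]]),
    .old (.tor k5 false k4 [(z1,[z1]),(z1,[z0,z1]),(z1,[y1,y1,z2])]),
    .old (.leafM k2 [k3,k0,k2] [(z1,[z1]),(z1,[y1,y3,z3])] [(k4,k1,z1,[z0,z1]),(k1,k4,z1,[z0,z1])]),
    .geo true z2 k4 [(y4,z4),(z4,y2),(z0,z1),(z6,y5),(z0,z2)] [(z1,[z2]),(z1,[z0,z2]),(z1,[z0,z0,z1]),(z1,[y2,y2,y1,z2]),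
    (z1,[])] (Int.ofNat (nat_lit 1048576)) (Int.ofNat (nat_lit 1258292)) (.s (.l k1) (.l k1)) [],
    .geo true z1 k4 [(y2,z4),(z2,y3),(y1,z2),(z4,y4),(z0,z1)] [(z1,[z1]),(z1,[z0,z1]),(z1,[z0,z0,z1]),(z1,[y1,y1,y1,z1]),
    (z1,[])] (Int.ofNat (nat_lit 524288)) (Int.ofNat (nat_lit 699051)) (.s (.l k1) (.l k1)) []]

noncomputable def cU5_0_n0_4 : List XN :=
  [.geo true z1 k4 [(y2,z6),(z2,y3),(y1,z2),(z4,y6),(z0,z1)] [(z1,[z1]),(z1,[z0,z1]),(z1,[z0,z0,z1]),(z1,[y1,y1,y1,z1]),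
    (z1,[])] (Int.ofNat (nat_lit 524288)) (Int.ofNat (nat_lit 699051)) (.s (.l k1) (.l k1)) [],
    .geo true z2 k4 [(z0,z6),(z2,y5),(z0,z3),(z4,y6),(z0,z2)] [(z1,[z2]),(z1,[z0,z1]),(z1,[z0,z0,z1]),(z1,[y2,y1,y1,z2]),
    (z1,[])] z0 (Int.ofNat (nat_lit 419431)) (.s (.s (.l k1) (.s (.l k1) (.l k1))) (.s (.l k1) (.l k1))) [],
    .geo true z1 k4 [(y2,z6),(z2,y4),(y1,z3),(z4,y6),(z0,z1)] [(z1,[z1]),(z1,[z0,z1]),(z1,[z0,z0,z1]),(z1,[y1,y1,y1,z1]),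
    (z1,[])] (Int.ofNat (nat_lit 349525)) (Int.ofNat (nat_lit 524288)) (.s (.s (.l k1) (.l k1)) (.l k1)) [],
    .geo true z10 k4 [(z4,z0),(z20,y10),(y4,z5),(z10,y5),(z0,z10)] [(z1,[z2]),(z1,[z0,z10]),(z1,[z0,z0,z1]),(z1,[y2,y10,
    y1,z10]),(z1,[])] (Int.ofNat (nat_lit 838860)) (Int.ofNat (nat_lit 2097152)) (.s (.l k1) (.s (.l k1) (.l k1))) [],
    .geo true z1 k4 [(y1,z2),(z0,z2),(z2,y3),(z2,y2),(z0,z1)] [(z1,[z1]),(z1,[z0,z1]),(z1,[z0,z0,z1]),(z1,[y1,y1,y1,z1]),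
    (z1,[])] (Int.ofNat (nat_lit 524288)) (Int.ofNat (nat_lit 699051)) (.s (.l k1) (.l k1)) [],
    .geo true z2 k4 [(z0,z6),(z2,y3),(z0,z1),(z4,y6),(z0,z2)] [(z1,[z2]),(z1,[z0,z1]),(z1,[z0,z0,z1]),(z1,[y2,y1,y1,z2]),
    (z1,[])] z0 (Int.ofNat (nat_lit 699051)) (.s (.s (.s (.l k1) (.l k1)) (.s (.l k1) (.l k1))) (.s (.l k1) (.s (.l k1) (.l k1)))) [],
    .old (.lp [(nat_lit 4900),(nat_lit 2282),(nat_lit 4620),(nat_lit 4508),(nat_lit 3836)] [(nat_lit 1307),(nat_lit 1307),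
    (nat_lit 2616),(nat_lit 2616),(nat_lit 1447),(nat_lit 1447),(nat_lit 3006),k0,(nat_lit 1674),
    (nat_lit 2004)] k0 [[k0,k0,k0,k0,k0,k0,k28],[k0,k0,k0,k0,k0,k28],[k0,k0,k0,k0,k0,k0,k0,k0,(nat_lit 588)],[k0,k0,
    k0,k0,k0,(nat_lit 224)],[k28,k0,(nat_lit 224)],[k0,k0,k0,k0,k0,k0,k0,k0,k0,(nat_lit 3920)],[k0,k0,k0,k0,k0,k0,k0,
    k0,(nat_lit 756)],[k0,k28],[k0,k0,k0,k0,(nat_lit 3920)],[k0,k0,k0,(nat_lit 588),k0,k0,k0,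
    (nat_lit 756)]] (nat_lit 13440) k8
    [[(k6,(nat_lit 2445)),(k2,(nat_lit 3003)),(k8,(nat_lit 4533)),(k0,(nat_lit 4900)),(k4,(nat_lit 8680))],[(k3,
    (nat_lit 3591)),(k9,(nat_lit 4175)),(k5,(nat_lit 4760)),(k1,(nat_lit 4900)),(k7,(nat_lit 6235))],[(k6,
    (nat_lit 1920)),(k2,(nat_lit 2282)),(k8,(nat_lit 3224)),(k4,(nat_lit 3423)),(k0,(nat_lit 3591))],[(k3,
    (nat_lit 2282)),(k9,(nat_lit 2894)),(k1,(nat_lit 3003)),(k5,(nat_lit 3451)),(k7,(nat_lit 5122))],[(k6,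
    (nat_lit 3061)),(k2,(nat_lit 3451)),(k4,(nat_lit 4396)),(k0,(nat_lit 4760)),(k8,(nat_lit 4981))],[(k3,
    (nat_lit 3423)),(k9,(nat_lit 4063)),(k5,(nat_lit 4396)),(k7,(nat_lit 6067)),(k1,(nat_lit 8680))],[(k8,
    (nat_lit 1920)),(k6,(nat_lit 4508)),(k2,(nat_lit 5122)),(k4,(nat_lit 6067)),(k0,(nat_lit 6235))],[(k3,
    (nat_lit 1920)),(k1,(nat_lit 2445)),(k9,(nat_lit 2504)),(k5,(nat_lit 3061)),(k7,(nat_lit 4508))],[(k6,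
    (nat_lit 2504)),(k2,(nat_lit 2894)),(k4,(nat_lit 4063)),(k0,(nat_lit 4175)),(k8,(nat_lit 4592))],[(k7,
    (nat_lit 1920)),(k3,(nat_lit 3224)),(k1,(nat_lit 4533)),(k9,(nat_lit 4592)),(k5,(nat_lit 4981))]]
    [] k0
    [[k2,k0,k0,k0,k0],[k2,k1,k0,k0,k0],[k1,k1,k0,k0,k0],[k2,k2,k0,k0,k0],[k1,k2,k0,k0,k0],[k1,k3,k0,k0,k0],[k1,k2,k0,
    k1,k1],[k1,k2,k0,k0,k1],[k1,k1,k1,k0,k0],[k1,k1,k0,k1,k0],[k1,k1,k0,k1,k1],[k1,k1,k0,k0,k1],[k1,k0,k0,k1,k0],[k1,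
    k0,k1,k1,k0],[k1,k0,k0,k2,k0],[k1,k0,k0,k2,k1],[k1,k0,k0,k1,k1],[k1,k0,k1,k1,k1],[k1,k0,k0,k2,k2],[k1,k0,k0,k1,
    k2],[k1,k0,k0,k0,k1],[k1,k0,k1,k0,k1],[k1,k0,k0,k0,k2],[k0,k2,k0,k0,k0],[k0,k3,k0,k0,k0],[k0,k4,k0,k0,k0],[k0,k5,
    k0,k0,k0],[k0,k4,k0,k0,k1],[k0,k3,k1,k0,k0],[k0,k3,k0,k1,k0],[k0,k3,k0,k1,k1],[k0,k3,k0,k0,k1],[k0,k2,k1,k0,k0],
    [k0,k2,k0,k1,k0],[k0,k2,k0,k1,k1],[k0,k2,k0,k0,k1],[k0,k2,k1,k0,k1],[k0,k2,k0,k1,k2],[k0,k2,k0,k0,k2],[k0,k1,k1,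
    k0,k0],[k0,k1,k2,k0,k0],[k0,k1,k1,k1,k0],[k0,k1,k1,k1,k1],[k0,k1,k1,k0,k1],[k0,k1,k0,k1,k0],[k0,k1,k0,k2,k0],[k0,
    k1,k0,k2,k1],[k0,k1,k0,k1,k1],[k0,k1,k0,k2,k2],[k0,k1,k0,k1,k2],[k0,k1,k0,k0,k1],[k0,k1,k0,k0,k2],[k0,k0,k2,k0,
    k0],[k0,k0,k3,k0,k0],[k0,k0,k1,k1,k0],[k0,k0,k1,k1,k1],[k0,k0,k1,k0,k1],[k0,k0,k0,k2,k0],[k0,k0,k0,k2,k1],[k0,k0,
    k0,k3,k2],[k0,k0,k0,k1,k1],[k0,k0,k0,k2,k2],[k0,k0,k0,k3,k3],[k0,k0,k0,k1,k2],[k0,k0,k0,k0,k2]]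
    [.contra [z1],.ref k26 k6 [(z1,[z0,y1,y1,z1]),(z1,[y1,z1,z1,z1])],.contra [y1,z1,z2],.ref k1 k0 [(z2,[z1])],
    .contra [y1,z1,z2],.ref k53 k1 [(z1,[y1,z0,y1,z1]),(z1,[z1,y1]),(z1,[y1,z1,z2])],.ref k1 k0 [(z1,[z1,z0,y1])],
    .contra [y1,z1,z2],.contra [z1,z0,z1,y1],.ref k52 k3 [(z1,[y1,z1,z1]),(z1,[z0,z1]),(z1,[z1,y1])],.contra [z1,z0,
    y1],.contra [z1,y1,y1],.ref k44 k1 [(z1,[z0,z0,y1,z1]),(z1,[z1])],.contra [z2,z1,z2,y2],.contra [z1,z1],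
    .ref k43 k0 [(z1,[y1,z0,z1]),(z1,[z0,y1,y1,z1])],.ref k1 k1 [(z1,[y1,z0,z0,z1])],.contra [y1,z0,z0,z1],
    .ref k1 k4 [(z2,[z1,z1])],.ref k10 k6 [(z1,[y1,z0,z1,z1]),(z1,[z1,z0,z0,y1])],.contra [y2,z1,z1,z1],.contra [z1,
    z0,z1,y1],.contra [y1,z1,z2],.contra [z1],.ref k45 k0 [(z1,[z1]),(z1,[z0,z0,y1,z1])],.ref k8 k6 [(z2,[y1,z0,z4]),
    (z1,[z0,z0,y1,z1])],.ref k51 k5 [(z1,[z1]),(z1,[z0,z0,y1,z1]),(z1,[y2,z5,z15,y5])],.ref k50 k2 [(z1,[y2,z1,z2]),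
    (z1,[z1]),(z1,[y1,z0,z1])],.ref k49 k2 [(z1,[y1,z0,y1,z1]),(z1,[z1,z1,z3,y1]),(z1,[y1,y1,y1,z1])],
    .ref k48 k1 [(z1,[y2,y1,y1,z1]),(z1,[z1]),(z1,[y1,z0,z1])],.ref k8 k6 [(z1,[y1,z0,z3]),(z1,[z0,z0,y1,z1])],
    .ref k47 k2 [(z1,[y2,z1,z2]),(z1,[z1]),(z1,[y1,z0,z1])],.ref k1 k4 [(z2,[y1,z1,z1,z1])],.contra [y1,z0,z2],
    .contra [z1,z0,y1],.contra [y1,z0,z2],.ref k43 k0 [(z1,[z1,z0,z0,y1]),(z1,[z0,y1,y1,z1])],.contra [y2,z1,z4],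
    .contra [y1,z1,z2],.ref k0 k1 [(z1,[z1])],.ref k46 k0 [(z1,[z1,z0,z2,y2]),(z1,[z0,z0,y1,z1]),(z1,[z0,y1])],
    .ref k1 k4 [(z1,[y1,z0,z0,z1])],.contra [y1,z0,z0,z1],.ref k4 k1 [(z1,[z2,y1,y1,y1]),(z1,[y1,z0,z0,z1])],
    .contra [y2,y1,z1,z1],.contra [y1,z0,z2],.contra [z1,z0,y1],.contra [y2,z0,z1,z1],.contra [y1,z0,z2],.contra [z1,
    z0,y1],.contra [y2,z1,z1,z1],.contra [y1,z1,z2],.contra [y1,z0,y2,z2],.ref k44 k1 [(z1,[z0,z0,y1,z1]),(z2,[y1,y1,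
    y3,z3])],.contra [y2,y1,y2,z2],.ref k1 k0 [(z1,[y1,z0,z0,z1])],.ref k2 k1 [(z1,[z2,y1,y1,y1]),(z1,[y1,z0,z0,z1])],
    .contra [z1],.contra [y2,y1,z1,z1],.ref k10 k6 [(z1,[y1,y1,z1,z1]),(z1,[z1,z1,z0,y1])],.contra [y2,z0,z1,z1],
    .contra [y1,z0,z2],.ref k9 k6 [(z1,[z1]),(z1,[z0,z0,y1,z1])],.contra [y2,z1,z4],.contra [z1]]),
    .old (.leafM k4 [k3,k4,k0,k1,k2] [(z1,[y3,y1,z3]),(z1,[z0,z1])] []),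
    .old (.leafM k5 [k3,k4,k0,k1,k2] [(z1,[y2,y1,z2]),(z1,[z0,z1])] []),
    .old (.lp [(nat_lit 953440),(nat_lit 727200),(nat_lit 953440),(nat_lit 953440),(nat_lit 679326)] [k0,k0,
    (nat_lit 113120),(nat_lit 113120),k0,k0,k0,k0,(nat_lit 137057),(nat_lit 137057)] k0 [[],[],[k0,k0,k0,k0,
    (nat_lit 226560),k0,k0,k0,(nat_lit 143016)],[k0,k0,k0,k0,k0,k0,k0,(nat_lit 95344)],[k0,k0,k0,k0,k0,k0,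
    (nat_lit 95344)],[k0,k0,k0,(nat_lit 226560),k0,k0,k0,k0,k0,(nat_lit 95344)],[k0,k0,(nat_lit 95344)],[k0,k0,k0,k0,
    k0,(nat_lit 95344)],[k0,k0,k0,k0,(nat_lit 95344)],[k0,k0,k0,(nat_lit 143016)]] (nat_lit 2860320) k6
    [[(k2,(nat_lit 697304)),(k8,(nat_lit 816383)),(k0,(nat_lit 953440)),(k6,(nat_lit 953440)),(k4,(nat_lit 1048784))],
    [(k9,(nat_lit 816383)),(k3,(nat_lit 840320)),(k1,(nat_lit 953440)),(k5,(nat_lit 953440)),(k7,(nat_lit 953440))],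
    [(k8,(nat_lit 703263)),(k2,(nat_lit 727200)),(k0,(nat_lit 840320)),(k4,(nat_lit 840320)),(k6,(nat_lit 840320))],
    [(k7,(nat_lit 613760)),(k1,(nat_lit 697304)),(k3,(nat_lit 727200)),(k9,(nat_lit 798607)),(k5,(nat_lit 840320))],
    [(k2,(nat_lit 840320)),(k6,(nat_lit 858096)),(k0,(nat_lit 953440)),(k8,(nat_lit 959399)),(k4,(nat_lit 1180000))],
    [(k9,(nat_lit 721039)),(k3,(nat_lit 840320)),(k7,(nat_lit 953440)),(k1,(nat_lit 1048784)),(k5,(nat_lit 1180000))],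
    [(k2,(nat_lit 613760)),(k8,(nat_lit 721039)),(k0,(nat_lit 953440)),(k4,(nat_lit 953440)),(k6,(nat_lit 1048784))],
    [(k9,(nat_lit 816383)),(k3,(nat_lit 840320)),(k5,(nat_lit 858096)),(k1,(nat_lit 953440)),(k7,(nat_lit 1048784))],
    [(k8,(nat_lit 679326)),(k4,(nat_lit 721039)),(k2,(nat_lit 798607)),(k0,(nat_lit 816383)),(k6,(nat_lit 816383))],
    [(k9,(nat_lit 679326)),(k3,(nat_lit 703263)),(k7,(nat_lit 721039)),(k1,(nat_lit 816383)),(k5,(nat_lit 959399))]]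
    [] k0
    [[k2,k0,k0,k0,k0],[k2,k1,k0,k0,k0],[k2,k0,k0,k0,k1],[k1,k1,k0,k0,k0],[k1,k2,k0,k0,k0],[k1,k1,k1,k0,k0],[k1,k1,k0,
    k1,k0],[k1,k1,k0,k0,k1],[k1,k0,k1,k0,k0],[k1,k0,k1,k0,k1],[k1,k0,k0,k1,k0],[k1,k0,k0,k1,k1],[k1,k0,k0,k0,k1],[k1,
    k0,k0,k0,k2],[k0,k2,k0,k0,k0],[k0,k3,k0,k0,k0],[k0,k2,k1,k0,k0],[k0,k2,k0,k1,k0],[k0,k2,k0,k0,k1],[k0,k1,k1,k0,
    k0],[k0,k1,k1,k1,k0],[k0,k1,k1,k0,k1],[k0,k1,k0,k1,k0],[k0,k1,k0,k2,k0],[k0,k1,k0,k1,k1],[k0,k1,k0,k0,k1],[k0,k1,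
    k0,k0,k2],[k0,k1,k0,k1,k2],[k0,k0,k2,k0,k0],[k0,k0,k1,k1,k0],[k0,k0,k1,k1,k1],[k0,k0,k1,k0,k1],[k0,k0,k1,k0,k2],
    [k0,k0,k0,k2,k0],[k0,k0,k0,k2,k1],[k0,k0,k0,k1,k1],[k0,k0,k0,k1,k2],[k0,k0,k0,k0,k2],[k0,k0,k0,k0,k3],[k0,k0,k0,
    k0,k4]]
    [.contra [z1],.ref k26 k6 [(z1,[z0,y1,y1,z1]),(z1,[y1,z1,z1,z1])],.ref k1 k1 [(z1,[y1,z1,z0,z1])],.contra [y2,z1,
    z1,z1],.ref k3 k6 [(z1,[y1,z0,y1,z1]),(z1,[z0,z0,z1])],.ref k1 k4 [(z1,[y1,z1,z0,z1])],.ref k26 k6 [(z1,[z0,y1,y1,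
    z1]),(z1,[y1,z0,z1,z1])],.contra [z1,z0,y1],.contra [y1,z1,y1,z1],.ref k1 k0 [(z1,[y1,z1,z0,z1])],.contra [z1,z1],
    .ref k1 k1 [(z1,[y1,z0,z0,z1])],.contra [y2,z1,z1,z1],.ref k3 k9 [(z1,[y1,z0,y1,z1]),(z1,[z0,z0,z1])],
    .contra [z1],.ref k55 k2 [(z1,[z0,z0,y1,z1]),(z1,[y1,z0,z3])],.ref k1 k4 [(z2,[y1,z1,z1,z1])],.ref k3 k6 [(z1,[y1,
    y1,y1,z1]),(z1,[z0,z0,z1])],.contra [z1,z0,y1],.ref k0 k1 [(z1,[z1])],.ref k1 k4 [(z1,[y1,z0,z0,z1])],.contra [z1,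
    z0,y1],.contra [y2,y1,z1,z1],.ref k26 k6 [(z1,[z0,y1,y1,z1]),(z1,[y1,y1,z1,z1])],.contra [z1,z1,y1],.contra [y2,
    z1,z1,z1],.contra [z1,z0,y1],.ref k1 k4 [(z1,[z1,z1,y1])],.contra [z1],.contra [y1,z0,y1,z1],.ref k1 k0 [(z1,[y1,
    z0,z0,z1])],.ref k2 k1 [(z1,[z2,y1,y1,y1]),(z1,[y1,z0,z0,z1])],.ref k1 k0 [(z2,[y1,z1,z1,z1])],.contra [z1,z2],
    .ref k1 k1 [(z1,[y1,y1,z0,z1])],.contra [y2,y1,z1,z1],.ref k3 k9 [(z1,[y1,y1,y1,z1]),(z1,[z0,z0,z1])],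
    .contra [z1],.ref k55 k4 [(z1,[z0,z0,y1,z1]),(z1,[y1,z0,z3])],.ref k56 k4 [(z1,[z0,z0,y1,z1]),(z2,[y1,z0,z4])]]),
    .geo true z1 k4 [(y3,z5),(z6,y8),(z2,y2),(y2,z4),(z0,z1)] [(z1,[z1]),(z1,[z0,z1]),(z1,[z0,z0,z1]),(z1,[y1,y1,y1,z1]),
    (z1,[])] (Int.ofNat (nat_lit 629145)) (Int.ofNat (nat_lit 786432)) (.s (.s (.l k1) (.l k1)) (.s (.l k1) (.l k1))) [],
    .geo true z1 k4 [(y2,z4),(y1,z2),(z4,y5),(z2,y2),(z0,z1)] [(z1,[z1]),(z1,[z0,z1]),(z1,[z0,z0,z1]),(z1,[y1,y1,y1,z1]),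
    (z1,[])] (Int.ofNat (nat_lit 524288)) (Int.ofNat (nat_lit 838861)) (.s (.l k1) (.s (.l k1) (.l k1))) []]

noncomputable def cU5_0_n0_5 : List XN :=
  [.geo true z1 k4 [(y3,z5),(y2,z4),(z2,y2),(z6,y8),(z0,z1)] [(z1,[z1]),(z1,[z0,z1]),(z1,[z0,z0,z1]),(z1,[y1,y1,y1,z1]),
    (z1,[])] (Int.ofNat (nat_lit 629145)) (Int.ofNat (nat_lit 786432)) (.s (.s (.l k1) (.l k1)) (.s (.l k1) (.l k1))) [],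
    .old (.lp [(nat_lit 226),(nat_lit 260),k170,(nat_lit 284),k134] [k29,k29,k12,k12,k57,k57,k0,k0,k75,k75] k0 [[k0,k0,
    k36],[k0,k0,k0,k0,k0,k0,k0,k0,k0,k32],[k0,k0,k0,k0,k120,k0,k0,k0,k62],[k0,k36,k0,k0,k0,k0,k0,k24],[k0,k0,k0,k0,k0,
    k0,k32],[k0,k0,k0,k120],[k0,k0,k24,k0,k0,k0,k0,k0,k106],[k0,k0,k0,k0,k0,k32],[k32],[k0,k0,k0,k62,k0,k0,k0,
    k106]] (nat_lit 720) k6
    [[(k6,k149),(k8,k180),(k2,k181),(k4,k198),(k0,(nat_lit 258))],[(k5,k162),(k9,k180),(k3,(nat_lit 243)),(k7,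
    (nat_lit 255)),(k1,(nat_lit 258))],[(k8,k165),(k4,(nat_lit 215)),(k0,(nat_lit 243)),(k6,(nat_lit 272)),(k2,
    (nat_lit 296))],[(k7,k152),(k1,k181),(k5,(nat_lit 215)),(k9,(nat_lit 221)),(k3,(nat_lit 296))],[(k0,k162),(k6,
    (nat_lit 203)),(k8,(nat_lit 214)),(k2,(nat_lit 215)),(k4,(nat_lit 290))],[(k9,k120),(k1,k198),(k3,(nat_lit 215)),
    (k7,(nat_lit 227)),(k5,(nat_lit 290))],[(k2,k152),(k8,(nat_lit 209)),(k4,(nat_lit 227)),(k0,(nat_lit 255)),(k6,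
    (nat_lit 316))],[(k1,k149),(k5,(nat_lit 203)),(k9,(nat_lit 209)),(k3,(nat_lit 272)),(k7,(nat_lit 316))],[(k4,
    k120),(k0,k180),(k6,(nat_lit 209)),(k2,(nat_lit 221)),(k8,(nat_lit 240))],[(k3,k165),(k1,k180),(k7,(nat_lit 209)),
    (k5,(nat_lit 214)),(k9,(nat_lit 240))]]
    [] k0
    [[k2,k0,k0,k0,k0],[k2,k1,k0,k0,k0],[k2,k0,k1,k0,k0],[k2,k0,k0,k1,k0],[k2,k0,k0,k0,k1],[k1,k1,k0,k0,k0],[k1,k1,k1,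
    k0,k0],[k1,k1,k0,k1,k0],[k1,k1,k0,k0,k1],[k1,k1,k1,k0,k1],[k1,k0,k1,k0,k0],[k1,k0,k2,k0,k0],[k1,k0,k1,k1,k0],[k1,
    k0,k1,k0,k1],[k1,k0,k2,k0,k1],[k1,k0,k0,k1,k0],[k1,k1,k1,k1,k0],[k1,k1,k0,k1,k1],[k1,k0,k0,k1,k1],[k1,k0,k1,k1,
    k1],[k1,k0,k0,k0,k1],[k1,k0,k1,k0,k2],[k1,k0,k0,k0,k2],[k0,k2,k0,k0,k0],[k0,k2,k0,k0,k1],[k0,k1,k1,k0,k0],[k0,k1,
    k1,k1,k0],[k0,k1,k1,k0,k1],[k0,k1,k0,k1,k0],[k0,k1,k0,k1,k1],[k0,k1,k0,k0,k1],[k0,k1,k1,k1,k1],[k0,k1,k0,k0,k2],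
    [k0,k0,k2,k0,k0],[k0,k0,k2,k0,k1],[k0,k0,k1,k1,k0],[k0,k0,k1,k1,k1],[k0,k0,k1,k0,k1],[k0,k0,k2,k0,k2],[k0,k0,k1,
    k0,k2],[k0,k0,k0,k2,k0],[k0,k0,k0,k1,k1],[k0,k0,k0,k1,k2],[k0,k0,k0,k0,k2]]
    [.contra [z1],.ref k3 k2 [(z2,[z1,z2,z5,y4]),(z2,[y1,z0,y1,z2])],.ref k60 k7 [(z1,[y3,y1,y3,z3]),(z1,[y2,y1,y2,
    z2]),(z1,[z1])],.ref k57 k2 [(z2,[z1,z1,z2,y2]),(z2,[y1,z1,z2])],.ref k26 k4 [(z1,[z1]),(z1,[y1,z1,z2])],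
    .contra [y3,z2,z3],.ref k1 k3 [(z1,[y1,z0,z0,z1])],.ref k3 k2 [(z1,[z1,z1,z2,y2]),(z1,[y1,z0,z0,z1])],.contra [z1,
    y1,y2,z1],.contra [y1,z0,z0,z1],.contra [y2,z0,y1,z2],.ref k3 k2 [(z1,[z1,z2,z5,y4]),(z1,[y1,y1,y3,z3])],
    .ref k57 k2 [(z1,[z1,z1,z2,y2]),(z1,[y1,z0,z0,z1])],.contra [z1,z0,z1,y1],.contra [y1,y1,y3,z3],.ref k54 k2 [(z1,
    [z1,z1,z2,y2]),(z1,[y1,z0,z0,z1])],.contra [y1,z0,z0,z1],.contra [y1,z0,z0,z1],.ref k1 k1 [(z1,[y1,z0,z0,z1])],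
    .contra [y1,z0,z0,z1],.contra [y2,z0,y1,z2],.ref k1 k3 [(z1,[z1,z0,z1,y1])],.ref k18 k9 [(z1,[y1,z0,y1,z1]),(z1,
    [z0,z0,z1])],.contra [z1],.ref k18 k2 [(z1,[y1,z1,z2,y1]),(z1,[z1])],.ref k0 k1 [(z1,[z1])],.ref k1 k4 [(z1,[y1,
    z0,z0,z1])],.ref k59 k5 [(z1,[z0,z2,z5,y4]),(z1,[y1,z1,z2,y1]),(z1,[z1,y2,y5,z4])],.contra [z1,y1,y3,z2],
    .ref k4 k8 [(z1,[z2,y1,y2]),(z1,[y1,z0,z0,z1])],.contra [y2,z1,z2],.contra [y1,z0,z0,z1],.ref k4 k8 [(z1,[z1,y1,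
    y1]),(z2,[y1,z0,y1,z2])],.contra [z1],.ref k4 k8 [(z1,[z2,z1,z4,y4]),(z1,[y1,y1,y3,z3])],.contra [y1,y1,y2,z2],
    .ref k1 k0 [(z1,[y1,z0,z0,z1])],.contra [y2,z0,y1,z2],.ref k3 k2 [(z2,[y1,z2,z4,y2]),(z2,[z1])],.ref k58 k4 [(z1,
    [y3,y1,y3,z3]),(z1,[z4,z2,z5,y4]),(z1,[z1])],.contra [z1],.ref k0 k3 [(z1,[z1])],.ref k1 k0 [(z2,[y1,z1,z2])],
    .contra [z1]]),
    .geo true z5 k4 [(z2,z0),(z4,z0),(z3,y5),(z6,z0),(z0,z5)] [(z1,[z1]),(z1,[z0,z1]),(z1,[z0,z0,z1]),(z1,[y1,y1,y1,z5]),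
    (z1,[])] z0 (Int.ofNat (nat_lit 629146)) (.s (.l k1) (.l k1)) [],
    .geo true z2 k4 [(y2,z5),(z4,y4),(z2,y2),(z2,y1),(z0,z2)] [(z1,[z1]),(z1,[z0,z2]),(z1,[z0,z0,z2]),(z1,[y1,y2,y2,z2]),
    (z1,[])] (Int.ofNat (nat_lit 419430)) (Int.ofNat (nat_lit 1048576)) (.s (.s (.s (.l k1) (.l k1)) (.s (.s (.s (.l k1) (.l k1)) (.s (.l k1) (.l k1))) (.l k1))) (.s (.l k1) (.l k1))) [],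
    .old (.lp [(nat_lit 1438),(nat_lit 1186),(nat_lit 1590),(nat_lit 1254),(nat_lit 994)] [(nat_lit 272),k0,(nat_lit 262),
    (nat_lit 262),k60,k60,k184,(nat_lit 272),(nat_lit 358),(nat_lit 358)] k0 [[k0,k0,(nat_lit 298),k0,k60],[k0,k0,k0,
    k0,k0,k0,k0,k0,k0,k2],[k0,k0,k0,k0,k0,k0,k10],[k0,(nat_lit 298),k0,k0,k0,k0,k0,k0,k0,(nat_lit 212)],[k0,k0,k0,k0,
    k0,k0,(nat_lit 212)],[k0,k60],[k0,k0,k0,k0,k0,k0,k0,k0,(nat_lit 446)],[k0,k0,k0,k10,k0,(nat_lit 212)],[k2,k0,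
    (nat_lit 212)],[k0,k0,k0,k0,k0,k0,k0,(nat_lit 446)]] (nat_lit 4320) k5
    [[(k6,(nat_lit 1080)),(k8,(nat_lit 1352)),(k0,(nat_lit 1440)),(k4,(nat_lit 1650)),(k2,(nat_lit 1660))],[(k5,
    (nat_lit 1080)),(k9,(nat_lit 1080)),(k7,(nat_lit 1106)),(k3,(nat_lit 1176)),(k1,(nat_lit 1440))],[(k8,
    (nat_lit 1088)),(k0,(nat_lit 1176)),(k6,(nat_lit 1264)),(k4,(nat_lit 1448)),(k2,(nat_lit 1484))],[(k9,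
    (nat_lit 1080)),(k7,(nat_lit 1176)),(k5,(nat_lit 1388)),(k3,(nat_lit 1484)),(k1,(nat_lit 1660))],[(k0,
    (nat_lit 1080)),(k8,(nat_lit 1080)),(k2,(nat_lit 1388)),(k6,(nat_lit 1476)),(k4,(nat_lit 1590))],[(k9,
    (nat_lit 1080)),(k7,(nat_lit 1378)),(k3,(nat_lit 1448)),(k5,(nat_lit 1590)),(k1,(nat_lit 1650))],[(k8,
    (nat_lit 1080)),(k0,(nat_lit 1106)),(k2,(nat_lit 1176)),(k4,(nat_lit 1378)),(k6,(nat_lit 1466))],[(k1,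
    (nat_lit 1080)),(k9,(nat_lit 1168)),(k3,(nat_lit 1264)),(k7,(nat_lit 1466)),(k5,(nat_lit 1476))],[(k0,
    (nat_lit 1080)),(k2,(nat_lit 1080)),(k4,(nat_lit 1080)),(k6,(nat_lit 1168)),(k8,(nat_lit 1440))],[(k5,
    (nat_lit 1080)),(k7,(nat_lit 1080)),(k3,(nat_lit 1088)),(k1,(nat_lit 1352)),(k9,(nat_lit 1440))]]
    [] k0
    [[k2,k0,k0,k0,k0],[k2,k1,k0,k0,k0],[k2,k0,k1,k0,k0],[k2,k0,k0,k1,k0],[k2,k0,k0,k0,k1],[k1,k1,k0,k0,k0],[k1,k1,k1,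
    k0,k0],[k1,k1,k0,k1,k0],[k1,k1,k0,k0,k1],[k1,k0,k1,k0,k0],[k1,k0,k1,k1,k0],[k1,k0,k1,k0,k1],[k1,k0,k0,k1,k0],[k1,
    k0,k0,k2,k0],[k1,k0,k0,k1,k1],[k1,k0,k0,k0,k1],[k1,k0,k0,k0,k2],[k0,k2,k0,k0,k0],[k0,k2,k0,k1,k0],[k0,k2,k0,k0,
    k1],[k0,k1,k1,k0,k0],[k0,k1,k1,k1,k0],[k0,k1,k1,k0,k1],[k0,k1,k0,k1,k0],[k0,k1,k0,k2,k0],[k0,k1,k0,k1,k1],[k0,k1,
    k0,k0,k1],[k0,k1,k0,k0,k2],[k0,k0,k2,k0,k0],[k0,k0,k2,k0,k1],[k0,k0,k1,k1,k0],[k0,k0,k1,k1,k1],[k0,k0,k1,k0,k1],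
    [k0,k0,k1,k0,k2],[k0,k0,k0,k2,k0],[k0,k0,k0,k2,k1],[k0,k0,k0,k1,k1],[k0,k0,k0,k1,k2],[k0,k0,k0,k0,k2]]
    [.contra [z1],.ref k26 k6 [(z1,[z0,y1,y1,z1]),(z1,[y1,z1,z1,z1])],.ref k57 k4 [(z2,[z1,z1,z1,y1]),(z2,[y1,z1,z1,
    z1])],.ref k57 k4 [(z3,[z1,z1]),(z3,[y1,z2,z3])],.ref k43 k0 [(z1,[y1,z1,z1]),(z1,[z0,y1,y1,z1])],.contra [y2,z1,
    z1,z1],.ref k1 k3 [(z1,[y1,z0,z0,z1])],.ref k63 k5 [(z1,[z2,z3,z5,y5]),(z1,[z0,y1,y2,z2]),(z1,[y1,z0,z0,z1])],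
    .contra [z1,y1,y1],.contra [z1,z0,z1,y1],.ref k57 k4 [(z1,[z1,z1,z1,y1]),(z1,[y1,z0,z0,z1])],.ref k3 k4 [(z1,[z1,
    z1,z1,y1]),(z1,[y1,z0,z0,z1])],.ref k62 k1 [(z1,[y2,y3,y5,z5]),(z1,[z1,y1]),(z1,[y3,z3,z5])],.ref k57 k4 [(z2,[z1,
    z1]),(z2,[y1,z1,z2])],.ref k1 k1 [(z1,[y1,z0,z0,z1])],.contra [y2,z1,z1,z1],.ref k3 k4 [(z2,[z1,z1]),(z2,[y1,z1,
    z2])],.contra [z1],.ref k5 k1 [(z1,[z0,y1,y2,z2]),(z1,[z1])],.ref k38 k8 [(z1,[z1,y2,y2]),(z1,[y1,z1,z1,z1])],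
    .ref k0 k1 [(z1,[z1])],.ref k1 k4 [(z1,[y1,z0,z0,z1])],.ref k4 k1 [(z1,[z2,y1,y1,y1]),(z1,[y1,z0,z0,z1])],
    .contra [y2,z1,z2],.ref k1 k3 [(z1,[y1,z0,z1])],.contra [z1,y1,y2,z1],.contra [y2,z1,z1,z1],.ref k18 k4 [(z1,[y1,
    z1,z1]),(z1,[z1])],.contra [z1],.ref k61 k2 [(z1,[y2,z1,z1,z1]),(z1,[z1])],.contra [y2,y2,y3,z3],.ref k1 k0 [(z1,
    [y1,z0,z0,z1])],.ref k2 k1 [(z1,[z2,y1,y1,y1]),(z1,[y1,z0,z0,z1])],.ref k1 k0 [(z2,[y1,z1,z1,z1])],.contra [z1],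
    .ref k3 k4 [(z1,[z1,z1]),(z1,[y1,z0,z1])],.contra [y2,z1,z2],.ref k38 k7 [(z1,[z2,y1,y2]),(z1,[y1,z1,z2])],
    .contra [z1]]),
    .old (.lp [(nat_lit 534),(nat_lit 684),(nat_lit 552),(nat_lit 426),(nat_lit 676)] [k142,k142,k54,k80,k124,k142,k196,
    k196,k142,k0] k0 [[],[k0,k0,k0,k0,k0,k0,k0,k60,k0,k116],[k0,k0,k0,k0,k88],[k0,k0,k0,k0,k0,k0,k0,k0,k0,k52],[k0,k0,
    k0,k0,k0,k0,(nat_lit 214)],[k0,k0,k0,k88],[k60],[k0,k0,k0,k0,k0,(nat_lit 214)],[k116,k0,k52]] (nat_lit 1920) k5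
    [[(k6,(nat_lit 480)),(k8,(nat_lit 534)),(k4,(nat_lit 552)),(k0,(nat_lit 650)),(k2,(nat_lit 674))],[(k7,
    (nat_lit 480)),(k5,(nat_lit 534)),(k3,(nat_lit 596)),(k1,(nat_lit 650)),(k9,(nat_lit 736))],[(k8,(nat_lit 480)),
    (k6,(nat_lit 482)),(k0,(nat_lit 596)),(k4,(nat_lit 614)),(k2,(nat_lit 684))],[(k7,(nat_lit 480)),(k5,
    (nat_lit 622)),(k1,(nat_lit 674)),(k3,(nat_lit 684)),(k9,(nat_lit 764))],[(k6,(nat_lit 480)),(k8,(nat_lit 482)),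
    (k0,(nat_lit 534)),(k2,(nat_lit 622)),(k4,(nat_lit 640))],[(k9,(nat_lit 480)),(k7,(nat_lit 498)),(k1,
    (nat_lit 552)),(k3,(nat_lit 614)),(k5,(nat_lit 640))],[(k0,(nat_lit 480)),(k2,(nat_lit 480)),(k8,(nat_lit 480)),
    (k4,(nat_lit 498)),(k6,(nat_lit 640))],[(k1,(nat_lit 480)),(k5,(nat_lit 480)),(k3,(nat_lit 482)),(k9,
    (nat_lit 622)),(k7,(nat_lit 640))],[(k4,(nat_lit 480)),(k6,(nat_lit 622)),(k8,(nat_lit 676)),(k0,(nat_lit 736)),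
    (k2,(nat_lit 764))],[(k3,(nat_lit 480)),(k7,(nat_lit 480)),(k5,(nat_lit 482)),(k1,(nat_lit 534)),(k9,
    (nat_lit 676))]]
    [] k0
    [[k2,k0,k0,k0,k0],[k2,k0,k1,k0,k0],[k2,k0,k0,k1,k0],[k1,k1,k0,k0,k0],[k1,k1,k1,k0,k0],[k1,k1,k0,k1,k0],[k1,k1,k0,
    k0,k1],[k1,k0,k1,k0,k0],[k1,k0,k2,k0,k0],[k1,k0,k1,k1,k0],[k1,k0,k1,k0,k1],[k1,k0,k0,k1,k0],[k1,k0,k0,k2,k0],[k1,
    k0,k0,k1,k1],[k1,k0,k0,k0,k1],[k0,k2,k0,k0,k0],[k0,k2,k0,k1,k0],[k0,k1,k1,k0,k0],[k0,k1,k2,k0,k0],[k0,k1,k1,k1,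
    k0],[k0,k1,k1,k0,k1],[k0,k1,k0,k1,k0],[k0,k1,k0,k2,k0],[k0,k1,k0,k1,k1],[k0,k1,k0,k0,k1],[k0,k0,k2,k0,k0],[k0,k0,
    k2,k1,k0],[k0,k0,k2,k0,k1],[k0,k0,k1,k1,k0],[k0,k0,k1,k2,k0],[k0,k0,k1,k1,k1],[k0,k0,k1,k0,k1],[k0,k0,k1,k0,k2],
    [k0,k0,k0,k2,k0],[k0,k0,k0,k2,k1],[k0,k0,k0,k1,k1],[k0,k0,k0,k1,k2],[k0,k0,k0,k0,k2]]
    [.contra [z1],.ref k61 k8 [(z2,[y4,y1,y1,z4]),(z1,[z1])],.ref k64 k6 [(z1,[z1,y1,y1]),(z2,[y2,z1,z1,z2])],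
    .contra [y2,z1,z1],.ref k1 k3 [(z1,[y1,z0,z0,z1])],.ref k57 k6 [(z2,[z2,y1,y1]),(z1,[y1,z0,z0,z1])],
    .ref k1 k6 [(z1,[y1,z0,z0,z1])],.ref k2 k4 [(z2,[z4,z1,z1,y4]),(z1,[y1,z0,z0,z1])],.ref k1 k3 [(z4,[y2,y1,y1,
    z4])],.ref k3 k6 [(z2,[z2,y1,y1]),(z1,[y1,z0,z0,z1])],.ref k3 k7 [(z2,[z0,z1,y1]),(z1,[y1,z0,z0,z1])],
    .ref k54 k6 [(z2,[z2,y1,y1]),(z1,[y1,z0,z0,z1])],.ref k57 k6 [(z4,[z2,y1,y1]),(z4,[y2,y1,y1,z4])],.ref k1 k1 [(z1,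
    [y1,z0,z0,z1])],.contra [z2,y1,z1],.contra [z1],.ref k1 k1 [(z2,[y2,y1,z1,z2])],.contra [y2,y1,z0,z2],
    .ref k43 k6 [(z1,[y1,y1,z0,z1]),(z1,[z0,z1])],.contra [z1,z1,z0,y1],.ref k3 k1 [(z1,[z1,y1]),(z1,[y1,z0,z0,z1])],
    .contra [y2,y1,z0,z2],.ref k38 k2 [(z1,[z1,z2,z0,y2]),(z1,[y1,y1,z0,z2])],.ref k4 k3 [(z1,[z2,z1,z0,y2]),(z1,[y1,
    z0,z0,z1])],.ref k2 k3 [(z1,[z2,z1,z0,y2]),(z1,[y1,z0,z0,z1])],.contra [z1],.ref k26 k4 [(z1,[z0,z1]),(z1,[y1,y1,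
    z0,z2])],.ref k3 k7 [(z2,[z0,z1,y1]),(z2,[y1,y1,z0,z2])],.contra [y2,y1,z0,z2],.ref k43 k0 [(z1,[y1,y1,z0,z1]),
    (z1,[z1])],.contra [z2,z1,z1,y2],.contra [y4,y1,y1,z4],.ref k38 k5 [(z1,[z1,z1,z1,y2]),(z2,[y2,y1,y1,z4])],
    .contra [z1],.ref k1 k1 [(z2,[y1,y1,z0,z2])],.contra [y4,y1,y1,z4],.ref k43 k1 [(z2,[y2,y1,y1,z2]),(z1,[z1])],
    .contra [z1]]),
    .geo true z1 k4 [(z0,z3),(z2,y6),(y1,z5),(z2,y3),(z0,z1)] [(z1,[z1]),(z1,[z0,z1]),(z1,[z0,z0,z1]),(z1,[y1,y1,y1,z1]),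
    (z1,[])] (Int.ofNat (nat_lit 209715)) (Int.ofNat (nat_lit 349526)) (.s (.l k1) (.l k1)) [],
    .geo true z1 k4 [(y3,z3),(z2,y1),(y2,z2),(z6,y5),(z0,z1)] [(z1,[z1]),(z1,[z0,z1]),(z1,[z0,z0,z1]),(z1,[y1,y1,y1,z1]),
    (z1,[])] (Int.ofNat (nat_lit 1048576)) (Int.ofNat (nat_lit 1258292)) (.s (.l k1) (.l k1)) [],
    .old (.lp [(nat_lit 8372),(nat_lit 9562),(nat_lit 7756),(nat_lit 4410),(nat_lit 10192)] [(nat_lit 2746),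
    (nat_lit 5996),(nat_lit 3776),(nat_lit 3776),(nat_lit 4679),(nat_lit 4679),(nat_lit 6352),(nat_lit 6352),
    (nat_lit 6922),k0] k0 [[k0,k0,k0,k0,k0,k0,(nat_lit 10528)],[k0,k0,k0,k0,k0,k0,k0,k0,k0,(nat_lit 2436)],[k0,k0,k0,
    k0,k0,k0,k0,k0,(nat_lit 448)],[k0,k0,k0,k0,k0,(nat_lit 2380)],[k0,k0,(nat_lit 2380)],[k0,k0,k0,k0,k0,k0,k0,
    (nat_lit 448)],[k0,k0,k0,k0,(nat_lit 448),k0,k0,k0,(nat_lit 616)],[k0,(nat_lit 10528)],[(nat_lit 2436)],[k0,k0,k0,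
    (nat_lit 448),k0,k0,k0,(nat_lit 616)]] (nat_lit 26880) k8
    [[(k6,(nat_lit 4150)),(k8,(nat_lit 4196)),(k4,(nat_lit 6439)),(k2,(nat_lit 6894)),(k0,(nat_lit 10808))],[(k9,
    (nat_lit 3840)),(k7,(nat_lit 8016)),(k5,(nat_lit 9689)),(k3,(nat_lit 10592)),(k1,(nat_lit 10808))],[(k8,
    (nat_lit 3980)),(k4,(nat_lit 8659)),(k2,(nat_lit 9562)),(k0,(nat_lit 10592)),(k6,(nat_lit 17514))],[(k1,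
    (nat_lit 6894)),(k5,(nat_lit 8659)),(k7,(nat_lit 9366)),(k3,(nat_lit 9562)),(k9,(nat_lit 13338))],[(k4,
    (nat_lit 5376)),(k8,(nat_lit 5961)),(k6,(nat_lit 6083)),(k2,(nat_lit 8659)),(k0,(nat_lit 9689))],[(k5,
    (nat_lit 5376)),(k7,(nat_lit 6083)),(k1,(nat_lit 6439)),(k3,(nat_lit 8659)),(k9,(nat_lit 12883))],[(k8,
    (nat_lit 3840)),(k6,(nat_lit 3962)),(k4,(nat_lit 6083)),(k0,(nat_lit 8016)),(k2,(nat_lit 9366))],[(k7,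
    (nat_lit 3962)),(k1,(nat_lit 4150)),(k5,(nat_lit 6083)),(k9,(nat_lit 10762)),(k3,(nat_lit 17514))],[(k0,
    (nat_lit 3840)),(k6,(nat_lit 10762)),(k8,(nat_lit 10808)),(k4,(nat_lit 12883)),(k2,(nat_lit 13338))],[(k7,
    (nat_lit 3840)),(k3,(nat_lit 3980)),(k1,(nat_lit 4196)),(k5,(nat_lit 5961)),(k9,(nat_lit 10808))]]
    [] k0
    [[k2,k0,k0,k0,k0],[k2,k1,k0,k0,k1],[k2,k0,k0,k1,k0],[k2,k0,k0,k2,k1],[k2,k0,k0,k1,k1],[k2,k0,k0,k0,k1],[k1,k1,k0,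
    k0,k0],[k1,k2,k0,k0,k1],[k1,k1,k1,k0,k0],[k1,k1,k1,k0,k1],[k1,k1,k0,k0,k1],[k2,k1,k0,k1,k2],[k2,k1,k0,k0,k2],[k1,
    k1,k0,k0,k2],[k1,k0,k1,k0,k0],[k2,k0,k1,k0,k1],[k1,k0,k2,k0,k0],[k1,k0,k2,k1,k0],[k1,k0,k2,k1,k1],[k1,k0,k2,k0,
    k1],[k1,k0,k1,k1,k0],[k1,k0,k1,k2,k0],[k1,k0,k1,k2,k1],[k1,k0,k1,k1,k1],[k1,k0,k1,k0,k1],[k2,k0,k1,k0,k2],[k1,k0,
    k0,k1,k0],[k2,k0,k0,k2,k0],[k1,k1,k0,k1,k0],[k1,k1,k0,k1,k1],[k1,k1,k1,k1,k1],[k1,k0,k0,k2,k0],[k1,k1,k0,k2,k1],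
    [k1,k0,k0,k3,k0],[k1,k0,k0,k4,k0],[k1,k0,k0,k4,k1],[k1,k0,k0,k3,k1],[k1,k0,k0,k2,k1],[k2,k0,k0,k2,k2],[k1,k0,k0,
    k2,k2],[k1,k0,k0,k1,k1],[k2,k0,k0,k1,k2],[k1,k0,k0,k1,k2],[k1,k0,k0,k0,k1],[k2,k0,k0,k0,k2],[k3,k0,k0,k0,k3],[k1,
    k0,k0,k0,k2],[k0,k2,k0,k0,k0],[k0,k1,k1,k0,k0],[k0,k1,k2,k0,k0],[k0,k1,k1,k1,k0],[k0,k1,k0,k0,k1],[k0,k1,k1,k0,
    k1],[k0,k1,k0,k1,k1],[k0,k0,k2,k0,k0],[k0,k0,k3,k0,k0],[k0,k0,k4,k0,k0],[k0,k0,k3,k1,k0],[k0,k0,k2,k1,k0],[k0,k0,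
    k2,k2,k0],[k0,k0,k2,k3,k0],[k0,k0,k2,k0,k1],[k0,k0,k1,k1,k0],[k0,k0,k1,k2,k0],[k0,k0,k1,k3,k0],[k0,k0,k1,k4,k0],
    [k0,k0,k1,k2,k1],[k0,k0,k1,k1,k1],[k0,k0,k1,k0,k1],[k0,k0,k0,k2,k0],[k0,k0,k0,k3,k0],[k0,k0,k0,k4,k0],[k0,k0,k0,
    k5,k0],[k0,k0,k0,k6,k0],[k0,k0,k0,k4,k1],[k0,k0,k0,k3,k1],[k0,k0,k0,k2,k1],[k0,k0,k0,k1,k1],[k0,k0,k0,k1,k2],[k0,
    k0,k0,k0,k2]]
    [.contra [z1],.ref k1 k1 [(z1,[y1,z1,z1,z1])],.ref k64 k6 [(z1,[z1,y2,y4]),(z1,[y1,z1,z2,z1])],.contra [z1,z1],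
    .ref k67 k9 [(z1,[y1,z1,y1,z1]),(z1,[z0,z0,z1]),(z1,[z0,z1])],.contra [y1,z0,y2,z2],.contra [y1,z1,z2],
    .contra [z1,y1,y2],.contra [y2,z1,z0,z2],.contra [z1,z0,z1,y1],.contra [y2,z1,z0,z2],.contra [y1,z0,y1,z2],
    .ref k2 k8 [(z1,[y1,z0,z1]),(z1,[z0,z0,y1,z1])],.ref k43 k1 [(z1,[y1,z0,y1,z1]),(z1,[z1,y1,y1])],.contra [y2,z1,
    z0,z2],.contra [z1,z0,z1,y1],.contra [y1,z0,y2,z2],.ref k43 k1 [(z1,[z1,z0,z0,y1]),(z1,[y1,y1,y2,z2])],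
    .contra [z2,z1,z2,y2],.contra [z1,z0,z1,y1],.ref k3 k6 [(z1,[z1,y1,y2]),(z1,[y1,z0,z0,z1])],.contra [z1,z1],
    .contra [z2,z3,z4,y2],.contra [y1,z0,z0,z1],.contra [y2,z1,z0,z2],.contra [y1,z0,y2,z2],.ref k44 k4 [(z1,[z1]),
    (z1,[z0,z0,z1])],.contra [y1,z2,z6],.contra [y1,z1,z3],.contra [y1,z0,z0,z1],.contra [z2,z1,z2,y2],.contra [y1,z1,
    z4],.contra [z1,z1],.contra [z1,z2,z1],.contra [z1,z3,z2],.contra [z1,z3,z2],.contra [z1,z2,z1],.contra [z1,z1],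
    .contra [z1,z1],.contra [y1,y1,y2,z2],.ref k1 k1 [(z1,[y1,z0,z0,z1])],.ref k2 k0 [(z1,[y1,z0,z1]),(z1,[z0,z0,y1,
    z1])],.ref k2 k8 [(z1,[y1,y1]),(z1,[z0,z0,y1,z1])],.contra [y2,z1,z0,z2],.contra [y1,z0,y2,z2],.ref k9 k3 [(z1,
    [z1]),(z1,[z0,z0,z1])],.contra [y1,z0,y2,z2],.contra [z1],.contra [y2,z1,z0,z2],.ref k2 k0 [(z1,[z1,z0,z2,y2]),
    (z1,[z0,z0,y1,z1])],.contra [z1,z0,y1],.contra [y2,z1,z0,z2],.contra [z1,z1,z3,y1],.contra [z1,z0,y1],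
    .contra [z1],.ref k45 k1 [(z1,[z1]),(z1,[z0,z0,z1])],.ref k8 k3 [(z2,[y1,z0,y4,z4]),(z1,[z0,z0,z1])],
    .ref k66 k5 [(z1,[y1,z0,z1]),(z1,[z2,z1]),(z1,[y2,y1,y1,z1])],.ref k2 k8 [(z1,[z1,z0,z2,y2]),(z1,[z0,z0,y1,z1])],
    .contra [z1,z1],.contra [z1,z2,z1],.contra [y1,z0,y2,z2],.contra [y2,y1,y2,z2],.contra [y1,y1,y1,z1],.contra [z1,
    z2,z1],.contra [z1,z3,z2],.contra [z2,z3,z4,y2],.contra [z1,z1,z2,y1],.contra [y2,z1,z0,z2],.contra [y1,z0,z2],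
    .contra [z1,z2,z1],.contra [z1,z3,z2],.contra [z1,z4,z3],.contra [z1,z5,z4],.contra [z1,z3,z2],.contra [z1,z2,z1],
    .contra [y1,y1,y1,z1],.contra [y2,y1,y2,z2],.ref k43 k1 [(z1,[y1,y1,y2,z1]),(z1,[z1])],.contra [z1]]),
    .geo true z7 k3 [(z2,z0),(z6,z0),(z5,y7),(z0,z7),(z8,z0)] [(z1,[z1]),(z1,[z0,z1]),(z1,[z0,z0,z1]),(z1,[]),(z1,[y1,y1,
    y1,z7])] z0 (Int.ofNat (nat_lit 748983)) (.l k1) [],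
    .geo true z9 k3 [(z2,z0),(z8,z0),(z7,y9),(z0,z9),(z10,z0)] [(z1,[z1]),(z1,[z0,z1]),(z1,[z0,z0,z1]),(z1,[]),(z1,[y1,y1,
    y1,z9])] z0 (Int.ofNat (nat_lit 815560)) (.s (.l k1) (.l k1)) [],
    .old (.lp [(nat_lit 1113),(nat_lit 504),(nat_lit 1134),(nat_lit 1148),(nat_lit 1134)] [k156,(nat_lit 501),
    (nat_lit 633),(nat_lit 633),(nat_lit 318),(nat_lit 318),(nat_lit 311),(nat_lit 311),(nat_lit 636),k0] k0 [[k0,k0,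
    k0,k0,k0,k0,(nat_lit 1134)],[k0,k0,k0,k0,k0,k0,k0,k0,k0,k21],[k0,k0,k0,k0,k0,k0,k0,k0,k28],[k0,k0,k0,k0,k0,
    (nat_lit 574)],[k0,k0,(nat_lit 574)],[k0,k0,k0,k0,k0,k0,k0,k49],[k0,k0,k0,k0,k49],[k0,(nat_lit 1134)],[k21],[k0,
    k0,k0,k28]] (nat_lit 3360) k8
    [[(k2,(nat_lit 608)),(k8,(nat_lit 633)),(k4,(nat_lit 951)),(k6,(nat_lit 958)),(k0,(nat_lit 1134))],[(k9,
    (nat_lit 480)),(k3,(nat_lit 981)),(k1,(nat_lit 1134)),(k5,(nat_lit 1296)),(k7,(nat_lit 1303))],[(k8,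
    (nat_lit 480)),(k2,(nat_lit 504)),(k4,(nat_lit 819)),(k0,(nat_lit 981)),(k6,(nat_lit 1960))],[(k3,(nat_lit 504)),
    (k1,(nat_lit 608)),(k5,(nat_lit 819)),(k9,(nat_lit 1137)),(k7,(nat_lit 1400))],[(k4,(nat_lit 560)),(k2,
    (nat_lit 819)),(k8,(nat_lit 844)),(k6,(nat_lit 1141)),(k0,(nat_lit 1296))],[(k5,(nat_lit 560)),(k3,(nat_lit 819)),
    (k1,(nat_lit 951)),(k7,(nat_lit 1141)),(k9,(nat_lit 1501))],[(k8,(nat_lit 823)),(k6,(nat_lit 1099)),(k4,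
    (nat_lit 1141)),(k0,(nat_lit 1303)),(k2,(nat_lit 1400))],[(k1,(nat_lit 958)),(k7,(nat_lit 1099)),(k5,
    (nat_lit 1141)),(k9,(nat_lit 1459)),(k3,(nat_lit 1960))],[(k0,(nat_lit 480)),(k8,(nat_lit 1134)),(k2,
    (nat_lit 1137)),(k6,(nat_lit 1459)),(k4,(nat_lit 1501))],[(k3,(nat_lit 480)),(k1,(nat_lit 633)),(k7,
    (nat_lit 823)),(k5,(nat_lit 844)),(k9,(nat_lit 1134))]]
    [] k0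
    [[k2,k0,k0,k0,k0],[k2,k1,k0,k0,k0],[k2,k2,k0,k0,k0],[k2,k2,k0,k0,k1],[k2,k1,k0,k0,k1],[k2,k0,k0,k0,k1],[k1,k1,k0,
    k0,k0],[k1,k2,k0,k0,k0],[k1,k3,k0,k0,k0],[k1,k4,k0,k0,k0],[k1,k4,k0,k0,k1],[k1,k3,k0,k0,k1],[k1,k2,k1,k0,k0],[k1,
    k2,k1,k0,k1],[k1,k2,k0,k0,k1],[k2,k2,k0,k0,k2],[k1,k2,k0,k0,k2],[k1,k1,k1,k0,k0],[k1,k1,k2,k0,k0],[k1,k1,k2,k0,
    k1],[k1,k1,k1,k0,k1],[k1,k1,k0,k0,k1],[k2,k1,k0,k0,k2],[k1,k1,k0,k0,k2],[k1,k0,k1,k0,k0],[k1,k0,k2,k0,k0],[k1,k0,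
    k2,k0,k1],[k1,k0,k1,k0,k1],[k1,k0,k0,k1,k0],[k1,k1,k0,k1,k0],[k1,k1,k0,k1,k1],[k1,k0,k0,k1,k1],[k1,k0,k0,k0,k1],
    [k2,k0,k0,k0,k2],[k3,k0,k0,k0,k3],[k1,k0,k0,k0,k2],[k0,k2,k0,k0,k0],[k0,k3,k0,k0,k0],[k0,k4,k0,k0,k0],[k0,k5,k0,
    k0,k0],[k0,k6,k0,k0,k0],[k0,k4,k1,k0,k0],[k0,k4,k0,k0,k1],[k0,k3,k1,k0,k0],[k0,k3,k2,k0,k0],[k0,k3,k0,k0,k1],[k0,
    k2,k1,k0,k0],[k0,k2,k2,k0,k0],[k0,k2,k3,k0,k0],[k0,k2,k1,k0,k1],[k0,k2,k0,k0,k1],[k0,k2,k0,k0,k2],[k0,k1,k1,k0,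
    k0],[k0,k1,k2,k0,k0],[k0,k1,k3,k0,k0],[k0,k1,k4,k0,k0],[k0,k1,k1,k0,k1],[k0,k1,k0,k0,k1],[k0,k1,k0,k1,k1],[k0,k1,
    k0,k0,k2],[k0,k0,k2,k0,k0],[k0,k0,k3,k0,k0],[k0,k0,k4,k0,k0],[k0,k0,k5,k0,k0],[k0,k0,k2,k1,k0],[k0,k0,k2,k0,k1],
    [k0,k0,k1,k1,k0],[k0,k0,k1,k0,k1],[k0,k0,k0,k2,k0],[k0,k0,k0,k3,k0],[k0,k0,k0,k1,k1],[k0,k0,k0,k0,k2]]
    [.contra [z1],.ref k26 k6 [(z1,[z0,y1,y1,z1]),(z1,[y1,z1,z1,z1])],.contra [z1,y1,y3,z1],.contra [z2,y2,y3],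
    .ref k4 k1 [(z1,[y2,z1,z1,z1]),(z1,[z1,y1,y1])],.contra [y1,z0,y2,z2],.contra [y2,z1,z1,z1],.contra [y1,z1,z2],
    .contra [z1,y1,y3,z1],.contra [z1,y1,y3,z1],.contra [z2,y2,y3],.contra [z2,y2,y3],.contra [z1,y1,y3,z1],
    .contra [z2,y1,y1,y1],.contra [z2,y2,y3],.contra [z1,y2,y2],.contra [z2,y3,y5,z1],.ref k1 k3 [(z1,[y1,z0,z0,z1])],
    .ref k10 k2 [(z1,[z1]),(z1,[y1,z0,y1,z1])],.contra [z1,z1,z4,y2],.contra [z1,z0,z1,y1],.contra [y1,z1,z2],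
    .ref k0 k1 [(z1,[y1,z1,z1,z1])],.ref k1 k3 [(z1,[z1,y1,y1])],.contra [y2,y1,y3,z3],.contra [y1,z0,y2,z2],
    .contra [z1,z0,z1,y1],.contra [y2,z0,y1,z2],.contra [y2,y1,y3,z3],.contra [z1,z0,y1],.contra [y1,z0,z0,z1],
    .contra [y1,z1,z3],.contra [y2,z1,z1,z1],.contra [y1,z2,z4],.ref k9 k3 [(z1,[z1]),(z1,[z0,z0,z1])],.contra [y1,z0,
    y2,z2],.contra [z1],.contra [z1,y1,y3,z1],.contra [z1,y1,y3,z1],.contra [z1,y1,y3,z1],.contra [z1,y1,y3,z1],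
    .contra [z1,y1,y3,z1],.contra [z1,y3,y7,z3],.contra [z1,y1,y3,z1],.contra [z1,y1,y3,z1],.contra [z1,y2,y5,z2],
    .contra [z1,z1,z3,y1],.contra [z1,z2,z6,y2],.contra [z1,z3,z9,y3],.contra [z1,y1,y3,z1],.contra [y1,z1,z2],
    .contra [z1,y1,y3,z1],.ref k0 k1 [(z1,[z1])],.ref k2 k0 [(z1,[z1,z0,z2,y2]),(z1,[z0,z0,y1,z1])],.ref k69 k1 [(z1,
    [z2,y1,y3,z1]),(z1,[y1,y3,y2,z3]),(z1,[y2,z1,y4,z6])],.ref k70 k1 [(z1,[z2,y1,y3,z1]),(z1,[y1,y4,y3,z4]),(z1,[y2,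
    z1,y6,z8])],.ref k4 k1 [(z1,[z2,y1,y1,y1]),(z1,[y1,z0,z0,z1])],.contra [y2,z1,z1,z1],.contra [z1,z0,y1],
    .ref k18 k4 [(z1,[y1,z1,z1]),(z1,[z1])],.contra [z1],.ref k0 k1 [(z2,[z1,z1,z3,y1])],.ref k8 k3 [(z2,[y1,z0,y4,
    z4]),(z1,[z0,z0,z1])],.ref k2 k0 [(z2,[z1,z1,z7,y5]),(z1,[z0,z0,y1,z1])],.ref k0 k1 [(z1,[z1,z1,z2,y1])],
    .contra [y1,z0,y2,z2],.contra [y1,y1,y1,z1],.contra [y2,z0,y1,z2],.contra [y1,z0,z2],.ref k0 k1 [(z1,[y1,y1,z0,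
    z1])],.contra [y2,y1,y3,z3],.contra [z1]])]

noncomputable def cU5_0_n0_6 : List XN :=
  [.geo true z1 k4 [(y1,z2),(y1,z2),(z3,y3),(z2,y2),(z0,z1)] [(z1,[z1]),(z1,[z0,z1]),(z1,[z0,z0,z1]),(z1,[y1,y1,y1,z1]),
    (z1,[])] (Int.ofNat (nat_lit 524288)) (Int.ofNat (nat_lit 1048576)) (.s (.s (.l k1) (.l k1)) (.s (.s (.l k1) (.l k1)) (.l k1))) [],
    .geo true z5 k4 [(z2,z0),(z4,z0),(z6,y5),(z3,z0),(z0,z5)] [(z1,[z1]),(z1,[z0,z1]),(z1,[z0,z0,z1]),(z1,[y1,y1,y1,z5]),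
    (z1,[])] z0 (Int.ofNat (nat_lit 1258292)) (.s (.l k1) (.s (.s (.l k1) (.l k1)) (.l k1))) [],
    .old (.lp [(nat_lit 238),(nat_lit 320),(nat_lit 216),(nat_lit 372),(nat_lit 292)] [k67,k67,k26,k26,k78,k78,k0,k0,k40,
    k40] k0 [[k0,k0,k0,k0,k0,k0,k6],[k0,k0,k0,k0,k0,k18],[k0,k0,k0,k0,k24,k0,k0,k0,k16],[],[k18],[k0,k0,k0,k24,k0,k0,
    k0,k0,k0,k30],[k0,k0,k0,k0,k0,k0,k0,k0,k144],[k0,k6],[k0,k0,k0,k0,k30],[k0,k0,k0,k16,k0,k0,k0,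
    k144]] (nat_lit 960) k6
    [[(k6,k161),(k0,(nat_lit 238)),(k4,(nat_lit 257)),(k2,(nat_lit 263)),(k8,(nat_lit 265))],[(k5,(nat_lit 227)),(k1,
    (nat_lit 238)),(k9,(nat_lit 259)),(k3,(nat_lit 279)),(k7,(nat_lit 323))],[(k4,(nat_lit 250)),(k0,(nat_lit 279)),
    (k8,(nat_lit 306)),(k2,(nat_lit 320)),(k6,(nat_lit 352))],[(k1,(nat_lit 263)),(k5,(nat_lit 268)),(k9,
    (nat_lit 306)),(k3,(nat_lit 320)),(k7,(nat_lit 322))],[(k0,(nat_lit 227)),(k4,(nat_lit 240)),(k2,(nat_lit 268)),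
    (k8,(nat_lit 270)),(k6,(nat_lit 294))],[(k5,(nat_lit 240)),(k3,(nat_lit 250)),(k9,(nat_lit 254)),(k1,
    (nat_lit 257)),(k7,(nat_lit 294))],[(k4,(nat_lit 294)),(k8,(nat_lit 302)),(k2,(nat_lit 322)),(k0,(nat_lit 323)),
    (k6,(nat_lit 372))],[(k1,k161),(k5,(nat_lit 294)),(k9,(nat_lit 332)),(k3,(nat_lit 352)),(k7,(nat_lit 372))],[(k4,
    (nat_lit 254)),(k0,(nat_lit 259)),(k2,(nat_lit 306)),(k6,(nat_lit 332)),(k8,(nat_lit 436))],[(k1,(nat_lit 265)),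
    (k5,(nat_lit 270)),(k7,(nat_lit 302)),(k3,(nat_lit 306)),(k9,(nat_lit 436))]]
    [] k0
    [[k2,k0,k0,k0,k0],[k3,k0,k0,k0,k0],[k4,k0,k0,k0,k0],[k2,k1,k0,k0,k0],[k2,k0,k1,k0,k0],[k2,k0,k0,k1,k0],[k2,k0,k1,
    k1,k0],[k2,k0,k0,k0,k1],[k1,k1,k0,k0,k0],[k1,k2,k0,k0,k0],[k1,k1,k1,k0,k0],[k1,k1,k0,k1,k0],[k1,k1,k0,k0,k1],[k1,
    k0,k1,k0,k0],[k1,k0,k2,k0,k0],[k1,k0,k1,k1,k0],[k1,k0,k1,k0,k1],[k1,k0,k0,k1,k0],[k1,k0,k2,k1,k0],[k1,k0,k0,k2,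
    k0],[k1,k0,k0,k1,k1],[k1,k0,k1,k1,k1],[k1,k0,k0,k0,k1],[k0,k2,k0,k0,k0],[k0,k2,k1,k0,k0],[k0,k2,k0,k0,k1],[k0,k1,
    k1,k0,k0],[k0,k1,k2,k0,k0],[k0,k1,k1,k1,k0],[k0,k1,k1,k0,k1],[k0,k1,k0,k1,k0],[k0,k1,k0,k0,k1],[k0,k0,k2,k0,k0],
    [k0,k0,k3,k0,k0],[k0,k0,k2,k1,k0],[k0,k0,k2,k0,k1],[k0,k0,k1,k1,k0],[k0,k0,k1,k1,k1],[k0,k0,k1,k0,k1],[k0,k0,k0,
    k2,k0],[k0,k0,k0,k1,k1],[k0,k0,k0,k0,k2]]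
    [.contra [z1],.ref k55 k0 [(z1,[z0,z0,z1]),(z1,[y1,z0,y3,z3])],.ref k56 k5 [(z1,[z0,z0,z1]),(z2,[z1])],
    .ref k3 k8 [(z1,[y1,z0,z1]),(z1,[z0,z0,y1,z1])],.contra [z1,z0,z1,y1],.ref k73 k1 [(z1,[y2,y1,y5,z5]),(z1,[z1,
    y2]),(z1,[y1,z2,z5])],.ref k4 k1 [(z1,[y2,y1,y3,z3]),(z1,[z1,z0,z1,y1])],.ref k4 k3 [(z1,[z1,z0,z2,y2]),(z1,[z0,
    z0,y1,z1])],.contra [y2,z1,z1,z1],.ref k43 k3 [(z1,[y1,z1,z1]),(z1,[z1])],.contra [z1,z0,z1,y1],.ref k72 k3 [(z1,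
    [y1,z1,z1]),(z1,[z0,z1]),(z1,[z1,y1])],.contra [z2,y1,y2],.contra [y1,z0,y2,z2],.contra [z1,z0,z1,y1],.contra [z2,
    z1,z2,y2],.contra [z1,z0,z1,y1],.contra [z2,z1],.contra [y2,y1,y4,z4],.ref k56 k5 [(z1,[z0,z0,z1]),(z1,[z1,z1])],
    .ref k1 k1 [(z1,[y1,z0,z0,z1])],.contra [y1,z0,z0,z1],.contra [y2,z1,z1,z1],.contra [z1],.ref k1 k4 [(z2,[y1,z1,
    z1,z1])],.ref k1 k4 [(z1,[y1,z1,z2])],.ref k0 k1 [(z1,[z1])],.ref k3 k3 [(z1,[y1,z0,z1]),(z1,[z0,z0,y1,z1])],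
    .ref k1 k4 [(z1,[y1,z0,z0,z1])],.ref k4 k1 [(z1,[z2,y1,y1,y1]),(z1,[y1,z0,z0,z1])],.contra [y1,z0,z1],.contra [y2,
    z1,z1,z1],.contra [z1],.ref k4 k1 [(z1,[z1,z0,z2,y2]),(z2,[y1,y1,y3,z3])],.ref k4 k1 [(z1,[z2,z1,z3,y3]),(z1,[y1,
    y1,y2,z2])],.ref k61 k2 [(z1,[y2,z1,z1,z1]),(z1,[z1])],.contra [y2,y1,y3,z3],.ref k1 k0 [(z1,[y1,z0,z0,z1])],
    .ref k2 k1 [(z1,[z2,y1,y1,y1]),(z1,[y1,z0,z0,z1])],.contra [z1,z1],.contra [y1,z0,z1],.contra [z1]]),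
    .old (.lp [(nat_lit 258),(nat_lit 366),(nat_lit 242),(nat_lit 250),(nat_lit 320)] [k54,k54,k0,k0,k62,k62,k58,k58,k23,
    k23] k0 [[k0,k0,k0,k0,k0,k0,k16,k0,k32],[k0,k0,k0,k8],[k8],[k0,k0,k0,k0,k0,k0,k0,k16],[k0,k0,k0,k0,k0,k0,k78],[],
    [k0,k0,k16],[k0,k16,k0,k0,k0,k78],[],[k0,k32]] (nat_lit 960) k6
    [[(k0,(nat_lit 226)),(k4,(nat_lit 250)),(k6,(nat_lit 254)),(k8,(nat_lit 289)),(k2,(nat_lit 312))],[(k1,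
    (nat_lit 226)),(k7,(nat_lit 254)),(k5,(nat_lit 258)),(k9,(nat_lit 273)),(k3,(nat_lit 312))],[(k4,(nat_lit 304)),
    (k0,(nat_lit 312)),(k6,(nat_lit 324)),(k2,(nat_lit 358)),(k8,(nat_lit 375))],[(k5,(nat_lit 304)),(k7,
    (nat_lit 308)),(k1,(nat_lit 312)),(k3,(nat_lit 358)),(k9,(nat_lit 359))],[(k6,(nat_lit 230)),(k4,(nat_lit 242)),
    (k0,(nat_lit 258)),(k8,(nat_lit 281)),(k2,(nat_lit 304))],[(k9,(nat_lit 203)),(k5,(nat_lit 242)),(k7,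
    (nat_lit 246)),(k1,(nat_lit 250)),(k3,(nat_lit 304))],[(k4,(nat_lit 246)),(k0,(nat_lit 254)),(k8,(nat_lit 285)),
    (k2,(nat_lit 308)),(k6,(nat_lit 328))],[(k5,(nat_lit 230)),(k1,(nat_lit 254)),(k9,(nat_lit 285)),(k3,
    (nat_lit 324)),(k7,(nat_lit 328))],[(k4,(nat_lit 203)),(k0,(nat_lit 273)),(k6,(nat_lit 285)),(k8,(nat_lit 320)),
    (k2,(nat_lit 359))],[(k5,(nat_lit 281)),(k7,(nat_lit 285)),(k1,(nat_lit 289)),(k9,(nat_lit 320)),(k3,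
    (nat_lit 375))]]
    [] k0
    [[k2,k0,k0,k0,k0],[k3,k0,k0,k0,k0],[k4,k0,k0,k0,k0],[k2,k1,k0,k0,k0],[k2,k0,k1,k0,k0],[k2,k0,k0,k1,k0],[k2,k0,k0,
    k0,k1],[k1,k1,k0,k0,k0],[k1,k1,k1,k0,k0],[k1,k1,k0,k1,k0],[k1,k0,k1,k0,k0],[k1,k0,k2,k0,k0],[k1,k0,k1,k1,k0],[k1,
    k0,k1,k0,k1],[k1,k0,k0,k1,k0],[k1,k0,k0,k2,k0],[k1,k0,k0,k1,k1],[k1,k0,k0,k0,k1],[k1,k0,k0,k0,k2],[k0,k2,k0,k0,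
    k0],[k0,k1,k1,k0,k0],[k0,k1,k2,k0,k0],[k0,k1,k1,k1,k0],[k0,k1,k1,k0,k1],[k0,k1,k0,k1,k0],[k0,k1,k0,k0,k1],[k0,k0,
    k2,k0,k0],[k0,k0,k3,k0,k0],[k0,k0,k2,k1,k0],[k0,k0,k2,k0,k1],[k0,k0,k1,k1,k0],[k0,k0,k2,k2,k0],[k0,k0,k1,k2,k0],
    [k0,k0,k1,k1,k1],[k0,k0,k1,k0,k1],[k0,k0,k1,k0,k2],[k0,k0,k0,k2,k0],[k0,k0,k0,k2,k1],[k0,k0,k0,k1,k1],[k0,k0,k0,
    k1,k2],[k0,k0,k0,k0,k2]]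
    [.contra [z1],.ref k1 k1 [(z2,[y1,z1,z0,z2])],.ref k56 k5 [(z1,[z0,z0,z1]),(z2,[z1])],.ref k1 k1 [(z1,[y1,z1,z1,
    z1])],.contra [z1,z0,z1,y1],.ref k64 k6 [(z1,[z1,y2,y4]),(z1,[y1,z1,z2,z1])],.ref k4 k3 [(z1,[z1,z0,z2,y2]),(z1,
    [z0,z0,y1,z1])],.contra [y1,z1,z2],.contra [z1,z0,z1,y1],.ref k26 k0 [(z1,[z0,z1,z2]),(z1,[y1,z0,y1,z2])],
    .contra [y2,z1,z0,z2],.contra [z1,z1,z4,y2],.contra [z1,z0,z1,y1],.contra [z1,z0,z1,y1],.ref k54 k6 [(z1,[z1,y1,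
    y2]),(z1,[y1,z0,z0,z1])],.ref k26 k0 [(z1,[z0,z1,z2]),(z2,[y1,y1,y4,z4])],.ref k1 k1 [(z1,[y1,z0,z0,z1])],
    .ref k0 k4 [(z1,[z1])],.ref k1 k6 [(z2,[y1,y1,y2,z2])],.contra [z1],.contra [z1,z1,z3,y1],.ref k3 k3 [(z1,[y1,z0,
    z1]),(z1,[z0,z0,y1,z1])],.ref k1 k4 [(z1,[y1,z0,z0,z1])],.ref k74 k6 [(z1,[y1,y1,y2,z1]),(z1,[z1])],.contra [y1,
    z0,z1],.contra [y1,z0,z1],.contra [z1,z2,z6,y2],.ref k55 k5 [(z1,[z0,z0,z1]),(z1,[y1,z0,y3,z3])],.ref k4 k8 [(z1,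
    [z1,z0,z2,y2]),(z1,[z0,z0,y1,z1])],.ref k18 k6 [(z1,[y1,y1,y2,z1]),(z1,[z1])],.contra [y2,y1,y2,z2],
    .ref k1 k6 [(z2,[z1])],.ref k43 k3 [(z1,[y1,y1,y2,z1]),(z1,[z0,z1,z2])],.contra [z1,z1,z2,y1],.contra [y2,y1,y2,
    z2],.ref k38 k5 [(z1,[z1,z2,z4,y2]),(z1,[y1,y1,y2,z2])],.contra [z1],.ref k26 k0 [(z1,[z0,z1,z2]),(z1,[y1,y1,y2,
    z2])],.contra [y1,z0,z1],.ref k1 k6 [(z1,[y1,y1,y1,z1])],.contra [z1]]),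
    .old (.lp [(nat_lit 236),(nat_lit 200),k164,(nat_lit 278),k196] [k1,k41,k39,k39,k57,k57,k0,k0,k41,k41] k0 [[k0,k0,k40,
    k0,k0,k0,k18],[k0,k0,k0,k0,k0,k2,k0,k0,k0,k18],[k0,k0,k0,k0,k16],[k0,k40],[k2],[k0,k0,k0,k16],[k0,k0,k0,k0,k0,k0,
    k0,k0,k50],[k0,k18],[k18],[k0,k0,k0,k0,k0,k0,k0,k50]] (nat_lit 720) k5
    [[(k4,k180),(k6,k187),(k8,k196),(k2,k198),(k0,(nat_lit 254))],[(k5,k180),(k9,(nat_lit 218)),(k3,(nat_lit 238)),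
    (k1,(nat_lit 254)),(k7,(nat_lit 279))],[(k4,k180),(k8,k180),(k0,(nat_lit 238)),(k2,(nat_lit 240)),(k6,
    (nat_lit 257))],[(k5,k182),(k1,k198),(k9,k198),(k7,(nat_lit 223)),(k3,(nat_lit 240))],[(k0,k180),(k4,k180),(k8,
    k180),(k2,k182),(k6,(nat_lit 221))],[(k1,k180),(k3,k180),(k5,k180),(k9,k180),(k7,(nat_lit 221))],[(k4,
    (nat_lit 221)),(k2,(nat_lit 223)),(k8,(nat_lit 237)),(k6,(nat_lit 278)),(k0,(nat_lit 279))],[(k1,k187),(k5,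
    (nat_lit 221)),(k9,(nat_lit 237)),(k3,(nat_lit 257)),(k7,(nat_lit 278))],[(k4,k180),(k2,k198),(k0,(nat_lit 218)),
    (k6,(nat_lit 237)),(k8,(nat_lit 246))],[(k3,k180),(k5,k180),(k1,k196),(k7,(nat_lit 237)),(k9,(nat_lit 246))]]
    [] k0
    [[k2,k0,k0,k0,k0],[k2,k1,k0,k0,k0],[k2,k0,k1,k0,k0],[k2,k0,k0,k0,k1],[k1,k1,k0,k0,k0],[k1,k2,k0,k0,k0],[k1,k1,k1,
    k0,k0],[k1,k1,k0,k0,k1],[k1,k0,k1,k0,k0],[k1,k0,k2,k0,k0],[k1,k0,k1,k1,k0],[k1,k0,k1,k0,k1],[k1,k0,k0,k1,k0],[k1,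
    k1,k0,k1,k0],[k1,k0,k0,k1,k1],[k1,k0,k0,k0,k1],[k1,k0,k0,k0,k2],[k0,k2,k0,k0,k0],[k0,k2,k1,k0,k0],[k0,k2,k0,k0,
    k1],[k0,k1,k1,k0,k0],[k0,k1,k2,k0,k0],[k0,k1,k1,k1,k0],[k0,k1,k1,k0,k1],[k0,k1,k0,k1,k0],[k0,k1,k0,k1,k1],[k0,k1,
    k0,k0,k1],[k0,k1,k0,k0,k2],[k0,k0,k2,k0,k0],[k0,k0,k3,k0,k0],[k0,k0,k2,k1,k0],[k0,k0,k2,k0,k1],[k0,k0,k1,k1,k0],
    [k0,k0,k1,k1,k1],[k0,k0,k1,k0,k1],[k0,k0,k1,k0,k2],[k0,k0,k0,k2,k0],[k0,k0,k0,k1,k1],[k0,k0,k0,k0,k2]]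
    [.contra [z1],.ref k26 k6 [(z2,[z0,y1,y1,z2]),(z2,[y2,z1,z1,z2])],.ref k3 k6 [(z2,[z0,y1,y3,z2]),(z4,[y2,z1,z1,
    z2])],.ref k18 k1 [(z1,[y1,z0,y1,z1]),(z1,[z0,z0,z1])],.contra [y4,z1,z1,z2],.ref k3 k6 [(z2,[z0,y1,y3,z2]),(z2,
    [y2,z1,z3])],.ref k1 k3 [(z1,[y1,z0,z0,z1])],.contra [z2,y1,y1],.contra [y2,z0,y1,z2],.ref k5 k1 [(z1,[z1]),(z1,
    [z0,z0,z1])],.ref k3 k6 [(z2,[z0,y1,y3,z2]),(z1,[y1,z0,z0,z1])],.contra [z1,z0,z1,y1],.ref k68 k1 [(z2,[y4,y1,y1,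
    z2]),(z1,[z1])],.ref k75 k1 [(z2,[y4,y1,y1,z2]),(z1,[z1])],.ref k1 k1 [(z1,[y1,z0,z0,z1])],.contra [y4,z1,z1,z2],
    .ref k38 k3 [(z1,[z2,z0,z1,y2]),(z1,[y1,z0,y1,z2])],.contra [z1],.ref k1 k4 [(z4,[y2,z1,z1,z2])],.ref k1 k0 [(z2,
    [y2,z1,z3])],.ref k0 k1 [(z1,[z1])],.ref k1 k4 [(z6,[y2,z1,y1,z4])],.ref k1 k4 [(z1,[y1,z0,z0,z1])],
    .ref k4 k1 [(z2,[z4,y1,y1,y2]),(z1,[y1,z0,z0,z1])],.contra [y1,z0,z1],.ref k57 k0 [(z1,[y1,z0,z1]),(z1,[y1,z0,z0,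
    z1])],.contra [y4,z1,z1,z2],.ref k18 k4 [(z2,[y2,z1,z1]),(z1,[z1])],.contra [z1],.ref k1 k4 [(z8,[y2,z1,y3,z6])],
    .ref k1 k4 [(z2,[y1,z0,y1,z2])],.ref k61 k2 [(z2,[y4,z1,z1,z2]),(z1,[z1])],.contra [z2,z1,z3,y2],.ref k1 k0 [(z1,
    [y1,z0,z0,z1])],.contra [y2,z0,y1,z2],.ref k1 k0 [(z4,[y2,z1,z1,z2])],.contra [z1],.ref k0 k3 [(z1,[z1])],
    .contra [z1]]),
    .old (.lp [k196,(nat_lit 278),k164,(nat_lit 200),(nat_lit 236)] [k41,k41,k0,k0,k57,k57,k39,k39,k41,k1] k0 [[k0,k0,k0,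
    k0,k0,k0,k18],[k0,k0,k0,k0,k0,k0,k0,k0,k0,k50],[k0,k0,k0,k0,k16],[k0,k0,k0,k0,k0,k0,k0,k2],[k0,k0,k0,k0,k0,k0,
    k40],[k0,k0,k0,k16],[k0,k0,k2,k0,k0,k0,k0,k0,k18],[k0,k18,k0,k0,k0,k40],[k50],[k0,k0,k0,k0,k0,k0,k0,
    k18]] (nat_lit 720) k5
    [[(k4,k180),(k6,k180),(k8,k196),(k2,(nat_lit 237)),(k0,(nat_lit 246))],[(k5,k180),(k7,k198),(k9,(nat_lit 218)),
    (k3,(nat_lit 237)),(k1,(nat_lit 246))],[(k8,k187),(k4,(nat_lit 221)),(k0,(nat_lit 237)),(k6,(nat_lit 257)),(k2,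
    (nat_lit 278))],[(k5,(nat_lit 221)),(k7,(nat_lit 223)),(k1,(nat_lit 237)),(k3,(nat_lit 278)),(k9,(nat_lit 279))],
    [(k0,k180),(k4,k180),(k6,k180),(k8,k180),(k2,(nat_lit 221))],[(k1,k180),(k5,k180),(k9,k180),(k7,k182),(k3,
    (nat_lit 221))],[(k4,k182),(k0,k198),(k8,k198),(k2,(nat_lit 223)),(k6,(nat_lit 240))],[(k1,k180),(k5,k180),(k9,
    (nat_lit 238)),(k7,(nat_lit 240)),(k3,(nat_lit 257))],[(k4,k180),(k0,(nat_lit 218)),(k6,(nat_lit 238)),(k8,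
    (nat_lit 254)),(k2,(nat_lit 279))],[(k5,k180),(k3,k187),(k1,k196),(k7,k198),(k9,(nat_lit 254))]]
    [] k0
    [[k2,k0,k0,k0,k0],[k2,k0,k1,k0,k0],[k2,k0,k0,k1,k0],[k2,k0,k0,k0,k1],[k1,k1,k0,k0,k0],[k1,k1,k1,k0,k0],[k1,k1,k0,
    k1,k0],[k1,k1,k0,k0,k1],[k1,k0,k1,k0,k0],[k1,k0,k2,k0,k0],[k1,k0,k1,k1,k0],[k1,k0,k1,k0,k1],[k1,k0,k0,k1,k0],[k1,
    k0,k0,k2,k0],[k1,k0,k0,k1,k1],[k1,k0,k0,k0,k1],[k1,k0,k0,k0,k2],[k0,k2,k0,k0,k0],[k0,k1,k1,k0,k0],[k0,k1,k2,k0,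
    k0],[k0,k1,k1,k1,k0],[k0,k1,k1,k0,k1],[k0,k1,k0,k1,k0],[k0,k1,k0,k0,k1],[k0,k1,k0,k1,k1],[k0,k0,k2,k0,k0],[k0,k0,
    k3,k0,k0],[k0,k0,k2,k1,k0],[k0,k0,k2,k0,k1],[k0,k0,k1,k1,k0],[k0,k0,k1,k2,k0],[k0,k0,k1,k1,k1],[k0,k0,k1,k0,k1],
    [k0,k0,k1,k0,k2],[k0,k0,k0,k2,k0],[k0,k0,k0,k2,k1],[k0,k0,k0,k1,k1],[k0,k0,k0,k1,k2],[k0,k0,k0,k0,k2]]
    [.contra [z1],.ref k1 k3 [(z3,[y3,z1,y1,z3])],.ref k57 k6 [(z3,[z3,y2,y1]),(z3,[y3,z1,y1,z3])],.ref k1 k6 [(z3,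
    [y3,z1,y1,z3])],.contra [z3,z1,y1],.ref k1 k3 [(z1,[y1,z0,z0,z1])],.ref k57 k6 [(z3,[z3,y1,y2]),(z1,[y1,z0,z0,
    z1])],.ref k1 k6 [(z1,[y1,z0,z0,z1])],.ref k0 k1 [(z3,[z3,y1,z1])],.ref k1 k3 [(z6,[y3,y1,y2,z6])],
    .ref k1 k4 [(z3,[y3,z1,y1,z3])],.ref k4 k5 [(z1,[z2,z0,z1,y2]),(z3,[y3,z1,y1,z3])],.ref k44 k4 [(z1,[z1]),(z3,[z3,
    y1,z1])],.ref k57 k6 [(z6,[z3,y1,y2]),(z6,[y3,y1,y2,z6])],.ref k1 k1 [(z1,[y1,z0,z0,z1])],.ref k0 k4 [(z1,[z1])],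
    .ref k1 k6 [(z6,[y3,y1,y2,z6])],.contra [z3,z2,y2],.ref k0 k1 [(z1,[z1])],.ref k1 k3 [(z6,[y3,y2,y1,z6])],
    .ref k1 k4 [(z1,[y1,z0,z0,z1])],.ref k4 k5 [(z3,[z6,z2,z1,y6]),(z1,[y1,z0,z0,z1])],.ref k44 k4 [(z3,[z3,z1,y1]),
    (z1,[z1])],.ref k0 k4 [(z3,[z3,z1,y1])],.ref k1 k1 [(z3,[y3,y1,z1,z3])],.contra [z1],.ref k1 k3 [(z3,[y1,y1,y1,
    z3])],.ref k43 k7 [(z3,[y3,y2,y1,z3]),(z1,[z1])],.ref k18 k6 [(z3,[y3,y1,y2,z3]),(z1,[z1])],.contra [y6,y1,y2,z6],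
    .ref k26 k6 [(z1,[z1]),(z3,[y3,y2,y1,z6])],.contra [z3,z2,z1,y3],.contra [y6,y1,y2,z6],.ref k18 k8 [(z3,[y3,y2,y1,
    z3]),(z1,[z1])],.contra [z1],.ref k26 k0 [(z3,[z0,z1,z2]),(z3,[y3,y1,y2,z6])],.contra [y6,y1,y2,z6],
    .ref k43 k1 [(z3,[y3,y1,y2,z3]),(z1,[z1])],.contra [z1]]),
    .old (.lp [(nat_lit 236),(nat_lit 200),k164,(nat_lit 278),k196] [k1,k41,k39,k39,k57,k57,k0,k0,k41,k41] k0 [[k0,k0,k40,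
    k0,k0,k0,k18],[k0,k0,k0,k0,k0,k2,k0,k0,k0,k18],[k0,k0,k0,k0,k16],[k0,k40],[k2],[k0,k0,k0,k16],[k0,k0,k0,k0,k0,k0,
    k0,k0,k50],[k0,k18],[k18],[k0,k0,k0,k0,k0,k0,k0,k50]] (nat_lit 720) k5
    [[(k4,k180),(k6,k187),(k8,k196),(k2,k198),(k0,(nat_lit 254))],[(k5,k180),(k9,(nat_lit 218)),(k3,(nat_lit 238)),
    (k1,(nat_lit 254)),(k7,(nat_lit 279))],[(k4,k180),(k8,k180),(k0,(nat_lit 238)),(k2,(nat_lit 240)),(k6,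
    (nat_lit 257))],[(k5,k182),(k1,k198),(k9,k198),(k7,(nat_lit 223)),(k3,(nat_lit 240))],[(k0,k180),(k4,k180),(k8,
    k180),(k2,k182),(k6,(nat_lit 221))],[(k1,k180),(k3,k180),(k5,k180),(k9,k180),(k7,(nat_lit 221))],[(k4,
    (nat_lit 221)),(k2,(nat_lit 223)),(k8,(nat_lit 237)),(k6,(nat_lit 278)),(k0,(nat_lit 279))],[(k1,k187),(k5,
    (nat_lit 221)),(k9,(nat_lit 237)),(k3,(nat_lit 257)),(k7,(nat_lit 278))],[(k4,k180),(k2,k198),(k0,(nat_lit 218)),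
    (k6,(nat_lit 237)),(k8,(nat_lit 246))],[(k3,k180),(k5,k180),(k1,k196),(k7,(nat_lit 237)),(k9,(nat_lit 246))]]
    [] k0
    [[k2,k0,k0,k0,k0],[k2,k1,k0,k0,k0],[k2,k0,k1,k0,k0],[k2,k0,k0,k0,k1],[k1,k1,k0,k0,k0],[k1,k2,k0,k0,k0],[k1,k1,k1,
    k0,k0],[k1,k1,k0,k0,k1],[k1,k0,k1,k0,k0],[k1,k0,k2,k0,k0],[k1,k0,k1,k1,k0],[k1,k0,k1,k0,k1],[k1,k0,k0,k1,k0],[k1,
    k1,k0,k1,k0],[k1,k0,k0,k1,k1],[k1,k0,k0,k0,k1],[k1,k0,k0,k0,k2],[k0,k2,k0,k0,k0],[k0,k2,k1,k0,k0],[k0,k2,k0,k0,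
    k1],[k0,k1,k1,k0,k0],[k0,k1,k2,k0,k0],[k0,k1,k1,k1,k0],[k0,k1,k1,k0,k1],[k0,k1,k0,k1,k0],[k0,k1,k0,k1,k1],[k0,k1,
    k0,k0,k1],[k0,k1,k0,k0,k2],[k0,k0,k2,k0,k0],[k0,k0,k3,k0,k0],[k0,k0,k2,k1,k0],[k0,k0,k2,k0,k1],[k0,k0,k1,k1,k0],
    [k0,k0,k1,k1,k1],[k0,k0,k1,k0,k1],[k0,k0,k1,k0,k2],[k0,k0,k0,k2,k0],[k0,k0,k0,k1,k1],[k0,k0,k0,k0,k2]]
    [.contra [z1],.ref k26 k6 [(z1,[z0,y1,y1,z1]),(z1,[y1,z1,z1,z1])],.ref k26 k6 [(z1,[z0,y1,y1,z1]),(z1,[y1,z0,y1,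
    z2])],.ref k38 k2 [(z1,[z2,z0,z1,y2]),(z1,[y1,z0,y1,z2])],.contra [y2,z2,z3],.ref k1 k3 [(z1,[y1,z1,z2])],
    .ref k1 k3 [(z1,[y1,z0,z0,z1])],.contra [z1,y1,y1],.contra [y2,z0,y1,z2],.ref k1 k3 [(z1,[y1,y1,y2,z2])],
    .ref k26 k6 [(z1,[z0,y1,y1,z1]),(z1,[y2,y1,y2,z3])],.contra [z1,z0,z1,y1],.ref k68 k1 [(z1,[y2,y1,y1,z1]),(z1,
    [z1])],.ref k26 k6 [(z1,[z0,y1,y1,z1]),(z1,[y2,z1,z2,z1])],.ref k1 k1 [(z1,[y1,z0,z0,z1])],.contra [z1,y1],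
    .ref k18 k9 [(z1,[y1,z0,y1,z1]),(z1,[z0,z0,z1])],.contra [z1],.ref k1 k4 [(z2,[y1,z1,z1,z1])],.ref k4 k1 [(z1,[z2,
    y3,y5,z1]),(z1,[y1,z1,z2])],.contra [z1,z1,z2,y1],.ref k1 k4 [(z2,[y1,z0,y1,z2])],.ref k1 k4 [(z1,[y1,z0,z0,z1])],
    .ref k4 k1 [(z1,[z2,y1,y1,y1]),(z1,[y1,z0,z0,z1])],.contra [y1,z0,z1],.ref k1 k0 [(z1,[y1,z1,z2])],.contra [y2,z2,
    z3],.ref k1 k0 [(z2,[y1,z2,z3])],.contra [z1,z2,z4,y2],.ref k1 k4 [(z2,[y1,y1,y3,z3])],.ref k1 k4 [(z1,[y1,y1,y2,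
    z2])],.ref k4 k1 [(z1,[z2,z1,z3,y3]),(z1,[y1,y1,y2,z2])],.contra [y1,y1,y1,z1],.ref k1 k0 [(z1,[y1,z0,z0,z1])],
    .contra [y2,z0,y1,z2],.ref k1 k0 [(z2,[y1,z1,z1,z1])],.contra [z1],.ref k0 k3 [(z1,[z1])],.contra [z1]]),
    .old (.lp [(nat_lit 684),(nat_lit 552),(nat_lit 426),(nat_lit 676),(nat_lit 534)] [k54,k80,k124,k142,k196,k196,k142,
    k0,k142,k142] k0 [[k0,k0,k88],[k0,k0,k0,k0,k0,k0,k0,k52],[k0,k0,k0,k0,(nat_lit 214)],[k0,k88],[k0,k0,k0,k0,k0,k0,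
    k0,k0,k60],[k0,k0,k0,(nat_lit 214)],[k52,k0,k0,k0,k0,k0,k0,k0,k116],[],[],[k0,k0,k0,k0,k0,k60,k0,
    k116]] (nat_lit 1920) k5
    [[(k6,(nat_lit 480)),(k4,(nat_lit 482)),(k8,(nat_lit 596)),(k2,(nat_lit 614)),(k0,(nat_lit 684))],[(k5,
    (nat_lit 480)),(k3,(nat_lit 622)),(k9,(nat_lit 674)),(k1,(nat_lit 684)),(k7,(nat_lit 764))],[(k4,(nat_lit 480)),
    (k6,(nat_lit 482)),(k8,(nat_lit 534)),(k0,(nat_lit 622)),(k2,(nat_lit 640))],[(k7,(nat_lit 480)),(k5,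
    (nat_lit 498)),(k9,(nat_lit 552)),(k1,(nat_lit 614)),(k3,(nat_lit 640))],[(k0,(nat_lit 480)),(k6,(nat_lit 480)),
    (k8,(nat_lit 480)),(k2,(nat_lit 498)),(k4,(nat_lit 640))],[(k3,(nat_lit 480)),(k9,(nat_lit 480)),(k1,
    (nat_lit 482)),(k7,(nat_lit 622)),(k5,(nat_lit 640))],[(k2,(nat_lit 480)),(k4,(nat_lit 622)),(k6,(nat_lit 676)),
    (k8,(nat_lit 736)),(k0,(nat_lit 764))],[(k1,(nat_lit 480)),(k5,(nat_lit 480)),(k3,(nat_lit 482)),(k9,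
    (nat_lit 534)),(k7,(nat_lit 676))],[(k4,(nat_lit 480)),(k6,(nat_lit 534)),(k2,(nat_lit 552)),(k8,(nat_lit 650)),
    (k0,(nat_lit 674))],[(k5,(nat_lit 480)),(k3,(nat_lit 534)),(k1,(nat_lit 596)),(k9,(nat_lit 650)),(k7,
    (nat_lit 736))]]
    [] k0
    [[k2,k0,k0,k0,k0],[k2,k0,k1,k0,k0],[k1,k1,k0,k0,k0],[k1,k2,k0,k0,k0],[k1,k1,k1,k0,k0],[k1,k1,k0,k1,k0],[k1,k1,k0,
    k0,k1],[k1,k0,k1,k0,k0],[k1,k0,k2,k0,k0],[k1,k0,k1,k1,k0],[k1,k0,k1,k0,k1],[k1,k0,k0,k1,k0],[k1,k0,k0,k1,k1],[k1,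
    k0,k0,k0,k1],[k0,k2,k0,k0,k0],[k0,k2,k1,k0,k0],[k0,k2,k0,k1,k0],[k0,k2,k0,k0,k1],[k0,k1,k1,k0,k0],[k0,k1,k2,k0,
    k0],[k0,k1,k1,k1,k0],[k0,k1,k1,k0,k1],[k0,k1,k0,k1,k0],[k0,k1,k0,k2,k0],[k0,k1,k0,k1,k1],[k0,k1,k0,k0,k1],[k0,k1,
    k0,k0,k2],[k0,k0,k2,k0,k0],[k0,k0,k2,k1,k0],[k0,k0,k2,k0,k1],[k0,k0,k1,k1,k0],[k0,k0,k1,k2,k0],[k0,k0,k1,k1,k1],
    [k0,k0,k1,k0,k1],[k0,k0,k1,k0,k2],[k0,k0,k0,k2,k0],[k0,k0,k0,k1,k1],[k0,k0,k0,k0,k2]]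
    [.contra [z1],.ref k78 k8 [(z1,[y1,y1]),(z1,[z1])],.contra [y1,z1,z1],.ref k77 k4 [(z1,[y1,z2,z2]),(z1,[z2,y1,
    y1])],.ref k1 k3 [(z1,[y1,z0,z1])],.ref k57 k8 [(z1,[z1,y1,y1]),(z1,[y1,z0,z1])],.ref k1 k6 [(z1,[y1,z0,z1])],
    .ref k71 k8 [(z1,[y1,y1]),(z1,[z1])],.ref k76 k8 [(z1,[y1,y2]),(z1,[z1])],.ref k75 k5 [(z1,[y2,z1,z1]),(z1,[z1])],
    .ref k74 k8 [(z1,[y1,y1]),(z1,[z1])],.ref k68 k5 [(z1,[y2,z1,z1]),(z1,[z1])],.ref k1 k1 [(z1,[y1,z0,z1])],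
    .ref k0 k4 [(z1,[z1])],.contra [z1],.ref k65 k5 [(z1,[z1]),(z1,[y1,z2,z2])],.ref k64 k8 [(z1,[z1,y2,y2]),(z1,[y1,
    z1,z2])],.ref k61 k6 [(z1,[y2,y1,z1]),(z1,[z1])],.ref k0 k1 [(z1,[z1])],.ref k1 k3 [(z2,[y1,y1,z1])],
    .ref k1 k4 [(z1,[y1,z0,z1])],.ref k4 k5 [(z1,[z2,z1,y1]),(z1,[y1,z0,z1])],.ref k54 k8 [(z1,[z1,y1,y1]),(z1,[y1,z0,
    z1])],.ref k57 k8 [(z2,[z1,y1,y1]),(z2,[y1,y1,z1])],.ref k3 k8 [(z1,[z1,y1,y1]),(z1,[y1,z0,z1])],.ref k2 k5 [(z1,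
    [z2,z1,y1]),(z1,[y1,z0,z1])],.ref k1 k6 [(z2,[y1,y1,z1])],.contra [z1],.ref k43 k7 [(z1,[y1,y1]),(z1,[z1])],
    .ref k38 k4 [(z1,[z1,z2]),(z1,[y1,y1,z1])],.contra [y2,y1,z1],.ref k26 k6 [(z1,[z1]),(z1,[y1,y1,z1])],.contra [z1,
    z1],.contra [y2,y1,z1],.ref k18 k8 [(z1,[y1,y1]),(z1,[z1])],.contra [z1],.contra [y2,y1,z1],.contra [z1]]),
    .geo true z3 k4 [(z0,z6),(z1,y3),(z6,y6),(z2,z0),(z0,z3)] [(z1,[z3]),(z1,[z0,z1]),(z1,[z0,z0,z3]),(z1,[y3,y1,y3,z3]),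
    (z1,[])] z0 (Int.ofNat (nat_lit 349526)) (.s (.l k1) (.l k1)) [],
    .geo true z3 k4 [(y3,z3),(z2,z0),(z6,y3),(z4,y3),(z0,z3)] [(z1,[z3]),(z1,[z0,z1]),(z1,[z0,z0,z3]),(z1,[y3,y1,y3,z3]),
    (z1,[])] (Int.ofNat (nat_lit 1048576)) (Int.ofNat (nat_lit 1398102)) (.s (.l k1) (.l k1)) [],
    .geo true z3 k4 [(z2,z6),(z2,z0),(z1,y3),(z4,y6),(z0,z3)] [(z1,[z1]),(z1,[z0,z1]),(z1,[z0,z0,z1]),(z1,[y1,y1,y1,z3]),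
    (z1,[])] z0 (Int.ofNat (nat_lit 349526)) (.s (.l k1) (.l k1)) [],
    .geo true z9 k4 [(z1,z0),(z18,y9),(z2,z0),(z6,z0),(z0,z9)] [(z1,[z1]),(z1,[z0,z9]),(z1,[z0,z0,z1]),(z1,[y1,y9,y1,z9]),
    (z1,[])] z0 (Int.ofNat (nat_lit 2097152)) (.s (.s (.s (.l k1) (.l k1)) (.s (.l k1) (.l k1))) (.s (.s (.l k1) (.l k1)) (.l k1))) []]

noncomputable def cU5_0_n0_7 : List XN :=
  [.geo true z6 k4 [(z1,z0),(z4,z0),(z12,y6),(z1,z0),(z0,z6)] [(z1,[z1]),(z1,[z0,z2]),(z1,[z0,z0,z6]),(z1,[y1,y2,y6,z6]),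
    (z1,[])] z0 (Int.ofNat (nat_lit 2097152)) (.s (.s (.l k1) (.l k1)) (.s (.s (.l k1) (.l k1)) (.s (.l k1) (.l k1)))) [],
    .old (.lp [(nat_lit 54412),(nat_lit 48434),(nat_lit 99796),(nat_lit 49410),(nat_lit 98820)] [(nat_lit 40356),
    (nat_lit 5028),(nat_lit 25681),(nat_lit 25681),k0,k0,(nat_lit 25193),(nat_lit 25193),(nat_lit 488),
    (nat_lit 488)] k0 [[k0,k0,k0,k0,k0,k0,(nat_lit 1952)],[k0,k0,k0,k0,k0,k0,k0,k0,k0,(nat_lit 23668)],[k0,k0,k0,k0,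
    k0,k0,k0,k0,(nat_lit 35624)],[k0,k0,k0,k0,k0,(nat_lit 12810),k0,(nat_lit 13786)],[k0,k0,(nat_lit 12810)],[k0,k0,
    k0,k0,k0,k0,k0,k0,k0,(nat_lit 12810)],[k0,k0,(nat_lit 13786)],[k0,(nat_lit 1952)],[(nat_lit 23668),k0,k0,k0,
    (nat_lit 12810)],[k0,k0,k0,(nat_lit 35624)]] (nat_lit 234240) k8
    [[(k2,(nat_lit 33463)),(k6,(nat_lit 69575)),(k0,(nat_lit 78080)),(k8,(nat_lit 94280)),(k4,(nat_lit 107578))],[(k3,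
    (nat_lit 33759)),(k7,(nat_lit 34247)),(k9,(nat_lit 57000)),(k5,(nat_lit 59440)),(k1,(nat_lit 78080))],[(k0,
    (nat_lit 33759)),(k2,(nat_lit 48434)),(k8,(nat_lit 49959)),(k6,(nat_lit 50874)),(k4,(nat_lit 74115))],[(k1,
    (nat_lit 33463)),(k3,(nat_lit 48434)),(k7,(nat_lit 61732)),(k5,(nat_lit 74115)),(k9,(nat_lit 87413))],[(k0,
    (nat_lit 59440)),(k6,(nat_lit 60817)),(k2,(nat_lit 74115)),(k4,(nat_lit 86986)),(k8,(nat_lit 134932))],[(k3,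
    (nat_lit 74115)),(k7,(nat_lit 74603)),(k5,(nat_lit 86986)),(k9,(nat_lit 99308)),(k1,(nat_lit 107578))],[(k0,
    (nat_lit 34247)),(k6,(nat_lit 49410)),(k8,(nat_lit 61305)),(k2,(nat_lit 61732)),(k4,(nat_lit 74603))],[(k7,
    (nat_lit 49410)),(k3,(nat_lit 50874)),(k5,(nat_lit 60817)),(k1,(nat_lit 69575)),(k9,(nat_lit 74115))],[(k0,
    (nat_lit 57000)),(k6,(nat_lit 74115)),(k2,(nat_lit 87413)),(k8,(nat_lit 98820)),(k4,(nat_lit 99308))],[(k3,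
    (nat_lit 49959)),(k7,(nat_lit 61305)),(k1,(nat_lit 94280)),(k9,(nat_lit 98820)),(k5,(nat_lit 134932))]]
    [] k0
    [[k2,k0,k0,k0,k0],[k3,k1,k0,k0,k0],[k2,k1,k0,k0,k0],[k3,k2,k0,k0,k0],[k2,k2,k0,k0,k0],[k2,k1,k0,k1,k0],[k2,k1,k0,
    k0,k1],[k2,k0,k0,k1,k0],[k2,k0,k0,k2,k0],[k2,k0,k0,k0,k1],[k1,k1,k0,k0,k0],[k3,k3,k0,k0,k0],[k2,k3,k0,k0,k0],[k2,
    k4,k0,k0,k0],[k2,k2,k0,k1,k0],[k2,k2,k0,k0,k1],[k2,k1,k0,k2,k0],[k1,k2,k0,k0,k0],[k1,k3,k0,k0,k0],[k1,k4,k0,k0,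
    k0],[k1,k3,k0,k1,k0],[k1,k2,k1,k0,k0],[k1,k2,k0,k1,k0],[k1,k2,k0,k2,k0],[k1,k2,k0,k0,k1],[k1,k1,k1,k0,k0],[k1,k1,
    k1,k1,k0],[k1,k1,k0,k1,k0],[k1,k1,k0,k2,k0],[k1,k1,k0,k3,k0],[k1,k1,k0,k1,k1],[k1,k1,k0,k0,k1],[k1,k0,k1,k0,k0],
    [k1,k0,k1,k1,k0],[k1,k0,k0,k1,k0],[k1,k0,k0,k2,k0],[k1,k0,k0,k3,k0],[k1,k0,k0,k1,k1],[k1,k0,k0,k0,k1],[k0,k2,k0,
    k0,k0],[k0,k3,k0,k0,k0],[k0,k4,k0,k0,k0],[k0,k3,k0,k1,k0],[k0,k2,k1,k0,k0],[k0,k2,k0,k1,k0],[k0,k2,k0,k2,k0],[k0,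
    k2,k0,k0,k1],[k0,k1,k1,k0,k0],[k0,k1,k1,k1,k0],[k0,k1,k0,k1,k0],[k0,k1,k0,k2,k0],[k0,k1,k0,k3,k0],[k0,k1,k0,k1,
    k1],[k0,k1,k0,k0,k1],[k0,k1,k1,k0,k1],[k0,k0,k2,k0,k0],[k0,k0,k2,k1,k0],[k0,k0,k1,k1,k0],[k0,k0,k1,k2,k0],[k0,k0,
    k1,k1,k1],[k0,k0,k0,k2,k0],[k0,k0,k0,k3,k0],[k0,k0,k0,k4,k0],[k0,k0,k0,k2,k1],[k0,k0,k0,k1,k1],[k0,k0,k0,k0,k2]]
    [.contra [z1],.contra [z1,y1],.contra [y6,z5,z2],.contra [z1,y1],.contra [y3,z2,z2],.contra [z3,y1,y1],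
    .ref k10 k5 [(z3,[y3,z1,z1,z3]),(z1,[z1,z0,z0,y1])],.contra [y6,z5,z2],.contra [y3,z2,z2],.ref k79 k3 [(z1,[z2,y1,
    z0,y1])],.contra [y6,z5,z2],.contra [z1,y1],.ref k83 k8 [(z1,[y3,z2,z3]),(z3,[z0,y1,y1,z3]),(z1,[z3,y2])],
    .ref k84 k5 [(z2,[z3,y2]),(z1,[z0,z1]),(z3,[z0,y1,y1,z3])],.contra [y3,z2,z2],.ref k79 k8 [(z3,[y3,z1,z1])],
    .contra [y3,z2,z2],.contra [y3,z2,z2],.contra [y3,z1,z4],.contra [y3,z1,z4],.contra [y3,z1,z4],.ref k10 k4 [(z3,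
    [y3,z1,z1,z3]),(z1,[z1,z0,z0,y1])],.contra [z3,y1,y1],.contra [z3,z1,y2],.ref k82 k3 [(z1,[z3,y1,y2]),(z1,[z0,
    z1]),(z1,[z0,z0,z1])],.ref k1 k3 [(z1,[y1,z0,z0,z1])],.contra [z3,y1,y1],.contra [z3,z2,y1],.contra [z3,y1,y1],
    .contra [y2,z1,z2],.contra [y1,z0,z0,z1],.ref k1 k6 [(z1,[y1,z0,z0,z1])],.ref k79 k3 [(z3,[y6,z1,y2,z3])],
    .ref k81 k5 [(z3,[y3,z1,z1]),(z1,[z0,z1]),(z3,[z0,y1,y1,z3])],.contra [y6,z5,z2],.contra [y3,z2,z2],.contra [y2,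
    z1,z2],.ref k1 k1 [(z1,[y1,z0,z0,z1])],.ref k0 k4 [(z1,[z1])],.contra [z1],.contra [y2,z1,z2],.contra [y1,z0,z2],
    .contra [y2,z1,z2],.ref k79 k0 [(z1,[z1,z0,z0,y1])],.contra [y3,z2,z2],.contra [z3,z4,y2],.ref k80 k1 [(z3,[y3,y1,
    y1,z3]),(z1,[z0,z0,z1]),(z1,[z1])],.ref k0 k1 [(z1,[z1])],.ref k1 k4 [(z1,[y1,z0,z0,z1])],.contra [z3,z5,y1],
    .contra [y3,z2,z2],.contra [y2,z1,z2],.ref k55 k0 [(z1,[z1]),(z1,[y3,y1,z0,z3])],.ref k44 k0 [(z1,[z1]),(z3,[z0,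
    y1,y1,z3])],.contra [z3,z1,z1,y3],.contra [z1],.ref k79 k1 [(z1,[z1,z0,z0,y1])],.ref k0 k6 [(z1,[z1])],
    .ref k79 k8 [(z1,[z1,z0,z0,y1])],.contra [z3,z1,z1,y3],.contra [z1],.contra [y2,z1,z2],.contra [y3,z1,z4],
    .ref k79 k6 [(z1,[z1,z0,z0,y1])],.ref k0 k3 [(z1,[z1])],.contra [y3,y2,y2,z6]]),
    .geo true z2 k3 [(z1,z6),(z1,y2),(z3,y6),(z0,z2),(z1,z0)] [(z1,[z1]),(z1,[z0,z1]),(z1,[z0,z0,z1]),(z1,[]),(z1,[y1,y1,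
    y1,z2])] z0 (Int.ofNat (nat_lit 524288)) (.s (.s (.l k1) (.l k1)) (.s (.l k1) (.l k1))) [],
    .geo true z10 k4 [(z1,z0),(z5,z0),(z20,y10),(z4,z0),(z0,z10)] [(z1,[z1]),(z1,[z0,z5]),(z1,[z0,z0,z10]),(z1,[y1,y5,y10,
    z10]),(z1,[])] z0 (Int.ofNat (nat_lit 2097152)) (.s (.s (.l k1) (.l k1)) (.s (.l k1) (.s (.l k1) (.l k1)))) [],
    .geo true z2 k4 [(z0,z6),(z1,z0),(z1,y2),(z4,y6),(z0,z2)] [(z1,[z2]),(z1,[z0,z1]),(z1,[z0,z0,z1]),(z1,[y2,y1,y1,z2]),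
    (z1,[])] z0 (Int.ofNat (nat_lit 524288)) (.s (.s (.l k1) (.s (.l k1) (.l k1))) (.s (.l k1) (.l k1))) [],
    .geo true z2 k4 [(z0,z8),(z1,z0),(z1,y2),(z4,y8),(z0,z2)] [(z1,[z2]),(z1,[z0,z1]),(z1,[z0,z0,z1]),(z1,[y2,y1,y1,z2]),
    (z1,[])] z0 (Int.ofNat (nat_lit 524288)) (.s (.s (.s (.l k1) (.l k1)) (.s (.s (.l k1) (.l k1)) (.s (.l k1) (.l k1)))) (.s (.l k1) (.l k1))) [],
    .old (.lp [(nat_lit 26964),(nat_lit 22274),(nat_lit 34160),(nat_lit 13300),(nat_lit 34160)] [(nat_lit 13802),k0,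
    (nat_lit 9246),(nat_lit 9246),(nat_lit 3303),(nat_lit 3303),(nat_lit 13733),(nat_lit 13733),(nat_lit 3303),
    (nat_lit 3303)] k0 [[k0,k0,(nat_lit 5054),k0,k0,k0,(nat_lit 1456)],[k0,k0,k0,k0,k0,(nat_lit 3234)],[k0,k0,k0,k0,
    k0,k0,k0,k0,(nat_lit 19040)],[k0,(nat_lit 5054),k0,k0,k0,k0,k0,(nat_lit 3598)],[(nat_lit 3234)],[],[k0,k0,
    (nat_lit 3598)],[k0,(nat_lit 1456),k0,k0,k0,k0,k0,k0,k0,(nat_lit 4690)],[k0,k0,k0,k0,k0,k0,(nat_lit 4690)],[k0,k0,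
    k0,(nat_lit 19040)]] (nat_lit 87360) k8
    [[(k2,(nat_lit 12480)),(k0,(nat_lit 26964)),(k6,(nat_lit 31723)),(k4,(nat_lit 37463)),(k8,(nat_lit 37463))],[(k7,
    (nat_lit 16465)),(k3,(nat_lit 17718)),(k5,(nat_lit 18607)),(k9,(nat_lit 22205)),(k1,(nat_lit 26964))],[(k0,
    (nat_lit 17718)),(k6,(nat_lit 19243)),(k4,(nat_lit 24983)),(k2,(nat_lit 27328)),(k8,(nat_lit 28217))],[(k1,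
    (nat_lit 12480)),(k7,(nat_lit 17787)),(k3,(nat_lit 27328)),(k5,(nat_lit 28217)),(k9,(nat_lit 31815))],[(k0,
    (nat_lit 18607)),(k6,(nat_lit 20132)),(k2,(nat_lit 28217)),(k4,(nat_lit 34160)),(k8,(nat_lit 53200))],[(k7,
    (nat_lit 23730)),(k3,(nat_lit 24983)),(k5,(nat_lit 34160)),(k9,(nat_lit 34160)),(k1,(nat_lit 37463))],[(k6,
    (nat_lit 13300)),(k0,(nat_lit 16465)),(k2,(nat_lit 17787)),(k4,(nat_lit 23730)),(k8,(nat_lit 23730))],[(k7,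
    (nat_lit 13300)),(k3,(nat_lit 19243)),(k5,(nat_lit 20132)),(k9,(nat_lit 23730)),(k1,(nat_lit 31723))],[(k0,
    (nat_lit 22205)),(k6,(nat_lit 23730)),(k8,(nat_lit 29470)),(k2,(nat_lit 31815)),(k4,(nat_lit 34160))],[(k7,
    (nat_lit 23730)),(k3,(nat_lit 28217)),(k9,(nat_lit 29470)),(k1,(nat_lit 37463)),(k5,(nat_lit 53200))]]
    [] k0
    [[k2,k0,k0,k0,k0],[k3,k0,k0,k0,k0],[k3,k1,k0,k0,k0],[k2,k1,k0,k0,k0],[k2,k2,k0,k0,k0],[k2,k1,k1,k0,k0],[k2,k1,k0,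
    k1,k0],[k2,k0,k1,k0,k0],[k2,k0,k0,k1,k0],[k2,k0,k0,k0,k1],[k1,k1,k0,k0,k0],[k2,k2,k1,k0,k0],[k2,k2,k0,k1,k0],[k1,
    k2,k0,k0,k0],[k1,k3,k0,k0,k0],[k1,k2,k1,k0,k0],[k1,k2,k0,k1,k0],[k1,k1,k1,k0,k0],[k1,k1,k1,k1,k0],[k1,k1,k0,k1,
    k0],[k1,k2,k0,k2,k0],[k1,k1,k0,k2,k0],[k1,k1,k0,k3,k0],[k1,k1,k0,k1,k1],[k1,k1,k0,k0,k1],[k1,k0,k1,k0,k0],[k1,k0,
    k1,k1,k0],[k1,k0,k0,k1,k0],[k1,k0,k0,k2,k0],[k1,k0,k0,k3,k0],[k1,k0,k0,k1,k1],[k1,k0,k0,k0,k1],[k0,k2,k0,k0,k0],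
    [k0,k3,k0,k0,k0],[k0,k2,k1,k0,k0],[k0,k2,k0,k1,k0],[k0,k2,k0,k2,k0],[k0,k1,k1,k0,k0],[k0,k1,k1,k1,k0],[k0,k1,k1,
    k2,k0],[k0,k1,k0,k1,k0],[k0,k1,k0,k2,k0],[k0,k1,k0,k3,k0],[k0,k1,k0,k4,k0],[k0,k1,k0,k1,k1],[k0,k1,k0,k2,k1],[k0,
    k1,k0,k0,k1],[k0,k0,k2,k0,k0],[k0,k0,k2,k1,k0],[k0,k0,k1,k1,k0],[k0,k0,k1,k2,k0],[k0,k0,k1,k3,k0],[k0,k0,k1,k4,
    k0],[k0,k0,k1,k1,k1],[k0,k0,k0,k2,k0],[k0,k0,k0,k3,k0],[k0,k0,k0,k4,k0],[k0,k0,k0,k5,k0],[k0,k0,k0,k6,k0],[k0,k0,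
    k0,k3,k1],[k0,k0,k0,k2,k1],[k0,k0,k0,k1,k1],[k0,k0,k0,k1,k2],[k0,k0,k0,k0,k2]]
    [.contra [z1],.contra [z1,y1],.contra [y2,z3,z1],.contra [z1,y1],.contra [y1,z1,z1],.ref k1 k1 [(z1,[z1,y1])],
    .contra [z2,y1,y1],.contra [z1,y1],.contra [z1,y1],.contra [y2,z1,y1,z2],.contra [y2,z3,z1],.ref k79 k6 [(z2,[y2,
    z1,z1])],.contra [y1,z1,z1],.contra [y1,z1,z1],.contra [y2,z1,z3],.ref k10 k4 [(z2,[y2,z1,z1,z2]),(z1,[z1,z0,z0,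
    y1])],.contra [z2,y1,y1],.ref k1 k3 [(z1,[y1,z0,z0,z1])],.contra [z2,y1,y1],.contra [z2,z1,y1],.contra [z1,z0,y1],
    .contra [z2,y1,y1],.contra [y2,z1,z3],.contra [y1,z0,z0,z1],.ref k1 k6 [(z1,[y1,z0,z0,z1])],.ref k1 k4 [(z2,[y2,
    z1,y1,z2])],.ref k10 k5 [(z2,[z2,y1,z1]),(z1,[y1,z1])],.contra [y2,z3,z1],.contra [y1,z1,z1],.contra [y2,z1,z3],
    .ref k1 k1 [(z1,[y1,z0,z0,z1])],.ref k0 k4 [(z1,[z1])],.contra [z1],.contra [y2,z1,z3],.ref k79 k0 [(z1,[z1,z0,z0,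
    y1])],.contra [y1,z1,z1],.contra [z1,z1,y1],.ref k0 k1 [(z1,[z1])],.ref k1 k4 [(z1,[y1,z0,z0,z1])],
    .ref k10 k5 [(z1,[z1]),(z2,[y2,z1,z1])],.contra [z2,z3,y1],.contra [y1,z1,z1],.contra [y2,z1,z3],.contra [y1,z0,
    z2],.ref k0 k4 [(z2,[z2,z1,y1])],.ref k1 k1 [(z2,[y2,y1,z1,z2])],.ref k8 k1 [(z1,[y2,y1,z0,z2]),(z1,[z1])],
    .contra [z1],.ref k79 k1 [(z1,[z1,z0,z0,y1])],.ref k0 k6 [(z1,[z1])],.ref k79 k8 [(z1,[z1,z0,z0,y1])],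
    .ref k88 k3 [(z2,[y2,y1,y1,z2]),(z1,[z0,z1]),(z1,[z0,z0,z1])],.ref k89 k3 [(z2,[y2,y1,y1,z2]),(z1,[z0,z1]),(z1,
    [z0,z0,z1])],.contra [z2,z1,z1,y2],.contra [z1],.contra [y2,z1,z3],.contra [y1,z0,z2],.ref k87 k5 [(z1,[y2,z0,
    z5]),(z1,[z0,z1]),(z2,[z0,y1,y1,z2])],.ref k9 k4 [(z2,[y1,z3,z3]),(z2,[z0,y1,y1,z2])],.ref k86 k7 [(z1,[z2,z0,
    y3]),(z1,[z0,z0,z1]),(z1,[y2,y1,z2,z2])],.ref k79 k6 [(z1,[z1,z0,z0,y1])],.ref k0 k3 [(z1,[z1])],.ref k79 k7 [(z1,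
    [z1,z0,z0,y1])],.contra [y1,y1,y1,z2]]),
    .geo true z3 k3 [(y3,z6),(z6,y9),(z2,z0),(z0,z3),(z4,z0)] [(z1,[z3]),(z1,[z0,z3]),(z1,[z0,z0,z1]),(z1,[]),(z1,[y3,y3,
    y1,z3])] (Int.ofNat (nat_lit 524288)) (Int.ofNat (nat_lit 699051)) (.l k1) [],
    .geo true z1 k4 [(y1,z3),(y1,z2),(z2,y3),(z3,y3),(z0,z1)] [(z1,[z1]),(z1,[z0,z1]),(z1,[z0,z0,z1]),(z1,[y1,y1,y1,z1]),
    (z1,[])] (Int.ofNat (nat_lit 524288)) (Int.ofNat (nat_lit 699051)) (.l k1) [],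
    .geo true z1 k4 [(y1,z2),(z2,y1),(y3,z4),(z5,y6),(z0,z1)] [(z1,[z1]),(z1,[z0,z1]),(z1,[z0,z0,z1]),(z1,[y1,y1,y1,z1]),
    (z1,[])] (Int.ofNat (nat_lit 786432)) (Int.ofNat (nat_lit 873814)) (.l k1) [],
    .old (.lp [(nat_lit 6874),(nat_lit 7680),(nat_lit 8766),(nat_lit 5732),(nat_lit 11240)] [(nat_lit 6874),k0,
    (nat_lit 3034),(nat_lit 3034),(nat_lit 2491),(nat_lit 2491),(nat_lit 4008),(nat_lit 4008),(nat_lit 1254),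
    (nat_lit 1254)] k0 [[k0,k0,k0,k0,k0,k0,k0,k0,(nat_lit 280)],[k0,k0,k0,k0,k0,(nat_lit 1142)],[k0,k0,k0,k0,k0,k0,k0,
    k0,(nat_lit 6874)],[k0,k0,k0,k0,k0,(nat_lit 2004),k0,(nat_lit 1142)],[(nat_lit 1142),k0,(nat_lit 2004)],[k0,k0,k0,
    k0,k0,k0,k0,k0,k0,(nat_lit 4646)],[k0,k0,(nat_lit 1142)],[k0,k0,k0,k0,k0,k0,k0,k0,k0,(nat_lit 1948)],[k0,k0,k0,k0,
    (nat_lit 4646),k0,(nat_lit 1948)],[k0,(nat_lit 280),k0,(nat_lit 6874)]] (nat_lit 26880) k8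
    [[(k2,(nat_lit 3840)),(k0,(nat_lit 6594)),(k6,(nat_lit 11688)),(k8,(nat_lit 12494)),(k4,(nat_lit 15903))],[(k3,
    (nat_lit 3840)),(k7,(nat_lit 4008)),(k5,(nat_lit 4383)),(k9,(nat_lit 5620)),(k1,(nat_lit 6594))],[(k0,
    (nat_lit 3840)),(k6,(nat_lit 6706)),(k4,(nat_lit 7081)),(k2,(nat_lit 7680)),(k8,(nat_lit 9740))],[(k1,
    (nat_lit 3840)),(k3,(nat_lit 7680)),(k5,(nat_lit 8223)),(k7,(nat_lit 8710)),(k9,(nat_lit 10602))],[(k0,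
    (nat_lit 4383)),(k6,(nat_lit 6107)),(k4,(nat_lit 6762)),(k2,(nat_lit 8223)),(k8,(nat_lit 16877))],[(k5,
    (nat_lit 6762)),(k3,(nat_lit 7081)),(k7,(nat_lit 7249)),(k9,(nat_lit 10003)),(k1,(nat_lit 15903))],[(k8,
    (nat_lit 3840)),(k0,(nat_lit 4008)),(k6,(nat_lit 5732)),(k4,(nat_lit 7249)),(k2,(nat_lit 8710))],[(k7,
    (nat_lit 5732)),(k5,(nat_lit 6107)),(k3,(nat_lit 6706)),(k9,(nat_lit 8486)),(k1,(nat_lit 11688))],[(k0,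
    (nat_lit 5620)),(k6,(nat_lit 8486)),(k8,(nat_lit 9292)),(k4,(nat_lit 10003)),(k2,(nat_lit 10602))],[(k7,
    (nat_lit 3840)),(k9,(nat_lit 9292)),(k3,(nat_lit 9740)),(k1,(nat_lit 12494)),(k5,(nat_lit 16877))]]
    [] k0
    [[k2,k0,k0,k0,k0],[k3,k0,k0,k0,k0],[k4,k0,k0,k0,k0],[k3,k1,k0,k0,k0],[k2,k1,k0,k0,k0],[k3,k2,k0,k0,k0],[k2,k2,k0,
    k0,k0],[k2,k1,k1,k0,k0],[k2,k1,k0,k1,k0],[k2,k1,k0,k1,k1],[k2,k1,k0,k0,k1],[k2,k0,k0,k1,k0],[k2,k0,k0,k0,k1],[k1,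
    k1,k0,k0,k0],[k3,k3,k0,k0,k0],[k2,k3,k0,k0,k0],[k2,k2,k1,k0,k0],[k2,k2,k0,k1,k0],[k1,k2,k0,k0,k0],[k1,k3,k0,k0,
    k0],[k1,k2,k1,k0,k0],[k1,k2,k0,k1,k0],[k1,k1,k1,k0,k0],[k1,k1,k2,k0,k0],[k1,k1,k1,k1,k0],[k1,k1,k1,k2,k0],[k1,k1,
    k1,k1,k1],[k1,k1,k0,k1,k0],[k1,k1,k0,k2,k0],[k1,k1,k0,k3,k0],[k1,k1,k0,k2,k1],[k1,k1,k0,k1,k1],[k1,k1,k0,k0,k1],
    [k1,k0,k1,k0,k0],[k1,k0,k1,k1,k0],[k1,k0,k0,k1,k0],[k1,k0,k0,k2,k0],[k1,k0,k0,k1,k1],[k1,k0,k0,k0,k1],[k0,k2,k0,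
    k0,k0],[k0,k3,k0,k0,k0],[k0,k2,k1,k0,k0],[k0,k2,k0,k1,k0],[k0,k1,k1,k0,k0],[k0,k1,k2,k0,k0],[k0,k1,k1,k1,k0],[k0,
    k1,k0,k1,k0],[k0,k1,k0,k2,k0],[k0,k1,k0,k1,k1],[k0,k1,k0,k0,k1],[k0,k0,k2,k0,k0],[k0,k0,k3,k0,k0],[k0,k0,k2,k1,
    k0],[k0,k0,k2,k2,k0],[k0,k0,k2,k1,k1],[k0,k0,k1,k1,k0],[k0,k0,k1,k2,k0],[k0,k0,k1,k3,k0],[k0,k0,k1,k2,k1],[k0,k0,
    k1,k1,k1],[k0,k0,k0,k2,k0],[k0,k0,k0,k3,k0],[k0,k0,k0,k4,k0],[k0,k0,k0,k3,k1],[k0,k0,k0,k2,k1],[k0,k0,k0,k1,k1],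
    [k0,k0,k0,k2,k2],[k0,k0,k0,k1,k2],[k0,k0,k0,k0,k2]]
    [.contra [z1],.contra [y1,z6,z4],.contra [y1,z6,z4],.contra [z2,y3,y2],.contra [y1,z6,z4],.contra [y1,z6,z4],
    .contra [y1,z6,z4],.ref k0 k6 [(z1,[z1,y2,y1])],.contra [z1,y1,y1],.ref k1 k4 [(z1,[z1,y1,y1])],.ref k0 k3 [(z1,
    [z1,y2,y1])],.contra [y1,z4,z3],.ref k79 k2 [(z1,[z1,z0,z0,y1])],.contra [y1,z6,z4],.contra [z1,y3,y2],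
    .contra [y1,z6,z4],.ref k1 k4 [(z1,[y1,z2,z1,z1])],.contra [y1,z4,z3],.contra [y1,z6,z4],.contra [y1,z6,z4],
    .ref k10 k4 [(z1,[y1,z1,z1,z1]),(z1,[z1,z0,z0,y1])],.contra [z1,y1,y1],.ref k1 k3 [(z1,[y1,z0,z0,z1])],
    .ref k93 k6 [(z1,[y1,z1,z1]),(z1,[z0,y1,y1,z1]),(z1,[y2,z3,z2])],.contra [z1,y1,y1],.ref k1 k6 [(z1,[z1,y1,y1])],
    .contra [z1,z3,z2,y1],.contra [y1,z4,z3],.contra [z2,y1,y2],.contra [z1,z0,y1],.ref k1 k3 [(z1,[z1,y1,y1])],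
    .contra [y1,z0,z0,z1],.ref k1 k6 [(z1,[y1,z0,z0,z1])],.ref k44 k3 [(z1,[z0,y1,y1,z1]),(z1,[z1])],.ref k92 k3 [(z1,
    [y1,z0,y1,z1]),(z1,[z0,z1]),(z1,[z0,z0,z1])],.contra [z2,z1],.contra [y1,z2,z2],.ref k1 k1 [(z1,[y1,z0,z0,z1])],
    .ref k0 k4 [(z1,[z1])],.contra [z1],.contra [y1,z6,z4],.ref k79 k0 [(z1,[z1,z0,z0,y1])],.contra [y1,z4,z3],
    .ref k0 k1 [(z1,[z1])],.ref k79 k9 [(z1,[z1,z0,z0,y1])],.ref k1 k4 [(z1,[y1,z0,z0,z1])],.contra [y1,z4,z3],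
    .contra [y1,z2,z2],.ref k79 k8 [(z1,[y1,y1])],.ref k44 k0 [(z1,[z1]),(z1,[z0,y1,y1,z1])],.contra [z1],
    .ref k91 k4 [(z1,[z0,z1]),(z1,[z0,z0,z1]),(z1,[z1])],.ref k79 k1 [(z1,[z1,z0,z0,y1])],.ref k1 k6 [(z2,[z1])],
    .contra [z1,z3,z2,y1],.ref k0 k6 [(z1,[z1])],.ref k79 k8 [(z1,[z1,z0,z0,y1])],.ref k44 k0 [(z1,[y1,y1,z0,z1]),(z1,
    [z0,y1,y1,z1])],.contra [z1,z5,z3,y1],.contra [z1,z3,z2,y1],.contra [z1,z1],.contra [y1,z0,z1],.contra [z1,z2],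
    .ref k0 k1 [(z1,[y1,y1,z0,z1])],.ref k1 k4 [(z1,[z1,z1])],.ref k0 k3 [(z1,[z1])],.ref k1 k3 [(z2,[z1])],
    .ref k79 k7 [(z1,[z1,z0,z0,y1])],.contra [y1,y2,y2,z2]]),
    .geo true z1 k4 [(z0,z3),(z0,z2),(z1,y3),(z2,y3),(z0,z1)] [(z1,[z1]),(z1,[z0,z1]),(z1,[z0,z0,z1]),(z1,[y1,y1,y1,z1]),
    (z1,[])] z0 (Int.ofNat (nat_lit 349526)) (.s (.s (.l k1) (.l k1)) (.s (.l k1) (.l k1))) []]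

noncomputable def cU5_0_n0_8 : List XN :=
  [.geo true z5 k4 [(y5,z5),(z8,y5),(z10,y5),(z2,z0),(z0,z5)] [(z1,[z5]),(z1,[z0,z1]),(z1,[z0,z0,z5]),(z1,[y5,y1,y5,z5]),
    (z1,[])] (Int.ofNat (nat_lit 1048576)) (Int.ofNat (nat_lit 1677722)) (.s (.l k1) (.l k1)) [],
    .geo true z5 k4 [(z2,z0),(z2,y5),(z3,z0),(z8,z0),(z0,z5)] [(z1,[z1]),(z1,[z0,z1]),(z1,[z0,z0,z1]),(z1,[y1,y1,y1,z5]),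
    (z1,[])] z0 (Int.ofNat (nat_lit 419431)) (.l k1) [],
    .old (.lp [(nat_lit 1286),(nat_lit 2330),(nat_lit 2088),(nat_lit 2740),(nat_lit 1622)] [(nat_lit 1165),(nat_lit 289),
    (nat_lit 205),(nat_lit 205),(nat_lit 326),(nat_lit 326),k0,k0,(nat_lit 559),(nat_lit 559)] k0 [[k0,k0,k0,k0,k0,k0,
    k28],[k0,k0,k0,k0,k0,k0,k0,k0,k0,(nat_lit 909)],[k0,k0,k0,k0,k0,k0,k0,k0,(nat_lit 1286)],[k0,k0,k0,k0,k0,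
    (nat_lit 937)],[k0,k0,(nat_lit 937)],[k0,k0,k0,k0,k0,k0,k0,(nat_lit 1724)],[k0,k0,k0,k0,(nat_lit 1724)],[k0,k28,
    k0,k0,k0,k0,k0,k0,k0,(nat_lit 662)],[(nat_lit 909),k0,k0,k0,k0,k0,(nat_lit 662)],[k0,k0,k0,
    (nat_lit 1286)]] (nat_lit 6720) k8
    [[(k2,(nat_lit 960)),(k8,(nat_lit 1892)),(k4,(nat_lit 2125)),(k0,(nat_lit 2195)),(k6,(nat_lit 3113))],[(k9,
    (nat_lit 988)),(k5,(nat_lit 1249)),(k3,(nat_lit 1370)),(k7,(nat_lit 1575)),(k1,(nat_lit 2195))],[(k8,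
    (nat_lit 1067)),(k0,(nat_lit 1370)),(k4,(nat_lit 2209)),(k2,(nat_lit 2330)),(k6,(nat_lit 2563))],[(k1,
    (nat_lit 960)),(k9,(nat_lit 1976)),(k5,(nat_lit 2209)),(k3,(nat_lit 2330)),(k7,(nat_lit 3472))],[(k4,
    (nat_lit 1151)),(k0,(nat_lit 1249)),(k2,(nat_lit 2209)),(k6,(nat_lit 2414)),(k8,(nat_lit 3141))],[(k5,
    (nat_lit 1151)),(k1,(nat_lit 2125)),(k3,(nat_lit 2209)),(k7,(nat_lit 2414)),(k9,(nat_lit 3579))],[(k6,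
    (nat_lit 1016)),(k0,(nat_lit 1575)),(k8,(nat_lit 2181)),(k4,(nat_lit 2414)),(k2,(nat_lit 3472))],[(k7,
    (nat_lit 1016)),(k9,(nat_lit 2181)),(k5,(nat_lit 2414)),(k3,(nat_lit 2563)),(k1,(nat_lit 3113))],[(k8,
    (nat_lit 960)),(k0,(nat_lit 988)),(k2,(nat_lit 1976)),(k6,(nat_lit 2181)),(k4,(nat_lit 3579))],[(k9,
    (nat_lit 960)),(k3,(nat_lit 1067)),(k1,(nat_lit 1892)),(k7,(nat_lit 2181)),(k5,(nat_lit 3141))]]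
    [] k0
    [[k2,k0,k0,k0,k0],[k3,k0,k0,k0,k0],[k2,k1,k0,k0,k0],[k2,k1,k1,k0,k0],[k2,k1,k0,k0,k1],[k2,k1,k0,k0,k2],[k2,k0,k1,
    k0,k0],[k2,k0,k0,k0,k1],[k2,k0,k0,k0,k2],[k1,k1,k0,k0,k0],[k2,k2,k0,k0,k0],[k2,k2,k0,k0,k1],[k2,k2,k0,k0,k2],[k1,
    k2,k0,k0,k0],[k1,k2,k0,k0,k1],[k1,k2,k0,k0,k2],[k1,k1,k1,k0,k0],[k1,k1,k2,k0,k0],[k1,k1,k0,k1,k0],[k1,k1,k0,k2,
    k0],[k1,k1,k0,k1,k1],[k1,k1,k0,k0,k1],[k2,k1,k1,k0,k1],[k1,k1,k0,k0,k2],[k1,k1,k0,k0,k3],[k1,k1,k0,k0,k4],[k1,k0,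
    k1,k0,k0],[k2,k0,k1,k0,k1],[k1,k1,k1,k0,k1],[k1,k0,k2,k0,k0],[k1,k0,k3,k0,k0],[k1,k0,k1,k1,k0],[k1,k0,k1,k0,k1],
    [k1,k0,k0,k1,k0],[k1,k0,k0,k2,k0],[k1,k0,k0,k1,k1],[k1,k0,k0,k0,k1],[k1,k0,k0,k2,k1],[k1,k0,k0,k0,k2],[k1,k0,k0,
    k1,k2],[k1,k0,k0,k0,k3],[k1,k0,k0,k0,k4],[k0,k2,k0,k0,k0],[k0,k2,k0,k0,k1],[k0,k2,k0,k0,k2],[k0,k1,k1,k0,k0],[k0,
    k1,k2,k0,k0],[k0,k1,k0,k1,k0],[k0,k1,k0,k0,k1],[k0,k1,k0,k0,k2],[k0,k1,k0,k0,k3],[k0,k1,k0,k0,k4],[k0,k0,k2,k0,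
    k0],[k0,k0,k3,k0,k0],[k0,k0,k4,k0,k0],[k0,k0,k5,k0,k0],[k0,k0,k2,k1,k0],[k0,k0,k1,k1,k0],[k0,k0,k1,k2,k0],[k0,k0,
    k0,k2,k0],[k0,k0,k0,k3,k0],[k0,k0,k0,k4,k0],[k0,k0,k0,k5,k0],[k0,k0,k0,k6,k0],[k0,k0,k0,k3,k1],[k0,k0,k0,k2,k1],
    [k0,k0,k0,k2,k2],[k0,k0,k0,k1,k1],[k0,k0,k0,k1,k2],[k0,k0,k0,k1,k3],[k0,k0,k0,k0,k2],[k0,k0,k0,k0,k3],[k0,k0,k0,
    k0,k4],[k0,k0,k0,k0,k5],[k0,k0,k0,k0,k6]]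
    [.contra [z1],.ref k55 k0 [(z1,[z0,z0,z1]),(z1,[y1,z0,y3,z3])],.contra [y1,z1,z0,z1],.contra [y1,z1,z0,z1],
    .ref k79 k1 [(z1,[y1,z0,y1,z1])],.contra [z1,z2],.contra [z1,z0,z1,y1],.ref k79 k2 [(z1,[z1,z0,z0,y1])],
    .contra [y1,y2,y4,z4],.contra [y1,z1,z0,z1],.contra [y1,z2,z2],.ref k79 k8 [(z1,[y1,z1,z1])],.contra [z1,z2],
    .contra [y1,z2,z2],.ref k8 k4 [(z1,[z1,z1]),(z1,[z0,y1,y1,z1])],.contra [z1,z2],.contra [z1,z0,z1,y1],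
    .ref k1 k1 [(z1,[z1,z0,z1,y1])],.contra [y1,z1,z0,z1],.contra [z1,y1,y1],.contra [y1,z0,z0,z1],.ref k1 k6 [(z1,
    [y1,z0,z0,z1])],.contra [z1,z1,z1,y1],.contra [z1,z2],.contra [z1,z3,y1,z1],.contra [z1,z4,y2,z2],.contra [y1,z0,
    y2,z2],.contra [y1,y1,y3,z3],.contra [y1,z0,z0,z1],.contra [z1,z0,z1,y1],.ref k0 k4 [(z1,[y1,y1,y3,z3])],
    .contra [z1,z0,z1,y1],.contra [y1,y1,y2,z2],.contra [y1,z1,z0,z1],.contra [y1,z2,z2],.ref k1 k1 [(z1,[y1,z0,z0,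
    z1])],.ref k0 k4 [(z1,[z1])],.ref k10 k4 [(z1,[z1]),(z1,[y1,z1,z1])],.contra [y1,y2,y3,z3],.contra [z1,z2],
    .contra [z1,z3,y1,z1],.contra [z1,z4,y2,z2],.contra [z1],.ref k79 k6 [(z1,[y1,z0,z2,y1])],.contra [y1,z0,z2],
    .contra [y1,z1,z0,z1],.ref k79 k9 [(z1,[z1,z0,z0,y1])],.contra [y1,z1,z0,z1],.contra [y1,z0,z1],.contra [z1,z2],
    .contra [z1,z3,y1,z1],.contra [z1,z4,y2,z2],.contra [z1],.ref k79 k2 [(z1,[y1,y1,y3,z2])],.ref k0 k4 [(z2,[y1,y2,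
    y4,z4])],.ref k97 k9 [(z1,[z1]),(z1,[z1,z5,z10,y5]),(z1,[y1,z0,y5,z5])],.ref k79 k1 [(z1,[z1,z0,z0,y1])],
    .contra [y1,z1,z0,z1],.ref k79 k8 [(z1,[z1,z0,z0,y1])],.contra [z1],.ref k45 k6 [(z1,[z1]),(z1,[z0,y1,y1,z1])],
    .ref k8 k4 [(z2,[y1,z4,z4]),(z1,[z0,y1,y1,z1])],.ref k96 k4 [(z1,[z0,z1]),(z1,[y1,z0,z5]),(z1,[z0,y1,y1,z1])],
    .ref k9 k4 [(z2,[y1,z6,z6]),(z1,[z0,y1,y1,z1])],.ref k95 k9 [(z1,[y1,y1,y1,z1]),(z1,[y1,z0,z1]),(z1,[z1,z1])],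
    .ref k79 k6 [(z1,[z1,z0,z0,y1])],.contra [y1,z0,z2],.contra [y1,z0,z1],.contra [z1,z2],.contra [z1,z3,y1,z1],
    .contra [y1,y2,y2,z2],.contra [z1,z3,y1,z1],.contra [z1,z4,y2,z2],.contra [z1,z5,y3,z3],.contra [z1,z6,y4,z4]]),
    .geo true z2 k4 [(z0,z6),(z1,y3),(z1,z1),(z4,y6),(z0,z2)] [(z1,[z2]),(z1,[z0,z1]),(z1,[z0,z0,z1]),(z1,[y2,y1,y1,z2]),
    (z1,[])] z0 (Int.ofNat (nat_lit 349526)) (.s (.l k1) (.l k1)) [],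
    .geo true z1 k4 [(y3,z6),(y1,z2),(z5,y6),(z2,y3),(z0,z1)] [(z1,[z1]),(z1,[z0,z1]),(z1,[z0,z0,z1]),(z1,[y1,y1,y1,z1]),
    (z1,[])] (Int.ofNat (nat_lit 524288)) (Int.ofNat (nat_lit 699051)) (.s (.s (.l k1) (.l k1)) (.s (.l k2) (.l k1))) [⟨z3,
    z5,[[k0,k2,k1,k3,k4]],.child (.ref k10 k6 [(z1,[y1,y1,z1,z0,z1]),(z1,[z1,z0,y1,y1])])⟩],
    .geo true z1 k4 [(y4,z8),(y1,z2),(z6,y8),(z2,y3),(z0,z1)] [(z1,[z1]),(z1,[z0,z1]),(z1,[z0,z0,z1]),(z1,[y1,y1,y1,z1]),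
    (z1,[])] (Int.ofNat (nat_lit 524288)) (Int.ofNat (nat_lit 699051)) (.s (.s (.l k1) (.s (.l k1) (.l k1))) (.s (.s (.s (.l k1) (.l k1)) (.l k1)) (.l k1))) [],
    .old (.lp [(nat_lit 2282),(nat_lit 5152),(nat_lit 3360),(nat_lit 4648),(nat_lit 4690)] [(nat_lit 1670),(nat_lit 1670),
    (nat_lit 235),(nat_lit 235),(nat_lit 2032),(nat_lit 230),k0,(nat_lit 974),(nat_lit 466),(nat_lit 466)] k0 [[k0,k0,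
    k0,k0,k0,k0,k0,k0,k126],[k0,k0,k0,k0,k0,(nat_lit 224)],[k0,k0,k0,k0,(nat_lit 1008),k0,k0,k0,(nat_lit 1022)],[k0,
    k0,k0,k0,k0,k0,k0,(nat_lit 3472)],[(nat_lit 224)],[k0,k0,k0,(nat_lit 1008)],[k0,k0,(nat_lit 3472)],[k0,k0,k0,k0,
    k0,k0,k0,k0,k0,(nat_lit 210)],[k0,k0,k0,k0,k0,k0,(nat_lit 210)],[k0,k126,k0,(nat_lit 1022)]] (nat_lit 13440) k8
    [[(k4,(nat_lit 1920)),(k0,(nat_lit 2156)),(k2,(nat_lit 2695)),(k8,(nat_lit 3486)),(k6,(nat_lit 4162))],[(k1,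
    (nat_lit 2156)),(k7,(nat_lit 3202)),(k9,(nat_lit 3486)),(k3,(nat_lit 3717)),(k5,(nat_lit 3722))],[(k4,
    (nat_lit 3131)),(k0,(nat_lit 3717)),(k8,(nat_lit 5047)),(k2,(nat_lit 5152)),(k6,(nat_lit 5387))],[(k1,
    (nat_lit 2695)),(k7,(nat_lit 3405)),(k3,(nat_lit 5152)),(k5,(nat_lit 5157)),(k9,(nat_lit 8393))],[(k6,
    (nat_lit 1920)),(k0,(nat_lit 3722)),(k4,(nat_lit 4368)),(k2,(nat_lit 5157)),(k8,(nat_lit 5948))],[(k1,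
    (nat_lit 1920)),(k7,(nat_lit 2616)),(k9,(nat_lit 3124)),(k3,(nat_lit 3131)),(k5,(nat_lit 4368))],[(k4,
    (nat_lit 2616)),(k0,(nat_lit 3202)),(k2,(nat_lit 3405)),(k8,(nat_lit 4182)),(k6,(nat_lit 4648))],[(k5,
    (nat_lit 1920)),(k1,(nat_lit 4162)),(k7,(nat_lit 4648)),(k9,(nat_lit 5156)),(k3,(nat_lit 5387))],[(k4,
    (nat_lit 3124)),(k0,(nat_lit 3486)),(k8,(nat_lit 4480)),(k6,(nat_lit 5156)),(k2,(nat_lit 8393))],[(k1,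
    (nat_lit 3486)),(k7,(nat_lit 4182)),(k9,(nat_lit 4480)),(k3,(nat_lit 5047)),(k5,(nat_lit 5948))]]
    [] k0
    [[k2,k0,k0,k0,k0],[k3,k0,k0,k0,k0],[k4,k0,k0,k0,k0],[k5,k0,k0,k0,k0],[k6,k0,k0,k0,k0],[k4,k1,k0,k0,k0],[k4,k0,k1,
    k0,k0],[k3,k1,k0,k0,k0],[k3,k0,k1,k0,k0],[k3,k0,k1,k1,k0],[k3,k0,k0,k1,k0],[k3,k0,k0,k0,k1],[k2,k1,k0,k0,k0],[k2,
    k1,k1,k0,k0],[k2,k1,k1,k1,k0],[k2,k1,k0,k0,k1],[k2,k0,k1,k0,k0],[k2,k0,k2,k0,k0],[k2,k0,k1,k1,k0],[k2,k0,k2,k1,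
    k0],[k2,k0,k0,k1,k0],[k2,k0,k0,k0,k1],[k2,k0,k1,k0,k1],[k1,k1,k0,k0,k0],[k2,k2,k0,k0,k0],[k1,k2,k0,k0,k0],[k1,k1,
    k1,k0,k0],[k1,k1,k1,k1,k0],[k1,k1,k0,k1,k0],[k1,k1,k0,k0,k1],[k1,k0,k1,k0,k0],[k1,k0,k2,k0,k0],[k1,k0,k2,k1,k0],
    [k1,k0,k1,k1,k0],[k1,k0,k2,k2,k0],[k1,k0,k1,k2,k0],[k1,k0,k1,k1,k1],[k1,k0,k1,k0,k1],[k1,k0,k0,k1,k0],[k1,k0,k0,
    k2,k0],[k1,k0,k0,k1,k1],[k1,k0,k0,k0,k1],[k1,k0,k0,k0,k2],[k0,k2,k0,k0,k0],[k0,k1,k1,k0,k0],[k0,k1,k2,k0,k0],[k0,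
    k1,k2,k1,k0],[k0,k1,k1,k1,k0],[k0,k1,k2,k2,k0],[k0,k1,k1,k2,k0],[k0,k1,k0,k1,k0],[k0,k1,k1,k0,k1],[k0,k0,k2,k0,
    k0],[k0,k0,k3,k0,k0],[k0,k0,k3,k1,k0],[k0,k0,k2,k1,k0],[k0,k0,k1,k1,k0],[k0,k0,k2,k2,k0],[k0,k0,k1,k2,k0],[k0,k0,
    k1,k1,k1],[k0,k0,k1,k0,k1],[k0,k0,k0,k2,k0],[k0,k0,k0,k1,k1],[k0,k0,k0,k0,k2]]
    [.contra [z1],.contra [y1,z2,y4,z4],.contra [y1,z2,y4,z4],.contra [y1,z2,y4,z4],.contra [y1,z2,y4,z4],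
    .ref k101 k3 [(z1,[y1,z4,z1]),(z1,[z0,z1]),(z1,[z1,y4])],.contra [y1,z2,y4,z4],.ref k100 k3 [(z1,[y1,z3,z1]),(z1,
    [z0,z1]),(z1,[z1,y3])],.contra [z2,y1,z2,y2],.contra [y1,z1,y3,z3],.contra [y1,z1,y3,z3],.ref k99 k0 [(z1,[y1,z0,
    z1]),(z1,[z0,z1,y2,z2]),(z1,[z0,y1])],.ref k79 k4 [(z1,[z1,z0,z0,y1])],.ref k10 k1 [(z1,[z1]),(z1,[y1,z0,y1,z1])],
    .ref k1 k0 [(z1,[z1,z0,z1,y1])],.contra [z1,z0,y1],.contra [y1,z2,y4,z4],.contra [y1,z2,y4,z4],.contra [z1,z0,z1,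
    y1],.contra [y1,z1,y3,z3],.contra [y1,z1,y3,z3],.ref k79 k2 [(z1,[z1,z0,z0,y1])],.ref k0 k3 [(z1,[z1,y1,z1,y1])],
    .ref k0 k0 [(z1,[z1])],.ref k1 k0 [(z2,[z1])],.ref k79 k5 [(z1,[z1,z0,z0,y1])],.ref k1 k3 [(z1,[y1,z0,z0,z1])],
    .contra [z1,z0,z1,y1],.ref k98 k1 [(z1,[y1,z0,y1,z1]),(z1,[z1])],.contra [z1,z0,y1],.contra [y1,z2,y4,z4],
    .contra [y1,z2,y4,z4],.contra [z1,z0,z1,y1],.contra [y1,z1,y3,z3],.contra [y1,z0,y2,z2],.contra [z2,z1,z2,y2],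
    .contra [y1,z0,z0,z1],.ref k98 k8 [(z1,[y1,z0,y1,z1]),(z1,[z1])],.contra [z2,z1],.contra [y1,z0,y2,z2],
    .ref k1 k1 [(z1,[y1,z0,z0,z1])],.ref k0 k4 [(z1,[z1])],.ref k79 k3 [(z1,[z1,z0,z0,y1])],.contra [z1],
    .ref k0 k1 [(z1,[z1])],.ref k79 k9 [(z1,[z1,z0,z0,y1])],.ref k10 k8 [(z1,[y1,z0,y1,z2]),(z1,[z1,z0,z0,y1])],
    .ref k1 k4 [(z1,[y1,z0,z0,z1])],.ref k79 k2 [(z1,[y1,z0,y1,z1])],.ref k0 k3 [(z1,[y1,y1,z0,z1])],.ref k10 k1 [(z1,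
    [z1,z1,y1,z1]),(z1,[y1,y1])],.contra [z1,z0,y1],.contra [z1],.contra [y1,z2,y4,z4],.contra [y1,z1,y3,z3],
    .contra [y1,z1,y3,z3],.contra [y1,z1,y3,z3],.contra [y1,z0,y2,z2],.contra [y1,z0,y2,z2],.ref k1 k0 [(z1,[y1,z0,z0,
    z1])],.ref k44 k0 [(z1,[z0,z0,z1]),(z1,[z1])],.contra [z1,z1],.ref k0 k3 [(z1,[z1])],.contra [y1,z0,z2]]),
    .geo true z1 k4 [(z0,z4),(z0,z2),(z1,y3),(z2,y4),(z0,z1)] [(z1,[z1]),(z1,[z0,z1]),(z1,[z0,z0,z1]),(z1,[y1,y1,y1,z1]),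
    (z1,[])] z0 (Int.ofNat (nat_lit 349526)) (.s (.s (.l k1) (.l k1)) (.s (.s (.l k1) (.l k1)) (.l k1))) [],
    .geo true z1 k4 [(z0,z3),(z0,z1),(z1,y2),(z2,y3),(z0,z1)] [(z1,[z1]),(z1,[z0,z1]),(z1,[z0,z0,z1]),(z1,[y1,y1,y1,z1]),
    (z1,[])] z0 (Int.ofNat (nat_lit 524288)) (.s (.s (.l k1) (.l k1)) (.s (.l k1) (.l k1))) [],
    .old (.lp [(nat_lit 7518),(nat_lit 3528),(nat_lit 6356),(nat_lit 4200),(nat_lit 3528)] [k0,k0,(nat_lit 1995),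
    (nat_lit 1995),(nat_lit 581),(nat_lit 581),(nat_lit 2682),(nat_lit 636),(nat_lit 1626),(nat_lit 2364)] k0 [[k0,k0,
    k0,k0,k0,k0,k140],[k0,k0,k0,k70],[k70,k0,k0,k0,k0,k0,k0,k0,(nat_lit 2044)],[k0,k0,k0,k0,k0,(nat_lit 532)],[k0,k0,
    (nat_lit 532)],[k0,k0,k0,k0,k0,k0,k0,k0,k0,(nat_lit 2856)],[k0,k0,k0,k0,k0,k0,k0,k0,(nat_lit 2436)],[k0,k140],[k0,
    k0,k0,k0,(nat_lit 2856)],[k0,k0,k0,(nat_lit 2044),k0,k0,k0,(nat_lit 2436)]] (nat_lit 16800) k8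
    [[(k6,(nat_lit 2400)),(k2,(nat_lit 3479)),(k8,(nat_lit 5892)),(k0,(nat_lit 7518)),(k4,(nat_lit 9793))],[(k9,
    (nat_lit 5014)),(k3,(nat_lit 5523)),(k7,(nat_lit 6882)),(k5,(nat_lit 7007)),(k1,(nat_lit 7518))],[(k6,
    (nat_lit 2981)),(k2,(nat_lit 3458)),(k8,(nat_lit 3897)),(k4,(nat_lit 4942)),(k0,(nat_lit 5523))],[(k9,
    (nat_lit 3159)),(k3,(nat_lit 3458)),(k1,(nat_lit 3479)),(k5,(nat_lit 4942)),(k7,(nat_lit 5419))],[(k6,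
    (nat_lit 4255)),(k2,(nat_lit 4942)),(k4,(nat_lit 5824)),(k0,(nat_lit 7007)),(k8,(nat_lit 7355))],[(k9,
    (nat_lit 4573)),(k3,(nat_lit 4942)),(k5,(nat_lit 5824)),(k7,(nat_lit 6301)),(k1,(nat_lit 9793))],[(k8,
    (nat_lit 2400)),(k6,(nat_lit 4200)),(k2,(nat_lit 5419)),(k4,(nat_lit 6301)),(k0,(nat_lit 6882))],[(k1,
    (nat_lit 2400)),(k9,(nat_lit 2472)),(k3,(nat_lit 2981)),(k7,(nat_lit 4200)),(k5,(nat_lit 4255))],[(k6,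
    (nat_lit 2472)),(k2,(nat_lit 3159)),(k4,(nat_lit 4573)),(k0,(nat_lit 5014)),(k8,(nat_lit 5964))],[(k7,
    (nat_lit 2400)),(k3,(nat_lit 3897)),(k1,(nat_lit 5892)),(k9,(nat_lit 5964)),(k5,(nat_lit 7355))]]
    [] k0
    [[k2,k0,k0,k0,k0],[k2,k1,k0,k0,k0],[k1,k1,k0,k0,k0],[k1,k2,k0,k0,k0],[k1,k3,k0,k0,k0],[k1,k2,k0,k0,k1],[k1,k1,k1,
    k0,k0],[k1,k1,k0,k1,k0],[k1,k1,k0,k1,k1],[k1,k1,k0,k0,k1],[k1,k0,k0,k1,k0],[k1,k0,k1,k1,k0],[k1,k0,k0,k2,k0],[k1,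
    k0,k0,k2,k1],[k1,k0,k0,k1,k1],[k1,k0,k1,k1,k1],[k1,k0,k0,k2,k2],[k1,k0,k0,k1,k2],[k1,k0,k0,k0,k1],[k0,k2,k0,k0,
    k0],[k0,k3,k0,k0,k0],[k0,k4,k0,k0,k0],[k0,k3,k0,k1,k0],[k0,k3,k0,k1,k1],[k0,k3,k0,k0,k1],[k0,k2,k1,k0,k0],[k0,k2,
    k0,k1,k0],[k0,k2,k0,k2,k0],[k0,k2,k0,k2,k1],[k0,k2,k0,k1,k1],[k0,k2,k0,k0,k1],[k0,k2,k0,k1,k2],[k0,k2,k0,k0,k2],
    [k0,k1,k1,k0,k0],[k0,k1,k2,k0,k0],[k0,k1,k1,k1,k0],[k0,k1,k1,k1,k1],[k0,k1,k1,k0,k1],[k0,k1,k0,k1,k0],[k0,k1,k0,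
    k2,k0],[k0,k1,k0,k2,k1],[k0,k1,k0,k1,k1],[k0,k1,k0,k2,k2],[k0,k1,k0,k1,k2],[k0,k1,k0,k0,k1],[k0,k1,k0,k0,k2],[k0,
    k0,k2,k0,k0],[k0,k0,k2,k1,k0],[k0,k0,k1,k1,k0],[k0,k0,k1,k2,k0],[k0,k0,k1,k2,k1],[k0,k0,k1,k1,k1],[k0,k0,k1,k2,
    k2],[k0,k0,k1,k0,k1],[k0,k0,k0,k2,k0],[k0,k0,k0,k3,k0],[k0,k0,k0,k3,k1],[k0,k0,k0,k2,k1],[k0,k0,k0,k3,k2],[k0,k0,
    k0,k2,k2],[k0,k0,k0,k1,k1],[k0,k0,k0,k3,k3],[k0,k0,k0,k2,k3],[k0,k0,k0,k1,k2],[k0,k0,k0,k0,k2]]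
    [.contra [z1],.ref k1 k4 [(z1,[z1,y1,y1])],.contra [z1,y1,y1],.contra [y1,z1,z2],.ref k104 k1 [(z1,[y1,z0,y1,z1]),
    (z1,[y1,z1,z2]),(z1,[z1,y1,y1])],.ref k10 k7 [(z1,[z1]),(z1,[y1,z0,z1])],.contra [z1,z0,z1,y1],.contra [y1,z1,z2],
    .contra [z1,z0,y1],.ref k1 k6 [(z1,[y1,z0,z0,z1])],.contra [y1,z1,z2],.contra [z1,z0,z1,y1],.ref k103 k1 [(z1,[z1,
    y2,y5,z1]),(z1,[z1,y1,y2]),(z1,[y1,z1,z3])],.ref k9 k6 [(z1,[z1,y1]),(z1,[z0,z0,y1,z1])],.ref k1 k1 [(z1,[y1,z0,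
    z0,z1])],.contra [y1,z0,z0,z1],.ref k79 k0 [(z1,[y1,z0,z1])],.contra [z1,z1],.ref k0 k4 [(z1,[z1])],.contra [z1],
    .ref k45 k0 [(z1,[z1]),(z1,[z0,z0,y1,z1])],.ref k8 k6 [(z2,[y1,z0,z4]),(z1,[z0,z0,y1,z1])],.ref k0 k1 [(z1,[z1,y1,
    y3,z1])],.ref k8 k6 [(z1,[y1,z0,z3]),(z1,[z0,z0,y1,z1])],.ref k94 k6 [(z1,[y1,z0,z1]),(z1,[z1])],.ref k79 k0 [(z1,
    [z1,z0,z0,y1])],.contra [y1,z1,z2],.contra [y1,z0,z2],.contra [y1,z0,z2],.contra [z1,z0,y1],.contra [y2,z1,z4],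
    .contra [y1,z0,z2],.contra [y1,z0,z2],.ref k0 k1 [(z1,[z1])],.ref k79 k9 [(z1,[z1,z0,z0,y1])],.ref k1 k4 [(z1,[y1,
    z0,z0,z1])],.contra [y1,z0,z0,z1],.ref k8 k6 [(z1,[y1,y1,z0,z1]),(z1,[z0,z0,y1,z1])],.contra [y1,z1,z2],
    .contra [y1,z0,z2],.contra [z1,z0,y1],.contra [y2,z0,z1,z1],.contra [y1,z0,z2],.contra [z1,z0,y1],.contra [y2,z1,
    z4],.contra [y1,z0,z2],.contra [y1,z0,y2,z2],.ref k79 k3 [(z1,[y1,y1,y2,z1])],.contra [y1,y1,y1,z1],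
    .ref k79 k8 [(z1,[z1,z0,z0,y1])],.ref k10 k7 [(z1,[y1,z0,z1,z1]),(z1,[z1,z0,z0,y1])],.contra [y1,y1,y1,z1],
    .contra [z1,z1,z1,y1],.contra [z1,z1,z2,y1],.contra [z1],.ref k85 k6 [(z1,[z1]),(z1,[y1,z0,z3])],
    .ref k102 k5 [(z1,[y1,z0,z1]),(z1,[z0,z0,y1,z1])],.contra [y1,z0,z2],.ref k103 k1 [(z1,[z1,y1,y5,z1]),(z1,[z1,z0,
    y2]),(z1,[y1,z0,z3])],.contra [y1,z0,z2],.contra [y2,z0,z1,z1],.ref k9 k6 [(z1,[z1]),(z1,[z0,z0,y1,z1])],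
    .ref k1 k1 [(z1,[y1,y1,z0,z1])],.contra [y1,y1,y1,z1],.contra [z1]]),
    .old (.lp [(nat_lit 1600),(nat_lit 2122),(nat_lit 2302),(nat_lit 1336),(nat_lit 2706)] [(nat_lit 988),k118,
    (nat_lit 292),(nat_lit 292),(nat_lit 202),(nat_lit 202),(nat_lit 685),(nat_lit 685),k0,k0] k0 [[k0,k0,k118,k0,k0,
    k0,k118],[k0,k0,k0,k0,k0,k0,k0,k0,k0,(nat_lit 348)],[k0,k0,k0,k0,k0,k0,k0,k0,(nat_lit 1336)],[k0,k118],[],[k0,k0,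
    k0,k0,k0,k0,k0,(nat_lit 376)],[k0,k0,k0,k0,(nat_lit 376)],[k0,k118],[(nat_lit 348)],[k0,k0,k0,
    (nat_lit 1336)]] (nat_lit 6720) k8
    [[(k2,(nat_lit 960)),(k6,(nat_lit 1903)),(k0,(nat_lit 1948)),(k4,(nat_lit 2386)),(k8,(nat_lit 2588))],[(k7,
    (nat_lit 1033)),(k5,(nat_lit 1398)),(k3,(nat_lit 1426)),(k9,(nat_lit 1600)),(k1,(nat_lit 1948))],[(k0,
    (nat_lit 1426)),(k6,(nat_lit 1847)),(k8,(nat_lit 2066)),(k4,(nat_lit 2212)),(k2,(nat_lit 2240))],[(k1,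
    (nat_lit 960)),(k7,(nat_lit 1729)),(k5,(nat_lit 2212)),(k3,(nat_lit 2240)),(k9,(nat_lit 2414))],[(k0,
    (nat_lit 1398)),(k6,(nat_lit 1819)),(k2,(nat_lit 2212)),(k4,(nat_lit 2302)),(k8,(nat_lit 3840))],[(k7,
    (nat_lit 1819)),(k3,(nat_lit 2212)),(k5,(nat_lit 2302)),(k1,(nat_lit 2386)),(k9,(nat_lit 2880))],[(k6,
    (nat_lit 960)),(k0,(nat_lit 1033)),(k2,(nat_lit 1729)),(k4,(nat_lit 1819)),(k8,(nat_lit 2021))],[(k7,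
    (nat_lit 960)),(k5,(nat_lit 1819)),(k3,(nat_lit 1847)),(k1,(nat_lit 1903)),(k9,(nat_lit 2021))],[(k0,
    (nat_lit 1600)),(k6,(nat_lit 2021)),(k2,(nat_lit 2414)),(k8,(nat_lit 2706)),(k4,(nat_lit 2880))],[(k7,
    (nat_lit 2021)),(k3,(nat_lit 2066)),(k1,(nat_lit 2588)),(k9,(nat_lit 2706)),(k5,(nat_lit 3840))]]
    [] k0
    [[k2,k0,k0,k0,k0],[k3,k0,k0,k0,k0],[k3,k1,k0,k0,k0],[k2,k1,k0,k0,k0],[k2,k2,k0,k0,k0],[k2,k1,k1,k0,k0],[k2,k1,k0,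
    k1,k0],[k2,k1,k0,k0,k1],[k2,k0,k1,k0,k0],[k2,k0,k0,k1,k0],[k2,k0,k0,k2,k0],[k2,k0,k0,k0,k1],[k1,k1,k0,k0,k0],[k2,
    k2,k0,k1,k0],[k2,k1,k0,k2,k0],[k1,k2,k0,k0,k0],[k1,k2,k0,k1,k0],[k1,k1,k1,k0,k0],[k1,k1,k1,k1,k0],[k1,k1,k0,k1,
    k0],[k1,k1,k0,k2,k0],[k1,k1,k0,k3,k0],[k1,k1,k0,k1,k1],[k1,k1,k0,k0,k1],[k1,k0,k1,k0,k0],[k1,k0,k2,k0,k0],[k1,k0,
    k1,k1,k0],[k1,k0,k1,k2,k0],[k1,k0,k0,k1,k0],[k1,k0,k0,k2,k0],[k1,k0,k0,k3,k0],[k1,k0,k0,k4,k0],[k1,k0,k0,k2,k1],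
    [k1,k0,k0,k1,k1],[k1,k0,k0,k0,k1],[k0,k2,k0,k0,k0],[k0,k2,k1,k0,k0],[k0,k2,k0,k1,k0],[k0,k1,k1,k0,k0],[k0,k1,k1,
    k1,k0],[k0,k1,k0,k1,k0],[k0,k1,k0,k2,k0],[k0,k1,k0,k3,k0],[k0,k1,k0,k4,k0],[k0,k1,k0,k1,k1],[k0,k1,k0,k0,k1],[k0,
    k0,k2,k0,k0],[k0,k0,k2,k1,k0],[k0,k0,k1,k1,k0],[k0,k0,k1,k2,k0],[k0,k0,k1,k3,k0],[k0,k0,k1,k4,k0],[k0,k0,k0,k2,
    k0],[k0,k0,k0,k3,k0],[k0,k0,k0,k4,k0],[k0,k0,k0,k5,k0],[k0,k0,k0,k6,k0],[k0,k0,k0,k3,k1],[k0,k0,k0,k2,k1],[k0,k0,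
    k0,k1,k1],[k0,k0,k0,k0,k2]]
    [.contra [z1],.contra [y1,z3,z2],.contra [y1,z3,z2],.contra [z1,y2,y1],.contra [z3,y6,y4],.ref k1 k6 [(z1,[z1,y2,
    y1])],.contra [z1,y1,y1],.ref k1 k3 [(z1,[z1,y2,y1])],.ref k105 k1 [(z1,[z1,y3,y2]),(z1,[z0,z1,z1])],.contra [y2,
    z5,z4],.contra [y1,z2,z2],.ref k79 k2 [(z1,[z1,z0,z0,y1])],.contra [y1,z3,z2],.contra [z3,y6,y5],.contra [y1,z2,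
    z2],.contra [z3,y3,y2],.contra [z1,y1,y1],.ref k1 k3 [(z1,[y1,z0,z0,z1])],.contra [z1,y1,y1],.contra [y2,z5,z4],
    .contra [z1,y1,y1],.contra [z1,z0,y1],.contra [y1,z0,z0,z1],.ref k1 k6 [(z1,[y1,z0,z0,z1])],.ref k79 k8 [(z1,[z1,
    y1,z0,y1])],.ref k1 k6 [(z2,[z1,y1])],.ref k98 k5 [(z1,[y1,z1,z1]),(z1,[z1])],.ref k105 k1 [(z1,[z1,y2,y2]),(z1,
    [z0,z1,z1])],.contra [y2,z5,z4],.contra [z1,z1],.contra [y2,z3,z4],.contra [y1,z1,z2],.ref k79 k2 [(z1,[z1,z1,z0,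
    y1])],.ref k1 k1 [(z1,[y1,z0,z0,z1])],.ref k0 k4 [(z1,[z1])],.contra [z1],.ref k79 k0 [(z1,[z1,z0,z0,y1])],
    .contra [z3,z0,y1],.ref k0 k1 [(z1,[z1])],.ref k1 k4 [(z1,[y1,z0,z0,z1])],.contra [y2,z5,z4],.contra [y1,z2,z2],
    .contra [y2,z3,z4],.contra [z1,z0,y1],.ref k98 k4 [(z1,[y1,z1,z1]),(z1,[z1])],.ref k44 k0 [(z1,[z1]),(z1,[z0,y1,
    y1,z1])],.contra [z1],.ref k79 k1 [(z1,[z1,z0,z0,y1])],.ref k0 k6 [(z1,[z1])],.ref k79 k8 [(z1,[z1,z0,z0,y1])],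
    .ref k98 k5 [(z1,[y1,z0,z1]),(z1,[z1,z1])],.ref k105 k1 [(z1,[z1,y1,y2]),(z1,[z0,z1,z1])],.contra [z1],
    .contra [y2,z3,z4],.contra [z1,z2],.contra [y2,z1,z4],.contra [y1,z0,z2],.ref k1 k1 [(z1,[y1,y1,z0,z1])],
    .ref k0 k4 [(z1,[z1,z1])],.ref k0 k3 [(z1,[z1])],.contra [y1,y2,y2,z2]]),
    .old (.lp [(nat_lit 51379152),(nat_lit 24239358),(nat_lit 43299366),(nat_lit 29418708),(nat_lit 25206170)] [k0,k0,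
    (nat_lit 13569897),(nat_lit 13569897),(nat_lit 4039893),(nat_lit 4039893),(nat_lit 18645660),(nat_lit 3314784),
    (nat_lit 10151526),(nat_lit 16021456)] k0 [[k0,k0,k0,k0,k0,k0,(nat_lit 1589280)],[],[k0,k0,k0,k0,k0,k0,k0,k0,
    (nat_lit 7113120)],[],[k0,k0,k0,k0,k0,k0,(nat_lit 966812)],[k0,k0,k0,k0,k0,k0,k0,k0,k0,(nat_lit 21338922)],[k0,k0,
    k0,k0,k0,k0,k0,k0,(nat_lit 16159572)],[k0,(nat_lit 1589280),k0,k0,k0,(nat_lit 966812)],[k0,k0,k0,k0,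
    (nat_lit 21338922)],[k0,k0,k0,(nat_lit 7113120),k0,k0,k0,(nat_lit 16159572)]] (nat_lit 116017440) k8
    [[(k6,(nat_lit 16573920)),(k2,(nat_lit 30696135)),(k8,(nat_lit 41227626)),(k0,(nat_lit 51379152)),(k4,
    (nat_lit 68678181))],[(k9,(nat_lit 33768416)),(k3,(nat_lit 37809255)),(k5,(nat_lit 47339259)),(k7,
    (nat_lit 48064368)),(k1,(nat_lit 51379152))],[(k6,(nat_lit 20752875)),(k2,(nat_lit 24239358)),(k8,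
    (nat_lit 27657729)),(k4,(nat_lit 33769362)),(k0,(nat_lit 37809255))],[(k9,(nat_lit 21787799)),(k3,
    (nat_lit 24239358)),(k1,(nat_lit 30696135)),(k5,(nat_lit 33769362)),(k7,(nat_lit 34494471))],[(k6,
    (nat_lit 28693599)),(k2,(nat_lit 33769362)),(k4,(nat_lit 43299366)),(k8,(nat_lit 44300853)),(k0,
    (nat_lit 47339259))],[(k9,(nat_lit 30350991)),(k3,(nat_lit 33769362)),(k5,(nat_lit 43299366)),(k7,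
    (nat_lit 44024475)),(k1,(nat_lit 68678181))],[(k8,(nat_lit 16573920)),(k6,(nat_lit 30385520)),(k2,
    (nat_lit 34494471)),(k4,(nat_lit 44024475)),(k0,(nat_lit 48064368))],[(k1,(nat_lit 16573920)),(k9,
    (nat_lit 16712036)),(k3,(nat_lit 20752875)),(k5,(nat_lit 28693599)),(k7,(nat_lit 30385520))],[(k6,
    (nat_lit 16712036)),(k2,(nat_lit 21787799)),(k4,(nat_lit 30350991)),(k0,(nat_lit 33768416)),(k8,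
    (nat_lit 41365742))],[(k7,(nat_lit 16573920)),(k3,(nat_lit 27657729)),(k1,(nat_lit 41227626)),(k9,
    (nat_lit 41365742)),(k5,(nat_lit 44300853))]]
    [] k0
    [[k2,k0,k0,k0,k0],[k1,k1,k0,k0,k0],[k1,k2,k0,k0,k0],[k1,k1,k1,k0,k0],[k1,k1,k0,k1,k0],[k1,k1,k0,k1,k1],[k1,k1,k0,
    k0,k1],[k1,k0,k0,k1,k0],[k1,k2,k0,k1,k0],[k1,k0,k1,k1,k0],[k1,k0,k0,k2,k0],[k1,k0,k0,k2,k1],[k1,k0,k0,k1,k1],[k1,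
    k0,k1,k1,k1],[k1,k0,k0,k2,k2],[k1,k0,k0,k1,k2],[k1,k0,k0,k0,k1],[k0,k2,k0,k0,k0],[k0,k3,k0,k0,k0],[k0,k4,k0,k0,
    k0],[k0,k3,k0,k1,k0],[k0,k3,k0,k1,k1],[k0,k3,k0,k0,k1],[k0,k2,k1,k0,k0],[k0,k2,k0,k1,k0],[k0,k2,k0,k2,k0],[k0,k2,
    k0,k2,k1],[k0,k2,k0,k1,k1],[k0,k2,k0,k0,k1],[k0,k2,k0,k1,k2],[k0,k2,k0,k0,k2],[k0,k1,k1,k0,k0],[k0,k1,k2,k0,k0],
    [k0,k1,k1,k1,k0],[k0,k1,k1,k1,k1],[k0,k1,k1,k0,k1],[k0,k1,k0,k1,k0],[k0,k1,k0,k2,k0],[k0,k1,k0,k2,k1],[k0,k1,k0,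
    k1,k1],[k0,k1,k0,k2,k2],[k0,k1,k0,k1,k2],[k0,k1,k0,k0,k1],[k0,k1,k0,k0,k2],[k0,k0,k2,k0,k0],[k0,k0,k1,k1,k0],[k0,
    k0,k1,k2,k0],[k0,k0,k1,k2,k1],[k0,k0,k1,k1,k1],[k0,k0,k1,k2,k2],[k0,k0,k1,k0,k1],[k0,k0,k1,k1,k2],[k0,k0,k0,k2,
    k0],[k0,k0,k0,k3,k0],[k0,k0,k0,k3,k1],[k0,k0,k0,k2,k1],[k0,k0,k0,k3,k2],[k0,k0,k0,k2,k2],[k0,k0,k0,k1,k1],[k0,k0,
    k0,k3,k3],[k0,k0,k0,k2,k3],[k0,k0,k0,k1,k2],[k0,k0,k0,k0,k2]]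
    [.contra [z1],.contra [y1,z1,z2],.contra [y1,z1,z2],.contra [z1,z0,z1,y1],.contra [z1,y1,y1],.contra [z1,z0,y1],
    .ref k1 k6 [(z1,[y1,z0,z0,z1])],.contra [y2,z1,z1,z1],.contra [y1,z1,z2],.contra [z1,z0,z1,y1],.contra [y1,z1,z2],
    .ref k105 k9 [(z1,[y1,z0,y1,z1]),(z1,[z0,z0,z1])],.ref k1 k1 [(z1,[y1,z0,z0,z1])],.contra [y1,z0,z0,z1],
    .ref k79 k0 [(z1,[y1,z0,z1])],.ref k10 k6 [(z1,[y1,z0,z1,z1]),(z1,[z1,z0,z0,y1])],.ref k0 k4 [(z1,[z1])],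
    .contra [z1],.ref k45 k0 [(z1,[z1]),(z1,[z0,z0,y1,z1])],.ref k8 k6 [(z2,[y1,z0,z4]),(z1,[z0,z0,y1,z1])],
    .ref k94 k7 [(z1,[y1,z0,z1]),(z1,[z1])],.ref k8 k6 [(z1,[y1,z0,z3]),(z1,[z0,z0,y1,z1])],.ref k94 k6 [(z1,[y1,z0,
    z1]),(z1,[z1])],.ref k79 k0 [(z1,[z1,z0,z0,y1])],.contra [y1,z1,z2],.contra [y1,z1,z2],.contra [y2,z1,z4],
    .contra [z1,z0,y1],.contra [y2,z1,z4],.contra [y1,z0,z2],.contra [y1,z0,z2],.ref k0 k1 [(z1,[z1])],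
    .ref k79 k9 [(z1,[z1,z0,z0,y1])],.ref k1 k4 [(z1,[y1,z0,z0,z1])],.contra [y1,z0,z0,z1],.ref k79 k0 [(z1,[z2,z1,z1,
    y2])],.contra [y2,z1,z1,z1],.contra [y1,z1,z2],.contra [z1,z0,y1],.contra [y2,z0,z1,z1],.contra [y1,z0,z2],
    .contra [z1,z0,y1],.contra [y2,z0,z1,z1],.contra [y1,z0,z2],.contra [y1,z0,y2,z2],.ref k0 k6 [(z1,[z1])],
    .ref k1 k0 [(z2,[y1,z1,z1,z1])],.ref k10 k7 [(z1,[y1,z0,z1,z1]),(z1,[z1,z0,z0,y1])],.ref k1 k0 [(z1,[y1,z0,z0,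
    z1])],.contra [z1,z1,z1,y1],.contra [y2,y1,y2,z2],.contra [z1,z1,z1,y1],.contra [z1],.ref k85 k6 [(z1,[z1]),(z1,
    [y1,z0,z3])],.ref k102 k5 [(z1,[y1,z0,z1]),(z1,[z0,z0,y1,z1])],.contra [y2,z1,z4],.ref k106 k6 [(z1,[z1,z0,y2]),
    (z1,[y1,z0,z3])],.contra [y1,z0,z2],.contra [y2,z0,z1,z1],.ref k9 k6 [(z1,[z1]),(z1,[z0,z0,y1,z1])],
    .ref k105 k9 [(z1,[y1,y1,y1,z1]),(z1,[z0,z0,z1])],.contra [y2,y1,z1,z1],.contra [z1]])]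

/-- the nodes with numbers from 0 -/
noncomputable def cU5_0_n0 : List XN :=
  cU5_0_n0_0 ++ (cU5_0_n0_1 ++ (cU5_0_n0_2 ++ (cU5_0_n0_3 ++ (cU5_0_n0_4 ++ (cU5_0_n0_5 ++ (cU5_0_n0_6 ++
      (cU5_0_n0_7 ++ cU5_0_n0_8)))))))

theorem cU5_0_k0 : allI (chkX 5 cU5_0_w ttU5 cU5_0_s (blkF [] cU5_0_D)) cU5_0_n0 0 = true := by
  decide +kernel

end Pool.Agent.Lib_MP_fa6e45
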