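import Pool.Agent.Lib_MP_fa6e45.CY5_0d

/-!
MP_fa6e45_co, stage 7: certificates (generated by a program).
-/

namespace Pool.Agent.Lib_MP_fa6e45

noncomputable def cU5_0_n1_0 : List XN :=
  [.old (.lp [(nat_lit 13377279413712013318850688),(nat_lit 6124403459183437741278736),
    (nat_lit 6059250230894252233392792),(nat_lit 11712651738920146796628840),(nat_lit 6004497969771713809597074)] [k0,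
    k0,(nat_lit 5464041288953526367479688),(nat_lit 1788834665575049210092264),(nat_lit 3659014591408880542728948),
    (nat_lit 3659014591408880542728948),(nat_lit 832313837395933261110924),(nat_lit 832313837395933261110924),
    (nat_lit 3686390721970149754626807),(nat_lit 3686390721970149754626807)] k0 [[k0,k0,
    (nat_lit 3506214517314283426175300),k0,k0,k0,(nat_lit 2202073751727873127414975)],[k0,k0,k0,k0,k0,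
    (nat_lit 3801474687193380977853220)],[k0,k0,k0,k0,(nat_lit 777341909130126334484784),k0,k0,k0,
    (nat_lit 2738503092196179661771040)],[k0,(nat_lit 3506214517314283426175300)],
    [(nat_lit 3801474687193380977853220)],[k0,k0,k0,(nat_lit 777341909130126334484784),k0,k0,k0,
    (nat_lit 2081499108261505434559400)],[k0,k0,k0,k0,(nat_lit 2081499108261505434559400)],[k0,
    (nat_lit 2202073751727873127414975)],[],[k0,k0,k0,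
    (nat_lit 2738503092196179661771040)]] (nat_lit 28891207622669695431684472) k8
    [[(k2,(nat_lit 5174735032562307289599960)),(k8,(nat_lit 9690888691741863564223881)),(k4,
    (nat_lit 9718264822303132776121740)),(k6,(nat_lit 12544965576316080057739764)),(k0,
    (nat_lit 13377279413712013318850688))],[(k5,(nat_lit 6212050304988849349946440)),(k9,
    (nat_lit 7488814940013990436808906)),(k3,(nat_lit 11588444748136964108758424)),(k1,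
    (nat_lit 13377279413712013318850688)),(k7,(nat_lit 16346440263509461035592984))],[(k4,
    (nat_lit 4127955469534702588176256)),(k8,(nat_lit 7902054026166814354131617)),(k2,
    (nat_lit 9630617976497721167454036)),(k0,(nat_lit 11588444748136964108758424)),(k6,
    (nat_lit 12958204662468903975062475))],[(k9,(nat_lit 4226847402788337196744193)),(k5,
    (nat_lit 4254223533349606408642052)),(k1,(nat_lit 5174735032562307289599960)),(k7,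
    (nat_lit 6303582378232427355775292)),(k3,(nat_lit 9630617976497721167454036))],[(k2,
    (nat_lit 4254223533349606408642052)),(k0,(nat_lit 6212050304988849349946440)),(k4,
    (nat_lit 6836592140024378567877576)),(k8,(nat_lit 8770377192529162683265973)),(k6,
    (nat_lit 8885950984907199515010816))],[(k3,(nat_lit 4127955469534702588176256)),(k5,
    (nat_lit 6836592140024378567877576)),(k9,(nat_lit 8113373208594488456054333)),(k7,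
    (nat_lit 8885950984907199515010816)),(k1,(nat_lit 9718264822303132776121740))],[(k2,
    (nat_lit 6303582378232427355775292)),(k8,(nat_lit 8858574854345930303112957)),(k4,
    (nat_lit 8885950984907199515010816)),(k6,(nat_lit 9631152630658641362069440)),(k0,
    (nat_lit 16346440263509461035592984))],[(k9,(nat_lit 8858574854345930303112957)),(k5,
    (nat_lit 8885950984907199515010816)),(k7,(nat_lit 9631152630658641362069440)),(k1,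
    (nat_lit 12544965576316080057739764)),(k3,(nat_lit 12958204662468903975062475))],[(k2,
    (nat_lit 4226847402788337196744193)),(k8,(nat_lit 6004497969771713809597074)),(k0,
    (nat_lit 7488814940013990436808906)),(k4,(nat_lit 8113373208594488456054333)),(k6,
    (nat_lit 8858574854345930303112957))],[(k9,(nat_lit 6004497969771713809597074)),(k3,
    (nat_lit 7902054026166814354131617)),(k5,(nat_lit 8770377192529162683265973)),(k7,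
    (nat_lit 8858574854345930303112957)),(k1,(nat_lit 9690888691741863564223881))]]
    [] k0
    [[k2,k0,k0,k0,k0],[k1,k1,k0,k0,k0],[k1,k2,k0,k0,k0],[k1,k2,k1,k0,k0],[k1,k1,k1,k0,k0],[k1,k2,k2,k0,k0],[k1,k1,k2,
    k0,k0],[k1,k1,k1,k0,k1],[k1,k1,k0,k0,k1],[k1,k2,k1,k0,k1],[k1,k1,k0,k0,k2],[k1,k0,k1,k0,k0],[k1,k0,k2,k0,k0],[k1,
    k0,k1,k0,k1],[k1,k0,k1,k1,k0],[k1,k0,k0,k0,k1],[k1,k0,k0,k0,k2],[k0,k2,k0,k0,k0],[k0,k3,k1,k0,k0],[k0,k2,k1,k0,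
    k0],[k0,k3,k2,k0,k0],[k0,k2,k2,k0,k0],[k0,k2,k1,k0,k1],[k0,k2,k0,k0,k1],[k0,k2,k0,k0,k2],[k0,k1,k1,k0,k0],[k0,k3,
    k3,k0,k0],[k0,k2,k3,k0,k0],[k0,k2,k2,k1,k0],[k0,k2,k2,k0,k1],[k0,k2,k1,k1,k0],[k0,k2,k1,k0,k2],[k0,k1,k2,k0,k0],
    [k0,k1,k3,k0,k0],[k0,k1,k2,k1,k0],[k0,k1,k2,k0,k1],[k0,k1,k1,k1,k0],[k0,k1,k1,k1,k1],[k0,k1,k1,k0,k1],[k0,k1,k1,
    k0,k2],[k0,k1,k0,k1,k0],[k0,k1,k0,k1,k1],[k0,k1,k0,k0,k1],[k0,k1,k0,k0,k2],[k0,k1,k0,k0,k3],[k0,k0,k2,k0,k0],[k0,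
    k0,k3,k0,k0],[k0,k0,k4,k0,k0],[k0,k0,k2,k1,k0],[k0,k0,k2,k0,k1],[k0,k0,k1,k1,k0],[k0,k0,k1,k2,k0],[k0,k0,k1,k1,
    k1],[k0,k0,k1,k0,k1],[k0,k0,k1,k0,k2],[k0,k0,k0,k2,k0],[k0,k0,k0,k2,k1],[k0,k0,k0,k1,k1],[k0,k0,k0,k1,k2],[k0,k0,
    k0,k0,k2],[k0,k0,k0,k0,k3],[k0,k0,k0,k0,k4]]
    [.contra [z1],.ref k0 k0 [(z1,[z1])],.ref k79 k5 [(z1,[z1,z0,y1])],.ref k10 k9 [(z1,[y1,y1,z2]),(z1,[z1,z0,y1])],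
    .ref k1 k3 [(z1,[y1,z0,z1])],.ref k79 k7 [(z1,[y1,y1,z1])],.ref k105 k6 [(z1,[y1,z1]),(z1,[z0,y1,z1])],
    .contra [z1,z1,y1],.ref k1 k6 [(z1,[y1,z0,z1])],.ref k1 k0 [(z1,[z1,z1,y1])],.ref k10 k0 [(z1,[z1]),(z1,[y1,y1,
    z1])],.ref k44 k1 [(z1,[z1]),(z1,[z0,z1])],.ref k107 k6 [(z1,[y1,z1]),(z1,[z0,y1,z1])],.ref k98 k0 [(z1,[y1,y1,
    z1]),(z1,[z1])],.contra [z1,y1],.ref k0 k4 [(z1,[z1])],.ref k79 k3 [(z1,[z1,z0,y1])],.contra [z1],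
    .ref k102 k7 [(z1,[y1,y1,z1]),(z1,[z0,z1])],.contra [y1,y2,z2],.ref k106 k0 [(z1,[z1,z2,y2]),(z1,[y1,y3,z3])],
    .contra [y1,y2,z2],.contra [z1,z1,y1],.contra [y1,y2,z2],.contra [y1,y2,z2],.contra [y1,y2,z2],.ref k9 k0 [(z1,
    [z1]),(z1,[z0,z1])],.ref k106 k9 [(z1,[z1,z2,y2]),(z1,[y1,y3,z3])],.ref k79 k3 [(z1,[y1,y1,z1])],.contra [y1,y2,
    z2],.ref k105 k2 [(z1,[y1,z1]),(z1,[z0,y1,z1])],.contra [y1,y2,z2],.contra [y1,y2,z2],.ref k102 k3 [(z1,[y1,y1,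
    z1]),(z1,[z0,z1])],.ref k10 k0 [(z1,[y1,y1,z2]),(z1,[z1,z0,y1])],.contra [z1,z1,y1],.ref k1 k4 [(z1,[y1,z0,z1])],
    .contra [y1,z0,z1],.contra [y2,y1,z2],.contra [z1,z1,y1],.ref k44 k4 [(z1,[z0,z1]),(z1,[z1])],.ref k98 k9 [(z1,
    [y1,y1,z1]),(z1,[z1])],.contra [y2,y1,z2],.contra [y1,y2,z2],.ref k94 k9 [(z1,[y1,y1,z1]),(z1,[z1])],.contra [z1],
    .ref k85 k9 [(z1,[z1]),(z1,[y1,y3,z3])],.ref k90 k9 [(z2,[z1]),(z2,[y1,y4,z4])],.ref k79 k1 [(z1,[z1,z0,y1])],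
    .contra [y1,y2,z2],.ref k0 k6 [(z1,[z1])],.ref k79 k8 [(z1,[z1,z0,y1])],.ref k1 k0 [(z1,[y1,z0,z1])],.contra [y2,
    y1,z2],.contra [y1,y2,z2],.contra [y1,z2],.ref k79 k6 [(z1,[z1,z0,y1])],.ref k0 k3 [(z1,[z1])],.ref k79 k7 [(z1,
    [z1,z0,y1])],.contra [z1],.ref k45 k3 [(z1,[z1]),(z1,[z0,z1])],.ref k8 k0 [(z2,[y1,y4,z4]),(z1,[z0,z1])]]),
    .old (.lp [(nat_lit 55596),(nat_lit 54918),(nat_lit 48480),(nat_lit 52206),(nat_lit 32544)] [k0,k0,(nat_lit 339),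
    (nat_lit 339),(nat_lit 3558),(nat_lit 3558),(nat_lit 2147),(nat_lit 1243),(nat_lit 11526),
    (nat_lit 11526)] k0 [[k0,k0,k0,k0,k0,k0,k0,k0,(nat_lit 13560)],[k0,k0,k0,k0,k0,(nat_lit 12882)],[k0,k0,k0,k0,k0,
    k0,k0,k0,(nat_lit 2712)],[k0,k0,k0,k0,k0,k0,k0,(nat_lit 6780)],[(nat_lit 12882),k0,k0,k0,k0,k0,(nat_lit 2034)],
    [k0,k0,k0,k0,k0,k0,k0,k0,k0,(nat_lit 10170)],[k0,k0,(nat_lit 6780)],[k0,k0,k0,k0,k0,(nat_lit 2034)],[k0,k0,k0,k0,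
    (nat_lit 10170)],[k0,(nat_lit 13560),k0,(nat_lit 2712)]] (nat_lit 162720) k6
    [[(k0,(nat_lit 42036)),(k8,(nat_lit 44070)),(k2,(nat_lit 52545)),(k6,(nat_lit 53449)),(k4,(nat_lit 62208))],[(k1,
    (nat_lit 42036)),(k9,(nat_lit 44070)),(k5,(nat_lit 52038)),(k3,(nat_lit 55257)),(k7,(nat_lit 67235))],[(k4,
    (nat_lit 38817)),(k6,(nat_lit 53110)),(k2,(nat_lit 54918)),(k0,(nat_lit 55257)),(k8,(nat_lit 57291))],[(k9,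
    (nat_lit 50511)),(k5,(nat_lit 51699)),(k1,(nat_lit 52545)),(k7,(nat_lit 54014)),(k3,(nat_lit 54918))],[(k6,
    (nat_lit 43111)),(k8,(nat_lit 43224)),(k4,(nat_lit 48480)),(k2,(nat_lit 51699)),(k0,(nat_lit 52038))],[(k9,
    (nat_lit 38478)),(k3,(nat_lit 38817)),(k5,(nat_lit 48480)),(k7,(nat_lit 50795)),(k1,(nat_lit 62208))],[(k8,
    (nat_lit 32657)),(k4,(nat_lit 50795)),(k2,(nat_lit 54014)),(k6,(nat_lit 54240)),(k0,(nat_lit 67235))],[(k9,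
    (nat_lit 41923)),(k5,(nat_lit 43111)),(k3,(nat_lit 53110)),(k1,(nat_lit 53449)),(k7,(nat_lit 54240))],[(k8,
    (nat_lit 32544)),(k4,(nat_lit 38478)),(k6,(nat_lit 41923)),(k0,(nat_lit 44070)),(k2,(nat_lit 50511))],[(k9,
    (nat_lit 32544)),(k7,(nat_lit 32657)),(k5,(nat_lit 43224)),(k1,(nat_lit 44070)),(k3,(nat_lit 57291))]]
    [] k0
    [[k2,k0,k0,k0,k0],[k3,k0,k0,k0,k0],[k2,k1,k0,k0,k0],[k2,k0,k1,k0,k0],[k2,k0,k0,k0,k1],[k1,k1,k0,k0,k0],[k1,k1,k1,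
    k0,k0],[k1,k1,k0,k0,k1],[k1,k0,k1,k0,k0],[k1,k0,k1,k0,k1],[k1,k0,k0,k1,k0],[k1,k0,k1,k1,k0],[k1,k0,k0,k1,k1],[k1,
    k0,k0,k0,k1],[k1,k0,k0,k0,k2],[k1,k0,k0,k0,k3],[k0,k2,k0,k0,k0],[k0,k2,k1,k0,k0],[k0,k2,k0,k1,k0],[k0,k1,k1,k0,
    k0],[k0,k1,k2,k0,k0],[k0,k1,k1,k1,k0],[k0,k1,k1,k0,k1],[k0,k1,k0,k1,k0],[k0,k1,k0,k2,k0],[k0,k1,k0,k1,k1],[k0,k1,
    k0,k0,k1],[k0,k1,k0,k0,k2],[k0,k0,k2,k0,k0],[k0,k0,k3,k0,k0],[k0,k0,k2,k1,k0],[k0,k0,k2,k0,k1],[k0,k0,k1,k1,k0],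
    [k0,k0,k1,k2,k0],[k0,k0,k1,k1,k1],[k0,k0,k1,k1,k2],[k0,k0,k1,k0,k1],[k0,k0,k1,k0,k2],[k0,k0,k1,k0,k3],[k0,k0,k0,
    k2,k0],[k0,k0,k0,k2,k1],[k0,k0,k0,k2,k2],[k0,k0,k0,k1,k1],[k0,k0,k0,k1,k2],[k0,k0,k0,k1,k3],[k0,k0,k0,k0,k2],[k0,
    k0,k0,k0,k3],[k0,k0,k0,k0,k4]]
    [.contra [z1],.ref k1 k4 [(z2,[z1,y1])],.ref k79 k4 [(z1,[z1,z0,z0,y1])],.ref k1 k4 [(z1,[z1,z0,z1,y1])],
    .ref k79 k2 [(z1,[z1,z0,z0,y1])],.contra [y1,z1,z1],.ref k1 k3 [(z1,[y1,z0,z0,z1])],.ref k1 k6 [(z1,[y1,z0,z0,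
    z1])],.contra [z1,z0,z1,y1],.contra [z1,z1,z1,y1],.contra [y1,z1,z1],.ref k1 k3 [(z1,[z1,z0,z1,y1])],
    .ref k1 k1 [(z1,[y1,z0,z0,z1])],.ref k0 k4 [(z1,[z1])],.contra [z1,z1],.ref k79 k2 [(z1,[z1,z1,z0,y1])],
    .contra [z1],.ref k79 k0 [(z1,[z1,z0,z0,y1])],.ref k79 k9 [(z1,[z1,y2,y3,z1])],.ref k0 k1 [(z1,[z1])],
    .ref k79 k9 [(z1,[z1,z0,z0,y1])],.ref k1 k4 [(z1,[y1,z0,z0,z1])],.contra [z1,z1,z1,y1],.contra [z1,y2,y3,z2],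
    .ref k79 k4 [(z1,[y1,z2,z2,y1])],.contra [z1,y1,y2,z1],.contra [y2,z1,z2],.contra [y1,z0,z1],.contra [z1],
    .ref k1 k4 [(z1,[y1,y2,y3,z3])],.ref k79 k4 [(z1,[y1,z0,y1,z1])],.contra [z1,z1,z1,y1],.ref k0 k6 [(z1,[z1])],
    .ref k79 k8 [(z1,[z1,z0,z0,y1])],.contra [z1,z1,z1,y1],.ref k1 k3 [(z1,[z1,z1,z1,y1])],.contra [y2,y3,y4,z4],
    .contra [z1,z1,z1,y1],.contra [z1,z2,z1,y1],.contra [z1],.ref k79 k6 [(z1,[z1,z0,z0,y1])],.ref k1 k3 [(z2,[z1])],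
    .contra [y2,z1,z2],.contra [y1,z0,z1],.ref k1 k1 [(z1,[y1,y1,z0,z1])],.contra [z1],.ref k0 k4 [(z1,[z1,z1])],
    .contra [z1,z2]]),
    .geo true z1 k4 [(y2,z4),(z4,y6),(z2,y2),(y1,z3),(z0,z1)] [(z1,[z1]),(z1,[z0,z1]),(z1,[z0,z0,z1]),(z1,[y1,y1,y1,z1]),
    (z1,[])] (Int.ofNat (nat_lit 524288)) (Int.ofNat (nat_lit 699051)) (.s (.l k1) (.l k1)) [],
    .old (.lp [(nat_lit 890),(nat_lit 862),(nat_lit 1158),(nat_lit 534),(nat_lit 870)] [k134,k134,k148,k148,k0,k0,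
    (nat_lit 312),(nat_lit 312),k144,k144] k0 [[k0,k0,(nat_lit 448),k0,k0,k0,k166],[k0,k0,k0,k0,k0,(nat_lit 420),k0,
    k0,k0,(nat_lit 254)],[k0,k0,k0,k0,k122,k0,k0,k0,(nat_lit 300)],[k0,(nat_lit 448),k0,k0,k0,k0,k0,k92],
    [(nat_lit 420),k0,k0,k0,k0,k0,(nat_lit 426)],[k0,k0,k0,k122],[k0,k0,k92,k0,k0,k0,k0,k0,k108],[k0,k166,k0,k0,k0,
    (nat_lit 426)],[(nat_lit 254)],[k0,k0,k0,(nat_lit 300),k0,k0,k0,k108]] (nat_lit 2880) k6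
    [[(k2,(nat_lit 576)),(k6,(nat_lit 604)),(k8,(nat_lit 880)),(k4,(nat_lit 1024)),(k0,(nat_lit 1144))],[(k5,
    (nat_lit 576)),(k9,(nat_lit 714)),(k3,(nat_lit 876)),(k7,(nat_lit 1132)),(k1,(nat_lit 1144))],[(k4,(nat_lit 590)),
    (k8,(nat_lit 612)),(k6,(nat_lit 864)),(k0,(nat_lit 876)),(k2,(nat_lit 1310))],[(k1,(nat_lit 576)),(k7,
    (nat_lit 576)),(k9,(nat_lit 958)),(k5,(nat_lit 1010)),(k3,(nat_lit 1310))],[(k0,(nat_lit 576)),(k6,(nat_lit 754)),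
    (k2,(nat_lit 1010)),(k4,(nat_lit 1280)),(k8,(nat_lit 1314))],[(k9,(nat_lit 588)),(k3,(nat_lit 590)),(k7,
    (nat_lit 846)),(k1,(nat_lit 1024)),(k5,(nat_lit 1280))],[(k2,(nat_lit 576)),(k8,(nat_lit 702)),(k4,(nat_lit 846)),
    (k6,(nat_lit 960)),(k0,(nat_lit 1132))],[(k1,(nat_lit 604)),(k9,(nat_lit 702)),(k5,(nat_lit 754)),(k3,
    (nat_lit 864)),(k7,(nat_lit 960))],[(k4,(nat_lit 588)),(k6,(nat_lit 702)),(k0,(nat_lit 714)),(k2,(nat_lit 958)),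
    (k8,(nat_lit 978))],[(k3,(nat_lit 612)),(k7,(nat_lit 702)),(k1,(nat_lit 880)),(k9,(nat_lit 978)),(k5,
    (nat_lit 1314))]]
    [] k0
    [[k2,k0,k0,k0,k0],[k2,k1,k0,k0,k0],[k2,k0,k1,k0,k0],[k2,k0,k0,k0,k1],[k1,k1,k0,k0,k0],[k1,k2,k0,k0,k0],[k1,k1,k1,
    k0,k0],[k1,k1,k0,k1,k0],[k1,k1,k1,k1,k0],[k1,k1,k0,k1,k1],[k1,k1,k0,k0,k1],[k1,k1,k1,k0,k1],[k1,k0,k1,k0,k0],[k1,
    k0,k0,k1,k0],[k1,k0,k1,k1,k0],[k1,k0,k0,k2,k0],[k1,k0,k0,k1,k1],[k1,k0,k1,k1,k1],[k1,k0,k0,k0,k1],[k1,k0,k1,k0,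
    k1],[k1,k0,k0,k0,k2],[k0,k2,k0,k0,k0],[k0,k2,k0,k1,k0],[k0,k1,k1,k0,k0],[k0,k1,k1,k1,k0],[k0,k1,k1,k0,k1],[k0,k1,
    k0,k1,k0],[k0,k1,k0,k2,k0],[k0,k1,k0,k1,k1],[k0,k1,k0,k2,k1],[k0,k1,k0,k0,k1],[k0,k1,k1,k1,k1],[k0,k1,k0,k0,k2],
    [k0,k1,k0,k1,k2],[k0,k0,k2,k0,k0],[k0,k0,k1,k1,k0],[k0,k0,k1,k2,k0],[k0,k0,k1,k1,k1],[k0,k0,k1,k0,k1],[k0,k0,k0,
    k2,k0],[k0,k0,k0,k2,k1],[k0,k0,k0,k1,k1],[k0,k0,k0,k2,k2],[k0,k0,k0,k1,k2],[k0,k0,k0,k0,k2]]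
    [.contra [z1],.ref k79 k4 [(z1,[z1,z0,z0,y1])],.ref k79 k3 [(z1,[z1,z0,z1,y2])],.ref k79 k3 [(z3,[z2,y1,z0,y3])],
    .contra [y2,z1,z1,z1],.ref k1 k3 [(z2,[y1,z1,z2])],.ref k1 k3 [(z1,[y1,z0,z0,z1])],.contra [z1,y1,y1],.contra [y1,
    z0,z0,z1],.contra [y1,z0,z0,z1],.ref k1 k6 [(z1,[y1,z0,z0,z1])],.contra [y1,z0,z0,z1],.contra [z1,z0,z1,y1],
    .contra [y2,z1,z1,z1],.ref k79 k7 [(z1,[z1,z0,z1,y2])],.ref k79 k7 [(z2,[z1,y1,z0,y2])],.ref k1 k1 [(z1,[y1,z0,z0,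
    z1])],.contra [y1,z0,z0,z1],.ref k0 k4 [(z1,[z1])],.ref k79 k3 [(z1,[z2,z1,z2,y3])],.ref k79 k3 [(z1,[z1,z0,z0,
    y1])],.contra [z1],.ref k5 k1 [(z1,[z0,y1,y2,z2]),(z1,[z1])],.ref k0 k1 [(z1,[z1])],.ref k1 k4 [(z1,[y1,z0,z0,
    z1])],.ref k79 k0 [(z1,[z2,z1,z1,y2])],.contra [y2,z1,z1,z1],.ref k110 k4 [(z1,[z0,z1]),(z1,[y1,z0,z2]),(z1,[z0,
    y1,y1,z1])],.contra [z1,y1,y2,z1],.ref k1 k6 [(z1,[z1,y1,y2,z1])],.contra [y2,z1,z2],.contra [y1,z0,z0,z1],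
    .ref k1 k3 [(z1,[y1,z0,z1])],.contra [y1,z0,z1],.contra [z1],.ref k0 k6 [(z1,[z1])],.ref k1 k0 [(z2,[y1,z1,z1,
    z1])],.ref k1 k0 [(z1,[y1,z0,z0,z1])],.contra [y2,y2,y3,z3],.contra [z1],.ref k79 k6 [(z1,[z1,z0,z0,y1])],
    .contra [y2,z1,z2],.ref k1 k3 [(z2,[z1])],.ref k79 k7 [(z1,[z1,z0,z0,y1])],.contra [z1]]),
    .geo true z3 k4 [(y1,z3),(z2,z0),(z6,y6),(z2,z0),(z0,z3)] [(z1,[z1]),(z1,[z0,z1]),(z1,[z0,z0,z3]),(z1,[y1,y1,y3,z3]),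
    (z1,[])] (Int.ofNat (nat_lit 349525)) (Int.ofNat (nat_lit 1048576)) (.s (.l k1) (.s (.l k1) (.l k1))) [],
    .old (.lp [k84,k80,k74,k46,k74] [k14,k0,k4,k14,k12,k12,k26,k26,k12,k12] k0 [[k0,k0,k0,k0,k0,k0,k2],[k0,k0,k0,k0,k0,
    k2],[k0,k0,k0,k0,k8],[],[k2,k0,k0,k0,k0,k0,k14],[k0,k0,k0,k8],[k0,k0,k0,k0,k0,k0,k0,k0,k12],[k0,k2,k0,k0,k0,k14],
    [],[k0,k0,k0,k0,k0,k0,k0,k12]] (nat_lit 240) k5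
    [[(k6,k60),(k0,k84),(k4,k86),(k8,k86),(k2,k94)],[(k7,k60),(k3,k70),(k9,k70),(k5,k72),(k1,k84)],[(k6,k60),(k0,k70),
    (k4,k70),(k8,k72),(k2,k80)],[(k7,k60),(k3,k80),(k5,k82),(k9,k82),(k1,k94)],[(k6,k60),(k0,k72),(k8,k74),(k2,k82),
    (k4,k82)],[(k7,k60),(k9,k60),(k3,k70),(k5,k82),(k1,k86)],[(k0,k60),(k2,k60),(k4,k60),(k6,k60),(k8,k60)],[(k1,k60),
    (k3,k60),(k5,k60),(k7,k60),(k9,k60)],[(k4,k60),(k6,k60),(k0,k70),(k2,k82),(k8,k86)],[(k7,k60),(k3,k72),(k5,k74),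
    (k1,k86),(k9,k86)]]
    [] k0
    [[k2,k0,k0,k0,k0],[k2,k0,k0,k1,k0],[k1,k1,k0,k0,k0],[k1,k1,k1,k0,k0],[k1,k1,k0,k1,k0],[k1,k1,k0,k0,k1],[k1,k0,k1,
    k0,k0],[k1,k0,k1,k1,k0],[k1,k0,k1,k0,k1],[k1,k0,k0,k1,k0],[k1,k0,k0,k2,k0],[k1,k0,k0,k1,k1],[k1,k0,k0,k0,k1],[k0,
    k2,k0,k0,k0],[k0,k2,k1,k0,k0],[k0,k2,k0,k1,k0],[k0,k2,k0,k0,k1],[k0,k1,k1,k0,k0],[k0,k1,k2,k0,k0],[k0,k1,k1,k1,
    k0],[k0,k1,k1,k0,k1],[k0,k1,k0,k1,k0],[k0,k1,k0,k2,k0],[k0,k1,k0,k1,k1],[k0,k1,k0,k0,k1],[k0,k0,k2,k0,k0],[k0,k0,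
    k2,k1,k0],[k0,k0,k2,k0,k1],[k0,k0,k1,k1,k0],[k0,k0,k1,k2,k0],[k0,k0,k1,k1,k1],[k0,k0,k1,k0,k1],[k0,k0,k1,k0,k2],
    [k0,k0,k0,k2,k0],[k0,k0,k0,k3,k0],[k0,k0,k0,k2,k1],[k0,k0,k0,k1,k1],[k0,k0,k0,k1,k2],[k0,k0,k0,k0,k2]]
    [.contra [z1],.ref k79 k1 [(z3,[z3,y4,y2,z3])],.ref k0 k1 [(z3,[z3,y2,y1,z3])],.ref k1 k3 [(z1,[y1,z0,z0,z1])],
    .ref k1 k4 [(z3,[y3,z2,z1])],.ref k1 k6 [(z1,[y1,z0,z0,z1])],.contra [z3,z2,z1,y3],.ref k79 k1 [(z3,[z3,y2,y1])],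
    .ref k79 k3 [(z3,[z6,z1,z2,y9])],.ref k0 k6 [(z3,[z3,y2,y1,z3])],.ref k79 k1 [(z6,[z3,y5,y4,z6])],.ref k1 k1 [(z1,
    [y1,z0,z0,z1])],.ref k0 k4 [(z1,[z1])],.contra [z1],.ref k1 k3 [(z6,[y3,y1,z1,z3])],.ref k5 k1 [(z3,[z0,y1,y2,
    z6]),(z1,[z1])],.ref k5 k0 [(z1,[z1]),(z3,[z0,z1,y1,z3])],.ref k0 k1 [(z1,[z1])],.ref k1 k3 [(z3,[y3,y2,y1,z6])],
    .ref k1 k4 [(z1,[y1,z0,z0,z1])],.ref k1 k6 [(z3,[y3,y2,y1,z6])],.contra [y6,z1,z2],.ref k112 k3 [(z1,[y3,z0,z1]),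
    (z1,[z0,z1]),(z1,[z1])],.contra [z3,z1,y1],.contra [y6,z1,z2],.contra [z3,z4,z2,y6],.ref k79 k1 [(z1,[z1,z0,z0,
    y1])],.ref k79 k3 [(z3,[z6,z5,z4,y15])],.ref k0 k6 [(z1,[z1])],.ref k79 k1 [(z2,[z1,y1,y1,z1])],.ref k1 k1 [(z3,
    [y3,y2,y1,z6])],.ref k0 k4 [(z3,[z3,z2,z1,y3])],.ref k79 k3 [(z3,[z3,z2,z1,y6])],.contra [z1],.ref k79 k1 [(z3,
    [z1,y2,y2,z3])],.ref k79 k6 [(z1,[z1,z0,z0,y1])],.contra [y6,z1,z2],.ref k79 k7 [(z1,[z1,z0,z0,y1])],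
    .contra [z1]]),
    .old (.lp [k58,k80,k58,k70,k92] [k17,k17,k6,k6,k17,k17,k11,k11,k0,k0] k0 [[k0,k0,k0,k0,k0,k0,k6],[],[k0,k0,k0,k0,k2,
    k0,k0,k0,k10],[],[k0,k0,k0,k0,k0,k0,k16],[k0,k0,k0,k2,k0,k0,k0,k0,k0,k8],[k0,k0,k0,k0,k0,k0,k0,k0,k4],[k0,k6,k0,
    k0,k0,k16],[k0,k0,k0,k0,k8],[k0,k0,k0,k10,k0,k0,k0,k4]] (nat_lit 240) k6
    [[(k0,k58),(k2,k59),(k6,k60),(k4,k66),(k8,k75)],[(k1,k58),(k5,k58),(k7,k64),(k3,k69),(k9,k69)],[(k0,k69),(k4,k69),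
    (k2,k80),(k6,k81),(k8,k86)],[(k1,k59),(k5,k69),(k7,k73),(k3,k80),(k9,k86)],[(k0,k58),(k4,k60),(k6,k64),(k2,k69),
    (k8,k85)],[(k9,k59),(k5,k60),(k7,k64),(k1,k66),(k3,k69)],[(k0,k64),(k4,k64),(k2,k73),(k8,k73),(k6,k86)],[(k1,k60),
    (k5,k64),(k3,k81),(k9,k81),(k7,k86)],[(k4,k59),(k0,k69),(k6,k81),(k2,k86),(k8,k96)],[(k7,k73),(k1,k75),(k5,k85),
    (k3,k86),(k9,k96)]]
    [] k0
    [[k2,k0,k0,k0,k0],[k3,k0,k0,k0,k0],[k4,k0,k0,k0,k0],[k2,k1,k0,k0,k0],[k2,k0,k1,k0,k0],[k2,k0,k0,k1,k0],[k2,k0,k0,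
    k0,k1],[k1,k1,k0,k0,k0],[k1,k2,k0,k0,k0],[k1,k1,k1,k0,k0],[k1,k1,k0,k1,k0],[k1,k1,k0,k0,k1],[k1,k0,k1,k0,k0],[k1,
    k0,k2,k0,k0],[k1,k0,k1,k1,k0],[k1,k0,k1,k0,k1],[k1,k0,k0,k1,k0],[k1,k0,k0,k2,k0],[k1,k0,k0,k1,k1],[k1,k0,k0,k0,
    k1],[k0,k2,k0,k0,k0],[k0,k2,k1,k0,k0],[k0,k2,k0,k1,k0],[k0,k1,k1,k0,k0],[k0,k1,k2,k0,k0],[k0,k1,k1,k1,k0],[k0,k1,
    k0,k1,k0],[k0,k1,k0,k0,k1],[k0,k1,k1,k0,k1],[k0,k0,k2,k0,k0],[k0,k0,k3,k0,k0],[k0,k0,k2,k1,k0],[k0,k0,k2,k0,k1],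
    [k0,k0,k1,k1,k0],[k0,k0,k1,k2,k0],[k0,k0,k1,k1,k1],[k0,k0,k1,k0,k1],[k0,k0,k0,k2,k0],[k0,k0,k0,k1,k1],[k0,k0,k0,
    k0,k2]]
    [.contra [z1],.ref k55 k0 [(z1,[z0,z0,z1]),(z1,[y1,z0,y3,z3])],.ref k79 k3 [(z2,[z1,y2,z0,y2])],.ref k79 k4 [(z1,
    [z1,z0,z0,y1])],.contra [z1,z0,z1,y1],.ref k109 k6 [(z1,[z1,z0,z2,y2]),(z1,[y1,z0,y1,z2])],.ref k79 k2 [(z1,[z1,
    z0,z0,y1])],.contra [y2,z1,z1,z1],.ref k79 k5 [(z1,[z1,z0,z0,y1])],.contra [z1,z0,z1,y1],.contra [z2,y1,y2],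
    .ref k1 k6 [(z1,[y1,z0,z0,z1])],.contra [y1,z0,y2,z2],.contra [z1,z0,z1,y1],.contra [z1,z0,z1,y1],.contra [z2,z1,
    z2,y2],.contra [y2,z1,z1,z1],.ref k5 k3 [(z1,[z0,y1,y1,z1]),(z1,[z1])],.ref k1 k1 [(z1,[y1,z0,z0,z1])],
    .contra [z2,z1],.contra [z1],.ref k79 k0 [(z1,[z1,z0,z0,y1])],.ref k79 k0 [(z1,[z2,y1,y3])],.ref k0 k1 [(z1,
    [z1])],.ref k79 k9 [(z1,[z1,z0,z0,y1])],.ref k1 k4 [(z1,[y1,z0,z0,z1])],.contra [y2,z1,z1,z1],.contra [y1,z0,z1],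
    .ref k79 k0 [(z1,[z2,z1,z1,y2])],.contra [z1],.ref k1 k4 [(z2,[y1,y1,y3,z3])],.ref k79 k1 [(z1,[z1,z0,z0,y1])],
    .ref k1 k4 [(z1,[y1,y1,y2,z2])],.ref k0 k6 [(z1,[z1])],.ref k1 k0 [(z2,[y1,z1,z1,z1])],.ref k1 k0 [(z1,[y1,z0,z0,
    z1])],.contra [y2,y1,y3,z3],.contra [z1],.contra [y1,z0,z1],.contra [z1,z1]]),
    .old (.lp [k124,k128,k186,k120,k160] [k31,k31,k29,k29,k0,k0,k33,k33,k13,k13] k0 [[k0,k0,k0,k0,k0,k0,k0,k0,k6],[k0,k0,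
    k0,k12],[k12,k0,k0,k0,k0,k0,k0,k0,k4],[k0,k0,k0,k0,k0,k0,k0,k2],[],[k0,k0,k0,k0,k0,k0,k0,k0,k0,k40],[k0,k0,k2],[],
    [k0,k0,k0,k0,k40],[k0,k6,k0,k4]] (nat_lit 480) k6
    [[(k0,k118),(k2,k122),(k6,k122),(k8,k142),(k4,k195)],[(k1,k118),(k7,k122),(k3,k126),(k9,k142),(k5,k167)],[(k2,
    k116),(k6,k124),(k0,k126),(k8,k150),(k4,k157)],[(k3,k116),(k1,k122),(k7,k124),(k9,k146),(k5,k157)],[(k6,k151),(k2,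
    k157),(k0,k167),(k8,k177),(k4,k186)],[(k7,k153),(k3,k157),(k9,k173),(k5,k186),(k1,k195)],[(k8,k100),(k6,k120),(k0,
    k122),(k2,k124),(k4,k153)],[(k7,k120),(k1,k122),(k3,k124),(k9,k140),(k5,k151)],[(k6,k140),(k0,k142),(k2,k146),(k8,
    k160),(k4,k173)],[(k7,k100),(k1,k142),(k3,k150),(k9,k160),(k5,k177)]]
    [] k0
    [[k2,k0,k0,k0,k0],[k3,k0,k0,k0,k0],[k4,k0,k0,k0,k0],[k2,k1,k0,k0,k0],[k2,k0,k0,k1,k0],[k2,k0,k0,k0,k1],[k1,k1,k0,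
    k0,k0],[k1,k2,k0,k0,k0],[k1,k1,k1,k0,k0],[k1,k1,k0,k1,k0],[k1,k1,k0,k0,k1],[k1,k0,k1,k0,k0],[k1,k0,k1,k1,k0],[k1,
    k0,k0,k1,k0],[k1,k0,k0,k2,k0],[k1,k0,k0,k1,k1],[k1,k0,k0,k0,k1],[k1,k0,k0,k0,k2],[k0,k2,k0,k0,k0],[k0,k3,k0,k0,
    k0],[k0,k4,k0,k0,k0],[k0,k2,k1,k0,k0],[k0,k2,k0,k1,k0],[k0,k2,k0,k0,k1],[k0,k1,k1,k0,k0],[k0,k1,k1,k1,k0],[k0,k1,
    k0,k1,k0],[k0,k1,k0,k2,k0],[k0,k1,k0,k1,k1],[k0,k1,k0,k0,k1],[k0,k1,k0,k0,k2],[k0,k0,k2,k0,k0],[k0,k0,k1,k1,k0],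
    [k0,k0,k1,k2,k0],[k0,k0,k1,k1,k1],[k0,k0,k1,k0,k1],[k0,k0,k0,k2,k0],[k0,k0,k0,k3,k0],[k0,k0,k0,k2,k1],[k0,k0,k0,
    k1,k1],[k0,k0,k0,k1,k2],[k0,k0,k0,k0,k2]]
    [.contra [z1],.ref k79 k3 [(z1,[z1,y2,z0,y1])],.contra [y1,z2,y2,z2],.ref k1 k6 [(z1,[y1,z1,z0,z1])],
    .ref k1 k1 [(z1,[y1,z1,z0,z1])],.ref k79 k3 [(z1,[z1,y1,z0,y1])],.contra [y2,z1,z1,z1],.ref k79 k5 [(z1,[z1,z0,z0,
    y1])],.ref k1 k3 [(z1,[y1,z0,z0,z1])],.contra [z1,z0,y1],.ref k1 k6 [(z1,[y1,z0,z0,z1])],.contra [y1,z1,y1,z1],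
    .ref k1 k0 [(z1,[y1,z1,z0,z1])],.contra [y2,z1,z1,z1],.ref k79 k6 [(z1,[z1,y1,z0,y1])],.ref k1 k1 [(z1,[y1,z0,z0,
    z1])],.contra [z1,z1],.ref k79 k3 [(z1,[z1,z0,z0,y1])],.contra [z1],.ref k55 k1 [(z1,[z0,z0,y1,z1]),(z1,[y1,z0,
    z3])],.ref k56 k9 [(z1,[z0,z0,y1,z1]),(z2,[z1])],.ref k1 k3 [(z2,[y1,y1,z1,z1])],.contra [z1,z0,y1],
    .ref k79 k5 [(z1,[z1,z1,z0,y1])],.ref k0 k1 [(z1,[z1])],.contra [z1,z0,y1],.contra [y2,z1,z1,z1],.contra [z1,z0,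
    y1],.contra [z1,z1,y1],.contra [y2,y1,z1,z1],.ref k1 k6 [(z1,[y1,y1,z0,z1])],.contra [z1],.ref k0 k6 [(z1,[z1])],
    .ref k1 k0 [(z2,[y1,z1,z1,z1])],.ref k1 k0 [(z1,[y1,z0,z0,z1])],.contra [y1,z0,y1,z1],.contra [z1],
    .ref k55 k9 [(z1,[z0,z0,y1,z1]),(z1,[y1,z0,z3])],.ref k79 k6 [(z1,[z1,z0,z0,y1])],.contra [y2,y1,z1,z1],
    .ref k1 k1 [(z1,[y1,y1,z0,z1])],.contra [z1,z2]]),
    .old (.lp [k76,k66,k93,k54,k70] [k18,k8,k18,k18,k0,k9,k24,k24,k16,k16] k0 [[k0,k0,k15],[k0,k0,k0,k0,k0,k0,k0,k0,k0,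
    k8],[k0,k0,k0,k0,k0,k0,k0,k0,k10],[k0,k15],[k0,k0,k0,k0,k0,k0,k26],[k0,k0,k0,k0,k0,k0,k0,k0,k0,k2],[k0,k0,k0,k0,
    k0,k0,k0,k0,k10],[k0,k0,k0,k0,k0,k26],[k8,k0,k0,k0,k2],[k0,k0,k0,k10,k0,k0,k0,k10]] (nat_lit 240) k5
    [[(k6,k60),(k2,k66),(k8,k78),(k0,k84),(k4,k96)],[(k5,k60),(k7,k60),(k3,k66),(k9,k68),(k1,k84)],[(k6,k60),(k8,k60),
    (k0,k66),(k2,k81),(k4,k84)],[(k7,k60),(k1,k66),(k9,k68),(k5,k75),(k3,k81)],[(k0,k60),(k6,k69),(k2,k75),(k8,k87),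
    (k4,k93)],[(k9,k60),(k7,k78),(k3,k84),(k5,k93),(k1,k96)],[(k0,k60),(k2,k60),(k8,k60),(k4,k78),(k6,k80)],[(k1,k60),
    (k3,k60),(k9,k62),(k5,k69),(k7,k80)],[(k4,k60),(k6,k62),(k0,k68),(k2,k68),(k8,k80)],[(k3,k60),(k7,k60),(k1,k78),
    (k9,k80),(k5,k87)]]
    [] k0
    [[k2,k0,k0,k0,k0],[k2,k1,k0,k0,k0],[k2,k0,k0,k1,k0],[k2,k0,k0,k0,k1],[k1,k1,k0,k0,k0],[k1,k2,k0,k0,k0],[k1,k1,k1,
    k0,k0],[k1,k1,k0,k1,k0],[k1,k1,k0,k0,k1],[k1,k0,k1,k0,k0],[k1,k0,k1,k1,k0],[k1,k0,k0,k1,k0],[k1,k0,k0,k2,k0],[k1,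
    k0,k0,k1,k1],[k1,k0,k0,k0,k1],[k1,k0,k1,k0,k1],[k1,k0,k0,k0,k2],[k0,k2,k0,k0,k0],[k0,k2,k0,k1,k0],[k0,k2,k0,k0,
    k1],[k0,k1,k1,k0,k0],[k0,k1,k1,k1,k0],[k0,k1,k1,k0,k1],[k0,k1,k0,k1,k0],[k0,k1,k0,k2,k0],[k0,k1,k0,k1,k1],[k0,k1,
    k0,k0,k1],[k0,k1,k0,k0,k2],[k0,k0,k2,k0,k0],[k0,k0,k1,k1,k0],[k0,k0,k1,k2,k0],[k0,k0,k1,k1,k1],[k0,k0,k1,k0,k1],
    [k0,k0,k1,k0,k2],[k0,k0,k0,k2,k0],[k0,k0,k0,k2,k1],[k0,k0,k0,k1,k1],[k0,k0,k0,k1,k2],[k0,k0,k0,k0,k2]]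
    [.contra [z1],.ref k1 k6 [(z1,[y1,z1,z0,z1])],.ref k1 k1 [(z1,[y1,z1,z0,z1])],.ref k79 k3 [(z1,[z1,y1,z0,y1])],
    .contra [y2,z3,z1],.ref k1 k3 [(z2,[y1,z1,z1])],.ref k1 k3 [(z1,[y1,z0,z0,z1])],.contra [z1,y2,y1,z1],
    .ref k1 k6 [(z1,[y1,z0,z0,z1])],.contra [y1,y1,y1,z2],.ref k1 k0 [(z1,[y1,z1,z0,z1])],.contra [y2,z3,z1],
    .ref k1 k0 [(z2,[y1,z3,z1])],.ref k1 k1 [(z1,[y1,z0,z0,z1])],.contra [z1,z1],.ref k79 k3 [(z1,[z2,z1,z1,y3])],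
    .ref k79 k3 [(z1,[z1,z0,z0,y1])],.contra [z1],.ref k5 k1 [(z1,[z0,y1,y1,z2]),(z1,[z1])],.ref k1 k3 [(z2,[y1,z0,
    z1])],.ref k0 k1 [(z1,[z1])],.ref k1 k4 [(z1,[y1,z0,z0,z1])],.ref k1 k3 [(z1,[y1,y1,z0,z1])],.contra [z1,y3,y2,
    z3],.ref k5 k6 [(z1,[z1]),(z1,[z0,y2,y1,z2])],.contra [z1,y1,y1,z1],.contra [y2,z1,z1],.ref k1 k6 [(z1,[y1,y1,z0,
    z1])],.contra [z1],.ref k0 k6 [(z1,[z1])],.ref k79 k8 [(z1,[z1,z0,z0,y1])],.ref k1 k0 [(z1,[y1,z0,z0,z1])],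
    .contra [y1,y2,y1,z2],.ref k79 k3 [(z1,[z2,z3,z1,y3])],.contra [z1],.ref k1 k0 [(z2,[y1,z2,z1])],.contra [y2,z1,
    z1],.ref k1 k1 [(z1,[y1,y1,z0,z1])],.contra [z1,z2]]),
    .old (.lp [(nat_lit 28820792),(nat_lit 24890684),(nat_lit 19983600),(nat_lit 19328400),(nat_lit 24235666)] [k0,k0,
    (nat_lit 1965054),(nat_lit 1965054),(nat_lit 4418596),(nat_lit 4418596),(nat_lit 4746196),(nat_lit 4746196),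
    (nat_lit 2292563),(nat_lit 2292563)] k0 [[k0,k0,(nat_lit 9501360),k0,k0,k0,(nat_lit 8187725)],[k0,k0,k0,k0,k0,k0,
    k0,k0,k0,(nat_lit 4912635)],[k0,k0,k0,k0,(nat_lit 8187725),k0,k0,k0,(nat_lit 13755378)],[k0,(nat_lit 9501360)],
    [k0,k0,k0,k0,k0,k0,(nat_lit 6877689)],[k0,k0,k0,(nat_lit 8187725)],[k0,k0,k0,k0,k0,k0,k0,k0,(nat_lit 3275090)],
    [k0,(nat_lit 8187725),k0,k0,k0,(nat_lit 6877689)],[(nat_lit 4912635)],[k0,k0,k0,(nat_lit 13755378),k0,k0,k0,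
    (nat_lit 3275090)]] (nat_lit 78602160) k7
    [[(k2,(nat_lit 13100360)),(k6,(nat_lit 20799506)),(k4,(nat_lit 24402196)),(k8,(nat_lit 26528229)),(k0,
    (nat_lit 33733427))],[(k5,(nat_lit 14900836)),(k9,(nat_lit 18340504)),(k7,(nat_lit 24074596)),(k3,
    (nat_lit 26855738)),(k1,(nat_lit 33733427))],[(k8,(nat_lit 19650540)),(k4,(nat_lit 22437142)),(k0,
    (nat_lit 26855738)),(k6,(nat_lit 30297267)),(k2,(nat_lit 34392044))],[(k1,(nat_lit 13100360)),(k7,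
    (nat_lit 13921817)),(k5,(nat_lit 22437142)),(k9,(nat_lit 24563175)),(k3,(nat_lit 34392044))],[(k0,
    (nat_lit 14900836)),(k6,(nat_lit 19656000)),(k2,(nat_lit 22437142)),(k4,(nat_lit 28171325)),(k8,
    (nat_lit 35865011))],[(k9,(nat_lit 15231944)),(k7,(nat_lit 19656000)),(k3,(nat_lit 22437142)),(k1,
    (nat_lit 24402196)),(k5,(nat_lit 28171325))],[(k2,(nat_lit 13921817)),(k4,(nat_lit 19656000)),(k8,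
    (nat_lit 21782033)),(k0,(nat_lit 24074596)),(k6,(nat_lit 26206089))],[(k5,(nat_lit 19656000)),(k1,
    (nat_lit 20799506)),(k9,(nat_lit 21782033)),(k7,(nat_lit 26206089)),(k3,(nat_lit 30297267))],[(k4,
    (nat_lit 15231944)),(k0,(nat_lit 18340504)),(k6,(nat_lit 21782033)),(k2,(nat_lit 24563175)),(k8,
    (nat_lit 27510756))],[(k3,(nat_lit 19650540)),(k7,(nat_lit 21782033)),(k1,(nat_lit 26528229)),(k9,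
    (nat_lit 27510756)),(k5,(nat_lit 35865011))]]
    [] k0
    [[k2,k0,k0,k0,k0],[k2,k1,k0,k0,k0],[k2,k0,k1,k0,k0],[k1,k1,k0,k0,k0],[k1,k2,k0,k0,k0],[k1,k1,k1,k0,k0],[k1,k1,k0,
    k1,k0],[k1,k1,k1,k1,k0],[k1,k1,k0,k0,k1],[k1,k1,k1,k0,k1],[k1,k0,k1,k0,k0],[k1,k0,k2,k0,k0],[k1,k0,k1,k1,k0],[k1,
    k0,k0,k1,k0],[k1,k1,k0,k1,k1],[k1,k0,k0,k2,k0],[k1,k0,k0,k1,k1],[k1,k0,k1,k1,k1],[k1,k0,k0,k0,k1],[k1,k0,k1,k0,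
    k1],[k1,k0,k0,k0,k2],[k0,k2,k0,k0,k0],[k0,k1,k1,k0,k0],[k0,k1,k2,k0,k0],[k0,k1,k1,k1,k0],[k0,k1,k0,k1,k0],[k0,k1,
    k0,k2,k0],[k0,k1,k0,k1,k1],[k0,k1,k0,k0,k1],[k0,k1,k1,k0,k1],[k0,k1,k1,k1,k1],[k0,k1,k0,k0,k2],[k0,k0,k2,k0,k0],
    [k0,k0,k2,k1,k0],[k0,k0,k1,k1,k0],[k0,k0,k1,k2,k0],[k0,k0,k1,k1,k1],[k0,k0,k1,k0,k1],[k0,k0,k0,k2,k0],[k0,k0,k0,
    k2,k1],[k0,k0,k0,k1,k1],[k0,k0,k0,k1,k2],[k0,k0,k0,k0,k2]]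
    [.contra [z1],.ref k79 k4 [(z1,[z1,z0,y1])],.ref k116 k6 [(z1,[y1,z1]),(z1,[z1,y2,z2])],.ref k0 k0 [(z1,[z1])],
    .ref k79 k5 [(z1,[z1,z0,y1])],.ref k1 k3 [(z1,[y1,z0,z1])],.ref k115 k0 [(z1,[z1,y1]),(z1,[y1,z0,z1])],
    .contra [y1,z0,z1],.ref k1 k6 [(z1,[y1,z0,z1])],.contra [y1,z0,z1],.ref k108 k1 [(z1,[z1])],.ref k111 k6 [(z1,[y2,
    z1]),(z1,[z1,y1,z1])],.ref k79 k1 [(z1,[z2,y1,y1])],.contra [y1,z1],.contra [y1,z0,z1],.ref k113 k2 [(z1,[y1,z2]),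
    (z1,[y1,y1,z3])],.ref k1 k1 [(z1,[y1,z0,z1])],.contra [y1,z0,z1],.ref k0 k4 [(z1,[z1])],.ref k114 k0 [(z1,[y1,y1,
    z1]),(z1,[z1])],.ref k79 k3 [(z1,[z1,z0,y1])],.contra [z1],.contra [y2,y1,z2],.ref k79 k9 [(z1,[z1,z0,y1])],
    .ref k1 k4 [(z1,[y1,z0,z1])],.ref k108 k6 [(z1,[z1])],.ref k111 k0 [(z1,[z1,y2]),(z1,[y1,z1,z1])],
    .ref k109 k6 [(z1,[z2,z1,y2]),(z1,[y1,y1,z2])],.contra [y2,y1,z2],.contra [z1,z1,y1],.contra [y1,z0,z1],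
    .ref k5 k4 [(z1,[z0,z1]),(z1,[z1])],.contra [z1],.ref k79 k1 [(z1,[z1,z0,y1])],.ref k0 k6 [(z1,[z1])],
    .ref k79 k8 [(z1,[z1,z0,y1])],.ref k1 k0 [(z1,[y1,z0,z1])],.contra [y2,y1,z2],.contra [z1],.ref k79 k6 [(z1,[z1,
    z0,y1])],.ref k0 k3 [(z1,[z1])],.ref k1 k1 [(z2,[y1,y1,z2])],.contra [z1]]),
    .old (.lp [k128,k188,k120,k160,k122] [k30,k30,k0,k0,k34,k34,k14,k14,k33,k33] k0 [[k0,k0,k0,k0,k0,k0,k2,k0,k12],[k0,k0,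
    k0,k0,k0,k4],[k0,k0,k0,k0,k0,k0,k0,k0,k2],[k0,k0,k0,k0,k0,k0,k0,k40],[k4],[],[k0,k0,k40],[k0,k2,k0,k0,k0,k0,k0,k0,
    k0,k4],[k0,k0,k0,k0,k0,k0,k4],[k0,k12,k0,k2]] (nat_lit 480) k6
    [[(k0,k116),(k4,k124),(k8,k125),(k6,k148),(k2,k156)],[(k1,k116),(k9,k123),(k5,k124),(k7,k148),(k3,k158)],[(k4,
    k150),(k0,k158),(k8,k167),(k6,k176),(k2,k188)],[(k5,k154),(k1,k156),(k7,k174),(k3,k188),(k9,k195)],[(k6,k100),(k4,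
    k120),(k8,k123),(k0,k124),(k2,k154)],[(k5,k120),(k9,k121),(k1,k124),(k7,k140),(k3,k150)],[(k4,k140),(k8,k141),(k0,
    k148),(k6,k160),(k2,k174)],[(k5,k100),(k9,k141),(k1,k148),(k7,k160),(k3,k176)],[(k8,k118),(k4,k121),(k0,k123),(k6,
    k141),(k2,k195)],[(k9,k118),(k5,k123),(k1,k125),(k7,k141),(k3,k167)]]
    [] k0
    [[k2,k0,k0,k0,k0],[k3,k0,k0,k0,k0],[k4,k0,k0,k0,k0],[k2,k1,k0,k0,k0],[k2,k0,k1,k0,k0],[k2,k0,k0,k1,k0],[k2,k0,k0,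
    k0,k1],[k1,k1,k0,k0,k0],[k1,k1,k1,k0,k0],[k1,k1,k0,k0,k1],[k1,k0,k1,k0,k0],[k1,k0,k2,k0,k0],[k1,k0,k1,k1,k0],[k1,
    k0,k1,k0,k1],[k1,k0,k0,k1,k0],[k1,k0,k0,k2,k0],[k1,k0,k0,k1,k1],[k1,k0,k0,k0,k1],[k1,k0,k0,k0,k2],[k0,k2,k0,k0,
    k0],[k0,k1,k1,k0,k0],[k0,k1,k2,k0,k0],[k0,k1,k1,k1,k0],[k0,k1,k1,k0,k1],[k0,k1,k0,k1,k0],[k0,k1,k0,k0,k1],[k0,k0,
    k2,k0,k0],[k0,k0,k3,k0,k0],[k0,k0,k2,k1,k0],[k0,k0,k2,k0,k1],[k0,k0,k1,k1,k0],[k0,k0,k1,k2,k0],[k0,k0,k1,k1,k1],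
    [k0,k0,k1,k0,k1],[k0,k0,k1,k0,k2],[k0,k0,k0,k2,k0],[k0,k0,k0,k2,k1],[k0,k0,k0,k1,k1],[k0,k0,k0,k1,k2],[k0,k0,k0,
    k0,k2],[k0,k0,k0,k0,k3],[k0,k0,k0,k0,k4]]
    [.contra [z1],.ref k79 k3 [(z1,[z1,y2,z0,y1])],.ref k1 k4 [(z2,[z1,y2])],.ref k1 k6 [(z1,[y1,z1,z0,z1])],
    .contra [z1,z0,z1,y1],.ref k1 k1 [(z1,[y1,z1,z0,z1])],.ref k79 k3 [(z1,[z1,y1,z0,y1])],.contra [y1,z1,z1],
    .contra [z1,z0,z1,y1],.ref k1 k6 [(z1,[y1,z0,z0,z1])],.contra [y1,z0,y2,z2],.contra [z1,z0,z1,y1],.contra [z1,z0,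
    z1,y1],.contra [z1,z1,z1,y1],.contra [y1,z1,z1],.ref k79 k6 [(z1,[z1,y1,z0,y1])],.ref k1 k1 [(z1,[y1,z0,z0,z1])],
    .contra [z1,z1],.ref k79 k3 [(z1,[z1,z0,z0,y1])],.contra [z1],.ref k0 k1 [(z1,[z1])],.ref k79 k9 [(z1,[z1,z0,z0,
    y1])],.ref k1 k4 [(z1,[y1,z0,z0,z1])],.contra [z1,z1,z1,y1],.contra [z1,y1,y2,z1],.contra [y1,z0,z1],.contra [z1],
    .ref k55 k5 [(z1,[z0,z0,z1]),(z1,[y1,z0,y3,z3])],.ref k79 k1 [(z1,[z1,z0,z0,y1])],.contra [z1,z1,z1,y1],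
    .ref k0 k6 [(z1,[z1])],.ref k79 k8 [(z1,[z1,z0,z0,y1])],.contra [z1,z1,z1,y1],.contra [y1,y1,y2,z2],.contra [z1,
    z2,z1,y1],.contra [z1],.ref k79 k6 [(z1,[z1,z0,z0,y1])],.contra [y1,z0,z1],.ref k1 k1 [(z1,[y1,y1,z0,z1])],
    .contra [z1,z2],.ref k79 k3 [(z1,[z1,z1,z0,y1])],.ref k1 k4 [(z2,[z1,z2])]]),
    .old (.lp [(nat_lit 524),(nat_lit 698),(nat_lit 550),(nat_lit 464),(nat_lit 640)] [k87,k87,k0,k0,k74,k74,k117,k117,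
    k29,k29] k0 [[k0,k0,k0,k0,k0,k0,k0,k0,k58],[],[k0,k0,k0,k0,k198],[k0,k0,k0,k0,k0,k0,k0,k58],[k0,k0,k0,k0,k0,k0,
    k18],[k0,k0,k0,k198,k0,k0,k0,k0,k0,k98],[k0,k0,k58],[k0,k0,k0,k0,k0,k18],[k0,k0,k0,k0,k98],[k0,
    k58]] (nat_lit 1920) k6
    [[(k0,(nat_lit 466)),(k6,(nat_lit 494)),(k8,(nat_lit 582)),(k2,(nat_lit 611)),(k4,(nat_lit 635))],[(k1,
    (nat_lit 466)),(k7,(nat_lit 494)),(k5,(nat_lit 537)),(k9,(nat_lit 582)),(k3,(nat_lit 611))],[(k6,(nat_lit 581)),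
    (k0,(nat_lit 611)),(k4,(nat_lit 624)),(k2,(nat_lit 698)),(k8,(nat_lit 727))],[(k7,(nat_lit 383)),(k1,
    (nat_lit 611)),(k5,(nat_lit 624)),(k3,(nat_lit 698)),(k9,(nat_lit 727))],[(k6,(nat_lit 449)),(k0,(nat_lit 537)),
    (k8,(nat_lit 595)),(k2,(nat_lit 624)),(k4,(nat_lit 748))],[(k7,(nat_lit 507)),(k9,(nat_lit 577)),(k3,
    (nat_lit 624)),(k1,(nat_lit 635)),(k5,(nat_lit 748))],[(k2,(nat_lit 383)),(k8,(nat_lit 454)),(k6,(nat_lit 482)),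
    (k0,(nat_lit 494)),(k4,(nat_lit 507))],[(k5,(nat_lit 449)),(k7,(nat_lit 482)),(k1,(nat_lit 494)),(k9,
    (nat_lit 552)),(k3,(nat_lit 581))],[(k6,(nat_lit 552)),(k4,(nat_lit 577)),(k0,(nat_lit 582)),(k8,(nat_lit 640)),
    (k2,(nat_lit 727))],[(k7,(nat_lit 454)),(k1,(nat_lit 582)),(k5,(nat_lit 595)),(k9,(nat_lit 640)),(k3,
    (nat_lit 727))]]
    [] k0
    [[k2,k0,k0,k0,k0],[k3,k0,k0,k0,k0],[k4,k0,k0,k0,k0],[k2,k1,k0,k0,k0],[k2,k0,k1,k0,k0],[k2,k0,k0,k1,k0],[k2,k0,k0,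
    k0,k1],[k1,k1,k0,k0,k0],[k1,k1,k1,k0,k0],[k1,k1,k0,k1,k0],[k1,k0,k1,k0,k0],[k1,k0,k1,k1,k0],[k1,k0,k1,k0,k1],[k1,
    k0,k0,k1,k0],[k1,k0,k0,k2,k0],[k1,k0,k0,k1,k1],[k1,k0,k0,k0,k1],[k1,k0,k0,k0,k2],[k0,k2,k0,k0,k0],[k0,k2,k0,k1,
    k0],[k0,k1,k1,k0,k0],[k0,k1,k1,k1,k0],[k0,k1,k0,k1,k0],[k0,k1,k0,k2,k0],[k0,k1,k0,k1,k1],[k0,k1,k0,k0,k1],[k0,k0,
    k2,k0,k0],[k0,k0,k2,k1,k0],[k0,k0,k1,k1,k0],[k0,k0,k2,k2,k0],[k0,k0,k1,k2,k0],[k0,k0,k1,k1,k1],[k0,k0,k1,k0,k1],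
    [k0,k0,k1,k0,k2],[k0,k0,k0,k2,k0],[k0,k0,k0,k3,k0],[k0,k0,k0,k2,k1],[k0,k0,k0,k1,k1],[k0,k0,k0,k1,k2],[k0,k0,k0,
    k0,k2]]
    [.contra [z1],.ref k55 k7 [(z1,[z0,y1,z1]),(z1,[y1,z3])],.ref k56 k3 [(z1,[z0,y1,z1]),(z2,[z1])],.ref k79 k4 [(z1,
    [z1,z0,y1])],.ref k117 k2 [(z1,[z1])],.contra [z1,y1],.ref k79 k2 [(z1,[z1,z0,y1])],.ref k0 k0 [(z1,[z1])],
    .ref k1 k3 [(z1,[y1,z0,z1])],.contra [z1,y1],.ref k108 k1 [(z1,[z1])],.contra [z1,y1],.ref k118 k2 [(z1,[z1,z1,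
    y1]),(z1,[z0,y1,z1])],.contra [y1,z2],.contra [z1,y1],.contra [z1,y1],.ref k0 k4 [(z1,[z1])],.ref k79 k3 [(z1,[z1,
    z0,y1])],.contra [z1],.ref k117 k5 [(z1,[z1])],.contra [y1,y1,z1],.ref k1 k4 [(z1,[y1,z0,z1])],.ref k108 k6 [(z1,
    [z1])],.ref k117 k6 [(z1,[z1])],.ref k118 k9 [(z1,[y1,y1,z1]),(z1,[z1])],.contra [y1,y1,z1],.contra [z1],
    .ref k79 k1 [(z1,[z1,z0,y1])],.ref k0 k6 [(z1,[z1])],.ref k1 k6 [(z2,[z1])],.ref k79 k8 [(z1,[z1,z0,y1])],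
    .ref k1 k0 [(z1,[y1,z0,z1])],.contra [y1,y1,z1],.ref k79 k0 [(z1,[y1,y2,z1])],.contra [z1],.ref k55 k3 [(z1,[z0,
    y1,z1]),(z1,[y1,z3])],.ref k79 k6 [(z1,[z1,z0,y1])],.ref k0 k3 [(z1,[z1])],.ref k79 k7 [(z1,[z1,z0,y1])],
    .contra [z1]])]

noncomputable def cU5_0_n1_1 : List XN :=
  [.old (.lp [(nat_lit 684),(nat_lit 534),(nat_lit 676),(nat_lit 426),(nat_lit 552)] [k80,k54,k142,k142,k0,k142,k196,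
    k196,k142,k124] k0 [[k0,k0,k116,k0,k60],[],[],[k0,k116,k0,k0,k0,k0,k0,k0,k0,k52],[k0,k0,k0,k0,k0,k0,
    (nat_lit 214)],[k0,k60],[k0,k0,k0,k0,k0,k0,k0,k0,k88],[k0,k0,k0,k0,k0,(nat_lit 214)],[k0,k0,k52],[k0,k0,k0,k0,k0,
    k0,k0,k88]] (nat_lit 1920) k5
    [[(k6,(nat_lit 480)),(k8,(nat_lit 622)),(k2,(nat_lit 674)),(k0,(nat_lit 684)),(k4,(nat_lit 764))],[(k5,
    (nat_lit 480)),(k7,(nat_lit 482)),(k3,(nat_lit 596)),(k9,(nat_lit 614)),(k1,(nat_lit 684))],[(k6,(nat_lit 480)),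
    (k8,(nat_lit 534)),(k0,(nat_lit 596)),(k2,(nat_lit 650)),(k4,(nat_lit 736))],[(k7,(nat_lit 480)),(k5,
    (nat_lit 534)),(k9,(nat_lit 552)),(k3,(nat_lit 650)),(k1,(nat_lit 674))],[(k0,(nat_lit 480)),(k6,(nat_lit 480)),
    (k8,(nat_lit 482)),(k2,(nat_lit 534)),(k4,(nat_lit 676))],[(k9,(nat_lit 480)),(k7,(nat_lit 622)),(k5,
    (nat_lit 676)),(k3,(nat_lit 736)),(k1,(nat_lit 764))],[(k2,(nat_lit 480)),(k8,(nat_lit 480)),(k0,(nat_lit 482)),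
    (k4,(nat_lit 622)),(k6,(nat_lit 640))],[(k1,(nat_lit 480)),(k3,(nat_lit 480)),(k5,(nat_lit 480)),(k9,
    (nat_lit 498)),(k7,(nat_lit 640))],[(k4,(nat_lit 480)),(k6,(nat_lit 498)),(k2,(nat_lit 552)),(k0,(nat_lit 614)),
    (k8,(nat_lit 640))],[(k7,(nat_lit 480)),(k5,(nat_lit 482)),(k3,(nat_lit 534)),(k1,(nat_lit 622)),(k9,
    (nat_lit 640))]]
    [] k0
    [[k2,k0,k0,k0,k0],[k2,k0,k0,k1,k0],[k1,k1,k0,k0,k0],[k1,k1,k1,k0,k0],[k1,k1,k0,k1,k0],[k1,k1,k0,k0,k1],[k1,k0,k1,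
    k0,k0],[k1,k0,k1,k1,k0],[k1,k0,k1,k0,k1],[k1,k0,k0,k1,k0],[k1,k0,k0,k2,k0],[k1,k0,k0,k1,k1],[k1,k0,k0,k0,k1],[k1,
    k0,k0,k0,k2],[k0,k2,k0,k0,k0],[k0,k2,k0,k1,k0],[k0,k2,k0,k0,k1],[k0,k1,k1,k0,k0],[k0,k1,k1,k1,k0],[k0,k1,k1,k0,
    k1],[k0,k1,k0,k1,k0],[k0,k1,k0,k2,k0],[k0,k1,k0,k1,k1],[k0,k1,k0,k0,k1],[k0,k1,k0,k0,k2],[k0,k0,k2,k0,k0],[k0,k0,
    k2,k1,k0],[k0,k0,k2,k0,k1],[k0,k0,k1,k1,k0],[k0,k0,k1,k2,k0],[k0,k0,k1,k1,k1],[k0,k0,k1,k0,k1],[k0,k0,k1,k0,k2],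
    [k0,k0,k0,k2,k0],[k0,k0,k0,k2,k1],[k0,k0,k0,k1,k1],[k0,k0,k0,k1,k2],[k0,k0,k0,k0,k2]]
    [.contra [z1],.ref k117 k4 [(z1,[z1])],.ref k0 k0 [(z1,[z1])],.ref k1 k3 [(z1,[y1,z1])],.ref k119 k3 [(z1,[y1,
    z1])],.ref k1 k6 [(z1,[y1,z1])],.ref k108 k1 [(z1,[z1])],.ref k119 k0 [(z1,[y1,z1])],.ref k119 k6 [(z1,[y1,z1])],
    .ref k108 k4 [(z1,[z1])],.ref k117 k8 [(z1,[z1])],.ref k1 k1 [(z1,[y1,z1])],.ref k0 k4 [(z1,[z1])],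
    .ref k79 k3 [(z1,[z1,y1])],.contra [z1],.ref k117 k5 [(z1,[z1])],.ref k117 k0 [(z1,[z1])],.ref k0 k1 [(z1,[z1])],
    .ref k1 k4 [(z1,[y1,z1])],.ref k119 k4 [(z1,[y1,z1])],.ref k108 k6 [(z1,[z1])],.ref k117 k6 [(z1,[z1])],
    .ref k119 k1 [(z1,[y1,z1])],.ref k108 k0 [(z1,[z1])],.ref k117 k7 [(z1,[z1])],.contra [z1],.ref k79 k1 [(z1,[z1,
    y1])],.ref k117 k9 [(z1,[z1])],.ref k0 k6 [(z1,[z1])],.ref k79 k8 [(z1,[z1,y1])],.ref k1 k0 [(z1,[y1,z1])],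
    .ref k108 k3 [(z1,[z1])],.ref k117 k3 [(z1,[z1])],.contra [z1],.ref k79 k6 [(z1,[z1,y1])],.ref k0 k3 [(z1,[z1])],
    .ref k79 k7 [(z1,[z1,y1])],.contra [z1]])]

/-- the nodes with numbers from 108 -/
noncomputable def cU5_0_n1 : List XN :=
  cU5_0_n1_0 ++ cU5_0_n1_1

theorem cU5_0_k1 : allI (chkX 5 cU5_0_w ttU5 cU5_0_s (blkF [] cU5_0_D)) cU5_0_n1 108 = true := by
  decide +kernel

end Pool.Agent.Lib_MP_fa6e45
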