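import Pool.Agent.Lib_MP_fa6e45.CXA
import Pool.Agent.Lib_MP_fa6e45.CY5_0_0
import Pool.Agent.Lib_MP_fa6e45.CY5_0_1

/-!
MP_fa6e45_co, stage 7: certificates (generated by a program).
-/

namespace Pool.Agent.Lib_MP_fa6e45

/-- the certificate -/
noncomputable def cU5_0 : CertX :=
  ⟨cU5_0_w, cU5_0_s, cU5_0_D,
    cU5_0_n0 ++ cU5_0_n1⟩

theorem cU5_0_ok : chkE 5 ttU5 cU5_0 = true := by
  refine chkE_of (by decide +kernel) (by decide +kernel) ?_
  refine allI_appX (k := 108) cU5_0_k0 (by decide +kernel) ?_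
  exact cU5_0_k1

/-- the certificates of this file -/
noncomputable def lU5_0 : List CertX := [cU5_0]

theorem gU5_0 : allF (chkE 5 ttU5) lU5_0 = true := by
  unfold lU5_0
  change (bif chkE 5 ttU5 cU5_0 then true else false) = true
  rw [cU5_0_ok]
  rfl

end Pool.Agent.Lib_MP_fa6e45
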