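import Pool.Agent.Lib_MP_fa6e45.CXT
import Pool.Agent.Lib_MP_fa6e45.HK

/-!
MP_fa6e45_co, stage 7: certificates (generated by a program).
-/

namespace Pool.Agent.Lib_MP_fa6e45

/-- classes `0 0 0 0 0`, types `C0 C0 C0 C0 C0` -/
noncomputable def cU5_0_w : List ℕ := [k4,k4,k4,k4,k4]

/-- symmetries -/
noncomputable def cU5_0_s : List (Bool × ℕ × List ℕ) :=
  [(false,k4,[k4,k0,k1,k2,k3]),(false,k3,[k3,k4,k0,k1,k2]),(true,k0,[k0,k4,k3,k2,k1]),(false,k1,[k1,k2,k3,k4,k0]),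
    (false,k0,[k0,k1,k2,k3,k4]),(true,k1,[k1,k0,k4,k3,k2]),(false,k2,[k2,k3,k4,k0,k1]),(true,k4,[k4,k3,k2,k1,k0]),
    (true,k3,[k3,k2,k1,k0,k4]),(true,k2,[k2,k1,k0,k4,k3])]

/-- equations of the nodes, part 0 -/
noncomputable def cU5_0_D0 : List (List (List Eqn)) :=
  [[[([z1,z0,z0,z0,z1],z2)],[([z1,z0,z0,z0,z1],z1)],[([z1,z0,z0,y2,y2],z0),([z0,z1,z0,z1,z1],z1)],[([z1,z0,z0,y2,z1],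
    z0),([z0,z1,z0,z1,z0],z1)],[([z1,z0,z0,y2,z0],z0),([z0,z1,z0,z1,z0],z1)],[([z2,z0,z0,z1,z0],z2),([z0,z1,z0,z0,z2],
    z2)],[([z1,z0,z0,z0,y4],y2),([z0,z1,z0,z0,y5],y3),([z0,z0,z1,z0,z8],z6)],[([z3,z0,z0,z0,y3],y1),([z0,z1,z0,z0,z2],
    z2),([z0,z0,z3,z0,z0],z2)],[([z2,z2,z0,z0,z0],z1),([z0,z0,z1,z0,z1],z2)],[([z3,z3,z0,z0,z0],z2),([z0,z0,z1,z0,z1],
    z2)],[([z1,z0,z0,z2,z1],z2),([z0,z1,z0,y1,y1],y1)],[([z9,z0,z0,z0,z0],z2),([z0,z9,z0,z0,z0],z8),([z0,z0,z9,z0,z0],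
    z4),([z0,z0,z0,z3,z0],z1)]],
    [[([z1,z0,z0,z0,y3],y1),([z0,z1,z0,z0,z2],z2),([z0,z0,z1,z0,z4],z2)],[([z1,z0,z0,z0,y5],y3),([z0,z1,z0,z0,z2],z2),
    ([z0,z0,z1,z0,z8],z6)],[([z1,z0,z0,z0,y3],y2),([z0,z1,z0,z0,z2],z2),([z0,z0,z2,z0,z3],z4)],[([z1,z0,z0,z0,y2],y1),
    ([z0,z1,z0,z0,y3],y2),([z0,z0,z1,z0,z4],z4)],[([z1,z0,z0,z0,y4],y2),([z0,z1,z0,z0,z2],z2),([z0,z0,z1,z0,z6],z4)],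
    [([z3,z0,z0,y3,z0],y1),([z0,z3,z0,z0,z0],z2),([z0,z0,z1,z2,z0],z2)],[([z1,z0,z0,y1,y1],y1),([z0,z1,z0,z0,z2],z2)],
    [([z1,z0,z0,z0,y2],y1),([z0,z1,z0,z0,y1],z0),([z0,z0,z1,z0,z2],z2)],[([z1,z0,z0,z0,y3],y1),([z0,z1,z0,z0,y2],z0),
    ([z0,z0,z1,z0,z4],z2)],[([z1,z0,z0,z0,y3],y1),([z0,z1,z0,z0,z6],z4),([z0,z0,z1,z0,y4],y2)],[([z2,z0,z0,z0,y3],z0),
    ([z0,z1,z0,z0,z3],z2),([z0,z0,z1,z0,y1],z0)],[([z1,z0,z0,z0,y4],y2),([z0,z1,z0,z0,y3],y1),([z0,z0,z1,z0,z6],z4)]],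
    [[([z3,z0,z0,z0,y3],y1),([z0,z3,z0,z0,z0],z2),([z0,z0,z3,z0,z0],z2)],[([z1,z0,z0,z0,y5],y3),([z0,z1,z0,z0,y4],y2),
    ([z0,z0,z1,z0,z8],z6)],[([z2,z0,z0,z0,z1],z2),([z0,z2,z0,z1,z1],z2)],[([z5,z0,z0,z0,y6],y2),([z0,z1,z0,z0,z2],z2),
    ([z0,z0,z5,z0,y1],z3)],[([z4,z0,z0,z0,y5],y2),([z0,z1,z0,z0,z2],z2),([z0,z0,z4,z0,y1],z2)],[([z3,z0,z0,z0,y5],y2),
    ([z0,z1,z0,z0,z2],z2),([z0,z0,z3,z0,y2],z1)],[([z3,z0,z0,z0,y4],y2),([z0,z1,z0,z0,z2],z2),([z0,z0,z3,z0,y1],z1)],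
    [([z1,z0,z0,z0,y6],y4),([z0,z1,z0,z0,z2],z2),([z0,z0,z1,z0,z3],z3)],[([z1,z0,z0,z0,y2],y1),([z0,z2,z0,z0,z0],z1),
    ([z0,z0,z2,z0,z2],z3)],[([z1,z0,z0,z0,y8],y6),([z0,z1,z0,z0,z3],z3),([z0,z0,z1,z0,z4],z4)],[([z1,z0,z0,z0,y6],y4),
    ([z0,z1,z0,z0,z3],z3),([z0,z0,z1,z0,z2],z2)],[([z3,z0,z0,z0,y6],y4),([z0,z3,z0,z0,z0],z2),([z0,z0,z3,z0,z3],z5)]],
    [[([z1,z0,z0,z0,y4],y2),([z0,z1,z0,z0,z2],z2),([z0,z0,z1,z0,y3],y1)],[([z4,z0,z0,y4,z0],y1),([z0,z4,z0,z0,z0],z3),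
    ([z0,z0,z1,z2,z0],z2)],[([z2,z0,z0,y2,y1],z0),([z0,z1,z0,z2,z1],z2)],[([z2,z0,z0,z0,y3],y2),([z0,z1,z0,z0,z1],z2),
    ([z0,z0,z2,z0,y1],z0)],[([z4,z0,z0,z0,y5],y2),([z0,z2,z0,z0,z1],z2),([z0,z0,z4,z0,y1],z2)],[([z1,z0,z0,y2,z0],y1),
    ([z0,z2,z0,z2,z0],z3),([z0,z0,z1,z2,z0],z2)],[([z3,z0,z0,z0,y4],y2),([z0,z3,z0,z0,z2],z4),([z0,z0,z3,z0,y1],z1)],
    [([z1,z0,y1,z0,y1],y1),([z0,z1,z2,z0,z0],z2)],[([z1,z0,z0,z1,z0],z2),([z0,z1,z0,z1,z0],z2)],[([z3,z0,z0,z0,z0],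
    z2),([z0,z1,z0,z0,z1],z2)],[([z1,z0,z0,z0,y2],y2),([z0,z1,z0,z0,z1],z2),([z0,z0,z2,z0,y1],z0)],[([z1,z0,z0,z0,y4],
    y2),([z0,z1,z0,z0,z3],z2),([z0,z0,z1,z0,y2],y1)]],
    [[([z1,z0,z0,z0,y6],y2),([z0,z1,z0,z0,z3],z2),([z0,z0,z1,z0,y2],y1)],[([z1,z0,z0,z0,y3],z0),([z0,z2,z0,z0,z5],z2),
    ([z0,z0,z2,z0,y3],z0)],[([z1,z0,z0,z0,y6],y2),([z0,z1,z0,z0,z4],z2),([z0,z0,z1,z0,y3],y1)],[([z5,z0,z0,z0,z0],z2),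
    ([z0,z1,z0,z0,z1],z2),([z0,z0,z10,z0,y5],y4)],[([z1,z0,z0,z0,y2],y1),([z0,z1,z0,z0,y2],z0),([z0,z0,z1,z0,z3],z2)],
    [([z1,z0,z0,z0,y3],z0),([z0,z2,z0,z0,z3],z2),([z0,z0,z2,z0,y1],z0)],[([z1,z0,z0,y2,z0],z0),([z0,z1,z0,z1,z1],z1)],
    [([z1,z0,z1,z1,z0],z2),([z0,z3,z0,z0,z0],z1)],[([z1,z0,z1,z1,z0],z2),([z0,z2,z0,z0,z0],z1)],[([z1,z0,z0,y1,z0],
    z0),([z0,z1,z0,z0,z1],z1)],[([z1,z0,z0,z0,y5],y3),([z0,z1,z0,z0,z8],z6),([z0,z0,z1,z0,z2],z2)],[([z1,z0,z0,z0,y4],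
    y2),([z0,z1,z0,z0,y2],y1),([z0,z0,z1,z0,z5],z4)]],
    [[([z1,z0,z0,z0,y5],y3),([z0,z1,z0,z0,y4],y2),([z0,z0,z1,z0,z2],z2)],[([z2,z0,z0,y3,z2],z0),([z0,z1,z0,z2,z0],
    z2)],[([z5,z0,z0,z0,z0],z2),([z0,z5,z0,z0,z0],z4),([z0,z0,z5,z0,z5],z3)],[([z2,z0,z0,z0,y5],y2),([z0,z1,z0,z0,z2],
    z2),([z0,z0,z1,z0,z1],z1)],[([z1,z0,z0,y4,z0],y2),([z0,z1,z0,z3,z1],z3)],[([z2,z0,z0,z0,z1],z2),([z0,z4,z0,z0,y1],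
    z2)],[([z1,z0,z0,z0,y3],z0),([z0,z1,z0,z0,z6],z2),([z0,z0,z1,z0,y5],y1)],[([z1,z0,z0,z0,y3],y3),([z0,z1,z0,z0,z1],
    z2),([z0,z0,z1,z0,y2],y2)],[([z1,z0,z0,y2,z0],y2),([z0,z1,z0,z1,z0],z2)],[([z7,z0,z0,z0,z0],z2),([z0,z7,z0,z0,z0],
    z6),([z0,z0,z7,z7,z0],z5)],[([z9,z0,z0,z0,z0],z2),([z0,z9,z0,z0,z0],z8),([z0,z0,z9,z9,z0],z7)],[([z1,z0,z0,y2,z1],
    y1),([z0,z1,z0,z1,z0],z2)]],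
    [[([z1,z0,z0,z0,y2],y1),([z0,z1,z0,z0,y2],y1),([z0,z0,z1,z0,z3],z3)],[([z5,z0,z0,z0,z0],z2),([z0,z5,z0,z0,z0],z4),
    ([z0,z0,z5,z0,z5],z6)],[([z1,z0,z0,y2,z0],y1),([z0,z1,z0,z1,z1],z2)],[([z1,z0,z0,y2,y2],y2),([z0,z1,z0,z1,z1],
    z2)],[([z2,z0,z0,y3,z2],z0),([z0,z2,z0,z1,z0],z2)],[([z3,z0,z0,z0,z0],z2),([z0,z3,z0,z0,z0],z2)],[([z1,z0,z0,y3,
    z1],y1),([z0,z1,z0,z2,z0],z2)],[([z1,z0,y1,y1,y1],y1)],[([z1,z0,z0,z0,y2],z0),([z0,z3,z0,z0,z3],z1),([z0,z0,z1,z0,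
    z2],z2)],[([z1,z0,z0,z0,y1],y1),([z0,z3,z0,z0,z0],z2),([z0,z0,z1,z0,z1],z2)],[([z3,z0,z0,z0,y6],z2),([z0,z3,z0,z0,
    z0],z2),([z0,z0,z3,z0,z3],z1)],[([z9,z0,z0,z0,z0],z1),([z0,z1,z0,z0,z1],z2),([z0,z0,z9,z0,z0],z2)]],
    [[([z6,z0,z0,z0,z0],z1),([z0,z3,z0,z0,z0],z2),([z0,z0,z1,z0,z1],z2)],[([z3,z0,z0,z0,z0],z2),([z0,z3,z0,z3,z0],
    z1)],[([z2,z0,z0,y6,z0],z1),([z0,z2,z0,z2,z0],z1),([z0,z0,z2,z6,z0],z3)],[([z10,z0,z0,z0,z0],z1),([z0,z2,z0,z0,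
    z0],z1),([z0,z0,z1,z0,z1],z2)],[([z1,z0,z0,z0,y3],z0),([z0,z2,z0,z0,z0],z1),([z0,z0,z2,z0,z2],z1)],[([z1,z0,z0,z0,
    y4],z0),([z0,z2,z0,z0,z0],z1),([z0,z0,z2,z0,z2],z1)],[([z2,z0,z0,z0,z0],z1),([z0,z2,z0,z2,z0],z1)],[([z1,z0,z0,y2,
    z0],y1),([z0,z1,z0,z3,z0],z2),([z0,z0,z3,z0,z0],z2)],[([z1,z0,z0,z0,y3],y1),([z0,z1,z0,z0,y2],y1),([z0,z0,z1,z0,
    z3],z2)],[([z1,z0,z0,z0,y2],y1),([z0,z1,z0,z0,z1],z2),([z0,z0,z1,z0,y4],y3)],[([z1,z0,z0,y2,z0],y1),([z0,z1,z0,z3,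
    z0],z2)],[([z1,z0,z0,z0,y3],z0),([z0,z1,z0,z0,y2],z0),([z0,z0,z1,z0,z3],z1)]],
    [[([z1,z0,z0,z0,y1],y1),([z0,z5,z0,z0,z5],z8),([z0,z0,z1,z0,z1],z2)],[([z5,z0,z0,z0,z0],z2),([z0,z5,z0,z0,z5],z2),
    ([z0,z0,z5,z0,z0],z3)],[([z1,z0,z0,z0,y1],y1),([z0,z1,z0,z1,z1],z2)],[([z1,z0,z0,z0,y3],z0),([z0,z2,z0,z0,z3],z1),
    ([z0,z0,z2,z0,y1],z1)],[([z1,z0,z0,z0,y6],y3),([z0,z1,z0,z0,y2],y1),([z0,z0,z1,z0,z6],z5)],[([z1,z0,z0,z0,y8],y4),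
    ([z0,z1,z0,z0,y2],y1),([z0,z0,z1,z0,z8],z6)],[([z1,z0,z0,y2,z0],y1),([z0,z1,z0,z0,z1],z2)],[([z1,z0,z0,z0,y4],z0),
    ([z0,z1,z0,z0,y2],z0),([z0,z0,z1,z0,z3],z1)],[([z1,z0,z0,z0,y3],z0),([z0,z1,z0,z0,y1],z0),([z0,z0,z1,z0,z2],z1)],
    [([z1,z0,z0,y1,y2],z0),([z0,z1,z0,z1,z1],z1)],[([z1,z0,z0,y2,z0],z0),([z0,z1,z0,z3,z0],z1)],[([z1,z0,z0,z0,y2],
    z0),([z0,z1,z0,z1,z1],z1)]],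
    [[([z1,z0,z0,z1,z0],z2)],[([z1,z0,z0,z0,y2],z0),([z0,z1,z0,z1,z2],z2)],[([z1,z0,z0,z0,y4],y2),([z0,z1,z0,z0,z6],
    z4),([z0,z0,z1,z0,z2],z2)],[([z1,z0,z0,z0,y4],y2),([z0,z1,z0,z1,z3],z3)],[([z3,z0,z0,z0,y3],y1),([z0,z3,z0,z0,z0],
    z2),([z0,z0,z1,z0,z2],z2)],[([z3,z0,z0,z0,z0],z2),([z0,z3,z0,z3,z3],z5)],[([z1,z0,z0,z0,y2],y1),([z0,z1,z0,z1,z1],
    z2)],[([z1,z0,z0,z0,y1],z0),([z0,z1,z0,z1,z0],z1)],[([z1,z0,z0,z0,y1],z0),([z0,z2,z0,z2,z3],z4)],[([z2,z0,z0,z1,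
    z0],z2)],[([z1,z0,z0,z0,y1],z0),([z0,z1,z0,z1,z1],z2)],[([z1,z0,z0,z1,z0],z1)]],
    [[]]]

/-- equations of the nodes -/
noncomputable def cU5_0_D : List (List (List Eqn)) :=
  cU5_0_D0

end Pool.Agent.Lib_MP_fa6e45
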