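import Pool.Agent.Lib_MP_fa6e45.CXT
import Pool.Agent.Lib_MP_fa6e45.HK

/-!
MP_fa6e45_co, stage 7: certificates (generated by a program).
-/

namespace Pool.Agent.Lib_MP_fa6e45

/-- classes `0 0 0 0 0`, types `C0 C0 C0 C0 C2` -/
noncomputable def cU5_1 : CertX :=
  ⟨[k4,k4,k4,k4,k6],[(true,k4,[k4,k3,k2,k1,k0]),(false,k0,[k0,k1,k2,k3,k4])],[[[([z1,z0,z0,z1,z1],z1)],[([z1,z0,z0,z0,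
    z1],z1)],[([z1,z0,z0,z0,z1],z2)],[([z1,z0,z0,z1,z1],z2)],[([z2,z0,z0,y1,z2],z0),([z0,z1,z0,z1,z0],z2)],[([z3,z0,
    z0,z0,z3],z1),([z0,z1,z0,z1,z0],z2)],[([z2,z0,z0,z0,z2],z1),([z0,z1,z0,z1,z0],z2)],[([z3,z0,z0,z0,z3],z2),([z0,z1,
    z0,z1,z0],z2)],[([z1,z0,z1,z0,z1],z1)],[([z1,z0,z1,z0,z1],z2),([z0,z3,z0,z0,z0],z1)],[([z1,z0,z1,z0,z1],z2),([z0,
    z2,z0,z0,z0],z1)],[([z1,z0,z0,y2,z1],z0),([z0,z1,z0,z1,z0],z1)]],[[([z1,z0,z1,z0,z1],z2)],[]]],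
    [.old (.leafM k0 [k0,k3,k4] [] [(k1,k2,z1,[y1,z1]),(k2,k1,z1,[y1,z1])]),
    .old (.leafM k1 [k3,k4,k0,k1,k2] [(z1,[z1])] []),
    .old (.leafM k0 [k1,k2,k3] [] [(k4,k0,z1,[z1]),(k0,k4,z1,[z1])]),
    .old (.leafM k1 [k0,k1,k2,k3,k4] [(z1,[y1,z1])] []),
    .old (.tor k2 true k3 [(z1,[z1,z1]),(z1,[z0,z1]),(z1,[y1,y2,z2])]),
    .old (.leafM k2 [k0,k2,k4] [(z1,[y1,y3,z3]),(z1,[z1])] [(k1,k3,z1,[z0,z1]),(k3,k1,z1,[z0,z1])]),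
    .old (.leafM k3 [k0,k2,k4] [(z1,[y1,y2,z2]),(z1,[z1])] [(k1,k3,z1,[z0,z1]),(k3,k1,z1,[z0,z1])]),
    .old (.leafM k4 [k0,k2,k4] [(z1,[y1,y3,z3]),(z1,[z1])] [(k1,k3,z1,[z0,z1]),(k3,k1,z1,[z0,z1])]),
    .old (.lp [k70,k100,k100,k88,k0] [k15,k15,k0,k0,k0,k0,k6,k6,k50,k50] k0 [[],[],[],[k0,k0,k0,k0,k0,k52],[k0,k0,
    k52]] (nat_lit 240) k8
    [[(k8,k35),(k9,k35),(k7,k79),(k3,k85),(k5,k85)],[(k8,k35),(k9,k35),(k7,k79),(k3,k85),(k5,k85)],[(k0,k85),(k1,k85),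
    (k6,k94),(k2,k100),(k4,k100)],[(k8,k50),(k9,k50),(k3,k100),(k5,k100),(k7,k146)],[(k4,k48),(k0,k85),(k1,k85),(k6,
    k94),(k2,k100)],[(k5,k48),(k8,k50),(k9,k50),(k7,k94),(k3,k100)],[(k0,k79),(k1,k79),(k6,k88),(k4,k94),(k2,k146)],
    [(k8,k44),(k9,k44),(k7,k88),(k3,k94),(k5,k94)],[(k0,k35),(k1,k35),(k6,k44),(k2,k50),(k4,k50)],[(k0,k35),(k1,k35),
    (k6,k44),(k2,k50),(k4,k50)]]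
    [] k0
    [[k1,k1,k0,k0,k1],[k1,k0,k2,k0,k1],[k1,k0,k1,k0,k1],[k1,k0,k0,k1,k1],[k2,k0,k0,k1,k2],[k1,k0,k0,k0,k1],[k2,k0,k0,
    k0,k2],[k3,k0,k0,k0,k3],[k0,k2,k0,k0,k0],[k0,k1,k1,k0,k0],[k0,k0,k2,k0,k0],[k0,k0,k3,k0,k0],[k0,k0,k4,k0,k0],[k0,
    k0,k2,k1,k0],[k0,k0,k1,k1,k0],[k0,k0,k0,k2,k0]]
    [.ref k3 k0 [(z1,[z1])],.contra [z1,y1],.contra [y2,z1,z1],.ref k3 k1 [(z1,[z1])],.ref k4 k0 [(z1,[z1,z1,y1]),(z1,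
    [z0,y1,z1])],.contra [y2,z1,z1],.contra [y1,z2],.ref k7 k1 [(z1,[z1]),(z1,[z0,y1,z1])],.contra [z1],
    .ref k0 k1 [(z1,[y1,z0,z1])],.contra [z1],.ref k5 k1 [(z1,[y1,z3]),(z1,[z0,y1,z1])],.ref k6 k1 [(z2,[y1,z4]),(z1,
    [z0,y1,z1])],.ref k4 k1 [(z1,[y1,z2]),(z1,[z0,y1,z1])],.ref k0 k0 [(z1,[y1,z0,z1])],.contra [y1,y2,z2]]),
    .old (.leafM k6 [k0,k1,k2,k3,k4] [(z1,[z0,z1]),(z1,[y3,y1,z3])] []),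
    .old (.leafM k5 [k0,k1,k2,k3,k4] [(z1,[z0,z1]),(z1,[y2,y1,z2])] []),
    .old (.tor k0 false k1 [(z1,[y1,y1,z1]),(z1,[z0,y1,z1]),(z1,[z1,z2])]),
    .old (.lp [(nat_lit 5280),(nat_lit 3960),(nat_lit 7260),(nat_lit 3450),(nat_lit 2640)] [(nat_lit 990),(nat_lit 990),
    (nat_lit 1650),(nat_lit 1650),k0,k0,(nat_lit 1905),(nat_lit 1905),(nat_lit 2310),(nat_lit 2310)] k0 [[],[],[],[k0,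
    k0,k0,k0,k0,(nat_lit 1012)],[k0,k0,(nat_lit 1012)]] (nat_lit 15180) k6
    [[(k8,(nat_lit 3960)),(k9,(nat_lit 3960)),(k7,(nat_lit 4365)),(k3,(nat_lit 4620)),(k5,(nat_lit 6270))],[(k8,
    (nat_lit 3960)),(k9,(nat_lit 3960)),(k7,(nat_lit 4365)),(k3,(nat_lit 4620)),(k5,(nat_lit 6270))],[(k6,
    (nat_lit 3705)),(k2,(nat_lit 3960)),(k0,(nat_lit 4620)),(k1,(nat_lit 4620)),(k4,(nat_lit 5610))],[(k8,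
    (nat_lit 3300)),(k9,(nat_lit 3300)),(k3,(nat_lit 3960)),(k7,(nat_lit 4717)),(k5,(nat_lit 5610))],[(k6,
    (nat_lit 5355)),(k2,(nat_lit 5610)),(k4,(nat_lit 6248)),(k0,(nat_lit 6270)),(k1,(nat_lit 6270))],[(k8,
    (nat_lit 4950)),(k9,(nat_lit 4950)),(k7,(nat_lit 5355)),(k3,(nat_lit 5610)),(k5,(nat_lit 6248))],[(k6,
    (nat_lit 3450)),(k0,(nat_lit 4365)),(k1,(nat_lit 4365)),(k2,(nat_lit 4717)),(k4,(nat_lit 5355))],[(k8,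
    (nat_lit 3045)),(k9,(nat_lit 3045)),(k7,(nat_lit 3450)),(k3,(nat_lit 3705)),(k5,(nat_lit 5355))],[(k6,
    (nat_lit 3045)),(k2,(nat_lit 3300)),(k0,(nat_lit 3960)),(k1,(nat_lit 3960)),(k4,(nat_lit 4950))],[(k6,
    (nat_lit 3045)),(k2,(nat_lit 3300)),(k0,(nat_lit 3960)),(k1,(nat_lit 3960)),(k4,(nat_lit 4950))]]
    [] k0
    [[k1,k1,k0,k0,k1],[k1,k0,k0,k2,k1],[k1,k0,k0,k1,k1],[k1,k0,k0,k0,k1],[k0,k2,k0,k0,k0],[k0,k3,k0,k0,k0],[k0,k2,k0,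
    k1,k0],[k0,k1,k1,k0,k0],[k0,k1,k0,k1,k0],[k0,k1,k1,k1,k0],[k0,k1,k0,k2,k0],[k0,k0,k2,k0,k0],[k0,k0,k1,k1,k0],[k0,
    k0,k1,k2,k0],[k0,k0,k0,k2,k0],[k0,k0,k0,k3,k0],[k0,k0,k0,k4,k0]]
    [.ref k3 k0 [(z1,[z1])],.ref k11 k0 [(z1,[z1,z2,y2]),(z1,[z0,y1,z1])],.ref k3 k1 [(z1,[z1])],.contra [y1,z1],
    .contra [z1],.ref k9 k0 [(z1,[z0,z1]),(z1,[y1,y3,z3])],.contra [z1,z1,y1],.ref k0 k1 [(z1,[y1,z0,z1])],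
    .contra [y1,y2,z2],.contra [z1,z1,y1],.contra [z1,z1,y1],.contra [z1],.ref k0 k0 [(z1,[y1,z0,z1])],
    .ref k11 k1 [(z1,[y1,z1]),(z1,[z0,y1,z1])],.contra [z1],.ref k9 k1 [(z1,[z0,z1]),(z1,[y1,y3,z3])],
    .ref k10 k1 [(z1,[z0,z1]),(z2,[y1,y4,z4])]]),
    .old (.lp [k36,k38,k40,k40,k24] [k2,k2,k1,k1,k0,k0,k0,k0,k8,k8] k0 [[k0,k0,k4,k0,k2],[],[],[k0,k4],[k0,k0,k0,k0,k0,k0,
    k2],[k0,k2],[],[k0,k0,k0,k0,k0,k2]] k120 k5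
    [[(k8,k30),(k9,k30),(k3,k37),(k5,k38),(k7,k38)],[(k8,k30),(k9,k30),(k5,k34),(k7,k36),(k3,k37)],[(k0,k37),(k1,k37),
    (k6,k39),(k4,k41),(k2,k42)],[(k8,k31),(k9,k31),(k5,k39),(k7,k39),(k3,k42)],[(k0,k34),(k1,k38),(k2,k39),(k4,k40),
    (k6,k40)],[(k9,k30),(k8,k32),(k5,k40),(k7,k40),(k3,k41)],[(k0,k36),(k1,k38),(k2,k39),(k4,k40),(k6,k42)],[(k8,k32),
    (k9,k32),(k3,k39),(k5,k40),(k7,k42)],[(k0,k30),(k1,k30),(k4,k30),(k2,k31),(k6,k32)],[(k0,k30),(k1,k30),(k2,k31),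
    (k4,k32),(k6,k32)]]
    [] k0
    [[k1,k1,k0,k0,k1],[k1,k0,k1,k0,k1],[k1,k0,k0,k1,k1],[k1,k0,k0,k0,k1],[k0,k2,k0,k0,k0],[k0,k1,k1,k0,k0],[k0,k1,k0,
    k1,k0],[k0,k1,k1,k1,k0],[k0,k0,k2,k0,k0],[k0,k0,k1,k1,k0],[k0,k0,k0,k2,k0]]
    [.ref k3 k0 [(z1,[z1])],.ref k12 k1 [(z1,[z1])],.ref k3 k1 [(z1,[z1])],.ref k2 k1 [(z1,[z1])],.contra [z1],
    .ref k0 k1 [(z1,[y1,z1])],.ref k8 k1 [(z1,[y1,z1])],.ref k1 k1 [(z1,[y1,z1])],.contra [z1],.ref k0 k0 [(z1,[y1,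
    z1])],.contra [z1]])]⟩

/-- classes `0 0 0 0 0`, types `C0 C0 C0 C2 C2` -/
noncomputable def cU5_2 : CertX :=
  ⟨[k4,k4,k4,k6,k6],[(true,k3,[k3,k2,k1,k0,k4]),(false,k0,[k0,k1,k2,k3,k4])],[[[([z1,z0,z1,z1,z0],z1)],[([z1,z0,z0,z1,
    z1],z1)],[([z1,z0,z0,z1,z0],z1)],[([z1,z0,z0,z1,z0],z2)],[([z1,z0,z0,z1,z1],z2)],[([z1,z0,z1,z1,z0],z2)],[]]],
    [.old (.leafM k1 [k2,k3,k0] [] [(k4,k1,z1,[y1,z1]),(k1,k4,z1,[y1,z1])]),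
    .old (.leafM k0 [k0,k3,k4] [] [(k1,k2,z1,[y1,z1]),(k2,k1,z1,[y1,z1])]),
    .old (.leafM k2 [k2,k3,k4,k0,k1] [(z1,[z1])] []),
    .old (.leafM k1 [k1,k2,k4] [] [(k3,k0,z1,[z1]),(k0,k3,z1,[z1])]),
    .old (.leafM k1 [k0,k1,k2,k3,k4] [(z1,[y1,z1])] []),
    .old (.leafM k2 [k3,k4,k0,k1,k2] [(z1,[y1,z1])] []),
    .old (.lp [(nat_lit 2714),(nat_lit 3422),(nat_lit 3422),(nat_lit 2596),(nat_lit 3600)] [(nat_lit 443),(nat_lit 443),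
    k89,k89,k89,k89,(nat_lit 502),(nat_lit 502),k0,k0] k0 [[k0,k0,(nat_lit 354)],[],[k0,k0,k0,k0,(nat_lit 354)],[k0,
    (nat_lit 354)],[],[k0,k0,k0,(nat_lit 354)]] (nat_lit 10620) k5
    [[(k6,(nat_lit 2655)),(k7,(nat_lit 2655)),(k3,(nat_lit 3068)),(k5,(nat_lit 3068)),(k8,(nat_lit 3157))],[(k6,
    (nat_lit 2655)),(k7,(nat_lit 2655)),(k5,(nat_lit 2714)),(k3,(nat_lit 3068)),(k8,(nat_lit 3157))],[(k0,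
    (nat_lit 3068)),(k1,(nat_lit 3068)),(k4,(nat_lit 3422)),(k9,(nat_lit 3511)),(k2,(nat_lit 3776))],[(k7,
    (nat_lit 2655)),(k6,(nat_lit 3009)),(k5,(nat_lit 3422)),(k8,(nat_lit 3511)),(k3,(nat_lit 3776))],[(k0,
    (nat_lit 2714)),(k1,(nat_lit 3068)),(k2,(nat_lit 3422)),(k9,(nat_lit 3511)),(k4,(nat_lit 3776))],[(k6,
    (nat_lit 3009)),(k7,(nat_lit 3009)),(k3,(nat_lit 3422)),(k8,(nat_lit 3511)),(k5,(nat_lit 3776))],[(k0,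
    (nat_lit 2655)),(k1,(nat_lit 2655)),(k2,(nat_lit 2655)),(k4,(nat_lit 3009)),(k9,(nat_lit 3098))],[(k0,
    (nat_lit 2655)),(k1,(nat_lit 2655)),(k2,(nat_lit 3009)),(k4,(nat_lit 3009)),(k9,(nat_lit 3098))],[(k6,
    (nat_lit 3098)),(k7,(nat_lit 3098)),(k3,(nat_lit 3511)),(k5,(nat_lit 3511)),(k8,(nat_lit 3600))],[(k0,
    (nat_lit 3157)),(k1,(nat_lit 3157)),(k2,(nat_lit 3511)),(k4,(nat_lit 3511)),(k9,(nat_lit 3600))]]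
    [] k0
    [[k1,k1,k0,k1,k0],[k1,k0,k1,k1,k0],[k1,k0,k0,k1,k0],[k1,k0,k0,k1,k1],[k0,k2,k0,k0,k0],[k0,k1,k1,k0,k0],[k0,k1,k1,
    k0,k1],[k0,k1,k0,k0,k1],[k0,k0,k2,k0,k0],[k0,k0,k1,k0,k1],[k0,k0,k0,k0,k2]]
    [.ref k5 k0 [(z1,[z1])],.ref k5 k1 [(z1,[z1])],.ref k3 k1 [(z1,[z1])],.ref k4 k1 [(z1,[z1])],.contra [z1],
    .ref k1 k1 [(z1,[y1,z1])],.ref k2 k1 [(z1,[y1,z1])],.ref k0 k1 [(z1,[y1,z1])],.contra [z1],.ref k0 k0 [(z1,[y1,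
    z1])],.contra [z1]])]⟩

/-- classes `0 0 0 0 0`, types `C0 C0 C2 C0 C2` -/
noncomputable def cU5_3 : CertX :=
  ⟨[k4,k4,k6,k4,k6],[(false,k0,[k0,k1,k2,k3,k4]),(true,k2,[k2,k1,k0,k4,k3])],[[[([z1,z1,z1,z0,z0],z1)],[([z1,z0,z0,z0,
    z1],z2)],[([z1,z0,z1,z0,z0],z1)],[([z1,z0,z0,z0,z1],z1)],[([z1,z0,z1,z0,z0],z2)],[([z1,z1,z1,z0,z0],z2)],[]]],
    [.old (.leafM k0 [k0,k1,k2] [] [(k3,k4,z1,[y1,z1]),(k4,k3,z1,[y1,z1])]),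
    .old (.leafM k0 [k1,k2,k3] [] [(k4,k0,z1,[z1]),(k0,k4,z1,[z1])]),
    .old (.leafM k2 [k4,k0,k1,k2,k3] [(z1,[z1])] []),
    .old (.leafM k1 [k3,k4,k0,k1,k2] [(z1,[z1])] []),
    .old (.leafM k1 [k3,k4,k1] [] [(k0,k2,z1,[z1]),(k2,k0,z1,[z1])]),
    .old (.leafM k1 [k2,k3,k4,k0,k1] [(z1,[y1,z1])] []),
    .old (.lp [k4,k4,k2,k4,k2] [k0,k0,k0,k0,k1,k1,k0,k0,k1,k1] k0 [] k12 k5
    [[(k4,k3),(k5,k3),(k8,k3),(k9,k3),(k3,k4)],[(k4,k3),(k5,k3),(k8,k3),(k9,k3),(k3,k4)],[(k0,k4),(k1,k4),(k2,k4),(k6,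
    k4),(k7,k4)],[(k4,k3),(k5,k3),(k8,k3),(k9,k3),(k3,k4)],[(k0,k3),(k1,k3),(k2,k3),(k6,k3),(k7,k3)],[(k0,k3),(k1,k3),
    (k2,k3),(k6,k3),(k7,k3)],[(k4,k3),(k5,k3),(k8,k3),(k9,k3),(k3,k4)],[(k4,k3),(k5,k3),(k8,k3),(k9,k3),(k3,k4)],[(k0,
    k3),(k1,k3),(k2,k3),(k6,k3),(k7,k3)],[(k0,k3),(k1,k3),(k2,k3),(k6,k3),(k7,k3)]]
    [] k0
    [[k1,k1,k1,k0,k0],[k1,k1,k0,k0,k1],[k1,k0,k1,k0,k0],[k1,k0,k0,k0,k1],[k0,k2,k0,k0,k0],[k0,k1,k1,k1,k0],[k0,k1,k0,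
    k1,k1],[k0,k0,k1,k1,k0],[k0,k0,k0,k1,k1]]
    [.ref k5 k0 [(z1,[z1])],.ref k3 k1 [(z1,[y1,z1])],.ref k4 k0 [(z1,[z1])],.ref k1 k0 [(z1,[z1])],.contra [z1],
    .ref k3 k0 [(z1,[y1,z1])],.ref k2 k0 [(z1,[y1,z1])],.ref k1 k1 [(z1,[z1])],.ref k0 k0 [(z1,[y1,z1])]])]⟩

/-- classes `0 0 0 0 1`, types `B0 B0 B1 B1 C0` -/
noncomputable def cU5_4 : CertX :=
  ⟨[k8,k8,k9,k9,k20],[(false,k0,[k0,k1,k2,k3,k4])],[[[([z1,z0,z1,z0,z1],z1)],[([z1,z0,z0,z0,z1],z1)],[([z1,z0,z0,z0,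
    z1],z2)],[([z1,z0,z1,z0,z1],z2)],[]]],
    [.old (.leafM k1 [k4,k0,k2] [] [(k1,k3,z1,[y1,z1]),(k3,k1,z1,[y1,z1])]),
    .old (.leafM k3 [k1,k2,k3,k4,k0] [(z1,[z1])] []),
    .old (.leafM k1 [k3,k1,k2] [] [(k4,k0,z1,[z1]),(k0,k4,z1,[z1])]),
    .old (.leafM k2 [k0,k1,k2,k3,k4] [(z1,[y1,z1])] []),
    .old (.lp [k4,k4,k4,k2,k2] [k0,k0,k0,k0,k0,k0,k1,k1,k1,k1] k0 [] k12 k5
    [[(k8,k3)],[(k6,k3),(k7,k3),(k9,k3),(k4,k4)],[(k6,k3),(k7,k3),(k9,k3),(k4,k4)],[(k6,k3),(k7,k3),(k9,k3),(k4,k4)],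
    [(k6,k3),(k7,k3),(k9,k3),(k4,k4)],[(k0,k4),(k2,k4),(k3,k4),(k5,k4)],[(k0,k3),(k2,k3),(k3,k3),(k5,k3)],[(k0,k3),
    (k2,k3),(k3,k3),(k5,k3)],[(k0,k3),(k2,k3),(k3,k3),(k5,k3)],[(k1,k3)]]
    [] k0
    [[k1,k0,k0,k0,k1],[k1,k0,k1,k0,k1],[k0,k1,k1,k1,k0],[k0,k1,k0,k1,k0],[k0,k0,k2,k0,k0]]
    [.ref k2 k0 [(z1,[z1])],.ref k3 k0 [(z1,[z1])],.ref k1 k0 [(z1,[y1,z1])],.ref k0 k0 [(z1,[y1,z1])],.contra [z1]])]⟩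

/-- classes `0 0 0 0 1`, types `B0 B0 B1 B1 S0` -/
noncomputable def cU5_5 : CertX :=
  ⟨[k8,k8,k9,k9,k16],[(false,k0,[k0,k1,k2,k3,k4])],[[[([z1,z0,z1,z0,z1],z1)],[([z1,z0,z0,z0,z1],z1)],[([z1,z0,z0,z0,
    z1],z2)],[([z1,z0,z1,z0,z1],z2)],[([z2,z0,z0,z1,z0],z2),([z0,z1,z0,z0,z2],z2)],[([z2,z0,z0,z1,z0],z2)],[]]],
    [.old (.leafM k1 [k4,k0,k2] [] [(k1,k3,z1,[y1,z1]),(k3,k1,z1,[y1,z1])]),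
    .old (.leafM k3 [k1,k2,k3,k4,k0] [(z1,[z1])] []),
    .old (.leafM k1 [k3,k1,k2] [] [(k4,k0,z1,[z1]),(k0,k4,z1,[z1])]),
    .old (.leafM k2 [k0,k1,k2,k3,k4] [(z1,[y1,z1])] []),
    .old (.tor k6 false k0 [(z1,[z0,z1]),(z1,[y1,y1,z2]),(z1,[z1])]),
    .old (.lp [k18,k12,k16,k12,k12] [k0,k0,k3,k3,k1,k1,k3,k3,k3,k3] k0 [] k48 k5
    [[(k8,k15),(k1,k18)],[(k6,k15),(k7,k15),(k9,k15),(k4,k17)],[(k6,k12),(k7,k12),(k9,k12),(k4,k14)],[(k6,k12),(k7,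
    k12),(k9,k12),(k4,k14)],[(k6,k14),(k7,k14),(k9,k14),(k4,k16)],[(k2,k14),(k3,k14),(k5,k16),(k0,k17)],[(k2,k12),(k3,
    k12),(k5,k14),(k0,k15)],[(k2,k12),(k3,k12),(k5,k14),(k0,k15)],[(k2,k12),(k3,k12),(k5,k14),(k0,k15)],[(k8,k12),(k1,
    k15)]]
    [] k0
    [[k1,k0,k0,k0,k1],[k1,k0,k1,k0,k1],[k0,k1,k1,k1,k0],[k0,k1,k0,k1,k0],[k0,k1,k0,k0,k2],[k0,k0,k2,k0,k0]]
    [.ref k2 k0 [(z1,[z1])],.ref k3 k0 [(z1,[z1])],.ref k1 k0 [(z1,[y1,z0,z1])],.ref k0 k0 [(z1,[y1,z0,z1])],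
    .ref k4 k0 [(z1,[z0,z1]),(z1,[z1])],.contra [z1]]),
    .old (.lp [k12,k12,k16,k12,k18] [k3,k3,k3,k3,k1,k1,k3,k3,k0,k0] k0 [] k48 k5
    [[(k1,k12),(k8,k15)],[(k6,k12),(k7,k12),(k4,k14),(k9,k15)],[(k6,k12),(k7,k12),(k4,k14),(k9,k15)],[(k6,k12),(k7,
    k12),(k4,k14),(k9,k15)],[(k6,k14),(k7,k14),(k4,k16),(k9,k17)],[(k0,k14),(k2,k14),(k3,k14),(k5,k16)],[(k0,k12),(k2,
    k12),(k3,k12),(k5,k14)],[(k0,k12),(k2,k12),(k3,k12),(k5,k14)],[(k0,k15),(k2,k15),(k3,k15),(k5,k17)],[(k1,k15),(k8,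
    k18)]]
    [] k0
    [[k2,k0,k0,k1,k0],[k1,k0,k0,k0,k1],[k1,k0,k1,k0,k1],[k0,k1,k1,k1,k0],[k0,k1,k0,k1,k0],[k0,k0,k2,k0,k0]]
    [.ref k5 k0 [(z1,[z1])],.ref k2 k0 [(z1,[z1])],.ref k3 k0 [(z1,[z1])],.ref k1 k0 [(z1,[y1,z1])],.ref k0 k0 [(z1,
    [y1,z1])],.contra [z1]])]⟩

/-- classes `0 0 0 0 1`, types `B0 B1 B0 B1 C0` -/
noncomputable def cU5_6 : CertX :=
  ⟨[k8,k9,k8,k9,k20],[(false,k0,[k0,k1,k2,k3,k4]),(true,k4,[k4,k3,k2,k1,k0])],[[[([z1,z0,z0,z0,z1],z2)],[([z1,z0,z0,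
    z0,z1],z1)],[([z3,z0,z0,z0,z3],z1),([z0,z1,z0,z1,z0],z2)],[([z2,z0,z0,z0,z2],z1),([z0,z1,z0,z1,z0],z2)],[([z3,z0,
    z0,z0,z3],z2),([z0,z1,z0,z1,z0],z2)],[([z1,z0,z0,y1,z1],y1),([z0,z1,z0,z1,z0],z2)],[([z1,z0,z0,y1,z1],z0),([z0,z1,
    z0,z1,z0],z2)],[([z2,z0,z0,y1,z2],z0),([z0,z1,z0,z1,z0],z2)],[([z1,z0,z1,z0,z1],z1)],[([z1,z0,z0,z1,z1],z1),([z0,
    z1,z0,y1,z0],z0)],[([z1,z0,z0,z1,z1],z1),([z0,z1,z0,y1,z0],z1)],[([z1,z0,z1,z0,z1],z2),([z0,z3,z0,z0,z0],z1)]],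
    [[([z1,z0,z0,y1,z1],z0),([z0,z1,z0,z1,z0],z1)],[([z1,z0,z0,z1,z1],z1)],[([z1,z0,z0,z1,z1],z2),([z0,z1,z0,y1,z0],
    z0)],[([z1,z0,z0,y1,z1],z1),([z0,z1,z0,z1,z0],z1)],[([z1,z0,z0,z1,z1],z2)],[([z1,z0,z1,z0,z1],z2),([z0,z2,z0,z0,
    z0],z1)],[([z1,z0,z0,y2,z1],z0),([z0,z1,z0,z1,z0],z1)],[([z1,z0,z1,z0,z1],z2)],[]]],
    [.old (.leafM k1 [k3,k1,k2] [] [(k4,k0,z1,[z1]),(k0,k4,z1,[z1])]),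
    .old (.leafM k3 [k1,k2,k3,k4,k0] [(z1,[z1])] []),
    .old (.leafM k2 [k0,k2,k4] [(z1,[y1,y3,z3]),(z1,[z1])] [(k1,k3,z1,[z0,z1]),(k3,k1,z1,[z0,z1])]),
    .old (.leafM k3 [k0,k2,k4] [(z1,[y1,y2,z2]),(z1,[z1])] [(k1,k3,z1,[z0,z1]),(k3,k1,z1,[z0,z1])]),
    .old (.leafM k4 [k0,k2,k4] [(z1,[y1,y3,z3]),(z1,[z1])] [(k1,k3,z1,[z0,z1]),(k3,k1,z1,[z0,z1])]),
    .old (.lp [(nat_lit 19446952272),(nat_lit 71377590240),(nat_lit 53693030160),(nat_lit 89061404608),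
    (nat_lit 31284227568)] [(nat_lit 34807226168),(nat_lit 34807226168),(nat_lit 8841907184),(nat_lit 8841907184),
    (nat_lit 17684187224),(nat_lit 17684187224),k0,k0,(nat_lit 28888588520),(nat_lit 28888588520)] k0 [[k0,k0,k0,
    (nat_lit 15924585600)],[],[k0,(nat_lit 15924585600)],[k0,k0,k0,k0,k0,(nat_lit 17121773196)],[k0,k0,
    (nat_lit 17121773196)],[k0,k0,k0,k0,k0,k0,(nat_lit 34805624805)],[],[k0,k0,k0,k0,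
    (nat_lit 34805624805)]] (nat_lit 177559129440) k8
    [[(k8,(nat_lit 25365589920))],[(k9,(nat_lit 25365589920)),(k2,(nat_lit 29487685656)),(k5,(nat_lit 36569991216)),
    (k6,(nat_lit 54254178440))],[(k9,(nat_lit 51330908904)),(k2,(nat_lit 71377590240)),(k5,(nat_lit 78459895800)),(k6,
    (nat_lit 80219497424))],[(k0,(nat_lit 29487685656)),(k4,(nat_lit 62535310200)),(k3,(nat_lit 71377590240)),(k7,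
    (nat_lit 97341270620))],[(k0,(nat_lit 36569991216)),(k4,(nat_lit 36571256964)),(k7,(nat_lit 71377217384)),(k3,
    (nat_lit 78459895800))],[(k5,(nat_lit 36571256964)),(k9,(nat_lit 42488628864)),(k2,(nat_lit 62535310200)),(k6,
    (nat_lit 106182842189))],[(k9,(nat_lit 25367191283)),(k5,(nat_lit 71377217384)),(k6,(nat_lit 89061404608)),(k2,
    (nat_lit 97341270620))],[(k0,(nat_lit 54254178440)),(k3,(nat_lit 80219497424)),(k7,(nat_lit 89061404608)),(k4,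
    (nat_lit 106182842189))],[(k0,(nat_lit 25365589920)),(k7,(nat_lit 25367191283)),(k4,(nat_lit 42488628864)),(k3,
    (nat_lit 51330908904))],[(k1,(nat_lit 25365589920))]]
    [] k0
    [[k1,k0,k0,k0,k1],[k2,k0,k0,k0,k2],[k3,k0,k0,k0,k3],[k2,k1,k0,k0,k2],[k2,k0,k1,k0,k2],[k2,k0,k0,k1,k2],[k1,k1,k0,
    k0,k1],[k1,k1,k1,k0,k1],[k1,k0,k1,k0,k1],[k1,k0,k2,k0,k1],[k1,k0,k0,k1,k1],[k1,k1,k0,k1,k1],[k0,k2,k0,k0,k0],[k0,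
    k1,k1,k0,k0],[k0,k0,k2,k0,k0],[k0,k0,k3,k0,k0],[k0,k0,k4,k0,k0]]
    [.contra [y2,z2,z3],.contra [y1,z2,z2],.ref k4 k0 [(z1,[z1]),(z1,[z0,z0,z1])],.contra [y1,z2,z2],.contra [y1,z1,
    z0,z1],.ref k2 k0 [(z1,[z1,z1]),(z1,[z0,z0,z1])],.contra [y2,z2,z3],.contra [z1,z0,z1,y1],.contra [y2,z0,y1,z2],
    .contra [z1,z1,z3,y2],.ref k3 k0 [(z1,[z1,z1]),(z1,[z0,z0,z1])],.contra [y1,z1,z2],.contra [z1],.contra [z1,z1,z2,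
    y1],.contra [z1,z2,z4,y2],.ref k2 k0 [(z1,[y1,z0,y3,z3]),(z1,[z0,z0,z1])],.ref k3 k0 [(z2,[y1,z0,y4,z4]),(z1,[z0,
    z0,z1])]]),
    .old (.lp [(nat_lit 1412),(nat_lit 4038),(nat_lit 1412),(nat_lit 2682),(nat_lit 508)] [(nat_lit 1313),(nat_lit 1313),
    k0,k0,(nat_lit 1313),(nat_lit 1313),(nat_lit 678),(nat_lit 678),(nat_lit 1765),(nat_lit 1765)] k0 [[k0,k0,k0,k0,
    k0,k0,k0,(nat_lit 620)],[k0,k0,k142,(nat_lit 564)],[(nat_lit 564)],[k142],[k0,k0,k0,k0,k0,k0,k0,k56],[],[k0,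
    (nat_lit 620),k0,k0,k0,k56]] (nat_lit 6720) k8
    [[(k8,(nat_lit 960))],[(k9,(nat_lit 960)),(k6,(nat_lit 1427)),(k5,(nat_lit 1976)),(k2,(nat_lit 2867))],[(k5,
    (nat_lit 2583)),(k9,(nat_lit 2893)),(k6,(nat_lit 3360)),(k2,(nat_lit 3474))],[(k4,(nat_lit 2725)),(k0,
    (nat_lit 2867)),(k7,(nat_lit 3360)),(k3,(nat_lit 3474))],[(k4,(nat_lit 1412)),(k0,(nat_lit 1976)),(k7,
    (nat_lit 2047)),(k3,(nat_lit 2583))],[(k9,(nat_lit 960)),(k5,(nat_lit 1412)),(k6,(nat_lit 1991)),(k2,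
    (nat_lit 2725))],[(k9,(nat_lit 1651)),(k5,(nat_lit 2047)),(k6,(nat_lit 2682)),(k2,(nat_lit 3360))],[(k0,
    (nat_lit 1427)),(k4,(nat_lit 1991)),(k7,(nat_lit 2682)),(k3,(nat_lit 3360))],[(k0,(nat_lit 960)),(k4,
    (nat_lit 960)),(k7,(nat_lit 1651)),(k3,(nat_lit 2893))],[(k1,(nat_lit 960))]]
    [] k0
    [[k1,k0,k0,k0,k1],[k2,k0,k0,k0,k2],[k3,k0,k0,k0,k3],[k2,k0,k1,k0,k2],[k2,k0,k0,k1,k2],[k1,k0,k1,k0,k1],[k1,k0,k2,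
    k0,k1],[k1,k0,k1,k1,k1],[k1,k0,k0,k1,k1],[k0,k1,k1,k0,k0],[k0,k0,k2,k0,k0],[k0,k0,k3,k0,k0],[k0,k0,k4,k0,k0],[k0,
    k0,k2,k1,k0],[k0,k0,k1,k1,k0],[k0,k0,k0,k2,k0]]
    [.contra [y1,z1,z1],.contra [y1,z2,z2],.ref k4 k0 [(z1,[z1]),(z1,[z0,z0,z1])],.contra [y1,z1,z0,z1],
    .ref k4 k0 [(z1,[z1,z1]),(z1,[z0,z0,z1])],.contra [y2,z0,y1,z2],.contra [z1,z0,z1,y1],.contra [y1,z0,z0,z1],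
    .contra [y1,z1,z2],.ref k3 k0 [(z1,[y1,z1,z0,z1]),(z1,[z0,z0,z1])],.contra [z1],.ref k2 k0 [(z1,[y1,z0,y3,z3]),
    (z1,[z0,z0,z1])],.ref k3 k0 [(z2,[y1,z0,y4,z4]),(z1,[z0,z0,z1])],.contra [z1,z1,z1,y1],.contra [y2,y2,y1,z2],
    .contra [y1,z0,z2]]),
    .old (.lp [(nat_lit 18196320),(nat_lit 25702302),(nat_lit 19258680),(nat_lit 31843560),k0] [(nat_lit 6823620),
    (nat_lit 6823620),(nat_lit 3070629),(nat_lit 3070629),(nat_lit 6292440),(nat_lit 6292440),k0,k0,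
    (nat_lit 15921780),(nat_lit 15921780)] k0 [[k0,k0,k0,k0,k0,k0,k0,(nat_lit 1592178)],[],[k0,k0,k0,k0,k0,
    (nat_lit 6975256)],[k0,k0,k0,k0,k0,(nat_lit 6141258)],[k0,k0,(nat_lit 6141258),(nat_lit 6975256)],[k0,k0,k0,k0,k0,
    k0,(nat_lit 5611200)],[k0,(nat_lit 1592178)],[k0,k0,k0,k0,(nat_lit 5611200)]] (nat_lit 63687120) k8
    [[(k8,(nat_lit 9098160))],[(k9,(nat_lit 9098160)),(k5,(nat_lit 18727500)),(k2,(nat_lit 21949311)),(k6,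
    (nat_lit 23427762))],[(k9,(nat_lit 14443329)),(k5,(nat_lit 22480491)),(k2,(nat_lit 25702302)),(k6,
    (nat_lit 28772931))],[(k4,(nat_lit 15505235)),(k0,(nat_lit 21949311)),(k3,(nat_lit 25702302)),(k7,
    (nat_lit 34914189))],[(k4,(nat_lit 13117422)),(k0,(nat_lit 18727500)),(k3,(nat_lit 22480491)),(k7,
    (nat_lit 32526376))],[(k9,(nat_lit 9629340)),(k5,(nat_lit 13117422)),(k2,(nat_lit 15505235)),(k6,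
    (nat_lit 31162320))],[(k9,(nat_lit 10310580)),(k6,(nat_lit 31843560)),(k5,(nat_lit 32526376)),(k2,
    (nat_lit 34914189))],[(k0,(nat_lit 23427762)),(k3,(nat_lit 28772931)),(k4,(nat_lit 31162320)),(k7,
    (nat_lit 31843560))],[(k0,(nat_lit 9098160)),(k4,(nat_lit 9629340)),(k7,(nat_lit 10310580)),(k3,
    (nat_lit 14443329))],[(k1,(nat_lit 9098160))]]
    [] k0
    [[k1,k0,k0,k0,k1],[k2,k0,k0,k0,k2],[k3,k0,k0,k0,k3],[k2,k0,k1,k0,k2],[k2,k0,k0,k1,k2],[k1,k1,k0,k0,k1],[k1,k1,k1,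
    k0,k1],[k1,k0,k1,k0,k1],[k1,k0,k2,k0,k1],[k1,k0,k0,k1,k1],[k0,k2,k0,k0,k0],[k0,k1,k1,k0,k0],[k0,k1,k2,k0,k0],[k0,
    k0,k2,k0,k0],[k0,k0,k3,k0,k0],[k0,k0,k4,k0,k0]]
    [.contra [y2,z1,z2],.contra [y1,z1,z1],.ref k4 k0 [(z1,[z1]),(z1,[z0,z0,z1])],.contra [y2,z1,y1,z2],.contra [y1,
    z1,z2],.contra [z1,y1,y2,z1],.contra [z1,z0,z1,y1],.contra [y2,y1,y4,z4],.contra [z1,z0,z1,y1],.ref k4 k0 [(z1,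
    [z1,z1]),(z1,[z0,z0,z1])],.contra [z1],.ref k2 k0 [(z1,[y1,z1,z0,z1]),(z1,[z0,z0,z1])],.contra [z1,z1,z3,y2],
    .contra [z1],.ref k2 k0 [(z1,[y1,z0,y3,z3]),(z1,[z0,z0,z1])],.contra [z1,z2,z6,y4]]),
    .old (.lp [(nat_lit 480),(nat_lit 678),(nat_lit 536),(nat_lit 812),k0] [k166,k166,k67,k67,k138,k138,k0,k0,
    (nat_lit 406),(nat_lit 406)] k0 [[k0,k0,k0,(nat_lit 339),k0,k0,k0,k183],[],[k0,(nat_lit 339)],[k0,k0,k0,k0,k127,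
    k190],[k0,k0,k190,k0,k0,k0,k28],[k0,k0,k127,k0,k0,k0,k113],[k0,k183],[k0,k0,k0,k0,k113,k28]] (nat_lit 1680) k8
    [[(k8,(nat_lit 240))],[(k2,(nat_lit 240)),(k9,(nat_lit 240)),(k6,(nat_lit 463)),(k5,(nat_lit 508))],[(k9,
    (nat_lit 522)),(k2,(nat_lit 678)),(k6,(nat_lit 745)),(k5,(nat_lit 946))],[(k0,(nat_lit 240)),(k3,(nat_lit 678)),
    (k4,(nat_lit 734)),(k7,(nat_lit 935))],[(k4,(nat_lit 346)),(k0,(nat_lit 508)),(k7,(nat_lit 547)),(k3,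
    (nat_lit 946))],[(k9,(nat_lit 240)),(k5,(nat_lit 346)),(k2,(nat_lit 734)),(k6,(nat_lit 787))],[(k9,(nat_lit 293)),
    (k5,(nat_lit 547)),(k6,(nat_lit 840)),(k2,(nat_lit 935))],[(k0,(nat_lit 463)),(k3,(nat_lit 745)),(k4,
    (nat_lit 787)),(k7,(nat_lit 840))],[(k0,(nat_lit 240)),(k4,(nat_lit 240)),(k7,(nat_lit 293)),(k3,(nat_lit 522))],
    [(k1,(nat_lit 240))]]
    [] k0
    [[k1,k0,k0,k0,k1],[k2,k0,k0,k0,k2],[k3,k0,k0,k0,k3],[k2,k1,k0,k0,k2],[k2,k0,k1,k0,k2],[k2,k0,k0,k1,k2],[k1,k1,k0,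
    k0,k1],[k1,k0,k1,k0,k1],[k1,k1,k1,k0,k1],[k1,k0,k2,k0,k1],[k1,k0,k1,k1,k1],[k1,k0,k0,k1,k1],[k1,k1,k0,k1,k1],[k0,
    k2,k0,k0,k0],[k0,k0,k2,k0,k0],[k0,k0,k3,k0,k0],[k0,k0,k4,k0,k0],[k0,k0,k1,k1,k0]]
    [.contra [y2,z1,z1],.contra [y1,z2],.ref k4 k0 [(z1,[z1]),(z1,[z0,y1,z1])],.ref k7 k0 [(z1,[z1,z1,y1]),(z1,[z0,y1,
    z1])],.contra [y1,z2],.ref k7 k1 [(z1,[z1,z1,y1]),(z1,[z0,y1,z1])],.ref k6 k0 [(z1,[z1,z1,y1]),(z1,[z0,y1,z1])],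
    .contra [y2,z1,z1],.contra [z1,y1],.contra [z1,y1],.contra [y1,z0,z1],.ref k6 k1 [(z1,[z1,z1,y1]),(z1,[z0,y1,
    z1])],.contra [y1,z0,z1],.contra [z1],.contra [z1],.ref k2 k0 [(z1,[y1,z3]),(z1,[z0,y1,z1])],.ref k3 k0 [(z2,[y1,
    z4]),(z1,[z0,y1,z1])],.ref k5 k0 [(z1,[y1,z1]),(z1,[z0,y1,z1])]]),
    .old (.tor k11 false k0 [(z1,[y1,y1,z1]),(z1,[y1,z0,z1]),(z1,[z2,z1])]),
    .old (.tor k10 false k0 [(z1,[y1,z0,z1]),(z1,[z0,y1,z1]),(z1,[z1,z1])]),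
    .old (.leafM k6 [k0,k1,k2,k3,k4] [(z1,[z0,z1]),(z1,[y3,y1,z3])] []),
    .old (.lp [k38,k58,k146,k59,k58] [k54,k54,k44,k44,k0,k0,k44,k43,k44,k44] k0 [[k0,k0,k2],[],[k0,k0,k0,k0,k0,k24],[k0,
    k2,k0,k0,k0,k64],[k0,k0,k64,k24],[k0,k0,k0,k0,k0,k0,k11],[],[k0,k0,k0,k0,k11]] (nat_lit 240) k6
    [[(k8,k48)],[(k2,k48),(k6,k48),(k9,k48),(k5,k90)],[(k6,k58),(k9,k58),(k2,k60),(k5,k102)],[(k0,k48),(k3,k60),(k4,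
    k78),(k7,k123)],[(k4,k82),(k0,k90),(k3,k102),(k7,k127)],[(k2,k78),(k5,k82),(k9,k102),(k6,k113)],[(k9,k48),(k6,
    k59),(k2,k123),(k5,k127)],[(k0,k48),(k3,k58),(k7,k59),(k4,k113)],[(k0,k48),(k7,k48),(k3,k58),(k4,k102)],[(k1,
    k48)]]
    [] k0
    [[k1,k0,k0,k0,k1],[k2,k0,k0,k0,k2],[k1,k1,k0,k0,k1],[k1,k2,k0,k0,k1],[k1,k0,k0,k1,k1],[k1,k1,k0,k1,k1],[k1,k0,k0,
    k2,k1],[k0,k2,k0,k0,k0],[k0,k3,k0,k0,k0],[k0,k1,k1,k0,k0],[k0,k1,k0,k1,k0],[k0,k0,k2,k0,k0],[k0,k0,k0,k2,k0],[k0,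
    k0,k0,k3,k0],[k0,k0,k0,k4,k0]]
    [.contra [y1,z0,y1,z1],.contra [y1,z0,y2,z2],.contra [y1,z1,z2],.contra [z1,y1,y1],.contra [y1,y1,y2,z2],
    .contra [y1,z0,z0,z1],.ref k11 k0 [(z1,[z0,z0,y1,z1]),(z1,[y1,z1,z3])],.contra [z1],.ref k11 k1 [(z1,[z0,z0,y1,
    z1]),(z1,[y1,z0,z3])],.ref k9 k0 [(z1,[y1,z0,z0,z1]),(z1,[z1,z1,z1,y1])],.contra [y1,z0,z2],.contra [z1],
    .contra [y1,y2,y2,z2],.ref k11 k0 [(z1,[z0,z0,y1,z1]),(z1,[y1,z0,z3])],.ref k9 k0 [(z2,[z1,z2]),(z2,[y1,z0,z2])]]),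
    .old (.lp [k29,k50,k48,k38,k10] [k17,k8,k0,k4,k3,k3,k8,k8,k22,k22] k0 [[k0,k0,k10,k13],[k0,k0,k0,k0,k0,k0,k0,k9],[k0,
    k13],[k0,k10,k0,k0,k9],[k0,k0,k0,k0,k0,k0,k5],[k0,k0,k9],[k9],[k0,k0,k0,k0,k0,k5]] k120 k6
    [[(k8,k24)],[(k2,k24),(k5,k24),(k9,k24),(k6,k29)],[(k9,k28),(k6,k33),(k2,k60),(k5,k60)],[(k0,k24),(k7,k46),(k3,
    k60),(k4,k60)],[(k0,k24),(k7,k34),(k4,k48),(k3,k60)],[(k9,k24),(k6,k43),(k5,k48),(k2,k60)],[(k9,k24),(k5,k34),(k6,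
    k43),(k2,k46)],[(k0,k29),(k3,k33),(k4,k43),(k7,k43)],[(k0,k24),(k4,k24),(k7,k24),(k3,k28)],[(k1,k24)]]
    [] k0
    [[k1,k0,k0,k0,k1],[k2,k0,k0,k0,k2],[k1,k1,k0,k0,k1],[k1,k0,k1,k0,k1],[k1,k0,k1,k1,k1],[k1,k0,k0,k1,k1],[k1,k1,k0,
    k1,k1],[k0,k1,k0,k1,k0],[k0,k0,k2,k0,k0],[k0,k0,k1,k1,k0],[k0,k0,k0,k2,k0]]
    [.contra [y2,z1,z1],.contra [y1,z2],.ref k10 k0 [(z1,[z0,z1]),(z1,[z1,y1])],.ref k12 k1 [(z1,[z1,z1,y1]),(z1,[y1,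
    z0,z1])],.contra [y1,z0,z1],.contra [y2,z1,z1],.contra [z1,y1],.ref k8 k0 [(z1,[y1,z0,z1])],.contra [y1,y2,z2],
    .ref k9 k0 [(z1,[z0,z1]),(z1,[y1,y1,z1])],.contra [z1]]),
    .old (.tor k9 false k0 [(z1,[y2,y1,z2]),(z1,[z1]),(z1,[z1,z1])]),
    .old (.lp [k124,(nat_lit 242),k160,k118,k74] [k59,k59,k0,k0,k41,k41,k62,k62,k84,k84] k0 [[k0,k0,k0,k0,k0,k0,k3],[k0,
    k0,k40,k121],[k121,k0,k0,k0,k0,k3],[k40],[k0,k0,k0,k3],[k0,k0,k0,k0,k0,k0,k0,k1],[k0,k0,k0,k0,k1],[k0,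
    k3]] (nat_lit 480) k6
    [[(k8,k99)],[(k9,k96),(k6,k121),(k2,(nat_lit 223)),(k5,(nat_lit 263))],[(k2,k121),(k9,k158),(k5,k161),(k6,k183)],
    [(k3,k121),(k7,k180),(k4,k198),(k0,(nat_lit 223))],[(k7,k142),(k4,k160),(k3,k161),(k0,(nat_lit 263))],[(k9,k118),
    (k6,k139),(k5,k160),(k2,k198)],[(k9,k96),(k6,k117),(k5,k142),(k2,k180)],[(k7,k117),(k0,k121),(k4,k139),(k3,k183)],
    [(k0,k96),(k7,k96),(k4,k118),(k3,k158)],[(k1,k99)]]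
    [] k0
    [[k1,k0,k0,k0,k1],[k2,k0,k0,k0,k2],[k1,k0,k0,k1,k1],[k1,k0,k0,k2,k1],[k0,k2,k0,k0,k0],[k0,k3,k0,k0,k0],[k0,k1,k1,
    k0,k0],[k0,k1,k0,k1,k0],[k0,k0,k2,k0,k0],[k0,k0,k2,k1,k0],[k0,k0,k1,k1,k0],[k0,k0,k1,k2,k0],[k0,k0,k0,k2,k0],[k0,
    k0,k0,k3,k0],[k0,k0,k0,k4,k0]]
    [.contra [z1,y1],.contra [y1,z2,z2],.ref k14 k0 [(z1,[z1]),(z1,[y1,z1,z1])],.ref k11 k1 [(z1,[z0,z0,y1,z1]),(z1,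
    [z1,y1])],.contra [z1],.ref k11 k1 [(z1,[z0,z0,y1,z1]),(z1,[y1,z0,z3])],.contra [z1,z1,z2,y1],.contra [y1,z0,z2],
    .contra [z1,z2,z4,y2],.contra [z1,z2,z3,y2],.contra [y1,y1,z0,z1],.contra [z1,z1,z1,y1],.contra [z1],
    .ref k11 k0 [(z1,[z0,z0,y1,z1]),(z1,[y1,z0,z3])],.ref k14 k0 [(z2,[z1,z2]),(z2,[y1,z0,z2])]]),
    .old (.lp [k40,k42,k44,k42,k10] [k18,k18,k34,k0,k16,k16,k17,k17,k34,k32] k0 [[k0,k0,k18],[k0,k0,k0,k0,k0,k0,k20],[],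
    [k0,k18],[k0,k0,k0,k0,k0,k0,k0,k8],[],[k0,k0,k0,k0,k0,k8],[k20]] k120 k6
    [[(k8,k24)],[(k2,k24),(k5,k24),(k9,k26),(k6,k61)],[(k9,k24),(k6,k59),(k2,k60),(k5,k60)],[(k0,k24),(k7,k25),(k4,
    k26),(k3,k60)],[(k0,k24),(k7,k43),(k4,k44),(k3,k60)],[(k2,k26),(k9,k28),(k6,k35),(k5,k44)],[(k2,k25),(k9,k35),(k6,
    k42),(k5,k43)],[(k4,k35),(k7,k42),(k3,k59),(k0,k61)],[(k3,k24),(k0,k26),(k4,k28),(k7,k35)],[(k1,k24)]]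
    [] k0
    [[k1,k0,k0,k0,k1],[k2,k0,k0,k0,k2],[k1,k1,k0,k0,k1],[k1,k1,k1,k0,k1],[k1,k0,k1,k0,k1],[k1,k0,k1,k1,k1],[k0,k1,k1,
    k0,k0],[k0,k1,k0,k1,k0],[k0,k0,k2,k0,k0],[k0,k0,k1,k1,k0],[k0,k0,k0,k2,k0]]
    [.contra [y1,z1],.contra [y1,z2],.ref k14 k0 [(z1,[z0,z1]),(z1,[z1,y1])],.contra [y1,z0,z1],.ref k15 k1 [(z1,[z1,
    z1,y1]),(z1,[y1,z0,z1])],.contra [y1,z0,z1],.contra [y1,y2,z2],.ref k8 k0 [(z1,[y1,z0,z1])],.contra [z1],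
    .ref k13 k1 [(z1,[y1,z0,z1])],.contra [z1]]),
    .old (.leafM k5 [k0,k1,k2,k3,k4] [(z1,[z0,z1]),(z1,[y2,y1,z2])] []),
    .old (.lp [k136,k84,(nat_lit 246),k144,k108] [k55,k55,k81,k81,k0,k0,k51,k51,k69,k69] k0 [[k0,k0,k41,k0,k0,k0,k26],[k0,
    k0,k27],[k0,k0,k0,k0,k0,k69],[k27,k41],[k0,k0,k0,k69,k0,k0,k0,k92],[k0,k0,k0,k0,k0,k0,k0,k31],[k0,k0,k0,k0,k31,
    k92],[k0,k26]] (nat_lit 480) k6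
    [[(k8,k122)],[(k9,k96),(k2,k137),(k6,k140),(k5,k150)],[(k9,k96),(k2,k125),(k5,k138),(k6,k140)],[(k4,k96),(k7,
    k114),(k3,k125),(k0,k137)],[(k3,k138),(k0,k150),(k4,(nat_lit 246)),(k7,(nat_lit 264))],[(k2,k96),(k6,k103),(k9,
    (nat_lit 208)),(k5,(nat_lit 246))],[(k6,k113),(k2,k114),(k9,(nat_lit 218)),(k5,(nat_lit 264))],[(k4,k103),(k7,
    k113),(k0,k140),(k3,k140)],[(k0,k96),(k3,k96),(k4,(nat_lit 208)),(k7,(nat_lit 218))],[(k1,k122)]]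
    [] k0
    [[k1,k0,k0,k0,k1],[k2,k0,k0,k0,k2],[k1,k1,k0,k0,k1],[k1,k1,k1,k0,k1],[k1,k1,k0,k1,k1],[k0,k2,k0,k0,k0],[k0,k3,k0,
    k0,k0],[k0,k2,k1,k0,k0],[k0,k2,k0,k1,k0],[k0,k1,k1,k0,k0],[k0,k2,k2,k0,k0],[k0,k1,k1,k1,k0],[k0,k1,k1,k2,k0],[k0,
    k1,k0,k1,k0],[k0,k1,k0,k2,k0],[k0,k0,k1,k1,k0],[k0,k0,k0,k2,k0],[k0,k0,k0,k3,k0],[k0,k0,k0,k4,k0]]
    [.contra [z1,y1],.contra [y1,z0,y2,z2],.contra [z1,y1,y1],.contra [y1,z0,z0,z1],.contra [y1,z0,z0,z1],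
    .contra [z1],.ref k13 k0 [(z1,[y1,z1,z3])],.contra [z1,y1,y3,z1],.contra [z1,z0,y1],.ref k13 k0 [(z1,[y1,z0,z0,
    z1])],.ref k16 k0 [(z2,[y1,z0,z0,z2])],.contra [z1,z0,y1],.contra [y1,y1,z0,z1],.contra [y1,z0,z2],.contra [z1,z0,
    y1],.contra [z1,z1,z2,y1],.contra [z1],.ref k16 k0 [(z1,[z1,z1])],.contra [y1,y2,y2,z2]]),
    .old (.lp [k174,k194,k166,k158,k26] [k10,k10,k0,k0,k14,k14,k18,k18,k84,k84] k0 [[k0,k0,k0,k0,k0,k0,k4],[k0,k0,k0,k74],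
    [k74],[k0,k0,k0,k0,k0,k6],[k0,k0,k6,k0,k0,k0,k0,k4],[k0,k0,k0,k0,k0,k0,k0,k40],[k0,k0,k0,k0,k40,k4],[k0,
    k4]] (nat_lit 480) k6
    [[(k8,k100)],[(k9,k96),(k6,k166),(k2,k184),(k5,(nat_lit 244))],[(k9,k110),(k2,k120),(k5,k180),(k6,k180)],[(k3,
    k120),(k4,k180),(k7,k182),(k0,k184)],[(k4,k160),(k7,k162),(k3,k180),(k0,(nat_lit 244))],[(k9,k136),(k6,k158),(k5,
    k160),(k2,k180)],[(k9,k96),(k6,k118),(k5,k162),(k2,k182)],[(k7,k118),(k4,k158),(k0,k166),(k3,k180)],[(k0,k96),(k7,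
    k96),(k3,k110),(k4,k136)],[(k1,k100)]]
    [] k0
    [[k1,k0,k0,k0,k1],[k2,k0,k0,k0,k2],[k1,k1,k0,k0,k1],[k1,k0,k0,k1,k1],[k0,k2,k0,k0,k0],[k0,k3,k0,k0,k0],[k0,k1,k1,
    k0,k0],[k0,k1,k0,k1,k0],[k0,k0,k2,k0,k0],[k0,k0,k1,k1,k0],[k0,k0,k1,k2,k0],[k0,k0,k0,k2,k0],[k0,k0,k0,k3,k0],[k0,
    k0,k0,k4,k0]]
    [.contra [y1,z1],.contra [y1,z2],.ref k16 k1 [(z1,[z1])],.ref k16 k0 [(z1,[z1])],.contra [z1],.ref k11 k1 [(z1,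
    [z0,z1]),(z1,[y1,y3,z3])],.ref k13 k0 [(z1,[y1,z0,z1])],.contra [y1,y2,z2],.contra [z1],.ref k13 k1 [(z1,[y1,z0,
    z1])],.ref k18 k0 [(z1,[y1,z1]),(z1,[z0,y1,z1])],.contra [z1],.ref k11 k0 [(z1,[z0,z1]),(z1,[y1,y3,z3])],
    .ref k17 k0 [(z1,[z0,z1]),(z2,[y1,y4,z4])]]),
    .old (.lp [(nat_lit 656880),(nat_lit 534888),(nat_lit 775200),(nat_lit 624036),(nat_lit 74290)] [(nat_lit 88458),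
    (nat_lit 88458),(nat_lit 149454),(nat_lit 149454),(nat_lit 29298),(nat_lit 29298),(nat_lit 209760),k0,
    (nat_lit 379753),(nat_lit 379753)] k0 [[k0,k0,(nat_lit 356592),k0,k0,k0,k0,(nat_lit 74290)],[],[k0,k0,k0,k0,k0,
    (nat_lit 297160)],[k0,(nat_lit 356592)],[k0,k0,k0,(nat_lit 297160)],[k0,k0,k0,k0,k0,k0,(nat_lit 89148)],[k0,
    (nat_lit 74290)],[k0,k0,k0,k0,(nat_lit 89148)]] (nat_lit 1782960) k6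
    [[(k8,(nat_lit 365585))],[(k5,(nat_lit 359448)),(k9,(nat_lit 365585)),(k6,(nat_lit 461288)),(k2,
    (nat_lit 595884))],[(k9,(nat_lit 378879)),(k6,(nat_lit 474582)),(k5,(nat_lit 655044)),(k2,(nat_lit 891480))],[(k4,
    (nat_lit 357884)),(k0,(nat_lit 595884)),(k7,(nat_lit 684342)),(k3,(nat_lit 891480))],[(k0,(nat_lit 359448)),(k3,
    (nat_lit 655044)),(k4,(nat_lit 775200)),(k7,(nat_lit 1101658))],[(k2,(nat_lit 357884)),(k9,(nat_lit 424745)),(k6,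
    (nat_lit 683886)),(k5,(nat_lit 775200))],[(k9,(nat_lit 364895)),(k6,(nat_lit 624036)),(k2,(nat_lit 684342)),(k5,
    (nat_lit 1101658))],[(k0,(nat_lit 461288)),(k3,(nat_lit 474582)),(k7,(nat_lit 624036)),(k4,(nat_lit 683886))],
    [(k7,(nat_lit 364895)),(k0,(nat_lit 365585)),(k3,(nat_lit 378879)),(k4,(nat_lit 424745))],[(k1,(nat_lit 365585))]]
    [] k0
    [[k1,k0,k0,k0,k1],[k2,k0,k0,k0,k2],[k1,k1,k0,k0,k1],[k1,k1,k1,k0,k1],[k1,k0,k1,k0,k1],[k1,k0,k0,k1,k1],[k1,k0,k1,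
    k1,k1],[k0,k1,k1,k0,k0],[k0,k1,k0,k1,k0],[k0,k0,k2,k0,k0],[k0,k0,k0,k2,k0]]
    [.ref k0 k0 [(z1,[z1])],.ref k1 k0 [(z2,[z1])],.ref k16 k1 [(z1,[z1])],.contra [y1,z1],.ref k19 k0 [(z1,[z1])],
    .ref k16 k0 [(z1,[z1])],.contra [y1,z1],.ref k13 k0 [(z1,[y1,z1])],.ref k8 k0 [(z1,[y1,z1])],.contra [z1],
    .contra [z1]])]⟩

/-- classes `0 0 0 0 1`, types `B0 B1 B0 B1 S0` -/
noncomputable def cU5_7 : CertX :=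
  ⟨[k8,k9,k8,k9,k16],[(false,k0,[k0,k1,k2,k3,k4]),(true,k4,[k4,k3,k2,k1,k0])],[[[([z1,z0,z0,z0,z1],z2)],[([z1,z0,z0,
    z0,z1],z1)],[([z3,z0,z0,z0,z3],z1),([z0,z1,z0,z1,z0],z2)],[([z2,z0,z0,z0,z2],z1),([z0,z1,z0,z1,z0],z2)],[([z3,z0,
    z0,z0,z3],z2),([z0,z1,z0,z1,z0],z2)],[([z1,z0,z0,y1,z1],y1),([z0,z1,z0,z1,z0],z2)],[([z2,z0,z0,y1,z2],z0),([z0,z1,
    z0,z1,z0],z2)],[([z1,z0,z0,y1,z1],z0),([z0,z1,z0,z1,z0],z2)],[([z1,z0,z1,z0,z1],z1)],[([z1,z0,z0,z1,z1],z1),([z0,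
    z1,z0,y1,z0],z0)],[([z1,z0,z0,z1,z1],z1),([z0,z1,z0,y1,z0],z1)],[([z1,z0,z1,z0,z1],z2),([z0,z3,z0,z0,z0],z1)]],
    [[([z1,z0,z0,y1,z1],z0),([z0,z1,z0,z1,z0],z1)],[([z1,z0,z0,z1,z1],z1)],[([z1,z0,z0,z1,z1],z2),([z0,z1,z0,y1,z0],
    z0)],[([z1,z0,z0,y1,z1],z1),([z0,z1,z0,z1,z0],z1)],[([z1,z0,z0,z1,z1],z2)],[([z1,z0,z1,z0,z1],z2),([z0,z2,z0,z0,
    z0],z1)],[([z1,z0,z0,y2,z1],z0),([z0,z1,z0,z1,z0],z1)],[([z1,z0,z1,z0,z1],z2)],[]]],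
    [.old (.leafM k1 [k3,k1,k2] [] [(k4,k0,z1,[z1]),(k0,k4,z1,[z1])]),
    .old (.leafM k3 [k1,k2,k3,k4,k0] [(z1,[z1])] []),
    .old (.leafM k2 [k0,k2,k4] [(z1,[y1,y3,z3]),(z1,[z1])] [(k1,k3,z1,[z0,z1]),(k3,k1,z1,[z0,z1])]),
    .old (.leafM k3 [k0,k2,k4] [(z1,[y1,y2,z2]),(z1,[z1])] [(k1,k3,z1,[z0,z1]),(k3,k1,z1,[z0,z1])]),
    .old (.leafM k4 [k0,k2,k4] [(z1,[y1,y3,z3]),(z1,[z1])] [(k1,k3,z1,[z0,z1]),(k3,k1,z1,[z0,z1])]),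
    .old (.lp [(nat_lit 3947880),(nat_lit 10100160),(nat_lit 8356740),(nat_lit 14870348),
    (nat_lit 3947880)] [(nat_lit 5461234),(nat_lit 5461234),(nat_lit 2385094),(nat_lit 2385094),(nat_lit 3256804),
    (nat_lit 3256804),k0,k0,(nat_lit 5461234),(nat_lit 5461234)] k0 [[k0,k0,k0,(nat_lit 460586)],[],[k0,
    (nat_lit 460586),k0,k0,k0,(nat_lit 1381758)],[k0,k0,k0,k0,k0,(nat_lit 2664819)],[k0,k0,(nat_lit 2664819),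
    (nat_lit 1381758)],[k0,k0,k0,k0,k0,k0,(nat_lit 3026708)],[],[k0,k0,k0,k0,(nat_lit 3026708)]] (nat_lit 27635160) k8
    [[(k1,(nat_lit 3947880)),(k8,(nat_lit 3947880))],[(k9,(nat_lit 3947880)),(k5,(nat_lit 6152310)),(k2,
    (nat_lit 6563434)),(k6,(nat_lit 9409114))],[(k9,(nat_lit 7024020)),(k5,(nat_lit 9689036)),(k2,(nat_lit 10100160)),
    (k6,(nat_lit 12485254))],[(k0,(nat_lit 6563434)),(k4,(nat_lit 7846692)),(k3,(nat_lit 10100160)),(k7,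
    (nat_lit 15150073))],[(k4,(nat_lit 5691921)),(k0,(nat_lit 6152310)),(k3,(nat_lit 9689036)),(k7,
    (nat_lit 12995302))],[(k5,(nat_lit 5691921)),(k9,(nat_lit 6152310)),(k2,(nat_lit 7846692)),(k6,
    (nat_lit 14640252))],[(k9,(nat_lit 6382406)),(k5,(nat_lit 12995302)),(k6,(nat_lit 14870348)),(k2,
    (nat_lit 15150073))],[(k0,(nat_lit 9409114)),(k3,(nat_lit 12485254)),(k4,(nat_lit 14640252)),(k7,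
    (nat_lit 14870348))],[(k0,(nat_lit 3947880)),(k4,(nat_lit 6152310)),(k7,(nat_lit 6382406)),(k3,
    (nat_lit 7024020))],[(k1,(nat_lit 3947880)),(k8,(nat_lit 3947880))]]
    [] k0
    [[k2,k1,k0,k0,k2],[k2,k0,k1,k0,k2],[k3,k0,k0,k0,k3],[k2,k0,k0,k0,k2],[k1,k0,k0,k0,k1],[k1,k1,k0,k0,k1],[k1,k1,k1,
    k0,k1],[k1,k0,k1,k0,k1],[k1,k0,k2,k0,k1],[k1,k0,k0,k1,k1],[k0,k2,k0,k0,k0],[k0,k1,k1,k0,k0],[k0,k1,k2,k0,k0],[k0,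
    k0,k2,k0,k0],[k0,k0,k3,k0,k0],[k0,k0,k4,k0,k0]]
    [.contra [y1,z2,z2],.contra [y1,z1,z0,z1],.ref k4 k0 [(z1,[z1]),(z1,[z0,z0,z1])],.contra [y1,z2,z2],.contra [y2,
    z2,z3],.contra [y2,z2,z3],.contra [z1,z0,z1,y1],.contra [y2,z0,y1,z2],.contra [z1,z1,z3,y2],.ref k3 k0 [(z1,[z1,
    z1]),(z1,[z0,z0,z1])],.contra [z1],.contra [z1,z1,z2,y1],.ref k2 k0 [(z1,[y1,z1,y1,z2]),(z1,[z0,z0,z1])],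
    .contra [z1,z2,z4,y2],.ref k2 k0 [(z1,[y1,z0,y3,z3]),(z1,[z0,z0,z1])],.ref k3 k0 [(z2,[y1,z0,y4,z4]),(z1,[z0,z0,
    z1])]]),
    .old (.lp [(nat_lit 240),(nat_lit 692),(nat_lit 346),(nat_lit 988),(nat_lit 240)] [(nat_lit 374),(nat_lit 374),k148,
    k148,(nat_lit 321),(nat_lit 321),k0,k0,(nat_lit 374),(nat_lit 374)] k0 [[k0,k0,k0,k0,k0,k0,k0,k28],[k0,k0,k0,k14],
    [k14],[],[],[k0,k0,k0,k0,k0,k0,k0,k148],[k0,k28,k0,k0,k148]] (nat_lit 1680) k8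
    [[(k1,(nat_lit 240)),(k8,(nat_lit 240))],[(k9,(nat_lit 240)),(k5,(nat_lit 307)),(k2,(nat_lit 466)),(k6,
    (nat_lit 586))],[(k9,(nat_lit 494)),(k5,(nat_lit 519)),(k2,(nat_lit 678)),(k6,(nat_lit 840))],[(k0,(nat_lit 466)),
    (k4,(nat_lit 519)),(k3,(nat_lit 678)),(k7,(nat_lit 840))],[(k0,(nat_lit 307)),(k4,(nat_lit 346)),(k3,
    (nat_lit 519)),(k7,(nat_lit 667))],[(k5,(nat_lit 346)),(k9,(nat_lit 441)),(k2,(nat_lit 519)),(k6,(nat_lit 667))],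
    [(k9,(nat_lit 614)),(k5,(nat_lit 667)),(k2,(nat_lit 840)),(k6,(nat_lit 840))],[(k0,(nat_lit 586)),(k4,
    (nat_lit 667)),(k3,(nat_lit 840)),(k7,(nat_lit 840))],[(k0,(nat_lit 240)),(k4,(nat_lit 441)),(k3,(nat_lit 494)),
    (k7,(nat_lit 614))],[(k1,(nat_lit 240)),(k8,(nat_lit 240))]]
    [] k0
    [[k2,k0,k1,k0,k2],[k3,k0,k0,k0,k3],[k2,k0,k0,k0,k2],[k1,k0,k0,k0,k1],[k1,k1,k0,k0,k1],[k1,k1,k1,k0,k1],[k1,k0,k1,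
    k0,k1],[k1,k0,k2,k0,k1],[k1,k0,k0,k1,k1],[k0,k2,k0,k0,k0],[k0,k1,k1,k0,k0],[k0,k1,k2,k0,k0],[k0,k0,k2,k0,k0],[k0,
    k0,k3,k0,k0],[k0,k0,k4,k0,k0],[k0,k0,k1,k1,k0]]
    [.contra [y2,z1,y1,z2],.ref k4 k0 [(z1,[z1]),(z1,[z0,z0,z1])],.contra [y1,z1,z1],.contra [y2,z1,z2],.contra [z1,
    y1,y2,z1],.contra [z1,z0,z1,y1],.contra [y2,y1,y4,z4],.contra [z1,z0,z1,y1],.ref k4 k0 [(z1,[z1,z1]),(z1,[z0,z0,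
    z1])],.contra [z1],.ref k2 k0 [(z1,[y1,z1,z0,z1]),(z1,[z0,z0,z1])],.contra [z1,z1,z3,y2],.contra [z1],
    .ref k2 k0 [(z1,[y1,z0,y3,z3]),(z1,[z0,z0,z1])],.contra [z1,z2,z6,y4],.contra [y2,y1,y1,z2]]),
    .old (.lp [(nat_lit 520),(nat_lit 1660),(nat_lit 686),(nat_lit 1680),(nat_lit 480)] [(nat_lit 580),(nat_lit 580),k10,
    k10,(nat_lit 497),(nat_lit 497),k0,k0,(nat_lit 600),(nat_lit 600)] k0 [[k0,k0,k0,k0,k0,k0,k20,(nat_lit 370)],[k0,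
    k0,(nat_lit 330),(nat_lit 988)],[(nat_lit 988)],[(nat_lit 330)],[k0,k0,k0,k0,k0,k0,k0,k70],[],[k0,(nat_lit 370),
    k0,k0,k0,k70],[k0,k20]] (nat_lit 3360) k8
    [[(k8,(nat_lit 500)),(k1,(nat_lit 520))],[(k9,(nat_lit 480)),(k6,(nat_lit 730)),(k2,(nat_lit 1420)),(k5,
    (nat_lit 1591))],[(k2,(nat_lit 672)),(k5,(nat_lit 843)),(k9,(nat_lit 1440)),(k6,(nat_lit 1690))],[(k3,
    (nat_lit 672)),(k4,(nat_lit 1173)),(k0,(nat_lit 1420)),(k7,(nat_lit 1670))],[(k4,(nat_lit 686)),(k3,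
    (nat_lit 843)),(k7,(nat_lit 1183)),(k0,(nat_lit 1591))],[(k9,(nat_lit 583)),(k5,(nat_lit 686)),(k6,
    (nat_lit 1113)),(k2,(nat_lit 1173))],[(k9,(nat_lit 1150)),(k5,(nat_lit 1183)),(k2,(nat_lit 1670)),(k6,
    (nat_lit 1680))],[(k0,(nat_lit 730)),(k4,(nat_lit 1113)),(k7,(nat_lit 1680)),(k3,(nat_lit 1690))],[(k0,
    (nat_lit 480)),(k4,(nat_lit 583)),(k7,(nat_lit 1150)),(k3,(nat_lit 1440))],[(k8,(nat_lit 480)),(k1,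
    (nat_lit 500))]]
    [] k0
    [[k3,k0,k0,k0,k3],[k2,k0,k0,k0,k2],[k1,k0,k0,k0,k1],[k1,k0,k1,k0,k1],[k1,k1,k1,k0,k1],[k1,k0,k1,k1,k1],[k1,k0,k0,
    k1,k1],[k0,k2,k0,k0,k0],[k0,k3,k0,k0,k0],[k0,k4,k0,k0,k0],[k0,k2,k1,k0,k0],[k0,k1,k1,k0,k0],[k0,k1,k2,k0,k0],[k0,
    k0,k2,k0,k0],[k0,k0,k3,k0,k0],[k0,k0,k4,k0,k0],[k0,k0,k2,k1,k0],[k0,k0,k1,k1,k0]]
    [.ref k4 k0 [(z1,[z1]),(z1,[z0,z0,z1])],.contra [y1,z2,z2],.contra [y1,z1,z1],.contra [y2,z0,y1,z2],.contra [z1,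
    z0,z1,y1],.contra [y1,z0,z0,z1],.contra [y1,z1,z2],.contra [z1],.contra [z1,y2,y4,z2],.contra [z1,y2,y4,z2],
    .contra [z1,z1,z2,y1],.ref k3 k0 [(z1,[y1,z1,z0,z1]),(z1,[z0,z0,z1])],.ref k4 k0 [(z1,[y1,z1,y1,z2]),(z1,[z0,z0,
    z1])],.contra [z1],.ref k2 k0 [(z1,[y1,z0,y3,z3]),(z1,[z0,z0,z1])],.ref k3 k0 [(z2,[y1,z0,y4,z4]),(z1,[z0,z0,
    z1])],.contra [z1,z1,z1,y1],.contra [y2,y2,y1,z2]]),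
    .old (.lp [(nat_lit 1244),(nat_lit 3346),(nat_lit 1708),(nat_lit 4844),(nat_lit 1388)] [(nat_lit 1800),(nat_lit 1800),
    (nat_lit 749),(nat_lit 749),(nat_lit 1568),(nat_lit 1568),k0,k0,(nat_lit 1822),(nat_lit 1634)] k0 [[k0,k0,k0,k0,
    k0,k0,(nat_lit 210)],[],[],[],[k0,k0,k0,k0,k0,k0,k0,(nat_lit 924)],[k0,k0,k0,k0,k0,k0,k0,(nat_lit 644)],[k0,k0,k0,
    k0,(nat_lit 644),(nat_lit 924)],[k0,(nat_lit 210)]] (nat_lit 8400) k8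
    [[(k8,(nat_lit 1222)),(k1,(nat_lit 1244))],[(k9,(nat_lit 1200)),(k5,(nat_lit 1476)),(k2,(nat_lit 2295)),(k6,
    (nat_lit 3044))],[(k9,(nat_lit 2461)),(k5,(nat_lit 2527)),(k2,(nat_lit 3346)),(k6,(nat_lit 4305))],[(k0,
    (nat_lit 2295)),(k4,(nat_lit 2527)),(k3,(nat_lit 3346)),(k7,(nat_lit 4095))],[(k0,(nat_lit 1476)),(k4,
    (nat_lit 1708)),(k3,(nat_lit 2527)),(k7,(nat_lit 3276))],[(k5,(nat_lit 1708)),(k9,(nat_lit 2286)),(k6,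
    (nat_lit 2352)),(k2,(nat_lit 2527))],[(k5,(nat_lit 3276)),(k2,(nat_lit 4095)),(k9,(nat_lit 4134)),(k6,
    (nat_lit 4200))],[(k4,(nat_lit 2352)),(k0,(nat_lit 3044)),(k7,(nat_lit 4200)),(k3,(nat_lit 4305))],[(k0,
    (nat_lit 1200)),(k4,(nat_lit 2286)),(k3,(nat_lit 2461)),(k7,(nat_lit 4134))],[(k8,(nat_lit 1200)),(k1,
    (nat_lit 1222))]]
    [] k0
    [[k2,k0,k1,k0,k2],[k3,k0,k0,k0,k3],[k2,k0,k0,k0,k2],[k1,k0,k0,k0,k1],[k1,k1,k0,k0,k1],[k1,k1,k1,k0,k1],[k1,k0,k1,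
    k0,k1],[k1,k0,k2,k0,k1],[k0,k2,k0,k0,k0],[k0,k1,k1,k0,k0],[k0,k1,k2,k0,k0],[k0,k0,k2,k0,k0],[k0,k0,k3,k0,k0],[k0,
    k0,k4,k0,k0],[k0,k0,k2,k1,k0],[k0,k0,k1,k1,k0]]
    [.contra [y1,z2],.ref k4 k0 [(z1,[z1]),(z1,[z0,y1,z1])],.contra [y1,z2],.contra [y2,z1,z1],.ref k7 k0 [(z1,[z1,z1,
    y1]),(z1,[z0,y1,z1])],.contra [z1,y1],.contra [y2,z1,z1],.contra [z1,y1],.contra [z1],.ref k5 k1 [(z1,[y1,z1]),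
    (z1,[z0,y1,z1])],.ref k6 k1 [(z1,[y1,z2]),(z1,[z0,y1,z1])],.contra [z1],.ref k2 k0 [(z1,[y1,z3]),(z1,[z0,y1,z1])],
    .ref k3 k0 [(z2,[y1,z4]),(z1,[z0,y1,z1])],.ref k6 k0 [(z1,[y1,z2]),(z1,[z0,y1,z1])],.ref k5 k0 [(z1,[y1,z1]),(z1,
    [z0,y1,z1])]]),
    .old (.tor k11 false k0 [(z1,[y1,y1,z1]),(z1,[y1,z0,z1]),(z1,[z2,z1])]),
    .old (.tor k10 false k0 [(z1,[y1,z0,z1]),(z1,[z0,y1,z1]),(z1,[z1,z1])]),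
    .old (.leafM k6 [k0,k1,k2,k3,k4] [(z1,[z0,z1]),(z1,[y3,y1,z3])] []),
    .old (.lp [k11,k14,k38,k14,k12] [k14,k13,k12,k12,k0,k0,k12,k12,k13,k13] k0 [[k0,k0,k1],[k0,k0,k0,k0,k0,k0,k0,k1],[k0,
    k0,k0,k0,k0,k7],[k0,k1,k0,k0,k0,k5],[k0,k0,k5,k7],[k0,k0,k0,k0,k0,k0,k1],[k1],[k0,k0,k0,k0,k1]] k60 k6
    [[(k1,k12),(k8,k12)],[(k2,k12),(k6,k12),(k9,k12),(k5,k23)],[(k6,k13),(k9,k13),(k2,k15),(k5,k26)],[(k0,k12),(k3,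
    k15),(k4,k19),(k7,k19)],[(k0,k23),(k3,k26),(k4,k33),(k7,k33)],[(k2,k19),(k9,k25),(k6,k27),(k5,k33)],[(k9,k12),(k6,
    k14),(k2,k19),(k5,k33)],[(k0,k12),(k3,k13),(k7,k14),(k4,k27)],[(k0,k12),(k7,k12),(k3,k13),(k4,k25)],[(k1,k12),(k8,
    k12)]]
    [] k0
    [[k2,k0,k0,k0,k2],[k1,k0,k0,k0,k1],[k1,k1,k0,k0,k1],[k1,k2,k0,k0,k1],[k1,k1,k0,k1,k1],[k1,k0,k0,k1,k1],[k1,k0,k0,
    k2,k1],[k0,k2,k0,k0,k0],[k0,k3,k0,k0,k0],[k0,k2,k0,k1,k0],[k0,k1,k1,k0,k0],[k0,k1,k0,k1,k0],[k0,k1,k0,k2,k0],[k0,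
    k0,k0,k2,k0],[k0,k0,k0,k3,k0],[k0,k0,k0,k4,k0]]
    [.contra [y1,z0,y2,z2],.contra [y1,z0,y1,z1],.contra [y1,z1,z2],.contra [z1,y1,y1],.contra [y1,z0,z0,z1],
    .contra [y1,y1,y2,z2],.ref k11 k0 [(z1,[z0,z0,y1,z1]),(z1,[y1,z1,z3])],.contra [z1],.ref k11 k1 [(z1,[z0,z0,y1,
    z1]),(z1,[y1,z0,z3])],.contra [z1,z0,y1],.ref k9 k0 [(z1,[y1,z0,z0,z1]),(z1,[z1,z1,z1,y1])],.contra [y1,z0,z2],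
    .contra [y1,y1,z0,z1],.contra [y1,y2,y2,z2],.ref k11 k0 [(z1,[z0,z0,y1,z1]),(z1,[y1,z0,z3])],.ref k9 k0 [(z2,[z1,
    z2]),(z2,[y1,z0,z2])]]),
    .old (.lp [k20,k42,k60,k32,k24] [k22,k18,k9,k9,k0,k0,k14,k14,k18,k18] k0 [[k0,k0,k8,k5],[k0,k0,k0,k0,k0,k0,k0,k4],[k0,
    k5],[k0,k8,k0,k0,k13],[k0,k0,k0,k0,k0,k0,k18],[k0,k0,k13],[k4],[k0,k0,k0,k0,k0,k18]] k120 k6
    [[(k1,k24),(k8,k24)],[(k2,k24),(k6,k24),(k9,k24),(k5,k30)],[(k6,k33),(k9,k33),(k2,k50),(k5,k56)],[(k0,k24),(k7,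
    k37),(k3,k50),(k4,k64)],[(k0,k30),(k7,k33),(k3,k56),(k4,k60)],[(k9,k24),(k6,k46),(k5,k60),(k2,k64)],[(k9,k28),(k5,
    k33),(k2,k37),(k6,k50)],[(k0,k24),(k3,k33),(k4,k46),(k7,k50)],[(k0,k24),(k4,k24),(k7,k28),(k3,k33)],[(k1,k24),(k8,
    k24)]]
    [] k0
    [[k2,k0,k0,k0,k2],[k1,k0,k0,k0,k1],[k1,k1,k0,k0,k1],[k1,k1,k0,k1,k1],[k1,k0,k1,k0,k1],[k1,k0,k1,k1,k1],[k1,k0,k0,
    k1,k1],[k0,k2,k0,k0,k0],[k0,k1,k0,k1,k0],[k0,k0,k1,k1,k0],[k0,k0,k0,k2,k0]]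
    [.contra [y1,z2],.contra [y2,z1,z1],.ref k10 k0 [(z1,[z0,z1]),(z1,[z1,y1])],.contra [z1,y1],.ref k12 k1 [(z1,[z1,
    z1,y1]),(z1,[y1,z0,z1])],.contra [y1,z0,z1],.contra [y2,z1,z1],.contra [z1],.ref k8 k0 [(z1,[y1,z0,z1])],
    .ref k9 k0 [(z1,[z0,z1]),(z1,[y1,y1,z1])],.contra [z1]]),
    .old (.tor k9 false k0 [(z1,[y2,y1,z2]),(z1,[z1]),(z1,[z1,z1])]),
    .old (.lp [k48,k106,k106,k48,k48] [k29,k29,k0,k0,k0,k0,k29,k29,k29,k29] k0 [[],[k0,k0,k38,k40],[k40,k0,k0,k0,k14],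
    [k38],[k0,k0,k0,k0,k0,k0,k2],[k0,k0,k0,k14],[],[k0,k0,k0,k0,k0,k2]] (nat_lit 240) k6
    [[(k1,k48),(k8,k48)],[(k6,k48),(k9,k48),(k2,k115),(k5,k117)],[(k2,k66),(k5,k68),(k6,k77),(k9,k77)],[(k7,k63),(k3,
    k66),(k4,k106),(k0,k115)],[(k3,k68),(k7,k77),(k0,k117),(k4,k120)],[(k9,k75),(k6,k77),(k2,k106),(k5,k120)],[(k9,
    k48),(k6,k50),(k2,k63),(k5,k77)],[(k0,k48),(k7,k50),(k3,k77),(k4,k77)],[(k0,k48),(k7,k48),(k4,k75),(k3,k77)],[(k1,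
    k48),(k8,k48)]]
    [] k0
    [[k2,k0,k0,k0,k2],[k1,k0,k0,k0,k1],[k1,k1,k0,k1,k1],[k1,k0,k0,k1,k1],[k1,k0,k0,k2,k1],[k0,k2,k0,k0,k0],[k0,k3,k0,
    k0,k0],[k0,k2,k0,k1,k0],[k0,k1,k1,k0,k0],[k0,k1,k1,k1,k0],[k0,k1,k0,k1,k0],[k0,k1,k0,k2,k0],[k0,k0,k1,k1,k0],[k0,
    k0,k1,k2,k0],[k0,k0,k0,k2,k0],[k0,k0,k0,k3,k0],[k0,k0,k0,k4,k0]]
    [.contra [y1,z2,z2],.contra [z1,y1],.contra [y1,z1,z2],.ref k14 k0 [(z1,[z1]),(z1,[y1,z1,z1])],.ref k11 k1 [(z1,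
    [z0,z0,y1,z1]),(z1,[z1,y1])],.contra [z1],.ref k11 k1 [(z1,[z0,z0,y1,z1]),(z1,[y1,z0,z3])],.contra [z1,z0,y1],
    .contra [z1,z1,z2,y1],.contra [z1,z1,z1,y1],.contra [y1,z0,z2],.contra [z1,z0,y1],.contra [y1,y1,z0,z1],
    .contra [z1,z1,z1,y1],.contra [z1],.ref k11 k0 [(z1,[z0,z0,y1,z1]),(z1,[y1,z0,z3])],.ref k14 k0 [(z2,[z1,z2]),(z2,
    [y1,z0,z2])]]),
    .old (.lp [k25,k46,k30,k54,k23] [k14,k15,k0,k8,k12,k12,k0,k0,k15,k16] k0 [[k0,k0,k4],[],[k0,k0,k0,k0,k30],[k0,k4],[k0,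
    k0,k0,k0,k0,k0,k0,k18],[k0,k0,k0,k30],[k0,k0,k0,k0,k0,k18]] k120 k6
    [[(k1,k24),(k8,k24)],[(k5,k24),(k9,k24),(k2,k40),(k6,k40)],[(k9,k30),(k5,k34),(k6,k46),(k2,k50)],[(k7,k24),(k0,
    k40),(k4,k42),(k3,k50)],[(k0,k24),(k3,k34),(k7,k42),(k4,k60)],[(k6,k24),(k9,k26),(k2,k42),(k5,k60)],[(k2,k24),(k5,
    k42),(k6,k54),(k9,k56)],[(k4,k24),(k0,k40),(k3,k46),(k7,k54)],[(k0,k24),(k4,k26),(k3,k30),(k7,k56)],[(k1,k24),(k8,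
    k24)]]
    [] k0
    [[k2,k0,k0,k0,k2],[k1,k0,k0,k0,k1],[k1,k1,k0,k0,k1],[k1,k1,k0,k1,k1],[k1,k0,k1,k0,k1],[k0,k2,k0,k0,k0],[k0,k1,k1,
    k0,k0],[k0,k1,k1,k1,k0],[k0,k1,k0,k1,k0],[k0,k0,k1,k1,k0],[k0,k0,k0,k2,k0]]
    [.contra [y1,z2],.contra [y1,z1],.ref k14 k0 [(z1,[z0,z1]),(z1,[z1,y1])],.contra [y1,z0,z1],.ref k15 k1 [(z1,[z1,
    z1,y1]),(z1,[y1,z0,z1])],.contra [z1],.contra [y1,y2,z2],.contra [z1,z1,y1],.ref k8 k0 [(z1,[y1,z0,z1])],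
    .ref k13 k1 [(z1,[y1,z0,z1])],.contra [z1]]),
    .old (.leafM k5 [k0,k1,k2,k3,k4] [(z1,[z0,z1]),(z1,[y2,y1,z2])] []),
    .old (.lp [k34,k30,k62,k28,k24] [k14,k14,k16,k16,k0,k0,k17,k17,k19,k19] k0 [[k0,k0,k0,k0,k0,k0,k5,k2],[],[k0,k0,k0,k0,
    k0,k2],[k0,k0,k0,k0,k0,k1],[k0,k0,k1,k2],[],[k0,k2],[k0,k5]] k120 k6
    [[(k8,k29),(k1,k34)],[(k9,k24),(k6,k29),(k2,k32),(k5,k48)],[(k9,k29),(k2,k30),(k6,k34),(k5,k46)],[(k3,k30),(k7,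
    k30),(k0,k32),(k4,k44)],[(k3,k46),(k7,k47),(k0,k48),(k4,k61)],[(k9,k43),(k2,k44),(k6,k45),(k5,k61)],[(k9,k26),(k6,
    k28),(k2,k30),(k5,k47)],[(k7,k28),(k0,k29),(k3,k34),(k4,k45)],[(k0,k24),(k7,k26),(k3,k29),(k4,k43)],[(k8,k24),(k1,
    k29)]]
    [] k0
    [[k2,k0,k0,k0,k2],[k1,k0,k0,k0,k1],[k1,k1,k0,k0,k1],[k1,k1,k0,k1,k1],[k1,k0,k0,k1,k1],[k1,k0,k0,k2,k1],[k0,k2,k0,
    k0,k0],[k0,k3,k0,k0,k0],[k0,k2,k0,k1,k0],[k0,k1,k1,k0,k0],[k0,k1,k0,k1,k0],[k0,k1,k0,k2,k0],[k0,k0,k1,k1,k0],[k0,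
    k0,k0,k2,k0],[k0,k0,k0,k3,k0],[k0,k0,k0,k4,k0]]
    [.contra [y1,z0,y2,z2],.contra [z1,y1],.contra [z1,y1,y1],.contra [y1,z0,z0,z1],.ref k16 k0 [(z1,[z1])],
    .contra [y1,y1,y2,z2],.contra [z1],.ref k13 k0 [(z1,[y1,z1,z3])],.contra [z1,z0,y1],.ref k13 k0 [(z1,[y1,z0,z0,
    z1])],.contra [y1,z0,z2],.contra [z1,z0,y1],.contra [z1,z1,z2,y1],.contra [z1],.ref k16 k0 [(z1,[z1,z1])],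
    .contra [y1,y2,y2,z2]]),
    .old (.lp [k34,k30,k62,k28,k24] [k14,k14,k16,k16,k0,k0,k17,k17,k19,k19] k0 [[k0,k0,k0,k0,k0,k0,k5,k2],[],[k0,k0,k0,k0,
    k0,k2],[k0,k0,k0,k0,k0,k1],[k0,k0,k1,k2],[],[k0,k2],[k0,k5]] k120 k6
    [[(k8,k29),(k1,k34)],[(k9,k24),(k6,k29),(k2,k32),(k5,k48)],[(k9,k29),(k2,k30),(k6,k34),(k5,k46)],[(k3,k30),(k7,
    k30),(k0,k32),(k4,k44)],[(k3,k46),(k7,k47),(k0,k48),(k4,k61)],[(k9,k43),(k2,k44),(k6,k45),(k5,k61)],[(k9,k26),(k6,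
    k28),(k2,k30),(k5,k47)],[(k7,k28),(k0,k29),(k3,k34),(k4,k45)],[(k0,k24),(k7,k26),(k3,k29),(k4,k43)],[(k8,k24),(k1,
    k29)]]
    [] k0
    [[k2,k0,k0,k0,k2],[k1,k0,k0,k0,k1],[k1,k1,k0,k0,k1],[k1,k1,k0,k1,k1],[k1,k0,k0,k1,k1],[k1,k0,k0,k2,k1],[k0,k2,k0,
    k0,k0],[k0,k3,k0,k0,k0],[k0,k2,k0,k1,k0],[k0,k1,k1,k0,k0],[k0,k1,k0,k1,k0],[k0,k1,k0,k2,k0],[k0,k0,k1,k1,k0],[k0,
    k0,k0,k2,k0],[k0,k0,k0,k3,k0],[k0,k0,k0,k4,k0]]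
    [.contra [y1,z2],.contra [y1,z1],.ref k16 k1 [(z1,[z1])],.contra [y1,z0,z1],.ref k16 k0 [(z1,[z1])],
    .ref k18 k1 [(z1,[z1,z2,y2]),(z1,[z0,y1,z1])],.contra [z1],.ref k11 k1 [(z1,[z0,z1]),(z1,[y1,y3,z3])],.contra [z1,
    z1,y1],.ref k13 k0 [(z1,[y1,z0,z1])],.contra [y1,y2,z2],.contra [z1,z1,y1],.ref k13 k1 [(z1,[y1,z0,z1])],
    .contra [z1],.ref k11 k0 [(z1,[z0,z1]),(z1,[y1,y3,z3])],.ref k17 k0 [(z1,[z0,z1]),(z2,[y1,y4,z4])]]),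
    .old (.lp [k24,k32,k60,k42,k20] [k18,k18,k14,k14,k0,k0,k9,k9,k18,k22] k0 [[k0,k0,k18],[k0,k0,k0,k0,k0,k0,k0,k4],[k0,
    k0,k0,k0,k0,k18],[k0,k18],[k0,k0,k0,k18,k0,k0,k8],[],[k4],[k0,k0,k0,k0,k0,k8]] k120 k6
    [[(k1,k24),(k8,k24)],[(k5,k24),(k9,k24),(k2,k28),(k6,k33)],[(k9,k24),(k6,k33),(k5,k46),(k2,k50)],[(k0,k28),(k4,
    k28),(k7,k37),(k3,k50)],[(k0,k24),(k3,k46),(k4,k60),(k7,k69)],[(k2,k28),(k9,k30),(k6,k51),(k5,k60)],[(k9,k29),(k2,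
    k37),(k6,k50),(k5,k69)],[(k0,k33),(k3,k33),(k7,k50),(k4,k51)],[(k0,k24),(k3,k24),(k7,k29),(k4,k30)],[(k1,k24),(k8,
    k24)]]
    [] k0
    [[k2,k0,k0,k0,k2],[k1,k0,k0,k0,k1],[k1,k1,k0,k0,k1],[k1,k1,k1,k0,k1],[k1,k1,k0,k1,k1],[k1,k0,k1,k0,k1],[k1,k0,k0,
    k1,k1],[k0,k2,k0,k0,k0],[k0,k1,k1,k0,k0],[k0,k1,k0,k1,k0],[k0,k0,k0,k2,k0]]
    [.ref k1 k0 [(z2,[z1])],.ref k0 k0 [(z1,[z1])],.ref k16 k1 [(z1,[z1])],.contra [y1,z1],.contra [y1,z1],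
    .ref k19 k0 [(z1,[z1])],.ref k16 k0 [(z1,[z1])],.contra [z1],.ref k13 k0 [(z1,[y1,z1])],.ref k8 k0 [(z1,[y1,z1])],
    .contra [z1]])]⟩

/-- classes `0 0 0 0 1`, types `B0 B1 B1 B0 C0` -/
noncomputable def cU5_8 : CertX :=
  ⟨[k8,k9,k9,k8,k20],[(false,k0,[k0,k1,k2,k3,k4])],[[[([z1,z0,z1,z0,z1],z1)],[([z1,z0,z1,z0,z1],z2)],[]]],
    [.old (.leafM k1 [k4,k0,k2] [] [(k1,k3,z1,[y1,z1]),(k3,k1,z1,[y1,z1])]),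
    .old (.leafM k2 [k0,k1,k2,k3,k4] [(z1,[y1,z1])] []),
    .old (.lp [k6,k8,k6,k8,k6] [k1,k1,k0,k0,k1,k1,k0,k0,k1,k1] k0 [] k24 k5
    [[(k8,k6)],[(k4,k6),(k5,k6),(k2,k7),(k7,k7)],[(k4,k7),(k5,k7),(k2,k8),(k7,k8)],[(k0,k7),(k9,k7),(k3,k8),(k6,k8)],
    [(k0,k6),(k9,k6),(k3,k7),(k6,k7)],[(k0,k6),(k9,k6),(k3,k7),(k6,k7)],[(k0,k7),(k9,k7),(k3,k8),(k6,k8)],[(k4,k7),
    (k5,k7),(k2,k8),(k7,k8)],[(k4,k6),(k5,k6),(k2,k7),(k7,k7)],[(k1,k6)]]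
    [] k0
    [[k1,k0,k1,k0,k1],[k0,k2,k0,k0,k0],[k0,k1,k0,k1,k0],[k0,k0,k0,k2,k0]]
    [.ref k1 k0 [(z1,[z1])],.contra [z1],.ref k0 k0 [(z1,[y1,z1])],.contra [z1]])]⟩

/-- classes `0 0 0 0 1`, types `B0 B1 B1 B0 S0` -/
noncomputable def cU5_9 : CertX :=
  ⟨[k8,k9,k9,k8,k16],[(false,k0,[k0,k1,k2,k3,k4]),(true,k4,[k4,k3,k2,k1,k0])],[[[([z1,z0,z1,z0,z1],z1)],[([z1,z0,z1,
    z0,z1],z2)],[([z1,z0,z0,y1,y1],y1),([z0,z1,z0,z2,z0],z2)],[([z2,z0,z1,z0,z0],z2)],[]]],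
    [.old (.leafM k1 [k4,k0,k2] [] [(k1,k3,z1,[y1,z1]),(k3,k1,z1,[y1,z1])]),
    .old (.leafM k2 [k0,k1,k2,k3,k4] [(z1,[y1,z1])] []),
    .old (.tor k12 false k0 [(z1,[y1,y1,z1]),(z1,[z0,z1]),(z1,[z1,z0,z1])]),
    .old (.lp [(nat_lit 193800),(nat_lit 167960),(nat_lit 83980),(nat_lit 185640),(nat_lit 118560)] [k0,k0,
    (nat_lit 12920),(nat_lit 12920),(nat_lit 54910),(nat_lit 54910),(nat_lit 4080),(nat_lit 4080),(nat_lit 37620),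
    (nat_lit 37620)] k0 [[k0,k0,k0,(nat_lit 20995),(nat_lit 20995)],[k0,k0,k0,k0,(nat_lit 33592)],[k0,
    (nat_lit 20995)],[],[],[(nat_lit 33592),(nat_lit 20995)]] (nat_lit 503880) k6
    [[(k8,(nat_lit 156180)),(k1,(nat_lit 193800))],[(k5,(nat_lit 138890)),(k2,(nat_lit 159885)),(k7,(nat_lit 168725)),
    (k4,(nat_lit 172482))],[(k7,(nat_lit 143208)),(k4,(nat_lit 146965)),(k5,(nat_lit 146965)),(k2,(nat_lit 167960))],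
    [(k9,(nat_lit 143260)),(k0,(nat_lit 159885)),(k3,(nat_lit 167960)),(k6,(nat_lit 176800))],[(k9,(nat_lit 101270)),
    (k6,(nat_lit 134810)),(k0,(nat_lit 138890)),(k3,(nat_lit 146965))],[(k9,(nat_lit 101270)),(k6,(nat_lit 134810)),
    (k3,(nat_lit 146965)),(k0,(nat_lit 172482))],[(k3,(nat_lit 143208)),(k9,(nat_lit 152100)),(k0,(nat_lit 168725)),
    (k6,(nat_lit 185640))],[(k4,(nat_lit 134810)),(k5,(nat_lit 134810)),(k2,(nat_lit 176800)),(k7,(nat_lit 185640))],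
    [(k4,(nat_lit 101270)),(k5,(nat_lit 101270)),(k2,(nat_lit 143260)),(k7,(nat_lit 152100))],[(k8,(nat_lit 118560)),
    (k1,(nat_lit 156180))]]
    [] k0
    [[k1,k0,k1,k0,k1],[k0,k2,k0,k0,k0],[k0,k2,k0,k1,k0],[k0,k1,k0,k1,k0],[k0,k0,k1,k0,k2],[k0,k0,k0,k2,k0]]
    [.ref k1 k0 [(z1,[z1])],.contra [z1],.ref k2 k1 [(z1,[y1,y1,z1]),(z1,[z1])],.contra [y2,y1,z2],.ref k1 k0 [(z2,
    [z1,z1])],.contra [z1]]),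
    .old (.lp [k6,k8,k6,k8,k6] [k1,k1,k0,k0,k1,k1,k0,k0,k1,k1] k0 [] k24 k5
    [[(k1,k6),(k8,k6)],[(k4,k6),(k5,k6),(k2,k7),(k7,k7)],[(k4,k7),(k5,k7),(k2,k8),(k7,k8)],[(k0,k7),(k9,k7),(k3,k8),
    (k6,k8)],[(k0,k6),(k9,k6),(k3,k7),(k6,k7)],[(k0,k6),(k9,k6),(k3,k7),(k6,k7)],[(k0,k7),(k9,k7),(k3,k8),(k6,k8)],
    [(k4,k7),(k5,k7),(k2,k8),(k7,k8)],[(k4,k6),(k5,k6),(k2,k7),(k7,k7)],[(k1,k6),(k8,k6)]]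
    [] k0
    [[k2,k0,k1,k0,k0],[k1,k0,k1,k0,k1],[k0,k2,k0,k0,k0],[k0,k1,k0,k1,k0],[k0,k0,k1,k0,k2],[k0,k0,k0,k2,k0]]
    [.ref k3 k0 [(z1,[z1])],.ref k1 k0 [(z1,[z1])],.contra [z1],.ref k0 k0 [(z1,[y1,z1])],.ref k3 k1 [(z1,[z1])],
    .contra [z1]])]⟩

/-- classes `0 0 0 0 1`, types `C0 C0 C0 C0 C0` -/
noncomputable def cU5_10 : CertX :=
  ⟨[k4,k4,k4,k4,k20],[(false,k0,[k0,k1,k2,k3,k4]),(true,k4,[k4,k3,k2,k1,k0])],[[[([z1,z0,z0,z1,z1],z1)],[([z1,z0,z0,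
    z0,z1],z1)],[([z1,z0,z0,z0,z1],z2)],[([z1,z0,z0,z1,z1],z2)],[([z3,z0,z0,z0,z3],z1),([z0,z1,z0,z1,z0],z2)],[([z2,
    z0,z0,z0,z2],z1),([z0,z1,z0,z1,z0],z2)],[([z2,z0,z0,y1,z2],z0),([z0,z1,z0,z1,z0],z2)],[([z3,z0,z0,z0,z3],z2),([z0,
    z1,z0,z1,z0],z2)],[([z1,z0,z1,z0,z1],z1)],[([z1,z0,z1,z0,z1],z2),([z0,z3,z0,z0,z0],z1)],[([z1,z0,z1,z0,z1],z2),
    ([z0,z2,z0,z0,z0],z1)],[([z1,z0,z0,y2,z1],z0),([z0,z1,z0,z1,z0],z1)]],[[([z1,z0,z1,z0,z1],z2)],[]]],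
    [.old (.leafM k0 [k0,k3,k4] [] [(k1,k2,z1,[y1,z1]),(k2,k1,z1,[y1,z1])]),
    .old (.leafM k1 [k3,k4,k0,k1,k2] [(z1,[z1])] []),
    .old (.leafM k0 [k1,k2,k3] [] [(k4,k0,z1,[z1]),(k0,k4,z1,[z1])]),
    .old (.leafM k1 [k0,k1,k2,k3,k4] [(z1,[y1,z1])] []),
    .old (.leafM k2 [k0,k2,k4] [(z1,[y1,y3,z3]),(z1,[z1])] [(k1,k3,z1,[z0,z1]),(k3,k1,z1,[z0,z1])]),
    .old (.leafM k3 [k0,k2,k4] [(z1,[y1,y2,z2]),(z1,[z1])] [(k1,k3,z1,[z0,z1]),(k3,k1,z1,[z0,z1])]),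
    .old (.tor k2 true k3 [(z1,[z1,z1]),(z1,[z0,z1]),(z1,[y1,y2,z2])]),
    .old (.leafM k4 [k0,k2,k4] [(z1,[y1,y3,z3]),(z1,[z1])] [(k1,k3,z1,[z0,z1]),(k3,k1,z1,[z0,z1])]),
    .old (.lp [(nat_lit 362872),(nat_lit 468484),(nat_lit 362872),(nat_lit 597114),k0] [(nat_lit 162481),(nat_lit 162481),
    (nat_lit 109675),(nat_lit 109675),(nat_lit 162481),(nat_lit 162481),(nat_lit 90720),k0,(nat_lit 343917),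
    (nat_lit 343917)] (nat_lit 18956) [[k0,k0,k0,k0,(nat_lit 343916)],[],[],[k0,k0,k0,k0,k0,(nat_lit 109674)],[k0,k0,
    (nat_lit 109674)],[k0,(nat_lit 343916)]] (nat_lit 1137360) k8
    [[(k8,(nat_lit 162480))],[(k9,(nat_lit 162480)),(k7,(nat_lit 162481)),(k5,(nat_lit 343916)),(k3,
    (nat_lit 396722))],[(k0,(nat_lit 396722)),(k2,(nat_lit 449528)),(k6,(nat_lit 468483)),(k4,(nat_lit 740638))],[(k9,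
    (nat_lit 215286)),(k5,(nat_lit 396722)),(k3,(nat_lit 449528)),(k7,(nat_lit 668877))],[(k4,(nat_lit 234242)),(k0,
    (nat_lit 343916)),(k2,(nat_lit 396722)),(k6,(nat_lit 415677))],[(k9,(nat_lit 162480)),(k5,(nat_lit 234242)),(k7,
    (nat_lit 506397)),(k3,(nat_lit 740638))],[(k0,(nat_lit 162481)),(k4,(nat_lit 506397)),(k6,(nat_lit 578158)),(k2,
    (nat_lit 668877))],[(k9,(nat_lit 234241)),(k5,(nat_lit 415677)),(k3,(nat_lit 468483)),(k7,(nat_lit 578158))],[(k0,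
    (nat_lit 162480)),(k4,(nat_lit 162480)),(k2,(nat_lit 215286)),(k6,(nat_lit 234241))],[(k1,(nat_lit 162480))]]
    [] k0
    [[k1,k0,k0,k0,k1],[k2,k0,k0,k0,k2],[k3,k0,k0,k0,k3],[k2,k1,k0,k0,k2],[k2,k0,k1,k0,k2],[k2,k0,k0,k1,k2],[k1,k1,k0,
    k0,k1],[k1,k1,k0,k1,k1],[k1,k0,k1,k0,k1],[k1,k1,k1,k0,k1],[k1,k0,k2,k0,k1],[k1,k0,k1,k1,k1],[k1,k0,k0,k1,k1],[k2,
    k0,k0,k2,k2],[k0,k2,k0,k0,k0],[k0,k0,k2,k0,k0],[k0,k0,k3,k0,k0],[k0,k0,k4,k0,k0],[k0,k0,k1,k1,k0]]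
    [.contra [y2,z1,z1],.contra [y1,z2],.ref k7 k0 [(z1,[z1]),(z1,[z0,y1,z1])],.ref k6 k0 [(z1,[z1,z1,y1]),(z1,[z0,y1,
    z1])],.contra [y1,z2],.ref k6 k1 [(z1,[z1,z1,y1]),(z1,[z0,y1,z1])],.ref k3 k1 [(z1,[z1])],.contra [y1,z0,z1],
    .contra [y2,z1,z1],.contra [z1,y1],.contra [z1,y1],.contra [y1,z0,z1],.ref k3 k0 [(z1,[z1])],.ref k0 k0 [(z2,
    [z1])],.contra [z1],.contra [z1],.ref k4 k0 [(z1,[y1,z3]),(z1,[z0,y1,z1])],.ref k5 k0 [(z2,[y1,z4]),(z1,[z0,y1,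
    z1])],.ref k0 k1 [(z1,[y1,z0,z1])]]),
    .old (.leafM k6 [k0,k1,k2,k3,k4] [(z1,[z0,z1]),(z1,[y3,y1,z3])] []),
    .old (.leafM k5 [k0,k1,k2,k3,k4] [(z1,[z0,z1]),(z1,[y2,y1,z2])] []),
    .old (.tor k0 false k1 [(z1,[y1,y1,z1]),(z1,[z0,y1,z1]),(z1,[z1,z2])]),
    .old (.lp [k72,k120,(nat_lit 200),k198,k128] [k64,k64,k40,k40,k0,k0,k1,k1,k36,k36] k0 [[k0,k0,k0,k0,k0,k0,k4],[],[],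
    [k0,k0,k0,k0,k0,k40],[k0,k0,k40],[k0,k0,k0,k0,k0,k0,k0,k80],[k0,k0,k0,k0,k80],[k0,k4]] (nat_lit 480) k6
    [[(k8,k100)],[(k3,k96),(k9,k96),(k7,k135),(k5,k136)],[(k0,k96),(k2,k120),(k4,k160),(k6,k163)],[(k3,k120),(k9,
    k124),(k5,k160),(k7,k199)],[(k0,k136),(k2,k160),(k4,k160),(k6,k199)],[(k3,k160),(k5,k160),(k7,k199),(k9,
    (nat_lit 244))],[(k6,k118),(k0,k135),(k2,k199),(k4,k199)],[(k7,k118),(k3,k163),(k9,k163),(k5,k199)],[(k0,k96),(k2,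
    k124),(k6,k163),(k4,(nat_lit 244))],[(k1,k100)]]
    [] k0
    [[k1,k0,k0,k0,k1],[k2,k0,k0,k0,k2],[k1,k1,k0,k0,k1],[k1,k2,k0,k0,k1],[k1,k0,k0,k1,k1],[k0,k2,k0,k0,k0],[k0,k3,k0,
    k0,k0],[k0,k2,k1,k0,k0],[k0,k1,k1,k0,k0],[k0,k1,k0,k1,k0],[k0,k0,k2,k0,k0],[k0,k0,k1,k1,k0],[k0,k0,k0,k2,k0],[k0,
    k0,k0,k3,k0],[k0,k0,k0,k4,k0]]
    [.contra [y1,z1],.contra [y1,z2],.ref k3 k1 [(z1,[z1])],.ref k11 k0 [(z1,[z1,z2,y2]),(z1,[z0,y1,z1])],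
    .ref k3 k0 [(z1,[z1])],.contra [z1],.ref k9 k1 [(z1,[z0,z1]),(z1,[y1,y3,z3])],.ref k11 k1 [(z1,[y1,z1]),(z1,[z0,
    y1,z1])],.ref k0 k0 [(z1,[y1,z0,z1])],.contra [y1,y2,z2],.contra [z1],.ref k0 k1 [(z1,[y1,z0,z1])],.contra [z1],
    .ref k9 k0 [(z1,[z0,z1]),(z1,[y1,y3,z3])],.ref k10 k0 [(z1,[z0,z1]),(z2,[y1,y4,z4])]]),
    .old (.lp [k13,k20,k20,k20,k16] [k4,k3,k0,k0,k0,k0,k0,k0,k2,k2] k0 [[k0,k0,k1],[k0,k0,k0,k0,k0,k0,k0,k1],[],[k0,k1],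
    [k0,k0,k0,k0,k0,k0,k1],[],[k1],[k0,k0,k0,k0,k0,k1]] k60 k5
    [[(k8,k15)],[(k5,k15),(k9,k15),(k3,k16),(k7,k16)],[(k0,k16),(k6,k19),(k4,k20),(k2,k21)],[(k9,k18),(k5,k20),(k7,
    k20),(k3,k21)],[(k0,k15),(k2,k20),(k4,k20),(k6,k20)],[(k9,k17),(k3,k20),(k5,k20),(k7,k20)],[(k0,k16),(k2,k20),(k4,
    k20),(k6,k21)],[(k9,k18),(k3,k19),(k5,k20),(k7,k21)],[(k0,k15),(k4,k17),(k2,k18),(k6,k18)],[(k1,k15)]]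
    [] k0
    [[k1,k0,k0,k0,k1],[k1,k1,k0,k0,k1],[k1,k0,k1,k0,k1],[k1,k0,k0,k1,k1],[k0,k2,k0,k0,k0],[k0,k1,k1,k0,k0],[k0,k1,k0,
    k1,k0],[k0,k1,k1,k1,k0],[k0,k0,k2,k0,k0],[k0,k0,k1,k1,k0],[k0,k0,k0,k2,k0]]
    [.ref k2 k0 [(z1,[z1])],.ref k3 k1 [(z1,[z1])],.ref k12 k0 [(z1,[z1])],.ref k3 k0 [(z1,[z1])],.contra [z1],
    .ref k0 k0 [(z1,[y1,z1])],.ref k8 k0 [(z1,[y1,z1])],.ref k1 k0 [(z1,[y1,z1])],.contra [z1],.ref k0 k1 [(z1,[y1,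
    z1])],.contra [z1]])]⟩

/-- classes `0 0 0 0 1`, types `C0 C0 C0 C0 S0` -/
noncomputable def cU5_11 : CertX :=
  ⟨[k4,k4,k4,k4,k16],[(false,k0,[k0,k1,k2,k3,k4]),(true,k4,[k4,k3,k2,k1,k0])],[[[([z1,z0,z0,z1,z1],z1)],[([z1,z0,z0,
    z0,z1],z1)],[([z1,z0,z0,z0,z1],z2)],[([z1,z0,z0,z1,z1],z2)],[([z3,z0,z0,z0,z3],z1),([z0,z1,z0,z1,z0],z2)],[([z2,
    z0,z0,z0,z2],z1),([z0,z1,z0,z1,z0],z2)],[([z2,z0,z0,y1,z2],z0),([z0,z1,z0,z1,z0],z2)],[([z3,z0,z0,z0,z3],z2),([z0,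
    z1,z0,z1,z0],z2)],[([z1,z0,z1,z0,z1],z1)],[([z1,z0,z1,z0,z1],z2),([z0,z3,z0,z0,z0],z1)],[([z1,z0,z1,z0,z1],z2),
    ([z0,z2,z0,z0,z0],z1)],[([z1,z0,z0,y2,z1],z0),([z0,z1,z0,z1,z0],z1)]],[[([z1,z0,z1,z0,z1],z2)],[]]],
    [.old (.leafM k0 [k0,k3,k4] [] [(k1,k2,z1,[y1,z1]),(k2,k1,z1,[y1,z1])]),
    .old (.leafM k1 [k3,k4,k0,k1,k2] [(z1,[z1])] []),
    .old (.leafM k0 [k1,k2,k3] [] [(k4,k0,z1,[z1]),(k0,k4,z1,[z1])]),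
    .old (.leafM k1 [k0,k1,k2,k3,k4] [(z1,[y1,z1])] []),
    .old (.leafM k2 [k0,k2,k4] [(z1,[y1,y3,z3]),(z1,[z1])] [(k1,k3,z1,[z0,z1]),(k3,k1,z1,[z0,z1])]),
    .old (.leafM k3 [k0,k2,k4] [(z1,[y1,y2,z2]),(z1,[z1])] [(k1,k3,z1,[z0,z1]),(k3,k1,z1,[z0,z1])]),
    .old (.tor k2 true k3 [(z1,[z1,z1]),(z1,[z0,z1]),(z1,[y1,y2,z2])]),
    .old (.leafM k4 [k0,k2,k4] [(z1,[y1,y3,z3]),(z1,[z1])] [(k1,k3,z1,[z0,z1]),(k3,k1,z1,[z0,z1])]),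
    .old (.lp [(nat_lit 1748),(nat_lit 4370),(nat_lit 5152),(nat_lit 5244),(nat_lit 1748)] [(nat_lit 1748),(nat_lit 1748),
    (nat_lit 437),(nat_lit 437),k46,k46,k0,k0,(nat_lit 1748),(nat_lit 1748)] k0 [[],[],[],[k0,k0,k0,k0,k0,
    (nat_lit 2622)],[k0,k0,(nat_lit 2622)],[k0,k0,k0,k0,k0,k0,k0,(nat_lit 1064)],[k0,k0,k0,k0,
    (nat_lit 1064)]] (nat_lit 12236) k8
    [[(k1,(nat_lit 1748)),(k8,(nat_lit 1748))],[(k9,(nat_lit 1748)),(k3,(nat_lit 3059)),(k5,(nat_lit 3450)),(k7,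
    (nat_lit 3496))],[(k0,(nat_lit 3059)),(k2,(nat_lit 4370)),(k4,(nat_lit 4761)),(k6,(nat_lit 4807))],[(k9,
    (nat_lit 3059)),(k3,(nat_lit 4370)),(k5,(nat_lit 4761)),(k7,(nat_lit 7429))],[(k4,(nat_lit 2530)),(k0,
    (nat_lit 3450)),(k2,(nat_lit 4761)),(k6,(nat_lit 5198))],[(k5,(nat_lit 2530)),(k9,(nat_lit 4514)),(k3,
    (nat_lit 4761)),(k7,(nat_lit 5198))],[(k0,(nat_lit 3496)),(k6,(nat_lit 4180)),(k4,(nat_lit 5198)),(k2,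
    (nat_lit 7429))],[(k9,(nat_lit 3496)),(k7,(nat_lit 4180)),(k3,(nat_lit 4807)),(k5,(nat_lit 5198))],[(k0,
    (nat_lit 1748)),(k2,(nat_lit 3059)),(k6,(nat_lit 3496)),(k4,(nat_lit 4514))],[(k1,(nat_lit 1748)),(k8,
    (nat_lit 1748))]]
    [] k0
    [[k2,k1,k0,k0,k2],[k3,k0,k0,k0,k3],[k2,k0,k0,k0,k2],[k1,k0,k0,k0,k1],[k1,k1,k0,k0,k1],[k1,k0,k1,k0,k1],[k1,k0,k0,
    k1,k1],[k0,k2,k0,k0,k0],[k0,k1,k1,k0,k0],[k0,k1,k2,k0,k0],[k0,k0,k2,k0,k0],[k0,k0,k3,k0,k0],[k0,k0,k4,k0,k0],[k0,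
    k0,k1,k1,k0],[k0,k0,k0,k2,k0]]
    [.ref k6 k0 [(z1,[z1,z1,y1]),(z1,[z0,y1,z1])],.ref k7 k0 [(z1,[z1]),(z1,[z0,y1,z1])],.contra [y1,z2],.contra [y2,
    z1,z1],.ref k3 k1 [(z1,[z1])],.contra [y2,z1,z1],.ref k3 k0 [(z1,[z1])],.contra [z1],.ref k0 k0 [(z1,[y1,z0,z1])],
    .ref k6 k1 [(z1,[y1,z2]),(z1,[z0,y1,z1])],.contra [z1],.ref k4 k0 [(z1,[y1,z3]),(z1,[z0,y1,z1])],.ref k5 k0 [(z2,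
    [y1,z4]),(z1,[z0,y1,z1])],.ref k0 k1 [(z1,[y1,z0,z1])],.contra [y1,y2,z2]]),
    .old (.leafM k6 [k0,k1,k2,k3,k4] [(z1,[z0,z1]),(z1,[y3,y1,z3])] []),
    .old (.leafM k5 [k0,k1,k2,k3,k4] [(z1,[z0,z1]),(z1,[y2,y1,z2])] []),
    .old (.tor k0 false k1 [(z1,[y1,y1,z1]),(z1,[z0,y1,z1]),(z1,[z1,z2])]),
    .old (.lp [k104,k160,k196,k162,k96] [k46,k46,k18,k18,k0,k0,k17,k17,k50,k50] k0 [[k0,k0,k0,k0,k0,k0,k4],[k0,k0,k0,k40],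
    [k40],[k0,k0,k0,k0,k0,k36],[k0,k0,k36],[k0,k0,k0,k0,k0,k0,k0,k44],[k0,k0,k0,k0,k44],[k0,k4]] (nat_lit 480) k6
    [[(k8,k100),(k1,k104)],[(k9,k96),(k3,k132),(k7,k133),(k5,k190)],[(k2,k120),(k0,k132),(k6,k165),(k4,k178)],[(k3,
    k120),(k9,k128),(k5,k178),(k7,k197)],[(k4,k160),(k2,k178),(k6,k179),(k0,k190)],[(k5,k160),(k3,k178),(k7,k179),(k9,
    k190)],[(k6,k118),(k0,k133),(k4,k179),(k2,k197)],[(k7,k118),(k9,k129),(k3,k165),(k5,k179)],[(k0,k96),(k2,k128),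
    (k6,k129),(k4,k190)],[(k8,k96),(k1,k100)]]
    [] k0
    [[k2,k0,k0,k0,k2],[k1,k0,k0,k0,k1],[k1,k1,k0,k0,k1],[k1,k0,k0,k1,k1],[k0,k2,k0,k0,k0],[k0,k3,k0,k0,k0],[k0,k2,k1,
    k0,k0],[k0,k1,k1,k0,k0],[k0,k1,k0,k1,k0],[k0,k0,k2,k0,k0],[k0,k0,k1,k1,k0],[k0,k0,k1,k2,k0],[k0,k0,k0,k2,k0],[k0,
    k0,k0,k3,k0],[k0,k0,k0,k4,k0]]
    [.contra [y1,z2],.contra [y1,z1],.ref k3 k1 [(z1,[z1])],.ref k3 k0 [(z1,[z1])],.contra [z1],.ref k9 k1 [(z1,[z0,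
    z1]),(z1,[y1,y3,z3])],.ref k11 k1 [(z1,[y1,z1]),(z1,[z0,y1,z1])],.ref k0 k0 [(z1,[y1,z0,z1])],.contra [y1,y2,z2],
    .contra [z1],.ref k0 k1 [(z1,[y1,z0,z1])],.ref k11 k0 [(z1,[y1,z1]),(z1,[z0,y1,z1])],.contra [z1],.ref k9 k0 [(z1,
    [z0,z1]),(z1,[y1,y3,z3])],.ref k10 k0 [(z1,[z0,z1]),(z2,[y1,y4,z4])]]),
    .old (.lp [k28,k40,k40,k40,k30] [k7,k5,k0,k0,k0,k0,k0,k0,k5,k5] k0 [[k0,k0,k2],[k0,k0,k0,k0,k0,k0,k0,k2],[],[k0,k2],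
    [k0,k0,k0,k0,k0,k0,k2],[],[k2],[k0,k0,k0,k0,k0,k2]] k120 k5
    [[(k1,k30),(k8,k30)],[(k9,k30),(k5,k31),(k3,k33),(k7,k33)],[(k0,k33),(k6,k38),(k4,k40),(k2,k42)],[(k9,k35),(k5,
    k40),(k7,k40),(k3,k42)],[(k0,k31),(k2,k40),(k4,k40),(k6,k40)],[(k9,k33),(k3,k40),(k5,k40),(k7,k40)],[(k0,k33),(k2,
    k40),(k4,k40),(k6,k42)],[(k9,k35),(k3,k38),(k5,k40),(k7,k42)],[(k0,k30),(k4,k33),(k2,k35),(k6,k35)],[(k1,k30),(k8,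
    k30)]]
    [] k0
    [[k1,k0,k0,k0,k1],[k1,k1,k0,k0,k1],[k1,k0,k1,k0,k1],[k1,k0,k0,k1,k1],[k0,k2,k0,k0,k0],[k0,k1,k1,k0,k0],[k0,k1,k0,
    k1,k0],[k0,k1,k1,k1,k0],[k0,k0,k2,k0,k0],[k0,k0,k1,k1,k0],[k0,k0,k0,k2,k0]]
    [.ref k2 k0 [(z1,[z1])],.ref k3 k1 [(z1,[z1])],.ref k12 k0 [(z1,[z1])],.ref k3 k0 [(z1,[z1])],.contra [z1],
    .ref k0 k0 [(z1,[y1,z1])],.ref k8 k0 [(z1,[y1,z1])],.ref k1 k0 [(z1,[y1,z1])],.contra [z1],.ref k0 k1 [(z1,[y1,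
    z1])],.contra [z1]])]⟩

/-- classes `0 0 0 0 1`, types `C0 C0 C0 C2 C0` -/
noncomputable def cU5_12 : CertX :=
  ⟨[k4,k4,k4,k6,k20],[(false,k0,[k0,k1,k2,k3,k4])],[[[([z1,z0,z0,z1,z1],z1)],[([z1,z0,z0,z1,z1],z2)],[]]],
    [.old (.leafM k0 [k0,k3,k4] [] [(k1,k2,z1,[y1,z1]),(k2,k1,z1,[y1,z1])]),
    .old (.leafM k1 [k0,k1,k2,k3,k4] [(z1,[y1,z1])] []),
    .old (.lp [k6,k8,k8,k6,k6] [k1,k1,k0,k0,k0,k0,k1,k1,k1,k1] k0 [] k24 k5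
    [[(k8,k6)],[(k6,k6),(k7,k6),(k3,k7),(k5,k7)],[(k0,k7),(k9,k7),(k2,k8),(k4,k8)],[(k6,k7),(k7,k7),(k3,k8),(k5,k8)],
    [(k0,k7),(k9,k7),(k2,k8),(k4,k8)],[(k6,k7),(k7,k7),(k3,k8),(k5,k8)],[(k0,k6),(k9,k6),(k2,k7),(k4,k7)],[(k0,k6),
    (k9,k6),(k2,k7),(k4,k7)],[(k6,k6),(k7,k6),(k3,k7),(k5,k7)],[(k1,k6)]]
    [] k0
    [[k1,k0,k0,k1,k1],[k0,k2,k0,k0,k0],[k0,k1,k1,k0,k0],[k0,k0,k2,k0,k0]]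
    [.ref k1 k0 [(z1,[z1])],.contra [z1],.ref k0 k0 [(z1,[y1,z1])],.contra [z1]])]⟩

/-- classes `0 0 0 0 1`, types `C0 C0 C0 C2 S0` -/
noncomputable def cU5_13 : CertX :=
  ⟨[k4,k4,k4,k6,k16],[(false,k0,[k0,k1,k2,k3,k4])],[[[([z1,z0,z0,z1,z1],z1)],[([z1,z0,z0,z1,z1],z2)],[([z2,z0,z1,z0,
    y2],z0),([z0,z2,z1,z0,z0],z2)],[([z1,z1,z1,z0,y1],z1)],[([z2,z0,z0,z1,z0],z2),([z0,z1,z0,z1,z2],z2)],[([z1,z0,y1,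
    z1,z1],z1)],[]]],
    [.old (.leafM k0 [k0,k3,k4] [] [(k1,k2,z1,[y1,z1]),(k2,k1,z1,[y1,z1])]),
    .old (.leafM k1 [k0,k1,k2,k3,k4] [(z1,[y1,z1])] []),
    .old (.tor k14 false k0 [(z2,[y1,y1,z2]),(z1,[z0,z1]),(z2,[z1,y1,z2])]),
    .old (.lp [k30,k34,k42,k30,k42] [k6,k6,k4,k4,k0,k0,k6,k6,k0,k0] k0 [[k0,k0,k6],[],[k0,k0,k0,k0,k2],[k0,k6],[k0,k0,k0,
    k0,k0,k0,k0,k6],[k0,k0,k0,k2],[k0,k0,k0,k0,k0,k6]] k120 k5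
    [[(k1,k30),(k8,k36)],[(k5,k30),(k6,k30),(k7,k30),(k3,k32)],[(k0,k32),(k4,k38),(k9,k38),(k2,k40)],[(k7,k30),(k6,
    k32),(k5,k38),(k3,k40)],[(k0,k30),(k2,k38),(k9,k42),(k4,k44)],[(k6,k30),(k7,k36),(k3,k38),(k5,k44)],[(k0,k30),(k2,
    k30),(k4,k36),(k9,k42)],[(k0,k30),(k4,k30),(k2,k32),(k9,k36)],[(k6,k36),(k3,k38),(k5,k42),(k7,k42)],[(k1,k36),(k8,
    k42)]]
    [] k0
    [[k2,k0,k0,k1,k0],[k1,k0,k0,k1,k1],[k0,k2,k0,k0,k0],[k0,k2,k1,k0,k0],[k0,k1,k1,k0,k0],[k0,k0,k2,k0,k0]]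
    [.ref k1 k0 [(z2,[z1,y1,z1])],.ref k1 k0 [(z1,[z1])],.contra [z1],.ref k2 k0 [(z1,[y1,z2]),(z1,[z1])],.contra [y2,
    z1,z1],.contra [z1]]),
    .old (.tor k13 false k0 [(z1,[z0,z1]),(z1,[y1,y1,z2]),(z1,[z1])]),
    .old (.lp [k6,k8,k8,k6,k6] [k1,k1,k0,k0,k0,k0,k1,k1,k1,k1] k0 [] k24 k5
    [[(k1,k6),(k8,k6)],[(k6,k6),(k7,k6),(k3,k7),(k5,k7)],[(k0,k7),(k9,k7),(k2,k8),(k4,k8)],[(k6,k7),(k7,k7),(k3,k8),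
    (k5,k8)],[(k0,k7),(k9,k7),(k2,k8),(k4,k8)],[(k6,k7),(k7,k7),(k3,k8),(k5,k8)],[(k0,k6),(k9,k6),(k2,k7),(k4,k7)],
    [(k0,k6),(k9,k6),(k2,k7),(k4,k7)],[(k6,k6),(k7,k6),(k3,k7),(k5,k7)],[(k1,k6),(k8,k6)]]
    [] k0
    [[k2,k0,k0,k1,k0],[k1,k0,k0,k1,k1],[k0,k2,k0,k0,k0],[k0,k1,k1,k0,k0],[k0,k0,k2,k0,k0],[k0,k0,k0,k1,k2]]
    [.ref k4 k0 [(z1,[z1]),(z1,[y1,z1,z1])],.contra [z1,y1],.contra [z1],.contra [y1,y1,z1],.contra [z1],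
    .ref k3 k0 [(z1,[y1,z0,z1])]]),
    .old (.lp [k9,k6,k8,k6,k6] [k0,k1,k2,k2,k2,k0,k2,k2,k2,k2] k0 [[k0,k0,k4],[],[],[k0,k4]] k24 k5
    [[(k8,k7),(k1,k8)],[(k5,k6),(k3,k8),(k6,k8),(k7,k8)],[(k4,k6),(k9,k6),(k0,k8),(k2,k10)],[(k6,k6),(k7,k6),(k5,k8),
    (k3,k10)],[(k0,k6),(k2,k8),(k4,k8),(k9,k8)],[(k3,k6),(k6,k6),(k7,k6),(k5,k8)],[(k2,k6),(k4,k6),(k9,k6),(k0,k8)],
    [(k2,k6),(k4,k6),(k9,k6),(k0,k8)],[(k3,k6),(k6,k6),(k7,k6),(k5,k8)],[(k8,k6),(k1,k7)]]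
    [] k0
    [[k1,k0,k0,k1,k1],[k0,k2,k0,k0,k0],[k0,k1,k1,k0,k0],[k0,k1,k2,k0,k0],[k0,k0,k2,k0,k0],[k0,k0,k0,k1,k2]]
    [.ref k1 k0 [(z1,[z1])],.contra [z1],.ref k0 k0 [(z1,[y1,z1])],.ref k5 k0 [(z1,[y1,z1])],.contra [z1],
    .ref k3 k0 [(z1,[y1,z1])]])]⟩

/-- classes `0 0 0 0 1`, types `C0 C0 C2 C0 C0` -/
noncomputable def cU5_14 : CertX :=
  ⟨[k4,k4,k6,k4,k20],[(false,k0,[k0,k1,k2,k3,k4])],[[[([z1,z1,z0,z0,z1],z1)],[([z1,z0,z0,z0,z1],z1)],[([z1,z0,z0,z0,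
    z1],z2)],[([z1,z1,z0,z0,z1],z2)],[]]],
    [.old (.leafM k0 [k0,k1,k4] [] [(k2,k3,z1,[y1,z1]),(k3,k2,z1,[y1,z1])]),
    .old (.leafM k1 [k3,k4,k0,k1,k2] [(z1,[z1])] []),
    .old (.leafM k0 [k1,k2,k3] [] [(k4,k0,z1,[z1]),(k0,k4,z1,[z1])]),
    .old (.leafM k1 [k1,k2,k3,k4,k0] [(z1,[y1,z1])] []),
    .old (.lp [k4,k4,k2,k4,k2] [k0,k0,k0,k0,k1,k1,k0,k0,k1,k1] k0 [] k12 k5
    [[(k8,k3)],[(k4,k3),(k5,k3),(k9,k3),(k3,k4)],[(k0,k4),(k2,k4),(k6,k4),(k7,k4)],[(k4,k3),(k5,k3),(k9,k3),(k3,k4)],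
    [(k0,k3),(k2,k3),(k6,k3),(k7,k3)],[(k0,k3),(k2,k3),(k6,k3),(k7,k3)],[(k4,k3),(k5,k3),(k9,k3),(k3,k4)],[(k4,k3),
    (k5,k3),(k9,k3),(k3,k4)],[(k0,k3),(k2,k3),(k6,k3),(k7,k3)],[(k1,k3)]]
    [] k0
    [[k1,k0,k0,k0,k1],[k1,k1,k0,k0,k1],[k0,k2,k0,k0,k0],[k0,k1,k1,k1,k0],[k0,k0,k1,k1,k0]]
    [.ref k2 k0 [(z1,[z1])],.ref k3 k0 [(z1,[z1])],.contra [z1],.ref k1 k0 [(z1,[y1,z1])],.ref k0 k0 [(z1,[y1,z1])]])]⟩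

/-- classes `0 0 0 0 1`, types `C0 C0 C2 C0 S0` -/
noncomputable def cU5_15 : CertX :=
  ⟨[k4,k4,k6,k4,k16],[(false,k0,[k0,k1,k2,k3,k4])],[[[([z1,z1,z0,z0,z1],z1)],[([z1,z0,z0,z0,z1],z1)],[([z1,z0,z0,z0,
    z1],z2)],[([z1,z1,z0,z0,z1],z2)],[([z2,z0,z1,z0,z0],z2),([z0,z2,z1,z0,y2],z0)],[([z1,z1,z1,z0,y1],z1)],[]]],
    [.old (.leafM k0 [k0,k1,k4] [] [(k2,k3,z1,[y1,z1]),(k3,k2,z1,[y1,z1])]),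
    .old (.leafM k1 [k3,k4,k0,k1,k2] [(z1,[z1])] []),
    .old (.leafM k0 [k1,k2,k3] [] [(k4,k0,z1,[z1]),(k0,k4,z1,[z1])]),
    .old (.leafM k1 [k1,k2,k3,k4,k0] [(z1,[y1,z1])] []),
    .old (.tor k15 false k0 [(z2,[y1,y1,z2]),(z2,[y1,z1,z2]),(z1,[z1])]),
    .old (.lp [k12,k16,k12,k12,k18] [k3,k3,k1,k1,k3,k3,k3,k3,k0,k0] k0 [] k48 k5
    [[(k1,k12),(k8,k15)],[(k4,k12),(k5,k12),(k3,k14),(k9,k15)],[(k0,k14),(k6,k14),(k7,k14),(k2,k16)],[(k4,k14),(k5,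
    k14),(k3,k16),(k9,k17)],[(k0,k12),(k6,k12),(k7,k12),(k2,k14)],[(k0,k12),(k6,k12),(k7,k12),(k2,k14)],[(k4,k12),(k5,
    k12),(k3,k14),(k9,k15)],[(k4,k12),(k5,k12),(k3,k14),(k9,k15)],[(k0,k15),(k6,k15),(k7,k15),(k2,k17)],[(k1,k15),(k8,
    k18)]]
    [] k0
    [[k2,k0,k1,k0,k0],[k1,k0,k0,k0,k1],[k1,k1,k0,k0,k1],[k0,k2,k0,k0,k0],[k0,k1,k1,k1,k0],[k0,k0,k1,k1,k0]]
    [.ref k4 k0 [(z1,[z1]),(z1,[y1,z2])],.ref k2 k0 [(z1,[z1])],.ref k3 k0 [(z1,[z1])],.contra [z1],.ref k1 k0 [(z1,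
    [y1,z0,z1])],.ref k0 k0 [(z1,[y1,z0,z1])]]),
    .old (.lp [k18,k16,k12,k12,k12] [k0,k0,k1,k1,k3,k3,k3,k3,k3,k3] k0 [] k48 k5
    [[(k8,k15),(k1,k18)],[(k4,k15),(k5,k15),(k9,k15),(k3,k17)],[(k6,k14),(k7,k14),(k2,k16),(k0,k17)],[(k4,k14),(k5,
    k14),(k9,k14),(k3,k16)],[(k6,k12),(k7,k12),(k2,k14),(k0,k15)],[(k6,k12),(k7,k12),(k2,k14),(k0,k15)],[(k4,k12),(k5,
    k12),(k9,k12),(k3,k14)],[(k4,k12),(k5,k12),(k9,k12),(k3,k14)],[(k6,k12),(k7,k12),(k2,k14),(k0,k15)],[(k8,k12),(k1,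
    k15)]]
    [] k0
    [[k1,k0,k0,k0,k1],[k1,k1,k0,k0,k1],[k0,k2,k0,k0,k0],[k0,k1,k1,k1,k0],[k0,k0,k1,k1,k0],[k0,k0,k0,k1,k2]]
    [.ref k2 k0 [(z1,[z1])],.ref k3 k0 [(z1,[z1])],.contra [z1],.ref k1 k0 [(z1,[y1,z1])],.ref k0 k0 [(z1,[y1,z1])],
    .ref k5 k0 [(z1,[y1,z1])]])]⟩

/-- classes `0 0 0 0 1`, types `C0 C0 C2 C2 C0` -/
noncomputable def cU5_16 : CertX :=
  ⟨[k4,k4,k6,k6,k20],[(false,k0,[k0,k1,k2,k3,k4])],[[[([z1,z0,z1,z0,z1],z1)],[([z1,z0,z1,z0,z1],z2)],[]]],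
    [.old (.leafM k1 [k4,k0,k2] [] [(k1,k3,z1,[y1,z1]),(k3,k1,z1,[y1,z1])]),
    .old (.leafM k2 [k0,k1,k2,k3,k4] [(z1,[y1,z1])] []),
    .old (.lp [k6,k8,k6,k8,k6] [k1,k1,k0,k0,k1,k1,k0,k0,k1,k1] k0 [] k24 k5
    [[(k8,k6)],[(k4,k6),(k5,k6),(k3,k7),(k6,k7)],[(k0,k7),(k9,k7),(k2,k8),(k7,k8)],[(k4,k7),(k5,k7),(k3,k8),(k6,k8)],
    [(k0,k6),(k9,k6),(k2,k7),(k7,k7)],[(k0,k6),(k9,k6),(k2,k7),(k7,k7)],[(k4,k7),(k5,k7),(k3,k8),(k6,k8)],[(k0,k7),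
    (k9,k7),(k2,k8),(k7,k8)],[(k4,k6),(k5,k6),(k3,k7),(k6,k7)],[(k1,k6)]]
    [] k0
    [[k1,k0,k1,k0,k1],[k0,k2,k0,k0,k0],[k0,k1,k0,k1,k0],[k0,k0,k0,k2,k0]]
    [.ref k1 k0 [(z1,[z1])],.contra [z1],.ref k0 k0 [(z1,[y1,z1])],.contra [z1]])]⟩

/-- classes `0 0 0 0 1`, types `C0 C0 C2 C2 S0` -/
noncomputable def cU5_17 : CertX :=
  ⟨[k4,k4,k6,k6,k16],[(false,k0,[k0,k1,k2,k3,k4]),(true,k4,[k4,k3,k2,k1,k0])],[[[([z1,z0,z1,z0,z1],z1)],[([z1,z0,z1,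
    z0,z1],z2)],[([z1,z0,z0,y1,y1],y1),([z0,z1,z0,z2,z0],z2)],[([z2,z0,z1,z0,z0],z2)],[]]],
    [.old (.leafM k1 [k4,k0,k2] [] [(k1,k3,z1,[y1,z1]),(k3,k1,z1,[y1,z1])]),
    .old (.leafM k2 [k0,k1,k2,k3,k4] [(z1,[y1,z1])] []),
    .old (.tor k16 false k0 [(z1,[y1,y1,z1]),(z1,[z0,z1]),(z1,[z1,z0,z1])]),
    .old (.lp [(nat_lit 13566),(nat_lit 12920),(nat_lit 9120),(nat_lit 14280),(nat_lit 7752)] [(nat_lit 357),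
    (nat_lit 357),(nat_lit 680),(nat_lit 680),(nat_lit 2580),(nat_lit 2580),k0,k0,(nat_lit 3264),
    (nat_lit 3264)] k0 [[k0,k0,k0,k0,k0,k0,k0,(nat_lit 1615)],[k0,k0,k0,k0,(nat_lit 2584)],[],[],[],[(nat_lit 2584)],
    [k0,(nat_lit 1615)]] (nat_lit 38760) k6
    [[(k8,(nat_lit 10659)),(k1,(nat_lit 13566))],[(k5,(nat_lit 11343)),(k6,(nat_lit 12308)),(k3,(nat_lit 13243)),(k4,
    (nat_lit 13927))],[(k7,(nat_lit 11016)),(k9,(nat_lit 11951)),(k2,(nat_lit 12920)),(k0,(nat_lit 13243))],[(k4,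
    (nat_lit 11020)),(k5,(nat_lit 11020)),(k3,(nat_lit 12920)),(k6,(nat_lit 13600))],[(k9,(nat_lit 8436)),(k2,
    (nat_lit 11020)),(k0,(nat_lit 11343)),(k7,(nat_lit 11700))],[(k9,(nat_lit 8436)),(k2,(nat_lit 11020)),(k7,
    (nat_lit 11700)),(k0,(nat_lit 13927))],[(k3,(nat_lit 11016)),(k4,(nat_lit 11700)),(k5,(nat_lit 11700)),(k6,
    (nat_lit 14280))],[(k9,(nat_lit 11016)),(k0,(nat_lit 12308)),(k2,(nat_lit 13600)),(k7,(nat_lit 14280))],[(k4,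
    (nat_lit 8436)),(k5,(nat_lit 8436)),(k6,(nat_lit 11016)),(k3,(nat_lit 11951))],[(k8,(nat_lit 7752)),(k1,
    (nat_lit 10659))]]
    [] k0
    [[k1,k0,k1,k0,k1],[k0,k2,k0,k0,k0],[k0,k2,k0,k1,k0],[k0,k1,k0,k1,k0],[k0,k0,k1,k0,k2],[k0,k0,k0,k2,k0]]
    [.ref k1 k0 [(z1,[z1])],.contra [z1],.ref k2 k1 [(z1,[y1,y1,z1]),(z1,[z1])],.contra [y2,y1,z2],.ref k1 k0 [(z2,
    [z1,z1])],.contra [z1]]),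
    .old (.lp [k6,k8,k6,k8,k6] [k1,k1,k0,k0,k1,k1,k0,k0,k1,k1] k0 [] k24 k5
    [[(k1,k6),(k8,k6)],[(k4,k6),(k5,k6),(k3,k7),(k6,k7)],[(k0,k7),(k9,k7),(k2,k8),(k7,k8)],[(k4,k7),(k5,k7),(k3,k8),
    (k6,k8)],[(k0,k6),(k9,k6),(k2,k7),(k7,k7)],[(k0,k6),(k9,k6),(k2,k7),(k7,k7)],[(k4,k7),(k5,k7),(k3,k8),(k6,k8)],
    [(k0,k7),(k9,k7),(k2,k8),(k7,k8)],[(k4,k6),(k5,k6),(k3,k7),(k6,k7)],[(k1,k6),(k8,k6)]]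
    [] k0
    [[k2,k0,k1,k0,k0],[k1,k0,k1,k0,k1],[k0,k2,k0,k0,k0],[k0,k1,k0,k1,k0],[k0,k0,k1,k0,k2],[k0,k0,k0,k2,k0]]
    [.ref k3 k0 [(z1,[z1])],.ref k1 k0 [(z1,[z1])],.contra [z1],.ref k0 k0 [(z1,[y1,z1])],.ref k3 k1 [(z1,[z1])],
    .contra [z1]])]⟩

/-- classes `0 0 0 0 1`, types `C0 C2 C0 C2 C0` -/
noncomputable def cU5_18 : CertX :=
  ⟨[k4,k6,k4,k6,k20],[(true,k4,[k4,k3,k2,k1,k0]),(false,k0,[k0,k1,k2,k3,k4])],[[[([z1,z0,z0,z1,z1],z1)],[([z1,z0,z0,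
    z1,z1],z2)],[]]],
    [.old (.leafM k0 [k0,k3,k4] [] [(k1,k2,z1,[y1,z1]),(k2,k1,z1,[y1,z1])]),
    .old (.leafM k1 [k0,k1,k2,k3,k4] [(z1,[y1,z1])] []),
    .old (.lp [k2,k2,k2,k2,k2] [k0,k0,k0,k0,k0,k0,k0,k0,k0,k0] k0 [] k8 k5
    [[(k8,k2)],[(k2,k2),(k3,k2),(k6,k2),(k7,k2)],[(k0,k2),(k4,k2),(k5,k2),(k9,k2)],[(k0,k2),(k4,k2),(k5,k2),(k9,k2)],
    [(k2,k2),(k3,k2),(k6,k2),(k7,k2)],[(k2,k2),(k3,k2),(k6,k2),(k7,k2)],[(k0,k2),(k4,k2),(k5,k2),(k9,k2)],[(k0,k2),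
    (k4,k2),(k5,k2),(k9,k2)],[(k2,k2),(k3,k2),(k6,k2),(k7,k2)],[(k1,k2)]]
    [] k0
    [[k1,k1,k0,k0,k1],[k1,k0,k0,k1,k1],[k0,k1,k1,k0,k0],[k0,k0,k1,k1,k0]]
    [.ref k1 k0 [(z1,[z1])],.ref k1 k1 [(z1,[z1])],.ref k0 k1 [(z1,[y1,z1])],.ref k0 k0 [(z1,[y1,z1])]])]⟩

/-- classes `0 0 0 0 1`, types `C0 C2 C0 C2 S0` -/
noncomputable def cU5_19 : CertX :=
  ⟨[k4,k6,k4,k6,k16],[(false,k0,[k0,k1,k2,k3,k4]),(true,k4,[k4,k3,k2,k1,k0])],[[[([z1,z0,z0,z1,z1],z1)],[([z1,z0,z0,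
    z1,z1],z2)],[([z2,z0,z0,z1,z0],z2),([z0,z1,z0,z0,z2],z2)],[([z1,z0,y1,z0,z1],z1),([z0,z1,z2,z0,y2],z0)],[([z1,z0,
    y1,z0,z1],z1)],[]]],
    [.old (.leafM k0 [k0,k3,k4] [] [(k1,k2,z1,[y1,z1]),(k2,k1,z1,[y1,z1])]),
    .old (.leafM k1 [k0,k1,k2,k3,k4] [(z1,[y1,z1])] []),
    .old (.tor k6 false k0 [(z1,[z0,z1]),(z1,[y1,y1,z2]),(z1,[z1])]),
    .old (.tor k7 false k0 [(z1,[y1,y1,z1]),(z1,[y1,z0,z1]),(z1,[z2,z1])]),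
    .old (.lp [k14,k12,k12,k20,k12] [k3,k3,k4,k4,k4,k4,k0,k0,k4,k4] k0 [[],[],[],[],[k0,k0,k0,k0,k0,k0,k0,k4],[],[k0,k0,
    k0,k0,k0,k4]] k48 k5
    [[(k8,k13),(k1,k14)],[(k2,k13),(k3,k13),(k6,k17),(k7,k17)],[(k4,k12),(k5,k12),(k9,k12),(k0,k13)],[(k4,k12),(k5,
    k12),(k9,k12),(k0,k13)],[(k2,k12),(k3,k12),(k6,k16),(k7,k16)],[(k2,k12),(k3,k12),(k6,k12),(k7,k16)],[(k4,k16),(k5,
    k16),(k0,k17),(k9,k20)],[(k4,k12),(k5,k16),(k9,k16),(k0,k17)],[(k2,k12),(k3,k12),(k6,k16),(k7,k20)],[(k8,k12),(k1,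
    k13)]]
    [] k0
    [[k2,k1,k0,k0,k0],[k1,k1,k0,k0,k1],[k1,k0,k0,k1,k1],[k0,k1,k1,k0,k0],[k0,k1,k0,k0,k2],[k0,k0,k1,k1,k0]]
    [.ref k3 k0 [(z1,[z0,z1]),(z1,[z1,y2])],.ref k1 k0 [(z1,[y1,z1,z1])],.ref k1 k0 [(z1,[z1])],.contra [y1,y1,z1],
    .ref k2 k0 [(z1,[y1,z1,z1]),(z1,[z1])],.contra [y1,y1,z1]]),
    .old (.lp [k6,k8,k0,k8,k6] [k1,k1,k0,k0,k4,k4,k0,k0,k1,k1] k0 [] k20 k6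
    [[(k1,k6),(k8,k6)],[(k2,k7),(k3,k7),(k6,k7),(k7,k7)],[(k4,k4),(k5,k4),(k0,k7),(k9,k7)],[(k4,k4),(k5,k4),(k0,k7),
    (k9,k7)],[(k2,k4),(k3,k4),(k6,k4),(k7,k4)],[(k2,k4),(k3,k4),(k6,k4),(k7,k4)],[(k4,k4),(k5,k4),(k0,k7),(k9,k7)],
    [(k4,k4),(k5,k4),(k0,k7),(k9,k7)],[(k2,k7),(k3,k7),(k6,k7),(k7,k7)],[(k1,k6),(k8,k6)]]
    [] k0
    [[k0,k1,k1,k0,k0],[k0,k2,k2,k0,k0],[k0,k1,k2,k1,k0],[k0,k0,k1,k1,k0],[k0,k0,k2,k2,k0]]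
    [.ref k0 k0 [(z1,[y1,z1])],.ref k1 k0 [(z2,[y1,z2])],.ref k4 k0 [(z1,[y1,z1])],.ref k0 k1 [(z1,[y1,z1])],
    .ref k1 k1 [(z2,[y1,z2])]])]⟩

/-- classes `0 0 0 0 1`, types `C0 C2 C2 C0 C0` -/
noncomputable def cU5_20 : CertX :=
  ⟨[k4,k6,k6,k4,k20],[(false,k0,[k0,k1,k2,k3,k4])],[[[([z1,z0,z1,z0,z1],z1)],[([z1,z0,z0,z0,z1],z1)],[([z1,z0,z0,z0,
    z1],z2)],[([z1,z0,z1,z0,z1],z2)],[]]],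
    [.old (.leafM k1 [k4,k0,k2] [] [(k1,k3,z1,[y1,z1]),(k3,k1,z1,[y1,z1])]),
    .old (.leafM k1 [k3,k4,k0,k1,k2] [(z1,[z1])] []),
    .old (.leafM k0 [k1,k2,k3] [] [(k4,k0,z1,[z1]),(k0,k4,z1,[z1])]),
    .old (.leafM k2 [k0,k1,k2,k3,k4] [(z1,[y1,z1])] []),
    .old (.lp [k4,k2,k4,k4,k2] [k0,k0,k1,k1,k0,k0,k0,k0,k1,k1] k0 [] k12 k5
    [[(k8,k3)],[(k2,k3),(k3,k3),(k9,k3),(k4,k4)],[(k0,k3),(k5,k3),(k6,k3),(k7,k3)],[(k0,k3),(k5,k3),(k6,k3),(k7,k3)],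
    [(k2,k3),(k3,k3),(k9,k3),(k4,k4)],[(k0,k4),(k5,k4),(k6,k4),(k7,k4)],[(k2,k3),(k3,k3),(k9,k3),(k4,k4)],[(k2,k3),
    (k3,k3),(k9,k3),(k4,k4)],[(k0,k3),(k5,k3),(k6,k3),(k7,k3)],[(k1,k3)]]
    [] k0
    [[k1,k0,k0,k0,k1],[k1,k0,k1,k0,k1],[k0,k1,k1,k1,k0],[k0,k1,k0,k1,k0],[k0,k0,k2,k0,k0]]
    [.ref k2 k0 [(z1,[z1])],.ref k3 k0 [(z1,[z1])],.ref k1 k0 [(z1,[y1,z1])],.ref k0 k0 [(z1,[y1,z1])],.contra [z1]])]⟩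

/-- classes `0 0 0 0 1`, types `C0 C2 C2 C0 S0` -/
noncomputable def cU5_21 : CertX :=
  ⟨[k4,k6,k6,k4,k16],[(false,k0,[k0,k1,k2,k3,k4]),(true,k4,[k4,k3,k2,k1,k0])],[[[([z1,z0,z1,z0,z1],z1)],[([z1,z0,z0,
    z0,z1],z1)],[([z1,z0,z0,z0,z1],z2)],[([z1,z0,z1,z0,z1],z2)],[([z1,z0,y1,z0,z1],z1),([z0,z1,z2,z0,y2],z0)],[([z1,
    z0,y1,y1,y1],y1)],[]]],
    [.old (.leafM k1 [k4,k0,k2] [] [(k1,k3,z1,[y1,z1]),(k3,k1,z1,[y1,z1])]),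
    .old (.leafM k1 [k3,k4,k0,k1,k2] [(z1,[z1])] []),
    .old (.leafM k0 [k1,k2,k3] [] [(k4,k0,z1,[z1]),(k0,k4,z1,[z1])]),
    .old (.leafM k2 [k0,k1,k2,k3,k4] [(z1,[y1,z1])] []),
    .old (.tor k7 false k0 [(z1,[y1,y1,z1]),(z1,[y1,z0,z1]),(z1,[z2,z1])]),
    .old (.lp [k18,k12,k16,k12,k12] [k0,k0,k3,k3,k1,k1,k3,k3,k3,k3] k0 [] k48 k5
    [[(k8,k15),(k1,k18)],[(k2,k15),(k3,k15),(k9,k15),(k4,k17)],[(k6,k12),(k7,k12),(k5,k14),(k0,k15)],[(k6,k12),(k7,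
    k12),(k5,k14),(k0,k15)],[(k2,k14),(k3,k14),(k9,k14),(k4,k16)],[(k6,k14),(k7,k14),(k5,k16),(k0,k17)],[(k2,k12),(k3,
    k12),(k9,k12),(k4,k14)],[(k2,k12),(k3,k12),(k9,k12),(k4,k14)],[(k6,k12),(k7,k12),(k5,k14),(k0,k15)],[(k8,k12),(k1,
    k15)]]
    [] k0
    [[k1,k0,k0,k0,k1],[k1,k0,k1,k0,k1],[k0,k1,k1,k1,k0],[k0,k1,k0,k1,k0],[k0,k0,k2,k0,k0],[k0,k0,k0,k1,k2]]
    [.ref k2 k0 [(z1,[z1])],.ref k3 k0 [(z1,[z1])],.ref k1 k0 [(z1,[y1,z0,z1])],.ref k0 k0 [(z1,[y1,z0,z1])],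
    .contra [z1],.ref k4 k0 [(z1,[z1,z1]),(z1,[y2,y1,z1])]]),
    .old (.lp [k18,k12,k16,k12,k12] [k0,k0,k3,k3,k1,k1,k3,k3,k3,k3] k0 [] k48 k5
    [[(k8,k15),(k1,k18)],[(k2,k15),(k3,k15),(k9,k15),(k4,k17)],[(k6,k12),(k7,k12),(k5,k14),(k0,k15)],[(k6,k12),(k7,
    k12),(k5,k14),(k0,k15)],[(k2,k14),(k3,k14),(k9,k14),(k4,k16)],[(k6,k14),(k7,k14),(k5,k16),(k0,k17)],[(k2,k12),(k3,
    k12),(k9,k12),(k4,k14)],[(k2,k12),(k3,k12),(k9,k12),(k4,k14)],[(k6,k12),(k7,k12),(k5,k14),(k0,k15)],[(k8,k12),(k1,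
    k15)]]
    [] k0
    [[k1,k0,k0,k0,k1],[k1,k0,k1,k0,k1],[k0,k1,k1,k1,k0],[k0,k1,k0,k1,k0],[k0,k0,k2,k0,k0],[k0,k0,k0,k1,k2]]
    [.ref k2 k0 [(z1,[z1])],.ref k3 k0 [(z1,[z1])],.ref k1 k0 [(z1,[y1,z1])],.ref k0 k0 [(z1,[y1,z1])],.contra [z1],
    .ref k5 k1 [(z1,[z1,y1])]])]⟩

/-- classes `0 0 0 0 1`, types `N0 N0 N1 N1 C0` -/
noncomputable def cU5_22 : CertX :=
  ⟨[k12,k12,k13,k13,k20],[(false,k0,[k0,k1,k2,k3,k4])],[[[([z3,z0,z0,z0,z3],z1),([z0,z1,z0,z1,z0],z2)],[([z2,z0,z0,z0,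
    z2],z1),([z0,z1,z0,z1,z0],z2)],[([z3,z0,z0,z0,z3],z2),([z0,z1,z0,z1,z0],z2)],[([z1,z0,z1,z0,z1],z1)],[([z1,z0,z0,
    z0,z1],z2),([z0,z3,z0,z3,z0],z1)],[([z1,z0,z0,z0,z1],z2),([z0,z2,z0,z2,z0],z1)],[([z1,z0,z0,z0,z1],z2),([z0,z3,z0,
    z3,z0],z2)],[([z1,z0,z0,z0,z1],z2)],[]]],
    [.old (.leafM k2 [k0,k2,k4] [(z1,[y1,y3,z3]),(z1,[z1])] [(k1,k3,z1,[z0,z1]),(k3,k1,z1,[z0,z1])]),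
    .old (.leafM k3 [k0,k2,k4] [(z1,[y1,y2,z2]),(z1,[z1])] [(k1,k3,z1,[z0,z1]),(k3,k1,z1,[z0,z1])]),
    .old (.leafM k4 [k0,k2,k4] [(z1,[y1,y3,z3]),(z1,[z1])] [(k1,k3,z1,[z0,z1]),(k3,k1,z1,[z0,z1])]),
    .old (.lp [k46,(nat_lit 210),k46,k20,k20] [k82,k82,k0,k0,k82,k82,k95,k95,k95,k95] k0 [] (nat_lit 230) k8
    [[(k8,k33)],[(k7,k33),(k9,k33)],[(k6,k115),(k4,k128)],[(k7,k115),(k9,k115)],[(k6,k33),(k4,k46)],[(k5,k46),(k3,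
    k128)],[(k0,k33),(k2,k115)],[(k5,k33),(k3,k115)],[(k0,k33),(k2,k115)],[(k1,k33)]]
    [] k0
    [[k1,k0,k0,k0,k1],[k2,k0,k0,k0,k2],[k3,k0,k0,k0,k3],[k0,k0,k2,k0,k0],[k0,k0,k3,k0,k0],[k0,k0,k4,k0,k0]]
    [.contra [y2,z1,z1],.contra [y1,z2],.ref k2 k0 [(z1,[z1]),(z1,[z0,y1,z1])],.contra [z1],.ref k0 k0 [(z1,[y1,z3]),
    (z1,[z0,y1,z1])],.ref k1 k0 [(z2,[y1,z4]),(z1,[z0,y1,z1])]]),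
    .old (.leafM k2 [k1,k2,k3] [(z1,[y3,y1,z3]),(z1,[z0,z1])] [(k4,k0,z1,[z1]),(k0,k4,z1,[z1])]),
    .old (.leafM k3 [k1,k2,k3] [(z1,[y2,y1,z2]),(z1,[z0,z1])] [(k4,k0,z1,[z1]),(k0,k4,z1,[z1])]),
    .old (.leafM k4 [k1,k2,k3] [(z1,[y3,y1,z3]),(z1,[z0,z1])] [(k4,k0,z1,[z1]),(k0,k4,z1,[z1])]),
    .old (.lp [(nat_lit 2940),(nat_lit 1320),(nat_lit 924),k0,(nat_lit 1680)] [k0,k0,(nat_lit 810),(nat_lit 810),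
    (nat_lit 1008),(nat_lit 1008),(nat_lit 1470),(nat_lit 1470),(nat_lit 630),(nat_lit 630)] k0 [[k0,k0,k0,k0,
    (nat_lit 770)],[],[k0,k0,k0,k0,k0,k0,(nat_lit 385)],[],[],[k0,(nat_lit 770)],[],[k0,k0,k0,
    (nat_lit 385)]] (nat_lit 4620) k8
    [[(k8,(nat_lit 2310))],[(k7,(nat_lit 700)),(k9,(nat_lit 2310))],[(k6,(nat_lit 660)),(k4,(nat_lit 1892))],[(k7,
    (nat_lit 660)),(k9,(nat_lit 1115))],[(k6,(nat_lit 847)),(k4,(nat_lit 924))],[(k5,(nat_lit 924)),(k3,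
    (nat_lit 1892))],[(k2,(nat_lit 660)),(k0,(nat_lit 700))],[(k3,(nat_lit 660)),(k5,(nat_lit 847))],[(k2,
    (nat_lit 1115)),(k0,(nat_lit 2310))],[(k1,(nat_lit 2310))]]
    [] k0
    [[k0,k1,k2,k1,k0],[k0,k1,k1,k1,k0],[k0,k1,k0,k1,k0],[k0,k2,k0,k2,k0],[k0,k3,k0,k3,k0],[k0,k0,k2,k0,k0],[k0,k0,k3,
    k0,k0],[k0,k0,k4,k0,k0]]
    [.contra [z1,z1,y1],.contra [y1,y2,z2],.contra [y1,y2,z2],.contra [y1,y2,z2],.ref k6 k0 [(z1,[z0,z1]),(z1,[z1])],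
    .contra [z1],.ref k4 k0 [(z1,[z0,z1]),(z1,[y1,y3,z3])],.ref k5 k0 [(z1,[z0,z1]),(z2,[y1,y4,z4])]]),
    .old (.lp [k20,k26,k16,k4,k4] [k3,k3,k0,k0,k5,k5,k11,k11,k11,k11] k0 [[],[],[k0,k0,k0,k0,k0,k0,k2],[],[],[],[],[k0,k0,
    k0,k2]] k48 k5
    [[(k8,k12)],[(k7,k12),(k9,k12)],[(k6,k15),(k4,k21)],[(k9,k13),(k7,k15)],[(k6,k12),(k4,k16)],[(k5,k16),(k3,k21)],
    [(k0,k12),(k2,k15)],[(k5,k12),(k3,k15)],[(k0,k12),(k2,k13)],[(k1,k12)]]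
    [] k0
    [[k1,k0,k0,k0,k1],[k0,k1,k0,k1,k0],[k0,k0,k2,k0,k0]]
    [.ref k7 k0 [(z1,[z1])],.ref k3 k0 [(z1,[y1,z1])],.contra [z1]])]⟩

/-- classes `0 0 0 0 1`, types `N0 N0 N1 N1 S0` -/
noncomputable def cU5_23 : CertX :=
  ⟨[k12,k12,k13,k13,k16],[(false,k0,[k0,k1,k2,k3,k4])],[[[([z3,z0,z0,z0,z3],z1),([z0,z1,z0,z1,z0],z2)],[([z2,z0,z0,z0,
    z2],z1),([z0,z1,z0,z1,z0],z2)],[([z3,z0,z0,z0,z3],z2),([z0,z1,z0,z1,z0],z2)],[([z1,z0,z1,z0,z1],z1)],[([z1,z0,z0,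
    z0,z1],z2),([z0,z3,z0,z3,z0],z1)],[([z1,z0,z0,z0,z1],z2),([z0,z2,z0,z2,z0],z1)],[([z1,z0,z0,z0,z1],z2),([z0,z3,z0,
    z3,z0],z2)],[([z1,z0,z0,z0,z1],z2)],[]]],
    [.old (.leafM k2 [k0,k2,k4] [(z1,[y1,y3,z3]),(z1,[z1])] [(k1,k3,z1,[z0,z1]),(k3,k1,z1,[z0,z1])]),
    .old (.leafM k3 [k0,k2,k4] [(z1,[y1,y2,z2]),(z1,[z1])] [(k1,k3,z1,[z0,z1]),(k3,k1,z1,[z0,z1])]),
    .old (.leafM k4 [k0,k2,k4] [(z1,[y1,y3,z3]),(z1,[z1])] [(k1,k3,z1,[z0,z1]),(k3,k1,z1,[z0,z1])]),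
    .old (.lp [k10,k10,k14,k60,k10] [k25,k25,k25,k25,k23,k23,k0,k0,k25,k25] k0 [] k70 k8
    [[(k1,k10),(k8,k10)],[(k9,k10),(k7,k35)],[(k4,k12),(k6,k35)],[(k9,k10),(k7,k35)],[(k4,k14),(k6,k37)],[(k3,k12),
    (k5,k14)],[(k0,k35),(k2,k35)],[(k3,k35),(k5,k37)],[(k0,k10),(k2,k10)],[(k1,k10),(k8,k10)]]
    [] k0
    [[k3,k0,k0,k0,k3],[k2,k0,k0,k0,k2],[k1,k0,k0,k0,k1],[k0,k0,k2,k0,k0],[k0,k0,k3,k0,k0],[k0,k0,k4,k0,k0]]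
    [.ref k2 k0 [(z1,[z1]),(z1,[z0,y1,z1])],.contra [y1,z2],.contra [y2,z1,z1],.contra [z1],.ref k0 k0 [(z1,[y1,z3]),
    (z1,[z0,y1,z1])],.ref k1 k0 [(z2,[y1,z4]),(z1,[z0,y1,z1])]]),
    .old (.leafM k2 [k1,k2,k3] [(z1,[y3,y1,z3]),(z1,[z0,z1])] [(k4,k0,z1,[z1]),(k0,k4,z1,[z1])]),
    .old (.leafM k3 [k1,k2,k3] [(z1,[y2,y1,z2]),(z1,[z0,z1])] [(k4,k0,z1,[z1]),(k0,k4,z1,[z1])]),
    .old (.leafM k4 [k1,k2,k3] [(z1,[y3,y1,z3]),(z1,[z0,z1])] [(k4,k0,z1,[z1]),(k0,k4,z1,[z1])]),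
    .old (.lp [(nat_lit 27600),k0,(nat_lit 7728),(nat_lit 11270),(nat_lit 11040)] [k0,k0,(nat_lit 13800),(nat_lit 13800),
    (nat_lit 9936),(nat_lit 9936),(nat_lit 8165),(nat_lit 8165),(nat_lit 8280),(nat_lit 8280)] k0 [[k0,k0,k0,k0,
    (nat_lit 8400)],[],[],[],[],[k0,(nat_lit 8400)]] (nat_lit 38640) k8
    [[(k8,(nat_lit 19320)),(k1,(nat_lit 27600))],[(k7,(nat_lit 11035)),(k9,(nat_lit 19320))],[(k6,(nat_lit 5635)),(k4,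
    (nat_lit 12264))],[(k9,(nat_lit 5520)),(k7,(nat_lit 5635))],[(k4,(nat_lit 7728)),(k6,(nat_lit 9499))],[(k5,
    (nat_lit 7728)),(k3,(nat_lit 12264))],[(k2,(nat_lit 5635)),(k0,(nat_lit 11035))],[(k3,(nat_lit 5635)),(k5,
    (nat_lit 9499))],[(k2,(nat_lit 5520)),(k0,(nat_lit 19320))],[(k8,(nat_lit 11040)),(k1,(nat_lit 19320))]]
    [] k0
    [[k0,k1,k2,k1,k0],[k0,k1,k1,k1,k0],[k0,k1,k0,k1,k0],[k0,k2,k0,k2,k0],[k0,k3,k0,k3,k0],[k0,k0,k2,k0,k0],[k0,k0,k3,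
    k0,k0],[k0,k0,k4,k0,k0]]
    [.contra [z1,z1,y1],.contra [y1,y2,z2],.contra [y1,y2,z2],.contra [y1,y2,z2],.ref k6 k0 [(z1,[z0,z1]),(z1,[z1])],
    .contra [z1],.ref k4 k0 [(z1,[z0,z1]),(z1,[y1,y3,z3])],.ref k5 k0 [(z1,[z0,z1]),(z2,[y1,y4,z4])]]),
    .old (.lp [k12,k12,k16,k18,k12] [k3,k3,k3,k3,k1,k1,k0,k0,k3,k3] k0 [[k0,k0,k0,k0,k2],[],[],[],[],[k0,k2]] k48 k5
    [[(k1,k12),(k8,k12)],[(k9,k12),(k7,k13)],[(k6,k15),(k4,k16)],[(k9,k12),(k7,k15)],[(k4,k16),(k6,k17)],[(k3,k16),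
    (k5,k16)],[(k0,k13),(k2,k15)],[(k3,k15),(k5,k17)],[(k0,k12),(k2,k12)],[(k1,k12),(k8,k12)]]
    [] k0
    [[k1,k0,k0,k0,k1],[k0,k1,k0,k1,k0],[k0,k0,k2,k0,k0]]
    [.ref k7 k0 [(z1,[z1])],.ref k3 k0 [(z1,[y1,z1])],.contra [z1]])]⟩

/-- classes `0 0 0 0 1`, types `N0 N0 N1 N2 C0` -/
noncomputable def cU5_24 : CertX :=
  ⟨[k12,k12,k13,k14,k20],[],[[[]]],
    [.old (.lp [k4,k4,k4,k2,k2] [k0,k0,k0,k0,k0,k0,k1,k1,k1,k1] k0 [] k12 k5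
    [[(k8,k3)],[(k6,k3),(k7,k3)],[(k9,k3),(k4,k4)],[(k6,k3),(k7,k3)],[(k9,k3),(k4,k4)],[(k3,k4),(k5,k4)],[(k0,k3),(k2,
    k3)],[(k0,k3),(k2,k3)],[(k3,k3),(k5,k3)],[(k1,k3)]]
    [] k0
    [[k0,k0,k2,k0,k0]]
    [.contra [z1]])]⟩

/-- classes `0 0 0 0 1`, types `N0 N0 N1 N2 S0` -/
noncomputable def cU5_25 : CertX :=
  ⟨[k12,k12,k13,k14,k16],[],[[[]]],
    [.old (.lp [k18,k12,k16,k12,k12] [k0,k0,k3,k3,k1,k1,k3,k3,k3,k3] k0 [] k48 k5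
    [[(k8,k15),(k1,k18)],[(k6,k15),(k7,k15)],[(k9,k12),(k4,k14)],[(k6,k12),(k7,k12)],[(k9,k14),(k4,k16)],[(k3,k14),
    (k5,k16)],[(k2,k12),(k0,k15)],[(k2,k12),(k0,k15)],[(k3,k12),(k5,k14)],[(k8,k12),(k1,k15)]]
    [] k0
    [[k0,k0,k2,k0,k0]]
    [.contra [z1]])]⟩

/-- classes `0 0 0 0 1`, types `N0 N0 N2 N1 C0` -/
noncomputable def cU5_26 : CertX :=
  ⟨[k12,k12,k14,k13,k20],[(false,k0,[k0,k1,k2,k3,k4])],[[[([z1,z0,z0,z0,z1],z1)],[([z1,z0,z0,z0,z1],z2)],[]]],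
    [.old (.leafM k3 [k1,k2,k3,k4,k0] [(z1,[z1])] []),
    .old (.leafM k1 [k3,k1,k2] [] [(k4,k0,z1,[z1]),(k0,k4,z1,[z1])]),
    .old (.lp [k2,k2,k2,k2,k2] [k0,k0,k0,k0,k0,k0,k0,k0,k0,k0] k0 [] k8 k5
    [[(k8,k2)],[(k4,k2),(k9,k2)],[(k6,k2),(k7,k2)],[(k4,k2),(k9,k2)],[(k6,k2),(k7,k2)],[(k0,k2),(k2,k2)],[(k3,k2),(k5,
    k2)],[(k3,k2),(k5,k2)],[(k0,k2),(k2,k2)],[(k1,k2)]]
    [] k0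
    [[k1,k0,k0,k0,k1],[k0,k1,k1,k1,k0]]
    [.ref k1 k0 [(z1,[z1])],.ref k0 k0 [(z1,[y1,z1])]])]⟩

/-- classes `0 0 0 0 1`, types `N0 N0 N2 N1 S0` -/
noncomputable def cU5_27 : CertX :=
  ⟨[k12,k12,k14,k13,k16],[(false,k0,[k0,k1,k2,k3,k4])],[[[([z1,z0,z0,z0,z1],z1)],[([z1,z0,z0,z0,z1],z2)],[]]],
    [.old (.leafM k3 [k1,k2,k3,k4,k0] [(z1,[z1])] []),
    .old (.leafM k1 [k3,k1,k2] [] [(k4,k0,z1,[z1]),(k0,k4,z1,[z1])]),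
    .old (.lp [k2,k2,k2,k2,k2] [k0,k0,k0,k0,k0,k0,k0,k0,k0,k0] k0 [] k8 k5
    [[(k1,k2),(k8,k2)],[(k4,k2),(k9,k2)],[(k6,k2),(k7,k2)],[(k4,k2),(k9,k2)],[(k6,k2),(k7,k2)],[(k0,k2),(k2,k2)],[(k3,
    k2),(k5,k2)],[(k3,k2),(k5,k2)],[(k0,k2),(k2,k2)],[(k1,k2),(k8,k2)]]
    [] k0
    [[k1,k0,k0,k0,k1],[k0,k1,k1,k1,k0]]
    [.ref k1 k0 [(z1,[z1])],.ref k0 k0 [(z1,[y1,z1])]])]⟩

/-- classes `0 0 0 0 1`, types `N0 N0 N2 N2 C0` -/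
noncomputable def cU5_28 : CertX :=
  ⟨[k12,k12,k14,k14,k20],[(false,k0,[k0,k1,k2,k3,k4])],[[[([z1,z0,z1,z0,z1],z1)],[([z1,z0,z1,z0,z1],z2)],[]]],
    [.old (.leafM k1 [k4,k0,k2] [] [(k1,k3,z1,[y1,z1]),(k3,k1,z1,[y1,z1])]),
    .old (.leafM k2 [k0,k1,k2,k3,k4] [(z1,[y1,z1])] []),
    .old (.lp [k2,k2,k2,k2,k2] [k0,k0,k0,k0,k0,k0,k0,k0,k0,k0] k0 [] k8 k5
    [[(k8,k2)],[(k4,k2),(k6,k2)],[(k7,k2),(k9,k2)],[(k4,k2),(k6,k2)],[(k7,k2),(k9,k2)],[(k0,k2),(k2,k2)],[(k3,k2),(k5,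
    k2)],[(k0,k2),(k2,k2)],[(k3,k2),(k5,k2)],[(k1,k2)]]
    [] k0
    [[k1,k0,k1,k0,k1],[k0,k1,k0,k1,k0]]
    [.ref k1 k0 [(z1,[z1])],.ref k0 k0 [(z1,[y1,z1])]])]⟩

/-- classes `0 0 0 0 1`, types `N0 N0 N2 N2 S0` -/
noncomputable def cU5_29 : CertX :=
  ⟨[k12,k12,k14,k14,k16],[(false,k0,[k0,k1,k2,k3,k4])],[[[([z1,z0,z1,z0,z1],z1)],[([z1,z0,z1,z0,z1],z2)],[]]],
    [.old (.leafM k1 [k4,k0,k2] [] [(k1,k3,z1,[y1,z1]),(k3,k1,z1,[y1,z1])]),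
    .old (.leafM k2 [k0,k1,k2,k3,k4] [(z1,[y1,z1])] []),
    .old (.lp [k2,k2,k2,k2,k2] [k0,k0,k0,k0,k0,k0,k0,k0,k0,k0] k0 [] k8 k5
    [[(k1,k2),(k8,k2)],[(k4,k2),(k6,k2)],[(k7,k2),(k9,k2)],[(k4,k2),(k6,k2)],[(k7,k2),(k9,k2)],[(k0,k2),(k2,k2)],[(k3,
    k2),(k5,k2)],[(k0,k2),(k2,k2)],[(k3,k2),(k5,k2)],[(k1,k2),(k8,k2)]]
    [] k0
    [[k1,k0,k1,k0,k1],[k0,k1,k0,k1,k0]]
    [.ref k1 k0 [(z1,[z1])],.ref k0 k0 [(z1,[y1,z1])]])]⟩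

/-- classes `0 0 0 0 1`, types `N0 N1 N0 N1 C0` -/
noncomputable def cU5_30 : CertX :=
  ⟨[k12,k13,k12,k13,k20],[(false,k0,[k0,k1,k2,k3,k4]),(true,k4,[k4,k3,k2,k1,k0])],[[[([z3,z0,z0,z0,z3],z1),([z0,z1,z0,
    z1,z0],z2)],[([z2,z0,z0,z0,z2],z1),([z0,z1,z0,z1,z0],z2)],[([z3,z0,z0,z0,z3],z2),([z0,z1,z0,z1,z0],z2)],[([z1,z0,
    z1,z0,z1],z1)],[([z1,z0,z0,z0,z1],z2),([z0,z3,z0,z3,z0],z1)],[([z1,z0,z0,z0,z1],z2),([z0,z2,z0,z2,z0],z1)],[([z1,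
    z0,z0,z0,z1],z2),([z0,z3,z0,z3,z0],z2)],[([z1,z0,z0,z0,z1],z2)],[([z1,z0,z1,z0,z1],z2),([z0,z3,z0,z0,z0],z1)],
    [([z1,z0,z1,z0,z1],z2),([z0,z2,z0,z0,z0],z1)],[([z1,z0,z1,z0,z1],z2)],[]]],
    [.old (.leafM k2 [k0,k2,k4] [(z1,[y1,y3,z3]),(z1,[z1])] [(k1,k3,z1,[z0,z1]),(k3,k1,z1,[z0,z1])]),
    .old (.leafM k3 [k0,k2,k4] [(z1,[y1,y2,z2]),(z1,[z1])] [(k1,k3,z1,[z0,z1]),(k3,k1,z1,[z0,z1])]),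
    .old (.leafM k4 [k0,k2,k4] [(z1,[y1,y3,z3]),(z1,[z1])] [(k1,k3,z1,[z0,z1]),(k3,k1,z1,[z0,z1])]),
    .old (.lp [k0,(nat_lit 5152),(nat_lit 1610),(nat_lit 2576),(nat_lit 2208)] [(nat_lit 2576),(nat_lit 2576),k0,k0,
    (nat_lit 1771),(nat_lit 1771),(nat_lit 1288),(nat_lit 1288),(nat_lit 1472),(nat_lit 1472)] k0 [[],[k0,k0,k0,
    (nat_lit 2352)],[(nat_lit 2352)]] (nat_lit 7728) k8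
    [[(k8,(nat_lit 1104))],[(k9,(nat_lit 1104)),(k5,(nat_lit 3157))],[(k2,(nat_lit 2800)),(k6,(nat_lit 3864))],[(k3,
    (nat_lit 2800)),(k7,(nat_lit 3864))],[(k4,(nat_lit 1610)),(k0,(nat_lit 3157))],[(k5,(nat_lit 1610)),(k9,
    (nat_lit 1909))],[(k6,(nat_lit 2576)),(k2,(nat_lit 3864))],[(k7,(nat_lit 2576)),(k3,(nat_lit 3864))],[(k0,
    (nat_lit 1104)),(k4,(nat_lit 1909))],[(k1,(nat_lit 1104))]]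
    [] k0
    [[k1,k0,k0,k0,k1],[k2,k0,k0,k0,k2],[k3,k0,k0,k0,k3],[k1,k0,k1,k0,k1],[k0,k2,k0,k0,k0],[k0,k0,k2,k0,k0],[k0,k0,k3,
    k0,k0],[k0,k0,k4,k0,k0],[k0,k0,k0,k2,k0]]
    [.contra [y2,z1,z1],.contra [y1,z2],.ref k2 k0 [(z1,[z1]),(z1,[z0,y1,z1])],.contra [y2,z1,z1],.contra [z1],
    .contra [z1],.ref k0 k0 [(z1,[y1,z3]),(z1,[z0,y1,z1])],.ref k1 k0 [(z2,[y1,z4]),(z1,[z0,y1,z1])],.contra [y1,y2,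
    z2]]),
    .old (.leafM k2 [k1,k2,k3] [(z1,[y3,y1,z3]),(z1,[z0,z1])] [(k4,k0,z1,[z1]),(k0,k4,z1,[z1])]),
    .old (.leafM k3 [k1,k2,k3] [(z1,[y2,y1,z2]),(z1,[z0,z1])] [(k4,k0,z1,[z1]),(k0,k4,z1,[z1])]),
    .old (.leafM k4 [k1,k2,k3] [(z1,[y3,y1,z3]),(z1,[z0,z1])] [(k4,k0,z1,[z1]),(k0,k4,z1,[z1])]),
    .old (.lp [(nat_lit 644),(nat_lit 782),k0,(nat_lit 718),(nat_lit 772)] [k69,k69,k0,k0,(nat_lit 391),(nat_lit 391),k32,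
    k32,k5,k5] k82 [[],[k0,k0,k0,k0,k0,k0,k0,(nat_lit 428)],[k0,k0,k0,k0,(nat_lit 418)],[],[k0,k0,k0,k0,k0,k0,k64],
    [k0,k0,k0,(nat_lit 418)],[(nat_lit 428)],[k0,k0,k0,k0,k0,k64]] (nat_lit 1680) k8
    [[(k8,(nat_lit 626))],[(k5,(nat_lit 240)),(k9,(nat_lit 1054))],[(k6,(nat_lit 240)),(k2,(nat_lit 700))],[(k7,
    (nat_lit 250)),(k3,(nat_lit 700))],[(k0,(nat_lit 240)),(k4,(nat_lit 336))],[(k9,(nat_lit 240)),(k5,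
    (nat_lit 336))],[(k2,(nat_lit 250)),(k6,(nat_lit 700))],[(k3,(nat_lit 240)),(k7,(nat_lit 700))],[(k4,
    (nat_lit 240)),(k0,(nat_lit 1054))],[(k1,(nat_lit 626))]]
    [] k0
    [[k1,k0,k1,k0,k1],[k1,k0,k2,k0,k1],[k0,k2,k0,k0,k0],[k0,k2,k0,k1,k0],[k0,k1,k0,k1,k0],[k0,k2,k0,k2,k0],[k0,k3,k0,
    k3,k0],[k0,k1,k0,k2,k0],[k0,k0,k2,k0,k0],[k0,k0,k3,k0,k0],[k0,k0,k4,k0,k0],[k0,k0,k0,k2,k0]]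
    [.contra [z1,y1],.contra [z1,y1],.contra [z1],.contra [y1,y2,z2],.contra [y1,y2,z2],.contra [y1,y2,z2],
    .ref k6 k0 [(z1,[z0,z1]),(z1,[z1])],.contra [y1,y2,z2],.contra [z1],.ref k4 k0 [(z1,[z0,z1]),(z1,[y1,y3,z3])],
    .ref k5 k0 [(z1,[z0,z1]),(z2,[y1,y4,z4])],.contra [z1]]),
    .old (.leafM k6 [k0,k1,k2,k3,k4] [(z1,[z0,z1]),(z1,[y3,y1,z3])] []),
    .old (.leafM k5 [k0,k1,k2,k3,k4] [(z1,[z0,z1]),(z1,[y2,y1,z2])] []),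
    .old (.lp [k16,k60,k80,k50,k144] [k64,k64,k42,k42,k32,k32,k47,k47,k0,k0] k0 [[k0,k0,k0,k0,k0,k0,k30],[],[],[],[],[],
    [],[k0,k30]] (nat_lit 240) k6
    [[(k8,k80)],[(k5,k48),(k9,k50)],[(k2,k60),(k6,k85)],[(k7,k55),(k3,k60)],[(k0,k48),(k4,k80)],[(k5,k80),(k9,k112)],
    [(k6,k50),(k2,k55)],[(k7,k50),(k3,k85)],[(k0,k50),(k4,k112)],[(k1,k80)]]
    [] k0
    [[k1,k0,k0,k0,k1],[k0,k2,k0,k0,k0],[k0,k3,k0,k0,k0],[k0,k2,k0,k1,k0],[k0,k1,k0,k1,k0],[k0,k1,k0,k2,k0],[k0,k0,k2,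
    k0,k0],[k0,k0,k0,k2,k0],[k0,k0,k0,k3,k0],[k0,k0,k0,k4,k0]]
    [.contra [y1,z1],.contra [z1],.ref k8 k1 [(z1,[z0,z1]),(z1,[y1,y3,z3])],.contra [z1,z1,y1],.contra [y1,y2,z2],
    .contra [z1,z1,y1],.contra [z1],.contra [z1],.ref k8 k0 [(z1,[z0,z1]),(z1,[y1,y3,z3])],.ref k9 k0 [(z1,[z0,z1]),
    (z2,[y1,y4,z4])]]),
    .old (.lp [k110,(nat_lit 240),(nat_lit 220),k198,(nat_lit 220)] [k65,k65,k0,k0,k10,k10,k21,k21,k10,k10] k0 [[],[],[],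
    [],[k0,k0,k0,k0,k0,k0,k55],[],[],[k0,k0,k0,k0,k0,k55]] (nat_lit 660) k5
    [[(k8,k165)],[(k5,k165),(k9,k165)],[(k6,(nat_lit 219)),(k2,(nat_lit 240))],[(k7,(nat_lit 219)),(k3,
    (nat_lit 240))],[(k0,k165),(k4,(nat_lit 220))],[(k9,k165),(k5,(nat_lit 220))],[(k2,(nat_lit 219)),(k6,
    (nat_lit 253))],[(k3,(nat_lit 219)),(k7,(nat_lit 253))],[(k0,k165),(k4,k165)],[(k1,k165)]]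
    [] k0
    [[k1,k0,k0,k0,k1],[k1,k0,k1,k0,k1],[k0,k2,k0,k0,k0],[k0,k1,k0,k1,k0],[k0,k0,k2,k0,k0],[k0,k0,k0,k2,k0]]
    [.ref k7 k0 [(z1,[z1])],.ref k10 k0 [(z1,[z1])],.contra [z1],.ref k3 k0 [(z1,[y1,z1])],.contra [z1],.contra [z1]])]⟩

/-- classes `0 0 0 0 1`, types `N0 N1 N0 N1 S0` -/
noncomputable def cU5_31 : CertX :=
  ⟨[k12,k13,k12,k13,k16],[(false,k0,[k0,k1,k2,k3,k4]),(true,k4,[k4,k3,k2,k1,k0])],[[[([z3,z0,z0,z0,z3],z1),([z0,z1,z0,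
    z1,z0],z2)],[([z2,z0,z0,z0,z2],z1),([z0,z1,z0,z1,z0],z2)],[([z3,z0,z0,z0,z3],z2),([z0,z1,z0,z1,z0],z2)],[([z1,z0,
    z1,z0,z1],z1)],[([z1,z0,z0,z0,z1],z2),([z0,z3,z0,z3,z0],z1)],[([z1,z0,z0,z0,z1],z2),([z0,z2,z0,z2,z0],z1)],[([z1,
    z0,z0,z0,z1],z2),([z0,z3,z0,z3,z0],z2)],[([z1,z0,z0,z0,z1],z2)],[([z1,z0,z1,z0,z1],z2),([z0,z3,z0,z0,z0],z1)],
    [([z1,z0,z1,z0,z1],z2),([z0,z2,z0,z0,z0],z1)],[([z1,z0,z1,z0,z1],z2)],[]]],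
    [.old (.leafM k2 [k0,k2,k4] [(z1,[y1,y3,z3]),(z1,[z1])] [(k1,k3,z1,[z0,z1]),(k3,k1,z1,[z0,z1])]),
    .old (.leafM k3 [k0,k2,k4] [(z1,[y1,y2,z2]),(z1,[z1])] [(k1,k3,z1,[z0,z1]),(k3,k1,z1,[z0,z1])]),
    .old (.leafM k4 [k0,k2,k4] [(z1,[y1,y3,z3]),(z1,[z1])] [(k1,k3,z1,[z0,z1]),(k3,k1,z1,[z0,z1])]),
    .old (.lp [(nat_lit 1104),(nat_lit 2576),(nat_lit 1610),(nat_lit 5152),(nat_lit 1104)] [(nat_lit 2024),(nat_lit 2024),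
    (nat_lit 1288),(nat_lit 1288),(nat_lit 1771),(nat_lit 1771),k0,k0,(nat_lit 2024),(nat_lit 2024)] k0 [[],[],[],[],
    [],[k0,k0,k0,k0,k0,k0,k0,(nat_lit 2352)],[k0,k0,k0,k0,(nat_lit 2352)]] (nat_lit 7728) k8
    [[(k1,(nat_lit 1104)),(k8,(nat_lit 1104))],[(k9,(nat_lit 1104)),(k5,(nat_lit 1357))],[(k2,(nat_lit 2576)),(k6,
    (nat_lit 3864))],[(k3,(nat_lit 2576)),(k7,(nat_lit 3864))],[(k0,(nat_lit 1357)),(k4,(nat_lit 1610))],[(k5,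
    (nat_lit 1610)),(k9,(nat_lit 3709))],[(k6,(nat_lit 2800)),(k2,(nat_lit 3864))],[(k7,(nat_lit 2800)),(k3,
    (nat_lit 3864))],[(k0,(nat_lit 1104)),(k4,(nat_lit 3709))],[(k1,(nat_lit 1104)),(k8,(nat_lit 1104))]]
    [] k0
    [[k3,k0,k0,k0,k3],[k2,k0,k0,k0,k2],[k1,k0,k0,k0,k1],[k1,k0,k1,k0,k1],[k0,k2,k0,k0,k0],[k0,k0,k2,k0,k0],[k0,k0,k3,
    k0,k0],[k0,k0,k4,k0,k0],[k0,k0,k0,k2,k0]]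
    [.ref k2 k0 [(z1,[z1]),(z1,[z0,y1,z1])],.contra [y1,z2],.contra [y2,z1,z1],.contra [y2,z1,z1],.contra [z1],
    .contra [z1],.ref k0 k0 [(z1,[y1,z3]),(z1,[z0,y1,z1])],.ref k1 k0 [(z2,[y1,z4]),(z1,[z0,y1,z1])],.contra [y1,y2,
    z2]]),
    .old (.leafM k2 [k1,k2,k3] [(z1,[y3,y1,z3]),(z1,[z0,z1])] [(k4,k0,z1,[z1]),(k0,k4,z1,[z1])]),
    .old (.leafM k3 [k1,k2,k3] [(z1,[y2,y1,z2]),(z1,[z0,z1])] [(k4,k0,z1,[z1]),(k0,k4,z1,[z1])]),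
    .old (.leafM k4 [k1,k2,k3] [(z1,[y3,y1,z3]),(z1,[z0,z1])] [(k4,k0,z1,[z1]),(k0,k4,z1,[z1])]),
    .old (.lp [(nat_lit 772),(nat_lit 718),k0,(nat_lit 782),(nat_lit 644)] [k5,k5,k32,k32,(nat_lit 391),(nat_lit 391),k0,
    k0,k69,k69] k82 [[k0,k0,k64],[k0,k0,k0,k0,k0,k0,k0,(nat_lit 428)],[k0,k0,k0,k0,(nat_lit 418)],[k0,k64],[],[k0,k0,
    k0,(nat_lit 418)],[(nat_lit 428)]] (nat_lit 1680) k8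
    [[(k8,(nat_lit 626)),(k1,(nat_lit 690))],[(k5,(nat_lit 240)),(k9,(nat_lit 1054))],[(k6,(nat_lit 240)),(k2,
    (nat_lit 700))],[(k7,(nat_lit 250)),(k3,(nat_lit 700))],[(k0,(nat_lit 240)),(k4,(nat_lit 336))],[(k9,
    (nat_lit 240)),(k5,(nat_lit 336))],[(k2,(nat_lit 250)),(k6,(nat_lit 700))],[(k3,(nat_lit 240)),(k7,
    (nat_lit 700))],[(k4,(nat_lit 240)),(k0,(nat_lit 1054))],[(k8,(nat_lit 562)),(k1,(nat_lit 626))]]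
    [] k0
    [[k1,k0,k1,k0,k1],[k1,k0,k2,k0,k1],[k0,k2,k0,k0,k0],[k0,k2,k0,k1,k0],[k0,k1,k0,k1,k0],[k0,k2,k0,k2,k0],[k0,k3,k0,
    k3,k0],[k0,k1,k0,k2,k0],[k0,k0,k2,k0,k0],[k0,k0,k3,k0,k0],[k0,k0,k4,k0,k0],[k0,k0,k0,k2,k0]]
    [.contra [z1,y1],.contra [z1,y1],.contra [z1],.contra [y1,y2,z2],.contra [y1,y2,z2],.contra [y1,y2,z2],
    .ref k6 k0 [(z1,[z0,z1]),(z1,[z1])],.contra [y1,y2,z2],.contra [z1],.ref k4 k0 [(z1,[z0,z1]),(z1,[y1,y3,z3])],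
    .ref k5 k0 [(z1,[z0,z1]),(z2,[y1,y4,z4])],.contra [z1]]),
    .old (.leafM k6 [k0,k1,k2,k3,k4] [(z1,[z0,z1]),(z1,[y3,y1,z3])] []),
    .old (.leafM k5 [k0,k1,k2,k3,k4] [(z1,[z0,z1]),(z1,[y2,y1,z2])] []),
    .old (.lp [k112,k50,k80,k60,k48] [k0,k0,k31,k31,k16,k16,k26,k26,k32,k32] k0 [[k0,k0,k0,k0,k0,k0,k30],[],[],[],[],[],
    [],[k0,k30]] (nat_lit 240) k6
    [[(k8,k80),(k1,k112)],[(k9,k50),(k5,k96)],[(k2,k50),(k6,k85)],[(k3,k50),(k7,k55)],[(k4,k80),(k0,k96)],[(k9,k64),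
    (k5,k80)],[(k2,k55),(k6,k60)],[(k7,k60),(k3,k85)],[(k0,k50),(k4,k64)],[(k8,k48),(k1,k80)]]
    [] k0
    [[k1,k0,k0,k0,k1],[k0,k2,k0,k0,k0],[k0,k3,k0,k0,k0],[k0,k4,k0,k0,k0],[k0,k2,k0,k1,k0],[k0,k1,k0,k1,k0],[k0,k1,k0,
    k2,k0],[k0,k0,k2,k0,k0],[k0,k0,k0,k2,k0],[k0,k0,k0,k3,k0]]
    [.contra [y1,z1],.contra [z1],.ref k8 k1 [(z1,[z0,z1]),(z1,[y1,y3,z3])],.ref k9 k0 [(z1,[z0,z1]),(z2,[z1])],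
    .contra [z1,z1,y1],.contra [y1,y2,z2],.contra [z1,z1,y1],.contra [z1],.contra [z1],.ref k8 k0 [(z1,[z0,z1]),(z1,
    [y1,y3,z3])]]),
    .old (.lp [k70,k98,k80,k98,k70] [k14,k14,k0,k0,k9,k9,k0,k0,k14,k14] k0 [[],[],[k0,k0,k0,k0,k14],[],[],[k0,k0,k0,
    k14]] (nat_lit 280) k5
    [[(k1,k70),(k8,k70)],[(k9,k70),(k5,k75)],[(k2,k98),(k6,k98)],[(k7,k84),(k3,k98)],[(k0,k75),(k4,k94)],[(k9,k75),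
    (k5,k94)],[(k2,k84),(k6,k98)],[(k3,k98),(k7,k98)],[(k0,k70),(k4,k75)],[(k1,k70),(k8,k70)]]
    [] k0
    [[k1,k0,k0,k0,k1],[k1,k0,k1,k0,k1],[k0,k2,k0,k0,k0],[k0,k1,k0,k1,k0],[k0,k0,k2,k0,k0],[k0,k0,k0,k2,k0]]
    [.ref k7 k0 [(z1,[z1])],.ref k10 k0 [(z1,[z1])],.contra [z1],.ref k3 k0 [(z1,[y1,z1])],.contra [z1],.contra [z1]])]⟩

/-- classes `0 0 0 0 1`, types `N0 N1 N0 N2 C0` -/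
noncomputable def cU5_32 : CertX :=
  ⟨[k12,k13,k12,k14,k20],[],[[[]]],
    [.old (.lp [k104,k120,k76,k148,k86] [k22,k22,k14,k14,k36,k36,k0,k0,k31,k31] k0 [[],[],[k0,k0,k0,k0,k44],[],[k0,k0,k0,
    k0,k0,k0,k0,k22],[k0,k0,k0,k44],[k0,k0,k0,k0,k0,k22]] (nat_lit 360) k5
    [[(k8,k95)],[(k5,k90),(k6,k126)],[(k9,k103),(k2,k120)],[(k7,k90),(k3,k120)],[(k0,k90),(k4,k120)],[(k6,k90),(k5,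
    k120)],[(k2,k90),(k9,k139)],[(k4,k90),(k0,k126)],[(k3,k103),(k7,k139)],[(k1,k95)]]
    [] k0
    [[k0,k2,k0,k0,k0],[k0,k0,k2,k0,k0]]
    [.contra [z1],.contra [z1]])]⟩

/-- classes `0 0 0 0 1`, types `N0 N1 N0 N2 S0` -/
noncomputable def cU5_33 : CertX :=
  ⟨[k12,k13,k12,k14,k16],[],[[[]]],
    [.old (.lp [k34,k40,k26,k48,k30] [k7,k7,k4,k4,k11,k11,k0,k0,k9,k9] k0 [[],[k0,k0,k0,k0,k0,k0,k1],[k0,k0,k0,k0,k14],[],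
    [k0,k0,k0,k0,k0,k0,k0,k7],[k0,k0,k0,k14],[k0,k0,k0,k0,k0,k7],[k1]] k120 k5
    [[(k8,k32),(k1,k34)],[(k5,k30),(k6,k42)],[(k9,k34),(k2,k40)],[(k7,k30),(k3,k40)],[(k0,k30),(k4,k40)],[(k6,k30),
    (k5,k40)],[(k2,k30),(k9,k46)],[(k4,k30),(k0,k42)],[(k3,k34),(k7,k46)],[(k8,k30),(k1,k32)]]
    [] k0
    [[k0,k2,k0,k0,k0],[k0,k0,k2,k0,k0]]
    [.contra [z1],.contra [z1]])]⟩

/-- classes `0 0 0 0 1`, types `N0 N1 N1 N0 C0` -/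
noncomputable def cU5_34 : CertX :=
  ⟨[k12,k13,k13,k12,k20],[(true,k4,[k4,k3,k2,k1,k0]),(false,k0,[k0,k1,k2,k3,k4])],[[[([z1,z0,z1,z0,z1],z2),([z0,z3,z0,
    z0,z0],z1)],[([z1,z0,z1,z0,z1],z2),([z0,z2,z0,z0,z0],z1)],[([z1,z0,z1,z0,z1],z2)],[]]],
    [.old (.leafM k6 [k0,k1,k2,k3,k4] [(z1,[z0,z1]),(z1,[y3,y1,z3])] []),
    .old (.leafM k5 [k0,k1,k2,k3,k4] [(z1,[z0,z1]),(z1,[y2,y1,z2])] []),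
    .old (.lp [k8,k8,k8,k10,k24] [k8,k8,k8,k8,k8,k8,k7,k7,k0,k0] k0 [] k40 k6
    [[(k8,k16)],[(k5,k8),(k7,k9)],[(k2,k8),(k4,k8)],[(k3,k8),(k9,k16)],[(k0,k8),(k6,k9)],[(k3,k8),(k9,k16)],[(k0,k9),
    (k6,k10)],[(k5,k9),(k7,k10)],[(k2,k16),(k4,k16)],[(k1,k16)]]
    [] k0
    [[k0,k2,k0,k0,k0],[k0,k3,k0,k0,k0],[k0,k4,k0,k0,k0],[k0,k0,k0,k2,k0],[k0,k0,k0,k3,k0]]
    [.contra [z1],.ref k0 k0 [(z1,[z0,z1]),(z1,[y1,y3,z3])],.ref k1 k1 [(z1,[z0,z1]),(z2,[z1])],.contra [z1],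
    .ref k0 k1 [(z1,[z0,z1]),(z1,[y1,y3,z3])]]),
    .old (.lp [k6,k8,k6,k8,k6] [k1,k1,k0,k0,k1,k1,k0,k0,k1,k1] k0 [] k24 k5
    [[(k8,k6)],[(k5,k6),(k7,k7)],[(k4,k7),(k2,k8)],[(k9,k7),(k3,k8)],[(k0,k6),(k6,k7)],[(k9,k6),(k3,k7)],[(k0,k7),(k6,
    k8)],[(k5,k7),(k7,k8)],[(k4,k6),(k2,k7)],[(k1,k6)]]
    [] k0
    [[k1,k0,k1,k0,k1],[k0,k2,k0,k0,k0],[k0,k0,k0,k2,k0]]
    [.ref k2 k1 [(z1,[z1])],.contra [z1],.contra [z1]])]⟩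

/-- classes `0 0 0 0 1`, types `N0 N1 N1 N0 S0` -/
noncomputable def cU5_35 : CertX :=
  ⟨[k12,k13,k13,k12,k16],[(true,k4,[k4,k3,k2,k1,k0]),(false,k0,[k0,k1,k2,k3,k4])],[[[([z1,z0,z1,z0,z1],z2),([z0,z3,z0,
    z0,z0],z1)],[([z1,z0,z1,z0,z1],z2),([z0,z2,z0,z0,z0],z1)],[([z1,z0,z1,z0,z1],z2)],[]]],
    [.old (.leafM k6 [k0,k1,k2,k3,k4] [(z1,[z0,z1]),(z1,[y3,y1,z3])] []),
    .old (.leafM k5 [k0,k1,k2,k3,k4] [(z1,[z0,z1]),(z1,[y2,y1,z2])] []),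
    .old (.lp [k24,k10,k8,k8,k8] [k0,k0,k7,k7,k8,k8,k8,k8,k8,k8] k0 [] k40 k6
    [[(k8,k16),(k1,k24)],[(k5,k16),(k7,k16)],[(k4,k9),(k2,k10)],[(k9,k9),(k3,k10)],[(k6,k8),(k0,k16)],[(k9,k8),(k3,
    k9)],[(k6,k8),(k0,k16)],[(k5,k8),(k7,k8)],[(k4,k8),(k2,k9)],[(k8,k8),(k1,k16)]]
    [] k0
    [[k0,k2,k0,k0,k0],[k0,k3,k0,k0,k0],[k0,k0,k0,k2,k0],[k0,k0,k0,k3,k0],[k0,k0,k0,k4,k0]]
    [.contra [z1],.ref k0 k0 [(z1,[z0,z1]),(z1,[y1,y3,z3])],.contra [z1],.ref k0 k1 [(z1,[z0,z1]),(z1,[y1,y3,z3])],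
    .ref k1 k1 [(z1,[z0,z1]),(z2,[y1,y4,z4])]]),
    .old (.lp [k6,k8,k6,k8,k6] [k1,k1,k0,k0,k1,k1,k0,k0,k1,k1] k0 [] k24 k5
    [[(k1,k6),(k8,k6)],[(k5,k6),(k7,k7)],[(k4,k7),(k2,k8)],[(k9,k7),(k3,k8)],[(k0,k6),(k6,k7)],[(k9,k6),(k3,k7)],[(k0,
    k7),(k6,k8)],[(k5,k7),(k7,k8)],[(k4,k6),(k2,k7)],[(k1,k6),(k8,k6)]]
    [] k0
    [[k1,k0,k1,k0,k1],[k0,k2,k0,k0,k0],[k0,k0,k0,k2,k0]]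
    [.ref k2 k1 [(z1,[z1])],.contra [z1],.contra [z1]])]⟩

/-- classes `0 0 0 0 1`, types `N0 N1 N1 N3 C0` -/
noncomputable def cU5_36 : CertX :=
  ⟨[k12,k13,k13,k15,k20],[],[[[]]],
    [.old (.lp [k6,k8,k6,k6,k6] [k1,k1,k0,k0,k1,k1,k1,k1,k1,k1] k0 [] k24 k5
    [[(k8,k6)],[(k5,k6),(k7,k6)],[(k4,k7),(k2,k8)],[(k6,k7),(k3,k8)],[(k0,k6),(k9,k6)],[(k6,k6),(k3,k7)],[(k0,k6),(k9,
    k6)],[(k4,k6),(k2,k7)],[(k5,k6),(k7,k6)],[(k1,k6)]]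
    [] k0
    [[k0,k2,k0,k0,k0]]
    [.contra [z1]])]⟩

/-- classes `0 0 0 0 1`, types `N0 N1 N1 N3 S0` -/
noncomputable def cU5_37 : CertX :=
  ⟨[k12,k13,k13,k15,k16],[],[[[]]],
    [.old (.lp [k6,k8,k6,k6,k6] [k1,k1,k0,k0,k1,k1,k1,k1,k1,k1] k0 [] k24 k5
    [[(k1,k6),(k8,k6)],[(k5,k6),(k7,k6)],[(k4,k7),(k2,k8)],[(k6,k7),(k3,k8)],[(k0,k6),(k9,k6)],[(k6,k6),(k3,k7)],[(k0,
    k6),(k9,k6)],[(k4,k6),(k2,k7)],[(k5,k6),(k7,k6)],[(k1,k6),(k8,k6)]]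
    [] k0
    [[k0,k2,k0,k0,k0]]
    [.contra [z1]])]⟩

/-- classes `0 0 0 0 1`, types `N0 N1 N2 N0 C0` -/
noncomputable def cU5_38 : CertX :=
  ⟨[k12,k13,k14,k12,k20],[],[[[]]],
    [.old (.lp [k2,k4,k4,k2,k4] [k1,k1,k0,k0,k0,k0,k1,k1,k0,k0] k0 [] k12 k5
    [[(k8,k3)],[(k4,k3),(k5,k3)],[(k7,k3),(k2,k4)],[(k3,k4),(k9,k4)],[(k0,k3),(k6,k3)],[(k0,k3),(k6,k3)],[(k3,k3),(k9,
    k3)],[(k4,k3),(k5,k3)],[(k7,k3),(k2,k4)],[(k1,k3)]]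
    [] k0
    [[k0,k2,k0,k0,k0]]
    [.contra [z1]])]⟩

/-- classes `0 0 0 0 1`, types `N0 N1 N2 N0 S0` -/
noncomputable def cU5_39 : CertX :=
  ⟨[k12,k13,k14,k12,k16],[],[[[]]],
    [.old (.lp [k18,k16,k12,k12,k12] [k0,k0,k1,k1,k3,k3,k3,k3,k3,k3] k0 [] k48 k5
    [[(k8,k15),(k1,k18)],[(k4,k15),(k5,k15)],[(k7,k14),(k2,k16)],[(k9,k14),(k3,k16)],[(k6,k12),(k0,k15)],[(k6,k12),
    (k0,k15)],[(k9,k12),(k3,k14)],[(k4,k12),(k5,k12)],[(k7,k12),(k2,k14)],[(k8,k12),(k1,k15)]]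
    [] k0
    [[k0,k2,k0,k0,k0]]
    [.contra [z1]])]⟩

/-- classes `0 0 0 0 1`, types `N0 N1 N2 N3 C0` -/
noncomputable def cU5_40 : CertX :=
  ⟨[k12,k13,k14,k15,k20],[(false,k0,[k0,k1,k2,k3,k4])],[[[([z1,z0,z1,z0,z1],z1)],[([z1,z0,z1,z0,z1],z2)],[]]],
    [.old (.leafM k1 [k4,k0,k2] [] [(k1,k3,z1,[y1,z1]),(k3,k1,z1,[y1,z1])]),
    .old (.leafM k2 [k0,k1,k2,k3,k4] [(z1,[y1,z1])] []),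
    .old (.lp [k6,k8,k6,k8,k6] [k1,k1,k0,k0,k1,k1,k0,k0,k1,k1] k0 [] k24 k5
    [[(k8,k6)],[(k4,k6),(k5,k6)],[(k2,k8),(k7,k8)],[(k3,k8),(k6,k8)],[(k0,k6),(k9,k6)],[(k0,k6),(k9,k6)],[(k3,k8),(k6,
    k8)],[(k2,k8),(k7,k8)],[(k4,k6),(k5,k6)],[(k1,k6)]]
    [] k0
    [[k1,k0,k1,k0,k1],[k0,k2,k0,k0,k0],[k0,k1,k0,k1,k0],[k0,k0,k0,k2,k0]]
    [.ref k1 k0 [(z1,[z1])],.contra [z1],.ref k0 k0 [(z1,[y1,z1])],.contra [z1]])]⟩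

/-- classes `0 0 0 0 1`, types `N0 N1 N2 N3 S0` -/
noncomputable def cU5_41 : CertX :=
  ⟨[k12,k13,k14,k15,k16],[(false,k0,[k0,k1,k2,k3,k4])],[[[([z1,z0,z1,z0,z1],z1)],[([z1,z0,z1,z0,z1],z2)],[([z2,z0,z1,
    z0,z0],z2)],[]]],
    [.old (.leafM k1 [k4,k0,k2] [] [(k1,k3,z1,[y1,z1]),(k3,k1,z1,[y1,z1])]),
    .old (.leafM k2 [k0,k1,k2,k3,k4] [(z1,[y1,z1])] []),
    .old (.lp [k12,k10,k6,k10,k6] [k0,k0,k1,k1,k3,k3,k1,k1,k3,k3] k0 [] k30 k6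
    [[(k8,k9),(k1,k12)],[(k4,k9),(k5,k9)],[(k2,k10),(k7,k10)],[(k3,k10),(k6,k10)],[(k9,k6),(k0,k9)],[(k9,k6),(k0,k9)],
    [(k3,k10),(k6,k10)],[(k2,k10),(k7,k10)],[(k4,k6),(k5,k6)],[(k8,k6),(k1,k9)]]
    [] k0
    [[k1,k0,k1,k0,k1],[k0,k2,k0,k0,k0],[k0,k1,k0,k1,k0],[k0,k0,k1,k0,k2],[k0,k0,k0,k2,k0]]
    [.ref k1 k0 [(z1,[z1])],.contra [z1],.contra [y2,y1,z2],.ref k1 k0 [(z2,[z1,z1])],.contra [z1]]),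
    .old (.lp [k6,k10,k6,k10,k12] [k3,k3,k1,k1,k3,k3,k1,k1,k0,k0] k0 [] k30 k6
    [[(k1,k6),(k8,k9)],[(k4,k6),(k5,k6)],[(k2,k10),(k7,k10)],[(k3,k10),(k6,k10)],[(k0,k6),(k9,k9)],[(k0,k6),(k9,k9)],
    [(k3,k10),(k6,k10)],[(k2,k10),(k7,k10)],[(k4,k9),(k5,k9)],[(k1,k9),(k8,k12)]]
    [] k0
    [[k2,k0,k1,k0,k0],[k1,k0,k1,k0,k1],[k0,k2,k0,k0,k0],[k0,k1,k0,k1,k0],[k0,k0,k0,k2,k0]]
    [.ref k2 k0 [(z1,[z1])],.ref k1 k0 [(z1,[z1])],.contra [z1],.ref k0 k0 [(z1,[y1,z1])],.contra [z1]])]⟩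

/-- classes `0 0 0 0 1`, types `N0 N1 N3 N1 C0` -/
noncomputable def cU5_42 : CertX :=
  ⟨[k12,k13,k15,k13,k20],[(false,k0,[k0,k1,k2,k3,k4])],[[[([z1,z0,z0,z0,z1],z2)],[([z1,z0,z0,z0,z1],z1)],[]]],
    [.old (.leafM k1 [k3,k1,k2] [] [(k4,k0,z1,[z1]),(k0,k4,z1,[z1])]),
    .old (.leafM k3 [k1,k2,k3,k4,k0] [(z1,[z1])] []),
    .old (.lp [k0,(nat_lit 268),(nat_lit 472),k22,(nat_lit 288)] [(nat_lit 236),(nat_lit 236),k102,k102,k0,k0,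
    (nat_lit 225),(nat_lit 225),k92,k92] k0 [[k0,k0,k92],[],[k0,k0,k0,k0,k0,(nat_lit 226)],[k0,k92],[k0,k0,k0,
    (nat_lit 226)]] (nat_lit 720) k6
    [[(k8,k144)],[(k5,k144),(k9,k144)],[(k6,k145),(k2,(nat_lit 360))],[(k4,k144),(k3,(nat_lit 360))],[(k0,k144),(k7,
    (nat_lit 473))],[(k2,k144),(k6,(nat_lit 247))],[(k9,k155),(k5,(nat_lit 473))],[(k3,k145),(k4,(nat_lit 247))],[(k0,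
    k144),(k7,k155)],[(k1,k144)]]
    [] k0
    [[k1,k0,k0,k0,k1],[k2,k0,k0,k0,k2],[k1,k0,k1,k1,k1]]
    [.ref k0 k0 [(z1,[z1])],.ref k1 k0 [(z2,[z1])],.contra [y1,z1]])]⟩

/-- classes `0 0 0 0 1`, types `N0 N1 N3 N1 S0` -/
noncomputable def cU5_43 : CertX :=
  ⟨[k12,k13,k15,k13,k16],[(false,k0,[k0,k1,k2,k3,k4])],[[[([z1,z0,z0,z0,z1],z2)],[([z1,z0,z0,z0,z1],z1)],[]]],
    [.old (.leafM k1 [k3,k1,k2] [] [(k4,k0,z1,[z1]),(k0,k4,z1,[z1])]),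
    .old (.leafM k3 [k1,k2,k3,k4,k0] [(z1,[z1])] []),
    .old (.lp [k72,k110,(nat_lit 212),k59,k72] [k70,k70,k51,k51,k0,k0,k83,k70,k70,k70] k0 [[k0,k0,k70],[],[k0,k0,k0,k0,k0,
    k89],[k0,k70],[k0,k0,k0,k89]] (nat_lit 360) k6
    [[(k1,k72),(k8,k72)],[(k5,k72),(k9,k72)],[(k6,k78),(k2,k180)],[(k4,k72),(k3,k180)],[(k0,k72),(k7,(nat_lit 231))],
    [(k2,k72),(k6,k129)],[(k9,k72),(k5,(nat_lit 231))],[(k3,k78),(k4,k129)],[(k0,k72),(k7,k72)],[(k1,k72),(k8,k72)]]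
    [] k0
    [[k2,k0,k0,k0,k2],[k1,k0,k0,k0,k1],[k1,k0,k1,k1,k1]]
    [.ref k1 k0 [(z2,[z1])],.ref k0 k0 [(z1,[z1])],.contra [y1,z1]])]⟩

/-- classes `0 0 0 0 1`, types `N0 N1 N3 N2 C0` -/
noncomputable def cU5_44 : CertX :=
  ⟨[k12,k13,k15,k14,k20],[(true,k4,[k4,k3,k2,k1,k0]),(false,k0,[k0,k1,k2,k3,k4])],[[[([z1,z0,z1,z0,z1],z2),([z0,z3,z0,
    z0,z0],z1)],[([z1,z0,z1,z0,z1],z2),([z0,z2,z0,z0,z0],z1)],[([z1,z0,z1,z0,z1],z2)],[]]],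
    [.old (.leafM k6 [k0,k1,k2,k3,k4] [(z1,[z0,z1]),(z1,[y3,y1,z3])] []),
    .old (.leafM k5 [k0,k1,k2,k3,k4] [(z1,[z0,z1]),(z1,[y2,y1,z2])] []),
    .old (.lp [k8,k8,k8,k10,k24] [k8,k8,k8,k8,k8,k8,k7,k7,k0,k0] k0 [] k40 k6
    [[(k8,k16)],[(k5,k8),(k6,k9)],[(k2,k8),(k9,k16)],[(k3,k8),(k4,k8)],[(k0,k8),(k7,k9)],[(k2,k8),(k9,k16)],[(k5,k9),
    (k6,k10)],[(k0,k9),(k7,k10)],[(k3,k16),(k4,k16)],[(k1,k16)]]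
    [] k0
    [[k0,k2,k0,k0,k0],[k0,k3,k0,k0,k0],[k0,k4,k0,k0,k0],[k0,k0,k0,k2,k0],[k0,k0,k0,k3,k0]]
    [.contra [z1],.ref k0 k0 [(z1,[z0,z1]),(z1,[y1,y3,z3])],.ref k1 k1 [(z1,[z0,z1]),(z2,[z1])],.contra [z1],
    .ref k0 k1 [(z1,[z0,z1]),(z1,[y1,y3,z3])]]),
    .old (.lp [k6,k8,k6,k8,k6] [k1,k1,k0,k0,k1,k1,k0,k0,k1,k1] k0 [] k24 k5
    [[(k8,k6)],[(k5,k6),(k6,k7)],[(k9,k7),(k2,k8)],[(k4,k7),(k3,k8)],[(k0,k6),(k7,k7)],[(k9,k6),(k2,k7)],[(k5,k7),(k6,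
    k8)],[(k0,k7),(k7,k8)],[(k4,k6),(k3,k7)],[(k1,k6)]]
    [] k0
    [[k1,k0,k1,k0,k1],[k0,k2,k0,k0,k0],[k0,k0,k0,k2,k0]]
    [.ref k2 k1 [(z1,[z1])],.contra [z1],.contra [z1]])]⟩

/-- classes `0 0 0 0 1`, types `N0 N1 N3 N2 S0` -/
noncomputable def cU5_45 : CertX :=
  ⟨[k12,k13,k15,k14,k16],[(true,k4,[k4,k3,k2,k1,k0]),(false,k0,[k0,k1,k2,k3,k4])],[[[([z1,z0,z1,z0,z1],z2),([z0,z3,z0,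
    z0,z0],z1)],[([z1,z0,z1,z0,z1],z2),([z0,z2,z0,z0,z0],z1)],[([z1,z0,z1,z0,z1],z2)],[]]],
    [.old (.leafM k6 [k0,k1,k2,k3,k4] [(z1,[z0,z1]),(z1,[y3,y1,z3])] []),
    .old (.leafM k5 [k0,k1,k2,k3,k4] [(z1,[z0,z1]),(z1,[y2,y1,z2])] []),
    .old (.lp [k24,k10,k8,k8,k8] [k0,k0,k7,k7,k8,k8,k8,k8,k8,k8] k0 [] k40 k6
    [[(k8,k16),(k1,k24)],[(k5,k16),(k6,k16)],[(k9,k9),(k2,k10)],[(k4,k9),(k3,k10)],[(k7,k8),(k0,k16)],[(k9,k8),(k2,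
    k9)],[(k5,k8),(k6,k8)],[(k7,k8),(k0,k16)],[(k4,k8),(k3,k9)],[(k8,k8),(k1,k16)]]
    [] k0
    [[k0,k2,k0,k0,k0],[k0,k3,k0,k0,k0],[k0,k0,k0,k2,k0],[k0,k0,k0,k3,k0],[k0,k0,k0,k4,k0]]
    [.contra [z1],.ref k0 k0 [(z1,[z0,z1]),(z1,[y1,y3,z3])],.contra [z1],.ref k0 k1 [(z1,[z0,z1]),(z1,[y1,y3,z3])],
    .ref k1 k1 [(z1,[z0,z1]),(z2,[y1,y4,z4])]]),
    .old (.lp [k6,k8,k6,k8,k6] [k1,k1,k0,k0,k1,k1,k0,k0,k1,k1] k0 [] k24 k5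
    [[(k1,k6),(k8,k6)],[(k5,k6),(k6,k7)],[(k9,k7),(k2,k8)],[(k4,k7),(k3,k8)],[(k0,k6),(k7,k7)],[(k9,k6),(k2,k7)],[(k5,
    k7),(k6,k8)],[(k0,k7),(k7,k8)],[(k4,k6),(k3,k7)],[(k1,k6),(k8,k6)]]
    [] k0
    [[k1,k0,k1,k0,k1],[k0,k2,k0,k0,k0],[k0,k0,k0,k2,k0]]
    [.ref k2 k1 [(z1,[z1])],.contra [z1],.contra [z1]])]⟩

/-- classes `0 0 0 0 1`, types `N0 N2 N0 N2 C0` -/
noncomputable def cU5_46 : CertX :=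
  ⟨[k12,k14,k12,k14,k20],[(false,k0,[k0,k1,k2,k3,k4]),(true,k4,[k4,k3,k2,k1,k0])],[[[([z1,z0,z0,z1,z1],z1),([z0,z1,z0,
    y1,z0],z0)],[([z1,z0,z0,z1,z1],z1),([z0,z1,z0,y1,z0],z1)],[([z1,z0,z0,z1,z1],z1)],[([z1,z0,z0,z1,z1],z2),([z0,z1,
    z0,y1,z0],z0)],[([z1,z0,z0,z1,z1],z2)],[]]],
    [.old (.tor k19 false k0 [(z1,[y1,y1,z1]),(z1,[y1,z0,z1]),(z1,[z2]),(z1,[z2,z2])]),
    .old (.tor k18 false k0 [(z1,[y2,y2,z2]),(z1,[y1,z0,z1]),(z1,[z1,z1]),(z1,[z2])]),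
    .old (.lp [k54,k118,k84,k42,k42] [k32,k32,k0,k0,k17,k17,k38,k38,k38,k38] k0 [[k0,k0,k0,k38],[],[k0,k38],[],[k0,k0,k0,
    k0,k0,k0,k0,k6],[],[k0,k0,k0,k0,k0,k6]] (nat_lit 240) k6
    [[(k8,k48)],[(k2,k48),(k6,k48)],[(k9,k80),(k5,k139)],[(k0,k48),(k4,k101)],[(k7,k63),(k3,k139)],[(k6,k57),(k2,
    k101)],[(k9,k48),(k5,k63)],[(k0,k48),(k4,k57)],[(k7,k48),(k3,k80)],[(k1,k48)]]
    [] k0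
    [[k1,k1,k0,k0,k1],[k1,k0,k0,k1,k1],[k0,k0,k1,k1,k0]]
    [.ref k1 k0 [(z1,[z0,z1]),(z1,[z1,y1])],.contra [y2,z1,z1],.ref k0 k0 [(z1,[z0,z1]),(z1,[y1,y1,z1])]]),
    .old (.tor k17 false k0 [(z1,[y2,y2,z2]),(z1,[y2,z0,z2]),(z1,[z1]),(z1,[z1,z1])]),
    .old (.lp [k14,k26,k6,k34,k22] [k10,k10,k4,k4,k14,k14,k0,k0,k6,k6] k0 [[k0,k0,k0,k2],[],[k0,k2],[k0,k0,k0,k0,k2],[k0,
    k0,k0,k0,k0,k0,k0,k2],[k0,k0,k2],[k0,k0,k0,k0,k0,k2]] k72 k5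
    [[(k8,k18)],[(k2,k18),(k6,k24)],[(k5,k18),(k9,k24)],[(k0,k18),(k4,k18)],[(k3,k18),(k7,k18)],[(k2,k18),(k6,k18)],
    [(k5,k18),(k9,k30)],[(k4,k18),(k0,k24)],[(k3,k24),(k7,k30)],[(k1,k18)]]
    [] k0
    [[k1,k1,k0,k0,k1],[k0,k1,k1,k0,k0],[k0,k0,k1,k1,k0]]
    [.ref k3 k0 [(z1,[z0,z1]),(z1,[z1,y1])],.contra [y1,y2,z2],.ref k2 k1 [(z1,[y1,z0,z1])]]),
    .old (.lp [k14,k26,k6,k34,k22] [k10,k10,k4,k4,k14,k14,k0,k0,k6,k6] k0 [[k0,k0,k0,k2],[],[k0,k2],[k0,k0,k0,k0,k2],[k0,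
    k0,k0,k0,k0,k0,k0,k2],[k0,k0,k2],[k0,k0,k0,k0,k0,k2]] k72 k5
    [[(k8,k18)],[(k2,k18),(k6,k24)],[(k5,k18),(k9,k24)],[(k0,k18),(k4,k18)],[(k3,k18),(k7,k18)],[(k2,k18),(k6,k18)],
    [(k5,k18),(k9,k30)],[(k4,k18),(k0,k24)],[(k3,k24),(k7,k30)],[(k1,k18)]]
    [] k0
    [[k1,k1,k0,k0,k1],[k0,k1,k1,k0,k0],[k0,k0,k1,k1,k0]]
    [.ref k4 k1 [(z1,[z1])],.ref k2 k0 [(z1,[y1,z1])],.ref k2 k1 [(z1,[y1,z1])]])]⟩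

/-- the certificates of this file -/
noncomputable def lU5_1 : List CertX :=
  [cU5_1, cU5_2, cU5_3, cU5_4, cU5_5, cU5_6, cU5_7, cU5_8, cU5_9, cU5_10, cU5_11, cU5_12, cU5_13, cU5_14,
      cU5_15, cU5_16, cU5_17, cU5_18, cU5_19, cU5_20, cU5_21, cU5_22, cU5_23, cU5_24, cU5_25, cU5_26, cU5_27,
      cU5_28, cU5_29, cU5_30, cU5_31, cU5_32, cU5_33, cU5_34, cU5_35, cU5_36, cU5_37, cU5_38, cU5_39, cU5_40,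
      cU5_41, cU5_42, cU5_43, cU5_44, cU5_45, cU5_46]

theorem gU5_1 : allF (chkE 5 ttU5) lU5_1 = true := by
  decide +kernel

end Pool.Agent.Lib_MP_fa6e45
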