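import Pool.Agent.Lib_MP_fa6e45.CXT
import Pool.Agent.Lib_MP_fa6e45.HK

/-!
MP_fa6e45_co, stage 7: certificates (generated by a program).
-/

namespace Pool.Agent.Lib_MP_fa6e45

/-- classes `0 0 0 0 1`, types `N0 N2 N0 N2 S0` -/
noncomputable def cU5_47 : CertX :=
  ⟨[k12,k14,k12,k14,k16],[(false,k0,[k0,k1,k2,k3,k4]),(true,k4,[k4,k3,k2,k1,k0])],[[[([z1,z0,z0,z1,z1],z1),([z0,z1,z0,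
    y1,z0],z0)],[([z1,z0,z0,z1,z1],z1),([z0,z1,z0,y1,z0],z1)],[([z1,z0,z0,z1,z1],z1)],[([z1,z0,z0,z1,z1],z2),([z0,z1,
    z0,y1,z0],z0)],[([z1,z0,z0,z1,z1],z2)],[]]],
    [.old (.tor k19 false k0 [(z1,[y1,y1,z1]),(z1,[y1,z0,z1]),(z1,[z2]),(z1,[z2,z2])]),
    .old (.tor k18 false k0 [(z1,[y2,y2,z2]),(z1,[y1,z0,z1]),(z1,[z1,z1]),(z1,[z2])]),
    .old (.lp [k24,k60,k42,k20,k24] [k18,k18,k0,k0,k9,k9,k20,k20,k18,k18] k0 [[k0,k0,k0,k18],[k0,k0,k0,k0,k0,k0,k2],[k0,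
    k18],[],[k0,k0,k0,k0,k0,k0,k0,k2],[],[k0,k0,k0,k0,k0,k2],[k2]] k120 k6
    [[(k1,k24),(k8,k24)],[(k2,k24),(k6,k24)],[(k9,k40),(k5,k69)],[(k0,k24),(k4,k51)],[(k7,k31),(k3,k69)],[(k6,k29),
    (k2,k51)],[(k9,k24),(k5,k31)],[(k0,k24),(k4,k29)],[(k7,k24),(k3,k40)],[(k1,k24),(k8,k24)]]
    [] k0
    [[k1,k1,k0,k0,k1],[k1,k0,k0,k1,k1],[k0,k0,k1,k1,k0]]
    [.ref k1 k0 [(z1,[z0,z1]),(z1,[z1,y1])],.contra [y2,z1,z1],.ref k0 k0 [(z1,[z0,z1]),(z1,[y1,y1,z1])]]),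
    .old (.tor k17 false k0 [(z1,[y2,y2,z2]),(z1,[y2,z0,z2]),(z1,[z1]),(z1,[z1,z1])]),
    .old (.lp [k18,k26,k6,k34,k18] [k8,k8,k4,k4,k14,k14,k0,k0,k8,k8] k0 [[k0,k0,k0,k2],[],[k0,k2],[k0,k0,k0,k0,k2],[k0,k0,
    k0,k0,k0,k0,k0,k2],[k0,k0,k2],[k0,k0,k0,k0,k0,k2]] k72 k5
    [[(k1,k18),(k8,k18)],[(k2,k20),(k6,k26)],[(k5,k18),(k9,k22)],[(k4,k18),(k0,k20)],[(k3,k18),(k7,k18)],[(k2,k18),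
    (k6,k18)],[(k5,k18),(k9,k28)],[(k4,k18),(k0,k26)],[(k3,k22),(k7,k28)],[(k1,k18),(k8,k18)]]
    [] k0
    [[k1,k1,k0,k0,k1],[k0,k1,k1,k0,k0],[k0,k0,k1,k1,k0]]
    [.ref k3 k0 [(z1,[z0,z1]),(z1,[z1,y1])],.contra [y1,y2,z2],.ref k2 k1 [(z1,[y1,z0,z1])]]),
    .old (.lp [k6,k10,k2,k10,k6] [k2,k2,k0,k0,k4,k4,k0,k0,k2,k2] k0 [[k0,k0,k0,k0,k0,k0,k0,k2],[],[],[],[],[],[k0,
    k2]] k24 k5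
    [[(k1,k6),(k8,k6)],[(k6,k6),(k2,k8)],[(k5,k6),(k9,k10)],[(k4,k6),(k0,k8)],[(k3,k6),(k7,k6)],[(k2,k6),(k6,k6)],
    [(k5,k6),(k9,k8)],[(k0,k6),(k4,k6)],[(k7,k8),(k3,k10)],[(k1,k6),(k8,k6)]]
    [] k0
    [[k1,k0,k0,k1,k1],[k0,k1,k1,k0,k0],[k0,k0,k1,k1,k0]]
    [.ref k4 k0 [(z1,[z1])],.ref k2 k0 [(z1,[y1,z1])],.ref k2 k1 [(z1,[y1,z1])]])]⟩

/-- classes `0 0 0 0 1`, types `N0 N2 N1 N3 C0` -/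
noncomputable def cU5_48 : CertX :=
  ⟨[k12,k14,k13,k15,k20],[],[[[]]],
    [.old (.lp [k2,k2,k2,k2,k2] [k0,k0,k0,k0,k0,k0,k0,k0,k0,k0] k0 [] k8 k5
    [[(k8,k2)],[(k2,k2),(k7,k2)],[(k4,k2),(k5,k2)],[(k0,k2),(k9,k2)],[(k3,k2),(k6,k2)],[(k3,k2),(k6,k2)],[(k0,k2),(k9,
    k2)],[(k4,k2),(k5,k2)],[(k2,k2),(k7,k2)],[(k1,k2)]]
    [] k0
    []
    [])]⟩

/-- classes `0 0 0 0 1`, types `N0 N2 N1 N3 S0` -/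
noncomputable def cU5_49 : CertX :=
  ⟨[k12,k14,k13,k15,k16],[],[[[]]],
    [.old (.lp [k2,k2,k2,k2,k2] [k0,k0,k0,k0,k0,k0,k0,k0,k0,k0] k0 [] k8 k5
    [[(k1,k2),(k8,k2)],[(k2,k2),(k7,k2)],[(k4,k2),(k5,k2)],[(k0,k2),(k9,k2)],[(k3,k2),(k6,k2)],[(k3,k2),(k6,k2)],[(k0,
    k2),(k9,k2)],[(k4,k2),(k5,k2)],[(k2,k2),(k7,k2)],[(k1,k2),(k8,k2)]]
    [] k0
    []
    [])]⟩

/-- classes `0 0 0 0 1`, types `N0 N2 N2 N0 C0` -/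
noncomputable def cU5_50 : CertX :=
  ⟨[k12,k14,k14,k12,k20],[(false,k0,[k0,k1,k2,k3,k4])],[[[([z1,z0,z1,z0,z1],z1)],[([z1,z0,z1,z0,z1],z2)],[]]],
    [.old (.leafM k1 [k4,k0,k2] [] [(k1,k3,z1,[y1,z1]),(k3,k1,z1,[y1,z1])]),
    .old (.leafM k2 [k0,k1,k2,k3,k4] [(z1,[y1,z1])] []),
    .old (.lp [k2,k2,k2,k2,k2] [k0,k0,k0,k0,k0,k0,k0,k0,k0,k0] k0 [] k8 k5
    [[(k8,k2)],[(k2,k2),(k4,k2)],[(k5,k2),(k7,k2)],[(k0,k2),(k6,k2)],[(k3,k2),(k9,k2)],[(k0,k2),(k6,k2)],[(k3,k2),(k9,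
    k2)],[(k2,k2),(k4,k2)],[(k5,k2),(k7,k2)],[(k1,k2)]]
    [] k0
    [[k1,k0,k1,k0,k1],[k0,k1,k0,k1,k0]]
    [.ref k1 k0 [(z1,[z1])],.ref k0 k0 [(z1,[y1,z1])]])]⟩

/-- classes `0 0 0 0 1`, types `N0 N2 N2 N0 S0` -/
noncomputable def cU5_51 : CertX :=
  ⟨[k12,k14,k14,k12,k16],[(false,k0,[k0,k1,k2,k3,k4])],[[[([z1,z0,z1,z0,z1],z1)],[([z1,z0,z1,z0,z1],z2)],[]]],
    [.old (.leafM k1 [k4,k0,k2] [] [(k1,k3,z1,[y1,z1]),(k3,k1,z1,[y1,z1])]),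
    .old (.leafM k2 [k0,k1,k2,k3,k4] [(z1,[y1,z1])] []),
    .old (.lp [k2,k2,k2,k2,k2] [k0,k0,k0,k0,k0,k0,k0,k0,k0,k0] k0 [] k8 k5
    [[(k1,k2),(k8,k2)],[(k2,k2),(k4,k2)],[(k5,k2),(k7,k2)],[(k0,k2),(k6,k2)],[(k3,k2),(k9,k2)],[(k0,k2),(k6,k2)],[(k3,
    k2),(k9,k2)],[(k2,k2),(k4,k2)],[(k5,k2),(k7,k2)],[(k1,k2),(k8,k2)]]
    [] k0
    [[k1,k0,k1,k0,k1],[k0,k1,k0,k1,k0]]
    [.ref k1 k0 [(z1,[z1])],.ref k0 k0 [(z1,[y1,z1])]])]⟩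

/-- classes `0 0 0 0 1`, types `N0 N2 N3 N1 C0` -/
noncomputable def cU5_52 : CertX :=
  ⟨[k12,k14,k15,k13,k20],[(false,k0,[k0,k1,k2,k3,k4])],[[[([z3,z0,z0,z0,z3],z1),([z0,z1,z0,z1,z0],z2)],[([z2,z0,z0,z0,
    z2],z1),([z0,z1,z0,z1,z0],z2)],[([z3,z0,z0,z0,z3],z2),([z0,z1,z0,z1,z0],z2)],[([z1,z0,z1,z0,z1],z1)],[([z1,z0,z0,
    z0,z1],z2),([z0,z3,z0,z3,z0],z1)],[([z1,z0,z0,z0,z1],z2),([z0,z2,z0,z2,z0],z1)],[([z1,z0,z0,z0,z1],z2),([z0,z3,z0,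
    z3,z0],z2)],[([z1,z0,z0,z0,z1],z2)],[]]],
    [.old (.leafM k2 [k0,k2,k4] [(z1,[y1,y3,z3]),(z1,[z1])] [(k1,k3,z1,[z0,z1]),(k3,k1,z1,[z0,z1])]),
    .old (.leafM k3 [k0,k2,k4] [(z1,[y1,y2,z2]),(z1,[z1])] [(k1,k3,z1,[z0,z1]),(k3,k1,z1,[z0,z1])]),
    .old (.leafM k4 [k0,k2,k4] [(z1,[y1,y3,z3]),(z1,[z1])] [(k1,k3,z1,[z0,z1]),(k3,k1,z1,[z0,z1])]),
    .old (.lp [k0,(nat_lit 1470),(nat_lit 322),k140,(nat_lit 460)] [(nat_lit 735),(nat_lit 735),k0,k0,(nat_lit 574),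
    (nat_lit 574),(nat_lit 665),(nat_lit 665),(nat_lit 505),(nat_lit 505)] k0 [] (nat_lit 1610) k8
    [[(k8,(nat_lit 230))],[(k9,(nat_lit 230)),(k2,(nat_lit 735))],[(k6,(nat_lit 805)),(k5,(nat_lit 896))],[(k0,
    (nat_lit 735)),(k7,(nat_lit 805))],[(k4,(nat_lit 322)),(k3,(nat_lit 896))],[(k6,(nat_lit 231)),(k5,
    (nat_lit 322))],[(k9,(nat_lit 300)),(k2,(nat_lit 805))],[(k4,(nat_lit 231)),(k3,(nat_lit 805))],[(k0,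
    (nat_lit 230)),(k7,(nat_lit 300))],[(k1,(nat_lit 230))]]
    [] k0
    [[k1,k0,k0,k0,k1],[k2,k0,k0,k0,k2],[k3,k0,k0,k0,k3],[k0,k0,k2,k0,k0],[k0,k0,k3,k0,k0],[k0,k0,k4,k0,k0]]
    [.contra [y2,z1,z1],.contra [y1,z2],.ref k2 k0 [(z1,[z1]),(z1,[z0,y1,z1])],.contra [z1],.ref k0 k0 [(z1,[y1,z3]),
    (z1,[z0,y1,z1])],.ref k1 k0 [(z2,[y1,z4]),(z1,[z0,y1,z1])]]),
    .old (.leafM k2 [k1,k2,k3] [(z1,[y3,y1,z3]),(z1,[z0,z1])] [(k4,k0,z1,[z1]),(k0,k4,z1,[z1])]),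
    .old (.leafM k3 [k1,k2,k3] [(z1,[y2,y1,z2]),(z1,[z0,z1])] [(k4,k0,z1,[z1]),(k0,k4,z1,[z1])]),
    .old (.leafM k4 [k1,k2,k3] [(z1,[y3,y1,z3]),(z1,[z0,z1])] [(k4,k0,z1,[z1]),(k0,k4,z1,[z1])]),
    .old (.lp [(nat_lit 762),(nat_lit 250),k168,k0,k73] [k0,k0,(nat_lit 256),(nat_lit 256),(nat_lit 297),(nat_lit 297),
    (nat_lit 381),(nat_lit 381),(nat_lit 464),(nat_lit 225)] k0 [[k0,k0,k0,(nat_lit 386)],[k0,k0,k0,k0,k0,k0,k0,k5],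
    [k0,(nat_lit 386)],[],[],[k0,k0,k0,k0,k0,k0,k36],[k5],[k0,k0,k0,k0,k36]] (nat_lit 840) k8
    [[(k8,(nat_lit 298))],[(k2,k120),(k9,(nat_lit 542))],[(k6,k120),(k5,(nat_lit 595))],[(k0,k120),(k7,k125)],[(k4,
    k168),(k3,(nat_lit 595))],[(k6,k120),(k5,k168)],[(k9,k120),(k2,k125)],[(k3,k120),(k4,k120)],[(k7,k120),(k0,
    (nat_lit 542))],[(k1,(nat_lit 298))]]
    [] k0
    [[k1,k1,k0,k1,k1],[k0,k1,k0,k1,k0],[k0,k2,k0,k2,k0],[k0,k3,k0,k3,k0],[k0,k0,k2,k0,k0],[k0,k0,k3,k0,k0],[k0,k0,k4,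
    k0,k0]]
    [.contra [y1,z0,z1],.contra [y1,y2,z2],.contra [y1,y2,z2],.ref k6 k0 [(z1,[z0,z1]),(z1,[z1])],.contra [z1],
    .ref k4 k0 [(z1,[z0,z1]),(z1,[y1,y3,z3])],.ref k5 k0 [(z1,[z0,z1]),(z2,[y1,y4,z4])]]),
    .old (.lp [k0,k26,k16,k4,k24] [k13,k13,k0,k0,k5,k5,k11,k11,k1,k1] k0 [[],[],[],[],[],[k0,k0,k0,k0,k0,k0,k2],[],[k0,k0,
    k0,k0,k2]] k48 k5
    [[(k8,k12)],[(k9,k12),(k2,k13)],[(k6,k15),(k5,k21)],[(k0,k13),(k7,k15)],[(k4,k16),(k3,k21)],[(k6,k12),(k5,k16)],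
    [(k9,k12),(k2,k15)],[(k4,k12),(k3,k15)],[(k0,k12),(k7,k12)],[(k1,k12)]]
    [] k0
    [[k1,k0,k0,k0,k1],[k0,k1,k0,k1,k0],[k0,k0,k2,k0,k0]]
    [.ref k7 k0 [(z1,[z1])],.ref k3 k0 [(z1,[y1,z1])],.contra [z1]])]⟩

/-- classes `0 0 0 0 1`, types `N0 N2 N3 N1 S0` -/
noncomputable def cU5_53 : CertX :=
  ⟨[k12,k14,k15,k13,k16],[(false,k0,[k0,k1,k2,k3,k4])],[[[([z3,z0,z0,z0,z3],z1),([z0,z1,z0,z1,z0],z2)],[([z2,z0,z0,z0,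
    z2],z1),([z0,z1,z0,z1,z0],z2)],[([z3,z0,z0,z0,z3],z2),([z0,z1,z0,z1,z0],z2)],[([z1,z0,z1,z0,z1],z1)],[([z1,z0,z0,
    z0,z1],z2),([z0,z3,z0,z3,z0],z1)],[([z1,z0,z0,z0,z1],z2),([z0,z2,z0,z2,z0],z1)],[([z1,z0,z0,z0,z1],z2),([z0,z3,z0,
    z3,z0],z2)],[([z1,z0,z0,z0,z1],z2)],[]]],
    [.old (.leafM k2 [k0,k2,k4] [(z1,[y1,y3,z3]),(z1,[z1])] [(k1,k3,z1,[z0,z1]),(k3,k1,z1,[z0,z1])]),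
    .old (.leafM k3 [k0,k2,k4] [(z1,[y1,y2,z2]),(z1,[z1])] [(k1,k3,z1,[z0,z1]),(k3,k1,z1,[z0,z1])]),
    .old (.leafM k4 [k0,k2,k4] [(z1,[y1,y3,z3]),(z1,[z1])] [(k1,k3,z1,[z0,z1]),(k3,k1,z1,[z0,z1])]),
    .old (.lp [k10,k10,k14,k60,k10] [k25,k25,k25,k25,k23,k23,k0,k0,k25,k25] k0 [] k70 k8
    [[(k1,k10),(k8,k10)],[(k2,k10),(k9,k10)],[(k5,k12),(k6,k35)],[(k0,k10),(k7,k35)],[(k3,k12),(k4,k14)],[(k5,k14),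
    (k6,k37)],[(k2,k35),(k9,k35)],[(k3,k35),(k4,k37)],[(k0,k10),(k7,k35)],[(k1,k10),(k8,k10)]]
    [] k0
    [[k3,k0,k0,k0,k3],[k2,k0,k0,k0,k2],[k1,k0,k0,k0,k1],[k0,k0,k2,k0,k0],[k0,k0,k3,k0,k0],[k0,k0,k4,k0,k0]]
    [.ref k2 k0 [(z1,[z1]),(z1,[z0,y1,z1])],.contra [y1,z2],.contra [y2,z1,z1],.contra [z1],.ref k0 k0 [(z1,[y1,z3]),
    (z1,[z0,y1,z1])],.ref k1 k0 [(z2,[y1,z4]),(z1,[z0,y1,z1])]]),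
    .old (.leafM k2 [k1,k2,k3] [(z1,[y3,y1,z3]),(z1,[z0,z1])] [(k4,k0,z1,[z1]),(k0,k4,z1,[z1])]),
    .old (.leafM k3 [k1,k2,k3] [(z1,[y2,y1,z2]),(z1,[z0,z1])] [(k4,k0,z1,[z1]),(k0,k4,z1,[z1])]),
    .old (.leafM k4 [k1,k2,k3] [(z1,[y3,y1,z3]),(z1,[z0,z1])] [(k4,k0,z1,[z1]),(k0,k4,z1,[z1])]),
    .old (.lp [(nat_lit 33120),k0,(nat_lit 7728),(nat_lit 11270),(nat_lit 5520)] [k0,k0,(nat_lit 16560),(nat_lit 16560),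
    (nat_lit 12696),(nat_lit 12696),(nat_lit 10925),(nat_lit 10925),(nat_lit 13800),(nat_lit 13800)] k0 [[k0,k0,k0,
    (nat_lit 8400)],[],[k0,(nat_lit 8400)]] (nat_lit 38640) k8
    [[(k8,(nat_lit 19320)),(k1,(nat_lit 33120))],[(k2,(nat_lit 8160)),(k9,(nat_lit 19320))],[(k6,(nat_lit 5635)),(k5,
    (nat_lit 12264))],[(k7,(nat_lit 5635)),(k0,(nat_lit 8160))],[(k4,(nat_lit 7728)),(k3,(nat_lit 12264))],[(k5,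
    (nat_lit 7728)),(k6,(nat_lit 9499))],[(k2,(nat_lit 5635)),(k9,(nat_lit 8395))],[(k3,(nat_lit 5635)),(k4,
    (nat_lit 9499))],[(k7,(nat_lit 8395)),(k0,(nat_lit 19320))],[(k8,(nat_lit 5520)),(k1,(nat_lit 19320))]]
    [] k0
    [[k0,k1,k2,k1,k0],[k0,k1,k1,k1,k0],[k0,k1,k0,k1,k0],[k0,k2,k0,k2,k0],[k0,k3,k0,k3,k0],[k0,k0,k2,k0,k0],[k0,k0,k3,
    k0,k0],[k0,k0,k4,k0,k0]]
    [.contra [z1,z1,y1],.contra [y1,y2,z2],.contra [y1,y2,z2],.contra [y1,y2,z2],.ref k6 k0 [(z1,[z0,z1]),(z1,[z1])],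
    .contra [z1],.ref k4 k0 [(z1,[z0,z1]),(z1,[y1,y3,z3])],.ref k5 k0 [(z1,[z0,z1]),(z2,[y1,y4,z4])]]),
    .old (.lp [k12,k16,k16,k14,k12] [k2,k2,k0,k0,k0,k0,k1,k1,k2,k2] k0 [[k0,k0,k0,k2],[],[k0,k2]] k48 k5
    [[(k1,k12),(k8,k12)],[(k2,k12),(k9,k12)],[(k6,k15),(k5,k18)],[(k0,k12),(k7,k15)],[(k4,k16),(k3,k18)],[(k6,k15),
    (k5,k16)],[(k9,k13),(k2,k15)],[(k3,k15),(k4,k15)],[(k0,k12),(k7,k13)],[(k1,k12),(k8,k12)]]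
    [] k0
    [[k1,k0,k0,k0,k1],[k0,k1,k0,k1,k0],[k0,k0,k2,k0,k0]]
    [.ref k7 k0 [(z1,[z1])],.ref k3 k0 [(z1,[y1,z1])],.contra [z1]])]⟩

/-- classes `0 0 0 0 1`, types `N0 N3 N1 N2 C0` -/
noncomputable def cU5_54 : CertX :=
  ⟨[k12,k15,k13,k14,k20],[],[[[]]],
    [.old (.lp [k2,k2,k2,k2,k2] [k0,k0,k0,k0,k0,k0,k0,k0,k0,k0] k0 [] k8 k5
    [[(k8,k2)],[(k6,k2),(k7,k2)],[(k4,k2),(k9,k2)],[(k4,k2),(k9,k2)],[(k6,k2),(k7,k2)],[(k2,k2),(k3,k2)],[(k0,k2),(k5,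
    k2)],[(k0,k2),(k5,k2)],[(k2,k2),(k3,k2)],[(k1,k2)]]
    [] k0
    []
    [])]⟩

/-- classes `0 0 0 0 1`, types `N0 N3 N1 N2 S0` -/
noncomputable def cU5_55 : CertX :=
  ⟨[k12,k15,k13,k14,k16],[(false,k0,[k0,k1,k2,k3,k4]),(true,k4,[k4,k3,k2,k1,k0])],[[[([z2,z0,z0,z1,z0],z2),([z0,z1,z0,
    z0,z2],z2)],[([z2,z0,z0,z1,z0],z2)],[]]],
    [.old (.tor k6 false k0 [(z1,[z0,z1]),(z1,[y1,y1,z2]),(z1,[z1])]),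
    .old (.lp [k6,k4,k4,k4,k4] [k0,k0,k1,k1,k1,k1,k1,k1,k1,k1] k0 [] k16 k5
    [[(k8,k5),(k1,k6)],[(k6,k5),(k7,k5)],[(k4,k4),(k9,k4)],[(k4,k4),(k9,k4)],[(k6,k4),(k7,k4)],[(k2,k4),(k3,k4)],[(k5,
    k4),(k0,k5)],[(k5,k4),(k0,k5)],[(k2,k4),(k3,k4)],[(k8,k4),(k1,k5)]]
    [] k0
    [[k0,k1,k0,k0,k2]]
    [.ref k0 k0 [(z1,[z0,z1]),(z1,[z1])]]),
    .old (.lp [k6,k4,k4,k4,k4] [k0,k0,k1,k1,k1,k1,k1,k1,k1,k1] k0 [] k16 k5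
    [[(k8,k5),(k1,k6)],[(k6,k5),(k7,k5)],[(k4,k4),(k9,k4)],[(k4,k4),(k9,k4)],[(k6,k4),(k7,k4)],[(k2,k4),(k3,k4)],[(k5,
    k4),(k0,k5)],[(k5,k4),(k0,k5)],[(k2,k4),(k3,k4)],[(k8,k4),(k1,k5)]]
    [] k0
    [[k0,k1,k0,k0,k2]]
    [.ref k1 k1 [(z1,[z1])]])]⟩

/-- classes `0 0 0 0 1`, types `N0 N3 N2 N1 C0` -/
noncomputable def cU5_56 : CertX :=
  ⟨[k12,k15,k14,k13,k20],[(false,k0,[k0,k1,k2,k3,k4])],[[[([z1,z0,z1,z0,z1],z1)],[([z1,z0,z1,z0,z1],z2)],[([z1,z0,z0,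
    z0,z1],z2),([z0,z3,z0,z3,z0],z1)],[([z1,z0,z0,z0,z1],z2),([z0,z2,z0,z2,z0],z1)],[([z1,z0,z0,z0,z1],z2),([z0,z3,z0,
    z3,z0],z2)],[([z1,z0,z0,z0,z1],z2)],[]]],
    [.old (.leafM k1 [k4,k0,k2] [] [(k1,k3,z1,[y1,z1]),(k3,k1,z1,[y1,z1])]),
    .old (.leafM k2 [k0,k1,k2,k3,k4] [(z1,[y1,z1])] []),
    .old (.leafM k2 [k1,k2,k3] [(z1,[y3,y1,z3]),(z1,[z0,z1])] [(k4,k0,z1,[z1]),(k0,k4,z1,[z1])]),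
    .old (.leafM k3 [k1,k2,k3] [(z1,[y2,y1,z2]),(z1,[z0,z1])] [(k4,k0,z1,[z1]),(k0,k4,z1,[z1])]),
    .old (.leafM k4 [k1,k2,k3] [(z1,[y3,y1,z3]),(z1,[z0,z1])] [(k4,k0,z1,[z1]),(k0,k4,z1,[z1])]),
    .old (.lp [k140,(nat_lit 460),(nat_lit 322),k0,(nat_lit 1470)] [(nat_lit 665),(nat_lit 665),(nat_lit 505),
    (nat_lit 505),(nat_lit 574),(nat_lit 574),(nat_lit 735),(nat_lit 735),k0,k0] k0 [] (nat_lit 1610) k8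
    [[(k8,(nat_lit 805))],[(k4,(nat_lit 231)),(k9,(nat_lit 805))],[(k6,(nat_lit 230)),(k7,(nat_lit 230))],[(k6,
    (nat_lit 230)),(k7,(nat_lit 230))],[(k4,(nat_lit 322)),(k9,(nat_lit 896))],[(k0,(nat_lit 231)),(k5,
    (nat_lit 322))],[(k2,(nat_lit 230)),(k3,(nat_lit 230))],[(k2,(nat_lit 230)),(k3,(nat_lit 230))],[(k0,
    (nat_lit 805)),(k5,(nat_lit 896))],[(k1,(nat_lit 805))]]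
    [] k0
    [[k0,k1,k0,k1,k0],[k0,k2,k0,k2,k0],[k0,k3,k0,k3,k0],[k0,k0,k2,k0,k0],[k0,k0,k3,k0,k0],[k0,k0,k4,k0,k0]]
    [.contra [y1,y2,z2],.contra [y1,y2,z2],.ref k4 k0 [(z1,[z0,z1]),(z1,[z1])],.contra [z1],.ref k2 k0 [(z1,[z0,z1]),
    (z1,[y1,y3,z3])],.ref k3 k0 [(z1,[z0,z1]),(z2,[y1,y4,z4])]]),
    .old (.lp [k2,k6,k4,k0,k4] [k2,k2,k0,k0,k1,k1,k3,k3,k1,k1] k0 [] k12 k5
    [[(k8,k3)],[(k4,k3),(k9,k3)],[(k6,k3),(k7,k3)],[(k6,k3),(k7,k3)],[(k4,k4),(k9,k4)],[(k0,k3),(k5,k4)],[(k2,k3),(k3,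
    k3)],[(k2,k3),(k3,k3)],[(k0,k3),(k5,k4)],[(k1,k3)]]
    [] k0
    [[k1,k0,k0,k0,k1],[k1,k0,k1,k0,k1],[k0,k1,k0,k1,k0],[k0,k0,k2,k0,k0]]
    [.ref k5 k0 [(z1,[z1])],.ref k1 k0 [(z1,[z1])],.ref k0 k0 [(z1,[y1,z1])],.contra [z1]])]⟩

/-- classes `0 0 0 0 1`, types `N0 N3 N2 N1 S0` -/
noncomputable def cU5_57 : CertX :=
  ⟨[k12,k15,k14,k13,k16],[(false,k0,[k0,k1,k2,k3,k4])],[[[([z1,z0,z1,z0,z1],z1)],[([z1,z0,z1,z0,z1],z2)],[([z1,z0,z0,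
    z0,z1],z2),([z0,z3,z0,z3,z0],z1)],[([z1,z0,z0,z0,z1],z2),([z0,z2,z0,z2,z0],z1)],[([z1,z0,z0,z0,z1],z2),([z0,z3,z0,
    z3,z0],z2)],[([z1,z0,z0,z0,z1],z2)],[]]],
    [.old (.leafM k1 [k4,k0,k2] [] [(k1,k3,z1,[y1,z1]),(k3,k1,z1,[y1,z1])]),
    .old (.leafM k2 [k0,k1,k2,k3,k4] [(z1,[y1,z1])] []),
    .old (.leafM k2 [k1,k2,k3] [(z1,[y3,y1,z3]),(z1,[z0,z1])] [(k4,k0,z1,[z1]),(k0,k4,z1,[z1])]),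
    .old (.leafM k3 [k1,k2,k3] [(z1,[y2,y1,z2]),(z1,[z0,z1])] [(k4,k0,z1,[z1]),(k0,k4,z1,[z1])]),
    .old (.leafM k4 [k1,k2,k3] [(z1,[y3,y1,z3]),(z1,[z0,z1])] [(k4,k0,z1,[z1]),(k0,k4,z1,[z1])]),
    .old (.lp [k60,k0,k14,k20,k10] [k0,k0,k30,k30,k23,k23,k20,k20,k25,k25] k0 [] k70 k8
    [[(k8,k35),(k1,k60)],[(k9,k35),(k4,k37)],[(k6,k10),(k7,k10)],[(k6,k10),(k7,k10)],[(k9,k12),(k4,k14)],[(k5,k14),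
    (k0,k37)],[(k2,k10),(k3,k10)],[(k2,k10),(k3,k10)],[(k5,k12),(k0,k35)],[(k8,k10),(k1,k35)]]
    [] k0
    [[k0,k1,k0,k1,k0],[k0,k2,k0,k2,k0],[k0,k3,k0,k3,k0],[k0,k0,k2,k0,k0],[k0,k0,k3,k0,k0],[k0,k0,k4,k0,k0]]
    [.contra [y1,y2,z2],.contra [y1,y2,z2],.ref k4 k0 [(z1,[z0,z1]),(z1,[z1])],.contra [z1],.ref k2 k0 [(z1,[z0,z1]),
    (z1,[y1,y3,z3])],.ref k3 k0 [(z1,[z0,z1]),(z2,[y1,y4,z4])]]),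
    .old (.lp [k6,k0,k8,k12,k6] [k3,k3,k6,k6,k2,k2,k0,k0,k3,k3] k0 [] k24 k5
    [[(k1,k6),(k8,k6)],[(k9,k6),(k4,k7)],[(k6,k6),(k7,k6)],[(k6,k6),(k7,k6)],[(k9,k7),(k4,k8)],[(k0,k7),(k5,k8)],[(k2,
    k6),(k3,k6)],[(k2,k6),(k3,k6)],[(k0,k6),(k5,k7)],[(k1,k6),(k8,k6)]]
    [] k0
    [[k1,k0,k0,k0,k1],[k1,k0,k1,k0,k1],[k0,k1,k0,k1,k0],[k0,k0,k2,k0,k0]]
    [.ref k5 k0 [(z1,[z1])],.ref k1 k0 [(z1,[z1])],.ref k0 k0 [(z1,[y1,z1])],.contra [z1]])]⟩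

/-- classes `0 0 0 0 1`, types `S0 S0 S0 S0 C0` -/
noncomputable def cU5_58 : CertX :=
  ⟨[k0,k0,k0,k0,k20],[(false,k0,[k0,k1,k2,k3,k4]),(true,k4,[k4,k3,k2,k1,k0])],[[[([z1,z0,z0,z1,z1],z1)],[([z1,z0,z1,
    z0,z1],z1)],[([z1,z0,z0,z0,z1],z2)],[([z1,z0,z0,z1,z1],z2)],[([z1,z0,z1,z0,z1],z2)],[([z1,z0,z0,z0,z1],z1)],[]]],
    [.old (.leafM k0 [k0,k3,k4] [] [(k1,k2,z1,[y1,z1]),(k2,k1,z1,[y1,z1])]),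
    .old (.leafM k1 [k4,k0,k2] [] [(k1,k3,z1,[y1,z1]),(k3,k1,z1,[y1,z1])]),
    .old (.leafM k0 [k1,k2,k3] [] [(k4,k0,z1,[z1]),(k0,k4,z1,[z1])]),
    .old (.leafM k0 [k1,k2,k3,k4,k0] [(z1,[y1,z1])] []),
    .old (.leafM k2 [k0,k1,k2,k3,k4] [(z1,[y1,z1])] []),
    .old (.leafM k0 [k4,k0,k1,k2,k3] [(z1,[z1])] []),
    .old (.lp [k6,k10,k10,k10,k6] [k2,k2,k0,k0,k0,k0,k0,k0,k2,k2] k0 [] k30 k6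
    [[(k8,k6)],[(k0,k6),(k9,k6),(k2,k8),(k3,k8),(k4,k8),(k5,k8),(k6,k8),(k7,k8)],[(k0,k8),(k9,k8),(k2,k10),(k3,k10),
    (k4,k10),(k5,k10),(k6,k10),(k7,k10)],[(k0,k8),(k9,k8),(k2,k10),(k3,k10),(k4,k10),(k5,k10),(k6,k10),(k7,k10)],[(k0,
    k8),(k9,k8),(k2,k10),(k3,k10),(k4,k10),(k5,k10),(k6,k10),(k7,k10)],[(k0,k8),(k9,k8),(k2,k10),(k3,k10),(k4,k10),
    (k5,k10),(k6,k10),(k7,k10)],[(k0,k8),(k9,k8),(k2,k10),(k3,k10),(k4,k10),(k5,k10),(k6,k10),(k7,k10)],[(k0,k8),(k9,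
    k8),(k2,k10),(k3,k10),(k4,k10),(k5,k10),(k6,k10),(k7,k10)],[(k0,k6),(k9,k6),(k2,k8),(k3,k8),(k4,k8),(k5,k8),(k6,
    k8),(k7,k8)],[(k1,k6)]]
    [] k0
    [[k1,k0,k0,k0,k1],[k2,k0,k0,k0,k2],[k1,k1,k0,k0,k1],[k1,k0,k1,k0,k1],[k1,k0,k0,k1,k1],[k0,k2,k0,k0,k0],[k0,k1,k1,
    k0,k0],[k0,k1,k0,k1,k0],[k0,k0,k2,k0,k0],[k0,k0,k1,k1,k0],[k0,k0,k0,k2,k0]]
    [.ref k2 k0 [(z1,[z1])],.ref k5 k0 [(z2,[z1])],.ref k3 k1 [(z1,[z1])],.ref k4 k0 [(z1,[z1])],.ref k3 k0 [(z1,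
    [z1])],.contra [z1],.ref k0 k0 [(z1,[y1,z1])],.ref k1 k0 [(z1,[y1,z1])],.contra [z1],.ref k0 k1 [(z1,[y1,z1])],
    .contra [z1]])]⟩

/-- classes `0 0 0 1 1`, types `C0 C0 C0 B0 B1` -/
noncomputable def cU5_59 : CertX :=
  ⟨[k4,k4,k4,k24,k25],[(false,k0,[k0,k1,k2,k3,k4]),(true,k3,[k3,k2,k1,k0,k4])],[[[([z1,z0,z0,z1,z1],z1)],[([z1,z0,z0,
    z1,z1],z2)],[([z1,z0,z0,z1,z0],z2),([z0,z3,z3,z0,z0],z1)],[([z1,z0,z0,z1,z0],z2),([z0,z2,z2,z0,z0],z1)],[([z1,z0,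
    z0,z1,z0],z2),([z0,z3,z3,z0,z0],z2)],[([z1,z0,z0,z1,z0],z2)],[([z1,z0,z1,z1,z0],z2),([z0,z3,z0,z0,z0],z1)],[([z1,
    z0,z1,z1,z0],z2),([z0,z2,z0,z0,z0],z1)],[([z1,z0,z1,z1,z0],z2),([z0,z3,z0,z0,z0],z2)],[([z1,z0,z0,z1,z2],z2),([z0,
    z1,z0,z0,y2],z0)],[([z3,z0,z0,z3,z0],z4),([z0,z3,z0,z0,z0],z2)],[([z1,z0,z1,z1,z0],z2)]],[[]]],
    [.old (.leafM k1 [k0,k3,k4] [] [(k1,k2,z1,[y1,z1]),(k2,k1,z1,[y1,z1])]),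
    .old (.leafM k3 [k3,k4,k0,k1,k2] [(z1,[y1,z1])] []),
    .old (.leafM k2 [k2,k4,k1] [(z1,[y3,y1,z3]),(z1,[z0,z1])] [(k3,k0,z1,[z1]),(k0,k3,z1,[z1])]),
    .old (.leafM k3 [k2,k4,k1] [(z1,[y2,y1,z2]),(z1,[z0,z1])] [(k3,k0,z1,[z1]),(k0,k3,z1,[z1])]),
    .old (.leafM k4 [k2,k4,k1] [(z1,[y3,y1,z3]),(z1,[z0,z1])] [(k3,k0,z1,[z1]),(k0,k3,z1,[z1])]),
    .old (.lp [(nat_lit 296712),(nat_lit 140748),(nat_lit 17752),(nat_lit 232680),(nat_lit 106512)] [(nat_lit 61499),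
    (nat_lit 61499),(nat_lit 139481),(nat_lit 139481),(nat_lit 200979),(nat_lit 200979),(nat_lit 187030),k0,
    (nat_lit 156599),(nat_lit 156599)] k0 [[k0,k0,(nat_lit 81152)],[k0,k0,k0,k0,k0,(nat_lit 3170)],[k0,k0,k0,k0,
    (nat_lit 204148)],[k0,(nat_lit 81152)],[(nat_lit 3170)],[k0,k0,k0,(nat_lit 204148)]] (nat_lit 532560) k8
    [[(k6,(nat_lit 171181)),(k9,(nat_lit 201612))],[(k5,(nat_lit 76080)),(k3,(nat_lit 218730)),(k7,(nat_lit 361381))],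
    [(k4,(nat_lit 76080)),(k0,(nat_lit 218730)),(k2,(nat_lit 221900))],[(k7,(nat_lit 76081)),(k5,(nat_lit 79250)),(k3,
    (nat_lit 221900))],[(k0,(nat_lit 76080)),(k2,(nat_lit 79250)),(k4,(nat_lit 221900))],[(k3,(nat_lit 76080)),(k7,
    (nat_lit 218731)),(k5,(nat_lit 221900))],[(k2,(nat_lit 76081)),(k4,(nat_lit 218731)),(k0,(nat_lit 361381))],[(k8,
    (nat_lit 76081)),(k1,(nat_lit 171181))],[(k8,(nat_lit 106512)),(k1,(nat_lit 201612))],[(k6,(nat_lit 76081)),(k9,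
    (nat_lit 106512))]]
    [] k0
    [[k1,k1,k0,k1,k0],[k1,k1,k1,k1,k0],[k1,k0,k1,k1,k0],[k1,k1,k1,k1,k1],[k0,k2,k0,k0,k0],[k0,k2,k1,k0,k0],[k0,k1,k1,
    k0,k0],[k0,k2,k2,k0,k0],[k0,k3,k3,k0,k0],[k0,k1,k2,k0,k0],[k0,k0,k2,k0,k0],[k0,k0,k0,k0,k2],[k0,k0,k0,k0,k3],[k0,
    k0,k0,k0,k4]]
    [.contra [z1,y1],.contra [y1,z0,z1],.contra [z1,y1],.contra [z2,z1,y2],.contra [z1],.contra [y1,y2,z2],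
    .contra [y1,y2,z2],.contra [y1,y2,z2],.ref k4 k0 [(z1,[z0,z1]),(z1,[z1])],.contra [y1,y2,z2],.contra [z1],
    .contra [z1],.ref k2 k0 [(z1,[z0,z1]),(z1,[y1,y3,z3])],.ref k3 k0 [(z1,[z0,z1]),(z2,[y1,y4,z4])]]),
    .old (.leafM k4 [k3,k4,k0,k1,k2] [(z1,[y3,y1,z3]),(z1,[z0,z1])] []),
    .old (.leafM k5 [k3,k4,k0,k1,k2] [(z1,[y2,y1,z2]),(z1,[z0,z1])] []),
    .old (.leafM k6 [k3,k4,k0,k1,k2] [(z1,[y3,y1,z3]),(z1,[z0,z1])] []),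
    .old (.tor k20 false k0 [(z1,[y2,y1,z2]),(z1,[z1]),(z1,[z1,z1])]),
    .old (.lp [k12,k20,k10,k8,k8] [k4,k4,k0,k0,k5,k5,k6,k6,k6,k6] k0 [] k40 k6
    [[(k6,k10),(k9,k10)],[(k7,k10),(k5,k11),(k3,k16)],[(k4,k15),(k0,k16),(k2,k20)],[(k7,k14),(k5,k15),(k3,k20)],[(k4,
    k10),(k0,k11),(k2,k15)],[(k7,k9),(k5,k10),(k3,k15)],[(k4,k9),(k0,k10),(k2,k14)],[(k8,k8),(k1,k10)],[(k8,k8),(k1,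
    k10)],[(k6,k8),(k9,k8)]]
    [] k0
    [[k1,k0,k0,k1,k0],[k1,k0,k1,k1,k0],[k1,k0,k0,k1,k1],[k1,k0,k1,k1,k1],[k1,k0,k0,k1,k2],[k0,k1,k1,k0,k0],[k0,k0,k2,
    k0,k0],[k0,k0,k3,k0,k0],[k0,k0,k0,k0,k2],[k0,k0,k0,k0,k3],[k0,k0,k0,k0,k4]]
    [.contra [z3,y1,z2],.ref k8 k0 [(z1,[z1]),(z1,[z0,z0,z1])],.ref k1 k0 [(z1,[z1])],.contra [y1,z0,z0,z1],
    .ref k8 k0 [(z6,[y3,z1,y2,z6]),(z1,[z0,z0,z1])],.contra [y6,y2,z1,z6],.contra [z1],.ref k8 k0 [(z3,[z1,z1]),(z1,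
    [z0,z0,z1])],.contra [z1],.ref k1 k0 [(z3,[z1,z1])],.ref k7 k1 [(z3,[z0,z1,z1]),(z6,[y3,y4,y4,z12])]]),
    .old (.lp [k104,k62,k88,k48,k48] [k0,k0,k21,k21,k8,k8,k28,k28,k28,k28] k0 [[k0,k0,k0,k0,k28],[],[],[k0,k0,k0,k0,k0,
    k26],[k0,k0,k26],[k0,k28]] (nat_lit 240) k6
    [[(k6,k76),(k9,k76)],[(k7,k48),(k3,k83),(k5,k96)],[(k2,k62),(k0,k83),(k4,k103)],[(k3,k62),(k5,k75),(k7,k81)],[(k4,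
    k62),(k2,k75),(k0,k96)],[(k5,k62),(k7,k68),(k3,k103)],[(k0,k48),(k4,k68),(k2,k81)],[(k8,k48),(k1,k76)],[(k8,k48),
    (k1,k76)],[(k6,k48),(k9,k48)]]
    [] k0
    [[k1,k0,k0,k1,k0],[k1,k0,k0,k1,k1],[k1,k0,k0,k1,k2],[k0,k2,k0,k0,k0],[k0,k3,k0,k0,k0],[k0,k1,k1,k0,k0],[k0,k0,k2,
    k0,k0],[k0,k0,k3,k0,k0],[k0,k0,k0,k0,k2],[k0,k0,k0,k0,k3],[k0,k0,k0,k0,k4]]
    [.contra [y1,z1],.ref k1 k0 [(z1,[z1])],.ref k9 k1 [(z1,[z1]),(z1,[y1,z1])],.contra [z1],.ref k8 k0 [(z1,[z0,z1]),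
    (z1,[z1])],.ref k0 k0 [(z1,[y1,z0,z1])],.contra [z1],.ref k10 k1 [(z1,[y1,z3]),(z1,[z1])],.contra [z1],
    .ref k6 k0 [(z1,[z0,z1]),(z1,[y1,y3,z3])],.ref k7 k0 [(z1,[z0,z1]),(z2,[y1,y4,z4])]]),
    .old (.lp [k36,k36,k42,k24,k40] [k3,k3,k3,k3,k0,k0,k9,k9,k1,k1] k0 [[k0,k0,k6],[],[],[k0,k6]] k120 k5
    [[(k6,k30),(k9,k38)],[(k7,k30),(k5,k33),(k3,k36)],[(k0,k36),(k4,k39),(k2,k42)],[(k7,k30),(k5,k39),(k3,k42)],[(k0,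
    k33),(k2,k39),(k4,k42)],[(k7,k33),(k3,k39),(k5,k42)],[(k0,k30),(k2,k30),(k4,k33)],[(k1,k30),(k8,k32)],[(k1,k38),
    (k8,k40)],[(k6,k32),(k9,k40)]]
    [] k0
    [[k1,k0,k0,k1,k0],[k1,k1,k0,k1,k0],[k1,k0,k1,k1,k0],[k1,k0,k0,k1,k1],[k0,k2,k0,k0,k0],[k0,k1,k1,k0,k0],[k0,k0,k2,
    k0,k0],[k0,k0,k0,k0,k2]]
    [.ref k5 k0 [(z1,[z1])],.ref k11 k1 [(z1,[z1])],.ref k11 k0 [(z1,[z1])],.ref k1 k0 [(z1,[z1])],.contra [z1],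
    .ref k0 k0 [(z1,[y1,z1])],.contra [z1],.contra [z1]])]⟩

/-- classes `0 0 0 1 1`, types `C0 C0 C0 C0 C0` -/
noncomputable def cU5_60 : CertX :=
  ⟨[k4,k4,k4,k20,k20],[(false,k0,[k0,k1,k2,k3,k4]),(true,k3,[k3,k2,k1,k0,k4])],[[[([z1,z0,z0,z1,z1],z1)],[([z1,z0,z0,
    z1,z1],z2)],[([z1,z0,z0,z1,z0],z2),([z0,z3,z3,z0,z0],z1)],[([z1,z0,z0,z1,z0],z2),([z0,z2,z2,z0,z0],z1)],[([z1,z0,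
    z0,z1,z0],z2),([z0,z3,z3,z0,z0],z2)],[([z1,z0,z0,z1,z0],z2)],[([z1,z0,z1,z1,z0],z2),([z0,z3,z0,z0,z0],z1)],[([z1,
    z0,z1,z1,z0],z2),([z0,z2,z0,z0,z0],z1)],[([z1,z0,z1,z1,z0],z2),([z0,z3,z0,z0,z0],z2)],[([z1,z0,z0,z1,z2],z2),([z0,
    z1,z0,z0,y2],z0)],[([z1,z0,z0,z1,y1],z1),([z0,z1,z0,z0,z1],z1)],[([z1,z0,z1,z1,z0],z2)]],[[]]],
    [.old (.leafM k0 [k0,k3,k4] [] [(k1,k2,z1,[y1,z1]),(k2,k1,z1,[y1,z1])]),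
    .old (.leafM k1 [k0,k1,k2,k3,k4] [(z1,[y1,z1])] []),
    .old (.leafM k2 [k2,k4,k1] [(z1,[y3,y1,z3]),(z1,[z0,z1])] [(k3,k0,z1,[z1]),(k0,k3,z1,[z1])]),
    .old (.leafM k3 [k2,k4,k1] [(z1,[y2,y1,z2]),(z1,[z0,z1])] [(k3,k0,z1,[z1]),(k0,k3,z1,[z1])]),
    .old (.leafM k4 [k2,k4,k1] [(z1,[y3,y1,z3]),(z1,[z0,z1])] [(k3,k0,z1,[z1]),(k0,k3,z1,[z1])]),
    .old (.lp [(nat_lit 296712),(nat_lit 140748),(nat_lit 17752),(nat_lit 232680),(nat_lit 106512)] [(nat_lit 61499),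
    (nat_lit 61499),(nat_lit 139481),(nat_lit 139481),(nat_lit 200979),(nat_lit 200979),(nat_lit 187030),k0,
    (nat_lit 156599),(nat_lit 156599)] k0 [[k0,k0,(nat_lit 81152)],[k0,k0,k0,k0,k0,(nat_lit 3170)],[k0,k0,k0,k0,
    (nat_lit 204148)],[k0,(nat_lit 81152)],[(nat_lit 3170)],[k0,k0,k0,(nat_lit 204148)]] (nat_lit 532560) k8
    [[(k6,(nat_lit 171181)),(k8,(nat_lit 201612))],[(k5,(nat_lit 76080)),(k3,(nat_lit 218730)),(k7,(nat_lit 361381))],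
    [(k4,(nat_lit 76080)),(k0,(nat_lit 218730)),(k2,(nat_lit 221900))],[(k7,(nat_lit 76081)),(k5,(nat_lit 79250)),(k3,
    (nat_lit 221900))],[(k0,(nat_lit 76080)),(k2,(nat_lit 79250)),(k4,(nat_lit 221900))],[(k3,(nat_lit 76080)),(k7,
    (nat_lit 218731)),(k5,(nat_lit 221900))],[(k2,(nat_lit 76081)),(k4,(nat_lit 218731)),(k0,(nat_lit 361381))],[(k9,
    (nat_lit 76081)),(k1,(nat_lit 171181))],[(k6,(nat_lit 76081)),(k8,(nat_lit 106512))],[(k9,(nat_lit 106512)),(k1,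
    (nat_lit 201612))]]
    [] k0
    [[k1,k1,k0,k1,k0],[k1,k1,k1,k1,k0],[k1,k0,k1,k1,k0],[k1,k1,k1,k1,k1],[k0,k2,k0,k0,k0],[k0,k2,k1,k0,k0],[k0,k1,k1,
    k0,k0],[k0,k2,k2,k0,k0],[k0,k3,k3,k0,k0],[k0,k1,k2,k0,k0],[k0,k0,k2,k0,k0],[k0,k0,k0,k0,k2],[k0,k0,k0,k0,k3],[k0,
    k0,k0,k0,k4]]
    [.contra [z1,y1],.contra [y1,z0,z1],.contra [z1,y1],.contra [z2,z1,y2],.contra [z1],.contra [y1,y2,z2],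
    .contra [y1,y2,z2],.contra [y1,y2,z2],.ref k4 k0 [(z1,[z0,z1]),(z1,[z1])],.contra [y1,y2,z2],.contra [z1],
    .contra [z1],.ref k2 k0 [(z1,[z0,z1]),(z1,[y1,y3,z3])],.ref k3 k0 [(z1,[z0,z1]),(z2,[y1,y4,z4])]]),
    .old (.leafM k4 [k3,k4,k0,k1,k2] [(z1,[y3,y1,z3]),(z1,[z0,z1])] []),
    .old (.leafM k5 [k3,k4,k0,k1,k2] [(z1,[y2,y1,z2]),(z1,[z0,z1])] []),
    .old (.leafM k6 [k3,k4,k0,k1,k2] [(z1,[y3,y1,z3]),(z1,[z0,z1])] []),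
    .old (.tor k1 false k4 [(z1,[z1]),(z1,[z1,z1]),(z1,[y2,y1,z2])]),
    .old (.lp [k144,k54,k62,k42,k54] [k0,k0,k45,k45,k41,k41,k51,k51,k45,k45] k0 [[k0,k0,k8],[],[],[k0,
    k8]] (nat_lit 240) k6
    [[(k6,k93),(k8,k99)],[(k7,k93),(k5,k95),(k3,k99)],[(k4,k58),(k2,k62),(k0,k99)],[(k7,k48),(k5,k58),(k3,k62)],[(k2,
    k58),(k4,k62),(k0,k95)],[(k7,k52),(k3,k58),(k5,k62)],[(k2,k48),(k4,k52),(k0,k93)],[(k9,k48),(k1,k93)],[(k6,k48),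
    (k8,k54)],[(k9,k54),(k1,k99)]]
    [] k0
    [[k1,k0,k0,k1,k0],[k0,k2,k0,k0,k0],[k0,k3,k0,k0,k0],[k0,k2,k1,k0,k0],[k0,k1,k1,k0,k0],[k0,k2,k2,k0,k0],[k0,k1,k2,
    k0,k0],[k0,k0,k2,k0,k0],[k0,k0,k3,k0,k0],[k0,k0,k0,k0,k2],[k0,k0,k0,k0,k3],[k0,k0,k0,k0,k4]]
    [.contra [z1,y1],.contra [z1],.ref k8 k0 [(z1,[z0,z0,y1,z1]),(z1,[z1])],.ref k8 k0 [(z1,[z0,z0,y1,z1]),(z1,[z1,z1,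
    z2,y1])],.contra [z1,z1,z2,y1],.ref k1 k0 [(z2,[y1,z0,z0,z2])],.ref k8 k0 [(z1,[z0,z0,y1,z1]),(z1,[z1,z2,z4,y2])],
    .contra [z1,z2,z4,y2],.ref k8 k0 [(z1,[z0,z0,y1,z1]),(z1,[z1,z3,z6,y3])],.contra [z1],.ref k6 k0 [(z1,[z0,z0,y1,
    z1]),(z1,[y1,z0,z3])],.ref k1 k0 [(z2,[z1,z2])]]),
    .old (.lp [k12,k10,k20,k8,k8] [k4,k4,k5,k5,k0,k0,k6,k6,k6,k6] k0 [] k40 k6
    [[(k6,k10),(k8,k10)],[(k7,k10),(k3,k11),(k5,k16)],[(k2,k10),(k0,k11),(k4,k15)],[(k7,k9),(k3,k10),(k5,k15)],[(k2,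
    k15),(k0,k16),(k4,k20)],[(k7,k14),(k3,k15),(k5,k20)],[(k2,k9),(k0,k10),(k4,k14)],[(k9,k8),(k1,k10)],[(k6,k8),(k8,
    k8)],[(k9,k8),(k1,k10)]]
    [] k0
    [[k1,k0,k0,k1,k0],[k1,k1,k0,k1,k0],[k1,k0,k0,k1,k1],[k1,k1,k0,k1,k1],[k1,k0,k0,k1,k2],[k0,k2,k0,k0,k0],[k0,k3,k0,
    k0,k0],[k0,k1,k1,k0,k0],[k0,k0,k0,k0,k2],[k0,k0,k0,k0,k3],[k0,k0,k0,k0,k4]]
    [.contra [y1,z1],.ref k10 k0 [(z1,[z1,z1,y1]),(z1,[z0,y1,z1])],.ref k1 k0 [(z1,[z1])],.contra [y1,z0,z1],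
    .ref k9 k1 [(z1,[z1]),(z1,[y1,z1])],.contra [z1],.ref k8 k0 [(z1,[z0,z1]),(z1,[z1])],.ref k0 k0 [(z1,[y1,z0,z1])],
    .contra [z1],.ref k6 k0 [(z1,[z0,z1]),(z1,[y1,y3,z3])],.ref k7 k0 [(z1,[z0,z1]),(z2,[y1,y4,z4])]]),
    .old (.lp [k36,k36,k42,k24,k40] [k3,k3,k3,k3,k0,k0,k9,k9,k1,k1] k0 [[k0,k0,k6],[],[],[k0,k6]] k120 k5
    [[(k6,k30),(k8,k38)],[(k7,k30),(k5,k33),(k3,k36)],[(k0,k36),(k4,k39),(k2,k42)],[(k7,k30),(k5,k39),(k3,k42)],[(k0,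
    k33),(k2,k39),(k4,k42)],[(k7,k33),(k3,k39),(k5,k42)],[(k0,k30),(k2,k30),(k4,k33)],[(k1,k30),(k9,k32)],[(k6,k32),
    (k8,k40)],[(k1,k38),(k9,k40)]]
    [] k0
    [[k1,k0,k0,k1,k0],[k1,k1,k0,k1,k0],[k1,k0,k1,k1,k0],[k1,k0,k0,k1,k1],[k0,k2,k0,k0,k0],[k0,k1,k1,k0,k0],[k0,k0,k2,
    k0,k0],[k0,k0,k0,k0,k2]]
    [.ref k5 k0 [(z1,[z1])],.ref k11 k1 [(z1,[z1])],.ref k11 k0 [(z1,[z1])],.ref k1 k0 [(z1,[z1])],.contra [z1],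
    .ref k0 k0 [(z1,[y1,z1])],.contra [z1],.contra [z1]])]⟩

/-- classes `0 0 0 1 1`, types `C0 C0 C0 C0 C2` -/
noncomputable def cU5_61 : CertX :=
  ⟨[k4,k4,k4,k20,k22],[(false,k0,[k0,k1,k2,k3,k4])],[[[([z1,z0,z0,z1,z1],z1)],[([z1,z0,z0,z1,z1],z2)],[]]],
    [.old (.leafM k0 [k0,k3,k4] [] [(k1,k2,z1,[y1,z1]),(k2,k1,z1,[y1,z1])]),
    .old (.leafM k1 [k0,k1,k2,k3,k4] [(z1,[y1,z1])] []),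
    .old (.lp [k6,k8,k8,k6,k6] [k1,k1,k0,k0,k0,k0,k1,k1,k1,k1] k0 [] k24 k5
    [[(k8,k6),(k9,k6)],[(k7,k6),(k3,k7),(k5,k7)],[(k0,k7),(k2,k8),(k4,k8)],[(k7,k7),(k3,k8),(k5,k8)],[(k0,k7),(k2,k8),
    (k4,k8)],[(k7,k7),(k3,k8),(k5,k8)],[(k0,k6),(k2,k7),(k4,k7)],[(k8,k6),(k9,k6)],[(k1,k6),(k6,k6)],[(k1,k6),(k6,
    k6)]]
    [] k0
    [[k1,k0,k0,k1,k1],[k0,k2,k0,k0,k0],[k0,k1,k1,k0,k0],[k0,k0,k2,k0,k0]]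
    [.ref k1 k0 [(z1,[z1])],.contra [z1],.ref k0 k0 [(z1,[y1,z1])],.contra [z1]])]⟩

/-- classes `0 0 0 1 1`, types `C0 C0 C0 N0 N1` -/
noncomputable def cU5_62 : CertX :=
  ⟨[k4,k4,k4,k28,k29],[(false,k0,[k0,k1,k2,k3,k4]),(true,k3,[k3,k2,k1,k0,k4])],[[[([z3,z0,z0,z3,z0],z1),([z0,z1,z1,z0,
    z0],z2)],[([z2,z0,z0,z2,z0],z1),([z0,z1,z1,z0,z0],z2)],[([z3,z0,z0,z3,z0],z2),([z0,z1,z1,z0,z0],z2)],[([z5,z0,z0,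
    z5,z0],z3),([z0,z3,z0,z0,z0],z2),([z0,z0,z3,z0,z0],z4)],[([z5,z0,z0,z5,z0],z3),([z0,z1,z1,z0,z0],z2)],[([z1,z0,z0,
    z1,z1],z1)],[([z1,z0,z0,z1,z0],z2),([z0,z3,z3,z0,z0],z1)],[([z1,z0,z0,z1,z0],z2),([z0,z2,z2,z0,z0],z1)],[([z1,z0,
    z0,z1,z0],z2),([z0,z3,z3,z0,z0],z2)],[([z1,z0,z0,z1,z0],z2)],[([z1,z0,z1,z1,z0],z2),([z0,z3,z0,z0,z0],z1)],[([z1,
    z0,z1,z1,z0],z2),([z0,z2,z0,z0,z0],z1)]],[[([z1,z0,z1,z1,z0],z2),([z0,z3,z0,z0,z0],z2)],[([z5,z0,z0,z5,z0],z7),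
    ([z0,z5,z0,z0,z0],z3),([z0,z0,z5,z0,z0],z3)],[([z1,z0,z1,z1,z0],z2),([z0,z5,z0,z0,z0],z3)],[([z1,z0,z1,z1,z0],
    z2)],[]]],
    [.old (.leafM k2 [k3,k4,k0] [(z1,[y1,y3,z3]),(z1,[z1])] [(k1,k2,z1,[z0,z1]),(k2,k1,z1,[z0,z1])]),
    .old (.leafM k3 [k3,k4,k0] [(z1,[y1,y2,z2]),(z1,[z1])] [(k1,k2,z1,[z0,z1]),(k2,k1,z1,[z0,z1])]),
    .old (.leafM k4 [k3,k4,k0] [(z1,[y1,y3,z3]),(z1,[z1])] [(k1,k2,z1,[z0,z1]),(k2,k1,z1,[z0,z1])]),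
    .old (.lp [k40,k70,k70,k0,k28] [k15,k15,k0,k0,k0,k0,k35,k35,k21,k21] k0 [] k140 k8
    [[(k6,k20)],[(k7,k20),(k3,k55),(k5,k55)],[(k0,k55),(k2,k70),(k4,k70)],[(k7,k35),(k3,k70),(k5,k70)],[(k0,k55),(k2,
    k70),(k4,k70)],[(k7,k35),(k3,k70),(k5,k70)],[(k0,k20),(k2,k35),(k4,k35)],[(k1,k20)],[(k8,k28)],[(k9,k28)]]
    [] k0
    [[k1,k0,k0,k1,k0],[k2,k0,k0,k2,k0],[k3,k0,k0,k3,k0],[k1,k1,k0,k1,k0],[k1,k0,k1,k1,k0],[k0,k0,k0,k0,k2],[k0,k0,k0,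
    k0,k3],[k0,k0,k0,k0,k4]]
    [.contra [z5,y1,z7],.contra [z5,y2,z4],.contra [z5,y3,z1],.contra [z5,y1,z2],.contra [z15,y3,z1,y5],.contra [z15,
    z6,z28,z10,y30],.contra [z5,z3,z9,z5,y15],.contra [z15,z12,z26,z20,y60]]),
    .old (.lp [(nat_lit 500),(nat_lit 1180),(nat_lit 490),k0,(nat_lit 336)] [(nat_lit 340),(nat_lit 340),k0,k0,
    (nat_lit 345),(nat_lit 345),(nat_lit 590),(nat_lit 590),(nat_lit 422),(nat_lit 422)] k0 [[k0,k0,k0,k0,k10],[k0,k0,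
    k0,(nat_lit 690)],[(nat_lit 690)],[],[],[k0,k10]] (nat_lit 1680) k8
    [[(k6,(nat_lit 250))],[(k7,(nat_lit 240)),(k3,(nat_lit 840)),(k5,(nat_lit 1185))],[(k2,(nat_lit 490)),(k0,
    (nat_lit 840)),(k4,(nat_lit 845))],[(k3,(nat_lit 490)),(k7,(nat_lit 590)),(k5,(nat_lit 835))],[(k4,(nat_lit 490)),
    (k2,(nat_lit 835)),(k0,(nat_lit 1185))],[(k7,(nat_lit 245)),(k5,(nat_lit 490)),(k3,(nat_lit 845))],[(k0,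
    (nat_lit 240)),(k4,(nat_lit 245)),(k2,(nat_lit 590))],[(k1,(nat_lit 250))],[(k8,(nat_lit 336))],[(k9,
    (nat_lit 336))]]
    [] k0
    [[k1,k0,k0,k1,k0],[k2,k0,k0,k2,k0],[k3,k0,k0,k3,k0],[k0,k2,k0,k0,k0],[k0,k3,k0,k0,k0],[k0,k0,k2,k0,k0],[k0,k0,k3,
    k0,k0],[k0,k0,k0,k0,k2],[k0,k0,k0,k0,k3],[k0,k0,k0,k0,k4]]
    [.contra [z3,y2,y7,z7],.contra [z3,y2,y4,z4],.contra [z3,y2,y1,z1],.contra [z1],.ref k3 k0 [(z1,[z0,z1]),(z1,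
    [z1]),(z1,[y1,z0,z3])],.contra [y1,z0,z2],.ref k3 k1 [(z1,[z0,z1]),(z1,[z1]),(z1,[y1,z0,z3])],.contra [z1],
    .contra [z3,z1,z5,y5],.contra [z3,z2,z10,y10]]),
    .old (.lp [(nat_lit 9389126),(nat_lit 14366494),(nat_lit 8088570),k0,(nat_lit 3393660)] [(nat_lit 2488684),
    (nat_lit 2488684),k0,k0,(nat_lit 3138962),(nat_lit 3138962),(nat_lit 7183247),(nat_lit 7183247),(nat_lit 5486417),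
    (nat_lit 5486417)] k0 [[k0,k0,k0,k0,(nat_lit 1300740)],[k0,k0,k0,(nat_lit 6278271)],[(nat_lit 6278271)],[],[],[k0,
    (nat_lit 1300740)]] (nat_lit 23755620) k8
    [[(k6,(nat_lit 4694563))],[(k7,(nat_lit 3393823)),(k3,(nat_lit 11877810)),(k5,(nat_lit 15017119))],[(k2,
    (nat_lit 8088223)),(k0,(nat_lit 11877810)),(k4,(nat_lit 12528272))],[(k7,(nat_lit 7183247)),(k3,
    (nat_lit 8088223)),(k5,(nat_lit 11227532))],[(k4,(nat_lit 8088570)),(k2,(nat_lit 11227532)),(k0,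
    (nat_lit 15017119))],[(k7,(nat_lit 4044285)),(k5,(nat_lit 8088570)),(k3,(nat_lit 12528272))],[(k0,
    (nat_lit 3393823)),(k4,(nat_lit 4044285)),(k2,(nat_lit 7183247))],[(k1,(nat_lit 4694563))],[(k8,
    (nat_lit 3393660))],[(k9,(nat_lit 3393660))]]
    [] k0
    [[k1,k0,k0,k1,k0],[k2,k0,k0,k2,k0],[k0,k2,k0,k0,k0],[k0,k0,k2,k0,k0],[k0,k0,k0,k0,k2],[k0,k0,k0,k0,k3],[k0,k0,k0,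
    k0,k4],[k0,k0,k0,k0,k5],[k0,k0,k0,k0,k6]]
    [.contra [y2,z1,z1],.contra [y1,z2],.contra [z1],.contra [y1,y2,z2],.contra [z1],.ref k0 k0 [(z1,[y1,z3]),(z1,[z0,
    y1,z1])],.ref k1 k0 [(z2,[y1,z4]),(z1,[z0,y1,z1])],.ref k4 k0 [(z1,[y1,z5]),(z1,[z0,y1,z1])],.ref k2 k0 [(z2,[y1,
    z6]),(z1,[z0,y1,z1])]]),
    .old (.leafM k2 [k2,k4,k1] [(z1,[y3,y1,z3]),(z1,[z0,z1])] [(k3,k0,z1,[z1]),(k0,k3,z1,[z1])]),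
    .old (.leafM k3 [k2,k4,k1] [(z1,[y2,y1,z2]),(z1,[z0,z1])] [(k3,k0,z1,[z1]),(k0,k3,z1,[z1])]),
    .old (.leafM k4 [k2,k4,k1] [(z1,[y3,y1,z3]),(z1,[z0,z1])] [(k3,k0,z1,[z1]),(k0,k3,z1,[z1])]),
    .old (.lp [(nat_lit 830),k0,(nat_lit 250),k5,k168] [k0,k0,(nat_lit 415),(nat_lit 415),(nat_lit 290),(nat_lit 290),
    (nat_lit 700),k125,(nat_lit 331),(nat_lit 331)] k0 [[k0,k0,(nat_lit 420)],[k0,k0,k0,k0,k0,k5],[k0,k0,k0,k0,k170],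
    [k0,(nat_lit 420)],[k5],[k0,k0,k0,k170]] (nat_lit 840) k8
    [[(k6,k130)],[(k5,k120),(k3,(nat_lit 415)),(k7,(nat_lit 710))],[(k4,k120),(k0,(nat_lit 415)),(k2,(nat_lit 420))],
    [(k7,k120),(k5,k125),(k3,(nat_lit 420))],[(k0,k120),(k2,k125),(k4,(nat_lit 420))],[(k3,k120),(k7,(nat_lit 415)),
    (k5,(nat_lit 420))],[(k2,k120),(k4,(nat_lit 415)),(k0,(nat_lit 710))],[(k1,k130)],[(k8,k168)],[(k9,k168)]]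
    [] k0
    [[k1,k1,k0,k1,k0],[k1,k1,k1,k1,k0],[k1,k2,k2,k1,k0],[k1,k0,k1,k1,k0],[k0,k2,k1,k0,k0],[k0,k1,k1,k0,k0],[k0,k2,k2,
    k0,k0],[k0,k3,k3,k0,k0],[k0,k1,k2,k0,k0],[k0,k0,k0,k0,k2],[k0,k0,k0,k0,k3],[k0,k0,k0,k0,k4]]
    [.contra [z1,y1],.contra [y1,z0,z1],.contra [y1,y1,z2],.contra [z1,y1],.contra [y1,y2,z2],.contra [y1,y2,z2],
    .contra [y1,y2,z2],.ref k8 k0 [(z1,[z0,z1]),(z1,[z1])],.contra [y1,y2,z2],.contra [z1],.ref k6 k0 [(z1,[z0,z1]),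
    (z1,[y1,y3,z3])],.ref k7 k0 [(z1,[z0,z1]),(z2,[y1,y4,z4])]]),
    .old (.leafM k4 [k3,k4,k0,k1,k2] [(z1,[y3,y1,z3]),(z1,[z0,z1])] []),
    .old (.leafM k5 [k3,k4,k0,k1,k2] [(z1,[y2,y1,z2]),(z1,[z0,z1])] []),
    .old (.leafM k6 [k3,k4,k0,k1,k2] [(z1,[y3,y1,z3]),(z1,[z0,z1])] []),
    .old (.lp [(nat_lit 4680270),(nat_lit 3448620),(nat_lit 2441880),(nat_lit 1337220),(nat_lit 1872108)] [k0,k0,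
    (nat_lit 615825),(nat_lit 615825),(nat_lit 1119195),(nat_lit 1119195),(nat_lit 1671525),(nat_lit 1671525),
    (nat_lit 1404081),(nat_lit 1404081)] k0 [[k0,k0,k0,k0,(nat_lit 1101240)],[k0,k0,k0,(nat_lit 1040060)],
    [(nat_lit 1040060)],[],[],[k0,(nat_lit 1101240)]] (nat_lit 9360540) k6
    [[(k6,(nat_lit 3008745))],[(k7,(nat_lit 1907505)),(k3,(nat_lit 4064445)),(k5,(nat_lit 4601135))],[(k2,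
    (nat_lit 2408560)),(k4,(nat_lit 4046490)),(k0,(nat_lit 4064445))],[(k7,(nat_lit 2392920)),(k3,(nat_lit 2408560)),
    (k5,(nat_lit 2945250))],[(k4,(nat_lit 2441880)),(k2,(nat_lit 2945250)),(k0,(nat_lit 4601135))],[(k7,
    (nat_lit 1889550)),(k5,(nat_lit 2441880)),(k3,(nat_lit 4046490))],[(k4,(nat_lit 1889550)),(k0,(nat_lit 1907505)),
    (k2,(nat_lit 2392920))],[(k1,(nat_lit 3008745))],[(k8,(nat_lit 1872108))],[(k9,(nat_lit 1872108))]]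
    [] k0
    [[k1,k0,k0,k1,k0],[k0,k2,k0,k0,k0],[k0,k3,k0,k0,k0],[k0,k1,k1,k0,k0],[k0,k0,k2,k0,k0],[k0,k0,k3,k0,k0],[k0,k0,k0,
    k0,k2],[k0,k0,k0,k0,k3],[k0,k0,k0,k0,k4]]
    [.contra [z10,y2,z3],.contra [z1],.contra [z2,z0,y1],.contra [z5,z0,z1,y1],.contra [z5,z0,z2,y2],.contra [z10,z0,
    z1,y6],.contra [z5,z2,z5,z2,y10],.contra [z5,z3,z5,z3,y15],.contra [z5,z4,z5,z4,y20]]),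
    .old (.lp [k14,k10,k20,k6,k8] [k3,k3,k5,k5,k0,k0,k7,k7,k6,k6] k0 [] k40 k6
    [[(k6,k10)],[(k7,k10),(k3,k12),(k5,k17)],[(k2,k10),(k0,k12),(k4,k15)],[(k7,k8),(k3,k10),(k5,k15)],[(k2,k15),(k0,
    k17),(k4,k20)],[(k7,k13),(k3,k15),(k5,k20)],[(k2,k8),(k0,k10),(k4,k13)],[(k1,k10)],[(k8,k8)],[(k9,k8)]]
    [] k0
    [[k1,k0,k0,k1,k0],[k1,k1,k0,k1,k0],[k0,k2,k0,k0,k0],[k0,k3,k0,k0,k0],[k0,k1,k1,k0,k0],[k0,k0,k0,k0,k2],[k0,k0,k0,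
    k0,k3],[k0,k0,k0,k0,k4]]
    [.contra [y1,z1],.ref k13 k0 [(z1,[z5,z0,y1]),(z1,[z0,z0,z1]),(z1,[y5,z5,z1])],.contra [z1],.contra [z2,z0,y1],
    .ref k5 k0 [(z1,[y1,z0,z0,z1])],.contra [z1,z2,z1,y2],.contra [z1,z3,z1,y3],.contra [z1,z4,z1,y4]]),
    .old (.lp [(nat_lit 9389126),(nat_lit 14366494),(nat_lit 8088570),k0,(nat_lit 3393660)] [(nat_lit 2488684),
    (nat_lit 2488684),k0,k0,(nat_lit 3138962),(nat_lit 3138962),(nat_lit 7183247),(nat_lit 7183247),(nat_lit 5486417),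
    (nat_lit 5486417)] k0 [[k0,k0,k0,k0,(nat_lit 1300740)],[k0,k0,k0,(nat_lit 6278271)],[(nat_lit 6278271)],[],[],[k0,
    (nat_lit 1300740)]] (nat_lit 23755620) k8
    [[(k6,(nat_lit 4694563))],[(k7,(nat_lit 3393823)),(k3,(nat_lit 11877810)),(k5,(nat_lit 15017119))],[(k2,
    (nat_lit 8088223)),(k0,(nat_lit 11877810)),(k4,(nat_lit 12528272))],[(k7,(nat_lit 7183247)),(k3,
    (nat_lit 8088223)),(k5,(nat_lit 11227532))],[(k4,(nat_lit 8088570)),(k2,(nat_lit 11227532)),(k0,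
    (nat_lit 15017119))],[(k7,(nat_lit 4044285)),(k5,(nat_lit 8088570)),(k3,(nat_lit 12528272))],[(k0,
    (nat_lit 3393823)),(k4,(nat_lit 4044285)),(k2,(nat_lit 7183247))],[(k1,(nat_lit 4694563))],[(k8,
    (nat_lit 3393660))],[(k9,(nat_lit 3393660))]]
    [] k0
    [[k1,k0,k0,k1,k0],[k2,k0,k0,k2,k0],[k0,k2,k0,k0,k0],[k0,k0,k2,k0,k0],[k0,k0,k0,k0,k2],[k0,k0,k0,k0,k3],[k0,k0,k0,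
    k0,k4],[k0,k0,k0,k0,k5],[k0,k0,k0,k0,k6]]
    [.contra [y1,z1],.contra [y1,z2],.contra [z1],.contra [z1],.contra [z1],.ref k10 k0 [(z1,[z0,z1]),(z1,[y1,y3,
    z3])],.ref k11 k0 [(z1,[z0,z1]),(z2,[y1,y4,z4])],.ref k14 k0 [(z1,[z0,z1]),(z1,[y1,y5,z5])],.ref k12 k0 [(z1,[z0,
    z1]),(z2,[y1,y6,z6])]]),
    .old (.lp [k36,k36,k42,k24,k40] [k3,k3,k3,k3,k0,k0,k9,k9,k1,k1] k0 [[k0,k0,k6],[],[],[k0,k6]] k120 k5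
    [[(k6,k30)],[(k7,k30),(k5,k33),(k3,k36)],[(k0,k36),(k4,k39),(k2,k42)],[(k7,k30),(k5,k39),(k3,k42)],[(k0,k33),(k2,
    k39),(k4,k42)],[(k7,k33),(k3,k39),(k5,k42)],[(k0,k30),(k2,k30),(k4,k33)],[(k1,k30)],[(k8,k40)],[(k9,k40)]]
    [] k0
    [[k1,k0,k0,k1,k0],[k1,k1,k0,k1,k0],[k1,k0,k1,k1,k0],[k0,k2,k0,k0,k0],[k0,k1,k1,k0,k0],[k0,k0,k2,k0,k0],[k0,k0,k0,
    k0,k2]]
    [.ref k9 k0 [(z1,[z1])],.ref k15 k1 [(z1,[z1])],.ref k15 k0 [(z1,[z1])],.contra [z1],.ref k5 k0 [(z1,[y1,z1])],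
    .contra [z1],.contra [z1]])]⟩

/-- classes `0 0 0 1 1`, types `C0 C0 C0 N0 N2` -/
noncomputable def cU5_63 : CertX :=
  ⟨[k4,k4,k4,k28,k30],[(false,k0,[k0,k1,k2,k3,k4])],[[[([z1,z0,z0,z1,z1],z1)],[([z1,z0,z0,z1,z1],z2)],[]]],
    [.old (.leafM k1 [k0,k3,k4] [] [(k1,k2,z1,[y1,z1]),(k2,k1,z1,[y1,z1])]),
    .old (.leafM k3 [k3,k4,k0,k1,k2] [(z1,[y1,z1])] []),
    .old (.lp [k6,k8,k8,k6,k6] [k1,k1,k0,k0,k0,k0,k1,k1,k1,k1] k0 [] k24 k5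
    [[(k9,k6)],[(k7,k6),(k3,k7),(k5,k7)],[(k0,k7),(k2,k8),(k4,k8)],[(k7,k7),(k3,k8),(k5,k8)],[(k0,k7),(k2,k8),(k4,
    k8)],[(k7,k7),(k3,k8),(k5,k8)],[(k0,k6),(k2,k7),(k4,k7)],[(k8,k6)],[(k1,k6)],[(k6,k6)]]
    [] k0
    [[k1,k0,k0,k1,k1],[k0,k2,k0,k0,k0],[k0,k1,k1,k0,k0],[k0,k0,k2,k0,k0]]
    [.ref k1 k0 [(z1,[z1])],.contra [z1],.ref k0 k0 [(z1,[y1,z1])],.contra [z1]])]⟩

/-- classes `0 0 0 1 1`, types `C0 C0 C0 S0 S0` -/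
noncomputable def cU5_64 : CertX :=
  ⟨[k4,k4,k4,k16,k16],[(false,k0,[k0,k1,k2,k3,k4]),(true,k3,[k3,k2,k1,k0,k4])],[[[([z1,z0,z0,z1,z1],z1)],[([z1,z0,z0,
    z1,z1],z2)],[([z1,z0,z0,z1,z0],z2),([z0,z3,z3,z0,z0],z1)],[([z1,z0,z0,z1,z0],z2),([z0,z2,z2,z0,z0],z1)],[([z1,z0,
    z0,z1,z0],z2),([z0,z3,z3,z0,z0],z2)],[([z1,z0,z0,z1,z0],z2)],[([z1,z0,z1,z1,z0],z2),([z0,z3,z0,z0,z0],z1)],[([z1,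
    z0,z0,z1,z2],z2),([z0,z1,z0,z0,y2],z0)],[([z1,z0,z1,z1,z0],z2),([z0,z3,z0,z0,z0],z2)],[([z1,z0,z1,z1,z0],z2),([z0,
    z2,z0,z0,z0],z1)],[([z1,z0,z0,z1,y1],z1),([z0,z1,z0,z0,z1],z1)],[([z1,z0,z1,z1,z0],z2)]],[[]]],
    [.old (.leafM k0 [k0,k3,k4] [] [(k1,k2,z1,[y1,z1]),(k2,k1,z1,[y1,z1])]),
    .old (.leafM k1 [k0,k1,k2,k3,k4] [(z1,[y1,z1])] []),
    .old (.leafM k2 [k2,k4,k1] [(z1,[y3,y1,z3]),(z1,[z0,z1])] [(k3,k0,z1,[z1]),(k0,k3,z1,[z1])]),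
    .old (.leafM k3 [k2,k4,k1] [(z1,[y2,y1,z2]),(z1,[z0,z1])] [(k3,k0,z1,[z1]),(k0,k3,z1,[z1])]),
    .old (.leafM k4 [k2,k4,k1] [(z1,[y3,y1,z3]),(z1,[z0,z1])] [(k3,k0,z1,[z1]),(k0,k3,z1,[z1])]),
    .old (.lp [(nat_lit 430),(nat_lit 250),k0,(nat_lit 405),k168] [k125,k135,(nat_lit 220),(nat_lit 220),(nat_lit 345),
    (nat_lit 345),(nat_lit 285),k0,(nat_lit 261),(nat_lit 261)] k0 [[k0,k0,k100],[k0,k0,k0,k0,k0,k5],[k0,k0,k0,k0,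
    (nat_lit 350)],[k0,k100],[k5],[k0,k0,k0,(nat_lit 350)]] (nat_lit 840) k8
    [[(k6,(nat_lit 270)),(k8,(nat_lit 294)),(k9,(nat_lit 294)),(k1,(nat_lit 420))],[(k5,k120),(k3,(nat_lit 345)),(k7,
    (nat_lit 570))],[(k4,k120),(k0,(nat_lit 345)),(k2,(nat_lit 350))],[(k7,k120),(k5,k125),(k3,(nat_lit 350))],[(k0,
    k120),(k2,k125),(k4,(nat_lit 350))],[(k3,k120),(k7,(nat_lit 345)),(k5,(nat_lit 350))],[(k2,k120),(k4,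
    (nat_lit 345)),(k0,(nat_lit 570))],[(k6,k120),(k8,k144),(k9,k144),(k1,(nat_lit 270))],[(k6,k144),(k8,k168),(k9,
    k168),(k1,(nat_lit 294))],[(k6,k144),(k8,k168),(k9,k168),(k1,(nat_lit 294))]]
    [] k0
    [[k1,k1,k0,k1,k0],[k1,k1,k1,k1,k0],[k1,k0,k1,k1,k0],[k1,k1,k1,k1,k1],[k0,k2,k0,k0,k0],[k0,k2,k1,k0,k0],[k0,k1,k1,
    k0,k0],[k0,k2,k2,k0,k0],[k0,k3,k3,k0,k0],[k0,k1,k2,k0,k0],[k0,k0,k2,k0,k0],[k0,k0,k0,k0,k2],[k0,k0,k0,k0,k3],[k0,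
    k0,k0,k0,k4]]
    [.contra [z1,y1],.contra [y1,z0,z1],.contra [z1,y1],.contra [z2,z1,y2],.contra [z1],.contra [y1,y2,z2],
    .contra [y1,y2,z2],.contra [y1,y2,z2],.ref k4 k0 [(z1,[z0,z1]),(z1,[z1])],.contra [y1,y2,z2],.contra [z1],
    .contra [z1],.ref k2 k0 [(z1,[z0,z1]),(z1,[y1,y3,z3])],.ref k3 k0 [(z1,[z0,z1]),(z2,[y1,y4,z4])]]),
    .old (.leafM k4 [k3,k4,k0,k1,k2] [(z1,[y3,y1,z3]),(z1,[z0,z1])] []),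
    .old (.tor k1 false k4 [(z1,[z1]),(z1,[z1,z1]),(z1,[y2,y1,z2])]),
    .old (.leafM k6 [k3,k4,k0,k1,k2] [(z1,[y3,y1,z3]),(z1,[z0,z1])] []),
    .old (.leafM k5 [k3,k4,k0,k1,k2] [(z1,[y2,y1,z2]),(z1,[z0,z1])] []),
    .old (.lp [k50,k54,k62,k142,k48] [k46,k46,k44,k44,k40,k40,k0,k0,k47,k47] k0 [[k0,k0,k8],[],[],[k0,
    k8]] (nat_lit 240) k6
    [[(k8,k49),(k9,k49),(k1,k50),(k6,k96)],[(k5,k48),(k3,k52),(k7,k96)],[(k0,k52),(k4,k58),(k2,k62)],[(k5,k58),(k3,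
    k62),(k7,k98)],[(k0,k48),(k2,k58),(k4,k62)],[(k3,k58),(k5,k62),(k7,k102)],[(k0,k96),(k2,k98),(k4,k102)],[(k8,k95),
    (k9,k95),(k1,k96),(k6,k142)],[(k8,k48),(k9,k48),(k1,k49),(k6,k95)],[(k8,k48),(k9,k48),(k1,k49),(k6,k95)]]
    [] k0
    [[k1,k0,k0,k1,k0],[k0,k2,k0,k0,k0],[k0,k3,k0,k0,k0],[k0,k2,k1,k0,k0],[k0,k1,k1,k0,k0],[k0,k2,k2,k0,k0],[k0,k1,k2,
    k0,k0],[k0,k0,k2,k0,k0],[k0,k0,k3,k0,k0],[k0,k0,k0,k0,k2],[k0,k0,k0,k0,k3],[k0,k0,k0,k0,k4]]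
    [.contra [z1,y1],.contra [z1],.ref k7 k0 [(z1,[y1,z1,z3]),(z1,[z1,z0,y2])],.ref k7 k0 [(z1,[y1,z0,z1,z1]),(z1,[z1,
    z1,z0,y1])],.contra [z1,z1,z2,y1],.ref k1 k0 [(z2,[y1,z0,z0,z2])],.ref k7 k0 [(z1,[y1,y1,y1,z2]),(z1,[z1,z2,z2,
    y2])],.contra [z1,z2,z4,y2],.ref k7 k0 [(z1,[y1,y2,y3,z3]),(z1,[z1,z3,z4,y3])],.contra [z1],.ref k6 k0 [(z1,[z0,
    z0,y1,z1]),(z1,[y1,z0,z3])],.ref k1 k0 [(z2,[z1,z2])]]),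
    .old (.lp [k8,k8,k16,k16,k10] [k4,k4,k4,k4,k0,k0,k0,k0,k3,k3] k0 [] k40 k6
    [[(k1,k8),(k8,k9),(k9,k9),(k6,k12)],[(k3,k8),(k5,k12),(k7,k12)],[(k0,k8),(k2,k8),(k4,k12)],[(k3,k8),(k5,k12),(k7,
    k12)],[(k0,k12),(k2,k12),(k4,k16)],[(k3,k12),(k5,k16),(k7,k16)],[(k0,k12),(k2,k12),(k4,k16)],[(k1,k12),(k8,k13),
    (k9,k13),(k6,k16)],[(k1,k9),(k8,k10),(k9,k10),(k6,k13)],[(k1,k9),(k8,k10),(k9,k10),(k6,k13)]]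
    [] k0
    [[k1,k0,k0,k1,k0],[k1,k1,k0,k1,k0],[k1,k0,k0,k1,k1],[k0,k2,k0,k0,k0],[k0,k3,k0,k0,k0],[k0,k4,k0,k0,k0],[k0,k2,k1,
    k0,k0],[k0,k1,k1,k0,k0],[k0,k0,k2,k0,k0],[k0,k0,k0,k0,k2],[k0,k0,k0,k0,k3]]
    [.contra [y1,z1],.ref k10 k0 [(z1,[z1,z1,y1]),(z1,[z0,y1,z1])],.ref k1 k0 [(z1,[z1])],.contra [z1],
    .ref k8 k0 [(z1,[z0,z1]),(z1,[z1])],.ref k9 k0 [(z1,[z0,z1]),(z2,[z1])],.ref k7 k1 [(z1,[y1,y1,z2]),(z1,[z1,z2,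
    y2])],.ref k0 k0 [(z1,[y1,z0,z1])],.contra [z1],.contra [z1],.ref k6 k0 [(z1,[z0,z1]),(z1,[y1,y3,z3])]]),
    .old (.lp [k30,k36,k42,k30,k40] [k6,k6,k3,k3,k0,k0,k6,k6,k1,k1] k0 [[k0,k0,k6],[],[],[k0,k6]] k120 k5
    [[(k1,k30),(k6,k30),(k8,k35),(k9,k35)],[(k5,k30),(k7,k30),(k3,k33)],[(k0,k33),(k4,k39),(k2,k42)],[(k7,k33),(k5,
    k39),(k3,k42)],[(k0,k30),(k2,k39),(k4,k42)],[(k7,k36),(k3,k39),(k5,k42)],[(k0,k30),(k2,k33),(k4,k36)],[(k1,k30),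
    (k6,k30),(k8,k35),(k9,k35)],[(k1,k35),(k6,k35),(k8,k40),(k9,k40)],[(k1,k35),(k6,k35),(k8,k40),(k9,k40)]]
    [] k0
    [[k1,k0,k0,k1,k0],[k1,k1,k0,k1,k0],[k1,k0,k1,k1,k0],[k1,k0,k0,k1,k1],[k0,k2,k0,k0,k0],[k0,k1,k1,k0,k0],[k0,k0,k2,
    k0,k0],[k0,k0,k0,k0,k2]]
    [.ref k5 k0 [(z1,[z1])],.ref k11 k1 [(z1,[z1])],.ref k11 k0 [(z1,[z1])],.ref k1 k0 [(z1,[z1])],.contra [z1],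
    .ref k0 k0 [(z1,[y1,z1])],.contra [z1],.contra [z1]])]⟩

/-- classes `0 0 0 1 1`, types `C0 C0 C2 B0 B1` -/
noncomputable def cU5_65 : CertX :=
  ⟨[k4,k4,k6,k24,k25],[(false,k0,[k0,k1,k2,k3,k4])],[[[([z1,z0,z1,z1,z0],z2),([z0,z3,z0,z0,z0],z1)],[([z1,z0,z1,z1,
    z0],z2),([z0,z2,z0,z0,z0],z1)],[([z1,z0,z1,z1,z0],z2),([z0,z3,z0,z0,z0],z2)],[([z1,z0,z1,z1,z0],z2)],[]]],
    [.old (.leafM k4 [k3,k4,k0,k1,k2] [(z1,[y3,y1,z3]),(z1,[z0,z1])] []),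
    .old (.leafM k5 [k3,k4,k0,k1,k2] [(z1,[y2,y1,z2]),(z1,[z0,z1])] []),
    .old (.leafM k6 [k3,k4,k0,k1,k2] [(z1,[y3,y1,z3]),(z1,[z0,z1])] []),
    .old (.lp [k24,k10,k6,k10,k8] [k0,k0,k7,k7,k9,k9,k7,k7,k8,k8] k0 [] k40 k6
    [[(k9,k16),(k6,k17)],[(k4,k15),(k5,k15),(k3,k17)],[(k2,k10),(k7,k10),(k0,k17)],[(k4,k8),(k5,k8),(k3,k10)],[(k2,
    k8),(k7,k8),(k0,k15)],[(k2,k8),(k7,k8),(k0,k15)],[(k4,k8),(k5,k8),(k3,k10)],[(k8,k9),(k1,k17)],[(k8,k8),(k1,k16)],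
    [(k9,k8),(k6,k9)]]
    [] k0
    [[k0,k2,k0,k0,k0],[k0,k3,k0,k0,k0],[k0,k0,k0,k0,k2],[k0,k0,k0,k0,k3],[k0,k0,k0,k0,k4]]
    [.contra [z1],.ref k2 k0 [(z1,[z0,z1]),(z1,[z1])],.contra [z1],.ref k0 k0 [(z1,[z0,z1]),(z1,[y1,y3,z3])],
    .ref k1 k0 [(z1,[z0,z1]),(z2,[y1,y4,z4])]]),
    .old (.lp [k6,k8,k6,k6,k8] [k1,k1,k0,k0,k1,k1,k1,k1,k0,k0] k0 [] k24 k5
    [[(k6,k6),(k9,k7)],[(k4,k6),(k5,k6),(k3,k7)],[(k0,k7),(k7,k7),(k2,k8)],[(k4,k7),(k5,k7),(k3,k8)],[(k0,k6),(k7,k6),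
    (k2,k7)],[(k0,k6),(k7,k6),(k2,k7)],[(k4,k6),(k5,k6),(k3,k7)],[(k1,k6),(k8,k7)],[(k1,k7),(k8,k8)],[(k6,k7),(k9,
    k8)]]
    [] k0
    [[k1,k0,k1,k1,k0],[k0,k2,k0,k0,k0],[k0,k0,k0,k0,k2]]
    [.ref k3 k0 [(z1,[z1])],.contra [z1],.contra [z1]])]⟩

/-- classes `0 0 0 1 1`, types `C0 C0 C2 C0 C0` -/
noncomputable def cU5_66 : CertX :=
  ⟨[k4,k4,k6,k20,k20],[(false,k0,[k0,k1,k2,k3,k4])],[[[([z1,z0,z1,z1,z0],z2),([z0,z3,z0,z0,z0],z1)],[([z1,z0,z1,z1,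
    z0],z2),([z0,z3,z0,z0,z0],z2)],[([z1,z0,z1,z1,z0],z2),([z0,z2,z0,z0,z0],z1)],[([z1,z0,z1,z1,z0],z2)],[]]],
    [.old (.leafM k4 [k3,k4,k0,k1,k2] [(z1,[y3,y1,z3]),(z1,[z0,z1])] []),
    .old (.leafM k6 [k3,k4,k0,k1,k2] [(z1,[y3,y1,z3]),(z1,[z0,z1])] []),
    .old (.leafM k5 [k3,k4,k0,k1,k2] [(z1,[y2,y1,z2]),(z1,[z0,z1])] []),
    .old (.lp [k24,k8,k8,k8,k10] [k0,k0,k8,k8,k8,k8,k8,k8,k7,k7] k0 [] k40 k6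
    [[(k6,k16),(k8,k17)],[(k3,k16),(k4,k16),(k5,k16)],[(k2,k8),(k7,k8),(k0,k16)],[(k3,k8),(k4,k8),(k5,k8)],[(k2,k8),
    (k7,k8),(k0,k16)],[(k2,k8),(k7,k8),(k0,k16)],[(k3,k8),(k4,k8),(k5,k8)],[(k9,k9),(k1,k16)],[(k6,k9),(k8,k10)],[(k9,
    k10),(k1,k17)]]
    [] k0
    [[k0,k2,k0,k0,k0],[k0,k3,k0,k0,k0],[k0,k4,k0,k0,k0],[k0,k0,k0,k0,k2],[k0,k0,k0,k0,k3]]
    [.contra [z1],.ref k1 k0 [(z1,[z0,z1]),(z1,[z1])],.ref k2 k0 [(z1,[z0,z1]),(z2,[z1])],.contra [z1],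
    .ref k0 k0 [(z1,[z0,z1]),(z1,[y1,y3,z3])]]),
    .old (.lp [k6,k8,k6,k6,k8] [k1,k1,k0,k0,k1,k1,k1,k1,k0,k0] k0 [] k24 k5
    [[(k6,k6),(k8,k7)],[(k4,k6),(k5,k6),(k3,k7)],[(k0,k7),(k7,k7),(k2,k8)],[(k4,k7),(k5,k7),(k3,k8)],[(k0,k6),(k7,k6),
    (k2,k7)],[(k0,k6),(k7,k6),(k2,k7)],[(k4,k6),(k5,k6),(k3,k7)],[(k1,k6),(k9,k7)],[(k6,k7),(k8,k8)],[(k1,k7),(k9,
    k8)]]
    [] k0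
    [[k1,k0,k1,k1,k0],[k0,k2,k0,k0,k0],[k0,k0,k0,k0,k2]]
    [.ref k3 k0 [(z1,[z1])],.contra [z1],.contra [z1]])]⟩

/-- classes `0 0 0 1 1`, types `C0 C0 C2 C0 C2` -/
noncomputable def cU5_67 : CertX :=
  ⟨[k4,k4,k6,k20,k22],[],[[[]]],
    [.old (.lp [k2,k4,k4,k2,k4] [k1,k1,k0,k0,k0,k0,k1,k1,k0,k0] k0 [] k12 k5
    [[(k8,k3),(k9,k3)],[(k3,k3),(k4,k3),(k5,k3)],[(k0,k3),(k7,k3),(k2,k4)],[(k3,k4),(k4,k4),(k5,k4)],[(k0,k3),(k7,k3),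
    (k2,k4)],[(k0,k3),(k7,k3),(k2,k4)],[(k3,k3),(k4,k3),(k5,k3)],[(k8,k3),(k9,k3)],[(k1,k3),(k6,k3)],[(k1,k3),(k6,
    k3)]]
    [] k0
    [[k0,k2,k0,k0,k0]]
    [.contra [z1]])]⟩

/-- classes `0 0 0 1 1`, types `C0 C0 C2 N0 N1` -/
noncomputable def cU5_68 : CertX :=
  ⟨[k4,k4,k6,k28,k29],[(false,k0,[k0,k1,k2,k3,k4])],[[[([z1,z0,z1,z1,z0],z2),([z0,z3,z0,z0,z0],z1)],[([z1,z0,z1,z1,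
    z0],z2),([z0,z3,z0,z0,z0],z2)],[([z1,z0,z1,z1,z0],z2),([z0,z2,z0,z0,z0],z1)],[([z1,z0,z1,z1,z0],z2)],[]]],
    [.old (.leafM k4 [k3,k4,k0,k1,k2] [(z1,[y3,y1,z3]),(z1,[z0,z1])] []),
    .old (.leafM k6 [k3,k4,k0,k1,k2] [(z1,[y3,y1,z3]),(z1,[z0,z1])] []),
    .old (.leafM k5 [k3,k4,k0,k1,k2] [(z1,[y2,y1,z2]),(z1,[z0,z1])] []),
    .old (.lp [k24,k8,k8,k8,k10] [k0,k0,k8,k8,k8,k8,k8,k8,k7,k7] k0 [] k40 k6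
    [[(k6,k16)],[(k3,k16),(k4,k16),(k5,k16)],[(k2,k8),(k7,k8),(k0,k16)],[(k3,k8),(k4,k8),(k5,k8)],[(k2,k8),(k7,k8),
    (k0,k16)],[(k2,k8),(k7,k8),(k0,k16)],[(k3,k8),(k4,k8),(k5,k8)],[(k1,k16)],[(k8,k10)],[(k9,k10)]]
    [] k0
    [[k0,k2,k0,k0,k0],[k0,k3,k0,k0,k0],[k0,k4,k0,k0,k0],[k0,k0,k0,k0,k2],[k0,k0,k0,k0,k3]]
    [.contra [z1],.ref k1 k0 [(z1,[z0,z1]),(z1,[z1])],.ref k2 k0 [(z1,[z0,z1]),(z2,[z1])],.contra [z1],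
    .ref k0 k0 [(z1,[z0,z1]),(z1,[y1,y3,z3])]]),
    .old (.lp [k6,k8,k6,k6,k8] [k1,k1,k0,k0,k1,k1,k1,k1,k0,k0] k0 [] k24 k5
    [[(k6,k6)],[(k4,k6),(k5,k6),(k3,k7)],[(k0,k7),(k7,k7),(k2,k8)],[(k4,k7),(k5,k7),(k3,k8)],[(k0,k6),(k7,k6),(k2,
    k7)],[(k0,k6),(k7,k6),(k2,k7)],[(k4,k6),(k5,k6),(k3,k7)],[(k1,k6)],[(k8,k8)],[(k9,k8)]]
    [] k0
    [[k1,k0,k1,k1,k0],[k0,k2,k0,k0,k0],[k0,k0,k0,k0,k2]]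
    [.ref k3 k0 [(z1,[z1])],.contra [z1],.contra [z1]])]⟩

/-- classes `0 0 0 1 1`, types `C0 C0 C2 N0 N2` -/
noncomputable def cU5_69 : CertX :=
  ⟨[k4,k4,k6,k28,k30],[],[[[]]],
    [.old (.lp [k2,k4,k4,k2,k4] [k1,k1,k0,k0,k0,k0,k1,k1,k0,k0] k0 [] k12 k5
    [[(k9,k3)],[(k3,k3),(k4,k3),(k5,k3)],[(k0,k3),(k7,k3),(k2,k4)],[(k3,k4),(k4,k4),(k5,k4)],[(k0,k3),(k7,k3),(k2,
    k4)],[(k0,k3),(k7,k3),(k2,k4)],[(k3,k3),(k4,k3),(k5,k3)],[(k8,k3)],[(k1,k3)],[(k6,k3)]]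
    [] k0
    [[k0,k2,k0,k0,k0]]
    [.contra [z1]])]⟩

/-- classes `0 0 0 1 1`, types `C0 C0 C2 S0 S0` -/
noncomputable def cU5_70 : CertX :=
  ⟨[k4,k4,k6,k16,k16],[(false,k0,[k0,k1,k2,k3,k4])],[[[([z1,z0,z1,z1,z0],z2),([z0,z3,z0,z0,z0],z1)],[([z1,z0,z1,z1,
    z0],z2),([z0,z3,z0,z0,z0],z2)],[([z1,z0,z1,z1,z0],z2),([z0,z2,z0,z0,z0],z1)],[([z1,z0,z1,z1,z0],z2)],[]]],
    [.old (.leafM k4 [k3,k4,k0,k1,k2] [(z1,[y3,y1,z3]),(z1,[z0,z1])] []),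
    .old (.leafM k6 [k3,k4,k0,k1,k2] [(z1,[y3,y1,z3]),(z1,[z0,z1])] []),
    .old (.leafM k5 [k3,k4,k0,k1,k2] [(z1,[y2,y1,z2]),(z1,[z0,z1])] []),
    .old (.lp [k8,k8,k24,k8,k10] [k8,k8,k8,k8,k0,k0,k8,k8,k7,k7] k0 [] k40 k6
    [[(k1,k8),(k6,k8),(k8,k9),(k9,k9)],[(k3,k8),(k4,k16),(k5,k16)],[(k0,k8),(k2,k8),(k7,k8)],[(k3,k8),(k4,k16),(k5,
    k16)],[(k0,k16),(k2,k16),(k7,k16)],[(k0,k16),(k2,k16),(k7,k16)],[(k3,k8),(k4,k16),(k5,k16)],[(k1,k8),(k6,k8),(k8,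
    k9),(k9,k9)],[(k1,k9),(k6,k9),(k8,k10),(k9,k10)],[(k1,k9),(k6,k9),(k8,k10),(k9,k10)]]
    [] k0
    [[k0,k2,k0,k0,k0],[k0,k3,k0,k0,k0],[k0,k4,k0,k0,k0],[k0,k0,k0,k0,k2],[k0,k0,k0,k0,k3]]
    [.contra [z1],.ref k1 k0 [(z1,[z0,z1]),(z1,[z1])],.ref k2 k0 [(z1,[z0,z1]),(z2,[z1])],.contra [z1],
    .ref k0 k0 [(z1,[z0,z1]),(z1,[y1,y3,z3])]]),
    .old (.lp [k94,k34,k98,k62,k70] [k2,k2,k32,k32,k0,k0,k18,k18,k14,k14] k0 [[k0,k0,k46],[],[k0,k0,k0,k0,k0,k18],[k0,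
    k46],[k0,k0,k0,k18],[],[k0,k0,k0,k0,k0,k0,k0,k0,k30],[],[],[k0,k0,k0,k0,k0,k0,k0,k30]] (nat_lit 240) k6
    [[(k6,k48),(k8,k82),(k9,k82),(k1,k94)],[(k5,k50),(k3,k64),(k4,k96)],[(k7,k48),(k0,k64),(k2,k80)],[(k4,k48),(k5,
    k66),(k3,k80)],[(k0,k50),(k2,k66),(k7,k98)],[(k2,k48),(k7,k80),(k0,k96)],[(k3,k48),(k4,k80),(k5,k98)],[(k1,k48),
    (k6,k62),(k8,k66),(k9,k66)],[(k6,k66),(k9,k70),(k1,k82),(k8,k100)],[(k6,k66),(k8,k70),(k1,k82),(k9,k100)]]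
    [] k0
    [[k1,k1,k1,k1,k0],[k1,k0,k1,k1,k0],[k0,k2,k0,k0,k0],[k0,k0,k0,k0,k2]]
    [.contra [y1,z1],.ref k3 k0 [(z1,[z1])],.contra [z1],.contra [z1]])]⟩

/-- classes `0 0 0 1 1`, types `C0 C2 C0 B0 B1` -/
noncomputable def cU5_71 : CertX :=
  ⟨[k4,k6,k4,k24,k25],[(false,k0,[k0,k1,k2,k3,k4])],[[[([z1,z0,z0,z1,z1],z1)],[([z1,z0,z0,z1,z1],z2)],[([z1,z0,z0,z1,
    z0],z2),([z0,z3,z3,z0,z0],z1)],[([z1,z0,z0,z1,z0],z2),([z0,z2,z2,z0,z0],z1)],[([z1,z0,z0,z1,z0],z2),([z0,z3,z3,z0,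
    z0],z2)],[([z1,z0,z0,z1,z0],z2)],[]]],
    [.old (.leafM k1 [k0,k3,k4] [] [(k1,k2,z1,[y1,z1]),(k2,k1,z1,[y1,z1])]),
    .old (.leafM k3 [k3,k4,k0,k1,k2] [(z1,[y1,z1])] []),
    .old (.leafM k2 [k2,k4,k1] [(z1,[y3,y1,z3]),(z1,[z0,z1])] [(k3,k0,z1,[z1]),(k0,k3,z1,[z1])]),
    .old (.leafM k3 [k2,k4,k1] [(z1,[y2,y1,z2]),(z1,[z0,z1])] [(k3,k0,z1,[z1]),(k0,k3,z1,[z1])]),
    .old (.leafM k4 [k2,k4,k1] [(z1,[y3,y1,z3]),(z1,[z0,z1])] [(k3,k0,z1,[z1]),(k0,k3,z1,[z1])]),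
    .old (.lp [k50,k20,k0,k20,k14] [k0,k0,k15,k15,k25,k25,k15,k15,k18,k18] k0 [] k70 k8
    [[(k9,k32),(k6,k35)],[(k2,k35),(k3,k35),(k7,k35)],[(k4,k10),(k5,k10),(k0,k35)],[(k4,k10),(k5,k10),(k0,k35)],[(k2,
    k10),(k3,k10),(k7,k10)],[(k2,k10),(k3,k10),(k7,k10)],[(k4,k10),(k5,k10),(k0,k35)],[(k8,k17),(k1,k35)],[(k8,k14),
    (k1,k32)],[(k9,k14),(k6,k17)]]
    [] k0
    [[k0,k1,k1,k0,k0],[k0,k2,k2,k0,k0],[k0,k3,k3,k0,k0],[k0,k0,k0,k0,k2],[k0,k0,k0,k0,k3],[k0,k0,k0,k0,k4]]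
    [.contra [y1,y2,z2],.contra [y1,y2,z2],.ref k4 k0 [(z1,[z0,z1]),(z1,[z1])],.contra [z1],.ref k2 k0 [(z1,[z0,z1]),
    (z1,[y1,y3,z3])],.ref k3 k0 [(z1,[z0,z1]),(z2,[y1,y4,z4])]]),
    .old (.lp [k2,k4,k2,k4,k4] [k1,k1,k0,k0,k1,k1,k0,k0,k0,k0] k0 [] k12 k5
    [[(k6,k3),(k9,k3)],[(k2,k3),(k3,k3),(k7,k3)],[(k0,k3),(k4,k3),(k5,k3)],[(k0,k3),(k4,k3),(k5,k3)],[(k2,k3),(k3,k3),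
    (k7,k3)],[(k2,k3),(k3,k3),(k7,k3)],[(k0,k3),(k4,k3),(k5,k3)],[(k1,k3),(k8,k4)],[(k1,k3),(k8,k4)],[(k6,k4),(k9,
    k4)]]
    [] k0
    [[k1,k0,k0,k1,k0],[k1,k0,k0,k1,k1],[k0,k1,k1,k0,k0],[k0,k0,k0,k0,k2]]
    [.ref k5 k0 [(z1,[z1])],.ref k1 k0 [(z1,[z1])],.ref k0 k0 [(z1,[y1,z1])],.contra [z1]])]⟩

/-- classes `0 0 0 1 1`, types `C0 C2 C0 C0 C0` -/
noncomputable def cU5_72 : CertX :=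
  ⟨[k4,k6,k4,k20,k20],[(false,k0,[k0,k1,k2,k3,k4])],[[[([z1,z0,z0,z1,z1],z1)],[([z1,z0,z0,z1,z1],z2)],[([z1,z0,z0,z1,
    z0],z2),([z0,z3,z3,z0,z0],z1)],[([z1,z0,z0,z1,z0],z2),([z0,z2,z2,z0,z0],z1)],[([z1,z0,z0,z1,z0],z2),([z0,z3,z3,z0,
    z0],z2)],[([z1,z0,z0,z1,z0],z2)],[]]],
    [.old (.leafM k0 [k0,k3,k4] [] [(k1,k2,z1,[y1,z1]),(k2,k1,z1,[y1,z1])]),
    .old (.leafM k1 [k0,k1,k2,k3,k4] [(z1,[y1,z1])] []),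
    .old (.leafM k2 [k2,k4,k1] [(z1,[y3,y1,z3]),(z1,[z0,z1])] [(k3,k0,z1,[z1]),(k0,k3,z1,[z1])]),
    .old (.leafM k3 [k2,k4,k1] [(z1,[y2,y1,z2]),(z1,[z0,z1])] [(k3,k0,z1,[z1]),(k0,k3,z1,[z1])]),
    .old (.leafM k4 [k2,k4,k1] [(z1,[y3,y1,z3]),(z1,[z0,z1])] [(k3,k0,z1,[z1]),(k0,k3,z1,[z1])]),
    .old (.lp [k50,k20,k0,k20,k14] [k0,k0,k15,k15,k25,k25,k15,k15,k18,k18] k0 [] k70 k8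
    [[(k8,k32),(k6,k35)],[(k2,k35),(k3,k35),(k7,k35)],[(k4,k10),(k5,k10),(k0,k35)],[(k4,k10),(k5,k10),(k0,k35)],[(k2,
    k10),(k3,k10),(k7,k10)],[(k2,k10),(k3,k10),(k7,k10)],[(k4,k10),(k5,k10),(k0,k35)],[(k9,k17),(k1,k35)],[(k8,k14),
    (k6,k17)],[(k9,k14),(k1,k32)]]
    [] k0
    [[k0,k1,k1,k0,k0],[k0,k2,k2,k0,k0],[k0,k3,k3,k0,k0],[k0,k0,k0,k0,k2],[k0,k0,k0,k0,k3],[k0,k0,k0,k0,k4]]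
    [.contra [y1,y2,z2],.contra [y1,y2,z2],.ref k4 k0 [(z1,[z0,z1]),(z1,[z1])],.contra [z1],.ref k2 k0 [(z1,[z0,z1]),
    (z1,[y1,y3,z3])],.ref k3 k0 [(z1,[z0,z1]),(z2,[y1,y4,z4])]]),
    .old (.lp [k2,k4,k2,k4,k4] [k1,k1,k0,k0,k1,k1,k0,k0,k0,k0] k0 [] k12 k5
    [[(k6,k3),(k8,k3)],[(k2,k3),(k3,k3),(k7,k3)],[(k0,k3),(k4,k3),(k5,k3)],[(k0,k3),(k4,k3),(k5,k3)],[(k2,k3),(k3,k3),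
    (k7,k3)],[(k2,k3),(k3,k3),(k7,k3)],[(k0,k3),(k4,k3),(k5,k3)],[(k1,k3),(k9,k4)],[(k6,k4),(k8,k4)],[(k1,k3),(k9,
    k4)]]
    [] k0
    [[k1,k0,k0,k1,k0],[k1,k0,k0,k1,k1],[k0,k1,k1,k0,k0],[k0,k0,k0,k0,k2]]
    [.ref k5 k0 [(z1,[z1])],.ref k1 k0 [(z1,[z1])],.ref k0 k0 [(z1,[y1,z1])],.contra [z1]])]⟩

/-- classes `0 0 0 1 1`, types `C0 C2 C0 C0 C2` -/
noncomputable def cU5_73 : CertX :=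
  ⟨[k4,k6,k4,k20,k22],[(false,k0,[k0,k1,k2,k3,k4])],[[[([z1,z0,z0,z1,z1],z1)],[([z1,z0,z0,z1,z1],z2)],[]]],
    [.old (.leafM k0 [k0,k3,k4] [] [(k1,k2,z1,[y1,z1]),(k2,k1,z1,[y1,z1])]),
    .old (.leafM k1 [k0,k1,k2,k3,k4] [(z1,[y1,z1])] []),
    .old (.lp [k2,k2,k2,k2,k2] [k0,k0,k0,k0,k0,k0,k0,k0,k0,k0] k0 [] k8 k5
    [[(k8,k2),(k9,k2)],[(k2,k2),(k3,k2),(k7,k2)],[(k0,k2),(k4,k2),(k5,k2)],[(k0,k2),(k4,k2),(k5,k2)],[(k2,k2),(k3,k2),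
    (k7,k2)],[(k2,k2),(k3,k2),(k7,k2)],[(k0,k2),(k4,k2),(k5,k2)],[(k8,k2),(k9,k2)],[(k1,k2),(k6,k2)],[(k1,k2),(k6,
    k2)]]
    [] k0
    [[k1,k0,k0,k1,k1],[k0,k1,k1,k0,k0]]
    [.ref k1 k0 [(z1,[z1])],.ref k0 k0 [(z1,[y1,z1])]])]⟩

/-- classes `0 0 0 1 1`, types `C0 C2 C0 N0 N1` -/
noncomputable def cU5_74 : CertX :=
  ⟨[k4,k6,k4,k28,k29],[(false,k0,[k0,k1,k2,k3,k4])],[[[([z3,z0,z0,z3,z0],z1),([z0,z1,z1,z0,z0],z2)],[([z2,z0,z0,z2,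
    z0],z1),([z0,z1,z1,z0,z0],z2)],[([z3,z0,z0,z3,z0],z2),([z0,z1,z1,z0,z0],z2)],[([z1,z0,z0,z1,z1],z1)],[([z1,z0,z0,
    z1,z0],z2),([z0,z3,z3,z0,z0],z1)],[([z1,z0,z0,z1,z0],z2),([z0,z2,z2,z0,z0],z1)],[([z1,z0,z0,z1,z0],z2),([z0,z3,z3,
    z0,z0],z2)],[([z1,z0,z0,z1,z0],z2)],[]]],
    [.old (.leafM k2 [k3,k4,k0] [(z1,[y1,y3,z3]),(z1,[z1])] [(k1,k2,z1,[z0,z1]),(k2,k1,z1,[z0,z1])]),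
    .old (.leafM k3 [k3,k4,k0] [(z1,[y1,y2,z2]),(z1,[z1])] [(k1,k2,z1,[z0,z1]),(k2,k1,z1,[z0,z1])]),
    .old (.leafM k4 [k3,k4,k0] [(z1,[y1,y3,z3]),(z1,[z1])] [(k1,k2,z1,[z0,z1]),(k2,k1,z1,[z0,z1])]),
    .old (.lp [k0,k70,k0,k20,k14] [k35,k35,k0,k0,k35,k35,k25,k25,k28,k28] k0 [] k70 k8
    [[(k6,k10)],[(k7,k10),(k2,k35),(k3,k35)],[(k0,k35),(k4,k35),(k5,k35)],[(k0,k35),(k4,k35),(k5,k35)],[(k7,k10),(k2,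
    k35),(k3,k35)],[(k7,k10),(k2,k35),(k3,k35)],[(k0,k10),(k4,k10),(k5,k10)],[(k1,k10)],[(k8,k14)],[(k9,k14)]]
    [] k0
    [[k1,k0,k0,k1,k0],[k2,k0,k0,k2,k0],[k3,k0,k0,k3,k0],[k0,k0,k0,k0,k2],[k0,k0,k0,k0,k3],[k0,k0,k0,k0,k4]]
    [.contra [y2,z1,z1],.contra [y1,z2],.ref k2 k0 [(z1,[z1]),(z1,[z0,y1,z1])],.contra [z1],.ref k0 k0 [(z1,[y1,z3]),
    (z1,[z0,y1,z1])],.ref k1 k0 [(z2,[y1,z4]),(z1,[z0,y1,z1])]]),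
    .old (.leafM k2 [k2,k4,k1] [(z1,[y3,y1,z3]),(z1,[z0,z1])] [(k3,k0,z1,[z1]),(k0,k3,z1,[z1])]),
    .old (.leafM k3 [k2,k4,k1] [(z1,[y2,y1,z2]),(z1,[z0,z1])] [(k3,k0,z1,[z1]),(k0,k3,z1,[z1])]),
    .old (.leafM k4 [k2,k4,k1] [(z1,[y3,y1,z3]),(z1,[z0,z1])] [(k3,k0,z1,[z1]),(k0,k3,z1,[z1])]),
    .old (.lp [k50,k20,k0,k20,k14] [k0,k0,k15,k15,k25,k25,k15,k15,k18,k18] k0 [] k70 k8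
    [[(k6,k35)],[(k2,k35),(k3,k35),(k7,k35)],[(k4,k10),(k5,k10),(k0,k35)],[(k4,k10),(k5,k10),(k0,k35)],[(k2,k10),(k3,
    k10),(k7,k10)],[(k2,k10),(k3,k10),(k7,k10)],[(k4,k10),(k5,k10),(k0,k35)],[(k1,k35)],[(k8,k14)],[(k9,k14)]]
    [] k0
    [[k0,k1,k1,k0,k0],[k0,k2,k2,k0,k0],[k0,k3,k3,k0,k0],[k0,k0,k0,k0,k2],[k0,k0,k0,k0,k3],[k0,k0,k0,k0,k4]]
    [.contra [y1,y2,z2],.contra [y1,y2,z2],.ref k6 k0 [(z1,[z0,z1]),(z1,[z1])],.contra [z1],.ref k4 k0 [(z1,[z0,z1]),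
    (z1,[y1,y3,z3])],.ref k5 k0 [(z1,[z0,z1]),(z2,[y1,y4,z4])]]),
    .old (.lp [k0,k6,k0,k6,k4] [k3,k3,k0,k0,k3,k3,k0,k0,k1,k1] k0 [] k12 k5
    [[(k6,k3)],[(k2,k3),(k3,k3),(k7,k3)],[(k0,k3),(k4,k3),(k5,k3)],[(k0,k3),(k4,k3),(k5,k3)],[(k2,k3),(k3,k3),(k7,
    k3)],[(k2,k3),(k3,k3),(k7,k3)],[(k0,k3),(k4,k3),(k5,k3)],[(k1,k3)],[(k8,k4)],[(k9,k4)]]
    [] k0
    [[k1,k0,k0,k1,k0],[k0,k1,k1,k0,k0],[k0,k0,k0,k0,k2]]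
    [.ref k7 k0 [(z1,[z1])],.ref k3 k0 [(z1,[y1,z1])],.contra [z1]])]⟩

/-- classes `0 0 0 1 1`, types `C0 C2 C0 N0 N2` -/
noncomputable def cU5_75 : CertX :=
  ⟨[k4,k6,k4,k28,k30],[(false,k0,[k0,k1,k2,k3,k4])],[[[([z1,z0,z0,z1,z1],z1)],[([z1,z0,z0,z1,z1],z2)],[]]],
    [.old (.leafM k1 [k0,k3,k4] [] [(k1,k2,z1,[y1,z1]),(k2,k1,z1,[y1,z1])]),
    .old (.leafM k3 [k3,k4,k0,k1,k2] [(z1,[y1,z1])] []),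
    .old (.lp [k2,k2,k2,k2,k2] [k0,k0,k0,k0,k0,k0,k0,k0,k0,k0] k0 [] k8 k5
    [[(k9,k2)],[(k2,k2),(k3,k2),(k7,k2)],[(k0,k2),(k4,k2),(k5,k2)],[(k0,k2),(k4,k2),(k5,k2)],[(k2,k2),(k3,k2),(k7,
    k2)],[(k2,k2),(k3,k2),(k7,k2)],[(k0,k2),(k4,k2),(k5,k2)],[(k8,k2)],[(k1,k2)],[(k6,k2)]]
    [] k0
    [[k1,k0,k0,k1,k1],[k0,k1,k1,k0,k0]]
    [.ref k1 k0 [(z1,[z1])],.ref k0 k0 [(z1,[y1,z1])]])]⟩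

/-- classes `0 0 0 1 1`, types `C0 C2 C0 S0 S0` -/
noncomputable def cU5_76 : CertX :=
  ⟨[k4,k6,k4,k16,k16],[(false,k0,[k0,k1,k2,k3,k4])],[[[([z1,z0,z0,z1,z1],z1)],[([z1,z0,z0,z1,z1],z2)],[([z1,z0,z0,z1,
    z0],z2),([z0,z3,z3,z0,z0],z1)],[([z1,z0,z0,z1,z0],z2),([z0,z2,z2,z0,z0],z1)],[([z1,z0,z0,z1,z0],z2),([z0,z3,z3,z0,
    z0],z2)],[([z1,z0,z0,z1,z0],z2)],[]]],
    [.old (.leafM k0 [k0,k3,k4] [] [(k1,k2,z1,[y1,z1]),(k2,k1,z1,[y1,z1])]),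
    .old (.leafM k1 [k0,k1,k2,k3,k4] [(z1,[y1,z1])] []),
    .old (.leafM k2 [k2,k4,k1] [(z1,[y3,y1,z3]),(z1,[z0,z1])] [(k3,k0,z1,[z1]),(k0,k3,z1,[z1])]),
    .old (.leafM k3 [k2,k4,k1] [(z1,[y2,y1,z2]),(z1,[z0,z1])] [(k3,k0,z1,[z1]),(k0,k3,z1,[z1])]),
    .old (.leafM k4 [k2,k4,k1] [(z1,[y3,y1,z3]),(z1,[z0,z1])] [(k3,k0,z1,[z1]),(k0,k3,z1,[z1])]),
    .old (.lp [(nat_lit 280),(nat_lit 220),k0,(nat_lit 490),k154] [k105,k105,k135,k135,(nat_lit 245),(nat_lit 245),k0,k0,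
    k168,k168] k0 [] (nat_lit 770) k8
    [[(k8,(nat_lit 217)),(k9,(nat_lit 217)),(k1,(nat_lit 280)),(k6,(nat_lit 385))],[(k2,(nat_lit 250)),(k3,
    (nat_lit 250)),(k7,(nat_lit 385))],[(k4,k110),(k5,k110),(k0,(nat_lit 250))],[(k4,k110),(k5,k110),(k0,
    (nat_lit 250))],[(k2,k110),(k3,k110),(k7,(nat_lit 245))],[(k2,k110),(k3,k110),(k7,(nat_lit 245))],[(k4,
    (nat_lit 245)),(k5,(nat_lit 245)),(k0,(nat_lit 385))],[(k8,(nat_lit 322)),(k9,(nat_lit 322)),(k1,(nat_lit 385)),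
    (k6,(nat_lit 490))],[(k8,k154),(k9,k154),(k1,(nat_lit 217)),(k6,(nat_lit 322))],[(k8,k154),(k9,k154),(k1,
    (nat_lit 217)),(k6,(nat_lit 322))]]
    [] k0
    [[k0,k1,k1,k0,k0],[k0,k2,k2,k0,k0],[k0,k3,k3,k0,k0],[k0,k0,k0,k0,k2],[k0,k0,k0,k0,k3],[k0,k0,k0,k0,k4]]
    [.contra [y1,y2,z2],.contra [y1,y2,z2],.ref k4 k0 [(z1,[z0,z1]),(z1,[z1])],.contra [z1],.ref k2 k0 [(z1,[z0,z1]),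
    (z1,[y1,y3,z3])],.ref k3 k0 [(z1,[z0,z1]),(z2,[y1,y4,z4])]]),
    .old (.lp [k42,k56,k0,k70,k40] [k14,k14,k7,k7,k35,k35,k0,k0,k15,k15] k0 [[],[],[],[],[],[],[k0,k0,k0,k0,k0,k0,k0,k0,
    k20],[],[],[k0,k0,k0,k0,k0,k0,k0,k20]] k140 k6
    [[(k6,k36),(k8,k41),(k9,k41),(k1,k42)],[(k2,k49),(k3,k49),(k7,k56)],[(k4,k28),(k5,k28),(k0,k49)],[(k4,k28),(k5,
    k28),(k0,k49)],[(k2,k28),(k3,k28),(k7,k35)],[(k2,k28),(k3,k28),(k7,k35)],[(k4,k35),(k5,k35),(k0,k56)],[(k1,k36),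
    (k8,k55),(k9,k55),(k6,k70)],[(k9,k40),(k1,k41),(k6,k55),(k8,k60)],[(k8,k40),(k1,k41),(k6,k55),(k9,k60)]]
    [] k0
    [[k1,k0,k0,k1,k0],[k0,k1,k1,k0,k0],[k0,k2,k2,k0,k0],[k0,k0,k0,k0,k2]]
    [.ref k5 k0 [(z1,[z1])],.ref k0 k0 [(z1,[y1,z1])],.ref k1 k0 [(z2,[y1,z2])],.contra [z1]])]⟩

/-- classes `0 0 0 1 1`, types `S0 S0 S0 B0 B1` -/
noncomputable def cU5_77 : CertX :=
  ⟨[k0,k0,k0,k24,k25],[(false,k0,[k0,k1,k2,k3,k4]),(true,k3,[k3,k2,k1,k0,k4])],[[[([z1,z0,z0,z1,z1],z1)],[([z1,z0,z0,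
    z1,z1],z2)],[([z1,z0,z0,z1,z0],z2),([z0,z3,z3,z0,z0],z1)],[([z1,z0,z0,z1,z0],z2),([z0,z2,z2,z0,z0],z1)],[([z1,z0,
    z0,z1,z0],z2),([z0,z3,z3,z0,z0],z2)],[([z1,z0,z0,z1,z0],z2)],[([z1,z0,z1,z1,z0],z2),([z0,z3,z0,z0,z0],z1)],[([z1,
    z0,z1,z1,z0],z2),([z0,z2,z0,z0,z0],z1)],[([z1,z0,z1,z1,z0],z2),([z0,z3,z0,z0,z0],z2)],[([z1,z0,z0,z1,z2],z2),([z0,
    z1,z0,z0,y2],z0)],[([z1,z0,z0,z1,y1],z1),([z0,z1,z0,z0,z1],z1)],[([z1,z0,z1,z1,z0],z2)]],[[]]],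
    [.old (.leafM k1 [k0,k3,k4] [] [(k1,k2,z1,[y1,z1]),(k2,k1,z1,[y1,z1])]),
    .old (.leafM k3 [k3,k4,k0,k1,k2] [(z1,[y1,z1])] []),
    .old (.leafM k2 [k2,k4,k1] [(z1,[y3,y1,z3]),(z1,[z0,z1])] [(k3,k0,z1,[z1]),(k0,k3,z1,[z1])]),
    .old (.leafM k3 [k2,k4,k1] [(z1,[y2,y1,z2]),(z1,[z0,z1])] [(k3,k0,z1,[z1]),(k0,k3,z1,[z1])]),
    .old (.leafM k4 [k2,k4,k1] [(z1,[y3,y1,z3]),(z1,[z0,z1])] [(k3,k0,z1,[z1]),(k0,k3,z1,[z1])]),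
    .old (.lp [k190,(nat_lit 315),(nat_lit 350),(nat_lit 230),k168] [k190,k190,(nat_lit 225),k30,k0,(nat_lit 220),k170,
    k170,(nat_lit 201),(nat_lit 201)] k0 [[k0,k0,k35,k35],[k0,k0,k0,k0,k0,(nat_lit 420)],[k0,k35],[k0,k35],
    [(nat_lit 420)]] (nat_lit 840) k8
    [[(k9,k179),(k6,(nat_lit 210))],[(k2,k120),(k5,k125),(k0,k190),(k3,(nat_lit 350)),(k4,(nat_lit 380)),(k7,
    (nat_lit 630))],[(k4,k120),(k0,(nat_lit 350)),(k2,(nat_lit 350)),(k5,(nat_lit 355)),(k7,(nat_lit 370)),(k3,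
    (nat_lit 510))],[(k0,k120),(k2,k120),(k5,k125),(k7,k175),(k4,(nat_lit 345)),(k3,(nat_lit 350))],[(k0,k125),(k2,
    k125),(k5,k130),(k7,k180),(k4,(nat_lit 350)),(k3,(nat_lit 355))],[(k3,k120),(k2,(nat_lit 345)),(k5,(nat_lit 350)),
    (k0,(nat_lit 380)),(k7,(nat_lit 400)),(k4,(nat_lit 570))],[(k2,k175),(k5,k180),(k7,(nat_lit 230)),(k3,
    (nat_lit 370)),(k4,(nat_lit 400)),(k0,(nat_lit 630))],[(k8,k199),(k1,(nat_lit 210))],[(k8,k168),(k1,k179)],[(k9,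
    k168),(k6,k199)]]
    [] k0
    [[k1,k1,k0,k1,k0],[k1,k1,k1,k1,k0],[k1,k0,k1,k1,k0],[k1,k1,k1,k1,k1],[k0,k2,k0,k0,k0],[k0,k2,k1,k0,k0],[k0,k1,k1,
    k0,k0],[k0,k2,k2,k0,k0],[k0,k3,k3,k0,k0],[k0,k1,k2,k0,k0],[k0,k0,k2,k0,k0],[k0,k0,k0,k0,k2],[k0,k0,k0,k0,k3],[k0,
    k0,k0,k0,k4]]
    [.contra [z1,y1],.contra [y1,z0,z1],.contra [z1,y1],.contra [z2,z1,y2],.contra [z1],.contra [y1,y2,z2],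
    .contra [y1,y2,z2],.contra [y1,y2,z2],.ref k4 k0 [(z1,[z0,z1]),(z1,[z1])],.contra [y1,y2,z2],.contra [z1],
    .contra [z1],.ref k2 k0 [(z1,[z0,z1]),(z1,[y1,y3,z3])],.ref k3 k0 [(z1,[z0,z1]),(z2,[y1,y4,z4])]]),
    .old (.leafM k4 [k3,k4,k0,k1,k2] [(z1,[y3,y1,z3]),(z1,[z0,z1])] []),
    .old (.leafM k5 [k3,k4,k0,k1,k2] [(z1,[y2,y1,z2]),(z1,[z0,z1])] []),
    .old (.leafM k6 [k3,k4,k0,k1,k2] [(z1,[y3,y1,z3]),(z1,[z0,z1])] []),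
    .old (.tor k20 false k0 [(z1,[y2,y1,z2]),(z1,[z1]),(z1,[z1,z1])]),
    .old (.lp [k8,k10,k10,k22,k8] [k7,k7,k6,k6,k6,k6,k0,k0,k7,k7] k0 [] k40 k6
    [[(k9,k8),(k6,k15)],[(k0,k8),(k2,k9),(k3,k9),(k4,k9),(k5,k9),(k7,k15)],[(k0,k9),(k2,k10),(k3,k10),(k4,k10),(k5,
    k10),(k7,k16)],[(k0,k9),(k2,k10),(k3,k10),(k4,k10),(k5,k10),(k7,k16)],[(k0,k9),(k2,k10),(k3,k10),(k4,k10),(k5,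
    k10),(k7,k16)],[(k0,k9),(k2,k10),(k3,k10),(k4,k10),(k5,k10),(k7,k16)],[(k0,k15),(k2,k16),(k3,k16),(k4,k16),(k5,
    k16),(k7,k22)],[(k1,k15),(k8,k15)],[(k1,k8),(k8,k8)],[(k9,k8),(k6,k15)]]
    [] k0
    [[k1,k0,k0,k1,k0],[k1,k0,k0,k1,k1],[k0,k2,k0,k0,k0],[k0,k3,k0,k0,k0],[k0,k2,k1,k0,k0],[k0,k1,k1,k0,k0],[k0,k1,k2,
    k0,k0],[k0,k0,k2,k0,k0],[k0,k0,k3,k0,k0],[k0,k0,k0,k0,k2],[k0,k0,k0,k0,k3],[k0,k0,k0,k0,k4]]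
    [.contra [z1,y1],.ref k1 k0 [(z1,[z1])],.contra [z1],.ref k8 k0 [(z1,[z0,z0,y1,z1]),(z1,[z1])],.ref k8 k0 [(z1,
    [z0,z0,y1,z1]),(z1,[z1,z1,z2,y1])],.contra [z1,z1,z2,y1],.ref k8 k0 [(z1,[z0,z0,y1,z1]),(z1,[z1,z2,z4,y2])],
    .contra [z1,z2,z4,y2],.ref k8 k0 [(z1,[z0,z0,y1,z1]),(z1,[z1,z3,z6,y3])],.contra [z1],.ref k6 k0 [(z1,[z0,z0,y1,
    z1]),(z1,[y1,z0,z3])],.ref k1 k0 [(z2,[z1,z2])]]),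
    .old (.lp [k6,k8,k14,k10,k6] [k4,k4,k3,k3,k0,k0,k2,k2,k4,k4] k0 [] k30 k6
    [[(k9,k6),(k6,k8)],[(k0,k6),(k2,k7),(k3,k7),(k7,k8),(k4,k10),(k5,k10)],[(k0,k7),(k2,k8),(k3,k8),(k7,k9),(k4,k11),
    (k5,k11)],[(k0,k7),(k2,k8),(k3,k8),(k7,k9),(k4,k11),(k5,k11)],[(k0,k10),(k2,k11),(k3,k11),(k7,k12),(k4,k14),(k5,
    k14)],[(k0,k10),(k2,k11),(k3,k11),(k7,k12),(k4,k14),(k5,k14)],[(k0,k8),(k2,k9),(k3,k9),(k7,k10),(k4,k12),(k5,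
    k12)],[(k1,k8),(k8,k8)],[(k1,k6),(k8,k6)],[(k9,k6),(k6,k8)]]
    [] k0
    [[k1,k0,k0,k1,k0],[k1,k1,k0,k1,k0],[k1,k0,k0,k1,k1],[k1,k0,k0,k1,k2],[k0,k2,k0,k0,k0],[k0,k3,k0,k0,k0],[k0,k1,k1,
    k0,k0],[k0,k0,k2,k0,k0],[k0,k0,k0,k0,k2],[k0,k0,k0,k0,k3],[k0,k0,k0,k0,k4]]
    [.contra [y1,z1],.ref k10 k0 [(z1,[z1,z1,y1]),(z1,[z0,y1,z1])],.ref k1 k0 [(z1,[z1])],.ref k9 k1 [(z1,[z1]),(z1,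
    [y1,z1])],.contra [z1],.ref k8 k0 [(z1,[z0,z1]),(z1,[z1])],.ref k0 k0 [(z1,[y1,z0,z1])],.contra [z1],.contra [z1],
    .ref k6 k0 [(z1,[z0,z1]),(z1,[y1,y3,z3])],.ref k7 k0 [(z1,[z0,z1]),(z2,[y1,y4,z4])]]),
    .old (.lp [k60,k78,k78,k60,k80] [k10,k10,k1,k1,k1,k1,k10,k10,k0,k0] k0 [[k0,k0,k6,k6],[],[k0,k6,k0,k0,k6],[k0,k6,k0,
    k0,k6],[],[k0,k0,k6,k6]] (nat_lit 240) k5
    [[(k6,k60),(k9,k70)],[(k0,k60),(k7,k60),(k2,k63),(k5,k63),(k3,k69),(k4,k69)],[(k0,k69),(k7,k69),(k3,k78),(k4,k78),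
    (k2,k84),(k5,k84)],[(k0,k63),(k7,k63),(k2,k78),(k5,k78),(k3,k84),(k4,k84)],[(k0,k63),(k7,k63),(k2,k78),(k5,k78),
    (k3,k84),(k4,k84)],[(k0,k69),(k7,k69),(k3,k78),(k4,k78),(k2,k84),(k5,k84)],[(k0,k60),(k7,k60),(k2,k63),(k5,k63),
    (k3,k69),(k4,k69)],[(k1,k60),(k8,k70)],[(k1,k70),(k8,k80)],[(k6,k70),(k9,k80)]]
    [] k0
    [[k1,k0,k0,k1,k0],[k1,k1,k0,k1,k0],[k1,k0,k1,k1,k0],[k1,k0,k0,k1,k1],[k0,k2,k0,k0,k0],[k0,k1,k1,k0,k0],[k0,k0,k2,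
    k0,k0],[k0,k0,k0,k0,k2]]
    [.ref k5 k0 [(z1,[z1])],.ref k11 k1 [(z1,[z1])],.ref k11 k0 [(z1,[z1])],.ref k1 k0 [(z1,[z1])],.contra [z1],
    .ref k0 k0 [(z1,[y1,z1])],.contra [z1],.contra [z1]])]⟩

/-- classes `0 0 0 1 1`, types `S0 S0 S0 C0 C0` -/
noncomputable def cU5_78 : CertX :=
  ⟨[k0,k0,k0,k20,k20],[(false,k0,[k0,k1,k2,k3,k4]),(true,k3,[k3,k2,k1,k0,k4])],[[[([z1,z0,z0,z1,z1],z1)],[([z1,z0,z0,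
    z1,z1],z2)],[([z1,z0,z0,z1,z0],z2),([z0,z3,z3,z0,z0],z1)],[([z1,z0,z0,z1,z0],z2),([z0,z2,z2,z0,z0],z1)],[([z1,z0,
    z0,z1,z0],z2),([z0,z3,z3,z0,z0],z2)],[([z1,z0,z0,z1,z0],z2)],[([z1,z0,z1,z1,z0],z2),([z0,z3,z0,z0,z0],z1)],[([z1,
    z0,z0,z1,z2],z2),([z0,z1,z0,z0,y2],z0)],[([z1,z0,z1,z1,z0],z2),([z0,z3,z0,z0,z0],z2)],[([z1,z0,z1,z1,z0],z2),([z0,
    z2,z0,z0,z0],z1)],[([z1,z0,z0,z1,y1],z1),([z0,z1,z0,z0,z1],z1)],[([z1,z0,z1,z1,z0],z2)]],[[]]],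
    [.old (.leafM k0 [k0,k3,k4] [] [(k1,k2,z1,[y1,z1]),(k2,k1,z1,[y1,z1])]),
    .old (.leafM k0 [k1,k2,k3,k4,k0] [(z1,[y1,z1])] []),
    .old (.leafM k2 [k2,k4,k1] [(z1,[y3,y1,z3]),(z1,[z0,z1])] [(k3,k0,z1,[z1]),(k0,k3,z1,[z1])]),
    .old (.leafM k3 [k2,k4,k1] [(z1,[y2,y1,z2]),(z1,[z0,z1])] [(k3,k0,z1,[z1]),(k0,k3,z1,[z1])]),
    .old (.leafM k4 [k2,k4,k1] [(z1,[y3,y1,z3]),(z1,[z0,z1])] [(k3,k0,z1,[z1]),(k0,k3,z1,[z1])]),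
    .old (.lp [(nat_lit 300),(nat_lit 315),(nat_lit 350),k120,k168] [k135,k135,(nat_lit 225),k30,k0,(nat_lit 220),
    (nat_lit 225),(nat_lit 225),(nat_lit 201),(nat_lit 201)] k0 [[k0,k0,k35,k35],[k0,k0,k0,k0,k0,(nat_lit 420)],[k0,
    k35],[k0,k35],[(nat_lit 420)]] (nat_lit 840) k8
    [[(k6,(nat_lit 210)),(k8,(nat_lit 234))],[(k2,k175),(k5,k180),(k0,(nat_lit 300)),(k3,(nat_lit 405)),(k4,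
    (nat_lit 435)),(k7,(nat_lit 630))],[(k4,k120),(k7,(nat_lit 315)),(k2,(nat_lit 350)),(k5,(nat_lit 355)),(k0,
    (nat_lit 405)),(k3,(nat_lit 510))],[(k2,k120),(k7,k120),(k5,k125),(k0,k175),(k4,(nat_lit 345)),(k3,
    (nat_lit 350))],[(k2,k125),(k7,k125),(k5,k130),(k0,k180),(k4,(nat_lit 350)),(k3,(nat_lit 355))],[(k3,k120),(k2,
    (nat_lit 345)),(k7,(nat_lit 345)),(k5,(nat_lit 350)),(k0,(nat_lit 435)),(k4,(nat_lit 570))],[(k2,k120),(k7,k120),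
    (k5,k125),(k3,(nat_lit 315)),(k4,(nat_lit 345)),(k0,(nat_lit 630))],[(k9,k144),(k1,(nat_lit 210))],[(k6,k144),(k8,
    k168)],[(k9,k168),(k1,(nat_lit 234))]]
    [] k0
    [[k1,k1,k0,k1,k0],[k1,k1,k1,k1,k0],[k1,k0,k1,k1,k0],[k1,k1,k1,k1,k1],[k0,k2,k0,k0,k0],[k0,k2,k1,k0,k0],[k0,k1,k1,
    k0,k0],[k0,k2,k2,k0,k0],[k0,k3,k3,k0,k0],[k0,k1,k2,k0,k0],[k0,k0,k2,k0,k0],[k0,k0,k0,k0,k2],[k0,k0,k0,k0,k3],[k0,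
    k0,k0,k0,k4]]
    [.contra [z1,y1],.contra [y1,z0,z1],.contra [z1,y1],.contra [z2,z1,y2],.contra [z1],.contra [y1,y2,z2],
    .contra [y1,y2,z2],.contra [y1,y2,z2],.ref k4 k0 [(z1,[z0,z1]),(z1,[z1])],.contra [y1,y2,z2],.contra [z1],
    .contra [z1],.ref k2 k0 [(z1,[z0,z1]),(z1,[y1,y3,z3])],.ref k3 k0 [(z1,[z0,z1]),(z2,[y1,y4,z4])]]),
    .old (.leafM k4 [k3,k4,k0,k1,k2] [(z1,[y3,y1,z3]),(z1,[z0,z1])] []),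
    .old (.tor k1 false k4 [(z1,[z1]),(z1,[z1,z1]),(z1,[y2,y1,z2])]),
    .old (.leafM k6 [k3,k4,k0,k1,k2] [(z1,[y3,y1,z3]),(z1,[z0,z1])] []),
    .old (.leafM k5 [k3,k4,k0,k1,k2] [(z1,[y2,y1,z2]),(z1,[z0,z1])] []),
    .old (.lp [k22,k10,k10,k8,k8] [k0,k0,k6,k6,k6,k6,k7,k7,k7,k7] k0 [] k40 k6
    [[(k6,k15),(k8,k15)],[(k7,k15),(k2,k16),(k3,k16),(k4,k16),(k5,k16),(k0,k22)],[(k7,k9),(k2,k10),(k3,k10),(k4,k10),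
    (k5,k10),(k0,k16)],[(k7,k9),(k2,k10),(k3,k10),(k4,k10),(k5,k10),(k0,k16)],[(k7,k9),(k2,k10),(k3,k10),(k4,k10),(k5,
    k10),(k0,k16)],[(k7,k9),(k2,k10),(k3,k10),(k4,k10),(k5,k10),(k0,k16)],[(k7,k8),(k2,k9),(k3,k9),(k4,k9),(k5,k9),
    (k0,k15)],[(k9,k8),(k1,k15)],[(k6,k8),(k8,k8)],[(k9,k8),(k1,k15)]]
    [] k0
    [[k1,k0,k0,k1,k0],[k1,k0,k0,k1,k1],[k0,k2,k0,k0,k0],[k0,k3,k0,k0,k0],[k0,k2,k1,k0,k0],[k0,k1,k1,k0,k0],[k0,k1,k2,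
    k0,k0],[k0,k0,k2,k0,k0],[k0,k0,k3,k0,k0],[k0,k0,k0,k0,k2],[k0,k0,k0,k0,k3],[k0,k0,k0,k0,k4]]
    [.contra [z1,y1],.ref k1 k0 [(z1,[z1])],.contra [z1],.ref k7 k0 [(z1,[y1,z1,z3]),(z1,[z1,z0,y2])],.ref k7 k0 [(z1,
    [y1,z0,z1,z1]),(z1,[z1,z1,z0,y1])],.contra [z1,z1,z2,y1],.ref k7 k0 [(z1,[y1,y1,y1,z2]),(z1,[z1,z2,z2,y2])],
    .contra [z1,z2,z4,y2],.ref k7 k0 [(z1,[y1,y2,y3,z3]),(z1,[z1,z3,z4,y3])],.contra [z1],.ref k6 k0 [(z1,[z0,z0,y1,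
    z1]),(z1,[y1,z0,z3])],.ref k1 k0 [(z2,[z1,z2])]]),
    .old (.lp [k16,k8,k16,k8,k10] [k0,k0,k4,k4,k0,k0,k4,k4,k3,k3] k0 [] k40 k6
    [[(k6,k12),(k8,k13)],[(k2,k12),(k3,k12),(k7,k12),(k0,k16),(k4,k16),(k5,k16)],[(k2,k8),(k3,k8),(k7,k8),(k0,k12),
    (k4,k12),(k5,k12)],[(k2,k8),(k3,k8),(k7,k8),(k0,k12),(k4,k12),(k5,k12)],[(k2,k12),(k3,k12),(k7,k12),(k0,k16),(k4,
    k16),(k5,k16)],[(k2,k12),(k3,k12),(k7,k12),(k0,k16),(k4,k16),(k5,k16)],[(k2,k8),(k3,k8),(k7,k8),(k0,k12),(k4,k12),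
    (k5,k12)],[(k9,k9),(k1,k12)],[(k6,k9),(k8,k10)],[(k9,k10),(k1,k13)]]
    [] k0
    [[k1,k0,k0,k1,k0],[k1,k1,k0,k1,k0],[k1,k0,k0,k1,k1],[k0,k2,k0,k0,k0],[k0,k3,k0,k0,k0],[k0,k4,k0,k0,k0],[k0,k2,k1,
    k0,k0],[k0,k1,k1,k0,k0],[k0,k0,k2,k0,k0],[k0,k0,k0,k0,k2],[k0,k0,k0,k0,k3]]
    [.contra [y1,z1],.ref k10 k0 [(z1,[z1,z1,y1]),(z1,[z0,y1,z1])],.ref k1 k0 [(z1,[z1])],.contra [z1],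
    .ref k8 k0 [(z1,[z0,z1]),(z1,[z1])],.ref k9 k0 [(z1,[z0,z1]),(z2,[z1])],.ref k7 k1 [(z1,[y1,y1,z2]),(z1,[z1,z2,
    y2])],.ref k0 k0 [(z1,[y1,z0,z1])],.contra [z1],.contra [z1],.ref k6 k0 [(z1,[z0,z1]),(z1,[y1,y3,z3])]]),
    .old (.lp [k60,k78,k78,k60,k80] [k10,k10,k1,k1,k1,k1,k10,k10,k0,k0] k0 [[k0,k0,k6,k6],[],[k0,k6,k0,k0,k6],[k0,k6,k0,
    k0,k6],[],[k0,k0,k6,k6]] (nat_lit 240) k5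
    [[(k6,k60),(k8,k70)],[(k0,k60),(k7,k60),(k2,k63),(k5,k63),(k3,k69),(k4,k69)],[(k0,k69),(k7,k69),(k3,k78),(k4,k78),
    (k2,k84),(k5,k84)],[(k0,k63),(k7,k63),(k2,k78),(k5,k78),(k3,k84),(k4,k84)],[(k0,k63),(k7,k63),(k2,k78),(k5,k78),
    (k3,k84),(k4,k84)],[(k0,k69),(k7,k69),(k3,k78),(k4,k78),(k2,k84),(k5,k84)],[(k0,k60),(k7,k60),(k2,k63),(k5,k63),
    (k3,k69),(k4,k69)],[(k1,k60),(k9,k70)],[(k6,k70),(k8,k80)],[(k1,k70),(k9,k80)]]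
    [] k0
    [[k1,k0,k0,k1,k0],[k1,k1,k0,k1,k0],[k1,k0,k1,k1,k0],[k1,k0,k0,k1,k1],[k0,k2,k0,k0,k0],[k0,k1,k1,k0,k0],[k0,k0,k2,
    k0,k0],[k0,k0,k0,k0,k2]]
    [.ref k5 k0 [(z1,[z1])],.ref k11 k1 [(z1,[z1])],.ref k11 k0 [(z1,[z1])],.ref k1 k0 [(z1,[z1])],.contra [z1],
    .ref k0 k0 [(z1,[y1,z1])],.contra [z1],.contra [z1]])]⟩

/-- classes `0 0 0 1 1`, types `S0 S0 S0 C0 C2` -/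
noncomputable def cU5_79 : CertX :=
  ⟨[k0,k0,k0,k20,k22],[(true,k3,[k3,k2,k1,k0,k4]),(false,k0,[k0,k1,k2,k3,k4])],[[[([z1,z0,z0,z1,z1],z1)],[([z1,z0,z0,
    z1,z1],z2)],[([z2,z0,y2,z0,z1],z0),([z0,z1,z2,z0,z0],z2)],[([z2,z0,z0,z0,z1],z2),([z0,z1,z0,z2,z1],z2)],[([z1,z0,
    y1,z1,z1],z1)],[([z2,z0,z0,z0,z1],z2)],[]]],
    [.old (.leafM k0 [k0,k3,k4] [] [(k1,k2,z1,[y1,z1]),(k2,k1,z1,[y1,z1])]),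
    .old (.leafM k0 [k1,k2,k3,k4,k0] [(z1,[y1,z1])] []),
    .old (.tor k7 false k2 [(z1,[z0,z1]),(z1,[z1,z1]),(z1,[y1,y2,z2])]),
    .old (.lp [k146,k172,k154,k120,k120] [k21,k21,k16,k0,k19,k15,k34,k34,k34,k34] k0 [[k0,k0,k32],[k68],[k0,k0,k0,k0,k18],
    [k0,k32],[],[k0,k0,k0,k18]] (nat_lit 480) k5
    [[(k8,k133),(k9,k133)],[(k5,k120),(k7,k133),(k4,k148),(k2,k151),(k3,k167),(k0,(nat_lit 214))],[(k3,k120),(k7,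
    k154),(k0,k167),(k4,k169),(k5,k173),(k2,(nat_lit 204))],[(k7,k120),(k0,k151),(k4,k153),(k2,k156),(k5,k157),(k3,
    (nat_lit 204))],[(k0,k120),(k7,k139),(k2,k157),(k5,k158),(k4,k172),(k3,k173)],[(k7,k135),(k0,k148),(k4,k150),(k2,
    k153),(k3,k169),(k5,k172)],[(k2,k120),(k7,k120),(k0,k133),(k4,k135),(k5,k139),(k3,k154)],[(k8,k120),(k9,k120)],
    [(k6,k120),(k1,k133)],[(k6,k120),(k1,k133)]]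
    [] k0
    [[k1,k0,k0,k1,k1],[k0,k2,k0,k0,k0],[k0,k2,k1,k0,k0],[k0,k1,k1,k0,k0],[k0,k0,k2,k0,k0],[k0,k0,k0,k2,k1]]
    [.contra [z1,y1,y1,z1],.contra [z1],.ref k2 k0 [(z1,[y2,y1,z0,z2]),(z1,[z1])],.contra [y1,y1,y1,z2],.contra [z1],
    .contra [z1,y1,y2,z2]]),
    .old (.lp [k6,k8,k8,k6,k6] [k1,k1,k0,k0,k0,k0,k1,k1,k1,k1] k0 [] k24 k5
    [[(k8,k6),(k9,k6)],[(k0,k6),(k7,k6),(k2,k7),(k3,k7),(k4,k7),(k5,k7)],[(k0,k7),(k7,k7),(k2,k8),(k3,k8),(k4,k8),(k5,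
    k8)],[(k0,k7),(k7,k7),(k2,k8),(k3,k8),(k4,k8),(k5,k8)],[(k0,k7),(k7,k7),(k2,k8),(k3,k8),(k4,k8),(k5,k8)],[(k0,k7),
    (k7,k7),(k2,k8),(k3,k8),(k4,k8),(k5,k8)],[(k0,k6),(k7,k6),(k2,k7),(k3,k7),(k4,k7),(k5,k7)],[(k8,k6),(k9,k6)],[(k1,
    k6),(k6,k6)],[(k1,k6),(k6,k6)]]
    [] k0
    [[k2,k0,k0,k0,k1],[k1,k0,k0,k1,k1],[k0,k2,k0,k0,k0],[k0,k1,k1,k0,k0],[k0,k0,k2,k0,k0],[k0,k0,k0,k2,k1]]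
    [.ref k3 k1 [(z1,[z1]),(z1,[y1,z1,z1])],.contra [z1,y1],.contra [z1],.contra [y1,y1,z1],.contra [z1],
    .ref k2 k1 [(z1,[y1,z2]),(z1,[z0,y1,z1])]]),
    .old (.lp [k146,k172,k154,k120,k120] [k21,k21,k16,k0,k19,k15,k34,k34,k34,k34] k0 [[k0,k0,k32],[k68],[k0,k0,k0,k0,k18],
    [k0,k32],[],[k0,k0,k0,k18]] (nat_lit 480) k5
    [[(k8,k133),(k9,k133)],[(k5,k120),(k7,k133),(k4,k148),(k2,k151),(k3,k167),(k0,(nat_lit 214))],[(k3,k120),(k7,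
    k154),(k0,k167),(k4,k169),(k5,k173),(k2,(nat_lit 204))],[(k7,k120),(k0,k151),(k4,k153),(k2,k156),(k5,k157),(k3,
    (nat_lit 204))],[(k0,k120),(k7,k139),(k2,k157),(k5,k158),(k4,k172),(k3,k173)],[(k7,k135),(k0,k148),(k4,k150),(k2,
    k153),(k3,k169),(k5,k172)],[(k2,k120),(k7,k120),(k0,k133),(k4,k135),(k5,k139),(k3,k154)],[(k8,k120),(k9,k120)],
    [(k6,k120),(k1,k133)],[(k6,k120),(k1,k133)]]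
    [] k0
    [[k1,k0,k0,k1,k1],[k0,k2,k0,k0,k0],[k0,k2,k1,k0,k0],[k0,k1,k1,k0,k0],[k0,k0,k2,k0,k0],[k0,k0,k0,k2,k1]]
    [.ref k1 k1 [(z1,[z1])],.contra [z1],.ref k4 k0 [(z1,[y1,z0,z1])],.contra [y2,y1,z2],.contra [z1],.ref k1 k1 [(z2,
    [z1,z1])]]),
    .old (.lp [k124,k154,k172,k150,k112] [k34,k30,k17,k17,k0,k16,k19,k19,k38,k38] k0 [[k0,k0,k18],[],[k0,k0,k0,k0,k32],
    [k0,k18],[k0,k0,k0,k0,k0,k68],[k0,k0,k0,k32]] (nat_lit 480) k5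
    [[(k8,k120),(k9,k120)],[(k0,k120),(k5,k120),(k7,k135),(k2,k137),(k3,k137),(k4,k154)],[(k0,k137),(k7,k152),(k3,
    k154),(k5,k155),(k4,k171),(k2,k172)],[(k7,k120),(k0,k137),(k2,k154),(k5,k155),(k4,k171),(k3,k172)],[(k0,k120),(k7,
    k153),(k2,k155),(k3,k155),(k5,k156),(k4,(nat_lit 204))],[(k4,k120),(k0,k154),(k7,k169),(k2,k171),(k3,k171),(k5,
    (nat_lit 204))],[(k2,k120),(k0,k135),(k3,k152),(k5,k153),(k4,k169),(k7,(nat_lit 218))],[(k8,k131),(k9,k131)],[(k1,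
    k120),(k6,k131)],[(k1,k120),(k6,k131)]]
    [] k0
    [[k2,k0,k0,k0,k1],[k1,k0,k0,k1,k1],[k0,k2,k0,k0,k0],[k0,k1,k1,k0,k0],[k0,k1,k2,k0,k0],[k0,k0,k2,k0,k0]]
    [.ref k5 k1 [(z1,[z1])],.ref k1 k1 [(z1,[z1])],.contra [z1],.ref k0 k1 [(z1,[y1,z1])],.ref k4 k1 [(z1,[y1,z1])],
    .contra [z1]])]⟩

/-- classes `0 0 0 1 1`, types `S0 S0 S0 N0 N1` -/
noncomputable def cU5_80 : CertX :=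
  ⟨[k0,k0,k0,k28,k29],[(true,k3,[k3,k2,k1,k0,k4]),(false,k0,[k0,k1,k2,k3,k4])],[[[([z3,z0,z0,z3,z0],z1),([z0,z1,z1,z0,
    z0],z2)],[([z2,z0,z0,z2,z0],z1),([z0,z1,z1,z0,z0],z2)],[([z3,z0,z0,z3,z0],z2),([z0,z1,z1,z0,z0],z2)],[([z5,z0,z0,
    z5,z0],z3),([z0,z5,z0,z0,z0],z3),([z0,z0,z5,z0,z0],z7)],[([z5,z0,z0,z5,z0],z3),([z0,z1,z1,z0,z0],z2)],[([z1,z0,z0,
    z1,z1],z1),([z0,z1,z0,z0,y1],z1)],[([z1,z0,z0,z1,z1],z1)],[([z1,z0,z0,z1,z0],z2),([z0,z3,z3,z0,z0],z1)],[([z1,z0,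
    z0,z1,z0],z2),([z0,z2,z2,z0,z0],z1)],[([z1,z0,z0,z1,z0],z2),([z0,z3,z3,z0,z0],z2)],[([z1,z0,z0,z1,z0],z2)],[([z1,
    z0,z1,z1,z0],z2),([z0,z3,z0,z0,z0],z1)]],[[([z1,z0,z1,z1,z0],z2),([z0,z2,z0,z0,z0],z1)],[([z1,z0,z1,z1,z0],z2),
    ([z0,z3,z0,z0,z0],z2)],[([z1,z0,z0,z1,y1],z1),([z0,z1,z0,z0,z1],z1)],[([z1,z0,z1,z1,z0],z2)],[]]],
    [.old (.leafM k2 [k3,k4,k0] [(z1,[y1,y3,z3]),(z1,[z1])] [(k1,k2,z1,[z0,z1]),(k2,k1,z1,[z0,z1])]),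
    .old (.leafM k3 [k3,k4,k0] [(z1,[y1,y2,z2]),(z1,[z1])] [(k1,k2,z1,[z0,z1]),(k2,k1,z1,[z0,z1])]),
    .old (.leafM k4 [k3,k4,k0] [(z1,[y1,y3,z3]),(z1,[z1])] [(k1,k2,z1,[z0,z1]),(k2,k1,z1,[z0,z1])]),
    .old (.lp [k40,k70,(nat_lit 210),k40,k56] [k85,k85,k70,k70,k0,k0,k85,k85,k77,k77] k0 [] (nat_lit 280) k8
    [[(k6,k40)],[(k0,k40),(k7,k40),(k2,k55),(k3,k55),(k4,k125),(k5,k125)],[(k0,k55),(k7,k55),(k2,k70),(k3,k70),(k4,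
    k140),(k5,k140)],[(k0,k55),(k7,k55),(k2,k70),(k3,k70),(k4,k140),(k5,k140)],[(k0,k125),(k7,k125),(k2,k140),(k3,
    k140),(k4,(nat_lit 210)),(k5,(nat_lit 210))],[(k0,k125),(k7,k125),(k2,k140),(k3,k140),(k4,(nat_lit 210)),(k5,
    (nat_lit 210))],[(k0,k40),(k7,k40),(k2,k55),(k3,k55),(k4,k125),(k5,k125)],[(k1,k40)],[(k8,k56)],[(k9,k56)]]
    [] k0
    [[k1,k0,k0,k1,k0],[k2,k0,k0,k2,k0],[k3,k0,k0,k3,k0],[k2,k1,k0,k2,k0],[k1,k1,k0,k1,k0],[k1,k2,k0,k1,k0],[k0,k2,k0,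
    k0,k0],[k0,k3,k0,k0,k0],[k0,k0,k0,k0,k2],[k0,k0,k0,k0,k3],[k0,k0,k0,k0,k4]]
    [.contra [z10,y2,z7],.contra [z5,y2,z2],.contra [z10,y6,z1],.contra [z10,y4,y1],.contra [z5,y1,z1],.contra [z10,
    y2,y3],.contra [z1],.contra [z2,z0,y1],.contra [z5,z2,z5,z2,y10],.contra [z5,z3,z5,z3,y15],.contra [z5,z4,z5,z4,
    y20]]),
    .old (.lp [k20,k70,k70,k20,k28] [k25,k25,k0,k0,k0,k0,k25,k25,k21,k21] k0 [] k140 k8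
    [[(k6,k20)],[(k0,k20),(k7,k20),(k2,k45),(k3,k45),(k4,k45),(k5,k45)],[(k0,k45),(k7,k45),(k2,k70),(k3,k70),(k4,k70),
    (k5,k70)],[(k0,k45),(k7,k45),(k2,k70),(k3,k70),(k4,k70),(k5,k70)],[(k0,k45),(k7,k45),(k2,k70),(k3,k70),(k4,k70),
    (k5,k70)],[(k0,k45),(k7,k45),(k2,k70),(k3,k70),(k4,k70),(k5,k70)],[(k0,k20),(k7,k20),(k2,k45),(k3,k45),(k4,k45),
    (k5,k45)],[(k1,k20)],[(k8,k28)],[(k9,k28)]]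
    [] k0
    [[k1,k0,k0,k1,k0],[k2,k0,k0,k2,k0],[k3,k0,k0,k3,k0],[k1,k1,k0,k1,k0],[k1,k0,k1,k1,k0],[k0,k0,k0,k0,k2],[k0,k0,k0,
    k0,k3],[k0,k0,k0,k0,k4]]
    [.contra [z3,y2,y7,z7],.contra [z3,y2,y4,z4],.contra [z3,y2,y1,z1],.ref k3 k0 [(z1,[z0,z1]),(z1,[y5,z1,z5]),(z1,
    [z5,y1])],.ref k3 k1 [(z1,[z0,z1]),(z1,[y5,z1,z5]),(z1,[z5,y1])],.contra [z1],.contra [z3,z1,z5,y5],.contra [z3,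
    z2,z10,y10]]),
    .old (.lp [k8,k28,k14,k6,k6] [k10,k10,k0,k0,k7,k7,k11,k11,k11,k11] k0 [] k42 k8
    [[(k6,k7)],[(k7,k7),(k0,k8),(k4,k11),(k5,k11),(k2,k18),(k3,k18)],[(k7,k17),(k0,k18),(k4,k21),(k5,k21),(k2,k28),
    (k3,k28)],[(k7,k17),(k0,k18),(k4,k21),(k5,k21),(k2,k28),(k3,k28)],[(k7,k10),(k0,k11),(k4,k14),(k5,k14),(k2,k21),
    (k3,k21)],[(k7,k10),(k0,k11),(k4,k14),(k5,k14),(k2,k21),(k3,k21)],[(k7,k6),(k0,k7),(k4,k10),(k5,k10),(k2,k17),(k3,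
    k17)],[(k1,k7)],[(k8,k6)],[(k9,k6)]]
    [] k0
    [[k1,k0,k0,k1,k0],[k2,k0,k0,k2,k0],[k1,k0,k1,k1,k0],[k0,k0,k2,k0,k0],[k0,k0,k0,k0,k2],[k0,k0,k0,k0,k3],[k0,k0,k0,
    k0,k4],[k0,k0,k0,k0,k5],[k0,k0,k0,k0,k6]]
    [.contra [y1,z1,z1],.contra [y1,z2,z2],.contra [y1,z0,z1,z1],.contra [y1,y2,z0,z2],.contra [z1],.ref k0 k1 [(z1,
    [y1,z3]),(z1,[z0,y1,z0,z1])],.ref k1 k1 [(z2,[y1,z4]),(z1,[z0,y1,z0,z1])],.ref k4 k1 [(z1,[y1,z5]),(z1,[z0,y1,z0,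
    z1])],.ref k2 k1 [(z2,[y1,z6]),(z1,[z0,y1,z0,z1])]]),
    .old (.lp [k8,k14,k28,k6,k6] [k10,k10,k7,k7,k0,k0,k11,k11,k11,k11] k0 [] k42 k8
    [[(k6,k7)],[(k7,k7),(k0,k8),(k2,k11),(k3,k11),(k4,k18),(k5,k18)],[(k7,k10),(k0,k11),(k2,k14),(k3,k14),(k4,k21),
    (k5,k21)],[(k7,k10),(k0,k11),(k2,k14),(k3,k14),(k4,k21),(k5,k21)],[(k7,k17),(k0,k18),(k2,k21),(k3,k21),(k4,k28),
    (k5,k28)],[(k7,k17),(k0,k18),(k2,k21),(k3,k21),(k4,k28),(k5,k28)],[(k7,k6),(k0,k7),(k2,k10),(k3,k10),(k4,k17),(k5,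
    k17)],[(k1,k7)],[(k8,k6)],[(k9,k6)]]
    [] k0
    [[k1,k0,k0,k1,k0],[k2,k0,k0,k2,k0],[k1,k1,k0,k1,k0],[k0,k2,k0,k0,k0],[k0,k0,k0,k0,k2],[k0,k0,k0,k0,k3],[k0,k0,k0,
    k0,k4],[k0,k0,k0,k0,k5],[k0,k0,k0,k0,k6]]
    [.contra [y2,z1,z1],.contra [y1,z2],.ref k5 k1 [(z1,[z0,z1]),(z1,[z1,y1])],.contra [z1],.contra [z1],
    .ref k0 k1 [(z1,[y1,z3]),(z1,[z0,y1,z1])],.ref k1 k1 [(z2,[y1,z4]),(z1,[z0,y1,z1])],.ref k4 k1 [(z1,[y1,z5]),(z1,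
    [z0,y1,z1])],.ref k2 k1 [(z2,[y1,z6]),(z1,[z0,y1,z1])]]),
    .old (.leafM k2 [k2,k4,k1] [(z1,[y3,y1,z3]),(z1,[z0,z1])] [(k3,k0,z1,[z1]),(k0,k3,z1,[z1])]),
    .old (.leafM k3 [k2,k4,k1] [(z1,[y2,y1,z2]),(z1,[z0,z1])] [(k3,k0,z1,[z1]),(k0,k3,z1,[z1])]),
    .old (.leafM k4 [k2,k4,k1] [(z1,[y3,y1,z3]),(z1,[z0,z1])] [(k3,k0,z1,[z1]),(k0,k3,z1,[z1])]),
    .old (.lp [(nat_lit 300),(nat_lit 315),(nat_lit 350),k120,k168] [k135,k135,(nat_lit 225),k30,k0,(nat_lit 220),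
    (nat_lit 225),(nat_lit 225),(nat_lit 201),(nat_lit 201)] k0 [[k0,k0,k35,k35],[k0,k0,k0,k0,k0,(nat_lit 420)],[k0,
    k35],[k0,k35],[(nat_lit 420)]] (nat_lit 840) k8
    [[(k6,(nat_lit 210))],[(k2,k175),(k5,k180),(k0,(nat_lit 300)),(k3,(nat_lit 405)),(k4,(nat_lit 435)),(k7,
    (nat_lit 630))],[(k4,k120),(k7,(nat_lit 315)),(k2,(nat_lit 350)),(k5,(nat_lit 355)),(k0,(nat_lit 405)),(k3,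
    (nat_lit 510))],[(k2,k120),(k7,k120),(k5,k125),(k0,k175),(k4,(nat_lit 345)),(k3,(nat_lit 350))],[(k2,k125),(k7,
    k125),(k5,k130),(k0,k180),(k4,(nat_lit 350)),(k3,(nat_lit 355))],[(k3,k120),(k2,(nat_lit 345)),(k7,(nat_lit 345)),
    (k5,(nat_lit 350)),(k0,(nat_lit 435)),(k4,(nat_lit 570))],[(k2,k120),(k7,k120),(k5,k125),(k3,(nat_lit 315)),(k4,
    (nat_lit 345)),(k0,(nat_lit 630))],[(k1,(nat_lit 210))],[(k8,k168)],[(k9,k168)]]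
    [] k0
    [[k1,k1,k0,k1,k0],[k1,k1,k1,k1,k0],[k1,k0,k1,k1,k0],[k0,k2,k0,k0,k0],[k0,k2,k1,k0,k0],[k0,k1,k1,k0,k0],[k0,k2,k2,
    k0,k0],[k0,k3,k3,k0,k0],[k0,k1,k2,k0,k0],[k0,k0,k2,k0,k0],[k0,k0,k0,k0,k2],[k0,k0,k0,k0,k3],[k0,k0,k0,k0,k4]]
    [.contra [z1,y1],.contra [y1,z0,z1],.contra [z1,y1],.contra [z1],.contra [y1,y2,z2],.contra [y1,y2,z2],
    .contra [y1,y2,z2],.ref k9 k1 [(z1,[z0,z1]),(z1,[z1])],.contra [y1,y2,z2],.contra [z1],.contra [z1],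
    .ref k7 k1 [(z1,[z0,z1]),(z1,[y1,y3,z3])],.ref k8 k1 [(z1,[z0,z1]),(z2,[y1,y4,z4])]]),
    .old (.leafM k4 [k3,k4,k0,k1,k2] [(z1,[y3,y1,z3]),(z1,[z0,z1])] []),
    .old (.leafM k5 [k3,k4,k0,k1,k2] [(z1,[y2,y1,z2]),(z1,[z0,z1])] []),
    .old (.leafM k6 [k3,k4,k0,k1,k2] [(z1,[y3,y1,z3]),(z1,[z0,z1])] []),
    .old (.lp [k22,k10,k10,k8,k8] [k0,k0,k6,k6,k6,k6,k7,k7,k7,k7] k0 [] k40 k6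
    [[(k6,k15)],[(k7,k15),(k2,k16),(k3,k16),(k4,k16),(k5,k16),(k0,k22)],[(k7,k9),(k2,k10),(k3,k10),(k4,k10),(k5,k10),
    (k0,k16)],[(k7,k9),(k2,k10),(k3,k10),(k4,k10),(k5,k10),(k0,k16)],[(k7,k9),(k2,k10),(k3,k10),(k4,k10),(k5,k10),(k0,
    k16)],[(k7,k9),(k2,k10),(k3,k10),(k4,k10),(k5,k10),(k0,k16)],[(k7,k8),(k2,k9),(k3,k9),(k4,k9),(k5,k9),(k0,k15)],
    [(k1,k15)],[(k8,k8)],[(k9,k8)]]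
    [] k0
    [[k1,k0,k0,k1,k0],[k0,k2,k0,k0,k0],[k0,k3,k0,k0,k0],[k0,k2,k1,k0,k0],[k0,k1,k1,k0,k0],[k0,k1,k2,k0,k0],[k0,k0,k2,
    k0,k0],[k0,k0,k3,k0,k0],[k0,k0,k0,k0,k2],[k0,k0,k0,k0,k3],[k0,k0,k0,k0,k4]]
    [.contra [z1,y1],.contra [z1],.ref k13 k1 [(z1,[z0,z0,y1,z1]),(z1,[z1])],.ref k13 k1 [(z1,[z0,z0,y1,z1]),(z1,[z1,
    z1,z2,y1])],.contra [z1,z1,z2,y1],.ref k13 k1 [(z1,[z0,z0,y1,z1]),(z1,[z1,z2,z4,y2])],.contra [z1,z2,z4,y2],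
    .ref k13 k1 [(z1,[z0,z0,y1,z1]),(z1,[z1,z3,z6,y3])],.contra [z1],.ref k11 k1 [(z1,[z0,z0,y1,z1]),(z1,[y1,z0,z3])],
    .ref k12 k1 [(z1,[z0,z0,y1,z1]),(z2,[y1,z0,z4])]]),
    .old (.lp [k12,k10,k20,k8,k8] [k4,k4,k5,k5,k0,k0,k6,k6,k6,k6] k0 [] k40 k6
    [[(k6,k10)],[(k7,k10),(k2,k11),(k3,k11),(k0,k12),(k4,k16),(k5,k16)],[(k7,k9),(k2,k10),(k3,k10),(k0,k11),(k4,k15),
    (k5,k15)],[(k7,k9),(k2,k10),(k3,k10),(k0,k11),(k4,k15),(k5,k15)],[(k7,k14),(k2,k15),(k3,k15),(k0,k16),(k4,k20),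
    (k5,k20)],[(k7,k14),(k2,k15),(k3,k15),(k0,k16),(k4,k20),(k5,k20)],[(k7,k8),(k2,k9),(k3,k9),(k0,k10),(k4,k14),(k5,
    k14)],[(k1,k10)],[(k8,k8)],[(k9,k8)]]
    [] k0
    [[k1,k0,k0,k1,k0],[k1,k1,k0,k1,k0],[k0,k2,k0,k0,k0],[k0,k3,k0,k0,k0],[k0,k1,k1,k0,k0],[k0,k0,k0,k0,k2],[k0,k0,k0,
    k0,k3],[k0,k0,k0,k0,k4]]
    [.contra [y1,z1],.ref k14 k1 [(z1,[z1,z1,y1]),(z1,[z0,y1,z1])],.contra [z1],.ref k13 k1 [(z1,[z0,z1]),(z1,[z1])],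
    .ref k6 k1 [(z1,[y1,z0,z1])],.contra [z1],.ref k11 k1 [(z1,[z0,z1]),(z1,[y1,y3,z3])],.ref k12 k1 [(z1,[z0,z1]),
    (z2,[y1,y4,z4])]]),
    .old (.lp [k60,k78,k78,k60,k80] [k10,k10,k1,k1,k1,k1,k10,k10,k0,k0] k0 [[k0,k0,k6,k6],[],[k0,k6,k0,k0,k6],[k0,k6,k0,
    k0,k6],[],[k0,k0,k6,k6]] (nat_lit 240) k5
    [[(k6,k60)],[(k0,k60),(k7,k60),(k2,k63),(k5,k63),(k3,k69),(k4,k69)],[(k0,k69),(k7,k69),(k3,k78),(k4,k78),(k2,k84),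
    (k5,k84)],[(k0,k63),(k7,k63),(k2,k78),(k5,k78),(k3,k84),(k4,k84)],[(k0,k63),(k7,k63),(k2,k78),(k5,k78),(k3,k84),
    (k4,k84)],[(k0,k69),(k7,k69),(k3,k78),(k4,k78),(k2,k84),(k5,k84)],[(k0,k60),(k7,k60),(k2,k63),(k5,k63),(k3,k69),
    (k4,k69)],[(k1,k60)],[(k8,k80)],[(k9,k80)]]
    [] k0
    [[k1,k0,k0,k1,k0],[k1,k1,k0,k1,k0],[k1,k0,k1,k1,k0],[k0,k2,k0,k0,k0],[k0,k1,k1,k0,k0],[k0,k0,k2,k0,k0],[k0,k0,k0,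
    k0,k2]]
    [.ref k10 k1 [(z1,[z1])],.ref k15 k0 [(z1,[z1])],.ref k15 k1 [(z1,[z1])],.contra [z1],.ref k6 k1 [(z1,[y1,z1])],
    .contra [z1],.contra [z1]])]⟩

/-- classes `0 0 0 1 1`, types `S0 S0 S0 N0 N2` -/
noncomputable def cU5_81 : CertX :=
  ⟨[k0,k0,k0,k28,k30],[(false,k0,[k0,k1,k2,k3,k4])],[[[([z1,z0,z0,z1,z1],z1)],[([z1,z0,z0,z1,z1],z2)],[]]],
    [.old (.leafM k1 [k0,k3,k4] [] [(k1,k2,z1,[y1,z1]),(k2,k1,z1,[y1,z1])]),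
    .old (.leafM k3 [k3,k4,k0,k1,k2] [(z1,[y1,z1])] []),
    .old (.lp [k6,k8,k8,k6,k6] [k1,k1,k0,k0,k0,k0,k1,k1,k1,k1] k0 [] k24 k5
    [[(k9,k6)],[(k0,k6),(k7,k6),(k2,k7),(k3,k7),(k4,k7),(k5,k7)],[(k0,k7),(k7,k7),(k2,k8),(k3,k8),(k4,k8),(k5,k8)],
    [(k0,k7),(k7,k7),(k2,k8),(k3,k8),(k4,k8),(k5,k8)],[(k0,k7),(k7,k7),(k2,k8),(k3,k8),(k4,k8),(k5,k8)],[(k0,k7),(k7,
    k7),(k2,k8),(k3,k8),(k4,k8),(k5,k8)],[(k0,k6),(k7,k6),(k2,k7),(k3,k7),(k4,k7),(k5,k7)],[(k8,k6)],[(k1,k6)],[(k6,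
    k6)]]
    [] k0
    [[k1,k0,k0,k1,k1],[k0,k2,k0,k0,k0],[k0,k1,k1,k0,k0],[k0,k0,k2,k0,k0]]
    [.ref k1 k0 [(z1,[z1])],.contra [z1],.ref k0 k0 [(z1,[y1,z1])],.contra [z1]])]⟩

/-- classes `0 0 0 1 2`, types `C0 C0 C0 C0 C0` -/
noncomputable def cU5_82 : CertX :=
  ⟨[k4,k4,k4,k20,k36],[(false,k0,[k0,k1,k2,k3,k4])],[[[([z1,z0,z0,z1,z1],z1)],[([z1,z0,z0,z1,z1],z2)],[]]],
    [.old (.leafM k0 [k0,k3,k4] [] [(k1,k2,z1,[y1,z1]),(k2,k1,z1,[y1,z1])]),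
    .old (.leafM k1 [k0,k1,k2,k3,k4] [(z1,[y1,z1])] []),
    .old (.lp [k6,k8,k8,k6,k6] [k1,k1,k0,k0,k0,k0,k1,k1,k1,k1] k0 [] k24 k5
    [[(k8,k6)],[(k7,k6),(k3,k7),(k5,k7)],[(k0,k7),(k2,k8),(k4,k8)],[(k7,k7),(k3,k8),(k5,k8)],[(k0,k7),(k2,k8),(k4,
    k8)],[(k7,k7),(k3,k8),(k5,k8)],[(k0,k6),(k2,k7),(k4,k7)],[(k9,k6)],[(k6,k6)],[(k1,k6)]]
    [] k0
    [[k1,k0,k0,k1,k1],[k0,k2,k0,k0,k0],[k0,k1,k1,k0,k0],[k0,k0,k2,k0,k0]]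
    [.ref k1 k0 [(z1,[z1])],.contra [z1],.ref k0 k0 [(z1,[y1,z1])],.contra [z1]])]⟩

/-- classes `0 0 0 1 2`, types `C0 C0 C0 C0 S0` -/
noncomputable def cU5_83 : CertX :=
  ⟨[k4,k4,k4,k20,k32],[(false,k0,[k0,k1,k2,k3,k4])],[[[([z1,z0,z0,z1,z1],z1)],[([z1,z0,z0,z1,z1],z2)],[]]],
    [.old (.leafM k0 [k0,k3,k4] [] [(k1,k2,z1,[y1,z1]),(k2,k1,z1,[y1,z1])]),
    .old (.leafM k1 [k0,k1,k2,k3,k4] [(z1,[y1,z1])] []),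
    .old (.lp [k6,k8,k8,k6,k6] [k1,k1,k0,k0,k0,k0,k1,k1,k1,k1] k0 [] k24 k5
    [[(k1,k6),(k8,k6)],[(k7,k6),(k3,k7),(k5,k7)],[(k0,k7),(k2,k8),(k4,k8)],[(k7,k7),(k3,k8),(k5,k8)],[(k0,k7),(k2,k8),
    (k4,k8)],[(k7,k7),(k3,k8),(k5,k8)],[(k0,k6),(k2,k7),(k4,k7)],[(k9,k6)],[(k6,k6)],[(k1,k6),(k8,k6)]]
    [] k0
    [[k1,k0,k0,k1,k1],[k0,k2,k0,k0,k0],[k0,k1,k1,k0,k0],[k0,k0,k2,k0,k0]]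
    [.ref k1 k0 [(z1,[z1])],.contra [z1],.ref k0 k0 [(z1,[y1,z1])],.contra [z1]])]⟩

/-- classes `0 0 0 1 2`, types `C0 C0 C0 S0 S0` -/
noncomputable def cU5_84 : CertX :=
  ⟨[k4,k4,k4,k16,k32],[(false,k0,[k0,k1,k2,k3,k4])],[[[([z1,z0,z0,z1,z1],z1)],[([z1,z0,z0,z1,z1],z2)],[]]],
    [.old (.leafM k0 [k0,k3,k4] [] [(k1,k2,z1,[y1,z1]),(k2,k1,z1,[y1,z1])]),
    .old (.leafM k1 [k0,k1,k2,k3,k4] [(z1,[y1,z1])] []),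
    .old (.lp [k6,k8,k8,k6,k6] [k1,k1,k0,k0,k0,k0,k1,k1,k1,k1] k0 [] k24 k5
    [[(k1,k6),(k8,k6)],[(k7,k6),(k3,k7),(k5,k7)],[(k0,k7),(k2,k8),(k4,k8)],[(k7,k7),(k3,k8),(k5,k8)],[(k0,k7),(k2,k8),
    (k4,k8)],[(k7,k7),(k3,k8),(k5,k8)],[(k0,k6),(k2,k7),(k4,k7)],[(k6,k6),(k9,k6)],[(k6,k6),(k9,k6)],[(k1,k6),(k8,
    k6)]]
    [] k0
    [[k1,k0,k0,k1,k1],[k0,k2,k0,k0,k0],[k0,k1,k1,k0,k0],[k0,k0,k2,k0,k0],[k0,k0,k0,k0,k2]]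
    [.ref k1 k0 [(z1,[z1])],.contra [z1],.ref k0 k0 [(z1,[y1,z1])],.contra [z1],.contra [z1]])]⟩

/-- classes `0 0 0 1 2`, types `C0 C0 C2 C0 C0` -/
noncomputable def cU5_85 : CertX :=
  ⟨[k4,k4,k6,k20,k36],[],[[[]]],
    [.old (.lp [k4,k4,k2,k4,k2] [k0,k0,k0,k0,k1,k1,k0,k0,k1,k1] k0 [] k12 k5
    [[(k8,k3)],[(k4,k3),(k5,k3),(k3,k4)],[(k0,k4),(k2,k4),(k7,k4)],[(k4,k3),(k5,k3),(k3,k4)],[(k0,k3),(k2,k3),(k7,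
    k3)],[(k0,k3),(k2,k3),(k7,k3)],[(k4,k3),(k5,k3),(k3,k4)],[(k9,k3)],[(k6,k3)],[(k1,k3)]]
    [] k0
    [[k0,k2,k0,k0,k0]]
    [.contra [z1]])]⟩

/-- classes `0 0 0 1 2`, types `C0 C0 C2 C0 S0` -/
noncomputable def cU5_86 : CertX :=
  ⟨[k4,k4,k6,k20,k32],[],[[[]]],
    [.old (.lp [k18,k16,k12,k12,k12] [k0,k0,k1,k1,k3,k3,k3,k3,k3,k3] k0 [] k48 k5
    [[(k8,k15),(k1,k18)],[(k4,k15),(k5,k15),(k3,k17)],[(k7,k14),(k2,k16),(k0,k17)],[(k4,k14),(k5,k14),(k3,k16)],[(k7,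
    k12),(k2,k14),(k0,k15)],[(k7,k12),(k2,k14),(k0,k15)],[(k4,k12),(k5,k12),(k3,k14)],[(k9,k12)],[(k6,k12)],[(k8,k12),
    (k1,k15)]]
    [] k0
    [[k0,k2,k0,k0,k0]]
    [.contra [z1]])]⟩

/-- classes `0 0 0 1 2`, types `C0 C0 C2 S0 C0` -/
noncomputable def cU5_87 : CertX :=
  ⟨[k4,k4,k6,k16,k36],[],[[[]]],
    [.old (.lp [k12,k16,k12,k18,k12] [k3,k3,k1,k1,k3,k3,k0,k0,k3,k3] k0 [] k48 k5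
    [[(k8,k12)],[(k4,k12),(k5,k12),(k3,k14)],[(k0,k14),(k2,k16),(k7,k17)],[(k4,k14),(k5,k14),(k3,k16)],[(k0,k12),(k2,
    k14),(k7,k15)],[(k0,k12),(k2,k14),(k7,k15)],[(k4,k15),(k5,k15),(k3,k17)],[(k9,k15),(k6,k18)],[(k9,k12),(k6,k15)],
    [(k1,k12)]]
    [] k0
    [[k0,k2,k0,k0,k0]]
    [.contra [z1]])]⟩

/-- classes `0 0 0 1 2`, types `C0 C0 C2 S0 S0` -/
noncomputable def cU5_88 : CertX :=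
  ⟨[k4,k4,k6,k16,k32],[],[[[]]],
    [.old (.lp [k48,k18,k46,k36,k30] [k0,k10,k20,k20,k6,k6,k14,k8,k14,k14] k0 [[k0,k0,k22],[],[k0,k0,k0,k0,k0,k2],[k0,k22],
    [k0,k0,k0,k2]] k120 k5
    [[(k8,k34),(k1,k38)],[(k5,k30),(k3,k38),(k4,k52)],[(k7,k30),(k0,k38),(k2,k40)],[(k4,k30),(k5,k32),(k3,k40)],[(k0,
    k30),(k2,k32),(k7,k46)],[(k2,k30),(k7,k44),(k0,k52)],[(k3,k30),(k4,k44),(k5,k46)],[(k6,k30),(k9,k30)],[(k6,k30),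
    (k9,k30)],[(k8,k30),(k1,k34)]]
    [] k0
    [[k0,k2,k0,k0,k0],[k0,k0,k0,k0,k2]]
    [.contra [z1],.contra [z1]])]⟩

/-- classes `0 0 0 1 2`, types `C0 C2 C0 C0 C0` -/
noncomputable def cU5_89 : CertX :=
  ⟨[k4,k6,k4,k20,k36],[(false,k0,[k0,k1,k2,k3,k4])],[[[([z1,z0,z0,z1,z1],z1)],[([z1,z0,z0,z1,z1],z2)],[]]],
    [.old (.leafM k0 [k0,k3,k4] [] [(k1,k2,z1,[y1,z1]),(k2,k1,z1,[y1,z1])]),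
    .old (.leafM k1 [k0,k1,k2,k3,k4] [(z1,[y1,z1])] []),
    .old (.lp [k2,k2,k2,k2,k2] [k0,k0,k0,k0,k0,k0,k0,k0,k0,k0] k0 [] k8 k5
    [[(k8,k2)],[(k2,k2),(k3,k2),(k7,k2)],[(k0,k2),(k4,k2),(k5,k2)],[(k0,k2),(k4,k2),(k5,k2)],[(k2,k2),(k3,k2),(k7,
    k2)],[(k2,k2),(k3,k2),(k7,k2)],[(k0,k2),(k4,k2),(k5,k2)],[(k9,k2)],[(k6,k2)],[(k1,k2)]]
    [] k0
    [[k1,k0,k0,k1,k1],[k0,k1,k1,k0,k0]]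
    [.ref k1 k0 [(z1,[z1])],.ref k0 k0 [(z1,[y1,z1])]])]⟩

/-- classes `0 0 0 1 2`, types `C0 C2 C0 C0 S0` -/
noncomputable def cU5_90 : CertX :=
  ⟨[k4,k6,k4,k20,k32],[(false,k0,[k0,k1,k2,k3,k4])],[[[([z1,z0,z0,z1,z1],z1)],[([z1,z0,z0,z1,z1],z2)],[]]],
    [.old (.leafM k0 [k0,k3,k4] [] [(k1,k2,z1,[y1,z1]),(k2,k1,z1,[y1,z1])]),
    .old (.leafM k1 [k0,k1,k2,k3,k4] [(z1,[y1,z1])] []),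
    .old (.lp [k6,k4,k4,k4,k4] [k0,k0,k1,k1,k1,k1,k1,k1,k1,k1] k0 [] k16 k5
    [[(k8,k5),(k1,k6)],[(k2,k5),(k3,k5),(k7,k5)],[(k4,k4),(k5,k4),(k0,k5)],[(k4,k4),(k5,k4),(k0,k5)],[(k2,k4),(k3,k4),
    (k7,k4)],[(k2,k4),(k3,k4),(k7,k4)],[(k4,k4),(k5,k4),(k0,k5)],[(k9,k4)],[(k6,k4)],[(k8,k4),(k1,k5)]]
    [] k0
    [[k1,k0,k0,k1,k1],[k0,k1,k1,k0,k0]]
    [.ref k1 k0 [(z1,[z1])],.ref k0 k0 [(z1,[y1,z1])]])]⟩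

/-- classes `0 0 0 1 2`, types `C0 C2 C0 S0 S0` -/
noncomputable def cU5_91 : CertX :=
  ⟨[k4,k6,k4,k16,k32],[(false,k0,[k0,k1,k2,k3,k4])],[[[([z1,z0,z0,z1,z1],z1)],[([z1,z0,z0,z1,z1],z2)],[]]],
    [.old (.leafM k0 [k0,k3,k4] [] [(k1,k2,z1,[y1,z1]),(k2,k1,z1,[y1,z1])]),
    .old (.leafM k1 [k0,k1,k2,k3,k4] [(z1,[y1,z1])] []),
    .old (.lp [k12,k16,k0,k20,k10] [k4,k4,k2,k2,k10,k10,k0,k0,k5,k5] k0 [] k40 k6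
    [[(k8,k11),(k1,k12)],[(k2,k14),(k3,k14),(k7,k16)],[(k4,k8),(k5,k8),(k0,k14)],[(k4,k8),(k5,k8),(k0,k14)],[(k2,k8),
    (k3,k8),(k7,k10)],[(k2,k8),(k3,k8),(k7,k10)],[(k4,k10),(k5,k10),(k0,k16)],[(k9,k15),(k6,k20)],[(k9,k10),(k6,k15)],
    [(k8,k10),(k1,k11)]]
    [] k0
    [[k0,k1,k1,k0,k0],[k0,k2,k2,k0,k0],[k0,k0,k0,k0,k2]]
    [.ref k0 k0 [(z1,[y1,z1])],.ref k1 k0 [(z2,[y1,z2])],.contra [z1]])]⟩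

/-- classes `0 0 0 1 2`, types `S0 S0 S0 C0 C0` -/
noncomputable def cU5_92 : CertX :=
  ⟨[k0,k0,k0,k20,k36],[(false,k0,[k0,k1,k2,k3,k4])],[[[([z1,z0,z0,z1,z1],z1)],[([z1,z0,z0,z1,z1],z2)],[]]],
    [.old (.leafM k0 [k0,k3,k4] [] [(k1,k2,z1,[y1,z1]),(k2,k1,z1,[y1,z1])]),
    .old (.leafM k0 [k1,k2,k3,k4,k0] [(z1,[y1,z1])] []),
    .old (.lp [k6,k8,k8,k6,k6] [k1,k1,k0,k0,k0,k0,k1,k1,k1,k1] k0 [] k24 k5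
    [[(k8,k6)],[(k0,k6),(k7,k6),(k2,k7),(k3,k7),(k4,k7),(k5,k7)],[(k0,k7),(k7,k7),(k2,k8),(k3,k8),(k4,k8),(k5,k8)],
    [(k0,k7),(k7,k7),(k2,k8),(k3,k8),(k4,k8),(k5,k8)],[(k0,k7),(k7,k7),(k2,k8),(k3,k8),(k4,k8),(k5,k8)],[(k0,k7),(k7,
    k7),(k2,k8),(k3,k8),(k4,k8),(k5,k8)],[(k0,k6),(k7,k6),(k2,k7),(k3,k7),(k4,k7),(k5,k7)],[(k9,k6)],[(k6,k6)],[(k1,
    k6)]]
    [] k0
    [[k1,k0,k0,k1,k1],[k0,k2,k0,k0,k0],[k0,k1,k1,k0,k0],[k0,k0,k2,k0,k0]]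
    [.ref k1 k0 [(z1,[z1])],.contra [z1],.ref k0 k0 [(z1,[y1,z1])],.contra [z1]])]⟩

/-- classes `0 0 0 1 2`, types `S0 S0 S0 C0 S0` -/
noncomputable def cU5_93 : CertX :=
  ⟨[k0,k0,k0,k20,k32],[(false,k0,[k0,k1,k2,k3,k4])],[[[([z1,z1,z1,z0,z0],z2)],[([z1,z0,z0,z1,z1],z1)],[([z1,z0,z0,z1,
    z1],z2)],[]]],
    [.old (.leafM k0 [k3,k4,k0,k1,k2] [(z1,[y1,z1])] []),
    .old (.leafM k0 [k0,k3,k4] [] [(k1,k2,z1,[y1,z1]),(k2,k1,z1,[y1,z1])]),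
    .old (.leafM k0 [k1,k2,k3,k4,k0] [(z1,[y1,z1])] []),
    .old (.lp [k64,k120,k70,k48,k48] [k34,k34,k12,k0,k31,k31,k42,k42,k42,k42] k0 [[],[k0,k0,k2,k0,k42],[k0,k0,k0,k0,k30],
    [k2],[],[k42,k0,k0,k30]] (nat_lit 240) k6
    [[(k8,k56),(k1,k64)],[(k7,k56),(k0,k64),(k5,k67),(k2,k88),(k3,k98),(k4,k109)],[(k7,k48),(k0,k98),(k5,k99),(k4,
    k101),(k2,k120),(k3,k132)],[(k7,k48),(k0,k88),(k4,k89),(k5,k89),(k2,k108),(k3,k120)],[(k7,k59),(k0,k67),(k5,k70),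
    (k2,k89),(k3,k99),(k4,k100)],[(k7,k59),(k4,k70),(k2,k89),(k5,k100),(k3,k101),(k0,k109)],[(k2,k48),(k3,k48),(k7,
    k48),(k0,k56),(k4,k59),(k5,k59)],[(k9,k48)],[(k6,k48)],[(k8,k48),(k1,k56)]]
    [] k0
    [[k2,k0,k0,k0,k0],[k1,k0,k0,k1,k1],[k1,k0,k1,k1,k1],[k0,k1,k1,k0,k0],[k0,k0,k2,k0,k0],[k0,k0,k0,k2,k2]]
    [.contra [z1],.ref k2 k0 [(z1,[z1])],.contra [y1,z1],.ref k1 k0 [(z1,[y1,z1])],.contra [z1],.ref k0 k0 [(z2,[y1,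
    z2])]])]⟩

/-- classes `0 0 1 0 1`, types `C0 C0 B0 C0 B1` -/
noncomputable def cU5_94 : CertX :=
  ⟨[k4,k4,k24,k4,k25],[(false,k0,[k0,k1,k2,k3,k4])],[[[([z1,z1,z1,z0,z0],z1)],[([z1,z1,z1,z0,z0],z2)],[([z1,z0,z1,z0,
    z0],z2),([z0,z3,z0,z0,z0],z1)],[([z1,z0,z1,z0,z0],z2),([z0,z3,z0,z0,z0],z2)],[([z1,z0,z1,z0,z0],z2),([z0,z2,z0,z0,
    z0],z1)],[([z1,z0,z1,z0,z0],z2)],[]]],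
    [.old (.leafM k0 [k0,k1,k2] [] [(k3,k4,z1,[y1,z1]),(k4,k3,z1,[y1,z1])]),
    .old (.leafM k1 [k2,k3,k4,k0,k1] [(z1,[y1,z1])] []),
    .old (.leafM k4 [k4,k1,k3] [(z1,[z0,z1]),(z1,[y3,y1,z3])] [(k0,k2,z1,[z1]),(k2,k0,z1,[z1])]),
    .old (.leafM k2 [k4,k1,k3] [(z1,[z0,z1]),(z1,[y3,y1,z3])] [(k0,k2,z1,[z1]),(k2,k0,z1,[z1])]),
    .old (.leafM k3 [k4,k1,k3] [(z1,[z0,z1]),(z1,[y2,y1,z2])] [(k0,k2,z1,[z1]),(k2,k0,z1,[z1])]),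
    .old (.lp [(nat_lit 2064),(nat_lit 480),(nat_lit 336),(nat_lit 350),(nat_lit 350)] [k0,k0,(nat_lit 792),(nat_lit 792),
    (nat_lit 864),(nat_lit 864),(nat_lit 857),(nat_lit 857),(nat_lit 857),(nat_lit 857)] k0 [[k0,k0,k0,k0,k0,k0,
    (nat_lit 520)],[],[],[],[],[],[],[k0,(nat_lit 520)]] (nat_lit 2400) k8
    [[(k4,(nat_lit 1200)),(k7,(nat_lit 1207))],[(k9,(nat_lit 687)),(k5,(nat_lit 1200)),(k3,(nat_lit 1272))],[(k2,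
    (nat_lit 480)),(k6,(nat_lit 935)),(k0,(nat_lit 1272))],[(k5,(nat_lit 408)),(k9,(nat_lit 415)),(k3,(nat_lit 480))],
    [(k6,(nat_lit 343)),(k2,(nat_lit 408)),(k0,(nat_lit 1200))],[(k8,(nat_lit 343)),(k1,(nat_lit 1200))],[(k8,
    (nat_lit 350)),(k1,(nat_lit 1207))],[(k5,(nat_lit 343)),(k9,(nat_lit 350)),(k3,(nat_lit 935))],[(k6,
    (nat_lit 350)),(k2,(nat_lit 415)),(k0,(nat_lit 687))],[(k4,(nat_lit 343)),(k7,(nat_lit 350))]]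
    [] k0
    [[k0,k2,k0,k0,k0],[k0,k3,k0,k0,k0],[k0,k4,k0,k0,k0],[k0,k2,k0,k1,k1],[k0,k1,k0,k1,k1],[k0,k0,k0,k1,k1],[k0,k0,k0,
    k2,k2],[k0,k0,k0,k3,k3]]
    [.contra [z1],.ref k3 k0 [(z1,[z0,z1]),(z1,[z1])],.ref k4 k0 [(z1,[z0,z1]),(z2,[z1])],.contra [z1,z1,y1],
    .contra [y2,y1,z2],.contra [y2,y1,z2],.contra [y1,y2,z2],.ref k2 k0 [(z1,[z0,z1]),(z1,[y1,y3,z3])]]),
    .old (.lp [k30,k32,k18,k30,k30] [k1,k1,k0,k0,k7,k7,k1,k1,k1,k1] k0 [[k0,k0,k0,k0,k0,k0,k4],[],[],[],[],[],[],[k0,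
    k4]] k96 k5
    [[(k4,k24),(k7,k30)],[(k5,k24),(k9,k26),(k3,k31)],[(k0,k31),(k2,k32),(k6,k35)],[(k5,k25),(k9,k31),(k3,k32)],[(k0,
    k24),(k6,k24),(k2,k25)],[(k1,k24),(k8,k24)],[(k1,k30),(k8,k30)],[(k5,k24),(k9,k30),(k3,k35)],[(k0,k26),(k6,k30),
    (k2,k31)],[(k4,k24),(k7,k30)]]
    [] k0
    [[k1,k0,k1,k0,k0],[k1,k1,k1,k0,k0],[k0,k2,k0,k0,k0],[k0,k0,k0,k1,k1]]
    [.ref k5 k0 [(z1,[z1])],.ref k1 k0 [(z1,[z1])],.contra [z1],.ref k0 k0 [(z1,[y1,z1])]])]⟩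

/-- classes `0 0 1 0 1`, types `C0 C0 B0 C2 B1` -/
noncomputable def cU5_95 : CertX :=
  ⟨[k4,k4,k24,k6,k25],[(false,k0,[k0,k1,k2,k3,k4]),(true,k2,[k2,k1,k0,k4,k3])],[[[([z1,z1,z1,z0,z0],z1)],[([z1,z0,z0,
    z1,z0],z2)],[([z1,z0,z0,z1,z0],z1)],[([z1,z1,z1,z0,z0],z2)],[([z1,z0,z1,z0,z0],z2),([z0,z3,z0,z0,z0],z1)],[([z1,
    z0,z0,y1,y2],z0),([z0,z1,z0,z1,z1],z1)],[([z1,z0,z1,z0,z0],z2),([z0,z3,z0,z0,z0],z2)],[([z1,z0,z1,z0,z0],z2),([z0,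
    z2,z0,z0,z0],z1)],[([z1,z0,z1,z0,z0],z2)],[]]],
    [.old (.leafM k0 [k0,k1,k2] [] [(k3,k4,z1,[y1,z1]),(k4,k3,z1,[y1,z1])]),
    .old (.leafM k1 [k1,k2,k4] [] [(k3,k0,z1,[z1]),(k0,k3,z1,[z1])]),
    .old (.leafM k2 [k2,k3,k4,k0,k1] [(z1,[z1])] []),
    .old (.leafM k1 [k2,k3,k4,k0,k1] [(z1,[y1,z1])] []),
    .old (.leafM k4 [k4,k1,k3] [(z1,[z0,z1]),(z1,[y3,y1,z3])] [(k0,k2,z1,[z1]),(k2,k0,z1,[z1])]),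
    .old (.tor k21 false k0 [(z1,[y1,y1,z1]),(z1,[z0,y1,z1]),(z1,[z1,z2])]),
    .old (.leafM k2 [k4,k1,k3] [(z1,[z0,z1]),(z1,[y3,y1,z3])] [(k0,k2,z1,[z1]),(k2,k0,z1,[z1])]),
    .old (.leafM k3 [k4,k1,k3] [(z1,[z0,z1]),(z1,[y2,y1,z2])] [(k0,k2,z1,[z1]),(k2,k0,z1,[z1])]),
    .old (.lp [(nat_lit 82800),(nat_lit 20976),(nat_lit 22080),(nat_lit 9120),(nat_lit 21850)] [k0,k0,(nat_lit 30912),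
    (nat_lit 30912),(nat_lit 30360),(nat_lit 30360),(nat_lit 36840),(nat_lit 36840),(nat_lit 30475),
    (nat_lit 30475)] k0 [[k0,k0,k0,k0,k0,k0,k0,(nat_lit 22800)],[],[],[],[],[],[k0,
    (nat_lit 22800)]] (nat_lit 104880) k8
    [[(k7,(nat_lit 45960)),(k4,(nat_lit 52440))],[(k6,(nat_lit 23160)),(k3,(nat_lit 51888)),(k5,(nat_lit 52440))],
    [(k2,(nat_lit 20976)),(k9,(nat_lit 44213)),(k0,(nat_lit 51888))],[(k6,(nat_lit 15048)),(k3,(nat_lit 20976)),(k5,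
    (nat_lit 21528))],[(k2,(nat_lit 21528)),(k9,(nat_lit 21965)),(k0,(nat_lit 52440))],[(k8,(nat_lit 21965)),(k1,
    (nat_lit 52440))],[(k8,(nat_lit 15485)),(k1,(nat_lit 45960))],[(k2,(nat_lit 15048)),(k9,(nat_lit 15485)),(k0,
    (nat_lit 23160))],[(k6,(nat_lit 15485)),(k5,(nat_lit 21965)),(k3,(nat_lit 44213))],[(k7,(nat_lit 15485)),(k4,
    (nat_lit 21965))]]
    [] k0
    [[k1,k0,k0,k1,k0],[k1,k0,k0,k2,k1],[k0,k2,k0,k0,k0],[k0,k3,k0,k0,k0],[k0,k4,k0,k0,k0],[k0,k2,k0,k1,k1],[k0,k1,k1,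
    k0,k1],[k0,k1,k0,k1,k1],[k0,k0,k1,k0,k1],[k0,k0,k2,k0,k2],[k0,k0,k1,k1,k2],[k0,k0,k0,k1,k1],[k0,k0,k0,k2,k2],[k0,
    k0,k0,k3,k3]]
    [.ref k1 k0 [(z1,[z1])],.ref k5 k1 [(z1,[y1,z1]),(z1,[z0,y1,z1])],.contra [z1],.ref k6 k0 [(z1,[z0,z1]),(z1,
    [z1])],.ref k7 k0 [(z1,[z0,z1]),(z2,[z1])],.contra [z1,z1,y1],.ref k2 k0 [(z1,[y1,z0,z1])],.contra [y2,y1,z2],
    .ref k1 k1 [(z1,[z1])],.ref k2 k1 [(z2,[z1])],.ref k5 k0 [(z1,[y1,z1]),(z1,[z0,y1,z1])],.contra [y2,y1,z2],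
    .contra [y1,y2,z2],.ref k4 k0 [(z1,[z0,z1]),(z1,[y1,y3,z3])]]),
    .old (.lp [k18,k18,k6,k10,k18] [k0,k0,k0,k0,k6,k6,k4,k4,k0,k0] k0 [[k0,k0,k0,k0,k0,k0,k0,k2],[],[],[],[],[],[k0,
    k2]] k48 k5
    [[(k4,k12),(k7,k14)],[(k5,k12),(k6,k12),(k3,k18)],[(k0,k18),(k2,k18),(k9,k20)],[(k5,k12),(k6,k14),(k3,k18)],[(k0,
    k12),(k2,k12),(k9,k12)],[(k1,k12),(k8,k12)],[(k1,k14),(k8,k14)],[(k0,k12),(k2,k14),(k9,k14)],[(k5,k12),(k6,k14),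
    (k3,k20)],[(k4,k12),(k7,k14)]]
    [] k0
    [[k1,k0,k1,k0,k0],[k1,k1,k1,k0,k0],[k1,k0,k0,k1,k0],[k1,k1,k0,k1,k0],[k0,k2,k0,k0,k0],[k0,k1,k1,k0,k1],[k0,k0,k1,
    k0,k1],[k0,k0,k0,k1,k1]]
    [.ref k8 k0 [(z1,[z1])],.ref k3 k0 [(z1,[z1])],.ref k1 k0 [(z1,[z1])],.ref k2 k1 [(z1,[y1,z1])],.contra [z1],
    .ref k2 k0 [(z1,[y1,z1])],.ref k1 k1 [(z1,[z1])],.ref k0 k0 [(z1,[y1,z1])]])]⟩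

/-- classes `0 0 1 0 1`, types `C0 C0 C0 C0 C0` -/
noncomputable def cU5_96 : CertX :=
  ⟨[k4,k4,k20,k4,k20],[(false,k0,[k0,k1,k2,k3,k4]),(true,k2,[k2,k1,k0,k4,k3])],[[[([z1,z1,z1,z0,z0],z1)],[([z1,z0,z0,
    z0,z1],z2)],[([z1,z0,z0,z0,z1],z1)],[([z1,z1,z1,z0,z0],z2)],[([z1,z0,z1,z0,z0],z2),([z0,z3,z0,z0,z0],z1)],[([z1,
    z0,z1,z0,z0],z2),([z0,z3,z0,z0,z0],z2)],[([z1,z0,z1,z0,z0],z2),([z0,z2,z0,z0,z0],z1)],[([z1,z0,z0,y2,y1],z0),([z0,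
    z1,z0,z1,z1],z1)],[([z1,z0,z1,z0,z0],z2)],[]]],
    [.old (.leafM k0 [k0,k1,k2] [] [(k3,k4,z1,[y1,z1]),(k4,k3,z1,[y1,z1])]),
    .old (.leafM k0 [k1,k2,k3] [] [(k4,k0,z1,[z1]),(k0,k4,z1,[z1])]),
    .old (.leafM k1 [k3,k4,k0,k1,k2] [(z1,[z1])] []),
    .old (.leafM k1 [k2,k3,k4,k0,k1] [(z1,[y1,z1])] []),
    .old (.leafM k4 [k4,k1,k3] [(z1,[z0,z1]),(z1,[y3,y1,z3])] [(k0,k2,z1,[z1]),(k2,k0,z1,[z1])]),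
    .old (.leafM k2 [k4,k1,k3] [(z1,[z0,z1]),(z1,[y3,y1,z3])] [(k0,k2,z1,[z1]),(k2,k0,z1,[z1])]),
    .old (.leafM k3 [k4,k1,k3] [(z1,[z0,z1]),(z1,[y2,y1,z2])] [(k0,k2,z1,[z1]),(k2,k0,z1,[z1])]),
    .old (.tor k4 false k0 [(z1,[y1,y1,z1]),(z1,[z0,y1,z1]),(z1,[z1,z2])]),
    .old (.lp [k96,k70,(nat_lit 240),k0,k96] [k72,k72,k85,k85,k0,k0,k120,k120,k72,k72] k0 [[k0,k0,k0,k0,k0,k0,k32],[],[],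
    [],[],[],[],[k0,k32]] (nat_lit 336) k8
    [[(k8,k96),(k4,k168)],[(k9,k64),(k3,k83),(k5,k168)],[(k6,k67),(k2,k70),(k0,k83)],[(k3,k70),(k9,k83),(k5,k155)],
    [(k6,k120),(k2,k155),(k0,k168)],[(k7,k120),(k1,k168)],[(k8,k48),(k4,k120)],[(k9,k48),(k3,k67),(k5,k120)],[(k6,
    k48),(k0,k64),(k2,k83)],[(k7,k48),(k1,k96)]]
    [] k0
    [[k1,k0,k0,k0,k1],[k2,k0,k0,k0,k2],[k1,k1,k0,k0,k1],[k1,k2,k0,k0,k1],[k1,k0,k0,k1,k2],[k0,k2,k0,k0,k0],[k0,k3,k0,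
    k0,k0],[k0,k4,k0,k0,k0],[k0,k2,k0,k1,k1],[k0,k1,k0,k1,k1],[k0,k1,k0,k2,k2],[k0,k0,k1,k1,k0],[k0,k0,k0,k1,k1],[k0,
    k0,k0,k2,k2],[k0,k0,k0,k3,k3]]
    [.ref k1 k0 [(z1,[z1])],.ref k2 k0 [(z2,[z1])],.ref k2 k1 [(z1,[y1,z0,z1])],.ref k7 k0 [(z1,[z1,z2,y2]),(z1,[z0,
    y1,z1])],.ref k7 k1 [(z1,[y1,z1]),(z1,[z0,y1,z1])],.contra [z1],.ref k5 k0 [(z1,[z0,z1]),(z1,[z1])],
    .ref k6 k0 [(z1,[z0,z1]),(z2,[z1])],.contra [z1,z1,y1],.contra [y2,y1,z2],.contra [y1,y2,z2],.ref k1 k1 [(z1,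
    [z1])],.contra [y2,y1,z2],.contra [y1,y2,z2],.ref k4 k0 [(z1,[z0,z1]),(z1,[y1,y3,z3])]]),
    .old (.lp [k6,k18,k18,k6,k22] [k8,k8,k2,k2,k2,k2,k8,k8,k0,k0] k0 [[k0,k0,k0,k0,k0,k0,k2],[],[],[],[],[],[],[k0,
    k2]] k48 k5
    [[(k4,k12),(k8,k14)],[(k3,k12),(k5,k12),(k9,k12)],[(k0,k12),(k6,k14),(k2,k18)],[(k3,k18),(k5,k18),(k9,k20)],[(k0,
    k12),(k6,k12),(k2,k18)],[(k1,k12),(k7,k12)],[(k4,k12),(k8,k14)],[(k5,k12),(k3,k14),(k9,k14)],[(k0,k12),(k6,k14),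
    (k2,k20)],[(k1,k14),(k7,k14)]]
    [] k0
    [[k1,k0,k1,k0,k0],[k1,k1,k1,k0,k0],[k1,k0,k0,k0,k1],[k1,k1,k0,k0,k1],[k0,k2,k0,k0,k0],[k0,k1,k1,k1,k0],[k0,k0,k1,
    k1,k0],[k0,k0,k0,k1,k1]]
    [.ref k8 k0 [(z1,[z1])],.ref k3 k0 [(z1,[z1])],.ref k1 k0 [(z1,[z1])],.ref k2 k1 [(z1,[y1,z1])],.contra [z1],
    .ref k2 k0 [(z1,[y1,z1])],.ref k1 k1 [(z1,[z1])],.ref k0 k0 [(z1,[y1,z1])]])]⟩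

/-- classes `0 0 1 0 1`, types `C0 C0 C0 C0 C2` -/
noncomputable def cU5_97 : CertX :=
  ⟨[k4,k4,k20,k4,k22],[(false,k0,[k0,k1,k2,k3,k4]),(true,k2,[k2,k1,k0,k4,k3])],[[[([z1,z0,z0,z0,z1],z2)],[([z1,z0,z0,
    z0,z1],z1)],[]]],
    [.old (.leafM k0 [k1,k2,k3] [] [(k4,k0,z1,[z1]),(k0,k4,z1,[z1])]),
    .old (.leafM k1 [k3,k4,k0,k1,k2] [(z1,[z1])] []),
    .old (.lp [k6,k8,k6,k6,k6] [k1,k1,k0,k0,k1,k1,k1,k1,k1,k1] k0 [] k24 k5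
    [[(k7,k6),(k8,k6)],[(k5,k6),(k9,k6),(k3,k7)],[(k0,k7),(k6,k7),(k2,k8)],[(k5,k7),(k9,k7),(k3,k8)],[(k0,k6),(k6,k6),
    (k2,k7)],[(k7,k6),(k8,k6)],[(k1,k6),(k4,k6)],[(k5,k6),(k9,k6),(k3,k7)],[(k0,k6),(k6,k6),(k2,k7)],[(k1,k6),(k4,
    k6)]]
    [] k0
    [[k1,k0,k0,k0,k1],[k1,k1,k0,k0,k1],[k0,k2,k0,k0,k0],[k0,k1,k1,k1,k0],[k0,k0,k1,k1,k0]]
    [.ref k0 k0 [(z1,[z1])],.ref k1 k1 [(z1,[y1,z1])],.contra [z1],.ref k1 k0 [(z1,[y1,z1])],.ref k0 k1 [(z1,[z1])]])]⟩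

/-- classes `0 0 1 0 1`, types `C0 C0 C0 C2 C0` -/
noncomputable def cU5_98 : CertX :=
  ⟨[k4,k4,k20,k6,k20],[(false,k0,[k0,k1,k2,k3,k4])],[[[([z1,z1,z1,z0,z0],z1)],[([z1,z1,z1,z0,z0],z2)],[([z1,z0,z1,z0,
    z0],z2),([z0,z3,z0,z0,z0],z1)],[([z1,z0,z1,z0,z0],z2),([z0,z3,z0,z0,z0],z2)],[([z1,z0,z1,z0,z0],z2),([z0,z2,z0,z0,
    z0],z1)],[([z1,z0,z1,z0,z0],z2)],[]]],
    [.old (.leafM k0 [k0,k1,k2] [] [(k3,k4,z1,[y1,z1]),(k4,k3,z1,[y1,z1])]),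
    .old (.leafM k1 [k2,k3,k4,k0,k1] [(z1,[y1,z1])] []),
    .old (.leafM k4 [k4,k1,k3] [(z1,[z0,z1]),(z1,[y3,y1,z3])] [(k0,k2,z1,[z1]),(k2,k0,z1,[z1])]),
    .old (.leafM k2 [k4,k1,k3] [(z1,[z0,z1]),(z1,[y3,y1,z3])] [(k0,k2,z1,[z1]),(k2,k0,z1,[z1])]),
    .old (.leafM k3 [k4,k1,k3] [(z1,[z0,z1]),(z1,[y2,y1,z2])] [(k0,k2,z1,[z1]),(k2,k0,z1,[z1])]),
    .old (.lp [(nat_lit 1894),(nat_lit 1668),(nat_lit 470),(nat_lit 490),(nat_lit 490)] [k0,k0,k113,k113,(nat_lit 712),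
    (nat_lit 712),(nat_lit 702),(nat_lit 702),(nat_lit 702),(nat_lit 702)] k0 [[k0,k0,k0,k0,k0,k0,k0,(nat_lit 712)],
    [k0,k0,k0,(nat_lit 996)],[(nat_lit 996)],[],[],[],[k0,(nat_lit 712)]] (nat_lit 3360) k8
    [[(k4,(nat_lit 1182)),(k8,(nat_lit 1192))],[(k6,(nat_lit 480)),(k3,(nat_lit 1781)),(k5,(nat_lit 2178))],[(k2,
    (nat_lit 672)),(k0,(nat_lit 1781)),(k9,(nat_lit 1791))],[(k3,(nat_lit 672)),(k5,(nat_lit 1069)),(k6,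
    (nat_lit 1079))],[(k9,(nat_lit 480)),(k2,(nat_lit 1069)),(k0,(nat_lit 2178))],[(k7,(nat_lit 480)),(k1,
    (nat_lit 1182))],[(k4,(nat_lit 480)),(k8,(nat_lit 490))],[(k0,(nat_lit 480)),(k9,(nat_lit 490)),(k2,
    (nat_lit 1079))],[(k5,(nat_lit 480)),(k6,(nat_lit 490)),(k3,(nat_lit 1791))],[(k7,(nat_lit 490)),(k1,
    (nat_lit 1192))]]
    [] k0
    [[k1,k0,k1,k1,k1],[k0,k2,k0,k0,k0],[k0,k3,k0,k0,k0],[k0,k4,k0,k0,k0],[k0,k0,k0,k1,k1],[k0,k0,k0,k2,k2],[k0,k0,k0,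
    k3,k3]]
    [.contra [y1,z0,z1],.contra [z1],.ref k3 k0 [(z1,[z0,z1]),(z1,[z1])],.ref k4 k0 [(z1,[z0,z1]),(z2,[z1])],
    .contra [y2,y1,z2],.contra [y1,y2,z2],.ref k2 k0 [(z1,[z0,z1]),(z1,[y1,y3,z3])]]),
    .old (.lp [k14,k18,k10,k14,k14] [k2,k2,k0,k0,k4,k4,k2,k2,k2,k2] k0 [[k0,k0,k0,k0,k0,k0,k0,k2],[],[],[],[],[],[k0,
    k2]] k48 k5
    [[(k4,k12),(k8,k14)],[(k5,k12),(k6,k12),(k3,k16)],[(k0,k16),(k2,k18),(k9,k18)],[(k5,k14),(k6,k16),(k3,k18)],[(k0,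
    k12),(k9,k12),(k2,k14)],[(k1,k12),(k7,k12)],[(k4,k12),(k8,k14)],[(k0,k12),(k9,k14),(k2,k16)],[(k5,k12),(k6,k14),
    (k3,k18)],[(k1,k14),(k7,k14)]]
    [] k0
    [[k1,k0,k1,k0,k0],[k1,k1,k1,k0,k0],[k0,k2,k0,k0,k0],[k0,k0,k0,k1,k1]]
    [.ref k5 k0 [(z1,[z1])],.ref k1 k0 [(z1,[z1])],.contra [z1],.ref k0 k0 [(z1,[y1,z1])]])]⟩

/-- classes `0 0 1 0 1`, types `C0 C0 C0 C2 C2` -/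
noncomputable def cU5_99 : CertX :=
  ⟨[k4,k4,k20,k6,k22],[(false,k0,[k0,k1,k2,k3,k4]),(true,k2,[k2,k1,k0,k4,k3])],[[[([z1,z0,z0,z1,z0],z2)],[([z1,z0,z0,
    z1,z0],z1)],[]]],
    [.old (.leafM k1 [k1,k2,k4] [] [(k3,k0,z1,[z1]),(k0,k3,z1,[z1])]),
    .old (.leafM k2 [k2,k3,k4,k0,k1] [(z1,[z1])] []),
    .old (.lp [k6,k8,k6,k6,k6] [k1,k1,k0,k0,k1,k1,k1,k1,k1,k1] k0 [] k24 k5
    [[(k7,k6),(k8,k6)],[(k5,k6),(k6,k6),(k3,k7)],[(k0,k7),(k9,k7),(k2,k8)],[(k5,k7),(k6,k7),(k3,k8)],[(k0,k6),(k9,k6),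
    (k2,k7)],[(k7,k6),(k8,k6)],[(k1,k6),(k4,k6)],[(k0,k6),(k9,k6),(k2,k7)],[(k5,k6),(k6,k6),(k3,k7)],[(k1,k6),(k4,
    k6)]]
    [] k0
    [[k1,k0,k0,k1,k0],[k1,k1,k0,k1,k0],[k0,k2,k0,k0,k0],[k0,k1,k1,k0,k1],[k0,k0,k1,k0,k1]]
    [.ref k0 k0 [(z1,[z1])],.ref k1 k1 [(z1,[y1,z1])],.contra [z1],.ref k1 k0 [(z1,[y1,z1])],.ref k0 k1 [(z1,[z1])]])]⟩

/-- classes `0 0 1 0 1`, types `C0 C0 N0 C0 N1` -/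
noncomputable def cU5_100 : CertX :=
  ⟨[k4,k4,k28,k4,k29],[(false,k0,[k0,k1,k2,k3,k4])],[[[([z1,z1,z1,z0,z0],z1)],[([z1,z1,z1,z0,z0],z2)],[([z1,z0,z1,z0,
    z0],z2),([z0,z3,z0,z0,z0],z1)],[([z1,z0,z1,z0,z0],z2),([z0,z3,z0,z0,z0],z2)],[([z1,z0,z1,z0,z0],z2),([z0,z2,z0,z0,
    z0],z1)],[([z1,z0,z1,z0,z0],z2)],[]]],
    [.old (.leafM k0 [k0,k1,k2] [] [(k3,k4,z1,[y1,z1]),(k4,k3,z1,[y1,z1])]),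
    .old (.leafM k1 [k2,k3,k4,k0,k1] [(z1,[y1,z1])] []),
    .old (.leafM k4 [k4,k1,k3] [(z1,[z0,z1]),(z1,[y3,y1,z3])] [(k0,k2,z1,[z1]),(k2,k0,z1,[z1])]),
    .old (.leafM k2 [k4,k1,k3] [(z1,[z0,z1]),(z1,[y3,y1,z3])] [(k0,k2,z1,[z1]),(k2,k0,z1,[z1])]),
    .old (.leafM k3 [k4,k1,k3] [(z1,[z0,z1]),(z1,[y2,y1,z2])] [(k0,k2,z1,[z1]),(k2,k0,z1,[z1])]),
    .old (.lp [(nat_lit 702),(nat_lit 834),(nat_lit 480),k0,(nat_lit 490)] [k66,k66,k0,k0,k177,k177,(nat_lit 417),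
    (nat_lit 417),k172,k172] k0 [[k0,k0,k0,k0,k0,k0,(nat_lit 356)],[k0,k0,k0,(nat_lit 498)],[(nat_lit 498)],[],[],[],
    [],[k0,(nat_lit 356)]] (nat_lit 1680) k8
    [[(k4,(nat_lit 591))],[(k9,(nat_lit 240)),(k3,(nat_lit 768)),(k5,(nat_lit 1089))],[(k2,(nat_lit 336)),(k0,
    (nat_lit 768)),(k6,(nat_lit 773))],[(k3,(nat_lit 336)),(k5,(nat_lit 657)),(k9,(nat_lit 662))],[(k6,(nat_lit 240)),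
    (k2,(nat_lit 657)),(k0,(nat_lit 1089))],[(k1,(nat_lit 591))],[(k8,(nat_lit 245))],[(k5,(nat_lit 240)),(k9,
    (nat_lit 245)),(k3,(nat_lit 773))],[(k0,(nat_lit 240)),(k6,(nat_lit 245)),(k2,(nat_lit 662))],[(k7,
    (nat_lit 245))]]
    [] k0
    [[k1,k0,k1,k1,k1],[k0,k2,k0,k0,k0],[k0,k3,k0,k0,k0],[k0,k4,k0,k0,k0],[k0,k0,k0,k1,k1],[k0,k0,k0,k2,k2],[k0,k0,k0,
    k3,k3]]
    [.contra [y1,z0,z1],.contra [z1],.ref k3 k0 [(z1,[z0,z1]),(z1,[z1])],.ref k4 k0 [(z1,[z0,z1]),(z2,[z1])],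
    .contra [y2,y1,z2],.contra [y1,y2,z2],.ref k2 k0 [(z1,[z0,z1]),(z1,[y1,y3,z3])]]),
    .old (.lp [k6,k18,k18,k6,k22] [k8,k8,k2,k2,k2,k2,k8,k8,k0,k0] k0 [[k0,k0,k0,k0,k0,k0,k2],[],[],[],[],[],[],[k0,
    k2]] k48 k5
    [[(k4,k12)],[(k3,k12),(k5,k12),(k9,k12)],[(k0,k12),(k6,k14),(k2,k18)],[(k3,k18),(k5,k18),(k9,k20)],[(k0,k12),(k6,
    k12),(k2,k18)],[(k1,k12)],[(k8,k14)],[(k5,k12),(k3,k14),(k9,k14)],[(k0,k12),(k6,k14),(k2,k20)],[(k7,k14)]]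
    [] k0
    [[k1,k0,k1,k0,k0],[k1,k1,k1,k0,k0],[k0,k2,k0,k0,k0],[k0,k0,k0,k1,k1]]
    [.ref k5 k0 [(z1,[z1])],.ref k1 k0 [(z1,[z1])],.contra [z1],.ref k0 k0 [(z1,[y1,z1])]])]⟩

/-- classes `0 0 1 0 1`, types `C0 C0 N0 C0 N2` -/
noncomputable def cU5_101 : CertX :=
  ⟨[k4,k4,k28,k4,k30],[],[[[]]],
    [.old (.lp [k6,k8,k6,k6,k6] [k1,k1,k0,k0,k1,k1,k1,k1,k1,k1] k0 [] k24 k5
    [[(k7,k6)],[(k5,k6),(k9,k6),(k3,k7)],[(k0,k7),(k6,k7),(k2,k8)],[(k5,k7),(k9,k7),(k3,k8)],[(k0,k6),(k6,k6),(k2,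
    k7)],[(k8,k6)],[(k1,k6)],[(k5,k6),(k9,k6),(k3,k7)],[(k0,k6),(k6,k6),(k2,k7)],[(k4,k6)]]
    [] k0
    [[k0,k2,k0,k0,k0]]
    [.contra [z1]])]⟩

/-- the certificates of this file -/
noncomputable def lU5_2 : List CertX :=
  [cU5_47, cU5_48, cU5_49, cU5_50, cU5_51, cU5_52, cU5_53, cU5_54, cU5_55, cU5_56, cU5_57, cU5_58, cU5_59,
      cU5_60, cU5_61, cU5_62, cU5_63, cU5_64, cU5_65, cU5_66, cU5_67, cU5_68, cU5_69, cU5_70, cU5_71, cU5_72,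
      cU5_73, cU5_74, cU5_75, cU5_76, cU5_77, cU5_78, cU5_79, cU5_80, cU5_81, cU5_82, cU5_83, cU5_84, cU5_85,
      cU5_86, cU5_87, cU5_88, cU5_89, cU5_90, cU5_91, cU5_92, cU5_93, cU5_94, cU5_95, cU5_96, cU5_97, cU5_98,
      cU5_99, cU5_100, cU5_101]

theorem gU5_2 : allF (chkE 5 ttU5) lU5_2 = true := by
  decide +kernel

end Pool.Agent.Lib_MP_fa6e45
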