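import Pool.Agent.Lib_MP_fa6e45.CXT
import Pool.Agent.Lib_MP_fa6e45.HK

/-!
MP_fa6e45_co, stage 7: certificates (generated by a program).
-/

namespace Pool.Agent.Lib_MP_fa6e45

/-- classes `0 0 1 0 1`, types `C0 C0 N0 C2 N1` -/
noncomputable def cU5_102 : CertX :=
  ⟨[k4,k4,k28,k6,k29],[(false,k0,[k0,k1,k2,k3,k4])],[[[([z1,z1,z1,z0,z0],z1)],[([z1,z1,z1,z0,z0],z2)],[([z1,z0,z1,z0,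
    z0],z2),([z0,z3,z0,z0,z0],z1)],[([z1,z0,z1,z0,z0],z2),([z0,z3,z0,z0,z0],z2)],[([z1,z0,z1,z0,z0],z2),([z0,z2,z0,z0,
    z0],z1)],[([z1,z0,z1,z0,z0],z2)],[]]],
    [.old (.leafM k0 [k0,k1,k2] [] [(k3,k4,z1,[y1,z1]),(k4,k3,z1,[y1,z1])]),
    .old (.leafM k1 [k2,k3,k4,k0,k1] [(z1,[y1,z1])] []),
    .old (.leafM k4 [k4,k1,k3] [(z1,[z0,z1]),(z1,[y3,y1,z3])] [(k0,k2,z1,[z1]),(k2,k0,z1,[z1])]),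
    .old (.leafM k2 [k4,k1,k3] [(z1,[z0,z1]),(z1,[y3,y1,z3])] [(k0,k2,z1,[z1]),(k2,k0,z1,[z1])]),
    .old (.leafM k3 [k4,k1,k3] [(z1,[z0,z1]),(z1,[y2,y1,z2])] [(k0,k2,z1,[z1]),(k2,k0,z1,[z1])]),
    .old (.lp [(nat_lit 576),(nat_lit 408),k0,k0,(nat_lit 238)] [k0,k0,k84,k84,(nat_lit 288),(nat_lit 288),(nat_lit 288),
    (nat_lit 288),k169,k169] k0 [[k0,k0,k0,k0,k0,k0,k0,k170],[k0,k0,k0,(nat_lit 240)],[(nat_lit 240)],[],[],[],[k0,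
    k170]] (nat_lit 816) k8
    [[(k4,(nat_lit 288))],[(k6,k118),(k3,(nat_lit 492)),(k5,(nat_lit 528))],[(k2,k168),(k0,(nat_lit 492)),(k9,
    (nat_lit 493))],[(k3,k168),(k5,(nat_lit 204)),(k6,(nat_lit 204))],[(k9,k119),(k2,(nat_lit 204)),(k0,
    (nat_lit 528))],[(k1,(nat_lit 288))],[(k8,k119)],[(k0,k118),(k9,k119),(k2,(nat_lit 204))],[(k5,k119),(k6,k119),
    (k3,(nat_lit 493))],[(k7,k119)]]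
    [] k0
    [[k1,k0,k1,k1,k1],[k0,k2,k0,k0,k0],[k0,k3,k0,k0,k0],[k0,k4,k0,k0,k0],[k0,k0,k0,k1,k1],[k0,k0,k0,k2,k2],[k0,k0,k0,
    k3,k3]]
    [.contra [y1,z0,z1],.contra [z1],.ref k3 k0 [(z1,[z0,z1]),(z1,[z1])],.ref k4 k0 [(z1,[z0,z1]),(z2,[z1])],
    .contra [y2,y1,z2],.contra [y1,y2,z2],.ref k2 k0 [(z1,[z0,z1]),(z1,[y1,y3,z3])]]),
    .old (.lp [k18,k18,k6,k6,k22] [k2,k2,k2,k2,k8,k8,k8,k8,k0,k0] k0 [[],[],[],[k0,k0,k0,k0,k0,k0,k2],[],[],[],[k0,k0,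
    k2]] k48 k5
    [[(k4,k12)],[(k5,k12),(k6,k12),(k3,k18)],[(k0,k18),(k2,k18),(k9,k20)],[(k5,k12),(k6,k14),(k3,k18)],[(k0,k12),(k2,
    k12),(k9,k12)],[(k1,k12)],[(k8,k14)],[(k0,k12),(k2,k14),(k9,k14)],[(k5,k12),(k6,k14),(k3,k20)],[(k7,k14)]]
    [] k0
    [[k1,k0,k1,k0,k0],[k1,k1,k1,k0,k0],[k0,k2,k0,k0,k0],[k0,k0,k0,k1,k1]]
    [.ref k5 k0 [(z1,[z1])],.ref k1 k0 [(z1,[z1])],.contra [z1],.ref k0 k0 [(z1,[y1,z1])]])]⟩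

/-- classes `0 0 1 0 1`, types `C0 C0 N0 C2 N2` -/
noncomputable def cU5_103 : CertX :=
  ⟨[k4,k4,k28,k6,k30],[(false,k0,[k0,k1,k2,k3,k4]),(true,k2,[k2,k1,k0,k4,k3])],[[[([z1,z0,z0,z1,z0],z2)],[([z1,z0,z0,
    z1,z0],z1)],[]]],
    [.old (.leafM k1 [k1,k2,k4] [] [(k3,k0,z1,[z1]),(k0,k3,z1,[z1])]),
    .old (.leafM k2 [k2,k3,k4,k0,k1] [(z1,[z1])] []),
    .old (.lp [k4,k4,k2,k2,k4] [k0,k0,k0,k0,k1,k1,k1,k1,k0,k0] k0 [] k12 k5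
    [[(k7,k3)],[(k5,k3),(k6,k3),(k3,k4)],[(k0,k4),(k2,k4),(k9,k4)],[(k5,k3),(k6,k3),(k3,k4)],[(k0,k3),(k2,k3),(k9,
    k3)],[(k8,k3)],[(k1,k3)],[(k0,k3),(k2,k3),(k9,k3)],[(k5,k3),(k6,k3),(k3,k4)],[(k4,k3)]]
    [] k0
    [[k1,k0,k0,k1,k0],[k1,k1,k0,k1,k0],[k0,k2,k0,k0,k0],[k0,k1,k1,k0,k1],[k0,k0,k1,k0,k1]]
    [.ref k0 k0 [(z1,[z1])],.ref k1 k1 [(z1,[y1,z1])],.contra [z1],.ref k1 k0 [(z1,[y1,z1])],.ref k0 k1 [(z1,[z1])]])]⟩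

/-- classes `0 0 1 0 1`, types `C0 C0 S0 C0 S0` -/
noncomputable def cU5_104 : CertX :=
  ⟨[k4,k4,k16,k4,k16],[(false,k0,[k0,k1,k2,k3,k4]),(true,k2,[k2,k1,k0,k4,k3])],[[[([z1,z1,z1,z0,z0],z1)],[([z1,z0,z0,
    z0,z1],z2)],[([z1,z0,z0,z0,z1],z1)],[([z1,z1,z1,z0,z0],z2)],[([z1,z0,z1,z0,z0],z2),([z0,z3,z0,z0,z0],z1)],[([z1,
    z0,z0,y2,y1],z0),([z0,z1,z0,z1,z1],z1)],[([z1,z0,z1,z0,z0],z2),([z0,z3,z0,z0,z0],z2)],[([z1,z0,z1,z0,z0],z2),([z0,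
    z2,z0,z0,z0],z1)],[([z1,z0,z1,z0,z0],z2)],[]]],
    [.old (.leafM k0 [k0,k1,k2] [] [(k3,k4,z1,[y1,z1]),(k4,k3,z1,[y1,z1])]),
    .old (.leafM k0 [k1,k2,k3] [] [(k4,k0,z1,[z1]),(k0,k4,z1,[z1])]),
    .old (.leafM k1 [k3,k4,k0,k1,k2] [(z1,[z1])] []),
    .old (.leafM k0 [k3,k4,k0,k1,k2] [(z1,[y1,z1])] []),
    .old (.leafM k4 [k4,k1,k3] [(z1,[z0,z1]),(z1,[y3,y1,z3])] [(k0,k2,z1,[z1]),(k2,k0,z1,[z1])]),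
    .old (.tor k4 false k0 [(z1,[y1,y1,z1]),(z1,[z0,y1,z1]),(z1,[z1,z2])]),
    .old (.leafM k2 [k4,k1,k3] [(z1,[z0,z1]),(z1,[y3,y1,z3])] [(k0,k2,z1,[z1]),(k2,k0,z1,[z1])]),
    .old (.leafM k3 [k4,k1,k3] [(z1,[z0,z1]),(z1,[y2,y1,z2])] [(k0,k2,z1,[z1]),(k2,k0,z1,[z1])]),
    .old (.lp [(nat_lit 224),k70,k112,k48,k48] [k0,k0,k77,k77,k56,k56,k88,k88,k88,k88] k0 [[k0,k0,k0,k0,k0,k0,k32],[],[],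
    [],[],[],[],[k0,k32]] (nat_lit 336) k8
    [[(k7,k136),(k8,k136),(k4,k168),(k1,(nat_lit 224))],[(k9,k104),(k3,k147),(k5,k168)],[(k2,k70),(k6,k91),(k0,k147)],
    [(k9,k59),(k3,k70),(k5,k91)],[(k6,k80),(k2,k91),(k0,k168)],[(k7,k80),(k8,k80),(k4,k112),(k1,k168)],[(k7,k48),(k8,
    k48),(k4,k80),(k1,k136)],[(k9,k48),(k5,k80),(k3,k91)],[(k6,k48),(k2,k59),(k0,k104)],[(k7,k48),(k8,k48),(k4,k80),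
    (k1,k136)]]
    [] k0
    [[k1,k0,k0,k0,k1],[k0,k2,k0,k0,k0],[k0,k3,k0,k0,k0],[k0,k4,k0,k0,k0],[k0,k2,k1,k1,k0],[k0,k2,k0,k1,k1],[k0,k1,k1,
    k1,k0],[k0,k1,k0,k2,k2],[k0,k1,k0,k1,k1],[k0,k0,k1,k1,k0],[k0,k0,k2,k2,k0],[k0,k0,k1,k2,k1],[k0,k0,k0,k3,k3],[k0,
    k0,k0,k2,k2],[k0,k0,k0,k1,k1]]
    [.ref k1 k0 [(z1,[z1])],.contra [z1],.ref k6 k0 [(z1,[z0,z1]),(z1,[z1])],.ref k7 k0 [(z1,[z0,z1]),(z2,[z1])],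
    .ref k5 k1 [(z1,[z1,z2,y2]),(z1,[z0,y1,z1])],.contra [z1,z1,y1],.ref k2 k0 [(z1,[y1,z0,z1])],.contra [y1,y2,z2],
    .contra [y2,y1,z2],.ref k1 k1 [(z1,[z1])],.ref k2 k1 [(z2,[z1])],.ref k5 k0 [(z1,[y1,z1]),(z1,[z0,y1,z1])],
    .ref k4 k0 [(z1,[z0,z1]),(z1,[y1,y3,z3])],.contra [y1,y2,z2],.contra [y2,y1,z2]]),
    .old (.lp [k12,k18,k12,k12,k16] [k3,k3,k0,k0,k3,k3,k3,k3,k1,k1] k0 [[k0,k0,k0,k0,k0,k0,k2],[],[],[],[],[],[],[k0,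
    k2]] k48 k5
    [[(k1,k12),(k4,k12),(k7,k12),(k8,k14)],[(k5,k12),(k9,k12),(k3,k15)],[(k0,k15),(k6,k17),(k2,k18)],[(k5,k15),(k9,
    k17),(k3,k18)],[(k0,k12),(k6,k12),(k2,k15)],[(k1,k12),(k4,k12),(k7,k12),(k8,k14)],[(k1,k12),(k4,k12),(k7,k12),(k8,
    k14)],[(k5,k12),(k9,k14),(k3,k17)],[(k0,k12),(k6,k14),(k2,k17)],[(k1,k14),(k4,k14),(k7,k14),(k8,k16)]]
    [] k0
    [[k1,k0,k1,k0,k0],[k1,k1,k1,k0,k0],[k1,k0,k0,k0,k1],[k1,k1,k0,k0,k1],[k0,k2,k0,k0,k0],[k0,k1,k1,k1,k0],[k0,k0,k1,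
    k1,k0],[k0,k0,k0,k1,k1]]
    [.ref k8 k0 [(z1,[z1])],.ref k3 k0 [(z1,[z1])],.ref k1 k0 [(z1,[z1])],.ref k2 k1 [(z1,[y1,z1])],.contra [z1],
    .ref k2 k0 [(z1,[y1,z1])],.ref k1 k1 [(z1,[z1])],.ref k0 k0 [(z1,[y1,z1])]])]⟩

/-- classes `0 0 1 0 1`, types `C0 C0 S0 C2 S0` -/
noncomputable def cU5_105 : CertX :=
  ⟨[k4,k4,k16,k6,k16],[(false,k0,[k0,k1,k2,k3,k4]),(true,k2,[k2,k1,k0,k4,k3])],[[[([z1,z1,z1,z0,z0],z1)],[([z1,z0,z0,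
    z1,z0],z2)],[([z1,z0,z0,z1,z0],z1)],[([z1,z1,z1,z0,z0],z2)],[([z1,z0,z1,z0,z0],z2),([z0,z3,z0,z0,z0],z1)],[([z1,
    z0,z1,z0,z0],z2),([z0,z3,z0,z0,z0],z2)],[([z1,z0,z1,z0,z0],z2),([z0,z2,z0,z0,z0],z1)],[([z1,z0,z0,y1,y2],z0),([z0,
    z1,z0,z1,z1],z1)],[([z1,z0,z1,z0,z0],z2)],[]]],
    [.old (.leafM k0 [k0,k1,k2] [] [(k3,k4,z1,[y1,z1]),(k4,k3,z1,[y1,z1])]),
    .old (.leafM k1 [k1,k2,k4] [] [(k3,k0,z1,[z1]),(k0,k3,z1,[z1])]),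
    .old (.leafM k2 [k2,k3,k4,k0,k1] [(z1,[z1])] []),
    .old (.leafM k0 [k3,k4,k0,k1,k2] [(z1,[y1,z1])] []),
    .old (.leafM k4 [k4,k1,k3] [(z1,[z0,z1]),(z1,[y3,y1,z3])] [(k0,k2,z1,[z1]),(k2,k0,z1,[z1])]),
    .old (.leafM k2 [k4,k1,k3] [(z1,[z0,z1]),(z1,[y3,y1,z3])] [(k0,k2,z1,[z1]),(k2,k0,z1,[z1])]),
    .old (.leafM k3 [k4,k1,k3] [(z1,[z0,z1]),(z1,[y2,y1,z2])] [(k0,k2,z1,[z1]),(k2,k0,z1,[z1])]),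
    .old (.tor k21 false k0 [(z1,[y1,y1,z1]),(z1,[z0,y1,z1]),(z1,[z1,z2])]),
    .old (.lp [k128,k70,(nat_lit 208),k48,k48] [k40,k40,k69,k69,k0,k0,k80,k80,k80,k80] k0 [[k0,k0,k0,k0,k0,k0,k0,k32],[],
    [],[],[],[],[k0,k32]] (nat_lit 336) k8
    [[(k7,k88),(k8,k88),(k1,k128),(k4,k168)],[(k6,k56),(k3,k99),(k5,k168)],[(k2,k70),(k9,k91),(k0,k99)],[(k6,k59),(k3,
    k70),(k5,k139)],[(k9,k128),(k2,k139),(k0,k168)],[(k7,k128),(k8,k128),(k1,k168),(k4,(nat_lit 208))],[(k7,k48),(k8,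
    k48),(k1,k88),(k4,k128)],[(k9,k48),(k0,k56),(k2,k59)],[(k6,k48),(k3,k91),(k5,k128)],[(k7,k48),(k8,k48),(k1,k88),
    (k4,k128)]]
    [] k0
    [[k2,k0,k0,k2,k0],[k1,k0,k0,k1,k0],[k1,k1,k0,k1,k0],[k1,k2,k0,k1,k0],[k1,k0,k0,k2,k1],[k0,k2,k0,k0,k0],[k0,k3,k0,
    k0,k0],[k0,k4,k0,k0,k0],[k0,k2,k0,k1,k1],[k0,k1,k0,k1,k1],[k0,k1,k0,k2,k2],[k0,k0,k1,k0,k1],[k0,k0,k0,k3,k3],[k0,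
    k0,k0,k2,k2],[k0,k0,k0,k1,k1]]
    [.ref k2 k0 [(z2,[z1])],.ref k1 k0 [(z1,[z1])],.ref k2 k1 [(z1,[y1,z0,z1])],.ref k7 k0 [(z1,[z1,z2,y2]),(z1,[z0,
    y1,z1])],.ref k7 k1 [(z1,[y1,z1]),(z1,[z0,y1,z1])],.contra [z1],.ref k5 k0 [(z1,[z0,z1]),(z1,[z1])],
    .ref k6 k0 [(z1,[z0,z1]),(z2,[z1])],.contra [z1,z1,y1],.contra [y2,y1,z2],.contra [y1,y2,z2],.ref k1 k1 [(z1,
    [z1])],.ref k4 k0 [(z1,[z0,z1]),(z1,[y1,y3,z3])],.contra [y1,y2,z2],.contra [y2,y1,z2]]),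
    .old (.lp [k12,k18,k12,k16,k12] [k3,k3,k0,k0,k3,k3,k1,k1,k3,k3] k0 [[k0,k0,k0,k0,k0,k0,k0,k2],[],[],[],[],[],[k0,
    k2]] k48 k5
    [[(k1,k12),(k4,k12),(k8,k12),(k7,k14)],[(k5,k12),(k6,k12),(k3,k15)],[(k0,k15),(k9,k17),(k2,k18)],[(k5,k15),(k6,
    k17),(k3,k18)],[(k0,k12),(k9,k12),(k2,k15)],[(k1,k12),(k4,k12),(k8,k12),(k7,k14)],[(k1,k14),(k4,k14),(k8,k14),(k7,
    k16)],[(k0,k12),(k9,k14),(k2,k17)],[(k5,k12),(k6,k14),(k3,k17)],[(k1,k12),(k4,k12),(k8,k12),(k7,k14)]]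
    [] k0
    [[k1,k0,k1,k0,k0],[k1,k1,k1,k0,k0],[k1,k0,k0,k1,k0],[k1,k1,k0,k1,k0],[k0,k2,k0,k0,k0],[k0,k1,k1,k0,k1],[k0,k0,k1,
    k0,k1],[k0,k0,k0,k1,k1]]
    [.ref k8 k0 [(z1,[z1])],.ref k3 k0 [(z1,[z1])],.ref k1 k0 [(z1,[z1])],.ref k2 k1 [(z1,[y1,z1])],.contra [z1],
    .ref k2 k0 [(z1,[y1,z1])],.ref k1 k1 [(z1,[z1])],.ref k0 k0 [(z1,[y1,z1])]])]⟩

/-- classes `0 0 1 0 1`, types `C0 C2 B0 C0 B1` -/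
noncomputable def cU5_106 : CertX :=
  ⟨[k4,k6,k24,k4,k25],[(false,k0,[k0,k1,k2,k3,k4])],[[[([z1,z1,z1,z0,z0],z1)],[([z1,z1,z0,z1,z0],z1)],[([z1,z1,z0,z1,
    z0],z2)],[([z1,z1,z1,z0,z0],z2)],[]]],
    [.old (.leafM k0 [k0,k1,k2] [] [(k3,k4,z1,[y1,z1]),(k4,k3,z1,[y1,z1])]),
    .old (.leafM k1 [k0,k1,k3] [] [(k2,k4,z1,[y1,z1]),(k4,k2,z1,[y1,z1])]),
    .old (.leafM k2 [k1,k2,k3,k4,k0] [(z1,[y1,z1])] []),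
    .old (.leafM k1 [k2,k3,k4,k0,k1] [(z1,[y1,z1])] []),
    .old (.lp [k2,k2,k2,k2,k2] [k0,k0,k0,k0,k0,k0,k0,k0,k0,k0] k0 [] k8 k5
    [[(k4,k2),(k7,k2)],[(k2,k2),(k3,k2),(k9,k2)],[(k0,k2),(k5,k2),(k6,k2)],[(k0,k2),(k5,k2),(k6,k2)],[(k2,k2),(k3,k2),
    (k9,k2)],[(k1,k2),(k8,k2)],[(k1,k2),(k8,k2)],[(k2,k2),(k3,k2),(k9,k2)],[(k0,k2),(k5,k2),(k6,k2)],[(k4,k2),(k7,
    k2)]]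
    [] k0
    [[k1,k1,k1,k0,k0],[k1,k1,k0,k1,k0],[k0,k0,k1,k0,k1],[k0,k0,k0,k1,k1]]
    [.ref k3 k0 [(z1,[z1])],.ref k2 k0 [(z1,[z1])],.ref k1 k0 [(z1,[y1,z1])],.ref k0 k0 [(z1,[y1,z1])]])]⟩

/-- classes `0 0 1 0 1`, types `C0 C2 C0 C0 C0` -/
noncomputable def cU5_107 : CertX :=
  ⟨[k4,k6,k20,k4,k20],[(false,k0,[k0,k1,k2,k3,k4])],[[[([z1,z1,z1,z0,z0],z1)],[([z1,z0,z0,z0,z1],z1)],[([z1,z0,z0,z0,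
    z1],z2)],[([z1,z1,z1,z0,z0],z2)],[]]],
    [.old (.leafM k0 [k0,k1,k2] [] [(k3,k4,z1,[y1,z1]),(k4,k3,z1,[y1,z1])]),
    .old (.leafM k1 [k3,k4,k0,k1,k2] [(z1,[z1])] []),
    .old (.leafM k0 [k1,k2,k3] [] [(k4,k0,z1,[z1]),(k0,k4,z1,[z1])]),
    .old (.leafM k1 [k2,k3,k4,k0,k1] [(z1,[y1,z1])] []),
    .old (.lp [k2,k2,k2,k2,k2] [k0,k0,k0,k0,k0,k0,k0,k0,k0,k0] k0 [] k8 k5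
    [[(k4,k2),(k8,k2)],[(k2,k2),(k3,k2),(k9,k2)],[(k0,k2),(k5,k2),(k6,k2)],[(k0,k2),(k5,k2),(k6,k2)],[(k2,k2),(k3,k2),
    (k9,k2)],[(k1,k2),(k7,k2)],[(k4,k2),(k8,k2)],[(k2,k2),(k3,k2),(k9,k2)],[(k0,k2),(k5,k2),(k6,k2)],[(k1,k2),(k7,
    k2)]]
    [] k0
    [[k1,k1,k1,k0,k0],[k1,k0,k0,k0,k1],[k0,k1,k1,k1,k0],[k0,k0,k0,k1,k1]]
    [.ref k3 k0 [(z1,[z1])],.ref k2 k0 [(z1,[z1])],.ref k1 k0 [(z1,[y1,z1])],.ref k0 k0 [(z1,[y1,z1])]])]⟩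

/-- classes `0 0 1 0 1`, types `C0 C2 C0 C0 C2` -/
noncomputable def cU5_108 : CertX :=
  ⟨[k4,k6,k20,k4,k22],[(false,k0,[k0,k1,k2,k3,k4])],[[[([z1,z1,z0,z1,z0],z1)],[([z1,z0,z0,z0,z1],z1)],[([z1,z0,z0,z0,
    z1],z2)],[([z1,z1,z0,z1,z0],z2)],[]]],
    [.old (.leafM k1 [k0,k1,k3] [] [(k2,k4,z1,[y1,z1]),(k4,k2,z1,[y1,z1])]),
    .old (.leafM k1 [k3,k4,k0,k1,k2] [(z1,[z1])] []),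
    .old (.leafM k0 [k1,k2,k3] [] [(k4,k0,z1,[z1]),(k0,k4,z1,[z1])]),
    .old (.leafM k2 [k1,k2,k3,k4,k0] [(z1,[y1,z1])] []),
    .old (.lp [k2,k2,k2,k2,k2] [k0,k0,k0,k0,k0,k0,k0,k0,k0,k0] k0 [] k8 k5
    [[(k7,k2),(k8,k2)],[(k2,k2),(k3,k2),(k9,k2)],[(k0,k2),(k5,k2),(k6,k2)],[(k0,k2),(k5,k2),(k6,k2)],[(k2,k2),(k3,k2),
    (k9,k2)],[(k7,k2),(k8,k2)],[(k1,k2),(k4,k2)],[(k2,k2),(k3,k2),(k9,k2)],[(k0,k2),(k5,k2),(k6,k2)],[(k1,k2),(k4,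
    k2)]]
    [] k0
    [[k1,k1,k0,k1,k0],[k1,k0,k0,k0,k1],[k0,k1,k1,k1,k0],[k0,k0,k1,k0,k1]]
    [.ref k3 k0 [(z1,[z1])],.ref k2 k0 [(z1,[z1])],.ref k1 k0 [(z1,[y1,z1])],.ref k0 k0 [(z1,[y1,z1])]])]⟩

/-- classes `0 0 1 0 1`, types `C0 C2 N0 C0 N1` -/
noncomputable def cU5_109 : CertX :=
  ⟨[k4,k6,k28,k4,k29],[(false,k0,[k0,k1,k2,k3,k4])],[[[([z1,z1,z1,z0,z0],z1)],[([z1,z1,z1,z0,z0],z2)],[]]],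
    [.old (.leafM k0 [k0,k1,k2] [] [(k3,k4,z1,[y1,z1]),(k4,k3,z1,[y1,z1])]),
    .old (.leafM k1 [k2,k3,k4,k0,k1] [(z1,[y1,z1])] []),
    .old (.lp [k2,k2,k2,k2,k2] [k0,k0,k0,k0,k0,k0,k0,k0,k0,k0] k0 [] k8 k5
    [[(k4,k2)],[(k2,k2),(k3,k2),(k9,k2)],[(k0,k2),(k5,k2),(k6,k2)],[(k0,k2),(k5,k2),(k6,k2)],[(k2,k2),(k3,k2),(k9,
    k2)],[(k1,k2)],[(k8,k2)],[(k2,k2),(k3,k2),(k9,k2)],[(k0,k2),(k5,k2),(k6,k2)],[(k7,k2)]]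
    [] k0
    [[k1,k1,k1,k0,k0],[k0,k0,k0,k1,k1]]
    [.ref k1 k0 [(z1,[z1])],.ref k0 k0 [(z1,[y1,z1])]])]⟩

/-- classes `0 0 1 0 1`, types `C0 C2 N0 C0 N2` -/
noncomputable def cU5_110 : CertX :=
  ⟨[k4,k6,k28,k4,k30],[(false,k0,[k0,k1,k2,k3,k4])],[[[([z1,z1,z0,z1,z0],z1)],[([z1,z1,z0,z1,z0],z2)],[]]],
    [.old (.leafM k1 [k0,k1,k3] [] [(k2,k4,z1,[y1,z1]),(k4,k2,z1,[y1,z1])]),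
    .old (.leafM k2 [k1,k2,k3,k4,k0] [(z1,[y1,z1])] []),
    .old (.lp [k2,k2,k2,k2,k2] [k0,k0,k0,k0,k0,k0,k0,k0,k0,k0] k0 [] k8 k5
    [[(k7,k2)],[(k2,k2),(k3,k2),(k9,k2)],[(k0,k2),(k5,k2),(k6,k2)],[(k0,k2),(k5,k2),(k6,k2)],[(k2,k2),(k3,k2),(k9,
    k2)],[(k8,k2)],[(k1,k2)],[(k2,k2),(k3,k2),(k9,k2)],[(k0,k2),(k5,k2),(k6,k2)],[(k4,k2)]]
    [] k0
    [[k1,k1,k0,k1,k0],[k0,k0,k1,k0,k1]]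
    [.ref k1 k0 [(z1,[z1])],.ref k0 k0 [(z1,[y1,z1])]])]⟩

/-- classes `0 0 1 0 1`, types `C0 C2 S0 C0 S0` -/
noncomputable def cU5_111 : CertX :=
  ⟨[k4,k6,k16,k4,k16],[(false,k0,[k0,k1,k2,k3,k4])],[[[([z1,z1,z1,z0,z0],z1)],[([z1,z1,z0,z1,z0],z1)],[([z1,z0,z0,z0,
    z1],z1)],[([z1,z0,z0,z0,z1],z2)],[([z1,z1,z0,z1,z0],z2)],[([z1,z1,z1,z0,z0],z2)],[([z1,z0,y1,z1,z1],z1)],[]]],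
    [.old (.leafM k0 [k0,k1,k2] [] [(k3,k4,z1,[y1,z1]),(k4,k3,z1,[y1,z1])]),
    .old (.leafM k1 [k0,k1,k3] [] [(k2,k4,z1,[y1,z1]),(k4,k2,z1,[y1,z1])]),
    .old (.leafM k1 [k3,k4,k0,k1,k2] [(z1,[z1])] []),
    .old (.leafM k0 [k1,k2,k3] [] [(k4,k0,z1,[z1]),(k0,k4,z1,[z1])]),
    .old (.leafM k2 [k1,k2,k3,k4,k0] [(z1,[y1,z1])] []),
    .old (.leafM k0 [k3,k4,k0,k1,k2] [(z1,[y1,z1])] []),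
    .old (.lp [k12,k20,k12,k14,k12] [k4,k4,k0,k0,k4,k4,k3,k3,k4,k4] k0 [[k0,k0,k0,k4],[],[k0,k4]] k48 k5
    [[(k1,k12),(k4,k12),(k8,k12),(k7,k13)],[(k2,k12),(k9,k12),(k3,k16)],[(k0,k16),(k6,k17),(k5,k20)],[(k0,k12),(k5,
    k16),(k6,k17)],[(k9,k12),(k2,k16),(k3,k20)],[(k1,k12),(k4,k12),(k8,k12),(k7,k13)],[(k1,k13),(k4,k13),(k8,k13),(k7,
    k14)],[(k9,k13),(k2,k17),(k3,k17)],[(k0,k12),(k5,k12),(k6,k13)],[(k1,k12),(k4,k12),(k8,k12),(k7,k13)]]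
    [] k0
    [[k2,k1,k0,k0,k0],[k1,k1,k1,k0,k0],[k1,k1,k0,k1,k0],[k1,k0,k0,k0,k1],[k0,k1,k1,k1,k0],[k0,k0,k1,k0,k1],[k0,k0,k0,
    k1,k1]]
    [.ref k5 k0 [(z2,[z1,y1,z1])],.ref k5 k0 [(z1,[z1])],.ref k4 k0 [(z1,[z1])],.contra [y2,z1,z1],.ref k2 k0 [(z1,
    [y1,z0,z1])],.ref k1 k0 [(z1,[y1,z0,z1])],.contra [y2,z1,z1]]),
    .old (.lp [k12,k20,k12,k14,k12] [k4,k4,k0,k0,k4,k4,k3,k3,k4,k4] k0 [[],[k0,k0,k4],[],[k4]] k48 k5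
    [[(k1,k12),(k4,k12),(k8,k12),(k7,k13)],[(k9,k12),(k3,k16),(k2,k20)],[(k5,k12),(k0,k16),(k6,k17)],[(k5,k16),(k6,
    k17),(k0,k20)],[(k3,k12),(k9,k12),(k2,k16)],[(k1,k12),(k4,k12),(k8,k12),(k7,k13)],[(k1,k13),(k4,k13),(k8,k13),(k7,
    k14)],[(k9,k13),(k2,k17),(k3,k17)],[(k0,k12),(k5,k12),(k6,k13)],[(k1,k12),(k4,k12),(k8,k12),(k7,k13)]]
    [] k0
    [[k1,k1,k1,k0,k0],[k1,k1,k0,k1,k0],[k1,k0,k0,k0,k1],[k0,k1,k2,k0,k0],[k0,k1,k1,k1,k0],[k0,k0,k1,k0,k1],[k0,k0,k0,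
    k1,k1]]
    [.ref k5 k0 [(z1,[z1])],.ref k4 k0 [(z1,[z1])],.ref k3 k0 [(z1,[z1])],.ref k6 k0 [(z1,[y1,z1])],.ref k2 k0 [(z1,
    [y1,z1])],.ref k1 k0 [(z1,[y1,z1])],.ref k0 k0 [(z1,[y1,z1])]])]⟩

/-- classes `0 0 1 0 1`, types `S0 S0 B0 S0 B1` -/
noncomputable def cU5_112 : CertX :=
  ⟨[k0,k0,k24,k0,k25],[(false,k0,[k0,k1,k2,k3,k4]),(true,k2,[k2,k1,k0,k4,k3])],[[[([z1,z1,z1,z0,z0],z1)],[([z1,z0,z0,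
    z1,z0],z2)],[([z1,z0,z0,z1,z0],z1)],[([z1,z1,z1,z0,z0],z2)],[([z1,z0,z1,z0,z0],z2),([z0,z3,z0,z0,z0],z1)],[([z1,
    z0,z0,y1,y2],z0),([z0,z1,z0,z1,z1],z1)],[([z1,z0,z1,z0,z0],z2),([z0,z3,z0,z0,z0],z2)],[([z1,z0,z1,z0,z0],z2),([z0,
    z2,z0,z0,z0],z1)],[([z1,z0,z1,z0,z0],z2)],[]]],
    [.old (.leafM k0 [k0,k1,k2] [] [(k3,k4,z1,[y1,z1]),(k4,k3,z1,[y1,z1])]),
    .old (.leafM k1 [k1,k2,k4] [] [(k3,k0,z1,[z1]),(k0,k3,z1,[z1])]),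
    .old (.leafM k2 [k2,k3,k4,k0,k1] [(z1,[z1])] []),
    .old (.leafM k1 [k2,k3,k4,k0,k1] [(z1,[y1,z1])] []),
    .old (.leafM k4 [k4,k1,k3] [(z1,[z0,z1]),(z1,[y3,y1,z3])] [(k0,k2,z1,[z1]),(k2,k0,z1,[z1])]),
    .old (.tor k21 false k0 [(z1,[y1,y1,z1]),(z1,[z0,y1,z1]),(z1,[z1,z2])]),
    .old (.leafM k2 [k4,k1,k3] [(z1,[z0,z1]),(z1,[y3,y1,z3])] [(k0,k2,z1,[z1]),(k2,k0,z1,[z1])]),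
    .old (.leafM k3 [k4,k1,k3] [(z1,[z0,z1]),(z1,[y2,y1,z2])] [(k0,k2,z1,[z1]),(k2,k0,z1,[z1])]),
    .old (.lp [(nat_lit 600),(nat_lit 854),(nat_lit 572),(nat_lit 240),(nat_lit 240)] [k127,k127,k0,k0,k141,k141,
    (nat_lit 307),(nat_lit 307),(nat_lit 307),(nat_lit 307)] k0 [[],[k0,k0,k0,(nat_lit 508)],
    [(nat_lit 508)]] (nat_lit 1680) k8
    [[(k7,(nat_lit 420)),(k4,(nat_lit 586))],[(k6,(nat_lit 420)),(k9,(nat_lit 420)),(k0,(nat_lit 600)),(k2,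
    (nat_lit 727)),(k3,(nat_lit 727)),(k5,(nat_lit 1094))],[(k2,(nat_lit 346)),(k6,(nat_lit 547)),(k9,(nat_lit 547)),
    (k5,(nat_lit 713)),(k0,(nat_lit 727)),(k3,(nat_lit 854))],[(k3,(nat_lit 346)),(k6,(nat_lit 547)),(k9,
    (nat_lit 547)),(k5,(nat_lit 713)),(k0,(nat_lit 727)),(k2,(nat_lit 854))],[(k6,(nat_lit 406)),(k9,(nat_lit 406)),
    (k5,(nat_lit 572)),(k2,(nat_lit 713)),(k3,(nat_lit 713)),(k0,(nat_lit 1094))],[(k8,(nat_lit 406)),(k1,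
    (nat_lit 586))],[(k8,(nat_lit 240)),(k1,(nat_lit 420))],[(k6,(nat_lit 240)),(k9,(nat_lit 240)),(k5,(nat_lit 406)),
    (k0,(nat_lit 420)),(k2,(nat_lit 547)),(k3,(nat_lit 547))],[(k6,(nat_lit 240)),(k9,(nat_lit 240)),(k5,
    (nat_lit 406)),(k0,(nat_lit 420)),(k2,(nat_lit 547)),(k3,(nat_lit 547))],[(k7,(nat_lit 240)),(k4,(nat_lit 406))]]
    [] k0
    [[k1,k0,k1,k1,k1],[k1,k0,k0,k1,k0],[k1,k0,k0,k2,k1],[k0,k2,k0,k0,k0],[k0,k3,k0,k0,k0],[k0,k4,k0,k0,k0],[k0,k1,k1,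
    k0,k1],[k0,k1,k0,k1,k1],[k0,k0,k2,k0,k2],[k0,k0,k1,k1,k2],[k0,k0,k1,k0,k1],[k0,k0,k0,k1,k1],[k0,k0,k0,k2,k2],[k0,
    k0,k0,k3,k3]]
    [.contra [y1,z0,z1],.ref k1 k0 [(z1,[z1])],.ref k5 k1 [(z1,[y1,z1]),(z1,[z0,y1,z1])],.contra [z1],.ref k6 k0 [(z1,
    [z0,z1]),(z1,[z1])],.ref k7 k0 [(z1,[z0,z1]),(z2,[z1])],.ref k2 k0 [(z1,[y1,z0,z1])],.contra [y2,y1,z2],
    .ref k2 k1 [(z2,[z1])],.ref k5 k0 [(z1,[y1,z1]),(z1,[z0,y1,z1])],.ref k1 k1 [(z1,[z1])],.contra [y2,y1,z2],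
    .contra [y1,y2,z2],.ref k4 k0 [(z1,[z0,z1]),(z1,[y1,y3,z3])]]),
    .old (.lp [k12,k16,k12,k14,k16] [k2,k2,k0,k0,k2,k2,k1,k1,k0,k0] k0 [[k0,k0,k0,k0,k0,k0,k2],[],[],[k0,k0,k0,k0,k0,k0,
    k2],[],[],[],[k0,k2,k2]] k48 k5
    [[(k4,k12),(k7,k13)],[(k0,k12),(k5,k12),(k9,k12),(k6,k13),(k2,k14),(k3,k14)],[(k0,k14),(k5,k14),(k2,k16),(k3,k16),
    (k9,k16),(k6,k17)],[(k0,k14),(k5,k14),(k2,k16),(k3,k16),(k9,k16),(k6,k17)],[(k0,k12),(k5,k12),(k9,k12),(k6,k13),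
    (k2,k14),(k3,k14)],[(k1,k12),(k8,k14)],[(k1,k13),(k8,k15)],[(k0,k13),(k5,k13),(k6,k14),(k9,k15),(k2,k17),(k3,
    k17)],[(k0,k12),(k5,k12),(k6,k15),(k2,k16),(k3,k16),(k9,k16)],[(k4,k14),(k7,k15)]]
    [] k0
    [[k1,k0,k1,k0,k0],[k1,k1,k1,k0,k0],[k1,k0,k0,k1,k0],[k1,k1,k0,k1,k0],[k0,k2,k0,k0,k0],[k0,k1,k1,k0,k1],[k0,k0,k1,
    k0,k1],[k0,k0,k0,k1,k1]]
    [.ref k8 k0 [(z1,[z1])],.ref k3 k0 [(z1,[z1])],.ref k1 k0 [(z1,[z1])],.ref k2 k1 [(z1,[y1,z1])],.contra [z1],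
    .ref k2 k0 [(z1,[y1,z1])],.ref k1 k1 [(z1,[z1])],.ref k0 k0 [(z1,[y1,z1])]])]⟩

/-- classes `0 0 1 0 1`, types `S0 S0 C0 S0 C0` -/
noncomputable def cU5_113 : CertX :=
  ⟨[k0,k0,k20,k0,k20],[(false,k0,[k0,k1,k2,k3,k4]),(true,k2,[k2,k1,k0,k4,k3])],[[[([z1,z1,z1,z0,z0],z1)],[([z1,z0,z0,
    z0,z1],z2)],[([z1,z0,z0,z0,z1],z1)],[([z1,z1,z1,z0,z0],z2)],[([z1,z0,z1,z0,z0],z2),([z0,z3,z0,z0,z0],z1)],[([z1,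
    z0,z0,y2,y1],z0),([z0,z1,z0,z1,z1],z1)],[([z1,z0,z1,z0,z0],z2),([z0,z3,z0,z0,z0],z2)],[([z1,z0,z1,z0,z0],z2),([z0,
    z2,z0,z0,z0],z1)],[([z1,z0,z1,z0,z0],z2)],[]]],
    [.old (.leafM k0 [k0,k1,k2] [] [(k3,k4,z1,[y1,z1]),(k4,k3,z1,[y1,z1])]),
    .old (.leafM k0 [k1,k2,k3] [] [(k4,k0,z1,[z1]),(k0,k4,z1,[z1])]),
    .old (.leafM k0 [k4,k0,k1,k2,k3] [(z1,[z1])] []),
    .old (.leafM k1 [k2,k3,k4,k0,k1] [(z1,[y1,z1])] []),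
    .old (.leafM k4 [k4,k1,k3] [(z1,[z0,z1]),(z1,[y3,y1,z3])] [(k0,k2,z1,[z1]),(k2,k0,z1,[z1])]),
    .old (.tor k4 false k0 [(z1,[y1,y1,z1]),(z1,[z0,y1,z1]),(z1,[z1,z2])]),
    .old (.leafM k2 [k4,k1,k3] [(z1,[z0,z1]),(z1,[y3,y1,z3])] [(k0,k2,z1,[z1]),(k2,k0,z1,[z1])]),
    .old (.leafM k3 [k4,k1,k3] [(z1,[z0,z1]),(z1,[y2,y1,z2])] [(k0,k2,z1,[z1]),(k2,k0,z1,[z1])]),
    .old (.lp [(nat_lit 572),(nat_lit 854),(nat_lit 600),(nat_lit 240),(nat_lit 240)] [k141,k141,k0,k0,k127,k127,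
    (nat_lit 307),(nat_lit 307),(nat_lit 307),(nat_lit 307)] k0 [[],[k0,k0,k0,(nat_lit 508)],
    [(nat_lit 508)]] (nat_lit 1680) k8
    [[(k8,(nat_lit 406)),(k4,(nat_lit 586))],[(k6,(nat_lit 406)),(k9,(nat_lit 406)),(k0,(nat_lit 572)),(k2,
    (nat_lit 713)),(k3,(nat_lit 713)),(k5,(nat_lit 1094))],[(k2,(nat_lit 346)),(k6,(nat_lit 547)),(k9,(nat_lit 547)),
    (k0,(nat_lit 713)),(k5,(nat_lit 727)),(k3,(nat_lit 854))],[(k3,(nat_lit 346)),(k6,(nat_lit 547)),(k9,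
    (nat_lit 547)),(k0,(nat_lit 713)),(k5,(nat_lit 727)),(k2,(nat_lit 854))],[(k6,(nat_lit 420)),(k9,(nat_lit 420)),
    (k5,(nat_lit 600)),(k2,(nat_lit 727)),(k3,(nat_lit 727)),(k0,(nat_lit 1094))],[(k7,(nat_lit 420)),(k1,
    (nat_lit 586))],[(k8,(nat_lit 240)),(k4,(nat_lit 420))],[(k6,(nat_lit 240)),(k9,(nat_lit 240)),(k0,(nat_lit 406)),
    (k5,(nat_lit 420)),(k2,(nat_lit 547)),(k3,(nat_lit 547))],[(k6,(nat_lit 240)),(k9,(nat_lit 240)),(k0,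
    (nat_lit 406)),(k5,(nat_lit 420)),(k2,(nat_lit 547)),(k3,(nat_lit 547))],[(k7,(nat_lit 240)),(k1,(nat_lit 406))]]
    [] k0
    [[k1,k0,k1,k1,k1],[k1,k0,k0,k0,k1],[k2,k0,k0,k0,k2],[k1,k1,k0,k0,k1],[k1,k0,k0,k1,k2],[k0,k2,k0,k0,k0],[k0,k3,k0,
    k0,k0],[k0,k4,k0,k0,k0],[k0,k1,k0,k1,k1],[k0,k0,k1,k1,k0],[k0,k0,k1,k2,k1],[k0,k0,k0,k1,k1],[k0,k0,k0,k2,k2],[k0,
    k0,k0,k3,k3]]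
    [.contra [y1,z0,z1],.ref k1 k0 [(z1,[z1])],.ref k2 k0 [(z2,[z1])],.ref k2 k1 [(z1,[y1,z0,z1])],.ref k5 k1 [(z1,
    [y1,z1]),(z1,[z0,y1,z1])],.contra [z1],.ref k6 k0 [(z1,[z0,z1]),(z1,[z1])],.ref k7 k0 [(z1,[z0,z1]),(z2,[z1])],
    .contra [y2,y1,z2],.ref k1 k1 [(z1,[z1])],.ref k5 k0 [(z1,[y1,z1]),(z1,[z0,y1,z1])],.contra [y2,y1,z2],
    .contra [y1,y2,z2],.ref k4 k0 [(z1,[z0,z1]),(z1,[y1,y3,z3])]]),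
    .old (.lp [k12,k16,k12,k16,k14] [k2,k2,k0,k0,k2,k2,k0,k0,k1,k1] k0 [[k0,k0,k0,k0,k0,k0,k1,k2],[],[],[k0,k0,k0,k0,k0,
    k0,k0,k1],[],[],[k0,k2,k1],[k0,k1]] k48 k5
    [[(k4,k12),(k8,k13)],[(k0,k12),(k5,k12),(k6,k12),(k9,k12),(k2,k14),(k3,k14)],[(k0,k14),(k5,k14),(k2,k16),(k3,k16),
    (k6,k17),(k9,k17)],[(k0,k14),(k5,k14),(k2,k16),(k3,k16),(k6,k16),(k9,k16)],[(k0,k12),(k5,k12),(k6,k13),(k9,k13),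
    (k2,k14),(k3,k14)],[(k1,k12),(k7,k14)],[(k4,k14),(k8,k15)],[(k0,k12),(k5,k13),(k9,k15),(k2,k16),(k6,k16),(k3,
    k17)],[(k0,k12),(k5,k13),(k9,k14),(k6,k15),(k2,k16),(k3,k17)],[(k1,k13),(k7,k15)]]
    [] k0
    [[k1,k0,k1,k0,k0],[k1,k1,k1,k0,k0],[k1,k0,k0,k0,k1],[k1,k1,k0,k0,k1],[k0,k2,k0,k0,k0],[k0,k1,k1,k1,k0],[k0,k0,k1,
    k1,k0],[k0,k0,k0,k1,k1]]
    [.ref k8 k0 [(z1,[z1])],.ref k3 k0 [(z1,[z1])],.ref k1 k0 [(z1,[z1])],.ref k2 k1 [(z1,[y1,z1])],.contra [z1],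
    .ref k2 k0 [(z1,[y1,z1])],.ref k1 k1 [(z1,[z1])],.ref k0 k0 [(z1,[y1,z1])]])]⟩

/-- classes `0 0 1 0 1`, types `S0 S0 C0 S0 C2` -/
noncomputable def cU5_114 : CertX :=
  ⟨[k0,k0,k20,k0,k22],[(false,k0,[k0,k1,k2,k3,k4]),(true,k2,[k2,k1,k0,k4,k3])],[[[([z1,z0,z0,z1,z0],z2)],[([z1,z0,z0,
    z0,z1],z2)],[([z1,z0,z0,z1,z0],z1)],[([z1,z0,z0,z0,z1],z1)],[]]],
    [.old (.leafM k1 [k1,k2,k4] [] [(k3,k0,z1,[z1]),(k0,k3,z1,[z1])]),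
    .old (.leafM k0 [k1,k2,k3] [] [(k4,k0,z1,[z1]),(k0,k4,z1,[z1])]),
    .old (.leafM k2 [k2,k3,k4,k0,k1] [(z1,[z1])] []),
    .old (.leafM k0 [k4,k0,k1,k2,k3] [(z1,[z1])] []),
    .old (.lp [k6,k8,k6,k6,k6] [k1,k1,k0,k0,k1,k1,k1,k1,k1,k1] k0 [] k24 k5
    [[(k7,k6),(k8,k6)],[(k0,k6),(k5,k6),(k6,k6),(k9,k6),(k2,k7),(k3,k7)],[(k0,k7),(k5,k7),(k6,k7),(k9,k7),(k2,k8),(k3,
    k8)],[(k0,k7),(k5,k7),(k6,k7),(k9,k7),(k2,k8),(k3,k8)],[(k0,k6),(k5,k6),(k6,k6),(k9,k6),(k2,k7),(k3,k7)],[(k7,k6),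
    (k8,k6)],[(k1,k6),(k4,k6)],[(k0,k6),(k5,k6),(k6,k6),(k9,k6),(k2,k7),(k3,k7)],[(k0,k6),(k5,k6),(k6,k6),(k9,k6),(k2,
    k7),(k3,k7)],[(k1,k6),(k4,k6)]]
    [] k0
    [[k1,k0,k0,k1,k0],[k1,k1,k0,k1,k0],[k1,k0,k0,k0,k1],[k1,k1,k0,k0,k1],[k0,k2,k0,k0,k0],[k0,k1,k1,k1,k0],[k0,k1,k1,
    k0,k1],[k0,k0,k1,k1,k0],[k0,k0,k1,k0,k1]]
    [.ref k0 k0 [(z1,[z1])],.ref k2 k1 [(z1,[y1,z1])],.ref k1 k0 [(z1,[z1])],.ref k3 k1 [(z1,[y1,z1])],.contra [z1],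
    .ref k3 k0 [(z1,[y1,z1])],.ref k2 k0 [(z1,[y1,z1])],.ref k1 k1 [(z1,[z1])],.ref k0 k1 [(z1,[z1])]])]⟩

/-- classes `0 0 1 0 1`, types `S0 S0 N0 S0 N1` -/
noncomputable def cU5_115 : CertX :=
  ⟨[k0,k0,k28,k0,k29],[(false,k0,[k0,k1,k2,k3,k4])],[[[([z1,z1,z1,z0,z0],z1)],[([z1,z1,z1,z0,z0],z2)],[([z1,z0,z1,z0,
    z0],z2),([z0,z3,z0,z0,z0],z1)],[([z1,z0,z1,z0,z0],z2),([z0,z3,z0,z0,z0],z2)],[([z1,z0,z1,z0,z0],z2),([z0,z2,z0,z0,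
    z0],z1)],[([z1,z0,z1,z0,z0],z2)],[]]],
    [.old (.leafM k0 [k0,k1,k2] [] [(k3,k4,z1,[y1,z1]),(k4,k3,z1,[y1,z1])]),
    .old (.leafM k1 [k2,k3,k4,k0,k1] [(z1,[y1,z1])] []),
    .old (.leafM k4 [k4,k1,k3] [(z1,[z0,z1]),(z1,[y3,y1,z3])] [(k0,k2,z1,[z1]),(k2,k0,z1,[z1])]),
    .old (.leafM k2 [k4,k1,k3] [(z1,[z0,z1]),(z1,[y3,y1,z3])] [(k0,k2,z1,[z1]),(k2,k0,z1,[z1])]),
    .old (.leafM k3 [k4,k1,k3] [(z1,[z0,z1]),(z1,[y2,y1,z2])] [(k0,k2,z1,[z1]),(k2,k0,z1,[z1])]),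
    .old (.lp [(nat_lit 14100),(nat_lit 27636),(nat_lit 5640),(nat_lit 5880),(nat_lit 5640)] [(nat_lit 6768),
    (nat_lit 6768),k0,k0,(nat_lit 10998),(nat_lit 10998),(nat_lit 10878),(nat_lit 10878),(nat_lit 10998),
    (nat_lit 10998)] k0 [[k0,k0,k0,k0,k0,k0,(nat_lit 329),(nat_lit 329)],[k0,k0,k0,(nat_lit 19740)],[(nat_lit 19740)],
    [],[],[],[k0,(nat_lit 329)],[k0,(nat_lit 329)]] (nat_lit 39480) k8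
    [[(k4,(nat_lit 9870))],[(k9,(nat_lit 9541)),(k6,(nat_lit 9661)),(k0,(nat_lit 14100)),(k2,(nat_lit 20868)),(k3,
    (nat_lit 20868)),(k5,(nat_lit 29610))],[(k2,(nat_lit 7896)),(k5,(nat_lit 16638)),(k9,(nat_lit 16967)),(k6,
    (nat_lit 17087)),(k0,(nat_lit 20868)),(k3,(nat_lit 27636))],[(k3,(nat_lit 7896)),(k5,(nat_lit 16638)),(k9,
    (nat_lit 16638)),(k6,(nat_lit 16758)),(k0,(nat_lit 20868)),(k2,(nat_lit 27636))],[(k5,(nat_lit 5640)),(k9,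
    (nat_lit 5640)),(k6,(nat_lit 5760)),(k2,(nat_lit 16638)),(k3,(nat_lit 16638)),(k0,(nat_lit 29610))],[(k1,
    (nat_lit 9870))],[(k8,(nat_lit 5760))],[(k5,(nat_lit 5760)),(k9,(nat_lit 5760)),(k6,(nat_lit 5880)),(k0,
    (nat_lit 9661)),(k2,(nat_lit 16758)),(k3,(nat_lit 17087))],[(k5,(nat_lit 5640)),(k9,(nat_lit 5640)),(k6,
    (nat_lit 5760)),(k0,(nat_lit 9541)),(k2,(nat_lit 16638)),(k3,(nat_lit 16967))],[(k7,(nat_lit 5760))]]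
    [] k0
    [[k1,k0,k1,k1,k1],[k0,k2,k0,k0,k0],[k0,k3,k0,k0,k0],[k0,k4,k0,k0,k0],[k0,k0,k0,k1,k1],[k0,k0,k0,k2,k2],[k0,k0,k0,
    k3,k3]]
    [.contra [y1,z0,z1],.contra [z1],.ref k3 k0 [(z1,[z0,z1]),(z1,[z1])],.ref k4 k0 [(z1,[z0,z1]),(z2,[z1])],
    .contra [y2,y1,z2],.contra [y1,y2,z2],.ref k2 k0 [(z1,[z0,z1]),(z1,[y1,y3,z3])]]),
    .old (.lp [k12,k16,k12,k16,k14] [k2,k2,k0,k0,k2,k2,k0,k0,k1,k1] k0 [[k0,k0,k0,k0,k0,k0,k1,k2],[],[],[k0,k0,k0,k0,k0,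
    k0,k0,k1],[],[],[k0,k2,k1],[k0,k1]] k48 k5
    [[(k4,k12)],[(k0,k12),(k5,k12),(k6,k12),(k9,k12),(k2,k14),(k3,k14)],[(k0,k14),(k5,k14),(k2,k16),(k3,k16),(k6,k17),
    (k9,k17)],[(k0,k14),(k5,k14),(k2,k16),(k3,k16),(k6,k16),(k9,k16)],[(k0,k12),(k5,k12),(k6,k13),(k9,k13),(k2,k14),
    (k3,k14)],[(k1,k12)],[(k8,k15)],[(k0,k12),(k5,k13),(k9,k15),(k2,k16),(k6,k16),(k3,k17)],[(k0,k12),(k5,k13),(k9,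
    k14),(k6,k15),(k2,k16),(k3,k17)],[(k7,k15)]]
    [] k0
    [[k1,k0,k1,k0,k0],[k1,k1,k1,k0,k0],[k0,k2,k0,k0,k0],[k0,k0,k0,k1,k1]]
    [.ref k5 k0 [(z1,[z1])],.ref k1 k0 [(z1,[z1])],.contra [z1],.ref k0 k0 [(z1,[y1,z1])]])]⟩

/-- classes `0 0 1 0 1`, types `S0 S0 N0 S0 N2` -/
noncomputable def cU5_116 : CertX :=
  ⟨[k0,k0,k28,k0,k30],[(false,k0,[k0,k1,k2,k3,k4]),(true,k2,[k2,k1,k0,k4,k3])],[[[([z1,z0,z0,z1,z0],z2)],[([z1,z0,z0,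
    z1,z0],z1)],[]]],
    [.old (.leafM k1 [k1,k2,k4] [] [(k3,k0,z1,[z1]),(k0,k3,z1,[z1])]),
    .old (.leafM k2 [k2,k3,k4,k0,k1] [(z1,[z1])] []),
    .old (.lp [k6,k8,k6,k6,k6] [k1,k1,k0,k0,k1,k1,k1,k1,k1,k1] k0 [] k24 k5
    [[(k7,k6)],[(k0,k6),(k5,k6),(k6,k6),(k9,k6),(k2,k7),(k3,k7)],[(k0,k7),(k5,k7),(k6,k7),(k9,k7),(k2,k8),(k3,k8)],
    [(k0,k7),(k5,k7),(k6,k7),(k9,k7),(k2,k8),(k3,k8)],[(k0,k6),(k5,k6),(k6,k6),(k9,k6),(k2,k7),(k3,k7)],[(k8,k6)],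
    [(k1,k6)],[(k0,k6),(k5,k6),(k6,k6),(k9,k6),(k2,k7),(k3,k7)],[(k0,k6),(k5,k6),(k6,k6),(k9,k6),(k2,k7),(k3,k7)],
    [(k4,k6)]]
    [] k0
    [[k1,k0,k0,k1,k0],[k1,k1,k0,k1,k0],[k0,k2,k0,k0,k0],[k0,k1,k1,k0,k1],[k0,k0,k1,k0,k1]]
    [.ref k0 k0 [(z1,[z1])],.ref k1 k1 [(z1,[y1,z1])],.contra [z1],.ref k1 k0 [(z1,[y1,z1])],.ref k0 k1 [(z1,[z1])]])]⟩

/-- classes `0 0 1 0 2`, types `C0 C0 C0 C0 C0` -/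
noncomputable def cU5_117 : CertX :=
  ⟨[k4,k4,k20,k4,k36],[(false,k0,[k0,k1,k2,k3,k4]),(true,k2,[k2,k1,k0,k4,k3])],[[[([z1,z0,z0,z0,z1],z2)],[([z1,z0,z0,
    z0,z1],z1)],[]]],
    [.old (.leafM k0 [k1,k2,k3] [] [(k4,k0,z1,[z1]),(k0,k4,z1,[z1])]),
    .old (.leafM k1 [k3,k4,k0,k1,k2] [(z1,[z1])] []),
    .old (.lp [k4,k4,k2,k4,k2] [k0,k0,k0,k0,k1,k1,k0,k0,k1,k1] k0 [] k12 k5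
    [[(k8,k3)],[(k5,k3),(k9,k3),(k3,k4)],[(k0,k4),(k2,k4),(k6,k4)],[(k5,k3),(k9,k3),(k3,k4)],[(k0,k3),(k2,k3),(k6,
    k3)],[(k7,k3)],[(k4,k3)],[(k5,k3),(k9,k3),(k3,k4)],[(k0,k3),(k2,k3),(k6,k3)],[(k1,k3)]]
    [] k0
    [[k1,k0,k0,k0,k1],[k1,k1,k0,k0,k1],[k0,k2,k0,k0,k0],[k0,k1,k1,k1,k0],[k0,k0,k1,k1,k0]]
    [.ref k0 k0 [(z1,[z1])],.ref k1 k1 [(z1,[y1,z1])],.contra [z1],.ref k1 k0 [(z1,[y1,z1])],.ref k0 k1 [(z1,[z1])]])]⟩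

/-- classes `0 0 1 0 2`, types `C0 C0 C0 C0 S0` -/
noncomputable def cU5_118 : CertX :=
  ⟨[k4,k4,k20,k4,k32],[(false,k0,[k0,k1,k2,k3,k4])],[[[([z1,z1,z0,z0,z1],z1)],[([z1,z0,z0,z0,z1],z1)],[([z1,z0,z0,z0,
    z1],z2)],[([z1,z1,z0,z0,z1],z2)],[]]],
    [.old (.leafM k0 [k0,k1,k4] [] [(k2,k3,z1,[y1,z1]),(k3,k2,z1,[y1,z1])]),
    .old (.leafM k1 [k3,k4,k0,k1,k2] [(z1,[z1])] []),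
    .old (.leafM k0 [k1,k2,k3] [] [(k4,k0,z1,[z1]),(k0,k4,z1,[z1])]),
    .old (.leafM k1 [k1,k2,k3,k4,k0] [(z1,[y1,z1])] []),
    .old (.lp [k6,k8,k6,k6,k6] [k1,k1,k0,k0,k1,k1,k1,k1,k1,k1] k0 [] k24 k5
    [[(k1,k6),(k8,k6)],[(k5,k6),(k9,k6),(k3,k7)],[(k0,k7),(k6,k7),(k2,k8)],[(k5,k7),(k9,k7),(k3,k8)],[(k0,k6),(k6,k6),
    (k2,k7)],[(k7,k6)],[(k4,k6)],[(k5,k6),(k9,k6),(k3,k7)],[(k0,k6),(k6,k6),(k2,k7)],[(k1,k6),(k8,k6)]]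
    [] k0
    [[k1,k0,k0,k0,k1],[k1,k1,k0,k0,k1],[k0,k2,k0,k0,k0],[k0,k1,k1,k1,k0],[k0,k0,k1,k1,k0]]
    [.ref k2 k0 [(z1,[z1])],.ref k3 k0 [(z1,[z1])],.contra [z1],.ref k1 k0 [(z1,[y1,z1])],.ref k0 k0 [(z1,[y1,z1])]])]⟩

/-- classes `0 0 1 0 2`, types `C0 C0 C0 C2 C0` -/
noncomputable def cU5_119 : CertX :=
  ⟨[k4,k4,k20,k6,k36],[],[[[]]],
    [.old (.lp [k6,k8,k6,k6,k6] [k1,k1,k0,k0,k1,k1,k1,k1,k1,k1] k0 [] k24 k5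
    [[(k8,k6)],[(k5,k6),(k6,k6),(k3,k7)],[(k0,k7),(k9,k7),(k2,k8)],[(k5,k7),(k6,k7),(k3,k8)],[(k0,k6),(k9,k6),(k2,
    k7)],[(k7,k6)],[(k4,k6)],[(k0,k6),(k9,k6),(k2,k7)],[(k5,k6),(k6,k6),(k3,k7)],[(k1,k6)]]
    [] k0
    [[k0,k2,k0,k0,k0]]
    [.contra [z1]])]⟩

/-- classes `0 0 1 0 2`, types `C0 C0 C0 C2 S0` -/
noncomputable def cU5_120 : CertX :=
  ⟨[k4,k4,k20,k6,k32],[],[[[]]],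
    [.old (.lp [k6,k8,k6,k6,k6] [k1,k1,k0,k0,k1,k1,k1,k1,k1,k1] k0 [] k24 k5
    [[(k1,k6),(k8,k6)],[(k5,k6),(k6,k6),(k3,k7)],[(k0,k7),(k9,k7),(k2,k8)],[(k5,k7),(k6,k7),(k3,k8)],[(k0,k6),(k9,k6),
    (k2,k7)],[(k7,k6)],[(k4,k6)],[(k0,k6),(k9,k6),(k2,k7)],[(k5,k6),(k6,k6),(k3,k7)],[(k1,k6),(k8,k6)]]
    [] k0
    [[k0,k2,k0,k0,k0]]
    [.contra [z1]])]⟩

/-- classes `0 0 1 0 2`, types `C0 C0 S0 C0 S0` -/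
noncomputable def cU5_121 : CertX :=
  ⟨[k4,k4,k16,k4,k32],[(false,k0,[k0,k1,k2,k3,k4]),(true,k2,[k2,k1,k0,k4,k3])],[[[([z1,z0,z0,z0,z1],z2)],[([z1,z0,z0,
    z0,z1],z1)],[]]],
    [.old (.leafM k0 [k1,k2,k3] [] [(k4,k0,z1,[z1]),(k0,k4,z1,[z1])]),
    .old (.leafM k1 [k3,k4,k0,k1,k2] [(z1,[z1])] []),
    .old (.lp [k6,k8,k6,k6,k6] [k1,k1,k0,k0,k1,k1,k1,k1,k1,k1] k0 [] k24 k5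
    [[(k1,k6),(k8,k6)],[(k5,k6),(k9,k6),(k3,k7)],[(k0,k7),(k6,k7),(k2,k8)],[(k5,k7),(k9,k7),(k3,k8)],[(k0,k6),(k6,k6),
    (k2,k7)],[(k4,k6),(k7,k6)],[(k4,k6),(k7,k6)],[(k5,k6),(k9,k6),(k3,k7)],[(k0,k6),(k6,k6),(k2,k7)],[(k1,k6),(k8,
    k6)]]
    [] k0
    [[k1,k0,k0,k0,k1],[k1,k1,k0,k0,k1],[k0,k2,k0,k0,k0],[k0,k1,k1,k1,k0],[k0,k0,k1,k1,k0]]
    [.ref k0 k0 [(z1,[z1])],.ref k1 k1 [(z1,[y1,z1])],.contra [z1],.ref k1 k0 [(z1,[y1,z1])],.ref k0 k1 [(z1,[z1])]])]⟩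

/-- classes `0 0 1 0 2`, types `C0 C0 S0 C2 S0` -/
noncomputable def cU5_122 : CertX :=
  ⟨[k4,k4,k16,k6,k32],[],[[[]]],
    [.old (.lp [k6,k8,k6,k6,k6] [k1,k1,k0,k0,k1,k1,k1,k1,k1,k1] k0 [] k24 k5
    [[(k1,k6),(k8,k6)],[(k5,k6),(k6,k6),(k3,k7)],[(k0,k7),(k9,k7),(k2,k8)],[(k5,k7),(k6,k7),(k3,k8)],[(k0,k6),(k9,k6),
    (k2,k7)],[(k4,k6),(k7,k6)],[(k4,k6),(k7,k6)],[(k0,k6),(k9,k6),(k2,k7)],[(k5,k6),(k6,k6),(k3,k7)],[(k1,k6),(k8,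
    k6)]]
    [] k0
    [[k0,k2,k0,k0,k0]]
    [.contra [z1]])]⟩

/-- classes `0 0 1 0 2`, types `C0 C2 C0 C0 C0` -/
noncomputable def cU5_123 : CertX :=
  ⟨[k4,k6,k20,k4,k36],[(false,k0,[k0,k1,k2,k3,k4])],[[[([z1,z0,z0,z0,z1],z1)],[([z1,z0,z0,z0,z1],z2)],[]]],
    [.old (.leafM k1 [k3,k4,k0,k1,k2] [(z1,[z1])] []),
    .old (.leafM k0 [k1,k2,k3] [] [(k4,k0,z1,[z1]),(k0,k4,z1,[z1])]),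
    .old (.lp [k2,k2,k2,k2,k2] [k0,k0,k0,k0,k0,k0,k0,k0,k0,k0] k0 [] k8 k5
    [[(k8,k2)],[(k2,k2),(k3,k2),(k9,k2)],[(k0,k2),(k5,k2),(k6,k2)],[(k0,k2),(k5,k2),(k6,k2)],[(k2,k2),(k3,k2),(k9,
    k2)],[(k7,k2)],[(k4,k2)],[(k2,k2),(k3,k2),(k9,k2)],[(k0,k2),(k5,k2),(k6,k2)],[(k1,k2)]]
    [] k0
    [[k1,k0,k0,k0,k1],[k0,k1,k1,k1,k0]]
    [.ref k1 k0 [(z1,[z1])],.ref k0 k0 [(z1,[y1,z1])]])]⟩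

/-- classes `0 0 1 0 2`, types `C0 C2 C0 C0 S0` -/
noncomputable def cU5_124 : CertX :=
  ⟨[k4,k6,k20,k4,k32],[(false,k0,[k0,k1,k2,k3,k4])],[[[([z1,z0,z0,z0,z1],z1)],[([z1,z0,z0,z0,z1],z2)],[]]],
    [.old (.leafM k1 [k3,k4,k0,k1,k2] [(z1,[z1])] []),
    .old (.leafM k0 [k1,k2,k3] [] [(k4,k0,z1,[z1]),(k0,k4,z1,[z1])]),
    .old (.lp [k6,k4,k4,k4,k4] [k0,k0,k1,k1,k1,k1,k1,k1,k1,k1] k0 [] k16 k5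
    [[(k8,k5),(k1,k6)],[(k2,k5),(k3,k5),(k9,k5)],[(k5,k4),(k6,k4),(k0,k5)],[(k5,k4),(k6,k4),(k0,k5)],[(k2,k4),(k3,k4),
    (k9,k4)],[(k7,k4)],[(k4,k4)],[(k2,k4),(k3,k4),(k9,k4)],[(k5,k4),(k6,k4),(k0,k5)],[(k8,k4),(k1,k5)]]
    [] k0
    [[k1,k0,k0,k0,k1],[k0,k1,k1,k1,k0]]
    [.ref k1 k0 [(z1,[z1])],.ref k0 k0 [(z1,[y1,z1])]])]⟩

/-- classes `0 0 1 0 2`, types `C0 C2 C0 C2 S0` -/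
noncomputable def cU5_125 : CertX :=
  ⟨[k4,k6,k20,k6,k32],[(false,k0,[k0,k1,k2,k3,k4])],[[[([z1,z1,z0,z0,z1],z1)],[([z1,z1,z0,z0,z1],z2)],[]]],
    [.old (.leafM k0 [k0,k1,k4] [] [(k2,k3,z1,[y1,z1]),(k3,k2,z1,[y1,z1])]),
    .old (.leafM k1 [k1,k2,k3,k4,k0] [(z1,[y1,z1])] []),
    .old (.lp [k14,k20,k4,k20,k12] [k3,k3,k0,k0,k8,k8,k0,k0,k4,k4] k0 [[k0,k0,k0,k0,k0,k0,k0,k4],[],[],[],[],[],[k0,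
    k4]] k48 k5
    [[(k8,k13),(k1,k14)],[(k6,k13),(k2,k17),(k3,k17)],[(k5,k12),(k0,k17),(k9,k20)],[(k5,k12),(k9,k16),(k0,k17)],[(k2,
    k12),(k3,k12),(k6,k12)],[(k7,k12)],[(k4,k12)],[(k5,k12),(k0,k13),(k9,k16)],[(k2,k16),(k6,k16),(k3,k20)],[(k8,k12),
    (k1,k13)]]
    [] k0
    [[k1,k1,k0,k0,k1],[k0,k0,k1,k1,k0]]
    [.ref k1 k0 [(z1,[z1])],.ref k0 k0 [(z1,[y1,z1])]])]⟩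

/-- classes `0 0 1 0 2`, types `C0 C2 S0 C0 S0` -/
noncomputable def cU5_126 : CertX :=
  ⟨[k4,k6,k16,k4,k32],[(false,k0,[k0,k1,k2,k3,k4])],[[[([z1,z1,z1,z0,z0],z2)],[([z1,z0,z0,z0,z1],z1)],[([z1,z0,z0,z0,
    z1],z2)],[]]],
    [.old (.leafM k0 [k3,k4,k0,k1,k2] [(z1,[y1,z1])] []),
    .old (.leafM k1 [k3,k4,k0,k1,k2] [(z1,[z1])] []),
    .old (.leafM k0 [k1,k2,k3] [] [(k4,k0,z1,[z1]),(k0,k4,z1,[z1])]),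
    .old (.lp [k36,k48,k36,k34,k24] [k6,k6,k0,k0,k6,k6,k7,k7,k12,k12] k0 [[k0,k0,k0,k0,k0,k0,k6],[],[k0,k0,k0,k0,k0,k0,k0,
    k2],[],[],[],[k0,k0,k0,k2],[k0,k6]] k120 k6
    [[(k8,k30),(k1,k36)],[(k9,k24),(k2,k42),(k3,k42)],[(k0,k42),(k5,k42),(k6,k47)],[(k6,k39),(k0,k42),(k5,k42)],[(k9,
    k32),(k2,k42),(k3,k42)],[(k7,k35),(k4,k36)],[(k7,k34),(k4,k35)],[(k9,k29),(k2,k39),(k3,k47)],[(k0,k24),(k6,k29),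
    (k5,k32)],[(k8,k24),(k1,k30)]]
    [] k0
    [[k2,k0,k0,k0,k2],[k1,k0,k0,k0,k1],[k0,k1,k1,k1,k0],[k0,k0,k0,k2,k2]]
    [.ref k1 k0 [(z2,[z1])],.ref k2 k0 [(z1,[z1])],.ref k1 k0 [(z1,[y1,z1])],.ref k0 k0 [(z2,[y1,z2])]])]⟩

/-- classes `0 0 1 0 2`, types `S0 S0 C0 S0 C0` -/
noncomputable def cU5_127 : CertX :=
  ⟨[k0,k0,k20,k0,k36],[(false,k0,[k0,k1,k2,k3,k4]),(true,k2,[k2,k1,k0,k4,k3])],[[[([z1,z0,z0,z0,z1],z2)],[([z1,z0,z0,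
    z0,z1],z1)],[]]],
    [.old (.leafM k0 [k1,k2,k3] [] [(k4,k0,z1,[z1]),(k0,k4,z1,[z1])]),
    .old (.leafM k0 [k4,k0,k1,k2,k3] [(z1,[z1])] []),
    .old (.lp [k6,k8,k6,k6,k6] [k1,k1,k0,k0,k1,k1,k1,k1,k1,k1] k0 [] k24 k5
    [[(k8,k6)],[(k0,k6),(k5,k6),(k6,k6),(k9,k6),(k2,k7),(k3,k7)],[(k0,k7),(k5,k7),(k6,k7),(k9,k7),(k2,k8),(k3,k8)],
    [(k0,k7),(k5,k7),(k6,k7),(k9,k7),(k2,k8),(k3,k8)],[(k0,k6),(k5,k6),(k6,k6),(k9,k6),(k2,k7),(k3,k7)],[(k7,k6)],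
    [(k4,k6)],[(k0,k6),(k5,k6),(k6,k6),(k9,k6),(k2,k7),(k3,k7)],[(k0,k6),(k5,k6),(k6,k6),(k9,k6),(k2,k7),(k3,k7)],
    [(k1,k6)]]
    [] k0
    [[k1,k0,k0,k0,k1],[k1,k1,k0,k0,k1],[k0,k2,k0,k0,k0],[k0,k1,k1,k1,k0],[k0,k0,k1,k1,k0]]
    [.ref k0 k0 [(z1,[z1])],.ref k1 k1 [(z1,[y1,z1])],.contra [z1],.ref k1 k0 [(z1,[y1,z1])],.ref k0 k1 [(z1,[z1])]])]⟩

/-- classes `0 0 1 0 2`, types `S0 S0 C0 S0 S0` -/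
noncomputable def cU5_128 : CertX :=
  ⟨[k0,k0,k20,k0,k32],[(false,k0,[k0,k1,k2,k3,k4])],[[[([z1,z1,z0,z0,z1],z1)],[([z1,z0,z0,z0,z1],z1)],[([z1,z0,z0,z0,
    z1],z2)],[([z1,z1,z0,z0,z1],z2)],[]]],
    [.old (.leafM k0 [k0,k1,k4] [] [(k2,k3,z1,[y1,z1]),(k3,k2,z1,[y1,z1])]),
    .old (.leafM k0 [k4,k0,k1,k2,k3] [(z1,[z1])] []),
    .old (.leafM k0 [k1,k2,k3] [] [(k4,k0,z1,[z1]),(k0,k4,z1,[z1])]),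
    .old (.leafM k0 [k2,k3,k4,k0,k1] [(z1,[y1,z1])] []),
    .old (.lp [k12,k20,k12,k12,k14] [k4,k4,k0,k0,k4,k4,k4,k4,k3,k3] k0 [[],[k0,k0,k4],[],[k4]] k48 k5
    [[(k1,k12),(k8,k13)],[(k0,k12),(k5,k12),(k6,k12),(k9,k13),(k3,k16),(k2,k20)],[(k5,k12),(k0,k16),(k6,k16),(k9,k17),
    (k2,k20),(k3,k20)],[(k5,k16),(k6,k16),(k9,k17),(k0,k20),(k2,k20),(k3,k20)],[(k0,k12),(k3,k12),(k5,k12),(k6,k12),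
    (k9,k13),(k2,k16)],[(k7,k12)],[(k4,k12)],[(k0,k12),(k5,k12),(k6,k12),(k9,k13),(k2,k16),(k3,k16)],[(k0,k13),(k5,
    k13),(k6,k13),(k9,k14),(k2,k17),(k3,k17)],[(k1,k13),(k8,k14)]]
    [] k0
    [[k2,k0,k0,k0,k0],[k1,k0,k0,k0,k1],[k1,k1,k0,k0,k1],[k0,k2,k0,k0,k0],[k0,k1,k1,k1,k0],[k0,k0,k1,k1,k0],[k0,k0,k0,
    k0,k2]]
    [.contra [z1],.ref k2 k0 [(z1,[z1])],.ref k3 k0 [(z1,[z1])],.contra [z1],.ref k1 k0 [(z1,[y1,z1])],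
    .ref k0 k0 [(z1,[y1,z1])],.contra [z1]])]⟩

/-- classes `0 0 1 1 2`, types `B0 B1 B0 B1 C0` -/
noncomputable def cU5_129 : CertX :=
  ⟨[k8,k9,k24,k25,k36],[(true,k4,[k4,k3,k2,k1,k0]),(false,k0,[k0,k1,k2,k3,k4])],[[[([z1,z0,z1,z0,z1],z2),([z0,z3,z0,
    z0,z0],z1)],[([z1,z0,z1,z0,z1],z2),([z0,z2,z0,z0,z0],z1)],[([z1,z0,z1,z0,z1],z2)],[]]],
    [.old (.leafM k6 [k0,k1,k2,k3,k4] [(z1,[z0,z1]),(z1,[y3,y1,z3])] []),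
    .old (.leafM k5 [k0,k1,k2,k3,k4] [(z1,[z0,z1]),(z1,[y2,y1,z2])] []),
    .old (.lp [k8,k8,k8,k10,k24] [k8,k8,k8,k8,k8,k8,k7,k7,k0,k0] k0 [] k40 k6
    [[(k8,k16)],[(k2,k8),(k5,k8)],[(k2,k8),(k5,k8)],[(k0,k8),(k3,k8)],[(k0,k8),(k3,k8)],[(k6,k9),(k9,k16)],[(k6,k10),
    (k9,k17)],[(k4,k9),(k7,k10)],[(k4,k16),(k7,k17)],[(k1,k16)]]
    [] k0
    [[k0,k2,k0,k0,k0],[k0,k3,k0,k0,k0],[k0,k4,k0,k0,k0],[k0,k0,k0,k2,k0],[k0,k0,k0,k3,k0]]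
    [.contra [z1],.ref k0 k0 [(z1,[z0,z1]),(z1,[y1,y3,z3])],.ref k1 k1 [(z1,[z0,z1]),(z2,[z1])],.contra [z1],
    .ref k0 k1 [(z1,[z0,z1]),(z1,[y1,y3,z3])]]),
    .old (.lp [k6,k8,k6,k8,k6] [k1,k1,k0,k0,k1,k1,k0,k0,k1,k1] k0 [] k24 k5
    [[(k8,k6)],[(k5,k6),(k2,k7)],[(k5,k7),(k2,k8)],[(k0,k7),(k3,k8)],[(k0,k6),(k3,k7)],[(k9,k6),(k6,k7)],[(k9,k7),(k6,
    k8)],[(k4,k7),(k7,k8)],[(k4,k6),(k7,k7)],[(k1,k6)]]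
    [] k0
    [[k1,k0,k1,k0,k1],[k0,k2,k0,k0,k0],[k0,k0,k0,k2,k0]]
    [.ref k2 k1 [(z1,[z1])],.contra [z1],.contra [z1]])]⟩

/-- classes `0 0 1 1 2`, types `B0 B1 B0 B1 S0` -/
noncomputable def cU5_130 : CertX :=
  ⟨[k8,k9,k24,k25,k32],[(true,k4,[k4,k3,k2,k1,k0]),(false,k0,[k0,k1,k2,k3,k4])],[[[([z1,z0,z1,z0,z1],z2),([z0,z3,z0,
    z0,z0],z1)],[([z1,z0,z1,z0,z1],z2),([z0,z2,z0,z0,z0],z1)],[([z1,z0,z1,z0,z1],z2)],[]]],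
    [.old (.leafM k6 [k0,k1,k2,k3,k4] [(z1,[z0,z1]),(z1,[y3,y1,z3])] []),
    .old (.leafM k5 [k0,k1,k2,k3,k4] [(z1,[z0,z1]),(z1,[y2,y1,z2])] []),
    .old (.lp [k24,k10,k8,k8,k8] [k0,k0,k7,k7,k8,k8,k8,k8,k8,k8] k0 [] k40 k6
    [[(k8,k16),(k1,k24)],[(k5,k16),(k2,k17)],[(k5,k9),(k2,k10)],[(k3,k10),(k0,k17)],[(k3,k9),(k0,k16)],[(k6,k8),(k9,
    k8)],[(k6,k8),(k9,k8)],[(k4,k8),(k7,k8)],[(k4,k8),(k7,k8)],[(k8,k8),(k1,k16)]]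
    [] k0
    [[k0,k2,k0,k0,k0],[k0,k3,k0,k0,k0],[k0,k0,k0,k2,k0],[k0,k0,k0,k3,k0],[k0,k0,k0,k4,k0]]
    [.contra [z1],.ref k0 k0 [(z1,[z0,z1]),(z1,[y1,y3,z3])],.contra [z1],.ref k0 k1 [(z1,[z0,z1]),(z1,[y1,y3,z3])],
    .ref k1 k1 [(z1,[z0,z1]),(z2,[y1,y4,z4])]]),
    .old (.lp [k6,k8,k6,k8,k6] [k1,k1,k0,k0,k1,k1,k0,k0,k1,k1] k0 [] k24 k5
    [[(k1,k6),(k8,k6)],[(k5,k6),(k2,k7)],[(k5,k7),(k2,k8)],[(k0,k7),(k3,k8)],[(k0,k6),(k3,k7)],[(k9,k6),(k6,k7)],[(k9,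
    k7),(k6,k8)],[(k4,k7),(k7,k8)],[(k4,k6),(k7,k7)],[(k1,k6),(k8,k6)]]
    [] k0
    [[k1,k0,k1,k0,k1],[k0,k2,k0,k0,k0],[k0,k0,k0,k2,k0]]
    [.ref k2 k1 [(z1,[z1])],.contra [z1],.contra [z1]])]⟩

/-- classes `0 0 1 1 2`, types `B0 B1 C0 C0 C0` -/
noncomputable def cU5_131 : CertX :=
  ⟨[k8,k9,k20,k20,k36],[(false,k0,[k0,k1,k2,k3,k4])],[[[([z1,z0,z1,z0,z1],z2),([z0,z3,z0,z0,z0],z1)],[([z1,z0,z1,z0,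
    z1],z2),([z0,z2,z0,z0,z0],z1)],[([z1,z0,z1,z0,z1],z2),([z0,z3,z0,z0,z0],z2)],[([z1,z0,z1,z0,z1],z2)],[]]],
    [.old (.leafM k6 [k0,k1,k2,k3,k4] [(z1,[z0,z1]),(z1,[y3,y1,z3])] []),
    .old (.leafM k5 [k0,k1,k2,k3,k4] [(z1,[z0,z1]),(z1,[y2,y1,z2])] []),
    .old (.leafM k4 [k0,k1,k2,k3,k4] [(z1,[z0,z1]),(z1,[y3,y1,z3])] []),
    .old (.lp [k24,k10,k8,k8,k8] [k0,k0,k7,k7,k8,k8,k8,k8,k8,k8] k0 [] k40 k6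
    [[(k8,k16)],[(k5,k16),(k2,k17)],[(k5,k9),(k2,k10)],[(k3,k10),(k0,k17)],[(k3,k9),(k0,k16)],[(k7,k8),(k9,k8)],[(k4,
    k8),(k6,k8)],[(k7,k8),(k9,k8)],[(k4,k8),(k6,k8)],[(k1,k16)]]
    [] k0
    [[k0,k2,k0,k0,k0],[k0,k3,k0,k0,k0],[k0,k0,k0,k2,k0],[k0,k0,k0,k3,k0],[k0,k0,k0,k4,k0]]
    [.contra [z1],.ref k2 k0 [(z1,[z0,z1]),(z1,[z1])],.contra [z1],.ref k0 k0 [(z1,[z0,z1]),(z1,[y1,y3,z3])],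
    .ref k1 k0 [(z1,[z0,z1]),(z2,[y1,y4,z4])]]),
    .old (.lp [k6,k8,k6,k8,k6] [k1,k1,k0,k0,k1,k1,k0,k0,k1,k1] k0 [] k24 k5
    [[(k8,k6)],[(k5,k6),(k2,k7)],[(k5,k7),(k2,k8)],[(k0,k7),(k3,k8)],[(k0,k6),(k3,k7)],[(k9,k6),(k7,k7)],[(k4,k7),(k6,
    k8)],[(k9,k7),(k7,k8)],[(k4,k6),(k6,k7)],[(k1,k6)]]
    [] k0
    [[k1,k0,k1,k0,k1],[k0,k2,k0,k0,k0],[k0,k0,k0,k2,k0]]
    [.ref k3 k0 [(z1,[z1])],.contra [z1],.contra [z1]])]⟩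

/-- classes `0 0 1 1 2`, types `B0 B1 C0 C0 S0` -/
noncomputable def cU5_132 : CertX :=
  ⟨[k8,k9,k20,k20,k32],[(false,k0,[k0,k1,k2,k3,k4])],[[[([z1,z0,z1,z0,z1],z2),([z0,z3,z0,z0,z0],z1)],[([z1,z0,z1,z0,
    z1],z2),([z0,z3,z0,z0,z0],z2)],[([z1,z0,z1,z0,z1],z2),([z0,z2,z0,z0,z0],z1)],[([z1,z0,z1,z0,z1],z2)],[]]],
    [.old (.leafM k6 [k0,k1,k2,k3,k4] [(z1,[z0,z1]),(z1,[y3,y1,z3])] []),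
    .old (.leafM k4 [k0,k1,k2,k3,k4] [(z1,[z0,z1]),(z1,[y3,y1,z3])] []),
    .old (.leafM k5 [k0,k1,k2,k3,k4] [(z1,[z0,z1]),(z1,[y2,y1,z2])] []),
    .old (.lp [k8,k8,k8,k10,k24] [k8,k8,k8,k8,k8,k8,k7,k7,k0,k0] k0 [] k40 k6
    [[(k1,k8),(k8,k16)],[(k2,k8),(k5,k8)],[(k2,k8),(k5,k8)],[(k0,k8),(k3,k8)],[(k0,k8),(k3,k8)],[(k7,k9),(k9,k16)],
    [(k4,k9),(k6,k10)],[(k7,k10),(k9,k17)],[(k4,k16),(k6,k17)],[(k1,k16),(k8,k24)]]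
    [] k0
    [[k0,k2,k0,k0,k0],[k0,k3,k0,k0,k0],[k0,k4,k0,k0,k0],[k0,k0,k0,k2,k0],[k0,k0,k0,k3,k0]]
    [.contra [z1],.ref k1 k0 [(z1,[z0,z1]),(z1,[z1])],.ref k2 k0 [(z1,[z0,z1]),(z2,[z1])],.contra [z1],
    .ref k0 k0 [(z1,[z0,z1]),(z1,[y1,y3,z3])]]),
    .old (.lp [k6,k8,k6,k8,k6] [k1,k1,k0,k0,k1,k1,k0,k0,k1,k1] k0 [] k24 k5
    [[(k1,k6),(k8,k6)],[(k5,k6),(k2,k7)],[(k5,k7),(k2,k8)],[(k0,k7),(k3,k8)],[(k0,k6),(k3,k7)],[(k9,k6),(k7,k7)],[(k4,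
    k7),(k6,k8)],[(k9,k7),(k7,k8)],[(k4,k6),(k6,k7)],[(k1,k6),(k8,k6)]]
    [] k0
    [[k1,k0,k1,k0,k1],[k0,k2,k0,k0,k0],[k0,k0,k0,k2,k0]]
    [.ref k3 k0 [(z1,[z1])],.contra [z1],.contra [z1]])]⟩

/-- classes `0 0 1 1 2`, types `B0 B1 C0 C2 C0` -/
noncomputable def cU5_133 : CertX :=
  ⟨[k8,k9,k20,k22,k36],[],[[[]]],
    [.old (.lp [k4,k4,k2,k4,k2] [k0,k0,k0,k0,k1,k1,k0,k0,k1,k1] k0 [] k12 k5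
    [[(k8,k3)],[(k5,k3),(k2,k4)],[(k5,k3),(k2,k4)],[(k0,k4),(k3,k4)],[(k0,k3),(k3,k3)],[(k6,k3),(k7,k3)],[(k4,k3),(k9,
    k3)],[(k4,k3),(k9,k3)],[(k6,k3),(k7,k3)],[(k1,k3)]]
    [] k0
    [[k0,k2,k0,k0,k0]]
    [.contra [z1]])]⟩

/-- classes `0 0 1 1 2`, types `B0 B1 C0 C2 S0` -/
noncomputable def cU5_134 : CertX :=
  ⟨[k8,k9,k20,k22,k32],[],[[[]]],
    [.old (.lp [k12,k16,k12,k12,k18] [k3,k3,k1,k1,k3,k3,k3,k3,k0,k0] k0 [] k48 k5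
    [[(k1,k12),(k8,k15)],[(k5,k12),(k2,k14)],[(k5,k14),(k2,k16)],[(k0,k14),(k3,k16)],[(k0,k12),(k3,k14)],[(k6,k12),
    (k7,k12)],[(k4,k12),(k9,k15)],[(k4,k12),(k9,k15)],[(k6,k15),(k7,k15)],[(k1,k15),(k8,k18)]]
    [] k0
    [[k0,k2,k0,k0,k0]]
    [.contra [z1]])]⟩

/-- classes `0 0 1 1 2`, types `B0 B1 N0 N1 C0` -/
noncomputable def cU5_135 : CertX :=
  ⟨[k8,k9,k28,k29,k36],[(false,k0,[k0,k1,k2,k3,k4])],[[[([z1,z0,z1,z0,z1],z2),([z0,z3,z0,z0,z0],z1)],[([z1,z0,z1,z0,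
    z1],z2),([z0,z2,z0,z0,z0],z1)],[([z1,z0,z1,z0,z1],z2),([z0,z3,z0,z0,z0],z2)],[([z1,z0,z1,z0,z1],z2)],[]]],
    [.old (.leafM k6 [k0,k1,k2,k3,k4] [(z1,[z0,z1]),(z1,[y3,y1,z3])] []),
    .old (.leafM k5 [k0,k1,k2,k3,k4] [(z1,[z0,z1]),(z1,[y2,y1,z2])] []),
    .old (.leafM k4 [k0,k1,k2,k3,k4] [(z1,[z0,z1]),(z1,[y3,y1,z3])] []),
    .old (.lp [k24,k10,k16,k8,k0] [k0,k0,k7,k7,k4,k4,k8,k8,k12,k12] k0 [] k40 k6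
    [[(k8,k12)],[(k2,k17),(k5,k20)],[(k2,k10),(k5,k13)],[(k3,k10),(k0,k17)],[(k3,k13),(k0,k20)],[(k9,k8)],[(k6,k8)],
    [(k7,k8)],[(k4,k8)],[(k1,k12)]]
    [] k0
    [[k0,k2,k0,k0,k0],[k0,k3,k0,k0,k0],[k0,k0,k0,k2,k0],[k0,k0,k0,k3,k0],[k0,k0,k0,k4,k0]]
    [.contra [z1],.ref k2 k0 [(z1,[z0,z1]),(z1,[z1])],.contra [z1],.ref k0 k0 [(z1,[z0,z1]),(z1,[y1,y3,z3])],
    .ref k1 k0 [(z1,[z0,z1]),(z2,[y1,y4,z4])]]),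
    .old (.lp [k6,k8,k6,k8,k6] [k1,k1,k0,k0,k1,k1,k0,k0,k1,k1] k0 [] k24 k5
    [[(k8,k6)],[(k5,k6),(k2,k7)],[(k5,k7),(k2,k8)],[(k0,k7),(k3,k8)],[(k0,k6),(k3,k7)],[(k9,k6)],[(k6,k8)],[(k7,k8)],
    [(k4,k6)],[(k1,k6)]]
    [] k0
    [[k1,k0,k1,k0,k1],[k0,k2,k0,k0,k0],[k0,k0,k0,k2,k0]]
    [.ref k3 k0 [(z1,[z1])],.contra [z1],.contra [z1]])]⟩

/-- classes `0 0 1 1 2`, types `B0 B1 N0 N1 S0` -/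
noncomputable def cU5_136 : CertX :=
  ⟨[k8,k9,k28,k29,k32],[(false,k0,[k0,k1,k2,k3,k4])],[[[([z1,z0,z1,z0,z1],z2),([z0,z3,z0,z0,z0],z1)],[([z1,z0,z1,z0,
    z1],z2),([z0,z3,z0,z0,z0],z2)],[([z1,z0,z1,z0,z1],z2),([z0,z2,z0,z0,z0],z1)],[([z1,z0,z1,z0,z1],z2)],[]]],
    [.old (.leafM k6 [k0,k1,k2,k3,k4] [(z1,[z0,z1]),(z1,[y3,y1,z3])] []),
    .old (.leafM k4 [k0,k1,k2,k3,k4] [(z1,[z0,z1]),(z1,[y3,y1,z3])] []),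
    .old (.leafM k5 [k0,k1,k2,k3,k4] [(z1,[z0,z1]),(z1,[y2,y1,z2])] []),
    .old (.lp [k8,k8,k8,k10,k24] [k8,k8,k8,k8,k8,k8,k7,k7,k0,k0] k0 [] k40 k6
    [[(k1,k8),(k8,k16)],[(k2,k8),(k5,k8)],[(k2,k8),(k5,k8)],[(k0,k8),(k3,k8)],[(k0,k8),(k3,k8)],[(k9,k16)],[(k6,k10)],
    [(k7,k10)],[(k4,k16)],[(k1,k16),(k8,k24)]]
    [] k0
    [[k0,k2,k0,k0,k0],[k0,k3,k0,k0,k0],[k0,k4,k0,k0,k0],[k0,k0,k0,k2,k0],[k0,k0,k0,k3,k0]]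
    [.contra [z1],.ref k1 k0 [(z1,[z0,z1]),(z1,[z1])],.ref k2 k0 [(z1,[z0,z1]),(z2,[z1])],.contra [z1],
    .ref k0 k0 [(z1,[z0,z1]),(z1,[y1,y3,z3])]]),
    .old (.lp [k6,k8,k6,k8,k6] [k1,k1,k0,k0,k1,k1,k0,k0,k1,k1] k0 [] k24 k5
    [[(k1,k6),(k8,k6)],[(k5,k6),(k2,k7)],[(k5,k7),(k2,k8)],[(k0,k7),(k3,k8)],[(k0,k6),(k3,k7)],[(k9,k6)],[(k6,k8)],
    [(k7,k8)],[(k4,k6)],[(k1,k6),(k8,k6)]]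
    [] k0
    [[k1,k0,k1,k0,k1],[k0,k2,k0,k0,k0],[k0,k0,k0,k2,k0]]
    [.ref k3 k0 [(z1,[z1])],.contra [z1],.contra [z1]])]⟩

/-- classes `0 0 1 1 2`, types `B0 B1 N0 N2 C0` -/
noncomputable def cU5_137 : CertX :=
  ⟨[k8,k9,k28,k30,k36],[],[[[]]],
    [.old (.lp [k4,k4,k2,k4,k2] [k0,k0,k0,k0,k1,k1,k0,k0,k1,k1] k0 [] k12 k5
    [[(k8,k3)],[(k5,k3),(k2,k4)],[(k5,k3),(k2,k4)],[(k0,k4),(k3,k4)],[(k0,k3),(k3,k3)],[(k6,k3)],[(k9,k3)],[(k4,k3)],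
    [(k7,k3)],[(k1,k3)]]
    [] k0
    [[k0,k2,k0,k0,k0]]
    [.contra [z1]])]⟩

/-- classes `0 0 1 1 2`, types `B0 B1 N0 N2 S0` -/
noncomputable def cU5_138 : CertX :=
  ⟨[k8,k9,k28,k30,k32],[],[[[]]],
    [.old (.lp [k6,k8,k6,k6,k6] [k1,k1,k0,k0,k1,k1,k1,k1,k1,k1] k0 [] k24 k5
    [[(k1,k6),(k8,k6)],[(k5,k6),(k2,k7)],[(k5,k7),(k2,k8)],[(k0,k7),(k3,k8)],[(k0,k6),(k3,k7)],[(k6,k6)],[(k9,k6)],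
    [(k4,k6)],[(k7,k6)],[(k1,k6),(k8,k6)]]
    [] k0
    [[k0,k2,k0,k0,k0]]
    [.contra [z1]])]⟩

/-- classes `0 0 1 1 2`, types `B0 B1 S0 S0 C0` -/
noncomputable def cU5_139 : CertX :=
  ⟨[k8,k9,k16,k16,k36],[(false,k0,[k0,k1,k2,k3,k4])],[[[([z1,z0,z1,z0,z1],z2),([z0,z3,z0,z0,z0],z1)],[([z1,z0,z1,z0,
    z1],z2),([z0,z3,z0,z0,z0],z2)],[([z1,z0,z1,z0,z1],z2),([z0,z2,z0,z0,z0],z1)],[([z1,z0,z1,z0,z1],z2)],[]]],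
    [.old (.leafM k6 [k0,k1,k2,k3,k4] [(z1,[z0,z1]),(z1,[y3,y1,z3])] []),
    .old (.leafM k4 [k0,k1,k2,k3,k4] [(z1,[z0,z1]),(z1,[y3,y1,z3])] []),
    .old (.leafM k5 [k0,k1,k2,k3,k4] [(z1,[z0,z1]),(z1,[y2,y1,z2])] []),
    .old (.lp [k8,k8,k24,k10,k8] [k8,k8,k8,k8,k0,k0,k7,k7,k8,k8] k0 [] k40 k6
    [[(k8,k8)],[(k2,k8),(k5,k16)],[(k2,k8),(k5,k16)],[(k0,k8),(k3,k8)],[(k0,k16),(k3,k16)],[(k9,k16),(k6,k17),(k7,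
    k17),(k4,k24)],[(k9,k9),(k6,k10),(k7,k10),(k4,k17)],[(k9,k9),(k6,k10),(k7,k10),(k4,k17)],[(k9,k8),(k6,k9),(k7,k9),
    (k4,k16)],[(k1,k8)]]
    [] k0
    [[k0,k2,k0,k0,k0],[k0,k3,k0,k0,k0],[k0,k4,k0,k0,k0],[k0,k0,k0,k2,k0],[k0,k0,k0,k3,k0]]
    [.contra [z1],.ref k1 k0 [(z1,[z0,z1]),(z1,[z1])],.ref k2 k0 [(z1,[z0,z1]),(z2,[z1])],.contra [z1],
    .ref k0 k0 [(z1,[z0,z1]),(z1,[y1,y3,z3])]]),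
    .old (.lp [k6,k8,k6,k8,k6] [k1,k1,k0,k0,k1,k1,k0,k0,k1,k1] k0 [] k24 k5
    [[(k8,k6)],[(k5,k6),(k2,k7)],[(k5,k7),(k2,k8)],[(k0,k7),(k3,k8)],[(k0,k6),(k3,k7)],[(k4,k6),(k9,k6),(k6,k7),(k7,
    k7)],[(k4,k7),(k9,k7),(k6,k8),(k7,k8)],[(k4,k7),(k9,k7),(k6,k8),(k7,k8)],[(k4,k6),(k9,k6),(k6,k7),(k7,k7)],[(k1,
    k6)]]
    [] k0
    [[k1,k0,k1,k0,k1],[k0,k2,k0,k0,k0],[k0,k0,k0,k2,k0]]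
    [.ref k3 k0 [(z1,[z1])],.contra [z1],.contra [z1]])]⟩

/-- classes `0 0 1 1 2`, types `B0 B1 S0 S0 S0` -/
noncomputable def cU5_140 : CertX :=
  ⟨[k8,k9,k16,k16,k32],[(false,k0,[k0,k1,k2,k3,k4])],[[[([z1,z0,z1,z0,z1],z2),([z0,z3,z0,z0,z0],z1)],[([z1,z0,z1,z0,
    z1],z2),([z0,z3,z0,z0,z0],z2)],[([z1,z0,z1,z0,z1],z2),([z0,z2,z0,z0,z0],z1)],[([z1,z0,z1,z0,z1],z2)],[]]],
    [.old (.leafM k6 [k0,k1,k2,k3,k4] [(z1,[z0,z1]),(z1,[y3,y1,z3])] []),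
    .old (.leafM k4 [k0,k1,k2,k3,k4] [(z1,[z0,z1]),(z1,[y3,y1,z3])] []),
    .old (.leafM k5 [k0,k1,k2,k3,k4] [(z1,[z0,z1]),(z1,[y2,y1,z2])] []),
    .old (.lp [k8,k8,k12,k10,k20] [k6,k6,k6,k6,k4,k4,k5,k5,k0,k0] k0 [] k40 k6
    [[(k1,k8),(k8,k14)],[(k2,k8),(k5,k10)],[(k2,k8),(k5,k10)],[(k0,k8),(k3,k8)],[(k0,k10),(k3,k10)],[(k6,k11),(k7,
    k11),(k4,k12),(k9,k16)],[(k6,k10),(k7,k10),(k4,k11),(k9,k15)],[(k6,k10),(k7,k10),(k4,k11),(k9,k15)],[(k6,k15),(k7,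
    k15),(k4,k16),(k9,k20)],[(k1,k14),(k8,k20)]]
    [] k0
    [[k0,k2,k0,k0,k0],[k0,k3,k0,k0,k0],[k0,k4,k0,k0,k0],[k0,k0,k0,k2,k0],[k0,k0,k0,k3,k0]]
    [.contra [z1],.ref k1 k0 [(z1,[z0,z1]),(z1,[z1])],.ref k2 k0 [(z1,[z0,z1]),(z2,[z1])],.contra [z1],
    .ref k0 k0 [(z1,[z0,z1]),(z1,[y1,y3,z3])]]),
    .old (.lp [k114,k152,k114,k152,k144] [k19,k19,k0,k0,k19,k19,k0,k0,k4,k4] k0 [[],[],[],[],[k0,k0,k0,k0,k0,k0,k0,k19],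
    [],[k0,k0,k0,k0,k0,k19]] (nat_lit 456) k5
    [[(k1,k114),(k8,k129)],[(k5,k114),(k2,k133)],[(k5,k133),(k2,k152)],[(k0,k133),(k3,k152)],[(k0,k114),(k3,k133)],
    [(k4,k114),(k6,k114),(k9,k129),(k7,k133)],[(k4,k133),(k6,k152),(k7,k152),(k9,k167)],[(k4,k114),(k9,k148),(k6,
    k152),(k7,k152)],[(k4,k129),(k9,k144),(k6,k148),(k7,k167)],[(k1,k129),(k8,k144)]]
    [] k0
    [[k1,k0,k1,k0,k1],[k0,k2,k0,k0,k0],[k0,k0,k0,k2,k0],[k0,k0,k0,k0,k2]]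
    [.ref k3 k0 [(z1,[z1])],.contra [z1],.contra [z1],.contra [z1]])]⟩

/-- classes `0 0 1 1 2`, types `C0 C0 C0 C0 C0` -/
noncomputable def cU5_141 : CertX :=
  ⟨[k4,k4,k20,k20,k36],[(true,k4,[k4,k3,k2,k1,k0]),(false,k0,[k0,k1,k2,k3,k4])],[[[([z1,z0,z1,z0,z1],z2),([z0,z3,z0,
    z0,z0],z1)],[([z1,z0,z1,z0,z1],z2),([z0,z2,z0,z0,z0],z1)],[([z1,z0,z1,z0,z1],z2)],[]]],
    [.old (.leafM k6 [k0,k1,k2,k3,k4] [(z1,[z0,z1]),(z1,[y3,y1,z3])] []),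
    .old (.leafM k5 [k0,k1,k2,k3,k4] [(z1,[z0,z1]),(z1,[y2,y1,z2])] []),
    .old (.lp [k24,k8,k10,k10,k6] [k0,k0,k8,k8,k7,k7,k7,k7,k9,k9] k0 [] k40 k6
    [[(k8,k15)],[(k3,k16),(k5,k17)],[(k2,k8),(k0,k16)],[(k3,k8),(k5,k9)],[(k2,k9),(k0,k17)],[(k9,k8),(k7,k10)],[(k4,
    k10),(k6,k10)],[(k9,k8),(k7,k10)],[(k4,k8),(k6,k8)],[(k1,k15)]]
    [] k0
    [[k0,k2,k0,k0,k0],[k0,k3,k0,k0,k0],[k0,k4,k0,k0,k0],[k0,k0,k0,k2,k0],[k0,k0,k0,k3,k0]]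
    [.contra [z1],.ref k0 k0 [(z1,[z0,z1]),(z1,[y1,y3,z3])],.ref k1 k1 [(z1,[z0,z1]),(z2,[z1])],.contra [z1],
    .ref k0 k1 [(z1,[z0,z1]),(z1,[y1,y3,z3])]]),
    .old (.lp [k6,k8,k6,k8,k6] [k1,k1,k0,k0,k1,k1,k0,k0,k1,k1] k0 [] k24 k5
    [[(k8,k6)],[(k5,k6),(k3,k7)],[(k0,k7),(k2,k8)],[(k5,k7),(k3,k8)],[(k0,k6),(k2,k7)],[(k9,k6),(k7,k7)],[(k4,k7),(k6,
    k8)],[(k9,k7),(k7,k8)],[(k4,k6),(k6,k7)],[(k1,k6)]]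
    [] k0
    [[k1,k0,k1,k0,k1],[k0,k2,k0,k0,k0],[k0,k0,k0,k2,k0]]
    [.ref k2 k1 [(z1,[z1])],.contra [z1],.contra [z1]])]⟩

/-- classes `0 0 1 1 2`, types `C0 C0 C0 C0 S0` -/
noncomputable def cU5_142 : CertX :=
  ⟨[k4,k4,k20,k20,k32],[(true,k4,[k4,k3,k2,k1,k0]),(false,k0,[k0,k1,k2,k3,k4])],[[[([z1,z0,z1,z0,z1],z2),([z0,z3,z0,
    z0,z0],z1)],[([z1,z0,z1,z0,z1],z2),([z0,z2,z0,z0,z0],z1)],[([z1,z0,z1,z0,z1],z2)],[]]],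
    [.old (.leafM k6 [k0,k1,k2,k3,k4] [(z1,[z0,z1]),(z1,[y3,y1,z3])] []),
    .old (.leafM k5 [k0,k1,k2,k3,k4] [(z1,[z0,z1]),(z1,[y2,y1,z2])] []),
    .old (.lp [k24,k10,k8,k8,k8] [k0,k0,k7,k7,k8,k8,k8,k8,k8,k8] k0 [] k40 k6
    [[(k8,k16),(k1,k24)],[(k5,k16),(k3,k17)],[(k2,k10),(k0,k17)],[(k5,k9),(k3,k10)],[(k2,k9),(k0,k16)],[(k7,k8),(k9,
    k8)],[(k4,k8),(k6,k8)],[(k7,k8),(k9,k8)],[(k4,k8),(k6,k8)],[(k8,k8),(k1,k16)]]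
    [] k0
    [[k0,k2,k0,k0,k0],[k0,k3,k0,k0,k0],[k0,k0,k0,k2,k0],[k0,k0,k0,k3,k0],[k0,k0,k0,k4,k0]]
    [.contra [z1],.ref k0 k0 [(z1,[z0,z1]),(z1,[y1,y3,z3])],.contra [z1],.ref k0 k1 [(z1,[z0,z1]),(z1,[y1,y3,z3])],
    .ref k1 k1 [(z1,[z0,z1]),(z2,[y1,y4,z4])]]),
    .old (.lp [k6,k8,k6,k8,k6] [k1,k1,k0,k0,k1,k1,k0,k0,k1,k1] k0 [] k24 k5
    [[(k1,k6),(k8,k6)],[(k5,k6),(k3,k7)],[(k0,k7),(k2,k8)],[(k5,k7),(k3,k8)],[(k0,k6),(k2,k7)],[(k9,k6),(k7,k7)],[(k4,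
    k7),(k6,k8)],[(k9,k7),(k7,k8)],[(k4,k6),(k6,k7)],[(k1,k6),(k8,k6)]]
    [] k0
    [[k1,k0,k1,k0,k1],[k0,k2,k0,k0,k0],[k0,k0,k0,k2,k0]]
    [.ref k2 k1 [(z1,[z1])],.contra [z1],.contra [z1]])]⟩

/-- classes `0 0 1 1 2`, types `C0 C0 C0 C2 C0` -/
noncomputable def cU5_143 : CertX :=
  ⟨[k4,k4,k20,k22,k36],[],[[[]]],
    [.old (.lp [k4,k4,k2,k4,k2] [k0,k0,k0,k0,k1,k1,k0,k0,k1,k1] k0 [] k12 k5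
    [[(k8,k3)],[(k5,k3),(k3,k4)],[(k0,k4),(k2,k4)],[(k5,k3),(k3,k4)],[(k0,k3),(k2,k3)],[(k6,k3),(k7,k3)],[(k4,k3),(k9,
    k3)],[(k4,k3),(k9,k3)],[(k6,k3),(k7,k3)],[(k1,k3)]]
    [] k0
    [[k0,k2,k0,k0,k0]]
    [.contra [z1]])]⟩

/-- classes `0 0 1 1 2`, types `C0 C0 C0 C2 S0` -/
noncomputable def cU5_144 : CertX :=
  ⟨[k4,k4,k20,k22,k32],[],[[[]]],
    [.old (.lp [k12,k16,k12,k12,k18] [k3,k3,k1,k1,k3,k3,k3,k3,k0,k0] k0 [] k48 k5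
    [[(k1,k12),(k8,k15)],[(k5,k12),(k3,k14)],[(k0,k14),(k2,k16)],[(k5,k14),(k3,k16)],[(k0,k12),(k2,k14)],[(k6,k12),
    (k7,k12)],[(k4,k12),(k9,k15)],[(k4,k12),(k9,k15)],[(k6,k15),(k7,k15)],[(k1,k15),(k8,k18)]]
    [] k0
    [[k0,k2,k0,k0,k0]]
    [.contra [z1]])]⟩

/-- classes `0 0 1 1 2`, types `C0 C0 N0 N1 C0` -/
noncomputable def cU5_145 : CertX :=
  ⟨[k4,k4,k28,k29,k36],[(false,k0,[k0,k1,k2,k3,k4])],[[[([z1,z0,z1,z0,z1],z2),([z0,z3,z0,z0,z0],z1)],[([z1,z0,z1,z0,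
    z1],z2),([z0,z3,z0,z0,z0],z2)],[([z1,z0,z1,z0,z1],z2),([z0,z2,z0,z0,z0],z1)],[([z1,z0,z1,z0,z1],z2)],[]]],
    [.old (.leafM k6 [k0,k1,k2,k3,k4] [(z1,[z0,z1]),(z1,[y3,y1,z3])] []),
    .old (.leafM k4 [k0,k1,k2,k3,k4] [(z1,[z0,z1]),(z1,[y3,y1,z3])] []),
    .old (.leafM k5 [k0,k1,k2,k3,k4] [(z1,[z0,z1]),(z1,[y2,y1,z2])] []),
    .old (.lp [k24,k8,k16,k10,k0] [k0,k0,k8,k8,k4,k4,k7,k7,k12,k12] k0 [] k40 k6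
    [[(k8,k12)],[(k3,k16),(k5,k20)],[(k2,k8),(k0,k16)],[(k3,k8),(k5,k12)],[(k2,k12),(k0,k20)],[(k9,k8)],[(k6,k10)],
    [(k7,k10)],[(k4,k8)],[(k1,k12)]]
    [] k0
    [[k0,k2,k0,k0,k0],[k0,k3,k0,k0,k0],[k0,k4,k0,k0,k0],[k0,k0,k0,k2,k0],[k0,k0,k0,k3,k0]]
    [.contra [z1],.ref k1 k0 [(z1,[z0,z1]),(z1,[z1])],.ref k2 k0 [(z1,[z0,z1]),(z2,[z1])],.contra [z1],
    .ref k0 k0 [(z1,[z0,z1]),(z1,[y1,y3,z3])]]),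
    .old (.lp [k6,k8,k6,k8,k6] [k1,k1,k0,k0,k1,k1,k0,k0,k1,k1] k0 [] k24 k5
    [[(k8,k6)],[(k5,k6),(k3,k7)],[(k0,k7),(k2,k8)],[(k5,k7),(k3,k8)],[(k0,k6),(k2,k7)],[(k9,k6)],[(k6,k8)],[(k7,k8)],
    [(k4,k6)],[(k1,k6)]]
    [] k0
    [[k1,k0,k1,k0,k1],[k0,k2,k0,k0,k0],[k0,k0,k0,k2,k0]]
    [.ref k3 k0 [(z1,[z1])],.contra [z1],.contra [z1]])]⟩

/-- classes `0 0 1 1 2`, types `C0 C0 N0 N1 S0` -/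
noncomputable def cU5_146 : CertX :=
  ⟨[k4,k4,k28,k29,k32],[(false,k0,[k0,k1,k2,k3,k4])],[[[([z1,z0,z1,z0,z1],z2),([z0,z3,z0,z0,z0],z1)],[([z1,z0,z1,z0,
    z1],z2),([z0,z2,z0,z0,z0],z1)],[([z1,z0,z1,z0,z1],z2),([z0,z3,z0,z0,z0],z2)],[([z1,z0,z1,z0,z1],z2)],[]]],
    [.old (.leafM k6 [k0,k1,k2,k3,k4] [(z1,[z0,z1]),(z1,[y3,y1,z3])] []),
    .old (.leafM k5 [k0,k1,k2,k3,k4] [(z1,[z0,z1]),(z1,[y2,y1,z2])] []),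
    .old (.leafM k4 [k0,k1,k2,k3,k4] [(z1,[z0,z1]),(z1,[y3,y1,z3])] []),
    .old (.lp [k24,k10,k8,k8,k8] [k0,k0,k7,k7,k8,k8,k8,k8,k8,k8] k0 [] k40 k6
    [[(k8,k16),(k1,k24)],[(k5,k16),(k3,k17)],[(k2,k10),(k0,k17)],[(k5,k9),(k3,k10)],[(k2,k9),(k0,k16)],[(k9,k8)],[(k6,
    k8)],[(k7,k8)],[(k4,k8)],[(k8,k8),(k1,k16)]]
    [] k0
    [[k0,k2,k0,k0,k0],[k0,k3,k0,k0,k0],[k0,k0,k0,k2,k0],[k0,k0,k0,k3,k0],[k0,k0,k0,k4,k0]]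
    [.contra [z1],.ref k2 k0 [(z1,[z0,z1]),(z1,[z1])],.contra [z1],.ref k0 k0 [(z1,[z0,z1]),(z1,[y1,y3,z3])],
    .ref k1 k0 [(z1,[z0,z1]),(z2,[y1,y4,z4])]]),
    .old (.lp [k6,k8,k6,k8,k6] [k1,k1,k0,k0,k1,k1,k0,k0,k1,k1] k0 [] k24 k5
    [[(k1,k6),(k8,k6)],[(k5,k6),(k3,k7)],[(k0,k7),(k2,k8)],[(k5,k7),(k3,k8)],[(k0,k6),(k2,k7)],[(k9,k6)],[(k6,k8)],
    [(k7,k8)],[(k4,k6)],[(k1,k6),(k8,k6)]]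
    [] k0
    [[k1,k0,k1,k0,k1],[k0,k2,k0,k0,k0],[k0,k0,k0,k2,k0]]
    [.ref k3 k0 [(z1,[z1])],.contra [z1],.contra [z1]])]⟩

/-- classes `0 0 1 1 2`, types `C0 C0 N0 N2 C0` -/
noncomputable def cU5_147 : CertX :=
  ⟨[k4,k4,k28,k30,k36],[],[[[]]],
    [.old (.lp [k4,k4,k2,k4,k2] [k0,k0,k0,k0,k1,k1,k0,k0,k1,k1] k0 [] k12 k5
    [[(k8,k3)],[(k5,k3),(k3,k4)],[(k0,k4),(k2,k4)],[(k5,k3),(k3,k4)],[(k0,k3),(k2,k3)],[(k6,k3)],[(k9,k3)],[(k4,k3)],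
    [(k7,k3)],[(k1,k3)]]
    [] k0
    [[k0,k2,k0,k0,k0]]
    [.contra [z1]])]⟩

/-- classes `0 0 1 1 2`, types `C0 C0 N0 N2 S0` -/
noncomputable def cU5_148 : CertX :=
  ⟨[k4,k4,k28,k30,k32],[],[[[]]],
    [.old (.lp [k6,k8,k6,k6,k6] [k1,k1,k0,k0,k1,k1,k1,k1,k1,k1] k0 [] k24 k5
    [[(k1,k6),(k8,k6)],[(k5,k6),(k3,k7)],[(k0,k7),(k2,k8)],[(k5,k7),(k3,k8)],[(k0,k6),(k2,k7)],[(k6,k6)],[(k9,k6)],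
    [(k4,k6)],[(k7,k6)],[(k1,k6),(k8,k6)]]
    [] k0
    [[k0,k2,k0,k0,k0]]
    [.contra [z1]])]⟩

/-- classes `0 0 1 1 2`, types `C0 C0 S0 S0 C0` -/
noncomputable def cU5_149 : CertX :=
  ⟨[k4,k4,k16,k16,k36],[(false,k0,[k0,k1,k2,k3,k4])],[[[([z1,z0,z1,z0,z1],z2),([z0,z3,z0,z0,z0],z1)],[([z1,z0,z1,z0,
    z1],z2),([z0,z2,z0,z0,z0],z1)],[([z1,z0,z1,z0,z1],z2),([z0,z3,z0,z0,z0],z2)],[([z1,z0,z1,z0,z1],z2)],[]]],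
    [.old (.leafM k6 [k0,k1,k2,k3,k4] [(z1,[z0,z1]),(z1,[y3,y1,z3])] []),
    .old (.leafM k5 [k0,k1,k2,k3,k4] [(z1,[z0,z1]),(z1,[y2,y1,z2])] []),
    .old (.leafM k4 [k0,k1,k2,k3,k4] [(z1,[z0,z1]),(z1,[y3,y1,z3])] []),
    .old (.lp [k24,k10,k8,k8,k8] [k0,k0,k7,k7,k8,k8,k8,k8,k8,k8] k0 [] k40 k6
    [[(k8,k16)],[(k5,k16),(k3,k17)],[(k2,k10),(k0,k17)],[(k5,k9),(k3,k10)],[(k2,k9),(k0,k16)],[(k4,k8),(k6,k8),(k7,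
    k8),(k9,k8)],[(k4,k8),(k6,k8),(k7,k8),(k9,k8)],[(k4,k8),(k6,k8),(k7,k8),(k9,k8)],[(k4,k8),(k6,k8),(k7,k8),(k9,
    k8)],[(k1,k16)]]
    [] k0
    [[k0,k2,k0,k0,k0],[k0,k3,k0,k0,k0],[k0,k0,k0,k2,k0],[k0,k0,k0,k3,k0],[k0,k0,k0,k4,k0]]
    [.contra [z1],.ref k2 k0 [(z1,[z0,z1]),(z1,[z1])],.contra [z1],.ref k0 k0 [(z1,[z0,z1]),(z1,[y1,y3,z3])],
    .ref k1 k0 [(z1,[z0,z1]),(z2,[y1,y4,z4])]]),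
    .old (.lp [k6,k8,k6,k8,k6] [k1,k1,k0,k0,k1,k1,k0,k0,k1,k1] k0 [] k24 k5
    [[(k8,k6)],[(k5,k6),(k3,k7)],[(k0,k7),(k2,k8)],[(k5,k7),(k3,k8)],[(k0,k6),(k2,k7)],[(k4,k6),(k9,k6),(k6,k7),(k7,
    k7)],[(k4,k7),(k9,k7),(k6,k8),(k7,k8)],[(k4,k7),(k9,k7),(k6,k8),(k7,k8)],[(k4,k6),(k9,k6),(k6,k7),(k7,k7)],[(k1,
    k6)]]
    [] k0
    [[k1,k0,k1,k0,k1],[k0,k2,k0,k0,k0],[k0,k0,k0,k2,k0]]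
    [.ref k3 k0 [(z1,[z1])],.contra [z1],.contra [z1]])]⟩

/-- classes `0 0 1 1 2`, types `C0 C0 S0 S0 S0` -/
noncomputable def cU5_150 : CertX :=
  ⟨[k4,k4,k16,k16,k32],[(false,k0,[k0,k1,k2,k3,k4])],[[[([z1,z0,z1,z0,z1],z2),([z0,z3,z0,z0,z0],z1)],[([z1,z0,z1,z0,
    z1],z2),([z0,z3,z0,z0,z0],z2)],[([z1,z0,z1,z0,z1],z2),([z0,z2,z0,z0,z0],z1)],[([z1,z0,z1,z0,z1],z2)],[]]],
    [.old (.leafM k6 [k0,k1,k2,k3,k4] [(z1,[z0,z1]),(z1,[y3,y1,z3])] []),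
    .old (.leafM k4 [k0,k1,k2,k3,k4] [(z1,[z0,z1]),(z1,[y3,y1,z3])] []),
    .old (.leafM k5 [k0,k1,k2,k3,k4] [(z1,[z0,z1]),(z1,[y2,y1,z2])] []),
    .old (.lp [k8,k8,k12,k10,k20] [k6,k6,k6,k6,k4,k4,k5,k5,k0,k0] k0 [] k40 k6
    [[(k1,k8),(k8,k14)],[(k3,k8),(k5,k10)],[(k0,k8),(k2,k8)],[(k3,k8),(k5,k10)],[(k0,k10),(k2,k10)],[(k6,k11),(k7,
    k11),(k4,k12),(k9,k16)],[(k6,k10),(k7,k10),(k4,k11),(k9,k15)],[(k6,k10),(k7,k10),(k4,k11),(k9,k15)],[(k6,k15),(k7,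
    k15),(k4,k16),(k9,k20)],[(k1,k14),(k8,k20)]]
    [] k0
    [[k0,k2,k0,k0,k0],[k0,k3,k0,k0,k0],[k0,k4,k0,k0,k0],[k0,k0,k0,k2,k0],[k0,k0,k0,k3,k0]]
    [.contra [z1],.ref k1 k0 [(z1,[z0,z1]),(z1,[z1])],.ref k2 k0 [(z1,[z0,z1]),(z2,[z1])],.contra [z1],
    .ref k0 k0 [(z1,[z0,z1]),(z1,[y1,y3,z3])]]),
    .old (.lp [k114,k152,k114,k152,k144] [k19,k19,k0,k0,k19,k19,k0,k0,k4,k4] k0 [[],[],[],[],[k0,k0,k0,k0,k0,k0,k0,k19],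
    [],[k0,k0,k0,k0,k0,k19]] (nat_lit 456) k5
    [[(k1,k114),(k8,k129)],[(k5,k114),(k3,k133)],[(k0,k133),(k2,k152)],[(k5,k133),(k3,k152)],[(k0,k114),(k2,k133)],
    [(k4,k114),(k6,k114),(k9,k129),(k7,k133)],[(k4,k133),(k6,k152),(k7,k152),(k9,k167)],[(k4,k114),(k9,k148),(k6,
    k152),(k7,k152)],[(k4,k129),(k9,k144),(k6,k148),(k7,k167)],[(k1,k129),(k8,k144)]]
    [] k0
    [[k1,k0,k1,k0,k1],[k0,k2,k0,k0,k0],[k0,k0,k0,k2,k0],[k0,k0,k0,k0,k2]]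
    [.ref k3 k0 [(z1,[z1])],.contra [z1],.contra [z1],.contra [z1]])]⟩

/-- classes `0 0 1 1 2`, types `C0 C2 C0 C2 C0` -/
noncomputable def cU5_151 : CertX :=
  ⟨[k4,k6,k20,k22,k36],[],[[[]]],
    [.old (.lp [k2,k2,k2,k2,k2] [k0,k0,k0,k0,k0,k0,k0,k0,k0,k0] k0 [] k8 k5
    [[(k8,k2)],[(k2,k2),(k3,k2)],[(k0,k2),(k5,k2)],[(k0,k2),(k5,k2)],[(k2,k2),(k3,k2)],[(k6,k2),(k7,k2)],[(k4,k2),(k9,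
    k2)],[(k4,k2),(k9,k2)],[(k6,k2),(k7,k2)],[(k1,k2)]]
    [] k0
    []
    [])]⟩

/-- classes `0 0 1 1 2`, types `C0 C2 C0 C2 S0` -/
noncomputable def cU5_152 : CertX :=
  ⟨[k4,k6,k20,k22,k32],[(false,k0,[k0,k1,k2,k3,k4])],[[[([z1,z0,y1,z0,z1],z1),([z0,z1,z2,z0,y2],z0)],[([z1,z0,y1,y1,
    y1],y1)],[]]],
    [.old (.tor k7 false k0 [(z1,[y1,y1,z1]),(z1,[y1,z0,z1]),(z1,[z2,z1])]),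
    .old (.lp [k6,k4,k4,k4,k4] [k0,k0,k1,k1,k1,k1,k1,k1,k1,k1] k0 [] k16 k5
    [[(k8,k5),(k1,k6)],[(k2,k5),(k3,k5)],[(k5,k4),(k0,k5)],[(k5,k4),(k0,k5)],[(k2,k4),(k3,k4)],[(k6,k4),(k7,k4)],[(k4,
    k4),(k9,k4)],[(k4,k4),(k9,k4)],[(k6,k4),(k7,k4)],[(k8,k4),(k1,k5)]]
    [] k0
    [[k0,k0,k0,k1,k2]]
    [.ref k0 k0 [(z1,[z1,z1]),(z1,[y2,y1,z1])]]),
    .old (.lp [k4,k4,k4,k4,k6] [k1,k1,k1,k1,k1,k1,k1,k1,k0,k0] k0 [] k16 k5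
    [[(k1,k4),(k8,k5)],[(k2,k4),(k3,k4)],[(k0,k4),(k5,k4)],[(k0,k4),(k5,k4)],[(k2,k4),(k3,k4)],[(k6,k4),(k7,k4)],[(k4,
    k4),(k9,k5)],[(k4,k4),(k9,k5)],[(k6,k5),(k7,k5)],[(k1,k5),(k8,k6)]]
    [] k0
    [[k2,k1,k0,k0,k0]]
    [.ref k1 k0 [(z1,[z1,y1])]])]⟩

/-- classes `0 0 1 1 2`, types `C0 C2 N0 N1 C0` -/
noncomputable def cU5_153 : CertX :=
  ⟨[k4,k6,k28,k29,k36],[],[[[]]],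
    [.old (.lp [k6,k0,k6,k4,k0] [k0,k0,k3,k3,k0,k0,k1,k1,k3,k3] k0 [] k12 k5
    [[(k8,k3)],[(k2,k3),(k3,k3)],[(k0,k3),(k5,k3)],[(k0,k3),(k5,k3)],[(k2,k3),(k3,k3)],[(k9,k3)],[(k6,k4)],[(k7,k4)],
    [(k4,k3)],[(k1,k3)]]
    [] k0
    [[k0,k0,k0,k2,k0]]
    [.contra [z1]])]⟩

/-- classes `0 0 1 1 2`, types `C0 C2 N0 N1 S0` -/
noncomputable def cU5_154 : CertX :=
  ⟨[k4,k6,k28,k29,k32],[],[[[]]],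
    [.old (.lp [k18,k12,k12,k16,k12] [k0,k0,k3,k3,k3,k3,k1,k1,k3,k3] k0 [] k48 k5
    [[(k8,k15),(k1,k18)],[(k2,k15),(k3,k15)],[(k5,k12),(k0,k15)],[(k5,k12),(k0,k15)],[(k2,k12),(k3,k12)],[(k9,k12)],
    [(k6,k16)],[(k7,k16)],[(k4,k12)],[(k8,k12),(k1,k15)]]
    [] k0
    [[k0,k0,k0,k2,k0]]
    [.contra [z1]])]⟩

/-- classes `0 0 1 1 2`, types `C0 C2 N0 N2 C0` -/
noncomputable def cU5_155 : CertX :=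
  ⟨[k4,k6,k28,k30,k36],[],[[[]]],
    [.old (.lp [k2,k2,k2,k2,k2] [k0,k0,k0,k0,k0,k0,k0,k0,k0,k0] k0 [] k8 k5
    [[(k8,k2)],[(k2,k2),(k3,k2)],[(k0,k2),(k5,k2)],[(k0,k2),(k5,k2)],[(k2,k2),(k3,k2)],[(k6,k2)],[(k9,k2)],[(k4,k2)],
    [(k7,k2)],[(k1,k2)]]
    [] k0
    []
    [])]⟩

/-- classes `0 0 1 1 2`, types `C0 C2 N0 N2 S0` -/
noncomputable def cU5_156 : CertX :=
  ⟨[k4,k6,k28,k30,k32],[],[[[]]],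
    [.old (.lp [k6,k4,k4,k4,k4] [k0,k0,k1,k1,k1,k1,k1,k1,k1,k1] k0 [] k16 k5
    [[(k8,k5),(k1,k6)],[(k2,k5),(k3,k5)],[(k5,k4),(k0,k5)],[(k5,k4),(k0,k5)],[(k2,k4),(k3,k4)],[(k6,k4)],[(k9,k4)],
    [(k4,k4)],[(k7,k4)],[(k8,k4),(k1,k5)]]
    [] k0
    []
    [])]⟩

/-- classes `0 0 1 1 2`, types `C0 C2 S0 S0 C0` -/
noncomputable def cU5_157 : CertX :=
  ⟨[k4,k6,k16,k16,k36],[],[[[]]],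
    [.old (.lp [k12,k12,k18,k16,k12] [k3,k3,k3,k3,k0,k0,k1,k1,k3,k3] k0 [] k48 k5
    [[(k8,k12)],[(k2,k12),(k3,k12)],[(k0,k12),(k5,k15)],[(k0,k12),(k5,k15)],[(k2,k15),(k3,k15)],[(k9,k15),(k6,k17),
    (k7,k17),(k4,k18)],[(k9,k14),(k6,k16),(k7,k16),(k4,k17)],[(k9,k14),(k6,k16),(k7,k16),(k4,k17)],[(k9,k12),(k6,k14),
    (k7,k14),(k4,k15)],[(k1,k12)]]
    [] k0
    [[k0,k0,k0,k2,k0]]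
    [.contra [z1]])]⟩

/-- classes `0 0 1 1 2`, types `C0 C2 S0 S0 S0` -/
noncomputable def cU5_158 : CertX :=
  ⟨[k4,k6,k16,k16,k32],[(false,k0,[k0,k1,k2,k3,k4])],[[[([z1,z0,y1,z0,z1],z1),([z0,z1,z2,z0,y2],z0)],[([z1,z1,z1,z0,
    z0],z2)],[([z1,z0,y1,y1,y1],y1)],[]]],
    [.old (.tor k7 false k0 [(z1,[y1,y1,z1]),(z1,[y1,z0,z1]),(z1,[z2,z1])]),
    .old (.leafM k0 [k3,k4,k0,k1,k2] [(z1,[y1,z1])] []),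
    .old (.lp [k18,k12,k12,k16,k12] [k0,k0,k3,k3,k3,k3,k1,k1,k3,k3] k0 [] k48 k5
    [[(k8,k15),(k1,k18)],[(k2,k15),(k3,k15)],[(k5,k12),(k0,k15)],[(k5,k12),(k0,k15)],[(k2,k12),(k3,k12)],[(k4,k12),
    (k9,k12),(k6,k14),(k7,k14)],[(k4,k14),(k9,k14),(k6,k16),(k7,k16)],[(k4,k14),(k9,k14),(k6,k16),(k7,k16)],[(k4,k12),
    (k9,k12),(k6,k14),(k7,k14)],[(k8,k12),(k1,k15)]]
    [] k0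
    [[k0,k1,k2,k0,k0],[k0,k0,k0,k2,k0],[k0,k0,k0,k1,k2],[k0,k0,k0,k0,k2]]
    [.ref k1 k0 [(z2,[z1,z1,z1])],.contra [z1],.ref k0 k0 [(z1,[z1,z1]),(z1,[y2,y1,z1])],.contra [z1]]),
    .old (.lp [(nat_lit 1932),(nat_lit 1932),(nat_lit 2484),(nat_lit 2856),(nat_lit 2070)] [(nat_lit 462),(nat_lit 462),
    (nat_lit 462),(nat_lit 462),k186,k186,k0,k0,(nat_lit 393),(nat_lit 393)] k0 [[],[],[],[],[k0,k0,k0,k0,k0,k0,k0,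
    (nat_lit 736)],[k0,k0,k0,k0,(nat_lit 828)],[k0,k0,k0,k0,k0,(nat_lit 736)]] (nat_lit 7728) k5
    [[(k1,(nat_lit 1932)),(k8,(nat_lit 2001))],[(k2,(nat_lit 1932)),(k3,(nat_lit 1932))],[(k0,(nat_lit 1932)),(k5,
    (nat_lit 2208))],[(k0,(nat_lit 1932)),(k5,(nat_lit 2208))],[(k2,(nat_lit 2208)),(k3,(nat_lit 2208))],[(k6,
    (nat_lit 1934)),(k9,(nat_lit 2277)),(k7,(nat_lit 2670)),(k4,(nat_lit 3312))],[(k7,(nat_lit 2028)),(k4,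
    (nat_lit 2670)),(k6,(nat_lit 2856)),(k9,(nat_lit 3199))],[(k4,(nat_lit 1934)),(k9,(nat_lit 2463)),(k6,
    (nat_lit 2856)),(k7,(nat_lit 2856))],[(k9,(nat_lit 2070)),(k4,(nat_lit 2277)),(k6,(nat_lit 2463)),(k7,
    (nat_lit 3199))],[(k1,(nat_lit 2001)),(k8,(nat_lit 2070))]]
    [] k0
    [[k2,k1,k0,k0,k0],[k0,k0,k0,k2,k0],[k0,k0,k0,k0,k2]]
    [.ref k2 k0 [(z1,[z1,y1])],.contra [z1],.contra [z1]])]⟩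

/-- classes `0 0 1 1 2`, types `N0 N1 N0 N1 C0` -/
noncomputable def cU5_159 : CertX :=
  ⟨[k12,k13,k28,k29,k36],[(true,k4,[k4,k3,k2,k1,k0]),(false,k0,[k0,k1,k2,k3,k4])],[[[([z1,z0,z1,z0,z1],z2),([z0,z3,z0,
    z0,z0],z1)],[([z1,z0,z1,z0,z1],z2),([z0,z2,z0,z0,z0],z1)],[([z1,z0,z1,z0,z1],z2)],[]]],
    [.old (.leafM k6 [k0,k1,k2,k3,k4] [(z1,[z0,z1]),(z1,[y3,y1,z3])] []),
    .old (.leafM k5 [k0,k1,k2,k3,k4] [(z1,[z0,z1]),(z1,[y2,y1,z2])] []),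
    .old (.lp [k24,k8,k16,k10,k0] [k0,k0,k8,k8,k4,k4,k7,k7,k12,k12] k0 [] k40 k6
    [[(k8,k12)],[(k5,k20)],[(k2,k8)],[(k3,k8)],[(k0,k20)],[(k9,k8)],[(k6,k10)],[(k7,k10)],[(k4,k8)],[(k1,k12)]]
    [] k0
    [[k0,k2,k0,k0,k0],[k0,k3,k0,k0,k0],[k0,k4,k0,k0,k0],[k0,k0,k0,k2,k0],[k0,k0,k0,k3,k0]]
    [.contra [z1],.ref k0 k0 [(z1,[z0,z1]),(z1,[y1,y3,z3])],.ref k1 k1 [(z1,[z0,z1]),(z2,[z1])],.contra [z1],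
    .ref k0 k1 [(z1,[z0,z1]),(z1,[y1,y3,z3])]]),
    .old (.lp [k6,k8,k6,k8,k6] [k1,k1,k0,k0,k1,k1,k0,k0,k1,k1] k0 [] k24 k5
    [[(k8,k6)],[(k5,k6)],[(k2,k8)],[(k3,k8)],[(k0,k6)],[(k9,k6)],[(k6,k8)],[(k7,k8)],[(k4,k6)],[(k1,k6)]]
    [] k0
    [[k1,k0,k1,k0,k1],[k0,k2,k0,k0,k0],[k0,k0,k0,k2,k0]]
    [.ref k2 k1 [(z1,[z1])],.contra [z1],.contra [z1]])]⟩

/-- classes `0 0 1 1 2`, types `N0 N1 N0 N1 S0` -/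
noncomputable def cU5_160 : CertX :=
  ⟨[k12,k13,k28,k29,k32],[(true,k4,[k4,k3,k2,k1,k0]),(false,k0,[k0,k1,k2,k3,k4])],[[[([z1,z0,z1,z0,z1],z2),([z0,z3,z0,
    z0,z0],z1)],[([z1,z0,z1,z0,z1],z2),([z0,z2,z0,z0,z0],z1)],[([z1,z0,z1,z0,z1],z2)],[]]],
    [.old (.leafM k6 [k0,k1,k2,k3,k4] [(z1,[z0,z1]),(z1,[y3,y1,z3])] []),
    .old (.leafM k5 [k0,k1,k2,k3,k4] [(z1,[z0,z1]),(z1,[y2,y1,z2])] []),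
    .old (.lp [k24,k10,k8,k8,k8] [k0,k0,k7,k7,k8,k8,k8,k8,k8,k8] k0 [] k40 k6
    [[(k8,k16),(k1,k24)],[(k5,k16)],[(k2,k10)],[(k3,k10)],[(k0,k16)],[(k9,k8)],[(k6,k8)],[(k7,k8)],[(k4,k8)],[(k8,k8),
    (k1,k16)]]
    [] k0
    [[k0,k2,k0,k0,k0],[k0,k3,k0,k0,k0],[k0,k0,k0,k2,k0],[k0,k0,k0,k3,k0],[k0,k0,k0,k4,k0]]
    [.contra [z1],.ref k0 k0 [(z1,[z0,z1]),(z1,[y1,y3,z3])],.contra [z1],.ref k0 k1 [(z1,[z0,z1]),(z1,[y1,y3,z3])],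
    .ref k1 k1 [(z1,[z0,z1]),(z2,[y1,y4,z4])]]),
    .old (.lp [k6,k8,k6,k8,k6] [k1,k1,k0,k0,k1,k1,k0,k0,k1,k1] k0 [] k24 k5
    [[(k1,k6),(k8,k6)],[(k5,k6)],[(k2,k8)],[(k3,k8)],[(k0,k6)],[(k9,k6)],[(k6,k8)],[(k7,k8)],[(k4,k6)],[(k1,k6),(k8,
    k6)]]
    [] k0
    [[k1,k0,k1,k0,k1],[k0,k2,k0,k0,k0],[k0,k0,k0,k2,k0]]
    [.ref k2 k1 [(z1,[z1])],.contra [z1],.contra [z1]])]⟩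

/-- classes `0 0 1 1 2`, types `N0 N1 N0 N2 C0` -/
noncomputable def cU5_161 : CertX :=
  ⟨[k12,k13,k28,k30,k36],[],[[[]]],
    [.old (.lp [k6,k4,k0,k6,k0] [k0,k0,k1,k1,k3,k3,k0,k0,k3,k3] k0 [] k12 k5
    [[(k8,k3)],[(k5,k3)],[(k2,k4)],[(k3,k4)],[(k0,k3)],[(k6,k3)],[(k9,k3)],[(k4,k3)],[(k7,k3)],[(k1,k3)]]
    [] k0
    [[k0,k2,k0,k0,k0]]
    [.contra [z1]])]⟩

/-- classes `0 0 1 1 2`, types `N0 N1 N0 N2 S0` -/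
noncomputable def cU5_162 : CertX :=
  ⟨[k12,k13,k28,k30,k32],[],[[[]]],
    [.old (.lp [k6,k8,k6,k6,k6] [k1,k1,k0,k0,k1,k1,k1,k1,k1,k1] k0 [] k24 k5
    [[(k1,k6),(k8,k6)],[(k5,k6)],[(k2,k8)],[(k3,k8)],[(k0,k6)],[(k6,k6)],[(k9,k6)],[(k4,k6)],[(k7,k6)],[(k1,k6),(k8,
    k6)]]
    [] k0
    [[k0,k2,k0,k0,k0]]
    [.contra [z1]])]⟩

/-- classes `0 0 1 1 2`, types `N0 N1 S0 S0 C0` -/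
noncomputable def cU5_163 : CertX :=
  ⟨[k12,k13,k16,k16,k36],[(false,k0,[k0,k1,k2,k3,k4])],[[[([z1,z0,z1,z0,z1],z2),([z0,z3,z0,z0,z0],z1)],[([z1,z0,z1,z0,
    z1],z2),([z0,z2,z0,z0,z0],z1)],[([z1,z0,z1,z0,z1],z2),([z0,z3,z0,z0,z0],z2)],[([z1,z0,z1,z0,z1],z2)],[]]],
    [.old (.leafM k6 [k0,k1,k2,k3,k4] [(z1,[z0,z1]),(z1,[y3,y1,z3])] []),
    .old (.leafM k5 [k0,k1,k2,k3,k4] [(z1,[z0,z1]),(z1,[y2,y1,z2])] []),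
    .old (.leafM k4 [k0,k1,k2,k3,k4] [(z1,[z0,z1]),(z1,[y3,y1,z3])] []),
    .old (.lp [k24,k10,k8,k8,k8] [k0,k0,k7,k7,k8,k8,k8,k8,k8,k8] k0 [] k40 k6
    [[(k8,k16)],[(k5,k16)],[(k2,k10)],[(k3,k10)],[(k0,k16)],[(k4,k8),(k6,k8),(k7,k8),(k9,k8)],[(k4,k8),(k6,k8),(k7,
    k8),(k9,k8)],[(k4,k8),(k6,k8),(k7,k8),(k9,k8)],[(k4,k8),(k6,k8),(k7,k8),(k9,k8)],[(k1,k16)]]
    [] k0
    [[k0,k2,k0,k0,k0],[k0,k3,k0,k0,k0],[k0,k0,k0,k2,k0],[k0,k0,k0,k3,k0],[k0,k0,k0,k4,k0]]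
    [.contra [z1],.ref k2 k0 [(z1,[z0,z1]),(z1,[z1])],.contra [z1],.ref k0 k0 [(z1,[z0,z1]),(z1,[y1,y3,z3])],
    .ref k1 k0 [(z1,[z0,z1]),(z2,[y1,y4,z4])]]),
    .old (.lp [k6,k8,k6,k8,k6] [k1,k1,k0,k0,k1,k1,k0,k0,k1,k1] k0 [] k24 k5
    [[(k8,k6)],[(k5,k6)],[(k2,k8)],[(k3,k8)],[(k0,k6)],[(k4,k6),(k9,k6),(k6,k7),(k7,k7)],[(k4,k7),(k9,k7),(k6,k8),(k7,
    k8)],[(k4,k7),(k9,k7),(k6,k8),(k7,k8)],[(k4,k6),(k9,k6),(k6,k7),(k7,k7)],[(k1,k6)]]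
    [] k0
    [[k1,k0,k1,k0,k1],[k0,k2,k0,k0,k0],[k0,k0,k0,k2,k0]]
    [.ref k3 k0 [(z1,[z1])],.contra [z1],.contra [z1]])]⟩

/-- classes `0 0 1 1 2`, types `N0 N1 S0 S0 S0` -/
noncomputable def cU5_164 : CertX :=
  ⟨[k12,k13,k16,k16,k32],[(false,k0,[k0,k1,k2,k3,k4])],[[[([z1,z0,z1,z0,z1],z2),([z0,z3,z0,z0,z0],z1)],[([z1,z0,z1,z0,
    z1],z2),([z0,z3,z0,z0,z0],z2)],[([z1,z0,z1,z0,z1],z2),([z0,z2,z0,z0,z0],z1)],[([z1,z0,z1,z0,z1],z2)],[]]],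
    [.old (.leafM k6 [k0,k1,k2,k3,k4] [(z1,[z0,z1]),(z1,[y3,y1,z3])] []),
    .old (.leafM k4 [k0,k1,k2,k3,k4] [(z1,[z0,z1]),(z1,[y3,y1,z3])] []),
    .old (.leafM k5 [k0,k1,k2,k3,k4] [(z1,[z0,z1]),(z1,[y2,y1,z2])] []),
    .old (.lp [k8,k8,k12,k10,k20] [k6,k6,k6,k6,k4,k4,k5,k5,k0,k0] k0 [] k40 k6
    [[(k1,k8),(k8,k14)],[(k5,k10)],[(k2,k8)],[(k3,k8)],[(k0,k10)],[(k6,k11),(k7,k11),(k4,k12),(k9,k16)],[(k6,k10),(k7,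
    k10),(k4,k11),(k9,k15)],[(k6,k10),(k7,k10),(k4,k11),(k9,k15)],[(k6,k15),(k7,k15),(k4,k16),(k9,k20)],[(k1,k14),(k8,
    k20)]]
    [] k0
    [[k0,k2,k0,k0,k0],[k0,k3,k0,k0,k0],[k0,k4,k0,k0,k0],[k0,k0,k0,k2,k0],[k0,k0,k0,k3,k0]]
    [.contra [z1],.ref k1 k0 [(z1,[z0,z1]),(z1,[z1])],.ref k2 k0 [(z1,[z0,z1]),(z2,[z1])],.contra [z1],
    .ref k0 k0 [(z1,[z0,z1]),(z1,[y1,y3,z3])]]),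
    .old (.lp [k114,k152,k114,k152,k144] [k19,k19,k0,k0,k19,k19,k0,k0,k4,k4] k0 [[],[],[],[],[k0,k0,k0,k0,k0,k0,k0,k19],
    [],[k0,k0,k0,k0,k0,k19]] (nat_lit 456) k5
    [[(k1,k114),(k8,k129)],[(k5,k114)],[(k2,k152)],[(k3,k152)],[(k0,k114)],[(k4,k114),(k6,k114),(k9,k129),(k7,k133)],
    [(k4,k133),(k6,k152),(k7,k152),(k9,k167)],[(k4,k114),(k9,k148),(k6,k152),(k7,k152)],[(k4,k129),(k9,k144),(k6,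
    k148),(k7,k167)],[(k1,k129),(k8,k144)]]
    [] k0
    [[k1,k0,k1,k0,k1],[k0,k2,k0,k0,k0],[k0,k0,k0,k2,k0],[k0,k0,k0,k0,k2]]
    [.ref k3 k0 [(z1,[z1])],.contra [z1],.contra [z1],.contra [z1]])]⟩

/-- classes `0 0 1 1 2`, types `N0 N2 N0 N2 C0` -/
noncomputable def cU5_165 : CertX :=
  ⟨[k12,k14,k28,k30,k36],[],[[[]]],
    [.old (.lp [k2,k2,k2,k2,k2] [k0,k0,k0,k0,k0,k0,k0,k0,k0,k0] k0 [] k8 k5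
    [[(k8,k2)],[(k2,k2)],[(k5,k2)],[(k0,k2)],[(k3,k2)],[(k6,k2)],[(k9,k2)],[(k4,k2)],[(k7,k2)],[(k1,k2)]]
    [] k0
    []
    [])]⟩

/-- classes `0 0 1 1 2`, types `N0 N2 N0 N2 S0` -/
noncomputable def cU5_166 : CertX :=
  ⟨[k12,k14,k28,k30,k32],[],[[[]]],
    [.old (.lp [k2,k2,k2,k2,k2] [k0,k0,k0,k0,k0,k0,k0,k0,k0,k0] k0 [] k8 k5
    [[(k1,k2),(k8,k2)],[(k2,k2)],[(k5,k2)],[(k0,k2)],[(k3,k2)],[(k6,k2)],[(k9,k2)],[(k4,k2)],[(k7,k2)],[(k1,k2),(k8,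
    k2)]]
    [] k0
    []
    [])]⟩

/-- classes `0 0 1 1 2`, types `N0 N2 S0 S0 C0` -/
noncomputable def cU5_167 : CertX :=
  ⟨[k12,k14,k16,k16,k36],[],[[[]]],
    [.old (.lp [k6,k6,k6,k8,k6] [k1,k1,k1,k1,k1,k1,k0,k0,k1,k1] k0 [] k24 k5
    [[(k8,k6)],[(k2,k6)],[(k5,k6)],[(k0,k6)],[(k3,k6)],[(k4,k6),(k9,k6),(k6,k7),(k7,k7)],[(k4,k7),(k9,k7),(k6,k8),(k7,
    k8)],[(k4,k7),(k9,k7),(k6,k8),(k7,k8)],[(k4,k6),(k9,k6),(k6,k7),(k7,k7)],[(k1,k6)]]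
    [] k0
    [[k0,k0,k0,k2,k0]]
    [.contra [z1]])]⟩

/-- classes `0 0 1 1 2`, types `N0 N2 S0 S0 S0` -/
noncomputable def cU5_168 : CertX :=
  ⟨[k12,k14,k16,k16,k32],[],[[[]]],
    [.old (.lp [k6,k6,k6,k8,k8] [k1,k1,k1,k1,k1,k1,k0,k0,k0,k0] k0 [] k24 k5
    [[(k1,k6),(k8,k7)],[(k2,k6)],[(k5,k6)],[(k0,k6)],[(k3,k6)],[(k4,k6),(k6,k7),(k7,k7),(k9,k7)],[(k4,k7),(k6,k8),(k7,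
    k8),(k9,k8)],[(k4,k7),(k6,k8),(k7,k8),(k9,k8)],[(k4,k7),(k6,k8),(k7,k8),(k9,k8)],[(k1,k7),(k8,k8)]]
    [] k0
    [[k0,k0,k0,k2,k0],[k0,k0,k0,k0,k2]]
    [.contra [z1],.contra [z1]])]⟩

/-- classes `0 0 1 1 2`, types `S0 S0 S0 S0 C0` -/
noncomputable def cU5_169 : CertX :=
  ⟨[k0,k0,k16,k16,k36],[(true,k4,[k4,k3,k2,k1,k0]),(false,k0,[k0,k1,k2,k3,k4])],[[[([z1,z0,z1,z0,z1],z2),([z0,z3,z0,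
    z0,z0],z1)],[([z1,z0,z1,z0,z1],z2),([z0,z2,z0,z0,z0],z1)],[([z1,z0,z1,z0,z1],z2)],[]]],
    [.old (.leafM k6 [k0,k1,k2,k3,k4] [(z1,[z0,z1]),(z1,[y3,y1,z3])] []),
    .old (.leafM k5 [k0,k1,k2,k3,k4] [(z1,[z0,z1]),(z1,[y2,y1,z2])] []),
    .old (.lp [k12,k8,k20,k10,k8] [k4,k4,k6,k6,k0,k0,k5,k5,k6,k6] k0 [] k40 k6
    [[(k8,k10)],[(k2,k10),(k3,k10),(k0,k12),(k5,k16)],[(k2,k8),(k3,k8),(k0,k10),(k5,k14)],[(k2,k8),(k3,k8),(k0,k10),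
    (k5,k14)],[(k2,k14),(k3,k14),(k0,k16),(k5,k20)],[(k9,k14),(k6,k15),(k7,k15),(k4,k20)],[(k9,k9),(k6,k10),(k7,k10),
    (k4,k15)],[(k9,k9),(k6,k10),(k7,k10),(k4,k15)],[(k9,k8),(k6,k9),(k7,k9),(k4,k14)],[(k1,k10)]]
    [] k0
    [[k0,k2,k0,k0,k0],[k0,k3,k0,k0,k0],[k0,k4,k0,k0,k0],[k0,k0,k0,k2,k0],[k0,k0,k0,k3,k0]]
    [.contra [z1],.ref k0 k0 [(z1,[z0,z1]),(z1,[y1,y3,z3])],.ref k1 k1 [(z1,[z0,z1]),(z2,[z1])],.contra [z1],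
    .ref k0 k1 [(z1,[z0,z1]),(z1,[y1,y3,z3])]]),
    .old (.lp [k27,k31,k30,k34,k18] [k5,k2,k0,k3,k2,k2,k0,k0,k8,k8] k0 [[k0,k0,k3,k5],[],[k0,k5],[k0,k3],[],[k0,k0,k0,k0,
    k0,k0,k2],[k0,k0,k0,k0,k0,k0,k0,k6],[k0,k0,k0,k0,k2]] k96 k5
    [[(k8,k24)],[(k0,k24),(k2,k24),(k5,k24),(k3,k26)],[(k0,k26),(k3,k28),(k2,k34),(k5,k34)],[(k0,k24),(k5,k32),(k2,
    k34),(k3,k34)],[(k0,k24),(k5,k30),(k2,k32),(k3,k34)],[(k9,k24),(k4,k30),(k7,k32),(k6,k34)],[(k9,k24),(k4,k32),(k6,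
    k34),(k7,k34)],[(k9,k26),(k6,k28),(k4,k34),(k7,k34)],[(k4,k24),(k7,k24),(k9,k24),(k6,k26)],[(k1,k24)]]
    [] k0
    [[k1,k0,k1,k0,k1],[k0,k2,k0,k0,k0],[k0,k0,k2,k0,k0],[k0,k0,k0,k2,k0]]
    [.ref k2 k1 [(z1,[z1])],.contra [z1],.contra [z1],.contra [z1]])]⟩

/-- classes `0 0 1 2 1`, types `B0 B1 B0 C0 B1` -/
noncomputable def cU5_170 : CertX :=
  ⟨[k8,k9,k24,k36,k25],[(false,k0,[k0,k1,k2,k3,k4])],[[[([z1,z1,z1,z0,z0],z1)],[([z1,z1,z1,z0,z0],z2)],[([z1,z0,z1,z0,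
    z0],z2),([z0,z3,z0,z0,z0],z1)],[([z1,z0,z1,z0,z0],z2),([z0,z3,z0,z0,z0],z2)],[([z1,z0,z1,z0,z0],z2),([z0,z2,z0,z0,
    z0],z1)],[([z1,z0,z1,z0,z0],z2)],[]]],
    [.old (.leafM k1 [k2,k0,k1] [] [(k3,k4,z1,[y1,z1]),(k4,k3,z1,[y1,z1])]),
    .old (.leafM k3 [k0,k1,k2,k3,k4] [(z1,[y1,z1])] []),
    .old (.leafM k4 [k4,k1,k3] [(z1,[z0,z1]),(z1,[y3,y1,z3])] [(k0,k2,z1,[z1]),(k2,k0,z1,[z1])]),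
    .old (.leafM k2 [k4,k1,k3] [(z1,[z0,z1]),(z1,[y3,y1,z3])] [(k0,k2,z1,[z1]),(k2,k0,z1,[z1])]),
    .old (.leafM k3 [k4,k1,k3] [(z1,[z0,z1]),(z1,[y2,y1,z2])] [(k0,k2,z1,[z1]),(k2,k0,z1,[z1])]),
    .old (.lp [(nat_lit 1470),(nat_lit 322),k140,k0,(nat_lit 460)] [k0,k0,(nat_lit 574),(nat_lit 574),(nat_lit 665),
    (nat_lit 665),(nat_lit 735),(nat_lit 735),(nat_lit 505),(nat_lit 505)] k0 [] (nat_lit 1610) k8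
    [[(k7,(nat_lit 735)),(k4,(nat_lit 805))],[(k5,(nat_lit 805)),(k2,(nat_lit 896))],[(k5,(nat_lit 231)),(k2,
    (nat_lit 322))],[(k3,(nat_lit 322)),(k0,(nat_lit 896))],[(k3,(nat_lit 231)),(k0,(nat_lit 805))],[(k8,
    (nat_lit 300)),(k1,(nat_lit 805))],[(k8,(nat_lit 230)),(k1,(nat_lit 735))],[(k9,(nat_lit 230))],[(k6,
    (nat_lit 230))],[(k7,(nat_lit 230)),(k4,(nat_lit 300))]]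
    [] k0
    [[k0,k2,k0,k0,k0],[k0,k3,k0,k0,k0],[k0,k4,k0,k0,k0],[k0,k0,k0,k1,k1],[k0,k0,k0,k2,k2],[k0,k0,k0,k3,k3]]
    [.contra [z1],.ref k3 k0 [(z1,[z0,z1]),(z1,[z1])],.ref k4 k0 [(z1,[z0,z1]),(z2,[z1])],.contra [y2,y1,z2],
    .contra [y1,y2,z2],.ref k2 k0 [(z1,[z0,z1]),(z1,[y1,y3,z3])]]),
    .old (.lp [k4,k4,k2,k2,k4] [k0,k0,k0,k0,k1,k1,k1,k1,k0,k0] k0 [] k12 k5
    [[(k4,k3),(k7,k3)],[(k5,k3),(k2,k4)],[(k5,k3),(k2,k4)],[(k0,k4),(k3,k4)],[(k0,k3),(k3,k3)],[(k1,k3),(k8,k3)],[(k1,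
    k3),(k8,k3)],[(k9,k3)],[(k6,k3)],[(k4,k3),(k7,k3)]]
    [] k0
    [[k1,k0,k1,k0,k0],[k1,k1,k1,k0,k0],[k0,k2,k0,k0,k0],[k0,k0,k0,k1,k1]]
    [.ref k5 k0 [(z1,[z1])],.ref k1 k0 [(z1,[z1])],.contra [z1],.ref k0 k0 [(z1,[y1,z1])]])]⟩

/-- classes `0 0 1 2 1`, types `B0 B1 B0 S0 B1` -/
noncomputable def cU5_171 : CertX :=
  ⟨[k8,k9,k24,k32,k25],[(false,k0,[k0,k1,k2,k3,k4])],[[[([z1,z1,z1,z0,z0],z1)],[([z1,z1,z1,z0,z0],z2)],[([z1,z0,z1,z0,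
    z0],z2),([z0,z3,z0,z0,z0],z1)],[([z1,z0,z1,z0,z0],z2),([z0,z3,z0,z0,z0],z2)],[([z1,z0,z1,z0,z0],z2),([z0,z2,z0,z0,
    z0],z1)],[([z1,z0,z1,z0,z0],z2)],[]]],
    [.old (.leafM k1 [k2,k0,k1] [] [(k3,k4,z1,[y1,z1]),(k4,k3,z1,[y1,z1])]),
    .old (.leafM k3 [k0,k1,k2,k3,k4] [(z1,[y1,z1])] []),
    .old (.leafM k4 [k4,k1,k3] [(z1,[z0,z1]),(z1,[y3,y1,z3])] [(k0,k2,z1,[z1]),(k2,k0,z1,[z1])]),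
    .old (.leafM k2 [k4,k1,k3] [(z1,[z0,z1]),(z1,[y3,y1,z3])] [(k0,k2,z1,[z1]),(k2,k0,z1,[z1])]),
    .old (.leafM k3 [k4,k1,k3] [(z1,[z0,z1]),(z1,[y2,y1,z2])] [(k0,k2,z1,[z1]),(k2,k0,z1,[z1])]),
    .old (.lp [k60,k14,k10,k10,k10] [k0,k0,k23,k23,k25,k25,k25,k25,k25,k25] k0 [] k70 k8
    [[(k4,k35),(k7,k35)],[(k5,k35),(k2,k37)],[(k5,k12),(k2,k14)],[(k3,k14),(k0,k37)],[(k3,k12),(k0,k35)],[(k8,k10),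
    (k1,k35)],[(k8,k10),(k1,k35)],[(k6,k10),(k9,k10)],[(k6,k10),(k9,k10)],[(k4,k10),(k7,k10)]]
    [] k0
    [[k0,k2,k0,k0,k0],[k0,k3,k0,k0,k0],[k0,k4,k0,k0,k0],[k0,k0,k0,k1,k1],[k0,k0,k0,k2,k2],[k0,k0,k0,k3,k3]]
    [.contra [z1],.ref k3 k0 [(z1,[z0,z1]),(z1,[z1])],.ref k4 k0 [(z1,[z0,z1]),(z2,[z1])],.contra [y2,y1,z2],
    .contra [y1,y2,z2],.ref k2 k0 [(z1,[z0,z1]),(z1,[y1,y3,z3])]]),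
    .old (.lp [k6,k8,k6,k6,k6] [k1,k1,k0,k0,k1,k1,k1,k1,k1,k1] k0 [] k24 k5
    [[(k4,k6),(k7,k6)],[(k5,k6),(k2,k7)],[(k5,k7),(k2,k8)],[(k0,k7),(k3,k8)],[(k0,k6),(k3,k7)],[(k1,k6),(k8,k6)],[(k1,
    k6),(k8,k6)],[(k6,k6),(k9,k6)],[(k6,k6),(k9,k6)],[(k4,k6),(k7,k6)]]
    [] k0
    [[k1,k0,k1,k0,k0],[k1,k1,k1,k0,k0],[k0,k2,k0,k0,k0],[k0,k0,k0,k1,k1]]
    [.ref k5 k0 [(z1,[z1])],.ref k1 k0 [(z1,[z1])],.contra [z1],.ref k0 k0 [(z1,[y1,z1])]])]⟩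

/-- classes `0 0 1 2 1`, types `B0 B1 C0 C0 C0` -/
noncomputable def cU5_172 : CertX :=
  ⟨[k8,k9,k20,k36,k20],[(false,k0,[k0,k1,k2,k3,k4])],[[[([z1,z1,z1,z0,z0],z1)],[([z1,z1,z1,z0,z0],z2)],[([z1,z0,z1,z0,
    z0],z2),([z0,z3,z0,z0,z0],z1)],[([z1,z0,z1,z0,z0],z2),([z0,z3,z0,z0,z0],z2)],[([z1,z0,z1,z0,z0],z2),([z0,z2,z0,z0,
    z0],z1)],[([z1,z0,z1,z0,z0],z2)],[]]],
    [.old (.leafM k1 [k2,k0,k1] [] [(k3,k4,z1,[y1,z1]),(k4,k3,z1,[y1,z1])]),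
    .old (.leafM k3 [k0,k1,k2,k3,k4] [(z1,[y1,z1])] []),
    .old (.leafM k4 [k4,k1,k3] [(z1,[z0,z1]),(z1,[y3,y1,z3])] [(k0,k2,z1,[z1]),(k2,k0,z1,[z1])]),
    .old (.leafM k2 [k4,k1,k3] [(z1,[z0,z1]),(z1,[y3,y1,z3])] [(k0,k2,z1,[z1]),(k2,k0,z1,[z1])]),
    .old (.leafM k3 [k4,k1,k3] [(z1,[z0,z1]),(z1,[y2,y1,z2])] [(k0,k2,z1,[z1]),(k2,k0,z1,[z1])]),
    .old (.lp [(nat_lit 1470),(nat_lit 322),k140,(nat_lit 460),k0] [k0,k0,(nat_lit 574),(nat_lit 574),(nat_lit 665),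
    (nat_lit 665),(nat_lit 505),(nat_lit 505),(nat_lit 735),(nat_lit 735)] k0 [] (nat_lit 1610) k8
    [[(k8,(nat_lit 735)),(k4,(nat_lit 805))],[(k5,(nat_lit 805)),(k2,(nat_lit 896))],[(k5,(nat_lit 231)),(k2,
    (nat_lit 322))],[(k3,(nat_lit 322)),(k0,(nat_lit 896))],[(k3,(nat_lit 231)),(k0,(nat_lit 805))],[(k7,
    (nat_lit 300)),(k1,(nat_lit 805))],[(k8,(nat_lit 230)),(k4,(nat_lit 300))],[(k9,(nat_lit 230))],[(k6,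
    (nat_lit 230))],[(k7,(nat_lit 230)),(k1,(nat_lit 735))]]
    [] k0
    [[k0,k2,k0,k0,k0],[k0,k3,k0,k0,k0],[k0,k4,k0,k0,k0],[k0,k0,k0,k1,k1],[k0,k0,k0,k2,k2],[k0,k0,k0,k3,k3]]
    [.contra [z1],.ref k3 k0 [(z1,[z0,z1]),(z1,[z1])],.ref k4 k0 [(z1,[z0,z1]),(z2,[z1])],.contra [y2,y1,z2],
    .contra [y1,y2,z2],.ref k2 k0 [(z1,[z0,z1]),(z1,[y1,y3,z3])]]),
    .old (.lp [k4,k4,k2,k4,k2] [k0,k0,k0,k0,k1,k1,k0,k0,k1,k1] k0 [] k12 k5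
    [[(k4,k3),(k8,k3)],[(k5,k3),(k2,k4)],[(k5,k3),(k2,k4)],[(k0,k4),(k3,k4)],[(k0,k3),(k3,k3)],[(k1,k3),(k7,k3)],[(k4,
    k3),(k8,k3)],[(k9,k3)],[(k6,k3)],[(k1,k3),(k7,k3)]]
    [] k0
    [[k1,k0,k1,k0,k0],[k1,k1,k1,k0,k0],[k0,k2,k0,k0,k0],[k0,k0,k0,k1,k1]]
    [.ref k5 k0 [(z1,[z1])],.ref k1 k0 [(z1,[z1])],.contra [z1],.ref k0 k0 [(z1,[y1,z1])]])]⟩

/-- classes `0 0 1 2 1`, types `B0 B1 C0 C0 C2` -/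
noncomputable def cU5_173 : CertX :=
  ⟨[k8,k9,k20,k36,k22],[],[[[]]],
    [.old (.lp [k6,k8,k6,k6,k6] [k1,k1,k0,k0,k1,k1,k1,k1,k1,k1] k0 [] k24 k5
    [[(k7,k6),(k8,k6)],[(k5,k6),(k2,k7)],[(k5,k7),(k2,k8)],[(k0,k7),(k3,k8)],[(k0,k6),(k3,k7)],[(k7,k6),(k8,k6)],[(k1,
    k6),(k4,k6)],[(k9,k6)],[(k6,k6)],[(k1,k6),(k4,k6)]]
    [] k0
    [[k0,k2,k0,k0,k0]]
    [.contra [z1]])]⟩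

/-- classes `0 0 1 2 1`, types `B0 B1 C0 S0 C0` -/
noncomputable def cU5_174 : CertX :=
  ⟨[k8,k9,k20,k32,k20],[(false,k0,[k0,k1,k2,k3,k4])],[[[([z1,z1,z1,z0,z0],z1)],[([z1,z1,z1,z0,z0],z2)],[([z1,z0,z1,z0,
    z0],z2),([z0,z3,z0,z0,z0],z1)],[([z1,z0,z1,z0,z0],z2),([z0,z3,z0,z0,z0],z2)],[([z1,z0,z1,z0,z0],z2),([z0,z2,z0,z0,
    z0],z1)],[([z1,z0,z1,z0,z0],z2)],[]]],
    [.old (.leafM k1 [k2,k0,k1] [] [(k3,k4,z1,[y1,z1]),(k4,k3,z1,[y1,z1])]),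
    .old (.leafM k3 [k0,k1,k2,k3,k4] [(z1,[y1,z1])] []),
    .old (.leafM k4 [k4,k1,k3] [(z1,[z0,z1]),(z1,[y3,y1,z3])] [(k0,k2,z1,[z1]),(k2,k0,z1,[z1])]),
    .old (.leafM k2 [k4,k1,k3] [(z1,[z0,z1]),(z1,[y3,y1,z3])] [(k0,k2,z1,[z1]),(k2,k0,z1,[z1])]),
    .old (.leafM k3 [k4,k1,k3] [(z1,[z0,z1]),(z1,[y2,y1,z2])] [(k0,k2,z1,[z1]),(k2,k0,z1,[z1])]),
    .old (.lp [k60,k14,k10,k10,k10] [k0,k0,k23,k23,k25,k25,k25,k25,k25,k25] k0 [] k70 k8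
    [[(k4,k35),(k8,k35)],[(k5,k35),(k2,k37)],[(k5,k12),(k2,k14)],[(k3,k14),(k0,k37)],[(k3,k12),(k0,k35)],[(k7,k10),
    (k1,k35)],[(k4,k10),(k8,k10)],[(k6,k10),(k9,k10)],[(k6,k10),(k9,k10)],[(k7,k10),(k1,k35)]]
    [] k0
    [[k0,k2,k0,k0,k0],[k0,k3,k0,k0,k0],[k0,k4,k0,k0,k0],[k0,k0,k0,k1,k1],[k0,k0,k0,k2,k2],[k0,k0,k0,k3,k3]]
    [.contra [z1],.ref k3 k0 [(z1,[z0,z1]),(z1,[z1])],.ref k4 k0 [(z1,[z0,z1]),(z2,[z1])],.contra [y2,y1,z2],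
    .contra [y1,y2,z2],.ref k2 k0 [(z1,[z0,z1]),(z1,[y1,y3,z3])]]),
    .old (.lp [k6,k8,k6,k6,k6] [k1,k1,k0,k0,k1,k1,k1,k1,k1,k1] k0 [] k24 k5
    [[(k4,k6),(k8,k6)],[(k5,k6),(k2,k7)],[(k5,k7),(k2,k8)],[(k0,k7),(k3,k8)],[(k0,k6),(k3,k7)],[(k1,k6),(k7,k6)],[(k4,
    k6),(k8,k6)],[(k6,k6),(k9,k6)],[(k6,k6),(k9,k6)],[(k1,k6),(k7,k6)]]
    [] k0
    [[k1,k0,k1,k0,k0],[k1,k1,k1,k0,k0],[k0,k2,k0,k0,k0],[k0,k0,k0,k1,k1]]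
    [.ref k5 k0 [(z1,[z1])],.ref k1 k0 [(z1,[z1])],.contra [z1],.ref k0 k0 [(z1,[y1,z1])]])]⟩

/-- classes `0 0 1 2 1`, types `B0 B1 C0 S0 C2` -/
noncomputable def cU5_175 : CertX :=
  ⟨[k8,k9,k20,k32,k22],[],[[[]]],
    [.old (.lp [k6,k8,k6,k6,k6] [k1,k1,k0,k0,k1,k1,k1,k1,k1,k1] k0 [] k24 k5
    [[(k7,k6),(k8,k6)],[(k5,k6),(k2,k7)],[(k5,k7),(k2,k8)],[(k0,k7),(k3,k8)],[(k0,k6),(k3,k7)],[(k7,k6),(k8,k6)],[(k1,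
    k6),(k4,k6)],[(k6,k6),(k9,k6)],[(k6,k6),(k9,k6)],[(k1,k6),(k4,k6)]]
    [] k0
    [[k0,k2,k0,k0,k0]]
    [.contra [z1]])]⟩

/-- classes `0 0 1 2 1`, types `B0 B1 N0 C0 N1` -/
noncomputable def cU5_176 : CertX :=
  ⟨[k8,k9,k28,k36,k29],[(false,k0,[k0,k1,k2,k3,k4])],[[[([z1,z1,z1,z0,z0],z1)],[([z1,z1,z1,z0,z0],z2)],[([z1,z0,z1,z0,
    z0],z2),([z0,z3,z0,z0,z0],z1)],[([z1,z0,z1,z0,z0],z2),([z0,z3,z0,z0,z0],z2)],[([z1,z0,z1,z0,z0],z2),([z0,z2,z0,z0,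
    z0],z1)],[([z1,z0,z1,z0,z0],z2)],[]]],
    [.old (.leafM k1 [k2,k0,k1] [] [(k3,k4,z1,[y1,z1]),(k4,k3,z1,[y1,z1])]),
    .old (.leafM k3 [k0,k1,k2,k3,k4] [(z1,[y1,z1])] []),
    .old (.leafM k4 [k4,k1,k3] [(z1,[z0,z1]),(z1,[y3,y1,z3])] [(k0,k2,z1,[z1]),(k2,k0,z1,[z1])]),
    .old (.leafM k2 [k4,k1,k3] [(z1,[z0,z1]),(z1,[y3,y1,z3])] [(k0,k2,z1,[z1]),(k2,k0,z1,[z1])]),
    .old (.leafM k3 [k4,k1,k3] [(z1,[z0,z1]),(z1,[y2,y1,z2])] [(k0,k2,z1,[z1]),(k2,k0,z1,[z1])]),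
    .old (.lp [(nat_lit 1470),(nat_lit 322),k140,(nat_lit 460),k0] [k0,k0,(nat_lit 574),(nat_lit 574),(nat_lit 665),
    (nat_lit 665),(nat_lit 505),(nat_lit 505),(nat_lit 735),(nat_lit 735)] k0 [] (nat_lit 1610) k8
    [[(k4,(nat_lit 805))],[(k5,(nat_lit 805)),(k2,(nat_lit 896))],[(k5,(nat_lit 231)),(k2,(nat_lit 322))],[(k3,
    (nat_lit 322)),(k0,(nat_lit 896))],[(k3,(nat_lit 231)),(k0,(nat_lit 805))],[(k1,(nat_lit 805))],[(k8,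
    (nat_lit 230))],[(k9,(nat_lit 230))],[(k6,(nat_lit 230))],[(k7,(nat_lit 230))]]
    [] k0
    [[k0,k2,k0,k0,k0],[k0,k3,k0,k0,k0],[k0,k4,k0,k0,k0],[k0,k0,k0,k1,k1],[k0,k0,k0,k2,k2],[k0,k0,k0,k3,k3]]
    [.contra [z1],.ref k3 k0 [(z1,[z0,z1]),(z1,[z1])],.ref k4 k0 [(z1,[z0,z1]),(z2,[z1])],.contra [y2,y1,z2],
    .contra [y1,y2,z2],.ref k2 k0 [(z1,[z0,z1]),(z1,[y1,y3,z3])]]),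
    .old (.lp [k4,k4,k2,k6,k0] [k1,k1,k1,k1,k2,k2,k0,k0,k3,k3] k0 [] k12 k5
    [[(k4,k3)],[(k5,k3),(k2,k4)],[(k5,k3),(k2,k4)],[(k0,k4),(k3,k4)],[(k0,k3),(k3,k3)],[(k1,k3)],[(k8,k3)],[(k9,k3)],
    [(k6,k3)],[(k7,k3)]]
    [] k0
    [[k1,k0,k1,k0,k0],[k1,k1,k1,k0,k0],[k0,k2,k0,k0,k0],[k0,k0,k0,k1,k1]]
    [.ref k5 k0 [(z1,[z1])],.ref k1 k0 [(z1,[z1])],.contra [z1],.ref k0 k0 [(z1,[y1,z1])]])]⟩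

/-- classes `0 0 1 2 1`, types `B0 B1 N0 C0 N2` -/
noncomputable def cU5_177 : CertX :=
  ⟨[k8,k9,k28,k36,k30],[],[[[]]],
    [.old (.lp [k4,k4,k2,k2,k4] [k0,k0,k0,k0,k1,k1,k1,k1,k0,k0] k0 [] k12 k5
    [[(k7,k3)],[(k5,k3),(k2,k4)],[(k5,k3),(k2,k4)],[(k0,k4),(k3,k4)],[(k0,k3),(k3,k3)],[(k8,k3)],[(k1,k3)],[(k9,k3)],
    [(k6,k3)],[(k4,k3)]]
    [] k0
    [[k0,k2,k0,k0,k0]]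
    [.contra [z1]])]⟩

/-- classes `0 0 1 2 1`, types `B0 B1 N0 S0 N1` -/
noncomputable def cU5_178 : CertX :=
  ⟨[k8,k9,k28,k32,k29],[(false,k0,[k0,k1,k2,k3,k4])],[[[([z1,z1,z1,z0,z0],z1)],[([z1,z1,z1,z0,z0],z2)],[([z1,z0,z1,z0,
    z0],z2),([z0,z3,z0,z0,z0],z1)],[([z1,z0,z1,z0,z0],z2),([z0,z3,z0,z0,z0],z2)],[([z1,z0,z1,z0,z0],z2),([z0,z2,z0,z0,
    z0],z1)],[([z1,z0,z1,z0,z0],z2)],[]]],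
    [.old (.leafM k1 [k2,k0,k1] [] [(k3,k4,z1,[y1,z1]),(k4,k3,z1,[y1,z1])]),
    .old (.leafM k3 [k0,k1,k2,k3,k4] [(z1,[y1,z1])] []),
    .old (.leafM k4 [k4,k1,k3] [(z1,[z0,z1]),(z1,[y3,y1,z3])] [(k0,k2,z1,[z1]),(k2,k0,z1,[z1])]),
    .old (.leafM k2 [k4,k1,k3] [(z1,[z0,z1]),(z1,[y3,y1,z3])] [(k0,k2,z1,[z1]),(k2,k0,z1,[z1])]),
    .old (.leafM k3 [k4,k1,k3] [(z1,[z0,z1]),(z1,[y2,y1,z2])] [(k0,k2,z1,[z1]),(k2,k0,z1,[z1])]),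
    .old (.lp [(nat_lit 1470),(nat_lit 322),k140,(nat_lit 230),(nat_lit 230)] [k0,k0,(nat_lit 574),(nat_lit 574),
    (nat_lit 665),(nat_lit 665),(nat_lit 620),(nat_lit 620),(nat_lit 620),(nat_lit 620)] k0 [] (nat_lit 1610) k8
    [[(k4,(nat_lit 805))],[(k5,(nat_lit 805)),(k2,(nat_lit 896))],[(k5,(nat_lit 231)),(k2,(nat_lit 322))],[(k3,
    (nat_lit 322)),(k0,(nat_lit 896))],[(k3,(nat_lit 231)),(k0,(nat_lit 805))],[(k1,(nat_lit 805))],[(k8,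
    (nat_lit 230))],[(k6,(nat_lit 230)),(k9,(nat_lit 230))],[(k6,(nat_lit 230)),(k9,(nat_lit 230))],[(k7,
    (nat_lit 230))]]
    [] k0
    [[k0,k2,k0,k0,k0],[k0,k3,k0,k0,k0],[k0,k4,k0,k0,k0],[k0,k0,k0,k1,k1],[k0,k0,k0,k2,k2],[k0,k0,k0,k3,k3]]
    [.contra [z1],.ref k3 k0 [(z1,[z0,z1]),(z1,[z1])],.ref k4 k0 [(z1,[z0,z1]),(z2,[z1])],.contra [y2,y1,z2],
    .contra [y1,y2,z2],.ref k2 k0 [(z1,[z0,z1]),(z1,[y1,y3,z3])]]),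
    .old (.lp [k8,k8,k4,k6,k6] [k0,k0,k0,k0,k2,k2,k1,k1,k1,k1] k0 [] k24 k5
    [[(k4,k6)],[(k5,k6),(k2,k8)],[(k5,k6),(k2,k8)],[(k0,k8),(k3,k8)],[(k0,k6),(k3,k6)],[(k1,k6)],[(k8,k6)],[(k6,k6),
    (k9,k6)],[(k6,k6),(k9,k6)],[(k7,k6)]]
    [] k0
    [[k1,k0,k1,k0,k0],[k1,k1,k1,k0,k0],[k0,k2,k0,k0,k0],[k0,k0,k0,k1,k1]]
    [.ref k5 k0 [(z1,[z1])],.ref k1 k0 [(z1,[z1])],.contra [z1],.ref k0 k0 [(z1,[y1,z1])]])]⟩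

/-- classes `0 0 1 2 1`, types `B0 B1 N0 S0 N2` -/
noncomputable def cU5_179 : CertX :=
  ⟨[k8,k9,k28,k32,k30],[],[[[]]],
    [.old (.lp [k6,k8,k6,k6,k6] [k1,k1,k0,k0,k1,k1,k1,k1,k1,k1] k0 [] k24 k5
    [[(k7,k6)],[(k5,k6),(k2,k7)],[(k5,k7),(k2,k8)],[(k0,k7),(k3,k8)],[(k0,k6),(k3,k7)],[(k8,k6)],[(k1,k6)],[(k6,k6),
    (k9,k6)],[(k6,k6),(k9,k6)],[(k4,k6)]]
    [] k0
    [[k0,k2,k0,k0,k0]]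
    [.contra [z1]])]⟩

/-- classes `0 0 1 2 1`, types `B0 B1 S0 C0 S0` -/
noncomputable def cU5_180 : CertX :=
  ⟨[k8,k9,k16,k36,k16],[(false,k0,[k0,k1,k2,k3,k4])],[[[([z1,z1,z1,z0,z0],z1)],[([z1,z1,z1,z0,z0],z2)],[([z1,z0,z1,z0,
    z0],z2),([z0,z3,z0,z0,z0],z1)],[([z1,z0,z1,z0,z0],z2),([z0,z3,z0,z0,z0],z2)],[([z1,z0,z1,z0,z0],z2),([z0,z2,z0,z0,
    z0],z1)],[([z1,z0,z1,z0,z0],z2)],[]]],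
    [.old (.leafM k1 [k2,k0,k1] [] [(k3,k4,z1,[y1,z1]),(k4,k3,z1,[y1,z1])]),
    .old (.leafM k3 [k0,k1,k2,k3,k4] [(z1,[y1,z1])] []),
    .old (.leafM k4 [k4,k1,k3] [(z1,[z0,z1]),(z1,[y3,y1,z3])] [(k0,k2,z1,[z1]),(k2,k0,z1,[z1])]),
    .old (.leafM k2 [k4,k1,k3] [(z1,[z0,z1]),(z1,[y3,y1,z3])] [(k0,k2,z1,[z1]),(k2,k0,z1,[z1])]),
    .old (.leafM k3 [k4,k1,k3] [(z1,[z0,z1]),(z1,[y2,y1,z2])] [(k0,k2,z1,[z1]),(k2,k0,z1,[z1])]),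
    .old (.lp [k10,k14,k60,k10,k10] [k25,k25,k23,k23,k0,k0,k25,k25,k25,k25] k0 [] k70 k8
    [[(k1,k10),(k7,k10),(k8,k10),(k4,k35)],[(k2,k12),(k5,k35)],[(k2,k14),(k5,k37)],[(k0,k12),(k3,k14)],[(k0,k35),(k3,
    k37)],[(k1,k35),(k7,k35),(k8,k35),(k4,k60)],[(k1,k10),(k7,k10),(k8,k10),(k4,k35)],[(k9,k10)],[(k6,k10)],[(k1,k10),
    (k7,k10),(k8,k10),(k4,k35)]]
    [] k0
    [[k0,k2,k0,k0,k0],[k0,k3,k0,k0,k0],[k0,k4,k0,k0,k0],[k0,k0,k0,k3,k3],[k0,k0,k0,k2,k2],[k0,k0,k0,k1,k1]]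
    [.contra [z1],.ref k3 k0 [(z1,[z0,z1]),(z1,[z1])],.ref k4 k0 [(z1,[z0,z1]),(z2,[z1])],.ref k2 k0 [(z1,[z0,z1]),
    (z1,[y1,y3,z3])],.contra [y1,y2,z2],.contra [y2,y1,z2]]),
    .old (.lp [k6,k8,k6,k6,k6] [k1,k1,k0,k0,k1,k1,k1,k1,k1,k1] k0 [] k24 k5
    [[(k1,k6),(k4,k6),(k7,k6),(k8,k6)],[(k5,k6),(k2,k7)],[(k5,k7),(k2,k8)],[(k0,k7),(k3,k8)],[(k0,k6),(k3,k7)],[(k1,
    k6),(k4,k6),(k7,k6),(k8,k6)],[(k1,k6),(k4,k6),(k7,k6),(k8,k6)],[(k9,k6)],[(k6,k6)],[(k1,k6),(k4,k6),(k7,k6),(k8,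
    k6)]]
    [] k0
    [[k1,k0,k1,k0,k0],[k1,k1,k1,k0,k0],[k0,k2,k0,k0,k0],[k0,k0,k0,k1,k1]]
    [.ref k5 k0 [(z1,[z1])],.ref k1 k0 [(z1,[z1])],.contra [z1],.ref k0 k0 [(z1,[y1,z1])]])]⟩

/-- classes `0 0 1 2 1`, types `B0 B1 S0 S0 S0` -/
noncomputable def cU5_181 : CertX :=
  ⟨[k8,k9,k16,k32,k16],[(false,k0,[k0,k1,k2,k3,k4])],[[[([z1,z1,z1,z0,z0],z1)],[([z1,z1,z1,z0,z0],z2)],[([z1,z0,z1,z0,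
    z0],z2),([z0,z3,z0,z0,z0],z1)],[([z1,z0,z1,z0,z0],z2),([z0,z3,z0,z0,z0],z2)],[([z1,z0,z1,z0,z0],z2),([z0,z2,z0,z0,
    z0],z1)],[([z1,z0,z1,z0,z0],z2)],[]]],
    [.old (.leafM k1 [k2,k0,k1] [] [(k3,k4,z1,[y1,z1]),(k4,k3,z1,[y1,z1])]),
    .old (.leafM k3 [k0,k1,k2,k3,k4] [(z1,[y1,z1])] []),
    .old (.leafM k4 [k4,k1,k3] [(z1,[z0,z1]),(z1,[y3,y1,z3])] [(k0,k2,z1,[z1]),(k2,k0,z1,[z1])]),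
    .old (.leafM k2 [k4,k1,k3] [(z1,[z0,z1]),(z1,[y3,y1,z3])] [(k0,k2,z1,[z1]),(k2,k0,z1,[z1])]),
    .old (.leafM k3 [k4,k1,k3] [(z1,[z0,z1]),(z1,[y2,y1,z2])] [(k0,k2,z1,[z1]),(k2,k0,z1,[z1])]),
    .old (.lp [(nat_lit 240),(nat_lit 336),(nat_lit 740),(nat_lit 595),(nat_lit 595)] [(nat_lit 355),(nat_lit 355),
    (nat_lit 307),(nat_lit 307),k105,k105,(nat_lit 355),k0,k10,(nat_lit 345)] k0 [[],[],[],[],[],[k0,k0,k0,k0,k0,k0,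
    k0,k0,k0,(nat_lit 700)],[],[],[k0,k0,k0,k0,(nat_lit 700)]] (nat_lit 1680) k8
    [[(k1,(nat_lit 240)),(k8,(nat_lit 585)),(k7,(nat_lit 595)),(k4,(nat_lit 1190))],[(k2,(nat_lit 288)),(k5,
    (nat_lit 490))],[(k2,(nat_lit 336)),(k5,(nat_lit 538))],[(k0,(nat_lit 288)),(k3,(nat_lit 336))],[(k0,
    (nat_lit 490)),(k3,(nat_lit 538))],[(k4,(nat_lit 740)),(k8,(nat_lit 835)),(k7,(nat_lit 845)),(k1,(nat_lit 1190))],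
    [(k8,(nat_lit 240)),(k1,(nat_lit 595)),(k4,(nat_lit 845)),(k7,(nat_lit 950))],[(k6,(nat_lit 240)),(k9,
    (nat_lit 250))],[(k6,(nat_lit 250)),(k9,(nat_lit 260))],[(k7,(nat_lit 240)),(k1,(nat_lit 585)),(k4,(nat_lit 835)),
    (k8,(nat_lit 930))]]
    [] k0
    [[k0,k2,k0,k0,k0],[k0,k3,k0,k0,k0],[k0,k4,k0,k0,k0],[k0,k0,k0,k2,k0],[k0,k0,k0,k1,k1],[k0,k0,k0,k2,k2],[k0,k0,k0,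
    k3,k3],[k0,k0,k0,k0,k2]]
    [.contra [z1],.ref k3 k0 [(z1,[z0,z1]),(z1,[z1])],.ref k4 k0 [(z1,[z0,z1]),(z2,[z1])],.contra [z1],.contra [y2,y1,
    z2],.contra [y1,y2,z2],.ref k2 k0 [(z1,[z0,z1]),(z1,[y1,y3,z3])],.contra [z1]]),
    .old (.lp [k6,k8,k6,k6,k6] [k1,k1,k0,k0,k1,k1,k1,k1,k1,k1] k0 [] k24 k5
    [[(k1,k6),(k4,k6),(k7,k6),(k8,k6)],[(k5,k6),(k2,k7)],[(k5,k7),(k2,k8)],[(k0,k7),(k3,k8)],[(k0,k6),(k3,k7)],[(k1,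
    k6),(k4,k6),(k7,k6),(k8,k6)],[(k1,k6),(k4,k6),(k7,k6),(k8,k6)],[(k6,k6),(k9,k6)],[(k6,k6),(k9,k6)],[(k1,k6),(k4,
    k6),(k7,k6),(k8,k6)]]
    [] k0
    [[k1,k0,k1,k0,k0],[k1,k1,k1,k0,k0],[k0,k2,k0,k0,k0],[k0,k0,k0,k2,k0],[k0,k0,k0,k1,k1],[k0,k0,k0,k0,k2]]
    [.ref k5 k0 [(z1,[z1])],.ref k1 k0 [(z1,[z1])],.contra [z1],.contra [z1],.ref k0 k0 [(z1,[y1,z1])],.contra [z1]])]⟩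

/-- classes `0 0 1 2 1`, types `C0 C0 B0 C0 B1` -/
noncomputable def cU5_182 : CertX :=
  ⟨[k4,k4,k24,k36,k25],[(false,k0,[k0,k1,k2,k3,k4])],[[[([z1,z1,z1,z0,z0],z1)],[([z1,z1,z1,z0,z0],z2)],[([z1,z0,z1,z0,
    z0],z2),([z0,z3,z0,z0,z0],z1)],[([z1,z0,z1,z0,z0],z2),([z0,z3,z0,z0,z0],z2)],[([z1,z0,z1,z0,z0],z2),([z0,z2,z0,z0,
    z0],z1)],[([z1,z0,z1,z0,z0],z2)],[]]],
    [.old (.leafM k0 [k0,k1,k2] [] [(k3,k4,z1,[y1,z1]),(k4,k3,z1,[y1,z1])]),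
    .old (.leafM k1 [k2,k3,k4,k0,k1] [(z1,[y1,z1])] []),
    .old (.leafM k4 [k4,k1,k3] [(z1,[z0,z1]),(z1,[y3,y1,z3])] [(k0,k2,z1,[z1]),(k2,k0,z1,[z1])]),
    .old (.leafM k2 [k4,k1,k3] [(z1,[z0,z1]),(z1,[y3,y1,z3])] [(k0,k2,z1,[z1]),(k2,k0,z1,[z1])]),
    .old (.leafM k3 [k4,k1,k3] [(z1,[z0,z1]),(z1,[y2,y1,z2])] [(k0,k2,z1,[z1]),(k2,k0,z1,[z1])]),
    .old (.lp [(nat_lit 210),k46,k20,k20,k46] [k0,k0,k82,k82,k95,k95,k95,k95,k82,k82] k0 [] (nat_lit 230) k8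
    [[(k4,k115),(k7,k115)],[(k5,k115),(k3,k128)],[(k2,k46),(k0,k128)],[(k5,k33),(k3,k46)],[(k2,k33),(k0,k115)],[(k8,
    k33),(k1,k115)],[(k8,k33),(k1,k115)],[(k9,k33)],[(k6,k33)],[(k4,k33),(k7,k33)]]
    [] k0
    [[k0,k2,k0,k0,k0],[k0,k3,k0,k0,k0],[k0,k4,k0,k0,k0],[k0,k0,k0,k1,k1],[k0,k0,k0,k2,k2],[k0,k0,k0,k3,k3]]
    [.contra [z1],.ref k3 k0 [(z1,[z0,z1]),(z1,[z1])],.ref k4 k0 [(z1,[z0,z1]),(z2,[z1])],.contra [y2,y1,z2],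
    .contra [y1,y2,z2],.ref k2 k0 [(z1,[z0,z1]),(z1,[y1,y3,z3])]]),
    .old (.lp [k4,k4,k2,k2,k4] [k0,k0,k0,k0,k1,k1,k1,k1,k0,k0] k0 [] k12 k5
    [[(k4,k3),(k7,k3)],[(k5,k3),(k3,k4)],[(k0,k4),(k2,k4)],[(k5,k3),(k3,k4)],[(k0,k3),(k2,k3)],[(k1,k3),(k8,k3)],[(k1,
    k3),(k8,k3)],[(k9,k3)],[(k6,k3)],[(k4,k3),(k7,k3)]]
    [] k0
    [[k1,k0,k1,k0,k0],[k1,k1,k1,k0,k0],[k0,k2,k0,k0,k0],[k0,k0,k0,k1,k1]]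
    [.ref k5 k0 [(z1,[z1])],.ref k1 k0 [(z1,[z1])],.contra [z1],.ref k0 k0 [(z1,[y1,z1])]])]⟩

/-- classes `0 0 1 2 1`, types `C0 C0 B0 S0 B1` -/
noncomputable def cU5_183 : CertX :=
  ⟨[k4,k4,k24,k32,k25],[(false,k0,[k0,k1,k2,k3,k4])],[[[([z1,z1,z1,z0,z0],z1)],[([z1,z1,z1,z0,z0],z2)],[([z1,z0,z1,z0,
    z0],z2),([z0,z3,z0,z0,z0],z1)],[([z1,z0,z1,z0,z0],z2),([z0,z3,z0,z0,z0],z2)],[([z1,z0,z1,z0,z0],z2),([z0,z2,z0,z0,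
    z0],z1)],[([z1,z0,z1,z0,z0],z2)],[]]],
    [.old (.leafM k0 [k0,k1,k2] [] [(k3,k4,z1,[y1,z1]),(k4,k3,z1,[y1,z1])]),
    .old (.leafM k1 [k2,k3,k4,k0,k1] [(z1,[y1,z1])] []),
    .old (.leafM k4 [k4,k1,k3] [(z1,[z0,z1]),(z1,[y3,y1,z3])] [(k0,k2,z1,[z1]),(k2,k0,z1,[z1])]),
    .old (.leafM k2 [k4,k1,k3] [(z1,[z0,z1]),(z1,[y3,y1,z3])] [(k0,k2,z1,[z1]),(k2,k0,z1,[z1])]),
    .old (.leafM k3 [k4,k1,k3] [(z1,[z0,z1]),(z1,[y2,y1,z2])] [(k0,k2,z1,[z1]),(k2,k0,z1,[z1])]),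
    .old (.lp [k60,k14,k10,k10,k10] [k0,k0,k23,k23,k25,k25,k25,k25,k25,k25] k0 [] k70 k8
    [[(k4,k35),(k7,k35)],[(k5,k35),(k3,k37)],[(k2,k14),(k0,k37)],[(k5,k12),(k3,k14)],[(k2,k12),(k0,k35)],[(k8,k10),
    (k1,k35)],[(k8,k10),(k1,k35)],[(k6,k10),(k9,k10)],[(k6,k10),(k9,k10)],[(k4,k10),(k7,k10)]]
    [] k0
    [[k0,k2,k0,k0,k0],[k0,k3,k0,k0,k0],[k0,k4,k0,k0,k0],[k0,k0,k0,k1,k1],[k0,k0,k0,k2,k2],[k0,k0,k0,k3,k3]]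
    [.contra [z1],.ref k3 k0 [(z1,[z0,z1]),(z1,[z1])],.ref k4 k0 [(z1,[z0,z1]),(z2,[z1])],.contra [y2,y1,z2],
    .contra [y1,y2,z2],.ref k2 k0 [(z1,[z0,z1]),(z1,[y1,y3,z3])]]),
    .old (.lp [k6,k8,k6,k6,k6] [k1,k1,k0,k0,k1,k1,k1,k1,k1,k1] k0 [] k24 k5
    [[(k4,k6),(k7,k6)],[(k5,k6),(k3,k7)],[(k0,k7),(k2,k8)],[(k5,k7),(k3,k8)],[(k0,k6),(k2,k7)],[(k1,k6),(k8,k6)],[(k1,
    k6),(k8,k6)],[(k6,k6),(k9,k6)],[(k6,k6),(k9,k6)],[(k4,k6),(k7,k6)]]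
    [] k0
    [[k1,k0,k1,k0,k0],[k1,k1,k1,k0,k0],[k0,k2,k0,k0,k0],[k0,k0,k0,k1,k1]]
    [.ref k5 k0 [(z1,[z1])],.ref k1 k0 [(z1,[z1])],.contra [z1],.ref k0 k0 [(z1,[y1,z1])]])]⟩

/-- classes `0 0 1 2 1`, types `C0 C0 C0 C0 C0` -/
noncomputable def cU5_184 : CertX :=
  ⟨[k4,k4,k20,k36,k20],[(false,k0,[k0,k1,k2,k3,k4])],[[[([z1,z1,z1,z0,z0],z1)],[([z1,z1,z1,z0,z0],z2)],[([z1,z0,z1,z0,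
    z0],z2),([z0,z3,z0,z0,z0],z1)],[([z1,z0,z1,z0,z0],z2),([z0,z3,z0,z0,z0],z2)],[([z1,z0,z1,z0,z0],z2),([z0,z2,z0,z0,
    z0],z1)],[([z1,z0,z1,z0,z0],z2)],[]]],
    [.old (.leafM k0 [k0,k1,k2] [] [(k3,k4,z1,[y1,z1]),(k4,k3,z1,[y1,z1])]),
    .old (.leafM k1 [k2,k3,k4,k0,k1] [(z1,[y1,z1])] []),
    .old (.leafM k4 [k4,k1,k3] [(z1,[z0,z1]),(z1,[y3,y1,z3])] [(k0,k2,z1,[z1]),(k2,k0,z1,[z1])]),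
    .old (.leafM k2 [k4,k1,k3] [(z1,[z0,z1]),(z1,[y3,y1,z3])] [(k0,k2,z1,[z1]),(k2,k0,z1,[z1])]),
    .old (.leafM k3 [k4,k1,k3] [(z1,[z0,z1]),(z1,[y2,y1,z2])] [(k0,k2,z1,[z1]),(k2,k0,z1,[z1])]),
    .old (.lp [(nat_lit 1470),(nat_lit 322),k140,(nat_lit 460),k0] [k0,k0,(nat_lit 574),(nat_lit 574),(nat_lit 665),
    (nat_lit 665),(nat_lit 505),(nat_lit 505),(nat_lit 735),(nat_lit 735)] k0 [] (nat_lit 1610) k8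
    [[(k8,(nat_lit 735)),(k4,(nat_lit 805))],[(k5,(nat_lit 805)),(k3,(nat_lit 896))],[(k2,(nat_lit 322)),(k0,
    (nat_lit 896))],[(k5,(nat_lit 231)),(k3,(nat_lit 322))],[(k2,(nat_lit 231)),(k0,(nat_lit 805))],[(k7,
    (nat_lit 300)),(k1,(nat_lit 805))],[(k8,(nat_lit 230)),(k4,(nat_lit 300))],[(k9,(nat_lit 230))],[(k6,
    (nat_lit 230))],[(k7,(nat_lit 230)),(k1,(nat_lit 735))]]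
    [] k0
    [[k0,k2,k0,k0,k0],[k0,k3,k0,k0,k0],[k0,k4,k0,k0,k0],[k0,k0,k0,k1,k1],[k0,k0,k0,k2,k2],[k0,k0,k0,k3,k3]]
    [.contra [z1],.ref k3 k0 [(z1,[z0,z1]),(z1,[z1])],.ref k4 k0 [(z1,[z0,z1]),(z2,[z1])],.contra [y2,y1,z2],
    .contra [y1,y2,z2],.ref k2 k0 [(z1,[z0,z1]),(z1,[y1,y3,z3])]]),
    .old (.lp [k4,k4,k2,k4,k2] [k0,k0,k0,k0,k1,k1,k0,k0,k1,k1] k0 [] k12 k5
    [[(k4,k3),(k8,k3)],[(k5,k3),(k3,k4)],[(k0,k4),(k2,k4)],[(k5,k3),(k3,k4)],[(k0,k3),(k2,k3)],[(k1,k3),(k7,k3)],[(k4,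
    k3),(k8,k3)],[(k9,k3)],[(k6,k3)],[(k1,k3),(k7,k3)]]
    [] k0
    [[k1,k0,k1,k0,k0],[k1,k1,k1,k0,k0],[k0,k2,k0,k0,k0],[k0,k0,k0,k1,k1]]
    [.ref k5 k0 [(z1,[z1])],.ref k1 k0 [(z1,[z1])],.contra [z1],.ref k0 k0 [(z1,[y1,z1])]])]⟩

/-- classes `0 0 1 2 1`, types `C0 C0 C0 C0 C2` -/
noncomputable def cU5_185 : CertX :=
  ⟨[k4,k4,k20,k36,k22],[],[[[]]],
    [.old (.lp [k6,k8,k6,k6,k6] [k1,k1,k0,k0,k1,k1,k1,k1,k1,k1] k0 [] k24 k5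
    [[(k7,k6),(k8,k6)],[(k5,k6),(k3,k7)],[(k0,k7),(k2,k8)],[(k5,k7),(k3,k8)],[(k0,k6),(k2,k7)],[(k7,k6),(k8,k6)],[(k1,
    k6),(k4,k6)],[(k9,k6)],[(k6,k6)],[(k1,k6),(k4,k6)]]
    [] k0
    [[k0,k2,k0,k0,k0]]
    [.contra [z1]])]⟩

/-- classes `0 0 1 2 1`, types `C0 C0 C0 S0 C0` -/
noncomputable def cU5_186 : CertX :=
  ⟨[k4,k4,k20,k32,k20],[(false,k0,[k0,k1,k2,k3,k4])],[[[([z1,z1,z1,z0,z0],z1)],[([z1,z1,z1,z0,z0],z2)],[([z1,z0,z1,z0,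
    z0],z2),([z0,z3,z0,z0,z0],z1)],[([z1,z0,z1,z0,z0],z2),([z0,z3,z0,z0,z0],z2)],[([z1,z0,z1,z0,z0],z2),([z0,z2,z0,z0,
    z0],z1)],[([z1,z0,z1,z0,z0],z2)],[]]],
    [.old (.leafM k0 [k0,k1,k2] [] [(k3,k4,z1,[y1,z1]),(k4,k3,z1,[y1,z1])]),
    .old (.leafM k1 [k2,k3,k4,k0,k1] [(z1,[y1,z1])] []),
    .old (.leafM k4 [k4,k1,k3] [(z1,[z0,z1]),(z1,[y3,y1,z3])] [(k0,k2,z1,[z1]),(k2,k0,z1,[z1])]),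
    .old (.leafM k2 [k4,k1,k3] [(z1,[z0,z1]),(z1,[y3,y1,z3])] [(k0,k2,z1,[z1]),(k2,k0,z1,[z1])]),
    .old (.leafM k3 [k4,k1,k3] [(z1,[z0,z1]),(z1,[y2,y1,z2])] [(k0,k2,z1,[z1]),(k2,k0,z1,[z1])]),
    .old (.lp [k60,k14,k10,k10,k10] [k0,k0,k23,k23,k25,k25,k25,k25,k25,k25] k0 [] k70 k8
    [[(k4,k35),(k8,k35)],[(k5,k35),(k3,k37)],[(k2,k14),(k0,k37)],[(k5,k12),(k3,k14)],[(k2,k12),(k0,k35)],[(k7,k10),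
    (k1,k35)],[(k4,k10),(k8,k10)],[(k6,k10),(k9,k10)],[(k6,k10),(k9,k10)],[(k7,k10),(k1,k35)]]
    [] k0
    [[k0,k2,k0,k0,k0],[k0,k3,k0,k0,k0],[k0,k4,k0,k0,k0],[k0,k0,k0,k1,k1],[k0,k0,k0,k2,k2],[k0,k0,k0,k3,k3]]
    [.contra [z1],.ref k3 k0 [(z1,[z0,z1]),(z1,[z1])],.ref k4 k0 [(z1,[z0,z1]),(z2,[z1])],.contra [y2,y1,z2],
    .contra [y1,y2,z2],.ref k2 k0 [(z1,[z0,z1]),(z1,[y1,y3,z3])]]),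
    .old (.lp [k6,k8,k6,k6,k6] [k1,k1,k0,k0,k1,k1,k1,k1,k1,k1] k0 [] k24 k5
    [[(k4,k6),(k8,k6)],[(k5,k6),(k3,k7)],[(k0,k7),(k2,k8)],[(k5,k7),(k3,k8)],[(k0,k6),(k2,k7)],[(k1,k6),(k7,k6)],[(k4,
    k6),(k8,k6)],[(k6,k6),(k9,k6)],[(k6,k6),(k9,k6)],[(k1,k6),(k7,k6)]]
    [] k0
    [[k1,k0,k1,k0,k0],[k1,k1,k1,k0,k0],[k0,k2,k0,k0,k0],[k0,k0,k0,k1,k1]]
    [.ref k5 k0 [(z1,[z1])],.ref k1 k0 [(z1,[z1])],.contra [z1],.ref k0 k0 [(z1,[y1,z1])]])]⟩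

/-- classes `0 0 1 2 1`, types `C0 C0 C0 S0 C2` -/
noncomputable def cU5_187 : CertX :=
  ⟨[k4,k4,k20,k32,k22],[],[[[]]],
    [.old (.lp [k6,k8,k6,k6,k6] [k1,k1,k0,k0,k1,k1,k1,k1,k1,k1] k0 [] k24 k5
    [[(k7,k6),(k8,k6)],[(k5,k6),(k3,k7)],[(k0,k7),(k2,k8)],[(k5,k7),(k3,k8)],[(k0,k6),(k2,k7)],[(k7,k6),(k8,k6)],[(k1,
    k6),(k4,k6)],[(k6,k6),(k9,k6)],[(k6,k6),(k9,k6)],[(k1,k6),(k4,k6)]]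
    [] k0
    [[k0,k2,k0,k0,k0]]
    [.contra [z1]])]⟩

/-- classes `0 0 1 2 1`, types `C0 C0 N0 C0 N1` -/
noncomputable def cU5_188 : CertX :=
  ⟨[k4,k4,k28,k36,k29],[(false,k0,[k0,k1,k2,k3,k4])],[[[([z1,z1,z1,z0,z0],z1)],[([z1,z1,z1,z0,z0],z2)],[([z1,z0,z1,z0,
    z0],z2),([z0,z3,z0,z0,z0],z1)],[([z1,z0,z1,z0,z0],z2),([z0,z3,z0,z0,z0],z2)],[([z1,z0,z1,z0,z0],z2),([z0,z2,z0,z0,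
    z0],z1)],[([z1,z0,z1,z0,z0],z2)],[]]],
    [.old (.leafM k0 [k0,k1,k2] [] [(k3,k4,z1,[y1,z1]),(k4,k3,z1,[y1,z1])]),
    .old (.leafM k1 [k2,k3,k4,k0,k1] [(z1,[y1,z1])] []),
    .old (.leafM k4 [k4,k1,k3] [(z1,[z0,z1]),(z1,[y3,y1,z3])] [(k0,k2,z1,[z1]),(k2,k0,z1,[z1])]),
    .old (.leafM k2 [k4,k1,k3] [(z1,[z0,z1]),(z1,[y3,y1,z3])] [(k0,k2,z1,[z1]),(k2,k0,z1,[z1])]),
    .old (.leafM k3 [k4,k1,k3] [(z1,[z0,z1]),(z1,[y2,y1,z2])] [(k0,k2,z1,[z1]),(k2,k0,z1,[z1])]),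
    .old (.lp [(nat_lit 1470),(nat_lit 322),k140,(nat_lit 460),k0] [k0,k0,(nat_lit 574),(nat_lit 574),(nat_lit 665),
    (nat_lit 665),(nat_lit 505),(nat_lit 505),(nat_lit 735),(nat_lit 735)] k0 [] (nat_lit 1610) k8
    [[(k4,(nat_lit 805))],[(k5,(nat_lit 805)),(k3,(nat_lit 896))],[(k2,(nat_lit 322)),(k0,(nat_lit 896))],[(k5,
    (nat_lit 231)),(k3,(nat_lit 322))],[(k2,(nat_lit 231)),(k0,(nat_lit 805))],[(k1,(nat_lit 805))],[(k8,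
    (nat_lit 230))],[(k9,(nat_lit 230))],[(k6,(nat_lit 230))],[(k7,(nat_lit 230))]]
    [] k0
    [[k0,k2,k0,k0,k0],[k0,k3,k0,k0,k0],[k0,k4,k0,k0,k0],[k0,k0,k0,k1,k1],[k0,k0,k0,k2,k2],[k0,k0,k0,k3,k3]]
    [.contra [z1],.ref k3 k0 [(z1,[z0,z1]),(z1,[z1])],.ref k4 k0 [(z1,[z0,z1]),(z2,[z1])],.contra [y2,y1,z2],
    .contra [y1,y2,z2],.ref k2 k0 [(z1,[z0,z1]),(z1,[y1,y3,z3])]]),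
    .old (.lp [k4,k4,k2,k6,k0] [k1,k1,k1,k1,k2,k2,k0,k0,k3,k3] k0 [] k12 k5
    [[(k4,k3)],[(k5,k3),(k3,k4)],[(k0,k4),(k2,k4)],[(k5,k3),(k3,k4)],[(k0,k3),(k2,k3)],[(k1,k3)],[(k8,k3)],[(k9,k3)],
    [(k6,k3)],[(k7,k3)]]
    [] k0
    [[k1,k0,k1,k0,k0],[k1,k1,k1,k0,k0],[k0,k2,k0,k0,k0],[k0,k0,k0,k1,k1]]
    [.ref k5 k0 [(z1,[z1])],.ref k1 k0 [(z1,[z1])],.contra [z1],.ref k0 k0 [(z1,[y1,z1])]])]⟩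

/-- classes `0 0 1 2 1`, types `C0 C0 N0 C0 N2` -/
noncomputable def cU5_189 : CertX :=
  ⟨[k4,k4,k28,k36,k30],[],[[[]]],
    [.old (.lp [k4,k4,k2,k2,k4] [k0,k0,k0,k0,k1,k1,k1,k1,k0,k0] k0 [] k12 k5
    [[(k7,k3)],[(k5,k3),(k3,k4)],[(k0,k4),(k2,k4)],[(k5,k3),(k3,k4)],[(k0,k3),(k2,k3)],[(k8,k3)],[(k1,k3)],[(k9,k3)],
    [(k6,k3)],[(k4,k3)]]
    [] k0
    [[k0,k2,k0,k0,k0]]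
    [.contra [z1]])]⟩

/-- classes `0 0 1 2 1`, types `C0 C0 N0 S0 N1` -/
noncomputable def cU5_190 : CertX :=
  ⟨[k4,k4,k28,k32,k29],[(false,k0,[k0,k1,k2,k3,k4])],[[[([z1,z1,z1,z0,z0],z1)],[([z1,z1,z1,z0,z0],z2)],[([z1,z0,z1,z0,
    z0],z2),([z0,z3,z0,z0,z0],z1)],[([z1,z0,z1,z0,z0],z2),([z0,z3,z0,z0,z0],z2)],[([z1,z0,z1,z0,z0],z2),([z0,z2,z0,z0,
    z0],z1)],[([z1,z0,z1,z0,z0],z2)],[]]],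
    [.old (.leafM k0 [k0,k1,k2] [] [(k3,k4,z1,[y1,z1]),(k4,k3,z1,[y1,z1])]),
    .old (.leafM k1 [k2,k3,k4,k0,k1] [(z1,[y1,z1])] []),
    .old (.leafM k4 [k4,k1,k3] [(z1,[z0,z1]),(z1,[y3,y1,z3])] [(k0,k2,z1,[z1]),(k2,k0,z1,[z1])]),
    .old (.leafM k2 [k4,k1,k3] [(z1,[z0,z1]),(z1,[y3,y1,z3])] [(k0,k2,z1,[z1]),(k2,k0,z1,[z1])]),
    .old (.leafM k3 [k4,k1,k3] [(z1,[z0,z1]),(z1,[y2,y1,z2])] [(k0,k2,z1,[z1]),(k2,k0,z1,[z1])]),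
    .old (.lp [(nat_lit 1470),(nat_lit 322),k140,(nat_lit 230),(nat_lit 230)] [k0,k0,(nat_lit 574),(nat_lit 574),
    (nat_lit 665),(nat_lit 665),(nat_lit 620),(nat_lit 620),(nat_lit 620),(nat_lit 620)] k0 [] (nat_lit 1610) k8
    [[(k4,(nat_lit 805))],[(k5,(nat_lit 805)),(k3,(nat_lit 896))],[(k2,(nat_lit 322)),(k0,(nat_lit 896))],[(k5,
    (nat_lit 231)),(k3,(nat_lit 322))],[(k2,(nat_lit 231)),(k0,(nat_lit 805))],[(k1,(nat_lit 805))],[(k8,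
    (nat_lit 230))],[(k6,(nat_lit 230)),(k9,(nat_lit 230))],[(k6,(nat_lit 230)),(k9,(nat_lit 230))],[(k7,
    (nat_lit 230))]]
    [] k0
    [[k0,k2,k0,k0,k0],[k0,k3,k0,k0,k0],[k0,k4,k0,k0,k0],[k0,k0,k0,k1,k1],[k0,k0,k0,k2,k2],[k0,k0,k0,k3,k3]]
    [.contra [z1],.ref k3 k0 [(z1,[z0,z1]),(z1,[z1])],.ref k4 k0 [(z1,[z0,z1]),(z2,[z1])],.contra [y2,y1,z2],
    .contra [y1,y2,z2],.ref k2 k0 [(z1,[z0,z1]),(z1,[y1,y3,z3])]]),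
    .old (.lp [k8,k8,k4,k6,k6] [k0,k0,k0,k0,k2,k2,k1,k1,k1,k1] k0 [] k24 k5
    [[(k4,k6)],[(k5,k6),(k3,k8)],[(k0,k8),(k2,k8)],[(k5,k6),(k3,k8)],[(k0,k6),(k2,k6)],[(k1,k6)],[(k8,k6)],[(k6,k6),
    (k9,k6)],[(k6,k6),(k9,k6)],[(k7,k6)]]
    [] k0
    [[k1,k0,k1,k0,k0],[k1,k1,k1,k0,k0],[k0,k2,k0,k0,k0],[k0,k0,k0,k1,k1]]
    [.ref k5 k0 [(z1,[z1])],.ref k1 k0 [(z1,[z1])],.contra [z1],.ref k0 k0 [(z1,[y1,z1])]])]⟩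

/-- classes `0 0 1 2 1`, types `C0 C0 N0 S0 N2` -/
noncomputable def cU5_191 : CertX :=
  ⟨[k4,k4,k28,k32,k30],[],[[[]]],
    [.old (.lp [k6,k8,k6,k6,k6] [k1,k1,k0,k0,k1,k1,k1,k1,k1,k1] k0 [] k24 k5
    [[(k7,k6)],[(k5,k6),(k3,k7)],[(k0,k7),(k2,k8)],[(k5,k7),(k3,k8)],[(k0,k6),(k2,k7)],[(k8,k6)],[(k1,k6)],[(k6,k6),
    (k9,k6)],[(k6,k6),(k9,k6)],[(k4,k6)]]
    [] k0
    [[k0,k2,k0,k0,k0]]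
    [.contra [z1]])]⟩

/-- classes `0 0 1 2 1`, types `C0 C0 S0 C0 S0` -/
noncomputable def cU5_192 : CertX :=
  ⟨[k4,k4,k16,k36,k16],[(false,k0,[k0,k1,k2,k3,k4])],[[[([z1,z1,z1,z0,z0],z1)],[([z1,z1,z1,z0,z0],z2)],[([z1,z0,z1,z0,
    z0],z2),([z0,z3,z0,z0,z0],z1)],[([z1,z0,z1,z0,z0],z2),([z0,z3,z0,z0,z0],z2)],[([z1,z0,z1,z0,z0],z2),([z0,z2,z0,z0,
    z0],z1)],[([z1,z0,z1,z0,z0],z2)],[]]],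
    [.old (.leafM k0 [k0,k1,k2] [] [(k3,k4,z1,[y1,z1]),(k4,k3,z1,[y1,z1])]),
    .old (.leafM k0 [k3,k4,k0,k1,k2] [(z1,[y1,z1])] []),
    .old (.leafM k4 [k4,k1,k3] [(z1,[z0,z1]),(z1,[y3,y1,z3])] [(k0,k2,z1,[z1]),(k2,k0,z1,[z1])]),
    .old (.leafM k2 [k4,k1,k3] [(z1,[z0,z1]),(z1,[y3,y1,z3])] [(k0,k2,z1,[z1]),(k2,k0,z1,[z1])]),
    .old (.leafM k3 [k4,k1,k3] [(z1,[z0,z1]),(z1,[y2,y1,z2])] [(k0,k2,z1,[z1]),(k2,k0,z1,[z1])]),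
    .old (.lp [k60,k14,k10,k10,k10] [k0,k0,k23,k23,k25,k25,k25,k25,k25,k25] k0 [] k70 k8
    [[(k4,k35),(k7,k35),(k8,k35),(k1,k60)],[(k5,k35),(k3,k37)],[(k2,k14),(k0,k37)],[(k5,k12),(k3,k14)],[(k2,k12),(k0,
    k35)],[(k4,k10),(k7,k10),(k8,k10),(k1,k35)],[(k4,k10),(k7,k10),(k8,k10),(k1,k35)],[(k9,k10)],[(k6,k10)],[(k4,k10),
    (k7,k10),(k8,k10),(k1,k35)]]
    [] k0
    [[k0,k2,k0,k0,k0],[k0,k3,k0,k0,k0],[k0,k4,k0,k0,k0],[k0,k0,k0,k3,k3],[k0,k0,k0,k2,k2],[k0,k0,k0,k1,k1]]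
    [.contra [z1],.ref k3 k0 [(z1,[z0,z1]),(z1,[z1])],.ref k4 k0 [(z1,[z0,z1]),(z2,[z1])],.ref k2 k0 [(z1,[z0,z1]),
    (z1,[y1,y3,z3])],.contra [y1,y2,z2],.contra [y2,y1,z2]]),
    .old (.lp [k6,k8,k6,k6,k6] [k1,k1,k0,k0,k1,k1,k1,k1,k1,k1] k0 [] k24 k5
    [[(k1,k6),(k4,k6),(k7,k6),(k8,k6)],[(k5,k6),(k3,k7)],[(k0,k7),(k2,k8)],[(k5,k7),(k3,k8)],[(k0,k6),(k2,k7)],[(k1,
    k6),(k4,k6),(k7,k6),(k8,k6)],[(k1,k6),(k4,k6),(k7,k6),(k8,k6)],[(k9,k6)],[(k6,k6)],[(k1,k6),(k4,k6),(k7,k6),(k8,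
    k6)]]
    [] k0
    [[k1,k0,k1,k0,k0],[k1,k1,k1,k0,k0],[k0,k2,k0,k0,k0],[k0,k0,k0,k1,k1]]
    [.ref k5 k0 [(z1,[z1])],.ref k1 k0 [(z1,[z1])],.contra [z1],.ref k0 k0 [(z1,[y1,z1])]])]⟩

/-- classes `0 0 1 2 1`, types `C0 C0 S0 S0 S0` -/
noncomputable def cU5_193 : CertX :=
  ⟨[k4,k4,k16,k32,k16],[(false,k0,[k0,k1,k2,k3,k4])],[[[([z1,z1,z1,z0,z0],z1)],[([z1,z1,z1,z0,z0],z2)],[([z1,z0,z1,z0,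
    z0],z2),([z0,z3,z0,z0,z0],z1)],[([z1,z0,z1,z0,z0],z2),([z0,z3,z0,z0,z0],z2)],[([z1,z0,z1,z0,z0],z2),([z0,z2,z0,z0,
    z0],z1)],[([z1,z0,z1,z0,z0],z2)],[]]],
    [.old (.leafM k0 [k0,k1,k2] [] [(k3,k4,z1,[y1,z1]),(k4,k3,z1,[y1,z1])]),
    .old (.leafM k0 [k3,k4,k0,k1,k2] [(z1,[y1,z1])] []),
    .old (.leafM k4 [k4,k1,k3] [(z1,[z0,z1]),(z1,[y3,y1,z3])] [(k0,k2,z1,[z1]),(k2,k0,z1,[z1])]),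
    .old (.leafM k2 [k4,k1,k3] [(z1,[z0,z1]),(z1,[y3,y1,z3])] [(k0,k2,z1,[z1]),(k2,k0,z1,[z1])]),
    .old (.leafM k3 [k4,k1,k3] [(z1,[z0,z1]),(z1,[y2,y1,z2])] [(k0,k2,z1,[z1]),(k2,k0,z1,[z1])]),
    .old (.lp [(nat_lit 480),(nat_lit 672),(nat_lit 990),(nat_lit 1190),(nat_lit 1680)] [(nat_lit 1180),(nat_lit 1180),
    (nat_lit 1084),(nat_lit 1084),(nat_lit 925),(nat_lit 925),(nat_lit 1180),(nat_lit 470),k0,(nat_lit 1160)] k0 [[],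
    [],[],[],[],[k0,k0,k0,k0,k0,k0,k0,k0,k0,(nat_lit 1890)],[],[],[k0,k0,k0,k0,(nat_lit 1890)]] (nat_lit 3360) k8
    [[(k1,(nat_lit 480)),(k7,(nat_lit 1190)),(k8,(nat_lit 1660)),(k4,(nat_lit 2625))],[(k3,(nat_lit 576)),(k5,
    (nat_lit 735))],[(k0,(nat_lit 576)),(k2,(nat_lit 672))],[(k3,(nat_lit 672)),(k5,(nat_lit 831))],[(k0,
    (nat_lit 735)),(k2,(nat_lit 831))],[(k4,(nat_lit 990)),(k7,(nat_lit 1445)),(k8,(nat_lit 1915)),(k1,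
    (nat_lit 2625))],[(k8,(nat_lit 480)),(k1,(nat_lit 1190)),(k4,(nat_lit 1445)),(k7,(nat_lit 1900))],[(k6,
    (nat_lit 480)),(k9,(nat_lit 500))],[(k6,(nat_lit 500)),(k9,(nat_lit 520))],[(k7,(nat_lit 480)),(k1,
    (nat_lit 1660)),(k4,(nat_lit 1915)),(k8,(nat_lit 2840))]]
    [] k0
    [[k2,k0,k2,k0,k0],[k0,k2,k0,k0,k0],[k0,k3,k0,k0,k0],[k0,k4,k0,k0,k0],[k0,k0,k0,k2,k0],[k0,k0,k0,k1,k1],[k0,k0,k0,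
    k2,k2],[k0,k0,k0,k3,k3]]
    [.contra [z1,y1],.contra [z1],.ref k3 k0 [(z1,[z0,z1]),(z1,[z1])],.ref k4 k0 [(z1,[z0,z1]),(z2,[z1])],
    .contra [z1],.contra [y2,y1,z2],.contra [y1,y2,z2],.ref k2 k0 [(z1,[z0,z1]),(z1,[y1,y3,z3])]]),
    .old (.lp [k6,k8,k6,k6,k6] [k1,k1,k0,k0,k1,k1,k1,k1,k1,k1] k0 [] k24 k5
    [[(k1,k6),(k4,k6),(k7,k6),(k8,k6)],[(k5,k6),(k3,k7)],[(k0,k7),(k2,k8)],[(k5,k7),(k3,k8)],[(k0,k6),(k2,k7)],[(k1,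
    k6),(k4,k6),(k7,k6),(k8,k6)],[(k1,k6),(k4,k6),(k7,k6),(k8,k6)],[(k6,k6),(k9,k6)],[(k6,k6),(k9,k6)],[(k1,k6),(k4,
    k6),(k7,k6),(k8,k6)]]
    [] k0
    [[k1,k0,k1,k0,k0],[k1,k1,k1,k0,k0],[k0,k2,k0,k0,k0],[k0,k0,k0,k2,k0],[k0,k0,k0,k1,k1],[k0,k0,k0,k0,k2]]
    [.ref k5 k0 [(z1,[z1])],.ref k1 k0 [(z1,[z1])],.contra [z1],.contra [z1],.ref k0 k0 [(z1,[y1,z1])],.contra [z1]])]⟩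

/-- classes `0 0 1 2 1`, types `C0 C2 B0 C0 B1` -/
noncomputable def cU5_194 : CertX :=
  ⟨[k4,k6,k24,k36,k25],[(false,k0,[k0,k1,k2,k3,k4])],[[[([z1,z1,z1,z0,z0],z1)],[([z1,z1,z1,z0,z0],z2)],[]]],
    [.old (.leafM k0 [k0,k1,k2] [] [(k3,k4,z1,[y1,z1]),(k4,k3,z1,[y1,z1])]),
    .old (.leafM k1 [k2,k3,k4,k0,k1] [(z1,[y1,z1])] []),
    .old (.lp [k2,k2,k2,k2,k2] [k0,k0,k0,k0,k0,k0,k0,k0,k0,k0] k0 [] k8 k5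
    [[(k4,k2),(k7,k2)],[(k2,k2),(k3,k2)],[(k0,k2),(k5,k2)],[(k0,k2),(k5,k2)],[(k2,k2),(k3,k2)],[(k1,k2),(k8,k2)],[(k1,
    k2),(k8,k2)],[(k9,k2)],[(k6,k2)],[(k4,k2),(k7,k2)]]
    [] k0
    [[k1,k1,k1,k0,k0],[k0,k0,k0,k1,k1]]
    [.ref k1 k0 [(z1,[z1])],.ref k0 k0 [(z1,[y1,z1])]])]⟩

/-- classes `0 0 1 2 1`, types `C0 C2 B0 S0 B1` -/
noncomputable def cU5_195 : CertX :=
  ⟨[k4,k6,k24,k32,k25],[(false,k0,[k0,k1,k2,k3,k4])],[[[([z1,z1,z1,z0,z0],z1)],[([z1,z1,z1,z0,z0],z2)],[]]],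
    [.old (.leafM k0 [k0,k1,k2] [] [(k3,k4,z1,[y1,z1]),(k4,k3,z1,[y1,z1])]),
    .old (.leafM k1 [k2,k3,k4,k0,k1] [(z1,[y1,z1])] []),
    .old (.lp [k2,k2,k2,k2,k2] [k0,k0,k0,k0,k0,k0,k0,k0,k0,k0] k0 [] k8 k5
    [[(k4,k2),(k7,k2)],[(k2,k2),(k3,k2)],[(k0,k2),(k5,k2)],[(k0,k2),(k5,k2)],[(k2,k2),(k3,k2)],[(k1,k2),(k8,k2)],[(k1,
    k2),(k8,k2)],[(k6,k2),(k9,k2)],[(k6,k2),(k9,k2)],[(k4,k2),(k7,k2)]]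
    [] k0
    [[k1,k1,k1,k0,k0],[k0,k0,k0,k1,k1]]
    [.ref k1 k0 [(z1,[z1])],.ref k0 k0 [(z1,[y1,z1])]])]⟩

/-- classes `0 0 1 2 1`, types `C0 C2 C0 C0 C0` -/
noncomputable def cU5_196 : CertX :=
  ⟨[k4,k6,k20,k36,k20],[(false,k0,[k0,k1,k2,k3,k4])],[[[([z1,z1,z1,z0,z0],z1)],[([z1,z1,z1,z0,z0],z2)],[]]],
    [.old (.leafM k0 [k0,k1,k2] [] [(k3,k4,z1,[y1,z1]),(k4,k3,z1,[y1,z1])]),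
    .old (.leafM k1 [k2,k3,k4,k0,k1] [(z1,[y1,z1])] []),
    .old (.lp [k2,k2,k2,k2,k2] [k0,k0,k0,k0,k0,k0,k0,k0,k0,k0] k0 [] k8 k5
    [[(k4,k2),(k8,k2)],[(k2,k2),(k3,k2)],[(k0,k2),(k5,k2)],[(k0,k2),(k5,k2)],[(k2,k2),(k3,k2)],[(k1,k2),(k7,k2)],[(k4,
    k2),(k8,k2)],[(k9,k2)],[(k6,k2)],[(k1,k2),(k7,k2)]]
    [] k0
    [[k1,k1,k1,k0,k0],[k0,k0,k0,k1,k1]]
    [.ref k1 k0 [(z1,[z1])],.ref k0 k0 [(z1,[y1,z1])]])]⟩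

/-- classes `0 0 1 2 1`, types `C0 C2 C0 C0 C2` -/
noncomputable def cU5_197 : CertX :=
  ⟨[k4,k6,k20,k36,k22],[],[[[]]],
    [.old (.lp [k2,k2,k2,k2,k2] [k0,k0,k0,k0,k0,k0,k0,k0,k0,k0] k0 [] k8 k5
    [[(k7,k2),(k8,k2)],[(k2,k2),(k3,k2)],[(k0,k2),(k5,k2)],[(k0,k2),(k5,k2)],[(k2,k2),(k3,k2)],[(k7,k2),(k8,k2)],[(k1,
    k2),(k4,k2)],[(k9,k2)],[(k6,k2)],[(k1,k2),(k4,k2)]]
    [] k0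
    []
    [])]⟩

/-- classes `0 0 1 2 1`, types `C0 C2 C0 S0 C0` -/
noncomputable def cU5_198 : CertX :=
  ⟨[k4,k6,k20,k32,k20],[(false,k0,[k0,k1,k2,k3,k4])],[[[([z1,z1,z1,z0,z0],z1)],[([z1,z1,z1,z0,z0],z2)],[]]],
    [.old (.leafM k0 [k0,k1,k2] [] [(k3,k4,z1,[y1,z1]),(k4,k3,z1,[y1,z1])]),
    .old (.leafM k1 [k2,k3,k4,k0,k1] [(z1,[y1,z1])] []),
    .old (.lp [k2,k2,k2,k2,k2] [k0,k0,k0,k0,k0,k0,k0,k0,k0,k0] k0 [] k8 k5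
    [[(k4,k2),(k8,k2)],[(k2,k2),(k3,k2)],[(k0,k2),(k5,k2)],[(k0,k2),(k5,k2)],[(k2,k2),(k3,k2)],[(k1,k2),(k7,k2)],[(k4,
    k2),(k8,k2)],[(k6,k2),(k9,k2)],[(k6,k2),(k9,k2)],[(k1,k2),(k7,k2)]]
    [] k0
    [[k1,k1,k1,k0,k0],[k0,k0,k0,k1,k1]]
    [.ref k1 k0 [(z1,[z1])],.ref k0 k0 [(z1,[y1,z1])]])]⟩

/-- classes `0 0 1 2 1`, types `C0 C2 C0 S0 C2` -/
noncomputable def cU5_199 : CertX :=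
  ⟨[k4,k6,k20,k32,k22],[],[[[]]],
    [.old (.lp [k2,k2,k2,k2,k2] [k0,k0,k0,k0,k0,k0,k0,k0,k0,k0] k0 [] k8 k5
    [[(k7,k2),(k8,k2)],[(k2,k2),(k3,k2)],[(k0,k2),(k5,k2)],[(k0,k2),(k5,k2)],[(k2,k2),(k3,k2)],[(k7,k2),(k8,k2)],[(k1,
    k2),(k4,k2)],[(k6,k2),(k9,k2)],[(k6,k2),(k9,k2)],[(k1,k2),(k4,k2)]]
    [] k0
    []
    [])]⟩

/-- classes `0 0 1 2 1`, types `C0 C2 N0 C0 N1` -/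
noncomputable def cU5_200 : CertX :=
  ⟨[k4,k6,k28,k36,k29],[(false,k0,[k0,k1,k2,k3,k4])],[[[([z1,z1,z1,z0,z0],z1)],[([z1,z1,z1,z0,z0],z2)],[]]],
    [.old (.leafM k0 [k0,k1,k2] [] [(k3,k4,z1,[y1,z1]),(k4,k3,z1,[y1,z1])]),
    .old (.leafM k1 [k2,k3,k4,k0,k1] [(z1,[y1,z1])] []),
    .old (.lp [k2,k2,k2,k4,k0] [k1,k1,k1,k1,k1,k1,k0,k0,k2,k2] k0 [] k8 k5
    [[(k4,k2)],[(k2,k2),(k3,k2)],[(k0,k2),(k5,k2)],[(k0,k2),(k5,k2)],[(k2,k2),(k3,k2)],[(k1,k2)],[(k8,k2)],[(k9,k2)],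
    [(k6,k2)],[(k7,k2)]]
    [] k0
    [[k1,k1,k1,k0,k0],[k0,k0,k0,k1,k1]]
    [.ref k1 k0 [(z1,[z1])],.ref k0 k0 [(z1,[y1,z1])]])]⟩

/-- classes `0 0 1 2 1`, types `C0 C2 N0 C0 N2` -/
noncomputable def cU5_201 : CertX :=
  ⟨[k4,k6,k28,k36,k30],[],[[[]]],
    [.old (.lp [k2,k2,k2,k2,k2] [k0,k0,k0,k0,k0,k0,k0,k0,k0,k0] k0 [] k8 k5
    [[(k7,k2)],[(k2,k2),(k3,k2)],[(k0,k2),(k5,k2)],[(k0,k2),(k5,k2)],[(k2,k2),(k3,k2)],[(k8,k2)],[(k1,k2)],[(k9,k2)],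
    [(k6,k2)],[(k4,k2)]]
    [] k0
    []
    [])]⟩

/-- the certificates of this file -/
noncomputable def lU5_3 : List CertX :=
  [cU5_102, cU5_103, cU5_104, cU5_105, cU5_106, cU5_107, cU5_108, cU5_109, cU5_110, cU5_111, cU5_112, cU5_113,
      cU5_114, cU5_115, cU5_116, cU5_117, cU5_118, cU5_119, cU5_120, cU5_121, cU5_122, cU5_123, cU5_124,
      cU5_125, cU5_126, cU5_127, cU5_128, cU5_129, cU5_130, cU5_131, cU5_132, cU5_133, cU5_134, cU5_135,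
      cU5_136, cU5_137, cU5_138, cU5_139, cU5_140, cU5_141, cU5_142, cU5_143, cU5_144, cU5_145, cU5_146,
      cU5_147, cU5_148, cU5_149, cU5_150, cU5_151, cU5_152, cU5_153, cU5_154, cU5_155, cU5_156, cU5_157,
      cU5_158, cU5_159, cU5_160, cU5_161, cU5_162, cU5_163, cU5_164, cU5_165, cU5_166, cU5_167, cU5_168,
      cU5_169, cU5_170, cU5_171, cU5_172, cU5_173, cU5_174, cU5_175, cU5_176, cU5_177, cU5_178, cU5_179,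
      cU5_180, cU5_181, cU5_182, cU5_183, cU5_184, cU5_185, cU5_186, cU5_187, cU5_188, cU5_189, cU5_190,
      cU5_191, cU5_192, cU5_193, cU5_194, cU5_195, cU5_196, cU5_197, cU5_198, cU5_199, cU5_200, cU5_201]

theorem gU5_3 : allF (chkE 5 ttU5) lU5_3 = true := by
  decide +kernel

end Pool.Agent.Lib_MP_fa6e45
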