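import Pool.Agent.Lib_MP_fa6e45.CXT
import Pool.Agent.Lib_MP_fa6e45.HK

/-!
MP_fa6e45_co, stage 7: certificates (generated by a program).
-/

namespace Pool.Agent.Lib_MP_fa6e45

/-- classes `0 0 1 2 1`, types `C0 C2 N0 S0 N1` -/
noncomputable def cU5_202 : CertX :=
  ⟨[k4,k6,k28,k32,k29],[(false,k0,[k0,k1,k2,k3,k4])],[[[([z1,z1,z1,z0,z0],z1)],[([z1,z1,z1,z0,z0],z2)],[]]],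
    [.old (.leafM k0 [k0,k1,k2] [] [(k3,k4,z1,[y1,z1]),(k4,k3,z1,[y1,z1])]),
    .old (.leafM k1 [k2,k3,k4,k0,k1] [(z1,[y1,z1])] []),
    .old (.lp [k2,k2,k2,k2,k2] [k0,k0,k0,k0,k0,k0,k0,k0,k0,k0] k0 [] k8 k5
    [[(k4,k2)],[(k2,k2),(k3,k2)],[(k0,k2),(k5,k2)],[(k0,k2),(k5,k2)],[(k2,k2),(k3,k2)],[(k1,k2)],[(k8,k2)],[(k6,k2),
    (k9,k2)],[(k6,k2),(k9,k2)],[(k7,k2)]]
    [] k0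
    [[k1,k1,k1,k0,k0],[k0,k0,k0,k1,k1]]
    [.ref k1 k0 [(z1,[z1])],.ref k0 k0 [(z1,[y1,z1])]])]⟩

/-- classes `0 0 1 2 1`, types `C0 C2 N0 S0 N2` -/
noncomputable def cU5_203 : CertX :=
  ⟨[k4,k6,k28,k32,k30],[],[[[]]],
    [.old (.lp [k2,k2,k2,k2,k2] [k0,k0,k0,k0,k0,k0,k0,k0,k0,k0] k0 [] k8 k5
    [[(k7,k2)],[(k2,k2),(k3,k2)],[(k0,k2),(k5,k2)],[(k0,k2),(k5,k2)],[(k2,k2),(k3,k2)],[(k8,k2)],[(k1,k2)],[(k6,k2),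
    (k9,k2)],[(k6,k2),(k9,k2)],[(k4,k2)]]
    [] k0
    []
    [])]⟩

/-- classes `0 0 1 2 1`, types `C0 C2 S0 C0 S0` -/
noncomputable def cU5_204 : CertX :=
  ⟨[k4,k6,k16,k36,k16],[(false,k0,[k0,k1,k2,k3,k4])],[[[([z1,z1,z1,z0,z0],z1)],[([z1,z1,z1,z0,z0],z2)],[]]],
    [.old (.leafM k0 [k0,k1,k2] [] [(k3,k4,z1,[y1,z1]),(k4,k3,z1,[y1,z1])]),
    .old (.leafM k0 [k3,k4,k0,k1,k2] [(z1,[y1,z1])] []),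
    .old (.lp [k10,k0,k10,k4,k4] [k0,k0,k5,k5,k0,k0,k3,k3,k3,k3] k0 [] k20 k6
    [[(k7,k7),(k8,k7),(k1,k10),(k4,k10)],[(k2,k5),(k3,k5)],[(k0,k5),(k5,k5)],[(k0,k5),(k5,k5)],[(k2,k5),(k3,k5)],[(k7,
    k7),(k8,k7),(k1,k10),(k4,k10)],[(k7,k4),(k8,k4),(k1,k7),(k4,k7)],[(k9,k4)],[(k6,k4)],[(k7,k4),(k8,k4),(k1,k7),(k4,
    k7)]]
    [] k0
    [[k0,k0,k0,k2,k2],[k0,k0,k0,k1,k1]]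
    [.ref k1 k0 [(z2,[y1,z2])],.ref k0 k0 [(z1,[y1,z1])]])]⟩

/-- classes `0 0 1 2 1`, types `C0 C2 S0 S0 S0` -/
noncomputable def cU5_205 : CertX :=
  ⟨[k4,k6,k16,k32,k16],[(false,k0,[k0,k1,k2,k3,k4]),(true,k2,[k2,k1,k0,k4,k3])],[[[([z1,z1,z1,z0,z0],z1)],[([z1,z1,z1,
    z0,z0],z2)],[([z1,z0,y1,y1,y1],y1)],[]]],
    [.old (.leafM k0 [k0,k1,k2] [] [(k3,k4,z1,[y1,z1]),(k4,k3,z1,[y1,z1])]),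
    .old (.leafM k0 [k3,k4,k0,k1,k2] [(z1,[y1,z1])] []),
    .old (.lp [k6,k4,k4,k4,k4] [k0,k0,k1,k1,k1,k1,k1,k1,k1,k1] k0 [] k16 k5
    [[(k4,k5),(k7,k5),(k8,k5),(k1,k6)],[(k2,k5),(k3,k5)],[(k5,k4),(k0,k5)],[(k5,k4),(k0,k5)],[(k2,k4),(k3,k4)],[(k4,
    k4),(k7,k4),(k8,k4),(k1,k5)],[(k4,k4),(k7,k4),(k8,k4),(k1,k5)],[(k6,k4),(k9,k4)],[(k6,k4),(k9,k4)],[(k4,k4),(k7,
    k4),(k8,k4),(k1,k5)]]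
    [] k0
    [[k1,k1,k1,k0,k0],[k0,k1,k2,k0,k0],[k0,k0,k0,k2,k0],[k0,k0,k0,k1,k1],[k0,k0,k0,k0,k2]]
    [.ref k1 k0 [(z1,[z1])],.ref k1 k0 [(z2,[z1,z1,z1])],.contra [z1],.contra [y2,y1,z1],.contra [z1]]),
    .old (.lp [k6,k4,k4,k4,k4] [k0,k0,k1,k1,k1,k1,k1,k1,k1,k1] k0 [] k16 k5
    [[(k4,k5),(k7,k5),(k8,k5),(k1,k6)],[(k2,k5),(k3,k5)],[(k5,k4),(k0,k5)],[(k5,k4),(k0,k5)],[(k2,k4),(k3,k4)],[(k4,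
    k4),(k7,k4),(k8,k4),(k1,k5)],[(k4,k4),(k7,k4),(k8,k4),(k1,k5)],[(k6,k4),(k9,k4)],[(k6,k4),(k9,k4)],[(k4,k4),(k7,
    k4),(k8,k4),(k1,k5)]]
    [] k0
    [[k1,k1,k1,k0,k0],[k0,k1,k2,k0,k0],[k0,k0,k0,k2,k0],[k0,k0,k0,k1,k1],[k0,k0,k0,k0,k2]]
    [.ref k1 k0 [(z1,[z1])],.ref k2 k1 [(z1,[z1,y1])],.contra [z1],.ref k0 k0 [(z1,[y1,z1])],.contra [z1]])]⟩

/-- classes `0 0 1 2 1`, types `N0 N1 B0 C0 B1` -/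
noncomputable def cU5_206 : CertX :=
  ⟨[k12,k13,k24,k36,k25],[(false,k0,[k0,k1,k2,k3,k4])],[[[([z3,z0,z3,z0,z0],z1),([z0,z3,z0,z0,z0],z2)],[([z2,z0,z2,z0,
    z0],z1),([z0,z2,z0,z0,z0],z1)],[([z3,z0,z3,z0,z0],z2),([z0,z3,z0,z0,z0],z1)],[([z1,z1,z1,z0,z0],z1)],[([z1,z0,z1,
    z0,z0],z2),([z0,z3,z0,z0,z0],z1)],[([z1,z0,z1,z0,z0],z2),([z0,z3,z0,z0,z0],z2)],[([z1,z0,z1,z0,z0],z2),([z0,z2,z0,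
    z0,z0],z1)],[([z1,z0,z1,z0,z0],z2)],[]]],
    [.old (.leafM k2 [k0,k1,k2] [(z1,[z0,z1]),(z1,[z1])] [(k3,k4,z3,[y1,y1,z3]),(k4,k3,z3,[y1,y1,z3])]),
    .old (.leafM k3 [k0,k1,k2] [(z1,[z0,z1]),(z1,[z1])] [(k3,k4,z2,[y1,y1,z2]),(k4,k3,z2,[y1,y1,z2])]),
    .old (.leafM k4 [k0,k1,k2] [(z1,[z0,z1]),(z1,[z1])] [(k3,k4,z3,[y1,y1,z3]),(k4,k3,z3,[y1,y1,z3])]),
    .old (.lp [k20,k14,k0,k50,k20] [k15,k15,k18,k18,k25,k25,k0,k0,k15,k15] k0 [] k70 k8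
    [[(k4,k10),(k7,k35)],[(k5,k10)],[(k2,k14)],[(k3,k14)],[(k0,k10)],[(k1,k10),(k8,k10)],[(k1,k35),(k8,k35)],[(k9,
    k35)],[(k6,k35)],[(k4,k10),(k7,k35)]]
    [] k0
    [[k1,k0,k1,k0,k0],[k2,k0,k2,k0,k0],[k3,k0,k3,k0,k0],[k0,k2,k0,k0,k0],[k0,k3,k0,k0,k0],[k0,k4,k0,k0,k0]]
    [.contra [y1,z2],.contra [y1,z2],.ref k2 k0 [(z1,[z1]),(z1,[y1,z3])],.contra [z1],.ref k0 k0 [(z1,[y1,z3]),(z1,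
    [z1])],.ref k1 k0 [(z2,[y1,z4]),(z2,[z1])]]),
    .old (.leafM k4 [k4,k1,k3] [(z1,[z0,z1]),(z1,[y3,y1,z3])] [(k0,k2,z1,[z1]),(k2,k0,z1,[z1])]),
    .old (.leafM k2 [k4,k1,k3] [(z1,[z0,z1]),(z1,[y3,y1,z3])] [(k0,k2,z1,[z1]),(k2,k0,z1,[z1])]),
    .old (.leafM k3 [k4,k1,k3] [(z1,[z0,z1]),(z1,[y2,y1,z2])] [(k0,k2,z1,[z1]),(k2,k0,z1,[z1])]),
    .old (.lp [k70,k14,k0,k0,k20] [k0,k0,k28,k28,k35,k35,k35,k35,k25,k25] k0 [] k70 k8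
    [[(k4,k35),(k7,k35)],[(k5,k35)],[(k2,k14)],[(k3,k14)],[(k0,k35)],[(k8,k10),(k1,k35)],[(k8,k10),(k1,k35)],[(k9,
    k10)],[(k6,k10)],[(k4,k10),(k7,k10)]]
    [] k0
    [[k0,k2,k0,k0,k0],[k0,k3,k0,k0,k0],[k0,k4,k0,k0,k0],[k0,k0,k0,k1,k1],[k0,k0,k0,k2,k2],[k0,k0,k0,k3,k3]]
    [.contra [z1],.ref k5 k0 [(z1,[z0,z1]),(z1,[z1])],.ref k6 k0 [(z1,[z0,z1]),(z2,[z1])],.contra [y2,y1,z2],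
    .contra [y1,y2,z2],.ref k4 k0 [(z1,[z0,z1]),(z1,[y1,y3,z3])]]),
    .old (.lp [k6,k4,k0,k0,k6] [k0,k0,k1,k1,k3,k3,k3,k3,k0,k0] k0 [] k12 k5
    [[(k4,k3),(k7,k3)],[(k5,k3)],[(k2,k4)],[(k3,k4)],[(k0,k3)],[(k1,k3),(k8,k3)],[(k1,k3),(k8,k3)],[(k9,k3)],[(k6,
    k3)],[(k4,k3),(k7,k3)]]
    [] k0
    [[k1,k0,k1,k0,k0],[k0,k2,k0,k0,k0],[k0,k0,k0,k1,k1]]
    [.ref k7 k0 [(z1,[z1])],.contra [z1],.ref k3 k0 [(z1,[y1,z1])]])]⟩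

/-- classes `0 0 1 2 1`, types `N0 N1 B0 S0 B1` -/
noncomputable def cU5_207 : CertX :=
  ⟨[k12,k13,k24,k32,k25],[(false,k0,[k0,k1,k2,k3,k4])],[[[([z3,z0,z3,z0,z0],z1),([z0,z3,z0,z0,z0],z2)],[([z2,z0,z2,z0,
    z0],z1),([z0,z2,z0,z0,z0],z1)],[([z3,z0,z3,z0,z0],z2),([z0,z3,z0,z0,z0],z1)],[([z1,z1,z1,z0,z0],z1)],[([z1,z0,z1,
    z0,z0],z2),([z0,z3,z0,z0,z0],z1)],[([z1,z0,z1,z0,z0],z2),([z0,z3,z0,z0,z0],z2)],[([z1,z0,z1,z0,z0],z2),([z0,z2,z0,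
    z0,z0],z1)],[([z1,z0,z1,z0,z0],z2)],[]]],
    [.old (.leafM k2 [k0,k1,k2] [(z1,[z0,z1]),(z1,[z1])] [(k3,k4,z3,[y1,y1,z3]),(k4,k3,z3,[y1,y1,z3])]),
    .old (.leafM k3 [k0,k1,k2] [(z1,[z0,z1]),(z1,[z1])] [(k3,k4,z2,[y1,y1,z2]),(k4,k3,z2,[y1,y1,z2])]),
    .old (.leafM k4 [k0,k1,k2] [(z1,[z0,z1]),(z1,[z1])] [(k3,k4,z3,[y1,y1,z3]),(k4,k3,z3,[y1,y1,z3])]),
    .old (.lp [k20,k14,k0,k10,k60] [k20,k20,k23,k23,k30,k30,k25,k25,k0,k0] k0 [] k70 k8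
    [[(k4,k10),(k7,k15)],[(k5,k10)],[(k2,k14)],[(k3,k14)],[(k0,k10)],[(k1,k10),(k8,k30)],[(k1,k15),(k8,k35)],[(k6,
    k10),(k9,k35)],[(k6,k35),(k9,k60)],[(k4,k30),(k7,k35)]]
    [] k0
    [[k1,k0,k1,k0,k0],[k2,k0,k2,k0,k0],[k3,k0,k3,k0,k0],[k0,k2,k0,k0,k0],[k0,k3,k0,k0,k0],[k0,k4,k0,k0,k0]]
    [.contra [y1,z2],.contra [y1,z2],.ref k2 k0 [(z1,[z1]),(z1,[y1,z3])],.contra [z1],.ref k0 k0 [(z1,[y1,z3]),(z1,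
    [z1])],.ref k1 k0 [(z2,[y1,z4]),(z2,[z1])]]),
    .old (.leafM k4 [k4,k1,k3] [(z1,[z0,z1]),(z1,[y3,y1,z3])] [(k0,k2,z1,[z1]),(k2,k0,z1,[z1])]),
    .old (.leafM k2 [k4,k1,k3] [(z1,[z0,z1]),(z1,[y3,y1,z3])] [(k0,k2,z1,[z1]),(k2,k0,z1,[z1])]),
    .old (.leafM k3 [k4,k1,k3] [(z1,[z0,z1]),(z1,[y2,y1,z2])] [(k0,k2,z1,[z1]),(k2,k0,z1,[z1])]),
    .old (.lp [k60,k14,k10,k10,k10] [k0,k0,k23,k23,k25,k25,k25,k25,k25,k25] k0 [] k70 k8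
    [[(k4,k35),(k7,k35)],[(k5,k35)],[(k2,k14)],[(k3,k14)],[(k0,k35)],[(k8,k10),(k1,k35)],[(k8,k10),(k1,k35)],[(k6,
    k10),(k9,k10)],[(k6,k10),(k9,k10)],[(k4,k10),(k7,k10)]]
    [] k0
    [[k0,k2,k0,k0,k0],[k0,k3,k0,k0,k0],[k0,k4,k0,k0,k0],[k0,k0,k0,k1,k1],[k0,k0,k0,k2,k2],[k0,k0,k0,k3,k3]]
    [.contra [z1],.ref k5 k0 [(z1,[z0,z1]),(z1,[z1])],.ref k6 k0 [(z1,[z0,z1]),(z2,[z1])],.contra [y2,y1,z2],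
    .contra [y1,y2,z2],.ref k4 k0 [(z1,[z0,z1]),(z1,[y1,y3,z3])]]),
    .old (.lp [k6,k8,k6,k6,k6] [k1,k1,k0,k0,k1,k1,k1,k1,k1,k1] k0 [] k24 k5
    [[(k4,k6),(k7,k6)],[(k5,k6)],[(k2,k8)],[(k3,k8)],[(k0,k6)],[(k1,k6),(k8,k6)],[(k1,k6),(k8,k6)],[(k6,k6),(k9,k6)],
    [(k6,k6),(k9,k6)],[(k4,k6),(k7,k6)]]
    [] k0
    [[k1,k0,k1,k0,k0],[k0,k2,k0,k0,k0],[k0,k0,k0,k1,k1]]
    [.ref k7 k0 [(z1,[z1])],.contra [z1],.ref k3 k0 [(z1,[y1,z1])]])]⟩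

/-- classes `0 0 1 2 1`, types `N0 N1 C0 C0 C0` -/
noncomputable def cU5_208 : CertX :=
  ⟨[k12,k13,k20,k36,k20],[(false,k0,[k0,k1,k2,k3,k4])],[[[([z3,z0,z3,z0,z0],z1),([z0,z3,z0,z0,z0],z2)],[([z2,z0,z2,z0,
    z0],z1),([z0,z2,z0,z0,z0],z1)],[([z3,z0,z3,z0,z0],z2),([z0,z3,z0,z0,z0],z1)],[([z1,z1,z1,z0,z0],z1)],[([z1,z0,z1,
    z0,z0],z2),([z0,z3,z0,z0,z0],z1)],[([z1,z0,z1,z0,z0],z2),([z0,z3,z0,z0,z0],z2)],[([z1,z0,z1,z0,z0],z2),([z0,z2,z0,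
    z0,z0],z1)],[([z1,z0,z1,z0,z0],z2)],[]]],
    [.old (.leafM k2 [k0,k1,k2] [(z1,[z0,z1]),(z1,[z1])] [(k3,k4,z3,[y1,y1,z3]),(k4,k3,z3,[y1,y1,z3])]),
    .old (.leafM k3 [k0,k1,k2] [(z1,[z0,z1]),(z1,[z1])] [(k3,k4,z2,[y1,y1,z2]),(k4,k3,z2,[y1,y1,z2])]),
    .old (.leafM k4 [k0,k1,k2] [(z1,[z0,z1]),(z1,[z1])] [(k3,k4,z3,[y1,y1,z3]),(k4,k3,z3,[y1,y1,z3])]),
    .old (.lp [k20,k14,k0,k70,k0] [k25,k25,k28,k28,k35,k35,k0,k0,k35,k35] k0 [] k70 k8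
    [[(k4,k10),(k8,k10)],[(k5,k10)],[(k2,k14)],[(k3,k14)],[(k0,k10)],[(k1,k10),(k7,k35)],[(k4,k35),(k8,k35)],[(k9,
    k35)],[(k6,k35)],[(k1,k10),(k7,k35)]]
    [] k0
    [[k1,k0,k1,k0,k0],[k2,k0,k2,k0,k0],[k3,k0,k3,k0,k0],[k0,k2,k0,k0,k0],[k0,k3,k0,k0,k0],[k0,k4,k0,k0,k0]]
    [.contra [y1,z2],.contra [y1,z2],.ref k2 k0 [(z1,[z1]),(z1,[y1,z3])],.contra [z1],.ref k0 k0 [(z1,[y1,z3]),(z1,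
    [z1])],.ref k1 k0 [(z2,[y1,z4]),(z2,[z1])]]),
    .old (.leafM k4 [k4,k1,k3] [(z1,[z0,z1]),(z1,[y3,y1,z3])] [(k0,k2,z1,[z1]),(k2,k0,z1,[z1])]),
    .old (.leafM k2 [k4,k1,k3] [(z1,[z0,z1]),(z1,[y3,y1,z3])] [(k0,k2,z1,[z1]),(k2,k0,z1,[z1])]),
    .old (.leafM k3 [k4,k1,k3] [(z1,[z0,z1]),(z1,[y2,y1,z2])] [(k0,k2,z1,[z1]),(k2,k0,z1,[z1])]),
    .old (.lp [k70,k14,k0,k20,k0] [k0,k0,k28,k28,k35,k35,k25,k25,k35,k35] k0 [] k70 k8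
    [[(k4,k35),(k8,k35)],[(k5,k35)],[(k2,k14)],[(k3,k14)],[(k0,k35)],[(k7,k10),(k1,k35)],[(k4,k10),(k8,k10)],[(k9,
    k10)],[(k6,k10)],[(k7,k10),(k1,k35)]]
    [] k0
    [[k0,k2,k0,k0,k0],[k0,k3,k0,k0,k0],[k0,k4,k0,k0,k0],[k0,k0,k0,k1,k1],[k0,k0,k0,k2,k2],[k0,k0,k0,k3,k3]]
    [.contra [z1],.ref k5 k0 [(z1,[z0,z1]),(z1,[z1])],.ref k6 k0 [(z1,[z0,z1]),(z2,[z1])],.contra [y2,y1,z2],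
    .contra [y1,y2,z2],.ref k4 k0 [(z1,[z0,z1]),(z1,[y1,y3,z3])]]),
    .old (.lp [k6,k4,k0,k6,k0] [k0,k0,k1,k1,k3,k3,k0,k0,k3,k3] k0 [] k12 k5
    [[(k4,k3),(k8,k3)],[(k5,k3)],[(k2,k4)],[(k3,k4)],[(k0,k3)],[(k1,k3),(k7,k3)],[(k4,k3),(k8,k3)],[(k9,k3)],[(k6,
    k3)],[(k1,k3),(k7,k3)]]
    [] k0
    [[k1,k0,k1,k0,k0],[k0,k2,k0,k0,k0],[k0,k0,k0,k1,k1]]
    [.ref k7 k0 [(z1,[z1])],.contra [z1],.ref k3 k0 [(z1,[y1,z1])]])]⟩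

/-- classes `0 0 1 2 1`, types `N0 N1 C0 C0 C2` -/
noncomputable def cU5_209 : CertX :=
  ⟨[k12,k13,k20,k36,k22],[],[[[]]],
    [.old (.lp [k6,k8,k6,k6,k6] [k1,k1,k0,k0,k1,k1,k1,k1,k1,k1] k0 [] k24 k5
    [[(k7,k6),(k8,k6)],[(k5,k6)],[(k2,k8)],[(k3,k8)],[(k0,k6)],[(k7,k6),(k8,k6)],[(k1,k6),(k4,k6)],[(k9,k6)],[(k6,
    k6)],[(k1,k6),(k4,k6)]]
    [] k0
    [[k0,k2,k0,k0,k0]]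
    [.contra [z1]])]⟩

/-- classes `0 0 1 2 1`, types `N0 N1 C0 S0 C0` -/
noncomputable def cU5_210 : CertX :=
  ⟨[k12,k13,k20,k32,k20],[(false,k0,[k0,k1,k2,k3,k4])],[[[([z3,z0,z3,z0,z0],z1),([z0,z3,z0,z0,z0],z2)],[([z2,z0,z2,z0,
    z0],z1),([z0,z2,z0,z0,z0],z1)],[([z3,z0,z3,z0,z0],z2),([z0,z3,z0,z0,z0],z1)],[([z1,z1,z1,z0,z0],z1)],[([z1,z0,z1,
    z0,z0],z2),([z0,z3,z0,z0,z0],z1)],[([z1,z0,z1,z0,z0],z2),([z0,z3,z0,z0,z0],z2)],[([z1,z0,z1,z0,z0],z2),([z0,z2,z0,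
    z0,z0],z1)],[([z1,z0,z1,z0,z0],z2)],[]]],
    [.old (.leafM k2 [k0,k1,k2] [(z1,[z0,z1]),(z1,[z1])] [(k3,k4,z3,[y1,y1,z3]),(k4,k3,z3,[y1,y1,z3])]),
    .old (.leafM k3 [k0,k1,k2] [(z1,[z0,z1]),(z1,[z1])] [(k3,k4,z2,[y1,y1,z2]),(k4,k3,z2,[y1,y1,z2])]),
    .old (.leafM k4 [k0,k1,k2] [(z1,[z0,z1]),(z1,[z1])] [(k3,k4,z3,[y1,y1,z3]),(k4,k3,z3,[y1,y1,z3])]),
    .old (.lp [k20,k14,k0,k60,k10] [k20,k20,k23,k23,k30,k30,k0,k0,k25,k25] k0 [] k70 k8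
    [[(k4,k10),(k8,k15)],[(k5,k10)],[(k2,k14)],[(k3,k14)],[(k0,k10)],[(k1,k10),(k7,k30)],[(k4,k30),(k8,k35)],[(k9,
    k35),(k6,k60)],[(k9,k10),(k6,k35)],[(k1,k15),(k7,k35)]]
    [] k0
    [[k1,k0,k1,k0,k0],[k2,k0,k2,k0,k0],[k3,k0,k3,k0,k0],[k0,k2,k0,k0,k0],[k0,k3,k0,k0,k0],[k0,k4,k0,k0,k0]]
    [.contra [y1,z2],.contra [y1,z2],.ref k2 k0 [(z1,[z1]),(z1,[y1,z3])],.contra [z1],.ref k0 k0 [(z1,[y1,z3]),(z1,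
    [z1])],.ref k1 k0 [(z2,[y1,z4]),(z2,[z1])]]),
    .old (.leafM k4 [k4,k1,k3] [(z1,[z0,z1]),(z1,[y3,y1,z3])] [(k0,k2,z1,[z1]),(k2,k0,z1,[z1])]),
    .old (.leafM k2 [k4,k1,k3] [(z1,[z0,z1]),(z1,[y3,y1,z3])] [(k0,k2,z1,[z1]),(k2,k0,z1,[z1])]),
    .old (.leafM k3 [k4,k1,k3] [(z1,[z0,z1]),(z1,[y2,y1,z2])] [(k0,k2,z1,[z1]),(k2,k0,z1,[z1])]),
    .old (.lp [k60,k14,k10,k10,k10] [k0,k0,k23,k23,k25,k25,k25,k25,k25,k25] k0 [] k70 k8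
    [[(k4,k35),(k8,k35)],[(k5,k35)],[(k2,k14)],[(k3,k14)],[(k0,k35)],[(k7,k10),(k1,k35)],[(k4,k10),(k8,k10)],[(k6,
    k10),(k9,k10)],[(k6,k10),(k9,k10)],[(k7,k10),(k1,k35)]]
    [] k0
    [[k0,k2,k0,k0,k0],[k0,k3,k0,k0,k0],[k0,k4,k0,k0,k0],[k0,k0,k0,k1,k1],[k0,k0,k0,k2,k2],[k0,k0,k0,k3,k3]]
    [.contra [z1],.ref k5 k0 [(z1,[z0,z1]),(z1,[z1])],.ref k6 k0 [(z1,[z0,z1]),(z2,[z1])],.contra [y2,y1,z2],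
    .contra [y1,y2,z2],.ref k4 k0 [(z1,[z0,z1]),(z1,[y1,y3,z3])]]),
    .old (.lp [k6,k8,k6,k6,k6] [k1,k1,k0,k0,k1,k1,k1,k1,k1,k1] k0 [] k24 k5
    [[(k4,k6),(k8,k6)],[(k5,k6)],[(k2,k8)],[(k3,k8)],[(k0,k6)],[(k1,k6),(k7,k6)],[(k4,k6),(k8,k6)],[(k6,k6),(k9,k6)],
    [(k6,k6),(k9,k6)],[(k1,k6),(k7,k6)]]
    [] k0
    [[k1,k0,k1,k0,k0],[k0,k2,k0,k0,k0],[k0,k0,k0,k1,k1]]
    [.ref k7 k0 [(z1,[z1])],.contra [z1],.ref k3 k0 [(z1,[y1,z1])]])]⟩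

/-- classes `0 0 1 2 1`, types `N0 N1 C0 S0 C2` -/
noncomputable def cU5_211 : CertX :=
  ⟨[k12,k13,k20,k32,k22],[],[[[]]],
    [.old (.lp [k6,k8,k6,k6,k6] [k1,k1,k0,k0,k1,k1,k1,k1,k1,k1] k0 [] k24 k5
    [[(k7,k6),(k8,k6)],[(k5,k6)],[(k2,k8)],[(k3,k8)],[(k0,k6)],[(k7,k6),(k8,k6)],[(k1,k6),(k4,k6)],[(k6,k6),(k9,k6)],
    [(k6,k6),(k9,k6)],[(k1,k6),(k4,k6)]]
    [] k0
    [[k0,k2,k0,k0,k0]]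
    [.contra [z1]])]⟩

/-- classes `0 0 1 2 1`, types `N0 N1 N0 C0 N1` -/
noncomputable def cU5_212 : CertX :=
  ⟨[k12,k13,k28,k36,k29],[(false,k0,[k0,k1,k2,k3,k4])],[[[([z3,z0,z3,z0,z0],z1),([z0,z3,z0,z0,z0],z2)],[([z2,z0,z2,z0,
    z0],z1),([z0,z2,z0,z0,z0],z1)],[([z3,z0,z3,z0,z0],z2),([z0,z3,z0,z0,z0],z1)],[([z1,z1,z1,z0,z0],z1)],[([z1,z0,z1,
    z0,z0],z2),([z0,z3,z0,z0,z0],z1)],[([z1,z0,z1,z0,z0],z2),([z0,z3,z0,z0,z0],z2)],[([z1,z0,z1,z0,z0],z2),([z0,z2,z0,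
    z0,z0],z1)],[([z1,z0,z1,z0,z0],z2)],[]]],
    [.old (.leafM k2 [k0,k1,k2] [(z1,[z0,z1]),(z1,[z1])] [(k3,k4,z3,[y1,y1,z3]),(k4,k3,z3,[y1,y1,z3])]),
    .old (.leafM k3 [k0,k1,k2] [(z1,[z0,z1]),(z1,[z1])] [(k3,k4,z2,[y1,y1,z2]),(k4,k3,z2,[y1,y1,z2])]),
    .old (.leafM k4 [k0,k1,k2] [(z1,[z0,z1]),(z1,[z1])] [(k3,k4,z3,[y1,y1,z3]),(k4,k3,z3,[y1,y1,z3])]),
    .old (.lp [k20,k14,k0,k70,k0] [k25,k25,k28,k28,k35,k35,k0,k0,k35,k35] k0 [] k70 k8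
    [[(k4,k10)],[(k5,k10)],[(k2,k14)],[(k3,k14)],[(k0,k10)],[(k1,k10)],[(k8,k35)],[(k9,k35)],[(k6,k35)],[(k7,k35)]]
    [] k0
    [[k1,k0,k1,k0,k0],[k2,k0,k2,k0,k0],[k3,k0,k3,k0,k0],[k0,k2,k0,k0,k0],[k0,k3,k0,k0,k0],[k0,k4,k0,k0,k0]]
    [.contra [y1,z2],.contra [y1,z2],.ref k2 k0 [(z1,[z1]),(z1,[y1,z3])],.contra [z1],.ref k0 k0 [(z1,[y1,z3]),(z1,
    [z1])],.ref k1 k0 [(z2,[y1,z4]),(z2,[z1])]]),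
    .old (.leafM k4 [k4,k1,k3] [(z1,[z0,z1]),(z1,[y3,y1,z3])] [(k0,k2,z1,[z1]),(k2,k0,z1,[z1])]),
    .old (.leafM k2 [k4,k1,k3] [(z1,[z0,z1]),(z1,[y3,y1,z3])] [(k0,k2,z1,[z1]),(k2,k0,z1,[z1])]),
    .old (.leafM k3 [k4,k1,k3] [(z1,[z0,z1]),(z1,[y2,y1,z2])] [(k0,k2,z1,[z1]),(k2,k0,z1,[z1])]),
    .old (.lp [k70,k14,k0,k20,k0] [k0,k0,k28,k28,k35,k35,k25,k25,k35,k35] k0 [] k70 k8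
    [[(k4,k35)],[(k5,k35)],[(k2,k14)],[(k3,k14)],[(k0,k35)],[(k1,k35)],[(k8,k10)],[(k9,k10)],[(k6,k10)],[(k7,k10)]]
    [] k0
    [[k0,k2,k0,k0,k0],[k0,k3,k0,k0,k0],[k0,k4,k0,k0,k0],[k0,k0,k0,k1,k1],[k0,k0,k0,k2,k2],[k0,k0,k0,k3,k3]]
    [.contra [z1],.ref k5 k0 [(z1,[z0,z1]),(z1,[z1])],.ref k6 k0 [(z1,[z0,z1]),(z2,[z1])],.contra [y2,y1,z2],
    .contra [y1,y2,z2],.ref k4 k0 [(z1,[z0,z1]),(z1,[y1,y3,z3])]]),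
    .old (.lp [k6,k4,k0,k6,k0] [k0,k0,k1,k1,k3,k3,k0,k0,k3,k3] k0 [] k12 k5
    [[(k4,k3)],[(k5,k3)],[(k2,k4)],[(k3,k4)],[(k0,k3)],[(k1,k3)],[(k8,k3)],[(k9,k3)],[(k6,k3)],[(k7,k3)]]
    [] k0
    [[k1,k0,k1,k0,k0],[k0,k2,k0,k0,k0],[k0,k0,k0,k1,k1]]
    [.ref k7 k0 [(z1,[z1])],.contra [z1],.ref k3 k0 [(z1,[y1,z1])]])]⟩

/-- classes `0 0 1 2 1`, types `N0 N1 N0 C0 N2` -/
noncomputable def cU5_213 : CertX :=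
  ⟨[k12,k13,k28,k36,k30],[],[[[]]],
    [.old (.lp [k6,k4,k0,k0,k6] [k0,k0,k1,k1,k3,k3,k3,k3,k0,k0] k0 [] k12 k5
    [[(k7,k3)],[(k5,k3)],[(k2,k4)],[(k3,k4)],[(k0,k3)],[(k8,k3)],[(k1,k3)],[(k9,k3)],[(k6,k3)],[(k4,k3)]]
    [] k0
    [[k0,k2,k0,k0,k0]]
    [.contra [z1]])]⟩

/-- classes `0 0 1 2 1`, types `N0 N1 N0 S0 N1` -/
noncomputable def cU5_214 : CertX :=
  ⟨[k12,k13,k28,k32,k29],[(false,k0,[k0,k1,k2,k3,k4])],[[[([z3,z0,z3,z0,z0],z1),([z0,z3,z0,z0,z0],z2)],[([z2,z0,z2,z0,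
    z0],z1),([z0,z2,z0,z0,z0],z1)],[([z3,z0,z3,z0,z0],z2),([z0,z3,z0,z0,z0],z1)],[([z1,z1,z1,z0,z0],z1)],[([z1,z0,z1,
    z0,z0],z2),([z0,z3,z0,z0,z0],z1)],[([z1,z0,z1,z0,z0],z2),([z0,z3,z0,z0,z0],z2)],[([z1,z0,z1,z0,z0],z2),([z0,z2,z0,
    z0,z0],z1)],[([z1,z0,z1,z0,z0],z2)],[]]],
    [.old (.leafM k2 [k0,k1,k2] [(z1,[z0,z1]),(z1,[z1])] [(k3,k4,z3,[y1,y1,z3]),(k4,k3,z3,[y1,y1,z3])]),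
    .old (.leafM k3 [k0,k1,k2] [(z1,[z0,z1]),(z1,[z1])] [(k3,k4,z2,[y1,y1,z2]),(k4,k3,z2,[y1,y1,z2])]),
    .old (.leafM k4 [k0,k1,k2] [(z1,[z0,z1]),(z1,[z1])] [(k3,k4,z3,[y1,y1,z3]),(k4,k3,z3,[y1,y1,z3])]),
    .old (.lp [k20,k14,k0,k60,k10] [k20,k20,k23,k23,k30,k30,k0,k0,k25,k25] k0 [] k70 k8
    [[(k4,k10)],[(k5,k10)],[(k2,k14)],[(k3,k14)],[(k0,k10)],[(k1,k10)],[(k8,k35)],[(k9,k35),(k6,k60)],[(k9,k10),(k6,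
    k35)],[(k7,k35)]]
    [] k0
    [[k1,k0,k1,k0,k0],[k2,k0,k2,k0,k0],[k3,k0,k3,k0,k0],[k0,k2,k0,k0,k0],[k0,k3,k0,k0,k0],[k0,k4,k0,k0,k0]]
    [.contra [y1,z2],.contra [y1,z2],.ref k2 k0 [(z1,[z1]),(z1,[y1,z3])],.contra [z1],.ref k0 k0 [(z1,[y1,z3]),(z1,
    [z1])],.ref k1 k0 [(z2,[y1,z4]),(z2,[z1])]]),
    .old (.leafM k4 [k4,k1,k3] [(z1,[z0,z1]),(z1,[y3,y1,z3])] [(k0,k2,z1,[z1]),(k2,k0,z1,[z1])]),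
    .old (.leafM k2 [k4,k1,k3] [(z1,[z0,z1]),(z1,[y3,y1,z3])] [(k0,k2,z1,[z1]),(k2,k0,z1,[z1])]),
    .old (.leafM k3 [k4,k1,k3] [(z1,[z0,z1]),(z1,[y2,y1,z2])] [(k0,k2,z1,[z1]),(k2,k0,z1,[z1])]),
    .old (.lp [k70,k14,k0,k10,k10] [k0,k0,k28,k28,k35,k35,k30,k30,k30,k30] k0 [] k70 k8
    [[(k4,k35)],[(k5,k35)],[(k2,k14)],[(k3,k14)],[(k0,k35)],[(k1,k35)],[(k8,k10)],[(k6,k10),(k9,k10)],[(k6,k10),(k9,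
    k10)],[(k7,k10)]]
    [] k0
    [[k0,k2,k0,k0,k0],[k0,k3,k0,k0,k0],[k0,k4,k0,k0,k0],[k0,k0,k0,k1,k1],[k0,k0,k0,k2,k2],[k0,k0,k0,k3,k3]]
    [.contra [z1],.ref k5 k0 [(z1,[z0,z1]),(z1,[z1])],.ref k6 k0 [(z1,[z0,z1]),(z2,[z1])],.contra [y2,y1,z2],
    .contra [y1,y2,z2],.ref k4 k0 [(z1,[z0,z1]),(z1,[y1,y3,z3])]]),
    .old (.lp [k12,k8,k0,k6,k6] [k0,k0,k2,k2,k6,k6,k3,k3,k3,k3] k0 [] k24 k5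
    [[(k4,k6)],[(k5,k6)],[(k2,k8)],[(k3,k8)],[(k0,k6)],[(k1,k6)],[(k8,k6)],[(k6,k6),(k9,k6)],[(k6,k6),(k9,k6)],[(k7,
    k6)]]
    [] k0
    [[k1,k0,k1,k0,k0],[k0,k2,k0,k0,k0],[k0,k0,k0,k1,k1]]
    [.ref k7 k0 [(z1,[z1])],.contra [z1],.ref k3 k0 [(z1,[y1,z1])]])]⟩

/-- classes `0 0 1 2 1`, types `N0 N1 N0 S0 N2` -/
noncomputable def cU5_215 : CertX :=
  ⟨[k12,k13,k28,k32,k30],[],[[[]]],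
    [.old (.lp [k6,k8,k6,k6,k6] [k1,k1,k0,k0,k1,k1,k1,k1,k1,k1] k0 [] k24 k5
    [[(k7,k6)],[(k5,k6)],[(k2,k8)],[(k3,k8)],[(k0,k6)],[(k8,k6)],[(k1,k6)],[(k6,k6),(k9,k6)],[(k6,k6),(k9,k6)],[(k4,
    k6)]]
    [] k0
    [[k0,k2,k0,k0,k0]]
    [.contra [z1]])]⟩

/-- classes `0 0 1 2 1`, types `N0 N1 S0 C0 S0` -/
noncomputable def cU5_216 : CertX :=
  ⟨[k12,k13,k16,k36,k16],[(false,k0,[k0,k1,k2,k3,k4])],[[[([z3,z0,z3,z0,z0],z1),([z0,z3,z0,z0,z0],z2)],[([z2,z0,z2,z0,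
    z0],z1),([z0,z2,z0,z0,z0],z1)],[([z3,z0,z3,z0,z0],z2),([z0,z3,z0,z0,z0],z1)],[([z1,z1,z1,z0,z0],z1)],[([z1,z0,z1,
    z0,z0],z2),([z0,z3,z0,z0,z0],z1)],[([z1,z0,z1,z0,z0],z2),([z0,z3,z0,z0,z0],z2)],[([z1,z0,z1,z0,z0],z2),([z0,z2,z0,
    z0,z0],z1)],[([z1,z0,z1,z0,z0],z2)],[]]],
    [.old (.leafM k2 [k0,k1,k2] [(z1,[z0,z1]),(z1,[z1])] [(k3,k4,z3,[y1,y1,z3]),(k4,k3,z3,[y1,y1,z3])]),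
    .old (.leafM k3 [k0,k1,k2] [(z1,[z0,z1]),(z1,[z1])] [(k3,k4,z2,[y1,y1,z2]),(k4,k3,z2,[y1,y1,z2])]),
    .old (.leafM k4 [k0,k1,k2] [(z1,[z0,z1]),(z1,[z1])] [(k3,k4,z3,[y1,y1,z3]),(k4,k3,z3,[y1,y1,z3])]),
    .old (.lp [k10,k14,k10,k60,k10] [k25,k25,k23,k23,k25,k25,k0,k0,k25,k25] k0 [] k70 k8
    [[(k1,k10),(k4,k10),(k8,k10),(k7,k35)],[(k5,k10)],[(k2,k14)],[(k3,k14)],[(k0,k10)],[(k1,k10),(k4,k10),(k8,k10),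
    (k7,k35)],[(k1,k35),(k4,k35),(k8,k35),(k7,k60)],[(k9,k35)],[(k6,k35)],[(k1,k10),(k4,k10),(k8,k10),(k7,k35)]]
    [] k0
    [[k3,k0,k3,k0,k0],[k2,k0,k2,k0,k0],[k1,k0,k1,k0,k0],[k0,k2,k0,k0,k0],[k0,k3,k0,k0,k0],[k0,k4,k0,k0,k0]]
    [.ref k2 k0 [(z1,[z1]),(z1,[y1,z3])],.contra [y1,z2],.contra [y1,z2],.contra [z1],.ref k0 k0 [(z1,[y1,z3]),(z1,
    [z1])],.ref k1 k0 [(z2,[y1,z4]),(z2,[z1])]]),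
    .old (.leafM k4 [k4,k1,k3] [(z1,[z0,z1]),(z1,[y3,y1,z3])] [(k0,k2,z1,[z1]),(k2,k0,z1,[z1])]),
    .old (.leafM k2 [k4,k1,k3] [(z1,[z0,z1]),(z1,[y3,y1,z3])] [(k0,k2,z1,[z1]),(k2,k0,z1,[z1])]),
    .old (.leafM k3 [k4,k1,k3] [(z1,[z0,z1]),(z1,[y2,y1,z2])] [(k0,k2,z1,[z1]),(k2,k0,z1,[z1])]),
    .old (.lp [k60,k14,k10,k10,k10] [k0,k0,k23,k23,k25,k25,k25,k25,k25,k25] k0 [] k70 k8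
    [[(k4,k35),(k7,k35),(k8,k35),(k1,k60)],[(k5,k35)],[(k2,k14)],[(k3,k14)],[(k0,k35)],[(k4,k10),(k7,k10),(k8,k10),
    (k1,k35)],[(k4,k10),(k7,k10),(k8,k10),(k1,k35)],[(k9,k10)],[(k6,k10)],[(k4,k10),(k7,k10),(k8,k10),(k1,k35)]]
    [] k0
    [[k0,k2,k0,k0,k0],[k0,k3,k0,k0,k0],[k0,k4,k0,k0,k0],[k0,k0,k0,k3,k3],[k0,k0,k0,k2,k2],[k0,k0,k0,k1,k1]]
    [.contra [z1],.ref k5 k0 [(z1,[z0,z1]),(z1,[z1])],.ref k6 k0 [(z1,[z0,z1]),(z2,[z1])],.ref k4 k0 [(z1,[z0,z1]),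
    (z1,[y1,y3,z3])],.contra [y1,y2,z2],.contra [y2,y1,z2]]),
    .old (.lp [k6,k8,k6,k6,k6] [k1,k1,k0,k0,k1,k1,k1,k1,k1,k1] k0 [] k24 k5
    [[(k1,k6),(k4,k6),(k7,k6),(k8,k6)],[(k5,k6)],[(k2,k8)],[(k3,k8)],[(k0,k6)],[(k1,k6),(k4,k6),(k7,k6),(k8,k6)],[(k1,
    k6),(k4,k6),(k7,k6),(k8,k6)],[(k9,k6)],[(k6,k6)],[(k1,k6),(k4,k6),(k7,k6),(k8,k6)]]
    [] k0
    [[k1,k0,k1,k0,k0],[k0,k2,k0,k0,k0],[k0,k0,k0,k1,k1]]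
    [.ref k7 k0 [(z1,[z1])],.contra [z1],.ref k3 k0 [(z1,[y1,z1])]])]⟩

/-- classes `0 0 1 2 1`, types `N0 N1 S0 S0 S0` -/
noncomputable def cU5_217 : CertX :=
  ⟨[k12,k13,k16,k32,k16],[(false,k0,[k0,k1,k2,k3,k4])],[[[([z3,z0,z3,z0,z0],z1),([z0,z3,z0,z0,z0],z2)],[([z2,z0,z2,z0,
    z0],z1),([z0,z2,z0,z0,z0],z1)],[([z3,z0,z3,z0,z0],z2),([z0,z3,z0,z0,z0],z1)],[([z1,z1,z1,z0,z0],z1)],[([z1,z0,z1,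
    z0,z0],z2),([z0,z3,z0,z0,z0],z1)],[([z1,z0,z1,z0,z0],z2),([z0,z3,z0,z0,z0],z2)],[([z1,z0,z1,z0,z0],z2),([z0,z2,z0,
    z0,z0],z1)],[([z1,z0,z1,z0,z0],z2)],[]]],
    [.old (.leafM k2 [k0,k1,k2] [(z1,[z0,z1]),(z1,[z1])] [(k3,k4,z3,[y1,y1,z3]),(k4,k3,z3,[y1,y1,z3])]),
    .old (.leafM k3 [k0,k1,k2] [(z1,[z0,z1]),(z1,[z1])] [(k3,k4,z2,[y1,y1,z2]),(k4,k3,z2,[y1,y1,z2])]),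
    .old (.leafM k4 [k0,k1,k2] [(z1,[z0,z1]),(z1,[z1])] [(k3,k4,z3,[y1,y1,z3]),(k4,k3,z3,[y1,y1,z3])]),
    .old (.lp [k20,k28,k20,k70,k70] [k25,k25,k21,k21,k25,k25,k0,k0,k0,k0] k0 [] k140 k8
    [[(k1,k20),(k4,k20),(k7,k45),(k8,k45)],[(k5,k20)],[(k2,k28)],[(k3,k28)],[(k0,k20)],[(k1,k20),(k4,k20),(k7,k45),
    (k8,k45)],[(k1,k45),(k4,k45),(k7,k70),(k8,k70)],[(k6,k70),(k9,k70)],[(k6,k70),(k9,k70)],[(k1,k45),(k4,k45),(k7,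
    k70),(k8,k70)]]
    [] k0
    [[k3,k0,k3,k0,k0],[k2,k0,k2,k0,k0],[k1,k0,k1,k0,k0],[k0,k2,k0,k0,k0],[k0,k3,k0,k0,k0],[k0,k4,k0,k0,k0]]
    [.ref k2 k0 [(z1,[z1]),(z1,[y1,z3])],.contra [y1,z2],.contra [y1,z2],.contra [z1],.ref k0 k0 [(z1,[y1,z3]),(z1,
    [z1])],.ref k1 k0 [(z2,[y1,z4]),(z2,[z1])]]),
    .old (.leafM k4 [k4,k1,k3] [(z1,[z0,z1]),(z1,[y3,y1,z3])] [(k0,k2,z1,[z1]),(k2,k0,z1,[z1])]),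
    .old (.leafM k2 [k4,k1,k3] [(z1,[z0,z1]),(z1,[y3,y1,z3])] [(k0,k2,z1,[z1]),(k2,k0,z1,[z1])]),
    .old (.leafM k3 [k4,k1,k3] [(z1,[z0,z1]),(z1,[y2,y1,z2])] [(k0,k2,z1,[z1]),(k2,k0,z1,[z1])]),
    .old (.lp [(nat_lit 240),(nat_lit 336),(nat_lit 740),(nat_lit 595),(nat_lit 595)] [(nat_lit 355),(nat_lit 355),
    (nat_lit 307),(nat_lit 307),k105,k105,(nat_lit 355),k0,k10,(nat_lit 345)] k0 [[],[],[],[],[],[k0,k0,k0,k0,k0,k0,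
    k0,k0,k0,(nat_lit 700)],[],[],[k0,k0,k0,k0,(nat_lit 700)]] (nat_lit 1680) k8
    [[(k1,(nat_lit 240)),(k8,(nat_lit 585)),(k7,(nat_lit 595)),(k4,(nat_lit 1190))],[(k5,(nat_lit 490))],[(k2,
    (nat_lit 336))],[(k3,(nat_lit 336))],[(k0,(nat_lit 490))],[(k4,(nat_lit 740)),(k8,(nat_lit 835)),(k7,
    (nat_lit 845)),(k1,(nat_lit 1190))],[(k8,(nat_lit 240)),(k1,(nat_lit 595)),(k4,(nat_lit 845)),(k7,(nat_lit 950))],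
    [(k6,(nat_lit 240)),(k9,(nat_lit 250))],[(k6,(nat_lit 250)),(k9,(nat_lit 260))],[(k7,(nat_lit 240)),(k1,
    (nat_lit 585)),(k4,(nat_lit 835)),(k8,(nat_lit 930))]]
    [] k0
    [[k0,k2,k0,k0,k0],[k0,k3,k0,k0,k0],[k0,k4,k0,k0,k0],[k0,k0,k0,k2,k0],[k0,k0,k0,k1,k1],[k0,k0,k0,k2,k2],[k0,k0,k0,
    k3,k3],[k0,k0,k0,k0,k2]]
    [.contra [z1],.ref k5 k0 [(z1,[z0,z1]),(z1,[z1])],.ref k6 k0 [(z1,[z0,z1]),(z2,[z1])],.contra [z1],.contra [y2,y1,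
    z2],.contra [y1,y2,z2],.ref k4 k0 [(z1,[z0,z1]),(z1,[y1,y3,z3])],.contra [z1]]),
    .old (.lp [k6,k8,k6,k6,k6] [k1,k1,k0,k0,k1,k1,k1,k1,k1,k1] k0 [] k24 k5
    [[(k1,k6),(k4,k6),(k7,k6),(k8,k6)],[(k5,k6)],[(k2,k8)],[(k3,k8)],[(k0,k6)],[(k1,k6),(k4,k6),(k7,k6),(k8,k6)],[(k1,
    k6),(k4,k6),(k7,k6),(k8,k6)],[(k6,k6),(k9,k6)],[(k6,k6),(k9,k6)],[(k1,k6),(k4,k6),(k7,k6),(k8,k6)]]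
    [] k0
    [[k1,k0,k1,k0,k0],[k0,k2,k0,k0,k0],[k0,k0,k0,k2,k0],[k0,k0,k0,k1,k1],[k0,k0,k0,k0,k2]]
    [.ref k7 k0 [(z1,[z1])],.contra [z1],.contra [z1],.ref k3 k0 [(z1,[y1,z1])],.contra [z1]])]⟩

/-- classes `0 0 1 2 1`, types `N0 N2 B0 C0 B1` -/
noncomputable def cU5_218 : CertX :=
  ⟨[k12,k14,k24,k36,k25],[(false,k0,[k0,k1,k2,k3,k4])],[[[([z1,z1,z1,z0,z0],z1)],[([z1,z1,z1,z0,z0],z2)],[]]],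
    [.old (.leafM k1 [k2,k0,k1] [] [(k3,k4,z1,[y1,z1]),(k4,k3,z1,[y1,z1])]),
    .old (.leafM k3 [k0,k1,k2,k3,k4] [(z1,[y1,z1])] []),
    .old (.lp [k2,k2,k2,k2,k2] [k0,k0,k0,k0,k0,k0,k0,k0,k0,k0] k0 [] k8 k5
    [[(k4,k2),(k7,k2)],[(k2,k2)],[(k5,k2)],[(k0,k2)],[(k3,k2)],[(k1,k2),(k8,k2)],[(k1,k2),(k8,k2)],[(k9,k2)],[(k6,
    k2)],[(k4,k2),(k7,k2)]]
    [] k0
    [[k1,k1,k1,k0,k0],[k0,k0,k0,k1,k1]]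
    [.ref k1 k0 [(z1,[z1])],.ref k0 k0 [(z1,[y1,z1])]])]⟩

/-- classes `0 0 1 2 1`, types `N0 N2 B0 S0 B1` -/
noncomputable def cU5_219 : CertX :=
  ⟨[k12,k14,k24,k32,k25],[(false,k0,[k0,k1,k2,k3,k4])],[[[([z1,z1,z1,z0,z0],z1)],[([z1,z1,z1,z0,z0],z2)],[]]],
    [.old (.leafM k1 [k2,k0,k1] [] [(k3,k4,z1,[y1,z1]),(k4,k3,z1,[y1,z1])]),
    .old (.leafM k3 [k0,k1,k2,k3,k4] [(z1,[y1,z1])] []),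
    .old (.lp [k2,k2,k2,k2,k2] [k0,k0,k0,k0,k0,k0,k0,k0,k0,k0] k0 [] k8 k5
    [[(k4,k2),(k7,k2)],[(k2,k2)],[(k5,k2)],[(k0,k2)],[(k3,k2)],[(k1,k2),(k8,k2)],[(k1,k2),(k8,k2)],[(k6,k2),(k9,k2)],
    [(k6,k2),(k9,k2)],[(k4,k2),(k7,k2)]]
    [] k0
    [[k1,k1,k1,k0,k0],[k0,k0,k0,k1,k1]]
    [.ref k1 k0 [(z1,[z1])],.ref k0 k0 [(z1,[y1,z1])]])]⟩

/-- classes `0 0 1 2 1`, types `N0 N2 C0 C0 C0` -/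
noncomputable def cU5_220 : CertX :=
  ⟨[k12,k14,k20,k36,k20],[(false,k0,[k0,k1,k2,k3,k4])],[[[([z1,z1,z1,z0,z0],z1)],[([z1,z1,z1,z0,z0],z2)],[]]],
    [.old (.leafM k1 [k2,k0,k1] [] [(k3,k4,z1,[y1,z1]),(k4,k3,z1,[y1,z1])]),
    .old (.leafM k3 [k0,k1,k2,k3,k4] [(z1,[y1,z1])] []),
    .old (.lp [k2,k2,k2,k2,k2] [k0,k0,k0,k0,k0,k0,k0,k0,k0,k0] k0 [] k8 k5
    [[(k4,k2),(k8,k2)],[(k2,k2)],[(k5,k2)],[(k0,k2)],[(k3,k2)],[(k1,k2),(k7,k2)],[(k4,k2),(k8,k2)],[(k9,k2)],[(k6,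
    k2)],[(k1,k2),(k7,k2)]]
    [] k0
    [[k1,k1,k1,k0,k0],[k0,k0,k0,k1,k1]]
    [.ref k1 k0 [(z1,[z1])],.ref k0 k0 [(z1,[y1,z1])]])]⟩

/-- classes `0 0 1 2 1`, types `N0 N2 C0 C0 C2` -/
noncomputable def cU5_221 : CertX :=
  ⟨[k12,k14,k20,k36,k22],[],[[[]]],
    [.old (.lp [k2,k2,k2,k2,k2] [k0,k0,k0,k0,k0,k0,k0,k0,k0,k0] k0 [] k8 k5
    [[(k7,k2),(k8,k2)],[(k2,k2)],[(k5,k2)],[(k0,k2)],[(k3,k2)],[(k7,k2),(k8,k2)],[(k1,k2),(k4,k2)],[(k9,k2)],[(k6,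
    k2)],[(k1,k2),(k4,k2)]]
    [] k0
    []
    [])]⟩

/-- classes `0 0 1 2 1`, types `N0 N2 C0 S0 C0` -/
noncomputable def cU5_222 : CertX :=
  ⟨[k12,k14,k20,k32,k20],[(false,k0,[k0,k1,k2,k3,k4])],[[[([z1,z1,z1,z0,z0],z1)],[([z1,z1,z1,z0,z0],z2)],[]]],
    [.old (.leafM k1 [k2,k0,k1] [] [(k3,k4,z1,[y1,z1]),(k4,k3,z1,[y1,z1])]),
    .old (.leafM k3 [k0,k1,k2,k3,k4] [(z1,[y1,z1])] []),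
    .old (.lp [k2,k2,k2,k2,k2] [k0,k0,k0,k0,k0,k0,k0,k0,k0,k0] k0 [] k8 k5
    [[(k4,k2),(k8,k2)],[(k2,k2)],[(k5,k2)],[(k0,k2)],[(k3,k2)],[(k1,k2),(k7,k2)],[(k4,k2),(k8,k2)],[(k6,k2),(k9,k2)],
    [(k6,k2),(k9,k2)],[(k1,k2),(k7,k2)]]
    [] k0
    [[k1,k1,k1,k0,k0],[k0,k0,k0,k1,k1]]
    [.ref k1 k0 [(z1,[z1])],.ref k0 k0 [(z1,[y1,z1])]])]⟩

/-- classes `0 0 1 2 1`, types `N0 N2 C0 S0 C2` -/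
noncomputable def cU5_223 : CertX :=
  ⟨[k12,k14,k20,k32,k22],[],[[[]]],
    [.old (.lp [k2,k2,k2,k2,k2] [k0,k0,k0,k0,k0,k0,k0,k0,k0,k0] k0 [] k8 k5
    [[(k7,k2),(k8,k2)],[(k2,k2)],[(k5,k2)],[(k0,k2)],[(k3,k2)],[(k7,k2),(k8,k2)],[(k1,k2),(k4,k2)],[(k6,k2),(k9,k2)],
    [(k6,k2),(k9,k2)],[(k1,k2),(k4,k2)]]
    [] k0
    []
    [])]⟩

/-- classes `0 0 1 2 1`, types `N0 N2 N0 C0 N1` -/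
noncomputable def cU5_224 : CertX :=
  ⟨[k12,k14,k28,k36,k29],[(false,k0,[k0,k1,k2,k3,k4])],[[[([z1,z1,z1,z0,z0],z1)],[([z1,z1,z1,z0,z0],z2)],[]]],
    [.old (.leafM k1 [k2,k0,k1] [] [(k3,k4,z1,[y1,z1]),(k4,k3,z1,[y1,z1])]),
    .old (.leafM k3 [k0,k1,k2,k3,k4] [(z1,[y1,z1])] []),
    .old (.lp [k2,k2,k2,k4,k0] [k1,k1,k1,k1,k1,k1,k0,k0,k2,k2] k0 [] k8 k5
    [[(k4,k2)],[(k2,k2)],[(k5,k2)],[(k0,k2)],[(k3,k2)],[(k1,k2)],[(k8,k2)],[(k9,k2)],[(k6,k2)],[(k7,k2)]]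
    [] k0
    [[k1,k1,k1,k0,k0],[k0,k0,k0,k1,k1]]
    [.ref k1 k0 [(z1,[z1])],.ref k0 k0 [(z1,[y1,z1])]])]⟩

/-- classes `0 0 1 2 1`, types `N0 N2 N0 C0 N2` -/
noncomputable def cU5_225 : CertX :=
  ⟨[k12,k14,k28,k36,k30],[],[[[]]],
    [.old (.lp [k2,k2,k2,k2,k2] [k0,k0,k0,k0,k0,k0,k0,k0,k0,k0] k0 [] k8 k5
    [[(k7,k2)],[(k2,k2)],[(k5,k2)],[(k0,k2)],[(k3,k2)],[(k8,k2)],[(k1,k2)],[(k9,k2)],[(k6,k2)],[(k4,k2)]]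
    [] k0
    []
    [])]⟩

/-- classes `0 0 1 2 1`, types `N0 N2 N0 S0 N1` -/
noncomputable def cU5_226 : CertX :=
  ⟨[k12,k14,k28,k32,k29],[(false,k0,[k0,k1,k2,k3,k4])],[[[([z1,z1,z1,z0,z0],z1)],[([z1,z1,z1,z0,z0],z2)],[]]],
    [.old (.leafM k1 [k2,k0,k1] [] [(k3,k4,z1,[y1,z1]),(k4,k3,z1,[y1,z1])]),
    .old (.leafM k3 [k0,k1,k2,k3,k4] [(z1,[y1,z1])] []),
    .old (.lp [k2,k2,k2,k2,k2] [k0,k0,k0,k0,k0,k0,k0,k0,k0,k0] k0 [] k8 k5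
    [[(k4,k2)],[(k2,k2)],[(k5,k2)],[(k0,k2)],[(k3,k2)],[(k1,k2)],[(k8,k2)],[(k6,k2),(k9,k2)],[(k6,k2),(k9,k2)],[(k7,
    k2)]]
    [] k0
    [[k1,k1,k1,k0,k0],[k0,k0,k0,k1,k1]]
    [.ref k1 k0 [(z1,[z1])],.ref k0 k0 [(z1,[y1,z1])]])]⟩

/-- classes `0 0 1 2 1`, types `N0 N2 N0 S0 N2` -/
noncomputable def cU5_227 : CertX :=
  ⟨[k12,k14,k28,k32,k30],[],[[[]]],
    [.old (.lp [k2,k2,k2,k2,k2] [k0,k0,k0,k0,k0,k0,k0,k0,k0,k0] k0 [] k8 k5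
    [[(k7,k2)],[(k2,k2)],[(k5,k2)],[(k0,k2)],[(k3,k2)],[(k8,k2)],[(k1,k2)],[(k6,k2),(k9,k2)],[(k6,k2),(k9,k2)],[(k4,
    k2)]]
    [] k0
    []
    [])]⟩

/-- classes `0 0 1 2 1`, types `N0 N2 S0 C0 S0` -/
noncomputable def cU5_228 : CertX :=
  ⟨[k12,k14,k16,k36,k16],[(false,k0,[k0,k1,k2,k3,k4])],[[[([z1,z1,z1,z0,z0],z1)],[([z1,z1,z1,z0,z0],z2)],[]]],
    [.old (.leafM k1 [k2,k0,k1] [] [(k3,k4,z1,[y1,z1]),(k4,k3,z1,[y1,z1])]),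
    .old (.leafM k3 [k0,k1,k2,k3,k4] [(z1,[y1,z1])] []),
    .old (.lp [k2,k2,k2,k2,k2] [k0,k0,k0,k0,k0,k0,k0,k0,k0,k0] k0 [] k8 k5
    [[(k1,k2),(k4,k2),(k7,k2),(k8,k2)],[(k2,k2)],[(k5,k2)],[(k0,k2)],[(k3,k2)],[(k1,k2),(k4,k2),(k7,k2),(k8,k2)],[(k1,
    k2),(k4,k2),(k7,k2),(k8,k2)],[(k9,k2)],[(k6,k2)],[(k1,k2),(k4,k2),(k7,k2),(k8,k2)]]
    [] k0
    [[k1,k1,k1,k0,k0],[k0,k0,k0,k1,k1]]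
    [.ref k1 k0 [(z1,[z1])],.ref k0 k0 [(z1,[y1,z1])]])]⟩

/-- classes `0 0 1 2 1`, types `N0 N2 S0 S0 S0` -/
noncomputable def cU5_229 : CertX :=
  ⟨[k12,k14,k16,k32,k16],[(false,k0,[k0,k1,k2,k3,k4])],[[[([z1,z1,z1,z0,z0],z1)],[([z1,z1,z1,z0,z0],z2)],[]]],
    [.old (.leafM k1 [k2,k0,k1] [] [(k3,k4,z1,[y1,z1]),(k4,k3,z1,[y1,z1])]),
    .old (.leafM k3 [k0,k1,k2,k3,k4] [(z1,[y1,z1])] []),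
    .old (.lp [k2,k2,k2,k2,k2] [k0,k0,k0,k0,k0,k0,k0,k0,k0,k0] k0 [] k8 k5
    [[(k1,k2),(k4,k2),(k7,k2),(k8,k2)],[(k2,k2)],[(k5,k2)],[(k0,k2)],[(k3,k2)],[(k1,k2),(k4,k2),(k7,k2),(k8,k2)],[(k1,
    k2),(k4,k2),(k7,k2),(k8,k2)],[(k6,k2),(k9,k2)],[(k6,k2),(k9,k2)],[(k1,k2),(k4,k2),(k7,k2),(k8,k2)]]
    [] k0
    [[k1,k1,k1,k0,k0],[k0,k0,k0,k2,k0],[k0,k0,k0,k1,k1],[k0,k0,k0,k0,k2]]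
    [.ref k1 k0 [(z1,[z1])],.contra [z1],.ref k0 k0 [(z1,[y1,z1])],.contra [z1]])]⟩

/-- classes `0 0 1 2 1`, types `S0 S0 B0 C0 B1` -/
noncomputable def cU5_230 : CertX :=
  ⟨[k0,k0,k24,k36,k25],[(false,k0,[k0,k1,k2,k3,k4])],[[[([z1,z1,z1,z0,z0],z1)],[([z1,z1,z1,z0,z0],z2)],[([z1,z0,z1,z0,
    z0],z2),([z0,z3,z0,z0,z0],z1)],[([z1,z0,z1,z0,z0],z2),([z0,z3,z0,z0,z0],z2)],[([z1,z0,z1,z0,z0],z2),([z0,z2,z0,z0,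
    z0],z1)],[([z1,z0,z1,z0,z0],z2)],[]]],
    [.old (.leafM k0 [k0,k1,k2] [] [(k3,k4,z1,[y1,z1]),(k4,k3,z1,[y1,z1])]),
    .old (.leafM k1 [k2,k3,k4,k0,k1] [(z1,[y1,z1])] []),
    .old (.leafM k4 [k4,k1,k3] [(z1,[z0,z1]),(z1,[y3,y1,z3])] [(k0,k2,z1,[z1]),(k2,k0,z1,[z1])]),
    .old (.leafM k2 [k4,k1,k3] [(z1,[z0,z1]),(z1,[y3,y1,z3])] [(k0,k2,z1,[z1]),(k2,k0,z1,[z1])]),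
    .old (.leafM k3 [k4,k1,k3] [(z1,[z0,z1]),(z1,[y2,y1,z2])] [(k0,k2,z1,[z1]),(k2,k0,z1,[z1])]),
    .old (.lp [k10,k14,k60,k20,k0] [k25,k25,k23,k23,k0,k0,k20,k20,k30,k30] k0 [] k70 k8
    [[(k7,k15),(k4,k35)],[(k0,k10),(k2,k12),(k3,k12),(k5,k35)],[(k0,k12),(k2,k14),(k3,k14),(k5,k37)],[(k0,k12),(k2,
    k14),(k3,k14),(k5,k37)],[(k0,k35),(k2,k37),(k3,k37),(k5,k60)],[(k8,k30),(k1,k35)],[(k8,k10),(k1,k15)],[(k9,k10)],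
    [(k6,k10)],[(k7,k10),(k4,k30)]]
    [] k0
    [[k0,k2,k0,k0,k0],[k0,k3,k0,k0,k0],[k0,k4,k0,k0,k0],[k0,k0,k0,k1,k1],[k0,k0,k0,k2,k2],[k0,k0,k0,k3,k3]]
    [.contra [z1],.ref k3 k0 [(z1,[z0,z1]),(z1,[z1])],.ref k4 k0 [(z1,[z0,z1]),(z2,[z1])],.contra [y2,y1,z2],
    .contra [y1,y2,z2],.ref k2 k0 [(z1,[z0,z1]),(z1,[y1,y3,z3])]]),
    .old (.lp [k6,k8,k6,k6,k6] [k1,k1,k0,k0,k1,k1,k1,k1,k1,k1] k0 [] k24 k5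
    [[(k4,k6),(k7,k6)],[(k0,k6),(k5,k6),(k2,k7),(k3,k7)],[(k0,k7),(k5,k7),(k2,k8),(k3,k8)],[(k0,k7),(k5,k7),(k2,k8),
    (k3,k8)],[(k0,k6),(k5,k6),(k2,k7),(k3,k7)],[(k1,k6),(k8,k6)],[(k1,k6),(k8,k6)],[(k9,k6)],[(k6,k6)],[(k4,k6),(k7,
    k6)]]
    [] k0
    [[k1,k0,k1,k0,k0],[k1,k1,k1,k0,k0],[k0,k2,k0,k0,k0],[k0,k0,k0,k1,k1]]
    [.ref k5 k0 [(z1,[z1])],.ref k1 k0 [(z1,[z1])],.contra [z1],.ref k0 k0 [(z1,[y1,z1])]])]⟩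

/-- classes `0 0 1 2 1`, types `S0 S0 B0 S0 B1` -/
noncomputable def cU5_231 : CertX :=
  ⟨[k0,k0,k24,k32,k25],[(false,k0,[k0,k1,k2,k3,k4])],[[[([z1,z1,z1,z0,z0],z1)],[([z1,z1,z1,z0,z0],z2)],[([z1,z0,z1,z0,
    z0],z2),([z0,z3,z0,z0,z0],z1)],[([z1,z0,z1,z0,z0],z2),([z0,z3,z0,z0,z0],z2)],[([z1,z0,z1,z0,z0],z2),([z0,z2,z0,z0,
    z0],z1)],[([z1,z0,z1,z0,z0],z2)],[]]],
    [.old (.leafM k0 [k0,k1,k2] [] [(k3,k4,z1,[y1,z1]),(k4,k3,z1,[y1,z1])]),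
    .old (.leafM k1 [k2,k3,k4,k0,k1] [(z1,[y1,z1])] []),
    .old (.leafM k4 [k4,k1,k3] [(z1,[z0,z1]),(z1,[y3,y1,z3])] [(k0,k2,z1,[z1]),(k2,k0,z1,[z1])]),
    .old (.leafM k2 [k4,k1,k3] [(z1,[z0,z1]),(z1,[y3,y1,z3])] [(k0,k2,z1,[z1]),(k2,k0,z1,[z1])]),
    .old (.leafM k3 [k4,k1,k3] [(z1,[z0,z1]),(z1,[y2,y1,z2])] [(k0,k2,z1,[z1]),(k2,k0,z1,[z1])]),
    .old (.lp [(nat_lit 280),k154,(nat_lit 490),k110,k110] [k105,k105,k168,k168,k0,k0,k190,k190,k190,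
    k190] k0 [] (nat_lit 770) k8
    [[(k7,k195),(k4,(nat_lit 385))],[(k2,(nat_lit 217)),(k3,(nat_lit 217)),(k0,(nat_lit 280)),(k5,(nat_lit 385))],
    [(k2,k154),(k3,k154),(k0,(nat_lit 217)),(k5,(nat_lit 322))],[(k2,k154),(k3,k154),(k0,(nat_lit 217)),(k5,
    (nat_lit 322))],[(k2,(nat_lit 322)),(k3,(nat_lit 322)),(k0,(nat_lit 385)),(k5,(nat_lit 490))],[(k8,(nat_lit 300)),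
    (k1,(nat_lit 385))],[(k8,k110),(k1,k195)],[(k6,k110),(k9,k110)],[(k6,k110),(k9,k110)],[(k7,k110),(k4,
    (nat_lit 300))]]
    [] k0
    [[k0,k2,k0,k0,k0],[k0,k3,k0,k0,k0],[k0,k4,k0,k0,k0],[k0,k0,k0,k1,k1],[k0,k0,k0,k2,k2],[k0,k0,k0,k3,k3]]
    [.contra [z1],.ref k3 k0 [(z1,[z0,z1]),(z1,[z1])],.ref k4 k0 [(z1,[z0,z1]),(z2,[z1])],.contra [y2,y1,z2],
    .contra [y1,y2,z2],.ref k2 k0 [(z1,[z0,z1]),(z1,[y1,y3,z3])]]),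
    .old (.lp [k6,k8,k6,k6,k6] [k1,k1,k0,k0,k1,k1,k1,k1,k1,k1] k0 [] k24 k5
    [[(k4,k6),(k7,k6)],[(k0,k6),(k5,k6),(k2,k7),(k3,k7)],[(k0,k7),(k5,k7),(k2,k8),(k3,k8)],[(k0,k7),(k5,k7),(k2,k8),
    (k3,k8)],[(k0,k6),(k5,k6),(k2,k7),(k3,k7)],[(k1,k6),(k8,k6)],[(k1,k6),(k8,k6)],[(k6,k6),(k9,k6)],[(k6,k6),(k9,
    k6)],[(k4,k6),(k7,k6)]]
    [] k0
    [[k1,k0,k1,k0,k0],[k1,k1,k1,k0,k0],[k0,k2,k0,k0,k0],[k0,k0,k0,k1,k1]]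
    [.ref k5 k0 [(z1,[z1])],.ref k1 k0 [(z1,[z1])],.contra [z1],.ref k0 k0 [(z1,[y1,z1])]])]⟩

/-- classes `0 0 1 2 1`, types `S0 S0 C0 C0 C0` -/
noncomputable def cU5_232 : CertX :=
  ⟨[k0,k0,k20,k36,k20],[(false,k0,[k0,k1,k2,k3,k4])],[[[([z1,z1,z1,z0,z0],z1)],[([z1,z1,z1,z0,z0],z2)],[([z1,z0,z1,z0,
    z0],z2),([z0,z3,z0,z0,z0],z1)],[([z1,z0,z1,z0,z0],z2),([z0,z3,z0,z0,z0],z2)],[([z1,z0,z1,z0,z0],z2),([z0,z2,z0,z0,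
    z0],z1)],[([z1,z0,z1,z0,z0],z2)],[]]],
    [.old (.leafM k0 [k0,k1,k2] [] [(k3,k4,z1,[y1,z1]),(k4,k3,z1,[y1,z1])]),
    .old (.leafM k1 [k2,k3,k4,k0,k1] [(z1,[y1,z1])] []),
    .old (.leafM k4 [k4,k1,k3] [(z1,[z0,z1]),(z1,[y3,y1,z3])] [(k0,k2,z1,[z1]),(k2,k0,z1,[z1])]),
    .old (.leafM k2 [k4,k1,k3] [(z1,[z0,z1]),(z1,[y3,y1,z3])] [(k0,k2,z1,[z1]),(k2,k0,z1,[z1])]),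
    .old (.leafM k3 [k4,k1,k3] [(z1,[z0,z1]),(z1,[y2,y1,z2])] [(k0,k2,z1,[z1]),(k2,k0,z1,[z1])]),
    .old (.lp [k60,k14,k10,k20,k0] [k0,k0,k23,k23,k25,k25,k20,k20,k30,k30] k0 [] k70 k8
    [[(k8,k30),(k4,k35)],[(k5,k35),(k2,k37),(k3,k37),(k0,k60)],[(k5,k12),(k2,k14),(k3,k14),(k0,k37)],[(k5,k12),(k2,
    k14),(k3,k14),(k0,k37)],[(k5,k10),(k2,k12),(k3,k12),(k0,k35)],[(k7,k15),(k1,k35)],[(k8,k10),(k4,k15)],[(k9,k10)],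
    [(k6,k10)],[(k7,k10),(k1,k30)]]
    [] k0
    [[k0,k2,k0,k0,k0],[k0,k3,k0,k0,k0],[k0,k4,k0,k0,k0],[k0,k0,k0,k1,k1],[k0,k0,k0,k2,k2],[k0,k0,k0,k3,k3]]
    [.contra [z1],.ref k3 k0 [(z1,[z0,z1]),(z1,[z1])],.ref k4 k0 [(z1,[z0,z1]),(z2,[z1])],.contra [y2,y1,z2],
    .contra [y1,y2,z2],.ref k2 k0 [(z1,[z0,z1]),(z1,[y1,y3,z3])]]),
    .old (.lp [k6,k8,k6,k6,k6] [k1,k1,k0,k0,k1,k1,k1,k1,k1,k1] k0 [] k24 k5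
    [[(k4,k6),(k8,k6)],[(k0,k6),(k5,k6),(k2,k7),(k3,k7)],[(k0,k7),(k5,k7),(k2,k8),(k3,k8)],[(k0,k7),(k5,k7),(k2,k8),
    (k3,k8)],[(k0,k6),(k5,k6),(k2,k7),(k3,k7)],[(k1,k6),(k7,k6)],[(k4,k6),(k8,k6)],[(k9,k6)],[(k6,k6)],[(k1,k6),(k7,
    k6)]]
    [] k0
    [[k1,k0,k1,k0,k0],[k1,k1,k1,k0,k0],[k0,k2,k0,k0,k0],[k0,k0,k0,k1,k1]]
    [.ref k5 k0 [(z1,[z1])],.ref k1 k0 [(z1,[z1])],.contra [z1],.ref k0 k0 [(z1,[y1,z1])]])]⟩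

/-- classes `0 0 1 2 1`, types `S0 S0 C0 C0 C2` -/
noncomputable def cU5_233 : CertX :=
  ⟨[k0,k0,k20,k36,k22],[],[[[]]],
    [.old (.lp [k6,k8,k6,k6,k6] [k1,k1,k0,k0,k1,k1,k1,k1,k1,k1] k0 [] k24 k5
    [[(k7,k6),(k8,k6)],[(k0,k6),(k5,k6),(k2,k7),(k3,k7)],[(k0,k7),(k5,k7),(k2,k8),(k3,k8)],[(k0,k7),(k5,k7),(k2,k8),
    (k3,k8)],[(k0,k6),(k5,k6),(k2,k7),(k3,k7)],[(k7,k6),(k8,k6)],[(k1,k6),(k4,k6)],[(k9,k6)],[(k6,k6)],[(k1,k6),(k4,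
    k6)]]
    [] k0
    [[k0,k2,k0,k0,k0]]
    [.contra [z1]])]⟩

/-- classes `0 0 1 2 1`, types `S0 S0 C0 S0 C0` -/
noncomputable def cU5_234 : CertX :=
  ⟨[k0,k0,k20,k32,k20],[(false,k0,[k0,k1,k2,k3,k4])],[[[([z1,z1,z1,z0,z0],z1)],[([z1,z1,z1,z0,z0],z2)],[([z1,z0,z1,z0,
    z0],z2),([z0,z3,z0,z0,z0],z1)],[([z1,z0,z1,z0,z0],z2),([z0,z3,z0,z0,z0],z2)],[([z1,z0,z1,z0,z0],z2),([z0,z2,z0,z0,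
    z0],z1)],[([z1,z0,z1,z0,z0],z2)],[]]],
    [.old (.leafM k0 [k0,k1,k2] [] [(k3,k4,z1,[y1,z1]),(k4,k3,z1,[y1,z1])]),
    .old (.leafM k1 [k2,k3,k4,k0,k1] [(z1,[y1,z1])] []),
    .old (.leafM k4 [k4,k1,k3] [(z1,[z0,z1]),(z1,[y3,y1,z3])] [(k0,k2,z1,[z1]),(k2,k0,z1,[z1])]),
    .old (.leafM k2 [k4,k1,k3] [(z1,[z0,z1]),(z1,[y3,y1,z3])] [(k0,k2,z1,[z1]),(k2,k0,z1,[z1])]),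
    .old (.leafM k3 [k4,k1,k3] [(z1,[z0,z1]),(z1,[y2,y1,z2])] [(k0,k2,z1,[z1]),(k2,k0,z1,[z1])]),
    .old (.lp [(nat_lit 280),k154,(nat_lit 490),k110,k110] [k105,k105,k168,k168,k0,k0,k190,k190,k190,
    k190] k0 [] (nat_lit 770) k8
    [[(k8,k195),(k4,(nat_lit 385))],[(k2,(nat_lit 217)),(k3,(nat_lit 217)),(k0,(nat_lit 280)),(k5,(nat_lit 385))],
    [(k2,k154),(k3,k154),(k0,(nat_lit 217)),(k5,(nat_lit 322))],[(k2,k154),(k3,k154),(k0,(nat_lit 217)),(k5,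
    (nat_lit 322))],[(k2,(nat_lit 322)),(k3,(nat_lit 322)),(k0,(nat_lit 385)),(k5,(nat_lit 490))],[(k7,(nat_lit 300)),
    (k1,(nat_lit 385))],[(k8,k110),(k4,(nat_lit 300))],[(k6,k110),(k9,k110)],[(k6,k110),(k9,k110)],[(k7,k110),(k1,
    k195)]]
    [] k0
    [[k0,k2,k0,k0,k0],[k0,k3,k0,k0,k0],[k0,k4,k0,k0,k0],[k0,k0,k0,k1,k1],[k0,k0,k0,k2,k2],[k0,k0,k0,k3,k3]]
    [.contra [z1],.ref k3 k0 [(z1,[z0,z1]),(z1,[z1])],.ref k4 k0 [(z1,[z0,z1]),(z2,[z1])],.contra [y2,y1,z2],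
    .contra [y1,y2,z2],.ref k2 k0 [(z1,[z0,z1]),(z1,[y1,y3,z3])]]),
    .old (.lp [k6,k8,k6,k6,k6] [k1,k1,k0,k0,k1,k1,k1,k1,k1,k1] k0 [] k24 k5
    [[(k4,k6),(k8,k6)],[(k0,k6),(k5,k6),(k2,k7),(k3,k7)],[(k0,k7),(k5,k7),(k2,k8),(k3,k8)],[(k0,k7),(k5,k7),(k2,k8),
    (k3,k8)],[(k0,k6),(k5,k6),(k2,k7),(k3,k7)],[(k1,k6),(k7,k6)],[(k4,k6),(k8,k6)],[(k6,k6),(k9,k6)],[(k6,k6),(k9,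
    k6)],[(k1,k6),(k7,k6)]]
    [] k0
    [[k1,k0,k1,k0,k0],[k1,k1,k1,k0,k0],[k0,k2,k0,k0,k0],[k0,k0,k0,k1,k1]]
    [.ref k5 k0 [(z1,[z1])],.ref k1 k0 [(z1,[z1])],.contra [z1],.ref k0 k0 [(z1,[y1,z1])]])]⟩

/-- classes `0 0 1 2 1`, types `S0 S0 C0 S0 C2` -/
noncomputable def cU5_235 : CertX :=
  ⟨[k0,k0,k20,k32,k22],[],[[[]]],
    [.old (.lp [k6,k8,k6,k6,k6] [k1,k1,k0,k0,k1,k1,k1,k1,k1,k1] k0 [] k24 k5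
    [[(k7,k6),(k8,k6)],[(k0,k6),(k5,k6),(k2,k7),(k3,k7)],[(k0,k7),(k5,k7),(k2,k8),(k3,k8)],[(k0,k7),(k5,k7),(k2,k8),
    (k3,k8)],[(k0,k6),(k5,k6),(k2,k7),(k3,k7)],[(k7,k6),(k8,k6)],[(k1,k6),(k4,k6)],[(k6,k6),(k9,k6)],[(k6,k6),(k9,
    k6)],[(k1,k6),(k4,k6)]]
    [] k0
    [[k0,k2,k0,k0,k0]]
    [.contra [z1]])]⟩

/-- classes `0 0 1 2 1`, types `S0 S0 N0 C0 N1` -/
noncomputable def cU5_236 : CertX :=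
  ⟨[k0,k0,k28,k36,k29],[(false,k0,[k0,k1,k2,k3,k4])],[[[([z1,z1,z1,z0,z0],z1)],[([z1,z1,z1,z0,z0],z2)],[([z1,z0,z1,z0,
    z0],z2),([z0,z3,z0,z0,z0],z1)],[([z1,z0,z1,z0,z0],z2),([z0,z3,z0,z0,z0],z2)],[([z1,z0,z1,z0,z0],z2),([z0,z2,z0,z0,
    z0],z1)],[([z1,z0,z1,z0,z0],z2)],[]]],
    [.old (.leafM k0 [k0,k1,k2] [] [(k3,k4,z1,[y1,z1]),(k4,k3,z1,[y1,z1])]),
    .old (.leafM k1 [k2,k3,k4,k0,k1] [(z1,[y1,z1])] []),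
    .old (.leafM k4 [k4,k1,k3] [(z1,[z0,z1]),(z1,[y3,y1,z3])] [(k0,k2,z1,[z1]),(k2,k0,z1,[z1])]),
    .old (.leafM k2 [k4,k1,k3] [(z1,[z0,z1]),(z1,[y3,y1,z3])] [(k0,k2,z1,[z1]),(k2,k0,z1,[z1])]),
    .old (.leafM k3 [k4,k1,k3] [(z1,[z0,z1]),(z1,[y2,y1,z2])] [(k0,k2,z1,[z1]),(k2,k0,z1,[z1])]),
    .old (.lp [k60,k14,k10,k20,k0] [k0,k0,k23,k23,k25,k25,k20,k20,k30,k30] k0 [] k70 k8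
    [[(k4,k35)],[(k5,k35),(k2,k37),(k3,k37),(k0,k60)],[(k5,k12),(k2,k14),(k3,k14),(k0,k37)],[(k5,k12),(k2,k14),(k3,
    k14),(k0,k37)],[(k5,k10),(k2,k12),(k3,k12),(k0,k35)],[(k1,k35)],[(k8,k10)],[(k9,k10)],[(k6,k10)],[(k7,k10)]]
    [] k0
    [[k0,k2,k0,k0,k0],[k0,k3,k0,k0,k0],[k0,k4,k0,k0,k0],[k0,k0,k0,k1,k1],[k0,k0,k0,k2,k2],[k0,k0,k0,k3,k3]]
    [.contra [z1],.ref k3 k0 [(z1,[z0,z1]),(z1,[z1])],.ref k4 k0 [(z1,[z0,z1]),(z2,[z1])],.contra [y2,y1,z2],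
    .contra [y1,y2,z2],.ref k2 k0 [(z1,[z0,z1]),(z1,[y1,y3,z3])]]),
    .old (.lp [k6,k8,k6,k12,k0] [k3,k3,k2,k2,k3,k3,k0,k0,k6,k6] k0 [] k24 k5
    [[(k4,k6)],[(k0,k6),(k5,k6),(k2,k7),(k3,k7)],[(k0,k7),(k5,k7),(k2,k8),(k3,k8)],[(k0,k7),(k5,k7),(k2,k8),(k3,k8)],
    [(k0,k6),(k5,k6),(k2,k7),(k3,k7)],[(k1,k6)],[(k8,k6)],[(k9,k6)],[(k6,k6)],[(k7,k6)]]
    [] k0
    [[k1,k0,k1,k0,k0],[k1,k1,k1,k0,k0],[k0,k2,k0,k0,k0],[k0,k0,k0,k1,k1]]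
    [.ref k5 k0 [(z1,[z1])],.ref k1 k0 [(z1,[z1])],.contra [z1],.ref k0 k0 [(z1,[y1,z1])]])]⟩

/-- classes `0 0 1 2 1`, types `S0 S0 N0 C0 N2` -/
noncomputable def cU5_237 : CertX :=
  ⟨[k0,k0,k28,k36,k30],[],[[[]]],
    [.old (.lp [k6,k8,k6,k6,k6] [k1,k1,k0,k0,k1,k1,k1,k1,k1,k1] k0 [] k24 k5
    [[(k7,k6)],[(k0,k6),(k5,k6),(k2,k7),(k3,k7)],[(k0,k7),(k5,k7),(k2,k8),(k3,k8)],[(k0,k7),(k5,k7),(k2,k8),(k3,k8)],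
    [(k0,k6),(k5,k6),(k2,k7),(k3,k7)],[(k8,k6)],[(k1,k6)],[(k9,k6)],[(k6,k6)],[(k4,k6)]]
    [] k0
    [[k0,k2,k0,k0,k0]]
    [.contra [z1]])]⟩

/-- classes `0 0 1 2 1`, types `S0 S0 N0 S0 N1` -/
noncomputable def cU5_238 : CertX :=
  ⟨[k0,k0,k28,k32,k29],[(false,k0,[k0,k1,k2,k3,k4])],[[[([z1,z1,z1,z0,z0],z1)],[([z1,z1,z1,z0,z0],z2)],[([z1,z0,z1,z0,
    z0],z2),([z0,z3,z0,z0,z0],z1)],[([z1,z0,z1,z0,z0],z2),([z0,z3,z0,z0,z0],z2)],[([z1,z0,z1,z0,z0],z2),([z0,z2,z0,z0,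
    z0],z1)],[([z1,z0,z1,z0,z0],z2)],[]]],
    [.old (.leafM k0 [k0,k1,k2] [] [(k3,k4,z1,[y1,z1]),(k4,k3,z1,[y1,z1])]),
    .old (.leafM k1 [k2,k3,k4,k0,k1] [(z1,[y1,z1])] []),
    .old (.leafM k4 [k4,k1,k3] [(z1,[z0,z1]),(z1,[y3,y1,z3])] [(k0,k2,z1,[z1]),(k2,k0,z1,[z1])]),
    .old (.leafM k2 [k4,k1,k3] [(z1,[z0,z1]),(z1,[y3,y1,z3])] [(k0,k2,z1,[z1]),(k2,k0,z1,[z1])]),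
    .old (.leafM k3 [k4,k1,k3] [(z1,[z0,z1]),(z1,[y2,y1,z2])] [(k0,k2,z1,[z1]),(k2,k0,z1,[z1])]),
    .old (.lp [k10,k14,k60,k10,k10] [k25,k25,k23,k23,k0,k0,k25,k25,k25,k25] k0 [] k70 k8
    [[(k4,k35)],[(k0,k10),(k2,k12),(k3,k12),(k5,k35)],[(k0,k12),(k2,k14),(k3,k14),(k5,k37)],[(k0,k12),(k2,k14),(k3,
    k14),(k5,k37)],[(k0,k35),(k2,k37),(k3,k37),(k5,k60)],[(k1,k35)],[(k8,k10)],[(k6,k10),(k9,k10)],[(k6,k10),(k9,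
    k10)],[(k7,k10)]]
    [] k0
    [[k0,k2,k0,k0,k0],[k0,k3,k0,k0,k0],[k0,k4,k0,k0,k0],[k0,k0,k0,k1,k1],[k0,k0,k0,k2,k2],[k0,k0,k0,k3,k3]]
    [.contra [z1],.ref k3 k0 [(z1,[z0,z1]),(z1,[z1])],.ref k4 k0 [(z1,[z0,z1]),(z2,[z1])],.contra [y2,y1,z2],
    .contra [y1,y2,z2],.ref k2 k0 [(z1,[z0,z1]),(z1,[y1,y3,z3])]]),
    .old (.lp [k6,k8,k6,k6,k6] [k1,k1,k0,k0,k1,k1,k1,k1,k1,k1] k0 [] k24 k5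
    [[(k4,k6)],[(k0,k6),(k5,k6),(k2,k7),(k3,k7)],[(k0,k7),(k5,k7),(k2,k8),(k3,k8)],[(k0,k7),(k5,k7),(k2,k8),(k3,k8)],
    [(k0,k6),(k5,k6),(k2,k7),(k3,k7)],[(k1,k6)],[(k8,k6)],[(k6,k6),(k9,k6)],[(k6,k6),(k9,k6)],[(k7,k6)]]
    [] k0
    [[k1,k0,k1,k0,k0],[k1,k1,k1,k0,k0],[k0,k2,k0,k0,k0],[k0,k0,k0,k1,k1]]
    [.ref k5 k0 [(z1,[z1])],.ref k1 k0 [(z1,[z1])],.contra [z1],.ref k0 k0 [(z1,[y1,z1])]])]⟩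

/-- classes `0 0 1 2 1`, types `S0 S0 N0 S0 N2` -/
noncomputable def cU5_239 : CertX :=
  ⟨[k0,k0,k28,k32,k30],[],[[[]]],
    [.old (.lp [k6,k8,k6,k6,k6] [k1,k1,k0,k0,k1,k1,k1,k1,k1,k1] k0 [] k24 k5
    [[(k7,k6)],[(k0,k6),(k5,k6),(k2,k7),(k3,k7)],[(k0,k7),(k5,k7),(k2,k8),(k3,k8)],[(k0,k7),(k5,k7),(k2,k8),(k3,k8)],
    [(k0,k6),(k5,k6),(k2,k7),(k3,k7)],[(k8,k6)],[(k1,k6)],[(k6,k6),(k9,k6)],[(k6,k6),(k9,k6)],[(k4,k6)]]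
    [] k0
    [[k0,k2,k0,k0,k0]]
    [.contra [z1]])]⟩

/-- classes `0 0 1 2 1`, types `S0 S0 S0 C0 S0` -/
noncomputable def cU5_240 : CertX :=
  ⟨[k0,k0,k16,k36,k16],[(false,k0,[k0,k1,k2,k3,k4])],[[[([z1,z1,z1,z0,z0],z1)],[([z1,z1,z1,z0,z0],z2)],[([z1,z0,z1,z0,
    z0],z2),([z0,z3,z0,z0,z0],z1)],[([z1,z0,z1,z0,z0],z2),([z0,z3,z0,z0,z0],z2)],[([z1,z0,z1,z0,z0],z2),([z0,z2,z0,z0,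
    z0],z1)],[([z1,z0,z1,z0,z0],z2)],[]]],
    [.old (.leafM k0 [k0,k1,k2] [] [(k3,k4,z1,[y1,z1]),(k4,k3,z1,[y1,z1])]),
    .old (.leafM k0 [k3,k4,k0,k1,k2] [(z1,[y1,z1])] []),
    .old (.leafM k4 [k4,k1,k3] [(z1,[z0,z1]),(z1,[y3,y1,z3])] [(k0,k2,z1,[z1]),(k2,k0,z1,[z1])]),
    .old (.leafM k2 [k4,k1,k3] [(z1,[z0,z1]),(z1,[y3,y1,z3])] [(k0,k2,z1,[z1]),(k2,k0,z1,[z1])]),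
    .old (.leafM k3 [k4,k1,k3] [(z1,[z0,z1]),(z1,[y2,y1,z2])] [(k0,k2,z1,[z1]),(k2,k0,z1,[z1])]),
    .old (.lp [k70,k28,k70,k20,k20] [k0,k0,k21,k21,k0,k0,k25,k25,k25,k25] k0 [] k140 k8
    [[(k7,k45),(k8,k45),(k1,k70),(k4,k70)],[(k2,k49),(k3,k49),(k0,k70),(k5,k70)],[(k2,k28),(k3,k28),(k0,k49),(k5,
    k49)],[(k2,k28),(k3,k28),(k0,k49),(k5,k49)],[(k2,k49),(k3,k49),(k0,k70),(k5,k70)],[(k7,k45),(k8,k45),(k1,k70),(k4,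
    k70)],[(k7,k20),(k8,k20),(k1,k45),(k4,k45)],[(k9,k20)],[(k6,k20)],[(k7,k20),(k8,k20),(k1,k45),(k4,k45)]]
    [] k0
    [[k0,k2,k0,k0,k0],[k0,k3,k0,k0,k0],[k0,k4,k0,k0,k0],[k0,k0,k0,k3,k3],[k0,k0,k0,k2,k2],[k0,k0,k0,k1,k1]]
    [.contra [z1],.ref k3 k0 [(z1,[z0,z1]),(z1,[z1])],.ref k4 k0 [(z1,[z0,z1]),(z2,[z1])],.ref k2 k0 [(z1,[z0,z1]),
    (z1,[y1,y3,z3])],.contra [y1,y2,z2],.contra [y2,y1,z2]]),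
    .old (.lp [(nat_lit 360),(nat_lit 552),(nat_lit 552),(nat_lit 276),(nat_lit 276)] [k96,k96,k0,k0,k0,k0,k138,k138,k138,
    k138] k0 [[],[k0,k0,k115],[k0,k0,k0,(nat_lit 276)],[k115],[k0,k0,k0,k0,k0,k0,k0,k0,k0,k115],[],[],[],[k0,k0,k0,k0,
    k0,k115]] (nat_lit 1380) k6
    [[(k8,(nat_lit 318)),(k1,(nat_lit 360)),(k7,(nat_lit 433)),(k4,(nat_lit 456))],[(k0,(nat_lit 360)),(k3,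
    (nat_lit 456)),(k5,(nat_lit 456)),(k2,(nat_lit 571))],[(k5,(nat_lit 437)),(k0,(nat_lit 456)),(k2,(nat_lit 552)),
    (k3,(nat_lit 552))],[(k2,(nat_lit 276)),(k3,(nat_lit 552)),(k5,(nat_lit 552)),(k0,(nat_lit 571))],[(k3,
    (nat_lit 437)),(k0,(nat_lit 456)),(k2,(nat_lit 552)),(k5,(nat_lit 828))],[(k8,(nat_lit 299)),(k7,(nat_lit 414)),
    (k1,(nat_lit 456)),(k4,(nat_lit 552))],[(k7,(nat_lit 276)),(k8,(nat_lit 276)),(k4,(nat_lit 414)),(k1,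
    (nat_lit 433))],[(k9,(nat_lit 276))],[(k6,(nat_lit 276))],[(k7,(nat_lit 276)),(k8,(nat_lit 276)),(k4,
    (nat_lit 299)),(k1,(nat_lit 318))]]
    [] k0
    [[k2,k0,k0,k0,k0],[k1,k0,k1,k0,k0],[k0,k2,k0,k0,k0],[k0,k0,k0,k2,k2],[k0,k0,k0,k1,k1]]
    [.contra [z1],.ref k5 k0 [(z1,[z1])],.contra [z1],.ref k1 k0 [(z2,[y1,z2])],.ref k0 k0 [(z1,[y1,z1])]])]⟩

/-- classes `0 0 1 2 3`, types `B0 B1 C0 C0 C0` -/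
noncomputable def cU5_241 : CertX :=
  ⟨[k8,k9,k20,k36,k52],[],[[[]]],
    [.old (.lp [k4,k4,k2,k4,k2] [k0,k0,k0,k0,k1,k1,k0,k0,k1,k1] k0 [] k12 k5
    [[(k8,k3)],[(k5,k3),(k2,k4)],[(k5,k3),(k2,k4)],[(k0,k4),(k3,k4)],[(k0,k3),(k3,k3)],[(k7,k3)],[(k4,k3)],[(k9,k3)],
    [(k6,k3)],[(k1,k3)]]
    [] k0
    [[k0,k2,k0,k0,k0]]
    [.contra [z1]])]⟩

/-- classes `0 0 1 2 3`, types `B0 B1 C0 C0 S0` -/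
noncomputable def cU5_242 : CertX :=
  ⟨[k8,k9,k20,k36,k48],[],[[[]]],
    [.old (.lp [k6,k8,k6,k6,k6] [k1,k1,k0,k0,k1,k1,k1,k1,k1,k1] k0 [] k24 k5
    [[(k1,k6),(k8,k6)],[(k5,k6),(k2,k7)],[(k5,k7),(k2,k8)],[(k0,k7),(k3,k8)],[(k0,k6),(k3,k7)],[(k7,k6)],[(k4,k6)],
    [(k9,k6)],[(k6,k6)],[(k1,k6),(k8,k6)]]
    [] k0
    [[k0,k2,k0,k0,k0]]
    [.contra [z1]])]⟩

/-- classes `0 0 1 2 3`, types `B0 B1 C0 S0 C0` -/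
noncomputable def cU5_243 : CertX :=
  ⟨[k8,k9,k20,k32,k52],[],[[[]]],
    [.old (.lp [k6,k8,k6,k6,k6] [k1,k1,k0,k0,k1,k1,k1,k1,k1,k1] k0 [] k24 k5
    [[(k8,k6)],[(k5,k6),(k2,k7)],[(k5,k7),(k2,k8)],[(k0,k7),(k3,k8)],[(k0,k6),(k3,k7)],[(k7,k6)],[(k4,k6)],[(k6,k6),
    (k9,k6)],[(k6,k6),(k9,k6)],[(k1,k6)]]
    [] k0
    [[k0,k2,k0,k0,k0]]
    [.contra [z1]])]⟩

/-- classes `0 0 1 2 3`, types `B0 B1 C0 S0 S0` -/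
noncomputable def cU5_244 : CertX :=
  ⟨[k8,k9,k20,k32,k48],[],[[[]]],
    [.old (.lp [k6,k8,k6,k6,k6] [k1,k1,k0,k0,k1,k1,k1,k1,k1,k1] k0 [] k24 k5
    [[(k1,k6),(k8,k6)],[(k5,k6),(k2,k7)],[(k5,k7),(k2,k8)],[(k0,k7),(k3,k8)],[(k0,k6),(k3,k7)],[(k7,k6)],[(k4,k6)],
    [(k6,k6),(k9,k6)],[(k6,k6),(k9,k6)],[(k1,k6),(k8,k6)]]
    [] k0
    [[k0,k2,k0,k0,k0],[k0,k0,k0,k0,k2]]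
    [.contra [z1],.contra [z1]])]⟩

/-- classes `0 0 1 2 3`, types `B0 B1 S0 C0 S0` -/
noncomputable def cU5_245 : CertX :=
  ⟨[k8,k9,k16,k36,k48],[],[[[]]],
    [.old (.lp [k6,k8,k6,k6,k6] [k1,k1,k0,k0,k1,k1,k1,k1,k1,k1] k0 [] k24 k5
    [[(k1,k6),(k8,k6)],[(k5,k6),(k2,k7)],[(k5,k7),(k2,k8)],[(k0,k7),(k3,k8)],[(k0,k6),(k3,k7)],[(k4,k6),(k7,k6)],[(k4,
    k6),(k7,k6)],[(k9,k6)],[(k6,k6)],[(k1,k6),(k8,k6)]]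
    [] k0
    [[k0,k2,k0,k0,k0]]
    [.contra [z1]])]⟩

/-- classes `0 0 1 2 3`, types `B0 B1 S0 S0 S0` -/
noncomputable def cU5_246 : CertX :=
  ⟨[k8,k9,k16,k32,k48],[],[[[]]],
    [.old (.lp [k6,k8,k6,k6,k6] [k1,k1,k0,k0,k1,k1,k1,k1,k1,k1] k0 [] k24 k5
    [[(k1,k6),(k8,k6)],[(k5,k6),(k2,k7)],[(k5,k7),(k2,k8)],[(k0,k7),(k3,k8)],[(k0,k6),(k3,k7)],[(k4,k6),(k7,k6)],[(k4,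
    k6),(k7,k6)],[(k6,k6),(k9,k6)],[(k6,k6),(k9,k6)],[(k1,k6),(k8,k6)]]
    [] k0
    [[k0,k2,k0,k0,k0],[k0,k0,k0,k2,k0],[k0,k0,k0,k0,k2]]
    [.contra [z1],.contra [z1],.contra [z1]])]⟩

/-- classes `0 0 1 2 3`, types `C0 C0 C0 C0 C0` -/
noncomputable def cU5_247 : CertX :=
  ⟨[k4,k4,k20,k36,k52],[],[[[]]],
    [.old (.lp [k2,k4,k4,k2,k4] [k1,k1,k0,k0,k0,k0,k1,k1,k0,k0] k0 [] k12 k5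
    [[(k8,k3)],[(k3,k3),(k5,k3)],[(k0,k3),(k2,k4)],[(k3,k4),(k5,k4)],[(k0,k3),(k2,k4)],[(k7,k3)],[(k4,k3)],[(k9,k3)],
    [(k6,k3)],[(k1,k3)]]
    [] k0
    [[k0,k2,k0,k0,k0]]
    [.contra [z1]])]⟩

/-- classes `0 0 1 2 3`, types `C0 C0 C0 C0 S0` -/
noncomputable def cU5_248 : CertX :=
  ⟨[k4,k4,k20,k36,k48],[],[[[]]],
    [.old (.lp [k6,k8,k6,k6,k6] [k1,k1,k0,k0,k1,k1,k1,k1,k1,k1] k0 [] k24 k5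
    [[(k1,k6),(k8,k6)],[(k5,k6),(k3,k7)],[(k0,k7),(k2,k8)],[(k5,k7),(k3,k8)],[(k0,k6),(k2,k7)],[(k7,k6)],[(k4,k6)],
    [(k9,k6)],[(k6,k6)],[(k1,k6),(k8,k6)]]
    [] k0
    [[k0,k2,k0,k0,k0]]
    [.contra [z1]])]⟩

/-- classes `0 0 1 2 3`, types `C0 C0 C0 S0 C0` -/
noncomputable def cU5_249 : CertX :=
  ⟨[k4,k4,k20,k32,k52],[],[[[]]],
    [.old (.lp [k6,k8,k6,k6,k6] [k1,k1,k0,k0,k1,k1,k1,k1,k1,k1] k0 [] k24 k5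
    [[(k8,k6)],[(k5,k6),(k3,k7)],[(k0,k7),(k2,k8)],[(k5,k7),(k3,k8)],[(k0,k6),(k2,k7)],[(k7,k6)],[(k4,k6)],[(k6,k6),
    (k9,k6)],[(k6,k6),(k9,k6)],[(k1,k6)]]
    [] k0
    [[k0,k2,k0,k0,k0]]
    [.contra [z1]])]⟩

/-- classes `0 0 1 2 3`, types `C0 C0 C0 S0 S0` -/
noncomputable def cU5_250 : CertX :=
  ⟨[k4,k4,k20,k32,k48],[],[[[]]],
    [.old (.lp [k6,k8,k6,k6,k6] [k1,k1,k0,k0,k1,k1,k1,k1,k1,k1] k0 [] k24 k5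
    [[(k1,k6),(k8,k6)],[(k5,k6),(k3,k7)],[(k0,k7),(k2,k8)],[(k5,k7),(k3,k8)],[(k0,k6),(k2,k7)],[(k7,k6)],[(k4,k6)],
    [(k6,k6),(k9,k6)],[(k6,k6),(k9,k6)],[(k1,k6),(k8,k6)]]
    [] k0
    [[k0,k2,k0,k0,k0],[k0,k0,k0,k0,k2]]
    [.contra [z1],.contra [z1]])]⟩

/-- classes `0 0 1 2 3`, types `C0 C0 S0 C0 S0` -/
noncomputable def cU5_251 : CertX :=
  ⟨[k4,k4,k16,k36,k48],[],[[[]]],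
    [.old (.lp [k6,k8,k6,k6,k6] [k1,k1,k0,k0,k1,k1,k1,k1,k1,k1] k0 [] k24 k5
    [[(k1,k6),(k8,k6)],[(k5,k6),(k3,k7)],[(k0,k7),(k2,k8)],[(k5,k7),(k3,k8)],[(k0,k6),(k2,k7)],[(k4,k6),(k7,k6)],[(k4,
    k6),(k7,k6)],[(k9,k6)],[(k6,k6)],[(k1,k6),(k8,k6)]]
    [] k0
    [[k0,k2,k0,k0,k0]]
    [.contra [z1]])]⟩

/-- classes `0 0 1 2 3`, types `C0 C0 S0 S0 S0` -/
noncomputable def cU5_252 : CertX :=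
  ⟨[k4,k4,k16,k32,k48],[],[[[]]],
    [.old (.lp [k6,k8,k6,k6,k6] [k1,k1,k0,k0,k1,k1,k1,k1,k1,k1] k0 [] k24 k5
    [[(k1,k6),(k8,k6)],[(k5,k6),(k3,k7)],[(k0,k7),(k2,k8)],[(k5,k7),(k3,k8)],[(k0,k6),(k2,k7)],[(k4,k6),(k7,k6)],[(k4,
    k6),(k7,k6)],[(k6,k6),(k9,k6)],[(k6,k6),(k9,k6)],[(k1,k6),(k8,k6)]]
    [] k0
    [[k0,k2,k0,k0,k0],[k0,k0,k0,k2,k0],[k0,k0,k0,k0,k2]]
    [.contra [z1],.contra [z1],.contra [z1]])]⟩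

/-- classes `0 0 1 2 3`, types `C0 C2 C0 C0 C0` -/
noncomputable def cU5_253 : CertX :=
  ⟨[k4,k6,k20,k36,k52],[],[[[]]],
    [.old (.lp [k2,k2,k2,k2,k2] [k0,k0,k0,k0,k0,k0,k0,k0,k0,k0] k0 [] k8 k5
    [[(k8,k2)],[(k2,k2),(k3,k2)],[(k0,k2),(k5,k2)],[(k0,k2),(k5,k2)],[(k2,k2),(k3,k2)],[(k7,k2)],[(k4,k2)],[(k9,k2)],
    [(k6,k2)],[(k1,k2)]]
    [] k0
    []
    [])]⟩

/-- classes `0 0 1 2 3`, types `C0 C2 C0 C0 S0` -/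
noncomputable def cU5_254 : CertX :=
  ⟨[k4,k6,k20,k36,k48],[],[[[]]],
    [.old (.lp [k6,k4,k4,k4,k4] [k0,k0,k1,k1,k1,k1,k1,k1,k1,k1] k0 [] k16 k5
    [[(k8,k5),(k1,k6)],[(k2,k5),(k3,k5)],[(k5,k4),(k0,k5)],[(k5,k4),(k0,k5)],[(k2,k4),(k3,k4)],[(k7,k4)],[(k4,k4)],
    [(k9,k4)],[(k6,k4)],[(k8,k4),(k1,k5)]]
    [] k0
    []
    [])]⟩

/-- classes `0 0 1 2 3`, types `C0 C2 C0 S0 C0` -/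
noncomputable def cU5_255 : CertX :=
  ⟨[k4,k6,k20,k32,k52],[],[[[]]],
    [.old (.lp [k2,k2,k2,k2,k2] [k0,k0,k0,k0,k0,k0,k0,k0,k0,k0] k0 [] k8 k5
    [[(k8,k2)],[(k2,k2),(k3,k2)],[(k0,k2),(k5,k2)],[(k0,k2),(k5,k2)],[(k2,k2),(k3,k2)],[(k7,k2)],[(k4,k2)],[(k6,k2),
    (k9,k2)],[(k6,k2),(k9,k2)],[(k1,k2)]]
    [] k0
    []
    [])]⟩

/-- classes `0 0 1 2 3`, types `C0 C2 C0 S0 S0` -/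
noncomputable def cU5_256 : CertX :=
  ⟨[k4,k6,k20,k32,k48],[],[[[]]],
    [.old (.lp [k6,k4,k4,k4,k4] [k0,k0,k1,k1,k1,k1,k1,k1,k1,k1] k0 [] k16 k5
    [[(k8,k5),(k1,k6)],[(k2,k5),(k3,k5)],[(k5,k4),(k0,k5)],[(k5,k4),(k0,k5)],[(k2,k4),(k3,k4)],[(k7,k4)],[(k4,k4)],
    [(k6,k4),(k9,k4)],[(k6,k4),(k9,k4)],[(k8,k4),(k1,k5)]]
    [] k0
    [[k0,k0,k0,k0,k2]]
    [.contra [z1]])]⟩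

/-- classes `0 0 1 2 3`, types `C0 C2 S0 C0 S0` -/
noncomputable def cU5_257 : CertX :=
  ⟨[k4,k6,k16,k36,k48],[(false,k0,[k0,k1,k2,k3,k4])],[[[([z1,z1,z1,z0,z0],z2)],[]]],
    [.old (.leafM k0 [k3,k4,k0,k1,k2] [(z1,[y1,z1])] []),
    .old (.lp [k10,k0,k10,k4,k4] [k0,k0,k5,k5,k0,k0,k3,k3,k3,k3] k0 [] k20 k6
    [[(k8,k7),(k1,k10)],[(k2,k5),(k3,k5)],[(k0,k5),(k5,k5)],[(k0,k5),(k5,k5)],[(k2,k5),(k3,k5)],[(k7,k7),(k4,k10)],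
    [(k7,k4),(k4,k7)],[(k9,k4)],[(k6,k4)],[(k8,k4),(k1,k7)]]
    [] k0
    [[k0,k0,k0,k2,k2]]
    [.ref k0 k0 [(z2,[y1,z2])]])]⟩

/-- classes `0 0 1 2 3`, types `C0 C2 S0 S0 S0` -/
noncomputable def cU5_258 : CertX :=
  ⟨[k4,k6,k16,k32,k48],[(false,k0,[k0,k1,k2,k3,k4]),(true,k2,[k2,k1,k0,k4,k3])],[[[([z1,z1,z1,z0,z0],z2)],[([z1,z0,y1,
    y1,y1],y1)],[]]],
    [.old (.leafM k0 [k3,k4,k0,k1,k2] [(z1,[y1,z1])] []),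
    .old (.lp [k6,k4,k4,k4,k4] [k0,k0,k1,k1,k1,k1,k1,k1,k1,k1] k0 [] k16 k5
    [[(k8,k5),(k1,k6)],[(k2,k5),(k3,k5)],[(k5,k4),(k0,k5)],[(k5,k4),(k0,k5)],[(k2,k4),(k3,k4)],[(k4,k4),(k7,k4)],[(k4,
    k4),(k7,k4)],[(k6,k4),(k9,k4)],[(k6,k4),(k9,k4)],[(k8,k4),(k1,k5)]]
    [] k0
    [[k0,k1,k2,k0,k0],[k0,k0,k0,k2,k0],[k0,k0,k0,k0,k2]]
    [.ref k0 k0 [(z2,[z1,z1,z1])],.contra [z1],.contra [z1]]),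
    .old (.lp [k6,k4,k4,k4,k4] [k0,k0,k1,k1,k1,k1,k1,k1,k1,k1] k0 [] k16 k5
    [[(k8,k5),(k1,k6)],[(k2,k5),(k3,k5)],[(k5,k4),(k0,k5)],[(k5,k4),(k0,k5)],[(k2,k4),(k3,k4)],[(k4,k4),(k7,k4)],[(k4,
    k4),(k7,k4)],[(k6,k4),(k9,k4)],[(k6,k4),(k9,k4)],[(k8,k4),(k1,k5)]]
    [] k0
    [[k0,k1,k2,k0,k0],[k0,k0,k0,k2,k0],[k0,k0,k0,k0,k2]]
    [.ref k1 k1 [(z1,[z1,y1])],.contra [z1],.contra [z1]])]⟩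

/-- classes `0 0 1 2 3`, types `N0 N1 C0 C0 C0` -/
noncomputable def cU5_259 : CertX :=
  ⟨[k12,k13,k20,k36,k52],[],[[[]]],
    [.old (.lp [k0,k4,k6,k0,k6] [k3,k3,k1,k1,k0,k0,k3,k3,k0,k0] k0 [] k12 k5
    [[(k8,k3)],[(k5,k3)],[(k2,k4)],[(k3,k4)],[(k0,k3)],[(k7,k3)],[(k4,k3)],[(k9,k3)],[(k6,k3)],[(k1,k3)]]
    [] k0
    [[k0,k2,k0,k0,k0]]
    [.contra [z1]])]⟩

/-- classes `0 0 1 2 3`, types `N0 N1 C0 C0 S0` -/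
noncomputable def cU5_260 : CertX :=
  ⟨[k12,k13,k20,k36,k48],[],[[[]]],
    [.old (.lp [k6,k8,k6,k6,k6] [k1,k1,k0,k0,k1,k1,k1,k1,k1,k1] k0 [] k24 k5
    [[(k1,k6),(k8,k6)],[(k5,k6)],[(k2,k8)],[(k3,k8)],[(k0,k6)],[(k7,k6)],[(k4,k6)],[(k9,k6)],[(k6,k6)],[(k1,k6),(k8,
    k6)]]
    [] k0
    [[k0,k2,k0,k0,k0]]
    [.contra [z1]])]⟩

/-- classes `0 0 1 2 3`, types `N0 N1 C0 S0 C0` -/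
noncomputable def cU5_261 : CertX :=
  ⟨[k12,k13,k20,k32,k52],[],[[[]]],
    [.old (.lp [k6,k8,k6,k6,k6] [k1,k1,k0,k0,k1,k1,k1,k1,k1,k1] k0 [] k24 k5
    [[(k8,k6)],[(k5,k6)],[(k2,k8)],[(k3,k8)],[(k0,k6)],[(k7,k6)],[(k4,k6)],[(k6,k6),(k9,k6)],[(k6,k6),(k9,k6)],[(k1,
    k6)]]
    [] k0
    [[k0,k2,k0,k0,k0]]
    [.contra [z1]])]⟩

/-- classes `0 0 1 2 3`, types `N0 N1 C0 S0 S0` -/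
noncomputable def cU5_262 : CertX :=
  ⟨[k12,k13,k20,k32,k48],[],[[[]]],
    [.old (.lp [k6,k8,k6,k6,k6] [k1,k1,k0,k0,k1,k1,k1,k1,k1,k1] k0 [] k24 k5
    [[(k1,k6),(k8,k6)],[(k5,k6)],[(k2,k8)],[(k3,k8)],[(k0,k6)],[(k7,k6)],[(k4,k6)],[(k6,k6),(k9,k6)],[(k6,k6),(k9,
    k6)],[(k1,k6),(k8,k6)]]
    [] k0
    [[k0,k2,k0,k0,k0],[k0,k0,k0,k0,k2]]
    [.contra [z1],.contra [z1]])]⟩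

/-- classes `0 0 1 2 3`, types `N0 N1 S0 C0 S0` -/
noncomputable def cU5_263 : CertX :=
  ⟨[k12,k13,k16,k36,k48],[],[[[]]],
    [.old (.lp [k6,k8,k6,k6,k6] [k1,k1,k0,k0,k1,k1,k1,k1,k1,k1] k0 [] k24 k5
    [[(k1,k6),(k8,k6)],[(k5,k6)],[(k2,k8)],[(k3,k8)],[(k0,k6)],[(k4,k6),(k7,k6)],[(k4,k6),(k7,k6)],[(k9,k6)],[(k6,
    k6)],[(k1,k6),(k8,k6)]]
    [] k0
    [[k0,k2,k0,k0,k0]]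
    [.contra [z1]])]⟩

/-- classes `0 0 1 2 3`, types `N0 N1 S0 S0 S0` -/
noncomputable def cU5_264 : CertX :=
  ⟨[k12,k13,k16,k32,k48],[],[[[]]],
    [.old (.lp [k6,k8,k6,k6,k6] [k1,k1,k0,k0,k1,k1,k1,k1,k1,k1] k0 [] k24 k5
    [[(k1,k6),(k8,k6)],[(k5,k6)],[(k2,k8)],[(k3,k8)],[(k0,k6)],[(k4,k6),(k7,k6)],[(k4,k6),(k7,k6)],[(k6,k6),(k9,k6)],
    [(k6,k6),(k9,k6)],[(k1,k6),(k8,k6)]]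
    [] k0
    [[k0,k2,k0,k0,k0],[k0,k0,k0,k2,k0],[k0,k0,k0,k0,k2]]
    [.contra [z1],.contra [z1],.contra [z1]])]⟩

/-- classes `0 0 1 2 3`, types `N0 N2 C0 C0 C0` -/
noncomputable def cU5_265 : CertX :=
  ⟨[k12,k14,k20,k36,k52],[],[[[]]],
    [.old (.lp [k2,k2,k2,k2,k2] [k0,k0,k0,k0,k0,k0,k0,k0,k0,k0] k0 [] k8 k5
    [[(k8,k2)],[(k2,k2)],[(k5,k2)],[(k0,k2)],[(k3,k2)],[(k7,k2)],[(k4,k2)],[(k9,k2)],[(k6,k2)],[(k1,k2)]]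
    [] k0
    []
    [])]⟩

/-- classes `0 0 1 2 3`, types `N0 N2 C0 C0 S0` -/
noncomputable def cU5_266 : CertX :=
  ⟨[k12,k14,k20,k36,k48],[],[[[]]],
    [.old (.lp [k2,k2,k2,k2,k2] [k0,k0,k0,k0,k0,k0,k0,k0,k0,k0] k0 [] k8 k5
    [[(k1,k2),(k8,k2)],[(k2,k2)],[(k5,k2)],[(k0,k2)],[(k3,k2)],[(k7,k2)],[(k4,k2)],[(k9,k2)],[(k6,k2)],[(k1,k2),(k8,
    k2)]]
    [] k0
    []
    [])]⟩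

/-- classes `0 0 1 2 3`, types `N0 N2 C0 S0 C0` -/
noncomputable def cU5_267 : CertX :=
  ⟨[k12,k14,k20,k32,k52],[],[[[]]],
    [.old (.lp [k2,k2,k2,k2,k2] [k0,k0,k0,k0,k0,k0,k0,k0,k0,k0] k0 [] k8 k5
    [[(k8,k2)],[(k2,k2)],[(k5,k2)],[(k0,k2)],[(k3,k2)],[(k7,k2)],[(k4,k2)],[(k6,k2),(k9,k2)],[(k6,k2),(k9,k2)],[(k1,
    k2)]]
    [] k0
    []
    [])]⟩

/-- classes `0 0 1 2 3`, types `N0 N2 C0 S0 S0` -/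
noncomputable def cU5_268 : CertX :=
  ⟨[k12,k14,k20,k32,k48],[],[[[]]],
    [.old (.lp [k2,k2,k2,k2,k2] [k0,k0,k0,k0,k0,k0,k0,k0,k0,k0] k0 [] k8 k5
    [[(k1,k2),(k8,k2)],[(k2,k2)],[(k5,k2)],[(k0,k2)],[(k3,k2)],[(k7,k2)],[(k4,k2)],[(k6,k2),(k9,k2)],[(k6,k2),(k9,
    k2)],[(k1,k2),(k8,k2)]]
    [] k0
    [[k0,k0,k0,k0,k2]]
    [.contra [z1]])]⟩

/-- classes `0 0 1 2 3`, types `N0 N2 S0 C0 S0` -/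
noncomputable def cU5_269 : CertX :=
  ⟨[k12,k14,k16,k36,k48],[],[[[]]],
    [.old (.lp [k2,k2,k2,k2,k2] [k0,k0,k0,k0,k0,k0,k0,k0,k0,k0] k0 [] k8 k5
    [[(k1,k2),(k8,k2)],[(k2,k2)],[(k5,k2)],[(k0,k2)],[(k3,k2)],[(k4,k2),(k7,k2)],[(k4,k2),(k7,k2)],[(k9,k2)],[(k6,
    k2)],[(k1,k2),(k8,k2)]]
    [] k0
    []
    [])]⟩

/-- classes `0 0 1 2 3`, types `N0 N2 S0 S0 S0` -/
noncomputable def cU5_270 : CertX :=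
  ⟨[k12,k14,k16,k32,k48],[],[[[]]],
    [.old (.lp [k2,k2,k2,k2,k2] [k0,k0,k0,k0,k0,k0,k0,k0,k0,k0] k0 [] k8 k5
    [[(k1,k2),(k8,k2)],[(k2,k2)],[(k5,k2)],[(k0,k2)],[(k3,k2)],[(k4,k2),(k7,k2)],[(k4,k2),(k7,k2)],[(k6,k2),(k9,k2)],
    [(k6,k2),(k9,k2)],[(k1,k2),(k8,k2)]]
    [] k0
    [[k0,k0,k0,k2,k0],[k0,k0,k0,k0,k2]]
    [.contra [z1],.contra [z1]])]⟩

/-- classes `0 0 1 2 3`, types `S0 S0 C0 C0 C0` -/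
noncomputable def cU5_271 : CertX :=
  ⟨[k0,k0,k20,k36,k52],[],[[[]]],
    [.old (.lp [k6,k8,k6,k6,k6] [k1,k1,k0,k0,k1,k1,k1,k1,k1,k1] k0 [] k24 k5
    [[(k8,k6)],[(k0,k6),(k5,k6),(k2,k7),(k3,k7)],[(k0,k7),(k5,k7),(k2,k8),(k3,k8)],[(k0,k7),(k5,k7),(k2,k8),(k3,k8)],
    [(k0,k6),(k5,k6),(k2,k7),(k3,k7)],[(k7,k6)],[(k4,k6)],[(k9,k6)],[(k6,k6)],[(k1,k6)]]
    [] k0
    [[k0,k2,k0,k0,k0]]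
    [.contra [z1]])]⟩

/-- classes `0 0 1 2 3`, types `S0 S0 C0 C0 S0` -/
noncomputable def cU5_272 : CertX :=
  ⟨[k0,k0,k20,k36,k48],[],[[[]]],
    [.old (.lp [k8,k8,k6,k6,k6] [k0,k0,k0,k0,k1,k1,k1,k1,k1,k1] k0 [] k24 k5
    [[(k8,k7),(k1,k8)],[(k5,k7),(k0,k8),(k2,k8),(k3,k8)],[(k5,k7),(k0,k8),(k2,k8),(k3,k8)],[(k5,k7),(k0,k8),(k2,k8),
    (k3,k8)],[(k5,k6),(k0,k7),(k2,k7),(k3,k7)],[(k7,k6)],[(k4,k6)],[(k9,k6)],[(k6,k6)],[(k8,k6),(k1,k7)]]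
    [] k0
    [[k2,k0,k0,k0,k0],[k0,k2,k0,k0,k0]]
    [.contra [z1],.contra [z1]])]⟩

/-- classes `0 0 1 2 3`, types `S0 S0 C0 S0 C0` -/
noncomputable def cU5_273 : CertX :=
  ⟨[k0,k0,k20,k32,k52],[],[[[]]],
    [.old (.lp [k6,k8,k6,k6,k6] [k1,k1,k0,k0,k1,k1,k1,k1,k1,k1] k0 [] k24 k5
    [[(k8,k6)],[(k0,k6),(k5,k6),(k2,k7),(k3,k7)],[(k0,k7),(k5,k7),(k2,k8),(k3,k8)],[(k0,k7),(k5,k7),(k2,k8),(k3,k8)],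
    [(k0,k6),(k5,k6),(k2,k7),(k3,k7)],[(k7,k6)],[(k4,k6)],[(k6,k6),(k9,k6)],[(k6,k6),(k9,k6)],[(k1,k6)]]
    [] k0
    [[k0,k2,k0,k0,k0]]
    [.contra [z1]])]⟩

/-- classes `0 0 1 2 3`, types `S0 S0 C0 S0 S0` -/
noncomputable def cU5_274 : CertX :=
  ⟨[k0,k0,k20,k32,k48],[],[[[]]],
    [.old (.lp [k8,k8,k6,k6,k6] [k0,k0,k0,k0,k1,k1,k1,k1,k1,k1] k0 [] k24 k5
    [[(k8,k7),(k1,k8)],[(k5,k7),(k0,k8),(k2,k8),(k3,k8)],[(k5,k7),(k0,k8),(k2,k8),(k3,k8)],[(k5,k7),(k0,k8),(k2,k8),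
    (k3,k8)],[(k5,k6),(k0,k7),(k2,k7),(k3,k7)],[(k7,k6)],[(k4,k6)],[(k6,k6),(k9,k6)],[(k6,k6),(k9,k6)],[(k8,k6),(k1,
    k7)]]
    [] k0
    [[k2,k0,k0,k0,k0],[k0,k2,k0,k0,k0],[k0,k0,k0,k0,k2]]
    [.contra [z1],.contra [z1],.contra [z1]])]⟩

/-- classes `0 0 1 2 3`, types `S0 S0 S0 C0 S0` -/
noncomputable def cU5_275 : CertX :=
  ⟨[k0,k0,k16,k36,k48],[(false,k0,[k0,k1,k2,k3,k4])],[[[([z1,z1,z1,z0,z0],z2)],[]]],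
    [.old (.leafM k0 [k3,k4,k0,k1,k2] [(z1,[y1,z1])] []),
    .old (.lp [k10,k20,k10,k8,k8] [k5,k5,k0,k0,k5,k5,k6,k6,k6,k6] k0 [] k40 k6
    [[(k8,k9),(k1,k10)],[(k0,k10),(k5,k10),(k2,k15),(k3,k15)],[(k0,k15),(k5,k15),(k2,k20),(k3,k20)],[(k0,k15),(k5,
    k15),(k2,k20),(k3,k20)],[(k0,k10),(k5,k10),(k2,k15),(k3,k15)],[(k7,k9),(k4,k10)],[(k7,k8),(k4,k9)],[(k9,k8)],[(k6,
    k8)],[(k8,k8),(k1,k9)]]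
    [] k0
    [[k2,k0,k0,k0,k0],[k1,k0,k1,k1,k1],[k0,k0,k2,k0,k0],[k0,k0,k0,k2,k2]]
    [.contra [z1],.contra [y1,z1],.contra [z1],.ref k0 k0 [(z2,[y1,z2])]])]⟩

/-- classes `0 1 0 1 2`, types `B0 B0 B1 B1 C0` -/
noncomputable def cU5_276 : CertX :=
  ⟨[k8,k24,k9,k25,k36],[(false,k0,[k0,k1,k2,k3,k4])],[[[([z1,z0,z1,z0,z1],z1)],[([z1,z0,z1,z0,z1],z2)],[]]],
    [.old (.leafM k1 [k4,k0,k2] [] [(k1,k3,z1,[y1,z1]),(k3,k1,z1,[y1,z1])]),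
    .old (.leafM k2 [k0,k1,k2,k3,k4] [(z1,[y1,z1])] []),
    .old (.lp [k2,k2,k2,k2,k2] [k0,k0,k0,k0,k0,k0,k0,k0,k0,k0] k0 [] k8 k5
    [[(k8,k2)],[(k4,k2),(k7,k2)],[(k4,k2),(k7,k2)],[(k6,k2),(k9,k2)],[(k6,k2),(k9,k2)],[(k0,k2),(k3,k2)],[(k0,k2),(k3,
    k2)],[(k2,k2),(k5,k2)],[(k2,k2),(k5,k2)],[(k1,k2)]]
    [] k0
    [[k1,k0,k1,k0,k1],[k0,k1,k0,k1,k0]]
    [.ref k1 k0 [(z1,[z1])],.ref k0 k0 [(z1,[y1,z1])]])]⟩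

/-- classes `0 1 0 1 2`, types `B0 B0 B1 B1 S0` -/
noncomputable def cU5_277 : CertX :=
  ⟨[k8,k24,k9,k25,k32],[(false,k0,[k0,k1,k2,k3,k4])],[[[([z1,z0,z1,z0,z1],z1)],[([z1,z0,z1,z0,z1],z2)],[]]],
    [.old (.leafM k1 [k4,k0,k2] [] [(k1,k3,z1,[y1,z1]),(k3,k1,z1,[y1,z1])]),
    .old (.leafM k2 [k0,k1,k2,k3,k4] [(z1,[y1,z1])] []),
    .old (.lp [k2,k2,k2,k2,k2] [k0,k0,k0,k0,k0,k0,k0,k0,k0,k0] k0 [] k8 k5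
    [[(k1,k2),(k8,k2)],[(k4,k2),(k7,k2)],[(k4,k2),(k7,k2)],[(k6,k2),(k9,k2)],[(k6,k2),(k9,k2)],[(k0,k2),(k3,k2)],[(k0,
    k2),(k3,k2)],[(k2,k2),(k5,k2)],[(k2,k2),(k5,k2)],[(k1,k2),(k8,k2)]]
    [] k0
    [[k1,k0,k1,k0,k1],[k0,k1,k0,k1,k0]]
    [.ref k1 k0 [(z1,[z1])],.ref k0 k0 [(z1,[y1,z1])]])]⟩

/-- classes `0 1 0 1 2`, types `B0 C0 B1 C0 C0` -/
noncomputable def cU5_278 : CertX :=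
  ⟨[k8,k20,k9,k20,k36],[(false,k0,[k0,k1,k2,k3,k4])],[[[([z1,z0,z0,z1,z1],z1)],[([z1,z0,z0,z1,z1],z2)],[]]],
    [.old (.leafM k0 [k0,k3,k4] [] [(k1,k2,z1,[y1,z1]),(k2,k1,z1,[y1,z1])]),
    .old (.leafM k1 [k0,k1,k2,k3,k4] [(z1,[y1,z1])] []),
    .old (.lp [k2,k2,k2,k2,k2] [k0,k0,k0,k0,k0,k0,k0,k0,k0,k0] k0 [] k8 k5
    [[(k8,k2)],[(k4,k2),(k7,k2)],[(k4,k2),(k7,k2)],[(k5,k2),(k9,k2)],[(k2,k2),(k6,k2)],[(k0,k2),(k3,k2)],[(k0,k2),(k3,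
    k2)],[(k5,k2),(k9,k2)],[(k2,k2),(k6,k2)],[(k1,k2)]]
    [] k0
    [[k1,k0,k0,k1,k1],[k0,k1,k1,k0,k0]]
    [.ref k1 k0 [(z1,[z1])],.ref k0 k0 [(z1,[y1,z1])]])]⟩

/-- classes `0 1 0 1 2`, types `B0 C0 B1 C0 S0` -/
noncomputable def cU5_279 : CertX :=
  ⟨[k8,k20,k9,k20,k32],[(false,k0,[k0,k1,k2,k3,k4])],[[[([z1,z0,z0,z1,z1],z1)],[([z1,z0,z0,z1,z1],z2)],[]]],
    [.old (.leafM k0 [k0,k3,k4] [] [(k1,k2,z1,[y1,z1]),(k2,k1,z1,[y1,z1])]),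
    .old (.leafM k1 [k0,k1,k2,k3,k4] [(z1,[y1,z1])] []),
    .old (.lp [k2,k2,k2,k2,k2] [k0,k0,k0,k0,k0,k0,k0,k0,k0,k0] k0 [] k8 k5
    [[(k1,k2),(k8,k2)],[(k4,k2),(k7,k2)],[(k4,k2),(k7,k2)],[(k5,k2),(k9,k2)],[(k2,k2),(k6,k2)],[(k0,k2),(k3,k2)],[(k0,
    k2),(k3,k2)],[(k5,k2),(k9,k2)],[(k2,k2),(k6,k2)],[(k1,k2),(k8,k2)]]
    [] k0
    [[k1,k0,k0,k1,k1],[k0,k1,k1,k0,k0]]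
    [.ref k1 k0 [(z1,[z1])],.ref k0 k0 [(z1,[y1,z1])]])]⟩

/-- classes `0 1 0 1 2`, types `B0 C0 B1 C2 C0` -/
noncomputable def cU5_280 : CertX :=
  ⟨[k8,k20,k9,k22,k36],[(false,k0,[k0,k1,k2,k3,k4])],[[[([z1,z0,z1,z0,z1],z1)],[([z1,z0,z0,z1,z1],z1)],[([z1,z0,z0,z1,
    z1],z2)],[([z1,z0,z1,z0,z1],z2)],[]]],
    [.old (.leafM k1 [k4,k0,k2] [] [(k1,k3,z1,[y1,z1]),(k3,k1,z1,[y1,z1])]),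
    .old (.leafM k0 [k0,k3,k4] [] [(k1,k2,z1,[y1,z1]),(k2,k1,z1,[y1,z1])]),
    .old (.leafM k1 [k0,k1,k2,k3,k4] [(z1,[y1,z1])] []),
    .old (.leafM k2 [k0,k1,k2,k3,k4] [(z1,[y1,z1])] []),
    .old (.lp [k2,k2,k2,k2,k2] [k0,k0,k0,k0,k0,k0,k0,k0,k0,k0] k0 [] k8 k5
    [[(k8,k2)],[(k4,k2),(k7,k2)],[(k4,k2),(k7,k2)],[(k5,k2),(k6,k2)],[(k2,k2),(k9,k2)],[(k0,k2),(k3,k2)],[(k0,k2),(k3,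
    k2)],[(k2,k2),(k9,k2)],[(k5,k2),(k6,k2)],[(k1,k2)]]
    [] k0
    [[k1,k0,k1,k0,k1],[k1,k0,k0,k1,k1],[k0,k1,k1,k0,k0],[k0,k1,k0,k1,k0]]
    [.ref k3 k0 [(z1,[z1])],.ref k2 k0 [(z1,[z1])],.ref k1 k0 [(z1,[y1,z1])],.ref k0 k0 [(z1,[y1,z1])]])]⟩

/-- classes `0 1 0 1 2`, types `B0 C0 B1 C2 S0` -/
noncomputable def cU5_281 : CertX :=
  ⟨[k8,k20,k9,k22,k32],[(false,k0,[k0,k1,k2,k3,k4])],[[[([z1,z0,z1,z0,z1],z1)],[([z1,z0,z0,z1,z1],z1)],[([z1,z0,z0,z1,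
    z1],z2)],[([z1,z0,z1,z0,z1],z2)],[]]],
    [.old (.leafM k1 [k4,k0,k2] [] [(k1,k3,z1,[y1,z1]),(k3,k1,z1,[y1,z1])]),
    .old (.leafM k0 [k0,k3,k4] [] [(k1,k2,z1,[y1,z1]),(k2,k1,z1,[y1,z1])]),
    .old (.leafM k1 [k0,k1,k2,k3,k4] [(z1,[y1,z1])] []),
    .old (.leafM k2 [k0,k1,k2,k3,k4] [(z1,[y1,z1])] []),
    .old (.lp [k2,k2,k2,k2,k2] [k0,k0,k0,k0,k0,k0,k0,k0,k0,k0] k0 [] k8 k5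
    [[(k1,k2),(k8,k2)],[(k4,k2),(k7,k2)],[(k4,k2),(k7,k2)],[(k5,k2),(k6,k2)],[(k2,k2),(k9,k2)],[(k0,k2),(k3,k2)],[(k0,
    k2),(k3,k2)],[(k2,k2),(k9,k2)],[(k5,k2),(k6,k2)],[(k1,k2),(k8,k2)]]
    [] k0
    [[k1,k0,k1,k0,k1],[k1,k0,k0,k1,k1],[k0,k1,k1,k0,k0],[k0,k1,k0,k1,k0]]
    [.ref k3 k0 [(z1,[z1])],.ref k2 k0 [(z1,[z1])],.ref k1 k0 [(z1,[y1,z1])],.ref k0 k0 [(z1,[y1,z1])]])]⟩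

/-- classes `0 1 0 1 2`, types `B0 N0 B1 N1 C0` -/
noncomputable def cU5_282 : CertX :=
  ⟨[k8,k28,k9,k29,k36],[],[[[]]],
    [.old (.lp [k2,k2,k2,k2,k2] [k0,k0,k0,k0,k0,k0,k0,k0,k0,k0] k0 [] k8 k5
    [[(k8,k2)],[(k4,k2),(k7,k2)],[(k4,k2),(k7,k2)],[(k9,k2)],[(k6,k2)],[(k0,k2),(k3,k2)],[(k0,k2),(k3,k2)],[(k5,k2)],
    [(k2,k2)],[(k1,k2)]]
    [] k0
    []
    [])]⟩

/-- classes `0 1 0 1 2`, types `B0 N0 B1 N1 S0` -/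
noncomputable def cU5_283 : CertX :=
  ⟨[k8,k28,k9,k29,k32],[],[[[]]],
    [.old (.lp [k2,k2,k2,k2,k2] [k0,k0,k0,k0,k0,k0,k0,k0,k0,k0] k0 [] k8 k5
    [[(k1,k2),(k8,k2)],[(k4,k2),(k7,k2)],[(k4,k2),(k7,k2)],[(k9,k2)],[(k6,k2)],[(k0,k2),(k3,k2)],[(k0,k2),(k3,k2)],
    [(k5,k2)],[(k2,k2)],[(k1,k2),(k8,k2)]]
    [] k0
    []
    [])]⟩

/-- classes `0 1 0 1 2`, types `B0 N0 B1 N2 C0` -/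
noncomputable def cU5_284 : CertX :=
  ⟨[k8,k28,k9,k30,k36],[(false,k0,[k0,k1,k2,k3,k4])],[[[([z1,z0,z1,z0,z1],z1)],[([z1,z0,z1,z0,z1],z2)],[]]],
    [.old (.leafM k1 [k4,k0,k2] [] [(k1,k3,z1,[y1,z1]),(k3,k1,z1,[y1,z1])]),
    .old (.leafM k2 [k0,k1,k2,k3,k4] [(z1,[y1,z1])] []),
    .old (.lp [k2,k2,k2,k2,k2] [k0,k0,k0,k0,k0,k0,k0,k0,k0,k0] k0 [] k8 k5
    [[(k8,k2)],[(k4,k2),(k7,k2)],[(k4,k2),(k7,k2)],[(k6,k2)],[(k9,k2)],[(k0,k2),(k3,k2)],[(k0,k2),(k3,k2)],[(k2,k2)],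
    [(k5,k2)],[(k1,k2)]]
    [] k0
    [[k1,k0,k1,k0,k1],[k0,k1,k0,k1,k0]]
    [.ref k1 k0 [(z1,[z1])],.ref k0 k0 [(z1,[y1,z1])]])]⟩

/-- classes `0 1 0 1 2`, types `B0 N0 B1 N2 S0` -/
noncomputable def cU5_285 : CertX :=
  ⟨[k8,k28,k9,k30,k32],[(false,k0,[k0,k1,k2,k3,k4])],[[[([z1,z0,z1,z0,z1],z1)],[([z1,z0,z1,z0,z1],z2)],[]]],
    [.old (.leafM k1 [k4,k0,k2] [] [(k1,k3,z1,[y1,z1]),(k3,k1,z1,[y1,z1])]),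
    .old (.leafM k2 [k0,k1,k2,k3,k4] [(z1,[y1,z1])] []),
    .old (.lp [k2,k2,k2,k2,k2] [k0,k0,k0,k0,k0,k0,k0,k0,k0,k0] k0 [] k8 k5
    [[(k1,k2),(k8,k2)],[(k4,k2),(k7,k2)],[(k4,k2),(k7,k2)],[(k6,k2)],[(k9,k2)],[(k0,k2),(k3,k2)],[(k0,k2),(k3,k2)],
    [(k2,k2)],[(k5,k2)],[(k1,k2),(k8,k2)]]
    [] k0
    [[k1,k0,k1,k0,k1],[k0,k1,k0,k1,k0]]
    [.ref k1 k0 [(z1,[z1])],.ref k0 k0 [(z1,[y1,z1])]])]⟩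

/-- classes `0 1 0 1 2`, types `B0 S0 B1 S0 C0` -/
noncomputable def cU5_286 : CertX :=
  ⟨[k8,k16,k9,k16,k36],[(false,k0,[k0,k1,k2,k3,k4])],[[[([z1,z0,z1,z0,z1],z1)],[([z1,z0,z0,z1,z1],z1)],[([z1,z0,z0,z1,
    z1],z2)],[([z1,z0,z1,z0,z1],z2)],[]]],
    [.old (.leafM k1 [k4,k0,k2] [] [(k1,k3,z1,[y1,z1]),(k3,k1,z1,[y1,z1])]),
    .old (.leafM k0 [k0,k3,k4] [] [(k1,k2,z1,[y1,z1]),(k2,k1,z1,[y1,z1])]),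
    .old (.leafM k1 [k0,k1,k2,k3,k4] [(z1,[y1,z1])] []),
    .old (.leafM k2 [k0,k1,k2,k3,k4] [(z1,[y1,z1])] []),
    .old (.lp [k2,k2,k2,k2,k2] [k0,k0,k0,k0,k0,k0,k0,k0,k0,k0] k0 [] k8 k5
    [[(k8,k2)],[(k4,k2),(k7,k2)],[(k4,k2),(k7,k2)],[(k2,k2),(k5,k2),(k6,k2),(k9,k2)],[(k2,k2),(k5,k2),(k6,k2),(k9,
    k2)],[(k0,k2),(k3,k2)],[(k0,k2),(k3,k2)],[(k2,k2),(k5,k2),(k6,k2),(k9,k2)],[(k2,k2),(k5,k2),(k6,k2),(k9,k2)],[(k1,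
    k2)]]
    [] k0
    [[k1,k0,k1,k0,k1],[k1,k0,k0,k1,k1],[k0,k1,k1,k0,k0],[k0,k1,k0,k1,k0]]
    [.ref k3 k0 [(z1,[z1])],.ref k2 k0 [(z1,[z1])],.ref k1 k0 [(z1,[y1,z1])],.ref k0 k0 [(z1,[y1,z1])]])]⟩

/-- classes `0 1 0 1 2`, types `B0 S0 B1 S0 S0` -/
noncomputable def cU5_287 : CertX :=
  ⟨[k8,k16,k9,k16,k32],[(false,k0,[k0,k1,k2,k3,k4])],[[[([z1,z0,z1,z0,z1],z1)],[([z1,z0,z0,z1,z1],z1)],[([z1,z0,z0,z1,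
    z1],z2)],[([z1,z0,z1,z0,z1],z2)],[]]],
    [.old (.leafM k1 [k4,k0,k2] [] [(k1,k3,z1,[y1,z1]),(k3,k1,z1,[y1,z1])]),
    .old (.leafM k0 [k0,k3,k4] [] [(k1,k2,z1,[y1,z1]),(k2,k1,z1,[y1,z1])]),
    .old (.leafM k1 [k0,k1,k2,k3,k4] [(z1,[y1,z1])] []),
    .old (.leafM k2 [k0,k1,k2,k3,k4] [(z1,[y1,z1])] []),
    .old (.lp [k2,k2,k2,k2,k2] [k0,k0,k0,k0,k0,k0,k0,k0,k0,k0] k0 [] k8 k5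
    [[(k1,k2),(k8,k2)],[(k4,k2),(k7,k2)],[(k4,k2),(k7,k2)],[(k2,k2),(k5,k2),(k6,k2),(k9,k2)],[(k2,k2),(k5,k2),(k6,k2),
    (k9,k2)],[(k0,k2),(k3,k2)],[(k0,k2),(k3,k2)],[(k2,k2),(k5,k2),(k6,k2),(k9,k2)],[(k2,k2),(k5,k2),(k6,k2),(k9,k2)],
    [(k1,k2),(k8,k2)]]
    [] k0
    [[k1,k0,k1,k0,k1],[k1,k0,k0,k1,k1],[k0,k1,k1,k0,k0],[k0,k1,k0,k1,k0],[k0,k0,k0,k0,k2]]
    [.ref k3 k0 [(z1,[z1])],.ref k2 k0 [(z1,[z1])],.ref k1 k0 [(z1,[y1,z1])],.ref k0 k0 [(z1,[y1,z1])],.contra [z1]])]⟩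

/-- classes `0 1 0 1 2`, types `C0 C0 C0 C0 C0` -/
noncomputable def cU5_288 : CertX :=
  ⟨[k4,k20,k4,k20,k36],[(true,k4,[k4,k3,k2,k1,k0]),(false,k0,[k0,k1,k2,k3,k4])],[[[([z1,z0,z0,z1,z1],z1)],[([z1,z0,z0,
    z1,z1],z2)],[]]],
    [.old (.leafM k0 [k0,k3,k4] [] [(k1,k2,z1,[y1,z1]),(k2,k1,z1,[y1,z1])]),
    .old (.leafM k1 [k0,k1,k2,k3,k4] [(z1,[y1,z1])] []),
    .old (.lp [k2,k2,k2,k2,k2] [k0,k0,k0,k0,k0,k0,k0,k0,k0,k0] k0 [] k8 k5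
    [[(k8,k2)],[(k3,k2),(k7,k2)],[(k0,k2),(k4,k2)],[(k5,k2),(k9,k2)],[(k2,k2),(k6,k2)],[(k3,k2),(k7,k2)],[(k0,k2),(k4,
    k2)],[(k5,k2),(k9,k2)],[(k2,k2),(k6,k2)],[(k1,k2)]]
    [] k0
    [[k1,k1,k0,k0,k1],[k1,k0,k0,k1,k1],[k0,k1,k1,k0,k0],[k0,k0,k1,k1,k0]]
    [.ref k1 k0 [(z1,[z1])],.ref k1 k1 [(z1,[z1])],.ref k0 k1 [(z1,[y1,z1])],.ref k0 k0 [(z1,[y1,z1])]])]⟩

/-- classes `0 1 0 1 2`, types `C0 C0 C0 C0 S0` -/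
noncomputable def cU5_289 : CertX :=
  ⟨[k4,k20,k4,k20,k32],[(true,k4,[k4,k3,k2,k1,k0]),(false,k0,[k0,k1,k2,k3,k4])],[[[([z1,z0,z0,z1,z1],z1)],[([z1,z0,z0,
    z1,z1],z2)],[]]],
    [.old (.leafM k0 [k0,k3,k4] [] [(k1,k2,z1,[y1,z1]),(k2,k1,z1,[y1,z1])]),
    .old (.leafM k1 [k0,k1,k2,k3,k4] [(z1,[y1,z1])] []),
    .old (.lp [k2,k2,k2,k2,k2] [k0,k0,k0,k0,k0,k0,k0,k0,k0,k0] k0 [] k8 k5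
    [[(k1,k2),(k8,k2)],[(k3,k2),(k7,k2)],[(k0,k2),(k4,k2)],[(k5,k2),(k9,k2)],[(k2,k2),(k6,k2)],[(k3,k2),(k7,k2)],[(k0,
    k2),(k4,k2)],[(k5,k2),(k9,k2)],[(k2,k2),(k6,k2)],[(k1,k2),(k8,k2)]]
    [] k0
    [[k1,k1,k0,k0,k1],[k1,k0,k0,k1,k1],[k0,k1,k1,k0,k0],[k0,k0,k1,k1,k0]]
    [.ref k1 k0 [(z1,[z1])],.ref k1 k1 [(z1,[z1])],.ref k0 k1 [(z1,[y1,z1])],.ref k0 k0 [(z1,[y1,z1])]])]⟩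

/-- classes `0 1 0 1 2`, types `C0 C0 C0 C2 C0` -/
noncomputable def cU5_290 : CertX :=
  ⟨[k4,k20,k4,k22,k36],[(false,k0,[k0,k1,k2,k3,k4])],[[[([z1,z0,z0,z1,z1],z1)],[([z1,z0,z0,z1,z1],z2)],[]]],
    [.old (.leafM k0 [k0,k3,k4] [] [(k1,k2,z1,[y1,z1]),(k2,k1,z1,[y1,z1])]),
    .old (.leafM k1 [k0,k1,k2,k3,k4] [(z1,[y1,z1])] []),
    .old (.lp [k2,k2,k2,k2,k2] [k0,k0,k0,k0,k0,k0,k0,k0,k0,k0] k0 [] k8 k5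
    [[(k8,k2)],[(k3,k2),(k7,k2)],[(k0,k2),(k4,k2)],[(k5,k2),(k6,k2)],[(k2,k2),(k9,k2)],[(k3,k2),(k7,k2)],[(k0,k2),(k4,
    k2)],[(k2,k2),(k9,k2)],[(k5,k2),(k6,k2)],[(k1,k2)]]
    [] k0
    [[k1,k0,k0,k1,k1],[k0,k1,k1,k0,k0]]
    [.ref k1 k0 [(z1,[z1])],.ref k0 k0 [(z1,[y1,z1])]])]⟩

/-- classes `0 1 0 1 2`, types `C0 C0 C0 C2 S0` -/
noncomputable def cU5_291 : CertX :=
  ⟨[k4,k20,k4,k22,k32],[(false,k0,[k0,k1,k2,k3,k4])],[[[([z1,z0,z0,z1,z1],z1)],[([z1,z0,z0,z1,z1],z2)],[]]],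
    [.old (.leafM k0 [k0,k3,k4] [] [(k1,k2,z1,[y1,z1]),(k2,k1,z1,[y1,z1])]),
    .old (.leafM k1 [k0,k1,k2,k3,k4] [(z1,[y1,z1])] []),
    .old (.lp [k2,k2,k2,k2,k2] [k0,k0,k0,k0,k0,k0,k0,k0,k0,k0] k0 [] k8 k5
    [[(k1,k2),(k8,k2)],[(k3,k2),(k7,k2)],[(k0,k2),(k4,k2)],[(k5,k2),(k6,k2)],[(k2,k2),(k9,k2)],[(k3,k2),(k7,k2)],[(k0,
    k2),(k4,k2)],[(k2,k2),(k9,k2)],[(k5,k2),(k6,k2)],[(k1,k2),(k8,k2)]]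
    [] k0
    [[k1,k0,k0,k1,k1],[k0,k1,k1,k0,k0]]
    [.ref k1 k0 [(z1,[z1])],.ref k0 k0 [(z1,[y1,z1])]])]⟩

/-- classes `0 1 0 1 2`, types `C0 C0 C2 C2 C0` -/
noncomputable def cU5_292 : CertX :=
  ⟨[k4,k20,k6,k22,k36],[(false,k0,[k0,k1,k2,k3,k4])],[[[([z1,z0,z1,z0,z1],z1)],[([z1,z0,z1,z0,z1],z2)],[]]],
    [.old (.leafM k1 [k4,k0,k2] [] [(k1,k3,z1,[y1,z1]),(k3,k1,z1,[y1,z1])]),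
    .old (.leafM k2 [k0,k1,k2,k3,k4] [(z1,[y1,z1])] []),
    .old (.lp [k2,k2,k2,k2,k2] [k0,k0,k0,k0,k0,k0,k0,k0,k0,k0] k0 [] k8 k5
    [[(k8,k2)],[(k3,k2),(k4,k2)],[(k0,k2),(k7,k2)],[(k5,k2),(k6,k2)],[(k2,k2),(k9,k2)],[(k0,k2),(k7,k2)],[(k3,k2),(k4,
    k2)],[(k2,k2),(k9,k2)],[(k5,k2),(k6,k2)],[(k1,k2)]]
    [] k0
    [[k1,k0,k1,k0,k1],[k0,k1,k0,k1,k0]]
    [.ref k1 k0 [(z1,[z1])],.ref k0 k0 [(z1,[y1,z1])]])]⟩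

/-- classes `0 1 0 1 2`, types `C0 C0 C2 C2 S0` -/
noncomputable def cU5_293 : CertX :=
  ⟨[k4,k20,k6,k22,k32],[(false,k0,[k0,k1,k2,k3,k4])],[[[([z1,z0,z1,z0,z1],z1)],[([z1,z0,z1,z0,z1],z2)],[]]],
    [.old (.leafM k1 [k4,k0,k2] [] [(k1,k3,z1,[y1,z1]),(k3,k1,z1,[y1,z1])]),
    .old (.leafM k2 [k0,k1,k2,k3,k4] [(z1,[y1,z1])] []),
    .old (.lp [k2,k2,k2,k2,k2] [k0,k0,k0,k0,k0,k0,k0,k0,k0,k0] k0 [] k8 k5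
    [[(k1,k2),(k8,k2)],[(k3,k2),(k4,k2)],[(k0,k2),(k7,k2)],[(k5,k2),(k6,k2)],[(k2,k2),(k9,k2)],[(k0,k2),(k7,k2)],[(k3,
    k2),(k4,k2)],[(k2,k2),(k9,k2)],[(k5,k2),(k6,k2)],[(k1,k2),(k8,k2)]]
    [] k0
    [[k1,k0,k1,k0,k1],[k0,k1,k0,k1,k0]]
    [.ref k1 k0 [(z1,[z1])],.ref k0 k0 [(z1,[y1,z1])]])]⟩

/-- classes `0 1 0 1 2`, types `C0 N0 C0 N1 C0` -/
noncomputable def cU5_294 : CertX :=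
  ⟨[k4,k28,k4,k29,k36],[(false,k0,[k0,k1,k2,k3,k4])],[[[([z1,z1,z0,z0,z1],z1)],[([z1,z1,z0,z0,z1],z2)],[]]],
    [.old (.leafM k0 [k0,k1,k4] [] [(k2,k3,z1,[y1,z1]),(k3,k2,z1,[y1,z1])]),
    .old (.leafM k1 [k1,k2,k3,k4,k0] [(z1,[y1,z1])] []),
    .old (.lp [k2,k2,k2,k2,k2] [k0,k0,k0,k0,k0,k0,k0,k0,k0,k0] k0 [] k8 k5
    [[(k8,k2)],[(k3,k2),(k7,k2)],[(k0,k2),(k4,k2)],[(k9,k2)],[(k6,k2)],[(k3,k2),(k7,k2)],[(k0,k2),(k4,k2)],[(k5,k2)],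
    [(k2,k2)],[(k1,k2)]]
    [] k0
    [[k1,k1,k0,k0,k1],[k0,k0,k1,k1,k0]]
    [.ref k1 k0 [(z1,[z1])],.ref k0 k0 [(z1,[y1,z1])]])]⟩

/-- classes `0 1 0 1 2`, types `C0 N0 C0 N1 S0` -/
noncomputable def cU5_295 : CertX :=
  ⟨[k4,k28,k4,k29,k32],[(false,k0,[k0,k1,k2,k3,k4])],[[[([z1,z1,z0,z0,z1],z1)],[([z1,z1,z0,z0,z1],z2)],[]]],
    [.old (.leafM k0 [k0,k1,k4] [] [(k2,k3,z1,[y1,z1]),(k3,k2,z1,[y1,z1])]),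
    .old (.leafM k1 [k1,k2,k3,k4,k0] [(z1,[y1,z1])] []),
    .old (.lp [k2,k2,k2,k2,k2] [k0,k0,k0,k0,k0,k0,k0,k0,k0,k0] k0 [] k8 k5
    [[(k1,k2),(k8,k2)],[(k3,k2),(k7,k2)],[(k0,k2),(k4,k2)],[(k9,k2)],[(k6,k2)],[(k3,k2),(k7,k2)],[(k0,k2),(k4,k2)],
    [(k5,k2)],[(k2,k2)],[(k1,k2),(k8,k2)]]
    [] k0
    [[k1,k1,k0,k0,k1],[k0,k0,k1,k1,k0]]
    [.ref k1 k0 [(z1,[z1])],.ref k0 k0 [(z1,[y1,z1])]])]⟩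

/-- classes `0 1 0 1 2`, types `C0 N0 C0 N2 C0` -/
noncomputable def cU5_296 : CertX :=
  ⟨[k4,k28,k4,k30,k36],[],[[[]]],
    [.old (.lp [k2,k2,k2,k2,k2] [k0,k0,k0,k0,k0,k0,k0,k0,k0,k0] k0 [] k8 k5
    [[(k8,k2)],[(k3,k2),(k7,k2)],[(k0,k2),(k4,k2)],[(k6,k2)],[(k9,k2)],[(k3,k2),(k7,k2)],[(k0,k2),(k4,k2)],[(k2,k2)],
    [(k5,k2)],[(k1,k2)]]
    [] k0
    []
    [])]⟩

/-- classes `0 1 0 1 2`, types `C0 N0 C0 N2 S0` -/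
noncomputable def cU5_297 : CertX :=
  ⟨[k4,k28,k4,k30,k32],[],[[[]]],
    [.old (.lp [k2,k2,k2,k2,k2] [k0,k0,k0,k0,k0,k0,k0,k0,k0,k0] k0 [] k8 k5
    [[(k1,k2),(k8,k2)],[(k3,k2),(k7,k2)],[(k0,k2),(k4,k2)],[(k6,k2)],[(k9,k2)],[(k3,k2),(k7,k2)],[(k0,k2),(k4,k2)],
    [(k2,k2)],[(k5,k2)],[(k1,k2),(k8,k2)]]
    [] k0
    []
    [])]⟩

/-- classes `0 1 0 1 2`, types `C0 N0 C2 N1 C0` -/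
noncomputable def cU5_298 : CertX :=
  ⟨[k4,k28,k6,k29,k36],[(false,k0,[k0,k1,k2,k3,k4])],[[[([z1,z1,z0,z0,z1],z1)],[([z1,z1,z0,z0,z1],z2)],[]]],
    [.old (.leafM k0 [k0,k1,k4] [] [(k2,k3,z1,[y1,z1]),(k3,k2,z1,[y1,z1])]),
    .old (.leafM k1 [k1,k2,k3,k4,k0] [(z1,[y1,z1])] []),
    .old (.lp [k2,k2,k2,k2,k2] [k0,k0,k0,k0,k0,k0,k0,k0,k0,k0] k0 [] k8 k5
    [[(k8,k2)],[(k3,k2),(k4,k2)],[(k0,k2),(k7,k2)],[(k9,k2)],[(k6,k2)],[(k0,k2),(k7,k2)],[(k3,k2),(k4,k2)],[(k5,k2)],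
    [(k2,k2)],[(k1,k2)]]
    [] k0
    [[k1,k1,k0,k0,k1],[k0,k0,k1,k1,k0]]
    [.ref k1 k0 [(z1,[z1])],.ref k0 k0 [(z1,[y1,z1])]])]⟩

/-- classes `0 1 0 1 2`, types `C0 N0 C2 N1 S0` -/
noncomputable def cU5_299 : CertX :=
  ⟨[k4,k28,k6,k29,k32],[(false,k0,[k0,k1,k2,k3,k4])],[[[([z1,z1,z0,z0,z1],z1)],[([z1,z1,z0,z0,z1],z2)],[]]],
    [.old (.leafM k0 [k0,k1,k4] [] [(k2,k3,z1,[y1,z1]),(k3,k2,z1,[y1,z1])]),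
    .old (.leafM k1 [k1,k2,k3,k4,k0] [(z1,[y1,z1])] []),
    .old (.lp [k2,k2,k2,k2,k2] [k0,k0,k0,k0,k0,k0,k0,k0,k0,k0] k0 [] k8 k5
    [[(k1,k2),(k8,k2)],[(k3,k2),(k4,k2)],[(k0,k2),(k7,k2)],[(k9,k2)],[(k6,k2)],[(k0,k2),(k7,k2)],[(k3,k2),(k4,k2)],
    [(k5,k2)],[(k2,k2)],[(k1,k2),(k8,k2)]]
    [] k0
    [[k1,k1,k0,k0,k1],[k0,k0,k1,k1,k0]]
    [.ref k1 k0 [(z1,[z1])],.ref k0 k0 [(z1,[y1,z1])]])]⟩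

/-- classes `0 1 0 1 2`, types `C0 N0 C2 N2 C0` -/
noncomputable def cU5_300 : CertX :=
  ⟨[k4,k28,k6,k30,k36],[(false,k0,[k0,k1,k2,k3,k4])],[[[([z1,z0,z1,z0,z1],z1)],[([z1,z0,z1,z0,z1],z2)],[]]],
    [.old (.leafM k1 [k4,k0,k2] [] [(k1,k3,z1,[y1,z1]),(k3,k1,z1,[y1,z1])]),
    .old (.leafM k2 [k0,k1,k2,k3,k4] [(z1,[y1,z1])] []),
    .old (.lp [k2,k2,k2,k2,k2] [k0,k0,k0,k0,k0,k0,k0,k0,k0,k0] k0 [] k8 k5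
    [[(k8,k2)],[(k3,k2),(k4,k2)],[(k0,k2),(k7,k2)],[(k6,k2)],[(k9,k2)],[(k0,k2),(k7,k2)],[(k3,k2),(k4,k2)],[(k2,k2)],
    [(k5,k2)],[(k1,k2)]]
    [] k0
    [[k1,k0,k1,k0,k1],[k0,k1,k0,k1,k0]]
    [.ref k1 k0 [(z1,[z1])],.ref k0 k0 [(z1,[y1,z1])]])]⟩

/-- classes `0 1 0 1 2`, types `C0 N0 C2 N2 S0` -/
noncomputable def cU5_301 : CertX :=
  ⟨[k4,k28,k6,k30,k32],[(false,k0,[k0,k1,k2,k3,k4])],[[[([z1,z0,z1,z0,z1],z1)],[([z1,z0,z1,z0,z1],z2)],[]]],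
    [.old (.leafM k1 [k4,k0,k2] [] [(k1,k3,z1,[y1,z1]),(k3,k1,z1,[y1,z1])]),
    .old (.leafM k2 [k0,k1,k2,k3,k4] [(z1,[y1,z1])] []),
    .old (.lp [k2,k2,k2,k2,k2] [k0,k0,k0,k0,k0,k0,k0,k0,k0,k0] k0 [] k8 k5
    [[(k1,k2),(k8,k2)],[(k3,k2),(k4,k2)],[(k0,k2),(k7,k2)],[(k6,k2)],[(k9,k2)],[(k0,k2),(k7,k2)],[(k3,k2),(k4,k2)],
    [(k2,k2)],[(k5,k2)],[(k1,k2),(k8,k2)]]
    [] k0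
    [[k1,k0,k1,k0,k1],[k0,k1,k0,k1,k0]]
    [.ref k1 k0 [(z1,[z1])],.ref k0 k0 [(z1,[y1,z1])]])]⟩

/-- classes `0 1 0 1 2`, types `C0 S0 C0 S0 C0` -/
noncomputable def cU5_302 : CertX :=
  ⟨[k4,k16,k4,k16,k36],[(false,k0,[k0,k1,k2,k3,k4])],[[[([z1,z1,z0,z0,z1],z1)],[([z1,z0,z0,z1,z1],z1)],[([z1,z0,z0,z1,
    z1],z2)],[([z1,z1,z0,z0,z1],z2)],[]]],
    [.old (.leafM k0 [k0,k1,k4] [] [(k2,k3,z1,[y1,z1]),(k3,k2,z1,[y1,z1])]),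
    .old (.leafM k0 [k0,k3,k4] [] [(k1,k2,z1,[y1,z1]),(k2,k1,z1,[y1,z1])]),
    .old (.leafM k1 [k0,k1,k2,k3,k4] [(z1,[y1,z1])] []),
    .old (.leafM k0 [k2,k3,k4,k0,k1] [(z1,[y1,z1])] []),
    .old (.lp [k2,k2,k2,k2,k2] [k0,k0,k0,k0,k0,k0,k0,k0,k0,k0] k0 [] k8 k5
    [[(k8,k2)],[(k3,k2),(k7,k2)],[(k0,k2),(k4,k2)],[(k2,k2),(k5,k2),(k6,k2),(k9,k2)],[(k2,k2),(k5,k2),(k6,k2),(k9,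
    k2)],[(k3,k2),(k7,k2)],[(k0,k2),(k4,k2)],[(k2,k2),(k5,k2),(k6,k2),(k9,k2)],[(k2,k2),(k5,k2),(k6,k2),(k9,k2)],[(k1,
    k2)]]
    [] k0
    [[k1,k1,k0,k0,k1],[k1,k0,k0,k1,k1],[k0,k1,k1,k0,k0],[k0,k0,k1,k1,k0]]
    [.ref k3 k0 [(z1,[z1])],.ref k2 k0 [(z1,[z1])],.ref k1 k0 [(z1,[y1,z1])],.ref k0 k0 [(z1,[y1,z1])]])]⟩

/-- classes `0 1 0 1 2`, types `C0 S0 C0 S0 S0` -/
noncomputable def cU5_303 : CertX :=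
  ⟨[k4,k16,k4,k16,k32],[(false,k0,[k0,k1,k2,k3,k4])],[[[([z1,z1,z0,z0,z1],z1)],[([z1,z0,z0,z1,z1],z1)],[([z1,z0,z0,z1,
    z1],z2)],[([z1,z1,z0,z0,z1],z2)],[]]],
    [.old (.leafM k0 [k0,k1,k4] [] [(k2,k3,z1,[y1,z1]),(k3,k2,z1,[y1,z1])]),
    .old (.leafM k0 [k0,k3,k4] [] [(k1,k2,z1,[y1,z1]),(k2,k1,z1,[y1,z1])]),
    .old (.leafM k1 [k0,k1,k2,k3,k4] [(z1,[y1,z1])] []),
    .old (.leafM k0 [k2,k3,k4,k0,k1] [(z1,[y1,z1])] []),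
    .old (.lp [k2,k2,k2,k2,k2] [k0,k0,k0,k0,k0,k0,k0,k0,k0,k0] k0 [] k8 k5
    [[(k1,k2),(k8,k2)],[(k3,k2),(k7,k2)],[(k0,k2),(k4,k2)],[(k2,k2),(k5,k2),(k6,k2),(k9,k2)],[(k2,k2),(k5,k2),(k6,k2),
    (k9,k2)],[(k3,k2),(k7,k2)],[(k0,k2),(k4,k2)],[(k2,k2),(k5,k2),(k6,k2),(k9,k2)],[(k2,k2),(k5,k2),(k6,k2),(k9,k2)],
    [(k1,k2),(k8,k2)]]
    [] k0
    [[k1,k1,k0,k0,k1],[k1,k0,k0,k1,k1],[k0,k1,k1,k0,k0],[k0,k0,k1,k1,k0],[k0,k0,k0,k0,k2]]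
    [.ref k3 k0 [(z1,[z1])],.ref k2 k0 [(z1,[z1])],.ref k1 k0 [(z1,[y1,z1])],.ref k0 k0 [(z1,[y1,z1])],.contra [z1]])]⟩

/-- classes `0 1 0 1 2`, types `C0 S0 C2 S0 C0` -/
noncomputable def cU5_304 : CertX :=
  ⟨[k4,k16,k6,k16,k36],[(false,k0,[k0,k1,k2,k3,k4])],[[[([z1,z1,z0,z0,z1],z1)],[([z1,z0,z1,z0,z1],z1)],[([z1,z0,z1,z0,
    z1],z2)],[([z1,z1,z0,z0,z1],z2)],[]]],
    [.old (.leafM k0 [k0,k1,k4] [] [(k2,k3,z1,[y1,z1]),(k3,k2,z1,[y1,z1])]),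
    .old (.leafM k1 [k4,k0,k2] [] [(k1,k3,z1,[y1,z1]),(k3,k1,z1,[y1,z1])]),
    .old (.leafM k2 [k0,k1,k2,k3,k4] [(z1,[y1,z1])] []),
    .old (.leafM k0 [k2,k3,k4,k0,k1] [(z1,[y1,z1])] []),
    .old (.lp [k2,k2,k2,k2,k2] [k0,k0,k0,k0,k0,k0,k0,k0,k0,k0] k0 [] k8 k5
    [[(k8,k2)],[(k3,k2),(k4,k2)],[(k0,k2),(k7,k2)],[(k2,k2),(k5,k2),(k6,k2),(k9,k2)],[(k2,k2),(k5,k2),(k6,k2),(k9,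
    k2)],[(k0,k2),(k7,k2)],[(k3,k2),(k4,k2)],[(k2,k2),(k5,k2),(k6,k2),(k9,k2)],[(k2,k2),(k5,k2),(k6,k2),(k9,k2)],[(k1,
    k2)]]
    [] k0
    [[k1,k1,k0,k0,k1],[k1,k0,k1,k0,k1],[k0,k1,k0,k1,k0],[k0,k0,k1,k1,k0]]
    [.ref k3 k0 [(z1,[z1])],.ref k2 k0 [(z1,[z1])],.ref k1 k0 [(z1,[y1,z1])],.ref k0 k0 [(z1,[y1,z1])]])]⟩

/-- classes `0 1 0 1 2`, types `C0 S0 C2 S0 S0` -/
noncomputable def cU5_305 : CertX :=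
  ⟨[k4,k16,k6,k16,k32],[(false,k0,[k0,k1,k2,k3,k4])],[[[([z1,z1,z0,z0,z1],z1)],[([z1,z0,z1,z0,z1],z1)],[([z1,z0,z1,z0,
    z1],z2)],[([z1,z1,z0,z0,z1],z2)],[]]],
    [.old (.leafM k0 [k0,k1,k4] [] [(k2,k3,z1,[y1,z1]),(k3,k2,z1,[y1,z1])]),
    .old (.leafM k1 [k4,k0,k2] [] [(k1,k3,z1,[y1,z1]),(k3,k1,z1,[y1,z1])]),
    .old (.leafM k2 [k0,k1,k2,k3,k4] [(z1,[y1,z1])] []),
    .old (.leafM k0 [k2,k3,k4,k0,k1] [(z1,[y1,z1])] []),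
    .old (.lp [k2,k2,k2,k2,k2] [k0,k0,k0,k0,k0,k0,k0,k0,k0,k0] k0 [] k8 k5
    [[(k1,k2),(k8,k2)],[(k3,k2),(k4,k2)],[(k0,k2),(k7,k2)],[(k2,k2),(k5,k2),(k6,k2),(k9,k2)],[(k2,k2),(k5,k2),(k6,k2),
    (k9,k2)],[(k0,k2),(k7,k2)],[(k3,k2),(k4,k2)],[(k2,k2),(k5,k2),(k6,k2),(k9,k2)],[(k2,k2),(k5,k2),(k6,k2),(k9,k2)],
    [(k1,k2),(k8,k2)]]
    [] k0
    [[k1,k1,k0,k0,k1],[k1,k0,k1,k0,k1],[k0,k1,k0,k1,k0],[k0,k0,k1,k1,k0],[k0,k0,k0,k0,k2]]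
    [.ref k3 k0 [(z1,[z1])],.ref k2 k0 [(z1,[z1])],.ref k1 k0 [(z1,[y1,z1])],.ref k0 k0 [(z1,[y1,z1])],.contra [z1]])]⟩

/-- classes `0 1 0 1 2`, types `N0 N0 N1 N1 C0` -/
noncomputable def cU5_306 : CertX :=
  ⟨[k12,k28,k13,k29,k36],[],[[[]]],
    [.old (.lp [k2,k2,k2,k2,k2] [k0,k0,k0,k0,k0,k0,k0,k0,k0,k0] k0 [] k8 k5
    [[(k8,k2)],[(k7,k2)],[(k4,k2)],[(k9,k2)],[(k6,k2)],[(k3,k2)],[(k0,k2)],[(k5,k2)],[(k2,k2)],[(k1,k2)]]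
    [] k0
    []
    [])]⟩

/-- classes `0 1 0 1 2`, types `N0 N0 N1 N1 S0` -/
noncomputable def cU5_307 : CertX :=
  ⟨[k12,k28,k13,k29,k32],[],[[[]]],
    [.old (.lp [k2,k2,k2,k2,k2] [k0,k0,k0,k0,k0,k0,k0,k0,k0,k0] k0 [] k8 k5
    [[(k1,k2),(k8,k2)],[(k7,k2)],[(k4,k2)],[(k9,k2)],[(k6,k2)],[(k3,k2)],[(k0,k2)],[(k5,k2)],[(k2,k2)],[(k1,k2),(k8,
    k2)]]
    [] k0
    []
    [])]⟩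

/-- classes `0 1 0 1 2`, types `N0 N0 N1 N2 C0` -/
noncomputable def cU5_308 : CertX :=
  ⟨[k12,k28,k13,k30,k36],[],[[[]]],
    [.old (.lp [k2,k2,k2,k2,k2] [k0,k0,k0,k0,k0,k0,k0,k0,k0,k0] k0 [] k8 k5
    [[(k8,k2)],[(k7,k2)],[(k4,k2)],[(k6,k2)],[(k9,k2)],[(k3,k2)],[(k0,k2)],[(k2,k2)],[(k5,k2)],[(k1,k2)]]
    [] k0
    []
    [])]⟩

/-- classes `0 1 0 1 2`, types `N0 N0 N1 N2 S0` -/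
noncomputable def cU5_309 : CertX :=
  ⟨[k12,k28,k13,k30,k32],[],[[[]]],
    [.old (.lp [k2,k2,k2,k2,k2] [k0,k0,k0,k0,k0,k0,k0,k0,k0,k0] k0 [] k8 k5
    [[(k1,k2),(k8,k2)],[(k7,k2)],[(k4,k2)],[(k6,k2)],[(k9,k2)],[(k3,k2)],[(k0,k2)],[(k2,k2)],[(k5,k2)],[(k1,k2),(k8,
    k2)]]
    [] k0
    []
    [])]⟩

/-- classes `0 1 0 1 2`, types `N0 N0 N2 N2 C0` -/
noncomputable def cU5_310 : CertX :=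
  ⟨[k12,k28,k14,k30,k36],[(false,k0,[k0,k1,k2,k3,k4])],[[[([z1,z0,z1,z0,z1],z1)],[([z1,z0,z1,z0,z1],z2)],[]]],
    [.old (.leafM k1 [k4,k0,k2] [] [(k1,k3,z1,[y1,z1]),(k3,k1,z1,[y1,z1])]),
    .old (.leafM k2 [k0,k1,k2,k3,k4] [(z1,[y1,z1])] []),
    .old (.lp [k2,k4,k2,k0,k2] [k1,k1,k0,k0,k1,k1,k2,k2,k1,k1] k0 [] k8 k5
    [[(k8,k2)],[(k4,k2)],[(k7,k2)],[(k6,k2)],[(k9,k2)],[(k0,k2)],[(k3,k2)],[(k2,k2)],[(k5,k2)],[(k1,k2)]]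
    [] k0
    [[k1,k0,k1,k0,k1],[k0,k1,k0,k1,k0]]
    [.ref k1 k0 [(z1,[z1])],.ref k0 k0 [(z1,[y1,z1])]])]⟩

/-- classes `0 1 0 1 2`, types `N0 N0 N2 N2 S0` -/
noncomputable def cU5_311 : CertX :=
  ⟨[k12,k28,k14,k30,k32],[(false,k0,[k0,k1,k2,k3,k4])],[[[([z1,z0,z1,z0,z1],z1)],[([z1,z0,z1,z0,z1],z2)],[]]],
    [.old (.leafM k1 [k4,k0,k2] [] [(k1,k3,z1,[y1,z1]),(k3,k1,z1,[y1,z1])]),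
    .old (.leafM k2 [k0,k1,k2,k3,k4] [(z1,[y1,z1])] []),
    .old (.lp [k2,k4,k2,k0,k2] [k1,k1,k0,k0,k1,k1,k2,k2,k1,k1] k0 [] k8 k5
    [[(k1,k2),(k8,k2)],[(k4,k2)],[(k7,k2)],[(k6,k2)],[(k9,k2)],[(k0,k2)],[(k3,k2)],[(k2,k2)],[(k5,k2)],[(k1,k2),(k8,
    k2)]]
    [] k0
    [[k1,k0,k1,k0,k1],[k0,k1,k0,k1,k0]]
    [.ref k1 k0 [(z1,[z1])],.ref k0 k0 [(z1,[y1,z1])]])]⟩

/-- classes `0 1 0 1 2`, types `N0 S0 N1 S0 C0` -/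
noncomputable def cU5_312 : CertX :=
  ⟨[k12,k16,k13,k16,k36],[(false,k0,[k0,k1,k2,k3,k4])],[[[([z1,z0,z0,z1,z1],z1)],[([z1,z0,z0,z1,z1],z2)],[]]],
    [.old (.leafM k0 [k0,k3,k4] [] [(k1,k2,z1,[y1,z1]),(k2,k1,z1,[y1,z1])]),
    .old (.leafM k1 [k0,k1,k2,k3,k4] [(z1,[y1,z1])] []),
    .old (.lp [k2,k2,k2,k2,k2] [k0,k0,k0,k0,k0,k0,k0,k0,k0,k0] k0 [] k8 k5
    [[(k8,k2)],[(k7,k2)],[(k4,k2)],[(k2,k2),(k5,k2),(k6,k2),(k9,k2)],[(k2,k2),(k5,k2),(k6,k2),(k9,k2)],[(k3,k2)],[(k0,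
    k2)],[(k2,k2),(k5,k2),(k6,k2),(k9,k2)],[(k2,k2),(k5,k2),(k6,k2),(k9,k2)],[(k1,k2)]]
    [] k0
    [[k1,k0,k0,k1,k1],[k0,k1,k1,k0,k0]]
    [.ref k1 k0 [(z1,[z1])],.ref k0 k0 [(z1,[y1,z1])]])]⟩

/-- classes `0 1 0 1 2`, types `N0 S0 N1 S0 S0` -/
noncomputable def cU5_313 : CertX :=
  ⟨[k12,k16,k13,k16,k32],[(false,k0,[k0,k1,k2,k3,k4])],[[[([z1,z0,z0,z1,z1],z1)],[([z1,z0,z0,z1,z1],z2)],[]]],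
    [.old (.leafM k0 [k0,k3,k4] [] [(k1,k2,z1,[y1,z1]),(k2,k1,z1,[y1,z1])]),
    .old (.leafM k1 [k0,k1,k2,k3,k4] [(z1,[y1,z1])] []),
    .old (.lp [k2,k2,k2,k2,k2] [k0,k0,k0,k0,k0,k0,k0,k0,k0,k0] k0 [] k8 k5
    [[(k1,k2),(k8,k2)],[(k7,k2)],[(k4,k2)],[(k2,k2),(k5,k2),(k6,k2),(k9,k2)],[(k2,k2),(k5,k2),(k6,k2),(k9,k2)],[(k3,
    k2)],[(k0,k2)],[(k2,k2),(k5,k2),(k6,k2),(k9,k2)],[(k2,k2),(k5,k2),(k6,k2),(k9,k2)],[(k1,k2),(k8,k2)]]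
    [] k0
    [[k1,k0,k0,k1,k1],[k0,k1,k1,k0,k0],[k0,k0,k0,k0,k2]]
    [.ref k1 k0 [(z1,[z1])],.ref k0 k0 [(z1,[y1,z1])],.contra [z1]])]⟩

/-- classes `0 1 0 1 2`, types `N0 S0 N2 S0 C0` -/
noncomputable def cU5_314 : CertX :=
  ⟨[k12,k16,k14,k16,k36],[(false,k0,[k0,k1,k2,k3,k4])],[[[([z1,z0,z1,z0,z1],z1)],[([z1,z0,z1,z0,z1],z2)],[]]],
    [.old (.leafM k1 [k4,k0,k2] [] [(k1,k3,z1,[y1,z1]),(k3,k1,z1,[y1,z1])]),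
    .old (.leafM k2 [k0,k1,k2,k3,k4] [(z1,[y1,z1])] []),
    .old (.lp [k2,k2,k2,k2,k2] [k0,k0,k0,k0,k0,k0,k0,k0,k0,k0] k0 [] k8 k5
    [[(k8,k2)],[(k4,k2)],[(k7,k2)],[(k2,k2),(k5,k2),(k6,k2),(k9,k2)],[(k2,k2),(k5,k2),(k6,k2),(k9,k2)],[(k0,k2)],[(k3,
    k2)],[(k2,k2),(k5,k2),(k6,k2),(k9,k2)],[(k2,k2),(k5,k2),(k6,k2),(k9,k2)],[(k1,k2)]]
    [] k0
    [[k1,k0,k1,k0,k1],[k0,k1,k0,k1,k0]]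
    [.ref k1 k0 [(z1,[z1])],.ref k0 k0 [(z1,[y1,z1])]])]⟩

/-- classes `0 1 0 1 2`, types `N0 S0 N2 S0 S0` -/
noncomputable def cU5_315 : CertX :=
  ⟨[k12,k16,k14,k16,k32],[(false,k0,[k0,k1,k2,k3,k4])],[[[([z1,z0,z1,z0,z1],z1)],[([z1,z0,z1,z0,z1],z2)],[]]],
    [.old (.leafM k1 [k4,k0,k2] [] [(k1,k3,z1,[y1,z1]),(k3,k1,z1,[y1,z1])]),
    .old (.leafM k2 [k0,k1,k2,k3,k4] [(z1,[y1,z1])] []),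
    .old (.lp [k2,k2,k2,k2,k2] [k0,k0,k0,k0,k0,k0,k0,k0,k0,k0] k0 [] k8 k5
    [[(k1,k2),(k8,k2)],[(k4,k2)],[(k7,k2)],[(k2,k2),(k5,k2),(k6,k2),(k9,k2)],[(k2,k2),(k5,k2),(k6,k2),(k9,k2)],[(k0,
    k2)],[(k3,k2)],[(k2,k2),(k5,k2),(k6,k2),(k9,k2)],[(k2,k2),(k5,k2),(k6,k2),(k9,k2)],[(k1,k2),(k8,k2)]]
    [] k0
    [[k1,k0,k1,k0,k1],[k0,k1,k0,k1,k0],[k0,k0,k0,k0,k2]]
    [.ref k1 k0 [(z1,[z1])],.ref k0 k0 [(z1,[y1,z1])],.contra [z1]])]⟩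

/-- classes `0 1 0 1 2`, types `S0 S0 S0 S0 C0` -/
noncomputable def cU5_316 : CertX :=
  ⟨[k0,k16,k0,k16,k36],[(true,k4,[k4,k3,k2,k1,k0]),(false,k0,[k0,k1,k2,k3,k4])],[[[([z1,z0,z0,z1,z1],z1)],[([z1,z0,z1,
    z0,z1],z1)],[([z1,z0,z0,z1,z1],z2)],[([z1,z0,z1,z0,z1],z2)],[]]],
    [.old (.leafM k0 [k0,k3,k4] [] [(k1,k2,z1,[y1,z1]),(k2,k1,z1,[y1,z1])]),
    .old (.leafM k1 [k4,k0,k2] [] [(k1,k3,z1,[y1,z1]),(k3,k1,z1,[y1,z1])]),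
    .old (.leafM k0 [k1,k2,k3,k4,k0] [(z1,[y1,z1])] []),
    .old (.leafM k2 [k0,k1,k2,k3,k4] [(z1,[y1,z1])] []),
    .old (.lp [k2,k2,k2,k2,k2] [k0,k0,k0,k0,k0,k0,k0,k0,k0,k0] k0 [] k8 k5
    [[(k8,k2)],[(k0,k2),(k3,k2),(k4,k2),(k7,k2)],[(k0,k2),(k3,k2),(k4,k2),(k7,k2)],[(k2,k2),(k5,k2),(k6,k2),(k9,k2)],
    [(k2,k2),(k5,k2),(k6,k2),(k9,k2)],[(k0,k2),(k3,k2),(k4,k2),(k7,k2)],[(k0,k2),(k3,k2),(k4,k2),(k7,k2)],[(k2,k2),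
    (k5,k2),(k6,k2),(k9,k2)],[(k2,k2),(k5,k2),(k6,k2),(k9,k2)],[(k1,k2)]]
    [] k0
    [[k1,k1,k0,k0,k1],[k1,k0,k1,k0,k1],[k1,k0,k0,k1,k1],[k0,k2,k0,k0,k0],[k0,k1,k1,k0,k0],[k0,k1,k0,k1,k0],[k0,k0,k2,
    k0,k0],[k0,k0,k1,k1,k0],[k0,k0,k0,k2,k0]]
    [.ref k2 k0 [(z1,[z1])],.ref k3 k1 [(z1,[z1])],.ref k2 k1 [(z1,[z1])],.contra [z1],.ref k0 k1 [(z1,[y1,z1])],
    .ref k1 k1 [(z1,[y1,z1])],.contra [z1],.ref k0 k0 [(z1,[y1,z1])],.contra [z1]])]⟩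

/-- classes `0 1 0 2 3`, types `B0 C0 B1 C0 C0` -/
noncomputable def cU5_317 : CertX :=
  ⟨[k8,k20,k9,k36,k52],[(false,k0,[k0,k1,k2,k3,k4])],[[[([z1,z0,z0,z1,z1],z1)],[([z1,z0,z0,z1,z1],z2)],[]]],
    [.old (.leafM k0 [k0,k3,k4] [] [(k1,k2,z1,[y1,z1]),(k2,k1,z1,[y1,z1])]),
    .old (.leafM k1 [k0,k1,k2,k3,k4] [(z1,[y1,z1])] []),
    .old (.lp [k2,k2,k2,k2,k2] [k0,k0,k0,k0,k0,k0,k0,k0,k0,k0] k0 [] k8 k5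
    [[(k8,k2)],[(k4,k2),(k7,k2)],[(k4,k2),(k7,k2)],[(k5,k2)],[(k2,k2)],[(k0,k2),(k3,k2)],[(k0,k2),(k3,k2)],[(k9,k2)],
    [(k6,k2)],[(k1,k2)]]
    [] k0
    [[k1,k0,k0,k1,k1],[k0,k1,k1,k0,k0]]
    [.ref k1 k0 [(z1,[z1])],.ref k0 k0 [(z1,[y1,z1])]])]⟩

/-- classes `0 1 0 2 3`, types `B0 C0 B1 C0 S0` -/
noncomputable def cU5_318 : CertX :=
  ⟨[k8,k20,k9,k36,k48],[(false,k0,[k0,k1,k2,k3,k4])],[[[([z1,z0,z0,z1,z1],z1)],[([z1,z0,z0,z1,z1],z2)],[]]],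
    [.old (.leafM k0 [k0,k3,k4] [] [(k1,k2,z1,[y1,z1]),(k2,k1,z1,[y1,z1])]),
    .old (.leafM k1 [k0,k1,k2,k3,k4] [(z1,[y1,z1])] []),
    .old (.lp [k2,k2,k2,k2,k2] [k0,k0,k0,k0,k0,k0,k0,k0,k0,k0] k0 [] k8 k5
    [[(k1,k2),(k8,k2)],[(k4,k2),(k7,k2)],[(k4,k2),(k7,k2)],[(k5,k2)],[(k2,k2)],[(k0,k2),(k3,k2)],[(k0,k2),(k3,k2)],
    [(k9,k2)],[(k6,k2)],[(k1,k2),(k8,k2)]]
    [] k0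
    [[k1,k0,k0,k1,k1],[k0,k1,k1,k0,k0]]
    [.ref k1 k0 [(z1,[z1])],.ref k0 k0 [(z1,[y1,z1])]])]⟩

/-- classes `0 1 0 2 3`, types `B0 C0 B1 S0 S0` -/
noncomputable def cU5_319 : CertX :=
  ⟨[k8,k20,k9,k32,k48],[(false,k0,[k0,k1,k2,k3,k4])],[[[([z1,z0,z0,z1,z1],z1)],[([z1,z0,z0,z1,z1],z2)],[]]],
    [.old (.leafM k0 [k0,k3,k4] [] [(k1,k2,z1,[y1,z1]),(k2,k1,z1,[y1,z1])]),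
    .old (.leafM k1 [k0,k1,k2,k3,k4] [(z1,[y1,z1])] []),
    .old (.lp [k2,k2,k2,k2,k2] [k0,k0,k0,k0,k0,k0,k0,k0,k0,k0] k0 [] k8 k5
    [[(k1,k2),(k8,k2)],[(k4,k2),(k7,k2)],[(k4,k2),(k7,k2)],[(k5,k2)],[(k2,k2)],[(k0,k2),(k3,k2)],[(k0,k2),(k3,k2)],
    [(k6,k2),(k9,k2)],[(k6,k2),(k9,k2)],[(k1,k2),(k8,k2)]]
    [] k0
    [[k1,k0,k0,k1,k1],[k0,k1,k1,k0,k0],[k0,k0,k0,k0,k2]]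
    [.ref k1 k0 [(z1,[z1])],.ref k0 k0 [(z1,[y1,z1])],.contra [z1]])]⟩

/-- classes `0 1 0 2 3`, types `B0 S0 B1 C0 C0` -/
noncomputable def cU5_320 : CertX :=
  ⟨[k8,k16,k9,k36,k52],[(false,k0,[k0,k1,k2,k3,k4])],[[[([z1,z0,z0,z1,z1],z1)],[([z1,z0,z0,z1,z1],z2)],[]]],
    [.old (.leafM k0 [k0,k3,k4] [] [(k1,k2,z1,[y1,z1]),(k2,k1,z1,[y1,z1])]),
    .old (.leafM k1 [k0,k1,k2,k3,k4] [(z1,[y1,z1])] []),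
    .old (.lp [k2,k2,k2,k2,k2] [k0,k0,k0,k0,k0,k0,k0,k0,k0,k0] k0 [] k8 k5
    [[(k8,k2)],[(k4,k2),(k7,k2)],[(k4,k2),(k7,k2)],[(k2,k2),(k5,k2)],[(k2,k2),(k5,k2)],[(k0,k2),(k3,k2)],[(k0,k2),(k3,
    k2)],[(k9,k2)],[(k6,k2)],[(k1,k2)]]
    [] k0
    [[k1,k0,k0,k1,k1],[k0,k1,k1,k0,k0]]
    [.ref k1 k0 [(z1,[z1])],.ref k0 k0 [(z1,[y1,z1])]])]⟩

/-- classes `0 1 0 2 3`, types `B0 S0 B1 C0 S0` -/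
noncomputable def cU5_321 : CertX :=
  ⟨[k8,k16,k9,k36,k48],[(false,k0,[k0,k1,k2,k3,k4])],[[[([z1,z0,z0,z1,z1],z1)],[([z1,z0,z0,z1,z1],z2)],[]]],
    [.old (.leafM k0 [k0,k3,k4] [] [(k1,k2,z1,[y1,z1]),(k2,k1,z1,[y1,z1])]),
    .old (.leafM k1 [k0,k1,k2,k3,k4] [(z1,[y1,z1])] []),
    .old (.lp [k2,k2,k2,k2,k2] [k0,k0,k0,k0,k0,k0,k0,k0,k0,k0] k0 [] k8 k5
    [[(k1,k2),(k8,k2)],[(k4,k2),(k7,k2)],[(k4,k2),(k7,k2)],[(k2,k2),(k5,k2)],[(k2,k2),(k5,k2)],[(k0,k2),(k3,k2)],[(k0,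
    k2),(k3,k2)],[(k9,k2)],[(k6,k2)],[(k1,k2),(k8,k2)]]
    [] k0
    [[k1,k0,k0,k1,k1],[k0,k1,k1,k0,k0]]
    [.ref k1 k0 [(z1,[z1])],.ref k0 k0 [(z1,[y1,z1])]])]⟩

/-- classes `0 1 0 2 3`, types `B0 S0 B1 S0 S0` -/
noncomputable def cU5_322 : CertX :=
  ⟨[k8,k16,k9,k32,k48],[(false,k0,[k0,k1,k2,k3,k4])],[[[([z1,z0,z0,z1,z1],z1)],[([z1,z0,z0,z1,z1],z2)],[]]],
    [.old (.leafM k0 [k0,k3,k4] [] [(k1,k2,z1,[y1,z1]),(k2,k1,z1,[y1,z1])]),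
    .old (.leafM k1 [k0,k1,k2,k3,k4] [(z1,[y1,z1])] []),
    .old (.lp [k2,k2,k2,k2,k2] [k0,k0,k0,k0,k0,k0,k0,k0,k0,k0] k0 [] k8 k5
    [[(k1,k2),(k8,k2)],[(k4,k2),(k7,k2)],[(k4,k2),(k7,k2)],[(k2,k2),(k5,k2)],[(k2,k2),(k5,k2)],[(k0,k2),(k3,k2)],[(k0,
    k2),(k3,k2)],[(k6,k2),(k9,k2)],[(k6,k2),(k9,k2)],[(k1,k2),(k8,k2)]]
    [] k0
    [[k1,k0,k0,k1,k1],[k0,k1,k1,k0,k0],[k0,k0,k0,k0,k2]]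
    [.ref k1 k0 [(z1,[z1])],.ref k0 k0 [(z1,[y1,z1])],.contra [z1]])]⟩

/-- classes `0 1 0 2 3`, types `C0 C0 C0 C0 C0` -/
noncomputable def cU5_323 : CertX :=
  ⟨[k4,k20,k4,k36,k52],[(false,k0,[k0,k1,k2,k3,k4])],[[[([z1,z0,z0,z1,z1],z1)],[([z1,z0,z0,z1,z1],z2)],[]]],
    [.old (.leafM k0 [k0,k3,k4] [] [(k1,k2,z1,[y1,z1]),(k2,k1,z1,[y1,z1])]),
    .old (.leafM k1 [k0,k1,k2,k3,k4] [(z1,[y1,z1])] []),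
    .old (.lp [k2,k2,k2,k2,k2] [k0,k0,k0,k0,k0,k0,k0,k0,k0,k0] k0 [] k8 k5
    [[(k8,k2)],[(k3,k2),(k7,k2)],[(k0,k2),(k4,k2)],[(k5,k2)],[(k2,k2)],[(k3,k2),(k7,k2)],[(k0,k2),(k4,k2)],[(k9,k2)],
    [(k6,k2)],[(k1,k2)]]
    [] k0
    [[k1,k0,k0,k1,k1],[k0,k1,k1,k0,k0]]
    [.ref k1 k0 [(z1,[z1])],.ref k0 k0 [(z1,[y1,z1])]])]⟩

/-- classes `0 1 0 2 3`, types `C0 C0 C0 C0 S0` -/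
noncomputable def cU5_324 : CertX :=
  ⟨[k4,k20,k4,k36,k48],[(false,k0,[k0,k1,k2,k3,k4])],[[[([z1,z0,z0,z1,z1],z1)],[([z1,z0,z0,z1,z1],z2)],[]]],
    [.old (.leafM k0 [k0,k3,k4] [] [(k1,k2,z1,[y1,z1]),(k2,k1,z1,[y1,z1])]),
    .old (.leafM k1 [k0,k1,k2,k3,k4] [(z1,[y1,z1])] []),
    .old (.lp [k2,k2,k2,k2,k2] [k0,k0,k0,k0,k0,k0,k0,k0,k0,k0] k0 [] k8 k5
    [[(k1,k2),(k8,k2)],[(k3,k2),(k7,k2)],[(k0,k2),(k4,k2)],[(k5,k2)],[(k2,k2)],[(k3,k2),(k7,k2)],[(k0,k2),(k4,k2)],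
    [(k9,k2)],[(k6,k2)],[(k1,k2),(k8,k2)]]
    [] k0
    [[k1,k0,k0,k1,k1],[k0,k1,k1,k0,k0]]
    [.ref k1 k0 [(z1,[z1])],.ref k0 k0 [(z1,[y1,z1])]])]⟩

/-- classes `0 1 0 2 3`, types `C0 C0 C0 S0 S0` -/
noncomputable def cU5_325 : CertX :=
  ⟨[k4,k20,k4,k32,k48],[(false,k0,[k0,k1,k2,k3,k4])],[[[([z1,z0,z0,z1,z1],z1)],[([z1,z0,z0,z1,z1],z2)],[]]],
    [.old (.leafM k0 [k0,k3,k4] [] [(k1,k2,z1,[y1,z1]),(k2,k1,z1,[y1,z1])]),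
    .old (.leafM k1 [k0,k1,k2,k3,k4] [(z1,[y1,z1])] []),
    .old (.lp [k2,k2,k2,k2,k2] [k0,k0,k0,k0,k0,k0,k0,k0,k0,k0] k0 [] k8 k5
    [[(k1,k2),(k8,k2)],[(k3,k2),(k7,k2)],[(k0,k2),(k4,k2)],[(k5,k2)],[(k2,k2)],[(k3,k2),(k7,k2)],[(k0,k2),(k4,k2)],
    [(k6,k2),(k9,k2)],[(k6,k2),(k9,k2)],[(k1,k2),(k8,k2)]]
    [] k0
    [[k1,k0,k0,k1,k1],[k0,k1,k1,k0,k0],[k0,k0,k0,k0,k2]]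
    [.ref k1 k0 [(z1,[z1])],.ref k0 k0 [(z1,[y1,z1])],.contra [z1]])]⟩

/-- classes `0 1 0 2 3`, types `C0 C0 C2 C0 C0` -/
noncomputable def cU5_326 : CertX :=
  ⟨[k4,k20,k6,k36,k52],[],[[[]]],
    [.old (.lp [k2,k2,k2,k2,k2] [k0,k0,k0,k0,k0,k0,k0,k0,k0,k0] k0 [] k8 k5
    [[(k8,k2)],[(k3,k2),(k4,k2)],[(k0,k2),(k7,k2)],[(k5,k2)],[(k2,k2)],[(k0,k2),(k7,k2)],[(k3,k2),(k4,k2)],[(k9,k2)],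
    [(k6,k2)],[(k1,k2)]]
    [] k0
    []
    [])]⟩

/-- classes `0 1 0 2 3`, types `C0 C0 C2 C0 S0` -/
noncomputable def cU5_327 : CertX :=
  ⟨[k4,k20,k6,k36,k48],[],[[[]]],
    [.old (.lp [k2,k2,k2,k2,k2] [k0,k0,k0,k0,k0,k0,k0,k0,k0,k0] k0 [] k8 k5
    [[(k1,k2),(k8,k2)],[(k3,k2),(k4,k2)],[(k0,k2),(k7,k2)],[(k5,k2)],[(k2,k2)],[(k0,k2),(k7,k2)],[(k3,k2),(k4,k2)],
    [(k9,k2)],[(k6,k2)],[(k1,k2),(k8,k2)]]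
    [] k0
    []
    [])]⟩

/-- classes `0 1 0 2 3`, types `C0 C0 C2 S0 S0` -/
noncomputable def cU5_328 : CertX :=
  ⟨[k4,k20,k6,k32,k48],[],[[[]]],
    [.old (.lp [k2,k2,k2,k2,k2] [k0,k0,k0,k0,k0,k0,k0,k0,k0,k0] k0 [] k8 k5
    [[(k1,k2),(k8,k2)],[(k3,k2),(k4,k2)],[(k0,k2),(k7,k2)],[(k5,k2)],[(k2,k2)],[(k0,k2),(k7,k2)],[(k3,k2),(k4,k2)],
    [(k6,k2),(k9,k2)],[(k6,k2),(k9,k2)],[(k1,k2),(k8,k2)]]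
    [] k0
    [[k0,k0,k0,k0,k2]]
    [.contra [z1]])]⟩

/-- classes `0 1 0 2 3`, types `C0 S0 C0 C0 C0` -/
noncomputable def cU5_329 : CertX :=
  ⟨[k4,k16,k4,k36,k52],[(false,k0,[k0,k1,k2,k3,k4])],[[[([z1,z0,z0,z1,z1],z1)],[([z1,z0,z0,z1,z1],z2)],[]]],
    [.old (.leafM k0 [k0,k3,k4] [] [(k1,k2,z1,[y1,z1]),(k2,k1,z1,[y1,z1])]),
    .old (.leafM k1 [k0,k1,k2,k3,k4] [(z1,[y1,z1])] []),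
    .old (.lp [k2,k2,k2,k2,k2] [k0,k0,k0,k0,k0,k0,k0,k0,k0,k0] k0 [] k8 k5
    [[(k8,k2)],[(k3,k2),(k7,k2)],[(k0,k2),(k4,k2)],[(k2,k2),(k5,k2)],[(k2,k2),(k5,k2)],[(k3,k2),(k7,k2)],[(k0,k2),(k4,
    k2)],[(k9,k2)],[(k6,k2)],[(k1,k2)]]
    [] k0
    [[k1,k0,k0,k1,k1],[k0,k1,k1,k0,k0]]
    [.ref k1 k0 [(z1,[z1])],.ref k0 k0 [(z1,[y1,z1])]])]⟩

/-- classes `0 1 0 2 3`, types `C0 S0 C0 C0 S0` -/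
noncomputable def cU5_330 : CertX :=
  ⟨[k4,k16,k4,k36,k48],[(false,k0,[k0,k1,k2,k3,k4])],[[[([z1,z0,z0,z1,z1],z1)],[([z1,z0,z0,z1,z1],z2)],[]]],
    [.old (.leafM k0 [k0,k3,k4] [] [(k1,k2,z1,[y1,z1]),(k2,k1,z1,[y1,z1])]),
    .old (.leafM k1 [k0,k1,k2,k3,k4] [(z1,[y1,z1])] []),
    .old (.lp [k2,k2,k2,k2,k2] [k0,k0,k0,k0,k0,k0,k0,k0,k0,k0] k0 [] k8 k5
    [[(k1,k2),(k8,k2)],[(k3,k2),(k7,k2)],[(k0,k2),(k4,k2)],[(k2,k2),(k5,k2)],[(k2,k2),(k5,k2)],[(k3,k2),(k7,k2)],[(k0,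
    k2),(k4,k2)],[(k9,k2)],[(k6,k2)],[(k1,k2),(k8,k2)]]
    [] k0
    [[k1,k0,k0,k1,k1],[k0,k1,k1,k0,k0]]
    [.ref k1 k0 [(z1,[z1])],.ref k0 k0 [(z1,[y1,z1])]])]⟩

/-- classes `0 1 0 2 3`, types `C0 S0 C0 S0 S0` -/
noncomputable def cU5_331 : CertX :=
  ⟨[k4,k16,k4,k32,k48],[(false,k0,[k0,k1,k2,k3,k4])],[[[([z1,z0,z0,z1,z1],z1)],[([z1,z0,z0,z1,z1],z2)],[]]],
    [.old (.leafM k0 [k0,k3,k4] [] [(k1,k2,z1,[y1,z1]),(k2,k1,z1,[y1,z1])]),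
    .old (.leafM k1 [k0,k1,k2,k3,k4] [(z1,[y1,z1])] []),
    .old (.lp [k2,k2,k2,k2,k2] [k0,k0,k0,k0,k0,k0,k0,k0,k0,k0] k0 [] k8 k5
    [[(k1,k2),(k8,k2)],[(k3,k2),(k7,k2)],[(k0,k2),(k4,k2)],[(k2,k2),(k5,k2)],[(k2,k2),(k5,k2)],[(k3,k2),(k7,k2)],[(k0,
    k2),(k4,k2)],[(k6,k2),(k9,k2)],[(k6,k2),(k9,k2)],[(k1,k2),(k8,k2)]]
    [] k0
    [[k1,k0,k0,k1,k1],[k0,k1,k1,k0,k0],[k0,k0,k0,k0,k2]]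
    [.ref k1 k0 [(z1,[z1])],.ref k0 k0 [(z1,[y1,z1])],.contra [z1]])]⟩

/-- classes `0 1 0 2 3`, types `C0 S0 C2 C0 C0` -/
noncomputable def cU5_332 : CertX :=
  ⟨[k4,k16,k6,k36,k52],[],[[[]]],
    [.old (.lp [k2,k2,k2,k2,k2] [k0,k0,k0,k0,k0,k0,k0,k0,k0,k0] k0 [] k8 k5
    [[(k8,k2)],[(k3,k2),(k4,k2)],[(k0,k2),(k7,k2)],[(k2,k2),(k5,k2)],[(k2,k2),(k5,k2)],[(k0,k2),(k7,k2)],[(k3,k2),(k4,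
    k2)],[(k9,k2)],[(k6,k2)],[(k1,k2)]]
    [] k0
    []
    [])]⟩

/-- classes `0 1 0 2 3`, types `C0 S0 C2 C0 S0` -/
noncomputable def cU5_333 : CertX :=
  ⟨[k4,k16,k6,k36,k48],[],[[[]]],
    [.old (.lp [k2,k2,k2,k2,k2] [k0,k0,k0,k0,k0,k0,k0,k0,k0,k0] k0 [] k8 k5
    [[(k1,k2),(k8,k2)],[(k3,k2),(k4,k2)],[(k0,k2),(k7,k2)],[(k2,k2),(k5,k2)],[(k2,k2),(k5,k2)],[(k0,k2),(k7,k2)],[(k3,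
    k2),(k4,k2)],[(k9,k2)],[(k6,k2)],[(k1,k2),(k8,k2)]]
    [] k0
    []
    [])]⟩

/-- classes `0 1 0 2 3`, types `C0 S0 C2 S0 S0` -/
noncomputable def cU5_334 : CertX :=
  ⟨[k4,k16,k6,k32,k48],[],[[[]]],
    [.old (.lp [k2,k2,k2,k2,k2] [k0,k0,k0,k0,k0,k0,k0,k0,k0,k0] k0 [] k8 k5
    [[(k1,k2),(k8,k2)],[(k3,k2),(k4,k2)],[(k0,k2),(k7,k2)],[(k2,k2),(k5,k2)],[(k2,k2),(k5,k2)],[(k0,k2),(k7,k2)],[(k3,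
    k2),(k4,k2)],[(k6,k2),(k9,k2)],[(k6,k2),(k9,k2)],[(k1,k2),(k8,k2)]]
    [] k0
    [[k0,k0,k0,k0,k2]]
    [.contra [z1]])]⟩

/-- classes `0 1 0 2 3`, types `N0 C0 N1 C0 C0` -/
noncomputable def cU5_335 : CertX :=
  ⟨[k12,k20,k13,k36,k52],[(false,k0,[k0,k1,k2,k3,k4])],[[[([z1,z0,z0,z1,z1],z1)],[([z1,z0,z0,z1,z1],z2)],[]]],
    [.old (.leafM k0 [k0,k3,k4] [] [(k1,k2,z1,[y1,z1]),(k2,k1,z1,[y1,z1])]),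
    .old (.leafM k1 [k0,k1,k2,k3,k4] [(z1,[y1,z1])] []),
    .old (.lp [k2,k4,k0,k2,k2] [k1,k1,k0,k0,k2,k2,k1,k1,k1,k1] k0 [] k8 k5
    [[(k8,k2)],[(k7,k2)],[(k4,k2)],[(k5,k2)],[(k2,k2)],[(k3,k2)],[(k0,k2)],[(k9,k2)],[(k6,k2)],[(k1,k2)]]
    [] k0
    [[k1,k0,k0,k1,k1],[k0,k1,k1,k0,k0]]
    [.ref k1 k0 [(z1,[z1])],.ref k0 k0 [(z1,[y1,z1])]])]⟩

/-- classes `0 1 0 2 3`, types `N0 C0 N1 C0 S0` -/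
noncomputable def cU5_336 : CertX :=
  ⟨[k12,k20,k13,k36,k48],[(false,k0,[k0,k1,k2,k3,k4])],[[[([z1,z0,z0,z1,z1],z1)],[([z1,z0,z0,z1,z1],z2)],[]]],
    [.old (.leafM k0 [k0,k3,k4] [] [(k1,k2,z1,[y1,z1]),(k2,k1,z1,[y1,z1])]),
    .old (.leafM k1 [k0,k1,k2,k3,k4] [(z1,[y1,z1])] []),
    .old (.lp [k2,k4,k0,k2,k2] [k1,k1,k0,k0,k2,k2,k1,k1,k1,k1] k0 [] k8 k5
    [[(k1,k2),(k8,k2)],[(k7,k2)],[(k4,k2)],[(k5,k2)],[(k2,k2)],[(k3,k2)],[(k0,k2)],[(k9,k2)],[(k6,k2)],[(k1,k2),(k8,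
    k2)]]
    [] k0
    [[k1,k0,k0,k1,k1],[k0,k1,k1,k0,k0]]
    [.ref k1 k0 [(z1,[z1])],.ref k0 k0 [(z1,[y1,z1])]])]⟩

/-- classes `0 1 0 2 3`, types `N0 C0 N1 S0 S0` -/
noncomputable def cU5_337 : CertX :=
  ⟨[k12,k20,k13,k32,k48],[(false,k0,[k0,k1,k2,k3,k4])],[[[([z1,z0,z0,z1,z1],z1)],[([z1,z0,z0,z1,z1],z2)],[]]],
    [.old (.leafM k0 [k0,k3,k4] [] [(k1,k2,z1,[y1,z1]),(k2,k1,z1,[y1,z1])]),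
    .old (.leafM k1 [k0,k1,k2,k3,k4] [(z1,[y1,z1])] []),
    .old (.lp [k2,k4,k0,k2,k2] [k1,k1,k0,k0,k2,k2,k1,k1,k1,k1] k0 [] k8 k5
    [[(k1,k2),(k8,k2)],[(k7,k2)],[(k4,k2)],[(k5,k2)],[(k2,k2)],[(k3,k2)],[(k0,k2)],[(k6,k2),(k9,k2)],[(k6,k2),(k9,
    k2)],[(k1,k2),(k8,k2)]]
    [] k0
    [[k1,k0,k0,k1,k1],[k0,k1,k1,k0,k0],[k0,k0,k0,k0,k2]]
    [.ref k1 k0 [(z1,[z1])],.ref k0 k0 [(z1,[y1,z1])],.contra [z1]])]⟩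

/-- classes `0 1 0 2 3`, types `N0 C0 N2 C0 C0` -/
noncomputable def cU5_338 : CertX :=
  ⟨[k12,k20,k14,k36,k52],[],[[[]]],
    [.old (.lp [k2,k2,k2,k2,k2] [k0,k0,k0,k0,k0,k0,k0,k0,k0,k0] k0 [] k8 k5
    [[(k8,k2)],[(k4,k2)],[(k7,k2)],[(k5,k2)],[(k2,k2)],[(k0,k2)],[(k3,k2)],[(k9,k2)],[(k6,k2)],[(k1,k2)]]
    [] k0
    []
    [])]⟩

/-- classes `0 1 0 2 3`, types `N0 C0 N2 C0 S0` -/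
noncomputable def cU5_339 : CertX :=
  ⟨[k12,k20,k14,k36,k48],[],[[[]]],
    [.old (.lp [k2,k2,k2,k2,k2] [k0,k0,k0,k0,k0,k0,k0,k0,k0,k0] k0 [] k8 k5
    [[(k1,k2),(k8,k2)],[(k4,k2)],[(k7,k2)],[(k5,k2)],[(k2,k2)],[(k0,k2)],[(k3,k2)],[(k9,k2)],[(k6,k2)],[(k1,k2),(k8,
    k2)]]
    [] k0
    []
    [])]⟩

/-- classes `0 1 0 2 3`, types `N0 C0 N2 S0 S0` -/
noncomputable def cU5_340 : CertX :=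
  ⟨[k12,k20,k14,k32,k48],[],[[[]]],
    [.old (.lp [k2,k2,k2,k2,k2] [k0,k0,k0,k0,k0,k0,k0,k0,k0,k0] k0 [] k8 k5
    [[(k1,k2),(k8,k2)],[(k4,k2)],[(k7,k2)],[(k5,k2)],[(k2,k2)],[(k0,k2)],[(k3,k2)],[(k6,k2),(k9,k2)],[(k6,k2),(k9,
    k2)],[(k1,k2),(k8,k2)]]
    [] k0
    [[k0,k0,k0,k0,k2]]
    [.contra [z1]])]⟩

/-- classes `0 1 0 2 3`, types `N0 S0 N1 C0 C0` -/
noncomputable def cU5_341 : CertX :=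
  ⟨[k12,k16,k13,k36,k52],[(false,k0,[k0,k1,k2,k3,k4])],[[[([z1,z0,z0,z1,z1],z1)],[([z1,z0,z0,z1,z1],z2)],[]]],
    [.old (.leafM k0 [k0,k3,k4] [] [(k1,k2,z1,[y1,z1]),(k2,k1,z1,[y1,z1])]),
    .old (.leafM k1 [k0,k1,k2,k3,k4] [(z1,[y1,z1])] []),
    .old (.lp [k2,k2,k2,k2,k2] [k0,k0,k0,k0,k0,k0,k0,k0,k0,k0] k0 [] k8 k5
    [[(k8,k2)],[(k7,k2)],[(k4,k2)],[(k2,k2),(k5,k2)],[(k2,k2),(k5,k2)],[(k3,k2)],[(k0,k2)],[(k9,k2)],[(k6,k2)],[(k1,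
    k2)]]
    [] k0
    [[k1,k0,k0,k1,k1],[k0,k1,k1,k0,k0]]
    [.ref k1 k0 [(z1,[z1])],.ref k0 k0 [(z1,[y1,z1])]])]⟩

/-- classes `0 1 0 2 3`, types `N0 S0 N1 C0 S0` -/
noncomputable def cU5_342 : CertX :=
  ⟨[k12,k16,k13,k36,k48],[(false,k0,[k0,k1,k2,k3,k4])],[[[([z1,z0,z0,z1,z1],z1)],[([z1,z0,z0,z1,z1],z2)],[]]],
    [.old (.leafM k0 [k0,k3,k4] [] [(k1,k2,z1,[y1,z1]),(k2,k1,z1,[y1,z1])]),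
    .old (.leafM k1 [k0,k1,k2,k3,k4] [(z1,[y1,z1])] []),
    .old (.lp [k2,k2,k2,k2,k2] [k0,k0,k0,k0,k0,k0,k0,k0,k0,k0] k0 [] k8 k5
    [[(k1,k2),(k8,k2)],[(k7,k2)],[(k4,k2)],[(k2,k2),(k5,k2)],[(k2,k2),(k5,k2)],[(k3,k2)],[(k0,k2)],[(k9,k2)],[(k6,
    k2)],[(k1,k2),(k8,k2)]]
    [] k0
    [[k1,k0,k0,k1,k1],[k0,k1,k1,k0,k0]]
    [.ref k1 k0 [(z1,[z1])],.ref k0 k0 [(z1,[y1,z1])]])]⟩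

/-- classes `0 1 0 2 3`, types `N0 S0 N1 S0 S0` -/
noncomputable def cU5_343 : CertX :=
  ⟨[k12,k16,k13,k32,k48],[(false,k0,[k0,k1,k2,k3,k4])],[[[([z1,z0,z0,z1,z1],z1)],[([z1,z0,z0,z1,z1],z2)],[]]],
    [.old (.leafM k0 [k0,k3,k4] [] [(k1,k2,z1,[y1,z1]),(k2,k1,z1,[y1,z1])]),
    .old (.leafM k1 [k0,k1,k2,k3,k4] [(z1,[y1,z1])] []),
    .old (.lp [k2,k2,k2,k2,k2] [k0,k0,k0,k0,k0,k0,k0,k0,k0,k0] k0 [] k8 k5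
    [[(k1,k2),(k8,k2)],[(k7,k2)],[(k4,k2)],[(k2,k2),(k5,k2)],[(k2,k2),(k5,k2)],[(k3,k2)],[(k0,k2)],[(k6,k2),(k9,k2)],
    [(k6,k2),(k9,k2)],[(k1,k2),(k8,k2)]]
    [] k0
    [[k1,k0,k0,k1,k1],[k0,k1,k1,k0,k0],[k0,k0,k0,k0,k2]]
    [.ref k1 k0 [(z1,[z1])],.ref k0 k0 [(z1,[y1,z1])],.contra [z1]])]⟩

/-- classes `0 1 0 2 3`, types `N0 S0 N2 C0 C0` -/
noncomputable def cU5_344 : CertX :=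
  ⟨[k12,k16,k14,k36,k52],[],[[[]]],
    [.old (.lp [k2,k2,k2,k2,k2] [k0,k0,k0,k0,k0,k0,k0,k0,k0,k0] k0 [] k8 k5
    [[(k8,k2)],[(k4,k2)],[(k7,k2)],[(k2,k2),(k5,k2)],[(k2,k2),(k5,k2)],[(k0,k2)],[(k3,k2)],[(k9,k2)],[(k6,k2)],[(k1,
    k2)]]
    [] k0
    []
    [])]⟩

/-- classes `0 1 0 2 3`, types `N0 S0 N2 C0 S0` -/
noncomputable def cU5_345 : CertX :=
  ⟨[k12,k16,k14,k36,k48],[],[[[]]],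
    [.old (.lp [k2,k2,k2,k2,k2] [k0,k0,k0,k0,k0,k0,k0,k0,k0,k0] k0 [] k8 k5
    [[(k1,k2),(k8,k2)],[(k4,k2)],[(k7,k2)],[(k2,k2),(k5,k2)],[(k2,k2),(k5,k2)],[(k0,k2)],[(k3,k2)],[(k9,k2)],[(k6,
    k2)],[(k1,k2),(k8,k2)]]
    [] k0
    []
    [])]⟩

/-- classes `0 1 0 2 3`, types `N0 S0 N2 S0 S0` -/
noncomputable def cU5_346 : CertX :=
  ⟨[k12,k16,k14,k32,k48],[],[[[]]],
    [.old (.lp [k2,k2,k2,k2,k2] [k0,k0,k0,k0,k0,k0,k0,k0,k0,k0] k0 [] k8 k5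
    [[(k1,k2),(k8,k2)],[(k4,k2)],[(k7,k2)],[(k2,k2),(k5,k2)],[(k2,k2),(k5,k2)],[(k0,k2)],[(k3,k2)],[(k6,k2),(k9,k2)],
    [(k6,k2),(k9,k2)],[(k1,k2),(k8,k2)]]
    [] k0
    [[k0,k0,k0,k0,k2]]
    [.contra [z1]])]⟩

/-- classes `0 1 0 2 3`, types `S0 C0 S0 C0 C0` -/
noncomputable def cU5_347 : CertX :=
  ⟨[k0,k20,k0,k36,k52],[(false,k0,[k0,k1,k2,k3,k4])],[[[([z1,z0,z0,z1,z1],z1)],[([z1,z0,z0,z1,z1],z2)],[]]],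
    [.old (.leafM k0 [k0,k3,k4] [] [(k1,k2,z1,[y1,z1]),(k2,k1,z1,[y1,z1])]),
    .old (.leafM k0 [k1,k2,k3,k4,k0] [(z1,[y1,z1])] []),
    .old (.lp [k2,k2,k2,k2,k2] [k0,k0,k0,k0,k0,k0,k0,k0,k0,k0] k0 [] k8 k5
    [[(k8,k2)],[(k0,k2),(k3,k2),(k4,k2),(k7,k2)],[(k0,k2),(k3,k2),(k4,k2),(k7,k2)],[(k5,k2)],[(k2,k2)],[(k0,k2),(k3,
    k2),(k4,k2),(k7,k2)],[(k0,k2),(k3,k2),(k4,k2),(k7,k2)],[(k9,k2)],[(k6,k2)],[(k1,k2)]]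
    [] k0
    [[k1,k0,k0,k1,k1],[k0,k1,k1,k0,k0]]
    [.ref k1 k0 [(z1,[z1])],.ref k0 k0 [(z1,[y1,z1])]])]⟩

/-- classes `0 1 0 2 3`, types `S0 C0 S0 C0 S0` -/
noncomputable def cU5_348 : CertX :=
  ⟨[k0,k20,k0,k36,k48],[(false,k0,[k0,k1,k2,k3,k4])],[[[([z1,z0,z0,z1,z1],z1)],[([z1,z0,z0,z1,z1],z2)],[]]],
    [.old (.leafM k0 [k0,k3,k4] [] [(k1,k2,z1,[y1,z1]),(k2,k1,z1,[y1,z1])]),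
    .old (.leafM k0 [k1,k2,k3,k4,k0] [(z1,[y1,z1])] []),
    .old (.lp [k2,k2,k2,k2,k2] [k0,k0,k0,k0,k0,k0,k0,k0,k0,k0] k0 [] k8 k5
    [[(k1,k2),(k8,k2)],[(k0,k2),(k3,k2),(k4,k2),(k7,k2)],[(k0,k2),(k3,k2),(k4,k2),(k7,k2)],[(k5,k2)],[(k2,k2)],[(k0,
    k2),(k3,k2),(k4,k2),(k7,k2)],[(k0,k2),(k3,k2),(k4,k2),(k7,k2)],[(k9,k2)],[(k6,k2)],[(k1,k2),(k8,k2)]]
    [] k0
    [[k2,k0,k0,k0,k0],[k1,k0,k0,k1,k1],[k0,k1,k1,k0,k0]]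
    [.contra [z1],.ref k1 k0 [(z1,[z1])],.ref k0 k0 [(z1,[y1,z1])]])]⟩

/-- classes `0 1 0 2 3`, types `S0 C0 S0 S0 S0` -/
noncomputable def cU5_349 : CertX :=
  ⟨[k0,k20,k0,k32,k48],[(false,k0,[k0,k1,k2,k3,k4])],[[[([z1,z0,z0,z1,z1],z1)],[([z1,z0,z0,z1,z1],z2)],[]]],
    [.old (.leafM k0 [k0,k3,k4] [] [(k1,k2,z1,[y1,z1]),(k2,k1,z1,[y1,z1])]),
    .old (.leafM k0 [k1,k2,k3,k4,k0] [(z1,[y1,z1])] []),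
    .old (.lp [k2,k2,k2,k2,k2] [k0,k0,k0,k0,k0,k0,k0,k0,k0,k0] k0 [] k8 k5
    [[(k1,k2),(k8,k2)],[(k0,k2),(k3,k2),(k4,k2),(k7,k2)],[(k0,k2),(k3,k2),(k4,k2),(k7,k2)],[(k5,k2)],[(k2,k2)],[(k0,
    k2),(k3,k2),(k4,k2),(k7,k2)],[(k0,k2),(k3,k2),(k4,k2),(k7,k2)],[(k6,k2),(k9,k2)],[(k6,k2),(k9,k2)],[(k1,k2),(k8,
    k2)]]
    [] k0
    [[k2,k0,k0,k0,k0],[k1,k0,k0,k1,k1],[k0,k1,k1,k0,k0],[k0,k0,k0,k2,k0],[k0,k0,k0,k0,k2]]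
    [.contra [z1],.ref k1 k0 [(z1,[z1])],.ref k0 k0 [(z1,[y1,z1])],.contra [z1],.contra [z1]])]⟩

/-- classes `0 1 0 2 3`, types `S0 S0 S0 C0 C0` -/
noncomputable def cU5_350 : CertX :=
  ⟨[k0,k16,k0,k36,k52],[(false,k0,[k0,k1,k2,k3,k4])],[[[([z1,z0,z0,z1,z1],z1)],[([z1,z0,z0,z1,z1],z2)],[]]],
    [.old (.leafM k0 [k0,k3,k4] [] [(k1,k2,z1,[y1,z1]),(k2,k1,z1,[y1,z1])]),
    .old (.leafM k0 [k1,k2,k3,k4,k0] [(z1,[y1,z1])] []),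
    .old (.lp [k2,k2,k2,k2,k2] [k0,k0,k0,k0,k0,k0,k0,k0,k0,k0] k0 [] k8 k5
    [[(k8,k2)],[(k0,k2),(k3,k2),(k4,k2),(k7,k2)],[(k0,k2),(k3,k2),(k4,k2),(k7,k2)],[(k2,k2),(k5,k2)],[(k2,k2),(k5,
    k2)],[(k0,k2),(k3,k2),(k4,k2),(k7,k2)],[(k0,k2),(k3,k2),(k4,k2),(k7,k2)],[(k9,k2)],[(k6,k2)],[(k1,k2)]]
    [] k0
    [[k1,k0,k0,k1,k1],[k0,k2,k0,k0,k0],[k0,k1,k1,k0,k0],[k0,k0,k2,k0,k0]]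
    [.ref k1 k0 [(z1,[z1])],.contra [z1],.ref k0 k0 [(z1,[y1,z1])],.contra [z1]])]⟩

/-- classes `0 1 0 2 3`, types `S0 S0 S0 C0 S0` -/
noncomputable def cU5_351 : CertX :=
  ⟨[k0,k16,k0,k36,k48],[(false,k0,[k0,k1,k2,k3,k4])],[[[([z1,z0,z0,z1,z1],z1)],[([z1,z0,z0,z1,z1],z2)],[]]],
    [.old (.leafM k0 [k0,k3,k4] [] [(k1,k2,z1,[y1,z1]),(k2,k1,z1,[y1,z1])]),
    .old (.leafM k0 [k1,k2,k3,k4,k0] [(z1,[y1,z1])] []),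
    .old (.lp [k2,k2,k2,k2,k2] [k0,k0,k0,k0,k0,k0,k0,k0,k0,k0] k0 [] k8 k5
    [[(k1,k2),(k8,k2)],[(k0,k2),(k3,k2),(k4,k2),(k7,k2)],[(k0,k2),(k3,k2),(k4,k2),(k7,k2)],[(k2,k2),(k5,k2)],[(k2,k2),
    (k5,k2)],[(k0,k2),(k3,k2),(k4,k2),(k7,k2)],[(k0,k2),(k3,k2),(k4,k2),(k7,k2)],[(k9,k2)],[(k6,k2)],[(k1,k2),(k8,
    k2)]]
    [] k0
    [[k2,k0,k0,k0,k0],[k1,k0,k0,k1,k1],[k0,k2,k0,k0,k0],[k0,k1,k1,k0,k0],[k0,k0,k2,k0,k0]]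
    [.contra [z1],.ref k1 k0 [(z1,[z1])],.contra [z1],.ref k0 k0 [(z1,[y1,z1])],.contra [z1]])]⟩

/-- classes `0 1 2 3 4`, types `C0 C0 C0 C0 C0` -/
noncomputable def cU5_352 : CertX :=
  ⟨[k4,k20,k36,k52,k68],[],[[[]]],
    [.old (.lp [k2,k2,k2,k2,k2] [k0,k0,k0,k0,k0,k0,k0,k0,k0,k0] k0 [] k8 k5
    [[(k8,k2)],[(k3,k2)],[(k0,k2)],[(k5,k2)],[(k2,k2)],[(k7,k2)],[(k4,k2)],[(k9,k2)],[(k6,k2)],[(k1,k2)]]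
    [] k0
    []
    [])]⟩

/-- classes `0 1 2 3 4`, types `C0 C0 C0 C0 S0` -/
noncomputable def cU5_353 : CertX :=
  ⟨[k4,k20,k36,k52,k64],[],[[[]]],
    [.old (.lp [k2,k2,k2,k2,k2] [k0,k0,k0,k0,k0,k0,k0,k0,k0,k0] k0 [] k8 k5
    [[(k1,k2),(k8,k2)],[(k3,k2)],[(k0,k2)],[(k5,k2)],[(k2,k2)],[(k7,k2)],[(k4,k2)],[(k9,k2)],[(k6,k2)],[(k1,k2),(k8,
    k2)]]
    [] k0
    []
    [])]⟩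

/-- classes `0 1 2 3 4`, types `C0 C0 C0 S0 S0` -/
noncomputable def cU5_354 : CertX :=
  ⟨[k4,k20,k36,k48,k64],[],[[[]]],
    [.old (.lp [k2,k2,k2,k2,k2] [k0,k0,k0,k0,k0,k0,k0,k0,k0,k0] k0 [] k8 k5
    [[(k1,k2),(k8,k2)],[(k3,k2)],[(k0,k2)],[(k5,k2)],[(k2,k2)],[(k7,k2)],[(k4,k2)],[(k6,k2),(k9,k2)],[(k6,k2),(k9,
    k2)],[(k1,k2),(k8,k2)]]
    [] k0
    [[k0,k0,k0,k0,k2]]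
    [.contra [z1]])]⟩

/-- classes `0 1 2 3 4`, types `C0 C0 S0 C0 S0` -/
noncomputable def cU5_355 : CertX :=
  ⟨[k4,k20,k32,k52,k64],[],[[[]]],
    [.old (.lp [k2,k2,k2,k2,k2] [k0,k0,k0,k0,k0,k0,k0,k0,k0,k0] k0 [] k8 k5
    [[(k1,k2),(k8,k2)],[(k3,k2)],[(k0,k2)],[(k5,k2)],[(k2,k2)],[(k4,k2),(k7,k2)],[(k4,k2),(k7,k2)],[(k9,k2)],[(k6,
    k2)],[(k1,k2),(k8,k2)]]
    [] k0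
    []
    [])]⟩

/-- classes `0 1 2 3 4`, types `C0 C0 S0 S0 S0` -/
noncomputable def cU5_356 : CertX :=
  ⟨[k4,k20,k32,k48,k64],[],[[[]]],
    [.old (.lp [k2,k2,k2,k2,k2] [k0,k0,k0,k0,k0,k0,k0,k0,k0,k0] k0 [] k8 k5
    [[(k1,k2),(k8,k2)],[(k3,k2)],[(k0,k2)],[(k5,k2)],[(k2,k2)],[(k4,k2),(k7,k2)],[(k4,k2),(k7,k2)],[(k6,k2),(k9,k2)],
    [(k6,k2),(k9,k2)],[(k1,k2),(k8,k2)]]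
    [] k0
    [[k0,k0,k0,k2,k0],[k0,k0,k0,k0,k2]]
    [.contra [z1],.contra [z1]])]⟩

/-- classes `0 1 2 3 4`, types `C0 S0 C0 S0 S0` -/
noncomputable def cU5_357 : CertX :=
  ⟨[k4,k16,k36,k48,k64],[],[[[]]],
    [.old (.lp [k2,k2,k2,k2,k2] [k0,k0,k0,k0,k0,k0,k0,k0,k0,k0] k0 [] k8 k5
    [[(k1,k2),(k8,k2)],[(k3,k2)],[(k0,k2)],[(k2,k2),(k5,k2)],[(k2,k2),(k5,k2)],[(k7,k2)],[(k4,k2)],[(k6,k2),(k9,k2)],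
    [(k6,k2),(k9,k2)],[(k1,k2),(k8,k2)]]
    [] k0
    [[k0,k0,k0,k0,k2]]
    [.contra [z1]])]⟩

/-- classes `0 1 2 3 4`, types `C0 S0 S0 S0 S0` -/
noncomputable def cU5_358 : CertX :=
  ⟨[k4,k16,k32,k48,k64],[],[[[]]],
    [.old (.lp [k2,k2,k2,k2,k2] [k0,k0,k0,k0,k0,k0,k0,k0,k0,k0] k0 [] k8 k5
    [[(k1,k2),(k8,k2)],[(k3,k2)],[(k0,k2)],[(k2,k2),(k5,k2)],[(k2,k2),(k5,k2)],[(k4,k2),(k7,k2)],[(k4,k2),(k7,k2)],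
    [(k6,k2),(k9,k2)],[(k6,k2),(k9,k2)],[(k1,k2),(k8,k2)]]
    [] k0
    [[k0,k0,k2,k0,k0],[k0,k0,k0,k2,k0],[k0,k0,k0,k0,k2]]
    [.contra [z1],.contra [z1],.contra [z1]])]⟩

/-- the certificates of this file -/
noncomputable def lU5_4 : List CertX :=
  [cU5_202, cU5_203, cU5_204, cU5_205, cU5_206, cU5_207, cU5_208, cU5_209, cU5_210, cU5_211, cU5_212, cU5_213,
      cU5_214, cU5_215, cU5_216, cU5_217, cU5_218, cU5_219, cU5_220, cU5_221, cU5_222, cU5_223, cU5_224,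
      cU5_225, cU5_226, cU5_227, cU5_228, cU5_229, cU5_230, cU5_231, cU5_232, cU5_233, cU5_234, cU5_235,
      cU5_236, cU5_237, cU5_238, cU5_239, cU5_240, cU5_241, cU5_242, cU5_243, cU5_244, cU5_245, cU5_246,
      cU5_247, cU5_248, cU5_249, cU5_250, cU5_251, cU5_252, cU5_253, cU5_254, cU5_255, cU5_256, cU5_257,
      cU5_258, cU5_259, cU5_260, cU5_261, cU5_262, cU5_263, cU5_264, cU5_265, cU5_266, cU5_267, cU5_268,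
      cU5_269, cU5_270, cU5_271, cU5_272, cU5_273, cU5_274, cU5_275, cU5_276, cU5_277, cU5_278, cU5_279,
      cU5_280, cU5_281, cU5_282, cU5_283, cU5_284, cU5_285, cU5_286, cU5_287, cU5_288, cU5_289, cU5_290,
      cU5_291, cU5_292, cU5_293, cU5_294, cU5_295, cU5_296, cU5_297, cU5_298, cU5_299, cU5_300, cU5_301,
      cU5_302, cU5_303, cU5_304, cU5_305, cU5_306, cU5_307, cU5_308, cU5_309, cU5_310, cU5_311, cU5_312,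
      cU5_313, cU5_314, cU5_315, cU5_316, cU5_317, cU5_318, cU5_319, cU5_320, cU5_321, cU5_322, cU5_323,
      cU5_324, cU5_325, cU5_326, cU5_327, cU5_328, cU5_329, cU5_330, cU5_331, cU5_332, cU5_333, cU5_334,
      cU5_335, cU5_336, cU5_337, cU5_338, cU5_339, cU5_340, cU5_341, cU5_342, cU5_343, cU5_344, cU5_345,
      cU5_346, cU5_347, cU5_348, cU5_349, cU5_350, cU5_351, cU5_352, cU5_353, cU5_354, cU5_355, cU5_356,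
      cU5_357, cU5_358]

theorem gU5_4 : allF (chkE 5 ttU5) lU5_4 = true := by
  decide +kernel

end Pool.Agent.Lib_MP_fa6e45
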