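import Pool.Agent.Lib_MP_fa6e45.CXT
import Pool.Agent.Lib_MP_fa6e45.HK

/-!
MP_fa6e45_co, stage 7: certificates (generated by a program).
-/

namespace Pool.Agent.Lib_MP_fa6e45

/-- classes `0 0 0 0 0 0`, types `B0 B0 B0 B1 B1 B1` -/
noncomputable def cU6_0 : CertX :=
  ⟨[k8,k8,k8,k9,k9,k9],[(false,k0,[k0,k1,k2,k3,k4,k5]),(false,k3,[k3,k4,k5,k0,k1,k2]),(true,k0,[k0,k5,k4,k3,k2,k1])],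
    [[[([z1,z0,z1,z1,z0,z1],z2)],[([z1,z0,z1,z1,z1,z0],z2)],[([z1,z0,z0,z1,z0,z0],z2)],[([z1,z0,z1,z0,z1,z0],z2)],
    [([z1,z1,z0,z0,z0,z1],z2)],[([z1,z0,z0,y1,z0,z0],z0),([z0,z1,z0,z1,z1,z0],z2)],[([z1,z0,z1,z0,z0,z1],z2)],[]]],
    [.old (.leafM k5 [k0,k2,k3,k5] [] [(k1,k4,z1,[y1,z1]),(k4,k1,z1,[y1,z1])]),
    .old (.leafM k3 [k2,k3,k4,k0] [] [(k5,k1,z1,[y1,z1]),(k1,k5,z1,[y1,z1])]),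
    .old (.leafM k6 [k1,k2,k4,k5] [] [(k3,k0,z1,[z1]),(k0,k3,z1,[z1])]),
    .old (.leafM k1 [k0,k1,k2,k3,k4,k5] [(z1,[y1,z1]),(z1,[z1])] []),
    .old (.leafM k6 [k2,k3,k4,k5,k0,k1] [(z1,[z1])] []),
    .old (.tor k0 false k0 [(z1,[y1,y1,z1]),(z1,[z0,z1]),(z1,[z0,y1,z1]),(z1,[z1,z1])]),
    .old (.lp [k8,k8,k8,k12,k4,k6] [k2,k2,k2,k2,k2,k2,k0,k0,k4,k4,k3,k3] k0 [[],[k0,k0,k0,k0,k0,k0,k0,k0,k0,k0,k1],[k0,k0,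
    k0,k0,k0,k0,k0,k0,k0,k0,k1,k1],[],[],[k0,k0,k0,k0,k0,k0,k0,k0,k0,k0,k1,k1],[],[],[],[],[k0,k0,k0,k1,k1],[k1,k0,k0,
    k1,k1]] k24 k5
    [[(k2,k7),(k3,k7),(k0,k8),(k4,k9),(k5,k9),(k7,k9)],[(k8,k6),(k9,k6),(k11,k7),(k1,k8),(k10,k8),(k6,k10)],[(k8,k6),
    (k9,k6),(k1,k7),(k10,k7),(k11,k7),(k6,k10)],[(k8,k6),(k9,k6),(k10,k6),(k1,k7),(k11,k7),(k6,k10)],[(k8,k6),(k9,k6),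
    (k11,k7),(k10,k8),(k1,k9),(k6,k10)],[(k8,k6),(k9,k6),(k11,k7),(k10,k8),(k1,k9),(k6,k10)],[(k8,k8),(k9,k8),(k10,
    k8),(k1,k9),(k11,k9),(k6,k12)],[(k0,k10),(k2,k10),(k3,k10),(k4,k10),(k5,k10),(k7,k12)],[(k0,k6),(k2,k6),(k3,k6),
    (k4,k6),(k5,k6),(k7,k8)],[(k0,k6),(k2,k6),(k3,k6),(k4,k6),(k5,k6),(k7,k8)],[(k0,k7),(k2,k7),(k3,k7),(k4,k7),(k5,
    k7),(k7,k9)],[(k2,k6),(k3,k7),(k0,k8),(k4,k8),(k5,k8),(k7,k8)]]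
    [] k0
    [[k2,k0,k0,k0,k0,k0],[k1,k1,k0,k0,k1,k0],[k1,k1,k0,k0,k0,k1],[k1,k0,k1,k0,k1,k0],[k1,k0,k0,k1,k0,k0],[k0,k1,k0,k0,
    k1,k0],[k0,k1,k0,k0,k0,k1],[k0,k0,k1,k0,k1,k0],[k0,k0,k1,k0,k0,k1]]
    [.contra [z1],.ref k5 k0 [(z1,[z1,z1,y1]),(z1,[z0,y1,z1])],.ref k4 k0 [(z1,[z1])],.ref k3 k0 [(z1,[z1])],
    .ref k2 k0 [(z1,[z1])],.contra [y1,y1,z1],.ref k1 k0 [(z1,[y1,z0,z1])],.ref k1 k1 [(z1,[y1,z0,z1])],.contra [y1,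
    z1]]),
    .old (.lp [k8,k8,k8,k12,k4,k6] [k2,k2,k2,k2,k2,k2,k0,k0,k4,k4,k3,k3] k0 [[],[k0,k0,k0,k0,k0,k0,k0,k0,k0,k0,k1],[k0,k0,
    k0,k0,k0,k0,k0,k0,k0,k0,k1,k1],[],[],[k0,k0,k0,k0,k0,k0,k0,k0,k0,k0,k1,k1],[],[],[],[],[k0,k0,k0,k1,k1],[k1,k0,k0,
    k1,k1]] k24 k5
    [[(k2,k7),(k3,k7),(k0,k8),(k4,k9),(k5,k9),(k7,k9)],[(k8,k6),(k9,k6),(k11,k7),(k1,k8),(k10,k8),(k6,k10)],[(k8,k6),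
    (k9,k6),(k1,k7),(k10,k7),(k11,k7),(k6,k10)],[(k8,k6),(k9,k6),(k10,k6),(k1,k7),(k11,k7),(k6,k10)],[(k8,k6),(k9,k6),
    (k11,k7),(k10,k8),(k1,k9),(k6,k10)],[(k8,k6),(k9,k6),(k11,k7),(k10,k8),(k1,k9),(k6,k10)],[(k8,k8),(k9,k8),(k10,
    k8),(k1,k9),(k11,k9),(k6,k12)],[(k0,k10),(k2,k10),(k3,k10),(k4,k10),(k5,k10),(k7,k12)],[(k0,k6),(k2,k6),(k3,k6),
    (k4,k6),(k5,k6),(k7,k8)],[(k0,k6),(k2,k6),(k3,k6),(k4,k6),(k5,k6),(k7,k8)],[(k0,k7),(k2,k7),(k3,k7),(k4,k7),(k5,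
    k7),(k7,k9)],[(k2,k6),(k3,k7),(k0,k8),(k4,k8),(k5,k8),(k7,k8)]]
    [] k0
    [[k2,k0,k0,k0,k0,k0],[k1,k1,k0,k0,k1,k0],[k1,k1,k0,k0,k0,k1],[k1,k0,k1,k0,k1,k0],[k1,k0,k0,k1,k0,k0],[k0,k1,k0,k0,
    k1,k0],[k0,k1,k0,k0,k0,k1],[k0,k0,k1,k0,k1,k0],[k0,k0,k1,k0,k0,k1]]
    [.contra [z1],.ref k6 k1 [(z1,[y1,z1])],.ref k4 k0 [(z1,[z1])],.ref k3 k0 [(z1,[z1])],.ref k2 k0 [(z1,[z1])],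
    .ref k0 k0 [(z1,[y1,z1])],.ref k1 k0 [(z1,[y1,z1])],.ref k1 k1 [(z1,[y1,z1])],.ref k0 k2 [(z1,[y1,z1])]])]⟩

/-- classes `0 0 0 0 0 0`, types `B0 B0 B1 B0 B1 B1` -/
noncomputable def cU6_1 : CertX :=
  ⟨[k8,k8,k9,k8,k9,k9],[(false,k0,[k0,k1,k2,k3,k4,k5]),(true,k0,[k0,k5,k4,k3,k2,k1])],[[[([z1,z0,z1,z1,z1,z0],z2)],
    [([z1,z0,z1,z0,z1,z0],z2)],[([z1,z0,z0,z0,z1,z0],z2)],[([z1,z0,z0,z1,z0,z0],z2)],[([z1,z1,z0,z0,z0,z1],z2)],[([z1,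
    z1,z0,z0,z1,z1],z2),([z0,z0,z1,z0,y1,z0],z0)],[([z1,z0,z0,z1,z1,z0],z2),([z0,z1,z0,y1,z0,z1],z0)],[([z3,z0,z0,z0,
    z0,z0],z1),([z0,z1,z0,z0,z0,z1],z1),([z0,z0,z1,z0,z1,z0],z2)],[([z3,z3,z0,z0,z0,z3],z4),([z0,z0,z3,z0,z0,z0],z2),
    ([z0,z0,z0,z3,z0,z0],z2)],[([z3,z0,z0,z0,z0,z0],z2),([z0,z1,z0,z0,z0,z1],z1),([z0,z0,z1,z0,z1,z0],z2)],[([z1,z0,
    z0,z0,y1,z0],y1),([z0,z1,z0,z0,z0,z1],z1),([z0,z0,z1,z0,z1,z0],z2)],[([z1,z1,z0,z0,y1,z1],z0),([z0,z0,z1,z0,z1,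
    z0],z2)]],[[([z1,z1,z0,z0,z1,z1],z2)],[([z3,z0,z0,z0,z0,z0],z2),([z0,z3,z0,z0,z0,z3],z2),([z0,z0,z1,z0,z1,z0],
    z2)],[([z3,z0,z0,z0,y3,z0],y2),([z0,z1,z0,z0,z1,z1],z2),([z0,z0,z1,z0,z1,z0],z2)],[([z3,z3,z0,z0,z0,z3],z4),([z0,
    z0,z1,z0,z1,z0],z2)],[([z1,z0,z0,z1,y1,z0],z0),([z0,z1,z0,z0,z1,z1],z2)],[([z2,z0,z0,z0,z0,z0],z1),([z0,z1,z0,z0,
    z0,z1],z1),([z0,z0,z1,z0,z1,z0],z2)],[([z1,z0,z0,z1,z0,z0],z1),([z0,z1,z0,z0,z0,z1],z1)],[([z1,z1,z0,z1,z0,z1],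
    z2)],[([z1,z0,z0,z1,z1,z0],z2),([z0,z1,z0,z0,z1,z1],z2)],[([z1,z0,z0,z1,z1,z0],z2)],[]]],
    [.old (.leafM k3 [k2,k3,k4,k0] [] [(k5,k1,z1,[y1,z1]),(k1,k5,z1,[y1,z1])]),
    .old (.leafM k5 [k0,k1,k2,k3,k4,k5] [(z1,[y1,z1]),(z1,[z1])] []),
    .old (.leafM k3 [k1,k2,k3,k5] [] [(k4,k0,z1,[z1]),(k0,k4,z1,[z1])]),
    .old (.leafM k5 [k1,k2,k4,k5] [] [(k3,k0,z1,[z1]),(k0,k3,z1,[z1])]),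
    .old (.leafM k6 [k2,k3,k4,k5,k0,k1] [(z1,[z1])] []),
    .old (.tor k3 false k5 [(z1,[y1,y1,z1]),(z1,[y1,z0,z1]),(z1,[z1]),(z1,[z1,z1])]),
    .old (.tor k1 false k3 [(z1,[y1,z0,z1]),(z1,[z1,z1]),(z1,[y1,y1,z1]),(z1,[z1])]),
    .old (.leafM k11 [k1,k3,k5,k0] [(z1,[y1,y3,y3,z3]),(z1,[z1]),(z1,[z0,z1])] [(k2,k4,z1,[z0,z0,z1]),(k4,k2,z1,[z0,z0,
    z1])]),
    .old (.lp [k62,k62,k116,k84,k120,k34] [k29,k29,k29,k29,k2,k2,k18,k18,k0,k0,k43,k43] k0 [[],[k0,k0,k0,k0,k0,k32],[],[],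
    [k32,k0,k0,k0,k0,k0,k0,k36],[k0,k0,k0,k0,k0,k0,k0,k4],[k0,k0,k0,k0,k4,k36]] (nat_lit 240) k6
    [[(k0,k62),(k2,k62),(k3,k62),(k6,k73),(k5,k89),(k9,k91)],[(k10,k48),(k11,k48),(k1,k62),(k4,k89),(k8,k91),(k7,
    k105)],[(k10,k48),(k11,k48),(k4,k57),(k1,k62),(k7,k73),(k8,k91)],[(k10,k48),(k11,k48),(k1,k62),(k7,k73),(k4,k89),
    (k8,k91)],[(k10,k75),(k11,k75),(k1,k89),(k7,k100),(k4,k116),(k8,k118)],[(k3,k57),(k6,k64),(k0,k89),(k2,k89),(k5,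
    k116),(k9,k122)],[(k2,k73),(k3,k73),(k6,k80),(k5,k100),(k0,k105),(k9,k138)],[(k10,k59),(k11,k59),(k4,k64),(k1,
    k73),(k7,k80),(k8,k102)],[(k10,k77),(k11,k77),(k1,k91),(k8,k120),(k4,k122),(k7,k138)],[(k0,k91),(k2,k91),(k3,k91),
    (k6,k102),(k5,k118),(k9,k120)],[(k0,k48),(k2,k48),(k3,k48),(k6,k59),(k5,k75),(k9,k77)],[(k0,k48),(k2,k48),(k3,
    k48),(k6,k59),(k5,k75),(k9,k77)]]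
    [] k0
    [[k2,k0,k0,k0,k0,k0],[k3,k0,k0,k0,k0,k0],[k2,k1,k0,k0,k0,k1],[k1,k1,k0,k0,k0,k1],[k1,k0,k1,k0,k0,k0],[k1,k0,k0,k1,
    k0,k0],[k1,k0,k0,k0,k1,k0],[k0,k1,k1,k0,k0,k1],[k0,k1,k0,k1,k0,k1],[k0,k1,k0,k0,k1,k1],[k0,k1,k0,k0,k0,k1],[k0,k2,
    k0,k0,k0,k2],[k0,k0,k2,k0,k0,k0],[k0,k0,k1,k1,k0,k0],[k0,k0,k0,k2,k0,k0]]
    [.contra [z1],.ref k2 k0 [(z3,[z1,y1,y1,y1,z3])],.ref k2 k0 [(z3,[z3,y2,y1,y1,z3])],.contra [z3,y1,z2],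
    .contra [y3,z1,z1],.contra [y3,z1,z0,z1],.ref k2 k0 [(z1,[z1])],.contra [y3,z1,z1],.contra [y3,z1,z0,z1],
    .ref k2 k0 [(z3,[y3,y1,y2,y2,z6])],.contra [y3,z1,z1],.ref k7 k0 [(z2,[y3,z2]),(z2,[z1]),(z3,[z0,y1,z0,y1,z3])],
    .contra [z1],.contra [z3,z0,z1,y1],.contra [z3,z0,z2,y2]]),
    .old (.leafM k11 [k5,k0,k1,k3] [(z1,[z1]),(z1,[y1,y3,y3,z3]),(z1,[z0,z1])] [(k2,k4,z1,[z0,z0,z1]),(k4,k2,z1,[z0,z0,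
    z1])]),
    .old (.lp [k44,k28,k40,k50,k56,k20] [k6,k6,k14,k14,k8,k8,k3,k3,k0,k0,k18,k18] k0 [[k0,k0,k0,k0,k0,k0,k0,k0,k0,k12,
    k12],[k0,k0,k0,k0,k4],[k0,k0,k0,k0,k0,k4],[],[k0,k0,k0,k4],[k4,k0,k0,k0,k0,k0,k0,k24],[k0,k0,k0,k0,k24],[k0,k0,k0,
    k0,k0,k0,k0,k0,k14],[k0,k12],[k0,k0,k0,k0,k0,k0,k14],[],[k0,k12]] k120 k6
    [[(k0,k32),(k2,k36),(k3,k36),(k5,k42),(k6,k47),(k9,k50)],[(k1,k32),(k10,k32),(k11,k32),(k8,k38),(k4,k46),(k7,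
    k47)],[(k4,k34),(k7,k35),(k1,k36),(k10,k36),(k11,k36),(k8,k42)],[(k10,k24),(k11,k24),(k4,k30),(k1,k36),(k7,k39),
    (k8,k42)],[(k10,k30),(k11,k30),(k4,k40),(k1,k42),(k8,k48),(k7,k49)],[(k2,k30),(k3,k34),(k5,k40),(k6,k45),(k0,k46),
    (k9,k72)],[(k6,k26),(k3,k35),(k2,k39),(k0,k47),(k5,k49),(k9,k53)],[(k7,k26),(k10,k35),(k11,k35),(k4,k45),(k1,k47),
    (k8,k67)],[(k11,k24),(k10,k38),(k1,k50),(k7,k53),(k8,k56),(k4,k72)],[(k0,k38),(k2,k42),(k3,k42),(k5,k48),(k9,k56),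
    (k6,k67)],[(k2,k24),(k9,k24),(k5,k30),(k0,k32),(k6,k35),(k3,k36)],[(k2,k24),(k5,k30),(k0,k32),(k6,k35),(k3,k36),
    (k9,k38)]]
    [] k0
    [[k2,k0,k0,k0,k0,k0],[k3,k0,k0,k0,k0,k0],[k1,k1,k0,k0,k0,k1],[k1,k0,k1,k0,k0,k0],[k1,k0,k0,k1,k0,k0],[k1,k0,k0,k0,
    k1,k0],[k0,k1,k1,k0,k0,k1],[k0,k1,k0,k1,k0,k1],[k0,k1,k0,k0,k1,k1],[k0,k1,k0,k0,k0,k1],[k0,k0,k2,k0,k0,k0],[k0,k0,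
    k1,k1,k0,k0],[k0,k0,k0,k2,k0,k0],[k0,k0,k0,k3,k0,k0],[k0,k0,k0,k4,k0,k0],[k0,k0,k0,k0,k2,k0]]
    [.contra [z1],.ref k9 k0 [(z1,[z1]),(z1,[z0,z0,z1]),(z1,[z0,z0,z0,z1])],.contra [z1,z0,y1],.contra [y1,z2,z0,z2],
    .contra [y1,z1,y1,z0,z1],.ref k2 k0 [(z1,[z1])],.contra [z1,z0,y1],.contra [z1,z1,z0,z2,y1],.contra [y1,z0,z1,z1],
    .contra [y1,z1,z1,z1],.contra [z1],.contra [z1,z1,z1,z2,y1],.contra [z1,z2,z2,z4,y2],.ref k7 k0 [(z1,[y1,z0,y3,y3,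
    z3]),(z1,[z0,z0,z1]),(z1,[z0,z0,z0,z1])],.ref k2 k0 [(z2,[y1,y2,y4,y4,z4])],.contra [y1,z0,z0,z2]]),
    .old (.lp [k80,k76,k80,k142,k80,k20] [k31,k31,k33,k33,k31,k31,k0,k0,k31,k31,k61,k61] k0 [[],[k0,k0,k0,k0,k0,k16],[k0,
    k0,k0,k0,k40],[],[k16,k0,k0,k0,k0,k0,k0,k18],[k0,k0,k0,k40,k0,k0,k0,k80],[k0,k0,k0,k0,k80,k18],[k0,k0,k0,k0,k0,k0,
    k0,k0,k0,k0,k0,k2],[],[],[k0,k0,k0,k0,k0,k0,k2]] (nat_lit 240) k6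
    [[(k2,k78),(k3,k78),(k0,k80),(k5,k80),(k9,k80),(k6,k113)],[(k10,k50),(k11,k50),(k1,k80),(k4,k80),(k8,k80),(k7,
    k127)],[(k10,k48),(k11,k48),(k4,k62),(k1,k78),(k8,k78),(k7,k109)],[(k10,k48),(k11,k48),(k7,k69),(k1,k78),(k4,k78),
    (k8,k78)],[(k10,k50),(k11,k50),(k1,k80),(k8,k80),(k7,k111),(k4,k120)],[(k3,k62),(k2,k78),(k0,k80),(k6,k93),(k5,
    k120),(k9,k160)],[(k6,k62),(k2,k69),(k3,k109),(k5,k111),(k0,k127),(k9,k129)],[(k7,k62),(k10,k81),(k11,k81),(k4,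
    k93),(k8,k111),(k1,k113)],[(k10,k48),(k11,k50),(k1,k80),(k8,k80),(k7,k129),(k4,k160)],[(k2,k78),(k3,k78),(k0,k80),
    (k5,k80),(k9,k80),(k6,k111)],[(k2,k48),(k3,k48),(k0,k50),(k5,k50),(k9,k50),(k6,k81)],[(k2,k48),(k3,k48),(k9,k48),
    (k0,k50),(k5,k50),(k6,k81)]]
    [] k0
    [[k2,k0,k0,k0,k0,k0],[k1,k1,k0,k0,k0,k1],[k1,k0,k1,k0,k0,k0],[k1,k0,k0,k0,k1,k0],[k0,k1,k1,k0,k1,k1],[k0,k1,k1,k0,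
    k0,k1],[k0,k1,k0,k1,k0,k1],[k0,k1,k0,k0,k1,k1],[k0,k1,k0,k0,k0,k1],[k0,k2,k0,k0,k0,k2],[k0,k0,k1,k1,k0,k0],[k0,k0,
    k0,k2,k0,k0],[k0,k0,k0,k3,k0,k0],[k0,k0,k0,k0,k2,k0]]
    [.contra [z1],.contra [y1,z1,z1],.contra [y1,z1,z1],.ref k2 k0 [(z1,[z1])],.contra [z1,z0,y1],.contra [y1,z1,z1],
    .contra [y1,z0,y1,z1],.ref k6 k1 [(z1,[y1,z0,z0,z1]),(z1,[z1,z1,z1,y1])],.contra [y1,z1,z1],.ref k10 k0 [(z2,[y1,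
    z2]),(z2,[z1]),(z1,[z0,z0,z1])],.contra [z1,z1,z2,y1],.contra [z1,z2,z4,y2],.ref k8 k0 [(z1,[y1,z0,y3,z3]),(z1,
    [z1,z3,z6,y3]),(z1,[z1])],.contra [y1,z0,z2]]),
    .old (.lp [k20,k10,k20,k29,k20,k20] [k5,k5,k10,k10,k3,k7,k0,k1,k5,k5,k5,k5] k0 [[],[],[k0,k0,k0,k0,k0,k2],[],[k0,k0,
    k0,k2],[k0,k0,k0,k0,k0,k0,k9],[k0,k0,k0,k0,k0,k0,k0,k0,k10],[k0,k0,k0,k0,k9],[],[k0,k0,k0,k0,k0,k0,k0,k10]] k60 k5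
    [[(k2,k15),(k3,k15),(k5,k18),(k0,k20),(k9,k20),(k6,k25)],[(k1,k20),(k8,k20),(k10,k20),(k11,k20),(k4,k22),(k7,
    k24)],[(k1,k15),(k8,k15),(k10,k15),(k11,k15),(k4,k17),(k7,k19)],[(k1,k15),(k4,k15),(k8,k15),(k10,k15),(k11,k15),
    (k7,k19)],[(k1,k18),(k8,k18),(k10,k18),(k11,k18),(k4,k20),(k7,k24)],[(k2,k15),(k3,k17),(k5,k20),(k0,k22),(k9,k22),
    (k6,k36)],[(k9,k15),(k2,k19),(k3,k19),(k0,k24),(k5,k24),(k6,k29)],[(k11,k15),(k1,k25),(k8,k25),(k10,k25),(k7,k29),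
    (k4,k36)],[(k7,k15),(k1,k20),(k10,k20),(k11,k20),(k4,k22),(k8,k30)],[(k2,k15),(k3,k15),(k5,k18),(k0,k20),(k6,k25),
    (k9,k30)],[(k2,k15),(k3,k15),(k6,k15),(k5,k18),(k0,k20),(k9,k20)],[(k2,k15),(k3,k15),(k5,k18),(k0,k20),(k9,k20),
    (k6,k25)]]
    [] k0
    [[k2,k0,k0,k0,k0,k0],[k1,k1,k0,k0,k0,k1],[k1,k0,k1,k0,k0,k0],[k1,k0,k0,k1,k0,k0],[k1,k0,k0,k0,k1,k0],[k0,k1,k1,k0,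
    k0,k1],[k0,k1,k0,k1,k0,k1],[k0,k1,k0,k0,k1,k1],[k0,k1,k0,k0,k0,k1],[k0,k0,k2,k0,k0,k0],[k0,k0,k1,k0,k1,k0],[k0,k0,
    k0,k2,k0,k0],[k0,k0,k0,k1,k1,k0]]
    [.contra [z1],.contra [y1,z1],.ref k2 k1 [(z1,[z1])],.ref k3 k0 [(z1,[z1])],.contra [y1,z1],.ref k6 k0 [(z1,[y1,
    z0,z1]),(z1,[z1,z1,y1])],.ref k1 k0 [(z1,[y1,z0,z1])],.contra [y1,z1],.contra [y1,z1],.contra [z1],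
    .ref k11 k1 [(z1,[y1,z1]),(z1,[z1])],.contra [y1,y2,z2],.ref k5 k0 [(z1,[z0,z1]),(z1,[y1,y1,z1])]]),
    .old (.leafM k10 [k1,k3,k5,k0] [(z1,[y1,y1,y3,z3]),(z1,[z1]),(z1,[z0,z1])] [(k2,k4,z1,[z0,z0,z1]),(k4,k2,z1,[z0,z0,
    z1])]),
    .old (.lp [k62,k64,k88,k88,k144,k32] [k39,k43,k40,k40,k28,k28,k28,k28,k0,k0,k56,k56] k0 [[],[k0,k0,k0,k0,k2,k28],[],
    [],[k28,k0,k0,k0,k0,k0,k0,k8],[k2,k0,k0,k0,k0,k0,k0,k8],[k0,k0,k0,k0,k8,k8]] (nat_lit 240) k6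
    [[(k2,k61),(k3,k61),(k0,k62),(k5,k73),(k6,k73),(k9,k101)],[(k10,k49),(k11,k49),(k1,k62),(k4,k79),(k7,k105),(k8,
    k105)],[(k4,k48),(k10,k48),(k11,k48),(k1,k61),(k7,k74),(k8,k104)],[(k10,k48),(k11,k48),(k1,k61),(k4,k76),(k7,k76),
    (k8,k104)],[(k10,k60),(k11,k60),(k1,k73),(k4,k88),(k7,k88),(k8,k116)],[(k3,k48),(k2,k76),(k0,k79),(k6,k80),(k5,
    k88),(k9,k124)],[(k3,k74),(k2,k76),(k6,k80),(k5,k88),(k0,k105),(k9,k124)],[(k10,k60),(k11,k60),(k1,k73),(k4,k80),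
    (k7,k80),(k8,k116)],[(k10,k88),(k11,k88),(k1,k101),(k4,k124),(k7,k124),(k8,k144)],[(k2,k104),(k3,k104),(k0,k105),
    (k5,k116),(k6,k116),(k9,k144)],[(k2,k48),(k3,k48),(k0,k49),(k5,k60),(k6,k60),(k9,k88)],[(k2,k48),(k3,k48),(k0,
    k49),(k5,k60),(k6,k60),(k9,k88)]]
    [] k0
    [[k2,k0,k0,k0,k0,k0],[k3,k0,k0,k0,k0,k0],[k2,k1,k0,k0,k0,k1],[k2,k0,k1,k0,k0,k0],[k1,k1,k1,k0,k0,k1],[k1,k1,k0,k0,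
    k0,k1],[k1,k0,k1,k0,k0,k0],[k1,k0,k0,k1,k0,k0],[k1,k0,k0,k0,k1,k0],[k0,k1,k1,k0,k0,k1],[k0,k1,k0,k1,k0,k1],[k0,k1,
    k0,k0,k0,k1],[k0,k2,k0,k0,k0,k2],[k0,k0,k2,k0,k0,k0],[k0,k0,k1,k1,k0,k0],[k0,k0,k0,k2,k0,k0]]
    [.contra [z1],.ref k2 k0 [(z3,[z2,y1])],.ref k2 k0 [(z1,[z2,y1,y2])],.ref k2 k0 [(z1,[z2,y1,z0,y2])],
    .ref k2 k0 [(z1,[y2,z1,z2,z2])],.contra [z1,y1,y3,y2,z2],.contra [z1,y1,y2,y3,z2],.contra [y1,z0,y1,z0,z1],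
    .ref k2 k0 [(z1,[z1])],.contra [z1,z0,y1,z1],.contra [y1,z0,z0,y1,z1],.contra [y2,z1,z2,z1],.contra [z1,z0,y2,z2],
    .contra [z1],.contra [y1,z0,y1,z0,z1],.contra [z1]]),
    .old (.lp [k62,k34,k116,k98,k106,k62] [k27,k27,k41,k41,k0,k0,k9,k9,k5,k5,k27,k27] k0 [[],[k0,k0,k0,k0,k0,k18],[k0,k0,
    k0,k0,k4,k26],[],[k18,k0,k0,k26],[k0,k0,k0,k4,k0,k0,k0,k18],[k0,k0,k0,k0,k18,k0,k0,k0,k0,k0,k0,k10],[k0,k0,k0,k0,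
    k0,k0,k0,k0,k36],[],[k0,k0,k0,k0,k0,k0,k36],[k0,k0,k0,k0,k0,k0,k0,k10]] (nat_lit 240) k6
    [[(k2,k48),(k3,k48),(k0,k62),(k6,k80),(k5,k89),(k9,k94)],[(k1,k62),(k10,k62),(k11,k62),(k8,k84),(k4,k89),(k7,
    k98)],[(k1,k48),(k10,k48),(k11,k48),(k4,k57),(k7,k66),(k8,k70)],[(k1,k48),(k10,k48),(k11,k48),(k4,k49),(k7,k62),
    (k8,k70)],[(k1,k89),(k10,k89),(k11,k89),(k8,k111),(k4,k120),(k7,k133)],[(k2,k49),(k3,k57),(k0,k89),(k6,k107),(k5,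
    k120),(k9,k129)],[(k2,k62),(k3,k66),(k6,k80),(k0,k98),(k9,k102),(k5,k133)],[(k10,k70),(k1,k80),(k7,k80),(k11,k80),
    (k4,k107),(k8,k138)],[(k11,k48),(k10,k84),(k1,k94),(k7,k102),(k8,k106),(k4,k129)],[(k2,k70),(k3,k70),(k0,k84),(k9,
    k106),(k5,k111),(k6,k138)],[(k2,k48),(k3,k48),(k9,k48),(k0,k62),(k6,k80),(k5,k89)],[(k2,k48),(k3,k48),(k0,k62),
    (k6,k70),(k9,k84),(k5,k89)]]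
    [] k0
    [[k2,k0,k0,k0,k0,k0],[k3,k0,k0,k0,k0,k0],[k2,k1,k0,k0,k0,k1],[k1,k1,k0,k0,k1,k1],[k1,k1,k0,k0,k0,k1],[k1,k0,k1,k0,
    k0,k0],[k1,k0,k0,k1,k0,k0],[k1,k0,k0,k0,k1,k0],[k0,k1,k1,k0,k0,k1],[k0,k1,k0,k1,k0,k1],[k0,k1,k0,k0,k1,k1],[k0,k1,
    k0,k0,k0,k1],[k0,k2,k0,k0,k0,k2],[k0,k0,k0,k2,k0,k0],[k0,k0,k0,k0,k2,k0]]
    [.contra [z1],.ref k13 k0 [(z1,[z1]),(z1,[y1,z1]),(z1,[z0,z0,z1])],.ref k13 k0 [(z1,[z3,y1]),(z1,[y3,z2]),(z1,[z0,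
    z0,z1])],.ref k12 k0 [(z1,[z1])],.contra [z1,y1,y2,z2],.ref k2 k1 [(z1,[z1])],.contra [y1,z0,y1,z1],
    .ref k2 k0 [(z1,[z1])],.ref k14 k1 [(z1,[y3,z1]),(z1,[z1]),(z1,[z0,z0,z1])],.contra [y1,z0,y1,z1],
    .ref k14 k0 [(z1,[y3,z1]),(z1,[z1]),(z1,[z0,z0,z1])],.contra [y1,z0,y1,z1],.ref k7 k0 [(z2,[y3,z2]),(z2,[z1]),(z1,
    [z0,z0,z1])],.contra [z1],.contra [y1,z0,z2]]),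
    .old (.lp [k80,k76,k80,k82,k140,k20] [k30,k30,k32,k32,k30,k30,k29,k29,k0,k0,k60,k60] k0 [[k0,k0,k0,k0,k0,k0,k0,k0,k2],
    [],[k0,k0,k0,k0,k0,k14],[k0,k0,k0,k0,k0,k0,k0,k0,k2],[k0,k0,k0,k14],[k0,k0,k0,k0,k0,k0,k2,k20],[k0,k0,k0,k0,k20,
    k0,k0,k0,k0,k2,k2],[k0,k0,k0,k0,k2],[k0,k0,k0,k0,k0,k0,k0,k2],[k0,k2,k2],[],[k0,k0,k0,k0,k0,k0,k0,
    k2]] (nat_lit 240) k6
    [[(k2,k78),(k3,k78),(k6,k79),(k0,k80),(k5,k80),(k9,k110)],[(k11,k48),(k10,k50),(k1,k80),(k4,k80),(k7,k81),(k8,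
    k110)],[(k10,k48),(k11,k48),(k1,k78),(k4,k78),(k7,k79),(k8,k110)],[(k10,k48),(k11,k48),(k4,k64),(k1,k78),(k7,k79),
    (k8,k110)],[(k11,k48),(k10,k50),(k1,k80),(k4,k80),(k7,k95),(k8,k110)],[(k2,k64),(k3,k78),(k0,k80),(k5,k80),(k6,
    k83),(k9,k130)],[(k6,k62),(k2,k79),(k3,k79),(k0,k81),(k5,k95),(k9,k109)],[(k10,k51),(k11,k51),(k7,k62),(k1,k79),
    (k4,k83),(k8,k109)],[(k10,k82),(k11,k82),(k7,k109),(k1,k110),(k4,k130),(k8,k140)],[(k6,k109),(k0,k110),(k2,k110),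
    (k3,k110),(k5,k110),(k9,k140)],[(k0,k48),(k2,k48),(k3,k48),(k5,k48),(k6,k51),(k9,k82)],[(k2,k48),(k3,k48),(k0,
    k50),(k5,k50),(k6,k51),(k9,k82)]]
    [] k0
    [[k2,k0,k0,k0,k0,k0],[k1,k1,k0,k0,k0,k1],[k1,k0,k1,k0,k0,k0],[k1,k0,k0,k1,k0,k0],[k1,k0,k0,k2,k0,k0],[k1,k0,k0,k0,
    k1,k0],[k0,k1,k1,k0,k0,k1],[k0,k1,k0,k1,k0,k1],[k0,k1,k0,k0,k0,k1],[k0,k2,k0,k0,k0,k2],[k0,k0,k2,k0,k0,k0],[k0,k0,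
    k1,k1,k0,k0],[k0,k0,k0,k2,k0,k0],[k0,k0,k0,k3,k0,k0],[k0,k0,k0,k1,k1,k0]]
    [.contra [z1],.contra [y1,z1,z1],.contra [y1,z0,y1,z1],.contra [y1,z0,y1,z1],.ref k12 k1 [(z1,[y1,z1,z0,z1])],
    .ref k2 k0 [(z1,[z1])],.contra [z1,y1,y2,z1],.contra [y1,z1,z1],.contra [y1,z1,z1],.contra [z1,y2,y4,z2],
    .contra [z1],.contra [y1,z0,y1,z1],.contra [z1],.ref k15 k0 [(z1,[y1,z3,z3]),(z1,[z0,y1,y1,z1])],.ref k12 k1 [(z1,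
    [y1,z0,z0,z1])]]),
    .old (.leafM k12 [k1,k3,k5,k0] [(z1,[y1,y2,y2,z2]),(z1,[z1]),(z1,[z0,z1])] [(k2,k4,z1,[z0,z0,z1]),(k4,k2,z1,[z0,z0,
    z1])]),
    .old (.lp [k44,k28,k40,k50,k56,k20] [k6,k6,k14,k14,k8,k8,k3,k3,k0,k0,k18,k18] k0 [[k0,k0,k0,k0,k0,k0,k0,k0,k0,k12,
    k12],[k0,k0,k0,k0,k4],[k0,k0,k0,k0,k0,k4],[],[k0,k0,k0,k4],[k4,k0,k0,k0,k0,k0,k0,k24],[k0,k0,k0,k0,k24],[k0,k0,k0,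
    k0,k0,k0,k0,k0,k14],[k0,k12],[k0,k0,k0,k0,k0,k0,k14],[],[k0,k12]] k120 k6
    [[(k0,k32),(k2,k36),(k3,k36),(k5,k42),(k6,k47),(k9,k50)],[(k1,k32),(k10,k32),(k11,k32),(k8,k38),(k4,k46),(k7,
    k47)],[(k4,k34),(k7,k35),(k1,k36),(k10,k36),(k11,k36),(k8,k42)],[(k10,k24),(k11,k24),(k4,k30),(k1,k36),(k7,k39),
    (k8,k42)],[(k10,k30),(k11,k30),(k4,k40),(k1,k42),(k8,k48),(k7,k49)],[(k2,k30),(k3,k34),(k5,k40),(k6,k45),(k0,k46),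
    (k9,k72)],[(k6,k26),(k3,k35),(k2,k39),(k0,k47),(k5,k49),(k9,k53)],[(k7,k26),(k10,k35),(k11,k35),(k4,k45),(k1,k47),
    (k8,k67)],[(k11,k24),(k10,k38),(k1,k50),(k7,k53),(k8,k56),(k4,k72)],[(k0,k38),(k2,k42),(k3,k42),(k5,k48),(k9,k56),
    (k6,k67)],[(k2,k24),(k9,k24),(k5,k30),(k0,k32),(k6,k35),(k3,k36)],[(k2,k24),(k5,k30),(k0,k32),(k6,k35),(k3,k36),
    (k9,k38)]]
    [] k0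
    [[k2,k0,k0,k0,k0,k0],[k3,k0,k0,k0,k0,k0],[k1,k1,k0,k0,k0,k1],[k1,k0,k1,k0,k0,k0],[k1,k0,k0,k1,k0,k0],[k1,k0,k0,k0,
    k1,k0],[k0,k1,k1,k0,k0,k1],[k0,k1,k0,k1,k0,k1],[k0,k1,k0,k0,k1,k1],[k0,k1,k0,k0,k0,k1],[k0,k0,k2,k0,k0,k0],[k0,k0,
    k1,k1,k0,k0],[k0,k0,k0,k2,k0,k0],[k0,k0,k0,k3,k0,k0],[k0,k0,k0,k4,k0,k0],[k0,k0,k0,k0,k2,k0]]
    [.contra [z1],.ref k9 k0 [(z1,[z1]),(z1,[z0,z0,z1]),(z1,[z0,y1,y1,z1])],.contra [z1,z0,y1],.ref k2 k1 [(z1,[z1])],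
    .contra [y1,z2],.ref k2 k0 [(z1,[z1])],.contra [z1,z0,y1],.contra [z1,z0,y1],.contra [y1,y1,z0,z1],.contra [y1,z1,
    z1],.contra [z1],.ref k12 k0 [(z1,[y1,z0,z0,z1])],.contra [z1],.ref k15 k0 [(z1,[y1,z3,z3]),(z1,[z0,y1,y1,z1])],
    .ref k17 k0 [(z2,[y1,z4]),(z1,[z0,z0,z1]),(z1,[z0,y1,y1,z1])],.contra [y1,y2,y2,z2]]),
    .old (.lp [k80,k72,k80,k82,k140,k24] [k30,k30,k34,k34,k30,k30,k29,k29,k0,k0,k58,k58] k0 [[k0,k0,k0,k0,k0,k0,k0,k0,k4,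
    k4],[k0,k0,k0,k0,k0,k16],[],[],[k16],[k0,k0,k0,k0,k0,k0,k16,k20],[k0,k0,k0,k0,k20,k0,k0,k0,k0,k4],[k0,k0,k0,k0,
    k16],[k0,k4,k0,k0,k0,k0,k0,k4],[k0,k4]] (nat_lit 240) k6
    [[(k2,k76),(k3,k76),(k0,k80),(k5,k80),(k6,k81),(k9,k110)],[(k11,k48),(k10,k52),(k1,k80),(k4,k80),(k7,k97),(k8,
    k106)],[(k10,k48),(k11,k52),(k4,k60),(k1,k76),(k7,k77),(k8,k110)],[(k10,k48),(k11,k48),(k1,k76),(k4,k76),(k7,k77),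
    (k8,k106)],[(k10,k52),(k11,k52),(k1,k80),(k4,k80),(k7,k81),(k8,k110)],[(k3,k60),(k2,k76),(k0,k80),(k5,k80),(k6,
    k97),(k9,k130)],[(k6,k62),(k2,k77),(k3,k77),(k5,k81),(k9,k95),(k0,k97)],[(k10,k53),(k11,k53),(k7,k62),(k1,k81),
    (k4,k97),(k8,k107)],[(k10,k82),(k11,k86),(k7,k95),(k1,k110),(k4,k130),(k8,k140)],[(k0,k106),(k2,k106),(k6,k107),
    (k3,k110),(k5,k110),(k9,k140)],[(k0,k48),(k2,k48),(k3,k52),(k5,k52),(k6,k53),(k9,k86)],[(k2,k48),(k3,k48),(k0,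
    k52),(k5,k52),(k6,k53),(k9,k82)]]
    [] k0
    [[k2,k0,k0,k0,k0,k0],[k1,k1,k1,k0,k0,k1],[k1,k1,k0,k0,k0,k1],[k1,k0,k1,k0,k0,k0],[k1,k0,k0,k1,k0,k0],[k1,k0,k0,k0,
    k1,k0],[k0,k1,k1,k0,k0,k1],[k0,k1,k0,k1,k0,k1],[k0,k1,k0,k0,k0,k1],[k0,k2,k0,k0,k0,k2],[k0,k0,k2,k0,k0,k0],[k0,k0,
    k1,k1,k0,k0],[k0,k0,k0,k2,k0,k0],[k0,k0,k0,k3,k0,k0],[k0,k0,k0,k1,k1,k0]]
    [.contra [z1],.ref k12 k1 [(z1,[z1])],.contra [y1,z1],.ref k2 k1 [(z1,[z1])],.contra [y1,z1],.ref k2 k0 [(z1,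
    [z1])],.ref k16 k1 [(z1,[y1,z1]),(z1,[z1])],.contra [y1,z1],.contra [y1,z1],.ref k18 k0 [(z2,[y1,z2]),(z2,[z1])],
    .contra [z1],.ref k12 k0 [(z1,[y1,z0,z1])],.contra [z1],.ref k15 k0 [(z1,[y1,z3]),(z1,[z0,y1,z1])],
    .ref k12 k1 [(z1,[y1,z0,z1])]]),
    .old (.tor k21 false k0 [(z1,[z0,z1]),(z1,[y1,z0,z1]),(z1,[z1]),(z1,[z0,y1,z1])]),
    .old (.lp [k8,k6,k8,k8,k8,k9] [k2,k2,k3,k3,k2,k2,k2,k2,k2,k2,k3,k0] k0 [[],[],[k0,k0,k0,k0,k0,k0,k0,k0,k0,k1,k1],[],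
    [],[],[k0,k0,k0,k0,k0,k0,k0,k0,k4],[],[k0,k0,k0,k1],[k0,k0,k0,k0,k0,k0,k0,k4],[],[k0,k0,k0,k1]] k24 k5
    [[(k2,k6),(k3,k7),(k0,k8),(k5,k8),(k6,k8),(k9,k8)],[(k10,k7),(k1,k8),(k4,k8),(k7,k8),(k8,k8),(k11,k10)],[(k10,k6),
    (k1,k7),(k4,k7),(k7,k7),(k8,k7),(k11,k9)],[(k1,k6),(k8,k6),(k10,k6),(k4,k7),(k7,k7),(k11,k9)],[(k1,k8),(k4,k8),
    (k7,k8),(k8,k8),(k10,k8),(k11,k11)],[(k2,k7),(k3,k7),(k0,k8),(k5,k8),(k6,k8),(k9,k8)],[(k2,k7),(k3,k7),(k0,k8),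
    (k5,k8),(k6,k8),(k9,k8)],[(k11,k6),(k10,k7),(k1,k8),(k4,k8),(k7,k8),(k8,k8)],[(k10,k7),(k1,k8),(k4,k8),(k7,k8),
    (k11,k10),(k8,k12)],[(k2,k6),(k3,k7),(k0,k8),(k5,k8),(k6,k8),(k9,k12)],[(k6,k6),(k2,k9),(k3,k9),(k0,k10),(k9,k10),
    (k5,k11)],[(k2,k6),(k3,k6),(k0,k7),(k6,k7),(k9,k7),(k5,k8)]]
    [] k0
    [[k2,k0,k0,k0,k0,k0],[k1,k1,k0,k0,k0,k1],[k1,k0,k1,k0,k0,k0],[k1,k0,k0,k1,k0,k0],[k1,k0,k0,k0,k1,k0],[k0,k1,k0,k1,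
    k0,k1],[k0,k1,k0,k0,k1,k1],[k0,k1,k0,k0,k0,k1],[k0,k0,k2,k0,k0,k0],[k0,k0,k1,k1,k0,k0],[k0,k0,k1,k0,k1,k0],[k0,k0,
    k0,k2,k0,k0],[k0,k0,k0,k1,k1,k0]]
    [.contra [z1],.ref k4 k0 [(z1,[z1])],.ref k2 k1 [(z1,[z1])],.contra [y1,z1],.contra [y1,z1],.ref k1 k0 [(z1,[y1,
    z0,z1])],.ref k20 k0 [(z1,[z0,z1]),(z1,[z1])],.contra [y1,y1,z1],.contra [z1],.ref k12 k0 [(z1,[y1,z0,z1])],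
    .ref k19 k0 [(z1,[y1,z0,z1])],.contra [z1],.contra [y1,z1]]),
    .old (.lp [k8,k6,k8,k8,k8,k9] [k2,k2,k3,k3,k2,k2,k2,k2,k2,k2,k3,k0] k0 [[],[],[k0,k0,k0,k0,k0,k0,k0,k0,k0,k1,k1],[],
    [],[],[k0,k0,k0,k0,k0,k0,k0,k0,k4],[],[k0,k0,k0,k1],[k0,k0,k0,k0,k0,k0,k0,k4],[],[k0,k0,k0,k1]] k24 k5
    [[(k2,k6),(k3,k7),(k0,k8),(k5,k8),(k6,k8),(k9,k8)],[(k10,k7),(k1,k8),(k4,k8),(k7,k8),(k8,k8),(k11,k10)],[(k10,k6),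
    (k1,k7),(k4,k7),(k7,k7),(k8,k7),(k11,k9)],[(k1,k6),(k8,k6),(k10,k6),(k4,k7),(k7,k7),(k11,k9)],[(k1,k8),(k4,k8),
    (k7,k8),(k8,k8),(k10,k8),(k11,k11)],[(k2,k7),(k3,k7),(k0,k8),(k5,k8),(k6,k8),(k9,k8)],[(k2,k7),(k3,k7),(k0,k8),
    (k5,k8),(k6,k8),(k9,k8)],[(k11,k6),(k10,k7),(k1,k8),(k4,k8),(k7,k8),(k8,k8)],[(k10,k7),(k1,k8),(k4,k8),(k7,k8),
    (k11,k10),(k8,k12)],[(k2,k6),(k3,k7),(k0,k8),(k5,k8),(k6,k8),(k9,k12)],[(k6,k6),(k2,k9),(k3,k9),(k0,k10),(k9,k10),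
    (k5,k11)],[(k2,k6),(k3,k6),(k0,k7),(k6,k7),(k9,k7),(k5,k8)]]
    [] k0
    [[k2,k0,k0,k0,k0,k0],[k1,k1,k0,k0,k0,k1],[k1,k0,k1,k0,k0,k0],[k1,k0,k0,k1,k0,k0],[k1,k0,k0,k0,k1,k0],[k0,k1,k0,k1,
    k0,k1],[k0,k1,k0,k0,k1,k1],[k0,k1,k0,k0,k0,k1],[k0,k0,k2,k0,k0,k0],[k0,k0,k1,k1,k0,k0],[k0,k0,k1,k0,k1,k0],[k0,k0,
    k0,k2,k0,k0],[k0,k0,k0,k1,k1,k0]]
    [.contra [z1],.ref k4 k0 [(z1,[z1])],.ref k2 k1 [(z1,[z1])],.ref k3 k0 [(z1,[z1])],.ref k2 k0 [(z1,[z1])],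
    .ref k1 k0 [(z1,[y1,z1])],.ref k21 k1 [(z1,[y1,z1])],.ref k0 k0 [(z1,[y1,z1])],.contra [z1],.ref k12 k0 [(z1,[y1,
    z1])],.ref k19 k0 [(z1,[y1,z1])],.contra [z1],.ref k12 k1 [(z1,[y1,z1])]])]⟩

/-- the certificates of this file -/
noncomputable def lU6_0 : List CertX :=
  [cU6_0, cU6_1]

theorem gU6_0 : allF (chkE 6 ttU6) lU6_0 = true := by
  decide +kernel

end Pool.Agent.Lib_MP_fa6e45
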