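import Pool.Agent.Lib_MP_fa6e45.CY6_1d

/-!
MP_fa6e45_co, stage 7: certificates (generated by a program).
-/

namespace Pool.Agent.Lib_MP_fa6e45

noncomputable def cU6_2_n0_0 : List XN :=
  [.old (.leafM k6 [k1,k2,k4,k5] [] [(k3,k0,z1,[z1]),(k0,k3,z1,[z1])]),
    .old (.leafM k6 [k1,k2,k3,k4,k5,k0] [(z1,[z1])] []),
    .old (.leafM k1 [k0,k1,k2,k3,k4,k5] [(z1,[y1,z1]),(z1,[z1])] []),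
    .old (.tor k3 false k2 [(z1,[z1,z1]),(z1,[z1]),(z1,[y1,z0,z1]),(z1,[y1,y1,z1])]),
    .old (.tor k22 true k3 [(z1,[z0,z1]),(z2,[z1,z0,z1]),(z2,[z0,y1,y1,z2]),(z2,[y1,y1,z0,z2])]),
    .old (.leafM k12 [k0,k1,k2,k4] [(z1,[z0,z1]),(z1,[y2,y1,y2,z2]),(z1,[z1])] [(k3,k5,z1,[z0,z0,z1]),(k5,k3,z1,[z0,z0,
    z1])]),
    .old (.leafM k11 [k0,k1,k2,k4] [(z1,[z0,z1]),(z1,[y3,y1,y3,z3]),(z1,[z1])] [(k3,k5,z1,[z0,z0,z1]),(k5,k3,z1,[z0,z0,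
    z1])]),
    .old (.lp [(nat_lit 1450),(nat_lit 1578),(nat_lit 2708),(nat_lit 1978),(nat_lit 2226),(nat_lit 1556)] [(nat_lit 629),
    (nat_lit 629),(nat_lit 565),(nat_lit 565),k0,k0,(nat_lit 365),(nat_lit 365),(nat_lit 241),(nat_lit 241),
    (nat_lit 576),(nat_lit 576)] k0 [[k0,k0,(nat_lit 426),(nat_lit 362)],[k0,k0,k0,k0,k0,k0,k28,k0,k0,k0,
    (nat_lit 314),(nat_lit 254)],[k0,(nat_lit 362),k0,k0,k0,(nat_lit 892)],[k0,(nat_lit 426),k0,k0,k0,(nat_lit 1052),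
    k0,k0,k160],[k0,k0,(nat_lit 1052),(nat_lit 892)],[k0,k0,k0,k0,k0,k0,k182,(nat_lit 826)],[k0,k0,k0,k0,
    (nat_lit 826),k0,k0,k0,k0,(nat_lit 488)],[k28,k0,k0,k0,k182],[k0,k0,k0,k0,k0,k0,k0,(nat_lit 488),k0,k0,
    (nat_lit 670),(nat_lit 736)],[k0,k0,k160],[(nat_lit 254),k0,k0,k0,k0,k0,k0,k0,k0,(nat_lit 736)],[(nat_lit 314),k0,
    k0,k0,k0,k0,k0,k0,k0,(nat_lit 670)]] (nat_lit 5760) k6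
    [[(k8,(nat_lit 1168)),(k3,(nat_lit 1200)),(k0,(nat_lit 1704)),(k7,(nat_lit 1714)),(k4,(nat_lit 2079)),(k11,
    (nat_lit 2239))],[(k2,(nat_lit 1152)),(k5,(nat_lit 1653)),(k1,(nat_lit 1704)),(k6,(nat_lit 1742)),(k10,
    (nat_lit 1817)),(k9,(nat_lit 1838))],[(k1,(nat_lit 1200)),(k10,(nat_lit 1313)),(k6,(nat_lit 1778)),(k9,
    (nat_lit 1874)),(k2,(nat_lit 2004)),(k5,(nat_lit 2505))],[(k0,(nat_lit 1152)),(k4,(nat_lit 1251)),(k11,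
    (nat_lit 1567)),(k3,(nat_lit 2004)),(k8,(nat_lit 2062)),(k7,(nat_lit 2830))],[(k0,(nat_lit 1653)),(k4,
    (nat_lit 1656)),(k11,(nat_lit 1972)),(k8,(nat_lit 2467)),(k3,(nat_lit 2505)),(k7,(nat_lit 3235))],[(k2,
    (nat_lit 1251)),(k5,(nat_lit 1656)),(k1,(nat_lit 2079)),(k10,(nat_lit 2132)),(k6,(nat_lit 2525)),(k9,
    (nat_lit 3293))],[(k6,(nat_lit 1152)),(k1,(nat_lit 1714)),(k10,(nat_lit 1767)),(k9,(nat_lit 1920)),(k2,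
    (nat_lit 2830)),(k5,(nat_lit 3235))],[(k7,(nat_lit 1152)),(k8,(nat_lit 1614)),(k0,(nat_lit 1742)),(k11,
    (nat_lit 1767)),(k3,(nat_lit 1778)),(k4,(nat_lit 2525))],[(k0,(nat_lit 1838)),(k3,(nat_lit 1874)),(k7,
    (nat_lit 1920)),(k8,(nat_lit 2226)),(k11,(nat_lit 2379)),(k4,(nat_lit 3293))],[(k10,(nat_lit 1155)),(k1,
    (nat_lit 1168)),(k6,(nat_lit 1614)),(k2,(nat_lit 2062)),(k9,(nat_lit 2226)),(k5,(nat_lit 2467))],[(k2,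
    (nat_lit 1567)),(k6,(nat_lit 1767)),(k5,(nat_lit 1972)),(k10,(nat_lit 2226)),(k1,(nat_lit 2239)),(k9,
    (nat_lit 2379))],[(k8,(nat_lit 1155)),(k3,(nat_lit 1313)),(k7,(nat_lit 1767)),(k0,(nat_lit 1817)),(k4,
    (nat_lit 2132)),(k11,(nat_lit 2226))]]
    [] k0
    [[k2,k0,k0,k0,k0,k0],[k3,k0,k0,k0,k0,k0],[k2,k1,k0,k0,k0,k0],[k2,k0,k1,k0,k0,k0],[k2,k0,k0,k1,k0,k0],[k2,k0,k0,k0,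
    k1,k0],[k1,k1,k0,k0,k0,k0],[k2,k2,k0,k0,k0,k0],[k2,k1,k0,k0,k1,k0],[k1,k2,k0,k0,k0,k0],[k1,k1,k1,k0,k0,k0],[k1,k1,
    k0,k0,k1,k0],[k1,k1,k0,k0,k0,k1],[k1,k2,k0,k0,k0,k1],[k1,k0,k1,k0,k0,k0],[k1,k0,k2,k0,k0,k0],[k1,k0,k0,k1,k0,k0],
    [k1,k1,k0,k1,k0,k0],[k1,k0,k0,k2,k0,k0],[k1,k0,k0,k1,k1,k0],[k1,k0,k0,k1,k0,k1],[k1,k0,k0,k0,k1,k0],[k1,k0,k0,k0,
    k2,k0],[k1,k0,k0,k0,k1,k1],[k1,k0,k0,k0,k0,k1],[k0,k2,k0,k0,k0,k0],[k0,k2,k0,k0,k0,k1],[k0,k1,k1,k0,k0,k0],[k0,k1,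
    k2,k0,k0,k0],[k0,k1,k0,k1,k0,k0],[k0,k1,k0,k1,k0,k1],[k0,k1,k0,k0,k1,k0],[k0,k1,k1,k0,k1,k0],[k0,k1,k0,k0,k1,k1],
    [k0,k1,k0,k0,k0,k1],[k0,k1,k1,k0,k0,k1],[k0,k1,k0,k0,k0,k2],[k0,k0,k2,k0,k0,k0],[k0,k0,k3,k0,k0,k0],[k0,k0,k1,k0,
    k0,k1],[k0,k0,k0,k2,k0,k0],[k0,k0,k0,k3,k0,k0],[k0,k0,k0,k4,k0,k0],[k0,k0,k0,k2,k1,k0],[k0,k0,k0,k2,k0,k1],[k0,k0,
    k0,k1,k1,k0],[k0,k0,k0,k1,k1,k1],[k0,k0,k0,k1,k0,k1],[k0,k0,k0,k0,k2,k0],[k0,k0,k0,k0,k1,k1],[k0,k0,k0,k0,k0,k2]]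
    [.contra [z1],.ref k6 k0 [(z1,[z0,z0,z1]),(z1,[z1]),(z1,[z0,y1,y1,z0,y1,z1])],.contra [z2,y1,y2],.ref k0 k0 [(z2,
    [z1,y2,z0,z1])],.contra [z1,y1,z0,z0,y1],.contra [z1,z0,z1,z1,z1,y1],.contra [y1,z2,z4],.contra [z1,y1,y2],
    .contra [z2,y1,z0,z2,z2,y2],.contra [y1,z2,z4],.ref k0 k0 [(z1,[z1,y1,y1])],.contra [z1,z0,z1,z1,z1,y1],
    .contra [z1,z0,y1],.contra [z2,y1,y4],.ref k5 k0 [(z1,[z0,z0,z1]),(z1,[z1,z1,z0,y1]),(z1,[z0,y1,y1,z0,y1,z1])],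
    .contra [z1,y1,z0,z1],.contra [y1,z2,z2,z0,z1],.contra [z1,y1,z0,z0,y1],.contra [y1,z1,z0,z1,z2],.contra [y1,z0,
    y1,z0,z0,z1],.contra [z2,y1,z0,z0,y2],.contra [y1,z1,z1,y1,y1,z1],.contra [y1,y1,y2,y1,y2,z2],.contra [z2,z1,z2,
    z2,z2,y2],.contra [z2,z1],.contra [z1],.contra [z1,z0,y1],.contra [z2,z1,y2,y2],.contra [z1,z2,z0,y2],.contra [y1,
    z2,z2,z0,z1],.contra [y1,z0,z1,z1,z1],.contra [y1,z1,z1,y1,y1,z1],.contra [y2,y1,z0,z0,y2,z2],.contra [y1,y1,z0,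
    z0,y1,z1],.contra [y1,z1,z3],.contra [z1,z0,y1],.contra [z2,z1,y2],.contra [z1],.contra [z1,z4,z2,y3],
    .ref k0 k0 [(z1,[z1])],.contra [y1,z0,z0,z2,z2],.ref k0 k0 [(z2,[y1,z0,z0,z2,z3])],.ref k5 k0 [(z1,[z0,z0,z1]),
    (z2,[y1,z4,z0,z0,z4]),(z1,[z0,y1,y1,z0,y1,z1])],.ref k0 k0 [(z2,[y1,y1,y1,z1,z1,z1])],.ref k0 k0 [(z1,[y1,z0,z0,
    z1,z2])],.contra [y1,y1,y1,z1,z0,z1],.ref k0 k0 [(z1,[y1,y1,y1,z0,z0,z1])],.contra [z1,z0,z1,z0,y1],.contra [y1,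
    y2,y2,z0,y2,z2],.contra [z1,z1,z2,z1,z1,y1],.contra [z1,z1]]),
    .geo true z1 k5 [(y1,z2),(z2,y2),(z2,y2),(z0,z2),(z1,y1),(z0,z1)] [(z1,[z1]),(z1,[z0,z1]),(z1,[z0,z0,z1]),(z1,[z0,z0,
    z0,z1]),(z1,[y1,y1,y1,y1,z1]),(z1,
    [])] (Int.ofNat (nat_lit 524288)) (Int.ofNat (nat_lit 1048576)) (.s (.s (.l k1) (.l k1)) (.s (.l k1) (.l k1))) [],
    .geo true z6 k5 [(z0,z6),(z12,y6),(z0,z3),(z4,z0),(z8,y9),(z0,z6)] [(z1,[z6]),(z1,[z0,z6]),(z1,[z0,z0,z3]),(z1,[z0,z0,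
    z0,z2]),(z1,[y6,y6,y3,y2,z6]),(z1,
    [])] z0 (Int.ofNat (nat_lit 932068)) (.s (.s (.l k1) (.s (.l k1) (.l k1))) (.s (.s (.l k1) (.l k1)) (.l k1))) [],
    .geo true z1 k5 [(y4,z5),(z4,y4),(z4,y4),(y2,z4),(z2,y2),(z0,z1)] [(z1,[z1]),(z1,[z0,z1]),(z1,[z0,z0,z1]),(z1,[z0,z0,
    z0,z1]),(z1,[y1,y1,y1,y1,z1]),(z1,
    [])] (Int.ofNat (nat_lit 838860)) (Int.ofNat (nat_lit 1048576)) (.s (.s (.l k1) (.l k1)) (.s (.l k1) (.l k1))) [],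
    .geo true z1 k5 [(z0,z2),(z2,y5),(z0,z2),(z0,z2),(z2,y2),(z0,z1)] [(z1,[z1]),(z1,[z0,z1]),(z1,[z0,z0,z1]),(z1,[z0,z0,
    z0,z1]),(z1,[y1,y1,y1,y1,z1]),(z1,
    [])] z0 (Int.ofNat (nat_lit 419431)) (.s (.s (.s (.s (.l k2) (.l k1)) (.l k1)) (.s (.l k1) (.l k1))) (.s (.s (.l k1) (.l k1)) (.l k1))) [⟨z0,
    z1,[[k0,k1],[k2,k3],[k4,k5]],.bnd k0⟩]]

noncomputable def cU6_2_n0_1 : List XN :=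
  [.geo true z1 k5 [(z0,z2),(z2,y4),(z0,z4),(z0,z4),(z2,y7),(z0,z1)] [(z1,[z1]),(z1,[z0,z1]),(z1,[z0,z0,z1]),(z1,[z0,z0,
    z0,z1]),(z1,[y1,y1,y1,y1,z1]),(z1,
    [])] z0 (Int.ofNat (nat_lit 299594)) (.s (.s (.s (.s (.s (.l k2) (.l k1)) (.l k1)) (.l k1)) (.l k1)) (.l k1)) [⟨z0,
    z1,[[k0,k1],[k2,k3],[k4,k5]],.bnd k0⟩],
    .geo true z3 k5 [(z1,z0),(z4,z0),(z2,z0),(z2,z0),(z3,y3),(z0,z3)] [(z1,[z1]),(z1,[z0,z1]),(z1,[z0,z0,z1]),(z1,[z0,z0,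
    z0,z1]),(z1,[y1,y1,y1,y1,z3]),(z1,[])] z0 (Int.ofNat (nat_lit 1048576)) (.l k1) [],
    .geo true z5 k5 [(z2,z0),(z6,z0),(z4,z0),(z4,z0),(z4,y5),(z0,z5)] [(z1,[z1]),(z1,[z0,z1]),(z1,[z0,z0,z1]),(z1,[z0,z0,
    z0,z1]),(z1,[y1,y1,y1,y1,z5]),(z1,[])] z0 (Int.ofNat (nat_lit 838861)) (.l k1) [],
    .geo true z4 k5 [(z1,z0),(z6,z0),(z2,z0),(z2,z0),(z5,y4),(z0,z4)] [(z1,[z1]),(z1,[z0,z2]),(z1,[z0,z0,z2]),(z1,[z0,z0,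
    z0,z2]),(z1,[y1,y2,y2,y2,z4]),(z1,
    [])] z0 (Int.ofNat (nat_lit 1310720)) (.s (.s (.l k1) (.l k1)) (.s (.l k1) (.l k1))) [],
    .old (.lp [(nat_lit 322),(nat_lit 420),(nat_lit 310),(nat_lit 240),(nat_lit 296),(nat_lit 330)] [k49,k49,k0,k0,k100,
    k10,k90,k90,k62,k62,k90,k0] k0 [[k0,k0,k0,k0,k0,k0,k30,k0,k0,k0,k130],[k0,k0,(nat_lit 218),k12],[k12,k0,k0,k0,
    k138,k0,k0,k0,k0,k46],[(nat_lit 218),k0,k0,k0,k0,k0,k0,k0,k0,k80],[k0,k0,k0,k0,k0,k0,k0,k38,k0,k0,k48,k14],[k0,k0,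
    k0,k138],[k0,k0,k0,k0,k0,k38,k0,k0,k138],[k0,k30,k0,k0,k0,k0,k0,k0,k146],[k0,k0,k80,k46],[k0,k0,k0,k0,k0,k0,k146,
    k138],[k0,k0,k0,k0,k0,k14],[k0,k130,k0,k0,k0,k48]] (nat_lit 960) k6
    [[(k0,k192),(k4,(nat_lit 223)),(k7,(nat_lit 295)),(k8,(nat_lit 309)),(k3,(nat_lit 371)),(k11,(nat_lit 371))],[(k1,
    k192),(k9,(nat_lit 279)),(k6,(nat_lit 281)),(k10,(nat_lit 281)),(k5,(nat_lit 373)),(k2,(nat_lit 589))],[(k5,k192),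
    (k9,(nat_lit 358)),(k6,(nat_lit 360)),(k1,(nat_lit 371)),(k2,(nat_lit 408)),(k10,(nat_lit 460))],[(k7,k192),(k8,
    (nat_lit 312)),(k4,(nat_lit 320)),(k3,(nat_lit 408)),(k11,(nat_lit 500)),(k0,(nat_lit 589))],[(k3,k192),(k8,
    (nat_lit 268)),(k7,(nat_lit 320)),(k0,(nat_lit 373)),(k4,(nat_lit 448)),(k11,(nat_lit 456))],[(k6,k192),(k10,
    (nat_lit 216)),(k1,(nat_lit 223)),(k9,(nat_lit 258)),(k2,(nat_lit 320)),(k5,(nat_lit 448))],[(k2,k192),(k6,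
    (nat_lit 240)),(k10,(nat_lit 288)),(k1,(nat_lit 295)),(k9,(nat_lit 306)),(k5,(nat_lit 320))],[(k4,k192),(k11,
    k192),(k7,(nat_lit 240)),(k0,(nat_lit 281)),(k3,(nat_lit 360)),(k8,(nat_lit 414))],[(k11,(nat_lit 212)),(k4,
    (nat_lit 258)),(k0,(nat_lit 279)),(k7,(nat_lit 306)),(k3,(nat_lit 358)),(k8,(nat_lit 434))],[(k5,(nat_lit 268)),
    (k10,(nat_lit 268)),(k1,(nat_lit 309)),(k2,(nat_lit 312)),(k6,(nat_lit 414)),(k9,(nat_lit 434))],[(k6,k192),(k9,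
    (nat_lit 212)),(k10,(nat_lit 330)),(k1,(nat_lit 371)),(k5,(nat_lit 456)),(k2,(nat_lit 500))],[(k4,(nat_lit 216)),
    (k8,(nat_lit 268)),(k0,(nat_lit 281)),(k7,(nat_lit 288)),(k11,(nat_lit 330)),(k3,(nat_lit 460))]]
    [] k0
    [[k2,k0,k0,k0,k0,k0],[k3,k0,k0,k0,k0,k0],[k4,k0,k0,k0,k0,k0],[k2,k0,k1,k0,k0,k0],[k2,k0,k0,k1,k0,k0],[k2,k0,k0,k0,
    k1,k0],[k2,k0,k0,k0,k0,k1],[k1,k1,k0,k1,k0,k0],[k1,k0,k1,k0,k0,k0],[k1,k1,k1,k1,k0,k0],[k1,k0,k1,k1,k0,k0],[k1,k0,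
    k1,k0,k1,k0],[k1,k0,k0,k1,k0,k0],[k1,k0,k0,k2,k0,k0],[k1,k0,k0,k1,k0,k1],[k1,k0,k0,k0,k1,k0],[k1,k0,k0,k1,k1,k0],
    [k1,k0,k0,k0,k1,k1],[k1,k0,k0,k0,k0,k1],[k0,k2,k0,k0,k0,k0],[k0,k2,k1,k0,k0,k0],[k0,k1,k1,k0,k0,k0],[k0,k1,k1,k1,
    k0,k0],[k0,k1,k1,k2,k0,k0],[k0,k1,k1,k0,k1,k0],[k0,k1,k1,k0,k0,k1],[k0,k1,k1,k1,k0,k1],[k0,k1,k1,k0,k1,k1],[k0,k1,
    k0,k1,k0,k0],[k0,k1,k0,k2,k0,k0],[k0,k1,k0,k0,k1,k0],[k0,k1,k0,k1,k0,k1],[k0,k0,k2,k0,k0,k0],[k0,k0,k1,k1,k0,k0],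
    [k0,k0,k1,k2,k0,k0],[k0,k0,k1,k1,k0,k1],[k0,k0,k1,k0,k1,k0],[k0,k0,k1,k1,k1,k0],[k0,k0,k1,k0,k1,k1],[k0,k0,k1,k0,
    k0,k1],[k0,k0,k0,k2,k0,k0],[k0,k0,k0,k3,k0,k0],[k0,k0,k0,k2,k0,k1],[k0,k0,k0,k1,k1,k0],[k0,k0,k0,k1,k1,k1],[k0,k0,
    k0,k1,k0,k1],[k0,k0,k0,k1,k0,k2],[k0,k0,k0,k0,k2,k0],[k0,k0,k0,k0,k2,k1],[k0,k0,k0,k0,k1,k1],[k0,k0,k0,k0,k1,k2],
    [k0,k0,k0,k0,k0,k2]]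
    [.contra [z1],.ref k13 k1 [(z2,[z1,y3,z0,z3]),(z1,[y1,z3,z3]),(z1,[z1]),(z1,[z1,y3])],.ref k15 k1 [(z2,[z1,y4,z0,
    z4]),(z2,[y1,z4,z4]),(z2,[z1]),(z2,[z1,y4])],.ref k14 k1 [(z1,[z1,y2,z0,z2]),(z1,[y2,z4,z5,z1]),(z1,[z2,z1,z0,
    y1]),(z1,[z2,y4,z0,y1])],.ref k4 k0 [(z1,[z1,y2]),(z1,[z1]),(z1,[y1,z2,z2])],.ref k1 k2 [(z1,[z1,y1])],
    .ref k13 k1 [(z2,[z1,y2,z0,z3]),(z1,[y1,z2,z3]),(z1,[z1,z1]),(z1,[z1,y2])],.contra [z1,y1,y1],.contra [y1,z0,y1,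
    z0,z1],.contra [z1,y1,y1],.contra [y1,z0,y1,z0,z1],.contra [y1,z0,y1,z0,z1],.contra [y1,z0,y1,z0,z1],
    .ref k8 k3 [(z2,[y3,z1,y2,y1,z2]),(z1,[z1,y1]),(z1,[z1]),(z1,[y1,z1,z1])],.ref k4 k0 [(z1,[z1,y1]),(z1,[z1,z1]),
    (z1,[y1,z1,z2])],.contra [y1,z0,y1,z0,z1],.contra [y2,z1,y2,y1,z2],.ref k1 k2 [(z1,[z1])],.contra [z1,z1],
    .contra [y1,z2,z2],.contra [z1,y1,y3,y1,z1],.contra [y2,z1,z2,z1],.ref k1 k2 [(z1,[y1,z0,z0,z0,z1])],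
    .ref k12 k1 [(z1,[y1,z0,z1,z1]),(z1,[z2,z0,y1,y1]),(z1,[y2,z1,z2,z1]),(z1,[y2,z0,z2,z1])],.ref k4 k0 [(z1,[y1,y1,
    z0,z0,z1]),(z1,[y1,z1,z0,z0,z1]),(z1,[z1,z1,z2,z0,y1])],.contra [z2,z1,y2,y1],.contra [z1,z0,y1],.contra [z1,z0,
    y1],.ref k11 k4 [(z1,[z1,z0,y1,y1]),(z1,[y1,y1,z0,z2,z1]),(z1,[z0,z0,z0,y1]),(z1,[z0,z1,z0,y1])],.ref k1 k2 [(z2,
    [y1,z0,y1,y1,z2])],.ref k0 k3 [(z1,[z1])],.contra [z1,z0,y1],.contra [z1],.contra [y1,y1,y1,z1,z1],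
    .ref k10 k3 [(z1,[y3,y1,y1,z1,z1]),(z1,[z2,z0,z0,y1]),(z1,[z2,z1,z0,y1]),(z1,[y2,z0,z1,z1])],.contra [y1,y1,y1,z0,
    z1],.contra [y1,y1,y1,z1,z1],.contra [y1,z0,y1,z0,z1],.contra [y1,y1,y1,z0,z1],.contra [y1,y1,y1,z0,z1],
    .contra [z1],.ref k9 k2 [(z1,[z0,z1]),(z1,[z0,z0,z1]),(z1,[z0,z0,z0,z1]),(z1,[z1])],.ref k8 k3 [(z2,[y3,y2,y2,y1,
    z2]),(z1,[z1]),(z1,[z1,z1]),(z1,[y1,z0,z1])],.contra [y2,z1,y2,y1,z2],.contra [y2,y1,y2,y1,z2],.contra [y1,y1,y1,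
    z0,z1],.ref k4 k0 [(z1,[z1]),(z1,[z1,z2]),(z1,[y1,z0,z2])],.contra [z1],.ref k7 k5 [(z2,[y3,y2,y2,y1,z2]),(z2,[z1,
    z0,z0,z1]),(z1,[y1,z0,z1]),(z1,[z1,z1])],.contra [y1,y1,y1,z0,z1],.ref k1 k2 [(z1,[z1,z1])],.contra [z1,z2]]),
    .geo true z1 k5 [(y1,z2),(z2,y2),(z1,y1),(z0,z2),(z2,y2),(z0,z1)] [(z1,[z1]),(z1,[z0,z1]),(z1,[z0,z0,z1]),(z1,[z0,z0,
    z0,z1]),(z1,[y1,y1,y1,y1,z1]),(z1,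
    [])] (Int.ofNat (nat_lit 524288)) (Int.ofNat (nat_lit 1048576)) (.s (.s (.l k1) (.l k1)) (.s (.l k1) (.l k1))) [],
    .geo true z2 k5 [(z2,y1),(z0,z1),(z2,y1),(z0,z1),(z4,y2),(z0,z2)] [(z1,[z1]),(z1,[z0,z1]),(z1,[z0,z0,z1]),(z1,[z0,z0,
    z0,z1]),(z1,[y1,y1,y1,y1,z2]),(z1,
    [])] z0 (Int.ofNat (nat_lit 2097152)) (.s (.s (.l k2) (.l k1)) (.s (.l k1) (.l k3))) [⟨z0,z1,[[k0,k1],[k2,k3],[k4,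
    k5]],.bnd k1⟩,⟨z2,z1,[[k0,k2],[k1,k3],[k4,k5]],.bnd k0⟩],
    .geo true z1 k5 [(y1,z2),(z4,y4),(y2,z4),(z2,y2),(z1,y1),(z0,z1)] [(z1,[z1]),(z1,[z0,z1]),(z1,[z0,z0,z1]),(z1,[z0,z0,
    z0,z1]),(z1,[y1,y1,y1,y1,z1]),(z1,
    [])] (Int.ofNat (nat_lit 524288)) (Int.ofNat (nat_lit 1048576)) (.s (.s (.l k1) (.l k1)) (.s (.l k1) (.l k1))) [],
    .geo true z3 k5 [(z1,z0),(z2,z0),(z3,y3),(z0,z6),(z6,y6),(z0,z3)] [(z1,[z1]),(z1,[z0,z1]),(z1,[z0,z0,z3]),(z1,[z0,z0,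
    z0,z3]),(z1,[y1,y1,y3,y3,z3]),(z1,[])] z0 (Int.ofNat (nat_lit 1048576)) (.s (.l k1) (.s (.l k1) (.l k1))) [],
    .old (.lp [(nat_lit 5278),(nat_lit 5238),(nat_lit 7270),(nat_lit 4740),(nat_lit 8644),(nat_lit 7190)] [(nat_lit 1683),
    (nat_lit 1683),(nat_lit 2197),(nat_lit 1209),(nat_lit 687),(nat_lit 687),(nat_lit 1952),(nat_lit 1952),k0,k0,
    (nat_lit 727),(nat_lit 727)] k0 [[k0,k0,k0,k0,k0,k0,(nat_lit 498),k80,k0,k0,k0,(nat_lit 538)],[k0,k0,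
    (nat_lit 2908),k0,k0,k0,k0,k0,k0,k0,k0,(nat_lit 2530)],[],[(nat_lit 2908),k0,k0,k0,k0,k80],[k0,k0,k80,k0,k0,k0,
    (nat_lit 3904)],[],[k0,k80,k0,k0,k0,k0,k0,k0,k0,(nat_lit 2828)],[k0,(nat_lit 498),k0,k0,k0,(nat_lit 3904)],[k0,k0,
    k0,k0,k0,k0,k0,(nat_lit 2828),k0,k0,(nat_lit 2410)],[k0,k0,k0,k0,k0,k0,k0,k0,k0,k0,(nat_lit 538)],[(nat_lit 2530),
    (nat_lit 538)],[k0,k0,k0,k0,k0,k0,k0,k0,(nat_lit 538),(nat_lit 2410)]] (nat_lit 19200) k6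
    [[(k8,(nat_lit 4551)),(k7,(nat_lit 5009)),(k11,(nat_lit 5696)),(k4,(nat_lit 6274)),(k3,(nat_lit 6290)),(k0,
    (nat_lit 7808))],[(k6,(nat_lit 4929)),(k10,(nat_lit 5696)),(k5,(nat_lit 6274)),(k9,(nat_lit 6463)),(k2,
    (nat_lit 7672)),(k1,(nat_lit 7808))],[(k5,(nat_lit 3840)),(k10,(nat_lit 4178)),(k2,(nat_lit 5238)),(k6,
    (nat_lit 5981)),(k1,(nat_lit 6290)),(k9,(nat_lit 7515))],[(k7,(nat_lit 4575)),(k3,(nat_lit 5238)),(k11,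
    (nat_lit 5720)),(k4,(nat_lit 5760)),(k8,(nat_lit 6447)),(k0,(nat_lit 7672))],[(k3,(nat_lit 3840)),(k7,
    (nat_lit 6005)),(k0,(nat_lit 6274)),(k4,(nat_lit 7190)),(k11,(nat_lit 7230)),(k8,(nat_lit 7957))],[(k9,
    (nat_lit 4053)),(k2,(nat_lit 5760)),(k6,(nat_lit 6005)),(k1,(nat_lit 6274)),(k5,(nat_lit 7190)),(k10,
    (nat_lit 7230))],[(k2,(nat_lit 4575)),(k1,(nat_lit 5009)),(k10,(nat_lit 5965)),(k5,(nat_lit 6005)),(k9,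
    (nat_lit 6692)),(k6,(nat_lit 8644))],[(k8,(nat_lit 3864)),(k0,(nat_lit 4929)),(k11,(nat_lit 5965)),(k3,
    (nat_lit 5981)),(k4,(nat_lit 6005)),(k7,(nat_lit 8644))],[(k4,(nat_lit 4053)),(k0,(nat_lit 6463)),(k7,
    (nat_lit 6692)),(k3,(nat_lit 7515)),(k8,(nat_lit 8644)),(k11,(nat_lit 10745))],[(k6,(nat_lit 3864)),(k1,
    (nat_lit 4551)),(k2,(nat_lit 6447)),(k5,(nat_lit 7957)),(k10,(nat_lit 8455)),(k9,(nat_lit 8644))],[(k1,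
    (nat_lit 5696)),(k2,(nat_lit 5720)),(k6,(nat_lit 5965)),(k5,(nat_lit 7230)),(k10,(nat_lit 9600)),(k9,
    (nat_lit 10745))],[(k3,(nat_lit 4178)),(k0,(nat_lit 5696)),(k7,(nat_lit 5965)),(k4,(nat_lit 7230)),(k8,
    (nat_lit 8455)),(k11,(nat_lit 9600))]]
    [] k0
    [[k2,k0,k0,k0,k0,k0],[k2,k0,k0,k1,k0,k0],[k2,k0,k0,k0,k1,k0],[k1,k1,k0,k0,k0,k0],[k1,k1,k1,k0,k0,k0],[k1,k1,k0,k1,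
    k0,k0],[k1,k1,k0,k0,k0,k1],[k1,k0,k1,k0,k0,k0],[k1,k0,k1,k1,k0,k0],[k1,k0,k0,k1,k0,k0],[k1,k0,k0,k2,k0,k0],[k1,k0,
    k0,k1,k1,k0],[k1,k0,k0,k1,k0,k1],[k1,k0,k0,k0,k1,k0],[k1,k0,k1,k0,k1,k0],[k1,k0,k0,k0,k0,k1],[k0,k2,k0,k0,k0,k0],
    [k0,k3,k0,k0,k0,k0],[k0,k2,k1,k0,k0,k0],[k0,k2,k0,k1,k0,k0],[k0,k2,k0,k0,k0,k1],[k0,k1,k1,k0,k0,k0],[k0,k1,k2,k0,
    k0,k0],[k0,k1,k1,k1,k0,k0],[k0,k1,k1,k0,k1,k0],[k0,k1,k1,k1,k1,k0],[k0,k1,k1,k0,k0,k1],[k0,k1,k0,k1,k0,k0],[k0,k1,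
    k0,k1,k1,k0],[k0,k1,k0,k1,k0,k1],[k0,k1,k0,k0,k1,k0],[k0,k1,k0,k0,k0,k1],[k0,k0,k2,k0,k0,k0],[k0,k0,k1,k1,k0,k0],
    [k0,k0,k1,k1,k1,k0],[k0,k0,k1,k0,k1,k0],[k0,k0,k1,k0,k0,k1],[k0,k0,k0,k2,k0,k0],[k0,k0,k0,k1,k1,k0],[k0,k0,k0,k1,
    k0,k1],[k0,k0,k0,k0,k2,k0]]
    [.contra [z1],.contra [z2,y1,z0,y1],.contra [z2,y3,y2,y1,z2],.contra [y2,z1,z2,z1],.contra [z1,z0,y1],.contra [z2,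
    y1,z0,y1],.ref k1 k3 [(z1,[y1,z0,z0,z0,z1])],.contra [y2,z1,z2,z1],.contra [z2,y1,z0,y1],.contra [y2,z1,z2,z1],
    .contra [z2,y1,z0,y1],.contra [z2,y1,z0,y1],.contra [y1,z0,y1,z0,z1],.ref k16 k6 [(z2,[y2,y1,y2,y1,z2]),(z1,[z1]),
    (z2,[y2,y1,y2,z1,z2])],.ref k2 k2 [(z1,[z1])],.contra [z2,y1,z0,z1],.contra [z1],.ref k20 k1 [(z1,[y1,z0,z3]),(z1,
    [z1]),(z2,[z0,z1,z0,z1]),(z1,[z0,z0,z0,y1])],.contra [z1,z0,y1],.ref k19 k7 [(z2,[y2,z1,z0,z1]),(z1,[z2,z0,z0,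
    y1]),(z2,[y4,y1,y2,z1,z2]),(z1,[z1])],.ref k1 k3 [(z2,[y1,y1,z0,z0,z2])],.contra [y1,z0,z2],.contra [z1,z0,y1],
    .contra [z1,z0,y1],.contra [z1,z0,y1],.contra [y2,y1,z0,z1,z2],.contra [y2,y1,z0,y1,z2],.contra [y2,z1,z2,z1],
    .ref k18 k5 [(z2,[z0,y1,y2,z1,z2]),(z2,[y4,y1,z2,z1,z2]),(z2,[z4,z1,z2,y1,y2]),(z2,[z0,z3,z2,z1,y2])],
    .ref k2 k2 [(z1,[y1,z0,z0,z0,z1])],.ref k0 k3 [(z1,[z1])],.ref k17 k1 [(z1,[y1,z0,z1,y1]),(z1,[z1,z0,z0,z1]),(z2,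
    [z0,z1,z0,z1]),(z1,[z0,z0,z0,y1])],.contra [z1],.contra [y2,z1,z2,z1],.ref k1 k3 [(z1,[z1])],.ref k17 k8 [(z2,[y2,
    y3,z0,y1,z2]),(z2,[z2,z3,z2,z1,y2]),(z2,[z0,z1,z0,z1]),(z2,[z0,y3,y2,y1,z2])],.ref k0 k0 [(z1,[z1])],.contra [z1],
    .contra [z1,z1,z1,z0,y1],.ref k16 k3 [(z2,[y2,y1,y2,y1,z2]),(z1,[z1]),(z1,[y1,z1])],.contra [z1]]),
    .geo true z3 k5 [(y2,z3),(z6,y6),(z2,z0),(z0,z6),(z6,y6),(z0,z3)] [(z1,[z1]),(z1,[z0,z3]),(z1,[z0,z0,z1]),(z1,[z0,z0,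
    z0,z3]),(z1,[y1,y3,y1,y3,z3]),(z1,[])] (Int.ofNat (nat_lit 699050)) (Int.ofNat (nat_lit 1048576)) (.l k1) [],
    .geo true z2 k5 [(y4,z4),(z4,y2),(z4,y3),(z0,z1),(z4,y2),(z0,z2)] [(z1,[z2]),(z1,[z0,z2]),(z1,[z0,z0,z1]),(z1,[z0,z0,
    z0,z1]),(z1,[y2,y2,y1,y1,z2]),(z1,
    [])] (Int.ofNat (nat_lit 1048576)) (Int.ofNat (nat_lit 1398102)) (.s (.l k1) (.l k1)) []]

noncomputable def cU6_2_n0_2 : List XN :=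
  [.geo true z1 k5 [(y2,z4),(z2,y2),(z2,y3),(z0,z2),(z2,y2),(z0,z1)] [(z1,[z1]),(z1,[z0,z1]),(z1,[z0,z0,z1]),(z1,[z0,z0,
    z0,z1]),(z1,[y1,y1,y1,y1,z1]),(z1,
    [])] (Int.ofNat (nat_lit 524288)) (Int.ofNat (nat_lit 699051)) (.s (.l k1) (.l k1)) [],
    .geo true z1 k5 [(y2,z4),(z2,y3),(z2,y2),(y2,z4),(z4,y4),(z0,z1)] [(z1,[z1]),(z1,[z0,z1]),(z1,[z0,z0,z1]),(z1,[z0,z0,
    z0,z1]),(z1,[y1,y1,y1,y1,z1]),(z1,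
    [])] (Int.ofNat (nat_lit 524288)) (Int.ofNat (nat_lit 699051)) (.s (.l k1) (.l k1)) [],
    .old (.lp [(nat_lit 668),(nat_lit 576),(nat_lit 666),(nat_lit 384),(nat_lit 954),(nat_lit 588)] [(nat_lit 280),k192,
    k186,(nat_lit 378),(nat_lit 237),(nat_lit 237),(nat_lit 378),(nat_lit 378),k0,k186,(nat_lit 378),k174] k0 [[k0,k0,
    k80,k0,k0,k0,k0,k0,k0,k0,k0,k4],[k0,k0,k16,k0,k0,k0,k96],[k0,k0,k0,k0,k0,k0,k0,k0,(nat_lit 396),k104],[k16,k80,k0,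
    k0,k38],[k0,k0,k0,k0,k0,k0,k96,k0,k0,k0,k0,k104],[k0,k0,k38],[k0,k0,k0,k0,k0,k0,k0,k0,k6,(nat_lit 378)],[k96,k0,
    k0,k0,k0,k96],[k0,k0,k0,k104,k0,k0,k0,(nat_lit 378),k0,k0,(nat_lit 564)],[k0,k0,k0,(nat_lit 396),k0,k0,k0,k6],[k0,
    k4,k0,k0,k0,k104],[k0,k0,k0,k0,k0,k0,k0,k0,k0,(nat_lit 564)]] (nat_lit 1920) k6
    [[(k8,(nat_lit 384)),(k3,(nat_lit 574)),(k0,(nat_lit 668)),(k7,(nat_lit 674)),(k4,(nat_lit 711)),(k11,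
    (nat_lit 774))],[(k10,(nat_lit 478)),(k5,(nat_lit 543)),(k6,(nat_lit 578)),(k1,(nat_lit 668)),(k9,(nat_lit 674)),
    (k2,(nat_lit 690))],[(k6,(nat_lit 384)),(k10,(nat_lit 384)),(k9,(nat_lit 480)),(k5,(nat_lit 509)),(k1,
    (nat_lit 574)),(k2,(nat_lit 656))],[(k11,(nat_lit 384)),(k7,(nat_lit 576)),(k3,(nat_lit 656)),(k0,(nat_lit 690)),
    (k4,(nat_lit 755)),(k8,(nat_lit 850))],[(k7,(nat_lit 487)),(k3,(nat_lit 509)),(k0,(nat_lit 543)),(k4,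
    (nat_lit 666)),(k11,(nat_lit 833)),(k8,(nat_lit 1299))],[(k10,(nat_lit 421)),(k6,(nat_lit 525)),(k9,
    (nat_lit 621)),(k5,(nat_lit 666)),(k1,(nat_lit 711)),(k2,(nat_lit 755))],[(k10,(nat_lit 384)),(k6,(nat_lit 480)),
    (k5,(nat_lit 487)),(k2,(nat_lit 576)),(k9,(nat_lit 576)),(k1,(nat_lit 674))],[(k3,(nat_lit 384)),(k8,
    (nat_lit 384)),(k7,(nat_lit 480)),(k4,(nat_lit 525)),(k0,(nat_lit 578)),(k11,(nat_lit 582))],[(k3,(nat_lit 480)),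
    (k7,(nat_lit 576)),(k4,(nat_lit 621)),(k0,(nat_lit 674)),(k8,(nat_lit 960)),(k11,(nat_lit 1158))],[(k1,
    (nat_lit 384)),(k6,(nat_lit 384)),(k10,(nat_lit 762)),(k2,(nat_lit 850)),(k9,(nat_lit 960)),(k5,(nat_lit 1299))],
    [(k2,(nat_lit 384)),(k6,(nat_lit 582)),(k1,(nat_lit 774)),(k5,(nat_lit 833)),(k10,(nat_lit 1152)),(k9,
    (nat_lit 1158))],[(k3,(nat_lit 384)),(k7,(nat_lit 384)),(k4,(nat_lit 421)),(k0,(nat_lit 478)),(k8,(nat_lit 762)),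
    (k11,(nat_lit 1152))]]
    [] k0
    [[k2,k0,k0,k0,k0,k0],[k2,k0,k0,k0,k1,k0],[k1,k1,k0,k0,k0,k0],[k1,k1,k1,k0,k0,k0],[k1,k1,k0,k1,k0,k0],[k1,k1,k0,k0,
    k0,k1],[k1,k0,k1,k0,k0,k0],[k1,k0,k1,k1,k0,k0],[k1,k0,k0,k1,k0,k0],[k1,k0,k0,k2,k0,k0],[k1,k0,k0,k1,k1,k0],[k1,k0,
    k0,k1,k0,k1],[k1,k0,k0,k0,k1,k0],[k1,k1,k0,k0,k1,k0],[k1,k1,k0,k0,k1,k1],[k1,k0,k1,k0,k1,k0],[k1,k0,k0,k0,k0,k1],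
    [k1,k0,k1,k0,k0,k1],[k0,k2,k0,k0,k0,k0],[k0,k2,k0,k1,k0,k0],[k0,k2,k0,k1,k0,k1],[k0,k2,k0,k0,k0,k1],[k0,k1,k1,k0,
    k0,k0],[k0,k1,k1,k1,k0,k0],[k0,k1,k1,k1,k0,k1],[k0,k1,k1,k0,k0,k1],[k0,k1,k0,k1,k0,k0],[k0,k1,k0,k2,k0,k0],[k0,k1,
    k0,k2,k0,k1],[k0,k1,k0,k1,k1,k0],[k0,k1,k0,k1,k0,k1],[k0,k1,k0,k0,k1,k0],[k0,k1,k0,k1,k1,k1],[k0,k1,k0,k0,k1,k1],
    [k0,k1,k0,k0,k0,k1],[k0,k2,k0,k0,k0,k2],[k0,k1,k0,k1,k0,k2],[k0,k0,k2,k0,k0,k0],[k0,k0,k2,k1,k0,k0],[k0,k0,k1,k1,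
    k0,k0],[k0,k0,k1,k2,k0,k0],[k0,k0,k1,k1,k1,k0],[k0,k0,k1,k1,k0,k1],[k0,k0,k1,k0,k0,k1],[k0,k0,k0,k2,k0,k0],[k0,k0,
    k0,k3,k0,k0],[k0,k0,k0,k2,k1,k0],[k0,k0,k0,k2,k0,k1],[k0,k0,k0,k1,k1,k0],[k0,k0,k0,k1,k0,k1]]
    [.contra [z1],.contra [y2,z1,y1,z2,z2],.contra [y2,z1,z1,z2],.contra [y2,z1,z1,z2],.contra [z2,z1,y1],.contra [y2,
    z1,z1],.contra [y1,z1,z0,z1],.contra [y2,z1,z1,z2],.contra [y2,z1,z1,z2],.ref k25 k1 [(z1,[y2,z1,z0,z1]),(z2,[z2,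
    y1,z1]),(z1,[z1]),(z1,[y2,z1])],.ref k24 k8 [(z1,[y1,y2,z0,y1,z1]),(z1,[z0,z1,z0,z1]),(z2,[z2,z3,z1,z2,y2]),(z2,
    [z0,y3,y1,y2,z2])],.contra [y2,z1,z1],.ref k4 k7 [(z1,[z0,z1,z0,z1]),(z1,[y2,z0,y1,y1,z2]),(z1,[z2,y1,z0,y1])],
    .ref k23 k5 [(z1,[y1,z1,z1,z1,y1]),(z2,[z0,y1,y1,z0,z2]),(z2,[z4,y3,y1,y2,z2]),(z2,[z0,z3,z1,z2,y2])],.contra [z2,
    z1,z1,z2,y2],.contra [z2,z1,z1,z0,y2],.contra [y1,z1],.ref k4 k7 [(z1,[z0,z1,z0,z1]),(z1,[z2,y1,z0,y1]),(z1,[y2,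
    z0,y1,y1,z2])],.contra [z1],.contra [y1,z0,z1,z1],.contra [y1,z0,z1],.contra [y1,z0,z1],.contra [y2,z1,z1,z2],
    .contra [y2,z1,z1,z2],.ref k4 k7 [(z1,[z0,z1,z0,z1]),(z1,[z2,z0,y1,y1]),(z1,[y2,y1,z0,y1,z2])],.ref k24 k8 [(z1,
    [z1,y2,z0,y1]),(z1,[z0,z1,z0,z1]),(z2,[y2,z3,z1,z2]),(z2,[z0,y3,y1,y2,z2])],.contra [y2,z1,z1,z2],.contra [y1,z0,
    z1,z1],.contra [y1,z0,z1],.ref k4 k7 [(z1,[z0,z1,z0,z1]),(z1,[y2,y1,z0,y1,z2]),(z1,[z2,z0,y1,y1])],.contra [y2,z1,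
    z1],.ref k0 k3 [(z1,[z1])],.contra [z1,z1,z0,z1,y1],.contra [z2,z1,z1,z2,y2],.contra [y2,z1,z1],.ref k21 k2 [(z1,
    [z0,z1]),(z2,[z1,z0,z0,z2]),(z1,[y1,z0,z1])],.ref k4 k7 [(z1,[z0,z1,z0,z1]),(z1,[z2,z0,y1,z1]),(z1,[y2,y1,z0,y3,
    z2])],.contra [z1],.ref k23 k5 [(z1,[z1,z1,z1,z0,y2]),(z2,[z0,y1,y1,z0,z2]),(z2,[y4,y3,y1,z2,z6]),(z2,[z0,z3,z1,
    z2,y2])],.contra [y2,z1,z1,z2],.contra [y1,z0,z1,z1],.contra [z2,z1,z1,z0,y2],.ref k23 k5 [(z1,[z1,z1,z1,z1,y2]),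
    (z2,[z0,y1,y1,z0,z2]),(z2,[y4,y3,y1,y2,z6]),(z2,[z0,z3,z1,z2,y2])],.contra [z1,z0,z0,z1],.contra [z1],
    .ref k22 k8 [(z2,[y2,y3,z3]),(z1,[z0,z1,z0,z1]),(z1,[z1]),(z2,[z0,y3,y1,y2,z2])],.ref k21 k2 [(z1,[z0,z1]),(z4,
    [y2,y1,z1,z2,z2]),(z2,[z2,z1,z1,z2,y2])],.contra [y1,z0,z1],.ref k3 k9 [(z2,[z0,y1,y1,y2,z2]),(z2,[z2,z1,z1,z2,
    y2])],.contra [y2,z1,z1]]),
    .old (.tor k2 false k0 [(z1,[z0,z1]),(z1,[y1,z0,z1]),(z1,[z1]),(z1,[z0,y1,z1])]),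
    .geo true z1 k5 [(z0,z3),(z0,z4),(z2,y4),(z0,z2),(z2,y6),(z0,z1)] [(z1,[z1]),(z1,[z0,z1]),(z1,[z0,z0,z1]),(z1,[z0,z0,
    z0,z1]),(z1,[y1,y1,y1,y1,z1]),(z1,[])] z0 (Int.ofNat (nat_lit 349526)) (.s (.s (.l k2) (.l k1)) (.l k1)) [⟨z0,z1,
    [[k0,k1],[k2,k3],[k4,k5]],.bnd k0⟩],
    .geo true z2 k5 [(y4,z6),(z4,y4),(z4,y3),(z0,z1),(z4,y2),(z0,z2)] [(z1,[z2]),(z1,[z0,z2]),(z1,[z0,z0,z1]),(z1,[z0,z0,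
    z0,z1]),(z1,[y2,y2,y1,y1,z2]),(z1,
    [])] (Int.ofNat (nat_lit 699050)) (Int.ofNat (nat_lit 1048576)) (.s (.l k1) (.l k1)) [],
    .geo true z1 k5 [(y4,z6),(z2,y2),(y2,z4),(z4,y4),(z4,y5),(z0,z1)] [(z1,[z1]),(z1,[z0,z1]),(z1,[z0,z0,z1]),(z1,[z0,z0,
    z0,z1]),(z1,[y1,y1,y1,y1,z1]),(z1,
    [])] (Int.ofNat (nat_lit 699050)) (Int.ofNat (nat_lit 838861)) (.s (.l k1) (.l k1)) [],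
    .geo true z5 k3 [(z2,z0),(z4,z0),(z4,y5),(z0,z5),(z4,z0),(z6,z0)] [(z1,[z1]),(z1,[z0,z1]),(z1,[z0,z0,z1]),(z1,[]),(z1,
    [z0,z0,z0,z1]),(z1,[y1,y1,y1,y1,z5])] z0 (Int.ofNat (nat_lit 838861)) (.l k1) [],
    .geo true z7 k5 [(z2,z0),(z4,z0),(z6,z0),(z8,z0),(z8,y7),(z0,z7)] [(z1,[z1]),(z1,[z0,z1]),(z1,[z0,z0,z1]),(z1,[z0,z0,
    z0,z1]),(z1,[y1,y1,y1,y1,z7]),(z1,[])] z0 (Int.ofNat (nat_lit 1198373)) (.s (.l k1) (.l k1)) [],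
    .old (.lp [(nat_lit 984),(nat_lit 1246),(nat_lit 1100),(nat_lit 504),(nat_lit 960),(nat_lit 960)] [k131,k131,k0,k0,
    k73,k73,(nat_lit 371),(nat_lit 371),(nat_lit 228),k58,k143,k143] k0 [[k0,k0,k0,k0,k0,k0,k0,k0,k0,k0,k48,k53],[k0,
    k0,(nat_lit 597),(nat_lit 459)],[(nat_lit 459),k0,k0,k0,(nat_lit 299),(nat_lit 268)],[(nat_lit 597),k0,k0,k0,k0,
    k0,k0,k0,k135,k39],[k0,k0,k0,(nat_lit 268),k0,k0,(nat_lit 539),k35],[k0,k0,k0,(nat_lit 299),k0,k0,k0,k0,k0,k0,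
    k132,k24],[k0,k0,k0,k0,k0,k35],[k0,k0,k0,k0,k0,(nat_lit 539),k0,k0,(nat_lit 469)],[k0,k0,k39,k0,k0,k0,k0,k0,k0,k0,
    k0,k53],[k0,k0,k135,k0,k0,k0,(nat_lit 469)],[k0,k53,k0,k0,k24,k0,k0,k0,k0,k53],[k0,k48,k0,k0,
    k132]] (nat_lit 2880) k6
    [[(k7,(nat_lit 612)),(k8,(nat_lit 887)),(k0,(nat_lit 936)),(k11,(nat_lit 1025)),(k4,(nat_lit 1066)),(k3,
    (nat_lit 1168))],[(k6,(nat_lit 744)),(k10,(nat_lit 919)),(k1,(nat_lit 936)),(k9,(nat_lit 1057)),(k5,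
    (nat_lit 1501)),(k2,(nat_lit 1712))],[(k5,(nat_lit 576)),(k2,(nat_lit 787)),(k6,(nat_lit 875)),(k10,
    (nat_lit 1151)),(k1,(nat_lit 1168)),(k9,(nat_lit 1188))],[(k7,(nat_lit 576)),(k3,(nat_lit 787)),(k4,
    (nat_lit 905)),(k11,(nat_lit 1142)),(k8,(nat_lit 1153)),(k0,(nat_lit 1712))],[(k3,(nat_lit 576)),(k11,
    (nat_lit 895)),(k8,(nat_lit 906)),(k7,(nat_lit 1070)),(k4,(nat_lit 1399)),(k0,(nat_lit 1501))],[(k9,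
    (nat_lit 576)),(k6,(nat_lit 767)),(k2,(nat_lit 905)),(k1,(nat_lit 1066)),(k10,(nat_lit 1162)),(k5,
    (nat_lit 1399))],[(k2,(nat_lit 576)),(k1,(nat_lit 612)),(k10,(nat_lit 708)),(k9,(nat_lit 852)),(k6,
    (nat_lit 1043)),(k5,(nat_lit 1070))],[(k11,(nat_lit 732)),(k0,(nat_lit 744)),(k4,(nat_lit 767)),(k3,
    (nat_lit 875)),(k7,(nat_lit 1043)),(k8,(nat_lit 1116))],[(k4,(nat_lit 576)),(k11,(nat_lit 576)),(k7,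
    (nat_lit 852)),(k8,(nat_lit 960)),(k0,(nat_lit 1057)),(k3,(nat_lit 1188))],[(k10,(nat_lit 822)),(k1,
    (nat_lit 887)),(k5,(nat_lit 906)),(k9,(nat_lit 960)),(k6,(nat_lit 1116)),(k2,(nat_lit 1153))],[(k9,(nat_lit 576)),
    (k6,(nat_lit 732)),(k5,(nat_lit 895)),(k10,(nat_lit 960)),(k1,(nat_lit 1025)),(k2,(nat_lit 1142))],[(k7,
    (nat_lit 708)),(k8,(nat_lit 822)),(k0,(nat_lit 919)),(k11,(nat_lit 960)),(k3,(nat_lit 1151)),(k4,(nat_lit 1162))]]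
    [] k0
    [[k2,k0,k0,k0,k0,k0],[k3,k0,k0,k0,k0,k0],[k2,k0,k0,k1,k0,k0],[k1,k1,k0,k1,k0,k0],[k1,k0,k1,k0,k0,k0],[k1,k0,k0,k1,
    k0,k0],[k2,k0,k0,k2,k0,k0],[k1,k1,k0,k2,k0,k0],[k1,k0,k0,k2,k0,k0],[k1,k0,k0,k1,k1,k0],[k1,k0,k0,k1,k0,k1],[k1,k0,
    k0,k2,k0,k1],[k1,k0,k0,k0,k1,k0],[k1,k0,k0,k0,k1,k1],[k1,k0,k0,k0,k0,k1],[k0,k2,k0,k0,k0,k0],[k0,k3,k0,k0,k0,k0],
    [k0,k2,k1,k0,k0,k0],[k0,k2,k1,k1,k0,k0],[k0,k2,k0,k1,k0,k0],[k0,k1,k1,k0,k0,k0],[k0,k1,k1,k1,k0,k0],[k0,k1,k1,k0,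
    k1,k0],[k0,k1,k1,k1,k1,k0],[k0,k1,k0,k1,k0,k0],[k0,k1,k0,k2,k0,k0],[k0,k1,k0,k1,k0,k1],[k0,k1,k0,k0,k1,k0],[k0,k1,
    k0,k0,k0,k1],[k0,k0,k2,k0,k0,k0],[k0,k0,k1,k1,k0,k0],[k0,k0,k1,k1,k1,k0],[k0,k0,k1,k0,k1,k0],[k0,k0,k1,k0,k2,k0],
    [k0,k0,k1,k0,k1,k1],[k0,k0,k1,k0,k0,k1],[k0,k0,k1,k1,k0,k1],[k0,k0,k0,k2,k0,k0],[k0,k0,k0,k2,k0,k1],[k0,k0,k0,k1,
    k1,k0],[k0,k0,k0,k1,k1,k1],[k0,k0,k0,k1,k0,k1],[k0,k0,k0,k1,k1,k2],[k0,k0,k0,k1,k0,k2],[k0,k0,k0,k0,k2,k0],[k0,k0,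
    k0,k0,k2,k1],[k0,k0,k0,k0,k1,k1],[k0,k0,k0,k0,k2,k2],[k0,k0,k0,k0,k1,k2],[k0,k0,k0,k0,k0,k2]]
    [.contra [z1],.contra [y1,z1,y2,y1,z2],.contra [z2,y1,z2,z1,y2],.contra [z1,y1,y1],.contra [y1,z0,y1,z0,z1],
    .contra [y2,z1,y2,y1,z2],.contra [y1,z0,y2,z0,z2],.contra [z1,y1,y1],.contra [y1,z1,y2,y1,z2],.ref k27 k2 [(z1,
    [y1,z0,y2,y1,z2]),(z1,[z0,z0,z1])],.ref k27 k2 [(z1,[z1]),(z1,[z0,z0,z1])],.ref k26 k10 [(z1,[z0,z0,z1,z1]),(z1,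
    [z2,z0,z3,z1,y2]),(z1,[y1,y1,y3,y1,z2])],.ref k26 k10 [(z1,[z0,z0,z1,z1]),(z1,[y2,z0,y1,y1,z2]),(z1,[z1,y1,y1])],
    .contra [z1,z1],.ref k3 k2 [(z1,[z1]),(z1,[y1,z1,z1])],.contra [y1,z2,z2],.contra [z1,y2,y5,y1,z2],.contra [z1,y1,
    y3,y1,z1],.contra [z1,y1,y3,y1,z1],.ref k32 k5 [(z1,[z3,y4,y10,y2,z4]),(z1,[y1,y1,z1,z3,z1]),(z1,[z2,z2,z5,z1,
    y2]),(z1,[y2,z5,z2,y1,z2])],.contra [y2,z1,z2,z1],.contra [y1,z1,z0,z0,z1],.ref k27 k2 [(z1,[y1,z0,z0,z0,z1]),(z1,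
    [z0,z0,z1])],.ref k3 k2 [(z1,[y1,z0,z0,z0,z1]),(z1,[z1,z1,z1,z0,y1])],.ref k31 k10 [(z1,[y1,y1,z0,z2,z1]),(z1,[z3,
    y2,y5,y1,z2]),(z1,[y2,y2,z0,y1,z2]),(z1,[y2,z3,z0,y1,z2])],.contra [y1,z2,y1,y1,z2],.ref k2 k2 [(z1,[y1,z0,z0,z0,
    z1])],.contra [y1,z0,z1],.contra [y1,z0,z1],.contra [z1],.contra [y1,z0,y1,z0,z1],.contra [y1,y1,y1,z0,z1],
    .contra [y1,y1,y1,z0,z1],.ref k30 k5 [(z1,[y3,y1,y1,z1,z1]),(z1,[z1]),(z1,[y2,z0,z1,z1]),(z1,[z2,z1,z0,y1])],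
    .contra [y1,y1,y1,z0,z1],.contra [y1,y1,y1,z0,z1],.contra [y1,y1,y1,z0,z1],.contra [z1],.ref k29 k6 [(z1,[z1,y1,
    z2,z1,y2]),(z1,[y1,z0,y2,y1,z2]),(z1,[z0,z1,y2,y1,z2]),(z1,[z0,y1,z0,z1])],.contra [y1,y1,y1,z0,z1],.contra [y2,
    y1,y2,y1,z2],.contra [y1,y1,y1,z0,z1],.ref k27 k2 [(z1,[z1,z1]),(z1,[z0,z0,z1])],.ref k28 k0 [(z1,[z2,z2,z2,z1,
    y2]),(z1,[z2,z3,z2,z1,y2]),(z1,[y2,y2,y1,y1,z2]),(z1,[z1,z1,z1,z1,y1])],.contra [z1],.ref k26 k10 [(z1,[z0,z0,z1,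
    z1]),(z1,[y2,y2,y1,y1,z2]),(z1,[z1,z0,y1])],.contra [z1,z0,z0,z1],.contra [z1,z2],.ref k3 k2 [(z1,[z1,z1]),(z1,
    [y1,z0,z1])],.contra [z1]]),
    .geo true z1 k5 [(z0,z2),(z0,z1),(z2,y2),(z0,z2),(z2,y4),(z0,z1)] [(z1,[z1]),(z1,[z0,z1]),(z1,[z0,z0,z1]),(z1,[z0,z0,
    z0,z1]),(z1,[y1,y1,y1,y1,z1]),(z1,[])] z0 (Int.ofNat (nat_lit 524288)) (.s (.s (.l k2) (.l k1)) (.l k1)) [⟨z0,z1,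
    [[k0,k1],[k2,k3],[k4,k5]],.bnd k0⟩],
    .geo true z1 k5 [(z0,z2),(z2,y2),(z0,z1),(z0,z2),(z2,y4),(z0,z1)] [(z1,[z1]),(z1,[z0,z1]),(z1,[z0,z0,z1]),(z1,[z0,z0,
    z0,z1]),(z1,[y1,y1,y1,y1,z1]),(z1,
    [])] z0 (Int.ofNat (nat_lit 524288)) (.s (.s (.s (.s (.l k2) (.l k1)) (.l k1)) (.s (.l k1) (.l k1))) (.s (.s (.l k1) (.l k1)) (.l k1))) [⟨z0,
    z1,[[k0,k1],[k2,k3],[k4,k5]],.bnd k0⟩]]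

noncomputable def cU6_2_n0_3 : List XN :=
  [.geo true z1 k5 [(y4,z5),(z4,y4),(y2,z4),(z2,y2),(z4,y4),(z0,z1)] [(z1,[z1]),(z1,[z0,z1]),(z1,[z0,z0,z1]),(z1,[z0,z0,
    z0,z1]),(z1,[y1,y1,y1,y1,z1]),(z1,
    [])] (Int.ofNat (nat_lit 838860)) (Int.ofNat (nat_lit 1048576)) (.s (.s (.l k1) (.s (.l k1) (.l k1))) (.l k1)) [],
    .geo true z1 k5 [(y1,z2),(z2,y2),(z0,z2),(z1,y1),(z2,y2),(z0,z1)] [(z1,[z1]),(z1,[z0,z1]),(z1,[z0,z0,z1]),(z1,[z0,z0,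
    z0,z1]),(z1,[y1,y1,y1,y1,z1]),(z1,
    [])] (Int.ofNat (nat_lit 524288)) (Int.ofNat (nat_lit 1048576)) (.s (.s (.l k1) (.l k1)) (.s (.s (.l k1) (.l k1)) (.l k1))) [],
    .geo true z2 k5 [(z0,z4),(z2,y3),(z2,y3),(z0,z4),(z4,y4),(z0,z2)] [(z1,[z2]),(z1,[z0,z1]),(z1,[z0,z0,z1]),(z1,[z0,z0,
    z0,z2]),(z1,[y2,y1,y1,y2,z2]),(z1,
    [])] z0 (Int.ofNat (nat_lit 699051)) (.s (.s (.l k1) (.l k1)) (.s (.l k1) (.l k1))) [],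
    .old (.lp [(nat_lit 1600),(nat_lit 1212),(nat_lit 1218),(nat_lit 2012),(nat_lit 2320),(nat_lit 1228)] [(nat_lit 384),
    (nat_lit 384),(nat_lit 612),(nat_lit 544),(nat_lit 575),(nat_lit 575),k0,(nat_lit 356),k24,k24,(nat_lit 570),
    (nat_lit 570)] k0 [[k0,k0,(nat_lit 418),(nat_lit 412)],[k0,k0,k0,k0,k0,k0,k0,(nat_lit 864)],[k0,(nat_lit 412),k0,
    k0,(nat_lit 440),k0,k0,k0,k0,(nat_lit 348)],[k0,(nat_lit 418),k0,k0,(nat_lit 328)],[k0,k0,k0,k0,k0,k0,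
    (nat_lit 354),(nat_lit 468)],[k0,k0,(nat_lit 328),(nat_lit 440),k0,k0,k0,k0,k0,k0,(nat_lit 348)],[(nat_lit 864),
    k0,k0,k0,k0,(nat_lit 468)],[k0,k0,k0,k0,k0,(nat_lit 354),k0,k0,k0,(nat_lit 348)],[k0,k0,k0,(nat_lit 348),k0,k0,
    (nat_lit 348)],[k0,k0,k0,k0,k0,k0,k0,k0,k0,k0,k40,k16],[k0,k0,k0,k0,k0,k0,k0,k0,k16],[k0,k0,k0,k0,(nat_lit 348),
    k0,k0,k0,k40]] (nat_lit 4800) k6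
    [[(k7,(nat_lit 1280)),(k11,(nat_lit 1374)),(k4,(nat_lit 1409)),(k3,(nat_lit 1440)),(k0,(nat_lit 1600)),(k8,
    (nat_lit 1976))],[(k2,(nat_lit 960)),(k5,(nat_lit 991)),(k10,(nat_lit 1414)),(k1,(nat_lit 1600)),(k6,
    (nat_lit 1984)),(k9,(nat_lit 2824))],[(k6,(nat_lit 960)),(k10,(nat_lit 1254)),(k1,(nat_lit 1440)),(k2,
    (nat_lit 1630)),(k5,(nat_lit 1661)),(k9,(nat_lit 1800))],[(k0,(nat_lit 960)),(k7,(nat_lit 960)),(k11,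
    (nat_lit 1186)),(k8,(nat_lit 1384)),(k4,(nat_lit 1509)),(k3,(nat_lit 1630))],[(k0,(nat_lit 991)),(k7,
    (nat_lit 1109)),(k11,(nat_lit 1571)),(k4,(nat_lit 1658)),(k3,(nat_lit 1661)),(k8,(nat_lit 1769))],[(k6,
    (nat_lit 1325)),(k1,(nat_lit 1409)),(k9,(nat_lit 1415)),(k2,(nat_lit 1509)),(k10,(nat_lit 1571)),(k5,
    (nat_lit 1658))],[(k2,(nat_lit 960)),(k5,(nat_lit 1109)),(k1,(nat_lit 1280)),(k10,(nat_lit 1442)),(k6,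
    (nat_lit 2366)),(k9,(nat_lit 2456))],[(k3,(nat_lit 960)),(k4,(nat_lit 1325)),(k0,(nat_lit 1984)),(k11,
    (nat_lit 2146)),(k8,(nat_lit 2344)),(k7,(nat_lit 2366))],[(k4,(nat_lit 1415)),(k11,(nat_lit 1774)),(k3,
    (nat_lit 1800)),(k8,(nat_lit 1972)),(k7,(nat_lit 2456)),(k0,(nat_lit 2824))],[(k2,(nat_lit 1384)),(k5,
    (nat_lit 1769)),(k10,(nat_lit 1814)),(k9,(nat_lit 1972)),(k1,(nat_lit 1976)),(k6,(nat_lit 2344))],[(k2,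
    (nat_lit 1186)),(k10,(nat_lit 1212)),(k1,(nat_lit 1374)),(k5,(nat_lit 1571)),(k9,(nat_lit 1774)),(k6,
    (nat_lit 2146))],[(k11,(nat_lit 1212)),(k3,(nat_lit 1254)),(k0,(nat_lit 1414)),(k7,(nat_lit 1442)),(k4,
    (nat_lit 1571)),(k8,(nat_lit 1814))]]
    [] k0
    [[k2,k0,k0,k0,k0,k0],[k2,k1,k0,k0,k0,k0],[k2,k0,k1,k0,k0,k0],[k2,k0,k0,k0,k0,k1],[k1,k1,k0,k0,k0,k0],[k1,k2,k0,k0,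
    k0,k0],[k1,k1,k1,k0,k0,k0],[k1,k1,k0,k1,k0,k0],[k1,k2,k0,k1,k0,k0],[k1,k1,k1,k1,k0,k0],[k1,k1,k0,k0,k0,k1],[k1,k0,
    k1,k0,k0,k0],[k1,k0,k2,k0,k0,k0],[k1,k0,k1,k1,k0,k0],[k1,k0,k1,k0,k0,k1],[k1,k0,k0,k1,k0,k0],[k1,k1,k0,k0,k1,k0],
    [k1,k0,k1,k0,k1,k0],[k1,k0,k0,k0,k0,k1],[k1,k1,k0,k1,k0,k1],[k1,k0,k0,k0,k0,k2],[k0,k2,k0,k0,k0,k0],[k0,k2,k0,k1,
    k0,k0],[k0,k2,k0,k0,k0,k1],[k0,k1,k1,k0,k0,k0],[k0,k1,k1,k1,k0,k0],[k0,k1,k1,k0,k1,k0],[k0,k1,k1,k0,k0,k1],[k0,k1,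
    k0,k1,k0,k0],[k0,k2,k0,k2,k0,k0],[k0,k2,k0,k1,k0,k1],[k0,k1,k1,k2,k0,k0],[k0,k1,k0,k2,k0,k0],[k0,k1,k0,k1,k0,k1],
    [k0,k1,k0,k0,k1,k0],[k0,k1,k0,k0,k0,k1],[k0,k1,k0,k0,k1,k1],[k0,k1,k0,k0,k0,k2],[k0,k0,k2,k0,k0,k0],[k0,k0,k2,k1,
    k0,k0],[k0,k0,k1,k1,k0,k0],[k0,k0,k1,k0,k1,k0],[k0,k0,k1,k0,k0,k1],[k0,k0,k1,k1,k0,k1],[k0,k0,k1,k0,k0,k2],[k0,k0,
    k0,k2,k0,k0],[k0,k0,k0,k1,k0,k1],[k0,k0,k0,k0,k2,k0],[k0,k0,k0,k0,k1,k1],[k0,k0,k0,k0,k0,k2],[k0,k0,k0,k0,k0,k3]]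
    [.contra [z1],.ref k35 k4 [(z1,[z2,y4,y2,z1]),(z1,[y2,z3,z1,y1,z1]),(z1,[z1,y2,y1]),(z1,[z2,y3,y2])],
    .ref k34 k7 [(z1,[z2,y3,y2]),(z1,[z1,y2,y1]),(z1,[y2,z3,z1,y1,z1]),(z1,[z2,y4,y2,z1])],.ref k33 k4 [(z1,[z1,y2,y1,
    z1]),(z1,[y1,z1,z0,y1,z1]),(z1,[z1,y2,y1])],.contra [y2,z3,z2],.ref k37 k10 [(z2,[y3,z3,z2]),(z1,[z1,y1,z0,z1]),
    (z1,[y1,z0,y1,y1,z1]),(z2,[z1,y1])],.contra [y2,z3,z2],.ref k35 k4 [(z1,[z2,y2,y2,y1]),(z1,[y2,z1,z1,z1,z1]),(z1,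
    [z1,y1,y1,y1]),(z1,[z2,y1,y2,y2])],.ref k21 k0 [(z1,[z0,y1,y1,y1,z1]),(z2,[z1,z1,z0,y1]),(z1,[y1,z2,z3,z2,y1])],
    .contra [z2,y1,y2,y2],.contra [y1,z1,z1],.contra [y2,z3,z2],.ref k21 k0 [(z1,[z0,y1,y1,y1,z1]),(z2,[y1,z3,z2]),
    (z1,[z1,z0,z1,z1,y1])],.ref k34 k7 [(z1,[z2,y1,y2,y2]),(z1,[z1,y1,y1,y1]),(z1,[y2,z1,z1,z1,z1]),(z1,[z2,y2,y2,
    y1])],.contra [y1,z1,z1],.contra [z1,z1,z0,y1],.contra [z1,z0,z1,z1,y1],.contra [z1,z0,z1,z1,y1],.contra [y1,z1,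
    z1],.ref k16 k4 [(z1,[z1,y1,y1]),(z1,[y1,z0,z0,z0,z1]),(z1,[z1,y1,y1,y1])],.contra [z1,z1],.contra [z1],
    .ref k37 k10 [(z2,[y3,z0,z2,z3]),(z1,[z1]),(z1,[y1,y1,y1,z0,z1]),(z2,[z1,z0,z0,y1])],.ref k36 k10 [(z1,[y3,z0,
    z1]),(z1,[z2,z0,z0,z1]),(z1,[y2,y1,y1,y1,z1]),(z1,[z1])],.contra [y2,z3,z2],.contra [y2,z1,z2,z2],
    .ref k33 k4 [(z1,[y1,y1,y1,z0,z1]),(z1,[z1]),(z1,[y1,y1,y1,y1,z1])],.contra [y1,z1,z1],.contra [y2,z1,z2,z2],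
    .ref k21 k0 [(z1,[z0,y1,y1,y1,z1]),(z2,[z1,z2,z0,y2]),(z1,[y1,z1,z3,z3,y1])],.ref k38 k2 [(z1,[z0,z1]),(z1,[z1,z0,
    z0,y1]),(z1,[y1,z0,z2,z1]),(z1,[z0,z0,z0,z1])],.contra [z2,z1,y2,y4],.ref k35 k4 [(z1,[z2,z0,y2,y3]),(z1,[y2,y1,
    z1,z3,z1]),(z1,[z1,z0,y1,y2]),(z1,[z2,z1,y2,y4])],.contra [y1,z0,z1,z1],.ref k0 k3 [(z1,[z1])],.contra [y1,z1,z1],
    .ref k34 k7 [(z1,[y2,y1,y2,y2,z2]),(z1,[y1,y1,y1,y1,z1]),(z1,[z2,z1,z1,z1,y1]),(z1,[y2,y2,y2,y1,z2])],.contra [y2,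
    z1,z2],.contra [z1],.ref k21 k0 [(z1,[z0,y1,y1,y1,z1]),(z2,[y1,z2,z2,z1]),(z1,[z1,z1,z1,z0,y1])],.contra [y2,z1,
    z2,z2],.ref k16 k4 [(z1,[y1,y1,y1,z0,z1]),(z1,[z1]),(z1,[y1,y1,y1,y1,z1])],.contra [y1,z1,z1],.contra [y1,z0,z1,
    z1],.contra [y2,z1,z2],.contra [z1,z2,z0,y2],.contra [y1,z0,z1,z1],.contra [y1,z0,y2,y2,z2],.contra [y2,y1,y2,y2,
    z2],.contra [z1],.contra [y1,z0,z1]]),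
    .geo true z4 k5 [(z4,y1),(z0,z2),(z4,y3),(z0,z2),(z8,y4),(z0,z4)] [(z1,[z1]),(z1,[z0,z2]),(z1,[z0,z0,z1]),(z1,[z0,z0,
    z0,z2]),(z1,[y1,y2,y1,y2,z4]),(z1,[])] z0 (Int.ofNat (nat_lit 1398102)) (.s (.s (.l k2) (.l k1)) (.l k1)) [⟨z0,z1,
    [[k0,k1],[k2,k3],[k4,k5]],.bnd k1⟩],
    .old (.lp [(nat_lit 3416),(nat_lit 4542),(nat_lit 2580),(nat_lit 3540),(nat_lit 3000),(nat_lit 3040)] [(nat_lit 563),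
    (nat_lit 563),k0,k0,(nat_lit 1156),(nat_lit 806),(nat_lit 936),k66,(nat_lit 771),(nat_lit 771),(nat_lit 1278),
    (nat_lit 224)] k0 [[k0,k0,k0,k0,k0,k0,k0,k0,k0,k0,k0,(nat_lit 584)],[k0,k0,(nat_lit 1538),k0,k0,k0,k0,k84,k0,k0,
    k0,(nat_lit 1248)],[k0,k0,k0,k0,(nat_lit 2460),(nat_lit 420),k0,k0,(nat_lit 378)],[(nat_lit 1538),k0,k0,k0,k0,k0,
    k0,k0,(nat_lit 1496)],[k0,k0,k0,(nat_lit 420)],[k0,k0,k0,(nat_lit 2460)],[k84],[k0,k0,k0,k0,k0,k0,k0,k0,k0,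
    (nat_lit 668)],[k0,k0,k0,k0,k0,k0,(nat_lit 668),k0,k0,k0,(nat_lit 1084),k84],[k0,k0,(nat_lit 1496),(nat_lit 378)],
    [(nat_lit 1248),(nat_lit 584),k0,k0,k0,k0,k0,k0,k0,k84],[k0,k0,k0,k0,k0,k0,k0,k0,k0,
    (nat_lit 1084)]] (nat_lit 10080) k6
    [[(k8,(nat_lit 2124)),(k4,(nat_lit 2823)),(k11,(nat_lit 3839)),(k7,(nat_lit 3913)),(k3,(nat_lit 4563)),(k0,
    (nat_lit 4664))],[(k10,(nat_lit 2117)),(k6,(nat_lit 3043)),(k5,(nat_lit 3173)),(k9,(nat_lit 3292)),(k1,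
    (nat_lit 4664)),(k2,(nat_lit 5517))],[(k10,(nat_lit 2016)),(k5,(nat_lit 2198)),(k6,(nat_lit 3522)),(k9,
    (nat_lit 3771)),(k2,(nat_lit 4542)),(k1,(nat_lit 4563))],[(k7,(nat_lit 2016)),(k4,(nat_lit 2966)),(k11,
    (nat_lit 3940)),(k3,(nat_lit 4542)),(k8,(nat_lit 5267)),(k0,(nat_lit 5517))],[(k11,(nat_lit 2016)),(k3,
    (nat_lit 2198)),(k0,(nat_lit 3173)),(k8,(nat_lit 3343)),(k7,(nat_lit 4090)),(k4,(nat_lit 5040))],[(k10,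
    (nat_lit 2108)),(k6,(nat_lit 2450)),(k9,(nat_lit 2615)),(k1,(nat_lit 2823)),(k2,(nat_lit 2966)),(k5,
    (nat_lit 5040))],[(k2,(nat_lit 2016)),(k10,(nat_lit 3198)),(k6,(nat_lit 3540)),(k9,(nat_lit 3705)),(k1,
    (nat_lit 3913)),(k5,(nat_lit 4090))],[(k4,(nat_lit 2450)),(k8,(nat_lit 2835)),(k0,(nat_lit 3043)),(k3,
    (nat_lit 3522)),(k7,(nat_lit 3540)),(k11,(nat_lit 4050))],[(k8,(nat_lit 2332)),(k4,(nat_lit 2615)),(k0,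
    (nat_lit 3292)),(k11,(nat_lit 3547)),(k7,(nat_lit 3705)),(k3,(nat_lit 3771))],[(k1,(nat_lit 2124)),(k9,
    (nat_lit 2332)),(k10,(nat_lit 2409)),(k6,(nat_lit 2835)),(k5,(nat_lit 3343)),(k2,(nat_lit 5267))],[(k5,
    (nat_lit 2016)),(k9,(nat_lit 3547)),(k1,(nat_lit 3839)),(k2,(nat_lit 3940)),(k6,(nat_lit 4050)),(k10,
    (nat_lit 4124))],[(k3,(nat_lit 2016)),(k4,(nat_lit 2108)),(k0,(nat_lit 2117)),(k8,(nat_lit 2409)),(k7,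
    (nat_lit 3198)),(k11,(nat_lit 4124))]]
    [] k0
    [[k2,k0,k0,k0,k0,k0],[k1,k1,k0,k1,k0,k0],[k1,k0,k1,k0,k0,k0],[k1,k0,k1,k1,k0,k0],[k1,k0,k1,k0,k1,k0],[k1,k0,k1,k0,
    k0,k1],[k1,k0,k0,k1,k0,k0],[k1,k0,k0,k1,k1,k0],[k1,k0,k0,k0,k1,k0],[k1,k0,k1,k0,k1,k1],[k1,k0,k0,k0,k2,k0],[k1,k0,
    k0,k0,k1,k1],[k1,k0,k0,k0,k0,k1],[k0,k2,k0,k0,k0,k0],[k0,k2,k1,k0,k0,k0],[k0,k1,k1,k0,k0,k0],[k0,k1,k1,k1,k0,k0],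
    [k0,k1,k1,k1,k1,k0],[k0,k1,k1,k0,k0,k1],[k0,k1,k2,k0,k0,k1],[k0,k1,k0,k1,k0,k0],[k0,k1,k0,k2,k0,k0],[k0,k1,k0,k0,
    k1,k0],[k0,k1,k0,k1,k1,k0],[k0,k1,k0,k0,k0,k1],[k0,k1,k1,k1,k0,k1],[k0,k1,k0,k1,k0,k1],[k0,k0,k2,k0,k0,k1],[k0,k0,
    k1,k1,k0,k0],[k0,k0,k1,k1,k1,k0],[k0,k0,k1,k0,k1,k0],[k0,k0,k1,k0,k2,k0],[k0,k0,k1,k0,k1,k1],[k0,k0,k1,k0,k0,k1],
    [k0,k0,k2,k0,k0,k2],[k0,k0,k1,k1,k0,k1],[k0,k0,k1,k0,k2,k1],[k0,k0,k1,k0,k0,k2],[k0,k0,k0,k2,k0,k0],[k0,k0,k0,k1,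
    k1,k0],[k0,k0,k0,k1,k2,k0],[k0,k0,k0,k1,k0,k1],[k0,k0,k0,k1,k1,k1],[k0,k0,k0,k0,k2,k0],[k0,k0,k0,k0,k3,k0],[k0,k0,
    k0,k0,k4,k0],[k0,k0,k0,k0,k2,k1],[k0,k0,k0,k0,k1,k1],[k0,k0,k0,k0,k0,k2]]
    [.contra [z1],.contra [z1,y1,y1],.ref k4 k1 [(z1,[z1,y1,z0,z1]),(z1,[y1,z1,z2,z1]),(z1,[z1,z1,z0,y1])],
    .ref k27 k2 [(z1,[z0,z0,y1,y1,z1]),(z1,[y1,z0,z0,z0,z1])],.contra [z1,z1,z0,y1],.ref k1 k2 [(z1,[z1,z0,z0,y1])],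
    .contra [y1,z0,y1,y1,z1],.ref k27 k2 [(z1,[z0,z0,y1,y1,z1]),(z1,[y1,z0,z0,y1,z1])],.ref k4 k1 [(z1,[z1,y1,z0,z2]),
    (z1,[y1,z1,z2]),(z1,[z1,z1])],.ref k39 k4 [(z1,[y1,z0,y1,y2,z1]),(z1,[z1,y1,z0,z2]),(z1,[z0,z1,z0,y2])],
    .contra [z1,z1],.ref k1 k2 [(z1,[z1])],.contra [y1,z0,y1,y1,z1],.contra [y1,z2,z2],.ref k4 k1 [(z1,[y1,z0,z2,z3]),
    (z1,[z1,z0,z0,y1]),(z1,[y1,z2,z2,z1])],.contra [y2,z1,z2,z2],.ref k1 k2 [(z1,[y1,z0,z0,z0,z1])],.contra [z1,z0,y1,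
    y1],.ref k27 k2 [(z1,[z0,z0,y1,y1,z1]),(z1,[z1,z0,z0,y1])],.contra [z1,z0,y1,y2],.ref k39 k4 [(z1,[z1,z0,y1,y2]),
    (z1,[y1,y1,z0,z2,z1]),(z1,[z0,z1,z0,y2])],.ref k1 k2 [(z2,[y1,z0,y1,y2,z2])],.contra [y2,z1,z2],.ref k1 k2 [(z1,
    [y1,z0,z0,y1,z1])],.ref k4 k0 [(z1,[z1,y1,y2,y1,z1]),(z1,[y1,z1,z0,y1,z1]),(z1,[z1,z1,z2,z1,y1])],.ref k4 k1 [(z1,
    [y1,y1,z0,z2,z1]),(z1,[z1,z1,z2,z0,y1]),(z1,[y1,z1,z0,z0,z1])],.contra [y1,z1,z0,y1,z1],.contra [y1,y1,y1,z1,z1],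
    .contra [y1,y1,y1,z1,z1],.contra [y1,y1,y1,z0,z1],.contra [z1,z0,z0,z1],.ref k4 k1 [(z1,[z1,z0,z0,z1]),(z1,[y1,z0,
    z2,z1]),(z1,[z1,z2,z0,y1])],.contra [y1,y1,y1,z0,z1],.contra [y1,y1,y1,z1,z1],.ref k21 k10 [(z1,[z0,z0,z1,z2]),
    (z2,[y1,y2,y2,z0,z2]),(z1,[z1,z0,y1,y2])],.contra [y2,y1,y2,z0,z2],.ref k1 k2 [(z1,[z1,z1,z0,y1])],
    .ref k40 k6 [(z1,[z2,z1,z0,y2]),(z1,[z0,y1]),(z1,[y2,y1,y4,y2,z4]),(z1,[z0,y1,z0,z2])],.contra [z1],.contra [y1,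
    y1,y1,z0,z1],.contra [y1,y1,y1,y1,z1],.contra [y1,z0,y1,y1,z1],.contra [y2,y1,y2,y2,z2],.contra [z1,z0,z0,z2],
    .ref k4 k1 [(z1,[z1,z0,z0,z2]),(z1,[y1,z0,z2]),(z1,[z1,z2])],.contra [z1,z2],.contra [y1,y1,y1,y1,z1],.contra [y1,
    y1,y1,z0,z1],.contra [z1]]),
    .geo true z1 k5 [(z0,z3),(z0,z2),(z2,y4),(z0,z4),(z2,y6),(z0,z1)] [(z1,[z1]),(z1,[z0,z1]),(z1,[z0,z0,z1]),(z1,[z0,z0,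
    z0,z1]),(z1,[y1,y1,y1,y1,z1]),(z1,[])] z0 (Int.ofNat (nat_lit 349526)) (.s (.s (.l k2) (.l k1)) (.l k1)) [⟨z0,z1,
    [[k0,k1],[k2,k3],[k4,k5]],.bnd k0⟩],
    .geo true z7 k5 [(z2,z0),(z8,z0),(z6,z0),(z4,z0),(z8,y7),(z0,z7)] [(z1,[z1]),(z1,[z0,z1]),(z1,[z0,z0,z1]),(z1,[z0,z0,
    z0,z1]),(z1,[y1,y1,y1,y1,z7]),(z1,[])] z0 (Int.ofNat (nat_lit 1198373)) (.s (.l k1) (.l k1)) [],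
    .geo true z1 k5 [(y2,z6),(z2,y4),(z2,y3),(z0,z2),(z2,y2),(z0,z1)] [(z1,[z1]),(z1,[z0,z1]),(z1,[z0,z0,z1]),(z1,[z0,z0,
    z0,z1]),(z1,[y1,y1,y1,y1,z1]),(z1,
    [])] (Int.ofNat (nat_lit 349525)) (Int.ofNat (nat_lit 524288)) (.s (.l k1) (.l k1)) [],
    .old (.lp [(nat_lit 778),(nat_lit 498),(nat_lit 678),(nat_lit 672),(nat_lit 748),(nat_lit 462)] [k10,k0,k145,k145,k55,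
    k55,k98,k18,k20,k20,k163,k163] k0 [[k0,k0,k142,k0,k0,k0,k0,(nat_lit 200)],[k0,k0,k4],[k0,k0,k0,k0,k168,
    (nat_lit 204)],[k4,k142],[k0,k0,k0,(nat_lit 204),k0,k0,k0,k0,k0,k0,k172,k66],[k0,k0,k0,k168,k0,k0,(nat_lit 366)],
    [k0,(nat_lit 200),k0,k0,k0,k0,k0,k0,k58],[k0,k0,k0,k0,(nat_lit 366),k0,k0,k0,k60],[k0,k0,k0,k0,k0,k0,k0,k0,k0,k0,
    (nat_lit 384),k36],[k0,k0,k0,k0,k0,k0,k60,k58],[k0,k0,k0,k0,k0,k66,k0,k0,k0,k36],[k0,k0,k0,k0,k0,k172,k0,k0,k0,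
    (nat_lit 384)]] (nat_lit 1920) k6
    [[(k8,(nat_lit 384)),(k4,(nat_lit 561)),(k3,(nat_lit 643)),(k11,(nat_lit 661)),(k0,(nat_lit 778)),(k7,
    (nat_lit 836))],[(k6,(nat_lit 480)),(k5,(nat_lit 581)),(k10,(nat_lit 615)),(k2,(nat_lit 637)),(k9,(nat_lit 758)),
    (k1,(nat_lit 778))],[(k10,(nat_lit 480)),(k6,(nat_lit 545)),(k5,(nat_lit 584)),(k2,(nat_lit 640)),(k1,
    (nat_lit 643)),(k9,(nat_lit 823))],[(k4,(nat_lit 384)),(k7,(nat_lit 457)),(k11,(nat_lit 480)),(k8,(nat_lit 623)),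
    (k0,(nat_lit 637)),(k3,(nat_lit 640))],[(k11,(nat_lit 570)),(k0,(nat_lit 581)),(k3,(nat_lit 584)),(k8,
    (nat_lit 713)),(k4,(nat_lit 846)),(k7,(nat_lit 919))],[(k2,(nat_lit 384)),(k10,(nat_lit 504)),(k1,(nat_lit 561)),
    (k9,(nat_lit 713)),(k5,(nat_lit 846)),(k6,(nat_lit 1001))],[(k9,(nat_lit 384)),(k2,(nat_lit 457)),(k6,
    (nat_lit 672)),(k10,(nat_lit 779)),(k1,(nat_lit 836)),(k5,(nat_lit 919))],[(k11,(nat_lit 469)),(k0,(nat_lit 480)),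
    (k3,(nat_lit 545)),(k7,(nat_lit 672)),(k8,(nat_lit 730)),(k4,(nat_lit 1001))],[(k7,(nat_lit 384)),(k11,
    (nat_lit 545)),(k4,(nat_lit 713)),(k0,(nat_lit 758)),(k8,(nat_lit 806)),(k3,(nat_lit 823))],[(k1,(nat_lit 384)),
    (k10,(nat_lit 569)),(k2,(nat_lit 623)),(k5,(nat_lit 713)),(k6,(nat_lit 730)),(k9,(nat_lit 806))],[(k6,
    (nat_lit 469)),(k2,(nat_lit 480)),(k9,(nat_lit 545)),(k5,(nat_lit 570)),(k1,(nat_lit 661)),(k10,(nat_lit 846))],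
    [(k3,(nat_lit 480)),(k4,(nat_lit 504)),(k8,(nat_lit 569)),(k0,(nat_lit 615)),(k7,(nat_lit 779)),(k11,
    (nat_lit 846))]]
    [] k0
    [[k2,k0,k0,k0,k0,k0],[k1,k1,k0,k0,k0,k0],[k1,k1,k1,k0,k0,k0],[k1,k1,k0,k1,k0,k0],[k1,k1,k0,k0,k0,k1],[k1,k0,k1,k0,
    k0,k0],[k1,k0,k1,k0,k0,k1],[k1,k0,k0,k1,k0,k0],[k1,k0,k0,k0,k1,k0],[k1,k1,k0,k0,k1,k0],[k1,k0,k1,k0,k1,k0],[k1,k0,
    k0,k1,k1,k0],[k1,k0,k0,k1,k1,k1],[k1,k0,k0,k0,k1,k1],[k1,k0,k0,k0,k0,k1],[k0,k2,k0,k0,k0,k0],[k0,k2,k1,k0,k0,k0],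
    [k0,k2,k0,k1,k0,k0],[k0,k2,k0,k0,k0,k1],[k0,k1,k1,k0,k0,k0],[k0,k1,k2,k0,k0,k0],[k0,k1,k1,k0,k0,k1],[k0,k1,k0,k1,
    k0,k0],[k0,k1,k1,k1,k0,k0],[k0,k1,k0,k2,k0,k0],[k0,k1,k0,k1,k1,k0],[k0,k1,k0,k1,k0,k1],[k0,k1,k0,k0,k1,k0],[k0,k1,
    k0,k0,k1,k1],[k0,k1,k0,k0,k0,k1],[k0,k1,k0,k0,k0,k2],[k0,k0,k2,k0,k0,k0],[k0,k0,k1,k1,k0,k1],[k0,k0,k1,k0,k1,k0],
    [k0,k0,k1,k0,k1,k1],[k0,k0,k1,k0,k0,k1],[k0,k0,k0,k2,k0,k0],[k0,k0,k0,k2,k1,k0],[k0,k0,k0,k1,k1,k0],[k0,k0,k0,k1,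
    k1,k1],[k0,k0,k0,k1,k0,k1],[k0,k0,k0,k0,k2,k0],[k0,k0,k0,k0,k1,k1],[k0,k0,k0,k0,k0,k2]]
    [.contra [z1],.contra [y1,z1,z1],.ref k1 k0 [(z1,[y1,z0,z0,z0,z1])],.ref k33 k10 [(z1,[y1,y1,y1,z0,z1]),(z1,[z1]),
    (z1,[y1,y1,y1,y1,z1])],.contra [y2,z2,z2,z1],.ref k26 k3 [(z1,[z0,y1,y1,y1,z1]),(z1,[y2,z1,z1,z1,z1]),(z1,[z1,z1,
    z1,z0,y1])],.contra [z1,y1,z0,z1],.contra [y1,z0,y1,y1,z1],.contra [y1,z1,z1],.contra [y1,z1,z1],.ref k2 k2 [(z1,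
    [z1])],.ref k1 k0 [(z1,[y1,y1,y2,y2,z2])],.contra [z2,z0,z2,z3,y2],.contra [y1,z1,z1],.contra [z1,y1],
    .contra [z1],.contra [y1,z0,z2,z3],.contra [y1,y1,z1,z3,z1],.ref k44 k0 [(z1,[z1,z0,y2]),(z1,[y1,z1,z2]),(z1,[z0,
    z0,z1]),(z1,[z0,z0,z0,z1])],.contra [y2,z0,z2,z3],.contra [z2,z0,y2,y3],.ref k1 k0 [(z1,[z1,y1,y2,y2,z1])],
    .ref k16 k10 [(z1,[y1,y1,y1,z0,z1]),(z1,[z1]),(z1,[y1,y1,y1,y1,z1])],.contra [z1,z1,z1,z0,y1],.ref k43 k8 [(z1,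
    [z3,z6,z10,z6,y6]),(z1,[y2,y4,y2,z3,z4]),(z1,[z2,y3,y5,y3,z3]),(z1,[y1,y2,y1,y2,z2])],.contra [y1,y1,z0,z1,z1],
    .ref k2 k2 [(z1,[y1,z0,z0,z0,z1])],.contra [y1,z0,z1,z1],.contra [y1,z1,z1],.contra [y2,z2,z2,z1],
    .ref k42 k6 [(z1,[z2,y3,y2]),(z1,[z1,y2,y1]),(z1,[y2,z3,z1,y1,z1]),(z1,[z2,y4,y2,z1])],.contra [z1],.contra [z1,
    z1,z1,z0,y1],.contra [y1,z0,z1,z1],.ref k33 k10 [(z1,[z1,y1,y1]),(z1,[y1,z0,z0,z0,z1]),(z1,[z1,y1,y1,y1])],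
    .ref k0 k0 [(z1,[z1])],.contra [y1,y2,y2,z0,z2],.contra [z1,z2,z3,z2,y2],.contra [y2,y2,y2,y1,z2],.ref k1 k0 [(z1,
    [z1])],.contra [y1,z0,y1,y1,z1],.contra [z1],.contra [y1,z1,z1],.contra [z1]]),
    .geo true z3 k5 [(y2,z3),(z6,y6),(z4,z0),(z2,z0),(z2,z0),(z0,z3)] [(z1,[z1]),(z1,[z0,z3]),(z1,[z0,z0,z1]),(z1,[z0,z0,
    z0,z1]),(z1,[y1,y3,y1,y1,z3]),(z1,[])] (Int.ofNat (nat_lit 699050)) (Int.ofNat (nat_lit 1048576)) (.l k1) [],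
    .old (.lp [(nat_lit 502),(nat_lit 438),(nat_lit 362),(nat_lit 542),(nat_lit 650),(nat_lit 374)] [k132,k132,k164,k164,
    (nat_lit 202),(nat_lit 202),k112,k112,k0,k116,k196,k196] k0 [[k0,k0,k144,k62,k0,k0,k16],[k0,k0,k0,k0,k0,k0,k72,k0,
    k0,k0,k20,k92],[k0,k62,k0,k0,k138],[k0,k144,k0,k0,k78],[k0,k0,k0,k0,k0,k0,k72,k0,k0,k0,k0,k2],[k0,k0,k78,k138],
    [k0,k0,k0,k0,k0,k0,k0,k0,k0,(nat_lit 366)],[k72,k16,k0,k0,k0,k72],[k0,k0,k0,k0,k0,k0,k0,(nat_lit 366),k0,k0,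
    (nat_lit 346)],[k0,k0,k0,k0,k0,k0,k0,k0,k0,k0,k50],[k92,k0,k0,k0,k0,k2],[k20,k0,k0,k0,k0,k0,k0,k0,k50,
    (nat_lit 346)]] (nat_lit 1440) k6
    [[(k8,(nat_lit 288)),(k11,(nat_lit 388)),(k4,(nat_lit 432)),(k3,(nat_lit 450)),(k7,(nat_lit 524)),(k0,
    (nat_lit 594))],[(k5,(nat_lit 288)),(k2,(nat_lit 408)),(k10,(nat_lit 458)),(k9,(nat_lit 502)),(k1,(nat_lit 594)),
    (k6,(nat_lit 594))],[(k10,(nat_lit 314)),(k9,(nat_lit 414)),(k1,(nat_lit 450)),(k5,(nat_lit 462)),(k6,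
    (nat_lit 506)),(k2,(nat_lit 582))],[(k7,(nat_lit 352)),(k11,(nat_lit 406)),(k0,(nat_lit 408)),(k4,(nat_lit 478)),
    (k3,(nat_lit 582)),(k8,(nat_lit 602))],[(k0,(nat_lit 288)),(k11,(nat_lit 368)),(k7,(nat_lit 374)),(k3,
    (nat_lit 462)),(k4,(nat_lit 500)),(k8,(nat_lit 564))],[(k10,(nat_lit 366)),(k9,(nat_lit 376)),(k1,(nat_lit 432)),
    (k6,(nat_lit 452)),(k2,(nat_lit 478)),(k5,(nat_lit 500))],[(k2,(nat_lit 352)),(k5,(nat_lit 374)),(k10,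
    (nat_lit 458)),(k1,(nat_lit 524)),(k9,(nat_lit 538)),(k6,(nat_lit 614))],[(k8,(nat_lit 288)),(k4,(nat_lit 452)),
    (k11,(nat_lit 458)),(k3,(nat_lit 506)),(k0,(nat_lit 594)),(k7,(nat_lit 614))],[(k4,(nat_lit 376)),(k3,
    (nat_lit 414)),(k0,(nat_lit 502)),(k7,(nat_lit 538)),(k8,(nat_lit 650)),(k11,(nat_lit 820))],[(k1,(nat_lit 288)),
    (k6,(nat_lit 288)),(k5,(nat_lit 564)),(k2,(nat_lit 602)),(k10,(nat_lit 620)),(k9,(nat_lit 650))],[(k5,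
    (nat_lit 368)),(k1,(nat_lit 388)),(k2,(nat_lit 406)),(k6,(nat_lit 458)),(k10,(nat_lit 720)),(k9,(nat_lit 820))],
    [(k3,(nat_lit 314)),(k4,(nat_lit 366)),(k0,(nat_lit 458)),(k7,(nat_lit 458)),(k8,(nat_lit 620)),(k11,
    (nat_lit 720))]]
    [] k0
    [[k2,k0,k0,k0,k0,k0],[k2,k0,k1,k0,k0,k0],[k2,k0,k0,k0,k1,k0],[k1,k1,k0,k0,k0,k0],[k1,k1,k1,k0,k0,k0],[k1,k1,k0,k1,
    k0,k0],[k1,k1,k0,k0,k0,k1],[k1,k0,k1,k0,k0,k0],[k1,k0,k2,k0,k0,k0],[k1,k0,k1,k1,k0,k0],[k1,k0,k1,k0,k0,k1],[k1,k0,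
    k0,k1,k0,k0],[k1,k0,k0,k1,k1,k0],[k1,k0,k0,k0,k1,k0],[k1,k1,k0,k0,k1,k0],[k1,k0,k1,k0,k1,k0],[k1,k0,k0,k0,k0,k1],
    [k0,k2,k0,k0,k0,k0],[k0,k2,k0,k0,k0,k1],[k0,k1,k1,k0,k0,k0],[k0,k1,k1,k1,k0,k0],[k0,k1,k1,k0,k0,k1],[k0,k1,k0,k1,
    k0,k0],[k0,k1,k0,k1,k0,k1],[k0,k1,k0,k0,k1,k0],[k0,k1,k0,k1,k1,k0],[k0,k1,k0,k0,k0,k1],[k0,k0,k2,k0,k0,k0],[k0,k0,
    k2,k1,k0,k0],[k0,k0,k2,k0,k0,k1],[k0,k0,k1,k1,k0,k0],[k0,k0,k1,k1,k1,k0],[k0,k0,k1,k1,k0,k1],[k0,k0,k1,k0,k1,k0],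
    [k0,k0,k1,k0,k0,k1],[k0,k0,k1,k0,k1,k1],[k0,k0,k0,k2,k0,k0],[k0,k0,k0,k1,k1,k0],[k0,k0,k0,k1,k0,k1],[k0,k0,k0,k0,
    k2,k0]]
    [.contra [z1],.contra [y1,z1,z0,z1],.contra [z2,y3,y1,y1,z2],.contra [y2,z1,z1,z1],.contra [z2,y1,z1,y1],
    .contra [y2,z1,z1,z1],.contra [z2,y1,y1,z1],.contra [y1,z1,z0,z1],.contra [y1,z1,z0,z1],.contra [y2,z1,z1,z1],
    .ref k39 k8 [(z2,[z2,y3,z1,y1]),(z1,[y1,z2,z0,z1]),(z2,[z0,y3,y1,y1,z2])],.contra [y2,z1,z1,z1],.ref k45 k10 [(z1,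
    [y1,y1,z0,z0,z1]),(z2,[z2,z3,z1,z1,y2]),(z2,[z0,y3,y1,y1,z2])],.ref k46 k10 [(z1,[y1,z0,y2,z1,z1]),(z1,[z0,z0,
    z1]),(z2,[z4,y3,y1,y1,z2]),(z1,[y2,z0,y1,y1,z2])],.ref k33 k3 [(z2,[z2,y1,y1,y1]),(z1,[y1,z0,z0,z0,z1]),(z1,[z1,
    z1,z0,z0,y1])],.ref k0 k3 [(z2,[z2,y1,z1,y1])],.contra [y1,z1],.contra [z1],.contra [z1,z0,y1,z1],.contra [y2,z1,
    z1,z1],.contra [y2,z1,z1,z1],.ref k45 k10 [(z1,[z1,y1]),(z2,[y2,z3,z1,z1]),(z2,[z0,y3,y1,y1,z2])],.contra [y1,z0,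
    z1],.ref k0 k3 [(z2,[y2,y1,z1,y1,z2])],.ref k0 k3 [(z1,[z1])],.ref k39 k8 [(z2,[y2,y3,z1,y1,z2]),(z1,[z1,z2,z0,z1,
    y1]),(z2,[z0,y3,y1,y1,z2])],.ref k39 k8 [(z1,[z1,y1]),(z2,[y2,z3,z1,z1]),(z2,[z0,y3,y1,y1,z2])],.contra [z1],
    .contra [y1,z1,z0,z1],.ref k39 k8 [(z2,[z1,y2,z1,y1]),(z2,[y1,z3,z0,z2]),(z2,[z0,y3,y1,y1,z2])],.contra [y2,z1,z1,
    z1],.contra [y2,y1,y1,z1,z2],.ref k33 k3 [(z2,[y2,y1,y1,y1,z2]),(z1,[z1]),(z1,[y1,z1])],.contra [y2,y1,y1,z1,z2],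
    .ref k0 k0 [(z1,[z1])],.contra [z2,z1,z1,z1,y2],.contra [z1],.contra [y2,y1,y1,z1,z2],.ref k16 k3 [(z2,[y2,y1,y1,
    y1,z2]),(z1,[z1]),(z1,[y1,z1])],.contra [z1]])]

noncomputable def cU6_2_n0_4 : List XN :=
  [.old (.leafM k11 [k1,k3,k5,k0] [(z1,[y1,y3,y3,z3]),(z1,[z1]),(z1,[z0,z1])] [(k2,k4,z1,[z0,z0,z1]),(k4,k2,z1,[z0,z0,
    z1])]),
    .geo true z3 k5 [(y2,z3),(z4,z0),(z2,z0),(z2,z0),(z6,y6),(z0,z3)] [(z1,[z1]),(z1,[z0,z1]),(z1,[z0,z0,z1]),(z1,[z0,z0,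
    z0,z1]),(z1,[y1,y1,y1,y1,z3]),(z1,[])] (Int.ofNat (nat_lit 699050)) (Int.ofNat (nat_lit 1048576)) (.l k1) [],
    .geo true z3 k5 [(y2,z3),(z6,y6),(z2,z0),(z2,z0),(z4,z0),(z0,z3)] [(z1,[z1]),(z1,[z0,z3]),(z1,[z0,z0,z1]),(z1,[z0,z0,
    z0,z1]),(z1,[y1,y3,y1,y1,z3]),(z1,[])] (Int.ofNat (nat_lit 699050)) (Int.ofNat (nat_lit 1048576)) (.l k1) [],
    .old (.lp [(nat_lit 398),(nat_lit 356),(nat_lit 290),(nat_lit 384),(nat_lit 206),(nat_lit 284)] [k34,k34,k55,k55,k66,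
    k110,k82,k0,k130,k130,k38,k144] k0 [[k0,k0,k0,k150,k0,k0,k0,k0,k0,k0,k0,k36],[k0,k0,k0,k36,k0,k0,k34],[k36,k150],
    [k0,k0,k0,k0,k164,k48],[k0,k0,k48,k0,k0,k0,k0,k126],[k0,k0,k164,k0,k0,k0,k0,k0,k0,k0,k0,(nat_lit 236)],[k0,k0,k0,
    k0,k0,k126,k0,k0,k38],[k34],[k0,k0,k0,k0,k0,k0,k0,k0,k0,k0,k110],[k0,k0,k0,k0,k0,k0,k0,k38,k0,k0,k76],[k0,k36,k0,
    k0,(nat_lit 236)],[k0,k0,k0,k0,k0,k0,k0,k0,k76,k110]] (nat_lit 960) k6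
    [[(k8,k192),(k11,(nat_lit 212)),(k0,(nat_lit 398)),(k3,(nat_lit 413)),(k7,(nat_lit 432)),(k4,(nat_lit 602))],[(k2,
    (nat_lit 227)),(k9,(nat_lit 302)),(k5,(nat_lit 358)),(k10,(nat_lit 358)),(k6,(nat_lit 384)),(k1,(nat_lit 398))],
    [(k9,(nat_lit 247)),(k2,(nat_lit 320)),(k6,(nat_lit 329)),(k10,(nat_lit 373)),(k1,(nat_lit 413)),(k5,
    (nat_lit 451))],[(k0,(nat_lit 227)),(k11,(nat_lit 267)),(k8,(nat_lit 281)),(k3,(nat_lit 320)),(k7,(nat_lit 459)),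
    (k4,(nat_lit 509))],[(k7,k192),(k11,(nat_lit 212)),(k8,(nat_lit 226)),(k4,(nat_lit 242)),(k0,(nat_lit 358)),(k3,
    (nat_lit 451))],[(k6,k192),(k5,(nat_lit 242)),(k9,(nat_lit 270)),(k10,(nat_lit 362)),(k2,(nat_lit 509)),(k1,
    (nat_lit 602))],[(k5,k192),(k10,k192),(k6,(nat_lit 384)),(k1,(nat_lit 432)),(k2,(nat_lit 459)),(k9,
    (nat_lit 462))],[(k4,k192),(k11,(nat_lit 202)),(k8,(nat_lit 254)),(k3,(nat_lit 329)),(k0,(nat_lit 384)),(k7,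
    (nat_lit 384))],[(k11,k192),(k8,(nat_lit 244)),(k3,(nat_lit 247)),(k4,(nat_lit 270)),(k0,(nat_lit 302)),(k7,
    (nat_lit 462))],[(k1,k192),(k5,(nat_lit 226)),(k9,(nat_lit 244)),(k6,(nat_lit 254)),(k2,(nat_lit 281)),(k10,
    (nat_lit 374))],[(k9,k192),(k6,(nat_lit 202)),(k1,(nat_lit 212)),(k5,(nat_lit 212)),(k2,(nat_lit 267)),(k10,
    (nat_lit 394))],[(k7,k192),(k0,(nat_lit 358)),(k4,(nat_lit 362)),(k3,(nat_lit 373)),(k8,(nat_lit 374)),(k11,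
    (nat_lit 394))]]
    [] k0
    [[k2,k0,k0,k0,k0,k0],[k2,k0,k0,k0,k1,k0],[k1,k1,k0,k0,k0,k0],[k1,k0,k0,k1,k0,k0],[k1,k0,k0,k0,k1,k0],[k1,k1,k0,k0,
    k1,k0],[k1,k0,k1,k0,k1,k0],[k1,k0,k0,k0,k2,k0],[k1,k1,k0,k0,k2,k0],[k1,k0,k0,k0,k1,k1],[k1,k0,k0,k0,k0,k1],[k1,k1,
    k0,k0,k0,k1],[k1,k0,k1,k0,k0,k1],[k1,k0,k0,k1,k0,k1],[k1,k0,k1,k1,k0,k1],[k0,k2,k0,k0,k0,k0],[k0,k2,k0,k0,k1,k0],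
    [k0,k1,k0,k1,k0,k0],[k0,k1,k0,k1,k0,k1],[k0,k1,k0,k0,k1,k0],[k0,k1,k0,k0,k2,k0],[k0,k1,k0,k0,k1,k1],[k0,k1,k0,k0,
    k0,k1],[k0,k0,k2,k0,k0,k0],[k0,k0,k3,k0,k0,k0],[k0,k0,k3,k1,k0,k0],[k0,k0,k2,k1,k0,k0],[k0,k0,k2,k1,k1,k0],[k0,k0,
    k2,k0,k1,k0],[k0,k0,k2,k0,k0,k1],[k0,k0,k2,k1,k0,k1],[k0,k0,k1,k1,k0,k0],[k0,k0,k2,k2,k0,k0],[k0,k0,k1,k2,k0,k0],
    [k0,k0,k1,k1,k1,k0],[k0,k0,k1,k1,k0,k1],[k0,k0,k1,k2,k0,k1],[k0,k0,k1,k0,k1,k0],[k0,k0,k1,k0,k2,k0],[k0,k0,k1,k0,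
    k1,k1],[k0,k0,k1,k1,k1,k1],[k0,k0,k1,k0,k0,k1],[k0,k0,k0,k2,k0,k0],[k0,k0,k0,k2,k0,k1],[k0,k0,k0,k1,k1,k0],[k0,k0,
    k0,k1,k0,k1],[k0,k0,k0,k2,k0,k2],[k0,k0,k0,k1,k1,k1],[k0,k0,k0,k1,k2,k1],[k0,k0,k0,k1,k0,k2],[k0,k0,k0,k0,k2,k0],
    [k0,k0,k0,k0,k3,k0],[k0,k0,k0,k0,k2,k1],[k0,k0,k0,k0,k1,k1],[k0,k0,k0,k0,k0,k2]]
    [.contra [z1],.ref k4 k2 [(z1,[z1]),(z3,[z3,y2,z2]),(z3,[y3,z2,z0,z2])],.contra [z3,z1,y1],.contra [y3,z0,y1,y1,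
    z3],.contra [y3,z0,y1,y1,z3],.ref k4 k2 [(z3,[z3,z1,y1]),(z3,[z3,y1,z1]),(z3,[y3,z1,z1,z2])],.contra [z3,y1,z0,
    y1],.ref k4 k2 [(z2,[z1,z1]),(z6,[z3,y1,z4]),(z6,[y3,z1,z0,z4])],.ref k48 k3 [(z2,[z3,y1,y1]),(z6,[y3,y1,y1,y2,
    z6]),(z3,[z0,z1,z0,z1])],.contra [y3,z0,y1,y1,z3],.contra [y3,z0,y1,y1,z3],.ref k0 k0 [(z3,[z3,y1,y1,z1])],
    .contra [z3,y1,z0,y1],.contra [y3,z0,y1,y1,z3],.contra [z3,y1,z0,y1],.contra [z3,z2,y2],.ref k4 k2 [(z3,[z3,z2,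
    y2]),(z1,[z1]),(z3,[y3,z0,z2,z2])],.contra [y3,y1,z0,y1,z3],.contra [y3,y1,z0,y1,z3],.contra [y3,y1,z0,y1,z3],
    .ref k4 k2 [(z6,[z3,z4,y1]),(z2,[z1,z0,z1]),(z6,[y3,z0,z1,z4])],.contra [y3,y1,z0,y1,z3],.contra [y3,y1,z0,y1,z3],
    .contra [y3,z2,z0,z2],.contra [y1,z2,z0,z1],.contra [z1,z1,z0,y1],.contra [z3,z1,z0,y2],.contra [z3,z1,z0,y2],
    .contra [z3,z1,z0,y2],.contra [z3,z1,z0,y2],.contra [z3,z1,z0,y2],.ref k3 k1 [(z1,[z1]),(z3,[y3,z0,z1,z1])],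
    .contra [z3,z1,z0,y2],.ref k16 k8 [(z3,[z0,y1,z1]),(z3,[z0,z1,z0,z1]),(z3,[z3,y1,z0,y1])],.ref k0 k0 [(z3,[y3,y1,
    y1,z1,z3])],.ref k4 k2 [(z3,[y3,z1,y1,z0,z3]),(z3,[y3,y1,z1,z0,z3]),(z3,[z3,z1,z1,z2,y3])],.ref k49 k5 [(z1,[z3,
    z1,z1,z0,y3]),(z1,[z0,z0,z0,z1]),(z1,[z0,z0,z1]),(z1,[z0,z1])],.ref k4 k2 [(z3,[z3,z2,z0,y1]),(z3,[z3,z0,z2,y1]),
    (z1,[y1,z0,z0,z1])],.ref k48 k3 [(z2,[z3,z0,z0,y1]),(z6,[y3,y2,y2,y1,z6]),(z3,[z0,z1,z0,z1])],.ref k3 k1 [(z3,[y3,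
    y1,y1,z1,z3]),(z3,[z3,z1,z2,z0,y3])],.contra [y3,z1,y1,z0,z3],.ref k0 k0 [(z1,[z1])],.contra [z1],
    .ref k50 k3 [(z1,[y3,y1,y1,y1,z3]),(z1,[z1]),(z1,[z0,z1]),(z1,[z0,z0,z1])],.contra [y3,z0,y1,y1,z3],.contra [y3,
    z0,y1,y1,z3],.ref k48 k3 [(z2,[y3,y2,y2,y2,z6]),(z2,[z1]),(z3,[z0,z1,z0,z1])],.contra [z3,z3,z1,z1,y3],
    .ref k4 k2 [(z3,[z3,z3,z1,z1,y3]),(z3,[z3,z1,z3,z1,y3]),(z3,[y3,y1,y1,z1,z3])],.ref k47 k7 [(z3,[z0,z2,z1]),(z1,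
    [z1]),(z3,[y3,y2,y3,y2,z6])],.contra [z1],.ref k4 k2 [(z3,[z1,z2]),(z3,[z1,z0,z2]),(z3,[y1,z0,z0,z2])],
    .ref k49 k5 [(z1,[y3,y1,y1,y1,z3]),(z1,[z0,z0,z0,z1]),(z1,[z0,z0,z1]),(z1,[z0,z1])],.contra [y3,z0,y1,y1,z3],
    .contra [z1]]),
    .geo true z1 k5 [(y2,z3),(z2,y2),(y2,z4),(z4,y4),(z2,y2),(z0,z1)] [(z1,[z1]),(z1,[z0,z1]),(z1,[z0,z0,z1]),(z1,[z0,z0,
    z0,z1]),(z1,[y1,y1,y1,y1,z1]),(z1,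
    [])] (Int.ofNat (nat_lit 699050)) (Int.ofNat (nat_lit 1048576)) (.s (.s (.l k1) (.l k1)) (.s (.l k1) (.l k1))) [],
    .old (.lp [(nat_lit 206),k182,k141,k112,k169,k149] [k0,k36,k30,k30,k44,k57,k65,k65,k65,k8,k41,k52] k0 [[k0,k0,k31,k0,
    k0,k0,k0,k0,k0,k0,k0,k81],[k0,k0,k11],[k0,k0,k0,k0,k27,k0,k0,k0,k0,k8],[k11,k31],[k0,k0,k0,k0,k0,k0,k70,k13,k0,k0,
    k42],[k0,k0,k0,k27,k0,k0,k0,k0,k0,k0,k19],[k0,k0,k0,k0,k0,k13,k0,k0,k5],[k0,k0,k0,k0,k0,k70,k0,k0,k12],[k0,k0,k0,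
    k8,k0,k0,k0,k0,k0,k0,k14],[k0,k0,k0,k0,k0,k0,k12,k5],[k0,k81],[k0,k0,k0,k0,k19,k42,k0,k0,k0,k14]] (nat_lit 480) k5
    [[(k4,k120),(k7,k122),(k8,k127),(k11,k154),(k0,(nat_lit 206)),(k3,(nat_lit 257))],[(k10,k120),(k5,k154),(k6,k177),
    (k1,(nat_lit 206)),(k2,(nat_lit 223)),(k9,(nat_lit 234))],[(k5,k144),(k6,k147),(k10,k171),(k9,(nat_lit 204)),(k2,
    (nat_lit 213)),(k1,(nat_lit 257))],[(k7,k120),(k8,k139),(k11,k160),(k4,k168),(k3,(nat_lit 213)),(k0,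
    (nat_lit 223))],[(k7,k120),(k8,k120),(k11,k141),(k3,k144),(k0,k154),(k4,k168)],[(k1,k120),(k6,k120),(k9,k120),(k2,
    k168),(k5,k168),(k10,k176)],[(k2,k120),(k5,k120),(k1,k122),(k10,k178),(k6,k182),(k9,k182)],[(k4,k120),(k11,k120),
    (k8,k124),(k3,k147),(k0,k177),(k7,k182)],[(k4,k120),(k11,k170),(k8,k174),(k7,k182),(k3,(nat_lit 204)),(k0,
    (nat_lit 234))],[(k5,k120),(k6,k124),(k1,k127),(k10,k136),(k2,k139),(k9,k174)],[(k6,k120),(k5,k141),(k1,k154),(k2,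
    k160),(k10,k163),(k9,k170)],[(k0,k120),(k8,k136),(k11,k163),(k3,k171),(k4,k176),(k7,k178)]]
    [] k0
    [[k2,k0,k0,k0,k0,k0],[k1,k0,k1,k0,k0,k0],[k1,k0,k2,k0,k0,k0],[k1,k0,k1,k1,k0,k0],[k1,k0,k1,k0,k1,k0],[k1,k0,k1,k0,
    k0,k1],[k1,k0,k0,k1,k0,k0],[k1,k0,k0,k1,k0,k1],[k1,k0,k0,k0,k1,k0],[k1,k0,k0,k0,k1,k1],[k1,k0,k0,k0,k0,k1],[k1,k0,
    k0,k0,k0,k2],[k0,k2,k0,k0,k0,k0],[k0,k1,k1,k0,k0,k0],[k0,k1,k1,k1,k0,k0],[k0,k1,k1,k0,k1,k0],[k0,k1,k0,k1,k0,k0],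
    [k0,k1,k0,k2,k0,k0],[k0,k1,k0,k1,k1,k0],[k0,k1,k0,k0,k1,k0],[k0,k1,k0,k0,k0,k1],[k0,k1,k0,k1,k0,k1],[k0,k0,k2,k0,
    k0,k0],[k0,k0,k2,k1,k0,k0],[k0,k0,k2,k0,k1,k0],[k0,k0,k1,k1,k0,k0],[k0,k0,k1,k2,k0,k0],[k0,k0,k1,k1,k1,k0],[k0,k0,
    k1,k1,k0,k1],[k0,k0,k1,k0,k1,k0],[k0,k0,k1,k0,k2,k0],[k0,k0,k1,k0,k1,k1],[k0,k0,k1,k0,k0,k1],[k0,k0,k0,k2,k0,k0],
    [k0,k0,k0,k1,k1,k0],[k0,k0,k0,k1,k1,k1],[k0,k0,k0,k1,k0,k1],[k0,k0,k0,k1,k0,k2],[k0,k0,k0,k0,k2,k0],[k0,k0,k0,k0,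
    k1,k1],[k0,k0,k0,k0,k1,k2],[k0,k0,k0,k0,k0,k2]]
    [.contra [z1],.ref k3 k2 [(z1,[z1,z0,z0,y1]),(z1,[y1,z1,z1,z1])],.contra [z1,z1,z0,y2],.ref k27 k2 [(z1,[z1,z0,z0,
    y1]),(z1,[y1,z0,z0,z0,z1])],.ref k1 k2 [(z1,[z1,z0,z0,y1])],.contra [z1,z1,z0,y1],.contra [y1,z0,y1,y1,z1],
    .ref k27 k2 [(z1,[z1]),(z1,[y1,z0,z0,y1,z1])],.contra [y1,z0,y1,y1,z1],.ref k1 k2 [(z1,[z1])],.ref k3 k2 [(z1,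
    [z1]),(z1,[y1,z1,z1])],.contra [z1,z1],.contra [y1,z2,z2],.contra [y2,z1,z2,z2],.ref k1 k2 [(z1,[y1,z0,z0,z0,
    z1])],.ref k27 k2 [(z1,[y1,z0,z0,z0,z1]),(z1,[z1,z0,z0,y1])],.ref k39 k4 [(z1,[z1,z0,y1,y2]),(z1,[y1,y1,z0,z2,
    z1]),(z1,[z0,z1,z0,y2])],.ref k1 k2 [(z2,[y1,z0,y1,y2,z2])],.contra [y1,z1,z0,y1,z1],.ref k0 k3 [(z1,[z1])],
    .contra [y2,z1,z2],.ref k1 k2 [(z1,[y1,z0,z0,y1,z1])],.contra [z1],.contra [y1,y1,y1,z1,z1],.contra [y1,y1,y1,z1,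
    z1],.contra [y1,y1,y1,z1,z1],.ref k47 k10 [(z1,[z0,z0,z1,z2]),(z1,[z1,z0,z0,y1]),(z1,[y1,y2,y3,y1,z2])],
    .contra [y2,y1,y2,z0,z2],.contra [y1,y1,y1,z0,z1],.contra [y1,y1,y1,z1,z1],.ref k52 k5 [(z1,[y2,y1,y1,z1,z1]),(z1,
    [z1]),(z1,[y2,z0,z1,z2]),(z1,[z2,z1,z0,y2])],.contra [y1,y1,y1,z0,z1],.contra [z1,z0,z0,z1],.contra [z1],
    .contra [y1,z0,y1,y1,z1],.contra [y2,y1,y2,y2,z2],.contra [y1,y1,y1,z0,z1],.contra [y1,y1,y1,y1,z1],.contra [z1],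
    .contra [y1,y1,y1,z0,z1],.contra [y1,y1,y1,y1,z1],.contra [z1,z0,z0,z2]]),
    .old (.lp [(nat_lit 2358702),(nat_lit 2212116),(nat_lit 3025002),(nat_lit 3104958),(nat_lit 1918944),
    (nat_lit 2274304)] [(nat_lit 373128),(nat_lit 373128),(nat_lit 533040),(nat_lit 359802),(nat_lit 39978),
    (nat_lit 39978),k0,k0,(nat_lit 612996),(nat_lit 573018),(nat_lit 284287),(nat_lit 546367)] k0 [[k0,k0,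
    (nat_lit 679626),k0,k0,k0,k0,(nat_lit 812886)],[k0,k0,k0,k0,k0,k0,k0,(nat_lit 879516),k0,k0,k0,(nat_lit 595228)],
    [k0,k0,k0,k0,k0,(nat_lit 666300)],[k0,(nat_lit 679626)],[k0,k0,k0,(nat_lit 666300),k0,k0,k0,k0,k0,k0,
    (nat_lit 195448)],[k0,k0,k0,k0,k0,k0,(nat_lit 666300),k0,k0,k0,(nat_lit 142144)],[(nat_lit 879516),
    (nat_lit 812886),k0,k0,k0,k0,k0,k0,(nat_lit 599670)],[k0,k0,k0,k0,(nat_lit 666300)],[k0,k0,k0,k0,k0,k0,k0,k0,k0,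
    k0,(nat_lit 213216),(nat_lit 342034)],[k0,k0,k0,k0,k0,k0,k0,(nat_lit 599670)],[(nat_lit 595228),k0,k0,k0,k0,k0,k0,
    k0,k0,(nat_lit 342034)],[k0,k0,k0,k0,(nat_lit 142144),(nat_lit 195448),k0,k0,k0,
    (nat_lit 213216)]] (nat_lit 7462560) k5
    [[(k8,(nat_lit 1905618)),(k3,(nat_lit 2372028)),(k4,(nat_lit 2496404)),(k11,(nat_lit 2527497)),(k7,
    (nat_lit 2589686)),(k0,(nat_lit 2953930))],[(k6,(nat_lit 1918944)),(k5,(nat_lit 2012226)),(k2,(nat_lit 2198790)),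
    (k10,(nat_lit 2447543)),(k1,(nat_lit 2953930)),(k9,(nat_lit 3038328))],[(k6,(nat_lit 1865640)),(k10,
    (nat_lit 1865641)),(k1,(nat_lit 2372028)),(k5,(nat_lit 2705178)),(k2,(nat_lit 2891742)),(k9,(nat_lit 2985024))],
    [(k4,(nat_lit 1865640)),(k8,(nat_lit 1958922)),(k11,(nat_lit 2025551)),(k0,(nat_lit 2198790)),(k7,
    (nat_lit 2571918)),(k3,(nat_lit 2891742))],[(k0,(nat_lit 2012226)),(k8,(nat_lit 2451984)),(k11,(nat_lit 2518613)),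
    (k3,(nat_lit 2705178)),(k4,(nat_lit 3025002)),(k7,(nat_lit 3731280))],[(k2,(nat_lit 1865640)),(k9,
    (nat_lit 2491962)),(k1,(nat_lit 2496404)),(k10,(nat_lit 2922837)),(k5,(nat_lit 3025002)),(k6,(nat_lit 3731280))],
    [(k9,(nat_lit 1865640)),(k2,(nat_lit 2571918)),(k1,(nat_lit 2589686)),(k10,(nat_lit 3016119)),(k6,
    (nat_lit 3104958)),(k5,(nat_lit 3731280))],[(k3,(nat_lit 1865640)),(k0,(nat_lit 1918944)),(k11,(nat_lit 1958921)),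
    (k8,(nat_lit 2491962)),(k7,(nat_lit 3104958)),(k4,(nat_lit 3731280))],[(k7,(nat_lit 1865640)),(k11,
    (nat_lit 1985573)),(k4,(nat_lit 2491962)),(k8,(nat_lit 2518614)),(k3,(nat_lit 2985024)),(k0,(nat_lit 3038328))],
    [(k10,(nat_lit 1865641)),(k1,(nat_lit 1905618)),(k2,(nat_lit 1958922)),(k5,(nat_lit 2451984)),(k6,
    (nat_lit 2491962)),(k9,(nat_lit 2518614))],[(k6,(nat_lit 1958921)),(k9,(nat_lit 1985573)),(k2,(nat_lit 2025551)),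
    (k10,(nat_lit 2487520)),(k5,(nat_lit 2518613)),(k1,(nat_lit 2527497))],[(k3,(nat_lit 1865641)),(k8,
    (nat_lit 1865641)),(k0,(nat_lit 2447543)),(k11,(nat_lit 2487520)),(k4,(nat_lit 2922837)),(k7,(nat_lit 3016119))]]
    [] k0
    [[k2,k0,k0,k0,k0,k0],[k1,k1,k0,k0,k0,k0],[k1,k1,k1,k0,k0,k0],[k1,k1,k0,k1,k0,k0],[k1,k1,k0,k0,k1,k0],[k1,k1,k0,k0,
    k0,k1],[k1,k0,k1,k0,k0,k0],[k1,k0,k0,k1,k0,k0],[k1,k0,k0,k1,k0,k1],[k1,k0,k0,k0,k1,k0],[k1,k0,k1,k0,k1,k0],[k1,k0,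
    k0,k1,k1,k0],[k1,k0,k0,k0,k1,k1],[k1,k0,k0,k0,k0,k1],[k0,k2,k0,k0,k0,k0],[k0,k2,k0,k1,k0,k0],[k0,k2,k0,k0,k0,k1],
    [k0,k1,k1,k0,k0,k0],[k0,k1,k1,k0,k1,k0],[k0,k1,k0,k1,k0,k0],[k0,k1,k0,k1,k1,k0],[k0,k1,k0,k1,k0,k1],[k0,k1,k0,k0,
    k1,k0],[k0,k1,k0,k0,k1,k1],[k0,k1,k0,k0,k0,k1],[k0,k1,k1,k0,k0,k1],[k0,k1,k0,k0,k0,k2],[k0,k0,k2,k0,k0,k0],[k0,k0,
    k1,k0,k1,k0],[k0,k0,k1,k0,k1,k1],[k0,k0,k1,k0,k0,k1],[k0,k0,k0,k2,k0,k0],[k0,k0,k0,k1,k1,k0],[k0,k0,k0,k1,k2,k0],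
    [k0,k0,k0,k1,k1,k1],[k0,k0,k0,k1,k0,k1],[k0,k0,k0,k0,k2,k0],[k0,k0,k0,k0,k2,k1],[k0,k0,k0,k0,k1,k1],[k0,k0,k0,k0,
    k1,k2],[k0,k0,k0,k0,k0,k2]]
    [.contra [z1],.contra [y1,z2,z1],.ref k0 k2 [(z1,[y1,z1,z0,z0,z1])],.ref k33 k5 [(z1,[z1,y1,y1]),(z1,[y1,z0,z0,z0,
    z1]),(z1,[z1,z0,z2,z1,y1])],.contra [y1,z1,z1],.contra [y1,z1,z1],.ref k33 k5 [(z1,[y1,z0,y1,z0,z1]),(z1,[z1,y1]),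
    (z1,[y1,z1,z2,z1])],.ref k0 k2 [(z1,[z1])],.ref k47 k11 [(z1,[z0,z0,z2,z1]),(z1,[y1,z2,y1,y1,z1]),(z1,[z1,z0,z1,
    z0,y1])],.contra [y1,z1,z1],.ref k2 k2 [(z1,[z1])],.ref k41 k5 [(z1,[z2,y1,z1,z1,y1]),(z1,[y2,z0,y2,y1,z2]),(z1,
    [z1,z0,z2,z1,y1])],.contra [z1,z1],.contra [y1,z1,z1],.contra [z1],.contra [y1,y1,z1,z1,z1],.ref k26 k11 [(z1,[z0,
    z0,z2,z1]),(z1,[y2,z2,z4,z1]),(z1,[z1,z0,y2,y1])],.contra [z1,z2,y1,y1],.ref k47 k11 [(z1,[z0,z0,z2,z1]),(z1,[z1,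
    z2,y1,y1]),(z1,[y1,z0,z1])],.ref k0 k2 [(z2,[z1,z1,y2,y1,z1])],.ref k45 k6 [(z1,[y1,z0,y2,y1,z1]),(z1,[z1,z1,z3,
    z1,y1]),(z1,[z0,y1,y3,y1,z1])],.ref k2 k2 [(z1,[y1,z0,z0,z0,z1])],.contra [y1,z1,z1],.contra [y1,z1,z1],
    .contra [y1,z1,z1],.ref k41 k5 [(z1,[y2,y1,z1,z1,z1]),(z1,[z2,z0,y2,y1]),(z1,[y1,z0,z2,z1])],.contra [y1,z0,z1],
    .contra [z1],.ref k16 k5 [(z1,[y1,y1,y1,z0,z1]),(z1,[z1]),(z1,[y1,z0,z2,z1])],.ref k33 k5 [(z1,[y1,y1,y1,z0,z1]),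
    (z1,[z1]),(z1,[y1,z0,z2,z1])],.ref k0 k0 [(z1,[z1])],.contra [y1,y2,y2,z0,z2],.ref k3 k5 [(z1,[z1]),(z1,[y1,y1,y1,
    z0,z1])],.ref k21 k3 [(z1,[z1]),(z2,[y1,z1,y1,y1,z1]),(z1,[z0,z1,z3,z1,y1])],.ref k0 k2 [(z1,[z1,z1])],
    .ref k26 k11 [(z1,[z0,z0,z2,z1]),(z1,[y2,z0,y2,y1,z2]),(z1,[z1,z1,z1,z0,y1])],.contra [z1],.contra [y1,z0,z1],
    .contra [y1,z1,z1],.contra [y1,z0,z1],.contra [z1]]),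
    .old (.lp [k134,k152,k142,k158,k186,k186] [k42,k42,k30,k36,k38,k38,k30,k30,k0,k32,k16,k16] k0 [[k0,k0,k8,k26,k0,k0,
    k22],[k0,k0,k0,k0,k0,k0,k0,k0,k0,k0,k20,k46],[k0,k26,k0,k0,k38],[k0,k8,k0,k0,k0,k0,k0,k0,k2],[k0,k0,k0,k0,k0,k0,
    k28,k0,k0,k0,k0,k8],[k0,k0,k0,k38,k0,k0,k0,k0,k0,k0,k0,k32],[k0,k0,k0,k0,k0,k0,k0,k0,k18,k68],[k0,k22,k0,k0,k0,
    k28],[k0,k0,k0,k0,k0,k0,k0,k68,k0,k0,k2],[k0,k0,k2,k0,k0,k0,k0,k18,k0,k0,k40],[k46,k0,k0,k0,k32,k8],[k20,k0,k0,k0,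
    k0,k0,k0,k0,k40,k2]] (nat_lit 480) k5
    [[(k3,k120),(k11,k120),(k7,k154),(k4,k170),(k8,k174),(k0,k180)],[(k2,k120),(k9,k122),(k5,k130),(k6,k146),(k1,
    k180),(k10,k180)],[(k1,k120),(k10,k120),(k9,k150),(k2,k160),(k5,k170),(k6,k174)],[(k0,k120),(k7,k120),(k4,k150),
    (k3,k160),(k11,k172),(k8,k190)],[(k0,k130),(k7,k150),(k11,k162),(k3,k170),(k4,k180),(k8,k180)],[(k9,k120),(k2,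
    k150),(k6,k150),(k10,k156),(k1,k170),(k5,k180)],[(k2,k120),(k10,k140),(k5,k150),(k1,k154),(k9,k156),(k6,k186)],
    [(k8,k120),(k0,k146),(k4,k150),(k11,k154),(k3,k174),(k7,k186)],[(k4,k120),(k0,k122),(k3,k150),(k7,k156),(k8,
    (nat_lit 204)),(k11,(nat_lit 238))],[(k6,k120),(k1,k174),(k5,k180),(k2,k190),(k9,(nat_lit 204)),(k10,
    (nat_lit 242))],[(k1,k120),(k6,k154),(k5,k162),(k2,k172),(k10,k188),(k9,(nat_lit 238))],[(k3,k120),(k7,k140),(k4,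
    k156),(k0,k180),(k11,k188),(k8,(nat_lit 242))]]
    [] k0
    [[k2,k0,k0,k0,k0,k0],[k2,k1,k0,k0,k0,k0],[k2,k0,k0,k0,k1,k0],[k1,k1,k0,k0,k0,k0],[k1,k2,k0,k0,k0,k0],[k1,k1,k1,k0,
    k0,k0],[k1,k1,k0,k1,k0,k0],[k1,k1,k0,k0,k1,k0],[k1,k1,k0,k0,k0,k1],[k1,k0,k1,k0,k0,k0],[k1,k0,k1,k1,k0,k0],[k1,k0,
    k1,k0,k1,k0],[k1,k0,k0,k1,k0,k0],[k1,k0,k0,k1,k1,k0],[k1,k0,k0,k0,k1,k0],[k1,k0,k0,k0,k0,k1],[k1,k0,k1,k0,k0,k1],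
    [k1,k0,k0,k1,k0,k1],[k0,k2,k0,k0,k0,k0],[k0,k2,k0,k1,k0,k0],[k0,k2,k0,k0,k0,k1],[k0,k1,k1,k0,k0,k0],[k0,k1,k1,k1,
    k0,k0],[k0,k1,k0,k1,k0,k0],[k0,k1,k0,k0,k1,k0],[k0,k1,k0,k1,k1,k0],[k0,k1,k0,k0,k0,k1],[k0,k1,k1,k0,k0,k1],[k0,k1,
    k0,k1,k0,k1],[k0,k0,k2,k0,k0,k0],[k0,k0,k1,k1,k0,k0],[k0,k0,k1,k1,k1,k0],[k0,k0,k1,k1,k0,k1],[k0,k0,k1,k0,k1,k0],
    [k0,k0,k1,k0,k0,k1],[k0,k0,k0,k2,k0,k0],[k0,k0,k0,k2,k1,k0],[k0,k0,k0,k1,k1,k0],[k0,k0,k0,k1,k0,k1],[k0,k0,k0,k0,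
    k2,k0],[k0,k0,k0,k0,k0,k2]]
    [.contra [z1],.ref k0 k3 [(z2,[z2,y3,y1,z2])],.contra [z2,y3,y1,z2],.contra [y2,z1,z1],.ref k54 k11 [(z2,[z2,y1,
    y1]),(z1,[y1,z1,z1]),(z1,[z2,y1,y2])],.contra [y2,z1,z1],.contra [y2,z1,z1],.ref k33 k3 [(z2,[z2,y1,y1]),(z1,[y1,
    z0,z0,z1]),(z1,[z1,z1,z0,y1])],.ref k1 k3 [(z1,[y1,z0,z0,z1])],.contra [y2,z1,z1],.contra [y2,z1,z1],
    .ref k2 k2 [(z1,[z1])],.contra [y2,z1,z1],.ref k45 k10 [(z1,[y1,y1,z0,z1]),(z2,[z2,z3,z1,y2]),(z2,[z0,y3,y1,z2])],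
    .ref k51 k7 [(z2,[z2,z3,z1,y2]),(z1,[y2,z0,y1,z2]),(z2,[z4,y3,y1,z2])],.contra [y1,z1],.ref k41 k3 [(z2,[y4,z1,y1,
    z2]),(z1,[z2,y1]),(z1,[y1,z1])],.ref k53 k3 [(z2,[y4,z1,y1,z2]),(z1,[z2,y1]),(z1,[y1,z1])],.contra [z1],
    .ref k47 k2 [(z1,[z0,z1]),(z1,[z1]),(z1,[y1,z0,z1])],.ref k1 k3 [(z2,[y1,y1,z0,z2])],.contra [y2,z1,z1],
    .contra [y2,z1,z1],.contra [y2,z1,z1],.ref k0 k3 [(z1,[z1])],.ref k41 k3 [(z2,[z4,z1,y1,y2]),(z1,[y2,y1,z0,z2]),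
    (z1,[z1,z1,z0,y1])],.ref k39 k8 [(z1,[z1,y1]),(z2,[y2,z3,z1]),(z2,[z0,y3,y1,z2])],.ref k45 k10 [(z1,[z1,y1]),(z2,
    [y2,z3,z1]),(z2,[z0,y3,y1,z2])],.ref k2 k2 [(z1,[y1,z0,z0,z1])],.contra [z1],.contra [y2,z1,z1],.ref k1 k3 [(z1,
    [z1])],.ref k33 k3 [(z2,[y2,y1,y1,z2]),(z1,[z1]),(z1,[y1,z1])],.ref k26 k2 [(z1,[z0,z1]),(z1,[y2,y1,z0,z2]),(z2,
    [z2,z1,z1,y2])],.ref k0 k0 [(z1,[z1])],.contra [z1],.ref k21 k2 [(z1,[z0,z1]),(z4,[y2,y1,z1,z2]),(z2,[z2,z1,z1,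
    y2])],.ref k3 k9 [(z2,[z0,y1,y1,z2]),(z2,[z2,z1,z1,y2])],.ref k16 k3 [(z2,[y2,y1,y1,z2]),(z1,[z1]),(z1,[y1,z1])],
    .contra [z1],.contra [y1,y1,y1,z2]]),
    .old (.leafM k10 [k1,k3,k5,k0] [(z1,[y1,y1,y3,z3]),(z1,[z1]),(z1,[z0,z1])] [(k2,k4,z1,[z0,z0,z1]),(k4,k2,z1,[z0,z0,
    z1])]),
    .geo true z3 k4 [(y2,z3),(z0,z3),(z6,y6),(z6,y3),(z0,z3),(z2,z0)] [(z1,[z1]),(z1,[z0,z3]),(z1,[z0,z0,z3]),(z1,[z0,z0,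
    z0,z3]),(z1,[]),(z1,[y1,y3,y3,y3,z3])] (Int.ofNat (nat_lit 699050)) (Int.ofNat (nat_lit 1048576)) (.l k1) [],
    .geo true z3 k5 [(y2,z3),(z6,y3),(z0,z3),(z2,z0),(z6,y6),(z0,z3)] [(z1,[z1]),(z1,[z0,z3]),(z1,[z0,z0,z3]),(z1,[z0,z0,
    z0,z1]),(z1,[y1,y3,y3,y1,z3]),(z1,[])] (Int.ofNat (nat_lit 699050)) (Int.ofNat (nat_lit 1048576)) (.l k1) [],
    .geo true z3 k5 [(y6,z6),(z6,y3),(z0,z3),(z2,z0),(z10,y9),(z0,z3)] [(z1,[z3]),(z1,[z0,z3]),(z1,[z0,z0,z3]),(z1,[z0,z0,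
    z0,z1]),(z1,[y3,y3,y3,y1,z3]),(z1,[])] (Int.ofNat (nat_lit 1048576)) (Int.ofNat (nat_lit 1165085)) (.l k1) []]

noncomputable def cU6_2_n0_5 : List XN :=
  [.geo true z3 k5 [(z4,z6),(z2,y6),(z2,z0),(z2,z3),(z2,y6),(z0,z3)] [(z1,[z1]),(z1,[z0,z1]),(z1,[z0,z0,z1]),(z1,[z0,z0,
    z0,z1]),(z1,[y1,y1,y1,y1,z3]),(z1,[])] z0 (Int.ofNat (nat_lit 349526)) (.s (.l k1) (.l k1)) [],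
    .old (.lp [(nat_lit 370),(nat_lit 338),(nat_lit 336),(nat_lit 370),(nat_lit 332),k172] [k27,k27,k44,k42,k88,k0,k27,
    k27,k57,k35,k126,k126] k0 [[k0,k0,k0,k0,k0,k0,k170,k34,k0,k0,k0,k62],[k0,k0,k190],[k0,k0,k0,k0,k0,k0,k0,k0,k62,
    k82],[k190,k0,k0,k0,k0,k82],[k0,k0,k82,k0,k0,k0,k24],[k0,k0,k0,k0,k0,k0,k0,k0,k0,k0,k116],[k0,k34,k0,k0,k0,k0,k0,
    k0,k62,k136],[k0,k170,k0,k0,k0,k24],[k0,k0,k0,k82,k0,k0,k0,k136,k0,k0,k148],[k0,k0,k0,k62,k0,k0,k0,k62],[k0,k62],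
    [k0,k0,k0,k0,k116,k0,k0,k0,k0,k148]] (nat_lit 960) k6
    [[(k8,k192),(k7,(nat_lit 254)),(k11,(nat_lit 271)),(k4,(nat_lit 309)),(k0,(nat_lit 370)),(k3,(nat_lit 417))],[(k9,
    k192),(k10,(nat_lit 209)),(k6,(nat_lit 336)),(k1,(nat_lit 370)),(k5,(nat_lit 397)),(k2,(nat_lit 543))],[(k5,k192),
    (k10,(nat_lit 256)),(k2,(nat_lit 338)),(k9,(nat_lit 381)),(k1,(nat_lit 417)),(k6,(nat_lit 525))],[(k11,k192),(k8,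
    (nat_lit 241)),(k4,(nat_lit 292)),(k3,(nat_lit 338)),(k7,(nat_lit 435)),(k0,(nat_lit 543))],[(k3,k192),(k4,
    (nat_lit 254)),(k11,(nat_lit 380)),(k0,(nat_lit 397)),(k7,(nat_lit 397)),(k8,(nat_lit 429))],[(k5,(nat_lit 254)),
    (k9,(nat_lit 277)),(k2,(nat_lit 292)),(k1,(nat_lit 309)),(k6,(nat_lit 309)),(k10,(nat_lit 326))],[(k1,
    (nat_lit 254)),(k10,(nat_lit 271)),(k9,(nat_lit 362)),(k6,(nat_lit 394)),(k5,(nat_lit 397)),(k2,(nat_lit 435))],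
    [(k8,(nat_lit 204)),(k11,(nat_lit 209)),(k4,(nat_lit 309)),(k0,(nat_lit 336)),(k7,(nat_lit 394)),(k3,
    (nat_lit 525))],[(k0,k192),(k4,(nat_lit 277)),(k7,(nat_lit 362)),(k3,(nat_lit 381)),(k8,(nat_lit 394)),(k11,
    (nat_lit 399))],[(k1,k192),(k6,(nat_lit 204)),(k2,(nat_lit 241)),(k10,(nat_lit 241)),(k9,(nat_lit 394)),(k5,
    (nat_lit 429))],[(k2,k192),(k6,(nat_lit 209)),(k1,(nat_lit 271)),(k10,(nat_lit 320)),(k5,(nat_lit 380)),(k9,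
    (nat_lit 399))],[(k0,(nat_lit 209)),(k8,(nat_lit 241)),(k3,(nat_lit 256)),(k7,(nat_lit 271)),(k11,(nat_lit 320)),
    (k4,(nat_lit 326))]]
    [] k0
    [[k2,k0,k0,k0,k0,k0],[k2,k0,k0,k0,k1,k0],[k2,k0,k0,k0,k0,k1],[k1,k1,k0,k0,k1,k0],[k1,k1,k0,k0,k0,k1],[k1,k0,k1,k0,
    k0,k0],[k1,k1,k1,k0,k1,k0],[k1,k1,k1,k0,k0,k1],[k1,k0,k1,k0,k1,k0],[k1,k0,k1,k0,k0,k1],[k1,k0,k0,k1,k0,k0],[k1,k0,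
    k0,k1,k1,k0],[k1,k0,k0,k1,k0,k1],[k1,k0,k0,k1,k1,k1],[k1,k0,k0,k0,k1,k0],[k2,k0,k0,k0,k2,k0],[k2,k0,k0,k0,k1,k1],
    [k1,k0,k0,k1,k2,k0],[k1,k0,k0,k0,k2,k0],[k1,k0,k0,k0,k1,k1],[k1,k0,k0,k0,k0,k1],[k1,k1,k0,k0,k0,k2],[k1,k0,k0,k0,
    k0,k2],[k0,k2,k0,k0,k0,k0],[k0,k2,k1,k0,k0,k0],[k0,k2,k0,k0,k0,k1],[k0,k1,k1,k0,k0,k0],[k0,k2,k1,k0,k0,k1],[k0,k1,
    k2,k0,k0,k0],[k0,k1,k1,k1,k0,k0],[k0,k1,k1,k0,k1,k0],[k0,k1,k1,k0,k1,k1],[k0,k1,k1,k0,k0,k1],[k0,k1,k0,k0,k1,k0],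
    [k0,k1,k0,k0,k1,k1],[k0,k1,k0,k0,k0,k1],[k0,k2,k0,k0,k0,k2],[k0,k1,k0,k1,k0,k1],[k0,k1,k0,k1,k0,k2],[k0,k1,k0,k0,
    k0,k2],[k0,k0,k2,k0,k0,k0],[k0,k0,k3,k0,k0,k0],[k0,k0,k1,k1,k0,k0],[k0,k0,k1,k1,k1,k0],[k0,k0,k1,k1,k0,k1],[k0,k0,
    k1,k0,k1,k0],[k0,k0,k1,k0,k0,k1],[k0,k0,k1,k0,k1,k1],[k0,k0,k0,k2,k0,k0],[k0,k0,k0,k2,k0,k1],[k0,k0,k0,k1,k1,k0],
    [k0,k0,k0,k1,k1,k1],[k0,k0,k0,k1,k0,k1],[k0,k0,k0,k1,k0,k2],[k0,k0,k0,k0,k2,k0],[k0,k0,k0,k0,k1,k1],[k0,k0,k0,k0,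
    k0,k2]]
    [.contra [z1],.ref k58 k1 [(z1,[y3,z6,z0,z1]),(z1,[z0,z0,z1]),(z1,[z0,z1]),(z1,[z0,y3,y3,y1,z3])],
    .ref k55 k6 [(z2,[z1,y3,y3,y1,z3]),(z2,[y1,y1,y1,z1,z1])],.contra [z1,y1,y1],.contra [y1,y2,y2,y1,z3],.contra [y3,
    z4,z1,z1],.contra [z1,y1,y1],.contra [z3,z1,z1,z1,y3],.contra [z1,y3,y2,y1,z2],.contra [y1,z0,y1,z0,z1],
    .contra [z1,z1],.ref k58 k1 [(z1,[y3,z3,z0,z1]),(z1,[z0,z0,z1]),(z1,[z0,z1]),(z1,[z0,y3,y3,y1,z3])],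
    .ref k55 k6 [(z2,[z1,y2,y3,y1,z3]),(z2,[y1,y2,y1,z1,z1])],.ref k3 k11 [(z1,[y1,z0,z0,z0,z1]),(z1,[z1,z1,z1,z0,
    y1])],.contra [y3,z4,z1,z1],.ref k6 k3 [(z2,[z1]),(z1,[z0,y3,y3,y1,z3]),(z1,[z0,z0,z1])],.ref k3 k11 [(z1,[y1,z1,
    z0,z0,z1]),(z1,[z1,z0,z1,z0,y1])],.ref k6 k3 [(z2,[z1,z1]),(z1,[z0,y3,y3,y1,z3]),(z1,[z0,z0,z1])],
    .ref k60 k11 [(z1,[z3,y3,z3,y2]),(z1,[y3,z6,z0,z2]),(z1,[z0,y3,y3,y1,z3]),(z1,[z3,y3,z0,y1])],.contra [y1,z0,y1,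
    z0,z1],.contra [y1,z0,y1,z0,z1],.contra [y1,y5,y5,y2,z6],.ref k55 k6 [(z1,[z1]),(z1,[y1,y2,y2,z0,z2])],
    .contra [y1,z2,z2],.ref k59 k1 [(z1,[z1,z0,y2]),(z1,[z0,z0,z1]),(z1,[z0,z1]),(z1,[z0,y3,y3,y1,z3])],.contra [z1,
    z1,y1,z1,y1],.ref k3 k11 [(z1,[z1]),(z1,[y1,z1,z1])],.contra [z1,z1,y1,z1,y1],.ref k55 k10 [(z1,[z1]),(z1,[y1,y2,
    y2,z0,z2])],.contra [z1,z0,y1],.ref k55 k6 [(z2,[y1,y2,y3,y1,z4]),(z2,[z1,y2,y1,z1])],.contra [y1,z1,z0,z0,z1],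
    .ref k58 k1 [(z1,[z3,z3,z0,z1,y3]),(z1,[z0,z0,z1]),(z1,[z0,z1]),(z1,[z0,y3,y3,y1,z3])],.ref k0 k3 [(z1,[z1])],
    .ref k57 k9 [(z1,[z3,z0,z0,z1,y3]),(z1,[z0,y1]),(z1,[y1,z1,z0,z0,z1]),(z1,[z0,z1,z1])],.ref k55 k6 [(z1,[y1,y2,y2,
    y1,z3]),(z1,[z1,z0,z0,z1,y1])],.contra [z1,z2,z1,z1,y2],.contra [y1,y3,y2,y1,z3],.contra [y1,y6,y5,y2,z6],
    .contra [z1,z2,z1,z1,y2],.contra [z1],.ref k56 k0 [(z1,[z0,y3,y3,y1,z3]),(z1,[y1,z3,z0,z1]),(z1,[z0,z0,z1])],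
    .contra [y3,z1,z1,z1],.contra [z1,y2,y2,y1,z2],.contra [y1,y1,y1,z0,z1],.contra [y3,z4,z1,z1],.contra [y1,z0,y1,
    z0,z1],.contra [y1,z0,y1,z0,z1],.contra [z1,z2],.ref k55 k6 [(z2,[z1,y1,y3,y1,z3]),(z2,[y1,y3,y1,z1,z1])],
    .contra [y3,z1,z1,z1],.contra [y1,y1,y1,z0,z1],.contra [y1,y1,y1,z0,z1],.ref k55 k6 [(z1,[z1,z1]),(z1,[y1,y3,y2,
    z0,z2])],.contra [z1],.contra [y1,z0,y1,z0,z1],.contra [z1]]),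
    .geo true z1 k5 [(y2,z4),(z4,y4),(z2,y3),(y2,z4),(z2,y2),(z0,z1)] [(z1,[z1]),(z1,[z0,z1]),(z1,[z0,z0,z1]),(z1,[z0,z0,
    z0,z1]),(z1,[y1,y1,y1,y1,z1]),(z1,
    [])] (Int.ofNat (nat_lit 524288)) (Int.ofNat (nat_lit 699051)) (.s (.s (.l k1) (.l k1)) (.s (.l k1) (.l k1))) [],
    .geo true z1 k5 [(y1,z2),(z3,y2),(z1,y1),(y1,z2),(z2,y2),(z0,z1)] [(z1,[z1]),(z1,[z0,z1]),(z1,[z0,z0,z1]),(z1,[z0,z0,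
    z0,z1]),(z1,[y1,y1,y1,y1,z1]),(z1,
    [])] (Int.ofNat (nat_lit 524288)) (Int.ofNat (nat_lit 1048576)) (.s (.s (.l k1) (.l k1)) (.s (.l k1) (.l k1))) [],
    .geo true z1 k5 [(y2,z3),(z4,y3),(z2,y2),(y2,z3),(z2,y2),(z0,z1)] [(z1,[z1]),(z1,[z0,z1]),(z1,[z0,z0,z1]),(z1,[z0,z0,
    z0,z1]),(z1,[y1,y1,y1,y1,z1]),(z1,
    [])] (Int.ofNat (nat_lit 699050)) (Int.ofNat (nat_lit 1048576)) (.s (.s (.l k1) (.l k1)) (.s (.l k1) (.l k1))) [],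
    .geo true z1 k5 [(y2,z4),(z2,y2),(z0,z1),(z2,y1),(z2,y3),(z0,z1)] [(z1,[z1]),(z1,[z0,z1]),(z1,[z0,z0,z1]),(z1,[z0,z0,
    z0,z1]),(z1,[y1,y1,y1,y1,z1]),(z1,
    [])] (Int.ofNat (nat_lit 524288)) (Int.ofNat (nat_lit 699051)) (.s (.l k1) (.l k1)) [],
    .geo true z1 k5 [(z0,z3),(z2,y3),(z2,y2),(y2,z4),(z2,y3),(z0,z1)] [(z1,[z1]),(z1,[z0,z1]),(z1,[z0,z0,z1]),(z1,[z0,z0,
    z0,z1]),(z1,[y1,y1,y1,y1,z1]),(z1,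
    [])] (Int.ofNat (nat_lit 524288)) (Int.ofNat (nat_lit 699051)) (.s (.l k1) (.l k1)) [],
    .old (.lp [k99,k185,k162,k110,k185,(nat_lit 218)] [k89,k72,k11,k64,k72,k26,k75,k75,k0,k75,k27,k15] k0 [[k0,k0,k0,k52],
    [k0,k0,k0,k0,k0,k0,k0,k0,k0,k0,k0,k61],[k0,k52,k0,k0,k0,k81],[k0,k0,k0,k0,k0,k0,k0,k0,k0,k138],[k0,k0,k0,k81,k0,
    k0,k17,k0,k0,k0,k0,k62],[k0,k0,k0,k0,k0,k0,k0,k0,k0,k0,k0,k62],[],[k0,k0,k0,k0,k0,k17],[k0,k0,k138,k0,k0,k0,k0,k0,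
    k0,k0,k22],[k0,k0,k0,k0,k0,k0,k0,k0,k0,k0,k77],[k61,k0,k0,k0,k62,k62],[k0,k0,k0,k0,k0,k0,k0,k0,k77,
    k22]] (nat_lit 480) k6
    [[(k11,k96),(k3,k124),(k0,k160),(k8,k166),(k7,k175),(k4,k178)],[(k6,k96),(k9,k96),(k2,k108),(k10,k144),(k5,k145),
    (k1,k160)],[(k10,k108),(k6,k121),(k9,k121),(k1,k124),(k2,k185),(k5,(nat_lit 222))],[(k4,k96),(k0,k108),(k7,k174),
    (k3,k185),(k8,(nat_lit 249)),(k11,(nat_lit 372))],[(k8,k96),(k0,k145),(k4,k162),(k11,(nat_lit 219)),(k3,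
    (nat_lit 222)),(k7,(nat_lit 240))],[(k2,k96),(k9,k96),(k10,k99),(k6,k113),(k5,k162),(k1,k178)],[(k10,k96),(k9,
    k110),(k6,k127),(k2,k174),(k1,k175),(k5,(nat_lit 240))],[(k0,k96),(k4,k113),(k3,k121),(k7,k127),(k11,k170),(k8,
    k185)],[(k0,k96),(k4,k96),(k7,k110),(k3,k121),(k11,k170),(k8,k185)],[(k5,k96),(k1,k166),(k6,k185),(k9,k185),(k2,
    (nat_lit 249)),(k10,(nat_lit 310))],[(k1,k96),(k6,k170),(k9,k170),(k5,(nat_lit 219)),(k10,(nat_lit 240)),(k2,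
    (nat_lit 372))],[(k7,k96),(k4,k99),(k3,k108),(k0,k144),(k11,(nat_lit 240)),(k8,(nat_lit 310))]]
    [] k0
    [[k2,k0,k0,k0,k0,k0],[k2,k1,k0,k0,k0,k0],[k2,k0,k0,k1,k0,k0],[k2,k0,k0,k0,k1,k0],[k2,k0,k0,k0,k0,k1],[k2,k1,k0,k0,
    k0,k1],[k2,k0,k0,k1,k0,k1],[k1,k1,k0,k0,k0,k0],[k2,k2,k0,k0,k0,k0],[k1,k2,k0,k0,k0,k0],[k1,k1,k1,k0,k0,k0],[k1,k1,
    k1,k0,k1,k0],[k1,k1,k0,k1,k0,k0],[k1,k1,k0,k0,k1,k0],[k1,k0,k1,k0,k0,k0],[k1,k0,k1,k0,k1,k0],[k1,k0,k0,k1,k0,k0],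
    [k1,k0,k1,k1,k0,k0],[k1,k0,k0,k2,k0,k0],[k1,k0,k0,k1,k1,k0],[k1,k0,k0,k0,k1,k0],[k1,k0,k1,k0,k2,k0],[k1,k0,k0,k0,
    k2,k0],[k1,k0,k0,k0,k0,k1],[k1,k1,k0,k0,k0,k1],[k1,k1,k1,k0,k0,k1],[k1,k1,k0,k1,k0,k1],[k1,k0,k1,k0,k0,k1],[k1,k0,
    k1,k0,k1,k1],[k1,k0,k0,k1,k0,k1],[k1,k0,k1,k1,k0,k1],[k1,k0,k0,k2,k0,k1],[k1,k0,k0,k1,k1,k1],[k0,k2,k0,k0,k0,k0],
    [k0,k1,k1,k0,k0,k0],[k0,k1,k0,k1,k0,k0],[k0,k1,k1,k1,k0,k0],[k0,k1,k0,k2,k0,k0],[k0,k1,k1,k1,k1,k0],[k0,k1,k0,k0,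
    k1,k0],[k0,k1,k1,k0,k1,k0],[k0,k1,k2,k0,k1,k0],[k0,k1,k1,k0,k0,k1],[k0,k1,k0,k1,k0,k1],[k0,k1,k1,k0,k1,k1],[k0,k0,
    k2,k0,k0,k0],[k0,k0,k2,k0,k1,k0],[k0,k0,k1,k1,k0,k0],[k0,k0,k1,k0,k1,k0],[k0,k0,k2,k0,k2,k0],[k0,k0,k1,k1,k1,k0],
    [k0,k0,k1,k2,k1,k0],[k0,k0,k1,k1,k1,k1],[k0,k0,k1,k0,k2,k0],[k0,k0,k1,k0,k1,k1],[k0,k0,k1,k0,k0,k1],[k0,k0,k1,k1,
    k0,k1],[k0,k0,k0,k2,k0,k0],[k0,k0,k0,k3,k0,k0],[k0,k0,k0,k2,k1,k0],[k0,k0,k0,k2,k0,k1],[k0,k0,k0,k1,k1,k0],[k0,k0,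
    k0,k1,k0,k1],[k0,k0,k0,k1,k1,k1],[k0,k0,k0,k0,k2,k0]]
    [.contra [z1],.contra [y1,z2,z2,z1],.ref k66 k6 [(z1,[y1,y1]),(z1,[z1,z0,y1,y1,z1]),(z1,[z1]),(z1,[y2,z0,z0,z1])],
    .contra [y1,z1,z0,z0,z1],.ref k55 k2 [(z1,[z1]),(z1,[y1,z2,z2,z2])],.contra [z1,z0,y1],.contra [z1,z1],
    .contra [y1,z2,z2,z1],.contra [z1,y2,y2],.contra [y1,z2,z2,z1],.contra [y1,z2,z2,z1],.contra [y1,z1,z0,z0,z1],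
    .contra [z1,y1,y1],.contra [y1,z1,z0,z0,z1],.contra [y1,z2,z2,z1],.contra [y1,z1,z0,z0,z1],.contra [y1,z1,z1,z1],
    .contra [y1,z1,z1,z1],.ref k64 k3 [(z1,[y1,z0,y1,y1,z1]),(z1,[z1,y1]),(z1,[z1]),(z1,[y1,z1,z1])],.contra [z1,z0,
    z1,z1,y1],.contra [y1,z1,z0,z0,z1],.contra [y1,z0,y2,y1,z2],.contra [y1,z0,y2,y1,z2],.ref k3 k6 [(z1,[z1]),(z1,
    [y1,y1,y1,y1,z1])],.contra [z1,z0,y1],.contra [z1,z0,y1],.contra [z1,z1],.ref k65 k10 [(z1,[z2,y2,y4,y1]),(z1,[y1,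
    z1,z2,z1]),(z1,[z0,y1,y2,y1,z1]),(z1,[z0,z0,z1])],.contra [z1,z1,z1,z1,y1],.contra [z1,z1],.contra [y1,z1,z2,z1],
    .contra [z1,z2,z1],.contra [z1,z2,z2,z1,y1],.contra [z1],.contra [y1,z2,z2,z1],.contra [y1,z1,z1,z1],.contra [y1,
    z1,z1,z1],.ref k0 k0 [(z1,[y1,z0,z1,z1])],.ref k3 k6 [(z1,[y1,z0,z0,z0,z1]),(z1,[z1,y1,y1,y1])],.contra [z1,z1,z2,
    z1,y1],.contra [y1,z1,z0,z0,z1],.ref k63 k3 [(z2,[z1,y1,y2,y3,z1]),(z2,[y1,y1,z0,z1,z1]),(z2,[y1,z1,z0,z1,z1]),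
    (z2,[z1,z1,z2,y1,y1])],.contra [y1,z0,z1,z1],.contra [z1,z1],.contra [z1,z1,z1,z1,y1],.contra [z1],
    .ref k62 k3 [(z1,[z1,z0,z0,y2]),(z1,[y1,y1,y1,z1,z1]),(z1,[y1,z0,y1,z1,z1]),(z1,[z1,z1,z2,y1,y1])],.contra [y1,z1,
    z1,z1],.contra [y1,z1,z0,z0,z1],.ref k63 k3 [(z2,[z1,z0,z0,y2]),(z2,[y1,y2,y2,z0,z2]),(z2,[y1,z0,y2,z0,z2]),(z2,
    [z1,z2,z4,z0,y2])],.contra [y1,z0,y1,z0,z1],.contra [z1,z1,z2,z0,y1],.contra [z1,z2,z2,z1,y1],.contra [y1,z0,y2,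
    y1,z2],.contra [y1,y1,y1,z0,z1],.ref k0 k0 [(z1,[z1])],.contra [z1,z1],.contra [z1],.ref k61 k3 [(z1,[z0,y1,y2,y1,
    z1]),(z1,[z0,z0,z1]),(z1,[y1,z3,z3,z3])],.ref k0 k0 [(z1,[y1,y1,y1,z0,z1])],.contra [z1,z2,z1],.contra [y1,z0,y1,
    z0,z1],.contra [z1,z1],.contra [z1,z2,z2,z1,y1],.contra [z1,z2,z4,z2,y2]]),
    .old (.tor k27 true k5 [(z1,[z0,z1,z1]),(z1,[z0,z0,y1,z1]),(z1,[y1,y1,z0,z1]),(z1,[z1])]),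
    .geo true z3 k5 [(y2,z3),(z6,y3),(z0,z3),(z6,y6),(z2,z0),(z0,z3)] [(z1,[z1]),(z1,[z0,z3]),(z1,[z0,z0,z3]),(z1,[z0,z0,
    z0,z3]),(z1,[y1,y3,y3,y3,z3]),(z1,
    [])] (Int.ofNat (nat_lit 699050)) (Int.ofNat (nat_lit 1048576)) (.s (.s (.l k1) (.l k1)) (.s (.l k1) (.l k1))) [],
    .geo true z1 k5 [(y2,z4),(z2,y1),(z0,z1),(z2,y2),(z2,y3),(z0,z1)] [(z1,[z1]),(z1,[z0,z1]),(z1,[z0,z0,z1]),(z1,[z0,z0,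
    z0,z1]),(z1,[y1,y1,y1,y1,z1]),(z1,
    [])] (Int.ofNat (nat_lit 524288)) (Int.ofNat (nat_lit 699051)) (.s (.l k1) (.l k1)) [],
    .geo true z1 k5 [(z0,z2),(z2,y2),(y2,z4),(z2,y3),(z2,y2),(z0,z1)] [(z1,[z1]),(z1,[z0,z1]),(z1,[z0,z0,z1]),(z1,[z0,z0,
    z0,z1]),(z1,[y1,y1,y1,y1,z1]),(z1,[])] (Int.ofNat (nat_lit 524288)) (Int.ofNat (nat_lit 699051)) (.l k1) []]

noncomputable def cU6_2_n0_6 : List XN :=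
  [.geo true z3 k5 [(y2,z3),(z6,y6),(z0,z3),(z6,y3),(z2,z0),(z0,z3)] [(z1,[z1]),(z1,[z0,z3]),(z1,[z0,z0,z3]),(z1,[z0,z0,
    z0,z3]),(z1,[y1,y3,y3,y3,z3]),(z1,[])] (Int.ofNat (nat_lit 699050)) (Int.ofNat (nat_lit 1048576)) (.l k1) [],
    .geo true z2 k5 [(y1,z2),(z4,y4),(z0,z2),(z4,y2),(z1,z0),(z0,z2)] [(z1,[z1]),(z1,[z0,z2]),(z1,[z0,z0,z2]),(z1,[z0,z0,
    z0,z2]),(z1,[y1,y2,y2,y2,z2]),(z1,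
    [])] (Int.ofNat (nat_lit 524288)) (Int.ofNat (nat_lit 1048576)) (.s (.l k1) (.l k1)) [],
    .geo true z5 k5 [(z2,z0),(z4,z0),(z6,z0),(z4,y5),(z4,z0),(z0,z5)] [(z1,[z1]),(z1,[z0,z1]),(z1,[z0,z0,z1]),(z1,[z0,z0,
    z0,z1]),(z1,[y1,y1,y1,y1,z5]),(z1,[])] z0 (Int.ofNat (nat_lit 838861)) (.s (.l k1) (.l k1)) [],
    .geo true z1 k5 [(y2,z4),(z2,y2),(z0,z2),(z2,y3),(z2,y2),(z0,z1)] [(z1,[z1]),(z1,[z0,z1]),(z1,[z0,z0,z1]),(z1,[z0,z0,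
    z0,z1]),(z1,[y1,y1,y1,y1,z1]),(z1,
    [])] (Int.ofNat (nat_lit 524288)) (Int.ofNat (nat_lit 699051)) (.s (.s (.l k1) (.l k1)) (.l k1)) [],
    .old (.lp [(nat_lit 376),(nat_lit 350),(nat_lit 234),(nat_lit 448),(nat_lit 269),(nat_lit 242)] [k18,k54,k49,k49,k107,
    k107,k0,k0,k103,k76,k103,k103] k0 [[k0,k0,k0,k0,k0,k0,k162,k117,k0,k0,k0,k135],[k0,k0,k99,k131,k0,k0,k0,k0,k0,k0,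
    k0,k104],[k131,k0,k0,k0,k0,k0,k0,k0,k1,k16],[k99,k0,k0,k0,k37],[k0,k0,k0,k0,k0,k0,k0,k17,k0,k0,k15],[k0,k0,k37,k0,
    k0,k0,k0,(nat_lit 222)],[k0,k117,k0,k0,(nat_lit 222),k17],[k0,k162,k0,k0,k0,k0,k0,k0,k0,k29],[k0,k0,k0,k16,k0,k0,
    k29],[k0,k0,k0,k1],[k104,k135],[k0,k0,k0,k0,k0,k15]] (nat_lit 960) k6
    [[(k4,(nat_lit 272)),(k8,(nat_lit 291)),(k11,(nat_lit 291)),(k7,(nat_lit 394)),(k0,(nat_lit 480)),(k3,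
    (nat_lit 480))],[(k9,k192),(k10,k192),(k6,(nat_lit 313)),(k5,(nat_lit 454)),(k1,(nat_lit 480)),(k2,
    (nat_lit 480))],[(k10,k192),(k5,k193),(k2,(nat_lit 219)),(k9,(nat_lit 440)),(k1,(nat_lit 480)),(k6,
    (nat_lit 561))],[(k3,(nat_lit 219)),(k8,(nat_lit 280)),(k11,(nat_lit 295)),(k4,(nat_lit 329)),(k7,(nat_lit 399)),
    (k0,(nat_lit 480))],[(k3,k193),(k4,(nat_lit 234)),(k8,(nat_lit 239)),(k11,(nat_lit 254)),(k7,(nat_lit 304)),(k0,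
    (nat_lit 454))],[(k5,(nat_lit 234)),(k10,(nat_lit 238)),(k1,(nat_lit 272)),(k6,(nat_lit 324)),(k2,(nat_lit 329)),
    (k9,(nat_lit 487))],[(k6,(nat_lit 226)),(k5,(nat_lit 304)),(k10,(nat_lit 360)),(k9,(nat_lit 389)),(k1,
    (nat_lit 394)),(k2,(nat_lit 399))],[(k7,(nat_lit 226)),(k0,(nat_lit 313)),(k4,(nat_lit 324)),(k8,(nat_lit 345)),
    (k11,(nat_lit 374)),(k3,(nat_lit 561))],[(k0,k192),(k8,(nat_lit 240)),(k11,(nat_lit 269)),(k7,(nat_lit 389)),(k3,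
    (nat_lit 440)),(k4,(nat_lit 487))],[(k5,(nat_lit 239)),(k9,(nat_lit 240)),(k10,(nat_lit 242)),(k2,(nat_lit 280)),
    (k1,(nat_lit 291)),(k6,(nat_lit 345))],[(k10,(nat_lit 242)),(k5,(nat_lit 254)),(k9,(nat_lit 269)),(k1,
    (nat_lit 291)),(k2,(nat_lit 295)),(k6,(nat_lit 374))],[(k0,k192),(k3,k192),(k4,(nat_lit 238)),(k8,(nat_lit 242)),
    (k11,(nat_lit 242)),(k7,(nat_lit 360))]]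
    [] k0
    [[k1,k1,k0,k0,k1,k0],[k1,k0,k1,k0,k0,k0],[k1,k1,k1,k0,k0,k0],[k1,k1,k1,k0,k1,k0],[k1,k1,k1,k0,k0,k1],[k1,k0,k2,k0,
    k1,k0],[k1,k0,k2,k0,k0,k1],[k1,k0,k1,k1,k0,k0],[k1,k0,k1,k0,k1,k0],[k1,k0,k1,k0,k2,k0],[k1,k0,k1,k0,k0,k1],[k1,k0,
    k0,k1,k0,k0],[k1,k0,k0,k2,k0,k0],[k1,k0,k0,k1,k1,k0],[k1,k0,k0,k0,k1,k0],[k1,k0,k0,k0,k2,k0],[k1,k0,k0,k0,k1,k1],
    [k1,k0,k0,k0,k0,k1],[k1,k1,k0,k0,k1,k1],[k1,k0,k0,k0,k0,k2],[k0,k2,k0,k0,k0,k0],[k0,k3,k0,k0,k0,k0],[k0,k4,k0,k0,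
    k0,k0],[k0,k3,k0,k0,k0,k1],[k0,k2,k1,k0,k0,k0],[k0,k2,k1,k0,k0,k1],[k0,k2,k0,k0,k1,k0],[k0,k2,k0,k0,k0,k1],[k0,k2,
    k0,k0,k0,k2],[k0,k1,k1,k0,k0,k0],[k0,k1,k2,k0,k0,k0],[k0,k1,k1,k1,k0,k0],[k0,k1,k1,k0,k0,k1],[k0,k1,k0,k0,k1,k0],
    [k0,k1,k0,k0,k0,k1],[k0,k1,k0,k0,k1,k1],[k0,k1,k0,k0,k0,k2],[k0,k0,k2,k0,k0,k0],[k0,k0,k3,k0,k0,k0],[k0,k0,k4,k0,
    k0,k0],[k0,k0,k2,k1,k0,k0],[k0,k0,k2,k0,k0,k1],[k0,k0,k1,k1,k0,k0],[k0,k0,k1,k2,k0,k0],[k0,k0,k1,k1,k0,k1],[k0,k0,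
    k1,k0,k1,k0],[k0,k0,k1,k1,k1,k0],[k0,k0,k1,k0,k1,k1],[k0,k0,k1,k0,k0,k1],[k0,k0,k1,k0,k0,k2],[k0,k0,k0,k2,k0,k0],
    [k0,k0,k0,k3,k0,k0],[k0,k0,k0,k4,k0,k0],[k0,k0,k0,k1,k1,k0],[k0,k0,k0,k1,k0,k1],[k0,k0,k0,k0,k2,k0],[k0,k0,k0,k0,
    k3,k0],[k0,k0,k0,k0,k2,k1],[k0,k0,k0,k0,k1,k1],[k0,k0,k0,k0,k1,k2],[k0,k0,k0,k0,k0,k2],[k0,k0,k0,k0,k0,k3]]
    [.contra [z2,y1,y1],.contra [y2,z1,z0,z1],.contra [z2,y1,y1],.contra [z2,z0,y1,y1],.contra [z2,y1,y1],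
    .ref k27 k2 [(z2,[z0,z0,y1,y1,z2]),(z2,[y2,z1,z1,z2])],.ref k55 k10 [(z2,[z2,y1,z1]),(z2,[y2,y1,y3,z0,z4])],
    .ref k27 k2 [(z2,[z0,z0,y1,y1,z2]),(z1,[y1,z0,z0,z0,z1])],.contra [z2,z1,z0,y1],.ref k68 k1 [(z2,[z2,y2,y1,y1,
    z2]),(z1,[y1,z1,z1,z1,y1]),(z2,[z2,y1,y1,y2,z2])],.contra [y2,z1,z0,z1],.contra [z2,z2,z1,z1,y2],.ref k55 k6 [(z1,
    [y1,z0,y1,y1,z2]),(z1,[z1,y1,z0,z1])],.ref k68 k1 [(z2,[z2,y1,z0,z1]),(z2,[y2,z1,z1]),(z1,[z1])],.contra [y2,z1,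
    z0,z1],.ref k75 k0 [(z1,[y2,z1]),(z1,[z1]),(z2,[y2,z1,z1]),(z2,[z2,y1,z0,z1])],.contra [y2,z1,z0,z1],.contra [y1,
    z1],.contra [z2,y1,y1],.ref k55 k6 [(z1,[z1]),(z1,[y1,y1,y1,z0,z2])],.contra [y1,z1,z1],.contra [z1,z0,y1],
    .contra [z1,z0,y1],.contra [z2,z1,y3],.contra [z1,z0,y1],.contra [z1,z0,y1],.contra [z1,z0,y1],.contra [y1,z2,z1],
    .contra [y1,z3,z1],.contra [y2,z0,z1,z1],.ref k55 k10 [(z1,[z1]),(z1,[y1,y1,y1,z0,z2])],.contra [z2,z1,z0,z1,y2],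
    .ref k68 k1 [(z2,[y2,y1,z0,z1,z2]),(z2,[z2,z1,z1,z0,y2]),(z1,[y1,z0,z0,z0,z1])],.contra [y2,z0,z1,z1],
    .ref k55 k6 [(z2,[z2,z1,y1]),(z2,[y2,y3,y1,z0,z4])],.ref k27 k2 [(z2,[z0,z0,y1,y1,z2]),(z1,[z1])],
    .ref k74 k0 [(z1,[z2,z0,y1]),(z2,[y2,z5,z1]),(z1,[z1,z0,z2]),(z2,[y2,z0,z1,z5])],.contra [z1],.ref k72 k3 [(z2,
    [y2,z3,z3,z6,y6]),(z1,[z0,y1,y1,y1,z2]),(z2,[z0,z2,z1,z1,y2]),(z2,[z0,y1,z0,y1,z2])],.ref k73 k3 [(z2,[y1,z2,z2,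
    z4,y4]),(z1,[z0,y1,y1,y1,z2]),(z2,[z0,z2,z1,z1,y2]),(z2,[z0,y1,z0,y1,z2])],.ref k71 k11 [(z2,[y2,y1,z0,y1,z2]),
    (z2,[z2,z2,z1,z1,y2]),(z1,[y2,y1,y1,y1,z2]),(z2,[z2,z1,z1,z2,y2])],.contra [y1,z0,z0,z1],.contra [y2,y1,y1,z0,z2],
    .ref k27 k2 [(z2,[z0,z0,y1,y1,z2]),(z2,[y2,y2,y1,y1,z4])],.contra [y2,y1,y1,z0,z2],.contra [y2,z0,z1,z1],
    .contra [z2,z3,z1,z0,y2],.contra [y2,z1,z0,z1],.contra [y2,z1,z0,z1],.ref k70 k1 [(z1,[z1,z2,z2,z2,y4]),(z2,[z0,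
    y1,z0,y1,z2]),(z2,[z0,z2,z1,z1,y2]),(z1,[z0,y1,y1,y1,z2])],.contra [z1,z2,z1,z1,y2],.ref k55 k6 [(z2,[y2,y2,y3,y3,
    z6]),(z2,[z2,z0,z1,z3,y2])],.contra [y1,y2,y2,y2,z4],.contra [y2,y1,y1,z0,z2],.contra [y2,z0,y1,y1,z2],
    .contra [z1],.ref k69 k1 [(z2,[y2,z3,z3,z6,y6]),(z2,[z0,y1,z0,y1,z2]),(z2,[z0,z2,z1,z1,y2]),(z1,[z0,y1,y1,y1,
    z2])],.contra [y1,z0,z0,z1],.contra [y2,z1,z0,z1],.ref k67 k10 [(z2,[y2,z0,y1,z1]),(z2,[z0,y1,z0,y1,z2]),(z1,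
    [z1])],.contra [z1],.ref k55 k6 [(z2,[z1,z1]),(z2,[y1,y3,y2,z0,z4])]]),
    .geo true z2 k4 [(y1,z2),(z0,z2),(z4,y4),(z4,y2),(z0,z2),(z1,z0)] [(z1,[z1]),(z1,[z0,z2]),(z1,[z0,z0,z2]),(z1,[z0,z0,
    z0,z2]),(z1,[]),(z1,[y1,y2,y2,y2,
    z2])] (Int.ofNat (nat_lit 524288)) (Int.ofNat (nat_lit 1048576)) (.s (.l k1) (.l k1)) [],
    .geo true z1 k5 [(y2,z4),(z2,y3),(z0,z1),(z2,y1),(z2,y2),(z0,z1)] [(z1,[z1]),(z1,[z0,z1]),(z1,[z0,z0,z1]),(z1,[z0,z0,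
    z0,z1]),(z1,[y1,y1,y1,y1,z1]),(z1,[])] (Int.ofNat (nat_lit 524288)) (Int.ofNat (nat_lit 699051)) (.l k1) [],
    .geo true z1 k5 [(y2,z2),(z2,y1),(z3,y2),(y1,z1),(z2,y1),(z0,z1)] [(z1,[z1]),(z1,[z0,z1]),(z1,[z0,z0,z1]),(z1,[z0,z0,
    z0,z1]),(z1,[y1,y1,y1,y1,z1]),(z1,
    [])] (Int.ofNat (nat_lit 1048576)) (Int.ofNat (nat_lit 1572864)) (.s (.s (.s (.l k2) (.l k1)) (.l k1)) (.l k1)) [⟨z1,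
    z1,[[k0,k3],[k1,k4],[k2,k5]],.bnd k0⟩],
    .geo true z1 k5 [(y2,z3),(z2,y2),(z0,z1),(z2,y2),(z2,y1),(z0,z1)] [(z1,[z1]),(z1,[z0,z1]),(z1,[z0,z0,z1]),(z1,[z0,z0,
    z0,z1]),(z1,[y1,y1,y1,y1,z1]),(z1,
    [])] (Int.ofNat (nat_lit 699050)) (Int.ofNat (nat_lit 1048576)) (.s (.l k1) (.l k1)) [],
    .geo true z1 k5 [(y2,z4),(z2,y3),(z0,z1),(z2,y2),(z2,y1),(z0,z1)] [(z1,[z1]),(z1,[z0,z1]),(z1,[z0,z0,z1]),(z1,[z0,z0,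
    z0,z1]),(z1,[y1,y1,y1,y1,z1]),(z1,[])] (Int.ofNat (nat_lit 524288)) (Int.ofNat (nat_lit 699051)) (.l k1) [],
    .old (.lp [(nat_lit 706),(nat_lit 714),(nat_lit 480),(nat_lit 716),(nat_lit 662),(nat_lit 560)] [k0,(nat_lit 234),
    k113,k113,(nat_lit 298),k162,k112,k112,(nat_lit 212),k66,(nat_lit 220),k160] k0 [[k0,k0,k0,k0,k0,k0,(nat_lit 490),
    k0,k0,k0,k0,(nat_lit 274)],[k0,k0,(nat_lit 226),(nat_lit 254),k0,k0,k10],[(nat_lit 254),k0,k0,k0,k0,k8,k0,k0,k0,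
    k190],[(nat_lit 226),k0,k0,k0,k0,k0,k0,k0,k0,k182],[k0,k0,k0,k8],[k0,k0,k0,k0,k0,k0,k0,k0,k0,k0,(nat_lit 210)],
    [k0,k0,k0,k0,k0,k0,k0,k0,(nat_lit 284),k174],[k10,(nat_lit 490)],[k0,k0,k182,k190,k0,k0,k0,k174],[k0,k0,k0,k0,k0,
    k0,k0,(nat_lit 284),k0,k0,k0,k96],[k0,(nat_lit 274),k0,k0,k0,k0,k0,k0,k96],[k0,k0,k0,k0,
    (nat_lit 210)]] (nat_lit 1920) k6
    [[(k7,(nat_lit 384)),(k4,(nat_lit 408)),(k11,(nat_lit 546)),(k8,(nat_lit 590)),(k0,(nat_lit 706)),(k3,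
    (nat_lit 867))],[(k9,(nat_lit 384)),(k10,(nat_lit 446)),(k1,(nat_lit 706)),(k6,(nat_lit 838)),(k5,(nat_lit 1032)),
    (k2,(nat_lit 1053))],[(k5,(nat_lit 439)),(k2,(nat_lit 460)),(k10,(nat_lit 607)),(k9,(nat_lit 751)),(k1,
    (nat_lit 867)),(k6,(nat_lit 1205))],[(k8,(nat_lit 425)),(k3,(nat_lit 460)),(k4,(nat_lit 521)),(k7,(nat_lit 715)),
    (k11,(nat_lit 849)),(k0,(nat_lit 1053))],[(k8,(nat_lit 384)),(k3,(nat_lit 439)),(k4,(nat_lit 480)),(k7,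
    (nat_lit 674)),(k11,(nat_lit 808)),(k0,(nat_lit 1032))],[(k1,(nat_lit 408)),(k5,(nat_lit 480)),(k2,(nat_lit 521)),
    (k6,(nat_lit 530)),(k9,(nat_lit 576)),(k10,(nat_lit 632))],[(k1,(nat_lit 384)),(k10,(nat_lit 608)),(k5,
    (nat_lit 674)),(k2,(nat_lit 715)),(k6,(nat_lit 716)),(k9,(nat_lit 762))],[(k11,(nat_lit 384)),(k8,(nat_lit 442)),
    (k4,(nat_lit 530)),(k7,(nat_lit 716)),(k0,(nat_lit 838)),(k3,(nat_lit 1205))],[(k0,(nat_lit 384)),(k4,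
    (nat_lit 576)),(k3,(nat_lit 751)),(k7,(nat_lit 762)),(k11,(nat_lit 888)),(k8,(nat_lit 946))],[(k5,(nat_lit 384)),
    (k2,(nat_lit 425)),(k6,(nat_lit 442)),(k10,(nat_lit 508)),(k1,(nat_lit 590)),(k9,(nat_lit 946))],[(k6,
    (nat_lit 384)),(k10,(nat_lit 464)),(k1,(nat_lit 546)),(k5,(nat_lit 808)),(k2,(nat_lit 849)),(k9,(nat_lit 888))],
    [(k0,(nat_lit 446)),(k11,(nat_lit 464)),(k8,(nat_lit 508)),(k3,(nat_lit 607)),(k7,(nat_lit 608)),(k4,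
    (nat_lit 632))]]
    [] k0
    [[k2,k0,k0,k0,k0,k0],[k2,k0,k1,k0,k1,k0],[k2,k0,k0,k1,k1,k0],[k2,k0,k0,k0,k1,k0],[k2,k0,k0,k0,k0,k1],[k1,k1,k0,k0,
    k1,k0],[k1,k0,k1,k0,k0,k0],[k1,k1,k1,k0,k0,k0],[k1,k1,k1,k0,k1,k0],[k1,k0,k2,k0,k1,k0],[k1,k0,k1,k1,k1,k0],[k1,k0,
    k1,k1,k0,k1],[k1,k0,k1,k0,k1,k0],[k1,k0,k1,k0,k0,k1],[k1,k0,k0,k1,k0,k0],[k1,k0,k0,k1,k1,k0],[k1,k0,k0,k1,k0,k1],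
    [k1,k0,k0,k1,k1,k1],[k1,k0,k0,k1,k0,k2],[k1,k0,k0,k0,k1,k0],[k1,k0,k0,k0,k0,k1],[k1,k0,k0,k0,k1,k1],[k1,k0,k0,k0,
    k0,k2],[k1,k0,k0,k0,k1,k2],[k0,k2,k0,k0,k0,k0],[k0,k3,k0,k0,k0,k0],[k0,k4,k0,k0,k0,k0],[k0,k3,k1,k0,k0,k0],[k0,k2,
    k1,k0,k0,k0],[k0,k2,k2,k0,k0,k0],[k0,k2,k1,k0,k1,k0],[k0,k2,k0,k0,k1,k0],[k0,k2,k0,k0,k0,k1],[k0,k1,k1,k0,k0,k0],
    [k0,k1,k2,k0,k0,k0],[k0,k1,k1,k1,k0,k0],[k0,k1,k1,k0,k1,k0],[k0,k1,k0,k0,k1,k0],[k0,k1,k0,k1,k1,k0],[k0,k1,k0,k0,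
    k0,k1],[k0,k1,k0,k1,k0,k1],[k0,k0,k2,k0,k0,k0],[k0,k0,k3,k0,k0,k0],[k0,k0,k2,k1,k0,k0],[k0,k0,k2,k0,k1,k0],[k0,k0,
    k1,k1,k0,k0],[k0,k0,k1,k1,k1,k0],[k0,k0,k1,k1,k0,k1],[k0,k0,k1,k0,k1,k0],[k0,k0,k1,k0,k2,k0],[k0,k0,k1,k0,k1,k1],
    [k0,k0,k1,k0,k0,k1],[k0,k0,k1,k0,k0,k2],[k0,k0,k0,k2,k0,k0],[k0,k0,k0,k2,k0,k1],[k0,k0,k0,k1,k1,k0],[k0,k0,k0,k1,
    k1,k1],[k0,k0,k0,k1,k0,k1],[k0,k0,k0,k1,k0,k2],[k0,k0,k0,k0,k2,k0],[k0,k0,k0,k0,k1,k1],[k0,k0,k0,k0,k1,k2],[k0,k0,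
    k0,k0,k0,k2],[k0,k0,k0,k0,k0,k3],[k0,k0,k0,k0,k0,k4]]
    [.contra [z1],.contra [z1,y2,z0,y1],.ref k81 k6 [(z1,[y1,y3,y1,y1,z1]),(z1,[z1,z2,z1,z1,y1]),(z1,[z0,y2,y1,y1,
    z1]),(z1,[z0,z2,z0,z1])],.ref k80 k6 [(z1,[y1,y1]),(z1,[z1]),(z1,[z0,y2,y1,y1,z1]),(z1,[z0,z2,z0,z1])],
    .ref k27 k2 [(z1,[z1,y2,y1,y1,z1]),(z1,[z0,z0,z1])],.contra [z1,y1,y1],.contra [y1,z2,z0,z1],.contra [y1,z3,z1,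
    z1],.contra [z1,y1,y1],.ref k27 k2 [(z1,[y1,z1,y1,z1,z1]),(z1,[z0,z0,z1])],.contra [z1,z0,z1,z0,y1],.contra [z1,
    z0,z1,z0,y1],.contra [y1,z1,z0,z1],.contra [y1,z1,z0,z1],.contra [z1,z2,z1,z1,y1],.ref k80 k6 [(z1,[y1,y3,y1,y1,
    z1]),(z1,[z1,z2,z1,z1,y1]),(z1,[z0,y2,y1,y1,z1]),(z1,[z0,z2,z0,z1])],.ref k27 k2 [(z1,[z1]),(z1,[z0,z0,z1])],
    .ref k3 k11 [(z1,[y1,z0,z0,z0,z1]),(z1,[z1,z1,z1,z0,y1])],.ref k79 k10 [(z1,[z0,z0,y2,z1]),(z1,[z0,y1,z0,y1,z1]),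
    (z2,[y1,z0,z3,y1,z1]),(z2,[z1,z0,y1,z1,y1])],.contra [y1,z1,z0,z1],.contra [y1,z1,z0,z1],.contra [z1,z1],
    .ref k55 k6 [(z1,[z1]),(z1,[y1,y2,y2,z0,z2])],.ref k27 k2 [(z1,[z1,y1,y1,y1,z1]),(z1,[z0,z0,z1])],.contra [y1,z2,
    z2],.contra [z1,z0,y2,z1],.contra [z1,z0,y2,z1],.contra [z1,z0,y2,z1],.contra [y1,z4,z2,z1],.contra [y1,z6,z2,z2],
    .contra [z1,z0,y2,z1],.contra [z1,z0,y2,z1],.contra [z1,z0,y2,z1],.ref k3 k11 [(z1,[z1]),(z1,[y1,z1,z1])],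
    .ref k55 k10 [(z1,[z1]),(z1,[y1,y2,y2,z0,z2])],.contra [y1,z1,z0,z0,z1],.ref k27 k2 [(z1,[y1,z0,z0,z0,z1]),(z1,
    [z0,z0,z1])],.contra [y1,z0,z1],.contra [z1,z1,z0,z1,y1],.contra [y1,z0,z1],.contra [z1,z1,z0,z1,y1],.contra [z1],
    .ref k3 k11 [(z2,[z1,z0,z2,y1]),(z2,[y1,z2,z0,z1])],.ref k3 k11 [(z1,[z1,z1,z2,z0,y1]),(z1,[y1,z0,y1,z0,z1])],
    .ref k78 k3 [(z1,[z1,z4,z4,z2,y4]),(z1,[y1,y3,y3,y1,z3]),(z1,[z0,z2,z1,z1,y1]),(z1,[z0,y1,z0,y1,z1])],.contra [y1,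
    z0,y1,z0,z1],.contra [y1,y1,y1,z0,z1],.contra [y1,y1,y1,z0,z1],.contra [y1,z1,z0,z1],.contra [y1,z0,z0,z1],
    .contra [y1,z1,z0,z1],.contra [y1,z1,z0,z1],.contra [y1,z0,z0,z1],.contra [z1,z4,z2,z2,y2],.ref k27 k2 [(z1,[z1,
    z2,z1,z1,y1]),(z1,[z0,z0,z1])],.contra [y1,y1,y1,z0,z1],.contra [z1,z3,z1,z1,y1],.contra [y1,y1,y1,z0,z1],
    .ref k55 k6 [(z1,[z1,z2,z1,z1,y1]),(z1,[y1,y4,y3,y1,z3])],.contra [z1],.contra [y1,z0,z1],.contra [y1,z0,z0,z1],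
    .contra [z1],.ref k61 k2 [(z1,[z0,z2,z1,z1,y1]),(z1,[z0,y1,z0,y1,z1]),(z1,[y1,y3,y3,z0,z3])],.ref k77 k9 [(z2,[y1,
    y4]),(z1,[z0,y2,y1,y1,z1]),(z1,[z0,z2,z0,z1]),(z1,[z0,z1,z1])]]),
    .geo true z1 k5 [(z0,z2),(z2,y2),(z2,y3),(y2,z4),(z2,y2),(z0,z1)] [(z1,[z1]),(z1,[z0,z1]),(z1,[z0,z0,z1]),(z1,[z0,z0,
    z0,z1]),(z1,[y1,y1,y1,y1,z1]),(z1,[])] (Int.ofNat (nat_lit 524288)) (Int.ofNat (nat_lit 699051)) (.l k1) []]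

/-- the nodes with numbers from 0 -/
noncomputable def cU6_2_n0 : List XN :=
  cU6_2_n0_0 ++ (cU6_2_n0_1 ++ (cU6_2_n0_2 ++ (cU6_2_n0_3 ++ (cU6_2_n0_4 ++ (cU6_2_n0_5 ++ cU6_2_n0_6)))))

theorem cU6_2_k0 : allI (chkX 6 cU6_2_w ttU6 cU6_2_s (blkF [] cU6_2_D)) cU6_2_n0 0 = true := by
  decide +kernel

end Pool.Agent.Lib_MP_fa6e45
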