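import Pool.Agent.Lib_MP_fa6e45.CY6_1d

/-!
MP_fa6e45_co, stage 7: certificates (generated by a program).
-/

namespace Pool.Agent.Lib_MP_fa6e45

noncomputable def cU6_2_n1_0 : List XN :=
  [.geo true z1 k5 [(y2,z4),(z2,y2),(z4,y4),(y2,z4),(z2,y3),(z0,z1)] [(z1,[z1]),(z1,[z0,z1]),(z1,[z0,z0,z1]),(z1,[z0,z0,
    z0,z1]),(z1,[y1,y1,y1,y1,z1]),(z1,
    [])] (Int.ofNat (nat_lit 524288)) (Int.ofNat (nat_lit 699051)) (.s (.l k1) (.l k1)) [],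
    .geo true z3 k5 [(z0,z6),(z6,y6),(y2,z3),(z2,z0),(z6,y6),(z0,z3)] [(z1,[z3]),(z1,[z0,z3]),(z1,[z0,z0,z1]),(z1,[z0,z0,
    z0,z1]),(z1,[y3,y3,y1,y1,z3]),(z1,
    [])] (Int.ofNat (nat_lit 699050)) (Int.ofNat (nat_lit 1048576)) (.s (.l k1) (.s (.l k1) (.l k1))) [],
    .geo true z1 k5 [(z0,z2),(z2,y2),(z2,y2),(y2,z3),(z2,y2),(z0,z1)] [(z1,[z1]),(z1,[z0,z1]),(z1,[z0,z0,z1]),(z1,[z0,z0,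
    z0,z1]),(z1,[y1,y1,y1,y1,z1]),(z1,
    [])] (Int.ofNat (nat_lit 699050)) (Int.ofNat (nat_lit 1048576)) (.s (.l k1) (.s (.l k1) (.s (.l k1) (.s (.l k1) (.l k2))))) [⟨z1,
    z1,[[k0,k1],[k2,k4],[k3,k5]],.bnd k0⟩],
    .old (.lp [(nat_lit 284),k138,k120,k126,k128,k162] [k0,k0,k73,k73,k82,k82,k79,k79,k78,k78,k61,k61] k0 [[k0,k0,k92,k0,
    k0,k0,k0,k0,k0,k0,k72,k58],[k0,k0,k0,k0,k0,k0,k10,k14],[k0,k0,k0,k0,k0,k8,k0,k0,k0,k16],[k0,k92],[k0,k0,k0,k8,k0,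
    k0,k8],[k0,k0,k0,k0,k0,k0,k0,k0,k0,k0,k74,k48],[k14,k0,k0,k0,k0,k0,k0,k0,k0,k14],[k10,k0,k0,k0,k0,k8],[k0,k0,k0,
    k16,k0,k0,k0,k14],[k0,k0,k0,k0,k0,k0,k0,k0,k0,k0,k68,k54],[k0,k58,k0,k0,k48,k0,k0,k0,k54],[k0,k72,k0,k0,k74,k0,k0,
    k0,k68]] (nat_lit 480) k6
    [[(k7,k131),(k11,k155),(k0,(nat_lit 212)),(k4,(nat_lit 250)),(k8,(nat_lit 260)),(k3,(nat_lit 269))],[(k5,k110),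
    (k10,k165),(k2,(nat_lit 211)),(k1,(nat_lit 212)),(k6,(nat_lit 215)),(k9,(nat_lit 220))],[(k6,k118),(k9,k123),(k5,
    k129),(k10,(nat_lit 222)),(k2,(nat_lit 230)),(k1,(nat_lit 269))],[(k8,k117),(k4,k121),(k7,k132),(k11,k150),(k0,
    (nat_lit 211)),(k3,(nat_lit 230))],[(k0,k110),(k4,k120),(k8,k124),(k3,k129),(k7,k131),(k11,k157)],[(k9,k116),(k5,
    k120),(k2,k121),(k6,k123),(k10,(nat_lit 215)),(k1,(nat_lit 250))],[(k10,k96),(k9,k127),(k1,k131),(k5,k131),(k2,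
    k132),(k6,k134)],[(k8,k113),(k3,k118),(k4,k123),(k7,k134),(k11,k144),(k0,(nat_lit 215))],[(k4,k116),(k3,k123),(k7,
    k127),(k8,k128),(k11,k159),(k0,(nat_lit 220))],[(k6,k113),(k2,k117),(k5,k124),(k9,k128),(k10,(nat_lit 213)),(k1,
    (nat_lit 260))],[(k10,k108),(k6,k144),(k2,k150),(k1,k155),(k5,k157),(k9,k159)],[(k7,k96),(k11,k108),(k0,k165),(k8,
    (nat_lit 213)),(k4,(nat_lit 215)),(k3,(nat_lit 222))]]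
    [] k0
    [[k2,k0,k0,k0,k0,k0],[k1,k0,k1,k0,k0,k0],[k1,k0,k0,k1,k0,k0],[k1,k1,k0,k1,k0,k0],[k1,k0,k1,k1,k0,k0],[k1,k0,k0,k1,
    k1,k0],[k1,k0,k1,k1,k1,k0],[k1,k0,k0,k1,k0,k1],[k1,k0,k0,k0,k0,k1],[k1,k0,k0,k0,k0,k2],[k0,k2,k0,k0,k0,k0],[k0,k2,
    k0,k0,k1,k0],[k0,k1,k1,k0,k0,k0],[k0,k1,k2,k0,k0,k0],[k0,k1,k1,k1,k0,k0],[k0,k1,k1,k0,k1,k0],[k0,k1,k0,k1,k0,k0],
    [k0,k1,k0,k2,k0,k0],[k0,k1,k0,k1,k1,k0],[k0,k1,k0,k1,k0,k1],[k0,k1,k0,k1,k0,k2],[k0,k1,k0,k0,k1,k0],[k0,k1,k0,k0,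
    k2,k0],[k0,k1,k0,k0,k0,k1],[k0,k0,k2,k0,k0,k0],[k0,k0,k3,k0,k0,k0],[k0,k0,k2,k1,k0,k0],[k0,k0,k2,k0,k1,k0],[k0,k0,
    k1,k1,k0,k0],[k0,k0,k1,k2,k0,k0],[k0,k0,k1,k1,k1,k0],[k0,k0,k1,k0,k1,k0],[k0,k0,k1,k0,k2,k0],[k0,k0,k1,k0,k0,k1],
    [k0,k0,k1,k1,k0,k1],[k0,k0,k0,k2,k0,k0],[k0,k0,k0,k3,k0,k0],[k0,k0,k0,k2,k1,k0],[k0,k0,k0,k2,k0,k1],[k0,k0,k0,k1,
    k1,k0],[k0,k0,k0,k1,k2,k0],[k0,k0,k0,k1,k0,k1],[k0,k0,k0,k1,k1,k1],[k0,k0,k0,k1,k0,k2],[k0,k0,k0,k1,k1,k2],[k0,k0,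
    k0,k1,k0,k3],[k0,k0,k0,k0,k2,k0],[k0,k0,k0,k0,k3,k0],[k0,k0,k0,k0,k1,k1],[k0,k0,k0,k0,k0,k2],[k0,k0,k0,k0,k0,k3],
    [k0,k0,k0,k0,k0,k4]]
    [.contra [z1],.ref k86 k2 [(z1,[z0,z1]),(z1,[z0,z0,z1]),(z1,[z1,y1]),(z1,[y1,z1,z0,z1])],.ref k0 k2 [(z1,[z1])],
    .contra [z1,y1,y1],.ref k3 k2 [(z1,[z1,z0,z0,y1]),(z1,[y1,z1,z1,z1])],.contra [z1,z0,z1,z1,y1],.contra [z2,z1,z2,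
    z0,y2],.ref k76 k11 [(z1,[y1,z1,z2,z1]),(z1,[z1,z1,z0,y1]),(z1,[z1,y1,z0,z1])],.ref k3 k2 [(z1,[z1]),(z1,[y1,z1,
    z1])],.contra [z1,z1],.contra [y1,z2,z2],.ref k3 k2 [(z2,[y1,z1,z1,y1,z1]),(z2,[z1,z1,z1,z1,y1])],.contra [y2,z1,
    z2,z2],.contra [y1,z0,z1,z2],.contra [y2,z1,z2,z2],.ref k76 k11 [(z1,[z1,z1,z2,z1,y1]),(z1,[y1,z1,z0,y1,z1]),(z1,
    [y1,y1,z0,z1,z1])],.contra [y2,z1,z2,z2],.contra [y1,z0,z1,z2],.ref k83 k2 [(z1,[z0,z1]),(z1,[z0,z0,z1]),(z1,[y1,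
    y1,z0,z0,z1]),(z1,[z1,z1,z0,z1,y1])],.contra [y1,z0,z1,z1],.contra [z1,z0,y1],.contra [y1,z1,z0,y1,z1],
    .ref k3 k2 [(z2,[y1,z0,y1,y2,z2]),(z2,[z1,z2,z3,z2,y2])],.contra [y2,z1,z2],.contra [z1],.ref k61 k11 [(z1,[z0,z1,
    z2,z1,y1]),(z1,[z0,z0,y1,y1,z1]),(z1,[y1,y3,y3,z0,z3])],.contra [y1,z0,z1,z2],.contra [y1,y1,y1,z1,z1],
    .contra [y2,z1,z2,z2],.contra [y1,z0,z1,z2],.contra [y2,y1,y2,z0,z2],.contra [y2,y1,y2,z0,z2],.ref k76 k11 [(z1,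
    [z1,z2,z4,z2,y2]),(z1,[y1,z0,y2,y2,z2]),(z1,[y1,y2,y2,z0,z2])],.contra [y1,z0,z1,z1],.contra [z1,z0,z0,y1],
    .contra [z1],.ref k85 k2 [(z1,[z0,z1]),(z1,[z0,z0,z1]),(z1,[y1,z0,z0,z3]),(z1,[z1])],.contra [y1,y1,y1,z1,z1],
    .ref k84 k3 [(z1,[y2,y1,y1,y1,z1]),(z1,[z1]),(z1,[z2,z1]),(z1,[y2,z0,z1])],.contra [y2,y1,y2,z0,z2],
    .ref k83 k2 [(z1,[z0,z1]),(z1,[z0,z0,z1]),(z1,[y1,y2,y2,y1,z2]),(z1,[z1,z2,z2,z2,y2])],.contra [y1,z0,z1,z1],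
    .contra [y1,y1,y1,z0,z1],.ref k0 k2 [(z1,[z1,z1])],.contra [z1,z1,z1,z1,y1],.ref k76 k11 [(z1,[y1,z0,z2,z1]),(z1,
    [z1,z2,z0,y1]),(z1,[z1,z0,z0,z1])],.contra [y1,z0,y2,y2,z2],.ref k3 k2 [(z2,[y1,y1,y3,y3,z3]),(z2,[z1,z3,z5,z3,
    y3])],.contra [y2,y1,y2,y2,z2],.contra [z1],.ref k3 k2 [(z1,[z1,z1]),(z1,[y1,z0,z1])],.contra [z1,z2]]),
    .geo true z3 k5 [(y2,z3),(z2,z0),(z8,y3),(y2,z3),(z6,y6),(z0,z3)] [(z1,[z1]),(z1,[z0,z1]),(z1,[z0,z0,z1]),(z1,[z0,z0,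
    z0,z1]),(z1,[y1,y1,y1,y1,z3]),(z1,
    [])] (Int.ofNat (nat_lit 699050)) (Int.ofNat (nat_lit 1048576)) (.s (.s (.l k1) (.l k1)) (.s (.l k1) (.l k1))) [],
    .geo true z3 k5 [(y2,z3),(z6,y6),(z0,z3),(z2,z0),(z6,y3),(z0,z3)] [(z1,[z1]),(z1,[z0,z3]),(z1,[z0,z0,z3]),(z1,[z0,z0,
    z0,z1]),(z1,[y1,y3,y3,y1,z3]),(z1,[])] (Int.ofNat (nat_lit 699050)) (Int.ofNat (nat_lit 1048576)) (.l k1) [],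
    .geo true z3 k5 [(y2,z3),(z6,y6),(z0,z6),(z2,z0),(z6,y6),(z0,z3)] [(z1,[z1]),(z1,[z0,z3]),(z1,[z0,z0,z3]),(z1,[z0,z0,
    z0,z1]),(z1,[y1,y3,y3,y1,z3]),(z1,
    [])] (Int.ofNat (nat_lit 699050)) (Int.ofNat (nat_lit 1048576)) (.s (.l k1) (.s (.l k1) (.s (.l k1) (.l k1)))) [],
    .geo true z3 k5 [(z2,z0),(z2,y3),(z0,z3),(z6,y3),(z2,z0),(z0,z3)] [(z1,[z1]),(z1,[z0,z1]),(z1,[z0,z0,z3]),(z1,[z0,z0,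
    z0,z3]),(z1,[y1,y1,y3,y3,z3]),(z1,[])] z0 (Int.ofNat (nat_lit 699051)) (.s (.l k1) (.l k1)) [],
    .geo true z3 k5 [(z0,z3),(z6,y3),(z2,z0),(z0,z3),(z4,y6),(z0,z3)] [(z1,[z3]),(z1,[z0,z3]),(z1,[z0,z0,z1]),(z1,[z0,z0,
    z0,z3]),(z1,[y3,y3,y1,y3,z3]),(z1,
    [])] z0 (Int.ofNat (nat_lit 699051)) (.s (.s (.s (.l k2) (.l k1)) (.s (.l k1) (.l k1))) (.s (.l k1) (.l k1))) [⟨z0,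
    z1,[[k0,k1],[k2,k3],[k4,k5]],.bnd k0⟩],
    .old (.lp [(nat_lit 4184),(nat_lit 5572),(nat_lit 3744),(nat_lit 3278),(nat_lit 2962),(nat_lit 5194)] [(nat_lit 694),
    (nat_lit 694),k0,k0,(nat_lit 1771),k57,(nat_lit 1147),(nat_lit 1147),(nat_lit 1305),(nat_lit 1305),k189,
    k189] k0 [[k0,k0,k0,(nat_lit 2382),k0,k0,(nat_lit 352)],[k0,k0,k0,(nat_lit 808),k0,k0,(nat_lit 456),k0,k0,k0,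
    (nat_lit 1114)],[(nat_lit 808),(nat_lit 2382),k0,k0,k0,k0,k0,k0,k0,(nat_lit 228)],[k0,k0,k0,k0,(nat_lit 782),k0,
    k0,k0,k0,(nat_lit 1714)],[k0,k0,k0,k0,k0,k0,k0,k0,k0,k0,k0,(nat_lit 378)],[k0,k0,(nat_lit 782)],[k0,k0,k0,k0,k0,
    k0,k0,k0,(nat_lit 1668)],[(nat_lit 456),(nat_lit 352)],[k0,k0,(nat_lit 1714),(nat_lit 228)],[k0,k0,k0,k0,k0,k0,k0,
    (nat_lit 1668),k0,k0,(nat_lit 632),(nat_lit 1502)],[k0,k0,k0,k0,k0,(nat_lit 378),k0,k0,(nat_lit 1502)],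
    [(nat_lit 1114),k0,k0,k0,k0,k0,k0,k0,(nat_lit 632)]] (nat_lit 12480) k6
    [[(k4,(nat_lit 3107)),(k3,(nat_lit 3764)),(k11,(nat_lit 4057)),(k7,(nat_lit 4109)),(k0,(nat_lit 4184)),(k8,
    (nat_lit 5075))],[(k2,(nat_lit 2496)),(k9,(nat_lit 3221)),(k1,(nat_lit 4184)),(k6,(nat_lit 4187)),(k5,
    (nat_lit 5629)),(k10,(nat_lit 5803))],[(k1,(nat_lit 3764)),(k9,(nat_lit 3811)),(k2,(nat_lit 4764)),(k6,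
    (nat_lit 4777)),(k10,(nat_lit 5383)),(k5,(nat_lit 7897))],[(k0,(nat_lit 2496)),(k8,(nat_lit 4039)),(k7,
    (nat_lit 4425)),(k4,(nat_lit 4583)),(k3,(nat_lit 4764)),(k11,(nat_lit 7097))],[(k8,(nat_lit 2496)),(k7,
    (nat_lit 3586)),(k4,(nat_lit 3744)),(k11,(nat_lit 5554)),(k0,(nat_lit 5629)),(k3,(nat_lit 7897))],[(k9,
    (nat_lit 2496)),(k6,(nat_lit 2654)),(k1,(nat_lit 3107)),(k10,(nat_lit 3234)),(k5,(nat_lit 3744)),(k2,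
    (nat_lit 4583))],[(k9,(nat_lit 3120)),(k6,(nat_lit 3278)),(k5,(nat_lit 3586)),(k1,(nat_lit 4109)),(k10,
    (nat_lit 4236)),(k2,(nat_lit 4425))],[(k11,(nat_lit 2568)),(k4,(nat_lit 2654)),(k8,(nat_lit 3120)),(k7,
    (nat_lit 3278)),(k0,(nat_lit 4187)),(k3,(nat_lit 4777))],[(k4,(nat_lit 2496)),(k7,(nat_lit 3120)),(k0,
    (nat_lit 3221)),(k3,(nat_lit 3811)),(k11,(nat_lit 4078)),(k8,(nat_lit 4630))],[(k5,(nat_lit 2496)),(k6,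
    (nat_lit 3120)),(k2,(nat_lit 4039)),(k9,(nat_lit 4630)),(k10,(nat_lit 4710)),(k1,(nat_lit 5075))],[(k6,
    (nat_lit 2568)),(k10,(nat_lit 3692)),(k1,(nat_lit 4057)),(k9,(nat_lit 4078)),(k5,(nat_lit 5554)),(k2,
    (nat_lit 7097))],[(k4,(nat_lit 3234)),(k11,(nat_lit 3692)),(k7,(nat_lit 4236)),(k8,(nat_lit 4710)),(k3,
    (nat_lit 5383)),(k0,(nat_lit 5803))]]
    [] k0
    [[k2,k0,k0,k0,k0,k0],[k2,k1,k0,k0,k0,k0],[k1,k1,k0,k0,k0,k0],[k1,k2,k0,k0,k0,k0],[k1,k1,k0,k1,k0,k0],[k1,k1,k0,k0,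
    k1,k0],[k1,k0,k1,k0,k0,k0],[k1,k0,k1,k1,k0,k0],[k1,k0,k1,k0,k1,k0],[k1,k1,k1,k0,k1,k0],[k1,k0,k0,k1,k0,k0],[k1,k0,
    k0,k2,k0,k0],[k1,k0,k0,k1,k1,k0],[k1,k0,k0,k0,k1,k0],[k1,k0,k0,k0,k0,k1],[k1,k1,k0,k0,k0,k1],[k1,k0,k0,k0,k1,k1],
    [k0,k2,k0,k0,k0,k0],[k0,k1,k0,k1,k0,k0],[k0,k1,k0,k1,k1,k0],[k0,k1,k0,k0,k1,k0],[k0,k1,k1,k0,k1,k0],[k0,k1,k0,k1,
    k0,k1],[k0,k0,k2,k0,k0,k0],[k0,k0,k3,k0,k0,k0],[k0,k0,k2,k1,k0,k0],[k0,k0,k2,k0,k1,k0],[k0,k0,k2,k1,k1,k0],[k0,k0,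
    k1,k1,k0,k0],[k0,k0,k1,k2,k0,k0],[k0,k0,k1,k1,k1,k0],[k0,k0,k1,k1,k0,k1],[k0,k0,k1,k0,k1,k0],[k0,k0,k2,k0,k2,k0],
    [k0,k0,k1,k2,k1,k0],[k0,k0,k1,k1,k2,k0],[k0,k0,k1,k1,k1,k1],[k0,k0,k1,k0,k2,k0],[k0,k0,k1,k0,k1,k1],[k0,k0,k1,k0,
    k0,k1],[k0,k0,k0,k2,k0,k0],[k0,k0,k0,k3,k0,k0],[k0,k0,k0,k2,k1,k0],[k0,k0,k0,k2,k0,k1],[k0,k0,k0,k1,k1,k0],[k0,k0,
    k0,k1,k2,k0],[k0,k0,k0,k1,k1,k1],[k0,k0,k0,k1,k0,k1],[k0,k0,k0,k1,k0,k2],[k0,k0,k0,k0,k2,k0],[k0,k0,k0,k0,k1,k1],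
    [k0,k0,k0,k0,k0,k2],[k0,k0,k0,k0,k0,k3]]
    [.contra [z1],.contra [z1,y1,y2,y1,z1],.ref k3 k11 [(z1,[z0,z0,z1,z1]),(z1,[z1,z0,y1,y1])],.contra [z1,y1,y4,y2,
    z2],.ref k89 k4 [(z1,[z3,y1,y3,y3]),(z1,[y1,z0,z0,z1,z1]),(z1,[z0,z0,z0,y1]),(z1,[z0,z1])],.ref k76 k1 [(z1,[y1,
    z0,z0,z1,z1]),(z1,[z1,z0,z2,z1,y1]),(z1,[z1,z0,y2,y1,z1])],.contra [y1,z0,y1,z0,z1],.contra [y1,z0,y1,z0,z1],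
    .contra [y1,z0,y1,z0,z1],.contra [z1,z0,y1,y1],.contra [y1,z0,y1,z0,z1],.ref k56 k4 [(z2,[z3,y1]),(z2,[y3,y1,y6,
    z0,z6]),(z1,[z0,z0,z1])],.contra [y1,z0,y1,z0,z1],.contra [y1,z0,y1,z0,z1],.contra [y1,z0,y1,y1,z1],.contra [y1,
    z1,z1],.contra [y1,z0,y1,y1,z1],.contra [z1],.ref k92 k1 [(z1,[y1,z0,z1,z1]),(z1,[z1]),(z1,[z0,z1]),(z1,[y1,z0,
    z1])],.ref k3 k11 [(z1,[z0,z0,z1,z1]),(z2,[z1,z1,z0,y1,y1])],.ref k0 k3 [(z1,[z1])],.contra [z1,z0,y1,y1],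
    .contra [z1,z0,y1],.contra [y1,z0,z2,z2],.ref k3 k11 [(z1,[z0,z0,z1,z1]),(z3,[y1,z1])],.ref k76 k1 [(z1,[z1]),(z1,
    [y1,z0,z2,z2]),(z1,[y1,z0,y2,z0,z2])],.ref k89 k4 [(z1,[y3,y1,y3,z0,z3]),(z1,[z1]),(z1,[z0,z0,z0,y1]),(z1,[z0,
    z1])],.ref k3 k11 [(z1,[z0,z0,z1,z1]),(z1,[y1,z0,y1,z0,z1])],.contra [y1,z0,y1,z0,z1],.ref k55 k4 [(z1,[z1]),(z1,
    [y1,z0,y2,y2,z2])],.contra [z1,z1,z1,z0,y1],.ref k76 k1 [(z1,[z1,z0,z0,z1]),(z1,[y1,z0,z2,z1]),(z1,[y1,z0,y2,y1,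
    z2])],.contra [y1,z0,y1,z0,z1],.ref k48 k4 [(z2,[y3,y2,y6,z0,z6]),(z2,[z1]),(z1,[z0,z0,z1])],.ref k56 k4 [(z1,[z3,
    z1,z3,z0,y3]),(z1,[y3,y2,y6,z0,z6]),(z1,[z0,z0,z1])],.ref k91 k9 [(z1,[z3,z1,z3,z0,y3]),(z1,[y3,y2,y6,y3,z6]),(z1,
    [z0,z0,z0,z1]),(z1,[z0,z0,z1])],.ref k3 k11 [(z1,[z0,z0,z1,z1]),(z1,[y1,z0,y1,y1,z1])],.ref k90 k5 [(z1,[y3,y1,y3,
    z0,z3]),(z1,[z1]),(z1,[y1,z0,z1,z1]),(z1,[z0,z1])],.ref k89 k4 [(z1,[y3,y1,y3,y3,z3]),(z1,[z1,z0,z0,z1]),(z1,[z0,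
    z0,z0,y1]),(z1,[z0,z1])],.contra [y1,z0,z2,z1],.contra [z1],.ref k56 k4 [(z1,[z1]),(z1,[y1,y1,y3,z0,z3]),(z1,[z0,
    z0,z1])],.ref k67 k7 [(z1,[y1,z0,y2,y1,z1]),(z1,[z0,z0,z1]),(z1,[z1])],.ref k55 k4 [(z1,[z1,z0,z0,z1]),(z1,[y1,z0,
    y2,y3,z2])],.contra [y1,z0,y1,z0,z1],.ref k88 k0 [(z1,[y3,y1,y3,y3,z3]),(z1,[z0,z1]),(z1,[z3,z1,z6,z3,y3]),(z1,
    [y3,y1,y3,z0,z3])],.contra [z1,z1,z1,z1,y1],.contra [y1,z0,y1,y1,z1],.ref k76 k1 [(z1,[z1,z0,z0,z2]),(z1,[y1,z0,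
    z2]),(z1,[y1,z0,y2,y2,z2])],.contra [z1],.contra [y1,z0,y1,y1,z1],.contra [y1,z0,z2],.ref k3 k11 [(z1,[z0,z0,z1,
    z1]),(z3,[y1,z1,z0,y3])]]),
    .geo true z2 k5 [(y1,z2),(z4,y4),(z0,z2),(z1,z0),(z4,y2),(z0,z2)] [(z1,[z1]),(z1,[z0,z2]),(z1,[z0,z0,z2]),(z1,[z0,z0,
    z0,z1]),(z1,[y1,y2,y2,y1,z2]),(z1,
    [])] (Int.ofNat (nat_lit 524288)) (Int.ofNat (nat_lit 1048576)) (.s (.l k1) (.l k1)) [],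
    .geo true z2 k5 [(y1,z2),(z4,y4),(z0,z4),(z1,z0),(z4,y4),(z0,z2)] [(z1,[z1]),(z1,[z0,z2]),(z1,[z0,z0,z2]),(z1,[z0,z0,
    z0,z1]),(z1,[y1,y2,y2,y1,z2]),(z1,
    [])] (Int.ofNat (nat_lit 524288)) (Int.ofNat (nat_lit 1048576)) (.s (.l k1) (.s (.s (.l k1) (.l k1)) (.s (.l k1) (.l k1)))) []]

noncomputable def cU6_2_n1_1 : List XN :=
  [.geo true z2 k5 [(z0,z2),(z4,y2),(z1,z0),(z0,z2),(z3,y4),(z0,z2)] [(z1,[z2]),(z1,[z0,z2]),(z1,[z0,z0,z1]),(z1,[z0,z0,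
    z0,z2]),(z1,[y2,y2,y1,y2,z2]),(z1,
    [])] z0 (Int.ofNat (nat_lit 786432)) (.s (.s (.s (.s (.l k2) (.l k1)) (.l k1)) (.s (.l k1) (.l k1))) (.s (.l k1) (.l k1))) [⟨z0,
    z1,[[k0,k1],[k2,k3],[k4,k5]],.bnd k0⟩],
    .geo true z4 k5 [(z2,z0),(z8,y4),(z0,z4),(z3,y4),(z3,z0),(z0,z4)] [(z1,[z2]),(z1,[z0,z4]),(z1,[z0,z0,z4]),(z1,[z0,z0,
    z0,z1]),(z1,[y2,y4,y4,y1,z4]),(z1,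
    [])] z0 (Int.ofNat (nat_lit 786432)) (.s (.s (.l k1) (.l k1)) (.s (.l k1) (.l k1))) [],
    .geo true z2 k5 [(z0,z2),(z3,y4),(z1,z4),(z1,z0),(z3,y4),(z0,z2)] [(z1,[z2]),(z1,[z0,z1]),(z1,[z0,z0,z1]),(z1,[z0,z0,
    z0,z1]),(z1,[y2,y1,y1,y1,z2]),(z1,[])] z0 (Int.ofNat (nat_lit 786432)) (.s (.l k1) (.s (.l k1) (.l k1))) [],
    .old (.lp [(nat_lit 292),(nat_lit 386),(nat_lit 326),(nat_lit 332),(nat_lit 254),(nat_lit 328)] [k113,k113,k66,k66,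
    k192,k0,k93,k93,k132,k132,k95,k95] k0 [[k0,k0,k0,k70,k0,k0,k0,k0,k0,k0,k52,k26],[k0,k0,k0,k60],[k60,k70],[k0,k0,
    k0,k0,k178,k0,k0,k0,k0,k194],[k0,k0,k0,k0,k0,k0,k2,k0,k0,k0,k0,k20],[k0,k0,k178,k0,k0,k0,k0,k0,k0,k0,k0,k42],[k0,
    k0,k0,k0,k0,k0,k0,k0,k138],[k0,k0,k0,k0,k0,k2,k0,k0,k40],[k0,k0,k194,k0,k0,k0,k0,k0,k0,k0,k64],[k0,k0,k0,k0,k0,k0,
    k40,k138,k0,k0,k26],[k0,k26,k0,k0,k42,k20],[k0,k52,k0,k0,k0,k0,k0,k0,k26,k64]] (nat_lit 960) k6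
    [[(k8,(nat_lit 209)),(k0,(nat_lit 240)),(k4,(nat_lit 255)),(k11,(nat_lit 284)),(k7,(nat_lit 332)),(k3,
    (nat_lit 365))],[(k1,(nat_lit 240)),(k2,(nat_lit 269)),(k9,(nat_lit 273)),(k10,(nat_lit 284)),(k6,(nat_lit 312)),
    (k5,(nat_lit 465))],[(k9,(nat_lit 320)),(k2,(nat_lit 326)),(k6,(nat_lit 359)),(k1,(nat_lit 365)),(k10,
    (nat_lit 409)),(k5,(nat_lit 522))],[(k0,(nat_lit 269)),(k8,(nat_lit 320)),(k3,(nat_lit 326)),(k7,(nat_lit 359)),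
    (k4,(nat_lit 438)),(k11,(nat_lit 551))],[(k8,k192),(k7,(nat_lit 247)),(k4,(nat_lit 326)),(k11,(nat_lit 423)),(k0,
    (nat_lit 465)),(k3,(nat_lit 522))],[(k9,k192),(k10,(nat_lit 211)),(k6,(nat_lit 233)),(k1,(nat_lit 255)),(k5,
    (nat_lit 326)),(k2,(nat_lit 438))],[(k5,(nat_lit 247)),(k10,(nat_lit 288)),(k9,(nat_lit 293)),(k1,(nat_lit 332)),
    (k6,(nat_lit 334)),(k2,(nat_lit 359))],[(k11,k192),(k4,(nat_lit 233)),(k0,(nat_lit 312)),(k8,(nat_lit 333)),(k7,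
    (nat_lit 334)),(k3,(nat_lit 359))],[(k4,k192),(k11,(nat_lit 251)),(k0,(nat_lit 273)),(k7,(nat_lit 293)),(k3,
    (nat_lit 320)),(k8,(nat_lit 392))],[(k5,k192),(k1,(nat_lit 209)),(k10,(nat_lit 317)),(k2,(nat_lit 320)),(k6,
    (nat_lit 333)),(k9,(nat_lit 392))],[(k6,k192),(k9,(nat_lit 251)),(k1,(nat_lit 284)),(k10,(nat_lit 392)),(k5,
    (nat_lit 423)),(k2,(nat_lit 551))],[(k4,(nat_lit 211)),(k0,(nat_lit 284)),(k7,(nat_lit 288)),(k8,(nat_lit 317)),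
    (k11,(nat_lit 392)),(k3,(nat_lit 409))]]
    [] k0
    [[k2,k0,k0,k0,k0,k0],[k3,k0,k0,k0,k0,k0],[k2,k1,k0,k0,k0,k0],[k2,k0,k0,k1,k0,k0],[k2,k0,k0,k0,k1,k0],[k2,k0,k0,k0,
    k0,k1],[k1,k1,k0,k0,k0,k0],[k1,k1,k0,k0,k1,k0],[k1,k0,k1,k0,k0,k0],[k1,k0,k1,k1,k0,k0],[k1,k0,k1,k0,k1,k0],[k1,k0,
    k0,k1,k0,k0],[k1,k0,k0,k1,k1,k0],[k1,k0,k0,k1,k0,k1],[k1,k0,k0,k0,k1,k0],[k1,k0,k1,k0,k2,k0],[k1,k0,k0,k0,k2,k0],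
    [k1,k0,k0,k0,k1,k1],[k1,k0,k0,k0,k0,k1],[k0,k2,k0,k0,k0,k0],[k0,k1,k0,k1,k0,k0],[k0,k1,k0,k0,k1,k0],[k0,k1,k1,k0,
    k1,k0],[k0,k0,k2,k0,k0,k0],[k0,k0,k2,k1,k0,k0],[k0,k0,k2,k0,k1,k0],[k0,k0,k1,k1,k0,k0],[k0,k0,k2,k1,k1,k0],[k0,k0,
    k1,k2,k0,k0],[k0,k0,k1,k1,k1,k0],[k0,k0,k1,k1,k0,k1],[k0,k0,k1,k1,k1,k1],[k0,k0,k1,k0,k1,k0],[k0,k0,k2,k0,k2,k0],
    [k0,k0,k1,k0,k2,k0],[k0,k0,k1,k0,k1,k1],[k0,k0,k1,k0,k2,k1],[k0,k0,k1,k0,k0,k1],[k0,k0,k0,k2,k0,k0],[k0,k0,k0,k2,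
    k0,k1],[k0,k0,k0,k1,k1,k0],[k0,k0,k0,k1,k1,k1],[k0,k0,k0,k1,k0,k1],[k0,k0,k0,k1,k0,k2],[k0,k0,k0,k0,k2,k0],[k0,k0,
    k0,k0,k1,k1],[k0,k0,k0,k0,k0,k2]]
    [.contra [z1],.contra [z1,y1],.contra [z1,y1],.contra [z1,y1],.contra [z1,y1],.contra [y1,z1,z1],.ref k3 k11 [(z1,
    [z0,z0,z1,z1]),(z1,[z1,z0,y1,y1])],.ref k76 k1 [(z1,[y1,z0,z0,z1,z1]),(z1,[z1,z0,z2,z1,y1]),(z1,[z1,z0,y2,y1,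
    z1])],.contra [y1,z0,y1,z0,z1],.contra [y1,z0,y1,z0,z1],.contra [y1,z0,y1,z0,z1],.contra [y1,z0,y1,z0,z1],
    .contra [y1,z0,y1,z0,z1],.contra [y1,z0,y1,y1,z1],.contra [y1,z0,y1,z0,z1],.ref k98 k5 [(z1,[y1,z0,y1,z0,z1]),(z1,
    [z2,y1]),(z1,[y2,z1,z2,z2]),(z1,[z0,z1])],.ref k97 k2 [(z1,[z0,z1]),(z1,[z0,z0,z1]),(z1,[z0,z0,z0,z1]),(z1,[y2,y1,
    y4,y4,z4])],.contra [y1,z0,y1,y1,z1],.contra [y1,z0,y1,y1,z1],.contra [z1],.ref k96 k1 [(z1,[y1,z0,z1,z1]),(z1,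
    [z1]),(z1,[z0,z1]),(z1,[y1,z0,z1])],.ref k0 k3 [(z1,[z1])],.contra [z1,z0,y1,y1],.contra [y1,z0,z2,z2],
    .ref k76 k1 [(z1,[z1]),(z1,[y1,z0,z2,z2]),(z1,[y1,z0,y2,z0,z2])],.ref k94 k4 [(z1,[y2,y1,y2,z0,z2]),(z1,[z1]),(z1,
    [z0,z0,z0,y1]),(z1,[z0,z1])],.contra [y1,z0,y1,z0,z1],.ref k3 k11 [(z1,[z0,z0,z1,z1]),(z1,[y1,z0,y1,z0,z1])],
    .ref k55 k4 [(z1,[z1]),(z1,[y1,z0,y2,y2,z2])],.contra [z1,z1,z1,z0,y1],.ref k76 k1 [(z1,[z1,z0,z0,z1]),(z1,[y1,z0,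
    z2,z1]),(z1,[y1,z0,y2,y1,z2])],.ref k3 k11 [(z1,[z0,z0,z1,z1]),(z1,[y1,z0,y1,y1,z1])],.contra [y1,z0,y1,z0,z1],
    .ref k5 k10 [(z2,[z1]),(z1,[y1,y1,y2,z0,z2]),(z1,[z0,z0,z1])],.ref k95 k5 [(z1,[y2,y1,y2,z0,z2]),(z1,[z1]),(z1,
    [y1,z0,z1,z1]),(z1,[z0,z1])],.ref k94 k4 [(z1,[y2,y1,y2,y2,z2]),(z1,[z1,z0,z0,z1]),(z1,[z0,z0,z0,y1]),(z1,[z0,
    z1])],.ref k5 k10 [(z2,[z1,z0,z0,z1]),(z1,[y1,y1,y2,y1,z2]),(z1,[z0,z0,z1])],.contra [y1,z0,z2,z1],.contra [z1],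
    .ref k55 k4 [(z1,[z1,z0,z0,z1]),(z1,[y1,z0,y2,y3,z2])],.contra [y1,z0,y1,z0,z1],.contra [z1,z1,z1,z1,y1],
    .contra [y1,z0,y1,y1,z1],.ref k76 k1 [(z1,[z1,z0,z0,z2]),(z1,[y1,z0,z2]),(z1,[y1,z0,y2,y2,z2])],.contra [z1],
    .contra [y1,z0,y1,y1,z1],.contra [y1,z0,z2]]),
    .geo true z2 k5 [(y4,z3),(z4,y2),(z0,z1),(z4,y2),(z4,y2),(z0,z2)] [(z1,[z1]),(z1,[z0,z2]),(z1,[z0,z0,z1]),(z1,[z0,z0,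
    z0,z2]),(z1,[y1,y2,y1,y2,z2]),(z1,
    [])] (Int.ofNat (nat_lit 1398101)) (Int.ofNat (nat_lit 2097152)) (.s (.s (.l k1) (.l k1)) (.s (.l k1) (.s (.l k1) (.s (.l k1) (.l k2))))) [⟨z2,
    z1,[[k0,k1],[k2,k3],[k4,k5]],.bnd k1⟩],
    .geo true z1 k5 [(y6,z4),(z2,y1),(z4,y2),(z2,y1),(z2,y1),(z0,z1)] [(z1,[z1]),(z1,[z0,z1]),(z1,[z0,z0,z1]),(z1,[z0,z0,
    z0,z1]),(z1,[y1,y1,y1,y1,z1]),(z1,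
    [])] (Int.ofNat (nat_lit 1572864)) (Int.ofNat (nat_lit 2097152)) (.s (.s (.s (.l k1) (.l k1)) (.s (.l k1) (.l k1))) (.s (.s (.l k1) (.l k1)) (.s (.s (.l k1) (.l k1)) (.s (.l k1) (.s (.l k1) (.s (.l k1) (.l k2))))))) [⟨z2,
    z1,[[k0,k1],[k2,k3],[k4,k5]],.bnd k0⟩],
    .geo true z1 k5 [(z0,z2),(z2,y1),(z0,z1),(z0,z1),(z2,y4),(z0,z1)] [(z1,[z1]),(z1,[z0,z1]),(z1,[z0,z0,z1]),(z1,[z0,z0,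
    z0,z1]),(z1,[y1,y1,y1,y1,z1]),(z1,
    [])] z0 (Int.ofNat (nat_lit 524288)) (.s (.s (.s (.s (.l k2) (.l k1)) (.l k1)) (.s (.l k1) (.l k1))) (.s (.l k1) (.l k1))) [⟨z0,
    z1,[[k0,k1],[k2,k3],[k4,k5]],.bnd k0⟩],
    .old (.lp [(nat_lit 2056),(nat_lit 2776),(nat_lit 3262),(nat_lit 1556),(nat_lit 1972),(nat_lit 1804)] [(nat_lit 660),
    (nat_lit 660),k0,(nat_lit 600),k57,k57,(nat_lit 910),(nat_lit 910),(nat_lit 702),(nat_lit 702),(nat_lit 928),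
    (nat_lit 644)] k0 [[k0,k0,k0,k0,k0,k0,(nat_lit 598),k0,k0,k0,k168],[k0,k0,k0,(nat_lit 1402)],[(nat_lit 1402),k0,
    k0,k0,k0,k0,k0,k0,(nat_lit 1388)],[k0,k0,k0,k0,(nat_lit 682),(nat_lit 416)],[k0,k0,(nat_lit 416),k0,k0,k0,k0,
    (nat_lit 332),k0,k0,k0,(nat_lit 332)],[k0,k0,(nat_lit 682),k0,k0,k0,k0,k98],[k0,k0,k0,k0,k98,(nat_lit 332)],[k0,
    (nat_lit 598)],[k0,k0,k0,k0,k0,k0,k0,k0,k0,k0,(nat_lit 654),(nat_lit 402)],[k0,k0,k0,(nat_lit 1388)],[k0,k0,k0,k0,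
    k0,(nat_lit 332),k0,k0,k0,(nat_lit 402)],[k0,k168,k0,k0,k0,k0,k0,k0,k0,(nat_lit 654)]] (nat_lit 6720) k6
    [[(k8,(nat_lit 1360)),(k0,(nat_lit 1888)),(k3,(nat_lit 2116)),(k7,(nat_lit 2138)),(k11,(nat_lit 2474)),(k4,
    (nat_lit 2659))],[(k9,(nat_lit 1416)),(k10,(nat_lit 1788)),(k6,(nat_lit 1806)),(k1,(nat_lit 1888)),(k2,
    (nat_lit 2716)),(k5,(nat_lit 4061))],[(k2,(nat_lit 1374)),(k10,(nat_lit 2016)),(k9,(nat_lit 2074)),(k1,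
    (nat_lit 2116)),(k6,(nat_lit 2464)),(k5,(nat_lit 2719))],[(k11,(nat_lit 1344)),(k3,(nat_lit 1374)),(k8,
    (nat_lit 2674)),(k0,(nat_lit 2716)),(k7,(nat_lit 2882)),(k4,(nat_lit 4001))],[(k7,(nat_lit 1727)),(k11,
    (nat_lit 2675)),(k3,(nat_lit 2719)),(k4,(nat_lit 2846)),(k8,(nat_lit 4005)),(k0,(nat_lit 4061))],[(k10,
    (nat_lit 2059)),(k6,(nat_lit 2077)),(k1,(nat_lit 2659)),(k9,(nat_lit 2715)),(k5,(nat_lit 2846)),(k2,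
    (nat_lit 4001))],[(k6,(nat_lit 1458)),(k10,(nat_lit 1538)),(k5,(nat_lit 1727)),(k9,(nat_lit 2096)),(k1,
    (nat_lit 2138)),(k2,(nat_lit 2882))],[(k7,(nat_lit 1458)),(k8,(nat_lit 1764)),(k0,(nat_lit 1806)),(k11,
    (nat_lit 1822)),(k4,(nat_lit 2077)),(k3,(nat_lit 2464))],[(k0,(nat_lit 1416)),(k8,(nat_lit 1972)),(k11,
    (nat_lit 2030)),(k3,(nat_lit 2074)),(k7,(nat_lit 2096)),(k4,(nat_lit 2715))],[(k10,(nat_lit 1344)),(k1,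
    (nat_lit 1360)),(k6,(nat_lit 1764)),(k9,(nat_lit 1972)),(k2,(nat_lit 2674)),(k5,(nat_lit 4005))],[(k2,
    (nat_lit 1344)),(k6,(nat_lit 1822)),(k9,(nat_lit 2030)),(k10,(nat_lit 2458)),(k1,(nat_lit 2474)),(k5,
    (nat_lit 2675))],[(k8,(nat_lit 1344)),(k7,(nat_lit 1538)),(k0,(nat_lit 1788)),(k3,(nat_lit 2016)),(k4,
    (nat_lit 2059)),(k11,(nat_lit 2458))]]
    [] k0
    [[k2,k0,k0,k0,k0,k0],[k3,k0,k0,k0,k0,k0],[k3,k0,k0,k0,k1,k0],[k2,k0,k0,k1,k0,k0],[k2,k0,k0,k0,k1,k0],[k2,k0,k0,k0,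
    k2,k0],[k2,k0,k0,k0,k0,k1],[k1,k1,k0,k0,k0,k0],[k1,k2,k0,k0,k0,k0],[k1,k2,k0,k0,k0,k1],[k1,k1,k0,k0,k1,k0],[k1,k1,
    k0,k0,k0,k1],[k1,k1,k0,k0,k1,k1],[k1,k0,k1,k1,k0,k0],[k1,k0,k0,k1,k0,k0],[k1,k0,k0,k2,k0,k0],[k1,k0,k0,k1,k1,k0],
    [k1,k0,k0,k1,k0,k1],[k1,k0,k0,k0,k1,k0],[k1,k0,k0,k1,k2,k0],[k1,k0,k0,k0,k2,k0],[k1,k0,k0,k0,k1,k1],[k1,k0,k0,k0,
    k2,k1],[k1,k0,k0,k0,k0,k1],[k0,k2,k0,k0,k0,k0],[k0,k3,k0,k0,k0,k0],[k0,k4,k0,k0,k0,k0],[k0,k3,k0,k0,k0,k1],[k0,k2,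
    k0,k0,k1,k0],[k0,k2,k0,k0,k1,k1],[k0,k2,k0,k0,k0,k1],[k0,k1,k1,k0,k0,k1],[k0,k1,k0,k1,k0,k0],[k0,k1,k0,k1,k0,k1],
    [k0,k1,k0,k0,k1,k0],[k0,k1,k0,k0,k1,k1],[k0,k1,k0,k0,k0,k1],[k0,k1,k0,k0,k0,k2],[k0,k0,k2,k0,k0,k0],[k0,k0,k2,k1,
    k0,k0],[k0,k0,k1,k1,k0,k0],[k0,k0,k1,k2,k0,k0],[k0,k0,k1,k1,k1,k0],[k0,k0,k1,k1,k0,k1],[k0,k0,k1,k0,k0,k1],[k0,k0,
    k0,k2,k0,k0],[k0,k0,k0,k3,k0,k0],[k0,k0,k0,k4,k0,k0],[k0,k0,k0,k3,k0,k1],[k0,k0,k0,k2,k1,k0],[k0,k0,k0,k2,k0,k1],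
    [k0,k0,k0,k1,k1,k0],[k0,k0,k0,k1,k2,k0],[k0,k0,k0,k1,k1,k1],[k0,k0,k0,k1,k0,k1],[k0,k0,k0,k1,k0,k2],[k0,k0,k0,k0,
    k2,k0],[k0,k0,k0,k0,k3,k0],[k0,k0,k0,k0,k2,k1],[k0,k0,k0,k0,k1,k1],[k0,k0,k0,k0,k1,k2],[k0,k0,k0,k0,k0,k2]]
    [.contra [z1],.ref k55 k7 [(z1,[z1,y1,z1]),(z1,[y1,z1,y3,y2,z2])],.ref k5 k4 [(z2,[y1,z1,y2,y2,z2]),(z2,[z1,y3]),
    (z1,[z0,z1,z0,z1])],.contra [y1,z1,y1,y1,z1],.ref k55 k7 [(z1,[z1,z0,z1]),(z1,[y1,z0,y3,y2,z2])],.ref k5 k4 [(z2,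
    [y1,z0,y2,y2,z2]),(z2,[z1,y2]),(z1,[z0,z1,z0,z1])],.contra [y1,z1,y1,y1,z1],.contra [z1,z1,y1],.ref k55 k7 [(z1,
    [z1,z1,y1]),(z1,[y1,y1,y1,y2,z2])],.ref k3 k1 [(z1,[y1,z0,z1,z0,z1]),(z1,[z1,z0,z0,z1,y1])],.ref k55 k7 [(z1,[z1,
    z1]),(z1,[y1,y1,y2,y2,z2])],.contra [y1,z0,z0,y1,z1],.ref k3 k1 [(z1,[y1,z0,z0,z0,z1]),(z1,[z1,z0,z1,z1,y1])],
    .contra [z1,y1,z0,y1],.contra [y1,z1,y1,y1,z1],.ref k87 k1 [(z1,[y1,z1,z0,z1]),(z1,[z1,y1,z1]),(z1,[y1,z1,y1,y1,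
    z1])],.contra [y1,z0,y1,y1,z1],.contra [y1,z1,y1,y1,z1],.contra [z1,z1],.ref k0 k0 [(z1,[y1,z0,y1,z0,z1])],
    .ref k55 k7 [(z1,[z1,z1,z1]),(z1,[y1,y1,y3,y2,z2])],.contra [y1,z0,y1,y1,z1],.ref k3 k1 [(z1,[y1,z0,y1,z0,z1]),
    (z1,[z1,z0,z2,z1,y1])],.contra [y1,z1,y1,y1,z1],.contra [z1,z2,y2],.ref k55 k7 [(z1,[z1,z2,y2]),(z1,[y1,y2,z0,y2,
    z2])],.ref k5 k4 [(z2,[y1,y2,z2,y2,z2]),(z2,[z1,z0,y4]),(z1,[z0,z1,z0,z1])],.ref k3 k1 [(z1,[y1,y1,z2,z0,z1]),(z1,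
    [z1,z1,y1,z1,y1])],.ref k55 k7 [(z1,[z1,z2,y1]),(z1,[y1,y2,y1,y2,z2])],.ref k3 k1 [(z1,[y1,y1,z1,z0,z1]),(z1,[z1,
    z1,z0,z1,y1])],.contra [y1,y1,z1,y1,z1],.contra [z1,z0,y1,y1],.contra [y1,z0,z0,y1,z1],.contra [y1,z0,z0,y1,z1],
    .contra [z1,z2,y1],.contra [y1,y1,z0,y1,z1],.contra [y1,z0,z0,y1,z1],.ref k100 k4 [(z1,[y1,y2,y1,y5,z2]),(z1,[z0,
    z0,z0,z1]),(z1,[z1,z0,y1,y1]),(z1,[z0,z1,z0,z1])],.contra [y1,z2,z0,z2],.contra [z1,y1,y1,y3,z1],.ref k3 k1 [(z1,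
    [z1]),(z1,[y1,z0,z1,z1])],.ref k55 k4 [(z1,[z1]),(z1,[y1,z0,y2,y2,z2])],.contra [z1,z0,z0,y1],.ref k55 k7 [(z1,
    [y1,z1,z0,z0,z1]),(z1,[z1,y1,y2,y2,z1])],.ref k0 k0 [(z1,[z1])],.contra [z1],.ref k93 k5 [(z1,[z1]),(z1,[z0,z0,z0,
    z1]),(z1,[z0,z0,z1])],.ref k99 k5 [(z2,[z1]),(z1,[z0,z0,z0,z1]),(z1,[z0,z0,z1])],.ref k3 k1 [(z2,[z1,z1,z1,z3,
    y1]),(z2,[y1,y1,z1,y1,z1])],.ref k87 k1 [(z1,[y1,z0,z0,z1]),(z1,[z1,z0,z1]),(z1,[y1,z0,y1,y1,z1])],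
    .ref k102 k5 [(z1,[z1,z1,z1,z1,y1]),(z1,[z0,z0,z0,z1]),(z1,[z0,z0,z1]),(z1,[z0,z1])],.contra [y1,z0,y1,y1,z1],
    .contra [y1,y1,y1,y1,z1],.contra [y1,z0,y1,y1,z1],.contra [y1,z1,y1,y1,z1],.ref k101 k4 [(z1,[y1,y2,y2,y6,z2]),
    (z1,[z0,z0,z0,z1]),(z1,[z1,z1,z1,z3,y1]),(z1,[z0,z1,z0,z1])],.contra [z1,z2],.ref k55 k7 [(z1,[z1,z2,z1]),(z1,[y1,
    y2,y3,y2,z2])],.contra [y1,y1,y1,y1,z1],.contra [y1,z0,y1,y1,z1],.ref k100 k4 [(z1,[y1,y2,y2,y5,z2]),(z1,[z0,z0,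
    z0,z1]),(z1,[z1,z0,z0,y1]),(z1,[z0,z1,z0,z1])],.contra [z1]]),
    .geo true z1 k5 [(z0,z2),(z2,y2),(z1,y2),(z0,z2),(z1,y1),(z0,z1)] [(z1,[z1]),(z1,[z0,z1]),(z1,[z0,z0,z1]),(z1,[z0,z0,
    z0,z1]),(z1,[y1,y1,y1,y1,z1]),(z1,
    [])] z0 (Int.ofNat (nat_lit 524288)) (.s (.s (.s (.s (.l k2) (.l k1)) (.l k1)) (.l k1)) (.s (.s (.l k1) (.l k1)) (.s (.l k1) (.l k1)))) [⟨z0,
    z1,[[k0,k1],[k2,k3],[k4,k5]],.bnd k0⟩],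
    .geo true z1 k5 [(z0,z2),(z2,y2),(z0,z3),(z0,z2),(z2,y6),(z0,z1)] [(z1,[z1]),(z1,[z0,z1]),(z1,[z0,z0,z1]),(z1,[z0,z0,
    z0,z1]),(z1,[y1,y1,y1,y1,z1]),(z1,
    [])] z0 (Int.ofNat (nat_lit 349526)) (.s (.s (.s (.s (.l k2) (.l k1)) (.l k1)) (.l k1)) (.s (.l k1) (.l k1))) [⟨z0,
    z1,[[k0,k1],[k2,k3],[k4,k5]],.bnd k0⟩],
    .old (.lp [(nat_lit 3867441),(nat_lit 3595086),(nat_lit 4648192),(nat_lit 3631400),(nat_lit 3123004),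
    (nat_lit 2878020)] [(nat_lit 980478),(nat_lit 526553),(nat_lit 889693),(nat_lit 889693),(nat_lit 363140),
    (nat_lit 363140),(nat_lit 1743072),k0,(nat_lit 1125734),(nat_lit 1125734),(nat_lit 1107526),
    (nat_lit 1388926)] k0 [[k0,k0,k0,k0,k0,k0,k0,(nat_lit 236041),k0,k0,k0,(nat_lit 127099)],[k0,k0,k0,
    (nat_lit 290512)],[(nat_lit 290512),k0,k0,k0,k0,(nat_lit 1634130)],[k0,k0,k0,k0,k0,(nat_lit 363140),k0,k0,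
    (nat_lit 817065)],[k0,k0,(nat_lit 363140),(nat_lit 1634130)],[k0,k0,k0,k0,k0,k0,(nat_lit 980478),k0,k0,k0,k0,
    (nat_lit 2088055)],[k0,(nat_lit 236041),k0,k0,k0,k0,k0,k0,k0,(nat_lit 326826)],[k0,k0,k0,k0,(nat_lit 980478)],[k0,
    k0,k0,k0,k0,k0,k0,(nat_lit 326826),k0,k0,(nat_lit 1543345)],[k0,k0,(nat_lit 817065),k0,k0,k0,k0,k0,k0,k0,
    (nat_lit 145256)],[k0,(nat_lit 127099),k0,k0,(nat_lit 2088055)],[k0,k0,k0,k0,k0,k0,k0,k0,(nat_lit 145256),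
    (nat_lit 1543345)]] (nat_lit 10894200) k6
    [[(k8,(nat_lit 2178840)),(k11,(nat_lit 3313737)),(k0,(nat_lit 3867441)),(k3,(nat_lit 4085325)),(k7,
    (nat_lit 4847919)),(k4,(nat_lit 6572834))],[(k6,(nat_lit 2414881)),(k10,(nat_lit 3159369)),(k9,(nat_lit 3268260)),
    (k2,(nat_lit 3504301)),(k1,(nat_lit 3867441)),(k5,(nat_lit 4321366))],[(k6,(nat_lit 2741707)),(k2,
    (nat_lit 3304574)),(k10,(nat_lit 3377253)),(k9,(nat_lit 3595086)),(k1,(nat_lit 4085325)),(k5,(nat_lit 4121639))],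
    [(k4,(nat_lit 2487509)),(k11,(nat_lit 3095853)),(k3,(nat_lit 3304574)),(k0,(nat_lit 3504301)),(k8,
    (nat_lit 4176110)),(k7,(nat_lit 4847919))],[(k11,(nat_lit 2805341)),(k8,(nat_lit 3885598)),(k3,(nat_lit 4121639)),
    (k4,(nat_lit 4285052)),(k0,(nat_lit 4321366)),(k7,(nat_lit 6645462))],[(k2,(nat_lit 2487509)),(k9,
    (nat_lit 3885598)),(k10,(nat_lit 3903806)),(k6,(nat_lit 4248738)),(k5,(nat_lit 4285052)),(k1,(nat_lit 6572834))],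
    [(k10,(nat_lit 2178891)),(k9,(nat_lit 3268260)),(k6,(nat_lit 3631400)),(k1,(nat_lit 4847919)),(k2,
    (nat_lit 4847919)),(k5,(nat_lit 6645462))],[(k8,(nat_lit 2178840)),(k11,(nat_lit 2242474)),(k0,(nat_lit 2414881)),
    (k3,(nat_lit 2741707)),(k7,(nat_lit 3631400)),(k4,(nat_lit 4248738))],[(k8,(nat_lit 3123004)),(k11,
    (nat_lit 3186638)),(k0,(nat_lit 3268260)),(k7,(nat_lit 3268260)),(k3,(nat_lit 3595086)),(k4,(nat_lit 3885598))],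
    [(k1,(nat_lit 2178840)),(k6,(nat_lit 2178840)),(k9,(nat_lit 3123004)),(k10,(nat_lit 3286468)),(k5,
    (nat_lit 3885598)),(k2,(nat_lit 4176110))],[(k6,(nat_lit 2242474)),(k5,(nat_lit 2805341)),(k2,(nat_lit 3095853)),
    (k9,(nat_lit 3186638)),(k1,(nat_lit 3313737)),(k10,(nat_lit 4421365))],[(k7,(nat_lit 2178891)),(k0,
    (nat_lit 3159369)),(k8,(nat_lit 3286468)),(k3,(nat_lit 3377253)),(k4,(nat_lit 3903806)),(k11,(nat_lit 4421365))]]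
    [] k0
    [[k2,k0,k0,k0,k0,k0],[k2,k0,k0,k0,k1,k0],[k2,k0,k0,k0,k0,k1],[k1,k1,k0,k0,k0,k0],[k1,k1,k0,k0,k0,k1],[k1,k0,k0,k1,
    k0,k0],[k1,k0,k0,k1,k1,k0],[k1,k0,k0,k1,k0,k1],[k1,k0,k0,k0,k1,k0],[k1,k1,k0,k0,k1,k0],[k1,k0,k1,k0,k1,k0],[k1,k0,
    k0,k1,k1,k1],[k1,k0,k0,k0,k2,k0],[k1,k0,k0,k0,k1,k1],[k1,k0,k0,k0,k0,k1],[k0,k2,k0,k0,k0,k0],[k0,k3,k0,k0,k0,k0],
    [k0,k2,k1,k0,k0,k0],[k0,k2,k0,k0,k0,k1],[k0,k1,k1,k0,k0,k0],[k0,k1,k0,k1,k0,k0],[k0,k1,k0,k1,k1,k0],[k0,k1,k0,k1,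
    k0,k1],[k0,k1,k1,k1,k0,k1],[k0,k1,k0,k0,k1,k0],[k0,k1,k1,k0,k1,k0],[k0,k1,k0,k0,k1,k1],[k0,k1,k0,k0,k0,k1],[k0,k1,
    k1,k0,k0,k1],[k0,k0,k2,k0,k0,k0],[k0,k0,k1,k0,k1,k0],[k0,k0,k1,k0,k0,k1],[k0,k0,k1,k1,k0,k1],[k0,k0,k1,k0,k1,k1],
    [k0,k0,k0,k2,k0,k0],[k0,k0,k0,k2,k1,k0],[k0,k0,k0,k2,k0,k1],[k0,k0,k0,k1,k1,k0],[k0,k0,k0,k2,k1,k1],[k0,k0,k0,k1,
    k2,k0],[k0,k0,k0,k1,k1,k1],[k0,k0,k0,k1,k0,k1],[k0,k0,k0,k2,k0,k2],[k0,k0,k0,k1,k2,k1],[k0,k0,k0,k1,k0,k2],[k0,k0,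
    k0,k0,k2,k0],[k0,k0,k0,k0,k3,k0],[k0,k0,k0,k0,k2,k1],[k0,k0,k0,k0,k1,k1],[k0,k0,k0,k0,k0,k2]]
    [.contra [z1],.ref k76 k5 [(z1,[z1,y4,y2,y2,z2]),(z1,[y1,z2,z0,z2]),(z1,[y1,z2,z2])],.ref k55 k11 [(z1,[y2,z4,z2,
    z1]),(z1,[z2,y2,z0,y1])],.contra [y1,z1,z1],.contra [y2,z3,z2],.contra [z1,z2,z1,z1,y1],.ref k76 k5 [(z1,[z1,y2,
    y1,y1,z1]),(z1,[y1,z0,y1,z1,z1]),(z1,[y1,z0,z1,y1,z1])],.ref k55 k11 [(z1,[y2,z0,z0,y1,z2]),(z1,[z2,z2,z2,z1,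
    y2])],.contra [y1,z1,z1],.contra [y1,z1,z1],.contra [z2,y1,z0,y2],.ref k3 k1 [(z1,[z0,y1,y1,z0,z1]),(z1,[y1,z1,
    z1])],.contra [z1,z1],.contra [y1,z1,z1],.contra [y2,z3,z2],.contra [z1],.ref k93 k8 [(z1,[z1]),(z1,[z0,z1,z0,
    z1]),(z1,[z0,y2,y1,y1,z1])],.ref k55 k11 [(z1,[z1]),(z1,[y1,z2,z2])],.ref k105 k5 [(z1,[z0,y1,y1,y1,z1]),(z1,[z0,
    z0,z0,z1]),(z1,[z1,z0,y1]),(z1,[z0,z1])],.ref k3 k1 [(z1,[z0,y1,y1,z0,z1]),(z1,[z1,z1,z1,z0,y1])],.contra [y1,y1,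
    z0,y1,z1],.contra [y1,y1,z0,y1,z1],.contra [y2,y1,z0,y2,z2],.contra [z1,z1,z1,z0,y1],.contra [y1,z0,z1],
    .ref k55 k11 [(z1,[z2,z0,z0,y1]),(z1,[y2,z2,z2,z1])],.contra [y1,z1,z1],.contra [y2,z3,z2],.ref k76 k5 [(z1,[y1,
    y2,y1,y1,z2]),(z1,[z1,z0,y1,z1]),(z1,[z1,z0,z1,y1])],.contra [y1,z2,z0,z2],.contra [y2,z1,z0,z2],.ref k0 k0 [(z1,
    [z1])],.contra [z1,z1,z1,z0,y1],.ref k82 k5 [(z1,[y1,y1,y1,z0,z1]),(z1,[z1]),(z1,[z1,z0,z1,y1])],.contra [z1,z4,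
    z2,z2,y2],.ref k76 k5 [(z1,[z1]),(z1,[y1,y2,y2,z0,z2]),(z1,[y1,y2,z0,y2,z2])],.ref k55 k11 [(z1,[y2,y4,y2,y3,z4]),
    (z1,[z2,z6,z4,z3,y4])],.contra [y1,y1,z0,y1,z1],.ref k3 k1 [(z1,[z0,y1,y1,z0,z1]),(z1,[y1,y1,z0,y1,z1])],
    .contra [z1,z3,z1,z1,y1],.contra [y1,y1,z0,y1,z1],.contra [y2,y1,z0,y2,z2],.ref k87 k10 [(z1,[z1,z2,z0,z3,y2]),
    (z1,[y1,y3,y1,y3,z3]),(z1,[z1,z2,z1,z2,y2])],.ref k55 k11 [(z1,[y2,y2,z0,y1,z2]),(z1,[z2,z4,z2,z1,y2])],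
    .ref k104 k5 [(z1,[z0,y1,y1,y1,z1]),(z1,[z0,z0,z0,z1]),(z2,[y1,y1,z1,y1,z1]),(z1,[z0,z1])],.contra [z1],
    .contra [y1,z0,z1],.contra [y2,z1,z2],.contra [y1,z1,z1],.contra [z1]]),
    .geo true z1 k5 [(z0,z3),(z2,y3),(z0,z2),(z0,z3),(z2,y6),(z0,z1)] [(z1,[z1]),(z1,[z0,z1]),(z1,[z0,z0,z1]),(z1,[z0,z0,
    z0,z1]),(z1,[y1,y1,y1,y1,z1]),(z1,
    [])] z0 (Int.ofNat (nat_lit 349526)) (.s (.s (.s (.s (.s (.l k2) (.l k1)) (.l k1)) (.l k1)) (.s (.l k1) (.l k1))) (.s (.l k1) (.l k1))) [⟨z0,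
    z1,[[k0,k1],[k2,k3],[k4,k5]],.bnd k0⟩]]

noncomputable def cU6_2_n1_2 : List XN :=
  [.geo true z1 k5 [(z0,z3),(z2,y3),(z0,z4),(z0,z3),(z2,y8),(z0,z1)] [(z1,[z1]),(z1,[z0,z1]),(z1,[z0,z0,z1]),(z1,[z0,z0,
    z0,z1]),(z1,[y1,y1,y1,y1,z1]),(z1,
    [])] z0 (Int.ofNat (nat_lit 262144)) (.s (.s (.s (.s (.s (.l k2) (.l k1)) (.l k1)) (.l k1)) (.l k1)) (.s (.l k1) (.l k1))) [⟨z0,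
    z1,[[k0,k1],[k2,k3],[k4,k5]],.bnd k0⟩],
    .geo true z1 k5 [(y4,z6),(z6,y6),(z2,y2),(y6,z7),(z6,y6),(z0,z1)] [(z1,[z1]),(z1,[z0,z1]),(z1,[z0,z0,z1]),(z1,[z0,z0,
    z0,z1]),(z1,[y1,y1,y1,y1,z1]),(z1,
    [])] (Int.ofNat (nat_lit 898779)) (Int.ofNat (nat_lit 1048576)) (.s (.l k1) (.s (.l k1) (.s (.l k1) (.l k2)))) [⟨z1,
    z1,[[k0,k1],[k2,k4],[k3,k5]],.bnd k0⟩],
    .geo true z1 k5 [(z0,z3),(z2,y3),(z0,z1),(z0,z3),(z2,y5),(z0,z1)] [(z1,[z1]),(z1,[z0,z1]),(z1,[z0,z0,z1]),(z1,[z0,z0,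
    z0,z1]),(z1,[y1,y1,y1,y1,z1]),(z1,
    [])] z0 (Int.ofNat (nat_lit 419431)) (.s (.s (.s (.s (.s (.l k2) (.l k1)) (.l k1)) (.l k1)) (.s (.l k1) (.l k1))) (.s (.s (.l k1) (.l k1)) (.l k1))) [⟨z0,
    z1,[[k0,k1],[k2,k3],[k4,k5]],.bnd k0⟩],
    .old (.lp [(nat_lit 1256),(nat_lit 788),(nat_lit 1506),(nat_lit 1268),(nat_lit 760),(nat_lit 1128)] [k125,k125,
    (nat_lit 359),(nat_lit 359),k0,k0,k119,k119,(nat_lit 373),(nat_lit 373),k189,k189] k0 [[k0,k0,k0,k0,k0,k0,k0,k160,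
    k0,k0,k64,(nat_lit 208)],[k0,k0,k42,k98],[k98,k0,k0,k0,k0,(nat_lit 398)],[k42,k0,k0,k0,k0,k0,k0,k0,(nat_lit 272)],
    [k0,k0,k0,(nat_lit 398),k0,k0,(nat_lit 412),k0,k0,k0,k0,k6],[k0,k0,k0,k0,k0,k0,k188,k0,k0,k0,k0,(nat_lit 500)],
    [k0,k160],[k0,k0,k0,k0,k188,(nat_lit 412)],[k0,k0,k0,k0,k0,k0,k0,k0,k0,k0,(nat_lit 336)],[k0,k0,(nat_lit 272),k0,
    k0,k0,k0,k0,k0,k0,k8],[k0,(nat_lit 208),k0,k0,(nat_lit 500),k6],[k0,k64,k0,k0,k0,k0,k0,k0,k8,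
    (nat_lit 336)]] (nat_lit 3360) k6
    [[(k8,(nat_lit 672)),(k11,(nat_lit 1184)),(k0,(nat_lit 1192)),(k3,(nat_lit 1230)),(k7,(nat_lit 1268)),(k4,
    (nat_lit 1881))],[(k10,(nat_lit 984)),(k9,(nat_lit 1008)),(k2,(nat_lit 1064)),(k6,(nat_lit 1102)),(k1,
    (nat_lit 1192)),(k5,(nat_lit 1479))],[(k2,(nat_lit 690)),(k9,(nat_lit 934)),(k10,(nat_lit 1022)),(k6,
    (nat_lit 1028)),(k5,(nat_lit 1105)),(k1,(nat_lit 1230))],[(k3,(nat_lit 690)),(k4,(nat_lit 749)),(k11,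
    (nat_lit 958)),(k7,(nat_lit 1028)),(k8,(nat_lit 1046)),(k0,(nat_lit 1064))],[(k11,(nat_lit 1045)),(k3,
    (nat_lit 1105)),(k8,(nat_lit 1133)),(k0,(nat_lit 1479)),(k4,(nat_lit 1506)),(k7,(nat_lit 1785))],[(k9,
    (nat_lit 721)),(k2,(nat_lit 749)),(k10,(nat_lit 1311)),(k5,(nat_lit 1506)),(k6,(nat_lit 1575)),(k1,
    (nat_lit 1881))],[(k10,(nat_lit 698)),(k9,(nat_lit 826)),(k2,(nat_lit 1028)),(k1,(nat_lit 1268)),(k6,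
    (nat_lit 1680)),(k5,(nat_lit 1785))],[(k8,(nat_lit 1014)),(k3,(nat_lit 1028)),(k0,(nat_lit 1102)),(k11,
    (nat_lit 1198)),(k4,(nat_lit 1575)),(k7,(nat_lit 1680))],[(k4,(nat_lit 721)),(k8,(nat_lit 760)),(k7,
    (nat_lit 826)),(k3,(nat_lit 934)),(k11,(nat_lit 944)),(k0,(nat_lit 1008))],[(k1,(nat_lit 672)),(k9,(nat_lit 760)),
    (k10,(nat_lit 952)),(k6,(nat_lit 1014)),(k2,(nat_lit 1046)),(k5,(nat_lit 1133))],[(k9,(nat_lit 944)),(k2,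
    (nat_lit 958)),(k5,(nat_lit 1045)),(k1,(nat_lit 1184)),(k6,(nat_lit 1198)),(k10,(nat_lit 1464))],[(k7,
    (nat_lit 698)),(k8,(nat_lit 952)),(k0,(nat_lit 984)),(k3,(nat_lit 1022)),(k4,(nat_lit 1311)),(k11,
    (nat_lit 1464))]]
    [] k0
    [[k2,k0,k0,k0,k0,k0],[k2,k0,k0,k0,k1,k0],[k1,k1,k0,k0,k0,k0],[k1,k2,k0,k0,k0,k0],[k1,k1,k0,k0,k1,k0],[k1,k1,k0,k0,
    k0,k1],[k1,k0,k0,k1,k0,k0],[k1,k0,k0,k1,k1,k0],[k1,k0,k0,k0,k1,k0],[k1,k0,k1,k0,k1,k0],[k1,k0,k0,k0,k2,k0],[k1,k0,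
    k0,k0,k3,k0],[k1,k0,k0,k0,k1,k1],[k1,k0,k0,k0,k0,k1],[k1,k0,k0,k1,k0,k1],[k0,k2,k0,k0,k0,k0],[k0,k3,k0,k0,k0,k0],
    [k0,k4,k0,k0,k0,k0],[k0,k3,k1,k0,k0,k0],[k0,k2,k1,k0,k0,k0],[k0,k2,k0,k1,k0,k0],[k0,k2,k0,k0,k1,k0],[k0,k2,k0,k0,
    k0,k1],[k0,k1,k1,k0,k0,k0],[k0,k1,k1,k0,k1,k0],[k0,k1,k0,k1,k0,k0],[k0,k1,k0,k1,k1,k0],[k0,k1,k0,k1,k0,k1],[k0,k1,
    k0,k0,k1,k0],[k0,k1,k0,k0,k2,k0],[k0,k1,k0,k0,k1,k1],[k0,k1,k0,k0,k0,k1],[k0,k1,k1,k0,k0,k1],[k0,k0,k2,k0,k0,k0],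
    [k0,k0,k1,k0,k1,k0],[k0,k0,k1,k0,k2,k0],[k0,k0,k1,k0,k0,k1],[k0,k0,k1,k1,k0,k1],[k0,k0,k1,k0,k1,k1],[k0,k0,k0,k1,
    k1,k0],[k0,k0,k0,k1,k2,k0],[k0,k0,k0,k1,k1,k1],[k0,k0,k0,k1,k0,k1],[k0,k0,k0,k0,k2,k0],[k0,k0,k0,k0,k3,k0],[k0,k0,
    k0,k0,k4,k0],[k0,k0,k0,k0,k2,k1],[k0,k0,k0,k0,k1,k1],[k0,k0,k0,k0,k0,k2]]
    [.contra [z1],.ref k76 k5 [(z1,[z1,y4,y2,y2,z2]),(z1,[y1,z2,z0,z2]),(z1,[y1,z2,z2])],.contra [y1,z1,z1],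
    .ref k87 k10 [(z1,[y1,z1,z0,z1]),(z1,[z1,y2,y1,y1,z1]),(z1,[y1,z1,z1])],.contra [y1,z1,z1],.contra [y3,z4,z3],
    .contra [z1,z2,z1,z1,y1],.ref k76 k5 [(z1,[z1,y2,y1,y1,z1]),(z1,[y1,z0,y1,z1,z1]),(z1,[y1,z0,z1,y1,z1])],
    .contra [y1,z1,z1],.contra [z3,y2,z0,y3],.ref k55 k3 [(z1,[z1,y2,y1,y1,z1]),(z1,[y1,z4,z3,z1,y1])],.contra [z1,
    z1],.contra [y1,z1,z1],.contra [y3,z4,z3],.ref k107 k5 [(z1,[z0,y1,y1,y1,z1]),(z1,[z0,z0,z0,z1]),(z1,[y1,z0,z0,y1,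
    z1]),(z1,[z0,z1])],.contra [z1],.ref k93 k8 [(z1,[z1]),(z1,[z0,z1,z0,z1]),(z1,[z0,y2,y1,y1,z1])],.ref k99 k8 [(z2,
    [z1]),(z1,[z0,z1,z0,z1]),(z1,[z0,y2,y1,y1,z1])],.ref k110 k5 [(z1,[z0,y1,y1,y1,z1]),(z1,[z0,z0,z0,z1]),(z3,[z1,z0,
    z0,y1]),(z1,[z0,z1])],.ref k55 k11 [(z1,[z1]),(z1,[y1,z2,z2])],.ref k87 k10 [(z1,[y1,y1,y1,z0,z1]),(z1,[z1]),(z1,
    [y1,y1,z0,y1,z1])],.ref k109 k10 [(z1,[y3,z0,z0,z1]),(z1,[z3,y1,y1,y1,z1]),(z1,[z1]),(z1,[y4,z0,z1])],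
    .ref k108 k5 [(z1,[z0,y1,y1,y1,z1]),(z1,[z0,z0,z0,z1]),(z1,[z1,z0,y1]),(z1,[z0,z1])],.ref k3 k1 [(z1,[z0,y1,y1,z0,
    z1]),(z1,[z1,z1,z1,z0,y1])],.ref k107 k5 [(z1,[z0,y1,y1,y1,z1]),(z1,[z0,z0,z0,z1]),(z1,[z1,z0,z0,y1]),(z1,[z0,
    z1])],.contra [y1,y1,z0,y1,z1],.contra [y1,y1,z0,y1,z1],.contra [y3,y2,z0,y3,z3],.contra [y1,z0,z1],.contra [y1,
    z0,z1],.contra [y1,z1,z1],.contra [y3,z4,z3],.ref k76 k5 [(z1,[y1,y2,y1,y1,z2]),(z1,[z1,z0,y1,z1]),(z1,[z1,z0,z1,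
    y1])],.contra [y1,z2,z0,z2],.contra [y3,z2,z0,z3],.contra [y3,z1,z0,z3],.ref k0 k0 [(z1,[z1])],.contra [z1,z1,z1,
    z0,y1],.ref k82 k5 [(z1,[y1,y1,y1,z0,z1]),(z1,[z1]),(z1,[z1,z0,z1,y1])],.contra [y1,y1,z0,y1,z1],.ref k55 k3 [(z1,
    [z1]),(z1,[y1,z2,z2])],.contra [y1,y1,z0,y1,z1],.contra [y3,y2,z0,y3,z3],.contra [z1],.contra [y1,z0,z0,z1],
    .contra [y1,z0,z1],.contra [y3,z2,z3],.contra [y1,z1,z1],.contra [z1]]),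
    .geo true z1 k5 [(y2,z4),(z2,y2),(z0,z1),(z2,y3),(z2,y1),(z0,z1)] [(z1,[z1]),(z1,[z0,z1]),(z1,[z0,z0,z1]),(z1,[z0,z0,
    z0,z1]),(z1,[y1,y1,y1,y1,z1]),(z1,
    [])] (Int.ofNat (nat_lit 524288)) (Int.ofNat (nat_lit 699051)) (.s (.l k1) (.s (.l k1) (.l k1))) [],
    .geo true z1 k5 [(y1,z2),(z2,y2),(z0,z1),(z1,y1),(z2,y1),(z0,z1)] [(z1,[z1]),(z1,[z0,z1]),(z1,[z0,z0,z1]),(z1,[z0,z0,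
    z0,z1]),(z1,[y1,y1,y1,y1,z1]),(z1,
    [])] (Int.ofNat (nat_lit 524288)) (Int.ofNat (nat_lit 1048576)) (.s (.s (.l k1) (.l k1)) (.s (.l k1) (.l k1))) [],
    .geo true z5 k5 [(z2,z0),(z4,z0),(z4,y5),(z6,z0),(z4,z0),(z0,z5)] [(z1,[z1]),(z1,[z0,z1]),(z1,[z0,z0,z1]),(z1,[z0,z0,
    z0,z1]),(z1,[y1,y1,y1,y1,z5]),(z1,[])] z0 (Int.ofNat (nat_lit 838861)) (.s (.l k1) (.l k1)) [],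
    .geo true z1 k5 [(y2,z4),(z2,y1),(z0,z1),(z2,y3),(z2,y2),(z0,z1)] [(z1,[z1]),(z1,[z0,z1]),(z1,[z0,z0,z1]),(z1,[z0,z0,
    z0,z1]),(z1,[y1,y1,y1,y1,z1]),(z1,
    [])] (Int.ofNat (nat_lit 524288)) (Int.ofNat (nat_lit 699051)) (.s (.s (.l k1) (.l k1)) (.l k1)) [],
    .old (.lp [(nat_lit 2994),(nat_lit 2358),(nat_lit 3472),(nat_lit 3440),(nat_lit 1458),(nat_lit 1630)] [(nat_lit 239),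
    (nat_lit 239),(nat_lit 557),(nat_lit 557),k0,k0,k16,k16,(nat_lit 1007),(nat_lit 1007),(nat_lit 921),
    (nat_lit 921)] k0 [[k0,k0,k0,k0,k0,k0,k0,k0,k0,k0,(nat_lit 306)],[k0,k0,k0,(nat_lit 822),k0,k0,k0,k0,k0,k0,
    (nat_lit 360)],[(nat_lit 822),k0,k0,k0,k0,k0,k0,k0,(nat_lit 392)],[k0,k0,k0,k0,k0,(nat_lit 346),k0,k0,
    (nat_lit 698)],[k0,k0,(nat_lit 346),k0,k0,k0,(nat_lit 306)],[k0,k0,k0,k0,k0,k0,(nat_lit 768),k0,k0,k0,k0,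
    (nat_lit 392)],[k0,k0,k0,k0,k0,k0,k0,k0,(nat_lit 744),k196],[k0,k0,k0,k0,(nat_lit 768),(nat_lit 306)],[k0,k0,k0,
    k0,k0,k0,k0,k196,k0,k0,(nat_lit 612),k8],[k0,k0,(nat_lit 698),(nat_lit 392),k0,k0,k0,(nat_lit 744)],[k0,k0,k0,k0,
    (nat_lit 392),k0,k0,k0,k0,k8],[(nat_lit 360),(nat_lit 306),k0,k0,k0,k0,k0,k0,k0,(nat_lit 612)]] (nat_lit 7680) k6
    [[(k8,(nat_lit 1614)),(k3,(nat_lit 2316)),(k11,(nat_lit 2320)),(k0,(nat_lit 2688)),(k7,(nat_lit 3217)),(k4,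
    (nat_lit 3625))],[(k9,(nat_lit 2226)),(k10,(nat_lit 2672)),(k2,(nat_lit 2676)),(k1,(nat_lit 2688)),(k6,
    (nat_lit 3217)),(k5,(nat_lit 4055))],[(k2,(nat_lit 1536)),(k9,(nat_lit 1908)),(k10,(nat_lit 2300)),(k1,
    (nat_lit 2316)),(k6,(nat_lit 2899)),(k5,(nat_lit 2915))],[(k3,(nat_lit 1536)),(k11,(nat_lit 1602)),(k8,
    (nat_lit 2606)),(k0,(nat_lit 2676)),(k4,(nat_lit 2915)),(k7,(nat_lit 3245))],[(k11,(nat_lit 1853)),(k8,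
    (nat_lit 2857)),(k3,(nat_lit 2915)),(k4,(nat_lit 3126)),(k7,(nat_lit 3456)),(k0,(nat_lit 4055))],[(k9,
    (nat_lit 2159)),(k10,(nat_lit 2551)),(k2,(nat_lit 2915)),(k5,(nat_lit 3126)),(k1,(nat_lit 3625)),(k6,
    (nat_lit 4224))],[(k9,(nat_lit 1681)),(k10,(nat_lit 2143)),(k1,(nat_lit 3217)),(k2,(nat_lit 3245)),(k5,
    (nat_lit 3456)),(k6,(nat_lit 3746))],[(k11,(nat_lit 1791)),(k8,(nat_lit 2253)),(k3,(nat_lit 2899)),(k0,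
    (nat_lit 3217)),(k7,(nat_lit 3746)),(k4,(nat_lit 4224))],[(k7,(nat_lit 1681)),(k11,(nat_lit 1740)),(k3,
    (nat_lit 1908)),(k4,(nat_lit 2159)),(k8,(nat_lit 2202)),(k0,(nat_lit 2226))],[(k10,(nat_lit 1536)),(k1,
    (nat_lit 1614)),(k9,(nat_lit 2202)),(k6,(nat_lit 2253)),(k2,(nat_lit 2606)),(k5,(nat_lit 2857))],[(k2,
    (nat_lit 1602)),(k9,(nat_lit 1740)),(k6,(nat_lit 1791)),(k5,(nat_lit 1853)),(k10,(nat_lit 2242)),(k1,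
    (nat_lit 2320))],[(k8,(nat_lit 1536)),(k7,(nat_lit 2143)),(k11,(nat_lit 2242)),(k3,(nat_lit 2300)),(k4,
    (nat_lit 2551)),(k0,(nat_lit 2672))]]
    [] k0
    [[k2,k0,k0,k0,k0,k0],[k2,k0,k0,k0,k1,k0],[k1,k1,k0,k0,k0,k0],[k1,k2,k0,k0,k0,k0],[k1,k1,k0,k0,k1,k0],[k1,k1,k0,k0,
    k0,k1],[k1,k0,k0,k1,k0,k0],[k1,k0,k0,k0,k1,k0],[k1,k0,k0,k1,k1,k0],[k1,k0,k0,k0,k2,k0],[k1,k0,k0,k0,k1,k1],[k1,k0,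
    k0,k0,k2,k1],[k1,k0,k0,k0,k0,k1],[k1,k0,k0,k0,k0,k2],[k0,k2,k0,k0,k0,k0],[k0,k3,k0,k0,k0,k0],[k0,k4,k0,k0,k0,k0],
    [k0,k3,k0,k0,k1,k0],[k0,k3,k0,k0,k0,k1],[k0,k2,k1,k0,k0,k0],[k0,k2,k0,k0,k1,k0],[k0,k2,k0,k0,k1,k1],[k0,k2,k0,k0,
    k0,k1],[k0,k1,k1,k0,k0,k0],[k0,k1,k1,k0,k0,k1],[k0,k1,k0,k1,k0,k0],[k0,k1,k0,k1,k1,k0],[k0,k1,k0,k1,k0,k1],[k0,k1,
    k0,k0,k1,k0],[k0,k1,k0,k0,k2,k0],[k0,k1,k0,k0,k2,k1],[k0,k1,k0,k0,k1,k1],[k0,k1,k0,k0,k1,k2],[k0,k1,k0,k0,k0,k1],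
    [k0,k1,k0,k0,k0,k2],[k0,k0,k2,k0,k0,k0],[k0,k0,k2,k0,k0,k1],[k0,k0,k1,k0,k1,k0],[k0,k0,k1,k0,k2,k0],[k0,k0,k1,k0,
    k1,k1],[k0,k0,k1,k0,k0,k1],[k0,k0,k1,k0,k0,k2],[k0,k0,k0,k2,k0,k0],[k0,k0,k0,k1,k1,k0],[k0,k0,k0,k1,k2,k0],[k0,k0,
    k0,k1,k2,k1],[k0,k0,k0,k1,k1,k1],[k0,k0,k0,k1,k1,k2],[k0,k0,k0,k1,k0,k1],[k0,k0,k0,k1,k0,k2],[k0,k0,k0,k0,k2,k0],
    [k0,k0,k0,k0,k3,k0],[k0,k0,k0,k0,k2,k1],[k0,k0,k0,k0,k1,k1],[k0,k0,k0,k0,k2,k2],[k0,k0,k0,k0,k1,k2],[k0,k0,k0,k0,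
    k0,k2],[k0,k0,k0,k0,k0,k3]]
    [.contra [z1],.ref k68 k8 [(z2,[y2,z3,z1]),(z2,[z0,y1,z0,z1]),(z2,[z0,z0,y1,y1,z2])],.contra [y2,z1,z1],
    .ref k87 k10 [(z2,[y2,z1,z0,z1]),(z2,[z2,y2,y1,y1,z2]),(z2,[y2,z1,z1])],.contra [z2,z1,y1],.contra [y2,z1,z1],
    .contra [z2,z2,z1,z1,y2],.contra [y2,z1,z1],.ref k68 k8 [(z2,[y2,z1,z0,y1,z2]),(z2,[z0,y1,z0,z1]),(z2,[z0,z0,y1,
    y1,z2])],.ref k55 k3 [(z2,[z2,y2,y1,y1,z2]),(z2,[y2,z4,z3,z1,y2])],.contra [y2,z1,z1],.ref k55 k11 [(z2,[y2,z1,z2,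
    z1]),(z2,[z2,z1,z0,y1])],.contra [y1,z1],.ref k0 k0 [(z2,[z2,y1,z0,z1])],.contra [z1],.ref k93 k8 [(z1,[z1]),(z2,
    [z0,z1,z0,z1]),(z2,[z0,y2,y1,y1,z2])],.ref k99 k8 [(z2,[z1]),(z2,[z0,z1,z0,z1]),(z2,[z0,y2,y1,y1,z2])],
    .ref k87 k10 [(z2,[y2,z0,z1,z1]),(z2,[z2,y1,y2,y1,z2]),(z1,[y1,z0,z1])],.ref k111 k2 [(z2,[z2,z1,y3]),(z1,[y1,z0,
    z2]),(z2,[y2,z0,z3,z1])],.ref k55 k11 [(z1,[z1]),(z1,[y1,z1,z1])],.contra [y1,z0,z1],.contra [y1,z0,z1],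
    .contra [y1,z0,z1],.contra [y2,z0,z1,z1],.ref k68 k8 [(z2,[z2,z1,z0,y1]),(z2,[z0,y1,z0,z1]),(z2,[z0,z0,y1,y1,
    z2])],.contra [y2,y1,z0,y1,z2],.contra [z2,z3,z0,z1,y2],.contra [y2,y1,z0,y1,z2],.contra [y2,z0,z1,z1],
    .contra [y1,z0,z1],.contra [y1,z0,z1],.contra [y2,z1,z1],.ref k0 k0 [(z2,[z2,z0,y1,z1])],.contra [y2,z1,z1],
    .ref k115 k8 [(z1,[z1,y2]),(z2,[z0,z1,z0,z1]),(z2,[z0,y2,y1,y1,z2]),(z2,[y2,z3,z1])],.contra [y1,z1,z0,z1],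
    .contra [y1,z2,z0,z1],.contra [y2,z0,z1,z1],.ref k55 k11 [(z1,[y1,z0,z1,z1]),(z1,[z1,z1,z0,y1])],.ref k82 k5 [(z2,
    [y2,y1,y1,z0,z2]),(z1,[z1]),(z2,[z2,z0,z1,y1])],.ref k0 k0 [(z1,[z1])],.ref k114 k0 [(z1,[z2,z0,z0,y1]),(z2,[y2,
    z5,z0,z1]),(z2,[y2,z0,z5,z1]),(z1,[z1,z0,z0,z2])],.contra [z1,z2,z1,z1,y2],.contra [y2,y1,z0,y1,z2],
    .ref k55 k3 [(z1,[z1]),(z1,[y1,z1,z1])],.ref k55 k11 [(z2,[y2,y1,z1,z0,z2]),(z2,[z2,z3,z1,z0,y2])],.contra [y2,y1,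
    z0,y1,z2],.ref k82 k5 [(z1,[y1,y1,y1,y1,z2]),(z2,[z2,z1,z1,z2,y2]),(z2,[z2,z1,z2,z1,y2])],.contra [y2,z0,y1,y1,
    z2],.ref k0 k0 [(z2,[z2,z1,z1,z2,y2])],.contra [z1],.ref k61 k5 [(z2,[z0,y2,y1,y1,z2]),(z2,[z0,z1,z0,z1]),(z2,[y2,
    z3,z3])],.contra [y1,z0,z1],.contra [y2,z1,z1],.ref k113 k3 [(z2,[z1,z2,z2,z2,y4]),(z1,[z0,y1,y1,y1,z2]),(z2,[z0,
    z2,z1,z1,y2]),(z2,[y1,y1,z0,y1,z2])],.ref k112 k3 [(z1,[z1,z2,z2,z2,y4]),(z1,[z0,y1,y1,y1,z2]),(z2,[z0,z2,z1,z1,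
    y2]),(z2,[y2,y3,y2,y3,z6])],.contra [z1],.ref k0 k0 [(z2,[z1,z0,z0,z1])]]),
    .old (.lp [(nat_lit 394),(nat_lit 398),(nat_lit 654),(nat_lit 418),(nat_lit 586),(nat_lit 424)] [(nat_lit 238),
    (nat_lit 238),(nat_lit 204),(nat_lit 268),k108,k108,(nat_lit 226),(nat_lit 226),k0,(nat_lit 284),(nat_lit 223),
    (nat_lit 223)] k0 [[k0,k0,(nat_lit 226),k140],[k0,k0,k0,k0,k0,k0,k0,k0,k0,k0,k16,k8],[k0,k140,k0,k0,k0,k0,k0,k0,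
    k142],[k0,(nat_lit 226),k0,k0,(nat_lit 248)],[k0,k0,k0,k0,k0,k0,k0,k38,k0,k0,k0,k10],[k0,k0,(nat_lit 248),k0,k0,
    k0,k0,k58],[k0,k0,k0,k0,k58,k38],[k0,k0,k0,k0,k0,k0,k0,k0,k38],[k0,k0,k0,k0,k0,k0,k0,k0,k0,k0,(nat_lit 344),
    (nat_lit 204)],[k0,k0,k0,k142,k0,k0,k38],[k8,k0,k0,k0,k0,k10,k0,k0,k0,(nat_lit 204)],[k16,k0,k0,k0,k0,k0,k0,k0,k0,
    (nat_lit 344)]] (nat_lit 1440) k6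
    [[(k8,(nat_lit 288)),(k3,(nat_lit 348)),(k0,(nat_lit 402)),(k7,(nat_lit 416)),(k4,(nat_lit 524)),(k11,
    (nat_lit 613))],[(k2,(nat_lit 288)),(k5,(nat_lit 298)),(k9,(nat_lit 348)),(k1,(nat_lit 402)),(k6,(nat_lit 406)),
    (k10,(nat_lit 425))],[(k9,(nat_lit 318)),(k1,(nat_lit 348)),(k10,(nat_lit 371)),(k6,(nat_lit 376)),(k2,
    (nat_lit 624)),(k5,(nat_lit 634))],[(k0,(nat_lit 288)),(k11,(nat_lit 301)),(k7,(nat_lit 440)),(k3,(nat_lit 624)),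
    (k8,(nat_lit 666)),(k4,(nat_lit 806))],[(k7,(nat_lit 288)),(k0,(nat_lit 298)),(k11,(nat_lit 539)),(k3,
    (nat_lit 634)),(k4,(nat_lit 654)),(k8,(nat_lit 904))],[(k6,(nat_lit 498)),(k1,(nat_lit 524)),(k10,(nat_lit 529)),
    (k9,(nat_lit 536)),(k5,(nat_lit 654)),(k2,(nat_lit 806))],[(k5,(nat_lit 288)),(k6,(nat_lit 360)),(k9,
    (nat_lit 398)),(k1,(nat_lit 416)),(k10,(nat_lit 421)),(k2,(nat_lit 440))],[(k7,(nat_lit 360)),(k3,(nat_lit 376)),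
    (k0,(nat_lit 406)),(k11,(nat_lit 421)),(k4,(nat_lit 498)),(k8,(nat_lit 682))],[(k3,(nat_lit 318)),(k11,
    (nat_lit 325)),(k0,(nat_lit 348)),(k7,(nat_lit 398)),(k4,(nat_lit 536)),(k8,(nat_lit 586))],[(k1,(nat_lit 288)),
    (k10,(nat_lit 443)),(k9,(nat_lit 586)),(k2,(nat_lit 666)),(k6,(nat_lit 682)),(k5,(nat_lit 904))],[(k2,
    (nat_lit 301)),(k9,(nat_lit 325)),(k6,(nat_lit 421)),(k5,(nat_lit 539)),(k1,(nat_lit 613)),(k10,(nat_lit 768))],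
    [(k3,(nat_lit 371)),(k7,(nat_lit 421)),(k0,(nat_lit 425)),(k8,(nat_lit 443)),(k4,(nat_lit 529)),(k11,
    (nat_lit 768))]]
    [] k0
    [[k2,k0,k0,k0,k0,k0],[k3,k0,k0,k0,k0,k0],[k2,k1,k0,k0,k0,k0],[k2,k0,k1,k0,k0,k0],[k2,k0,k0,k1,k0,k0],[k2,k0,k0,k0,
    k1,k0],[k2,k1,k0,k0,k1,k0],[k1,k1,k0,k0,k0,k0],[k2,k2,k0,k0,k0,k0],[k1,k2,k0,k0,k0,k0],[k1,k1,k0,k1,k0,k0],[k1,k1,
    k0,k0,k1,k0],[k1,k1,k0,k0,k0,k1],[k1,k2,k0,k0,k0,k1],[k1,k0,k1,k0,k0,k0],[k1,k0,k1,k1,k0,k0],[k1,k0,k0,k1,k0,k0],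
    [k1,k0,k0,k2,k0,k0],[k1,k0,k0,k1,k0,k1],[k1,k0,k0,k0,k1,k0],[k2,k0,k0,k0,k2,k0],[k1,k1,k0,k0,k1,k1],[k1,k0,k1,k0,
    k1,k0],[k1,k0,k0,k1,k1,k0],[k1,k1,k0,k1,k1,k0],[k1,k0,k0,k0,k2,k0],[k1,k0,k0,k0,k1,k1],[k1,k0,k0,k0,k2,k1],[k1,k0,
    k0,k0,k0,k1],[k0,k2,k0,k0,k0,k0],[k0,k2,k0,k0,k0,k1],[k0,k1,k0,k1,k0,k0],[k0,k1,k0,k2,k0,k0],[k0,k1,k0,k1,k0,k1],
    [k0,k1,k0,k0,k1,k0],[k0,k1,k0,k0,k1,k1],[k0,k1,k0,k0,k0,k1],[k0,k2,k0,k0,k0,k2],[k0,k0,k2,k0,k0,k0],[k0,k0,k1,k1,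
    k0,k0],[k0,k0,k1,k2,k0,k0],[k0,k0,k1,k1,k0,k1],[k0,k0,k1,k0,k0,k1],[k0,k0,k0,k2,k0,k0],[k0,k0,k0,k3,k0,k0],[k0,k0,
    k0,k2,k0,k1],[k0,k0,k0,k1,k1,k0],[k0,k0,k0,k1,k1,k1],[k0,k0,k0,k1,k0,k1],[k0,k0,k0,k0,k2,k0],[k0,k0,k0,k0,k2,k1],
    [k0,k0,k0,k0,k1,k1]]
    [.contra [z1],.contra [y1,z1,y2,y2,z2],.ref k55 k7 [(z1,[z1]),(z1,[y1,z0,y2,y2,z2])],.contra [y1,z1,y1,z0,z1],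
    .contra [y1,z1,y1,z0,z1],.ref k55 k7 [(z1,[z1,z0,z1]),(z1,[y1,z0,y3,y2,z2])],.contra [z1,y2,z5],.contra [y1,z0,z0,
    y1,z1],.contra [z1,y2,z4],.contra [z1,y1,z2],.contra [y1,z0,z0,y1,z1],.contra [z1,y1,z3],.contra [y1,z0,z0,y1,z1],
    .contra [z1,z1,y2],.contra [y1,z1,z0,z2],.contra [y1,z1,y1,z0,z1],.contra [y1,z1,y1,z0,z1],.contra [y1,z1,y2,y2,
    z2],.contra [y1,z0,z0,y1,z1],.contra [y1,z0,y1,y1,z1],.contra [z1,y2,z6],.contra [z1,z1,y1],.contra [z1,y1,z2,y1],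
    .contra [y1,z0,y1,y1,z1],.contra [z1,z1,y1],.contra [z1,y1,z4],.contra [y1,z0,y1,y1,z1],.contra [z1,z1],
    .contra [y1,z1,y1,z0,z1],.contra [z1],.contra [z1,z1,y2],.contra [y1,z0,z0,y1,z1],.ref k87 k1 [(z1,[y1,z0,z1,z1]),
    (z1,[z1]),(z1,[y1,z0,z0,y1,z1])],.contra [y1,y1,z2,y1,z1],.contra [z1,z0,z1],.contra [z1,z1,y1],.contra [y1,z0,z0,
    y1,z1],.contra [z1,z1,y2],.contra [y1,z0,z2,z2],.contra [y1,z1,y1,z0,z1],.ref k55 k4 [(z1,[z1]),(z1,[y1,z0,y2,y2,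
    z2])],.contra [y1,y1,z3,z0,z1],.contra [y1,z1,y1,z0,z1],.contra [z1],.ref k93 k5 [(z1,[z1]),(z1,[z0,z0,z0,z1]),
    (z1,[z0,z0,z1])],.contra [y1,z1,y2,y2,z2],.contra [y1,z0,y1,y1,z1],.contra [y1,y1,z1,y1,z1],.contra [y1,z0,z0,y1,
    z1],.contra [z1,z0,z2],.contra [z1,z1],.contra [y1,z0,y1,y1,z1]]),
    .old (.lp [(nat_lit 394),(nat_lit 398),(nat_lit 654),(nat_lit 418),(nat_lit 586),(nat_lit 424)] [(nat_lit 238),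
    (nat_lit 238),(nat_lit 204),(nat_lit 268),k108,k108,(nat_lit 226),(nat_lit 226),k0,(nat_lit 284),(nat_lit 223),
    (nat_lit 223)] k0 [[k0,k0,(nat_lit 226),k140],[k0,k0,k0,k0,k0,k0,k0,k0,k0,k0,k16,k8],[k0,k140,k0,k0,k0,k0,k0,k0,
    k142],[k0,(nat_lit 226),k0,k0,(nat_lit 248)],[k0,k0,k0,k0,k0,k0,k0,k38,k0,k0,k0,k10],[k0,k0,(nat_lit 248),k0,k0,
    k0,k0,k58],[k0,k0,k0,k0,k58,k38],[k0,k0,k0,k0,k0,k0,k0,k0,k38],[k0,k0,k0,k0,k0,k0,k0,k0,k0,k0,(nat_lit 344),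
    (nat_lit 204)],[k0,k0,k0,k142,k0,k0,k38],[k8,k0,k0,k0,k0,k10,k0,k0,k0,(nat_lit 204)],[k16,k0,k0,k0,k0,k0,k0,k0,k0,
    (nat_lit 344)]] (nat_lit 1440) k6
    [[(k8,(nat_lit 288)),(k3,(nat_lit 348)),(k0,(nat_lit 402)),(k7,(nat_lit 416)),(k4,(nat_lit 524)),(k11,
    (nat_lit 613))],[(k2,(nat_lit 288)),(k5,(nat_lit 298)),(k9,(nat_lit 348)),(k1,(nat_lit 402)),(k6,(nat_lit 406)),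
    (k10,(nat_lit 425))],[(k9,(nat_lit 318)),(k1,(nat_lit 348)),(k10,(nat_lit 371)),(k6,(nat_lit 376)),(k2,
    (nat_lit 624)),(k5,(nat_lit 634))],[(k0,(nat_lit 288)),(k11,(nat_lit 301)),(k7,(nat_lit 440)),(k3,(nat_lit 624)),
    (k8,(nat_lit 666)),(k4,(nat_lit 806))],[(k7,(nat_lit 288)),(k0,(nat_lit 298)),(k11,(nat_lit 539)),(k3,
    (nat_lit 634)),(k4,(nat_lit 654)),(k8,(nat_lit 904))],[(k6,(nat_lit 498)),(k1,(nat_lit 524)),(k10,(nat_lit 529)),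
    (k9,(nat_lit 536)),(k5,(nat_lit 654)),(k2,(nat_lit 806))],[(k5,(nat_lit 288)),(k6,(nat_lit 360)),(k9,
    (nat_lit 398)),(k1,(nat_lit 416)),(k10,(nat_lit 421)),(k2,(nat_lit 440))],[(k7,(nat_lit 360)),(k3,(nat_lit 376)),
    (k0,(nat_lit 406)),(k11,(nat_lit 421)),(k4,(nat_lit 498)),(k8,(nat_lit 682))],[(k3,(nat_lit 318)),(k11,
    (nat_lit 325)),(k0,(nat_lit 348)),(k7,(nat_lit 398)),(k4,(nat_lit 536)),(k8,(nat_lit 586))],[(k1,(nat_lit 288)),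
    (k10,(nat_lit 443)),(k9,(nat_lit 586)),(k2,(nat_lit 666)),(k6,(nat_lit 682)),(k5,(nat_lit 904))],[(k2,
    (nat_lit 301)),(k9,(nat_lit 325)),(k6,(nat_lit 421)),(k5,(nat_lit 539)),(k1,(nat_lit 613)),(k10,(nat_lit 768))],
    [(k3,(nat_lit 371)),(k7,(nat_lit 421)),(k0,(nat_lit 425)),(k8,(nat_lit 443)),(k4,(nat_lit 529)),(k11,
    (nat_lit 768))]]
    [] k0
    [[k2,k0,k0,k0,k0,k0],[k3,k0,k0,k0,k0,k0],[k2,k1,k0,k0,k0,k0],[k2,k0,k1,k0,k0,k0],[k2,k0,k0,k1,k0,k0],[k2,k0,k0,k0,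
    k1,k0],[k2,k1,k0,k0,k1,k0],[k1,k1,k0,k0,k0,k0],[k2,k2,k0,k0,k0,k0],[k1,k2,k0,k0,k0,k0],[k1,k1,k0,k1,k0,k0],[k1,k1,
    k0,k0,k1,k0],[k1,k1,k0,k0,k0,k1],[k1,k2,k0,k0,k0,k1],[k1,k0,k1,k0,k0,k0],[k1,k0,k1,k1,k0,k0],[k1,k0,k0,k1,k0,k0],
    [k1,k0,k0,k2,k0,k0],[k1,k0,k0,k1,k0,k1],[k1,k0,k0,k0,k1,k0],[k2,k0,k0,k0,k2,k0],[k1,k1,k0,k0,k1,k1],[k1,k0,k1,k0,
    k1,k0],[k1,k0,k0,k1,k1,k0],[k1,k1,k0,k1,k1,k0],[k1,k0,k0,k0,k2,k0],[k1,k0,k0,k0,k1,k1],[k1,k0,k0,k0,k2,k1],[k1,k0,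
    k0,k0,k0,k1],[k0,k2,k0,k0,k0,k0],[k0,k2,k0,k0,k0,k1],[k0,k1,k0,k1,k0,k0],[k0,k1,k0,k2,k0,k0],[k0,k1,k0,k1,k0,k1],
    [k0,k1,k0,k0,k1,k0],[k0,k1,k0,k0,k1,k1],[k0,k1,k0,k0,k0,k1],[k0,k2,k0,k0,k0,k2],[k0,k0,k2,k0,k0,k0],[k0,k0,k1,k1,
    k0,k0],[k0,k0,k1,k2,k0,k0],[k0,k0,k1,k1,k0,k1],[k0,k0,k1,k0,k0,k1],[k0,k0,k0,k2,k0,k0],[k0,k0,k0,k3,k0,k0],[k0,k0,
    k0,k2,k0,k1],[k0,k0,k0,k1,k1,k0],[k0,k0,k0,k1,k1,k1],[k0,k0,k0,k1,k0,k1],[k0,k0,k0,k0,k2,k0],[k0,k0,k0,k0,k2,k1],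
    [k0,k0,k0,k0,k1,k1]]
    [.contra [z1],.contra [y1,z2,y1,z0,z1],.ref k55 k7 [(z1,[z1]),(z1,[y1,z0,y2,y2,z2])],.contra [z1,y1,z0,y1],
    .contra [y1,z2,y1,z0,z1],.ref k55 k7 [(z1,[z1,z0,z1]),(z1,[y1,z0,y3,y2,z2])],.contra [z1,y2,z3],.contra [y1,z0,z0,
    y1,z1],.contra [z1,y2,z2],.contra [z1,y1,z1],.contra [y1,z0,z0,y1,z1],.contra [z1,y1,z2],.contra [y1,z0,z0,y1,z1],
    .contra [z1,z2,y2],.contra [y1,z2,z0,z2],.contra [z1,y1,z0,y1],.contra [y1,z2,y1,z0,z1],.contra [y1,z2,y2,y2,z2],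
    .contra [y1,z0,z0,y1,z1],.contra [y1,z0,y1,y1,z1],.contra [z1,y2,z4],.contra [z1,z2,y1],.contra [z1,y1,z1,y1],
    .contra [y1,z0,y1,y1,z1],.contra [z1,z2,y1],.contra [z1,y1,z3],.contra [y1,z0,y1,y1,z1],.contra [z1,z2],
    .contra [y1,z2,y1,z0,z1],.contra [z1],.contra [y1,y1,z1,y1,z1],.contra [y1,z0,z0,y1,z1],.ref k87 k1 [(z1,[y1,z0,
    z1,z1]),(z1,[z1]),(z1,[y1,z0,z0,y1,z1])],.contra [y1,y1,z1,y1,z1],.contra [z1,z0,z1],.contra [y1,y1,z0,y1,z1],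
    .contra [y1,z0,z0,y1,z1],.contra [z1,z2,y2],.contra [y1,z0,z2,z2],.contra [y1,z2,y1,z0,z1],.ref k55 k4 [(z1,[z1]),
    (z1,[y1,z0,y2,y2,z2])],.contra [y1,y1,z2,z0,z1],.contra [y1,z2,y1,z0,z1],.contra [z1],.ref k93 k5 [(z1,[z1]),(z1,
    [z0,z0,z0,z1]),(z1,[z0,z0,z1])],.contra [y1,z2,y2,y2,z2],.contra [y1,z0,y1,y1,z1],.contra [y1,y1,z0,y1,z1],
    .contra [y1,z0,z0,y1,z1],.contra [z1,z0,z2],.contra [y1,y1,y1,y1,z1],.contra [y1,z0,y1,y1,z1]]),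
    .old (.lp [(nat_lit 7445562),(nat_lit 3742272),(nat_lit 8069274),(nat_lit 7484544),(nat_lit 4404966),
    (nat_lit 6237120)] [(nat_lit 1286536),(nat_lit 546056),(nat_lit 3196743),(nat_lit 2339139),k0,(nat_lit 1208880),
    (nat_lit 740877),(nat_lit 1052733),(nat_lit 2339139),(nat_lit 2534049),(nat_lit 1520517),
    (nat_lit 1520517)] k0 [[k0,k0,(nat_lit 935568),k0,k0,k0,k0,(nat_lit 1754190),k0,k0,k0,(nat_lit 38982)],[k0,k0,k0,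
    k0,k0,k0,k0,(nat_lit 2455866),k0,k0,k0,(nat_lit 1676226)],[k0,k0,k0,k0,(nat_lit 1286406),(nat_lit 2338920)],[k0,
    (nat_lit 935568),k0,k0,k0,k0,k0,k0,k0,(nat_lit 1052514)],[k0,k0,k0,(nat_lit 2338920),k0,k0,k0,k0,k0,k0,
    (nat_lit 4989696)],[k0,k0,k0,(nat_lit 1286406),k0,k0,(nat_lit 818622),k0,k0,k0,(nat_lit 1208442)],
    [(nat_lit 2455866),(nat_lit 1754190)],[k0,k0,k0,k0,(nat_lit 818622),k0,k0,k0,(nat_lit 155928)],[k0,k0,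
    (nat_lit 1052514)],[k0,k0,k0,k0,k0,k0,(nat_lit 155928)],[(nat_lit 1676226),(nat_lit 38982)],[k0,k0,k0,k0,
    (nat_lit 1208442),(nat_lit 4989696)]] (nat_lit 18711360) k6
    [[(k4,(nat_lit 3742402)),(k8,(nat_lit 6392959)),(k3,(nat_lit 6431941)),(k7,(nat_lit 6470923)),(k11,
    (nat_lit 7211581)),(k0,(nat_lit 9121788))],[(k2,(nat_lit 4794875)),(k6,(nat_lit 5496551)),(k5,(nat_lit 5847170)),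
    (k10,(nat_lit 6432119)),(k9,(nat_lit 7913435)),(k1,(nat_lit 9121788))],[(k6,(nat_lit 3742272)),(k10,
    (nat_lit 3742272)),(k2,(nat_lit 4677840)),(k5,(nat_lit 5730135)),(k9,(nat_lit 6159156)),(k1,(nat_lit 6431941))],
    [(k7,(nat_lit 3742272)),(k8,(nat_lit 3742272)),(k4,(nat_lit 3742491)),(k3,(nat_lit 4677840)),(k0,
    (nat_lit 4794875)),(k11,(nat_lit 5613408))],[(k8,(nat_lit 4677621)),(k3,(nat_lit 5730135)),(k0,(nat_lit 5847170)),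
    (k11,(nat_lit 6548757)),(k7,(nat_lit 9355461)),(k4,(nat_lit 9355680))],[(k1,(nat_lit 3742402)),(k2,
    (nat_lit 3742491)),(k9,(nat_lit 6744105)),(k10,(nat_lit 8966079)),(k5,(nat_lit 9355680)),(k6,(nat_lit 9355899))],
    [(k2,(nat_lit 3742272)),(k9,(nat_lit 4872750)),(k1,(nat_lit 6470923)),(k6,(nat_lit 7484544)),(k5,
    (nat_lit 9355461)),(k10,(nat_lit 11694600))],[(k3,(nat_lit 3742272)),(k0,(nat_lit 5496551)),(k8,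
    (nat_lit 6354066)),(k11,(nat_lit 7016760)),(k7,(nat_lit 7484544)),(k4,(nat_lit 9355899))],[(k8,(nat_lit 4404966)),
    (k7,(nat_lit 4872750)),(k11,(nat_lit 5067660)),(k3,(nat_lit 6159156)),(k4,(nat_lit 6744105)),(k0,
    (nat_lit 7913435))],[(k2,(nat_lit 3742272)),(k9,(nat_lit 4404966)),(k5,(nat_lit 4677621)),(k10,(nat_lit 5418498)),
    (k6,(nat_lit 6354066)),(k1,(nat_lit 6392959))],[(k9,(nat_lit 5067660)),(k2,(nat_lit 5613408)),(k10,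
    (nat_lit 6237120)),(k5,(nat_lit 6548757)),(k6,(nat_lit 7016760)),(k1,(nat_lit 7211581))],[(k3,(nat_lit 3742272)),
    (k8,(nat_lit 5418498)),(k11,(nat_lit 6237120)),(k0,(nat_lit 6432119)),(k4,(nat_lit 8966079)),(k7,
    (nat_lit 11694600))]]
    [] k0
    [[k2,k0,k0,k0,k0,k0],[k1,k1,k0,k0,k0,k0],[k1,k2,k0,k0,k0,k0],[k1,k1,k1,k0,k0,k0],[k1,k1,k0,k1,k0,k0],[k1,k1,k0,k0,
    k1,k0],[k1,k1,k0,k0,k0,k1],[k1,k0,k1,k0,k0,k0],[k1,k0,k1,k1,k0,k0],[k1,k0,k1,k0,k1,k0],[k1,k0,k1,k0,k0,k1],[k1,k0,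
    k0,k1,k0,k0],[k1,k0,k0,k0,k1,k0],[k1,k0,k0,k1,k1,k0],[k1,k0,k0,k0,k1,k1],[k1,k0,k0,k0,k0,k1],[k0,k2,k0,k0,k0,k0],
    [k0,k3,k0,k0,k0,k0],[k0,k3,k0,k1,k0,k0],[k0,k2,k1,k0,k0,k0],[k0,k2,k0,k1,k0,k0],[k0,k2,k0,k1,k1,k0],[k0,k2,k0,k0,
    k1,k0],[k0,k2,k0,k0,k0,k1],[k0,k2,k0,k0,k1,k1],[k0,k1,k1,k0,k0,k0],[k0,k2,k1,k1,k0,k0],[k0,k1,k1,k0,k1,k0],[k0,k1,
    k0,k1,k0,k0],[k0,k2,k0,k2,k0,k0],[k0,k2,k0,k1,k0,k1],[k0,k1,k1,k1,k0,k0],[k0,k1,k0,k2,k0,k0],[k0,k1,k0,k1,k1,k0],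
    [k0,k1,k1,k1,k1,k0],[k0,k1,k0,k1,k2,k0],[k0,k1,k0,k0,k1,k0],[k0,k1,k0,k0,k2,k0],[k0,k1,k0,k0,k1,k1],[k0,k1,k0,k0,
    k0,k1],[k0,k1,k1,k0,k0,k1],[k0,k1,k0,k1,k0,k1],[k0,k1,k1,k0,k1,k1],[k0,k1,k0,k0,k2,k1],[k0,k1,k0,k0,k0,k2],[k0,k0,
    k1,k0,k1,k0],[k0,k0,k1,k0,k2,k0],[k0,k0,k1,k0,k0,k1],[k0,k0,k0,k2,k0,k0],[k0,k0,k0,k1,k1,k0],[k0,k0,k0,k1,k2,k0],
    [k0,k0,k0,k1,k1,k1],[k0,k0,k0,k0,k2,k0],[k0,k0,k0,k0,k3,k0],[k0,k0,k0,k0,k4,k0],[k0,k0,k0,k0,k2,k1],[k0,k0,k0,k0,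
    k1,k1],[k0,k0,k0,k0,k1,k2],[k0,k0,k0,k0,k0,k2]]
    [.contra [z1],.contra [y2,z1,z1,z2],.ref k67 k3 [(z1,[y1,z1,z1,z1,y1]),(z2,[z0,y1,y1,y2,z2]),(z1,[z1])],
    .contra [y2,z1,z1,z2],.ref k82 k10 [(z2,[y2,y1,y1,z0,z2]),(z1,[z1]),(z1,[z1,z1,z1,z1,y1])],.contra [z2,z1,y1],
    .contra [y2,z1,z1],.contra [y1,z1,z0,z1],.contra [z2,z1,z1,z0,y2],.contra [y2,z1,z1,z2],.ref k0 k2 [(z2,[y2,z1,y1,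
    z0,z2])],.ref k0 k2 [(z1,[z1])],.contra [y2,z1,z1,z2],.ref k76 k10 [(z1,[y1,z0,z0,z1,z1]),(z1,[z1,y1,y1,y1,z1]),
    (z1,[z1,z1,z1,z1,y1])],.contra [y2,z1,z1],.contra [y1,z1],.contra [z1],.ref k61 k10 [(z1,[z0,z0,z0,z1]),(z2,[z0,
    y1,y1,y2,z2]),(z2,[y2,z3,z3])],.ref k111 k6 [(z2,[y2,y1,y1,y2,z2]),(z1,[z1,z1,z1,z1,y1]),(z1,[z1])],.contra [y1,
    z0,z1,z1],.ref k106 k6 [(z2,[y2,y1,y1,y2,z2]),(z1,[z1,z1,z1,z1,y1]),(z1,[z1])],.ref k82 k10 [(z1,[y1,y1,z0,z0,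
    z1]),(z2,[z2,z1,y1]),(z2,[z2,z3,z1,z2,y2])],.contra [y1,z0,z1,z1],.contra [y1,z0,z1],.contra [y1,z0,z1],
    .contra [y2,z1,z1,z2],.contra [z2,z1,z1,z0,y2],.contra [y2,z1,z1,z2],.ref k103 k8 [(z2,[z2,z1,z1,z2,y2]),(z1,[z0,
    z0,z0,z1]),(z2,[z0,y1,y1,y2,z2])],.ref k118 k8 [(z2,[z1,z1,z1,z2,y2]),(z1,[z0,z0,z0,z1]),(z2,[z0,y1,y1,y2,z2])],
    .contra [z2,z1,z1,z2,y2],.contra [z2,z1,z1,z0,y2],.ref k117 k8 [(z1,[z1,z1,z1,z2,y2]),(z1,[z0,z0,z0,z1]),(z2,[z0,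
    y1,y1,y2,z2])],.ref k0 k2 [(z2,[z2,z1,y1])],.contra [z1,z1,z0,z0,y1],.ref k76 k10 [(z2,[y2,y1,z1,z2,z2]),(z2,[z2,
    y1,y3,y2,z2]),(z2,[z2,z3,z1,z2,y2])],.contra [y2,z1,z1,z2],.contra [y1,z0,z1,z1],.contra [y2,z1,z1],.contra [y2,
    z1,z1],.ref k76 k10 [(z1,[z1,z0,z0,z1]),(z1,[y1,y1,y1,y1,z2]),(z1,[y1,z1,z1,z1])],.contra [z2,z1,z1,z2,y2],
    .ref k0 k2 [(z1,[y1,z0,z0,z0,z1])],.contra [y1,z0,z1],.ref k76 k10 [(z1,[z1,z0,z0,z2]),(z1,[y1,y1,y1,y2,z2]),(z1,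
    [y1,z1,z1])],.contra [y2,z1,z1,z2],.contra [y1,z0,z1,z1],.contra [z1,z0,z0,z1],.contra [y1,y1,y1,z0,z2],
    .ref k3 k5 [(z1,[z1]),(z2,[y2,y1,y1,z0,z2])],.ref k55 k3 [(z1,[z1]),(z1,[y1,z1,z1])],.contra [z2,z1,z1,z2,y2],
    .contra [z1],.ref k93 k9 [(z1,[z1]),(z2,[z0,y1,y1,y2,z2]),(z1,[z0,z0,z0,z1])],.ref k99 k9 [(z2,[z1]),(z2,[z0,y1,
    y1,y2,z2]),(z1,[z0,z0,z0,z1])],.contra [y1,z0,z1],.contra [y2,z1,z1],.ref k82 k10 [(z2,[z2,y1,y1,z2]),(z1,[y1,z0,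
    z0,y1,z1]),(z1,[y1,z1,z1])],.contra [z1,z0,z0,z2]])]

noncomputable def cU6_2_n1_3 : List XN :=
  [.old (.lp [(nat_lit 690),(nat_lit 663),(nat_lit 702),(nat_lit 742),(nat_lit 559),(nat_lit 480)] [k51,k69,k78,k69,k108,
    k0,k34,k34,k165,k86,k165,k165] k0 [[k0,k0,k0,k0,k0,k0,(nat_lit 289),k0,k0,k0,k0,(nat_lit 210)],[k0,k0,
    (nat_lit 357),(nat_lit 207)],[(nat_lit 207),k0,k0,k0,k0,k0,k0,k0,k183,k60],[(nat_lit 357),k0,k0,k0,k0,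
    (nat_lit 226)],[k0,k0,(nat_lit 226),k0,k0,k0,k0,k0,k0,k0,k155],[k0,k0,k0,k0,k0,k0,k0,k0,k0,k0,(nat_lit 202)],[k0,
    k0,k0,k0,k0,k0,k0,k0,k199,k123],[k0,(nat_lit 289)],[k0,k0,k0,k60,k0,k0,k0,k123],[k0,k0,k0,k183,k0,k0,k0,k199],[k0,
    (nat_lit 210)],[k0,k0,k0,k0,(nat_lit 202),k155]] (nat_lit 1920) k6
    [[(k4,(nat_lit 478)),(k7,(nat_lit 505)),(k8,(nat_lit 576)),(k11,(nat_lit 576)),(k0,(nat_lit 690)),(k3,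
    (nat_lit 882))],[(k9,(nat_lit 384)),(k10,(nat_lit 384)),(k1,(nat_lit 690)),(k6,(nat_lit 725)),(k5,(nat_lit 966)),
    (k2,(nat_lit 1038))],[(k5,(nat_lit 384)),(k2,(nat_lit 456)),(k10,(nat_lit 576)),(k9,(nat_lit 655)),(k1,
    (nat_lit 882)),(k6,(nat_lit 996))],[(k11,(nat_lit 384)),(k3,(nat_lit 456)),(k8,(nat_lit 507)),(k4,(nat_lit 624)),
    (k7,(nat_lit 924)),(k0,(nat_lit 1038))],[(k3,(nat_lit 384)),(k4,(nat_lit 476)),(k11,(nat_lit 705)),(k7,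
    (nat_lit 776)),(k8,(nat_lit 828)),(k0,(nat_lit 966))],[(k5,(nat_lit 476)),(k1,(nat_lit 478)),(k9,(nat_lit 616)),
    (k2,(nat_lit 624)),(k6,(nat_lit 668)),(k10,(nat_lit 739))],[(k1,(nat_lit 505)),(k9,(nat_lit 690)),(k6,
    (nat_lit 742)),(k10,(nat_lit 766)),(k5,(nat_lit 776)),(k2,(nat_lit 924))],[(k11,(nat_lit 412)),(k8,(nat_lit 488)),
    (k4,(nat_lit 668)),(k0,(nat_lit 725)),(k7,(nat_lit 742)),(k3,(nat_lit 996))],[(k0,(nat_lit 384)),(k4,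
    (nat_lit 616)),(k3,(nat_lit 655)),(k11,(nat_lit 682)),(k7,(nat_lit 690)),(k8,(nat_lit 758))],[(k10,(nat_lit 480)),
    (k6,(nat_lit 488)),(k2,(nat_lit 507)),(k1,(nat_lit 576)),(k9,(nat_lit 758)),(k5,(nat_lit 828))],[(k2,
    (nat_lit 384)),(k6,(nat_lit 412)),(k10,(nat_lit 480)),(k1,(nat_lit 576)),(k9,(nat_lit 682)),(k5,(nat_lit 705))],
    [(k0,(nat_lit 384)),(k8,(nat_lit 480)),(k11,(nat_lit 480)),(k3,(nat_lit 576)),(k4,(nat_lit 739)),(k7,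
    (nat_lit 766))]]
    [] k0
    [[k2,k0,k0,k0,k0,k0],[k2,k0,k0,k0,k1,k0],[k2,k0,k0,k0,k0,k1],[k1,k1,k0,k0,k1,k0],[k1,k1,k0,k0,k0,k1],[k1,k0,k1,k0,
    k0,k0],[k1,k1,k1,k0,k0,k0],[k1,k1,k1,k0,k1,k0],[k1,k1,k1,k0,k0,k1],[k1,k0,k1,k0,k1,k0],[k1,k0,k1,k0,k0,k1],[k1,k0,
    k0,k1,k0,k0],[k1,k0,k0,k1,k1,k0],[k1,k0,k0,k1,k0,k1],[k1,k0,k0,k1,k1,k1],[k1,k0,k0,k1,k0,k2],[k1,k0,k0,k0,k1,k0],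
    [k1,k0,k0,k0,k2,k0],[k1,k0,k0,k0,k1,k1],[k1,k0,k0,k0,k0,k1],[k1,k0,k0,k0,k0,k2],[k0,k2,k0,k0,k0,k0],[k0,k3,k0,k0,
    k0,k0],[k0,k4,k0,k0,k0,k0],[k0,k3,k0,k0,k0,k1],[k0,k2,k1,k0,k0,k0],[k0,k2,k0,k0,k1,k0],[k0,k2,k0,k0,k0,k1],[k0,k2,
    k0,k0,k0,k2],[k0,k1,k1,k0,k0,k0],[k0,k1,k2,k0,k0,k0],[k0,k1,k1,k0,k1,k0],[k0,k1,k1,k0,k1,k1],[k0,k1,k1,k0,k0,k1],
    [k0,k1,k0,k0,k1,k0],[k0,k1,k0,k0,k1,k1],[k0,k1,k0,k0,k0,k1],[k0,k1,k0,k1,k0,k1],[k0,k1,k0,k0,k0,k2],[k0,k0,k2,k0,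
    k0,k0],[k0,k0,k3,k0,k0,k0],[k0,k0,k4,k0,k0,k0],[k0,k0,k1,k1,k0,k0],[k0,k0,k1,k1,k1,k0],[k0,k0,k1,k0,k1,k0],[k0,k0,
    k1,k0,k0,k1],[k0,k0,k1,k0,k1,k1],[k0,k0,k0,k2,k0,k0],[k0,k0,k0,k1,k1,k0],[k0,k0,k0,k1,k1,k1],[k0,k0,k0,k1,k0,k1],
    [k0,k0,k0,k1,k0,k2],[k0,k0,k0,k0,k2,k0],[k0,k0,k0,k0,k1,k1],[k0,k0,k0,k0,k1,k2],[k0,k0,k0,k0,k0,k2],[k0,k0,k0,k0,
    k0,k3]]
    [.contra [z1],.ref k0 k3 [(z3,[z3,y2,z1])],.ref k55 k6 [(z1,[z2,y1]),(z3,[y6,z1,y2,z0,z6])],.contra [z3,y1,y1],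
    .contra [z3,y1,y1],.contra [y3,z1,z0,z1],.contra [z3,y1,y1],.contra [z3,y1,y1],.contra [z3,y1,y1],.contra [y3,z1,
    z0,z1],.contra [y3,z1,z0,z1],.contra [z3,z2,z1,z1,y3],.ref k0 k3 [(z3,[z3,z0,z2,z1,y3])],.ref k55 k6 [(z3,[z6,z1,
    z2,z2,y6]),(z3,[y6,y3,y4,y2,z12])],.ref k3 k11 [(z1,[y1,z0,z0,z0,z1]),(z3,[z3,z1,z1,z0,y3])],.ref k106 k5 [(z3,
    [y3,y1,y2,y2,z6]),(z3,[z3,z0,z1,z2,y3]),(z3,[z3,z0,z2,z1,y3])],.contra [y3,z1,z0,z1],.ref k0 k3 [(z6,[z3,y1,z2])],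
    .contra [y3,z1,z0,z1],.contra [y3,z1,z0,z1],.ref k55 k6 [(z1,[z1]),(z3,[y3,y2,y2,z0,z6])],.contra [y3,z2,z2],
    .contra [y1,z2,z1],.contra [y3,z10,z4],.contra [z1,z1,y1],.contra [z3,z1,y2],.contra [z3,z1,y2],.contra [z3,z1,
    y2],.contra [z3,z1,y2],.ref k3 k11 [(z1,[z1]),(z3,[y3,z1,z1])],.ref k55 k10 [(z1,[z1]),(z3,[y3,y2,y2,z0,z6])],
    .ref k55 k6 [(z3,[y6,z1,z2,z2]),(z3,[z6,y3,y4,y2,z6])],.contra [y3,z2,z1,z1],.ref k0 k3 [(z3,[y3,z0,z2,z1])],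
    .ref k0 k3 [(z1,[z1])],.ref k3 k11 [(z3,[y3,z0,z2,z1]),(z3,[z3,z1,y1,y1])],.ref k55 k6 [(z3,[z6,z1,y2]),(z1,[y2,
    y1,z0,z0,z2])],.contra [z3,z1,z0,z1,y3],.ref k106 k5 [(z3,[y3,y1,z0,y1,z3]),(z3,[z3,z0,y1,z1]),(z1,[z1])],
    .contra [z1],.ref k3 k11 [(z3,[z1,z0,z1]),(z3,[y1,z1])],.ref k99 k1 [(z2,[z1]),(z3,[z0,y1,z0,y1,z3]),(z3,[z0,z2,
    z1,z1,y3])],.contra [y3,y1,y1,z0,z3],.contra [y3,y1,y1,z0,z3],.contra [y3,z1,z0,z1],.contra [y3,z1,z0,z1],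
    .contra [z3,z2,z0,y1],.contra [z3,z4,z2,z2,y6],.contra [y3,y1,y1,z0,z3],.contra [y3,y1,y1,z0,z3],.contra [y3,y1,
    y1,z0,z3],.ref k55 k6 [(z3,[z3,z2,z1,z1,y3]),(z3,[y3,y4,y3,y1,z9])],.contra [z1],.contra [y3,z1,z0,z1],
    .ref k67 k10 [(z3,[y3,z0,y1,z1]),(z3,[z0,y1,z0,y1,z3]),(z1,[z1])],.contra [z1],.ref k55 k6 [(z3,[z2,z1]),(z3,[y2,
    y3,y2,z0,z6])]]),
    .old (.lp [k180,(nat_lit 212),k138,k142,k178,k108] [k18,k22,k4,k4,k41,k41,k39,k39,k42,k0,k56,k56] k0 [[k0,k0,k0,k0,k0,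
    k0,k106,k0,k0,k0,k0,k32],[k0,k0,k56,k44,k0,k0,k0,k0,k0,k0,k0,k60],[k44,k0,k0,k0,k0,k0,k0,k0,k64,k78],[k56,k0,k0,
    k0,k18,k20],[k0,k0,k20,k0,k0,k0,k18],[k0,k0,k18,k0,k0,k0,k0,k0,k0,k0,k38],[],[k0,k106,k0,k0,k0,k18],[k0,k0,k0,k78,
    k0,k0,k0,k0,k0,k0,k12],[k0,k0,k0,k64,k0,k0,k0,k0,k0,k0,k16],[k60,k32],[k0,k0,k0,k0,k38,k0,k0,k0,k16,
    k12]] (nat_lit 480) k6
    [[(k7,k121),(k11,k126),(k8,k144),(k4,k157),(k3,(nat_lit 226)),(k0,(nat_lit 240))],[(k9,k96),(k10,k114),(k6,k163),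
    (k5,(nat_lit 205)),(k1,(nat_lit 240)),(k2,(nat_lit 254))],[(k10,k100),(k5,k119),(k2,k168),(k9,(nat_lit 216)),(k1,
    (nat_lit 226)),(k6,(nat_lit 283))],[(k8,k96),(k11,k96),(k3,k168),(k4,k193),(k7,k197),(k0,(nat_lit 254))],[(k4,
    k118),(k3,k119),(k7,k122),(k8,(nat_lit 201)),(k11,(nat_lit 201)),(k0,(nat_lit 205))],[(k5,k118),(k6,k140),(k1,
    k157),(k9,k161),(k10,k161),(k2,k193)],[(k1,k121),(k5,k122),(k10,k125),(k6,k160),(k9,k181),(k2,k197)],[(k11,k125),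
    (k8,k139),(k4,k140),(k7,k160),(k0,k163),(k3,(nat_lit 283))],[(k0,k96),(k4,k161),(k11,k164),(k8,k178),(k7,k181),
    (k3,(nat_lit 216))],[(k2,k96),(k10,k138),(k6,k139),(k1,k144),(k9,k178),(k5,(nat_lit 201))],[(k2,k96),(k10,k120),
    (k6,k125),(k1,k126),(k9,k164),(k5,(nat_lit 201))],[(k3,k100),(k0,k114),(k11,k120),(k7,k125),(k8,k138),(k4,k161)]]
    [] k0
    [[k1,k1,k0,k0,k1,k0],[k1,k1,k0,k0,k0,k1],[k1,k0,k1,k0,k0,k0],[k1,k1,k1,k0,k1,k0],[k1,k0,k1,k1,k0,k0],[k1,k0,k1,k0,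
    k1,k0],[k1,k0,k1,k0,k0,k1],[k1,k0,k0,k1,k0,k0],[k1,k0,k0,k2,k0,k0],[k1,k0,k0,k1,k1,k0],[k1,k0,k0,k1,k0,k1],[k1,k0,
    k0,k0,k1,k0],[k1,k0,k0,k0,k2,k0],[k1,k0,k0,k0,k1,k1],[k1,k0,k0,k0,k0,k1],[k1,k1,k0,k0,k1,k1],[k1,k1,k0,k0,k0,k2],
    [k1,k0,k0,k0,k0,k2],[k0,k2,k0,k0,k0,k0],[k0,k2,k0,k0,k0,k1],[k0,k1,k1,k0,k0,k0],[k0,k1,k2,k0,k0,k0],[k0,k1,k1,k1,
    k0,k0],[k0,k1,k1,k0,k1,k0],[k0,k1,k1,k0,k0,k1],[k0,k1,k0,k0,k1,k0],[k0,k1,k0,k0,k1,k1],[k0,k1,k0,k0,k0,k1],[k0,k2,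
    k0,k0,k0,k2],[k0,k1,k0,k1,k0,k1],[k0,k1,k0,k1,k0,k2],[k0,k1,k0,k0,k0,k2],[k0,k1,k0,k0,k0,k3],[k0,k0,k2,k0,k0,k0],
    [k0,k0,k3,k0,k0,k0],[k0,k0,k4,k0,k0,k0],[k0,k0,k2,k1,k0,k0],[k0,k0,k1,k1,k0,k0],[k0,k0,k1,k2,k0,k0],[k0,k0,k1,k1,
    k1,k0],[k0,k0,k1,k1,k0,k1],[k0,k0,k1,k0,k1,k0],[k0,k0,k1,k0,k0,k1],[k0,k0,k0,k2,k0,k0],[k0,k0,k0,k2,k0,k1],[k0,k0,
    k0,k1,k1,k0],[k0,k0,k0,k1,k1,k1],[k0,k0,k0,k1,k0,k1],[k0,k0,k0,k1,k0,k2],[k0,k0,k0,k0,k2,k0],[k0,k0,k0,k0,k1,k1],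
    [k0,k0,k0,k0,k1,k2],[k0,k0,k0,k0,k0,k2],[k0,k0,k0,k0,k0,k3]]
    [.contra [z1,y1,y1],.contra [z1,y1,y1],.contra [y1,z0,y1,z1],.contra [z1,y1,y1],.ref k82 k2 [(z1,[z1,z1,z1,y1]),
    (z1,[y1,z0,z0,z1]),(z1,[y1,y1,y2,z2])],.contra [y1,z0,y1,z1],.contra [y1,z0,y1,z1],.contra [z1,z1],
    .ref k120 k2 [(z1,[z1,z2]),(z1,[y1,z1,z3]),(z1,[y1,y2,y3,z3])],.ref k116 k5 [(z1,[z1,y1]),(z1,[y1,y1,y2,z2]),(z1,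
    [y1,z1,z2])],.ref k76 k2 [(z1,[z1,z1]),(z1,[y1,z1,z2]),(z1,[y1,y1,y2,z2])],.contra [y1,z0,y1,z1],
    .ref k119 k3 [(z1,[z1,y1]),(z1,[y1,y1,y2,z2]),(z1,[z0,z1])],.contra [y1,z0,y1,z1],.contra [y1,z0,y1,z1],
    .contra [z1,y1,y1],.contra [z1,y1,y1],.ref k55 k6 [(z1,[z1]),(z1,[y1,y2,y2,z2])],.contra [y1,z2,z2],
    .ref k117 k0 [(z1,[z1,z0,y2]),(z1,[z0,z1]),(z1,[z0,z0,z1])],.ref k3 k11 [(z1,[z1]),(z1,[y1,z1,z1])],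
    .ref k55 k10 [(z1,[z1]),(z1,[y1,y2,y2,z2])],.contra [z1,z0,y1],.ref k76 k2 [(z1,[y1,z1,z0,z1]),(z1,[z1,z1,z2,y1]),
    (z1,[z1,y1,y2,z1])],.ref k116 k5 [(z1,[y1,y1,z0,z1]),(z1,[z1,y1,y2,z1]),(z1,[z1,z1,z2,y1])],.ref k0 k3 [(z1,
    [z1])],.ref k82 k2 [(z1,[y1,z1,z1]),(z1,[z1]),(z1,[z1,y1,y2,z1])],.ref k103 k0 [(z1,[z1,z0,y1]),(z1,[z0,z1]),(z1,
    [z0,z0,z1])],.ref k118 k0 [(z2,[z1,z0,y2]),(z1,[z0,z1]),(z1,[z0,z0,z1])],.contra [z1,z0,y1],.contra [z1,z0,y1],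
    .ref k106 k5 [(z1,[y1,z0,z1]),(z1,[z1,y1,y2,z1]),(z1,[z1])],.ref k111 k5 [(z1,[y1,z0,z1]),(z1,[z1,y1,y2,z1]),(z1,
    [z1])],.contra [z1],.ref k93 k1 [(z1,[z1]),(z1,[z0,z0,z1]),(z1,[z0,z1])],.ref k99 k1 [(z2,[z1]),(z1,[z0,z0,z1]),
    (z1,[z0,z1])],.ref k87 k11 [(z1,[y1,z0,z1]),(z1,[z1,z1]),(z1,[y1,y1,y1,z1])],.contra [y1,y1,y1,z1],
    .ref k82 k2 [(z1,[z1,z2,z1,y1]),(z1,[y1,y1,z0,z1]),(z1,[y1,y2,y2,z2])],.contra [y1,y1,y1,z1],.contra [y1,y1,y1,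
    z1],.contra [y1,z0,y1,z1],.contra [y1,z0,y1,z1],.contra [z1,z2],.ref k76 k2 [(z1,[z1,z2]),(z1,[y1,z0,z2]),(z1,[y1,
    y2,y2,z2])],.contra [y1,y1,y1,z1],.contra [y1,y1,y1,z1],.contra [y1,y1,y1,z1],.ref k55 k6 [(z1,[z1,z1]),(z1,[y1,
    y3,y2,z2])],.contra [z1],.contra [y1,z0,y1,z1],.ref k67 k10 [(z1,[y1,y1,y2,z1]),(z1,[z0,z0,z1]),(z1,[z1])],
    .contra [z1],.ref k61 k2 [(z1,[z0,z1]),(z1,[z0,z0,z1]),(z1,[y1,y3,y3,z3])]]),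
    .geo true z3 k5 [(y2,z6),(z6,y6),(z0,z6),(z6,y9),(z2,z0),(z0,z3)] [(z1,[z1]),(z1,[z0,z3]),(z1,[z0,z0,z3]),(z1,[z0,z0,
    z0,z3]),(z1,[y1,y3,y3,y3,z3]),(z1,
    [])] (Int.ofNat (nat_lit 349525)) (Int.ofNat (nat_lit 699051)) (.s (.l k1) (.l k1)) [],
    .geo true z1 k5 [(y2,z6),(z2,y2),(z0,z2),(z2,y3),(z2,y4),(z0,z1)] [(z1,[z1]),(z1,[z0,z1]),(z1,[z0,z0,z1]),(z1,[z0,z0,
    z0,z1]),(z1,[y1,y1,y1,y1,z1]),(z1,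
    [])] (Int.ofNat (nat_lit 349525)) (Int.ofNat (nat_lit 524288)) (.s (.l k1) (.l k1)) [],
    .geo true z1 k5 [(z0,z2),(z0,z3),(z2,y4),(z0,z4),(z2,y6),(z0,z1)] [(z1,[z1]),(z1,[z0,z1]),(z1,[z0,z0,z1]),(z1,[z0,z0,
    z0,z1]),(z1,[y1,y1,y1,y1,z1]),(z1,[])] z0 (Int.ofNat (nat_lit 349526)) (.s (.s (.l k2) (.l k1)) (.l k1)) [⟨z0,z1,
    [[k0,k1],[k2,k3],[k4,k5]],.bnd k0⟩],
    .geo true z7 k5 [(z2,z0),(z8,z0),(z6,z0),(z8,y7),(z4,z0),(z0,z7)] [(z1,[z1]),(z1,[z0,z1]),(z1,[z0,z0,z1]),(z1,[z0,z0,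
    z0,z1]),(z1,[y1,y1,y1,y1,z7]),(z1,[])] z0 (Int.ofNat (nat_lit 1198373)) (.s (.l k1) (.l k1)) [],
    .geo true z1 k5 [(y1,z3),(z2,y2),(z0,z2),(z2,y3),(z1,y1),(z0,z1)] [(z1,[z1]),(z1,[z0,z1]),(z1,[z0,z0,z1]),(z1,[z0,z0,
    z0,z1]),(z1,[y1,y1,y1,y1,z1]),(z1,
    [])] (Int.ofNat (nat_lit 349525)) (Int.ofNat (nat_lit 699051)) (.s (.l k1) (.l k1)) [],
    .old (.lp [(nat_lit 6720),(nat_lit 3798),(nat_lit 3880),(nat_lit 4948),(nat_lit 4388),(nat_lit 3118)] [k0,k0,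
    (nat_lit 1461),(nat_lit 1461),(nat_lit 1420),(nat_lit 1420),(nat_lit 886),(nat_lit 886),(nat_lit 1166),
    (nat_lit 1166),(nat_lit 1801),(nat_lit 1801)] k0 [[k0,k0,k0,k0,k0,k0,(nat_lit 2866),(nat_lit 1374),k0,k0,k0,
    (nat_lit 2132)],[k0,k0,(nat_lit 790),k86],[k86,k0,k0,k0,(nat_lit 956)],[(nat_lit 790)],[k0,k0,k0,k0,k0,k0,k0,
    (nat_lit 224),k0,k0,(nat_lit 2082),(nat_lit 278)],[k0,k0,k0,(nat_lit 956),k0,k0,k0,(nat_lit 2164)],[k0,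
    (nat_lit 1374),k0,k0,(nat_lit 2164),(nat_lit 224)],[k0,(nat_lit 2866),k0,k0,k0,k0,k0,k0,k0,(nat_lit 508)],[k0,k0,
    k0,k0,k0,k0,(nat_lit 508),k0,k0,k0,(nat_lit 1362)],[k0,k0,k0,k0,k0,k0,k0,k0,k0,k0,(nat_lit 2054)],[k0,
    (nat_lit 2132),k0,k0,k0,(nat_lit 278)],[k0,k0,k0,k0,k0,(nat_lit 2082),k0,k0,(nat_lit 2054),
    (nat_lit 1362)]] (nat_lit 13440) k6
    [[(k11,(nat_lit 2865)),(k4,(nat_lit 3218)),(k8,(nat_lit 4192)),(k7,(nat_lit 6112)),(k0,(nat_lit 6720)),(k3,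
    (nat_lit 7391))],[(k9,(nat_lit 2688)),(k10,(nat_lit 2787)),(k6,(nat_lit 4460)),(k5,(nat_lit 5386)),(k2,
    (nat_lit 6049)),(k1,(nat_lit 6720))],[(k5,(nat_lit 3049)),(k10,(nat_lit 3458)),(k2,(nat_lit 3712)),(k9,
    (nat_lit 5467)),(k6,(nat_lit 7239)),(k1,(nat_lit 7391))],[(k7,(nat_lit 3417)),(k11,(nat_lit 3458)),(k3,
    (nat_lit 3712)),(k4,(nat_lit 3839)),(k8,(nat_lit 4093)),(k0,(nat_lit 6049))],[(k3,(nat_lit 3049)),(k11,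
    (nat_lit 3499)),(k8,(nat_lit 4134)),(k7,(nat_lit 4414)),(k4,(nat_lit 4836)),(k0,(nat_lit 5386))],[(k1,
    (nat_lit 3218)),(k10,(nat_lit 3221)),(k2,(nat_lit 3839)),(k6,(nat_lit 4190)),(k5,(nat_lit 4836)),(k9,
    (nat_lit 6298))],[(k6,(nat_lit 2784)),(k2,(nat_lit 3417)),(k5,(nat_lit 4414)),(k9,(nat_lit 4892)),(k1,
    (nat_lit 6112)),(k10,(nat_lit 6115))],[(k7,(nat_lit 2784)),(k4,(nat_lit 4190)),(k0,(nat_lit 4460)),(k11,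
    (nat_lit 4541)),(k8,(nat_lit 4668)),(k3,(nat_lit 7239))],[(k0,(nat_lit 2688)),(k11,(nat_lit 3753)),(k8,
    (nat_lit 3880)),(k7,(nat_lit 4892)),(k3,(nat_lit 5467)),(k4,(nat_lit 6298))],[(k9,(nat_lit 3880)),(k2,
    (nat_lit 4093)),(k5,(nat_lit 4134)),(k1,(nat_lit 4192)),(k6,(nat_lit 4668)),(k10,(nat_lit 5807))],[(k1,
    (nat_lit 2865)),(k2,(nat_lit 3458)),(k5,(nat_lit 3499)),(k9,(nat_lit 3753)),(k10,(nat_lit 4480)),(k6,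
    (nat_lit 4541))],[(k0,(nat_lit 2787)),(k4,(nat_lit 3221)),(k3,(nat_lit 3458)),(k11,(nat_lit 4480)),(k8,
    (nat_lit 5807)),(k7,(nat_lit 6115))]]
    [] k0
    [[k2,k0,k0,k0,k0,k1],[k1,k0,k1,k0,k0,k0],[k1,k1,k1,k0,k0,k0],[k1,k1,k1,k0,k1,k0],[k1,k1,k1,k0,k0,k1],[k1,k0,k1,k1,
    k0,k0],[k1,k0,k1,k0,k1,k0],[k1,k0,k1,k0,k0,k1],[k1,k0,k0,k1,k0,k0],[k1,k0,k0,k2,k0,k0],[k1,k0,k0,k0,k1,k0],[k2,k0,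
    k0,k0,k1,k1],[k1,k0,k0,k0,k2,k0],[k1,k0,k0,k0,k1,k1],[k1,k0,k0,k0,k0,k1],[k2,k0,k0,k0,k0,k2],[k1,k1,k0,k0,k0,k1],
    [k1,k1,k0,k0,k1,k1],[k1,k1,k0,k0,k0,k2],[k1,k0,k1,k0,k1,k1],[k1,k0,k1,k0,k0,k2],[k1,k0,k0,k0,k0,k2],[k0,k2,k0,k0,
    k0,k0],[k0,k3,k0,k0,k0,k0],[k0,k2,k1,k0,k0,k0],[k0,k2,k0,k0,k1,k0],[k0,k2,k0,k0,k0,k1],[k0,k1,k1,k0,k0,k0],[k0,k1,
    k2,k0,k0,k0],[k0,k1,k1,k1,k0,k0],[k0,k1,k1,k0,k0,k1],[k0,k1,k0,k1,k0,k0],[k0,k1,k0,k0,k1,k0],[k0,k1,k0,k0,k0,k1],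
    [k0,k1,k0,k1,k0,k1],[k0,k1,k0,k0,k1,k1],[k0,k1,k0,k0,k0,k2],[k0,k0,k2,k0,k0,k0],[k0,k0,k2,k0,k0,k1],[k0,k0,k1,k1,
    k0,k0],[k0,k0,k1,k2,k0,k0],[k0,k0,k1,k1,k0,k1],[k0,k0,k1,k0,k1,k0],[k0,k0,k1,k1,k1,k0],[k0,k0,k1,k0,k1,k1],[k0,k0,
    k1,k0,k0,k1],[k0,k0,k1,k0,k0,k2],[k0,k0,k0,k2,k0,k0],[k0,k0,k0,k3,k0,k0],[k0,k0,k0,k4,k0,k0],[k0,k0,k0,k2,k1,k0],
    [k0,k0,k0,k1,k1,k0],[k0,k0,k0,k1,k0,k1],[k0,k0,k0,k0,k2,k0],[k0,k0,k0,k0,k3,k0],[k0,k0,k0,k0,k1,k1],[k0,k0,k0,k0,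
    k0,k2]]
    [.contra [z2,y1],.ref k4 k1 [(z3,[z3,y1,z0,z1]),(z3,[y3,z1,z2,z1]),(z3,[z3,z1,z0,y1])],.contra [z3,y1,y1],
    .contra [z3,z0,y1,y1],.contra [z3,y1,y1],.ref k27 k2 [(z3,[z0,z0,y1,y1,z3]),(z1,[y1,z0,z0,z0,z1])],.contra [z3,z1,
    z0,y1],.ref k1 k2 [(z3,[y3,z2,z0,z1])],.contra [y3,z0,y1,y1,z3],.contra [z3,z3,z2,z2,y6],.ref k121 k11 [(z3,[y3,
    z1,z1]),(z1,[z1])],.contra [z3,y3,y1,y1,z3],.ref k126 k1 [(z6,[y3,z7,z6,z8,y18]),(z3,[z0,y2,y1,y2,z6]),(z3,[z0,z3,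
    z2,z2,y6]),(z1,[z0,y1,y1,y1,z3])],.ref k1 k2 [(z1,[z1])],.contra [y2,z1],.contra [y3,z0,y2,y2,z6],.contra [z3,y1,
    y1],.contra [z3,y1,y1],.contra [z3,y1,y1],.contra [z6,y1,z0,y2],.ref k121 k11 [(z3,[z3,y1,z1,y1]),(z3,[y3,z2,z0,
    z1])],.contra [y1,z1],.contra [y3,z2,z2],.contra [z1,z0,y1],.ref k121 k11 [(z3,[z3,z0,y1,y1]),(z3,[y3,z1,z2,z1])],
    .ref k4 k1 [(z3,[y3,z0,z2,z2]),(z1,[z1]),(z3,[y3,z2,z2])],.ref k125 k0 [(z1,[z3,z0,y2]),(z3,[y6,z7,z4]),(z1,[z2,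
    z0,z1]),(z3,[y6,z0,z4,z7])],.contra [y3,z0,z1,z1],.ref k1 k2 [(z6,[y3,z2,z1,z2])],.ref k1 k2 [(z1,[y1,z0,z0,z0,
    z1])],.ref k68 k1 [(z3,[y3,y1,z0,z1,z3]),(z3,[z3,z1,z1,z0,y3]),(z1,[y1,z0,z0,z0,z1])],.contra [y6,y1,z0,y2,z6],
    .contra [y3,z0,z1,z1],.ref k4 k0 [(z3,[z3,y1,y2,y1,z3]),(z3,[y3,z1,z0,y1,z3]),(z3,[z3,z1,z2,z1,y3])],.contra [y3,
    z1,z0,y1,z3],.ref k27 k2 [(z3,[z0,z0,y1,y1,z3]),(z1,[z1])],.contra [y3,z4,z1],.contra [z1],.ref k124 k5 [(z3,[z3,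
    y1,y1,y3,z3]),(z1,[z2,z0,z0,y1]),(z3,[y6,z0,z1,z4]),(z3,[z6,z1,z0,y4])],.contra [y3,y1,y1,z0,z3],.ref k4 k1 [(z3,
    [z3,z2,z2,z3,y6]),(z3,[y3,y2,z0,y1,z6]),(z3,[z3,z4,z2,z1,y6])],.contra [y3,y1,y1,z0,z3],.contra [z3,y2,y2,y3,z6],
    .contra [y3,y1,y1,z0,z3],.contra [y6,z1,z0,z2],.contra [y3,y1,y1,z0,z3],.ref k123 k1 [(z1,[z1,z2,z2,z2,y6]),(z3,
    [z0,y2,y1,y2,z6]),(z3,[z0,z3,z2,z2,y6]),(z1,[z0,y1,y1,y1,z3])],.contra [z1],.contra [y1,y1,y1,y1,z3],.contra [z3,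
    z6,z4,z4,y12],.ref k121 k11 [(z3,[y3,y2,y1,y2,z6]),(z3,[z3,z3,z2,z2,y6])],.contra [y3,y1,y1,z0,z3],.contra [y3,z0,
    y1,y1,z3],.contra [z1],.ref k122 k1 [(z1,[y1,z2,z2,z3,y6]),(z3,[z0,y2,y1,y2,z6]),(z3,[z0,z3,z2,z2,y6]),(z1,[z0,y1,
    y1,y1,z3])],.contra [y6,z1,z0,z2],.contra [z1]]),
    .geo true z3 k4 [(y2,z3),(z8,y6),(y2,z6),(z6,y6),(z0,z3),(z2,z0)] [(z1,[z1]),(z1,[z0,z1]),(z1,[z0,z0,z1]),(z1,[z0,z0,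
    z0,z3]),(z1,[]),(z1,[y1,y1,y1,y3,
    z3])] (Int.ofNat (nat_lit 699050)) (Int.ofNat (nat_lit 1048576)) (.s (.l k1) (.l k2)) [⟨z1,z1,[[k0,k3],[k1,k5],
    [k2,k4]],.bnd k3⟩],
    .geo true z3 k5 [(y2,z3),(z2,z0),(z6,y6),(z2,z3),(z4,y3),(z0,z3)] [(z1,[z1]),(z1,[z0,z1]),(z1,[z0,z0,z3]),(z1,[z0,z0,
    z0,z1]),(z1,[y1,y1,y3,y1,z3]),(z1,[])] (Int.ofNat (nat_lit 699050)) (Int.ofNat (nat_lit 1048576)) (.l k1) [],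
    .geo true z3 k5 [(z1,z0),(z2,z0),(z3,y3),(z2,z3),(z4,y3),(z0,z3)] [(z1,[z1]),(z1,[z0,z1]),(z1,[z0,z0,z3]),(z1,[z0,z0,
    z0,z1]),(z1,[y1,y1,y3,y1,z3]),(z1,[])] z0 (Int.ofNat (nat_lit 1048576)) (.s (.l k1) (.l k1)) [],
    .old (.lp [k80,k80,k97,k90,k72,k60] [k18,k30,k15,k33,k31,k0,k19,k19,k28,k28,k34,k34] k0 [[k0,k0,k62],[k0,k0,k0,k0,k0,
    k0,k17,k14],[k0,k0,k0,k0,k0,k34,k0,k0,k0,k37],[k0,k62,k0,k0,k0,k0,k0,k0,k0,k2],[k0,k0,k0,k34,k0,k0,k7,k0,k0,k0,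
    k18],[k0,k0,k0,k0,k0,k0,k19,k0,k0,k0,k16],[k14,k0,k0,k0,k0,k0,k0,k0,k25],[k17,k0,k0,k0,k19,k7],[k0,k0,k2,k37],[k0,
    k0,k0,k0,k0,k0,k0,k25,k0,k0,k11],[],[k0,k0,k0,k0,k16,k18,k0,k0,k11]] (nat_lit 240) k6
    [[(k4,k49),(k11,k53),(k7,k63),(k3,k65),(k8,k70),(k0,k80)],[(k5,k48),(k10,k76),(k1,k80),(k2,k95),(k9,k96),(k6,
    k108)],[(k9,k50),(k10,k61),(k6,k62),(k1,k65),(k5,k95),(k2,k142)],[(k4,k48),(k8,k48),(k11,k81),(k7,k94),(k0,k95),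
    (k3,k142)],[(k0,k48),(k3,k95),(k4,k97),(k8,k98),(k11,k131),(k7,k143)],[(k2,k48),(k1,k49),(k9,k62),(k10,k79),(k5,
    k97),(k6,k97)],[(k9,k62),(k1,k63),(k10,k93),(k2,k94),(k6,k97),(k5,k143)],[(k11,k50),(k3,k62),(k8,k81),(k4,k97),
    (k7,k97),(k0,k108)],[(k3,k50),(k4,k62),(k7,k62),(k11,k66),(k0,k96),(k8,k97)],[(k2,k48),(k1,k70),(k10,k77),(k6,
    k81),(k9,k97),(k5,k98)],[(k6,k50),(k1,k53),(k10,k60),(k9,k66),(k2,k81),(k5,k131)],[(k11,k60),(k3,k61),(k0,k76),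
    (k8,k77),(k4,k79),(k7,k93)]]
    [] k0
    [[k2,k0,k0,k0,k0,k0],[k2,k0,k1,k0,k0,k0],[k2,k0,k0,k0,k0,k1],[k1,k1,k0,k0,k0,k0],[k1,k1,k1,k0,k0,k0],[k1,k1,k0,k0,
    k1,k0],[k1,k1,k1,k0,k1,k0],[k1,k1,k0,k0,k0,k1],[k1,k0,k1,k0,k0,k0],[k2,k0,k2,k0,k0,k0],[k2,k0,k1,k0,k0,k1],[k1,k0,
    k2,k0,k0,k0],[k1,k0,k0,k1,k0,k0],[k1,k1,k0,k1,k0,k0],[k1,k1,k1,k1,k0,k0],[k1,k0,k1,k1,k0,k0],[k1,k0,k0,k1,k0,k1],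
    [k1,k0,k0,k0,k1,k0],[k1,k0,k1,k0,k1,k0],[k1,k0,k0,k0,k1,k1],[k1,k0,k0,k0,k0,k1],[k1,k1,k1,k0,k0,k1],[k1,k0,k1,k0,
    k0,k1],[k1,k0,k0,k0,k0,k2],[k0,k1,k1,k0,k0,k0],[k0,k1,k1,k0,k1,k0],[k0,k1,k0,k1,k0,k0],[k0,k1,k0,k1,k1,k0],[k0,k1,
    k0,k1,k0,k1],[k0,k1,k0,k0,k1,k0],[k0,k2,k0,k0,k2,k0],[k0,k1,k0,k0,k2,k0],[k0,k1,k0,k0,k1,k1],[k0,k1,k0,k0,k0,k1],
    [k0,k1,k0,k1,k1,k1],[k0,k1,k0,k0,k0,k2],[k0,k1,k0,k0,k1,k2],[k0,k0,k2,k0,k0,k0],[k0,k0,k1,k0,k1,k0],[k0,k0,k1,k0,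
    k0,k1],[k0,k0,k0,k2,k0,k0],[k0,k0,k0,k1,k1,k0],[k0,k0,k0,k1,k1,k1],[k0,k0,k0,k1,k0,k1],[k0,k0,k0,k1,k0,k2],[k0,k0,
    k0,k0,k2,k0],[k0,k0,k0,k0,k1,k1],[k0,k0,k0,k0,k1,k2],[k0,k0,k0,k0,k0,k2],[k0,k0,k0,k0,k0,k3]]
    [.contra [z1],.contra [z3,y2,z0,y1],.ref k1 k0 [(z3,[z3,y3,y1,y1,z3])],.contra [y3,z1,z1],.ref k1 k0 [(z1,[y1,z0,
    z0,z0,z1])],.contra [y3,z1,z1],.ref k121 k10 [(z3,[z3,y1,y1]),(z1,[y1,z0,z0,z0,z1])],.contra [y3,z1,z1],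
    .ref k55 k3 [(z3,[z3,y2,y1,y2,z3]),(z3,[y3,z4,z3,z2,y3])],.contra [z3,y2,z0,y1],.contra [z3,y2,z0,y1],.contra [z3,
    y1,z0,y2],.contra [y3,z0,y1,y1,z3],.ref k27 k0 [(z1,[y1,z0,z0,z0,z1]),(z3,[z0,z0,y1,y1,z3])],.contra [z3,z1,z1,z0,
    y3],.contra [y3,z2,y1,z0,z3],.ref k68 k8 [(z3,[z3,z1,z2,z1,y3]),(z3,[y3,y1,y1,z0,z3]),(z1,[z1])],.contra [y3,z0,
    y1,y1,z3],.contra [z3,y1,z0,z1],.contra [y3,z1,z1],.contra [y3,z1,z1],.contra [y3,z3,z1,z1],.ref k68 k9 [(z3,[z3,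
    z1,z0,y1]),(z3,[y3,y1,y1,z0,z3]),(z1,[z1])],.ref k1 k0 [(z6,[z3,y3,y2,y2,z6])],.contra [y3,z0,z1,z1],
    .ref k68 k8 [(z3,[y3,z1,z2,z1]),(z3,[z3,y1,y1]),(z1,[y1,z0,z0,z0,z1])],.ref k4 k8 [(z3,[z3,z1,z2,z1,y3]),(z3,[y3,
    y1,z0,z1,z3]),(z3,[z3,y1,y2,y1,z3])],.ref k68 k9 [(z3,[y3,z1,z0,y1,z3]),(z3,[z3,y1,y1]),(z1,[y1,z0,z0,z0,z1])],
    .contra [y3,y1,z0,z1,z3],.contra [y3,z1,z1],.ref k130 k0 [(z2,[y3,z0,z2]),(z1,[z0,z1]),(z2,[z1]),(z1,[z0,z0,z0,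
    z1])],.ref k129 k0 [(z1,[y3,z0,z1]),(z1,[z0,z1]),(z1,[z1]),(z1,[z0,z0,z0,z1])],.contra [z3,z2,y1],.contra [y3,z0,
    z1,z1],.ref k55 k3 [(z3,[y3,y2,y1,y2,z6]),(z3,[z3,z4,z3,z2,y6])],.ref k121 k10 [(z3,[y3,z0,z1,z1]),(z3,[z3,y1,y2,
    y1,z3])],.ref k1 k0 [(z3,[z3,y1,y2,y1,z3])],.contra [z1],.ref k55 k3 [(z6,[z3,y2,y2,y3,z6]),(z2,[y1,z2,z2,z1,
    y2])],.contra [y3,z0,z1,z1],.contra [y3,y2,y2,z0,z6],.contra [z3,z3,z1,z1,y3],.ref k1 k0 [(z1,[z1])],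
    .ref k121 k10 [(z3,[y3,y1,y1,z0,z3]),(z1,[z1])],.ref k127 k10 [(z3,[y3,y1,z1,z2,z3]),(z3,[z3,y2,y4,y2,z6]),(z3,
    [y3,z2,z1,y1,z3])],.contra [z1],.contra [y3,z1,z1],.ref k128 k8 [(z1,[y3,z0,z1]),(z1,[z3,z0,z0,z1]),(z1,[y3,y1,y1,
    y1,z3]),(z1,[z1])],.contra [z1],.ref k1 k0 [(z3,[z1,y1,y1,y1,z3])]])]

noncomputable def cU6_2_n1_4 : List XN :=
  [.geo true z3 k5 [(z2,y1),(z2,z2),(z2,y4),(z2,z5),(z4,y5),(z0,z3)] [(z1,[z1]),(z1,[z0,z1]),(z1,[z0,z0,z1]),(z1,[z0,z0,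
    z0,z1]),(z1,[y1,y1,y1,y1,z3]),(z1,[])] z0 (Int.ofNat (nat_lit 524288)) (.l k2) [⟨z1,z2,[[k0,k2],[k1,k4],[k3,k5]],
    .bnd k2⟩],
    .old (.lp [(nat_lit 252),(nat_lit 382),k192,(nat_lit 446),(nat_lit 400),(nat_lit 246)] [k97,k97,k32,k32,k127,k127,k0,
    k0,k23,k23,k79,k121] k0 [[k0,k0,k0,k0,k0,k0,k0,k0,k0,k0,k12],[k0,k0,k0,k56],[k56,k0,k0,k0,k194],[],[k0,k0,k0,k0,
    k0,k0,k0,k34,k0,k0,k0,k48],[k0,k0,k0,k194,k0,k0,k0,k0,k0,k0,k0,k70],[k0,k0,k0,k0,k0,k34],[k0,k0,k0,k0,k0,k0,k0,k0,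
    k80,k18],[k0,k0,k0,k0,k0,k0,k18,k0,k0,k0,k74],[k0,k0,k0,k0,k0,k0,k80,k0,k0,k0,k12],[k0,k0,k0,k0,k70,k48],[k0,k12,
    k0,k0,k0,k0,k0,k0,k12,k74]] (nat_lit 960) k6
    [[(k11,(nat_lit 216)),(k0,(nat_lit 240)),(k8,(nat_lit 252)),(k4,(nat_lit 292)),(k3,(nat_lit 317)),(k7,
    (nat_lit 397))],[(k1,(nat_lit 240)),(k10,(nat_lit 270)),(k5,(nat_lit 278)),(k2,(nat_lit 317)),(k9,(nat_lit 326)),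
    (k6,(nat_lit 349))],[(k5,(nat_lit 287)),(k1,(nat_lit 317)),(k2,(nat_lit 326)),(k10,(nat_lit 347)),(k9,
    (nat_lit 391)),(k6,(nat_lit 414))],[(k7,(nat_lit 220)),(k4,(nat_lit 287)),(k11,(nat_lit 293)),(k0,(nat_lit 317)),
    (k3,(nat_lit 326)),(k8,(nat_lit 391))],[(k11,k198),(k0,(nat_lit 278)),(k3,(nat_lit 287)),(k8,(nat_lit 296)),(k7,
    (nat_lit 319)),(k4,(nat_lit 386))],[(k10,k192),(k6,(nat_lit 285)),(k2,(nat_lit 287)),(k1,(nat_lit 292)),(k9,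
    (nat_lit 296)),(k5,(nat_lit 386))],[(k2,(nat_lit 220)),(k10,(nat_lit 297)),(k5,(nat_lit 319)),(k1,(nat_lit 397)),
    (k6,(nat_lit 446)),(k9,(nat_lit 457))],[(k4,(nat_lit 285)),(k11,(nat_lit 343)),(k0,(nat_lit 349)),(k3,
    (nat_lit 414)),(k7,(nat_lit 446)),(k8,(nat_lit 503))],[(k11,(nat_lit 222)),(k4,(nat_lit 296)),(k0,(nat_lit 326)),
    (k8,(nat_lit 382)),(k3,(nat_lit 391)),(k7,(nat_lit 457))],[(k1,(nat_lit 252)),(k5,(nat_lit 296)),(k10,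
    (nat_lit 356)),(k9,(nat_lit 382)),(k2,(nat_lit 391)),(k6,(nat_lit 503))],[(k5,k198),(k1,(nat_lit 216)),(k9,
    (nat_lit 222)),(k2,(nat_lit 293)),(k10,(nat_lit 320)),(k6,(nat_lit 343))],[(k4,k192),(k0,(nat_lit 270)),(k7,
    (nat_lit 297)),(k11,(nat_lit 320)),(k3,(nat_lit 347)),(k8,(nat_lit 356))]]
    [] k0
    [[k2,k0,k0,k0,k0,k0],[k3,k0,k0,k0,k0,k0],[k2,k1,k0,k0,k0,k0],[k2,k0,k1,k0,k0,k0],[k2,k0,k0,k0,k1,k0],[k2,k0,k0,k0,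
    k0,k1],[k2,k0,k1,k0,k0,k1],[k1,k1,k0,k0,k0,k0],[k1,k1,k1,k0,k0,k0],[k1,k1,k0,k1,k0,k0],[k1,k1,k0,k0,k0,k1],[k1,k0,
    k1,k0,k0,k0],[k1,k0,k2,k0,k0,k0],[k1,k0,k1,k0,k1,k0],[k1,k0,k1,k0,k0,k1],[k1,k0,k0,k1,k0,k0],[k1,k0,k0,k0,k1,k0],
    [k1,k0,k0,k0,k1,k1],[k1,k0,k1,k0,k1,k1],[k1,k0,k0,k0,k0,k1],[k1,k0,k1,k0,k0,k2],[k1,k0,k0,k1,k0,k1],[k1,k0,k0,k0,
    k0,k2],[k0,k2,k0,k0,k0,k0],[k0,k2,k1,k0,k0,k0],[k0,k1,k1,k0,k0,k0],[k0,k1,k1,k1,k0,k0],[k0,k1,k1,k0,k0,k1],[k0,k1,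
    k0,k1,k0,k0],[k0,k1,k0,k0,k1,k0],[k0,k1,k0,k0,k0,k1],[k0,k1,k0,k1,k0,k1],[k0,k0,k2,k0,k0,k0],[k0,k0,k2,k0,k0,k1],
    [k0,k0,k1,k1,k0,k0],[k0,k0,k1,k1,k0,k1],[k0,k0,k1,k0,k1,k0],[k0,k0,k1,k0,k1,k1],[k0,k0,k1,k0,k0,k1],[k0,k0,k2,k0,
    k0,k2],[k0,k0,k1,k0,k0,k2],[k0,k0,k0,k2,k0,k0],[k0,k0,k0,k1,k0,k1],[k0,k0,k0,k0,k2,k0],[k0,k0,k0,k0,k1,k1],[k0,k0,
    k0,k0,k1,k2],[k0,k0,k0,k0,k0,k2]]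
    [.contra [z1],.ref k1 k2 [(z2,[z1,y1])],.ref k1 k2 [(z1,[z1,y1,y1])],.ref k121 k4 [(z1,[y1,z0,y1,z0,z1]),(z1,[z1,
    y1,z0,y1])],.ref k127 k4 [(z1,[y1,y1,y3,y1,z3]),(z1,[z1,y2,z0,y2]),(z1,[y1,z2,z3,z2])],.ref k132 k11 [(z1,[y1,z2,
    z3,z1]),(z1,[z2,y1,z0,y2]),(z1,[y1,z2,z0,z4]),(z1,[z2,y4,z0,y5])],.ref k1 k2 [(z1,[z1,y1,z0,y1])],.contra [y1,z1,
    z2],.contra [y1,z1,z1,z1],.contra [z1,z0,z0,z1,y1],.contra [y1,z1,z1,z1],.contra [y1,z0,y1,z0,z1],.contra [y1,z1,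
    z0,z2],.contra [y1,y1,y2,y1,z2],.contra [y1,z1,z1,z1],.contra [y1,z0,y1,z0,z1],.ref k121 k4 [(z1,[y1,y1,y1,y1,
    z1]),(z1,[z1])],.ref k1 k2 [(z1,[z1])],.ref k121 k9 [(z1,[z1,y1,y1,y1]),(z1,[y1,z0,z0,z0,z1])],.contra [y1,z1,z1,
    z1],.contra [y1,z1,z0,z2],.ref k27 k2 [(z1,[z1]),(z1,[z0,z0,z1])],.contra [y1,z1,z0,z2],.contra [z1],
    .ref k55 k1 [(z1,[z1,y1,y3,z0,z1]),(z1,[y1,z3,z5,z2,y1])],.contra [y1,z1,z1,z1],.ref k1 k2 [(z1,[y1,z0,z0,z0,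
    z1])],.contra [z1,z0,z1,y1],.ref k121 k9 [(z1,[y1,y1,y1,y1,z1]),(z1,[z1])],.contra [y1,z0,z1],.contra [y1,z1,z1,
    z1],.contra [z1,y1,y2,y1,z1],.contra [z1],.contra [y1,z1,z0,z2],.contra [z1,z1,z3,z0,y1],.ref k121 k9 [(z1,[y1,y1,
    y2,z0,z1]),(z1,[z1,z0,z1,y1])],.contra [y1,z0,z0,z1],.contra [y1,z0,z0,z1],.contra [y1,z1,z1,z1],.contra [z1,z0,
    z2,y2],.contra [y1,z1,z0,z2],.contra [z1],.ref k4 k6 [(z1,[z1,z1,z2,z1,y1]),(z1,[y1,y1,z0,y1,z1]),(z1,[z1,y1,y2,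
    y1,z1])],.contra [y1,y2,y2,y2,z2],.contra [y1,z0,z1],.contra [y1,z0,z0,z1],.contra [z1]]),
    .old (.lp [k180,k192,(nat_lit 230),(nat_lit 280),(nat_lit 252),(nat_lit 300)] [k60,k60,k54,k54,k35,k35,k10,k10,k24,
    k24,k0,k0] k0 [[],[k0,k0,k0,k12,k0,k0,k0,k0,k0,k0,k12],[k12,k0,k0,k0,k68],[k0,k0,k0,k0,k0,k0,k0,k0,k76,k24],[k0,
    k0,k0,k0,k0,k0,k36,k88,k0,k0,k0,k106],[k0,k0,k0,k68,k0,k0,k0,k0,k0,k0,k0,k30],[k0,k0,k0,k0,k0,k88,k0,k0,k108],[k0,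
    k0,k0,k0,k0,k36,k0,k0,k100],[k0,k0,k24,k0,k0,k0,k0,k0,k0,k0,k72,k48],[k0,k0,k76,k0,k0,k0,k100,k108],[k0,k0,k0,k0,
    k30,k106,k0,k0,k0,k48],[k12,k0,k0,k0,k0,k0,k0,k0,k0,k72]] (nat_lit 720) k6
    [[(k8,k144),(k3,k174),(k0,k180),(k4,(nat_lit 235)),(k11,(nat_lit 288)),(k7,(nat_lit 336))],[(k1,k180),(k2,k186),
    (k9,(nat_lit 216)),(k5,(nat_lit 217)),(k6,(nat_lit 230)),(k10,(nat_lit 252))],[(k1,k174),(k2,k180),(k5,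
    (nat_lit 211)),(k9,(nat_lit 222)),(k6,(nat_lit 236)),(k10,(nat_lit 246))],[(k7,k168),(k3,k180),(k0,k186),(k4,
    (nat_lit 211)),(k11,(nat_lit 270)),(k8,(nat_lit 298))],[(k11,k189),(k3,(nat_lit 211)),(k0,(nat_lit 217)),(k8,
    (nat_lit 217)),(k7,(nat_lit 255)),(k4,(nat_lit 298))],[(k10,k159),(k6,k167),(k9,(nat_lit 205)),(k2,(nat_lit 211)),
    (k1,(nat_lit 235)),(k5,(nat_lit 298))],[(k2,k168),(k5,(nat_lit 255)),(k10,(nat_lit 260)),(k6,(nat_lit 316)),(k1,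
    (nat_lit 336)),(k9,(nat_lit 354))],[(k4,k167),(k11,k182),(k0,(nat_lit 230)),(k3,(nat_lit 236)),(k7,(nat_lit 316)),
    (k8,(nat_lit 366))],[(k11,k176),(k4,(nat_lit 205)),(k0,(nat_lit 216)),(k3,(nat_lit 222)),(k7,(nat_lit 354)),(k8,
    (nat_lit 360))],[(k1,k144),(k5,(nat_lit 217)),(k10,(nat_lit 228)),(k2,(nat_lit 298)),(k9,(nat_lit 360)),(k6,
    (nat_lit 366))],[(k9,k176),(k6,k182),(k5,k189),(k2,(nat_lit 270)),(k1,(nat_lit 288)),(k10,(nat_lit 372))],[(k4,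
    k159),(k8,(nat_lit 228)),(k3,(nat_lit 246)),(k0,(nat_lit 252)),(k7,(nat_lit 260)),(k11,(nat_lit 372))]]
    [] k0
    [[k2,k0,k0,k0,k0,k0],[k3,k0,k0,k0,k0,k0],[k2,k1,k0,k0,k0,k0],[k2,k0,k1,k0,k0,k0],[k2,k0,k0,k0,k1,k0],[k1,k1,k0,k0,
    k0,k0],[k1,k2,k0,k0,k0,k0],[k1,k1,k1,k0,k0,k0],[k1,k1,k0,k1,k0,k0],[k1,k1,k0,k0,k1,k0],[k1,k1,k0,k0,k0,k1],[k1,k0,
    k1,k0,k0,k0],[k1,k0,k1,k0,k1,k0],[k1,k0,k1,k0,k0,k1],[k1,k0,k0,k1,k0,k0],[k1,k0,k0,k0,k1,k0],[k1,k0,k0,k0,k1,k1],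
    [k1,k0,k1,k0,k1,k1],[k1,k0,k0,k0,k0,k1],[k0,k2,k0,k0,k0,k0],[k0,k3,k0,k0,k0,k0],[k0,k2,k1,k0,k0,k0],[k0,k2,k0,k1,
    k0,k0],[k0,k2,k0,k0,k1,k0],[k0,k2,k0,k0,k0,k1],[k0,k1,k1,k0,k0,k0],[k0,k1,k1,k1,k0,k0],[k0,k1,k1,k0,k1,k0],[k0,k1,
    k1,k0,k0,k1],[k0,k1,k0,k1,k0,k0],[k0,k1,k0,k0,k1,k0],[k0,k1,k0,k0,k0,k1],[k0,k1,k0,k1,k0,k1],[k0,k0,k2,k0,k0,k0],
    [k0,k0,k2,k0,k0,k1],[k0,k0,k1,k1,k0,k0],[k0,k0,k1,k1,k0,k1],[k0,k0,k1,k0,k1,k0],[k0,k0,k1,k0,k1,k1],[k0,k0,k1,k0,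
    k0,k1],[k0,k0,k2,k0,k0,k2],[k0,k0,k0,k2,k0,k0],[k0,k0,k0,k1,k0,k1],[k0,k0,k0,k0,k1,k1]]
    [.contra [z1],.ref k131 k7 [(z1,[z1]),(z1,[y1,z3,z3,z3]),(z1,[z1,y3,z0,y3])],.contra [y1,z2,z2,z1],.contra [y1,z2,
    z2,z1],.ref k127 k4 [(z1,[y1,y1,y3,y1,z3]),(z1,[z1,y2,z0,y2]),(z1,[y1,z2,z3,z2])],.contra [y1,z2,z2,z1],
    .contra [y1,z2,z2,z1],.contra [y1,z2,z2,z1],.ref k4 k6 [(z1,[z1,z0,z1,z1,y1]),(z1,[y1,z0,z1,y1,z1]),(z1,[z1,y2,y3,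
    y1,z1])],.contra [y1,z1,z2],.contra [z1,y1,y1],.contra [y1,z2,z2,z1],.contra [y1,y1,y2,y1,z2],.contra [y1,z1,z1,
    z1],.contra [z1,z0,z1,z1,y1],.contra [y1,z1,z2],.ref k1 k2 [(z1,[z1])],.ref k121 k9 [(z1,[z1,y1,y1,y1]),(z1,[y1,
    z0,z0,z0,z1])],.contra [y1,z1,z1,z1],.contra [z1],.ref k131 k8 [(z1,[z1]),(z1,[y1,z3,z3,z3]),(z1,[z1,y3,y6,y3,
    z3])],.contra [y1,z2,z2,z1],.ref k127 k9 [(z1,[y1,y1,z1,y1,z1]),(z1,[z1,y2,y4,y2,z2]),(z1,[y1,z2,z1,z2,z1])],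
    .contra [y1,z1,z2],.ref k121 k9 [(z1,[y1,z0,z1]),(z1,[z1,y1,y2,y1,z1])],.contra [y1,z2,z2,z1],.ref k1 k2 [(z1,[y1,
    z0,z0,z0,z1])],.ref k27 k2 [(z1,[y1,z0,z0,z0,z1]),(z1,[z0,z0,z1])],.contra [y1,z1,z1,z1],.ref k121 k9 [(z1,[y1,y1,
    y1,y1,z1]),(z1,[z1])],.contra [y1,z1,z2],.contra [y1,z1,z1,z1],.contra [z1,y1,y2,y1,z1],.contra [z1],
    .ref k27 k2 [(z1,[y1,z0,y1,z1,z1]),(z1,[z0,z0,z1])],.contra [y1,z0,y1,z0,z1],.contra [z1,z1,z2,z0,y1],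
    .ref k4 k10 [(z1,[z1,z1,z0,z1]),(z1,[y1,y1,y2,y1,z2]),(z1,[z1,y1,z0,y1])],.ref k4 k6 [(z1,[y1,z0,z1,z1]),(z1,[z1,
    z0,z1,y1]),(z1,[y1,y2,y3,y1,z2])],.contra [y1,z1,z1,z1],.contra [y1,z0,z0,z2],.contra [z1],.ref k4 k6 [(z1,[z1,z1,
    z2,z1,y1]),(z1,[y1,y1,z0,y1,z1]),(z1,[z1,y1,y2,y1,z1])],.contra [y1,z0,z1]]),
    .geo true z2 k5 [(z1,y1),(z1,z1),(z2,y2),(z1,z3),(z3,y3),(z0,z2)] [(z1,[z1]),(z1,[z0,z1]),(z1,[z0,z0,z2]),(z1,[z0,z0,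
    z0,z1]),(z1,[y1,y1,y2,y1,z2]),(z1,[])] z0 (Int.ofNat (nat_lit 1048576)) (.s (.l k1) (.l k2)) [⟨z1,z1,[[k0,k2],[k1,
    k4],[k3,k5]],.bnd k0⟩],
    .old (.lp [(nat_lit 392),(nat_lit 446),(nat_lit 414),(nat_lit 522),(nat_lit 580),(nat_lit 520)] [k96,k92,k67,k67,k83,
    k83,k29,k29,k0,k0,k30,k30] k0 [[k0,k0,k0,k0,k0,k0,k6],[k0,k0,k0,k130,k0,k0,k0,k0,k0,k0,k30],[k130,k0,k0,k0,k166],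
    [k0,k0,k0,k0,k0,k0,k0,k0,k156],[k0,k0,k0,k0,k0,k0,k128,k76,k0,k0,k0,k58],[k0,k0,k0,k166,k0,k0,k0,k0,k0,k0,k0,
    k112],[k0,k0,k0,k0,k0,k76,k0,k0,k140],[k0,k6,k0,k0,k0,k128,k0,k0,(nat_lit 262)],[k0,k0,k0,k0,k0,k0,k0,k0,k0,k0,
    (nat_lit 200),k106],[k0,k0,k156,k0,k0,k0,(nat_lit 262),k140],[k0,k0,k0,k0,k112,k58,k0,k0,k0,k106],[k30,k0,k0,k0,
    k0,k0,k0,k0,k0,(nat_lit 200)]] (nat_lit 1440) k6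
    [[(k8,(nat_lit 288)),(k3,(nat_lit 391)),(k0,(nat_lit 392)),(k4,(nat_lit 517)),(k7,(nat_lit 517)),(k11,
    (nat_lit 564))],[(k1,(nat_lit 392)),(k2,(nat_lit 417)),(k6,(nat_lit 455)),(k9,(nat_lit 478)),(k10,(nat_lit 484)),
    (k5,(nat_lit 531))],[(k2,(nat_lit 316)),(k1,(nat_lit 391)),(k5,(nat_lit 430)),(k10,(nat_lit 483)),(k6,
    (nat_lit 490)),(k9,(nat_lit 513))],[(k3,(nat_lit 316)),(k7,(nat_lit 318)),(k0,(nat_lit 417)),(k4,(nat_lit 430)),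
    (k11,(nat_lit 483)),(k8,(nat_lit 669))],[(k11,(nat_lit 311)),(k3,(nat_lit 430)),(k7,(nat_lit 468)),(k8,
    (nat_lit 497)),(k0,(nat_lit 531)),(k4,(nat_lit 580))],[(k9,(nat_lit 369)),(k6,(nat_lit 392)),(k10,(nat_lit 409)),
    (k2,(nat_lit 430)),(k1,(nat_lit 517)),(k5,(nat_lit 580))],[(k2,(nat_lit 318)),(k10,(nat_lit 409)),(k5,
    (nat_lit 468)),(k1,(nat_lit 517)),(k9,(nat_lit 627)),(k6,(nat_lit 650))],[(k11,(nat_lit 381)),(k4,(nat_lit 392)),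
    (k0,(nat_lit 455)),(k3,(nat_lit 490)),(k7,(nat_lit 650)),(k8,(nat_lit 813))],[(k11,(nat_lit 288)),(k4,
    (nat_lit 369)),(k0,(nat_lit 478)),(k3,(nat_lit 513)),(k7,(nat_lit 627)),(k8,(nat_lit 720))],[(k1,(nat_lit 288)),
    (k10,(nat_lit 444)),(k5,(nat_lit 497)),(k2,(nat_lit 669)),(k9,(nat_lit 720)),(k6,(nat_lit 813))],[(k9,
    (nat_lit 288)),(k5,(nat_lit 311)),(k6,(nat_lit 381)),(k2,(nat_lit 483)),(k1,(nat_lit 564)),(k10,(nat_lit 720))],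
    [(k4,(nat_lit 409)),(k7,(nat_lit 409)),(k8,(nat_lit 444)),(k3,(nat_lit 483)),(k0,(nat_lit 484)),(k11,
    (nat_lit 720))]]
    [] k0
    [[k2,k0,k0,k0,k0,k0],[k3,k0,k0,k0,k0,k0],[k2,k1,k0,k0,k0,k0],[k2,k0,k0,k1,k0,k0],[k2,k0,k0,k0,k1,k0],[k1,k1,k0,k0,
    k0,k0],[k1,k2,k0,k0,k0,k0],[k1,k1,k1,k0,k0,k0],[k1,k1,k0,k1,k0,k0],[k1,k1,k0,k0,k0,k1],[k1,k0,k1,k0,k0,k0],[k1,k0,
    k1,k0,k0,k1],[k1,k0,k0,k1,k0,k0],[k1,k0,k0,k1,k0,k1],[k1,k0,k0,k0,k1,k0],[k1,k1,k0,k0,k1,k0],[k1,k0,k1,k0,k1,k0],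
    [k1,k0,k0,k1,k1,k0],[k1,k0,k0,k0,k1,k1],[k1,k0,k0,k0,k0,k1],[k0,k2,k0,k0,k0,k0],[k0,k3,k0,k0,k0,k0],[k0,k4,k0,k0,
    k0,k0],[k0,k2,k1,k0,k0,k0],[k0,k2,k0,k1,k0,k0],[k0,k2,k0,k0,k0,k1],[k0,k1,k1,k0,k0,k0],[k0,k1,k1,k1,k0,k0],[k0,k1,
    k1,k0,k0,k1],[k0,k1,k0,k1,k0,k0],[k0,k1,k0,k1,k0,k1],[k0,k1,k0,k0,k1,k0],[k0,k1,k0,k0,k0,k1],[k0,k0,k2,k0,k0,k0],
    [k0,k0,k2,k0,k0,k1],[k0,k0,k1,k1,k0,k0],[k0,k0,k1,k1,k0,k1],[k0,k0,k1,k0,k1,k0],[k0,k0,k1,k0,k1,k1],[k0,k0,k1,k0,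
    k0,k1],[k0,k0,k0,k2,k0,k0],[k0,k0,k0,k1,k0,k1],[k0,k0,k0,k0,k1,k1]]
    [.contra [z1],.ref k131 k7 [(z1,[z1]),(z1,[y1,z3,z3,z3]),(z1,[z1,y3,z0,y3])],.contra [z1,y1,y1],.ref k55 k0 [(z1,
    [z1,y1,z1,z1,y1]),(z1,[y1,z3,z1,z1,z1])],.ref k127 k4 [(z1,[y1,y1,y3,y1,z3]),(z1,[z1,y2,z0,y2]),(z1,[y1,z2,z3,
    z2])],.contra [y1,z2,z2],.contra [z1,y1,y1],.contra [z1,y1,y1],.contra [z1,y1,y1],.contra [z1,y1,y1],.contra [y1,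
    z0,y1,z0,z1],.contra [z1,z0,z0,y1],.contra [z1,z0,z1,z1,y1],.ref k27 k2 [(z1,[z1]),(z1,[z0,z0,z1])],
    .ref k121 k4 [(z1,[y1,y1,y1,y1,z1]),(z1,[z1])],.contra [y1,z0,z0,y1,z1],.contra [y1,y1,y2,y1,z2],.contra [y1,z0,
    z0,y1,z1],.ref k1 k2 [(z1,[z1])],.contra [y1,z1,z1,z1],.contra [z1],.ref k131 k8 [(z1,[z1]),(z1,[y1,z3,z3,z3]),
    (z1,[z1,y3,y6,y3,z3])],.ref k1 k2 [(z2,[y1,z2,z4])],.ref k135 k2 [(z1,[y1,z2,z2,z1]),(z1,[z1,z0,z0,y1]),(z1,[z0,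
    z0,z0,z1]),(z1,[z1,y2,y4,y3,z2])],.ref k127 k4 [(z1,[z1,y2,y4,z0,z2]),(z1,[y1,y1,z1,y3,z1]),(z1,[z1,z1,z2,z3,
    y1])],.ref k121 k9 [(z1,[y1,z0,z1]),(z1,[z1,y1,y2,y1,z1])],.contra [y1,z1,z1,z1],.ref k1 k2 [(z1,[y1,z0,z0,z0,
    z1])],.contra [z1,z0,z0,y1],.ref k121 k9 [(z1,[y1,y1,y1,y1,z1]),(z1,[z1])],.contra [z1,y1,y2,y1,z1],.contra [z1,
    z0,y1,z1],.contra [y1,z1,z1,z1],.contra [z1],.contra [z1,z0,z0,y1],.contra [z1,z1,z2,z0,y1],.contra [z1,z0,z0,y1],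
    .ref k4 k10 [(z1,[z1,z1,z0,z1]),(z1,[y1,y1,y2,y1,z2]),(z1,[z1,y1,z0,y1])],.contra [y1,y1,y1,z0,z1],.contra [y1,z1,
    z1,z1],.contra [z1],.ref k4 k6 [(z1,[z1,z1,z2,z1,y1]),(z1,[y1,y1,z0,y1,z1]),(z1,[z1,y1,y2,y1,z1])],.contra [z1,
    z1]])]

/-- the nodes with numbers from 84 -/
noncomputable def cU6_2_n1 : List XN :=
  cU6_2_n1_0 ++ (cU6_2_n1_1 ++ (cU6_2_n1_2 ++ (cU6_2_n1_3 ++ cU6_2_n1_4)))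

theorem cU6_2_k1 : allI (chkX 6 cU6_2_w ttU6 cU6_2_s (blkF [] cU6_2_D)) cU6_2_n1 84 = true := by
  decide +kernel

end Pool.Agent.Lib_MP_fa6e45
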