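import Pool.Agent.Lib_MP_fa6e45.CY6_1d

/-!
MP_fa6e45_co, stage 7: certificates (generated by a program).
-/

namespace Pool.Agent.Lib_MP_fa6e45

noncomputable def cU6_2_n2_0 : List XN :=
  [.old (.lp [(nat_lit 660),(nat_lit 630),(nat_lit 656),(nat_lit 556),(nat_lit 640),(nat_lit 694)] [k167,k167,k182,k182,
    k155,k183,(nat_lit 219),(nat_lit 219),k0,(nat_lit 354),k44,(nat_lit 256)] k0 [[k0,k0,k26,k0,k0,k0,k66],[k0,k0,k22,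
    k0,k0,k0,k74],[k0,k0,k0,k0,k0,k0,k0,k0,k52,(nat_lit 428)],[k22,k26],[k0,k0,k0,k0,k0,k0,k0,(nat_lit 236),k0,k0,
    k22],[k0,k0,k0,k0,k0,k0,k0,k68,k0,k0,k14],[k0,k0,k0,k0,k68,(nat_lit 236)],[k74,k66],[k0,k0,k0,(nat_lit 428),k0,k0,
    k0,k0,k0,k0,k0,(nat_lit 566)],[k0,k0,k0,k52,k0,k0,k0,k0,k0,k0,k0,k46],[k0,k0,k0,k0,k0,k0,k0,k0,k46,(nat_lit 566)],
    [k0,k0,k0,k0,k14,k22]] (nat_lit 1920) k6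
    [[(k7,(nat_lit 594)),(k3,(nat_lit 645)),(k4,(nat_lit 650)),(k0,(nat_lit 660)),(k8,(nat_lit 873)),(k11,
    (nat_lit 1137))],[(k9,(nat_lit 407)),(k5,(nat_lit 618)),(k1,(nat_lit 660)),(k2,(nat_lit 667)),(k6,(nat_lit 682)),
    (k10,(nat_lit 783))],[(k9,(nat_lit 384)),(k5,(nat_lit 607)),(k1,(nat_lit 645)),(k2,(nat_lit 656)),(k6,
    (nat_lit 659)),(k10,(nat_lit 768))],[(k8,(nat_lit 384)),(k11,(nat_lit 504)),(k7,(nat_lit 593)),(k3,(nat_lit 656)),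
    (k4,(nat_lit 657)),(k0,(nat_lit 667))],[(k7,(nat_lit 592)),(k3,(nat_lit 607)),(k0,(nat_lit 618)),(k4,
    (nat_lit 656)),(k8,(nat_lit 863)),(k11,(nat_lit 983))],[(k6,(nat_lit 384)),(k9,(nat_lit 553)),(k1,(nat_lit 650)),
    (k5,(nat_lit 656)),(k2,(nat_lit 657)),(k10,(nat_lit 809))],[(k6,(nat_lit 488)),(k5,(nat_lit 592)),(k2,
    (nat_lit 593)),(k1,(nat_lit 594)),(k9,(nat_lit 657)),(k10,(nat_lit 753))],[(k4,(nat_lit 384)),(k7,(nat_lit 488)),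
    (k11,(nat_lit 519)),(k3,(nat_lit 659)),(k0,(nat_lit 682)),(k8,(nat_lit 775))],[(k3,(nat_lit 384)),(k11,
    (nat_lit 384)),(k0,(nat_lit 407)),(k4,(nat_lit 553)),(k8,(nat_lit 640)),(k7,(nat_lit 657))],[(k2,(nat_lit 384)),
    (k10,(nat_lit 384)),(k9,(nat_lit 640)),(k6,(nat_lit 775)),(k5,(nat_lit 863)),(k1,(nat_lit 873))],[(k9,
    (nat_lit 384)),(k2,(nat_lit 504)),(k6,(nat_lit 519)),(k10,(nat_lit 648)),(k5,(nat_lit 983)),(k1,(nat_lit 1137))],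
    [(k8,(nat_lit 384)),(k11,(nat_lit 648)),(k7,(nat_lit 753)),(k3,(nat_lit 768)),(k0,(nat_lit 783)),(k4,
    (nat_lit 809))]]
    [] k0
    [[k2,k0,k0,k0,k0,k0],[k1,k1,k0,k0,k0,k0],[k1,k1,k0,k0,k1,k0],[k1,k0,k1,k0,k0,k0],[k1,k0,k0,k1,k0,k0],[k1,k0,k1,k1,
    k0,k0],[k1,k0,k0,k2,k0,k0],[k1,k0,k0,k1,k1,k0],[k1,k0,k0,k1,k0,k1],[k1,k0,k0,k1,k1,k1],[k1,k0,k0,k0,k1,k0],[k0,k2,
    k0,k0,k0,k0],[k0,k2,k0,k1,k0,k0],[k0,k2,k0,k0,k1,k0],[k0,k1,k1,k0,k0,k0],[k0,k1,k1,k1,k0,k0],[k0,k1,k1,k0,k1,k0],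
    [k0,k1,k0,k1,k0,k0],[k0,k1,k0,k2,k0,k0],[k0,k1,k0,k1,k1,k0],[k0,k1,k0,k1,k0,k1],[k0,k1,k0,k0,k1,k0],[k0,k2,k0,k0,
    k2,k0],[k0,k1,k0,k0,k2,k0],[k0,k1,k0,k0,k2,k1],[k0,k1,k0,k0,k1,k1],[k0,k1,k0,k1,k1,k1],[k0,k1,k0,k0,k0,k1],[k0,k0,
    k2,k0,k0,k0],[k0,k0,k2,k1,k0,k0],[k0,k0,k1,k1,k0,k0],[k0,k0,k1,k2,k0,k0],[k0,k0,k1,k0,k1,k0],[k0,k0,k1,k1,k1,k0],
    [k0,k0,k1,k0,k0,k1],[k0,k0,k0,k2,k0,k0],[k0,k0,k0,k3,k0,k0],[k0,k0,k0,k2,k0,k1],[k0,k0,k0,k1,k1,k0],[k0,k0,k0,k1,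
    k1,k1],[k0,k0,k0,k1,k0,k1],[k0,k0,k0,k0,k2,k0],[k0,k0,k0,k0,k2,k1],[k0,k0,k0,k0,k1,k1],[k0,k0,k0,k0,k2,k2],[k0,k0,
    k0,k0,k1,k2],[k0,k0,k0,k0,k0,k2]]
    [.contra [z1],.contra [y1,z1,z1],.ref k68 k11 [(z1,[y1,z0,z1,z1]),(z1,[z1,z1,z0,y1]),(z1,[y1,z0,z0,z1])],
    .ref k121 k0 [(z1,[y1,z1]),(z1,[z1])],.contra [y1,z1,z1],.ref k68 k3 [(z1,[z1,y2,y1,z1]),(z1,[y1,z1]),(z1,[z1])],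
    .ref k55 k8 [(z1,[y1,z2,z2]),(z1,[z1,y4,y2,z2])],.ref k27 k0 [(z1,[z0,y1,y1,z1]),(z1,[z1])],.contra [z1,y1],
    .contra [z1,y1],.ref k4 k3 [(z1,[z1,y2,y1,z1]),(z1,[y1,z0,y1,z1]),(z1,[z1,z2,z1,y1])],.contra [z1],
    .ref k4 k11 [(z1,[z1]),(z1,[y1,z2,z2]),(z1,[z1,z0,y2])],.ref k134 k10 [(z1,[y1,y2,y1,z1]),(z1,[z0,z1,z1]),(z1,
    [z1])],.contra [y1,y1,z0,z1],.contra [y1,y1,z0,z1],.contra [y1,y1,z0,z1],.contra [y1,z1,z1],.ref k121 k7 [(z1,[y1,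
    z1,z1]),(z1,[z1,z0,y1])],.contra [y1,y1,z0,z1],.contra [y1,z2,z1],.contra [y1,y1,z0,z1],.ref k136 k10 [(z2,[y1,y4,
    y2,z2]),(z1,[z0,z1,z1]),(z2,[z1])],.ref k134 k5 [(z1,[y1,z0,z1]),(z1,[z0,y1,y1,z1]),(z1,[z1])],.ref k133 k5 [(z1,
    [y1,z0,z1]),(z1,[z0,y1,y1,z1]),(z1,[z1])],.ref k68 k3 [(z1,[y1,y2,y1,z2]),(z1,[z1,z1,z0,y1]),(z1,[y1,z0,z0,z1])],
    .ref k121 k0 [(z1,[z1,z1,z0,y1]),(z1,[y1,z0,z0,z1])],.ref k4 k11 [(z1,[z1,z0,z1]),(z1,[y1,z2,z1]),(z1,[z1,z0,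
    y1])],.contra [z1],.ref k133 k5 [(z1,[z1,z2,z2,y2]),(z1,[z0,y1,y1,z1]),(z1,[y1,y2,y1,z2])],.contra [y1,y1,z0,z1],
    .ref k133 k10 [(z1,[z1,y2,y2]),(z1,[z0,z1,z1]),(z1,[y1,z0,z1,z1])],.contra [y1,y1,z0,z1],.contra [y1,y1,z0,z1],
    .contra [y1,y1,y1,z1],.contra [z1],.ref k131 k4 [(z1,[z1]),(z1,[y1,y3,z0,z3]),(z1,[z1,z0,y3])],.ref k127 k7 [(z1,
    [y1,z3,z2]),(z1,[z1,z0,y2]),(z1,[y1,y3,y1,z3])],.contra [y1,y1,z0,z1],.ref k1 k0 [(z1,[z1])],.ref k121 k7 [(z1,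
    [y1,z1]),(z1,[z1])],.contra [z1],.ref k55 k9 [(z1,[z1]),(z1,[y1,y2,z0,z2])],.contra [y1,y1,y1,z1],.contra [y1,y2,
    y2,z2],.ref k121 k0 [(z1,[z1,z1,z1,y1]),(z1,[y1,z0,y1,z1])],.contra [y1,z2]]),
    .geo true z2 k5 [(z0,z6),(z2,y5),(z2,y3),(z2,z1),(z2,y1),(z0,z2)] [(z1,[z2]),(z1,[z0,z1]),(z1,[z0,z0,z1]),(z1,[z0,z0,
    z0,z1]),(z1,[y2,y1,y1,y1,z2]),(z1,[])] z0 (Int.ofNat (nat_lit 419431)) (.s (.l k1) (.s (.l k1) (.l k1))) [],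
    .geo true z3 k4 [(y2,z3),(z2,z0),(z4,y3),(z6,y3),(z0,z3),(z2,z0)] [(z1,[z1]),(z1,[z0,z1]),(z1,[z0,z0,z1]),(z1,[z0,z0,
    z0,z3]),(z1,[]),(z1,[y1,y1,y1,y3,
    z3])] (Int.ofNat (nat_lit 699050)) (Int.ofNat (nat_lit 1398102)) (.s (.l k1) (.l k1)) [],
    .geo true z1 k5 [(z0,z4),(z2,y4),(z0,z3),(z0,z2),(z2,y6),(z0,z1)] [(z1,[z1]),(z1,[z0,z1]),(z1,[z0,z0,z1]),(z1,[z0,z0,
    z0,z1]),(z1,[y1,y1,y1,y1,z1]),(z1,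
    [])] z0 (Int.ofNat (nat_lit 349526)) (.s (.s (.s (.s (.s (.l k2) (.l k1)) (.l k1)) (.s (.l k1) (.l k1))) (.s (.l k1) (.l k1))) (.s (.l k1) (.l k1))) [⟨z0,
    z1,[[k0,k1],[k2,k3],[k4,k5]],.bnd k0⟩],
    .old (.lp [(nat_lit 1770),(nat_lit 1650),(nat_lit 1920),(nat_lit 2248),(nat_lit 2248),(nat_lit 1672)] [(nat_lit 748),
    (nat_lit 748),(nat_lit 808),(nat_lit 808),(nat_lit 642),(nat_lit 704),k0,(nat_lit 1018),k162,(nat_lit 856),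
    (nat_lit 797),(nat_lit 797)] k0 [[k0,k0,(nat_lit 374),k62,k0,k0,k154],[k0,k0,k0,k0,k0,k0,k162,k0,k0,k0,k70,k150],
    [k0,k62],[k0,(nat_lit 374),k0,k0,k104],[k0,k0,k0,k0,k0,k0,k0,(nat_lit 1184)],[k0,k0,k104,k0,k0,k0,k0,
    (nat_lit 248)],[k0,k0,k0,k0,(nat_lit 248),(nat_lit 1184)],[k162,k154,k0,k0,k0,k0,k0,k0,k80],[k0,k0,k0,k0,k0,k0,k0,
    k0,k0,k0,(nat_lit 916),(nat_lit 328)],[k0,k0,k0,k0,k0,k0,k80],[k150,k0,k0,k0,k0,k0,k0,k0,k0,(nat_lit 328)],[k70,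
    k0,k0,k0,k0,k0,k0,k0,k0,(nat_lit 916)]] (nat_lit 5760) k5
    [[(k8,(nat_lit 1440)),(k7,(nat_lit 1500)),(k3,(nat_lit 1640)),(k4,(nat_lit 1876)),(k0,(nat_lit 1920)),(k11,
    (nat_lit 2049))],[(k5,(nat_lit 1440)),(k9,(nat_lit 1508)),(k2,(nat_lit 1648)),(k10,(nat_lit 1791)),(k1,
    (nat_lit 1920)),(k6,(nat_lit 2680))],[(k9,(nat_lit 1440)),(k10,(nat_lit 1511)),(k1,(nat_lit 1640)),(k5,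
    (nat_lit 1816)),(k2,(nat_lit 2024)),(k6,(nat_lit 2612))],[(k7,(nat_lit 1440)),(k0,(nat_lit 1648)),(k11,
    (nat_lit 1661)),(k4,(nat_lit 1920)),(k3,(nat_lit 2024)),(k8,(nat_lit 2296))],[(k0,(nat_lit 1440)),(k7,
    (nat_lit 1440)),(k11,(nat_lit 1765)),(k3,(nat_lit 1816)),(k4,(nat_lit 1920)),(k8,(nat_lit 2400))],[(k6,
    (nat_lit 1440)),(k10,(nat_lit 1827)),(k1,(nat_lit 1876)),(k2,(nat_lit 1920)),(k5,(nat_lit 1920)),(k9,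
    (nat_lit 2016))],[(k2,(nat_lit 1440)),(k5,(nat_lit 1440)),(k10,(nat_lit 1451)),(k1,(nat_lit 1500)),(k6,
    (nat_lit 2000)),(k9,(nat_lit 2576))],[(k4,(nat_lit 1440)),(k7,(nat_lit 2000)),(k11,(nat_lit 2469)),(k3,
    (nat_lit 2612)),(k0,(nat_lit 2680)),(k8,(nat_lit 3184))],[(k3,(nat_lit 1440)),(k0,(nat_lit 1508)),(k11,
    (nat_lit 1533)),(k4,(nat_lit 2016)),(k8,(nat_lit 2248)),(k7,(nat_lit 2576))],[(k1,(nat_lit 1440)),(k10,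
    (nat_lit 1979)),(k9,(nat_lit 2248)),(k2,(nat_lit 2296)),(k5,(nat_lit 2400)),(k6,(nat_lit 3184))],[(k9,
    (nat_lit 1533)),(k2,(nat_lit 1661)),(k5,(nat_lit 1765)),(k1,(nat_lit 2049)),(k6,(nat_lit 2469)),(k10,
    (nat_lit 2588))],[(k7,(nat_lit 1451)),(k3,(nat_lit 1511)),(k0,(nat_lit 1791)),(k4,(nat_lit 1827)),(k8,
    (nat_lit 1979)),(k11,(nat_lit 2588))]]
    [] k0
    [[k2,k0,k0,k0,k0,k0],[k2,k1,k0,k0,k0,k0],[k2,k0,k1,k0,k0,k0],[k2,k0,k0,k0,k1,k0],[k1,k1,k0,k0,k0,k0],[k1,k2,k0,k0,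
    k0,k0],[k1,k1,k1,k0,k0,k0],[k1,k1,k0,k0,k1,k0],[k1,k1,k0,k0,k0,k1],[k1,k0,k1,k0,k0,k0],[k1,k0,k2,k0,k0,k0],[k1,k0,
    k1,k0,k0,k1],[k1,k0,k0,k1,k0,k0],[k1,k0,k1,k1,k0,k0],[k1,k0,k0,k0,k1,k0],[k1,k0,k1,k0,k1,k0],[k1,k0,k0,k0,k2,k0],
    [k1,k0,k0,k0,k1,k1],[k1,k0,k0,k0,k0,k1],[k0,k2,k0,k0,k0,k0],[k0,k2,k0,k0,k0,k1],[k0,k1,k1,k0,k0,k0],[k0,k1,k2,k0,
    k0,k0],[k0,k1,k1,k1,k0,k0],[k0,k1,k1,k0,k0,k1],[k0,k1,k0,k1,k0,k0],[k0,k1,k0,k1,k0,k1],[k0,k1,k0,k0,k1,k0],[k0,k1,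
    k0,k0,k1,k1],[k0,k1,k0,k0,k0,k1],[k0,k0,k2,k0,k0,k0],[k0,k0,k2,k1,k0,k0],[k0,k0,k2,k0,k0,k1],[k0,k0,k1,k1,k0,k0],
    [k0,k0,k1,k2,k0,k0],[k0,k0,k1,k1,k0,k1],[k0,k0,k1,k0,k1,k0],[k0,k0,k1,k0,k0,k1],[k0,k0,k0,k2,k0,k0],[k0,k0,k0,k1,
    k0,k1],[k0,k0,k0,k0,k2,k0],[k0,k0,k0,k0,k1,k1],[k0,k0,k0,k0,k0,k2]]
    [.contra [z1],.contra [y1,z2,z1,z2],.contra [y1,z2,z1,z2],.ref k140 k4 [(z1,[z1,y3,y1,y5,z1]),(z1,[y1,z2,z0,z4]),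
    (z1,[z1,y2,z0,y3]),(z1,[z1,y1,z0,y2])],.contra [y1,z2,z1,z2],.ref k0 k3 [(z1,[z1,y1,y1])],.contra [y1,z2,z1,z2],
    .contra [y1,y1,y1,y2,z2],.contra [y1,z1,z1,z1],.contra [y1,z2,z1,z2],.contra [y1,z2,z1,z2],.contra [z1,y1,z0,y1],
    .contra [z1,z0,z1,z1,y1],.ref k137 k3 [(z1,[z0,y1,y1,y1,z1]),(z1,[y1,z1,z1,z1])],.contra [y1,z1,z0,z2],
    .contra [y1,z1,z0,z2],.ref k55 k1 [(z1,[y1,z0,y1,z1,z1]),(z1,[z1,z2,z3,z1,y1])],.ref k1 k2 [(z1,[z1])],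
    .contra [y1,z1,z1,z1],.contra [z1],.ref k139 k2 [(z1,[y2,z3,z4]),(z1,[z2,z0,y1]),(z1,[z1,z0,y2,z3]),(z1,[z0,y1,y1,
    y1,z1])],.contra [y1,z2,z1,z2],.contra [y1,z2,z1,z2],.ref k1 k2 [(z1,[y1,z0,z0,z0,z1])],.contra [y1,z1,z1,z1],
    .contra [y1,z0,z0,y1,z1],.contra [z1,z1,z0,z2,y1],.ref k0 k3 [(z1,[z1])],.ref k137 k3 [(z1,[z0,y1,y1,y1,z1]),(z1,
    [z1,z1,z1,z1,y1])],.contra [y1,z1,z1,z1],.contra [z1],.ref k55 k1 [(z1,[z1]),(z1,[y1,z2,z2,z2])],.ref k3 k5 [(z1,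
    [z0,y1,y1,y1,z1]),(z1,[z1,z0,z0,y1])],.ref k3 k5 [(z1,[z0,y1,y1,y1,z1]),(z1,[z1,z1,z1,z1,y1])],.ref k138 k11 [(z1,
    [y1,y2,y1,y4,z2]),(z1,[z1,z4,z2,z6,y2]),(z1,[z1,z2,z2,z4,y2]),(z1,[y1,y2,y2,y2,z2])],.contra [z1,y1,y1,y2,z1],
    .contra [y1,z1,z0,z2],.contra [y1,z1,z1,z1],.contra [z1],.ref k137 k3 [(z1,[z0,y1,y1,y1,z1]),(z1,[y1,z0,z1])],
    .contra [y1,y2,y2,y2,z2],.contra [y1,z0,z0,z1],.contra [z1]]),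
    .geo true z3 k4 [(y4,z3),(z2,z0),(z6,y3),(z6,y3),(z0,z3),(z2,z0)] [(z1,[z1]),(z1,[z0,z1]),(z1,[z0,z0,z3]),(z1,[z0,z0,
    z0,z3]),(z1,[]),(z1,[y1,y1,y3,y3,
    z3])] (Int.ofNat (nat_lit 1398101)) (Int.ofNat (nat_lit 2097152)) (.s (.l k1) (.l k1)) [],
    .geo true z1 k5 [(y2,z4),(z2,y3),(z2,y2),(z2,y1),(z0,z1),(z0,z1)] [(z1,[z1]),(z1,[z0,z1]),(z1,[z0,z0,z1]),(z1,[z0,z0,
    z0,z1]),(z1,[y1,y1,y1,y1,z1]),(z1,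
    [])] (Int.ofNat (nat_lit 524288)) (Int.ofNat (nat_lit 699051)) (.s (.l k1) (.l k1)) [],
    .geo true z1 k5 [(z0,z3),(z2,y2),(z0,z2),(z0,z2),(z2,y6),(z0,z1)] [(z1,[z1]),(z1,[z0,z1]),(z1,[z0,z0,z1]),(z1,[z0,z0,
    z0,z1]),(z1,[y1,y1,y1,y1,z1]),(z1,
    [])] z0 (Int.ofNat (nat_lit 349526)) (.s (.s (.s (.s (.s (.l k2) (.l k1)) (.l k1)) (.l k1)) (.s (.l k1) (.l k1))) (.s (.s (.l k1) (.l k1)) (.l k1))) [⟨z0,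
    z1,[[k0,k1],[k2,k3],[k4,k5]],.bnd k0⟩],
    .old (.lp [(nat_lit 278),(nat_lit 248),(nat_lit 338),(nat_lit 342),(nat_lit 328),(nat_lit 382)] [k148,k96,k137,k137,
    k138,k46,k90,k90,k52,k142,k140,k0] k0 [[k0,k0,k136,k0,k0,k0,k30,k0,k0,k0,k0,k42],[k0,k0,k8,k0,k0,k0,k0,k0,k0,k0,
    k0,k42],[k0,k0,k0,k0,k44,k0,k0,k0,k192],[k8,k136],[k0,k0,k0,k0,k0,k0,k0,k102],[k0,k0,k0,k44,k0,k0,k0,k102],[k0,k0,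
    k0,k0,k102,k102],[k0,k30,k0,k0,k0,k0,k0,k0,k188],[k0,k0,k0,k0,k0,k0,k0,k0,k0,k0,k182,k22],[k0,k0,k0,k192,k0,k0,
    k188],[k42,k42,k0,k0,k0,k0,k0,k0,k0,k22],[k0,k0,k0,k0,k0,k0,k0,k0,k0,k182]] (nat_lit 960) k6
    [[(k8,k192),(k4,(nat_lit 288)),(k0,(nat_lit 320)),(k3,(nat_lit 331)),(k7,(nat_lit 336)),(k11,(nat_lit 448))],[(k5,
    k192),(k10,k192),(k9,(nat_lit 202)),(k2,(nat_lit 245)),(k6,(nat_lit 284)),(k1,(nat_lit 320))],[(k10,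
    (nat_lit 203)),(k9,(nat_lit 243)),(k6,(nat_lit 325)),(k1,(nat_lit 331)),(k5,(nat_lit 331)),(k2,(nat_lit 384))],
    [(k11,k193),(k0,(nat_lit 245)),(k4,(nat_lit 247)),(k7,(nat_lit 251)),(k8,(nat_lit 333)),(k3,(nat_lit 384))],[(k0,
    k192),(k3,(nat_lit 331)),(k4,(nat_lit 382)),(k7,(nat_lit 386)),(k11,(nat_lit 476)),(k8,(nat_lit 616))],[(k6,k192),
    (k10,(nat_lit 244)),(k2,(nat_lit 247)),(k1,(nat_lit 288)),(k9,(nat_lit 344)),(k5,(nat_lit 382))],[(k6,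
    (nat_lit 240)),(k2,(nat_lit 251)),(k10,(nat_lit 292)),(k1,(nat_lit 336)),(k5,(nat_lit 386)),(k9,(nat_lit 392))],
    [(k4,k192),(k7,(nat_lit 240)),(k0,(nat_lit 284)),(k3,(nat_lit 325)),(k11,(nat_lit 432)),(k8,(nat_lit 568))],[(k11,
    k192),(k0,(nat_lit 202)),(k3,(nat_lit 243)),(k8,(nat_lit 328)),(k4,(nat_lit 344)),(k7,(nat_lit 392))],[(k1,k192),
    (k10,(nat_lit 308)),(k9,(nat_lit 328)),(k2,(nat_lit 333)),(k6,(nat_lit 568)),(k5,(nat_lit 616))],[(k9,k192),(k2,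
    k193),(k6,(nat_lit 432)),(k1,(nat_lit 448)),(k5,(nat_lit 476)),(k10,(nat_lit 564))],[(k0,k192),(k3,(nat_lit 203)),
    (k4,(nat_lit 244)),(k7,(nat_lit 292)),(k8,(nat_lit 308)),(k11,(nat_lit 564))]]
    [] k0
    [[k2,k0,k0,k0,k0,k0],[k2,k1,k0,k0,k0,k0],[k2,k0,k1,k0,k0,k0],[k2,k0,k0,k1,k0,k0],[k2,k0,k0,k0,k1,k0],[k2,k0,k0,k0,
    k1,k1],[k1,k1,k0,k0,k0,k0],[k1,k1,k1,k0,k0,k0],[k1,k1,k0,k1,k0,k0],[k1,k1,k0,k0,k1,k0],[k1,k1,k0,k0,k0,k1],[k1,k0,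
    k1,k0,k0,k0],[k2,k0,k1,k0,k1,k0],[k1,k0,k2,k0,k0,k0],[k1,k0,k1,k1,k0,k0],[k1,k0,k1,k0,k0,k1],[k1,k0,k0,k1,k0,k0],
    [k1,k0,k0,k2,k0,k0],[k1,k0,k0,k0,k1,k0],[k2,k0,k0,k0,k2,k0],[k1,k1,k1,k0,k1,k0],[k1,k1,k0,k0,k1,k1],[k1,k0,k1,k0,
    k1,k0],[k1,k0,k0,k1,k1,k0],[k1,k0,k0,k0,k2,k0],[k1,k0,k0,k0,k2,k1],[k1,k0,k0,k0,k1,k1],[k1,k0,k1,k0,k1,k1],[k1,k0,
    k0,k0,k0,k1],[k0,k2,k0,k0,k0,k0],[k0,k2,k0,k0,k0,k1],[k0,k1,k1,k0,k0,k0],[k0,k1,k1,k1,k0,k0],[k0,k1,k1,k0,k0,k1],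
    [k0,k1,k0,k1,k0,k0],[k0,k1,k0,k2,k0,k0],[k0,k1,k0,k1,k0,k1],[k0,k1,k0,k0,k1,k0],[k0,k1,k0,k0,k2,k0],[k0,k1,k0,k0,
    k1,k1],[k0,k1,k0,k0,k0,k1],[k0,k2,k0,k0,k0,k2],[k0,k1,k0,k0,k1,k2],[k0,k0,k2,k0,k0,k0],[k0,k0,k1,k1,k0,k0],[k0,k0,
    k1,k2,k0,k0],[k0,k0,k1,k0,k0,k1],[k0,k0,k0,k2,k0,k0],[k0,k0,k0,k3,k0,k0],[k0,k0,k0,k1,k0,k1],[k0,k0,k0,k0,k2,k0],
    [k0,k0,k0,k0,k2,k1],[k0,k0,k0,k0,k1,k1]]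
    [.contra [z1],.contra [y1,z2,z1,z2],.contra [y1,z2,z1,z2],.contra [y1,z1,z0,z0,z1],.ref k144 k6 [(z1,[y1,y1]),(z1,
    [z1]),(z1,[y1,y1,y1,y1,z1]),(z1,[y1,z0,z0,z1])],.contra [z1,z1],.contra [y1,z2,z1,z2],.contra [y1,z2,z1,z2],
    .contra [y1,z1,z0,z0,z1],.ref k143 k11 [(z1,[z2,y2,y1,y4]),(z1,[y1,z2,z1,z3]),(z1,[y1,z1,z1,z2]),(z1,[z0,z0,z0,
    z1])],.contra [y1,z1,z1,z1],.contra [y1,z2,z1,z2],.contra [z1,z0,z0,y1],.contra [y1,z2,z1,z2],.contra [y1,z1,z0,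
    z0,z1],.contra [z1,y1,z0,y1],.contra [y1,z1,z0,z0,z1],.contra [y1,z0,y1,y2,z2],.ref k121 k4 [(z1,[y1,y1,y1,y1,
    z1]),(z1,[z1])],.contra [z1,z2,z1],.contra [z1,z0,z0,y1],.contra [y1,z1,z1,z2],.contra [z1,z0,z0,y1],.contra [z1,
    z1,z1,z1,y1],.contra [z1,z2,z1],.contra [z1,z3,z1,z1],.contra [z1,z1],.contra [z1,z1],.contra [y1,z1,z1,z1],
    .contra [z1],.ref k142 k2 [(z1,[y1,z3,z2]),(z1,[z2,z0,y1]),(z1,[z0,z0,z0,z1]),(z1,[z0,y1,y1,y1,z1])],.contra [y1,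
    z2,z1,z2],.contra [y1,z1,z0,z0,z1],.contra [y1,z1,z1,z1],.contra [y1,z1,z0,z0,z1],.contra [y1,z0,y1,y2,z2],
    .contra [y1,z0,z0,y1,z1],.ref k0 k3 [(z1,[z1])],.contra [z1,z2,z1],.contra [z1,z1],.contra [y1,z1,z1,z1],
    .contra [y1,z0,z2],.contra [z1,z2,z0,z1],.contra [z1],.contra [z1,z1,z1,z2,y1],.ref k55 k1 [(z1,[z1,z1,z1,z2,y1]),
    (z1,[y1,z1,z1,z0,z1])],.contra [y1,z1,z1,z1],.contra [z1,z2,z2,z4,y2],.ref k55 k1 [(z1,[z1,z2,z2,z4,y2]),(z1,[y1,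
    z0,z0,y2,z2])],.contra [y1,z0,z0,y1,z1],.contra [y1,z0,z0,z2],.contra [z1,z3,z1,z1],.contra [z1,z1]]),
    .geo true z1 k5 [(y6,z5),(z6,y4),(z4,y3),(y2,z2),(z2,y1),(z0,z1)] [(z1,[z1]),(z1,[z0,z1]),(z1,[z0,z0,z1]),(z1,[z0,z0,
    z0,z1]),(z1,[y1,y1,y1,y1,z1]),(z1,
    [])] (Int.ofNat (nat_lit 1258291)) (Int.ofNat (nat_lit 1398102)) (.s (.l k1) (.l k1)) [],
    .old (.lp [(nat_lit 1039),(nat_lit 1370),(nat_lit 946),(nat_lit 1439),(nat_lit 1540),(nat_lit 1342)] [(nat_lit 521),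
    (nat_lit 546),(nat_lit 259),(nat_lit 477),(nat_lit 580),(nat_lit 580),k188,(nat_lit 479),k0,(nat_lit 566),
    (nat_lit 382),(nat_lit 382)] k0 [[k0,k0,k45,k109],[k0,k0,k0,k0,k0,k0,k0,k0,k0,k0,k117,(nat_lit 287)],[k0,k109,k0,
    k0,(nat_lit 408)],[k0,k45,k0,k0,k0,k0,k0,k0,k8],[k0,k0,k0,k0,k0,k0,k0,k0,k0,k0,k20,k36],[k0,k0,k0,(nat_lit 408),
    k0,k0,k101],[k0,k0,k0,k0,k0,k0,k0,k0,k0,(nat_lit 958)],[k0,k0,k0,k0,k101,k0,k0,k0,k0,k149],[k0,k0,k0,k0,k0,k0,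
    k149,(nat_lit 958)],[k0,k0,k8],[(nat_lit 287),k0,k0,k0,k0,k36],[k117,k0,k0,k0,k0,k20]] (nat_lit 3840) k5
    [[(k4,(nat_lit 960)),(k3,(nat_lit 966)),(k7,(nat_lit 1117)),(k11,(nat_lit 1178)),(k0,(nat_lit 1326)),(k8,
    (nat_lit 1560))],[(k5,(nat_lit 960)),(k9,(nat_lit 1019)),(k2,(nat_lit 1217)),(k10,(nat_lit 1320)),(k1,
    (nat_lit 1326)),(k6,(nat_lit 1397))],[(k10,(nat_lit 960)),(k1,(nat_lit 966)),(k9,(nat_lit 1063)),(k5,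
    (nat_lit 1158)),(k2,(nat_lit 1415)),(k6,(nat_lit 1441))],[(k7,(nat_lit 960)),(k0,(nat_lit 1217)),(k4,
    (nat_lit 1267)),(k3,(nat_lit 1415)),(k11,(nat_lit 1465)),(k8,(nat_lit 1855))],[(k0,(nat_lit 960)),(k7,
    (nat_lit 1047)),(k11,(nat_lit 1136)),(k3,(nat_lit 1158)),(k4,(nat_lit 1354)),(k8,(nat_lit 1526))],[(k1,
    (nat_lit 960)),(k9,(nat_lit 960)),(k10,(nat_lit 1108)),(k2,(nat_lit 1267)),(k5,(nat_lit 1354)),(k6,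
    (nat_lit 1439))],[(k2,(nat_lit 960)),(k9,(nat_lit 960)),(k5,(nat_lit 1047)),(k1,(nat_lit 1117)),(k10,
    (nat_lit 1265)),(k6,(nat_lit 1439))],[(k8,(nat_lit 960)),(k0,(nat_lit 1397)),(k4,(nat_lit 1439)),(k7,
    (nat_lit 1439)),(k3,(nat_lit 1441)),(k11,(nat_lit 1685))],[(k4,(nat_lit 960)),(k7,(nat_lit 960)),(k0,
    (nat_lit 1019)),(k3,(nat_lit 1063)),(k8,(nat_lit 1391)),(k11,(nat_lit 2116))],[(k6,(nat_lit 960)),(k9,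
    (nat_lit 1391)),(k5,(nat_lit 1526)),(k1,(nat_lit 1560)),(k10,(nat_lit 1724)),(k2,(nat_lit 1855))],[(k5,
    (nat_lit 1136)),(k1,(nat_lit 1178)),(k10,(nat_lit 1342)),(k2,(nat_lit 1465)),(k6,(nat_lit 1685)),(k9,
    (nat_lit 2116))],[(k3,(nat_lit 960)),(k4,(nat_lit 1108)),(k7,(nat_lit 1265)),(k0,(nat_lit 1320)),(k11,
    (nat_lit 1342)),(k8,(nat_lit 1724))]]
    [] k0
    [[k2,k0,k0,k0,k0,k0],[k2,k1,k0,k0,k0,k0],[k2,k0,k1,k0,k0,k0],[k2,k0,k0,k0,k0,k1],[k1,k1,k0,k0,k0,k0],[k1,k2,k0,k0,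
    k0,k0],[k1,k1,k1,k0,k0,k0],[k1,k1,k0,k1,k0,k0],[k1,k1,k0,k0,k0,k1],[k1,k0,k1,k0,k0,k0],[k1,k0,k2,k0,k0,k0],[k1,k0,
    k1,k1,k0,k0],[k1,k0,k1,k0,k1,k0],[k1,k0,k1,k0,k0,k1],[k1,k0,k0,k1,k0,k0],[k1,k0,k0,k1,k1,k0],[k1,k0,k0,k0,k1,k0],
    [k1,k0,k0,k0,k0,k1],[k0,k2,k0,k0,k0,k0],[k0,k2,k0,k1,k0,k0],[k0,k1,k1,k0,k0,k0],[k0,k1,k2,k0,k0,k0],[k0,k1,k1,k1,
    k0,k0],[k0,k1,k1,k0,k0,k1],[k0,k1,k0,k1,k0,k0],[k0,k1,k0,k0,k1,k0],[k0,k1,k0,k1,k1,k0],[k0,k1,k0,k0,k0,k1],[k0,k1,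
    k0,k1,k0,k1],[k0,k1,k0,k0,k0,k2],[k0,k0,k2,k0,k0,k0],[k0,k0,k2,k0,k0,k1],[k0,k0,k1,k1,k0,k0],[k0,k0,k1,k1,k1,k0],
    [k0,k0,k1,k0,k1,k0],[k0,k0,k1,k0,k0,k1],[k0,k0,k1,k0,k1,k1],[k0,k0,k1,k0,k0,k2],[k0,k0,k0,k2,k0,k0],[k0,k0,k0,k2,
    k1,k0],[k0,k0,k0,k1,k1,k0],[k0,k0,k0,k1,k2,k0],[k0,k0,k0,k1,k0,k1],[k0,k0,k0,k0,k2,k0],[k0,k0,k0,k0,k0,k2]]
    [.contra [z1],.contra [y1,z2,z1,z2],.contra [y1,z2,z1,z2],.ref k55 k2 [(z1,[z1]),(z1,[y1,z2,z2,z2])],.contra [y1,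
    z2,z1,z2],.ref k55 k5 [(z1,[y1,z0,z1,y1,z1]),(z1,[z1,z2,z1,z3,y1])],.contra [y1,z2,z1,z2],.contra [y1,z1,z1,z1],
    .contra [y1,y1,y1,y2,z2],.contra [y1,z2,z1,z2],.contra [y1,z2,z1,z2],.contra [z1,y1,z0,y1],.ref k2 k2 [(z1,[z1])],
    .contra [y1,z1,z0,z2],.contra [y1,z1,z1,z1],.ref k141 k1 [(z1,[y1,z1,z0,z1]),(z1,[z0,z0,z1]),(z1,[z1])],
    .contra [z1,z0,z1,z1,y1],.contra [y1,z1,z0,z2],.contra [z1],.ref k141 k1 [(z1,[z1,z1,y1,z2,y1]),(z1,[z0,z0,z1]),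
    (z1,[y1,z0,z1,y1,z1])],.contra [y1,z2,z1,z2],.contra [y1,z2,z1,z2],.contra [y1,z1,z1,z1],.ref k141 k1 [(z1,[z1,z1,
    z0,z1,y1]),(z1,[z0,z0,z1]),(z1,[y1,z0,z0,z0,z1])],.contra [y1,z1,z1,z1],.contra [y1,z0,z0,y1,z1],.contra [z1,z1,
    z0,z2,y1],.ref k55 k5 [(z1,[y1,y1,z0,y1,z1]),(z1,[z1,z3,z2,z3,y1])],.ref k2 k2 [(z1,[y1,z0,z0,z0,z1])],
    .ref k2 k2 [(z2,[y1,z0,y1,z0,z2])],.contra [z1],.contra [y1,z1,z0,z2],.contra [y1,z1,z1,z1],.contra [z1,y1,y1,y2,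
    z1],.ref k121 k6 [(z1,[y1,y1,y1,y1,z1]),(z1,[z1])],.contra [y1,z1,z0,z2],.contra [z1,z1,z1,z1,y1],.ref k2 k2 [(z1,
    [y1,z0,y1,z1,z1])],.contra [z1],.ref k55 k5 [(z1,[z1]),(z1,[y1,z2,z2,z2])],.ref k2 k2 [(z1,[z1,z1,z0,z1])],
    .ref k146 k2 [(z1,[z2,z5,z4,z4,y4]),(z1,[y2,y4,y3,y4,z4]),(z1,[y1,y2,y2,y1,z2]),(z1,[z1,z2,z2,z2,y2])],
    .contra [y1,z0,z0,z1],.contra [z1],.contra [y1,y2,y2,y2,z2]]),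
    .old (.lp [(nat_lit 810),(nat_lit 672),(nat_lit 594),(nat_lit 516),(nat_lit 544),(nat_lit 700)] [k13,k13,k111,k53,
    k108,k134,k160,k160,(nat_lit 292),k0,k68,k68] k0 [[k0,k0,k0,k0,k0,k0,k122,k2],[k0,k0,k0,k0,k0,k0,k0,k0,k0,k0,
    (nat_lit 386),k14],[k0,k0,k0,k0,k62,k2],[k0,k0,k0,k0,k0,k0,k0,k0,k30,k26],[k0,k0,k0,k2,k0,k0,(nat_lit 344)],[k0,
    k0,k0,k62],[k0,k2,k0,k0,k0,k0,k0,k0,k156],[k0,k122,k0,k0,k0,(nat_lit 344)],[k0,k0,k26,k0,k0,k0,k0,k0,k0,k0,k0,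
    k24],[k0,k0,k30,k0,k0,k0,k0,k156],[k14,k0,k0,k0,k0,k0,k0,k0,k0,k24],[(nat_lit 386)]] (nat_lit 1920) k6
    [[(k3,(nat_lit 384)),(k8,(nat_lit 531)),(k7,(nat_lit 663)),(k4,(nat_lit 715)),(k11,(nat_lit 779)),(k0,
    (nat_lit 824))],[(k6,(nat_lit 661)),(k5,(nat_lit 689)),(k9,(nat_lit 701)),(k2,(nat_lit 712)),(k1,(nat_lit 824)),
    (k10,(nat_lit 1141))],[(k1,(nat_lit 384)),(k5,(nat_lit 649)),(k2,(nat_lit 672)),(k10,(nat_lit 701)),(k6,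
    (nat_lit 745)),(k9,(nat_lit 785))],[(k8,(nat_lit 463)),(k7,(nat_lit 503)),(k4,(nat_lit 615)),(k3,(nat_lit 672)),
    (k11,(nat_lit 683)),(k0,(nat_lit 712))],[(k8,(nat_lit 384)),(k7,(nat_lit 544)),(k11,(nat_lit 604)),(k3,
    (nat_lit 649)),(k4,(nat_lit 656)),(k0,(nat_lit 689))],[(k9,(nat_lit 384)),(k6,(nat_lit 568)),(k2,(nat_lit 615)),
    (k5,(nat_lit 656)),(k10,(nat_lit 660)),(k1,(nat_lit 715))],[(k2,(nat_lit 503)),(k5,(nat_lit 544)),(k10,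
    (nat_lit 608)),(k1,(nat_lit 663)),(k9,(nat_lit 676)),(k6,(nat_lit 860))],[(k8,(nat_lit 384)),(k11,(nat_lit 452)),
    (k4,(nat_lit 568)),(k0,(nat_lit 661)),(k3,(nat_lit 745)),(k7,(nat_lit 860))],[(k4,(nat_lit 384)),(k7,
    (nat_lit 676)),(k8,(nat_lit 700)),(k0,(nat_lit 701)),(k11,(nat_lit 768)),(k3,(nat_lit 785))],[(k5,(nat_lit 384)),
    (k6,(nat_lit 384)),(k10,(nat_lit 452)),(k2,(nat_lit 463)),(k1,(nat_lit 531)),(k9,(nat_lit 700))],[(k6,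
    (nat_lit 452)),(k5,(nat_lit 604)),(k2,(nat_lit 683)),(k10,(nat_lit 700)),(k9,(nat_lit 768)),(k1,(nat_lit 779))],
    [(k8,(nat_lit 452)),(k7,(nat_lit 608)),(k4,(nat_lit 660)),(k11,(nat_lit 700)),(k3,(nat_lit 701)),(k0,
    (nat_lit 1141))]]
    [] k0
    [[k2,k0,k0,k0,k0,k0],[k1,k1,k0,k0,k0,k0],[k1,k2,k0,k0,k0,k0],[k1,k1,k1,k0,k0,k0],[k1,k1,k0,k1,k0,k0],[k1,k1,k0,k0,
    k1,k0],[k1,k0,k1,k0,k0,k0],[k1,k0,k1,k0,k1,k0],[k1,k0,k0,k1,k0,k0],[k1,k0,k0,k1,k1,k0],[k1,k0,k0,k0,k1,k0],[k0,k2,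
    k0,k0,k0,k0],[k0,k1,k1,k0,k0,k0],[k0,k1,k1,k1,k0,k0],[k0,k1,k1,k0,k1,k0],[k0,k1,k0,k1,k0,k0],[k0,k1,k0,k1,k1,k0],
    [k0,k1,k0,k0,k1,k0],[k0,k1,k0,k0,k0,k1],[k0,k1,k0,k1,k0,k1],[k0,k0,k2,k0,k0,k0],[k0,k0,k2,k1,k0,k0],[k0,k0,k2,k0,
    k1,k0],[k0,k0,k1,k1,k0,k0],[k0,k0,k2,k1,k1,k0],[k0,k0,k1,k1,k1,k0],[k0,k0,k1,k1,k0,k1],[k0,k0,k1,k1,k1,k1],[k0,k0,
    k1,k0,k1,k0],[k0,k0,k2,k0,k2,k0],[k0,k0,k1,k1,k2,k0],[k0,k0,k1,k0,k2,k0],[k0,k0,k1,k0,k1,k1],[k0,k0,k1,k0,k0,k1],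
    [k0,k0,k0,k2,k0,k0],[k0,k0,k0,k1,k1,k0],[k0,k0,k0,k1,k2,k0],[k0,k0,k0,k1,k1,k1],[k0,k0,k0,k1,k0,k1],[k0,k0,k0,k1,
    k0,k2],[k0,k0,k0,k0,k2,k0],[k0,k0,k0,k0,k1,k1],[k0,k0,k0,k0,k0,k2]]
    [.contra [z1],.ref k2 k2 [(z1,[z1,y1,y1,z1])],.ref k55 k8 [(z1,[z1]),(z1,[y1,y2,z0,z2])],.ref k1 k0 [(z1,[y1,z0,
    z0,z1])],.ref k137 k2 [(z1,[z0,z1]),(z1,[z1,y1])],.ref k141 k10 [(z1,[y1,y1,y1,z1]),(z1,[z0,z0,z1]),(z1,[z1])],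
    .ref k121 k0 [(z1,[y1,z1]),(z1,[z1])],.ref k2 k2 [(z1,[z1])],.ref k0 k2 [(z1,[z1])],.ref k147 k9 [(z1,[z1,y1,y1]),
    (z1,[z0,z0,z1]),(z1,[y1,z0,z0,z1])],.ref k145 k10 [(z1,[y1,y1,y1,z1]),(z1,[z0,z0,z1]),(z1,[z1])],.contra [z1],
    .contra [y1,y1,z0,z1],.contra [y1,y1,z0,z1],.contra [z1,z1,z1,y1],.contra [y1,z0,z1],.contra [y1,y1,z0,z1],
    .contra [y1,y1,z0,z1],.ref k137 k2 [(z1,[z0,z1]),(z1,[y1,z0,z1])],.ref k2 k2 [(z1,[y1,z0,z0,z1])],.contra [z1],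
    .contra [y1,y2,y1,z2],.contra [y1,y2,y1,z2],.contra [y1,y1,z0,z1],.contra [y1,y2,y1,z2],.contra [y1,y1,z0,z1],
    .ref k141 k10 [(z1,[z1,y1,y1]),(z1,[z0,z0,z1]),(z1,[y1,z0,z0,z1])],.ref k2 k2 [(z1,[y1,y1,y1,z2])],.contra [y1,y1,
    z0,z1],.contra [z1,z2,z2,y2],.contra [y1,y2,y1,z2],.contra [y1,y2,y1,z2],.ref k137 k2 [(z1,[z0,z1]),(z1,[y1,y1,z0,
    z1])],.ref k0 k0 [(z1,[z1])],.contra [z1],.contra [y1,y1,z0,z1],.contra [y1,y2,y1,z2],.ref k1 k0 [(z1,[z1])],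
    .ref k55 k8 [(z1,[y1,z1,z1]),(z1,[z1,y3,y1,z2])],.ref k2 k2 [(z2,[y1,z0,y1,z2])],.contra [z1],.ref k3 k6 [(z1,[z0,
    z1]),(z1,[z1,y1])],.contra [y1,z2]])]

noncomputable def cU6_2_n2_1 : List XN :=
  [.geo true z1 k5 [(y2,z6),(z2,y2),(z0,z2),(z2,y4),(z2,y3),(z0,z1)] [(z1,[z1]),(z1,[z0,z1]),(z1,[z0,z0,z1]),(z1,[z0,z0,
    z0,z1]),(z1,[y1,y1,y1,y1,z1]),(z1,
    [])] (Int.ofNat (nat_lit 349525)) (Int.ofNat (nat_lit 524288)) (.s (.s (.l k1) (.l k1)) (.l k1)) [],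
    .geo true z1 k5 [(y2,z4),(z0,z2),(z2,y2),(z2,y2),(z2,y3),(z0,z1)] [(z1,[z1]),(z1,[z0,z1]),(z1,[z0,z0,z1]),(z1,[z0,z0,
    z0,z1]),(z1,[y1,y1,y1,y1,z1]),(z1,[])] (Int.ofNat (nat_lit 524288)) (Int.ofNat (nat_lit 699051)) (.l k1) [],
    .old (.lp [(nat_lit 640),(nat_lit 582),(nat_lit 704),(nat_lit 640),(nat_lit 686),(nat_lit 576)] [k0,k192,k125,k125,
    k64,k64,k56,k136,k73,k73,k143,k113] k0 [[k0,k0,(nat_lit 384),k0,k0,k0,k0,k0,k0,k0,k0,k72],[k0,k0,k140,k0,k0,k0,k0,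
    k82],[k0,k0,k0,k0,k14,k0,k0,k0,(nat_lit 210),k34],[k140,(nat_lit 384),k0,k0,k56],[k0,k0,k0,k0,k0,k0,k8,
    (nat_lit 328)],[k0,k0,k56,k14],[k82,k0,k0,k0,k0,(nat_lit 328)],[k0,k0,k0,k0,k0,k8,k0,k0,(nat_lit 262)],[k0,k0,k0,
    k34,k0,k0,k0,k0,k0,k0,k128,k72],[k0,k0,k0,(nat_lit 210),k0,k0,(nat_lit 262)],[k0,k72,k0,k0,k0,k0,k0,k0,k0,k72],
    [k0,k0,k0,k0,k0,k0,k0,k0,k0,k128]] (nat_lit 1920) k6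
    [[(k8,(nat_lit 439)),(k7,(nat_lit 504)),(k4,(nat_lit 576)),(k3,(nat_lit 587)),(k11,(nat_lit 599)),(k0,
    (nat_lit 640))],[(k5,(nat_lit 384)),(k10,(nat_lit 617)),(k1,(nat_lit 640)),(k6,(nat_lit 776)),(k9,(nat_lit 841)),
    (k2,(nat_lit 847))],[(k5,(nat_lit 503)),(k10,(nat_lit 564)),(k6,(nat_lit 569)),(k1,(nat_lit 587)),(k9,
    (nat_lit 634)),(k2,(nat_lit 966))],[(k11,(nat_lit 384)),(k7,(nat_lit 557)),(k8,(nat_lit 600)),(k4,(nat_lit 699)),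
    (k0,(nat_lit 847)),(k3,(nat_lit 966))],[(k0,(nat_lit 384)),(k3,(nat_lit 503)),(k7,(nat_lit 576)),(k11,
    (nat_lit 689)),(k4,(nat_lit 718)),(k8,(nat_lit 905))],[(k6,(nat_lit 384)),(k1,(nat_lit 576)),(k10,(nat_lit 625)),
    (k9,(nat_lit 687)),(k2,(nat_lit 699)),(k5,(nat_lit 718))],[(k1,(nat_lit 504)),(k10,(nat_lit 553)),(k2,
    (nat_lit 557)),(k5,(nat_lit 576)),(k6,(nat_lit 648)),(k9,(nat_lit 951))],[(k4,(nat_lit 384)),(k3,(nat_lit 569)),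
    (k7,(nat_lit 648)),(k11,(nat_lit 663)),(k0,(nat_lit 776)),(k8,(nat_lit 965))],[(k11,(nat_lit 384)),(k3,
    (nat_lit 634)),(k8,(nat_lit 686)),(k4,(nat_lit 687)),(k0,(nat_lit 841)),(k7,(nat_lit 951))],[(k1,(nat_lit 439)),
    (k10,(nat_lit 544)),(k2,(nat_lit 600)),(k9,(nat_lit 686)),(k5,(nat_lit 905)),(k6,(nat_lit 965))],[(k2,
    (nat_lit 384)),(k9,(nat_lit 384)),(k1,(nat_lit 599)),(k6,(nat_lit 663)),(k5,(nat_lit 689)),(k10,(nat_lit 704))],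
    [(k8,(nat_lit 544)),(k7,(nat_lit 553)),(k3,(nat_lit 564)),(k0,(nat_lit 617)),(k4,(nat_lit 625)),(k11,
    (nat_lit 704))]]
    [[k0,k0,k7,k4],[k0,k7,k4,k0],[k1,k1,k5,k6],[k1,k5,k6,k1],[k2,k2,k10],[k2,k10,k2],[k3,k3,k11],[k3,k11,k3],[k4,k8,
    k11],[k5,k10,k9],[k6,k9],[k7,k8]] k2
    [[k2,k0,k0,k0,k0,k0],[k2,k0,k1,k0,k0,k0],[k2,k0,k0,k0,k0,k1],[k1,k1,k0,k0,k0,k0],[k1,k1,k1,k0,k0,k0],[k1,k1,k1,k1,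
    k0,k0],[k1,k1,k0,k0,k0,k1],[k1,k0,k1,k0,k0,k0],[k1,k0,k2,k0,k0,k0],[k1,k0,k1,k0,k0,k1],[k1,k0,k0,k1,k0,k0],[k1,k0,
    k1,k1,k0,k0],[k1,k0,k0,k1,k0,k1],[k1,k0,k0,k0,k1,k0],[k1,k0,k1,k0,k1,k0],[k1,k0,k0,k0,k1,k1],[k1,k0,k1,k0,k1,k1],
    [k1,k0,k0,k0,k0,k1],[k0,k1,k1,k0,k0,k0],[k0,k1,k1,k1,k0,k0],[k0,k1,k1,k1,k0,k1],[k0,k1,k1,k0,k1,k0],[k0,k1,k1,k0,
    k0,k1],[k0,k1,k0,k1,k0,k0],[k0,k1,k0,k2,k0,k0],[k0,k1,k0,k1,k0,k1],[k0,k1,k0,k0,k1,k0],[k0,k1,k0,k0,k1,k1],[k0,k1,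
    k0,k0,k0,k1],[k0,k2,k0,k0,k0,k2],[k0,k1,k0,k0,k1,k2],[k0,k1,k0,k0,k0,k2],[k0,k0,k2,k0,k0,k0],[k0,k0,k2,k1,k0,k0],
    [k0,k0,k1,k1,k0,k0],[k0,k0,k1,k2,k0,k0],[k0,k0,k1,k1,k0,k1],[k0,k0,k1,k0,k1,k0],[k0,k0,k1,k0,k0,k1],[k0,k0,k0,k2,
    k0,k0],[k0,k0,k0,k2,k0,k1],[k0,k0,k0,k1,k0,k1],[k0,k0,k0,k1,k1,k1],[k0,k0,k0,k0,k2,k0],[k0,k0,k0,k0,k2,k1],[k0,k0,
    k0,k0,k1,k1],[k0,k0,k0,k0,k2,k2],[k0,k0,k0,k0,k1,k2],[k0,k0,k0,k0,k0,k2]]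
    [.contra [z1],.contra [y2,z1,y1,z0,z2],.contra [y1,z1,z0,z2],.contra [y1,z0,z0,y1,z1],.contra [z2,y1,z1,y2],
    .contra [z1,z0,z0,z1,y1],.contra [y2,z1,z1,z2],.contra [y2,z1,y1,z0,z2],.contra [y1,z1,z0,z2],.contra [y2,z1,z1,
    z2],.contra [y1,z0,z0,y1,z1],.contra [y2,z1,y1,z0,z2],.ref k148 k3 [(z2,[z0,y1,y1,y2,z2]),(z1,[z1,z0,z1,z1,y1])],
    .ref k121 k4 [(z2,[y2,y1,y1,y2,z2]),(z1,[z1])],.ref k0 k3 [(z2,[z2,y1,z1,y2])],.ref k1 k2 [(z1,[z1])],.contra [z1,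
    z0,z0,y1],.contra [y2,z1,z1,z2],.contra [y2,z1,z1,z2],.ref k1 k2 [(z1,[y1,z0,z0,z0,z1])],.ref k121 k4 [(z2,[z2,y1,
    y1,y2]),(z1,[y1,z0,z0,z0,z1])],.ref k148 k3 [(z2,[z0,y1,y1,y2,z2]),(z1,[y1,z0,z1,z1])],.contra [y2,z1,z1,z2],
    .contra [y1,z0,z0,y1,z1],.ref k121 k4 [(z1,[z1,z0,z0,z1,y1]),(z2,[y2,y1,y1,y4,z4])],.ref k0 k3 [(z2,[y2,y1,z1,y2,
    z2])],.ref k0 k3 [(z1,[z1])],.contra [z2,z1,y1],.contra [y1,z0,z1],.contra [y1,z0,z2],.contra [z2,z1,y1],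
    .ref k148 k3 [(z2,[z0,y1,y1,y2,z2]),(z1,[z1])],.contra [z1],.ref k55 k1 [(z1,[z1]),(z1,[y1,z1,z1,z2])],
    .contra [y2,z1,y1,z0,z2],.ref k149 k6 [(z1,[z2,y1,z2,z2,y4]),(z1,[y1,z0,y1,y1,z2]),(z2,[z2,y1,z1,z0,y2]),(z1,[y1,
    z1,y1,z0,z2])],.contra [z2,y1,y1,y4,z2],.contra [z1,z0,z1,y1],.contra [y2,z1,z1,z2],.contra [z1],.ref k0 k3 [(z2,
    [y1,y1,z0,y2,z2])],.ref k150 k10 [(z2,[z2,z1,y3,z4,y2]),(z1,[z1,z0,y1]),(z2,[y2,y1,z1,y2,z2]),(z1,[z0,z0,z1])],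
    .contra [y2,y1,z1,y2,z2],.contra [y1,y1,y1,y2,z2],.contra [z1,z1],.contra [y1,z0,z0,z1],.contra [y1,z0,z0,z2],
    .ref k55 k0 [(z1,[z1]),(z1,[y1,z1,z1,z2])],.contra [z1]]),
    .geo true z1 k5 [(y2,z2),(y1,z1),(z3,y2),(z2,y1),(z2,y1),(z0,z1)] [(z1,[z1]),(z1,[z0,z1]),(z1,[z0,z0,z1]),(z1,[z0,z0,
    z0,z1]),(z1,[y1,y1,y1,y1,z1]),(z1,
    [])] (Int.ofNat (nat_lit 1048576)) (Int.ofNat (nat_lit 1572864)) (.s (.l k1) (.l k1)) [],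
    .geo true z2 k5 [(y1,z3),(z2,y2),(z3,y3),(z1,z1),(z3,y1),(z0,z2)] [(z1,[z1]),(z1,[z0,z2]),(z1,[z0,z0,z1]),(z1,[z0,z0,
    z0,z1]),(z1,[y1,y2,y1,y1,z2]),(z1,
    [])] (Int.ofNat (nat_lit 349525)) (Int.ofNat (nat_lit 1048576)) (.s (.s (.l k1) (.l k1)) (.l k1)) [],
    .geo true z1 k5 [(z0,z3),(z2,y3),(z0,z2),(z1,y1),(z1,y2),(z0,z1)] [(z1,[z1]),(z1,[z0,z1]),(z1,[z0,z0,z1]),(z1,[z0,z0,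
    z0,z1]),(z1,[y1,y1,y1,y1,z1]),(z1,
    [])] z0 (Int.ofNat (nat_lit 524288)) (.s (.s (.l k1) (.l k1)) (.s (.l k1) (.l k1))) [],
    .old (.lp [k144,k130,k166,(nat_lit 202),k174,k140] [k68,k70,k76,k76,k72,k44,k0,k80,k36,k72,k70,k72] k0 [[k0,k0,k50,
    k18,k0,k0,k22],[k0,k0,k0,k0,k0,k0,k4,k0,k0,k0,k0,k16],[k0,k18,k0,k0,k0,k0,k0,k0,k14],[k0,k50],[k0,k0,k0,k0,k0,k0,
    k0,k90],[],[k0,k0,k0,k0,k0,k90,k0,k0,k6],[k4,k22,k0,k0,k0,k0,k0,k0,k14],[k0,k0,k0,k0,k0,k0,k0,k0,k0,k0,k56],[k0,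
    k0,k0,k14,k0,k0,k14,k6],[k16],[k0,k0,k0,k0,k0,k0,k0,k0,k0,k56]] (nat_lit 480) k5
    [[(k8,k120),(k7,k132),(k3,k136),(k4,k140),(k11,k140),(k0,k160)],[(k2,k120),(k5,k120),(k9,k120),(k10,k144),(k1,
    k160),(k6,(nat_lit 218))],[(k10,k120),(k9,k130),(k1,k136),(k2,k180),(k5,k180),(k6,(nat_lit 228))],[(k0,k120),(k11,
    k120),(k7,k126),(k4,k134),(k8,k170),(k3,k180)],[(k0,k120),(k7,k158),(k4,k166),(k11,k166),(k3,k180),(k8,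
    (nat_lit 216))],[(k6,k120),(k2,k134),(k9,k138),(k1,k140),(k10,k140),(k5,k166)],[(k2,k126),(k1,k132),(k10,k132),
    (k5,k158),(k6,(nat_lit 202)),(k9,(nat_lit 220))],[(k4,k120),(k7,(nat_lit 202)),(k11,(nat_lit 204)),(k0,
    (nat_lit 218)),(k3,(nat_lit 228)),(k8,(nat_lit 260))],[(k0,k120),(k11,k124),(k3,k130),(k4,k138),(k8,k180),(k7,
    (nat_lit 220))],[(k1,k120),(k2,k170),(k10,k176),(k9,k180),(k5,(nat_lit 216)),(k6,(nat_lit 260))],[(k2,k120),(k9,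
    k124),(k1,k140),(k5,k166),(k10,k196),(k6,(nat_lit 204))],[(k3,k120),(k7,k132),(k4,k140),(k0,k144),(k8,k176),(k11,
    k196)]]
    [] k0
    [[k2,k0,k0,k0,k0,k0],[k2,k1,k0,k0,k0,k0],[k2,k0,k1,k0,k0,k0],[k2,k0,k0,k0,k1,k0],[k2,k0,k0,k0,k0,k1],[k1,k1,k0,k0,
    k0,k0],[k1,k2,k0,k0,k0,k0],[k1,k1,k1,k0,k0,k0],[k1,k1,k0,k0,k1,k0],[k1,k1,k0,k0,k0,k1],[k1,k0,k1,k0,k0,k0],[k1,k0,
    k2,k0,k0,k0],[k1,k0,k1,k0,k1,k0],[k1,k0,k1,k0,k0,k1],[k1,k0,k0,k1,k0,k0],[k1,k0,k1,k1,k0,k0],[k1,k0,k0,k0,k1,k0],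
    [k1,k0,k0,k0,k2,k0],[k1,k0,k0,k0,k1,k1],[k1,k0,k0,k0,k0,k1],[k0,k2,k0,k0,k0,k0],[k0,k2,k0,k0,k0,k1],[k0,k1,k1,k0,
    k0,k0],[k0,k1,k1,k1,k0,k0],[k0,k1,k1,k0,k0,k1],[k0,k1,k0,k1,k0,k0],[k0,k1,k0,k0,k1,k0],[k0,k1,k0,k0,k1,k1],[k0,k1,
    k0,k0,k0,k1],[k0,k1,k0,k1,k0,k1],[k0,k1,k0,k0,k0,k2],[k0,k0,k2,k0,k0,k0],[k0,k0,k2,k1,k0,k0],[k0,k0,k2,k0,k0,k1],
    [k0,k0,k1,k1,k0,k0],[k0,k0,k1,k0,k1,k0],[k0,k0,k1,k0,k0,k1],[k0,k0,k1,k1,k0,k1],[k0,k0,k0,k2,k0,k0],[k0,k0,k0,k1,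
    k0,k1],[k0,k0,k0,k0,k2,k0],[k0,k0,k0,k0,k1,k1],[k0,k0,k0,k0,k0,k2]]
    [.contra [z1],.ref k121 k4 [(z1,[y1,z0,z0,y1,z1]),(z1,[z1,y1,y1])],.contra [z1,y1,z0,y1],.ref k55 k1 [(z1,[y1,z1,
    y1,z1,z1]),(z1,[z1,z1,z3,z1,y1])],.ref k154 k4 [(z1,[z1,y3,y1,y4,z1]),(z1,[y1,z2,z0,z3]),(z1,[z1,y2,z0,y2]),(z1,
    [z0,z1,z0,z1])],.contra [y1,z0,z0,y1,z1],.ref k0 k3 [(z1,[z1,y1,y1])],.contra [z1,y1,z0,y1],.contra [y1,y1,y1,y2,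
    z2],.contra [z1,z0,y1],.contra [y1,z2,z0,z2],.contra [z1,y1,z0,y1],.contra [y1,z0,y1,z0,z1],.contra [z1,y1,z0,y1],
    .contra [z1,z0,z1,z1,y1],.contra [z1,y1,z0,y1],.ref k121 k4 [(z1,[y1,y1,y1,y1,z1]),(z1,[z1])],.ref k153 k11 [(z1,
    [z1,y1,z2,y3]),(z1,[z0,z1,z0,z1]),(z1,[y1,z1,z0,z3]),(z1,[z1,y1,z0,y1])],.ref k1 k2 [(z1,[z1])],.contra [y1,z1,z1,
    z1],.contra [z1],.contra [z1,z0,y1],.contra [y1,z1,z1,z1],.ref k1 k2 [(z1,[y1,z0,z0,z0,z1])],.contra [z1,z0,y1],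
    .contra [z1,z1,z0,z2,y1],.ref k0 k3 [(z1,[z1])],.contra [y1,y1,z0,y1,z1],.contra [y1,z1,z1,z1],.contra [z1,z0,y1],
    .contra [z1,z0,y1],.contra [z1],.ref k55 k1 [(z1,[z1]),(z1,[y1,z2,z2,z2])],.ref k3 k5 [(z1,[z0,y1,y1,y1,z1]),(z1,
    [z1,z0,z0,y1])],.ref k3 k5 [(z1,[z0,y1,y1,y1,z1]),(z1,[z1,z1,z1,z1,y1])],.contra [z1,z0,z1,y1],.contra [y1,z1,z1,
    z1],.contra [z1,y1,y1,y2,z1],.contra [z1],.ref k152 k1 [(z1,[y1,z1,z1,z2,y1]),(z1,[y1,z0,z1]),(z1,[z1,z0,y1,y1,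
    z1]),(z1,[z1])],.contra [y1,y2,y2,y2,z2],.contra [z1,z1],.contra [z1]]),
    .old (.lp [(nat_lit 326),(nat_lit 262),(nat_lit 452),(nat_lit 278),(nat_lit 276),(nat_lit 324)] [k63,k63,k95,k95,k0,
    k0,k90,k84,k88,k88,k64,k64] k0 [[k0,k0,k0,k70,k0,k0,k72,k62],[k0,k0,k0,k70,k0,k0,k0,k0,k0,k0,k20],[k70,k70],[k0,
    k0,k0,k0,k176,k176],[k0,k0,k176,k0,k0,k0,k128,k0,k0,k0,k0,k92],[k0,k0,k176,k0,k0,k0,k0,k0,k0,k0,k0,k112],[k0,k62,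
    k0,k0,k0,k0,k0,k0,k84],[k0,k72,k0,k0,k0,k128],[k0,k0,k0,k0,k0,k0,k0,k0,k0,k0,k50],[k0,k0,k0,k0,k0,k0,k0,k84,k0,k0,
    k36],[k0,k0,k0,k0,k112,k92],[k20,k0,k0,k0,k0,k0,k0,k0,k36,k50]] (nat_lit 960) k6
    [[(k8,(nat_lit 251)),(k3,(nat_lit 274)),(k11,(nat_lit 289)),(k0,(nat_lit 326)),(k7,(nat_lit 397)),(k4,
    (nat_lit 501))],[(k2,(nat_lit 224)),(k9,(nat_lit 229)),(k6,(nat_lit 237)),(k1,(nat_lit 326)),(k10,(nat_lit 345)),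
    (k5,(nat_lit 459))],[(k2,k192),(k1,(nat_lit 274)),(k10,(nat_lit 293)),(k9,(nat_lit 331)),(k6,(nat_lit 339)),(k5,
    (nat_lit 427))],[(k3,k192),(k0,(nat_lit 224)),(k8,(nat_lit 269)),(k11,(nat_lit 293)),(k7,(nat_lit 449)),(k4,
    (nat_lit 533))],[(k7,k192),(k4,(nat_lit 276)),(k8,(nat_lit 364)),(k11,(nat_lit 388)),(k3,(nat_lit 427)),(k0,
    (nat_lit 459))],[(k9,(nat_lit 236)),(k5,(nat_lit 276)),(k10,(nat_lit 296)),(k6,(nat_lit 362)),(k1,(nat_lit 501)),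
    (k2,(nat_lit 533))],[(k5,k192),(k10,k192),(k9,(nat_lit 280)),(k1,(nat_lit 397)),(k6,(nat_lit 406)),(k2,
    (nat_lit 449))],[(k11,(nat_lit 214)),(k0,(nat_lit 237)),(k8,(nat_lit 274)),(k3,(nat_lit 339)),(k4,(nat_lit 362)),
    (k7,(nat_lit 406))],[(k0,(nat_lit 229)),(k4,(nat_lit 236)),(k7,(nat_lit 280)),(k11,(nat_lit 300)),(k3,
    (nat_lit 331)),(k8,(nat_lit 360))],[(k1,(nat_lit 251)),(k2,(nat_lit 269)),(k6,(nat_lit 274)),(k10,(nat_lit 336)),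
    (k9,(nat_lit 360)),(k5,(nat_lit 364))],[(k6,(nat_lit 214)),(k1,(nat_lit 289)),(k2,(nat_lit 293)),(k9,
    (nat_lit 300)),(k10,(nat_lit 374)),(k5,(nat_lit 388))],[(k7,k192),(k3,(nat_lit 293)),(k4,(nat_lit 296)),(k8,
    (nat_lit 336)),(k0,(nat_lit 345)),(k11,(nat_lit 374))]]
    [] k0
    [[k2,k0,k0,k0,k0,k0],[k2,k1,k0,k0,k0,k0],[k2,k0,k0,k0,k1,k0],[k1,k1,k0,k0,k0,k0],[k1,k2,k0,k0,k0,k0],[k1,k3,k0,k0,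
    k0,k0],[k1,k1,k0,k0,k1,k0],[k1,k1,k0,k0,k0,k1],[k1,k0,k1,k1,k0,k0],[k1,k0,k0,k1,k0,k0],[k1,k0,k0,k1,k1,k0],[k1,k0,
    k0,k1,k0,k1],[k1,k0,k0,k0,k1,k0],[k1,k0,k1,k0,k1,k0],[k1,k0,k1,k1,k1,k0],[k1,k0,k0,k0,k2,k0],[k1,k0,k0,k0,k1,k1],
    [k1,k0,k0,k0,k0,k1],[k0,k2,k0,k0,k0,k0],[k0,k3,k0,k0,k0,k0],[k0,k4,k0,k0,k0,k0],[k0,k2,k0,k0,k1,k0],[k0,k2,k0,k0,
    k0,k1],[k0,k1,k1,k0,k1,k0],[k0,k1,k0,k1,k0,k0],[k0,k1,k0,k1,k1,k0],[k0,k1,k0,k1,k0,k1],[k0,k1,k0,k0,k1,k0],[k0,k1,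
    k0,k0,k0,k1],[k0,k1,k0,k0,k1,k1],[k0,k0,k2,k0,k0,k0],[k0,k0,k3,k0,k0,k0],[k0,k0,k2,k1,k0,k0],[k0,k0,k2,k0,k1,k0],
    [k0,k0,k1,k1,k0,k0],[k0,k0,k1,k1,k1,k0],[k0,k0,k1,k1,k0,k1],[k0,k0,k1,k0,k1,k0],[k0,k0,k1,k0,k0,k1],[k0,k0,k0,k2,
    k0,k0],[k0,k0,k0,k2,k0,k1],[k0,k0,k0,k1,k1,k0],[k0,k0,k0,k1,k2,k0],[k0,k0,k0,k1,k1,k1],[k0,k0,k0,k1,k0,k1],[k0,k0,
    k0,k2,k0,k2],[k0,k0,k0,k1,k0,k2],[k0,k0,k0,k0,k2,k0],[k0,k0,k0,k0,k1,k1],[k0,k0,k0,k0,k0,k2]]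
    [.contra [z1],.ref k3 k1 [(z1,[y1,z1,z0,z0,z1]),(z1,[z1,y1,z1,z1,y1])],.ref k137 k10 [(z1,[z0,z0,z1,z1]),(z1,[y1,
    z1,y2,y1,z1])],.contra [z1,z1,y1],.ref k3 k1 [(z1,[y1,z0,z1,z0,z1]),(z1,[z1,z0,z0,z1,y1])],.contra [y1,y1,z1,y2,
    z2],.ref k137 k10 [(z1,[z0,z0,z1,z1]),(z1,[y1,z0,y1,y1,z1])],.ref k1 k3 [(z1,[y1,z0,z0,z0,z1])],.contra [y1,z2,y1,
    z0,z1],.contra [y1,z1,y1,y1,z1],.contra [y1,z0,y1,y1,z1],.contra [y1,z0,y1,y1,z1],.contra [y1,z0,y1,y1,z1],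
    .contra [z1,y1,z0,y1],.contra [z1,y1,z0,y1],.ref k151 k6 [(z1,[y1,z0,y2]),(z1,[z1]),(z1,[z0,z0,z0,y1,z1])],
    .contra [z1,z1],.contra [y1,z0,y1,y1,z1],.contra [z1,z2,y2],.ref k3 k1 [(z1,[y1,y1,z2,z0,z1]),(z1,[z1,z1,y1,z1,
    y1])],.contra [y1,y2,z2,y2,z2],.ref k137 k10 [(z1,[z0,z0,z1,z1]),(z1,[y1,y1,z0,y1,z1])],.ref k1 k3 [(z1,[y1,y1,z1,
    z0,z1])],.contra [z1,z0,y1,y1],.contra [y1,z0,z0,y1,z1],.contra [y1,y1,z0,y1,z1],.contra [y1,y1,z0,y1,z1],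
    .contra [y1,y1,z0,y1,z1],.contra [y1,y1,z0,y1,z1],.contra [z1,z2,y1],.contra [y1,z2,z0,z2],.contra [z1,y1,y1,y3,
    z1],.contra [y1,z3,y1,z1,z1],.contra [z1,y1,y1,y3,z1],.ref k3 k1 [(z1,[z1]),(z1,[y1,z0,z1,z1])],.ref k1 k3 [(z1,
    [z1])],.ref k137 k10 [(z1,[z0,z0,z1,z1]),(z1,[z1,z0,y1,y1])],.contra [y1,z0,z0,z1],.contra [y1,z0,z0,z1],
    .contra [z1],.ref k148 k10 [(z1,[z0,z0,z1,z1]),(z1,[z1])],.contra [y1,z0,y1,y1,z1],.contra [y1,y1,y1,y1,z1],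
    .contra [y1,z0,y1,y1,z1],.contra [y1,z0,y1,y1,z1],.ref k155 k6 [(z2,[z1,z0,z0,z2,y2]),(z2,[y1,z0,y2,y2,z2]),(z1,
    [z0,z0,z0,y1,z1])],.contra [y1,y1,y1,y1,z1],.contra [z1],.contra [y1,z0,z0,z1],.contra [z1]]),
    .old (.lp [(nat_lit 466),(nat_lit 491),(nat_lit 400),(nat_lit 382),(nat_lit 309),(nat_lit 347)] [k57,k57,k0,k89,k90,
    k90,k99,k99,k117,k154,k143,k90] k0 [[k0,k0,k0,(nat_lit 223),k0,k0,k0,k0,k0,k0,k99],[k0,k0,k0,k25],[k25,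
    (nat_lit 223)],[k0,k0,k0,k0,k86,k0,k0,k0,k0,k73],[k0,k0,k0,k0,k0,k0,k18,k73],[k0,k0,k86,k0,k0,k0,k0,k0,k0,k0,k0,
    k38],[k0,k0,k0,k0,k0,k73,k0,k0,k91],[k0,k0,k0,k0,k0,k18,k0,k0,k36],[k0,k0,k73,k0,k0,k0,k0,k0,k0,k0,k106,k20],[k0,
    k0,k0,k0,k0,k0,k36,k91],[k0,k0,k0,k0,k38,k0,k0,k0,k0,k20],[k0,k99,k0,k0,k0,k0,k0,k0,k0,k106]] (nat_lit 1200) k5
    [[(k8,(nat_lit 300)),(k0,(nat_lit 367)),(k7,(nat_lit 424)),(k3,(nat_lit 434)),(k11,(nat_lit 453)),(k4,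
    (nat_lit 471))],[(k2,(nat_lit 300)),(k1,(nat_lit 367)),(k9,(nat_lit 369)),(k10,(nat_lit 380)),(k6,(nat_lit 424)),
    (k5,(nat_lit 458))],[(k9,(nat_lit 337)),(k6,(nat_lit 392)),(k1,(nat_lit 434)),(k10,(nat_lit 447)),(k2,
    (nat_lit 466)),(k5,(nat_lit 624))],[(k0,(nat_lit 300)),(k8,(nat_lit 463)),(k3,(nat_lit 466)),(k7,(nat_lit 481)),
    (k11,(nat_lit 563)),(k4,(nat_lit 576))],[(k8,(nat_lit 300)),(k7,(nat_lit 305)),(k4,(nat_lit 400)),(k11,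
    (nat_lit 400)),(k0,(nat_lit 458)),(k3,(nat_lit 624))],[(k6,(nat_lit 318)),(k9,(nat_lit 318)),(k10,(nat_lit 347)),
    (k5,(nat_lit 400)),(k1,(nat_lit 471)),(k2,(nat_lit 576))],[(k10,(nat_lit 300)),(k5,(nat_lit 305)),(k6,
    (nat_lit 400)),(k9,(nat_lit 400)),(k1,(nat_lit 424)),(k2,(nat_lit 481))],[(k11,(nat_lit 300)),(k4,(nat_lit 318)),
    (k3,(nat_lit 392)),(k7,(nat_lit 400)),(k8,(nat_lit 400)),(k0,(nat_lit 424))],[(k11,(nat_lit 300)),(k4,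
    (nat_lit 318)),(k3,(nat_lit 337)),(k0,(nat_lit 369)),(k7,(nat_lit 400)),(k8,(nat_lit 400))],[(k1,(nat_lit 300)),
    (k5,(nat_lit 300)),(k10,(nat_lit 300)),(k6,(nat_lit 400)),(k9,(nat_lit 400)),(k2,(nat_lit 463))],[(k6,
    (nat_lit 300)),(k9,(nat_lit 300)),(k5,(nat_lit 400)),(k1,(nat_lit 453)),(k10,(nat_lit 453)),(k2,(nat_lit 563))],
    [(k7,(nat_lit 300)),(k8,(nat_lit 300)),(k4,(nat_lit 347)),(k0,(nat_lit 380)),(k3,(nat_lit 447)),(k11,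
    (nat_lit 453))]]
    [] k0
    [[k2,k0,k0,k0,k0,k0],[k3,k0,k0,k0,k0,k0],[k2,k1,k0,k0,k0,k0],[k2,k0,k0,k0,k1,k0],[k1,k1,k0,k0,k0,k0],[k1,k0,k1,k0,
    k0,k0],[k1,k0,k1,k0,k1,k0],[k1,k0,k0,k1,k0,k0],[k1,k1,k0,k1,k0,k0],[k1,k0,k0,k1,k1,k0],[k1,k0,k0,k1,k0,k1],[k1,k0,
    k0,k0,k1,k0],[k1,k1,k0,k0,k1,k0],[k1,k0,k0,k0,k2,k0],[k1,k0,k0,k0,k1,k1],[k1,k0,k0,k0,k0,k1],[k0,k2,k0,k0,k0,k0],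
    [k0,k1,k0,k1,k0,k0],[k0,k1,k0,k0,k1,k0],[k0,k1,k0,k0,k0,k1],[k0,k0,k2,k0,k0,k0],[k0,k0,k2,k1,k0,k0],[k0,k0,k2,k0,
    k1,k0],[k0,k0,k2,k0,k0,k1],[k0,k0,k1,k1,k0,k0],[k0,k0,k1,k2,k0,k0],[k0,k0,k1,k1,k1,k0],[k0,k0,k1,k1,k0,k1],[k0,k0,
    k1,k0,k1,k0],[k0,k0,k1,k0,k2,k0],[k0,k0,k1,k0,k1,k1],[k0,k0,k1,k0,k0,k1],[k0,k0,k0,k2,k0,k0],[k0,k0,k0,k2,k0,k1],
    [k0,k0,k0,k1,k1,k0],[k0,k0,k0,k1,k1,k1],[k0,k0,k0,k1,k0,k1],[k0,k0,k0,k1,k0,k2],[k0,k0,k0,k0,k2,k0],[k0,k0,k0,k0,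
    k2,k1],[k0,k0,k0,k0,k1,k1],[k0,k0,k0,k0,k1,k2],[k0,k0,k0,k0,k0,k2]]
    [.contra [z1],.contra [y1,z1,y2,y2,z2],.contra [y1,z1,z0,y1,z1],.ref k148 k11 [(z1,[z0,z0,z1,z1]),(z1,[z1])],
    .contra [y1,z1,z2],.contra [y1,z0,y1,z0,z1],.ref k2 k2 [(z1,[z1])],.contra [y1,z1,z0,y1,z1],.contra [z1,z0,z2,z1,
    y1],.contra [y1,z0,y1,y1,z1],.contra [y1,z0,y1,y1,z1],.contra [y1,z0,y1,y1,z1],.ref k121 k8 [(z1,[y1,z1,z2]),(z1,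
    [z1,y1,y1,z1])],.ref k121 k8 [(z2,[y1,z1,z2]),(z2,[z1,y1,z0,z2])],.contra [y1,z0,y1,y1,z1],.contra [y1,z0,y1,y1,
    z1],.contra [z1],.contra [z1,z1,z4,z1,y1],.contra [y1,z0,z1],.contra [y1,z0,z1],.contra [y1,z0,z2,z2],.contra [z1,
    z1,z2,y1,y1],.contra [z1,z1,z0,y2],.contra [z1,z1,z0,y2],.contra [z1,z1,z3,z0,y1],.ref k55 k4 [(z1,[z1]),(z1,[y1,
    z0,y2,y2,z2])],.ref k0 k0 [(z1,[y1,y1,y1,z1,z1])],.ref k121 k8 [(z1,[z1,z1,z2,z0,y1]),(z1,[y1,y1,y1,z1,z1])],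
    .ref k121 k8 [(z1,[y1,z0,z1,z1]),(z1,[z1])],.ref k151 k3 [(z1,[z1,z1,z1,y2,y1]),(z1,[y1,y1,y1,z0,z1]),(z1,[z0,z0,
    y1,z0,z1])],.contra [y1,z0,z2,z1],.ref k0 k0 [(z1,[z1])],.contra [z1,z2,z8,z2,y2],.ref k148 k10 [(z1,[z0,z0,z1,
    z1]),(z1,[z1])],.contra [y1,z0,y1,y1,z1],.contra [z1,z1,z3,z1,y1],.contra [y1,z0,y1,y1,z1],.ref k151 k3 [(z1,[y1,
    z0,z0,y2]),(z1,[z1]),(z1,[z0,z0,y1,z0,z1])],.contra [z1],.ref k121 k8 [(z1,[y1,z0,z1]),(z1,[z1,z0,z0,z1])],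
    .contra [y1,z0,z1],.ref k0 k0 [(z1,[z1,z0,z0,z1])],.contra [z1]]),
    .old (.lp [(nat_lit 746),(nat_lit 746),(nat_lit 682),(nat_lit 476),(nat_lit 706),(nat_lit 468)] [k58,k58,k116,k0,k90,
    k90,k193,k193,k78,k78,k197,k197] k0 [[k0,k0,k0,k0,k0,k0,k0,k0,k0,k0,k0,k40],[k0,k0,(nat_lit 388),k40],[k40,k0,k0,
    k0,k0,k80],[(nat_lit 388)],[k0,k0,k0,k80,k0,k0,(nat_lit 262)],[k0,k0,k0,k0,k0,k0,k0,k0,k0,k0,k24,k64],[k0,k0,k0,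
    k0,k0,k0,k0,k0,k88],[k0,k0,k0,k0,k0,(nat_lit 262)],[k0,k0,k0,k0,k0,k0,k0,k0,k0,k0,(nat_lit 278)],[k0,k0,k0,k0,k0,
    k0,k0,k88],[k0,k40,k0,k0,k64],[k0,k0,k0,k0,k24,k0,k0,k0,k0,(nat_lit 278)]] (nat_lit 1920) k6
    [[(k8,(nat_lit 448)),(k7,(nat_lit 587)),(k11,(nat_lit 607)),(k0,(nat_lit 746)),(k4,(nat_lit 778)),(k3,
    (nat_lit 844))],[(k10,(nat_lit 567)),(k6,(nat_lit 611)),(k9,(nat_lit 726)),(k1,(nat_lit 746)),(k5,(nat_lit 754)),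
    (k2,(nat_lit 1076))],[(k5,(nat_lit 384)),(k10,(nat_lit 665)),(k6,(nat_lit 669)),(k2,(nat_lit 706)),(k9,
    (nat_lit 784)),(k1,(nat_lit 844))],[(k11,(nat_lit 549)),(k7,(nat_lit 553)),(k4,(nat_lit 576)),(k8,(nat_lit 668)),
    (k3,(nat_lit 706)),(k0,(nat_lit 1076))],[(k3,(nat_lit 384)),(k11,(nat_lit 575)),(k7,(nat_lit 659)),(k4,
    (nat_lit 682)),(k8,(nat_lit 694)),(k0,(nat_lit 754))],[(k9,(nat_lit 432)),(k2,(nat_lit 576)),(k6,(nat_lit 579)),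
    (k10,(nat_lit 599)),(k5,(nat_lit 682)),(k1,(nat_lit 778))],[(k10,(nat_lit 408)),(k2,(nat_lit 553)),(k1,
    (nat_lit 587)),(k9,(nat_lit 591)),(k5,(nat_lit 659)),(k6,(nat_lit 738))],[(k11,(nat_lit 384)),(k4,(nat_lit 579)),
    (k8,(nat_lit 591)),(k0,(nat_lit 611)),(k3,(nat_lit 669)),(k7,(nat_lit 738))],[(k4,(nat_lit 432)),(k11,
    (nat_lit 587)),(k7,(nat_lit 591)),(k0,(nat_lit 726)),(k3,(nat_lit 784)),(k8,(nat_lit 794))],[(k1,(nat_lit 448)),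
    (k10,(nat_lit 587)),(k6,(nat_lit 591)),(k2,(nat_lit 668)),(k5,(nat_lit 694)),(k9,(nat_lit 794))],[(k6,
    (nat_lit 384)),(k2,(nat_lit 549)),(k5,(nat_lit 575)),(k9,(nat_lit 587)),(k1,(nat_lit 607)),(k10,(nat_lit 746))],
    [(k7,(nat_lit 408)),(k0,(nat_lit 567)),(k8,(nat_lit 587)),(k4,(nat_lit 599)),(k3,(nat_lit 665)),(k11,
    (nat_lit 746))]]
    [] k0
    [[k2,k0,k0,k0,k0,k0],[k1,k0,k1,k0,k0,k0],[k1,k0,k0,k1,k0,k0],[k1,k0,k0,k1,k1,k0],[k1,k0,k0,k1,k0,k1],[k1,k0,k0,k0,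
    k1,k0],[k1,k0,k1,k0,k1,k0],[k1,k0,k0,k0,k1,k1],[k1,k0,k0,k0,k0,k1],[k0,k2,k0,k0,k0,k0],[k0,k2,k1,k0,k0,k0],[k0,k1,
    k1,k0,k0,k0],[k0,k1,k2,k0,k0,k0],[k0,k1,k1,k1,k0,k0],[k0,k1,k1,k0,k1,k0],[k0,k1,k1,k0,k0,k1],[k0,k1,k0,k1,k0,k0],
    [k0,k1,k0,k1,k0,k1],[k0,k1,k0,k0,k1,k0],[k0,k1,k0,k0,k0,k1],[k0,k0,k2,k0,k0,k0],[k0,k0,k2,k0,k1,k0],[k0,k0,k2,k0,
    k0,k1],[k0,k0,k1,k1,k0,k0],[k0,k0,k1,k1,k1,k0],[k0,k0,k1,k1,k0,k1],[k0,k0,k1,k0,k1,k0],[k0,k0,k1,k0,k1,k1],[k0,k0,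
    k1,k0,k0,k1],[k0,k0,k0,k2,k0,k0],[k0,k0,k0,k2,k0,k1],[k0,k0,k0,k1,k1,k0],[k0,k0,k0,k1,k1,k1],[k0,k0,k0,k1,k0,k1],
    [k0,k0,k0,k2,k0,k2],[k0,k0,k0,k1,k0,k2],[k0,k0,k0,k0,k2,k0],[k0,k0,k0,k0,k1,k1],[k0,k0,k0,k0,k0,k2]]
    [.contra [z1],.contra [y1,z0,y1,z1],.ref k0 k2 [(z1,[z1])],.contra [z1,z1],.ref k137 k8 [(z1,[z0,z1,z1]),(z1,[y1,
    y1,y1,z1])],.ref k121 k11 [(z1,[y1,z1,z1]),(z1,[z1])],.ref k2 k2 [(z1,[z1])],.ref k1 k2 [(z1,[z1])],.contra [y1,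
    z0,y1,z1],.contra [y1,z2,z2],.ref k157 k1 [(z1,[z1,z0,y2]),(z1,[z0,z0,z1]),(z1,[z0,z1])],.ref k3 k11 [(z1,[z1]),
    (z1,[y1,z1,z1])],.ref k55 k10 [(z1,[z1]),(z1,[y1,y2,y2,z2])],.ref k1 k2 [(z1,[y1,z0,z0,z1])],.ref k137 k8 [(z1,
    [z0,z1,z1]),(z1,[z1,y1,y1])],.contra [y1,z1,z0,z1],.contra [y1,z0,z1],.ref k2 k2 [(z1,[y1,z0,z0,z1])],.contra [y1,
    z0,z1],.ref k156 k0 [(z1,[z1,z0,y1]),(z1,[z0,z1]),(z1,[z0,z0,z1])],.contra [z1],.ref k148 k8 [(z1,[z0,z1,z1]),(z1,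
    [z1])],.ref k3 k11 [(z1,[z1,z1,z2,y1]),(z1,[y1,z0,y1,z1])],.contra [y1,y1,y1,z1],.contra [y1,y1,y1,z1],
    .contra [y1,y1,y1,z1],.contra [y1,y1,y1,z1],.contra [y1,y1,y1,z1],.contra [y1,z0,y1,z1],.contra [z1],
    .ref k151 k9 [(z1,[y1,y2]),(z1,[z1]),(z1,[z0,z0,y1,z1])],.contra [y1,z0,z1],.contra [y1,y1,y1,z1],.contra [y1,y1,
    y1,z1],.ref k155 k9 [(z2,[y1,y2]),(z2,[z1]),(z1,[z0,z0,y1,z1])],.ref k148 k7 [(z1,[z0,z1,z1]),(z1,[z1])],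
    .contra [z1],.contra [y1,y1,y1,z1],.contra [z1]]),
    .geo true z8 k0 [(z2,z0),(z3,z0),(z12,z0),(z4,z0),(z4,z0),(z7,z0)] [(z1,[z2]),(z1,[z0,z1]),(z1,[z0,z0,z4]),(z1,[z0,z0,
    z0,z4]),(z1,[z0,z0,z0,z0,z4]),(z1,[y2,y1,y4,y4,y4,z8])] z0 (Int.ofNat (nat_lit 2097152)) (.l k1) [],
    .geo true z8 k0 [(z1,z0),(z6,z0),(z5,z0),(z4,z0),(z4,z0),(z12,z0)] [(z1,[z1]),(z1,[z0,z2]),(z1,[z0,z0,z1]),(z1,[z0,z0,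
    z0,z4]),(z1,[z0,z0,z0,z0,z4]),(z1,[y1,y2,y1,y4,y4,z8])] z0 (Int.ofNat (nat_lit 2097152)) (.l k1) []]

noncomputable def cU6_2_n2_2 : List XN :=
  [.old (.lp [(nat_lit 643),(nat_lit 746),(nat_lit 1196),(nat_lit 1196),(nat_lit 1067),(nat_lit 906)] [(nat_lit 463),
    (nat_lit 204),(nat_lit 244),(nat_lit 320),k57,k57,k114,k0,k41,(nat_lit 202),(nat_lit 202),(nat_lit 202)] k0 [[k0,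
    k0,(nat_lit 214),k0,k0,k0,k0,k0,k0,k0,k0,k51],[k0,k0,k0,k0,k0,k0,k20,k0,k0,k0,k0,(nat_lit 212)],[k0,k0,k0,k0,
    (nat_lit 490)],[k0,(nat_lit 214),k0,k0,k0,k0,k0,k0,k127],[k0,k0,k0,k0,k0,k0,k0,k0,k0,k0,(nat_lit 431)],[k0,k0,k0,
    (nat_lit 490)],[k0,k0,k0,k0,k0,k0,k0,k0,k0,(nat_lit 579)],[k20,k0,k0,k0,k0,k0,k0,k0,k0,(nat_lit 347)],[k0,k0,k0,
    k0,k0,k0,(nat_lit 347),(nat_lit 579)],[k0,k0,k127,k0,k0,k0,k0,k0,k0,k0,(nat_lit 328)],[(nat_lit 212),k51],[k0,k0,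
    k0,k0,k0,(nat_lit 431),k0,k0,(nat_lit 328)]] (nat_lit 2880) k6
    [[(k11,(nat_lit 576)),(k4,(nat_lit 618)),(k3,(nat_lit 837)),(k0,(nat_lit 855)),(k8,(nat_lit 1065)),(k7,
    (nat_lit 1106))],[(k5,(nat_lit 576)),(k10,(nat_lit 594)),(k2,(nat_lit 603)),(k9,(nat_lit 645)),(k6,(nat_lit 753)),
    (k1,(nat_lit 855))],[(k10,(nat_lit 576)),(k9,(nat_lit 768)),(k1,(nat_lit 837)),(k6,(nat_lit 876)),(k5,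
    (nat_lit 933)),(k2,(nat_lit 960))],[(k7,(nat_lit 576)),(k0,(nat_lit 603)),(k11,(nat_lit 864)),(k3,(nat_lit 960)),
    (k4,(nat_lit 1009)),(k8,(nat_lit 1152))],[(k0,(nat_lit 576)),(k11,(nat_lit 924)),(k3,(nat_lit 933)),(k8,
    (nat_lit 1212)),(k7,(nat_lit 1253)),(k4,(nat_lit 1686))],[(k1,(nat_lit 618)),(k2,(nat_lit 1009)),(k9,
    (nat_lit 1051)),(k10,(nat_lit 1051)),(k6,(nat_lit 1139)),(k5,(nat_lit 1686))],[(k2,(nat_lit 576)),(k1,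
    (nat_lit 1106)),(k9,(nat_lit 1108)),(k6,(nat_lit 1196)),(k5,(nat_lit 1253)),(k10,(nat_lit 1539))],[(k8,
    (nat_lit 576)),(k0,(nat_lit 753)),(k3,(nat_lit 876)),(k4,(nat_lit 1139)),(k7,(nat_lit 1196)),(k11,
    (nat_lit 1341))],[(k0,(nat_lit 645)),(k8,(nat_lit 720)),(k3,(nat_lit 768)),(k4,(nat_lit 1051)),(k7,
    (nat_lit 1108)),(k11,(nat_lit 1485))],[(k6,(nat_lit 576)),(k9,(nat_lit 720)),(k1,(nat_lit 1065)),(k2,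
    (nat_lit 1152)),(k5,(nat_lit 1212)),(k10,(nat_lit 1395))],[(k1,(nat_lit 576)),(k2,(nat_lit 864)),(k10,
    (nat_lit 906)),(k5,(nat_lit 924)),(k6,(nat_lit 1341)),(k9,(nat_lit 1485))],[(k3,(nat_lit 576)),(k0,(nat_lit 594)),
    (k11,(nat_lit 906)),(k4,(nat_lit 1051)),(k8,(nat_lit 1395)),(k7,(nat_lit 1539))]]
    [] k0
    [[k2,k0,k0,k0,k0,k0],[k3,k0,k0,k0,k0,k0],[k2,k1,k0,k0,k0,k0],[k2,k0,k1,k0,k0,k0],[k2,k0,k0,k1,k0,k0],[k2,k0,k0,k0,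
    k1,k0],[k2,k0,k0,k0,k0,k1],[k2,k1,k0,k0,k0,k1],[k1,k1,k0,k0,k0,k0],[k2,k1,k1,k0,k0,k0],[k1,k2,k0,k0,k0,k0],[k1,k1,
    k1,k0,k0,k0],[k1,k1,k0,k1,k0,k0],[k1,k1,k0,k1,k1,k0],[k1,k1,k0,k0,k1,k0],[k1,k1,k0,k0,k0,k1],[k1,k0,k1,k0,k0,k0],
    [k2,k0,k2,k0,k0,k0],[k2,k0,k1,k0,k0,k1],[k1,k0,k1,k1,k0,k0],[k1,k0,k1,k0,k1,k0],[k1,k0,k1,k0,k0,k1],[k1,k1,k1,k0,
    k0,k1],[k1,k0,k0,k1,k0,k0],[k1,k0,k0,k1,k1,k0],[k1,k0,k0,k0,k1,k0],[k1,k0,k0,k0,k2,k0],[k1,k0,k0,k0,k0,k1],[k2,k0,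
    k0,k0,k0,k2],[k1,k2,k0,k0,k0,k1],[k1,k1,k0,k1,k0,k1],[k1,k1,k0,k0,k0,k2],[k1,k0,k0,k1,k0,k1],[k1,k0,k0,k0,k1,k1],
    [k1,k0,k0,k0,k0,k2],[k0,k2,k0,k0,k0,k0],[k0,k2,k0,k1,k0,k0],[k0,k2,k0,k0,k0,k1],[k0,k1,k1,k0,k0,k0],[k0,k1,k1,k1,
    k0,k0],[k0,k1,k1,k0,k0,k1],[k0,k1,k0,k1,k0,k0],[k0,k1,k0,k2,k0,k0],[k0,k1,k0,k0,k1,k0],[k0,k1,k0,k1,k1,k0],[k0,k1,
    k0,k0,k2,k0],[k0,k1,k0,k1,k2,k0],[k0,k1,k0,k0,k0,k1],[k0,k1,k0,k1,k0,k1],[k0,k1,k0,k0,k0,k2],[k0,k0,k1,k1,k0,k0],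
    [k0,k0,k1,k0,k1,k0],[k0,k0,k1,k0,k0,k1],[k0,k0,k0,k2,k0,k0],[k0,k0,k0,k1,k1,k0],[k0,k0,k0,k1,k2,k0],[k0,k0,k0,k0,
    k2,k0],[k0,k0,k0,k0,k3,k0],[k0,k0,k0,k0,k0,k2],[k0,k0,k0,k0,k0,k3]]
    [.contra [z1],.contra [y1,z2,z2],.contra [z1,y1,y1,z1],.contra [z1,y1],.contra [y2,z3,z3,z1],.contra [y2,z3,z3,z0,
    z1],.ref k55 k2 [(z1,[z1]),(z1,[y1,z1,z2,z1])],.contra [y2,z1,z0,z0,y1,z2],.contra [y1,z2,z2],.contra [z1,y1,y1],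
    .contra [z2,y1,y1],.contra [z2,y1,y2,z1],.contra [y2,z3,z3,z1],.contra [z2,y1,y1,y1,y1],.contra [y2,z3,z3,z0,z1],
    .contra [y2,z0,z0,y1,y1,z2],.contra [y2,z2,z3],.ref k55 k2 [(z2,[z1,z0,y2,y1,y1,z2]),(z2,[y1,z2,z6,z3,z1,y2])],
    .contra [y2,z1,z1,y1,y1,z2],.contra [z2,y1,z0,y1],.contra [z2,y1,z0,z0,y1],.contra [y2,z0,z0,y1,y1,z2],
    .contra [y2,z0,z0,z1,y1,z2],.contra [y2,z3,z3,z1],.contra [z2,z0,z0,y1,y1],.contra [y2,z3,z3,z0,z1],.contra [z1,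
    z0,z0,z0,y1],.contra [z2,z0,z2,z1,z1,y2],.contra [z1,z2,z3,z1,z1,y2],.contra [y2,z0,z2,y1,y1,z2],.contra [y2,z1,
    z0,z0,y1,z2],.contra [z1,z2,z3,z1,z1,y2],.contra [y2,z0,y1,z0,y1,z2],.contra [y2,z0,y1,y1,z0,z2],.contra [z1,z2,
    z3,z1,z1,y2],.contra [z1],.ref k160 k2 [(z1,[y2,z4,z4,z1]),(z1,[z2,z0,z0,y1]),(z1,[y2,z0,z4,z1]),(z1,[z0,z0,z0,
    z1]),(z1,[z0,z0,z0,z0,z1])],.ref k159 k11 [(z1,[z2,z1,z2,z1,z1,y2]),(z1,[y2,z3,z2,y1,y1,z2]),(z1,[z0,y1,y2,y1,y1,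
    z2]),(z1,[z0,z0,z0,z0,z1]),(z1,[z0,z0,z0,z1])],.contra [y2,z2,z3],.contra [z2,z0,y1,y1],.contra [y2,z0,z0,y1,y1,
    z2],.contra [y2,z3,z3,z1],.contra [z1,z0,z0,y1],.contra [y2,z3,z3,z0,z1],.contra [z2,z0,z0,y1,y1],.contra [z1,z0,
    z0,z0,y1],.ref k55 k2 [(z2,[y2,z1,z0,z0,z1,z2]),(z2,[z2,z1,z4,z2,y1,y2])],.ref k55 k2 [(z1,[y1,z0,y1,y1,y1,z2]),
    (z1,[z1,z1,z3,z2,z1,y2])],.contra [y2,y1,z0,z0,y1,z2],.contra [y1,z0,y1,y1,y1,z2],.contra [z2,z1,z0,y1],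
    .contra [z2,z1,z0,z0,y1],.contra [y2,y1,y1,y1,y1,z2],.contra [z1],.contra [z2,z0,z0,z1,y1],.contra [z1,z0,z0,z0,
    y1],.contra [z1,z0,z0,z1,y1],.contra [z2,z0,z0,z1,y3],.contra [y1,y1,y2,z0,y1,z2],.contra [y2,y3,y6,z2,y3,z6]]),
    .geo true z1 k5 [(y2,z4),(y2,z4),(z4,y4),(z2,y3),(z2,y2),(z0,z1)] [(z1,[z1]),(z1,[z0,z1]),(z1,[z0,z0,z1]),(z1,[z0,z0,
    z0,z1]),(z1,[y1,y1,y1,y1,z1]),(z1,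
    [])] (Int.ofNat (nat_lit 524288)) (Int.ofNat (nat_lit 699051)) (.s (.l k1) (.s (.s (.l k1) (.l k1)) (.s (.l k1) (.l k1)))) [],
    .geo true z3 k5 [(y6,z4),(z6,y2),(z0,z1),(z6,y3),(z6,y3),(z0,z3)] [(z1,[z1]),(z1,[z0,z1]),(z1,[z0,z0,z1]),(z1,[z0,z0,
    z0,z3]),(z1,[y1,y1,y1,y3,z3]),(z1,
    [])] (Int.ofNat (nat_lit 1572864)) (Int.ofNat (nat_lit 2097152)) (.s (.s (.l k2) (.l k1)) (.l k1)) [⟨z3,z2,[[k0,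
    k3],[k1,k5],[k2,k4]],.bnd k0⟩],
    .geo true z1 k5 [(y1,z2),(y1,z2),(z3,y2),(z1,y1),(z2,y2),(z0,z1)] [(z1,[z1]),(z1,[z0,z1]),(z1,[z0,z0,z1]),(z1,[z0,z0,
    z0,z1]),(z1,[y1,y1,y1,y1,z1]),(z1,
    [])] (Int.ofNat (nat_lit 524288)) (Int.ofNat (nat_lit 1048576)) (.s (.s (.l k1) (.s (.l k1) (.l k1))) (.s (.s (.l k1) (.l k1)) (.l k1))) [],
    .old (.lp [k120,k162,k154,k183,k168,k172] [k72,k48,k39,k39,k43,k43,k57,k0,k36,k36,k64,k4] k0 [[k0,k0,k0,k2],[k0,k0,k0,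
    k0,k0,k0,k17,k0,k0,k0,k0,k40],[k0,k2,k0,k0,k105],[k0,k0,k0,k0,k0,k0,k0,k0,k5,k24],[k0,k0,k0,k0,k0,k0,k0,k17,k0,k0,
    k53],[k0,k0,k0,k105,k0,k0,k0,k23],[k0,k0,k0,k0,k23,k17,k0,k0,k0,k48],[k17,k0,k0,k0,k0,k0,k0,k0,k0,k72],[k0,k0,k24,
    k0,k0,k0,k72,k48],[k0,k0,k5,k0,k0,k0,k0,k0,k0,k0,k92],[k40],[k0,k0,k0,k0,k0,k53,k0,k0,k92]] (nat_lit 480) k6
    [[(k4,k96),(k11,k96),(k3,k153),(k8,k156),(k0,k160),(k7,k192)],[(k10,k104),(k5,k125),(k2,k127),(k6,k128),(k9,k132),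
    (k1,k160)],[(k10,k97),(k6,k144),(k9,k148),(k1,k153),(k5,k160),(k2,k162)],[(k7,k96),(k0,k127),(k4,k158),(k3,k162),
    (k8,k170),(k11,(nat_lit 221))],[(k0,k125),(k8,k137),(k3,k160),(k11,k188),(k7,k197),(k4,(nat_lit 259))],[(k1,k96),
    (k6,k123),(k10,k133),(k2,k158),(k9,k184),(k5,(nat_lit 259))],[(k2,k96),(k6,k160),(k1,k192),(k5,k197),(k9,
    (nat_lit 221)),(k10,(nat_lit 229))],[(k8,k99),(k4,k123),(k0,k128),(k3,k144),(k7,k160),(k11,(nat_lit 251))],[(k8,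
    k96),(k0,k132),(k3,k148),(k4,k184),(k7,(nat_lit 221)),(k11,(nat_lit 248))],[(k9,k96),(k6,k99),(k5,k137),(k1,k156),
    (k2,k170),(k10,(nat_lit 232))],[(k1,k96),(k10,k172),(k5,k188),(k2,(nat_lit 221)),(k9,(nat_lit 248)),(k6,
    (nat_lit 251))],[(k3,k97),(k0,k104),(k4,k133),(k11,k172),(k7,(nat_lit 229)),(k8,(nat_lit 232))]]
    [] k0
    [[k2,k0,k0,k0,k0,k0],[k2,k1,k0,k0,k0,k0],[k2,k0,k1,k0,k0,k0],[k2,k0,k0,k0,k1,k0],[k2,k0,k0,k0,k0,k1],[k1,k1,k0,k0,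
    k0,k0],[k1,k2,k0,k0,k0,k0],[k1,k1,k1,k0,k0,k0],[k1,k1,k0,k1,k0,k0],[k1,k1,k0,k0,k1,k0],[k1,k1,k0,k0,k0,k1],[k1,k0,
    k1,k0,k0,k0],[k2,k0,k2,k0,k0,k0],[k2,k0,k1,k0,k0,k1],[k1,k0,k1,k1,k0,k0],[k1,k0,k1,k0,k1,k0],[k1,k0,k1,k0,k2,k0],
    [k1,k0,k1,k0,k0,k1],[k1,k0,k0,k1,k0,k0],[k1,k0,k0,k1,k1,k0],[k1,k0,k0,k0,k1,k0],[k1,k0,k0,k0,k2,k0],[k1,k0,k0,k0,
    k0,k1],[k2,k0,k0,k0,k0,k2],[k1,k1,k1,k0,k0,k1],[k1,k1,k0,k1,k0,k1],[k1,k0,k0,k1,k0,k1],[k1,k0,k0,k0,k1,k1],[k1,k0,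
    k0,k0,k0,k2],[k0,k2,k0,k0,k0,k0],[k0,k2,k0,k1,k0,k0],[k0,k1,k1,k0,k0,k0],[k0,k1,k1,k1,k0,k0],[k0,k1,k0,k1,k0,k0],
    [k0,k1,k0,k2,k0,k0],[k0,k1,k0,k0,k1,k0],[k0,k1,k1,k0,k1,k0],[k0,k1,k0,k1,k1,k0],[k0,k1,k0,k0,k2,k0],[k0,k1,k0,k1,
    k2,k0],[k0,k1,k0,k0,k0,k1],[k0,k1,k1,k0,k0,k1],[k0,k1,k0,k1,k0,k1],[k0,k0,k1,k1,k0,k0],[k0,k0,k1,k0,k1,k0],[k0,k0,
    k1,k0,k2,k0],[k0,k0,k1,k0,k0,k1],[k0,k0,k0,k2,k0,k0],[k0,k0,k0,k1,k1,k0],[k0,k0,k0,k1,k2,k0],[k0,k0,k0,k0,k2,k0],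
    [k0,k0,k0,k0,k3,k0],[k0,k0,k0,k0,k4,k0],[k0,k0,k0,k0,k0,k2]]
    [.contra [z1],.contra [y1,z2,z1,z2],.ref k148 k0 [(z1,[z0,y1,y1,y1,z1]),(z1,[z1])],.contra [y1,z1,z0,z0,z1],
    .ref k55 k2 [(z1,[z1]),(z1,[y1,z2,z2,z2])],.contra [y1,z1,z1,z1],.ref k163 k2 [(z1,[y1,z4,z2]),(z1,[z2,y2,y1]),
    (z1,[y1,z1,z2]),(z1,[z0,z0,z0,z1])],.contra [y1,z1,z1,z1],.contra [y1,z1,z1,z1],.contra [y1,z0,z0,y1,z1],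
    .ref k1 k3 [(z1,[y1,z0,z0,z0,z1])],.contra [y1,z1,z1,z1],.ref k164 k4 [(z2,[y1,z2,z0,z2]),(z2,[y1,z0,y2,y2,z2]),
    (z2,[z1,y2]),(z2,[z1])],.contra [z1,z1],.contra [z1,y1,z0,y1],.contra [z1,z0,z1,z1,y1],.ref k121 k3 [(z1,[z1,z0,
    z0,z1,y1]),(z1,[y1,y1,y1,y2,z2])],.contra [z1,z1],.contra [y1,z1,z1,z1],.contra [y1,z1,z0,z0,z1],.contra [y1,z0,
    z0,y1,z1],.contra [y1,z0,y1,y2,z2],.ref k3 k6 [(z1,[z1]),(z1,[y1,y1,y1,y1,z1])],.contra [z1,z2,z1],.contra [y1,z1,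
    z1,z2],.contra [z1,z0,z0,y1],.contra [z1,z0,z0,y1],.contra [z1,z1,z1,z1,y1],.contra [z1,z2,z1],.contra [z1],
    .ref k162 k4 [(z1,[z1,z0,y2]),(z1,[z1,y1,y3,y2,z1]),(z1,[y1,z0,z2,z1]),(z1,[y1,z1,z2,z1])],.contra [y1,z0,z1],
    .contra [y1,z1,z1,z1],.contra [y1,z1,z1,z1],.contra [y1,z2,z1,z2],.contra [y1,z0,z0,y1,z1],.contra [y1,z0,z0,y1,
    z1],.contra [y1,z1,z0,z0,z1],.contra [y1,z0,y1,y2,z2],.ref k55 k2 [(z1,[y1,z0,y1,y1,z2]),(z1,[z1,z2,z3,z3,y2])],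
    .ref k121 k3 [(z1,[y1,y1,y1,y1,z1]),(z1,[z1])],.contra [z1,z1],.contra [y1,z0,z1,z1],.contra [y1,z1,z1,z1],
    .contra [y1,z0,z0,y1,z1],.ref k1 k3 [(z1,[z1,z1,z1,z2,y1])],.contra [z1,z1],.contra [z1],.contra [z1,z1,z1,z2,y1],
    .ref k55 k5 [(z1,[z1,z1,z1,z2,y1]),(z1,[y1,z1,z1,z0,z1])],.contra [z1,z2,z2,z4,y2],.ref k55 k5 [(z1,[z1,z2,z2,z4,
    y2]),(z1,[y1,z0,z0,y2,z2])],.ref k161 k2 [(z2,[y1,z0,y4,y4,z4]),(z1,[z0,z0,z1]),(z2,[z1,z4,z4,z8,y4]),(z2,[z1])],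
    .contra [y1,z0,z0,z2]]),
    .geo true z2 k5 [(z2,z3),(z2,y3),(z2,y3),(z0,z2),(z2,y1),(z0,z2)] [(z1,[z1]),(z1,[z0,z1]),(z1,[z0,z0,z1]),(z1,[z0,z0,
    z0,z2]),(z1,[y1,y1,y1,y2,z2]),(z1,
    [])] z0 (Int.ofNat (nat_lit 699051)) (.s (.s (.l k1) (.l k1)) (.s (.l k1) (.l k1))) [],
    .old (.lp [(nat_lit 980),(nat_lit 1374),(nat_lit 867),(nat_lit 1082),(nat_lit 1154),(nat_lit 1256)] [k197,k197,k0,k0,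
    (nat_lit 505),k2,k146,k146,k110,k110,k59,k59] k0 [[k0,k0,k0,k0,k0,k0,k86,k0,k0,k0,k140,(nat_lit 306)],[k0,k0,
    (nat_lit 700),k0,k0,k0,(nat_lit 542)],[k0,k0,k0,k0,(nat_lit 556),k28],[(nat_lit 700),k0,k0,k0,k0,k0,k0,k0,k0,
    (nat_lit 590)],[k0,k0,k0,k28,k0,k0,k0,k40,k0,k0,k0,k41],[k0,k0,k0,(nat_lit 556),k0,k0,k0,(nat_lit 367)],[k0,k0,k0,
    k0,(nat_lit 367),k40,k0,k0,(nat_lit 408)],[(nat_lit 542),k86,k0,k0,k0,k0,k0,k0,(nat_lit 369)],[k0,k0,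
    (nat_lit 590),k0,k0,k0,k0,k0,k0,k0,k174],[k0,k0,k0,k0,k0,k0,(nat_lit 369),(nat_lit 408)],[k0,(nat_lit 306),k0,k0,
    k0,k41],[k0,k140,k0,k0,k0,k0,k0,k0,k0,k174]] (nat_lit 3360) k6
    [[(k4,(nat_lit 672)),(k0,(nat_lit 840)),(k8,(nat_lit 893)),(k7,(nat_lit 1072)),(k11,(nat_lit 1118)),(k3,
    (nat_lit 1483))],[(k10,(nat_lit 812)),(k1,(nat_lit 840)),(k9,(nat_lit 981)),(k5,(nat_lit 1175)),(k6,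
    (nat_lit 1573)),(k2,(nat_lit 1877))],[(k5,(nat_lit 672)),(k9,(nat_lit 722)),(k6,(nat_lit 1314)),(k2,
    (nat_lit 1374)),(k10,(nat_lit 1455)),(k1,(nat_lit 1483))],[(k7,(nat_lit 672)),(k4,(nat_lit 841)),(k8,
    (nat_lit 1264)),(k3,(nat_lit 1374)),(k0,(nat_lit 1877)),(k11,(nat_lit 1905))],[(k3,(nat_lit 672)),(k8,
    (nat_lit 672)),(k0,(nat_lit 1175)),(k7,(nat_lit 1254)),(k11,(nat_lit 1313)),(k4,(nat_lit 1423))],[(k1,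
    (nat_lit 672)),(k6,(nat_lit 683)),(k10,(nat_lit 769)),(k2,(nat_lit 841)),(k9,(nat_lit 1126)),(k5,(nat_lit 1423))],
    [(k2,(nat_lit 672)),(k6,(nat_lit 715)),(k1,(nat_lit 1072)),(k9,(nat_lit 1158)),(k10,(nat_lit 1169)),(k5,
    (nat_lit 1254))],[(k4,(nat_lit 683)),(k7,(nat_lit 715)),(k11,(nat_lit 761)),(k3,(nat_lit 1314)),(k8,
    (nat_lit 1487)),(k0,(nat_lit 1573))],[(k3,(nat_lit 722)),(k11,(nat_lit 836)),(k0,(nat_lit 981)),(k4,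
    (nat_lit 1126)),(k7,(nat_lit 1158)),(k8,(nat_lit 1562))],[(k5,(nat_lit 672)),(k1,(nat_lit 893)),(k10,
    (nat_lit 1205)),(k2,(nat_lit 1264)),(k6,(nat_lit 1487)),(k9,(nat_lit 1562))],[(k6,(nat_lit 761)),(k9,
    (nat_lit 836)),(k1,(nat_lit 1118)),(k5,(nat_lit 1313)),(k10,(nat_lit 1430)),(k2,(nat_lit 1905))],[(k4,
    (nat_lit 769)),(k0,(nat_lit 812)),(k7,(nat_lit 1169)),(k8,(nat_lit 1205)),(k11,(nat_lit 1430)),(k3,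
    (nat_lit 1455))]]
    [] k0
    [[k2,k0,k0,k0,k0,k0],[k3,k0,k0,k0,k0,k0],[k2,k0,k1,k0,k0,k0],[k2,k0,k1,k0,k1,k0],[k2,k0,k0,k0,k1,k0],[k2,k0,k0,k0,
    k0,k1],[k1,k0,k1,k0,k0,k0],[k1,k1,k1,k0,k0,k0],[k1,k0,k2,k0,k0,k0],[k1,k0,k1,k0,k1,k0],[k1,k0,k1,k0,k1,k1],[k1,k0,
    k1,k0,k0,k1],[k1,k0,k0,k1,k0,k0],[k1,k0,k1,k1,k0,k0],[k1,k0,k0,k1,k0,k1],[k1,k0,k0,k0,k1,k0],[k1,k0,k0,k0,k1,k1],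
    [k1,k0,k0,k0,k0,k1],[k0,k2,k0,k0,k0,k0],[k0,k2,k1,k0,k0,k0],[k0,k1,k1,k0,k0,k0],[k0,k2,k2,k0,k0,k0],[k0,k1,k2,k0,
    k0,k0],[k0,k1,k1,k1,k0,k0],[k0,k1,k1,k2,k0,k0],[k0,k1,k1,k0,k1,k0],[k0,k1,k2,k0,k1,k0],[k0,k1,k1,k0,k0,k1],[k0,k1,
    k1,k1,k0,k1],[k0,k1,k0,k1,k0,k0],[k0,k1,k0,k2,k0,k0],[k0,k1,k0,k0,k1,k0],[k0,k1,k1,k1,k1,k0],[k0,k1,k0,k1,k1,k0],
    [k0,k1,k0,k1,k0,k1],[k0,k0,k2,k0,k0,k0],[k0,k0,k2,k0,k1,k0],[k0,k0,k1,k1,k0,k0],[k0,k0,k1,k2,k0,k0],[k0,k0,k1,k1,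
    k0,k1],[k0,k0,k1,k0,k1,k0],[k0,k0,k1,k1,k1,k0],[k0,k0,k1,k2,k1,k0],[k0,k0,k1,k0,k1,k1],[k0,k0,k1,k0,k0,k1],[k0,k0,
    k0,k2,k0,k0],[k0,k0,k0,k3,k0,k0],[k0,k0,k0,k4,k0,k0],[k0,k0,k0,k2,k0,k1],[k0,k0,k0,k1,k1,k0],[k0,k0,k0,k1,k1,k1],
    [k0,k0,k0,k1,k0,k1],[k0,k0,k0,k0,k2,k0],[k0,k0,k0,k0,k1,k1],[k0,k0,k0,k0,k0,k2]]
    [.contra [z1],.ref k55 k6 [(z1,[z1,y2]),(z1,[y1,z0,y2,z0,z2])],.contra [y1,z2,z0,z1],.contra [y1,z2,z0,z1],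
    .contra [y1,z2,z0,z1],.ref k55 k6 [(z1,[z1,y1]),(z1,[y1,y1,y2,z0,z2])],.contra [y2,z3,z1,z1],.contra [z1,y1,y1],
    .contra [y1,z2,z0,z1],.contra [y1,z2,z0,z1],.contra [y1,z1,z0,z1],.contra [y1,z1,z0,z1],.contra [y1,z0,y1,z0,z1],
    .contra [z1,y2,y1,y1,z1],.ref k137 k8 [(z1,[z0,z1,z1]),(z1,[y1,y1,y1,z0,z1])],.contra [y1,z2,z0,z1],.contra [y1,
    z1,z0,z1],.contra [z1,z1],.contra [y1,z2,z2],.contra [z1,z0,y2,z1],.ref k3 k11 [(z1,[z1]),(z1,[y1,z1,z1])],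
    .contra [z1,z0,y2,z1],.ref k55 k10 [(z1,[z1]),(z1,[y1,y2,y2,z0,z2])],.contra [z1,z1,z0,z1,y1],.contra [z1,z3,z1,
    z2,y2],.ref k137 k8 [(z1,[z0,z1,z1]),(z1,[z1,y1,y1])],.ref k55 k6 [(z1,[y1,z1,z1,z1]),(z1,[z1,y3,y3,y1,z2])],
    .contra [z1,z0,y1],.contra [z1,z2,z0,z1,y1],.contra [z1,z1,z0,z1,y1],.contra [z1,z3,z1,z2,y2],.ref k0 k3 [(z1,
    [z1])],.contra [y1,z1,z0,z0,z1],.contra [z1,z1,z0,z1,y1],.contra [z1,z2,z0,z1,y1],.contra [z1],.contra [y1,z2,z0,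
    z1],.contra [y1,z0,y1,z0,z1],.ref k166 k11 [(z1,[y1,y2,z0,y2,z2]),(z1,[z1,z4,z2,z2,y2]),(z1,[z1,z2,z2,z2,y2]),(z1,
    [y1,y2,y2,y1,z2])],.contra [z1,y1,y1,y1,z1],.contra [y1,z2,z0,z1],.contra [y1,z0,y1,z0,z1],.contra [z1,z2,z2,z1,
    y2],.contra [y1,z1,z0,z1],.contra [y2,z1,z1,z1],.contra [z1],.ref k165 k10 [(z1,[z1,z3,z2,z2,y3]),(z1,[y1,y4,y4,
    y2,z4]),(z1,[z0,z0,z1])],.contra [y1,y4,y4,y2,z4],.ref k0 k3 [(z1,[y1,y2,y1,y1,z2])],.contra [y1,z0,y1,z0,z1],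
    .contra [y1,y1,y1,z0,z1],.contra [y1,y1,y1,z0,z1],.contra [z1],.contra [y1,z1,z0,z1],.contra [z1,z2]]),
    .old (.lp [(nat_lit 400),(nat_lit 543),(nat_lit 604),(nat_lit 392),(nat_lit 518),(nat_lit 417)] [k133,k199,k0,k189,
    k64,k64,k170,k170,k107,k107,k167,k148] k0 [[k0,k0,k0,(nat_lit 239),k0,k0,k0,k0,k0,k0,k0,k16],[k0,k0,k0,k44,k0,k0,
    k63,k13],[k44,(nat_lit 239)],[k0,k0,k0,k0,k54,k106],[k0,k0,k106,k0,k0,k0,k20],[k0,k0,k54,k0,k0,k0,k0,k0,k0,k0,k0,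
    k35],[k13,k0,k0,k0,k0,k0,k0,k0,k54],[k63,k0,k0,k0,k0,k20],[k0,k0,k0,k0,k0,k0,k0,k0,k0,k0,k63],[k0,k0,k0,k0,k0,k0,
    k0,k54,k0,k0,k25],[k0,k16,k0,k0,k35],[k0,k0,k0,k0,k0,k0,k0,k0,k25,k63]] (nat_lit 1440) k5
    [[(k3,(nat_lit 360)),(k11,(nat_lit 360)),(k7,(nat_lit 363)),(k8,(nat_lit 363)),(k0,(nat_lit 400)),(k4,
    (nat_lit 504))],[(k2,(nat_lit 360)),(k1,(nat_lit 400)),(k10,(nat_lit 416)),(k6,(nat_lit 492)),(k9,(nat_lit 505)),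
    (k5,(nat_lit 579))],[(k1,(nat_lit 360)),(k6,(nat_lit 360)),(k9,(nat_lit 373)),(k10,(nat_lit 376)),(k2,
    (nat_lit 499)),(k5,(nat_lit 718))],[(k0,(nat_lit 360)),(k3,(nat_lit 499)),(k11,(nat_lit 584)),(k8,(nat_lit 625)),
    (k7,(nat_lit 668)),(k4,(nat_lit 722))],[(k7,(nat_lit 444)),(k4,(nat_lit 498)),(k11,(nat_lit 520)),(k8,
    (nat_lit 561)),(k0,(nat_lit 579)),(k3,(nat_lit 718))],[(k5,(nat_lit 498)),(k6,(nat_lit 498)),(k10,(nat_lit 501)),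
    (k1,(nat_lit 504)),(k9,(nat_lit 541)),(k2,(nat_lit 722))],[(k10,(nat_lit 360)),(k1,(nat_lit 363)),(k6,
    (nat_lit 412)),(k5,(nat_lit 444)),(k9,(nat_lit 455)),(k2,(nat_lit 668))],[(k3,(nat_lit 360)),(k11,(nat_lit 360)),
    (k7,(nat_lit 412)),(k8,(nat_lit 455)),(k0,(nat_lit 492)),(k4,(nat_lit 498))],[(k3,(nat_lit 373)),(k7,
    (nat_lit 455)),(k11,(nat_lit 477)),(k0,(nat_lit 505)),(k4,(nat_lit 541)),(k8,(nat_lit 572))],[(k1,(nat_lit 363)),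
    (k6,(nat_lit 455)),(k10,(nat_lit 483)),(k5,(nat_lit 561)),(k9,(nat_lit 572)),(k2,(nat_lit 625))],[(k1,
    (nat_lit 360)),(k6,(nat_lit 360)),(k9,(nat_lit 477)),(k10,(nat_lit 480)),(k5,(nat_lit 520)),(k2,(nat_lit 584))],
    [(k7,(nat_lit 360)),(k3,(nat_lit 376)),(k0,(nat_lit 416)),(k11,(nat_lit 480)),(k8,(nat_lit 483)),(k4,
    (nat_lit 501))]]
    [] k0
    [[k2,k0,k0,k0,k0,k0],[k3,k0,k0,k0,k0,k0],[k2,k1,k0,k0,k0,k0],[k2,k0,k0,k1,k0,k0],[k2,k0,k0,k0,k1,k0],[k2,k0,k0,k0,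
    k0,k1],[k1,k1,k0,k0,k0,k0],[k1,k2,k0,k0,k0,k0],[k1,k1,k0,k0,k0,k1],[k1,k0,k1,k0,k0,k0],[k1,k0,k0,k1,k0,k0],[k1,k1,
    k0,k1,k0,k0],[k1,k0,k0,k2,k0,k0],[k1,k0,k0,k1,k1,k0],[k1,k0,k0,k1,k0,k1],[k1,k0,k0,k0,k1,k0],[k1,k1,k0,k0,k1,k0],
    [k1,k0,k0,k0,k1,k1],[k1,k0,k0,k0,k0,k1],[k1,k0,k0,k0,k0,k2],[k0,k2,k0,k0,k0,k0],[k0,k1,k0,k1,k0,k0],[k0,k1,k0,k1,
    k0,k1],[k0,k1,k0,k0,k1,k0],[k0,k1,k0,k0,k0,k1],[k0,k0,k2,k0,k0,k0],[k0,k0,k1,k1,k0,k0],[k0,k0,k1,k2,k0,k0],[k0,k0,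
    k1,k1,k0,k1],[k0,k0,k1,k0,k1,k0],[k0,k0,k1,k0,k0,k1],[k0,k0,k0,k2,k0,k0],[k0,k0,k0,k3,k0,k0],[k0,k0,k0,k2,k1,k0],
    [k0,k0,k0,k2,k0,k1],[k0,k0,k0,k1,k1,k0],[k0,k0,k0,k1,k1,k1],[k0,k0,k0,k1,k0,k1],[k0,k0,k0,k1,k0,k2],[k0,k0,k0,k0,
    k2,k0],[k0,k0,k0,k0,k1,k1],[k0,k0,k0,k0,k0,k2]]
    [.contra [z1],.contra [y1,z3,z0,z4],.ref k55 k7 [(z1,[z1]),(z1,[y1,z0,y2,z0,z2])],.contra [y1,z3,z0,z4],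
    .contra [y1,z1,y1,z1,z1],.contra [y1,z2,z0,z3],.ref k3 k11 [(z1,[z0,z0,z1]),(z1,[z1,z0,y1])],.ref k121 k8 [(z2,
    [z1,z1,z2,z2,y2]),(z2,[y1,y1,z0,y2,z2])],.ref k1 k3 [(z1,[y1,z0,z0,z0,z1])],.ref k165 k4 [(z1,[y1,z1,z0,z1]),(z1,
    [z0,y1,y1,y1,z1]),(z1,[z1])],.contra [y1,z3,z0,z4],.ref k121 k1 [(z1,[y1,z1,z1,z1]),(z1,[z1,y1,z0,y1])],
    .contra [y2,z3,z1,z4],.contra [y4,z1,y3,z0,z4],.contra [z1,y1,z0,y1],.contra [z1,z0,z1,z1,y1],.ref k121 k8 [(z1,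
    [z1,z1,z2,z2,y2]),(z1,[y1,y1,y1,y2,z2])],.contra [y1,z0,y1,z0,z1],.contra [y1,z2,z0,z3],.contra [y1,z1,z0,z2],
    .contra [z1],.ref k167 k1 [(z1,[y1,z0,z1]),(z1,[z1]),(z1,[z0,z1,y1,z1,z1])],.ref k0 k3 [(z1,[z1,y1,y1,y2,z1])],
    .ref k0 k3 [(z1,[z1])],.ref k121 k1 [(z1,[y1,z0,z1]),(z1,[z1])],.contra [y1,z0,z2],.ref k3 k1 [(z1,[z1]),(z1,[y1,
    z0,z1])],.ref k55 k4 [(z1,[z1]),(z1,[y1,z0,y2,z0,z2])],.ref k121 k8 [(z1,[y1,z1,z2,z2,y1]),(z1,[z1,y1,y1,y2,z1])],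
    .ref k121 k8 [(z1,[y1,z0,z1]),(z1,[z1])],.ref k0 k0 [(z1,[z1])],.contra [z1],.contra [y4,z9,z1,z12],.contra [z1,
    y3,y3,y5,z3],.contra [y4,z5,z1,z8],.contra [y4,z1,y3,z0,z4],.contra [z1,y1,y1,y2,z1],.contra [y2,z1,z1,z2],
    .contra [y4,z1,z1,z4],.contra [z1],.contra [y4,y3,y3,y4,z4],.contra [z1]]),
    .old (.lp [(nat_lit 13960),(nat_lit 10804),(nat_lit 10534),(nat_lit 14990),(nat_lit 15084),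
    (nat_lit 7436)] [(nat_lit 2180),k0,(nat_lit 2668),(nat_lit 2668),(nat_lit 2803),(nat_lit 2803),(nat_lit 575),
    (nat_lit 575),(nat_lit 528),(nat_lit 528),(nat_lit 4352),(nat_lit 4352)] k0 [[k0,k0,(nat_lit 2732),
    (nat_lit 1548)],[k0,k0,k0,k0,k0,k0,k0,k0,k0,k0,(nat_lit 272)],[k0,(nat_lit 1548),k0,k0,(nat_lit 1818)],[k0,
    (nat_lit 2732),k0,k0,k58],[k0,k0,k0,k0,k0,k0,(nat_lit 1490),(nat_lit 5466),k0,k0,k0,(nat_lit 490)],[k0,k0,k58,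
    (nat_lit 1818),k0,k0,k0,k0,k0,k0,k0,(nat_lit 758)],[k0,k0,k0,k0,k0,(nat_lit 5466),k0,k0,(nat_lit 668)],[k0,k0,k0,
    k0,k0,(nat_lit 1490),k0,k0,(nat_lit 940)],[k0,k0,k0,k0,k0,k0,k0,k0,k0,k0,(nat_lit 8316),(nat_lit 852)],[k0,k0,k0,
    k0,k0,k0,(nat_lit 940),(nat_lit 668)],[k0,k0,k0,k0,(nat_lit 758),(nat_lit 490),k0,k0,k0,(nat_lit 852)],
    [(nat_lit 272),k0,k0,k0,k0,k0,k0,k0,k0,(nat_lit 8316)]] (nat_lit 36480) k6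
    [[(k8,(nat_lit 7296)),(k11,(nat_lit 12640)),(k3,(nat_lit 13200)),(k0,(nat_lit 13960)),(k4,(nat_lit 14095)),(k7,
    (nat_lit 16055))],[(k5,(nat_lit 8425)),(k2,(nat_lit 9744)),(k10,(nat_lit 9880)),(k6,(nat_lit 13385)),(k9,
    (nat_lit 13432)),(k1,(nat_lit 13960))],[(k10,(nat_lit 9120)),(k5,(nat_lit 12217)),(k6,(nat_lit 12897)),(k9,
    (nat_lit 12944)),(k1,(nat_lit 13200)),(k2,(nat_lit 13536))],[(k11,(nat_lit 9120)),(k0,(nat_lit 9744)),(k4,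
    (nat_lit 10727)),(k7,(nat_lit 11079)),(k8,(nat_lit 12944)),(k3,(nat_lit 13536))],[(k0,(nat_lit 8425)),(k11,
    (nat_lit 8985)),(k3,(nat_lit 12217)),(k4,(nat_lit 12352)),(k7,(nat_lit 12704)),(k8,(nat_lit 12809))],[(k6,
    (nat_lit 7296)),(k10,(nat_lit 8495)),(k2,(nat_lit 10727)),(k9,(nat_lit 11319)),(k5,(nat_lit 12352)),(k1,
    (nat_lit 14095))],[(k10,(nat_lit 10455)),(k2,(nat_lit 11079)),(k5,(nat_lit 12704)),(k1,(nat_lit 16055)),(k6,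
    (nat_lit 16480)),(k9,(nat_lit 20503))],[(k4,(nat_lit 7296)),(k11,(nat_lit 10545)),(k3,(nat_lit 12897)),(k0,
    (nat_lit 13385)),(k8,(nat_lit 15977)),(k7,(nat_lit 16480))],[(k11,(nat_lit 10320)),(k4,(nat_lit 11319)),(k3,
    (nat_lit 12944)),(k0,(nat_lit 13432)),(k8,(nat_lit 15752)),(k7,(nat_lit 20503))],[(k1,(nat_lit 7296)),(k10,
    (nat_lit 10408)),(k5,(nat_lit 12809)),(k2,(nat_lit 12944)),(k9,(nat_lit 15752)),(k6,(nat_lit 15977))],[(k5,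
    (nat_lit 8985)),(k2,(nat_lit 9120)),(k9,(nat_lit 10320)),(k6,(nat_lit 10545)),(k1,(nat_lit 12640)),(k10,
    (nat_lit 15752))],[(k4,(nat_lit 8495)),(k3,(nat_lit 9120)),(k0,(nat_lit 9880)),(k8,(nat_lit 10408)),(k7,
    (nat_lit 10455)),(k11,(nat_lit 15752))]]
    [] k0
    [[k2,k0,k0,k0,k0,k0],[k2,k0,k0,k0,k1,k0],[k1,k1,k0,k0,k0,k0],[k1,k1,k1,k0,k0,k0],[k1,k1,k0,k0,k0,k1],[k1,k0,k1,k0,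
    k0,k0],[k1,k0,k2,k0,k0,k0],[k1,k0,k1,k0,k0,k1],[k1,k0,k0,k1,k0,k0],[k1,k0,k1,k1,k0,k0],[k1,k0,k0,k0,k1,k0],[k1,k1,
    k0,k0,k1,k0],[k1,k0,k1,k0,k1,k0],[k1,k0,k0,k0,k1,k1],[k1,k0,k1,k0,k1,k1],[k1,k0,k0,k0,k0,k1],[k0,k2,k0,k0,k0,k0],
    [k0,k2,k0,k0,k0,k1],[k0,k1,k1,k0,k0,k0],[k0,k1,k2,k0,k0,k0],[k0,k1,k1,k1,k0,k0],[k0,k1,k1,k0,k0,k1],[k0,k1,k0,k1,
    k0,k0],[k0,k1,k0,k1,k0,k1],[k0,k1,k0,k0,k1,k0],[k0,k1,k0,k0,k1,k1],[k0,k1,k0,k0,k0,k1],[k0,k1,k1,k0,k0,k2],[k0,k1,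
    k0,k0,k0,k2],[k0,k0,k2,k0,k0,k0],[k0,k0,k2,k1,k0,k0],[k0,k0,k2,k0,k0,k1],[k0,k0,k1,k1,k0,k0],[k0,k0,k1,k1,k0,k1],
    [k0,k0,k1,k0,k1,k0],[k0,k0,k1,k0,k1,k1],[k0,k0,k1,k0,k0,k1],[k0,k0,k2,k0,k0,k2],[k0,k0,k1,k0,k0,k2],[k0,k0,k0,k2,
    k0,k0],[k0,k0,k0,k1,k0,k1],[k0,k0,k0,k0,k2,k0],[k0,k0,k0,k0,k1,k1],[k0,k0,k0,k0,k0,k2]]
    [.contra [z1],.ref k121 k9 [(z1,[z1,y2,y1]),(z1,[y1,z1,z0,z1])],.contra [y1,z2,z1],.contra [y1,z1,z1],.contra [y1,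
    z1,z1],.contra [y1,z1,z1],.ref k148 k5 [(z1,[z0,y1,y1,z1]),(z1,[z1])],.contra [z1,z1],.ref k0 k2 [(z1,[z1])],
    .ref k137 k3 [(z1,[z0,y1,y1,z1]),(z1,[y1,z1,z1])],.ref k121 k4 [(z1,[y1,y1,y1,z1]),(z1,[z1])],.ref k0 k2 [(z1,[y1,
    z1,z0,z1])],.ref k2 k2 [(z1,[z1])],.ref k1 k2 [(z1,[z1])],.ref k121 k9 [(z1,[z1,y1,y1]),(z1,[y1,z0,z0,z1])],
    .contra [y1,z1,z1],.contra [z1],.ref k168 k6 [(z1,[z1,y4,y2]),(z1,[z0,y1,y1,z1]),(z1,[y1,z3,z2])],.contra [y1,z1,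
    z1],.contra [y1,z0,z1],.ref k1 k2 [(z1,[y1,z0,z0,z1])],.contra [y1,z1,z1],.ref k121 k9 [(z1,[y1,y1,y1,z1]),(z1,
    [z1])],.ref k2 k2 [(z1,[y1,z0,z0,z1])],.ref k0 k3 [(z1,[z1])],.ref k137 k3 [(z1,[z0,y1,y1,z1]),(z1,[z1,z1,z1,
    y1])],.contra [y1,z1,z1],.contra [y1,z0,z1],.contra [y1,z0,z1],.contra [z1],.ref k55 k1 [(z1,[z1]),(z1,[y1,z2,
    z2])],.contra [y1,z0,z1],.ref k3 k5 [(z1,[z0,y1,y1,z1]),(z1,[z1,z1,z1,y1])],.ref k0 k2 [(z1,[z1,z1])],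
    .ref k167 k4 [(z1,[y1,y1,y1,z1]),(z1,[z1]),(z1,[z0,z0,z1])],.ref k121 k4 [(z1,[y1,y2,y1,z1]),(z1,[z1,z1])],
    .contra [y1,z1,z1],.contra [z1,z2],.contra [y1,z0,z1],.contra [z1],.ref k165 k1 [(z1,[y1,y1]),(z1,[z0,z2,z1]),(z1,
    [z1])],.contra [y1,y2,y2,z2],.ref k3 k9 [(z1,[z1]),(z1,[y1,y1,y1,z1])],.contra [z1]]),
    .geo true z2 k5 [(y1,z2),(z4,y4),(z3,z0),(z1,z0),(z1,z0),(z0,z2)] [(z1,[z1]),(z1,[z0,z2]),(z1,[z0,z0,z1]),(z1,[z0,z0,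
    z0,z1]),(z1,[y1,y2,y1,y1,z2]),(z1,
    [])] (Int.ofNat (nat_lit 524288)) (Int.ofNat (nat_lit 1048576)) (.s (.l k1) (.s (.l k1) (.l k1))) [],
    .old (.lp [(nat_lit 19144320),(nat_lit 21370272),(nat_lit 23214730),(nat_lit 17554152),(nat_lit 20352640),
    (nat_lit 20352640)] [(nat_lit 6042131),(nat_lit 8140997),(nat_lit 5978588),(nat_lit 5978588),(nat_lit 2798439),
    (nat_lit 7314279),(nat_lit 7886648),(nat_lit 7886648),(nat_lit 10049116),(nat_lit 2925692),k0,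
    (nat_lit 12974808)] k0 [[k0,k0,k0,k0,k0,k0,k0,k0,k0,k0,(nat_lit 6487404),(nat_lit 15073674)],[k0,k0,
    (nat_lit 5469772),(nat_lit 9158688),k0,k0,k0,(nat_lit 954030)],[(nat_lit 9158688),k0,k0,k0,k0,k0,k0,k0,k0,
    (nat_lit 5088160)],[(nat_lit 5469772),k0,k0,k0,k0,k0,k0,k0,k0,(nat_lit 636020)],[k0,k0,k0,k0,k0,k0,
    (nat_lit 15391684)],[k0,k0,k0,k0,k0,k0,(nat_lit 4388538),k0,k0,k0,(nat_lit 954030),(nat_lit 9540300)],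
    [(nat_lit 954030),k0,k0,k0,k0,k0,k0,k0,(nat_lit 254408)],[k0,k0,k0,k0,(nat_lit 4388538),(nat_lit 15391684)],[k0,
    k0,(nat_lit 636020),(nat_lit 5088160)],[k0,k0,k0,k0,k0,k0,k0,(nat_lit 254408)],[k0,(nat_lit 15073674),k0,k0,
    (nat_lit 9540300)],[k0,(nat_lit 6487404),k0,k0,(nat_lit 954030)]] (nat_lit 61057920) k6
    [[(k11,(nat_lit 12211643)),(k0,(nat_lit 12656916)),(k8,(nat_lit 15137335)),(k7,(nat_lit 16345773)),(k4,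
    (nat_lit 31928312)),(k3,(nat_lit 34281537))],[(k10,(nat_lit 12211643)),(k1,(nat_lit 12656916)),(k6,
    (nat_lit 19398669)),(k9,(nat_lit 25313655)),(k2,(nat_lit 26776501)),(k5,(nat_lit 29129726))],[(k2,
    (nat_lit 12211584)),(k5,(nat_lit 14564809)),(k6,(nat_lit 18508182)),(k9,(nat_lit 24423168)),(k10,
    (nat_lit 33836264)),(k1,(nat_lit 34281537))],[(k3,(nat_lit 12211584)),(k8,(nat_lit 12211584)),(k11,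
    (nat_lit 15010072)),(k7,(nat_lit 19462212)),(k4,(nat_lit 24550421)),(k0,(nat_lit 26776501))],[(k3,
    (nat_lit 14564809)),(k8,(nat_lit 15328033)),(k7,(nat_lit 18126521)),(k11,(nat_lit 18126521)),(k4,
    (nat_lit 23214730)),(k0,(nat_lit 29129726))],[(k9,(nat_lit 12211633)),(k5,(nat_lit 23214730)),(k2,
    (nat_lit 24550421)),(k6,(nat_lit 27030899)),(k10,(nat_lit 31483039)),(k1,(nat_lit 31928312))],[(k10,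
    (nat_lit 15900500)),(k1,(nat_lit 16345773)),(k5,(nat_lit 18126521)),(k9,(nat_lit 18126570)),(k2,
    (nat_lit 19462212)),(k6,(nat_lit 32945836))],[(k11,(nat_lit 12211584)),(k8,(nat_lit 15391684)),(k3,
    (nat_lit 18508182)),(k0,(nat_lit 19398669)),(k4,(nat_lit 27030899)),(k7,(nat_lit 32945836))],[(k4,
    (nat_lit 12211633)),(k11,(nat_lit 17426948)),(k7,(nat_lit 18126570)),(k8,(nat_lit 20607048)),(k3,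
    (nat_lit 24423168)),(k0,(nat_lit 25313655))],[(k2,(nat_lit 12211584)),(k1,(nat_lit 15137335)),(k5,
    (nat_lit 15328033)),(k6,(nat_lit 15391684)),(k9,(nat_lit 20607048)),(k10,(nat_lit 23278332))],[(k6,
    (nat_lit 12211584)),(k1,(nat_lit 12211643)),(k2,(nat_lit 15010072)),(k9,(nat_lit 17426948)),(k5,
    (nat_lit 18126521)),(k10,(nat_lit 20352640))],[(k0,(nat_lit 12211643)),(k7,(nat_lit 15900500)),(k11,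
    (nat_lit 20352640)),(k8,(nat_lit 23278332)),(k4,(nat_lit 31483039)),(k3,(nat_lit 33836264))]]
    [] k0
    [[k2,k0,k0,k0,k0,k0],[k3,k0,k0,k0,k0,k0],[k4,k0,k0,k0,k0,k0],[k3,k0,k0,k0,k0,k1],[k2,k0,k0,k1,k0,k0],[k2,k0,k0,k1,
    k0,k1],[k2,k0,k0,k0,k1,k0],[k2,k0,k0,k0,k1,k1],[k2,k0,k0,k0,k0,k1],[k2,k0,k0,k0,k0,k2],[k1,k0,k0,k1,k0,k0],[k1,k0,
    k0,k1,k1,k0],[k1,k0,k0,k1,k0,k1],[k1,k0,k0,k0,k1,k0],[k1,k0,k1,k0,k1,k0],[k1,k0,k1,k0,k1,k1],[k1,k0,k0,k1,k1,k1],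
    [k1,k0,k0,k0,k1,k1],[k1,k0,k0,k0,k0,k1],[k1,k0,k0,k1,k0,k2],[k1,k0,k0,k0,k0,k2],[k0,k2,k0,k0,k0,k0],[k0,k3,k0,k0,
    k0,k0],[k0,k4,k0,k0,k0,k0],[k0,k2,k1,k0,k0,k0],[k0,k2,k1,k0,k1,k0],[k0,k2,k0,k1,k0,k0],[k0,k2,k0,k0,k1,k0],[k0,k1,
    k1,k0,k0,k0],[k0,k1,k1,k0,k1,k0],[k0,k1,k1,k0,k2,k0],[k0,k1,k0,k1,k0,k0],[k0,k1,k0,k1,k1,k0],[k0,k1,k0,k1,k0,k1],
    [k0,k1,k0,k0,k1,k0],[k0,k1,k0,k0,k2,k0],[k0,k1,k0,k0,k0,k1],[k0,k0,k2,k0,k0,k0],[k0,k0,k2,k0,k1,k0],[k0,k0,k1,k1,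
    k0,k0],[k0,k0,k1,k1,k1,k0],[k0,k0,k1,k0,k1,k0],[k0,k0,k2,k0,k2,k0],[k0,k0,k1,k0,k2,k0],[k0,k0,k1,k0,k0,k1],[k0,k0,
    k1,k0,k1,k1],[k0,k0,k0,k1,k1,k0],[k0,k0,k0,k1,k2,k0],[k0,k0,k0,k1,k1,k1],[k0,k0,k0,k1,k0,k1],[k0,k0,k0,k2,k0,k2],
    [k0,k0,k0,k1,k0,k2],[k0,k0,k0,k0,k2,k0],[k0,k0,k0,k0,k1,k1],[k0,k0,k0,k0,k0,k2]]
    [.contra [z1],.contra [z1,y1],.contra [z1,y1],.contra [z2,y3,z1],.contra [z2,z0,z1,z1,y2],.contra [z2,z0,z1,z1,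
    y2],.contra [z1,y1],.contra [z1,y1],.contra [z1,y1],.contra [z1,y1],.contra [z2,z0,z1,z1,y2],.contra [z2,z0,z1,z1,
    y2],.contra [z2,z0,z1,z1,y2],.ref k121 k11 [(z2,[y2,z1,z1]),(z1,[z1])],.contra [z2,y1,z0,y1],.contra [z2,y1,z0,
    y1],.contra [z2,z2,z1,z1,y2],.ref k1 k2 [(z1,[z1])],.ref k3 k2 [(z1,[z1]),(z2,[y2,z1,z1])],.contra [z2,z0,z1,z1,
    y2],.ref k55 k6 [(z1,[z1]),(z1,[y1,y1,y1,z0,z2])],.contra [y1,z1,z1],.ref k55 k10 [(z1,[z1,z0,y1,z1]),(z1,[y1,y1,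
    z0,y1,z2])],.ref k170 k3 [(z2,[y1,z2,z4,z2,y4]),(z1,[z0,y1,y1,y1,z2]),(z2,[y1,z2,z2]),(z2,[z1])],
    .ref k55 k10 [(z2,[z2,z0,y1,z1]),(z2,[y2,y2,y1,y1,z4])],.ref k1 k2 [(z2,[y2,z1,z2,z1])],.ref k1 k2 [(z2,[y2,z0,z1,
    y1,z2])],.contra [y1,z0,z1],.contra [y2,z2,z1,z1],.contra [y2,z0,z1,z1],.contra [z2,y2,y3,y3,z4],.contra [y2,y1,
    z0,y1,z2],.contra [z2,y1,y2,y1,z2],.contra [y2,y1,z0,y1,z2],.contra [y4,z1,z3],.contra [y1,z0,z1],.contra [y2,y1,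
    z0,y1,z2],.contra [y1,z1,z0,z1],.contra [y1,z0,z0,z1],.contra [y2,y1,y1,z0,z2],.contra [z2,y1,y1,y2,z2],
    .contra [y4,z1,z1,z2],.contra [z1,y1,y1,y2,z2],.contra [y2,z0,z1,z1],.contra [y2,y1,y1,z0,z2],.contra [y2,y1,y1,
    z0,z2],.contra [y2,y1,z0,y1,z2],.ref k169 k9 [(z2,[z2,z1,z1,z0,y2]),(z1,[y1,y1,y1,z0,z2])],.contra [y2,y1,z0,y1,
    z2],.contra [y1,y1,y1,y1,z2],.contra [y1,y2,y2,y2,z4],.ref k148 k7 [(z2,[z0,z1,z1]),(z1,[z1])],.contra [z1],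
    .contra [y2,y1,z0,y1,z2],.contra [z1]]),
    .old (.lp [(nat_lit 2830),(nat_lit 1752),(nat_lit 1956),(nat_lit 1538),(nat_lit 2004),(nat_lit 1428)] [k0,k0,
    (nat_lit 539),(nat_lit 539),(nat_lit 437),(nat_lit 437),(nat_lit 977),(nat_lit 315),(nat_lit 413),(nat_lit 413),
    (nat_lit 701),(nat_lit 701)] k0 [[k0,k0,k0,k0,k0,k0,(nat_lit 1030),k0,k0,k0,k0,(nat_lit 476)],[k0,k0,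
    (nat_lit 702),(nat_lit 312)],[(nat_lit 312),k0,k0,k0,k0,k0,k0,k0,(nat_lit 300)],[(nat_lit 702)],[k0,k0,k0,k0,k0,
    k0,(nat_lit 456),(nat_lit 224)],[k0,k0,k0,k0,k0,k0,k0,k0,k0,k0,(nat_lit 420),(nat_lit 662)],[k0,k0,k0,k0,k0,
    (nat_lit 224)],[k0,(nat_lit 1030),k0,k0,k0,(nat_lit 456)],[k0,k0,k0,k0,k0,k0,k0,k0,k0,k0,(nat_lit 874)],[k0,k0,k0,
    (nat_lit 300),k0,k0,k0,k0,k0,k0,(nat_lit 324)],[k0,(nat_lit 476),k0,k0,(nat_lit 662)],[k0,k0,k0,k0,(nat_lit 420),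
    k0,k0,k0,(nat_lit 324),(nat_lit 874)]] (nat_lit 5760) k6
    [[(k8,(nat_lit 1543)),(k11,(nat_lit 1805)),(k7,(nat_lit 2095)),(k3,(nat_lit 2767)),(k0,(nat_lit 2830)),(k4,
    (nat_lit 3055))],[(k9,(nat_lit 1387)),(k10,(nat_lit 1653)),(k6,(nat_lit 1853)),(k5,(nat_lit 2705)),(k1,
    (nat_lit 2830)),(k2,(nat_lit 2993))],[(k5,(nat_lit 1152)),(k2,(nat_lit 1440)),(k10,(nat_lit 1590)),(k9,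
    (nat_lit 1878)),(k6,(nat_lit 2344)),(k1,(nat_lit 2767))],[(k11,(nat_lit 1290)),(k3,(nat_lit 1440)),(k4,
    (nat_lit 1854)),(k8,(nat_lit 1878)),(k7,(nat_lit 1976)),(k0,(nat_lit 2993))],[(k3,(nat_lit 1152)),(k11,
    (nat_lit 1692)),(k4,(nat_lit 1956)),(k7,(nat_lit 2078)),(k8,(nat_lit 2280)),(k0,(nat_lit 2705))],[(k6,
    (nat_lit 1192)),(k9,(nat_lit 1524)),(k2,(nat_lit 1854)),(k5,(nat_lit 1956)),(k10,(nat_lit 2112)),(k1,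
    (nat_lit 3055))],[(k10,(nat_lit 1152)),(k2,(nat_lit 1976)),(k6,(nat_lit 1994)),(k5,(nat_lit 2078)),(k1,
    (nat_lit 2095)),(k9,(nat_lit 2326))],[(k11,(nat_lit 1152)),(k4,(nat_lit 1192)),(k8,(nat_lit 1440)),(k0,
    (nat_lit 1853)),(k7,(nat_lit 1994)),(k3,(nat_lit 2344))],[(k0,(nat_lit 1387)),(k4,(nat_lit 1524)),(k11,
    (nat_lit 1716)),(k3,(nat_lit 1878)),(k8,(nat_lit 2004)),(k7,(nat_lit 2326))],[(k6,(nat_lit 1440)),(k1,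
    (nat_lit 1543)),(k2,(nat_lit 1878)),(k9,(nat_lit 2004)),(k10,(nat_lit 2040)),(k5,(nat_lit 2280))],[(k6,
    (nat_lit 1152)),(k2,(nat_lit 1290)),(k5,(nat_lit 1692)),(k9,(nat_lit 1716)),(k1,(nat_lit 1805)),(k10,
    (nat_lit 2302))],[(k7,(nat_lit 1152)),(k3,(nat_lit 1590)),(k0,(nat_lit 1653)),(k8,(nat_lit 2040)),(k4,
    (nat_lit 2112)),(k11,(nat_lit 2302))]]
    [] k0
    [[k2,k0,k0,k0,k0,k0],[k1,k1,k0,k0,k0,k1],[k1,k0,k0,k1,k0,k0],[k1,k0,k0,k1,k1,k0],[k1,k0,k0,k1,k0,k1],[k1,k0,k0,k0,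
    k1,k0],[k1,k0,k0,k0,k2,k0],[k1,k0,k0,k0,k1,k1],[k1,k0,k0,k0,k0,k1],[k0,k2,k0,k0,k0,k0],[k0,k3,k0,k0,k0,k0],[k0,k2,
    k1,k0,k0,k0],[k0,k2,k0,k0,k1,k0],[k0,k2,k0,k0,k0,k1],[k0,k1,k1,k0,k0,k0],[k0,k1,k2,k0,k0,k0],[k0,k1,k1,k1,k0,k0],
    [k0,k1,k1,k1,k0,k1],[k0,k1,k1,k0,k1,k0],[k0,k1,k1,k0,k0,k1],[k0,k1,k0,k1,k0,k0],[k0,k1,k0,k1,k0,k1],[k0,k1,k0,k0,
    k1,k0],[k0,k1,k0,k1,k1,k0],[k0,k1,k0,k0,k1,k1],[k0,k1,k0,k0,k0,k1],[k0,k1,k0,k1,k0,k2],[k0,k1,k0,k0,k0,k2],[k0,k0,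
    k2,k0,k0,k0],[k0,k0,k2,k1,k0,k0],[k0,k0,k1,k1,k0,k0],[k0,k0,k1,k2,k0,k0],[k0,k0,k1,k1,k1,k0],[k0,k0,k1,k1,k0,k1],
    [k0,k0,k1,k2,k0,k1],[k0,k0,k1,k0,k1,k0],[k0,k0,k1,k0,k0,k1],[k0,k0,k1,k0,k1,k1],[k0,k0,k0,k2,k0,k0],[k0,k0,k0,k2,
    k0,k1],[k0,k0,k0,k1,k1,k0],[k0,k0,k0,k1,k1,k1],[k0,k0,k0,k1,k0,k1],[k0,k0,k0,k2,k0,k2],[k0,k0,k0,k1,k0,k2],[k0,k0,
    k0,k0,k2,k0],[k0,k0,k0,k0,k1,k1],[k0,k0,k0,k0,k0,k2]]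
    [.contra [z1],.contra [z1,y1,y1],.ref k0 k2 [(z1,[z1])],.ref k158 k11 [(z1,[y1,z1,z1]),(z1,[z1])],
    .ref k55 k10 [(z1,[y2,z0,y1,z0,z2]),(z1,[z2,y2,y1])],.ref k55 k10 [(z1,[y2,z2,z1,z2]),(z1,[z2,y4,y3,y2,z2])],
    .contra [z1,z1],.ref k1 k2 [(z1,[z1])],.ref k3 k2 [(z1,[z1]),(z1,[y1,z1,z1])],.contra [y1,z2,z2],
    .ref k55 k10 [(z1,[z1,z0,y2,z2]),(z1,[y1,y2,z0,y2,z2])],.ref k55 k10 [(z1,[z1,z0,y1,z1]),(z1,[y1,y2,y1,y1,z2])],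
    .ref k55 k10 [(z1,[z2,z0,y3,z2]),(z1,[y2,y2,z1,y2,z2])],.ref k158 k11 [(z1,[z1,z1,z0,z1,y1]),(z1,[y1,z0,z1,y1,
    z1])],.contra [y1,z2,z1,z1],.ref k55 k10 [(z1,[z1]),(z1,[y1,y2,y2,z0,z2])],.ref k1 k2 [(z1,[y1,z0,z0,z0,z1])],
    .ref k55 k10 [(z1,[z2,z2,z1,z2,y2]),(z1,[y2,y4,y3,y2,z4])],.ref k55 k10 [(z1,[z2,z0,y1]),(z1,[y2,y2,y1,z0,z2])],
    .ref k158 k11 [(z1,[z1,z1,z1,z0,y1]),(z1,[y1,z0,z0,z0,z1])],.contra [y1,y1,z0,y1,z1],.contra [y2,y1,z0,y2,z2],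
    .contra [y2,z1,z2],.contra [y1,y1,z0,y1,z1],.contra [y1,y1,z0,y1,z1],.contra [y2,y1,z0,y2,z2],.contra [y1,y2,y1,
    y2,z2],.contra [y1,y2,y1,y2,z2],.contra [y1,z2,z0,z2],.ref k1 k2 [(z1,[y1,z0,y1,z1,z1])],.contra [y1,y1,y1,z0,z1],
    .contra [y1,y2,y2,y1,z2],.contra [y1,y1,y1,z0,z1],.contra [y2,y1,y2,z0,z2],.contra [y1,y2,y2,y1,z2],.contra [y2,
    z1,z0,z2],.contra [y2,y1,y2,z0,z2],.contra [y1,y1,y1,z0,z1],.contra [z1],.contra [y1,y2,y1,y2,z2],.contra [y1,y1,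
    z0,y1,z1],.contra [z1,z1,z1,z1,y1],.contra [y2,y1,z0,y2,z2],.contra [z1,z2,z2,z2,y2],.contra [y1,y2,y1,y2,z2],
    .contra [z1],.contra [y1,y1,z0,y1,z1],.contra [z1]])]

noncomputable def cU6_2_n2_3 : List XN :=
  [.old (.lp [k184,k126,k172,k122,k172,k182] [k20,k20,k49,k49,k26,k26,k53,k49,k26,k26,k0,k42] k0 [[k0,k0,k56,k0,k0,k0,k0,
    k10],[k0,k0,k0,k0,k0,k0,k0,k10,k0,k0,k12],[k0,k0,k0,k0,k30],[k0,k56],[k0,k0,k0,k0,k0,k0,k66,k2,k0,k0,k4],[k0,k0,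
    k0,k30],[k10,k10,k0,k0,k0,k2],[k0,k0,k0,k0,k0,k66,k0,k0,k12],[k0,k0,k0,k0,k0,k0,k0,k0,k0,k0,k0,k102],[k0,k0,k0,k0,
    k0,k0,k12,k0,k0,k0,k0,k10],[k0,k0,k0,k0,k0,k0,k0,k0,k10,k102],[k12,k0,k0,k0,k0,k4]] (nat_lit 480) k6
    [[(k3,k143),(k7,k155),(k4,k174),(k0,k184),(k8,k188),(k11,(nat_lit 264))],[(k5,k122),(k6,k141),(k2,k155),(k1,k184),
    (k9,k188),(k10,(nat_lit 216))],[(k6,k112),(k1,k143),(k5,k149),(k9,k159),(k10,k175),(k2,k182)],[(k7,k96),(k11,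
    k133),(k4,k149),(k8,k149),(k0,k155),(k3,k182)],[(k0,k122),(k3,k149),(k7,k149),(k11,k156),(k8,k172),(k4,
    (nat_lit 202))],[(k9,k106),(k6,k143),(k2,k149),(k1,k174),(k10,k198),(k5,(nat_lit 202))],[(k2,k96),(k5,k149),(k9,
    k151),(k1,k155),(k10,k179),(k6,k188)],[(k3,k112),(k11,k129),(k0,k141),(k4,k143),(k8,k157),(k7,k188)],[(k4,k106),
    (k11,k144),(k7,k151),(k3,k159),(k8,k172),(k0,k188)],[(k10,k96),(k2,k149),(k6,k157),(k5,k172),(k9,k172),(k1,k188)],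
    [(k6,k129),(k2,k133),(k9,k144),(k5,k156),(k10,k172),(k1,(nat_lit 264))],[(k8,k96),(k11,k172),(k3,k175),(k7,k179),
    (k4,k198),(k0,(nat_lit 216))]]
    [] k0
    [[k2,k0,k0,k0,k0,k0],[k1,k1,k0,k0,k0,k0],[k1,k1,k1,k0,k0,k0],[k1,k1,k0,k1,k0,k0],[k1,k0,k1,k0,k0,k0],[k1,k0,k1,k1,
    k0,k0],[k1,k0,k0,k1,k0,k0],[k1,k0,k0,k0,k1,k0],[k1,k0,k1,k0,k1,k0],[k0,k2,k0,k0,k0,k0],[k0,k2,k0,k1,k0,k0],[k0,k1,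
    k1,k0,k0,k0],[k0,k1,k1,k1,k0,k0],[k0,k1,k1,k0,k1,k0],[k0,k1,k0,k1,k0,k0],[k0,k2,k0,k2,k0,k0],[k0,k1,k0,k2,k0,k0],
    [k0,k1,k0,k1,k1,k0],[k0,k1,k0,k1,k0,k1],[k0,k1,k0,k0,k1,k0],[k0,k1,k0,k0,k1,k1],[k0,k1,k0,k0,k0,k1],[k0,k0,k2,k0,
    k0,k0],[k0,k0,k1,k1,k0,k0],[k0,k0,k1,k1,k1,k0],[k0,k0,k1,k1,k0,k1],[k0,k0,k1,k0,k1,k0],[k0,k0,k1,k0,k2,k0],[k0,k0,
    k1,k0,k0,k1],[k0,k0,k1,k0,k1,k1],[k0,k0,k0,k2,k0,k0],[k0,k0,k0,k1,k1,k0],[k0,k0,k0,k1,k1,k1],[k0,k0,k0,k1,k0,k1],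
    [k0,k0,k0,k0,k2,k0],[k0,k0,k0,k0,k2,k1],[k0,k0,k0,k0,k1,k1],[k0,k0,k0,k0,k1,k2],[k0,k0,k0,k0,k0,k2]]
    [.contra [z1],.ref k3 k2 [(z1,[z0,z1]),(z1,[z1,y1])],.ref k1 k0 [(z1,[y1,z0,z0,z1])],.ref k121 k0 [(z1,[y1,z2,z1,
    y1]),(z1,[z1,y1,y1,z1])],.ref k121 k0 [(z1,[y1,z1]),(z1,[z1])],.ref k158 k0 [(z1,[y1,z1]),(z1,[z1])],
    .ref k0 k2 [(z1,[z1])],.ref k172 k7 [(z1,[z1,z2,z1,y2]),(z1,[y1,y1,y1,z2]),(z1,[z0,y2,y1,z2])],.ref k0 k0 [(z1,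
    [y1,y1,y1,z2])],.contra [z1],.contra [y1,z0,z1],.contra [y1,y1,z0,z1],.contra [z1,y1,y1,z1],.contra [y1,y1,z0,z1],
    .contra [y1,y1,z0,z1],.contra [z1,y2,y2,z2],.contra [y1,z0,z1],.contra [y1,y1,z0,z1],.ref k0 k0 [(z1,[z1,y1,y1,
    z1])],.contra [y1,y1,z0,z1],.ref k158 k0 [(z1,[z1,z1,z0,y1]),(z1,[y1,z0,z0,z1])],.ref k171 k0 [(z1,[z2,z0,y1]),
    (z1,[y2,z2,z1]),(z1,[z0,z0,z1])],.contra [z1],.contra [y1,y1,z0,z1],.contra [y1,y1,z0,z1],.ref k158 k7 [(z1,[y1,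
    z1]),(z1,[z1])],.contra [y1,y2,y1,z2],.ref k148 k6 [(z1,[z0,z1]),(z1,[z1])],.ref k0 k0 [(z1,[z1])],
    .ref k121 k0 [(z1,[z1,z2,z1,y2]),(z1,[y1,y1,y1,z2])],.contra [z1],.contra [y1,y1,z0,z1],.ref k1 k0 [(z1,[z1])],
    .ref k121 k7 [(z1,[y1,z1]),(z1,[z1])],.contra [z1],.ref k55 k9 [(z1,[z1]),(z1,[y1,y2,z0,z2])],.ref k3 k6 [(z1,[z0,
    z1]),(z1,[z1,y1])],.ref k121 k0 [(z2,[z1,z2,z1,y2]),(z2,[y1,z0,y1,z2])],.contra [y1,z2]]),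
    .old (.lp [(nat_lit 4368),(nat_lit 4450),(nat_lit 5556),(nat_lit 4570),(nat_lit 6624),(nat_lit 5120)] [(nat_lit 1995),
    (nat_lit 1995),(nat_lit 1954),(nat_lit 1954),(nat_lit 1401),(nat_lit 1401),(nat_lit 1894),(nat_lit 1894),
    (nat_lit 1734),k0,(nat_lit 1796),(nat_lit 1442)] k0 [[k0,k0,(nat_lit 1890)],[k0,k0,(nat_lit 202)],[k0,k0,k0,k0,k0,
    k0,k0,k0,(nat_lit 1890),k82],[(nat_lit 202),(nat_lit 1890)],[k0,k0,k0,k0,k0,k0,k0,(nat_lit 322),k0,k0,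
    (nat_lit 354)],[k0,k0,k0,k0,k0,k0,k0,(nat_lit 1290),k0,k0,k14],[k0,k0,k0,k0,(nat_lit 1290),(nat_lit 322)],[k0,k0,
    k0,k0,k0,k0,k0,k0,(nat_lit 3844),(nat_lit 2036)],[k0,k0,k0,k82,k0,k0,(nat_lit 2036),k0,k0,k0,k0,(nat_lit 1504)],
    [k0,k0,k0,(nat_lit 1890),k0,k0,(nat_lit 3844)],[k0,k0,k0,k0,k0,k0,k0,k0,k0,(nat_lit 1504)],[k0,k0,k0,k0,k14,
    (nat_lit 354)]] (nat_lit 15360) k6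
    [[(k0,(nat_lit 4368)),(k3,(nat_lit 4409)),(k7,(nat_lit 4455)),(k4,(nat_lit 4608)),(k8,(nat_lit 4629)),(k11,
    (nat_lit 6425))],[(k5,(nat_lit 3072)),(k1,(nat_lit 4368)),(k6,(nat_lit 4469)),(k10,(nat_lit 4567)),(k2,
    (nat_lit 4611)),(k9,(nat_lit 6363))],[(k1,(nat_lit 4409)),(k6,(nat_lit 4510)),(k10,(nat_lit 4608)),(k5,
    (nat_lit 4801)),(k2,(nat_lit 6340)),(k9,(nat_lit 6404))],[(k11,(nat_lit 3072)),(k7,(nat_lit 4510)),(k8,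
    (nat_lit 4588)),(k0,(nat_lit 4611)),(k4,(nat_lit 5003)),(k3,(nat_lit 6340))],[(k0,(nat_lit 3072)),(k3,
    (nat_lit 4801)),(k7,(nat_lit 5063)),(k4,(nat_lit 5556)),(k11,(nat_lit 5597)),(k8,(nat_lit 7113))],[(k1,
    (nat_lit 4608)),(k6,(nat_lit 4741)),(k2,(nat_lit 5003)),(k10,(nat_lit 5175)),(k5,(nat_lit 5556)),(k9,
    (nat_lit 8247))],[(k6,(nat_lit 3280)),(k1,(nat_lit 4455)),(k2,(nat_lit 4510)),(k10,(nat_lit 5022)),(k5,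
    (nat_lit 5063)),(k9,(nat_lit 6786))],[(k7,(nat_lit 3280)),(k0,(nat_lit 4469)),(k3,(nat_lit 4510)),(k4,
    (nat_lit 4741)),(k11,(nat_lit 7058)),(k8,(nat_lit 8574))],[(k11,(nat_lit 3072)),(k8,(nat_lit 4588)),(k0,
    (nat_lit 6363)),(k3,(nat_lit 6404)),(k7,(nat_lit 6786)),(k4,(nat_lit 8247))],[(k10,(nat_lit 3324)),(k2,
    (nat_lit 4588)),(k9,(nat_lit 4588)),(k1,(nat_lit 4629)),(k5,(nat_lit 7113)),(k6,(nat_lit 8574))],[(k2,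
    (nat_lit 3072)),(k9,(nat_lit 3072)),(k10,(nat_lit 5120)),(k5,(nat_lit 5597)),(k1,(nat_lit 6425)),(k6,
    (nat_lit 7058))],[(k8,(nat_lit 3324)),(k0,(nat_lit 4567)),(k3,(nat_lit 4608)),(k7,(nat_lit 5022)),(k11,
    (nat_lit 5120)),(k4,(nat_lit 5175))]]
    [] k0
    [[k2,k0,k0,k0,k0,k0],[k3,k0,k0,k0,k0,k0],[k2,k1,k0,k0,k0,k0],[k2,k0,k1,k0,k0,k0],[k2,k0,k0,k1,k0,k0],[k1,k1,k0,k0,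
    k0,k0],[k1,k1,k1,k0,k0,k0],[k1,k1,k0,k1,k0,k0],[k1,k1,k0,k0,k0,k1],[k1,k0,k1,k0,k0,k0],[k1,k0,k2,k0,k0,k0],[k1,k0,
    k1,k1,k0,k0],[k1,k0,k1,k0,k0,k1],[k1,k0,k0,k1,k0,k0],[k1,k0,k0,k2,k0,k0],[k1,k0,k0,k0,k1,k0],[k1,k0,k0,k0,k1,k1],
    [k1,k0,k0,k0,k0,k1],[k0,k2,k0,k0,k0,k0],[k0,k2,k0,k0,k0,k1],[k0,k1,k1,k0,k0,k0],[k0,k1,k1,k1,k0,k0],[k0,k1,k1,k0,
    k0,k1],[k0,k1,k0,k1,k0,k0],[k0,k1,k0,k2,k0,k0],[k0,k1,k0,k1,k0,k1],[k0,k1,k0,k0,k1,k0],[k0,k1,k0,k0,k1,k1],[k0,k1,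
    k0,k0,k0,k1],[k0,k1,k0,k0,k1,k2],[k0,k1,k0,k0,k0,k2],[k0,k0,k2,k0,k0,k0],[k0,k0,k1,k1,k0,k0],[k0,k0,k1,k2,k0,k0],
    [k0,k0,k1,k0,k0,k1],[k0,k0,k0,k2,k0,k0],[k0,k0,k0,k3,k0,k0],[k0,k0,k0,k4,k0,k0],[k0,k0,k0,k1,k0,k1],[k0,k0,k0,k0,
    k2,k0],[k0,k0,k0,k0,k3,k0],[k0,k0,k0,k0,k2,k1],[k0,k0,k0,k0,k1,k1],[k0,k0,k0,k0,k2,k2],[k0,k0,k0,k0,k1,k2],[k0,k0,
    k0,k0,k0,k2]]
    [.contra [z1],.ref k6 k0 [(z1,[z0,z0,z1]),(z1,[z1]),(z1,[z0,z0,z0,z1])],.ref k169 k2 [(z1,[z1,y1,y1,y1]),(z1,[y1,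
    z2,z2,z2])],.contra [z1,y1,z0,y1],.contra [z1,z0,z1,z1,y1],.contra [y1,z1,z1,z1],.contra [z1,y1,z0,y1],
    .contra [z1,z0,z1,z1,y1],.contra [z1,z0,y1],.contra [y1,z2,z0,z2],.contra [z1,y1,z0,y1],.contra [z1,z0,z1,z1,y1],
    .contra [z1,y1,z0,y1],.contra [y1,z1,y1,z0,z1],.contra [z1,z1,z2,z3,y2],.ref k121 k4 [(z1,[y1,y1,y1,y1,z1]),(z1,
    [z1])],.ref k1 k2 [(z1,[z1])],.contra [y1,z1,z1,z1],.contra [z1],.contra [z1,z0,y1],.contra [y1,z1,z1,z1],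
    .ref k1 k2 [(z1,[y1,z0,z0,z0,z1])],.contra [z1,z0,y1],.contra [y1,z0,z0,y1,z1],.ref k1 k2 [(z1,[y1,y1,y1,y2,z2])],
    .contra [z1,z1,z0,z2,y1],.ref k0 k3 [(z1,[z1])],.contra [y1,z0,z1,z1],.contra [y1,z1,z1,z1],.contra [z1,z1,y1],
    .contra [z1,z0,y1],.contra [z1],.contra [z1,z1,z1,z2,y1],.ref k55 k1 [(z1,[z1,z1,z1,z2,y1]),(z1,[y1,z1,z1,z0,
    z1])],.contra [y1,z1,z1,z1],.contra [z1,z2,z2,z4,y2],.ref k55 k1 [(z1,[z1,z2,z2,z4,y2]),(z1,[y1,z0,z0,y2,z2])],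
    .ref k121 k4 [(z2,[z1,z0,z2,z2,y2]),(z2,[y1,y2,y4,y4,z4])],.contra [y1,z0,z0,y1,z1],.contra [y1,z0,z0,z2],
    .contra [z1,z4,z0,z1],.contra [z1,z2],.ref k3 k9 [(z1,[z1]),(z1,[y1,y1,y1,y1,z1])],.contra [z1,z2],
    .ref k55 k0 [(z1,[z1]),(z1,[y1,z2,z2,z2])],.contra [z1]]),
    .old (.lp [(nat_lit 390),(nat_lit 390),(nat_lit 322),(nat_lit 246),(nat_lit 236),(nat_lit 334)] [k0,k0,k0,k0,k34,k34,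
    k72,k72,k77,k77,k28,k28] k0 [[k0,k0,k0,k0,k0,k0,k0,k0,k0,k0,k0,k94],[k0,k0,k86,k150],[k150,k0,k0,k0,k0,k70],[k86],
    [k0,k0,k0,k70,k0,k0,k78],[k0,k0,k0,k0,k0,k0,k0,k0,k0,k0,k0,k98],[k0,k0,k0,k0,k0,k0,k0,k0,k98,k2],[k0,k0,k0,k0,k0,
    k78],[k0,k0,k0,k0,k0,k0,k0,k2],[k0,k0,k0,k0,k0,k0,k0,k98,k0,k0,k54],[k0,k94,k0,k0,k98],[k0,k0,k0,k0,k0,k0,k0,k0,
    k54]] (nat_lit 960) k6
    [[(k11,(nat_lit 308)),(k8,(nat_lit 313)),(k7,(nat_lit 318)),(k0,(nat_lit 390)),(k4,(nat_lit 454)),(k3,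
    (nat_lit 484))],[(k10,(nat_lit 268)),(k9,(nat_lit 313)),(k6,(nat_lit 318)),(k1,(nat_lit 390)),(k2,(nat_lit 476)),
    (k5,(nat_lit 506))],[(k2,(nat_lit 240)),(k5,(nat_lit 270)),(k9,(nat_lit 313)),(k6,(nat_lit 318)),(k10,
    (nat_lit 362)),(k1,(nat_lit 484))],[(k3,(nat_lit 240)),(k4,(nat_lit 286)),(k8,(nat_lit 313)),(k7,(nat_lit 318)),
    (k11,(nat_lit 362)),(k0,(nat_lit 476))],[(k3,(nat_lit 270)),(k8,(nat_lit 279)),(k4,(nat_lit 322)),(k11,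
    (nat_lit 328)),(k7,(nat_lit 354)),(k0,(nat_lit 506))],[(k9,(nat_lit 201)),(k6,(nat_lit 284)),(k2,(nat_lit 286)),
    (k5,(nat_lit 322)),(k10,(nat_lit 328)),(k1,(nat_lit 454))],[(k10,k192),(k9,(nat_lit 241)),(k1,(nat_lit 318)),(k2,
    (nat_lit 318)),(k6,(nat_lit 324)),(k5,(nat_lit 354))],[(k11,k192),(k8,(nat_lit 239)),(k4,(nat_lit 284)),(k0,
    (nat_lit 318)),(k3,(nat_lit 318)),(k7,(nat_lit 324))],[(k4,(nat_lit 201)),(k7,(nat_lit 241)),(k11,(nat_lit 287)),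
    (k0,(nat_lit 313)),(k3,(nat_lit 313)),(k8,(nat_lit 334))],[(k6,(nat_lit 239)),(k5,(nat_lit 279)),(k1,
    (nat_lit 313)),(k2,(nat_lit 313)),(k9,(nat_lit 334)),(k10,(nat_lit 339))],[(k6,k192),(k9,(nat_lit 287)),(k1,
    (nat_lit 308)),(k5,(nat_lit 328)),(k10,(nat_lit 334)),(k2,(nat_lit 362))],[(k7,k192),(k0,(nat_lit 268)),(k4,
    (nat_lit 328)),(k11,(nat_lit 334)),(k8,(nat_lit 339)),(k3,(nat_lit 362))]]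
    [] k0
    [[k2,k0,k0,k0,k0,k0],[k1,k0,k0,k1,k0,k0],[k1,k0,k0,k1,k1,k0],[k1,k0,k0,k1,k0,k1],[k1,k0,k0,k0,k1,k0],[k1,k0,k0,k0,
    k1,k1],[k1,k0,k0,k0,k0,k1],[k1,k0,k0,k0,k0,k2],[k0,k2,k0,k0,k0,k0],[k0,k3,k0,k0,k0,k0],[k0,k2,k1,k0,k0,k0],[k0,k2,
    k0,k1,k0,k0],[k0,k2,k0,k0,k1,k0],[k0,k1,k1,k0,k0,k0],[k0,k1,k2,k0,k0,k0],[k0,k1,k1,k1,k0,k0],[k0,k1,k1,k0,k1,k0],
    [k0,k1,k0,k1,k0,k0],[k0,k1,k0,k1,k1,k0],[k0,k1,k0,k1,k0,k1],[k0,k1,k0,k0,k1,k0],[k0,k1,k0,k0,k0,k1],[k0,k0,k2,k0,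
    k0,k0],[k0,k0,k2,k0,k1,k0],[k0,k0,k1,k1,k0,k0],[k0,k0,k1,k1,k1,k0],[k0,k0,k1,k1,k0,k1],[k0,k0,k1,k0,k1,k0],[k0,k0,
    k1,k0,k2,k0],[k0,k0,k1,k0,k1,k1],[k0,k0,k1,k0,k0,k1],[k0,k0,k0,k2,k0,k0],[k0,k0,k0,k2,k1,k0],[k0,k0,k0,k2,k0,k1],
    [k0,k0,k0,k1,k1,k0],[k0,k0,k0,k2,k1,k1],[k0,k0,k0,k1,k2,k0],[k0,k0,k0,k1,k1,k1],[k0,k0,k0,k1,k0,k1],[k0,k0,k0,k2,
    k0,k2],[k0,k0,k0,k1,k0,k2],[k0,k0,k0,k0,k2,k0],[k0,k0,k0,k0,k1,k1],[k0,k0,k0,k0,k0,k2]]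
    [.contra [z1],.ref k0 k2 [(z1,[z1])],.ref k158 k11 [(z1,[y1,z1,z1]),(z1,[z1])],.ref k137 k8 [(z1,[z0,z1,z1]),(z1,
    [y1,y1,y1,z1])],.ref k121 k11 [(z1,[y1,z1,z1]),(z1,[z1])],.ref k1 k2 [(z1,[z1])],.ref k3 k2 [(z1,[z1]),(z1,[y1,z1,
    z1])],.ref k55 k6 [(z1,[z1]),(z1,[y1,y2,y2,z2])],.contra [y1,z2,z2],.ref k55 k10 [(z1,[z1,y2,y4,z2]),(z1,[y1,z0,
    z2])],.ref k55 k10 [(z1,[z1,y1,y2,z1]),(z1,[y1,y1,z0,z1])],.ref k1 k2 [(z1,[y1,z1,z2])],.ref k137 k8 [(z1,[z0,z1,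
    z1]),(z1,[z1,y2,y3,z1])],.contra [y1,z1,z0,z1],.ref k55 k10 [(z1,[z1]),(z1,[y1,y2,y2,z2])],.ref k1 k2 [(z1,[y1,z0,
    z0,z1])],.ref k137 k8 [(z1,[z0,z1,z1]),(z1,[z1,y1,y1])],.contra [y1,z0,z1],.contra [y1,z0,z1],.contra [y1,z0,z1],
    .contra [y1,z0,z1],.contra [y1,z0,z1],.contra [y1,z0,y2,z2],.ref k137 k8 [(z1,[z0,z1,z1]),(z1,[z1,z0,z1,y1])],
    .contra [y1,y1,y1,z1],.contra [y1,y1,y1,z1],.contra [y1,y1,y1,z1],.contra [y1,y1,y1,z1],.ref k173 k7 [(z1,[z0,z1,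
    z1]),(z1,[y1,y2,y2,z2])],.contra [y1,y1,y1,z1],.contra [y1,y1,y1,z1],.contra [z1],.ref k169 k4 [(z1,[z1,z1,z1,
    y1]),(z1,[y1,y2,y2,z2])],.ref k173 k8 [(z1,[z0,z1,z1]),(z1,[y1,y2,y2,z2])],.contra [y1,z0,z1],.ref k0 k2 [(z1,[z1,
    z1])],.ref k169 k9 [(z1,[z1,z1,z1,y1]),(z1,[y1,y2,y2,z2])],.contra [y1,z0,z1],.contra [y1,z0,z1],
    .ref k174 k9 [(z2,[y1,y2]),(z2,[z1]),(z1,[z0,z0,y1,z1])],.ref k148 k7 [(z1,[z0,z1,z1]),(z1,[z1])],.contra [z1],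
    .contra [y1,z0,z1],.contra [z1]])]

/-- the nodes with numbers from 137 -/
noncomputable def cU6_2_n2 : List XN :=
  cU6_2_n2_0 ++ (cU6_2_n2_1 ++ (cU6_2_n2_2 ++ cU6_2_n2_3))

theorem cU6_2_k2 : allI (chkX 6 cU6_2_w ttU6 cU6_2_s (blkF [] cU6_2_D)) cU6_2_n2 137 = true := by
  decide +kernel

end Pool.Agent.Lib_MP_fa6e45
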