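import Pool.Agent.Lib_MP_fa6e45.CY6_1d

/-!
MP_fa6e45_co, stage 7: certificates (generated by a program).
-/

namespace Pool.Agent.Lib_MP_fa6e45

noncomputable def cU6_2_n3_0 : List XN :=
  [.old (.lp [(nat_lit 1424),(nat_lit 1368),(nat_lit 1221),(nat_lit 1011),(nat_lit 988),(nat_lit 1158)] [k0,
    (nat_lit 256),k156,k156,k124,(nat_lit 335),(nat_lit 222),(nat_lit 447),(nat_lit 359),(nat_lit 333),(nat_lit 261),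
    (nat_lit 261)] k0 [[k0,k0,k0,k0,k0,k0,k0,k0,k0,k0,k0,(nat_lit 519)],[k0,k0,(nat_lit 289),k0,k0,k0,k0,k0,k0,k0,k0,
    k113],[k0,k0,k0,k0,k113,k34],[(nat_lit 289),k0,k0,k0,k0,k0,k0,k0,k0,k86],[k0,k0,k0,k34,k0,k0,(nat_lit 323)],[k0,
    k0,k0,k113,k0,k0,k0,k0,k0,k0,k56],[k0,k0,k0,k0,k0,k0,k0,k0,(nat_lit 297),k199],[k0,k0,k0,k0,k0,(nat_lit 323)],[k0,
    k0,k86,k0,k0,k0,k0,k199,k0,k0,k97],[k0,k0,k0,k0,k0,k0,k0,(nat_lit 297)],[k113,(nat_lit 519)],[k0,k0,k0,k0,k56,k0,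
    k0,k0,k0,k97]] (nat_lit 3600) k5
    [[(k7,(nat_lit 921)),(k8,(nat_lit 968)),(k11,(nat_lit 1163)),(k4,(nat_lit 1300)),(k0,(nat_lit 1537)),(k3,
    (nat_lit 1787))],[(k10,(nat_lit 900)),(k5,(nat_lit 1345)),(k9,(nat_lit 1347)),(k6,(nat_lit 1458)),(k1,
    (nat_lit 1537)),(k2,(nat_lit 1813))],[(k5,(nat_lit 900)),(k10,(nat_lit 1150)),(k9,(nat_lit 1191)),(k6,
    (nat_lit 1302)),(k2,(nat_lit 1368)),(k1,(nat_lit 1787))],[(k7,(nat_lit 964)),(k8,(nat_lit 1165)),(k11,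
    (nat_lit 1349)),(k4,(nat_lit 1366)),(k3,(nat_lit 1368)),(k0,(nat_lit 1813))],[(k3,(nat_lit 900)),(k8,
    (nat_lit 900)),(k7,(nat_lit 932)),(k11,(nat_lit 1084)),(k4,(nat_lit 1334)),(k0,(nat_lit 1345))],[(k9,
    (nat_lit 900)),(k1,(nat_lit 1300)),(k5,(nat_lit 1334)),(k6,(nat_lit 1334)),(k10,(nat_lit 1351)),(k2,
    (nat_lit 1366))],[(k9,(nat_lit 900)),(k1,(nat_lit 921)),(k5,(nat_lit 932)),(k2,(nat_lit 964)),(k10,(nat_lit 972)),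
    (k6,(nat_lit 1334))],[(k8,(nat_lit 900)),(k11,(nat_lit 900)),(k3,(nat_lit 1302)),(k4,(nat_lit 1334)),(k7,
    (nat_lit 1334)),(k0,(nat_lit 1458))],[(k4,(nat_lit 900)),(k7,(nat_lit 900)),(k3,(nat_lit 1191)),(k8,
    (nat_lit 1285)),(k11,(nat_lit 1285)),(k0,(nat_lit 1347))],[(k5,(nat_lit 900)),(k6,(nat_lit 900)),(k1,
    (nat_lit 968)),(k10,(nat_lit 1060)),(k2,(nat_lit 1165)),(k9,(nat_lit 1285))],[(k6,(nat_lit 900)),(k5,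
    (nat_lit 1084)),(k1,(nat_lit 1163)),(k10,(nat_lit 1255)),(k9,(nat_lit 1285)),(k2,(nat_lit 1349))],[(k0,
    (nat_lit 900)),(k7,(nat_lit 972)),(k8,(nat_lit 1060)),(k3,(nat_lit 1150)),(k11,(nat_lit 1255)),(k4,
    (nat_lit 1351))]]
    [] k0
    [[k2,k0,k0,k0,k0,k0],[k1,k0,k1,k0,k0,k0],[k1,k0,k1,k0,k1,k0],[k1,k0,k1,k0,k0,k1],[k1,k0,k0,k1,k0,k0],[k1,k0,k0,k1,
    k1,k0],[k1,k0,k0,k1,k0,k1],[k1,k0,k0,k0,k1,k0],[k1,k0,k0,k0,k1,k1],[k1,k0,k0,k0,k0,k1],[k1,k0,k0,k0,k0,k2],[k0,k2,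
    k0,k0,k0,k0],[k0,k1,k1,k0,k0,k0],[k0,k1,k1,k1,k0,k0],[k0,k1,k1,k0,k1,k0],[k0,k1,k0,k1,k0,k0],[k0,k1,k0,k1,k1,k0],
    [k0,k1,k0,k0,k1,k0],[k0,k1,k0,k0,k0,k1],[k0,k1,k0,k1,k0,k1],[k0,k0,k2,k0,k0,k0],[k0,k0,k2,k0,k1,k0],[k0,k0,k1,k1,
    k0,k0],[k0,k0,k1,k1,k1,k0],[k0,k0,k1,k1,k0,k1],[k0,k0,k1,k0,k1,k0],[k0,k0,k1,k0,k2,k0],[k0,k0,k1,k0,k1,k1],[k0,k0,
    k1,k0,k0,k1],[k0,k0,k0,k2,k0,k0],[k0,k0,k0,k2,k1,k0],[k0,k0,k0,k2,k0,k1],[k0,k0,k0,k1,k1,k0],[k0,k0,k0,k1,k2,k0],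
    [k0,k0,k0,k1,k1,k1],[k0,k0,k0,k1,k0,k1],[k0,k0,k0,k1,k0,k2],[k0,k0,k0,k0,k2,k0],[k0,k0,k0,k0,k1,k1],[k0,k0,k0,k0,
    k0,k2]]
    [.contra [z1],.contra [y1,z0,y1,z1],.ref k2 k2 [(z1,[z1])],.ref k158 k2 [(z1,[z1,z1,z1,y1]),(z1,[y1,z0,z0,z1])],
    .contra [y1,z0,y1,z1],.ref k158 k11 [(z1,[y1,z1,z1]),(z1,[z1])],.ref k27 k2 [(z1,[z1]),(z1,[z0,z0,z1])],
    .ref k121 k11 [(z1,[y1,z1,z1]),(z1,[z1])],.contra [z1,z1],.ref k3 k2 [(z1,[z1]),(z1,[y1,z1,z1])],.ref k55 k6 [(z1,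
    [z1]),(z1,[y1,y2,y2,z2])],.contra [y1,z2,z2],.ref k3 k11 [(z1,[z1]),(z1,[y1,z1,z1])],.contra [y1,z1,z0,z1],
    .ref k27 k2 [(z1,[y1,z0,z0,z1]),(z1,[z0,z0,z1])],.ref k121 k2 [(z1,[y1,z1,z1]),(z1,[z1])],.ref k158 k2 [(z1,[y1,
    z1,z1]),(z1,[z1])],.contra [y1,z0,z1],.contra [y1,z0,z1],.ref k2 k2 [(z1,[y1,z0,z0,z1])],.contra [z1],
    .ref k148 k8 [(z1,[z0,z1,z1]),(z1,[z1])],.contra [y1,z0,y1,z1],.contra [y1,y1,y1,z1],.contra [y1,y1,y1,z1],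
    .contra [y1,y1,y1,z1],.ref k173 k7 [(z1,[z0,z1,z1]),(z1,[y1,y2,y2,z2])],.contra [y1,y1,y1,z1],.contra [y1,y1,y1,
    z1],.contra [z1],.ref k169 k4 [(z1,[z1,z1,z1,y1]),(z1,[y1,y2,y2,z2])],.ref k173 k8 [(z1,[z0,z1,z1]),(z1,[y1,y2,y2,
    z2])],.contra [y1,y1,y1,z1],.ref k169 k9 [(z1,[z1,z1,z1,y1]),(z1,[y1,y2,y2,z2])],.contra [y1,y1,y1,z1],
    .contra [y1,y1,y1,z1],.ref k148 k7 [(z1,[z0,z1,z1]),(z1,[z1])],.contra [z1],.contra [y1,z0,z1],.contra [z1]]),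
    .old (.lp [(nat_lit 2736),(nat_lit 2751),(nat_lit 2510),(nat_lit 1879),(nat_lit 2090),(nat_lit 2374)] [(nat_lit 312),
    (nat_lit 312),(nat_lit 609),k0,(nat_lit 425),(nat_lit 425),(nat_lit 666),(nat_lit 815),(nat_lit 826),
    (nat_lit 444),(nat_lit 670),(nat_lit 316)] k0 [[k0,k0,(nat_lit 323),k0,k0,k0,k0,k0,k0,k0,k0,(nat_lit 578)],[k0,k0,
    (nat_lit 1135)],[k0,k0,k0,k0,k0,k0,k0,k0,k0,k83],[(nat_lit 1135),(nat_lit 323)],[k0,k0,k0,k0,k0,k0,(nat_lit 691),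
    k0,k0,k0,k0,k97],[k0,k0,k0,k0,k0,k0,(nat_lit 301),k0,k0,k0,k0,k75],[k0,k0,k0,k0,k0,k0,k0,k0,(nat_lit 578),k68],
    [k0,k0,k0,k0,(nat_lit 301),(nat_lit 691)],[k0,k0,k0,k83,k0,k0,k0,k68,k0,k0,(nat_lit 294)],[k0,k0,k0,k0,k0,k0,k0,
    (nat_lit 578)],[k0,(nat_lit 578),k0,k0,k75,k97],[k0,k0,k0,k0,k0,k0,k0,k0,k0,(nat_lit 294)]] (nat_lit 7200) k5
    [[(k8,(nat_lit 1928)),(k7,(nat_lit 2330)),(k4,(nat_lit 2698)),(k11,(nat_lit 2732)),(k0,(nat_lit 2736)),(k3,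
    (nat_lit 3626))],[(k10,(nat_lit 1800)),(k5,(nat_lit 2300)),(k6,(nat_lit 2382)),(k9,(nat_lit 2604)),(k1,
    (nat_lit 2736)),(k2,(nat_lit 3574))],[(k5,(nat_lit 1800)),(k10,(nat_lit 2690)),(k6,(nat_lit 2694)),(k9,
    (nat_lit 2916)),(k2,(nat_lit 3074)),(k1,(nat_lit 3626))],[(k8,(nat_lit 1842)),(k7,(nat_lit 1936)),(k4,
    (nat_lit 2326)),(k11,(nat_lit 2435)),(k3,(nat_lit 3074)),(k0,(nat_lit 3574))],[(k3,(nat_lit 1800)),(k8,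
    (nat_lit 2109)),(k7,(nat_lit 2120)),(k0,(nat_lit 2300)),(k4,(nat_lit 2510)),(k11,(nat_lit 2702))],[(k9,
    (nat_lit 1800)),(k10,(nat_lit 2168)),(k2,(nat_lit 2326)),(k5,(nat_lit 2510)),(k6,(nat_lit 2570)),(k1,
    (nat_lit 2698))],[(k9,(nat_lit 1800)),(k10,(nat_lit 1800)),(k2,(nat_lit 1936)),(k5,(nat_lit 2120)),(k1,
    (nat_lit 2330)),(k6,(nat_lit 2570))],[(k8,(nat_lit 1800)),(k11,(nat_lit 1800)),(k0,(nat_lit 2382)),(k4,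
    (nat_lit 2570)),(k7,(nat_lit 2570)),(k3,(nat_lit 2694))],[(k4,(nat_lit 1800)),(k7,(nat_lit 1800)),(k0,
    (nat_lit 2604)),(k8,(nat_lit 2668)),(k11,(nat_lit 2668)),(k3,(nat_lit 2916))],[(k6,(nat_lit 1800)),(k2,
    (nat_lit 1842)),(k10,(nat_lit 1864)),(k1,(nat_lit 1928)),(k5,(nat_lit 2109)),(k9,(nat_lit 2668))],[(k6,
    (nat_lit 1800)),(k2,(nat_lit 2435)),(k9,(nat_lit 2668)),(k10,(nat_lit 2668)),(k5,(nat_lit 2702)),(k1,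
    (nat_lit 2732))],[(k0,(nat_lit 1800)),(k7,(nat_lit 1800)),(k8,(nat_lit 1864)),(k4,(nat_lit 2168)),(k11,
    (nat_lit 2668)),(k3,(nat_lit 2690))]]
    [] k0
    [[k2,k0,k0,k0,k0,k0],[k1,k0,k1,k0,k0,k0],[k1,k0,k0,k1,k0,k0],[k1,k0,k0,k1,k1,k0],[k1,k0,k0,k1,k0,k1],[k1,k0,k0,k0,
    k1,k0],[k1,k0,k1,k0,k1,k0],[k1,k0,k0,k0,k1,k1],[k1,k0,k0,k0,k0,k1],[k0,k2,k0,k0,k0,k0],[k0,k1,k1,k0,k0,k0],[k0,k1,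
    k2,k0,k0,k0],[k0,k1,k1,k1,k0,k0],[k0,k1,k1,k0,k1,k0],[k0,k1,k1,k0,k0,k1],[k0,k1,k0,k1,k0,k0],[k0,k1,k0,k1,k1,k0],
    [k0,k1,k0,k1,k0,k1],[k0,k1,k0,k0,k1,k0],[k0,k1,k0,k0,k0,k1],[k0,k0,k2,k0,k0,k0],[k0,k0,k2,k0,k1,k0],[k0,k0,k1,k1,
    k0,k0],[k0,k0,k1,k1,k1,k0],[k0,k0,k1,k1,k0,k1],[k0,k0,k1,k0,k1,k0],[k0,k0,k1,k0,k2,k0],[k0,k0,k1,k0,k1,k1],[k0,k0,
    k1,k0,k0,k1],[k0,k0,k0,k2,k0,k0],[k0,k0,k0,k2,k1,k0],[k0,k0,k0,k2,k0,k1],[k0,k0,k0,k1,k1,k0],[k0,k0,k0,k1,k2,k0],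
    [k0,k0,k0,k1,k1,k1],[k0,k0,k0,k1,k0,k1],[k0,k0,k0,k1,k0,k2],[k0,k0,k0,k0,k2,k0],[k0,k0,k0,k0,k1,k1],[k0,k0,k0,k0,
    k0,k2]]
    [.contra [z1],.ref k175 k2 [(z1,[z1,z1,z1,y1]),(z1,[y1,z0,z0,z1])],.ref k0 k2 [(z1,[z1])],.ref k158 k11 [(z1,[y1,
    z1,z1]),(z1,[z1])],.ref k137 k8 [(z1,[z0,z1,z1]),(z1,[y1,y1,y1,z1])],.ref k121 k11 [(z1,[y1,z1,z1]),(z1,[z1])],
    .ref k2 k2 [(z1,[z1])],.ref k1 k2 [(z1,[z1])],.ref k3 k2 [(z1,[z1]),(z1,[y1,z1,z1])],.contra [y1,z2,z2],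
    .ref k3 k11 [(z1,[z1]),(z1,[y1,z1,z1])],.ref k1 k2 [(z2,[y1,z0,y1,z2])],.ref k1 k2 [(z1,[y1,z0,z0,z1])],
    .ref k137 k8 [(z1,[z0,z1,z1]),(z1,[z1,y1,y1])],.ref k158 k11 [(z1,[z1,z1,z1,y1]),(z1,[y1,z0,z0,z1])],.contra [y2,
    z1,z2],.ref k158 k2 [(z1,[y1,z1,z1]),(z1,[z1])],.ref k2 k2 [(z1,[y1,z0,z0,z1])],.ref k0 k3 [(z1,[z1])],
    .ref k175 k11 [(z1,[z1,z1,z1,y1]),(z1,[y1,z0,z0,z1])],.contra [z1],.ref k148 k8 [(z1,[z0,z1,z1]),(z1,[z1])],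
    .contra [y1,y1,y1,z1],.contra [y1,y1,y1,z1],.contra [y1,y1,y1,z1],.contra [y1,y1,y1,z1],.ref k173 k7 [(z1,[z0,z1,
    z1]),(z1,[y1,y2,y2,z2])],.contra [y2,y1,y2,z2],.contra [y1,y1,y1,z1],.contra [z1],.ref k121 k11 [(z1,[y1,z0,z1]),
    (z1,[z1,z1])],.ref k3 k2 [(z1,[z1,z1]),(z1,[y1,z0,z1])],.contra [y1,y1,y1,z1],.ref k169 k9 [(z1,[z1,z1,z1,y1]),
    (z1,[y1,y2,y2,z2])],.contra [y1,y1,y1,z1],.contra [y1,y1,y1,z1],.ref k148 k7 [(z1,[z0,z1,z1]),(z1,[z1])],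
    .contra [z1],.contra [y2,y1,y2,z2],.contra [z1]]),
    .old (.lp [(nat_lit 456),(nat_lit 420),(nat_lit 324),(nat_lit 375),(nat_lit 344),(nat_lit 476)] [k36,k24,k76,k20,k96,
    k96,k77,k64,k120,k52,k0,k40] k0 [[k0,k0,k76,k0,k0,k0,k38,k56],[k0,k0,k0,k0,k0,k0,k0,k0,k0,k0,k172,k40],[k0,k0,k0,
    k0,k76],[k0,k76,k0,k0,k56],[k0,k0,k0,k0,k0,k0,k68,k43],[k0,k0,k56,k76],[k0,k56,k0,k0,k0,k43,k0,k0,k94],[k0,k38,k0,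
    k0,k0,k68],[k0,k0,k0,k0,k0,k0,k0,k0,k0,k0,k0,k96],[k0,k0,k0,k0,k0,k0,k0,k94],[k40,k0,k0,k0,k0,k0,k0,k0,k0,k96],
    [k172]] (nat_lit 1200) k5
    [[(k3,(nat_lit 300)),(k8,(nat_lit 372)),(k4,(nat_lit 396)),(k7,(nat_lit 428)),(k0,(nat_lit 496)),(k11,
    (nat_lit 548))],[(k5,(nat_lit 308)),(k6,(nat_lit 347)),(k9,(nat_lit 390)),(k2,(nat_lit 404)),(k1,(nat_lit 496)),
    (k10,(nat_lit 652))],[(k1,(nat_lit 300)),(k5,(nat_lit 400)),(k10,(nat_lit 456)),(k6,(nat_lit 457)),(k2,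
    (nat_lit 496)),(k9,(nat_lit 500))],[(k7,(nat_lit 300)),(k8,(nat_lit 320)),(k4,(nat_lit 400)),(k11,(nat_lit 400)),
    (k0,(nat_lit 404)),(k3,(nat_lit 496))],[(k7,(nat_lit 300)),(k8,(nat_lit 300)),(k0,(nat_lit 308)),(k11,
    (nat_lit 380)),(k3,(nat_lit 400)),(k4,(nat_lit 400))],[(k6,(nat_lit 300)),(k9,(nat_lit 300)),(k1,(nat_lit 396)),
    (k2,(nat_lit 400)),(k5,(nat_lit 400)),(k10,(nat_lit 420))],[(k2,(nat_lit 300)),(k5,(nat_lit 300)),(k1,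
    (nat_lit 428)),(k6,(nat_lit 443)),(k9,(nat_lit 443)),(k10,(nat_lit 452))],[(k4,(nat_lit 300)),(k11,(nat_lit 305)),
    (k8,(nat_lit 319)),(k0,(nat_lit 347)),(k7,(nat_lit 443)),(k3,(nat_lit 457))],[(k4,(nat_lit 300)),(k0,
    (nat_lit 390)),(k11,(nat_lit 424)),(k8,(nat_lit 438)),(k7,(nat_lit 443)),(k3,(nat_lit 500))],[(k5,(nat_lit 300)),
    (k10,(nat_lit 300)),(k6,(nat_lit 319)),(k2,(nat_lit 320)),(k1,(nat_lit 372)),(k9,(nat_lit 438))],[(k6,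
    (nat_lit 305)),(k5,(nat_lit 380)),(k2,(nat_lit 400)),(k9,(nat_lit 424)),(k10,(nat_lit 476)),(k1,(nat_lit 548))],
    [(k8,(nat_lit 300)),(k4,(nat_lit 420)),(k7,(nat_lit 452)),(k3,(nat_lit 456)),(k11,(nat_lit 476)),(k0,
    (nat_lit 652))]]
    [] k0
    [[k2,k0,k0,k0,k0,k0],[k1,k1,k0,k0,k0,k0],[k1,k1,k1,k0,k0,k0],[k1,k1,k0,k1,k0,k0],[k1,k1,k0,k0,k1,k0],[k1,k0,k1,k0,
    k0,k0],[k1,k0,k2,k0,k0,k0],[k1,k0,k1,k1,k0,k0],[k1,k0,k1,k0,k1,k0],[k1,k0,k0,k1,k0,k0],[k1,k0,k0,k1,k1,k0],[k1,k0,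
    k0,k0,k1,k0],[k0,k2,k0,k0,k0,k0],[k0,k1,k1,k0,k0,k0],[k0,k1,k1,k1,k0,k0],[k0,k1,k1,k0,k1,k0],[k0,k1,k0,k1,k0,k0],
    [k0,k1,k0,k0,k1,k0],[k0,k1,k0,k1,k1,k0],[k0,k1,k0,k0,k0,k1],[k0,k1,k0,k1,k0,k1],[k0,k0,k2,k0,k0,k0],[k0,k0,k2,k1,
    k0,k0],[k0,k0,k2,k0,k1,k0],[k0,k0,k1,k1,k0,k0],[k0,k0,k1,k2,k0,k0],[k0,k0,k1,k1,k1,k0],[k0,k0,k1,k1,k0,k1],[k0,k0,
    k1,k0,k1,k0],[k0,k0,k1,k0,k2,k0],[k0,k0,k1,k0,k1,k1],[k0,k0,k1,k0,k0,k1],[k0,k0,k0,k2,k0,k0],[k0,k0,k0,k1,k1,k0],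
    [k0,k0,k0,k1,k1,k1],[k0,k0,k0,k1,k0,k1],[k0,k0,k0,k0,k2,k0],[k0,k0,k0,k0,k2,k1],[k0,k0,k0,k0,k1,k1],[k0,k0,k0,k0,
    k0,k2]]
    [.contra [z1],.ref k3 k2 [(z1,[z0,z1]),(z1,[z1,y1])],.ref k1 k0 [(z1,[y1,z0,z1])],.ref k137 k2 [(z1,[z0,z1]),(z1,
    [z1,y1])],.ref k158 k7 [(z1,[z1,z1,y1]),(z1,[y1,z0,z1])],.ref k121 k0 [(z1,[y1,z1]),(z1,[z1])],.ref k177 k0 [(z1,
    [y1,z1]),(z1,[z1])],.ref k158 k0 [(z1,[y1,z1]),(z1,[z1])],.ref k2 k2 [(z1,[z1])],.ref k0 k2 [(z1,[z1])],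
    .ref k176 k7 [(z1,[z1,z1,y1]),(z1,[y1,z0,z1])],.ref k175 k7 [(z1,[z1,z1,y1]),(z1,[y1,z0,z1])],.contra [z1],
    .contra [y1,y1,z1],.contra [y1,y1,z1],.contra [y1,y1,z1],.contra [y1,y1,z1],.contra [y1,y1,z1],.contra [y1,y1,z1],
    .ref k175 k0 [(z1,[z1,z1,y1]),(z1,[y1,z0,z1])],.ref k2 k2 [(z1,[y1,z0,z1])],.contra [z1],.ref k169 k10 [(z1,[z1,
    z1,y1]),(z1,[y1,y2,z2])],.ref k173 k2 [(z1,[z0,z1]),(z1,[y1,y2,z2])],.contra [y1,y1,z1],.ref k169 k5 [(z1,[z1,z1,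
    y1]),(z1,[y1,y2,z2])],.contra [y1,y1,z1],.ref k158 k7 [(z1,[y1,z1]),(z1,[z1])],.contra [y1,y1,z1],
    .ref k148 k6 [(z1,[z0,z1]),(z1,[z1])],.ref k137 k2 [(z1,[z0,z1]),(z1,[y1,y1,z1])],.ref k0 k0 [(z1,[z1])],
    .contra [z1],.contra [y1,y1,z1],.ref k1 k0 [(z1,[z1])],.ref k121 k7 [(z1,[y1,z1]),(z1,[z1])],.contra [z1],
    .ref k55 k9 [(z1,[z1]),(z1,[y1,y2,z2])],.ref k3 k6 [(z1,[z0,z1]),(z1,[z1,y1])],.contra [y1,z2]]),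
    .old (.tor k24 false k1 [(z1,[y1,y1,z0,z1]),(z1,[z2,z1,z1]),(z1,[y1,y1,y1,z1]),(z1,[z0,z1])]),
    .geo true z3 k4 [(z0,z3),(z2,z0),(z6,y3),(z2,y3),(z0,z3),(z2,z0)] [(z1,[z3]),(z1,[z0,z1]),(z1,[z0,z0,z3]),(z1,[z0,z0,
    z0,z1]),(z1,[]),(z1,[y3,y1,y3,y1,
    z3])] z0 (Int.ofNat (nat_lit 699051)) (.s (.s (.l k2) (.l k1)) (.s (.l k1) (.l k1))) [⟨z0,z1,[[k0,k5],[k1,k2],[k3,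
    k4]],.bnd k0⟩],
    .geo true z3 k5 [(z4,z6),(z2,z0),(z2,y6),(z2,z3),(z2,y6),(z0,z3)] [(z1,[z1]),(z1,[z0,z1]),(z1,[z0,z0,z1]),(z1,[z0,z0,
    z0,z1]),(z1,[y1,y1,y1,y1,z3]),(z1,
    [])] z0 (Int.ofNat (nat_lit 349526)) (.s (.s (.l k1) (.l k1)) (.s (.l k1) (.s (.l k1) (.l k2)))) [⟨z1,z3,[[k0,k5],
    [k1,k2],[k3,k4]],.bnd k0⟩],
    .geo true z3 k5 [(y10,z6),(z6,y3),(z8,y3),(z6,y3),(z2,z0),(z0,z3)] [(z1,[z1]),(z1,[z0,z3]),(z1,[z0,z0,z1]),(z1,[z0,z0,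
    z0,z3]),(z1,[y1,y3,y1,y3,z3]),(z1,
    [])] (Int.ofNat (nat_lit 1747626)) (Int.ofNat (nat_lit 2097152)) (.s (.s (.l k1) (.l k1)) (.s (.l k1) (.s (.l k1) (.l k2)))) [⟨z2,
    z1,[[k0,k1],[k2,k3],[k4,k5]],.bnd k1⟩],
    .geo true z3 k5 [(y2,z3),(z6,y6),(y2,z3),(z2,z0),(z8,y3),(z0,z3)] [(z1,[z1]),(z1,[z0,z3]),(z1,[z0,z0,z1]),(z1,[z0,z0,
    z0,z1]),(z1,[y1,y3,y1,y1,z3]),(z1,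
    [])] (Int.ofNat (nat_lit 699050)) (Int.ofNat (nat_lit 1048576)) (.s (.s (.l k2) (.l k1)) (.l k1)) [⟨z2,z3,[[k0,
    k5],[k1,k2],[k3,k4]],.bnd k0⟩],
    .geo true z3 k5 [(y2,z6),(z6,y9),(y2,z6),(z2,z0),(z8,y6),(z0,z3)] [(z1,[z1]),(z1,[z0,z3]),(z1,[z0,z0,z1]),(z1,[z0,z0,
    z0,z1]),(z1,[y1,y3,y1,y1,z3]),(z1,
    [])] (Int.ofNat (nat_lit 349525)) (Int.ofNat (nat_lit 699051)) (.s (.s (.s (.l k2) (.l k1)) (.l k1)) (.l k1)) [⟨z1,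
    z3,[[k0,k2],[k1,k5],[k3,k4]],.bnd k0⟩],
    .geo true z6 k5 [(z3,z0),(z12,y6),(y7,z6),(z12,y6),(z4,z0),(z0,z6)] [(z1,[z3]),(z1,[z0,z6]),(z1,[z0,z0,z1]),(z1,[z0,
    z0,z0,z6]),(z1,[y3,y6,y1,y6,z6]),(z1,
    [])] (Int.ofNat (nat_lit 1223338)) (Int.ofNat (nat_lit 2097152)) (.s (.l k1) (.s (.l k1) (.l k2))) [⟨z2,z1,[[k0,
    k1],[k2,k3],[k4,k5]],.bnd k1⟩],
    .geo true z3 k5 [(z0,z6),(z2,z0),(z6,y6),(z4,y9),(z0,z6),(z0,z3)] [(z1,[z3]),(z1,[z0,z1]),(z1,[z0,z0,z3]),(z1,[z0,z0,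
    z0,z1]),(z1,[y3,y1,y3,y1,z3]),(z1,
    [])] z0 (Int.ofNat (nat_lit 466034)) (.s (.s (.s (.l k2) (.l k1)) (.l k1)) (.s (.l k1) (.l k1))) [⟨z0,z1,[[k0,k3],
    [k1,k2],[k4,k5]],.bnd k0⟩],
    .geo true z3 k5 [(y6,z6),(z6,y3),(z4,y3),(z6,y3),(z2,z0),(z0,z3)] [(z1,[z3]),(z1,[z0,z3]),(z1,[z0,z0,z1]),(z1,[z0,z0,
    z0,z3]),(z1,[y3,y3,y1,y3,z3]),(z1,
    [])] (Int.ofNat (nat_lit 1048576)) (Int.ofNat (nat_lit 1398102)) (.s (.l k1) (.l k1)) []]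

noncomputable def cU6_2_n3_1 : List XN :=
  [.geo true z3 k5 [(z1,z0),(z6,y3),(y3,z3),(z6,y3),(z2,z0),(z0,z3)] [(z1,[z1]),(z1,[z0,z3]),(z1,[z0,z0,z3]),(z1,[z0,z0,
    z0,z3]),(z1,[y1,y3,y3,y3,z3]),(z1,
    [])] (Int.ofNat (nat_lit 1048576)) (Int.ofNat (nat_lit 2097152)) (.s (.l k1) (.s (.l k1) (.s (.l k1) (.l k2)))) [⟨z2,
    z1,[[k0,k1],[k2,k3],[k4,k5]],.bnd k1⟩],
    .geo true z3 k5 [(y2,z6),(z6,y3),(z2,z0),(z0,z3),(z6,y9),(z0,z3)] [(z1,[z1]),(z1,[z0,z3]),(z1,[z0,z0,z1]),(z1,[z0,z0,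
    z0,z3]),(z1,[y1,y3,y1,y3,z3]),(z1,
    [])] (Int.ofNat (nat_lit 349525)) (Int.ofNat (nat_lit 699051)) (.s (.l k1) (.l k1)) [],
    .geo true z6 k5 [(z3,z0),(z4,z0),(z9,z0),(z5,y6),(z3,z0),(z0,z6)] [(z1,[z3]),(z1,[z0,z2]),(z1,[z0,z0,z3]),(z1,[z0,z0,
    z0,z1]),(z1,[y3,y2,y3,y1,z6]),(z1,[])] z0 (Int.ofNat (nat_lit 873814)) (.s (.l k1) (.l k1)) [],
    .geo true z3 k5 [(z2,z6),(z2,z0),(z4,y6),(z0,z3),(z4,y6),(z0,z3)] [(z1,[z1]),(z1,[z0,z1]),(z1,[z0,z0,z1]),(z1,[z0,z0,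
    z0,z3]),(z1,[y1,y1,y1,y3,z3]),(z1,
    [])] z0 (Int.ofNat (nat_lit 699051)) (.s (.s (.l k1) (.l k1)) (.s (.l k1) (.s (.l k1) (.l k2)))) [⟨z2,z3,[[k0,k5],
    [k1,k2],[k3,k4]],.bnd k0⟩],
    .geo true z9 k5 [(z4,z0),(z6,z0),(z14,z0),(z8,y9),(z4,z0),(z0,z9)] [(z1,[z1]),(z1,[z0,z3]),(z1,[z0,z0,z1]),(z1,[z0,z0,
    z0,z1]),(z1,[y1,y3,y1,y1,z9]),(z1,[])] z0 (Int.ofNat (nat_lit 932068)) (.s (.l k1) (.l k1)) [],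
    .old (.lp [(nat_lit 1142),(nat_lit 1202),(nat_lit 1920),(nat_lit 1704),(nat_lit 984),(nat_lit 724)] [(nat_lit 820),
    (nat_lit 562),(nat_lit 661),(nat_lit 661),(nat_lit 302),(nat_lit 302),(nat_lit 820),k0,(nat_lit 770),
    (nat_lit 770),(nat_lit 900),(nat_lit 900)] k0 [[k0,k0,k78,k0,k0,k0,k166],[k0,k0,(nat_lit 348),k0,k0,k0,k0,k0,k0,
    k0,k0,k6],[k0,k0,k0,k0,k0,(nat_lit 636)],[(nat_lit 348),k78],[k0,k0,k0,(nat_lit 636),k0,k0,k0,(nat_lit 420),k0,k0,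
    k0,(nat_lit 226)],[k0,k0,k0,k0,k0,k0,k0,(nat_lit 936),k0,k0,k0,(nat_lit 856)],[k0,k0,k0,k0,(nat_lit 936),
    (nat_lit 420)],[k0,k166,k0,k0,k0,k0,k0,k0,k82],[k0,k0,k0,k0,k0,k0,k0,k0,k0,k0,(nat_lit 410)],[k0,k0,k0,k0,k0,k0,
    k82,k0,k0,k0,(nat_lit 294)],[k6,k0,k0,k0,(nat_lit 856),(nat_lit 226)],[k0,k0,k0,k0,k0,k0,k0,k0,(nat_lit 294),
    (nat_lit 410)]] (nat_lit 3840) k6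
    [[(k11,(nat_lit 768)),(k8,(nat_lit 782)),(k0,(nat_lit 1148)),(k3,(nat_lit 1301)),(k7,(nat_lit 2188)),(k4,
    (nat_lit 2516))],[(k9,(nat_lit 768)),(k10,(nat_lit 804)),(k6,(nat_lit 884)),(k1,(nat_lit 1148)),(k5,
    (nat_lit 1324)),(k2,(nat_lit 1391))],[(k10,(nat_lit 957)),(k9,(nat_lit 1093)),(k6,(nat_lit 1209)),(k5,
    (nat_lit 1213)),(k2,(nat_lit 1280)),(k1,(nat_lit 1301))],[(k4,(nat_lit 925)),(k11,(nat_lit 963)),(k8,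
    (nat_lit 1093)),(k3,(nat_lit 1280)),(k0,(nat_lit 1391)),(k7,(nat_lit 1863))],[(k3,(nat_lit 1213)),(k11,
    (nat_lit 1322)),(k0,(nat_lit 1324)),(k8,(nat_lit 1452)),(k4,(nat_lit 1920)),(k7,(nat_lit 2858))],[(k2,
    (nat_lit 925)),(k6,(nat_lit 982)),(k10,(nat_lit 1096)),(k5,(nat_lit 1920)),(k9,(nat_lit 2388)),(k1,
    (nat_lit 2516))],[(k6,(nat_lit 768)),(k10,(nat_lit 768)),(k2,(nat_lit 1863)),(k9,(nat_lit 2174)),(k1,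
    (nat_lit 2188)),(k5,(nat_lit 2858))],[(k7,(nat_lit 768)),(k11,(nat_lit 804)),(k0,(nat_lit 884)),(k4,
    (nat_lit 982)),(k8,(nat_lit 1016)),(k3,(nat_lit 1209))],[(k0,(nat_lit 768)),(k11,(nat_lit 772)),(k8,
    (nat_lit 984)),(k3,(nat_lit 1093)),(k7,(nat_lit 2174)),(k4,(nat_lit 2388))],[(k1,(nat_lit 782)),(k9,
    (nat_lit 984)),(k6,(nat_lit 1016)),(k2,(nat_lit 1093)),(k10,(nat_lit 1148)),(k5,(nat_lit 1452))],[(k1,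
    (nat_lit 768)),(k9,(nat_lit 772)),(k6,(nat_lit 804)),(k2,(nat_lit 963)),(k10,(nat_lit 1134)),(k5,(nat_lit 1322))],
    [(k7,(nat_lit 768)),(k0,(nat_lit 804)),(k3,(nat_lit 957)),(k4,(nat_lit 1096)),(k11,(nat_lit 1134)),(k8,
    (nat_lit 1148))]]
    [] k0
    [[k2,k0,k0,k0,k0,k0],[k3,k0,k0,k0,k0,k0],[k2,k0,k0,k0,k1,k0],[k2,k0,k0,k0,k2,k0],[k2,k0,k0,k0,k1,k1],[k2,k0,k0,k0,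
    k0,k1],[k2,k0,k0,k1,k0,k1],[k1,k1,k0,k0,k0,k0],[k1,k1,k1,k0,k0,k0],[k1,k1,k0,k0,k1,k0],[k1,k1,k0,k0,k0,k1],[k1,k0,
    k0,k1,k0,k0],[k1,k0,k0,k1,k0,k1],[k1,k0,k0,k0,k1,k0],[k1,k1,k0,k0,k2,k0],[k1,k1,k0,k0,k1,k1],[k1,k0,k0,k0,k2,k0],
    [k1,k0,k0,k0,k3,k0],[k1,k0,k0,k0,k2,k1],[k1,k0,k0,k0,k1,k1],[k1,k0,k0,k1,k1,k1],[k1,k0,k0,k0,k1,k2],[k1,k0,k0,k0,
    k0,k1],[k2,k0,k0,k0,k0,k2],[k1,k1,k0,k0,k0,k2],[k1,k0,k1,k0,k0,k1],[k1,k0,k0,k2,k0,k1],[k1,k0,k0,k1,k0,k2],[k1,k0,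
    k0,k0,k0,k2],[k0,k2,k0,k0,k0,k0],[k0,k2,k1,k0,k0,k0],[k0,k2,k0,k0,k1,k0],[k0,k2,k0,k0,k0,k1],[k0,k1,k1,k0,k0,k0],
    [k0,k1,k1,k0,k0,k1],[k0,k1,k0,k1,k0,k0],[k0,k1,k0,k2,k0,k1],[k0,k1,k0,k1,k0,k1],[k0,k1,k0,k0,k1,k0],[k0,k1,k1,k0,
    k1,k0],[k0,k1,k0,k0,k2,k0],[k0,k1,k0,k0,k1,k1],[k0,k1,k0,k0,k0,k1],[k0,k1,k0,k1,k0,k2],[k0,k1,k0,k0,k2,k1],[k0,k1,
    k0,k0,k0,k2],[k0,k0,k1,k0,k1,k1],[k0,k0,k1,k0,k0,k1],[k0,k0,k1,k1,k0,k1],[k0,k0,k1,k0,k0,k2],[k0,k0,k0,k2,k0,k0],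
    [k0,k0,k0,k3,k0,k0],[k0,k0,k0,k4,k0,k0],[k0,k0,k0,k3,k0,k1],[k0,k0,k0,k2,k0,k1],[k0,k0,k0,k2,k1,k1],[k0,k0,k0,k2,
    k0,k2],[k0,k0,k0,k1,k1,k0],[k0,k0,k0,k1,k0,k1],[k0,k0,k0,k1,k1,k1],[k0,k0,k0,k1,k2,k1],[k0,k0,k0,k1,k1,k2],[k0,k0,
    k0,k1,k0,k2],[k0,k0,k0,k0,k2,k0],[k0,k0,k0,k0,k3,k0],[k0,k0,k0,k0,k2,k1],[k0,k0,k0,k0,k1,k1],[k0,k0,k0,k0,k1,k2],
    [k0,k0,k0,k0,k0,k2],[k0,k0,k0,k0,k0,k3]]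
    [.contra [z1],.ref k178 k10 [(z3,[y1,z3,z1,z3])],.ref k178 k10 [(z3,[y1,z2,z1,z3])],.ref k190 k2 [(z2,[z1,z2]),
    (z1,[z0,z0,z1]),(z2,[y1,z2,z0,z4]),(z2,[y3,y6,y4,y12,z12])],.ref k189 k5 [(z1,[y3,z3,y1,y3,z3]),(z1,[z0,z0,z0,
    z1]),(z1,[z0,z0,z1]),(z1,[z0,z1])],.ref k1 k2 [(z1,[z1,y1])],.ref k178 k10 [(z1,[y1,z1,z0,z0,z1])],.contra [y1,z0,
    z0,y1,z1],.contra [y1,z1,z1,z1],.ref k178 k10 [(z2,[y1,z1,z1,z2])],.contra [y1,z0,z0,y1,z1],.contra [y1,z0,z0,y1,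
    z1],.contra [z1,z0,z1,z1,y1],.contra [z1,z1],.ref k192 k2 [(z1,[z3,z6,y1]),(z1,[z0,z0,z1]),(z1,[y3,z3,z1,z9]),(z1,
    [y3,y6,y2,y9,z9])],.ref k178 k4 [(z1,[y1,z0,z0,z0,z1])],.ref k178 k10 [(z3,[y1,z1,z1,z3])],.ref k190 k2 [(z2,[z1,
    z3]),(z1,[z0,z0,z1]),(z2,[y1,z1,z0,z4]),(z2,[y3,y9,y4,y12,z12])],.ref k189 k5 [(z1,[y3,z0,y1,y3,z3]),(z1,[z0,z0,
    z0,z1]),(z1,[z0,z0,z1]),(z1,[z0,z1])],.ref k1 k2 [(z1,[z1])],.ref k178 k10 [(z1,[y1,z0,z0,z0,z1])],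
    .ref k188 k4 [(z2,[y3,y3,y2,y6,z6]),(z1,[z0,z0,z0,z1]),(z2,[z1,y1,z0,y2]),(z1,[z0,z1,z0,z1])],.contra [y1,z0,z0,
    y1,z1],.ref k188 k4 [(z2,[y3,z0,y2,y6,z6]),(z1,[z0,z0,z0,z1]),(z2,[z1,y2,z0,y2]),(z1,[z0,z1,z0,z1])],
    .ref k191 k1 [(z1,[z3,z3,z1,z9,y6]),(z1,[z0,z0,z1]),(z1,[y3,z0,y1,y6,z6]),(z1,[z1,z0,z0,z1,y1])],.contra [z1,y1,
    z0,y1],.ref k179 k4 [(z1,[z1,z0,z0,z1,y1]),(z1,[z0,z0,z0,z1]),(z1,[y1,y1,z0,y3,z2])],.ref k180 k2 [(z1,[z0,z1]),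
    (z1,[z0,z0,z1]),(z1,[z0,z0,z0,z1]),(z1,[y3,y3,y2,y6,z6])],.ref k181 k1 [(z1,[z3,z3,z2,z9,y6]),(z1,[z0,z0,z1]),(z1,
    [y3,z0,y2,y6,z6]),(z1,[z3,z0,z1,z3,y3])],.contra [z1],.contra [z1,y1,y1,y2,z1],.ref k178 k10 [(z1,[y1,z0,z1,z1])],
    .ref k180 k2 [(z1,[z0,z1]),(z1,[z0,z0,z1]),(z1,[z0,z0,z0,z1]),(z1,[y3,y3,z1,y3,z3])],.ref k178 k10 [(z1,[z1])],
    .ref k187 k4 [(z1,[y1,y1,z0,y2,z1]),(z1,[z0,z0,z0,z1]),(z1,[z3,z0,y1]),(z1,[z0,z1,z0,z1])],.contra [y1,z0,z0,y1,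
    z1],.ref k178 k4 [(z1,[z1,z1,z0,z2,y1])],.contra [y1,z0,z0,y1,z1],.contra [y1,y1,z0,y1,z1],.contra [y1,z0,z1,z1],
    .ref k178 k10 [(z2,[y1,z0,z1,z2])],.contra [y1,y1,z0,y1,z1],.contra [y1,z0,z0,y1,z1],.ref k0 k0 [(z1,[z1,z1,z0,z2,
    y1])],.ref k178 k4 [(z1,[y1,y1,z0,z0,z1])],.ref k180 k2 [(z1,[z0,z1]),(z1,[z0,z0,z1]),(z1,[z0,z0,z0,z1]),(z2,[y3,
    y6,y1,y6,z6])],.contra [z1,z0,z0,y1],.ref k0 k0 [(z1,[z1])],.ref k178 k10 [(z2,[z1,z1,z1,z2,y1])],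
    .ref k186 k2 [(z1,[y1,z1,z0,z1]),(z1,[z0,z0,z1]),(z1,[z1]),(z1,[z3,y3,y1,y6,z3])],.contra [z1],.ref k179 k4 [(z3,
    [z1,z0,y1]),(z1,[z0,z0,z0,z1]),(z3,[y1,y3,z1,y6,z3])],.ref k185 k4 [(z2,[z1]),(z1,[z0,z0,z0,z1]),(z2,[y3,y12,y4,
    y24,z12]),(z1,[z0,z1,z0,z1])],.ref k184 k3 [(z1,[y3,y3,y1,y3,z3]),(z1,[z1]),(z1,[y3,z0,y1,y3,z3]),(z1,[z0,z0,
    z1])],.ref k183 k3 [(z1,[y3,y3,y1,y3,z3]),(z1,[z1]),(z1,[y3,z0,y1,y3,z3]),(z1,[z0,z0,z1])],.ref k179 k4 [(z1,[z1,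
    z1,z0,z1,y1]),(z1,[z0,z0,z0,z1]),(z1,[y1,y2,z0,y3,z2])],.ref k48 k3 [(z2,[y3,y6,y2,y6,z6]),(z2,[z1]),(z1,[z0,z1,
    z0,z1])],.contra [y1,y1,z0,y1,z1],.contra [y1,z0,z0,y1,z1],.contra [z1,z1,z1,z1,y1],.ref k178 k10 [(z1,[y1,y1,z0,
    z0,z1])],.ref k180 k2 [(z1,[z0,z1]),(z1,[z0,z0,z1]),(z1,[z0,z0,z0,z1]),(z1,[y3,y6,y2,y6,z6])],.ref k182 k4 [(z1,
    [y3,y6,y2,y12,z6]),(z1,[z0,z0,z0,z1]),(z1,[z3,z3,z1,z6,y3]),(z1,[z0,z1,z0,z1])],.contra [z1,z2],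
    .ref k178 k10 [(z3,[y1,z0,z1,z3])],.ref k1 k2 [(z1,[z1,z1])],.contra [y1,y1,z0,y1,z1],.ref k181 k1 [(z1,[z3,z6,z2,
    z9,y6]),(z1,[z0,z0,z1]),(z1,[y3,y3,y2,y6,z6]),(z1,[z3,z3,z1,z3,y3])],.contra [z1],.ref k180 k2 [(z1,[z0,z1]),(z1,
    [z0,z0,z1]),(z1,[z0,z0,z0,z1]),(z1,[y1,y3,y1,y3,z3])]]),
    .geo true z3 k5 [(z2,z12),(z2,z0),(z4,y12),(z2,z3),(z2,y6),(z0,z3)] [(z1,[z1]),(z1,[z0,z1]),(z1,[z0,z0,z1]),(z1,[z0,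
    z0,z0,z1]),(z1,[y1,y1,y1,y1,z3]),(z1,
    [])] z0 (Int.ofNat (nat_lit 349526)) (.s (.l k1) (.s (.l k1) (.s (.l k1) (.l k2)))) [⟨z1,z3,[[k0,k5],[k1,k2],[k3,
    k4]],.bnd k0⟩],
    .geo true z3 k5 [(y4,z6),(z2,z0),(z10,y6),(z6,y6),(y2,z3),(z0,z3)] [(z1,[z1]),(z1,[z0,z1]),(z1,[z0,z0,z1]),(z1,[z0,z0,
    z0,z3]),(z1,[y1,y1,y1,y3,z3]),(z1,
    [])] (Int.ofNat (nat_lit 699050)) (Int.ofNat (nat_lit 1048576)) (.s (.s (.s (.l k2) (.l k1)) (.l k1)) (.s (.l k1) (.l k1))) [⟨z2,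
    z3,[[k0,k5],[k1,k2],[k3,k4]],.bnd k0⟩],
    .geo true z3 k4 [(z0,z6),(z2,z0),(z6,y6),(z2,y3),(z0,z3),(z2,z0)] [(z1,[z3]),(z1,[z0,z1]),(z1,[z0,z0,z3]),(z1,[z0,z0,
    z0,z1]),(z1,[]),(z1,[y3,y1,y3,y1,
    z3])] z0 (Int.ofNat (nat_lit 699051)) (.s (.s (.s (.l k2) (.l k1)) (.l k1)) (.s (.l k1) (.l k1))) [⟨z0,z1,[[k0,
    k5],[k1,k2],[k3,k4]],.bnd k0⟩],
    .geo true z3 k5 [(y2,z3),(z6,y6),(y4,z6),(z2,z0),(z10,y6),(z0,z3)] [(z1,[z1]),(z1,[z0,z3]),(z1,[z0,z0,z1]),(z1,[z0,z0,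
    z0,z1]),(z1,[y1,y3,y1,y1,z3]),(z1,
    [])] (Int.ofNat (nat_lit 699050)) (Int.ofNat (nat_lit 1048576)) (.s (.l k2) (.l k1)) [⟨z2,z3,[[k0,k5],[k1,k2],[k3,
    k4]],.bnd k0⟩],
    .geo true z9 k5 [(z4,z0),(z8,y9),(z8,z0),(z6,z0),(z10,z0),(z0,z9)] [(z1,[z1]),(z1,[z0,z1]),(z1,[z0,z0,z1]),(z1,[z0,z0,
    z0,z3]),(z1,[y1,y1,y1,y3,z9]),(z1,[])] z0 (Int.ofNat (nat_lit 932068)) (.s (.l k1) (.l k1)) [],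
    .geo true z3 k5 [(y2,z6),(z0,z6),(z2,z0),(z6,y6),(z6,y9),(z0,z3)] [(z1,[z1]),(z1,[z0,z3]),(z1,[z0,z0,z1]),(z1,[z0,z0,
    z0,z3]),(z1,[y1,y3,y1,y3,z3]),(z1,
    [])] (Int.ofNat (nat_lit 349525)) (Int.ofNat (nat_lit 699051)) (.s (.l k1) (.l k1)) []]

noncomputable def cU6_2_n3_2 : List XN :=
  [.geo true z15 k5 [(z6,z0),(z14,y15),(z12,z0),(z10,z0),(z18,z0),(z0,z15)] [(z1,[z3]),(z1,[z0,z1]),(z1,[z0,z0,z3]),(z1,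
    [z0,z0,z0,z5]),(z1,[y3,y1,y3,y5,z15]),(z1,[])] z0 (Int.ofNat (nat_lit 978671)) (.s (.l k1) (.l k1)) [],
    .geo true z3 k5 [(y2,z9),(z0,z6),(z2,z0),(z6,y6),(z6,y12),(z0,z3)] [(z1,[z1]),(z1,[z0,z3]),(z1,[z0,z0,z1]),(z1,[z0,z0,
    z0,z3]),(z1,[y1,y3,y1,y3,z3]),(z1,
    [])] (Int.ofNat (nat_lit 233016)) (Int.ofNat (nat_lit 524288)) (.s (.l k1) (.l k1)) [],
    .old (.lp [k156,k160,(nat_lit 226),k162,k118,k137] [k38,k38,k36,k36,k3,k3,k70,k0,k57,k57,k38,k57] k0 [[k0,k0,k0,k0,k0,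
    k0,k11,k0,k0,k0,k32],[k0,k0,k0,k0,k0,k0,k0,k0,k0,k0,k62],[k0,k0,k0,k0,k0,k0,k0,k0,k9],[k0,k0,k0,k0,k0,k64],[k0,k0,
    k64,k0,k0,k0,k0,k63],[k0,k0,k0,k0,k0,k0,k0,k0,k0,k0,k0,k98],[k0,k0,k0,k0,k0,k63,k0,k0,k9],[k0,k11,k0,k0,k0,k0,k0,
    k0,k10],[k0,k0,k0,k0,k0,k0,k0,k0,k0,k0,k23,k1],[k0,k0,k0,k9,k0,k0,k10,k9],[k0,k0,k0,k0,k98,k0,k0,k0,k0,k1],[k62,
    k32,k0,k0,k0,k0,k0,k0,k0,k23]] (nat_lit 480) k6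
    [[(k3,k96),(k8,k114),(k0,k124),(k11,k138),(k7,k194),(k4,(nat_lit 289))],[(k1,k124),(k6,k124),(k9,k126),(k2,k158),
    (k5,k191),(k10,(nat_lit 218))],[(k1,k96),(k6,k137),(k9,k139),(k2,k160),(k10,k190),(k5,k193)],[(k11,k130),(k8,
    k139),(k0,k158),(k3,k160),(k4,k193),(k7,(nat_lit 260))],[(k4,k162),(k11,k172),(k8,k181),(k0,k191),(k3,k193),(k7,
    (nat_lit 229))],[(k6,k96),(k5,k162),(k9,k172),(k10,k191),(k2,k193),(k1,(nat_lit 289))],[(k10,k96),(k6,k162),(k1,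
    k194),(k5,(nat_lit 229)),(k9,(nat_lit 238)),(k2,(nat_lit 260))],[(k4,k96),(k11,k96),(k8,k115),(k0,k124),(k3,k137),
    (k7,k162)],[(k11,k108),(k0,k126),(k8,k127),(k3,k139),(k4,k172),(k7,(nat_lit 238))],[(k1,k114),(k6,k115),(k9,k127),
    (k10,k136),(k2,k139),(k5,k181)],[(k6,k96),(k9,k108),(k2,k130),(k1,k138),(k10,k160),(k5,k172)],[(k7,k96),(k8,k136),
    (k11,k160),(k3,k190),(k4,k191),(k0,(nat_lit 218))]]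
    [] k0
    [[k2,k0,k0,k0,k0,k0],[k3,k0,k0,k0,k0,k0],[k2,k1,k0,k0,k0,k0],[k2,k0,k0,k1,k0,k0],[k2,k0,k0,k0,k1,k0],[k1,k1,k0,k0,
    k0,k0],[k1,k2,k0,k0,k0,k0],[k1,k1,k0,k0,k1,k0],[k1,k1,k0,k0,k0,k1],[k1,k1,k0,k1,k0,k1],[k1,k0,k0,k1,k0,k0],[k1,k0,
    k0,k1,k1,k0],[k1,k0,k0,k0,k1,k0],[k1,k0,k1,k0,k1,k0],[k1,k0,k0,k0,k2,k0],[k1,k0,k0,k0,k1,k1],[k1,k0,k0,k1,k1,k1],
    [k1,k0,k0,k0,k0,k1],[k1,k0,k0,k1,k0,k1],[k0,k2,k0,k0,k0,k0],[k0,k2,k0,k0,k1,k0],[k0,k1,k1,k0,k0,k0],[k0,k1,k0,k1,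
    k0,k0],[k0,k1,k0,k1,k0,k1],[k0,k1,k0,k0,k1,k0],[k0,k1,k0,k0,k2,k0],[k0,k1,k0,k0,k1,k1],[k0,k1,k0,k0,k0,k1],[k0,k0,
    k2,k0,k0,k0],[k0,k0,k1,k1,k0,k0],[k0,k0,k1,k0,k1,k0],[k0,k0,k1,k0,k0,k1],[k0,k0,k1,k1,k0,k1],[k0,k0,k0,k2,k0,k0],
    [k0,k0,k0,k2,k0,k1],[k0,k0,k0,k1,k1,k0],[k0,k0,k0,k1,k1,k1],[k0,k0,k0,k1,k0,k1],[k0,k0,k0,k2,k0,k2],[k0,k0,k0,k1,
    k2,k1],[k0,k0,k0,k1,k1,k2],[k0,k0,k0,k1,k0,k2],[k0,k0,k0,k0,k2,k0],[k0,k0,k0,k0,k3,k0],[k0,k0,k0,k0,k2,k1],[k0,k0,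
    k0,k0,k1,k1],[k0,k0,k0,k0,k1,k2],[k0,k0,k0,k0,k0,k2]]
    [.contra [z1],.ref k178 k10 [(z3,[y1,z3,z1,z3])],.ref k178 k10 [(z2,[y1,z2,z1,z2])],.ref (nat_lit 201) k0 [(z1,
    [y3,z3,y1,y3,z3]),(z1,[z0,z1]),(z1,[z0,z0,z1]),(z1,[z0,z0,z0,z1])],.ref (nat_lit 200) k3 [(z1,[z1,y2]),(z1,[y3,y9,
    y5,y15,z15]),(z1,[z2,z1]),(z1,[z0,z0,z1])],.ref k178 k8 [(z1,[z1])],.ref k178 k10 [(z1,[y1,z1,z1,z1])],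
    .ref k198 k3 [(z1,[z3,y3,y1]),(z1,[y3,y6,y2,y9,z9]),(z1,[z6,z3,y2]),(z1,[z0,z0,z1])],.ref k1 k3 [(z1,[y1,z0,z0,z0,
    z1])],.contra [z2,z1,z0,z2,y2],.ref k0 k2 [(z1,[z1])],.ref k199 k0 [(z1,[y3,z0,y1,y3,z3]),(z1,[z0,z1]),(z1,[z0,z0,
    z1]),(z1,[z0,z0,z0,z1])],.ref k178 k8 [(z3,[z2,z1,z1])],.contra [z2,y1,z0,y2],.contra [z1,z1],.ref k1 k2 [(z1,
    [z1])],.ref k178 k10 [(z1,[y1,z0,z0,z0,z1])],.ref k178 k2 [(z1,[z1])],.ref k178 k8 [(z1,[z2,z1,z1,z2,y2])],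
    .contra [z1],.ref k178 k8 [(z1,[z2,z1,y1])],.ref k178 k10 [(z1,[z1])],.contra [y1,y1,z0,y1,z1],.contra [y2,y1,z0,
    y2,z2],.contra [y2,z0,z1,z1],.ref k178 k8 [(z1,[z1,z1])],.contra [y1,y1,z0,y1,z1],.contra [y2,y1,z0,y2,z2],
    .contra [y1,z2,z0,z2],.ref k178 k4 [(z1,[z1])],.contra [y2,z1,z0,z2],.ref k0 k0 [(z1,[z1])],.ref k198 k3 [(z1,[y3,
    y3,y1,z0,z3]),(z1,[z3,y6,y2,y9,z6]),(z1,[y6,z3,y2,z0,z6]),(z1,[z0,z0,z1])],.contra [z1],.ref k197 k3 [(z1,[y3,y3,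
    y1,y3,z3]),(z1,[z1]),(z1,[y6,y3,y2,y6,z6]),(z1,[z0,z0,z1])],.contra [y1,y1,z0,y1,z1],.contra [z1,z1,z1,z1,y1],
    .contra [y2,y1,z0,y2,z2],.ref k178 k10 [(z1,[z1,z2,z1,z3,y2])],.ref k178 k8 [(z1,[z2,z3,z1,z2,y2])],
    .ref k196 k2 [(z1,[z0,z1]),(z1,[z0,z0,z1]),(z1,[z0,z0,z0,z1]),(z1,[y3,y6,y2,y6,z6])],.ref k195 k2 [(z1,[y6,y3,y2,
    y6,z6]),(z1,[z0,z0,z1]),(z1,[z6,z6,z2,z9,y6]),(z1,[z1])],.contra [z1],.ref k178 k8 [(z3,[z2,z3,z1])],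
    .ref k178 k2 [(z1,[z1,z1])],.contra [y1,y1,z0,y1,z1],.ref k194 k1 [(z1,[z6,z12,z4,z15,y12]),(z1,[z0,z0,z1]),(z1,
    [y6,y9,y4,y12,z12]),(z1,[z3,z3,z1,z3,y3])],.contra [z1]]),
    .geo true z3 k4 [(y2,z3),(z4,y3),(z6,y3),(z2,z0),(z0,z3),(z2,z0)] [(z1,[z1]),(z1,[z0,z1]),(z1,[z0,z0,z3]),(z1,[z0,z0,
    z0,z1]),(z1,[]),(z1,[y1,y1,y3,y1,
    z3])] (Int.ofNat (nat_lit 699050)) (Int.ofNat (nat_lit 1398102)) (.s (.l k1) (.l k1)) [],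
    .geo true z3 k5 [(z2,z6),(z2,z0),(z4,y6),(z2,z3),(z2,y6),(z0,z3)] [(z1,[z1]),(z1,[z0,z1]),(z1,[z0,z0,z1]),(z1,[z0,z0,
    z0,z1]),(z1,[y1,y1,y1,y1,z3]),(z1,[])] z0 (Int.ofNat (nat_lit 349526)) (.l k1) [],
    .geo true z3 k5 [(y2,z3),(z4,y3),(z2,z0),(z2,z3),(z6,y6),(z0,z3)] [(z1,[z1]),(z1,[z0,z1]),(z1,[z0,z0,z1]),(z1,[z0,z0,
    z0,z1]),(z1,[y1,y1,y1,y1,z3]),(z1,[])] (Int.ofNat (nat_lit 699050)) (Int.ofNat (nat_lit 1048576)) (.l k1) [],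
    .geo true z3 k5 [(z1,z0),(z4,y3),(y1,z3),(z6,y3),(z2,z0),(z0,z3)] [(z1,[z1]),(z1,[z0,z1]),(z1,[z0,z0,z1]),(z1,[z0,z0,
    z0,z3]),(z1,[y1,y1,y1,y3,z3]),(z1,
    [])] (Int.ofNat (nat_lit 349525)) (Int.ofNat (nat_lit 1398102)) (.s (.l k1) (.l k1)) [],
    .geo true z3 k5 [(y2,z6),(z4,y3),(z2,y3),(z6,y3),(z2,z0),(z0,z3)] [(z1,[z1]),(z1,[z0,z1]),(z1,[z0,z0,z1]),(z1,[z0,z0,
    z0,z3]),(z1,[y1,y1,y1,y3,z3]),(z1,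
    [])] (Int.ofNat (nat_lit 349525)) (Int.ofNat (nat_lit 699051)) (.s (.l k1) (.s (.l k1) (.l k1))) [],
    .geo true z3 k5 [(y2,z6),(z4,y3),(z2,z0),(z2,z3),(z6,y9),(z0,z3)] [(z1,[z1]),(z1,[z0,z1]),(z1,[z0,z0,z1]),(z1,[z0,z0,
    z0,z1]),(z1,[y1,y1,y1,y1,z3]),(z1,
    [])] (Int.ofNat (nat_lit 349525)) (Int.ofNat (nat_lit 699051)) (.s (.l k1) (.l k1)) [],
    .old (.lp [(nat_lit 480),(nat_lit 536),(nat_lit 770),(nat_lit 640),(nat_lit 902),(nat_lit 510)] [(nat_lit 211),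
    (nat_lit 211),k183,k183,k69,k63,k131,k131,k0,k0,(nat_lit 305),k87] k0 [[k0,k0,(nat_lit 244),k0,k0,k0,k0,k0,k0,k0,
    k0,k2],[k0,k0,k136],[k0,k0,k0,k0,k10,k30,k0,k0,(nat_lit 248)],[k136,(nat_lit 244)],[k0,k0,k0,k30,k0,k0,k0,k0,k0,
    k0,k0,k4],[k0,k0,k0,k10,k0,k0,(nat_lit 270)],[k0,k0,k0,k0,k0,k0,k0,k0,k0,(nat_lit 288)],[k0,k0,k0,k0,
    (nat_lit 270),k0,k0,k0,k0,k130],[k0,k0,k0,k0,k0,k0,k130,(nat_lit 288),k0,k0,k134],[k0,k0,k0,(nat_lit 248),k0,k0,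
    k0,k0,k0,k0,(nat_lit 220)],[k0,k2,k0,k0,k0,k4],[k0,k0,k0,k0,k0,k0,k0,k0,(nat_lit 220),k134]] (nat_lit 1920) k6
    [[(k11,(nat_lit 384)),(k0,(nat_lit 480)),(k3,(nat_lit 510)),(k8,(nat_lit 557)),(k7,(nat_lit 564)),(k4,
    (nat_lit 622))],[(k5,(nat_lit 384)),(k10,(nat_lit 384)),(k1,(nat_lit 480)),(k6,(nat_lit 560)),(k2,(nat_lit 644)),
    (k9,(nat_lit 691))],[(k10,(nat_lit 414)),(k1,(nat_lit 510)),(k5,(nat_lit 520)),(k6,(nat_lit 588)),(k9,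
    (nat_lit 719)),(k2,(nat_lit 780))],[(k11,(nat_lit 384)),(k7,(nat_lit 578)),(k4,(nat_lit 620)),(k0,(nat_lit 644)),
    (k8,(nat_lit 719)),(k3,(nat_lit 780))],[(k0,(nat_lit 384)),(k3,(nat_lit 520)),(k7,(nat_lit 738)),(k11,
    (nat_lit 752)),(k4,(nat_lit 780)),(k8,(nat_lit 1087))],[(k10,(nat_lit 524)),(k2,(nat_lit 620)),(k1,(nat_lit 622)),
    (k5,(nat_lit 780)),(k9,(nat_lit 833)),(k6,(nat_lit 972))],[(k10,(nat_lit 466)),(k9,(nat_lit 501)),(k1,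
    (nat_lit 564)),(k2,(nat_lit 578)),(k6,(nat_lit 640)),(k5,(nat_lit 738))],[(k8,(nat_lit 483)),(k0,(nat_lit 560)),
    (k3,(nat_lit 588)),(k7,(nat_lit 640)),(k11,(nat_lit 814)),(k4,(nat_lit 972))],[(k7,(nat_lit 501)),(k0,
    (nat_lit 691)),(k3,(nat_lit 719)),(k8,(nat_lit 772)),(k4,(nat_lit 833)),(k11,(nat_lit 1103))],[(k6,(nat_lit 483)),
    (k1,(nat_lit 557)),(k2,(nat_lit 719)),(k9,(nat_lit 772)),(k10,(nat_lit 817)),(k5,(nat_lit 1087))],[(k1,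
    (nat_lit 384)),(k2,(nat_lit 384)),(k10,(nat_lit 644)),(k5,(nat_lit 752)),(k6,(nat_lit 814)),(k9,(nat_lit 1103))],
    [(k0,(nat_lit 384)),(k3,(nat_lit 414)),(k7,(nat_lit 466)),(k4,(nat_lit 524)),(k11,(nat_lit 644)),(k8,
    (nat_lit 817))]]
    [] k0
    [[k2,k0,k0,k0,k0,k0],[k3,k0,k0,k0,k0,k0],[k3,k0,k0,k0,k0,k1],[k2,k1,k0,k0,k0,k0],[k2,k1,k0,k0,k0,k1],[k2,k0,k1,k0,
    k0,k0],[k2,k0,k0,k1,k0,k0],[k2,k0,k0,k0,k1,k0],[k2,k0,k0,k0,k0,k1],[k2,k0,k1,k0,k0,k1],[k2,k0,k0,k1,k0,k1],[k2,k0,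
    k0,k0,k0,k2],[k1,k1,k0,k0,k0,k0],[k1,k1,k1,k0,k0,k0],[k1,k1,k0,k1,k0,k0],[k1,k1,k0,k0,k0,k1],[k1,k1,k1,k0,k0,k1],
    [k1,k0,k1,k0,k0,k0],[k1,k0,k2,k0,k0,k0],[k1,k0,k1,k0,k0,k1],[k1,k0,k0,k1,k0,k0],[k1,k0,k0,k2,k0,k0],[k1,k0,k0,k1,
    k1,k0],[k1,k0,k0,k1,k0,k1],[k1,k0,k0,k0,k1,k0],[k1,k0,k1,k0,k1,k0],[k1,k0,k0,k0,k0,k1],[k1,k1,k0,k0,k0,k2],[k1,k0,
    k0,k0,k1,k1],[k1,k0,k0,k0,k0,k2],[k0,k2,k0,k0,k0,k0],[k0,k2,k0,k0,k0,k1],[k0,k1,k1,k0,k0,k0],[k0,k1,k1,k0,k0,k1],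
    [k0,k1,k0,k1,k0,k0],[k0,k1,k0,k2,k0,k0],[k0,k1,k0,k1,k1,k0],[k0,k1,k0,k1,k0,k1],[k0,k1,k0,k0,k1,k0],[k0,k1,k0,k0,
    k0,k1],[k0,k2,k0,k0,k0,k2],[k0,k1,k0,k0,k0,k2],[k0,k0,k2,k0,k0,k0],[k0,k0,k1,k1,k0,k0],[k0,k0,k1,k0,k0,k1],[k0,k0,
    k0,k2,k0,k0],[k0,k0,k0,k2,k1,k0],[k0,k0,k0,k1,k1,k0],[k0,k0,k0,k1,k2,k0],[k0,k0,k0,k1,k0,k1],[k0,k0,k0,k0,k2,k0],
    [k0,k0,k0,k0,k0,k2]]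
    [.contra [z1],.ref k178 k3 [(z3,[z1,y2,y3,y3,z3])],.ref (nat_lit 208) k8 [(z1,[y3,z1,z3]),(z1,[z0,z1,z0,z3]),(z1,
    [z0,y1,y3,y3,z3]),(z1,[z0,y1])],.ref (nat_lit 207) k11 [(z1,[z3,y2,z0,y6]),(z1,[z0,z1,z0,z3]),(z1,[y3,z2,z3,z3]),
    (z1,[z0,z0,z0,z1])],.ref k178 k3 [(z1,[z1,y1,y2,y1,z1])],.ref k178 k3 [(z1,[z1,y1,y1,y2,z1])],.ref k178 k3 [(z2,
    [z1,y1,y1,y1,z1])],.ref (nat_lit 202) k10 [(z1,[y1,z0,z0,z1]),(z1,[z0,y1,y3,y3,z3]),(z1,[z1])],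
    .ref (nat_lit 205) k8 [(z1,[y3,z1,z3]),(z1,[z0,z1,z0,z3]),(z1,[z0,y1,y3,y3,z3]),(z1,[z0,y1])],.ref k1 k0 [(z1,[z1,
    y1,y1,y2,z1])],.ref k1 k2 [(z1,[z1,z0,z1,z1,y1])],.ref (nat_lit 206) k11 [(z2,[y3,z2,z6]),(z1,[z0,z1,z0,z3]),(z2,
    [z3,y2,z0,y6]),(z1,[z0,z0,z0,z1])],.contra [y2,z1,z2,z1],.ref k1 k0 [(z1,[y1,z0,z0,z0,z1])],.contra [y1,z0,z0,y1,
    z1],.contra [z1,y1,y3,y2,z2],.ref k178 k3 [(z1,[y1,z0,z0,z0,z1])],.contra [z1,y1,y2,y3,z2],.ref k178 k3 [(z1,[y1,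
    z0,y1,z1,z1])],.ref (nat_lit 203) k2 [(z1,[z0,z1]),(z1,[y3,z1,z3,z3]),(z1,[z0,z0,z0,z1]),(z1,[z0,y1,y3,y3,z3])],
    .contra [y1,z0,y1,z0,z1],.ref k178 k3 [(z1,[z1,z0,z1,z1,y1])],.contra [y1,z0,y1,z1,z1],.contra [y1,z0,z0,y1,z1],
    .ref k178 k3 [(z2,[z1,y1,y2,y2,z2])],.contra [z1,z0,z0,y1],.contra [y2,z1,z2,z1],.ref (nat_lit 203) k2 [(z1,[z0,
    z1]),(z1,[y3,z1,z6]),(z1,[z0,z0,z0,z1]),(z1,[z0,y1,y3,y3,z3])],.ref k1 k2 [(z1,[z1])],.ref (nat_lit 204) k10 [(z1,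
    [z3,y1,y6,z3]),(z1,[z0,y1,y3,y3,z3]),(z1,[y3,z1,z6]),(z1,[z3,y1,y3])],.contra [z1],.ref k178 k10 [(z1,[z1,z0,y1,
    z1])],.ref k178 k10 [(z1,[z1])],.contra [z1,z0,y1,z1],.contra [y1,z0,z0,y1,z1],.ref k1 k0 [(z1,[y1,y1,y2,y3,z3])],
    .ref (nat_lit 203) k2 [(z1,[z0,z1]),(z1,[z3,z1,z3,z3,y3]),(z1,[z0,z0,z0,z1]),(z1,[z0,y1,y3,y3,z3])],.contra [y1,
    z0,z0,y1,z1],.contra [y1,z0,z1],.contra [y2,z1,z2,z1],.contra [z1,z0,y2,z2],.ref k0 k0 [(z1,[z1,z0,y1,z1])],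
    .contra [z1],.contra [y1,z0,y1,z0,z1],.ref k0 k0 [(z1,[z1])],.contra [z1],.contra [z1,z1,z2,z2,y2],
    .ref k178 k3 [(z1,[z1])],.contra [z1,z1,z1,z1,y1],.contra [y1,z0,z0,y1,z1],.contra [y1,z0,z0,z2],.contra [z1]]),
    .geo true z3 k5 [(y10,z12),(z6,y6),(z8,y6),(z6,y3),(z2,z0),(z0,z3)] [(z1,[z1]),(z1,[z0,z3]),(z1,[z0,z0,z1]),(z1,[z0,
    z0,z0,z3]),(z1,[y1,y3,y1,y3,z3]),(z1,[])] (Int.ofNat (nat_lit 873813)) (Int.ofNat (nat_lit 1048576)) (.l k1) [],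
    .geo true z3 k5 [(y2,z6),(z2,y3),(z4,y3),(z6,y3),(z2,z0),(z0,z3)] [(z1,[z1]),(z1,[z0,z1]),(z1,[z0,z0,z1]),(z1,[z0,z0,
    z0,z3]),(z1,[y1,y1,y1,y3,z3]),(z1,
    [])] (Int.ofNat (nat_lit 349525)) (Int.ofNat (nat_lit 699051)) (.s (.l k1) (.l k1)) []]

noncomputable def cU6_2_n3_3 : List XN :=
  [.old (.lp [k120,k113,k166,k160,(nat_lit 212),k187] [k75,k75,k72,k85,k66,k38,k55,k55,k4,k54,k83,k0] k0 [[k0,k0,k61,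
    k27],[k0,k0,k0,k0,k0,k0,k17,k3],[k0,k27,k0,k0,k0,k0,k0,k0,k102],[k0,k61,k0,k0,k0,k12],[k0,k0,k12,k0,k0,k0,k0,k0,
    k0,k0,k0,k5],[k0,k0,k0,k0,k0,k0,k0,k0,k0,k0,k0,k15],[k3,k0,k0,k0,k0,k0,k0,k0,k28],[k17],[k0,k0,k0,k0,k0,k0,k0,k0,
    k0,k0,k95,k73],[k0,k0,k0,k102,k0,k0,k0,k28],[k0,k0,k0,k0,k15,k5,k0,k0,k0,k73],[k0,k0,k0,k0,k0,k0,k0,k0,k0,
    k95]] (nat_lit 480) k6
    [[(k8,k96),(k3,k110),(k0,k120),(k4,k144),(k7,k145),(k11,(nat_lit 268))],[(k2,k96),(k5,k96),(k10,k112),(k1,k120),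
    (k9,k144),(k6,k157)],[(k10,k102),(k1,k110),(k9,k114),(k6,k127),(k2,k174),(k5,k174)],[(k0,k96),(k11,k96),(k4,k132),
    (k7,k155),(k3,k174),(k8,k194)],[(k0,k96),(k4,k154),(k3,k174),(k7,k177),(k11,(nat_lit 232)),(k8,(nat_lit 330))],
    [(k10,k116),(k2,k132),(k1,k144),(k6,k149),(k9,k150),(k5,k154)],[(k10,k117),(k1,k145),(k2,k155),(k6,k160),(k9,
    k161),(k5,k177)],[(k3,k127),(k4,k149),(k0,k157),(k7,k160),(k11,k187),(k8,(nat_lit 211))],[(k3,k114),(k0,k144),(k4,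
    k150),(k7,k161),(k11,(nat_lit 216)),(k8,(nat_lit 240))],[(k1,k96),(k10,k110),(k2,k194),(k6,(nat_lit 211)),(k9,
    (nat_lit 240)),(k5,(nat_lit 330))],[(k2,k96),(k6,k187),(k9,(nat_lit 216)),(k5,(nat_lit 232)),(k1,(nat_lit 268)),
    (k10,(nat_lit 282))],[(k3,k102),(k8,k110),(k0,k112),(k4,k116),(k7,k117),(k11,(nat_lit 282))]]
    [] k0
    [[k2,k0,k0,k0,k0,k0],[k3,k0,k0,k0,k0,k0],[k3,k1,k0,k0,k0,k0],[k2,k1,k0,k0,k0,k0],[k2,k1,k1,k0,k0,k0],[k2,k1,k0,k0,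
    k0,k1],[k2,k0,k1,k0,k0,k0],[k2,k0,k0,k1,k0,k0],[k2,k0,k0,k0,k1,k0],[k2,k1,k0,k0,k1,k0],[k2,k0,k1,k0,k1,k0],[k1,k1,
    k0,k0,k0,k0],[k2,k2,k0,k0,k0,k0],[k1,k2,k0,k0,k0,k0],[k1,k1,k1,k0,k0,k0],[k1,k1,k0,k1,k0,k0],[k1,k1,k0,k0,k1,k0],
    [k1,k1,k0,k0,k0,k1],[k1,k2,k0,k0,k0,k1],[k1,k1,k1,k0,k0,k1],[k1,k1,k0,k0,k1,k1],[k1,k0,k1,k0,k0,k0],[k1,k0,k2,k0,
    k0,k0],[k1,k0,k1,k1,k0,k0],[k1,k0,k0,k1,k0,k0],[k1,k0,k0,k2,k0,k0],[k1,k0,k0,k1,k0,k1],[k1,k0,k0,k0,k1,k0],[k1,k1,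
    k1,k0,k1,k0],[k1,k0,k1,k0,k1,k0],[k1,k0,k0,k1,k1,k0],[k1,k0,k0,k0,k1,k1],[k1,k0,k0,k0,k0,k1],[k0,k2,k0,k0,k0,k0],
    [k0,k2,k0,k1,k0,k0],[k0,k2,k0,k0,k0,k1],[k0,k1,k1,k0,k0,k0],[k0,k1,k2,k0,k0,k0],[k0,k1,k1,k1,k0,k0],[k0,k1,k1,k0,
    k0,k1],[k0,k1,k0,k1,k0,k0],[k0,k1,k0,k2,k0,k0],[k0,k1,k0,k1,k0,k1],[k0,k1,k0,k0,k1,k0],[k0,k1,k0,k0,k1,k1],[k0,k1,
    k0,k0,k0,k1],[k0,k2,k0,k0,k0,k2],[k0,k0,k2,k0,k0,k0],[k0,k0,k3,k0,k0,k0],[k0,k0,k1,k1,k0,k0],[k0,k0,k1,k0,k0,k1],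
    [k0,k0,k0,k2,k0,k0],[k0,k0,k0,k2,k0,k1],[k0,k0,k0,k1,k1,k0],[k0,k0,k0,k1,k1,k1],[k0,k0,k0,k1,k0,k1],[k0,k0,k0,k0,
    k1,k1]]
    [.contra [z1],.contra [y1,z2,z3],.contra [y1,z2,z3],.contra [z1,y2,y5,y4,z4],.ref k178 k4 [(z1,[z1,y1,y2,y1,z1])],
    .contra [y1,z1,z2],.ref (nat_lit 202) k9 [(z1,[y1,z0,z0,z1]),(z1,[z0,y1,y3,y3,z3]),(z1,[z1])],.contra [y1,z1,z1,
    y1,z1],.ref (nat_lit 202) k10 [(z1,[y1,z0,z0,z1]),(z1,[z0,y1,y3,y3,z3]),(z1,[z1])],.ref k178 k3 [(z1,[z1,y1,y2,y1,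
    z1])],.contra [z1,z0,z0,y1],.contra [y1,z2,z3],.contra [y1,z2,z3],.contra [y1,z2,z3],.ref k1 k0 [(z1,[y1,z0,z0,z0,
    z1])],.contra [y1,z1,z1,y1,z1],.ref (nat_lit 211) k11 [(z1,[z6,y2,y3,y6]),(z1,[y3,z2,z3,z3]),(z1,[y3,z1,z3,z3]),
    (z1,[z0,z0,z0,z1])],.contra [z1,y1,y3,y2,z2],.contra [y1,z1,z2],.ref k178 k3 [(z1,[y1,z0,z0,z0,z1])],
    .ref k178 k4 [(z1,[y1,z0,z0,z0,z1])],.ref k193 k9 [(z1,[y1,z0,z0,z1]),(z1,[z0,y1,y3,y3,z3]),(z1,[z1])],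
    .ref (nat_lit 210) k11 [(z1,[y6,z2,z3]),(z1,[z1]),(z1,[z3,y1]),(z1,[z0,z0,z0,z1])],.ref k0 k0 [(z1,[z1,z0,z1,z1,
    y1])],.contra [y1,z1,z1,y1,z1],.contra [y1,z0,y1,y2,z2],.contra [z1,z0,z1,z1,y1],.ref k193 k10 [(z1,[y1,z0,z0,
    z1]),(z1,[z0,y1,y3,y3,z3]),(z1,[z1])],.contra [z1,z0,z0,y1],.contra [z1,z0,z0,y1],.ref k178 k0 [(z1,[z1,z0,z1,z1,
    y1])],.ref k1 k2 [(z1,[z1])],.contra [y1,z1,z2],.contra [z1],.contra [y1,z1,z1,y1,z1],.contra [y1,z1,z2],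
    .ref k178 k10 [(z1,[z1])],.ref k178 k0 [(z2,[y1,z0,z1,z2])],.ref k1 k2 [(z1,[y1,z0,z0,z0,z1])],.ref k178 k0 [(z1,
    [y1,z0,z1,z1])],.contra [y1,z1,z1,y1,z1],.contra [y1,z0,y1,y2,z2],.contra [y1,z0,z0,y1,z1],.ref k0 k3 [(z1,[z1])],
    .ref k0 k0 [(z1,[y1,z0,z1,z1])],.contra [y1,z1,z2],.contra [y1,z0,z2],.contra [z1],.ref k178 k3 [(z3,[y1,y1,y3,z0,
    z3])],.ref k178 k4 [(z1,[z1])],.ref k0 k0 [(z1,[z1])],.contra [z1],.contra [z1,z1,z2,z2,y2],.ref k178 k3 [(z1,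
    [z1])],.ref k1 k0 [(z1,[z1])],.contra [y1,z0,z0,y1,z1],.ref k178 k0 [(z1,[z1])]]),
    .old (.lp [(nat_lit 240),(nat_lit 240),(nat_lit 278),(nat_lit 256),(nat_lit 202),(nat_lit 221)] [k58,k58,k58,k58,k39,
    k39,k100,k0,k77,k77,k10,k125] k0 [[k0,k0,k0,k0,k0,k0,k3,k3],[k0,k0,k0,k0,k0,k0,k0,k0,k0,k0,k0,k98],[k0,k0,k0,k0,
    k0,k3],[k0,k0,k0,k0,k0,k19],[k0,k0,k19,k3,k0,k0,k0,k73],[k0,k0,k0,k0,k0,k0,k0,k0,k0,k0,k19,(nat_lit 202)],[k0,k3,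
    k0,k0,k0,k73],[k0,k3,k0,k0,k0,k0,k0,k0,k0,k13],[k0,k0,k0,k0,k0,k0,k13,k0,k0,k0,k57],[k0,k0,k0,k0,k0,k0,k0,k0,k0,
    k0,k19],[k98,k0,k0,k0,(nat_lit 202)],[k0,k0,k0,k0,k19,k0,k0,k0,k19,k57]] (nat_lit 720) k6
    [[(k11,k154),(k8,k164),(k3,(nat_lit 240)),(k7,(nat_lit 279)),(k0,(nat_lit 338)),(k4,(nat_lit 461))],[(k6,k195),
    (k9,(nat_lit 218)),(k2,(nat_lit 240)),(k5,(nat_lit 259)),(k10,(nat_lit 288)),(k1,(nat_lit 338))],[(k10,k190),(k6,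
    (nat_lit 201)),(k9,(nat_lit 224)),(k1,(nat_lit 240)),(k2,(nat_lit 240)),(k5,(nat_lit 259))],[(k11,k173),(k8,
    (nat_lit 221)),(k0,(nat_lit 240)),(k3,(nat_lit 240)),(k4,(nat_lit 256)),(k7,(nat_lit 317))],[(k11,k192),(k8,
    (nat_lit 240)),(k0,(nat_lit 259)),(k3,(nat_lit 259)),(k4,(nat_lit 259)),(k7,(nat_lit 320))],[(k6,k144),(k9,
    (nat_lit 240)),(k2,(nat_lit 256)),(k5,(nat_lit 259)),(k10,(nat_lit 326)),(k1,(nat_lit 461))],[(k10,k144),(k6,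
    (nat_lit 256)),(k1,(nat_lit 279)),(k2,(nat_lit 317)),(k5,(nat_lit 320)),(k9,(nat_lit 352))],[(k4,k144),(k11,k144),
    (k8,k179),(k0,k195),(k3,(nat_lit 201)),(k7,(nat_lit 256))],[(k11,k154),(k8,k189),(k0,(nat_lit 218)),(k3,
    (nat_lit 224)),(k4,(nat_lit 240)),(k7,(nat_lit 352))],[(k1,k164),(k6,k179),(k9,k189),(k2,(nat_lit 221)),(k5,
    (nat_lit 240)),(k10,(nat_lit 288))],[(k6,k144),(k1,k154),(k9,k154),(k2,k173),(k5,k192),(k10,(nat_lit 278))],[(k7,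
    k144),(k3,k190),(k11,(nat_lit 278)),(k0,(nat_lit 288)),(k8,(nat_lit 288)),(k4,(nat_lit 326))]]
    [] k0
    [[k2,k0,k0,k0,k0,k0],[k1,k1,k0,k0,k0,k0],[k1,k1,k0,k0,k1,k0],[k1,k1,k0,k0,k0,k1],[k1,k0,k0,k1,k0,k0],[k1,k0,k1,k1,
    k0,k0],[k1,k0,k0,k1,k1,k0],[k1,k0,k0,k1,k0,k1],[k1,k0,k0,k0,k1,k0],[k1,k0,k1,k0,k1,k0],[k1,k0,k0,k0,k2,k0],[k1,k0,
    k0,k0,k1,k1],[k1,k0,k0,k1,k1,k1],[k1,k0,k0,k0,k0,k1],[k1,k0,k1,k1,k0,k1],[k0,k2,k0,k0,k0,k0],[k0,k2,k0,k0,k1,k0],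
    [k0,k2,k0,k0,k0,k1],[k0,k1,k1,k0,k0,k0],[k0,k1,k0,k1,k0,k0],[k0,k1,k0,k1,k0,k1],[k0,k1,k0,k0,k1,k0],[k0,k1,k0,k0,
    k2,k0],[k0,k1,k0,k0,k1,k1],[k0,k1,k0,k0,k0,k1],[k0,k1,k1,k0,k0,k1],[k0,k1,k0,k1,k0,k2],[k0,k1,k0,k0,k0,k2],[k0,k0,
    k2,k0,k0,k0],[k0,k0,k1,k1,k0,k0],[k0,k0,k1,k0,k1,k0],[k0,k0,k1,k0,k2,k0],[k0,k0,k1,k1,k1,k1],[k0,k0,k1,k0,k0,k1],
    [k0,k0,k1,k1,k0,k1],[k0,k0,k0,k2,k0,k0],[k0,k0,k0,k2,k0,k1],[k0,k0,k0,k1,k1,k0],[k0,k0,k0,k1,k0,k1],[k0,k0,k0,k2,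
    k0,k2],[k0,k0,k0,k1,k1,k1],[k0,k0,k0,k1,k2,k1],[k0,k0,k0,k1,k0,k2],[k0,k0,k0,k0,k2,k0],[k0,k0,k0,k0,k3,k0],[k0,k0,
    k0,k0,k2,k1],[k0,k0,k0,k0,k1,k1],[k0,k0,k0,k0,k0,k2]]
    [.contra [z1],.contra [y1,z0,z0,y1,z1],.ref (nat_lit 209) k3 [(z1,[z3,y3,y1,y3]),(z1,[y1,z0,z0,z0,z1]),(z1,[z0,z1,
    z0,z1])],.ref k1 k3 [(z1,[y1,z0,z0,z0,z1])],.contra [z1,z0,z1,z1,y1],.contra [z1,y1,z0,y1],.ref k27 k0 [(z1,[z0,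
    z0,z0,z1]),(z1,[z1])],.ref (nat_lit 209) k9 [(z1,[y3,y3,y1,y3,z3]),(z1,[z1]),(z1,[z0,z1,z0,z1])],
    .ref k193 k1 [(z1,[y1,z1,z0,z1]),(z1,[z0,z0,z1]),(z1,[z1])],.contra [z1,y1,z0,y1],.ref (nat_lit 202) k1 [(z1,[y1,
    z1,z0,z1]),(z1,[z0,z0,z1]),(z1,[z1])],.contra [z1,z1],.ref k178 k4 [(z1,[y2,y1,y1,y2,z3])],.ref k178 k2 [(z1,
    [z1])],.contra [z1,y1,z0,y1],.contra [z1],.ref k27 k0 [(z1,[z0,z0,z0,z1]),(z1,[z1,z0,y1,y1,z1])],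
    .ref (nat_lit 209) k9 [(z1,[y3,y3,z2]),(z1,[z1,z0,y1,y1,z1]),(z1,[z0,z1,z0,z1])],.ref k178 k4 [(z1,[z2,y1,y1,y2,
    z1])],.contra [y1,z0,z0,y1,z1],.contra [y1,y1,z0,y1,z1],.contra [y1,y1,z0,y1,z1],.ref k27 k0 [(z1,[z0,z0,z0,z1]),
    (z2,[z1,z0,y1,y2,z2])],.contra [y1,y1,z0,y1,z1],.contra [y1,y1,z0,y1,z1],.ref k27 k0 [(z1,[z0,z0,z0,z1]),(z1,[y1,
    z0,z0,z0,z1])],.ref (nat_lit 202) k2 [(z1,[z1,z2,z0,z1,y1]),(z1,[z0,z0,z1]),(z1,[y1,y1,z0,z0,z1])],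
    .ref (nat_lit 209) k9 [(z2,[y3,y6,z1]),(z2,[z1,z0,y1,y2,z2]),(z1,[z0,z1,z0,z1])],.contra [y1,z2,z0,z2],
    .ref k178 k4 [(z1,[z1])],.contra [y1,z0,z0,z1],.ref (nat_lit 202) k2 [(z1,[y1,z1,z0,z1]),(z1,[z0,z0,z1]),(z1,
    [z1])],.contra [z1,z0,z0,y1],.contra [y1,z0,z0,z1],.ref (nat_lit 209) k3 [(z1,[y3,y3,y1,y3,z3]),(z1,[z1]),(z1,[z0,
    z1,z0,z1])],.contra [z1],.ref (nat_lit 212) k3 [(z1,[y3,y3,y1,y3,z3]),(z1,[z1]),(z1,[z0,z1,z0,z1])],.contra [y1,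
    y1,z0,y1,z1],.contra [y1,y1,z0,y1,z1],.ref k48 k3 [(z2,[y3,y6,y2,y6,z6]),(z2,[z1]),(z1,[z0,z1,z0,z1])],
    .contra [z1,z1,z1,z1,y1],.ref k27 k0 [(z1,[z0,z0,z0,z1]),(z1,[z1,z1])],.ref (nat_lit 212) k9 [(z1,[y3,y3,y1,y3,
    z3]),(z1,[z1]),(z1,[z0,z1,z0,z1])],.contra [z1],.ref k27 k0 [(z1,[z0,z0,z0,z1]),(z3,[z1,z0,y1,y3,z3])],
    .ref k193 k1 [(z1,[y1,z0,z0,z1]),(z1,[z0,z0,z1]),(z1,[z1,z1])],.contra [y1,z0,z0,z1],.contra [z1]]),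
    .old (.lp [(nat_lit 624),(nat_lit 810),(nat_lit 470),(nat_lit 784),(nat_lit 640),(nat_lit 510)] [k42,(nat_lit 340),
    k196,k0,(nat_lit 268),(nat_lit 268),k86,k136,(nat_lit 282),k84,(nat_lit 248),(nat_lit 248)] k0 [[k0,k0,k112,k0,k0,
    k0,(nat_lit 496),k132],[k0,k0,k0,k0,k0,k0,k0,k0,k0,k0,(nat_lit 282),k144],[k0,k0,k0,k0,k170,k0,k0,k0,k178],[k0,
    k112],[k0,k0,k0,k0,k0,k0,k0,k118],[k0,k0,k0,k170,k0,k0,k0,k0,k0,k0,k0,k166],[k0,k132,k0,k0,k0,k118,k0,k0,k0,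
    (nat_lit 254)],[k0,(nat_lit 496),k0,k0,k0,k0,k0,k0,k0,k8],[k0,k0,k0,k0,k0,k0,k8,(nat_lit 254)],[k0,k0,k0,k178,k0,
    k0,k0,k0,k0,k0,k6],[k144,k0,k0,k0,k166],[(nat_lit 282),k0,k0,k0,k0,k0,k0,k0,k6]] (nat_lit 1920) k6
    [[(k3,(nat_lit 384)),(k8,(nat_lit 384)),(k11,(nat_lit 412)),(k7,(nat_lit 530)),(k4,(nat_lit 564)),(k0,
    (nat_lit 768))],[(k9,(nat_lit 384)),(k5,(nat_lit 584)),(k6,(nat_lit 746)),(k1,(nat_lit 768)),(k2,(nat_lit 768)),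
    (k10,(nat_lit 998))],[(k1,(nat_lit 384)),(k10,(nat_lit 614)),(k5,(nat_lit 738)),(k2,(nat_lit 922)),(k9,
    (nat_lit 1054)),(k6,(nat_lit 1416))],[(k11,(nat_lit 384)),(k7,(nat_lit 504)),(k8,(nat_lit 528)),(k4,
    (nat_lit 542)),(k0,(nat_lit 768)),(k3,(nat_lit 922))],[(k11,(nat_lit 490)),(k0,(nat_lit 584)),(k7,(nat_lit 602)),
    (k8,(nat_lit 634)),(k4,(nat_lit 640)),(k3,(nat_lit 738))],[(k10,(nat_lit 490)),(k6,(nat_lit 534)),(k2,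
    (nat_lit 542)),(k1,(nat_lit 564)),(k5,(nat_lit 640)),(k9,(nat_lit 654))],[(k10,(nat_lit 456)),(k2,(nat_lit 504)),
    (k1,(nat_lit 530)),(k5,(nat_lit 602)),(k6,(nat_lit 784)),(k9,(nat_lit 904))],[(k8,(nat_lit 384)),(k4,
    (nat_lit 534)),(k11,(nat_lit 680)),(k0,(nat_lit 746)),(k7,(nat_lit 784)),(k3,(nat_lit 1416))],[(k0,(nat_lit 384)),
    (k8,(nat_lit 632)),(k4,(nat_lit 654)),(k7,(nat_lit 904)),(k11,(nat_lit 928)),(k3,(nat_lit 1054))],[(k1,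
    (nat_lit 384)),(k6,(nat_lit 384)),(k10,(nat_lit 482)),(k2,(nat_lit 528)),(k9,(nat_lit 632)),(k5,(nat_lit 634))],
    [(k2,(nat_lit 384)),(k1,(nat_lit 412)),(k5,(nat_lit 490)),(k10,(nat_lit 510)),(k6,(nat_lit 680)),(k9,
    (nat_lit 928))],[(k7,(nat_lit 456)),(k8,(nat_lit 482)),(k4,(nat_lit 490)),(k11,(nat_lit 510)),(k3,(nat_lit 614)),
    (k0,(nat_lit 998))]]
    [] k0
    [[k2,k0,k0,k0,k0,k0],[k2,k0,k1,k0,k0,k0],[k2,k0,k0,k0,k1,k0],[k1,k1,k0,k0,k0,k0],[k1,k1,k1,k0,k0,k0],[k1,k1,k0,k1,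
    k0,k0],[k1,k1,k0,k1,k1,k0],[k1,k1,k0,k0,k1,k0],[k1,k1,k0,k0,k0,k1],[k1,k1,k1,k0,k0,k1],[k1,k1,k0,k0,k1,k1],[k1,k0,
    k1,k0,k0,k0],[k2,k0,k1,k0,k1,k0],[k1,k0,k2,k0,k0,k0],[k1,k0,k1,k1,k0,k0],[k1,k0,k1,k0,k1,k0],[k1,k0,k0,k1,k0,k0],
    [k1,k0,k0,k1,k1,k0],[k1,k0,k0,k0,k1,k0],[k2,k0,k0,k0,k2,k0],[k1,k0,k0,k0,k2,k0],[k1,k0,k0,k0,k0,k1],[k1,k0,k1,k0,
    k0,k1],[k1,k0,k0,k1,k0,k1],[k1,k0,k0,k1,k1,k1],[k1,k0,k0,k0,k1,k1],[k1,k0,k0,k0,k2,k1],[k1,k0,k0,k0,k1,k2],[k0,k2,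
    k0,k0,k0,k0],[k0,k1,k1,k0,k0,k0],[k0,k1,k1,k1,k0,k0],[k0,k1,k1,k0,k0,k1],[k0,k1,k0,k0,k1,k0],[k0,k1,k0,k0,k0,k1],
    [k0,k1,k0,k1,k0,k1],[k0,k1,k0,k0,k0,k2],[k0,k0,k2,k0,k0,k0],[k0,k0,k2,k1,k0,k0],[k0,k0,k2,k0,k0,k1],[k0,k0,k1,k1,
    k0,k0],[k0,k0,k1,k1,k1,k0],[k0,k0,k1,k1,k0,k1],[k0,k0,k1,k0,k1,k0],[k0,k0,k1,k0,k0,k1],[k0,k0,k1,k0,k1,k1],[k0,k0,
    k1,k0,k0,k2],[k0,k0,k0,k2,k0,k0],[k0,k0,k0,k1,k1,k0],[k0,k0,k0,k1,k0,k1],[k0,k0,k0,k1,k1,k1],[k0,k0,k0,k1,k0,k2],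
    [k0,k0,k0,k0,k2,k0],[k0,k0,k0,k0,k3,k0],[k0,k0,k0,k0,k1,k1],[k0,k0,k0,k0,k0,k2],[k0,k0,k0,k0,k0,k3]]
    [.contra [z1],.contra [y3,z2,y6,y1,z6],.contra [z3,y1,z3,z5,y3],.ref k178 k8 [(z1,[z1])],.ref k1 k0 [(z1,[y1,z0,
    z0,z0,z1])],.contra [z1,z0,y1],.contra [z1,z0,y1],.ref (nat_lit 209) k6 [(z1,[y3,z0,y3,y1,z3]),(z1,[z1]),(z1,[z0,
    z0,z1])],.ref k1 k3 [(z1,[y1,z0,z0,z0,z1])],.ref k178 k3 [(z1,[y1,z0,z0,z0,z1])],.ref k178 k4 [(z1,[y1,z0,z0,z0,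
    z1])],.contra [y6,z1,y3,z4,z3],.contra [z3,y1,z3,z2,y3],.contra [y3,z1,y3,z1,z3],.ref k193 k8 [(z3,[y3,z1,z3,z1]),
    (z1,[z0,z0,z0,z1]),(z3,[z3,y1,z0,y1])],.contra [y3,z1,y3,z1,z3],.ref k0 k2 [(z1,[z1])],.ref (nat_lit 209) k0 [(z1,
    [y3,z0,y3,y1,z3]),(z1,[z1]),(z1,[z0,z0,z1])],.contra [y3,z1,y3,z1,z3],.contra [y3,z2,y6,y1,z6],.contra [y3,z2,y6,
    y1,z6],.contra [y3,z1,y6,y2,z6],.contra [z3,y1,z0,y1],.ref (nat_lit 213) k8 [(z1,[y1,z0,z1]),(z1,[z0,z0,z0,z1]),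
    (z1,[z1])],.ref k178 k10 [(z1,[y1,z0,z0,z0,z1])],.contra [z1,z0,z1,z1,y1],.contra [y3,z1,y6,y2,z6],.contra [z3,z1,
    z3,z1,y3],.contra [z1],.ref k178 k10 [(z1,[z1])],.contra [y1,z0,z1,z1],.ref (nat_lit 209) k0 [(z1,[z3,z0,y3,y1]),
    (z1,[y1,z0,z0,z0,z1]),(z1,[z0,z0,z1])],.ref k0 k3 [(z1,[z1])],.ref k1 k0 [(z3,[y3,y1,z0,y1,z3])],.contra [z3,z1,
    y3,z1],.ref k178 k3 [(z3,[y3,y1,z0,y1,z3])],.contra [z1],.ref k178 k10 [(z1,[y1,z0,z1,z1])],.contra [z3,z1,z0,y2],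
    .ref k178 k4 [(z1,[z1])],.ref k1 k3 [(z1,[z1])],.ref (nat_lit 209) k6 [(z1,[z3,z0,y3,y1]),(z1,[y1,z0,z0,z0,z1]),
    (z1,[z0,z0,z1])],.contra [y3,z1,y3,z1,z3],.contra [y1,z0,y1,z0,z1],.contra [y1,z0,y1,z0,z1],.contra [z3,z2,z0,y1],
    .contra [y1,z0,z2],.ref k178 k3 [(z1,[z1])],.ref k193 k8 [(z1,[y1,z0,z1]),(z1,[z0,z0,z0,z1]),(z1,[z1])],
    .ref k1 k0 [(z1,[z1])],.ref k0 k3 [(z3,[y3,y1,z0,y1,z3])],.contra [z1],.contra [y1,z1,y3,y1,z3],.contra [y1,z0,y1,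
    z0,z1],.contra [z1],.contra [z1,z1]]),
    .old (.lp [(nat_lit 1216),(nat_lit 1670),(nat_lit 1546),(nat_lit 1564),(nat_lit 1098),(nat_lit 1528)] [(nat_lit 642),
    (nat_lit 642),k0,(nat_lit 830),(nat_lit 477),(nat_lit 477),(nat_lit 468),(nat_lit 468),(nat_lit 701),
    (nat_lit 701),(nat_lit 888),k84] k0 [[k0,k0,k0,k0,k0,k0,k0,k0,k0,k0,k82,k106],[k0,k0,k194,k30],[k30,k0,k0,k0,k0,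
    k0,k0,k0,(nat_lit 1552)],[k194,k0,k0,k0,k0,k0,k0,k0,k76],[],[k0,k0,k0,k0,k0,k0,k0,k124,k0,k0,k0,(nat_lit 212)],
    [k0,k0,k0,k0,k124,k0,k0,k0,k0,k12],[],[k0,k0,k0,k0,k0,k0,k0,k12,k0,k0,k154],[k0,k0,k76,(nat_lit 1552)],[k0,k106,
    k0,k0,(nat_lit 212)],[k0,k82,k0,k0,k0,k0,k0,k0,k0,k154]] (nat_lit 4320) k6
    [[(k8,(nat_lit 1003)),(k0,(nat_lit 1134)),(k3,(nat_lit 1134)),(k7,(nat_lit 1390)),(k4,(nat_lit 1593)),(k11,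
    (nat_lit 1774))],[(k10,(nat_lit 864)),(k1,(nat_lit 1134)),(k9,(nat_lit 1157)),(k6,(nat_lit 1390)),(k5,
    (nat_lit 1411)),(k2,(nat_lit 2052))],[(k10,(nat_lit 864)),(k9,(nat_lit 969)),(k5,(nat_lit 999)),(k1,
    (nat_lit 1134)),(k6,(nat_lit 1202)),(k2,(nat_lit 1640))],[(k11,(nat_lit 864)),(k3,(nat_lit 1640)),(k8,
    (nat_lit 1875)),(k4,(nat_lit 2023)),(k7,(nat_lit 2032)),(k0,(nat_lit 2052))],[(k3,(nat_lit 999)),(k0,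
    (nat_lit 1411)),(k4,(nat_lit 1546)),(k7,(nat_lit 1555)),(k11,(nat_lit 1863)),(k8,(nat_lit 2874))],[(k10,
    (nat_lit 1135)),(k9,(nat_lit 1446)),(k5,(nat_lit 1546)),(k6,(nat_lit 1555)),(k1,(nat_lit 1593)),(k2,
    (nat_lit 2023))],[(k10,(nat_lit 932)),(k9,(nat_lit 1331)),(k1,(nat_lit 1390)),(k6,(nat_lit 1440)),(k5,
    (nat_lit 1555)),(k2,(nat_lit 2032))],[(k3,(nat_lit 1202)),(k8,(nat_lit 1319)),(k0,(nat_lit 1390)),(k7,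
    (nat_lit 1440)),(k4,(nat_lit 1555)),(k11,(nat_lit 1948))],[(k3,(nat_lit 969)),(k8,(nat_lit 1098)),(k0,
    (nat_lit 1157)),(k7,(nat_lit 1331)),(k4,(nat_lit 1446)),(k11,(nat_lit 1727))],[(k10,(nat_lit 911)),(k1,
    (nat_lit 1003)),(k9,(nat_lit 1098)),(k6,(nat_lit 1319)),(k2,(nat_lit 1875)),(k5,(nat_lit 2874))],[(k2,
    (nat_lit 864)),(k10,(nat_lit 1682)),(k9,(nat_lit 1727)),(k1,(nat_lit 1774)),(k5,(nat_lit 1863)),(k6,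
    (nat_lit 1948))],[(k0,(nat_lit 864)),(k3,(nat_lit 864)),(k8,(nat_lit 911)),(k7,(nat_lit 932)),(k4,(nat_lit 1135)),
    (k11,(nat_lit 1682))]]
    [] k0
    [[k2,k0,k0,k0,k0,k0],[k3,k0,k0,k0,k0,k0],[k2,k1,k0,k0,k0,k1],[k2,k0,k1,k0,k0,k0],[k2,k0,k0,k1,k0,k0],[k2,k0,k0,k0,
    k1,k0],[k2,k0,k0,k0,k0,k1],[k1,k1,k0,k0,k0,k0],[k1,k1,k0,k0,k1,k0],[k1,k1,k0,k0,k0,k1],[k1,k1,k0,k0,k1,k1],[k1,k0,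
    k1,k0,k0,k0],[k1,k0,k0,k1,k0,k0],[k1,k0,k0,k2,k0,k0],[k1,k0,k0,k1,k1,k0],[k1,k0,k0,k1,k0,k1],[k1,k0,k0,k0,k1,k0],
    [k1,k0,k1,k0,k1,k0],[k1,k0,k0,k0,k2,k0],[k1,k0,k0,k0,k1,k1],[k1,k0,k0,k0,k0,k1],[k0,k2,k0,k0,k0,k0],[k0,k2,k0,k0,
    k0,k1],[k0,k1,k1,k0,k0,k0],[k0,k1,k1,k0,k1,k1],[k0,k1,k1,k0,k0,k1],[k0,k1,k0,k1,k0,k0],[k0,k1,k0,k1,k1,k1],[k0,k1,
    k0,k1,k0,k1],[k0,k1,k0,k0,k1,k0],[k0,k1,k0,k0,k2,k0],[k0,k1,k0,k0,k2,k1],[k0,k1,k0,k0,k1,k1],[k0,k1,k0,k0,k0,k1],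
    [k0,k2,k0,k0,k0,k2],[k0,k1,k0,k0,k0,k2],[k0,k0,k2,k0,k0,k0],[k0,k0,k1,k1,k0,k0],[k0,k0,k1,k0,k0,k1],[k0,k0,k1,k0,
    k1,k1],[k0,k0,k0,k2,k0,k0],[k0,k0,k0,k2,k1,k0],[k0,k0,k0,k1,k1,k0],[k0,k0,k0,k1,k2,k0],[k0,k0,k0,k1,k1,k1],[k0,k0,
    k0,k1,k0,k1],[k0,k0,k0,k0,k2,k0],[k0,k0,k0,k0,k3,k0],[k0,k0,k0,k0,k2,k1],[k0,k0,k0,k0,k1,k1],[k0,k0,k0,k0,k0,k2]]
    [.contra [z1],.ref k178 k3 [(z6,[z1,y9,y2,y6,z6])],.ref k178 k3 [(z2,[z1,y4,y1,y2,z2])],.ref k178 k3 [(z3,[z1,y5,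
    y1,y4,z3])],.ref k178 k3 [(z4,[z1,y5,y1,y3,z3])],.ref (nat_lit 202) k10 [(z1,[y1,z0,z0,z1]),(z1,[z0,y3,y1,y3,z3]),
    (z1,[z1])],.ref (nat_lit 214) k8 [(z1,[y3,z3,z1]),(z1,[z0,z0,z0,z1]),(z1,[z0,y3,y1,y3,z3])],.contra [y3,z4,z1,z2],
    .ref (nat_lit 213) k10 [(z1,[y1,z0,z0,z1]),(z1,[z0,y3,y1,y3,z3]),(z1,[z1])],.contra [z1,y3,y1,y2,z2],.contra [z3,
    y1,y1,z1],.contra [y1,z1,z0,z2],.contra [y1,z0,z0,y1,z1],.ref k178 k3 [(z2,[z1,y1])],.ref (nat_lit 209) k7 [(z1,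
    [z3,z3,z1,z0,y3]),(z1,[y1,z0,z0,z0,z1]),(z1,[z0,z0,z0,z1])],.contra [y1,z0,z0,y1,z1],.ref k178 k3 [(z3,[z1,y4,y1,
    y3,z3])],.contra [y1,z1,z0,z3],.contra [y1,z1,z0,z4],.ref k1 k2 [(z1,[z1])],.contra [y3,z4,z1,z2],.contra [z1],
    .ref (nat_lit 212) k7 [(z1,[y3,z3,z1]),(z1,[z1]),(z1,[z0,z0,z0,z1])],.ref k178 k10 [(z1,[z1])],.contra [z1,z0,z0,
    y1],.ref (nat_lit 209) k7 [(z1,[y3,z3,z1]),(z1,[z1]),(z1,[z0,z0,z0,z1])],.contra [y1,z0,z0,y1,z1],.contra [z1,z1,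
    z0,z2,y1],.contra [z1,z1,z0,z3,y1],.ref k0 k3 [(z1,[z1])],.contra [z1,z1],.contra [y1,y4,y1,y4,z4],
    .ref k178 k3 [(z1,[y1,y1,z0,y1,z1])],.contra [y3,z4,z1,z2],.ref k48 k2 [(z2,[y3,z6,z2]),(z2,[z1]),(z1,[z0,z0,z0,
    z1])],.ref (nat_lit 212) k2 [(z1,[y3,z3,z1]),(z1,[z1]),(z1,[z0,z0,z0,z1])],.contra [z1],.contra [y3,y1,y1,z1,z3],
    .ref k0 k0 [(z1,[z1])],.contra [z1,z0,z0,y1],.contra [z1],.contra [z3,z8,z2,z7,y6],.ref k178 k3 [(z1,[z1])],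
    .contra [z3,z7,z1,z5,y3],.ref k0 k3 [(z1,[y1,y1,z0,y1,z1])],.contra [y1,z0,z0,y1,z1],.contra [y1,z0,z0,z2],
    .contra [z1,z2,z0,z1],.contra [z1,z1],.ref k178 k0 [(z1,[z1])],.contra [z1]]),
    .old (.lp [(nat_lit 378),(nat_lit 338),(nat_lit 362),(nat_lit 256),(nat_lit 320),(nat_lit 262)] [k60,k60,k80,k80,k136,
    k0,k121,k121,k4,k174,k118,k118] k0 [[k0,k0,k28,k0,k0,k0,k0,k0,k0,k0,k58],[k0,k0,k0,k0,k0,k0,k30],[k0,k0,k0,k0,k0,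
    k90,k0,k0,k0,k30],[k0,k28,k0,k0,k0,k0,k0,k0,k0,(nat_lit 302)],[k0,k0,k0,k90,k0,k0,k0,k0,k0,k0,k26,k44],[k0,k0,k0,
    k0,k0,k0,k0,k4],[k0,k0,k0,k0,k4,k0,k0,k0,k64],[k30],[k0,k0,(nat_lit 302),k30],[k0,k0,k0,k0,k0,k0,k0,k64],[k0,k0,
    k0,k0,k0,k44],[k0,k58,k0,k0,k0,k26]] (nat_lit 960) k6
    [[(k4,(nat_lit 276)),(k0,(nat_lit 320)),(k11,(nat_lit 320)),(k3,(nat_lit 358)),(k7,(nat_lit 361)),(k8,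
    (nat_lit 434))],[(k9,(nat_lit 264)),(k1,(nat_lit 320)),(k10,(nat_lit 320)),(k6,(nat_lit 347)),(k2,(nat_lit 358)),
    (k5,(nat_lit 410))],[(k9,(nat_lit 214)),(k6,(nat_lit 297)),(k1,(nat_lit 358)),(k10,(nat_lit 358)),(k2,
    (nat_lit 366)),(k5,(nat_lit 418))],[(k4,k192),(k7,(nat_lit 297)),(k0,(nat_lit 358)),(k3,(nat_lit 366)),(k8,
    (nat_lit 384)),(k11,(nat_lit 602))],[(k8,k192),(k4,(nat_lit 362)),(k0,(nat_lit 410)),(k11,(nat_lit 410)),(k3,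
    (nat_lit 418)),(k7,(nat_lit 467))],[(k2,k192),(k9,k192),(k10,(nat_lit 200)),(k6,(nat_lit 241)),(k1,(nat_lit 276)),
    (k5,(nat_lit 362))],[(k9,(nat_lit 203)),(k6,(nat_lit 252)),(k10,(nat_lit 285)),(k2,(nat_lit 297)),(k1,
    (nat_lit 361)),(k5,(nat_lit 467))],[(k11,k195),(k4,(nat_lit 241)),(k7,(nat_lit 252)),(k3,(nat_lit 297)),(k0,
    (nat_lit 347)),(k8,(nat_lit 373))],[(k4,k192),(k7,(nat_lit 203)),(k11,(nat_lit 206)),(k3,(nat_lit 214)),(k0,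
    (nat_lit 264)),(k8,(nat_lit 384))],[(k5,k192),(k6,(nat_lit 373)),(k10,(nat_lit 376)),(k2,(nat_lit 384)),(k9,
    (nat_lit 384)),(k1,(nat_lit 434))],[(k6,k195),(k9,(nat_lit 206)),(k10,(nat_lit 262)),(k1,(nat_lit 320)),(k5,
    (nat_lit 410)),(k2,(nat_lit 602))],[(k4,(nat_lit 200)),(k11,(nat_lit 262)),(k7,(nat_lit 285)),(k0,(nat_lit 320)),
    (k3,(nat_lit 358)),(k8,(nat_lit 376))]]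
    [] k0
    [[k2,k0,k0,k0,k0,k0],[k1,k1,k0,k0,k0,k0],[k1,k0,k1,k0,k0,k0],[k1,k0,k1,k0,k1,k0],[k1,k0,k0,k1,k0,k0],[k1,k0,k0,k1,
    k0,k1],[k1,k0,k0,k0,k1,k0],[k1,k0,k0,k0,k0,k1],[k1,k0,k1,k0,k0,k1],[k1,k0,k0,k0,k0,k2],[k0,k2,k0,k0,k0,k0],[k0,k1,
    k1,k0,k0,k0],[k0,k1,k1,k1,k0,k0],[k0,k1,k0,k1,k0,k0],[k0,k1,k0,k2,k0,k0],[k0,k1,k0,k1,k1,k0],[k0,k1,k1,k1,k1,k0],
    [k0,k1,k0,k0,k1,k0],[k0,k1,k1,k0,k1,k0],[k0,k1,k0,k1,k0,k1],[k0,k1,k0,k0,k1,k1],[k0,k1,k1,k0,k1,k1],[k0,k0,k2,k0,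
    k0,k0],[k0,k0,k2,k0,k1,k0],[k0,k0,k1,k1,k0,k0],[k0,k0,k1,k1,k0,k1],[k0,k0,k1,k0,k1,k0],[k0,k0,k2,k0,k2,k0],[k0,k0,
    k1,k1,k1,k0],[k0,k0,k1,k2,k1,k0],[k0,k0,k1,k1,k1,k1],[k0,k0,k1,k0,k2,k0],[k0,k0,k1,k0,k1,k1],[k0,k0,k1,k0,k1,k2],
    [k0,k0,k1,k0,k0,k1],[k0,k0,k1,k0,k0,k2],[k0,k0,k0,k2,k0,k0],[k0,k0,k0,k3,k0,k0],[k0,k0,k0,k2,k1,k0],[k0,k0,k0,k2,
    k0,k1],[k0,k0,k0,k1,k1,k0],[k0,k0,k0,k1,k1,k1],[k0,k0,k0,k1,k0,k1],[k0,k0,k0,k1,k0,k2],[k0,k0,k0,k0,k2,k0],[k0,k0,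
    k0,k0,k1,k1],[k0,k0,k0,k0,k1,k2],[k0,k0,k0,k0,k0,k2],[k0,k0,k0,k0,k0,k3]]
    [.contra [z1],.contra [y2,z1,z2,z1],.contra [y1,z0,y1,z0,z1],.contra [y1,z0,y1,z0,z1],.contra [y1,z0,y1,z0,z1],
    .ref k178 k0 [(z1,[y1,z0,y1,y1,z1])],.contra [y1,z0,y1,z0,z1],.ref k0 k0 [(z1,[z3,y1,z0,z1])],
    .ref (nat_lit 213) k0 [(z1,[z1,z0,z1,z0,y1]),(z1,[z0,z1]),(z1,[y1,z0,z0,z0,z1])],.contra [z1,z0,z0,z1],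
    .contra [z1],.contra [y1,z0,z2,z1],.ref k1 k2 [(z1,[y1,z0,z0,z0,z1])],.ref k193 k0 [(z1,[y1,z0,z1]),(z1,[z0,z1]),
    (z1,[z1])],.ref (nat_lit 202) k0 [(z1,[y1,z0,z1]),(z1,[z0,z1]),(z1,[z1])],.ref (nat_lit 213) k0 [(z1,[y1,z0,z1]),
    (z1,[z0,z1]),(z1,[z1])],.ref k0 k0 [(z1,[y3,y1,z0,z1,z3])],.ref k0 k3 [(z1,[z1])],.ref k178 k0 [(z1,[z1,z0,y1,
    y1])],.contra [z1,z0,y1],.contra [z1,z0,y1],.contra [z1,z0,y1],.contra [z1],.ref (nat_lit 212) k4 [(z1,[y3,y1,y3,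
    z0,z3]),(z1,[z1]),(z1,[z0,z0,z1])],.contra [y1,z0,y1,z0,z1],.ref (nat_lit 213) k11 [(z1,[y1,z0,z1]),(z1,[z0,z1]),
    (z1,[z1])],.contra [y1,z0,y1,z0,z1],.ref k48 k4 [(z2,[y3,y2,y6,z0,z6]),(z2,[z1]),(z1,[z0,z0,z1])],.contra [z1,z1,
    z1,z0,y1],.ref k56 k4 [(z1,[z3,z1,z3,z0,y3]),(z1,[y3,y2,y6,z0,z6]),(z1,[z0,z0,z1])],.contra [z2,z1,z2,z1,y2],
    .ref k178 k0 [(z2,[z1,z0,z0,y1])],.ref (nat_lit 209) k5 [(z1,[y3,y1,y3,z0,z3]),(z1,[z1]),(z1,[z0,z0,z1])],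
    .contra [z1,z0,z0,z1],.ref k0 k0 [(z1,[z1])],.contra [y1,z0,z4,z1],.contra [z1],.ref k56 k4 [(z1,[z1]),(z1,[y1,y1,
    y3,z0,z3]),(z1,[z0,z0,z1])],.ref (nat_lit 214) k1 [(z1,[y3,y1,y3,z0,z3]),(z1,[z0,z0,z1]),(z1,[z0,z1])],
    .ref (nat_lit 202) k11 [(z1,[y1,z0,z1]),(z1,[z0,z1]),(z1,[z1])],.contra [y1,z0,y1,z0,z1],.ref k0 k0 [(z1,[y3,y1,
    y3,y2,z3])],.ref k1 k2 [(z1,[y1,z0,y1,y1,z1])],.contra [z1,z0,z0,z1],.contra [z1],.ref k178 k0 [(z1,[z1])],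
    .contra [z1,z0,z0,z1],.contra [y1,z0,z2],.contra [z2,z1,z0,z3]]),
    .old (.lp [(nat_lit 1006),(nat_lit 990),(nat_lit 884),(nat_lit 778),(nat_lit 1000),(nat_lit 1096)] [k194,k194,
    (nat_lit 202),(nat_lit 202),(nat_lit 510),k0,(nat_lit 308),(nat_lit 308),k70,(nat_lit 324),k149,k149] k0 [[k0,k0,
    k0,k0,k0,k0,k24,k0,k0,k0,k46],[k0,k0,k0,k106],[k106,k0,k0,k0,(nat_lit 228),k106],[k0,k0,k0,k0,k0,k0,k0,k0,k88,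
    (nat_lit 748)],[k0,k0,k0,k106,k0,k0,k0,k0,k0,k0,k0,k124],[k0,k0,k0,(nat_lit 228),k0,k0,k0,k16],[k0,k0,k0,k0,k16,
    k0,k0,k0,k124],[k0,k24,k0,k0,k0,k0,k0,k0,(nat_lit 340)],[k0,k0,(nat_lit 748),k0,k0,k0,k0,k0,k0,k0,k34],[k0,k0,k88,
    k0,k0,k0,(nat_lit 340),k124],[k0,k0,k0,k0,k0,k124],[k0,k46,k0,k0,k0,k0,k0,k0,k0,k34]] (nat_lit 2880) k6
    [[(k4,(nat_lit 690)),(k0,(nat_lit 960)),(k3,(nat_lit 998)),(k7,(nat_lit 1016)),(k11,(nat_lit 1051)),(k8,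
    (nat_lit 1096))],[(k9,(nat_lit 852)),(k6,(nat_lit 892)),(k1,(nat_lit 960)),(k2,(nat_lit 998)),(k10,
    (nat_lit 1051)),(k5,(nat_lit 1306))],[(k9,(nat_lit 868)),(k2,(nat_lit 884)),(k6,(nat_lit 908)),(k1,(nat_lit 998)),
    (k10,(nat_lit 1089)),(k5,(nat_lit 1192))],[(k4,(nat_lit 576)),(k7,(nat_lit 656)),(k3,(nat_lit 884)),(k0,
    (nat_lit 998)),(k8,(nat_lit 1210)),(k11,(nat_lit 1791))],[(k8,(nat_lit 576)),(k4,(nat_lit 1112)),(k11,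
    (nat_lit 1157)),(k3,(nat_lit 1192)),(k7,(nat_lit 1192)),(k0,(nat_lit 1306))],[(k2,(nat_lit 576)),(k6,
    (nat_lit 576)),(k9,(nat_lit 576)),(k10,(nat_lit 611)),(k1,(nat_lit 690)),(k5,(nat_lit 1112))],[(k2,(nat_lit 656)),
    (k6,(nat_lit 762)),(k9,(nat_lit 762)),(k10,(nat_lit 937)),(k1,(nat_lit 1016)),(k5,(nat_lit 1192))],[(k4,
    (nat_lit 576)),(k7,(nat_lit 762)),(k11,(nat_lit 813)),(k0,(nat_lit 892)),(k3,(nat_lit 908)),(k8,(nat_lit 1356))],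
    [(k4,(nat_lit 576)),(k11,(nat_lit 581)),(k7,(nat_lit 762)),(k0,(nat_lit 852)),(k3,(nat_lit 868)),(k8,
    (nat_lit 1124))],[(k5,(nat_lit 576)),(k1,(nat_lit 1096)),(k9,(nat_lit 1124)),(k10,(nat_lit 1175)),(k2,
    (nat_lit 1210)),(k6,(nat_lit 1356))],[(k9,(nat_lit 581)),(k6,(nat_lit 813)),(k1,(nat_lit 1051)),(k10,
    (nat_lit 1130)),(k5,(nat_lit 1157)),(k2,(nat_lit 1791))],[(k4,(nat_lit 611)),(k7,(nat_lit 937)),(k0,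
    (nat_lit 1051)),(k3,(nat_lit 1089)),(k11,(nat_lit 1130)),(k8,(nat_lit 1175))]]
    [] k0
    [[k2,k0,k0,k0,k0,k0],[k2,k0,k0,k1,k0,k0],[k1,k1,k0,k0,k0,k0],[k1,k1,k0,k1,k0,k0],[k1,k0,k1,k0,k0,k0],[k1,k0,k1,k1,
    k0,k0],[k1,k0,k1,k0,k1,k0],[k1,k0,k0,k1,k0,k0],[k1,k0,k0,k2,k0,k0],[k1,k0,k0,k0,k1,k0],[k1,k0,k0,k1,k1,k0],[k1,k0,
    k0,k0,k1,k1],[k1,k0,k0,k0,k0,k1],[k0,k2,k0,k0,k0,k0],[k0,k3,k0,k0,k0,k0],[k0,k2,k1,k0,k0,k0],[k0,k2,k0,k1,k0,k0],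
    [k0,k1,k1,k0,k0,k0],[k0,k1,k1,k1,k0,k0],[k0,k1,k0,k1,k0,k0],[k0,k1,k0,k2,k0,k0],[k0,k1,k1,k1,k1,k0],[k0,k1,k0,k0,
    k1,k0],[k0,k1,k1,k0,k1,k0],[k0,k1,k1,k0,k0,k1],[k0,k1,k0,k1,k0,k1],[k0,k1,k1,k0,k1,k1],[k0,k0,k2,k0,k0,k0],[k0,k0,
    k2,k0,k1,k0],[k0,k0,k1,k1,k0,k0],[k0,k0,k1,k2,k0,k0],[k0,k0,k1,k1,k0,k1],[k0,k0,k1,k0,k1,k0],[k0,k0,k2,k0,k2,k0],
    [k0,k0,k1,k1,k1,k0],[k0,k0,k1,k2,k1,k0],[k0,k0,k1,k1,k1,k1],[k0,k0,k1,k0,k2,k0],[k0,k0,k1,k0,k1,k1],[k0,k0,k1,k0,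
    k0,k1],[k0,k0,k0,k2,k0,k0],[k0,k0,k0,k3,k0,k0],[k0,k0,k0,k2,k0,k1],[k0,k0,k0,k1,k1,k0],[k0,k0,k0,k1,k1,k1],[k0,k0,
    k0,k1,k0,k1],[k0,k0,k0,k0,k2,k0],[k0,k0,k0,k0,k1,k1],[k0,k0,k0,k0,k0,k2]]
    [.contra [z1],.ref k56 k4 [(z1,[z3,y2]),(z1,[y3,z1,y3,z3]),(z1,[z0,z0,z1])],.ref k178 k8 [(z1,[z1])],
    .ref (nat_lit 209) k5 [(z1,[z3,y1,y3]),(z1,[y1,z0,z0,z1]),(z1,[z0,z0,z1])],.contra [y1,z0,y1,z1],.contra [y1,z0,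
    y1,z1],.contra [y1,z0,y1,z1],.contra [y1,z0,y1,z1],.ref k56 k4 [(z2,[z3,y1]),(z2,[y3,y1,y6,z6]),(z1,[z0,z0,z1])],
    .contra [y1,z0,y1,z1],.contra [y1,z0,y1,z1],.ref k1 k2 [(z1,[z1])],.ref k178 k2 [(z1,[z1])],.contra [z1],
    .ref k178 k2 [(z3,[y1,z1,z3])],.ref (nat_lit 216) k2 [(z1,[z0,z1]),(z1,[z0,z0,z1]),(z1,[z1,z0,y2])],
    .ref (nat_lit 215) k5 [(z1,[z1,z0,y2]),(z1,[y3,y1,z3,z3]),(z1,[z0,z0,z1])],.ref k178 k10 [(z1,[z1])],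
    .ref k1 k2 [(z1,[y1,z0,z0,z1])],.ref k193 k0 [(z1,[y1,z0,z1]),(z1,[z0,z1]),(z1,[z1])],.ref (nat_lit 202) k0 [(z1,
    [y1,z0,z1]),(z1,[z0,z1]),(z1,[z1])],.ref k178 k2 [(z1,[y1,z0,z0,z1])],.ref k0 k3 [(z1,[z1])],
    .ref (nat_lit 209) k4 [(z1,[y3,y1,y3,z3]),(z1,[z1]),(z1,[z0,z0,z1])],.contra [z1,z0,y1],.contra [z1,z0,y1],
    .contra [z1,z0,y1],.contra [z1],.ref (nat_lit 212) k4 [(z1,[y3,y1,y3,z3]),(z1,[z1]),(z1,[z0,z0,z1])],.contra [y1,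
    z0,y1,z1],.ref (nat_lit 214) k3 [(z1,[y3,y1,y3,z3]),(z1,[z0,z0,z1]),(z1,[z0,z1])],.ref (nat_lit 213) k11 [(z1,[y1,
    z0,z1]),(z1,[z0,z1]),(z1,[z1])],.contra [y1,z0,y1,z1],.ref k48 k4 [(z2,[y3,y2,y6,z6]),(z2,[z1]),(z1,[z0,z0,z1])],
    .contra [z1,z1,z1,y1],.ref k56 k4 [(z1,[z3,z1,z3,y3]),(z1,[y3,y2,y6,z6]),(z1,[z0,z0,z1])],.ref k178 k8 [(z1,[y1,
    z0,z0,z1])],.ref (nat_lit 212) k5 [(z1,[y3,y1,y3,z3]),(z1,[z1]),(z1,[z0,z0,z1])],.ref (nat_lit 209) k5 [(z1,[y3,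
    y1,y3,z3]),(z1,[z1]),(z1,[z0,z0,z1])],.ref k0 k0 [(z1,[z1])],.contra [z1],.ref k56 k4 [(z1,[z1]),(z1,[y1,y1,y3,
    z3]),(z1,[z0,z0,z1])],.ref (nat_lit 202) k11 [(z1,[y1,z0,z1]),(z1,[z0,z1]),(z1,[z1])],.contra [y1,z0,y1,z1],
    .ref k1 k0 [(z1,[z1])],.ref k193 k11 [(z1,[y1,z0,z1]),(z1,[z0,z1]),(z1,[z1])],.contra [z1],.ref k178 k0 [(z1,
    [z1])],.contra [y1,z0,z2]]),
    .geo true z3 k4 [(z2,z6),(z2,y3),(z4,y6),(z2,z0),(z0,z3),(z2,z0)] [(z1,[z1]),(z1,[z0,z1]),(z1,[z0,z0,z1]),(z1,[z0,z0,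
    z0,z1]),(z1,[]),(z1,[y1,y1,y1,y1,
    z3])] z0 (Int.ofNat (nat_lit 699051)) (.s (.s (.l k1) (.s (.l k1) (.l k1))) (.s (.s (.l k1) (.l k1)) (.l k1))) [],
    .geo true z2 k5 [(y4,z6),(z4,y4),(z4,y3),(z4,y2),(z0,z1),(z0,z2)] [(z1,[z2]),(z1,[z0,z2]),(z1,[z0,z0,z1]),(z1,[z0,z0,
    z0,z2]),(z1,[y2,y2,y1,y2,z2]),(z1,
    [])] (Int.ofNat (nat_lit 699050)) (Int.ofNat (nat_lit 1048576)) (.s (.l k1) (.s (.l k1) (.l k1))) [],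
    .geo true z1 k5 [(z0,z2),(z2,y6),(z0,z2),(z0,z3),(z2,y2),(z0,z1)] [(z1,[z1]),(z1,[z0,z1]),(z1,[z0,z0,z1]),(z1,[z0,z0,
    z0,z1]),(z1,[y1,y1,y1,y1,z1]),(z1,
    [])] z0 (Int.ofNat (nat_lit 349526)) (.s (.s (.s (.s (.s (.l k2) (.l k1)) (.l k1)) (.l k1)) (.s (.l k1) (.l k1))) (.s (.l k1) (.l k1))) [⟨z0,
    z1,[[k0,k1],[k2,k3],[k4,k5]],.bnd k0⟩],
    .old (.lp [(nat_lit 886),(nat_lit 532),(nat_lit 754),(nat_lit 494),(nat_lit 532),(nat_lit 634)] [(nat_lit 242),k0,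
    (nat_lit 298),(nat_lit 298),k124,(nat_lit 250),(nat_lit 317),(nat_lit 317),(nat_lit 298),(nat_lit 298),
    (nat_lit 247),(nat_lit 247)] k0 [[k0,k0,k0,k0,k0,k0,k12,k0,k0,k0,k0,k70],[k0,k0,k0,k100,k0,k0,k0,k0,k0,k0,k0,k74],
    [k100,k0,k0,k0,k0,k0,k0,k0,k0,k8],[k0,k0,k0,k0,k66,k66],[k0,k0,k66,k0,k0,k0,(nat_lit 322),k78],[k0,k0,k66,k0,k0,
    k0,k0,k0,k0,k0,k0,k180],[k0,k0,k0,k0,k0,k78,k0,k0,k108],[k0,k12,k0,k0,k0,(nat_lit 322)],[k0,k0,k0,k8,k0,k0,k0,k0,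
    k0,k0,(nat_lit 446)],[k0,k0,k0,k0,k0,k0,k0,k108,k0,k0,(nat_lit 314)],[k74,k70,k0,k0,k180],[k0,k0,k0,k0,k0,k0,k0,
    k0,(nat_lit 314),(nat_lit 446)]] (nat_lit 1920) k6
    [[(k8,(nat_lit 384)),(k11,(nat_lit 567)),(k7,(nat_lit 811)),(k3,(nat_lit 900)),(k0,(nat_lit 960)),(k4,
    (nat_lit 1184))],[(k6,(nat_lit 569)),(k10,(nat_lit 569)),(k9,(nat_lit 576)),(k2,(nat_lit 588)),(k5,(nat_lit 736)),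
    (k1,(nat_lit 960))],[(k2,(nat_lit 432)),(k10,(nat_lit 509)),(k6,(nat_lit 525)),(k9,(nat_lit 532)),(k5,
    (nat_lit 580)),(k1,(nat_lit 900))],[(k3,(nat_lit 432)),(k8,(nat_lit 524)),(k7,(nat_lit 579)),(k11,(nat_lit 583)),
    (k0,(nat_lit 588)),(k4,(nat_lit 772))],[(k7,(nat_lit 495)),(k3,(nat_lit 580)),(k8,(nat_lit 580)),(k11,
    (nat_lit 639)),(k4,(nat_lit 688)),(k0,(nat_lit 736))],[(k9,(nat_lit 384)),(k6,(nat_lit 609)),(k5,(nat_lit 688)),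
    (k10,(nat_lit 757)),(k2,(nat_lit 772)),(k1,(nat_lit 1184))],[(k10,(nat_lit 384)),(k5,(nat_lit 495)),(k2,
    (nat_lit 579)),(k9,(nat_lit 591)),(k1,(nat_lit 811)),(k6,(nat_lit 816))],[(k11,(nat_lit 456)),(k8,(nat_lit 513)),
    (k3,(nat_lit 525)),(k0,(nat_lit 569)),(k4,(nat_lit 609)),(k7,(nat_lit 816))],[(k4,(nat_lit 384)),(k3,
    (nat_lit 532)),(k0,(nat_lit 576)),(k11,(nat_lit 583)),(k7,(nat_lit 591)),(k8,(nat_lit 640))],[(k1,(nat_lit 384)),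
    (k6,(nat_lit 513)),(k2,(nat_lit 524)),(k5,(nat_lit 580)),(k9,(nat_lit 640)),(k10,(nat_lit 897))],[(k6,
    (nat_lit 456)),(k1,(nat_lit 567)),(k2,(nat_lit 583)),(k9,(nat_lit 583)),(k5,(nat_lit 639)),(k10,(nat_lit 1080))],
    [(k7,(nat_lit 384)),(k3,(nat_lit 509)),(k0,(nat_lit 569)),(k4,(nat_lit 757)),(k8,(nat_lit 897)),(k11,
    (nat_lit 1080))]]
    [] k0
    [[k1,k1,k0,k0,k0,k0],[k1,k0,k0,k1,k0,k0],[k1,k0,k0,k1,k1,k0],[k1,k0,k0,k1,k0,k1],[k1,k0,k0,k0,k1,k0],[k1,k1,k0,k0,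
    k1,k0],[k1,k0,k1,k0,k1,k0],[k1,k0,k1,k1,k1,k0],[k1,k0,k0,k0,k2,k0],[k1,k0,k0,k0,k1,k1],[k1,k0,k0,k0,k0,k1],[k1,k1,
    k0,k0,k0,k1],[k0,k2,k0,k0,k0,k0],[k0,k3,k0,k0,k0,k0],[k0,k4,k0,k0,k0,k0],[k0,k2,k1,k0,k0,k0],[k0,k2,k0,k1,k0,k0],
    [k0,k2,k0,k0,k1,k0],[k0,k2,k0,k0,k0,k1],[k0,k1,k1,k0,k0,k0],[k0,k1,k1,k1,k0,k0],[k0,k1,k1,k0,k1,k0],[k0,k1,k0,k1,
    k0,k0],[k0,k1,k0,k1,k1,k0],[k0,k1,k0,k1,k0,k1],[k0,k1,k0,k0,k1,k0],[k0,k1,k0,k0,k2,k0],[k0,k1,k0,k0,k0,k1],[k0,k1,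
    k0,k0,k1,k1],[k0,k0,k2,k0,k0,k0],[k0,k0,k2,k1,k0,k0],[k0,k0,k2,k0,k1,k0],[k0,k0,k1,k1,k0,k0],[k0,k0,k1,k1,k1,k0],
    [k0,k0,k1,k1,k0,k1],[k0,k0,k1,k0,k1,k0],[k0,k0,k1,k0,k2,k0],[k0,k0,k1,k0,k0,k1],[k0,k0,k0,k2,k0,k0],[k0,k0,k0,k2,
    k0,k1],[k0,k0,k0,k1,k1,k0],[k0,k0,k0,k1,k2,k0],[k0,k0,k0,k1,k0,k1],[k0,k0,k0,k2,k0,k2],[k0,k0,k0,k1,k1,k1],[k0,k0,
    k0,k0,k2,k0],[k0,k0,k0,k0,k1,k1]]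
    [.contra [y1,z1,z2],.ref k0 k2 [(z1,[z1])],.ref (nat_lit 219) k4 [(z1,[z2,y1,z1,y2,y1]),(z1,[y1,z0,y1,z1,z1]),(z1,
    [y2,z0,y2,z1,z2]),(z1,[z0,z1,z0,z1])],.ref k0 k0 [(z1,[y1,z0,y1,z0,z1])],.ref (nat_lit 220) k10 [(z1,[z0,z0,y2,
    z1]),(z1,[y2,z1,z5,y1,z1]),(z1,[z1,y1,y2]),(z1,[z1,y1,y3])],.ref k178 k2 [(z1,[z1,z0,y1])],.contra [z1,y1,z0,y1],
    .contra [z2,z0,z1,y1,y1],.ref k178 k2 [(z2,[z1,z1])],.ref k1 k2 [(z1,[z1])],.ref k178 k2 [(z1,[z1])],.contra [z1,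
    y1,y1],.contra [z1],.ref k178 k10 [(z1,[z1,z0,y2,z1])],.contra [y1,z2,z4],.contra [y1,z2,z2,z1],.contra [y1,y1,z1,
    y1,z1],.contra [y2,z0,z3,y1,z1],.ref k0 k0 [(z1,[z1,z0,y2,z1])],.ref k178 k10 [(z1,[z1])],.ref k1 k2 [(z1,[y1,z0,
    z0,z0,z1])],.ref k0 k0 [(z1,[z1,z0,y1])],.contra [y1,y1,z1,y1,z1],.contra [y1,y1,z1,y1,z1],.contra [y1,y1,z0,y1,
    z1],.contra [y2,z0,z3,y1,z1],.contra [y1,y1,z1,y1,z1],.contra [y2,z0,z1,y1,z1],.contra [z1,z0,y1],.contra [y1,z2,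
    z0,z2],.ref k178 k2 [(z2,[y1,z1,y1,z1,z1])],.ref (nat_lit 219) k4 [(z1,[y2,y1,y1,z0,z1]),(z1,[z1]),(z1,[z2,z0,z0,
    y1]),(z1,[z0,z1,z0,z1])],.contra [y1,y1,y1,z0,z1],.contra [y1,y1,y1,z0,z1],.ref k178 k2 [(z1,[y1,z0,y1,z0,z1])],
    .contra [y2,z0,y1,z1,z1],.contra [z1,z0,z0,y1],.ref k0 k0 [(z1,[z1])],.contra [z1],.ref (nat_lit 218) k2 [(z1,[z2,
    z7,z4,z4,y4]),(z1,[y1,y2,z1,y2,z2]),(z1,[y2,y4,y4,y1,z4]),(z1,[z2,z1,z1,z1,y1])],.contra [y1,y1,z1,y1,z1],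
    .contra [y1,y1,z1,y1,z1],.contra [y1,y1,z0,y1,z1],.contra [y1,y2,y2,y2,z2],.contra [y1,y1,z0,y1,z1],.contra [z1],
    .contra [y1,y1,z0,y1,z1]]),
    .geo true z2 k5 [(y8,z6),(z4,y2),(z6,y3),(z4,y2),(z2,y1),(z0,z2)] [(z1,[z2]),(z1,[z0,z2]),(z1,[z0,z0,z1]),(z1,[z0,z0,
    z0,z2]),(z1,[y2,y2,y1,y2,z2]),(z1,
    [])] (Int.ofNat (nat_lit 1398101)) (Int.ofNat (nat_lit 2097152)) (.s (.s (.s (.l k1) (.s (.l k1) (.l k1))) (.s (.l k1) (.l k1))) (.s (.s (.l k1) (.l k1)) (.s (.s (.l k1) (.l k1)) (.s (.l k1) (.s (.l k1) (.s (.l k1) (.l k2))))))) [⟨z2,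
    z1,[[k0,k1],[k2,k3],[k4,k5]],.bnd k0⟩],
    .old (.lp [k190,k156,k188,k134,k160,k130] [k40,k40,k57,k57,k0,k82,k86,k50,k84,k26,k58,k82] k0 [[k0,k0,k0,k0,k0,k0,k0,
    k0,k0,k0,k10,k14],[k0,k0,k0,k36,k0,k0,k16],[k36],[k0,k0,k0,k0,k0,k0,k0,k0,k4,k6],[k0,k0,k0,k0,k0,k0,k148,k30],[k0,
    k0,k0,k0,k0,k0,k0,k0,k0,k0,k0,k66],[k0,k0,k0,k0,k0,k30,k0,k0,k0,k4],[k16,k0,k0,k0,k0,k148],[k0,k0,k6,k0,k0,k0,k0,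
    k4,k0,k0,k50],[k0,k0,k4,k0,k0,k0,k0,k0,k0,k0,k6],[k0,k14,k0,k0,k66],[k0,k10,k0,k0,k0,k0,k0,k0,k6,
    k50]] (nat_lit 480) k6
    [[(k8,k96),(k11,k142),(k0,k180),(k7,k180),(k3,k187),(k4,(nat_lit 296))],[(k10,k158),(k6,k160),(k2,k173),(k1,k180),
    (k5,k184),(k9,(nat_lit 204))],[(k2,k120),(k6,k127),(k5,k131),(k10,k165),(k9,k171),(k1,k187)],[(k3,k120),(k8,k133),
    (k11,k137),(k7,k163),(k0,k173),(k4,(nat_lit 213))],[(k8,k98),(k11,k102),(k3,k131),(k7,k138),(k0,k184),(k4,k188)],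
    [(k9,k96),(k6,k154),(k5,k188),(k10,(nat_lit 212)),(k2,(nat_lit 213)),(k1,(nat_lit 296))],[(k10,k96),(k5,k138),(k2,
    k163),(k1,k180),(k9,(nat_lit 224)),(k6,(nat_lit 282))],[(k8,k96),(k11,k102),(k3,k127),(k4,k154),(k0,k160),(k7,
    (nat_lit 282))],[(k4,k96),(k8,k160),(k11,k166),(k3,k171),(k0,(nat_lit 204)),(k7,(nat_lit 224))],[(k1,k96),(k6,
    k96),(k5,k98),(k2,k133),(k10,k134),(k9,k160)],[(k5,k102),(k6,k102),(k2,k137),(k1,k142),(k9,k166),(k10,k180)],[(k7,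
    k96),(k8,k134),(k0,k158),(k3,k165),(k11,k180),(k4,(nat_lit 212))]]
    [] k0
    [[k2,k0,k0,k0,k0,k0],[k1,k1,k0,k0,k0,k0],[k1,k0,k0,k1,k0,k0],[k1,k0,k0,k1,k0,k1],[k1,k0,k0,k0,k1,k0],[k1,k1,k0,k0,
    k1,k0],[k1,k0,k1,k0,k1,k0],[k1,k0,k1,k0,k1,k1],[k1,k0,k0,k0,k2,k0],[k1,k0,k0,k0,k1,k1],[k1,k0,k0,k0,k0,k1],[k0,k2,
    k0,k0,k0,k0],[k0,k3,k0,k0,k0,k0],[k0,k2,k1,k0,k0,k0],[k0,k2,k0,k1,k0,k0],[k0,k2,k0,k0,k1,k0],[k0,k2,k0,k0,k0,k1],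
    [k0,k1,k1,k0,k0,k0],[k0,k1,k1,k1,k0,k0],[k0,k1,k1,k0,k1,k0],[k0,k1,k0,k1,k0,k0],[k0,k1,k0,k1,k0,k1],[k0,k1,k0,k0,
    k1,k0],[k0,k1,k0,k1,k1,k0],[k0,k1,k0,k0,k2,k0],[k0,k1,k0,k0,k1,k1],[k0,k1,k0,k0,k0,k1],[k0,k0,k2,k0,k0,k0],[k0,k0,
    k2,k0,k1,k0],[k0,k0,k1,k1,k0,k0],[k0,k0,k1,k1,k1,k0],[k0,k0,k1,k1,k0,k1],[k0,k0,k1,k1,k1,k1],[k0,k0,k1,k0,k1,k0],
    [k0,k0,k2,k0,k2,k0],[k0,k0,k1,k0,k2,k0],[k0,k0,k1,k0,k1,k1],[k0,k0,k1,k0,k0,k1],[k0,k0,k0,k1,k1,k0],[k0,k0,k0,k1,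
    k1,k1],[k0,k0,k0,k1,k0,k1],[k0,k0,k0,k2,k0,k2],[k0,k0,k0,k1,k0,k2],[k0,k0,k0,k0,k2,k0],[k0,k0,k0,k0,k2,k1],[k0,k0,
    k0,k0,k1,k1],[k0,k0,k0,k0,k0,k2]]
    [.contra [z1],.contra [y1,z1,z1],.ref k0 k2 [(z1,[z1])],.ref k178 k4 [(z1,[y1,y1,y1,y1,z2])],
    .ref (nat_lit 222) k6 [(z1,[y2,y1]),(z1,[z1]),(z1,[z2,y1,y1,y2,z2]),(z1,[z0,z1,z0,z1])],.ref k0 k2 [(z1,[z1,y1,y1,
    y1,z1])],.contra [z1,y1,z0,y1],.contra [z2,y1,z0,y2],.ref k0 k2 [(z2,[z1,y1,y1,y2,z2])],.ref k1 k2 [(z1,[z1])],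
    .ref k178 k2 [(z1,[z1])],.contra [z1],.ref k178 k10 [(z1,[z1,z0,y1,z1])],.contra [y1,z2,z1,z1],.ref k178 k4 [(z1,
    [z1,z0,y1,z1])],.contra [y2,z1,z2],.contra [y1,z0,z1],.ref k178 k10 [(z1,[z1])],.ref k1 k2 [(z1,[y1,z0,z0,z0,
    z1])],.ref k178 k4 [(z1,[z1,y1,y1,y1,z1])],.contra [y2,y1,z0,y2,z2],.contra [y1,y1,z0,y1,z1],.contra [y2,z1,z2],
    .contra [z1,y1,y1,y1,z1],.contra [y1,z0,z1],.contra [y1,y1,z0,y1,z1],.contra [y1,y1,z0,y1,z1],.contra [y1,z2,z0,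
    z2],.ref k1 k2 [(z1,[y1,z1,z0,z2])],.ref k178 k4 [(z1,[z1])],.ref k1 k3 [(z1,[z1])],.ref k0 k2 [(z1,[y1,y1,y1,y1,
    z2])],.contra [z1,z1,z1,z0,y1],.contra [y2,z1,z0,z2],.ref k178 k2 [(z1,[y1,z1,z0,z2])],.contra [z1,y2,y1,y3,z2],
    .contra [y1,z0,z0,z1],.contra [y1,z0,z0,z1],.contra [y1,y1,z0,y1,z1],.contra [y1,y1,z0,y1,z1],.contra [y1,y2,y1,
    y2,z2],.contra [y1,y4,y2,y4,z4],.ref (nat_lit 221) k2 [(z1,[z2,z3,z1,z2,y2]),(z1,[y1,y1,z0,y1,z1]),(z1,[y2,y2,y1,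
    y1,z2])],.contra [z1],.contra [y1,z0,z1],.contra [y1,y1,z0,y1,z1],.contra [z1]])]

noncomputable def cU6_2_n3_4 : List XN :=
  [.geo true z1 k5 [(y1,z3),(z0,z2),(z1,y1),(z2,y2),(z2,y3),(z0,z1)] [(z1,[z1]),(z1,[z0,z1]),(z1,[z0,z0,z1]),(z1,[z0,z0,
    z0,z1]),(z1,[y1,y1,y1,y1,z1]),(z1,
    [])] (Int.ofNat (nat_lit 349525)) (Int.ofNat (nat_lit 699051)) (.s (.l k1) (.s (.l k1) (.l k1))) [],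
    .geo true z5 k4 [(z2,z0),(z4,z0),(z5,y5),(z3,z0),(z0,z5),(z6,z0)] [(z1,[z1]),(z1,[z0,z1]),(z1,[z0,z0,z5]),(z1,[z0,z0,
    z0,z1]),(z1,[]),(z1,[y1,y1,y5,y1,
    z5])] z0 (Int.ofNat (nat_lit 1048576)) (.s (.s (.l k1) (.l k1)) (.s (.l k1) (.l k1))) [],
    .old (.lp [(nat_lit 6446),(nat_lit 3044),(nat_lit 5904),(nat_lit 4820),(nat_lit 4248),(nat_lit 4308)] [k0,k0,
    (nat_lit 1701),(nat_lit 1701),(nat_lit 271),(nat_lit 271),(nat_lit 1057),(nat_lit 569),(nat_lit 1099),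
    (nat_lit 1099),(nat_lit 1069),(nat_lit 1069)] k0 [[k0,k0,k0,k0,k0,k0,k0,k0,k0,k0,(nat_lit 1204),(nat_lit 1596)],
    [k0,k0,(nat_lit 392),k122],[k122],[(nat_lit 392),k0,k0,k0,k0,(nat_lit 1716)],[k0,k0,(nat_lit 1716),k0,k0,k0,k0,
    (nat_lit 512)],[k0,k0,k0,k0,k0,k0,k0,k0,k0,k0,k0,(nat_lit 1928)],[k0,k0,k0,k0,k0,(nat_lit 512)],[],[k0,k0,k0,k0,
    k0,k0,k0,k0,k0,k0,(nat_lit 1536)],[],[k0,(nat_lit 1596),k0,k0,(nat_lit 1928)],[k0,(nat_lit 1204),k0,k0,k0,k0,k0,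
    k0,k0,(nat_lit 1536)]] (nat_lit 14400) k6
    [[(k8,(nat_lit 3811)),(k0,(nat_lit 5242)),(k11,(nat_lit 5377)),(k7,(nat_lit 5877)),(k3,(nat_lit 6341)),(k4,
    (nat_lit 8103))],[(k10,(nat_lit 3781)),(k2,(nat_lit 5137)),(k1,(nat_lit 5242)),(k9,(nat_lit 5347)),(k6,
    (nat_lit 5389)),(k5,(nat_lit 6297))],[(k2,(nat_lit 2922)),(k9,(nat_lit 3646)),(k6,(nat_lit 3688)),(k5,
    (nat_lit 4082)),(k10,(nat_lit 4880)),(k1,(nat_lit 6341))],[(k3,(nat_lit 2922)),(k8,(nat_lit 3646)),(k11,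
    (nat_lit 3676)),(k4,(nat_lit 4474)),(k0,(nat_lit 5137)),(k7,(nat_lit 5892))],[(k3,(nat_lit 4082)),(k4,
    (nat_lit 4188)),(k8,(nat_lit 5076)),(k11,(nat_lit 5106)),(k7,(nat_lit 5606)),(k0,(nat_lit 6297))],[(k5,
    (nat_lit 4188)),(k2,(nat_lit 4474)),(k6,(nat_lit 4606)),(k9,(nat_lit 5076)),(k10,(nat_lit 5106)),(k1,
    (nat_lit 8103))],[(k10,(nat_lit 2880)),(k6,(nat_lit 4820)),(k9,(nat_lit 5290)),(k5,(nat_lit 5606)),(k1,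
    (nat_lit 5877)),(k2,(nat_lit 5892))],[(k3,(nat_lit 3688)),(k8,(nat_lit 4290)),(k11,(nat_lit 4320)),(k4,
    (nat_lit 4606)),(k7,(nat_lit 4820)),(k0,(nat_lit 5389))],[(k3,(nat_lit 3646)),(k8,(nat_lit 4248)),(k11,
    (nat_lit 4278)),(k4,(nat_lit 5076)),(k7,(nat_lit 5290)),(k0,(nat_lit 5347))],[(k2,(nat_lit 3646)),(k1,
    (nat_lit 3811)),(k9,(nat_lit 4248)),(k10,(nat_lit 4278)),(k6,(nat_lit 4290)),(k5,(nat_lit 5076))],[(k2,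
    (nat_lit 3676)),(k9,(nat_lit 4278)),(k6,(nat_lit 4320)),(k5,(nat_lit 5106)),(k1,(nat_lit 5377)),(k10,
    (nat_lit 5844))],[(k7,(nat_lit 2880)),(k0,(nat_lit 3781)),(k8,(nat_lit 4278)),(k3,(nat_lit 4880)),(k4,
    (nat_lit 5106)),(k11,(nat_lit 5844))]]
    [] k0
    [[k2,k0,k0,k0,k0,k0],[k1,k1,k0,k0,k0,k0],[k1,k1,k0,k0,k0,k1],[k1,k0,k0,k1,k0,k0],[k1,k0,k0,k1,k0,k1],[k1,k0,k0,k0,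
    k1,k0],[k1,k1,k0,k0,k1,k0],[k1,k0,k0,k0,k2,k0],[k1,k0,k0,k0,k1,k1],[k1,k0,k0,k0,k0,k1],[k0,k2,k0,k0,k0,k0],[k0,k3,
    k0,k0,k0,k0],[k0,k4,k0,k0,k0,k0],[k0,k3,k0,k0,k1,k0],[k0,k2,k1,k0,k0,k0],[k0,k2,k0,k1,k0,k0],[k0,k2,k0,k1,k0,k1],
    [k0,k2,k0,k0,k1,k0],[k0,k2,k0,k0,k0,k1],[k0,k1,k1,k0,k0,k0],[k0,k1,k2,k0,k0,k0],[k0,k1,k1,k0,k1,k0],[k0,k1,k1,k0,
    k0,k1],[k0,k1,k0,k1,k0,k0],[k0,k1,k1,k1,k0,k0],[k0,k1,k0,k1,k1,k0],[k0,k1,k0,k1,k0,k1],[k0,k1,k0,k0,k1,k0],[k0,k1,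
    k0,k0,k2,k0],[k0,k1,k0,k0,k1,k1],[k0,k1,k0,k0,k0,k1],[k0,k0,k2,k0,k0,k0],[k0,k0,k3,k0,k0,k0],[k0,k0,k2,k0,k1,k0],
    [k0,k0,k1,k1,k0,k0],[k0,k0,k1,k0,k1,k0],[k0,k0,k1,k0,k0,k1],[k0,k0,k1,k1,k0,k1],[k0,k0,k0,k2,k0,k0],[k0,k0,k0,k2,
    k0,k1],[k0,k0,k0,k1,k1,k0],[k0,k0,k0,k1,k2,k0],[k0,k0,k0,k1,k1,k1],[k0,k0,k0,k1,k0,k1],[k0,k0,k0,k1,k0,k2],[k0,k0,
    k0,k0,k2,k0],[k0,k0,k0,k0,k3,k0],[k0,k0,k0,k0,k2,k1],[k0,k0,k0,k0,k1,k1],[k0,k0,k0,k0,k0,k2]]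
    [.contra [z1],.contra [z1,y1,y1],.ref k1 k3 [(z1,[y1,z0,z0,z0,z1])],.ref k0 k2 [(z1,[z1])],.contra [z1,z1,z1,z1,
    y1],.ref k6 k4 [(z1,[z0,y1,y1,y1,z1]),(z1,[z1,y1]),(z1,[z0,z1,z0,z1])],.contra [z1,z0,y1],.contra [z1,z1],
    .ref k1 k2 [(z1,[z1])],.ref k178 k2 [(z1,[z1])],.contra [z1],.ref k178 k10 [(z1,[z1,z0,y2,z1])],.contra [y1,z2,
    z4],.contra [y1,z1,z3],.contra [y1,z2,z2,z1],.ref k178 k4 [(z1,[z1,z0,y2,z1])],.contra [y1,z0,z1,y1,z1],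
    .contra [z1,z0,y1],.ref k0 k0 [(z1,[z1,z0,y2,z1])],.ref k178 k10 [(z1,[z1])],.ref (nat_lit 225) k8 [(z1,[z1,z0,z4,
    y2]),(z1,[z2,z0,y2,z1]),(z1,[z0,y1,y1,y1,z1]),(z1,[y1,z0,z1,z2])],.contra [y1,z1,z1,z1],
    .ref (nat_lit 224) k0 [(z1,[z1,z0,y1,y1]),(z1,[z0,z1]),(z1,[z0,z0,z1]),(z1,[z0,z0,z0,z1])],.contra [y1,y1,z0,y1,
    z1],.ref k1 k2 [(z1,[y1,z0,z0,z0,z1])],.contra [z1,z0,y1],.contra [z1,z1,z1,z1,y1],.contra [y2,z1,z4],.contra [z1,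
    z0,y1],.contra [z1,z0,y1],.contra [y2,y1,z0,y2,z2],.contra [y1,z2,z0,z2],.ref k6 k4 [(z1,[z0,y1,y1,y1,z1]),(z2,
    [y1,z0,z0,z3]),(z1,[z0,z1,z0,z1])],.ref k6 k4 [(z1,[z0,y1,y1,y1,z1]),(z1,[y1,z0,z0,z2]),(z1,[z0,z1,z0,z1])],
    .ref k178 k4 [(z1,[z1])],.contra [z1,z0,z1,y1],.ref k0 k0 [(z1,[z1])],.contra [y1,z0,y1,z0,z1],.contra [z1],
    .contra [z1,z1,z1,z1,y1],.contra [y1,y1,z0,y1,z1],.ref k0 k2 [(z1,[z1,z1])],.contra [z1,z1,z1,z1,y1],.contra [y2,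
    y1,z0,y2,z2],.contra [z1,z1,z1,z1,y1],.contra [z1],.ref k6 k4 [(z1,[z0,y1,y1,y1,z1]),(z1,[z1]),(z1,[z0,z1,z0,
    z1])],.ref k178 k2 [(z1,[z1,z1])],.contra [y1,y1,z0,y1,z1],.contra [z1]]),
    .geo true z1 k5 [(y2,z4),(z2,y3),(y2,z4),(z2,y2),(z4,y4),(z0,z1)] [(z1,[z1]),(z1,[z0,z1]),(z1,[z0,z0,z1]),(z1,[z0,z0,
    z0,z1]),(z1,[y1,y1,y1,y1,z1]),(z1,
    [])] (Int.ofNat (nat_lit 524288)) (Int.ofNat (nat_lit 699051)) (.s (.l k2) (.l k1)) [⟨z1,z2,[[k0,k5],[k1,k2],[k3,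
    k4]],.bnd k0⟩],
    .geo true z2 k5 [(z0,z4),(z1,z0),(z4,y4),(y1,z2),(z4,y4),(z0,z2)] [(z1,[z2]),(z1,[z0,z1]),(z1,[z0,z0,z2]),(z1,[z0,z0,
    z0,z1]),(z1,[y2,y1,y2,y1,z2]),(z1,
    [])] (Int.ofNat (nat_lit 524288)) (Int.ofNat (nat_lit 1048576)) (.s (.l k1) (.s (.l k1) (.l k2))) [⟨z1,z1,[[k0,
    k4],[k1,k2],[k3,k5]],.bnd k0⟩],
    .geo true z1 k5 [(y2,z4),(z2,y2),(z4,y4),(z2,y3),(y2,z4),(z0,z1)] [(z1,[z1]),(z1,[z0,z1]),(z1,[z0,z0,z1]),(z1,[z0,z0,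
    z0,z1]),(z1,[y1,y1,y1,y1,z1]),(z1,
    [])] (Int.ofNat (nat_lit 524288)) (Int.ofNat (nat_lit 699051)) (.s (.s (.s (.l k2) (.l k1)) (.l k1)) (.s (.l k1) (.l k1))) [⟨z1,
    z2,[[k0,k2],[k1,k5],[k3,k4]],.bnd k0⟩],
    .geo true z2 k5 [(y4,z4),(z4,y2),(z4,y3),(z4,y2),(z0,z1),(z0,z2)] [(z1,[z2]),(z1,[z0,z2]),(z1,[z0,z0,z1]),(z1,[z0,z0,
    z0,z2]),(z1,[y2,y2,y1,y2,z2]),(z1,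
    [])] (Int.ofNat (nat_lit 1048576)) (Int.ofNat (nat_lit 1398102)) (.s (.s (.l k1) (.l k1)) (.l k1)) [],
    .geo true z2 k5 [(z0,z6),(z0,z3),(z4,y6),(z0,z1),(z4,y6),(z0,z2)] [(z1,[z2]),(z1,[z0,z1]),(z1,[z0,z0,z2]),(z1,[z0,z0,
    z0,z1]),(z1,[y2,y1,y2,y1,z2]),(z1,
    [])] z0 (Int.ofNat (nat_lit 699051)) (.s (.s (.s (.s (.l k2) (.l k1)) (.l k1)) (.s (.l k1) (.l k1))) (.s (.s (.l k1) (.l k1)) (.s (.l k1) (.l k3)))) [⟨z0,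
    z1,[[k0,k1],[k2,k3],[k4,k5]],.bnd k0⟩,⟨z2,z3,[[k0,k2],[k1,k5],[k3,k4]],.bnd k0⟩],
    .old (.lp [(nat_lit 286),(nat_lit 386),(nat_lit 526),k198,(nat_lit 332),k190] [k133,k107,k70,k70,k0,k0,k166,k162,k97,
    k97,k168,k168] k0 [[k0,k0,k0,k0,k0,k0,k8],[k0,k0,k46,k144],[k144,k0,k0,k0,k0,k138,k0,k0,k96],[k46,k0,k0,k0,k0,
    k176],[k0,k0,k176,k138,k0,k0,k0,k94],[k0,k0,k0,k0,k0,k0,k0,k6,k0,k0,k0,k4],[k0,k0,k0,k0,k6,k94],[k0,k8,k0,k0,k0,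
    k0,k0,k0,k4],[k0,k0,k0,k0,k0,k0,k0,k0,k0,k0,k130,k4],[k0,k0,k0,k96,k0,k0,k4],[k0,k0,k0,k0,k4,k0,k0,k0,k0,k4],[k0,
    k0,k0,k0,k0,k0,k0,k0,k0,k130]] (nat_lit 960) k6
    [[(k8,k192),(k11,(nat_lit 255)),(k7,(nat_lit 257)),(k0,(nat_lit 286)),(k3,(nat_lit 349)),(k4,(nat_lit 423))],
    [(k10,(nat_lit 225)),(k6,(nat_lit 227)),(k1,(nat_lit 286)),(k9,(nat_lit 288)),(k2,(nat_lit 369)),(k5,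
    (nat_lit 537))],[(k2,(nat_lit 242)),(k10,(nat_lit 288)),(k6,(nat_lit 298)),(k1,(nat_lit 349)),(k9,(nat_lit 359)),
    (k5,(nat_lit 410))],[(k11,k192),(k3,(nat_lit 242)),(k4,(nat_lit 318)),(k8,(nat_lit 359)),(k0,(nat_lit 369)),(k7,
    (nat_lit 470))],[(k4,(nat_lit 350)),(k11,(nat_lit 358)),(k3,(nat_lit 410)),(k7,(nat_lit 502)),(k8,(nat_lit 525)),
    (k0,(nat_lit 537))],[(k6,(nat_lit 266)),(k2,(nat_lit 318)),(k5,(nat_lit 350)),(k10,(nat_lit 358)),(k1,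
    (nat_lit 423)),(k9,(nat_lit 435))],[(k6,k192),(k10,k192),(k1,(nat_lit 257)),(k9,(nat_lit 361)),(k2,(nat_lit 470)),
    (k5,(nat_lit 502))],[(k7,k192),(k11,k192),(k0,(nat_lit 227)),(k4,(nat_lit 266)),(k8,(nat_lit 267)),(k3,
    (nat_lit 298))],[(k11,(nat_lit 257)),(k0,(nat_lit 288)),(k8,(nat_lit 332)),(k3,(nat_lit 359)),(k7,(nat_lit 361)),
    (k4,(nat_lit 435))],[(k1,k192),(k10,(nat_lit 257)),(k6,(nat_lit 267)),(k9,(nat_lit 332)),(k2,(nat_lit 359)),(k5,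
    (nat_lit 525))],[(k2,k192),(k6,k192),(k1,(nat_lit 255)),(k9,(nat_lit 257)),(k10,(nat_lit 320)),(k5,
    (nat_lit 358))],[(k7,k192),(k0,(nat_lit 225)),(k8,(nat_lit 257)),(k3,(nat_lit 288)),(k11,(nat_lit 320)),(k4,
    (nat_lit 358))]]
    [] k0
    [[k2,k0,k0,k0,k0,k0],[k3,k0,k0,k0,k0,k0],[k2,k0,k0,k1,k0,k0],[k2,k0,k0,k0,k1,k0],[k2,k0,k0,k0,k0,k1],[k1,k1,k0,k0,
    k0,k0],[k1,k1,k0,k0,k0,k1],[k1,k0,k0,k1,k0,k0],[k1,k1,k0,k1,k0,k0],[k1,k0,k0,k2,k0,k0],[k1,k0,k0,k3,k0,k0],[k1,k0,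
    k0,k2,k0,k1],[k1,k0,k0,k1,k1,k0],[k1,k0,k0,k1,k0,k1],[k1,k0,k0,k0,k1,k0],[k1,k1,k0,k0,k1,k0],[k1,k0,k0,k0,k2,k0],
    [k1,k0,k0,k0,k1,k1],[k1,k0,k0,k1,k1,k1],[k1,k0,k0,k0,k0,k1],[k1,k0,k0,k1,k0,k2],[k1,k0,k0,k0,k0,k2],[k0,k2,k0,k0,
    k0,k0],[k0,k3,k0,k0,k0,k0],[k0,k2,k0,k1,k0,k1],[k0,k2,k0,k0,k0,k1],[k0,k1,k1,k0,k0,k0],[k0,k1,k0,k1,k0,k0],[k0,k1,
    k0,k2,k0,k1],[k0,k1,k0,k1,k0,k1],[k0,k1,k0,k0,k1,k0],[k0,k1,k0,k0,k1,k1],[k0,k1,k0,k0,k0,k1],[k0,k1,k0,k1,k0,k2],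
    [k0,k1,k0,k0,k0,k2],[k0,k0,k2,k0,k0,k0],[k0,k0,k1,k1,k0,k0],[k0,k0,k1,k0,k0,k1],[k0,k0,k1,k1,k0,k1],[k0,k0,k0,k2,
    k0,k0],[k0,k0,k0,k3,k0,k0],[k0,k0,k0,k4,k0,k0],[k0,k0,k0,k3,k0,k1],[k0,k0,k0,k2,k1,k0],[k0,k0,k0,k2,k0,k1],[k0,k0,
    k0,k2,k1,k1],[k0,k0,k0,k2,k0,k2],[k0,k0,k0,k1,k1,k0],[k0,k0,k0,k1,k1,k1],[k0,k0,k0,k1,k0,k1],[k0,k0,k0,k1,k1,k2],
    [k0,k0,k0,k1,k0,k2],[k0,k0,k0,k0,k2,k0],[k0,k0,k0,k0,k2,k1],[k0,k0,k0,k0,k1,k1],[k0,k0,k0,k0,k1,k2],[k0,k0,k0,k0,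
    k0,k2]]
    [.contra [z1],.ref k178 k10 [(z2,[y1,z3,z1,z2])],.ref (nat_lit 230) k4 [(z1,[z1,y2,z0,y2]),(z1,[z0,z0,z0,z1]),(z1,
    [y2,z2,y1,z1,z2]),(z1,[z0,z1,z0,z1])],.ref k178 k10 [(z2,[y1,z2,z1,z2])],.ref k1 k2 [(z1,[z1,y1])],.contra [y1,z1,
    z1],.contra [y1,z0,z0,y1,z1],.contra [y1,z0,z0,y1,z1],.contra [y1,z0,z0,y1,z1],.contra [y1,y1,y1,y2,z2],
    .ref (nat_lit 231) k1 [(z1,[y1,z1,z0,z1]),(z1,[y1,z1,z1]),(z1,[z1]),(z1,[y1,y1,y1,y2,z2])],.contra [y1,y1,y1,y2,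
    z2],.ref (nat_lit 230) k4 [(z1,[z1,y1,z0,y2]),(z1,[z0,z0,z0,z1]),(z1,[y2,z0,y1,z1,z2]),(z1,[z0,z1,z0,z1])],
    .contra [y1,z0,z0,y1,z1],.contra [z1,z1],.ref k178 k10 [(z1,[y1,z1,z1,z1])],.ref k178 k10 [(z2,[y1,z1,z1,z2])],
    .ref k1 k2 [(z1,[z1])],.ref k178 k10 [(z1,[y1,z0,z0,z0,z1])],.contra [y1,z0,z0,y1,z1],.contra [y1,y1,y1,y2,z2],
    .contra [y1,y1,y1,y2,z2],.contra [z1],.ref k178 k10 [(z1,[z1,z0,y1,z1])],.ref k178 k10 [(z1,[z1,z1,z0,z2,y1])],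
    .ref k0 k0 [(z1,[z1,z0,y1,z1])],.ref k178 k10 [(z1,[z1])],.contra [y1,z0,z0,y1,z1],.ref k178 k4 [(z1,[z1,z1,z0,z2,
    y1])],.contra [z1,z1,z1,z1,y1],.contra [y1,z0,z1],.contra [y1,y1,z0,y1,z1],.contra [y1,z0,z0,y1,z1],
    .ref k0 k0 [(z1,[z1,z1,z0,z2,y1])],.ref (nat_lit 229) k2 [(z1,[y2,z1,z1]),(z1,[z1]),(z1,[z2,z0,y1,z1]),(z1,[z1,y1,
    y1,y1,z1])],.contra [y1,z2,z0,z2],.ref k178 k4 [(z1,[z1])],.ref k0 k0 [(z1,[z1])],.ref k178 k10 [(z1,[z1,z1,z1,z1,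
    y1])],.contra [z1],.ref (nat_lit 217) k4 [(z1,[z1]),(z1,[z0,z0,z0,z1])],.ref (nat_lit 228) k10 [(z1,[z0,z0,y1,
    z1]),(z2,[z1]),(z1,[z0,z0,z1]),(z2,[y1,y4,y4,y4,z4])],.ref (nat_lit 227) k3 [(z1,[y2,y2,y1,y2,z2]),(z1,[z1]),(z1,
    [y2,y1,y1,y2,z2]),(z1,[z1,z1,z1,z1,y1])],.contra [y1,y2,y1,y2,z2],.contra [y1,y1,y1,y2,z2],.contra [y1,y2,y1,y2,
    z2],.contra [z1,z2,z2,z2,y2],.contra [y1,y1,z0,y1,z1],.contra [y1,y1,z0,y1,z1],.contra [y1,z0,z0,y1,z1],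
    .contra [y1,y2,y1,y2,z2],.contra [y1,y1,y1,y2,z2],.contra [z1,z2],.ref k1 k2 [(z1,[z1,z1])],.contra [y1,y1,z0,y1,
    z1],.contra [y1,y2,y1,y2,z2],.contra [z1]]),
    .geo true z1 k5 [(y2,z4),(z2,y2),(z4,y4),(y4,z5),(z4,y4),(z0,z1)] [(z1,[z1]),(z1,[z0,z1]),(z1,[z0,z0,z1]),(z1,[z0,z0,
    z0,z1]),(z1,[y1,y1,y1,y1,z1]),(z1,
    [])] (Int.ofNat (nat_lit 838860)) (Int.ofNat (nat_lit 1048576)) (.s (.l k1) (.s (.l k1) (.s (.l k1) (.l k2)))) [⟨z1,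
    z1,[[k0,k1],[k2,k4],[k3,k5]],.bnd k0⟩],
    .geo true z1 k5 [(y4,z6),(z4,y5),(z4,y4),(z2,y2),(y2,z4),(z0,z1)] [(z1,[z1]),(z1,[z0,z1]),(z1,[z0,z0,z1]),(z1,[z0,z0,
    z0,z1]),(z1,[y1,y1,y1,y1,z1]),(z1,
    [])] (Int.ofNat (nat_lit 699050)) (Int.ofNat (nat_lit 838861)) (.s (.l k1) (.l k1)) [],
    .old (.lp [(nat_lit 252),(nat_lit 380),(nat_lit 352),(nat_lit 378),(nat_lit 222),(nat_lit 334)] [k78,k78,k14,k14,k28,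
    k28,k15,k15,k120,k66,k74,k0] k0 [[k0,k0,k0,k30,k0,k0,k42],[k0,k0,k0,k0,k0,k0,k0,k0,k0,k0,k0,k106],[k0,k30,k0,k0,
    k0,k0,k0,k0,k0,k22],[k0,k0,k0,k0,k6,k160],[k0,k0,k160,k0,k0,k0,k0,k126],[k0,k0,k6,k0,k0,k0,k0,k2],[k0,k0,k0,k0,k2,
    k126,k0,k0,k98],[k0,k42,k0,k0,k0,k0,k0,k0,k150],[k0,k0,k0,k22,k0,k0,k0,k0,k0,k0,k18,k22],[k0,k0,k0,k0,k0,k0,k150,
    k98],[k106,k0,k0,k0,k0,k0,k0,k0,k0,k22],[k0,k0,k0,k0,k0,k0,k0,k0,k0,k18]] (nat_lit 960) k6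
    [[(k8,k192),(k4,(nat_lit 302)),(k7,(nat_lit 315)),(k3,(nat_lit 316)),(k11,(nat_lit 352)),(k0,(nat_lit 358))],[(k9,
    (nat_lit 222)),(k10,(nat_lit 256)),(k2,(nat_lit 286)),(k5,(nat_lit 302)),(k6,(nat_lit 315)),(k1,(nat_lit 358))],
    [(k10,(nat_lit 214)),(k1,(nat_lit 316)),(k9,(nat_lit 328)),(k2,(nat_lit 380)),(k5,(nat_lit 396)),(k6,
    (nat_lit 421))],[(k8,(nat_lit 252)),(k0,(nat_lit 286)),(k4,(nat_lit 372)),(k3,(nat_lit 380)),(k11,(nat_lit 394)),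
    (k7,(nat_lit 539))],[(k4,k192),(k8,(nat_lit 260)),(k0,(nat_lit 302)),(k7,(nat_lit 359)),(k3,(nat_lit 396)),(k11,
    (nat_lit 402))],[(k5,k192),(k6,(nat_lit 239)),(k1,(nat_lit 302)),(k10,(nat_lit 306)),(k9,(nat_lit 316)),(k2,
    (nat_lit 372))],[(k1,(nat_lit 315)),(k10,(nat_lit 319)),(k5,(nat_lit 359)),(k6,(nat_lit 376)),(k9,(nat_lit 453)),
    (k2,(nat_lit 539))],[(k4,(nat_lit 239)),(k11,(nat_lit 295)),(k0,(nat_lit 315)),(k7,(nat_lit 376)),(k3,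
    (nat_lit 421)),(k8,(nat_lit 423))],[(k11,k192),(k0,(nat_lit 222)),(k4,(nat_lit 316)),(k8,(nat_lit 320)),(k3,
    (nat_lit 328)),(k7,(nat_lit 453))],[(k1,k192),(k10,k192),(k2,(nat_lit 252)),(k5,(nat_lit 260)),(k9,(nat_lit 320)),
    (k6,(nat_lit 423))],[(k9,k192),(k6,(nat_lit 295)),(k1,(nat_lit 352)),(k10,(nat_lit 352)),(k2,(nat_lit 394)),(k5,
    (nat_lit 402))],[(k8,k192),(k3,(nat_lit 214)),(k0,(nat_lit 256)),(k4,(nat_lit 306)),(k7,(nat_lit 319)),(k11,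
    (nat_lit 352))]]
    [] k0
    [[k2,k0,k0,k0,k0,k0],[k2,k0,k0,k0,k1,k0],[k1,k1,k0,k0,k0,k0],[k1,k1,k0,k0,k1,k0],[k1,k0,k1,k0,k0,k0],[k1,k0,k2,k0,
    k0,k0],[k1,k0,k1,k0,k1,k0],[k1,k0,k0,k1,k0,k0],[k1,k0,k1,k1,k0,k0],[k1,k0,k0,k1,k0,k1],[k1,k0,k0,k0,k1,k0],[k2,k0,
    k0,k0,k2,k0],[k1,k0,k0,k0,k2,k0],[k1,k0,k0,k0,k1,k1],[k1,k1,k0,k0,k1,k1],[k1,k0,k0,k0,k2,k1],[k1,k0,k0,k0,k0,k1],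
    [k1,k1,k0,k0,k0,k1],[k0,k2,k0,k0,k0,k0],[k0,k1,k1,k0,k0,k0],[k0,k1,k0,k0,k1,k0],[k0,k1,k0,k0,k2,k0],[k0,k1,k0,k0,
    k1,k1],[k0,k1,k0,k0,k0,k1],[k0,k0,k2,k0,k0,k0],[k0,k0,k3,k0,k0,k0],[k0,k0,k4,k0,k0,k0],[k0,k0,k2,k1,k0,k0],[k0,k0,
    k2,k0,k1,k0],[k0,k0,k2,k0,k1,k1],[k0,k0,k2,k0,k0,k1],[k0,k0,k1,k1,k0,k0],[k0,k0,k1,k0,k1,k0],[k0,k0,k1,k1,k1,k0],
    [k0,k0,k1,k0,k2,k0],[k0,k0,k1,k0,k1,k1],[k0,k0,k1,k0,k0,k1],[k0,k0,k0,k2,k0,k0],[k0,k0,k0,k1,k1,k0],[k0,k0,k0,k1,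
    k1,k1],[k0,k0,k0,k1,k0,k1],[k0,k0,k0,k0,k2,k0],[k0,k0,k0,k0,k2,k1],[k0,k0,k0,k0,k1,k1],[k0,k0,k0,k0,k2,k2],[k0,k0,
    k0,k0,k1,k2],[k0,k0,k0,k0,k0,k2]]
    [.contra [z1],.ref (nat_lit 221) k8 [(z1,[z2,y2,z1]),(z1,[y1,z1,z0,z1]),(z1,[y2,z1,y1,y1,z1])],.ref k178 k8 [(z1,
    [z1])],.ref (nat_lit 234) k6 [(z1,[y1,y5,z1]),(z1,[z1,z4,y1]),(z1,[z0,z3,y1,y1,z1]),(z1,[z0,z2,z0,z1])],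
    .contra [y1,z2,z0,z1],.ref k0 k2 [(z1,[z1,y1,y1,y3,z1])],.contra [y1,z1,z0,z1],.ref k0 k2 [(z1,[z1])],
    .ref k178 k8 [(z1,[y1,z1,z0,z0,z1])],.ref (nat_lit 221) k8 [(z1,[y2,z2,y1,y2,z2]),(z1,[z1,y1,z1,z2,y1]),(z1,[z2,
    y3,z1,z1,y1])],.contra [y1,z1,z0,z1],.ref (nat_lit 226) k8 [(z1,[z1,y2,z1]),(z2,[y1,z2,z0,z2]),(z1,[y1,z1,y1,y1,
    z1])],.ref (nat_lit 223) k8 [(z1,[z1,y2,z1]),(z1,[y1,z2,z0,z2]),(z1,[y1,z1,y1,y1,z1])],.contra [z1,z1],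
    .ref k0 k2 [(z2,[y1,z1,y1,y2,z2])],.ref (nat_lit 221) k8 [(z1,[z2,z0,z1]),(z1,[y1,z0,z0,z1]),(z1,[y2,y1,y1,y1,
    z1])],.contra [y1,z1,z0,z1],.ref k1 k3 [(z1,[y1,z0,z0,z0,z1])],.contra [z1],.contra [z1,z2,y1,y1],.ref k0 k3 [(z1,
    [z1])],.ref (nat_lit 221) k8 [(z1,[z1,z2]),(z2,[y1,y2,z1,z2]),(z1,[y1,y3,z0,y1,z1])],.ref k178 k8 [(z1,[z1,z1])],
    .ref (nat_lit 233) k8 [(z1,[z0,y4,z1]),(z1,[z0,z2,z0,z1]),(z1,[z0,z3,y1,y1,z1]),(z1,[y1,y5,z1])],.contra [z1],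
    .ref k0 k2 [(z2,[z1,z0,y2,y5,z2])],.contra [y1,z0,z2,z4],.contra [y1,y1,z1,z1,z1],.ref k178 k3 [(z1,[z1,y1,y1,y3,
    z1])],.ref k0 k2 [(z1,[z1,z0,y1,y3,z1])],.ref (nat_lit 232) k8 [(z1,[y1,z0,z1,z2]),(z1,[z1]),(z1,[z1,y1,y1,y3,
    z1])],.ref k0 k2 [(z2,[z1,z1,y1,y2,z1])],.contra [y1,z1,z0,z1],.ref k1 k3 [(z1,[z1])],.contra [y1,z0,z0,z1],
    .contra [y1,z1,z0,z1],.contra [y1,z1,z0,z1],.contra [y1,y2,z0,y2,z2],.ref k178 k3 [(z1,[z1])],.ref k0 k2 [(z1,[z1,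
    z1])],.ref (nat_lit 232) k8 [(z1,[y1,y1,z0,y1,z1]),(z1,[z1,z1,z1,z3,y1]),(z1,[z1])],.contra [z1],.contra [y1,z0,
    z0,z1],.contra [y1,z1,z0,z1],.contra [z1,z2],.contra [y1,z0,z0,z1],.contra [z1]])]

noncomputable def cU6_2_n3_5 : List XN :=
  [.geo true z2 k5 [(y4,z5),(z4,y3),(z4,y3),(z4,y2),(z0,z1),(z0,z2)] [(z1,[z1]),(z1,[z0,z1]),(z1,[z0,z0,z1]),(z1,[z0,z0,
    z0,z2]),(z1,[y1,y1,y1,y2,z2]),(z1,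
    [])] (Int.ofNat (nat_lit 838860)) (Int.ofNat (nat_lit 1398102)) (.s (.s (.l k1) (.l k1)) (.s (.l k1) (.l k1))) [],
    .geo true z2 k5 [(y4,z6),(z4,y3),(z4,y4),(z4,y2),(z0,z1),(z0,z2)] [(z1,[z2]),(z1,[z0,z1]),(z1,[z0,z0,z2]),(z1,[z0,z0,
    z0,z2]),(z1,[y2,y1,y2,y2,z2]),(z1,
    [])] (Int.ofNat (nat_lit 699050)) (Int.ofNat (nat_lit 1048576)) (.s (.s (.l k1) (.l k1)) (.s (.l k1) (.l k1))) [],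
    .geo true z1 k5 [(z0,z2),(z2,y4),(z2,y3),(y2,z6),(z2,y2),(z0,z1)] [(z1,[z1]),(z1,[z0,z1]),(z1,[z0,z0,z1]),(z1,[z0,z0,
    z0,z1]),(z1,[y1,y1,y1,y1,z1]),(z1,
    [])] (Int.ofNat (nat_lit 349525)) (Int.ofNat (nat_lit 524288)) (.s (.s (.s (.l k1) (.l k1)) (.s (.l k1) (.l k1))) (.l k1)) [],
    .geo true z1 k5 [(y1,z3),(z2,y3),(z0,z2),(z1,y1),(z2,y2),(z0,z1)] [(z1,[z1]),(z1,[z0,z1]),(z1,[z0,z0,z1]),(z1,[z0,z0,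
    z0,z1]),(z1,[y1,y1,y1,y1,z1]),(z1,
    [])] (Int.ofNat (nat_lit 349525)) (Int.ofNat (nat_lit 699051)) (.s (.l k1) (.s (.l k1) (.l k1))) [],
    .geo true z1 k5 [(z0,z2),(z1,y2),(z2,y3),(y1,z4),(z2,y2),(z0,z1)] [(z1,[z1]),(z1,[z0,z1]),(z1,[z0,z0,z1]),(z1,[z0,z0,
    z0,z1]),(z1,[y1,y1,y1,y1,z1]),(z1,
    [])] (Int.ofNat (nat_lit 262144)) (Int.ofNat (nat_lit 524288)) (.s (.s (.l k1) (.l k1)) (.l k1)) [],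
    .geo true z5 k4 [(z2,z0),(z4,z0),(z4,y5),(z4,z0),(z0,z5),(z6,z0)] [(z1,[z1]),(z1,[z0,z1]),(z1,[z0,z0,z1]),(z1,[z0,z0,
    z0,z1]),(z1,[]),(z1,[y1,y1,y1,y1,z5])] z0 (Int.ofNat (nat_lit 838861)) (.s (.s (.l k1) (.l k1)) (.l k1)) []]

/-- the nodes with numbers from 176 -/
noncomputable def cU6_2_n3 : List XN :=
  cU6_2_n3_0 ++ (cU6_2_n3_1 ++ (cU6_2_n3_2 ++ (cU6_2_n3_3 ++ (cU6_2_n3_4 ++ cU6_2_n3_5))))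

theorem cU6_2_k3 : allI (chkX 6 cU6_2_w ttU6 cU6_2_s (blkF [] cU6_2_D)) cU6_2_n3 176 = true := by
  decide +kernel

end Pool.Agent.Lib_MP_fa6e45
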