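import Pool.Agent.Lib_MP_fa6e45.CY6_1d

/-!
MP_fa6e45_co, stage 7: certificates (generated by a program).
-/

namespace Pool.Agent.Lib_MP_fa6e45

noncomputable def cU6_2_n4_0 : List XN :=
  [.old (.lp [(nat_lit 980),(nat_lit 700),(nat_lit 960),(nat_lit 898),(nat_lit 1440),(nat_lit 776)] [(nat_lit 260),
    (nat_lit 200),(nat_lit 320),(nat_lit 420),(nat_lit 240),(nat_lit 240),(nat_lit 271),(nat_lit 271),k0,k0,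
    (nat_lit 332),(nat_lit 332)] k0 [[k0,k0,(nat_lit 320),k0,k0,k0,(nat_lit 262),(nat_lit 262)],[k0,k0,k180,k0,k0,k0,
    k0,k0,k0,k0,k0,k58],[k0,k0,k0,k0,k0,(nat_lit 304),k0,k0,(nat_lit 212)],[k180,(nat_lit 320),k0,k0,k0,k0,k0,k0,k22],
    [k0,k0,k0,(nat_lit 304),k0,k0,k0,k0,k0,k0,k0,(nat_lit 274)],[k0,k0,k0,k0,k0,k0,k88,(nat_lit 268)],[k0,
    (nat_lit 262),k0,k0,(nat_lit 268)],[k0,(nat_lit 262),k0,k0,k88],[k0,k0,k0,k0,k0,k0,k0,k0,k0,k0,(nat_lit 664),k86],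
    [k0,k0,k22,(nat_lit 212)],[k58,k0,k0,k0,k0,(nat_lit 274),k0,k0,k0,k86],[k0,k0,k0,k0,k0,k0,k0,k0,k0,
    (nat_lit 664)]] (nat_lit 2880) k6
    [[(k8,(nat_lit 576)),(k3,(nat_lit 820)),(k11,(nat_lit 994)),(k4,(nat_lit 1000)),(k0,(nat_lit 1038)),(k7,
    (nat_lit 1243))],[(k5,(nat_lit 620)),(k6,(nat_lit 647)),(k10,(nat_lit 848)),(k9,(nat_lit 918)),(k1,
    (nat_lit 1038)),(k2,(nat_lit 1040))],[(k5,(nat_lit 600)),(k10,(nat_lit 630)),(k1,(nat_lit 820)),(k6,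
    (nat_lit 1011)),(k2,(nat_lit 1020)),(k9,(nat_lit 1282))],[(k4,(nat_lit 576)),(k11,(nat_lit 576)),(k7,
    (nat_lit 849)),(k3,(nat_lit 1020)),(k0,(nat_lit 1040)),(k8,(nat_lit 1142))],[(k3,(nat_lit 600)),(k0,
    (nat_lit 620)),(k11,(nat_lit 846)),(k4,(nat_lit 960)),(k7,(nat_lit 1233)),(k8,(nat_lit 1412))],[(k2,
    (nat_lit 576)),(k10,(nat_lit 594)),(k5,(nat_lit 960)),(k1,(nat_lit 1000)),(k6,(nat_lit 1017)),(k9,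
    (nat_lit 1468))],[(k6,(nat_lit 630)),(k10,(nat_lit 837)),(k2,(nat_lit 849)),(k9,(nat_lit 1081)),(k5,
    (nat_lit 1233)),(k1,(nat_lit 1243))],[(k7,(nat_lit 630)),(k0,(nat_lit 647)),(k11,(nat_lit 837)),(k3,
    (nat_lit 1011)),(k4,(nat_lit 1017)),(k8,(nat_lit 1169))],[(k0,(nat_lit 918)),(k7,(nat_lit 1081)),(k11,
    (nat_lit 1108)),(k3,(nat_lit 1282)),(k8,(nat_lit 1440)),(k4,(nat_lit 1468))],[(k1,(nat_lit 576)),(k10,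
    (nat_lit 1022)),(k2,(nat_lit 1142)),(k6,(nat_lit 1169)),(k5,(nat_lit 1412)),(k9,(nat_lit 1440))],[(k2,
    (nat_lit 576)),(k6,(nat_lit 837)),(k5,(nat_lit 846)),(k1,(nat_lit 994)),(k9,(nat_lit 1108)),(k10,(nat_lit 1440))],
    [(k4,(nat_lit 594)),(k3,(nat_lit 630)),(k7,(nat_lit 837)),(k0,(nat_lit 848)),(k8,(nat_lit 1022)),(k11,
    (nat_lit 1440))]]
    [] k0
    [[k2,k0,k0,k0,k0,k0],[k2,k0,k1,k0,k0,k0],[k2,k0,k0,k0,k1,k0],[k1,k1,k0,k0,k0,k0],[k1,k1,k1,k0,k0,k0],[k1,k1,k0,k1,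
    k0,k0],[k1,k1,k0,k0,k0,k1],[k1,k1,k1,k0,k0,k1],[k1,k0,k1,k0,k0,k0],[k1,k1,k2,k0,k0,k0],[k1,k0,k2,k0,k0,k0],[k1,k0,
    k1,k0,k0,k1],[k1,k0,k0,k1,k0,k0],[k1,k0,k0,k2,k0,k0],[k1,k0,k0,k0,k1,k0],[k1,k0,k1,k0,k1,k0],[k1,k0,k0,k1,k1,k0],
    [k1,k0,k0,k0,k1,k1],[k1,k0,k0,k0,k0,k1],[k1,k0,k0,k1,k0,k1],[k0,k2,k0,k0,k0,k0],[k0,k2,k1,k0,k0,k0],[k0,k2,k1,k0,
    k0,k1],[k0,k2,k0,k0,k0,k1],[k0,k1,k1,k0,k0,k0],[k0,k2,k2,k0,k0,k0],[k0,k1,k2,k0,k0,k0],[k0,k1,k2,k0,k0,k1],[k0,k1,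
    k1,k1,k0,k0],[k0,k1,k1,k0,k0,k1],[k0,k1,k0,k1,k0,k0],[k0,k1,k0,k2,k0,k0],[k0,k1,k0,k1,k0,k1],[k0,k1,k0,k0,k1,k0],
    [k0,k1,k0,k0,k0,k1],[k0,k2,k0,k0,k0,k2],[k0,k1,k1,k0,k0,k2],[k0,k1,k0,k0,k0,k2],[k0,k0,k2,k0,k0,k0],[k0,k0,k2,k0,
    k0,k1],[k0,k0,k1,k1,k0,k0],[k0,k0,k1,k1,k0,k1],[k0,k0,k1,k0,k0,k1],[k0,k0,k0,k2,k0,k0],[k0,k0,k0,k3,k0,k0],[k0,k0,
    k0,k4,k0,k0],[k0,k0,k0,k2,k0,k1],[k0,k0,k0,k1,k1,k0],[k0,k0,k0,k1,k0,k1],[k0,k0,k0,k0,k1,k1]]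
    [.contra [z1],.contra [y1,z1,z0,z3],.contra [y1,z1,z0,z4],.contra [y1,z0,z0,y1,z1],.ref k1 k0 [(z1,[y1,z0,z0,z0,
    z1])],.contra [y1,z0,z0,y1,z1],.contra [y2,z1,z2,z1],.contra [z2,y1,y2,y1],.contra [y2,z1,z0,z3],.contra [z2,y1,
    z0,y3],.contra [z2,y1,z0,y3],.ref k1 k0 [(z1,[z1,y1,y1,y2,z1])],.contra [y1,z0,y1,z0,z1],.contra [y2,y1,y4,y3,z4],
    .ref (nat_lit 241) k5 [(z1,[y1,y2,y5,y5,z5]),(z1,[y2,z1,z0,z5]),(z1,[y2,z1,z5]),(z1,[z3,z1])],.contra [z1,z0,z0,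
    y1],.contra [y1,z0,y1,z1,z1],.ref k1 k2 [(z1,[z1])],.contra [y2,z1,z2,z1],.contra [y1,z0,z0,y1,z1],.contra [z1],
    .ref (nat_lit 239) k7 [(z2,[y3,z1,z0,z3]),(z1,[z1,z0,z1,y1]),(z1,[y1,z0,z0,z1]),(z2,[z1,y1,y2,y3,z2])],
    .ref (nat_lit 238) k1 [(z1,[z0,z1,z2,z3,y2]),(z1,[z1,y2,y5,y5,z4]),(z1,[z0,y1,y3,y3,z3]),(z1,[y1,z3,z8,z7,y6])],
    .ref k178 k10 [(z1,[z1,z0,y1,z1])],.ref k178 k10 [(z1,[z1])],.ref (nat_lit 240) k1 [(z1,[z0,z1,z2,z3,y2]),(z2,[z1,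
    y2,y4,y6,z4]),(z1,[z0,y1,y3,y3,z3]),(z2,[y1,z4,z10,z10,y8])],.ref (nat_lit 238) k1 [(z1,[z0,z1,z2,z3,y2]),(z1,[z1,
    y2,y4,y6,z4]),(z1,[z0,y1,y3,y3,z3]),(z1,[y1,z3,z7,z8,y6])],.contra [y1,z1,z1,z2],.ref k1 k2 [(z1,[y1,z0,z0,z0,
    z1])],.contra [z1,z0,y1,z1],.contra [y1,z0,z0,y1,z1],.ref k178 k10 [(z1,[z1,z1,z2,z3,y2])],.contra [y1,z0,z0,y1,
    z1],.contra [y1,z0,z1],.contra [z1,y1,y3,y2,z2],.contra [z1,z0,y2,z2],.ref (nat_lit 237) k11 [(z1,[y1,z0,z2,y2]),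
    (z1,[z0,z1,z0,z3]),(z1,[z1,z0,y1,z1]),(z1,[z0,z0,z0,z1])],.ref k0 k0 [(z1,[z1,z0,y1,z1])],.contra [z1],
    .ref (nat_lit 237) k11 [(z1,[y1,z0,z1,y1]),(z1,[z0,z1,z0,z3]),(z1,[z1]),(z1,[z0,z0,z0,z1])],.contra [y1,z0,y1,z0,
    z1],.ref (nat_lit 236) k11 [(z1,[y2,y1,z0,y5,z2]),(z1,[z0,z1,z0,z3]),(z1,[z2,z1,z2,z3,y2]),(z1,[z0,z0,z0,z1])],
    .ref k0 k0 [(z1,[z1])],.contra [z1],.contra [y1,y1,y3,y3,z3],.contra [z1,z2,z4,z6,y4],.ref k0 k0 [(z1,[z1,z1,z2,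
    z3,y2])],.contra [y2,y1,y2,y1,z2],.contra [y1,z0,z0,y1,z1],.contra [y1,z0,z1]]),
    .geo true z1 k5 [(z0,z2),(z1,y1),(z0,z2),(z1,y2),(z2,y2),(z0,z1)] [(z1,[z1]),(z1,[z0,z1]),(z1,[z0,z0,z1]),(z1,[z0,z0,
    z0,z1]),(z1,[y1,y1,y1,y1,z1]),(z1,
    [])] z0 (Int.ofNat (nat_lit 524288)) (.s (.s (.s (.l k2) (.l k1)) (.l k1)) (.s (.l k3) (.l k1))) [⟨z0,z1,[[k0,k2],
    [k1,k3],[k4,k5]],.bnd k0⟩,⟨z1,z3,[[k0,k4],[k1,k3],[k2,k5]],.child (.ref k0 k3 [(z1,[y1,y1,z0,y1,y1,z1])])⟩],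
    .geo true z2 k5 [(z0,z4),(z2,y1),(z0,z4),(z2,y5),(z4,y4),(z0,z2)] [(z1,[z2]),(z1,[z0,z1]),(z1,[z0,z0,z2]),(z1,[z0,z0,
    z0,z1]),(z1,[y2,y1,y2,y1,z2]),(z1,
    [])] z0 (Int.ofNat (nat_lit 419431)) (.s (.s (.s (.l k2) (.l k1)) (.l k1)) (.s (.l k1) (.s (.l k1) (.l k1)))) [⟨z0,
    z1,[[k0,k2],[k1,k3],[k4,k5]],.bnd k0⟩],
    .geo true z2 k5 [(y4,z4),(z4,y2),(z2,y1),(z4,y2),(z2,y1),(z0,z2)] [(z1,[z2]),(z1,[z0,z2]),(z1,[z0,z0,z1]),(z1,[z0,z0,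
    z0,z2]),(z1,[y2,y2,y1,y2,z2]),(z1,
    [])] (Int.ofNat (nat_lit 1048576)) (Int.ofNat (nat_lit 2097152)) (.s (.s (.s (.l k1) (.l k1)) (.l k1)) (.s (.s (.l k1) (.l k1)) (.s (.s (.l k1) (.l k1)) (.s (.l k1) (.s (.l k1) (.s (.l k1) (.l k2))))))) [⟨z2,
    z1,[[k0,k1],[k2,k3],[k4,k5]],.bnd k0⟩],
    .old (.lp [(nat_lit 352),(nat_lit 238),(nat_lit 530),(nat_lit 274),(nat_lit 338),k186] [k146,k32,k114,k178,k0,k0,k128,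
    k128,k96,k96,k178,k166] k0 [[k0,k0,k0,k0,k0,k0,k0,k0,k0,k0,k110],[k0,k0,k0,k46],[k46,k0,k0,k0,k0,k0,k0,k0,k58],
    [k0,k0,k0,k0,k0,k124],[k0,k0,k124,k0,k0,k0,k0,(nat_lit 206),k0,k0,k0,k96],[k0,k0,k0,k0,k0,k0,k0,k34,k0,k0,k0,k32],
    [k0,k0,k0,k0,k34,(nat_lit 206)],[k0,k0,k0,k0,k0,k0,k0,k0,k14,k56],[k0,k0,k0,k0,k0,k0,k56,k0,k0,k0,(nat_lit 210),
    k26],[k0,k0,k0,k58,k0,k0,k14],[k0,k0,k0,k0,k32,k96,k0,k0,k0,k26],[k0,k110,k0,k0,k0,k0,k0,k0,k0,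
    (nat_lit 210)]] (nat_lit 960) k6
    [[(k8,k192),(k0,(nat_lit 242)),(k3,(nat_lit 320)),(k11,(nat_lit 358)),(k7,(nat_lit 466)),(k4,(nat_lit 530))],
    [(k10,(nat_lit 206)),(k1,(nat_lit 242)),(k6,(nat_lit 256)),(k2,(nat_lit 270)),(k9,(nat_lit 288)),(k5,
    (nat_lit 430))],[(k2,k192),(k6,(nat_lit 224)),(k9,(nat_lit 256)),(k10,(nat_lit 284)),(k1,(nat_lit 320)),(k5,
    (nat_lit 352))],[(k3,k192),(k11,k192),(k0,(nat_lit 270)),(k8,(nat_lit 320)),(k7,(nat_lit 412)),(k4,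
    (nat_lit 416))],[(k3,(nat_lit 352)),(k11,(nat_lit 364)),(k7,(nat_lit 402)),(k4,(nat_lit 406)),(k0,(nat_lit 430)),
    (k8,(nat_lit 492))],[(k6,k196),(k10,(nat_lit 256)),(k5,(nat_lit 406)),(k2,(nat_lit 416)),(k9,(nat_lit 468)),(k1,
    (nat_lit 530))],[(k10,k192),(k6,(nat_lit 240)),(k5,(nat_lit 402)),(k2,(nat_lit 412)),(k1,(nat_lit 466)),(k9,
    (nat_lit 512))],[(k4,k196),(k3,(nat_lit 224)),(k7,(nat_lit 240)),(k0,(nat_lit 256)),(k11,(nat_lit 292)),(k8,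
    (nat_lit 320))],[(k11,(nat_lit 254)),(k3,(nat_lit 256)),(k8,(nat_lit 282)),(k0,(nat_lit 288)),(k4,(nat_lit 468)),
    (k7,(nat_lit 512))],[(k1,k192),(k10,(nat_lit 230)),(k9,(nat_lit 282)),(k2,(nat_lit 320)),(k6,(nat_lit 320)),(k5,
    (nat_lit 492))],[(k2,k192),(k9,(nat_lit 254)),(k6,(nat_lit 292)),(k1,(nat_lit 358)),(k5,(nat_lit 364)),(k10,
    (nat_lit 396))],[(k7,k192),(k0,(nat_lit 206)),(k8,(nat_lit 230)),(k4,(nat_lit 256)),(k3,(nat_lit 284)),(k11,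
    (nat_lit 396))]]
    [] k0
    [[k2,k0,k0,k0,k0,k0],[k3,k0,k0,k0,k0,k0],[k2,k1,k0,k0,k0,k0],[k2,k0,k0,k0,k1,k0],[k2,k0,k0,k0,k1,k1],[k2,k0,k0,k0,
    k0,k1],[k1,k1,k0,k0,k0,k0],[k1,k2,k0,k0,k0,k0],[k1,k2,k0,k0,k0,k1],[k1,k1,k0,k0,k1,k0],[k1,k1,k0,k0,k0,k1],[k1,k0,
    k0,k1,k0,k0],[k1,k0,k0,k0,k1,k0],[k1,k2,k0,k0,k1,k0],[k1,k1,k0,k0,k1,k1],[k1,k0,k0,k0,k2,k0],[k1,k0,k0,k0,k2,k1],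
    [k1,k0,k0,k0,k1,k1],[k1,k0,k0,k1,k1,k1],[k1,k0,k0,k0,k0,k1],[k1,k0,k0,k1,k0,k1],[k0,k2,k0,k0,k0,k0],[k0,k3,k0,k0,
    k0,k0],[k0,k4,k0,k0,k0,k0],[k0,k3,k0,k0,k0,k1],[k0,k2,k0,k1,k0,k0],[k0,k2,k0,k1,k0,k1],[k0,k2,k0,k0,k1,k0],[k0,k2,
    k0,k0,k1,k1],[k0,k2,k0,k0,k0,k1],[k0,k1,k1,k0,k0,k0],[k0,k1,k1,k1,k0,k1],[k0,k1,k1,k0,k0,k1],[k0,k1,k0,k1,k0,k0],
    [k0,k1,k0,k2,k0,k0],[k0,k1,k0,k2,k0,k1],[k0,k1,k0,k1,k0,k1],[k0,k1,k0,k0,k1,k0],[k0,k1,k0,k0,k2,k0],[k0,k1,k0,k0,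
    k1,k1],[k0,k1,k0,k0,k0,k1],[k0,k2,k0,k0,k0,k2],[k0,k1,k0,k0,k0,k2],[k0,k0,k2,k0,k0,k0],[k0,k0,k1,k1,k0,k0],[k0,k0,
    k1,k2,k0,k0],[k0,k0,k1,k1,k0,k1],[k0,k0,k1,k0,k0,k1],[k0,k0,k0,k2,k0,k0],[k0,k0,k0,k3,k0,k0],[k0,k0,k0,k2,k0,k1],
    [k0,k0,k0,k1,k1,k0],[k0,k0,k0,k1,k0,k1],[k0,k0,k0,k1,k1,k1],[k0,k0,k0,k1,k0,k2],[k0,k0,k0,k0,k2,k0],[k0,k0,k0,k0,
    k3,k0],[k0,k0,k0,k0,k2,k1],[k0,k0,k0,k0,k1,k1],[k0,k0,k0,k0,k1,k2],[k0,k0,k0,k0,k0,k2]]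
    [.contra [z1],.ref k6 k4 [(z2,[y1,z1,y1,y2,z2]),(z1,[z1,y3]),(z1,[z0,z1,z0,z1])],.ref (nat_lit 242) k3 [(z1,[z2,
    y4,y1,y3]),(z1,[y1,z1,z0,z0,z1]),(z1,[z0,z1,z0,z1])],.ref k6 k4 [(z2,[y1,z0,y1,y2,z2]),(z1,[z1,y2]),(z1,[z0,z1,z0,
    z1])],.ref (nat_lit 221) k1 [(z1,[y2,z2,y1,y1,z2]),(z1,[z1,y1,z1,z1,y1]),(z1,[z2,y1,z1,z2,y2])],.ref k1 k2 [(z1,
    [z1,y1])],.contra [y1,z0,z0,y1,z1],.contra [z1,z1,y1],.ref k1 k2 [(z1,[z1,z0,y1])],.ref (nat_lit 242) k3 [(z1,[z2,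
    y2,y1,y3]),(z1,[y1,z0,z0,z0,z1]),(z1,[z0,z1,z0,z1])],.contra [y1,z0,z0,y1,z1],.contra [y1,z0,z0,y1,z1],
    .contra [z1,z1],.ref k6 k4 [(z2,[y1,y1,z0,y2,z2]),(z1,[z1,y1,y1]),(z1,[z0,z1,z0,z1])],.ref k178 k4 [(z1,[y1,z0,z0,
    z0,z1])],.ref k6 k4 [(z2,[y1,y1,y1,y2,z2]),(z1,[z1,y1]),(z1,[z0,z1,z0,z1])],.ref (nat_lit 221) k1 [(z1,[y2,z0,y1,
    y1,z2]),(z1,[z1,z0,z1,z1,y1]),(z1,[z2,z1,z1,z2,y2])],.ref k1 k2 [(z1,[z1])],.contra [z2,z1,z1,z2,y2],.contra [y1,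
    z0,z0,y1,z1],.contra [y2,z1,y1,y2,z2],.contra [z1],.contra [y1,y1,z1,y1,z1],.contra [z1,z2,y2],.contra [y1,y1,z1,
    y1,z1],.contra [y1,y1,z1,y1,z1],.contra [y2,y1,z1,y2,z2],.contra [z1,z2,y1],.ref k1 k2 [(z1,[z1,z1,y1])],
    .contra [y1,y1,z1,y1,z1],.contra [y2,z1,z1,z2],.contra [y1,z1,z0,z0,z1],.ref (nat_lit 245) k4 [(z1,[y1,y1,z0,y2,
    z1]),(z1,[z0,z0,z0,z1]),(z1,[z2,z0,y1,y1]),(z1,[z0,z1,z0,z1])],.contra [y1,y1,z1,y1,z1],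
    .ref (nat_lit 235) k5 [(z1,[z1,z1,z0,z1,y1]),(z1,[z2,z4,z1,z5,y4]),(z1,[y1,y2,z0,y2,z2])],.ref k178 k4 [(z1,[z1,
    z1,z0,z2,y1])],.contra [y1,z0,z0,y1,z1],.contra [y1,y1,z0,y1,z1],.ref (nat_lit 242) k3 [(z1,[z2,z0,y1,y3]),(z1,
    [y1,y1,z0,z0,z1]),(z1,[z0,z1,z0,z1])],.contra [y1,y1,z0,y1,z1],.contra [y1,y1,z1,y1,z1],
    .ref (nat_lit 243) k7 [(z1,[z0,z1,y1]),(z2,[z1]),(z1,[z0,z0,y1]),(z2,[y1,y2,z2,y2,z2])],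
    .ref (nat_lit 244) k7 [(z1,[z0,z1,y1]),(z1,[z1]),(z1,[z0,z0,y1]),(z1,[y1,y2,z2,y2,z2])],.contra [y1,z2,z0,z2],
    .ref k178 k4 [(z1,[z1])],.ref k1 k2 [(z2,[y1,z0,y1,y1,z2])],.ref (nat_lit 242) k3 [(z1,[y2,y2,y1,y3,z2]),(z1,
    [z1]),(z1,[z0,z1,z0,z1])],.ref k0 k0 [(z1,[z1])],.contra [z1],.ref (nat_lit 217) k4 [(z1,[z1]),(z1,[z0,z0,z0,
    z1])],.ref (nat_lit 221) k1 [(z1,[z2,z2,z1,z3,y2]),(z1,[y1,y1,z0,y1,z1]),(z1,[y2,y1,y1,y2,z2])],.contra [y1,y1,z0,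
    y1,z1],.contra [y2,z1,y1,y2,z2],.contra [y2,y1,y1,y2,z2],.ref (nat_lit 223) k1 [(z1,[z1,z2,z1,z3,y2]),(z1,[y1,y2,
    z0,y2,z2]),(z1,[y1,y1,y1,y2,z2])],.contra [z1,z2],.ref k6 k4 [(z2,[y1,y2,y1,y2,z2]),(z1,[z1]),(z1,[z0,z1,z0,z1])],
    .ref k1 k2 [(z1,[z1,z1])],.contra [y1,y1,z0,y1,z1],.ref (nat_lit 243) k7 [(z1,[z0,z1,y1]),(z2,[z1,z0,z1]),(z1,[z0,
    z0,y1]),(z2,[y1,y2,z1,y2,z2])],.contra [z1]]),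
    .geo true z2 k5 [(y8,z8),(z8,y6),(z4,y3),(z4,y2),(z0,z1),(z0,z2)] [(z1,[z2]),(z1,[z0,z2]),(z1,[z0,z0,z1]),(z1,[z0,z0,
    z0,z2]),(z1,[y2,y2,y1,y2,z2]),(z1,
    [])] (Int.ofNat (nat_lit 1048576)) (Int.ofNat (nat_lit 1398102)) (.s (.s (.l k1) (.l k1)) (.s (.l k1) (.l k1))) [],
    .old (.lp [(nat_lit 358),(nat_lit 454),(nat_lit 566),(nat_lit 380),(nat_lit 600),(nat_lit 516)] [k121,k121,k73,k73,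
    k17,k17,k115,k105,k0,k0,k42,k42] k0 [[k0,k0,k174],[k0,k0,k0,k0,k0,k0,k68,k0,k0,k0,k0,k124],[k0,k0,k0,k0,k0,k0,k0,
    k0,k182,k28],[k0,k174,k0,k0,k0,k30],[k0,k0,k30,k0,k0,k0,k0,k34,k0,k0,k28],[k0,k0,k0,k0,k0,k0,k0,k92,k0,k0,k86],
    [k0,k0,k0,k0,k92,k34],[k68,k0,k0,k0,k0,k0,k0,k0,k188],[k0,k0,k0,k28,k0,k0,k0,k0,k0,k0,k0,k88],[k0,k0,k0,k182,k0,
    k0,k188],[k124,k0,k0,k0,k0,k0,k0,k0,k0,k88],[k0,k0,k0,k0,k86,k28]] (nat_lit 1440) k6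
    [[(k7,(nat_lit 288)),(k3,(nat_lit 406)),(k4,(nat_lit 434)),(k8,(nat_lit 479)),(k0,(nat_lit 482)),(k11,
    (nat_lit 525))],[(k5,(nat_lit 288)),(k2,(nat_lit 406)),(k6,(nat_lit 432)),(k10,(nat_lit 437)),(k9,(nat_lit 479)),
    (k1,(nat_lit 482))],[(k10,(nat_lit 361)),(k1,(nat_lit 406)),(k6,(nat_lit 412)),(k9,(nat_lit 459)),(k5,
    (nat_lit 510)),(k2,(nat_lit 628))],[(k11,(nat_lit 303)),(k0,(nat_lit 406)),(k7,(nat_lit 452)),(k8,(nat_lit 499)),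
    (k4,(nat_lit 510)),(k3,(nat_lit 628))],[(k0,(nat_lit 288)),(k7,(nat_lit 478)),(k3,(nat_lit 510)),(k4,
    (nat_lit 536)),(k11,(nat_lit 569)),(k8,(nat_lit 765))],[(k1,(nat_lit 434)),(k6,(nat_lit 434)),(k2,(nat_lit 510)),
    (k5,(nat_lit 536)),(k10,(nat_lit 627)),(k9,(nat_lit 675))],[(k1,(nat_lit 288)),(k6,(nat_lit 288)),(k2,
    (nat_lit 452)),(k5,(nat_lit 478)),(k10,(nat_lit 481)),(k9,(nat_lit 529))],[(k7,(nat_lit 288)),(k3,(nat_lit 412)),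
    (k0,(nat_lit 432)),(k4,(nat_lit 434)),(k11,(nat_lit 443)),(k8,(nat_lit 673))],[(k11,(nat_lit 370)),(k3,
    (nat_lit 459)),(k0,(nat_lit 479)),(k7,(nat_lit 529)),(k8,(nat_lit 600)),(k4,(nat_lit 675))],[(k10,(nat_lit 470)),
    (k1,(nat_lit 479)),(k2,(nat_lit 499)),(k9,(nat_lit 600)),(k6,(nat_lit 673)),(k5,(nat_lit 765))],[(k2,
    (nat_lit 303)),(k9,(nat_lit 370)),(k6,(nat_lit 443)),(k10,(nat_lit 516)),(k1,(nat_lit 525)),(k5,(nat_lit 569))],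
    [(k3,(nat_lit 361)),(k0,(nat_lit 437)),(k8,(nat_lit 470)),(k7,(nat_lit 481)),(k11,(nat_lit 516)),(k4,
    (nat_lit 627))]]
    [] k0
    [[k2,k0,k0,k0,k0,k0],[k2,k1,k0,k0,k0,k0],[k2,k0,k1,k0,k0,k0],[k2,k0,k0,k1,k0,k0],[k1,k1,k0,k0,k0,k0],[k1,k1,k1,k0,
    k0,k0],[k1,k1,k0,k1,k0,k0],[k1,k1,k0,k0,k1,k0],[k1,k1,k0,k0,k0,k1],[k1,k0,k1,k0,k0,k0],[k1,k0,k2,k0,k0,k0],[k1,k0,
    k1,k1,k0,k0],[k1,k0,k0,k1,k0,k0],[k1,k0,k0,k2,k0,k0],[k1,k1,k0,k2,k0,k0],[k1,k0,k1,k2,k0,k0],[k1,k0,k0,k3,k0,k0],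
    [k1,k0,k0,k1,k0,k1],[k1,k0,k0,k0,k1,k0],[k1,k0,k0,k0,k1,k1],[k1,k0,k0,k0,k0,k1],[k0,k2,k0,k0,k0,k0],[k0,k2,k0,k0,
    k0,k1],[k0,k1,k1,k0,k0,k0],[k0,k1,k1,k1,k0,k0],[k0,k1,k0,k1,k0,k0],[k0,k1,k0,k2,k0,k0],[k0,k1,k0,k1,k0,k1],[k0,k1,
    k0,k0,k1,k0],[k0,k1,k0,k0,k1,k1],[k0,k1,k0,k0,k0,k1],[k0,k2,k0,k0,k0,k2],[k0,k1,k0,k0,k0,k2],[k0,k0,k2,k0,k0,k0],
    [k0,k0,k1,k1,k0,k0],[k0,k0,k1,k2,k0,k0],[k0,k0,k1,k0,k0,k1],[k0,k0,k0,k2,k0,k0],[k0,k0,k0,k3,k0,k0],[k0,k0,k0,k4,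
    k0,k0],[k0,k0,k0,k2,k0,k1],[k0,k0,k0,k1,k1,k0],[k0,k0,k0,k1,k0,k1],[k0,k0,k0,k0,k2,k0],[k0,k0,k0,k0,k1,k1],[k0,k0,
    k0,k0,k1,k2],[k0,k0,k0,k0,k0,k2]]
    [.contra [z1],.contra [y1,z1,z1,z2],.ref k178 k10 [(z1,[y1,z1,z1,z2])],.ref k1 k2 [(z1,[z1,z0,z1,z1,y1])],
    .contra [y1,z0,z0,y1,z1],.contra [z2,y1,y1,y2],.contra [y1,z0,z0,y1,z1],.ref (nat_lit 247) k11 [(z1,[z2,y1,y1,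
    y4]),(z1,[y1,z1,z1,z3]),(z1,[y2,z1,z2,z3]),(z1,[z0,z0,z0,z1])],.contra [y2,z1,z2,z1],.contra [y2,z1,z1,z2],
    .contra [z1,y1,y1,y3,z1],.contra [z1,z0,z1,z0,y1],.contra [y2,z0,y1,y1,z2],.contra [y2,y1,y3,y4,z4],.contra [z2,
    z1,z3,z4,y4],.contra [z1,z0,z1,z0,y1],.contra [z1,z1,z3,z3,y3],.contra [y1,z0,z0,y1,z1],
    .ref (nat_lit 246) k10 [(z1,[y1,z0,z0,z1]),(z1,[y1,y1,y2,y2,z2]),(z1,[z1])],.ref k1 k2 [(z1,[z1])],.contra [y2,z1,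
    z2,z1],.contra [z1],.ref (nat_lit 223) k9 [(z1,[z1,y1,y2]),(z1,[y1,z0,z0,y2,z2]),(z1,[y1,z1,z2,z1])],
    .ref k178 k10 [(z1,[z1])],.ref k1 k2 [(z1,[y1,z0,z0,z0,z1])],.contra [y1,z0,z0,y1,z1],.ref k178 k10 [(z1,[z1,z1,
    z2,z3,y2])],.contra [y1,z0,z0,y1,z1],.contra [y1,z0,z1],.contra [y1,z0,z1],.contra [y2,z1,z2,z1],
    .ref k178 k10 [(z1,[z1,z0,y1,z1])],.contra [z1,y1,y3,y2,z2],.contra [z1],.ref k178 k4 [(z1,[z1])],.contra [z1,z1,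
    z2,z3,y2],.ref k0 k0 [(z1,[z1])],.contra [z1],.ref k178 k4 [(z1,[z1,z1,z2,z3,y2])],.contra [z1,z2,z4,z6,y4],
    .ref k0 k0 [(z1,[z1,z1,z2,z3,y2])],.contra [y2,y1,y2,y1,z2],.contra [y1,z0,z0,y1,z1],.contra [y1,z0,z0,z2],
    .contra [y2,z0,z1,z1],.contra [y1,z0,z1],.contra [z1]]),
    .old (.lp [(nat_lit 940),(nat_lit 970),(nat_lit 1182),(nat_lit 964),(nat_lit 728),(nat_lit 970)] [k121,k121,k106,k106,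
    k0,k0,k137,k81,(nat_lit 227),(nat_lit 227),k106,k106] k0 [[k0,k0,k0,k0,k0,k0,k6,k91],[k0,k0,k0,(nat_lit 339),k0,
    k0,k0,k0,k0,k0,k30],[(nat_lit 339)],[k0,k0,k0,k0,k97,k127],[k0,k0,k127,k0,k0,k0,k0,(nat_lit 224)],[k0,k0,k97,k0,
    k0,k0,k0,k0,k0,k0,k0,(nat_lit 419)],[k0,k91,k0,k0,k0,(nat_lit 224),k0,k0,(nat_lit 363)],[k0,k6],[k0,k0,k0,k0,k0,
    k0,k0,k0,k0,k0,(nat_lit 212)],[k0,k0,k0,k0,k0,k0,k0,(nat_lit 363)],[k0,k0,k0,k0,(nat_lit 419)],[k30,k0,k0,k0,k0,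
    k0,k0,k0,k0,(nat_lit 212)]] (nat_lit 2880) k6
    [[(k8,(nat_lit 622)),(k3,(nat_lit 925)),(k0,(nat_lit 940)),(k11,(nat_lit 955)),(k7,(nat_lit 980)),(k4,
    (nat_lit 1480))],[(k9,(nat_lit 828)),(k6,(nat_lit 833)),(k1,(nat_lit 940)),(k2,(nat_lit 955)),(k10,(nat_lit 985)),
    (k5,(nat_lit 1400))],[(k2,(nat_lit 631)),(k1,(nat_lit 925)),(k9,(nat_lit 940)),(k6,(nat_lit 945)),(k10,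
    (nat_lit 970)),(k5,(nat_lit 1076))],[(k3,(nat_lit 631)),(k8,(nat_lit 849)),(k0,(nat_lit 955)),(k11,(nat_lit 970)),
    (k7,(nat_lit 1122)),(k4,(nat_lit 1173))],[(k8,(nat_lit 955)),(k7,(nat_lit 1004)),(k4,(nat_lit 1055)),(k3,
    (nat_lit 1076)),(k11,(nat_lit 1076)),(k0,(nat_lit 1400))],[(k6,(nat_lit 821)),(k9,(nat_lit 955)),(k5,
    (nat_lit 1055)),(k10,(nat_lit 1076)),(k2,(nat_lit 1173)),(k1,(nat_lit 1480))],[(k10,(nat_lit 576)),(k6,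
    (nat_lit 964)),(k1,(nat_lit 980)),(k5,(nat_lit 1004)),(k9,(nat_lit 1098)),(k2,(nat_lit 1122))],[(k11,
    (nat_lit 576)),(k8,(nat_lit 818)),(k4,(nat_lit 821)),(k0,(nat_lit 833)),(k3,(nat_lit 945)),(k7,(nat_lit 964))],
    [(k0,(nat_lit 828)),(k11,(nat_lit 849)),(k3,(nat_lit 940)),(k4,(nat_lit 955)),(k8,(nat_lit 1091)),(k7,
    (nat_lit 1098))],[(k1,(nat_lit 622)),(k6,(nat_lit 818)),(k2,(nat_lit 849)),(k10,(nat_lit 849)),(k5,(nat_lit 955)),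
    (k9,(nat_lit 1091))],[(k6,(nat_lit 576)),(k9,(nat_lit 849)),(k1,(nat_lit 955)),(k2,(nat_lit 970)),(k5,
    (nat_lit 1076)),(k10,(nat_lit 1182))],[(k7,(nat_lit 576)),(k8,(nat_lit 849)),(k3,(nat_lit 970)),(k0,
    (nat_lit 985)),(k4,(nat_lit 1076)),(k11,(nat_lit 1182))]]
    [] k0
    [[k2,k0,k0,k0,k0,k0],[k3,k0,k0,k0,k0,k0],[k2,k1,k0,k0,k0,k0],[k2,k0,k0,k1,k0,k0],[k2,k0,k0,k0,k1,k0],[k1,k1,k0,k0,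
    k0,k0],[k1,k2,k0,k0,k0,k0],[k1,k1,k0,k0,k1,k0],[k1,k0,k0,k1,k0,k0],[k1,k0,k0,k2,k0,k0],[k1,k0,k0,k1,k1,k0],[k1,k0,
    k0,k1,k0,k1],[k1,k0,k0,k0,k1,k0],[k1,k0,k0,k0,k2,k0],[k1,k0,k0,k0,k1,k1],[k1,k0,k0,k0,k0,k1],[k0,k2,k0,k0,k0,k0],
    [k0,k3,k0,k0,k0,k0],[k0,k4,k0,k0,k0,k0],[k0,k2,k0,k1,k0,k0],[k0,k2,k0,k0,k1,k0],[k0,k2,k0,k0,k0,k1],[k0,k1,k1,k0,
    k0,k0],[k0,k1,k0,k1,k0,k0],[k0,k1,k0,k1,k0,k1],[k0,k1,k0,k0,k1,k0],[k0,k1,k0,k0,k1,k1],[k0,k1,k0,k0,k0,k1],[k0,k0,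
    k2,k0,k0,k0],[k0,k0,k1,k1,k0,k0],[k0,k0,k1,k2,k0,k0],[k0,k0,k1,k1,k1,k0],[k0,k0,k1,k1,k0,k1],[k0,k0,k1,k0,k1,k0],
    [k0,k0,k1,k0,k0,k1],[k0,k0,k0,k2,k0,k0],[k0,k0,k0,k2,k0,k1],[k0,k0,k0,k1,k1,k0],[k0,k0,k0,k1,k1,k1],[k0,k0,k0,k1,
    k0,k1],[k0,k0,k0,k2,k0,k2],[k0,k0,k0,k1,k1,k2],[k0,k0,k0,k1,k0,k2],[k0,k0,k0,k0,k2,k0],[k0,k0,k0,k0,k2,k1],[k0,k0,
    k0,k0,k1,k1],[k0,k0,k0,k0,k0,k2]]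
    [.contra [z1],.contra [y1,z1,y1,y2,z2],.ref k178 k4 [(z1,[y1,z1,z0,z0,z1])],.contra [z2,y1,z1,z2,y2],
    .ref (nat_lit 221) k1 [(z1,[y2,z2,y1,y1,z2]),(z1,[z1,y1,z1,z1,y1]),(z1,[z2,y1,z1,z2,y2])],.contra [y1,z0,z0,y1,
    z1],.contra [z1,z1,y1],.ref (nat_lit 242) k3 [(z1,[z2,y2,y1,y3]),(z1,[y1,z0,z0,z0,z1]),(z1,[z0,z1,z0,z1])],
    .contra [y2,z1,y1,y2,z2],.contra [y1,z1,y1,y2,z2],.ref k27 k0 [(z1,[z0,z0,z0,z1]),(z1,[z1])],.ref k27 k0 [(z1,[z0,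
    z0,z0,z1]),(z1,[y1,z0,y1,y2,z2])],.ref (nat_lit 232) k1 [(z1,[y1,z1,z0,z1]),(z1,[z1,y1,z1]),(z1,[z1])],
    .ref (nat_lit 226) k1 [(z1,[y1,z1,z0,z1]),(z2,[z1,y1,z1]),(z1,[z1])],.contra [z1,z1],.ref k178 k2 [(z1,[z1])],
    .contra [z1],.contra [y1,y1,z1,y1,z1],.contra [z1,z2,y2],.contra [y2,y1,z1,y2,z2],.ref (nat_lit 232) k1 [(z1,[y1,
    z0,z1,z1]),(z1,[z1]),(z1,[z1,z1,y1])],.ref k178 k2 [(z1,[z1,z1,y1])],.contra [y2,z1,z1,z2],.contra [y1,z0,z0,y1,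
    z1],.contra [y1,y1,z0,y1,z1],.contra [y1,y1,z0,y1,z1],.contra [y1,y1,z0,y1,z1],.contra [y1,y1,z0,y1,z1],
    .contra [y1,z2,z0,z2],.ref k178 k4 [(z1,[z1])],.contra [y1,z2,y1,y1,z2],.ref k1 k3 [(z1,[z1])],
    .ref (nat_lit 242) k3 [(z1,[y2,y2,y1,y3,z2]),(z1,[z1]),(z1,[z0,z1,z0,z1])],.contra [y1,z0,z0,z1],.contra [y1,z0,
    z0,z1],.contra [z1],.ref (nat_lit 221) k1 [(z1,[z2,z2,z1,z3,y2]),(z1,[y1,y1,z0,y1,z1]),(z1,[y2,y1,y1,y2,z2])],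
    .contra [y1,y1,z0,y1,z1],.contra [y2,y1,y1,y2,z2],.contra [y1,y1,z0,y1,z1],.ref (nat_lit 226) k1 [(z1,[z1,z2,z1,
    z3,y2]),(z2,[y1,y2,z0,y2,z2]),(z1,[y1,y1,y1,y2,z2])],.ref k27 k0 [(z1,[z0,z0,z0,z1]),(z1,[y1,y1,y1,y2,z2])],
    .ref (nat_lit 223) k1 [(z1,[z1,z2,z1,z3,y2]),(z1,[y1,y2,z0,y2,z2]),(z1,[y1,y1,y1,y2,z2])],.contra [z1],
    .ref (nat_lit 232) k1 [(z1,[y1,z0,z0,z1]),(z1,[z1,z0,z1]),(z1,[z1,z1])],.contra [z1,z0,z1],.contra [z1]]),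
    .old (.lp [(nat_lit 1042),(nat_lit 1166),(nat_lit 1014),(nat_lit 1056),(nat_lit 1276),(nat_lit 1152)] [(nat_lit 211),
    (nat_lit 211),(nat_lit 298),k0,(nat_lit 225),(nat_lit 225),(nat_lit 204),(nat_lit 204),k94,k94,k156,k156] k0 [[k0,
    k0,k0,k14,k0,k0,k0,k0,k0,k0,(nat_lit 344)],[k0,k0,k0,k0,k0,k0,(nat_lit 248),(nat_lit 588)],[k0,k14,k0,k0,
    (nat_lit 290)],[],[k0,k0,k0,k0,k0,k0,(nat_lit 206),k0,k0,k0,k0,k110],[k0,k0,k0,(nat_lit 290),k0,k0,k138],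
    [(nat_lit 588),k0,k0,k0,k0,k0,k0,k0,k0,k96],[(nat_lit 248),k0,k0,k0,k138,(nat_lit 206)],[k0,k0,k0,k0,k0,k0,k0,
    k96],[k0,k0,k0,k0,k0,k0,k0,k0,k0,k0,k138,(nat_lit 454)],[k0,k0,k0,k0,k0,k110,k0,k0,(nat_lit 454)],[k0,
    (nat_lit 344),k0,k0,k0,k0,k0,k0,k138]] (nat_lit 3360) k6
    [[(k0,(nat_lit 698)),(k11,(nat_lit 959)),(k4,(nat_lit 1028)),(k7,(nat_lit 1159)),(k3,(nat_lit 1253)),(k8,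
    (nat_lit 1613))],[(k1,(nat_lit 698)),(k2,(nat_lit 941)),(k5,(nat_lit 1028)),(k10,(nat_lit 1097)),(k6,
    (nat_lit 1297)),(k9,(nat_lit 1747))],[(k6,(nat_lit 672)),(k9,(nat_lit 1122)),(k2,(nat_lit 1166)),(k1,
    (nat_lit 1253)),(k5,(nat_lit 1253)),(k10,(nat_lit 1652))],[(k7,(nat_lit 672)),(k0,(nat_lit 941)),(k4,
    (nat_lit 941)),(k11,(nat_lit 1010)),(k8,(nat_lit 1072)),(k3,(nat_lit 1166))],[(k0,(nat_lit 1028)),(k7,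
    (nat_lit 1035)),(k11,(nat_lit 1083)),(k8,(nat_lit 1145)),(k3,(nat_lit 1253)),(k4,(nat_lit 1304))],[(k9,
    (nat_lit 939)),(k2,(nat_lit 941)),(k10,(nat_lit 973)),(k1,(nat_lit 1028)),(k6,(nat_lit 1173)),(k5,
    (nat_lit 1304))],[(k2,(nat_lit 672)),(k9,(nat_lit 1028)),(k5,(nat_lit 1035)),(k10,(nat_lit 1104)),(k1,
    (nat_lit 1159)),(k6,(nat_lit 1262))],[(k3,(nat_lit 672)),(k8,(nat_lit 1070)),(k11,(nat_lit 1104)),(k4,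
    (nat_lit 1173)),(k7,(nat_lit 1262)),(k0,(nat_lit 1297))],[(k4,(nat_lit 939)),(k7,(nat_lit 1028)),(k3,
    (nat_lit 1122)),(k8,(nat_lit 1276)),(k11,(nat_lit 1310)),(k0,(nat_lit 1747))],[(k6,(nat_lit 1070)),(k2,
    (nat_lit 1072)),(k5,(nat_lit 1145)),(k9,(nat_lit 1276)),(k10,(nat_lit 1352)),(k1,(nat_lit 1613))],[(k10,
    (nat_lit 698)),(k1,(nat_lit 959)),(k2,(nat_lit 1010)),(k5,(nat_lit 1083)),(k6,(nat_lit 1104)),(k9,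
    (nat_lit 1310))],[(k11,(nat_lit 698)),(k4,(nat_lit 973)),(k0,(nat_lit 1097)),(k7,(nat_lit 1104)),(k8,
    (nat_lit 1352)),(k3,(nat_lit 1652))]]
    [] k0
    [[k2,k0,k0,k0,k0,k0],[k3,k0,k0,k0,k0,k0],[k4,k0,k0,k0,k0,k0],[k2,k1,k0,k0,k0,k0],[k2,k0,k1,k0,k0,k0],[k2,k0,k0,k1,
    k0,k0],[k2,k0,k0,k0,k0,k1],[k1,k1,k0,k0,k0,k0],[k1,k1,k1,k0,k0,k0],[k1,k1,k0,k1,k0,k0],[k1,k0,k1,k0,k0,k0],[k1,k0,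
    k1,k0,k0,k1],[k1,k0,k0,k1,k0,k0],[k1,k0,k0,k0,k0,k1],[k1,k0,k0,k0,k0,k2],[k0,k2,k0,k0,k0,k0],[k0,k2,k0,k1,k0,k0],
    [k0,k1,k1,k0,k0,k0],[k0,k1,k1,k1,k0,k0],[k0,k1,k1,k0,k1,k0],[k0,k1,k1,k0,k0,k1],[k0,k1,k0,k1,k0,k0],[k0,k2,k0,k2,
    k0,k0],[k0,k1,k0,k2,k0,k0],[k0,k1,k0,k1,k1,k0],[k0,k1,k0,k1,k0,k1],[k0,k1,k0,k0,k1,k0],[k0,k1,k0,k0,k0,k1],[k0,k0,
    k2,k0,k0,k0],[k0,k0,k1,k1,k0,k0],[k0,k0,k1,k1,k1,k0],[k0,k0,k1,k1,k0,k1],[k0,k0,k1,k0,k1,k0],[k0,k0,k1,k0,k0,k1],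
    [k0,k0,k1,k0,k0,k2],[k0,k0,k0,k2,k0,k0],[k0,k0,k0,k1,k1,k0],[k0,k0,k0,k1,k0,k1],[k0,k0,k0,k1,k0,k2],[k0,k0,k0,k0,
    k2,k0],[k0,k0,k0,k0,k1,k1],[k0,k0,k0,k0,k0,k2],[k0,k0,k0,k0,k0,k3],[k0,k0,k0,k0,k0,k4]]
    [.contra [z1],.contra [z1,y2,z0,z1],.contra [z1,y2,z0,z1],.contra [z1,y2,z0,z1],.contra [z1,y2,z0,z1],.contra [z1,
    z2,z0,y1],.contra [z2,y3,z0,z2],.ref k178 k8 [(z1,[z1])],.ref k0 k2 [(z1,[y2,z3,z2,z1])],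
    .ref (nat_lit 248) k1 [(z1,[y2,z5,z5,z3,y3]),(z1,[z1,y2,y1,z0,z1]),(z1,[z0,z0,y1,y1,z1])],.ref k1 k3 [(z1,[z1,y2,
    y1,z0,z1])],.ref k178 k8 [(z1,[y1,z2,z1])],.ref k0 k2 [(z1,[z1])],.ref k0 k2 [(z1,[z2,y1,z0,z1])],.contra [z1,z1],
    .contra [z1],.ref k178 k8 [(z2,[z1,z2,z0,y1])],.contra [y2,z1,z2,z2],.contra [y2,z1,z2,z2],
    .ref (nat_lit 249) k7 [(z1,[y1,z0,y1,y1,z1]),(z1,[y1,y1,y1,y1,z1]),(z1,[z1])],.contra [y1,z2,z1],.contra [y2,z1,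
    z2,z2],.ref (nat_lit 226) k3 [(z1,[z1,y1,y3,y3,z1]),(z2,[y1,z0,z2,z2]),(z1,[y1,z1,z2,z2])],
    .ref (nat_lit 221) k3 [(z1,[z2,y1,y3,y3,z1]),(z1,[y1,z0,z1,z1]),(z1,[y2,z1,z2,z2])],.ref k178 k8 [(z1,[z1,z2,z1,
    z0,y1])],.contra [y1,z0,z1,z1],.ref k0 k3 [(z1,[z1])],.contra [y1,z0,z1,z1],.contra [z1],.contra [y2,z1,z2,z2],
    .ref k1 k3 [(z1,[z1])],.contra [y1,z0,z1,z1],.ref (nat_lit 246) k7 [(z1,[y1,z0,y1,y1,z1]),(z1,[y1,y1,y1,y1,z1]),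
    (z1,[z1])],.contra [y1,z0,z1,z1],.ref k1 k3 [(z1,[z1,y1,y1,z0,z1])],.contra [z1],.contra [z1,z1,z1,z0,y1],
    .contra [y1,z0,z1,z1],.ref k0 k2 [(z1,[z1,z1])],.contra [y1,z0,y2,y2,z2],.contra [y2,y1,y2,y2,z2],.contra [z1],
    .ref k0 k2 [(z1,[z2,z1,z0,z1])],.contra [z1,z2]]),
    .old (.lp [(nat_lit 6520),(nat_lit 9552),(nat_lit 8406),(nat_lit 9662),(nat_lit 10180),
    (nat_lit 9412)] [(nat_lit 2075),(nat_lit 1585),(nat_lit 314),(nat_lit 314),(nat_lit 887),(nat_lit 887),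
    (nat_lit 259),(nat_lit 259),k0,k0,(nat_lit 384),(nat_lit 384)] k0 [[k0,k0,(nat_lit 1074),(nat_lit 656),k0,k0,k0,
    k0,k0,k0,k0,(nat_lit 838)],[k0,k0,k0,k0,k0,k0,(nat_lit 3032),k0,k0,k0,k0,(nat_lit 4106)],[k0,(nat_lit 656),k0,k0,
    k0,k0,k0,k0,(nat_lit 4106)],[k0,(nat_lit 1074),k0,k0,(nat_lit 3616),(nat_lit 2192)],[k0,k0,(nat_lit 2192),k0,k0,
    k0,k0,k0,k0,k0,(nat_lit 2332)],[k0,k0,(nat_lit 3616),k0,k0,k0,k0,(nat_lit 4188),k0,k0,(nat_lit 2960)],[k0,k0,k0,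
    k0,(nat_lit 4188)],[(nat_lit 3032),k0,k0,k0,k0,k0,k0,k0,(nat_lit 3478)],[k0,k0,k0,k0,k0,k0,k0,k0,k0,k0,k0,
    (nat_lit 2374)],[k0,k0,k0,(nat_lit 4106),k0,k0,(nat_lit 3478)],[(nat_lit 4106),(nat_lit 838),k0,k0,k0,k0,k0,k0,k0,
    (nat_lit 2374)],[k0,k0,k0,k0,(nat_lit 2960),(nat_lit 2332)]] (nat_lit 26880) k6
    [[(k4,(nat_lit 5376)),(k7,(nat_lit 5376)),(k8,(nat_lit 8595)),(k3,(nat_lit 9119)),(k11,(nat_lit 10585)),(k0,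
    (nat_lit 10626))],[(k5,(nat_lit 6144)),(k10,(nat_lit 6883)),(k2,(nat_lit 7135)),(k9,(nat_lit 8105)),(k1,
    (nat_lit 10626)),(k6,(nat_lit 10878))],[(k10,(nat_lit 5376)),(k9,(nat_lit 6834)),(k1,(nat_lit 9119)),(k6,
    (nat_lit 9607)),(k5,(nat_lit 9635)),(k2,(nat_lit 10626))],[(k11,(nat_lit 5376)),(k0,(nat_lit 7135)),(k8,
    (nat_lit 9866)),(k3,(nat_lit 10626)),(k7,(nat_lit 11799)),(k4,(nat_lit 12595))],[(k7,(nat_lit 5418)),(k0,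
    (nat_lit 6144)),(k4,(nat_lit 6214)),(k11,(nat_lit 8909)),(k3,(nat_lit 9635)),(k8,(nat_lit 13399))],[(k1,
    (nat_lit 5376)),(k5,(nat_lit 6214)),(k6,(nat_lit 9034)),(k10,(nat_lit 11869)),(k2,(nat_lit 12595)),(k9,
    (nat_lit 13481))],[(k1,(nat_lit 5376)),(k5,(nat_lit 5418)),(k6,(nat_lit 5474)),(k9,(nat_lit 9921)),(k2,
    (nat_lit 11799)),(k10,(nat_lit 11869))],[(k7,(nat_lit 5474)),(k4,(nat_lit 9034)),(k11,(nat_lit 9537)),(k3,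
    (nat_lit 9607)),(k0,(nat_lit 10878)),(k8,(nat_lit 13399))],[(k11,(nat_lit 6318)),(k3,(nat_lit 6834)),(k0,
    (nat_lit 8105)),(k7,(nat_lit 9921)),(k8,(nat_lit 10180)),(k4,(nat_lit 13481))],[(k10,(nat_lit 7422)),(k1,
    (nat_lit 8595)),(k2,(nat_lit 9866)),(k9,(nat_lit 10180)),(k5,(nat_lit 13399)),(k6,(nat_lit 13399))],[(k2,
    (nat_lit 5376)),(k9,(nat_lit 6318)),(k5,(nat_lit 8909)),(k10,(nat_lit 9412)),(k6,(nat_lit 9537)),(k1,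
    (nat_lit 10585))],[(k3,(nat_lit 5376)),(k0,(nat_lit 6883)),(k8,(nat_lit 7422)),(k11,(nat_lit 9412)),(k4,
    (nat_lit 11869)),(k7,(nat_lit 11869))]]
    [] k0
    [[k2,k0,k0,k0,k0,k0],[k2,k0,k1,k0,k0,k0],[k1,k1,k0,k0,k0,k0],[k1,k1,k0,k0,k0,k1],[k1,k0,k1,k0,k0,k0],[k2,k0,k2,k0,
    k0,k0],[k1,k1,k1,k0,k0,k0],[k1,k0,k2,k0,k0,k0],[k1,k0,k3,k0,k0,k0],[k1,k0,k1,k1,k0,k0],[k1,k0,k2,k1,k0,k0],[k1,k0,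
    k1,k0,k0,k1],[k1,k1,k1,k0,k0,k1],[k1,k0,k0,k1,k0,k0],[k1,k1,k0,k1,k0,k0],[k1,k0,k0,k2,k0,k0],[k1,k0,k1,k2,k0,k0],
    [k1,k0,k0,k1,k0,k1],[k1,k0,k0,k0,k1,k0],[k1,k1,k0,k0,k1,k0],[k1,k0,k0,k0,k1,k1],[k1,k0,k0,k0,k0,k1],[k0,k2,k0,k0,
    k0,k0],[k0,k2,k0,k0,k0,k1],[k0,k1,k1,k0,k0,k0],[k0,k1,k0,k1,k0,k0],[k0,k1,k0,k1,k0,k1],[k0,k1,k0,k0,k1,k0],[k0,k1,
    k0,k0,k1,k1],[k0,k1,k0,k0,k0,k1],[k0,k2,k0,k0,k0,k2],[k0,k1,k0,k0,k1,k2],[k0,k1,k0,k0,k0,k2],[k0,k0,k2,k0,k0,k0],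
    [k0,k0,k3,k0,k0,k0],[k0,k0,k4,k0,k0,k0],[k0,k0,k2,k1,k0,k0],[k0,k0,k2,k2,k0,k0],[k0,k0,k1,k1,k0,k0],[k0,k0,k1,k2,
    k0,k0],[k0,k0,k1,k3,k0,k0],[k0,k0,k1,k1,k0,k1],[k0,k0,k1,k0,k0,k1],[k0,k0,k0,k2,k0,k0],[k0,k0,k0,k3,k0,k0],[k0,k0,
    k0,k4,k0,k0],[k0,k0,k0,k1,k1,k0],[k0,k0,k0,k1,k0,k1],[k0,k0,k0,k0,k2,k0],[k0,k0,k0,k0,k2,k1],[k0,k0,k0,k0,k1,k1],
    [k0,k0,k0,k0,k1,k2],[k0,k0,k0,k0,k0,k2]]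
    [.contra [z1],.ref (nat_lit 226) k9 [(z1,[y1,z0,z0,z1]),(z2,[z1,y1,y2,y3,z2]),(z1,[z1])],.contra [y1,z0,z0,y1,z1],
    .contra [y2,z1,z2,z1],.ref (nat_lit 232) k9 [(z1,[y1,z0,z0,z1]),(z1,[z1,y1,y2,y3,z2]),(z1,[z1])],.contra [z1,z0,
    z1,y2],.ref k1 k0 [(z1,[y1,z0,z0,z0,z1])],.contra [z1,z0,z1,y2],.contra [z1,z0,z1,y2],.ref k0 k0 [(z1,[y1,z0,y1,
    z1,z1])],.contra [z2,z1,z4,y1,y2],.ref k178 k4 [(z1,[y1,z0,y1,z1,z1])],.contra [z2,y1,y2,y1],.contra [y1,z0,z0,y1,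
    z1],.contra [y1,z0,z0,y1,z1],.ref (nat_lit 232) k9 [(z1,[y1,y1,y2,y2,z2]),(z1,[z1]),(z1,[z1,z1,z2,z3,y2])],
    .contra [z1,z1,z3,z1,y2],.contra [y1,z0,y1,z1,z1],.ref (nat_lit 246) k10 [(z1,[y1,z0,z0,z1]),(z1,[y1,y1,y2,y2,
    z2]),(z1,[z1])],.ref (nat_lit 232) k9 [(z1,[y1,z0,z1]),(z1,[z1,y1,y3,y2,z2]),(z1,[z1,z0,y1,z1])],.ref k1 k2 [(z1,
    [z1])],.contra [y2,z1,z2,z1],.contra [z1],.ref (nat_lit 223) k9 [(z1,[z1,y1,y2]),(z1,[y1,z0,z0,y2,z2]),(z1,[y1,z1,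
    z2,z1])],.ref k178 k4 [(z2,[z1,y1,y3,y1,z2])],.contra [y1,z0,z0,y1,z1],.contra [y1,z0,z0,y1,z1],.contra [z1,y1,y3,
    y2,z2],.ref k0 k0 [(z1,[z1,z0,y1,z1])],.contra [y2,z1,z2,z1],.ref (nat_lit 226) k9 [(z1,[z1,y1,y2]),(z2,[y1,z0,z0,
    y2,z2]),(z1,[y1,z1,z2,z1])],.ref (nat_lit 248) k2 [(z1,[y2,z1,z2]),(z1,[z1]),(z1,[z0,z0,z0,z1])],.ref k0 k0 [(z2,
    [z1,z0,y1,z2])],.contra [z1],.contra [z1,z0,z1,y2],.contra [z1,z0,z1,y2],.contra [z2,z1,z4,y1,y2],.contra [z1,z1,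
    z3,z1,y2],.ref k178 k4 [(z1,[z1])],.contra [z1,z1,z2,z3,y2],.contra [z2,z3,z8,z5,y6],.ref (nat_lit 232) k9 [(z1,
    [z1,z0,z1,z0,y1]),(z1,[y1,y1,y3,y2,z3]),(z1,[y1,z0,y1,z1,z1])],.ref k0 k0 [(z1,[z1])],.contra [z1],
    .ref k178 k4 [(z1,[z1,z1,z2,z3,y2])],.contra [z1,z2,z4,z6,y4],.contra [y2,y1,y2,y1,z2],.contra [y1,z0,z0,y1,z1],
    .contra [y1,z0,z0,z2],.ref (nat_lit 250) k1 [(z1,[z0,z1,z2,z3,y2]),(z1,[y1,y2,y4,y5,z5]),(z1,[z1,z2,z4,z4,y4])],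
    .ref k178 k0 [(z1,[z1])],.ref k1 k0 [(z2,[z1,y1,y2,y2,z2])],.contra [z1]]),
    .old (.lp [(nat_lit 1842),(nat_lit 1136),(nat_lit 2032),(nat_lit 1756),(nat_lit 1150),(nat_lit 1664)] [k95,k95,
    (nat_lit 448),(nat_lit 448),k0,k0,k138,k138,(nat_lit 441),(nat_lit 441),k184,k184] k0 [[k0,k0,k0,k0,k0,k0,k0,
    (nat_lit 706),k0,k0,k34,(nat_lit 784)],[k0,k0,k78,k176],[k176,k0,k0,k0,k0,k98,k0,k0,k0,k92],[k78,k0,k0,k0,k0,k0,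
    k0,k0,k0,k46],[k0,k0,k0,k98,k0,k0,k152],[k0,k0,k0,k0,k0,k0,k6,k0,k0,k0,k0,(nat_lit 750)],[k0,(nat_lit 706),k0,k0,
    k0,k0,k0,k0,(nat_lit 750)],[k0,k0,k0,k0,k6,k152],[k0,k0,k46,k92],[k0,k0,k0,k0,k0,k0,k0,(nat_lit 750),k0,k0,
    (nat_lit 322)],[k0,(nat_lit 784),k0,k0,(nat_lit 750)],[k0,k34,k0,k0,k0,k0,k0,k0,(nat_lit 322)]] (nat_lit 4800) k6
    [[(k11,(nat_lit 1431)),(k8,(nat_lit 1496)),(k7,(nat_lit 1799)),(k0,(nat_lit 1808)),(k3,(nat_lit 2273)),(k4,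
    (nat_lit 2687))],[(k10,(nat_lit 969)),(k6,(nat_lit 1093)),(k9,(nat_lit 1496)),(k2,(nat_lit 1567)),(k1,
    (nat_lit 1808)),(k5,(nat_lit 2113))],[(k2,(nat_lit 960)),(k10,(nat_lit 1434)),(k6,(nat_lit 1446)),(k5,
    (nat_lit 1506)),(k9,(nat_lit 1849)),(k1,(nat_lit 2273))],[(k3,(nat_lit 960)),(k8,(nat_lit 1051)),(k7,
    (nat_lit 1446)),(k11,(nat_lit 1446)),(k4,(nat_lit 1486)),(k0,(nat_lit 1567))],[(k3,(nat_lit 1506)),(k8,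
    (nat_lit 1545)),(k11,(nat_lit 1940)),(k7,(nat_lit 1992)),(k4,(nat_lit 2032)),(k0,(nat_lit 2113))],[(k9,
    (nat_lit 1439)),(k2,(nat_lit 1486)),(k10,(nat_lit 1848)),(k6,(nat_lit 1900)),(k5,(nat_lit 2032)),(k1,
    (nat_lit 2687))],[(k10,(nat_lit 960)),(k2,(nat_lit 1446)),(k9,(nat_lit 1447)),(k1,(nat_lit 1799)),(k6,
    (nat_lit 1908)),(k5,(nat_lit 1992))],[(k11,(nat_lit 960)),(k0,(nat_lit 1093)),(k3,(nat_lit 1446)),(k8,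
    (nat_lit 1453)),(k4,(nat_lit 1900)),(k7,(nat_lit 1908))],[(k11,(nat_lit 1407)),(k4,(nat_lit 1439)),(k7,
    (nat_lit 1447)),(k0,(nat_lit 1496)),(k3,(nat_lit 1849)),(k8,(nat_lit 1900))],[(k2,(nat_lit 1051)),(k6,
    (nat_lit 1453)),(k1,(nat_lit 1496)),(k5,(nat_lit 1545)),(k10,(nat_lit 1729)),(k9,(nat_lit 1900))],[(k6,
    (nat_lit 960)),(k9,(nat_lit 1407)),(k1,(nat_lit 1431)),(k2,(nat_lit 1446)),(k10,(nat_lit 1664)),(k5,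
    (nat_lit 1940))],[(k7,(nat_lit 960)),(k0,(nat_lit 969)),(k3,(nat_lit 1434)),(k11,(nat_lit 1664)),(k8,
    (nat_lit 1729)),(k4,(nat_lit 1848))]]
    [] k0
    [[k2,k0,k0,k0,k0,k0],[k2,k0,k0,k1,k0,k0],[k2,k0,k0,k0,k0,k1],[k1,k1,k0,k0,k0,k0],[k1,k1,k0,k0,k0,k1],[k1,k0,k0,k1,
    k0,k0],[k1,k0,k0,k1,k1,k0],[k1,k0,k0,k1,k0,k1],[k1,k0,k0,k0,k1,k0],[k1,k0,k0,k0,k1,k1],[k1,k0,k0,k0,k0,k1],[k1,k0,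
    k0,k1,k0,k2],[k1,k0,k0,k0,k0,k2],[k0,k2,k0,k0,k0,k0],[k0,k3,k0,k0,k0,k0],[k0,k4,k0,k0,k0,k0],[k0,k2,k1,k0,k0,k0],
    [k0,k2,k0,k1,k0,k0],[k0,k2,k0,k0,k1,k0],[k0,k2,k0,k0,k0,k1],[k0,k1,k1,k0,k0,k0],[k0,k1,k1,k0,k1,k0],[k0,k1,k0,k1,
    k0,k0],[k0,k1,k0,k1,k1,k0],[k0,k1,k0,k1,k0,k1],[k0,k1,k0,k0,k1,k0],[k0,k1,k0,k0,k0,k1],[k0,k1,k0,k0,k1,k1],[k0,k1,
    k0,k0,k0,k2],[k0,k0,k2,k0,k0,k0],[k0,k0,k1,k1,k0,k0],[k0,k0,k1,k0,k1,k0],[k0,k0,k1,k0,k0,k1],[k0,k0,k0,k2,k0,k0],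
    [k0,k0,k0,k2,k0,k1],[k0,k0,k0,k1,k1,k0],[k0,k0,k0,k1,k1,k1],[k0,k0,k0,k1,k0,k1],[k0,k0,k0,k2,k0,k2],[k0,k0,k0,k1,
    k0,k2],[k0,k0,k0,k0,k2,k0],[k0,k0,k0,k0,k1,k1],[k0,k0,k0,k0,k0,k2]]
    [.contra [z1],.ref (nat_lit 251) k9 [(z1,[y2,y1]),(z1,[z1]),(z1,[z0,z0,y1,z1])],.ref (nat_lit 250) k10 [(z1,[z0,
    y1,y3,z1]),(z1,[y1,z2,z5]),(z1,[z1,y2,y4])],.contra [y1,z1,z2],.ref k1 k3 [(z1,[y1,z0,z0,z1])],.ref k0 k2 [(z1,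
    [z1])],.ref (nat_lit 249) k1 [(z1,[y1,z0,y1,z1]),(z1,[y1,z1,z2]),(z1,[z1])],.ref (nat_lit 242) k9 [(z1,[y2,y1]),
    (z1,[z1]),(z1,[z0,z0,y1,z1])],.ref (nat_lit 246) k1 [(z1,[y1,z0,y1,z1]),(z1,[y1,z1,z2]),(z1,[z1])],
    .ref k1 k2 [(z1,[z1])],.ref k178 k2 [(z1,[z1])],.ref (nat_lit 248) k9 [(z1,[y2,y1]),(z1,[z1]),(z1,[z0,z0,y1,z1])],
    .ref k1 k3 [(z2,[y1,y1,y2,z2])],.contra [z1],.ref k178 k10 [(z1,[z1,y1,y3,z1])],.contra [y1,z2,z4],.contra [y1,z1,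
    z1,z1],.ref k178 k4 [(z1,[z1,y1,y3,z1])],.ref (nat_lit 232) k2 [(z1,[y1,z1,z2]),(z1,[z1]),(z1,[z1,y1,y3,z1])],
    .ref k0 k0 [(z1,[z1,y1,y3,z1])],.ref k178 k10 [(z1,[z1])],.ref (nat_lit 242) k9 [(z1,[z2,y1,z0,y2]),(z1,[y1,z0,z0,
    z1]),(z1,[z0,z0,y1,z1])],.contra [y1,z0,z1],.contra [y1,z0,z1],.contra [y1,z0,z1],.contra [y1,z0,z1],.contra [y1,
    z0,z1],.contra [y1,z0,z1],.ref (nat_lit 235) k0 [(z1,[z1,z0,y1]),(z1,[z2,z1,y2]),(z1,[y1,z0,z2])],.contra [y1,z0,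
    y2,z2],.ref k178 k4 [(z1,[z1])],.ref (nat_lit 232) k2 [(z1,[y1,z0,y1,z1]),(z1,[z1,z1,z3,y1]),(z1,[z1])],
    .ref k0 k0 [(z1,[z1])],.contra [z1],.ref (nat_lit 223) k2 [(z1,[z1,z1]),(z1,[y1,z0,z2]),(z1,[y1,y1,y1,z1])],
    .contra [y1,z0,z1],.contra [y1,z0,z1],.contra [y1,z0,z1],.ref (nat_lit 226) k2 [(z1,[z1,z1]),(z2,[y1,z0,z2]),(z1,
    [y1,y1,y1,z1])],.ref (nat_lit 221) k2 [(z1,[z2,z1]),(z1,[y1,z0,z1]),(z1,[y2,y1,y1,z1])],.contra [z1],.contra [y1,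
    z0,z1],.contra [z1]]),
    .geo true z3 k4 [(y2,z3),(z2,z0),(z6,y6),(z2,z0),(z0,z3),(z4,z0)] [(z1,[z1]),(z1,[z0,z1]),(z1,[z0,z0,z3]),(z1,[z0,z0,
    z0,z1]),(z1,[]),(z1,[y1,y1,y3,y1,z3])] (Int.ofNat (nat_lit 699050)) (Int.ofNat (nat_lit 1048576)) (.l k1) []]

noncomputable def cU6_2_n4_1 : List XN :=
  [.geo true z2 k4 [(y1,z2),(z1,z0),(z4,y4),(z1,z0),(z0,z2),(z3,z0)] [(z1,[z1]),(z1,[z0,z1]),(z1,[z0,z0,z2]),(z1,[z0,z0,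
    z0,z1]),(z1,[]),(z1,[y1,y1,y2,y1,
    z2])] (Int.ofNat (nat_lit 524288)) (Int.ofNat (nat_lit 1048576)) (.s (.l k1) (.l k1)) [],
    .geo true z5 k4 [(y2,z5),(z2,z0),(z10,y10),(z2,z0),(z0,z5),(z8,z0)] [(z1,[z1]),(z1,[z0,z1]),(z1,[z0,z0,z5]),(z1,[z0,
    z0,z0,z1]),(z1,[]),(z1,[y1,y1,y5,y1,
    z5])] (Int.ofNat (nat_lit 419430)) (Int.ofNat (nat_lit 1048576)) (.s (.s (.l k1) (.l k1)) (.l k1)) [],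
    .geo true z1 k5 [(y2,z4),(y4,z5),(z4,y4),(z2,y2),(z4,y4),(z0,z1)] [(z1,[z1]),(z1,[z0,z1]),(z1,[z0,z0,z1]),(z1,[z0,z0,
    z0,z1]),(z1,[y1,y1,y1,y1,z1]),(z1,
    [])] (Int.ofNat (nat_lit 838860)) (Int.ofNat (nat_lit 1048576)) (.s (.l k1) (.l k2)) [⟨z1,z1,[[k0,k2],[k1,k4],[k3,
    k5]],.bnd k0⟩],
    .geo true z1 k5 [(y2,z4),(z2,y2),(y2,z4),(z2,y3),(z4,y4),(z0,z1)] [(z1,[z1]),(z1,[z0,z1]),(z1,[z0,z0,z1]),(z1,[z0,z0,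
    z0,z1]),(z1,[y1,y1,y1,y1,z1]),(z1,
    [])] (Int.ofNat (nat_lit 524288)) (Int.ofNat (nat_lit 699051)) (.s (.s (.l k2) (.l k1)) (.l k1)) [⟨z1,z2,[[k0,k2],
    [k1,k5],[k3,k4]],.bnd k0⟩],
    .geo true z1 k5 [(y1,z2),(z2,y2),(y1,z2),(z1,y1),(z3,y2),(z0,z1)] [(z1,[z1]),(z1,[z0,z1]),(z1,[z0,z0,z1]),(z1,[z0,z0,
    z0,z1]),(z1,[y1,y1,y1,y1,z1]),(z1,
    [])] (Int.ofNat (nat_lit 524288)) (Int.ofNat (nat_lit 1048576)) (.s (.s (.s (.l k2) (.l k1)) (.l k1)) (.l k1)) [⟨z1,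
    z2,[[k0,k2],[k1,k5],[k3,k4]],.bnd k0⟩],
    .geo true z1 k5 [(y2,z4),(z0,z1),(z2,y2),(z2,y1),(z2,y3),(z0,z1)] [(z1,[z1]),(z1,[z0,z1]),(z1,[z0,z0,z1]),(z1,[z0,z0,
    z0,z1]),(z1,[y1,y1,y1,y1,z1]),(z1,
    [])] (Int.ofNat (nat_lit 524288)) (Int.ofNat (nat_lit 699051)) (.s (.l k1) (.l k1)) [],
    .geo true z1 k5 [(z0,z3),(y2,z4),(z2,y3),(z2,y2),(z2,y3),(z0,z1)] [(z1,[z1]),(z1,[z0,z1]),(z1,[z0,z0,z1]),(z1,[z0,z0,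
    z0,z1]),(z1,[y1,y1,y1,y1,z1]),(z1,
    [])] (Int.ofNat (nat_lit 524288)) (Int.ofNat (nat_lit 699051)) (.s (.l k1) (.l k2)) [⟨z2,z3,[[k0,k5],[k1,k2],[k3,
    k4]],.bnd k0⟩],
    .geo true z3 k5 [(y6,z5),(z6,y3),(z6,y4),(z6,y3),(z0,z2),(z0,z3)] [(z1,[z1]),(z1,[z0,z3]),(z1,[z0,z0,z1]),(z1,[z0,z0,
    z0,z3]),(z1,[y1,y3,y1,y3,z3]),(z1,
    [])] (Int.ofNat (nat_lit 1258291)) (Int.ofNat (nat_lit 1572864)) (.s (.l k1) (.l k1)) [],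
    .geo true z1 k5 [(y2,z5),(y4,z6),(z4,y5),(z2,y2),(z4,y5),(z0,z1)] [(z1,[z1]),(z1,[z0,z1]),(z1,[z0,z0,z1]),(z1,[z0,z0,
    z0,z1]),(z1,[y1,y1,y1,y1,z1]),(z1,
    [])] (Int.ofNat (nat_lit 699050)) (Int.ofNat (nat_lit 838861)) (.s (.l k1) (.l k2)) [⟨z4,z5,[[k0,k5],[k1,k2],[k3,
    k4]],.bnd k0⟩],
    .geo true z1 k5 [(y3,z2),(z2,y1),(z4,y2),(z2,y1),(y1,z1),(z0,z1)] [(z1,[z1]),(z1,[z0,z1]),(z1,[z0,z0,z1]),(z1,[z0,z0,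
    z0,z1]),(z1,[y1,y1,y1,y1,z1]),(z1,
    [])] (Int.ofNat (nat_lit 1572864)) (Int.ofNat (nat_lit 2097152)) (.s (.s (.l k1) (.l k1)) (.s (.l k1) (.s (.l k1) (.s (.l k1) (.l k2))))) [⟨z2,
    z1,[[k0,k1],[k2,k3],[k4,k5]],.bnd k1⟩],
    .geo true z1 k5 [(z0,z3),(z2,y1),(z0,z2),(z0,z1),(z2,y6),(z0,z1)] [(z1,[z1]),(z1,[z0,z1]),(z1,[z0,z0,z1]),(z1,[z0,z0,
    z0,z1]),(z1,[y1,y1,y1,y1,z1]),(z1,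
    [])] z0 (Int.ofNat (nat_lit 349526)) (.s (.s (.s (.s (.s (.l k2) (.l k1)) (.l k1)) (.l k1)) (.s (.l k1) (.l k1))) (.s (.s (.l k1) (.l k1)) (.l k1))) [⟨z0,
    z1,[[k0,k1],[k2,k3],[k4,k5]],.bnd k0⟩],
    .geo true z1 k5 [(y2,z6),(z0,z1),(z2,y3),(z2,y1),(z2,y4),(z0,z1)] [(z1,[z1]),(z1,[z0,z1]),(z1,[z0,z0,z1]),(z1,[z0,z0,
    z0,z1]),(z1,[y1,y1,y1,y1,z1]),(z1,
    [])] (Int.ofNat (nat_lit 349525)) (Int.ofNat (nat_lit 524288)) (.s (.l k1) (.l k1)) []]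

noncomputable def cU6_2_n4_2 : List XN :=
  [.geo true z2 k5 [(y1,z2),(z4,y4),(y1,z2),(z1,z0),(z5,y2),(z0,z2)] [(z1,[z1]),(z1,[z0,z2]),(z1,[z0,z0,z1]),(z1,[z0,z0,
    z0,z1]),(z1,[y1,y2,y1,y1,z2]),(z1,
    [])] (Int.ofNat (nat_lit 524288)) (Int.ofNat (nat_lit 1048576)) (.s (.s (.s (.s (.l k2) (.l k1)) (.l k1)) (.l k1)) (.l k1)) [⟨z1,
    z2,[[k0,k2],[k1,k5],[k3,k4]],.bnd k0⟩],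
    .geo true z5 k5 [(y2,z5),(z10,y10),(y2,z5),(z2,z0),(z12,y5),(z0,z5)] [(z1,[z1]),(z1,[z0,z5]),(z1,[z0,z0,z1]),(z1,[z0,
    z0,z0,z1]),(z1,[y1,y5,y1,y1,z5]),(z1,
    [])] (Int.ofNat (nat_lit 419430)) (Int.ofNat (nat_lit 1048576)) (.s (.s (.s (.s (.s (.l k2) (.l k1)) (.l k1)) (.l k1)) (.l k1)) (.l k1)) [⟨z2,
    z5,[[k0,k5],[k1,k2],[k3,k4]],.bnd k0⟩],
    .old (.lp [(nat_lit 508),(nat_lit 686),(nat_lit 266),(nat_lit 794),(nat_lit 644),(nat_lit 940)] [(nat_lit 335),k97,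
    k127,k127,(nat_lit 337),(nat_lit 337),k73,k73,k148,k148,k0,k0] k0 [[k0,k0,k0,k0,k0,k0,k78,k0,k0,k0,k188],[k0,k0,
    k108,k52],[k52,k0,k0,k0,(nat_lit 272)],[k108,k0,k0,k0,k0,k0,k0,k0,k188,k106],[k0,k0,k0,k0,k0,k0,k0,k0,k0,k0,k186],
    [k0,k0,k0,(nat_lit 272),k0,k0,k0,(nat_lit 472)],[k0,k0,k0,k0,(nat_lit 472)],[k0,k78,k0,k0,k0,k0,k0,k0,k160],[k0,
    k0,k106,k0,k0,k0,k0,k0,k0,k0,k0,(nat_lit 472)],[k0,k0,k188,k0,k0,k0,k160,k0,k0,k0,k0,(nat_lit 526)],[k0,k0,k0,k0,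
    k0,k0,k0,k0,(nat_lit 526),(nat_lit 472)],[k0,k188,k0,k0,k0,k186]] (nat_lit 1920) k7
    [[(k0,(nat_lit 320)),(k4,(nat_lit 320)),(k3,(nat_lit 716)),(k7,(nat_lit 770)),(k8,(nat_lit 1221)),(k11,
    (nat_lit 1315))],[(k1,(nat_lit 320)),(k5,(nat_lit 320)),(k9,(nat_lit 379)),(k6,(nat_lit 532)),(k2,(nat_lit 586)),
    (k10,(nat_lit 605))],[(k5,(nat_lit 368)),(k2,(nat_lit 634)),(k9,(nat_lit 665)),(k1,(nat_lit 716)),(k6,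
    (nat_lit 818)),(k10,(nat_lit 1001))],[(k7,(nat_lit 468)),(k4,(nat_lit 476)),(k0,(nat_lit 586)),(k3,(nat_lit 634)),
    (k8,(nat_lit 853)),(k11,(nat_lit 919))],[(k0,(nat_lit 320)),(k8,(nat_lit 349)),(k3,(nat_lit 368)),(k11,
    (nat_lit 415)),(k7,(nat_lit 530)),(k4,(nat_lit 538))],[(k1,(nat_lit 320)),(k2,(nat_lit 476)),(k6,(nat_lit 530)),
    (k5,(nat_lit 538)),(k10,(nat_lit 603)),(k9,(nat_lit 927))],[(k6,(nat_lit 322)),(k2,(nat_lit 468)),(k5,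
    (nat_lit 530)),(k9,(nat_lit 719)),(k1,(nat_lit 770)),(k10,(nat_lit 1053))],[(k7,(nat_lit 322)),(k4,(nat_lit 530)),
    (k0,(nat_lit 532)),(k3,(nat_lit 818)),(k11,(nat_lit 867)),(k8,(nat_lit 879))],[(k0,(nat_lit 379)),(k11,
    (nat_lit 632)),(k8,(nat_lit 644)),(k3,(nat_lit 665)),(k7,(nat_lit 719)),(k4,(nat_lit 927))],[(k10,(nat_lit 320)),
    (k5,(nat_lit 349)),(k9,(nat_lit 644)),(k2,(nat_lit 853)),(k6,(nat_lit 879)),(k1,(nat_lit 1221))],[(k10,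
    (nat_lit 414)),(k5,(nat_lit 415)),(k9,(nat_lit 632)),(k6,(nat_lit 867)),(k2,(nat_lit 919)),(k1,(nat_lit 1315))],
    [(k8,(nat_lit 320)),(k11,(nat_lit 414)),(k4,(nat_lit 603)),(k0,(nat_lit 605)),(k3,(nat_lit 1001)),(k7,
    (nat_lit 1053))]]
    [] k0
    [[k2,k0,k0,k0,k0,k0],[k3,k0,k0,k0,k0,k0],[k4,k0,k0,k0,k0,k0],[k5,k0,k0,k0,k0,k0],[k4,k0,k1,k0,k0,k0],[k3,k0,k1,k0,
    k0,k0],[k3,k1,k1,k0,k0,k0],[k3,k0,k2,k0,k0,k0],[k3,k0,k1,k0,k1,k0],[k2,k1,k0,k0,k0,k0],[k2,k1,k1,k0,k0,k0],[k2,k0,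
    k1,k0,k0,k0],[k2,k1,k2,k0,k0,k0],[k2,k0,k2,k0,k0,k0],[k2,k0,k2,k0,k1,k0],[k2,k0,k1,k1,k0,k0],[k2,k0,k1,k0,k1,k0],
    [k2,k0,k1,k0,k0,k1],[k2,k0,k1,k0,k1,k1],[k2,k0,k0,k1,k0,k0],[k1,k1,k0,k0,k0,k0],[k1,k1,k1,k0,k0,k0],[k1,k1,k0,k1,
    k0,k0],[k1,k0,k1,k0,k0,k0],[k2,k0,k3,k0,k0,k0],[k1,k2,k1,k0,k0,k0],[k1,k1,k2,k0,k0,k0],[k1,k1,k2,k0,k1,k0],[k1,k1,
    k1,k1,k0,k0],[k1,k0,k2,k0,k0,k0],[k1,k0,k3,k0,k0,k0],[k1,k0,k2,k0,k1,k0],[k1,k0,k2,k0,k0,k1],[k1,k0,k1,k1,k0,k0],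
    [k1,k0,k2,k1,k0,k0],[k1,k0,k1,k2,k0,k0],[k1,k0,k1,k0,k1,k0],[k1,k0,k1,k0,k2,k0],[k1,k0,k1,k0,k1,k1],[k1,k0,k1,k0,
    k0,k1],[k1,k0,k1,k0,k0,k2],[k1,k0,k1,k0,k1,k2],[k1,k0,k0,k1,k0,k0],[k1,k0,k0,k2,k0,k0],[k1,k0,k0,k0,k1,k0],[k0,k2,
    k0,k0,k0,k0],[k0,k3,k0,k0,k0,k0],[k0,k2,k1,k0,k0,k0],[k0,k1,k1,k0,k0,k0],[k0,k2,k2,k0,k0,k0],[k0,k1,k2,k0,k0,k0],
    [k0,k1,k2,k1,k0,k0],[k0,k1,k1,k1,k0,k0],[k0,k1,k1,k2,k0,k0],[k0,k1,k1,k0,k0,k1],[k0,k1,k2,k0,k0,k1],[k0,k1,k0,k1,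
    k0,k0],[k0,k1,k0,k2,k0,k0],[k0,k1,k0,k0,k1,k0],[k0,k1,k1,k0,k1,k0],[k0,k1,k0,k0,k1,k1],[k0,k1,k1,k0,k1,k1],[k0,k0,
    k2,k0,k0,k0],[k0,k0,k3,k0,k0,k0],[k0,k0,k2,k1,k0,k0],[k0,k0,k2,k0,k1,k0],[k0,k0,k2,k0,k0,k1],[k0,k0,k1,k1,k0,k0],
    [k0,k0,k1,k2,k0,k0],[k0,k0,k1,k3,k0,k0],[k0,k0,k1,k0,k1,k0],[k0,k0,k1,k1,k1,k0],[k0,k0,k1,k0,k1,k1],[k0,k0,k1,k0,
    k0,k1],[k0,k0,k1,k0,k0,k2],[k0,k0,k1,k0,k0,k3],[k0,k0,k0,k2,k0,k0],[k0,k0,k0,k3,k0,k0],[k0,k0,k0,k4,k0,k0],[k0,k0,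
    k0,k5,k0,k0],[k0,k0,k0,k1,k1,k0],[k0,k0,k0,k1,k1,k1],[k0,k0,k0,k0,k2,k0],[k0,k0,k0,k0,k2,k1],[k0,k0,k0,k0,k1,k1],
    [k0,k0,k0,k0,k2,k2],[k0,k0,k0,k0,k1,k2],[k0,k0,k0,k0,k1,k3],[k0,k0,k0,k0,k0,k2],[k0,k0,k0,k0,k0,k3],[k0,k0,k0,k0,
    k0,k4]]
    [.contra [z1],.ref (nat_lit 217) k2 [(z1,[z1]),(z1,[z0,z0,z1])],.ref (nat_lit 266) k5 [(z2,[y1,z0,y4,y4,z4]),(z1,
    [z0,z0,z0,z1]),(z2,[y1,z4,z4]),(z2,[z1])],.ref (nat_lit 267) k5 [(z1,[y1,z0,y5,y5,z5]),(z1,[z0,z0,z0,z1]),(z1,[y1,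
    z5,z5]),(z1,[z1])],.ref k178 k2 [(z2,[z1,y2,z0,y1])],.ref (nat_lit 264) k3 [(z1,[z1,z0,z3,z2,y3]),(z1,[z0,y1,y1,
    y1,z1]),(z1,[z1,z0,z2,z1,y2]),(z1,[z0,z1,z2,z1,y1])],.ref k178 k2 [(z1,[z1,y2,y1,y1])],
    .ref (nat_lit 265) k10 [(z1,[z2,y6,y6,y3]),(z1,[z0,y1,y2,y1,z1]),(z1,[y1,z3,z3,z2]),(z1,[z0,z0,z1])],
    .ref (nat_lit 252) k0 [(z1,[z1,y1,z2,y1,y2]),(z1,[z0,z0,y1,z0,z1])],.contra [y1,z2,z2,z1],.contra [y1,z2,z2,z1],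
    .contra [y1,z2,z2,z1],.ref k0 k0 [(z1,[z1,y2,y1,y1])],.ref (nat_lit 263) k2 [(z2,[y1,z4,z0,z2]),(z1,[z0,z0,z1]),
    (z1,[z1,y2,z0,y1]),(z1,[z0,y1,y1,y1,z1])],.ref (nat_lit 259) k10 [(z1,[z2,y4,y4,y3]),(z1,[z0,y1,y2,y1,z1]),(z1,
    [y1,z2,z2,z2]),(z1,[z0,z0,z1])],.contra [y1,z1,z0,z0,z1],.ref k178 k2 [(z1,[z1,y1,z0,y1])],
    .ref (nat_lit 253) k2 [(z1,[z1,z1,z0,y1]),(z1,[y1,z2,z3,z1]),(z1,[z0,z0,z0,z1]),(z1,[y1,y1,y3,y2,z3])],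
    .contra [z1,z1],.contra [y1,z1,z0,z0,z1],.contra [y1,z2,z2,z1],.contra [y1,z2,z2,z1],.contra [y1,z1,z0,z0,z1],
    .contra [y1,z2,z2,z1],.ref k0 k0 [(z2,[z1,y2,z0,y1])],.contra [y1,z2,z2,z1],.ref (nat_lit 217) k3 [(z1,[y1,z1,z1,
    z2]),(z1,[z0,y1,y1,y1,z1])],.contra [y1,z1,z1,z2],.contra [y1,z1,z0,z0,z1],.ref (nat_lit 260) k0 [(z1,[z1,y1,z0,
    y2]),(z1,[z1,z0,z0,y2]),(z1,[y1,z1,z1,z2]),(z1,[z0,z0,z0,z1])],.ref (nat_lit 262) k0 [(z1,[z1,y1,z0,y3]),(z1,[z1,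
    z0,z0,y3]),(z1,[y1,z1,z1,z3]),(z1,[z0,z0,z0,z1])],.ref k0 k0 [(z1,[z1,y1,z0,y1])],.ref (nat_lit 261) k2 [(z1,[y1,
    z4,z0,z2]),(z1,[z0,z0,z1]),(z1,[z2,y2,z0,y1]),(z1,[z0,y1,y1,y1,z1])],.contra [y1,z1,z0,z0,z1],
    .ref (nat_lit 217) k3 [(z1,[y1,z0,y1,z1,z1]),(z1,[z0,y1,y1,y1,z1])],.contra [y1,z0,y2,y1,z2],.contra [y1,z1,z1,
    z1],.contra [z1,z0,z0,y1],.contra [y1,z1,z2,z1],.ref (nat_lit 259) k10 [(z1,[z2,y2,y4,y1]),(z1,[z0,y1,y2,y1,z1]),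
    (z1,[y1,z1,z2,z1]),(z1,[z0,z0,z1])],.contra [z1,z2,z0,z1],.contra [z1,z3,z1,z1],.contra [y1,z1,z0,z0,z1],
    .contra [y1,z0,y2,y1,z2],.contra [y1,z1,z1,z1],.contra [z1],.ref (nat_lit 253) k2 [(z1,[y1,z3,z3]),(z1,[z1]),(z1,
    [z0,z0,z0,z1]),(z1,[z1,y3,y6,y3,z3])],.contra [y1,z2,z2,z1],.contra [y1,z2,z2,z1],.ref (nat_lit 258) k5 [(z2,[z1,
    y2,y4,y4,z2]),(z1,[z0,z0,z0,z1]),(z2,[z1,z0,z0,y2]),(z2,[y1,z2,z2,z2])],.ref (nat_lit 257) k5 [(z1,[z1,y1,y2,y3,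
    z1]),(z1,[z0,z0,z0,z1]),(z1,[z1,z0,z0,y2]),(z1,[y1,z1,z1,z2])],.ref (nat_lit 258) k5 [(z2,[z1,y1,y2,y3,z1]),(z1,
    [z0,z0,z0,z1]),(z2,[z1,z1,z2,y1,y1]),(z2,[y1,z1,z0,z1,z1])],.contra [y1,z1,z0,z0,z1],.ref (nat_lit 252) k0 [(z1,
    [y1,z0,z1,y1]),(z1,[z0,z0,y1,z0,z1])],.contra [y1,z0,z1,z1],.contra [y1,z0,z1,z2],.contra [z1,z1,z2,z1,y1],
    .ref (nat_lit 253) k2 [(z1,[y1,z1,y1,y2,z2]),(z1,[z1,z2,z4,z2,y2]),(z1,[z0,z0,z0,z1]),(z1,[z1,y1,y2,y1,z1])],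
    .contra [y1,z1,z1,z1],.contra [y1,z1,z1,z1],.contra [z1,z1],.contra [z1,z1],.contra [z1],
    .ref (nat_lit 217) k3 [(z2,[y1,z0,z0,z3]),(z1,[z0,y1,y1,y1,z1])],.ref (nat_lit 257) k5 [(z1,[z1,z0,z0,y2]),(z1,
    [z0,z0,z0,z1]),(z1,[z1,z1,z2,y1,y1]),(z1,[y1,z0,y1,z1,z1])],.ref (nat_lit 217) k3 [(z1,[y1,z0,z0,z2]),(z1,[z0,y1,
    y1,y1,z1])],.ref (nat_lit 256) k0 [(z1,[z1,z0,z0,y2]),(z1,[z1,z1,z0,y2]),(z1,[y1,z0,z1,z2]),(z1,[z0,z0,z0,z1])],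
    .contra [y1,z1,z0,z0,z1],.contra [y1,z0,y2,y1,z2],.ref (nat_lit 252) k0 [(z1,[y1,y1,y1,y2,z1]),(z1,[z0,z0,y1,z0,
    z1])],.contra [y1,z1,z1,z1],.contra [y1,z0,y1,z0,z1],.contra [z1,z1],.ref k0 k0 [(z1,[z1])],.contra [z1,z2,z0,z1],
    .contra [z1,z4,z1,z2],.contra [z1,z2,z4,z2,y2],.ref (nat_lit 253) k2 [(z1,[y1,z0,y3,y3,z3]),(z1,[z1,z3,z6,z3,y3]),
    (z1,[z0,z0,z0,z1]),(z1,[z1])],.ref (nat_lit 254) k2 [(z2,[y1,z0,y4,y4,z4]),(z2,[z1,z4,z8,z4,y4]),(z1,[z0,z0,z0,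
    z1]),(z2,[z1])],.ref (nat_lit 255) k2 [(z1,[y1,z0,y5,y5,z5]),(z1,[z1,z5,z10,z5,y5]),(z1,[z0,z0,z0,z1]),(z1,[z1])],
    .contra [y1,z0,y1,z0,z1],.contra [z1,z2,z2,z1,y1],.contra [z1],.contra [z1,z2,z1],.contra [z1,z1],.contra [z1,z4,
    z2,z1],.contra [z1,z3,z1,z1],.contra [z1,z5,z2,z2],.contra [y1,z0,z2],.contra [z1,z4,z1,z2],.contra [z1,z6,z2,
    z3]]),
    .geo true z1 k5 [(y2,z6),(y2,z4),(z2,y3),(z2,y2),(z4,y6),(z0,z1)] [(z1,[z1]),(z1,[z0,z1]),(z1,[z0,z0,z1]),(z1,[z0,z0,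
    z0,z1]),(z1,[y1,y1,y1,y1,z1]),(z1,
    [])] (Int.ofNat (nat_lit 524288)) (Int.ofNat (nat_lit 699051)) (.s (.l k1) (.s (.l k1) (.l k2))) [⟨z2,z3,[[k0,k5],
    [k1,k2],[k3,k4]],.bnd k0⟩],
    .geo true z1 k5 [(y2,z6),(z2,y2),(z2,y3),(y2,z4),(z4,y6),(z0,z1)] [(z1,[z1]),(z1,[z0,z1]),(z1,[z0,z0,z1]),(z1,[z0,z0,
    z0,z1]),(z1,[y1,y1,y1,y1,z1]),(z1,
    [])] (Int.ofNat (nat_lit 524288)) (Int.ofNat (nat_lit 699051)) (.s (.l k1) (.s (.l k1) (.l k2))) [⟨z2,z3,[[k0,k5],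
    [k1,k2],[k3,k4]],.bnd k0⟩],
    .old (.lp [(nat_lit 266),(nat_lit 202),(nat_lit 378),(nat_lit 452),(nat_lit 240),(nat_lit 378)] [k93,k93,k125,k125,
    k37,k37,k0,k0,k106,k106,k37,k37] k0 [[k0,k0,k0,k0,k0,k0,k16,k12],[k0,k0,k0,k10,k0,k0,k0,k0,k0,k0,k32],[k10,k0,k0,
    k0,k58],[k0,k0,k0,k0,k188,k0,k0,k0,k122,k2],[k0,k0,k0,k0,k0,k0,k0,k14,k0,k0,k130],[k0,k0,k188,k58,k0,k0,k0,k104],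
    [k0,k12,k0,k0,k104,k14],[k0,k16,k0,k0,k0,k0,k0,k0,k18],[k0,k0,k2,k0,k0,k0,k0,k0,k0,k0,k0,k18],[k0,k0,k122,k0,k0,
    k0,k18],[k0,k0,k0,k0,k0,k0,k0,k0,k0,k18],[k32,k0,k0,k0,k0,k130]] (nat_lit 960) k6
    [[(k4,k192),(k3,(nat_lit 202)),(k8,(nat_lit 253)),(k0,(nat_lit 266)),(k11,(nat_lit 340)),(k7,(nat_lit 359))],[(k2,
    (nat_lit 234)),(k9,(nat_lit 237)),(k1,(nat_lit 266)),(k5,(nat_lit 332)),(k6,(nat_lit 347)),(k10,(nat_lit 354))],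
    [(k2,k192),(k1,(nat_lit 202)),(k9,(nat_lit 233)),(k5,(nat_lit 290)),(k10,(nat_lit 290)),(k6,(nat_lit 343))],[(k3,
    k192),(k0,(nat_lit 234)),(k7,(nat_lit 269)),(k11,(nat_lit 292)),(k8,(nat_lit 343)),(k4,(nat_lit 478))],[(k7,
    (nat_lit 227)),(k11,(nat_lit 256)),(k3,(nat_lit 290)),(k8,(nat_lit 307)),(k0,(nat_lit 332)),(k4,(nat_lit 436))],
    [(k1,k192),(k10,(nat_lit 378)),(k6,(nat_lit 401)),(k9,(nat_lit 413)),(k5,(nat_lit 436)),(k2,(nat_lit 478))],[(k5,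
    (nat_lit 227)),(k2,(nat_lit 269)),(k6,(nat_lit 348)),(k1,(nat_lit 359)),(k9,(nat_lit 360)),(k10,(nat_lit 545))],
    [(k3,(nat_lit 343)),(k0,(nat_lit 347)),(k7,(nat_lit 348)),(k8,(nat_lit 364)),(k4,(nat_lit 401)),(k11,
    (nat_lit 415))],[(k3,(nat_lit 233)),(k0,(nat_lit 237)),(k8,(nat_lit 240)),(k11,(nat_lit 291)),(k7,(nat_lit 360)),
    (k4,(nat_lit 413))],[(k9,(nat_lit 240)),(k1,(nat_lit 253)),(k10,(nat_lit 291)),(k5,(nat_lit 307)),(k2,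
    (nat_lit 343)),(k6,(nat_lit 364))],[(k5,(nat_lit 256)),(k9,(nat_lit 291)),(k2,(nat_lit 292)),(k1,(nat_lit 340)),
    (k10,(nat_lit 378)),(k6,(nat_lit 415))],[(k3,(nat_lit 290)),(k8,(nat_lit 291)),(k0,(nat_lit 354)),(k4,
    (nat_lit 378)),(k11,(nat_lit 378)),(k7,(nat_lit 545))]]
    [] k0
    [[k2,k0,k0,k0,k0,k0],[k3,k0,k0,k0,k0,k0],[k2,k1,k0,k0,k0,k0],[k2,k2,k0,k0,k0,k0],[k2,k0,k1,k0,k0,k0],[k2,k0,k0,k0,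
    k1,k0],[k1,k1,k0,k0,k0,k0],[k2,k1,k0,k0,k1,k0],[k1,k2,k0,k0,k0,k0],[k1,k3,k0,k0,k0,k0],[k1,k1,k0,k1,k0,k0],[k1,k1,
    k0,k0,k1,k0],[k1,k1,k0,k0,k0,k1],[k1,k0,k1,k0,k0,k0],[k1,k1,k1,k0,k0,k0],[k1,k2,k1,k0,k0,k0],[k1,k0,k1,k1,k0,k0],
    [k1,k0,k1,k0,k1,k0],[k1,k0,k1,k0,k0,k1],[k1,k0,k0,k1,k0,k0],[k1,k0,k0,k0,k1,k0],[k1,k2,k0,k0,k1,k0],[k1,k0,k0,k0,
    k2,k0],[k1,k0,k0,k0,k1,k1],[k1,k0,k0,k0,k0,k1],[k0,k2,k0,k0,k0,k0],[k0,k3,k0,k0,k0,k0],[k0,k4,k0,k0,k0,k0],[k0,k2,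
    k0,k1,k0,k0],[k0,k2,k0,k0,k1,k0],[k0,k2,k0,k0,k0,k1],[k0,k1,k1,k0,k0,k0],[k0,k1,k0,k1,k0,k0],[k0,k1,k0,k0,k1,k0],
    [k0,k1,k0,k1,k1,k0],[k0,k1,k0,k0,k2,k0],[k0,k1,k0,k0,k1,k1],[k0,k1,k0,k0,k0,k1],[k0,k0,k2,k0,k0,k0],[k0,k0,k1,k1,
    k0,k0],[k0,k0,k1,k0,k1,k0],[k0,k0,k1,k0,k0,k1],[k0,k0,k0,k2,k0,k0],[k0,k0,k0,k1,k1,k0],[k0,k0,k0,k0,k2,k0],[k0,k0,
    k0,k0,k3,k0],[k0,k0,k0,k0,k2,k1],[k0,k0,k0,k0,k1,k1],[k0,k0,k0,k0,k0,k2]]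
    [.contra [z1],.contra [y1,z3,z4],.contra [y1,z3,z4],.contra [z1,y2,y2],.contra [y1,z2,z2,z1],.contra [y1,z2,z3],
    .contra [y1,z3,z4],.contra [y1,z2,z3],.contra [y1,z3,z4],.contra [y1,z3,z4],.ref k178 k3 [(z1,[z1,y1,y1])],
    .contra [z1,y1,y1],.ref k1 k3 [(z1,[y1,z0,z0,z0,z1])],.contra [z1,y1,z0,y1],.contra [y1,z2,z2,z1],.contra [z1,y1,
    y2,z1],.ref k0 k0 [(z1,[y1,z0,y1,z1,z1])],.contra [y1,z1,z1,z1],.ref k178 k4 [(z1,[y1,z0,y1,z1,z1])],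
    .ref k0 k2 [(z1,[z1])],.contra [y1,z2,z3],.contra [y1,z2,z3],.contra [y1,z1,z2],.ref k1 k2 [(z1,[z1])],
    .ref k178 k2 [(z1,[z1])],.contra [z1],.contra [y1,z3,z4],.contra [z1,z0,y4,z6],.ref (nat_lit 270) k5 [(z1,[z1,z0,
    y2]),(z1,[z0,z0,z0,z1]),(z1,[z0,z0,z1]),(z1,[z0,z1])],.contra [y1,z2,z3],.ref (nat_lit 269) k0 [(z1,[z1,z0,y2]),
    (z1,[z0,z1]),(z1,[z0,z0,z1]),(z1,[z0,z0,z0,z1])],.contra [y1,z2,z2,z1],.ref (nat_lit 268) k3 [(z1,[y1,z0,z1,y1]),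
    (z1,[z0,y1,y1,y1,z1]),(z1,[z0,z1,z0,z2])],.contra [y1,z2,z3],.ref k178 k4 [(z1,[z1,z0,y1,z1])],.contra [y1,z1,z2],
    .ref k0 k0 [(z1,[z1,z0,y1,z1])],.ref (nat_lit 268) k2 [(z1,[y1,z1,z1]),(z1,[z1]),(z1,[z0,z0,z0,z1])],.contra [z1],
    .ref k178 k4 [(z1,[z1])],.contra [y1,z1,z1,z1],.ref k0 k0 [(z1,[z1])],.contra [z1],.ref k178 k3 [(z1,[z1])],
    .contra [z1],.contra [y1,z0,z1],.ref k178 k4 [(z1,[y1,y1,y1,z0,z1])],.ref k1 k3 [(z1,[y1,y1,y1,z0,z1])],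
    .contra [y1,y2,y2,y2,z2]]),
    .geo true z1 k5 [(y4,z4),(y2,z2),(z5,y4),(z2,y1),(z3,y2),(z0,z1)] [(z1,[z1]),(z1,[z0,z1]),(z1,[z0,z0,z1]),(z1,[z0,z0,
    z0,z1]),(z1,[y1,y1,y1,y1,z1]),(z1,
    [])] (Int.ofNat (nat_lit 1048576)) (Int.ofNat (nat_lit 1310720)) (.s (.l k1) (.l k1)) [],
    .geo true z1 k5 [(z0,z2),(z2,y1),(z1,y1),(z0,z1),(z1,y2),(z0,z1)] [(z1,[z1]),(z1,[z0,z1]),(z1,[z0,z0,z1]),(z1,[z0,z0,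
    z0,z1]),(z1,[y1,y1,y1,y1,z1]),(z1,
    [])] z0 (Int.ofNat (nat_lit 524288)) (.s (.s (.s (.s (.l k2) (.l k1)) (.l k1)) (.s (.l k1) (.l k1))) (.l k1)) [⟨z0,
    z1,[[k0,k1],[k2,k3],[k4,k5]],.bnd k0⟩],
    .old (.lp [k160,k102,k176,k178,k168,k174] [k32,k30,k60,k60,k0,k46,k22,k22,k27,k27,k24,k24] k0 [[k0,k0,k0,k34,k0,k0,k0,
    k6,k0,k0,k0,k12],[k0,k0,k0,k0,k0,k0,k0,k2],[k0,k34],[k0,k0,k0,k0,k28,k24],[k0,k0,k24,k0,k0,k0,k0,k0,k0,k0,k96],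
    [k0,k0,k28,k0,k0,k0,k2],[k2,k6],[k0,k0,k0,k0,k2,k0,k0,k0,k0,k32],[k0,k0,k0,k0,k0,k0,k32],[k0,k0,k0,k0,k0,k0,k0,k0,
    k0,k0,k2,k14],[k0,k12,k0,k0,k0,k0,k0,k0,k14],[k0,k0,k0,k0,k0,k96,k0,k0,k2]] (nat_lit 480) k6
    [[(k4,k96),(k3,k144),(k0,k160),(k11,k166),(k7,k170),(k8,k179)],[(k2,k96),(k5,k144),(k10,k154),(k1,k160),(k6,k162),
    (k9,k165)],[(k2,k102),(k6,k138),(k10,k138),(k9,k141),(k1,k144),(k5,k150)],[(k0,k96),(k3,k102),(k8,k135),(k11,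
    k138),(k7,k164),(k4,k190)],[(k7,k126),(k0,k144),(k8,k149),(k3,k150),(k4,k152),(k11,k152)],[(k1,k96),(k5,k152),(k2,
    k190),(k9,k195),(k10,k198),(k6,(nat_lit 202))],[(k5,k126),(k2,k164),(k1,k170),(k9,k171),(k6,k178),(k10,
    (nat_lit 272))],[(k3,k138),(k0,k162),(k8,k173),(k7,k178),(k4,(nat_lit 202)),(k11,(nat_lit 208))],[(k8,k136),(k3,
    k141),(k0,k165),(k7,k171),(k11,k171),(k4,k195)],[(k2,k135),(k9,k136),(k5,k149),(k6,k173),(k10,k173),(k1,k179)],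
    [(k2,k138),(k5,k152),(k10,k160),(k1,k166),(k9,k171),(k6,(nat_lit 208))],[(k3,k138),(k0,k154),(k11,k160),(k8,k173),
    (k4,k198),(k7,(nat_lit 272))]]
    [] k0
    [[k2,k0,k0,k0,k0,k0],[k2,k1,k0,k0,k0,k0],[k2,k0,k1,k0,k0,k0],[k1,k1,k0,k0,k0,k0],[k1,k2,k0,k0,k0,k0],[k1,k3,k0,k0,
    k0,k0],[k1,k1,k1,k0,k0,k0],[k1,k1,k0,k1,k0,k0],[k1,k1,k0,k0,k1,k0],[k1,k1,k0,k0,k0,k1],[k1,k0,k1,k0,k0,k0],[k1,k2,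
    k1,k0,k0,k0],[k1,k0,k2,k0,k0,k0],[k1,k0,k1,k1,k0,k0],[k1,k1,k1,k1,k0,k0],[k1,k0,k1,k0,k1,k0],[k1,k0,k1,k0,k0,k1],
    [k1,k0,k0,k1,k0,k0],[k1,k0,k0,k0,k1,k0],[k1,k0,k0,k0,k0,k1],[k0,k2,k0,k0,k0,k0],[k0,k3,k0,k0,k0,k0],[k0,k4,k0,k0,
    k0,k0],[k0,k2,k1,k0,k0,k0],[k0,k2,k0,k1,k0,k0],[k0,k2,k0,k0,k1,k0],[k0,k2,k0,k0,k0,k1],[k0,k1,k1,k0,k0,k0],[k0,k1,
    k0,k1,k0,k0],[k0,k1,k1,k1,k0,k0],[k0,k1,k0,k1,k1,k0],[k0,k1,k0,k0,k1,k0],[k0,k1,k0,k0,k2,k0],[k0,k1,k0,k0,k1,k1],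
    [k0,k1,k0,k0,k0,k1],[k0,k1,k0,k0,k0,k2],[k0,k0,k2,k0,k0,k0],[k0,k0,k3,k0,k0,k0],[k0,k0,k1,k1,k0,k0],[k0,k0,k1,k0,
    k1,k0],[k0,k0,k1,k0,k0,k1],[k0,k0,k0,k2,k0,k0],[k0,k0,k0,k1,k1,k0],[k0,k0,k0,k0,k2,k0],[k0,k0,k0,k0,k3,k0],[k0,k0,
    k0,k0,k1,k1],[k0,k0,k0,k0,k0,k2]]
    [.contra [z1],.contra [z2,y1,y2],.contra [z1,y1,z0,y1],.contra [y1,z2,z4],.contra [y1,z2,z4],.contra [z1,y1,y2],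
    .contra [z1,y1,z0,y1],.ref k178 k3 [(z1,[z1,y1,y1])],.contra [z1,z0,y1],.ref k1 k3 [(z1,[y1,z0,z0,z0,z1])],
    .contra [y1,z2,z2,z1],.contra [z1,y1,y2],.contra [z1,y1,z0,y1],.contra [z1,y1,z0,y1],.ref k1 k3 [(z1,[z1,y1,y1])],
    .contra [z2,y1,z0,y2],.contra [y1,z0,y1,z0,z1],.ref k0 k2 [(z1,[z1])],.contra [z2,z1],.ref k178 k2 [(z1,[z1])],
    .contra [z1],.contra [y1,z2,z4],.contra [z1,z0,y4,z2],.contra [z1,z0,y2,z1],.ref k178 k4 [(z1,[z1,z0,y2,z1])],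
    .contra [z1,z0,y1],.ref k0 k0 [(z1,[z1,z0,y2,z1])],.contra [y1,z2,z2,z1],.ref (nat_lit 273) k10 [(z1,[z0,z0,y2,
    z1]),(z1,[z1]),(z1,[z0,z0,z1]),(z1,[y1,y1,y1,y1,z1])],.ref k1 k2 [(z1,[y1,z0,z0,z0,z1])],.contra [z1,z0,y1],
    .contra [y1,z1,z3],.contra [z2,z1,y2],.contra [y1,y1,z0,y1,z1],.ref (nat_lit 268) k2 [(z1,[y1,z1,z1]),(z1,[z1]),
    (z1,[z0,z0,z0,z1])],.ref (nat_lit 272) k1 [(z1,[z2,z4,z2,z5,y4]),(z1,[z1,z2,z2,z2,y2]),(z1,[y2,y3,y2,y4,z4]),(z1,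
    [z0,y1,y1,y1,z1])],.contra [z1],.ref (nat_lit 217) k3 [(z2,[y1,z0,z0,z3]),(z1,[z0,y1,y1,y1,z1])],
    .ref k178 k4 [(z1,[z1])],.contra [z1,z0,z1,y1],.ref k0 k0 [(z1,[z1])],.contra [z1],.ref k178 k3 [(z1,[z1])],
    .contra [z1,z1],.ref (nat_lit 217) k3 [(z1,[z1]),(z1,[z0,y1,y1,y1,z1])],.ref k1 k3 [(z1,[y1,y1,y1,z0,z1])],
    .contra [y1,y2,y2,y2,z2]]),
    .geo true z1 k5 [(y2,z5),(z2,y2),(z4,y5),(y4,z6),(z4,y5),(z0,z1)] [(z1,[z1]),(z1,[z0,z1]),(z1,[z0,z0,z1]),(z1,[z0,z0,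
    z0,z1]),(z1,[y1,y1,y1,y1,z1]),(z1,
    [])] (Int.ofNat (nat_lit 699050)) (Int.ofNat (nat_lit 838861)) (.s (.l k1) (.s (.l k1) (.l k2))) [⟨z4,z5,[[k0,k5],
    [k1,k2],[k3,k4]],.bnd k0⟩],
    .geo true z4 k5 [(z2,z0),(z8,y4),(y5,z4),(z8,y4),(z3,z0),(z0,z4)] [(z1,[z2]),(z1,[z0,z4]),(z1,[z0,z0,z1]),(z1,[z0,z0,
    z0,z4]),(z1,[y2,y4,y1,y4,z4]),(z1,
    [])] (Int.ofNat (nat_lit 1310720)) (Int.ofNat (nat_lit 2097152)) (.s (.l k1) (.s (.l k1) (.l k2))) [⟨z2,z1,[[k0,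
    k1],[k2,k3],[k4,k5]],.bnd k1⟩],
    .geo true z2 k5 [(y2,z3),(z2,y1),(y2,z3),(z4,y4),(z6,y3),(z0,z2)] [(z1,[z1]),(z1,[z0,z1]),(z1,[z0,z0,z1]),(z1,[z0,z0,
    z0,z2]),(z1,[y1,y1,y1,y2,z2]),(z1,
    [])] (Int.ofNat (nat_lit 699050)) (Int.ofNat (nat_lit 1048576)) (.s (.l k2) (.l k1)) [⟨z2,z3,[[k0,k5],[k1,k2],[k3,
    k4]],.bnd k0⟩]]

noncomputable def cU6_2_n4_3 : List XN :=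
  [.geo true z1 k5 [(y1,z2),(z1,y1),(y1,z2),(z2,y2),(z3,y2),(z0,z1)] [(z1,[z1]),(z1,[z0,z1]),(z1,[z0,z0,z1]),(z1,[z0,z0,
    z0,z1]),(z1,[y1,y1,y1,y1,z1]),(z1,
    [])] (Int.ofNat (nat_lit 524288)) (Int.ofNat (nat_lit 1048576)) (.s (.s (.l k2) (.l k1)) (.l k1)) [⟨z1,z2,[[k0,
    k5],[k1,k2],[k3,k4]],.bnd k0⟩],
    .old (.lp [(nat_lit 1766),(nat_lit 4546),(nat_lit 1650),(nat_lit 2938),(nat_lit 1506),(nat_lit 2938)] [(nat_lit 1390),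
    (nat_lit 1390),k0,k0,(nat_lit 1448),(nat_lit 1448),(nat_lit 804),(nat_lit 804),(nat_lit 1520),(nat_lit 1520),
    (nat_lit 804),(nat_lit 804)] k0 [[k0,k0,k0,(nat_lit 1468),k0,k0,k100,k0,k0,k0,k196],[k0,k0,k0,(nat_lit 2710),k0,
    k0,k38,k0,k0,k0,(nat_lit 1406)],[(nat_lit 2710),(nat_lit 1468),k0,k0,k0,k0,k0,k0,k0,k64],[k0,k0,k0,k0,k16,k96],
    [k0,k0,k96,k0,k0,k0,k0,k0,k0,k0,k0,k80],[k0,k0,k16,k0,k0,k0,k0,k80],[k0,k0,k0,k0,k80,k0,k0,k0,(nat_lit 1054)],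
    [k38,k100],[k0,k0,k0,k64],[k0,k0,k0,k0,k0,k0,k0,(nat_lit 1054),k0,k0,k0,k64],[k0,k0,k0,k0,k0,k80,k0,k0,k64],
    [(nat_lit 1406),k196]] (nat_lit 7680) k6
    [[(k0,(nat_lit 1570)),(k8,(nat_lit 1700)),(k4,(nat_lit 1708)),(k3,(nat_lit 1750)),(k11,(nat_lit 2352)),(k7,
    (nat_lit 2432))],[(k9,(nat_lit 1536)),(k1,(nat_lit 1570)),(k2,(nat_lit 1688)),(k6,(nat_lit 2390)),(k10,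
    (nat_lit 3758)),(k5,(nat_lit 4418))],[(k1,(nat_lit 1750)),(k2,(nat_lit 1836)),(k9,(nat_lit 2988)),(k6,
    (nat_lit 3842)),(k10,(nat_lit 3938)),(k5,(nat_lit 4566))],[(k0,(nat_lit 1688)),(k3,(nat_lit 1836)),(k8,
    (nat_lit 2962)),(k4,(nat_lit 3114)),(k11,(nat_lit 3742)),(k7,(nat_lit 3838))],[(k4,(nat_lit 1554)),(k8,
    (nat_lit 1578)),(k7,(nat_lit 2278)),(k11,(nat_lit 2358)),(k0,(nat_lit 4418)),(k3,(nat_lit 4566))],[(k5,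
    (nat_lit 1554)),(k9,(nat_lit 1658)),(k1,(nat_lit 1708)),(k10,(nat_lit 2214)),(k6,(nat_lit 2294)),(k2,
    (nat_lit 3114))],[(k9,(nat_lit 2222)),(k5,(nat_lit 2278)),(k1,(nat_lit 2432)),(k6,(nat_lit 2858)),(k10,
    (nat_lit 2938)),(k2,(nat_lit 3838))],[(k11,(nat_lit 1884)),(k8,(nat_lit 2222)),(k4,(nat_lit 2294)),(k0,
    (nat_lit 2390)),(k7,(nat_lit 2858)),(k3,(nat_lit 3842))],[(k0,(nat_lit 1536)),(k4,(nat_lit 1658)),(k7,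
    (nat_lit 2222)),(k11,(nat_lit 2222)),(k8,(nat_lit 2560)),(k3,(nat_lit 2988))],[(k5,(nat_lit 1578)),(k1,
    (nat_lit 1700)),(k6,(nat_lit 2222)),(k10,(nat_lit 2222)),(k9,(nat_lit 2560)),(k2,(nat_lit 2962))],[(k6,
    (nat_lit 1884)),(k9,(nat_lit 2222)),(k1,(nat_lit 2352)),(k5,(nat_lit 2358)),(k10,(nat_lit 2874)),(k2,
    (nat_lit 3742))],[(k4,(nat_lit 2214)),(k8,(nat_lit 2222)),(k11,(nat_lit 2874)),(k7,(nat_lit 2938)),(k0,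
    (nat_lit 3758)),(k3,(nat_lit 3938))]]
    [] k0
    [[k2,k0,k0,k0,k0,k0],[k3,k0,k0,k0,k0,k0],[k4,k0,k0,k0,k0,k0],[k3,k1,k0,k0,k0,k0],[k3,k0,k0,k0,k1,k0],[k2,k1,k0,k0,
    k0,k0],[k2,k2,k0,k0,k0,k0],[k2,k0,k1,k0,k1,k0],[k2,k0,k0,k1,k0,k0],[k2,k0,k0,k0,k1,k0],[k2,k0,k0,k0,k2,k0],[k1,k1,
    k0,k0,k0,k0],[k2,k1,k0,k0,k1,k0],[k1,k2,k0,k0,k0,k0],[k1,k3,k0,k0,k0,k0],[k1,k1,k0,k0,k1,k0],[k1,k0,k1,k0,k0,k0],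
    [k1,k0,k2,k0,k1,k0],[k1,k0,k1,k1,k0,k0],[k1,k0,k1,k0,k1,k0],[k1,k0,k1,k0,k2,k0],[k1,k0,k0,k1,k0,k0],[k1,k0,k0,k1,
    k1,k0],[k1,k0,k0,k0,k1,k0],[k1,k0,k0,k0,k2,k0],[k1,k0,k0,k0,k0,k1],[k1,k0,k0,k0,k1,k1],[k0,k2,k0,k0,k0,k0],[k0,k3,
    k0,k0,k0,k0],[k0,k4,k0,k0,k0,k0],[k0,k1,k0,k0,k1,k0],[k0,k0,k2,k0,k0,k0],[k0,k0,k3,k0,k0,k0],[k0,k0,k4,k0,k0,k0],
    [k0,k0,k3,k0,k1,k0],[k0,k0,k2,k1,k0,k0],[k0,k0,k2,k0,k1,k0],[k0,k0,k2,k1,k1,k0],[k0,k0,k2,k0,k2,k0],[k0,k0,k2,k0,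
    k1,k1],[k0,k0,k2,k0,k0,k1],[k0,k0,k1,k1,k0,k0],[k0,k0,k1,k2,k0,k0],[k0,k0,k1,k1,k1,k0],[k0,k0,k1,k1,k0,k1],[k0,k0,
    k1,k0,k1,k0],[k0,k0,k1,k0,k2,k0],[k0,k0,k1,k0,k1,k1],[k0,k0,k1,k0,k0,k1],[k0,k0,k1,k0,k0,k2],[k0,k0,k0,k2,k0,k0],
    [k0,k0,k0,k2,k1,k0],[k0,k0,k0,k1,k1,k0],[k0,k0,k0,k1,k2,k0],[k0,k0,k0,k1,k1,k1],[k0,k0,k0,k1,k0,k1],[k0,k0,k0,k0,
    k2,k0],[k0,k0,k0,k0,k2,k1],[k0,k0,k0,k0,k1,k1],[k0,k0,k0,k0,k1,k2],[k0,k0,k0,k0,k0,k2]]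
    [.contra [z1],.ref (nat_lit 217) k2 [(z1,[z1]),(z1,[z0,z0,z1])],.contra [y1,z4,z0,z2],.contra [z1,y1,y1],
    .ref (nat_lit 252) k5 [(z1,[y1,z0,y1,y1,z1]),(z1,[z0,z1,z0,z1])],.contra [z1,y1,y1],.contra [z1,y1,y1],
    .contra [z1,y2,z0,y1],.ref k178 k10 [(z1,[y1,z1,z0,z0,z1])],.ref (nat_lit 268) k10 [(z1,[y1,z1,y1,z1]),(z1,[z0,y1,
    z0,y1,z1]),(z1,[z1])],.ref (nat_lit 278) k6 [(z2,[y1,y2]),(z2,[z1]),(z2,[y1,y4,y2,y2,z2]),(z1,[z0,z2,z0,z1])],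
    .contra [z1,y1,y1],.contra [z1,y1,y1],.contra [z1,y1,y1],.contra [z1,y1,y1],.contra [z1,y1,y1],.contra [y1,z2,z0,
    z1],.ref k178 k10 [(z1,[z1,y1,z1,y1])],.contra [y1,z0,y1,z0,z1],.contra [y1,z0,y1,z0,z1],.ref k0 k3 [(z1,[z1,y1,
    z1,y1])],.contra [y1,z0,y1,z0,z1],.contra [z1,z2,z1,z1,y1],.contra [y1,z0,y1,z0,z1],.ref (nat_lit 277) k6 [(z1,
    [y1,y2]),(z1,[z1]),(z1,[y1,y4,y2,y2,z2]),(z1,[z0,z2,z0,z1])],.contra [y1,z1,z0,z1],.contra [z1,z1],.contra [z1],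
    .contra [z1,z0,y2,z1],.contra [z1,z0,y2,z1],.ref k0 k3 [(z1,[z1])],.contra [z1],.ref (nat_lit 217) k2 [(z2,[y1,z6,
    z0,z3]),(z1,[z0,z0,z1])],.ref (nat_lit 276) k10 [(z2,[z1]),(z1,[z0,y1,z0,y1,z1]),(z2,[y1,z0,y8,z4]),(z1,[z0,z0,
    z1])],.ref (nat_lit 275) k8 [(z1,[z1,y5,z1,y3]),(z1,[z0,z2,z0,z1]),(z1,[y1,z4,y1,z2,z1]),(z1,[z1,y6,z0,y3])],
    .ref (nat_lit 252) k5 [(z1,[z1,y2,z0,y2]),(z1,[z0,z1,z0,z1])],.ref (nat_lit 268) k7 [(z1,[y1,z1,y1,z1]),(z1,[z0,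
    z0,z1]),(z1,[z1])],.ref (nat_lit 217) k2 [(z1,[y1,z2,y1,z1,z1]),(z1,[z0,z0,z1])],.ref (nat_lit 274) k9 [(z2,[z1,
    y4,z0,y2]),(z2,[y1,z0,y2,z0,z2]),(z1,[z0,z2,z0,z1])],.ref (nat_lit 217) k2 [(z1,[y1,z3,z0,z2]),(z1,[z0,z0,z1])],
    .ref (nat_lit 252) k5 [(z1,[z1,y3,y1,y3,z1]),(z1,[z0,z1,z0,z1])],.contra [y1,z0,y1,z0,z1],.contra [y1,y2,y2,y1,
    z2],.contra [y1,z0,y1,z0,z1],.contra [y1,y1,y1,z0,z1],.contra [y1,z0,y1,z0,z1],.contra [y1,y2,y2,y1,z2],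
    .contra [y1,z1,z0,z1],.contra [y1,z1,z0,z1],.contra [y1,z0,z0,z1],.contra [y1,y2,z0,y2,z2],.contra [y1,y2,y2,y1,
    z2],.contra [y1,z0,y1,z0,z1],.contra [y1,y2,y2,y1,z2],.contra [y1,y1,y1,z0,z1],.contra [y1,y1,z1,y1,z1],
    .contra [z1],.contra [y1,y1,y1,z0,z1],.contra [y1,z1,z0,z1],.contra [y1,z0,z0,z1],.contra [y1,z0,z2]]),
    .geo true z1 k5 [(y2,z5),(z2,y2),(y2,z4),(z2,y3),(z4,y5),(z0,z1)] [(z1,[z1]),(z1,[z0,z1]),(z1,[z0,z0,z1]),(z1,[z0,z0,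
    z0,z1]),(z1,[y1,y1,y1,y1,z1]),(z1,[])] (Int.ofNat (nat_lit 524288)) (Int.ofNat (nat_lit 699051)) (.l k1) [],
    .geo true z1 k5 [(y2,z4),(z2,y2),(y2,z3),(z2,y2),(z4,y4),(z0,z1)] [(z1,[z1]),(z1,[z0,z1]),(z1,[z0,z0,z1]),(z1,[z0,z0,
    z0,z1]),(z1,[y1,y1,y1,y1,z1]),(z1,
    [])] (Int.ofNat (nat_lit 699050)) (Int.ofNat (nat_lit 1048576)) (.s (.l k1) (.l k1)) [],
    .old (.lp [(nat_lit 368),(nat_lit 356),(nat_lit 480),(nat_lit 592),(nat_lit 512),(nat_lit 566)] [k112,k112,k118,k118,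
    k56,k56,k0,k0,k40,k40,k13,k13] k0 [[k0,k0,k136,k14],[k0,k0,k0,k0,k0,k0,k0,k0,k0,k0,k32,k112],[k0,k14,k0,k0,k0,
    k130],[k0,k136],[k0,k0,k0,k130,k0,k0,k0,k0,k0,k0,k130,k86],[k0,k0,k0,k0,k0,k0,k50,k88],[k0,k0,k0,k0,k88,k0,k0,k0,
    k0,k118],[k0,k0,k0,k0,k50,k0,k0,k0,k0,k152],[k0,k0,k0,k0,k0,k0,k152,k118],[k0,k0,k0,k0,k0,k0,k0,k0,k0,k0,k6,k80],
    [k112,k0,k0,k0,k0,k86,k0,k0,k80],[k32,k0,k0,k0,k0,k130,k0,k0,k6]] (nat_lit 1440) k6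
    [[(k4,(nat_lit 294)),(k3,(nat_lit 330)),(k11,(nat_lit 461)),(k0,(nat_lit 480)),(k8,(nat_lit 520)),(k7,
    (nat_lit 566))],[(k5,(nat_lit 288)),(k2,(nat_lit 348)),(k9,(nat_lit 440)),(k1,(nat_lit 480)),(k6,(nat_lit 480)),
    (k10,(nat_lit 499))],[(k1,(nat_lit 330)),(k10,(nat_lit 349)),(k5,(nat_lit 432)),(k9,(nat_lit 434)),(k6,
    (nat_lit 474)),(k2,(nat_lit 492))],[(k4,(nat_lit 288)),(k0,(nat_lit 348)),(k8,(nat_lit 434)),(k11,(nat_lit 461)),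
    (k7,(nat_lit 474)),(k3,(nat_lit 492))],[(k0,(nat_lit 288)),(k3,(nat_lit 432)),(k4,(nat_lit 480)),(k8,
    (nat_lit 496)),(k11,(nat_lit 523)),(k7,(nat_lit 666))],[(k2,(nat_lit 288)),(k1,(nat_lit 294)),(k10,(nat_lit 437)),
    (k5,(nat_lit 480)),(k9,(nat_lit 584)),(k6,(nat_lit 586))],[(k2,(nat_lit 474)),(k9,(nat_lit 502)),(k6,
    (nat_lit 504)),(k1,(nat_lit 566)),(k5,(nat_lit 666)),(k10,(nat_lit 709))],[(k8,(nat_lit 434)),(k3,(nat_lit 474)),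
    (k0,(nat_lit 480)),(k7,(nat_lit 504)),(k4,(nat_lit 586)),(k11,(nat_lit 731))],[(k8,(nat_lit 360)),(k3,
    (nat_lit 434)),(k0,(nat_lit 440)),(k7,(nat_lit 502)),(k4,(nat_lit 584)),(k11,(nat_lit 657))],[(k9,(nat_lit 360)),
    (k2,(nat_lit 434)),(k6,(nat_lit 434)),(k5,(nat_lit 496)),(k1,(nat_lit 520)),(k10,(nat_lit 545))],[(k1,
    (nat_lit 461)),(k2,(nat_lit 461)),(k10,(nat_lit 486)),(k5,(nat_lit 523)),(k9,(nat_lit 657)),(k6,(nat_lit 731))],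
    [(k3,(nat_lit 349)),(k4,(nat_lit 437)),(k11,(nat_lit 486)),(k0,(nat_lit 499)),(k8,(nat_lit 545)),(k7,
    (nat_lit 709))]]
    [] k0
    [[k2,k0,k0,k0,k0,k0],[k2,k1,k0,k0,k0,k0],[k2,k1,k1,k0,k0,k0],[k2,k0,k1,k0,k0,k0],[k1,k1,k0,k0,k0,k0],[k2,k2,k0,k0,
    k0,k0],[k1,k2,k0,k0,k0,k0],[k1,k2,k1,k0,k0,k0],[k1,k1,k1,k0,k0,k0],[k1,k1,k2,k0,k0,k0],[k1,k1,k0,k1,k0,k0],[k1,k1,
    k0,k0,k1,k0],[k1,k1,k0,k0,k0,k1],[k1,k0,k1,k0,k0,k0],[k2,k0,k2,k0,k0,k0],[k1,k0,k2,k0,k0,k0],[k1,k0,k1,k0,k1,k0],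
    [k1,k0,k1,k0,k0,k1],[k1,k0,k0,k1,k0,k0],[k1,k0,k0,k0,k1,k0],[k1,k0,k0,k0,k2,k0],[k1,k0,k0,k0,k0,k1],[k1,k1,k1,k0,
    k0,k1],[k0,k2,k0,k0,k0,k0],[k0,k2,k1,k0,k0,k0],[k0,k2,k0,k0,k1,k0],[k0,k2,k0,k0,k0,k1],[k0,k1,k1,k0,k0,k0],[k0,k1,
    k2,k0,k0,k0],[k0,k1,k1,k0,k0,k1],[k0,k1,k0,k1,k0,k0],[k0,k1,k1,k1,k0,k0],[k0,k1,k0,k1,k1,k0],[k0,k1,k0,k0,k1,k0],
    [k0,k1,k1,k0,k1,k0],[k0,k1,k0,k0,k2,k0],[k0,k1,k0,k0,k0,k1],[k0,k1,k0,k0,k0,k2],[k0,k0,k2,k0,k0,k0],[k0,k0,k1,k1,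
    k0,k0],[k0,k0,k1,k0,k1,k0],[k0,k0,k1,k0,k0,k1],[k0,k0,k0,k2,k0,k0],[k0,k0,k0,k1,k1,k0],[k0,k0,k0,k1,k2,k0],[k0,k0,
    k0,k0,k2,k0],[k0,k0,k0,k0,k3,k0],[k0,k0,k0,k0,k1,k1],[k0,k0,k0,k0,k0,k2]]
    [.contra [z1],.contra [y1,z2,z2,z1],.contra [y1,z2,z2,z1],.contra [y1,z2,z2,z1],.contra [y1,z2,z2,z1],.contra [z1,
    y2,y2],.contra [y1,z2,z2,z1],.contra [y1,z2,z2,z1],.contra [y1,z2,z2,z1],.ref (nat_lit 217) k3 [(z1,[y1,z1,z1,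
    z2]),(z1,[z0,y1,y1,y1,z1])],.ref k178 k3 [(z1,[z1,y1,y1])],.contra [z1,y1,y1],.contra [y1,z1,z2],.contra [y1,z2,
    z2,z1],.contra [y1,z0,y2,z0,z2],.ref k0 k0 [(z1,[z1,y1,z0,y1])],.contra [y1,z1,z1,z1],.contra [y1,y1,y2,y1,z2],
    .contra [z1,z0,z1,z1,y1],.contra [y1,z1,z1,z1],.ref (nat_lit 281) k5 [(z1,[y1,z0,y1,y1,z1]),(z1,[z0,z0,z0,z1]),
    (z1,[y1,z1,z1]),(z1,[z1])],.contra [y1,z1,z2],.ref k178 k3 [(z1,[y1,z0,z0,z0,z1])],.contra [z1],.contra [y1,z2,z2,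
    z1],.ref (nat_lit 279) k9 [(z1,[z1,y1,y2]),(z1,[z0,y1,y1,y1,z1]),(z1,[y2,z2,z4,z1])],.contra [y1,z1,z2],
    .contra [y1,z2,z2,z1],.ref (nat_lit 280) k5 [(z1,[z1,y1,y2,y3,z1]),(z1,[z0,z0,z0,z1]),(z1,[z1,z0,z0,y2]),(z1,[y1,
    z1,z1,z2])],.ref (nat_lit 217) k3 [(z1,[y1,z0,z1,z1]),(z1,[z0,y1,y1,y1,z1])],.ref (nat_lit 279) k9 [(z1,[z1,z0,z0,
    z1,y1]),(z1,[z0,y1,y1,y1,z1]),(z1,[y2,z0,z0,y1,z2])],.ref k1 k2 [(z1,[y1,z0,z0,z0,z1])],.contra [z1,y1,y2,y1,z1],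
    .contra [y1,z1,z1,z1],.contra [y1,z1,z1,z1],.ref k178 k3 [(z1,[z1,y1,y2,y1,z1])],.contra [y1,z1,z2],
    .ref k178 k3 [(z1,[y1,y1,z0,y1,z1])],.contra [z1],.contra [y1,z0,y1,z0,z1],.contra [y1,z1,z1,z1],.ref k0 k0 [(z1,
    [z1])],.contra [z1],.ref k178 k3 [(z1,[z1])],.ref k0 k0 [(z1,[y1,y1,y1,z0,z1])],.contra [z1],
    .ref (nat_lit 217) k3 [(z1,[z1]),(z1,[z0,y1,y1,y1,z1])],.contra [y1,z0,z1],.contra [y1,y2,y2,y2,z2]]),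
    .geo true z1 k5 [(y2,z6),(z0,z2),(z2,y3),(z2,y2),(z2,y4),(z0,z1)] [(z1,[z1]),(z1,[z0,z1]),(z1,[z0,z0,z1]),(z1,[z0,z0,
    z0,z1]),(z1,[y1,y1,y1,y1,z1]),(z1,
    [])] (Int.ofNat (nat_lit 349525)) (Int.ofNat (nat_lit 524288)) (.s (.l k1) (.l k1)) [],
    .old (.lp [(nat_lit 384),(nat_lit 370),(nat_lit 380),(nat_lit 276),(nat_lit 252),(nat_lit 256)] [k68,k68,k75,k75,k140,
    k0,k126,k118,k134,k134,k132,k132] k0 [[k0,k0,k0,k58,k0,k0,k0,k0,k0,k0,k140,k20],[k0,k0,k0,k0,k0,k0,k0,k16],[k0,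
    k58],[k0,k0,k0,k0,k152,k0,k0,k0,k0,k194],[k0,k0,k0,k0,k0,k0,k54,k0,k0,k0,k48,k56],[k0,k0,k152,k0,k0,k0,k76],[k16,
    k0,k0,k0,k0,k0,k0,k0,k68,k4],[k0,k0,k0,k0,k76,k54],[k0,k0,k194,k0,k0,k0,k0,k4],[k0,k0,k0,k0,k0,k0,k0,k68,k0,k0,
    k128,k64],[k0,k20,k0,k0,k0,k56,k0,k0,k64],[k0,k140,k0,k0,k0,k48,k0,k0,k128]] (nat_lit 960) k6
    [[(k11,k192),(k0,(nat_lit 244)),(k4,(nat_lit 264)),(k8,(nat_lit 382)),(k7,(nat_lit 390)),(k3,(nat_lit 397))],[(k1,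
    (nat_lit 244)),(k10,(nat_lit 300)),(k2,(nat_lit 319)),(k6,(nat_lit 326)),(k9,(nat_lit 334)),(k5,(nat_lit 452))],
    [(k6,(nat_lit 303)),(k9,(nat_lit 311)),(k2,(nat_lit 370)),(k1,(nat_lit 397)),(k10,(nat_lit 453)),(k5,
    (nat_lit 503))],[(k8,(nat_lit 311)),(k0,(nat_lit 319)),(k7,(nat_lit 327)),(k3,(nat_lit 370)),(k4,(nat_lit 457)),
    (k11,(nat_lit 507))],[(k8,k192),(k7,(nat_lit 250)),(k4,(nat_lit 380)),(k11,(nat_lit 388)),(k0,(nat_lit 452)),(k3,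
    (nat_lit 503))],[(k9,k192),(k10,k192),(k1,(nat_lit 264)),(k6,(nat_lit 330)),(k5,(nat_lit 380)),(k2,
    (nat_lit 457))],[(k9,k192),(k5,(nat_lit 250)),(k10,(nat_lit 318)),(k2,(nat_lit 327)),(k6,(nat_lit 330)),(k1,
    (nat_lit 390))],[(k11,k194),(k8,(nat_lit 256)),(k3,(nat_lit 303)),(k0,(nat_lit 326)),(k4,(nat_lit 330)),(k7,
    (nat_lit 330))],[(k4,k192),(k7,k192),(k11,(nat_lit 258)),(k3,(nat_lit 311)),(k8,(nat_lit 320)),(k0,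
    (nat_lit 334))],[(k5,k192),(k6,(nat_lit 256)),(k2,(nat_lit 311)),(k9,(nat_lit 320)),(k1,(nat_lit 382)),(k10,
    (nat_lit 382))],[(k1,k192),(k10,k192),(k6,k194),(k9,(nat_lit 258)),(k5,(nat_lit 388)),(k2,(nat_lit 507))],[(k4,
    k192),(k11,k192),(k0,(nat_lit 300)),(k7,(nat_lit 318)),(k8,(nat_lit 382)),(k3,(nat_lit 453))]]
    [] k0
    [[k2,k0,k0,k0,k0,k0],[k3,k0,k0,k0,k0,k0],[k2,k0,k0,k0,k0,k1],[k2,k0,k0,k0,k0,k2],[k1,k1,k0,k0,k0,k0],[k1,k0,k1,k0,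
    k0,k0],[k1,k0,k1,k1,k0,k0],[k1,k0,k1,k0,k1,k0],[k1,k0,k1,k0,k0,k1],[k1,k0,k0,k1,k0,k0],[k1,k0,k0,k1,k0,k1],[k1,k0,
    k0,k0,k1,k0],[k1,k0,k0,k1,k1,k0],[k1,k0,k0,k0,k1,k1],[k1,k0,k0,k0,k0,k1],[k1,k0,k1,k0,k1,k1],[k1,k0,k0,k0,k0,k2],
    [k1,k0,k0,k0,k0,k3],[k0,k2,k0,k0,k0,k0],[k0,k1,k0,k1,k0,k0],[k0,k1,k0,k1,k1,k0],[k0,k1,k0,k0,k1,k0],[k0,k1,k0,k0,
    k2,k0],[k0,k0,k2,k0,k0,k0],[k0,k0,k2,k0,k1,k0],[k0,k0,k1,k1,k0,k0],[k0,k0,k1,k2,k0,k0],[k0,k0,k1,k1,k1,k0],[k0,k0,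
    k1,k1,k1,k1],[k0,k0,k1,k1,k0,k1],[k0,k0,k1,k1,k0,k2],[k0,k0,k1,k0,k1,k0],[k0,k0,k2,k0,k2,k0],[k0,k0,k1,k1,k2,k0],
    [k0,k0,k1,k0,k2,k0],[k0,k0,k1,k0,k1,k1],[k0,k0,k1,k0,k1,k2],[k0,k0,k1,k0,k0,k1],[k0,k0,k1,k0,k0,k2],[k0,k0,k0,k2,
    k0,k0],[k0,k0,k0,k2,k1,k0],[k0,k0,k0,k2,k0,k1],[k0,k0,k0,k1,k1,k0],[k0,k0,k0,k2,k2,k0],[k0,k0,k0,k1,k2,k0],[k0,k0,
    k0,k1,k1,k1],[k0,k0,k0,k1,k0,k1],[k0,k0,k0,k1,k0,k2],[k0,k0,k0,k1,k0,k3],[k0,k0,k0,k0,k2,k0],[k0,k0,k0,k0,k1,k1],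
    [k0,k0,k0,k0,k1,k2],[k0,k0,k0,k0,k0,k2],[k0,k0,k0,k0,k0,k3],[k0,k0,k0,k0,k0,k4]]
    [.contra [z1],.ref (nat_lit 217) k2 [(z1,[z1]),(z1,[z0,z0,z1])],.ref k178 k10 [(z1,[y1,z2,z1,z1])],.contra [z1,y1,
    y1,y1,z1],.contra [y2,z1,z1,z0,z1],.contra [y1,z2,z0,z1],.contra [z1,y1,z2,y1],.contra [y1,z0,y1,z0,z1],
    .contra [z2,y3,y1,y2,z1],.contra [y1,z0,y1,z0,z1],.ref k0 k0 [(z1,[y1,z1,z0,z1])],.contra [y1,z0,y1,z0,z1],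
    .contra [z1,z2,z1,z1,y1],.ref k1 k2 [(z1,[z1])],.ref k1 k0 [(z1,[z1,y2,y1,y1,z1])],.contra [z2,y3,y1,y2,z1],
    .contra [z1,y1,y1,y1,z1],.contra [z2,y1,y3,y2,z3],.contra [z1],.contra [y2,y3,y1,y2,z3],.contra [y2,y3,y1,y2,z3],
    .contra [y1,y1,z1,y1,z1],.ref k178 k0 [(z1,[z1,z1,z0,z1,y1])],.contra [z1],.ref k0 k0 [(z2,[z1,z1,z1,z1,y1])],
    .contra [y1,z0,y1,z0,z1],.contra [z1,z0,z4,y1],.contra [y1,z0,y1,z0,z1],.contra [z2,z1,z1,z0,y1],.ref k1 k0 [(z1,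
    [y1,y1,y1,z0,z1])],.contra [z1,z1],.contra [y1,z0,y1,z0,z1],.ref (nat_lit 274) k9 [(z2,[z1,y4,z0,y2]),(z2,[y1,z0,
    y2,z0,z2]),(z1,[z0,z2,z0,z1])],.contra [y1,y2,y2,y1,z2],.contra [y1,y2,y2,y1,z2],.ref (nat_lit 283) k1 [(z1,[z4,
    z4,z4,z1,y4]),(z1,[z1,z1,z2,z0,y1]),(z1,[y2,y1,y2,z0,z2]),(z1,[y1,y1,y1,z0,z1])],.contra [y1,y1,y1,z0,z1],
    .ref k0 k0 [(z1,[z1])],.contra [z1,y1,y1,y1,z1],.contra [z1],.contra [y1,y2,y2,y1,z2],.ref (nat_lit 283) k1 [(z1,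
    [y4,z0,z0,z1]),(z1,[y1,z0,z1]),(z1,[z2,z1]),(z1,[z1])],.contra [y1,z0,y1,z0,z1],.contra [z1,z4,z2,z2,y2],
    .contra [y1,y2,y2,y1,z2],.ref k1 k0 [(z1,[z1])],.contra [y2,y1,y1,z0,z1],.contra [z1,z1],.contra [z2,z3,y1,z0,z1],
    .contra [z1],.ref k178 k0 [(z1,[z1])],.contra [y1,y1,z3,y1,z1],.contra [y1,z0,z2],.contra [z2,y1,y3,y2,z3],
    .contra [z1,z0,y2,y1,z2]]),
    .geo true z1 k5 [(y2,z4),(z6,y7),(y6,z8),(z2,y2),(z4,y4),(z0,z1)] [(z1,[z1]),(z1,[z0,z1]),(z1,[z0,z0,z1]),(z1,[z0,z0,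
    z0,z1]),(z1,[y1,y1,y1,y1,z1]),(z1,[])] (Int.ofNat (nat_lit 786432)) (Int.ofNat (nat_lit 898780)) (.l k1) [],
    .old (.lp [(nat_lit 326),(nat_lit 306),(nat_lit 382),(nat_lit 290),(nat_lit 462),k152] [k68,k68,k44,k112,k40,k40,k86,
    k86,k0,k0,k158,k152] k0 [[k0,k0,k0,k0,k0,k0,k0,k0,k0,k0,k0,k44],[k0,k0,k34,k0,k0,k0,k0,k14],[k0,k0,k0,k0,k0,k0,k0,
    k0,k74,k192],[k34,k0,k0,k0,k0,k130],[k0,k0,k130,k0,k0,k0,k0,k0,k0,k0,k0,k18],[k0,k0,k0,k0,k0,k0,k40,k42],[k14,k0,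
    k0,k0,k42],[k0,k0,k0,k0,k40,k0,k0,k0,k0,(nat_lit 270)],[k0,k0,k0,k192,k0,k0,(nat_lit 270),k0,k0,k0,k168],[k0,k0,
    k0,k74,k0,k0,k0,k0,k0,k0,k26],[k0,k44,k0,k0,k0,k18],[k0,k0,k0,k0,k0,k0,k0,k0,k26,k168]] (nat_lit 960) k6
    [[(k11,(nat_lit 216)),(k8,(nat_lit 226)),(k0,(nat_lit 326)),(k3,(nat_lit 326)),(k7,(nat_lit 326)),(k4,
    (nat_lit 354))],[(k10,k192),(k6,(nat_lit 308)),(k1,(nat_lit 326)),(k5,(nat_lit 354)),(k2,(nat_lit 384)),(k9,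
    (nat_lit 408))],[(k10,k192),(k6,(nat_lit 250)),(k5,(nat_lit 276)),(k2,(nat_lit 306)),(k1,(nat_lit 326)),(k9,
    (nat_lit 350))],[(k11,k192),(k8,(nat_lit 226)),(k3,(nat_lit 306)),(k4,(nat_lit 378)),(k0,(nat_lit 384)),(k7,
    (nat_lit 462))],[(k4,(nat_lit 252)),(k3,(nat_lit 276)),(k7,(nat_lit 336)),(k0,(nat_lit 354)),(k11,(nat_lit 462)),
    (k8,(nat_lit 496))],[(k10,(nat_lit 246)),(k5,(nat_lit 252)),(k1,(nat_lit 354)),(k6,(nat_lit 376)),(k2,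
    (nat_lit 378)),(k9,(nat_lit 464))],[(k10,(nat_lit 218)),(k6,(nat_lit 248)),(k1,(nat_lit 326)),(k5,(nat_lit 336)),
    (k9,(nat_lit 336)),(k2,(nat_lit 462))],[(k7,(nat_lit 248)),(k3,(nat_lit 250)),(k0,(nat_lit 308)),(k4,
    (nat_lit 376)),(k8,(nat_lit 376)),(k11,(nat_lit 494))],[(k8,k192),(k11,(nat_lit 310)),(k7,(nat_lit 336)),(k3,
    (nat_lit 350)),(k0,(nat_lit 408)),(k4,(nat_lit 464))],[(k9,k192),(k1,(nat_lit 226)),(k2,(nat_lit 226)),(k10,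
    (nat_lit 330)),(k6,(nat_lit 376)),(k5,(nat_lit 496))],[(k2,k192),(k1,(nat_lit 216)),(k9,(nat_lit 310)),(k10,
    (nat_lit 320)),(k5,(nat_lit 462)),(k6,(nat_lit 494))],[(k0,k192),(k3,k192),(k7,(nat_lit 218)),(k4,(nat_lit 246)),
    (k11,(nat_lit 320)),(k8,(nat_lit 330))]]
    [] k0
    [[k2,k0,k0,k0,k0,k0],[k2,k0,k0,k0,k0,k1],[k1,k1,k0,k0,k0,k0],[k1,k1,k0,k0,k0,k1],[k1,k0,k1,k0,k0,k0],[k1,k0,k0,k1,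
    k0,k0],[k1,k0,k0,k2,k0,k0],[k1,k0,k0,k0,k1,k0],[k1,k0,k0,k1,k1,k0],[k1,k0,k0,k0,k2,k0],[k1,k0,k0,k0,k2,k1],[k1,k0,
    k0,k0,k1,k1],[k1,k0,k0,k0,k0,k1],[k2,k0,k0,k0,k0,k2],[k1,k1,k0,k0,k0,k2],[k1,k0,k1,k0,k0,k1],[k1,k0,k0,k1,k0,k1],
    [k1,k0,k0,k0,k0,k2],[k0,k2,k0,k0,k0,k0],[k0,k3,k0,k0,k0,k0],[k0,k2,k0,k0,k1,k0],[k0,k2,k0,k0,k0,k1],[k0,k1,k1,k0,
    k0,k0],[k0,k1,k2,k0,k0,k0],[k0,k1,k1,k0,k0,k1],[k0,k1,k0,k1,k0,k0],[k0,k1,k0,k2,k0,k1],[k0,k1,k0,k1,k1,k0],[k0,k1,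
    k0,k1,k0,k1],[k0,k1,k0,k0,k1,k0],[k0,k1,k0,k0,k2,k0],[k0,k1,k0,k0,k1,k1],[k0,k1,k0,k0,k0,k1],[k0,k2,k0,k0,k0,k2],
    [k0,k1,k0,k0,k2,k1],[k0,k1,k0,k0,k0,k2],[k0,k0,k2,k0,k0,k0],[k0,k0,k3,k0,k0,k0],[k0,k0,k1,k1,k0,k0],[k0,k0,k1,k0,
    k0,k1],[k0,k0,k0,k2,k0,k0],[k0,k0,k0,k3,k0,k0],[k0,k0,k0,k1,k1,k0],[k0,k0,k0,k1,k2,k0],[k0,k0,k0,k1,k0,k1],[k0,k0,
    k0,k1,k1,k1],[k0,k0,k0,k0,k2,k0],[k0,k0,k0,k0,k3,k0],[k0,k0,k0,k0,k4,k0],[k0,k0,k0,k0,k2,k1],[k0,k0,k0,k0,k1,k1],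
    [k0,k0,k0,k0,k0,k2]]
    [.contra [z1],.contra [y1,z2,z1],.contra [y1,z0,z0,y1,z1],.contra [y1,z0,z0,y1,z1],.contra [y1,z1,z0,z2],
    .contra [y1,z0,z0,y1,z1],.ref k1 k2 [(z2,[z1,z3,z2,z2,y2])],.ref (nat_lit 268) k0 [(z1,[y1,z2,z1,z1,y1]),(z1,
    [z1]),(z1,[z0,y2,y1,y2,z2])],.ref (nat_lit 282) k0 [(z1,[y1,z2,z1,z1,y1]),(z1,[z1]),(z1,[z0,y2,y1,y2,z2])],
    .contra [y1,z1,z0,z4],.contra [z1,y1,y1,y1,z1],.ref k1 k2 [(z1,[z1])],.contra [y2,z3,z1,z2],.contra [z1,y4,y2,y2,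
    z2],.contra [z1,y1,y1,z2],.contra [y2,z3,z1,z2],.contra [z1,y2,y1,y1,z1],.contra [y1,z2,z1],.contra [z1],
    .ref (nat_lit 217) k4 [(z2,[y1,y6,y3,y6,z6]),(z1,[z0,z0,z0,z1])],.ref (nat_lit 285) k3 [(z1,[z1,z4,z2,z4,y4]),(z1,
    [y2,y7,y3,y7,z7]),(z1,[z2,z9,z4,z8,y8]),(z1,[z0,y2,y1,y2,z2])],.ref (nat_lit 271) k0 [(z1,[z1,z4,z2,z4,y4]),(z1,
    [y1,y2,y1,y3,z3]),(z1,[z0,y2,y1,y2,z2])],.ref k178 k10 [(z1,[z1])],.ref k1 k2 [(z2,[y1,z2,z1,z2])],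
    .ref (nat_lit 282) k0 [(z1,[z1,z2,z1,z1,y2]),(z1,[y1,z0,z0,z0,z1]),(z1,[z0,y2,y1,y2,z2])],.contra [y1,y2,y1,y2,
    z2],.contra [z1,z2,z1,z2,y2],.contra [z2,z3,z1,z2,y2],.contra [z1,z1,z0,z3,y1],.ref k0 k3 [(z1,[z1])],.contra [z1,
    z1],.ref k1 k2 [(z1,[y1,z1,z1])],.contra [y1,z0,z0,y1,z1],.ref (nat_lit 274) k0 [(z2,[z1,z4,z2,z4,y4]),(z2,[y1,z0,
    z0,y2,z2]),(z1,[z0,y2,y1,y2,z2])],.contra [z2,z1,y1,z2],.contra [z1,z0,y1,z4],.contra [z1],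
    .ref (nat_lit 268) k0 [(z1,[z1,z1,z1,y2,y1]),(z1,[y1,z1,z0,z3]),(z1,[z0,y2,y1,y2,z2])],.contra [y2,y1,y1,z0,z2],
    .contra [y2,z3,z1,z2],.contra [z1],.ref (nat_lit 217) k4 [(z1,[z1]),(z1,[z0,z0,z0,z1])],.ref k1 k2 [(z1,[z1,z2,z1,
    z1,y1])],.contra [z1,z1],.contra [y1,z0,z0,y1,z1],.ref k0 k3 [(z1,[y1,y1,z0,y1,z1])],.contra [y1,z0,z0,z2],
    .contra [z1,z2,z0,z1],.contra [z1,z3,z0,z2],.contra [z1,y1,y1,y1,z1],.contra [y2,z1,z1],.contra [z1]]),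
    .geo true z3 k4 [(y1,z3),(z1,z0),(z6,y6),(z2,z0),(z0,z3),(z4,z0)] [(z1,[z1]),(z1,[z0,z1]),(z1,[z0,z0,z3]),(z1,[z0,z0,
    z0,z1]),(z1,[]),(z1,[y1,y1,y3,y1,
    z3])] (Int.ofNat (nat_lit 349525)) (Int.ofNat (nat_lit 1048576)) (.s (.l k1) (.l k1)) [],
    .geo true z3 k4 [(y6,z9),(z6,y6),(z6,y6),(z2,z0),(z0,z3),(z4,z0)] [(z1,[z3]),(z1,[z0,z3]),(z1,[z0,z0,z3]),(z1,[z0,z0,
    z0,z1]),(z1,[]),(z1,[y3,y3,y3,y1,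
    z3])] (Int.ofNat (nat_lit 699050)) (Int.ofNat (nat_lit 1048576)) (.s (.s (.l k1) (.l k1)) (.l k1)) [],
    .old (.lp [(nat_lit 320),(nat_lit 326),(nat_lit 322),(nat_lit 314),(nat_lit 250),(nat_lit 386)] [k47,k47,k44,k44,k46,
    k46,k44,k56,k0,k164,k14,k14] k0 [[k0,k0,k0,k0,k0,k0,k0,k0,k0,k0,k72,k66],[k0,k0,k0,k6],[k6,k0,k0,k0,k0,k8],[k0,k0,
    k0,k0,k0,k0,k0,k0,k0,k176],[k0,k0,k0,k8,k0,k0,k12],[k0,k0,k0,k0,k0,k0,k2,k0,k0,k0,k0,k64],[k0,k0,k0,k0,k0,k0,k0,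
    k0,k70,k178],[k0,k0,k0,k0,k2,k12],[k0,k0,k176,k0,k0,k0,k0,k178],[k0,k0,k0,k0,k0,k0,k0,k70,k0,k0,k14,k142],[k0,k66,
    k0,k0,k64,k0,k0,k0,k142],[k0,k72,k0,k0,k0,k0,k0,k0,k14]] (nat_lit 960) k6
    [[(k0,(nat_lit 248)),(k7,(nat_lit 311)),(k11,(nat_lit 339)),(k4,(nat_lit 385)),(k3,(nat_lit 389)),(k8,
    (nat_lit 509))],[(k9,(nat_lit 203)),(k1,(nat_lit 248)),(k10,(nat_lit 287)),(k2,(nat_lit 323)),(k6,(nat_lit 323)),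
    (k5,(nat_lit 327))],[(k9,(nat_lit 206)),(k2,(nat_lit 320)),(k5,(nat_lit 324)),(k6,(nat_lit 326)),(k1,
    (nat_lit 389)),(k10,(nat_lit 428))],[(k7,(nat_lit 314)),(k4,(nat_lit 316)),(k3,(nat_lit 320)),(k0,(nat_lit 323)),
    (k8,(nat_lit 370)),(k11,(nat_lit 532))],[(k8,k192),(k7,(nat_lit 320)),(k4,(nat_lit 322)),(k3,(nat_lit 324)),(k0,
    (nat_lit 327)),(k11,(nat_lit 354))],[(k9,k192),(k2,(nat_lit 316)),(k5,(nat_lit 322)),(k6,(nat_lit 326)),(k10,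
    (nat_lit 354)),(k1,(nat_lit 385))],[(k9,k192),(k10,(nat_lit 280)),(k1,(nat_lit 311)),(k2,(nat_lit 314)),(k5,
    (nat_lit 320)),(k6,(nat_lit 326))],[(k8,k192),(k11,(nat_lit 286)),(k0,(nat_lit 323)),(k3,(nat_lit 326)),(k4,
    (nat_lit 326)),(k7,(nat_lit 326))],[(k4,k192),(k7,k192),(k0,(nat_lit 203)),(k3,(nat_lit 206)),(k8,(nat_lit 320)),
    (k11,(nat_lit 414))],[(k5,k192),(k6,k192),(k9,(nat_lit 320)),(k2,(nat_lit 370)),(k10,(nat_lit 414)),(k1,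
    (nat_lit 509))],[(k10,(nat_lit 244)),(k6,(nat_lit 286)),(k1,(nat_lit 339)),(k5,(nat_lit 354)),(k9,(nat_lit 414)),
    (k2,(nat_lit 532))],[(k11,(nat_lit 244)),(k7,(nat_lit 280)),(k0,(nat_lit 287)),(k4,(nat_lit 354)),(k8,
    (nat_lit 414)),(k3,(nat_lit 428))]]
    [] k0
    [[k2,k0,k0,k0,k0,k0],[k3,k0,k0,k0,k0,k0],[k2,k0,k0,k1,k0,k0],[k2,k0,k0,k1,k1,k0],[k2,k0,k0,k0,k0,k1],[k1,k1,k0,k0,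
    k0,k0],[k1,k0,k1,k0,k0,k0],[k1,k0,k1,k0,k1,k0],[k1,k0,k0,k1,k0,k0],[k1,k0,k0,k1,k1,k0],[k1,k0,k0,k1,k0,k1],[k1,k0,
    k0,k0,k1,k0],[k1,k0,k0,k0,k0,k1],[k1,k0,k0,k0,k1,k1],[k1,k0,k0,k0,k0,k2],[k0,k2,k0,k0,k0,k0],[k0,k2,k0,k0,k1,k0],
    [k0,k1,k1,k0,k0,k0],[k0,k1,k1,k0,k1,k0],[k0,k1,k0,k1,k0,k0],[k0,k1,k0,k1,k1,k0],[k0,k1,k0,k0,k1,k0],[k0,k1,k0,k0,
    k2,k0],[k0,k0,k2,k0,k0,k0],[k0,k0,k2,k0,k1,k0],[k0,k0,k1,k1,k0,k0],[k0,k0,k1,k1,k1,k0],[k0,k0,k1,k0,k1,k0],[k0,k0,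
    k2,k0,k2,k0],[k0,k0,k1,k1,k2,k0],[k0,k0,k1,k0,k2,k0],[k0,k0,k1,k0,k0,k1],[k0,k0,k1,k0,k0,k2],[k0,k0,k0,k2,k0,k0],
    [k0,k0,k0,k2,k1,k0],[k0,k0,k0,k2,k0,k1],[k0,k0,k0,k1,k1,k0],[k0,k0,k0,k2,k2,k0],[k0,k0,k0,k2,k1,k1],[k0,k0,k0,k1,
    k2,k0],[k0,k0,k0,k1,k1,k1],[k0,k0,k0,k1,k0,k1],[k0,k0,k0,k1,k0,k2],[k0,k0,k0,k0,k2,k0],[k0,k0,k0,k0,k1,k1],[k0,k0,
    k0,k0,k0,k2],[k0,k0,k0,k0,k0,k3]]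
    [.contra [z1],.ref k0 k0 [(z3,[y2,z3,y1,z0,z3])],.ref (nat_lit 288) k9 [(z1,[y1,y1]),(z1,[z1]),(z1,[z0,z2,z0,z1]),
    (z1,[z0,z0,z1])],.ref k0 k0 [(z3,[y2,z1,y1,z0,z3])],.ref k178 k10 [(z1,[y1,z1,z0,z0,z1])],.contra [y2,z2,z1,z1],
    .contra [y1,z2,z0,z1],.contra [y1,z1,z0,z1],.contra [y1,z1,z0,z1],.contra [z1,z1],.ref (nat_lit 282) k9 [(z1,[y1,
    y1]),(z1,[z1]),(z1,[z0,z2,z0,z1])],.contra [y1,z1,z0,z1],.ref k0 k0 [(z1,[y2,y1,y1,y2,z3])],.ref k1 k2 [(z1,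
    [z1])],.contra [z1,z2,z1,z2,y2],.contra [z1],.ref k178 k0 [(z1,[z1,y1,y1,y1,z1])],.ref k178 k10 [(z1,[z1])],
    .ref (nat_lit 282) k9 [(z1,[z1,y1,z0,z0,y1]),(z1,[y1,z0,z0,z0,z1]),(z1,[z0,z2,z0,z1])],.contra [y2,z0,z1,z1],
    .contra [y2,z0,z1,z1],.contra [y2,z0,z1,z1],.ref k178 k0 [(z2,[z1,y2,y1,y2,z2])],.contra [z1],
    .ref (nat_lit 271) k9 [(z1,[z1,y4,z0,y2]),(z1,[y1,z3,z0,z2]),(z1,[z0,z2,z0,z1])],.contra [y1,z1,z0,z1],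
    .contra [y1,z1,z0,z1],.contra [y1,z1,z0,z1],.ref (nat_lit 274) k9 [(z2,[z1,y4,z0,y2]),(z2,[y1,z2,z0,z2]),(z1,[z0,
    z2,z0,z1])],.contra [y1,z0,z0,z1],.contra [y1,z0,z0,z1],.ref k0 k0 [(z1,[z1])],.contra [z1,z2,z1,z2,y2],
    .contra [z1],.contra [y1,z0,z0,z1],.ref (nat_lit 287) k9 [(z2,[y3,y9,y1,y3,z3]),(z2,[z3,z3,z1,z3,y3]),(z1,[z0,z2,
    z0,z1]),(z1,[z0,z0,z1])],.contra [y2,z0,z1,z1],.contra [z1,z2],.ref (nat_lit 282) k9 [(z1,[y1,y2]),(z1,[z1,z1]),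
    (z1,[z0,z2,z0,z1])],.contra [y1,z0,z0,z1],.ref k0 k0 [(z1,[y2,y3,y1,y2,z3])],.ref (nat_lit 268) k9 [(z1,[y1,y1]),
    (z1,[z1]),(z1,[z0,z2,z0,z1])],.contra [z1,z2,z1,z2,y2],.contra [z1],.ref k178 k0 [(z1,[z1])],.contra [y1,y2,z0,y2,
    z2],.contra [y1,y3,z1,y3,z3]])]

noncomputable def cU6_2_n4_4 : List XN :=
  [.geo true z1 k5 [(y2,z3),(z2,y2),(y2,z4),(z0,z2),(z6,y8),(z0,z1)] [(z1,[z1]),(z1,[z0,z1]),(z1,[z0,z0,z1]),(z1,[z0,z0,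
    z0,z1]),(z1,[y1,y1,y1,y1,z1]),(z1,[])] (Int.ofNat (nat_lit 699050)) (Int.ofNat (nat_lit 786432)) (.l k1) [],
    .geo true z1 k5 [(y2,z2),(z2,y1),(y6,z5),(z4,y3),(z6,y4),(z0,z1)] [(z1,[z1]),(z1,[z0,z1]),(z1,[z0,z0,z1]),(z1,[z0,z0,
    z0,z1]),(z1,[y1,y1,y1,y1,z1]),(z1,[])] (Int.ofNat (nat_lit 1258291)) (Int.ofNat (nat_lit 1398102)) (.l k1) [],
    .old (.lp [(nat_lit 712),(nat_lit 804),(nat_lit 400),(nat_lit 640),(nat_lit 744),(nat_lit 538)] [k177,k177,k131,k131,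
    (nat_lit 360),(nat_lit 306),(nat_lit 213),(nat_lit 213),k0,(nat_lit 322),(nat_lit 264),(nat_lit 264)] k0 [[k0,k0,
    k0,k0,k0,k0,k104,k0,k0,k0,(nat_lit 202)],[k0,k0,k0,(nat_lit 400)],[(nat_lit 400),k0,k0,k0,(nat_lit 268),k0,k0,k0,
    k0,(nat_lit 372)],[k0,k0,k0,k0,k48,k0,k0,k0,k0,(nat_lit 376)],[k0,k0,k0,k0,k0,k0,k0,k0,k0,k0,k102,k58],[k0,k0,k48,
    (nat_lit 268)],[],[k0,k104],[k0,k0,(nat_lit 376),(nat_lit 372)],[k0,k0,k0,k0,k0,k0,k0,k0,k0,k0,k0,k58],[k0,k0,k0,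
    k0,k0,k58,k0,k0,k58],[k0,(nat_lit 202),k0,k0,k0,k102]] (nat_lit 1920) k6
    [[(k4,(nat_lit 427)),(k0,(nat_lit 510)),(k11,(nat_lit 625)),(k7,(nat_lit 734)),(k3,(nat_lit 758)),(k8,
    (nat_lit 947))],[(k9,(nat_lit 463)),(k1,(nat_lit 510)),(k10,(nat_lit 625)),(k6,(nat_lit 676)),(k2,(nat_lit 758)),
    (k5,(nat_lit 983))],[(k2,(nat_lit 404)),(k9,(nat_lit 613)),(k5,(nat_lit 629)),(k1,(nat_lit 758)),(k6,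
    (nat_lit 826)),(k10,(nat_lit 873))],[(k3,(nat_lit 404)),(k7,(nat_lit 454)),(k8,(nat_lit 563)),(k4,(nat_lit 623)),
    (k0,(nat_lit 758)),(k11,(nat_lit 1047))],[(k8,(nat_lit 384)),(k7,(nat_lit 499)),(k3,(nat_lit 629)),(k4,
    (nat_lit 668)),(k11,(nat_lit 868)),(k0,(nat_lit 983))],[(k9,(nat_lit 384)),(k10,(nat_lit 384)),(k1,(nat_lit 427)),
    (k6,(nat_lit 493)),(k2,(nat_lit 623)),(k5,(nat_lit 668))],[(k2,(nat_lit 454)),(k5,(nat_lit 499)),(k9,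
    (nat_lit 531)),(k6,(nat_lit 640)),(k10,(nat_lit 691)),(k1,(nat_lit 734))],[(k4,(nat_lit 493)),(k11,(nat_lit 589)),
    (k7,(nat_lit 640)),(k0,(nat_lit 676)),(k3,(nat_lit 826)),(k8,(nat_lit 853))],[(k4,(nat_lit 384)),(k0,
    (nat_lit 463)),(k11,(nat_lit 480)),(k7,(nat_lit 531)),(k3,(nat_lit 613)),(k8,(nat_lit 744))],[(k5,(nat_lit 384)),
    (k2,(nat_lit 563)),(k9,(nat_lit 744)),(k10,(nat_lit 802)),(k6,(nat_lit 853)),(k1,(nat_lit 947))],[(k9,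
    (nat_lit 480)),(k10,(nat_lit 480)),(k6,(nat_lit 589)),(k1,(nat_lit 625)),(k5,(nat_lit 868)),(k2,(nat_lit 1047))],
    [(k4,(nat_lit 384)),(k11,(nat_lit 480)),(k0,(nat_lit 625)),(k7,(nat_lit 691)),(k8,(nat_lit 802)),(k3,
    (nat_lit 873))]]
    [] k0
    [[k2,k0,k0,k0,k0,k0],[k3,k0,k0,k0,k0,k0],[k2,k0,k1,k0,k1,k0],[k2,k0,k0,k0,k0,k1],[k1,k1,k0,k0,k0,k0],[k1,k1,k0,k1,
    k0,k0],[k1,k1,k0,k0,k1,k0],[k1,k0,k1,k0,k0,k0],[k1,k1,k1,k0,k0,k0],[k1,k0,k1,k1,k0,k0],[k1,k0,k1,k0,k1,k0],[k1,k0,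
    k1,k0,k1,k1],[k1,k0,k0,k1,k0,k0],[k1,k0,k0,k0,k1,k0],[k1,k0,k0,k0,k0,k1],[k1,k0,k0,k0,k1,k1],[k1,k0,k0,k0,k0,k2],
    [k0,k2,k0,k0,k0,k0],[k0,k3,k0,k0,k0,k0],[k0,k4,k0,k0,k0,k0],[k0,k2,k1,k0,k0,k0],[k0,k2,k0,k1,k0,k0],[k0,k2,k0,k0,
    k1,k0],[k0,k1,k1,k0,k0,k0],[k0,k1,k1,k1,k0,k0],[k0,k1,k1,k0,k1,k0],[k0,k1,k0,k1,k0,k0],[k0,k1,k0,k0,k1,k0],[k0,k1,
    k0,k1,k0,k1],[k0,k1,k0,k0,k1,k1],[k0,k0,k2,k0,k0,k0],[k0,k0,k2,k1,k0,k0],[k0,k0,k2,k0,k1,k0],[k0,k0,k2,k0,k1,k1],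
    [k0,k0,k1,k1,k0,k0],[k0,k0,k2,k1,k1,k0],[k0,k0,k1,k2,k0,k0],[k0,k0,k1,k1,k1,k0],[k0,k0,k1,k1,k0,k1],[k0,k0,k1,k0,
    k1,k0],[k0,k0,k2,k0,k2,k0],[k0,k0,k1,k1,k1,k1],[k0,k0,k1,k0,k2,k0],[k0,k0,k1,k0,k1,k1],[k0,k0,k1,k0,k1,k2],[k0,k0,
    k1,k0,k0,k1],[k0,k0,k1,k0,k0,k2],[k0,k0,k0,k2,k0,k0],[k0,k0,k0,k1,k1,k0],[k0,k0,k0,k1,k0,k1],[k0,k0,k0,k1,k0,k2],
    [k0,k0,k0,k0,k2,k0],[k0,k0,k0,k0,k1,k1],[k0,k0,k0,k0,k1,k2],[k0,k0,k0,k0,k0,k2],[k0,k0,k0,k0,k0,k3]]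
    [.contra [z1],.ref k178 k2 [(z2,[z1,y1])],.contra [z1,y1,z1,z1,y1],.ref k0 k3 [(z1,[y1,z1,z0,y1,z1])],.contra [y1,
    z1,z2],.ref (nat_lit 279) k7 [(z1,[z1,z0,y2,y1]),(z1,[z0,z0,z1]),(z1,[y2,z1,z3,z1,z1])],.ref k178 k2 [(z1,[y1,z1,
    z0,y1,z1])],.contra [y1,z0,y1,z0,z1],.ref k0 k0 [(z1,[z1,y1,y1])],.contra [z1,z1,z0,y1],.contra [y1,z0,y1,z0,z1],
    .contra [z1,z0,z2,z1,y1],.contra [y1,z0,y1,z0,z1],.contra [z1,z0,z3,z1,y1],.ref k178 k2 [(z1,[z1])],.contra [z1,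
    z0,z2,z1,y1],.contra [y1,z1,z4],.contra [z1],.ref k178 k2 [(z1,[y1,z1,z3])],.contra [y1,z2,z4],.contra [y1,z0,z2,
    z1],.contra [y1,z0,z2,z1],.ref k178 k2 [(z2,[y1,z1,z1,y1,z1])],.contra [y1,z0,z2,z1],.contra [y1,z0,z2,z1],
    .ref (nat_lit 291) k2 [(z1,[z0,z1]),(z1,[z0,z0,z1]),(z1,[z1,z1,z0,z1,y1]),(z1,[y1,y1,z0,z0,z1])],.contra [y1,z0,
    z2,z1],.ref k0 k3 [(z1,[z1])],.contra [z1,z0,y1],.contra [y1,z1,z0,y1,z1],.contra [z1],.contra [y1,y1,y1,z1,z1],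
    .contra [y1,y1,y1,z1,z1],.ref (nat_lit 290) k1 [(z1,[z2,z2,z2,y1,y2]),(z1,[y1,y1,z0,z1,z1]),(z1,[z2,z3,z2,y2,y2]),
    (z1,[z1,z1,z1,y1,y1])],.contra [y1,z0,z2,z1],.contra [y1,y1,y1,z1,z1],.contra [y1,y1,y1,z1,z1],.contra [z1,z1,z3,
    z0,y1],.ref k178 k2 [(z1,[z1,z1,z0,y1])],.contra [y1,z0,y1,z0,z1],.ref (nat_lit 274) k10 [(z2,[z1,y2,z2,z2,y2]),
    (z2,[y1,z0,y2,z0,z2]),(z1,[z0,z1,y1,y1,z1])],.contra [z1,z1,z2,z0,y1],.ref (nat_lit 271) k10 [(z1,[z1,y2,z2,z2,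
    y2]),(z1,[y1,z1,y2,y1,z2]),(z1,[z0,z1,y1,y1,z1])],.ref (nat_lit 279) k7 [(z1,[y1,z0,y2,y1,z1]),(z1,[z0,z0,z1]),
    (z1,[z2,z1,z3,z1,y1])],.contra [z1,z1,z3,z1,y1],.ref k0 k0 [(z1,[z1])],.contra [z1,z1],.contra [z1],.contra [y1,
    z0,y1,z0,z1],.ref (nat_lit 279) k7 [(z1,[z1,z1,y1,y1]),(z1,[z0,z0,z1]),(z1,[y2,y1,z1,z1,z1])],.contra [z1,z1],
    .contra [z1],.ref k178 k2 [(z1,[y1,z0,y1,y1,z1])],.contra [z1,z1,z3,z1,y1],.contra [y1,z0,z2],.contra [z1,z2,z1]]),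
    .old (.lp [(nat_lit 240),(nat_lit 330),(nat_lit 384),(nat_lit 324),(nat_lit 320),(nat_lit 320)] [k16,k128,k27,k27,k0,
    k0,k30,k30,k64,k0,k32,k32] k0 [[k0,k0,k0,k0,k0,k0,k176,k0,k0,k0,k0,k144],[k0,k0,k0,k84,k0,k0,k12,k0,k0,k0,k0,k12],
    [k84,k0,k0,k0,k0,k0,k0,k0,k0,k2],[k0,k0,k0,k0,k0,k130,k0,k0,k0,k2],[k0,k0,k130],[k0,k0,k0,k0,k0,k0,k0,k4],[k0,k0,
    k0,k0,k4,k0,k0,k0,k4],[k12,k176],[k0,k0,k2,k2],[k0,k0,k0,k0,k0,k0,k0,k4],[k12,k144]] (nat_lit 960) k6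
    [[(k8,k192),(k11,(nat_lit 224)),(k7,(nat_lit 226)),(k0,(nat_lit 252)),(k4,(nat_lit 256)),(k3,(nat_lit 373))],[(k9,
    k192),(k10,k192),(k1,(nat_lit 252)),(k2,(nat_lit 341)),(k6,(nat_lit 350)),(k5,(nat_lit 452))],[(k2,(nat_lit 246)),
    (k10,(nat_lit 313)),(k9,(nat_lit 345)),(k5,(nat_lit 357)),(k1,(nat_lit 373)),(k6,(nat_lit 503))],[(k3,
    (nat_lit 246)),(k8,(nat_lit 291)),(k11,(nat_lit 327)),(k0,(nat_lit 341)),(k4,(nat_lit 357)),(k7,(nat_lit 457))],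
    [(k4,(nat_lit 254)),(k8,(nat_lit 318)),(k7,(nat_lit 354)),(k11,(nat_lit 354)),(k3,(nat_lit 357)),(k0,
    (nat_lit 452))],[(k5,(nat_lit 254)),(k1,(nat_lit 256)),(k10,(nat_lit 352)),(k6,(nat_lit 354)),(k2,(nat_lit 357)),
    (k9,(nat_lit 388))],[(k1,(nat_lit 226)),(k6,(nat_lit 320)),(k10,(nat_lit 322)),(k5,(nat_lit 354)),(k9,
    (nat_lit 354)),(k2,(nat_lit 457))],[(k8,(nat_lit 290)),(k11,(nat_lit 318)),(k7,(nat_lit 320)),(k0,(nat_lit 350)),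
    (k4,(nat_lit 354)),(k3,(nat_lit 503))],[(k0,k192),(k8,(nat_lit 324)),(k3,(nat_lit 345)),(k11,(nat_lit 352)),(k7,
    (nat_lit 354)),(k4,(nat_lit 388))],[(k1,k192),(k10,(nat_lit 288)),(k6,(nat_lit 290)),(k2,(nat_lit 291)),(k5,
    (nat_lit 318)),(k9,(nat_lit 324))],[(k1,(nat_lit 224)),(k6,(nat_lit 318)),(k10,(nat_lit 320)),(k2,(nat_lit 327)),
    (k9,(nat_lit 352)),(k5,(nat_lit 354))],[(k0,k192),(k8,(nat_lit 288)),(k3,(nat_lit 313)),(k11,(nat_lit 320)),(k7,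
    (nat_lit 322)),(k4,(nat_lit 352))]]
    [] k0
    [[k2,k0,k0,k0,k0,k0],[k3,k0,k0,k0,k0,k0],[k3,k0,k0,k0,k1,k0],[k3,k0,k0,k0,k0,k1],[k2,k0,k0,k1,k0,k0],[k2,k0,k0,k0,
    k1,k0],[k2,k0,k0,k0,k0,k1],[k2,k0,k0,k0,k1,k1],[k1,k1,k0,k0,k0,k0],[k1,k1,k0,k0,k1,k0],[k1,k1,k0,k0,k0,k1],[k1,k0,
    k1,k0,k0,k0],[k1,k1,k1,k0,k0,k0],[k1,k0,k1,k0,k1,k0],[k1,k0,k1,k0,k0,k1],[k1,k0,k0,k1,k0,k0],[k1,k0,k0,k2,k0,k0],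
    [k1,k0,k0,k1,k1,k0],[k1,k0,k0,k1,k0,k1],[k1,k0,k0,k0,k1,k0],[k2,k0,k0,k0,k2,k0],[k1,k0,k0,k0,k2,k0],[k1,k0,k0,k0,
    k1,k1],[k1,k0,k0,k0,k0,k1],[k2,k0,k0,k0,k0,k2],[k1,k0,k0,k0,k0,k2],[k0,k2,k0,k0,k0,k0],[k0,k3,k0,k0,k0,k0],[k0,k2,
    k0,k0,k1,k0],[k0,k2,k0,k0,k0,k1],[k0,k1,k1,k0,k0,k0],[k0,k1,k0,k0,k1,k0],[k0,k1,k0,k0,k0,k1],[k0,k1,k0,k0,k1,k1],
    [k0,k0,k2,k0,k0,k0],[k0,k0,k3,k0,k0,k0],[k0,k0,k1,k1,k0,k0],[k0,k0,k1,k0,k1,k0],[k0,k0,k1,k0,k0,k1],[k0,k0,k0,k2,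
    k0,k0],[k0,k0,k0,k1,k1,k0],[k0,k0,k0,k1,k0,k1],[k0,k0,k0,k0,k2,k0],[k0,k0,k0,k0,k1,k1],[k0,k0,k0,k0,k0,k2]]
    [.contra [z1],.contra [y1,z1],.ref (nat_lit 274) k3 [(z6,[z3,y4,y3,y5,z3]),(z6,[y3,z2,y3,z1,z3]),(z3,[z0,z1,z0,
    z2])],.contra [y1,z1],.ref (nat_lit 282) k7 [(z3,[z3,y1,y3,y2]),(z3,[y3,z2,z3,z1]),(z3,[z0,y1,y3,z1,z3])],
    .contra [y3,z1,y3,y1,z3],.contra [y3,z2,z0,z1],.contra [y3,z1,y3,y1,z3],.ref k0 k3 [(z3,[z3,y2,y3,y1,z3])],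
    .ref (nat_lit 282) k3 [(z3,[z3,y1,y3,y2]),(z1,[y1,z0,z0,z0,z1]),(z3,[z0,z1,z0,z2])],.ref k1 k3 [(z1,[y1,z0,z0,z0,
    z1])],.contra [y3,z1,z0,z2],.ref k1 k0 [(z1,[y1,z0,z0,z0,z1])],.contra [y1,z0,y1,z0,z1],.contra [z3,y1,z0,z1],
    .ref k0 k2 [(z1,[z1])],.ref k1 k3 [(z2,[z1,y1,y2,z0,z2])],.ref (nat_lit 282) k7 [(z3,[z3,z1,z0,y1,y3]),(z1,[y1,z0,
    z0,z0,z1]),(z3,[z0,y1,y3,z1,z3])],.ref k1 k0 [(z3,[z3,y2,y3,y1,z3])],.contra [z3,z2,z3,z1,y3],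
    .ref (nat_lit 274) k3 [(z6,[z3,y2,z0,y4]),(z2,[y1,z0,y2,z0,z2]),(z3,[z0,z1,z0,z2])],.contra [y3,y1,y6,y2,z6],
    .contra [y1,z0,y1,z0,z1],.contra [y3,z2,z0,z1],.contra [z3,y2,z0,z2],.contra [z3,y1,z0,z4],.contra [z1],
    .ref (nat_lit 289) k1 [(z3,[z0,z1,z3,z2,y3]),(z1,[z1]),(z3,[z0,y1,y6,y2,z6])],.ref k1 k0 [(z2,[y1,y1,y1,y1,z3])],
    .ref (nat_lit 286) k0 [(z1,[z1,z0,y2]),(z3,[y6,y1,z6,y2,z6]),(z1,[z0,z0,z1])],.ref k1 k3 [(z3,[y3,y1,z0,z1,z3])],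
    .ref k0 k3 [(z1,[z1])],.ref (nat_lit 268) k7 [(z3,[y3,z1,z0,y1]),(z1,[z1]),(z3,[z0,y1,y3,z1,z3])],.ref k1 k3 [(z3,
    [y3,y2,y3,y1,z6])],.contra [z1],.contra [z1,z0,z0,y1],.ref k1 k0 [(z3,[z3,y1,y3,y2,z3])],.contra [y3,y1,y3,z1,z3],
    .contra [z1,z0,z0,z1],.contra [y1,z0,z2],.ref k0 k2 [(z3,[z3,z2,z3,z1,y3])],.ref (nat_lit 268) k3 [(z3,[y3,y1,y3,
    y2,z3]),(z1,[z1]),(z3,[z0,z1,z0,z2])],.contra [z3,z4,z6,z2,y6],.contra [y1,z0,y1,z0,z1],.contra [z1,z0,z0,z2]]),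
    .geo true z1 k5 [(y2,z4),(y2,z3),(z2,y2),(z2,y2),(z4,y4),(z0,z1)] [(z1,[z1]),(z1,[z0,z1]),(z1,[z0,z0,z1]),(z1,[z0,z0,
    z0,z1]),(z1,[y1,y1,y1,y1,z1]),(z1,
    [])] (Int.ofNat (nat_lit 699050)) (Int.ofNat (nat_lit 1048576)) (.s (.l k1) (.s (.l k1) (.l k2))) [⟨z1,z1,[[k0,
    k2],[k1,k4],[k3,k5]],.bnd k0⟩]]

/-- the nodes with numbers from 242 -/
noncomputable def cU6_2_n4 : List XN :=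
  cU6_2_n4_0 ++ (cU6_2_n4_1 ++ (cU6_2_n4_2 ++ (cU6_2_n4_3 ++ cU6_2_n4_4)))

theorem cU6_2_k4 : allI (chkX 6 cU6_2_w ttU6 cU6_2_s (blkF [] cU6_2_D)) cU6_2_n4 242 = true := by
  decide +kernel

end Pool.Agent.Lib_MP_fa6e45
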