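import Pool.Agent.Lib_MP_fa6e45.CY6_1d

/-!
MP_fa6e45_co, stage 7: certificates (generated by a program).
-/

namespace Pool.Agent.Lib_MP_fa6e45

noncomputable def cU6_2_n5_0 : List XN :=
  [.old (.lp [k160,k136,k145,k168,k166,k184] [k104,k0,k64,k64,k56,k63,k48,k48,k49,k49,k40,k40] k0 [[k0,k0,k1,k0,k0,k0,k0,
    k8],[k0,k0,k0,k0,k0,k0,k0,k4],[k0,k0,k0,k0,k39,k41],[k0,k1,k0,k0,k0,k0,k0,k0,k33,k23],[k0,k0,k0,k41,k0,k0,k0,k0,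
    k0,k0,k112],[k0,k0,k0,k39,k0,k0,k0,k42],[k4,k8,k0,k0,k42],[k0,k0,k0,k0,k0,k0,k0,k0,k20,k16],[k0,k0,k23,k0,k0,k0,
    k16],[k0,k0,k33,k0,k0,k0,k20],[],[k0,k0,k0,k0,k0,k112]] (nat_lit 480) k6
    [[(k4,k96),(k0,k160),(k3,(nat_lit 200)),(k8,(nat_lit 215)),(k7,(nat_lit 216)),(k11,(nat_lit 224))],[(k2,k96),(k5,
    k96),(k6,k104),(k9,k115),(k10,k120),(k1,k160)],[(k2,k137),(k5,k137),(k6,k148),(k9,k159),(k10,k160),(k1,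
    (nat_lit 200))],[(k0,k96),(k4,k103),(k7,k113),(k3,k137),(k11,k183),(k8,k184)],[(k0,k96),(k11,k128),(k8,k129),(k3,
    k137),(k4,k184),(k7,k194)],[(k1,k96),(k2,k103),(k6,k160),(k10,k168),(k5,k184),(k9,(nat_lit 201))],[(k2,k113),(k6,
    k126),(k9,k167),(k5,k194),(k1,(nat_lit 216)),(k10,(nat_lit 288))],[(k0,k104),(k7,k126),(k3,k148),(k4,k160),(k8,
    k187),(k11,k192)],[(k0,k115),(k8,k150),(k11,k155),(k3,k159),(k7,k167),(k4,(nat_lit 201))],[(k5,k129),(k9,k150),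
    (k10,k175),(k2,k184),(k6,k187),(k1,(nat_lit 215))],[(k5,k128),(k9,k155),(k2,k183),(k10,k184),(k6,k192),(k1,
    (nat_lit 224))],[(k0,k120),(k3,k160),(k4,k168),(k8,k175),(k11,k184),(k7,(nat_lit 288))]]
    [] k0
    [[k2,k0,k0,k0,k0,k0],[k2,k1,k0,k0,k0,k0],[k2,k0,k1,k0,k0,k0],[k1,k1,k0,k0,k0,k0],[k1,k2,k0,k0,k0,k0],[k1,k1,k1,k0,
    k0,k0],[k1,k1,k0,k1,k0,k0],[k1,k0,k1,k0,k0,k0],[k2,k0,k2,k0,k0,k0],[k1,k2,k1,k0,k0,k0],[k1,k1,k2,k0,k0,k0],[k1,k1,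
    k1,k1,k0,k0],[k1,k0,k2,k0,k0,k0],[k1,k0,k1,k1,k0,k0],[k1,k0,k1,k0,k1,k0],[k1,k0,k1,k0,k0,k1],[k1,k0,k0,k1,k0,k0],
    [k1,k0,k0,k2,k0,k0],[k1,k0,k0,k0,k1,k0],[k1,k1,k0,k0,k1,k0],[k1,k0,k0,k0,k0,k1],[k0,k2,k0,k0,k0,k0],[k0,k3,k0,k0,
    k0,k0],[k0,k2,k1,k0,k0,k0],[k0,k2,k0,k1,k0,k0],[k0,k1,k1,k0,k0,k0],[k0,k1,k2,k0,k0,k0],[k0,k1,k1,k1,k0,k0],[k0,k1,
    k0,k1,k0,k0],[k0,k1,k0,k2,k0,k0],[k0,k1,k0,k0,k1,k0],[k0,k1,k1,k0,k1,k0],[k0,k1,k0,k1,k1,k0],[k0,k1,k0,k0,k0,k1],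
    [k0,k1,k1,k0,k0,k1],[k0,k1,k0,k1,k0,k1],[k0,k0,k2,k0,k0,k0],[k0,k0,k1,k1,k0,k0],[k0,k0,k1,k0,k1,k0],[k0,k0,k1,k1,
    k1,k0],[k0,k0,k1,k0,k1,k1],[k0,k0,k1,k0,k0,k1],[k0,k0,k0,k2,k0,k0],[k0,k0,k0,k3,k0,k0],[k0,k0,k0,k1,k1,k0],[k0,k0,
    k0,k0,k2,k0],[k0,k0,k0,k0,k3,k0],[k0,k0,k0,k0,k1,k1],[k0,k0,k0,k0,k0,k2]]
    [.contra [z1],.contra [z3,y2,y3],.contra [z3,y2,z0,y3],.contra [y1,z2,z3],.contra [y1,z2,z3],.contra [y1,z2,z2,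
    z1],.ref k178 k3 [(z1,[z1,y1,y1])],.contra [y1,z2,z2,z1],.contra [z3,y4,z0,y6],.contra [y1,z2,z2,z1],.contra [y1,
    z2,z1,z2],.ref k1 k3 [(z1,[z1,y1,y1])],.contra [y1,z2,z1,z2],.ref k178 k3 [(z1,[z1,y1,z0,y1])],.contra [z3,y1,z0,
    y3],.ref k1 k3 [(z1,[y1,z0,y1,z1,z1])],.ref k0 k2 [(z1,[z1])],.ref (nat_lit 284) k9 [(z1,[z1,z1,z1,z2,y2]),(z1,
    [z0,y1,y1,y1,z1]),(z1,[y2,y2,y2,y3,z4])],.contra [z3,z1],.contra [z3,y1,y3],.ref k178 k2 [(z1,[z1])],.contra [z1],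
    .contra [y1,z2,z3],.contra [y1,z2,z2,z1],.ref k1 k2 [(z1,[y1,z0,z1,y1,z1])],.contra [z1,z0,z1,y1],.contra [y1,z2,
    z1,z2],.ref k1 k2 [(z1,[y1,z0,z0,z0,z1])],.ref k178 k4 [(z1,[z1,z0,y1,z1])],.ref k1 k3 [(z2,[z1,z0,y1,z2])],
    .contra [y1,z1,z2],.contra [y1,z1,z1,z1],.ref k1 k3 [(z1,[z1,z0,y1,z1])],.ref k0 k0 [(z1,[z1,z0,y1,z1])],
    .ref (nat_lit 294) k0 [(z1,[z1,z0,y1,y1]),(z1,[z0,z1]),(z1,[z0,z0,z1]),(z1,[z0,z0,z0,z1])],.contra [y3,y1,z0,y3,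
    z3],.contra [z1,z0,z2,y2],.ref k178 k4 [(z1,[z1])],.contra [y1,z1,z1,z1],.ref k1 k3 [(z1,[z1])],.ref k178 k3 [(z1,
    [y1,y1,y1,z0,z1])],.ref k0 k0 [(z1,[z1])],.contra [z1],.ref (nat_lit 289) k9 [(z1,[z0,y1,y1]),(z1,[z1]),(z1,[z0,
    z2,z2,z1])],.ref k178 k3 [(z1,[z1])],.contra [z3,z2],.contra [z1,z1],.ref k1 k3 [(z1,[y1,y1,y1,z0,z1])],
    .contra [y1,y2,y2,y2,z2]]),
    .old (.lp [(nat_lit 1270),(nat_lit 1286),(nat_lit 1280),(nat_lit 1266),(nat_lit 1280),(nat_lit 1294)] [(nat_lit 472),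
    (nat_lit 472),(nat_lit 464),(nat_lit 464),(nat_lit 474),(nat_lit 460),(nat_lit 474),(nat_lit 474),k0,
    (nat_lit 934),(nat_lit 460),(nat_lit 460)] k0 [[k0,k0,k0,k0,k0,k0,k0,k0,k0,k0,(nat_lit 274),(nat_lit 274)],[k0,k0,
    k18,(nat_lit 294)],[(nat_lit 294),k0,k0,k0,k12],[k18,k0,k0,k0,k0,k0,k0,k0,k0,(nat_lit 986)],[k0,k0,k0,k0,k0,k0,
    k38],[k0,k0,k0,k12,k0,k0,k2],[k0,k0,k0,k0,k0,k0,k0,k0,k0,(nat_lit 972)],[k0,k0,k0,k0,k2,k38],[k0,k0,(nat_lit 986),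
    k0,k0,k0,k0,(nat_lit 972)],[k0,k0,k0,k0,k0,k0,k0,k0,k0,k0,(nat_lit 294),k10],[k0,(nat_lit 274),k0,k0,k0,k0,k0,k0,
    k10],[k0,(nat_lit 274),k0,k0,k0,k0,k0,k0,(nat_lit 294)]] (nat_lit 3840) k6
    [[(k11,(nat_lit 988)),(k0,(nat_lit 996)),(k4,(nat_lit 1268)),(k7,(nat_lit 1268)),(k3,(nat_lit 1552)),(k8,
    (nat_lit 1752))],[(k9,(nat_lit 808)),(k1,(nat_lit 996)),(k10,(nat_lit 1008)),(k6,(nat_lit 1268)),(k2,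
    (nat_lit 1296)),(k5,(nat_lit 1576))],[(k9,(nat_lit 816)),(k2,(nat_lit 992)),(k5,(nat_lit 1272)),(k6,
    (nat_lit 1276)),(k1,(nat_lit 1552)),(k10,(nat_lit 1564))],[(k3,(nat_lit 992)),(k7,(nat_lit 1264)),(k4,
    (nat_lit 1276)),(k0,(nat_lit 1296)),(k8,(nat_lit 1750)),(k11,(nat_lit 2276))],[(k8,(nat_lit 768)),(k3,
    (nat_lit 1272)),(k7,(nat_lit 1280)),(k4,(nat_lit 1292)),(k11,(nat_lit 1294)),(k0,(nat_lit 1576))],[(k9,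
    (nat_lit 768)),(k1,(nat_lit 1268)),(k6,(nat_lit 1268)),(k2,(nat_lit 1276)),(k10,(nat_lit 1280)),(k5,
    (nat_lit 1292))],[(k9,(nat_lit 804)),(k2,(nat_lit 1264)),(k1,(nat_lit 1268)),(k5,(nat_lit 1280)),(k10,
    (nat_lit 1280)),(k6,(nat_lit 1304))],[(k8,(nat_lit 768)),(k0,(nat_lit 1268)),(k4,(nat_lit 1268)),(k3,
    (nat_lit 1276)),(k11,(nat_lit 1280)),(k7,(nat_lit 1304))],[(k4,(nat_lit 768)),(k7,(nat_lit 804)),(k0,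
    (nat_lit 808)),(k3,(nat_lit 816)),(k8,(nat_lit 1280)),(k11,(nat_lit 1792))],[(k5,(nat_lit 768)),(k6,
    (nat_lit 768)),(k9,(nat_lit 1280)),(k2,(nat_lit 1750)),(k1,(nat_lit 1752)),(k10,(nat_lit 2048))],[(k1,
    (nat_lit 988)),(k6,(nat_lit 1280)),(k10,(nat_lit 1284)),(k5,(nat_lit 1294)),(k9,(nat_lit 1792)),(k2,
    (nat_lit 2276))],[(k0,(nat_lit 1008)),(k4,(nat_lit 1280)),(k7,(nat_lit 1280)),(k11,(nat_lit 1284)),(k3,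
    (nat_lit 1564)),(k8,(nat_lit 2048))]]
    [] k0
    [[k2,k0,k0,k0,k0,k0],[k3,k0,k0,k0,k0,k0],[k2,k0,k0,k1,k0,k0],[k2,k0,k0,k0,k1,k0],[k2,k0,k0,k0,k0,k1],[k1,k1,k0,k0,
    k0,k0],[k1,k0,k1,k0,k0,k0],[k1,k1,k1,k0,k0,k0],[k1,k0,k1,k1,k0,k0],[k1,k0,k1,k0,k1,k0],[k1,k0,k1,k0,k0,k1],[k1,k0,
    k0,k1,k0,k0],[k1,k0,k0,k1,k1,k0],[k1,k0,k0,k1,k0,k1],[k1,k0,k0,k0,k1,k0],[k1,k0,k0,k0,k0,k1],[k1,k0,k0,k0,k0,k2],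
    [k0,k2,k0,k0,k0,k0],[k0,k3,k0,k0,k0,k0],[k0,k2,k1,k0,k0,k0],[k0,k2,k0,k1,k0,k0],[k0,k2,k0,k0,k1,k0],[k0,k1,k1,k0,
    k0,k0],[k0,k1,k1,k1,k0,k0],[k0,k1,k1,k0,k1,k0],[k0,k1,k0,k1,k0,k0],[k0,k1,k0,k1,k1,k0],[k0,k1,k0,k0,k1,k0],[k0,k0,
    k2,k0,k0,k0],[k0,k0,k2,k0,k1,k0],[k0,k0,k1,k1,k0,k0],[k0,k0,k1,k1,k1,k0],[k0,k0,k1,k0,k1,k0],[k0,k0,k2,k0,k2,k0],
    [k0,k0,k1,k1,k2,k0],[k0,k0,k1,k0,k2,k0],[k0,k0,k1,k0,k0,k1],[k0,k0,k0,k2,k0,k0],[k0,k0,k0,k2,k1,k0],[k0,k0,k0,k1,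
    k1,k0],[k0,k0,k0,k2,k2,k0],[k0,k0,k0,k1,k2,k0],[k0,k0,k0,k1,k0,k1],[k0,k0,k0,k0,k2,k0],[k0,k0,k0,k0,k0,k2]]
    [.contra [z1],.ref (nat_lit 217) k2 [(z1,[z1]),(z1,[z0,z0,z1])],.ref (nat_lit 295) k9 [(z1,[y1,y1]),(z1,[z1]),(z1,
    [z0,z1,y1,z1])],.ref (nat_lit 293) k3 [(z1,[z1,y2]),(z1,[z0,z0,z1]),(z1,[z1,z1])],.ref k178 k10 [(z1,[y1,z1,z0,
    z1])],.ref k178 k8 [(z1,[z1])],.contra [y1,z1,y1,z1],.ref k1 k0 [(z1,[y1,z0,z0,z1])],.contra [y1,z0,y1,z1],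
    .contra [y1,z0,y1,z1],.ref k178 k8 [(z1,[y1,z1,z0,z1])],.contra [y1,z0,y1,z1],.contra [z1,z1],
    .ref (nat_lit 282) k9 [(z1,[y1,y1]),(z1,[z1]),(z1,[z0,z1,y1,z1])],.contra [y1,z0,y1,z1],.ref k1 k0 [(z1,[z1,y1])],
    .ref (nat_lit 292) k7 [(z1,[z1,z0,y2]),(z1,[z0,z0,z1]),(z1,[z1,y1,y2])],.contra [z1],.ref (nat_lit 289) k2 [(z1,
    [z0,z1]),(z1,[z1]),(z1,[z0,y1,y1,z1])],.ref k1 k0 [(z2,[y1,y1,z1,z1])],.ref (nat_lit 286) k5 [(z1,[z1,z0,y2]),(z1,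
    [y2,y1,z3,z1]),(z1,[z0,z0,z1])],.ref (nat_lit 284) k2 [(z1,[z1,z1,y2]),(z1,[z0,z0,z1]),(z1,[y2,y1,z3,z1])],
    .ref k178 k10 [(z1,[z1])],.ref k1 k2 [(z1,[y1,z0,z0,z1])],.ref (nat_lit 282) k9 [(z1,[z1,y1,z0,y1]),(z1,[y1,z0,z0,
    z1]),(z1,[z0,z1,y1,z1])],.ref (nat_lit 279) k2 [(z1,[z1,z1,y1]),(z1,[z0,z0,z1]),(z1,[y2,y1,z1,z1])],
    .ref k178 k8 [(z1,[z1,z1])],.ref k0 k3 [(z1,[z1])],.contra [z1],.ref (nat_lit 271) k9 [(z1,[z1,y2,z2,y2]),(z1,[y1,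
    z1,y2,z2]),(z1,[z0,z1,y1,z1])],.contra [y1,z0,y1,z1],.contra [y1,z0,y1,z1],.contra [y1,z0,y1,z1],
    .ref (nat_lit 274) k9 [(z2,[z1,y2,z2,y2]),(z2,[y1,z0,y2,z2]),(z1,[z0,z1,y1,z1])],.contra [y1,y1,y1,z1],
    .contra [y1,y1,y1,z1],.ref k0 k0 [(z1,[z1])],.contra [z1],.contra [y1,y1,y1,z1],.contra [y1,z0,y1,z1],.contra [z1,
    z2],.contra [y1,y1,y1,z1],.ref (nat_lit 268) k9 [(z1,[y1,y1]),(z1,[z1]),(z1,[z0,z1,y1,z1])],.contra [z1],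
    .contra [y1,z0,z2]]),
    .geo true z1 k5 [(y2,z5),(y2,z4),(z2,y2),(z2,y3),(z4,y5),(z0,z1)] [(z1,[z1]),(z1,[z0,z1]),(z1,[z0,z0,z1]),(z1,[z0,z0,
    z0,z1]),(z1,[y1,y1,y1,y1,z1]),(z1,
    [])] (Int.ofNat (nat_lit 524288)) (Int.ofNat (nat_lit 699051)) (.s (.l k1) (.l k1)) [],
    .old (.lp [(nat_lit 478),(nat_lit 670),(nat_lit 580),(nat_lit 724),(nat_lit 672),(nat_lit 714)] [(nat_lit 233),k13,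
    k27,k27,k37,k107,k0,k0,k26,k26,k5,k5] k0 [[k0,k0,k0,k0,k0,k0,k0,k0,k0,k0,k0,k102],[k0,k0,k0,k0,k0,k0,k0,k0,k0,k0,
    k0,(nat_lit 240)],[k0,k0,k0,k0,k144],[k0,k0,k0,k0,k0,k0,k0,k0,k98],[k0,k0,k0,k0,k0,k0,k0,k108,k0,k0,
    (nat_lit 290)],[k0,k0,k0,k144],[k0,k0,k0,k0,k0,k108],[k0,k0,k0,k0,k0,k0,k0,k0,k46,k192],[k0,k0,k0,k0,k0,k0,k192,
    k0,k0,k0,k62,k112],[k0,k0,k98,k0,k0,k0,k46],[(nat_lit 240),k102,k0,k0,k0,k0,k0,k0,k0,k112],[k0,k0,k0,k0,k0,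
    (nat_lit 290),k0,k0,k0,k62]] (nat_lit 1920) k6
    [[(k4,(nat_lit 384)),(k8,(nat_lit 623)),(k7,(nat_lit 711)),(k0,(nat_lit 718)),(k3,(nat_lit 786)),(k11,
    (nat_lit 818))],[(k5,(nat_lit 384)),(k10,(nat_lit 384)),(k2,(nat_lit 464)),(k9,(nat_lit 465)),(k6,(nat_lit 491)),
    (k1,(nat_lit 718))],[(k10,(nat_lit 452)),(k5,(nat_lit 590)),(k2,(nat_lit 670)),(k9,(nat_lit 671)),(k6,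
    (nat_lit 697)),(k1,(nat_lit 786))],[(k0,(nat_lit 464)),(k7,(nat_lit 553)),(k4,(nat_lit 660)),(k3,(nat_lit 670)),
    (k11,(nat_lit 692)),(k8,(nat_lit 769))],[(k0,(nat_lit 384)),(k11,(nat_lit 514)),(k3,(nat_lit 590)),(k8,
    (nat_lit 591)),(k7,(nat_lit 617)),(k4,(nat_lit 724))],[(k1,(nat_lit 384)),(k6,(nat_lit 579)),(k2,(nat_lit 660)),
    (k9,(nat_lit 661)),(k10,(nat_lit 682)),(k5,(nat_lit 724))],[(k2,(nat_lit 553)),(k5,(nat_lit 617)),(k1,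
    (nat_lit 711)),(k6,(nat_lit 724)),(k9,(nat_lit 806)),(k10,(nat_lit 1009))],[(k0,(nat_lit 491)),(k4,(nat_lit 579)),
    (k3,(nat_lit 697)),(k7,(nat_lit 724)),(k8,(nat_lit 744)),(k11,(nat_lit 911))],[(k0,(nat_lit 465)),(k8,
    (nat_lit 480)),(k11,(nat_lit 647)),(k4,(nat_lit 661)),(k3,(nat_lit 671)),(k7,(nat_lit 806))],[(k9,(nat_lit 480)),
    (k10,(nat_lit 581)),(k5,(nat_lit 591)),(k1,(nat_lit 623)),(k6,(nat_lit 744)),(k2,(nat_lit 769))],[(k5,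
    (nat_lit 514)),(k9,(nat_lit 647)),(k2,(nat_lit 692)),(k10,(nat_lit 776)),(k1,(nat_lit 818)),(k6,(nat_lit 911))],
    [(k0,(nat_lit 384)),(k3,(nat_lit 452)),(k8,(nat_lit 581)),(k4,(nat_lit 682)),(k11,(nat_lit 776)),(k7,
    (nat_lit 1009))]]
    [] k0
    [[k2,k0,k0,k0,k0,k0],[k2,k0,k1,k0,k0,k0],[k2,k0,k0,k0,k1,k0],[k1,k1,k0,k0,k0,k0],[k1,k1,k1,k0,k0,k0],[k1,k1,k0,k1,
    k0,k0],[k1,k1,k0,k0,k0,k1],[k1,k0,k1,k0,k0,k0],[k2,k0,k2,k0,k0,k0],[k2,k0,k1,k0,k1,k0],[k1,k0,k2,k0,k0,k0],[k1,k0,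
    k1,k1,k0,k0],[k1,k0,k1,k0,k1,k0],[k1,k0,k1,k0,k0,k1],[k1,k1,k1,k0,k0,k1],[k1,k0,k0,k1,k0,k0],[k1,k0,k0,k0,k1,k0],
    [k1,k1,k0,k0,k1,k0],[k1,k0,k0,k0,k2,k0],[k1,k0,k0,k0,k1,k1],[k1,k0,k0,k0,k0,k1],[k0,k2,k0,k0,k0,k0],[k0,k2,k0,k0,
    k0,k1],[k0,k1,k1,k0,k0,k0],[k0,k1,k1,k1,k0,k0],[k0,k1,k0,k1,k0,k0],[k0,k1,k0,k0,k1,k0],[k0,k1,k0,k0,k0,k1],[k0,k1,
    k1,k0,k0,k1],[k0,k1,k0,k1,k0,k1],[k0,k1,k0,k0,k1,k1],[k0,k0,k2,k0,k0,k0],[k0,k0,k1,k1,k0,k0],[k0,k0,k1,k0,k1,k0],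
    [k0,k0,k1,k0,k2,k0],[k0,k0,k1,k0,k0,k1],[k0,k0,k1,k0,k1,k1],[k0,k0,k0,k2,k0,k0],[k0,k0,k0,k1,k1,k0],[k0,k0,k0,k0,
    k2,k0],[k0,k0,k0,k0,k3,k0],[k0,k0,k0,k0,k2,k1],[k0,k0,k0,k0,k1,k1],[k0,k0,k0,k0,k0,k2]]
    [.contra [z1],.contra [y1,z2,z1,z2],.contra [y1,z2,z0,z3],.contra [z1,y1,y1],.contra [y2,z3,z3,z2],
    .ref (nat_lit 252) k4 [(z1,[z1,y3,y3,y2]),(z1,[z0,z1,z1,z1])],.ref k1 k3 [(z1,[y1,z0,z0,z0,z1])],.contra [y2,z3,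
    z3,z2],.contra [z1,y2,z0,y2],.contra [y1,z2,z0,z3],.contra [y1,z2,z1,z2],.ref k178 k3 [(z1,[z1,y1,z0,y1])],
    .contra [z1,y1,z0,y1],.ref k178 k0 [(z1,[z1,y1,z0,y1])],.ref k178 k3 [(z1,[y1,z0,z0,z0,z1])],.ref k0 k2 [(z1,
    [z1])],.contra [y1,z1,z1,z1],.contra [y1,z1,z1,z1],.contra [y1,z1,z0,z2],.ref k1 k2 [(z1,[z1])],.ref k178 k2 [(z1,
    [z1])],.contra [z1],.ref k0 k2 [(z1,[y1,z0,z1,y1,z1])],.contra [y2,z3,z3,z2],.ref k1 k2 [(z1,[y1,z0,z0,z0,z1])],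
    .ref k1 k3 [(z1,[z1,z0,y1,z1])],.contra [y2,z1,z3],.ref (nat_lit 252) k4 [(z1,[y1,y3,y2,y3,z1]),(z1,[z0,z1,z1,
    z1])],.ref (nat_lit 297) k0 [(z1,[z1,z0,y1,y1]),(z1,[z0,z1]),(z1,[z0,z0,z1]),(z1,[z0,z0,z0,z1])],.contra [y1,y1,
    z0,y1,z1],.ref k178 k3 [(z1,[y1,y1,z0,y1,z1])],.contra [z1],.ref k178 k4 [(z1,[z1])],.contra [y1,z1,z1,z1],
    .contra [y2,z1,z1,z2],.ref k0 k0 [(z1,[z1])],.ref (nat_lit 252) k4 [(z1,[y1,y3,y3,y2,z1]),(z1,[z0,z1,z1,z1])],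
    .contra [z1],.ref k178 k3 [(z1,[z1])],.contra [z1],.contra [y1,z0,z0,z1],.ref k1 k3 [(z1,[y1,y1,y1,z0,z1])],
    .ref k178 k0 [(z1,[z1])],.contra [y1,y2,y2,y2,z2]]),
    .old (.lp [(nat_lit 601),(nat_lit 576),(nat_lit 557),(nat_lit 652),(nat_lit 652),(nat_lit 790)] [(nat_lit 209),k0,
    k117,k117,k36,(nat_lit 217),k79,k79,k79,k79,k10,k10] k0 [[k0,k0,k0,k0,k0,k0,k123,k39,k0,k0,k0,(nat_lit 207)],[k0,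
    k0,k0,k0,k0,k0,k0,k0,k0,k0,k0,k135],[k0,k0,k0,k0,k83,k71],[k0,k0,k0,k0,k0,k0,k0,k0,k79,k113],[k0,k0,k0,k71,k0,k0,
    k0,k0,k0,k0,(nat_lit 390)],[k0,k0,k0,k83],[k0,k39,k0,k0,k0,k0,k0,k0,k0,k34],[k0,k123,k0,k0,k0,k0,k0,k0,k0,k84],
    [k0,k0,k113,k0,k0,k0,k84,k34],[k0,k0,k79,k0,k0,k0,k0,k0,k0,k0,k0,k54],[k135,(nat_lit 207),k0,k0,k0,k0,k0,k0,k54],
    [k0,k0,k0,k0,k0,(nat_lit 390)]] (nat_lit 1920) k6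
    [[(k4,(nat_lit 384)),(k7,(nat_lit 731)),(k0,(nat_lit 736)),(k8,(nat_lit 785)),(k11,(nat_lit 800)),(k3,
    (nat_lit 900))],[(k5,(nat_lit 384)),(k10,(nat_lit 384)),(k9,(nat_lit 399)),(k6,(nat_lit 483)),(k2,(nat_lit 484)),
    (k1,(nat_lit 736))],[(k5,(nat_lit 476)),(k10,(nat_lit 548)),(k2,(nat_lit 576)),(k9,(nat_lit 653)),(k6,
    (nat_lit 737)),(k1,(nat_lit 900))],[(k0,(nat_lit 484)),(k7,(nat_lit 531)),(k3,(nat_lit 576)),(k4,(nat_lit 586)),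
    (k8,(nat_lit 693)),(k11,(nat_lit 796))],[(k0,(nat_lit 384)),(k8,(nat_lit 401)),(k3,(nat_lit 476)),(k11,
    (nat_lit 504)),(k7,(nat_lit 585)),(k4,(nat_lit 640))],[(k1,(nat_lit 384)),(k2,(nat_lit 586)),(k5,(nat_lit 640)),
    (k6,(nat_lit 695)),(k9,(nat_lit 695)),(k10,(nat_lit 764))],[(k2,(nat_lit 531)),(k5,(nat_lit 585)),(k6,
    (nat_lit 652)),(k9,(nat_lit 652)),(k1,(nat_lit 731)),(k10,(nat_lit 1111))],[(k0,(nat_lit 483)),(k8,(nat_lit 618)),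
    (k7,(nat_lit 652)),(k4,(nat_lit 695)),(k3,(nat_lit 737)),(k11,(nat_lit 805))],[(k0,(nat_lit 399)),(k8,
    (nat_lit 568)),(k7,(nat_lit 652)),(k3,(nat_lit 653)),(k4,(nat_lit 695)),(k11,(nat_lit 755))],[(k5,(nat_lit 401)),
    (k9,(nat_lit 568)),(k6,(nat_lit 618)),(k2,(nat_lit 693)),(k10,(nat_lit 721)),(k1,(nat_lit 785))],[(k5,
    (nat_lit 504)),(k10,(nat_lit 736)),(k9,(nat_lit 755)),(k2,(nat_lit 796)),(k1,(nat_lit 800)),(k6,(nat_lit 805))],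
    [(k0,(nat_lit 384)),(k3,(nat_lit 548)),(k8,(nat_lit 721)),(k11,(nat_lit 736)),(k4,(nat_lit 764)),(k7,
    (nat_lit 1111))]]
    [[k0,k3,k7],[k0,k4,k4,k11],[k1,k6,k2],[k1,k10,k5,k5],[k2,k9,k9],[k3,k8,k8],[k6,k10],[k7,k11]] k2
    [[k2,k0,k0,k0,k0,k0],[k2,k0,k1,k0,k0,k0],[k1,k1,k0,k0,k0,k0],[k1,k1,k1,k0,k0,k0],[k1,k0,k1,k0,k0,k0],[k2,k0,k2,k0,
    k0,k0],[k1,k1,k2,k0,k0,k0],[k1,k1,k1,k1,k0,k0],[k1,k0,k2,k0,k0,k0],[k1,k0,k2,k0,k1,k0],[k1,k0,k1,k1,k0,k0],[k1,k0,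
    k1,k0,k1,k0],[k1,k0,k1,k0,k2,k0],[k1,k0,k1,k0,k0,k1],[k1,k0,k0,k1,k0,k0],[k1,k0,k0,k2,k0,k0],[k1,k0,k0,k1,k1,k0],
    [k1,k0,k0,k0,k1,k0],[k1,k0,k0,k0,k2,k0],[k1,k0,k0,k0,k0,k1],[k1,k1,k0,k0,k0,k1],[k0,k2,k0,k0,k0,k0],[k0,k3,k0,k0,
    k0,k0],[k0,k2,k1,k0,k0,k0],[k0,k2,k0,k1,k0,k0],[k0,k1,k1,k0,k0,k0],[k0,k1,k2,k0,k0,k0],[k0,k1,k1,k1,k0,k0],[k0,k1,
    k1,k0,k1,k0],[k0,k1,k0,k1,k0,k0],[k0,k1,k0,k0,k1,k0],[k0,k1,k0,k1,k1,k0],[k0,k1,k0,k0,k0,k1],[k0,k1,k1,k0,k0,k1],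
    [k0,k1,k0,k1,k0,k1],[k0,k0,k2,k0,k0,k0],[k0,k0,k2,k0,k1,k0],[k0,k0,k2,k0,k0,k1],[k0,k0,k1,k1,k0,k0],[k0,k0,k1,k1,
    k1,k0],[k0,k0,k1,k0,k1,k0],[k0,k0,k1,k0,k2,k0],[k0,k0,k1,k0,k0,k1],[k0,k0,k0,k2,k0,k0],[k0,k0,k0,k1,k1,k0],[k0,k0,
    k0,k1,k2,k0],[k0,k0,k0,k0,k2,k0],[k0,k0,k0,k0,k3,k0],[k0,k0,k0,k0,k1,k1],[k0,k0,k0,k0,k0,k2]]
    [.contra [z1],.contra [y1,z2,z1,z2],.contra [y1,z2,z1,z2],.contra [y1,z2,z1,z2],.contra [y1,z2,z1,z2],.contra [z1,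
    y2,z0,y2],.contra [y1,z2,z1,z2],.contra [z1,z0,z0,z1,y1],.contra [y1,z2,z1,z2],.ref k178 k3 [(z1,[z1,y2,y1,y3,
    z1])],.ref k178 k3 [(z1,[z1,y1,z0,y1])],.contra [z1,y1,z0,y1],.ref k27 k0 [(z1,[z0,z0,z0,z1]),(z1,[z1,y1,y1,y2,
    z1])],.contra [y1,z1,z0,z2],.contra [z1,z0,z1,z1,y1],.ref (nat_lit 252) k4 [(z1,[z1,y2,y1,y1,y1]),(z1,[z0,z1,z1,
    z1])],.ref k27 k0 [(z1,[z0,z0,z0,z1]),(z1,[z1])],.contra [y1,z1,z1,z1],.ref (nat_lit 296) k3 [(z1,[z1,y1,y1,y1]),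
    (z1,[z0,y1,y1,y1,z1])],.contra [y1,z1,z0,z2],.contra [y1,y1,y1,y2,z2],.contra [z1],.ref k27 k0 [(z1,[z0,z0,z0,
    z1]),(z2,[y1,z0,z1,y2,z2])],.ref (nat_lit 298) k1 [(z1,[z1,z0,y2]),(z1,[z0,z0,z1]),(z1,[y1,z1,z2,z1])],
    .ref (nat_lit 296) k3 [(z1,[y1,y1,z0,y2,z1]),(z1,[z0,y1,y1,y1,z1])],.contra [y1,z2,z1,z2],.contra [y1,z2,z1,z2],
    .ref k1 k2 [(z1,[y1,z0,z0,z0,z1])],.contra [y1,z1,z1,z1],.contra [y1,z0,z0,y1,z1],.contra [y1,z1,z1,z1],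
    .contra [z1,z1,z0,z2,y1],.ref (nat_lit 252) k4 [(z1,[y1,y3,y2,y3,z1]),(z1,[z0,z1,z1,z1])],.ref k27 k0 [(z1,[z0,z0,
    z0,z1]),(z1,[y1,z0,z0,z0,z1])],.contra [y1,y1,z0,y1,z1],.contra [z1],.ref k178 k4 [(z1,[z1,y1,y1,y2,z1])],
    .contra [y1,z1,z0,z2],.ref k178 k4 [(z1,[z1])],.contra [z1,y1,y1,y2,z1],.contra [y1,z1,z1,z1],.ref k178 k3 [(z1,
    [z1,y1,y1,y2,z1])],.contra [y1,z1,z0,z2],.contra [z1],.ref k178 k3 [(z1,[z1])],.ref (nat_lit 252) k4 [(z1,[z1,y2,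
    y2,y2]),(z1,[z0,z1,z1,z1])],.contra [z1],.ref k27 k0 [(z1,[z0,z0,z0,z1]),(z1,[z1,z0,y1,y1,z1])],.contra [y1,z0,z0,
    z1],.contra [y1,y2,y2,y2,z2]]),
    .old (.lp [(nat_lit 594),(nat_lit 568),(nat_lit 594),(nat_lit 366),(nat_lit 430),(nat_lit 322)] [k0,k0,k13,k13,k0,k0,
    k114,k114,k82,k82,k136,k136] k0 [[k0,k0,k0,k0,k0,k0,k134,k0,k0,k0,k102],[k0,k0,(nat_lit 278),k196],[k196,k0,k0,k0,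
    k0,k0,k0,k0,k44],[(nat_lit 278),k0,k0,k0,k0,k0,k0,k0,k70],[k0,k0,k0,k0,k0,k0,k114],[k0,k0,k0,k0,k0,k0,k0,k0,k0,k0,
    k0,k56],[k0,k0,k0,k0,k0,k0,k0,k0,k56],[k0,k134,k0,k0,k0,k114],[k0,k0,k0,k0,k0,k0,k0,k0,k0,k0,k170,k32],[k0,k0,k70,
    k44,k0,k0,k0,k56],[k0,k0,k0,k0,k56,k0,k0,k0,k0,k32],[k0,k102,k0,k0,k0,k0,k0,k0,k0,k170]] (nat_lit 1440) k6
    [[(k8,(nat_lit 342)),(k7,(nat_lit 480)),(k11,(nat_lit 490)),(k0,(nat_lit 492)),(k3,(nat_lit 581)),(k4,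
    (nat_lit 650))],[(k9,(nat_lit 378)),(k10,(nat_lit 458)),(k6,(nat_lit 480)),(k1,(nat_lit 492)),(k5,(nat_lit 790)),
    (k2,(nat_lit 859))],[(k5,(nat_lit 303)),(k2,(nat_lit 372)),(k9,(nat_lit 499)),(k10,(nat_lit 547)),(k1,
    (nat_lit 581)),(k6,(nat_lit 601))],[(k3,(nat_lit 372)),(k11,(nat_lit 401)),(k7,(nat_lit 467)),(k8,(nat_lit 569)),
    (k4,(nat_lit 581)),(k0,(nat_lit 859))],[(k3,(nat_lit 303)),(k11,(nat_lit 388)),(k7,(nat_lit 480)),(k8,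
    (nat_lit 556)),(k4,(nat_lit 594)),(k0,(nat_lit 790))],[(k9,(nat_lit 398)),(k10,(nat_lit 458)),(k6,(nat_lit 480)),
    (k2,(nat_lit 581)),(k5,(nat_lit 594)),(k1,(nat_lit 650))],[(k10,(nat_lit 288)),(k9,(nat_lit 398)),(k2,
    (nat_lit 467)),(k1,(nat_lit 480)),(k5,(nat_lit 480)),(k6,(nat_lit 480))],[(k11,(nat_lit 288)),(k8,(nat_lit 398)),
    (k0,(nat_lit 480)),(k4,(nat_lit 480)),(k7,(nat_lit 480)),(k3,(nat_lit 601))],[(k11,(nat_lit 376)),(k0,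
    (nat_lit 378)),(k4,(nat_lit 398)),(k7,(nat_lit 398)),(k8,(nat_lit 486)),(k3,(nat_lit 499))],[(k1,(nat_lit 342)),
    (k10,(nat_lit 344)),(k6,(nat_lit 398)),(k9,(nat_lit 486)),(k5,(nat_lit 556)),(k2,(nat_lit 569))],[(k6,
    (nat_lit 288)),(k9,(nat_lit 376)),(k5,(nat_lit 388)),(k2,(nat_lit 401)),(k1,(nat_lit 490)),(k10,(nat_lit 492))],
    [(k7,(nat_lit 288)),(k8,(nat_lit 344)),(k0,(nat_lit 458)),(k4,(nat_lit 458)),(k11,(nat_lit 492)),(k3,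
    (nat_lit 547))]]
    [] k0
    [[k2,k0,k0,k0,k0,k0],[k2,k0,k0,k0,k1,k0],[k1,k0,k0,k1,k0,k0],[k1,k0,k0,k1,k1,k0],[k1,k0,k0,k1,k0,k1],[k1,k0,k0,k0,
    k1,k0],[k1,k0,k0,k0,k2,k0],[k1,k0,k0,k0,k1,k1],[k1,k0,k0,k0,k0,k1],[k0,k2,k0,k0,k0,k0],[k0,k3,k0,k0,k0,k0],[k0,k2,
    k1,k0,k0,k0],[k0,k2,k0,k0,k0,k1],[k0,k1,k1,k0,k0,k0],[k0,k1,k1,k1,k0,k0],[k0,k1,k1,k0,k1,k0],[k0,k1,k1,k0,k0,k1],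
    [k0,k1,k0,k1,k0,k0],[k0,k1,k0,k1,k0,k1],[k0,k1,k0,k0,k1,k0],[k0,k1,k0,k1,k1,k0],[k0,k1,k0,k0,k1,k1],[k0,k1,k0,k0,
    k0,k1],[k0,k0,k2,k0,k0,k0],[k0,k0,k1,k1,k0,k0],[k0,k0,k1,k1,k1,k0],[k0,k0,k1,k1,k0,k1],[k0,k0,k1,k0,k1,k0],[k0,k0,
    k1,k0,k1,k1],[k0,k0,k1,k0,k0,k1],[k0,k0,k1,k1,k0,k2],[k0,k0,k1,k0,k0,k2],[k0,k0,k0,k2,k0,k0],[k0,k0,k0,k2,k1,k0],
    [k0,k0,k0,k2,k0,k1],[k0,k0,k0,k1,k1,k0],[k0,k0,k0,k2,k1,k1],[k0,k0,k0,k1,k2,k0],[k0,k0,k0,k1,k1,k1],[k0,k0,k0,k1,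
    k0,k1],[k0,k0,k0,k2,k0,k2],[k0,k0,k0,k1,k1,k2],[k0,k0,k0,k1,k0,k2],[k0,k0,k0,k0,k2,k0],[k0,k0,k0,k0,k2,k1],[k0,k0,
    k0,k0,k1,k1],[k0,k0,k0,k0,k1,k2],[k0,k0,k0,k0,k0,k2]]
    [.contra [z1],.ref k178 k10 [(z2,[y1,z2,z1,z2])],.ref k0 k2 [(z1,[z1])],.ref (nat_lit 299) k4 [(z1,[z1,y1,y1,y1]),
    (z1,[z0,z0,z1]),(z1,[y1,z0,z0,z0,z1])],.ref k178 k8 [(z1,[z1,z1,z1,z1,y1])],.ref k178 k8 [(z2,[z1,z1,z1])],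
    .contra [z1,z1],.ref k1 k2 [(z1,[z1])],.ref k178 k2 [(z1,[z1])],.contra [z1],.ref k178 k8 [(z1,[y1,z1,z2])],
    .ref k178 k8 [(z2,[y1,z2,z2,z1])],.ref (nat_lit 296) k11 [(z1,[z1,z1,z0,z1,y1]),(z1,[z0,z1,z0,z1])],
    .ref k178 k10 [(z1,[z1])],.ref k1 k2 [(z1,[y1,z0,z0,z0,z1])],.ref k178 k8 [(z1,[y1,z1,z1,z1])],
    .ref (nat_lit 299) k4 [(z1,[y1,y1,y1,y1,z1]),(z1,[z0,z0,z1]),(z1,[z1])],.contra [y1,y1,z0,y1,z1],.contra [z1,z1,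
    z1,z1,y1],.contra [y1,z0,z1],.contra [y1,y1,z0,y1,z1],.contra [y1,y1,z0,y1,z1],.contra [y2,y1,z0,y2,z2],
    .contra [y1,z2,z0,z2],.ref k178 k4 [(z1,[z1])],.ref k1 k3 [(z1,[z1])],.ref k178 k10 [(z1,[z1,z1,z1,z1,y1])],
    .contra [z1,z0,z1,y1],.ref (nat_lit 296) k11 [(z1,[z1,z1,z1,z0,y1]),(z1,[z0,z1,z0,z1])],.ref k0 k0 [(z1,[z1])],
    .ref (nat_lit 299) k4 [(z1,[y1,y2,y2,y2,z2]),(z1,[z0,z0,z1]),(z1,[z1,z1,z1,z1,y1])],.ref (nat_lit 296) k11 [(z2,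
    [z1,z2,z2,z1,y2]),(z1,[z0,z1,z0,z1])],.contra [z1],.contra [y1,y2,y1,y2,z2],.contra [y1,y2,y1,y2,z2],.contra [y1,
    y1,z0,y1,z1],.contra [y1,y2,y1,y2,z2],.ref k0 k2 [(z1,[z1,z1])],.contra [y1,y1,z0,y1,z1],.contra [y2,y1,z0,y2,z2],
    .contra [z1,z2,z2,z2,y2],.contra [y1,y2,y1,y2,z2],.contra [y2,y3,y2,y4,z4],.contra [z1],.ref k178 k2 [(z1,[z1,
    z1])],.contra [y1,y1,z0,y1,z1],.contra [y1,y2,y1,y2,z2],.contra [z1]]),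
    .old (.lp [k182,k112,k166,k126,k190,k182] [k4,k4,k62,k16,k12,k12,k32,k32,k0,k0,k4,k4] k0 [[k0,k0,k78,k0,k0,k0,k0,k0,
    k0,k0,k0,k4],[k0,k0,k0,k0,k0,k0,k0,k46],[k0,k0,k0,k0,k0,k0,k0,k0,k4,k12],[k0,k78,k0,k0,k36],[k0,k0,k0,k0,k0,k0,
    k46],[k0,k0,k36],[k46,k0,k0,k0,k0,k0,k0,k0,k0,k8],[k0,k0,k0,k0,k0,k46],[k0,k0,k0,k12,k0,k0,k0,k8],[k0,k0,k0,k4,k0,
    k0,k0,k0,k0,k0,k0,k62],[k0,k4,k0,k0,k0,k0,k0,k0,k62]] (nat_lit 480) k6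
    [[(k7,k154),(k3,k174),(k4,k174),(k0,k182),(k11,k182),(k8,(nat_lit 248))],[(k5,k96),(k2,k124),(k6,k154),(k10,k178),
    (k1,k182),(k9,(nat_lit 232))],[(k6,k96),(k5,k162),(k10,k170),(k1,k174),(k9,k174),(k2,k190)],[(k7,k96),(k8,k116),
    (k11,k120),(k0,k124),(k4,k152),(k3,k190)],[(k0,k96),(k7,k110),(k3,k162),(k4,k166),(k8,k182),(k11,k186)],[(k9,
    k132),(k6,k146),(k2,k152),(k5,k166),(k1,k174),(k10,k174)],[(k2,k96),(k5,k110),(k1,k154),(k10,k154),(k9,k158),(k6,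
    k172)],[(k3,k96),(k4,k146),(k8,k150),(k0,k154),(k11,k154),(k7,k172)],[(k4,k132),(k7,k158),(k3,k174),(k8,k190),
    (k11,k194),(k0,(nat_lit 232))],[(k2,k116),(k6,k150),(k5,k182),(k10,k186),(k9,k190),(k1,(nat_lit 248))],[(k2,k120),
    (k10,k120),(k6,k154),(k1,k182),(k5,k186),(k9,k194)],[(k11,k120),(k7,k154),(k3,k170),(k4,k174),(k0,k178),(k8,
    k186)]]
    [] k0
    [[k2,k0,k0,k0,k0,k0],[k2,k0,k1,k0,k0,k0],[k1,k1,k0,k0,k0,k0],[k1,k1,k1,k0,k0,k0],[k1,k1,k0,k1,k0,k0],[k1,k1,k0,k0,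
    k0,k1],[k1,k0,k1,k0,k0,k0],[k1,k0,k2,k0,k0,k0],[k1,k0,k1,k1,k0,k0],[k1,k0,k0,k1,k0,k0],[k1,k0,k1,k0,k1,k0],[k1,k0,
    k0,k0,k0,k1],[k1,k0,k1,k0,k0,k1],[k0,k2,k0,k0,k0,k0],[k0,k2,k0,k1,k0,k0],[k0,k1,k1,k0,k0,k0],[k0,k1,k1,k1,k0,k0],
    [k0,k1,k1,k0,k1,k0],[k0,k1,k1,k0,k0,k1],[k0,k1,k0,k1,k0,k0],[k0,k2,k0,k2,k0,k0],[k0,k1,k1,k2,k0,k0],[k0,k1,k1,k1,
    k1,k0],[k0,k1,k0,k2,k0,k0],[k0,k1,k0,k1,k1,k0],[k0,k1,k0,k1,k0,k1],[k0,k1,k0,k0,k1,k0],[k0,k1,k0,k0,k0,k1],[k0,k1,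
    k0,k0,k0,k2],[k0,k0,k2,k0,k0,k0],[k0,k0,k2,k1,k0,k0],[k0,k0,k1,k1,k0,k0],[k0,k0,k1,k2,k0,k0],[k0,k0,k1,k1,k1,k0],
    [k0,k0,k1,k1,k0,k1],[k0,k0,k1,k0,k1,k0],[k0,k0,k1,k0,k0,k1],[k0,k0,k0,k2,k0,k0],[k0,k0,k0,k1,k1,k0],[k0,k0,k0,k1,
    k0,k1],[k0,k0,k0,k1,k0,k2],[k0,k0,k0,k0,k2,k0],[k0,k0,k0,k0,k1,k1],[k0,k0,k0,k0,k0,k2],[k0,k0,k0,k0,k0,k3]]
    [.contra [z1],.ref k178 k0 [(z2,[y1,z1,y1,z1])],.ref k178 k8 [(z1,[z1])],.ref k1 k0 [(z1,[y1,z0,z0,z1])],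
    .ref k178 k2 [(z1,[z1,z0,y1])],.ref k1 k3 [(z1,[y1,z0,z0,z1])],.ref (nat_lit 252) k3 [(z1,[y1,z2,y1,y1]),(z1,[z0,
    y1,z0,z1])],.ref (nat_lit 300) k3 [(z1,[y1,z1]),(z1,[z0,y1,y1,z1]),(z1,[z1])],.ref (nat_lit 299) k5 [(z1,[z1,z0,
    z1,y1]),(z1,[z0,y1,y1,z1]),(z1,[y1,z0,z0,z1])],.ref k0 k2 [(z1,[z1])],.contra [y1,z0,y1,z1],.ref k178 k2 [(z1,
    [z1])],.ref k178 k0 [(z1,[y1,z0,y1,z1])],.contra [z1],.contra [y1,y1,z1,z1],.contra [y1,y1,z1,z1],.contra [y1,y1,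
    z1,z1],.ref (nat_lit 299) k8 [(z1,[z1,z0,z1,y1]),(z1,[z0,y1,y1,z1]),(z1,[y1,z0,z0,z1])],.contra [y1,y1,z0,z1],
    .contra [y1,y1,z1,z1],.contra [z1,z0,y2],.contra [y1,y1,z1,z1],.ref k178 k2 [(z1,[y1,z0,z0,z1])],.contra [y1,y1,
    z1,z1],.ref k178 k0 [(z1,[z1,z0,y1])],.contra [z1,z0,y1],.ref k0 k3 [(z1,[z1])],.contra [y1,y1,z0,z1],
    .ref (nat_lit 296) k0 [(z1,[z1,z1,z0,y1]),(z1,[z0,z1])],.contra [z1],.ref (nat_lit 298) k5 [(z1,[z1,z2,z2,y2]),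
    (z1,[z0,y1,y1,z1]),(z1,[y1,y2,y1,z2])],.contra [y1,y1,z1,z1],.contra [y1,y1,z1,z1],.ref k1 k3 [(z1,[z1])],
    .contra [y1,y1,z0,z1],.ref (nat_lit 252) k7 [(z1,[y1,z2,y1,y1]),(z1,[z0,y1,z0,z1])],.contra [y1,y1,z0,z1],
    .contra [z1],.ref k178 k3 [(z1,[z1])],.contra [y1,y1,z0,z1],.ref (nat_lit 296) k6 [(z1,[z1,z1,z0,y1]),(z1,[z0,
    z1])],.contra [y1,z2],.ref k178 k0 [(z1,[z1])],.contra [z1],.ref (nat_lit 217) k0 [(z1,[z1]),(z1,[z0,z1])]]),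
    .geo true z2 k5 [(z2,z4),(z1,z0),(z2,y4),(z1,z2),(z2,y4),(z0,z2)] [(z1,[z2]),(z1,[z0,z1]),(z1,[z0,z0,z2]),(z1,[z0,z0,
    z0,z1]),(z1,[y2,y1,y2,y1,z2]),(z1,
    [])] z0 (Int.ofNat (nat_lit 524288)) (.s (.s (.l k1) (.l k1)) (.s (.l k1) (.s (.l k1) (.l k2)))) [⟨z1,z2,[[k0,k5],
    [k1,k2],[k3,k4]],.bnd k0⟩],
    .geo true z2 k5 [(y4,z4),(z4,y2),(z0,z1),(z4,y2),(z4,y3),(z0,z2)] [(z1,[z2]),(z1,[z0,z2]),(z1,[z0,z0,z1]),(z1,[z0,z0,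
    z0,z2]),(z1,[y2,y2,y1,y2,z2]),(z1,
    [])] (Int.ofNat (nat_lit 1048576)) (Int.ofNat (nat_lit 1398102)) (.s (.s (.l k1) (.l k1)) (.s (.l k1) (.l k1))) [],
    .geo true z1 k5 [(y2,z6),(z2,y3),(y2,z6),(z2,y4),(z4,y6),(z0,z1)] [(z1,[z1]),(z1,[z0,z1]),(z1,[z0,z0,z1]),(z1,[z0,z0,
    z0,z1]),(z1,[y1,y1,y1,y1,z1]),(z1,
    [])] (Int.ofNat (nat_lit 349525)) (Int.ofNat (nat_lit 524288)) (.s (.s (.s (.l k2) (.l k1)) (.l k1)) (.s (.l k1) (.l k1))) [⟨z1,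
    z3,[[k0,k2],[k1,k5],[k3,k4]],.bnd k0⟩],
    .old (.lp [(nat_lit 374),(nat_lit 764),(nat_lit 394),(nat_lit 1150),(nat_lit 394),(nat_lit 760)] [(nat_lit 388),
    (nat_lit 388),(nat_lit 253),k133,(nat_lit 378),(nat_lit 378),k0,k0,(nat_lit 378),(nat_lit 378),k195,k195] k0 [[k0,
    k0,k0,k0,k0,k0,k0,k4,k0,k0,k0,k18],[k0,k0,k0,k0,k0,k0,k0,k0,k0,k0,k0,(nat_lit 438)],[k0,k0,k0,k0,k0,k0,k0,k0,k126,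
    k6],[k0,k0,k0,k0,k0,k6],[k0,k0,k6,k0,k0,k0,k0,k6],[k0,k0,k0,k0,k0,k0,k0,(nat_lit 238)],[k0,k4,k0,k0,(nat_lit 238),
    k6],[k0,k0,k0,k0,k0,k0,k0,k0,k2,k10],[k0,k0,k0,k6,k0,k0,k10],[k0,k0,k0,k126,k0,k0,k2,k0,k0,k0,k8],[(nat_lit 438),
    k18],[k0,k0,k0,k0,k0,k0,k0,k0,k8]] (nat_lit 1920) k6
    [[(k4,(nat_lit 384)),(k8,(nat_lit 384)),(k11,(nat_lit 559)),(k3,(nat_lit 647)),(k7,(nat_lit 762)),(k0,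
    (nat_lit 812))],[(k5,(nat_lit 384)),(k9,(nat_lit 384)),(k2,(nat_lit 509)),(k10,(nat_lit 549)),(k6,(nat_lit 758)),
    (k1,(nat_lit 812))],[(k10,(nat_lit 384)),(k5,(nat_lit 639)),(k9,(nat_lit 643)),(k1,(nat_lit 647)),(k2,
    (nat_lit 764)),(k6,(nat_lit 1017))],[(k0,(nat_lit 509)),(k8,(nat_lit 513)),(k4,(nat_lit 519)),(k11,(nat_lit 576)),
    (k3,(nat_lit 764)),(k7,(nat_lit 903))],[(k0,(nat_lit 384)),(k4,(nat_lit 388)),(k8,(nat_lit 520)),(k11,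
    (nat_lit 583)),(k3,(nat_lit 639)),(k7,(nat_lit 772))],[(k1,(nat_lit 384)),(k5,(nat_lit 388)),(k2,(nat_lit 519)),
    (k10,(nat_lit 577)),(k9,(nat_lit 632)),(k6,(nat_lit 766))],[(k1,(nat_lit 762)),(k5,(nat_lit 772)),(k9,
    (nat_lit 778)),(k2,(nat_lit 903)),(k6,(nat_lit 912)),(k10,(nat_lit 955))],[(k0,(nat_lit 758)),(k4,(nat_lit 766)),
    (k8,(nat_lit 774)),(k7,(nat_lit 912)),(k11,(nat_lit 965)),(k3,(nat_lit 1017))],[(k0,(nat_lit 384)),(k8,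
    (nat_lit 384)),(k11,(nat_lit 575)),(k4,(nat_lit 632)),(k3,(nat_lit 643)),(k7,(nat_lit 778))],[(k1,(nat_lit 384)),
    (k9,(nat_lit 384)),(k2,(nat_lit 513)),(k5,(nat_lit 520)),(k10,(nat_lit 585)),(k6,(nat_lit 774))],[(k1,
    (nat_lit 559)),(k9,(nat_lit 575)),(k2,(nat_lit 576)),(k5,(nat_lit 583)),(k10,(nat_lit 760)),(k6,(nat_lit 965))],
    [(k3,(nat_lit 384)),(k0,(nat_lit 549)),(k4,(nat_lit 577)),(k8,(nat_lit 585)),(k11,(nat_lit 760)),(k7,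
    (nat_lit 955))]]
    [] k0
    [[k2,k0,k0,k0,k0,k0],[k2,k0,k1,k0,k0,k0],[k2,k0,k0,k0,k1,k0],[k1,k1,k0,k0,k0,k0],[k1,k1,k1,k0,k0,k0],[k1,k1,k0,k0,
    k1,k0],[k1,k1,k0,k0,k0,k1],[k1,k0,k1,k0,k0,k0],[k2,k0,k2,k0,k0,k0],[k2,k0,k1,k0,k1,k0],[k2,k0,k1,k0,k0,k1],[k1,k0,
    k2,k0,k0,k0],[k1,k0,k3,k0,k0,k0],[k1,k0,k2,k0,k1,k0],[k1,k0,k2,k0,k0,k1],[k1,k0,k1,k1,k0,k0],[k1,k0,k1,k0,k1,k0],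
    [k1,k0,k1,k0,k2,k0],[k1,k0,k1,k0,k0,k1],[k1,k1,k1,k0,k0,k1],[k1,k0,k0,k1,k0,k0],[k1,k0,k0,k0,k1,k0],[k2,k0,k0,k0,
    k2,k0],[k2,k0,k0,k0,k1,k1],[k1,k0,k0,k0,k2,k0],[k1,k0,k0,k0,k3,k0],[k1,k0,k0,k0,k2,k1],[k1,k0,k0,k0,k1,k1],[k1,k1,
    k0,k0,k1,k1],[k1,k0,k0,k0,k0,k1],[k1,k0,k0,k0,k0,k2],[k0,k2,k0,k0,k0,k0],[k0,k2,k0,k0,k0,k1],[k0,k1,k1,k0,k0,k0],
    [k0,k1,k2,k0,k0,k0],[k0,k1,k1,k0,k1,k0],[k0,k1,k1,k0,k0,k1],[k0,k1,k0,k0,k1,k0],[k0,k1,k0,k0,k2,k0],[k0,k1,k0,k0,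
    k1,k1],[k0,k1,k0,k0,k0,k1],[k0,k1,k2,k0,k0,k1],[k0,k1,k0,k0,k2,k1],[k0,k1,k0,k0,k0,k2],[k0,k0,k2,k0,k0,k0],[k0,k0,
    k3,k0,k0,k0],[k0,k0,k4,k0,k0,k0],[k0,k0,k2,k0,k1,k0],[k0,k0,k2,k0,k0,k1],[k0,k0,k1,k1,k0,k0],[k0,k0,k1,k0,k1,k0],
    [k0,k0,k1,k0,k2,k0],[k0,k0,k1,k0,k1,k1],[k0,k0,k1,k0,k0,k1],[k0,k0,k0,k2,k0,k0],[k0,k0,k0,k1,k1,k0],[k0,k0,k0,k0,
    k2,k0],[k0,k0,k0,k0,k3,k0],[k0,k0,k0,k0,k4,k0],[k0,k0,k0,k0,k2,k1],[k0,k0,k0,k0,k1,k1],[k0,k0,k0,k0,k0,k2]]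
    [.contra [z1],.ref k178 k4 [(z2,[z2,y3,y2,y1,z2])],.ref k178 k3 [(z2,[z2,y3,y2,y1,z2])],.contra [y1,z1,z1],
    .contra [y2,z1,z2,z1],.contra [y2,z1,z2,z1],.ref k0 k2 [(z2,[y2,z1,z0,y1,z2])],.contra [y2,z1,z2,z1],
    .ref (nat_lit 252) k5 [(z2,[z2,y5,y2,y3,z2]),(z2,[z0,z1,z0,z1])],.ref k0 k2 [(z1,[z1,y1,y1,y1,z1])],.contra [z1,
    y1],.ref (nat_lit 296) k1 [(z2,[z2,y1,z0,y1]),(z2,[z0,y1,z0,y1,z2])],.ref (nat_lit 304) k11 [(z1,[y2,z1,z1]),(z1,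
    [z1]),(z1,[y2,z1]),(z2,[z2,y1,z0,z1])],.ref k178 k4 [(z1,[z1,y1,y1,y1,z1])],.ref k179 k3 [(z2,[y2,z1,z0,z1]),(z2,
    [z0,y1,y2,y1,z2]),(z2,[z2,z1,z2,z1,y2])],.ref (nat_lit 303) k3 [(z1,[y1,z1,z1,z1,y1]),(z2,[z0,y1,y2,y1,z2]),(z2,
    [z0,z3,z2,z1,y2]),(z2,[z0,y1,z0,y1,z2])],.contra [z2,z1,z0,y1],.ref k178 k3 [(z1,[z1,y1,y1,y1,z1])],.contra [y2,
    z1,z0,z1],.ref k178 k3 [(z1,[y1,z0,z0,z0,z1])],.ref k0 k2 [(z1,[z1])],.contra [y2,z1,z2,z1],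
    .ref (nat_lit 252) k4 [(z2,[z2,y5,y6,y3,z2]),(z2,[z0,z1,z2,z1])],.contra [z1,y1],.ref (nat_lit 296) k3 [(z2,[z2,
    y1,y2,y1]),(z2,[z0,y1,y2,y1,z2])],.ref (nat_lit 304) k0 [(z1,[y2,z1]),(z1,[z1]),(z1,[y2,z1,z1]),(z2,[z2,y1,z0,
    z1])],.ref k179 k3 [(z2,[z2,y1,z0,y1]),(z2,[z0,y1,y2,y1,z2]),(z2,[y2,z3,z2,z3,y2])],.contra [y2,z1,z0,z1],
    .ref k178 k4 [(z1,[y1,z0,z0,z0,z1])],.contra [y1,z1],.ref k0 k2 [(z2,[y2,z1,y2,y1,z2])],.contra [z1],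
    .ref k0 k2 [(z2,[y1,z0,z0,y1,z2])],.contra [y2,z1,z2,z1],.contra [y1,z0,z1,z1],.contra [y2,z1,z2,z1],
    .ref (nat_lit 303) k1 [(z1,[z1,z1,z1,z1,y2]),(z2,[z0,y1,z0,y1,z2]),(z2,[z0,z3,z2,z1,y2]),(z2,[z0,y1,y2,y1,z2])],
    .contra [y2,z1,z2,z1],.contra [y1,z0,z1,z1],.ref (nat_lit 303) k3 [(z1,[z1,z1,z1,z1,y2]),(z2,[z0,y1,y2,y1,z2]),
    (z2,[z0,z3,z2,z1,y2]),(z2,[z0,y1,z0,y1,z2])],.contra [z1,z0,z1],.ref (nat_lit 252) k4 [(z2,[y2,y3,y4,y1,z2]),(z2,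
    [z0,z1,z2,z1])],.ref (nat_lit 252) k5 [(z2,[y2,y3,z0,y1,z2]),(z2,[z0,z1,z0,z1])],.ref k0 k2 [(z2,[y1,z0,y1,y1,
    z2])],.contra [z1],.ref (nat_lit 217) k10 [(z1,[z1]),(z2,[z0,y1,z0,y1,z2])],.ref (nat_lit 302) k5 [(z2,[z1,y1,y2,
    y3,z2]),(z2,[z1]),(z2,[y1,z0,z2,z2]),(z2,[z1,z2,z0,y2])],.contra [y1,z0,z1,z1],.contra [y1,z0,z0,z1],
    .ref k178 k4 [(z1,[z1])],.contra [y2,z1,z2,z1],.contra [y1,z0,z1,z1],.contra [y2,z1,z0,z1],.contra [y2,z1,z0,z1],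
    .contra [y1,y1,z0,y1,z2],.ref k178 k3 [(z1,[z1])],.contra [z1],.ref (nat_lit 217) k3 [(z1,[z1]),(z2,[z0,y1,y2,y1,
    z2])],.ref (nat_lit 302) k4 [(z2,[z1,y1,y2,y3,z2]),(z2,[z1]),(z2,[y1,z0,z0,z2]),(z2,[z1,z2,z0,y2])],.contra [y1,
    z0,z0,z1],.contra [y2,z1,z0,z1],.contra [z1,z0,z2]]),
    .geo true z3 k4 [(y2,z3),(z4,z0),(z6,y6),(z2,z0),(z0,z3),(z2,z0)] [(z1,[z1]),(z1,[z0,z1]),(z1,[z0,z0,z3]),(z1,[z0,z0,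
    z0,z1]),(z1,[]),(z1,[y1,y1,y3,y1,
    z3])] (Int.ofNat (nat_lit 699050)) (Int.ofNat (nat_lit 1048576)) (.s (.l k1) (.l k1)) []]

noncomputable def cU6_2_n5_1 : List XN :=
  [.geo true z2 k5 [(y6,z4),(z4,y2),(z5,y2),(z4,y2),(z1,z0),(z0,z2)] [(z1,[z2]),(z1,[z0,z2]),(z1,[z0,z0,z1]),(z1,[z0,z0,
    z0,z2]),(z1,[y2,y2,y1,y2,z2]),(z1,
    [])] (Int.ofNat (nat_lit 1572864)) (Int.ofNat (nat_lit 2097152)) (.s (.s (.l k1) (.l k1)) (.s (.l k1) (.s (.l k1) (.s (.l k1) (.l k2))))) [⟨z2,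
    z1,[[k0,k1],[k2,k3],[k4,k5]],.bnd k1⟩],
    .geo true z4 k4 [(z0,z4),(z2,z0),(z8,y4),(z3,y4),(z0,z4),(z3,z0)] [(z1,[z4]),(z1,[z0,z2]),(z1,[z0,z0,z4]),(z1,[z0,z0,
    z0,z1]),(z1,[]),(z1,[y4,y2,y4,y1,
    z4])] z0 (Int.ofNat (nat_lit 786432)) (.s (.s (.s (.l k2) (.l k1)) (.l k1)) (.s (.l k1) (.l k1))) [⟨z0,z1,[[k0,
    k5],[k1,k2],[k3,k4]],.bnd k0⟩],
    .geo true z1 k5 [(z0,z4),(y2,z6),(z2,y4),(z2,y3),(z2,y4),(z0,z1)] [(z1,[z1]),(z1,[z0,z1]),(z1,[z0,z0,z1]),(z1,[z0,z0,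
    z0,z1]),(z1,[y1,y1,y1,y1,z1]),(z1,
    [])] (Int.ofNat (nat_lit 349525)) (Int.ofNat (nat_lit 524288)) (.s (.s (.l k1) (.s (.l k1) (.l k1))) (.s (.l k1) (.l k2))) [⟨z1,
    z2,[[k0,k2],[k1,k5],[k3,k4]],.bnd k0⟩],
    .geo true z5 k4 [(z0,z5),(z2,z0),(z10,y5),(z4,y5),(z0,z5),(z4,z0)] [(z1,[z5]),(z1,[z0,z1]),(z1,[z0,z0,z5]),(z1,[z0,z0,
    z0,z1]),(z1,[]),(z1,[y5,y1,y5,y1,
    z5])] z0 (Int.ofNat (nat_lit 838861)) (.s (.s (.s (.l k2) (.l k1)) (.l k1)) (.s (.s (.l k1) (.l k1)) (.l k1))) [⟨z0,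
    z1,[[k0,k5],[k1,k2],[k3,k4]],.bnd k0⟩],
    .geo true z1 k5 [(y2,z6),(z2,y1),(z2,y4),(z0,z1),(z2,y3),(z0,z1)] [(z1,[z1]),(z1,[z0,z1]),(z1,[z0,z0,z1]),(z1,[z0,z0,
    z0,z1]),(z1,[y1,y1,y1,y1,z1]),(z1,
    [])] (Int.ofNat (nat_lit 349525)) (Int.ofNat (nat_lit 524288)) (.s (.s (.l k1) (.l k1)) (.s (.l k1) (.l k1))) [],
    .old (.lp [(nat_lit 236),(nat_lit 340),(nat_lit 416),(nat_lit 354),(nat_lit 232),(nat_lit 340)] [k184,k184,k184,k80,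
    k0,k188,k125,k125,k186,k186,k132,k132] k0 [[k0,k0,k0,k12,k0,k0,k42],[k0,k0,k0,k100,k0,k0,k0,k0,k0,k0,k0,
    (nat_lit 200)],[k100,k12],[k0,k0,k0,k0,k0,(nat_lit 224)],[k0,k0,(nat_lit 224),k0,k0,k0,k0,k0,k0,k0,(nat_lit 228)],
    [k0,k0,k0,k0,k0,k0,k0,k120,k0,k0,k12],[k0,k0,k0,k0,k120,k0,k0,k0,k0,k8],[k0,k42,k0,k0,k0,k0,k0,k0,k0,k38],[k0,k0,
    k0,k0,k0,k0,k38,k8],[k0,k0,k0,k0,k0,k0,k0,k0,k0,k0,k6,k54],[(nat_lit 200),k0,k0,k0,k0,k0,k0,k0,k54],[k0,k0,k0,k0,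
    k12,(nat_lit 228),k0,k0,k6]] (nat_lit 960) k6
    [[(k4,k192),(k11,(nat_lit 282)),(k7,(nat_lit 283)),(k8,(nat_lit 288)),(k3,(nat_lit 340)),(k0,(nat_lit 436))],[(k9,
    k192),(k2,(nat_lit 224)),(k10,(nat_lit 288)),(k6,(nat_lit 295)),(k5,(nat_lit 332)),(k1,(nat_lit 436))],[(k10,
    k192),(k2,(nat_lit 240)),(k9,(nat_lit 338)),(k1,(nat_lit 340)),(k5,(nat_lit 348)),(k6,(nat_lit 441))],[(k0,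
    (nat_lit 224)),(k8,(nat_lit 234)),(k3,(nat_lit 240)),(k11,(nat_lit 288)),(k4,(nat_lit 420)),(k7,(nat_lit 519))],
    [(k4,k192),(k8,(nat_lit 230)),(k11,(nat_lit 284)),(k7,(nat_lit 291)),(k0,(nat_lit 332)),(k3,(nat_lit 348))],[(k1,
    k192),(k5,k192),(k2,(nat_lit 420)),(k6,(nat_lit 479)),(k10,(nat_lit 484)),(k9,(nat_lit 538))],[(k6,(nat_lit 234)),
    (k1,(nat_lit 283)),(k5,(nat_lit 291)),(k9,(nat_lit 293)),(k2,(nat_lit 519)),(k10,(nat_lit 575))],[(k7,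
    (nat_lit 234)),(k8,(nat_lit 285)),(k0,(nat_lit 295)),(k11,(nat_lit 385)),(k3,(nat_lit 441)),(k4,(nat_lit 479))],
    [(k0,k192),(k8,k194),(k7,(nat_lit 293)),(k11,(nat_lit 294)),(k3,(nat_lit 338)),(k4,(nat_lit 538))],[(k9,k194),(k5,
    (nat_lit 230)),(k2,(nat_lit 234)),(k6,(nat_lit 285)),(k1,(nat_lit 288)),(k10,(nat_lit 292))],[(k1,(nat_lit 282)),
    (k5,(nat_lit 284)),(k10,(nat_lit 286)),(k2,(nat_lit 288)),(k9,(nat_lit 294)),(k6,(nat_lit 385))],[(k3,k192),(k11,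
    (nat_lit 286)),(k0,(nat_lit 288)),(k8,(nat_lit 292)),(k4,(nat_lit 484)),(k7,(nat_lit 575))]]
    [] k0
    [[k2,k0,k0,k0,k0,k0],[k2,k0,k0,k0,k1,k0],[k1,k1,k0,k0,k0,k0],[k1,k2,k0,k0,k0,k0],[k1,k1,k0,k0,k1,k0],[k1,k1,k0,k0,
    k0,k1],[k1,k0,k1,k0,k0,k0],[k1,k1,k1,k0,k0,k0],[k1,k0,k2,k0,k0,k0],[k1,k1,k2,k0,k0,k0],[k1,k0,k3,k0,k0,k0],[k1,k0,
    k2,k0,k1,k0],[k1,k0,k2,k0,k0,k1],[k1,k0,k1,k1,k0,k0],[k1,k0,k1,k0,k1,k0],[k1,k0,k1,k0,k2,k0],[k1,k0,k1,k0,k0,k1],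
    [k1,k1,k1,k0,k0,k1],[k1,k0,k0,k1,k0,k0],[k1,k1,k0,k1,k0,k0],[k1,k0,k0,k2,k0,k0],[k1,k0,k0,k1,k1,k0],[k1,k0,k0,k1,
    k2,k0],[k1,k0,k0,k1,k0,k1],[k1,k0,k0,k0,k1,k0],[k1,k0,k0,k0,k2,k0],[k1,k0,k0,k0,k3,k0],[k1,k0,k0,k0,k1,k1],[k1,k0,
    k0,k0,k0,k1],[k1,k2,k0,k0,k0,k1],[k1,k1,k0,k0,k1,k1],[k1,k0,k0,k0,k0,k2],[k0,k2,k0,k0,k0,k0],[k0,k3,k0,k0,k0,k0],
    [k0,k2,k0,k0,k1,k0],[k0,k2,k0,k0,k0,k1],[k0,k1,k1,k0,k0,k0],[k0,k1,k0,k0,k1,k0],[k0,k1,k0,k0,k2,k0],[k0,k1,k0,k0,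
    k1,k1],[k0,k1,k0,k0,k0,k1],[k0,k1,k1,k0,k0,k1],[k0,k1,k0,k0,k2,k1],[k0,k1,k0,k0,k0,k2],[k0,k0,k2,k0,k0,k0],[k0,k0,
    k3,k0,k0,k0],[k0,k0,k4,k0,k0,k0],[k0,k0,k1,k1,k0,k0],[k0,k0,k1,k0,k1,k0],[k0,k0,k1,k0,k0,k1],[k0,k0,k0,k2,k0,k0],
    [k0,k0,k0,k3,k0,k0],[k0,k0,k0,k4,k0,k0],[k0,k0,k0,k2,k1,k0],[k0,k0,k0,k1,k1,k0],[k0,k0,k0,k1,k2,k0],[k0,k0,k0,k0,
    k2,k0],[k0,k0,k0,k0,k3,k0],[k0,k0,k0,k0,k4,k0],[k0,k0,k0,k0,k2,k1],[k0,k0,k0,k0,k1,k1],[k0,k0,k0,k0,k1,k2],[k0,k0,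
    k0,k0,k0,k2],[k0,k0,k0,k0,k0,k3]]
    [.contra [z1],.ref k179 k3 [(z1,[z1,y2,z0,y1]),(z1,[z0,y1,y1,y1,z1]),(z1,[y1,z4,z1,z3,y1])],.contra [y1,z1,z1,z1],
    .ref k1 k3 [(z1,[y1,z0,z1,z0,z1])],.contra [z1,z1,y1],.ref k1 k3 [(z1,[y1,z0,z0,z0,z1])],.contra [y1,z2,z0,z1],
    .contra [y1,z1,z1,z1],.ref (nat_lit 217) k10 [(z1,[z2,y2,z0,y1]),(z1,[z0,y1,z0,y1,z1])],.ref k179 k3 [(z1,[y1,z1,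
    z1,z1]),(z1,[z0,y1,y1,y1,z1]),(z1,[z1,z1,z0,z1,y1])],.ref (nat_lit 310) k8 [(z1,[z0,z0,z1]),(z1,[z2,y2,z0,y1]),
    (z1,[z0,y1,y1,y1,z1]),(z1,[y1,z1,z0,z3])],.ref k178 k4 [(z1,[z1,y2,y1,y2,z1])],.ref k179 k3 [(z1,[y1,z1,z0,z1]),
    (z1,[z0,y1,y1,y1,z1]),(z1,[z1,z1,z1,z1,y1])],.contra [z1,z0,z1,z1,y1],.contra [y1,z1,z1,z1],.ref k178 k3 [(z1,[z1,
    y2,y1,y2,z1])],.contra [y1,z1,z0,z1],.ref k178 k3 [(z1,[y1,z0,z0,z0,z1])],.contra [z1,z0,z1,z1,y1],.contra [z1,z1,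
    z0,z1,y1],.contra [z1,z2,z2,z3,y2],.contra [z1,z0,z1,z1,y1],.contra [z1,z0,z1,z1,y1],.contra [z1,z1,z1,z1,y1],
    .contra [y1,z1,z1,z1],.ref (nat_lit 296) k3 [(z1,[z1,y1,y1,y1]),(z1,[z0,y1,y1,y1,z1])],.ref (nat_lit 309) k5 [(z1,
    [y1,z0,y1,y1,z1]),(z1,[y2,z2,z0,z1]),(z1,[z1,y1,z1]),(z1,[z1])],.contra [z1,z1],.contra [y1,z1,z0,z1],
    .ref (nat_lit 311) k10 [(z1,[y2,z2,y2,z1]),(z1,[z0,y1,z0,y1,z1]),(z1,[z1,y1,z2]),(z1,[z0,z0,y1])],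
    .ref k178 k4 [(z1,[y1,z0,z0,z0,z1])],.ref k1 k3 [(z1,[y1,z0,y1,z0,z1])],.contra [z1],.ref (nat_lit 306) k9 [(z1,
    [y1,y3,z3]),(z1,[y1,y3,z0,y3,z3]),(z1,[z0,z2,z0,z1]),(z1,[z1])],.contra [y1,z0,z2,z1],.ref (nat_lit 306) k9 [(z1,
    [y1,y3,z2]),(z1,[y1,y3,y1,y3,z3]),(z1,[z0,z2,z0,z1]),(z1,[z1,z0,z1])],.contra [y1,z1,z1,z1],.contra [y1,z1,z1,z1],
    .contra [y1,z0,z2,z1],.contra [y1,z0,z1,z1],.contra [z1,z0,z1],.contra [y1,z0,z1,z1],.contra [z1,z2,y1],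
    .ref (nat_lit 306) k9 [(z1,[y1,y3,z1]),(z1,[y1,y3,y2,y3,z3]),(z1,[z0,z2,z0,z1]),(z1,[z1,z0,z2])],.contra [z1],
    .ref (nat_lit 217) k10 [(z1,[z1]),(z1,[z0,y1,z0,y1,z1])],.ref (nat_lit 308) k8 [(z1,[z0,z0,z1]),(z2,[z1]),(z1,[z0,
    y1,y1,y1,z1]),(z2,[y1,z0,z0,z4])],.ref k178 k4 [(z1,[z1])],.contra [y1,z1,z1,z1],.contra [y1,z1,z0,z1],
    .contra [y1,y2,z0,y2,z2],.contra [z1,z4,z3,z5,y3],.contra [z1,z2,z2,z3,y2],.contra [z1,z2,z2,z3,y2],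
    .ref k178 k3 [(z1,[z1])],.ref (nat_lit 252) k4 [(z1,[z1,y2,y2,y2]),(z1,[z0,z1,z1,z1])],.contra [z1],
    .ref (nat_lit 217) k3 [(z1,[z1]),(z1,[z0,y1,y1,y1,z1])],.ref (nat_lit 307) k1 [(z2,[y1,z4,z4,z6,y4]),(z1,[z0,y1,
    z0,y1,z1]),(z2,[z1,z0,y4,y4,z4]),(z1,[z0,y1,y1,y1,z1])],.contra [y1,z0,z1,z1],.contra [y1,z1,z0,z1],.contra [y1,
    z0,z0,z1],.contra [z1,z0,z2],.ref (nat_lit 306) k9 [(z1,[y1,y3]),(z1,[y1,y3,y3,y3,z3]),(z1,[z0,z2,z0,z1]),(z1,[z1,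
    z0,z3])]]),
    .geo true z3 k4 [(z0,z3),(z2,z0),(z4,y6),(z4,z0),(z0,z3),(z2,z0)] [(z1,[z3]),(z1,[z0,z1]),(z1,[z0,z0,z1]),(z1,[z0,z0,
    z0,z1]),(z1,[]),(z1,[y3,y1,y1,y1,z3])] z0 (Int.ofNat (nat_lit 699051)) (.s (.l k1) (.s (.l k1) (.l k1))) [],
    .geo true z2 k4 [(z0,z2),(z1,z0),(z4,y2),(z2,y2),(z0,z2),(z1,z0)] [(z1,[z2]),(z1,[z0,z1]),(z1,[z0,z0,z2]),(z1,[z0,z0,
    z0,z2]),(z1,[]),(z1,[y2,y1,y2,y2,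
    z2])] z0 (Int.ofNat (nat_lit 1048576)) (.s (.s (.s (.l k2) (.l k1)) (.l k1)) (.s (.s (.l k1) (.l k1)) (.s (.l k1) (.l k1)))) [⟨z0,
    z1,[[k0,k5],[k1,k2],[k3,k4]],.bnd k0⟩],
    .old (.lp [(nat_lit 378),k196,(nat_lit 508),(nat_lit 328),(nat_lit 378),k130] [k65,k65,k127,k185,k0,k0,k123,k57,k65,
    k65,k189,k189] k0 [[k0,k0,k0,k0,k0,k0,k0,k2,k0,k0,k58],[k0,k0,k2,k4],[k4,k0,k0,k0,k0,k124],[k2,k0,k0,k0,k0,k60],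
    [k0,k0,k60,k124,k0,k0,k0,k0,k0,k0,k0,k56],[k0,k0,k0,k0,k0,k0,k0,k74,k0,k0,k0,k70],[k0,k2,k0,k0,k74],[k0,k0,k0,k0,
    k0,k0,k0,k0,k0,k64],[k0,k0,k0,k0,k0,k0,k64,k0,k0,k0,k110],[],[k0,k0,k0,k0,k70,k56],[k0,k58,k0,k0,k0,k0,k0,k0,k0,
    k110]] (nat_lit 960) k6
    [[(k11,(nat_lit 254)),(k3,(nat_lit 258)),(k8,(nat_lit 268)),(k0,(nat_lit 320)),(k7,(nat_lit 442)),(k4,
    (nat_lit 513))],[(k10,(nat_lit 254)),(k2,(nat_lit 318)),(k6,(nat_lit 318)),(k1,(nat_lit 320)),(k9,(nat_lit 378)),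
    (k5,(nat_lit 447))],[(k2,k192),(k10,k192),(k6,(nat_lit 200)),(k1,(nat_lit 258)),(k9,(nat_lit 260)),(k5,
    (nat_lit 321))],[(k3,k192),(k11,k192),(k4,(nat_lit 257)),(k8,(nat_lit 316)),(k0,(nat_lit 318)),(k7,
    (nat_lit 384))],[(k11,(nat_lit 319)),(k3,(nat_lit 321)),(k8,(nat_lit 443)),(k0,(nat_lit 447)),(k4,(nat_lit 448)),
    (k7,(nat_lit 575))],[(k2,(nat_lit 257)),(k10,(nat_lit 263)),(k6,(nat_lit 385)),(k5,(nat_lit 448)),(k1,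
    (nat_lit 513)),(k9,(nat_lit 517))],[(k10,k192),(k6,(nat_lit 254)),(k2,(nat_lit 384)),(k9,(nat_lit 386)),(k1,
    (nat_lit 442)),(k5,(nat_lit 575))],[(k3,(nat_lit 200)),(k7,(nat_lit 254)),(k11,(nat_lit 260)),(k0,(nat_lit 318)),
    (k8,(nat_lit 320)),(k4,(nat_lit 385))],[(k11,(nat_lit 254)),(k3,(nat_lit 260)),(k8,(nat_lit 314)),(k0,
    (nat_lit 378)),(k7,(nat_lit 386)),(k4,(nat_lit 517))],[(k10,(nat_lit 254)),(k1,(nat_lit 268)),(k9,(nat_lit 314)),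
    (k2,(nat_lit 316)),(k6,(nat_lit 320)),(k5,(nat_lit 443))],[(k2,k192),(k10,(nat_lit 240)),(k1,(nat_lit 254)),(k9,
    (nat_lit 254)),(k6,(nat_lit 260)),(k5,(nat_lit 319))],[(k3,k192),(k7,k192),(k11,(nat_lit 240)),(k0,(nat_lit 254)),
    (k8,(nat_lit 254)),(k4,(nat_lit 263))]]
    [] k0
    [[k2,k0,k0,k0,k0,k0],[k2,k1,k0,k0,k0,k0],[k2,k0,k0,k0,k0,k1],[k1,k1,k0,k0,k0,k0],[k1,k2,k0,k0,k0,k0],[k1,k2,k0,k0,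
    k0,k1],[k1,k1,k0,k0,k1,k0],[k1,k1,k0,k0,k0,k1],[k1,k1,k0,k0,k0,k2],[k1,k0,k0,k1,k0,k0],[k1,k0,k0,k1,k0,k1],[k1,k0,
    k0,k0,k1,k0],[k1,k0,k0,k0,k1,k1],[k1,k0,k0,k0,k0,k1],[k1,k0,k0,k0,k0,k2],[k0,k2,k0,k0,k0,k0],[k0,k3,k0,k0,k0,k0],
    [k0,k4,k0,k0,k0,k0],[k0,k3,k0,k0,k0,k1],[k0,k2,k1,k0,k0,k0],[k0,k2,k0,k1,k0,k0],[k0,k2,k0,k1,k0,k1],[k0,k2,k0,k0,
    k1,k0],[k0,k2,k0,k0,k1,k1],[k0,k2,k0,k0,k0,k1],[k0,k2,k0,k0,k0,k2],[k0,k1,k1,k0,k0,k0],[k0,k1,k1,k0,k0,k1],[k0,k1,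
    k0,k1,k0,k0],[k0,k1,k0,k2,k0,k0],[k0,k1,k0,k2,k0,k1],[k0,k1,k0,k1,k1,k0],[k0,k1,k0,k1,k0,k1],[k0,k1,k0,k1,k0,k2],
    [k0,k1,k0,k0,k1,k0],[k0,k1,k0,k0,k2,k0],[k0,k1,k0,k0,k1,k1],[k0,k1,k0,k0,k1,k2],[k0,k1,k0,k0,k0,k1],[k0,k1,k0,k0,
    k0,k2],[k0,k1,k0,k0,k0,k3],[k0,k0,k2,k0,k0,k0],[k0,k0,k1,k0,k0,k1],[k0,k0,k1,k1,k0,k1],[k0,k0,k1,k0,k0,k2],[k0,k0,
    k0,k2,k0,k0],[k0,k0,k0,k3,k0,k0],[k0,k0,k0,k2,k0,k1],[k0,k0,k0,k2,k0,k2],[k0,k0,k0,k1,k1,k0],[k0,k0,k0,k1,k1,k1],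
    [k0,k0,k0,k1,k0,k1],[k0,k0,k0,k1,k0,k2],[k0,k0,k0,k1,k0,k3],[k0,k0,k0,k0,k2,k0],[k0,k0,k0,k0,k3,k0],[k0,k0,k0,k0,
    k2,k1],[k0,k0,k0,k0,k1,k1],[k0,k0,k0,k0,k1,k2],[k0,k0,k0,k0,k0,k2],[k0,k0,k0,k0,k0,k3]]
    [.contra [z1],.ref k1 k2 [(z1,[z1,y1,y1])],.ref k1 k2 [(z1,[z1,y1])],.contra [y1,z0,z1,y1,z1],.contra [y1,z0,z1,
    y1,z1],.ref k179 k4 [(z1,[y1,z0,z0,y1,z1]),(z1,[z0,z0,z0,z1]),(z1,[z1,y1,z0,y1])],.ref k1 k2 [(z1,[z1,z0,y1])],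
    .contra [y1,z0,z0,y1,z1],.ref k179 k4 [(z1,[y1,z0,y1,y1,z1]),(z1,[z0,z0,z0,z1]),(z1,[z1,y1,z1,y1])],.contra [y1,
    z0,z1,y1,z1],.contra [y1,z0,z0,y1,z1],.contra [z1,z1],.ref k1 k2 [(z1,[z1])],.contra [y1,z0,z0,y1,z1],.contra [y1,
    z0,y1,y1,z1],.contra [z1],.ref (nat_lit 217) k8 [(z1,[z1]),(z1,[z0,z1,z0,z1])],.ref (nat_lit 314) k2 [(z1,[z0,
    z1]),(z2,[z1]),(z1,[z0,z0,z0,z1]),(z2,[y1,y2,z2,y2,z2])],.ref (nat_lit 314) k2 [(z1,[z0,z1]),(z2,[z1,z0,z1]),(z1,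
    [z0,z0,z0,z1]),(z2,[y1,y2,z1,y2,z2])],.ref (nat_lit 252) k1 [(z1,[z1,z2,z0,z2,y2]),(z1,[z0,y1,z0,y1,z1])],
    .contra [y1,z0,z1,y1,z1],.ref k0 k0 [(z1,[z1,z1,y1,z2,y1])],.contra [y1,y1,z1,y1,z1],.ref k179 k4 [(z1,[y1,y1,z0,
    y1,z1]),(z1,[z0,z0,z0,z1]),(z1,[z1,z0,z0,y1])],.ref (nat_lit 217) k8 [(z1,[z1,z0,z1]),(z1,[z0,z1,z0,z1])],
    .ref (nat_lit 314) k2 [(z1,[z0,z1]),(z2,[z1,z0,z2]),(z1,[z0,z0,z0,z1]),(z2,[y1,y2,z0,y2,z2])],.ref k0 k0 [(z1,[z1,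
    z0,y1])],.ref (nat_lit 252) k1 [(z1,[z1,z2,z1,z2,y2]),(z1,[z0,y1,z0,y1,z1])],.contra [y1,z0,z1,y1,z1],
    .ref (nat_lit 296) k4 [(z1,[z1,z0,y1,z1,y1]),(z1,[z0,z0,z0,z1])],.ref k178 k4 [(z1,[z1,z1,z0,z2,y1])],.contra [y1,
    y1,z1,y1,z1],.contra [y1,z0,z0,y1,z1],.ref k0 k0 [(z1,[z1,z1,z0,z2,y1])],.contra [y1,y1,z1,y1,z1],.ref k1 k2 [(z1,
    [z1,z1,y1])],.contra [y1,y1,z0,y1,z1],.ref k179 k4 [(z1,[y1,y1,y1,y1,z1]),(z1,[z0,z0,z0,z1]),(z1,[z1,z0,z1,y1])],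
    .contra [z1,z0,z1],.ref (nat_lit 217) k8 [(z1,[z1,z0,z2]),(z1,[z0,z1,z0,z1])],.ref (nat_lit 314) k2 [(z1,[z0,z1]),
    (z2,[z1,z0,z3]),(z1,[z0,z0,z0,z1]),(z2,[y1,y2,y1,y2,z2])],.contra [y1,z2,z0,z2],.ref k0 k0 [(z1,[z1])],
    .ref k1 k2 [(z1,[y1,z0,y1,z0,z1])],.ref (nat_lit 252) k1 [(z1,[z1,z2,z2,z2,y2]),(z1,[z0,y1,z0,y1,z1])],
    .contra [z1],.ref (nat_lit 217) k4 [(z1,[z1]),(z1,[z0,z0,z0,z1])],.ref (nat_lit 296) k4 [(z1,[z1,z0,z0,z1,y1]),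
    (z1,[z0,z0,z0,z1])],.ref k178 k4 [(z1,[z1,z1,z1,z2,y1])],.contra [y1,y1,z1,y1,z1],.contra [y1,y1,z0,y1,z1],
    .contra [y1,z0,z0,y1,z1],.contra [y1,z0,y1,y1,z1],.ref k0 k0 [(z1,[z1,z1,z1,z2,y1])],.contra [z1,z2],
    .ref (nat_lit 313) k6 [(z1,[z0,z0,y1]),(z1,[z1]),(z1,[y1,y3,z3,y3,z3]),(z1,[y1,z0,z0,z3])],.ref k1 k2 [(z1,[z1,
    z1])],.contra [y1,y1,z0,y1,z1],.contra [y1,y1,y1,y1,z1],.contra [z1,z0,z2],.ref (nat_lit 217) k8 [(z1,[z1,z0,z3]),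
    (z1,[z0,z1,z0,z1])]]),
    .old (.lp [(nat_lit 278),(nat_lit 396),(nat_lit 480),(nat_lit 242),(nat_lit 280),(nat_lit 242)] [k101,k101,k23,k61,k0,
    k0,k119,k119,k100,k100,k169,k69] k0 [[k0,k0,k0,k0,k0,k0,k0,k0,k0,k0,k38,k2],[k0,k0,k90,(nat_lit 202)],
    [(nat_lit 202),k0,k0,k0,k0,k0,k0,k0,k196],[k90,k0,k0,k0,k0,k128,k0,k0,k4],[k0,k0,k128],[k0,k0,k0,k0,k0,k0,k0,k4],
    [k0,k0,k0,k0,k4],[],[k0,k0,k0,k0,k0,k0,k0,k0,k0,k0,k78],[k0,k0,k4,k196],[k0,k2],[k0,k38,k0,k0,k0,k0,k0,k0,k0,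
    k78]] (nat_lit 960) k6
    [[(k8,(nat_lit 201)),(k0,(nat_lit 240)),(k7,(nat_lit 260)),(k11,(nat_lit 310)),(k3,(nat_lit 320)),(k4,
    (nat_lit 379))],[(k10,(nat_lit 208)),(k1,(nat_lit 240)),(k6,(nat_lit 260)),(k9,(nat_lit 279)),(k2,(nat_lit 446)),
    (k5,(nat_lit 581))],[(k2,k194),(k10,(nat_lit 288)),(k6,(nat_lit 300)),(k9,(nat_lit 319)),(k1,(nat_lit 320)),(k5,
    (nat_lit 329))],[(k11,k192),(k3,k194),(k8,(nat_lit 361)),(k0,(nat_lit 446)),(k4,(nat_lit 457)),(k7,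
    (nat_lit 466))],[(k3,(nat_lit 329)),(k4,(nat_lit 352)),(k7,(nat_lit 361)),(k11,(nat_lit 407)),(k8,(nat_lit 576)),
    (k0,(nat_lit 581))],[(k10,(nat_lit 311)),(k5,(nat_lit 352)),(k6,(nat_lit 361)),(k1,(nat_lit 379)),(k9,
    (nat_lit 384)),(k2,(nat_lit 457))],[(k10,k192),(k6,(nat_lit 238)),(k1,(nat_lit 260)),(k9,(nat_lit 261)),(k5,
    (nat_lit 361)),(k2,(nat_lit 466))],[(k7,(nat_lit 238)),(k0,(nat_lit 260)),(k8,(nat_lit 261)),(k11,(nat_lit 292)),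
    (k3,(nat_lit 300)),(k4,(nat_lit 361))],[(k7,(nat_lit 261)),(k0,(nat_lit 279)),(k8,(nat_lit 280)),(k11,
    (nat_lit 311)),(k3,(nat_lit 319)),(k4,(nat_lit 384))],[(k1,(nat_lit 201)),(k10,(nat_lit 211)),(k6,(nat_lit 261)),
    (k9,(nat_lit 280)),(k2,(nat_lit 361)),(k5,(nat_lit 576))],[(k2,k192),(k6,(nat_lit 292)),(k1,(nat_lit 310)),(k9,
    (nat_lit 311)),(k10,(nat_lit 320)),(k5,(nat_lit 407))],[(k7,k192),(k0,(nat_lit 208)),(k8,(nat_lit 211)),(k3,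
    (nat_lit 288)),(k4,(nat_lit 311)),(k11,(nat_lit 320))]]
    [] k0
    [[k2,k0,k0,k0,k0,k0],[k3,k0,k0,k0,k0,k0],[k2,k0,k0,k1,k0,k0],[k2,k0,k0,k0,k1,k0],[k2,k0,k0,k0,k0,k1],[k1,k1,k0,k0,
    k0,k0],[k1,k2,k0,k0,k0,k1],[k1,k1,k0,k0,k0,k1],[k1,k0,k0,k1,k0,k0],[k1,k0,k0,k2,k0,k0],[k1,k0,k0,k1,k1,k0],[k1,k0,
    k0,k1,k0,k1],[k1,k0,k0,k0,k1,k0],[k1,k1,k0,k0,k1,k1],[k1,k0,k0,k0,k2,k0],[k1,k0,k0,k0,k1,k1],[k1,k0,k0,k0,k0,k1],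
    [k1,k0,k0,k0,k0,k2],[k0,k2,k0,k0,k0,k0],[k0,k3,k0,k0,k0,k0],[k0,k4,k0,k0,k0,k0],[k0,k3,k0,k0,k0,k1],[k0,k2,k0,k1,
    k0,k1],[k0,k2,k0,k0,k1,k0],[k0,k2,k0,k0,k1,k1],[k0,k2,k0,k0,k0,k1],[k0,k1,k1,k0,k0,k0],[k0,k1,k1,k0,k0,k1],[k0,k1,
    k0,k1,k0,k0],[k0,k1,k0,k2,k0,k1],[k0,k1,k0,k1,k1,k0],[k0,k1,k0,k1,k0,k1],[k0,k1,k0,k0,k1,k0],[k0,k1,k0,k0,k1,k1],
    [k0,k1,k0,k0,k0,k1],[k0,k1,k0,k0,k0,k2],[k0,k0,k2,k0,k0,k0],[k0,k0,k1,k1,k0,k0],[k0,k0,k1,k0,k0,k1],[k0,k0,k0,k2,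
    k0,k0],[k0,k0,k0,k3,k0,k0],[k0,k0,k0,k4,k0,k0],[k0,k0,k0,k2,k1,k0],[k0,k0,k0,k2,k0,k1],[k0,k0,k0,k1,k1,k0],[k0,k0,
    k0,k1,k2,k0],[k0,k0,k0,k1,k1,k1],[k0,k0,k0,k1,k0,k1],[k0,k0,k0,k1,k0,k2],[k0,k0,k0,k0,k2,k0],[k0,k0,k0,k0,k3,k0],
    [k0,k0,k0,k0,k2,k1],[k0,k0,k0,k0,k1,k1],[k0,k0,k0,k0,k1,k2],[k0,k0,k0,k0,k0,k2]]
    [.contra [z1],.ref (nat_lit 252) k10 [(z1,[y1,z1,y2,z1]),(z1,[z0,z0,z0,y1,z1])],.contra [z1,z0,z1,z1,y1],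
    .ref (nat_lit 252) k10 [(z1,[y1,z0,y2,z1]),(z1,[z0,z0,z0,y1,z1])],.ref k1 k2 [(z1,[z1,y1])],.contra [y1,z0,z0,y1,
    z1],.ref k0 k0 [(z1,[y1,z1,z2,z1])],.contra [z1,z0,y1],.contra [y2,z1,y2,y1,z2],.contra [z1,z0,z1,z1,y1],
    .contra [z1,z1,z1,z1,y1],.contra [z1,z0,z1,z1,y1],.contra [z1,z1],.ref k178 k4 [(z1,[y1,z0,z0,z0,z1])],
    .ref (nat_lit 252) k10 [(z1,[y1,y1,y2,z1]),(z1,[z0,z0,z0,y1,z1])],.ref k1 k2 [(z1,[z1])],.contra [y1,z0,z0,y1,z1],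
    .ref (nat_lit 252) k1 [(z1,[y1,z3,z2,z3,y2]),(z1,[z0,y1,z0,y1,z1])],.contra [z1],.ref (nat_lit 217) k8 [(z1,[z1]),
    (z1,[z0,z1,z0,z1])],.ref (nat_lit 315) k2 [(z1,[z0,z1]),(z2,[z1,z0,y2]),(z1,[z0,z0,z0,z1])],
    .ref (nat_lit 315) k2 [(z1,[z0,z1]),(z1,[z1,z0,y2]),(z1,[z0,z0,z0,z1])],.ref k178 k10 [(z1,[z1,z1,z0,z2,y1])],
    .ref (nat_lit 252) k2 [(z1,[z1,z3,z0,z2,y2]),(z1,[z0,y1,z0,y1,z1])],.ref k0 k0 [(z1,[y1,z0,z2,z1])],.contra [z1,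
    z0,y1],.ref k178 k10 [(z1,[z1])],.contra [y1,z1,z1,z1],.contra [y1,z0,z0,y1,z1],.ref k178 k4 [(z1,[z1,z1,z0,z2,
    y1])],.contra [z1,z1,z1,z1,y1],.contra [z1,z0,y1],.contra [y1,y1,z0,y1,z1],.contra [z1,z1,y1],.contra [y2,z1,z2,
    z1],.contra [z1,z0,y1],.contra [y1,z2,z0,z2],.ref k178 k4 [(z1,[z1])],.ref k0 k0 [(z1,[z1])],.contra [z1],
    .ref (nat_lit 217) k4 [(z1,[z1]),(z1,[z0,z0,z0,z1])],.ref k178 k4 [(z2,[z1,z2,z2,z4,y2])],.contra [z1,z1,z1,z1,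
    y1],.ref (nat_lit 296) k4 [(z1,[z1,z0,z0,z1,y1]),(z1,[z0,z0,z0,z1])],.contra [y2,y1,y2,y1,z2],.contra [z1,z2,z1,
    z1,y1],.contra [z1,z1,z1,z1,y1],.contra [y1,z0,z0,y1,z1],.ref (nat_lit 312) k6 [(z1,[z1,z0,z0,z1,y1]),(z1,[z0,
    y1]),(z1,[y1,z0,z0,y2,z2])],.contra [z1,z2],.ref (nat_lit 252) k10 [(z1,[y1,y2,y2,z1]),(z1,[z0,z0,z0,y1,z1])],
    .ref k1 k2 [(z1,[z1,z1])],.contra [y1,y1,z0,y1,z1],.ref (nat_lit 252) k1 [(z1,[y1,z2,z2,z3,y2]),(z1,[z0,y1,z0,y1,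
    z1])],.contra [z1]]),
    .geo true z3 k4 [(y2,z6),(z2,z0),(z6,y9),(z2,z0),(z0,z3),(z4,z0)] [(z1,[z1]),(z1,[z0,z1]),(z1,[z0,z0,z3]),(z1,[z0,z0,
    z0,z1]),(z1,[]),(z1,[y1,y1,y3,y1,
    z3])] (Int.ofNat (nat_lit 349525)) (Int.ofNat (nat_lit 699051)) (.s (.s (.l k1) (.l k1)) (.l k1)) [],
    .geo true z1 k5 [(y4,z6),(z0,z1),(z2,y2),(z2,y1),(z4,y5),(z0,z1)] [(z1,[z1]),(z1,[z0,z1]),(z1,[z0,z0,z1]),(z1,[z0,z0,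
    z0,z1]),(z1,[y1,y1,y1,y1,z1]),(z1,
    [])] (Int.ofNat (nat_lit 699050)) (Int.ofNat (nat_lit 838861)) (.s (.l k1) (.l k1)) []]

noncomputable def cU6_2_n5_2 : List XN :=
  [.geo true z2 k5 [(y1,z4),(z4,y6),(y1,z4),(z1,z0),(z5,y4),(z0,z2)] [(z1,[z1]),(z1,[z0,z2]),(z1,[z0,z0,z1]),(z1,[z0,z0,
    z0,z1]),(z1,[y1,y2,y1,y1,z2]),(z1,
    [])] (Int.ofNat (nat_lit 262144)) (Int.ofNat (nat_lit 699051)) (.s (.s (.s (.s (.s (.l k2) (.l k1)) (.l k1)) (.l k1)) (.l k1)) (.l k1)) [⟨z1,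
    z4,[[k0,k5],[k1,k2],[k3,k4]],.bnd k0⟩],
    .old (.lp [(nat_lit 234103725274022208),(nat_lit 268243851876483780),(nat_lit 154048837558957440),
    (nat_lit 260115250304469120),(nat_lit 260839805319244800),
    (nat_lit 382857134041890486)] [(nat_lit 121738729728389499),(nat_lit 27014679039478779),
    (nat_lit 57306641082703353),(nat_lit 57306641082703353),(nat_lit 114404148241466523),(nat_lit 114404148241466523),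
    (nat_lit 91473300212551323),(nat_lit 31268583524870043),(nat_lit 61008664361322843),(nat_lit 61008664361322843),
    k0,k0] k0 [[k0,k0,k0,k0,k0,k0,k0,k0,k0,k0,(nat_lit 78034575091340736)],[k0,k0,k0,(nat_lit 39411401561283200)],
    [(nat_lit 39411401561283200),k0,k0,k0,(nat_lit 138186226724249220)],[k0,k0,k0,k0,(nat_lit 15844583774891520),k0,
    k0,k0,(nat_lit 22760084401641048),(nat_lit 51210189903692358)],[k0,k0,k0,k0,k0,k0,k0,(nat_lit 8128601572014660),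
    k0,k0,(nat_lit 85350316506153930),(nat_lit 26011525030446912)],[k0,k0,(nat_lit 15844583774891520),
    (nat_lit 138186226724249220)],[k0,k0,k0,k0,k0,(nat_lit 8128601572014660)],[k0,k0,k0,k0,k0,k0,k0,k0,
    (nat_lit 129649920998152320),(nat_lit 52023050060893824)],[k0,k0,(nat_lit 51210189903692358),k0,k0,k0,
    (nat_lit 52023050060893824),k0,k0,k0,k0,(nat_lit 163384891597494666)],[k0,k0,(nat_lit 22760084401641048),k0,k0,k0,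
    (nat_lit 129649920998152320),k0,k0,k0,k0,(nat_lit 77221714934139270)],[k0,k0,k0,k0,k0,(nat_lit 26011525030446912),
    k0,k0,(nat_lit 77221714934139270),(nat_lit 163384891597494666)],[k0,(nat_lit 78034575091340736),k0,k0,k0,
    (nat_lit 85350316506153930)]] (nat_lit 780345750913407360) k6
    [[(k0,(nat_lit 156069150182681472)),(k4,(nat_lit 156087990254791254)),(k3,(nat_lit 298535813919708354)),(k7,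
    (nat_lit 350585396507988576)),(k8,(nat_lit 372055505575228134)),(k11,(nat_lit 519227346599906373))],[(k1,
    (nat_lit 156069150182681472)),(k6,(nat_lit 169645104100949664)),(k5,(nat_lit 186125657633317664)),(k9,
    (nat_lit 200109739952178144)),(k2,(nat_lit 203811763230797634)),(k10,(nat_lit 261118404313500987))],[(k5,
    (nat_lit 211146344717720610)),(k2,(nat_lit 228832450315200580)),(k6,(nat_lit 234077192746635810)),(k9,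
    (nat_lit 264541828597864290)),(k1,(nat_lit 298535813919708354)),(k10,(nat_lit 403585068050527869))],[(k7,
    (nat_lit 156095682710067870)),(k0,(nat_lit 203811763230797634)),(k4,(nat_lit 226990928492612130)),(k3,
    (nat_lit 228832450315200580)),(k8,(nat_lit 287301912999505338)),(k11,(nat_lit 376760682862879491))],[(k8,
    (nat_lit 156234131535408762)),(k0,(nat_lit 186125657633317664)),(k3,(nat_lit 211146344717720610)),(k7,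
    (nat_lit 221339818500662400)),(k11,(nat_lit 245692901398782915)),(k4,(nat_lit 292235064283206660))],[(k1,
    (nat_lit 156087990254791254)),(k6,(nat_lit 168851084015857980)),(k9,(nat_lit 207444321439101120)),(k2,
    (nat_lit 226990928492612130)),(k10,(nat_lit 242441460769977051)),(k5,(nat_lit 292235064283206660))],[(k2,
    (nat_lit 156095682710067870)),(k5,(nat_lit 221339818500662400)),(k6,(nat_lit 260115250304469120)),(k9,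
    (nat_lit 298708487727712260)),(k1,(nat_lit 350585396507988576)),(k10,(nat_lit 436938867023174373))],[(k4,
    (nat_lit 168851084015857980)),(k0,(nat_lit 169645104100949664)),(k3,(nat_lit 234077192746635810)),(k7,
    (nat_lit 260115250304469120)),(k11,(nat_lit 343406883890232987)),(k8,(nat_lit 360025090466168640))],[(k11,
    (nat_lit 192198548682415323)),(k0,(nat_lit 200109739952178144)),(k4,(nat_lit 207444321439101120)),(k8,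
    (nat_lit 208816755258350976)),(k3,(nat_lit 264541828597864290)),(k7,(nat_lit 298708487727712260))],[(k5,
    (nat_lit 156234131535408762)),(k10,(nat_lit 158463578083072977)),(k9,(nat_lit 208816755258350976)),(k2,
    (nat_lit 287301912999505338)),(k6,(nat_lit 360025090466168640)),(k1,(nat_lit 372055505575228134))],[(k9,
    (nat_lit 192198548682415323)),(k5,(nat_lit 245692901398782915)),(k10,(nat_lit 305635419107751216)),(k6,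
    (nat_lit 343406883890232987)),(k2,(nat_lit 376760682862879491)),(k1,(nat_lit 519227346599906373))],[(k8,
    (nat_lit 158463578083072977)),(k4,(nat_lit 242441460769977051)),(k0,(nat_lit 261118404313500987)),(k11,
    (nat_lit 305635419107751216)),(k3,(nat_lit 403585068050527869)),(k7,(nat_lit 436938867023174373))]]
    [] k0
    [[k2,k0,k0,k0,k0,k0],[k3,k0,k0,k0,k0,k0],[k4,k0,k0,k0,k0,k0],[k3,k0,k1,k0,k0,k0],[k2,k1,k0,k0,k0,k0],[k2,k0,k1,k0,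
    k0,k0],[k2,k1,k1,k0,k0,k0],[k2,k0,k1,k1,k0,k0],[k2,k0,k1,k0,k1,k0],[k2,k0,k0,k1,k0,k0],[k2,k0,k0,k0,k1,k0],[k1,k1,
    k0,k0,k0,k0],[k1,k2,k0,k0,k0,k0],[k1,k1,k1,k0,k0,k0],[k1,k1,k0,k1,k0,k0],[k1,k0,k1,k0,k0,k0],[k2,k0,k2,k0,k0,k0],
    [k1,k1,k1,k1,k0,k0],[k1,k0,k2,k0,k0,k0],[k1,k0,k1,k1,k0,k0],[k1,k0,k2,k1,k0,k0],[k1,k0,k1,k0,k1,k0],[k1,k0,k2,k0,
    k1,k0],[k1,k0,k1,k0,k2,k0],[k1,k0,k1,k0,k1,k1],[k1,k0,k1,k0,k0,k1],[k1,k0,k0,k1,k0,k0],[k1,k0,k0,k0,k1,k0],[k0,k2,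
    k0,k0,k0,k0],[k0,k3,k0,k0,k0,k0],[k0,k2,k1,k0,k0,k0],[k0,k2,k1,k1,k0,k0],[k0,k2,k0,k1,k0,k0],[k0,k1,k1,k0,k0,k0],
    [k0,k1,k2,k0,k0,k0],[k0,k1,k1,k1,k0,k0],[k0,k1,k1,k0,k1,k0],[k0,k1,k0,k1,k0,k0],[k0,k1,k0,k2,k0,k0],[k0,k1,k0,k0,
    k1,k0],[k0,k1,k1,k1,k1,k0],[k0,k1,k0,k0,k2,k0],[k0,k0,k2,k0,k0,k0],[k0,k0,k2,k1,k0,k0],[k0,k0,k2,k0,k1,k0],[k0,k0,
    k1,k1,k0,k0],[k0,k0,k2,k1,k1,k0],[k0,k0,k1,k2,k0,k0],[k0,k0,k1,k0,k1,k0],[k0,k0,k2,k0,k2,k0],[k0,k0,k1,k1,k1,k0],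
    [k0,k0,k1,k0,k2,k0],[k0,k0,k1,k0,k1,k1],[k0,k0,k1,k0,k2,k1],[k0,k0,k1,k0,k0,k1],[k0,k0,k0,k2,k0,k0],[k0,k0,k0,k1,
    k1,k0],[k0,k0,k0,k0,k2,k0],[k0,k0,k0,k0,k3,k0],[k0,k0,k0,k0,k3,k1],[k0,k0,k0,k0,k2,k1],[k0,k0,k0,k0,k1,k1],[k0,k0,
    k0,k0,k2,k2],[k0,k0,k0,k0,k1,k2],[k0,k0,k0,k0,k0,k2]]
    [.contra [z1],.ref (nat_lit 217) k2 [(z1,[z1]),(z1,[z0,z0,z1])],.ref (nat_lit 319) k5 [(z2,[y1,z0,y4,y4,z4]),(z1,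
    [z0,z0,z0,z1]),(z2,[y1,z4,z4]),(z2,[z1])],.ref k178 k2 [(z3,[z2,y3,z0,y2])],.ref (nat_lit 252) k11 [(z1,[z1,z0,z2,
    z0,y2]),(z1,[z0,z0,y1,z0,z1])],.ref (nat_lit 296) k2 [(z1,[z1,z0,z1,z0,y1]),(z1,[z0,z0,z1])],.ref k178 k2 [(z1,
    [z2,y3,y2,y2])],.ref k178 k2 [(z1,[z2,y1,z2,z0,y2])],.ref k178 k2 [(z1,[z1,y1,z0,y1])],
    .ref (nat_lit 252) k11 [(z1,[z1,z1,z4,z1,y3]),(z1,[z0,z0,y1,z0,z1])],.ref (nat_lit 296) k7 [(z1,[z1,z0,z1,z0,y1]),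
    (z1,[z0,z0,z1])],.contra [z1,y1,y1],.ref (nat_lit 252) k4 [(z1,[z1,y4,y5,y3,z1]),(z1,[z0,z1,z1,z1])],.contra [y2,
    z3,z3,z2],.ref (nat_lit 252) k4 [(z1,[z1,y3,y3,y2]),(z1,[z0,z1,z1,z1])],.contra [y2,z3,z3,z2],
    .ref (nat_lit 316) k11 [(z1,[z0,z1,z2,z1,y1]),(z2,[z1]),(z1,[z0,y1,y1,y1,z1])],.ref k178 k2 [(z1,[y2,z1,z0,z0,
    z2])],.ref (nat_lit 312) k1 [(z1,[z1,z0,z1,z0,y1]),(z1,[z0,z1,z2,z1,y1]),(z1,[y1,z0,y2,z0,z2])],.contra [y2,z1,y1,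
    z0,z2],.ref (nat_lit 315) k4 [(z1,[z0,y1,y2,y1,z1]),(z1,[y1,z0,y1,z0,z1]),(z1,[z0,z0,z1])],.contra [y1,z1,z1,z1],
    .ref k0 k0 [(z1,[z1,y1,z0,y1])],.ref k178 k2 [(z1,[z2,y1,z0,y2])],.contra [y1,z1,z2,z1],
    .ref (nat_lit 318) k10 [(z1,[z3,y3,y6,y2]),(z1,[z0,y1,y2,y1,z1]),(z1,[y1,z1,z2,z1]),(z1,[z0,z0,z1])],.contra [z1,
    z0,z1,z1,y1],.contra [y1,z1,z1,z1],.contra [z1],.ref (nat_lit 317) k2 [(z1,[y1,z3,z3]),(z1,[z1]),(z1,[z0,z0,z0,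
    z1]),(z1,[z1,y3,y6,y3,z3])],.ref k1 k2 [(z1,[y1,z1,z2,z1])],.ref k178 k2 [(z3,[y2,z1,z2,z0,z2])],
    .ref (nat_lit 317) k2 [(z1,[y1,z2,z1,y1,z1]),(z1,[z1,z1,z2,z1,y1]),(z1,[z0,z0,z0,z1]),(z1,[z1,y2,y4,y2,z2])],
    .contra [y2,z3,z3,z2],.ref (nat_lit 305) k10 [(z1,[z1]),(z1,[z0,y1,y2,y1,z1]),(z1,[y1,z2,z2,z2])],.ref k1 k2 [(z1,
    [y1,z0,z0,z0,z1])],.contra [y1,z1,z1,z1],.contra [z1,z1,z2,z1,y1],.ref (nat_lit 317) k2 [(z1,[y1,z1,y1,y2,z2]),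
    (z1,[z1,z2,z4,z2,y2]),(z1,[z0,z0,z0,z1]),(z1,[z1,y1,y2,y1,z1])],.contra [y1,z1,z1,z1],.ref k178 k2 [(z1,[y1,z0,z0,
    z0,z1])],.ref (nat_lit 252) k4 [(z1,[z1,y3,y4,y3,z1]),(z1,[z0,z1,z1,z1])],.contra [z1],
    .ref (nat_lit 305) k10 [(z1,[z1,z1,z2,z1,y1]),(z1,[z0,y1,y2,y1,z1]),(z1,[y1,z1,z0,z1,z1])],
    .ref (nat_lit 312) k10 [(z1,[z1,y1,y1,y1]),(z1,[z0,y1,y2,y1,z1]),(z1,[y1,z2,z2,z2])],.contra [y2,z1,y1,z0,z2],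
    .ref (nat_lit 315) k11 [(z1,[z0,z1,z2,z1,y1]),(z1,[y1,z0,y1,z0,z1]),(z1,[z0,y1,y1,y1,z1])],.ref k1 k2 [(z1,[y1,y1,
    y2,y1,z2])],.contra [y1,z1,z1,z1],.ref (nat_lit 315) k4 [(z1,[z0,y1,y2,y1,z1]),(z1,[y1,z0,z0,z1]),(z1,[z0,z0,
    z1])],.contra [y1,z0,y1,z0,z1],.contra [y2,z1,z1,z2],.ref (nat_lit 252) k4 [(z1,[y1,y3,y3,y2,z1]),(z1,[z0,z1,z1,
    z1])],.contra [z1,z1],.ref k0 k0 [(z1,[z1])],.contra [z1,z2,z4,z2,y2],.contra [y1,z0,y1,z0,z1],.contra [z1],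
    .contra [y1,z0,z0,z1],.contra [z2,z3,z1],.contra [z1,z1],.ref k178 k2 [(z1,[z2,z1])],.contra [z2,z5,z1,z2],
    .contra [z1,z2,z0,z1],.contra [y1,z0,z2]]),
    .geo true z4 k4 [(z2,z0),(z3,z0),(z3,y4),(z3,z0),(z0,z4),(z5,z0)] [(z1,[z2]),(z1,[z0,z1]),(z1,[z0,z0,z1]),(z1,[z0,z0,
    z0,z1]),(z1,[]),(z1,[y2,y1,y1,y1,z4])] z0 (Int.ofNat (nat_lit 786432)) (.s (.l k1) (.l k1)) [],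
    .geo true z6 k4 [(z3,z0),(z4,z0),(z5,y6),(z4,z0),(z0,z6),(z8,z0)] [(z1,[z3]),(z1,[z0,z2]),(z1,[z0,z0,z1]),(z1,[z0,z0,
    z0,z2]),(z1,[]),(z1,[y3,y2,y1,y2,z6])] z0 (Int.ofNat (nat_lit 873814)) (.s (.l k1) (.l k1)) [],
    .geo true z2 k5 [(y4,z4),(z4,y2),(z3,y2),(z4,y2),(z1,z0),(z0,z2)] [(z1,[z2]),(z1,[z0,z2]),(z1,[z0,z0,z1]),(z1,[z0,z0,
    z0,z2]),(z1,[y2,y2,y1,y2,z2]),(z1,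
    [])] (Int.ofNat (nat_lit 1048576)) (Int.ofNat (nat_lit 1572864)) (.s (.s (.l k1) (.l k1)) (.l k1)) [],
    .old (.lp [(nat_lit 4570),(nat_lit 2932),(nat_lit 6898),(nat_lit 2380),(nat_lit 4008),(nat_lit 2228)] [(nat_lit 1164),
    (nat_lit 1164),(nat_lit 1721),(nat_lit 2245),k0,k0,(nat_lit 2259),(nat_lit 2259),(nat_lit 1445),(nat_lit 1445),
    (nat_lit 2335),(nat_lit 2335)] k0 [[],[k0,k0,k0,k52,k0,k0,k0,k0,k0,k0,k52],[k52,k0,k0,k0,k0,k0,k0,k0,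
    (nat_lit 538)],[k0,k0,k0,k0,k34,(nat_lit 1610),k0,k0,(nat_lit 572)],[k0,k0,(nat_lit 1610),k0,k0,k0,k0,
    (nat_lit 1628)],[k0,k0,k34,k0,k0,k0,k0,k76],[k0,k0,k0,k0,k76,(nat_lit 1628)],[k0,k0,k0,k0,k0,k0,k0,k0,
    (nat_lit 590)],[k0,k0,k0,k0,k0,k0,k0,k0,k0,k0,(nat_lit 1628),(nat_lit 814)],[k0,k0,(nat_lit 572),(nat_lit 538),k0,
    k0,(nat_lit 590)],[k0,k0,k0,k0,k0,k0,k0,k0,k0,(nat_lit 814)],[k52,k0,k0,k0,k0,k0,k0,k0,k0,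
    (nat_lit 1628)]] (nat_lit 11520) k6
    [[(k8,(nat_lit 2661)),(k3,(nat_lit 3437)),(k7,(nat_lit 3475)),(k11,(nat_lit 4213)),(k0,(nat_lit 4570)),(k4,
    (nat_lit 5734))],[(k10,(nat_lit 3451)),(k6,(nat_lit 3475)),(k2,(nat_lit 4013)),(k9,(nat_lit 4289)),(k1,
    (nat_lit 4570)),(k5,(nat_lit 5786))],[(k10,(nat_lit 2318)),(k6,(nat_lit 2394)),(k2,(nat_lit 2880)),(k9,
    (nat_lit 3208)),(k1,(nat_lit 3437)),(k5,(nat_lit 4653))],[(k11,(nat_lit 2304)),(k3,(nat_lit 2880)),(k0,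
    (nat_lit 4013)),(k8,(nat_lit 4304)),(k7,(nat_lit 4528)),(k4,(nat_lit 5211))],[(k11,(nat_lit 3991)),(k7,
    (nat_lit 4605)),(k3,(nat_lit 4653)),(k4,(nat_lit 5288)),(k0,(nat_lit 5786)),(k8,(nat_lit 5991))],[(k6,
    (nat_lit 3011)),(k10,(nat_lit 4563)),(k2,(nat_lit 5211)),(k5,(nat_lit 5288)),(k9,(nat_lit 5529)),(k1,
    (nat_lit 5734))],[(k6,(nat_lit 2304)),(k10,(nat_lit 2304)),(k1,(nat_lit 3475)),(k2,(nat_lit 4528)),(k5,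
    (nat_lit 4605)),(k9,(nat_lit 4822))],[(k7,(nat_lit 2304)),(k11,(nat_lit 2304)),(k3,(nat_lit 2394)),(k4,
    (nat_lit 3011)),(k0,(nat_lit 3475)),(k8,(nat_lit 3784))],[(k11,(nat_lit 2528)),(k3,(nat_lit 3208)),(k8,
    (nat_lit 4008)),(k0,(nat_lit 4289)),(k7,(nat_lit 4822)),(k4,(nat_lit 5529))],[(k10,(nat_lit 2304)),(k1,
    (nat_lit 2661)),(k6,(nat_lit 3784)),(k9,(nat_lit 4008)),(k2,(nat_lit 4304)),(k5,(nat_lit 5991))],[(k2,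
    (nat_lit 2304)),(k6,(nat_lit 2304)),(k9,(nat_lit 2528)),(k10,(nat_lit 3856)),(k5,(nat_lit 3991)),(k1,
    (nat_lit 4213))],[(k7,(nat_lit 2304)),(k8,(nat_lit 2304)),(k3,(nat_lit 2318)),(k0,(nat_lit 3451)),(k11,
    (nat_lit 3856)),(k4,(nat_lit 4563))]]
    [] k0
    [[k2,k0,k0,k0,k0,k0],[k1,k1,k0,k0,k0,k0],[k1,k2,k0,k0,k0,k0],[k1,k1,k0,k1,k0,k0],[k1,k1,k0,k0,k0,k1],[k1,k0,k0,k1,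
    k0,k0],[k1,k0,k0,k2,k0,k0],[k1,k0,k0,k1,k0,k1],[k1,k0,k0,k0,k1,k0],[k1,k1,k0,k0,k1,k0],[k1,k0,k0,k1,k1,k0],[k1,k0,
    k0,k0,k2,k0],[k1,k0,k0,k0,k1,k1],[k1,k0,k0,k1,k1,k1],[k1,k0,k0,k0,k0,k1],[k0,k2,k0,k0,k0,k0],[k0,k3,k0,k0,k0,k0],
    [k0,k3,k0,k0,k0,k1],[k0,k2,k0,k1,k0,k0],[k0,k2,k0,k1,k0,k1],[k0,k2,k0,k0,k1,k0],[k0,k2,k0,k0,k1,k1],[k0,k2,k0,k0,
    k0,k1],[k0,k2,k0,k0,k0,k2],[k0,k1,k1,k0,k0,k0],[k0,k1,k0,k1,k0,k0],[k0,k1,k0,k2,k0,k0],[k0,k1,k0,k2,k0,k1],[k0,k1,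
    k0,k1,k0,k1],[k0,k1,k0,k1,k0,k2],[k0,k1,k0,k0,k1,k0],[k0,k1,k0,k0,k1,k1],[k0,k1,k0,k0,k0,k1],[k0,k1,k0,k0,k1,k2],
    [k0,k1,k0,k0,k0,k2],[k0,k0,k2,k0,k0,k0],[k0,k0,k1,k1,k0,k0],[k0,k0,k1,k2,k0,k0],[k0,k0,k1,k1,k0,k1],[k0,k0,k1,k0,
    k0,k1],[k0,k0,k0,k2,k0,k0],[k0,k0,k0,k3,k0,k0],[k0,k0,k0,k4,k0,k0],[k0,k0,k0,k3,k0,k1],[k0,k0,k0,k2,k1,k0],[k0,k0,
    k0,k2,k0,k1],[k0,k0,k0,k2,k1,k1],[k0,k0,k0,k2,k0,k2],[k0,k0,k0,k1,k1,k0],[k0,k0,k0,k1,k1,k1],[k0,k0,k0,k1,k0,k1],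
    [k0,k0,k0,k1,k1,k2],[k0,k0,k0,k1,k0,k2],[k0,k0,k0,k0,k2,k0],[k0,k0,k0,k0,k2,k1],[k0,k0,k0,k0,k1,k1],[k0,k0,k0,k0,
    k2,k2],[k0,k0,k0,k0,k1,k2],[k0,k0,k0,k0,k0,k2]]
    [.contra [z1],.contra [y1,z0,z0,y1,z1],.contra [z1,z0,y1],.contra [y1,z0,z0,y1,z1],.contra [y1,z0,z0,y1,z1],
    .contra [y1,z0,z0,y1,z1],.ref (nat_lit 252) k9 [(z1,[z1,y1,z0,z2,y2]),(z1,[z0,z0,z0,y1,z1])],.contra [z1,z0,z1,z1,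
    y1],.contra [z1,z1],.ref (nat_lit 321) k11 [(z1,[z0,z0,z1]),(z1,[z2,z2,y1]),(z1,[y2,y2,y1,y4,z4]),(z1,[z2,y2,
    y1])],.ref (nat_lit 323) k4 [(z1,[z1,y1,z0,y2]),(z1,[z0,z0,z0,z1]),(z1,[y2,z0,y1,z0,z2]),(z1,[z0,z1,z0,z1])],
    .ref (nat_lit 322) k11 [(z1,[z0,z0,z1]),(z1,[z1,z2]),(z1,[y2,y4,y3,y6,z6]),(z1,[z1,y1])],.ref k1 k2 [(z1,[z1])],
    .ref k178 k10 [(z1,[y1,z0,z0,z0,z1])],.contra [y1,z0,z0,y1,z1],.contra [z1],.contra [z1,z0,y1],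
    .ref (nat_lit 315) k2 [(z1,[z0,z1]),(z1,[y1,z0,z2]),(z1,[z0,z0,z0,z1])],.contra [z1,z0,y1],.ref k178 k10 [(z1,[z1,
    z1,z0,z2,y1])],.contra [z1,z1,y1],.ref k179 k4 [(z1,[y1,y1,z0,y1,z1]),(z1,[z0,z0,z0,z1]),(z1,[z1,z0,z0,y1])],
    .contra [z1,z0,y1],.ref (nat_lit 315) k2 [(z1,[z0,z1]),(z2,[y1,z0,z2]),(z1,[z0,z0,z0,z1])],.ref k178 k10 [(z1,
    [z1])],.contra [y1,z0,z0,y1,z1],.ref (nat_lit 296) k5 [(z1,[z1,z0,z0,z1,y1]),(z1,[z0,z0,z0,z1])],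
    .ref k178 k4 [(z1,[z1,z1,z0,z2,y1])],.contra [y1,z0,z0,y1,z1],.ref k0 k0 [(z1,[z1,z1,z0,z2,y1])],.contra [y1,y1,
    z0,y1,z1],.contra [y1,y1,z0,y1,z1],.contra [y1,z0,z0,y1,z1],.ref (nat_lit 315) k9 [(z1,[z0,y1]),(z1,[y1,y1,z0,y1,
    z1]),(z1,[z0,z1,z0,z1])],.ref (nat_lit 312) k0 [(z1,[z1,z1,z0,z1,y1]),(z1,[z0,z1]),(z1,[y1,y2,z0,y2,z2])],
    .contra [y1,z2,z0,z2],.ref k178 k4 [(z1,[z1])],.ref (nat_lit 252) k10 [(z1,[z1,z0,z0,z2,y2]),(z1,[z0,z0,z0,y1,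
    z1])],.ref (nat_lit 321) k11 [(z1,[z0,z0,z1]),(z1,[y2,z2,y1,z0,z2]),(z1,[z2,y2,y1,y4,z2]),(z1,[y2,y2,y1,z0,z2])],
    .ref k0 k0 [(z1,[z1])],.contra [z1],.ref (nat_lit 217) k4 [(z1,[z1]),(z1,[z0,z0,z0,z1])],.ref k179 k4 [(z4,[z1,z0,
    y2]),(z1,[z0,z0,z0,z1]),(z4,[y1,y4,z2,y8,z4])],.ref (nat_lit 320) k11 [(z1,[y1,y1,z0,y2,z1]),(z1,[z0,z1,z0,z1]),
    (z1,[z1])],.ref (nat_lit 252) k9 [(z1,[z1,z0,z0,z2,y2]),(z1,[z0,z0,z0,y1,z1])],.ref (nat_lit 296) k4 [(z1,[z1,z0,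
    z0,z1,y1]),(z1,[z0,z0,z0,z1])],.ref k179 k4 [(z1,[z1,z1,z0,z1,y1]),(z1,[z0,z0,z0,z1]),(z1,[y1,y2,z0,y3,z2])],
    .ref k178 k10 [(z2,[z1,z2,z2,z4,y2])],.contra [y1,y1,z0,y1,z1],.contra [z1,z1,z1,z1,y1],.contra [y1,z0,z0,y1,z1],
    .ref (nat_lit 315) k2 [(z1,[z0,z1]),(z1,[y1,y1,z0,y1,z1]),(z1,[z0,z0,z0,z1])],.ref (nat_lit 312) k6 [(z1,[z1,z0,
    z0,z1,y1]),(z1,[z0,y1]),(z1,[y1,z0,z0,y2,z2])],.contra [z1,z2],.ref k1 k2 [(z1,[z1,z1])],.contra [y1,y1,z0,y1,z1],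
    .ref k179 k4 [(z2,[y1,y2,y2,y2,z2]),(z1,[z0,z0,z0,z1]),(z2,[z1,z0,z2,y2])],.ref (nat_lit 305) k0 [(z1,[z1]),(z1,
    [z0,z1]),(z1,[y1,y2,z0,y2,z2])],.contra [z1]]),
    .old (.lp [(nat_lit 1886),(nat_lit 1028),(nat_lit 2880),(nat_lit 1046),(nat_lit 1844),(nat_lit 906)] [(nat_lit 497),
    (nat_lit 497),(nat_lit 926),(nat_lit 926),k0,k0,(nat_lit 917),(nat_lit 917),(nat_lit 518),(nat_lit 518),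
    (nat_lit 994),(nat_lit 980)] k0 [[],[k0,k0,k0,k34],[k34,k0,k0,k0,k0,k0,k0,k0,k14],[k0,k0,k0,k0,k0,(nat_lit 1742)],
    [k0,k0,(nat_lit 1742),k0,k0,k0,k0,(nat_lit 922)],[k0,k0,k0,k0,k0,k0,k0,k62],[k0,k0,k0,k0,k62,(nat_lit 922)],[k0,
    k0,k0,k0,k0,k0,k0,k0,k24,(nat_lit 880)],[k0,k0,k0,k0,k0,k0,(nat_lit 880),k0,k0,k0,(nat_lit 776),(nat_lit 326)],
    [k0,k0,k0,k14,k0,k0,k24],[k0,k0,k0,k0,k0,k0,k0,k0,k0,(nat_lit 326)],[k0,k0,k0,k0,k0,k0,k0,k0,k0,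
    (nat_lit 776)]] (nat_lit 4800) k6
    [[(k8,(nat_lit 1089)),(k3,(nat_lit 1457)),(k7,(nat_lit 1466)),(k11,(nat_lit 1729)),(k0,(nat_lit 1886)),(k4,
    (nat_lit 2383))],[(k10,(nat_lit 1389)),(k2,(nat_lit 1457)),(k6,(nat_lit 1466)),(k9,(nat_lit 1865)),(k1,
    (nat_lit 1886)),(k5,(nat_lit 2417))],[(k10,(nat_lit 960)),(k2,(nat_lit 994)),(k6,(nat_lit 1037)),(k9,
    (nat_lit 1436)),(k1,(nat_lit 1457)),(k5,(nat_lit 1954))],[(k11,(nat_lit 960)),(k3,(nat_lit 994)),(k8,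
    (nat_lit 1436)),(k0,(nat_lit 1457)),(k4,(nat_lit 1954)),(k7,(nat_lit 2779))],[(k4,(nat_lit 1138)),(k11,
    (nat_lit 1900)),(k3,(nat_lit 1954)),(k7,(nat_lit 1963)),(k8,(nat_lit 2376)),(k0,(nat_lit 2417))],[(k6,
    (nat_lit 1041)),(k5,(nat_lit 1138)),(k10,(nat_lit 1886)),(k2,(nat_lit 1954)),(k1,(nat_lit 2383)),(k9,
    (nat_lit 2424))],[(k10,(nat_lit 969)),(k6,(nat_lit 984)),(k1,(nat_lit 1466)),(k5,(nat_lit 1963)),(k9,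
    (nat_lit 2367)),(k2,(nat_lit 2779))],[(k7,(nat_lit 984)),(k3,(nat_lit 1037)),(k4,(nat_lit 1041)),(k0,
    (nat_lit 1466)),(k8,(nat_lit 1469)),(k11,(nat_lit 1863))],[(k8,(nat_lit 964)),(k11,(nat_lit 1358)),(k3,
    (nat_lit 1436)),(k0,(nat_lit 1865)),(k7,(nat_lit 2367)),(k4,(nat_lit 2424))],[(k9,(nat_lit 964)),(k10,
    (nat_lit 1042)),(k1,(nat_lit 1089)),(k2,(nat_lit 1436)),(k6,(nat_lit 1469)),(k5,(nat_lit 2376))],[(k2,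
    (nat_lit 960)),(k9,(nat_lit 1358)),(k10,(nat_lit 1682)),(k1,(nat_lit 1729)),(k6,(nat_lit 1863)),(k5,
    (nat_lit 1900))],[(k3,(nat_lit 960)),(k7,(nat_lit 969)),(k8,(nat_lit 1042)),(k0,(nat_lit 1389)),(k11,
    (nat_lit 1682)),(k4,(nat_lit 1886))]]
    [] k0
    [[k2,k0,k0,k0,k0,k0],[k1,k1,k0,k0,k0,k0],[k1,k2,k0,k0,k0,k0],[k1,k1,k0,k0,k1,k0],[k1,k1,k0,k0,k0,k1],[k1,k0,k0,k1,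
    k0,k0],[k1,k1,k0,k1,k0,k0],[k1,k0,k0,k2,k0,k0],[k1,k0,k0,k1,k0,k1],[k1,k0,k0,k0,k1,k0],[k1,k0,k0,k0,k2,k0],[k1,k0,
    k0,k0,k1,k1],[k1,k0,k0,k0,k0,k1],[k0,k2,k0,k0,k0,k0],[k0,k3,k0,k0,k0,k0],[k0,k4,k0,k0,k0,k0],[k0,k3,k0,k0,k0,k1],
    [k0,k2,k0,k1,k0,k1],[k0,k2,k0,k0,k1,k0],[k0,k2,k0,k0,k1,k1],[k0,k2,k0,k0,k0,k1],[k0,k2,k0,k0,k0,k2],[k0,k1,k1,k0,
    k0,k0],[k0,k1,k0,k1,k0,k0],[k0,k1,k0,k2,k0,k1],[k0,k1,k0,k1,k0,k1],[k0,k1,k0,k1,k0,k2],[k0,k1,k0,k0,k1,k0],[k0,k1,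
    k0,k0,k2,k0],[k0,k1,k0,k0,k2,k1],[k0,k1,k0,k0,k1,k1],[k0,k1,k0,k0,k0,k1],[k0,k1,k0,k0,k1,k2],[k0,k1,k0,k0,k0,k2],
    [k0,k0,k2,k0,k0,k0],[k0,k0,k3,k0,k0,k0],[k0,k0,k4,k0,k0,k0],[k0,k0,k2,k1,k0,k0],[k0,k0,k1,k1,k0,k0],[k0,k0,k1,k2,
    k0,k0],[k0,k0,k1,k0,k0,k1],[k0,k0,k1,k1,k0,k1],[k0,k0,k0,k2,k0,k0],[k0,k0,k0,k3,k0,k0],[k0,k0,k0,k4,k0,k0],[k0,k0,
    k0,k2,k0,k1],[k0,k0,k0,k2,k1,k1],[k0,k0,k0,k1,k1,k0],[k0,k0,k0,k1,k0,k1],[k0,k0,k0,k1,k1,k1],[k0,k0,k0,k1,k2,k1],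
    [k0,k0,k0,k1,k0,k2],[k0,k0,k0,k0,k2,k0],[k0,k0,k0,k0,k3,k0],[k0,k0,k0,k0,k4,k0],[k0,k0,k0,k0,k3,k1],[k0,k0,k0,k0,
    k2,k1],[k0,k0,k0,k0,k1,k1],[k0,k0,k0,k0,k1,k2],[k0,k0,k0,k0,k0,k2]]
    [.contra [z1],.contra [y1,z0,z0,y1,z1],.ref (nat_lit 252) k2 [(z1,[z1,z2,z0,z2,y2]),(z1,[z0,y1,z0,y1,z1])],
    .ref k179 k4 [(z1,[y1,z0,y1,y1,z1]),(z1,[z0,z0,z0,z1]),(z1,[z1,y1,z1,y1])],.contra [z1,z1,y1],.contra [y1,z1,y1,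
    y1,z1],.contra [y1,z0,z0,y1,z1],.ref k178 k4 [(z1,[z1,z0,z1,z2,y1])],.contra [y1,z0,z0,y1,z1],.contra [z1,z1],
    .ref k178 k4 [(z1,[y1,z0,y1,z0,z1])],.ref k1 k2 [(z1,[z1])],.contra [y1,z0,z0,y1,z1],.contra [z1],
    .ref (nat_lit 217) k8 [(z1,[z1]),(z1,[z0,z1,z0,z1])],.ref (nat_lit 324) k2 [(z1,[z0,z1]),(z2,[z1]),(z1,[z0,z0,z0,
    z1])],.ref (nat_lit 252) k2 [(z1,[z1,z3,y1,z2,y2]),(z1,[z0,y1,z0,y1,z1])],.contra [y1,y1,z1,y1,z1],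
    .ref (nat_lit 252) k2 [(z1,[z1,z3,z0,z2,y2]),(z1,[z0,y1,z0,y1,z1])],.ref k179 k4 [(z1,[y1,y1,z0,y1,z1]),(z1,[z0,
    z0,z0,z1]),(z1,[z1,z0,z0,y1])],.contra [y1,y1,z1,y1,z1],.contra [z1,z2,y2],.contra [y1,z0,z1,z1],.contra [y1,z0,
    z0,y1,z1],.ref k178 k4 [(z1,[z1,z1,z0,z2,y1])],.contra [y1,z0,z0,y1,z1],.contra [y1,y1,z1,y1,z1],.contra [y1,y1,
    z0,y1,z1],.ref k179 k4 [(z1,[y1,y1,y1,y1,z1]),(z1,[z0,z0,z0,z1]),(z1,[z1,z0,z1,y1])],.ref k178 k4 [(z1,[y1,y1,z0,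
    z0,z1])],.contra [z1,z2,y1],.contra [y1,z0,z1,z1],.ref k1 k2 [(z1,[z1,z1,y1])],.contra [y1,y1,z1,y1,z1],
    .contra [y1,z2,z0,z2],.contra [z1,y1,y2,y5,z2],.contra [z1,y1,y1,y3,z1],.contra [y1,z3,y1,z1,z1],
    .ref k178 k4 [(z1,[z1])],.ref (nat_lit 252) k10 [(z1,[z1,z0,z0,z2,y2]),(z1,[z0,z0,z0,y1,z1])],.contra [y1,z0,z1,
    z1],.ref k179 k4 [(z1,[z1,z0,y1,y1]),(z1,[z0,z0,z0,z1]),(z1,[y1,y1,z1,y1,z1])],.contra [z1],.ref k178 k4 [(z2,[z1,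
    z1,z1,z3,y1])],.ref (nat_lit 324) k9 [(z1,[z0,y1]),(z2,[z1]),(z1,[z0,z1,z0,z1])],.ref (nat_lit 296) k4 [(z1,[z1,
    z0,z0,z1,y1]),(z1,[z0,z0,z0,z1])],.ref k179 k4 [(z1,[z1,z1,z0,z1,y1]),(z1,[z0,z0,z0,z1]),(z1,[y1,y2,z0,y3,z2])],
    .contra [y1,z0,y1,y1,z1],.contra [y1,z0,z0,y1,z1],.contra [y1,y1,z0,y1,z1],.contra [z1,z1,z1,z1,y1],.contra [y1,
    y1,z1,y1,z1],.contra [z1,z2],.ref k178 k4 [(z1,[y1,y1,y1,z0,z1])],.contra [y1,y2,y2,y2,z2],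
    .ref (nat_lit 296) k5 [(z1,[y1,y2,y1,y1,z1]),(z1,[z0,z0,z0,z1])],.ref k1 k2 [(z1,[z1,z1])],.contra [y1,y1,z0,y1,
    z1],.ref (nat_lit 305) k0 [(z1,[z1]),(z1,[z0,z1]),(z1,[y1,y2,z0,y2,z2])],.contra [z1]]),
    .old (.lp [(nat_lit 210),(nat_lit 374),k188,(nat_lit 376),(nat_lit 208),(nat_lit 562)] [k183,k169,k94,k94,k187,k187,
    k93,k93,k177,k177,k0,k0] k0 [[k0,k0,k0,k0,k0,k0,k0,k0,k0,k0,k18,k30],[k0,k0,k0,k0,k0,k0,k0,k28],[k0,k0,k0,k0,k136,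
    k72],[k0,k0,k0,k0,k0,k0,k0,k0,k30,k6],[k0,k0,k0,k72,k0,k0,k0,k0,k0,k0,k14],[k0,k0,k0,k136,k0,k0,k0,k2],[k28,k0,k0,
    k0,k2],[k0,k0,k0,k0,k0,k0,k0,k0,k176,k8],[k0,k0,k6,k0,k0,k0,k8,k0,k0,k0,k0,k26],[k0,k0,k30,k0,k0,k0,k176,k0,k0,k0,
    k0,(nat_lit 322)],[k0,k30,k0,k0,k0,k0,k0,k0,(nat_lit 322),k26],[k0,k18,k0,k0,k0,k14]] (nat_lit 960) k6
    [[(k0,k192),(k4,k192),(k7,(nat_lit 300)),(k3,(nat_lit 329)),(k11,(nat_lit 419)),(k8,(nat_lit 538))],[(k1,k192),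
    (k5,k192),(k9,(nat_lit 230)),(k2,(nat_lit 285)),(k6,(nat_lit 286)),(k10,(nat_lit 349))],[(k5,(nat_lit 281)),(k9,
    (nat_lit 291)),(k1,(nat_lit 329)),(k6,(nat_lit 347)),(k2,(nat_lit 374)),(k10,(nat_lit 486))],[(k4,(nat_lit 209)),
    (k7,(nat_lit 239)),(k0,(nat_lit 285)),(k8,(nat_lit 321)),(k3,(nat_lit 374)),(k11,(nat_lit 474))],[(k0,k192),(k8,
    k192),(k3,(nat_lit 281)),(k4,(nat_lit 324)),(k11,(nat_lit 345)),(k7,(nat_lit 354))],[(k1,k192),(k9,(nat_lit 200)),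
    (k2,(nat_lit 209)),(k6,(nat_lit 282)),(k5,(nat_lit 324)),(k10,(nat_lit 375))],[(k2,(nat_lit 239)),(k9,
    (nat_lit 292)),(k1,(nat_lit 300)),(k5,(nat_lit 354)),(k6,(nat_lit 374)),(k10,(nat_lit 483))],[(k4,(nat_lit 282)),
    (k0,(nat_lit 286)),(k3,(nat_lit 347)),(k7,(nat_lit 374)),(k8,(nat_lit 468)),(k11,(nat_lit 477))],[(k4,
    (nat_lit 200)),(k8,(nat_lit 200)),(k11,(nat_lit 209)),(k0,(nat_lit 230)),(k3,(nat_lit 291)),(k7,(nat_lit 292))],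
    [(k5,k192),(k9,(nat_lit 200)),(k2,(nat_lit 321)),(k10,(nat_lit 359)),(k6,(nat_lit 468)),(k1,(nat_lit 538))],[(k9,
    (nat_lit 209)),(k10,(nat_lit 240)),(k5,(nat_lit 345)),(k1,(nat_lit 419)),(k2,(nat_lit 474)),(k6,(nat_lit 477))],
    [(k11,(nat_lit 240)),(k0,(nat_lit 349)),(k8,(nat_lit 359)),(k4,(nat_lit 375)),(k7,(nat_lit 483)),(k3,
    (nat_lit 486))]]
    [] k0
    [[k2,k0,k0,k0,k0,k0],[k3,k0,k0,k0,k0,k0],[k4,k0,k0,k0,k0,k0],[k3,k0,k1,k0,k0,k0],[k2,k1,k0,k0,k0,k0],[k2,k1,k1,k0,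
    k0,k0],[k2,k0,k1,k0,k0,k0],[k2,k0,k2,k0,k0,k0],[k2,k0,k1,k0,k1,k0],[k2,k0,k0,k1,k0,k0],[k1,k1,k0,k0,k0,k0],[k1,k1,
    k1,k0,k0,k0],[k1,k1,k0,k1,k0,k0],[k1,k1,k0,k0,k1,k0],[k1,k0,k1,k0,k0,k0],[k1,k1,k2,k0,k0,k0],[k1,k0,k2,k0,k0,k0],
    [k1,k0,k2,k0,k1,k0],[k1,k0,k1,k1,k0,k0],[k1,k0,k1,k0,k1,k0],[k1,k0,k1,k0,k2,k0],[k1,k0,k1,k0,k1,k1],[k1,k0,k1,k0,
    k0,k1],[k1,k0,k0,k1,k0,k0],[k1,k0,k0,k0,k1,k0],[k1,k0,k0,k0,k0,k1],[k0,k2,k0,k0,k0,k0],[k0,k2,k1,k0,k0,k0],[k0,k1,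
    k1,k0,k0,k0],[k0,k1,k2,k0,k0,k0],[k0,k1,k1,k1,k0,k0],[k0,k1,k1,k0,k1,k0],[k0,k1,k2,k0,k1,k0],[k0,k1,k0,k1,k0,k0],
    [k0,k1,k0,k0,k1,k0],[k0,k1,k0,k0,k2,k0],[k0,k1,k1,k0,k2,k0],[k0,k0,k2,k0,k0,k0],[k0,k0,k2,k0,k1,k0],[k0,k0,k2,k0,
    k2,k0],[k0,k0,k1,k1,k0,k0],[k0,k0,k1,k0,k1,k0],[k0,k0,k1,k1,k1,k0],[k0,k0,k1,k0,k2,k0],[k0,k0,k1,k0,k3,k0],[k0,k0,
    k1,k0,k1,k1],[k0,k0,k1,k0,k0,k1],[k0,k0,k0,k2,k0,k0],[k0,k0,k0,k1,k1,k0],[k0,k0,k0,k0,k2,k0],[k0,k0,k0,k0,k3,k0],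
    [k0,k0,k0,k0,k4,k0],[k0,k0,k0,k0,k2,k1],[k0,k0,k0,k0,k1,k1],[k0,k0,k0,k0,k1,k2],[k0,k0,k0,k0,k0,k2],[k0,k0,k0,k0,
    k0,k3]]
    [.contra [z1],.ref (nat_lit 217) k2 [(z1,[z1]),(z1,[z0,z0,z1])],.ref (nat_lit 324) k11 [(z1,[z0,z1,z2,z1,y1]),(z2,
    [z1]),(z1,[z0,y1,y1,y1,z1])],.ref (nat_lit 320) k9 [(z1,[y1,z1,z0,z1]),(z1,[z0,y1,y1,y1,z1]),(z1,[z1])],
    .ref k1 k2 [(z1,[z1,y1,y1])],.contra [y1,z2,z3,z1],.ref (nat_lit 296) k2 [(z1,[z1,z0,z1,z0,y1]),(z1,[z0,z0,z1])],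
    .ref (nat_lit 316) k11 [(z1,[z0,z1,z2,z1,y1]),(z2,[z1]),(z1,[z0,y1,y1,y1,z1])],.ref k178 k2 [(z1,[z1,y1,z0,y1])],
    .ref k1 k2 [(z1,[z1,z0,z1,z1,y1])],.contra [y2,z2,z3,z1],.contra [y1,z1,z1,z1],.contra [z1,z0,z0,z1,y1],
    .contra [y1,z1,z1,z1],.contra [y1,z1,z1,z1],.ref (nat_lit 315) k4 [(z1,[z0,y1,y2,y1,z1]),(z1,[y1,z1,z1,z1]),(z1,
    [z0,z0,z1])],.contra [y1,z1,z0,z2],.contra [y1,z1,z0,z2],.contra [y1,z0,y1,z0,z1],.contra [y1,z1,z1,z1],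
    .contra [y2,z2,z1,z3],.contra [y1,z1,z2,z1],.ref (nat_lit 325) k11 [(z1,[z0,z1,z2,z1,y1]),(z1,[z1,z1,z1,z1,y1]),
    (z1,[z0,y1,y1,y1,z1])],.contra [y2,z0,y1,y1,z2],.contra [y1,z1,z1,z1],.ref k178 k2 [(z1,[z1])],.contra [z1],
    .ref k1 k2 [(z1,[y1,z1,z2,z1])],.contra [y1,z1,z1,z1],.ref (nat_lit 305) k10 [(z1,[z1]),(z1,[z0,y1,y2,y1,z1]),(z1,
    [y1,z2,z2,z2])],.ref k1 k2 [(z1,[y1,z0,z0,z0,z1])],.contra [y1,z1,z1,z1],.ref (nat_lit 315) k11 [(z1,[z0,z1,z2,z1,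
    y1]),(z1,[y1,z1,z1,z1]),(z1,[z0,y1,y1,y1,z1])],.contra [z1,z1,z2,z1,y1],.contra [y1,z1,z1,z1],
    .ref (nat_lit 252) k4 [(z1,[z1,y3,y4,y3,z1]),(z1,[z0,z1,z1,z1])],.contra [z1,z0,z1,y1],.contra [z1],.contra [y1,
    z1,z0,z2],.contra [y1,z1,z0,z2],.contra [y1,z0,y1,z0,z1],.contra [y1,z1,z1,z1],.contra [y1,z0,y1,z0,z1],
    .contra [y2,z2,z1,z3],.contra [y1,z1,z0,z2],.contra [y1,z0,z0,z1],.contra [y1,z0,z0,z1],.contra [z1,z2,z4,z2,y2],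
    .contra [y1,z0,y1,z0,z1],.contra [z1],.contra [y1,z1,z0,z2],.ref (nat_lit 324) k4 [(z1,[z0,y1,y2,y1,z1]),(z2,
    [z1]),(z1,[z0,z0,z1])],.contra [y1,z0,z0,z1],.contra [y2,z0,z1,z1],.contra [z1,z1],.contra [y1,z0,z2],.contra [z1,
    z2,z0,z1]]),
    .old (.lp [(nat_lit 2042),(nat_lit 960),(nat_lit 2086),(nat_lit 1152),(nat_lit 3146),(nat_lit 1152)] [(nat_lit 552),
    (nat_lit 552),(nat_lit 1093),(nat_lit 1093),(nat_lit 530),(nat_lit 530),(nat_lit 997),(nat_lit 997),k0,k0,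
    (nat_lit 997),(nat_lit 997)] k0 [[k0,k0,(nat_lit 890),(nat_lit 362)],[],[k0,(nat_lit 362)],[k0,(nat_lit 890),k0,
    k0,k22],[k0,k0,k0,k0,k0,k0,k0,k22,k0,k0,k0,k44],[k0,k0,k22,k0,k0,k0,k0,k48],[k0,k0,k0,k0,k48,k22],[k0,k0,k0,k0,k0,
    k0,k0,k0,k22,(nat_lit 1916)],[k0,k0,k0,k0,k0,k0,(nat_lit 1916),k0,k0,k0,k0,(nat_lit 1026)],[k0,k0,k0,k0,k0,k0,k22,
    k0,k0,k0,k0,k92],[k0,k0,k0,k0,k0,k44,k0,k0,k92,(nat_lit 1026)]] (nat_lit 5280) k6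
    [[(k3,(nat_lit 1501)),(k7,(nat_lit 1641)),(k0,(nat_lit 2042)),(k4,(nat_lit 2064)),(k11,(nat_lit 2623)),(k8,
    (nat_lit 2686))],[(k2,(nat_lit 1139)),(k5,(nat_lit 1174)),(k6,(nat_lit 1597)),(k10,(nat_lit 1597)),(k1,
    (nat_lit 2042)),(k9,(nat_lit 2594))],[(k6,(nat_lit 1056)),(k10,(nat_lit 1056)),(k1,(nat_lit 1501)),(k2,
    (nat_lit 1850)),(k5,(nat_lit 1885)),(k9,(nat_lit 2053))],[(k7,(nat_lit 1056)),(k11,(nat_lit 1056)),(k0,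
    (nat_lit 1139)),(k4,(nat_lit 1545)),(k3,(nat_lit 1850)),(k8,(nat_lit 2053))],[(k0,(nat_lit 1174)),(k7,
    (nat_lit 1597)),(k11,(nat_lit 1619)),(k3,(nat_lit 1885)),(k4,(nat_lit 2086)),(k8,(nat_lit 2616))],[(k2,
    (nat_lit 1545)),(k10,(nat_lit 1575)),(k6,(nat_lit 1597)),(k1,(nat_lit 2064)),(k5,(nat_lit 2086)),(k9,
    (nat_lit 2664))],[(k2,(nat_lit 1056)),(k6,(nat_lit 1104)),(k10,(nat_lit 1152)),(k5,(nat_lit 1597)),(k1,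
    (nat_lit 1641)),(k9,(nat_lit 2171))],[(k3,(nat_lit 1056)),(k7,(nat_lit 1104)),(k0,(nat_lit 1597)),(k4,
    (nat_lit 1597)),(k8,(nat_lit 2171)),(k11,(nat_lit 3068))],[(k8,(nat_lit 1230)),(k3,(nat_lit 2053)),(k11,
    (nat_lit 2127)),(k7,(nat_lit 2171)),(k0,(nat_lit 2594)),(k4,(nat_lit 2664))],[(k10,(nat_lit 1123)),(k9,
    (nat_lit 1230)),(k2,(nat_lit 2053)),(k6,(nat_lit 2171)),(k5,(nat_lit 2616)),(k1,(nat_lit 2686))],[(k2,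
    (nat_lit 1056)),(k10,(nat_lit 1060)),(k5,(nat_lit 1619)),(k9,(nat_lit 2127)),(k1,(nat_lit 2623)),(k6,
    (nat_lit 3068))],[(k3,(nat_lit 1056)),(k11,(nat_lit 1060)),(k8,(nat_lit 1123)),(k7,(nat_lit 1152)),(k4,
    (nat_lit 1575)),(k0,(nat_lit 1597))]]
    [] k0
    [[k2,k0,k0,k0,k0,k0],[k2,k1,k0,k0,k0,k0],[k1,k1,k0,k0,k0,k0],[k1,k2,k0,k0,k0,k0],[k1,k1,k1,k0,k0,k0],[k1,k1,k0,k1,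
    k0,k0],[k1,k2,k0,k1,k0,k0],[k1,k1,k0,k2,k0,k0],[k1,k1,k0,k0,k0,k1],[k1,k2,k0,k0,k0,k1],[k1,k1,k0,k0,k0,k2],[k1,k0,
    k1,k0,k0,k0],[k1,k0,k1,k1,k0,k0],[k1,k0,k0,k1,k0,k0],[k1,k0,k0,k2,k0,k0],[k1,k0,k0,k0,k0,k1],[k0,k2,k0,k0,k0,k0],
    [k0,k2,k0,k1,k0,k0],[k0,k2,k0,k2,k0,k0],[k0,k2,k0,k1,k0,k1],[k0,k2,k0,k0,k0,k1],[k0,k2,k0,k0,k0,k2],[k0,k1,k1,k0,
    k0,k0],[k0,k1,k1,k1,k0,k0],[k0,k1,k1,k0,k0,k1],[k0,k1,k0,k1,k0,k0],[k0,k1,k0,k2,k0,k0],[k0,k1,k0,k3,k0,k0],[k0,k1,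
    k0,k2,k0,k1],[k0,k1,k0,k1,k0,k1],[k0,k1,k0,k1,k0,k2],[k0,k1,k0,k0,k1,k0],[k0,k1,k0,k0,k1,k1],[k0,k1,k0,k0,k0,k1],
    [k0,k1,k0,k0,k0,k2],[k0,k1,k0,k0,k0,k3],[k0,k0,k2,k0,k0,k0],[k0,k0,k1,k1,k0,k0],[k0,k0,k1,k2,k0,k0],[k0,k0,k1,k0,
    k0,k1],[k0,k0,k1,k1,k0,k1],[k0,k0,k1,k0,k0,k2],[k0,k0,k0,k2,k0,k0],[k0,k0,k0,k3,k0,k0],[k0,k0,k0,k4,k0,k0],[k0,k0,
    k0,k1,k1,k0],[k0,k0,k0,k1,k0,k1],[k0,k0,k0,k0,k2,k0],[k0,k0,k0,k0,k3,k0],[k0,k0,k0,k0,k4,k0],[k0,k0,k0,k0,k2,k1],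
    [k0,k0,k0,k0,k1,k1],[k0,k0,k0,k0,k1,k2],[k0,k0,k0,k0,k0,k2],[k0,k0,k0,k0,k0,k3],[k0,k0,k0,k0,k0,k4]]
    [.contra [z1],.ref k0 k3 [(z3,[z3,y3,y1,y1,z3])],.contra [y3,z1,z1],.ref k0 k3 [(z6,[z3,y3,y2,y2,z6])],
    .ref k0 k3 [(z3,[z3,y2,y1,y2,z3])],.contra [y3,z1,z1],.ref (nat_lit 315) k7 [(z3,[z0,z1,z0,y1]),(z3,[y3,z1,z1]),
    (z3,[z0,y1,y1,z0,z3])],.ref k179 k0 [(z3,[y3,z1,z1]),(z3,[z0,z0,y1,y1,z3]),(z3,[z3,z0,z1,z1,y3])],.contra [y3,z1,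
    z1],.ref (nat_lit 315) k10 [(z3,[z0,y1,z0,z1]),(z3,[y3,z1,z1]),(z3,[z0,z0,y1,y1,z3])],.ref k179 k0 [(z3,[z3,y1,
    y1]),(z3,[z0,z0,y1,y1,z3]),(z3,[y3,z2,z3,z1,y3])],.contra [z3,z1,z0,y1],.ref k178 k3 [(z3,[z3,y2,y1,y2,z3])],
    .contra [y3,z1,z1],.ref k178 k3 [(z6,[z3,y3,y2,y2,z6])],.contra [y3,z1,z1],.contra [z1],
    .ref (nat_lit 312) k8 [(z3,[z3,y1,y1]),(z3,[z0,y1,z0,z1]),(z3,[y3,z2,z2])],.ref (nat_lit 252) k3 [(z3,[y3,y1,y1,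
    y3,z3]),(z3,[z0,z0,z1,z1])],.ref k0 k3 [(z3,[z3,y1,y2,y1,z3])],.ref (nat_lit 312) k11 [(z3,[z3,z0,y1,y1]),(z3,[z0,
    z1,z0,y1]),(z3,[y3,z0,z2,z2])],.ref (nat_lit 252) k9 [(z3,[y3,y3,y1,y1,z3]),(z3,[z0,z1,z1])],.contra [y3,z0,z1,
    z1],.contra [y3,z0,z1,z1],.contra [y3,z0,z1,z1],.contra [y3,z1,z1],.ref (nat_lit 296) k5 [(z3,[z3,y1,y1]),(z3,[z0,
    y1,y1,z0,z3])],.ref (nat_lit 320) k0 [(z3,[y3,z1,z2,z1,y3]),(z3,[z0,z0,y1,y1,z3]),(z1,[z1])],.ref k178 k3 [(z3,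
    [z3,y1,y2,y1,z3])],.contra [z3,z2,y1],.ref k178 k0 [(z3,[z3,y1,y2,y1,z3])],.ref k0 k3 [(z1,[z1])],
    .ref k178 k3 [(z3,[y3,y2,y1,y2,z6])],.contra [y3,z1,z1],.ref (nat_lit 296) k0 [(z3,[z3,z0,y1,y1]),(z3,[z0,z0,y1,
    y1,z3])],.ref (nat_lit 320) k5 [(z3,[y3,z1,z2,z1,y3]),(z3,[z0,y1,y1,z0,z3]),(z1,[z1])],.contra [z3,z2,z0,y2],
    .contra [y3,z0,z1,z1],.ref k178 k3 [(z6,[z3,y2,y2,y3,z6])],.contra [y3,z0,z1,z1],.contra [y3,z0,z1,z1],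
    .ref k178 k0 [(z6,[z3,y2,y2,y3,z6])],.contra [z1],.ref k178 k3 [(z3,[z1,y1,y1,y1,z3])],
    .ref (nat_lit 324) k10 [(z3,[z0,y1,z0,z1]),(z2,[z1]),(z3,[z0,z0,y1,y1,z3])],.ref k178 k3 [(z1,[z1])],.contra [y3,
    z1,z1],.contra [y3,z0,y2,y2,z6],.contra [y1,z1,y1,y1,z3],.contra [y3,z6,y4,y4,z12],.contra [z3,z3,z2,z2,y6],
    .ref k178 k0 [(z1,[z1])],.ref (nat_lit 252) k3 [(z3,[z3,z0,y2,y2]),(z3,[z0,z0,z1,z1])],.contra [z1],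
    .ref k178 k0 [(z3,[z1,y1,y1,y1,z3])],.ref (nat_lit 324) k7 [(z3,[z0,z1,z0,y1]),(z2,[z1]),(z3,[z0,y1,y1,z0,z3])]]),
    .old (.lp [(nat_lit 200),k104,(nat_lit 258),k126,k188,k82] [k29,k29,k70,k84,k0,k0,k74,k58,k35,k35,k88,k88] k0 [[k0,k0,
    k0,k0,k0,k0,k0,k0,k0,k0,k58],[k0,k0,k78,k6],[k6,k0,k0,k0,k0,k0,k0,k0,k4],[k78,k0,k0,k0,k0,k58],[k0,k0,k58,k0,k0,
    k0,k0,k66,k0,k0,k0,k12],[k0,k0,k0,k0,k0,k0,k0,k30,k0,k0,k0,k16],[k0,k0,k0,k0,k30,k66],[k0,k0,k0,k0,k0,k0,k0,k0,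
    k4],[k0,k0,k0,k0,k0,k0,k0,k0,k0,k0,k90,k26],[k0,k0,k0,k4,k0,k0,k4],[k0,k0,k0,k0,k16,k12,k0,k0,k0,k26],[k0,k58,k0,
    k0,k0,k0,k0,k0,k0,k90]] (nat_lit 480) k6
    [[(k8,k104),(k0,k142),(k3,k145),(k11,k167),(k7,k183),(k4,(nat_lit 245))],[(k10,k141),(k1,k142),(k6,k155),(k9,
    k194),(k5,(nat_lit 235)),(k2,(nat_lit 237))],[(k5,k96),(k2,k98),(k6,k100),(k9,k139),(k10,k144),(k1,k145)],[(k11,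
    k96),(k3,k98),(k8,k153),(k4,k188),(k7,k188),(k0,(nat_lit 237))],[(k3,k96),(k11,k170),(k4,(nat_lit 200)),(k7,
    (nat_lit 200)),(k8,(nat_lit 227)),(k0,(nat_lit 235))],[(k6,k118),(k10,k158),(k2,k188),(k5,(nat_lit 200)),(k1,
    (nat_lit 245)),(k9,(nat_lit 253))],[(k6,k96),(k10,k96),(k1,k183),(k2,k188),(k5,(nat_lit 200)),(k9,(nat_lit 231))],
    [(k7,k96),(k11,k96),(k3,k100),(k4,k118),(k8,k153),(k0,k155)],[(k11,k131),(k3,k139),(k8,k188),(k0,k194),(k7,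
    (nat_lit 231)),(k4,(nat_lit 253))],[(k1,k104),(k10,k109),(k2,k153),(k6,k153),(k9,k188),(k5,(nat_lit 227))],[(k2,
    k96),(k6,k96),(k9,k131),(k1,k167),(k5,k170),(k10,k172)],[(k7,k96),(k8,k109),(k0,k141),(k3,k144),(k4,k158),(k11,
    k172)]]
    [] k0
    [[k2,k0,k0,k0,k0,k0],[k3,k0,k0,k0,k0,k0],[k2,k0,k0,k0,k1,k0],[k2,k0,k0,k0,k0,k1],[k1,k1,k0,k0,k0,k0],[k1,k1,k0,k0,
    k0,k1],[k1,k0,k0,k1,k0,k0],[k1,k0,k0,k2,k0,k0],[k1,k0,k0,k1,k0,k1],[k1,k0,k0,k0,k1,k0],[k1,k0,k0,k0,k1,k1],[k1,k0,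
    k0,k0,k0,k1],[k0,k2,k0,k0,k0,k0],[k0,k3,k0,k0,k0,k0],[k0,k4,k0,k0,k0,k0],[k0,k3,k0,k0,k0,k1],[k0,k2,k1,k0,k0,k0],
    [k0,k2,k1,k0,k0,k1],[k0,k2,k0,k1,k0,k0],[k0,k2,k0,k1,k0,k1],[k0,k2,k0,k0,k1,k0],[k0,k2,k0,k0,k1,k1],[k0,k2,k0,k0,
    k0,k1],[k0,k1,k1,k0,k0,k0],[k0,k1,k1,k1,k0,k0],[k0,k1,k1,k1,k0,k1],[k0,k1,k1,k0,k0,k1],[k0,k1,k0,k1,k0,k0],[k0,k1,
    k0,k2,k0,k0],[k0,k1,k0,k2,k0,k1],[k0,k1,k0,k1,k0,k1],[k0,k1,k0,k1,k0,k2],[k0,k1,k0,k0,k1,k0],[k0,k1,k0,k0,k1,k1],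
    [k0,k1,k0,k0,k0,k1],[k0,k1,k0,k0,k0,k2],[k0,k0,k2,k0,k0,k0],[k0,k0,k1,k1,k0,k0],[k0,k0,k1,k2,k0,k0],[k0,k0,k1,k1,
    k0,k1],[k0,k0,k1,k0,k0,k1],[k0,k0,k0,k2,k0,k0],[k0,k0,k0,k3,k0,k0],[k0,k0,k0,k4,k0,k0],[k0,k0,k0,k3,k0,k1],[k0,k0,
    k0,k2,k0,k1],[k0,k0,k0,k2,k1,k1],[k0,k0,k0,k2,k0,k2],[k0,k0,k0,k1,k1,k0],[k0,k0,k0,k1,k1,k1],[k0,k0,k0,k1,k0,k1],
    [k0,k0,k0,k1,k1,k2],[k0,k0,k0,k1,k0,k2],[k0,k0,k0,k0,k2,k0],[k0,k0,k0,k0,k2,k1],[k0,k0,k0,k0,k1,k1],[k0,k0,k0,k0,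
    k1,k2],[k0,k0,k0,k0,k0,k2]]
    [.contra [z1],.ref (nat_lit 327) k3 [(z1,[z1,y3]),(z1,[y1,z3,z3]),(z1,[z1])],.ref (nat_lit 327) k3 [(z1,[z1,y2]),
    (z1,[y1,z2,z3]),(z1,[z1,z1])],.ref k1 k2 [(z1,[z1,y1])],.contra [y1,z1,z1],.contra [y1,z1,z1],.contra [y1,z1,z1],
    .ref (nat_lit 252) k9 [(z1,[z1,y3,y2]),(z1,[z0,z1,z1])],.contra [y1,z1,z1],.contra [z1,z1],.ref k1 k2 [(z1,[z1])],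
    .contra [y1,z1,z1],.contra [z1],.ref (nat_lit 217) k8 [(z1,[z1]),(z1,[z0,z0,y1,z1])],.ref (nat_lit 324) k2 [(z1,
    [z0,z1]),(z2,[z1]),(z1,[z0,y1,y1,z1])],.ref (nat_lit 320) k4 [(z1,[y1,z1,z2,y1]),(z1,[z0,y1,y1,z1]),(z1,[z1])],
    .ref (nat_lit 252) k1 [(z1,[z1,z0,y2]),(z1,[z0,z0,z1])],.ref (nat_lit 326) k4 [(z1,[y1,z1,z2,y1]),(z1,[z0,y1,y1,
    z1]),(z1,[z1])],.ref (nat_lit 296) k8 [(z1,[z1,z0,y1]),(z1,[z0,z0,y1,z1])],.ref k178 k10 [(z1,[z1,y1,y2,z1])],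
    .ref (nat_lit 252) k2 [(z1,[z1,z1,y2]),(z1,[z0,z0,z1])],.ref k179 k4 [(z1,[y1,z0,z1]),(z1,[z0,y1,y1,z1]),(z1,[z1,
    z1,z1,y1])],.ref (nat_lit 296) k11 [(z1,[z1,z0,y1]),(z1,[z0,z0,y1,z1])],.ref k178 k10 [(z1,[z1])],.ref k1 k2 [(z1,
    [y1,z0,z0,z1])],.contra [y1,z1,z0,z1],.ref (nat_lit 325) k2 [(z1,[z0,z1]),(z1,[z1,z1,z1,y1]),(z1,[z0,y1,y1,z1])],
    .contra [y1,z1,z1],.ref (nat_lit 296) k5 [(z1,[z1,y1,y1]),(z1,[z0,y1,y1,z1])],.ref k178 k4 [(z1,[z1,y1,y2,z1])],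
    .contra [y1,z1,z1],.ref k0 k0 [(z1,[z1,y1,y2,z1])],.contra [y1,z0,z1],.contra [y1,z0,z1],.contra [y1,z1,z1],
    .ref (nat_lit 312) k0 [(z1,[z1,z0,y1]),(z1,[z0,z1]),(z1,[y1,z0,z2])],.contra [y1,z0,y2,z2],.ref k178 k4 [(z1,
    [z1])],.ref (nat_lit 252) k10 [(z1,[z1,y2,y2]),(z1,[z0,z1,z1])],.ref (nat_lit 325) k9 [(z1,[z0,y1]),(z1,[z1,z0,z1,
    y1]),(z1,[z0,z0,y1,z1])],.ref k0 k0 [(z1,[z1])],.contra [z1],.ref (nat_lit 217) k4 [(z1,[z1]),(z1,[z0,y1,y1,z1])],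
    .ref (nat_lit 324) k9 [(z1,[z0,y1]),(z2,[z1]),(z1,[z0,z0,y1,z1])],.ref (nat_lit 320) k11 [(z1,[y1,z1,z2,y1]),(z1,
    [z0,z0,y1,z1]),(z1,[z1])],.ref (nat_lit 296) k4 [(z1,[z1,y1,y1]),(z1,[z0,y1,y1,z1])],.ref k179 k4 [(z1,[z1,z0,
    y1]),(z1,[z0,y1,y1,z1]),(z1,[y1,z1,z3,y1])],.ref (nat_lit 316) k9 [(z1,[z0,y1]),(z2,[z1]),(z1,[z0,z0,y1,z1])],
    .contra [y1,z0,z1],.contra [y1,z0,z1],.contra [y1,z1,z1],.ref (nat_lit 315) k2 [(z1,[z0,z1]),(z1,[y1,z0,z1]),(z1,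
    [z0,y1,y1,z1])],.ref (nat_lit 312) k6 [(z1,[z1,y1,y1]),(z1,[z0,y1]),(z1,[y1,z2,z2])],.contra [z1,z2],
    .ref k1 k2 [(z1,[z1,z1])],.contra [y1,z0,z1],.ref (nat_lit 305) k0 [(z1,[z1]),(z1,[z0,z1]),(z1,[y1,z0,z2])],
    .contra [z1]]),
    .geo true z1 k5 [(y2,z5),(z2,y3),(z4,y5),(y2,z4),(z2,y2),(z0,z1)] [(z1,[z1]),(z1,[z0,z1]),(z1,[z0,z0,z1]),(z1,[z0,z0,
    z0,z1]),(z1,[y1,y1,y1,y1,z1]),(z1,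
    [])] (Int.ofNat (nat_lit 524288)) (Int.ofNat (nat_lit 699051)) (.s (.s (.s (.s (.l k2) (.l k1)) (.l k1)) (.s (.l k1) (.l k1))) (.s (.l k1) (.l k1))) [⟨z1,
    z2,[[k0,k3],[k1,k5],[k2,k4]],.bnd k3⟩],
    .geo true z2 k5 [(y1,z4),(z1,z0),(z5,y4),(y1,z2),(z4,y4),(z0,z2)] [(z1,[z1]),(z1,[z0,z1]),(z1,[z0,z0,z1]),(z1,[z0,z0,
    z0,z1]),(z1,[y1,y1,y1,y1,z2]),(z1,
    [])] (Int.ofNat (nat_lit 524288)) (Int.ofNat (nat_lit 1048576)) (.s (.s (.s (.l k2) (.l k1)) (.l k1)) (.l k1)) [⟨z1,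
    z2,[[k0,k3],[k1,k5],[k2,k4]],.bnd k3⟩]]

noncomputable def cU6_2_n5_3 : List XN :=
  [.old (.lp [(nat_lit 446),(nat_lit 216),(nat_lit 448),(nat_lit 238),(nat_lit 298),(nat_lit 272)] [k1,k1,k116,k116,k0,
    k0,k105,k105,k75,k75,k88,k88] k0 [[k0,k0,k0,k0,k0,k0,k0,k0,k0,k0,k64,k22],[k0,k0,k0,k24],[k24,k0,k0,k0,k0,k58,k0,
    k0,k0,k22],[k0,k0,k0,k0,k0,k60,k0,k0,k0,k24],[k0,k0,k60,k58,k0,k0,k82],[k0,k0,k0,k0,k0,k0,k22,k0,k0,k0,k0,k42],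
    [k0,k0,k0,k0,k0,k0,k0,k0,k22],[k0,k0,k0,k0,k22,k82],[k0,k0,k24,k22],[k0,k0,k0,k0,k0,k0,k0,k22,k0,k0,k118],[k0,k22,
    k0,k0,k42],[k0,k64,k0,k0,k0,k0,k0,k0,k118]] (nat_lit 960) k6
    [[(k11,(nat_lit 241)),(k7,(nat_lit 342)),(k3,(nat_lit 353)),(k8,(nat_lit 372)),(k0,(nat_lit 382)),(k4,
    (nat_lit 489))],[(k2,(nat_lit 331)),(k10,(nat_lit 337)),(k6,(nat_lit 342)),(k9,(nat_lit 372)),(k1,(nat_lit 382)),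
    (k5,(nat_lit 471))],[(k2,k192),(k6,(nat_lit 227)),(k9,(nat_lit 257)),(k10,(nat_lit 308)),(k5,(nat_lit 332)),(k1,
    (nat_lit 353))],[(k3,k192),(k8,(nat_lit 235)),(k11,(nat_lit 268)),(k4,(nat_lit 274)),(k7,(nat_lit 287)),(k0,
    (nat_lit 331))],[(k3,(nat_lit 332)),(k8,(nat_lit 349)),(k11,(nat_lit 382)),(k4,(nat_lit 388)),(k7,(nat_lit 401)),
    (k0,(nat_lit 471))],[(k2,(nat_lit 274)),(k9,(nat_lit 291)),(k10,(nat_lit 360)),(k6,(nat_lit 365)),(k5,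
    (nat_lit 388)),(k1,(nat_lit 489))],[(k10,(nat_lit 213)),(k9,(nat_lit 246)),(k2,(nat_lit 287)),(k6,(nat_lit 320)),
    (k1,(nat_lit 342)),(k5,(nat_lit 401))],[(k3,(nat_lit 227)),(k11,(nat_lit 233)),(k8,(nat_lit 268)),(k7,
    (nat_lit 320)),(k0,(nat_lit 342)),(k4,(nat_lit 365))],[(k7,(nat_lit 246)),(k3,(nat_lit 257)),(k11,(nat_lit 285)),
    (k4,(nat_lit 291)),(k8,(nat_lit 320)),(k0,(nat_lit 372))],[(k2,(nat_lit 235)),(k6,(nat_lit 268)),(k9,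
    (nat_lit 320)),(k5,(nat_lit 349)),(k1,(nat_lit 372)),(k10,(nat_lit 403))],[(k6,(nat_lit 233)),(k1,(nat_lit 241)),
    (k2,(nat_lit 268)),(k10,(nat_lit 272)),(k9,(nat_lit 285)),(k5,(nat_lit 382))],[(k7,(nat_lit 213)),(k11,
    (nat_lit 272)),(k3,(nat_lit 308)),(k0,(nat_lit 337)),(k4,(nat_lit 360)),(k8,(nat_lit 403))]]
    [] k0
    [[k2,k0,k0,k0,k0,k0],[k1,k1,k0,k0,k0,k0],[k1,k2,k0,k0,k0,k0],[k1,k1,k0,k0,k0,k1],[k1,k0,k0,k1,k0,k0],[k1,k1,k0,k1,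
    k0,k0],[k1,k0,k0,k1,k0,k1],[k1,k0,k0,k0,k1,k0],[k1,k0,k0,k0,k0,k1],[k1,k0,k0,k0,k0,k2],[k0,k2,k0,k0,k0,k0],[k0,k3,
    k0,k0,k0,k0],[k0,k4,k0,k0,k0,k0],[k0,k3,k0,k1,k0,k0],[k0,k3,k0,k0,k1,k0],[k0,k2,k1,k0,k0,k0],[k0,k2,k0,k1,k0,k0],
    [k0,k2,k0,k1,k1,k0],[k0,k2,k0,k1,k0,k1],[k0,k2,k0,k0,k1,k0],[k0,k2,k0,k0,k0,k1],[k0,k1,k1,k0,k0,k0],[k0,k1,k1,k0,
    k1,k0],[k0,k1,k0,k1,k0,k0],[k0,k1,k1,k1,k0,k0],[k0,k1,k0,k2,k0,k0],[k0,k1,k0,k1,k1,k0],[k0,k1,k0,k1,k0,k1],[k0,k1,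
    k0,k0,k1,k0],[k0,k1,k0,k0,k2,k0],[k0,k1,k0,k0,k1,k1],[k0,k1,k0,k0,k0,k1],[k0,k1,k0,k0,k0,k2],[k0,k0,k2,k0,k0,k0],
    [k0,k0,k1,k1,k0,k0],[k0,k0,k1,k0,k1,k0],[k0,k0,k1,k0,k0,k1],[k0,k0,k0,k2,k0,k0],[k0,k0,k0,k2,k1,k0],[k0,k0,k0,k2,
    k0,k1],[k0,k0,k0,k1,k1,k0],[k0,k0,k0,k1,k2,k0],[k0,k0,k0,k1,k1,k1],[k0,k0,k0,k1,k0,k1],[k0,k0,k0,k2,k0,k2],[k0,k0,
    k0,k1,k0,k2],[k0,k0,k0,k0,k2,k0],[k0,k0,k0,k0,k1,k1],[k0,k0,k0,k0,k0,k2],[k0,k0,k0,k0,k0,k3]]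
    [.contra [z1],.contra [z1,y1,y1],.ref (nat_lit 252) k2 [(z1,[z1,z2,z0,z2,y2]),(z1,[z0,y1,z0,y1,z1])],
    .ref k1 k3 [(z1,[y1,z0,z0,z0,z1])],.ref k0 k2 [(z1,[z1])],.ref k178 k2 [(z1,[z1,z0,y1])],.contra [z1,z1],
    .contra [y1,z0,z0,y1,z1],.ref k178 k2 [(z1,[z1])],.ref (nat_lit 328) k2 [(z1,[z1,z1,z1,z1,y1]),(z1,[z0,y1,z0,y1,
    z1])],.contra [z1],.ref (nat_lit 217) k8 [(z1,[z1]),(z1,[z0,z1,z0,z1])],.ref (nat_lit 330) k2 [(z2,[y1,z4,z4]),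
    (z2,[z1]),(z2,[z1,z0,y4,z4]),(z2,[y1,z0,z4])],.ref (nat_lit 296) k11 [(z1,[z1,z1,y1,z1,y1]),(z1,[z0,z1,z0,z1])],
    .ref (nat_lit 252) k1 [(z1,[z1,z3,z0,z4,y3]),(z1,[z0,y1,z0,y1,z1])],.ref (nat_lit 252) k1 [(z1,[z1,z2,z0,z2,y2]),
    (z1,[z0,y1,z0,y1,z1])],.contra [y1,y1,z1,y1,z1],.contra [y1,y1,z1,y1,z1],.ref (nat_lit 252) k2 [(z1,[z1,z3,z0,z2,
    y2]),(z1,[z0,y1,z0,y1,z1])],.contra [y1,y1,z1,y1,z1],.ref (nat_lit 296) k11 [(z1,[z1,z1,z0,z1,y1]),(z1,[z0,z1,z0,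
    z1])],.contra [y1,z0,z1,z1],.contra [y1,z1,z0,z0,z1],.contra [y1,z0,z1,z1],.contra [y1,z0,z1,z1],.contra [y1,z0,
    z1,z1],.contra [y2,y1,z1,y2,z2],.contra [z1,z0,y1],.contra [y1,z0,z0,y1,z1],.ref (nat_lit 328) k2 [(z1,[y1,z0,z0,
    y1,z1]),(z1,[z0,y1,z0,y1,z1])],.contra [y1,y1,z0,y1,z1],.contra [y1,y1,z0,y1,z1],.ref (nat_lit 252) k2 [(z1,[z1,
    z3,z1,z2,y2]),(z1,[z0,y1,z0,y1,z1])],.contra [y1,z2,z0,z2],.contra [y2,z1,z1,z2],.ref (nat_lit 328) k2 [(z1,[y1,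
    z1,z0,z1]),(z1,[z0,y1,z0,y1,z1])],.contra [y1,z0,z0,z1],.contra [z1],.contra [y1,y1,z1,y1,z1],.ref k0 k2 [(z1,[z1,
    z1])],.contra [y2,y1,z1,y2,z2],.ref (nat_lit 329) k2 [(z1,[z1,z3,z2,z2,y2]),(z1,[y1,y2,y1,y2,z2]),(z1,[y1,y2,y2,
    y1,z2]),(z1,[z1,z2,z2,z2,y2])],.contra [y1,y1,z0,y1,z1],.contra [y1,z0,z0,z1],.contra [z1,z2],.ref k178 k2 [(z1,
    [z1,z1])],.contra [z1],.contra [y2,y1,y1,y2,z2],.contra [z1],.ref k1 k3 [(z1,[y1,y1,y1,z0,z1])]]),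
    .geo true z1 k5 [(y4,z6),(z4,y4),(z4,y5),(y2,z4),(z2,y2),(z0,z1)] [(z1,[z1]),(z1,[z0,z1]),(z1,[z0,z0,z1]),(z1,[z0,z0,
    z0,z1]),(z1,[y1,y1,y1,y1,z1]),(z1,
    [])] (Int.ofNat (nat_lit 699050)) (Int.ofNat (nat_lit 838861)) (.s (.s (.l k1) (.l k1)) (.s (.s (.l k1) (.l k1)) (.l k1))) [],
    .geo true z2 k5 [(y2,z4),(z3,y2),(z2,y2),(z4,y2),(z1,z0),(z0,z2)] [(z1,[z2]),(z1,[z0,z1]),(z1,[z0,z0,z2]),(z1,[z0,z0,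
    z0,z2]),(z1,[y2,y1,y2,y2,z2]),(z1,
    [])] (Int.ofNat (nat_lit 524288)) (Int.ofNat (nat_lit 1048576)) (.s (.s (.l k1) (.l k1)) (.s (.l k1) (.l k1))) []]

/-- the nodes with numbers from 295 -/
noncomputable def cU6_2_n5 : List XN :=
  cU6_2_n5_0 ++ (cU6_2_n5_1 ++ (cU6_2_n5_2 ++ cU6_2_n5_3))

theorem cU6_2_k5 : allI (chkX 6 cU6_2_w ttU6 cU6_2_s (blkF [] cU6_2_D)) cU6_2_n5 295 = true := by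
  decide +kernel

end Pool.Agent.Lib_MP_fa6e45
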